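import Pool.Agent.Lib.MP_5854e1_co.DtD

/-!
# Windows and cells of the rings
-/

set_option autoImplicit false
set_option maxRecDepth 100000
set_option deprecated.oldSectionVars true

namespace Pool.Agent.Lib.MP_5854e1_co.Cz

open Pool.Agent.Lib.MP_5854e1_co

noncomputable section

noncomputable def tv5545 : DT := (.nd (nat_lit 0) (.nd (nat_lit 1) (.nd (nat_lit 2) (.nd (nat_lit 3) (.nd (nat_lit 4) (.nd (nat_lit 5) (.nd (nat_lit 6) (.nd (nat_lit 7) (.nd (nat_lit 8) (.nd (nat_lit 9) 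
(.lf (nat_lit 496640) (.g (nat_lit 3162) (.e (nat_lit 163907) (nat_lit 12) (.e (nat_lit 426555) (nat_lit 32) (.e (nat_lit 376865) (nat_lit 22) (.e (nat_lit 90160) (nat_lit 11) (.e (nat_lit 24597) (nat_lit 1) (.e (nat_lit 57927) (nat_lit 282) .nil)))))) (.g (nat_lit 1) (.e (nat_lit 155889) (nat_lit 0) .nil) .nil))) 
(.lf (nat_lit 497152) (.g (nat_lit 1881) (.e (nat_lit 163915) (nat_lit 12) (.e (nat_lit 426306) (nat_lit 12) (.e (nat_lit 475209) (nat_lit 41) (.e (nat_lit 712752) (nat_lit 29) (.e (nat_lit 442428) (nat_lit 24) .nil))))) (.g (nat_lit 0) (.e (nat_lit 157155) (nat_lit 0) .nil) .nil)))) (.nd (nat_lit 9) 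
(.lf (nat_lit 496896) (.g (nat_lit 2015) (.e (nat_lit 163908) (nat_lit 12) (.e (nat_lit 426285) (nat_lit 10) (.e (nat_lit 434268) (nat_lit 36) (.e (nat_lit 639020) (nat_lit 16) (.e (nat_lit 65599) (nat_lit 9) (.e (nat_lit 335997) (nat_lit 1) (.e (nat_lit 57857) (nat_lit 254) .nil))))))) (.g (nat_lit 1) (.e (nat_lit 156335) (nat_lit 0) .nil) .nil))) 
(.lf (nat_lit 497408) (.g (nat_lit 1852) (.e (nat_lit 163938) (nat_lit 18) (.e (nat_lit 475176) (nat_lit 24) (.e (nat_lit 516174) (nat_lit 14) (.e (nat_lit 466954) (nat_lit 11) (.e (nat_lit 335988) (nat_lit 1) .nil))))) (.g (nat_lit 0) (.e (nat_lit 160794) (nat_lit 0) .nil) .nil))))) (.nd (nat_lit 8) (.nd (nat_lit 9) 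
(.lf (nat_lit 496768) (.g (nat_lit 3271) (.e (nat_lit 163907) (nat_lit 12) (.e (nat_lit 426568) (nat_lit 34) (.e (nat_lit 393268) (nat_lit 23) (.e (nat_lit 426438) (nat_lit 18) (.e (nat_lit 98333) (nat_lit 18) (.e (nat_lit 164325) (nat_lit 230) .nil)))))) (.g (nat_lit 1) (.e (nat_lit 156018) (nat_lit 0) .nil) .nil))) 
(.lf (nat_lit 497280) (.g (nat_lit 1749) (.e (nat_lit 163923) (nat_lit 15) (.e (nat_lit 450587) (nat_lit 10) (.e (nat_lit 573478) (nat_lit 12) (.e (nat_lit 57359) (nat_lit 0) .nil)))) (.g (nat_lit 0) (.e (nat_lit 158738) (nat_lit 0) .nil) .nil)))) (.nd (nat_lit 9) 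
(.lf (nat_lit 497024) (.g (nat_lit 4256) (.e (nat_lit 163909) (nat_lit 12) (.e (nat_lit 426125) (nat_lit 2) (.e (nat_lit 196666) (nat_lit 13) (.e (nat_lit 65610) (nat_lit 10) (.e (nat_lit 344129) (nat_lit 26) (.e (nat_lit 557089) (nat_lit 12) (.e (nat_lit 163848) (nat_lit 0) (.e (nat_lit 6416) (nat_lit 341) .nil)))))))) (.g (nat_lit 1) (.e (nat_lit 156831) (nat_lit 0) .nil) .nil))) 
(.lf (nat_lit 497536) (.g (nat_lit 3368) (.e (nat_lit 163939) (nat_lit 18) (.e (nat_lit 475177) (nat_lit 24) (.e (nat_lit 516174) (nat_lit 14) (.e (nat_lit 466954) (nat_lit 11) (.e (nat_lit 335996) (nat_lit 1) (.e (nat_lit 57691) (nat_lit 156) .nil)))))) (.g (nat_lit 1) (.e (nat_lit 160943) (nat_lit 0) .nil) .nil)))))) (.nd (nat_lit 7) (.nd (nat_lit 8) (.nd (nat_lit 9) 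
(.lf (nat_lit 496704) (.g (nat_lit 2789) (.e (nat_lit 163907) (nat_lit 12) (.e (nat_lit 426566) (nat_lit 34) (.e (nat_lit 393286) (nat_lit 25) (.e (nat_lit 458789) (nat_lit 23) (.e (nat_lit 532502) (nat_lit 1) (.e (nat_lit 57692) (nat_lit 156) .nil)))))) (.g (nat_lit 1) (.e (nat_lit 155954) (nat_lit 0) .nil) .nil))) 
(.lf (nat_lit 497216) (.g (nat_lit 3667) (.e (nat_lit 163916) (nat_lit 13) (.e (nat_lit 434247) (nat_lit 28) (.e (nat_lit 573477) (nat_lit 12) (.e (nat_lit 57750) (nat_lit 201) (.e (nat_lit 3090) (nat_lit 191) (.e (nat_lit 483363) (nat_lit 18) (.e (nat_lit 57692) (nat_lit 156) .nil))))))) (.g (nat_lit 1) (.e (nat_lit 157509) (nat_lit 0) .nil) .nil)))) (.nd (nat_lit 9) 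
(.lf (nat_lit 496960) (.g (nat_lit 2548) (.e (nat_lit 163908) (nat_lit 12) (.e (nat_lit 426305) (nat_lit 12) (.e (nat_lit 475211) (nat_lit 41) (.e (nat_lit 712755) (nat_lit 30) (.e (nat_lit 450569) (nat_lit 0) (.e (nat_lit 5596) (nat_lit 310) .nil)))))) (.g (nat_lit 1) (.e (nat_lit 156526) (nat_lit 0) .nil) .nil))) 
(.lf (nat_lit 497472) (.g (nat_lit 1619) (.e (nat_lit 163938) (nat_lit 18) (.e (nat_lit 475179) (nat_lit 24) (.e (nat_lit 516176) (nat_lit 14) (.e (nat_lit 466953) (nat_lit 11) .nil)))) (.g (nat_lit 0) (.e (nat_lit 160876) (nat_lit 0) .nil) .nil))))) (.nd (nat_lit 8) (.nd (nat_lit 9) 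
(.lf (nat_lit 496832) (.g (nat_lit 4123) (.e (nat_lit 163908) (nat_lit 12) (.e (nat_lit 426132) (nat_lit 3) (.e (nat_lit 204868) (nat_lit 29) (.e (nat_lit 360475) (nat_lit 8) (.e (nat_lit 557089) (nat_lit 12) (.e (nat_lit 163849) (nat_lit 0) (.e (nat_lit 6420) (nat_lit 341) .nil))))))) (.g (nat_lit 1) (.e (nat_lit 156101) (nat_lit 0) .nil) .nil))) 
(.lf (nat_lit 497344) (.g (nat_lit 2332) (.e (nat_lit 163935) (nat_lit 18) (.e (nat_lit 475179) (nat_lit 24) (.e (nat_lit 516176) (nat_lit 14) (.e (nat_lit 466954) (nat_lit 11) (.e (nat_lit 335988) (nat_lit 1) .nil))))) (.g (nat_lit 0) (.e (nat_lit 160697) (nat_lit 0) .nil) .nil)))) (.nd (nat_lit 9) 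
(.lf (nat_lit 497088) (.g (nat_lit 1894) (.e (nat_lit 163913) (nat_lit 12) (.e (nat_lit 426318) (nat_lit 12) (.e (nat_lit 475198) (nat_lit 40) (.e (nat_lit 704598) (nat_lit 6) (.e (nat_lit 188455) (nat_lit 24) (.e (nat_lit 229680) (nat_lit 244) .nil)))))) (.g (nat_lit 1) (.e (nat_lit 156974) (nat_lit 0) .nil) .nil))) 
(.lf (nat_lit 497600) (.g (nat_lit 2841) (.e (nat_lit 163939) (nat_lit 18) (.e (nat_lit 475185) (nat_lit 29) (.e (nat_lit 557100) (nat_lit 13) (.e (nat_lit 172113) (nat_lit 10) (.e (nat_lit 434242) (nat_lit 28) .nil))))) (.g (nat_lit 0) (.e (nat_lit 161026) (nat_lit 0) .nil) .nil))))))) (.nd (nat_lit 6) (.nd (nat_lit 7) (.nd (nat_lit 8) (.nd (nat_lit 9) 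
(.lf (nat_lit 496672) (.g (nat_lit 2294) (.e (nat_lit 163907) (nat_lit 12) (.e (nat_lit 426566) (nat_lit 34) (.e (nat_lit 393271) (nat_lit 23) (.e (nat_lit 426131) (nat_lit 3) (.e (nat_lit 204830) (nat_lit 18) (.e (nat_lit 57689) (nat_lit 156) .nil)))))) (.g (nat_lit 1) (.e (nat_lit 155922) (nat_lit 0) .nil) .nil))) 
(.lf (nat_lit 497184) (.g (nat_lit 952) (.e (nat_lit 171776) (nat_lit 12) (.e (nat_lit 426428) (nat_lit 17) (.e (nat_lit 90176) (nat_lit 15) (.e (nat_lit 188423) (nat_lit 11) .nil)))) (.g (nat_lit 0) (.e (nat_lit 157384) (nat_lit 0) .nil) .nil)))) (.nd (nat_lit 9) 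
(.lf (nat_lit 496928) (.g (nat_lit 1977) (.e (nat_lit 163908) (nat_lit 12) (.e (nat_lit 426290) (nat_lit 10) (.e (nat_lit 434268) (nat_lit 36) (.e (nat_lit 639020) (nat_lit 16) (.e (nat_lit 65604) (nat_lit 9) (.e (nat_lit 335997) (nat_lit 1) (.e (nat_lit 57857) (nat_lit 254) .nil))))))) (.g (nat_lit 1) (.e (nat_lit 156461) (nat_lit 0) .nil) .nil))) 
(.lf (nat_lit 497440) (.g (nat_lit 3541) (.e (nat_lit 163938) (nat_lit 18) (.e (nat_lit 475177) (nat_lit 24) (.e (nat_lit 516176) (nat_lit 14) (.e (nat_lit 466954) (nat_lit 11) (.e (nat_lit 335996) (nat_lit 1) (.e (nat_lit 57691) (nat_lit 156) .nil)))))) (.g (nat_lit 1) (.e (nat_lit 160826) (nat_lit 0) .nil) .nil))))) (.nd (nat_lit 8) (.nd (nat_lit 9) 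
(.lf (nat_lit 496800) (.g (nat_lit 3801) (.e (nat_lit 163907) (nat_lit 12) (.e (nat_lit 426568) (nat_lit 34) (.e (nat_lit 393291) (nat_lit 26) (.e (nat_lit 475179) (nat_lit 24) (.e (nat_lit 516115) (nat_lit 1) (.e (nat_lit 164325) (nat_lit 230) .nil)))))) (.g (nat_lit 1) (.e (nat_lit 156050) (nat_lit 0) .nil) .nil))) 
(.lf (nat_lit 497312) (.g (nat_lit 2103) (.e (nat_lit 163931) (nat_lit 17) (.e (nat_lit 466977) (nat_lit 22) (.e (nat_lit 196656) (nat_lit 11) (.e (nat_lit 16407) (nat_lit 1) (.e (nat_lit 164330) (nat_lit 230) .nil))))) (.g (nat_lit 0) (.e (nat_lit 159782) (nat_lit 0) .nil) .nil)))) (.nd (nat_lit 9) 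
(.lf (nat_lit 497056) (.g (nat_lit 1684) (.e (nat_lit 163910) (nat_lit 12) (.e (nat_lit 426140) (nat_lit 3) (.e (nat_lit 204869) (nat_lit 29) (.e (nat_lit 360474) (nat_lit 8) .nil)))) (.g (nat_lit 0) (.e (nat_lit 156896) (nat_lit 0) .nil) .nil))) 
(.lf (nat_lit 497568) (.g (nat_lit 3120) (.e (nat_lit 163939) (nat_lit 18) (.e (nat_lit 475179) (nat_lit 24) (.e (nat_lit 516151) (nat_lit 9) (.e (nat_lit 426331) (nat_lit 13) (.e (nat_lit 483363) (nat_lit 18) (.e (nat_lit 57686) (nat_lit 156) .nil)))))) (.g (nat_lit 1) (.e (nat_lit 160983) (nat_lit 0) .nil) .nil)))))) (.nd (nat_lit 7) (.nd (nat_lit 8) (.nd (nat_lit 9) 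
(.lf (nat_lit 496736) (.g (nat_lit 2710) (.e (nat_lit 163907) (nat_lit 12) (.e (nat_lit 426566) (nat_lit 34) (.e (nat_lit 393296) (nat_lit 26) (.e (nat_lit 475176) (nat_lit 24) (.e (nat_lit 516119) (nat_lit 1) (.e (nat_lit 164325) (nat_lit 230) .nil)))))) (.g (nat_lit 1) (.e (nat_lit 155986) (nat_lit 0) .nil) .nil))) 
(.lf (nat_lit 497248) (.g (nat_lit 471) (.e (nat_lit 163919) (nat_lit 14) (.e (nat_lit 442374) (nat_lit 0) (.e (nat_lit 2057) (nat_lit 142) .nil))) (.g (nat_lit 0) (.e (nat_lit 157798) (nat_lit 0) .nil) .nil)))) (.nd (nat_lit 9) 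
(.lf (nat_lit 496992) (.g (nat_lit 4290) (.e (nat_lit 163908) (nat_lit 12) (.e (nat_lit 426338) (nat_lit 14) (.e (nat_lit 491549) (nat_lit 9) (.e (nat_lit 336430) (nat_lit 29) (.e (nat_lit 442430) (nat_lit 24) (.e (nat_lit 229680) (nat_lit 244) .nil)))))) (.g (nat_lit 1) (.e (nat_lit 156722) (nat_lit 0) .nil) .nil))) 
(.lf (nat_lit 497504) (.g (nat_lit 3259) (.e (nat_lit 163938) (nat_lit 18) (.e (nat_lit 475185) (nat_lit 29) (.e (nat_lit 557100) (nat_lit 13) (.e (nat_lit 172113) (nat_lit 10) (.e (nat_lit 434248) (nat_lit 28) (.e (nat_lit 573475) (nat_lit 12) (.e (nat_lit 57344) (nat_lit 0) (.e (nat_lit 6943) (nat_lit 375) .nil)))))))) (.g (nat_lit 1) (.e (nat_lit 160909) (nat_lit 0) .nil) .nil))))) 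
(.nd (nat_lit 8) (.nd (nat_lit 9) 
(.lf (nat_lit 496864) (.g (nat_lit 3164) (.e (nat_lit 163908) (nat_lit 12) (.e (nat_lit 426136) (nat_lit 3) (.e (nat_lit 204869) (nat_lit 29) (.e (nat_lit 360475) (nat_lit 8) (.e (nat_lit 557089) (nat_lit 12) (.e (nat_lit 163843) (nat_lit 0) (.e (nat_lit 6418) (nat_lit 341) .nil))))))) (.g (nat_lit 1) (.e (nat_lit 156133) (nat_lit 0) .nil) .nil))) 
(.lf (nat_lit 497376) (.g (nat_lit 3186) (.e (nat_lit 163936) (nat_lit 18) (.e (nat_lit 475179) (nat_lit 24) (.e (nat_lit 516150) (nat_lit 9) (.e (nat_lit 426323) (nat_lit 13) (.e (nat_lit 483365) (nat_lit 18) (.e (nat_lit 57688) (nat_lit 156) .nil)))))) (.g (nat_lit 1) (.e (nat_lit 160735) (nat_lit 0) .nil) .nil)))) (.nd (nat_lit 9) 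
(.lf (nat_lit 497120) (.g (nat_lit 829) (.e (nat_lit 163914) (nat_lit 12) (.e (nat_lit 426306) (nat_lit 12) (.e (nat_lit 475211) (nat_lit 41) .nil))) (.g (nat_lit 0) (.e (nat_lit 157056) (nat_lit 0) .nil) .nil))) 
(.lf (nat_lit 497632) (.g (nat_lit 2761) (.e (nat_lit 163941) (nat_lit 19) (.e (nat_lit 483337) (nat_lit 9) (.e (nat_lit 426190) (nat_lit 9) (.e (nat_lit 426436) (nat_lit 18) (.e (nat_lit 98335) (nat_lit 18) (.e (nat_lit 164326) (nat_lit 230) .nil)))))) (.g (nat_lit 1) (.e (nat_lit 161122) (nat_lit 0) .nil) .nil)))))))) 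
(.nd (nat_lit 5) (.nd (nat_lit 6) (.nd (nat_lit 7) (.nd (nat_lit 8) (.nd (nat_lit 9) 
(.lf (nat_lit 496656) (.g (nat_lit 2587) (.e (nat_lit 163907) (nat_lit 12) (.e (nat_lit 426564) (nat_lit 34) (.e (nat_lit 393296) (nat_lit 26) (.e (nat_lit 475179) (nat_lit 24) (.e (nat_lit 516115) (nat_lit 1) .nil))))) (.g (nat_lit 0) (.e (nat_lit 155906) (nat_lit 0) .nil) .nil))) 
(.lf (nat_lit 497168) (.g (nat_lit 2902) (.e (nat_lit 171776) (nat_lit 12) (.e (nat_lit 426123) (nat_lit 2) (.e (nat_lit 196666) (nat_lit 13) (.e (nat_lit 65617) (nat_lit 10) (.e (nat_lit 344130) (nat_lit 26) .nil))))) (.g (nat_lit 0) (.e (nat_lit 157346) (nat_lit 0) .nil) .nil)))) (.nd (nat_lit 9) 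
(.lf (nat_lit 496912) (.g (nat_lit 379) (.e (nat_lit 163908) (nat_lit 12) (.e (nat_lit 426286) (nat_lit 10) (.e (nat_lit 434271) (nat_lit 38) .nil))) (.g (nat_lit 0) (.e (nat_lit 156429) (nat_lit 0) .nil) .nil))) 
(.lf (nat_lit 497424) (.g (nat_lit 2899) (.e (nat_lit 163938) (nat_lit 18) (.e (nat_lit 475177) (nat_lit 24) (.e (nat_lit 516150) (nat_lit 9) (.e (nat_lit 426323) (nat_lit 13) (.e (nat_lit 483365) (nat_lit 18) (.e (nat_lit 57692) (nat_lit 156) .nil)))))) (.g (nat_lit 1) (.e (nat_lit 160810) (nat_lit 0) .nil) .nil))))) (.nd (nat_lit 8) (.nd (nat_lit 9) 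
(.lf (nat_lit 496784) (.g (nat_lit 3137) (.e (nat_lit 163907) (nat_lit 12) (.e (nat_lit 426568) (nat_lit 34) (.e (nat_lit 393271) (nat_lit 23) (.e (nat_lit 426438) (nat_lit 18) (.e (nat_lit 98335) (nat_lit 18) (.e (nat_lit 164325) (nat_lit 230) .nil)))))) (.g (nat_lit 1) (.e (nat_lit 156034) (nat_lit 0) .nil) .nil))) 
(.lf (nat_lit 497296) (.g (nat_lit 866) (.e (nat_lit 163923) (nat_lit 15) (.e (nat_lit 450597) (nat_lit 17) (.e (nat_lit 663574) (nat_lit 9) (.e (nat_lit 7936) (nat_lit 24) .nil)))) (.g (nat_lit 0) (.e (nat_lit 158782) (nat_lit 0) .nil) .nil)))) (.nd (nat_lit 9) 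
(.lf (nat_lit 497040) (.g (nat_lit 3089) (.e (nat_lit 163909) (nat_lit 12) (.e (nat_lit 426125) (nat_lit 2) (.e (nat_lit 196666) (nat_lit 13) (.e (nat_lit 65617) (nat_lit 10) (.e (nat_lit 344133) (nat_lit 26) (.e (nat_lit 557091) (nat_lit 12) (.e (nat_lit 163844) (nat_lit 0) (.e (nat_lit 6418) (nat_lit 341) .nil)))))))) (.g (nat_lit 1) (.e (nat_lit 156847) (nat_lit 0) .nil) .nil))) 
(.lf (nat_lit 497552) (.g (nat_lit 2204) (.e (nat_lit 163939) (nat_lit 18) (.e (nat_lit 475179) (nat_lit 24) (.e (nat_lit 516146) (nat_lit 9) (.e (nat_lit 426323) (nat_lit 13) (.e (nat_lit 483366) (nat_lit 18) .nil))))) (.g (nat_lit 0) (.e (nat_lit 160960) (nat_lit 0) .nil) .nil)))))) (.nd (nat_lit 7) (.nd (nat_lit 8) (.nd (nat_lit 9) 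
(.lf (nat_lit 496720) (.g (nat_lit 2670) (.e (nat_lit 163907) (nat_lit 12) (.e (nat_lit 426566) (nat_lit 34) (.e (nat_lit 393293) (nat_lit 26) (.e (nat_lit 475177) (nat_lit 24) (.e (nat_lit 516118) (nat_lit 1) (.e (nat_lit 164325) (nat_lit 230) .nil)))))) (.g (nat_lit 1) (.e (nat_lit 155970) (nat_lit 0) .nil) .nil))) 
(.lf (nat_lit 497232) (.g (nat_lit 4224) (.e (nat_lit 163917) (nat_lit 13) (.e (nat_lit 434231) (nat_lit 23) (.e (nat_lit 532550) (nat_lit 12) (.e (nat_lit 360475) (nat_lit 8) (.e (nat_lit 557091) (nat_lit 12) (.e (nat_lit 163843) (nat_lit 0) (.e (nat_lit 6418) (nat_lit 341) .nil))))))) (.g (nat_lit 1) (.e (nat_lit 157638) (nat_lit 0) .nil) .nil)))) (.nd (nat_lit 9) 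
(.lf (nat_lit 496976) (.g (nat_lit 1580) (.e (nat_lit 163908) (nat_lit 12) (.e (nat_lit 426338) (nat_lit 14) (.e (nat_lit 491540) (nat_lit 3) (.e (nat_lit 98372) (nat_lit 29) (.e (nat_lit 450568) (nat_lit 0) (.e (nat_lit 7936) (nat_lit 243) .nil)))))) (.g (nat_lit 1) (.e (nat_lit 156694) (nat_lit 0) .nil) .nil))) 
(.lf (nat_lit 497488) (.g (nat_lit 3169) (.e (nat_lit 163938) (nat_lit 18) (.e (nat_lit 475179) (nat_lit 24) (.e (nat_lit 516176) (nat_lit 14) (.e (nat_lit 466954) (nat_lit 11) (.e (nat_lit 335996) (nat_lit 1) (.e (nat_lit 57692) (nat_lit 156) .nil)))))) (.g (nat_lit 1) (.e (nat_lit 160892) (nat_lit 0) .nil) .nil))))) (.nd (nat_lit 8) (.nd (nat_lit 9) 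
(.lf (nat_lit 496848) (.g (nat_lit 2034) (.e (nat_lit 163908) (nat_lit 12) (.e (nat_lit 426132) (nat_lit 3) (.e (nat_lit 204869) (nat_lit 29) (.e (nat_lit 360475) (nat_lit 8) (.e (nat_lit 557091) (nat_lit 12) .nil))))) (.g (nat_lit 0) (.e (nat_lit 156117) (nat_lit 0) .nil) .nil))) 
(.lf (nat_lit 497360) (.g (nat_lit 2611) (.e (nat_lit 163936) (nat_lit 18) (.e (nat_lit 475177) (nat_lit 24) (.e (nat_lit 516174) (nat_lit 14) (.e (nat_lit 466954) (nat_lit 11) (.e (nat_lit 335994) (nat_lit 1) (.e (nat_lit 57686) (nat_lit 156) .nil)))))) (.g (nat_lit 1) (.e (nat_lit 160715) (nat_lit 0) .nil) .nil)))) (.nd (nat_lit 9) 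
(.lf (nat_lit 497104) (.g (nat_lit 2652) (.e (nat_lit 163913) (nat_lit 12) (.e (nat_lit 426347) (nat_lit 14) (.e (nat_lit 491549) (nat_lit 9) (.e (nat_lit 336432) (nat_lit 30) (.e (nat_lit 450569) (nat_lit 0) .nil))))) (.g (nat_lit 0) (.e (nat_lit 157020) (nat_lit 0) .nil) .nil))) 
(.lf (nat_lit 497616) (.g (nat_lit 4125) (.e (nat_lit 163941) (nat_lit 19) (.e (nat_lit 483337) (nat_lit 9) (.e (nat_lit 426187) (nat_lit 9) (.e (nat_lit 426436) (nat_lit 18) (.e (nat_lit 98335) (nat_lit 18) (.e (nat_lit 164325) (nat_lit 230) .nil)))))) (.g (nat_lit 1) (.e (nat_lit 161089) (nat_lit 0) .nil) .nil))))))) (.nd (nat_lit 6) (.nd (nat_lit 7) (.nd (nat_lit 8) (.nd (nat_lit 9) 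
(.lf (nat_lit 496688) (.g (nat_lit 3239) (.e (nat_lit 163907) (nat_lit 12) (.e (nat_lit 426566) (nat_lit 34) (.e (nat_lit 393273) (nat_lit 23) (.e (nat_lit 426131) (nat_lit 3) (.e (nat_lit 204830) (nat_lit 18) (.e (nat_lit 57692) (nat_lit 156) .nil)))))) (.g (nat_lit 1) (.e (nat_lit 155938) (nat_lit 0) .nil) .nil))) 
(.lf (nat_lit 497200) (.g (nat_lit 2223) (.e (nat_lit 163916) (nat_lit 13) (.e (nat_lit 434231) (nat_lit 23) (.e (nat_lit 532550) (nat_lit 12) (.e (nat_lit 360474) (nat_lit 8) (.e (nat_lit 557093) (nat_lit 12) (.e (nat_lit 163847) (nat_lit 0) (.e (nat_lit 6416) (nat_lit 341) .nil))))))) (.g (nat_lit 1) (.e (nat_lit 157476) (nat_lit 0) .nil) .nil)))) (.nd (nat_lit 9) 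
(.lf (nat_lit 496944) (.g (nat_lit 420) (.e (nat_lit 163908) (nat_lit 12) (.e (nat_lit 426305) (nat_lit 12) (.e (nat_lit 475211) (nat_lit 41) .nil))) (.g (nat_lit 0) (.e (nat_lit 156510) (nat_lit 0) .nil) .nil))) 
(.lf (nat_lit 497456) (.g (nat_lit 3312) (.e (nat_lit 163938) (nat_lit 18) (.e (nat_lit 475179) (nat_lit 24) (.e (nat_lit 516150) (nat_lit 9) (.e (nat_lit 426323) (nat_lit 13) (.e (nat_lit 483365) (nat_lit 18) (.e (nat_lit 57691) (nat_lit 156) .nil)))))) (.g (nat_lit 1) (.e (nat_lit 160847) (nat_lit 0) .nil) .nil))))) (.nd (nat_lit 8) (.nd (nat_lit 9) 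
(.lf (nat_lit 496816) (.g (nat_lit 4412) (.e (nat_lit 163908) (nat_lit 12) (.e (nat_lit 426113) (nat_lit 2) (.e (nat_lit 196666) (nat_lit 13) (.e (nat_lit 65610) (nat_lit 10) (.e (nat_lit 344117) (nat_lit 21) (.e (nat_lit 516115) (nat_lit 1) (.e (nat_lit 171776) (nat_lit 270) .nil))))))) (.g (nat_lit 1) (.e (nat_lit 156068) (nat_lit 0) .nil) .nil))) 
(.lf (nat_lit 497328) (.g (nat_lit 936) (.e (nat_lit 163933) (nat_lit 17) (.e (nat_lit 466977) (nat_lit 22) (.e (nat_lit 196622) (nat_lit 9) .nil))) (.g (nat_lit 0) (.e (nat_lit 160626) (nat_lit 0) .nil) .nil)))) (.nd (nat_lit 9) 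
(.lf (nat_lit 497072) (.g (nat_lit 2827) (.e (nat_lit 163912) (nat_lit 12) (.e (nat_lit 426140) (nat_lit 3) (.e (nat_lit 204869) (nat_lit 29) (.e (nat_lit 360475) (nat_lit 8) (.e (nat_lit 557091) (nat_lit 12) .nil))))) (.g (nat_lit 0) (.e (nat_lit 156948) (nat_lit 0) .nil) .nil))) 
(.lf (nat_lit 497584) (.g (nat_lit 2558) (.e (nat_lit 163939) (nat_lit 18) (.e (nat_lit 475179) (nat_lit 24) (.e (nat_lit 516176) (nat_lit 14) (.e (nat_lit 466954) (nat_lit 11) (.e (nat_lit 335986) (nat_lit 1) (.e (nat_lit 57686) (nat_lit 156) .nil)))))) (.g (nat_lit 1) (.e (nat_lit 161010) (nat_lit 0) .nil) .nil)))))) (.nd (nat_lit 7) (.nd (nat_lit 8) (.nd (nat_lit 9) 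
(.lf (nat_lit 496752) (.g (nat_lit 2409) (.e (nat_lit 163907) (nat_lit 12) (.e (nat_lit 426567) (nat_lit 34) (.e (nat_lit 393291) (nat_lit 26) (.e (nat_lit 475177) (nat_lit 24) (.e (nat_lit 516119) (nat_lit 1) (.e (nat_lit 164325) (nat_lit 230) .nil)))))) (.g (nat_lit 1) (.e (nat_lit 156002) (nat_lit 0) .nil) .nil))) 
(.lf (nat_lit 497264) (.g (nat_lit 3172) (.e (nat_lit 163920) (nat_lit 14) (.e (nat_lit 442430) (nat_lit 24) (.e (nat_lit 229637) (nat_lit 228) (.e (nat_lit 57437) (nat_lit 17) (.e (nat_lit 376859) (nat_lit 21) (.e (nat_lit 57857) (nat_lit 254) .nil)))))) (.g (nat_lit 1) (.e (nat_lit 158132) (nat_lit 0) .nil) .nil)))) (.nd (nat_lit 9) 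
(.lf (nat_lit 497008) (.g (nat_lit 3451) (.e (nat_lit 163908) (nat_lit 12) (.e (nat_lit 426338) (nat_lit 14) (.e (nat_lit 491550) (nat_lit 9) (.e (nat_lit 336430) (nat_lit 29) (.e (nat_lit 442430) (nat_lit 24) (.e (nat_lit 229677) (nat_lit 244) .nil)))))) (.g (nat_lit 1) (.e (nat_lit 156740) (nat_lit 0) .nil) .nil))) 
(.lf (nat_lit 497520) (.g (nat_lit 2458) (.e (nat_lit 163939) (nat_lit 18) (.e (nat_lit 475177) (nat_lit 24) (.e (nat_lit 516149) (nat_lit 9) (.e (nat_lit 426323) (nat_lit 13) (.e (nat_lit 483366) (nat_lit 18) (.e (nat_lit 57688) (nat_lit 156) .nil)))))) (.g (nat_lit 1) (.e (nat_lit 160926) (nat_lit 0) .nil) .nil))))) (.nd (nat_lit 8) (.nd (nat_lit 9) 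
(.lf (nat_lit 496880) (.g (nat_lit 1357) (.e (nat_lit 163908) (nat_lit 12) (.e (nat_lit 426171) (nat_lit 7) (.e (nat_lit 409636) (nat_lit 14) (.e (nat_lit 270372) (nat_lit 16) (.e (nat_lit 286747) (nat_lit 9) (.e (nat_lit 335997) (nat_lit 1) (.e (nat_lit 57857) (nat_lit 254) .nil))))))) (.g (nat_lit 1) (.e (nat_lit 156182) (nat_lit 0) .nil) .nil))) 
(.lf (nat_lit 497392) (.g (nat_lit 1791) (.e (nat_lit 163936) (nat_lit 18) (.e (nat_lit 475179) (nat_lit 24) (.e (nat_lit 516176) (nat_lit 14) (.e (nat_lit 466954) (nat_lit 11) (.e (nat_lit 335995) (nat_lit 1) .nil))))) (.g (nat_lit 0) (.e (nat_lit 160769) (nat_lit 0) .nil) .nil)))) (.nd (nat_lit 9) 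
(.lf (nat_lit 497136) (.g (nat_lit 894) (.e (nat_lit 163915) (nat_lit 12) (.e (nat_lit 426189) (nat_lit 9) (.e (nat_lit 426542) (nat_lit 29) (.e (nat_lit 360192) (nat_lit 5) .nil)))) (.g (nat_lit 0) (.e (nat_lit 157134) (nat_lit 0) .nil) .nil))) 
(.lf (nat_lit 497648) (.g (nat_lit 3639) (.e (nat_lit 163941) (nat_lit 19) (.e (nat_lit 483337) (nat_lit 9) (.e (nat_lit 426305) (nat_lit 12) (.e (nat_lit 475179) (nat_lit 24) (.e (nat_lit 516117) (nat_lit 1) (.e (nat_lit 164332) (nat_lit 230) .nil)))))) (.g (nat_lit 1) (.e (nat_lit 161159) (nat_lit 0) .nil) .nil))))))))) 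
(.nd (nat_lit 4) (.nd (nat_lit 5) (.nd (nat_lit 6) (.nd (nat_lit 7) (.nd (nat_lit 8) 
(.nd (nat_lit 9) 
(.lf (nat_lit 496648) (.g (nat_lit 2777) (.e (nat_lit 163907) (nat_lit 12) (.e (nat_lit 426555) (nat_lit 32) (.e (nat_lit 376869) (nat_lit 23) (.e (nat_lit 98313) (nat_lit 9) (.e (nat_lit 335986) (nat_lit 1) (.e (nat_lit 57927) (nat_lit 282) .nil)))))) (.g (nat_lit 1) (.e (nat_lit 155898) (nat_lit 0) .nil) .nil))) 
(.lf (nat_lit 497160) (.g (nat_lit 1136) (.e (nat_lit 163915) (nat_lit 12) (.e (nat_lit 426306) (nat_lit 12) (.e (nat_lit 475211) (nat_lit 41) (.e (nat_lit 712750) (nat_lit 29) .nil)))) (.g (nat_lit 0) (.e (nat_lit 157168) (nat_lit 0) .nil) .nil)))) (.nd (nat_lit 9) 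
(.lf (nat_lit 496904) (.g (nat_lit 3733) (.e (nat_lit 163908) (nat_lit 12) (.e (nat_lit 426285) (nat_lit 10) (.e (nat_lit 434289) (nat_lit 43) (.e (nat_lit 696344) (nat_lit 8) (.e (nat_lit 172115) (nat_lit 10) (.e (nat_lit 434202) (nat_lit 18) (.e (nat_lit 6420) (nat_lit 341) .nil))))))) (.g (nat_lit 1) (.e (nat_lit 156356) (nat_lit 0) .nil) .nil))) 
(.lf (nat_lit 497416) (.g (nat_lit 2652) (.e (nat_lit 163938) (nat_lit 18) (.e (nat_lit 475177) (nat_lit 24) (.e (nat_lit 516149) (nat_lit 9) (.e (nat_lit 426323) (nat_lit 13) (.e (nat_lit 483366) (nat_lit 18) (.e (nat_lit 57691) (nat_lit 156) .nil)))))) (.g (nat_lit 1) (.e (nat_lit 160802) (nat_lit 0) .nil) .nil))))) (.nd (nat_lit 8) (.nd (nat_lit 9) 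
(.lf (nat_lit 496776) (.g (nat_lit 4702) (.e (nat_lit 163907) (nat_lit 12) (.e (nat_lit 426568) (nat_lit 34) (.e (nat_lit 393271) (nat_lit 23) (.e (nat_lit 426131) (nat_lit 3) (.e (nat_lit 204829) (nat_lit 18) (.e (nat_lit 57688) (nat_lit 156) .nil)))))) (.g (nat_lit 1) (.e (nat_lit 156026) (nat_lit 0) .nil) .nil))) 
(.lf (nat_lit 497288) (.g (nat_lit 2049) (.e (nat_lit 163923) (nat_lit 15) (.e (nat_lit 450588) (nat_lit 10) (.e (nat_lit 573475) (nat_lit 12) (.e (nat_lit 57359) (nat_lit 0) .nil)))) (.g (nat_lit 0) (.e (nat_lit 158758) (nat_lit 0) .nil) .nil)))) (.nd (nat_lit 9) 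
(.lf (nat_lit 497032) (.g (nat_lit 4481) (.e (nat_lit 163909) (nat_lit 12) (.e (nat_lit 426125) (nat_lit 2) (.e (nat_lit 196666) (nat_lit 13) (.e (nat_lit 65617) (nat_lit 10) (.e (nat_lit 344130) (nat_lit 26) (.e (nat_lit 557089) (nat_lit 12) (.e (nat_lit 163843) (nat_lit 0) (.e (nat_lit 6416) (nat_lit 341) .nil)))))))) (.g (nat_lit 1) (.e (nat_lit 156839) (nat_lit 0) .nil) .nil))) 
(.lf (nat_lit 497544) (.g (nat_lit 3306) (.e (nat_lit 163939) (nat_lit 18) (.e (nat_lit 475177) (nat_lit 24) (.e (nat_lit 516176) (nat_lit 14) (.e (nat_lit 466954) (nat_lit 11) (.e (nat_lit 335995) (nat_lit 1) (.e (nat_lit 57688) (nat_lit 156) .nil)))))) (.g (nat_lit 1) (.e (nat_lit 160951) (nat_lit 0) .nil) .nil)))))) (.nd (nat_lit 7) (.nd (nat_lit 8) (.nd (nat_lit 9) 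
(.lf (nat_lit 496712) (.g (nat_lit 2813) (.e (nat_lit 163907) (nat_lit 12) (.e (nat_lit 426566) (nat_lit 34) (.e (nat_lit 393289) (nat_lit 25) (.e (nat_lit 458789) (nat_lit 23) (.e (nat_lit 532502) (nat_lit 1) (.e (nat_lit 57692) (nat_lit 156) .nil)))))) (.g (nat_lit 1) (.e (nat_lit 155962) (nat_lit 0) .nil) .nil))) 
(.lf (nat_lit 497224) (.g (nat_lit 2032) (.e (nat_lit 163917) (nat_lit 13) (.e (nat_lit 434231) (nat_lit 23) (.e (nat_lit 532550) (nat_lit 12) (.e (nat_lit 360474) (nat_lit 8) (.e (nat_lit 557093) (nat_lit 12) (.e (nat_lit 163849) (nat_lit 0) (.e (nat_lit 6418) (nat_lit 341) .nil))))))) (.g (nat_lit 1) (.e (nat_lit 157630) (nat_lit 0) .nil) .nil)))) (.nd (nat_lit 9) 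
(.lf (nat_lit 496968) (.g (nat_lit 1853) (.e (nat_lit 163908) (nat_lit 12) (.e (nat_lit 426312) (nat_lit 12) (.e (nat_lit 475199) (nat_lit 40) (.e (nat_lit 704598) (nat_lit 6) (.e (nat_lit 188454) (nat_lit 24) (.e (nat_lit 229678) (nat_lit 244) .nil)))))) (.g (nat_lit 1) (.e (nat_lit 156534) (nat_lit 0) .nil) .nil))) 
(.lf (nat_lit 497480) (.g (nat_lit 3162) (.e (nat_lit 163938) (nat_lit 18) (.e (nat_lit 475179) (nat_lit 24) (.e (nat_lit 516176) (nat_lit 14) (.e (nat_lit 466954) (nat_lit 11) (.e (nat_lit 335988) (nat_lit 1) (.e (nat_lit 57692) (nat_lit 156) .nil)))))) (.g (nat_lit 1) (.e (nat_lit 160884) (nat_lit 0) .nil) .nil))))) (.nd (nat_lit 8) (.nd (nat_lit 9) 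
(.lf (nat_lit 496840) (.g (nat_lit 1975) (.e (nat_lit 163908) (nat_lit 12) (.e (nat_lit 426132) (nat_lit 3) (.e (nat_lit 204869) (nat_lit 29) (.e (nat_lit 360474) (nat_lit 8) (.e (nat_lit 557093) (nat_lit 12) (.e (nat_lit 163849) (nat_lit 0) (.e (nat_lit 6418) (nat_lit 341) .nil))))))) (.g (nat_lit 1) (.e (nat_lit 156109) (nat_lit 0) .nil) .nil))) 
(.lf (nat_lit 497352) (.g (nat_lit 2496) (.e (nat_lit 163936) (nat_lit 18) (.e (nat_lit 475177) (nat_lit 24) (.e (nat_lit 516149) (nat_lit 9) (.e (nat_lit 426323) (nat_lit 13) (.e (nat_lit 483365) (nat_lit 18) (.e (nat_lit 57686) (nat_lit 156) .nil)))))) (.g (nat_lit 1) (.e (nat_lit 160705) (nat_lit 0) .nil) .nil)))) (.nd (nat_lit 9) 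
(.lf (nat_lit 497096) (.g (nat_lit 1820) (.e (nat_lit 163913) (nat_lit 12) (.e (nat_lit 426318) (nat_lit 12) (.e (nat_lit 475211) (nat_lit 41) (.e (nat_lit 712753) (nat_lit 30) (.e (nat_lit 450569) (nat_lit 0) (.e (nat_lit 5598) (nat_lit 310) .nil)))))) (.g (nat_lit 1) (.e (nat_lit 156992) (nat_lit 0) .nil) .nil))) 
(.lf (nat_lit 497608) (.g (nat_lit 2860) (.e (nat_lit 163939) (nat_lit 18) (.e (nat_lit 475185) (nat_lit 29) (.e (nat_lit 557101) (nat_lit 13) (.e (nat_lit 172115) (nat_lit 10) (.e (nat_lit 434231) (nat_lit 23) .nil))))) (.g (nat_lit 0) (.e (nat_lit 161034) (nat_lit 0) .nil) .nil))))))) (.nd (nat_lit 6) (.nd (nat_lit 7) (.nd (nat_lit 8) (.nd (nat_lit 9) 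
(.lf (nat_lit 496680) (.g (nat_lit 3692) (.e (nat_lit 163907) (nat_lit 12) (.e (nat_lit 426566) (nat_lit 34) (.e (nat_lit 393271) (nat_lit 23) (.e (nat_lit 426436) (nat_lit 18) (.e (nat_lit 98335) (nat_lit 18) (.e (nat_lit 164327) (nat_lit 230) .nil)))))) (.g (nat_lit 1) (.e (nat_lit 155930) (nat_lit 0) .nil) .nil))) 
(.lf (nat_lit 497192) (.g (nat_lit 735) (.e (nat_lit 171776) (nat_lit 12) (.e (nat_lit 426566) (nat_lit 34) (.e (nat_lit 393285) (nat_lit 25) .nil))) (.g (nat_lit 0) (.e (nat_lit 157392) (nat_lit 0) .nil) .nil)))) (.nd (nat_lit 9) 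
(.lf (nat_lit 496936) (.g (nat_lit 3551) (.e (nat_lit 163908) (nat_lit 12) (.e (nat_lit 426305) (nat_lit 12) (.e (nat_lit 475198) (nat_lit 40) (.e (nat_lit 704599) (nat_lit 6) (.e (nat_lit 188453) (nat_lit 24) (.e (nat_lit 229678) (nat_lit 244) .nil)))))) (.g (nat_lit 1) (.e (nat_lit 156471) (nat_lit 0) .nil) .nil))) 
(.lf (nat_lit 497448) (.g (nat_lit 2287) (.e (nat_lit 163938) (nat_lit 18) (.e (nat_lit 475179) (nat_lit 24) (.e (nat_lit 516146) (nat_lit 9) (.e (nat_lit 426323) (nat_lit 13) (.e (nat_lit 483366) (nat_lit 18) (.e (nat_lit 57688) (nat_lit 156) .nil)))))) (.g (nat_lit 1) (.e (nat_lit 160835) (nat_lit 0) .nil) .nil))))) (.nd (nat_lit 8) (.nd (nat_lit 9) 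
(.lf (nat_lit 496808) (.g (nat_lit 3152) (.e (nat_lit 163907) (nat_lit 12) (.e (nat_lit 426568) (nat_lit 34) (.e (nat_lit 393294) (nat_lit 26) (.e (nat_lit 475176) (nat_lit 24) (.e (nat_lit 516115) (nat_lit 1) (.e (nat_lit 164325) (nat_lit 230) .nil)))))) (.g (nat_lit 1) (.e (nat_lit 156058) (nat_lit 0) .nil) .nil))) 
(.lf (nat_lit 497320) (.g (nat_lit 1491) (.e (nat_lit 163933) (nat_lit 17) (.e (nat_lit 466954) (nat_lit 11) (.e (nat_lit 336231) (nat_lit 14) (.e (nat_lit 401460) (nat_lit 14) .nil)))) (.g (nat_lit 0) (.e (nat_lit 160581) (nat_lit 0) .nil) .nil)))) (.nd (nat_lit 9) 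
(.lf (nat_lit 497064) (.g (nat_lit 3303) (.e (nat_lit 163911) (nat_lit 12) (.e (nat_lit 426140) (nat_lit 3) (.e (nat_lit 204868) (nat_lit 29) (.e (nat_lit 360475) (nat_lit 8) (.e (nat_lit 557089) (nat_lit 12) .nil))))) (.g (nat_lit 0) (.e (nat_lit 156918) (nat_lit 0) .nil) .nil))) 
(.lf (nat_lit 497576) (.g (nat_lit 2890) (.e (nat_lit 163939) (nat_lit 18) (.e (nat_lit 475179) (nat_lit 24) (.e (nat_lit 516174) (nat_lit 14) (.e (nat_lit 466954) (nat_lit 11) (.e (nat_lit 335988) (nat_lit 1) (.e (nat_lit 57692) (nat_lit 156) .nil)))))) (.g (nat_lit 1) (.e (nat_lit 161002) (nat_lit 0) .nil) .nil)))))) (.nd (nat_lit 7) (.nd (nat_lit 8) (.nd (nat_lit 9) 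
(.lf (nat_lit 496744) (.g (nat_lit 1463) (.e (nat_lit 163907) (nat_lit 12) (.e (nat_lit 426566) (nat_lit 34) (.e (nat_lit 393296) (nat_lit 26) (.e (nat_lit 475178) (nat_lit 24) (.e (nat_lit 516118) (nat_lit 1) .nil))))) (.g (nat_lit 0) (.e (nat_lit 155994) (nat_lit 0) .nil) .nil))) 
(.lf (nat_lit 497256) (.g (nat_lit 1836) (.e (nat_lit 163920) (nat_lit 14) (.e (nat_lit 442374) (nat_lit 0) (.e (nat_lit 2175) (nat_lit 143) (.e (nat_lit 712752) (nat_lit 29) (.e (nat_lit 442428) (nat_lit 24) .nil))))) (.g (nat_lit 0) (.e (nat_lit 157961) (nat_lit 0) .nil) .nil)))) (.nd (nat_lit 9) 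
(.lf (nat_lit 497000) (.g (nat_lit 2266) (.e (nat_lit 163908) (nat_lit 12) (.e (nat_lit 426338) (nat_lit 14) (.e (nat_lit 491549) (nat_lit 9) (.e (nat_lit 336434) (nat_lit 30) (.e (nat_lit 458496) (nat_lit 0) .nil))))) (.g (nat_lit 0) (.e (nat_lit 156730) (nat_lit 0) .nil) .nil))) 
(.lf (nat_lit 497512) (.g (nat_lit 938) (.e (nat_lit 163938) (nat_lit 18) (.e (nat_lit 475214) (nat_lit 42) (.e (nat_lit 728832) (nat_lit 1) .nil))) (.g (nat_lit 0) (.e (nat_lit 160918) (nat_lit 0) .nil) .nil))))) (.nd (nat_lit 8) (.nd (nat_lit 9) 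
(.lf (nat_lit 496872) (.g (nat_lit 4063) (.e (nat_lit 163908) (nat_lit 12) (.e (nat_lit 426136) (nat_lit 3) (.e (nat_lit 204869) (nat_lit 29) (.e (nat_lit 360475) (nat_lit 8) (.e (nat_lit 557091) (nat_lit 12) (.e (nat_lit 163849) (nat_lit 0) (.e (nat_lit 6420) (nat_lit 341) .nil))))))) (.g (nat_lit 1) (.e (nat_lit 156141) (nat_lit 0) .nil) .nil))) 
(.lf (nat_lit 497384) (.g (nat_lit 2040) (.e (nat_lit 163936) (nat_lit 18) (.e (nat_lit 475179) (nat_lit 24) (.e (nat_lit 516174) (nat_lit 14) (.e (nat_lit 466954) (nat_lit 11) (.e (nat_lit 335995) (nat_lit 1) (.e (nat_lit 57687) (nat_lit 156) .nil)))))) (.g (nat_lit 1) (.e (nat_lit 160760) (nat_lit 0) .nil) .nil)))) (.nd (nat_lit 9) 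
(.lf (nat_lit 497128) (.g (nat_lit 3408) (.e (nat_lit 163915) (nat_lit 12) (.e (nat_lit 426133) (nat_lit 3) (.e (nat_lit 204868) (nat_lit 29) (.e (nat_lit 360475) (nat_lit 8) (.e (nat_lit 557091) (nat_lit 12) .nil))))) (.g (nat_lit 0) (.e (nat_lit 157119) (nat_lit 0) .nil) .nil))) 
(.lf (nat_lit 497640) (.g (nat_lit 3224) (.e (nat_lit 163941) (nat_lit 19) (.e (nat_lit 483337) (nat_lit 9) (.e (nat_lit 426200) (nat_lit 9) (.e (nat_lit 426436) (nat_lit 18) (.e (nat_lit 98335) (nat_lit 18) (.e (nat_lit 164327) (nat_lit 230) .nil)))))) (.g (nat_lit 1) (.e (nat_lit 161138) (nat_lit 0) .nil) .nil)))))))) 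
(.nd (nat_lit 5) (.nd (nat_lit 6) (.nd (nat_lit 7) (.nd (nat_lit 8) (.nd (nat_lit 9) 
(.lf (nat_lit 496664) (.g (nat_lit 2195) (.e (nat_lit 163907) (nat_lit 12) (.e (nat_lit 426566) (nat_lit 34) (.e (nat_lit 393270) (nat_lit 23) (.e (nat_lit 426131) (nat_lit 3) (.e (nat_lit 204831) (nat_lit 18) (.e (nat_lit 57692) (nat_lit 156) .nil)))))) (.g (nat_lit 1) (.e (nat_lit 155914) (nat_lit 0) .nil) .nil))) 
(.lf (nat_lit 497176) (.g (nat_lit 3067) (.e (nat_lit 171776) (nat_lit 12) (.e (nat_lit 426139) (nat_lit 3) (.e (nat_lit 204868) (nat_lit 29) (.e (nat_lit 360475) (nat_lit 8) (.e (nat_lit 557091) (nat_lit 12) .nil))))) (.g (nat_lit 0) (.e (nat_lit 157357) (nat_lit 0) .nil) .nil)))) (.nd (nat_lit 9) 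
(.lf (nat_lit 496920) (.g (nat_lit 1956) (.e (nat_lit 163908) (nat_lit 12) (.e (nat_lit 426286) (nat_lit 10) (.e (nat_lit 434288) (nat_lit 43) (.e (nat_lit 696344) (nat_lit 8) (.e (nat_lit 172113) (nat_lit 10) (.e (nat_lit 434208) (nat_lit 18) (.e (nat_lit 6420) (nat_lit 341) .nil))))))) (.g (nat_lit 1) (.e (nat_lit 156442) (nat_lit 0) .nil) .nil))) 
(.lf (nat_lit 497432) (.g (nat_lit 1604) (.e (nat_lit 163938) (nat_lit 18) (.e (nat_lit 475177) (nat_lit 24) (.e (nat_lit 516176) (nat_lit 14) (.e (nat_lit 466950) (nat_lit 11) .nil)))) (.g (nat_lit 0) (.e (nat_lit 160818) (nat_lit 0) .nil) .nil))))) (.nd (nat_lit 8) (.nd (nat_lit 9) 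
(.lf (nat_lit 496792) (.g (nat_lit 2697) (.e (nat_lit 163907) (nat_lit 12) (.e (nat_lit 426568) (nat_lit 34) (.e (nat_lit 393284) (nat_lit 24) (.e (nat_lit 434233) (nat_lit 23) (.e (nat_lit 532504) (nat_lit 1) (.e (nat_lit 57692) (nat_lit 156) .nil)))))) (.g (nat_lit 1) (.e (nat_lit 156042) (nat_lit 0) .nil) .nil))) 
(.lf (nat_lit 497304) (.g (nat_lit 1757) (.e (nat_lit 163927) (nat_lit 16) (.e (nat_lit 458789) (nat_lit 23) (.e (nat_lit 532534) (nat_lit 9) (.e (nat_lit 336310) (nat_lit 16) .nil)))) (.g (nat_lit 0) (.e (nat_lit 159000) (nat_lit 0) .nil) .nil)))) (.nd (nat_lit 9) 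
(.lf (nat_lit 497048) (.g (nat_lit 2491) (.e (nat_lit 163909) (nat_lit 12) (.e (nat_lit 426140) (nat_lit 3) (.e (nat_lit 204869) (nat_lit 29) (.e (nat_lit 360475) (nat_lit 8) (.e (nat_lit 557089) (nat_lit 12) .nil))))) (.g (nat_lit 0) (.e (nat_lit 156869) (nat_lit 0) .nil) .nil))) 
(.lf (nat_lit 497560) (.g (nat_lit 2866) (.e (nat_lit 163939) (nat_lit 18) (.e (nat_lit 475179) (nat_lit 24) (.e (nat_lit 516150) (nat_lit 9) (.e (nat_lit 426323) (nat_lit 13) (.e (nat_lit 483364) (nat_lit 18) (.e (nat_lit 57692) (nat_lit 156) .nil)))))) (.g (nat_lit 1) (.e (nat_lit 160975) (nat_lit 0) .nil) .nil)))))) (.nd (nat_lit 7) (.nd (nat_lit 8) (.nd (nat_lit 9) 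
(.lf (nat_lit 496728) (.g (nat_lit 3011) (.e (nat_lit 163907) (nat_lit 12) (.e (nat_lit 426566) (nat_lit 34) (.e (nat_lit 393294) (nat_lit 26) (.e (nat_lit 475179) (nat_lit 24) (.e (nat_lit 516115) (nat_lit 1) (.e (nat_lit 164327) (nat_lit 230) .nil)))))) (.g (nat_lit 1) (.e (nat_lit 155978) (nat_lit 0) .nil) .nil))) 
(.lf (nat_lit 497240) (.g (nat_lit 620) (.e (nat_lit 163917) (nat_lit 13) (.e (nat_lit 434272) (nat_lit 38) (.e (nat_lit 655364) (nat_lit 0) .nil))) (.g (nat_lit 0) (.e (nat_lit 157738) (nat_lit 0) .nil) .nil)))) (.nd (nat_lit 9) 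
(.lf (nat_lit 496984) (.g (nat_lit 3602) (.e (nat_lit 163908) (nat_lit 12) (.e (nat_lit 426338) (nat_lit 14) (.e (nat_lit 491549) (nat_lit 9) (.e (nat_lit 336428) (nat_lit 29) (.e (nat_lit 442428) (nat_lit 24) (.e (nat_lit 229678) (nat_lit 244) .nil)))))) (.g (nat_lit 1) (.e (nat_lit 156712) (nat_lit 0) .nil) .nil))) 
(.lf (nat_lit 497496) (.g (nat_lit 3976) (.e (nat_lit 163938) (nat_lit 18) (.e (nat_lit 475185) (nat_lit 29) (.e (nat_lit 557100) (nat_lit 13) (.e (nat_lit 172113) (nat_lit 10) (.e (nat_lit 434245) (nat_lit 28) (.e (nat_lit 573474) (nat_lit 12) (.e (nat_lit 57347) (nat_lit 0) (.e (nat_lit 6940) (nat_lit 375) .nil)))))))) (.g (nat_lit 1) (.e (nat_lit 160901) (nat_lit 0) .nil) .nil))))) 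
(.nd (nat_lit 8) (.nd (nat_lit 9) 
(.lf (nat_lit 496856) (.g (nat_lit 1532) (.e (nat_lit 163908) (nat_lit 12) (.e (nat_lit 426136) (nat_lit 3) (.e (nat_lit 204868) (nat_lit 29) (.e (nat_lit 360473) (nat_lit 8) (.e (nat_lit 557094) (nat_lit 12) .nil))))) (.g (nat_lit 0) (.e (nat_lit 156125) (nat_lit 0) .nil) .nil))) 
(.lf (nat_lit 497368) (.g (nat_lit 3383) (.e (nat_lit 163936) (nat_lit 18) (.e (nat_lit 475179) (nat_lit 24) (.e (nat_lit 516146) (nat_lit 9) (.e (nat_lit 426323) (nat_lit 13) (.e (nat_lit 483363) (nat_lit 18) (.e (nat_lit 57688) (nat_lit 156) .nil)))))) (.g (nat_lit 1) (.e (nat_lit 160723) (nat_lit 0) .nil) .nil)))) (.nd (nat_lit 9) 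
(.lf (nat_lit 497112) (.g (nat_lit 2774) (.e (nat_lit 163913) (nat_lit 12) (.e (nat_lit 426503) (nat_lit 27) (.e (nat_lit 336387) (nat_lit 27) (.e (nat_lit 426308) (nat_lit 12) (.e (nat_lit 475177) (nat_lit 24) (.e (nat_lit 516117) (nat_lit 1) (.e (nat_lit 164330) (nat_lit 230) .nil))))))) (.g (nat_lit 1) (.e (nat_lit 157028) (nat_lit 0) .nil) .nil))) 
(.lf (nat_lit 497624) (.g (nat_lit 3684) (.e (nat_lit 163941) (nat_lit 19) (.e (nat_lit 483337) (nat_lit 9) (.e (nat_lit 426188) (nat_lit 9) (.e (nat_lit 426436) (nat_lit 18) (.e (nat_lit 98335) (nat_lit 18) (.e (nat_lit 164332) (nat_lit 230) .nil)))))) (.g (nat_lit 1) (.e (nat_lit 161100) (nat_lit 0) .nil) .nil))))))) (.nd (nat_lit 6) (.nd (nat_lit 7) (.nd (nat_lit 8) (.nd (nat_lit 9) 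
(.lf (nat_lit 496696) (.g (nat_lit 510) (.e (nat_lit 163907) (nat_lit 12) (.e (nat_lit 426566) (nat_lit 34) (.e (nat_lit 393276) (nat_lit 23) .nil))) (.g (nat_lit 0) (.e (nat_lit 155946) (nat_lit 0) .nil) .nil))) 
(.lf (nat_lit 497208) (.g (nat_lit 3297) (.e (nat_lit 163916) (nat_lit 13) (.e (nat_lit 434231) (nat_lit 23) (.e (nat_lit 532550) (nat_lit 12) (.e (nat_lit 360475) (nat_lit 8) (.e (nat_lit 557089) (nat_lit 12) (.e (nat_lit 163843) (nat_lit 0) (.e (nat_lit 6416) (nat_lit 341) .nil))))))) (.g (nat_lit 1) (.e (nat_lit 157484) (nat_lit 0) .nil) .nil)))) (.nd (nat_lit 9) 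
(.lf (nat_lit 496952) (.g (nat_lit 1931) (.e (nat_lit 163908) (nat_lit 12) (.e (nat_lit 426305) (nat_lit 12) (.e (nat_lit 475211) (nat_lit 41) (.e (nat_lit 712753) (nat_lit 30) (.e (nat_lit 450569) (nat_lit 0) .nil))))) (.g (nat_lit 0) (.e (nat_lit 156518) (nat_lit 0) .nil) .nil))) 
(.lf (nat_lit 497464) (.g (nat_lit 2984) (.e (nat_lit 163938) (nat_lit 18) (.e (nat_lit 475179) (nat_lit 24) (.e (nat_lit 516174) (nat_lit 14) (.e (nat_lit 466954) (nat_lit 11) (.e (nat_lit 335988) (nat_lit 1) (.e (nat_lit 57692) (nat_lit 156) .nil)))))) (.g (nat_lit 1) (.e (nat_lit 160867) (nat_lit 0) .nil) .nil))))) (.nd (nat_lit 8) (.nd (nat_lit 9) 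
(.lf (nat_lit 496824) (.g (nat_lit 1426) (.e (nat_lit 163908) (nat_lit 12) (.e (nat_lit 426132) (nat_lit 3) (.e (nat_lit 204868) (nat_lit 29) (.e (nat_lit 360473) (nat_lit 8) (.e (nat_lit 557093) (nat_lit 12) (.e (nat_lit 163849) (nat_lit 0) (.e (nat_lit 6418) (nat_lit 341) .nil))))))) (.g (nat_lit 1) (.e (nat_lit 156093) (nat_lit 0) .nil) .nil))) 
(.lf (nat_lit 497336) (.g (nat_lit 2568) (.e (nat_lit 163933) (nat_lit 17) (.e (nat_lit 466981) (nat_lit 23) (.e (nat_lit 204809) (nat_lit 9) (.e (nat_lit 426107) (nat_lit 1) (.e (nat_lit 164325) (nat_lit 230) (.e (nat_lit 171776) (nat_lit 62) (.e (nat_lit 57927) (nat_lit 282) .nil))))))) (.g (nat_lit 1) (.e (nat_lit 160638) (nat_lit 0) .nil) .nil)))) (.nd (nat_lit 9) 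
(.lf (nat_lit 497080) (.g (nat_lit 5832) (.e (nat_lit 163913) (nat_lit 12) (.e (nat_lit 426129) (nat_lit 3) (.e (nat_lit 204869) (nat_lit 29) (.e (nat_lit 360475) (nat_lit 8) (.e (nat_lit 557089) (nat_lit 12) (.e (nat_lit 163843) (nat_lit 0) (.e (nat_lit 6421) (nat_lit 341) .nil))))))) (.g (nat_lit 1) (.e (nat_lit 156964) (nat_lit 0) .nil) .nil))) 
(.lf (nat_lit 497592) (.g (nat_lit 2385) (.e (nat_lit 163939) (nat_lit 18) (.e (nat_lit 475179) (nat_lit 24) (.e (nat_lit 516176) (nat_lit 14) (.e (nat_lit 466954) (nat_lit 11) (.e (nat_lit 335993) (nat_lit 1) .nil))))) (.g (nat_lit 0) (.e (nat_lit 161018) (nat_lit 0) .nil) .nil)))))) (.nd (nat_lit 7) (.nd (nat_lit 8) (.nd (nat_lit 9) 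
(.lf (nat_lit 496760) (.g (nat_lit 1979) (.e (nat_lit 163907) (nat_lit 12) (.e (nat_lit 426568) (nat_lit 34) (.e (nat_lit 393234) (nat_lit 17) (.e (nat_lit 7376) (nat_lit 389) (.e (nat_lit 8320) (nat_lit 64) .nil))))) (.g (nat_lit 0) (.e (nat_lit 156010) (nat_lit 0) .nil) .nil))) 
(.lf (nat_lit 497272) (.g (nat_lit 696) (.e (nat_lit 163923) (nat_lit 15) (.e (nat_lit 450579) (nat_lit 5) (.e (nat_lit 532578) (nat_lit 26) .nil))) (.g (nat_lit 0) (.e (nat_lit 158702) (nat_lit 0) .nil) .nil)))) (.nd (nat_lit 9) 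
(.lf (nat_lit 497016) (.g (nat_lit 2750) (.e (nat_lit 163908) (nat_lit 12) (.e (nat_lit 426528) (nat_lit 27) (.e (nat_lit 336387) (nat_lit 27) (.e (nat_lit 426306) (nat_lit 12) (.e (nat_lit 475177) (nat_lit 24) (.e (nat_lit 516117) (nat_lit 1) (.e (nat_lit 164330) (nat_lit 230) .nil))))))) (.g (nat_lit 1) (.e (nat_lit 156818) (nat_lit 0) .nil) .nil))) 
(.lf (nat_lit 497528) (.g (nat_lit 2019) (.e (nat_lit 163939) (nat_lit 18) (.e (nat_lit 475177) (nat_lit 24) (.e (nat_lit 516150) (nat_lit 9) (.e (nat_lit 426323) (nat_lit 13) (.e (nat_lit 483366) (nat_lit 18) (.e (nat_lit 57686) (nat_lit 156) .nil)))))) (.g (nat_lit 1) (.e (nat_lit 160934) (nat_lit 0) .nil) .nil))))) (.nd (nat_lit 8) (.nd (nat_lit 9) 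
(.lf (nat_lit 496888) (.g (nat_lit 2689) (.e (nat_lit 163908) (nat_lit 12) (.e (nat_lit 426211) (nat_lit 9) (.e (nat_lit 426109) (nat_lit 1) (.e (nat_lit 164319) (nat_lit 228) (.e (nat_lit 57424) (nat_lit 14) (.e (nat_lit 352309) (nat_lit 21) (.e (nat_lit 57857) (nat_lit 254) .nil))))))) (.g (nat_lit 1) (.e (nat_lit 156323) (nat_lit 0) .nil) .nil))) 
(.lf (nat_lit 497400) (.g (nat_lit 3368) (.e (nat_lit 163936) (nat_lit 18) (.e (nat_lit 475185) (nat_lit 29) (.e (nat_lit 557100) (nat_lit 13) (.e (nat_lit 172113) (nat_lit 10) (.e (nat_lit 434248) (nat_lit 28) (.e (nat_lit 573475) (nat_lit 12) (.e (nat_lit 57345) (nat_lit 0) (.e (nat_lit 6943) (nat_lit 375) .nil)))))))) (.g (nat_lit 1) (.e (nat_lit 160777) (nat_lit 0) .nil) .nil)))) 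
(.nd (nat_lit 9) 
(.lf (nat_lit 497144) (.g (nat_lit 1558) (.e (nat_lit 163915) (nat_lit 12) (.e (nat_lit 426306) (nat_lit 12) (.e (nat_lit 475198) (nat_lit 40) (.e (nat_lit 704599) (nat_lit 6) (.e (nat_lit 188455) (nat_lit 24) (.e (nat_lit 229681) (nat_lit 244) .nil)))))) (.g (nat_lit 1) (.e (nat_lit 157146) (nat_lit 0) .nil) .nil))) 
(.lf (nat_lit 497656) (.g (nat_lit 3885) (.e (nat_lit 163941) (nat_lit 19) (.e (nat_lit 483337) (nat_lit 9) (.e (nat_lit 426308) (nat_lit 12) (.e (nat_lit 475179) (nat_lit 24) (.e (nat_lit 516120) (nat_lit 1) (.e (nat_lit 164332) (nat_lit 230) .nil)))))) (.g (nat_lit 1) (.e (nat_lit 161195) (nat_lit 0) .nil) .nil)))))))))) 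
(.nd (nat_lit 3) (.nd (nat_lit 4) (.nd (nat_lit 5) (.nd (nat_lit 6) (.nd (nat_lit 7) 
(.nd (nat_lit 8) (.nd (nat_lit 9) 
(.lf (nat_lit 496644) (.g (nat_lit 1948) (.e (nat_lit 163907) (nat_lit 12) (.e (nat_lit 426555) (nat_lit 32) (.e (nat_lit 376867) (nat_lit 23) (.e (nat_lit 98317) (nat_lit 9) (.e (nat_lit 335987) (nat_lit 1) (.e (nat_lit 57927) (nat_lit 282) .nil)))))) (.g (nat_lit 1) (.e (nat_lit 155894) (nat_lit 0) .nil) .nil))) 
(.lf (nat_lit 497156) (.g (nat_lit 3603) (.e (nat_lit 163915) (nat_lit 12) (.e (nat_lit 426306) (nat_lit 12) (.e (nat_lit 475210) (nat_lit 41) (.e (nat_lit 712752) (nat_lit 29) (.e (nat_lit 442430) (nat_lit 24) (.e (nat_lit 229680) (nat_lit 244) .nil)))))) (.g (nat_lit 1) (.e (nat_lit 157164) (nat_lit 0) .nil) .nil)))) (.nd (nat_lit 9) 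
(.lf (nat_lit 496900) (.g (nat_lit 4095) (.e (nat_lit 163908) (nat_lit 12) (.e (nat_lit 426285) (nat_lit 10) (.e (nat_lit 434289) (nat_lit 43) (.e (nat_lit 696344) (nat_lit 8) (.e (nat_lit 172113) (nat_lit 10) (.e (nat_lit 434208) (nat_lit 18) (.e (nat_lit 6416) (nat_lit 341) .nil))))))) (.g (nat_lit 1) (.e (nat_lit 156352) (nat_lit 0) .nil) .nil))) 
(.lf (nat_lit 497412) (.g (nat_lit 2721) (.e (nat_lit 163938) (nat_lit 18) (.e (nat_lit 475177) (nat_lit 24) (.e (nat_lit 516149) (nat_lit 9) (.e (nat_lit 426323) (nat_lit 13) (.e (nat_lit 483363) (nat_lit 18) (.e (nat_lit 57688) (nat_lit 156) .nil)))))) (.g (nat_lit 1) (.e (nat_lit 160798) (nat_lit 0) .nil) .nil))))) (.nd (nat_lit 8) (.nd (nat_lit 9) 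
(.lf (nat_lit 496772) (.g (nat_lit 2857) (.e (nat_lit 163907) (nat_lit 12) (.e (nat_lit 426568) (nat_lit 34) (.e (nat_lit 393270) (nat_lit 23) (.e (nat_lit 426436) (nat_lit 18) (.e (nat_lit 98333) (nat_lit 18) (.e (nat_lit 164325) (nat_lit 230) .nil)))))) (.g (nat_lit 1) (.e (nat_lit 156022) (nat_lit 0) .nil) .nil))) 
(.lf (nat_lit 497284) (.g (nat_lit 949) (.e (nat_lit 163923) (nat_lit 15) (.e (nat_lit 450588) (nat_lit 10) (.e (nat_lit 573452) (nat_lit 9) .nil))) (.g (nat_lit 0) (.e (nat_lit 158751) (nat_lit 0) .nil) .nil)))) (.nd (nat_lit 9) 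
(.lf (nat_lit 497028) (.g (nat_lit 5542) (.e (nat_lit 163909) (nat_lit 12) (.e (nat_lit 426125) (nat_lit 2) (.e (nat_lit 196666) (nat_lit 13) (.e (nat_lit 65617) (nat_lit 10) (.e (nat_lit 344127) (nat_lit 26) (.e (nat_lit 557090) (nat_lit 12) (.e (nat_lit 163843) (nat_lit 0) (.e (nat_lit 6416) (nat_lit 341) .nil)))))))) (.g (nat_lit 1) (.e (nat_lit 156835) (nat_lit 0) .nil) .nil))) 
(.lf (nat_lit 497540) (.g (nat_lit 2154) (.e (nat_lit 163939) (nat_lit 18) (.e (nat_lit 475177) (nat_lit 24) (.e (nat_lit 516176) (nat_lit 14) (.e (nat_lit 466954) (nat_lit 11) (.e (nat_lit 335993) (nat_lit 1) .nil))))) (.g (nat_lit 0) (.e (nat_lit 160947) (nat_lit 0) .nil) .nil)))))) (.nd (nat_lit 7) (.nd (nat_lit 8) (.nd (nat_lit 9) 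
(.lf (nat_lit 496708) (.g (nat_lit 2798) (.e (nat_lit 163907) (nat_lit 12) (.e (nat_lit 426566) (nat_lit 34) (.e (nat_lit 393287) (nat_lit 25) (.e (nat_lit 458789) (nat_lit 23) (.e (nat_lit 532502) (nat_lit 1) (.e (nat_lit 57692) (nat_lit 156) .nil)))))) (.g (nat_lit 1) (.e (nat_lit 155958) (nat_lit 0) .nil) .nil))) 
(.lf (nat_lit 497220) (.g (nat_lit 1820) (.e (nat_lit 163917) (nat_lit 13) (.e (nat_lit 434231) (nat_lit 23) (.e (nat_lit 532550) (nat_lit 12) (.e (nat_lit 360473) (nat_lit 8) .nil)))) (.g (nat_lit 0) (.e (nat_lit 157626) (nat_lit 0) .nil) .nil)))) (.nd (nat_lit 9) 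
(.lf (nat_lit 496964) (.g (nat_lit 1172) (.e (nat_lit 163908) (nat_lit 12) (.e (nat_lit 426312) (nat_lit 12) (.e (nat_lit 475198) (nat_lit 40) (.e (nat_lit 704598) (nat_lit 6) .nil)))) (.g (nat_lit 0) (.e (nat_lit 156530) (nat_lit 0) .nil) .nil))) 
(.lf (nat_lit 497476) (.g (nat_lit 2736) (.e (nat_lit 163938) (nat_lit 18) (.e (nat_lit 475179) (nat_lit 24) (.e (nat_lit 516176) (nat_lit 14) (.e (nat_lit 466954) (nat_lit 11) (.e (nat_lit 335987) (nat_lit 1) (.e (nat_lit 57691) (nat_lit 156) .nil)))))) (.g (nat_lit 1) (.e (nat_lit 160880) (nat_lit 0) .nil) .nil))))) (.nd (nat_lit 8) (.nd (nat_lit 9) 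
(.lf (nat_lit 496836) (.g (nat_lit 2547) (.e (nat_lit 163908) (nat_lit 12) (.e (nat_lit 426132) (nat_lit 3) (.e (nat_lit 204869) (nat_lit 29) (.e (nat_lit 360472) (nat_lit 8) (.e (nat_lit 557090) (nat_lit 12) .nil))))) (.g (nat_lit 0) (.e (nat_lit 156105) (nat_lit 0) .nil) .nil))) 
(.lf (nat_lit 497348) (.g (nat_lit 3141) (.e (nat_lit 163935) (nat_lit 18) (.e (nat_lit 475185) (nat_lit 29) (.e (nat_lit 557100) (nat_lit 13) (.e (nat_lit 172113) (nat_lit 10) .nil)))) (.g (nat_lit 0) (.e (nat_lit 160701) (nat_lit 0) .nil) .nil)))) (.nd (nat_lit 9) 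
(.lf (nat_lit 497092) (.g (nat_lit 2060) (.e (nat_lit 163913) (nat_lit 12) (.e (nat_lit 426318) (nat_lit 12) (.e (nat_lit 475198) (nat_lit 40) (.e (nat_lit 704599) (nat_lit 6) (.e (nat_lit 188455) (nat_lit 24) (.e (nat_lit 229681) (nat_lit 244) .nil)))))) (.g (nat_lit 1) (.e (nat_lit 156978) (nat_lit 0) .nil) .nil))) 
(.lf (nat_lit 497604) (.g (nat_lit 2526) (.e (nat_lit 163939) (nat_lit 18) (.e (nat_lit 475185) (nat_lit 29) (.e (nat_lit 557100) (nat_lit 13) (.e (nat_lit 172113) (nat_lit 10) (.e (nat_lit 434248) (nat_lit 28) .nil))))) (.g (nat_lit 0) (.e (nat_lit 161030) (nat_lit 0) .nil) .nil))))))) (.nd (nat_lit 6) (.nd (nat_lit 7) (.nd (nat_lit 8) (.nd (nat_lit 9) 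
(.lf (nat_lit 496676) (.g (nat_lit 1326) (.e (nat_lit 163907) (nat_lit 12) (.e (nat_lit 426566) (nat_lit 34) (.e (nat_lit 393271) (nat_lit 23) (.e (nat_lit 426428) (nat_lit 17) .nil)))) (.g (nat_lit 0) (.e (nat_lit 155926) (nat_lit 0) .nil) .nil))) 
(.lf (nat_lit 497188) (.g (nat_lit 1832) (.e (nat_lit 171776) (nat_lit 12) (.e (nat_lit 426438) (nat_lit 18) (.e (nat_lit 98358) (nat_lit 26) (.e (nat_lit 426323) (nat_lit 13) (.e (nat_lit 483363) (nat_lit 18) .nil))))) (.g (nat_lit 0) (.e (nat_lit 157388) (nat_lit 0) .nil) .nil)))) (.nd (nat_lit 9) 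
(.lf (nat_lit 496932) (.g (nat_lit 2608) (.e (nat_lit 163908) (nat_lit 12) (.e (nat_lit 426305) (nat_lit 12) (.e (nat_lit 475198) (nat_lit 40) (.e (nat_lit 704598) (nat_lit 6) (.e (nat_lit 188455) (nat_lit 24) (.e (nat_lit 229677) (nat_lit 244) .nil)))))) (.g (nat_lit 1) (.e (nat_lit 156467) (nat_lit 0) .nil) .nil))) 
(.lf (nat_lit 497444) (.g (nat_lit 3036) (.e (nat_lit 163938) (nat_lit 18) (.e (nat_lit 475179) (nat_lit 24) (.e (nat_lit 516146) (nat_lit 9) (.e (nat_lit 426323) (nat_lit 13) (.e (nat_lit 483364) (nat_lit 18) (.e (nat_lit 57691) (nat_lit 156) .nil)))))) (.g (nat_lit 1) (.e (nat_lit 160831) (nat_lit 0) .nil) .nil))))) (.nd (nat_lit 8) (.nd (nat_lit 9) 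
(.lf (nat_lit 496804) (.g (nat_lit 2868) (.e (nat_lit 163907) (nat_lit 12) (.e (nat_lit 426568) (nat_lit 34) (.e (nat_lit 393292) (nat_lit 26) (.e (nat_lit 475179) (nat_lit 24) (.e (nat_lit 516115) (nat_lit 1) (.e (nat_lit 164325) (nat_lit 230) .nil)))))) (.g (nat_lit 1) (.e (nat_lit 156054) (nat_lit 0) .nil) .nil))) 
(.lf (nat_lit 497316) (.g (nat_lit 642) (.e (nat_lit 163932) (nat_lit 17) (.e (nat_lit 466972) (nat_lit 21) (.e (nat_lit 164182) (nat_lit 154) .nil))) (.g (nat_lit 0) (.e (nat_lit 160287) (nat_lit 0) .nil) .nil)))) (.nd (nat_lit 9) 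
(.lf (nat_lit 497060) (.g (nat_lit 4728) (.e (nat_lit 163911) (nat_lit 12) (.e (nat_lit 426135) (nat_lit 3) (.e (nat_lit 204869) (nat_lit 29) (.e (nat_lit 360475) (nat_lit 8) (.e (nat_lit 557089) (nat_lit 12) (.e (nat_lit 163849) (nat_lit 0) (.e (nat_lit 6421) (nat_lit 341) .nil))))))) (.g (nat_lit 1) (.e (nat_lit 156910) (nat_lit 0) .nil) .nil))) 
(.lf (nat_lit 497572) (.g (nat_lit 2923) (.e (nat_lit 163939) (nat_lit 18) (.e (nat_lit 475179) (nat_lit 24) (.e (nat_lit 516174) (nat_lit 14) (.e (nat_lit 466954) (nat_lit 11) (.e (nat_lit 335986) (nat_lit 1) (.e (nat_lit 57688) (nat_lit 156) .nil)))))) (.g (nat_lit 1) (.e (nat_lit 160998) (nat_lit 0) .nil) .nil)))))) (.nd (nat_lit 7) (.nd (nat_lit 8) (.nd (nat_lit 9) 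
(.lf (nat_lit 496740) (.g (nat_lit 2813) (.e (nat_lit 163907) (nat_lit 12) (.e (nat_lit 426566) (nat_lit 34) (.e (nat_lit 393296) (nat_lit 26) (.e (nat_lit 475177) (nat_lit 24) (.e (nat_lit 516119) (nat_lit 1) (.e (nat_lit 164324) (nat_lit 230) .nil)))))) (.g (nat_lit 1) (.e (nat_lit 155990) (nat_lit 0) .nil) .nil))) 
(.lf (nat_lit 497252) (.g (nat_lit 3211) (.e (nat_lit 163919) (nat_lit 14) (.e (nat_lit 442374) (nat_lit 0) (.e (nat_lit 2059) (nat_lit 142) (.e (nat_lit 704599) (nat_lit 6) (.e (nat_lit 188453) (nat_lit 24) (.e (nat_lit 229680) (nat_lit 244) .nil)))))) (.g (nat_lit 1) (.e (nat_lit 157802) (nat_lit 0) .nil) .nil)))) (.nd (nat_lit 9) 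
(.lf (nat_lit 496996) (.g (nat_lit 2464) (.e (nat_lit 163908) (nat_lit 12) (.e (nat_lit 426338) (nat_lit 14) (.e (nat_lit 491549) (nat_lit 9) (.e (nat_lit 336432) (nat_lit 30) (.e (nat_lit 450568) (nat_lit 0) .nil))))) (.g (nat_lit 0) (.e (nat_lit 156726) (nat_lit 0) .nil) .nil))) 
(.lf (nat_lit 497508) (.g (nat_lit 4304) (.e (nat_lit 163938) (nat_lit 18) (.e (nat_lit 475185) (nat_lit 29) (.e (nat_lit 557100) (nat_lit 13) (.e (nat_lit 172113) (nat_lit 10) (.e (nat_lit 434248) (nat_lit 28) (.e (nat_lit 573475) (nat_lit 12) (.e (nat_lit 57348) (nat_lit 0) (.e (nat_lit 6943) (nat_lit 375) .nil)))))))) (.g (nat_lit 1) (.e (nat_lit 160913) (nat_lit 0) .nil) .nil))))) 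
(.nd (nat_lit 8) (.nd (nat_lit 9) 
(.lf (nat_lit 496868) (.g (nat_lit 4875) (.e (nat_lit 163908) (nat_lit 12) (.e (nat_lit 426136) (nat_lit 3) (.e (nat_lit 204869) (nat_lit 29) (.e (nat_lit 360475) (nat_lit 8) (.e (nat_lit 557091) (nat_lit 12) (.e (nat_lit 163843) (nat_lit 0) (.e (nat_lit 6418) (nat_lit 341) .nil))))))) (.g (nat_lit 1) (.e (nat_lit 156137) (nat_lit 0) .nil) .nil))) 
(.lf (nat_lit 497380) (.g (nat_lit 2244) (.e (nat_lit 163936) (nat_lit 18) (.e (nat_lit 475179) (nat_lit 24) (.e (nat_lit 516174) (nat_lit 14) (.e (nat_lit 466954) (nat_lit 11) (.e (nat_lit 335986) (nat_lit 1) (.e (nat_lit 57686) (nat_lit 156) .nil)))))) (.g (nat_lit 1) (.e (nat_lit 160756) (nat_lit 0) .nil) .nil)))) (.nd (nat_lit 9) 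
(.lf (nat_lit 497124) (.g (nat_lit 1155) (.e (nat_lit 163915) (nat_lit 12) (.e (nat_lit 426133) (nat_lit 3) (.e (nat_lit 204868) (nat_lit 29) .nil))) (.g (nat_lit 0) (.e (nat_lit 157115) (nat_lit 0) .nil) .nil))) 
(.lf (nat_lit 497636) (.g (nat_lit 3621) (.e (nat_lit 163941) (nat_lit 19) (.e (nat_lit 483337) (nat_lit 9) (.e (nat_lit 426190) (nat_lit 9) (.e (nat_lit 426436) (nat_lit 18) (.e (nat_lit 98335) (nat_lit 18) (.e (nat_lit 164331) (nat_lit 230) .nil)))))) (.g (nat_lit 1) (.e (nat_lit 161126) (nat_lit 0) .nil) .nil)))))))) 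
(.nd (nat_lit 5) (.nd (nat_lit 6) (.nd (nat_lit 7) (.nd (nat_lit 8) (.nd (nat_lit 9) 
(.lf (nat_lit 496660) (.g (nat_lit 2905) (.e (nat_lit 163907) (nat_lit 12) (.e (nat_lit 426566) (nat_lit 34) (.e (nat_lit 393268) (nat_lit 23) (.e (nat_lit 426438) (nat_lit 18) (.e (nat_lit 98335) (nat_lit 18) (.e (nat_lit 164327) (nat_lit 230) .nil)))))) (.g (nat_lit 1) (.e (nat_lit 155910) (nat_lit 0) .nil) .nil))) 
(.lf (nat_lit 497172) (.g (nat_lit 1764) (.e (nat_lit 171776) (nat_lit 12) (.e (nat_lit 426139) (nat_lit 3) (.e (nat_lit 204868) (nat_lit 29) (.e (nat_lit 360473) (nat_lit 8) (.e (nat_lit 557091) (nat_lit 12) .nil))))) (.g (nat_lit 0) (.e (nat_lit 157353) (nat_lit 0) .nil) .nil)))) (.nd (nat_lit 9) 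
(.lf (nat_lit 496916) (.g (nat_lit 1718) (.e (nat_lit 163908) (nat_lit 12) (.e (nat_lit 426286) (nat_lit 10) (.e (nat_lit 434287) (nat_lit 43) (.e (nat_lit 696344) (nat_lit 8) (.e (nat_lit 172113) (nat_lit 10) (.e (nat_lit 434203) (nat_lit 18) (.e (nat_lit 6420) (nat_lit 341) .nil))))))) (.g (nat_lit 1) (.e (nat_lit 156438) (nat_lit 0) .nil) .nil))) 
(.lf (nat_lit 497428) (.g (nat_lit 2078) (.e (nat_lit 163938) (nat_lit 18) (.e (nat_lit 475177) (nat_lit 24) (.e (nat_lit 516174) (nat_lit 14) (.e (nat_lit 466954) (nat_lit 11) (.e (nat_lit 335993) (nat_lit 1) .nil))))) (.g (nat_lit 0) (.e (nat_lit 160814) (nat_lit 0) .nil) .nil))))) (.nd (nat_lit 8) (.nd (nat_lit 9) 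
(.lf (nat_lit 496788) (.g (nat_lit 2964) (.e (nat_lit 163907) (nat_lit 12) (.e (nat_lit 426568) (nat_lit 34) (.e (nat_lit 393282) (nat_lit 24) (.e (nat_lit 434231) (nat_lit 23) (.e (nat_lit 532500) (nat_lit 1) (.e (nat_lit 57689) (nat_lit 156) .nil)))))) (.g (nat_lit 1) (.e (nat_lit 156038) (nat_lit 0) .nil) .nil))) 
(.lf (nat_lit 497300) (.g (nat_lit 3090) (.e (nat_lit 163923) (nat_lit 15) (.e (nat_lit 450601) (nat_lit 21) (.e (nat_lit 696344) (nat_lit 8) (.e (nat_lit 172113) (nat_lit 10) (.e (nat_lit 434208) (nat_lit 18) (.e (nat_lit 6421) (nat_lit 341) .nil)))))) (.g (nat_lit 1) (.e (nat_lit 158794) (nat_lit 0) .nil) .nil)))) (.nd (nat_lit 9) 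
(.lf (nat_lit 497044) (.g (nat_lit 1916) (.e (nat_lit 163909) (nat_lit 12) (.e (nat_lit 426140) (nat_lit 3) (.e (nat_lit 204868) (nat_lit 29) (.e (nat_lit 360473) (nat_lit 8) (.e (nat_lit 557094) (nat_lit 12) .nil))))) (.g (nat_lit 0) (.e (nat_lit 156865) (nat_lit 0) .nil) .nil))) 
(.lf (nat_lit 497556) (.g (nat_lit 3185) (.e (nat_lit 163939) (nat_lit 18) (.e (nat_lit 475179) (nat_lit 24) (.e (nat_lit 516150) (nat_lit 9) (.e (nat_lit 426323) (nat_lit 13) (.e (nat_lit 483363) (nat_lit 18) (.e (nat_lit 57688) (nat_lit 156) .nil)))))) (.g (nat_lit 1) (.e (nat_lit 160971) (nat_lit 0) .nil) .nil)))))) (.nd (nat_lit 7) (.nd (nat_lit 8) (.nd (nat_lit 9) 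
(.lf (nat_lit 496724) (.g (nat_lit 3800) (.e (nat_lit 163907) (nat_lit 12) (.e (nat_lit 426566) (nat_lit 34) (.e (nat_lit 393294) (nat_lit 26) (.e (nat_lit 475177) (nat_lit 24) (.e (nat_lit 516115) (nat_lit 1) (.e (nat_lit 164327) (nat_lit 230) .nil)))))) (.g (nat_lit 1) (.e (nat_lit 155974) (nat_lit 0) .nil) .nil))) 
(.lf (nat_lit 497236) (.g (nat_lit 4082) (.e (nat_lit 163917) (nat_lit 13) (.e (nat_lit 434231) (nat_lit 23) (.e (nat_lit 532550) (nat_lit 12) (.e (nat_lit 360475) (nat_lit 8) (.e (nat_lit 557091) (nat_lit 12) (.e (nat_lit 163847) (nat_lit 0) (.e (nat_lit 6421) (nat_lit 341) .nil))))))) (.g (nat_lit 1) (.e (nat_lit 157642) (nat_lit 0) .nil) .nil)))) (.nd (nat_lit 9) 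
(.lf (nat_lit 496980) (.g (nat_lit 2854) (.e (nat_lit 163908) (nat_lit 12) (.e (nat_lit 426338) (nat_lit 14) (.e (nat_lit 491549) (nat_lit 9) (.e (nat_lit 336426) (nat_lit 29) (.e (nat_lit 442430) (nat_lit 24) (.e (nat_lit 229678) (nat_lit 244) .nil)))))) (.g (nat_lit 1) (.e (nat_lit 156707) (nat_lit 0) .nil) .nil))) 
(.lf (nat_lit 497492) (.g (nat_lit 2487) (.e (nat_lit 163938) (nat_lit 18) (.e (nat_lit 475185) (nat_lit 29) (.e (nat_lit 557100) (nat_lit 13) (.e (nat_lit 172113) (nat_lit 10) (.e (nat_lit 434245) (nat_lit 28) (.e (nat_lit 573473) (nat_lit 12) (.e (nat_lit 57347) (nat_lit 0) (.e (nat_lit 6943) (nat_lit 375) .nil)))))))) (.g (nat_lit 1) (.e (nat_lit 160897) (nat_lit 0) .nil) .nil))))) 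
(.nd (nat_lit 8) (.nd (nat_lit 9) 
(.lf (nat_lit 496852) (.g (nat_lit 3689) (.e (nat_lit 163908) (nat_lit 12) (.e (nat_lit 426132) (nat_lit 3) (.e (nat_lit 204869) (nat_lit 29) (.e (nat_lit 360475) (nat_lit 8) (.e (nat_lit 557091) (nat_lit 12) (.e (nat_lit 163847) (nat_lit 0) (.e (nat_lit 6416) (nat_lit 341) .nil))))))) (.g (nat_lit 1) (.e (nat_lit 156121) (nat_lit 0) .nil) .nil))) 
(.lf (nat_lit 497364) (.g (nat_lit 2507) (.e (nat_lit 163936) (nat_lit 18) (.e (nat_lit 475177) (nat_lit 24) (.e (nat_lit 516176) (nat_lit 14) (.e (nat_lit 466954) (nat_lit 11) (.e (nat_lit 335986) (nat_lit 1) (.e (nat_lit 57687) (nat_lit 156) .nil)))))) (.g (nat_lit 1) (.e (nat_lit 160719) (nat_lit 0) .nil) .nil)))) (.nd (nat_lit 9) 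
(.lf (nat_lit 497108) (.g (nat_lit 2546) (.e (nat_lit 163913) (nat_lit 12) (.e (nat_lit 426347) (nat_lit 14) (.e (nat_lit 491550) (nat_lit 9) (.e (nat_lit 336430) (nat_lit 29) (.e (nat_lit 442428) (nat_lit 24) .nil))))) (.g (nat_lit 0) (.e (nat_lit 157024) (nat_lit 0) .nil) .nil))) 
(.lf (nat_lit 497620) (.g (nat_lit 2893) (.e (nat_lit 163941) (nat_lit 19) (.e (nat_lit 483337) (nat_lit 9) (.e (nat_lit 426188) (nat_lit 9) (.e (nat_lit 426436) (nat_lit 18) (.e (nat_lit 98335) (nat_lit 18) (.e (nat_lit 164326) (nat_lit 230) .nil)))))) (.g (nat_lit 1) (.e (nat_lit 161096) (nat_lit 0) .nil) .nil))))))) (.nd (nat_lit 6) (.nd (nat_lit 7) (.nd (nat_lit 8) (.nd (nat_lit 9) 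
(.lf (nat_lit 496692) (.g (nat_lit 986) (.e (nat_lit 163907) (nat_lit 12) (.e (nat_lit 426566) (nat_lit 34) (.e (nat_lit 393273) (nat_lit 23) (.e (nat_lit 426437) (nat_lit 18) .nil)))) (.g (nat_lit 0) (.e (nat_lit 155942) (nat_lit 0) .nil) .nil))) 
(.lf (nat_lit 497204) (.g (nat_lit 1933) (.e (nat_lit 163916) (nat_lit 13) (.e (nat_lit 434231) (nat_lit 23) (.e (nat_lit 532550) (nat_lit 12) (.e (nat_lit 360474) (nat_lit 8) (.e (nat_lit 557094) (nat_lit 12) .nil))))) (.g (nat_lit 0) (.e (nat_lit 157480) (nat_lit 0) .nil) .nil)))) (.nd (nat_lit 9) 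
(.lf (nat_lit 496948) (.g (nat_lit 2958) (.e (nat_lit 163908) (nat_lit 12) (.e (nat_lit 426305) (nat_lit 12) (.e (nat_lit 475211) (nat_lit 41) (.e (nat_lit 712752) (nat_lit 29) (.e (nat_lit 442430) (nat_lit 24) (.e (nat_lit 229677) (nat_lit 244) .nil)))))) (.g (nat_lit 1) (.e (nat_lit 156514) (nat_lit 0) .nil) .nil))) 
(.lf (nat_lit 497460) (.g (nat_lit 1155) (.e (nat_lit 163938) (nat_lit 18) (.e (nat_lit 475179) (nat_lit 24) (.e (nat_lit 516174) (nat_lit 14) (.e (nat_lit 466950) (nat_lit 11) .nil)))) (.g (nat_lit 0) (.e (nat_lit 160863) (nat_lit 0) .nil) .nil))))) (.nd (nat_lit 8) (.nd (nat_lit 9) 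
(.lf (nat_lit 496820) (.g (nat_lit 3533) (.e (nat_lit 163908) (nat_lit 12) (.e (nat_lit 426132) (nat_lit 3) (.e (nat_lit 204868) (nat_lit 29) (.e (nat_lit 360473) (nat_lit 8) (.e (nat_lit 557091) (nat_lit 12) (.e (nat_lit 163843) (nat_lit 0) (.e (nat_lit 6420) (nat_lit 341) .nil))))))) (.g (nat_lit 1) (.e (nat_lit 156089) (nat_lit 0) .nil) .nil))) 
(.lf (nat_lit 497332) (.g (nat_lit 615) (.e (nat_lit 163933) (nat_lit 17) (.e (nat_lit 466977) (nat_lit 22) (.e (nat_lit 196654) (nat_lit 11) .nil))) (.g (nat_lit 0) (.e (nat_lit 160631) (nat_lit 0) .nil) .nil)))) (.nd (nat_lit 9) 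
(.lf (nat_lit 497076) (.g (nat_lit 5878) (.e (nat_lit 163913) (nat_lit 12) (.e (nat_lit 426129) (nat_lit 3) (.e (nat_lit 204869) (nat_lit 29) (.e (nat_lit 360474) (nat_lit 8) (.e (nat_lit 557091) (nat_lit 12) (.e (nat_lit 163843) (nat_lit 0) (.e (nat_lit 6421) (nat_lit 341) .nil))))))) (.g (nat_lit 1) (.e (nat_lit 156960) (nat_lit 0) .nil) .nil))) 
(.lf (nat_lit 497588) (.g (nat_lit 2376) (.e (nat_lit 163939) (nat_lit 18) (.e (nat_lit 475179) (nat_lit 24) (.e (nat_lit 516176) (nat_lit 14) (.e (nat_lit 466954) (nat_lit 11) (.e (nat_lit 335987) (nat_lit 1) (.e (nat_lit 57691) (nat_lit 156) .nil)))))) (.g (nat_lit 1) (.e (nat_lit 161014) (nat_lit 0) .nil) .nil)))))) (.nd (nat_lit 7) (.nd (nat_lit 8) (.nd (nat_lit 9) 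
(.lf (nat_lit 496756) (.g (nat_lit 2467) (.e (nat_lit 163907) (nat_lit 12) (.e (nat_lit 426567) (nat_lit 34) (.e (nat_lit 393294) (nat_lit 26) (.e (nat_lit 475177) (nat_lit 24) (.e (nat_lit 516118) (nat_lit 1) (.e (nat_lit 164325) (nat_lit 230) .nil)))))) (.g (nat_lit 1) (.e (nat_lit 156006) (nat_lit 0) .nil) .nil))) 
(.lf (nat_lit 497268) (.g (nat_lit 1802) (.e (nat_lit 163922) (nat_lit 15) (.e (nat_lit 450584) (nat_lit 9) (.e (nat_lit 565267) (nat_lit 4) (.e (nat_lit 65610) (nat_lit 10) (.e (nat_lit 344090) (nat_lit 18) (.e (nat_lit 7708) (nat_lit 414) .nil)))))) (.g (nat_lit 1) (.e (nat_lit 158494) (nat_lit 0) .nil) .nil)))) (.nd (nat_lit 9) 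
(.lf (nat_lit 497012) (.g (nat_lit 604) (.e (nat_lit 163908) (nat_lit 12) (.e (nat_lit 426412) (nat_lit 15) (.e (nat_lit 1784) (nat_lit 119) .nil))) (.g (nat_lit 0) (.e (nat_lit 156778) (nat_lit 0) .nil) .nil))) 
(.lf (nat_lit 497524) (.g (nat_lit 1772) (.e (nat_lit 163939) (nat_lit 18) (.e (nat_lit 475177) (nat_lit 24) (.e (nat_lit 516150) (nat_lit 9) (.e (nat_lit 426323) (nat_lit 13) (.e (nat_lit 483365) (nat_lit 18) (.e (nat_lit 57685) (nat_lit 156) .nil)))))) (.g (nat_lit 1) (.e (nat_lit 160930) (nat_lit 0) .nil) .nil))))) (.nd (nat_lit 8) (.nd (nat_lit 9) 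
(.lf (nat_lit 496884) (.g (nat_lit 1813) (.e (nat_lit 163908) (nat_lit 12) (.e (nat_lit 426171) (nat_lit 7) (.e (nat_lit 409646) (nat_lit 18) (.e (nat_lit 303111) (nat_lit 0) .nil)))) (.g (nat_lit 0) (.e (nat_lit 156194) (nat_lit 0) .nil) .nil))) 
(.lf (nat_lit 497396) (.g (nat_lit 2002) (.e (nat_lit 163936) (nat_lit 18) (.e (nat_lit 475179) (nat_lit 24) (.e (nat_lit 516176) (nat_lit 14) (.e (nat_lit 466972) (nat_lit 21) (.e (nat_lit 164183) (nat_lit 154) (.e (nat_lit 65280) (nat_lit 62) (.e (nat_lit 164331) (nat_lit 230) .nil))))))) (.g (nat_lit 1) (.e (nat_lit 160773) (nat_lit 0) .nil) .nil)))) (.nd (nat_lit 9) 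
(.lf (nat_lit 497140) (.g (nat_lit 1835) (.e (nat_lit 163915) (nat_lit 12) (.e (nat_lit 426306) (nat_lit 12) (.e (nat_lit 475198) (nat_lit 40) (.e (nat_lit 704598) (nat_lit 6) (.e (nat_lit 188455) (nat_lit 24) .nil))))) (.g (nat_lit 0) (.e (nat_lit 157142) (nat_lit 0) .nil) .nil))) 
(.lf (nat_lit 497652) (.g (nat_lit 2723) (.e (nat_lit 163941) (nat_lit 19) (.e (nat_lit 483337) (nat_lit 9) (.e (nat_lit 426306) (nat_lit 12) (.e (nat_lit 475179) (nat_lit 24) (.e (nat_lit 516119) (nat_lit 1) (.e (nat_lit 164326) (nat_lit 230) .nil)))))) (.g (nat_lit 1) (.e (nat_lit 161172) (nat_lit 0) .nil) .nil))))))))) 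
(.nd (nat_lit 4) (.nd (nat_lit 5) (.nd (nat_lit 6) (.nd (nat_lit 7) (.nd (nat_lit 8) 
(.nd (nat_lit 9) 
(.lf (nat_lit 496652) (.g (nat_lit 2937) (.e (nat_lit 163907) (nat_lit 12) (.e (nat_lit 426564) (nat_lit 34) (.e (nat_lit 393291) (nat_lit 26) (.e (nat_lit 475177) (nat_lit 24) (.e (nat_lit 516118) (nat_lit 1) (.e (nat_lit 164325) (nat_lit 230) .nil)))))) (.g (nat_lit 1) (.e (nat_lit 155902) (nat_lit 0) .nil) .nil))) 
(.lf (nat_lit 497164) (.g (nat_lit 3053) (.e (nat_lit 163915) (nat_lit 12) (.e (nat_lit 426306) (nat_lit 12) (.e (nat_lit 475211) (nat_lit 41) (.e (nat_lit 712752) (nat_lit 29) (.e (nat_lit 442430) (nat_lit 24) (.e (nat_lit 229680) (nat_lit 244) .nil)))))) (.g (nat_lit 1) (.e (nat_lit 157174) (nat_lit 0) .nil) .nil)))) (.nd (nat_lit 9) 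
(.lf (nat_lit 496908) (.g (nat_lit 1214) (.e (nat_lit 163908) (nat_lit 12) (.e (nat_lit 426286) (nat_lit 10) (.e (nat_lit 434276) (nat_lit 39) (.e (nat_lit 663574) (nat_lit 9) (.e (nat_lit 7936) (nat_lit 24) .nil))))) (.g (nat_lit 0) (.e (nat_lit 156425) (nat_lit 0) .nil) .nil))) 
(.lf (nat_lit 497420) (.g (nat_lit 1707) (.e (nat_lit 163938) (nat_lit 18) (.e (nat_lit 475177) (nat_lit 24) (.e (nat_lit 516150) (nat_lit 9) (.e (nat_lit 426323) (nat_lit 13) (.e (nat_lit 483364) (nat_lit 18) .nil))))) (.g (nat_lit 0) (.e (nat_lit 160806) (nat_lit 0) .nil) .nil))))) (.nd (nat_lit 8) (.nd (nat_lit 9) 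
(.lf (nat_lit 496780) (.g (nat_lit 2244) (.e (nat_lit 163907) (nat_lit 12) (.e (nat_lit 426568) (nat_lit 34) (.e (nat_lit 393271) (nat_lit 23) (.e (nat_lit 426131) (nat_lit 3) (.e (nat_lit 204831) (nat_lit 18) (.e (nat_lit 57685) (nat_lit 156) .nil)))))) (.g (nat_lit 1) (.e (nat_lit 156030) (nat_lit 0) .nil) .nil))) 
(.lf (nat_lit 497292) (.g (nat_lit 2473) (.e (nat_lit 163923) (nat_lit 15) (.e (nat_lit 450584) (nat_lit 9) (.e (nat_lit 565267) (nat_lit 4) (.e (nat_lit 65619) (nat_lit 10) (.e (nat_lit 344090) (nat_lit 18) (.e (nat_lit 7708) (nat_lit 414) .nil)))))) (.g (nat_lit 1) (.e (nat_lit 158778) (nat_lit 0) .nil) .nil)))) (.nd (nat_lit 9) 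
(.lf (nat_lit 497036) (.g (nat_lit 3153) (.e (nat_lit 163909) (nat_lit 12) (.e (nat_lit 426125) (nat_lit 2) (.e (nat_lit 196666) (nat_lit 13) (.e (nat_lit 65617) (nat_lit 10) (.e (nat_lit 344132) (nat_lit 26) (.e (nat_lit 557091) (nat_lit 12) (.e (nat_lit 163843) (nat_lit 0) (.e (nat_lit 6416) (nat_lit 341) .nil)))))))) (.g (nat_lit 1) (.e (nat_lit 156843) (nat_lit 0) .nil) .nil))) 
(.lf (nat_lit 497548) (.g (nat_lit 2189) (.e (nat_lit 163939) (nat_lit 18) (.e (nat_lit 475179) (nat_lit 24) (.e (nat_lit 516146) (nat_lit 9) (.e (nat_lit 426323) (nat_lit 13) (.e (nat_lit 483364) (nat_lit 18) .nil))))) (.g (nat_lit 0) (.e (nat_lit 160956) (nat_lit 0) .nil) .nil)))))) (.nd (nat_lit 7) (.nd (nat_lit 8) (.nd (nat_lit 9) 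
(.lf (nat_lit 496716) (.g (nat_lit 1974) (.e (nat_lit 163907) (nat_lit 12) (.e (nat_lit 426566) (nat_lit 34) (.e (nat_lit 393292) (nat_lit 26) (.e (nat_lit 475177) (nat_lit 24) (.e (nat_lit 516115) (nat_lit 1) (.e (nat_lit 164327) (nat_lit 230) .nil)))))) (.g (nat_lit 1) (.e (nat_lit 155966) (nat_lit 0) .nil) .nil))) 
(.lf (nat_lit 497228) (.g (nat_lit 2506) (.e (nat_lit 163917) (nat_lit 13) (.e (nat_lit 434231) (nat_lit 23) (.e (nat_lit 532550) (nat_lit 12) (.e (nat_lit 360474) (nat_lit 8) (.e (nat_lit 557094) (nat_lit 12) (.e (nat_lit 163848) (nat_lit 0) (.e (nat_lit 6418) (nat_lit 341) .nil))))))) (.g (nat_lit 1) (.e (nat_lit 157634) (nat_lit 0) .nil) .nil)))) (.nd (nat_lit 9) 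
(.lf (nat_lit 496972) (.g (nat_lit 1052) (.e (nat_lit 163908) (nat_lit 12) (.e (nat_lit 426312) (nat_lit 12) (.e (nat_lit 475211) (nat_lit 41) (.e (nat_lit 712753) (nat_lit 30) .nil)))) (.g (nat_lit 0) (.e (nat_lit 156542) (nat_lit 0) .nil) .nil))) 
(.lf (nat_lit 497484) (.g (nat_lit 1996) (.e (nat_lit 163938) (nat_lit 18) (.e (nat_lit 475179) (nat_lit 24) (.e (nat_lit 516176) (nat_lit 14) (.e (nat_lit 466954) (nat_lit 11) (.e (nat_lit 335995) (nat_lit 1) (.e (nat_lit 57687) (nat_lit 156) .nil)))))) (.g (nat_lit 1) (.e (nat_lit 160888) (nat_lit 0) .nil) .nil))))) (.nd (nat_lit 8) (.nd (nat_lit 9) 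
(.lf (nat_lit 496844) (.g (nat_lit 2648) (.e (nat_lit 163908) (nat_lit 12) (.e (nat_lit 426132) (nat_lit 3) (.e (nat_lit 204869) (nat_lit 29) (.e (nat_lit 360474) (nat_lit 8) (.e (nat_lit 557094) (nat_lit 12) (.e (nat_lit 163848) (nat_lit 0) (.e (nat_lit 6418) (nat_lit 341) .nil))))))) (.g (nat_lit 1) (.e (nat_lit 156113) (nat_lit 0) .nil) .nil))) 
(.lf (nat_lit 497356) (.g (nat_lit 1703) (.e (nat_lit 163936) (nat_lit 18) (.e (nat_lit 475177) (nat_lit 24) (.e (nat_lit 516150) (nat_lit 9) (.e (nat_lit 426323) (nat_lit 13) (.e (nat_lit 483366) (nat_lit 18) .nil))))) (.g (nat_lit 0) (.e (nat_lit 160709) (nat_lit 0) .nil) .nil)))) (.nd (nat_lit 9) 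
(.lf (nat_lit 497100) (.g (nat_lit 2877) (.e (nat_lit 163913) (nat_lit 12) (.e (nat_lit 426318) (nat_lit 12) (.e (nat_lit 475211) (nat_lit 41) (.e (nat_lit 712755) (nat_lit 30) (.e (nat_lit 450569) (nat_lit 0) (.e (nat_lit 5599) (nat_lit 310) .nil)))))) (.g (nat_lit 1) (.e (nat_lit 156996) (nat_lit 0) .nil) .nil))) 
(.lf (nat_lit 497612) (.g (nat_lit 4152) (.e (nat_lit 163939) (nat_lit 18) (.e (nat_lit 475185) (nat_lit 29) (.e (nat_lit 557109) (nat_lit 15) (.e (nat_lit 188452) (nat_lit 23) (.e (nat_lit 204830) (nat_lit 18) (.e (nat_lit 65280) (nat_lit 219) .nil)))))) (.g (nat_lit 1) (.e (nat_lit 161038) (nat_lit 0) .nil) .nil))))))) (.nd (nat_lit 6) (.nd (nat_lit 7) (.nd (nat_lit 8) (.nd (nat_lit 9) 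
(.lf (nat_lit 496684) (.g (nat_lit 3135) (.e (nat_lit 163907) (nat_lit 12) (.e (nat_lit 426566) (nat_lit 34) (.e (nat_lit 393272) (nat_lit 23) (.e (nat_lit 426438) (nat_lit 18) (.e (nat_lit 98333) (nat_lit 18) (.e (nat_lit 164325) (nat_lit 230) .nil)))))) (.g (nat_lit 1) (.e (nat_lit 155934) (nat_lit 0) .nil) .nil))) 
(.lf (nat_lit 497196) (.g (nat_lit 1489) (.e (nat_lit 171776) (nat_lit 12) (.e (nat_lit 426568) (nat_lit 34) (.e (nat_lit 393271) (nat_lit 23) (.e (nat_lit 426131) (nat_lit 3) (.e (nat_lit 204831) (nat_lit 18) .nil))))) (.g (nat_lit 0) (.e (nat_lit 157396) (nat_lit 0) .nil) .nil)))) (.nd (nat_lit 9) 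
(.lf (nat_lit 496940) (.g (nat_lit 3839) (.e (nat_lit 163908) (nat_lit 12) (.e (nat_lit 426305) (nat_lit 12) (.e (nat_lit 475199) (nat_lit 40) (.e (nat_lit 704598) (nat_lit 6) (.e (nat_lit 188453) (nat_lit 24) (.e (nat_lit 229678) (nat_lit 244) .nil)))))) (.g (nat_lit 1) (.e (nat_lit 156476) (nat_lit 0) .nil) .nil))) 
(.lf (nat_lit 497452) (.g (nat_lit 3241) (.e (nat_lit 163938) (nat_lit 18) (.e (nat_lit 475179) (nat_lit 24) (.e (nat_lit 516150) (nat_lit 9) (.e (nat_lit 426323) (nat_lit 13) (.e (nat_lit 483363) (nat_lit 18) (.e (nat_lit 57691) (nat_lit 156) .nil)))))) (.g (nat_lit 1) (.e (nat_lit 160843) (nat_lit 0) .nil) .nil))))) (.nd (nat_lit 8) (.nd (nat_lit 9) 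
(.lf (nat_lit 496812) (.g (nat_lit 4056) (.e (nat_lit 163907) (nat_lit 12) (.e (nat_lit 426568) (nat_lit 34) (.e (nat_lit 393294) (nat_lit 26) (.e (nat_lit 475179) (nat_lit 24) (.e (nat_lit 516115) (nat_lit 1) (.e (nat_lit 164325) (nat_lit 230) .nil)))))) (.g (nat_lit 1) (.e (nat_lit 156062) (nat_lit 0) .nil) .nil))) 
(.lf (nat_lit 497324) (.g (nat_lit 1258) (.e (nat_lit 163933) (nat_lit 17) (.e (nat_lit 466972) (nat_lit 21) (.e (nat_lit 164332) (nat_lit 230) (.e (nat_lit 163862) (nat_lit 1) .nil)))) (.g (nat_lit 0) (.e (nat_lit 160620) (nat_lit 0) .nil) .nil)))) (.nd (nat_lit 9) 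
(.lf (nat_lit 497068) (.g (nat_lit 1922) (.e (nat_lit 163911) (nat_lit 12) (.e (nat_lit 426338) (nat_lit 14) (.e (nat_lit 491549) (nat_lit 9) (.e (nat_lit 336430) (nat_lit 29) .nil)))) (.g (nat_lit 0) (.e (nat_lit 156943) (nat_lit 0) .nil) .nil))) 
(.lf (nat_lit 497580) (.g (nat_lit 2488) (.e (nat_lit 163939) (nat_lit 18) (.e (nat_lit 475179) (nat_lit 24) (.e (nat_lit 516174) (nat_lit 14) (.e (nat_lit 466954) (nat_lit 11) (.e (nat_lit 335994) (nat_lit 1) (.e (nat_lit 57692) (nat_lit 156) .nil)))))) (.g (nat_lit 1) (.e (nat_lit 161006) (nat_lit 0) .nil) .nil)))))) (.nd (nat_lit 7) (.nd (nat_lit 8) (.nd (nat_lit 9) 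
(.lf (nat_lit 496748) (.g (nat_lit 2966) (.e (nat_lit 163907) (nat_lit 12) (.e (nat_lit 426566) (nat_lit 34) (.e (nat_lit 393296) (nat_lit 26) (.e (nat_lit 475179) (nat_lit 24) (.e (nat_lit 516119) (nat_lit 1) (.e (nat_lit 164324) (nat_lit 230) .nil)))))) (.g (nat_lit 1) (.e (nat_lit 155998) (nat_lit 0) .nil) .nil))) 
(.lf (nat_lit 497260) (.g (nat_lit 2651) (.e (nat_lit 163920) (nat_lit 14) (.e (nat_lit 442421) (nat_lit 21) (.e (nat_lit 164319) (nat_lit 228) (.e (nat_lit 57424) (nat_lit 14) (.e (nat_lit 352318) (nat_lit 24) (.e (nat_lit 123159) (nat_lit 254) .nil)))))) (.g (nat_lit 1) (.e (nat_lit 158111) (nat_lit 0) .nil) .nil)))) (.nd (nat_lit 9) 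
(.lf (nat_lit 497004) (.g (nat_lit 3025) (.e (nat_lit 163908) (nat_lit 12) (.e (nat_lit 426338) (nat_lit 14) (.e (nat_lit 491550) (nat_lit 9) (.e (nat_lit 336430) (nat_lit 29) (.e (nat_lit 442428) (nat_lit 24) (.e (nat_lit 229677) (nat_lit 244) .nil)))))) (.g (nat_lit 1) (.e (nat_lit 156736) (nat_lit 0) .nil) .nil))) 
(.lf (nat_lit 497516) (.g (nat_lit 1680) (.e (nat_lit 163939) (nat_lit 18) (.e (nat_lit 475177) (nat_lit 24) (.e (nat_lit 516149) (nat_lit 9) (.e (nat_lit 426323) (nat_lit 13) (.e (nat_lit 483365) (nat_lit 18) (.e (nat_lit 57687) (nat_lit 156) .nil)))))) (.g (nat_lit 1) (.e (nat_lit 160922) (nat_lit 0) .nil) .nil))))) (.nd (nat_lit 8) (.nd (nat_lit 9) 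
(.lf (nat_lit 496876) (.g (nat_lit 1526) (.e (nat_lit 163908) (nat_lit 12) (.e (nat_lit 426170) (nat_lit 7) (.e (nat_lit 409638) (nat_lit 15) (.e (nat_lit 278566) (nat_lit 16) (.e (nat_lit 286747) (nat_lit 9) (.e (nat_lit 335997) (nat_lit 1) (.e (nat_lit 57857) (nat_lit 254) .nil))))))) (.g (nat_lit 1) (.e (nat_lit 156151) (nat_lit 0) .nil) .nil))) 
(.lf (nat_lit 497388) (.g (nat_lit 2014) (.e (nat_lit 163936) (nat_lit 18) (.e (nat_lit 475179) (nat_lit 24) (.e (nat_lit 516176) (nat_lit 14) (.e (nat_lit 466954) (nat_lit 11) (.e (nat_lit 335986) (nat_lit 1) (.e (nat_lit 57687) (nat_lit 156) .nil)))))) (.g (nat_lit 1) (.e (nat_lit 160765) (nat_lit 0) .nil) .nil)))) (.nd (nat_lit 9) 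
(.lf (nat_lit 497132) (.g (nat_lit 2405) (.e (nat_lit 163915) (nat_lit 12) (.e (nat_lit 426137) (nat_lit 3) (.e (nat_lit 204869) (nat_lit 29) (.e (nat_lit 360475) (nat_lit 8) (.e (nat_lit 557091) (nat_lit 12) .nil))))) (.g (nat_lit 0) (.e (nat_lit 157123) (nat_lit 0) .nil) .nil))) 
(.lf (nat_lit 497644) (.g (nat_lit 1986) (.e (nat_lit 163941) (nat_lit 19) (.e (nat_lit 483337) (nat_lit 9) (.e (nat_lit 426204) (nat_lit 9) (.e (nat_lit 426412) (nat_lit 15) (.e (nat_lit 1800) (nat_lit 119) .nil))))) (.g (nat_lit 0) (.e (nat_lit 161147) (nat_lit 0) .nil) .nil)))))))) (.nd (nat_lit 5) (.nd (nat_lit 6) (.nd (nat_lit 7) (.nd (nat_lit 8) (.nd (nat_lit 9) 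
(.lf (nat_lit 496668) (.g (nat_lit 2701) (.e (nat_lit 163907) (nat_lit 12) (.e (nat_lit 426566) (nat_lit 34) (.e (nat_lit 393270) (nat_lit 23) (.e (nat_lit 426438) (nat_lit 18) (.e (nat_lit 98333) (nat_lit 18) (.e (nat_lit 164327) (nat_lit 230) .nil)))))) (.g (nat_lit 1) (.e (nat_lit 155918) (nat_lit 0) .nil) .nil))) 
(.lf (nat_lit 497180) (.g (nat_lit 2381) (.e (nat_lit 171776) (nat_lit 12) (.e (nat_lit 426139) (nat_lit 3) (.e (nat_lit 204869) (nat_lit 29) (.e (nat_lit 360474) (nat_lit 8) (.e (nat_lit 557094) (nat_lit 12) .nil))))) (.g (nat_lit 0) (.e (nat_lit 157361) (nat_lit 0) .nil) .nil)))) (.nd (nat_lit 9) 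
(.lf (nat_lit 496924) (.g (nat_lit 3605) (.e (nat_lit 163908) (nat_lit 12) (.e (nat_lit 426286) (nat_lit 10) (.e (nat_lit 434289) (nat_lit 43) (.e (nat_lit 696344) (nat_lit 8) (.e (nat_lit 172115) (nat_lit 10) (.e (nat_lit 434202) (nat_lit 18) (.e (nat_lit 6420) (nat_lit 341) .nil))))))) (.g (nat_lit 1) (.e (nat_lit 156457) (nat_lit 0) .nil) .nil))) 
(.lf (nat_lit 497436) (.g (nat_lit 3093) (.e (nat_lit 163938) (nat_lit 18) (.e (nat_lit 475177) (nat_lit 24) (.e (nat_lit 516176) (nat_lit 14) (.e (nat_lit 466954) (nat_lit 11) (.e (nat_lit 335994) (nat_lit 1) (.e (nat_lit 57691) (nat_lit 156) .nil)))))) (.g (nat_lit 1) (.e (nat_lit 160822) (nat_lit 0) .nil) .nil))))) (.nd (nat_lit 8) (.nd (nat_lit 9) 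
(.lf (nat_lit 496796) (.g (nat_lit 3074) (.e (nat_lit 163907) (nat_lit 12) (.e (nat_lit 426568) (nat_lit 34) (.e (nat_lit 393290) (nat_lit 26) (.e (nat_lit 475179) (nat_lit 24) (.e (nat_lit 516119) (nat_lit 1) (.e (nat_lit 164325) (nat_lit 230) .nil)))))) (.g (nat_lit 1) (.e (nat_lit 156046) (nat_lit 0) .nil) .nil))) 
(.lf (nat_lit 497308) (.g (nat_lit 229) (.e (nat_lit 163931) (nat_lit 17) (.e (nat_lit 466947) (nat_lit 0) (.e (nat_lit 2173) (nat_lit 143) .nil))) (.g (nat_lit 0) (.e (nat_lit 159221) (nat_lit 0) .nil) .nil)))) (.nd (nat_lit 9) 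
(.lf (nat_lit 497052) (.g (nat_lit 3028) (.e (nat_lit 163910) (nat_lit 12) (.e (nat_lit 426125) (nat_lit 2) (.e (nat_lit 196666) (nat_lit 13) (.e (nat_lit 65617) (nat_lit 10) .nil)))) (.g (nat_lit 0) (.e (nat_lit 156890) (nat_lit 0) .nil) .nil))) 
(.lf (nat_lit 497564) (.g (nat_lit 2911) (.e (nat_lit 163939) (nat_lit 18) (.e (nat_lit 475179) (nat_lit 24) (.e (nat_lit 516150) (nat_lit 9) (.e (nat_lit 426323) (nat_lit 13) (.e (nat_lit 483365) (nat_lit 18) (.e (nat_lit 57692) (nat_lit 156) .nil)))))) (.g (nat_lit 1) (.e (nat_lit 160979) (nat_lit 0) .nil) .nil)))))) (.nd (nat_lit 7) (.nd (nat_lit 8) (.nd (nat_lit 9) 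
(.lf (nat_lit 496732) (.g (nat_lit 3151) (.e (nat_lit 163907) (nat_lit 12) (.e (nat_lit 426566) (nat_lit 34) (.e (nat_lit 393296) (nat_lit 26) (.e (nat_lit 475175) (nat_lit 24) (.e (nat_lit 516119) (nat_lit 1) (.e (nat_lit 164325) (nat_lit 230) .nil)))))) (.g (nat_lit 1) (.e (nat_lit 155982) (nat_lit 0) .nil) .nil))) 
(.lf (nat_lit 497244) (.g (nat_lit 3430) (.e (nat_lit 163918) (nat_lit 13) (.e (nat_lit 434231) (nat_lit 23) (.e (nat_lit 532550) (nat_lit 12) (.e (nat_lit 360475) (nat_lit 8) (.e (nat_lit 557089) (nat_lit 12) (.e (nat_lit 163848) (nat_lit 0) (.e (nat_lit 6416) (nat_lit 341) .nil))))))) (.g (nat_lit 1) (.e (nat_lit 157772) (nat_lit 0) .nil) .nil)))) (.nd (nat_lit 9) 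
(.lf (nat_lit 496988) (.g (nat_lit 3371) (.e (nat_lit 163908) (nat_lit 12) (.e (nat_lit 426338) (nat_lit 14) (.e (nat_lit 491549) (nat_lit 9) (.e (nat_lit 336430) (nat_lit 29) (.e (nat_lit 442428) (nat_lit 24) (.e (nat_lit 229679) (nat_lit 244) .nil)))))) (.g (nat_lit 1) (.e (nat_lit 156718) (nat_lit 0) .nil) .nil))) 
(.lf (nat_lit 497500) (.g (nat_lit 2469) (.e (nat_lit 163938) (nat_lit 18) (.e (nat_lit 475185) (nat_lit 29) (.e (nat_lit 557100) (nat_lit 13) (.e (nat_lit 172113) (nat_lit 10) (.e (nat_lit 434247) (nat_lit 28) .nil))))) (.g (nat_lit 0) (.e (nat_lit 160905) (nat_lit 0) .nil) .nil))))) (.nd (nat_lit 8) (.nd (nat_lit 9) 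
(.lf (nat_lit 496860) (.g (nat_lit 2404) (.e (nat_lit 163908) (nat_lit 12) (.e (nat_lit 426136) (nat_lit 3) (.e (nat_lit 204869) (nat_lit 29) (.e (nat_lit 360474) (nat_lit 8) (.e (nat_lit 557094) (nat_lit 12) (.e (nat_lit 163848) (nat_lit 0) (.e (nat_lit 6416) (nat_lit 341) .nil))))))) (.g (nat_lit 1) (.e (nat_lit 156129) (nat_lit 0) .nil) .nil))) 
(.lf (nat_lit 497372) (.g (nat_lit 1149) (.e (nat_lit 163936) (nat_lit 18) (.e (nat_lit 475179) (nat_lit 24) (.e (nat_lit 516150) (nat_lit 9) (.e (nat_lit 426323) (nat_lit 13) .nil)))) (.g (nat_lit 0) (.e (nat_lit 160731) (nat_lit 0) .nil) .nil)))) (.nd (nat_lit 9) 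
(.lf (nat_lit 497116) (.g (nat_lit 3953) (.e (nat_lit 163914) (nat_lit 12) (.e (nat_lit 426123) (nat_lit 2) (.e (nat_lit 196666) (nat_lit 13) (.e (nat_lit 65610) (nat_lit 10) (.e (nat_lit 344117) (nat_lit 21) (.e (nat_lit 524032) (nat_lit 18) (.e (nat_lit 57691) (nat_lit 156) .nil))))))) (.g (nat_lit 1) (.e (nat_lit 157039) (nat_lit 0) .nil) .nil))) 
(.lf (nat_lit 497628) (.g (nat_lit 3957) (.e (nat_lit 163941) (nat_lit 19) (.e (nat_lit 483337) (nat_lit 9) (.e (nat_lit 426189) (nat_lit 9) (.e (nat_lit 426436) (nat_lit 18) (.e (nat_lit 98335) (nat_lit 18) (.e (nat_lit 164331) (nat_lit 230) .nil)))))) (.g (nat_lit 1) (.e (nat_lit 161111) (nat_lit 0) .nil) .nil))))))) (.nd (nat_lit 6) (.nd (nat_lit 7) (.nd (nat_lit 8) (.nd (nat_lit 9) 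
(.lf (nat_lit 496700) (.g (nat_lit 1979) (.e (nat_lit 163907) (nat_lit 12) (.e (nat_lit 426566) (nat_lit 34) (.e (nat_lit 393283) (nat_lit 24) (.e (nat_lit 434231) (nat_lit 23) (.e (nat_lit 532499) (nat_lit 1) .nil))))) (.g (nat_lit 0) (.e (nat_lit 155950) (nat_lit 0) .nil) .nil))) 
(.lf (nat_lit 497212) (.g (nat_lit 3966) (.e (nat_lit 163916) (nat_lit 13) (.e (nat_lit 434231) (nat_lit 23) (.e (nat_lit 532550) (nat_lit 12) (.e (nat_lit 360475) (nat_lit 8) (.e (nat_lit 557091) (nat_lit 12) (.e (nat_lit 163844) (nat_lit 0) (.e (nat_lit 6416) (nat_lit 341) .nil))))))) (.g (nat_lit 1) (.e (nat_lit 157488) (nat_lit 0) .nil) .nil)))) (.nd (nat_lit 9) 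
(.lf (nat_lit 496956) (.g (nat_lit 3039) (.e (nat_lit 163908) (nat_lit 12) (.e (nat_lit 426305) (nat_lit 12) (.e (nat_lit 475211) (nat_lit 41) (.e (nat_lit 712755) (nat_lit 30) (.e (nat_lit 450563) (nat_lit 0) (.e (nat_lit 7936) (nat_lit 310) .nil)))))) (.g (nat_lit 1) (.e (nat_lit 156522) (nat_lit 0) .nil) .nil))) 
(.lf (nat_lit 497468) (.g (nat_lit 3336) (.e (nat_lit 163938) (nat_lit 18) (.e (nat_lit 475179) (nat_lit 24) (.e (nat_lit 516174) (nat_lit 14) (.e (nat_lit 466954) (nat_lit 11) (.e (nat_lit 335995) (nat_lit 1) (.e (nat_lit 57691) (nat_lit 156) .nil)))))) (.g (nat_lit 1) (.e (nat_lit 160871) (nat_lit 0) .nil) .nil))))) (.nd (nat_lit 8) (.nd (nat_lit 9) 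
(.lf (nat_lit 496828) (.g (nat_lit 865) (.e (nat_lit 163908) (nat_lit 12) (.e (nat_lit 426132) (nat_lit 3) (.e (nat_lit 204868) (nat_lit 29) (.e (nat_lit 360474) (nat_lit 8) .nil)))) (.g (nat_lit 0) (.e (nat_lit 156097) (nat_lit 0) .nil) .nil))) 
(.lf (nat_lit 497340) (.g (nat_lit 1908) (.e (nat_lit 163935) (nat_lit 18) (.e (nat_lit 475179) (nat_lit 24) (.e (nat_lit 516150) (nat_lit 9) (.e (nat_lit 426323) (nat_lit 13) .nil)))) (.g (nat_lit 0) (.e (nat_lit 160692) (nat_lit 0) .nil) .nil)))) (.nd (nat_lit 9) 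
(.lf (nat_lit 497084) (.g (nat_lit 6004) (.e (nat_lit 163913) (nat_lit 12) (.e (nat_lit 426129) (nat_lit 3) (.e (nat_lit 204869) (nat_lit 29) (.e (nat_lit 360475) (nat_lit 8) (.e (nat_lit 557091) (nat_lit 12) (.e (nat_lit 163843) (nat_lit 0) (.e (nat_lit 6421) (nat_lit 341) .nil))))))) (.g (nat_lit 1) (.e (nat_lit 156968) (nat_lit 0) .nil) .nil))) 
(.lf (nat_lit 497596) (.g (nat_lit 1953) (.e (nat_lit 163939) (nat_lit 18) (.e (nat_lit 475179) (nat_lit 24) (.e (nat_lit 516176) (nat_lit 14) (.e (nat_lit 466954) (nat_lit 11) (.e (nat_lit 335995) (nat_lit 1) (.e (nat_lit 57687) (nat_lit 156) .nil)))))) (.g (nat_lit 1) (.e (nat_lit 161022) (nat_lit 0) .nil) .nil)))))) (.nd (nat_lit 7) (.nd (nat_lit 8) (.nd (nat_lit 9) 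
(.lf (nat_lit 496764) (.g (nat_lit 2563) (.e (nat_lit 163907) (nat_lit 12) (.e (nat_lit 426568) (nat_lit 34) (.e (nat_lit 393266) (nat_lit 23) (.e (nat_lit 426438) (nat_lit 18) (.e (nat_lit 98335) (nat_lit 18) (.e (nat_lit 164325) (nat_lit 230) .nil)))))) (.g (nat_lit 1) (.e (nat_lit 156014) (nat_lit 0) .nil) .nil))) 
(.lf (nat_lit 497276) (.g (nat_lit 1846) (.e (nat_lit 163923) (nat_lit 15) (.e (nat_lit 450587) (nat_lit 10) (.e (nat_lit 573457) (nat_lit 9) (.e (nat_lit 1286) (nat_lit 95) .nil)))) (.g (nat_lit 0) (.e (nat_lit 158725) (nat_lit 0) .nil) .nil)))) (.nd (nat_lit 9) 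
(.lf (nat_lit 497020) (.g (nat_lit 3815) (.e (nat_lit 163909) (nat_lit 12) (.e (nat_lit 426125) (nat_lit 2) (.e (nat_lit 196666) (nat_lit 13) (.e (nat_lit 65610) (nat_lit 10) (.e (nat_lit 344117) (nat_lit 21) (.e (nat_lit 516097) (nat_lit 0) (.e (nat_lit 2431) (nat_lit 157) (.e (nat_lit 4540) (nat_lit 267) .nil)))))))) (.g (nat_lit 1) (.e (nat_lit 156825) (nat_lit 0) .nil) .nil))) 
(.lf (nat_lit 497532) (.g (nat_lit 2291) (.e (nat_lit 163939) (nat_lit 18) (.e (nat_lit 475177) (nat_lit 24) (.e (nat_lit 516174) (nat_lit 14) (.e (nat_lit 466954) (nat_lit 11) (.e (nat_lit 335993) (nat_lit 1) (.e (nat_lit 57691) (nat_lit 156) .nil)))))) (.g (nat_lit 1) (.e (nat_lit 160939) (nat_lit 0) .nil) .nil))))) (.nd (nat_lit 8) (.nd (nat_lit 9) 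
(.lf (nat_lit 496892) (.g (nat_lit 3815) (.e (nat_lit 163908) (nat_lit 12) (.e (nat_lit 426285) (nat_lit 10) (.e (nat_lit 434241) (nat_lit 27) (.e (nat_lit 565267) (nat_lit 4) (.e (nat_lit 65619) (nat_lit 10) (.e (nat_lit 344090) (nat_lit 18) (.e (nat_lit 7710) (nat_lit 414) .nil))))))) (.g (nat_lit 1) (.e (nat_lit 156331) (nat_lit 0) .nil) .nil))) 
(.lf (nat_lit 497404) (.g (nat_lit 1675) (.e (nat_lit 163937) (nat_lit 18) (.e (nat_lit 475177) (nat_lit 24) (.e (nat_lit 516176) (nat_lit 14) (.e (nat_lit 466950) (nat_lit 11) .nil)))) (.g (nat_lit 0) (.e (nat_lit 160789) (nat_lit 0) .nil) .nil)))) (.nd (nat_lit 9) 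
(.lf (nat_lit 497148) (.g (nat_lit 618) (.e (nat_lit 163915) (nat_lit 12) (.e (nat_lit 426306) (nat_lit 12) (.e (nat_lit 475208) (nat_lit 41) .nil))) (.g (nat_lit 0) (.e (nat_lit 157151) (nat_lit 0) .nil) .nil))) 
(.lf (nat_lit 497660) (.g (nat_lit 2459) (.e (nat_lit 163941) (nat_lit 19) (.e (nat_lit 483339) (nat_lit 9) (.e (nat_lit 426230) (nat_lit 9) (.e (nat_lit 426435) (nat_lit 18) (.e (nat_lit 98333) (nat_lit 18) (.e (nat_lit 164325) (nat_lit 230) .nil)))))) (.g (nat_lit 1) (.e (nat_lit 161220) (nat_lit 0) .nil) .nil))))))))))) 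
(.nd (nat_lit 2) (.nd (nat_lit 3) (.nd (nat_lit 4) (.nd (nat_lit 5) (.nd (nat_lit 6) 
(.nd (nat_lit 7) (.nd (nat_lit 8) (.nd (nat_lit 9) 
(.lf (nat_lit 496642) (.g (nat_lit 2256) (.e (nat_lit 163907) (nat_lit 12) (.e (nat_lit 426555) (nat_lit 32) (.e (nat_lit 376865) (nat_lit 22) (.e (nat_lit 90160) (nat_lit 11) (.e (nat_lit 32512) (nat_lit 1) .nil))))) (.g (nat_lit 0) (.e (nat_lit 155891) (nat_lit 0) .nil) .nil))) 
(.lf (nat_lit 497154) (.g (nat_lit 2547) (.e (nat_lit 163915) (nat_lit 12) (.e (nat_lit 426306) (nat_lit 12) (.e (nat_lit 475210) (nat_lit 41) (.e (nat_lit 712752) (nat_lit 29) (.e (nat_lit 442428) (nat_lit 24) (.e (nat_lit 229680) (nat_lit 244) .nil)))))) (.g (nat_lit 1) (.e (nat_lit 157162) (nat_lit 0) .nil) .nil)))) (.nd (nat_lit 9) 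
(.lf (nat_lit 496898) (.g (nat_lit 1241) (.e (nat_lit 163908) (nat_lit 12) (.e (nat_lit 426285) (nat_lit 10) (.e (nat_lit 434269) (nat_lit 36) (.e (nat_lit 639023) (nat_lit 18) (.e (nat_lit 81950) (nat_lit 21) (.e (nat_lit 57857) (nat_lit 254) .nil)))))) (.g (nat_lit 1) (.e (nat_lit 156337) (nat_lit 0) .nil) .nil))) 
(.lf (nat_lit 497410) (.g (nat_lit 1880) (.e (nat_lit 163938) (nat_lit 18) (.e (nat_lit 475176) (nat_lit 24) (.e (nat_lit 516176) (nat_lit 14) (.e (nat_lit 466954) (nat_lit 11) (.e (nat_lit 335988) (nat_lit 1) .nil))))) (.g (nat_lit 0) (.e (nat_lit 160796) (nat_lit 0) .nil) .nil))))) (.nd (nat_lit 8) (.nd (nat_lit 9) 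
(.lf (nat_lit 496770) (.g (nat_lit 1880) (.e (nat_lit 163907) (nat_lit 12) (.e (nat_lit 426568) (nat_lit 34) (.e (nat_lit 393269) (nat_lit 23) (.e (nat_lit 426436) (nat_lit 18) (.e (nat_lit 98333) (nat_lit 18) (.e (nat_lit 164325) (nat_lit 230) .nil)))))) (.g (nat_lit 1) (.e (nat_lit 156020) (nat_lit 0) .nil) .nil))) 
(.lf (nat_lit 497282) (.g (nat_lit 1845) (.e (nat_lit 163923) (nat_lit 15) (.e (nat_lit 450588) (nat_lit 10) (.e (nat_lit 573449) (nat_lit 9) (.e (nat_lit 1288) (nat_lit 95) .nil)))) (.g (nat_lit 0) (.e (nat_lit 158748) (nat_lit 0) .nil) .nil)))) (.nd (nat_lit 9) 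
(.lf (nat_lit 497026) (.g (nat_lit 2244) (.e (nat_lit 163909) (nat_lit 12) (.e (nat_lit 426125) (nat_lit 2) (.e (nat_lit 196666) (nat_lit 13) (.e (nat_lit 65617) (nat_lit 10) .nil)))) (.g (nat_lit 0) (.e (nat_lit 156833) (nat_lit 0) .nil) .nil))) 
(.lf (nat_lit 497538) (.g (nat_lit 2472) (.e (nat_lit 163939) (nat_lit 18) (.e (nat_lit 475177) (nat_lit 24) (.e (nat_lit 516176) (nat_lit 14) (.e (nat_lit 466954) (nat_lit 11) (.e (nat_lit 335987) (nat_lit 1) (.e (nat_lit 57691) (nat_lit 156) .nil)))))) (.g (nat_lit 1) (.e (nat_lit 160945) (nat_lit 0) .nil) .nil)))))) (.nd (nat_lit 7) (.nd (nat_lit 8) (.nd (nat_lit 9) 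
(.lf (nat_lit 496706) (.g (nat_lit 2973) (.e (nat_lit 163907) (nat_lit 12) (.e (nat_lit 426566) (nat_lit 34) (.e (nat_lit 393287) (nat_lit 25) (.e (nat_lit 458789) (nat_lit 23) (.e (nat_lit 532499) (nat_lit 1) (.e (nat_lit 57692) (nat_lit 156) .nil)))))) (.g (nat_lit 1) (.e (nat_lit 155956) (nat_lit 0) .nil) .nil))) 
(.lf (nat_lit 497218) (.g (nat_lit 1573) (.e (nat_lit 163917) (nat_lit 13) (.e (nat_lit 434180) (nat_lit 0) (.e (nat_lit 1428) (nat_lit 108) (.e (nat_lit 336430) (nat_lit 29) (.e (nat_lit 442428) (nat_lit 24) .nil))))) (.g (nat_lit 0) (.e (nat_lit 157528) (nat_lit 0) .nil) .nil)))) (.nd (nat_lit 9) 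
(.lf (nat_lit 496962) (.g (nat_lit 2652) (.e (nat_lit 163908) (nat_lit 12) (.e (nat_lit 426305) (nat_lit 12) (.e (nat_lit 475211) (nat_lit 41) (.e (nat_lit 712755) (nat_lit 30) (.e (nat_lit 450569) (nat_lit 0) (.e (nat_lit 5599) (nat_lit 310) .nil)))))) (.g (nat_lit 1) (.e (nat_lit 156528) (nat_lit 0) .nil) .nil))) 
(.lf (nat_lit 497474) (.g (nat_lit 3305) (.e (nat_lit 163938) (nat_lit 18) (.e (nat_lit 475179) (nat_lit 24) (.e (nat_lit 516176) (nat_lit 14) (.e (nat_lit 466954) (nat_lit 11) (.e (nat_lit 335986) (nat_lit 1) (.e (nat_lit 57688) (nat_lit 156) .nil)))))) (.g (nat_lit 1) (.e (nat_lit 160878) (nat_lit 0) .nil) .nil))))) (.nd (nat_lit 8) (.nd (nat_lit 9) 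
(.lf (nat_lit 496834) (.g (nat_lit 3984) (.e (nat_lit 163908) (nat_lit 12) (.e (nat_lit 426132) (nat_lit 3) (.e (nat_lit 204868) (nat_lit 29) (.e (nat_lit 360475) (nat_lit 8) (.e (nat_lit 557091) (nat_lit 12) (.e (nat_lit 163847) (nat_lit 0) (.e (nat_lit 6418) (nat_lit 341) .nil))))))) (.g (nat_lit 1) (.e (nat_lit 156103) (nat_lit 0) .nil) .nil))) 
(.lf (nat_lit 497346) (.g (nat_lit 2312) (.e (nat_lit 163935) (nat_lit 18) (.e (nat_lit 475179) (nat_lit 24) (.e (nat_lit 516176) (nat_lit 14) (.e (nat_lit 466954) (nat_lit 11) (.e (nat_lit 335995) (nat_lit 1) .nil))))) (.g (nat_lit 0) (.e (nat_lit 160699) (nat_lit 0) .nil) .nil)))) (.nd (nat_lit 9) 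
(.lf (nat_lit 497090) (.g (nat_lit 2068) (.e (nat_lit 163913) (nat_lit 12) (.e (nat_lit 426318) (nat_lit 12) (.e (nat_lit 475198) (nat_lit 40) (.e (nat_lit 704599) (nat_lit 6) (.e (nat_lit 188453) (nat_lit 24) (.e (nat_lit 229681) (nat_lit 244) .nil)))))) (.g (nat_lit 1) (.e (nat_lit 156976) (nat_lit 0) .nil) .nil))) 
(.lf (nat_lit 497602) (.g (nat_lit 2761) (.e (nat_lit 163939) (nat_lit 18) (.e (nat_lit 475185) (nat_lit 29) (.e (nat_lit 557100) (nat_lit 13) (.e (nat_lit 172113) (nat_lit 10) (.e (nat_lit 434245) (nat_lit 28) (.e (nat_lit 573474) (nat_lit 12) (.e (nat_lit 57345) (nat_lit 0) (.e (nat_lit 6938) (nat_lit 375) .nil)))))))) (.g (nat_lit 1) (.e (nat_lit 161028) (nat_lit 0) .nil) .nil))))))) 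
(.nd (nat_lit 6) (.nd (nat_lit 7) (.nd (nat_lit 8) (.nd (nat_lit 9) 
(.lf (nat_lit 496674) (.g (nat_lit 3086) (.e (nat_lit 163907) (nat_lit 12) (.e (nat_lit 426566) (nat_lit 34) (.e (nat_lit 393271) (nat_lit 23) (.e (nat_lit 426131) (nat_lit 3) (.e (nat_lit 204831) (nat_lit 18) (.e (nat_lit 57691) (nat_lit 156) .nil)))))) (.g (nat_lit 1) (.e (nat_lit 155924) (nat_lit 0) .nil) .nil))) 
(.lf (nat_lit 497186) (.g (nat_lit 2424) (.e (nat_lit 171776) (nat_lit 12) (.e (nat_lit 426436) (nat_lit 18) (.e (nat_lit 98358) (nat_lit 26) (.e (nat_lit 426323) (nat_lit 13) (.e (nat_lit 483364) (nat_lit 18) .nil))))) (.g (nat_lit 0) (.e (nat_lit 157386) (nat_lit 0) .nil) .nil)))) (.nd (nat_lit 9) 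
(.lf (nat_lit 496930) (.g (nat_lit 1267) (.e (nat_lit 163908) (nat_lit 12) (.e (nat_lit 426305) (nat_lit 12) (.e (nat_lit 475198) (nat_lit 40) (.e (nat_lit 704598) (nat_lit 6) .nil)))) (.g (nat_lit 0) (.e (nat_lit 156465) (nat_lit 0) .nil) .nil))) 
(.lf (nat_lit 497442) (.g (nat_lit 2040) (.e (nat_lit 163938) (nat_lit 18) (.e (nat_lit 475178) (nat_lit 24) (.e (nat_lit 516176) (nat_lit 14) (.e (nat_lit 466954) (nat_lit 11) (.e (nat_lit 335996) (nat_lit 1) .nil))))) (.g (nat_lit 0) (.e (nat_lit 160828) (nat_lit 0) .nil) .nil))))) (.nd (nat_lit 8) (.nd (nat_lit 9) 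
(.lf (nat_lit 496802) (.g (nat_lit 2637) (.e (nat_lit 163907) (nat_lit 12) (.e (nat_lit 426568) (nat_lit 34) (.e (nat_lit 393292) (nat_lit 26) (.e (nat_lit 475177) (nat_lit 24) (.e (nat_lit 516115) (nat_lit 1) (.e (nat_lit 164325) (nat_lit 230) .nil)))))) (.g (nat_lit 1) (.e (nat_lit 156052) (nat_lit 0) .nil) .nil))) 
(.lf (nat_lit 497314) (.g (nat_lit 169) (.e (nat_lit 163932) (nat_lit 17) (.e (nat_lit 466947) (nat_lit 0) (.e (nat_lit 2173) (nat_lit 143) .nil))) (.g (nat_lit 0) (.e (nat_lit 159784) (nat_lit 0) .nil) .nil)))) (.nd (nat_lit 9) 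
(.lf (nat_lit 497058) (.g (nat_lit 3811) (.e (nat_lit 163911) (nat_lit 12) (.e (nat_lit 426125) (nat_lit 2) (.e (nat_lit 196666) (nat_lit 13) (.e (nat_lit 65617) (nat_lit 10) (.e (nat_lit 344130) (nat_lit 26) .nil))))) (.g (nat_lit 0) (.e (nat_lit 156908) (nat_lit 0) .nil) .nil))) 
(.lf (nat_lit 497570) (.g (nat_lit 2889) (.e (nat_lit 163939) (nat_lit 18) (.e (nat_lit 475179) (nat_lit 24) (.e (nat_lit 516151) (nat_lit 9) (.e (nat_lit 426331) (nat_lit 13) (.e (nat_lit 483363) (nat_lit 18) (.e (nat_lit 57691) (nat_lit 156) .nil)))))) (.g (nat_lit 1) (.e (nat_lit 160985) (nat_lit 0) .nil) .nil)))))) (.nd (nat_lit 7) (.nd (nat_lit 8) (.nd (nat_lit 9) 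
(.lf (nat_lit 496738) (.g (nat_lit 2555) (.e (nat_lit 163907) (nat_lit 12) (.e (nat_lit 426566) (nat_lit 34) (.e (nat_lit 393296) (nat_lit 26) (.e (nat_lit 475177) (nat_lit 24) (.e (nat_lit 516118) (nat_lit 1) (.e (nat_lit 164324) (nat_lit 230) .nil)))))) (.g (nat_lit 1) (.e (nat_lit 155988) (nat_lit 0) .nil) .nil))) 
(.lf (nat_lit 497250) (.g (nat_lit 1143) (.e (nat_lit 163919) (nat_lit 14) (.e (nat_lit 442374) (nat_lit 0) (.e (nat_lit 2059) (nat_lit 142) (.e (nat_lit 704598) (nat_lit 6) .nil)))) (.g (nat_lit 0) (.e (nat_lit 157800) (nat_lit 0) .nil) .nil)))) (.nd (nat_lit 9) 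
(.lf (nat_lit 496994) (.g (nat_lit 1520) (.e (nat_lit 163908) (nat_lit 12) (.e (nat_lit 426338) (nat_lit 14) (.e (nat_lit 491549) (nat_lit 9) (.e (nat_lit 336432) (nat_lit 30) .nil)))) (.g (nat_lit 0) (.e (nat_lit 156724) (nat_lit 0) .nil) .nil))) 
(.lf (nat_lit 497506) (.g (nat_lit 4096) (.e (nat_lit 163938) (nat_lit 18) (.e (nat_lit 475185) (nat_lit 29) (.e (nat_lit 557100) (nat_lit 13) (.e (nat_lit 172113) (nat_lit 10) (.e (nat_lit 434248) (nat_lit 28) (.e (nat_lit 573475) (nat_lit 12) (.e (nat_lit 57347) (nat_lit 0) (.e (nat_lit 6942) (nat_lit 375) .nil)))))))) (.g (nat_lit 1) (.e (nat_lit 160911) (nat_lit 0) .nil) .nil))))) 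
(.nd (nat_lit 8) (.nd (nat_lit 9) 
(.lf (nat_lit 496866) (.g (nat_lit 2977) (.e (nat_lit 163908) (nat_lit 12) (.e (nat_lit 426136) (nat_lit 3) (.e (nat_lit 204869) (nat_lit 29) (.e (nat_lit 360475) (nat_lit 8) (.e (nat_lit 557091) (nat_lit 12) .nil))))) (.g (nat_lit 0) (.e (nat_lit 156135) (nat_lit 0) .nil) .nil))) 
(.lf (nat_lit 497378) (.g (nat_lit 3003) (.e (nat_lit 163936) (nat_lit 18) (.e (nat_lit 475179) (nat_lit 24) (.e (nat_lit 516151) (nat_lit 9) (.e (nat_lit 426331) (nat_lit 13) (.e (nat_lit 483363) (nat_lit 18) (.e (nat_lit 57686) (nat_lit 156) .nil)))))) (.g (nat_lit 1) (.e (nat_lit 160738) (nat_lit 0) .nil) .nil)))) (.nd (nat_lit 9) 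
(.lf (nat_lit 497122) (.g (nat_lit 2099) (.e (nat_lit 163915) (nat_lit 12) (.e (nat_lit 426098) (nat_lit 1) (.e (nat_lit 164325) (nat_lit 230) (.e (nat_lit 163859) (nat_lit 1) .nil)))) (.g (nat_lit 0) (.e (nat_lit 157094) (nat_lit 0) .nil) .nil))) 
(.lf (nat_lit 497634) (.g (nat_lit 2817) (.e (nat_lit 163941) (nat_lit 19) (.e (nat_lit 483337) (nat_lit 9) (.e (nat_lit 426190) (nat_lit 9) (.e (nat_lit 426436) (nat_lit 18) (.e (nat_lit 98335) (nat_lit 18) (.e (nat_lit 164329) (nat_lit 230) .nil)))))) (.g (nat_lit 1) (.e (nat_lit 161124) (nat_lit 0) .nil) .nil)))))))) 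
(.nd (nat_lit 5) (.nd (nat_lit 6) (.nd (nat_lit 7) (.nd (nat_lit 8) (.nd (nat_lit 9) 
(.lf (nat_lit 496658) (.g (nat_lit 3260) (.e (nat_lit 163907) (nat_lit 12) (.e (nat_lit 426566) (nat_lit 34) (.e (nat_lit 393268) (nat_lit 23) (.e (nat_lit 426436) (nat_lit 18) (.e (nat_lit 98333) (nat_lit 18) (.e (nat_lit 164327) (nat_lit 230) .nil)))))) (.g (nat_lit 1) (.e (nat_lit 155908) (nat_lit 0) .nil) .nil))) 
(.lf (nat_lit 497170) (.g (nat_lit 2851) (.e (nat_lit 171776) (nat_lit 12) (.e (nat_lit 426123) (nat_lit 2) (.e (nat_lit 196666) (nat_lit 13) (.e (nat_lit 65617) (nat_lit 10) (.e (nat_lit 344133) (nat_lit 26) .nil))))) (.g (nat_lit 0) (.e (nat_lit 157348) (nat_lit 0) .nil) .nil)))) (.nd (nat_lit 9) 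
(.lf (nat_lit 496914) (.g (nat_lit 935) (.e (nat_lit 163908) (nat_lit 12) (.e (nat_lit 426286) (nat_lit 10) (.e (nat_lit 434272) (nat_lit 38) (.e (nat_lit 655380) (nat_lit 6) .nil)))) (.g (nat_lit 0) (.e (nat_lit 156434) (nat_lit 0) .nil) .nil))) 
(.lf (nat_lit 497426) (.g (nat_lit 2991) (.e (nat_lit 163938) (nat_lit 18) (.e (nat_lit 475177) (nat_lit 24) (.e (nat_lit 516174) (nat_lit 14) (.e (nat_lit 466954) (nat_lit 11) (.e (nat_lit 335986) (nat_lit 1) (.e (nat_lit 57688) (nat_lit 156) .nil)))))) (.g (nat_lit 1) (.e (nat_lit 160812) (nat_lit 0) .nil) .nil))))) (.nd (nat_lit 8) (.nd (nat_lit 9) 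
(.lf (nat_lit 496786) (.g (nat_lit 863) (.e (nat_lit 163907) (nat_lit 12) (.e (nat_lit 426568) (nat_lit 34) (.e (nat_lit 393280) (nat_lit 23) .nil))) (.g (nat_lit 0) (.e (nat_lit 156036) (nat_lit 0) .nil) .nil))) 
(.lf (nat_lit 497298) (.g (nat_lit 358) (.e (nat_lit 163923) (nat_lit 15) (.e (nat_lit 450597) (nat_lit 17) (.e (nat_lit 663579) (nat_lit 9) .nil))) (.g (nat_lit 0) (.e (nat_lit 158784) (nat_lit 0) .nil) .nil)))) (.nd (nat_lit 9) 
(.lf (nat_lit 497042) (.g (nat_lit 1939) (.e (nat_lit 163909) (nat_lit 12) (.e (nat_lit 426140) (nat_lit 3) (.e (nat_lit 204868) (nat_lit 29) (.e (nat_lit 360473) (nat_lit 8) (.e (nat_lit 557091) (nat_lit 12) .nil))))) (.g (nat_lit 0) (.e (nat_lit 156863) (nat_lit 0) .nil) .nil))) 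
(.lf (nat_lit 497554) (.g (nat_lit 2536) (.e (nat_lit 163939) (nat_lit 18) (.e (nat_lit 475179) (nat_lit 24) (.e (nat_lit 516146) (nat_lit 9) (.e (nat_lit 426323) (nat_lit 13) (.e (nat_lit 483366) (nat_lit 18) (.e (nat_lit 57692) (nat_lit 156) .nil)))))) (.g (nat_lit 1) (.e (nat_lit 160962) (nat_lit 0) .nil) .nil)))))) (.nd (nat_lit 7) (.nd (nat_lit 8) (.nd (nat_lit 9) 
(.lf (nat_lit 496722) (.g (nat_lit 3011) (.e (nat_lit 163907) (nat_lit 12) (.e (nat_lit 426566) (nat_lit 34) (.e (nat_lit 393293) (nat_lit 26) (.e (nat_lit 475177) (nat_lit 24) (.e (nat_lit 516119) (nat_lit 1) (.e (nat_lit 164327) (nat_lit 230) .nil)))))) (.g (nat_lit 1) (.e (nat_lit 155972) (nat_lit 0) .nil) .nil))) 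
(.lf (nat_lit 497234) (.g (nat_lit 3980) (.e (nat_lit 163917) (nat_lit 13) (.e (nat_lit 434231) (nat_lit 23) (.e (nat_lit 532550) (nat_lit 12) (.e (nat_lit 360475) (nat_lit 8) (.e (nat_lit 557091) (nat_lit 12) (.e (nat_lit 163844) (nat_lit 0) (.e (nat_lit 6416) (nat_lit 341) .nil))))))) (.g (nat_lit 1) (.e (nat_lit 157640) (nat_lit 0) .nil) .nil)))) (.nd (nat_lit 9) 
(.lf (nat_lit 496978) (.g (nat_lit 3610) (.e (nat_lit 163908) (nat_lit 12) (.e (nat_lit 426338) (nat_lit 14) (.e (nat_lit 491540) (nat_lit 3) (.e (nat_lit 98373) (nat_lit 29) (.e (nat_lit 450568) (nat_lit 0) (.e (nat_lit 7936) (nat_lit 243) .nil)))))) (.g (nat_lit 1) (.e (nat_lit 156696) (nat_lit 0) .nil) .nil))) 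
(.lf (nat_lit 497490) (.g (nat_lit 2787) (.e (nat_lit 163938) (nat_lit 18) (.e (nat_lit 475185) (nat_lit 29) (.e (nat_lit 557100) (nat_lit 13) (.e (nat_lit 172113) (nat_lit 10) (.e (nat_lit 434242) (nat_lit 28) .nil))))) (.g (nat_lit 0) (.e (nat_lit 160895) (nat_lit 0) .nil) .nil))))) (.nd (nat_lit 8) (.nd (nat_lit 9) 
(.lf (nat_lit 496850) (.g (nat_lit 3813) (.e (nat_lit 163908) (nat_lit 12) (.e (nat_lit 426132) (nat_lit 3) (.e (nat_lit 204869) (nat_lit 29) (.e (nat_lit 360475) (nat_lit 8) (.e (nat_lit 557091) (nat_lit 12) (.e (nat_lit 163844) (nat_lit 0) (.e (nat_lit 6416) (nat_lit 341) .nil))))))) (.g (nat_lit 1) (.e (nat_lit 156119) (nat_lit 0) .nil) .nil))) 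
(.lf (nat_lit 497362) (.g (nat_lit 1415) (.e (nat_lit 163936) (nat_lit 18) (.e (nat_lit 475177) (nat_lit 24) (.e (nat_lit 516174) (nat_lit 14) (.e (nat_lit 466969) (nat_lit 21) .nil)))) (.g (nat_lit 0) (.e (nat_lit 160717) (nat_lit 0) .nil) .nil)))) (.nd (nat_lit 9) 
(.lf (nat_lit 497106) (.g (nat_lit 3140) (.e (nat_lit 163913) (nat_lit 12) (.e (nat_lit 426347) (nat_lit 14) (.e (nat_lit 491549) (nat_lit 9) (.e (nat_lit 336434) (nat_lit 30) (.e (nat_lit 450568) (nat_lit 0) (.e (nat_lit 5599) (nat_lit 310) .nil)))))) (.g (nat_lit 1) (.e (nat_lit 157022) (nat_lit 0) .nil) .nil))) 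
(.lf (nat_lit 497618) (.g (nat_lit 4016) (.e (nat_lit 163941) (nat_lit 19) (.e (nat_lit 483337) (nat_lit 9) (.e (nat_lit 426187) (nat_lit 9) (.e (nat_lit 426436) (nat_lit 18) (.e (nat_lit 98335) (nat_lit 18) (.e (nat_lit 164331) (nat_lit 230) .nil)))))) (.g (nat_lit 1) (.e (nat_lit 161091) (nat_lit 0) .nil) .nil))))))) (.nd (nat_lit 6) (.nd (nat_lit 7) (.nd (nat_lit 8) (.nd (nat_lit 9) 
(.lf (nat_lit 496690) (.g (nat_lit 1293) (.e (nat_lit 163907) (nat_lit 12) (.e (nat_lit 426566) (nat_lit 34) (.e (nat_lit 393273) (nat_lit 23) (.e (nat_lit 426357) (nat_lit 15) .nil)))) (.g (nat_lit 0) (.e (nat_lit 155940) (nat_lit 0) .nil) .nil))) 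
(.lf (nat_lit 497202) (.g (nat_lit 2146) (.e (nat_lit 163916) (nat_lit 13) (.e (nat_lit 434231) (nat_lit 23) (.e (nat_lit 532550) (nat_lit 12) (.e (nat_lit 360474) (nat_lit 8) (.e (nat_lit 557093) (nat_lit 12) (.e (nat_lit 163848) (nat_lit 0) (.e (nat_lit 6421) (nat_lit 341) .nil))))))) (.g (nat_lit 1) (.e (nat_lit 157478) (nat_lit 0) .nil) .nil)))) (.nd (nat_lit 9) 
(.lf (nat_lit 496946) (.g (nat_lit 2259) (.e (nat_lit 163908) (nat_lit 12) (.e (nat_lit 426305) (nat_lit 12) (.e (nat_lit 475211) (nat_lit 41) (.e (nat_lit 712750) (nat_lit 29) (.e (nat_lit 442430) (nat_lit 24) (.e (nat_lit 229677) (nat_lit 244) .nil)))))) (.g (nat_lit 1) (.e (nat_lit 156512) (nat_lit 0) .nil) .nil))) 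
(.lf (nat_lit 497458) (.g (nat_lit 2685) (.e (nat_lit 163938) (nat_lit 18) (.e (nat_lit 475179) (nat_lit 24) (.e (nat_lit 516150) (nat_lit 9) (.e (nat_lit 426323) (nat_lit 13) (.e (nat_lit 483366) (nat_lit 18) (.e (nat_lit 57692) (nat_lit 156) .nil)))))) (.g (nat_lit 1) (.e (nat_lit 160849) (nat_lit 0) .nil) .nil))))) (.nd (nat_lit 8) (.nd (nat_lit 9) 
(.lf (nat_lit 496818) (.g (nat_lit 1553) (.e (nat_lit 163908) (nat_lit 12) (.e (nat_lit 426132) (nat_lit 3) (.e (nat_lit 204866) (nat_lit 28) (.e (nat_lit 352312) (nat_lit 22) (.e (nat_lit 98048) (nat_lit 0) .nil))))) (.g (nat_lit 0) (.e (nat_lit 156086) (nat_lit 0) .nil) .nil))) 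
(.lf (nat_lit 497330) (.g (nat_lit 1390) (.e (nat_lit 163933) (nat_lit 17) (.e (nat_lit 466977) (nat_lit 22) (.e (nat_lit 196624) (nat_lit 9) (.e (nat_lit 485) (nat_lit 38) .nil)))) (.g (nat_lit 0) (.e (nat_lit 160628) (nat_lit 0) .nil) .nil)))) (.nd (nat_lit 9) 
(.lf (nat_lit 497074) (.g (nat_lit 4561) (.e (nat_lit 163913) (nat_lit 12) (.e (nat_lit 426129) (nat_lit 3) (.e (nat_lit 204869) (nat_lit 29) (.e (nat_lit 360474) (nat_lit 8) (.e (nat_lit 557089) (nat_lit 12) (.e (nat_lit 163844) (nat_lit 0) (.e (nat_lit 6421) (nat_lit 341) .nil))))))) (.g (nat_lit 1) (.e (nat_lit 156958) (nat_lit 0) .nil) .nil))) 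
(.lf (nat_lit 497586) (.g (nat_lit 2938) (.e (nat_lit 163939) (nat_lit 18) (.e (nat_lit 475179) (nat_lit 24) (.e (nat_lit 516176) (nat_lit 14) (.e (nat_lit 466954) (nat_lit 11) (.e (nat_lit 335986) (nat_lit 1) (.e (nat_lit 57691) (nat_lit 156) .nil)))))) (.g (nat_lit 1) (.e (nat_lit 161012) (nat_lit 0) .nil) .nil)))))) (.nd (nat_lit 7) (.nd (nat_lit 8) (.nd (nat_lit 9) 
(.lf (nat_lit 496754) (.g (nat_lit 2841) (.e (nat_lit 163907) (nat_lit 12) (.e (nat_lit 426567) (nat_lit 34) (.e (nat_lit 393291) (nat_lit 26) (.e (nat_lit 475179) (nat_lit 24) (.e (nat_lit 516119) (nat_lit 1) (.e (nat_lit 164325) (nat_lit 230) .nil)))))) (.g (nat_lit 1) (.e (nat_lit 156004) (nat_lit 0) .nil) .nil))) 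
(.lf (nat_lit 497266) (.g (nat_lit 2898) (.e (nat_lit 163920) (nat_lit 14) (.e (nat_lit 442430) (nat_lit 24) (.e (nat_lit 229639) (nat_lit 229) (.e (nat_lit 122916) (nat_lit 14) (.e (nat_lit 352309) (nat_lit 21) (.e (nat_lit 57857) (nat_lit 254) .nil)))))) (.g (nat_lit 1) (.e (nat_lit 158134) (nat_lit 0) .nil) .nil)))) (.nd (nat_lit 9) 
(.lf (nat_lit 497010) (.g (nat_lit 3338) (.e (nat_lit 163908) (nat_lit 12) (.e (nat_lit 426338) (nat_lit 14) (.e (nat_lit 491550) (nat_lit 9) (.e (nat_lit 336430) (nat_lit 29) (.e (nat_lit 442430) (nat_lit 24) (.e (nat_lit 229680) (nat_lit 244) .nil)))))) (.g (nat_lit 1) (.e (nat_lit 156742) (nat_lit 0) .nil) .nil))) 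
(.lf (nat_lit 497522) (.g (nat_lit 1160) (.e (nat_lit 163939) (nat_lit 18) (.e (nat_lit 475177) (nat_lit 24) (.e (nat_lit 516150) (nat_lit 9) (.e (nat_lit 426323) (nat_lit 13) .nil)))) (.g (nat_lit 0) (.e (nat_lit 160928) (nat_lit 0) .nil) .nil))))) (.nd (nat_lit 8) (.nd (nat_lit 9) 
(.lf (nat_lit 496882) (.g (nat_lit 2813) (.e (nat_lit 163908) (nat_lit 12) (.e (nat_lit 426171) (nat_lit 7) (.e (nat_lit 409638) (nat_lit 15) (.e (nat_lit 278566) (nat_lit 16) (.e (nat_lit 286749) (nat_lit 9) (.e (nat_lit 335997) (nat_lit 1) (.e (nat_lit 57857) (nat_lit 254) .nil))))))) (.g (nat_lit 1) (.e (nat_lit 156184) (nat_lit 0) .nil) .nil))) 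
(.lf (nat_lit 497394) (.g (nat_lit 2437) (.e (nat_lit 163936) (nat_lit 18) (.e (nat_lit 475179) (nat_lit 24) (.e (nat_lit 516176) (nat_lit 14) (.e (nat_lit 466954) (nat_lit 11) (.e (nat_lit 335995) (nat_lit 1) (.e (nat_lit 57687) (nat_lit 156) .nil)))))) (.g (nat_lit 1) (.e (nat_lit 160771) (nat_lit 0) .nil) .nil)))) (.nd (nat_lit 9) 
(.lf (nat_lit 497138) (.g (nat_lit 1905) (.e (nat_lit 163915) (nat_lit 12) (.e (nat_lit 426306) (nat_lit 12) (.e (nat_lit 475198) (nat_lit 40) (.e (nat_lit 704598) (nat_lit 6) (.e (nat_lit 188453) (nat_lit 24) .nil))))) (.g (nat_lit 0) (.e (nat_lit 157140) (nat_lit 0) .nil) .nil))) 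
(.lf (nat_lit 497650) (.g (nat_lit 2691) (.e (nat_lit 163941) (nat_lit 19) (.e (nat_lit 483337) (nat_lit 9) (.e (nat_lit 426305) (nat_lit 12) (.e (nat_lit 475179) (nat_lit 24) (.e (nat_lit 516120) (nat_lit 1) (.e (nat_lit 164329) (nat_lit 230) .nil)))))) (.g (nat_lit 1) (.e (nat_lit 161162) (nat_lit 0) .nil) .nil))))))))) 
(.nd (nat_lit 4) (.nd (nat_lit 5) (.nd (nat_lit 6) (.nd (nat_lit 7) (.nd (nat_lit 8) 
(.nd (nat_lit 9) 
(.lf (nat_lit 496650) (.g (nat_lit 2938) (.e (nat_lit 163907) (nat_lit 12) (.e (nat_lit 426555) (nat_lit 32) (.e (nat_lit 376869) (nat_lit 23) (.e (nat_lit 98317) (nat_lit 9) (.e (nat_lit 335988) (nat_lit 1) (.e (nat_lit 57926) (nat_lit 282) .nil)))))) (.g (nat_lit 1) (.e (nat_lit 155900) (nat_lit 0) .nil) .nil))) 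
(.lf (nat_lit 497162) (.g (nat_lit 2099) (.e (nat_lit 163915) (nat_lit 12) (.e (nat_lit 426306) (nat_lit 12) (.e (nat_lit 475211) (nat_lit 41) (.e (nat_lit 712752) (nat_lit 29) (.e (nat_lit 442428) (nat_lit 24) (.e (nat_lit 229680) (nat_lit 244) .nil)))))) (.g (nat_lit 1) (.e (nat_lit 157172) (nat_lit 0) .nil) .nil)))) (.nd (nat_lit 9) 
(.lf (nat_lit 496906) (.g (nat_lit 3489) (.e (nat_lit 163908) (nat_lit 12) (.e (nat_lit 426286) (nat_lit 10) (.e (nat_lit 434268) (nat_lit 36) (.e (nat_lit 639020) (nat_lit 16) (.e (nat_lit 65598) (nat_lit 9) (.e (nat_lit 335997) (nat_lit 1) (.e (nat_lit 57857) (nat_lit 254) .nil))))))) (.g (nat_lit 1) (.e (nat_lit 156423) (nat_lit 0) .nil) .nil))) 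
(.lf (nat_lit 497418) (.g (nat_lit 1146) (.e (nat_lit 163938) (nat_lit 18) (.e (nat_lit 475177) (nat_lit 24) (.e (nat_lit 516150) (nat_lit 9) (.e (nat_lit 426323) (nat_lit 13) .nil)))) (.g (nat_lit 0) (.e (nat_lit 160804) (nat_lit 0) .nil) .nil))))) (.nd (nat_lit 8) (.nd (nat_lit 9) 
(.lf (nat_lit 496778) (.g (nat_lit 3750) (.e (nat_lit 163907) (nat_lit 12) (.e (nat_lit 426568) (nat_lit 34) (.e (nat_lit 393271) (nat_lit 23) (.e (nat_lit 426131) (nat_lit 3) (.e (nat_lit 204830) (nat_lit 18) (.e (nat_lit 57689) (nat_lit 156) .nil)))))) (.g (nat_lit 1) (.e (nat_lit 156028) (nat_lit 0) .nil) .nil))) 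
(.lf (nat_lit 497290) (.g (nat_lit 1893) (.e (nat_lit 163923) (nat_lit 15) (.e (nat_lit 450588) (nat_lit 10) (.e (nat_lit 573475) (nat_lit 12) (.e (nat_lit 57516) (nat_lit 42) .nil)))) (.g (nat_lit 0) (.e (nat_lit 158760) (nat_lit 0) .nil) .nil)))) (.nd (nat_lit 9) 
(.lf (nat_lit 497034) (.g (nat_lit 3241) (.e (nat_lit 163909) (nat_lit 12) (.e (nat_lit 426125) (nat_lit 2) (.e (nat_lit 196666) (nat_lit 13) (.e (nat_lit 65617) (nat_lit 10) (.e (nat_lit 344130) (nat_lit 26) (.e (nat_lit 557090) (nat_lit 12) (.e (nat_lit 163849) (nat_lit 0) (.e (nat_lit 6421) (nat_lit 341) .nil)))))))) (.g (nat_lit 1) (.e (nat_lit 156841) (nat_lit 0) .nil) .nil))) 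
(.lf (nat_lit 497546) (.g (nat_lit 2950) (.e (nat_lit 163939) (nat_lit 18) (.e (nat_lit 475177) (nat_lit 24) (.e (nat_lit 516176) (nat_lit 14) (.e (nat_lit 466954) (nat_lit 11) (.e (nat_lit 335996) (nat_lit 1) (.e (nat_lit 57692) (nat_lit 156) .nil)))))) (.g (nat_lit 1) (.e (nat_lit 160953) (nat_lit 0) .nil) .nil)))))) (.nd (nat_lit 7) (.nd (nat_lit 8) (.nd (nat_lit 9) 
(.lf (nat_lit 496714) (.g (nat_lit 3474) (.e (nat_lit 163907) (nat_lit 12) (.e (nat_lit 426566) (nat_lit 34) (.e (nat_lit 393291) (nat_lit 26) (.e (nat_lit 475177) (nat_lit 24) (.e (nat_lit 516115) (nat_lit 1) (.e (nat_lit 164327) (nat_lit 230) .nil)))))) (.g (nat_lit 1) (.e (nat_lit 155964) (nat_lit 0) .nil) .nil))) 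
(.lf (nat_lit 497226) (.g (nat_lit 3214) (.e (nat_lit 163917) (nat_lit 13) (.e (nat_lit 434231) (nat_lit 23) (.e (nat_lit 532550) (nat_lit 12) (.e (nat_lit 360474) (nat_lit 8) (.e (nat_lit 557094) (nat_lit 12) (.e (nat_lit 163847) (nat_lit 0) (.e (nat_lit 6421) (nat_lit 341) .nil))))))) (.g (nat_lit 1) (.e (nat_lit 157632) (nat_lit 0) .nil) .nil)))) (.nd (nat_lit 9) 
(.lf (nat_lit 496970) (.g (nat_lit 1762) (.e (nat_lit 163908) (nat_lit 12) (.e (nat_lit 426312) (nat_lit 12) (.e (nat_lit 475199) (nat_lit 40) (.e (nat_lit 704598) (nat_lit 6) (.e (nat_lit 188455) (nat_lit 24) (.e (nat_lit 229679) (nat_lit 244) .nil)))))) (.g (nat_lit 1) (.e (nat_lit 156536) (nat_lit 0) .nil) .nil))) 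
(.lf (nat_lit 497482) (.g (nat_lit 2522) (.e (nat_lit 163938) (nat_lit 18) (.e (nat_lit 475179) (nat_lit 24) (.e (nat_lit 516176) (nat_lit 14) (.e (nat_lit 466954) (nat_lit 11) (.e (nat_lit 335993) (nat_lit 1) (.e (nat_lit 57691) (nat_lit 156) .nil)))))) (.g (nat_lit 1) (.e (nat_lit 160886) (nat_lit 0) .nil) .nil))))) (.nd (nat_lit 8) (.nd (nat_lit 9) 
(.lf (nat_lit 496842) (.g (nat_lit 2959) (.e (nat_lit 163908) (nat_lit 12) (.e (nat_lit 426132) (nat_lit 3) (.e (nat_lit 204869) (nat_lit 29) (.e (nat_lit 360474) (nat_lit 8) (.e (nat_lit 557094) (nat_lit 12) (.e (nat_lit 163847) (nat_lit 0) (.e (nat_lit 6416) (nat_lit 341) .nil))))))) (.g (nat_lit 1) (.e (nat_lit 156111) (nat_lit 0) .nil) .nil))) 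
(.lf (nat_lit 497354) (.g (nat_lit 2697) (.e (nat_lit 163936) (nat_lit 18) (.e (nat_lit 475177) (nat_lit 24) (.e (nat_lit 516150) (nat_lit 9) (.e (nat_lit 426323) (nat_lit 13) (.e (nat_lit 483364) (nat_lit 18) (.e (nat_lit 57685) (nat_lit 156) .nil)))))) (.g (nat_lit 1) (.e (nat_lit 160707) (nat_lit 0) .nil) .nil)))) (.nd (nat_lit 9) 
(.lf (nat_lit 497098) (.g (nat_lit 1549) (.e (nat_lit 163913) (nat_lit 12) (.e (nat_lit 426318) (nat_lit 12) (.e (nat_lit 475211) (nat_lit 41) (.e (nat_lit 712755) (nat_lit 30) (.e (nat_lit 450568) (nat_lit 0) (.e (nat_lit 5598) (nat_lit 310) .nil)))))) (.g (nat_lit 1) (.e (nat_lit 156994) (nat_lit 0) .nil) .nil))) 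
(.lf (nat_lit 497610) (.g (nat_lit 1763) (.e (nat_lit 163939) (nat_lit 18) (.e (nat_lit 475185) (nat_lit 29) (.e (nat_lit 557105) (nat_lit 14) (.e (nat_lit 180265) (nat_lit 21) .nil)))) (.g (nat_lit 0) (.e (nat_lit 161036) (nat_lit 0) .nil) .nil))))))) (.nd (nat_lit 6) (.nd (nat_lit 7) (.nd (nat_lit 8) (.nd (nat_lit 9) 
(.lf (nat_lit 496682) (.g (nat_lit 3268) (.e (nat_lit 163907) (nat_lit 12) (.e (nat_lit 426566) (nat_lit 34) (.e (nat_lit 393272) (nat_lit 23) (.e (nat_lit 426131) (nat_lit 3) (.e (nat_lit 204829) (nat_lit 18) (.e (nat_lit 57692) (nat_lit 156) .nil)))))) (.g (nat_lit 1) (.e (nat_lit 155932) (nat_lit 0) .nil) .nil))) 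
(.lf (nat_lit 497194) (.g (nat_lit 1213) (.e (nat_lit 171776) (nat_lit 12) (.e (nat_lit 426566) (nat_lit 34) (.e (nat_lit 393296) (nat_lit 26) (.e (nat_lit 475178) (nat_lit 24) .nil)))) (.g (nat_lit 0) (.e (nat_lit 157394) (nat_lit 0) .nil) .nil)))) (.nd (nat_lit 9) 
(.lf (nat_lit 496938) (.g (nat_lit 4097) (.e (nat_lit 163908) (nat_lit 12) (.e (nat_lit 426305) (nat_lit 12) (.e (nat_lit 475198) (nat_lit 40) (.e (nat_lit 704599) (nat_lit 6) (.e (nat_lit 188455) (nat_lit 24) (.e (nat_lit 229678) (nat_lit 244) .nil)))))) (.g (nat_lit 1) (.e (nat_lit 156473) (nat_lit 0) .nil) .nil))) 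
(.lf (nat_lit 497450) (.g (nat_lit 1138) (.e (nat_lit 163938) (nat_lit 18) (.e (nat_lit 475179) (nat_lit 24) (.e (nat_lit 516150) (nat_lit 9) (.e (nat_lit 426323) (nat_lit 13) .nil)))) (.g (nat_lit 0) (.e (nat_lit 160841) (nat_lit 0) .nil) .nil))))) (.nd (nat_lit 8) (.nd (nat_lit 9) 
(.lf (nat_lit 496810) (.g (nat_lit 3465) (.e (nat_lit 163907) (nat_lit 12) (.e (nat_lit 426568) (nat_lit 34) (.e (nat_lit 393294) (nat_lit 26) (.e (nat_lit 475177) (nat_lit 24) (.e (nat_lit 516118) (nat_lit 1) (.e (nat_lit 164325) (nat_lit 230) .nil)))))) (.g (nat_lit 1) (.e (nat_lit 156060) (nat_lit 0) .nil) .nil))) 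
(.lf (nat_lit 497322) (.g (nat_lit 1519) (.e (nat_lit 163933) (nat_lit 17) (.e (nat_lit 466971) (nat_lit 21) (.e (nat_lit 164403) (nat_lit 256) (.e (nat_lit 57441) (nat_lit 18) .nil)))) (.g (nat_lit 0) (.e (nat_lit 160615) (nat_lit 0) .nil) .nil)))) (.nd (nat_lit 9) 
(.lf (nat_lit 497066) (.g (nat_lit 2419) (.e (nat_lit 163911) (nat_lit 12) (.e (nat_lit 426140) (nat_lit 3) (.e (nat_lit 204869) (nat_lit 29) (.e (nat_lit 360474) (nat_lit 8) (.e (nat_lit 557094) (nat_lit 12) .nil))))) (.g (nat_lit 0) (.e (nat_lit 156920) (nat_lit 0) .nil) .nil))) 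
(.lf (nat_lit 497578) (.g (nat_lit 1653) (.e (nat_lit 163939) (nat_lit 18) (.e (nat_lit 475179) (nat_lit 24) (.e (nat_lit 516174) (nat_lit 14) (.e (nat_lit 466954) (nat_lit 11) (.e (nat_lit 335994) (nat_lit 1) (.e (nat_lit 57686) (nat_lit 156) .nil)))))) (.g (nat_lit 1) (.e (nat_lit 161004) (nat_lit 0) .nil) .nil)))))) (.nd (nat_lit 7) (.nd (nat_lit 8) (.nd (nat_lit 9) 
(.lf (nat_lit 496746) (.g (nat_lit 2818) (.e (nat_lit 163907) (nat_lit 12) (.e (nat_lit 426566) (nat_lit 34) (.e (nat_lit 393296) (nat_lit 26) (.e (nat_lit 475179) (nat_lit 24) (.e (nat_lit 516106) (nat_lit 0) (.e (nat_lit 2478) (nat_lit 157) (.e (nat_lit 5224) (nat_lit 296) .nil))))))) (.g (nat_lit 1) (.e (nat_lit 155996) (nat_lit 0) .nil) .nil))) 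
(.lf (nat_lit 497258) (.g (nat_lit 970) (.e (nat_lit 163920) (nat_lit 14) (.e (nat_lit 442411) (nat_lit 20) (.e (nat_lit 3459) (nat_lit 216) (.e (nat_lit 688139) (nat_lit 5) .nil)))) (.g (nat_lit 0) (.e (nat_lit 158087) (nat_lit 0) .nil) .nil)))) (.nd (nat_lit 9) 
(.lf (nat_lit 497002) (.g (nat_lit 2951) (.e (nat_lit 163908) (nat_lit 12) (.e (nat_lit 426338) (nat_lit 14) (.e (nat_lit 491549) (nat_lit 9) (.e (nat_lit 336443) (nat_lit 32) (.e (nat_lit 466969) (nat_lit 21) (.e (nat_lit 171776) (nat_lit 244) .nil)))))) (.g (nat_lit 1) (.e (nat_lit 156732) (nat_lit 0) .nil) .nil))) 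
(.lf (nat_lit 497514) (.g (nat_lit 2541) (.e (nat_lit 163939) (nat_lit 18) (.e (nat_lit 475177) (nat_lit 24) (.e (nat_lit 516149) (nat_lit 9) (.e (nat_lit 426323) (nat_lit 13) (.e (nat_lit 483364) (nat_lit 18) (.e (nat_lit 57691) (nat_lit 156) .nil)))))) (.g (nat_lit 1) (.e (nat_lit 160920) (nat_lit 0) .nil) .nil))))) (.nd (nat_lit 8) (.nd (nat_lit 9) 
(.lf (nat_lit 496874) (.g (nat_lit 1167) (.e (nat_lit 163908) (nat_lit 12) (.e (nat_lit 426170) (nat_lit 7) (.e (nat_lit 409636) (nat_lit 14) (.e (nat_lit 270373) (nat_lit 16) (.e (nat_lit 286747) (nat_lit 9) (.e (nat_lit 335997) (nat_lit 1) (.e (nat_lit 57857) (nat_lit 254) .nil))))))) (.g (nat_lit 1) (.e (nat_lit 156149) (nat_lit 0) .nil) .nil))) 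
(.lf (nat_lit 497386) (.g (nat_lit 2001) (.e (nat_lit 163936) (nat_lit 18) (.e (nat_lit 475179) (nat_lit 24) (.e (nat_lit 516176) (nat_lit 14) (.e (nat_lit 466953) (nat_lit 11) (.e (nat_lit 335995) (nat_lit 1) (.e (nat_lit 57688) (nat_lit 156) .nil)))))) (.g (nat_lit 1) (.e (nat_lit 160763) (nat_lit 0) .nil) .nil)))) (.nd (nat_lit 9) 
(.lf (nat_lit 497130) (.g (nat_lit 4175) (.e (nat_lit 163915) (nat_lit 12) (.e (nat_lit 426133) (nat_lit 3) (.e (nat_lit 204869) (nat_lit 29) (.e (nat_lit 360475) (nat_lit 8) (.e (nat_lit 557089) (nat_lit 12) .nil))))) (.g (nat_lit 0) (.e (nat_lit 157121) (nat_lit 0) .nil) .nil))) 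
(.lf (nat_lit 497642) (.g (nat_lit 3855) (.e (nat_lit 163941) (nat_lit 19) (.e (nat_lit 483337) (nat_lit 9) (.e (nat_lit 426200) (nat_lit 9) (.e (nat_lit 426436) (nat_lit 18) (.e (nat_lit 98335) (nat_lit 18) (.e (nat_lit 164331) (nat_lit 230) .nil)))))) (.g (nat_lit 1) (.e (nat_lit 161140) (nat_lit 0) .nil) .nil)))))))) 
(.nd (nat_lit 5) (.nd (nat_lit 6) (.nd (nat_lit 7) (.nd (nat_lit 8) (.nd (nat_lit 9) 
(.lf (nat_lit 496666) (.g (nat_lit 2454) (.e (nat_lit 163907) (nat_lit 12) (.e (nat_lit 426566) (nat_lit 34) (.e (nat_lit 393270) (nat_lit 23) (.e (nat_lit 426436) (nat_lit 18) (.e (nat_lit 98335) (nat_lit 18) (.e (nat_lit 164324) (nat_lit 230) .nil)))))) (.g (nat_lit 1) (.e (nat_lit 155916) (nat_lit 0) .nil) .nil))) 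
(.lf (nat_lit 497178) (.g (nat_lit 3112) (.e (nat_lit 171776) (nat_lit 12) (.e (nat_lit 426139) (nat_lit 3) (.e (nat_lit 204869) (nat_lit 29) (.e (nat_lit 360474) (nat_lit 8) (.e (nat_lit 557089) (nat_lit 12) .nil))))) (.g (nat_lit 0) (.e (nat_lit 157359) (nat_lit 0) .nil) .nil)))) (.nd (nat_lit 9) 
(.lf (nat_lit 496922) (.g (nat_lit 3931) (.e (nat_lit 163908) (nat_lit 12) (.e (nat_lit 426286) (nat_lit 10) (.e (nat_lit 434289) (nat_lit 43) (.e (nat_lit 696344) (nat_lit 8) (.e (nat_lit 172113) (nat_lit 10) (.e (nat_lit 434208) (nat_lit 18) (.e (nat_lit 6418) (nat_lit 341) .nil))))))) (.g (nat_lit 1) (.e (nat_lit 156455) (nat_lit 0) .nil) .nil))) 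
(.lf (nat_lit 497434) (.g (nat_lit 1725) (.e (nat_lit 163938) (nat_lit 18) (.e (nat_lit 475177) (nat_lit 24) (.e (nat_lit 516176) (nat_lit 14) (.e (nat_lit 466954) (nat_lit 11) (.e (nat_lit 335988) (nat_lit 1) .nil))))) (.g (nat_lit 0) (.e (nat_lit 160820) (nat_lit 0) .nil) .nil))))) (.nd (nat_lit 8) (.nd (nat_lit 9) 
(.lf (nat_lit 496794) (.g (nat_lit 2091) (.e (nat_lit 163907) (nat_lit 12) (.e (nat_lit 426568) (nat_lit 34) (.e (nat_lit 393287) (nat_lit 25) (.e (nat_lit 458789) (nat_lit 23) (.e (nat_lit 532501) (nat_lit 1) (.e (nat_lit 57685) (nat_lit 156) .nil)))))) (.g (nat_lit 1) (.e (nat_lit 156044) (nat_lit 0) .nil) .nil))) 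
(.lf (nat_lit 497306) (.g (nat_lit 2599) (.e (nat_lit 163927) (nat_lit 16) (.e (nat_lit 458789) (nat_lit 23) (.e (nat_lit 532549) (nat_lit 12) (.e (nat_lit 360474) (nat_lit 8) (.e (nat_lit 557094) (nat_lit 12) .nil))))) (.g (nat_lit 0) (.e (nat_lit 159013) (nat_lit 0) .nil) .nil)))) (.nd (nat_lit 9) 
(.lf (nat_lit 497050) (.g (nat_lit 3211) (.e (nat_lit 163910) (nat_lit 12) (.e (nat_lit 426125) (nat_lit 2) (.e (nat_lit 196666) (nat_lit 13) (.e (nat_lit 65610) (nat_lit 10) (.e (nat_lit 344117) (nat_lit 21) (.e (nat_lit 516106) (nat_lit 0) (.e (nat_lit 7936) (nat_lit 157) (.e (nat_lit 4539) (nat_lit 267) .nil)))))))) (.g (nat_lit 1) (.e (nat_lit 156887) (nat_lit 0) .nil) .nil))) 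
(.lf (nat_lit 497562) (.g (nat_lit 3013) (.e (nat_lit 163939) (nat_lit 18) (.e (nat_lit 475179) (nat_lit 24) (.e (nat_lit 516150) (nat_lit 9) (.e (nat_lit 426323) (nat_lit 13) (.e (nat_lit 483365) (nat_lit 18) (.e (nat_lit 57688) (nat_lit 156) .nil)))))) (.g (nat_lit 1) (.e (nat_lit 160977) (nat_lit 0) .nil) .nil)))))) (.nd (nat_lit 7) (.nd (nat_lit 8) (.nd (nat_lit 9) 
(.lf (nat_lit 496730) (.g (nat_lit 2710) (.e (nat_lit 163907) (nat_lit 12) (.e (nat_lit 426566) (nat_lit 34) (.e (nat_lit 393295) (nat_lit 26) (.e (nat_lit 475177) (nat_lit 24) (.e (nat_lit 516118) (nat_lit 1) (.e (nat_lit 164325) (nat_lit 230) .nil)))))) (.g (nat_lit 1) (.e (nat_lit 155980) (nat_lit 0) .nil) .nil))) 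
(.lf (nat_lit 497242) (.g (nat_lit 3176) (.e (nat_lit 163918) (nat_lit 13) (.e (nat_lit 434231) (nat_lit 23) (.e (nat_lit 532550) (nat_lit 12) (.e (nat_lit 360474) (nat_lit 8) (.e (nat_lit 557094) (nat_lit 12) .nil))))) (.g (nat_lit 0) (.e (nat_lit 157770) (nat_lit 0) .nil) .nil)))) (.nd (nat_lit 9) 
(.lf (nat_lit 496986) (.g (nat_lit 3122) (.e (nat_lit 163908) (nat_lit 12) (.e (nat_lit 426338) (nat_lit 14) (.e (nat_lit 491549) (nat_lit 9) (.e (nat_lit 336428) (nat_lit 29) (.e (nat_lit 442428) (nat_lit 24) (.e (nat_lit 229681) (nat_lit 244) .nil)))))) (.g (nat_lit 1) (.e (nat_lit 156714) (nat_lit 0) .nil) .nil))) 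
(.lf (nat_lit 497498) (.g (nat_lit 3234) (.e (nat_lit 163938) (nat_lit 18) (.e (nat_lit 475185) (nat_lit 29) (.e (nat_lit 557100) (nat_lit 13) (.e (nat_lit 172113) (nat_lit 10) (.e (nat_lit 434245) (nat_lit 28) (.e (nat_lit 573474) (nat_lit 12) (.e (nat_lit 57348) (nat_lit 0) (.e (nat_lit 6938) (nat_lit 375) .nil)))))))) (.g (nat_lit 1) (.e (nat_lit 160903) (nat_lit 0) .nil) .nil))))) 
(.nd (nat_lit 8) (.nd (nat_lit 9) 
(.lf (nat_lit 496858) (.g (nat_lit 2506) (.e (nat_lit 163908) (nat_lit 12) (.e (nat_lit 426136) (nat_lit 3) (.e (nat_lit 204868) (nat_lit 29) (.e (nat_lit 360475) (nat_lit 8) (.e (nat_lit 557091) (nat_lit 12) .nil))))) (.g (nat_lit 0) (.e (nat_lit 156127) (nat_lit 0) .nil) .nil))) 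
(.lf (nat_lit 497370) (.g (nat_lit 2223) (.e (nat_lit 163936) (nat_lit 18) (.e (nat_lit 475179) (nat_lit 24) (.e (nat_lit 516146) (nat_lit 9) (.e (nat_lit 426323) (nat_lit 13) (.e (nat_lit 483365) (nat_lit 18) (.e (nat_lit 57687) (nat_lit 156) .nil)))))) (.g (nat_lit 1) (.e (nat_lit 160725) (nat_lit 0) .nil) .nil)))) (.nd (nat_lit 9) 
(.lf (nat_lit 497114) (.g (nat_lit 4268) (.e (nat_lit 163913) (nat_lit 12) (.e (nat_lit 426503) (nat_lit 27) (.e (nat_lit 336387) (nat_lit 27) (.e (nat_lit 426316) (nat_lit 12) (.e (nat_lit 475179) (nat_lit 24) (.e (nat_lit 516120) (nat_lit 1) (.e (nat_lit 164330) (nat_lit 230) .nil))))))) (.g (nat_lit 1) (.e (nat_lit 157030) (nat_lit 0) .nil) .nil))) 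
(.lf (nat_lit 497626) (.g (nat_lit 3833) (.e (nat_lit 163941) (nat_lit 19) (.e (nat_lit 483337) (nat_lit 9) (.e (nat_lit 426189) (nat_lit 9) (.e (nat_lit 426436) (nat_lit 18) (.e (nat_lit 98335) (nat_lit 18) (.e (nat_lit 164325) (nat_lit 230) .nil)))))) (.g (nat_lit 1) (.e (nat_lit 161109) (nat_lit 0) .nil) .nil))))))) (.nd (nat_lit 6) (.nd (nat_lit 7) (.nd (nat_lit 8) (.nd (nat_lit 9) 
(.lf (nat_lit 496698) (.g (nat_lit 2683) (.e (nat_lit 163907) (nat_lit 12) (.e (nat_lit 426566) (nat_lit 34) (.e (nat_lit 393279) (nat_lit 23) (.e (nat_lit 426129) (nat_lit 3) (.e (nat_lit 204830) (nat_lit 18) (.e (nat_lit 57692) (nat_lit 156) .nil)))))) (.g (nat_lit 1) (.e (nat_lit 155948) (nat_lit 0) .nil) .nil))) 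
(.lf (nat_lit 497210) (.g (nat_lit 4224) (.e (nat_lit 163916) (nat_lit 13) (.e (nat_lit 434231) (nat_lit 23) (.e (nat_lit 532550) (nat_lit 12) (.e (nat_lit 360475) (nat_lit 8) (.e (nat_lit 557091) (nat_lit 12) (.e (nat_lit 163843) (nat_lit 0) (.e (nat_lit 6418) (nat_lit 341) .nil))))))) (.g (nat_lit 1) (.e (nat_lit 157486) (nat_lit 0) .nil) .nil)))) (.nd (nat_lit 9) 
(.lf (nat_lit 496954) (.g (nat_lit 1996) (.e (nat_lit 163908) (nat_lit 12) (.e (nat_lit 426305) (nat_lit 12) (.e (nat_lit 475211) (nat_lit 41) (.e (nat_lit 712753) (nat_lit 30) (.e (nat_lit 458496) (nat_lit 0) .nil))))) (.g (nat_lit 0) (.e (nat_lit 156520) (nat_lit 0) .nil) .nil))) 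
(.lf (nat_lit 497466) (.g (nat_lit 2357) (.e (nat_lit 163938) (nat_lit 18) (.e (nat_lit 475179) (nat_lit 24) (.e (nat_lit 516174) (nat_lit 14) (.e (nat_lit 466954) (nat_lit 11) (.e (nat_lit 335993) (nat_lit 1) (.e (nat_lit 57691) (nat_lit 156) .nil)))))) (.g (nat_lit 1) (.e (nat_lit 160869) (nat_lit 0) .nil) .nil))))) (.nd (nat_lit 8) (.nd (nat_lit 9) 
(.lf (nat_lit 496826) (.g (nat_lit 2204) (.e (nat_lit 163908) (nat_lit 12) (.e (nat_lit 426132) (nat_lit 3) (.e (nat_lit 204868) (nat_lit 29) (.e (nat_lit 360473) (nat_lit 8) (.e (nat_lit 557094) (nat_lit 12) (.e (nat_lit 163848) (nat_lit 0) (.e (nat_lit 6416) (nat_lit 341) .nil))))))) (.g (nat_lit 1) (.e (nat_lit 156095) (nat_lit 0) .nil) .nil))) 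
(.lf (nat_lit 497338) (.g (nat_lit 827) (.e (nat_lit 163935) (nat_lit 18) (.e (nat_lit 475177) (nat_lit 24) (.e (nat_lit 516149) (nat_lit 9) (.e (nat_lit 426323) (nat_lit 13) .nil)))) (.g (nat_lit 0) (.e (nat_lit 160689) (nat_lit 0) .nil) .nil)))) (.nd (nat_lit 9) 
(.lf (nat_lit 497082) (.g (nat_lit 2588) (.e (nat_lit 163913) (nat_lit 12) (.e (nat_lit 426129) (nat_lit 3) (.e (nat_lit 204869) (nat_lit 29) (.e (nat_lit 360475) (nat_lit 8) (.e (nat_lit 557091) (nat_lit 12) .nil))))) (.g (nat_lit 0) (.e (nat_lit 156966) (nat_lit 0) .nil) .nil))) 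
(.lf (nat_lit 497594) (.g (nat_lit 2847) (.e (nat_lit 163939) (nat_lit 18) (.e (nat_lit 475179) (nat_lit 24) (.e (nat_lit 516176) (nat_lit 14) (.e (nat_lit 466954) (nat_lit 11) (.e (nat_lit 335994) (nat_lit 1) (.e (nat_lit 57688) (nat_lit 156) .nil)))))) (.g (nat_lit 1) (.e (nat_lit 161020) (nat_lit 0) .nil) .nil)))))) (.nd (nat_lit 7) (.nd (nat_lit 8) (.nd (nat_lit 9) 
(.lf (nat_lit 496762) (.g (nat_lit 2826) (.e (nat_lit 163907) (nat_lit 12) (.e (nat_lit 426568) (nat_lit 34) (.e (nat_lit 393260) (nat_lit 21) (.e (nat_lit 409631) (nat_lit 12) .nil)))) (.g (nat_lit 0) (.e (nat_lit 156012) (nat_lit 0) .nil) .nil))) 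
(.lf (nat_lit 497274) (.g (nat_lit 1933) (.e (nat_lit 163923) (nat_lit 15) (.e (nat_lit 450587) (nat_lit 10) (.e (nat_lit 573442) (nat_lit 0) (.e (nat_lit 3062) (nat_lit 190) (.e (nat_lit 475212) (nat_lit 42) .nil))))) (.g (nat_lit 0) (.e (nat_lit 158709) (nat_lit 0) .nil) .nil)))) (.nd (nat_lit 9) 
(.lf (nat_lit 497018) (.g (nat_lit 468) (.e (nat_lit 163909) (nat_lit 12) (.e (nat_lit 426125) (nat_lit 2) (.e (nat_lit 196666) (nat_lit 13) .nil))) (.g (nat_lit 0) (.e (nat_lit 156820) (nat_lit 0) .nil) .nil))) 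
(.lf (nat_lit 497530) (.g (nat_lit 2547) (.e (nat_lit 163939) (nat_lit 18) (.e (nat_lit 475177) (nat_lit 24) (.e (nat_lit 516150) (nat_lit 9) (.e (nat_lit 426323) (nat_lit 13) (.e (nat_lit 483366) (nat_lit 18) (.e (nat_lit 57692) (nat_lit 156) .nil)))))) (.g (nat_lit 1) (.e (nat_lit 160936) (nat_lit 0) .nil) .nil))))) (.nd (nat_lit 8) (.nd (nat_lit 9) 
(.lf (nat_lit 496890) (.g (nat_lit 666) (.e (nat_lit 163908) (nat_lit 12) (.e (nat_lit 426285) (nat_lit 10) (.e (nat_lit 434241) (nat_lit 27) (.e (nat_lit 565267) (nat_lit 4) .nil)))) (.g (nat_lit 0) (.e (nat_lit 156329) (nat_lit 0) .nil) .nil))) 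
(.lf (nat_lit 497402) (.g (nat_lit 2486) (.e (nat_lit 163937) (nat_lit 18) (.e (nat_lit 475177) (nat_lit 24) (.e (nat_lit 516149) (nat_lit 9) (.e (nat_lit 426323) (nat_lit 13) (.e (nat_lit 483363) (nat_lit 18) (.e (nat_lit 57688) (nat_lit 156) .nil)))))) (.g (nat_lit 1) (.e (nat_lit 160787) (nat_lit 0) .nil) .nil)))) (.nd (nat_lit 9) 
(.lf (nat_lit 497146) (.g (nat_lit 908) (.e (nat_lit 163915) (nat_lit 12) (.e (nat_lit 426306) (nat_lit 12) (.e (nat_lit 475205) (nat_lit 40) (.e (nat_lit 704597) (nat_lit 6) (.e (nat_lit 188455) (nat_lit 24) .nil))))) (.g (nat_lit 0) (.e (nat_lit 157149) (nat_lit 0) .nil) .nil))) 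
(.lf (nat_lit 497658) (.g (nat_lit 2742) (.e (nat_lit 163941) (nat_lit 19) (.e (nat_lit 483337) (nat_lit 9) (.e (nat_lit 426316) (nat_lit 12) (.e (nat_lit 475178) (nat_lit 24) (.e (nat_lit 516117) (nat_lit 1) (.e (nat_lit 164329) (nat_lit 230) .nil)))))) (.g (nat_lit 1) (.e (nat_lit 161216) (nat_lit 0) .nil) .nil)))))))))) 
(.nd (nat_lit 3) (.nd (nat_lit 4) (.nd (nat_lit 5) (.nd (nat_lit 6) (.nd (nat_lit 7) 
(.nd (nat_lit 8) (.nd (nat_lit 9) 
(.lf (nat_lit 496646) (.g (nat_lit 346) (.e (nat_lit 163907) (nat_lit 12) (.e (nat_lit 426555) (nat_lit 32) (.e (nat_lit 376869) (nat_lit 23) .nil))) (.g (nat_lit 0) (.e (nat_lit 155896) (nat_lit 0) .nil) .nil))) 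
(.lf (nat_lit 497158) (.g (nat_lit 1442) (.e (nat_lit 163915) (nat_lit 12) (.e (nat_lit 426306) (nat_lit 12) (.e (nat_lit 475210) (nat_lit 41) (.e (nat_lit 712753) (nat_lit 30) .nil)))) (.g (nat_lit 0) (.e (nat_lit 157166) (nat_lit 0) .nil) .nil)))) (.nd (nat_lit 9) 
(.lf (nat_lit 496902) (.g (nat_lit 4167) (.e (nat_lit 163908) (nat_lit 12) (.e (nat_lit 426285) (nat_lit 10) (.e (nat_lit 434289) (nat_lit 43) (.e (nat_lit 696344) (nat_lit 8) (.e (nat_lit 172113) (nat_lit 10) (.e (nat_lit 434208) (nat_lit 18) (.e (nat_lit 6420) (nat_lit 341) .nil))))))) (.g (nat_lit 1) (.e (nat_lit 156354) (nat_lit 0) .nil) .nil))) 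
(.lf (nat_lit 497414) (.g (nat_lit 2298) (.e (nat_lit 163938) (nat_lit 18) (.e (nat_lit 475177) (nat_lit 24) (.e (nat_lit 516149) (nat_lit 9) (.e (nat_lit 426323) (nat_lit 13) (.e (nat_lit 483364) (nat_lit 18) (.e (nat_lit 57692) (nat_lit 156) .nil)))))) (.g (nat_lit 1) (.e (nat_lit 160800) (nat_lit 0) .nil) .nil))))) (.nd (nat_lit 8) (.nd (nat_lit 9) 
(.lf (nat_lit 496774) (.g (nat_lit 2865) (.e (nat_lit 163907) (nat_lit 12) (.e (nat_lit 426568) (nat_lit 34) (.e (nat_lit 393270) (nat_lit 23) (.e (nat_lit 426438) (nat_lit 18) (.e (nat_lit 98333) (nat_lit 18) (.e (nat_lit 164325) (nat_lit 230) .nil)))))) (.g (nat_lit 1) (.e (nat_lit 156024) (nat_lit 0) .nil) .nil))) 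
(.lf (nat_lit 497286) (.g (nat_lit 2692) (.e (nat_lit 163923) (nat_lit 15) (.e (nat_lit 450588) (nat_lit 10) (.e (nat_lit 573474) (nat_lit 12) (.e (nat_lit 57360) (nat_lit 0) .nil)))) (.g (nat_lit 0) (.e (nat_lit 158755) (nat_lit 0) .nil) .nil)))) (.nd (nat_lit 9) 
(.lf (nat_lit 497030) (.g (nat_lit 2990) (.e (nat_lit 163909) (nat_lit 12) (.e (nat_lit 426125) (nat_lit 2) (.e (nat_lit 196666) (nat_lit 13) (.e (nat_lit 65617) (nat_lit 10) (.e (nat_lit 344127) (nat_lit 26) (.e (nat_lit 557090) (nat_lit 12) (.e (nat_lit 163849) (nat_lit 0) (.e (nat_lit 6416) (nat_lit 341) .nil)))))))) (.g (nat_lit 1) (.e (nat_lit 156837) (nat_lit 0) .nil) .nil))) 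
(.lf (nat_lit 497542) (.g (nat_lit 1952) (.e (nat_lit 163939) (nat_lit 18) (.e (nat_lit 475177) (nat_lit 24) (.e (nat_lit 516176) (nat_lit 14) (.e (nat_lit 466954) (nat_lit 11) (.e (nat_lit 335994) (nat_lit 1) (.e (nat_lit 57686) (nat_lit 156) .nil)))))) (.g (nat_lit 1) (.e (nat_lit 160949) (nat_lit 0) .nil) .nil)))))) (.nd (nat_lit 7) (.nd (nat_lit 8) (.nd (nat_lit 9) 
(.lf (nat_lit 496710) (.g (nat_lit 1746) (.e (nat_lit 163907) (nat_lit 12) (.e (nat_lit 426566) (nat_lit 34) (.e (nat_lit 393288) (nat_lit 25) (.e (nat_lit 458789) (nat_lit 23) (.e (nat_lit 532499) (nat_lit 1) .nil))))) (.g (nat_lit 0) (.e (nat_lit 155960) (nat_lit 0) .nil) .nil))) 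
(.lf (nat_lit 497222) (.g (nat_lit 2238) (.e (nat_lit 163917) (nat_lit 13) (.e (nat_lit 434231) (nat_lit 23) (.e (nat_lit 532550) (nat_lit 12) (.e (nat_lit 360474) (nat_lit 8) (.e (nat_lit 557093) (nat_lit 12) (.e (nat_lit 163847) (nat_lit 0) (.e (nat_lit 6416) (nat_lit 341) .nil))))))) (.g (nat_lit 1) (.e (nat_lit 157628) (nat_lit 0) .nil) .nil)))) (.nd (nat_lit 9) 
(.lf (nat_lit 496966) (.g (nat_lit 1733) (.e (nat_lit 163908) (nat_lit 12) (.e (nat_lit 426312) (nat_lit 12) (.e (nat_lit 475199) (nat_lit 40) (.e (nat_lit 704598) (nat_lit 6) (.e (nat_lit 188453) (nat_lit 24) (.e (nat_lit 229681) (nat_lit 244) .nil)))))) (.g (nat_lit 1) (.e (nat_lit 156532) (nat_lit 0) .nil) .nil))) 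
(.lf (nat_lit 497478) (.g (nat_lit 1831) (.e (nat_lit 163938) (nat_lit 18) (.e (nat_lit 475179) (nat_lit 24) (.e (nat_lit 516176) (nat_lit 14) (.e (nat_lit 466954) (nat_lit 11) (.e (nat_lit 335988) (nat_lit 1) .nil))))) (.g (nat_lit 0) (.e (nat_lit 160882) (nat_lit 0) .nil) .nil))))) (.nd (nat_lit 8) (.nd (nat_lit 9) 
(.lf (nat_lit 496838) (.g (nat_lit 2852) (.e (nat_lit 163908) (nat_lit 12) (.e (nat_lit 426132) (nat_lit 3) (.e (nat_lit 204869) (nat_lit 29) (.e (nat_lit 360474) (nat_lit 8) (.e (nat_lit 557089) (nat_lit 12) (.e (nat_lit 163843) (nat_lit 0) (.e (nat_lit 6420) (nat_lit 341) .nil))))))) (.g (nat_lit 1) (.e (nat_lit 156107) (nat_lit 0) .nil) .nil))) 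
(.lf (nat_lit 497350) (.g (nat_lit 3599) (.e (nat_lit 163935) (nat_lit 18) (.e (nat_lit 475185) (nat_lit 29) (.e (nat_lit 557100) (nat_lit 13) (.e (nat_lit 172113) (nat_lit 10) (.e (nat_lit 434248) (nat_lit 28) .nil))))) (.g (nat_lit 0) (.e (nat_lit 160703) (nat_lit 0) .nil) .nil)))) (.nd (nat_lit 9) 
(.lf (nat_lit 497094) (.g (nat_lit 2738) (.e (nat_lit 163913) (nat_lit 12) (.e (nat_lit 426318) (nat_lit 12) (.e (nat_lit 475211) (nat_lit 41) (.e (nat_lit 712750) (nat_lit 29) (.e (nat_lit 442430) (nat_lit 24) (.e (nat_lit 229681) (nat_lit 244) .nil)))))) (.g (nat_lit 1) (.e (nat_lit 156990) (nat_lit 0) .nil) .nil))) 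
(.lf (nat_lit 497606) (.g (nat_lit 3291) (.e (nat_lit 163939) (nat_lit 18) (.e (nat_lit 475185) (nat_lit 29) (.e (nat_lit 557100) (nat_lit 13) (.e (nat_lit 172113) (nat_lit 10) (.e (nat_lit 434248) (nat_lit 28) (.e (nat_lit 573475) (nat_lit 12) (.e (nat_lit 57347) (nat_lit 0) (.e (nat_lit 6938) (nat_lit 375) .nil)))))))) (.g (nat_lit 1) (.e (nat_lit 161032) (nat_lit 0) .nil) .nil))))))) 
(.nd (nat_lit 6) (.nd (nat_lit 7) (.nd (nat_lit 8) (.nd (nat_lit 9) 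
(.lf (nat_lit 496678) (.g (nat_lit 3572) (.e (nat_lit 163907) (nat_lit 12) (.e (nat_lit 426566) (nat_lit 34) (.e (nat_lit 393271) (nat_lit 23) (.e (nat_lit 426436) (nat_lit 18) (.e (nat_lit 98333) (nat_lit 18) (.e (nat_lit 164327) (nat_lit 230) .nil)))))) (.g (nat_lit 1) (.e (nat_lit 155928) (nat_lit 0) .nil) .nil))) 
(.lf (nat_lit 497190) (.g (nat_lit 1223) (.e (nat_lit 171776) (nat_lit 12) (.e (nat_lit 426566) (nat_lit 34) (.e (nat_lit 393271) (nat_lit 23) (.e (nat_lit 426131) (nat_lit 3) .nil)))) (.g (nat_lit 0) (.e (nat_lit 157390) (nat_lit 0) .nil) .nil)))) (.nd (nat_lit 9) 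
(.lf (nat_lit 496934) (.g (nat_lit 1309) (.e (nat_lit 163908) (nat_lit 12) (.e (nat_lit 426305) (nat_lit 12) (.e (nat_lit 475198) (nat_lit 40) (.e (nat_lit 704599) (nat_lit 6) .nil)))) (.g (nat_lit 0) (.e (nat_lit 156469) (nat_lit 0) .nil) .nil))) 
(.lf (nat_lit 497446) (.g (nat_lit 2070) (.e (nat_lit 163938) (nat_lit 18) (.e (nat_lit 475179) (nat_lit 24) (.e (nat_lit 516146) (nat_lit 9) (.e (nat_lit 426323) (nat_lit 13) (.e (nat_lit 483365) (nat_lit 18) .nil))))) (.g (nat_lit 0) (.e (nat_lit 160833) (nat_lit 0) .nil) .nil))))) (.nd (nat_lit 8) (.nd (nat_lit 9) 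
(.lf (nat_lit 496806) (.g (nat_lit 2612) (.e (nat_lit 163907) (nat_lit 12) (.e (nat_lit 426568) (nat_lit 34) (.e (nat_lit 393293) (nat_lit 26) (.e (nat_lit 475177) (nat_lit 24) (.e (nat_lit 516119) (nat_lit 1) (.e (nat_lit 164325) (nat_lit 230) .nil)))))) (.g (nat_lit 1) (.e (nat_lit 156056) (nat_lit 0) .nil) .nil))) 
(.lf (nat_lit 497318) (.g (nat_lit 682) (.e (nat_lit 163932) (nat_lit 17) (.e (nat_lit 466977) (nat_lit 22) (.e (nat_lit 196654) (nat_lit 11) .nil))) (.g (nat_lit 0) (.e (nat_lit 160304) (nat_lit 0) .nil) .nil)))) (.nd (nat_lit 9) 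
(.lf (nat_lit 497062) (.g (nat_lit 2122) (.e (nat_lit 163911) (nat_lit 12) (.e (nat_lit 426140) (nat_lit 3) (.e (nat_lit 204868) (nat_lit 29) (.e (nat_lit 360473) (nat_lit 8) (.e (nat_lit 557091) (nat_lit 12) .nil))))) (.g (nat_lit 0) (.e (nat_lit 156916) (nat_lit 0) .nil) .nil))) 
(.lf (nat_lit 497574) (.g (nat_lit 2771) (.e (nat_lit 163939) (nat_lit 18) (.e (nat_lit 475179) (nat_lit 24) (.e (nat_lit 516174) (nat_lit 14) (.e (nat_lit 466954) (nat_lit 11) (.e (nat_lit 335986) (nat_lit 1) (.e (nat_lit 57692) (nat_lit 156) .nil)))))) (.g (nat_lit 1) (.e (nat_lit 161000) (nat_lit 0) .nil) .nil)))))) (.nd (nat_lit 7) (.nd (nat_lit 8) (.nd (nat_lit 9) 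
(.lf (nat_lit 496742) (.g (nat_lit 2110) (.e (nat_lit 163907) (nat_lit 12) (.e (nat_lit 426566) (nat_lit 34) (.e (nat_lit 393296) (nat_lit 26) (.e (nat_lit 475178) (nat_lit 24) (.e (nat_lit 516106) (nat_lit 0) (.e (nat_lit 2478) (nat_lit 157) (.e (nat_lit 5224) (nat_lit 296) .nil))))))) (.g (nat_lit 1) (.e (nat_lit 155992) (nat_lit 0) .nil) .nil))) 
(.lf (nat_lit 497254) (.g (nat_lit 2940) (.e (nat_lit 163920) (nat_lit 14) (.e (nat_lit 442374) (nat_lit 0) (.e (nat_lit 2059) (nat_lit 142) (.e (nat_lit 704598) (nat_lit 6) (.e (nat_lit 188455) (nat_lit 24) (.e (nat_lit 229681) (nat_lit 244) .nil)))))) (.g (nat_lit 1) (.e (nat_lit 157959) (nat_lit 0) .nil) .nil)))) (.nd (nat_lit 9) 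
(.lf (nat_lit 496998) (.g (nat_lit 1468) (.e (nat_lit 163908) (nat_lit 12) (.e (nat_lit 426338) (nat_lit 14) (.e (nat_lit 491549) (nat_lit 9) (.e (nat_lit 336434) (nat_lit 30) .nil)))) (.g (nat_lit 0) (.e (nat_lit 156728) (nat_lit 0) .nil) .nil))) 
(.lf (nat_lit 497510) (.g (nat_lit 4654) (.e (nat_lit 163938) (nat_lit 18) (.e (nat_lit 475185) (nat_lit 29) (.e (nat_lit 557109) (nat_lit 15) (.e (nat_lit 188452) (nat_lit 23) (.e (nat_lit 204829) (nat_lit 18) (.e (nat_lit 65280) (nat_lit 219) .nil)))))) (.g (nat_lit 1) (.e (nat_lit 160915) (nat_lit 0) .nil) .nil))))) (.nd (nat_lit 8) (.nd (nat_lit 9) 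
(.lf (nat_lit 496870) (.g (nat_lit 4268) (.e (nat_lit 163908) (nat_lit 12) (.e (nat_lit 426136) (nat_lit 3) (.e (nat_lit 204869) (nat_lit 29) (.e (nat_lit 360475) (nat_lit 8) (.e (nat_lit 557091) (nat_lit 12) (.e (nat_lit 163844) (nat_lit 0) (.e (nat_lit 6418) (nat_lit 341) .nil))))))) (.g (nat_lit 1) (.e (nat_lit 156139) (nat_lit 0) .nil) .nil))) 
(.lf (nat_lit 497382) (.g (nat_lit 2133) (.e (nat_lit 163936) (nat_lit 18) (.e (nat_lit 475179) (nat_lit 24) (.e (nat_lit 516174) (nat_lit 14) (.e (nat_lit 466954) (nat_lit 11) (.e (nat_lit 335993) (nat_lit 1) .nil))))) (.g (nat_lit 0) (.e (nat_lit 160758) (nat_lit 0) .nil) .nil)))) (.nd (nat_lit 9) 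
(.lf (nat_lit 497126) (.g (nat_lit 2678) (.e (nat_lit 163915) (nat_lit 12) (.e (nat_lit 426133) (nat_lit 3) (.e (nat_lit 204868) (nat_lit 29) (.e (nat_lit 360473) (nat_lit 8) (.e (nat_lit 557091) (nat_lit 12) .nil))))) (.g (nat_lit 0) (.e (nat_lit 157117) (nat_lit 0) .nil) .nil))) 
(.lf (nat_lit 497638) (.g (nat_lit 1357) (.e (nat_lit 163941) (nat_lit 19) (.e (nat_lit 483337) (nat_lit 9) (.e (nat_lit 426199) (nat_lit 9) (.e (nat_lit 426436) (nat_lit 18) (.e (nat_lit 98335) (nat_lit 18) .nil))))) (.g (nat_lit 0) (.e (nat_lit 161130) (nat_lit 0) .nil) .nil)))))))) (.nd (nat_lit 5) (.nd (nat_lit 6) (.nd (nat_lit 7) (.nd (nat_lit 8) (.nd (nat_lit 9) 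
(.lf (nat_lit 496662) (.g (nat_lit 1983) (.e (nat_lit 163907) (nat_lit 12) (.e (nat_lit 426566) (nat_lit 34) (.e (nat_lit 393270) (nat_lit 23) (.e (nat_lit 426131) (nat_lit 3) (.e (nat_lit 204830) (nat_lit 18) (.e (nat_lit 57692) (nat_lit 156) .nil)))))) (.g (nat_lit 1) (.e (nat_lit 155912) (nat_lit 0) .nil) .nil))) 
(.lf (nat_lit 497174) (.g (nat_lit 1742) (.e (nat_lit 171776) (nat_lit 12) (.e (nat_lit 426139) (nat_lit 3) (.e (nat_lit 204868) (nat_lit 29) (.e (nat_lit 360473) (nat_lit 8) (.e (nat_lit 557094) (nat_lit 12) .nil))))) (.g (nat_lit 0) (.e (nat_lit 157355) (nat_lit 0) .nil) .nil)))) (.nd (nat_lit 9) 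
(.lf (nat_lit 496918) (.g (nat_lit 1851) (.e (nat_lit 163908) (nat_lit 12) (.e (nat_lit 426286) (nat_lit 10) (.e (nat_lit 434288) (nat_lit 43) (.e (nat_lit 696344) (nat_lit 8) (.e (nat_lit 172113) (nat_lit 10) (.e (nat_lit 434208) (nat_lit 18) (.e (nat_lit 6416) (nat_lit 341) .nil))))))) (.g (nat_lit 1) (.e (nat_lit 156440) (nat_lit 0) .nil) .nil))) 
(.lf (nat_lit 497430) (.g (nat_lit 1815) (.e (nat_lit 163938) (nat_lit 18) (.e (nat_lit 475177) (nat_lit 24) (.e (nat_lit 516174) (nat_lit 14) (.e (nat_lit 466954) (nat_lit 11) (.e (nat_lit 335995) (nat_lit 1) (.e (nat_lit 57687) (nat_lit 156) .nil)))))) (.g (nat_lit 1) (.e (nat_lit 160816) (nat_lit 0) .nil) .nil))))) (.nd (nat_lit 8) (.nd (nat_lit 9) 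
(.lf (nat_lit 496790) (.g (nat_lit 1987) (.e (nat_lit 163907) (nat_lit 12) (.e (nat_lit 426568) (nat_lit 34) (.e (nat_lit 393283) (nat_lit 24) (.e (nat_lit 434231) (nat_lit 23) (.e (nat_lit 532502) (nat_lit 1) (.e (nat_lit 57691) (nat_lit 156) .nil)))))) (.g (nat_lit 1) (.e (nat_lit 156040) (nat_lit 0) .nil) .nil))) 
(.lf (nat_lit 497302) (.g (nat_lit 1545) (.e (nat_lit 163926) (nat_lit 16) (.e (nat_lit 458789) (nat_lit 23) (.e (nat_lit 532530) (nat_lit 9) (.e (nat_lit 336310) (nat_lit 16) .nil)))) (.g (nat_lit 0) (.e (nat_lit 158918) (nat_lit 0) .nil) .nil)))) (.nd (nat_lit 9) 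
(.lf (nat_lit 497046) (.g (nat_lit 2334) (.e (nat_lit 163909) (nat_lit 12) (.e (nat_lit 426140) (nat_lit 3) (.e (nat_lit 204869) (nat_lit 29) (.e (nat_lit 360474) (nat_lit 8) (.e (nat_lit 557093) (nat_lit 12) (.e (nat_lit 163849) (nat_lit 0) (.e (nat_lit 6420) (nat_lit 341) .nil))))))) (.g (nat_lit 1) (.e (nat_lit 156867) (nat_lit 0) .nil) .nil))) 
(.lf (nat_lit 497558) (.g (nat_lit 1721) (.e (nat_lit 163939) (nat_lit 18) (.e (nat_lit 475179) (nat_lit 24) (.e (nat_lit 516150) (nat_lit 9) (.e (nat_lit 426323) (nat_lit 13) (.e (nat_lit 483364) (nat_lit 18) .nil))))) (.g (nat_lit 0) (.e (nat_lit 160973) (nat_lit 0) .nil) .nil)))))) (.nd (nat_lit 7) (.nd (nat_lit 8) (.nd (nat_lit 9) 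
(.lf (nat_lit 496726) (.g (nat_lit 2852) (.e (nat_lit 163907) (nat_lit 12) (.e (nat_lit 426566) (nat_lit 34) (.e (nat_lit 393294) (nat_lit 26) (.e (nat_lit 475177) (nat_lit 24) (.e (nat_lit 516119) (nat_lit 1) (.e (nat_lit 164324) (nat_lit 230) .nil)))))) (.g (nat_lit 1) (.e (nat_lit 155976) (nat_lit 0) .nil) .nil))) 
(.lf (nat_lit 497238) (.g (nat_lit 572) (.e (nat_lit 163917) (nat_lit 13) (.e (nat_lit 434238) (nat_lit 25) (.e (nat_lit 548883) (nat_lit 7) .nil))) (.g (nat_lit 0) (.e (nat_lit 157662) (nat_lit 0) .nil) .nil)))) (.nd (nat_lit 9) 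
(.lf (nat_lit 496982) (.g (nat_lit 3195) (.e (nat_lit 163908) (nat_lit 12) (.e (nat_lit 426338) (nat_lit 14) (.e (nat_lit 491549) (nat_lit 9) (.e (nat_lit 336426) (nat_lit 29) (.e (nat_lit 442430) (nat_lit 24) (.e (nat_lit 229680) (nat_lit 244) .nil)))))) (.g (nat_lit 1) (.e (nat_lit 156709) (nat_lit 0) .nil) .nil))) 
(.lf (nat_lit 497494) (.g (nat_lit 2577) (.e (nat_lit 163938) (nat_lit 18) (.e (nat_lit 475185) (nat_lit 29) (.e (nat_lit 557100) (nat_lit 13) (.e (nat_lit 172113) (nat_lit 10) (.e (nat_lit 434245) (nat_lit 28) (.e (nat_lit 573474) (nat_lit 12) (.e (nat_lit 57345) (nat_lit 0) (.e (nat_lit 6940) (nat_lit 375) .nil)))))))) (.g (nat_lit 1) (.e (nat_lit 160899) (nat_lit 0) .nil) .nil))))) 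
(.nd (nat_lit 8) (.nd (nat_lit 9) 
(.lf (nat_lit 496854) (.g (nat_lit 1591) (.e (nat_lit 163908) (nat_lit 12) (.e (nat_lit 426136) (nat_lit 3) (.e (nat_lit 204868) (nat_lit 29) (.e (nat_lit 360473) (nat_lit 8) (.e (nat_lit 557093) (nat_lit 12) (.e (nat_lit 163849) (nat_lit 0) (.e (nat_lit 6416) (nat_lit 341) .nil))))))) (.g (nat_lit 1) (.e (nat_lit 156123) (nat_lit 0) .nil) .nil))) 
(.lf (nat_lit 497366) (.g (nat_lit 1606) (.e (nat_lit 163936) (nat_lit 18) (.e (nat_lit 475177) (nat_lit 24) (.e (nat_lit 516176) (nat_lit 14) (.e (nat_lit 466969) (nat_lit 21) .nil)))) (.g (nat_lit 0) (.e (nat_lit 160721) (nat_lit 0) .nil) .nil)))) (.nd (nat_lit 9) 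
(.lf (nat_lit 497110) (.g (nat_lit 4161) (.e (nat_lit 163913) (nat_lit 12) (.e (nat_lit 426503) (nat_lit 27) (.e (nat_lit 336387) (nat_lit 27) (.e (nat_lit 426306) (nat_lit 12) (.e (nat_lit 475177) (nat_lit 24) (.e (nat_lit 516120) (nat_lit 1) (.e (nat_lit 164330) (nat_lit 230) .nil))))))) (.g (nat_lit 1) (.e (nat_lit 157026) (nat_lit 0) .nil) .nil))) 
(.lf (nat_lit 497622) (.g (nat_lit 2051) (.e (nat_lit 163941) (nat_lit 19) (.e (nat_lit 483337) (nat_lit 9) (.e (nat_lit 426188) (nat_lit 9) (.e (nat_lit 426436) (nat_lit 18) (.e (nat_lit 98335) (nat_lit 18) (.e (nat_lit 164329) (nat_lit 230) .nil)))))) (.g (nat_lit 1) (.e (nat_lit 161098) (nat_lit 0) .nil) .nil))))))) (.nd (nat_lit 6) (.nd (nat_lit 7) (.nd (nat_lit 8) (.nd (nat_lit 9) 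
(.lf (nat_lit 496694) (.g (nat_lit 3193) (.e (nat_lit 163907) (nat_lit 12) (.e (nat_lit 426566) (nat_lit 34) (.e (nat_lit 393273) (nat_lit 23) (.e (nat_lit 426438) (nat_lit 18) (.e (nat_lit 98335) (nat_lit 18) (.e (nat_lit 164327) (nat_lit 230) .nil)))))) (.g (nat_lit 1) (.e (nat_lit 155944) (nat_lit 0) .nil) .nil))) 
(.lf (nat_lit 497206) (.g (nat_lit 2646) (.e (nat_lit 163916) (nat_lit 13) (.e (nat_lit 434231) (nat_lit 23) (.e (nat_lit 532550) (nat_lit 12) (.e (nat_lit 360474) (nat_lit 8) (.e (nat_lit 557094) (nat_lit 12) (.e (nat_lit 163848) (nat_lit 0) (.e (nat_lit 6416) (nat_lit 341) .nil))))))) (.g (nat_lit 1) (.e (nat_lit 157482) (nat_lit 0) .nil) .nil)))) (.nd (nat_lit 9) 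
(.lf (nat_lit 496950) (.g (nat_lit 1082) (.e (nat_lit 163908) (nat_lit 12) (.e (nat_lit 426305) (nat_lit 12) (.e (nat_lit 475211) (nat_lit 41) (.e (nat_lit 712753) (nat_lit 30) .nil)))) (.g (nat_lit 0) (.e (nat_lit 156516) (nat_lit 0) .nil) .nil))) 
(.lf (nat_lit 497462) (.g (nat_lit 3022) (.e (nat_lit 163938) (nat_lit 18) (.e (nat_lit 475179) (nat_lit 24) (.e (nat_lit 516174) (nat_lit 14) (.e (nat_lit 466954) (nat_lit 11) (.e (nat_lit 335986) (nat_lit 1) (.e (nat_lit 57691) (nat_lit 156) .nil)))))) (.g (nat_lit 1) (.e (nat_lit 160865) (nat_lit 0) .nil) .nil))))) (.nd (nat_lit 8) (.nd (nat_lit 9) 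
(.lf (nat_lit 496822) (.g (nat_lit 2971) (.e (nat_lit 163908) (nat_lit 12) (.e (nat_lit 426132) (nat_lit 3) (.e (nat_lit 204868) (nat_lit 29) (.e (nat_lit 360473) (nat_lit 8) (.e (nat_lit 557091) (nat_lit 12) (.e (nat_lit 163847) (nat_lit 0) (.e (nat_lit 6416) (nat_lit 341) .nil))))))) (.g (nat_lit 1) (.e (nat_lit 156091) (nat_lit 0) .nil) .nil))) 
(.lf (nat_lit 497334) (.g (nat_lit 1533) (.e (nat_lit 163933) (nat_lit 17) (.e (nat_lit 466977) (nat_lit 22) (.e (nat_lit 196656) (nat_lit 11) (.e (nat_lit 16474) (nat_lit 15) .nil)))) (.g (nat_lit 0) (.e (nat_lit 160634) (nat_lit 0) .nil) .nil)))) (.nd (nat_lit 9) 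
(.lf (nat_lit 497078) (.g (nat_lit 2564) (.e (nat_lit 163913) (nat_lit 12) (.e (nat_lit 426129) (nat_lit 3) (.e (nat_lit 204869) (nat_lit 29) (.e (nat_lit 360474) (nat_lit 8) (.e (nat_lit 557094) (nat_lit 12) .nil))))) (.g (nat_lit 0) (.e (nat_lit 156962) (nat_lit 0) .nil) .nil))) 
(.lf (nat_lit 497590) (.g (nat_lit 2979) (.e (nat_lit 163939) (nat_lit 18) (.e (nat_lit 475179) (nat_lit 24) (.e (nat_lit 516176) (nat_lit 14) (.e (nat_lit 466954) (nat_lit 11) (.e (nat_lit 335988) (nat_lit 1) (.e (nat_lit 57691) (nat_lit 156) .nil)))))) (.g (nat_lit 1) (.e (nat_lit 161016) (nat_lit 0) .nil) .nil)))))) (.nd (nat_lit 7) (.nd (nat_lit 8) (.nd (nat_lit 9) 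
(.lf (nat_lit 496758) (.g (nat_lit 4047) (.e (nat_lit 163907) (nat_lit 12) (.e (nat_lit 426567) (nat_lit 34) (.e (nat_lit 393294) (nat_lit 26) (.e (nat_lit 475179) (nat_lit 24) (.e (nat_lit 516115) (nat_lit 1) (.e (nat_lit 164325) (nat_lit 230) .nil)))))) (.g (nat_lit 1) (.e (nat_lit 156008) (nat_lit 0) .nil) .nil))) 
(.lf (nat_lit 497270) (.g (nat_lit 2511) (.e (nat_lit 163922) (nat_lit 15) (.e (nat_lit 450584) (nat_lit 9) (.e (nat_lit 565267) (nat_lit 4) (.e (nat_lit 65619) (nat_lit 10) (.e (nat_lit 344090) (nat_lit 18) (.e (nat_lit 7708) (nat_lit 414) .nil)))))) (.g (nat_lit 1) (.e (nat_lit 158496) (nat_lit 0) .nil) .nil)))) (.nd (nat_lit 9) 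
(.lf (nat_lit 497014) (.g (nat_lit 2372) (.e (nat_lit 163908) (nat_lit 12) (.e (nat_lit 426412) (nat_lit 15) (.e (nat_lit 1800) (nat_lit 119) (.e (nat_lit 516176) (nat_lit 14) (.e (nat_lit 466950) (nat_lit 11) .nil))))) (.g (nat_lit 0) (.e (nat_lit 156780) (nat_lit 0) .nil) .nil))) 
(.lf (nat_lit 497526) (.g (nat_lit 3303) (.e (nat_lit 163939) (nat_lit 18) (.e (nat_lit 475177) (nat_lit 24) (.e (nat_lit 516150) (nat_lit 9) (.e (nat_lit 426323) (nat_lit 13) (.e (nat_lit 483365) (nat_lit 18) (.e (nat_lit 57688) (nat_lit 156) .nil)))))) (.g (nat_lit 1) (.e (nat_lit 160932) (nat_lit 0) .nil) .nil))))) (.nd (nat_lit 8) (.nd (nat_lit 9) 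
(.lf (nat_lit 496886) (.g (nat_lit 2900) (.e (nat_lit 163908) (nat_lit 12) (.e (nat_lit 426171) (nat_lit 7) (.e (nat_lit 409648) (nat_lit 18) (.e (nat_lit 303146) (nat_lit 14) (.e (nat_lit 491546) (nat_lit 9) (.e (nat_lit 335997) (nat_lit 1) (.e (nat_lit 57857) (nat_lit 254) .nil))))))) (.g (nat_lit 1) (.e (nat_lit 156280) (nat_lit 0) .nil) .nil))) 
(.lf (nat_lit 497398) (.g (nat_lit 3126) (.e (nat_lit 163936) (nat_lit 18) (.e (nat_lit 475185) (nat_lit 29) (.e (nat_lit 557100) (nat_lit 13) (.e (nat_lit 172113) (nat_lit 10) (.e (nat_lit 434245) (nat_lit 28) .nil))))) (.g (nat_lit 0) (.e (nat_lit 160775) (nat_lit 0) .nil) .nil)))) (.nd (nat_lit 9) 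
(.lf (nat_lit 497142) (.g (nat_lit 1557) (.e (nat_lit 163915) (nat_lit 12) (.e (nat_lit 426306) (nat_lit 12) (.e (nat_lit 475198) (nat_lit 40) (.e (nat_lit 704599) (nat_lit 6) (.e (nat_lit 188453) (nat_lit 24) (.e (nat_lit 229681) (nat_lit 244) .nil)))))) (.g (nat_lit 1) (.e (nat_lit 157144) (nat_lit 0) .nil) .nil))) 
(.lf (nat_lit 497654) (.g (nat_lit 3893) (.e (nat_lit 163941) (nat_lit 19) (.e (nat_lit 483337) (nat_lit 9) (.e (nat_lit 426308) (nat_lit 12) (.e (nat_lit 475179) (nat_lit 24) (.e (nat_lit 516119) (nat_lit 1) (.e (nat_lit 164326) (nat_lit 230) .nil)))))) (.g (nat_lit 1) (.e (nat_lit 161193) (nat_lit 0) .nil) .nil))))))))) 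
(.nd (nat_lit 4) (.nd (nat_lit 5) (.nd (nat_lit 6) (.nd (nat_lit 7) (.nd (nat_lit 8) 
(.nd (nat_lit 9) 
(.lf (nat_lit 496654) (.g (nat_lit 3556) (.e (nat_lit 163907) (nat_lit 12) (.e (nat_lit 426564) (nat_lit 34) (.e (nat_lit 393294) (nat_lit 26) (.e (nat_lit 475179) (nat_lit 24) (.e (nat_lit 516115) (nat_lit 1) (.e (nat_lit 164325) (nat_lit 230) .nil)))))) (.g (nat_lit 1) (.e (nat_lit 155904) (nat_lit 0) .nil) .nil))) 
(.lf (nat_lit 497166) (.g (nat_lit 531) (.e (nat_lit 163915) (nat_lit 12) (.e (nat_lit 426315) (nat_lit 12) (.e (nat_lit 475207) (nat_lit 41) .nil))) (.g (nat_lit 0) (.e (nat_lit 157176) (nat_lit 0) .nil) .nil)))) (.nd (nat_lit 9) 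
(.lf (nat_lit 496910) (.g (nat_lit 1686) (.e (nat_lit 163908) (nat_lit 12) (.e (nat_lit 426286) (nat_lit 10) (.e (nat_lit 434276) (nat_lit 39) (.e (nat_lit 663580) (nat_lit 9) (.e (nat_lit 7936) (nat_lit 24) .nil))))) (.g (nat_lit 0) (.e (nat_lit 156427) (nat_lit 0) .nil) .nil))) 
(.lf (nat_lit 497422) (.g (nat_lit 2852) (.e (nat_lit 163938) (nat_lit 18) (.e (nat_lit 475177) (nat_lit 24) (.e (nat_lit 516150) (nat_lit 9) (.e (nat_lit 426323) (nat_lit 13) (.e (nat_lit 483364) (nat_lit 18) (.e (nat_lit 57692) (nat_lit 156) .nil)))))) (.g (nat_lit 1) (.e (nat_lit 160808) (nat_lit 0) .nil) .nil))))) (.nd (nat_lit 8) (.nd (nat_lit 9) 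
(.lf (nat_lit 496782) (.g (nat_lit 1588) (.e (nat_lit 163907) (nat_lit 12) (.e (nat_lit 426568) (nat_lit 34) (.e (nat_lit 393271) (nat_lit 23) (.e (nat_lit 426437) (nat_lit 18) .nil)))) (.g (nat_lit 0) (.e (nat_lit 156032) (nat_lit 0) .nil) .nil))) 
(.lf (nat_lit 497294) (.g (nat_lit 1655) (.e (nat_lit 163923) (nat_lit 15) (.e (nat_lit 450592) (nat_lit 14) (.e (nat_lit 639023) (nat_lit 18) (.e (nat_lit 81950) (nat_lit 21) (.e (nat_lit 57857) (nat_lit 254) .nil))))) (.g (nat_lit 1) (.e (nat_lit 158780) (nat_lit 0) .nil) .nil)))) (.nd (nat_lit 9) 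
(.lf (nat_lit 497038) (.g (nat_lit 3039) (.e (nat_lit 163909) (nat_lit 12) (.e (nat_lit 426125) (nat_lit 2) (.e (nat_lit 196666) (nat_lit 13) (.e (nat_lit 65617) (nat_lit 10) (.e (nat_lit 344133) (nat_lit 26) .nil))))) (.g (nat_lit 0) (.e (nat_lit 156845) (nat_lit 0) .nil) .nil))) 
(.lf (nat_lit 497550) (.g (nat_lit 2793) (.e (nat_lit 163939) (nat_lit 18) (.e (nat_lit 475179) (nat_lit 24) (.e (nat_lit 516146) (nat_lit 9) (.e (nat_lit 426323) (nat_lit 13) (.e (nat_lit 483364) (nat_lit 18) (.e (nat_lit 57692) (nat_lit 156) .nil)))))) (.g (nat_lit 1) (.e (nat_lit 160958) (nat_lit 0) .nil) .nil)))))) (.nd (nat_lit 7) (.nd (nat_lit 8) (.nd (nat_lit 9) 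
(.lf (nat_lit 496718) (.g (nat_lit 2454) (.e (nat_lit 163907) (nat_lit 12) (.e (nat_lit 426566) (nat_lit 34) (.e (nat_lit 393292) (nat_lit 26) (.e (nat_lit 475179) (nat_lit 24) (.e (nat_lit 516119) (nat_lit 1) (.e (nat_lit 164325) (nat_lit 230) .nil)))))) (.g (nat_lit 1) (.e (nat_lit 155968) (nat_lit 0) .nil) .nil))) 
(.lf (nat_lit 497230) (.g (nat_lit 3321) (.e (nat_lit 163917) (nat_lit 13) (.e (nat_lit 434231) (nat_lit 23) (.e (nat_lit 532550) (nat_lit 12) (.e (nat_lit 360475) (nat_lit 8) (.e (nat_lit 557089) (nat_lit 12) (.e (nat_lit 163843) (nat_lit 0) (.e (nat_lit 6420) (nat_lit 341) .nil))))))) (.g (nat_lit 1) (.e (nat_lit 157636) (nat_lit 0) .nil) .nil)))) (.nd (nat_lit 9) 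
(.lf (nat_lit 496974) (.g (nat_lit 2826) (.e (nat_lit 163908) (nat_lit 12) (.e (nat_lit 426338) (nat_lit 14) (.e (nat_lit 491540) (nat_lit 3) (.e (nat_lit 98370) (nat_lit 28) (.e (nat_lit 442430) (nat_lit 24) (.e (nat_lit 237312) (nat_lit 138) .nil)))))) (.g (nat_lit 1) (.e (nat_lit 156692) (nat_lit 0) .nil) .nil))) 
(.lf (nat_lit 497486) (.g (nat_lit 3441) (.e (nat_lit 163938) (nat_lit 18) (.e (nat_lit 475179) (nat_lit 24) (.e (nat_lit 516176) (nat_lit 14) (.e (nat_lit 466954) (nat_lit 11) (.e (nat_lit 335995) (nat_lit 1) (.e (nat_lit 57691) (nat_lit 156) .nil)))))) (.g (nat_lit 1) (.e (nat_lit 160890) (nat_lit 0) .nil) .nil))))) (.nd (nat_lit 8) (.nd (nat_lit 9) 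
(.lf (nat_lit 496846) (.g (nat_lit 3795) (.e (nat_lit 163908) (nat_lit 12) (.e (nat_lit 426132) (nat_lit 3) (.e (nat_lit 204869) (nat_lit 29) (.e (nat_lit 360475) (nat_lit 8) (.e (nat_lit 557089) (nat_lit 12) (.e (nat_lit 163849) (nat_lit 0) (.e (nat_lit 6416) (nat_lit 341) .nil))))))) (.g (nat_lit 1) (.e (nat_lit 156115) (nat_lit 0) .nil) .nil))) 
(.lf (nat_lit 497358) (.g (nat_lit 2474) (.e (nat_lit 163936) (nat_lit 18) (.e (nat_lit 475177) (nat_lit 24) (.e (nat_lit 516174) (nat_lit 14) (.e (nat_lit 466954) (nat_lit 11) (.e (nat_lit 335986) (nat_lit 1) (.e (nat_lit 57687) (nat_lit 156) .nil)))))) (.g (nat_lit 1) (.e (nat_lit 160713) (nat_lit 0) .nil) .nil)))) (.nd (nat_lit 9) 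
(.lf (nat_lit 497102) (.g (nat_lit 2549) (.e (nat_lit 163913) (nat_lit 12) (.e (nat_lit 426347) (nat_lit 14) (.e (nat_lit 491549) (nat_lit 9) (.e (nat_lit 336430) (nat_lit 29) (.e (nat_lit 442430) (nat_lit 24) .nil))))) (.g (nat_lit 0) (.e (nat_lit 157018) (nat_lit 0) .nil) .nil))) 
(.lf (nat_lit 497614) (.g (nat_lit 884) (.e (nat_lit 163941) (nat_lit 19) (.e (nat_lit 483337) (nat_lit 9) (.e (nat_lit 426185) (nat_lit 9) .nil))) (.g (nat_lit 0) (.e (nat_lit 161087) (nat_lit 0) .nil) .nil))))))) (.nd (nat_lit 6) (.nd (nat_lit 7) (.nd (nat_lit 8) (.nd (nat_lit 9) 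
(.lf (nat_lit 496686) (.g (nat_lit 2749) (.e (nat_lit 163907) (nat_lit 12) (.e (nat_lit 426566) (nat_lit 34) (.e (nat_lit 393272) (nat_lit 23) (.e (nat_lit 426438) (nat_lit 18) (.e (nat_lit 98335) (nat_lit 18) (.e (nat_lit 164325) (nat_lit 230) .nil)))))) (.g (nat_lit 1) (.e (nat_lit 155936) (nat_lit 0) .nil) .nil))) 
(.lf (nat_lit 497198) (.g (nat_lit 1234) (.e (nat_lit 171776) (nat_lit 12) (.e (nat_lit 426568) (nat_lit 34) (.e (nat_lit 393284) (nat_lit 24) (.e (nat_lit 434233) (nat_lit 23) .nil)))) (.g (nat_lit 0) (.e (nat_lit 157398) (nat_lit 0) .nil) .nil)))) (.nd (nat_lit 9) 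
(.lf (nat_lit 496942) (.g (nat_lit 2578) (.e (nat_lit 163908) (nat_lit 12) (.e (nat_lit 426305) (nat_lit 12) (.e (nat_lit 475199) (nat_lit 40) (.e (nat_lit 704598) (nat_lit 6) (.e (nat_lit 188455) (nat_lit 24) (.e (nat_lit 229677) (nat_lit 244) .nil)))))) (.g (nat_lit 1) (.e (nat_lit 156478) (nat_lit 0) .nil) .nil))) 
(.lf (nat_lit 497454) (.g (nat_lit 2960) (.e (nat_lit 163938) (nat_lit 18) (.e (nat_lit 475179) (nat_lit 24) (.e (nat_lit 516150) (nat_lit 9) (.e (nat_lit 426323) (nat_lit 13) (.e (nat_lit 483364) (nat_lit 18) (.e (nat_lit 57692) (nat_lit 156) .nil)))))) (.g (nat_lit 1) (.e (nat_lit 160845) (nat_lit 0) .nil) .nil))))) (.nd (nat_lit 8) (.nd (nat_lit 9) 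
(.lf (nat_lit 496814) (.g (nat_lit 2088) (.e (nat_lit 163907) (nat_lit 12) (.e (nat_lit 426568) (nat_lit 34) (.e (nat_lit 393295) (nat_lit 26) (.e (nat_lit 475179) (nat_lit 24) (.e (nat_lit 516119) (nat_lit 1) .nil))))) (.g (nat_lit 0) (.e (nat_lit 156064) (nat_lit 0) .nil) .nil))) 
(.lf (nat_lit 497326) (.g (nat_lit 1415) (.e (nat_lit 163933) (nat_lit 17) (.e (nat_lit 466974) (nat_lit 22) (.e (nat_lit 196654) (nat_lit 11) (.e (nat_lit 16407) (nat_lit 1) .nil)))) (.g (nat_lit 0) (.e (nat_lit 160624) (nat_lit 0) .nil) .nil)))) (.nd (nat_lit 9) 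
(.lf (nat_lit 497070) (.g (nat_lit 2619) (.e (nat_lit 163912) (nat_lit 12) (.e (nat_lit 426125) (nat_lit 2) (.e (nat_lit 196666) (nat_lit 13) (.e (nat_lit 65610) (nat_lit 10) .nil)))) (.g (nat_lit 0) (.e (nat_lit 156945) (nat_lit 0) .nil) .nil))) 
(.lf (nat_lit 497582) (.g (nat_lit 2902) (.e (nat_lit 163939) (nat_lit 18) (.e (nat_lit 475179) (nat_lit 24) (.e (nat_lit 516174) (nat_lit 14) (.e (nat_lit 466954) (nat_lit 11) (.e (nat_lit 335996) (nat_lit 1) (.e (nat_lit 57692) (nat_lit 156) .nil)))))) (.g (nat_lit 1) (.e (nat_lit 161008) (nat_lit 0) .nil) .nil)))))) (.nd (nat_lit 7) (.nd (nat_lit 8) (.nd (nat_lit 9) 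
(.lf (nat_lit 496750) (.g (nat_lit 3084) (.e (nat_lit 163907) (nat_lit 12) (.e (nat_lit 426567) (nat_lit 34) (.e (nat_lit 393291) (nat_lit 26) (.e (nat_lit 475177) (nat_lit 24) (.e (nat_lit 516115) (nat_lit 1) (.e (nat_lit 164325) (nat_lit 230) .nil)))))) (.g (nat_lit 1) (.e (nat_lit 156000) (nat_lit 0) .nil) .nil))) 
(.lf (nat_lit 497262) (.g (nat_lit 612) (.e (nat_lit 163920) (nat_lit 14) (.e (nat_lit 442430) (nat_lit 24) (.e (nat_lit 229637) (nat_lit 228) .nil))) (.g (nat_lit 0) (.e (nat_lit 158130) (nat_lit 0) .nil) .nil)))) (.nd (nat_lit 9) 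
(.lf (nat_lit 497006) (.g (nat_lit 3480) (.e (nat_lit 163908) (nat_lit 12) (.e (nat_lit 426338) (nat_lit 14) (.e (nat_lit 491550) (nat_lit 9) (.e (nat_lit 336430) (nat_lit 29) (.e (nat_lit 442428) (nat_lit 24) (.e (nat_lit 229680) (nat_lit 244) .nil)))))) (.g (nat_lit 1) (.e (nat_lit 156738) (nat_lit 0) .nil) .nil))) 
(.lf (nat_lit 497518) (.g (nat_lit 2338) (.e (nat_lit 163939) (nat_lit 18) (.e (nat_lit 475177) (nat_lit 24) (.e (nat_lit 516149) (nat_lit 9) (.e (nat_lit 426323) (nat_lit 13) (.e (nat_lit 483365) (nat_lit 18) (.e (nat_lit 57692) (nat_lit 156) .nil)))))) (.g (nat_lit 1) (.e (nat_lit 160924) (nat_lit 0) .nil) .nil))))) (.nd (nat_lit 8) (.nd (nat_lit 9) 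
(.lf (nat_lit 496878) (.g (nat_lit 3685) (.e (nat_lit 163908) (nat_lit 12) (.e (nat_lit 426171) (nat_lit 7) (.e (nat_lit 409617) (nat_lit 10) (.e (nat_lit 632) (nat_lit 50) (.e (nat_lit 573482) (nat_lit 13) (.e (nat_lit 65619) (nat_lit 10) (.e (nat_lit 344090) (nat_lit 18) (.e (nat_lit 7708) (nat_lit 414) .nil)))))))) (.g (nat_lit 1) (.e (nat_lit 156174) (nat_lit 0) .nil) .nil))) 
(.lf (nat_lit 497390) (.g (nat_lit 2209) (.e (nat_lit 163936) (nat_lit 18) (.e (nat_lit 475179) (nat_lit 24) (.e (nat_lit 516176) (nat_lit 14) (.e (nat_lit 466954) (nat_lit 11) (.e (nat_lit 335994) (nat_lit 1) (.e (nat_lit 57686) (nat_lit 156) .nil)))))) (.g (nat_lit 1) (.e (nat_lit 160767) (nat_lit 0) .nil) .nil)))) (.nd (nat_lit 9) 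
(.lf (nat_lit 497134) (.g (nat_lit 781) (.e (nat_lit 163915) (nat_lit 12) (.e (nat_lit 426186) (nat_lit 9) (.e (nat_lit 426542) (nat_lit 29) (.e (nat_lit 360192) (nat_lit 5) .nil)))) (.g (nat_lit 0) (.e (nat_lit 157126) (nat_lit 0) .nil) .nil))) 
(.lf (nat_lit 497646) (.g (nat_lit 885) (.e (nat_lit 163941) (nat_lit 19) (.e (nat_lit 483337) (nat_lit 9) (.e (nat_lit 426258) (nat_lit 9) .nil))) (.g (nat_lit 0) (.e (nat_lit 161149) (nat_lit 0) .nil) .nil)))))))) (.nd (nat_lit 5) (.nd (nat_lit 6) (.nd (nat_lit 7) (.nd (nat_lit 8) (.nd (nat_lit 9) 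
(.lf (nat_lit 496670) (.g (nat_lit 3281) (.e (nat_lit 163907) (nat_lit 12) (.e (nat_lit 426566) (nat_lit 34) (.e (nat_lit 393271) (nat_lit 23) (.e (nat_lit 426131) (nat_lit 3) (.e (nat_lit 204829) (nat_lit 18) (.e (nat_lit 57691) (nat_lit 156) .nil)))))) (.g (nat_lit 1) (.e (nat_lit 155920) (nat_lit 0) .nil) .nil))) 
(.lf (nat_lit 497182) (.g (nat_lit 2546) (.e (nat_lit 171776) (nat_lit 12) (.e (nat_lit 426139) (nat_lit 3) (.e (nat_lit 204869) (nat_lit 29) (.e (nat_lit 360475) (nat_lit 8) (.e (nat_lit 557089) (nat_lit 12) .nil))))) (.g (nat_lit 0) (.e (nat_lit 157363) (nat_lit 0) .nil) .nil)))) (.nd (nat_lit 9) 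
(.lf (nat_lit 496926) (.g (nat_lit 2895) (.e (nat_lit 163908) (nat_lit 12) (.e (nat_lit 426290) (nat_lit 10) (.e (nat_lit 434212) (nat_lit 18) (.e (nat_lit 6425) (nat_lit 342) (.e (nat_lit 229415) (nat_lit 15) (.e (nat_lit 450563) (nat_lit 0) (.e (nat_lit 6420) (nat_lit 341) .nil))))))) (.g (nat_lit 1) (.e (nat_lit 156459) (nat_lit 0) .nil) .nil))) 
(.lf (nat_lit 497438) (.g (nat_lit 1863) (.e (nat_lit 163938) (nat_lit 18) (.e (nat_lit 475177) (nat_lit 24) (.e (nat_lit 516176) (nat_lit 14) (.e (nat_lit 466954) (nat_lit 11) (.e (nat_lit 335995) (nat_lit 1) (.e (nat_lit 57687) (nat_lit 156) .nil)))))) (.g (nat_lit 1) (.e (nat_lit 160824) (nat_lit 0) .nil) .nil))))) (.nd (nat_lit 8) (.nd (nat_lit 9) 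
(.lf (nat_lit 496798) (.g (nat_lit 3035) (.e (nat_lit 163907) (nat_lit 12) (.e (nat_lit 426568) (nat_lit 34) (.e (nat_lit 393291) (nat_lit 26) (.e (nat_lit 475177) (nat_lit 24) (.e (nat_lit 516118) (nat_lit 1) (.e (nat_lit 164325) (nat_lit 230) .nil)))))) (.g (nat_lit 1) (.e (nat_lit 156048) (nat_lit 0) .nil) .nil))) 
(.lf (nat_lit 497310) (.g (nat_lit 1415) (.e (nat_lit 163931) (nat_lit 17) (.e (nat_lit 466974) (nat_lit 22) (.e (nat_lit 196654) (nat_lit 11) (.e (nat_lit 16407) (nat_lit 1) .nil)))) (.g (nat_lit 0) (.e (nat_lit 159780) (nat_lit 0) .nil) .nil)))) (.nd (nat_lit 9) 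
(.lf (nat_lit 497054) (.g (nat_lit 3827) (.e (nat_lit 163910) (nat_lit 12) (.e (nat_lit 426125) (nat_lit 2) (.e (nat_lit 196666) (nat_lit 13) (.e (nat_lit 65617) (nat_lit 10) (.e (nat_lit 344133) (nat_lit 26) .nil))))) (.g (nat_lit 0) (.e (nat_lit 156892) (nat_lit 0) .nil) .nil))) 
(.lf (nat_lit 497566) (.g (nat_lit 2797) (.e (nat_lit 163939) (nat_lit 18) (.e (nat_lit 475179) (nat_lit 24) (.e (nat_lit 516150) (nat_lit 9) (.e (nat_lit 426323) (nat_lit 13) (.e (nat_lit 483366) (nat_lit 18) (.e (nat_lit 57688) (nat_lit 156) .nil)))))) (.g (nat_lit 1) (.e (nat_lit 160981) (nat_lit 0) .nil) .nil)))))) (.nd (nat_lit 7) (.nd (nat_lit 8) (.nd (nat_lit 9) 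
(.lf (nat_lit 496734) (.g (nat_lit 1512) (.e (nat_lit 163907) (nat_lit 12) (.e (nat_lit 426566) (nat_lit 34) (.e (nat_lit 393296) (nat_lit 26) (.e (nat_lit 475176) (nat_lit 24) (.e (nat_lit 516118) (nat_lit 1) .nil))))) (.g (nat_lit 0) (.e (nat_lit 155984) (nat_lit 0) .nil) .nil))) 
(.lf (nat_lit 497246) (.g (nat_lit 1095) (.e (nat_lit 171776) (nat_lit 13) (.e (nat_lit 434248) (nat_lit 28) (.e (nat_lit 573452) (nat_lit 9) (.e (nat_lit 1675) (nat_lit 116) .nil)))) (.g (nat_lit 0) (.e (nat_lit 157785) (nat_lit 0) .nil) .nil)))) (.nd (nat_lit 9) 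
(.lf (nat_lit 496990) (.g (nat_lit 4747) (.e (nat_lit 163908) (nat_lit 12) (.e (nat_lit 426338) (nat_lit 14) (.e (nat_lit 491549) (nat_lit 9) (.e (nat_lit 336430) (nat_lit 29) (.e (nat_lit 442430) (nat_lit 24) (.e (nat_lit 229678) (nat_lit 244) .nil)))))) (.g (nat_lit 1) (.e (nat_lit 156720) (nat_lit 0) .nil) .nil))) 
(.lf (nat_lit 497502) (.g (nat_lit 2491) (.e (nat_lit 163938) (nat_lit 18) (.e (nat_lit 475185) (nat_lit 29) (.e (nat_lit 557100) (nat_lit 13) (.e (nat_lit 172113) (nat_lit 10) (.e (nat_lit 434248) (nat_lit 28) (.e (nat_lit 573473) (nat_lit 12) (.e (nat_lit 57347) (nat_lit 0) (.e (nat_lit 6943) (nat_lit 375) .nil)))))))) (.g (nat_lit 1) (.e (nat_lit 160907) (nat_lit 0) .nil) .nil))))) 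
(.nd (nat_lit 8) (.nd (nat_lit 9) 
(.lf (nat_lit 496862) (.g (nat_lit 2933) (.e (nat_lit 163908) (nat_lit 12) (.e (nat_lit 426136) (nat_lit 3) (.e (nat_lit 204869) (nat_lit 29) (.e (nat_lit 360475) (nat_lit 8) (.e (nat_lit 557089) (nat_lit 12) .nil))))) (.g (nat_lit 0) (.e (nat_lit 156131) (nat_lit 0) .nil) .nil))) 
(.lf (nat_lit 497374) (.g (nat_lit 1780) (.e (nat_lit 163936) (nat_lit 18) (.e (nat_lit 475179) (nat_lit 24) (.e (nat_lit 516150) (nat_lit 9) (.e (nat_lit 426323) (nat_lit 13) (.e (nat_lit 483364) (nat_lit 18) (.e (nat_lit 57685) (nat_lit 156) .nil)))))) (.g (nat_lit 1) (.e (nat_lit 160733) (nat_lit 0) .nil) .nil)))) (.nd (nat_lit 9) 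
(.lf (nat_lit 497118) (.g (nat_lit 1684) (.e (nat_lit 163914) (nat_lit 12) (.e (nat_lit 426306) (nat_lit 12) (.e (nat_lit 475210) (nat_lit 41) (.e (nat_lit 712753) (nat_lit 30) .nil)))) (.g (nat_lit 0) (.e (nat_lit 157054) (nat_lit 0) .nil) .nil))) 
(.lf (nat_lit 497630) (.g (nat_lit 3307) (.e (nat_lit 163941) (nat_lit 19) (.e (nat_lit 483337) (nat_lit 9) (.e (nat_lit 426190) (nat_lit 9) (.e (nat_lit 426436) (nat_lit 18) (.e (nat_lit 98335) (nat_lit 18) (.e (nat_lit 164324) (nat_lit 230) .nil)))))) (.g (nat_lit 1) (.e (nat_lit 161120) (nat_lit 0) .nil) .nil))))))) (.nd (nat_lit 6) (.nd (nat_lit 7) (.nd (nat_lit 8) (.nd (nat_lit 9) 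
(.lf (nat_lit 496702) (.g (nat_lit 2947) (.e (nat_lit 163907) (nat_lit 12) (.e (nat_lit 426566) (nat_lit 34) (.e (nat_lit 393286) (nat_lit 25) (.e (nat_lit 458789) (nat_lit 23) (.e (nat_lit 532499) (nat_lit 1) (.e (nat_lit 57692) (nat_lit 156) .nil)))))) (.g (nat_lit 1) (.e (nat_lit 155952) (nat_lit 0) .nil) .nil))) 
(.lf (nat_lit 497214) (.g (nat_lit 4062) (.e (nat_lit 163916) (nat_lit 13) (.e (nat_lit 434231) (nat_lit 23) (.e (nat_lit 532550) (nat_lit 12) (.e (nat_lit 360475) (nat_lit 8) (.e (nat_lit 557091) (nat_lit 12) (.e (nat_lit 163847) (nat_lit 0) (.e (nat_lit 6421) (nat_lit 341) .nil))))))) (.g (nat_lit 1) (.e (nat_lit 157490) (nat_lit 0) .nil) .nil)))) (.nd (nat_lit 9) 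
(.lf (nat_lit 496958) (.g (nat_lit 2474) (.e (nat_lit 163908) (nat_lit 12) (.e (nat_lit 426305) (nat_lit 12) (.e (nat_lit 475211) (nat_lit 41) (.e (nat_lit 712755) (nat_lit 30) (.e (nat_lit 450568) (nat_lit 0) (.e (nat_lit 5599) (nat_lit 310) .nil)))))) (.g (nat_lit 1) (.e (nat_lit 156524) (nat_lit 0) .nil) .nil))) 
(.lf (nat_lit 497470) (.g (nat_lit 2998) (.e (nat_lit 163938) (nat_lit 18) (.e (nat_lit 475179) (nat_lit 24) (.e (nat_lit 516174) (nat_lit 14) (.e (nat_lit 466954) (nat_lit 11) (.e (nat_lit 335996) (nat_lit 1) (.e (nat_lit 57692) (nat_lit 156) .nil)))))) (.g (nat_lit 1) (.e (nat_lit 160873) (nat_lit 0) .nil) .nil))))) (.nd (nat_lit 8) (.nd (nat_lit 9) 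
(.lf (nat_lit 496830) (.g (nat_lit 4187) (.e (nat_lit 163908) (nat_lit 12) (.e (nat_lit 426132) (nat_lit 3) (.e (nat_lit 204868) (nat_lit 29) (.e (nat_lit 360475) (nat_lit 8) (.e (nat_lit 557089) (nat_lit 12) (.e (nat_lit 163844) (nat_lit 0) (.e (nat_lit 6420) (nat_lit 341) .nil))))))) (.g (nat_lit 1) (.e (nat_lit 156099) (nat_lit 0) .nil) .nil))) 
(.lf (nat_lit 497342) (.g (nat_lit 1520) (.e (nat_lit 163935) (nat_lit 18) (.e (nat_lit 475179) (nat_lit 24) (.e (nat_lit 516176) (nat_lit 14) (.e (nat_lit 466954) (nat_lit 11) .nil)))) (.g (nat_lit 0) (.e (nat_lit 160695) (nat_lit 0) .nil) .nil)))) (.nd (nat_lit 9) 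
(.lf (nat_lit 497086) (.g (nat_lit 2219) (.e (nat_lit 163913) (nat_lit 12) (.e (nat_lit 426318) (nat_lit 12) (.e (nat_lit 475198) (nat_lit 40) (.e (nat_lit 704598) (nat_lit 6) (.e (nat_lit 188453) (nat_lit 24) (.e (nat_lit 229680) (nat_lit 244) .nil)))))) (.g (nat_lit 1) (.e (nat_lit 156972) (nat_lit 0) .nil) .nil))) 
(.lf (nat_lit 497598) (.g (nat_lit 3235) (.e (nat_lit 163939) (nat_lit 18) (.e (nat_lit 475179) (nat_lit 24) (.e (nat_lit 516176) (nat_lit 14) (.e (nat_lit 466954) (nat_lit 11) (.e (nat_lit 335996) (nat_lit 1) (.e (nat_lit 57691) (nat_lit 156) .nil)))))) (.g (nat_lit 1) (.e (nat_lit 161024) (nat_lit 0) .nil) .nil)))))) (.nd (nat_lit 7) (.nd (nat_lit 8) (.nd (nat_lit 9) 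
(.lf (nat_lit 496766) (.g (nat_lit 2715) (.e (nat_lit 163907) (nat_lit 12) (.e (nat_lit 426568) (nat_lit 34) (.e (nat_lit 393267) (nat_lit 23) (.e (nat_lit 426438) (nat_lit 18) (.e (nat_lit 98335) (nat_lit 18) (.e (nat_lit 164325) (nat_lit 230) .nil)))))) (.g (nat_lit 1) (.e (nat_lit 156016) (nat_lit 0) .nil) .nil))) 
(.lf (nat_lit 497278) (.g (nat_lit 964) (.e (nat_lit 163923) (nat_lit 15) (.e (nat_lit 450587) (nat_lit 10) (.e (nat_lit 573475) (nat_lit 12) (.e (nat_lit 57516) (nat_lit 42) .nil)))) (.g (nat_lit 0) (.e (nat_lit 158731) (nat_lit 0) .nil) .nil)))) (.nd (nat_lit 9) 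
(.lf (nat_lit 497022) (.g (nat_lit 3476) (.e (nat_lit 163909) (nat_lit 12) (.e (nat_lit 426125) (nat_lit 2) (.e (nat_lit 196666) (nat_lit 13) (.e (nat_lit 65610) (nat_lit 10) (.e (nat_lit 344117) (nat_lit 21) (.e (nat_lit 516099) (nat_lit 0) (.e (nat_lit 2416) (nat_lit 157) (.e (nat_lit 4541) (nat_lit 267) .nil)))))))) (.g (nat_lit 1) (.e (nat_lit 156827) (nat_lit 0) .nil) .nil))) 
(.lf (nat_lit 497534) (.g (nat_lit 2862) (.e (nat_lit 163939) (nat_lit 18) (.e (nat_lit 475177) (nat_lit 24) (.e (nat_lit 516174) (nat_lit 14) (.e (nat_lit 466954) (nat_lit 11) (.e (nat_lit 335994) (nat_lit 1) (.e (nat_lit 57688) (nat_lit 156) .nil)))))) (.g (nat_lit 1) (.e (nat_lit 160941) (nat_lit 0) .nil) .nil))))) (.nd (nat_lit 8) (.nd (nat_lit 9) 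
(.lf (nat_lit 496894) (.g (nat_lit 2415) (.e (nat_lit 163908) (nat_lit 12) (.e (nat_lit 426285) (nat_lit 10) (.e (nat_lit 434266) (nat_lit 35) (.e (nat_lit 630821) (nat_lit 16) (.e (nat_lit 65598) (nat_lit 9) (.e (nat_lit 335997) (nat_lit 1) (.e (nat_lit 57857) (nat_lit 254) .nil))))))) (.g (nat_lit 1) (.e (nat_lit 156333) (nat_lit 0) .nil) .nil))) 
(.lf (nat_lit 497406) (.g (nat_lit 1602) (.e (nat_lit 163937) (nat_lit 18) (.e (nat_lit 475179) (nat_lit 24) (.e (nat_lit 516176) (nat_lit 14) (.e (nat_lit 466954) (nat_lit 11) .nil)))) (.g (nat_lit 0) (.e (nat_lit 160792) (nat_lit 0) .nil) .nil)))) (.nd (nat_lit 9) 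
(.lf (nat_lit 497150) (.g (nat_lit 633) (.e (nat_lit 163915) (nat_lit 12) (.e (nat_lit 426306) (nat_lit 12) (.e (nat_lit 475209) (nat_lit 41) .nil))) (.g (nat_lit 0) (.e (nat_lit 157153) (nat_lit 0) .nil) .nil))) 
(.lf (nat_lit 497662) (.g (nat_lit 2203) (.e (nat_lit 163941) (nat_lit 19) (.e (nat_lit 483339) (nat_lit 9) (.e (nat_lit 426230) (nat_lit 9) (.e (nat_lit 426435) (nat_lit 18) (.e (nat_lit 98335) (nat_lit 18) (.e (nat_lit 164324) (nat_lit 230) .nil)))))) (.g (nat_lit 1) (.e (nat_lit 161222) (nat_lit 0) .nil) .nil)))))))))))) 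
(.nd (nat_lit 1) (.nd (nat_lit 2) (.nd (nat_lit 3) (.nd (nat_lit 4) (.nd (nat_lit 5) 
(.nd (nat_lit 6) (.nd (nat_lit 7) (.nd (nat_lit 8) (.nd (nat_lit 9) 
(.lf (nat_lit 496641) (.g (nat_lit 1846) (.e (nat_lit 163907) (nat_lit 12) (.e (nat_lit 426555) (nat_lit 32) (.e (nat_lit 376865) (nat_lit 22) (.e (nat_lit 90160) (nat_lit 11) (.e (nat_lit 24598) (nat_lit 1) .nil))))) (.g (nat_lit 0) (.e (nat_lit 155890) (nat_lit 0) .nil) .nil))) 
(.lf (nat_lit 497153) (.g (nat_lit 1875) (.e (nat_lit 163915) (nat_lit 12) (.e (nat_lit 426306) (nat_lit 12) (.e (nat_lit 475209) (nat_lit 41) (.e (nat_lit 712752) (nat_lit 29) (.e (nat_lit 442430) (nat_lit 24) (.e (nat_lit 229681) (nat_lit 244) .nil)))))) (.g (nat_lit 1) (.e (nat_lit 157156) (nat_lit 0) .nil) .nil)))) (.nd (nat_lit 9) 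
(.lf (nat_lit 496897) (.g (nat_lit 3489) (.e (nat_lit 163908) (nat_lit 12) (.e (nat_lit 426285) (nat_lit 10) (.e (nat_lit 434268) (nat_lit 36) (.e (nat_lit 639020) (nat_lit 16) (.e (nat_lit 65604) (nat_lit 9) (.e (nat_lit 335997) (nat_lit 1) (.e (nat_lit 57857) (nat_lit 254) .nil))))))) (.g (nat_lit 1) (.e (nat_lit 156336) (nat_lit 0) .nil) .nil))) 
(.lf (nat_lit 497409) (.g (nat_lit 1798) (.e (nat_lit 163938) (nat_lit 18) (.e (nat_lit 475176) (nat_lit 24) (.e (nat_lit 516176) (nat_lit 14) (.e (nat_lit 466954) (nat_lit 11) (.e (nat_lit 335986) (nat_lit 1) .nil))))) (.g (nat_lit 0) (.e (nat_lit 160795) (nat_lit 0) .nil) .nil))))) (.nd (nat_lit 8) (.nd (nat_lit 9) 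
(.lf (nat_lit 496769) (.g (nat_lit 2974) (.e (nat_lit 163907) (nat_lit 12) (.e (nat_lit 426568) (nat_lit 34) (.e (nat_lit 393268) (nat_lit 23) (.e (nat_lit 426438) (nat_lit 18) (.e (nat_lit 98335) (nat_lit 18) (.e (nat_lit 164325) (nat_lit 230) .nil)))))) (.g (nat_lit 1) (.e (nat_lit 156019) (nat_lit 0) .nil) .nil))) 
(.lf (nat_lit 497281) (.g (nat_lit 2312) (.e (nat_lit 163923) (nat_lit 15) (.e (nat_lit 450588) (nat_lit 10) (.e (nat_lit 573441) (nat_lit 0) (.e (nat_lit 2856) (nat_lit 184) (.e (nat_lit 426448) (nat_lit 20) .nil))))) (.g (nat_lit 0) (.e (nat_lit 158745) (nat_lit 0) .nil) .nil)))) (.nd (nat_lit 9) 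
(.lf (nat_lit 497025) (.g (nat_lit 4283) (.e (nat_lit 163909) (nat_lit 12) (.e (nat_lit 426125) (nat_lit 2) (.e (nat_lit 196666) (nat_lit 13) (.e (nat_lit 65610) (nat_lit 10) (.e (nat_lit 344129) (nat_lit 26) (.e (nat_lit 557090) (nat_lit 12) (.e (nat_lit 163843) (nat_lit 0) (.e (nat_lit 6421) (nat_lit 341) .nil)))))))) (.g (nat_lit 1) (.e (nat_lit 156832) (nat_lit 0) .nil) .nil))) 
(.lf (nat_lit 497537) (.g (nat_lit 1603) (.e (nat_lit 163939) (nat_lit 18) (.e (nat_lit 475177) (nat_lit 24) (.e (nat_lit 516176) (nat_lit 14) (.e (nat_lit 466950) (nat_lit 11) .nil)))) (.g (nat_lit 0) (.e (nat_lit 160944) (nat_lit 0) .nil) .nil)))))) (.nd (nat_lit 7) (.nd (nat_lit 8) (.nd (nat_lit 9) 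
(.lf (nat_lit 496705) (.g (nat_lit 2850) (.e (nat_lit 163907) (nat_lit 12) (.e (nat_lit 426566) (nat_lit 34) (.e (nat_lit 393286) (nat_lit 25) (.e (nat_lit 458789) (nat_lit 23) (.e (nat_lit 532504) (nat_lit 1) (.e (nat_lit 57692) (nat_lit 156) .nil)))))) (.g (nat_lit 1) (.e (nat_lit 155955) (nat_lit 0) .nil) .nil))) 
(.lf (nat_lit 497217) (.g (nat_lit 3270) (.e (nat_lit 163916) (nat_lit 13) (.e (nat_lit 434247) (nat_lit 28) (.e (nat_lit 573477) (nat_lit 12) (.e (nat_lit 57750) (nat_lit 201) (.e (nat_lit 3090) (nat_lit 191) (.e (nat_lit 483364) (nat_lit 18) (.e (nat_lit 57692) (nat_lit 156) .nil))))))) (.g (nat_lit 1) (.e (nat_lit 157510) (nat_lit 0) .nil) .nil)))) (.nd (nat_lit 9) 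
(.lf (nat_lit 496961) (.g (nat_lit 2417) (.e (nat_lit 163908) (nat_lit 12) (.e (nat_lit 426305) (nat_lit 12) (.e (nat_lit 475211) (nat_lit 41) (.e (nat_lit 712755) (nat_lit 30) (.e (nat_lit 450569) (nat_lit 0) (.e (nat_lit 5597) (nat_lit 310) .nil)))))) (.g (nat_lit 1) (.e (nat_lit 156527) (nat_lit 0) .nil) .nil))) 
(.lf (nat_lit 497473) (.g (nat_lit 1738) (.e (nat_lit 163938) (nat_lit 18) (.e (nat_lit 475179) (nat_lit 24) (.e (nat_lit 516176) (nat_lit 14) (.e (nat_lit 466953) (nat_lit 11) (.e (nat_lit 335995) (nat_lit 1) .nil))))) (.g (nat_lit 0) (.e (nat_lit 160877) (nat_lit 0) .nil) .nil))))) (.nd (nat_lit 8) (.nd (nat_lit 9) 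
(.lf (nat_lit 496833) (.g (nat_lit 3979) (.e (nat_lit 163908) (nat_lit 12) (.e (nat_lit 426132) (nat_lit 3) (.e (nat_lit 204868) (nat_lit 29) (.e (nat_lit 360475) (nat_lit 8) (.e (nat_lit 557091) (nat_lit 12) (.e (nat_lit 163847) (nat_lit 0) (.e (nat_lit 6416) (nat_lit 341) .nil))))))) (.g (nat_lit 1) (.e (nat_lit 156102) (nat_lit 0) .nil) .nil))) 
(.lf (nat_lit 497345) (.g (nat_lit 2332) (.e (nat_lit 163935) (nat_lit 18) (.e (nat_lit 475179) (nat_lit 24) (.e (nat_lit 516176) (nat_lit 14) (.e (nat_lit 466954) (nat_lit 11) (.e (nat_lit 335994) (nat_lit 1) .nil))))) (.g (nat_lit 0) (.e (nat_lit 160698) (nat_lit 0) .nil) .nil)))) (.nd (nat_lit 9) 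
(.lf (nat_lit 497089) (.g (nat_lit 1746) (.e (nat_lit 163913) (nat_lit 12) (.e (nat_lit 426318) (nat_lit 12) (.e (nat_lit 475198) (nat_lit 40) (.e (nat_lit 704598) (nat_lit 6) (.e (nat_lit 188455) (nat_lit 24) (.e (nat_lit 229681) (nat_lit 244) .nil)))))) (.g (nat_lit 1) (.e (nat_lit 156975) (nat_lit 0) .nil) .nil))) 
(.lf (nat_lit 497601) (.g (nat_lit 2581) (.e (nat_lit 163939) (nat_lit 18) (.e (nat_lit 475185) (nat_lit 29) (.e (nat_lit 557100) (nat_lit 13) (.e (nat_lit 172113) (nat_lit 10) (.e (nat_lit 434245) (nat_lit 28) .nil))))) (.g (nat_lit 0) (.e (nat_lit 161027) (nat_lit 0) .nil) .nil))))))) (.nd (nat_lit 6) (.nd (nat_lit 7) (.nd (nat_lit 8) (.nd (nat_lit 9) 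
(.lf (nat_lit 496673) (.g (nat_lit 3599) (.e (nat_lit 163907) (nat_lit 12) (.e (nat_lit 426566) (nat_lit 34) (.e (nat_lit 393271) (nat_lit 23) (.e (nat_lit 426131) (nat_lit 3) (.e (nat_lit 204830) (nat_lit 18) (.e (nat_lit 57692) (nat_lit 156) .nil)))))) (.g (nat_lit 1) (.e (nat_lit 155923) (nat_lit 0) .nil) .nil))) 
(.lf (nat_lit 497185) (.g (nat_lit 1990) (.e (nat_lit 171776) (nat_lit 12) (.e (nat_lit 426436) (nat_lit 18) (.e (nat_lit 98358) (nat_lit 26) (.e (nat_lit 426323) (nat_lit 13) .nil)))) (.g (nat_lit 0) (.e (nat_lit 157385) (nat_lit 0) .nil) .nil)))) (.nd (nat_lit 9) 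
(.lf (nat_lit 496929) (.g (nat_lit 2685) (.e (nat_lit 163908) (nat_lit 12) (.e (nat_lit 426305) (nat_lit 12) (.e (nat_lit 475197) (nat_lit 40) (.e (nat_lit 704598) (nat_lit 6) (.e (nat_lit 188453) (nat_lit 24) (.e (nat_lit 229678) (nat_lit 244) .nil)))))) (.g (nat_lit 1) (.e (nat_lit 156463) (nat_lit 0) .nil) .nil))) 
(.lf (nat_lit 497441) (.g (nat_lit 1952) (.e (nat_lit 163938) (nat_lit 18) (.e (nat_lit 475178) (nat_lit 24) (.e (nat_lit 516176) (nat_lit 14) (.e (nat_lit 466954) (nat_lit 11) (.e (nat_lit 335986) (nat_lit 1) .nil))))) (.g (nat_lit 0) (.e (nat_lit 160827) (nat_lit 0) .nil) .nil))))) (.nd (nat_lit 8) (.nd (nat_lit 9) 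
(.lf (nat_lit 496801) (.g (nat_lit 3407) (.e (nat_lit 163907) (nat_lit 12) (.e (nat_lit 426568) (nat_lit 34) (.e (nat_lit 393291) (nat_lit 26) (.e (nat_lit 475179) (nat_lit 24) (.e (nat_lit 516119) (nat_lit 1) (.e (nat_lit 164325) (nat_lit 230) .nil)))))) (.g (nat_lit 1) (.e (nat_lit 156051) (nat_lit 0) .nil) .nil))) 
(.lf (nat_lit 497313) (.g (nat_lit 1671) (.e (nat_lit 163931) (nat_lit 17) (.e (nat_lit 466977) (nat_lit 22) (.e (nat_lit 196656) (nat_lit 11) (.e (nat_lit 24320) (nat_lit 20) .nil)))) (.g (nat_lit 0) (.e (nat_lit 159783) (nat_lit 0) .nil) .nil)))) (.nd (nat_lit 9) 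
(.lf (nat_lit 497057) (.g (nat_lit 3671) (.e (nat_lit 163911) (nat_lit 12) (.e (nat_lit 426125) (nat_lit 2) (.e (nat_lit 196666) (nat_lit 13) (.e (nat_lit 65617) (nat_lit 10) (.e (nat_lit 344127) (nat_lit 26) .nil))))) (.g (nat_lit 0) (.e (nat_lit 156907) (nat_lit 0) .nil) .nil))) 
(.lf (nat_lit 497569) (.g (nat_lit 3012) (.e (nat_lit 163939) (nat_lit 18) (.e (nat_lit 475179) (nat_lit 24) (.e (nat_lit 516151) (nat_lit 9) (.e (nat_lit 426331) (nat_lit 13) (.e (nat_lit 483363) (nat_lit 18) (.e (nat_lit 57688) (nat_lit 156) .nil)))))) (.g (nat_lit 1) (.e (nat_lit 160984) (nat_lit 0) .nil) .nil)))))) (.nd (nat_lit 7) (.nd (nat_lit 8) (.nd (nat_lit 9) 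
(.lf (nat_lit 496737) (.g (nat_lit 3502) (.e (nat_lit 163907) (nat_lit 12) (.e (nat_lit 426566) (nat_lit 34) (.e (nat_lit 393296) (nat_lit 26) (.e (nat_lit 475177) (nat_lit 24) (.e (nat_lit 516115) (nat_lit 1) (.e (nat_lit 164327) (nat_lit 230) .nil)))))) (.g (nat_lit 1) (.e (nat_lit 155987) (nat_lit 0) .nil) .nil))) 
(.lf (nat_lit 497249) (.g (nat_lit 1166) (.e (nat_lit 163919) (nat_lit 14) (.e (nat_lit 442374) (nat_lit 0) (.e (nat_lit 2058) (nat_lit 142) (.e (nat_lit 704599) (nat_lit 6) .nil)))) (.g (nat_lit 0) (.e (nat_lit 157799) (nat_lit 0) .nil) .nil)))) (.nd (nat_lit 9) 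
(.lf (nat_lit 496993) (.g (nat_lit 3757) (.e (nat_lit 163908) (nat_lit 12) (.e (nat_lit 426338) (nat_lit 14) (.e (nat_lit 491549) (nat_lit 9) (.e (nat_lit 336430) (nat_lit 29) (.e (nat_lit 442430) (nat_lit 24) (.e (nat_lit 229681) (nat_lit 244) .nil)))))) (.g (nat_lit 1) (.e (nat_lit 156723) (nat_lit 0) .nil) .nil))) 
(.lf (nat_lit 497505) (.g (nat_lit 3177) (.e (nat_lit 163938) (nat_lit 18) (.e (nat_lit 475185) (nat_lit 29) (.e (nat_lit 557100) (nat_lit 13) (.e (nat_lit 172113) (nat_lit 10) (.e (nat_lit 434248) (nat_lit 28) (.e (nat_lit 573475) (nat_lit 12) (.e (nat_lit 57345) (nat_lit 0) (.e (nat_lit 6942) (nat_lit 375) .nil)))))))) (.g (nat_lit 1) (.e (nat_lit 160910) (nat_lit 0) .nil) .nil))))) 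
(.nd (nat_lit 8) (.nd (nat_lit 9) 
(.lf (nat_lit 496865) (.g (nat_lit 4027) (.e (nat_lit 163908) (nat_lit 12) (.e (nat_lit 426136) (nat_lit 3) (.e (nat_lit 204869) (nat_lit 29) (.e (nat_lit 360475) (nat_lit 8) (.e (nat_lit 557089) (nat_lit 12) (.e (nat_lit 163843) (nat_lit 0) (.e (nat_lit 6420) (nat_lit 341) .nil))))))) (.g (nat_lit 1) (.e (nat_lit 156134) (nat_lit 0) .nil) .nil))) 
(.lf (nat_lit 497377) (.g (nat_lit 1841) (.e (nat_lit 163936) (nat_lit 18) (.e (nat_lit 475179) (nat_lit 24) (.e (nat_lit 516150) (nat_lit 9) (.e (nat_lit 426323) (nat_lit 13) (.e (nat_lit 483366) (nat_lit 18) (.e (nat_lit 57686) (nat_lit 156) .nil)))))) (.g (nat_lit 1) (.e (nat_lit 160736) (nat_lit 0) .nil) .nil)))) (.nd (nat_lit 9) 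
(.lf (nat_lit 497121) (.g (nat_lit 1779) (.e (nat_lit 163914) (nat_lit 12) (.e (nat_lit 426306) (nat_lit 12) (.e (nat_lit 475211) (nat_lit 41) (.e (nat_lit 712755) (nat_lit 30) .nil)))) (.g (nat_lit 0) (.e (nat_lit 157057) (nat_lit 0) .nil) .nil))) 
(.lf (nat_lit 497633) (.g (nat_lit 2549) (.e (nat_lit 163941) (nat_lit 19) (.e (nat_lit 483337) (nat_lit 9) (.e (nat_lit 426190) (nat_lit 9) (.e (nat_lit 426436) (nat_lit 18) (.e (nat_lit 98335) (nat_lit 18) (.e (nat_lit 164327) (nat_lit 230) .nil)))))) (.g (nat_lit 1) (.e (nat_lit 161123) (nat_lit 0) .nil) .nil)))))))) 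
(.nd (nat_lit 5) (.nd (nat_lit 6) (.nd (nat_lit 7) (.nd (nat_lit 8) (.nd (nat_lit 9) 
(.lf (nat_lit 496657) (.g (nat_lit 2430) (.e (nat_lit 163907) (nat_lit 12) (.e (nat_lit 426566) (nat_lit 34) (.e (nat_lit 393266) (nat_lit 23) (.e (nat_lit 426140) (nat_lit 3) (.e (nat_lit 204828) (nat_lit 18) (.e (nat_lit 57691) (nat_lit 156) .nil)))))) (.g (nat_lit 1) (.e (nat_lit 155907) (nat_lit 0) .nil) .nil))) 
(.lf (nat_lit 497169) (.g (nat_lit 2930) (.e (nat_lit 171776) (nat_lit 12) (.e (nat_lit 426123) (nat_lit 2) (.e (nat_lit 196666) (nat_lit 13) (.e (nat_lit 65617) (nat_lit 10) (.e (nat_lit 344132) (nat_lit 26) .nil))))) (.g (nat_lit 0) (.e (nat_lit 157347) (nat_lit 0) .nil) .nil)))) (.nd (nat_lit 9) 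
(.lf (nat_lit 496913) (.g (nat_lit 3191) (.e (nat_lit 163908) (nat_lit 12) (.e (nat_lit 426286) (nat_lit 10) (.e (nat_lit 434271) (nat_lit 38) (.e (nat_lit 655380) (nat_lit 6) (.e (nat_lit 188453) (nat_lit 24) (.e (nat_lit 229678) (nat_lit 244) .nil)))))) (.g (nat_lit 1) (.e (nat_lit 156430) (nat_lit 0) .nil) .nil))) 
(.lf (nat_lit 497425) (.g (nat_lit 2578) (.e (nat_lit 163938) (nat_lit 18) (.e (nat_lit 475177) (nat_lit 24) (.e (nat_lit 516150) (nat_lit 9) (.e (nat_lit 426323) (nat_lit 13) (.e (nat_lit 483366) (nat_lit 18) (.e (nat_lit 57692) (nat_lit 156) .nil)))))) (.g (nat_lit 1) (.e (nat_lit 160811) (nat_lit 0) .nil) .nil))))) (.nd (nat_lit 8) (.nd (nat_lit 9) 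
(.lf (nat_lit 496785) (.g (nat_lit 2584) (.e (nat_lit 163907) (nat_lit 12) (.e (nat_lit 426568) (nat_lit 34) (.e (nat_lit 393279) (nat_lit 23) (.e (nat_lit 426435) (nat_lit 18) (.e (nat_lit 98333) (nat_lit 18) (.e (nat_lit 164325) (nat_lit 230) .nil)))))) (.g (nat_lit 1) (.e (nat_lit 156035) (nat_lit 0) .nil) .nil))) 
(.lf (nat_lit 497297) (.g (nat_lit 993) (.e (nat_lit 163923) (nat_lit 15) (.e (nat_lit 450597) (nat_lit 17) (.e (nat_lit 663580) (nat_lit 9) (.e (nat_lit 7936) (nat_lit 24) .nil)))) (.g (nat_lit 0) (.e (nat_lit 158783) (nat_lit 0) .nil) .nil)))) (.nd (nat_lit 9) 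
(.lf (nat_lit 497041) (.g (nat_lit 2755) (.e (nat_lit 163909) (nat_lit 12) (.e (nat_lit 426140) (nat_lit 3) (.e (nat_lit 204868) (nat_lit 29) (.e (nat_lit 360473) (nat_lit 8) (.e (nat_lit 557089) (nat_lit 12) (.e (nat_lit 163843) (nat_lit 0) (.e (nat_lit 6416) (nat_lit 341) .nil))))))) (.g (nat_lit 1) (.e (nat_lit 156862) (nat_lit 0) .nil) .nil))) 
(.lf (nat_lit 497553) (.g (nat_lit 2721) (.e (nat_lit 163939) (nat_lit 18) (.e (nat_lit 475179) (nat_lit 24) (.e (nat_lit 516146) (nat_lit 9) (.e (nat_lit 426323) (nat_lit 13) (.e (nat_lit 483366) (nat_lit 18) (.e (nat_lit 57688) (nat_lit 156) .nil)))))) (.g (nat_lit 1) (.e (nat_lit 160961) (nat_lit 0) .nil) .nil)))))) (.nd (nat_lit 7) (.nd (nat_lit 8) (.nd (nat_lit 9) 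
(.lf (nat_lit 496721) (.g (nat_lit 2757) (.e (nat_lit 163907) (nat_lit 12) (.e (nat_lit 426566) (nat_lit 34) (.e (nat_lit 393293) (nat_lit 26) (.e (nat_lit 475177) (nat_lit 24) (.e (nat_lit 516118) (nat_lit 1) (.e (nat_lit 164327) (nat_lit 230) .nil)))))) (.g (nat_lit 1) (.e (nat_lit 155971) (nat_lit 0) .nil) .nil))) 
(.lf (nat_lit 497233) (.g (nat_lit 5051) (.e (nat_lit 163917) (nat_lit 13) (.e (nat_lit 434231) (nat_lit 23) (.e (nat_lit 532550) (nat_lit 12) (.e (nat_lit 360475) (nat_lit 8) (.e (nat_lit 557091) (nat_lit 12) (.e (nat_lit 163843) (nat_lit 0) (.e (nat_lit 6421) (nat_lit 341) .nil))))))) (.g (nat_lit 1) (.e (nat_lit 157639) (nat_lit 0) .nil) .nil)))) (.nd (nat_lit 9) 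
(.lf (nat_lit 496977) (.g (nat_lit 4049) (.e (nat_lit 163908) (nat_lit 12) (.e (nat_lit 426338) (nat_lit 14) (.e (nat_lit 491540) (nat_lit 3) (.e (nat_lit 98373) (nat_lit 29) (.e (nat_lit 450562) (nat_lit 0) (.e (nat_lit 7936) (nat_lit 243) .nil)))))) (.g (nat_lit 1) (.e (nat_lit 156695) (nat_lit 0) .nil) .nil))) 
(.lf (nat_lit 497489) (.g (nat_lit 2944) (.e (nat_lit 163938) (nat_lit 18) (.e (nat_lit 475179) (nat_lit 24) (.e (nat_lit 516176) (nat_lit 14) (.e (nat_lit 466972) (nat_lit 21) (.e (nat_lit 164183) (nat_lit 154) (.e (nat_lit 65280) (nat_lit 62) (.e (nat_lit 164332) (nat_lit 230) .nil))))))) (.g (nat_lit 1) (.e (nat_lit 160893) (nat_lit 0) .nil) .nil))))) (.nd (nat_lit 8) (.nd (nat_lit 9) 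
(.lf (nat_lit 496849) (.g (nat_lit 4107) (.e (nat_lit 163908) (nat_lit 12) (.e (nat_lit 426132) (nat_lit 3) (.e (nat_lit 204869) (nat_lit 29) (.e (nat_lit 360475) (nat_lit 8) (.e (nat_lit 557091) (nat_lit 12) (.e (nat_lit 163843) (nat_lit 0) (.e (nat_lit 6418) (nat_lit 341) .nil))))))) (.g (nat_lit 1) (.e (nat_lit 156118) (nat_lit 0) .nil) .nil))) 
(.lf (nat_lit 497361) (.g (nat_lit 2577) (.e (nat_lit 163936) (nat_lit 18) (.e (nat_lit 475177) (nat_lit 24) (.e (nat_lit 516174) (nat_lit 14) (.e (nat_lit 466954) (nat_lit 11) (.e (nat_lit 335996) (nat_lit 1) (.e (nat_lit 57685) (nat_lit 156) .nil)))))) (.g (nat_lit 1) (.e (nat_lit 160716) (nat_lit 0) .nil) .nil)))) (.nd (nat_lit 9) 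
(.lf (nat_lit 497105) (.g (nat_lit 1898) (.e (nat_lit 163913) (nat_lit 12) (.e (nat_lit 426347) (nat_lit 14) (.e (nat_lit 491549) (nat_lit 9) (.e (nat_lit 336434) (nat_lit 30) .nil)))) (.g (nat_lit 0) (.e (nat_lit 157021) (nat_lit 0) .nil) .nil))) 
(.lf (nat_lit 497617) (.g (nat_lit 3936) (.e (nat_lit 163941) (nat_lit 19) (.e (nat_lit 483337) (nat_lit 9) (.e (nat_lit 426187) (nat_lit 9) (.e (nat_lit 426436) (nat_lit 18) (.e (nat_lit 98335) (nat_lit 18) (.e (nat_lit 164330) (nat_lit 230) .nil)))))) (.g (nat_lit 1) (.e (nat_lit 161090) (nat_lit 0) .nil) .nil))))))) (.nd (nat_lit 6) (.nd (nat_lit 7) (.nd (nat_lit 8) (.nd (nat_lit 9) 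
(.lf (nat_lit 496689) (.g (nat_lit 3106) (.e (nat_lit 163907) (nat_lit 12) (.e (nat_lit 426566) (nat_lit 34) (.e (nat_lit 393273) (nat_lit 23) (.e (nat_lit 426131) (nat_lit 3) (.e (nat_lit 204831) (nat_lit 18) (.e (nat_lit 57692) (nat_lit 156) .nil)))))) (.g (nat_lit 1) (.e (nat_lit 155939) (nat_lit 0) .nil) .nil))) 
(.lf (nat_lit 497201) (.g (nat_lit 2223) (.e (nat_lit 163916) (nat_lit 13) (.e (nat_lit 434231) (nat_lit 23) (.e (nat_lit 532550) (nat_lit 12) (.e (nat_lit 360474) (nat_lit 8) (.e (nat_lit 557093) (nat_lit 12) (.e (nat_lit 163847) (nat_lit 0) (.e (nat_lit 6418) (nat_lit 341) .nil))))))) (.g (nat_lit 1) (.e (nat_lit 157477) (nat_lit 0) .nil) .nil)))) (.nd (nat_lit 9) 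
(.lf (nat_lit 496945) (.g (nat_lit 1899) (.e (nat_lit 163908) (nat_lit 12) (.e (nat_lit 426305) (nat_lit 12) (.e (nat_lit 475211) (nat_lit 41) (.e (nat_lit 712750) (nat_lit 29) (.e (nat_lit 442430) (nat_lit 24) .nil))))) (.g (nat_lit 0) (.e (nat_lit 156511) (nat_lit 0) .nil) .nil))) 
(.lf (nat_lit 497457) (.g (nat_lit 3011) (.e (nat_lit 163938) (nat_lit 18) (.e (nat_lit 475179) (nat_lit 24) (.e (nat_lit 516150) (nat_lit 9) (.e (nat_lit 426323) (nat_lit 13) (.e (nat_lit 483365) (nat_lit 18) (.e (nat_lit 57692) (nat_lit 156) .nil)))))) (.g (nat_lit 1) (.e (nat_lit 160848) (nat_lit 0) .nil) .nil))))) (.nd (nat_lit 8) (.nd (nat_lit 9) 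
(.lf (nat_lit 496817) (.g (nat_lit 4743) (.e (nat_lit 163908) (nat_lit 12) (.e (nat_lit 426113) (nat_lit 2) (.e (nat_lit 196666) (nat_lit 13) (.e (nat_lit 65610) (nat_lit 10) (.e (nat_lit 344117) (nat_lit 21) (.e (nat_lit 516116) (nat_lit 1) (.e (nat_lit 171776) (nat_lit 270) .nil))))))) (.g (nat_lit 1) (.e (nat_lit 156069) (nat_lit 0) .nil) .nil))) 
(.lf (nat_lit 497329) (.g (nat_lit 1390) (.e (nat_lit 163933) (nat_lit 17) (.e (nat_lit 466977) (nat_lit 22) (.e (nat_lit 196624) (nat_lit 9) (.e (nat_lit 483) (nat_lit 38) .nil)))) (.g (nat_lit 0) (.e (nat_lit 160627) (nat_lit 0) .nil) .nil)))) (.nd (nat_lit 9) 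
(.lf (nat_lit 497073) (.g (nat_lit 1506) (.e (nat_lit 163913) (nat_lit 12) (.e (nat_lit 426129) (nat_lit 3) (.e (nat_lit 204869) (nat_lit 29) (.e (nat_lit 360473) (nat_lit 8) .nil)))) (.g (nat_lit 0) (.e (nat_lit 156957) (nat_lit 0) .nil) .nil))) 
(.lf (nat_lit 497585) (.g (nat_lit 3115) (.e (nat_lit 163939) (nat_lit 18) (.e (nat_lit 475179) (nat_lit 24) (.e (nat_lit 516176) (nat_lit 14) (.e (nat_lit 466954) (nat_lit 11) (.e (nat_lit 335986) (nat_lit 1) (.e (nat_lit 57688) (nat_lit 156) .nil)))))) (.g (nat_lit 1) (.e (nat_lit 161011) (nat_lit 0) .nil) .nil)))))) (.nd (nat_lit 7) (.nd (nat_lit 8) (.nd (nat_lit 9) 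
(.lf (nat_lit 496753) (.g (nat_lit 3207) (.e (nat_lit 163907) (nat_lit 12) (.e (nat_lit 426567) (nat_lit 34) (.e (nat_lit 393291) (nat_lit 26) (.e (nat_lit 475179) (nat_lit 24) (.e (nat_lit 516115) (nat_lit 1) (.e (nat_lit 164325) (nat_lit 230) .nil)))))) (.g (nat_lit 1) (.e (nat_lit 156003) (nat_lit 0) .nil) .nil))) 
(.lf (nat_lit 497265) (.g (nat_lit 569) (.e (nat_lit 163920) (nat_lit 14) (.e (nat_lit 442430) (nat_lit 24) (.e (nat_lit 229638) (nat_lit 228) .nil))) (.g (nat_lit 0) (.e (nat_lit 158133) (nat_lit 0) .nil) .nil)))) (.nd (nat_lit 9) 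
(.lf (nat_lit 497009) (.g (nat_lit 3034) (.e (nat_lit 163908) (nat_lit 12) (.e (nat_lit 426338) (nat_lit 14) (.e (nat_lit 491550) (nat_lit 9) (.e (nat_lit 336430) (nat_lit 29) (.e (nat_lit 442430) (nat_lit 24) (.e (nat_lit 229679) (nat_lit 244) .nil)))))) (.g (nat_lit 1) (.e (nat_lit 156741) (nat_lit 0) .nil) .nil))) 
(.lf (nat_lit 497521) (.g (nat_lit 2007) (.e (nat_lit 163939) (nat_lit 18) (.e (nat_lit 475177) (nat_lit 24) (.e (nat_lit 516149) (nat_lit 9) (.e (nat_lit 426323) (nat_lit 13) (.e (nat_lit 483366) (nat_lit 18) (.e (nat_lit 57692) (nat_lit 156) .nil)))))) (.g (nat_lit 1) (.e (nat_lit 160927) (nat_lit 0) .nil) .nil))))) (.nd (nat_lit 8) (.nd (nat_lit 9) 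
(.lf (nat_lit 496881) (.g (nat_lit 2019) (.e (nat_lit 163908) (nat_lit 12) (.e (nat_lit 426171) (nat_lit 7) (.e (nat_lit 409636) (nat_lit 14) (.e (nat_lit 270373) (nat_lit 16) (.e (nat_lit 286747) (nat_lit 9) (.e (nat_lit 335997) (nat_lit 1) (.e (nat_lit 57857) (nat_lit 254) .nil))))))) (.g (nat_lit 1) (.e (nat_lit 156183) (nat_lit 0) .nil) .nil))) 
(.lf (nat_lit 497393) (.g (nat_lit 2591) (.e (nat_lit 163936) (nat_lit 18) (.e (nat_lit 475179) (nat_lit 24) (.e (nat_lit 516176) (nat_lit 14) (.e (nat_lit 466954) (nat_lit 11) (.e (nat_lit 335995) (nat_lit 1) (.e (nat_lit 57686) (nat_lit 156) .nil)))))) (.g (nat_lit 1) (.e (nat_lit 160770) (nat_lit 0) .nil) .nil)))) (.nd (nat_lit 9) 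
(.lf (nat_lit 497137) (.g (nat_lit 950) (.e (nat_lit 163915) (nat_lit 12) (.e (nat_lit 426306) (nat_lit 12) (.e (nat_lit 475195) (nat_lit 40) (.e (nat_lit 704599) (nat_lit 6) .nil)))) (.g (nat_lit 0) (.e (nat_lit 157139) (nat_lit 0) .nil) .nil))) 
(.lf (nat_lit 497649) (.g (nat_lit 3695) (.e (nat_lit 163941) (nat_lit 19) (.e (nat_lit 483337) (nat_lit 9) (.e (nat_lit 426305) (nat_lit 12) (.e (nat_lit 475179) (nat_lit 24) (.e (nat_lit 516119) (nat_lit 1) (.e (nat_lit 164326) (nat_lit 230) .nil)))))) (.g (nat_lit 1) (.e (nat_lit 161161) (nat_lit 0) .nil) .nil))))))))) 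
(.nd (nat_lit 4) (.nd (nat_lit 5) (.nd (nat_lit 6) (.nd (nat_lit 7) (.nd (nat_lit 8) 
(.nd (nat_lit 9) 
(.lf (nat_lit 496649) (.g (nat_lit 2017) (.e (nat_lit 163907) (nat_lit 12) (.e (nat_lit 426555) (nat_lit 32) (.e (nat_lit 376869) (nat_lit 23) (.e (nat_lit 98317) (nat_lit 9) (.e (nat_lit 335987) (nat_lit 1) (.e (nat_lit 57927) (nat_lit 282) .nil)))))) (.g (nat_lit 1) (.e (nat_lit 155899) (nat_lit 0) .nil) .nil))) 
(.lf (nat_lit 497161) (.g (nat_lit 2753) (.e (nat_lit 163915) (nat_lit 12) (.e (nat_lit 426306) (nat_lit 12) (.e (nat_lit 475211) (nat_lit 41) (.e (nat_lit 712750) (nat_lit 29) (.e (nat_lit 442430) (nat_lit 24) (.e (nat_lit 229679) (nat_lit 244) .nil)))))) (.g (nat_lit 1) (.e (nat_lit 157169) (nat_lit 0) .nil) .nil)))) (.nd (nat_lit 9) 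
(.lf (nat_lit 496905) (.g (nat_lit 2106) (.e (nat_lit 163908) (nat_lit 12) (.e (nat_lit 426286) (nat_lit 10) (.e (nat_lit 434241) (nat_lit 27) (.e (nat_lit 565267) (nat_lit 4) (.e (nat_lit 65610) (nat_lit 10) (.e (nat_lit 344090) (nat_lit 18) (.e (nat_lit 7708) (nat_lit 414) .nil))))))) (.g (nat_lit 1) (.e (nat_lit 156422) (nat_lit 0) .nil) .nil))) 
(.lf (nat_lit 497417) (.g (nat_lit 2035) (.e (nat_lit 163938) (nat_lit 18) (.e (nat_lit 475177) (nat_lit 24) (.e (nat_lit 516149) (nat_lit 9) (.e (nat_lit 426323) (nat_lit 13) (.e (nat_lit 483366) (nat_lit 18) (.e (nat_lit 57692) (nat_lit 156) .nil)))))) (.g (nat_lit 1) (.e (nat_lit 160803) (nat_lit 0) .nil) .nil))))) (.nd (nat_lit 8) (.nd (nat_lit 9) 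
(.lf (nat_lit 496777) (.g (nat_lit 3092) (.e (nat_lit 163907) (nat_lit 12) (.e (nat_lit 426568) (nat_lit 34) (.e (nat_lit 393271) (nat_lit 23) (.e (nat_lit 426131) (nat_lit 3) (.e (nat_lit 204830) (nat_lit 18) (.e (nat_lit 57685) (nat_lit 156) .nil)))))) (.g (nat_lit 1) (.e (nat_lit 156027) (nat_lit 0) .nil) .nil))) 
(.lf (nat_lit 497289) (.g (nat_lit 2074) (.e (nat_lit 163923) (nat_lit 15) (.e (nat_lit 450588) (nat_lit 10) (.e (nat_lit 573475) (nat_lit 12) (.e (nat_lit 57360) (nat_lit 0) .nil)))) (.g (nat_lit 0) (.e (nat_lit 158759) (nat_lit 0) .nil) .nil)))) (.nd (nat_lit 9) 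
(.lf (nat_lit 497033) (.g (nat_lit 3919) (.e (nat_lit 163909) (nat_lit 12) (.e (nat_lit 426125) (nat_lit 2) (.e (nat_lit 196666) (nat_lit 13) (.e (nat_lit 65617) (nat_lit 10) (.e (nat_lit 344130) (nat_lit 26) (.e (nat_lit 557089) (nat_lit 12) (.e (nat_lit 163849) (nat_lit 0) (.e (nat_lit 6420) (nat_lit 341) .nil)))))))) (.g (nat_lit 1) (.e (nat_lit 156840) (nat_lit 0) .nil) .nil))) 
(.lf (nat_lit 497545) (.g (nat_lit 3405) (.e (nat_lit 163939) (nat_lit 18) (.e (nat_lit 475177) (nat_lit 24) (.e (nat_lit 516176) (nat_lit 14) (.e (nat_lit 466954) (nat_lit 11) (.e (nat_lit 335996) (nat_lit 1) (.e (nat_lit 57691) (nat_lit 156) .nil)))))) (.g (nat_lit 1) (.e (nat_lit 160952) (nat_lit 0) .nil) .nil)))))) (.nd (nat_lit 7) (.nd (nat_lit 8) (.nd (nat_lit 9) 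
(.lf (nat_lit 496713) (.g (nat_lit 2291) (.e (nat_lit 163907) (nat_lit 12) (.e (nat_lit 426566) (nat_lit 34) (.e (nat_lit 393289) (nat_lit 25) (.e (nat_lit 458789) (nat_lit 23) (.e (nat_lit 532504) (nat_lit 1) (.e (nat_lit 57692) (nat_lit 156) .nil)))))) (.g (nat_lit 1) (.e (nat_lit 155963) (nat_lit 0) .nil) .nil))) 
(.lf (nat_lit 497225) (.g (nat_lit 1859) (.e (nat_lit 163917) (nat_lit 13) (.e (nat_lit 434231) (nat_lit 23) (.e (nat_lit 532550) (nat_lit 12) (.e (nat_lit 360474) (nat_lit 8) (.e (nat_lit 557094) (nat_lit 12) .nil))))) (.g (nat_lit 0) (.e (nat_lit 157631) (nat_lit 0) .nil) .nil)))) (.nd (nat_lit 9) 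
(.lf (nat_lit 496969) (.g (nat_lit 2867) (.e (nat_lit 163908) (nat_lit 12) (.e (nat_lit 426312) (nat_lit 12) (.e (nat_lit 475199) (nat_lit 40) (.e (nat_lit 704598) (nat_lit 6) (.e (nat_lit 188455) (nat_lit 24) (.e (nat_lit 229677) (nat_lit 244) .nil)))))) (.g (nat_lit 1) (.e (nat_lit 156535) (nat_lit 0) .nil) .nil))) 
(.lf (nat_lit 497481) (.g (nat_lit 2370) (.e (nat_lit 163938) (nat_lit 18) (.e (nat_lit 475179) (nat_lit 24) (.e (nat_lit 516176) (nat_lit 14) (.e (nat_lit 466954) (nat_lit 11) (.e (nat_lit 335993) (nat_lit 1) .nil))))) (.g (nat_lit 0) (.e (nat_lit 160885) (nat_lit 0) .nil) .nil))))) (.nd (nat_lit 8) (.nd (nat_lit 9) 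
(.lf (nat_lit 496841) (.g (nat_lit 1810) (.e (nat_lit 163908) (nat_lit 12) (.e (nat_lit 426132) (nat_lit 3) (.e (nat_lit 204869) (nat_lit 29) (.e (nat_lit 360474) (nat_lit 8) (.e (nat_lit 557094) (nat_lit 12) .nil))))) (.g (nat_lit 0) (.e (nat_lit 156110) (nat_lit 0) .nil) .nil))) 
(.lf (nat_lit 497353) (.g (nat_lit 1131) (.e (nat_lit 163936) (nat_lit 18) (.e (nat_lit 475177) (nat_lit 24) (.e (nat_lit 516149) (nat_lit 9) (.e (nat_lit 426323) (nat_lit 13) (.e (nat_lit 483366) (nat_lit 18) .nil))))) (.g (nat_lit 0) (.e (nat_lit 160706) (nat_lit 0) .nil) .nil)))) (.nd (nat_lit 9) 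
(.lf (nat_lit 497097) (.g (nat_lit 2586) (.e (nat_lit 163913) (nat_lit 12) (.e (nat_lit 426318) (nat_lit 12) (.e (nat_lit 475211) (nat_lit 41) (.e (nat_lit 712753) (nat_lit 30) (.e (nat_lit 450569) (nat_lit 0) (.e (nat_lit 5599) (nat_lit 310) .nil)))))) (.g (nat_lit 1) (.e (nat_lit 156993) (nat_lit 0) .nil) .nil))) 
(.lf (nat_lit 497609) (.g (nat_lit 2982) (.e (nat_lit 163939) (nat_lit 18) (.e (nat_lit 475185) (nat_lit 29) (.e (nat_lit 557101) (nat_lit 13) (.e (nat_lit 172115) (nat_lit 10) (.e (nat_lit 434244) (nat_lit 28) (.e (nat_lit 573473) (nat_lit 12) (.e (nat_lit 57348) (nat_lit 0) (.e (nat_lit 6938) (nat_lit 375) .nil)))))))) (.g (nat_lit 1) (.e (nat_lit 161035) (nat_lit 0) .nil) .nil))))))) 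
(.nd (nat_lit 6) (.nd (nat_lit 7) (.nd (nat_lit 8) (.nd (nat_lit 9) 
(.lf (nat_lit 496681) (.g (nat_lit 2821) (.e (nat_lit 163907) (nat_lit 12) (.e (nat_lit 426566) (nat_lit 34) (.e (nat_lit 393271) (nat_lit 23) (.e (nat_lit 426438) (nat_lit 18) (.e (nat_lit 98335) (nat_lit 18) (.e (nat_lit 164327) (nat_lit 230) .nil)))))) (.g (nat_lit 1) (.e (nat_lit 155931) (nat_lit 0) .nil) .nil))) 
(.lf (nat_lit 497193) (.g (nat_lit 735) (.e (nat_lit 171776) (nat_lit 12) (.e (nat_lit 426566) (nat_lit 34) (.e (nat_lit 393289) (nat_lit 25) .nil))) (.g (nat_lit 0) (.e (nat_lit 157393) (nat_lit 0) .nil) .nil)))) (.nd (nat_lit 9) 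
(.lf (nat_lit 496937) (.g (nat_lit 2897) (.e (nat_lit 163908) (nat_lit 12) (.e (nat_lit 426305) (nat_lit 12) (.e (nat_lit 475198) (nat_lit 40) (.e (nat_lit 704599) (nat_lit 6) (.e (nat_lit 188455) (nat_lit 24) (.e (nat_lit 229677) (nat_lit 244) .nil)))))) (.g (nat_lit 1) (.e (nat_lit 156472) (nat_lit 0) .nil) .nil))) 
(.lf (nat_lit 497449) (.g (nat_lit 2619) (.e (nat_lit 163938) (nat_lit 18) (.e (nat_lit 475179) (nat_lit 24) (.e (nat_lit 516146) (nat_lit 9) (.e (nat_lit 426323) (nat_lit 13) (.e (nat_lit 483366) (nat_lit 18) (.e (nat_lit 57692) (nat_lit 156) .nil)))))) (.g (nat_lit 1) (.e (nat_lit 160836) (nat_lit 0) .nil) .nil))))) (.nd (nat_lit 8) (.nd (nat_lit 9) 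
(.lf (nat_lit 496809) (.g (nat_lit 4187) (.e (nat_lit 163907) (nat_lit 12) (.e (nat_lit 426568) (nat_lit 34) (.e (nat_lit 393294) (nat_lit 26) (.e (nat_lit 475177) (nat_lit 24) (.e (nat_lit 516115) (nat_lit 1) (.e (nat_lit 164325) (nat_lit 230) .nil)))))) (.g (nat_lit 1) (.e (nat_lit 156059) (nat_lit 0) .nil) .nil))) 
(.lf (nat_lit 497321) (.g (nat_lit 3571) (.e (nat_lit 163933) (nat_lit 17) (.e (nat_lit 466971) (nat_lit 21) (.e (nat_lit 164403) (nat_lit 256) (.e (nat_lit 57440) (nat_lit 18) (.e (nat_lit 385109) (nat_lit 51) (.e (nat_lit 802560) (nat_lit 1) (.e (nat_lit 57927) (nat_lit 282) .nil))))))) (.g (nat_lit 1) (.e (nat_lit 160614) (nat_lit 0) .nil) .nil)))) (.nd (nat_lit 9) 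
(.lf (nat_lit 497065) (.g (nat_lit 2459) (.e (nat_lit 163911) (nat_lit 12) (.e (nat_lit 426140) (nat_lit 3) (.e (nat_lit 204869) (nat_lit 29) (.e (nat_lit 360474) (nat_lit 8) (.e (nat_lit 557093) (nat_lit 12) .nil))))) (.g (nat_lit 0) (.e (nat_lit 156919) (nat_lit 0) .nil) .nil))) 
(.lf (nat_lit 497577) (.g (nat_lit 2139) (.e (nat_lit 163939) (nat_lit 18) (.e (nat_lit 475179) (nat_lit 24) (.e (nat_lit 516174) (nat_lit 14) (.e (nat_lit 466954) (nat_lit 11) (.e (nat_lit 335993) (nat_lit 1) .nil))))) (.g (nat_lit 0) (.e (nat_lit 161003) (nat_lit 0) .nil) .nil)))))) (.nd (nat_lit 7) (.nd (nat_lit 8) (.nd (nat_lit 9) 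
(.lf (nat_lit 496745) (.g (nat_lit 3646) (.e (nat_lit 163907) (nat_lit 12) (.e (nat_lit 426566) (nat_lit 34) (.e (nat_lit 393296) (nat_lit 26) (.e (nat_lit 475178) (nat_lit 24) (.e (nat_lit 516119) (nat_lit 1) (.e (nat_lit 164327) (nat_lit 230) .nil)))))) (.g (nat_lit 1) (.e (nat_lit 155995) (nat_lit 0) .nil) .nil))) 
(.lf (nat_lit 497257) (.g (nat_lit 1945) (.e (nat_lit 163920) (nat_lit 14) (.e (nat_lit 442374) (nat_lit 0) (.e (nat_lit 2175) (nat_lit 143) (.e (nat_lit 712755) (nat_lit 30) (.e (nat_lit 450562) (nat_lit 0) .nil))))) (.g (nat_lit 0) (.e (nat_lit 157962) (nat_lit 0) .nil) .nil)))) (.nd (nat_lit 9) 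
(.lf (nat_lit 497001) (.g (nat_lit 1795) (.e (nat_lit 163908) (nat_lit 12) (.e (nat_lit 426338) (nat_lit 14) (.e (nat_lit 491549) (nat_lit 9) (.e (nat_lit 336443) (nat_lit 32) .nil)))) (.g (nat_lit 0) (.e (nat_lit 156731) (nat_lit 0) .nil) .nil))) 
(.lf (nat_lit 497513) (.g (nat_lit 1962) (.e (nat_lit 163939) (nat_lit 18) (.e (nat_lit 475177) (nat_lit 24) (.e (nat_lit 516149) (nat_lit 9) (.e (nat_lit 426323) (nat_lit 13) (.e (nat_lit 483364) (nat_lit 18) (.e (nat_lit 57690) (nat_lit 156) .nil)))))) (.g (nat_lit 1) (.e (nat_lit 160919) (nat_lit 0) .nil) .nil))))) (.nd (nat_lit 8) (.nd (nat_lit 9) 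
(.lf (nat_lit 496873) (.g (nat_lit 1098) (.e (nat_lit 163908) (nat_lit 12) (.e (nat_lit 426170) (nat_lit 7) (.e (nat_lit 409635) (nat_lit 14) (.e (nat_lit 270372) (nat_lit 16) (.e (nat_lit 286747) (nat_lit 9) (.e (nat_lit 335997) (nat_lit 1) (.e (nat_lit 57857) (nat_lit 254) .nil))))))) (.g (nat_lit 1) (.e (nat_lit 156148) (nat_lit 0) .nil) .nil))) 
(.lf (nat_lit 497385) (.g (nat_lit 1176) (.e (nat_lit 163936) (nat_lit 18) (.e (nat_lit 475179) (nat_lit 24) (.e (nat_lit 516176) (nat_lit 14) (.e (nat_lit 466950) (nat_lit 11) .nil)))) (.g (nat_lit 0) (.e (nat_lit 160762) (nat_lit 0) .nil) .nil)))) (.nd (nat_lit 9) 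
(.lf (nat_lit 497129) (.g (nat_lit 3685) (.e (nat_lit 163915) (nat_lit 12) (.e (nat_lit 426133) (nat_lit 3) (.e (nat_lit 204868) (nat_lit 29) (.e (nat_lit 360475) (nat_lit 8) (.e (nat_lit 557091) (nat_lit 12) (.e (nat_lit 163843) (nat_lit 0) (.e (nat_lit 6421) (nat_lit 341) .nil))))))) (.g (nat_lit 1) (.e (nat_lit 157120) (nat_lit 0) .nil) .nil))) 
(.lf (nat_lit 497641) (.g (nat_lit 2281) (.e (nat_lit 163941) (nat_lit 19) (.e (nat_lit 483337) (nat_lit 9) (.e (nat_lit 426200) (nat_lit 9) (.e (nat_lit 426436) (nat_lit 18) (.e (nat_lit 98335) (nat_lit 18) (.e (nat_lit 164329) (nat_lit 230) .nil)))))) (.g (nat_lit 1) (.e (nat_lit 161139) (nat_lit 0) .nil) .nil)))))))) 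
(.nd (nat_lit 5) (.nd (nat_lit 6) (.nd (nat_lit 7) (.nd (nat_lit 8) (.nd (nat_lit 9) 
(.lf (nat_lit 496665) (.g (nat_lit 3110) (.e (nat_lit 163907) (nat_lit 12) (.e (nat_lit 426566) (nat_lit 34) (.e (nat_lit 393270) (nat_lit 23) (.e (nat_lit 426436) (nat_lit 18) (.e (nat_lit 98333) (nat_lit 18) (.e (nat_lit 164327) (nat_lit 230) .nil)))))) (.g (nat_lit 1) (.e (nat_lit 155915) (nat_lit 0) .nil) .nil))) 
(.lf (nat_lit 497177) (.g (nat_lit 1799) (.e (nat_lit 171776) (nat_lit 12) (.e (nat_lit 426139) (nat_lit 3) (.e (nat_lit 204869) (nat_lit 29) (.e (nat_lit 360473) (nat_lit 8) .nil)))) (.g (nat_lit 0) (.e (nat_lit 157358) (nat_lit 0) .nil) .nil)))) (.nd (nat_lit 9) 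
(.lf (nat_lit 496921) (.g (nat_lit 3567) (.e (nat_lit 163908) (nat_lit 12) (.e (nat_lit 426286) (nat_lit 10) (.e (nat_lit 434289) (nat_lit 43) (.e (nat_lit 696344) (nat_lit 8) (.e (nat_lit 172113) (nat_lit 10) (.e (nat_lit 434207) (nat_lit 18) (.e (nat_lit 6416) (nat_lit 341) .nil))))))) (.g (nat_lit 1) (.e (nat_lit 156454) (nat_lit 0) .nil) .nil))) 
(.lf (nat_lit 497433) (.g (nat_lit 3054) (.e (nat_lit 163938) (nat_lit 18) (.e (nat_lit 475177) (nat_lit 24) (.e (nat_lit 516176) (nat_lit 14) (.e (nat_lit 466954) (nat_lit 11) (.e (nat_lit 335986) (nat_lit 1) (.e (nat_lit 57688) (nat_lit 156) .nil)))))) (.g (nat_lit 1) (.e (nat_lit 160819) (nat_lit 0) .nil) .nil))))) (.nd (nat_lit 8) (.nd (nat_lit 9) 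
(.lf (nat_lit 496793) (.g (nat_lit 2194) (.e (nat_lit 163907) (nat_lit 12) (.e (nat_lit 426568) (nat_lit 34) (.e (nat_lit 393286) (nat_lit 25) (.e (nat_lit 458789) (nat_lit 23) (.e (nat_lit 532501) (nat_lit 1) (.e (nat_lit 57685) (nat_lit 156) .nil)))))) (.g (nat_lit 1) (.e (nat_lit 156043) (nat_lit 0) .nil) .nil))) 
(.lf (nat_lit 497305) (.g (nat_lit 724) (.e (nat_lit 163927) (nat_lit 16) (.e (nat_lit 458789) (nat_lit 23) (.e (nat_lit 532549) (nat_lit 12) .nil))) (.g (nat_lit 0) (.e (nat_lit 159010) (nat_lit 0) .nil) .nil)))) (.nd (nat_lit 9) 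
(.lf (nat_lit 497049) (.g (nat_lit 3399) (.e (nat_lit 163909) (nat_lit 12) (.e (nat_lit 426140) (nat_lit 3) (.e (nat_lit 204869) (nat_lit 29) (.e (nat_lit 360475) (nat_lit 8) (.e (nat_lit 557089) (nat_lit 12) (.e (nat_lit 163843) (nat_lit 0) (.e (nat_lit 6421) (nat_lit 341) .nil))))))) (.g (nat_lit 1) (.e (nat_lit 156870) (nat_lit 0) .nil) .nil))) 
(.lf (nat_lit 497561) (.g (nat_lit 1827) (.e (nat_lit 163939) (nat_lit 18) (.e (nat_lit 475179) (nat_lit 24) (.e (nat_lit 516150) (nat_lit 9) (.e (nat_lit 426323) (nat_lit 13) (.e (nat_lit 483365) (nat_lit 18) (.e (nat_lit 57687) (nat_lit 156) .nil)))))) (.g (nat_lit 1) (.e (nat_lit 160976) (nat_lit 0) .nil) .nil)))))) (.nd (nat_lit 7) (.nd (nat_lit 8) (.nd (nat_lit 9) 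
(.lf (nat_lit 496729) (.g (nat_lit 3284) (.e (nat_lit 163907) (nat_lit 12) (.e (nat_lit 426566) (nat_lit 34) (.e (nat_lit 393295) (nat_lit 26) (.e (nat_lit 475177) (nat_lit 24) (.e (nat_lit 516115) (nat_lit 1) (.e (nat_lit 164327) (nat_lit 230) .nil)))))) (.g (nat_lit 1) (.e (nat_lit 155979) (nat_lit 0) .nil) .nil))) 
(.lf (nat_lit 497241) (.g (nat_lit 3254) (.e (nat_lit 163918) (nat_lit 13) (.e (nat_lit 434231) (nat_lit 23) (.e (nat_lit 532550) (nat_lit 12) (.e (nat_lit 360474) (nat_lit 8) (.e (nat_lit 557093) (nat_lit 12) .nil))))) (.g (nat_lit 0) (.e (nat_lit 157769) (nat_lit 0) .nil) .nil)))) (.nd (nat_lit 9) 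
(.lf (nat_lit 496985) (.g (nat_lit 3158) (.e (nat_lit 163908) (nat_lit 12) (.e (nat_lit 426338) (nat_lit 14) (.e (nat_lit 491549) (nat_lit 9) (.e (nat_lit 336428) (nat_lit 29) (.e (nat_lit 442428) (nat_lit 24) (.e (nat_lit 229680) (nat_lit 244) .nil)))))) (.g (nat_lit 1) (.e (nat_lit 156713) (nat_lit 0) .nil) .nil))) 
(.lf (nat_lit 497497) (.g (nat_lit 4046) (.e (nat_lit 163938) (nat_lit 18) (.e (nat_lit 475185) (nat_lit 29) (.e (nat_lit 557100) (nat_lit 13) (.e (nat_lit 172113) (nat_lit 10) (.e (nat_lit 434245) (nat_lit 28) (.e (nat_lit 573474) (nat_lit 12) (.e (nat_lit 57347) (nat_lit 0) (.e (nat_lit 6942) (nat_lit 375) .nil)))))))) (.g (nat_lit 1) (.e (nat_lit 160902) (nat_lit 0) .nil) .nil))))) 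
(.nd (nat_lit 8) (.nd (nat_lit 9) 
(.lf (nat_lit 496857) (.g (nat_lit 2546) (.e (nat_lit 163908) (nat_lit 12) (.e (nat_lit 426136) (nat_lit 3) (.e (nat_lit 204868) (nat_lit 29) (.e (nat_lit 360475) (nat_lit 8) (.e (nat_lit 557089) (nat_lit 12) .nil))))) (.g (nat_lit 0) (.e (nat_lit 156126) (nat_lit 0) .nil) .nil))) 
(.lf (nat_lit 497369) (.g (nat_lit 2196) (.e (nat_lit 163936) (nat_lit 18) (.e (nat_lit 475179) (nat_lit 24) (.e (nat_lit 516146) (nat_lit 9) (.e (nat_lit 426323) (nat_lit 13) (.e (nat_lit 483365) (nat_lit 18) (.e (nat_lit 57686) (nat_lit 156) .nil)))))) (.g (nat_lit 1) (.e (nat_lit 160724) (nat_lit 0) .nil) .nil)))) (.nd (nat_lit 9) 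
(.lf (nat_lit 497113) (.g (nat_lit 2801) (.e (nat_lit 163913) (nat_lit 12) (.e (nat_lit 426503) (nat_lit 27) (.e (nat_lit 336387) (nat_lit 27) (.e (nat_lit 426308) (nat_lit 12) (.e (nat_lit 475177) (nat_lit 24) (.e (nat_lit 516120) (nat_lit 1) (.e (nat_lit 164330) (nat_lit 230) .nil))))))) (.g (nat_lit 1) (.e (nat_lit 157029) (nat_lit 0) .nil) .nil))) 
(.lf (nat_lit 497625) (.g (nat_lit 3865) (.e (nat_lit 163941) (nat_lit 19) (.e (nat_lit 483337) (nat_lit 9) (.e (nat_lit 426189) (nat_lit 9) (.e (nat_lit 426436) (nat_lit 18) (.e (nat_lit 98335) (nat_lit 18) (.e (nat_lit 164324) (nat_lit 230) .nil)))))) (.g (nat_lit 1) (.e (nat_lit 161108) (nat_lit 0) .nil) .nil))))))) (.nd (nat_lit 6) (.nd (nat_lit 7) (.nd (nat_lit 8) (.nd (nat_lit 9) 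
(.lf (nat_lit 496697) (.g (nat_lit 2812) (.e (nat_lit 163907) (nat_lit 12) (.e (nat_lit 426566) (nat_lit 34) (.e (nat_lit 393279) (nat_lit 23) (.e (nat_lit 426129) (nat_lit 3) (.e (nat_lit 204829) (nat_lit 18) (.e (nat_lit 57692) (nat_lit 156) .nil)))))) (.g (nat_lit 1) (.e (nat_lit 155947) (nat_lit 0) .nil) .nil))) 
(.lf (nat_lit 497209) (.g (nat_lit 3299) (.e (nat_lit 163916) (nat_lit 13) (.e (nat_lit 434231) (nat_lit 23) (.e (nat_lit 532550) (nat_lit 12) (.e (nat_lit 360475) (nat_lit 8) (.e (nat_lit 557089) (nat_lit 12) (.e (nat_lit 163843) (nat_lit 0) (.e (nat_lit 6420) (nat_lit 341) .nil))))))) (.g (nat_lit 1) (.e (nat_lit 157485) (nat_lit 0) .nil) .nil)))) (.nd (nat_lit 9) 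
(.lf (nat_lit 496953) (.g (nat_lit 2476) (.e (nat_lit 163908) (nat_lit 12) (.e (nat_lit 426305) (nat_lit 12) (.e (nat_lit 475211) (nat_lit 41) (.e (nat_lit 712753) (nat_lit 30) (.e (nat_lit 450569) (nat_lit 0) (.e (nat_lit 5599) (nat_lit 310) .nil)))))) (.g (nat_lit 1) (.e (nat_lit 156519) (nat_lit 0) .nil) .nil))) 
(.lf (nat_lit 497465) (.g (nat_lit 2125) (.e (nat_lit 163938) (nat_lit 18) (.e (nat_lit 475179) (nat_lit 24) (.e (nat_lit 516174) (nat_lit 14) (.e (nat_lit 466954) (nat_lit 11) (.e (nat_lit 335993) (nat_lit 1) .nil))))) (.g (nat_lit 0) (.e (nat_lit 160868) (nat_lit 0) .nil) .nil))))) (.nd (nat_lit 8) (.nd (nat_lit 9) 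
(.lf (nat_lit 496825) (.g (nat_lit 2397) (.e (nat_lit 163908) (nat_lit 12) (.e (nat_lit 426132) (nat_lit 3) (.e (nat_lit 204868) (nat_lit 29) (.e (nat_lit 360473) (nat_lit 8) (.e (nat_lit 557094) (nat_lit 12) (.e (nat_lit 163847) (nat_lit 0) (.e (nat_lit 6416) (nat_lit 341) .nil))))))) (.g (nat_lit 1) (.e (nat_lit 156094) (nat_lit 0) .nil) .nil))) 
(.lf (nat_lit 497337) (.g (nat_lit 2150) (.e (nat_lit 163933) (nat_lit 17) (.e (nat_lit 466981) (nat_lit 23) (.e (nat_lit 204809) (nat_lit 9) (.e (nat_lit 426108) (nat_lit 1) (.e (nat_lit 164332) (nat_lit 230) (.e (nat_lit 171776) (nat_lit 62) (.e (nat_lit 57927) (nat_lit 282) .nil))))))) (.g (nat_lit 1) (.e (nat_lit 160639) (nat_lit 0) .nil) .nil)))) (.nd (nat_lit 9) 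
(.lf (nat_lit 497081) (.g (nat_lit 5196) (.e (nat_lit 163913) (nat_lit 12) (.e (nat_lit 426129) (nat_lit 3) (.e (nat_lit 204869) (nat_lit 29) (.e (nat_lit 360475) (nat_lit 8) (.e (nat_lit 557090) (nat_lit 12) .nil))))) (.g (nat_lit 0) (.e (nat_lit 156965) (nat_lit 0) .nil) .nil))) 
(.lf (nat_lit 497593) (.g (nat_lit 1999) (.e (nat_lit 163939) (nat_lit 18) (.e (nat_lit 475179) (nat_lit 24) (.e (nat_lit 516176) (nat_lit 14) (.e (nat_lit 466954) (nat_lit 11) (.e (nat_lit 335994) (nat_lit 1) (.e (nat_lit 57686) (nat_lit 156) .nil)))))) (.g (nat_lit 1) (.e (nat_lit 161019) (nat_lit 0) .nil) .nil)))))) (.nd (nat_lit 7) (.nd (nat_lit 8) (.nd (nat_lit 9) 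
(.lf (nat_lit 496761) (.g (nat_lit 751) (.e (nat_lit 163907) (nat_lit 12) (.e (nat_lit 426568) (nat_lit 34) (.e (nat_lit 393238) (nat_lit 17) .nil))) (.g (nat_lit 0) (.e (nat_lit 156011) (nat_lit 0) .nil) .nil))) 
(.lf (nat_lit 497273) (.g (nat_lit 1150) (.e (nat_lit 163923) (nat_lit 15) (.e (nat_lit 450587) (nat_lit 10) (.e (nat_lit 573442) (nat_lit 0) .nil))) (.g (nat_lit 0) (.e (nat_lit 158708) (nat_lit 0) .nil) .nil)))) (.nd (nat_lit 9) 
(.lf (nat_lit 497017) (.g (nat_lit 2621) (.e (nat_lit 163908) (nat_lit 12) (.e (nat_lit 426528) (nat_lit 27) (.e (nat_lit 336387) (nat_lit 27) (.e (nat_lit 426306) (nat_lit 12) (.e (nat_lit 475177) (nat_lit 24) (.e (nat_lit 516120) (nat_lit 1) (.e (nat_lit 164330) (nat_lit 230) .nil))))))) (.g (nat_lit 1) (.e (nat_lit 156819) (nat_lit 0) .nil) .nil))) 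
(.lf (nat_lit 497529) (.g (nat_lit 2995) (.e (nat_lit 163939) (nat_lit 18) (.e (nat_lit 475177) (nat_lit 24) (.e (nat_lit 516150) (nat_lit 9) (.e (nat_lit 426323) (nat_lit 13) (.e (nat_lit 483366) (nat_lit 18) (.e (nat_lit 57688) (nat_lit 156) .nil)))))) (.g (nat_lit 1) (.e (nat_lit 160935) (nat_lit 0) .nil) .nil))))) (.nd (nat_lit 8) (.nd (nat_lit 9) 
(.lf (nat_lit 496889) (.g (nat_lit 257) (.e (nat_lit 163908) (nat_lit 12) (.e (nat_lit 426211) (nat_lit 9) (.e (nat_lit 426125) (nat_lit 2) .nil))) (.g (nat_lit 0) (.e (nat_lit 156324) (nat_lit 0) .nil) .nil))) 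
(.lf (nat_lit 497401) (.g (nat_lit 986) (.e (nat_lit 163936) (nat_lit 18) (.e (nat_lit 475214) (nat_lit 42) (.e (nat_lit 728832) (nat_lit 1) .nil))) (.g (nat_lit 0) (.e (nat_lit 160786) (nat_lit 0) .nil) .nil)))) (.nd (nat_lit 9) 
(.lf (nat_lit 497145) (.g (nat_lit 1929) (.e (nat_lit 163915) (nat_lit 12) (.e (nat_lit 426306) (nat_lit 12) (.e (nat_lit 475199) (nat_lit 40) (.e (nat_lit 704598) (nat_lit 6) (.e (nat_lit 188455) (nat_lit 24) (.e (nat_lit 229679) (nat_lit 244) .nil)))))) (.g (nat_lit 1) (.e (nat_lit 157147) (nat_lit 0) .nil) .nil))) 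
(.lf (nat_lit 497657) (.g (nat_lit 2856) (.e (nat_lit 163941) (nat_lit 19) (.e (nat_lit 483337) (nat_lit 9) (.e (nat_lit 426313) (nat_lit 12) (.e (nat_lit 475179) (nat_lit 24) (.e (nat_lit 516119) (nat_lit 1) (.e (nat_lit 164326) (nat_lit 230) .nil)))))) (.g (nat_lit 1) (.e (nat_lit 161198) (nat_lit 0) .nil) .nil)))))))))) 
(.nd (nat_lit 3) (.nd (nat_lit 4) (.nd (nat_lit 5) (.nd (nat_lit 6) (.nd (nat_lit 7) 
(.nd (nat_lit 8) (.nd (nat_lit 9) 
(.lf (nat_lit 496645) (.g (nat_lit 2105) (.e (nat_lit 163907) (nat_lit 12) (.e (nat_lit 426555) (nat_lit 32) (.e (nat_lit 376867) (nat_lit 23) (.e (nat_lit 98317) (nat_lit 9) (.e (nat_lit 343808) (nat_lit 1) (.e (nat_lit 57927) (nat_lit 282) .nil)))))) (.g (nat_lit 1) (.e (nat_lit 155895) (nat_lit 0) .nil) .nil))) 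
(.lf (nat_lit 497157) (.g (nat_lit 3122) (.e (nat_lit 163915) (nat_lit 12) (.e (nat_lit 426306) (nat_lit 12) (.e (nat_lit 475210) (nat_lit 41) (.e (nat_lit 712752) (nat_lit 29) (.e (nat_lit 442430) (nat_lit 24) (.e (nat_lit 229681) (nat_lit 244) .nil)))))) (.g (nat_lit 1) (.e (nat_lit 157165) (nat_lit 0) .nil) .nil)))) (.nd (nat_lit 9) 
(.lf (nat_lit 496901) (.g (nat_lit 4101) (.e (nat_lit 163908) (nat_lit 12) (.e (nat_lit 426285) (nat_lit 10) (.e (nat_lit 434289) (nat_lit 43) (.e (nat_lit 696344) (nat_lit 8) (.e (nat_lit 172113) (nat_lit 10) (.e (nat_lit 434208) (nat_lit 18) (.e (nat_lit 6418) (nat_lit 341) .nil))))))) (.g (nat_lit 1) (.e (nat_lit 156353) (nat_lit 0) .nil) .nil))) 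
(.lf (nat_lit 497413) (.g (nat_lit 2727) (.e (nat_lit 163938) (nat_lit 18) (.e (nat_lit 475177) (nat_lit 24) (.e (nat_lit 516149) (nat_lit 9) (.e (nat_lit 426323) (nat_lit 13) (.e (nat_lit 483364) (nat_lit 18) (.e (nat_lit 57691) (nat_lit 156) .nil)))))) (.g (nat_lit 1) (.e (nat_lit 160799) (nat_lit 0) .nil) .nil))))) (.nd (nat_lit 8) (.nd (nat_lit 9) 
(.lf (nat_lit 496773) (.g (nat_lit 2671) (.e (nat_lit 163907) (nat_lit 12) (.e (nat_lit 426568) (nat_lit 34) (.e (nat_lit 393270) (nat_lit 23) (.e (nat_lit 426436) (nat_lit 18) (.e (nat_lit 98335) (nat_lit 18) (.e (nat_lit 164325) (nat_lit 230) .nil)))))) (.g (nat_lit 1) (.e (nat_lit 156023) (nat_lit 0) .nil) .nil))) 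
(.lf (nat_lit 497285) (.g (nat_lit 1956) (.e (nat_lit 163923) (nat_lit 15) (.e (nat_lit 450588) (nat_lit 10) (.e (nat_lit 573452) (nat_lit 9) (.e (nat_lit 1286) (nat_lit 95) .nil)))) (.g (nat_lit 0) (.e (nat_lit 158752) (nat_lit 0) .nil) .nil)))) (.nd (nat_lit 9) 
(.lf (nat_lit 497029) (.g (nat_lit 3050) (.e (nat_lit 163909) (nat_lit 12) (.e (nat_lit 426125) (nat_lit 2) (.e (nat_lit 196666) (nat_lit 13) (.e (nat_lit 65617) (nat_lit 10) (.e (nat_lit 344127) (nat_lit 26) (.e (nat_lit 557090) (nat_lit 12) (.e (nat_lit 163843) (nat_lit 0) (.e (nat_lit 6418) (nat_lit 341) .nil)))))))) (.g (nat_lit 1) (.e (nat_lit 156836) (nat_lit 0) .nil) .nil))) 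
(.lf (nat_lit 497541) (.g (nat_lit 2162) (.e (nat_lit 163939) (nat_lit 18) (.e (nat_lit 475177) (nat_lit 24) (.e (nat_lit 516176) (nat_lit 14) (.e (nat_lit 466954) (nat_lit 11) (.e (nat_lit 335993) (nat_lit 1) (.e (nat_lit 57691) (nat_lit 156) .nil)))))) (.g (nat_lit 1) (.e (nat_lit 160948) (nat_lit 0) .nil) .nil)))))) (.nd (nat_lit 7) (.nd (nat_lit 8) (.nd (nat_lit 9) 
(.lf (nat_lit 496709) (.g (nat_lit 2861) (.e (nat_lit 163907) (nat_lit 12) (.e (nat_lit 426566) (nat_lit 34) (.e (nat_lit 393287) (nat_lit 25) (.e (nat_lit 458789) (nat_lit 23) (.e (nat_lit 532504) (nat_lit 1) (.e (nat_lit 57692) (nat_lit 156) .nil)))))) (.g (nat_lit 1) (.e (nat_lit 155959) (nat_lit 0) .nil) .nil))) 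
(.lf (nat_lit 497221) (.g (nat_lit 2943) (.e (nat_lit 163917) (nat_lit 13) (.e (nat_lit 434231) (nat_lit 23) (.e (nat_lit 532550) (nat_lit 12) (.e (nat_lit 360474) (nat_lit 8) (.e (nat_lit 557088) (nat_lit 12) .nil))))) (.g (nat_lit 0) (.e (nat_lit 157627) (nat_lit 0) .nil) .nil)))) (.nd (nat_lit 9) 
(.lf (nat_lit 496965) (.g (nat_lit 2230) (.e (nat_lit 163908) (nat_lit 12) (.e (nat_lit 426312) (nat_lit 12) (.e (nat_lit 475199) (nat_lit 40) (.e (nat_lit 704598) (nat_lit 6) (.e (nat_lit 188453) (nat_lit 24) (.e (nat_lit 229677) (nat_lit 244) .nil)))))) (.g (nat_lit 1) (.e (nat_lit 156531) (nat_lit 0) .nil) .nil))) 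
(.lf (nat_lit 497477) (.g (nat_lit 2722) (.e (nat_lit 163938) (nat_lit 18) (.e (nat_lit 475179) (nat_lit 24) (.e (nat_lit 516176) (nat_lit 14) (.e (nat_lit 466954) (nat_lit 11) (.e (nat_lit 335987) (nat_lit 1) (.e (nat_lit 57692) (nat_lit 156) .nil)))))) (.g (nat_lit 1) (.e (nat_lit 160881) (nat_lit 0) .nil) .nil))))) (.nd (nat_lit 8) (.nd (nat_lit 9) 
(.lf (nat_lit 496837) (.g (nat_lit 814) (.e (nat_lit 163908) (nat_lit 12) (.e (nat_lit 426132) (nat_lit 3) (.e (nat_lit 204869) (nat_lit 29) (.e (nat_lit 360473) (nat_lit 8) .nil)))) (.g (nat_lit 0) (.e (nat_lit 156106) (nat_lit 0) .nil) .nil))) 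
(.lf (nat_lit 497349) (.g (nat_lit 3654) (.e (nat_lit 163935) (nat_lit 18) (.e (nat_lit 475185) (nat_lit 29) (.e (nat_lit 557100) (nat_lit 13) (.e (nat_lit 172113) (nat_lit 10) (.e (nat_lit 434245) (nat_lit 28) .nil))))) (.g (nat_lit 0) (.e (nat_lit 160702) (nat_lit 0) .nil) .nil)))) (.nd (nat_lit 9) 
(.lf (nat_lit 497093) (.g (nat_lit 3127) (.e (nat_lit 163913) (nat_lit 12) (.e (nat_lit 426318) (nat_lit 12) (.e (nat_lit 475211) (nat_lit 41) (.e (nat_lit 712750) (nat_lit 29) (.e (nat_lit 442430) (nat_lit 24) (.e (nat_lit 229680) (nat_lit 244) .nil)))))) (.g (nat_lit 1) (.e (nat_lit 156989) (nat_lit 0) .nil) .nil))) 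
(.lf (nat_lit 497605) (.g (nat_lit 2676) (.e (nat_lit 163939) (nat_lit 18) (.e (nat_lit 475185) (nat_lit 29) (.e (nat_lit 557100) (nat_lit 13) (.e (nat_lit 172113) (nat_lit 10) (.e (nat_lit 434248) (nat_lit 28) (.e (nat_lit 573475) (nat_lit 12) (.e (nat_lit 57344) (nat_lit 0) (.e (nat_lit 6938) (nat_lit 375) .nil)))))))) (.g (nat_lit 1) (.e (nat_lit 161031) (nat_lit 0) .nil) .nil))))))) 
(.nd (nat_lit 6) (.nd (nat_lit 7) (.nd (nat_lit 8) (.nd (nat_lit 9) 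
(.lf (nat_lit 496677) (.g (nat_lit 1894) (.e (nat_lit 163907) (nat_lit 12) (.e (nat_lit 426566) (nat_lit 34) (.e (nat_lit 393271) (nat_lit 23) (.e (nat_lit 426434) (nat_lit 18) .nil)))) (.g (nat_lit 0) (.e (nat_lit 155927) (nat_lit 0) .nil) .nil))) 
(.lf (nat_lit 497189) (.g (nat_lit 1834) (.e (nat_lit 171776) (nat_lit 12) (.e (nat_lit 426438) (nat_lit 18) (.e (nat_lit 98358) (nat_lit 26) (.e (nat_lit 426323) (nat_lit 13) (.e (nat_lit 483365) (nat_lit 18) .nil))))) (.g (nat_lit 0) (.e (nat_lit 157389) (nat_lit 0) .nil) .nil)))) (.nd (nat_lit 9) 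
(.lf (nat_lit 496933) (.g (nat_lit 3807) (.e (nat_lit 163908) (nat_lit 12) (.e (nat_lit 426305) (nat_lit 12) (.e (nat_lit 475198) (nat_lit 40) (.e (nat_lit 704598) (nat_lit 6) (.e (nat_lit 188455) (nat_lit 24) (.e (nat_lit 229678) (nat_lit 244) .nil)))))) (.g (nat_lit 1) (.e (nat_lit 156468) (nat_lit 0) .nil) .nil))) 
(.lf (nat_lit 497445) (.g (nat_lit 2872) (.e (nat_lit 163938) (nat_lit 18) (.e (nat_lit 475179) (nat_lit 24) (.e (nat_lit 516146) (nat_lit 9) (.e (nat_lit 426323) (nat_lit 13) (.e (nat_lit 483364) (nat_lit 18) (.e (nat_lit 57692) (nat_lit 156) .nil)))))) (.g (nat_lit 1) (.e (nat_lit 160832) (nat_lit 0) .nil) .nil))))) (.nd (nat_lit 8) (.nd (nat_lit 9) 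
(.lf (nat_lit 496805) (.g (nat_lit 3072) (.e (nat_lit 163907) (nat_lit 12) (.e (nat_lit 426568) (nat_lit 34) (.e (nat_lit 393293) (nat_lit 26) (.e (nat_lit 475177) (nat_lit 24) (.e (nat_lit 516115) (nat_lit 1) (.e (nat_lit 164325) (nat_lit 230) .nil)))))) (.g (nat_lit 1) (.e (nat_lit 156055) (nat_lit 0) .nil) .nil))) 
(.lf (nat_lit 497317) (.g (nat_lit 642) (.e (nat_lit 163932) (nat_lit 17) (.e (nat_lit 466972) (nat_lit 21) (.e (nat_lit 164183) (nat_lit 154) .nil))) (.g (nat_lit 0) (.e (nat_lit 160288) (nat_lit 0) .nil) .nil)))) (.nd (nat_lit 9) 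
(.lf (nat_lit 497061) (.g (nat_lit 1536) (.e (nat_lit 163911) (nat_lit 12) (.e (nat_lit 426140) (nat_lit 3) (.e (nat_lit 204868) (nat_lit 29) (.e (nat_lit 360473) (nat_lit 8) .nil)))) (.g (nat_lit 0) (.e (nat_lit 156915) (nat_lit 0) .nil) .nil))) 
(.lf (nat_lit 497573) (.g (nat_lit 2805) (.e (nat_lit 163939) (nat_lit 18) (.e (nat_lit 475179) (nat_lit 24) (.e (nat_lit 516174) (nat_lit 14) (.e (nat_lit 466954) (nat_lit 11) (.e (nat_lit 335986) (nat_lit 1) (.e (nat_lit 57691) (nat_lit 156) .nil)))))) (.g (nat_lit 1) (.e (nat_lit 160999) (nat_lit 0) .nil) .nil)))))) (.nd (nat_lit 7) (.nd (nat_lit 8) (.nd (nat_lit 9) 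
(.lf (nat_lit 496741) (.g (nat_lit 3361) (.e (nat_lit 163907) (nat_lit 12) (.e (nat_lit 426566) (nat_lit 34) (.e (nat_lit 393296) (nat_lit 26) (.e (nat_lit 475177) (nat_lit 24) (.e (nat_lit 516119) (nat_lit 1) (.e (nat_lit 164327) (nat_lit 230) .nil)))))) (.g (nat_lit 1) (.e (nat_lit 155991) (nat_lit 0) .nil) .nil))) 
(.lf (nat_lit 497253) (.g (nat_lit 3064) (.e (nat_lit 163919) (nat_lit 14) (.e (nat_lit 442374) (nat_lit 0) (.e (nat_lit 2059) (nat_lit 142) (.e (nat_lit 704599) (nat_lit 6) (.e (nat_lit 188455) (nat_lit 24) (.e (nat_lit 229680) (nat_lit 244) .nil)))))) (.g (nat_lit 1) (.e (nat_lit 157803) (nat_lit 0) .nil) .nil)))) (.nd (nat_lit 9) 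
(.lf (nat_lit 496997) (.g (nat_lit 2359) (.e (nat_lit 163908) (nat_lit 12) (.e (nat_lit 426338) (nat_lit 14) (.e (nat_lit 491549) (nat_lit 9) (.e (nat_lit 336432) (nat_lit 30) (.e (nat_lit 458496) (nat_lit 0) .nil))))) (.g (nat_lit 0) (.e (nat_lit 156727) (nat_lit 0) .nil) .nil))) 
(.lf (nat_lit 497509) (.g (nat_lit 2635) (.e (nat_lit 163938) (nat_lit 18) (.e (nat_lit 475185) (nat_lit 29) (.e (nat_lit 557107) (nat_lit 15) (.e (nat_lit 188450) (nat_lit 23) (.e (nat_lit 204830) (nat_lit 18) (.e (nat_lit 65280) (nat_lit 219) .nil)))))) (.g (nat_lit 1) (.e (nat_lit 160914) (nat_lit 0) .nil) .nil))))) (.nd (nat_lit 8) (.nd (nat_lit 9) 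
(.lf (nat_lit 496869) (.g (nat_lit 4669) (.e (nat_lit 163908) (nat_lit 12) (.e (nat_lit 426136) (nat_lit 3) (.e (nat_lit 204869) (nat_lit 29) (.e (nat_lit 360475) (nat_lit 8) (.e (nat_lit 557091) (nat_lit 12) (.e (nat_lit 163844) (nat_lit 0) (.e (nat_lit 6416) (nat_lit 341) .nil))))))) (.g (nat_lit 1) (.e (nat_lit 156138) (nat_lit 0) .nil) .nil))) 
(.lf (nat_lit 497381) (.g (nat_lit 1664) (.e (nat_lit 163936) (nat_lit 18) (.e (nat_lit 475179) (nat_lit 24) (.e (nat_lit 516174) (nat_lit 14) (.e (nat_lit 466954) (nat_lit 11) (.e (nat_lit 335988) (nat_lit 1) .nil))))) (.g (nat_lit 0) (.e (nat_lit 160757) (nat_lit 0) .nil) .nil)))) (.nd (nat_lit 9) 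
(.lf (nat_lit 497125) (.g (nat_lit 1926) (.e (nat_lit 163915) (nat_lit 12) (.e (nat_lit 426133) (nat_lit 3) (.e (nat_lit 204868) (nat_lit 29) (.e (nat_lit 360473) (nat_lit 8) .nil)))) (.g (nat_lit 0) (.e (nat_lit 157116) (nat_lit 0) .nil) .nil))) 
(.lf (nat_lit 497637) (.g (nat_lit 3277) (.e (nat_lit 163941) (nat_lit 19) (.e (nat_lit 483337) (nat_lit 9) (.e (nat_lit 426190) (nat_lit 9) (.e (nat_lit 426436) (nat_lit 18) (.e (nat_lit 98335) (nat_lit 18) (.e (nat_lit 164332) (nat_lit 230) .nil)))))) (.g (nat_lit 1) (.e (nat_lit 161127) (nat_lit 0) .nil) .nil)))))))) 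
(.nd (nat_lit 5) (.nd (nat_lit 6) (.nd (nat_lit 7) (.nd (nat_lit 8) (.nd (nat_lit 9) 
(.lf (nat_lit 496661) (.g (nat_lit 2752) (.e (nat_lit 163907) (nat_lit 12) (.e (nat_lit 426566) (nat_lit 34) (.e (nat_lit 393270) (nat_lit 23) (.e (nat_lit 426131) (nat_lit 3) (.e (nat_lit 204829) (nat_lit 18) (.e (nat_lit 57692) (nat_lit 156) .nil)))))) (.g (nat_lit 1) (.e (nat_lit 155911) (nat_lit 0) .nil) .nil))) 
(.lf (nat_lit 497173) (.g (nat_lit 1796) (.e (nat_lit 171776) (nat_lit 12) (.e (nat_lit 426139) (nat_lit 3) (.e (nat_lit 204868) (nat_lit 29) (.e (nat_lit 360473) (nat_lit 8) (.e (nat_lit 557093) (nat_lit 12) .nil))))) (.g (nat_lit 0) (.e (nat_lit 157354) (nat_lit 0) .nil) .nil)))) (.nd (nat_lit 9) 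
(.lf (nat_lit 496917) (.g (nat_lit 1791) (.e (nat_lit 163908) (nat_lit 12) (.e (nat_lit 426286) (nat_lit 10) (.e (nat_lit 434288) (nat_lit 43) (.e (nat_lit 696344) (nat_lit 8) (.e (nat_lit 172113) (nat_lit 10) (.e (nat_lit 434203) (nat_lit 18) (.e (nat_lit 6420) (nat_lit 341) .nil))))))) (.g (nat_lit 1) (.e (nat_lit 156439) (nat_lit 0) .nil) .nil))) 
(.lf (nat_lit 497429) (.g (nat_lit 3016) (.e (nat_lit 163938) (nat_lit 18) (.e (nat_lit 475177) (nat_lit 24) (.e (nat_lit 516174) (nat_lit 14) (.e (nat_lit 466954) (nat_lit 11) (.e (nat_lit 335994) (nat_lit 1) (.e (nat_lit 57691) (nat_lit 156) .nil)))))) (.g (nat_lit 1) (.e (nat_lit 160815) (nat_lit 0) .nil) .nil))))) (.nd (nat_lit 8) (.nd (nat_lit 9) 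
(.lf (nat_lit 496789) (.g (nat_lit 3055) (.e (nat_lit 163907) (nat_lit 12) (.e (nat_lit 426568) (nat_lit 34) (.e (nat_lit 393282) (nat_lit 24) (.e (nat_lit 434231) (nat_lit 23) (.e (nat_lit 532500) (nat_lit 1) (.e (nat_lit 57692) (nat_lit 156) .nil)))))) (.g (nat_lit 1) (.e (nat_lit 156039) (nat_lit 0) .nil) .nil))) 
(.lf (nat_lit 497301) (.g (nat_lit 577) (.e (nat_lit 163926) (nat_lit 16) (.e (nat_lit 458774) (nat_lit 18) (.e (nat_lit 6273) (nat_lit 337) .nil))) (.g (nat_lit 0) (.e (nat_lit 158901) (nat_lit 0) .nil) .nil)))) (.nd (nat_lit 9) 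
(.lf (nat_lit 497045) (.g (nat_lit 2294) (.e (nat_lit 163909) (nat_lit 12) (.e (nat_lit 426140) (nat_lit 3) (.e (nat_lit 204869) (nat_lit 29) (.e (nat_lit 360474) (nat_lit 8) (.e (nat_lit 557093) (nat_lit 12) .nil))))) (.g (nat_lit 0) (.e (nat_lit 156866) (nat_lit 0) .nil) .nil))) 
(.lf (nat_lit 497557) (.g (nat_lit 3024) (.e (nat_lit 163939) (nat_lit 18) (.e (nat_lit 475179) (nat_lit 24) (.e (nat_lit 516150) (nat_lit 9) (.e (nat_lit 426323) (nat_lit 13) (.e (nat_lit 483363) (nat_lit 18) (.e (nat_lit 57691) (nat_lit 156) .nil)))))) (.g (nat_lit 1) (.e (nat_lit 160972) (nat_lit 0) .nil) .nil)))))) (.nd (nat_lit 7) (.nd (nat_lit 8) (.nd (nat_lit 9) 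
(.lf (nat_lit 496725) (.g (nat_lit 2715) (.e (nat_lit 163907) (nat_lit 12) (.e (nat_lit 426566) (nat_lit 34) (.e (nat_lit 393294) (nat_lit 26) (.e (nat_lit 475177) (nat_lit 24) (.e (nat_lit 516118) (nat_lit 1) (.e (nat_lit 164324) (nat_lit 230) .nil)))))) (.g (nat_lit 1) (.e (nat_lit 155975) (nat_lit 0) .nil) .nil))) 
(.lf (nat_lit 497237) (.g (nat_lit 3708) (.e (nat_lit 163917) (nat_lit 13) (.e (nat_lit 434231) (nat_lit 23) (.e (nat_lit 532550) (nat_lit 12) (.e (nat_lit 360475) (nat_lit 8) (.e (nat_lit 557091) (nat_lit 12) (.e (nat_lit 163849) (nat_lit 0) (.e (nat_lit 6421) (nat_lit 341) .nil))))))) (.g (nat_lit 1) (.e (nat_lit 157643) (nat_lit 0) .nil) .nil)))) (.nd (nat_lit 9) 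
(.lf (nat_lit 496981) (.g (nat_lit 3125) (.e (nat_lit 163908) (nat_lit 12) (.e (nat_lit 426338) (nat_lit 14) (.e (nat_lit 491549) (nat_lit 9) (.e (nat_lit 336426) (nat_lit 29) (.e (nat_lit 442430) (nat_lit 24) (.e (nat_lit 229679) (nat_lit 244) .nil)))))) (.g (nat_lit 1) (.e (nat_lit 156708) (nat_lit 0) .nil) .nil))) 
(.lf (nat_lit 497493) (.g (nat_lit 2715) (.e (nat_lit 163938) (nat_lit 18) (.e (nat_lit 475185) (nat_lit 29) (.e (nat_lit 557100) (nat_lit 13) (.e (nat_lit 172113) (nat_lit 10) (.e (nat_lit 434245) (nat_lit 28) (.e (nat_lit 573473) (nat_lit 12) (.e (nat_lit 57348) (nat_lit 0) (.e (nat_lit 6938) (nat_lit 375) .nil)))))))) (.g (nat_lit 1) (.e (nat_lit 160898) (nat_lit 0) .nil) .nil))))) 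
(.nd (nat_lit 8) (.nd (nat_lit 9) 
(.lf (nat_lit 496853) (.g (nat_lit 3257) (.e (nat_lit 163908) (nat_lit 12) (.e (nat_lit 426132) (nat_lit 3) (.e (nat_lit 204869) (nat_lit 29) (.e (nat_lit 360475) (nat_lit 8) (.e (nat_lit 557091) (nat_lit 12) (.e (nat_lit 163849) (nat_lit 0) (.e (nat_lit 6420) (nat_lit 341) .nil))))))) (.g (nat_lit 1) (.e (nat_lit 156122) (nat_lit 0) .nil) .nil))) 
(.lf (nat_lit 497365) (.g (nat_lit 3044) (.e (nat_lit 163936) (nat_lit 18) (.e (nat_lit 475177) (nat_lit 24) (.e (nat_lit 516176) (nat_lit 14) (.e (nat_lit 466954) (nat_lit 11) (.e (nat_lit 335995) (nat_lit 1) (.e (nat_lit 57686) (nat_lit 156) .nil)))))) (.g (nat_lit 1) (.e (nat_lit 160720) (nat_lit 0) .nil) .nil)))) (.nd (nat_lit 9) 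
(.lf (nat_lit 497109) (.g (nat_lit 4186) (.e (nat_lit 163913) (nat_lit 12) (.e (nat_lit 426503) (nat_lit 27) (.e (nat_lit 336387) (nat_lit 27) (.e (nat_lit 426306) (nat_lit 12) (.e (nat_lit 475177) (nat_lit 24) (.e (nat_lit 516117) (nat_lit 1) (.e (nat_lit 164330) (nat_lit 230) .nil))))))) (.g (nat_lit 1) (.e (nat_lit 157025) (nat_lit 0) .nil) .nil))) 
(.lf (nat_lit 497621) (.g (nat_lit 3133) (.e (nat_lit 163941) (nat_lit 19) (.e (nat_lit 483337) (nat_lit 9) (.e (nat_lit 426188) (nat_lit 9) (.e (nat_lit 426436) (nat_lit 18) (.e (nat_lit 98335) (nat_lit 18) (.e (nat_lit 164327) (nat_lit 230) .nil)))))) (.g (nat_lit 1) (.e (nat_lit 161097) (nat_lit 0) .nil) .nil))))))) (.nd (nat_lit 6) (.nd (nat_lit 7) (.nd (nat_lit 8) (.nd (nat_lit 9) 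
(.lf (nat_lit 496693) (.g (nat_lit 3061) (.e (nat_lit 163907) (nat_lit 12) (.e (nat_lit 426566) (nat_lit 34) (.e (nat_lit 393273) (nat_lit 23) (.e (nat_lit 426438) (nat_lit 18) (.e (nat_lit 98333) (nat_lit 18) (.e (nat_lit 164327) (nat_lit 230) .nil)))))) (.g (nat_lit 1) (.e (nat_lit 155943) (nat_lit 0) .nil) .nil))) 
(.lf (nat_lit 497205) (.g (nat_lit 3196) (.e (nat_lit 163916) (nat_lit 13) (.e (nat_lit 434231) (nat_lit 23) (.e (nat_lit 532550) (nat_lit 12) (.e (nat_lit 360474) (nat_lit 8) (.e (nat_lit 557094) (nat_lit 12) (.e (nat_lit 163847) (nat_lit 0) (.e (nat_lit 6421) (nat_lit 341) .nil))))))) (.g (nat_lit 1) (.e (nat_lit 157481) (nat_lit 0) .nil) .nil)))) (.nd (nat_lit 9) 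
(.lf (nat_lit 496949) (.g (nat_lit 3309) (.e (nat_lit 163908) (nat_lit 12) (.e (nat_lit 426305) (nat_lit 12) (.e (nat_lit 475211) (nat_lit 41) (.e (nat_lit 712752) (nat_lit 29) (.e (nat_lit 442430) (nat_lit 24) (.e (nat_lit 229678) (nat_lit 244) .nil)))))) (.g (nat_lit 1) (.e (nat_lit 156515) (nat_lit 0) .nil) .nil))) 
(.lf (nat_lit 497461) (.g (nat_lit 2907) (.e (nat_lit 163938) (nat_lit 18) (.e (nat_lit 475179) (nat_lit 24) (.e (nat_lit 516174) (nat_lit 14) (.e (nat_lit 466954) (nat_lit 11) (.e (nat_lit 335986) (nat_lit 1) (.e (nat_lit 57688) (nat_lit 156) .nil)))))) (.g (nat_lit 1) (.e (nat_lit 160864) (nat_lit 0) .nil) .nil))))) (.nd (nat_lit 8) (.nd (nat_lit 9) 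
(.lf (nat_lit 496821) (.g (nat_lit 2769) (.e (nat_lit 163908) (nat_lit 12) (.e (nat_lit 426132) (nat_lit 3) (.e (nat_lit 204868) (nat_lit 29) (.e (nat_lit 360473) (nat_lit 8) (.e (nat_lit 557091) (nat_lit 12) (.e (nat_lit 163844) (nat_lit 0) (.e (nat_lit 6416) (nat_lit 341) .nil))))))) (.g (nat_lit 1) (.e (nat_lit 156090) (nat_lit 0) .nil) .nil))) 
(.lf (nat_lit 497333) (.g (nat_lit 2153) (.e (nat_lit 163933) (nat_lit 17) (.e (nat_lit 466977) (nat_lit 22) (.e (nat_lit 196656) (nat_lit 11) (.e (nat_lit 16392) (nat_lit 0) (.e (nat_lit 2400) (nat_lit 157) .nil))))) (.g (nat_lit 0) (.e (nat_lit 160633) (nat_lit 0) .nil) .nil)))) (.nd (nat_lit 9) 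
(.lf (nat_lit 497077) (.g (nat_lit 2688) (.e (nat_lit 163913) (nat_lit 12) (.e (nat_lit 426129) (nat_lit 3) (.e (nat_lit 204869) (nat_lit 29) (.e (nat_lit 360474) (nat_lit 8) (.e (nat_lit 557093) (nat_lit 12) (.e (nat_lit 163848) (nat_lit 0) (.e (nat_lit 6421) (nat_lit 341) .nil))))))) (.g (nat_lit 1) (.e (nat_lit 156961) (nat_lit 0) .nil) .nil))) 
(.lf (nat_lit 497589) (.g (nat_lit 2625) (.e (nat_lit 163939) (nat_lit 18) (.e (nat_lit 475179) (nat_lit 24) (.e (nat_lit 516176) (nat_lit 14) (.e (nat_lit 466954) (nat_lit 11) (.e (nat_lit 335987) (nat_lit 1) (.e (nat_lit 57692) (nat_lit 156) .nil)))))) (.g (nat_lit 1) (.e (nat_lit 161015) (nat_lit 0) .nil) .nil)))))) (.nd (nat_lit 7) (.nd (nat_lit 8) (.nd (nat_lit 9) 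
(.lf (nat_lit 496757) (.g (nat_lit 2706) (.e (nat_lit 163907) (nat_lit 12) (.e (nat_lit 426567) (nat_lit 34) (.e (nat_lit 393294) (nat_lit 26) (.e (nat_lit 475177) (nat_lit 24) (.e (nat_lit 516119) (nat_lit 1) (.e (nat_lit 164325) (nat_lit 230) .nil)))))) (.g (nat_lit 1) (.e (nat_lit 156007) (nat_lit 0) .nil) .nil))) 
(.lf (nat_lit 497269) (.g (nat_lit 1670) (.e (nat_lit 163922) (nat_lit 15) (.e (nat_lit 450584) (nat_lit 9) (.e (nat_lit 565267) (nat_lit 4) (.e (nat_lit 65617) (nat_lit 10) (.e (nat_lit 344091) (nat_lit 18) (.e (nat_lit 7708) (nat_lit 414) .nil)))))) (.g (nat_lit 1) (.e (nat_lit 158495) (nat_lit 0) .nil) .nil)))) (.nd (nat_lit 9) 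
(.lf (nat_lit 497013) (.g (nat_lit 2115) (.e (nat_lit 163908) (nat_lit 12) (.e (nat_lit 426412) (nat_lit 15) (.e (nat_lit 1800) (nat_lit 119) (.e (nat_lit 516150) (nat_lit 9) (.e (nat_lit 426323) (nat_lit 13) .nil))))) (.g (nat_lit 0) (.e (nat_lit 156779) (nat_lit 0) .nil) .nil))) 
(.lf (nat_lit 497525) (.g (nat_lit 2166) (.e (nat_lit 163939) (nat_lit 18) (.e (nat_lit 475177) (nat_lit 24) (.e (nat_lit 516150) (nat_lit 9) (.e (nat_lit 426323) (nat_lit 13) (.e (nat_lit 483365) (nat_lit 18) (.e (nat_lit 57687) (nat_lit 156) .nil)))))) (.g (nat_lit 1) (.e (nat_lit 160931) (nat_lit 0) .nil) .nil))))) (.nd (nat_lit 8) (.nd (nat_lit 9) 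
(.lf (nat_lit 496885) (.g (nat_lit 2626) (.e (nat_lit 163908) (nat_lit 12) (.e (nat_lit 426171) (nat_lit 7) (.e (nat_lit 409646) (nat_lit 18) (.e (nat_lit 303146) (nat_lit 14) (.e (nat_lit 491554) (nat_lit 9) .nil))))) (.g (nat_lit 0) (.e (nat_lit 156259) (nat_lit 0) .nil) .nil))) 
(.lf (nat_lit 497397) (.g (nat_lit 2612) (.e (nat_lit 163936) (nat_lit 18) (.e (nat_lit 475185) (nat_lit 29) (.e (nat_lit 557100) (nat_lit 13) (.e (nat_lit 172113) (nat_lit 10) .nil)))) (.g (nat_lit 0) (.e (nat_lit 160774) (nat_lit 0) .nil) .nil)))) (.nd (nat_lit 9) 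
(.lf (nat_lit 497141) (.g (nat_lit 1896) (.e (nat_lit 163915) (nat_lit 12) (.e (nat_lit 426306) (nat_lit 12) (.e (nat_lit 475198) (nat_lit 40) (.e (nat_lit 704599) (nat_lit 6) (.e (nat_lit 188453) (nat_lit 24) (.e (nat_lit 229680) (nat_lit 244) .nil)))))) (.g (nat_lit 1) (.e (nat_lit 157143) (nat_lit 0) .nil) .nil))) 
(.lf (nat_lit 497653) (.g (nat_lit 1662) (.e (nat_lit 163941) (nat_lit 19) (.e (nat_lit 483337) (nat_lit 9) (.e (nat_lit 426307) (nat_lit 12) (.e (nat_lit 475179) (nat_lit 24) (.e (nat_lit 516120) (nat_lit 1) .nil))))) (.g (nat_lit 0) (.e (nat_lit 161175) (nat_lit 0) .nil) .nil))))))))) (.nd (nat_lit 4) (.nd (nat_lit 5) (.nd (nat_lit 6) (.nd (nat_lit 7) (.nd (nat_lit 8) (.nd (nat_lit 9) 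
(.lf (nat_lit 496653) (.g (nat_lit 3093) (.e (nat_lit 163907) (nat_lit 12) (.e (nat_lit 426564) (nat_lit 34) (.e (nat_lit 393293) (nat_lit 26) (.e (nat_lit 475179) (nat_lit 24) (.e (nat_lit 516115) (nat_lit 1) (.e (nat_lit 164325) (nat_lit 230) .nil)))))) (.g (nat_lit 1) (.e (nat_lit 155903) (nat_lit 0) .nil) .nil))) 
(.lf (nat_lit 497165) (.g (nat_lit 2560) (.e (nat_lit 163915) (nat_lit 12) (.e (nat_lit 426306) (nat_lit 12) (.e (nat_lit 475211) (nat_lit 41) (.e (nat_lit 712752) (nat_lit 29) (.e (nat_lit 442430) (nat_lit 24) (.e (nat_lit 229681) (nat_lit 244) .nil)))))) (.g (nat_lit 1) (.e (nat_lit 157175) (nat_lit 0) .nil) .nil)))) (.nd (nat_lit 9) 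
(.lf (nat_lit 496909) (.g (nat_lit 1686) (.e (nat_lit 163908) (nat_lit 12) (.e (nat_lit 426286) (nat_lit 10) (.e (nat_lit 434276) (nat_lit 39) (.e (nat_lit 663580) (nat_lit 9) (.e (nat_lit 7936) (nat_lit 23) .nil))))) (.g (nat_lit 0) (.e (nat_lit 156426) (nat_lit 0) .nil) .nil))) 
(.lf (nat_lit 497421) (.g (nat_lit 3280) (.e (nat_lit 163938) (nat_lit 18) (.e (nat_lit 475177) (nat_lit 24) (.e (nat_lit 516150) (nat_lit 9) (.e (nat_lit 426323) (nat_lit 13) (.e (nat_lit 483364) (nat_lit 18) (.e (nat_lit 57691) (nat_lit 156) .nil)))))) (.g (nat_lit 1) (.e (nat_lit 160807) (nat_lit 0) .nil) .nil))))) (.nd (nat_lit 8) (.nd (nat_lit 9) 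
(.lf (nat_lit 496781) (.g (nat_lit 3981) (.e (nat_lit 163907) (nat_lit 12) (.e (nat_lit 426568) (nat_lit 34) (.e (nat_lit 393271) (nat_lit 23) (.e (nat_lit 426436) (nat_lit 18) (.e (nat_lit 98333) (nat_lit 18) (.e (nat_lit 164325) (nat_lit 230) .nil)))))) (.g (nat_lit 1) (.e (nat_lit 156031) (nat_lit 0) .nil) .nil))) 
(.lf (nat_lit 497293) (.g (nat_lit 1421) (.e (nat_lit 163923) (nat_lit 15) (.e (nat_lit 450591) (nat_lit 13) (.e (nat_lit 630823) (nat_lit 18) (.e (nat_lit 81950) (nat_lit 21) (.e (nat_lit 57857) (nat_lit 254) .nil))))) (.g (nat_lit 1) (.e (nat_lit 158779) (nat_lit 0) .nil) .nil)))) (.nd (nat_lit 9) 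
(.lf (nat_lit 497037) (.g (nat_lit 4026) (.e (nat_lit 163909) (nat_lit 12) (.e (nat_lit 426125) (nat_lit 2) (.e (nat_lit 196666) (nat_lit 13) (.e (nat_lit 65617) (nat_lit 10) (.e (nat_lit 344132) (nat_lit 26) (.e (nat_lit 557093) (nat_lit 12) (.e (nat_lit 163849) (nat_lit 0) (.e (nat_lit 6420) (nat_lit 341) .nil)))))))) (.g (nat_lit 1) (.e (nat_lit 156844) (nat_lit 0) .nil) .nil))) 
(.lf (nat_lit 497549) (.g (nat_lit 2841) (.e (nat_lit 163939) (nat_lit 18) (.e (nat_lit 475179) (nat_lit 24) (.e (nat_lit 516146) (nat_lit 9) (.e (nat_lit 426323) (nat_lit 13) (.e (nat_lit 483364) (nat_lit 18) (.e (nat_lit 57691) (nat_lit 156) .nil)))))) (.g (nat_lit 1) (.e (nat_lit 160957) (nat_lit 0) .nil) .nil)))))) (.nd (nat_lit 7) (.nd (nat_lit 8) (.nd (nat_lit 9) 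
(.lf (nat_lit 496717) (.g (nat_lit 1651) (.e (nat_lit 163907) (nat_lit 12) (.e (nat_lit 426566) (nat_lit 34) (.e (nat_lit 393292) (nat_lit 26) (.e (nat_lit 475177) (nat_lit 24) (.e (nat_lit 516118) (nat_lit 1) .nil))))) (.g (nat_lit 0) (.e (nat_lit 155967) (nat_lit 0) .nil) .nil))) 
(.lf (nat_lit 497229) (.g (nat_lit 3306) (.e (nat_lit 163917) (nat_lit 13) (.e (nat_lit 434231) (nat_lit 23) (.e (nat_lit 532550) (nat_lit 12) (.e (nat_lit 360475) (nat_lit 8) (.e (nat_lit 557089) (nat_lit 12) (.e (nat_lit 163843) (nat_lit 0) (.e (nat_lit 6416) (nat_lit 341) .nil))))))) (.g (nat_lit 1) (.e (nat_lit 157635) (nat_lit 0) .nil) .nil)))) (.nd (nat_lit 9) 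
(.lf (nat_lit 496973) (.g (nat_lit 1088) (.e (nat_lit 163908) (nat_lit 12) (.e (nat_lit 426312) (nat_lit 12) (.e (nat_lit 475211) (nat_lit 41) (.e (nat_lit 712755) (nat_lit 30) .nil)))) (.g (nat_lit 0) (.e (nat_lit 156543) (nat_lit 0) .nil) .nil))) 
(.lf (nat_lit 497485) (.g (nat_lit 3291) (.e (nat_lit 163938) (nat_lit 18) (.e (nat_lit 475179) (nat_lit 24) (.e (nat_lit 516176) (nat_lit 14) (.e (nat_lit 466954) (nat_lit 11) (.e (nat_lit 335995) (nat_lit 1) (.e (nat_lit 57688) (nat_lit 156) .nil)))))) (.g (nat_lit 1) (.e (nat_lit 160889) (nat_lit 0) .nil) .nil))))) (.nd (nat_lit 8) (.nd (nat_lit 9) 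
(.lf (nat_lit 496845) (.g (nat_lit 3690) (.e (nat_lit 163908) (nat_lit 12) (.e (nat_lit 426132) (nat_lit 3) (.e (nat_lit 204869) (nat_lit 29) (.e (nat_lit 360475) (nat_lit 8) (.e (nat_lit 557089) (nat_lit 12) (.e (nat_lit 163848) (nat_lit 0) (.e (nat_lit 6416) (nat_lit 341) .nil))))))) (.g (nat_lit 1) (.e (nat_lit 156114) (nat_lit 0) .nil) .nil))) 
(.lf (nat_lit 497357) (.g (nat_lit 2104) (.e (nat_lit 163936) (nat_lit 18) (.e (nat_lit 475177) (nat_lit 24) (.e (nat_lit 516174) (nat_lit 14) (.e (nat_lit 466954) (nat_lit 11) (.e (nat_lit 335985) (nat_lit 1) .nil))))) (.g (nat_lit 0) (.e (nat_lit 160712) (nat_lit 0) .nil) .nil)))) (.nd (nat_lit 9) 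
(.lf (nat_lit 497101) (.g (nat_lit 2543) (.e (nat_lit 163913) (nat_lit 12) (.e (nat_lit 426347) (nat_lit 14) (.e (nat_lit 491549) (nat_lit 9) (.e (nat_lit 336430) (nat_lit 29) (.e (nat_lit 442428) (nat_lit 24) (.e (nat_lit 229681) (nat_lit 244) .nil)))))) (.g (nat_lit 1) (.e (nat_lit 157017) (nat_lit 0) .nil) .nil))) 
(.lf (nat_lit 497613) (.g (nat_lit 2256) (.e (nat_lit 171776) (nat_lit 18) (.e (nat_lit 475179) (nat_lit 24) (.e (nat_lit 516176) (nat_lit 14) (.e (nat_lit 466954) (nat_lit 11) (.e (nat_lit 335988) (nat_lit 1) .nil))))) (.g (nat_lit 0) (.e (nat_lit 161047) (nat_lit 0) .nil) .nil))))))) (.nd (nat_lit 6) (.nd (nat_lit 7) (.nd (nat_lit 8) (.nd (nat_lit 9) 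
(.lf (nat_lit 496685) (.g (nat_lit 2371) (.e (nat_lit 163907) (nat_lit 12) (.e (nat_lit 426566) (nat_lit 34) (.e (nat_lit 393272) (nat_lit 23) (.e (nat_lit 426438) (nat_lit 18) (.e (nat_lit 98333) (nat_lit 18) (.e (nat_lit 164327) (nat_lit 230) .nil)))))) (.g (nat_lit 1) (.e (nat_lit 155935) (nat_lit 0) .nil) .nil))) 
(.lf (nat_lit 497197) (.g (nat_lit 1140) (.e (nat_lit 171776) (nat_lit 12) (.e (nat_lit 426568) (nat_lit 34) (.e (nat_lit 393279) (nat_lit 23) (.e (nat_lit 426129) (nat_lit 3) (.e (nat_lit 204830) (nat_lit 18) .nil))))) (.g (nat_lit 0) (.e (nat_lit 157397) (nat_lit 0) .nil) .nil)))) (.nd (nat_lit 9) 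
(.lf (nat_lit 496941) (.g (nat_lit 1848) (.e (nat_lit 163908) (nat_lit 12) (.e (nat_lit 426305) (nat_lit 12) (.e (nat_lit 475199) (nat_lit 40) (.e (nat_lit 704598) (nat_lit 6) (.e (nat_lit 188454) (nat_lit 24) .nil))))) (.g (nat_lit 0) (.e (nat_lit 156477) (nat_lit 0) .nil) .nil))) 
(.lf (nat_lit 497453) (.g (nat_lit 3109) (.e (nat_lit 163938) (nat_lit 18) (.e (nat_lit 475179) (nat_lit 24) (.e (nat_lit 516150) (nat_lit 9) (.e (nat_lit 426323) (nat_lit 13) (.e (nat_lit 483364) (nat_lit 18) (.e (nat_lit 57691) (nat_lit 156) .nil)))))) (.g (nat_lit 1) (.e (nat_lit 160844) (nat_lit 0) .nil) .nil))))) (.nd (nat_lit 8) (.nd (nat_lit 9) 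
(.lf (nat_lit 496813) (.g (nat_lit 3658) (.e (nat_lit 163907) (nat_lit 12) (.e (nat_lit 426568) (nat_lit 34) (.e (nat_lit 393294) (nat_lit 26) (.e (nat_lit 475179) (nat_lit 24) (.e (nat_lit 516119) (nat_lit 1) (.e (nat_lit 164325) (nat_lit 230) .nil)))))) (.g (nat_lit 1) (.e (nat_lit 156063) (nat_lit 0) .nil) .nil))) 
(.lf (nat_lit 497325) (.g (nat_lit 705) (.e (nat_lit 163933) (nat_lit 17) (.e (nat_lit 466972) (nat_lit 21) (.e (nat_lit 164402) (nat_lit 256) .nil))) (.g (nat_lit 0) (.e (nat_lit 160622) (nat_lit 0) .nil) .nil)))) (.nd (nat_lit 9) 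
(.lf (nat_lit 497069) (.g (nat_lit 1941) (.e (nat_lit 163911) (nat_lit 12) (.e (nat_lit 426340) (nat_lit 14) (.e (nat_lit 491549) (nat_lit 9) (.e (nat_lit 336434) (nat_lit 30) (.e (nat_lit 450568) (nat_lit 0) .nil))))) (.g (nat_lit 0) (.e (nat_lit 156944) (nat_lit 0) .nil) .nil))) 
(.lf (nat_lit 497581) (.g (nat_lit 3135) (.e (nat_lit 163939) (nat_lit 18) (.e (nat_lit 475179) (nat_lit 24) (.e (nat_lit 516174) (nat_lit 14) (.e (nat_lit 466954) (nat_lit 11) (.e (nat_lit 335996) (nat_lit 1) (.e (nat_lit 57691) (nat_lit 156) .nil)))))) (.g (nat_lit 1) (.e (nat_lit 161007) (nat_lit 0) .nil) .nil)))))) (.nd (nat_lit 7) (.nd (nat_lit 8) (.nd (nat_lit 9) 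
(.lf (nat_lit 496749) (.g (nat_lit 3624) (.e (nat_lit 163907) (nat_lit 12) (.e (nat_lit 426566) (nat_lit 34) (.e (nat_lit 393296) (nat_lit 26) (.e (nat_lit 475179) (nat_lit 24) (.e (nat_lit 516119) (nat_lit 1) (.e (nat_lit 164327) (nat_lit 230) .nil)))))) (.g (nat_lit 1) (.e (nat_lit 155999) (nat_lit 0) .nil) .nil))) 
(.lf (nat_lit 497261) (.g (nat_lit 1444) (.e (nat_lit 163920) (nat_lit 14) (.e (nat_lit 442429) (nat_lit 24) (.e (nat_lit 229639) (nat_lit 229) (.e (nat_lit 122916) (nat_lit 14) (.e (nat_lit 352309) (nat_lit 21) (.e (nat_lit 57857) (nat_lit 254) .nil)))))) (.g (nat_lit 1) (.e (nat_lit 158125) (nat_lit 0) .nil) .nil)))) (.nd (nat_lit 9) 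
(.lf (nat_lit 497005) (.g (nat_lit 2409) (.e (nat_lit 163908) (nat_lit 12) (.e (nat_lit 426338) (nat_lit 14) (.e (nat_lit 491550) (nat_lit 9) (.e (nat_lit 336430) (nat_lit 29) (.e (nat_lit 442428) (nat_lit 24) (.e (nat_lit 229679) (nat_lit 244) .nil)))))) (.g (nat_lit 1) (.e (nat_lit 156737) (nat_lit 0) .nil) .nil))) 
(.lf (nat_lit 497517) (.g (nat_lit 2772) (.e (nat_lit 163939) (nat_lit 18) (.e (nat_lit 475177) (nat_lit 24) (.e (nat_lit 516149) (nat_lit 9) (.e (nat_lit 426323) (nat_lit 13) (.e (nat_lit 483365) (nat_lit 18) (.e (nat_lit 57688) (nat_lit 156) .nil)))))) (.g (nat_lit 1) (.e (nat_lit 160923) (nat_lit 0) .nil) .nil))))) (.nd (nat_lit 8) (.nd (nat_lit 9) 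
(.lf (nat_lit 496877) (.g (nat_lit 2257) (.e (nat_lit 163908) (nat_lit 12) (.e (nat_lit 426173) (nat_lit 7) (.e (nat_lit 409649) (nat_lit 18) (.e (nat_lit 303146) (nat_lit 14) (.e (nat_lit 491546) (nat_lit 9) (.e (nat_lit 335997) (nat_lit 1) (.e (nat_lit 57857) (nat_lit 254) .nil))))))) (.g (nat_lit 1) (.e (nat_lit 156173) (nat_lit 0) .nil) .nil))) 
(.lf (nat_lit 497389) (.g (nat_lit 2390) (.e (nat_lit 163936) (nat_lit 18) (.e (nat_lit 475179) (nat_lit 24) (.e (nat_lit 516176) (nat_lit 14) (.e (nat_lit 466954) (nat_lit 11) (.e (nat_lit 335993) (nat_lit 1) .nil))))) (.g (nat_lit 0) (.e (nat_lit 160766) (nat_lit 0) .nil) .nil)))) (.nd (nat_lit 9) 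
(.lf (nat_lit 497133) (.g (nat_lit 3573) (.e (nat_lit 163915) (nat_lit 12) (.e (nat_lit 426139) (nat_lit 3) (.e (nat_lit 204869) (nat_lit 29) (.e (nat_lit 360474) (nat_lit 8) (.e (nat_lit 557089) (nat_lit 12) .nil))))) (.g (nat_lit 0) (.e (nat_lit 157124) (nat_lit 0) .nil) .nil))) 
(.lf (nat_lit 497645) (.g (nat_lit 1650) (.e (nat_lit 163941) (nat_lit 19) (.e (nat_lit 483337) (nat_lit 9) (.e (nat_lit 426213) (nat_lit 9) (.e (nat_lit 426396) (nat_lit 15) (.e (nat_lit 1800) (nat_lit 119) .nil))))) (.g (nat_lit 0) (.e (nat_lit 161148) (nat_lit 0) .nil) .nil)))))))) (.nd (nat_lit 5) (.nd (nat_lit 6) (.nd (nat_lit 7) (.nd (nat_lit 8) (.nd (nat_lit 9) 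
(.lf (nat_lit 496669) (.g (nat_lit 2861) (.e (nat_lit 163907) (nat_lit 12) (.e (nat_lit 426566) (nat_lit 34) (.e (nat_lit 393270) (nat_lit 23) (.e (nat_lit 426438) (nat_lit 18) (.e (nat_lit 98335) (nat_lit 18) (.e (nat_lit 164327) (nat_lit 230) .nil)))))) (.g (nat_lit 1) (.e (nat_lit 155919) (nat_lit 0) .nil) .nil))) 
(.lf (nat_lit 497181) (.g (nat_lit 1185) (.e (nat_lit 171776) (nat_lit 12) (.e (nat_lit 426139) (nat_lit 3) (.e (nat_lit 204869) (nat_lit 29) (.e (nat_lit 360475) (nat_lit 8) .nil)))) (.g (nat_lit 0) (.e (nat_lit 157362) (nat_lit 0) .nil) .nil)))) (.nd (nat_lit 9) 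
(.lf (nat_lit 496925) (.g (nat_lit 2665) (.e (nat_lit 163908) (nat_lit 12) (.e (nat_lit 426290) (nat_lit 10) (.e (nat_lit 434212) (nat_lit 18) (.e (nat_lit 6425) (nat_lit 342) (.e (nat_lit 229415) (nat_lit 15) (.e (nat_lit 450563) (nat_lit 0) (.e (nat_lit 6416) (nat_lit 341) .nil))))))) (.g (nat_lit 1) (.e (nat_lit 156458) (nat_lit 0) .nil) .nil))) 
(.lf (nat_lit 497437) (.g (nat_lit 2529) (.e (nat_lit 163938) (nat_lit 18) (.e (nat_lit 475177) (nat_lit 24) (.e (nat_lit 516176) (nat_lit 14) (.e (nat_lit 466954) (nat_lit 11) (.e (nat_lit 335994) (nat_lit 1) (.e (nat_lit 57692) (nat_lit 156) .nil)))))) (.g (nat_lit 1) (.e (nat_lit 160823) (nat_lit 0) .nil) .nil))))) (.nd (nat_lit 8) (.nd (nat_lit 9) 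
(.lf (nat_lit 496797) (.g (nat_lit 3711) (.e (nat_lit 163907) (nat_lit 12) (.e (nat_lit 426568) (nat_lit 34) (.e (nat_lit 393291) (nat_lit 26) (.e (nat_lit 475177) (nat_lit 24) (.e (nat_lit 516115) (nat_lit 1) (.e (nat_lit 164325) (nat_lit 230) .nil)))))) (.g (nat_lit 1) (.e (nat_lit 156047) (nat_lit 0) .nil) .nil))) 
(.lf (nat_lit 497309) (.g (nat_lit 1439) (.e (nat_lit 163931) (nat_lit 17) (.e (nat_lit 466947) (nat_lit 0) (.e (nat_lit 2175) (nat_lit 143) (.e (nat_lit 712752) (nat_lit 29) (.e (nat_lit 442428) (nat_lit 24) .nil))))) (.g (nat_lit 0) (.e (nat_lit 159222) (nat_lit 0) .nil) .nil)))) (.nd (nat_lit 9) 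
(.lf (nat_lit 497053) (.g (nat_lit 3817) (.e (nat_lit 163910) (nat_lit 12) (.e (nat_lit 426125) (nat_lit 2) (.e (nat_lit 196666) (nat_lit 13) (.e (nat_lit 65617) (nat_lit 10) (.e (nat_lit 344130) (nat_lit 26) .nil))))) (.g (nat_lit 0) (.e (nat_lit 156891) (nat_lit 0) .nil) .nil))) 
(.lf (nat_lit 497565) (.g (nat_lit 1739) (.e (nat_lit 163939) (nat_lit 18) (.e (nat_lit 475179) (nat_lit 24) (.e (nat_lit 516150) (nat_lit 9) (.e (nat_lit 426323) (nat_lit 13) (.e (nat_lit 483366) (nat_lit 18) (.e (nat_lit 57686) (nat_lit 156) .nil)))))) (.g (nat_lit 1) (.e (nat_lit 160980) (nat_lit 0) .nil) .nil)))))) (.nd (nat_lit 7) (.nd (nat_lit 8) (.nd (nat_lit 9) 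
(.lf (nat_lit 496733) (.g (nat_lit 3420) (.e (nat_lit 163907) (nat_lit 12) (.e (nat_lit 426566) (nat_lit 34) (.e (nat_lit 393296) (nat_lit 26) (.e (nat_lit 475176) (nat_lit 24) (.e (nat_lit 516115) (nat_lit 1) (.e (nat_lit 164327) (nat_lit 230) .nil)))))) (.g (nat_lit 1) (.e (nat_lit 155983) (nat_lit 0) .nil) .nil))) 
(.lf (nat_lit 497245) (.g (nat_lit 3476) (.e (nat_lit 163918) (nat_lit 13) (.e (nat_lit 434231) (nat_lit 23) (.e (nat_lit 532550) (nat_lit 12) (.e (nat_lit 360475) (nat_lit 8) (.e (nat_lit 557091) (nat_lit 12) .nil))))) (.g (nat_lit 0) (.e (nat_lit 157773) (nat_lit 0) .nil) .nil)))) (.nd (nat_lit 9) 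
(.lf (nat_lit 496989) (.g (nat_lit 4403) (.e (nat_lit 163908) (nat_lit 12) (.e (nat_lit 426338) (nat_lit 14) (.e (nat_lit 491549) (nat_lit 9) (.e (nat_lit 336430) (nat_lit 29) (.e (nat_lit 442430) (nat_lit 24) (.e (nat_lit 229677) (nat_lit 244) .nil)))))) (.g (nat_lit 1) (.e (nat_lit 156719) (nat_lit 0) .nil) .nil))) 
(.lf (nat_lit 497501) (.g (nat_lit 2400) (.e (nat_lit 163938) (nat_lit 18) (.e (nat_lit 475185) (nat_lit 29) (.e (nat_lit 557100) (nat_lit 13) (.e (nat_lit 172113) (nat_lit 10) (.e (nat_lit 434248) (nat_lit 28) .nil))))) (.g (nat_lit 0) (.e (nat_lit 160906) (nat_lit 0) .nil) .nil))))) (.nd (nat_lit 8) (.nd (nat_lit 9) 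
(.lf (nat_lit 496861) (.g (nat_lit 2511) (.e (nat_lit 163908) (nat_lit 12) (.e (nat_lit 426136) (nat_lit 3) (.e (nat_lit 204869) (nat_lit 29) (.e (nat_lit 360474) (nat_lit 8) (.e (nat_lit 557094) (nat_lit 12) (.e (nat_lit 163849) (nat_lit 0) (.e (nat_lit 6416) (nat_lit 341) .nil))))))) (.g (nat_lit 1) (.e (nat_lit 156130) (nat_lit 0) .nil) .nil))) 
(.lf (nat_lit 497373) (.g (nat_lit 2430) (.e (nat_lit 163936) (nat_lit 18) (.e (nat_lit 475179) (nat_lit 24) (.e (nat_lit 516150) (nat_lit 9) (.e (nat_lit 426323) (nat_lit 13) (.e (nat_lit 483363) (nat_lit 18) (.e (nat_lit 57686) (nat_lit 156) .nil)))))) (.g (nat_lit 1) (.e (nat_lit 160732) (nat_lit 0) .nil) .nil)))) (.nd (nat_lit 9) 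
(.lf (nat_lit 497117) (.g (nat_lit 678) (.e (nat_lit 163914) (nat_lit 12) (.e (nat_lit 426306) (nat_lit 12) (.e (nat_lit 475199) (nat_lit 40) .nil))) (.g (nat_lit 0) (.e (nat_lit 157052) (nat_lit 0) .nil) .nil))) 
(.lf (nat_lit 497629) (.g (nat_lit 3884) (.e (nat_lit 163941) (nat_lit 19) (.e (nat_lit 483337) (nat_lit 9) (.e (nat_lit 426189) (nat_lit 9) (.e (nat_lit 426436) (nat_lit 18) (.e (nat_lit 98335) (nat_lit 18) (.e (nat_lit 164332) (nat_lit 230) .nil)))))) (.g (nat_lit 1) (.e (nat_lit 161112) (nat_lit 0) .nil) .nil))))))) (.nd (nat_lit 6) (.nd (nat_lit 7) (.nd (nat_lit 8) (.nd (nat_lit 9) 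
(.lf (nat_lit 496701) (.g (nat_lit 1294) (.e (nat_lit 163907) (nat_lit 12) (.e (nat_lit 426566) (nat_lit 34) (.e (nat_lit 393283) (nat_lit 24) (.e (nat_lit 434232) (nat_lit 23) .nil)))) (.g (nat_lit 0) (.e (nat_lit 155951) (nat_lit 0) .nil) .nil))) 
(.lf (nat_lit 497213) (.g (nat_lit 4043) (.e (nat_lit 163916) (nat_lit 13) (.e (nat_lit 434231) (nat_lit 23) (.e (nat_lit 532550) (nat_lit 12) (.e (nat_lit 360475) (nat_lit 8) (.e (nat_lit 557091) (nat_lit 12) (.e (nat_lit 163844) (nat_lit 0) (.e (nat_lit 6420) (nat_lit 341) .nil))))))) (.g (nat_lit 1) (.e (nat_lit 157489) (nat_lit 0) .nil) .nil)))) (.nd (nat_lit 9) 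
(.lf (nat_lit 496957) (.g (nat_lit 1879) (.e (nat_lit 163908) (nat_lit 12) (.e (nat_lit 426305) (nat_lit 12) (.e (nat_lit 475211) (nat_lit 41) (.e (nat_lit 712755) (nat_lit 30) (.e (nat_lit 450568) (nat_lit 0) .nil))))) (.g (nat_lit 0) (.e (nat_lit 156523) (nat_lit 0) .nil) .nil))) 
(.lf (nat_lit 497469) (.g (nat_lit 3294) (.e (nat_lit 163938) (nat_lit 18) (.e (nat_lit 475179) (nat_lit 24) (.e (nat_lit 516174) (nat_lit 14) (.e (nat_lit 466954) (nat_lit 11) (.e (nat_lit 335996) (nat_lit 1) (.e (nat_lit 57691) (nat_lit 156) .nil)))))) (.g (nat_lit 1) (.e (nat_lit 160872) (nat_lit 0) .nil) .nil))))) (.nd (nat_lit 8) (.nd (nat_lit 9) 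
(.lf (nat_lit 496829) (.g (nat_lit 4064) (.e (nat_lit 163908) (nat_lit 12) (.e (nat_lit 426132) (nat_lit 3) (.e (nat_lit 204868) (nat_lit 29) (.e (nat_lit 360475) (nat_lit 8) (.e (nat_lit 557089) (nat_lit 12) (.e (nat_lit 163844) (nat_lit 0) (.e (nat_lit 6416) (nat_lit 341) .nil))))))) (.g (nat_lit 1) (.e (nat_lit 156098) (nat_lit 0) .nil) .nil))) 
(.lf (nat_lit 497341) (.g (nat_lit 1639) (.e (nat_lit 163935) (nat_lit 18) (.e (nat_lit 475179) (nat_lit 24) (.e (nat_lit 516174) (nat_lit 14) (.e (nat_lit 466954) (nat_lit 11) .nil)))) (.g (nat_lit 0) (.e (nat_lit 160694) (nat_lit 0) .nil) .nil)))) (.nd (nat_lit 9) 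
(.lf (nat_lit 497085) (.g (nat_lit 4162) (.e (nat_lit 163913) (nat_lit 12) (.e (nat_lit 426129) (nat_lit 3) (.e (nat_lit 204869) (nat_lit 29) (.e (nat_lit 360475) (nat_lit 8) (.e (nat_lit 557091) (nat_lit 12) (.e (nat_lit 163849) (nat_lit 0) (.e (nat_lit 6421) (nat_lit 341) .nil))))))) (.g (nat_lit 1) (.e (nat_lit 156969) (nat_lit 0) .nil) .nil))) 
(.lf (nat_lit 497597) (.g (nat_lit 3174) (.e (nat_lit 163939) (nat_lit 18) (.e (nat_lit 475179) (nat_lit 24) (.e (nat_lit 516176) (nat_lit 14) (.e (nat_lit 466954) (nat_lit 11) (.e (nat_lit 335995) (nat_lit 1) (.e (nat_lit 57688) (nat_lit 156) .nil)))))) (.g (nat_lit 1) (.e (nat_lit 161023) (nat_lit 0) .nil) .nil)))))) (.nd (nat_lit 7) (.nd (nat_lit 8) (.nd (nat_lit 9) 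
(.lf (nat_lit 496765) (.g (nat_lit 2992) (.e (nat_lit 163907) (nat_lit 12) (.e (nat_lit 426568) (nat_lit 34) (.e (nat_lit 393267) (nat_lit 23) (.e (nat_lit 426436) (nat_lit 18) (.e (nat_lit 98333) (nat_lit 18) (.e (nat_lit 164325) (nat_lit 230) .nil)))))) (.g (nat_lit 1) (.e (nat_lit 156015) (nat_lit 0) .nil) .nil))) 
(.lf (nat_lit 497277) (.g (nat_lit 2048) (.e (nat_lit 163923) (nat_lit 15) (.e (nat_lit 450587) (nat_lit 10) (.e (nat_lit 573475) (nat_lit 12) (.e (nat_lit 57359) (nat_lit 0) .nil)))) (.g (nat_lit 0) (.e (nat_lit 158728) (nat_lit 0) .nil) .nil)))) (.nd (nat_lit 9) 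
(.lf (nat_lit 497021) (.g (nat_lit 3353) (.e (nat_lit 163909) (nat_lit 12) (.e (nat_lit 426125) (nat_lit 2) (.e (nat_lit 196666) (nat_lit 13) (.e (nat_lit 65610) (nat_lit 10) (.e (nat_lit 344117) (nat_lit 21) (.e (nat_lit 516099) (nat_lit 0) (.e (nat_lit 2416) (nat_lit 157) (.e (nat_lit 4540) (nat_lit 267) .nil)))))))) (.g (nat_lit 1) (.e (nat_lit 156826) (nat_lit 0) .nil) .nil))) 
(.lf (nat_lit 497533) (.g (nat_lit 1909) (.e (nat_lit 163939) (nat_lit 18) (.e (nat_lit 475177) (nat_lit 24) (.e (nat_lit 516174) (nat_lit 14) (.e (nat_lit 466954) (nat_lit 11) (.e (nat_lit 335994) (nat_lit 1) (.e (nat_lit 57686) (nat_lit 156) .nil)))))) (.g (nat_lit 1) (.e (nat_lit 160940) (nat_lit 0) .nil) .nil))))) (.nd (nat_lit 8) (.nd (nat_lit 9) 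
(.lf (nat_lit 496893) (.g (nat_lit 2445) (.e (nat_lit 163908) (nat_lit 12) (.e (nat_lit 426285) (nat_lit 10) (.e (nat_lit 434265) (nat_lit 35) (.e (nat_lit 630820) (nat_lit 16) (.e (nat_lit 65598) (nat_lit 9) (.e (nat_lit 335997) (nat_lit 1) (.e (nat_lit 57857) (nat_lit 254) .nil))))))) (.g (nat_lit 1) (.e (nat_lit 156332) (nat_lit 0) .nil) .nil))) 
(.lf (nat_lit 497405) (.g (nat_lit 687) (.e (nat_lit 163937) (nat_lit 18) (.e (nat_lit 475179) (nat_lit 24) (.e (nat_lit 516176) (nat_lit 14) .nil))) (.g (nat_lit 0) (.e (nat_lit 160791) (nat_lit 0) .nil) .nil)))) (.nd (nat_lit 9) 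
(.lf (nat_lit 497149) (.g (nat_lit 2501) (.e (nat_lit 163915) (nat_lit 12) (.e (nat_lit 426306) (nat_lit 12) (.e (nat_lit 475208) (nat_lit 41) (.e (nat_lit 712752) (nat_lit 29) (.e (nat_lit 442430) (nat_lit 24) (.e (nat_lit 229679) (nat_lit 244) .nil)))))) (.g (nat_lit 1) (.e (nat_lit 157152) (nat_lit 0) .nil) .nil))) 
(.lf (nat_lit 497661) (.g (nat_lit 2083) (.e (nat_lit 163941) (nat_lit 19) (.e (nat_lit 483339) (nat_lit 9) (.e (nat_lit 426230) (nat_lit 9) (.e (nat_lit 426435) (nat_lit 18) (.e (nat_lit 98334) (nat_lit 18) (.e (nat_lit 164332) (nat_lit 230) .nil)))))) (.g (nat_lit 1) (.e (nat_lit 161221) (nat_lit 0) .nil) .nil))))))))))) 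
(.nd (nat_lit 2) (.nd (nat_lit 3) (.nd (nat_lit 4) (.nd (nat_lit 5) (.nd (nat_lit 6) 
(.nd (nat_lit 7) (.nd (nat_lit 8) (.nd (nat_lit 9) 
(.lf (nat_lit 496643) (.g (nat_lit 1175) (.e (nat_lit 163907) (nat_lit 12) (.e (nat_lit 426555) (nat_lit 32) (.e (nat_lit 376866) (nat_lit 23) .nil))) (.g (nat_lit 0) (.e (nat_lit 155892) (nat_lit 0) .nil) .nil))) 
(.lf (nat_lit 497155) (.g (nat_lit 3379) (.e (nat_lit 163915) (nat_lit 12) (.e (nat_lit 426306) (nat_lit 12) (.e (nat_lit 475210) (nat_lit 41) (.e (nat_lit 712752) (nat_lit 29) (.e (nat_lit 442430) (nat_lit 24) (.e (nat_lit 229679) (nat_lit 244) .nil)))))) (.g (nat_lit 1) (.e (nat_lit 157163) (nat_lit 0) .nil) .nil)))) (.nd (nat_lit 9) 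
(.lf (nat_lit 496899) (.g (nat_lit 1872) (.e (nat_lit 163908) (nat_lit 12) (.e (nat_lit 426285) (nat_lit 10) (.e (nat_lit 434272) (nat_lit 38) (.e (nat_lit 655380) (nat_lit 6) (.e (nat_lit 188455) (nat_lit 24) (.e (nat_lit 229677) (nat_lit 244) .nil)))))) (.g (nat_lit 1) (.e (nat_lit 156338) (nat_lit 0) .nil) .nil))) 
(.lf (nat_lit 497411) (.g (nat_lit 1887) (.e (nat_lit 163938) (nat_lit 18) (.e (nat_lit 475176) (nat_lit 24) (.e (nat_lit 516176) (nat_lit 14) (.e (nat_lit 466954) (nat_lit 11) (.e (nat_lit 335996) (nat_lit 1) .nil))))) (.g (nat_lit 0) (.e (nat_lit 160797) (nat_lit 0) .nil) .nil))))) (.nd (nat_lit 8) (.nd (nat_lit 9) 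
(.lf (nat_lit 496771) (.g (nat_lit 3670) (.e (nat_lit 163907) (nat_lit 12) (.e (nat_lit 426568) (nat_lit 34) (.e (nat_lit 393269) (nat_lit 23) (.e (nat_lit 426436) (nat_lit 18) (.e (nat_lit 98335) (nat_lit 18) (.e (nat_lit 164325) (nat_lit 230) .nil)))))) (.g (nat_lit 1) (.e (nat_lit 156021) (nat_lit 0) .nil) .nil))) 
(.lf (nat_lit 497283) (.g (nat_lit 2444) (.e (nat_lit 163923) (nat_lit 15) (.e (nat_lit 450588) (nat_lit 10) (.e (nat_lit 573451) (nat_lit 9) (.e (nat_lit 1286) (nat_lit 95) .nil)))) (.g (nat_lit 0) (.e (nat_lit 158750) (nat_lit 0) .nil) .nil)))) (.nd (nat_lit 9) 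
(.lf (nat_lit 497027) (.g (nat_lit 2890) (.e (nat_lit 163909) (nat_lit 12) (.e (nat_lit 426125) (nat_lit 2) (.e (nat_lit 196666) (nat_lit 13) (.e (nat_lit 65617) (nat_lit 10) (.e (nat_lit 344127) (nat_lit 26) .nil))))) (.g (nat_lit 0) (.e (nat_lit 156834) (nat_lit 0) .nil) .nil))) 
(.lf (nat_lit 497539) (.g (nat_lit 3137) (.e (nat_lit 163939) (nat_lit 18) (.e (nat_lit 475177) (nat_lit 24) (.e (nat_lit 516176) (nat_lit 14) (.e (nat_lit 466954) (nat_lit 11) (.e (nat_lit 335988) (nat_lit 1) (.e (nat_lit 57691) (nat_lit 156) .nil)))))) (.g (nat_lit 1) (.e (nat_lit 160946) (nat_lit 0) .nil) .nil)))))) (.nd (nat_lit 7) (.nd (nat_lit 8) (.nd (nat_lit 9) 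
(.lf (nat_lit 496707) (.g (nat_lit 2953) (.e (nat_lit 163907) (nat_lit 12) (.e (nat_lit 426566) (nat_lit 34) (.e (nat_lit 393287) (nat_lit 25) (.e (nat_lit 458789) (nat_lit 23) (.e (nat_lit 532501) (nat_lit 1) (.e (nat_lit 57692) (nat_lit 156) .nil)))))) (.g (nat_lit 1) (.e (nat_lit 155957) (nat_lit 0) .nil) .nil))) 
(.lf (nat_lit 497219) (.g (nat_lit 1634) (.e (nat_lit 163917) (nat_lit 13) (.e (nat_lit 434180) (nat_lit 0) (.e (nat_lit 1428) (nat_lit 108) (.e (nat_lit 336430) (nat_lit 29) (.e (nat_lit 442430) (nat_lit 24) .nil))))) (.g (nat_lit 0) (.e (nat_lit 157529) (nat_lit 0) .nil) .nil)))) (.nd (nat_lit 9) 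
(.lf (nat_lit 496963) (.g (nat_lit 2052) (.e (nat_lit 163908) (nat_lit 12) (.e (nat_lit 426305) (nat_lit 12) (.e (nat_lit 475211) (nat_lit 41) (.e (nat_lit 712755) (nat_lit 30) (.e (nat_lit 458496) (nat_lit 0) .nil))))) (.g (nat_lit 0) (.e (nat_lit 156529) (nat_lit 0) .nil) .nil))) 
(.lf (nat_lit 497475) (.g (nat_lit 3161) (.e (nat_lit 163938) (nat_lit 18) (.e (nat_lit 475179) (nat_lit 24) (.e (nat_lit 516176) (nat_lit 14) (.e (nat_lit 466954) (nat_lit 11) (.e (nat_lit 335986) (nat_lit 1) (.e (nat_lit 57691) (nat_lit 156) .nil)))))) (.g (nat_lit 1) (.e (nat_lit 160879) (nat_lit 0) .nil) .nil))))) (.nd (nat_lit 8) (.nd (nat_lit 9) 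
(.lf (nat_lit 496835) (.g (nat_lit 4118) (.e (nat_lit 163908) (nat_lit 12) (.e (nat_lit 426132) (nat_lit 3) (.e (nat_lit 204868) (nat_lit 29) (.e (nat_lit 360475) (nat_lit 8) (.e (nat_lit 557091) (nat_lit 12) (.e (nat_lit 163847) (nat_lit 0) (.e (nat_lit 6420) (nat_lit 341) .nil))))))) (.g (nat_lit 1) (.e (nat_lit 156104) (nat_lit 0) .nil) .nil))) 
(.lf (nat_lit 497347) (.g (nat_lit 2313) (.e (nat_lit 163935) (nat_lit 18) (.e (nat_lit 475179) (nat_lit 24) (.e (nat_lit 516176) (nat_lit 14) (.e (nat_lit 466954) (nat_lit 11) (.e (nat_lit 335996) (nat_lit 1) .nil))))) (.g (nat_lit 0) (.e (nat_lit 160700) (nat_lit 0) .nil) .nil)))) (.nd (nat_lit 9) 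
(.lf (nat_lit 497091) (.g (nat_lit 2196) (.e (nat_lit 163913) (nat_lit 12) (.e (nat_lit 426318) (nat_lit 12) (.e (nat_lit 475198) (nat_lit 40) (.e (nat_lit 704599) (nat_lit 6) (.e (nat_lit 188455) (nat_lit 24) (.e (nat_lit 229680) (nat_lit 244) .nil)))))) (.g (nat_lit 1) (.e (nat_lit 156977) (nat_lit 0) .nil) .nil))) 
(.lf (nat_lit 497603) (.g (nat_lit 3238) (.e (nat_lit 163939) (nat_lit 18) (.e (nat_lit 475185) (nat_lit 29) (.e (nat_lit 557100) (nat_lit 13) (.e (nat_lit 172113) (nat_lit 10) (.e (nat_lit 434245) (nat_lit 28) (.e (nat_lit 573474) (nat_lit 12) (.e (nat_lit 57347) (nat_lit 0) (.e (nat_lit 6938) (nat_lit 375) .nil)))))))) (.g (nat_lit 1) (.e (nat_lit 161029) (nat_lit 0) .nil) .nil))))))) 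
(.nd (nat_lit 6) (.nd (nat_lit 7) (.nd (nat_lit 8) (.nd (nat_lit 9) 
(.lf (nat_lit 496675) (.g (nat_lit 3297) (.e (nat_lit 163907) (nat_lit 12) (.e (nat_lit 426566) (nat_lit 34) (.e (nat_lit 393271) (nat_lit 23) (.e (nat_lit 426131) (nat_lit 3) (.e (nat_lit 204831) (nat_lit 18) (.e (nat_lit 57692) (nat_lit 156) .nil)))))) (.g (nat_lit 1) (.e (nat_lit 155925) (nat_lit 0) .nil) .nil))) 
(.lf (nat_lit 497187) (.g (nat_lit 1232) (.e (nat_lit 171776) (nat_lit 12) (.e (nat_lit 426436) (nat_lit 18) (.e (nat_lit 98380) (nat_lit 31) (.e (nat_lit 466954) (nat_lit 11) .nil)))) (.g (nat_lit 0) (.e (nat_lit 157387) (nat_lit 0) .nil) .nil)))) (.nd (nat_lit 9) 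
(.lf (nat_lit 496931) (.g (nat_lit 3649) (.e (nat_lit 163908) (nat_lit 12) (.e (nat_lit 426305) (nat_lit 12) (.e (nat_lit 475198) (nat_lit 40) (.e (nat_lit 704598) (nat_lit 6) (.e (nat_lit 188453) (nat_lit 24) (.e (nat_lit 229678) (nat_lit 244) .nil)))))) (.g (nat_lit 1) (.e (nat_lit 156466) (nat_lit 0) .nil) .nil))) 
(.lf (nat_lit 497443) (.g (nat_lit 3107) (.e (nat_lit 163938) (nat_lit 18) (.e (nat_lit 475179) (nat_lit 24) (.e (nat_lit 516146) (nat_lit 9) (.e (nat_lit 426323) (nat_lit 13) (.e (nat_lit 483363) (nat_lit 18) (.e (nat_lit 57688) (nat_lit 156) .nil)))))) (.g (nat_lit 1) (.e (nat_lit 160830) (nat_lit 0) .nil) .nil))))) (.nd (nat_lit 8) (.nd (nat_lit 9) 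
(.lf (nat_lit 496803) (.g (nat_lit 1799) (.e (nat_lit 163907) (nat_lit 12) (.e (nat_lit 426568) (nat_lit 34) (.e (nat_lit 393292) (nat_lit 26) (.e (nat_lit 475177) (nat_lit 24) (.e (nat_lit 516119) (nat_lit 1) (.e (nat_lit 164325) (nat_lit 230) .nil)))))) (.g (nat_lit 1) (.e (nat_lit 156053) (nat_lit 0) .nil) .nil))) 
(.lf (nat_lit 497315) (.g (nat_lit 807) (.e (nat_lit 163932) (nat_lit 17) (.e (nat_lit 466954) (nat_lit 11) (.e (nat_lit 336068) (nat_lit 8) .nil))) (.g (nat_lit 0) (.e (nat_lit 159872) (nat_lit 0) .nil) .nil)))) (.nd (nat_lit 9) 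
(.lf (nat_lit 497059) (.g (nat_lit 3820) (.e (nat_lit 163911) (nat_lit 12) (.e (nat_lit 426125) (nat_lit 2) (.e (nat_lit 196666) (nat_lit 13) (.e (nat_lit 65617) (nat_lit 10) (.e (nat_lit 344133) (nat_lit 26) .nil))))) (.g (nat_lit 0) (.e (nat_lit 156909) (nat_lit 0) .nil) .nil))) 
(.lf (nat_lit 497571) (.g (nat_lit 2192) (.e (nat_lit 163939) (nat_lit 18) (.e (nat_lit 475179) (nat_lit 24) (.e (nat_lit 516174) (nat_lit 14) (.e (nat_lit 466954) (nat_lit 11) (.e (nat_lit 335986) (nat_lit 1) (.e (nat_lit 57686) (nat_lit 156) .nil)))))) (.g (nat_lit 1) (.e (nat_lit 160997) (nat_lit 0) .nil) .nil)))))) (.nd (nat_lit 7) (.nd (nat_lit 8) (.nd (nat_lit 9) 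
(.lf (nat_lit 496739) (.g (nat_lit 3034) (.e (nat_lit 163907) (nat_lit 12) (.e (nat_lit 426566) (nat_lit 34) (.e (nat_lit 393296) (nat_lit 26) (.e (nat_lit 475177) (nat_lit 24) (.e (nat_lit 516118) (nat_lit 1) (.e (nat_lit 164325) (nat_lit 230) .nil)))))) (.g (nat_lit 1) (.e (nat_lit 155989) (nat_lit 0) .nil) .nil))) 
(.lf (nat_lit 497251) (.g (nat_lit 2702) (.e (nat_lit 163919) (nat_lit 14) (.e (nat_lit 442374) (nat_lit 0) (.e (nat_lit 2059) (nat_lit 142) (.e (nat_lit 704598) (nat_lit 6) (.e (nat_lit 188455) (nat_lit 24) (.e (nat_lit 229681) (nat_lit 244) .nil)))))) (.g (nat_lit 1) (.e (nat_lit 157801) (nat_lit 0) .nil) .nil)))) (.nd (nat_lit 9) 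
(.lf (nat_lit 496995) (.g (nat_lit 2472) (.e (nat_lit 163908) (nat_lit 12) (.e (nat_lit 426338) (nat_lit 14) (.e (nat_lit 491549) (nat_lit 9) (.e (nat_lit 336432) (nat_lit 30) (.e (nat_lit 450567) (nat_lit 0) .nil))))) (.g (nat_lit 0) (.e (nat_lit 156725) (nat_lit 0) .nil) .nil))) 
(.lf (nat_lit 497507) (.g (nat_lit 3165) (.e (nat_lit 163938) (nat_lit 18) (.e (nat_lit 475185) (nat_lit 29) (.e (nat_lit 557100) (nat_lit 13) (.e (nat_lit 172113) (nat_lit 10) (.e (nat_lit 434248) (nat_lit 28) (.e (nat_lit 573475) (nat_lit 12) (.e (nat_lit 57348) (nat_lit 0) (.e (nat_lit 6942) (nat_lit 375) .nil)))))))) (.g (nat_lit 1) (.e (nat_lit 160912) (nat_lit 0) .nil) .nil))))) 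
(.nd (nat_lit 8) (.nd (nat_lit 9) 
(.lf (nat_lit 496867) (.g (nat_lit 3319) (.e (nat_lit 163908) (nat_lit 12) (.e (nat_lit 426136) (nat_lit 3) (.e (nat_lit 204869) (nat_lit 29) (.e (nat_lit 360475) (nat_lit 8) (.e (nat_lit 557091) (nat_lit 12) (.e (nat_lit 163840) (nat_lit 0) (.e (nat_lit 6418) (nat_lit 341) .nil))))))) (.g (nat_lit 1) (.e (nat_lit 156136) (nat_lit 0) .nil) .nil))) 
(.lf (nat_lit 497379) (.g (nat_lit 2909) (.e (nat_lit 163936) (nat_lit 18) (.e (nat_lit 475179) (nat_lit 24) (.e (nat_lit 516151) (nat_lit 9) (.e (nat_lit 426331) (nat_lit 13) (.e (nat_lit 483363) (nat_lit 18) (.e (nat_lit 57688) (nat_lit 156) .nil)))))) (.g (nat_lit 1) (.e (nat_lit 160739) (nat_lit 0) .nil) .nil)))) (.nd (nat_lit 9) 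
(.lf (nat_lit 497123) (.g (nat_lit 2926) (.e (nat_lit 163915) (nat_lit 12) (.e (nat_lit 426133) (nat_lit 3) (.e (nat_lit 204852) (nat_lit 26) (.e (nat_lit 336310) (nat_lit 16) (.e (nat_lit 164177) (nat_lit 154) .nil))))) (.g (nat_lit 0) (.e (nat_lit 157112) (nat_lit 0) .nil) .nil))) 
(.lf (nat_lit 497635) (.g (nat_lit 3480) (.e (nat_lit 163941) (nat_lit 19) (.e (nat_lit 483337) (nat_lit 9) (.e (nat_lit 426190) (nat_lit 9) (.e (nat_lit 426436) (nat_lit 18) (.e (nat_lit 98335) (nat_lit 18) (.e (nat_lit 164330) (nat_lit 230) .nil)))))) (.g (nat_lit 1) (.e (nat_lit 161125) (nat_lit 0) .nil) .nil)))))))) 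
(.nd (nat_lit 5) (.nd (nat_lit 6) (.nd (nat_lit 7) (.nd (nat_lit 8) (.nd (nat_lit 9) 
(.lf (nat_lit 496659) (.g (nat_lit 2736) (.e (nat_lit 163907) (nat_lit 12) (.e (nat_lit 426566) (nat_lit 34) (.e (nat_lit 393268) (nat_lit 23) (.e (nat_lit 426438) (nat_lit 18) (.e (nat_lit 98333) (nat_lit 18) (.e (nat_lit 164327) (nat_lit 230) .nil)))))) (.g (nat_lit 1) (.e (nat_lit 155909) (nat_lit 0) .nil) .nil))) 
(.lf (nat_lit 497171) (.g (nat_lit 1632) (.e (nat_lit 171776) (nat_lit 12) (.e (nat_lit 426139) (nat_lit 3) (.e (nat_lit 204868) (nat_lit 29) (.e (nat_lit 360473) (nat_lit 8) (.e (nat_lit 557089) (nat_lit 12) .nil))))) (.g (nat_lit 0) (.e (nat_lit 157352) (nat_lit 0) .nil) .nil)))) (.nd (nat_lit 9) 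
(.lf (nat_lit 496915) (.g (nat_lit 2831) (.e (nat_lit 163908) (nat_lit 12) (.e (nat_lit 426286) (nat_lit 10) (.e (nat_lit 434272) (nat_lit 38) (.e (nat_lit 655380) (nat_lit 6) (.e (nat_lit 188455) (nat_lit 24) (.e (nat_lit 229677) (nat_lit 244) .nil)))))) (.g (nat_lit 1) (.e (nat_lit 156435) (nat_lit 0) .nil) .nil))) 
(.lf (nat_lit 497427) (.g (nat_lit 3256) (.e (nat_lit 163938) (nat_lit 18) (.e (nat_lit 475177) (nat_lit 24) (.e (nat_lit 516174) (nat_lit 14) (.e (nat_lit 466954) (nat_lit 11) (.e (nat_lit 335988) (nat_lit 1) (.e (nat_lit 57691) (nat_lit 156) .nil)))))) (.g (nat_lit 1) (.e (nat_lit 160813) (nat_lit 0) .nil) .nil))))) (.nd (nat_lit 8) (.nd (nat_lit 9) 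
(.lf (nat_lit 496787) (.g (nat_lit 2116) (.e (nat_lit 163907) (nat_lit 12) (.e (nat_lit 426568) (nat_lit 34) (.e (nat_lit 393281) (nat_lit 23) (.e (nat_lit 426139) (nat_lit 3) (.e (nat_lit 204830) (nat_lit 18) (.e (nat_lit 57692) (nat_lit 156) .nil)))))) (.g (nat_lit 1) (.e (nat_lit 156037) (nat_lit 0) .nil) .nil))) 
(.lf (nat_lit 497299) (.g (nat_lit 2575) (.e (nat_lit 163923) (nat_lit 15) (.e (nat_lit 450601) (nat_lit 21) (.e (nat_lit 696344) (nat_lit 8) (.e (nat_lit 172113) (nat_lit 10) (.e (nat_lit 434203) (nat_lit 18) (.e (nat_lit 6416) (nat_lit 341) .nil)))))) (.g (nat_lit 1) (.e (nat_lit 158793) (nat_lit 0) .nil) .nil)))) (.nd (nat_lit 9) 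
(.lf (nat_lit 497043) (.g (nat_lit 1970) (.e (nat_lit 163909) (nat_lit 12) (.e (nat_lit 426140) (nat_lit 3) (.e (nat_lit 204868) (nat_lit 29) (.e (nat_lit 360473) (nat_lit 8) (.e (nat_lit 557093) (nat_lit 12) .nil))))) (.g (nat_lit 0) (.e (nat_lit 156864) (nat_lit 0) .nil) .nil))) 
(.lf (nat_lit 497555) (.g (nat_lit 2424) (.e (nat_lit 163939) (nat_lit 18) (.e (nat_lit 475179) (nat_lit 24) (.e (nat_lit 516150) (nat_lit 9) (.e (nat_lit 426323) (nat_lit 13) (.e (nat_lit 483363) (nat_lit 18) (.e (nat_lit 57686) (nat_lit 156) .nil)))))) (.g (nat_lit 1) (.e (nat_lit 160970) (nat_lit 0) .nil) .nil)))))) (.nd (nat_lit 7) (.nd (nat_lit 8) (.nd (nat_lit 9) 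
(.lf (nat_lit 496723) (.g (nat_lit 2952) (.e (nat_lit 163907) (nat_lit 12) (.e (nat_lit 426566) (nat_lit 34) (.e (nat_lit 393293) (nat_lit 26) (.e (nat_lit 475179) (nat_lit 24) (.e (nat_lit 516115) (nat_lit 1) (.e (nat_lit 164327) (nat_lit 230) .nil)))))) (.g (nat_lit 1) (.e (nat_lit 155973) (nat_lit 0) .nil) .nil))) 
(.lf (nat_lit 497235) (.g (nat_lit 4063) (.e (nat_lit 163917) (nat_lit 13) (.e (nat_lit 434231) (nat_lit 23) (.e (nat_lit 532550) (nat_lit 12) (.e (nat_lit 360475) (nat_lit 8) (.e (nat_lit 557091) (nat_lit 12) (.e (nat_lit 163844) (nat_lit 0) (.e (nat_lit 6420) (nat_lit 341) .nil))))))) (.g (nat_lit 1) (.e (nat_lit 157641) (nat_lit 0) .nil) .nil)))) (.nd (nat_lit 9) 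
(.lf (nat_lit 496979) (.g (nat_lit 3526) (.e (nat_lit 163908) (nat_lit 12) (.e (nat_lit 426338) (nat_lit 14) (.e (nat_lit 491549) (nat_lit 9) (.e (nat_lit 336426) (nat_lit 29) (.e (nat_lit 442430) (nat_lit 24) (.e (nat_lit 229677) (nat_lit 244) .nil)))))) (.g (nat_lit 1) (.e (nat_lit 156706) (nat_lit 0) .nil) .nil))) 
(.lf (nat_lit 497491) (.g (nat_lit 2453) (.e (nat_lit 163938) (nat_lit 18) (.e (nat_lit 475185) (nat_lit 29) (.e (nat_lit 557100) (nat_lit 13) (.e (nat_lit 172113) (nat_lit 10) (.e (nat_lit 434245) (nat_lit 28) .nil))))) (.g (nat_lit 0) (.e (nat_lit 160896) (nat_lit 0) .nil) .nil))))) (.nd (nat_lit 8) (.nd (nat_lit 9) 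
(.lf (nat_lit 496851) (.g (nat_lit 3940) (.e (nat_lit 163908) (nat_lit 12) (.e (nat_lit 426132) (nat_lit 3) (.e (nat_lit 204869) (nat_lit 29) (.e (nat_lit 360475) (nat_lit 8) (.e (nat_lit 557091) (nat_lit 12) (.e (nat_lit 163844) (nat_lit 0) (.e (nat_lit 6420) (nat_lit 341) .nil))))))) (.g (nat_lit 1) (.e (nat_lit 156120) (nat_lit 0) .nil) .nil))) 
(.lf (nat_lit 497363) (.g (nat_lit 1848) (.e (nat_lit 163936) (nat_lit 18) (.e (nat_lit 475177) (nat_lit 24) (.e (nat_lit 516176) (nat_lit 14) (.e (nat_lit 466950) (nat_lit 11) (.e (nat_lit 335995) (nat_lit 1) (.e (nat_lit 57688) (nat_lit 156) .nil)))))) (.g (nat_lit 1) (.e (nat_lit 160718) (nat_lit 0) .nil) .nil)))) (.nd (nat_lit 9) 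
(.lf (nat_lit 497107) (.g (nat_lit 1907) (.e (nat_lit 163913) (nat_lit 12) (.e (nat_lit 426347) (nat_lit 14) (.e (nat_lit 491550) (nat_lit 9) (.e (nat_lit 336430) (nat_lit 29) .nil)))) (.g (nat_lit 0) (.e (nat_lit 157023) (nat_lit 0) .nil) .nil))) 
(.lf (nat_lit 497619) (.g (nat_lit 3680) (.e (nat_lit 163941) (nat_lit 19) (.e (nat_lit 483337) (nat_lit 9) (.e (nat_lit 426187) (nat_lit 9) (.e (nat_lit 426436) (nat_lit 18) (.e (nat_lit 98335) (nat_lit 18) (.e (nat_lit 164332) (nat_lit 230) .nil)))))) (.g (nat_lit 1) (.e (nat_lit 161092) (nat_lit 0) .nil) .nil))))))) (.nd (nat_lit 6) (.nd (nat_lit 7) (.nd (nat_lit 8) (.nd (nat_lit 9) 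
(.lf (nat_lit 496691) (.g (nat_lit 3418) (.e (nat_lit 163907) (nat_lit 12) (.e (nat_lit 426566) (nat_lit 34) (.e (nat_lit 393273) (nat_lit 23) (.e (nat_lit 426436) (nat_lit 18) (.e (nat_lit 98333) (nat_lit 18) (.e (nat_lit 164327) (nat_lit 230) .nil)))))) (.g (nat_lit 1) (.e (nat_lit 155941) (nat_lit 0) .nil) .nil))) 
(.lf (nat_lit 497203) (.g (nat_lit 2034) (.e (nat_lit 163916) (nat_lit 13) (.e (nat_lit 434231) (nat_lit 23) (.e (nat_lit 532550) (nat_lit 12) (.e (nat_lit 360474) (nat_lit 8) (.e (nat_lit 557093) (nat_lit 12) (.e (nat_lit 163849) (nat_lit 0) (.e (nat_lit 6418) (nat_lit 341) .nil))))))) (.g (nat_lit 1) (.e (nat_lit 157479) (nat_lit 0) .nil) .nil)))) (.nd (nat_lit 9) 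
(.lf (nat_lit 496947) (.g (nat_lit 2442) (.e (nat_lit 163908) (nat_lit 12) (.e (nat_lit 426305) (nat_lit 12) (.e (nat_lit 475211) (nat_lit 41) (.e (nat_lit 712750) (nat_lit 29) (.e (nat_lit 442430) (nat_lit 24) (.e (nat_lit 229678) (nat_lit 244) .nil)))))) (.g (nat_lit 1) (.e (nat_lit 156513) (nat_lit 0) .nil) .nil))) 
(.lf (nat_lit 497459) (.g (nat_lit 3307) (.e (nat_lit 163938) (nat_lit 18) (.e (nat_lit 475179) (nat_lit 24) (.e (nat_lit 516151) (nat_lit 9) (.e (nat_lit 426331) (nat_lit 13) (.e (nat_lit 483363) (nat_lit 18) (.e (nat_lit 57691) (nat_lit 156) .nil)))))) (.g (nat_lit 1) (.e (nat_lit 160850) (nat_lit 0) .nil) .nil))))) (.nd (nat_lit 8) (.nd (nat_lit 9) 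
(.lf (nat_lit 496819) (.g (nat_lit 3402) (.e (nat_lit 163908) (nat_lit 12) (.e (nat_lit 426132) (nat_lit 3) (.e (nat_lit 204868) (nat_lit 29) (.e (nat_lit 360473) (nat_lit 8) (.e (nat_lit 557091) (nat_lit 12) (.e (nat_lit 163843) (nat_lit 0) (.e (nat_lit 6416) (nat_lit 341) .nil))))))) (.g (nat_lit 1) (.e (nat_lit 156088) (nat_lit 0) .nil) .nil))) 
(.lf (nat_lit 497331) (.g (nat_lit 1386) (.e (nat_lit 163933) (nat_lit 17) (.e (nat_lit 466977) (nat_lit 22) (.e (nat_lit 196624) (nat_lit 9) (.e (nat_lit 489) (nat_lit 38) .nil)))) (.g (nat_lit 0) (.e (nat_lit 160629) (nat_lit 0) .nil) .nil)))) (.nd (nat_lit 9) 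
(.lf (nat_lit 497075) (.g (nat_lit 4611) (.e (nat_lit 163913) (nat_lit 12) (.e (nat_lit 426129) (nat_lit 3) (.e (nat_lit 204869) (nat_lit 29) (.e (nat_lit 360474) (nat_lit 8) (.e (nat_lit 557089) (nat_lit 12) (.e (nat_lit 163849) (nat_lit 0) (.e (nat_lit 6421) (nat_lit 341) .nil))))))) (.g (nat_lit 1) (.e (nat_lit 156959) (nat_lit 0) .nil) .nil))) 
(.lf (nat_lit 497587) (.g (nat_lit 2936) (.e (nat_lit 163939) (nat_lit 18) (.e (nat_lit 475179) (nat_lit 24) (.e (nat_lit 516176) (nat_lit 14) (.e (nat_lit 466954) (nat_lit 11) (.e (nat_lit 335986) (nat_lit 1) (.e (nat_lit 57692) (nat_lit 156) .nil)))))) (.g (nat_lit 1) (.e (nat_lit 161013) (nat_lit 0) .nil) .nil)))))) (.nd (nat_lit 7) (.nd (nat_lit 8) (.nd (nat_lit 9) 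
(.lf (nat_lit 496755) (.g (nat_lit 3164) (.e (nat_lit 163907) (nat_lit 12) (.e (nat_lit 426567) (nat_lit 34) (.e (nat_lit 393294) (nat_lit 26) (.e (nat_lit 475177) (nat_lit 24) (.e (nat_lit 516115) (nat_lit 1) (.e (nat_lit 164325) (nat_lit 230) .nil)))))) (.g (nat_lit 1) (.e (nat_lit 156005) (nat_lit 0) .nil) .nil))) 
(.lf (nat_lit 497267) (.g (nat_lit 1113) (.e (nat_lit 163921) (nat_lit 14) (.e (nat_lit 442421) (nat_lit 21) (.e (nat_lit 164319) (nat_lit 228) (.e (nat_lit 57424) (nat_lit 14) .nil)))) (.g (nat_lit 0) (.e (nat_lit 158285) (nat_lit 0) .nil) .nil)))) (.nd (nat_lit 9) 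
(.lf (nat_lit 497011) (.g (nat_lit 2805) (.e (nat_lit 163908) (nat_lit 12) (.e (nat_lit 426338) (nat_lit 14) (.e (nat_lit 491550) (nat_lit 9) (.e (nat_lit 336430) (nat_lit 29) (.e (nat_lit 442430) (nat_lit 24) (.e (nat_lit 229681) (nat_lit 244) .nil)))))) (.g (nat_lit 1) (.e (nat_lit 156743) (nat_lit 0) .nil) .nil))) 
(.lf (nat_lit 497523) (.g (nat_lit 3091) (.e (nat_lit 163939) (nat_lit 18) (.e (nat_lit 475177) (nat_lit 24) (.e (nat_lit 516150) (nat_lit 9) (.e (nat_lit 426323) (nat_lit 13) (.e (nat_lit 483364) (nat_lit 18) (.e (nat_lit 57691) (nat_lit 156) .nil)))))) (.g (nat_lit 1) (.e (nat_lit 160929) (nat_lit 0) .nil) .nil))))) (.nd (nat_lit 8) (.nd (nat_lit 9) 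
(.lf (nat_lit 496883) (.g (nat_lit 1507) (.e (nat_lit 163908) (nat_lit 12) (.e (nat_lit 426171) (nat_lit 7) (.e (nat_lit 409639) (nat_lit 15) (.e (nat_lit 278566) (nat_lit 16) (.e (nat_lit 286747) (nat_lit 9) (.e (nat_lit 335997) (nat_lit 1) (.e (nat_lit 57857) (nat_lit 254) .nil))))))) (.g (nat_lit 1) (.e (nat_lit 156186) (nat_lit 0) .nil) .nil))) 
(.lf (nat_lit 497395) (.g (nat_lit 3362) (.e (nat_lit 163936) (nat_lit 18) (.e (nat_lit 475179) (nat_lit 24) (.e (nat_lit 516176) (nat_lit 14) (.e (nat_lit 466954) (nat_lit 11) (.e (nat_lit 335995) (nat_lit 1) (.e (nat_lit 57688) (nat_lit 156) .nil)))))) (.g (nat_lit 1) (.e (nat_lit 160772) (nat_lit 0) .nil) .nil)))) (.nd (nat_lit 9) 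
(.lf (nat_lit 497139) (.g (nat_lit 1963) (.e (nat_lit 163915) (nat_lit 12) (.e (nat_lit 426306) (nat_lit 12) (.e (nat_lit 475198) (nat_lit 40) (.e (nat_lit 704598) (nat_lit 6) (.e (nat_lit 188453) (nat_lit 24) (.e (nat_lit 229680) (nat_lit 244) .nil)))))) (.g (nat_lit 1) (.e (nat_lit 157141) (nat_lit 0) .nil) .nil))) 
(.lf (nat_lit 497651) (.g (nat_lit 3698) (.e (nat_lit 163941) (nat_lit 19) (.e (nat_lit 483337) (nat_lit 9) (.e (nat_lit 426305) (nat_lit 12) (.e (nat_lit 475179) (nat_lit 24) (.e (nat_lit 516120) (nat_lit 1) (.e (nat_lit 164332) (nat_lit 230) .nil)))))) (.g (nat_lit 1) (.e (nat_lit 161163) (nat_lit 0) .nil) .nil))))))))) 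
(.nd (nat_lit 4) (.nd (nat_lit 5) (.nd (nat_lit 6) (.nd (nat_lit 7) (.nd (nat_lit 8) 
(.nd (nat_lit 9) 
(.lf (nat_lit 496651) (.g (nat_lit 2174) (.e (nat_lit 163907) (nat_lit 12) (.e (nat_lit 426555) (nat_lit 32) (.e (nat_lit 376869) (nat_lit 23) (.e (nat_lit 98317) (nat_lit 9) (.e (nat_lit 343808) (nat_lit 1) (.e (nat_lit 57927) (nat_lit 282) .nil)))))) (.g (nat_lit 1) (.e (nat_lit 155901) (nat_lit 0) .nil) .nil))) 
(.lf (nat_lit 497163) (.g (nat_lit 2816) (.e (nat_lit 163915) (nat_lit 12) (.e (nat_lit 426306) (nat_lit 12) (.e (nat_lit 475211) (nat_lit 41) (.e (nat_lit 712752) (nat_lit 29) (.e (nat_lit 442430) (nat_lit 24) (.e (nat_lit 229679) (nat_lit 244) .nil)))))) (.g (nat_lit 1) (.e (nat_lit 157173) (nat_lit 0) .nil) .nil)))) (.nd (nat_lit 9) 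
(.lf (nat_lit 496907) (.g (nat_lit 1977) (.e (nat_lit 163908) (nat_lit 12) (.e (nat_lit 426286) (nat_lit 10) (.e (nat_lit 434268) (nat_lit 36) (.e (nat_lit 639020) (nat_lit 16) (.e (nat_lit 65599) (nat_lit 9) (.e (nat_lit 335997) (nat_lit 1) (.e (nat_lit 57857) (nat_lit 254) .nil))))))) (.g (nat_lit 1) (.e (nat_lit 156424) (nat_lit 0) .nil) .nil))) 
(.lf (nat_lit 497419) (.g (nat_lit 3273) (.e (nat_lit 163938) (nat_lit 18) (.e (nat_lit 475177) (nat_lit 24) (.e (nat_lit 516150) (nat_lit 9) (.e (nat_lit 426323) (nat_lit 13) (.e (nat_lit 483363) (nat_lit 18) (.e (nat_lit 57688) (nat_lit 156) .nil)))))) (.g (nat_lit 1) (.e (nat_lit 160805) (nat_lit 0) .nil) .nil))))) (.nd (nat_lit 8) (.nd (nat_lit 9) 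
(.lf (nat_lit 496779) (.g (nat_lit 2659) (.e (nat_lit 163907) (nat_lit 12) (.e (nat_lit 426568) (nat_lit 34) (.e (nat_lit 393271) (nat_lit 23) (.e (nat_lit 426131) (nat_lit 3) (.e (nat_lit 204830) (nat_lit 18) (.e (nat_lit 57690) (nat_lit 156) .nil)))))) (.g (nat_lit 1) (.e (nat_lit 156029) (nat_lit 0) .nil) .nil))) 
(.lf (nat_lit 497291) (.g (nat_lit 1749) (.e (nat_lit 163923) (nat_lit 15) (.e (nat_lit 450584) (nat_lit 9) (.e (nat_lit 565267) (nat_lit 4) (.e (nat_lit 65610) (nat_lit 10) (.e (nat_lit 344090) (nat_lit 18) (.e (nat_lit 7708) (nat_lit 414) .nil)))))) (.g (nat_lit 1) (.e (nat_lit 158777) (nat_lit 0) .nil) .nil)))) (.nd (nat_lit 9) 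
(.lf (nat_lit 497035) (.g (nat_lit 3111) (.e (nat_lit 163909) (nat_lit 12) (.e (nat_lit 426125) (nat_lit 2) (.e (nat_lit 196666) (nat_lit 13) (.e (nat_lit 65617) (nat_lit 10) (.e (nat_lit 344132) (nat_lit 26) .nil))))) (.g (nat_lit 0) (.e (nat_lit 156842) (nat_lit 0) .nil) .nil))) 
(.lf (nat_lit 497547) (.g (nat_lit 1626) (.e (nat_lit 163939) (nat_lit 18) (.e (nat_lit 475179) (nat_lit 24) (.e (nat_lit 516146) (nat_lit 9) (.e (nat_lit 426323) (nat_lit 13) .nil)))) (.g (nat_lit 0) (.e (nat_lit 160955) (nat_lit 0) .nil) .nil)))))) (.nd (nat_lit 7) (.nd (nat_lit 8) (.nd (nat_lit 9) 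
(.lf (nat_lit 496715) (.g (nat_lit 3267) (.e (nat_lit 163907) (nat_lit 12) (.e (nat_lit 426566) (nat_lit 34) (.e (nat_lit 393291) (nat_lit 26) (.e (nat_lit 475177) (nat_lit 24) (.e (nat_lit 516119) (nat_lit 1) (.e (nat_lit 164327) (nat_lit 230) .nil)))))) (.g (nat_lit 1) (.e (nat_lit 155965) (nat_lit 0) .nil) .nil))) 
(.lf (nat_lit 497227) (.g (nat_lit 2664) (.e (nat_lit 163917) (nat_lit 13) (.e (nat_lit 434231) (nat_lit 23) (.e (nat_lit 532550) (nat_lit 12) (.e (nat_lit 360474) (nat_lit 8) (.e (nat_lit 557094) (nat_lit 12) (.e (nat_lit 163848) (nat_lit 0) (.e (nat_lit 6416) (nat_lit 341) .nil))))))) (.g (nat_lit 1) (.e (nat_lit 157633) (nat_lit 0) .nil) .nil)))) (.nd (nat_lit 9) 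
(.lf (nat_lit 496971) (.g (nat_lit 1598) (.e (nat_lit 163908) (nat_lit 12) (.e (nat_lit 426312) (nat_lit 12) (.e (nat_lit 475199) (nat_lit 40) (.e (nat_lit 704598) (nat_lit 6) (.e (nat_lit 188455) (nat_lit 24) (.e (nat_lit 229681) (nat_lit 244) .nil)))))) (.g (nat_lit 1) (.e (nat_lit 156537) (nat_lit 0) .nil) .nil))) 
(.lf (nat_lit 497483) (.g (nat_lit 2728) (.e (nat_lit 163938) (nat_lit 18) (.e (nat_lit 475179) (nat_lit 24) (.e (nat_lit 516176) (nat_lit 14) (.e (nat_lit 466954) (nat_lit 11) (.e (nat_lit 335994) (nat_lit 1) (.e (nat_lit 57692) (nat_lit 156) .nil)))))) (.g (nat_lit 1) (.e (nat_lit 160887) (nat_lit 0) .nil) .nil))))) (.nd (nat_lit 8) (.nd (nat_lit 9) 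
(.lf (nat_lit 496843) (.g (nat_lit 2770) (.e (nat_lit 163908) (nat_lit 12) (.e (nat_lit 426132) (nat_lit 3) (.e (nat_lit 204869) (nat_lit 29) (.e (nat_lit 360474) (nat_lit 8) (.e (nat_lit 557094) (nat_lit 12) (.e (nat_lit 163848) (nat_lit 0) (.e (nat_lit 6416) (nat_lit 341) .nil))))))) (.g (nat_lit 1) (.e (nat_lit 156112) (nat_lit 0) .nil) .nil))) 
(.lf (nat_lit 497355) (.g (nat_lit 3041) (.e (nat_lit 163936) (nat_lit 18) (.e (nat_lit 475177) (nat_lit 24) (.e (nat_lit 516150) (nat_lit 9) (.e (nat_lit 426323) (nat_lit 13) (.e (nat_lit 483365) (nat_lit 18) (.e (nat_lit 57686) (nat_lit 156) .nil)))))) (.g (nat_lit 1) (.e (nat_lit 160708) (nat_lit 0) .nil) .nil)))) (.nd (nat_lit 9) 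
(.lf (nat_lit 497099) (.g (nat_lit 2462) (.e (nat_lit 163913) (nat_lit 12) (.e (nat_lit 426318) (nat_lit 12) (.e (nat_lit 475211) (nat_lit 41) (.e (nat_lit 712755) (nat_lit 30) (.e (nat_lit 450569) (nat_lit 0) (.e (nat_lit 5598) (nat_lit 310) .nil)))))) (.g (nat_lit 1) (.e (nat_lit 156995) (nat_lit 0) .nil) .nil))) 
(.lf (nat_lit 497611) (.g (nat_lit 2953) (.e (nat_lit 163939) (nat_lit 18) (.e (nat_lit 475185) (nat_lit 29) (.e (nat_lit 557107) (nat_lit 15) (.e (nat_lit 188450) (nat_lit 23) (.e (nat_lit 204830) (nat_lit 18) (.e (nat_lit 65280) (nat_lit 219) .nil)))))) (.g (nat_lit 1) (.e (nat_lit 161037) (nat_lit 0) .nil) .nil))))))) (.nd (nat_lit 6) (.nd (nat_lit 7) (.nd (nat_lit 8) (.nd (nat_lit 9) 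
(.lf (nat_lit 496683) (.g (nat_lit 2954) (.e (nat_lit 163907) (nat_lit 12) (.e (nat_lit 426566) (nat_lit 34) (.e (nat_lit 393272) (nat_lit 23) (.e (nat_lit 426131) (nat_lit 3) (.e (nat_lit 204831) (nat_lit 18) (.e (nat_lit 57692) (nat_lit 156) .nil)))))) (.g (nat_lit 1) (.e (nat_lit 155933) (nat_lit 0) .nil) .nil))) 
(.lf (nat_lit 497195) (.g (nat_lit 964) (.e (nat_lit 171776) (nat_lit 12) (.e (nat_lit 426568) (nat_lit 34) (.e (nat_lit 393271) (nat_lit 23) (.e (nat_lit 426131) (nat_lit 3) .nil)))) (.g (nat_lit 0) (.e (nat_lit 157395) (nat_lit 0) .nil) .nil)))) (.nd (nat_lit 9) 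
(.lf (nat_lit 496939) (.g (nat_lit 1184) (.e (nat_lit 163908) (nat_lit 12) (.e (nat_lit 426305) (nat_lit 12) (.e (nat_lit 475199) (nat_lit 40) (.e (nat_lit 704598) (nat_lit 6) .nil)))) (.g (nat_lit 0) (.e (nat_lit 156475) (nat_lit 0) .nil) .nil))) 
(.lf (nat_lit 497451) (.g (nat_lit 3131) (.e (nat_lit 163938) (nat_lit 18) (.e (nat_lit 475179) (nat_lit 24) (.e (nat_lit 516150) (nat_lit 9) (.e (nat_lit 426323) (nat_lit 13) (.e (nat_lit 483363) (nat_lit 18) (.e (nat_lit 57688) (nat_lit 156) .nil)))))) (.g (nat_lit 1) (.e (nat_lit 160842) (nat_lit 0) .nil) .nil))))) (.nd (nat_lit 8) (.nd (nat_lit 9) 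
(.lf (nat_lit 496811) (.g (nat_lit 3700) (.e (nat_lit 163907) (nat_lit 12) (.e (nat_lit 426568) (nat_lit 34) (.e (nat_lit 393294) (nat_lit 26) (.e (nat_lit 475177) (nat_lit 24) (.e (nat_lit 516119) (nat_lit 1) (.e (nat_lit 164325) (nat_lit 230) .nil)))))) (.g (nat_lit 1) (.e (nat_lit 156061) (nat_lit 0) .nil) .nil))) 
(.lf (nat_lit 497323) (.g (nat_lit 3475) (.e (nat_lit 163933) (nat_lit 17) (.e (nat_lit 466971) (nat_lit 21) (.e (nat_lit 164403) (nat_lit 256) (.e (nat_lit 57442) (nat_lit 18) (.e (nat_lit 385109) (nat_lit 51) (.e (nat_lit 802560) (nat_lit 1) (.e (nat_lit 57927) (nat_lit 282) .nil))))))) (.g (nat_lit 1) (.e (nat_lit 160616) (nat_lit 0) .nil) .nil)))) (.nd (nat_lit 9) 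
(.lf (nat_lit 497067) (.g (nat_lit 3605) (.e (nat_lit 163911) (nat_lit 12) (.e (nat_lit 426140) (nat_lit 3) (.e (nat_lit 204869) (nat_lit 29) (.e (nat_lit 360475) (nat_lit 8) (.e (nat_lit 557089) (nat_lit 12) (.e (nat_lit 163843) (nat_lit 0) (.e (nat_lit 6421) (nat_lit 341) .nil))))))) (.g (nat_lit 1) (.e (nat_lit 156921) (nat_lit 0) .nil) .nil))) 
(.lf (nat_lit 497579) (.g (nat_lit 2659) (.e (nat_lit 163939) (nat_lit 18) (.e (nat_lit 475179) (nat_lit 24) (.e (nat_lit 516174) (nat_lit 14) (.e (nat_lit 466954) (nat_lit 11) (.e (nat_lit 335994) (nat_lit 1) (.e (nat_lit 57688) (nat_lit 156) .nil)))))) (.g (nat_lit 1) (.e (nat_lit 161005) (nat_lit 0) .nil) .nil)))))) (.nd (nat_lit 7) (.nd (nat_lit 8) (.nd (nat_lit 9) 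
(.lf (nat_lit 496747) (.g (nat_lit 3569) (.e (nat_lit 163907) (nat_lit 12) (.e (nat_lit 426566) (nat_lit 34) (.e (nat_lit 393296) (nat_lit 26) (.e (nat_lit 475179) (nat_lit 24) (.e (nat_lit 516115) (nat_lit 1) (.e (nat_lit 164327) (nat_lit 230) .nil)))))) (.g (nat_lit 1) (.e (nat_lit 155997) (nat_lit 0) .nil) .nil))) 
(.lf (nat_lit 497259) (.g (nat_lit 1712) (.e (nat_lit 163920) (nat_lit 14) (.e (nat_lit 442411) (nat_lit 20) (.e (nat_lit 3469) (nat_lit 217) (.e (nat_lit 696344) (nat_lit 8) (.e (nat_lit 172113) (nat_lit 10) .nil))))) (.g (nat_lit 0) (.e (nat_lit 158090) (nat_lit 0) .nil) .nil)))) (.nd (nat_lit 9) 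
(.lf (nat_lit 497003) (.g (nat_lit 3822) (.e (nat_lit 163908) (nat_lit 12) (.e (nat_lit 426338) (nat_lit 14) (.e (nat_lit 491549) (nat_lit 9) (.e (nat_lit 336443) (nat_lit 32) (.e (nat_lit 466972) (nat_lit 21) (.e (nat_lit 171776) (nat_lit 244) .nil)))))) (.g (nat_lit 1) (.e (nat_lit 156733) (nat_lit 0) .nil) .nil))) 
(.lf (nat_lit 497515) (.g (nat_lit 1790) (.e (nat_lit 163939) (nat_lit 18) (.e (nat_lit 475177) (nat_lit 24) (.e (nat_lit 516149) (nat_lit 9) (.e (nat_lit 426323) (nat_lit 13) (.e (nat_lit 483365) (nat_lit 18) (.e (nat_lit 57686) (nat_lit 156) .nil)))))) (.g (nat_lit 1) (.e (nat_lit 160921) (nat_lit 0) .nil) .nil))))) (.nd (nat_lit 8) (.nd (nat_lit 9) 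
(.lf (nat_lit 496875) (.g (nat_lit 2019) (.e (nat_lit 163908) (nat_lit 12) (.e (nat_lit 426170) (nat_lit 7) (.e (nat_lit 409636) (nat_lit 14) (.e (nat_lit 270373) (nat_lit 16) (.e (nat_lit 286749) (nat_lit 9) (.e (nat_lit 335997) (nat_lit 1) (.e (nat_lit 57857) (nat_lit 254) .nil))))))) (.g (nat_lit 1) (.e (nat_lit 156150) (nat_lit 0) .nil) .nil))) 
(.lf (nat_lit 497387) (.g (nat_lit 2652) (.e (nat_lit 163936) (nat_lit 18) (.e (nat_lit 475179) (nat_lit 24) (.e (nat_lit 516176) (nat_lit 14) (.e (nat_lit 466954) (nat_lit 11) (.e (nat_lit 335986) (nat_lit 1) (.e (nat_lit 57686) (nat_lit 156) .nil)))))) (.g (nat_lit 1) (.e (nat_lit 160764) (nat_lit 0) .nil) .nil)))) (.nd (nat_lit 9) 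
(.lf (nat_lit 497131) (.g (nat_lit 4054) (.e (nat_lit 163915) (nat_lit 12) (.e (nat_lit 426133) (nat_lit 3) (.e (nat_lit 204869) (nat_lit 29) (.e (nat_lit 360475) (nat_lit 8) (.e (nat_lit 557091) (nat_lit 12) .nil))))) (.g (nat_lit 0) (.e (nat_lit 157122) (nat_lit 0) .nil) .nil))) 
(.lf (nat_lit 497643) (.g (nat_lit 1520) (.e (nat_lit 163941) (nat_lit 19) (.e (nat_lit 483337) (nat_lit 9) (.e (nat_lit 426204) (nat_lit 9) (.e (nat_lit 426396) (nat_lit 15) (.e (nat_lit 1800) (nat_lit 119) .nil))))) (.g (nat_lit 0) (.e (nat_lit 161146) (nat_lit 0) .nil) .nil)))))))) (.nd (nat_lit 5) (.nd (nat_lit 6) (.nd (nat_lit 7) (.nd (nat_lit 8) (.nd (nat_lit 9) 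
(.lf (nat_lit 496667) (.g (nat_lit 3337) (.e (nat_lit 163907) (nat_lit 12) (.e (nat_lit 426566) (nat_lit 34) (.e (nat_lit 393270) (nat_lit 23) (.e (nat_lit 426436) (nat_lit 18) (.e (nat_lit 98335) (nat_lit 18) (.e (nat_lit 164327) (nat_lit 230) .nil)))))) (.g (nat_lit 1) (.e (nat_lit 155917) (nat_lit 0) .nil) .nil))) 
(.lf (nat_lit 497179) (.g (nat_lit 2492) (.e (nat_lit 171776) (nat_lit 12) (.e (nat_lit 426139) (nat_lit 3) (.e (nat_lit 204869) (nat_lit 29) (.e (nat_lit 360474) (nat_lit 8) (.e (nat_lit 557093) (nat_lit 12) .nil))))) (.g (nat_lit 0) (.e (nat_lit 157360) (nat_lit 0) .nil) .nil)))) (.nd (nat_lit 9) 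
(.lf (nat_lit 496923) (.g (nat_lit 3977) (.e (nat_lit 163908) (nat_lit 12) (.e (nat_lit 426286) (nat_lit 10) (.e (nat_lit 434289) (nat_lit 43) (.e (nat_lit 696344) (nat_lit 8) (.e (nat_lit 172113) (nat_lit 10) (.e (nat_lit 434208) (nat_lit 18) (.e (nat_lit 6420) (nat_lit 341) .nil))))))) (.g (nat_lit 1) (.e (nat_lit 156456) (nat_lit 0) .nil) .nil))) 
(.lf (nat_lit 497435) (.g (nat_lit 3341) (.e (nat_lit 163938) (nat_lit 18) (.e (nat_lit 475177) (nat_lit 24) (.e (nat_lit 516176) (nat_lit 14) (.e (nat_lit 466954) (nat_lit 11) (.e (nat_lit 335988) (nat_lit 1) (.e (nat_lit 57691) (nat_lit 156) .nil)))))) (.g (nat_lit 1) (.e (nat_lit 160821) (nat_lit 0) .nil) .nil))))) (.nd (nat_lit 8) (.nd (nat_lit 9) 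
(.lf (nat_lit 496795) (.g (nat_lit 3557) (.e (nat_lit 163907) (nat_lit 12) (.e (nat_lit 426568) (nat_lit 34) (.e (nat_lit 393290) (nat_lit 26) (.e (nat_lit 475179) (nat_lit 24) (.e (nat_lit 516115) (nat_lit 1) (.e (nat_lit 164325) (nat_lit 230) .nil)))))) (.g (nat_lit 1) (.e (nat_lit 156045) (nat_lit 0) .nil) .nil))) 
(.lf (nat_lit 497307) (.g (nat_lit 2017) (.e (nat_lit 163928) (nat_lit 16) (.e (nat_lit 458789) (nat_lit 23) (.e (nat_lit 532563) (nat_lit 15) (.e (nat_lit 385049) (nat_lit 21) (.e (nat_lit 6392) (nat_lit 339) .nil))))) (.g (nat_lit 0) (.e (nat_lit 159158) (nat_lit 0) .nil) .nil)))) (.nd (nat_lit 9) 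
(.lf (nat_lit 497051) (.g (nat_lit 2145) (.e (nat_lit 163910) (nat_lit 12) (.e (nat_lit 426125) (nat_lit 2) (.e (nat_lit 196666) (nat_lit 13) (.e (nat_lit 65610) (nat_lit 10) (.e (nat_lit 344129) (nat_lit 26) .nil))))) (.g (nat_lit 0) (.e (nat_lit 156888) (nat_lit 0) .nil) .nil))) 
(.lf (nat_lit 497563) (.g (nat_lit 3126) (.e (nat_lit 163939) (nat_lit 18) (.e (nat_lit 475179) (nat_lit 24) (.e (nat_lit 516150) (nat_lit 9) (.e (nat_lit 426323) (nat_lit 13) (.e (nat_lit 483365) (nat_lit 18) (.e (nat_lit 57691) (nat_lit 156) .nil)))))) (.g (nat_lit 1) (.e (nat_lit 160978) (nat_lit 0) .nil) .nil)))))) (.nd (nat_lit 7) (.nd (nat_lit 8) (.nd (nat_lit 9) 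
(.lf (nat_lit 496731) (.g (nat_lit 2723) (.e (nat_lit 163907) (nat_lit 12) (.e (nat_lit 426566) (nat_lit 34) (.e (nat_lit 393295) (nat_lit 26) (.e (nat_lit 475177) (nat_lit 24) (.e (nat_lit 516118) (nat_lit 1) (.e (nat_lit 164327) (nat_lit 230) .nil)))))) (.g (nat_lit 1) (.e (nat_lit 155981) (nat_lit 0) .nil) .nil))) 
(.lf (nat_lit 497243) (.g (nat_lit 3428) (.e (nat_lit 163918) (nat_lit 13) (.e (nat_lit 434231) (nat_lit 23) (.e (nat_lit 532550) (nat_lit 12) (.e (nat_lit 360475) (nat_lit 8) (.e (nat_lit 557089) (nat_lit 12) .nil))))) (.g (nat_lit 0) (.e (nat_lit 157771) (nat_lit 0) .nil) .nil)))) (.nd (nat_lit 9) 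
(.lf (nat_lit 496987) (.g (nat_lit 3987) (.e (nat_lit 163908) (nat_lit 12) (.e (nat_lit 426338) (nat_lit 14) (.e (nat_lit 491549) (nat_lit 9) (.e (nat_lit 336430) (nat_lit 29) (.e (nat_lit 442428) (nat_lit 24) (.e (nat_lit 229677) (nat_lit 244) .nil)))))) (.g (nat_lit 1) (.e (nat_lit 156717) (nat_lit 0) .nil) .nil))) 
(.lf (nat_lit 497499) (.g (nat_lit 4808) (.e (nat_lit 163938) (nat_lit 18) (.e (nat_lit 475185) (nat_lit 29) (.e (nat_lit 557100) (nat_lit 13) (.e (nat_lit 172113) (nat_lit 10) (.e (nat_lit 434245) (nat_lit 28) (.e (nat_lit 573474) (nat_lit 12) (.e (nat_lit 57348) (nat_lit 0) (.e (nat_lit 6940) (nat_lit 375) .nil)))))))) (.g (nat_lit 1) (.e (nat_lit 160904) (nat_lit 0) .nil) .nil))))) 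
(.nd (nat_lit 8) (.nd (nat_lit 9) 
(.lf (nat_lit 496859) (.g (nat_lit 3214) (.e (nat_lit 163908) (nat_lit 12) (.e (nat_lit 426136) (nat_lit 3) (.e (nat_lit 204869) (nat_lit 29) (.e (nat_lit 360474) (nat_lit 8) (.e (nat_lit 557091) (nat_lit 12) .nil))))) (.g (nat_lit 0) (.e (nat_lit 156128) (nat_lit 0) .nil) .nil))) 
(.lf (nat_lit 497371) (.g (nat_lit 2179) (.e (nat_lit 163936) (nat_lit 18) (.e (nat_lit 475179) (nat_lit 24) (.e (nat_lit 516146) (nat_lit 9) (.e (nat_lit 426323) (nat_lit 13) (.e (nat_lit 483366) (nat_lit 18) .nil))))) (.g (nat_lit 0) (.e (nat_lit 160726) (nat_lit 0) .nil) .nil)))) (.nd (nat_lit 9) 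
(.lf (nat_lit 497115) (.g (nat_lit 2094) (.e (nat_lit 163913) (nat_lit 12) (.e (nat_lit 426508) (nat_lit 27) (.e (nat_lit 336389) (nat_lit 27) (.e (nat_lit 426308) (nat_lit 12) (.e (nat_lit 475177) (nat_lit 24) .nil))))) (.g (nat_lit 0) (.e (nat_lit 157033) (nat_lit 0) .nil) .nil))) 
(.lf (nat_lit 497627) (.g (nat_lit 4115) (.e (nat_lit 163941) (nat_lit 19) (.e (nat_lit 483337) (nat_lit 9) (.e (nat_lit 426189) (nat_lit 9) (.e (nat_lit 426436) (nat_lit 18) (.e (nat_lit 98335) (nat_lit 18) (.e (nat_lit 164330) (nat_lit 230) .nil)))))) (.g (nat_lit 1) (.e (nat_lit 161110) (nat_lit 0) .nil) .nil))))))) (.nd (nat_lit 6) (.nd (nat_lit 7) (.nd (nat_lit 8) (.nd (nat_lit 9) 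
(.lf (nat_lit 496699) (.g (nat_lit 3158) (.e (nat_lit 163907) (nat_lit 12) (.e (nat_lit 426566) (nat_lit 34) (.e (nat_lit 393282) (nat_lit 24) (.e (nat_lit 434231) (nat_lit 23) (.e (nat_lit 532499) (nat_lit 1) (.e (nat_lit 57692) (nat_lit 156) .nil)))))) (.g (nat_lit 1) (.e (nat_lit 155949) (nat_lit 0) .nil) .nil))) 
(.lf (nat_lit 497211) (.g (nat_lit 5028) (.e (nat_lit 163916) (nat_lit 13) (.e (nat_lit 434231) (nat_lit 23) (.e (nat_lit 532550) (nat_lit 12) (.e (nat_lit 360475) (nat_lit 8) (.e (nat_lit 557091) (nat_lit 12) (.e (nat_lit 163843) (nat_lit 0) (.e (nat_lit 6421) (nat_lit 341) .nil))))))) (.g (nat_lit 1) (.e (nat_lit 157487) (nat_lit 0) .nil) .nil)))) (.nd (nat_lit 9) 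
(.lf (nat_lit 496955) (.g (nat_lit 3047) (.e (nat_lit 163908) (nat_lit 12) (.e (nat_lit 426305) (nat_lit 12) (.e (nat_lit 475211) (nat_lit 41) (.e (nat_lit 712755) (nat_lit 30) (.e (nat_lit 450562) (nat_lit 0) (.e (nat_lit 7936) (nat_lit 310) .nil)))))) (.g (nat_lit 1) (.e (nat_lit 156521) (nat_lit 0) .nil) .nil))) 
(.lf (nat_lit 497467) (.g (nat_lit 2576) (.e (nat_lit 163938) (nat_lit 18) (.e (nat_lit 475179) (nat_lit 24) (.e (nat_lit 516174) (nat_lit 14) (.e (nat_lit 466954) (nat_lit 11) (.e (nat_lit 335994) (nat_lit 1) (.e (nat_lit 57692) (nat_lit 156) .nil)))))) (.g (nat_lit 1) (.e (nat_lit 160870) (nat_lit 0) .nil) .nil))))) (.nd (nat_lit 8) (.nd (nat_lit 9) 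
(.lf (nat_lit 496827) (.g (nat_lit 2081) (.e (nat_lit 163908) (nat_lit 12) (.e (nat_lit 426132) (nat_lit 3) (.e (nat_lit 204868) (nat_lit 29) (.e (nat_lit 360473) (nat_lit 8) (.e (nat_lit 557094) (nat_lit 12) (.e (nat_lit 163848) (nat_lit 0) (.e (nat_lit 6418) (nat_lit 341) .nil))))))) (.g (nat_lit 1) (.e (nat_lit 156096) (nat_lit 0) .nil) .nil))) 
(.lf (nat_lit 497339) (.g (nat_lit 1462) (.e (nat_lit 163935) (nat_lit 18) (.e (nat_lit 475177) (nat_lit 24) (.e (nat_lit 516150) (nat_lit 9) (.e (nat_lit 426323) (nat_lit 13) .nil)))) (.g (nat_lit 0) (.e (nat_lit 160690) (nat_lit 0) .nil) .nil)))) (.nd (nat_lit 9) 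
(.lf (nat_lit 497083) (.g (nat_lit 3162) (.e (nat_lit 163913) (nat_lit 12) (.e (nat_lit 426129) (nat_lit 3) (.e (nat_lit 204869) (nat_lit 29) (.e (nat_lit 360475) (nat_lit 8) (.e (nat_lit 557091) (nat_lit 12) (.e (nat_lit 163840) (nat_lit 0) (.e (nat_lit 6421) (nat_lit 341) .nil))))))) (.g (nat_lit 1) (.e (nat_lit 156967) (nat_lit 0) .nil) .nil))) 
(.lf (nat_lit 497595) (.g (nat_lit 2645) (.e (nat_lit 163939) (nat_lit 18) (.e (nat_lit 475179) (nat_lit 24) (.e (nat_lit 516176) (nat_lit 14) (.e (nat_lit 466954) (nat_lit 11) (.e (nat_lit 335994) (nat_lit 1) (.e (nat_lit 57692) (nat_lit 156) .nil)))))) (.g (nat_lit 1) (.e (nat_lit 161021) (nat_lit 0) .nil) .nil)))))) (.nd (nat_lit 7) (.nd (nat_lit 8) (.nd (nat_lit 9) 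
(.lf (nat_lit 496763) (.g (nat_lit 3032) (.e (nat_lit 163907) (nat_lit 12) (.e (nat_lit 426568) (nat_lit 34) (.e (nat_lit 393266) (nat_lit 23) (.e (nat_lit 426438) (nat_lit 18) (.e (nat_lit 98333) (nat_lit 18) (.e (nat_lit 164325) (nat_lit 230) .nil)))))) (.g (nat_lit 1) (.e (nat_lit 156013) (nat_lit 0) .nil) .nil))) 
(.lf (nat_lit 497275) (.g (nat_lit 2058) (.e (nat_lit 163923) (nat_lit 15) (.e (nat_lit 450587) (nat_lit 10) (.e (nat_lit 573456) (nat_lit 9) (.e (nat_lit 1288) (nat_lit 95) .nil)))) (.g (nat_lit 0) (.e (nat_lit 158723) (nat_lit 0) .nil) .nil)))) (.nd (nat_lit 9) 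
(.lf (nat_lit 497019) (.g (nat_lit 3790) (.e (nat_lit 163909) (nat_lit 12) (.e (nat_lit 426125) (nat_lit 2) (.e (nat_lit 196666) (nat_lit 13) (.e (nat_lit 65610) (nat_lit 10) (.e (nat_lit 344117) (nat_lit 21) (.e (nat_lit 516097) (nat_lit 0) (.e (nat_lit 2430) (nat_lit 157) (.e (nat_lit 4541) (nat_lit 267) .nil)))))))) (.g (nat_lit 1) (.e (nat_lit 156824) (nat_lit 0) .nil) .nil))) 
(.lf (nat_lit 497531) (.g (nat_lit 2077) (.e (nat_lit 163939) (nat_lit 18) (.e (nat_lit 475177) (nat_lit 24) (.e (nat_lit 516174) (nat_lit 14) (.e (nat_lit 466954) (nat_lit 11) (.e (nat_lit 335993) (nat_lit 1) .nil))))) (.g (nat_lit 0) (.e (nat_lit 160938) (nat_lit 0) .nil) .nil))))) (.nd (nat_lit 8) (.nd (nat_lit 9) 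
(.lf (nat_lit 496891) (.g (nat_lit 2326) (.e (nat_lit 163908) (nat_lit 12) (.e (nat_lit 426285) (nat_lit 10) (.e (nat_lit 434241) (nat_lit 27) (.e (nat_lit 565267) (nat_lit 4) (.e (nat_lit 65610) (nat_lit 10) (.e (nat_lit 344090) (nat_lit 18) (.e (nat_lit 7708) (nat_lit 414) .nil))))))) (.g (nat_lit 1) (.e (nat_lit 156330) (nat_lit 0) .nil) .nil))) 
(.lf (nat_lit 497403) (.g (nat_lit 1204) (.e (nat_lit 163937) (nat_lit 18) (.e (nat_lit 475177) (nat_lit 24) (.e (nat_lit 516150) (nat_lit 9) (.e (nat_lit 426323) (nat_lit 13) .nil)))) (.g (nat_lit 0) (.e (nat_lit 160788) (nat_lit 0) .nil) .nil)))) (.nd (nat_lit 9) 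
(.lf (nat_lit 497147) (.g (nat_lit 1870) (.e (nat_lit 163915) (nat_lit 12) (.e (nat_lit 426306) (nat_lit 12) (.e (nat_lit 475207) (nat_lit 41) (.e (nat_lit 712752) (nat_lit 29) (.e (nat_lit 442430) (nat_lit 24) (.e (nat_lit 229679) (nat_lit 244) .nil)))))) (.g (nat_lit 1) (.e (nat_lit 157150) (nat_lit 0) .nil) .nil))) 
(.lf (nat_lit 497659) (.g (nat_lit 2885) (.e (nat_lit 163941) (nat_lit 19) (.e (nat_lit 483337) (nat_lit 9) (.e (nat_lit 426316) (nat_lit 12) (.e (nat_lit 475179) (nat_lit 24) (.e (nat_lit 516119) (nat_lit 1) (.e (nat_lit 164326) (nat_lit 230) .nil)))))) (.g (nat_lit 1) (.e (nat_lit 161218) (nat_lit 0) .nil) .nil)))))))))) 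
(.nd (nat_lit 3) (.nd (nat_lit 4) (.nd (nat_lit 5) (.nd (nat_lit 6) (.nd (nat_lit 7) 
(.nd (nat_lit 8) (.nd (nat_lit 9) 
(.lf (nat_lit 496647) (.g (nat_lit 2374) (.e (nat_lit 163907) (nat_lit 12) (.e (nat_lit 426555) (nat_lit 32) (.e (nat_lit 376869) (nat_lit 23) (.e (nat_lit 98312) (nat_lit 9) (.e (nat_lit 335988) (nat_lit 1) (.e (nat_lit 57927) (nat_lit 282) .nil)))))) (.g (nat_lit 1) (.e (nat_lit 155897) (nat_lit 0) .nil) .nil))) 
(.lf (nat_lit 497159) (.g (nat_lit 1335) (.e (nat_lit 163915) (nat_lit 12) (.e (nat_lit 426306) (nat_lit 12) (.e (nat_lit 475210) (nat_lit 41) (.e (nat_lit 712755) (nat_lit 30) .nil)))) (.g (nat_lit 0) (.e (nat_lit 157167) (nat_lit 0) .nil) .nil)))) (.nd (nat_lit 9) 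
(.lf (nat_lit 496903) (.g (nat_lit 3375) (.e (nat_lit 163908) (nat_lit 12) (.e (nat_lit 426285) (nat_lit 10) (.e (nat_lit 434289) (nat_lit 43) (.e (nat_lit 696344) (nat_lit 8) (.e (nat_lit 172115) (nat_lit 10) (.e (nat_lit 434202) (nat_lit 18) (.e (nat_lit 6418) (nat_lit 341) .nil))))))) (.g (nat_lit 1) (.e (nat_lit 156355) (nat_lit 0) .nil) .nil))) 
(.lf (nat_lit 497415) (.g (nat_lit 2362) (.e (nat_lit 163938) (nat_lit 18) (.e (nat_lit 475177) (nat_lit 24) (.e (nat_lit 516149) (nat_lit 9) (.e (nat_lit 426323) (nat_lit 13) (.e (nat_lit 483365) (nat_lit 18) (.e (nat_lit 57692) (nat_lit 156) .nil)))))) (.g (nat_lit 1) (.e (nat_lit 160801) (nat_lit 0) .nil) .nil))))) (.nd (nat_lit 8) (.nd (nat_lit 9) 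
(.lf (nat_lit 496775) (.g (nat_lit 2510) (.e (nat_lit 163907) (nat_lit 12) (.e (nat_lit 426568) (nat_lit 34) (.e (nat_lit 393270) (nat_lit 23) (.e (nat_lit 426438) (nat_lit 18) (.e (nat_lit 98335) (nat_lit 18) (.e (nat_lit 164325) (nat_lit 230) .nil)))))) (.g (nat_lit 1) (.e (nat_lit 156025) (nat_lit 0) .nil) .nil))) 
(.lf (nat_lit 497287) (.g (nat_lit 2352) (.e (nat_lit 163923) (nat_lit 15) (.e (nat_lit 450588) (nat_lit 10) (.e (nat_lit 573474) (nat_lit 12) (.e (nat_lit 57516) (nat_lit 42) .nil)))) (.g (nat_lit 0) (.e (nat_lit 158756) (nat_lit 0) .nil) .nil)))) (.nd (nat_lit 9) 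
(.lf (nat_lit 497031) (.g (nat_lit 3034) (.e (nat_lit 163909) (nat_lit 12) (.e (nat_lit 426125) (nat_lit 2) (.e (nat_lit 196666) (nat_lit 13) (.e (nat_lit 65617) (nat_lit 10) (.e (nat_lit 344130) (nat_lit 26) .nil))))) (.g (nat_lit 0) (.e (nat_lit 156838) (nat_lit 0) .nil) .nil))) 
(.lf (nat_lit 497543) (.g (nat_lit 2518) (.e (nat_lit 163939) (nat_lit 18) (.e (nat_lit 475177) (nat_lit 24) (.e (nat_lit 516176) (nat_lit 14) (.e (nat_lit 466954) (nat_lit 11) (.e (nat_lit 335994) (nat_lit 1) (.e (nat_lit 57692) (nat_lit 156) .nil)))))) (.g (nat_lit 1) (.e (nat_lit 160950) (nat_lit 0) .nil) .nil)))))) (.nd (nat_lit 7) (.nd (nat_lit 8) (.nd (nat_lit 9) 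
(.lf (nat_lit 496711) (.g (nat_lit 2309) (.e (nat_lit 163907) (nat_lit 12) (.e (nat_lit 426566) (nat_lit 34) (.e (nat_lit 393289) (nat_lit 25) (.e (nat_lit 458789) (nat_lit 23) (.e (nat_lit 532499) (nat_lit 1) (.e (nat_lit 57692) (nat_lit 156) .nil)))))) (.g (nat_lit 1) (.e (nat_lit 155961) (nat_lit 0) .nil) .nil))) 
(.lf (nat_lit 497223) (.g (nat_lit 2201) (.e (nat_lit 163917) (nat_lit 13) (.e (nat_lit 434231) (nat_lit 23) (.e (nat_lit 532550) (nat_lit 12) (.e (nat_lit 360474) (nat_lit 8) (.e (nat_lit 557093) (nat_lit 12) (.e (nat_lit 163847) (nat_lit 0) (.e (nat_lit 6418) (nat_lit 341) .nil))))))) (.g (nat_lit 1) (.e (nat_lit 157629) (nat_lit 0) .nil) .nil)))) (.nd (nat_lit 9) 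
(.lf (nat_lit 496967) (.g (nat_lit 1852) (.e (nat_lit 163908) (nat_lit 12) (.e (nat_lit 426312) (nat_lit 12) (.e (nat_lit 475199) (nat_lit 40) (.e (nat_lit 704598) (nat_lit 6) (.e (nat_lit 188454) (nat_lit 24) (.e (nat_lit 229677) (nat_lit 244) .nil)))))) (.g (nat_lit 1) (.e (nat_lit 156533) (nat_lit 0) .nil) .nil))) 
(.lf (nat_lit 497479) (.g (nat_lit 3201) (.e (nat_lit 163938) (nat_lit 18) (.e (nat_lit 475179) (nat_lit 24) (.e (nat_lit 516176) (nat_lit 14) (.e (nat_lit 466954) (nat_lit 11) (.e (nat_lit 335988) (nat_lit 1) (.e (nat_lit 57691) (nat_lit 156) .nil)))))) (.g (nat_lit 1) (.e (nat_lit 160883) (nat_lit 0) .nil) .nil))))) (.nd (nat_lit 8) (.nd (nat_lit 9) 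
(.lf (nat_lit 496839) (.g (nat_lit 2310) (.e (nat_lit 163908) (nat_lit 12) (.e (nat_lit 426132) (nat_lit 3) (.e (nat_lit 204869) (nat_lit 29) (.e (nat_lit 360474) (nat_lit 8) (.e (nat_lit 557093) (nat_lit 12) (.e (nat_lit 163847) (nat_lit 0) (.e (nat_lit 6418) (nat_lit 341) .nil))))))) (.g (nat_lit 1) (.e (nat_lit 156108) (nat_lit 0) .nil) .nil))) 
(.lf (nat_lit 497351) (.g (nat_lit 2140) (.e (nat_lit 163936) (nat_lit 18) (.e (nat_lit 475177) (nat_lit 24) (.e (nat_lit 516149) (nat_lit 9) (.e (nat_lit 426323) (nat_lit 13) (.e (nat_lit 483364) (nat_lit 18) (.e (nat_lit 57685) (nat_lit 156) .nil)))))) (.g (nat_lit 1) (.e (nat_lit 160704) (nat_lit 0) .nil) .nil)))) (.nd (nat_lit 9) 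
(.lf (nat_lit 497095) (.g (nat_lit 2481) (.e (nat_lit 163913) (nat_lit 12) (.e (nat_lit 426318) (nat_lit 12) (.e (nat_lit 475211) (nat_lit 41) (.e (nat_lit 712752) (nat_lit 29) (.e (nat_lit 442428) (nat_lit 24) (.e (nat_lit 229681) (nat_lit 244) .nil)))))) (.g (nat_lit 1) (.e (nat_lit 156991) (nat_lit 0) .nil) .nil))) 
(.lf (nat_lit 497607) (.g (nat_lit 3284) (.e (nat_lit 163939) (nat_lit 18) (.e (nat_lit 475185) (nat_lit 29) (.e (nat_lit 557100) (nat_lit 13) (.e (nat_lit 172113) (nat_lit 10) (.e (nat_lit 434248) (nat_lit 28) (.e (nat_lit 573475) (nat_lit 12) (.e (nat_lit 57348) (nat_lit 0) (.e (nat_lit 6938) (nat_lit 375) .nil)))))))) (.g (nat_lit 1) (.e (nat_lit 161033) (nat_lit 0) .nil) .nil))))))) 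
(.nd (nat_lit 6) (.nd (nat_lit 7) (.nd (nat_lit 8) (.nd (nat_lit 9) 
(.lf (nat_lit 496679) (.g (nat_lit 2972) (.e (nat_lit 163907) (nat_lit 12) (.e (nat_lit 426566) (nat_lit 34) (.e (nat_lit 393271) (nat_lit 23) (.e (nat_lit 426436) (nat_lit 18) (.e (nat_lit 98335) (nat_lit 18) (.e (nat_lit 164324) (nat_lit 230) .nil)))))) (.g (nat_lit 1) (.e (nat_lit 155929) (nat_lit 0) .nil) .nil))) 
(.lf (nat_lit 497191) (.g (nat_lit 741) (.e (nat_lit 171776) (nat_lit 12) (.e (nat_lit 426566) (nat_lit 34) (.e (nat_lit 393282) (nat_lit 24) .nil))) (.g (nat_lit 0) (.e (nat_lit 157391) (nat_lit 0) .nil) .nil)))) (.nd (nat_lit 9) 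
(.lf (nat_lit 496935) (.g (nat_lit 1909) (.e (nat_lit 163908) (nat_lit 12) (.e (nat_lit 426305) (nat_lit 12) (.e (nat_lit 475198) (nat_lit 40) (.e (nat_lit 704599) (nat_lit 6) (.e (nat_lit 188453) (nat_lit 24) (.e (nat_lit 229677) (nat_lit 244) .nil)))))) (.g (nat_lit 1) (.e (nat_lit 156470) (nat_lit 0) .nil) .nil))) 
(.lf (nat_lit 497447) (.g (nat_lit 2733) (.e (nat_lit 163938) (nat_lit 18) (.e (nat_lit 475179) (nat_lit 24) (.e (nat_lit 516146) (nat_lit 9) (.e (nat_lit 426323) (nat_lit 13) (.e (nat_lit 483365) (nat_lit 18) (.e (nat_lit 57688) (nat_lit 156) .nil)))))) (.g (nat_lit 1) (.e (nat_lit 160834) (nat_lit 0) .nil) .nil))))) (.nd (nat_lit 8) (.nd (nat_lit 9) 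
(.lf (nat_lit 496807) (.g (nat_lit 3492) (.e (nat_lit 163907) (nat_lit 12) (.e (nat_lit 426568) (nat_lit 34) (.e (nat_lit 393293) (nat_lit 26) (.e (nat_lit 475179) (nat_lit 24) (.e (nat_lit 516115) (nat_lit 1) (.e (nat_lit 164325) (nat_lit 230) .nil)))))) (.g (nat_lit 1) (.e (nat_lit 156057) (nat_lit 0) .nil) .nil))) 
(.lf (nat_lit 497319) (.g (nat_lit 571) (.e (nat_lit 163932) (nat_lit 17) (.e (nat_lit 466981) (nat_lit 23) (.e (nat_lit 204811) (nat_lit 9) .nil))) (.g (nat_lit 0) (.e (nat_lit 160310) (nat_lit 0) .nil) .nil)))) (.nd (nat_lit 9) 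
(.lf (nat_lit 497063) (.g (nat_lit 2152) (.e (nat_lit 163911) (nat_lit 12) (.e (nat_lit 426140) (nat_lit 3) (.e (nat_lit 204868) (nat_lit 29) (.e (nat_lit 360473) (nat_lit 8) (.e (nat_lit 557093) (nat_lit 12) .nil))))) (.g (nat_lit 0) (.e (nat_lit 156917) (nat_lit 0) .nil) .nil))) 
(.lf (nat_lit 497575) (.g (nat_lit 2829) (.e (nat_lit 163939) (nat_lit 18) (.e (nat_lit 475179) (nat_lit 24) (.e (nat_lit 516174) (nat_lit 14) (.e (nat_lit 466954) (nat_lit 11) (.e (nat_lit 335988) (nat_lit 1) (.e (nat_lit 57691) (nat_lit 156) .nil)))))) (.g (nat_lit 1) (.e (nat_lit 161001) (nat_lit 0) .nil) .nil)))))) (.nd (nat_lit 7) (.nd (nat_lit 8) (.nd (nat_lit 9) 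
(.lf (nat_lit 496743) (.g (nat_lit 4034) (.e (nat_lit 163907) (nat_lit 12) (.e (nat_lit 426566) (nat_lit 34) (.e (nat_lit 393296) (nat_lit 26) (.e (nat_lit 475178) (nat_lit 24) (.e (nat_lit 516115) (nat_lit 1) (.e (nat_lit 164327) (nat_lit 230) .nil)))))) (.g (nat_lit 1) (.e (nat_lit 155993) (nat_lit 0) .nil) .nil))) 
(.lf (nat_lit 497255) (.g (nat_lit 1508) (.e (nat_lit 163920) (nat_lit 14) (.e (nat_lit 442374) (nat_lit 0) (.e (nat_lit 2175) (nat_lit 143) (.e (nat_lit 712751) (nat_lit 29) (.e (nat_lit 442430) (nat_lit 24) .nil))))) (.g (nat_lit 0) (.e (nat_lit 157960) (nat_lit 0) .nil) .nil)))) (.nd (nat_lit 9) 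
(.lf (nat_lit 496999) (.g (nat_lit 2353) (.e (nat_lit 163908) (nat_lit 12) (.e (nat_lit 426338) (nat_lit 14) (.e (nat_lit 491549) (nat_lit 9) (.e (nat_lit 336434) (nat_lit 30) (.e (nat_lit 450567) (nat_lit 0) .nil))))) (.g (nat_lit 0) (.e (nat_lit 156729) (nat_lit 0) .nil) .nil))) 
(.lf (nat_lit 497511) (.g (nat_lit 4265) (.e (nat_lit 163938) (nat_lit 18) (.e (nat_lit 475185) (nat_lit 29) (.e (nat_lit 557109) (nat_lit 15) (.e (nat_lit 188452) (nat_lit 23) (.e (nat_lit 204830) (nat_lit 18) (.e (nat_lit 65280) (nat_lit 219) .nil)))))) (.g (nat_lit 1) (.e (nat_lit 160916) (nat_lit 0) .nil) .nil))))) (.nd (nat_lit 8) (.nd (nat_lit 9) 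
(.lf (nat_lit 496871) (.g (nat_lit 4757) (.e (nat_lit 163908) (nat_lit 12) (.e (nat_lit 426136) (nat_lit 3) (.e (nat_lit 204869) (nat_lit 29) (.e (nat_lit 360475) (nat_lit 8) (.e (nat_lit 557091) (nat_lit 12) (.e (nat_lit 163844) (nat_lit 0) (.e (nat_lit 6420) (nat_lit 341) .nil))))))) (.g (nat_lit 1) (.e (nat_lit 156140) (nat_lit 0) .nil) .nil))) 
(.lf (nat_lit 497383) (.g (nat_lit 1821) (.e (nat_lit 163936) (nat_lit 18) (.e (nat_lit 475179) (nat_lit 24) (.e (nat_lit 516174) (nat_lit 14) (.e (nat_lit 466954) (nat_lit 11) (.e (nat_lit 335994) (nat_lit 1) (.e (nat_lit 57686) (nat_lit 156) .nil)))))) (.g (nat_lit 1) (.e (nat_lit 160759) (nat_lit 0) .nil) .nil)))) (.nd (nat_lit 9) 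
(.lf (nat_lit 497127) (.g (nat_lit 3490) (.e (nat_lit 163915) (nat_lit 12) (.e (nat_lit 426133) (nat_lit 3) (.e (nat_lit 204868) (nat_lit 29) (.e (nat_lit 360475) (nat_lit 8) (.e (nat_lit 557089) (nat_lit 12) .nil))))) (.g (nat_lit 0) (.e (nat_lit 157118) (nat_lit 0) .nil) .nil))) 
(.lf (nat_lit 497639) (.g (nat_lit 2988) (.e (nat_lit 163941) (nat_lit 19) (.e (nat_lit 483337) (nat_lit 9) (.e (nat_lit 426200) (nat_lit 9) (.e (nat_lit 426436) (nat_lit 18) (.e (nat_lit 98335) (nat_lit 18) (.e (nat_lit 164326) (nat_lit 230) .nil)))))) (.g (nat_lit 1) (.e (nat_lit 161137) (nat_lit 0) .nil) .nil)))))))) 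
(.nd (nat_lit 5) (.nd (nat_lit 6) (.nd (nat_lit 7) (.nd (nat_lit 8) (.nd (nat_lit 9) 
(.lf (nat_lit 496663) (.g (nat_lit 1753) (.e (nat_lit 163907) (nat_lit 12) (.e (nat_lit 426566) (nat_lit 34) (.e (nat_lit 393270) (nat_lit 23) (.e (nat_lit 426131) (nat_lit 3) (.e (nat_lit 204831) (nat_lit 18) (.e (nat_lit 57691) (nat_lit 156) .nil)))))) (.g (nat_lit 1) (.e (nat_lit 155913) (nat_lit 0) .nil) .nil))) 
(.lf (nat_lit 497175) (.g (nat_lit 3107) (.e (nat_lit 171776) (nat_lit 12) (.e (nat_lit 426139) (nat_lit 3) (.e (nat_lit 204868) (nat_lit 29) (.e (nat_lit 360475) (nat_lit 8) (.e (nat_lit 557089) (nat_lit 12) .nil))))) (.g (nat_lit 0) (.e (nat_lit 157356) (nat_lit 0) .nil) .nil)))) (.nd (nat_lit 9) 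
(.lf (nat_lit 496919) (.g (nat_lit 1912) (.e (nat_lit 163908) (nat_lit 12) (.e (nat_lit 426286) (nat_lit 10) (.e (nat_lit 434288) (nat_lit 43) (.e (nat_lit 696344) (nat_lit 8) (.e (nat_lit 172113) (nat_lit 10) (.e (nat_lit 434208) (nat_lit 18) (.e (nat_lit 6418) (nat_lit 341) .nil))))))) (.g (nat_lit 1) (.e (nat_lit 156441) (nat_lit 0) .nil) .nil))) 
(.lf (nat_lit 497431) (.g (nat_lit 3468) (.e (nat_lit 163938) (nat_lit 18) (.e (nat_lit 475177) (nat_lit 24) (.e (nat_lit 516174) (nat_lit 14) (.e (nat_lit 466954) (nat_lit 11) (.e (nat_lit 335995) (nat_lit 1) (.e (nat_lit 57691) (nat_lit 156) .nil)))))) (.g (nat_lit 1) (.e (nat_lit 160817) (nat_lit 0) .nil) .nil))))) (.nd (nat_lit 8) (.nd (nat_lit 9) 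
(.lf (nat_lit 496791) (.g (nat_lit 1147) (.e (nat_lit 163907) (nat_lit 12) (.e (nat_lit 426568) (nat_lit 34) (.e (nat_lit 393284) (nat_lit 24) (.e (nat_lit 434233) (nat_lit 23) .nil)))) (.g (nat_lit 0) (.e (nat_lit 156041) (nat_lit 0) .nil) .nil))) 
(.lf (nat_lit 497303) (.g (nat_lit 4671) (.e (nat_lit 163926) (nat_lit 16) (.e (nat_lit 458789) (nat_lit 23) (.e (nat_lit 532550) (nat_lit 12) (.e (nat_lit 360475) (nat_lit 8) (.e (nat_lit 557091) (nat_lit 12) .nil))))) (.g (nat_lit 0) (.e (nat_lit 158936) (nat_lit 0) .nil) .nil)))) (.nd (nat_lit 9) 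
(.lf (nat_lit 497047) (.g (nat_lit 2253) (.e (nat_lit 163909) (nat_lit 12) (.e (nat_lit 426140) (nat_lit 3) (.e (nat_lit 204869) (nat_lit 29) (.e (nat_lit 360474) (nat_lit 8) (.e (nat_lit 557094) (nat_lit 12) .nil))))) (.g (nat_lit 0) (.e (nat_lit 156868) (nat_lit 0) .nil) .nil))) 
(.lf (nat_lit 497559) (.g (nat_lit 2916) (.e (nat_lit 163939) (nat_lit 18) (.e (nat_lit 475179) (nat_lit 24) (.e (nat_lit 516150) (nat_lit 9) (.e (nat_lit 426323) (nat_lit 13) (.e (nat_lit 483364) (nat_lit 18) (.e (nat_lit 57691) (nat_lit 156) .nil)))))) (.g (nat_lit 1) (.e (nat_lit 160974) (nat_lit 0) .nil) .nil)))))) (.nd (nat_lit 7) (.nd (nat_lit 8) (.nd (nat_lit 9) 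
(.lf (nat_lit 496727) (.g (nat_lit 3577) (.e (nat_lit 163907) (nat_lit 12) (.e (nat_lit 426566) (nat_lit 34) (.e (nat_lit 393294) (nat_lit 26) (.e (nat_lit 475177) (nat_lit 24) (.e (nat_lit 516119) (nat_lit 1) (.e (nat_lit 164327) (nat_lit 230) .nil)))))) (.g (nat_lit 1) (.e (nat_lit 155977) (nat_lit 0) .nil) .nil))) 
(.lf (nat_lit 497239) (.g (nat_lit 1736) (.e (nat_lit 163917) (nat_lit 13) (.e (nat_lit 434248) (nat_lit 28) (.e (nat_lit 573449) (nat_lit 9) (.e (nat_lit 1669) (nat_lit 116) .nil)))) (.g (nat_lit 0) (.e (nat_lit 157695) (nat_lit 0) .nil) .nil)))) (.nd (nat_lit 9) 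
(.lf (nat_lit 496983) (.g (nat_lit 2970) (.e (nat_lit 163908) (nat_lit 12) (.e (nat_lit 426338) (nat_lit 14) (.e (nat_lit 491549) (nat_lit 9) (.e (nat_lit 336428) (nat_lit 29) (.e (nat_lit 442428) (nat_lit 24) .nil))))) (.g (nat_lit 0) (.e (nat_lit 156711) (nat_lit 0) .nil) .nil))) 
(.lf (nat_lit 497495) (.g (nat_lit 3245) (.e (nat_lit 163938) (nat_lit 18) (.e (nat_lit 475185) (nat_lit 29) (.e (nat_lit 557100) (nat_lit 13) (.e (nat_lit 172113) (nat_lit 10) (.e (nat_lit 434245) (nat_lit 28) (.e (nat_lit 573474) (nat_lit 12) (.e (nat_lit 57345) (nat_lit 0) (.e (nat_lit 6943) (nat_lit 375) .nil)))))))) (.g (nat_lit 1) (.e (nat_lit 160900) (nat_lit 0) .nil) .nil))))) 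
(.nd (nat_lit 8) (.nd (nat_lit 9) 
(.lf (nat_lit 496855) (.g (nat_lit 1637) (.e (nat_lit 163908) (nat_lit 12) (.e (nat_lit 426136) (nat_lit 3) (.e (nat_lit 204868) (nat_lit 29) (.e (nat_lit 360473) (nat_lit 8) (.e (nat_lit 557093) (nat_lit 12) (.e (nat_lit 163849) (nat_lit 0) (.e (nat_lit 6420) (nat_lit 341) .nil))))))) (.g (nat_lit 1) (.e (nat_lit 156124) (nat_lit 0) .nil) .nil))) 
(.lf (nat_lit 497367) (.g (nat_lit 1554) (.e (nat_lit 163936) (nat_lit 18) (.e (nat_lit 475179) (nat_lit 24) (.e (nat_lit 516131) (nat_lit 3) (.e (nat_lit 221219) (nat_lit 24) .nil)))) (.g (nat_lit 0) (.e (nat_lit 160722) (nat_lit 0) .nil) .nil)))) (.nd (nat_lit 9) 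
(.lf (nat_lit 497111) (.g (nat_lit 4401) (.e (nat_lit 163913) (nat_lit 12) (.e (nat_lit 426503) (nat_lit 27) (.e (nat_lit 336387) (nat_lit 27) (.e (nat_lit 426306) (nat_lit 12) (.e (nat_lit 475179) (nat_lit 24) (.e (nat_lit 516120) (nat_lit 1) (.e (nat_lit 164330) (nat_lit 230) .nil))))))) (.g (nat_lit 1) (.e (nat_lit 157027) (nat_lit 0) .nil) .nil))) 
(.lf (nat_lit 497623) (.g (nat_lit 3784) (.e (nat_lit 163941) (nat_lit 19) (.e (nat_lit 483337) (nat_lit 9) (.e (nat_lit 426188) (nat_lit 9) (.e (nat_lit 426436) (nat_lit 18) (.e (nat_lit 98335) (nat_lit 18) (.e (nat_lit 164331) (nat_lit 230) .nil)))))) (.g (nat_lit 1) (.e (nat_lit 161099) (nat_lit 0) .nil) .nil))))))) (.nd (nat_lit 6) (.nd (nat_lit 7) (.nd (nat_lit 8) (.nd (nat_lit 9) 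
(.lf (nat_lit 496695) (.g (nat_lit 744) (.e (nat_lit 163907) (nat_lit 12) (.e (nat_lit 426566) (nat_lit 34) (.e (nat_lit 393275) (nat_lit 23) .nil))) (.g (nat_lit 0) (.e (nat_lit 155945) (nat_lit 0) .nil) .nil))) 
(.lf (nat_lit 497207) (.g (nat_lit 2524) (.e (nat_lit 163916) (nat_lit 13) (.e (nat_lit 434231) (nat_lit 23) (.e (nat_lit 532550) (nat_lit 12) (.e (nat_lit 360474) (nat_lit 8) (.e (nat_lit 557094) (nat_lit 12) (.e (nat_lit 163848) (nat_lit 0) (.e (nat_lit 6418) (nat_lit 341) .nil))))))) (.g (nat_lit 1) (.e (nat_lit 157483) (nat_lit 0) .nil) .nil)))) (.nd (nat_lit 9) 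
(.lf (nat_lit 496951) (.g (nat_lit 1910) (.e (nat_lit 163908) (nat_lit 12) (.e (nat_lit 426305) (nat_lit 12) (.e (nat_lit 475211) (nat_lit 41) (.e (nat_lit 712753) (nat_lit 30) (.e (nat_lit 450568) (nat_lit 0) .nil))))) (.g (nat_lit 0) (.e (nat_lit 156517) (nat_lit 0) .nil) .nil))) 
(.lf (nat_lit 497463) (.g (nat_lit 3045) (.e (nat_lit 163938) (nat_lit 18) (.e (nat_lit 475179) (nat_lit 24) (.e (nat_lit 516174) (nat_lit 14) (.e (nat_lit 466954) (nat_lit 11) (.e (nat_lit 335988) (nat_lit 1) (.e (nat_lit 57691) (nat_lit 156) .nil)))))) (.g (nat_lit 1) (.e (nat_lit 160866) (nat_lit 0) .nil) .nil))))) (.nd (nat_lit 8) (.nd (nat_lit 9) 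
(.lf (nat_lit 496823) (.g (nat_lit 1692) (.e (nat_lit 163908) (nat_lit 12) (.e (nat_lit 426132) (nat_lit 3) (.e (nat_lit 204868) (nat_lit 29) (.e (nat_lit 360473) (nat_lit 8) (.e (nat_lit 557093) (nat_lit 12) (.e (nat_lit 163847) (nat_lit 0) (.e (nat_lit 6420) (nat_lit 341) .nil))))))) (.g (nat_lit 1) (.e (nat_lit 156092) (nat_lit 0) .nil) .nil))) 
(.lf (nat_lit 497335) (.g (nat_lit 1529) (.e (nat_lit 163933) (nat_lit 17) (.e (nat_lit 466977) (nat_lit 22) (.e (nat_lit 196656) (nat_lit 11) (.e (nat_lit 16475) (nat_lit 15) .nil)))) (.g (nat_lit 0) (.e (nat_lit 160635) (nat_lit 0) .nil) .nil)))) (.nd (nat_lit 9) 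
(.lf (nat_lit 497079) (.g (nat_lit 3034) (.e (nat_lit 163913) (nat_lit 12) (.e (nat_lit 426129) (nat_lit 3) (.e (nat_lit 204869) (nat_lit 29) (.e (nat_lit 360475) (nat_lit 8) (.e (nat_lit 557089) (nat_lit 12) .nil))))) (.g (nat_lit 0) (.e (nat_lit 156963) (nat_lit 0) .nil) .nil))) 
(.lf (nat_lit 497591) (.g (nat_lit 3073) (.e (nat_lit 163939) (nat_lit 18) (.e (nat_lit 475179) (nat_lit 24) (.e (nat_lit 516176) (nat_lit 14) (.e (nat_lit 466954) (nat_lit 11) (.e (nat_lit 335988) (nat_lit 1) (.e (nat_lit 57692) (nat_lit 156) .nil)))))) (.g (nat_lit 1) (.e (nat_lit 161017) (nat_lit 0) .nil) .nil)))))) (.nd (nat_lit 7) (.nd (nat_lit 8) (.nd (nat_lit 9) 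
(.lf (nat_lit 496759) (.g (nat_lit 3610) (.e (nat_lit 163907) (nat_lit 12) (.e (nat_lit 426567) (nat_lit 34) (.e (nat_lit 393294) (nat_lit 26) (.e (nat_lit 475179) (nat_lit 24) (.e (nat_lit 516119) (nat_lit 1) (.e (nat_lit 164325) (nat_lit 230) .nil)))))) (.g (nat_lit 1) (.e (nat_lit 156009) (nat_lit 0) .nil) .nil))) 
(.lf (nat_lit 497271) (.g (nat_lit 358) (.e (nat_lit 163922) (nat_lit 15) (.e (nat_lit 450597) (nat_lit 17) (.e (nat_lit 663574) (nat_lit 9) .nil))) (.g (nat_lit 0) (.e (nat_lit 158497) (nat_lit 0) .nil) .nil)))) (.nd (nat_lit 9) 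
(.lf (nat_lit 497015) (.g (nat_lit 2463) (.e (nat_lit 163908) (nat_lit 12) (.e (nat_lit 426412) (nat_lit 15) (.e (nat_lit 2059) (nat_lit 142) (.e (nat_lit 704595) (nat_lit 5) (.e (nat_lit 188160) (nat_lit 37) .nil))))) (.g (nat_lit 0) (.e (nat_lit 156782) (nat_lit 0) .nil) .nil))) 
(.lf (nat_lit 497527) (.g (nat_lit 2872) (.e (nat_lit 163939) (nat_lit 18) (.e (nat_lit 475177) (nat_lit 24) (.e (nat_lit 516150) (nat_lit 9) (.e (nat_lit 426323) (nat_lit 13) (.e (nat_lit 483365) (nat_lit 18) (.e (nat_lit 57692) (nat_lit 156) .nil)))))) (.g (nat_lit 1) (.e (nat_lit 160933) (nat_lit 0) .nil) .nil))))) (.nd (nat_lit 8) (.nd (nat_lit 9) 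
(.lf (nat_lit 496887) (.g (nat_lit 1434) (.e (nat_lit 163908) (nat_lit 12) (.e (nat_lit 426211) (nat_lit 9) (.e (nat_lit 426025) (nat_lit 0) (.e (nat_lit 3397) (nat_lit 211) (.e (nat_lit 647185) (nat_lit 6) .nil))))) (.g (nat_lit 0) (.e (nat_lit 156316) (nat_lit 0) .nil) .nil))) 
(.lf (nat_lit 497399) (.g (nat_lit 3287) (.e (nat_lit 163936) (nat_lit 18) (.e (nat_lit 475185) (nat_lit 29) (.e (nat_lit 557100) (nat_lit 13) (.e (nat_lit 172113) (nat_lit 10) (.e (nat_lit 434248) (nat_lit 28) (.e (nat_lit 573473) (nat_lit 12) (.e (nat_lit 57348) (nat_lit 0) (.e (nat_lit 6943) (nat_lit 375) .nil)))))))) (.g (nat_lit 1) (.e (nat_lit 160776) (nat_lit 0) .nil) .nil)))) 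
(.nd (nat_lit 9) 
(.lf (nat_lit 497143) (.g (nat_lit 1648) (.e (nat_lit 163915) (nat_lit 12) (.e (nat_lit 426306) (nat_lit 12) (.e (nat_lit 475198) (nat_lit 40) (.e (nat_lit 704599) (nat_lit 6) (.e (nat_lit 188455) (nat_lit 24) (.e (nat_lit 229680) (nat_lit 244) .nil)))))) (.g (nat_lit 1) (.e (nat_lit 157145) (nat_lit 0) .nil) .nil))) 
(.lf (nat_lit 497655) (.g (nat_lit 4095) (.e (nat_lit 163941) (nat_lit 19) (.e (nat_lit 483337) (nat_lit 9) (.e (nat_lit 426308) (nat_lit 12) (.e (nat_lit 475179) (nat_lit 24) (.e (nat_lit 516120) (nat_lit 1) (.e (nat_lit 164330) (nat_lit 230) .nil)))))) (.g (nat_lit 1) (.e (nat_lit 161194) (nat_lit 0) .nil) .nil))))))))) 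
(.nd (nat_lit 4) (.nd (nat_lit 5) (.nd (nat_lit 6) (.nd (nat_lit 7) (.nd (nat_lit 8) 
(.nd (nat_lit 9) 
(.lf (nat_lit 496655) (.g (nat_lit 3113) (.e (nat_lit 163907) (nat_lit 12) (.e (nat_lit 426564) (nat_lit 34) (.e (nat_lit 393294) (nat_lit 26) (.e (nat_lit 475179) (nat_lit 24) (.e (nat_lit 516119) (nat_lit 1) (.e (nat_lit 164325) (nat_lit 230) .nil)))))) (.g (nat_lit 1) (.e (nat_lit 155905) (nat_lit 0) .nil) .nil))) 
(.lf (nat_lit 497167) (.g (nat_lit 1922) (.e (nat_lit 163915) (nat_lit 12) (.e (nat_lit 426338) (nat_lit 14) (.e (nat_lit 491549) (nat_lit 9) (.e (nat_lit 336430) (nat_lit 29) .nil)))) (.g (nat_lit 0) (.e (nat_lit 157342) (nat_lit 0) .nil) .nil)))) (.nd (nat_lit 9) 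
(.lf (nat_lit 496911) (.g (nat_lit 1301) (.e (nat_lit 163908) (nat_lit 12) (.e (nat_lit 426286) (nat_lit 10) (.e (nat_lit 434279) (nat_lit 39) (.e (nat_lit 663580) (nat_lit 9) (.e (nat_lit 7936) (nat_lit 24) .nil))))) (.g (nat_lit 0) (.e (nat_lit 156428) (nat_lit 0) .nil) .nil))) 
(.lf (nat_lit 497423) (.g (nat_lit 2140) (.e (nat_lit 163938) (nat_lit 18) (.e (nat_lit 475177) (nat_lit 24) (.e (nat_lit 516150) (nat_lit 9) (.e (nat_lit 426323) (nat_lit 13) (.e (nat_lit 483365) (nat_lit 18) (.e (nat_lit 57687) (nat_lit 156) .nil)))))) (.g (nat_lit 1) (.e (nat_lit 160809) (nat_lit 0) .nil) .nil))))) (.nd (nat_lit 8) (.nd (nat_lit 9) 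
(.lf (nat_lit 496783) (.g (nat_lit 3440) (.e (nat_lit 163907) (nat_lit 12) (.e (nat_lit 426568) (nat_lit 34) (.e (nat_lit 393271) (nat_lit 23) (.e (nat_lit 426438) (nat_lit 18) (.e (nat_lit 98333) (nat_lit 18) (.e (nat_lit 164325) (nat_lit 230) .nil)))))) (.g (nat_lit 1) (.e (nat_lit 156033) (nat_lit 0) .nil) .nil))) 
(.lf (nat_lit 497295) (.g (nat_lit 359) (.e (nat_lit 163923) (nat_lit 15) (.e (nat_lit 450597) (nat_lit 17) (.e (nat_lit 663574) (nat_lit 9) .nil))) (.g (nat_lit 0) (.e (nat_lit 158781) (nat_lit 0) .nil) .nil)))) (.nd (nat_lit 9) 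
(.lf (nat_lit 497039) (.g (nat_lit 4569) (.e (nat_lit 163909) (nat_lit 12) (.e (nat_lit 426125) (nat_lit 2) (.e (nat_lit 196666) (nat_lit 13) (.e (nat_lit 65617) (nat_lit 10) (.e (nat_lit 344133) (nat_lit 26) (.e (nat_lit 557089) (nat_lit 12) (.e (nat_lit 163843) (nat_lit 0) (.e (nat_lit 6416) (nat_lit 341) .nil)))))))) (.g (nat_lit 1) (.e (nat_lit 156846) (nat_lit 0) .nil) .nil))) 
(.lf (nat_lit 497551) (.g (nat_lit 2108) (.e (nat_lit 163939) (nat_lit 18) (.e (nat_lit 475179) (nat_lit 24) (.e (nat_lit 516146) (nat_lit 9) (.e (nat_lit 426323) (nat_lit 13) (.e (nat_lit 483365) (nat_lit 18) .nil))))) (.g (nat_lit 0) (.e (nat_lit 160959) (nat_lit 0) .nil) .nil)))))) (.nd (nat_lit 7) (.nd (nat_lit 8) (.nd (nat_lit 9) 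
(.lf (nat_lit 496719) (.g (nat_lit 3180) (.e (nat_lit 163907) (nat_lit 12) (.e (nat_lit 426566) (nat_lit 34) (.e (nat_lit 393293) (nat_lit 26) (.e (nat_lit 475177) (nat_lit 24) (.e (nat_lit 516115) (nat_lit 1) (.e (nat_lit 164327) (nat_lit 230) .nil)))))) (.g (nat_lit 1) (.e (nat_lit 155969) (nat_lit 0) .nil) .nil))) 
(.lf (nat_lit 497231) (.g (nat_lit 4502) (.e (nat_lit 163917) (nat_lit 13) (.e (nat_lit 434231) (nat_lit 23) (.e (nat_lit 532550) (nat_lit 12) (.e (nat_lit 360475) (nat_lit 8) (.e (nat_lit 557089) (nat_lit 12) (.e (nat_lit 163843) (nat_lit 0) (.e (nat_lit 6421) (nat_lit 341) .nil))))))) (.g (nat_lit 1) (.e (nat_lit 157637) (nat_lit 0) .nil) .nil)))) (.nd (nat_lit 9) 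
(.lf (nat_lit 496975) (.g (nat_lit 1631) (.e (nat_lit 163908) (nat_lit 12) (.e (nat_lit 426338) (nat_lit 14) (.e (nat_lit 491540) (nat_lit 3) (.e (nat_lit 98372) (nat_lit 29) (.e (nat_lit 450564) (nat_lit 0) (.e (nat_lit 7936) (nat_lit 243) .nil)))))) (.g (nat_lit 1) (.e (nat_lit 156693) (nat_lit 0) .nil) .nil))) 
(.lf (nat_lit 497487) (.g (nat_lit 3400) (.e (nat_lit 163938) (nat_lit 18) (.e (nat_lit 475179) (nat_lit 24) (.e (nat_lit 516176) (nat_lit 14) (.e (nat_lit 466954) (nat_lit 11) (.e (nat_lit 335996) (nat_lit 1) (.e (nat_lit 57691) (nat_lit 156) .nil)))))) (.g (nat_lit 1) (.e (nat_lit 160891) (nat_lit 0) .nil) .nil))))) (.nd (nat_lit 8) (.nd (nat_lit 9) 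
(.lf (nat_lit 496847) (.g (nat_lit 3948) (.e (nat_lit 163908) (nat_lit 12) (.e (nat_lit 426132) (nat_lit 3) (.e (nat_lit 204869) (nat_lit 29) (.e (nat_lit 360475) (nat_lit 8) (.e (nat_lit 557089) (nat_lit 12) (.e (nat_lit 163849) (nat_lit 0) (.e (nat_lit 6420) (nat_lit 341) .nil))))))) (.g (nat_lit 1) (.e (nat_lit 156116) (nat_lit 0) .nil) .nil))) 
(.lf (nat_lit 497359) (.g (nat_lit 2100) (.e (nat_lit 163936) (nat_lit 18) (.e (nat_lit 475177) (nat_lit 24) (.e (nat_lit 516174) (nat_lit 14) (.e (nat_lit 466954) (nat_lit 11) (.e (nat_lit 335993) (nat_lit 1) .nil))))) (.g (nat_lit 0) (.e (nat_lit 160714) (nat_lit 0) .nil) .nil)))) (.nd (nat_lit 9) 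
(.lf (nat_lit 497103) (.g (nat_lit 1774) (.e (nat_lit 163913) (nat_lit 12) (.e (nat_lit 426347) (nat_lit 14) (.e (nat_lit 491549) (nat_lit 9) (.e (nat_lit 336432) (nat_lit 30) .nil)))) (.g (nat_lit 0) (.e (nat_lit 157019) (nat_lit 0) .nil) .nil))) 
(.lf (nat_lit 497615) (.g (nat_lit 4048) (.e (nat_lit 163941) (nat_lit 19) (.e (nat_lit 483337) (nat_lit 9) (.e (nat_lit 426187) (nat_lit 9) (.e (nat_lit 426436) (nat_lit 18) (.e (nat_lit 98335) (nat_lit 18) (.e (nat_lit 164324) (nat_lit 230) .nil)))))) (.g (nat_lit 1) (.e (nat_lit 161088) (nat_lit 0) .nil) .nil))))))) (.nd (nat_lit 6) (.nd (nat_lit 7) (.nd (nat_lit 8) (.nd (nat_lit 9) 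
(.lf (nat_lit 496687) (.g (nat_lit 3156) (.e (nat_lit 163907) (nat_lit 12) (.e (nat_lit 426566) (nat_lit 34) (.e (nat_lit 393273) (nat_lit 23) (.e (nat_lit 426131) (nat_lit 3) (.e (nat_lit 204829) (nat_lit 18) (.e (nat_lit 57691) (nat_lit 156) .nil)))))) (.g (nat_lit 1) (.e (nat_lit 155937) (nat_lit 0) .nil) .nil))) 
(.lf (nat_lit 497199) (.g (nat_lit 3003) (.e (nat_lit 163916) (nat_lit 13) (.e (nat_lit 434231) (nat_lit 23) (.e (nat_lit 532550) (nat_lit 12) (.e (nat_lit 360474) (nat_lit 8) (.e (nat_lit 557088) (nat_lit 12) .nil))))) (.g (nat_lit 0) (.e (nat_lit 157475) (nat_lit 0) .nil) .nil)))) (.nd (nat_lit 9) 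
(.lf (nat_lit 496943) (.g (nat_lit 3913) (.e (nat_lit 163908) (nat_lit 12) (.e (nat_lit 426305) (nat_lit 12) (.e (nat_lit 475199) (nat_lit 40) (.e (nat_lit 704598) (nat_lit 6) (.e (nat_lit 188455) (nat_lit 24) (.e (nat_lit 229678) (nat_lit 244) .nil)))))) (.g (nat_lit 1) (.e (nat_lit 156479) (nat_lit 0) .nil) .nil))) 
(.lf (nat_lit 497455) (.g (nat_lit 1931) (.e (nat_lit 163938) (nat_lit 18) (.e (nat_lit 475179) (nat_lit 24) (.e (nat_lit 516150) (nat_lit 9) (.e (nat_lit 426323) (nat_lit 13) (.e (nat_lit 483365) (nat_lit 18) (.e (nat_lit 57687) (nat_lit 156) .nil)))))) (.g (nat_lit 1) (.e (nat_lit 160846) (nat_lit 0) .nil) .nil))))) (.nd (nat_lit 8) (.nd (nat_lit 9) 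
(.lf (nat_lit 496815) (.g (nat_lit 2497) (.e (nat_lit 163907) (nat_lit 12) (.e (nat_lit 433920) (nat_lit 34) (.e (nat_lit 393291) (nat_lit 26) (.e (nat_lit 475179) (nat_lit 24) (.e (nat_lit 516119) (nat_lit 1) (.e (nat_lit 164325) (nat_lit 230) .nil)))))) (.g (nat_lit 1) (.e (nat_lit 156065) (nat_lit 0) .nil) .nil))) 
(.lf (nat_lit 497327) (.g (nat_lit 920) (.e (nat_lit 163933) (nat_lit 17) (.e (nat_lit 466977) (nat_lit 22) (.e (nat_lit 196619) (nat_lit 9) .nil))) (.g (nat_lit 0) (.e (nat_lit 160625) (nat_lit 0) .nil) .nil)))) (.nd (nat_lit 9) 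
(.lf (nat_lit 497071) (.g (nat_lit 3189) (.e (nat_lit 163912) (nat_lit 12) (.e (nat_lit 426125) (nat_lit 2) (.e (nat_lit 196666) (nat_lit 13) (.e (nat_lit 65610) (nat_lit 10) (.e (nat_lit 344117) (nat_lit 21) .nil))))) (.g (nat_lit 0) (.e (nat_lit 156946) (nat_lit 0) .nil) .nil))) 
(.lf (nat_lit 497583) (.g (nat_lit 1202) (.e (nat_lit 163939) (nat_lit 18) (.e (nat_lit 475179) (nat_lit 24) (.e (nat_lit 516176) (nat_lit 14) (.e (nat_lit 466950) (nat_lit 11) .nil)))) (.g (nat_lit 0) (.e (nat_lit 161009) (nat_lit 0) .nil) .nil)))))) (.nd (nat_lit 7) (.nd (nat_lit 8) (.nd (nat_lit 9) 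
(.lf (nat_lit 496751) (.g (nat_lit 2186) (.e (nat_lit 163907) (nat_lit 12) (.e (nat_lit 426567) (nat_lit 34) (.e (nat_lit 393291) (nat_lit 26) (.e (nat_lit 475177) (nat_lit 24) (.e (nat_lit 516118) (nat_lit 1) (.e (nat_lit 164325) (nat_lit 230) .nil)))))) (.g (nat_lit 1) (.e (nat_lit 156001) (nat_lit 0) .nil) .nil))) 
(.lf (nat_lit 497263) (.g (nat_lit 3036) (.e (nat_lit 163920) (nat_lit 14) (.e (nat_lit 442430) (nat_lit 24) (.e (nat_lit 229637) (nat_lit 228) (.e (nat_lit 57436) (nat_lit 17) (.e (nat_lit 376860) (nat_lit 21) (.e (nat_lit 57857) (nat_lit 254) .nil)))))) (.g (nat_lit 1) (.e (nat_lit 158131) (nat_lit 0) .nil) .nil)))) (.nd (nat_lit 9) 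
(.lf (nat_lit 497007) (.g (nat_lit 3190) (.e (nat_lit 163908) (nat_lit 12) (.e (nat_lit 426338) (nat_lit 14) (.e (nat_lit 491550) (nat_lit 9) (.e (nat_lit 336430) (nat_lit 29) (.e (nat_lit 442428) (nat_lit 24) (.e (nat_lit 229681) (nat_lit 244) .nil)))))) (.g (nat_lit 1) (.e (nat_lit 156739) (nat_lit 0) .nil) .nil))) 
(.lf (nat_lit 497519) (.g (nat_lit 1503) (.e (nat_lit 163939) (nat_lit 18) (.e (nat_lit 475177) (nat_lit 24) (.e (nat_lit 516149) (nat_lit 9) (.e (nat_lit 426323) (nat_lit 13) (.e (nat_lit 483366) (nat_lit 18) (.e (nat_lit 57686) (nat_lit 156) .nil)))))) (.g (nat_lit 1) (.e (nat_lit 160925) (nat_lit 0) .nil) .nil))))) (.nd (nat_lit 8) (.nd (nat_lit 9) 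
(.lf (nat_lit 496879) (.g (nat_lit 4676) (.e (nat_lit 163908) (nat_lit 12) (.e (nat_lit 426171) (nat_lit 7) (.e (nat_lit 409617) (nat_lit 10) (.e (nat_lit 632) (nat_lit 50) (.e (nat_lit 573482) (nat_lit 13) (.e (nat_lit 65619) (nat_lit 10) (.e (nat_lit 344090) (nat_lit 18) (.e (nat_lit 7710) (nat_lit 414) .nil)))))))) (.g (nat_lit 1) (.e (nat_lit 156175) (nat_lit 0) .nil) .nil))) 
(.lf (nat_lit 497391) (.g (nat_lit 2940) (.e (nat_lit 163936) (nat_lit 18) (.e (nat_lit 475179) (nat_lit 24) (.e (nat_lit 516176) (nat_lit 14) (.e (nat_lit 466954) (nat_lit 11) (.e (nat_lit 335994) (nat_lit 1) (.e (nat_lit 57688) (nat_lit 156) .nil)))))) (.g (nat_lit 1) (.e (nat_lit 160768) (nat_lit 0) .nil) .nil)))) (.nd (nat_lit 9) 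
(.lf (nat_lit 497135) (.g (nat_lit 929) (.e (nat_lit 163915) (nat_lit 12) (.e (nat_lit 426188) (nat_lit 9) (.e (nat_lit 426442) (nat_lit 19) (.e (nat_lit 114432) (nat_lit 6) .nil)))) (.g (nat_lit 0) (.e (nat_lit 157127) (nat_lit 0) .nil) .nil))) 
(.lf (nat_lit 497647) (.g (nat_lit 2852) (.e (nat_lit 163941) (nat_lit 19) (.e (nat_lit 483337) (nat_lit 9) (.e (nat_lit 426305) (nat_lit 12) (.e (nat_lit 475179) (nat_lit 24) (.e (nat_lit 516117) (nat_lit 1) (.e (nat_lit 164329) (nat_lit 230) .nil)))))) (.g (nat_lit 1) (.e (nat_lit 161157) (nat_lit 0) .nil) .nil)))))))) 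
(.nd (nat_lit 5) (.nd (nat_lit 6) (.nd (nat_lit 7) (.nd (nat_lit 8) (.nd (nat_lit 9) 
(.lf (nat_lit 496671) (.g (nat_lit 3711) (.e (nat_lit 163907) (nat_lit 12) (.e (nat_lit 426566) (nat_lit 34) (.e (nat_lit 393271) (nat_lit 23) (.e (nat_lit 426131) (nat_lit 3) (.e (nat_lit 204829) (nat_lit 18) (.e (nat_lit 57692) (nat_lit 156) .nil)))))) (.g (nat_lit 1) (.e (nat_lit 155921) (nat_lit 0) .nil) .nil))) 
(.lf (nat_lit 497183) (.g (nat_lit 2529) (.e (nat_lit 171776) (nat_lit 12) (.e (nat_lit 426139) (nat_lit 3) (.e (nat_lit 204869) (nat_lit 29) (.e (nat_lit 360475) (nat_lit 8) (.e (nat_lit 557091) (nat_lit 12) .nil))))) (.g (nat_lit 0) (.e (nat_lit 157364) (nat_lit 0) .nil) .nil)))) (.nd (nat_lit 9) 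
(.lf (nat_lit 496927) (.g (nat_lit 2015) (.e (nat_lit 163908) (nat_lit 12) (.e (nat_lit 426290) (nat_lit 10) (.e (nat_lit 434268) (nat_lit 36) (.e (nat_lit 639020) (nat_lit 16) (.e (nat_lit 65598) (nat_lit 9) (.e (nat_lit 335997) (nat_lit 1) (.e (nat_lit 57857) (nat_lit 254) .nil))))))) (.g (nat_lit 1) (.e (nat_lit 156460) (nat_lit 0) .nil) .nil))) 
(.lf (nat_lit 497439) (.g (nat_lit 3500) (.e (nat_lit 163938) (nat_lit 18) (.e (nat_lit 475177) (nat_lit 24) (.e (nat_lit 516176) (nat_lit 14) (.e (nat_lit 466954) (nat_lit 11) (.e (nat_lit 335995) (nat_lit 1) (.e (nat_lit 57691) (nat_lit 156) .nil)))))) (.g (nat_lit 1) (.e (nat_lit 160825) (nat_lit 0) .nil) .nil))))) (.nd (nat_lit 8) (.nd (nat_lit 9) 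
(.lf (nat_lit 496799) (.g (nat_lit 3238) (.e (nat_lit 163907) (nat_lit 12) (.e (nat_lit 426568) (nat_lit 34) (.e (nat_lit 393291) (nat_lit 26) (.e (nat_lit 475177) (nat_lit 24) (.e (nat_lit 516119) (nat_lit 1) (.e (nat_lit 164325) (nat_lit 230) .nil)))))) (.g (nat_lit 1) (.e (nat_lit 156049) (nat_lit 0) .nil) .nil))) 
(.lf (nat_lit 497311) (.g (nat_lit 1606) (.e (nat_lit 163931) (nat_lit 17) (.e (nat_lit 466977) (nat_lit 22) (.e (nat_lit 196654) (nat_lit 11) (.e (nat_lit 16407) (nat_lit 1) .nil)))) (.g (nat_lit 0) (.e (nat_lit 159781) (nat_lit 0) .nil) .nil)))) (.nd (nat_lit 9) 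
(.lf (nat_lit 497055) (.g (nat_lit 3971) (.e (nat_lit 163910) (nat_lit 12) (.e (nat_lit 426135) (nat_lit 3) (.e (nat_lit 204869) (nat_lit 29) (.e (nat_lit 360475) (nat_lit 8) (.e (nat_lit 557091) (nat_lit 12) .nil))))) (.g (nat_lit 0) (.e (nat_lit 156893) (nat_lit 0) .nil) .nil))) 
(.lf (nat_lit 497567) (.g (nat_lit 2587) (.e (nat_lit 163939) (nat_lit 18) (.e (nat_lit 475179) (nat_lit 24) (.e (nat_lit 516150) (nat_lit 9) (.e (nat_lit 426323) (nat_lit 13) (.e (nat_lit 483366) (nat_lit 18) (.e (nat_lit 57692) (nat_lit 156) .nil)))))) (.g (nat_lit 1) (.e (nat_lit 160982) (nat_lit 0) .nil) .nil)))))) (.nd (nat_lit 7) (.nd (nat_lit 8) (.nd (nat_lit 9) 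
(.lf (nat_lit 496735) (.g (nat_lit 1714) (.e (nat_lit 163907) (nat_lit 12) (.e (nat_lit 426566) (nat_lit 34) (.e (nat_lit 393296) (nat_lit 26) (.e (nat_lit 475176) (nat_lit 24) (.e (nat_lit 516118) (nat_lit 1) (.e (nat_lit 164327) (nat_lit 230) .nil)))))) (.g (nat_lit 1) (.e (nat_lit 155985) (nat_lit 0) .nil) .nil))) 
(.lf (nat_lit 497247) (.g (nat_lit 1656) (.e (nat_lit 163919) (nat_lit 14) (.e (nat_lit 442371) (nat_lit 0) (.e (nat_lit 2148) (nat_lit 142) (.e (nat_lit 704597) (nat_lit 6) (.e (nat_lit 188453) (nat_lit 24) (.e (nat_lit 229681) (nat_lit 244) .nil)))))) (.g (nat_lit 1) (.e (nat_lit 157790) (nat_lit 0) .nil) .nil)))) (.nd (nat_lit 9) 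
(.lf (nat_lit 496991) (.g (nat_lit 3986) (.e (nat_lit 163908) (nat_lit 12) (.e (nat_lit 426338) (nat_lit 14) (.e (nat_lit 491549) (nat_lit 9) (.e (nat_lit 336430) (nat_lit 29) (.e (nat_lit 442430) (nat_lit 24) (.e (nat_lit 229679) (nat_lit 244) .nil)))))) (.g (nat_lit 1) (.e (nat_lit 156721) (nat_lit 0) .nil) .nil))) 
(.lf (nat_lit 497503) (.g (nat_lit 3287) (.e (nat_lit 163938) (nat_lit 18) (.e (nat_lit 475185) (nat_lit 29) (.e (nat_lit 557100) (nat_lit 13) (.e (nat_lit 172113) (nat_lit 10) (.e (nat_lit 434248) (nat_lit 28) (.e (nat_lit 573475) (nat_lit 12) (.e (nat_lit 57344) (nat_lit 0) (.e (nat_lit 6940) (nat_lit 375) .nil)))))))) (.g (nat_lit 1) (.e (nat_lit 160908) (nat_lit 0) .nil) .nil))))) 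
(.nd (nat_lit 8) (.nd (nat_lit 9) 
(.lf (nat_lit 496863) (.g (nat_lit 4014) (.e (nat_lit 163908) (nat_lit 12) (.e (nat_lit 426136) (nat_lit 3) (.e (nat_lit 204869) (nat_lit 29) (.e (nat_lit 360475) (nat_lit 8) (.e (nat_lit 557089) (nat_lit 12) (.e (nat_lit 163843) (nat_lit 0) (.e (nat_lit 6416) (nat_lit 341) .nil))))))) (.g (nat_lit 1) (.e (nat_lit 156132) (nat_lit 0) .nil) .nil))) 
(.lf (nat_lit 497375) (.g (nat_lit 2239) (.e (nat_lit 163936) (nat_lit 18) (.e (nat_lit 475179) (nat_lit 24) (.e (nat_lit 516150) (nat_lit 9) (.e (nat_lit 426323) (nat_lit 13) (.e (nat_lit 483365) (nat_lit 18) (.e (nat_lit 57687) (nat_lit 156) .nil)))))) (.g (nat_lit 1) (.e (nat_lit 160734) (nat_lit 0) .nil) .nil)))) (.nd (nat_lit 9) 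
(.lf (nat_lit 497119) (.g (nat_lit 1753) (.e (nat_lit 163914) (nat_lit 12) (.e (nat_lit 426306) (nat_lit 12) (.e (nat_lit 475210) (nat_lit 41) (.e (nat_lit 712755) (nat_lit 30) .nil)))) (.g (nat_lit 0) (.e (nat_lit 157055) (nat_lit 0) .nil) .nil))) 
(.lf (nat_lit 497631) (.g (nat_lit 3355) (.e (nat_lit 163941) (nat_lit 19) (.e (nat_lit 483337) (nat_lit 9) (.e (nat_lit 426190) (nat_lit 9) (.e (nat_lit 426436) (nat_lit 18) (.e (nat_lit 98335) (nat_lit 18) (.e (nat_lit 164325) (nat_lit 230) .nil)))))) (.g (nat_lit 1) (.e (nat_lit 161121) (nat_lit 0) .nil) .nil))))))) (.nd (nat_lit 6) (.nd (nat_lit 7) (.nd (nat_lit 8) (.nd (nat_lit 9) 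
(.lf (nat_lit 496703) (.g (nat_lit 2951) (.e (nat_lit 163907) (nat_lit 12) (.e (nat_lit 426566) (nat_lit 34) (.e (nat_lit 393286) (nat_lit 25) (.e (nat_lit 458789) (nat_lit 23) (.e (nat_lit 532501) (nat_lit 1) (.e (nat_lit 57692) (nat_lit 156) .nil)))))) (.g (nat_lit 1) (.e (nat_lit 155953) (nat_lit 0) .nil) .nil))) 
(.lf (nat_lit 497215) (.g (nat_lit 3635) (.e (nat_lit 163916) (nat_lit 13) (.e (nat_lit 434247) (nat_lit 28) (.e (nat_lit 573477) (nat_lit 12) (.e (nat_lit 57750) (nat_lit 201) (.e (nat_lit 3090) (nat_lit 191) (.e (nat_lit 483363) (nat_lit 18) (.e (nat_lit 57691) (nat_lit 156) .nil))))))) (.g (nat_lit 1) (.e (nat_lit 157508) (nat_lit 0) .nil) .nil)))) (.nd (nat_lit 9) 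
(.lf (nat_lit 496959) (.g (nat_lit 2161) (.e (nat_lit 163908) (nat_lit 12) (.e (nat_lit 426305) (nat_lit 12) (.e (nat_lit 475211) (nat_lit 41) (.e (nat_lit 712755) (nat_lit 30) (.e (nat_lit 450569) (nat_lit 0) .nil))))) (.g (nat_lit 0) (.e (nat_lit 156525) (nat_lit 0) .nil) .nil))) 
(.lf (nat_lit 497471) (.g (nat_lit 1188) (.e (nat_lit 163938) (nat_lit 18) (.e (nat_lit 475179) (nat_lit 24) (.e (nat_lit 516176) (nat_lit 14) (.e (nat_lit 466950) (nat_lit 11) .nil)))) (.g (nat_lit 0) (.e (nat_lit 160875) (nat_lit 0) .nil) .nil))))) (.nd (nat_lit 8) (.nd (nat_lit 9) 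
(.lf (nat_lit 496831) (.g (nat_lit 3970) (.e (nat_lit 163908) (nat_lit 12) (.e (nat_lit 426132) (nat_lit 3) (.e (nat_lit 204868) (nat_lit 29) (.e (nat_lit 360475) (nat_lit 8) (.e (nat_lit 557089) (nat_lit 12) (.e (nat_lit 163849) (nat_lit 0) (.e (nat_lit 6416) (nat_lit 341) .nil))))))) (.g (nat_lit 1) (.e (nat_lit 156100) (nat_lit 0) .nil) .nil))) 
(.lf (nat_lit 497343) (.g (nat_lit 2216) (.e (nat_lit 163935) (nat_lit 18) (.e (nat_lit 475179) (nat_lit 24) (.e (nat_lit 516176) (nat_lit 14) (.e (nat_lit 466954) (nat_lit 11) (.e (nat_lit 335986) (nat_lit 1) .nil))))) (.g (nat_lit 0) (.e (nat_lit 160696) (nat_lit 0) .nil) .nil)))) (.nd (nat_lit 9) 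
(.lf (nat_lit 497087) (.g (nat_lit 1867) (.e (nat_lit 163913) (nat_lit 12) (.e (nat_lit 426318) (nat_lit 12) (.e (nat_lit 475198) (nat_lit 40) (.e (nat_lit 704598) (nat_lit 6) (.e (nat_lit 188453) (nat_lit 24) (.e (nat_lit 229681) (nat_lit 244) .nil)))))) (.g (nat_lit 1) (.e (nat_lit 156973) (nat_lit 0) .nil) .nil))) 
(.lf (nat_lit 497599) (.g (nat_lit 3078) (.e (nat_lit 163939) (nat_lit 18) (.e (nat_lit 475179) (nat_lit 24) (.e (nat_lit 516176) (nat_lit 14) (.e (nat_lit 466954) (nat_lit 11) (.e (nat_lit 335996) (nat_lit 1) (.e (nat_lit 57692) (nat_lit 156) .nil)))))) (.g (nat_lit 1) (.e (nat_lit 161025) (nat_lit 0) .nil) .nil)))))) (.nd (nat_lit 7) (.nd (nat_lit 8) (.nd (nat_lit 9) 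
(.lf (nat_lit 496767) (.g (nat_lit 3399) (.e (nat_lit 163907) (nat_lit 12) (.e (nat_lit 426568) (nat_lit 34) (.e (nat_lit 393268) (nat_lit 23) (.e (nat_lit 426436) (nat_lit 18) (.e (nat_lit 98333) (nat_lit 18) (.e (nat_lit 164325) (nat_lit 230) .nil)))))) (.g (nat_lit 1) (.e (nat_lit 156017) (nat_lit 0) .nil) .nil))) 
(.lf (nat_lit 497279) (.g (nat_lit 1919) (.e (nat_lit 163923) (nat_lit 15) (.e (nat_lit 450587) (nat_lit 10) (.e (nat_lit 573477) (nat_lit 12) (.e (nat_lit 57361) (nat_lit 0) .nil)))) (.g (nat_lit 0) (.e (nat_lit 158736) (nat_lit 0) .nil) .nil)))) (.nd (nat_lit 9) 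
(.lf (nat_lit 497023) (.g (nat_lit 2470) (.e (nat_lit 163909) (nat_lit 12) (.e (nat_lit 426125) (nat_lit 2) (.e (nat_lit 196666) (nat_lit 13) (.e (nat_lit 65610) (nat_lit 10) (.e (nat_lit 344117) (nat_lit 21) (.e (nat_lit 516106) (nat_lit 0) (.e (nat_lit 7936) (nat_lit 157) (.e (nat_lit 4540) (nat_lit 267) .nil)))))))) (.g (nat_lit 1) (.e (nat_lit 156828) (nat_lit 0) .nil) .nil))) 
(.lf (nat_lit 497535) (.g (nat_lit 3222) (.e (nat_lit 163939) (nat_lit 18) (.e (nat_lit 475177) (nat_lit 24) (.e (nat_lit 516174) (nat_lit 14) (.e (nat_lit 466954) (nat_lit 11) (.e (nat_lit 335995) (nat_lit 1) (.e (nat_lit 57688) (nat_lit 156) .nil)))))) (.g (nat_lit 1) (.e (nat_lit 160942) (nat_lit 0) .nil) .nil))))) (.nd (nat_lit 8) (.nd (nat_lit 9) 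
(.lf (nat_lit 496895) (.g (nat_lit 3516) (.e (nat_lit 163908) (nat_lit 12) (.e (nat_lit 426285) (nat_lit 10) (.e (nat_lit 434268) (nat_lit 36) (.e (nat_lit 639020) (nat_lit 16) (.e (nat_lit 65598) (nat_lit 9) (.e (nat_lit 335997) (nat_lit 1) (.e (nat_lit 57857) (nat_lit 254) .nil))))))) (.g (nat_lit 1) (.e (nat_lit 156334) (nat_lit 0) .nil) .nil))) 
(.lf (nat_lit 497407) (.g (nat_lit 1711) (.e (nat_lit 163938) (nat_lit 18) (.e (nat_lit 475176) (nat_lit 24) (.e (nat_lit 516174) (nat_lit 14) (.e (nat_lit 466954) (nat_lit 11) (.e (nat_lit 335986) (nat_lit 1) .nil))))) (.g (nat_lit 0) (.e (nat_lit 160793) (nat_lit 0) .nil) .nil)))) (.nd (nat_lit 9) 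
(.lf (nat_lit 497151) (.g (nat_lit 1842) (.e (nat_lit 163915) (nat_lit 12) (.e (nat_lit 426306) (nat_lit 12) (.e (nat_lit 475209) (nat_lit 41) (.e (nat_lit 712750) (nat_lit 29) (.e (nat_lit 442430) (nat_lit 24) .nil))))) (.g (nat_lit 0) (.e (nat_lit 157154) (nat_lit 0) .nil) .nil))) 
(.lf (nat_lit 497663) (.g (nat_lit 2150) (.e (nat_lit 163941) (nat_lit 19) (.e (nat_lit 483339) (nat_lit 9) (.e (nat_lit 426230) (nat_lit 9) (.e (nat_lit 426435) (nat_lit 18) (.e (nat_lit 98335) (nat_lit 18) (.e (nat_lit 164325) (nat_lit 230) .nil)))))) (.g (nat_lit 1) (.e (nat_lit 161223) (nat_lit 0) .nil) .nil)))))))))))))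

noncomputable def tv5546 : DT := (.nd (nat_lit 0) (.nd (nat_lit 1) (.nd (nat_lit 2) (.nd (nat_lit 3) (.nd (nat_lit 4) (.nd (nat_lit 5) (.nd (nat_lit 6) (.nd (nat_lit 7) (.nd (nat_lit 8) (.nd (nat_lit 9) 
(.lf (nat_lit 497664) (.g (nat_lit 1833) (.e (nat_lit 163941) (nat_lit 19) (.e (nat_lit 483339) (nat_lit 9) (.e (nat_lit 426230) (nat_lit 9) (.e (nat_lit 426435) (nat_lit 18) (.e (nat_lit 98335) (nat_lit 18) (.e (nat_lit 164326) (nat_lit 230) .nil)))))) (.g (nat_lit 1) (.e (nat_lit 161224) (nat_lit 0) .nil) .nil))) 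
(.lf (nat_lit 498176) (.g (nat_lit 3697) (.e (nat_lit 163962) (nat_lit 25) (.e (nat_lit 532499) (nat_lit 1) (.e (nat_lit 57847) (nat_lit 252) (.e (nat_lit 57370) (nat_lit 2) .nil)))) (.g (nat_lit 0) (.e (nat_lit 163621) (nat_lit 0) .nil) .nil)))) (.nd (nat_lit 9) 
(.lf (nat_lit 497920) (.g (nat_lit 742) (.e (nat_lit 163943) (nat_lit 19) (.e (nat_lit 483341) (nat_lit 9) (.e (nat_lit 426204) (nat_lit 9) .nil))) (.g (nat_lit 0) (.e (nat_lit 162332) (nat_lit 0) .nil) .nil))) 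
(.lf (nat_lit 498432) (.g (nat_lit 2024) (.e (nat_lit 163962) (nat_lit 25) (.e (nat_lit 532535) (nat_lit 9) (.e (nat_lit 336176) (nat_lit 10) (.e (nat_lit 344132) (nat_lit 26) (.e (nat_lit 557072) (nat_lit 9) (.e (nat_lit 7936) (nat_lit 19) (.e (nat_lit 319491) (nat_lit 0) (.e (nat_lit 5761) (nat_lit 315) .nil)))))))) (.g (nat_lit 1) (.e (nat_lit 164280) (nat_lit 0) .nil) .nil))))) 
(.nd (nat_lit 8) (.nd (nat_lit 9) 
(.lf (nat_lit 497792) (.g (nat_lit 3719) (.e (nat_lit 163941) (nat_lit 19) (.e (nat_lit 483341) (nat_lit 9) (.e (nat_lit 426306) (nat_lit 12) (.e (nat_lit 475179) (nat_lit 24) (.e (nat_lit 516120) (nat_lit 1) (.e (nat_lit 164332) (nat_lit 230) .nil)))))) (.g (nat_lit 1) (.e (nat_lit 161500) (nat_lit 0) .nil) .nil))) 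
(.lf (nat_lit 498304) (.g (nat_lit 2690) (.e (nat_lit 163962) (nat_lit 25) (.e (nat_lit 532523) (nat_lit 7) (.e (nat_lit 319534) (nat_lit 16) (.e (nat_lit 286734) (nat_lit 3) (.e (nat_lit 98350) (nat_lit 24) .nil))))) (.g (nat_lit 0) (.e (nat_lit 163907) (nat_lit 0) .nil) .nil)))) (.nd (nat_lit 9) 
(.lf (nat_lit 498048) (.g (nat_lit 1321) (.e (nat_lit 163945) (nat_lit 20) (.e (nat_lit 491566) (nat_lit 12) (.e (nat_lit 385105) (nat_lit 50) (.e (nat_lit 786481) (nat_lit 30) .nil)))) (.g (nat_lit 0) (.e (nat_lit 163411) (nat_lit 0) .nil) .nil))) 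
(.lf (nat_lit 498560) (.g (nat_lit 3808) (.e (nat_lit 163962) (nat_lit 25) (.e (nat_lit 532544) (nat_lit 10) (.e (nat_lit 344133) (nat_lit 26) (.e (nat_lit 557105) (nat_lit 14) (.e (nat_lit 180252) (nat_lit 10) (.e (nat_lit 573474) (nat_lit 12) (.e (nat_lit 57506) (nat_lit 39) (.e (nat_lit 647180) (nat_lit 3) .nil)))))))) (.g (nat_lit 1) (.e (nat_lit 164518) (nat_lit 0) .nil) .nil)))))) 
(.nd (nat_lit 7) (.nd (nat_lit 8) (.nd (nat_lit 9) 
(.lf (nat_lit 497728) (.g (nat_lit 4629) (.e (nat_lit 163941) (nat_lit 19) (.e (nat_lit 483341) (nat_lit 9) (.e (nat_lit 426189) (nat_lit 9) (.e (nat_lit 426436) (nat_lit 18) (.e (nat_lit 98335) (nat_lit 18) (.e (nat_lit 164326) (nat_lit 230) .nil)))))) (.g (nat_lit 1) (.e (nat_lit 161316) (nat_lit 0) .nil) .nil))) 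
(.lf (nat_lit 498240) (.g (nat_lit 3648) (.e (nat_lit 163962) (nat_lit 25) (.e (nat_lit 532513) (nat_lit 3) (.e (nat_lit 114714) (nat_lit 22) (.e (nat_lit 90172) (nat_lit 14) (.e (nat_lit 180244) (nat_lit 5) (.e (nat_lit 532501) (nat_lit 1) (.e (nat_lit 57663) (nat_lit 152) (.e (nat_lit 7936) (nat_lit 163) .nil)))))))) (.g (nat_lit 1) (.e (nat_lit 163755) (nat_lit 0) .nil) .nil)))) 
(.nd (nat_lit 9) 
(.lf (nat_lit 497984) (.g (nat_lit 1681) (.e (nat_lit 163943) (nat_lit 19) (.e (nat_lit 483413) (nat_lit 27) (.e (nat_lit 401414) (nat_lit 0) (.e (nat_lit 3296) (nat_lit 202) .nil)))) (.g (nat_lit 0) (.e (nat_lit 162832) (nat_lit 0) .nil) .nil))) 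
(.lf (nat_lit 498496) (.g (nat_lit 1319) (.e (nat_lit 163962) (nat_lit 25) (.e (nat_lit 532544) (nat_lit 10) (.e (nat_lit 344117) (nat_lit 21) (.e (nat_lit 516130) (nat_lit 3) .nil)))) (.g (nat_lit 0) (.e (nat_lit 164454) (nat_lit 0) .nil) .nil))))) (.nd (nat_lit 8) (.nd (nat_lit 9) 
(.lf (nat_lit 497856) (.g (nat_lit 3276) (.e (nat_lit 163942) (nat_lit 19) (.e (nat_lit 483341) (nat_lit 9) (.e (nat_lit 426188) (nat_lit 9) (.e (nat_lit 426436) (nat_lit 18) (.e (nat_lit 98335) (nat_lit 18) (.e (nat_lit 164326) (nat_lit 230) .nil)))))) (.g (nat_lit 1) (.e (nat_lit 161891) (nat_lit 0) .nil) .nil))) 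
(.lf (nat_lit 498368) (.g (nat_lit 3324) (.e (nat_lit 163962) (nat_lit 25) (.e (nat_lit 532535) (nat_lit 9) (.e (nat_lit 336110) (nat_lit 9) (.e (nat_lit 336028) (nat_lit 3) (.e (nat_lit 98350) (nat_lit 24) (.e (nat_lit 409616) (nat_lit 10) (.e (nat_lit 7936) (nat_lit 315) .nil))))))) (.g (nat_lit 1) (.e (nat_lit 164121) (nat_lit 0) .nil) .nil)))) (.nd (nat_lit 9) 
(.lf (nat_lit 498112) (.g (nat_lit 2466) (.e (nat_lit 163946) (nat_lit 20) (.e (nat_lit 491571) (nat_lit 13) (.e (nat_lit 393299) (nat_lit 27) (.e (nat_lit 491558) (nat_lit 10) (.e (nat_lit 344096) (nat_lit 18) .nil))))) (.g (nat_lit 0) (.e (nat_lit 163510) (nat_lit 0) .nil) .nil))) 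
(.lf (nat_lit 498624) (.g (nat_lit 1497) (.e (nat_lit 163962) (nat_lit 25) (.e (nat_lit 532549) (nat_lit 12) (.e (nat_lit 360471) (nat_lit 7) (.e (nat_lit 548890) (nat_lit 10) (.e (nat_lit 81664) (nat_lit 35) .nil))))) (.g (nat_lit 1) (.e (nat_lit 164718) (nat_lit 0) .nil) .nil))))))) (.nd (nat_lit 6) (.nd (nat_lit 7) (.nd (nat_lit 8) (.nd (nat_lit 9) 
(.lf (nat_lit 497696) (.g (nat_lit 2057) (.e (nat_lit 163941) (nat_lit 19) (.e (nat_lit 483339) (nat_lit 9) (.e (nat_lit 426262) (nat_lit 9) (.e (nat_lit 426435) (nat_lit 18) (.e (nat_lit 98335) (nat_lit 18) (.e (nat_lit 164327) (nat_lit 230) .nil)))))) (.g (nat_lit 1) (.e (nat_lit 161258) (nat_lit 0) .nil) .nil))) 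
(.lf (nat_lit 498208) (.g (nat_lit 3088) (.e (nat_lit 163962) (nat_lit 25) (.e (nat_lit 532500) (nat_lit 1) (.e (nat_lit 57926) (nat_lit 282) (.e (nat_lit 163875) (nat_lit 3) (.e (nat_lit 204862) (nat_lit 27) (.e (nat_lit 344117) (nat_lit 21) (.e (nat_lit 516106) (nat_lit 0) (.e (nat_lit 3721) (nat_lit 227) (.e (nat_lit 778474) (nat_lit 12) .nil))))))))) (.g (nat_lit 1) (.e (nat_lit 163690) (nat_lit 0) .nil) .nil)))) 
(.nd (nat_lit 9) 
(.lf (nat_lit 497952) (.g (nat_lit 2196) (.e (nat_lit 163943) (nat_lit 19) (.e (nat_lit 483394) (nat_lit 24) (.e (nat_lit 344117) (nat_lit 21) (.e (nat_lit 516195) (nat_lit 26) (.e (nat_lit 335987) (nat_lit 1) (.e (nat_lit 57927) (nat_lit 282) .nil)))))) (.g (nat_lit 1) (.e (nat_lit 162749) (nat_lit 0) .nil) .nil))) 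
(.lf (nat_lit 498464) (.g (nat_lit 3142) (.e (nat_lit 163962) (nat_lit 25) (.e (nat_lit 532535) (nat_lit 9) (.e (nat_lit 336226) (nat_lit 14) (.e (nat_lit 401425) (nat_lit 2) (.e (nat_lit 196622) (nat_lit 9) (.e (nat_lit 1512) (nat_lit 108) (.e (nat_lit 335872) (nat_lit 0) (.e (nat_lit 6713) (nat_lit 360) .nil)))))))) (.g (nat_lit 1) (.e (nat_lit 164386) (nat_lit 0) .nil) .nil))))) 
(.nd (nat_lit 8) (.nd (nat_lit 9) 
(.lf (nat_lit 497824) (.g (nat_lit 639) (.e (nat_lit 163941) (nat_lit 19) (.e (nat_lit 483346) (nat_lit 17) (.e (nat_lit 6712) (nat_lit 360) .nil))) (.g (nat_lit 0) (.e (nat_lit 161723) (nat_lit 0) .nil) .nil))) 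
(.lf (nat_lit 498336) (.g (nat_lit 2686) (.e (nat_lit 163962) (nat_lit 25) (.e (nat_lit 532535) (nat_lit 9) (.e (nat_lit 336061) (nat_lit 7) (.e (nat_lit 319519) (nat_lit 12) (.e (nat_lit 32773) (nat_lit 5) (.e (nat_lit 1512) (nat_lit 108) (.e (nat_lit 335872) (nat_lit 0) (.e (nat_lit 6713) (nat_lit 360) .nil)))))))) (.g (nat_lit 1) (.e (nat_lit 164018) (nat_lit 0) .nil) .nil)))) (.nd (nat_lit 9) 
(.lf (nat_lit 498080) (.g (nat_lit 2400) (.e (nat_lit 163945) (nat_lit 20) (.e (nat_lit 491571) (nat_lit 13) (.e (nat_lit 393299) (nat_lit 27) (.e (nat_lit 491558) (nat_lit 10) (.e (nat_lit 344096) (nat_lit 18) .nil))))) (.g (nat_lit 0) (.e (nat_lit 163465) (nat_lit 0) .nil) .nil))) 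
(.lf (nat_lit 498592) (.g (nat_lit 473) (.e (nat_lit 163962) (nat_lit 25) (.e (nat_lit 532549) (nat_lit 12) (.e (nat_lit 360451) (nat_lit 0) .nil))) (.g (nat_lit 0) (.e (nat_lit 164626) (nat_lit 0) .nil) .nil)))))) (.nd (nat_lit 7) (.nd (nat_lit 8) (.nd (nat_lit 9) 
(.lf (nat_lit 497760) (.g (nat_lit 5013) (.e (nat_lit 163941) (nat_lit 19) (.e (nat_lit 483341) (nat_lit 9) (.e (nat_lit 426199) (nat_lit 9) (.e (nat_lit 426436) (nat_lit 18) (.e (nat_lit 98335) (nat_lit 18) (.e (nat_lit 164325) (nat_lit 230) .nil)))))) (.g (nat_lit 1) (.e (nat_lit 161406) (nat_lit 0) .nil) .nil))) 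
(.lf (nat_lit 498272) (.g (nat_lit 4052) (.e (nat_lit 163962) (nat_lit 25) (.e (nat_lit 532523) (nat_lit 7) (.e (nat_lit 319490) (nat_lit 0) (.e (nat_lit 5664) (nat_lit 312) (.e (nat_lit 2679) (nat_lit 168) (.e (nat_lit 204846) (nat_lit 24) (.e (nat_lit 319490) (nat_lit 0) (.e (nat_lit 5761) (nat_lit 315) .nil)))))))) (.g (nat_lit 1) (.e (nat_lit 163855) (nat_lit 0) .nil) .nil)))) 
(.nd (nat_lit 9) 
(.lf (nat_lit 498016) (.g (nat_lit 3381) (.e (nat_lit 163944) (nat_lit 19) (.e (nat_lit 483341) (nat_lit 9) (.e (nat_lit 426190) (nat_lit 9) (.e (nat_lit 426436) (nat_lit 18) (.e (nat_lit 98335) (nat_lit 18) (.e (nat_lit 164327) (nat_lit 230) .nil)))))) (.g (nat_lit 1) (.e (nat_lit 163002) (nat_lit 0) .nil) .nil))) 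
(.lf (nat_lit 498528) (.g (nat_lit 2510) (.e (nat_lit 163962) (nat_lit 25) (.e (nat_lit 532544) (nat_lit 10) (.e (nat_lit 344132) (nat_lit 26) (.e (nat_lit 557101) (nat_lit 13) (.e (nat_lit 179968) (nat_lit 15) (.e (nat_lit 1800) (nat_lit 119) (.e (nat_lit 516119) (nat_lit 1) (.e (nat_lit 164345) (nat_lit 240) (.e (nat_lit 2601) (nat_lit 163) .nil))))))))) (.g (nat_lit 1) (.e (nat_lit 164486) (nat_lit 0) .nil) .nil))))) 
(.nd (nat_lit 8) (.nd (nat_lit 9) 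
(.lf (nat_lit 497888) (.g (nat_lit 3109) (.e (nat_lit 163943) (nat_lit 19) (.e (nat_lit 483337) (nat_lit 9) (.e (nat_lit 426190) (nat_lit 9) (.e (nat_lit 426436) (nat_lit 18) (.e (nat_lit 98335) (nat_lit 18) (.e (nat_lit 164332) (nat_lit 230) .nil)))))) (.g (nat_lit 1) (.e (nat_lit 162145) (nat_lit 0) .nil) .nil))) 
(.lf (nat_lit 498400) (.g (nat_lit 2211) (.e (nat_lit 163962) (nat_lit 25) (.e (nat_lit 532535) (nat_lit 9) (.e (nat_lit 336176) (nat_lit 10) (.e (nat_lit 344124) (nat_lit 25) (.e (nat_lit 548890) (nat_lit 10) (.e (nat_lit 81664) (nat_lit 35) .nil)))))) (.g (nat_lit 1) (.e (nat_lit 164204) (nat_lit 0) .nil) .nil)))) (.nd (nat_lit 9) 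
(.lf (nat_lit 498144) (.g (nat_lit 1897) (.e (nat_lit 163950) (nat_lit 21) (.e (nat_lit 507648) (nat_lit 20) (.e (nat_lit 81924) (nat_lit 0) (.e (nat_lit 3305) (nat_lit 202) (.e (nat_lit 573489) (nat_lit 14) (.e (nat_lit 81664) (nat_lit 35) .nil)))))) (.g (nat_lit 1) (.e (nat_lit 163544) (nat_lit 0) .nil) .nil))) 
(.lf (nat_lit 498656) (.g (nat_lit 1685) (.e (nat_lit 163962) (nat_lit 25) (.e (nat_lit 532549) (nat_lit 12) (.e (nat_lit 360475) (nat_lit 8) (.e (nat_lit 557087) (nat_lit 11) .nil)))) (.g (nat_lit 0) (.e (nat_lit 164791) (nat_lit 0) .nil) .nil)))))))) (.nd (nat_lit 5) (.nd (nat_lit 6) (.nd (nat_lit 7) (.nd (nat_lit 8) (.nd (nat_lit 9) 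
(.lf (nat_lit 497680) (.g (nat_lit 1846) (.e (nat_lit 163941) (nat_lit 19) (.e (nat_lit 483339) (nat_lit 9) (.e (nat_lit 426260) (nat_lit 9) (.e (nat_lit 426435) (nat_lit 18) (.e (nat_lit 98335) (nat_lit 18) (.e (nat_lit 164326) (nat_lit 230) .nil)))))) (.g (nat_lit 1) (.e (nat_lit 161241) (nat_lit 0) .nil) .nil))) 
(.lf (nat_lit 498192) (.g (nat_lit 3828) (.e (nat_lit 163962) (nat_lit 25) (.e (nat_lit 532499) (nat_lit 1) (.e (nat_lit 57931) (nat_lit 282) (.e (nat_lit 163869) (nat_lit 2) (.e (nat_lit 196670) (nat_lit 14) (.e (nat_lit 73746) (nat_lit 3) (.e (nat_lit 516124) (nat_lit 2) (.e (nat_lit 213033) (nat_lit 12) .nil)))))))) (.g (nat_lit 1) (.e (nat_lit 163663) (nat_lit 0) .nil) .nil)))) 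
(.nd (nat_lit 9) 
(.lf (nat_lit 497936) (.g (nat_lit 1751) (.e (nat_lit 163943) (nat_lit 19) (.e (nat_lit 483372) (nat_lit 21) (.e (nat_lit 319505) (nat_lit 10) (.e (nat_lit 618) (nat_lit 48) .nil)))) (.g (nat_lit 0) (.e (nat_lit 162637) (nat_lit 0) .nil) .nil))) 
(.lf (nat_lit 498448) (.g (nat_lit 809) (.e (nat_lit 163962) (nat_lit 25) (.e (nat_lit 532535) (nat_lit 9) (.e (nat_lit 336177) (nat_lit 10) .nil))) (.g (nat_lit 0) (.e (nat_lit 164336) (nat_lit 0) .nil) .nil))))) (.nd (nat_lit 8) (.nd (nat_lit 9) 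
(.lf (nat_lit 497808) (.g (nat_lit 3942) (.e (nat_lit 163941) (nat_lit 19) (.e (nat_lit 483341) (nat_lit 9) (.e (nat_lit 426315) (nat_lit 12) (.e (nat_lit 475179) (nat_lit 24) (.e (nat_lit 516117) (nat_lit 1) (.e (nat_lit 164332) (nat_lit 230) .nil)))))) (.g (nat_lit 1) (.e (nat_lit 161625) (nat_lit 0) .nil) .nil))) 
(.lf (nat_lit 498320) (.g (nat_lit 4014) (.e (nat_lit 163962) (nat_lit 25) (.e (nat_lit 532526) (nat_lit 8) (.e (nat_lit 327699) (nat_lit 8) (.e (nat_lit 303117) (nat_lit 2) (.e (nat_lit 196670) (nat_lit 14) (.e (nat_lit 81664) (nat_lit 35) .nil)))))) (.g (nat_lit 1) (.e (nat_lit 163929) (nat_lit 0) .nil) .nil)))) (.nd (nat_lit 9) 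
(.lf (nat_lit 498064) (.g (nat_lit 3037) (.e (nat_lit 163945) (nat_lit 20) (.e (nat_lit 491568) (nat_lit 13) (.e (nat_lit 393301) (nat_lit 27) (.e (nat_lit 491560) (nat_lit 10) (.e (nat_lit 344091) (nat_lit 18) .nil))))) (.g (nat_lit 0) (.e (nat_lit 163427) (nat_lit 0) .nil) .nil))) 
(.lf (nat_lit 498576) (.g (nat_lit 2478) (.e (nat_lit 163962) (nat_lit 25) (.e (nat_lit 532547) (nat_lit 11) (.e (nat_lit 352314) (nat_lit 23) (.e (nat_lit 98350) (nat_lit 24) (.e (nat_lit 409617) (nat_lit 10) (.e (nat_lit 5756) (nat_lit 315) .nil)))))) (.g (nat_lit 1) (.e (nat_lit 164595) (nat_lit 0) .nil) .nil)))))) (.nd (nat_lit 7) (.nd (nat_lit 8) (.nd (nat_lit 9) 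
(.lf (nat_lit 497744) (.g (nat_lit 3039) (.e (nat_lit 163941) (nat_lit 19) (.e (nat_lit 483341) (nat_lit 9) (.e (nat_lit 426197) (nat_lit 9) (.e (nat_lit 426436) (nat_lit 18) (.e (nat_lit 98335) (nat_lit 18) (.e (nat_lit 164326) (nat_lit 230) .nil)))))) (.g (nat_lit 1) (.e (nat_lit 161358) (nat_lit 0) .nil) .nil))) 
(.lf (nat_lit 498256) (.g (nat_lit 3079) (.e (nat_lit 163962) (nat_lit 25) (.e (nat_lit 532513) (nat_lit 3) (.e (nat_lit 114714) (nat_lit 22) (.e (nat_lit 90174) (nat_lit 14) (.e (nat_lit 180243) (nat_lit 5) (.e (nat_lit 532503) (nat_lit 1) (.e (nat_lit 57651) (nat_lit 152) (.e (nat_lit 2615) (nat_lit 163) .nil)))))))) (.g (nat_lit 1) (.e (nat_lit 163780) (nat_lit 0) .nil) .nil)))) 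
(.nd (nat_lit 9) 
(.lf (nat_lit 498000) (.g (nat_lit 1865) (.e (nat_lit 163944) (nat_lit 19) (.e (nat_lit 483339) (nat_lit 9) (.e (nat_lit 426234) (nat_lit 9) (.e (nat_lit 426435) (nat_lit 18) (.e (nat_lit 98335) (nat_lit 18) (.e (nat_lit 164327) (nat_lit 230) .nil)))))) (.g (nat_lit 1) (.e (nat_lit 162962) (nat_lit 0) .nil) .nil))) 
(.lf (nat_lit 498512) (.g (nat_lit 2583) (.e (nat_lit 163962) (nat_lit 25) (.e (nat_lit 532544) (nat_lit 10) (.e (nat_lit 344130) (nat_lit 26) (.e (nat_lit 557097) (nat_lit 13) (.e (nat_lit 179968) (nat_lit 18) (.e (nat_lit 98335) (nat_lit 18) (.e (nat_lit 164345) (nat_lit 240) (.e (nat_lit 2601) (nat_lit 163) .nil)))))))) (.g (nat_lit 1) (.e (nat_lit 164470) (nat_lit 0) .nil) .nil))))) 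
(.nd (nat_lit 8) (.nd (nat_lit 9) 
(.lf (nat_lit 497872) (.g (nat_lit 3572) (.e (nat_lit 163942) (nat_lit 19) (.e (nat_lit 483341) (nat_lit 9) (.e (nat_lit 426200) (nat_lit 9) (.e (nat_lit 426436) (nat_lit 18) (.e (nat_lit 98335) (nat_lit 18) (.e (nat_lit 164332) (nat_lit 230) .nil)))))) (.g (nat_lit 1) (.e (nat_lit 161937) (nat_lit 0) .nil) .nil))) 
(.lf (nat_lit 498384) (.g (nat_lit 2871) (.e (nat_lit 163962) (nat_lit 25) (.e (nat_lit 532535) (nat_lit 9) (.e (nat_lit 336163) (nat_lit 10) (.e (nat_lit 344119) (nat_lit 21) (.e (nat_lit 516139) (nat_lit 7) (.e (nat_lit 409617) (nat_lit 10) (.e (nat_lit 7936) (nat_lit 315) .nil))))))) (.g (nat_lit 1) (.e (nat_lit 164164) (nat_lit 0) .nil) .nil)))) (.nd (nat_lit 9) 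
(.lf (nat_lit 498128) (.g (nat_lit 2528) (.e (nat_lit 163950) (nat_lit 21) (.e (nat_lit 500060) (nat_lit 18) (.e (nat_lit 65630) (nat_lit 14) (.e (nat_lit 401428) (nat_lit 3) (.e (nat_lit 204863) (nat_lit 27) (.e (nat_lit 352000) (nat_lit 3) .nil)))))) (.g (nat_lit 1) (.e (nat_lit 163528) (nat_lit 0) .nil) .nil))) 
(.lf (nat_lit 498640) (.g (nat_lit 435) (.e (nat_lit 163962) (nat_lit 25) (.e (nat_lit 532549) (nat_lit 12) (.e (nat_lit 360474) (nat_lit 8) .nil))) (.g (nat_lit 0) (.e (nat_lit 164758) (nat_lit 0) .nil) .nil))))))) (.nd (nat_lit 6) (.nd (nat_lit 7) (.nd (nat_lit 8) (.nd (nat_lit 9) 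
(.lf (nat_lit 497712) (.g (nat_lit 4673) (.e (nat_lit 163941) (nat_lit 19) (.e (nat_lit 483341) (nat_lit 9) (.e (nat_lit 426186) (nat_lit 9) (.e (nat_lit 426436) (nat_lit 18) (.e (nat_lit 98335) (nat_lit 18) (.e (nat_lit 164326) (nat_lit 230) .nil)))))) (.g (nat_lit 1) (.e (nat_lit 161278) (nat_lit 0) .nil) .nil))) 
(.lf (nat_lit 498224) (.g (nat_lit 3035) (.e (nat_lit 163962) (nat_lit 25) (.e (nat_lit 532500) (nat_lit 1) (.e (nat_lit 57931) (nat_lit 282) (.e (nat_lit 163869) (nat_lit 2) (.e (nat_lit 196670) (nat_lit 14) (.e (nat_lit 73746) (nat_lit 3) (.e (nat_lit 516124) (nat_lit 2) (.e (nat_lit 213033) (nat_lit 12) .nil)))))))) (.g (nat_lit 1) (.e (nat_lit 163718) (nat_lit 0) .nil) .nil)))) 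
(.nd (nat_lit 9) 
(.lf (nat_lit 497968) (.g (nat_lit 1587) (.e (nat_lit 163943) (nat_lit 19) (.e (nat_lit 483398) (nat_lit 25) (.e (nat_lit 368676) (nat_lit 21) (.e (nat_lit 516198) (nat_lit 26) (.e (nat_lit 335987) (nat_lit 1) (.e (nat_lit 57927) (nat_lit 282) .nil)))))) (.g (nat_lit 1) (.e (nat_lit 162794) (nat_lit 0) .nil) .nil))) 
(.lf (nat_lit 498480) (.g (nat_lit 3057) (.e (nat_lit 163962) (nat_lit 25) (.e (nat_lit 532543) (nat_lit 10) (.e (nat_lit 344129) (nat_lit 26) (.e (nat_lit 557097) (nat_lit 13) (.e (nat_lit 179968) (nat_lit 18) (.e (nat_lit 98335) (nat_lit 18) (.e (nat_lit 164345) (nat_lit 240) (.e (nat_lit 2601) (nat_lit 163) .nil)))))))) (.g (nat_lit 1) (.e (nat_lit 164433) (nat_lit 0) .nil) .nil))))) 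
(.nd (nat_lit 8) (.nd (nat_lit 9) 
(.lf (nat_lit 497840) (.g (nat_lit 2452) (.e (nat_lit 163941) (nat_lit 19) (.e (nat_lit 483393) (nat_lit 23) (.e (nat_lit 336021) (nat_lit 3) (.e (nat_lit 98317) (nat_lit 9) (.e (nat_lit 335994) (nat_lit 1) .nil))))) (.g (nat_lit 0) (.e (nat_lit 161793) (nat_lit 0) .nil) .nil))) 
(.lf (nat_lit 498352) (.g (nat_lit 4094) (.e (nat_lit 163962) (nat_lit 25) (.e (nat_lit 532535) (nat_lit 9) (.e (nat_lit 336073) (nat_lit 9) (.e (nat_lit 336028) (nat_lit 3) (.e (nat_lit 98350) (nat_lit 24) (.e (nat_lit 409617) (nat_lit 10) (.e (nat_lit 7936) (nat_lit 315) .nil))))))) (.g (nat_lit 1) (.e (nat_lit 164048) (nat_lit 0) .nil) .nil)))) (.nd (nat_lit 9) 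
(.lf (nat_lit 498096) (.g (nat_lit 4410) (.e (nat_lit 163946) (nat_lit 20) (.e (nat_lit 491566) (nat_lit 12) (.e (nat_lit 385104) (nat_lit 50) (.e (nat_lit 786480) (nat_lit 29) (.e (nat_lit 352309) (nat_lit 21) (.e (nat_lit 57931) (nat_lit 282) .nil)))))) (.g (nat_lit 1) (.e (nat_lit 163487) (nat_lit 0) .nil) .nil))) 
(.lf (nat_lit 498608) (.g (nat_lit 1244) (.e (nat_lit 163962) (nat_lit 25) (.e (nat_lit 532549) (nat_lit 12) (.e (nat_lit 360466) (nat_lit 3) (.e (nat_lit 516141) (nat_lit 8) .nil)))) (.g (nat_lit 0) (.e (nat_lit 164672) (nat_lit 0) .nil) .nil)))))) (.nd (nat_lit 7) (.nd (nat_lit 8) (.nd (nat_lit 9) 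
(.lf (nat_lit 497776) (.g (nat_lit 560) (.e (nat_lit 163941) (nat_lit 19) (.e (nat_lit 483341) (nat_lit 9) (.e (nat_lit 426222) (nat_lit 9) .nil))) (.g (nat_lit 0) (.e (nat_lit 161444) (nat_lit 0) .nil) .nil))) 
(.lf (nat_lit 498288) (.g (nat_lit 1907) (.e (nat_lit 163962) (nat_lit 25) (.e (nat_lit 532523) (nat_lit 7) (.e (nat_lit 319530) (nat_lit 16) (.e (nat_lit 286735) (nat_lit 3) .nil)))) (.g (nat_lit 0) (.e (nat_lit 163891) (nat_lit 0) .nil) .nil)))) (.nd (nat_lit 9) 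
(.lf (nat_lit 498032) (.g (nat_lit 3420) (.e (nat_lit 163945) (nat_lit 20) (.e (nat_lit 491566) (nat_lit 12) (.e (nat_lit 385093) (nat_lit 49) (.e (nat_lit 778326) (nat_lit 6) (.e (nat_lit 81948) (nat_lit 21) (.e (nat_lit 57926) (nat_lit 282) .nil)))))) (.g (nat_lit 1) (.e (nat_lit 163385) (nat_lit 0) .nil) .nil))) 
(.lf (nat_lit 498544) (.g (nat_lit 2397) (.e (nat_lit 163962) (nat_lit 25) (.e (nat_lit 532544) (nat_lit 10) (.e (nat_lit 344133) (nat_lit 26) (.e (nat_lit 557098) (nat_lit 13) (.e (nat_lit 179968) (nat_lit 15) .nil))))) (.g (nat_lit 0) (.e (nat_lit 164502) (nat_lit 0) .nil) .nil))))) (.nd (nat_lit 8) (.nd (nat_lit 9) 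
(.lf (nat_lit 497904) (.g (nat_lit 3638) (.e (nat_lit 163943) (nat_lit 19) (.e (nat_lit 483341) (nat_lit 9) (.e (nat_lit 426188) (nat_lit 9) (.e (nat_lit 426436) (nat_lit 18) (.e (nat_lit 98335) (nat_lit 18) (.e (nat_lit 164325) (nat_lit 230) .nil)))))) (.g (nat_lit 1) (.e (nat_lit 162261) (nat_lit 0) .nil) .nil))) 
(.lf (nat_lit 498416) (.g (nat_lit 1710) (.e (nat_lit 163962) (nat_lit 25) (.e (nat_lit 532535) (nat_lit 9) (.e (nat_lit 336176) (nat_lit 10) (.e (nat_lit 344130) (nat_lit 26) (.e (nat_lit 557074) (nat_lit 9) .nil))))) (.g (nat_lit 0) (.e (nat_lit 164249) (nat_lit 0) .nil) .nil)))) (.nd (nat_lit 9) 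
(.lf (nat_lit 498160) (.g (nat_lit 3803) (.e (nat_lit 163962) (nat_lit 25) (.e (nat_lit 532482) (nat_lit 0) (.e (nat_lit 6203) (nat_lit 332) (.e (nat_lit 2798) (nat_lit 180) (.e (nat_lit 303117) (nat_lit 2) (.e (nat_lit 196668) (nat_lit 14) (.e (nat_lit 81664) (nat_lit 35) .nil))))))) (.g (nat_lit 1) (.e (nat_lit 163601) (nat_lit 0) .nil) .nil))) 
(.lf (nat_lit 498672) (.g (nat_lit 2635) (.e (nat_lit 163962) (nat_lit 25) (.e (nat_lit 532550) (nat_lit 12) (.e (nat_lit 360467) (nat_lit 3) (.e (nat_lit 516139) (nat_lit 7) (.e (nat_lit 409616) (nat_lit 10) (.e (nat_lit 7936) (nat_lit 315) .nil)))))) (.g (nat_lit 1) (.e (nat_lit 164836) (nat_lit 0) .nil) .nil))))))))) 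
(.nd (nat_lit 4) (.nd (nat_lit 5) (.nd (nat_lit 6) (.nd (nat_lit 7) (.nd (nat_lit 8) 
(.nd (nat_lit 9) 
(.lf (nat_lit 497672) (.g (nat_lit 2134) (.e (nat_lit 163941) (nat_lit 19) (.e (nat_lit 483339) (nat_lit 9) (.e (nat_lit 426234) (nat_lit 9) (.e (nat_lit 426435) (nat_lit 18) (.e (nat_lit 98335) (nat_lit 18) (.e (nat_lit 164325) (nat_lit 230) .nil)))))) (.g (nat_lit 1) (.e (nat_lit 161232) (nat_lit 0) .nil) .nil))) 
(.lf (nat_lit 498184) (.g (nat_lit 736) (.e (nat_lit 163962) (nat_lit 25) (.e (nat_lit 532499) (nat_lit 1) (.e (nat_lit 57927) (nat_lit 282) .nil))) (.g (nat_lit 0) (.e (nat_lit 163630) (nat_lit 0) .nil) .nil)))) (.nd (nat_lit 9) 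
(.lf (nat_lit 497928) (.g (nat_lit 2212) (.e (nat_lit 163943) (nat_lit 19) (.e (nat_lit 483346) (nat_lit 17) (.e (nat_lit 6712) (nat_lit 360) (.e (nat_lit 163979) (nat_lit 30) (.e (nat_lit 573480) (nat_lit 13) .nil))))) (.g (nat_lit 0) (.e (nat_lit 162541) (nat_lit 0) .nil) .nil))) 
(.lf (nat_lit 498440) (.g (nat_lit 2419) (.e (nat_lit 163962) (nat_lit 25) (.e (nat_lit 532535) (nat_lit 9) (.e (nat_lit 336176) (nat_lit 10) (.e (nat_lit 344133) (nat_lit 26) (.e (nat_lit 557068) (nat_lit 9) (.e (nat_lit 7936) (nat_lit 19) (.e (nat_lit 319491) (nat_lit 0) (.e (nat_lit 5761) (nat_lit 315) .nil)))))))) (.g (nat_lit 1) (.e (nat_lit 164315) (nat_lit 0) .nil) .nil))))) 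
(.nd (nat_lit 8) (.nd (nat_lit 9) 
(.lf (nat_lit 497800) (.g (nat_lit 3818) (.e (nat_lit 163941) (nat_lit 19) (.e (nat_lit 483341) (nat_lit 9) (.e (nat_lit 426308) (nat_lit 12) (.e (nat_lit 475179) (nat_lit 24) (.e (nat_lit 516120) (nat_lit 1) (.e (nat_lit 164332) (nat_lit 230) .nil)))))) (.g (nat_lit 1) (.e (nat_lit 161542) (nat_lit 0) .nil) .nil))) 
(.lf (nat_lit 498312) (.g (nat_lit 3047) (.e (nat_lit 163962) (nat_lit 25) (.e (nat_lit 532526) (nat_lit 8) (.e (nat_lit 327698) (nat_lit 8) (.e (nat_lit 303117) (nat_lit 2) (.e (nat_lit 196668) (nat_lit 14) (.e (nat_lit 81664) (nat_lit 35) .nil)))))) (.g (nat_lit 1) (.e (nat_lit 163919) (nat_lit 0) .nil) .nil)))) (.nd (nat_lit 9) 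
(.lf (nat_lit 498056) (.g (nat_lit 1949) (.e (nat_lit 163945) (nat_lit 20) (.e (nat_lit 491566) (nat_lit 12) (.e (nat_lit 385105) (nat_lit 50) (.e (nat_lit 786483) (nat_lit 30) (.e (nat_lit 360456) (nat_lit 0) .nil))))) (.g (nat_lit 0) (.e (nat_lit 163419) (nat_lit 0) .nil) .nil))) 
(.lf (nat_lit 498568) (.g (nat_lit 446) (.e (nat_lit 163962) (nat_lit 25) (.e (nat_lit 532547) (nat_lit 11) (.e (nat_lit 352313) (nat_lit 23) .nil))) (.g (nat_lit 0) (.e (nat_lit 164586) (nat_lit 0) .nil) .nil)))))) (.nd (nat_lit 7) (.nd (nat_lit 8) (.nd (nat_lit 9) 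
(.lf (nat_lit 497736) (.g (nat_lit 4728) (.e (nat_lit 163941) (nat_lit 19) (.e (nat_lit 483341) (nat_lit 9) (.e (nat_lit 426196) (nat_lit 9) (.e (nat_lit 426436) (nat_lit 18) (.e (nat_lit 98335) (nat_lit 18) (.e (nat_lit 164324) (nat_lit 230) .nil)))))) (.g (nat_lit 1) (.e (nat_lit 161340) (nat_lit 0) .nil) .nil))) 
(.lf (nat_lit 498248) (.g (nat_lit 2310) (.e (nat_lit 163962) (nat_lit 25) (.e (nat_lit 532513) (nat_lit 3) (.e (nat_lit 114714) (nat_lit 22) (.e (nat_lit 90174) (nat_lit 14) (.e (nat_lit 180243) (nat_lit 5) (.e (nat_lit 532499) (nat_lit 1) (.e (nat_lit 57655) (nat_lit 152) (.e (nat_lit 7936) (nat_lit 163) .nil)))))))) (.g (nat_lit 1) (.e (nat_lit 163768) (nat_lit 0) .nil) .nil)))) 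
(.nd (nat_lit 9) 
(.lf (nat_lit 497992) (.g (nat_lit 1051) (.e (nat_lit 163943) (nat_lit 19) (.e (nat_lit 483413) (nat_lit 27) (.e (nat_lit 401426) (nat_lit 3) .nil))) (.g (nat_lit 0) (.e (nat_lit 162865) (nat_lit 0) .nil) .nil))) 
(.lf (nat_lit 498504) (.g (nat_lit 2078) (.e (nat_lit 163962) (nat_lit 25) (.e (nat_lit 532544) (nat_lit 10) (.e (nat_lit 344129) (nat_lit 26) (.e (nat_lit 557103) (nat_lit 14) (.e (nat_lit 188160) (nat_lit 3) .nil))))) (.g (nat_lit 0) (.e (nat_lit 164462) (nat_lit 0) .nil) .nil))))) (.nd (nat_lit 8) (.nd (nat_lit 9) 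
(.lf (nat_lit 497864) (.g (nat_lit 321) (.e (nat_lit 163942) (nat_lit 19) (.e (nat_lit 483341) (nat_lit 9) (.e (nat_lit 426200) (nat_lit 9) .nil))) (.g (nat_lit 0) (.e (nat_lit 161917) (nat_lit 0) .nil) .nil))) 
(.lf (nat_lit 498376) (.g (nat_lit 3886) (.e (nat_lit 163962) (nat_lit 25) (.e (nat_lit 532535) (nat_lit 9) (.e (nat_lit 336111) (nat_lit 9) (.e (nat_lit 336028) (nat_lit 3) (.e (nat_lit 98350) (nat_lit 24) (.e (nat_lit 409617) (nat_lit 10) (.e (nat_lit 5762) (nat_lit 315) .nil))))))) (.g (nat_lit 1) (.e (nat_lit 164139) (nat_lit 0) .nil) .nil)))) (.nd (nat_lit 9) 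
(.lf (nat_lit 498120) (.g (nat_lit 1417) (.e (nat_lit 163947) (nat_lit 20) (.e (nat_lit 491558) (nat_lit 10) (.e (nat_lit 344168) (nat_lit 40) (.e (nat_lit 671747) (nat_lit 0) .nil)))) (.g (nat_lit 0) (.e (nat_lit 163518) (nat_lit 0) .nil) .nil))) 
(.lf (nat_lit 498632) (.g (nat_lit 1226) (.e (nat_lit 163962) (nat_lit 25) (.e (nat_lit 532549) (nat_lit 12) (.e (nat_lit 360473) (nat_lit 8) (.e (nat_lit 557072) (nat_lit 9) .nil)))) (.g (nat_lit 0) (.e (nat_lit 164739) (nat_lit 0) .nil) .nil))))))) (.nd (nat_lit 6) (.nd (nat_lit 7) (.nd (nat_lit 8) (.nd (nat_lit 9) 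
(.lf (nat_lit 497704) (.g (nat_lit 760) (.e (nat_lit 163941) (nat_lit 19) (.e (nat_lit 483341) (nat_lit 9) (.e (nat_lit 426010) (nat_lit 0) .nil))) (.g (nat_lit 0) (.e (nat_lit 161269) (nat_lit 0) .nil) .nil))) 
(.lf (nat_lit 498216) (.g (nat_lit 2824) (.e (nat_lit 163962) (nat_lit 25) (.e (nat_lit 532500) (nat_lit 1) (.e (nat_lit 57927) (nat_lit 282) (.e (nat_lit 163871) (nat_lit 2) (.e (nat_lit 196670) (nat_lit 14) (.e (nat_lit 73746) (nat_lit 3) (.e (nat_lit 516124) (nat_lit 2) (.e (nat_lit 213033) (nat_lit 12) .nil)))))))) (.g (nat_lit 1) (.e (nat_lit 163706) (nat_lit 0) .nil) .nil)))) 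
(.nd (nat_lit 9) 
(.lf (nat_lit 497960) (.g (nat_lit 3632) (.e (nat_lit 163943) (nat_lit 19) (.e (nat_lit 483395) (nat_lit 24) (.e (nat_lit 344117) (nat_lit 21) (.e (nat_lit 516195) (nat_lit 26) (.e (nat_lit 335988) (nat_lit 1) (.e (nat_lit 57927) (nat_lit 282) .nil)))))) (.g (nat_lit 1) (.e (nat_lit 162767) (nat_lit 0) .nil) .nil))) 
(.lf (nat_lit 498472) (.g (nat_lit 1631) (.e (nat_lit 163962) (nat_lit 25) (.e (nat_lit 540416) (nat_lit 9) (.e (nat_lit 336204) (nat_lit 12) (.e (nat_lit 385074) (nat_lit 31) (.e (nat_lit 573489) (nat_lit 14) (.e (nat_lit 81664) (nat_lit 35) .nil)))))) (.g (nat_lit 1) (.e (nat_lit 164424) (nat_lit 0) .nil) .nil))))) (.nd (nat_lit 8) (.nd (nat_lit 9) 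
(.lf (nat_lit 497832) (.g (nat_lit 1793) (.e (nat_lit 163941) (nat_lit 19) (.e (nat_lit 483393) (nat_lit 23) (.e (nat_lit 336021) (nat_lit 3) (.e (nat_lit 98313) (nat_lit 9) (.e (nat_lit 335987) (nat_lit 1) (.e (nat_lit 57926) (nat_lit 282) .nil)))))) (.g (nat_lit 1) (.e (nat_lit 161781) (nat_lit 0) .nil) .nil))) 
(.lf (nat_lit 498344) (.g (nat_lit 2742) (.e (nat_lit 163962) (nat_lit 25) (.e (nat_lit 532535) (nat_lit 9) (.e (nat_lit 336061) (nat_lit 7) (.e (nat_lit 319519) (nat_lit 12) (.e (nat_lit 40704) (nat_lit 5) (.e (nat_lit 1515) (nat_lit 108) (.e (nat_lit 335874) (nat_lit 0) (.e (nat_lit 6711) (nat_lit 360) .nil)))))))) (.g (nat_lit 1) (.e (nat_lit 164033) (nat_lit 0) .nil) .nil)))) (.nd (nat_lit 9) 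
(.lf (nat_lit 498088) (.g (nat_lit 3435) (.e (nat_lit 163945) (nat_lit 20) (.e (nat_lit 491571) (nat_lit 13) (.e (nat_lit 393299) (nat_lit 27) (.e (nat_lit 491560) (nat_lit 10) (.e (nat_lit 344096) (nat_lit 18) (.e (nat_lit 6938) (nat_lit 375) .nil)))))) (.g (nat_lit 1) (.e (nat_lit 163473) (nat_lit 0) .nil) .nil))) 
(.lf (nat_lit 498600) (.g (nat_lit 3138) (.e (nat_lit 163962) (nat_lit 25) (.e (nat_lit 532549) (nat_lit 12) (.e (nat_lit 360466) (nat_lit 3) (.e (nat_lit 516139) (nat_lit 7) (.e (nat_lit 409615) (nat_lit 10) .nil))))) (.g (nat_lit 0) (.e (nat_lit 164664) (nat_lit 0) .nil) .nil)))))) (.nd (nat_lit 7) (.nd (nat_lit 8) (.nd (nat_lit 9) 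
(.lf (nat_lit 497768) (.g (nat_lit 1578) (.e (nat_lit 163941) (nat_lit 19) (.e (nat_lit 483341) (nat_lit 9) (.e (nat_lit 426200) (nat_lit 9) (.e (nat_lit 426360) (nat_lit 15) (.e (nat_lit 1798) (nat_lit 119) .nil))))) (.g (nat_lit 0) (.e (nat_lit 161425) (nat_lit 0) .nil) .nil))) 
(.lf (nat_lit 498280) (.g (nat_lit 887) (.e (nat_lit 163962) (nat_lit 25) (.e (nat_lit 532523) (nat_lit 7) (.e (nat_lit 319492) (nat_lit 0) .nil))) (.g (nat_lit 0) (.e (nat_lit 163872) (nat_lit 0) .nil) .nil)))) (.nd (nat_lit 9) 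
(.lf (nat_lit 498024) (.g (nat_lit 1158) (.e (nat_lit 163944) (nat_lit 19) (.e (nat_lit 483393) (nat_lit 23) (.e (nat_lit 336004) (nat_lit 2) (.e (nat_lit 90128) (nat_lit 9) .nil)))) (.g (nat_lit 0) (.e (nat_lit 163268) (nat_lit 0) .nil) .nil))) 
(.lf (nat_lit 498536) (.g (nat_lit 1460) (.e (nat_lit 163962) (nat_lit 25) (.e (nat_lit 532544) (nat_lit 10) (.e (nat_lit 344133) (nat_lit 26) (.e (nat_lit 557098) (nat_lit 13) .nil)))) (.g (nat_lit 0) (.e (nat_lit 164494) (nat_lit 0) .nil) .nil))))) (.nd (nat_lit 8) (.nd (nat_lit 9) 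
(.lf (nat_lit 497896) (.g (nat_lit 2297) (.e (nat_lit 163943) (nat_lit 19) (.e (nat_lit 483340) (nat_lit 9) (.e (nat_lit 426188) (nat_lit 9) (.e (nat_lit 426436) (nat_lit 18) (.e (nat_lit 98335) (nat_lit 18) (.e (nat_lit 164325) (nat_lit 230) .nil)))))) (.g (nat_lit 1) (.e (nat_lit 162227) (nat_lit 0) .nil) .nil))) 
(.lf (nat_lit 498408) (.g (nat_lit 1390) (.e (nat_lit 163962) (nat_lit 25) (.e (nat_lit 532535) (nat_lit 9) (.e (nat_lit 336176) (nat_lit 10) (.e (nat_lit 344129) (nat_lit 26) .nil)))) (.g (nat_lit 0) (.e (nat_lit 164215) (nat_lit 0) .nil) .nil)))) (.nd (nat_lit 9) 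
(.lf (nat_lit 498152) (.g (nat_lit 3471) (.e (nat_lit 163961) (nat_lit 25) (.e (nat_lit 532550) (nat_lit 12) (.e (nat_lit 360474) (nat_lit 8) (.e (nat_lit 557073) (nat_lit 9) .nil)))) (.g (nat_lit 0) (.e (nat_lit 163580) (nat_lit 0) .nil) .nil))) 
(.lf (nat_lit 498664) (.g (nat_lit 1858) (.e (nat_lit 163962) (nat_lit 25) (.e (nat_lit 532550) (nat_lit 12) (.e (nat_lit 360465) (nat_lit 3) (.e (nat_lit 516139) (nat_lit 7) (.e (nat_lit 409616) (nat_lit 10) (.e (nat_lit 5763) (nat_lit 315) .nil)))))) (.g (nat_lit 1) (.e (nat_lit 164824) (nat_lit 0) .nil) .nil)))))))) 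
(.nd (nat_lit 5) (.nd (nat_lit 6) (.nd (nat_lit 7) (.nd (nat_lit 8) (.nd (nat_lit 9) 
(.lf (nat_lit 497688) (.g (nat_lit 2009) (.e (nat_lit 163941) (nat_lit 19) (.e (nat_lit 483339) (nat_lit 9) (.e (nat_lit 426261) (nat_lit 9) (.e (nat_lit 426435) (nat_lit 18) (.e (nat_lit 98335) (nat_lit 18) (.e (nat_lit 164326) (nat_lit 230) .nil)))))) (.g (nat_lit 1) (.e (nat_lit 161250) (nat_lit 0) .nil) .nil))) 
(.lf (nat_lit 498200) (.g (nat_lit 4002) (.e (nat_lit 163962) (nat_lit 25) (.e (nat_lit 532500) (nat_lit 1) (.e (nat_lit 57926) (nat_lit 282) (.e (nat_lit 163869) (nat_lit 2) (.e (nat_lit 196670) (nat_lit 14) (.e (nat_lit 73746) (nat_lit 3) (.e (nat_lit 516124) (nat_lit 2) (.e (nat_lit 213033) (nat_lit 12) .nil)))))))) (.g (nat_lit 1) (.e (nat_lit 163681) (nat_lit 0) .nil) .nil)))) 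
(.nd (nat_lit 9) 
(.lf (nat_lit 497944) (.g (nat_lit 3031) (.e (nat_lit 163943) (nat_lit 19) (.e (nat_lit 483393) (nat_lit 23) (.e (nat_lit 336021) (nat_lit 3) (.e (nat_lit 98317) (nat_lit 9) (.e (nat_lit 335986) (nat_lit 1) (.e (nat_lit 57931) (nat_lit 282) .nil)))))) (.g (nat_lit 1) (.e (nat_lit 162739) (nat_lit 0) .nil) .nil))) 
(.lf (nat_lit 498456) (.g (nat_lit 4133) (.e (nat_lit 163962) (nat_lit 25) (.e (nat_lit 532535) (nat_lit 9) (.e (nat_lit 336178) (nat_lit 10) (.e (nat_lit 344117) (nat_lit 21) (.e (nat_lit 516139) (nat_lit 7) (.e (nat_lit 409618) (nat_lit 10) (.e (nat_lit 5756) (nat_lit 315) .nil))))))) (.g (nat_lit 1) (.e (nat_lit 164346) (nat_lit 0) .nil) .nil))))) (.nd (nat_lit 8) (.nd (nat_lit 9) 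
(.lf (nat_lit 497816) (.g (nat_lit 1471) (.e (nat_lit 163941) (nat_lit 19) (.e (nat_lit 483344) (nat_lit 17) (.e (nat_lit 6712) (nat_lit 360) (.e (nat_lit 163975) (nat_lit 30) .nil)))) (.g (nat_lit 0) (.e (nat_lit 161674) (nat_lit 0) .nil) .nil))) 
(.lf (nat_lit 498328) (.g (nat_lit 813) (.e (nat_lit 163962) (nat_lit 25) (.e (nat_lit 532535) (nat_lit 9) (.e (nat_lit 335925) (nat_lit 0) .nil))) (.g (nat_lit 0) (.e (nat_lit 163976) (nat_lit 0) .nil) .nil)))) (.nd (nat_lit 9) 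
(.lf (nat_lit 498072) (.g (nat_lit 2920) (.e (nat_lit 163945) (nat_lit 20) (.e (nat_lit 491569) (nat_lit 13) (.e (nat_lit 393301) (nat_lit 27) (.e (nat_lit 491560) (nat_lit 10) (.e (nat_lit 344087) (nat_lit 18) .nil))))) (.g (nat_lit 0) (.e (nat_lit 163435) (nat_lit 0) .nil) .nil))) 
(.lf (nat_lit 498584) (.g (nat_lit 3025) (.e (nat_lit 163962) (nat_lit 25) (.e (nat_lit 532547) (nat_lit 11) (.e (nat_lit 352315) (nat_lit 23) (.e (nat_lit 98349) (nat_lit 24) (.e (nat_lit 409618) (nat_lit 10) (.e (nat_lit 5756) (nat_lit 315) .nil)))))) (.g (nat_lit 1) (.e (nat_lit 164610) (nat_lit 0) .nil) .nil)))))) (.nd (nat_lit 7) (.nd (nat_lit 8) (.nd (nat_lit 9) 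
(.lf (nat_lit 497752) (.g (nat_lit 3692) (.e (nat_lit 163941) (nat_lit 19) (.e (nat_lit 483341) (nat_lit 9) (.e (nat_lit 426198) (nat_lit 9) (.e (nat_lit 426436) (nat_lit 18) (.e (nat_lit 98335) (nat_lit 18) (.e (nat_lit 164324) (nat_lit 230) .nil)))))) (.g (nat_lit 1) (.e (nat_lit 161387) (nat_lit 0) .nil) .nil))) 
(.lf (nat_lit 498264) (.g (nat_lit 3527) (.e (nat_lit 163962) (nat_lit 25) (.e (nat_lit 532514) (nat_lit 3) (.e (nat_lit 114719) (nat_lit 23) (.e (nat_lit 98356) (nat_lit 26) (.e (nat_lit 426438) (nat_lit 18) (.e (nat_lit 98334) (nat_lit 18) (.e (nat_lit 164305) (nat_lit 226) (.e (nat_lit 2604) (nat_lit 163) .nil)))))))) (.g (nat_lit 1) (.e (nat_lit 163824) (nat_lit 0) .nil) .nil)))) 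
(.nd (nat_lit 9) 
(.lf (nat_lit 498008) (.g (nat_lit 4063) (.e (nat_lit 163944) (nat_lit 19) (.e (nat_lit 483341) (nat_lit 9) (.e (nat_lit 426187) (nat_lit 9) (.e (nat_lit 426436) (nat_lit 18) (.e (nat_lit 98335) (nat_lit 18) (.e (nat_lit 164327) (nat_lit 230) .nil)))))) (.g (nat_lit 1) (.e (nat_lit 162983) (nat_lit 0) .nil) .nil))) 
(.lf (nat_lit 498520) (.g (nat_lit 4279) (.e (nat_lit 163962) (nat_lit 25) (.e (nat_lit 532544) (nat_lit 10) (.e (nat_lit 344131) (nat_lit 26) (.e (nat_lit 557098) (nat_lit 13) (.e (nat_lit 172133) (nat_lit 15) (.e (nat_lit 1800) (nat_lit 119) (.e (nat_lit 516119) (nat_lit 1) (.e (nat_lit 164345) (nat_lit 240) (.e (nat_lit 2601) (nat_lit 163) .nil))))))))) (.g (nat_lit 1) (.e (nat_lit 164478) (nat_lit 0) .nil) .nil))))) 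
(.nd (nat_lit 8) (.nd (nat_lit 9) 
(.lf (nat_lit 497880) (.g (nat_lit 4062) (.e (nat_lit 163943) (nat_lit 19) (.e (nat_lit 483337) (nat_lit 9) (.e (nat_lit 426187) (nat_lit 9) (.e (nat_lit 426436) (nat_lit 18) (.e (nat_lit 98335) (nat_lit 18) (.e (nat_lit 164332) (nat_lit 230) .nil)))))) (.g (nat_lit 1) (.e (nat_lit 162126) (nat_lit 0) .nil) .nil))) 
(.lf (nat_lit 498392) (.g (nat_lit 3542) (.e (nat_lit 163962) (nat_lit 25) (.e (nat_lit 532535) (nat_lit 9) (.e (nat_lit 336173) (nat_lit 10) (.e (nat_lit 344126) (nat_lit 25) (.e (nat_lit 548890) (nat_lit 10) (.e (nat_lit 81664) (nat_lit 35) .nil)))))) (.g (nat_lit 1) (.e (nat_lit 164183) (nat_lit 0) .nil) .nil)))) (.nd (nat_lit 9) 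
(.lf (nat_lit 498136) (.g (nat_lit 1280) (.e (nat_lit 163950) (nat_lit 21) (.e (nat_lit 500073) (nat_lit 19) (.e (nat_lit 81664) (nat_lit 32) (.e (nat_lit 2668) (nat_lit 167) (.e (nat_lit 196667) (nat_lit 14) (.e (nat_lit 81664) (nat_lit 35) .nil)))))) (.g (nat_lit 1) (.e (nat_lit 163536) (nat_lit 0) .nil) .nil))) 
(.lf (nat_lit 498648) (.g (nat_lit 2732) (.e (nat_lit 163962) (nat_lit 25) (.e (nat_lit 532549) (nat_lit 12) (.e (nat_lit 360475) (nat_lit 8) (.e (nat_lit 557068) (nat_lit 9) (.e (nat_lit 7936) (nat_lit 19) .nil))))) (.g (nat_lit 0) (.e (nat_lit 164777) (nat_lit 0) .nil) .nil))))))) (.nd (nat_lit 6) (.nd (nat_lit 7) (.nd (nat_lit 8) (.nd (nat_lit 9) 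
(.lf (nat_lit 497720) (.g (nat_lit 4851) (.e (nat_lit 163941) (nat_lit 19) (.e (nat_lit 483341) (nat_lit 9) (.e (nat_lit 426187) (nat_lit 9) (.e (nat_lit 426436) (nat_lit 18) (.e (nat_lit 98335) (nat_lit 18) (.e (nat_lit 164329) (nat_lit 230) .nil)))))) (.g (nat_lit 1) (.e (nat_lit 161289) (nat_lit 0) .nil) .nil))) 
(.lf (nat_lit 498232) (.g (nat_lit 1809) (.e (nat_lit 163962) (nat_lit 25) (.e (nat_lit 532513) (nat_lit 3) (.e (nat_lit 114714) (nat_lit 22) (.e (nat_lit 90172) (nat_lit 14) (.e (nat_lit 180244) (nat_lit 5) .nil))))) (.g (nat_lit 0) (.e (nat_lit 163740) (nat_lit 0) .nil) .nil)))) (.nd (nat_lit 9) 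
(.lf (nat_lit 497976) (.g (nat_lit 3196) (.e (nat_lit 163943) (nat_lit 19) (.e (nat_lit 483399) (nat_lit 25) (.e (nat_lit 368676) (nat_lit 21) (.e (nat_lit 516195) (nat_lit 26) (.e (nat_lit 335996) (nat_lit 1) (.e (nat_lit 57931) (nat_lit 282) .nil)))))) (.g (nat_lit 1) (.e (nat_lit 162804) (nat_lit 0) .nil) .nil))) 
(.lf (nat_lit 498488) (.g (nat_lit 2491) (.e (nat_lit 163962) (nat_lit 25) (.e (nat_lit 532543) (nat_lit 10) (.e (nat_lit 344132) (nat_lit 26) (.e (nat_lit 557100) (nat_lit 13) (.e (nat_lit 172138) (nat_lit 15) (.e (nat_lit 1800) (nat_lit 119) (.e (nat_lit 516119) (nat_lit 1) (.e (nat_lit 164345) (nat_lit 240) (.e (nat_lit 2601) (nat_lit 163) .nil))))))))) (.g (nat_lit 1) (.e (nat_lit 164441) (nat_lit 0) .nil) .nil))))) 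
(.nd (nat_lit 8) (.nd (nat_lit 9) 
(.lf (nat_lit 497848) (.g (nat_lit 2071) (.e (nat_lit 163941) (nat_lit 19) (.e (nat_lit 483413) (nat_lit 27) (.e (nat_lit 401414) (nat_lit 0) (.e (nat_lit 3297) (nat_lit 202) .nil)))) (.g (nat_lit 0) (.e (nat_lit 161836) (nat_lit 0) .nil) .nil))) 
(.lf (nat_lit 498360) (.g (nat_lit 3624) (.e (nat_lit 163962) (nat_lit 25) (.e (nat_lit 532535) (nat_lit 9) (.e (nat_lit 336099) (nat_lit 9) (.e (nat_lit 336028) (nat_lit 3) (.e (nat_lit 98349) (nat_lit 24) (.e (nat_lit 409617) (nat_lit 10) (.e (nat_lit 7936) (nat_lit 315) .nil))))))) (.g (nat_lit 1) (.e (nat_lit 164101) (nat_lit 0) .nil) .nil)))) (.nd (nat_lit 9) 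
(.lf (nat_lit 498104) (.g (nat_lit 2275) (.e (nat_lit 163946) (nat_lit 20) (.e (nat_lit 491566) (nat_lit 12) (.e (nat_lit 385105) (nat_lit 50) (.e (nat_lit 786481) (nat_lit 30) (.e (nat_lit 360449) (nat_lit 0) .nil))))) (.g (nat_lit 0) (.e (nat_lit 163495) (nat_lit 0) .nil) .nil))) 
(.lf (nat_lit 498616) (.g (nat_lit 3174) (.e (nat_lit 163962) (nat_lit 25) (.e (nat_lit 532549) (nat_lit 12) (.e (nat_lit 360467) (nat_lit 3) (.e (nat_lit 516139) (nat_lit 7) (.e (nat_lit 409616) (nat_lit 10) (.e (nat_lit 5762) (nat_lit 315) .nil)))))) (.g (nat_lit 1) (.e (nat_lit 164710) (nat_lit 0) .nil) .nil)))))) (.nd (nat_lit 7) (.nd (nat_lit 8) (.nd (nat_lit 9) 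
(.lf (nat_lit 497784) (.g (nat_lit 3875) (.e (nat_lit 163941) (nat_lit 19) (.e (nat_lit 483341) (nat_lit 9) (.e (nat_lit 433920) (nat_lit 9) (.e (nat_lit 426436) (nat_lit 18) (.e (nat_lit 98335) (nat_lit 18) (.e (nat_lit 164332) (nat_lit 230) .nil)))))) (.g (nat_lit 1) (.e (nat_lit 161452) (nat_lit 0) .nil) .nil))) 
(.lf (nat_lit 498296) (.g (nat_lit 4135) (.e (nat_lit 163962) (nat_lit 25) (.e (nat_lit 532523) (nat_lit 7) (.e (nat_lit 319531) (nat_lit 16) (.e (nat_lit 286735) (nat_lit 3) (.e (nat_lit 98367) (nat_lit 27) (.e (nat_lit 442112) (nat_lit 11) .nil)))))) (.g (nat_lit 1) (.e (nat_lit 163899) (nat_lit 0) .nil) .nil)))) (.nd (nat_lit 9) 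
(.lf (nat_lit 498040) (.g (nat_lit 1384) (.e (nat_lit 163945) (nat_lit 20) (.e (nat_lit 491566) (nat_lit 12) (.e (nat_lit 385095) (nat_lit 49) .nil))) (.g (nat_lit 0) (.e (nat_lit 163395) (nat_lit 0) .nil) .nil))) 
(.lf (nat_lit 498552) (.g (nat_lit 3587) (.e (nat_lit 163962) (nat_lit 25) (.e (nat_lit 532544) (nat_lit 10) (.e (nat_lit 344133) (nat_lit 26) (.e (nat_lit 557103) (nat_lit 14) (.e (nat_lit 180243) (nat_lit 5) (.e (nat_lit 532501) (nat_lit 1) (.e (nat_lit 57703) (nat_lit 164) (.e (nat_lit 2601) (nat_lit 163) .nil)))))))) (.g (nat_lit 1) (.e (nat_lit 164510) (nat_lit 0) .nil) .nil))))) 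
(.nd (nat_lit 8) (.nd (nat_lit 9) 
(.lf (nat_lit 497912) (.g (nat_lit 2791) (.e (nat_lit 163943) (nat_lit 19) (.e (nat_lit 483341) (nat_lit 9) (.e (nat_lit 426197) (nat_lit 9) (.e (nat_lit 426436) (nat_lit 18) (.e (nat_lit 98335) (nat_lit 18) (.e (nat_lit 164325) (nat_lit 230) .nil)))))) (.g (nat_lit 1) (.e (nat_lit 162287) (nat_lit 0) .nil) .nil))) 
(.lf (nat_lit 498424) (.g (nat_lit 3347) (.e (nat_lit 163962) (nat_lit 25) (.e (nat_lit 532535) (nat_lit 9) (.e (nat_lit 336176) (nat_lit 10) (.e (nat_lit 344130) (nat_lit 26) (.e (nat_lit 557087) (nat_lit 11) (.e (nat_lit 24590) (nat_lit 0) (.e (nat_lit 7936) (nat_lit 360) .nil))))))) (.g (nat_lit 1) (.e (nat_lit 164271) (nat_lit 0) .nil) .nil)))) (.nd (nat_lit 9) 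
(.lf (nat_lit 498168) (.g (nat_lit 4129) (.e (nat_lit 163962) (nat_lit 25) (.e (nat_lit 532482) (nat_lit 0) (.e (nat_lit 6203) (nat_lit 332) (.e (nat_lit 2798) (nat_lit 180) (.e (nat_lit 303119) (nat_lit 3) (.e (nat_lit 204863) (nat_lit 27) (.e (nat_lit 352000) (nat_lit 3) .nil))))))) (.g (nat_lit 1) (.e (nat_lit 163609) (nat_lit 0) .nil) .nil))) 
(.lf (nat_lit 498680) (.g (nat_lit 529) (.e (nat_lit 163962) (nat_lit 25) (.e (nat_lit 532550) (nat_lit 12) (.e (nat_lit 368384) (nat_lit 7) .nil))) (.g (nat_lit 0) (.e (nat_lit 164849) (nat_lit 0) .nil) .nil)))))))))) (.nd (nat_lit 3) (.nd (nat_lit 4) (.nd (nat_lit 5) (.nd (nat_lit 6) (.nd (nat_lit 7) (.nd (nat_lit 8) (.nd (nat_lit 9) 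
(.lf (nat_lit 497668) (.g (nat_lit 1860) (.e (nat_lit 163941) (nat_lit 19) (.e (nat_lit 483339) (nat_lit 9) (.e (nat_lit 426232) (nat_lit 9) (.e (nat_lit 426435) (nat_lit 18) (.e (nat_lit 98335) (nat_lit 18) (.e (nat_lit 164326) (nat_lit 230) .nil)))))) (.g (nat_lit 1) (.e (nat_lit 161228) (nat_lit 0) .nil) .nil))) 
(.lf (nat_lit 498180) (.g (nat_lit 2789) (.e (nat_lit 163962) (nat_lit 25) (.e (nat_lit 532499) (nat_lit 1) (.e (nat_lit 57926) (nat_lit 282) (.e (nat_lit 163874) (nat_lit 3) (.e (nat_lit 204862) (nat_lit 27) .nil))))) (.g (nat_lit 0) (.e (nat_lit 163626) (nat_lit 0) .nil) .nil)))) (.nd (nat_lit 9) 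
(.lf (nat_lit 497924) (.g (nat_lit 1368) (.e (nat_lit 163943) (nat_lit 19) (.e (nat_lit 483346) (nat_lit 17) (.e (nat_lit 6712) (nat_lit 360) (.e (nat_lit 163975) (nat_lit 30) .nil)))) (.g (nat_lit 0) (.e (nat_lit 162471) (nat_lit 0) .nil) .nil))) 
(.lf (nat_lit 498436) (.g (nat_lit 2084) (.e (nat_lit 163962) (nat_lit 25) (.e (nat_lit 532535) (nat_lit 9) (.e (nat_lit 336176) (nat_lit 10) (.e (nat_lit 344133) (nat_lit 26) (.e (nat_lit 557065) (nat_lit 9) .nil))))) (.g (nat_lit 0) (.e (nat_lit 164299) (nat_lit 0) .nil) .nil))))) (.nd (nat_lit 8) (.nd (nat_lit 9) 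
(.lf (nat_lit 497796) (.g (nat_lit 3822) (.e (nat_lit 163941) (nat_lit 19) (.e (nat_lit 483341) (nat_lit 9) (.e (nat_lit 426308) (nat_lit 12) (.e (nat_lit 475179) (nat_lit 24) (.e (nat_lit 516117) (nat_lit 1) (.e (nat_lit 164332) (nat_lit 230) .nil)))))) (.g (nat_lit 1) (.e (nat_lit 161537) (nat_lit 0) .nil) .nil))) 
(.lf (nat_lit 498308) (.g (nat_lit 4201) (.e (nat_lit 163962) (nat_lit 25) (.e (nat_lit 532523) (nat_lit 7) (.e (nat_lit 319534) (nat_lit 16) (.e (nat_lit 286735) (nat_lit 3) (.e (nat_lit 98367) (nat_lit 27) (.e (nat_lit 442112) (nat_lit 11) .nil)))))) (.g (nat_lit 1) (.e (nat_lit 163911) (nat_lit 0) .nil) .nil)))) (.nd (nat_lit 9) 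
(.lf (nat_lit 498052) (.g (nat_lit 2010) (.e (nat_lit 163945) (nat_lit 20) (.e (nat_lit 491566) (nat_lit 12) (.e (nat_lit 385105) (nat_lit 50) (.e (nat_lit 786481) (nat_lit 30) (.e (nat_lit 360457) (nat_lit 0) .nil))))) (.g (nat_lit 0) (.e (nat_lit 163415) (nat_lit 0) .nil) .nil))) 
(.lf (nat_lit 498564) (.g (nat_lit 2459) (.e (nat_lit 163962) (nat_lit 25) (.e (nat_lit 532546) (nat_lit 11) (.e (nat_lit 352314) (nat_lit 23) (.e (nat_lit 98350) (nat_lit 24) (.e (nat_lit 409616) (nat_lit 10) (.e (nat_lit 5762) (nat_lit 315) .nil)))))) (.g (nat_lit 1) (.e (nat_lit 164530) (nat_lit 0) .nil) .nil)))))) (.nd (nat_lit 7) (.nd (nat_lit 8) (.nd (nat_lit 9) 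
(.lf (nat_lit 497732) (.g (nat_lit 3861) (.e (nat_lit 163941) (nat_lit 19) (.e (nat_lit 483341) (nat_lit 9) (.e (nat_lit 426190) (nat_lit 9) (.e (nat_lit 426436) (nat_lit 18) (.e (nat_lit 98335) (nat_lit 18) (.e (nat_lit 164325) (nat_lit 230) .nil)))))) (.g (nat_lit 1) (.e (nat_lit 161326) (nat_lit 0) .nil) .nil))) 
(.lf (nat_lit 498244) (.g (nat_lit 1499) (.e (nat_lit 163962) (nat_lit 25) (.e (nat_lit 532513) (nat_lit 3) (.e (nat_lit 114714) (nat_lit 22) (.e (nat_lit 90173) (nat_lit 14) .nil)))) (.g (nat_lit 0) (.e (nat_lit 163762) (nat_lit 0) .nil) .nil)))) (.nd (nat_lit 9) 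
(.lf (nat_lit 497988) (.g (nat_lit 4099) (.e (nat_lit 163943) (nat_lit 19) (.e (nat_lit 483413) (nat_lit 27) (.e (nat_lit 401414) (nat_lit 0) (.e (nat_lit 3304) (nat_lit 202) (.e (nat_lit 573484) (nat_lit 13) (.e (nat_lit 65563) (nat_lit 1) (.e (nat_lit 57927) (nat_lit 282) .nil))))))) (.g (nat_lit 1) (.e (nat_lit 162859) (nat_lit 0) .nil) .nil))) 
(.lf (nat_lit 498500) (.g (nat_lit 4626) (.e (nat_lit 163962) (nat_lit 25) (.e (nat_lit 532544) (nat_lit 10) (.e (nat_lit 344129) (nat_lit 26) (.e (nat_lit 557097) (nat_lit 13) (.e (nat_lit 172133) (nat_lit 15) (.e (nat_lit 1800) (nat_lit 119) (.e (nat_lit 516119) (nat_lit 1) (.e (nat_lit 164345) (nat_lit 240) (.e (nat_lit 2601) (nat_lit 163) .nil))))))))) (.g (nat_lit 1) (.e (nat_lit 164458) (nat_lit 0) .nil) .nil))))) 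
(.nd (nat_lit 8) (.nd (nat_lit 9) 
(.lf (nat_lit 497860) (.g (nat_lit 3335) (.e (nat_lit 163942) (nat_lit 19) (.e (nat_lit 483341) (nat_lit 9) (.e (nat_lit 426190) (nat_lit 9) (.e (nat_lit 426436) (nat_lit 18) (.e (nat_lit 98335) (nat_lit 18) (.e (nat_lit 164322) (nat_lit 230) .nil)))))) (.g (nat_lit 1) (.e (nat_lit 161906) (nat_lit 0) .nil) .nil))) 
(.lf (nat_lit 498372) (.g (nat_lit 613) (.e (nat_lit 163962) (nat_lit 25) (.e (nat_lit 532535) (nat_lit 9) (.e (nat_lit 336111) (nat_lit 9) .nil))) (.g (nat_lit 0) (.e (nat_lit 164128) (nat_lit 0) .nil) .nil)))) (.nd (nat_lit 9) 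
(.lf (nat_lit 498116) (.g (nat_lit 2676) (.e (nat_lit 163946) (nat_lit 20) (.e (nat_lit 491571) (nat_lit 13) (.e (nat_lit 393299) (nat_lit 27) (.e (nat_lit 491560) (nat_lit 10) (.e (nat_lit 344090) (nat_lit 18) .nil))))) (.g (nat_lit 0) (.e (nat_lit 163514) (nat_lit 0) .nil) .nil))) 
(.lf (nat_lit 498628) (.g (nat_lit 2176) (.e (nat_lit 163962) (nat_lit 25) (.e (nat_lit 532549) (nat_lit 12) (.e (nat_lit 360473) (nat_lit 8) (.e (nat_lit 557065) (nat_lit 9) (.e (nat_lit 328) (nat_lit 25) .nil))))) (.g (nat_lit 0) (.e (nat_lit 164722) (nat_lit 0) .nil) .nil))))))) (.nd (nat_lit 6) (.nd (nat_lit 7) (.nd (nat_lit 8) (.nd (nat_lit 9) 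
(.lf (nat_lit 497700) (.g (nat_lit 2610) (.e (nat_lit 163941) (nat_lit 19) (.e (nat_lit 483339) (nat_lit 9) (.e (nat_lit 426318) (nat_lit 12) (.e (nat_lit 475179) (nat_lit 24) (.e (nat_lit 516119) (nat_lit 1) (.e (nat_lit 164326) (nat_lit 230) .nil)))))) (.g (nat_lit 1) (.e (nat_lit 161264) (nat_lit 0) .nil) .nil))) 
(.lf (nat_lit 498212) (.g (nat_lit 2920) (.e (nat_lit 163962) (nat_lit 25) (.e (nat_lit 532500) (nat_lit 1) (.e (nat_lit 57927) (nat_lit 282) (.e (nat_lit 163868) (nat_lit 2) (.e (nat_lit 196670) (nat_lit 14) (.e (nat_lit 73746) (nat_lit 3) (.e (nat_lit 516127) (nat_lit 2) (.e (nat_lit 213033) (nat_lit 12) .nil)))))))) (.g (nat_lit 1) (.e (nat_lit 163698) (nat_lit 0) .nil) .nil)))) 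
(.nd (nat_lit 9) 
(.lf (nat_lit 497956) (.g (nat_lit 3587) (.e (nat_lit 163943) (nat_lit 19) (.e (nat_lit 483394) (nat_lit 24) (.e (nat_lit 344117) (nat_lit 21) (.e (nat_lit 516195) (nat_lit 26) (.e (nat_lit 335996) (nat_lit 1) (.e (nat_lit 57929) (nat_lit 282) .nil)))))) (.g (nat_lit 1) (.e (nat_lit 162753) (nat_lit 0) .nil) .nil))) 
(.lf (nat_lit 498468) (.g (nat_lit 2218) (.e (nat_lit 163962) (nat_lit 25) (.e (nat_lit 532535) (nat_lit 9) (.e (nat_lit 336226) (nat_lit 14) (.e (nat_lit 401425) (nat_lit 2) (.e (nat_lit 204544) (nat_lit 14) .nil))))) (.g (nat_lit 0) (.e (nat_lit 164399) (nat_lit 0) .nil) .nil))))) (.nd (nat_lit 8) (.nd (nat_lit 9) 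
(.lf (nat_lit 497828) (.g (nat_lit 2152) (.e (nat_lit 163941) (nat_lit 19) (.e (nat_lit 483346) (nat_lit 17) (.e (nat_lit 6712) (nat_lit 360) (.e (nat_lit 163979) (nat_lit 30) (.e (nat_lit 573482) (nat_lit 13) .nil))))) (.g (nat_lit 0) (.e (nat_lit 161733) (nat_lit 0) .nil) .nil))) 
(.lf (nat_lit 498340) (.g (nat_lit 2690) (.e (nat_lit 163962) (nat_lit 25) (.e (nat_lit 532535) (nat_lit 9) (.e (nat_lit 336061) (nat_lit 7) (.e (nat_lit 319519) (nat_lit 12) (.e (nat_lit 32779) (nat_lit 5) (.e (nat_lit 1512) (nat_lit 108) (.e (nat_lit 335872) (nat_lit 0) (.e (nat_lit 6711) (nat_lit 360) .nil)))))))) (.g (nat_lit 1) (.e (nat_lit 164029) (nat_lit 0) .nil) .nil)))) (.nd (nat_lit 9) 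
(.lf (nat_lit 498084) (.g (nat_lit 2704) (.e (nat_lit 163945) (nat_lit 20) (.e (nat_lit 491571) (nat_lit 13) (.e (nat_lit 393299) (nat_lit 27) (.e (nat_lit 491560) (nat_lit 10) (.e (nat_lit 344088) (nat_lit 18) (.e (nat_lit 6943) (nat_lit 375) .nil)))))) (.g (nat_lit 1) (.e (nat_lit 163469) (nat_lit 0) .nil) .nil))) 
(.lf (nat_lit 498596) (.g (nat_lit 2296) (.e (nat_lit 163962) (nat_lit 25) (.e (nat_lit 532549) (nat_lit 12) (.e (nat_lit 360466) (nat_lit 3) (.e (nat_lit 516138) (nat_lit 7) (.e (nat_lit 409615) (nat_lit 10) .nil))))) (.g (nat_lit 0) (.e (nat_lit 164660) (nat_lit 0) .nil) .nil)))))) (.nd (nat_lit 7) (.nd (nat_lit 8) (.nd (nat_lit 9) 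
(.lf (nat_lit 497764) (.g (nat_lit 5434) (.e (nat_lit 163941) (nat_lit 19) (.e (nat_lit 483341) (nat_lit 9) (.e (nat_lit 426199) (nat_lit 9) (.e (nat_lit 426436) (nat_lit 18) (.e (nat_lit 98335) (nat_lit 18) (.e (nat_lit 164330) (nat_lit 230) .nil)))))) (.g (nat_lit 1) (.e (nat_lit 161410) (nat_lit 0) .nil) .nil))) 
(.lf (nat_lit 498276) (.g (nat_lit 3083) (.e (nat_lit 163962) (nat_lit 25) (.e (nat_lit 532523) (nat_lit 7) (.e (nat_lit 319490) (nat_lit 0) (.e (nat_lit 5664) (nat_lit 312) (.e (nat_lit 2679) (nat_lit 168) (.e (nat_lit 204874) (nat_lit 30) (.e (nat_lit 376576) (nat_lit 3) .nil))))))) (.g (nat_lit 1) (.e (nat_lit 163859) (nat_lit 0) .nil) .nil)))) (.nd (nat_lit 9) 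
(.lf (nat_lit 498020) (.g (nat_lit 2356) (.e (nat_lit 163944) (nat_lit 19) (.e (nat_lit 483341) (nat_lit 9) (.e (nat_lit 426200) (nat_lit 9) (.e (nat_lit 426436) (nat_lit 18) (.e (nat_lit 98335) (nat_lit 18) (.e (nat_lit 164324) (nat_lit 230) .nil)))))) (.g (nat_lit 1) (.e (nat_lit 163053) (nat_lit 0) .nil) .nil))) 
(.lf (nat_lit 498532) (.g (nat_lit 3295) (.e (nat_lit 163962) (nat_lit 25) (.e (nat_lit 532544) (nat_lit 10) (.e (nat_lit 344133) (nat_lit 26) (.e (nat_lit 557096) (nat_lit 13) (.e (nat_lit 172133) (nat_lit 15) (.e (nat_lit 1800) (nat_lit 119) (.e (nat_lit 516119) (nat_lit 1) (.e (nat_lit 164345) (nat_lit 240) (.e (nat_lit 2600) (nat_lit 163) .nil))))))))) (.g (nat_lit 1) (.e (nat_lit 164490) (nat_lit 0) .nil) .nil))))) 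
(.nd (nat_lit 8) (.nd (nat_lit 9) 
(.lf (nat_lit 497892) (.g (nat_lit 1837) (.e (nat_lit 163943) (nat_lit 19) (.e (nat_lit 483339) (nat_lit 9) (.e (nat_lit 426232) (nat_lit 9) (.e (nat_lit 426435) (nat_lit 18) (.e (nat_lit 98334) (nat_lit 18) (.e (nat_lit 164332) (nat_lit 230) .nil)))))) (.g (nat_lit 1) (.e (nat_lit 162214) (nat_lit 0) .nil) .nil))) 
(.lf (nat_lit 498404) (.g (nat_lit 1786) (.e (nat_lit 163962) (nat_lit 25) (.e (nat_lit 532535) (nat_lit 9) (.e (nat_lit 336176) (nat_lit 10) (.e (nat_lit 344126) (nat_lit 25) (.e (nat_lit 556800) (nat_lit 5) .nil))))) (.g (nat_lit 0) (.e (nat_lit 164209) (nat_lit 0) .nil) .nil)))) (.nd (nat_lit 9) 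
(.lf (nat_lit 498148) (.g (nat_lit 1264) (.e (nat_lit 163961) (nat_lit 25) (.e (nat_lit 532535) (nat_lit 9) (.e (nat_lit 336099) (nat_lit 9) .nil))) (.g (nat_lit 0) (.e (nat_lit 163565) (nat_lit 0) .nil) .nil))) 
(.lf (nat_lit 498660) (.g (nat_lit 482) (.e (nat_lit 163962) (nat_lit 25) (.e (nat_lit 532550) (nat_lit 12) (.e (nat_lit 360451) (nat_lit 0) .nil))) (.g (nat_lit 0) (.e (nat_lit 164804) (nat_lit 0) .nil) .nil)))))))) (.nd (nat_lit 5) (.nd (nat_lit 6) (.nd (nat_lit 7) (.nd (nat_lit 8) (.nd (nat_lit 9) 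
(.lf (nat_lit 497684) (.g (nat_lit 2569) (.e (nat_lit 163941) (nat_lit 19) (.e (nat_lit 483339) (nat_lit 9) (.e (nat_lit 426261) (nat_lit 9) (.e (nat_lit 426435) (nat_lit 18) (.e (nat_lit 98333) (nat_lit 18) (.e (nat_lit 164325) (nat_lit 230) .nil)))))) (.g (nat_lit 1) (.e (nat_lit 161245) (nat_lit 0) .nil) .nil))) 
(.lf (nat_lit 498196) (.g (nat_lit 606) (.e (nat_lit 163962) (nat_lit 25) (.e (nat_lit 532500) (nat_lit 1) (.e (nat_lit 57926) (nat_lit 282) .nil))) (.g (nat_lit 0) (.e (nat_lit 163669) (nat_lit 0) .nil) .nil)))) (.nd (nat_lit 9) 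
(.lf (nat_lit 497940) (.g (nat_lit 1933) (.e (nat_lit 163943) (nat_lit 19) (.e (nat_lit 483392) (nat_lit 23) (.e (nat_lit 336021) (nat_lit 3) (.e (nat_lit 98317) (nat_lit 9) (.e (nat_lit 335996) (nat_lit 1) (.e (nat_lit 57931) (nat_lit 282) .nil)))))) (.g (nat_lit 1) (.e (nat_lit 162703) (nat_lit 0) .nil) .nil))) 
(.lf (nat_lit 498452) (.g (nat_lit 1117) (.e (nat_lit 163962) (nat_lit 25) (.e (nat_lit 532535) (nat_lit 9) (.e (nat_lit 336178) (nat_lit 10) (.e (nat_lit 344117) (nat_lit 21) .nil)))) (.g (nat_lit 0) (.e (nat_lit 164341) (nat_lit 0) .nil) .nil))))) (.nd (nat_lit 8) (.nd (nat_lit 9) 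
(.lf (nat_lit 497812) (.g (nat_lit 3655) (.e (nat_lit 163941) (nat_lit 19) (.e (nat_lit 483341) (nat_lit 9) (.e (nat_lit 426316) (nat_lit 12) (.e (nat_lit 475179) (nat_lit 24) (.e (nat_lit 516117) (nat_lit 1) (.e (nat_lit 164332) (nat_lit 230) .nil)))))) (.g (nat_lit 1) (.e (nat_lit 161654) (nat_lit 0) .nil) .nil))) 
(.lf (nat_lit 498324) (.g (nat_lit 3446) (.e (nat_lit 163962) (nat_lit 25) (.e (nat_lit 532526) (nat_lit 8) (.e (nat_lit 327700) (nat_lit 8) (.e (nat_lit 303117) (nat_lit 2) (.e (nat_lit 196668) (nat_lit 14) (.e (nat_lit 81664) (nat_lit 35) .nil)))))) (.g (nat_lit 1) (.e (nat_lit 163940) (nat_lit 0) .nil) .nil)))) (.nd (nat_lit 9) 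
(.lf (nat_lit 498068) (.g (nat_lit 2331) (.e (nat_lit 163945) (nat_lit 20) (.e (nat_lit 491569) (nat_lit 13) (.e (nat_lit 393301) (nat_lit 27) (.e (nat_lit 491558) (nat_lit 10) (.e (nat_lit 344090) (nat_lit 18) .nil))))) (.g (nat_lit 0) (.e (nat_lit 163431) (nat_lit 0) .nil) .nil))) 
(.lf (nat_lit 498580) (.g (nat_lit 2117) (.e (nat_lit 163962) (nat_lit 25) (.e (nat_lit 532547) (nat_lit 11) (.e (nat_lit 352315) (nat_lit 23) (.e (nat_lit 98349) (nat_lit 24) (.e (nat_lit 409615) (nat_lit 10) .nil))))) (.g (nat_lit 0) (.e (nat_lit 164606) (nat_lit 0) .nil) .nil)))))) (.nd (nat_lit 7) (.nd (nat_lit 8) (.nd (nat_lit 9) 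
(.lf (nat_lit 497748) (.g (nat_lit 2013) (.e (nat_lit 163941) (nat_lit 19) (.e (nat_lit 483341) (nat_lit 9) (.e (nat_lit 426198) (nat_lit 9) (.e (nat_lit 426354) (nat_lit 15) (.e (nat_lit 1795) (nat_lit 119) .nil))))) (.g (nat_lit 0) (.e (nat_lit 161369) (nat_lit 0) .nil) .nil))) 
(.lf (nat_lit 498260) (.g (nat_lit 2328) (.e (nat_lit 163962) (nat_lit 25) (.e (nat_lit 532513) (nat_lit 3) (.e (nat_lit 114714) (nat_lit 22) (.e (nat_lit 90174) (nat_lit 14) (.e (nat_lit 180243) (nat_lit 5) (.e (nat_lit 532504) (nat_lit 1) (.e (nat_lit 57670) (nat_lit 152) (.e (nat_lit 7936) (nat_lit 163) .nil)))))))) (.g (nat_lit 1) (.e (nat_lit 163788) (nat_lit 0) .nil) .nil)))) 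
(.nd (nat_lit 9) 
(.lf (nat_lit 498004) (.g (nat_lit 1796) (.e (nat_lit 163944) (nat_lit 19) (.e (nat_lit 483339) (nat_lit 9) (.e (nat_lit 426261) (nat_lit 9) (.e (nat_lit 426435) (nat_lit 18) (.e (nat_lit 98335) (nat_lit 18) (.e (nat_lit 164325) (nat_lit 230) .nil)))))) (.g (nat_lit 1) (.e (nat_lit 162968) (nat_lit 0) .nil) .nil))) 
(.lf (nat_lit 498516) (.g (nat_lit 2299) (.e (nat_lit 163962) (nat_lit 25) (.e (nat_lit 532544) (nat_lit 10) (.e (nat_lit 344130) (nat_lit 26) (.e (nat_lit 557103) (nat_lit 14) (.e (nat_lit 180250) (nat_lit 10) (.e (nat_lit 573473) (nat_lit 12) (.e (nat_lit 57508) (nat_lit 39) (.e (nat_lit 647180) (nat_lit 3) .nil)))))))) (.g (nat_lit 1) (.e (nat_lit 164474) (nat_lit 0) .nil) .nil))))) 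
(.nd (nat_lit 8) (.nd (nat_lit 9) 
(.lf (nat_lit 497876) (.g (nat_lit 2223) (.e (nat_lit 163943) (nat_lit 19) (.e (nat_lit 483336) (nat_lit 9) (.e (nat_lit 426200) (nat_lit 9) (.e (nat_lit 426436) (nat_lit 18) (.e (nat_lit 98335) (nat_lit 18) .nil))))) (.g (nat_lit 0) (.e (nat_lit 162104) (nat_lit 0) .nil) .nil))) 
(.lf (nat_lit 498388) (.g (nat_lit 1141) (.e (nat_lit 163962) (nat_lit 25) (.e (nat_lit 532535) (nat_lit 9) (.e (nat_lit 336173) (nat_lit 10) (.e (nat_lit 344119) (nat_lit 21) .nil)))) (.g (nat_lit 0) (.e (nat_lit 164178) (nat_lit 0) .nil) .nil)))) (.nd (nat_lit 9) 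
(.lf (nat_lit 498132) (.g (nat_lit 2260) (.e (nat_lit 163950) (nat_lit 21) (.e (nat_lit 500071) (nat_lit 19) (.e (nat_lit 73782) (nat_lit 32) (.e (nat_lit 2664) (nat_lit 167) (.e (nat_lit 196670) (nat_lit 14) (.e (nat_lit 81664) (nat_lit 35) .nil)))))) (.g (nat_lit 1) (.e (nat_lit 163532) (nat_lit 0) .nil) .nil))) 
(.lf (nat_lit 498644) (.g (nat_lit 2901) (.e (nat_lit 163962) (nat_lit 25) (.e (nat_lit 532549) (nat_lit 12) (.e (nat_lit 360475) (nat_lit 8) (.e (nat_lit 557066) (nat_lit 9) (.e (nat_lit 297) (nat_lit 22) .nil))))) (.g (nat_lit 0) (.e (nat_lit 164764) (nat_lit 0) .nil) .nil))))))) (.nd (nat_lit 6) (.nd (nat_lit 7) (.nd (nat_lit 8) (.nd (nat_lit 9) 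
(.lf (nat_lit 497716) (.g (nat_lit 5204) (.e (nat_lit 163941) (nat_lit 19) (.e (nat_lit 483341) (nat_lit 9) (.e (nat_lit 426186) (nat_lit 9) (.e (nat_lit 426436) (nat_lit 18) (.e (nat_lit 98335) (nat_lit 18) (.e (nat_lit 164331) (nat_lit 230) .nil)))))) (.g (nat_lit 1) (.e (nat_lit 161282) (nat_lit 0) .nil) .nil))) 
(.lf (nat_lit 498228) (.g (nat_lit 2074) (.e (nat_lit 163962) (nat_lit 25) (.e (nat_lit 532513) (nat_lit 3) (.e (nat_lit 114714) (nat_lit 22) (.e (nat_lit 90172) (nat_lit 14) (.e (nat_lit 180243) (nat_lit 5) .nil))))) (.g (nat_lit 0) (.e (nat_lit 163732) (nat_lit 0) .nil) .nil)))) (.nd (nat_lit 9) 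
(.lf (nat_lit 497972) (.g (nat_lit 1969) (.e (nat_lit 163943) (nat_lit 19) (.e (nat_lit 483399) (nat_lit 25) (.e (nat_lit 368676) (nat_lit 21) (.e (nat_lit 516195) (nat_lit 26) (.e (nat_lit 335987) (nat_lit 1) (.e (nat_lit 57927) (nat_lit 282) .nil)))))) (.g (nat_lit 1) (.e (nat_lit 162798) (nat_lit 0) .nil) .nil))) 
(.lf (nat_lit 498484) (.g (nat_lit 2341) (.e (nat_lit 163962) (nat_lit 25) (.e (nat_lit 532543) (nat_lit 10) (.e (nat_lit 344129) (nat_lit 26) (.e (nat_lit 557104) (nat_lit 14) (.e (nat_lit 188160) (nat_lit 3) .nil))))) (.g (nat_lit 0) (.e (nat_lit 164437) (nat_lit 0) .nil) .nil))))) (.nd (nat_lit 8) (.nd (nat_lit 9) 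
(.lf (nat_lit 497844) (.g (nat_lit 462) (.e (nat_lit 163941) (nat_lit 19) (.e (nat_lit 483405) (nat_lit 26) (.e (nat_lit 392960) (nat_lit 24) .nil))) (.g (nat_lit 0) (.e (nat_lit 161813) (nat_lit 0) .nil) .nil))) 
(.lf (nat_lit 498356) (.g (nat_lit 3485) (.e (nat_lit 163962) (nat_lit 25) (.e (nat_lit 532535) (nat_lit 9) (.e (nat_lit 336099) (nat_lit 9) (.e (nat_lit 336028) (nat_lit 3) (.e (nat_lit 98349) (nat_lit 24) (.e (nat_lit 409611) (nat_lit 10) (.e (nat_lit 5756) (nat_lit 315) .nil))))))) (.g (nat_lit 1) (.e (nat_lit 164097) (nat_lit 0) .nil) .nil)))) (.nd (nat_lit 9) 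
(.lf (nat_lit 498100) (.g (nat_lit 2695) (.e (nat_lit 163946) (nat_lit 20) (.e (nat_lit 491566) (nat_lit 12) (.e (nat_lit 385104) (nat_lit 50) (.e (nat_lit 786483) (nat_lit 30) (.e (nat_lit 360448) (nat_lit 0) (.e (nat_lit 5587) (nat_lit 310) .nil)))))) (.g (nat_lit 1) (.e (nat_lit 163491) (nat_lit 0) .nil) .nil))) 
(.lf (nat_lit 498612) (.g (nat_lit 1950) (.e (nat_lit 163962) (nat_lit 25) (.e (nat_lit 532549) (nat_lit 12) (.e (nat_lit 360466) (nat_lit 3) (.e (nat_lit 516142) (nat_lit 8) (.e (nat_lit 425728) (nat_lit 10) .nil))))) (.g (nat_lit 0) (.e (nat_lit 164677) (nat_lit 0) .nil) .nil)))))) (.nd (nat_lit 7) (.nd (nat_lit 8) (.nd (nat_lit 9) 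
(.lf (nat_lit 497780) (.g (nat_lit 3660) (.e (nat_lit 163941) (nat_lit 19) (.e (nat_lit 483341) (nat_lit 9) (.e (nat_lit 433920) (nat_lit 9) (.e (nat_lit 426436) (nat_lit 18) (.e (nat_lit 98335) (nat_lit 18) (.e (nat_lit 164326) (nat_lit 230) .nil)))))) (.g (nat_lit 1) (.e (nat_lit 161448) (nat_lit 0) .nil) .nil))) 
(.lf (nat_lit 498292) (.g (nat_lit 1719) (.e (nat_lit 163962) (nat_lit 25) (.e (nat_lit 532523) (nat_lit 7) (.e (nat_lit 319531) (nat_lit 16) (.e (nat_lit 286733) (nat_lit 2) .nil)))) (.g (nat_lit 0) (.e (nat_lit 163895) (nat_lit 0) .nil) .nil)))) (.nd (nat_lit 9) 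
(.lf (nat_lit 498036) (.g (nat_lit 2653) (.e (nat_lit 163945) (nat_lit 20) (.e (nat_lit 491566) (nat_lit 12) (.e (nat_lit 385093) (nat_lit 49) (.e (nat_lit 778326) (nat_lit 6) (.e (nat_lit 81959) (nat_lit 24) (.e (nat_lit 123229) (nat_lit 282) .nil)))))) (.g (nat_lit 1) (.e (nat_lit 163389) (nat_lit 0) .nil) .nil))) 
(.lf (nat_lit 498548) (.g (nat_lit 3740) (.e (nat_lit 163962) (nat_lit 25) (.e (nat_lit 532544) (nat_lit 10) (.e (nat_lit 344133) (nat_lit 26) (.e (nat_lit 557098) (nat_lit 13) (.e (nat_lit 179968) (nat_lit 18) (.e (nat_lit 98335) (nat_lit 18) (.e (nat_lit 164345) (nat_lit 240) (.e (nat_lit 2601) (nat_lit 163) .nil)))))))) (.g (nat_lit 1) (.e (nat_lit 164506) (nat_lit 0) .nil) .nil))))) 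
(.nd (nat_lit 8) (.nd (nat_lit 9) 
(.lf (nat_lit 497908) (.g (nat_lit 4922) (.e (nat_lit 163943) (nat_lit 19) (.e (nat_lit 483341) (nat_lit 9) (.e (nat_lit 426189) (nat_lit 9) (.e (nat_lit 426436) (nat_lit 18) (.e (nat_lit 98335) (nat_lit 18) (.e (nat_lit 164332) (nat_lit 230) .nil)))))) (.g (nat_lit 1) (.e (nat_lit 162270) (nat_lit 0) .nil) .nil))) 
(.lf (nat_lit 498420) (.g (nat_lit 3598) (.e (nat_lit 163962) (nat_lit 25) (.e (nat_lit 532535) (nat_lit 9) (.e (nat_lit 336176) (nat_lit 10) (.e (nat_lit 344130) (nat_lit 26) (.e (nat_lit 557087) (nat_lit 11) (.e (nat_lit 24583) (nat_lit 0) (.e (nat_lit 7936) (nat_lit 360) .nil))))))) (.g (nat_lit 1) (.e (nat_lit 164267) (nat_lit 0) .nil) .nil)))) (.nd (nat_lit 9) 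
(.lf (nat_lit 498164) (.g (nat_lit 4746) (.e (nat_lit 163962) (nat_lit 25) (.e (nat_lit 532482) (nat_lit 0) (.e (nat_lit 6203) (nat_lit 332) (.e (nat_lit 2798) (nat_lit 180) (.e (nat_lit 303119) (nat_lit 3) (.e (nat_lit 204846) (nat_lit 24) (.e (nat_lit 319490) (nat_lit 0) (.e (nat_lit 5761) (nat_lit 315) .nil)))))))) (.g (nat_lit 1) (.e (nat_lit 163605) (nat_lit 0) .nil) .nil))) 
(.lf (nat_lit 498676) (.g (nat_lit 2093) (.e (nat_lit 163962) (nat_lit 25) (.e (nat_lit 532550) (nat_lit 12) (.e (nat_lit 360468) (nat_lit 3) (.e (nat_lit 516139) (nat_lit 7) (.e (nat_lit 409616) (nat_lit 10) (.e (nat_lit 5762) (nat_lit 315) .nil)))))) (.g (nat_lit 1) (.e (nat_lit 164844) (nat_lit 0) .nil) .nil))))))))) 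
(.nd (nat_lit 4) (.nd (nat_lit 5) (.nd (nat_lit 6) (.nd (nat_lit 7) (.nd (nat_lit 8) 
(.nd (nat_lit 9) 
(.lf (nat_lit 497676) (.g (nat_lit 1743) (.e (nat_lit 163941) (nat_lit 19) (.e (nat_lit 483339) (nat_lit 9) (.e (nat_lit 426259) (nat_lit 9) (.e (nat_lit 426435) (nat_lit 18) (.e (nat_lit 98335) (nat_lit 18) (.e (nat_lit 164326) (nat_lit 230) .nil)))))) (.g (nat_lit 1) (.e (nat_lit 161236) (nat_lit 0) .nil) .nil))) 
(.lf (nat_lit 498188) (.g (nat_lit 3032) (.e (nat_lit 163962) (nat_lit 25) (.e (nat_lit 532499) (nat_lit 1) (.e (nat_lit 57927) (nat_lit 282) (.e (nat_lit 163871) (nat_lit 2) (.e (nat_lit 196670) (nat_lit 14) (.e (nat_lit 73746) (nat_lit 3) (.e (nat_lit 516127) (nat_lit 2) (.e (nat_lit 213033) (nat_lit 12) .nil)))))))) (.g (nat_lit 1) (.e (nat_lit 163651) (nat_lit 0) .nil) .nil)))) 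
(.nd (nat_lit 9) 
(.lf (nat_lit 497932) (.g (nat_lit 2482) (.e (nat_lit 163943) (nat_lit 19) (.e (nat_lit 483346) (nat_lit 17) (.e (nat_lit 6712) (nat_lit 360) (.e (nat_lit 163979) (nat_lit 30) (.e (nat_lit 573497) (nat_lit 17) .nil))))) (.g (nat_lit 0) (.e (nat_lit 162591) (nat_lit 0) .nil) .nil))) 
(.lf (nat_lit 498444) (.g (nat_lit 2108) (.e (nat_lit 163962) (nat_lit 25) (.e (nat_lit 532535) (nat_lit 9) (.e (nat_lit 336176) (nat_lit 10) (.e (nat_lit 344133) (nat_lit 26) (.e (nat_lit 557073) (nat_lit 9) .nil))))) (.g (nat_lit 0) (.e (nat_lit 164330) (nat_lit 0) .nil) .nil))))) (.nd (nat_lit 8) (.nd (nat_lit 9) 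
(.lf (nat_lit 497804) (.g (nat_lit 3473) (.e (nat_lit 163941) (nat_lit 19) (.e (nat_lit 483341) (nat_lit 9) (.e (nat_lit 426314) (nat_lit 12) (.e (nat_lit 475179) (nat_lit 24) (.e (nat_lit 516119) (nat_lit 1) (.e (nat_lit 164326) (nat_lit 230) .nil)))))) (.g (nat_lit 1) (.e (nat_lit 161571) (nat_lit 0) .nil) .nil))) 
(.lf (nat_lit 498316) (.g (nat_lit 2282) (.e (nat_lit 163962) (nat_lit 25) (.e (nat_lit 532526) (nat_lit 8) (.e (nat_lit 327698) (nat_lit 8) (.e (nat_lit 303119) (nat_lit 3) (.e (nat_lit 204846) (nat_lit 24) (.e (nat_lit 319490) (nat_lit 0) (.e (nat_lit 5761) (nat_lit 315) .nil))))))) (.g (nat_lit 1) (.e (nat_lit 163924) (nat_lit 0) .nil) .nil)))) (.nd (nat_lit 9) 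
(.lf (nat_lit 498060) (.g (nat_lit 2284) (.e (nat_lit 163945) (nat_lit 20) (.e (nat_lit 491568) (nat_lit 13) (.e (nat_lit 393301) (nat_lit 27) (.e (nat_lit 491558) (nat_lit 10) (.e (nat_lit 344096) (nat_lit 18) .nil))))) (.g (nat_lit 0) (.e (nat_lit 163423) (nat_lit 0) .nil) .nil))) 
(.lf (nat_lit 498572) (.g (nat_lit 3264) (.e (nat_lit 163962) (nat_lit 25) (.e (nat_lit 532547) (nat_lit 11) (.e (nat_lit 352313) (nat_lit 23) (.e (nat_lit 98350) (nat_lit 24) (.e (nat_lit 409617) (nat_lit 10) (.e (nat_lit 7936) (nat_lit 315) .nil)))))) (.g (nat_lit 1) (.e (nat_lit 164590) (nat_lit 0) .nil) .nil)))))) (.nd (nat_lit 7) (.nd (nat_lit 8) (.nd (nat_lit 9) 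
(.lf (nat_lit 497740) (.g (nat_lit 4861) (.e (nat_lit 163941) (nat_lit 19) (.e (nat_lit 483341) (nat_lit 9) (.e (nat_lit 426196) (nat_lit 9) (.e (nat_lit 426436) (nat_lit 18) (.e (nat_lit 98335) (nat_lit 18) (.e (nat_lit 164331) (nat_lit 230) .nil)))))) (.g (nat_lit 1) (.e (nat_lit 161344) (nat_lit 0) .nil) .nil))) 
(.lf (nat_lit 498252) (.g (nat_lit 2373) (.e (nat_lit 163962) (nat_lit 25) (.e (nat_lit 532513) (nat_lit 3) (.e (nat_lit 114714) (nat_lit 22) (.e (nat_lit 90174) (nat_lit 14) (.e (nat_lit 180243) (nat_lit 5) (.e (nat_lit 532501) (nat_lit 1) (.e (nat_lit 57662) (nat_lit 152) (.e (nat_lit 7936) (nat_lit 163) .nil)))))))) (.g (nat_lit 1) (.e (nat_lit 163774) (nat_lit 0) .nil) .nil)))) 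
(.nd (nat_lit 9) 
(.lf (nat_lit 497996) (.g (nat_lit 2606) (.e (nat_lit 163944) (nat_lit 19) (.e (nat_lit 483337) (nat_lit 9) (.e (nat_lit 426190) (nat_lit 9) (.e (nat_lit 426436) (nat_lit 18) (.e (nat_lit 98335) (nat_lit 18) (.e (nat_lit 164327) (nat_lit 230) .nil)))))) (.g (nat_lit 1) (.e (nat_lit 162898) (nat_lit 0) .nil) .nil))) 
(.lf (nat_lit 498508) (.g (nat_lit 517) (.e (nat_lit 163962) (nat_lit 25) (.e (nat_lit 532544) (nat_lit 10) (.e (nat_lit 344130) (nat_lit 26) .nil))) (.g (nat_lit 0) (.e (nat_lit 164466) (nat_lit 0) .nil) .nil))))) (.nd (nat_lit 8) (.nd (nat_lit 9) 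
(.lf (nat_lit 497868) (.g (nat_lit 3691) (.e (nat_lit 163942) (nat_lit 19) (.e (nat_lit 483341) (nat_lit 9) (.e (nat_lit 426200) (nat_lit 9) (.e (nat_lit 426436) (nat_lit 18) (.e (nat_lit 98335) (nat_lit 18) (.e (nat_lit 164324) (nat_lit 230) .nil)))))) (.g (nat_lit 1) (.e (nat_lit 161933) (nat_lit 0) .nil) .nil))) 
(.lf (nat_lit 498380) (.g (nat_lit 3185) (.e (nat_lit 163962) (nat_lit 25) (.e (nat_lit 532535) (nat_lit 9) (.e (nat_lit 336163) (nat_lit 10) (.e (nat_lit 344117) (nat_lit 21) (.e (nat_lit 516139) (nat_lit 7) (.e (nat_lit 409617) (nat_lit 10) (.e (nat_lit 7936) (nat_lit 315) .nil))))))) (.g (nat_lit 1) (.e (nat_lit 164157) (nat_lit 0) .nil) .nil)))) (.nd (nat_lit 9) 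
(.lf (nat_lit 498124) (.g (nat_lit 2483) (.e (nat_lit 163947) (nat_lit 20) (.e (nat_lit 491560) (nat_lit 10) (.e (nat_lit 344177) (nat_lit 43) (.e (nat_lit 770072) (nat_lit 8) (.e (nat_lit 65617) (nat_lit 10) .nil))))) (.g (nat_lit 0) (.e (nat_lit 163522) (nat_lit 0) .nil) .nil))) 
(.lf (nat_lit 498636) (.g (nat_lit 2137) (.e (nat_lit 163962) (nat_lit 25) (.e (nat_lit 532549) (nat_lit 12) (.e (nat_lit 360473) (nat_lit 8) (.e (nat_lit 557085) (nat_lit 11) (.e (nat_lit 24579) (nat_lit 0) .nil))))) (.g (nat_lit 0) (.e (nat_lit 164754) (nat_lit 0) .nil) .nil))))))) (.nd (nat_lit 6) (.nd (nat_lit 7) (.nd (nat_lit 8) (.nd (nat_lit 9) 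
(.lf (nat_lit 497708) (.g (nat_lit 505) (.e (nat_lit 163941) (nat_lit 19) (.e (nat_lit 483341) (nat_lit 9) (.e (nat_lit 426185) (nat_lit 9) .nil))) (.g (nat_lit 0) (.e (nat_lit 161274) (nat_lit 0) .nil) .nil))) 
(.lf (nat_lit 498220) (.g (nat_lit 2989) (.e (nat_lit 163962) (nat_lit 25) (.e (nat_lit 532500) (nat_lit 1) (.e (nat_lit 57927) (nat_lit 282) (.e (nat_lit 163874) (nat_lit 3) (.e (nat_lit 204862) (nat_lit 27) (.e (nat_lit 344117) (nat_lit 21) (.e (nat_lit 516123) (nat_lit 2) (.e (nat_lit 213033) (nat_lit 12) .nil)))))))) (.g (nat_lit 1) (.e (nat_lit 163710) (nat_lit 0) .nil) .nil)))) 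
(.nd (nat_lit 9) 
(.lf (nat_lit 497964) (.g (nat_lit 2044) (.e (nat_lit 163943) (nat_lit 19) (.e (nat_lit 483398) (nat_lit 25) (.e (nat_lit 368676) (nat_lit 21) (.e (nat_lit 516195) (nat_lit 26) (.e (nat_lit 335987) (nat_lit 1) (.e (nat_lit 57927) (nat_lit 282) .nil)))))) (.g (nat_lit 1) (.e (nat_lit 162789) (nat_lit 0) .nil) .nil))) 
(.lf (nat_lit 498476) (.g (nat_lit 3182) (.e (nat_lit 163962) (nat_lit 25) (.e (nat_lit 532543) (nat_lit 10) (.e (nat_lit 344129) (nat_lit 26) (.e (nat_lit 557096) (nat_lit 13) (.e (nat_lit 172133) (nat_lit 15) (.e (nat_lit 1800) (nat_lit 119) (.e (nat_lit 516119) (nat_lit 1) (.e (nat_lit 164347) (nat_lit 240) (.e (nat_lit 2601) (nat_lit 163) .nil))))))))) (.g (nat_lit 1) (.e (nat_lit 164429) (nat_lit 0) .nil) .nil))))) 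
(.nd (nat_lit 8) (.nd (nat_lit 9) 
(.lf (nat_lit 497836) (.g (nat_lit 3398) (.e (nat_lit 163941) (nat_lit 19) (.e (nat_lit 483393) (nat_lit 23) (.e (nat_lit 336021) (nat_lit 3) (.e (nat_lit 98313) (nat_lit 9) (.e (nat_lit 335995) (nat_lit 1) (.e (nat_lit 57931) (nat_lit 282) .nil)))))) (.g (nat_lit 1) (.e (nat_lit 161786) (nat_lit 0) .nil) .nil))) 
(.lf (nat_lit 498348) (.g (nat_lit 3591) (.e (nat_lit 163962) (nat_lit 25) (.e (nat_lit 532535) (nat_lit 9) (.e (nat_lit 336073) (nat_lit 9) (.e (nat_lit 336028) (nat_lit 3) (.e (nat_lit 98350) (nat_lit 24) (.e (nat_lit 409616) (nat_lit 10) (.e (nat_lit 5757) (nat_lit 315) .nil))))))) (.g (nat_lit 1) (.e (nat_lit 164044) (nat_lit 0) .nil) .nil)))) (.nd (nat_lit 9) 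
(.lf (nat_lit 498092) (.g (nat_lit 1531) (.e (nat_lit 163946) (nat_lit 20) (.e (nat_lit 491566) (nat_lit 12) (.e (nat_lit 385093) (nat_lit 49) (.e (nat_lit 778327) (nat_lit 6) .nil)))) (.g (nat_lit 0) (.e (nat_lit 163477) (nat_lit 0) .nil) .nil))) 
(.lf (nat_lit 498604) (.g (nat_lit 2469) (.e (nat_lit 163962) (nat_lit 25) (.e (nat_lit 532549) (nat_lit 12) (.e (nat_lit 360466) (nat_lit 3) (.e (nat_lit 516139) (nat_lit 7) (.e (nat_lit 409617) (nat_lit 10) .nil))))) (.g (nat_lit 0) (.e (nat_lit 164668) (nat_lit 0) .nil) .nil)))))) (.nd (nat_lit 7) (.nd (nat_lit 8) (.nd (nat_lit 9) 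
(.lf (nat_lit 497772) (.g (nat_lit 1155) (.e (nat_lit 163941) (nat_lit 19) (.e (nat_lit 483341) (nat_lit 9) (.e (nat_lit 426200) (nat_lit 9) (.e (nat_lit 426374) (nat_lit 15) .nil)))) (.g (nat_lit 0) (.e (nat_lit 161429) (nat_lit 0) .nil) .nil))) 
(.lf (nat_lit 498284) (.g (nat_lit 3821) (.e (nat_lit 163962) (nat_lit 25) (.e (nat_lit 532523) (nat_lit 7) (.e (nat_lit 319537) (nat_lit 19) (.e (nat_lit 311315) (nat_lit 3) (.e (nat_lit 204846) (nat_lit 24) (.e (nat_lit 319504) (nat_lit 10) (.e (nat_lit 7936) (nat_lit 315) .nil))))))) (.g (nat_lit 1) (.e (nat_lit 163886) (nat_lit 0) .nil) .nil)))) (.nd (nat_lit 9) 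
(.lf (nat_lit 498028) (.g (nat_lit 1020) (.e (nat_lit 163944) (nat_lit 19) (.e (nat_lit 483413) (nat_lit 27) (.e (nat_lit 401463) (nat_lit 15) .nil))) (.g (nat_lit 0) (.e (nat_lit 163373) (nat_lit 0) .nil) .nil))) 
(.lf (nat_lit 498540) (.g (nat_lit 4962) (.e (nat_lit 163962) (nat_lit 25) (.e (nat_lit 532544) (nat_lit 10) (.e (nat_lit 344133) (nat_lit 26) (.e (nat_lit 557098) (nat_lit 13) (.e (nat_lit 172133) (nat_lit 15) (.e (nat_lit 1800) (nat_lit 119) (.e (nat_lit 516119) (nat_lit 1) (.e (nat_lit 164347) (nat_lit 240) (.e (nat_lit 2601) (nat_lit 163) .nil))))))))) (.g (nat_lit 1) (.e (nat_lit 164498) (nat_lit 0) .nil) .nil))))) 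
(.nd (nat_lit 8) (.nd (nat_lit 9) 
(.lf (nat_lit 497900) (.g (nat_lit 4102) (.e (nat_lit 163943) (nat_lit 19) (.e (nat_lit 483341) (nat_lit 9) (.e (nat_lit 426187) (nat_lit 9) (.e (nat_lit 426436) (nat_lit 18) (.e (nat_lit 98335) (nat_lit 18) (.e (nat_lit 164325) (nat_lit 230) .nil)))))) (.g (nat_lit 1) (.e (nat_lit 162254) (nat_lit 0) .nil) .nil))) 
(.lf (nat_lit 498412) (.g (nat_lit 2216) (.e (nat_lit 163962) (nat_lit 25) (.e (nat_lit 532535) (nat_lit 9) (.e (nat_lit 336176) (nat_lit 10) (.e (nat_lit 344130) (nat_lit 26) (.e (nat_lit 557064) (nat_lit 9) (.e (nat_lit 214) (nat_lit 19) (.e (nat_lit 319492) (nat_lit 0) (.e (nat_lit 5761) (nat_lit 315) .nil)))))))) (.g (nat_lit 1) (.e (nat_lit 164219) (nat_lit 0) .nil) .nil)))) (.nd (nat_lit 9) 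
(.lf (nat_lit 498156) (.g (nat_lit 3927) (.e (nat_lit 163961) (nat_lit 25) (.e (nat_lit 532550) (nat_lit 12) (.e (nat_lit 360475) (nat_lit 8) (.e (nat_lit 557068) (nat_lit 9) .nil)))) (.g (nat_lit 0) (.e (nat_lit 163584) (nat_lit 0) .nil) .nil))) 
(.lf (nat_lit 498668) (.g (nat_lit 3220) (.e (nat_lit 163962) (nat_lit 25) (.e (nat_lit 532550) (nat_lit 12) (.e (nat_lit 360466) (nat_lit 3) (.e (nat_lit 516139) (nat_lit 7) (.e (nat_lit 409616) (nat_lit 10) (.e (nat_lit 5763) (nat_lit 315) .nil)))))) (.g (nat_lit 1) (.e (nat_lit 164830) (nat_lit 0) .nil) .nil)))))))) 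
(.nd (nat_lit 5) (.nd (nat_lit 6) (.nd (nat_lit 7) (.nd (nat_lit 8) (.nd (nat_lit 9) 
(.lf (nat_lit 497692) (.g (nat_lit 1992) (.e (nat_lit 163941) (nat_lit 19) (.e (nat_lit 483339) (nat_lit 9) (.e (nat_lit 426262) (nat_lit 9) (.e (nat_lit 426435) (nat_lit 18) (.e (nat_lit 98333) (nat_lit 18) (.e (nat_lit 164327) (nat_lit 230) .nil)))))) (.g (nat_lit 1) (.e (nat_lit 161254) (nat_lit 0) .nil) .nil))) 
(.lf (nat_lit 498204) (.g (nat_lit 2471) (.e (nat_lit 163962) (nat_lit 25) (.e (nat_lit 532500) (nat_lit 1) (.e (nat_lit 57926) (nat_lit 282) (.e (nat_lit 163871) (nat_lit 2) (.e (nat_lit 196670) (nat_lit 14) (.e (nat_lit 73746) (nat_lit 3) (.e (nat_lit 516126) (nat_lit 2) (.e (nat_lit 213033) (nat_lit 12) .nil)))))))) (.g (nat_lit 1) (.e (nat_lit 163686) (nat_lit 0) .nil) .nil)))) 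
(.nd (nat_lit 9) 
(.lf (nat_lit 497948) (.g (nat_lit 1979) (.e (nat_lit 163943) (nat_lit 19) (.e (nat_lit 483393) (nat_lit 23) (.e (nat_lit 336025) (nat_lit 3) (.e (nat_lit 98317) (nat_lit 9) (.e (nat_lit 335988) (nat_lit 1) (.e (nat_lit 57927) (nat_lit 282) .nil)))))) (.g (nat_lit 1) (.e (nat_lit 162745) (nat_lit 0) .nil) .nil))) 
(.lf (nat_lit 498460) (.g (nat_lit 3407) (.e (nat_lit 163962) (nat_lit 25) (.e (nat_lit 532535) (nat_lit 9) (.e (nat_lit 336226) (nat_lit 14) (.e (nat_lit 401423) (nat_lit 2) (.e (nat_lit 196668) (nat_lit 14) (.e (nat_lit 81664) (nat_lit 35) .nil)))))) (.g (nat_lit 1) (.e (nat_lit 164382) (nat_lit 0) .nil) .nil))))) (.nd (nat_lit 8) (.nd (nat_lit 9) 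
(.lf (nat_lit 497820) (.g (nat_lit 1881) (.e (nat_lit 163941) (nat_lit 19) (.e (nat_lit 483344) (nat_lit 17) (.e (nat_lit 6712) (nat_lit 360) (.e (nat_lit 163979) (nat_lit 30) (.e (nat_lit 573482) (nat_lit 13) .nil))))) (.g (nat_lit 0) (.e (nat_lit 161683) (nat_lit 0) .nil) .nil))) 
(.lf (nat_lit 498332) (.g (nat_lit 3092) (.e (nat_lit 163962) (nat_lit 25) (.e (nat_lit 532535) (nat_lit 9) (.e (nat_lit 336058) (nat_lit 7) (.e (nat_lit 319519) (nat_lit 12) (.e (nat_lit 32778) (nat_lit 5) (.e (nat_lit 1512) (nat_lit 108) (.e (nat_lit 335874) (nat_lit 0) (.e (nat_lit 6713) (nat_lit 360) .nil)))))))) (.g (nat_lit 1) (.e (nat_lit 164008) (nat_lit 0) .nil) .nil)))) (.nd (nat_lit 9) 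
(.lf (nat_lit 498076) (.g (nat_lit 3621) (.e (nat_lit 163945) (nat_lit 20) (.e (nat_lit 491569) (nat_lit 13) (.e (nat_lit 393301) (nat_lit 27) (.e (nat_lit 491560) (nat_lit 10) (.e (nat_lit 344096) (nat_lit 18) (.e (nat_lit 6938) (nat_lit 375) .nil)))))) (.g (nat_lit 1) (.e (nat_lit 163439) (nat_lit 0) .nil) .nil))) 
(.lf (nat_lit 498588) (.g (nat_lit 3751) (.e (nat_lit 163962) (nat_lit 25) (.e (nat_lit 532547) (nat_lit 11) (.e (nat_lit 352315) (nat_lit 23) (.e (nat_lit 98350) (nat_lit 24) (.e (nat_lit 409617) (nat_lit 10) (.e (nat_lit 7936) (nat_lit 315) .nil)))))) (.g (nat_lit 1) (.e (nat_lit 164614) (nat_lit 0) .nil) .nil)))))) (.nd (nat_lit 7) (.nd (nat_lit 8) (.nd (nat_lit 9) 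
(.lf (nat_lit 497756) (.g (nat_lit 3729) (.e (nat_lit 163941) (nat_lit 19) (.e (nat_lit 483341) (nat_lit 9) (.e (nat_lit 426198) (nat_lit 9) (.e (nat_lit 426436) (nat_lit 18) (.e (nat_lit 98335) (nat_lit 18) (.e (nat_lit 164332) (nat_lit 230) .nil)))))) (.g (nat_lit 1) (.e (nat_lit 161391) (nat_lit 0) .nil) .nil))) 
(.lf (nat_lit 498268) (.g (nat_lit 4962) (.e (nat_lit 163962) (nat_lit 25) (.e (nat_lit 532523) (nat_lit 7) (.e (nat_lit 319490) (nat_lit 0) (.e (nat_lit 5664) (nat_lit 312) (.e (nat_lit 2661) (nat_lit 167) (.e (nat_lit 196668) (nat_lit 14) (.e (nat_lit 81664) (nat_lit 35) .nil))))))) (.g (nat_lit 1) (.e (nat_lit 163851) (nat_lit 0) .nil) .nil)))) (.nd (nat_lit 9) 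
(.lf (nat_lit 498012) (.g (nat_lit 4413) (.e (nat_lit 163944) (nat_lit 19) (.e (nat_lit 483341) (nat_lit 9) (.e (nat_lit 426189) (nat_lit 9) (.e (nat_lit 426436) (nat_lit 18) (.e (nat_lit 98335) (nat_lit 18) (.e (nat_lit 164325) (nat_lit 230) .nil)))))) (.g (nat_lit 1) (.e (nat_lit 162993) (nat_lit 0) .nil) .nil))) 
(.lf (nat_lit 498524) (.g (nat_lit 2759) (.e (nat_lit 163962) (nat_lit 25) (.e (nat_lit 532544) (nat_lit 10) (.e (nat_lit 344131) (nat_lit 26) (.e (nat_lit 557105) (nat_lit 14) (.e (nat_lit 180252) (nat_lit 10) (.e (nat_lit 573473) (nat_lit 12) (.e (nat_lit 57508) (nat_lit 39) (.e (nat_lit 647180) (nat_lit 3) .nil)))))))) (.g (nat_lit 1) (.e (nat_lit 164482) (nat_lit 0) .nil) .nil))))) 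
(.nd (nat_lit 8) (.nd (nat_lit 9) 
(.lf (nat_lit 497884) (.g (nat_lit 3878) (.e (nat_lit 163943) (nat_lit 19) (.e (nat_lit 483337) (nat_lit 9) (.e (nat_lit 426189) (nat_lit 9) (.e (nat_lit 426436) (nat_lit 18) (.e (nat_lit 98335) (nat_lit 18) (.e (nat_lit 164332) (nat_lit 230) .nil)))))) (.g (nat_lit 1) (.e (nat_lit 162138) (nat_lit 0) .nil) .nil))) 
(.lf (nat_lit 498396) (.g (nat_lit 1470) (.e (nat_lit 163962) (nat_lit 25) (.e (nat_lit 532535) (nat_lit 9) (.e (nat_lit 336176) (nat_lit 10) (.e (nat_lit 344096) (nat_lit 18) .nil)))) (.g (nat_lit 0) (.e (nat_lit 164187) (nat_lit 0) .nil) .nil)))) (.nd (nat_lit 9) 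
(.lf (nat_lit 498140) (.g (nat_lit 1972) (.e (nat_lit 163950) (nat_lit 21) (.e (nat_lit 500079) (nat_lit 20) (.e (nat_lit 81922) (nat_lit 0) (.e (nat_lit 3305) (nat_lit 202) (.e (nat_lit 573489) (nat_lit 14) (.e (nat_lit 81664) (nat_lit 35) .nil)))))) (.g (nat_lit 1) (.e (nat_lit 163540) (nat_lit 0) .nil) .nil))) 
(.lf (nat_lit 498652) (.g (nat_lit 3785) (.e (nat_lit 163962) (nat_lit 25) (.e (nat_lit 532549) (nat_lit 12) (.e (nat_lit 360475) (nat_lit 8) (.e (nat_lit 557085) (nat_lit 11) (.e (nat_lit 24580) (nat_lit 0) .nil))))) (.g (nat_lit 0) (.e (nat_lit 164787) (nat_lit 0) .nil) .nil))))))) (.nd (nat_lit 6) (.nd (nat_lit 7) (.nd (nat_lit 8) (.nd (nat_lit 9) 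
(.lf (nat_lit 497724) (.g (nat_lit 3630) (.e (nat_lit 163941) (nat_lit 19) (.e (nat_lit 483341) (nat_lit 9) (.e (nat_lit 426188) (nat_lit 9) (.e (nat_lit 426436) (nat_lit 18) (.e (nat_lit 98335) (nat_lit 18) (.e (nat_lit 164326) (nat_lit 230) .nil)))))) (.g (nat_lit 1) (.e (nat_lit 161302) (nat_lit 0) .nil) .nil))) 
(.lf (nat_lit 498236) (.g (nat_lit 3980) (.e (nat_lit 163962) (nat_lit 25) (.e (nat_lit 532513) (nat_lit 3) (.e (nat_lit 114714) (nat_lit 22) (.e (nat_lit 90172) (nat_lit 14) (.e (nat_lit 180244) (nat_lit 5) (.e (nat_lit 532499) (nat_lit 1) (.e (nat_lit 57665) (nat_lit 152) (.e (nat_lit 7936) (nat_lit 163) .nil)))))))) (.g (nat_lit 1) (.e (nat_lit 163747) (nat_lit 0) .nil) .nil)))) 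
(.nd (nat_lit 9) 
(.lf (nat_lit 497980) (.g (nat_lit 2102) (.e (nat_lit 163943) (nat_lit 19) (.e (nat_lit 483411) (nat_lit 27) (.e (nat_lit 401414) (nat_lit 0) (.e (nat_lit 3304) (nat_lit 202) .nil)))) (.g (nat_lit 0) (.e (nat_lit 162821) (nat_lit 0) .nil) .nil))) 
(.lf (nat_lit 498492) (.g (nat_lit 2145) (.e (nat_lit 163962) (nat_lit 25) (.e (nat_lit 532543) (nat_lit 10) (.e (nat_lit 344133) (nat_lit 26) (.e (nat_lit 557103) (nat_lit 14) (.e (nat_lit 188160) (nat_lit 1) (.e (nat_lit 499910) (nat_lit 8) (.e (nat_lit 164021) (nat_lit 46) (.e (nat_lit 704588) (nat_lit 3) .nil)))))))) (.g (nat_lit 1) (.e (nat_lit 164445) (nat_lit 0) .nil) .nil))))) 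
(.nd (nat_lit 8) (.nd (nat_lit 9) 
(.lf (nat_lit 497852) (.g (nat_lit 1760) (.e (nat_lit 163942) (nat_lit 19) (.e (nat_lit 483340) (nat_lit 9) (.e (nat_lit 426198) (nat_lit 9) (.e (nat_lit 426436) (nat_lit 18) (.e (nat_lit 98335) (nat_lit 18) (.e (nat_lit 164329) (nat_lit 230) .nil)))))) (.g (nat_lit 1) (.e (nat_lit 161881) (nat_lit 0) .nil) .nil))) 
(.lf (nat_lit 498364) (.g (nat_lit 767) (.e (nat_lit 163962) (nat_lit 25) (.e (nat_lit 532535) (nat_lit 9) (.e (nat_lit 336110) (nat_lit 9) .nil))) (.g (nat_lit 0) (.e (nat_lit 164116) (nat_lit 0) .nil) .nil)))) (.nd (nat_lit 9) 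
(.lf (nat_lit 498108) (.g (nat_lit 2340) (.e (nat_lit 163946) (nat_lit 20) (.e (nat_lit 491566) (nat_lit 12) (.e (nat_lit 385105) (nat_lit 50) (.e (nat_lit 786483) (nat_lit 30) (.e (nat_lit 368384) (nat_lit 0) .nil))))) (.g (nat_lit 0) (.e (nat_lit 163499) (nat_lit 0) .nil) .nil))) 
(.lf (nat_lit 498620) (.g (nat_lit 1224) (.e (nat_lit 163962) (nat_lit 25) (.e (nat_lit 532549) (nat_lit 12) (.e (nat_lit 360467) (nat_lit 3) (.e (nat_lit 516142) (nat_lit 8) .nil)))) (.g (nat_lit 0) (.e (nat_lit 164714) (nat_lit 0) .nil) .nil)))))) (.nd (nat_lit 7) (.nd (nat_lit 8) (.nd (nat_lit 9) 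
(.lf (nat_lit 497788) (.g (nat_lit 4418) (.e (nat_lit 163941) (nat_lit 19) (.e (nat_lit 483341) (nat_lit 9) (.e (nat_lit 426305) (nat_lit 12) (.e (nat_lit 475179) (nat_lit 24) (.e (nat_lit 516120) (nat_lit 1) (.e (nat_lit 164330) (nat_lit 230) .nil)))))) (.g (nat_lit 1) (.e (nat_lit 161470) (nat_lit 0) .nil) .nil))) 
(.lf (nat_lit 498300) (.g (nat_lit 2715) (.e (nat_lit 163962) (nat_lit 25) (.e (nat_lit 532523) (nat_lit 7) (.e (nat_lit 319533) (nat_lit 16) (.e (nat_lit 286734) (nat_lit 3) (.e (nat_lit 98350) (nat_lit 24) .nil))))) (.g (nat_lit 0) (.e (nat_lit 163903) (nat_lit 0) .nil) .nil)))) (.nd (nat_lit 9) 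
(.lf (nat_lit 498044) (.g (nat_lit 1186) (.e (nat_lit 163945) (nat_lit 20) (.e (nat_lit 491566) (nat_lit 12) (.e (nat_lit 385104) (nat_lit 50) (.e (nat_lit 786481) (nat_lit 30) .nil)))) (.g (nat_lit 0) (.e (nat_lit 163407) (nat_lit 0) .nil) .nil))) 
(.lf (nat_lit 498556) (.g (nat_lit 1316) (.e (nat_lit 163962) (nat_lit 25) (.e (nat_lit 532544) (nat_lit 10) (.e (nat_lit 344133) (nat_lit 26) (.e (nat_lit 557105) (nat_lit 14) .nil)))) (.g (nat_lit 0) (.e (nat_lit 164514) (nat_lit 0) .nil) .nil))))) (.nd (nat_lit 8) (.nd (nat_lit 9) 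
(.lf (nat_lit 497916) (.g (nat_lit 2947) (.e (nat_lit 163943) (nat_lit 19) (.e (nat_lit 483341) (nat_lit 9) (.e (nat_lit 426198) (nat_lit 9) (.e (nat_lit 426436) (nat_lit 18) (.e (nat_lit 98335) (nat_lit 18) (.e (nat_lit 164325) (nat_lit 230) .nil)))))) (.g (nat_lit 1) (.e (nat_lit 162298) (nat_lit 0) .nil) .nil))) 
(.lf (nat_lit 498428) (.g (nat_lit 3099) (.e (nat_lit 163962) (nat_lit 25) (.e (nat_lit 532535) (nat_lit 9) (.e (nat_lit 336176) (nat_lit 10) (.e (nat_lit 344130) (nat_lit 26) (.e (nat_lit 557087) (nat_lit 11) (.e (nat_lit 24595) (nat_lit 0) (.e (nat_lit 7936) (nat_lit 360) .nil))))))) (.g (nat_lit 1) (.e (nat_lit 164275) (nat_lit 0) .nil) .nil)))) (.nd (nat_lit 9) 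
(.lf (nat_lit 498172) (.g (nat_lit 2087) (.e (nat_lit 163962) (nat_lit 25) (.e (nat_lit 532482) (nat_lit 0) (.e (nat_lit 6724) (nat_lit 362) (.e (nat_lit 180243) (nat_lit 5) (.e (nat_lit 532523) (nat_lit 7) (.e (nat_lit 319504) (nat_lit 10) (.e (nat_lit 7936) (nat_lit 315) .nil))))))) (.g (nat_lit 1) (.e (nat_lit 163615) (nat_lit 0) .nil) .nil))) 
(.lf (nat_lit 498684) (.g (nat_lit 1864) (.e (nat_lit 163962) (nat_lit 25) (.e (nat_lit 532550) (nat_lit 12) (.e (nat_lit 360474) (nat_lit 8) (.e (nat_lit 557070) (nat_lit 9) (.e (nat_lit 7936) (nat_lit 21) .nil))))) (.g (nat_lit 0) (.e (nat_lit 164854) (nat_lit 0) .nil) .nil))))))))))) 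
(.nd (nat_lit 2) (.nd (nat_lit 3) (.nd (nat_lit 4) (.nd (nat_lit 5) (.nd (nat_lit 6) 
(.nd (nat_lit 7) (.nd (nat_lit 8) (.nd (nat_lit 9) 
(.lf (nat_lit 497666) (.g (nat_lit 2628) (.e (nat_lit 163941) (nat_lit 19) (.e (nat_lit 483339) (nat_lit 9) (.e (nat_lit 426230) (nat_lit 9) (.e (nat_lit 426435) (nat_lit 18) (.e (nat_lit 98335) (nat_lit 18) (.e (nat_lit 164330) (nat_lit 230) .nil)))))) (.g (nat_lit 1) (.e (nat_lit 161226) (nat_lit 0) .nil) .nil))) 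
(.lf (nat_lit 498178) (.g (nat_lit 2437) (.e (nat_lit 163962) (nat_lit 25) (.e (nat_lit 532499) (nat_lit 1) (.e (nat_lit 57847) (nat_lit 252) (.e (nat_lit 57448) (nat_lit 19) .nil)))) (.g (nat_lit 0) (.e (nat_lit 163623) (nat_lit 0) .nil) .nil)))) (.nd (nat_lit 9) 
(.lf (nat_lit 497922) (.g (nat_lit 742) (.e (nat_lit 163943) (nat_lit 19) (.e (nat_lit 483341) (nat_lit 9) (.e (nat_lit 426258) (nat_lit 9) .nil))) (.g (nat_lit 0) (.e (nat_lit 162335) (nat_lit 0) .nil) .nil))) 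
(.lf (nat_lit 498434) (.g (nat_lit 1976) (.e (nat_lit 163962) (nat_lit 25) (.e (nat_lit 532535) (nat_lit 9) (.e (nat_lit 336176) (nat_lit 10) (.e (nat_lit 344132) (nat_lit 26) (.e (nat_lit 557073) (nat_lit 9) (.e (nat_lit 7936) (nat_lit 19) (.e (nat_lit 319491) (nat_lit 0) (.e (nat_lit 5761) (nat_lit 315) .nil)))))))) (.g (nat_lit 1) (.e (nat_lit 164291) (nat_lit 0) .nil) .nil))))) 
(.nd (nat_lit 8) (.nd (nat_lit 9) 
(.lf (nat_lit 497794) (.g (nat_lit 3786) (.e (nat_lit 163941) (nat_lit 19) (.e (nat_lit 483341) (nat_lit 9) (.e (nat_lit 426307) (nat_lit 12) (.e (nat_lit 475179) (nat_lit 24) (.e (nat_lit 516117) (nat_lit 1) (.e (nat_lit 164332) (nat_lit 230) .nil)))))) (.g (nat_lit 1) (.e (nat_lit 161512) (nat_lit 0) .nil) .nil))) 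
(.lf (nat_lit 498306) (.g (nat_lit 1458) (.e (nat_lit 163962) (nat_lit 25) (.e (nat_lit 532523) (nat_lit 7) (.e (nat_lit 319534) (nat_lit 16) (.e (nat_lit 286735) (nat_lit 3) .nil)))) (.g (nat_lit 0) (.e (nat_lit 163909) (nat_lit 0) .nil) .nil)))) (.nd (nat_lit 9) 
(.lf (nat_lit 498050) (.g (nat_lit 2003) (.e (nat_lit 163945) (nat_lit 20) (.e (nat_lit 491566) (nat_lit 12) (.e (nat_lit 385105) (nat_lit 50) (.e (nat_lit 786481) (nat_lit 30) (.e (nat_lit 360455) (nat_lit 0) .nil))))) (.g (nat_lit 0) (.e (nat_lit 163413) (nat_lit 0) .nil) .nil))) 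
(.lf (nat_lit 498562) (.g (nat_lit 4435) (.e (nat_lit 163962) (nat_lit 25) (.e (nat_lit 532544) (nat_lit 10) (.e (nat_lit 344133) (nat_lit 26) (.e (nat_lit 557105) (nat_lit 14) (.e (nat_lit 180252) (nat_lit 10) (.e (nat_lit 573474) (nat_lit 12) (.e (nat_lit 57508) (nat_lit 39) (.e (nat_lit 647180) (nat_lit 3) .nil)))))))) (.g (nat_lit 1) (.e (nat_lit 164520) (nat_lit 0) .nil) .nil)))))) 
(.nd (nat_lit 7) (.nd (nat_lit 8) (.nd (nat_lit 9) 
(.lf (nat_lit 497730) (.g (nat_lit 3472) (.e (nat_lit 163941) (nat_lit 19) (.e (nat_lit 483341) (nat_lit 9) (.e (nat_lit 426190) (nat_lit 9) (.e (nat_lit 426436) (nat_lit 18) (.e (nat_lit 98335) (nat_lit 18) (.e (nat_lit 164322) (nat_lit 230) .nil)))))) (.g (nat_lit 1) (.e (nat_lit 161324) (nat_lit 0) .nil) .nil))) 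
(.lf (nat_lit 498242) (.g (nat_lit 3480) (.e (nat_lit 163962) (nat_lit 25) (.e (nat_lit 532513) (nat_lit 3) (.e (nat_lit 114714) (nat_lit 22) (.e (nat_lit 90172) (nat_lit 14) (.e (nat_lit 180244) (nat_lit 5) (.e (nat_lit 532501) (nat_lit 1) (.e (nat_lit 57665) (nat_lit 152) (.e (nat_lit 7936) (nat_lit 163) .nil)))))))) (.g (nat_lit 1) (.e (nat_lit 163757) (nat_lit 0) .nil) .nil)))) 
(.nd (nat_lit 9) 
(.lf (nat_lit 497986) (.g (nat_lit 1625) (.e (nat_lit 163943) (nat_lit 19) (.e (nat_lit 483413) (nat_lit 27) (.e (nat_lit 401414) (nat_lit 0) (.e (nat_lit 3304) (nat_lit 202) .nil)))) (.g (nat_lit 0) (.e (nat_lit 162857) (nat_lit 0) .nil) .nil))) 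
(.lf (nat_lit 498498) (.g (nat_lit 2280) (.e (nat_lit 163962) (nat_lit 25) (.e (nat_lit 532544) (nat_lit 10) (.e (nat_lit 344129) (nat_lit 26) (.e (nat_lit 557097) (nat_lit 13) (.e (nat_lit 172132) (nat_lit 15) .nil))))) (.g (nat_lit 0) (.e (nat_lit 164456) (nat_lit 0) .nil) .nil))))) (.nd (nat_lit 8) (.nd (nat_lit 9) 
(.lf (nat_lit 497858) (.g (nat_lit 3476) (.e (nat_lit 163942) (nat_lit 19) (.e (nat_lit 483341) (nat_lit 9) (.e (nat_lit 426188) (nat_lit 9) (.e (nat_lit 426436) (nat_lit 18) (.e (nat_lit 98335) (nat_lit 18) (.e (nat_lit 164332) (nat_lit 230) .nil)))))) (.g (nat_lit 1) (.e (nat_lit 161893) (nat_lit 0) .nil) .nil))) 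
(.lf (nat_lit 498370) (.g (nat_lit 4769) (.e (nat_lit 163962) (nat_lit 25) (.e (nat_lit 532535) (nat_lit 9) (.e (nat_lit 336110) (nat_lit 9) (.e (nat_lit 336028) (nat_lit 3) (.e (nat_lit 98350) (nat_lit 24) (.e (nat_lit 409617) (nat_lit 10) (.e (nat_lit 5762) (nat_lit 315) .nil))))))) (.g (nat_lit 1) (.e (nat_lit 164124) (nat_lit 0) .nil) .nil)))) (.nd (nat_lit 9) 
(.lf (nat_lit 498114) (.g (nat_lit 2641) (.e (nat_lit 163946) (nat_lit 20) (.e (nat_lit 491571) (nat_lit 13) (.e (nat_lit 393299) (nat_lit 27) (.e (nat_lit 491560) (nat_lit 10) (.e (nat_lit 344088) (nat_lit 18) .nil))))) (.g (nat_lit 0) (.e (nat_lit 163512) (nat_lit 0) .nil) .nil))) 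
(.lf (nat_lit 498626) (.g (nat_lit 353) (.e (nat_lit 163962) (nat_lit 25) (.e (nat_lit 532549) (nat_lit 12) (.e (nat_lit 360473) (nat_lit 8) .nil))) (.g (nat_lit 0) (.e (nat_lit 164720) (nat_lit 0) .nil) .nil))))))) (.nd (nat_lit 6) (.nd (nat_lit 7) (.nd (nat_lit 8) (.nd (nat_lit 9) 
(.lf (nat_lit 497698) (.g (nat_lit 2560) (.e (nat_lit 163941) (nat_lit 19) (.e (nat_lit 483339) (nat_lit 9) (.e (nat_lit 426318) (nat_lit 12) (.e (nat_lit 475179) (nat_lit 24) (.e (nat_lit 516117) (nat_lit 1) (.e (nat_lit 164329) (nat_lit 230) .nil)))))) (.g (nat_lit 1) (.e (nat_lit 161261) (nat_lit 0) .nil) .nil))) 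
(.lf (nat_lit 498210) (.g (nat_lit 2665) (.e (nat_lit 163962) (nat_lit 25) (.e (nat_lit 532500) (nat_lit 1) (.e (nat_lit 57926) (nat_lit 282) (.e (nat_lit 163875) (nat_lit 3) (.e (nat_lit 204863) (nat_lit 27) (.e (nat_lit 344117) (nat_lit 21) (.e (nat_lit 516123) (nat_lit 2) (.e (nat_lit 213033) (nat_lit 12) .nil)))))))) (.g (nat_lit 1) (.e (nat_lit 163692) (nat_lit 0) .nil) .nil)))) 
(.nd (nat_lit 9) 
(.lf (nat_lit 497954) (.g (nat_lit 3384) (.e (nat_lit 163943) (nat_lit 19) (.e (nat_lit 483394) (nat_lit 24) (.e (nat_lit 344117) (nat_lit 21) (.e (nat_lit 516195) (nat_lit 26) (.e (nat_lit 335988) (nat_lit 1) (.e (nat_lit 57927) (nat_lit 282) .nil)))))) (.g (nat_lit 1) (.e (nat_lit 162751) (nat_lit 0) .nil) .nil))) 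
(.lf (nat_lit 498466) (.g (nat_lit 3118) (.e (nat_lit 163962) (nat_lit 25) (.e (nat_lit 532535) (nat_lit 9) (.e (nat_lit 336226) (nat_lit 14) (.e (nat_lit 401425) (nat_lit 2) (.e (nat_lit 196622) (nat_lit 9) (.e (nat_lit 1512) (nat_lit 108) (.e (nat_lit 335874) (nat_lit 0) (.e (nat_lit 6713) (nat_lit 360) .nil)))))))) (.g (nat_lit 1) (.e (nat_lit 164388) (nat_lit 0) .nil) .nil))))) 
(.nd (nat_lit 8) (.nd (nat_lit 9) 
(.lf (nat_lit 497826) (.g (nat_lit 1772) (.e (nat_lit 163941) (nat_lit 19) (.e (nat_lit 483346) (nat_lit 17) (.e (nat_lit 6712) (nat_lit 360) (.e (nat_lit 163976) (nat_lit 30) (.e (nat_lit 573481) (nat_lit 13) .nil))))) (.g (nat_lit 0) (.e (nat_lit 161726) (nat_lit 0) .nil) .nil))) 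
(.lf (nat_lit 498338) (.g (nat_lit 2932) (.e (nat_lit 163962) (nat_lit 25) (.e (nat_lit 532535) (nat_lit 9) (.e (nat_lit 336061) (nat_lit 7) (.e (nat_lit 319519) (nat_lit 12) (.e (nat_lit 32774) (nat_lit 5) (.e (nat_lit 1396) (nat_lit 106) (.e (nat_lit 319493) (nat_lit 0) (.e (nat_lit 5761) (nat_lit 315) .nil)))))))) (.g (nat_lit 1) (.e (nat_lit 164023) (nat_lit 0) .nil) .nil)))) (.nd (nat_lit 9) 
(.lf (nat_lit 498082) (.g (nat_lit 2579) (.e (nat_lit 163945) (nat_lit 20) (.e (nat_lit 491571) (nat_lit 13) (.e (nat_lit 393299) (nat_lit 27) (.e (nat_lit 491560) (nat_lit 10) (.e (nat_lit 344088) (nat_lit 18) .nil))))) (.g (nat_lit 0) (.e (nat_lit 163467) (nat_lit 0) .nil) .nil))) 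
(.lf (nat_lit 498594) (.g (nat_lit 1223) (.e (nat_lit 163962) (nat_lit 25) (.e (nat_lit 532549) (nat_lit 12) (.e (nat_lit 360466) (nat_lit 3) (.e (nat_lit 516138) (nat_lit 7) .nil)))) (.g (nat_lit 0) (.e (nat_lit 164658) (nat_lit 0) .nil) .nil)))))) (.nd (nat_lit 7) (.nd (nat_lit 8) (.nd (nat_lit 9) 
(.lf (nat_lit 497762) (.g (nat_lit 4385) (.e (nat_lit 163941) (nat_lit 19) (.e (nat_lit 483341) (nat_lit 9) (.e (nat_lit 426199) (nat_lit 9) (.e (nat_lit 426436) (nat_lit 18) (.e (nat_lit 98335) (nat_lit 18) (.e (nat_lit 164327) (nat_lit 230) .nil)))))) (.g (nat_lit 1) (.e (nat_lit 161408) (nat_lit 0) .nil) .nil))) 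
(.lf (nat_lit 498274) (.g (nat_lit 4338) (.e (nat_lit 163962) (nat_lit 25) (.e (nat_lit 532523) (nat_lit 7) (.e (nat_lit 319490) (nat_lit 0) (.e (nat_lit 5664) (nat_lit 312) (.e (nat_lit 2679) (nat_lit 168) (.e (nat_lit 204846) (nat_lit 24) (.e (nat_lit 319492) (nat_lit 0) (.e (nat_lit 5761) (nat_lit 315) .nil)))))))) (.g (nat_lit 1) (.e (nat_lit 163857) (nat_lit 0) .nil) .nil)))) 
(.nd (nat_lit 9) 
(.lf (nat_lit 498018) (.g (nat_lit 3408) (.e (nat_lit 163944) (nat_lit 19) (.e (nat_lit 483341) (nat_lit 9) (.e (nat_lit 426198) (nat_lit 9) (.e (nat_lit 426436) (nat_lit 18) (.e (nat_lit 98335) (nat_lit 18) (.e (nat_lit 164325) (nat_lit 230) .nil)))))) (.g (nat_lit 1) (.e (nat_lit 163023) (nat_lit 0) .nil) .nil))) 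
(.lf (nat_lit 498530) (.g (nat_lit 2300) (.e (nat_lit 163962) (nat_lit 25) (.e (nat_lit 532544) (nat_lit 10) (.e (nat_lit 344133) (nat_lit 26) (.e (nat_lit 557096) (nat_lit 13) (.e (nat_lit 172132) (nat_lit 15) .nil))))) (.g (nat_lit 0) (.e (nat_lit 164488) (nat_lit 0) .nil) .nil))))) (.nd (nat_lit 8) (.nd (nat_lit 9) 
(.lf (nat_lit 497890) (.g (nat_lit 3513) (.e (nat_lit 163943) (nat_lit 19) (.e (nat_lit 483337) (nat_lit 9) (.e (nat_lit 426200) (nat_lit 9) (.e (nat_lit 426436) (nat_lit 18) (.e (nat_lit 98335) (nat_lit 18) (.e (nat_lit 164325) (nat_lit 230) .nil)))))) (.g (nat_lit 1) (.e (nat_lit 162160) (nat_lit 0) .nil) .nil))) 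
(.lf (nat_lit 498402) (.g (nat_lit 1096) (.e (nat_lit 163962) (nat_lit 25) (.e (nat_lit 532535) (nat_lit 9) (.e (nat_lit 336176) (nat_lit 10) (.e (nat_lit 344126) (nat_lit 25) .nil)))) (.g (nat_lit 0) (.e (nat_lit 164206) (nat_lit 0) .nil) .nil)))) (.nd (nat_lit 9) 
(.lf (nat_lit 498146) (.g (nat_lit 1623) (.e (nat_lit 163950) (nat_lit 21) (.e (nat_lit 507648) (nat_lit 22) (.e (nat_lit 131116) (nat_lit 9) (.e (nat_lit 336012) (nat_lit 2) (.e (nat_lit 90181) (nat_lit 16) (.e (nat_lit 229577) (nat_lit 179) (.e (nat_lit 171776) (nat_lit 249) .nil))))))) (.g (nat_lit 1) (.e (nat_lit 163546) (nat_lit 0) .nil) .nil))) 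
(.lf (nat_lit 498658) (.g (nat_lit 3471) (.e (nat_lit 163962) (nat_lit 25) (.e (nat_lit 532549) (nat_lit 12) (.e (nat_lit 360475) (nat_lit 8) (.e (nat_lit 557087) (nat_lit 11) (.e (nat_lit 24578) (nat_lit 0) .nil))))) (.g (nat_lit 0) (.e (nat_lit 164793) (nat_lit 0) .nil) .nil)))))))) (.nd (nat_lit 5) (.nd (nat_lit 6) (.nd (nat_lit 7) (.nd (nat_lit 8) (.nd (nat_lit 9) 
(.lf (nat_lit 497682) (.g (nat_lit 2638) (.e (nat_lit 163941) (nat_lit 19) (.e (nat_lit 483339) (nat_lit 9) (.e (nat_lit 426260) (nat_lit 9) (.e (nat_lit 426435) (nat_lit 18) (.e (nat_lit 98335) (nat_lit 18) (.e (nat_lit 164330) (nat_lit 230) .nil)))))) (.g (nat_lit 1) (.e (nat_lit 161243) (nat_lit 0) .nil) .nil))) 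
(.lf (nat_lit 498194) (.g (nat_lit 2997) (.e (nat_lit 163962) (nat_lit 25) (.e (nat_lit 532499) (nat_lit 1) (.e (nat_lit 57931) (nat_lit 282) (.e (nat_lit 163874) (nat_lit 3) (.e (nat_lit 204862) (nat_lit 27) .nil))))) (.g (nat_lit 0) (.e (nat_lit 163665) (nat_lit 0) .nil) .nil)))) (.nd (nat_lit 9) 
(.lf (nat_lit 497938) (.g (nat_lit 1563) (.e (nat_lit 163943) (nat_lit 19) (.e (nat_lit 483392) (nat_lit 23) (.e (nat_lit 336021) (nat_lit 3) (.e (nat_lit 98313) (nat_lit 9) .nil)))) (.g (nat_lit 0) (.e (nat_lit 162701) (nat_lit 0) .nil) .nil))) 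
(.lf (nat_lit 498450) (.g (nat_lit 3108) (.e (nat_lit 163962) (nat_lit 25) (.e (nat_lit 532535) (nat_lit 9) (.e (nat_lit 336177) (nat_lit 10) (.e (nat_lit 344117) (nat_lit 21) (.e (nat_lit 516139) (nat_lit 7) (.e (nat_lit 409617) (nat_lit 10) (.e (nat_lit 7936) (nat_lit 315) .nil))))))) (.g (nat_lit 1) (.e (nat_lit 164338) (nat_lit 0) .nil) .nil))))) (.nd (nat_lit 8) (.nd (nat_lit 9) 
(.lf (nat_lit 497810) (.g (nat_lit 4121) (.e (nat_lit 163941) (nat_lit 19) (.e (nat_lit 483341) (nat_lit 9) (.e (nat_lit 426315) (nat_lit 12) (.e (nat_lit 475179) (nat_lit 24) (.e (nat_lit 516120) (nat_lit 1) (.e (nat_lit 164330) (nat_lit 230) .nil)))))) (.g (nat_lit 1) (.e (nat_lit 161628) (nat_lit 0) .nil) .nil))) 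
(.lf (nat_lit 498322) (.g (nat_lit 1920) (.e (nat_lit 163962) (nat_lit 25) (.e (nat_lit 532526) (nat_lit 8) (.e (nat_lit 327699) (nat_lit 8) (.e (nat_lit 303118) (nat_lit 3) (.e (nat_lit 204849) (nat_lit 25) (.e (nat_lit 327681) (nat_lit 0) (.e (nat_lit 5762) (nat_lit 315) .nil))))))) (.g (nat_lit 1) (.e (nat_lit 163931) (nat_lit 0) .nil) .nil)))) (.nd (nat_lit 9) 
(.lf (nat_lit 498066) (.g (nat_lit 3192) (.e (nat_lit 163945) (nat_lit 20) (.e (nat_lit 491568) (nat_lit 13) (.e (nat_lit 393301) (nat_lit 27) (.e (nat_lit 491560) (nat_lit 10) (.e (nat_lit 344096) (nat_lit 18) (.e (nat_lit 6938) (nat_lit 375) .nil)))))) (.g (nat_lit 1) (.e (nat_lit 163429) (nat_lit 0) .nil) .nil))) 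
(.lf (nat_lit 498578) (.g (nat_lit 1941) (.e (nat_lit 163962) (nat_lit 25) (.e (nat_lit 532547) (nat_lit 11) (.e (nat_lit 352315) (nat_lit 23) (.e (nat_lit 98349) (nat_lit 24) (.e (nat_lit 409612) (nat_lit 10) .nil))))) (.g (nat_lit 0) (.e (nat_lit 164604) (nat_lit 0) .nil) .nil)))))) (.nd (nat_lit 7) (.nd (nat_lit 8) (.nd (nat_lit 9) 
(.lf (nat_lit 497746) (.g (nat_lit 3632) (.e (nat_lit 163941) (nat_lit 19) (.e (nat_lit 483341) (nat_lit 9) (.e (nat_lit 426197) (nat_lit 9) (.e (nat_lit 426436) (nat_lit 18) (.e (nat_lit 98335) (nat_lit 18) (.e (nat_lit 164332) (nat_lit 230) .nil)))))) (.g (nat_lit 1) (.e (nat_lit 161360) (nat_lit 0) .nil) .nil))) 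
(.lf (nat_lit 498258) (.g (nat_lit 4070) (.e (nat_lit 163962) (nat_lit 25) (.e (nat_lit 532513) (nat_lit 3) (.e (nat_lit 114714) (nat_lit 22) (.e (nat_lit 90174) (nat_lit 14) (.e (nat_lit 180243) (nat_lit 5) (.e (nat_lit 532503) (nat_lit 1) (.e (nat_lit 57654) (nat_lit 152) (.e (nat_lit 2615) (nat_lit 163) .nil)))))))) (.g (nat_lit 1) (.e (nat_lit 163782) (nat_lit 0) .nil) .nil)))) 
(.nd (nat_lit 9) 
(.lf (nat_lit 498002) (.g (nat_lit 1976) (.e (nat_lit 163944) (nat_lit 19) (.e (nat_lit 483339) (nat_lit 9) (.e (nat_lit 426260) (nat_lit 9) (.e (nat_lit 426435) (nat_lit 18) (.e (nat_lit 98335) (nat_lit 18) (.e (nat_lit 164327) (nat_lit 230) .nil)))))) (.g (nat_lit 1) (.e (nat_lit 162966) (nat_lit 0) .nil) .nil))) 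
(.lf (nat_lit 498514) (.g (nat_lit 3047) (.e (nat_lit 163962) (nat_lit 25) (.e (nat_lit 532544) (nat_lit 10) (.e (nat_lit 344130) (nat_lit 26) (.e (nat_lit 557103) (nat_lit 14) (.e (nat_lit 180243) (nat_lit 5) (.e (nat_lit 532501) (nat_lit 1) (.e (nat_lit 57703) (nat_lit 164) (.e (nat_lit 2601) (nat_lit 163) .nil)))))))) (.g (nat_lit 1) (.e (nat_lit 164472) (nat_lit 0) .nil) .nil))))) 
(.nd (nat_lit 8) (.nd (nat_lit 9) 
(.lf (nat_lit 497874) (.g (nat_lit 2557) (.e (nat_lit 163943) (nat_lit 19) (.e (nat_lit 483336) (nat_lit 9) (.e (nat_lit 426188) (nat_lit 9) (.e (nat_lit 426436) (nat_lit 18) (.e (nat_lit 98335) (nat_lit 18) (.e (nat_lit 164330) (nat_lit 230) .nil)))))) (.g (nat_lit 1) (.e (nat_lit 162096) (nat_lit 0) .nil) .nil))) 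
(.lf (nat_lit 498386) (.g (nat_lit 405) (.e (nat_lit 163962) (nat_lit 25) (.e (nat_lit 532535) (nat_lit 9) (.e (nat_lit 336173) (nat_lit 10) .nil))) (.g (nat_lit 0) (.e (nat_lit 164171) (nat_lit 0) .nil) .nil)))) (.nd (nat_lit 9) 
(.lf (nat_lit 498130) (.g (nat_lit 2076) (.e (nat_lit 163950) (nat_lit 21) (.e (nat_lit 500070) (nat_lit 19) (.e (nat_lit 73782) (nat_lit 32) (.e (nat_lit 2664) (nat_lit 167) (.e (nat_lit 196670) (nat_lit 14) (.e (nat_lit 81664) (nat_lit 35) .nil)))))) (.g (nat_lit 1) (.e (nat_lit 163530) (nat_lit 0) .nil) .nil))) 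
(.lf (nat_lit 498642) (.g (nat_lit 419) (.e (nat_lit 163962) (nat_lit 25) (.e (nat_lit 532549) (nat_lit 12) (.e (nat_lit 360475) (nat_lit 8) .nil))) (.g (nat_lit 0) (.e (nat_lit 164761) (nat_lit 0) .nil) .nil))))))) (.nd (nat_lit 6) (.nd (nat_lit 7) (.nd (nat_lit 8) (.nd (nat_lit 9) 
(.lf (nat_lit 497714) (.g (nat_lit 4575) (.e (nat_lit 163941) (nat_lit 19) (.e (nat_lit 483341) (nat_lit 9) (.e (nat_lit 426186) (nat_lit 9) (.e (nat_lit 426436) (nat_lit 18) (.e (nat_lit 98335) (nat_lit 18) (.e (nat_lit 164329) (nat_lit 230) .nil)))))) (.g (nat_lit 1) (.e (nat_lit 161280) (nat_lit 0) .nil) .nil))) 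
(.lf (nat_lit 498226) (.g (nat_lit 2809) (.e (nat_lit 163962) (nat_lit 25) (.e (nat_lit 532500) (nat_lit 1) (.e (nat_lit 57931) (nat_lit 282) (.e (nat_lit 163869) (nat_lit 2) (.e (nat_lit 196670) (nat_lit 14) (.e (nat_lit 73746) (nat_lit 3) (.e (nat_lit 516127) (nat_lit 2) (.e (nat_lit 213033) (nat_lit 12) .nil)))))))) (.g (nat_lit 1) (.e (nat_lit 163720) (nat_lit 0) .nil) .nil)))) 
(.nd (nat_lit 9) 
(.lf (nat_lit 497970) (.g (nat_lit 2951) (.e (nat_lit 163943) (nat_lit 19) (.e (nat_lit 483399) (nat_lit 25) (.e (nat_lit 368676) (nat_lit 21) (.e (nat_lit 516195) (nat_lit 26) (.e (nat_lit 335986) (nat_lit 1) (.e (nat_lit 57927) (nat_lit 282) .nil)))))) (.g (nat_lit 1) (.e (nat_lit 162796) (nat_lit 0) .nil) .nil))) 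
(.lf (nat_lit 498482) (.g (nat_lit 2659) (.e (nat_lit 163962) (nat_lit 25) (.e (nat_lit 532543) (nat_lit 10) (.e (nat_lit 344129) (nat_lit 26) (.e (nat_lit 557104) (nat_lit 14) (.e (nat_lit 188160) (nat_lit 1) (.e (nat_lit 499910) (nat_lit 8) (.e (nat_lit 164021) (nat_lit 46) (.e (nat_lit 704588) (nat_lit 3) .nil)))))))) (.g (nat_lit 1) (.e (nat_lit 164435) (nat_lit 0) .nil) .nil))))) 
(.nd (nat_lit 8) (.nd (nat_lit 9) 
(.lf (nat_lit 497842) (.g (nat_lit 3459) (.e (nat_lit 163941) (nat_lit 19) (.e (nat_lit 483393) (nat_lit 23) (.e (nat_lit 336021) (nat_lit 3) (.e (nat_lit 98317) (nat_lit 9) (.e (nat_lit 335996) (nat_lit 1) (.e (nat_lit 57931) (nat_lit 282) .nil)))))) (.g (nat_lit 1) (.e (nat_lit 161796) (nat_lit 0) .nil) .nil))) 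
(.lf (nat_lit 498354) (.g (nat_lit 3796) (.e (nat_lit 163962) (nat_lit 25) (.e (nat_lit 532535) (nat_lit 9) (.e (nat_lit 336099) (nat_lit 9) (.e (nat_lit 336013) (nat_lit 2) (.e (nat_lit 90130) (nat_lit 9) (.e (nat_lit 2830) (nat_lit 182) (.e (nat_lit 409617) (nat_lit 10) (.e (nat_lit 7936) (nat_lit 315) .nil)))))))) (.g (nat_lit 1) (.e (nat_lit 164066) (nat_lit 0) .nil) .nil)))) (.nd (nat_lit 9) 
(.lf (nat_lit 498098) (.g (nat_lit 1671) (.e (nat_lit 163946) (nat_lit 20) (.e (nat_lit 491566) (nat_lit 12) (.e (nat_lit 385104) (nat_lit 50) (.e (nat_lit 786481) (nat_lit 30) (.e (nat_lit 360457) (nat_lit 0) .nil))))) (.g (nat_lit 0) (.e (nat_lit 163489) (nat_lit 0) .nil) .nil))) 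
(.lf (nat_lit 498610) (.g (nat_lit 2918) (.e (nat_lit 163962) (nat_lit 25) (.e (nat_lit 532549) (nat_lit 12) (.e (nat_lit 360466) (nat_lit 3) (.e (nat_lit 516142) (nat_lit 8) (.e (nat_lit 417815) (nat_lit 10) (.e (nat_lit 5758) (nat_lit 315) .nil)))))) (.g (nat_lit 1) (.e (nat_lit 164675) (nat_lit 0) .nil) .nil)))))) (.nd (nat_lit 7) (.nd (nat_lit 8) (.nd (nat_lit 9) 
(.lf (nat_lit 497778) (.g (nat_lit 3897) (.e (nat_lit 163941) (nat_lit 19) (.e (nat_lit 483341) (nat_lit 9) (.e (nat_lit 433920) (nat_lit 9) (.e (nat_lit 426436) (nat_lit 18) (.e (nat_lit 98335) (nat_lit 18) (.e (nat_lit 164324) (nat_lit 230) .nil)))))) (.g (nat_lit 1) (.e (nat_lit 161446) (nat_lit 0) .nil) .nil))) 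
(.lf (nat_lit 498290) (.g (nat_lit 3242) (.e (nat_lit 163962) (nat_lit 25) (.e (nat_lit 532523) (nat_lit 7) (.e (nat_lit 319530) (nat_lit 16) (.e (nat_lit 286735) (nat_lit 3) (.e (nat_lit 98350) (nat_lit 24) (.e (nat_lit 409602) (nat_lit 0) (.e (nat_lit 5756) (nat_lit 315) .nil))))))) (.g (nat_lit 1) (.e (nat_lit 163893) (nat_lit 0) .nil) .nil)))) (.nd (nat_lit 9) 
(.lf (nat_lit 498034) (.g (nat_lit 1760) (.e (nat_lit 163945) (nat_lit 20) (.e (nat_lit 491566) (nat_lit 12) (.e (nat_lit 385093) (nat_lit 49) (.e (nat_lit 778326) (nat_lit 6) (.e (nat_lit 81957) (nat_lit 24) .nil))))) (.g (nat_lit 0) (.e (nat_lit 163387) (nat_lit 0) .nil) .nil))) 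
(.lf (nat_lit 498546) (.g (nat_lit 3990) (.e (nat_lit 163962) (nat_lit 25) (.e (nat_lit 532544) (nat_lit 10) (.e (nat_lit 344133) (nat_lit 26) (.e (nat_lit 557098) (nat_lit 13) (.e (nat_lit 179968) (nat_lit 15) (.e (nat_lit 1800) (nat_lit 119) (.e (nat_lit 516119) (nat_lit 1) (.e (nat_lit 164345) (nat_lit 240) (.e (nat_lit 2601) (nat_lit 163) .nil))))))))) (.g (nat_lit 1) (.e (nat_lit 164504) (nat_lit 0) .nil) .nil))))) 
(.nd (nat_lit 8) (.nd (nat_lit 9) 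
(.lf (nat_lit 497906) (.g (nat_lit 4561) (.e (nat_lit 163943) (nat_lit 19) (.e (nat_lit 483341) (nat_lit 9) (.e (nat_lit 426189) (nat_lit 9) (.e (nat_lit 426436) (nat_lit 18) (.e (nat_lit 98335) (nat_lit 18) (.e (nat_lit 164325) (nat_lit 230) .nil)))))) (.g (nat_lit 1) (.e (nat_lit 162268) (nat_lit 0) .nil) .nil))) 
(.lf (nat_lit 498418) (.g (nat_lit 2234) (.e (nat_lit 163962) (nat_lit 25) (.e (nat_lit 532535) (nat_lit 9) (.e (nat_lit 336176) (nat_lit 10) (.e (nat_lit 344130) (nat_lit 26) (.e (nat_lit 557074) (nat_lit 9) (.e (nat_lit 7936) (nat_lit 19) (.e (nat_lit 319492) (nat_lit 0) (.e (nat_lit 5761) (nat_lit 315) .nil)))))))) (.g (nat_lit 1) (.e (nat_lit 164253) (nat_lit 0) .nil) .nil)))) 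
(.nd (nat_lit 9) 
(.lf (nat_lit 498162) (.g (nat_lit 3760) (.e (nat_lit 163962) (nat_lit 25) (.e (nat_lit 532482) (nat_lit 0) (.e (nat_lit 6203) (nat_lit 332) (.e (nat_lit 2798) (nat_lit 180) (.e (nat_lit 303117) (nat_lit 2) (.e (nat_lit 196670) (nat_lit 14) (.e (nat_lit 81664) (nat_lit 35) .nil))))))) (.g (nat_lit 1) (.e (nat_lit 163603) (nat_lit 0) .nil) .nil))) 
(.lf (nat_lit 498674) (.g (nat_lit 3412) (.e (nat_lit 163962) (nat_lit 25) (.e (nat_lit 532550) (nat_lit 12) (.e (nat_lit 360467) (nat_lit 3) (.e (nat_lit 516139) (nat_lit 7) (.e (nat_lit 409617) (nat_lit 10) (.e (nat_lit 7936) (nat_lit 315) .nil)))))) (.g (nat_lit 1) (.e (nat_lit 164839) (nat_lit 0) .nil) .nil))))))))) 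
(.nd (nat_lit 4) (.nd (nat_lit 5) (.nd (nat_lit 6) (.nd (nat_lit 7) (.nd (nat_lit 8) 
(.nd (nat_lit 9) 
(.lf (nat_lit 497674) (.g (nat_lit 1991) (.e (nat_lit 163941) (nat_lit 19) (.e (nat_lit 483339) (nat_lit 9) (.e (nat_lit 426234) (nat_lit 9) (.e (nat_lit 426435) (nat_lit 18) (.e (nat_lit 98335) (nat_lit 18) (.e (nat_lit 164327) (nat_lit 230) .nil)))))) (.g (nat_lit 1) (.e (nat_lit 161234) (nat_lit 0) .nil) .nil))) 
(.lf (nat_lit 498186) (.g (nat_lit 4431) (.e (nat_lit 163962) (nat_lit 25) (.e (nat_lit 532499) (nat_lit 1) (.e (nat_lit 57927) (nat_lit 282) (.e (nat_lit 163869) (nat_lit 2) (.e (nat_lit 196670) (nat_lit 14) (.e (nat_lit 73746) (nat_lit 3) (.e (nat_lit 516124) (nat_lit 2) (.e (nat_lit 213033) (nat_lit 12) .nil)))))))) (.g (nat_lit 1) (.e (nat_lit 163647) (nat_lit 0) .nil) .nil)))) 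
(.nd (nat_lit 9) 
(.lf (nat_lit 497930) (.g (nat_lit 3790) (.e (nat_lit 163943) (nat_lit 19) (.e (nat_lit 483346) (nat_lit 17) (.e (nat_lit 6712) (nat_lit 360) (.e (nat_lit 163979) (nat_lit 30) (.e (nat_lit 573482) (nat_lit 13) (.e (nat_lit 65563) (nat_lit 1) (.e (nat_lit 57926) (nat_lit 282) .nil))))))) (.g (nat_lit 1) (.e (nat_lit 162545) (nat_lit 0) .nil) .nil))) 
(.lf (nat_lit 498442) (.g (nat_lit 3085) (.e (nat_lit 163962) (nat_lit 25) (.e (nat_lit 532535) (nat_lit 9) (.e (nat_lit 336176) (nat_lit 10) (.e (nat_lit 344133) (nat_lit 26) (.e (nat_lit 557071) (nat_lit 9) (.e (nat_lit 214) (nat_lit 19) (.e (nat_lit 319492) (nat_lit 0) (.e (nat_lit 5761) (nat_lit 315) .nil)))))))) (.g (nat_lit 1) (.e (nat_lit 164328) (nat_lit 0) .nil) .nil))))) 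
(.nd (nat_lit 8) (.nd (nat_lit 9) 
(.lf (nat_lit 497802) (.g (nat_lit 2968) (.e (nat_lit 163941) (nat_lit 19) (.e (nat_lit 483341) (nat_lit 9) (.e (nat_lit 426313) (nat_lit 12) (.e (nat_lit 475179) (nat_lit 24) (.e (nat_lit 516120) (nat_lit 1) (.e (nat_lit 164329) (nat_lit 230) .nil)))))) (.g (nat_lit 1) (.e (nat_lit 161547) (nat_lit 0) .nil) .nil))) 
(.lf (nat_lit 498314) (.g (nat_lit 1845) (.e (nat_lit 163962) (nat_lit 25) (.e (nat_lit 532526) (nat_lit 8) (.e (nat_lit 327698) (nat_lit 8) (.e (nat_lit 303118) (nat_lit 3) (.e (nat_lit 204846) (nat_lit 24) .nil))))) (.g (nat_lit 0) (.e (nat_lit 163921) (nat_lit 0) .nil) .nil)))) (.nd (nat_lit 9) 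
(.lf (nat_lit 498058) (.g (nat_lit 1532) (.e (nat_lit 163945) (nat_lit 20) (.e (nat_lit 491566) (nat_lit 12) (.e (nat_lit 385105) (nat_lit 50) (.e (nat_lit 786485) (nat_lit 32) .nil)))) (.g (nat_lit 0) (.e (nat_lit 163421) (nat_lit 0) .nil) .nil))) 
(.lf (nat_lit 498570) (.g (nat_lit 3637) (.e (nat_lit 163962) (nat_lit 25) (.e (nat_lit 532547) (nat_lit 11) (.e (nat_lit 352313) (nat_lit 23) (.e (nat_lit 98350) (nat_lit 24) (.e (nat_lit 409616) (nat_lit 10) (.e (nat_lit 5762) (nat_lit 315) .nil)))))) (.g (nat_lit 1) (.e (nat_lit 164588) (nat_lit 0) .nil) .nil)))))) (.nd (nat_lit 7) (.nd (nat_lit 8) (.nd (nat_lit 9) 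
(.lf (nat_lit 497738) (.g (nat_lit 4459) (.e (nat_lit 163941) (nat_lit 19) (.e (nat_lit 483341) (nat_lit 9) (.e (nat_lit 426196) (nat_lit 9) (.e (nat_lit 426436) (nat_lit 18) (.e (nat_lit 98335) (nat_lit 18) (.e (nat_lit 164327) (nat_lit 230) .nil)))))) (.g (nat_lit 1) (.e (nat_lit 161342) (nat_lit 0) .nil) .nil))) 
(.lf (nat_lit 498250) (.g (nat_lit 2550) (.e (nat_lit 163962) (nat_lit 25) (.e (nat_lit 532513) (nat_lit 3) (.e (nat_lit 114714) (nat_lit 22) (.e (nat_lit 90174) (nat_lit 14) (.e (nat_lit 180243) (nat_lit 5) (.e (nat_lit 532499) (nat_lit 1) (.e (nat_lit 57664) (nat_lit 152) (.e (nat_lit 7936) (nat_lit 163) .nil)))))))) (.g (nat_lit 1) (.e (nat_lit 163770) (nat_lit 0) .nil) .nil)))) 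
(.nd (nat_lit 9) 
(.lf (nat_lit 497994) (.g (nat_lit 3492) (.e (nat_lit 163944) (nat_lit 19) (.e (nat_lit 483337) (nat_lit 9) (.e (nat_lit 426188) (nat_lit 9) (.e (nat_lit 426436) (nat_lit 18) (.e (nat_lit 98335) (nat_lit 18) (.e (nat_lit 164325) (nat_lit 230) .nil)))))) (.g (nat_lit 1) (.e (nat_lit 162889) (nat_lit 0) .nil) .nil))) 
(.lf (nat_lit 498506) (.g (nat_lit 2729) (.e (nat_lit 163962) (nat_lit 25) (.e (nat_lit 532544) (nat_lit 10) (.e (nat_lit 344129) (nat_lit 26) (.e (nat_lit 557104) (nat_lit 14) (.e (nat_lit 180244) (nat_lit 5) (.e (nat_lit 532503) (nat_lit 1) (.e (nat_lit 57704) (nat_lit 164) (.e (nat_lit 2601) (nat_lit 163) .nil)))))))) (.g (nat_lit 1) (.e (nat_lit 164464) (nat_lit 0) .nil) .nil))))) 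
(.nd (nat_lit 8) (.nd (nat_lit 9) 
(.lf (nat_lit 497866) (.g (nat_lit 1519) (.e (nat_lit 163942) (nat_lit 19) (.e (nat_lit 483341) (nat_lit 9) (.e (nat_lit 426200) (nat_lit 9) (.e (nat_lit 426392) (nat_lit 15) (.e (nat_lit 1796) (nat_lit 119) .nil))))) (.g (nat_lit 0) (.e (nat_lit 161924) (nat_lit 0) .nil) .nil))) 
(.lf (nat_lit 498378) (.g (nat_lit 1125) (.e (nat_lit 163962) (nat_lit 25) (.e (nat_lit 532535) (nat_lit 9) (.e (nat_lit 336163) (nat_lit 10) (.e (nat_lit 344117) (nat_lit 21) .nil)))) (.g (nat_lit 0) (.e (nat_lit 164154) (nat_lit 0) .nil) .nil)))) (.nd (nat_lit 9) 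
(.lf (nat_lit 498122) (.g (nat_lit 1371) (.e (nat_lit 163947) (nat_lit 20) (.e (nat_lit 491560) (nat_lit 10) (.e (nat_lit 344169) (nat_lit 40) (.e (nat_lit 671746) (nat_lit 0) .nil)))) (.g (nat_lit 0) (.e (nat_lit 163520) (nat_lit 0) .nil) .nil))) 
(.lf (nat_lit 498634) (.g (nat_lit 1617) (.e (nat_lit 163962) (nat_lit 25) (.e (nat_lit 532549) (nat_lit 12) (.e (nat_lit 360473) (nat_lit 8) (.e (nat_lit 557072) (nat_lit 9) (.e (nat_lit 7936) (nat_lit 25) .nil))))) (.g (nat_lit 0) (.e (nat_lit 164745) (nat_lit 0) .nil) .nil))))))) (.nd (nat_lit 6) (.nd (nat_lit 7) (.nd (nat_lit 8) (.nd (nat_lit 9) 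
(.lf (nat_lit 497706) (.g (nat_lit 760) (.e (nat_lit 163941) (nat_lit 19) (.e (nat_lit 483341) (nat_lit 9) (.e (nat_lit 426012) (nat_lit 0) .nil))) (.g (nat_lit 0) (.e (nat_lit 161271) (nat_lit 0) .nil) .nil))) 
(.lf (nat_lit 498218) (.g (nat_lit 2592) (.e (nat_lit 163962) (nat_lit 25) (.e (nat_lit 532500) (nat_lit 1) (.e (nat_lit 57927) (nat_lit 282) (.e (nat_lit 163871) (nat_lit 2) (.e (nat_lit 196670) (nat_lit 14) (.e (nat_lit 73746) (nat_lit 3) (.e (nat_lit 516127) (nat_lit 2) (.e (nat_lit 213033) (nat_lit 12) .nil)))))))) (.g (nat_lit 1) (.e (nat_lit 163708) (nat_lit 0) .nil) .nil)))) 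
(.nd (nat_lit 9) 
(.lf (nat_lit 497962) (.g (nat_lit 1215) (.e (nat_lit 163943) (nat_lit 19) (.e (nat_lit 483398) (nat_lit 25) (.e (nat_lit 368676) (nat_lit 21) (.e (nat_lit 516194) (nat_lit 26) .nil)))) (.g (nat_lit 0) (.e (nat_lit 162787) (nat_lit 0) .nil) .nil))) 
(.lf (nat_lit 498474) (.g (nat_lit 2376) (.e (nat_lit 163962) (nat_lit 25) (.e (nat_lit 532543) (nat_lit 10) (.e (nat_lit 344117) (nat_lit 21) (.e (nat_lit 516123) (nat_lit 2) (.e (nat_lit 213033) (nat_lit 12) (.e (nat_lit 163978) (nat_lit 30) (.e (nat_lit 573478) (nat_lit 12) (.e (nat_lit 57530) (nat_lit 46) (.e (nat_lit 704589) (nat_lit 3) .nil))))))))) (.g (nat_lit 1) (.e (nat_lit 164427) (nat_lit 0) .nil) .nil))))) 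
(.nd (nat_lit 8) (.nd (nat_lit 9) 
(.lf (nat_lit 497834) (.g (nat_lit 3179) (.e (nat_lit 163941) (nat_lit 19) (.e (nat_lit 483393) (nat_lit 23) (.e (nat_lit 336021) (nat_lit 3) (.e (nat_lit 98313) (nat_lit 9) (.e (nat_lit 335988) (nat_lit 1) (.e (nat_lit 57927) (nat_lit 282) .nil)))))) (.g (nat_lit 1) (.e (nat_lit 161783) (nat_lit 0) .nil) .nil))) 
(.lf (nat_lit 498346) (.g (nat_lit 809) (.e (nat_lit 163962) (nat_lit 25) (.e (nat_lit 532535) (nat_lit 9) (.e (nat_lit 336060) (nat_lit 7) .nil))) (.g (nat_lit 0) (.e (nat_lit 164036) (nat_lit 0) .nil) .nil)))) (.nd (nat_lit 9) 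
(.lf (nat_lit 498090) (.g (nat_lit 1657) (.e (nat_lit 163946) (nat_lit 20) (.e (nat_lit 491566) (nat_lit 12) (.e (nat_lit 385093) (nat_lit 49) (.e (nat_lit 778326) (nat_lit 6) .nil)))) (.g (nat_lit 0) (.e (nat_lit 163475) (nat_lit 0) .nil) .nil))) 
(.lf (nat_lit 498602) (.g (nat_lit 4051) (.e (nat_lit 163962) (nat_lit 25) (.e (nat_lit 532549) (nat_lit 12) (.e (nat_lit 360466) (nat_lit 3) (.e (nat_lit 516139) (nat_lit 7) (.e (nat_lit 409616) (nat_lit 10) (.e (nat_lit 5763) (nat_lit 315) .nil)))))) (.g (nat_lit 1) (.e (nat_lit 164666) (nat_lit 0) .nil) .nil)))))) (.nd (nat_lit 7) (.nd (nat_lit 8) (.nd (nat_lit 9) 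
(.lf (nat_lit 497770) (.g (nat_lit 1443) (.e (nat_lit 163941) (nat_lit 19) (.e (nat_lit 483341) (nat_lit 9) (.e (nat_lit 426200) (nat_lit 9) (.e (nat_lit 426362) (nat_lit 15) (.e (nat_lit 1798) (nat_lit 119) .nil))))) (.g (nat_lit 0) (.e (nat_lit 161427) (nat_lit 0) .nil) .nil))) 
(.lf (nat_lit 498282) (.g (nat_lit 1148) (.e (nat_lit 163962) (nat_lit 25) (.e (nat_lit 532523) (nat_lit 7) (.e (nat_lit 327424) (nat_lit 6) (.e (nat_lit 286735) (nat_lit 3) (.e (nat_lit 98350) (nat_lit 24) .nil))))) (.g (nat_lit 0) (.e (nat_lit 163882) (nat_lit 0) .nil) .nil)))) (.nd (nat_lit 9) 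
(.lf (nat_lit 498026) (.g (nat_lit 3409) (.e (nat_lit 163944) (nat_lit 19) (.e (nat_lit 483393) (nat_lit 23) (.e (nat_lit 336021) (nat_lit 3) (.e (nat_lit 98313) (nat_lit 9) (.e (nat_lit 335988) (nat_lit 1) (.e (nat_lit 57926) (nat_lit 282) .nil)))))) (.g (nat_lit 1) (.e (nat_lit 163291) (nat_lit 0) .nil) .nil))) 
(.lf (nat_lit 498538) (.g (nat_lit 2837) (.e (nat_lit 163962) (nat_lit 25) (.e (nat_lit 532544) (nat_lit 10) (.e (nat_lit 344133) (nat_lit 26) (.e (nat_lit 557098) (nat_lit 13) (.e (nat_lit 172131) (nat_lit 15) .nil))))) (.g (nat_lit 0) (.e (nat_lit 164496) (nat_lit 0) .nil) .nil))))) (.nd (nat_lit 8) (.nd (nat_lit 9) 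
(.lf (nat_lit 497898) (.g (nat_lit 3150) (.e (nat_lit 163943) (nat_lit 19) (.e (nat_lit 483340) (nat_lit 9) (.e (nat_lit 426200) (nat_lit 9) (.e (nat_lit 426436) (nat_lit 18) (.e (nat_lit 98335) (nat_lit 18) (.e (nat_lit 164330) (nat_lit 230) .nil)))))) (.g (nat_lit 1) (.e (nat_lit 162236) (nat_lit 0) .nil) .nil))) 
(.lf (nat_lit 498410) (.g (nat_lit 1698) (.e (nat_lit 163962) (nat_lit 25) (.e (nat_lit 532535) (nat_lit 9) (.e (nat_lit 336176) (nat_lit 10) (.e (nat_lit 344130) (nat_lit 26) (.e (nat_lit 557064) (nat_lit 9) .nil))))) (.g (nat_lit 0) (.e (nat_lit 164217) (nat_lit 0) .nil) .nil)))) (.nd (nat_lit 9) 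
(.lf (nat_lit 498154) (.g (nat_lit 1015) (.e (nat_lit 163961) (nat_lit 25) (.e (nat_lit 532550) (nat_lit 12) (.e (nat_lit 360475) (nat_lit 8) .nil))) (.g (nat_lit 0) (.e (nat_lit 163582) (nat_lit 0) .nil) .nil))) 
(.lf (nat_lit 498666) (.g (nat_lit 1655) (.e (nat_lit 163962) (nat_lit 25) (.e (nat_lit 532550) (nat_lit 12) (.e (nat_lit 360465) (nat_lit 3) (.e (nat_lit 516139) (nat_lit 7) (.e (nat_lit 409617) (nat_lit 10) (.e (nat_lit 5762) (nat_lit 315) .nil)))))) (.g (nat_lit 1) (.e (nat_lit 164826) (nat_lit 0) .nil) .nil)))))))) 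
(.nd (nat_lit 5) (.nd (nat_lit 6) (.nd (nat_lit 7) (.nd (nat_lit 8) (.nd (nat_lit 9) 
(.lf (nat_lit 497690) (.g (nat_lit 2793) (.e (nat_lit 163941) (nat_lit 19) (.e (nat_lit 483339) (nat_lit 9) (.e (nat_lit 426261) (nat_lit 9) (.e (nat_lit 426435) (nat_lit 18) (.e (nat_lit 98335) (nat_lit 18) (.e (nat_lit 164330) (nat_lit 230) .nil)))))) (.g (nat_lit 1) (.e (nat_lit 161252) (nat_lit 0) .nil) .nil))) 
(.lf (nat_lit 498202) (.g (nat_lit 1470) (.e (nat_lit 163962) (nat_lit 25) (.e (nat_lit 532500) (nat_lit 1) (.e (nat_lit 57926) (nat_lit 282) (.e (nat_lit 163871) (nat_lit 2) .nil)))) (.g (nat_lit 0) (.e (nat_lit 163683) (nat_lit 0) .nil) .nil)))) (.nd (nat_lit 9) 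
(.lf (nat_lit 497946) (.g (nat_lit 4140) (.e (nat_lit 163943) (nat_lit 19) (.e (nat_lit 483393) (nat_lit 23) (.e (nat_lit 336021) (nat_lit 3) (.e (nat_lit 98317) (nat_lit 9) (.e (nat_lit 335988) (nat_lit 1) (.e (nat_lit 57931) (nat_lit 282) .nil)))))) (.g (nat_lit 1) (.e (nat_lit 162741) (nat_lit 0) .nil) .nil))) 
(.lf (nat_lit 498458) (.g (nat_lit 1627) (.e (nat_lit 163962) (nat_lit 25) (.e (nat_lit 532535) (nat_lit 9) (.e (nat_lit 336226) (nat_lit 14) (.e (nat_lit 401412) (nat_lit 0) .nil)))) (.g (nat_lit 0) (.e (nat_lit 164377) (nat_lit 0) .nil) .nil))))) (.nd (nat_lit 8) (.nd (nat_lit 9) 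
(.lf (nat_lit 497818) (.g (nat_lit 1365) (.e (nat_lit 163941) (nat_lit 19) (.e (nat_lit 483344) (nat_lit 17) (.e (nat_lit 6712) (nat_lit 360) (.e (nat_lit 163978) (nat_lit 30) .nil)))) (.g (nat_lit 0) (.e (nat_lit 161680) (nat_lit 0) .nil) .nil))) 
(.lf (nat_lit 498330) (.g (nat_lit 421) (.e (nat_lit 163962) (nat_lit 25) (.e (nat_lit 532535) (nat_lit 9) (.e (nat_lit 336058) (nat_lit 7) .nil))) (.g (nat_lit 0) (.e (nat_lit 163997) (nat_lit 0) .nil) .nil)))) (.nd (nat_lit 9) 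
(.lf (nat_lit 498074) (.g (nat_lit 3493) (.e (nat_lit 163945) (nat_lit 20) (.e (nat_lit 491569) (nat_lit 13) (.e (nat_lit 393301) (nat_lit 27) (.e (nat_lit 491560) (nat_lit 10) (.e (nat_lit 344090) (nat_lit 18) (.e (nat_lit 6942) (nat_lit 375) .nil)))))) (.g (nat_lit 1) (.e (nat_lit 163437) (nat_lit 0) .nil) .nil))) 
(.lf (nat_lit 498586) (.g (nat_lit 3381) (.e (nat_lit 163962) (nat_lit 25) (.e (nat_lit 532547) (nat_lit 11) (.e (nat_lit 352315) (nat_lit 23) (.e (nat_lit 98350) (nat_lit 24) (.e (nat_lit 409617) (nat_lit 10) (.e (nat_lit 5756) (nat_lit 315) .nil)))))) (.g (nat_lit 1) (.e (nat_lit 164612) (nat_lit 0) .nil) .nil)))))) (.nd (nat_lit 7) (.nd (nat_lit 8) (.nd (nat_lit 9) 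
(.lf (nat_lit 497754) (.g (nat_lit 3322) (.e (nat_lit 163941) (nat_lit 19) (.e (nat_lit 483341) (nat_lit 9) (.e (nat_lit 426198) (nat_lit 9) (.e (nat_lit 426436) (nat_lit 18) (.e (nat_lit 98335) (nat_lit 18) (.e (nat_lit 164326) (nat_lit 230) .nil)))))) (.g (nat_lit 1) (.e (nat_lit 161389) (nat_lit 0) .nil) .nil))) 
(.lf (nat_lit 498266) (.g (nat_lit 2135) (.e (nat_lit 163962) (nat_lit 25) (.e (nat_lit 532522) (nat_lit 7) (.e (nat_lit 319531) (nat_lit 16) (.e (nat_lit 286735) (nat_lit 3) (.e (nat_lit 98350) (nat_lit 24) (.e (nat_lit 409603) (nat_lit 0) (.e (nat_lit 5761) (nat_lit 315) .nil))))))) (.g (nat_lit 1) (.e (nat_lit 163845) (nat_lit 0) .nil) .nil)))) (.nd (nat_lit 9) 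
(.lf (nat_lit 498010) (.g (nat_lit 3406) (.e (nat_lit 163944) (nat_lit 19) (.e (nat_lit 483341) (nat_lit 9) (.e (nat_lit 426188) (nat_lit 9) (.e (nat_lit 426436) (nat_lit 18) (.e (nat_lit 98335) (nat_lit 18) (.e (nat_lit 164325) (nat_lit 230) .nil)))))) (.g (nat_lit 1) (.e (nat_lit 162987) (nat_lit 0) .nil) .nil))) 
(.lf (nat_lit 498522) (.g (nat_lit 2614) (.e (nat_lit 163962) (nat_lit 25) (.e (nat_lit 532544) (nat_lit 10) (.e (nat_lit 344131) (nat_lit 26) (.e (nat_lit 557100) (nat_lit 13) (.e (nat_lit 172138) (nat_lit 15) (.e (nat_lit 1800) (nat_lit 119) (.e (nat_lit 516119) (nat_lit 1) (.e (nat_lit 164345) (nat_lit 240) (.e (nat_lit 2601) (nat_lit 163) .nil))))))))) (.g (nat_lit 1) (.e (nat_lit 164480) (nat_lit 0) .nil) .nil))))) 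
(.nd (nat_lit 8) (.nd (nat_lit 9) 
(.lf (nat_lit 497882) (.g (nat_lit 3425) (.e (nat_lit 163943) (nat_lit 19) (.e (nat_lit 483337) (nat_lit 9) (.e (nat_lit 426188) (nat_lit 9) (.e (nat_lit 426436) (nat_lit 18) (.e (nat_lit 98335) (nat_lit 18) (.e (nat_lit 164325) (nat_lit 230) .nil)))))) (.g (nat_lit 1) (.e (nat_lit 162129) (nat_lit 0) .nil) .nil))) 
(.lf (nat_lit 498394) (.g (nat_lit 1469) (.e (nat_lit 163962) (nat_lit 25) (.e (nat_lit 532535) (nat_lit 9) (.e (nat_lit 336176) (nat_lit 10) (.e (nat_lit 344091) (nat_lit 18) .nil)))) (.g (nat_lit 0) (.e (nat_lit 164185) (nat_lit 0) .nil) .nil)))) (.nd (nat_lit 9) 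
(.lf (nat_lit 498138) (.g (nat_lit 1924) (.e (nat_lit 163950) (nat_lit 21) (.e (nat_lit 500077) (nat_lit 20) (.e (nat_lit 81924) (nat_lit 0) (.e (nat_lit 3305) (nat_lit 202) (.e (nat_lit 573487) (nat_lit 14) (.e (nat_lit 81664) (nat_lit 35) .nil)))))) (.g (nat_lit 1) (.e (nat_lit 163538) (nat_lit 0) .nil) .nil))) 
(.lf (nat_lit 498650) (.g (nat_lit 2732) (.e (nat_lit 163962) (nat_lit 25) (.e (nat_lit 532549) (nat_lit 12) (.e (nat_lit 360475) (nat_lit 8) (.e (nat_lit 557068) (nat_lit 9) (.e (nat_lit 7936) (nat_lit 25) .nil))))) (.g (nat_lit 0) (.e (nat_lit 164785) (nat_lit 0) .nil) .nil))))))) (.nd (nat_lit 6) (.nd (nat_lit 7) (.nd (nat_lit 8) (.nd (nat_lit 9) 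
(.lf (nat_lit 497722) (.g (nat_lit 3996) (.e (nat_lit 163941) (nat_lit 19) (.e (nat_lit 483341) (nat_lit 9) (.e (nat_lit 426188) (nat_lit 9) (.e (nat_lit 426436) (nat_lit 18) (.e (nat_lit 98335) (nat_lit 18) (.e (nat_lit 164324) (nat_lit 230) .nil)))))) (.g (nat_lit 1) (.e (nat_lit 161300) (nat_lit 0) .nil) .nil))) 
(.lf (nat_lit 498234) (.g (nat_lit 3041) (.e (nat_lit 163962) (nat_lit 25) (.e (nat_lit 532513) (nat_lit 3) (.e (nat_lit 114714) (nat_lit 22) (.e (nat_lit 90172) (nat_lit 14) (.e (nat_lit 180244) (nat_lit 5) (.e (nat_lit 532499) (nat_lit 1) (.e (nat_lit 57657) (nat_lit 152) (.e (nat_lit 2603) (nat_lit 163) .nil)))))))) (.g (nat_lit 1) (.e (nat_lit 163743) (nat_lit 0) .nil) .nil)))) 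
(.nd (nat_lit 9) 
(.lf (nat_lit 497978) (.g (nat_lit 872) (.e (nat_lit 163943) (nat_lit 19) (.e (nat_lit 483406) (nat_lit 26) (.e (nat_lit 392960) (nat_lit 24) .nil))) (.g (nat_lit 0) (.e (nat_lit 162813) (nat_lit 0) .nil) .nil))) 
(.lf (nat_lit 498490) (.g (nat_lit 2238) (.e (nat_lit 163962) (nat_lit 25) (.e (nat_lit 532543) (nat_lit 10) (.e (nat_lit 344133) (nat_lit 26) (.e (nat_lit 557098) (nat_lit 13) (.e (nat_lit 172136) (nat_lit 15) (.e (nat_lit 1800) (nat_lit 119) (.e (nat_lit 516119) (nat_lit 1) (.e (nat_lit 164345) (nat_lit 240) (.e (nat_lit 2601) (nat_lit 163) .nil))))))))) (.g (nat_lit 1) (.e (nat_lit 164443) (nat_lit 0) .nil) .nil))))) 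
(.nd (nat_lit 8) (.nd (nat_lit 9) 
(.lf (nat_lit 497850) (.g (nat_lit 1092) (.e (nat_lit 163942) (nat_lit 19) (.e (nat_lit 483336) (nat_lit 9) (.e (nat_lit 426198) (nat_lit 9) (.e (nat_lit 426436) (nat_lit 18) .nil)))) (.g (nat_lit 0) (.e (nat_lit 161841) (nat_lit 0) .nil) .nil))) 
(.lf (nat_lit 498362) (.g (nat_lit 3507) (.e (nat_lit 163962) (nat_lit 25) (.e (nat_lit 532535) (nat_lit 9) (.e (nat_lit 336099) (nat_lit 9) (.e (nat_lit 336028) (nat_lit 3) (.e (nat_lit 98350) (nat_lit 24) (.e (nat_lit 409616) (nat_lit 10) (.e (nat_lit 5763) (nat_lit 315) .nil))))))) (.g (nat_lit 1) (.e (nat_lit 164103) (nat_lit 0) .nil) .nil)))) (.nd (nat_lit 9) 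
(.lf (nat_lit 498106) (.g (nat_lit 1572) (.e (nat_lit 163946) (nat_lit 20) (.e (nat_lit 491566) (nat_lit 12) (.e (nat_lit 385105) (nat_lit 50) (.e (nat_lit 786483) (nat_lit 30) .nil)))) (.g (nat_lit 0) (.e (nat_lit 163497) (nat_lit 0) .nil) .nil))) 
(.lf (nat_lit 498618) (.g (nat_lit 2996) (.e (nat_lit 163962) (nat_lit 25) (.e (nat_lit 532549) (nat_lit 12) (.e (nat_lit 360467) (nat_lit 3) (.e (nat_lit 516139) (nat_lit 7) (.e (nat_lit 409617) (nat_lit 10) (.e (nat_lit 7936) (nat_lit 315) .nil)))))) (.g (nat_lit 1) (.e (nat_lit 164712) (nat_lit 0) .nil) .nil)))))) (.nd (nat_lit 7) (.nd (nat_lit 8) (.nd (nat_lit 9) 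
(.lf (nat_lit 497786) (.g (nat_lit 3973) (.e (nat_lit 163941) (nat_lit 19) (.e (nat_lit 483341) (nat_lit 9) (.e (nat_lit 426305) (nat_lit 12) (.e (nat_lit 475179) (nat_lit 24) (.e (nat_lit 516117) (nat_lit 1) (.e (nat_lit 164332) (nat_lit 230) .nil)))))) (.g (nat_lit 1) (.e (nat_lit 161465) (nat_lit 0) .nil) .nil))) 
(.lf (nat_lit 498298) (.g (nat_lit 1497) (.e (nat_lit 163962) (nat_lit 25) (.e (nat_lit 532523) (nat_lit 7) (.e (nat_lit 319532) (nat_lit 16) (.e (nat_lit 286735) (nat_lit 3) .nil)))) (.g (nat_lit 0) (.e (nat_lit 163901) (nat_lit 0) .nil) .nil)))) (.nd (nat_lit 9) 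
(.lf (nat_lit 498042) (.g (nat_lit 3692) (.e (nat_lit 163945) (nat_lit 20) (.e (nat_lit 491566) (nat_lit 12) (.e (nat_lit 385104) (nat_lit 50) (.e (nat_lit 786480) (nat_lit 29) (.e (nat_lit 352309) (nat_lit 21) (.e (nat_lit 57929) (nat_lit 282) .nil)))))) (.g (nat_lit 1) (.e (nat_lit 163405) (nat_lit 0) .nil) .nil))) 
(.lf (nat_lit 498554) (.g (nat_lit 2524) (.e (nat_lit 163962) (nat_lit 25) (.e (nat_lit 532544) (nat_lit 10) (.e (nat_lit 344133) (nat_lit 26) (.e (nat_lit 557103) (nat_lit 14) (.e (nat_lit 188160) (nat_lit 3) .nil))))) (.g (nat_lit 0) (.e (nat_lit 164512) (nat_lit 0) .nil) .nil))))) (.nd (nat_lit 8) (.nd (nat_lit 9) 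
(.lf (nat_lit 497914) (.g (nat_lit 3342) (.e (nat_lit 163943) (nat_lit 19) (.e (nat_lit 483341) (nat_lit 9) (.e (nat_lit 426197) (nat_lit 9) (.e (nat_lit 426436) (nat_lit 18) (.e (nat_lit 98335) (nat_lit 18) (.e (nat_lit 164332) (nat_lit 230) .nil)))))) (.g (nat_lit 1) (.e (nat_lit 162289) (nat_lit 0) .nil) .nil))) 
(.lf (nat_lit 498426) (.g (nat_lit 3727) (.e (nat_lit 163962) (nat_lit 25) (.e (nat_lit 532535) (nat_lit 9) (.e (nat_lit 336176) (nat_lit 10) (.e (nat_lit 344130) (nat_lit 26) (.e (nat_lit 557087) (nat_lit 11) (.e (nat_lit 24593) (nat_lit 0) (.e (nat_lit 7936) (nat_lit 360) .nil))))))) (.g (nat_lit 1) (.e (nat_lit 164273) (nat_lit 0) .nil) .nil)))) (.nd (nat_lit 9) 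
(.lf (nat_lit 498170) (.g (nat_lit 2495) (.e (nat_lit 163962) (nat_lit 25) (.e (nat_lit 532482) (nat_lit 0) (.e (nat_lit 6722) (nat_lit 362) (.e (nat_lit 180244) (nat_lit 5) (.e (nat_lit 532523) (nat_lit 7) (.e (nat_lit 319504) (nat_lit 10) (.e (nat_lit 7936) (nat_lit 315) .nil))))))) (.g (nat_lit 1) (.e (nat_lit 163613) (nat_lit 0) .nil) .nil))) 
(.lf (nat_lit 498682) (.g (nat_lit 950) (.e (nat_lit 163962) (nat_lit 25) (.e (nat_lit 532550) (nat_lit 12) (.e (nat_lit 360474) (nat_lit 8) (.e (nat_lit 557070) (nat_lit 9) .nil)))) (.g (nat_lit 0) (.e (nat_lit 164851) (nat_lit 0) .nil) .nil)))))))))) (.nd (nat_lit 3) (.nd (nat_lit 4) (.nd (nat_lit 5) (.nd (nat_lit 6) (.nd (nat_lit 7) (.nd (nat_lit 8) (.nd (nat_lit 9) 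
(.lf (nat_lit 497670) (.g (nat_lit 2091) (.e (nat_lit 163941) (nat_lit 19) (.e (nat_lit 483339) (nat_lit 9) (.e (nat_lit 426234) (nat_lit 9) (.e (nat_lit 426435) (nat_lit 18) (.e (nat_lit 98334) (nat_lit 18) (.e (nat_lit 164332) (nat_lit 230) .nil)))))) (.g (nat_lit 1) (.e (nat_lit 161230) (nat_lit 0) .nil) .nil))) 
(.lf (nat_lit 498182) (.g (nat_lit 3014) (.e (nat_lit 163962) (nat_lit 25) (.e (nat_lit 532499) (nat_lit 1) (.e (nat_lit 57926) (nat_lit 282) (.e (nat_lit 163875) (nat_lit 3) (.e (nat_lit 204862) (nat_lit 27) (.e (nat_lit 344117) (nat_lit 21) (.e (nat_lit 516123) (nat_lit 2) (.e (nat_lit 213033) (nat_lit 12) .nil)))))))) (.g (nat_lit 1) (.e (nat_lit 163628) (nat_lit 0) .nil) .nil)))) 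
(.nd (nat_lit 9) 
(.lf (nat_lit 497926) (.g (nat_lit 1388) (.e (nat_lit 163943) (nat_lit 19) (.e (nat_lit 483346) (nat_lit 17) (.e (nat_lit 6712) (nat_lit 360) (.e (nat_lit 163978) (nat_lit 30) .nil)))) (.g (nat_lit 0) (.e (nat_lit 162531) (nat_lit 0) .nil) .nil))) 
(.lf (nat_lit 498438) (.g (nat_lit 2697) (.e (nat_lit 163962) (nat_lit 25) (.e (nat_lit 532535) (nat_lit 9) (.e (nat_lit 336176) (nat_lit 10) (.e (nat_lit 344133) (nat_lit 26) (.e (nat_lit 557065) (nat_lit 9) (.e (nat_lit 214) (nat_lit 19) (.e (nat_lit 319493) (nat_lit 0) (.e (nat_lit 5761) (nat_lit 315) .nil)))))))) (.g (nat_lit 1) (.e (nat_lit 164301) (nat_lit 0) .nil) .nil))))) 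
(.nd (nat_lit 8) (.nd (nat_lit 9) 
(.lf (nat_lit 497798) (.g (nat_lit 3097) (.e (nat_lit 163941) (nat_lit 19) (.e (nat_lit 483341) (nat_lit 9) (.e (nat_lit 426308) (nat_lit 12) (.e (nat_lit 475179) (nat_lit 24) (.e (nat_lit 516120) (nat_lit 1) (.e (nat_lit 164329) (nat_lit 230) .nil)))))) (.g (nat_lit 1) (.e (nat_lit 161540) (nat_lit 0) .nil) .nil))) 
(.lf (nat_lit 498310) (.g (nat_lit 747) (.e (nat_lit 163962) (nat_lit 25) (.e (nat_lit 532526) (nat_lit 8) (.e (nat_lit 327683) (nat_lit 0) (.e (nat_lit 5762) (nat_lit 315) .nil)))) (.g (nat_lit 0) (.e (nat_lit 163917) (nat_lit 0) .nil) .nil)))) (.nd (nat_lit 9) 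
(.lf (nat_lit 498054) (.g (nat_lit 1325) (.e (nat_lit 163945) (nat_lit 20) (.e (nat_lit 491566) (nat_lit 12) (.e (nat_lit 385105) (nat_lit 50) (.e (nat_lit 786483) (nat_lit 30) .nil)))) (.g (nat_lit 0) (.e (nat_lit 163417) (nat_lit 0) .nil) .nil))) 
(.lf (nat_lit 498566) (.g (nat_lit 424) (.e (nat_lit 163962) (nat_lit 25) (.e (nat_lit 532547) (nat_lit 11) (.e (nat_lit 352302) (nat_lit 20) .nil))) (.g (nat_lit 0) (.e (nat_lit 164546) (nat_lit 0) .nil) .nil)))))) (.nd (nat_lit 7) (.nd (nat_lit 8) (.nd (nat_lit 9) 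
(.lf (nat_lit 497734) (.g (nat_lit 3637) (.e (nat_lit 163941) (nat_lit 19) (.e (nat_lit 483341) (nat_lit 9) (.e (nat_lit 426190) (nat_lit 9) (.e (nat_lit 426436) (nat_lit 18) (.e (nat_lit 98335) (nat_lit 18) (.e (nat_lit 164327) (nat_lit 230) .nil)))))) (.g (nat_lit 1) (.e (nat_lit 161328) (nat_lit 0) .nil) .nil))) 
(.lf (nat_lit 498246) (.g (nat_lit 2460) (.e (nat_lit 163962) (nat_lit 25) (.e (nat_lit 532513) (nat_lit 3) (.e (nat_lit 114714) (nat_lit 22) (.e (nat_lit 90174) (nat_lit 14) (.e (nat_lit 180243) (nat_lit 5) (.e (nat_lit 532499) (nat_lit 1) (.e (nat_lit 57653) (nat_lit 152) (.e (nat_lit 2615) (nat_lit 163) .nil)))))))) (.g (nat_lit 1) (.e (nat_lit 163766) (nat_lit 0) .nil) .nil)))) 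
(.nd (nat_lit 9) 
(.lf (nat_lit 497990) (.g (nat_lit 1178) (.e (nat_lit 163943) (nat_lit 19) (.e (nat_lit 483413) (nat_lit 27) (.e (nat_lit 401415) (nat_lit 0) .nil))) (.g (nat_lit 0) (.e (nat_lit 162863) (nat_lit 0) .nil) .nil))) 
(.lf (nat_lit 498502) (.g (nat_lit 2812) (.e (nat_lit 163962) (nat_lit 25) (.e (nat_lit 532544) (nat_lit 10) (.e (nat_lit 344129) (nat_lit 26) (.e (nat_lit 557097) (nat_lit 13) (.e (nat_lit 179968) (nat_lit 18) (.e (nat_lit 98335) (nat_lit 18) (.e (nat_lit 164345) (nat_lit 240) (.e (nat_lit 2601) (nat_lit 163) .nil)))))))) (.g (nat_lit 1) (.e (nat_lit 164460) (nat_lit 0) .nil) .nil))))) 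
(.nd (nat_lit 8) (.nd (nat_lit 9) 
(.lf (nat_lit 497862) (.g (nat_lit 740) (.e (nat_lit 163942) (nat_lit 19) (.e (nat_lit 483341) (nat_lit 9) (.e (nat_lit 426197) (nat_lit 9) .nil))) (.g (nat_lit 0) (.e (nat_lit 161909) (nat_lit 0) .nil) .nil))) 
(.lf (nat_lit 498374) (.g (nat_lit 4185) (.e (nat_lit 163962) (nat_lit 25) (.e (nat_lit 532535) (nat_lit 9) (.e (nat_lit 336111) (nat_lit 9) (.e (nat_lit 336028) (nat_lit 3) (.e (nat_lit 98350) (nat_lit 24) (.e (nat_lit 409616) (nat_lit 10) (.e (nat_lit 5763) (nat_lit 315) .nil))))))) (.g (nat_lit 1) (.e (nat_lit 164136) (nat_lit 0) .nil) .nil)))) (.nd (nat_lit 9) 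
(.lf (nat_lit 498118) (.g (nat_lit 3395) (.e (nat_lit 163946) (nat_lit 20) (.e (nat_lit 491571) (nat_lit 13) (.e (nat_lit 393299) (nat_lit 27) (.e (nat_lit 491560) (nat_lit 10) (.e (nat_lit 344096) (nat_lit 18) (.e (nat_lit 6938) (nat_lit 375) .nil)))))) (.g (nat_lit 1) (.e (nat_lit 163516) (nat_lit 0) .nil) .nil))) 
(.lf (nat_lit 498630) (.g (nat_lit 1197) (.e (nat_lit 163962) (nat_lit 25) (.e (nat_lit 532549) (nat_lit 12) (.e (nat_lit 360473) (nat_lit 8) (.e (nat_lit 557068) (nat_lit 9) .nil)))) (.g (nat_lit 0) (.e (nat_lit 164729) (nat_lit 0) .nil) .nil))))))) (.nd (nat_lit 6) (.nd (nat_lit 7) (.nd (nat_lit 8) (.nd (nat_lit 9) 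
(.lf (nat_lit 497702) (.g (nat_lit 2646) (.e (nat_lit 163941) (nat_lit 19) (.e (nat_lit 483339) (nat_lit 9) (.e (nat_lit 426318) (nat_lit 12) (.e (nat_lit 475179) (nat_lit 24) (.e (nat_lit 516120) (nat_lit 1) (.e (nat_lit 164332) (nat_lit 230) .nil)))))) (.g (nat_lit 1) (.e (nat_lit 161267) (nat_lit 0) .nil) .nil))) 
(.lf (nat_lit 498214) (.g (nat_lit 3864) (.e (nat_lit 163962) (nat_lit 25) (.e (nat_lit 532500) (nat_lit 1) (.e (nat_lit 57927) (nat_lit 282) (.e (nat_lit 163869) (nat_lit 2) (.e (nat_lit 196670) (nat_lit 14) (.e (nat_lit 73746) (nat_lit 3) (.e (nat_lit 516126) (nat_lit 2) (.e (nat_lit 213033) (nat_lit 12) .nil)))))))) (.g (nat_lit 1) (.e (nat_lit 163702) (nat_lit 0) .nil) .nil)))) 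
(.nd (nat_lit 9) 
(.lf (nat_lit 497958) (.g (nat_lit 2494) (.e (nat_lit 163943) (nat_lit 19) (.e (nat_lit 483395) (nat_lit 24) (.e (nat_lit 344117) (nat_lit 21) (.e (nat_lit 516194) (nat_lit 26) (.e (nat_lit 335988) (nat_lit 1) (.e (nat_lit 57927) (nat_lit 282) .nil)))))) (.g (nat_lit 1) (.e (nat_lit 162757) (nat_lit 0) .nil) .nil))) 
(.lf (nat_lit 498470) (.g (nat_lit 812) (.e (nat_lit 163962) (nat_lit 25) (.e (nat_lit 532541) (nat_lit 9) (.e (nat_lit 336204) (nat_lit 12) (.e (nat_lit 385074) (nat_lit 31) .nil)))) (.g (nat_lit 0) (.e (nat_lit 164422) (nat_lit 0) .nil) .nil))))) (.nd (nat_lit 8) (.nd (nat_lit 9) 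
(.lf (nat_lit 497830) (.g (nat_lit 3047) (.e (nat_lit 163941) (nat_lit 19) (.e (nat_lit 483393) (nat_lit 23) (.e (nat_lit 336021) (nat_lit 3) (.e (nat_lit 98313) (nat_lit 9) (.e (nat_lit 335986) (nat_lit 1) (.e (nat_lit 57927) (nat_lit 282) .nil)))))) (.g (nat_lit 1) (.e (nat_lit 161779) (nat_lit 0) .nil) .nil))) 
(.lf (nat_lit 498342) (.g (nat_lit 2667) (.e (nat_lit 163962) (nat_lit 25) (.e (nat_lit 532535) (nat_lit 9) (.e (nat_lit 336061) (nat_lit 7) (.e (nat_lit 319519) (nat_lit 12) (.e (nat_lit 32779) (nat_lit 5) (.e (nat_lit 1512) (nat_lit 108) (.e (nat_lit 335874) (nat_lit 0) (.e (nat_lit 6711) (nat_lit 360) .nil)))))))) (.g (nat_lit 1) (.e (nat_lit 164031) (nat_lit 0) .nil) .nil)))) (.nd (nat_lit 9) 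
(.lf (nat_lit 498086) (.g (nat_lit 2528) (.e (nat_lit 163945) (nat_lit 20) (.e (nat_lit 491571) (nat_lit 13) (.e (nat_lit 393299) (nat_lit 27) (.e (nat_lit 491560) (nat_lit 10) (.e (nat_lit 344091) (nat_lit 18) .nil))))) (.g (nat_lit 0) (.e (nat_lit 163471) (nat_lit 0) .nil) .nil))) 
(.lf (nat_lit 498598) (.g (nat_lit 3253) (.e (nat_lit 163962) (nat_lit 25) (.e (nat_lit 532549) (nat_lit 12) (.e (nat_lit 360466) (nat_lit 3) (.e (nat_lit 516139) (nat_lit 7) (.e (nat_lit 409609) (nat_lit 10) .nil))))) (.g (nat_lit 0) (.e (nat_lit 164662) (nat_lit 0) .nil) .nil)))))) (.nd (nat_lit 7) (.nd (nat_lit 8) (.nd (nat_lit 9) 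
(.lf (nat_lit 497766) (.g (nat_lit 5013) (.e (nat_lit 163941) (nat_lit 19) (.e (nat_lit 483341) (nat_lit 9) (.e (nat_lit 426199) (nat_lit 9) (.e (nat_lit 426436) (nat_lit 18) (.e (nat_lit 98335) (nat_lit 18) (.e (nat_lit 164332) (nat_lit 230) .nil)))))) (.g (nat_lit 1) (.e (nat_lit 161412) (nat_lit 0) .nil) .nil))) 
(.lf (nat_lit 498278) (.g (nat_lit 2411) (.e (nat_lit 163962) (nat_lit 25) (.e (nat_lit 532523) (nat_lit 7) (.e (nat_lit 319490) (nat_lit 0) (.e (nat_lit 5761) (nat_lit 315) (.e (nat_lit 163962) (nat_lit 25) (.e (nat_lit 532545) (nat_lit 10) (.e (nat_lit 352000) (nat_lit 3) .nil))))))) (.g (nat_lit 1) (.e (nat_lit 163867) (nat_lit 0) .nil) .nil)))) (.nd (nat_lit 9) 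
(.lf (nat_lit 498022) (.g (nat_lit 678) (.e (nat_lit 163944) (nat_lit 19) (.e (nat_lit 483346) (nat_lit 17) (.e (nat_lit 2285) (nat_lit 151) .nil))) (.g (nat_lit 0) (.e (nat_lit 163178) (nat_lit 0) .nil) .nil))) 
(.lf (nat_lit 498534) (.g (nat_lit 2466) (.e (nat_lit 163962) (nat_lit 25) (.e (nat_lit 532544) (nat_lit 10) (.e (nat_lit 344133) (nat_lit 26) (.e (nat_lit 557096) (nat_lit 13) (.e (nat_lit 179968) (nat_lit 18) (.e (nat_lit 98335) (nat_lit 18) (.e (nat_lit 164345) (nat_lit 240) (.e (nat_lit 2601) (nat_lit 163) .nil)))))))) (.g (nat_lit 1) (.e (nat_lit 164492) (nat_lit 0) .nil) .nil))))) 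
(.nd (nat_lit 8) (.nd (nat_lit 9) 
(.lf (nat_lit 497894) (.g (nat_lit 2107) (.e (nat_lit 163943) (nat_lit 19) (.e (nat_lit 483339) (nat_lit 9) (.e (nat_lit 426262) (nat_lit 9) (.e (nat_lit 426435) (nat_lit 18) (.e (nat_lit 98334) (nat_lit 18) (.e (nat_lit 164332) (nat_lit 230) .nil)))))) (.g (nat_lit 1) (.e (nat_lit 162220) (nat_lit 0) .nil) .nil))) 
(.lf (nat_lit 498406) (.g (nat_lit 1203) (.e (nat_lit 163962) (nat_lit 25) (.e (nat_lit 532535) (nat_lit 9) (.e (nat_lit 336176) (nat_lit 10) (.e (nat_lit 344127) (nat_lit 26) .nil)))) (.g (nat_lit 0) (.e (nat_lit 164213) (nat_lit 0) .nil) .nil)))) (.nd (nat_lit 9) 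
(.lf (nat_lit 498150) (.g (nat_lit 4344) (.e (nat_lit 163961) (nat_lit 25) (.e (nat_lit 532550) (nat_lit 12) (.e (nat_lit 360474) (nat_lit 8) (.e (nat_lit 557070) (nat_lit 9) .nil)))) (.g (nat_lit 0) (.e (nat_lit 163578) (nat_lit 0) .nil) .nil))) 
(.lf (nat_lit 498662) (.g (nat_lit 1427) (.e (nat_lit 163962) (nat_lit 25) (.e (nat_lit 532550) (nat_lit 12) (.e (nat_lit 360451) (nat_lit 0) (.e (nat_lit 4157) (nat_lit 250) .nil)))) (.g (nat_lit 0) (.e (nat_lit 164806) (nat_lit 0) .nil) .nil)))))))) (.nd (nat_lit 5) (.nd (nat_lit 6) (.nd (nat_lit 7) (.nd (nat_lit 8) (.nd (nat_lit 9) 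
(.lf (nat_lit 497686) (.g (nat_lit 2376) (.e (nat_lit 163941) (nat_lit 19) (.e (nat_lit 483339) (nat_lit 9) (.e (nat_lit 426261) (nat_lit 9) (.e (nat_lit 426435) (nat_lit 18) (.e (nat_lit 98335) (nat_lit 18) (.e (nat_lit 164324) (nat_lit 230) .nil)))))) (.g (nat_lit 1) (.e (nat_lit 161248) (nat_lit 0) .nil) .nil))) 
(.lf (nat_lit 498198) (.g (nat_lit 2777) (.e (nat_lit 163962) (nat_lit 25) (.e (nat_lit 532500) (nat_lit 1) (.e (nat_lit 57926) (nat_lit 282) (.e (nat_lit 163868) (nat_lit 2) (.e (nat_lit 196670) (nat_lit 14) (.e (nat_lit 73746) (nat_lit 3) (.e (nat_lit 516126) (nat_lit 2) (.e (nat_lit 213033) (nat_lit 12) .nil)))))))) (.g (nat_lit 1) (.e (nat_lit 163676) (nat_lit 0) .nil) .nil)))) 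
(.nd (nat_lit 9) 
(.lf (nat_lit 497942) (.g (nat_lit 2104) (.e (nat_lit 163943) (nat_lit 19) (.e (nat_lit 483393) (nat_lit 23) (.e (nat_lit 336021) (nat_lit 3) (.e (nat_lit 98313) (nat_lit 9) (.e (nat_lit 335994) (nat_lit 1) (.e (nat_lit 57931) (nat_lit 282) .nil)))))) (.g (nat_lit 1) (.e (nat_lit 162735) (nat_lit 0) .nil) .nil))) 
(.lf (nat_lit 498454) (.g (nat_lit 3752) (.e (nat_lit 163962) (nat_lit 25) (.e (nat_lit 532535) (nat_lit 9) (.e (nat_lit 336178) (nat_lit 10) (.e (nat_lit 344117) (nat_lit 21) (.e (nat_lit 516139) (nat_lit 7) (.e (nat_lit 409617) (nat_lit 10) (.e (nat_lit 5762) (nat_lit 315) .nil))))))) (.g (nat_lit 1) (.e (nat_lit 164344) (nat_lit 0) .nil) .nil))))) (.nd (nat_lit 8) (.nd (nat_lit 9) 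
(.lf (nat_lit 497814) (.g (nat_lit 3953) (.e (nat_lit 163941) (nat_lit 19) (.e (nat_lit 483341) (nat_lit 9) (.e (nat_lit 426316) (nat_lit 12) (.e (nat_lit 475179) (nat_lit 24) (.e (nat_lit 516120) (nat_lit 1) (.e (nat_lit 164330) (nat_lit 230) .nil)))))) (.g (nat_lit 1) (.e (nat_lit 161658) (nat_lit 0) .nil) .nil))) 
(.lf (nat_lit 498326) (.g (nat_lit 658) (.e (nat_lit 163962) (nat_lit 25) (.e (nat_lit 532529) (nat_lit 9) (.e (nat_lit 336160) (nat_lit 10) .nil))) (.g (nat_lit 0) (.e (nat_lit 163959) (nat_lit 0) .nil) .nil)))) (.nd (nat_lit 9) 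
(.lf (nat_lit 498070) (.g (nat_lit 3360) (.e (nat_lit 163945) (nat_lit 20) (.e (nat_lit 491569) (nat_lit 13) (.e (nat_lit 393301) (nat_lit 27) (.e (nat_lit 491559) (nat_lit 10) (.e (nat_lit 344091) (nat_lit 18) .nil))))) (.g (nat_lit 0) (.e (nat_lit 163433) (nat_lit 0) .nil) .nil))) 
(.lf (nat_lit 498582) (.g (nat_lit 2915) (.e (nat_lit 163962) (nat_lit 25) (.e (nat_lit 532547) (nat_lit 11) (.e (nat_lit 352315) (nat_lit 23) (.e (nat_lit 98349) (nat_lit 24) (.e (nat_lit 409617) (nat_lit 10) (.e (nat_lit 5762) (nat_lit 315) .nil)))))) (.g (nat_lit 1) (.e (nat_lit 164608) (nat_lit 0) .nil) .nil)))))) (.nd (nat_lit 7) (.nd (nat_lit 8) (.nd (nat_lit 9) 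
(.lf (nat_lit 497750) (.g (nat_lit 1693) (.e (nat_lit 163941) (nat_lit 19) (.e (nat_lit 483341) (nat_lit 9) (.e (nat_lit 426198) (nat_lit 9) (.e (nat_lit 426364) (nat_lit 15) (.e (nat_lit 1799) (nat_lit 119) .nil))))) (.g (nat_lit 0) (.e (nat_lit 161371) (nat_lit 0) .nil) .nil))) 
(.lf (nat_lit 498262) (.g (nat_lit 3141) (.e (nat_lit 163962) (nat_lit 25) (.e (nat_lit 532514) (nat_lit 3) (.e (nat_lit 114718) (nat_lit 23) (.e (nat_lit 98356) (nat_lit 26) (.e (nat_lit 426438) (nat_lit 18) (.e (nat_lit 98334) (nat_lit 18) (.e (nat_lit 164305) (nat_lit 226) (.e (nat_lit 2604) (nat_lit 163) .nil)))))))) (.g (nat_lit 1) (.e (nat_lit 163821) (nat_lit 0) .nil) .nil)))) 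
(.nd (nat_lit 9) 
(.lf (nat_lit 498006) (.g (nat_lit 2375) (.e (nat_lit 163944) (nat_lit 19) (.e (nat_lit 483340) (nat_lit 9) (.e (nat_lit 426200) (nat_lit 9) (.e (nat_lit 426436) (nat_lit 18) (.e (nat_lit 98335) (nat_lit 18) (.e (nat_lit 164325) (nat_lit 230) .nil)))))) (.g (nat_lit 1) (.e (nat_lit 162978) (nat_lit 0) .nil) .nil))) 
(.lf (nat_lit 498518) (.g (nat_lit 517) (.e (nat_lit 163962) (nat_lit 25) (.e (nat_lit 532544) (nat_lit 10) (.e (nat_lit 344131) (nat_lit 26) .nil))) (.g (nat_lit 0) (.e (nat_lit 164476) (nat_lit 0) .nil) .nil))))) (.nd (nat_lit 8) (.nd (nat_lit 9) 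
(.lf (nat_lit 497878) (.g (nat_lit 4170) (.e (nat_lit 163943) (nat_lit 19) (.e (nat_lit 483337) (nat_lit 9) (.e (nat_lit 426187) (nat_lit 9) (.e (nat_lit 426436) (nat_lit 18) (.e (nat_lit 98335) (nat_lit 18) (.e (nat_lit 164325) (nat_lit 230) .nil)))))) (.g (nat_lit 1) (.e (nat_lit 162124) (nat_lit 0) .nil) .nil))) 
(.lf (nat_lit 498390) (.g (nat_lit 3575) (.e (nat_lit 163962) (nat_lit 25) (.e (nat_lit 532535) (nat_lit 9) (.e (nat_lit 336173) (nat_lit 10) (.e (nat_lit 344126) (nat_lit 25) (.e (nat_lit 556800) (nat_lit 5) (.e (nat_lit 1515) (nat_lit 108) (.e (nat_lit 335874) (nat_lit 0) (.e (nat_lit 6711) (nat_lit 360) .nil)))))))) (.g (nat_lit 1) (.e (nat_lit 164181) (nat_lit 0) .nil) .nil)))) 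
(.nd (nat_lit 9) 
(.lf (nat_lit 498134) (.g (nat_lit 1780) (.e (nat_lit 163950) (nat_lit 21) (.e (nat_lit 500073) (nat_lit 19) (.e (nat_lit 73781) (nat_lit 32) (.e (nat_lit 2664) (nat_lit 167) (.e (nat_lit 196668) (nat_lit 14) (.e (nat_lit 81664) (nat_lit 35) .nil)))))) (.g (nat_lit 1) (.e (nat_lit 163534) (nat_lit 0) .nil) .nil))) 
(.lf (nat_lit 498646) (.g (nat_lit 2814) (.e (nat_lit 163962) (nat_lit 25) (.e (nat_lit 532549) (nat_lit 12) (.e (nat_lit 360475) (nat_lit 8) (.e (nat_lit 557067) (nat_lit 9) .nil)))) (.g (nat_lit 0) (.e (nat_lit 164766) (nat_lit 0) .nil) .nil))))))) (.nd (nat_lit 6) (.nd (nat_lit 7) (.nd (nat_lit 8) (.nd (nat_lit 9) 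
(.lf (nat_lit 497718) (.g (nat_lit 4937) (.e (nat_lit 163941) (nat_lit 19) (.e (nat_lit 483341) (nat_lit 9) (.e (nat_lit 426187) (nat_lit 9) (.e (nat_lit 426436) (nat_lit 18) (.e (nat_lit 98335) (nat_lit 18) (.e (nat_lit 164326) (nat_lit 230) .nil)))))) (.g (nat_lit 1) (.e (nat_lit 161287) (nat_lit 0) .nil) .nil))) 
(.lf (nat_lit 498230) (.g (nat_lit 2341) (.e (nat_lit 163962) (nat_lit 25) (.e (nat_lit 532513) (nat_lit 3) (.e (nat_lit 114714) (nat_lit 22) (.e (nat_lit 90172) (nat_lit 14) (.e (nat_lit 180243) (nat_lit 5) (.e (nat_lit 532501) (nat_lit 1) (.e (nat_lit 57664) (nat_lit 152) (.e (nat_lit 7936) (nat_lit 163) .nil)))))))) (.g (nat_lit 1) (.e (nat_lit 163735) (nat_lit 0) .nil) .nil)))) 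
(.nd (nat_lit 9) 
(.lf (nat_lit 497974) (.g (nat_lit 1926) (.e (nat_lit 163943) (nat_lit 19) (.e (nat_lit 483399) (nat_lit 25) (.e (nat_lit 368676) (nat_lit 21) (.e (nat_lit 516195) (nat_lit 26) (.e (nat_lit 335993) (nat_lit 1) (.e (nat_lit 57931) (nat_lit 282) .nil)))))) (.g (nat_lit 1) (.e (nat_lit 162800) (nat_lit 0) .nil) .nil))) 
(.lf (nat_lit 498486) (.g (nat_lit 1484) (.e (nat_lit 163962) (nat_lit 25) (.e (nat_lit 532543) (nat_lit 10) (.e (nat_lit 344130) (nat_lit 26) (.e (nat_lit 557103) (nat_lit 14) (.e (nat_lit 188160) (nat_lit 1) .nil))))) (.g (nat_lit 0) (.e (nat_lit 164439) (nat_lit 0) .nil) .nil))))) (.nd (nat_lit 8) (.nd (nat_lit 9) 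
(.lf (nat_lit 497846) (.g (nat_lit 1018) (.e (nat_lit 163941) (nat_lit 19) (.e (nat_lit 483411) (nat_lit 27) (.e (nat_lit 401414) (nat_lit 0) .nil))) (.g (nat_lit 0) (.e (nat_lit 161829) (nat_lit 0) .nil) .nil))) 
(.lf (nat_lit 498358) (.g (nat_lit 2871) (.e (nat_lit 163962) (nat_lit 25) (.e (nat_lit 532535) (nat_lit 9) (.e (nat_lit 336099) (nat_lit 9) (.e (nat_lit 336028) (nat_lit 3) (.e (nat_lit 98349) (nat_lit 24) (.e (nat_lit 409612) (nat_lit 10) (.e (nat_lit 5762) (nat_lit 315) .nil))))))) (.g (nat_lit 1) (.e (nat_lit 164099) (nat_lit 0) .nil) .nil)))) (.nd (nat_lit 9) 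
(.lf (nat_lit 498102) (.g (nat_lit 840) (.e (nat_lit 163946) (nat_lit 20) (.e (nat_lit 491566) (nat_lit 12) (.e (nat_lit 385105) (nat_lit 50) .nil))) (.g (nat_lit 0) (.e (nat_lit 163493) (nat_lit 0) .nil) .nil))) 
(.lf (nat_lit 498614) (.g (nat_lit 766) (.e (nat_lit 163962) (nat_lit 25) (.e (nat_lit 532549) (nat_lit 12) (.e (nat_lit 360467) (nat_lit 3) (.e (nat_lit 516139) (nat_lit 7) .nil)))) (.g (nat_lit 0) (.e (nat_lit 164708) (nat_lit 0) .nil) .nil)))))) (.nd (nat_lit 7) (.nd (nat_lit 8) (.nd (nat_lit 9) 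
(.lf (nat_lit 497782) (.g (nat_lit 4358) (.e (nat_lit 163941) (nat_lit 19) (.e (nat_lit 483341) (nat_lit 9) (.e (nat_lit 433920) (nat_lit 9) (.e (nat_lit 426436) (nat_lit 18) (.e (nat_lit 98335) (nat_lit 18) (.e (nat_lit 164330) (nat_lit 230) .nil)))))) (.g (nat_lit 1) (.e (nat_lit 161450) (nat_lit 0) .nil) .nil))) 
(.lf (nat_lit 498294) (.g (nat_lit 2513) (.e (nat_lit 163962) (nat_lit 25) (.e (nat_lit 532523) (nat_lit 7) (.e (nat_lit 319531) (nat_lit 16) (.e (nat_lit 286735) (nat_lit 3) (.e (nat_lit 98323) (nat_lit 17) .nil))))) (.g (nat_lit 0) (.e (nat_lit 163897) (nat_lit 0) .nil) .nil)))) (.nd (nat_lit 9) 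
(.lf (nat_lit 498038) (.g (nat_lit 1717) (.e (nat_lit 163945) (nat_lit 20) (.e (nat_lit 491566) (nat_lit 12) (.e (nat_lit 385093) (nat_lit 49) (.e (nat_lit 778327) (nat_lit 6) (.e (nat_lit 81957) (nat_lit 24) (.e (nat_lit 123229) (nat_lit 282) .nil)))))) (.g (nat_lit 1) (.e (nat_lit 163391) (nat_lit 0) .nil) .nil))) 
(.lf (nat_lit 498550) (.g (nat_lit 2688) (.e (nat_lit 163962) (nat_lit 25) (.e (nat_lit 532544) (nat_lit 10) (.e (nat_lit 344133) (nat_lit 26) (.e (nat_lit 557103) (nat_lit 14) (.e (nat_lit 180243) (nat_lit 5) (.e (nat_lit 532501) (nat_lit 1) (.e (nat_lit 57703) (nat_lit 164) (.e (nat_lit 2599) (nat_lit 163) .nil)))))))) (.g (nat_lit 1) (.e (nat_lit 164508) (nat_lit 0) .nil) .nil))))) 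
(.nd (nat_lit 8) (.nd (nat_lit 9) 
(.lf (nat_lit 497910) (.g (nat_lit 3969) (.e (nat_lit 163943) (nat_lit 19) (.e (nat_lit 483341) (nat_lit 9) (.e (nat_lit 426190) (nat_lit 9) (.e (nat_lit 426436) (nat_lit 18) (.e (nat_lit 98335) (nat_lit 18) (.e (nat_lit 164330) (nat_lit 230) .nil)))))) (.g (nat_lit 1) (.e (nat_lit 162275) (nat_lit 0) .nil) .nil))) 
(.lf (nat_lit 498422) (.g (nat_lit 3414) (.e (nat_lit 163962) (nat_lit 25) (.e (nat_lit 532535) (nat_lit 9) (.e (nat_lit 336176) (nat_lit 10) (.e (nat_lit 344130) (nat_lit 26) (.e (nat_lit 557087) (nat_lit 11) (.e (nat_lit 24588) (nat_lit 0) (.e (nat_lit 7936) (nat_lit 360) .nil))))))) (.g (nat_lit 1) (.e (nat_lit 164269) (nat_lit 0) .nil) .nil)))) (.nd (nat_lit 9) 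
(.lf (nat_lit 498166) (.g (nat_lit 2182) (.e (nat_lit 163962) (nat_lit 25) (.e (nat_lit 532482) (nat_lit 0) (.e (nat_lit 6203) (nat_lit 332) (.e (nat_lit 2798) (nat_lit 180) (.e (nat_lit 303119) (nat_lit 3) (.e (nat_lit 204859) (nat_lit 26) (.e (nat_lit 335876) (nat_lit 0) (.e (nat_lit 6711) (nat_lit 360) .nil)))))))) (.g (nat_lit 1) (.e (nat_lit 163607) (nat_lit 0) .nil) .nil))) 
(.lf (nat_lit 498678) (.g (nat_lit 1214) (.e (nat_lit 163962) (nat_lit 25) (.e (nat_lit 532550) (nat_lit 12) (.e (nat_lit 360471) (nat_lit 7) (.e (nat_lit 548870) (nat_lit 5) .nil)))) (.g (nat_lit 0) (.e (nat_lit 164847) (nat_lit 0) .nil) .nil))))))))) (.nd (nat_lit 4) (.nd (nat_lit 5) (.nd (nat_lit 6) (.nd (nat_lit 7) (.nd (nat_lit 8) (.nd (nat_lit 9) 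
(.lf (nat_lit 497678) (.g (nat_lit 2205) (.e (nat_lit 163941) (nat_lit 19) (.e (nat_lit 483339) (nat_lit 9) (.e (nat_lit 426260) (nat_lit 9) (.e (nat_lit 426435) (nat_lit 18) (.e (nat_lit 98335) (nat_lit 18) (.e (nat_lit 164324) (nat_lit 230) .nil)))))) (.g (nat_lit 1) (.e (nat_lit 161239) (nat_lit 0) .nil) .nil))) 
(.lf (nat_lit 498190) (.g (nat_lit 2579) (.e (nat_lit 163962) (nat_lit 25) (.e (nat_lit 532499) (nat_lit 1) (.e (nat_lit 57927) (nat_lit 282) (.e (nat_lit 163875) (nat_lit 3) (.e (nat_lit 204850) (nat_lit 26) .nil))))) (.g (nat_lit 0) (.e (nat_lit 163653) (nat_lit 0) .nil) .nil)))) (.nd (nat_lit 9) 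
(.lf (nat_lit 497934) (.g (nat_lit 2265) (.e (nat_lit 163943) (nat_lit 19) (.e (nat_lit 483364) (nat_lit 18) (.e (nat_lit 57854) (nat_lit 252) (.e (nat_lit 57378) (nat_lit 3) (.e (nat_lit 98333) (nat_lit 18) .nil))))) (.g (nat_lit 0) (.e (nat_lit 162631) (nat_lit 0) .nil) .nil))) 
(.lf (nat_lit 498446) (.g (nat_lit 2014) (.e (nat_lit 163962) (nat_lit 25) (.e (nat_lit 532535) (nat_lit 9) (.e (nat_lit 336176) (nat_lit 10) (.e (nat_lit 344133) (nat_lit 26) (.e (nat_lit 557085) (nat_lit 11) .nil))))) (.g (nat_lit 0) (.e (nat_lit 164333) (nat_lit 0) .nil) .nil))))) (.nd (nat_lit 8) (.nd (nat_lit 9) 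
(.lf (nat_lit 497806) (.g (nat_lit 3692) (.e (nat_lit 163941) (nat_lit 19) (.e (nat_lit 483341) (nat_lit 9) (.e (nat_lit 426314) (nat_lit 12) (.e (nat_lit 475179) (nat_lit 24) (.e (nat_lit 516120) (nat_lit 1) (.e (nat_lit 164332) (nat_lit 230) .nil)))))) (.g (nat_lit 1) (.e (nat_lit 161574) (nat_lit 0) .nil) .nil))) 
(.lf (nat_lit 498318) (.g (nat_lit 4075) (.e (nat_lit 163962) (nat_lit 25) (.e (nat_lit 532526) (nat_lit 8) (.e (nat_lit 327699) (nat_lit 8) (.e (nat_lit 303117) (nat_lit 2) (.e (nat_lit 196668) (nat_lit 14) (.e (nat_lit 81664) (nat_lit 35) .nil)))))) (.g (nat_lit 1) (.e (nat_lit 163927) (nat_lit 0) .nil) .nil)))) (.nd (nat_lit 9) 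
(.lf (nat_lit 498062) (.g (nat_lit 3245) (.e (nat_lit 163945) (nat_lit 20) (.e (nat_lit 491568) (nat_lit 13) (.e (nat_lit 393301) (nat_lit 27) (.e (nat_lit 491560) (nat_lit 10) (.e (nat_lit 344088) (nat_lit 18) .nil))))) (.g (nat_lit 0) (.e (nat_lit 163425) (nat_lit 0) .nil) .nil))) 
(.lf (nat_lit 498574) (.g (nat_lit 3229) (.e (nat_lit 163962) (nat_lit 25) (.e (nat_lit 532547) (nat_lit 11) (.e (nat_lit 352314) (nat_lit 23) (.e (nat_lit 98350) (nat_lit 24) (.e (nat_lit 409616) (nat_lit 10) (.e (nat_lit 5762) (nat_lit 315) .nil)))))) (.g (nat_lit 1) (.e (nat_lit 164593) (nat_lit 0) .nil) .nil)))))) (.nd (nat_lit 7) (.nd (nat_lit 8) (.nd (nat_lit 9) 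
(.lf (nat_lit 497742) (.g (nat_lit 7812) (.e (nat_lit 163941) (nat_lit 19) (.e (nat_lit 483341) (nat_lit 9) (.e (nat_lit 426197) (nat_lit 9) (.e (nat_lit 426436) (nat_lit 18) (.e (nat_lit 98335) (nat_lit 18) (.e (nat_lit 164322) (nat_lit 230) .nil)))))) (.g (nat_lit 1) (.e (nat_lit 161356) (nat_lit 0) .nil) .nil))) 
(.lf (nat_lit 498254) (.g (nat_lit 2523) (.e (nat_lit 163962) (nat_lit 25) (.e (nat_lit 532513) (nat_lit 3) (.e (nat_lit 114714) (nat_lit 22) (.e (nat_lit 90174) (nat_lit 14) (.e (nat_lit 180243) (nat_lit 5) (.e (nat_lit 532501) (nat_lit 1) (.e (nat_lit 57670) (nat_lit 152) (.e (nat_lit 7936) (nat_lit 163) .nil)))))))) (.g (nat_lit 1) (.e (nat_lit 163776) (nat_lit 0) .nil) .nil)))) 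
(.nd (nat_lit 9) 
(.lf (nat_lit 497998) (.g (nat_lit 2097) (.e (nat_lit 163944) (nat_lit 19) (.e (nat_lit 483339) (nat_lit 9) (.e (nat_lit 426234) (nat_lit 9) (.e (nat_lit 426435) (nat_lit 18) (.e (nat_lit 98333) (nat_lit 18) (.e (nat_lit 164325) (nat_lit 230) .nil)))))) (.g (nat_lit 1) (.e (nat_lit 162960) (nat_lit 0) .nil) .nil))) 
(.lf (nat_lit 498510) (.g (nat_lit 1977) (.e (nat_lit 163962) (nat_lit 25) (.e (nat_lit 532544) (nat_lit 10) (.e (nat_lit 344130) (nat_lit 26) (.e (nat_lit 557097) (nat_lit 13) (.e (nat_lit 172132) (nat_lit 15) .nil))))) (.g (nat_lit 0) (.e (nat_lit 164468) (nat_lit 0) .nil) .nil))))) (.nd (nat_lit 8) (.nd (nat_lit 9) 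
(.lf (nat_lit 497870) (.g (nat_lit 3370) (.e (nat_lit 163942) (nat_lit 19) (.e (nat_lit 483341) (nat_lit 9) (.e (nat_lit 426200) (nat_lit 9) (.e (nat_lit 426436) (nat_lit 18) (.e (nat_lit 98335) (nat_lit 18) (.e (nat_lit 164326) (nat_lit 230) .nil)))))) (.g (nat_lit 1) (.e (nat_lit 161935) (nat_lit 0) .nil) .nil))) 
(.lf (nat_lit 498382) (.g (nat_lit 3616) (.e (nat_lit 163962) (nat_lit 25) (.e (nat_lit 532535) (nat_lit 9) (.e (nat_lit 336163) (nat_lit 10) (.e (nat_lit 344119) (nat_lit 21) (.e (nat_lit 516139) (nat_lit 7) (.e (nat_lit 409616) (nat_lit 10) (.e (nat_lit 5763) (nat_lit 315) .nil))))))) (.g (nat_lit 1) (.e (nat_lit 164162) (nat_lit 0) .nil) .nil)))) (.nd (nat_lit 9) 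
(.lf (nat_lit 498126) (.g (nat_lit 3693) (.e (nat_lit 163950) (nat_lit 21) (.e (nat_lit 499718) (nat_lit 0) (.e (nat_lit 1374) (nat_lit 104) (.e (nat_lit 303145) (nat_lit 13) (.e (nat_lit 483337) (nat_lit 9) (.e (nat_lit 426107) (nat_lit 1) (.e (nat_lit 164347) (nat_lit 240) (.e (nat_lit 2599) (nat_lit 163) .nil)))))))) (.g (nat_lit 1) (.e (nat_lit 163526) (nat_lit 0) .nil) .nil))) 
(.lf (nat_lit 498638) (.g (nat_lit 1780) (.e (nat_lit 163962) (nat_lit 25) (.e (nat_lit 532549) (nat_lit 12) (.e (nat_lit 360473) (nat_lit 8) (.e (nat_lit 557086) (nat_lit 11) (.e (nat_lit 24578) (nat_lit 0) .nil))))) (.g (nat_lit 0) (.e (nat_lit 164756) (nat_lit 0) .nil) .nil))))))) (.nd (nat_lit 6) (.nd (nat_lit 7) (.nd (nat_lit 8) (.nd (nat_lit 9) 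
(.lf (nat_lit 497710) (.g (nat_lit 5062) (.e (nat_lit 163941) (nat_lit 19) (.e (nat_lit 483341) (nat_lit 9) (.e (nat_lit 426186) (nat_lit 9) (.e (nat_lit 426436) (nat_lit 18) (.e (nat_lit 98335) (nat_lit 18) (.e (nat_lit 164324) (nat_lit 230) .nil)))))) (.g (nat_lit 1) (.e (nat_lit 161276) (nat_lit 0) .nil) .nil))) 
(.lf (nat_lit 498222) (.g (nat_lit 2548) (.e (nat_lit 163962) (nat_lit 25) (.e (nat_lit 532500) (nat_lit 1) (.e (nat_lit 57929) (nat_lit 282) (.e (nat_lit 163869) (nat_lit 2) (.e (nat_lit 196670) (nat_lit 14) (.e (nat_lit 73746) (nat_lit 3) (.e (nat_lit 516124) (nat_lit 2) (.e (nat_lit 213033) (nat_lit 12) .nil)))))))) (.g (nat_lit 1) (.e (nat_lit 163712) (nat_lit 0) .nil) .nil)))) 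
(.nd (nat_lit 9) 
(.lf (nat_lit 497966) (.g (nat_lit 2037) (.e (nat_lit 163943) (nat_lit 19) (.e (nat_lit 483398) (nat_lit 25) (.e (nat_lit 368676) (nat_lit 21) (.e (nat_lit 516195) (nat_lit 26) (.e (nat_lit 335993) (nat_lit 1) (.e (nat_lit 57931) (nat_lit 282) .nil)))))) (.g (nat_lit 1) (.e (nat_lit 162791) (nat_lit 0) .nil) .nil))) 
(.lf (nat_lit 498478) (.g (nat_lit 2126) (.e (nat_lit 163962) (nat_lit 25) (.e (nat_lit 532543) (nat_lit 10) (.e (nat_lit 344129) (nat_lit 26) (.e (nat_lit 557097) (nat_lit 13) (.e (nat_lit 172065) (nat_lit 3) .nil))))) (.g (nat_lit 0) (.e (nat_lit 164431) (nat_lit 0) .nil) .nil))))) (.nd (nat_lit 8) (.nd (nat_lit 9) 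
(.lf (nat_lit 497838) (.g (nat_lit 1759) (.e (nat_lit 163941) (nat_lit 19) (.e (nat_lit 483393) (nat_lit 23) (.e (nat_lit 336021) (nat_lit 3) (.e (nat_lit 98316) (nat_lit 9) .nil)))) (.g (nat_lit 0) (.e (nat_lit 161791) (nat_lit 0) .nil) .nil))) 
(.lf (nat_lit 498350) (.g (nat_lit 3055) (.e (nat_lit 163962) (nat_lit 25) (.e (nat_lit 532535) (nat_lit 9) (.e (nat_lit 336073) (nat_lit 9) (.e (nat_lit 336028) (nat_lit 3) (.e (nat_lit 98350) (nat_lit 24) (.e (nat_lit 409617) (nat_lit 10) (.e (nat_lit 5757) (nat_lit 315) .nil))))))) (.g (nat_lit 1) (.e (nat_lit 164046) (nat_lit 0) .nil) .nil)))) (.nd (nat_lit 9) 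
(.lf (nat_lit 498094) (.g (nat_lit 1451) (.e (nat_lit 163946) (nat_lit 20) (.e (nat_lit 491566) (nat_lit 12) (.e (nat_lit 385095) (nat_lit 49) .nil))) (.g (nat_lit 0) (.e (nat_lit 163479) (nat_lit 0) .nil) .nil))) 
(.lf (nat_lit 498606) (.g (nat_lit 3688) (.e (nat_lit 163962) (nat_lit 25) (.e (nat_lit 532549) (nat_lit 12) (.e (nat_lit 360466) (nat_lit 3) (.e (nat_lit 516139) (nat_lit 7) (.e (nat_lit 409617) (nat_lit 10) (.e (nat_lit 7936) (nat_lit 315) .nil)))))) (.g (nat_lit 1) (.e (nat_lit 164670) (nat_lit 0) .nil) .nil)))))) (.nd (nat_lit 7) (.nd (nat_lit 8) (.nd (nat_lit 9) 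
(.lf (nat_lit 497774) (.g (nat_lit 2685) (.e (nat_lit 163941) (nat_lit 19) (.e (nat_lit 483341) (nat_lit 9) (.e (nat_lit 426200) (nat_lit 9) (.e (nat_lit 426436) (nat_lit 18) (.e (nat_lit 98335) (nat_lit 18) (.e (nat_lit 164322) (nat_lit 230) .nil)))))) (.g (nat_lit 1) (.e (nat_lit 161436) (nat_lit 0) .nil) .nil))) 
(.lf (nat_lit 498286) (.g (nat_lit 2716) (.e (nat_lit 163962) (nat_lit 25) (.e (nat_lit 532523) (nat_lit 7) (.e (nat_lit 319529) (nat_lit 16) (.e (nat_lit 286735) (nat_lit 3) (.e (nat_lit 98350) (nat_lit 24) (.e (nat_lit 409602) (nat_lit 0) (.e (nat_lit 5761) (nat_lit 315) .nil))))))) (.g (nat_lit 1) (.e (nat_lit 163889) (nat_lit 0) .nil) .nil)))) (.nd (nat_lit 9) 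
(.lf (nat_lit 498030) (.g (nat_lit 941) (.e (nat_lit 163945) (nat_lit 20) (.e (nat_lit 491566) (nat_lit 12) (.e (nat_lit 385092) (nat_lit 49) .nil))) (.g (nat_lit 0) (.e (nat_lit 163382) (nat_lit 0) .nil) .nil))) 
(.lf (nat_lit 498542) (.g (nat_lit 3559) (.e (nat_lit 163962) (nat_lit 25) (.e (nat_lit 532544) (nat_lit 10) (.e (nat_lit 344133) (nat_lit 26) (.e (nat_lit 557098) (nat_lit 13) (.e (nat_lit 172136) (nat_lit 15) (.e (nat_lit 1800) (nat_lit 119) (.e (nat_lit 516119) (nat_lit 1) (.e (nat_lit 164345) (nat_lit 240) (.e (nat_lit 2601) (nat_lit 163) .nil))))))))) (.g (nat_lit 1) (.e (nat_lit 164500) (nat_lit 0) .nil) .nil))))) 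
(.nd (nat_lit 8) (.nd (nat_lit 9) 
(.lf (nat_lit 497902) (.g (nat_lit 4310) (.e (nat_lit 163943) (nat_lit 19) (.e (nat_lit 483341) (nat_lit 9) (.e (nat_lit 426187) (nat_lit 9) (.e (nat_lit 426436) (nat_lit 18) (.e (nat_lit 98335) (nat_lit 18) (.e (nat_lit 164332) (nat_lit 230) .nil)))))) (.g (nat_lit 1) (.e (nat_lit 162256) (nat_lit 0) .nil) .nil))) 
(.lf (nat_lit 498414) (.g (nat_lit 1916) (.e (nat_lit 163962) (nat_lit 25) (.e (nat_lit 532535) (nat_lit 9) (.e (nat_lit 336176) (nat_lit 10) (.e (nat_lit 344130) (nat_lit 26) (.e (nat_lit 557070) (nat_lit 9) .nil))))) (.g (nat_lit 0) (.e (nat_lit 164247) (nat_lit 0) .nil) .nil)))) (.nd (nat_lit 9) 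
(.lf (nat_lit 498158) (.g (nat_lit 2344) (.e (nat_lit 163962) (nat_lit 25) (.e (nat_lit 532481) (nat_lit 0) (.e (nat_lit 6203) (nat_lit 332) (.e (nat_lit 2797) (nat_lit 180) (.e (nat_lit 303117) (nat_lit 2) (.e (nat_lit 196668) (nat_lit 14) (.e (nat_lit 81664) (nat_lit 35) .nil))))))) (.g (nat_lit 1) (.e (nat_lit 163587) (nat_lit 0) .nil) .nil))) 
(.lf (nat_lit 498670) (.g (nat_lit 3491) (.e (nat_lit 163962) (nat_lit 25) (.e (nat_lit 532550) (nat_lit 12) (.e (nat_lit 360467) (nat_lit 3) (.e (nat_lit 516139) (nat_lit 7) (.e (nat_lit 409616) (nat_lit 10) (.e (nat_lit 5762) (nat_lit 315) .nil)))))) (.g (nat_lit 1) (.e (nat_lit 164834) (nat_lit 0) .nil) .nil)))))))) 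
(.nd (nat_lit 5) (.nd (nat_lit 6) (.nd (nat_lit 7) (.nd (nat_lit 8) (.nd (nat_lit 9) 
(.lf (nat_lit 497694) (.g (nat_lit 2201) (.e (nat_lit 163941) (nat_lit 19) (.e (nat_lit 483339) (nat_lit 9) (.e (nat_lit 426262) (nat_lit 9) (.e (nat_lit 426435) (nat_lit 18) (.e (nat_lit 98335) (nat_lit 18) (.e (nat_lit 164325) (nat_lit 230) .nil)))))) (.g (nat_lit 1) (.e (nat_lit 161256) (nat_lit 0) .nil) .nil))) 
(.lf (nat_lit 498206) (.g (nat_lit 2778) (.e (nat_lit 163962) (nat_lit 25) (.e (nat_lit 532500) (nat_lit 1) (.e (nat_lit 57926) (nat_lit 282) (.e (nat_lit 163874) (nat_lit 3) (.e (nat_lit 204862) (nat_lit 27) (.e (nat_lit 344117) (nat_lit 21) (.e (nat_lit 516123) (nat_lit 2) (.e (nat_lit 213033) (nat_lit 12) .nil)))))))) (.g (nat_lit 1) (.e (nat_lit 163688) (nat_lit 0) .nil) .nil)))) 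
(.nd (nat_lit 9) 
(.lf (nat_lit 497950) (.g (nat_lit 3598) (.e (nat_lit 163943) (nat_lit 19) (.e (nat_lit 483394) (nat_lit 24) (.e (nat_lit 344117) (nat_lit 21) (.e (nat_lit 516195) (nat_lit 26) (.e (nat_lit 335986) (nat_lit 1) (.e (nat_lit 57926) (nat_lit 282) .nil)))))) (.g (nat_lit 1) (.e (nat_lit 162747) (nat_lit 0) .nil) .nil))) 
(.lf (nat_lit 498462) (.g (nat_lit 1166) (.e (nat_lit 163962) (nat_lit 25) (.e (nat_lit 532535) (nat_lit 9) (.e (nat_lit 336226) (nat_lit 14) (.e (nat_lit 401425) (nat_lit 2) .nil)))) (.g (nat_lit 0) (.e (nat_lit 164384) (nat_lit 0) .nil) .nil))))) (.nd (nat_lit 8) (.nd (nat_lit 9) 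
(.lf (nat_lit 497822) (.g (nat_lit 357) (.e (nat_lit 163941) (nat_lit 19) (.e (nat_lit 483345) (nat_lit 17) (.e (nat_lit 6712) (nat_lit 360) .nil))) (.g (nat_lit 0) (.e (nat_lit 161692) (nat_lit 0) .nil) .nil))) 
(.lf (nat_lit 498334) (.g (nat_lit 2587) (.e (nat_lit 163962) (nat_lit 25) (.e (nat_lit 532535) (nat_lit 9) (.e (nat_lit 336058) (nat_lit 7) (.e (nat_lit 319519) (nat_lit 12) (.e (nat_lit 40704) (nat_lit 5) (.e (nat_lit 1512) (nat_lit 108) (.e (nat_lit 335874) (nat_lit 0) (.e (nat_lit 6713) (nat_lit 360) .nil)))))))) (.g (nat_lit 1) (.e (nat_lit 164010) (nat_lit 0) .nil) .nil)))) (.nd (nat_lit 9) 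
(.lf (nat_lit 498078) (.g (nat_lit 1841) (.e (nat_lit 163945) (nat_lit 20) (.e (nat_lit 491571) (nat_lit 13) (.e (nat_lit 393299) (nat_lit 27) (.e (nat_lit 491558) (nat_lit 10) .nil)))) (.g (nat_lit 0) (.e (nat_lit 163463) (nat_lit 0) .nil) .nil))) 
(.lf (nat_lit 498590) (.g (nat_lit 415) (.e (nat_lit 163962) (nat_lit 25) (.e (nat_lit 532547) (nat_lit 11) (.e (nat_lit 352318) (nat_lit 24) .nil))) (.g (nat_lit 0) (.e (nat_lit 164622) (nat_lit 0) .nil) .nil)))))) (.nd (nat_lit 7) (.nd (nat_lit 8) (.nd (nat_lit 9) 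
(.lf (nat_lit 497758) (.g (nat_lit 6042) (.e (nat_lit 163941) (nat_lit 19) (.e (nat_lit 483341) (nat_lit 9) (.e (nat_lit 426199) (nat_lit 9) (.e (nat_lit 426436) (nat_lit 18) (.e (nat_lit 98335) (nat_lit 18) (.e (nat_lit 164322) (nat_lit 230) .nil)))))) (.g (nat_lit 1) (.e (nat_lit 161404) (nat_lit 0) .nil) .nil))) 
(.lf (nat_lit 498270) (.g (nat_lit 3780) (.e (nat_lit 163962) (nat_lit 25) (.e (nat_lit 532523) (nat_lit 7) (.e (nat_lit 319490) (nat_lit 0) (.e (nat_lit 5664) (nat_lit 312) (.e (nat_lit 2661) (nat_lit 167) (.e (nat_lit 196670) (nat_lit 14) (.e (nat_lit 81664) (nat_lit 35) .nil))))))) (.g (nat_lit 1) (.e (nat_lit 163853) (nat_lit 0) .nil) .nil)))) (.nd (nat_lit 9) 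
(.lf (nat_lit 498014) (.g (nat_lit 2165) (.e (nat_lit 163944) (nat_lit 19) (.e (nat_lit 483341) (nat_lit 9) (.e (nat_lit 426190) (nat_lit 9) (.e (nat_lit 426436) (nat_lit 18) (.e (nat_lit 98335) (nat_lit 18) (.e (nat_lit 164324) (nat_lit 230) .nil)))))) (.g (nat_lit 1) (.e (nat_lit 163000) (nat_lit 0) .nil) .nil))) 
(.lf (nat_lit 498526) (.g (nat_lit 2675) (.e (nat_lit 163962) (nat_lit 25) (.e (nat_lit 532544) (nat_lit 10) (.e (nat_lit 344132) (nat_lit 26) (.e (nat_lit 557100) (nat_lit 13) (.e (nat_lit 179968) (nat_lit 15) (.e (nat_lit 1800) (nat_lit 119) (.e (nat_lit 516119) (nat_lit 1) (.e (nat_lit 164345) (nat_lit 240) (.e (nat_lit 2601) (nat_lit 163) .nil))))))))) (.g (nat_lit 1) (.e (nat_lit 164484) (nat_lit 0) .nil) .nil))))) 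
(.nd (nat_lit 8) (.nd (nat_lit 9) 
(.lf (nat_lit 497886) (.g (nat_lit 2850) (.e (nat_lit 163943) (nat_lit 19) (.e (nat_lit 483337) (nat_lit 9) (.e (nat_lit 426190) (nat_lit 9) (.e (nat_lit 426436) (nat_lit 18) (.e (nat_lit 98335) (nat_lit 18) (.e (nat_lit 164325) (nat_lit 230) .nil)))))) (.g (nat_lit 1) (.e (nat_lit 162143) (nat_lit 0) .nil) .nil))) 
(.lf (nat_lit 498398) (.g (nat_lit 1833) (.e (nat_lit 163962) (nat_lit 25) (.e (nat_lit 532535) (nat_lit 9) (.e (nat_lit 336176) (nat_lit 10) (.e (nat_lit 344119) (nat_lit 21) (.e (nat_lit 516139) (nat_lit 7) .nil))))) (.g (nat_lit 0) (.e (nat_lit 164202) (nat_lit 0) .nil) .nil)))) (.nd (nat_lit 9) 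
(.lf (nat_lit 498142) (.g (nat_lit 1795) (.e (nat_lit 163950) (nat_lit 21) (.e (nat_lit 507648) (nat_lit 20) (.e (nat_lit 81922) (nat_lit 0) (.e (nat_lit 3305) (nat_lit 202) (.e (nat_lit 573489) (nat_lit 14) (.e (nat_lit 81664) (nat_lit 35) .nil)))))) (.g (nat_lit 1) (.e (nat_lit 163542) (nat_lit 0) .nil) .nil))) 
(.lf (nat_lit 498654) (.g (nat_lit 2828) (.e (nat_lit 163962) (nat_lit 25) (.e (nat_lit 532549) (nat_lit 12) (.e (nat_lit 360475) (nat_lit 8) (.e (nat_lit 557086) (nat_lit 11) (.e (nat_lit 24577) (nat_lit 0) .nil))))) (.g (nat_lit 0) (.e (nat_lit 164789) (nat_lit 0) .nil) .nil))))))) (.nd (nat_lit 6) (.nd (nat_lit 7) (.nd (nat_lit 8) (.nd (nat_lit 9) 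
(.lf (nat_lit 497726) (.g (nat_lit 3961) (.e (nat_lit 163941) (nat_lit 19) (.e (nat_lit 483341) (nat_lit 9) (.e (nat_lit 426188) (nat_lit 9) (.e (nat_lit 426436) (nat_lit 18) (.e (nat_lit 98335) (nat_lit 18) (.e (nat_lit 164332) (nat_lit 230) .nil)))))) (.g (nat_lit 1) (.e (nat_lit 161304) (nat_lit 0) .nil) .nil))) 
(.lf (nat_lit 498238) (.g (nat_lit 3405) (.e (nat_lit 163962) (nat_lit 25) (.e (nat_lit 532513) (nat_lit 3) (.e (nat_lit 114714) (nat_lit 22) (.e (nat_lit 90172) (nat_lit 14) (.e (nat_lit 180244) (nat_lit 5) (.e (nat_lit 532501) (nat_lit 1) (.e (nat_lit 57651) (nat_lit 152) (.e (nat_lit 2615) (nat_lit 163) .nil)))))))) (.g (nat_lit 1) (.e (nat_lit 163753) (nat_lit 0) .nil) .nil)))) 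
(.nd (nat_lit 9) 
(.lf (nat_lit 497982) (.g (nat_lit 1137) (.e (nat_lit 163943) (nat_lit 19) (.e (nat_lit 483413) (nat_lit 27) (.e (nat_lit 401408) (nat_lit 0) (.e (nat_lit 3308) (nat_lit 202) .nil)))) (.g (nat_lit 0) (.e (nat_lit 162830) (nat_lit 0) .nil) .nil))) 
(.lf (nat_lit 498494) (.g (nat_lit 1693) (.e (nat_lit 163962) (nat_lit 25) (.e (nat_lit 532544) (nat_lit 10) (.e (nat_lit 344117) (nat_lit 21) (.e (nat_lit 516123) (nat_lit 2) .nil)))) (.g (nat_lit 0) (.e (nat_lit 164452) (nat_lit 0) .nil) .nil))))) (.nd (nat_lit 8) (.nd (nat_lit 9) 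
(.lf (nat_lit 497854) (.g (nat_lit 3597) (.e (nat_lit 163942) (nat_lit 19) (.e (nat_lit 483341) (nat_lit 9) (.e (nat_lit 426188) (nat_lit 9) (.e (nat_lit 426436) (nat_lit 18) (.e (nat_lit 98335) (nat_lit 18) (.e (nat_lit 164324) (nat_lit 230) .nil)))))) (.g (nat_lit 1) (.e (nat_lit 161889) (nat_lit 0) .nil) .nil))) 
(.lf (nat_lit 498366) (.g (nat_lit 4559) (.e (nat_lit 163962) (nat_lit 25) (.e (nat_lit 532535) (nat_lit 9) (.e (nat_lit 336110) (nat_lit 9) (.e (nat_lit 336028) (nat_lit 3) (.e (nat_lit 98350) (nat_lit 24) (.e (nat_lit 409616) (nat_lit 10) (.e (nat_lit 5762) (nat_lit 315) .nil))))))) (.g (nat_lit 1) (.e (nat_lit 164119) (nat_lit 0) .nil) .nil)))) (.nd (nat_lit 9) 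
(.lf (nat_lit 498110) (.g (nat_lit 1908) (.e (nat_lit 163946) (nat_lit 20) (.e (nat_lit 491571) (nat_lit 13) (.e (nat_lit 393299) (nat_lit 27) (.e (nat_lit 491558) (nat_lit 10) .nil)))) (.g (nat_lit 0) (.e (nat_lit 163508) (nat_lit 0) .nil) .nil))) 
(.lf (nat_lit 498622) (.g (nat_lit 1680) (.e (nat_lit 163962) (nat_lit 25) (.e (nat_lit 532549) (nat_lit 12) (.e (nat_lit 360468) (nat_lit 3) (.e (nat_lit 516139) (nat_lit 7) (.e (nat_lit 417536) (nat_lit 10) .nil))))) (.g (nat_lit 0) (.e (nat_lit 164716) (nat_lit 0) .nil) .nil)))))) (.nd (nat_lit 7) (.nd (nat_lit 8) (.nd (nat_lit 9) 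
(.lf (nat_lit 497790) (.g (nat_lit 3673) (.e (nat_lit 163941) (nat_lit 19) (.e (nat_lit 483341) (nat_lit 9) (.e (nat_lit 426306) (nat_lit 12) (.e (nat_lit 475179) (nat_lit 24) (.e (nat_lit 516119) (nat_lit 1) (.e (nat_lit 164326) (nat_lit 230) .nil)))))) (.g (nat_lit 1) (.e (nat_lit 161496) (nat_lit 0) .nil) .nil))) 
(.lf (nat_lit 498302) (.g (nat_lit 1544) (.e (nat_lit 163962) (nat_lit 25) (.e (nat_lit 532523) (nat_lit 7) (.e (nat_lit 319533) (nat_lit 16) (.e (nat_lit 286735) (nat_lit 3) .nil)))) (.g (nat_lit 0) (.e (nat_lit 163905) (nat_lit 0) .nil) .nil)))) (.nd (nat_lit 9) 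
(.lf (nat_lit 498046) (.g (nat_lit 2556) (.e (nat_lit 163945) (nat_lit 20) (.e (nat_lit 491566) (nat_lit 12) (.e (nat_lit 385104) (nat_lit 50) (.e (nat_lit 786483) (nat_lit 30) (.e (nat_lit 360448) (nat_lit 0) .nil))))) (.g (nat_lit 0) (.e (nat_lit 163409) (nat_lit 0) .nil) .nil))) 
(.lf (nat_lit 498558) (.g (nat_lit 2680) (.e (nat_lit 163962) (nat_lit 25) (.e (nat_lit 532544) (nat_lit 10) (.e (nat_lit 344133) (nat_lit 26) (.e (nat_lit 557105) (nat_lit 14) (.e (nat_lit 180245) (nat_lit 5) .nil))))) (.g (nat_lit 0) (.e (nat_lit 164516) (nat_lit 0) .nil) .nil))))) (.nd (nat_lit 8) (.nd (nat_lit 9) 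
(.lf (nat_lit 497918) (.g (nat_lit 4024) (.e (nat_lit 163943) (nat_lit 19) (.e (nat_lit 483341) (nat_lit 9) (.e (nat_lit 426200) (nat_lit 9) (.e (nat_lit 426436) (nat_lit 18) (.e (nat_lit 98335) (nat_lit 18) (.e (nat_lit 164324) (nat_lit 230) .nil)))))) (.g (nat_lit 1) (.e (nat_lit 162328) (nat_lit 0) .nil) .nil))) 
(.lf (nat_lit 498430) (.g (nat_lit 1689) (.e (nat_lit 163962) (nat_lit 25) (.e (nat_lit 532535) (nat_lit 9) (.e (nat_lit 336176) (nat_lit 10) (.e (nat_lit 344132) (nat_lit 26) (.e (nat_lit 557070) (nat_lit 9) .nil))))) (.g (nat_lit 0) (.e (nat_lit 164277) (nat_lit 0) .nil) .nil)))) (.nd (nat_lit 9) 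
(.lf (nat_lit 498174) (.g (nat_lit 1633) (.e (nat_lit 163962) (nat_lit 25) (.e (nat_lit 532490) (nat_lit 0) (.e (nat_lit 6114) (nat_lit 332) (.e (nat_lit 1374) (nat_lit 104) .nil)))) (.g (nat_lit 0) (.e (nat_lit 163618) (nat_lit 0) .nil) .nil))) 
(.lf (nat_lit 498686) (.g (nat_lit 1919) (.e (nat_lit 163962) (nat_lit 25) (.e (nat_lit 532550) (nat_lit 12) (.e (nat_lit 360474) (nat_lit 8) (.e (nat_lit 557070) (nat_lit 9) (.e (nat_lit 7936) (nat_lit 21) (.e (nat_lit 335874) (nat_lit 0) (.e (nat_lit 6711) (nat_lit 360) .nil))))))) (.g (nat_lit 1) (.e (nat_lit 164856) (nat_lit 0) .nil) .nil)))))))))))) 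
(.nd (nat_lit 1) (.nd (nat_lit 2) (.nd (nat_lit 3) (.nd (nat_lit 4) (.nd (nat_lit 5) 
(.nd (nat_lit 6) (.nd (nat_lit 7) (.nd (nat_lit 8) (.nd (nat_lit 9) 
(.lf (nat_lit 497665) (.g (nat_lit 2003) (.e (nat_lit 163941) (nat_lit 19) (.e (nat_lit 483339) (nat_lit 9) (.e (nat_lit 426230) (nat_lit 9) (.e (nat_lit 426435) (nat_lit 18) (.e (nat_lit 98335) (nat_lit 18) (.e (nat_lit 164327) (nat_lit 230) .nil)))))) (.g (nat_lit 1) (.e (nat_lit 161225) (nat_lit 0) .nil) .nil))) 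
(.lf (nat_lit 498177) (.g (nat_lit 3514) (.e (nat_lit 163962) (nat_lit 25) (.e (nat_lit 532499) (nat_lit 1) (.e (nat_lit 57847) (nat_lit 252) (.e (nat_lit 57446) (nat_lit 19) .nil)))) (.g (nat_lit 0) (.e (nat_lit 163622) (nat_lit 0) .nil) .nil)))) (.nd (nat_lit 9) 
(.lf (nat_lit 497921) (.g (nat_lit 742) (.e (nat_lit 163943) (nat_lit 19) (.e (nat_lit 483341) (nat_lit 9) (.e (nat_lit 426213) (nat_lit 9) .nil))) (.g (nat_lit 0) (.e (nat_lit 162333) (nat_lit 0) .nil) .nil))) 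
(.lf (nat_lit 498433) (.g (nat_lit 2711) (.e (nat_lit 163962) (nat_lit 25) (.e (nat_lit 532535) (nat_lit 9) (.e (nat_lit 336176) (nat_lit 10) (.e (nat_lit 344132) (nat_lit 26) (.e (nat_lit 557072) (nat_lit 9) (.e (nat_lit 7936) (nat_lit 19) (.e (nat_lit 319492) (nat_lit 0) (.e (nat_lit 5761) (nat_lit 315) .nil)))))))) (.g (nat_lit 1) (.e (nat_lit 164281) (nat_lit 0) .nil) .nil))))) 
(.nd (nat_lit 8) (.nd (nat_lit 9) 
(.lf (nat_lit 497793) (.g (nat_lit 3285) (.e (nat_lit 163941) (nat_lit 19) (.e (nat_lit 483341) (nat_lit 9) (.e (nat_lit 426307) (nat_lit 12) (.e (nat_lit 475178) (nat_lit 24) (.e (nat_lit 516117) (nat_lit 1) (.e (nat_lit 164329) (nat_lit 230) .nil)))))) (.g (nat_lit 1) (.e (nat_lit 161508) (nat_lit 0) .nil) .nil))) 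
(.lf (nat_lit 498305) (.g (nat_lit 2835) (.e (nat_lit 163962) (nat_lit 25) (.e (nat_lit 532523) (nat_lit 7) (.e (nat_lit 319534) (nat_lit 16) (.e (nat_lit 286734) (nat_lit 3) (.e (nat_lit 98367) (nat_lit 27) (.e (nat_lit 442112) (nat_lit 11) .nil)))))) (.g (nat_lit 1) (.e (nat_lit 163908) (nat_lit 0) .nil) .nil)))) (.nd (nat_lit 9) 
(.lf (nat_lit 498049) (.g (nat_lit 2042) (.e (nat_lit 163945) (nat_lit 20) (.e (nat_lit 491566) (nat_lit 12) (.e (nat_lit 385105) (nat_lit 50) (.e (nat_lit 786481) (nat_lit 30) (.e (nat_lit 360449) (nat_lit 0) .nil))))) (.g (nat_lit 0) (.e (nat_lit 163412) (nat_lit 0) .nil) .nil))) 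
(.lf (nat_lit 498561) (.g (nat_lit 4004) (.e (nat_lit 163962) (nat_lit 25) (.e (nat_lit 532544) (nat_lit 10) (.e (nat_lit 344133) (nat_lit 26) (.e (nat_lit 557105) (nat_lit 14) (.e (nat_lit 180252) (nat_lit 10) (.e (nat_lit 573474) (nat_lit 12) (.e (nat_lit 57507) (nat_lit 39) (.e (nat_lit 647180) (nat_lit 3) .nil)))))))) (.g (nat_lit 1) (.e (nat_lit 164519) (nat_lit 0) .nil) .nil)))))) 
(.nd (nat_lit 7) (.nd (nat_lit 8) (.nd (nat_lit 9) 
(.lf (nat_lit 497729) (.g (nat_lit 4319) (.e (nat_lit 163941) (nat_lit 19) (.e (nat_lit 483341) (nat_lit 9) (.e (nat_lit 426189) (nat_lit 9) (.e (nat_lit 426436) (nat_lit 18) (.e (nat_lit 98335) (nat_lit 18) (.e (nat_lit 164329) (nat_lit 230) .nil)))))) (.g (nat_lit 1) (.e (nat_lit 161317) (nat_lit 0) .nil) .nil))) 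
(.lf (nat_lit 498241) (.g (nat_lit 2221) (.e (nat_lit 163962) (nat_lit 25) (.e (nat_lit 532513) (nat_lit 3) (.e (nat_lit 114714) (nat_lit 22) (.e (nat_lit 90172) (nat_lit 14) (.e (nat_lit 180244) (nat_lit 5) (.e (nat_lit 532501) (nat_lit 1) (.e (nat_lit 57664) (nat_lit 152) (.e (nat_lit 7936) (nat_lit 163) .nil)))))))) (.g (nat_lit 1) (.e (nat_lit 163756) (nat_lit 0) .nil) .nil)))) 
(.nd (nat_lit 9) 
(.lf (nat_lit 497985) (.g (nat_lit 1516) (.e (nat_lit 163943) (nat_lit 19) (.e (nat_lit 483413) (nat_lit 27) (.e (nat_lit 401414) (nat_lit 0) (.e (nat_lit 3297) (nat_lit 202) .nil)))) (.g (nat_lit 0) (.e (nat_lit 162833) (nat_lit 0) .nil) .nil))) 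
(.lf (nat_lit 498497) (.g (nat_lit 507) (.e (nat_lit 163962) (nat_lit 25) (.e (nat_lit 532544) (nat_lit 10) (.e (nat_lit 344129) (nat_lit 26) .nil))) (.g (nat_lit 0) (.e (nat_lit 164455) (nat_lit 0) .nil) .nil))))) (.nd (nat_lit 8) (.nd (nat_lit 9) 
(.lf (nat_lit 497857) (.g (nat_lit 3425) (.e (nat_lit 163942) (nat_lit 19) (.e (nat_lit 483341) (nat_lit 9) (.e (nat_lit 426188) (nat_lit 9) (.e (nat_lit 426436) (nat_lit 18) (.e (nat_lit 98335) (nat_lit 18) (.e (nat_lit 164329) (nat_lit 230) .nil)))))) (.g (nat_lit 1) (.e (nat_lit 161892) (nat_lit 0) .nil) .nil))) 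
(.lf (nat_lit 498369) (.g (nat_lit 3224) (.e (nat_lit 163962) (nat_lit 25) (.e (nat_lit 532535) (nat_lit 9) (.e (nat_lit 336110) (nat_lit 9) (.e (nat_lit 336028) (nat_lit 3) (.e (nat_lit 98350) (nat_lit 24) (.e (nat_lit 409617) (nat_lit 10) (.e (nat_lit 5757) (nat_lit 315) .nil))))))) (.g (nat_lit 1) (.e (nat_lit 164123) (nat_lit 0) .nil) .nil)))) (.nd (nat_lit 9) 
(.lf (nat_lit 498113) (.g (nat_lit 1616) (.e (nat_lit 163946) (nat_lit 20) (.e (nat_lit 491571) (nat_lit 13) (.e (nat_lit 393299) (nat_lit 27) (.e (nat_lit 491560) (nat_lit 10) .nil)))) (.g (nat_lit 0) (.e (nat_lit 163511) (nat_lit 0) .nil) .nil))) 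
(.lf (nat_lit 498625) (.g (nat_lit 864) (.e (nat_lit 163962) (nat_lit 25) (.e (nat_lit 532549) (nat_lit 12) (.e (nat_lit 368384) (nat_lit 7) (.e (nat_lit 548890) (nat_lit 10) (.e (nat_lit 81664) (nat_lit 35) .nil))))) (.g (nat_lit 1) (.e (nat_lit 164719) (nat_lit 0) .nil) .nil))))))) (.nd (nat_lit 6) (.nd (nat_lit 7) (.nd (nat_lit 8) (.nd (nat_lit 9) 
(.lf (nat_lit 497697) (.g (nat_lit 2240) (.e (nat_lit 163941) (nat_lit 19) (.e (nat_lit 483339) (nat_lit 9) (.e (nat_lit 426262) (nat_lit 9) (.e (nat_lit 426435) (nat_lit 18) (.e (nat_lit 98335) (nat_lit 18) (.e (nat_lit 164332) (nat_lit 230) .nil)))))) (.g (nat_lit 1) (.e (nat_lit 161259) (nat_lit 0) .nil) .nil))) 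
(.lf (nat_lit 498209) (.g (nat_lit 3379) (.e (nat_lit 163962) (nat_lit 25) (.e (nat_lit 532500) (nat_lit 1) (.e (nat_lit 57926) (nat_lit 282) (.e (nat_lit 163875) (nat_lit 3) (.e (nat_lit 204862) (nat_lit 27) (.e (nat_lit 344117) (nat_lit 21) (.e (nat_lit 516123) (nat_lit 2) (.e (nat_lit 213033) (nat_lit 12) .nil)))))))) (.g (nat_lit 1) (.e (nat_lit 163691) (nat_lit 0) .nil) .nil)))) 
(.nd (nat_lit 9) 
(.lf (nat_lit 497953) (.g (nat_lit 3673) (.e (nat_lit 163943) (nat_lit 19) (.e (nat_lit 483394) (nat_lit 24) (.e (nat_lit 344117) (nat_lit 21) (.e (nat_lit 516195) (nat_lit 26) (.e (nat_lit 335988) (nat_lit 1) (.e (nat_lit 57926) (nat_lit 282) .nil)))))) (.g (nat_lit 1) (.e (nat_lit 162750) (nat_lit 0) .nil) .nil))) 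
(.lf (nat_lit 498465) (.g (nat_lit 3288) (.e (nat_lit 163962) (nat_lit 25) (.e (nat_lit 532535) (nat_lit 9) (.e (nat_lit 336226) (nat_lit 14) (.e (nat_lit 401425) (nat_lit 2) (.e (nat_lit 196622) (nat_lit 9) (.e (nat_lit 1512) (nat_lit 108) (.e (nat_lit 335874) (nat_lit 0) (.e (nat_lit 6711) (nat_lit 360) .nil)))))))) (.g (nat_lit 1) (.e (nat_lit 164387) (nat_lit 0) .nil) .nil))))) 
(.nd (nat_lit 8) (.nd (nat_lit 9) 
(.lf (nat_lit 497825) (.g (nat_lit 1716) (.e (nat_lit 163941) (nat_lit 19) (.e (nat_lit 483346) (nat_lit 17) (.e (nat_lit 6712) (nat_lit 360) (.e (nat_lit 163975) (nat_lit 30) .nil)))) (.g (nat_lit 0) (.e (nat_lit 161724) (nat_lit 0) .nil) .nil))) 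
(.lf (nat_lit 498337) (.g (nat_lit 2662) (.e (nat_lit 163962) (nat_lit 25) (.e (nat_lit 532535) (nat_lit 9) (.e (nat_lit 336061) (nat_lit 7) (.e (nat_lit 319519) (nat_lit 12) (.e (nat_lit 32773) (nat_lit 5) (.e (nat_lit 1512) (nat_lit 108) (.e (nat_lit 335874) (nat_lit 0) (.e (nat_lit 6713) (nat_lit 360) .nil)))))))) (.g (nat_lit 1) (.e (nat_lit 164019) (nat_lit 0) .nil) .nil)))) (.nd (nat_lit 9) 
(.lf (nat_lit 498081) (.g (nat_lit 1554) (.e (nat_lit 163945) (nat_lit 20) (.e (nat_lit 491571) (nat_lit 13) (.e (nat_lit 393299) (nat_lit 27) (.e (nat_lit 491560) (nat_lit 10) .nil)))) (.g (nat_lit 0) (.e (nat_lit 163466) (nat_lit 0) .nil) .nil))) 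
(.lf (nat_lit 498593) (.g (nat_lit 433) (.e (nat_lit 163962) (nat_lit 25) (.e (nat_lit 532549) (nat_lit 12) (.e (nat_lit 360466) (nat_lit 3) .nil))) (.g (nat_lit 0) (.e (nat_lit 164633) (nat_lit 0) .nil) .nil)))))) (.nd (nat_lit 7) (.nd (nat_lit 8) (.nd (nat_lit 9) 
(.lf (nat_lit 497761) (.g (nat_lit 4691) (.e (nat_lit 163941) (nat_lit 19) (.e (nat_lit 483341) (nat_lit 9) (.e (nat_lit 426199) (nat_lit 9) (.e (nat_lit 426436) (nat_lit 18) (.e (nat_lit 98335) (nat_lit 18) (.e (nat_lit 164326) (nat_lit 230) .nil)))))) (.g (nat_lit 1) (.e (nat_lit 161407) (nat_lit 0) .nil) .nil))) 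
(.lf (nat_lit 498273) (.g (nat_lit 3038) (.e (nat_lit 163962) (nat_lit 25) (.e (nat_lit 532523) (nat_lit 7) (.e (nat_lit 319490) (nat_lit 0) (.e (nat_lit 5664) (nat_lit 312) (.e (nat_lit 2679) (nat_lit 168) (.e (nat_lit 204846) (nat_lit 24) (.e (nat_lit 319491) (nat_lit 0) (.e (nat_lit 5761) (nat_lit 315) .nil)))))))) (.g (nat_lit 1) (.e (nat_lit 163856) (nat_lit 0) .nil) .nil)))) 
(.nd (nat_lit 9) 
(.lf (nat_lit 498017) (.g (nat_lit 2735) (.e (nat_lit 163944) (nat_lit 19) (.e (nat_lit 483341) (nat_lit 9) (.e (nat_lit 426197) (nat_lit 9) (.e (nat_lit 426436) (nat_lit 18) (.e (nat_lit 98335) (nat_lit 18) (.e (nat_lit 164325) (nat_lit 230) .nil)))))) (.g (nat_lit 1) (.e (nat_lit 163013) (nat_lit 0) .nil) .nil))) 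
(.lf (nat_lit 498529) (.g (nat_lit 1712) (.e (nat_lit 163962) (nat_lit 25) (.e (nat_lit 532544) (nat_lit 10) (.e (nat_lit 344133) (nat_lit 26) (.e (nat_lit 557096) (nat_lit 13) .nil)))) (.g (nat_lit 0) (.e (nat_lit 164487) (nat_lit 0) .nil) .nil))))) (.nd (nat_lit 8) (.nd (nat_lit 9) 
(.lf (nat_lit 497889) (.g (nat_lit 3736) (.e (nat_lit 163943) (nat_lit 19) (.e (nat_lit 483337) (nat_lit 9) (.e (nat_lit 426200) (nat_lit 9) (.e (nat_lit 426436) (nat_lit 18) (.e (nat_lit 98335) (nat_lit 18) (.e (nat_lit 164324) (nat_lit 230) .nil)))))) (.g (nat_lit 1) (.e (nat_lit 162159) (nat_lit 0) .nil) .nil))) 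
(.lf (nat_lit 498401) (.g (nat_lit 2164) (.e (nat_lit 163962) (nat_lit 25) (.e (nat_lit 532535) (nat_lit 9) (.e (nat_lit 336176) (nat_lit 10) (.e (nat_lit 344125) (nat_lit 25) (.e (nat_lit 548890) (nat_lit 10) (.e (nat_lit 81664) (nat_lit 35) .nil)))))) (.g (nat_lit 1) (.e (nat_lit 164205) (nat_lit 0) .nil) .nil)))) (.nd (nat_lit 9) 
(.lf (nat_lit 498145) (.g (nat_lit 1224) (.e (nat_lit 163950) (nat_lit 21) (.e (nat_lit 507648) (nat_lit 22) (.e (nat_lit 131116) (nat_lit 9) (.e (nat_lit 336004) (nat_lit 2) (.e (nat_lit 90181) (nat_lit 16) (.e (nat_lit 229577) (nat_lit 179) (.e (nat_lit 171776) (nat_lit 249) .nil))))))) (.g (nat_lit 1) (.e (nat_lit 163545) (nat_lit 0) .nil) .nil))) 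
(.lf (nat_lit 498657) (.g (nat_lit 3478) (.e (nat_lit 163962) (nat_lit 25) (.e (nat_lit 532549) (nat_lit 12) (.e (nat_lit 360475) (nat_lit 8) (.e (nat_lit 557087) (nat_lit 11) (.e (nat_lit 24577) (nat_lit 0) .nil))))) (.g (nat_lit 0) (.e (nat_lit 164792) (nat_lit 0) .nil) .nil)))))))) (.nd (nat_lit 5) (.nd (nat_lit 6) (.nd (nat_lit 7) (.nd (nat_lit 8) (.nd (nat_lit 9) 
(.lf (nat_lit 497681) (.g (nat_lit 2015) (.e (nat_lit 163941) (nat_lit 19) (.e (nat_lit 483339) (nat_lit 9) (.e (nat_lit 426260) (nat_lit 9) (.e (nat_lit 426435) (nat_lit 18) (.e (nat_lit 98335) (nat_lit 18) (.e (nat_lit 164327) (nat_lit 230) .nil)))))) (.g (nat_lit 1) (.e (nat_lit 161242) (nat_lit 0) .nil) .nil))) 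
(.lf (nat_lit 498193) (.g (nat_lit 3833) (.e (nat_lit 163962) (nat_lit 25) (.e (nat_lit 532499) (nat_lit 1) (.e (nat_lit 57931) (nat_lit 282) (.e (nat_lit 163869) (nat_lit 2) (.e (nat_lit 196670) (nat_lit 14) (.e (nat_lit 73746) (nat_lit 3) (.e (nat_lit 516126) (nat_lit 2) (.e (nat_lit 213033) (nat_lit 12) .nil)))))))) (.g (nat_lit 1) (.e (nat_lit 163664) (nat_lit 0) .nil) .nil)))) 
(.nd (nat_lit 9) 
(.lf (nat_lit 497937) (.g (nat_lit 2521) (.e (nat_lit 163943) (nat_lit 19) (.e (nat_lit 483380) (nat_lit 23) (.e (nat_lit 336316) (nat_lit 17) (.e (nat_lit 196691) (nat_lit 18) .nil)))) (.g (nat_lit 0) (.e (nat_lit 162650) (nat_lit 0) .nil) .nil))) 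
(.lf (nat_lit 498449) (.g (nat_lit 3604) (.e (nat_lit 163962) (nat_lit 25) (.e (nat_lit 532535) (nat_lit 9) (.e (nat_lit 336177) (nat_lit 10) (.e (nat_lit 344117) (nat_lit 21) (.e (nat_lit 516139) (nat_lit 7) (.e (nat_lit 409617) (nat_lit 10) (.e (nat_lit 5762) (nat_lit 315) .nil))))))) (.g (nat_lit 1) (.e (nat_lit 164337) (nat_lit 0) .nil) .nil))))) (.nd (nat_lit 8) (.nd (nat_lit 9) 
(.lf (nat_lit 497809) (.g (nat_lit 3710) (.e (nat_lit 163941) (nat_lit 19) (.e (nat_lit 483341) (nat_lit 9) (.e (nat_lit 426315) (nat_lit 12) (.e (nat_lit 475179) (nat_lit 24) (.e (nat_lit 516119) (nat_lit 1) (.e (nat_lit 164326) (nat_lit 230) .nil)))))) (.g (nat_lit 1) (.e (nat_lit 161627) (nat_lit 0) .nil) .nil))) 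
(.lf (nat_lit 498321) (.g (nat_lit 1070) (.e (nat_lit 163962) (nat_lit 25) (.e (nat_lit 532526) (nat_lit 8) (.e (nat_lit 327699) (nat_lit 8) (.e (nat_lit 303118) (nat_lit 3) .nil)))) (.g (nat_lit 0) (.e (nat_lit 163930) (nat_lit 0) .nil) .nil)))) (.nd (nat_lit 9) 
(.lf (nat_lit 498065) (.g (nat_lit 3183) (.e (nat_lit 163945) (nat_lit 20) (.e (nat_lit 491568) (nat_lit 13) (.e (nat_lit 393301) (nat_lit 27) (.e (nat_lit 491560) (nat_lit 10) (.e (nat_lit 344096) (nat_lit 18) .nil))))) (.g (nat_lit 0) (.e (nat_lit 163428) (nat_lit 0) .nil) .nil))) 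
(.lf (nat_lit 498577) (.g (nat_lit 2803) (.e (nat_lit 163962) (nat_lit 25) (.e (nat_lit 532547) (nat_lit 11) (.e (nat_lit 352314) (nat_lit 23) (.e (nat_lit 98350) (nat_lit 24) (.e (nat_lit 409617) (nat_lit 10) (.e (nat_lit 7936) (nat_lit 315) .nil)))))) (.g (nat_lit 1) (.e (nat_lit 164596) (nat_lit 0) .nil) .nil)))))) (.nd (nat_lit 7) (.nd (nat_lit 8) (.nd (nat_lit 9) 
(.lf (nat_lit 497745) (.g (nat_lit 3422) (.e (nat_lit 163941) (nat_lit 19) (.e (nat_lit 483341) (nat_lit 9) (.e (nat_lit 426197) (nat_lit 9) (.e (nat_lit 426436) (nat_lit 18) (.e (nat_lit 98335) (nat_lit 18) (.e (nat_lit 164327) (nat_lit 230) .nil)))))) (.g (nat_lit 1) (.e (nat_lit 161359) (nat_lit 0) .nil) .nil))) 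
(.lf (nat_lit 498257) (.g (nat_lit 3640) (.e (nat_lit 163962) (nat_lit 25) (.e (nat_lit 532513) (nat_lit 3) (.e (nat_lit 114714) (nat_lit 22) (.e (nat_lit 90174) (nat_lit 14) (.e (nat_lit 180243) (nat_lit 5) (.e (nat_lit 532503) (nat_lit 1) (.e (nat_lit 57653) (nat_lit 152) (.e (nat_lit 2615) (nat_lit 163) .nil)))))))) (.g (nat_lit 1) (.e (nat_lit 163781) (nat_lit 0) .nil) .nil)))) 
(.nd (nat_lit 9) 
(.lf (nat_lit 498001) (.g (nat_lit 1895) (.e (nat_lit 163944) (nat_lit 19) (.e (nat_lit 483339) (nat_lit 9) (.e (nat_lit 426260) (nat_lit 9) (.e (nat_lit 426435) (nat_lit 18) (.e (nat_lit 98335) (nat_lit 18) (.e (nat_lit 164325) (nat_lit 230) .nil)))))) (.g (nat_lit 1) (.e (nat_lit 162965) (nat_lit 0) .nil) .nil))) 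
(.lf (nat_lit 498513) (.g (nat_lit 2478) (.e (nat_lit 163962) (nat_lit 25) (.e (nat_lit 532544) (nat_lit 10) (.e (nat_lit 344130) (nat_lit 26) (.e (nat_lit 557103) (nat_lit 14) (.e (nat_lit 188160) (nat_lit 1) (.e (nat_lit 499910) (nat_lit 8) (.e (nat_lit 164021) (nat_lit 46) (.e (nat_lit 704588) (nat_lit 3) .nil)))))))) (.g (nat_lit 1) (.e (nat_lit 164471) (nat_lit 0) .nil) .nil))))) 
(.nd (nat_lit 8) (.nd (nat_lit 9) 
(.lf (nat_lit 497873) (.g (nat_lit 755) (.e (nat_lit 163942) (nat_lit 19) (.e (nat_lit 483341) (nat_lit 9) (.e (nat_lit 433920) (nat_lit 9) .nil))) (.g (nat_lit 0) (.e (nat_lit 161946) (nat_lit 0) .nil) .nil))) 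
(.lf (nat_lit 498385) (.g (nat_lit 809) (.e (nat_lit 163962) (nat_lit 25) (.e (nat_lit 532535) (nat_lit 9) (.e (nat_lit 336169) (nat_lit 10) .nil))) (.g (nat_lit 0) (.e (nat_lit 164167) (nat_lit 0) .nil) .nil)))) (.nd (nat_lit 9) 
(.lf (nat_lit 498129) (.g (nat_lit 2124) (.e (nat_lit 163950) (nat_lit 21) (.e (nat_lit 500070) (nat_lit 19) (.e (nat_lit 73781) (nat_lit 32) (.e (nat_lit 2664) (nat_lit 167) (.e (nat_lit 196670) (nat_lit 14) (.e (nat_lit 81664) (nat_lit 35) .nil)))))) (.g (nat_lit 1) (.e (nat_lit 163529) (nat_lit 0) .nil) .nil))) 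
(.lf (nat_lit 498641) (.g (nat_lit 1190) (.e (nat_lit 163962) (nat_lit 25) (.e (nat_lit 532549) (nat_lit 12) (.e (nat_lit 360474) (nat_lit 8) (.e (nat_lit 557073) (nat_lit 9) .nil)))) (.g (nat_lit 0) (.e (nat_lit 164760) (nat_lit 0) .nil) .nil))))))) (.nd (nat_lit 6) (.nd (nat_lit 7) (.nd (nat_lit 8) (.nd (nat_lit 9) 
(.lf (nat_lit 497713) (.g (nat_lit 4755) (.e (nat_lit 163941) (nat_lit 19) (.e (nat_lit 483341) (nat_lit 9) (.e (nat_lit 426186) (nat_lit 9) (.e (nat_lit 426436) (nat_lit 18) (.e (nat_lit 98335) (nat_lit 18) (.e (nat_lit 164327) (nat_lit 230) .nil)))))) (.g (nat_lit 1) (.e (nat_lit 161279) (nat_lit 0) .nil) .nil))) 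
(.lf (nat_lit 498225) (.g (nat_lit 3038) (.e (nat_lit 163962) (nat_lit 25) (.e (nat_lit 532500) (nat_lit 1) (.e (nat_lit 57931) (nat_lit 282) (.e (nat_lit 163869) (nat_lit 2) (.e (nat_lit 196670) (nat_lit 14) (.e (nat_lit 73746) (nat_lit 3) (.e (nat_lit 516126) (nat_lit 2) (.e (nat_lit 213033) (nat_lit 12) .nil)))))))) (.g (nat_lit 1) (.e (nat_lit 163719) (nat_lit 0) .nil) .nil)))) 
(.nd (nat_lit 9) 
(.lf (nat_lit 497969) (.g (nat_lit 1227) (.e (nat_lit 163943) (nat_lit 19) (.e (nat_lit 483399) (nat_lit 25) (.e (nat_lit 368676) (nat_lit 21) (.e (nat_lit 516194) (nat_lit 26) .nil)))) (.g (nat_lit 0) (.e (nat_lit 162795) (nat_lit 0) .nil) .nil))) 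
(.lf (nat_lit 498481) (.g (nat_lit 2467) (.e (nat_lit 163962) (nat_lit 25) (.e (nat_lit 532543) (nat_lit 10) (.e (nat_lit 344129) (nat_lit 26) (.e (nat_lit 557103) (nat_lit 14) (.e (nat_lit 188160) (nat_lit 1) (.e (nat_lit 499910) (nat_lit 8) (.e (nat_lit 164021) (nat_lit 46) (.e (nat_lit 704588) (nat_lit 3) .nil)))))))) (.g (nat_lit 1) (.e (nat_lit 164434) (nat_lit 0) .nil) .nil))))) 
(.nd (nat_lit 8) (.nd (nat_lit 9) 
(.lf (nat_lit 497841) (.g (nat_lit 3393) (.e (nat_lit 163941) (nat_lit 19) (.e (nat_lit 483393) (nat_lit 23) (.e (nat_lit 336021) (nat_lit 3) (.e (nat_lit 98317) (nat_lit 9) (.e (nat_lit 335995) (nat_lit 1) (.e (nat_lit 57931) (nat_lit 282) .nil)))))) (.g (nat_lit 1) (.e (nat_lit 161794) (nat_lit 0) .nil) .nil))) 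
(.lf (nat_lit 498353) (.g (nat_lit 1029) (.e (nat_lit 163962) (nat_lit 25) (.e (nat_lit 532535) (nat_lit 9) (.e (nat_lit 336099) (nat_lit 9) (.e (nat_lit 336013) (nat_lit 2) .nil)))) (.g (nat_lit 0) (.e (nat_lit 164063) (nat_lit 0) .nil) .nil)))) (.nd (nat_lit 9) 
(.lf (nat_lit 498097) (.g (nat_lit 1210) (.e (nat_lit 163946) (nat_lit 20) (.e (nat_lit 491566) (nat_lit 12) (.e (nat_lit 385104) (nat_lit 50) (.e (nat_lit 786481) (nat_lit 30) .nil)))) (.g (nat_lit 0) (.e (nat_lit 163488) (nat_lit 0) .nil) .nil))) 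
(.lf (nat_lit 498609) (.g (nat_lit 2077) (.e (nat_lit 163962) (nat_lit 25) (.e (nat_lit 532549) (nat_lit 12) (.e (nat_lit 360466) (nat_lit 3) (.e (nat_lit 516142) (nat_lit 8) (.e (nat_lit 417814) (nat_lit 10) (.e (nat_lit 5757) (nat_lit 315) .nil)))))) (.g (nat_lit 1) (.e (nat_lit 164674) (nat_lit 0) .nil) .nil)))))) (.nd (nat_lit 7) (.nd (nat_lit 8) (.nd (nat_lit 9) 
(.lf (nat_lit 497777) (.g (nat_lit 758) (.e (nat_lit 163941) (nat_lit 19) (.e (nat_lit 483341) (nat_lit 9) (.e (nat_lit 426263) (nat_lit 9) .nil))) (.g (nat_lit 0) (.e (nat_lit 161445) (nat_lit 0) .nil) .nil))) 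
(.lf (nat_lit 498289) (.g (nat_lit 2849) (.e (nat_lit 163962) (nat_lit 25) (.e (nat_lit 532523) (nat_lit 7) (.e (nat_lit 319530) (nat_lit 16) (.e (nat_lit 286735) (nat_lit 3) (.e (nat_lit 98323) (nat_lit 17) .nil))))) (.g (nat_lit 0) (.e (nat_lit 163892) (nat_lit 0) .nil) .nil)))) (.nd (nat_lit 9) 
(.lf (nat_lit 498033) (.g (nat_lit 2541) (.e (nat_lit 163945) (nat_lit 20) (.e (nat_lit 491566) (nat_lit 12) (.e (nat_lit 385093) (nat_lit 49) (.e (nat_lit 778326) (nat_lit 6) (.e (nat_lit 81948) (nat_lit 21) (.e (nat_lit 57927) (nat_lit 282) .nil)))))) (.g (nat_lit 1) (.e (nat_lit 163386) (nat_lit 0) .nil) .nil))) 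
(.lf (nat_lit 498545) (.g (nat_lit 2656) (.e (nat_lit 163962) (nat_lit 25) (.e (nat_lit 532544) (nat_lit 10) (.e (nat_lit 344133) (nat_lit 26) (.e (nat_lit 557098) (nat_lit 13) (.e (nat_lit 179968) (nat_lit 15) (.e (nat_lit 1800) (nat_lit 119) (.e (nat_lit 516119) (nat_lit 1) (.e (nat_lit 164345) (nat_lit 240) (.e (nat_lit 2600) (nat_lit 163) .nil))))))))) (.g (nat_lit 1) (.e (nat_lit 164503) (nat_lit 0) .nil) .nil))))) 
(.nd (nat_lit 8) (.nd (nat_lit 9) 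
(.lf (nat_lit 497905) (.g (nat_lit 4817) (.e (nat_lit 163943) (nat_lit 19) (.e (nat_lit 483341) (nat_lit 9) (.e (nat_lit 426189) (nat_lit 9) (.e (nat_lit 426436) (nat_lit 18) (.e (nat_lit 98335) (nat_lit 18) (.e (nat_lit 164324) (nat_lit 230) .nil)))))) (.g (nat_lit 1) (.e (nat_lit 162267) (nat_lit 0) .nil) .nil))) 
(.lf (nat_lit 498417) (.g (nat_lit 1898) (.e (nat_lit 163962) (nat_lit 25) (.e (nat_lit 532535) (nat_lit 9) (.e (nat_lit 336176) (nat_lit 10) (.e (nat_lit 344130) (nat_lit 26) (.e (nat_lit 557074) (nat_lit 9) (.e (nat_lit 7936) (nat_lit 19) (.e (nat_lit 319491) (nat_lit 0) (.e (nat_lit 5761) (nat_lit 315) .nil)))))))) (.g (nat_lit 1) (.e (nat_lit 164252) (nat_lit 0) .nil) .nil)))) 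
(.nd (nat_lit 9) 
(.lf (nat_lit 498161) (.g (nat_lit 3214) (.e (nat_lit 163962) (nat_lit 25) (.e (nat_lit 532482) (nat_lit 0) (.e (nat_lit 6203) (nat_lit 332) (.e (nat_lit 2798) (nat_lit 180) (.e (nat_lit 303117) (nat_lit 2) (.e (nat_lit 196669) (nat_lit 14) (.e (nat_lit 81664) (nat_lit 35) .nil))))))) (.g (nat_lit 1) (.e (nat_lit 163602) (nat_lit 0) .nil) .nil))) 
(.lf (nat_lit 498673) (.g (nat_lit 3518) (.e (nat_lit 163962) (nat_lit 25) (.e (nat_lit 532550) (nat_lit 12) (.e (nat_lit 360467) (nat_lit 3) (.e (nat_lit 516139) (nat_lit 7) (.e (nat_lit 409617) (nat_lit 10) (.e (nat_lit 5762) (nat_lit 315) .nil)))))) (.g (nat_lit 1) (.e (nat_lit 164838) (nat_lit 0) .nil) .nil))))))))) 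
(.nd (nat_lit 4) (.nd (nat_lit 5) (.nd (nat_lit 6) (.nd (nat_lit 7) (.nd (nat_lit 8) 
(.nd (nat_lit 9) 
(.lf (nat_lit 497673) (.g (nat_lit 1812) (.e (nat_lit 163941) (nat_lit 19) (.e (nat_lit 483339) (nat_lit 9) (.e (nat_lit 426234) (nat_lit 9) (.e (nat_lit 426435) (nat_lit 18) (.e (nat_lit 98335) (nat_lit 18) (.e (nat_lit 164326) (nat_lit 230) .nil)))))) (.g (nat_lit 1) (.e (nat_lit 161233) (nat_lit 0) .nil) .nil))) 
(.lf (nat_lit 498185) (.g (nat_lit 2272) (.e (nat_lit 163962) (nat_lit 25) (.e (nat_lit 532499) (nat_lit 1) (.e (nat_lit 57927) (nat_lit 282) (.e (nat_lit 163866) (nat_lit 2) (.e (nat_lit 196670) (nat_lit 14) (.e (nat_lit 73746) (nat_lit 3) (.e (nat_lit 516127) (nat_lit 2) (.e (nat_lit 213033) (nat_lit 12) .nil)))))))) (.g (nat_lit 1) (.e (nat_lit 163637) (nat_lit 0) .nil) .nil)))) 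
(.nd (nat_lit 9) 
(.lf (nat_lit 497929) (.g (nat_lit 2470) (.e (nat_lit 163943) (nat_lit 19) (.e (nat_lit 483346) (nat_lit 17) (.e (nat_lit 6712) (nat_lit 360) (.e (nat_lit 163979) (nat_lit 30) (.e (nat_lit 573481) (nat_lit 13) .nil))))) (.g (nat_lit 0) (.e (nat_lit 162543) (nat_lit 0) .nil) .nil))) 
(.lf (nat_lit 498441) (.g (nat_lit 1784) (.e (nat_lit 163962) (nat_lit 25) (.e (nat_lit 532535) (nat_lit 9) (.e (nat_lit 336176) (nat_lit 10) (.e (nat_lit 344133) (nat_lit 26) (.e (nat_lit 557071) (nat_lit 9) .nil))))) (.g (nat_lit 0) (.e (nat_lit 164327) (nat_lit 0) .nil) .nil))))) (.nd (nat_lit 8) (.nd (nat_lit 9) 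
(.lf (nat_lit 497801) (.g (nat_lit 2994) (.e (nat_lit 163941) (nat_lit 19) (.e (nat_lit 483341) (nat_lit 9) (.e (nat_lit 426313) (nat_lit 12) (.e (nat_lit 475179) (nat_lit 24) (.e (nat_lit 516117) (nat_lit 1) (.e (nat_lit 164329) (nat_lit 230) .nil)))))) (.g (nat_lit 1) (.e (nat_lit 161545) (nat_lit 0) .nil) .nil))) 
(.lf (nat_lit 498313) (.g (nat_lit 2184) (.e (nat_lit 163962) (nat_lit 25) (.e (nat_lit 532526) (nat_lit 8) (.e (nat_lit 327698) (nat_lit 8) (.e (nat_lit 303117) (nat_lit 2) (.e (nat_lit 196669) (nat_lit 14) (.e (nat_lit 81664) (nat_lit 35) .nil)))))) (.g (nat_lit 1) (.e (nat_lit 163920) (nat_lit 0) .nil) .nil)))) (.nd (nat_lit 9) 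
(.lf (nat_lit 498057) (.g (nat_lit 2067) (.e (nat_lit 163945) (nat_lit 20) (.e (nat_lit 491566) (nat_lit 12) (.e (nat_lit 385105) (nat_lit 50) (.e (nat_lit 786483) (nat_lit 30) (.e (nat_lit 368384) (nat_lit 0) .nil))))) (.g (nat_lit 0) (.e (nat_lit 163420) (nat_lit 0) .nil) .nil))) 
(.lf (nat_lit 498569) (.g (nat_lit 3706) (.e (nat_lit 163962) (nat_lit 25) (.e (nat_lit 532547) (nat_lit 11) (.e (nat_lit 352313) (nat_lit 23) (.e (nat_lit 98350) (nat_lit 24) (.e (nat_lit 409616) (nat_lit 10) (.e (nat_lit 5756) (nat_lit 315) .nil)))))) (.g (nat_lit 1) (.e (nat_lit 164587) (nat_lit 0) .nil) .nil)))))) (.nd (nat_lit 7) (.nd (nat_lit 8) (.nd (nat_lit 9) 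
(.lf (nat_lit 497737) (.g (nat_lit 4673) (.e (nat_lit 163941) (nat_lit 19) (.e (nat_lit 483341) (nat_lit 9) (.e (nat_lit 426196) (nat_lit 9) (.e (nat_lit 426436) (nat_lit 18) (.e (nat_lit 98335) (nat_lit 18) (.e (nat_lit 164325) (nat_lit 230) .nil)))))) (.g (nat_lit 1) (.e (nat_lit 161341) (nat_lit 0) .nil) .nil))) 
(.lf (nat_lit 498249) (.g (nat_lit 2523) (.e (nat_lit 163962) (nat_lit 25) (.e (nat_lit 532513) (nat_lit 3) (.e (nat_lit 114714) (nat_lit 22) (.e (nat_lit 90174) (nat_lit 14) (.e (nat_lit 180243) (nat_lit 5) (.e (nat_lit 532499) (nat_lit 1) (.e (nat_lit 57657) (nat_lit 152) (.e (nat_lit 2603) (nat_lit 163) .nil)))))))) (.g (nat_lit 1) (.e (nat_lit 163769) (nat_lit 0) .nil) .nil)))) 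
(.nd (nat_lit 9) 
(.lf (nat_lit 497993) (.g (nat_lit 1042) (.e (nat_lit 163943) (nat_lit 19) (.e (nat_lit 483413) (nat_lit 27) (.e (nat_lit 401463) (nat_lit 15) .nil))) (.g (nat_lit 0) (.e (nat_lit 162883) (nat_lit 0) .nil) .nil))) 
(.lf (nat_lit 498505) (.g (nat_lit 2213) (.e (nat_lit 163962) (nat_lit 25) (.e (nat_lit 532544) (nat_lit 10) (.e (nat_lit 344129) (nat_lit 26) (.e (nat_lit 557103) (nat_lit 14) (.e (nat_lit 180250) (nat_lit 10) .nil))))) (.g (nat_lit 0) (.e (nat_lit 164463) (nat_lit 0) .nil) .nil))))) (.nd (nat_lit 8) (.nd (nat_lit 9) 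
(.lf (nat_lit 497865) (.g (nat_lit 1615) (.e (nat_lit 163942) (nat_lit 19) (.e (nat_lit 483341) (nat_lit 9) (.e (nat_lit 426200) (nat_lit 9) (.e (nat_lit 426360) (nat_lit 15) (.e (nat_lit 1798) (nat_lit 119) .nil))))) (.g (nat_lit 0) (.e (nat_lit 161923) (nat_lit 0) .nil) .nil))) 
(.lf (nat_lit 498377) (.g (nat_lit 4053) (.e (nat_lit 163962) (nat_lit 25) (.e (nat_lit 532535) (nat_lit 9) (.e (nat_lit 336111) (nat_lit 9) (.e (nat_lit 336028) (nat_lit 3) (.e (nat_lit 98350) (nat_lit 24) (.e (nat_lit 409617) (nat_lit 10) (.e (nat_lit 7936) (nat_lit 315) .nil))))))) (.g (nat_lit 1) (.e (nat_lit 164140) (nat_lit 0) .nil) .nil)))) (.nd (nat_lit 9) 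
(.lf (nat_lit 498121) (.g (nat_lit 1080) (.e (nat_lit 163947) (nat_lit 20) (.e (nat_lit 491560) (nat_lit 10) (.e (nat_lit 344168) (nat_lit 40) (.e (nat_lit 671764) (nat_lit 6) .nil)))) (.g (nat_lit 0) (.e (nat_lit 163519) (nat_lit 0) .nil) .nil))) 
(.lf (nat_lit 498633) (.g (nat_lit 1725) (.e (nat_lit 163962) (nat_lit 25) (.e (nat_lit 532549) (nat_lit 12) (.e (nat_lit 360473) (nat_lit 8) (.e (nat_lit 557072) (nat_lit 9) (.e (nat_lit 7936) (nat_lit 19) (.e (nat_lit 319492) (nat_lit 0) (.e (nat_lit 5761) (nat_lit 315) .nil))))))) (.g (nat_lit 1) (.e (nat_lit 164740) (nat_lit 0) .nil) .nil))))))) 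
(.nd (nat_lit 6) (.nd (nat_lit 7) (.nd (nat_lit 8) (.nd (nat_lit 9) 
(.lf (nat_lit 497705) (.g (nat_lit 656) (.e (nat_lit 163941) (nat_lit 19) (.e (nat_lit 483341) (nat_lit 9) (.e (nat_lit 426011) (nat_lit 0) .nil))) (.g (nat_lit 0) (.e (nat_lit 161270) (nat_lit 0) .nil) .nil))) 
(.lf (nat_lit 498217) (.g (nat_lit 2830) (.e (nat_lit 163962) (nat_lit 25) (.e (nat_lit 532500) (nat_lit 1) (.e (nat_lit 57927) (nat_lit 282) (.e (nat_lit 163871) (nat_lit 2) (.e (nat_lit 196670) (nat_lit 14) (.e (nat_lit 73746) (nat_lit 3) (.e (nat_lit 516126) (nat_lit 2) (.e (nat_lit 213033) (nat_lit 12) .nil)))))))) (.g (nat_lit 1) (.e (nat_lit 163707) (nat_lit 0) .nil) .nil)))) 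
(.nd (nat_lit 9) 
(.lf (nat_lit 497961) (.g (nat_lit 1554) (.e (nat_lit 163943) (nat_lit 19) (.e (nat_lit 483396) (nat_lit 24) (.e (nat_lit 344133) (nat_lit 26) (.e (nat_lit 564992) (nat_lit 4) .nil)))) (.g (nat_lit 0) (.e (nat_lit 162786) (nat_lit 0) .nil) .nil))) 
(.lf (nat_lit 498473) (.g (nat_lit 2139) (.e (nat_lit 163962) (nat_lit 25) (.e (nat_lit 532543) (nat_lit 10) (.e (nat_lit 344117) (nat_lit 21) (.e (nat_lit 516123) (nat_lit 2) (.e (nat_lit 213033) (nat_lit 12) (.e (nat_lit 163976) (nat_lit 30) (.e (nat_lit 573474) (nat_lit 12) (.e (nat_lit 57530) (nat_lit 46) (.e (nat_lit 704590) (nat_lit 3) .nil))))))))) (.g (nat_lit 1) (.e (nat_lit 164426) (nat_lit 0) .nil) .nil))))) 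
(.nd (nat_lit 8) (.nd (nat_lit 9) 
(.lf (nat_lit 497833) (.g (nat_lit 3543) (.e (nat_lit 163941) (nat_lit 19) (.e (nat_lit 483393) (nat_lit 23) (.e (nat_lit 336021) (nat_lit 3) (.e (nat_lit 98313) (nat_lit 9) (.e (nat_lit 335988) (nat_lit 1) (.e (nat_lit 57926) (nat_lit 282) .nil)))))) (.g (nat_lit 1) (.e (nat_lit 161782) (nat_lit 0) .nil) .nil))) 
(.lf (nat_lit 498345) (.g (nat_lit 2921) (.e (nat_lit 163962) (nat_lit 25) (.e (nat_lit 532535) (nat_lit 9) (.e (nat_lit 336061) (nat_lit 7) (.e (nat_lit 319519) (nat_lit 12) (.e (nat_lit 40704) (nat_lit 5) (.e (nat_lit 1515) (nat_lit 108) (.e (nat_lit 335874) (nat_lit 0) (.e (nat_lit 6713) (nat_lit 360) .nil)))))))) (.g (nat_lit 1) (.e (nat_lit 164034) (nat_lit 0) .nil) .nil)))) (.nd (nat_lit 9) 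
(.lf (nat_lit 498089) (.g (nat_lit 1144) (.e (nat_lit 163946) (nat_lit 20) (.e (nat_lit 491566) (nat_lit 12) (.e (nat_lit 385092) (nat_lit 49) .nil))) (.g (nat_lit 0) (.e (nat_lit 163474) (nat_lit 0) .nil) .nil))) 
(.lf (nat_lit 498601) (.g (nat_lit 2600) (.e (nat_lit 163962) (nat_lit 25) (.e (nat_lit 532549) (nat_lit 12) (.e (nat_lit 360466) (nat_lit 3) (.e (nat_lit 516139) (nat_lit 7) (.e (nat_lit 409616) (nat_lit 10) (.e (nat_lit 5758) (nat_lit 315) .nil)))))) (.g (nat_lit 1) (.e (nat_lit 164665) (nat_lit 0) .nil) .nil)))))) (.nd (nat_lit 7) (.nd (nat_lit 8) (.nd (nat_lit 9) 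
(.lf (nat_lit 497769) (.g (nat_lit 1692) (.e (nat_lit 163941) (nat_lit 19) (.e (nat_lit 483341) (nat_lit 9) (.e (nat_lit 426200) (nat_lit 9) (.e (nat_lit 426361) (nat_lit 15) (.e (nat_lit 1795) (nat_lit 119) .nil))))) (.g (nat_lit 0) (.e (nat_lit 161426) (nat_lit 0) .nil) .nil))) 
(.lf (nat_lit 498281) (.g (nat_lit 2878) (.e (nat_lit 163962) (nat_lit 25) (.e (nat_lit 532523) (nat_lit 7) (.e (nat_lit 327424) (nat_lit 8) (.e (nat_lit 303117) (nat_lit 2) (.e (nat_lit 196668) (nat_lit 14) (.e (nat_lit 81664) (nat_lit 35) .nil)))))) (.g (nat_lit 1) (.e (nat_lit 163877) (nat_lit 0) .nil) .nil)))) (.nd (nat_lit 9) 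
(.lf (nat_lit 498025) (.g (nat_lit 2998) (.e (nat_lit 163944) (nat_lit 19) (.e (nat_lit 483393) (nat_lit 23) (.e (nat_lit 336021) (nat_lit 3) (.e (nat_lit 98313) (nat_lit 9) (.e (nat_lit 335986) (nat_lit 1) (.e (nat_lit 57927) (nat_lit 282) .nil)))))) (.g (nat_lit 1) (.e (nat_lit 163290) (nat_lit 0) .nil) .nil))) 
(.lf (nat_lit 498537) (.g (nat_lit 2960) (.e (nat_lit 163962) (nat_lit 25) (.e (nat_lit 532544) (nat_lit 10) (.e (nat_lit 344133) (nat_lit 26) (.e (nat_lit 557098) (nat_lit 13) (.e (nat_lit 172067) (nat_lit 3) (.e (nat_lit 204829) (nat_lit 18) (.e (nat_lit 57704) (nat_lit 164) (.e (nat_lit 2601) (nat_lit 163) .nil)))))))) (.g (nat_lit 1) (.e (nat_lit 164495) (nat_lit 0) .nil) .nil))))) 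
(.nd (nat_lit 8) (.nd (nat_lit 9) 
(.lf (nat_lit 497897) (.g (nat_lit 2565) (.e (nat_lit 163943) (nat_lit 19) (.e (nat_lit 483340) (nat_lit 9) (.e (nat_lit 426200) (nat_lit 9) (.e (nat_lit 426436) (nat_lit 18) (.e (nat_lit 98335) (nat_lit 18) (.e (nat_lit 164325) (nat_lit 230) .nil)))))) (.g (nat_lit 1) (.e (nat_lit 162235) (nat_lit 0) .nil) .nil))) 
(.lf (nat_lit 498409) (.g (nat_lit 943) (.e (nat_lit 163962) (nat_lit 25) (.e (nat_lit 532535) (nat_lit 9) (.e (nat_lit 336176) (nat_lit 10) (.e (nat_lit 344130) (nat_lit 26) .nil)))) (.g (nat_lit 0) (.e (nat_lit 164216) (nat_lit 0) .nil) .nil)))) (.nd (nat_lit 9) 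
(.lf (nat_lit 498153) (.g (nat_lit 3810) (.e (nat_lit 163961) (nat_lit 25) (.e (nat_lit 532550) (nat_lit 12) (.e (nat_lit 360474) (nat_lit 8) (.e (nat_lit 557085) (nat_lit 11) .nil)))) (.g (nat_lit 0) (.e (nat_lit 163581) (nat_lit 0) .nil) .nil))) 
(.lf (nat_lit 498665) (.g (nat_lit 1502) (.e (nat_lit 163962) (nat_lit 25) (.e (nat_lit 532550) (nat_lit 12) (.e (nat_lit 360465) (nat_lit 3) (.e (nat_lit 516139) (nat_lit 7) (.e (nat_lit 409617) (nat_lit 10) .nil))))) (.g (nat_lit 0) (.e (nat_lit 164825) (nat_lit 0) .nil) .nil)))))))) (.nd (nat_lit 5) (.nd (nat_lit 6) (.nd (nat_lit 7) (.nd (nat_lit 8) (.nd (nat_lit 9) 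
(.lf (nat_lit 497689) (.g (nat_lit 2181) (.e (nat_lit 163941) (nat_lit 19) (.e (nat_lit 483339) (nat_lit 9) (.e (nat_lit 426261) (nat_lit 9) (.e (nat_lit 426435) (nat_lit 18) (.e (nat_lit 98335) (nat_lit 18) (.e (nat_lit 164327) (nat_lit 230) .nil)))))) (.g (nat_lit 1) (.e (nat_lit 161251) (nat_lit 0) .nil) .nil))) 
(.lf (nat_lit 498201) (.g (nat_lit 3776) (.e (nat_lit 163962) (nat_lit 25) (.e (nat_lit 532500) (nat_lit 1) (.e (nat_lit 57926) (nat_lit 282) (.e (nat_lit 163869) (nat_lit 2) (.e (nat_lit 196670) (nat_lit 14) (.e (nat_lit 73746) (nat_lit 3) (.e (nat_lit 516127) (nat_lit 2) (.e (nat_lit 213033) (nat_lit 12) .nil)))))))) (.g (nat_lit 1) (.e (nat_lit 163682) (nat_lit 0) .nil) .nil)))) 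
(.nd (nat_lit 9) 
(.lf (nat_lit 497945) (.g (nat_lit 3393) (.e (nat_lit 163943) (nat_lit 19) (.e (nat_lit 483393) (nat_lit 23) (.e (nat_lit 336021) (nat_lit 3) (.e (nat_lit 98317) (nat_lit 9) (.e (nat_lit 335988) (nat_lit 1) (.e (nat_lit 57926) (nat_lit 282) .nil)))))) (.g (nat_lit 1) (.e (nat_lit 162740) (nat_lit 0) .nil) .nil))) 
(.lf (nat_lit 498457) (.g (nat_lit 1144) (.e (nat_lit 163962) (nat_lit 25) (.e (nat_lit 532535) (nat_lit 9) (.e (nat_lit 336193) (nat_lit 12) (.e (nat_lit 385074) (nat_lit 31) .nil)))) (.g (nat_lit 0) (.e (nat_lit 164357) (nat_lit 0) .nil) .nil))))) (.nd (nat_lit 8) (.nd (nat_lit 9) 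
(.lf (nat_lit 497817) (.g (nat_lit 1127) (.e (nat_lit 163941) (nat_lit 19) (.e (nat_lit 483344) (nat_lit 17) (.e (nat_lit 6712) (nat_lit 360) (.e (nat_lit 163976) (nat_lit 30) .nil)))) (.g (nat_lit 0) (.e (nat_lit 161676) (nat_lit 0) .nil) .nil))) 
(.lf (nat_lit 498329) (.g (nat_lit 737) (.e (nat_lit 163962) (nat_lit 25) (.e (nat_lit 532535) (nat_lit 9) (.e (nat_lit 336054) (nat_lit 7) .nil))) (.g (nat_lit 0) (.e (nat_lit 163996) (nat_lit 0) .nil) .nil)))) (.nd (nat_lit 9) 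
(.lf (nat_lit 498073) (.g (nat_lit 3110) (.e (nat_lit 163945) (nat_lit 20) (.e (nat_lit 491569) (nat_lit 13) (.e (nat_lit 393301) (nat_lit 27) (.e (nat_lit 491560) (nat_lit 10) (.e (nat_lit 344088) (nat_lit 18) (.e (nat_lit 6940) (nat_lit 375) .nil)))))) (.g (nat_lit 1) (.e (nat_lit 163436) (nat_lit 0) .nil) .nil))) 
(.lf (nat_lit 498585) (.g (nat_lit 3037) (.e (nat_lit 163962) (nat_lit 25) (.e (nat_lit 532547) (nat_lit 11) (.e (nat_lit 352315) (nat_lit 23) (.e (nat_lit 98350) (nat_lit 24) (.e (nat_lit 409609) (nat_lit 10) .nil))))) (.g (nat_lit 0) (.e (nat_lit 164611) (nat_lit 0) .nil) .nil)))))) (.nd (nat_lit 7) (.nd (nat_lit 8) (.nd (nat_lit 9) 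
(.lf (nat_lit 497753) (.g (nat_lit 3667) (.e (nat_lit 163941) (nat_lit 19) (.e (nat_lit 483341) (nat_lit 9) (.e (nat_lit 426198) (nat_lit 9) (.e (nat_lit 426436) (nat_lit 18) (.e (nat_lit 98335) (nat_lit 18) (.e (nat_lit 164325) (nat_lit 230) .nil)))))) (.g (nat_lit 1) (.e (nat_lit 161388) (nat_lit 0) .nil) .nil))) 
(.lf (nat_lit 498265) (.g (nat_lit 3326) (.e (nat_lit 163962) (nat_lit 25) (.e (nat_lit 532514) (nat_lit 3) (.e (nat_lit 114719) (nat_lit 23) (.e (nat_lit 98356) (nat_lit 26) (.e (nat_lit 426438) (nat_lit 18) (.e (nat_lit 98335) (nat_lit 18) (.e (nat_lit 164305) (nat_lit 226) (.e (nat_lit 2604) (nat_lit 163) .nil)))))))) (.g (nat_lit 1) (.e (nat_lit 163825) (nat_lit 0) .nil) .nil)))) 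
(.nd (nat_lit 9) 
(.lf (nat_lit 498009) (.g (nat_lit 2563) (.e (nat_lit 163944) (nat_lit 19) (.e (nat_lit 483341) (nat_lit 9) (.e (nat_lit 426188) (nat_lit 9) (.e (nat_lit 426436) (nat_lit 18) (.e (nat_lit 98335) (nat_lit 18) (.e (nat_lit 164324) (nat_lit 230) .nil)))))) (.g (nat_lit 1) (.e (nat_lit 162986) (nat_lit 0) .nil) .nil))) 
(.lf (nat_lit 498521) (.g (nat_lit 2499) (.e (nat_lit 163962) (nat_lit 25) (.e (nat_lit 532544) (nat_lit 10) (.e (nat_lit 344131) (nat_lit 26) (.e (nat_lit 557098) (nat_lit 13) (.e (nat_lit 179968) (nat_lit 15) (.e (nat_lit 1800) (nat_lit 119) (.e (nat_lit 516119) (nat_lit 1) (.e (nat_lit 164345) (nat_lit 240) (.e (nat_lit 2601) (nat_lit 163) .nil))))))))) (.g (nat_lit 1) (.e (nat_lit 164479) (nat_lit 0) .nil) .nil))))) 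
(.nd (nat_lit 8) (.nd (nat_lit 9) 
(.lf (nat_lit 497881) (.g (nat_lit 3647) (.e (nat_lit 163943) (nat_lit 19) (.e (nat_lit 483337) (nat_lit 9) (.e (nat_lit 426188) (nat_lit 9) (.e (nat_lit 426436) (nat_lit 18) (.e (nat_lit 98335) (nat_lit 18) (.e (nat_lit 164324) (nat_lit 230) .nil)))))) (.g (nat_lit 1) (.e (nat_lit 162128) (nat_lit 0) .nil) .nil))) 
(.lf (nat_lit 498393) (.g (nat_lit 305) (.e (nat_lit 163962) (nat_lit 25) (.e (nat_lit 532535) (nat_lit 9) (.e (nat_lit 336176) (nat_lit 10) .nil))) (.g (nat_lit 0) (.e (nat_lit 164184) (nat_lit 0) .nil) .nil)))) (.nd (nat_lit 9) 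
(.lf (nat_lit 498137) (.g (nat_lit 1816) (.e (nat_lit 163950) (nat_lit 21) (.e (nat_lit 500076) (nat_lit 20) (.e (nat_lit 81924) (nat_lit 0) (.e (nat_lit 3305) (nat_lit 202) (.e (nat_lit 573487) (nat_lit 14) (.e (nat_lit 81664) (nat_lit 35) .nil)))))) (.g (nat_lit 1) (.e (nat_lit 163537) (nat_lit 0) .nil) .nil))) 
(.lf (nat_lit 498649) (.g (nat_lit 2732) (.e (nat_lit 163962) (nat_lit 25) (.e (nat_lit 532549) (nat_lit 12) (.e (nat_lit 360475) (nat_lit 8) (.e (nat_lit 557068) (nat_lit 9) (.e (nat_lit 7936) (nat_lit 22) .nil))))) (.g (nat_lit 0) (.e (nat_lit 164784) (nat_lit 0) .nil) .nil))))))) (.nd (nat_lit 6) (.nd (nat_lit 7) (.nd (nat_lit 8) (.nd (nat_lit 9) 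
(.lf (nat_lit 497721) (.g (nat_lit 2359) (.e (nat_lit 163941) (nat_lit 19) (.e (nat_lit 483341) (nat_lit 9) (.e (nat_lit 426188) (nat_lit 9) (.e (nat_lit 426436) (nat_lit 18) (.e (nat_lit 98335) (nat_lit 18) (.e (nat_lit 164322) (nat_lit 230) .nil)))))) (.g (nat_lit 1) (.e (nat_lit 161299) (nat_lit 0) .nil) .nil))) 
(.lf (nat_lit 498233) (.g (nat_lit 3835) (.e (nat_lit 163962) (nat_lit 25) (.e (nat_lit 532513) (nat_lit 3) (.e (nat_lit 114714) (nat_lit 22) (.e (nat_lit 90172) (nat_lit 14) (.e (nat_lit 180244) (nat_lit 5) (.e (nat_lit 532499) (nat_lit 1) (.e (nat_lit 57652) (nat_lit 152) (.e (nat_lit 2615) (nat_lit 163) .nil)))))))) (.g (nat_lit 1) (.e (nat_lit 163741) (nat_lit 0) .nil) .nil)))) 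
(.nd (nat_lit 9) 
(.lf (nat_lit 497977) (.g (nat_lit 1590) (.e (nat_lit 163943) (nat_lit 19) (.e (nat_lit 483399) (nat_lit 25) (.e (nat_lit 368676) (nat_lit 21) (.e (nat_lit 516198) (nat_lit 26) (.e (nat_lit 335987) (nat_lit 1) (.e (nat_lit 57927) (nat_lit 282) .nil)))))) (.g (nat_lit 1) (.e (nat_lit 162805) (nat_lit 0) .nil) .nil))) 
(.lf (nat_lit 498489) (.g (nat_lit 4524) (.e (nat_lit 163962) (nat_lit 25) (.e (nat_lit 532543) (nat_lit 10) (.e (nat_lit 344133) (nat_lit 26) (.e (nat_lit 557098) (nat_lit 13) (.e (nat_lit 172133) (nat_lit 15) (.e (nat_lit 1800) (nat_lit 119) (.e (nat_lit 516119) (nat_lit 1) (.e (nat_lit 164345) (nat_lit 240) (.e (nat_lit 2601) (nat_lit 163) .nil))))))))) (.g (nat_lit 1) (.e (nat_lit 164442) (nat_lit 0) .nil) .nil))))) 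
(.nd (nat_lit 8) (.nd (nat_lit 9) 
(.lf (nat_lit 497849) (.g (nat_lit 2198) (.e (nat_lit 163941) (nat_lit 19) (.e (nat_lit 483413) (nat_lit 27) (.e (nat_lit 401414) (nat_lit 0) (.e (nat_lit 3304) (nat_lit 202) .nil)))) (.g (nat_lit 0) (.e (nat_lit 161837) (nat_lit 0) .nil) .nil))) 
(.lf (nat_lit 498361) (.g (nat_lit 3527) (.e (nat_lit 163962) (nat_lit 25) (.e (nat_lit 532535) (nat_lit 9) (.e (nat_lit 336099) (nat_lit 9) (.e (nat_lit 336028) (nat_lit 3) (.e (nat_lit 98350) (nat_lit 24) (.e (nat_lit 409616) (nat_lit 10) (.e (nat_lit 5756) (nat_lit 315) .nil))))))) (.g (nat_lit 1) (.e (nat_lit 164102) (nat_lit 0) .nil) .nil)))) (.nd (nat_lit 9) 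
(.lf (nat_lit 498105) (.g (nat_lit 2177) (.e (nat_lit 163946) (nat_lit 20) (.e (nat_lit 491566) (nat_lit 12) (.e (nat_lit 385105) (nat_lit 50) (.e (nat_lit 786481) (nat_lit 30) (.e (nat_lit 368384) (nat_lit 0) .nil))))) (.g (nat_lit 0) (.e (nat_lit 163496) (nat_lit 0) .nil) .nil))) 
(.lf (nat_lit 498617) (.g (nat_lit 3279) (.e (nat_lit 163962) (nat_lit 25) (.e (nat_lit 532549) (nat_lit 12) (.e (nat_lit 360467) (nat_lit 3) (.e (nat_lit 516139) (nat_lit 7) (.e (nat_lit 409616) (nat_lit 10) (.e (nat_lit 5763) (nat_lit 315) .nil)))))) (.g (nat_lit 1) (.e (nat_lit 164711) (nat_lit 0) .nil) .nil)))))) (.nd (nat_lit 7) (.nd (nat_lit 8) (.nd (nat_lit 9) 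
(.lf (nat_lit 497785) (.g (nat_lit 392) (.e (nat_lit 163941) (nat_lit 19) (.e (nat_lit 483341) (nat_lit 9) (.e (nat_lit 426296) (nat_lit 11) .nil))) (.g (nat_lit 0) (.e (nat_lit 161458) (nat_lit 0) .nil) .nil))) 
(.lf (nat_lit 498297) (.g (nat_lit 2628) (.e (nat_lit 163962) (nat_lit 25) (.e (nat_lit 532523) (nat_lit 7) (.e (nat_lit 319531) (nat_lit 16) (.e (nat_lit 286735) (nat_lit 3) (.e (nat_lit 98368) (nat_lit 27) .nil))))) (.g (nat_lit 0) (.e (nat_lit 163900) (nat_lit 0) .nil) .nil)))) (.nd (nat_lit 9) 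
(.lf (nat_lit 498041) (.g (nat_lit 1384) (.e (nat_lit 163945) (nat_lit 20) (.e (nat_lit 491566) (nat_lit 12) (.e (nat_lit 385096) (nat_lit 49) .nil))) (.g (nat_lit 0) (.e (nat_lit 163396) (nat_lit 0) .nil) .nil))) 
(.lf (nat_lit 498553) (.g (nat_lit 3615) (.e (nat_lit 163962) (nat_lit 25) (.e (nat_lit 532544) (nat_lit 10) (.e (nat_lit 344133) (nat_lit 26) (.e (nat_lit 557103) (nat_lit 14) (.e (nat_lit 180244) (nat_lit 5) (.e (nat_lit 532503) (nat_lit 1) (.e (nat_lit 57704) (nat_lit 164) (.e (nat_lit 2601) (nat_lit 163) .nil)))))))) (.g (nat_lit 1) (.e (nat_lit 164511) (nat_lit 0) .nil) .nil))))) 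
(.nd (nat_lit 8) (.nd (nat_lit 9) 
(.lf (nat_lit 497913) (.g (nat_lit 3439) (.e (nat_lit 163943) (nat_lit 19) (.e (nat_lit 483341) (nat_lit 9) (.e (nat_lit 426197) (nat_lit 9) (.e (nat_lit 426436) (nat_lit 18) (.e (nat_lit 98335) (nat_lit 18) (.e (nat_lit 164330) (nat_lit 230) .nil)))))) (.g (nat_lit 1) (.e (nat_lit 162288) (nat_lit 0) .nil) .nil))) 
(.lf (nat_lit 498425) (.g (nat_lit 3653) (.e (nat_lit 163962) (nat_lit 25) (.e (nat_lit 532535) (nat_lit 9) (.e (nat_lit 336176) (nat_lit 10) (.e (nat_lit 344130) (nat_lit 26) (.e (nat_lit 557087) (nat_lit 11) (.e (nat_lit 24591) (nat_lit 0) (.e (nat_lit 7936) (nat_lit 360) .nil))))))) (.g (nat_lit 1) (.e (nat_lit 164272) (nat_lit 0) .nil) .nil)))) (.nd (nat_lit 9) 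
(.lf (nat_lit 498169) (.g (nat_lit 3237) (.e (nat_lit 163962) (nat_lit 25) (.e (nat_lit 532482) (nat_lit 0) (.e (nat_lit 6203) (nat_lit 332) (.e (nat_lit 2798) (nat_lit 180) (.e (nat_lit 303119) (nat_lit 3) (.e (nat_lit 204874) (nat_lit 30) (.e (nat_lit 376576) (nat_lit 3) .nil))))))) (.g (nat_lit 1) (.e (nat_lit 163610) (nat_lit 0) .nil) .nil))) 
(.lf (nat_lit 498681) (.g (nat_lit 2027) (.e (nat_lit 163962) (nat_lit 25) (.e (nat_lit 532550) (nat_lit 12) (.e (nat_lit 360474) (nat_lit 8) (.e (nat_lit 557064) (nat_lit 9) .nil)))) (.g (nat_lit 0) (.e (nat_lit 164850) (nat_lit 0) .nil) .nil)))))))))) (.nd (nat_lit 3) (.nd (nat_lit 4) (.nd (nat_lit 5) (.nd (nat_lit 6) (.nd (nat_lit 7) (.nd (nat_lit 8) (.nd (nat_lit 9) 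
(.lf (nat_lit 497669) (.g (nat_lit 2467) (.e (nat_lit 163941) (nat_lit 19) (.e (nat_lit 483339) (nat_lit 9) (.e (nat_lit 426234) (nat_lit 9) (.e (nat_lit 426435) (nat_lit 18) (.e (nat_lit 98333) (nat_lit 18) (.e (nat_lit 164325) (nat_lit 230) .nil)))))) (.g (nat_lit 1) (.e (nat_lit 161229) (nat_lit 0) .nil) .nil))) 
(.lf (nat_lit 498181) (.g (nat_lit 3005) (.e (nat_lit 163962) (nat_lit 25) (.e (nat_lit 532499) (nat_lit 1) (.e (nat_lit 57926) (nat_lit 282) (.e (nat_lit 163875) (nat_lit 3) (.e (nat_lit 204862) (nat_lit 27) (.e (nat_lit 344117) (nat_lit 21) (.e (nat_lit 516106) (nat_lit 0) (.e (nat_lit 3721) (nat_lit 227) (.e (nat_lit 778474) (nat_lit 12) .nil))))))))) (.g (nat_lit 1) (.e (nat_lit 163627) (nat_lit 0) .nil) .nil)))) 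
(.nd (nat_lit 9) 
(.lf (nat_lit 497925) (.g (nat_lit 1288) (.e (nat_lit 163943) (nat_lit 19) (.e (nat_lit 483346) (nat_lit 17) (.e (nat_lit 6712) (nat_lit 360) (.e (nat_lit 163976) (nat_lit 30) .nil)))) (.g (nat_lit 0) (.e (nat_lit 162498) (nat_lit 0) .nil) .nil))) 
(.lf (nat_lit 498437) (.g (nat_lit 2563) (.e (nat_lit 163962) (nat_lit 25) (.e (nat_lit 532535) (nat_lit 9) (.e (nat_lit 336176) (nat_lit 10) (.e (nat_lit 344133) (nat_lit 26) (.e (nat_lit 557065) (nat_lit 9) (.e (nat_lit 214) (nat_lit 19) (.e (nat_lit 319491) (nat_lit 0) (.e (nat_lit 5761) (nat_lit 315) .nil)))))))) (.g (nat_lit 1) (.e (nat_lit 164300) (nat_lit 0) .nil) .nil))))) 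
(.nd (nat_lit 8) (.nd (nat_lit 9) 
(.lf (nat_lit 497797) (.g (nat_lit 3753) (.e (nat_lit 163941) (nat_lit 19) (.e (nat_lit 483341) (nat_lit 9) (.e (nat_lit 426308) (nat_lit 12) (.e (nat_lit 475179) (nat_lit 24) (.e (nat_lit 516119) (nat_lit 1) (.e (nat_lit 164326) (nat_lit 230) .nil)))))) (.g (nat_lit 1) (.e (nat_lit 161539) (nat_lit 0) .nil) .nil))) 
(.lf (nat_lit 498309) (.g (nat_lit 3094) (.e (nat_lit 163962) (nat_lit 25) (.e (nat_lit 532523) (nat_lit 7) (.e (nat_lit 319534) (nat_lit 16) (.e (nat_lit 286735) (nat_lit 3) (.e (nat_lit 98368) (nat_lit 27) .nil))))) (.g (nat_lit 0) (.e (nat_lit 163912) (nat_lit 0) .nil) .nil)))) (.nd (nat_lit 9) 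
(.lf (nat_lit 498053) (.g (nat_lit 1947) (.e (nat_lit 163945) (nat_lit 20) (.e (nat_lit 491566) (nat_lit 12) (.e (nat_lit 385105) (nat_lit 50) (.e (nat_lit 786481) (nat_lit 30) (.e (nat_lit 368384) (nat_lit 0) .nil))))) (.g (nat_lit 0) (.e (nat_lit 163416) (nat_lit 0) .nil) .nil))) 
(.lf (nat_lit 498565) (.g (nat_lit 2402) (.e (nat_lit 163962) (nat_lit 25) (.e (nat_lit 532546) (nat_lit 11) (.e (nat_lit 352314) (nat_lit 23) (.e (nat_lit 98350) (nat_lit 24) (.e (nat_lit 409617) (nat_lit 10) (.e (nat_lit 5762) (nat_lit 315) .nil)))))) (.g (nat_lit 1) (.e (nat_lit 164531) (nat_lit 0) .nil) .nil)))))) (.nd (nat_lit 7) (.nd (nat_lit 8) (.nd (nat_lit 9) 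
(.lf (nat_lit 497733) (.g (nat_lit 3519) (.e (nat_lit 163941) (nat_lit 19) (.e (nat_lit 483341) (nat_lit 9) (.e (nat_lit 426190) (nat_lit 9) (.e (nat_lit 426436) (nat_lit 18) (.e (nat_lit 98335) (nat_lit 18) (.e (nat_lit 164326) (nat_lit 230) .nil)))))) (.g (nat_lit 1) (.e (nat_lit 161327) (nat_lit 0) .nil) .nil))) 
(.lf (nat_lit 498245) (.g (nat_lit 2033) (.e (nat_lit 163962) (nat_lit 25) (.e (nat_lit 532513) (nat_lit 3) (.e (nat_lit 114714) (nat_lit 22) (.e (nat_lit 90174) (nat_lit 14) (.e (nat_lit 180243) (nat_lit 5) .nil))))) (.g (nat_lit 0) (.e (nat_lit 163763) (nat_lit 0) .nil) .nil)))) (.nd (nat_lit 9) 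
(.lf (nat_lit 497989) (.g (nat_lit 1680) (.e (nat_lit 163943) (nat_lit 19) (.e (nat_lit 483413) (nat_lit 27) (.e (nat_lit 401414) (nat_lit 0) (.e (nat_lit 3306) (nat_lit 202) .nil)))) (.g (nat_lit 0) (.e (nat_lit 162862) (nat_lit 0) .nil) .nil))) 
(.lf (nat_lit 498501) (.g (nat_lit 2099) (.e (nat_lit 163962) (nat_lit 25) (.e (nat_lit 532544) (nat_lit 10) (.e (nat_lit 344129) (nat_lit 26) (.e (nat_lit 557097) (nat_lit 13) (.e (nat_lit 179968) (nat_lit 15) .nil))))) (.g (nat_lit 0) (.e (nat_lit 164459) (nat_lit 0) .nil) .nil))))) (.nd (nat_lit 8) (.nd (nat_lit 9) 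
(.lf (nat_lit 497861) (.g (nat_lit 3385) (.e (nat_lit 163942) (nat_lit 19) (.e (nat_lit 483341) (nat_lit 9) (.e (nat_lit 426190) (nat_lit 9) (.e (nat_lit 426436) (nat_lit 18) (.e (nat_lit 98335) (nat_lit 18) (.e (nat_lit 164329) (nat_lit 230) .nil)))))) (.g (nat_lit 1) (.e (nat_lit 161907) (nat_lit 0) .nil) .nil))) 
(.lf (nat_lit 498373) (.g (nat_lit 3552) (.e (nat_lit 163962) (nat_lit 25) (.e (nat_lit 532535) (nat_lit 9) (.e (nat_lit 336111) (nat_lit 9) (.e (nat_lit 336028) (nat_lit 3) (.e (nat_lit 98350) (nat_lit 24) (.e (nat_lit 409616) (nat_lit 10) (.e (nat_lit 5762) (nat_lit 315) .nil))))))) (.g (nat_lit 1) (.e (nat_lit 164135) (nat_lit 0) .nil) .nil)))) (.nd (nat_lit 9) 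
(.lf (nat_lit 498117) (.g (nat_lit 2589) (.e (nat_lit 163946) (nat_lit 20) (.e (nat_lit 491571) (nat_lit 13) (.e (nat_lit 393299) (nat_lit 27) (.e (nat_lit 491560) (nat_lit 10) (.e (nat_lit 344091) (nat_lit 18) .nil))))) (.g (nat_lit 0) (.e (nat_lit 163515) (nat_lit 0) .nil) .nil))) 
(.lf (nat_lit 498629) (.g (nat_lit 1370) (.e (nat_lit 163962) (nat_lit 25) (.e (nat_lit 532549) (nat_lit 12) (.e (nat_lit 360473) (nat_lit 8) (.e (nat_lit 557067) (nat_lit 9) .nil)))) (.g (nat_lit 0) (.e (nat_lit 164723) (nat_lit 0) .nil) .nil))))))) (.nd (nat_lit 6) (.nd (nat_lit 7) (.nd (nat_lit 8) (.nd (nat_lit 9) 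
(.lf (nat_lit 497701) (.g (nat_lit 3056) (.e (nat_lit 163941) (nat_lit 19) (.e (nat_lit 483339) (nat_lit 9) (.e (nat_lit 426318) (nat_lit 12) (.e (nat_lit 475179) (nat_lit 24) (.e (nat_lit 516120) (nat_lit 1) (.e (nat_lit 164330) (nat_lit 230) .nil)))))) (.g (nat_lit 1) (.e (nat_lit 161265) (nat_lit 0) .nil) .nil))) 
(.lf (nat_lit 498213) (.g (nat_lit 3861) (.e (nat_lit 163962) (nat_lit 25) (.e (nat_lit 532500) (nat_lit 1) (.e (nat_lit 57927) (nat_lit 282) (.e (nat_lit 163869) (nat_lit 2) (.e (nat_lit 196670) (nat_lit 14) (.e (nat_lit 73746) (nat_lit 3) (.e (nat_lit 516124) (nat_lit 2) (.e (nat_lit 213033) (nat_lit 12) .nil)))))))) (.g (nat_lit 1) (.e (nat_lit 163701) (nat_lit 0) .nil) .nil)))) 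
(.nd (nat_lit 9) 
(.lf (nat_lit 497957) (.g (nat_lit 3505) (.e (nat_lit 163943) (nat_lit 19) (.e (nat_lit 483394) (nat_lit 24) (.e (nat_lit 344117) (nat_lit 21) (.e (nat_lit 516195) (nat_lit 26) (.e (nat_lit 335996) (nat_lit 1) (.e (nat_lit 57931) (nat_lit 282) .nil)))))) (.g (nat_lit 1) (.e (nat_lit 162754) (nat_lit 0) .nil) .nil))) 
(.lf (nat_lit 498469) (.g (nat_lit 2359) (.e (nat_lit 163962) (nat_lit 25) (.e (nat_lit 532535) (nat_lit 9) (.e (nat_lit 336234) (nat_lit 14) (.e (nat_lit 401424) (nat_lit 2) (.e (nat_lit 196668) (nat_lit 14) (.e (nat_lit 81664) (nat_lit 35) .nil)))))) (.g (nat_lit 1) (.e (nat_lit 164419) (nat_lit 0) .nil) .nil))))) (.nd (nat_lit 8) (.nd (nat_lit 9) 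
(.lf (nat_lit 497829) (.g (nat_lit 1038) (.e (nat_lit 163941) (nat_lit 19) (.e (nat_lit 483346) (nat_lit 17) (.e (nat_lit 6714) (nat_lit 360) (.e (nat_lit 163975) (nat_lit 30) .nil)))) (.g (nat_lit 0) (.e (nat_lit 161740) (nat_lit 0) .nil) .nil))) 
(.lf (nat_lit 498341) (.g (nat_lit 2865) (.e (nat_lit 163962) (nat_lit 25) (.e (nat_lit 532535) (nat_lit 9) (.e (nat_lit 336061) (nat_lit 7) (.e (nat_lit 319519) (nat_lit 12) (.e (nat_lit 32779) (nat_lit 5) (.e (nat_lit 1512) (nat_lit 108) (.e (nat_lit 335872) (nat_lit 0) (.e (nat_lit 6713) (nat_lit 360) .nil)))))))) (.g (nat_lit 1) (.e (nat_lit 164030) (nat_lit 0) .nil) .nil)))) (.nd (nat_lit 9) 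
(.lf (nat_lit 498085) (.g (nat_lit 2615) (.e (nat_lit 163945) (nat_lit 20) (.e (nat_lit 491571) (nat_lit 13) (.e (nat_lit 393299) (nat_lit 27) (.e (nat_lit 491560) (nat_lit 10) (.e (nat_lit 344090) (nat_lit 18) .nil))))) (.g (nat_lit 0) (.e (nat_lit 163470) (nat_lit 0) .nil) .nil))) 
(.lf (nat_lit 498597) (.g (nat_lit 2267) (.e (nat_lit 163962) (nat_lit 25) (.e (nat_lit 532549) (nat_lit 12) (.e (nat_lit 360466) (nat_lit 3) (.e (nat_lit 516138) (nat_lit 7) (.e (nat_lit 417536) (nat_lit 10) .nil))))) (.g (nat_lit 0) (.e (nat_lit 164661) (nat_lit 0) .nil) .nil)))))) (.nd (nat_lit 7) (.nd (nat_lit 8) (.nd (nat_lit 9) 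
(.lf (nat_lit 497765) (.g (nat_lit 5187) (.e (nat_lit 163941) (nat_lit 19) (.e (nat_lit 483341) (nat_lit 9) (.e (nat_lit 426199) (nat_lit 9) (.e (nat_lit 426436) (nat_lit 18) (.e (nat_lit 98335) (nat_lit 18) (.e (nat_lit 164331) (nat_lit 230) .nil)))))) (.g (nat_lit 1) (.e (nat_lit 161411) (nat_lit 0) .nil) .nil))) 
(.lf (nat_lit 498277) (.g (nat_lit 1970) (.e (nat_lit 163962) (nat_lit 25) (.e (nat_lit 532523) (nat_lit 7) (.e (nat_lit 319490) (nat_lit 0) (.e (nat_lit 5756) (nat_lit 315) .nil)))) (.g (nat_lit 0) (.e (nat_lit 163860) (nat_lit 0) .nil) .nil)))) (.nd (nat_lit 9) 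
(.lf (nat_lit 498021) (.g (nat_lit 3533) (.e (nat_lit 163944) (nat_lit 19) (.e (nat_lit 483341) (nat_lit 9) (.e (nat_lit 426200) (nat_lit 9) (.e (nat_lit 426436) (nat_lit 18) (.e (nat_lit 98335) (nat_lit 18) (.e (nat_lit 164327) (nat_lit 230) .nil)))))) (.g (nat_lit 1) (.e (nat_lit 163054) (nat_lit 0) .nil) .nil))) 
(.lf (nat_lit 498533) (.g (nat_lit 4629) (.e (nat_lit 163962) (nat_lit 25) (.e (nat_lit 532544) (nat_lit 10) (.e (nat_lit 344133) (nat_lit 26) (.e (nat_lit 557096) (nat_lit 13) (.e (nat_lit 172133) (nat_lit 15) (.e (nat_lit 1800) (nat_lit 119) (.e (nat_lit 516119) (nat_lit 1) (.e (nat_lit 164345) (nat_lit 240) (.e (nat_lit 2601) (nat_lit 163) .nil))))))))) (.g (nat_lit 1) (.e (nat_lit 164491) (nat_lit 0) .nil) .nil))))) 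
(.nd (nat_lit 8) (.nd (nat_lit 9) 
(.lf (nat_lit 497893) (.g (nat_lit 2308) (.e (nat_lit 163943) (nat_lit 19) (.e (nat_lit 483339) (nat_lit 9) (.e (nat_lit 426261) (nat_lit 9) (.e (nat_lit 426435) (nat_lit 18) (.e (nat_lit 98335) (nat_lit 18) (.e (nat_lit 164330) (nat_lit 230) .nil)))))) (.g (nat_lit 1) (.e (nat_lit 162219) (nat_lit 0) .nil) .nil))) 
(.lf (nat_lit 498405) (.g (nat_lit 2583) (.e (nat_lit 163962) (nat_lit 25) (.e (nat_lit 532535) (nat_lit 9) (.e (nat_lit 336176) (nat_lit 10) (.e (nat_lit 344126) (nat_lit 25) (.e (nat_lit 548890) (nat_lit 10) (.e (nat_lit 81664) (nat_lit 35) .nil)))))) (.g (nat_lit 1) (.e (nat_lit 164212) (nat_lit 0) .nil) .nil)))) (.nd (nat_lit 9) 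
(.lf (nat_lit 498149) (.g (nat_lit 3439) (.e (nat_lit 163961) (nat_lit 25) (.e (nat_lit 532535) (nat_lit 9) (.e (nat_lit 336099) (nat_lit 9) (.e (nat_lit 336028) (nat_lit 3) (.e (nat_lit 98349) (nat_lit 24) (.e (nat_lit 409612) (nat_lit 10) (.e (nat_lit 5758) (nat_lit 315) .nil))))))) (.g (nat_lit 1) (.e (nat_lit 163573) (nat_lit 0) .nil) .nil))) 
(.lf (nat_lit 498661) (.g (nat_lit 1294) (.e (nat_lit 163962) (nat_lit 25) (.e (nat_lit 532550) (nat_lit 12) (.e (nat_lit 360451) (nat_lit 0) (.e (nat_lit 3933) (nat_lit 239) .nil)))) (.g (nat_lit 0) (.e (nat_lit 164805) (nat_lit 0) .nil) .nil)))))))) (.nd (nat_lit 5) (.nd (nat_lit 6) (.nd (nat_lit 7) (.nd (nat_lit 8) (.nd (nat_lit 9) 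
(.lf (nat_lit 497685) (.g (nat_lit 2175) (.e (nat_lit 163941) (nat_lit 19) (.e (nat_lit 483339) (nat_lit 9) (.e (nat_lit 426261) (nat_lit 9) (.e (nat_lit 426435) (nat_lit 18) (.e (nat_lit 98334) (nat_lit 18) (.e (nat_lit 164332) (nat_lit 230) .nil)))))) (.g (nat_lit 1) (.e (nat_lit 161247) (nat_lit 0) .nil) .nil))) 
(.lf (nat_lit 498197) (.g (nat_lit 2767) (.e (nat_lit 163962) (nat_lit 25) (.e (nat_lit 532500) (nat_lit 1) (.e (nat_lit 57926) (nat_lit 282) (.e (nat_lit 163868) (nat_lit 2) (.e (nat_lit 196670) (nat_lit 14) (.e (nat_lit 73746) (nat_lit 3) (.e (nat_lit 516124) (nat_lit 2) (.e (nat_lit 213033) (nat_lit 12) .nil)))))))) (.g (nat_lit 1) (.e (nat_lit 163675) (nat_lit 0) .nil) .nil)))) 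
(.nd (nat_lit 9) 
(.lf (nat_lit 497941) (.g (nat_lit 1948) (.e (nat_lit 163943) (nat_lit 19) (.e (nat_lit 483393) (nat_lit 23) (.e (nat_lit 336021) (nat_lit 3) (.e (nat_lit 98313) (nat_lit 9) (.e (nat_lit 335987) (nat_lit 1) (.e (nat_lit 57926) (nat_lit 282) .nil)))))) (.g (nat_lit 1) (.e (nat_lit 162733) (nat_lit 0) .nil) .nil))) 
(.lf (nat_lit 498453) (.g (nat_lit 3654) (.e (nat_lit 163962) (nat_lit 25) (.e (nat_lit 532535) (nat_lit 9) (.e (nat_lit 336178) (nat_lit 10) (.e (nat_lit 344117) (nat_lit 21) (.e (nat_lit 516139) (nat_lit 7) (.e (nat_lit 409617) (nat_lit 10) (.e (nat_lit 5756) (nat_lit 315) .nil))))))) (.g (nat_lit 1) (.e (nat_lit 164343) (nat_lit 0) .nil) .nil))))) (.nd (nat_lit 8) (.nd (nat_lit 9) 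
(.lf (nat_lit 497813) (.g (nat_lit 3640) (.e (nat_lit 163941) (nat_lit 19) (.e (nat_lit 483341) (nat_lit 9) (.e (nat_lit 426316) (nat_lit 12) (.e (nat_lit 475179) (nat_lit 24) (.e (nat_lit 516119) (nat_lit 1) (.e (nat_lit 164326) (nat_lit 230) .nil)))))) (.g (nat_lit 1) (.e (nat_lit 161657) (nat_lit 0) .nil) .nil))) 
(.lf (nat_lit 498325) (.g (nat_lit 1005) (.e (nat_lit 163962) (nat_lit 25) (.e (nat_lit 532526) (nat_lit 8) (.e (nat_lit 327697) (nat_lit 7) (.e (nat_lit 294931) (nat_lit 3) (.e (nat_lit 98350) (nat_lit 24) .nil))))) (.g (nat_lit 0) (.e (nat_lit 163951) (nat_lit 0) .nil) .nil)))) (.nd (nat_lit 9) 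
(.lf (nat_lit 498069) (.g (nat_lit 3311) (.e (nat_lit 163945) (nat_lit 20) (.e (nat_lit 491569) (nat_lit 13) (.e (nat_lit 393301) (nat_lit 27) (.e (nat_lit 491558) (nat_lit 10) (.e (nat_lit 344096) (nat_lit 18) (.e (nat_lit 6938) (nat_lit 375) .nil)))))) (.g (nat_lit 1) (.e (nat_lit 163432) (nat_lit 0) .nil) .nil))) 
(.lf (nat_lit 498581) (.g (nat_lit 2033) (.e (nat_lit 163962) (nat_lit 25) (.e (nat_lit 532547) (nat_lit 11) (.e (nat_lit 352315) (nat_lit 23) (.e (nat_lit 98349) (nat_lit 24) (.e (nat_lit 409616) (nat_lit 10) .nil))))) (.g (nat_lit 0) (.e (nat_lit 164607) (nat_lit 0) .nil) .nil)))))) (.nd (nat_lit 7) (.nd (nat_lit 8) (.nd (nat_lit 9) 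
(.lf (nat_lit 497749) (.g (nat_lit 1223) (.e (nat_lit 163941) (nat_lit 19) (.e (nat_lit 483341) (nat_lit 9) (.e (nat_lit 426198) (nat_lit 9) (.e (nat_lit 426364) (nat_lit 15) .nil)))) (.g (nat_lit 0) (.e (nat_lit 161370) (nat_lit 0) .nil) .nil))) 
(.lf (nat_lit 498261) (.g (nat_lit 1784) (.e (nat_lit 163962) (nat_lit 25) (.e (nat_lit 532514) (nat_lit 3) (.e (nat_lit 114718) (nat_lit 23) (.e (nat_lit 98356) (nat_lit 26) (.e (nat_lit 426436) (nat_lit 18) (.e (nat_lit 98334) (nat_lit 18) (.e (nat_lit 164305) (nat_lit 226) (.e (nat_lit 2604) (nat_lit 163) .nil)))))))) (.g (nat_lit 1) (.e (nat_lit 163820) (nat_lit 0) .nil) .nil)))) 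
(.nd (nat_lit 9) 
(.lf (nat_lit 498005) (.g (nat_lit 2110) (.e (nat_lit 163944) (nat_lit 19) (.e (nat_lit 483340) (nat_lit 9) (.e (nat_lit 426188) (nat_lit 9) (.e (nat_lit 426436) (nat_lit 18) (.e (nat_lit 98335) (nat_lit 18) (.e (nat_lit 164325) (nat_lit 230) .nil)))))) (.g (nat_lit 1) (.e (nat_lit 162972) (nat_lit 0) .nil) .nil))) 
(.lf (nat_lit 498517) (.g (nat_lit 1753) (.e (nat_lit 163962) (nat_lit 25) (.e (nat_lit 532544) (nat_lit 10) (.e (nat_lit 344130) (nat_lit 26) (.e (nat_lit 557104) (nat_lit 14) (.e (nat_lit 188160) (nat_lit 3) .nil))))) (.g (nat_lit 0) (.e (nat_lit 164475) (nat_lit 0) .nil) .nil))))) (.nd (nat_lit 8) (.nd (nat_lit 9) 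
(.lf (nat_lit 497877) (.g (nat_lit 4330) (.e (nat_lit 163943) (nat_lit 19) (.e (nat_lit 483337) (nat_lit 9) (.e (nat_lit 426187) (nat_lit 9) (.e (nat_lit 426436) (nat_lit 18) (.e (nat_lit 98335) (nat_lit 18) (.e (nat_lit 164324) (nat_lit 230) .nil)))))) (.g (nat_lit 1) (.e (nat_lit 162123) (nat_lit 0) .nil) .nil))) 
(.lf (nat_lit 498389) (.g (nat_lit 3417) (.e (nat_lit 163962) (nat_lit 25) (.e (nat_lit 532535) (nat_lit 9) (.e (nat_lit 336173) (nat_lit 10) (.e (nat_lit 344119) (nat_lit 21) (.e (nat_lit 516139) (nat_lit 7) (.e (nat_lit 409616) (nat_lit 10) (.e (nat_lit 5763) (nat_lit 315) .nil))))))) (.g (nat_lit 1) (.e (nat_lit 164179) (nat_lit 0) .nil) .nil)))) (.nd (nat_lit 9) 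
(.lf (nat_lit 498133) (.g (nat_lit 1313) (.e (nat_lit 163950) (nat_lit 21) (.e (nat_lit 500071) (nat_lit 19) (.e (nat_lit 81664) (nat_lit 32) (.e (nat_lit 2668) (nat_lit 167) (.e (nat_lit 196667) (nat_lit 14) (.e (nat_lit 81664) (nat_lit 35) .nil)))))) (.g (nat_lit 1) (.e (nat_lit 163533) (nat_lit 0) .nil) .nil))) 
(.lf (nat_lit 498645) (.g (nat_lit 2777) (.e (nat_lit 163962) (nat_lit 25) (.e (nat_lit 532549) (nat_lit 12) (.e (nat_lit 360475) (nat_lit 8) (.e (nat_lit 557066) (nat_lit 9) (.e (nat_lit 328) (nat_lit 25) .nil))))) (.g (nat_lit 0) (.e (nat_lit 164765) (nat_lit 0) .nil) .nil))))))) (.nd (nat_lit 6) (.nd (nat_lit 7) (.nd (nat_lit 8) (.nd (nat_lit 9) 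
(.lf (nat_lit 497717) (.g (nat_lit 5025) (.e (nat_lit 163941) (nat_lit 19) (.e (nat_lit 483341) (nat_lit 9) (.e (nat_lit 426186) (nat_lit 9) (.e (nat_lit 426436) (nat_lit 18) (.e (nat_lit 98335) (nat_lit 18) (.e (nat_lit 164332) (nat_lit 230) .nil)))))) (.g (nat_lit 1) (.e (nat_lit 161283) (nat_lit 0) .nil) .nil))) 
(.lf (nat_lit 498229) (.g (nat_lit 2098) (.e (nat_lit 163962) (nat_lit 25) (.e (nat_lit 532513) (nat_lit 3) (.e (nat_lit 114714) (nat_lit 22) (.e (nat_lit 90172) (nat_lit 14) (.e (nat_lit 180243) (nat_lit 5) (.e (nat_lit 532501) (nat_lit 1) (.e (nat_lit 57662) (nat_lit 152) (.e (nat_lit 7936) (nat_lit 163) .nil)))))))) (.g (nat_lit 1) (.e (nat_lit 163734) (nat_lit 0) .nil) .nil)))) 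
(.nd (nat_lit 9) 
(.lf (nat_lit 497973) (.g (nat_lit 3075) (.e (nat_lit 163943) (nat_lit 19) (.e (nat_lit 483399) (nat_lit 25) (.e (nat_lit 368676) (nat_lit 21) (.e (nat_lit 516195) (nat_lit 26) (.e (nat_lit 335988) (nat_lit 1) (.e (nat_lit 57927) (nat_lit 282) .nil)))))) (.g (nat_lit 1) (.e (nat_lit 162799) (nat_lit 0) .nil) .nil))) 
(.lf (nat_lit 498485) (.g (nat_lit 1580) (.e (nat_lit 163962) (nat_lit 25) (.e (nat_lit 532543) (nat_lit 10) (.e (nat_lit 344130) (nat_lit 26) (.e (nat_lit 557097) (nat_lit 13) (.e (nat_lit 179968) (nat_lit 18) (.e (nat_lit 98335) (nat_lit 18) (.e (nat_lit 164345) (nat_lit 240) (.e (nat_lit 2601) (nat_lit 163) .nil)))))))) (.g (nat_lit 1) (.e (nat_lit 164438) (nat_lit 0) .nil) .nil))))) 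
(.nd (nat_lit 8) (.nd (nat_lit 9) 
(.lf (nat_lit 497845) (.g (nat_lit 949) (.e (nat_lit 163941) (nat_lit 19) (.e (nat_lit 483410) (nat_lit 27) (.e (nat_lit 401416) (nat_lit 0) .nil))) (.g (nat_lit 0) (.e (nat_lit 161822) (nat_lit 0) .nil) .nil))) 
(.lf (nat_lit 498357) (.g (nat_lit 4212) (.e (nat_lit 163962) (nat_lit 25) (.e (nat_lit 532535) (nat_lit 9) (.e (nat_lit 336099) (nat_lit 9) (.e (nat_lit 336028) (nat_lit 3) (.e (nat_lit 98349) (nat_lit 24) (.e (nat_lit 409612) (nat_lit 10) (.e (nat_lit 5756) (nat_lit 315) .nil))))))) (.g (nat_lit 1) (.e (nat_lit 164098) (nat_lit 0) .nil) .nil)))) (.nd (nat_lit 9) 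
(.lf (nat_lit 498101) (.g (nat_lit 2421) (.e (nat_lit 163946) (nat_lit 20) (.e (nat_lit 491566) (nat_lit 12) (.e (nat_lit 385104) (nat_lit 50) (.e (nat_lit 786483) (nat_lit 30) (.e (nat_lit 360451) (nat_lit 0) (.e (nat_lit 5595) (nat_lit 310) .nil)))))) (.g (nat_lit 1) (.e (nat_lit 163492) (nat_lit 0) .nil) .nil))) 
(.lf (nat_lit 498613) (.g (nat_lit 2127) (.e (nat_lit 163962) (nat_lit 25) (.e (nat_lit 532549) (nat_lit 12) (.e (nat_lit 360466) (nat_lit 3) (.e (nat_lit 516142) (nat_lit 8) (.e (nat_lit 425728) (nat_lit 10) (.e (nat_lit 5761) (nat_lit 315) .nil)))))) (.g (nat_lit 1) (.e (nat_lit 164678) (nat_lit 0) .nil) .nil)))))) (.nd (nat_lit 7) (.nd (nat_lit 8) (.nd (nat_lit 9) 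
(.lf (nat_lit 497781) (.g (nat_lit 3543) (.e (nat_lit 163941) (nat_lit 19) (.e (nat_lit 483341) (nat_lit 9) (.e (nat_lit 433920) (nat_lit 9) (.e (nat_lit 426436) (nat_lit 18) (.e (nat_lit 98335) (nat_lit 18) (.e (nat_lit 164327) (nat_lit 230) .nil)))))) (.g (nat_lit 1) (.e (nat_lit 161449) (nat_lit 0) .nil) .nil))) 
(.lf (nat_lit 498293) (.g (nat_lit 1530) (.e (nat_lit 163962) (nat_lit 25) (.e (nat_lit 532523) (nat_lit 7) (.e (nat_lit 319531) (nat_lit 16) (.e (nat_lit 286735) (nat_lit 3) .nil)))) (.g (nat_lit 0) (.e (nat_lit 163896) (nat_lit 0) .nil) .nil)))) (.nd (nat_lit 9) 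
(.lf (nat_lit 498037) (.g (nat_lit 1557) (.e (nat_lit 163945) (nat_lit 20) (.e (nat_lit 491566) (nat_lit 12) (.e (nat_lit 385093) (nat_lit 49) (.e (nat_lit 778327) (nat_lit 6) (.e (nat_lit 81957) (nat_lit 24) .nil))))) (.g (nat_lit 0) (.e (nat_lit 163390) (nat_lit 0) .nil) .nil))) 
(.lf (nat_lit 498549) (.g (nat_lit 2356) (.e (nat_lit 163962) (nat_lit 25) (.e (nat_lit 532544) (nat_lit 10) (.e (nat_lit 344133) (nat_lit 26) (.e (nat_lit 557103) (nat_lit 14) (.e (nat_lit 180243) (nat_lit 5) .nil))))) (.g (nat_lit 0) (.e (nat_lit 164507) (nat_lit 0) .nil) .nil))))) (.nd (nat_lit 8) (.nd (nat_lit 9) 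
(.lf (nat_lit 497909) (.g (nat_lit 3530) (.e (nat_lit 163943) (nat_lit 19) (.e (nat_lit 483341) (nat_lit 9) (.e (nat_lit 426190) (nat_lit 9) (.e (nat_lit 426436) (nat_lit 18) (.e (nat_lit 98335) (nat_lit 18) (.e (nat_lit 164325) (nat_lit 230) .nil)))))) (.g (nat_lit 1) (.e (nat_lit 162274) (nat_lit 0) .nil) .nil))) 
(.lf (nat_lit 498421) (.g (nat_lit 3571) (.e (nat_lit 163962) (nat_lit 25) (.e (nat_lit 532535) (nat_lit 9) (.e (nat_lit 336176) (nat_lit 10) (.e (nat_lit 344130) (nat_lit 26) (.e (nat_lit 557087) (nat_lit 11) (.e (nat_lit 24584) (nat_lit 0) (.e (nat_lit 7936) (nat_lit 360) .nil))))))) (.g (nat_lit 1) (.e (nat_lit 164268) (nat_lit 0) .nil) .nil)))) (.nd (nat_lit 9) 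
(.lf (nat_lit 498165) (.g (nat_lit 3766) (.e (nat_lit 163962) (nat_lit 25) (.e (nat_lit 532482) (nat_lit 0) (.e (nat_lit 6203) (nat_lit 332) (.e (nat_lit 2798) (nat_lit 180) (.e (nat_lit 303119) (nat_lit 3) (.e (nat_lit 204849) (nat_lit 25) (.e (nat_lit 327681) (nat_lit 0) (.e (nat_lit 5762) (nat_lit 315) .nil)))))))) (.g (nat_lit 1) (.e (nat_lit 163606) (nat_lit 0) .nil) .nil))) 
(.lf (nat_lit 498677) (.g (nat_lit 1722) (.e (nat_lit 163962) (nat_lit 25) (.e (nat_lit 532550) (nat_lit 12) (.e (nat_lit 360468) (nat_lit 3) (.e (nat_lit 516139) (nat_lit 7) (.e (nat_lit 417536) (nat_lit 10) .nil))))) (.g (nat_lit 0) (.e (nat_lit 164846) (nat_lit 0) .nil) .nil))))))))) (.nd (nat_lit 4) (.nd (nat_lit 5) (.nd (nat_lit 6) (.nd (nat_lit 7) (.nd (nat_lit 8) (.nd (nat_lit 9) 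
(.lf (nat_lit 497677) (.g (nat_lit 1915) (.e (nat_lit 163941) (nat_lit 19) (.e (nat_lit 483339) (nat_lit 9) (.e (nat_lit 426259) (nat_lit 9) (.e (nat_lit 426435) (nat_lit 18) (.e (nat_lit 98335) (nat_lit 18) (.e (nat_lit 164327) (nat_lit 230) .nil)))))) (.g (nat_lit 1) (.e (nat_lit 161237) (nat_lit 0) .nil) .nil))) 
(.lf (nat_lit 498189) (.g (nat_lit 2451) (.e (nat_lit 163962) (nat_lit 25) (.e (nat_lit 532499) (nat_lit 1) (.e (nat_lit 57927) (nat_lit 282) (.e (nat_lit 163874) (nat_lit 3) (.e (nat_lit 204862) (nat_lit 27) .nil))))) (.g (nat_lit 0) (.e (nat_lit 163652) (nat_lit 0) .nil) .nil)))) (.nd (nat_lit 9) 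
(.lf (nat_lit 497933) (.g (nat_lit 830) (.e (nat_lit 163943) (nat_lit 19) (.e (nat_lit 483346) (nat_lit 17) (.e (nat_lit 6714) (nat_lit 360) (.e (nat_lit 163975) (nat_lit 30) .nil)))) (.g (nat_lit 0) (.e (nat_lit 162592) (nat_lit 0) .nil) .nil))) 
(.lf (nat_lit 498445) (.g (nat_lit 2134) (.e (nat_lit 163962) (nat_lit 25) (.e (nat_lit 532535) (nat_lit 9) (.e (nat_lit 336176) (nat_lit 10) (.e (nat_lit 344133) (nat_lit 26) (.e (nat_lit 557073) (nat_lit 9) (.e (nat_lit 214) (nat_lit 19) (.e (nat_lit 319490) (nat_lit 0) (.e (nat_lit 5761) (nat_lit 315) .nil)))))))) (.g (nat_lit 1) (.e (nat_lit 164331) (nat_lit 0) .nil) .nil))))) 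
(.nd (nat_lit 8) (.nd (nat_lit 9) 
(.lf (nat_lit 497805) (.g (nat_lit 3946) (.e (nat_lit 163941) (nat_lit 19) (.e (nat_lit 483341) (nat_lit 9) (.e (nat_lit 426314) (nat_lit 12) (.e (nat_lit 475179) (nat_lit 24) (.e (nat_lit 516120) (nat_lit 1) (.e (nat_lit 164330) (nat_lit 230) .nil)))))) (.g (nat_lit 1) (.e (nat_lit 161572) (nat_lit 0) .nil) .nil))) 
(.lf (nat_lit 498317) (.g (nat_lit 1665) (.e (nat_lit 163962) (nat_lit 25) (.e (nat_lit 532526) (nat_lit 8) (.e (nat_lit 327698) (nat_lit 8) (.e (nat_lit 303119) (nat_lit 3) (.e (nat_lit 204849) (nat_lit 25) (.e (nat_lit 327681) (nat_lit 0) (.e (nat_lit 5762) (nat_lit 315) .nil))))))) (.g (nat_lit 1) (.e (nat_lit 163925) (nat_lit 0) .nil) .nil)))) (.nd (nat_lit 9) 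
(.lf (nat_lit 498061) (.g (nat_lit 2857) (.e (nat_lit 163945) (nat_lit 20) (.e (nat_lit 491568) (nat_lit 13) (.e (nat_lit 393301) (nat_lit 27) (.e (nat_lit 491559) (nat_lit 10) (.e (nat_lit 344091) (nat_lit 18) .nil))))) (.g (nat_lit 0) (.e (nat_lit 163424) (nat_lit 0) .nil) .nil))) 
(.lf (nat_lit 498573) (.g (nat_lit 428) (.e (nat_lit 163962) (nat_lit 25) (.e (nat_lit 532547) (nat_lit 11) (.e (nat_lit 352314) (nat_lit 23) .nil))) (.g (nat_lit 0) (.e (nat_lit 164592) (nat_lit 0) .nil) .nil)))))) (.nd (nat_lit 7) (.nd (nat_lit 8) (.nd (nat_lit 9) 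
(.lf (nat_lit 497741) (.g (nat_lit 4691) (.e (nat_lit 163941) (nat_lit 19) (.e (nat_lit 483341) (nat_lit 9) (.e (nat_lit 426196) (nat_lit 9) (.e (nat_lit 426436) (nat_lit 18) (.e (nat_lit 98335) (nat_lit 18) (.e (nat_lit 164332) (nat_lit 230) .nil)))))) (.g (nat_lit 1) (.e (nat_lit 161345) (nat_lit 0) .nil) .nil))) 
(.lf (nat_lit 498253) (.g (nat_lit 2108) (.e (nat_lit 163962) (nat_lit 25) (.e (nat_lit 532513) (nat_lit 3) (.e (nat_lit 114714) (nat_lit 22) (.e (nat_lit 90174) (nat_lit 14) (.e (nat_lit 180243) (nat_lit 5) (.e (nat_lit 532501) (nat_lit 1) (.e (nat_lit 57670) (nat_lit 152) (.e (nat_lit 2598) (nat_lit 163) .nil)))))))) (.g (nat_lit 1) (.e (nat_lit 163775) (nat_lit 0) .nil) .nil)))) 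
(.nd (nat_lit 9) 
(.lf (nat_lit 497997) (.g (nat_lit 1882) (.e (nat_lit 163944) (nat_lit 19) (.e (nat_lit 483339) (nat_lit 9) (.e (nat_lit 426232) (nat_lit 9) (.e (nat_lit 426435) (nat_lit 18) (.e (nat_lit 98335) (nat_lit 18) (.e (nat_lit 164327) (nat_lit 230) .nil)))))) (.g (nat_lit 1) (.e (nat_lit 162959) (nat_lit 0) .nil) .nil))) 
(.lf (nat_lit 498509) (.g (nat_lit 2549) (.e (nat_lit 163962) (nat_lit 25) (.e (nat_lit 532544) (nat_lit 10) (.e (nat_lit 344130) (nat_lit 26) (.e (nat_lit 557096) (nat_lit 13) (.e (nat_lit 172133) (nat_lit 15) (.e (nat_lit 1800) (nat_lit 119) (.e (nat_lit 516119) (nat_lit 1) (.e (nat_lit 164345) (nat_lit 240) (.e (nat_lit 2601) (nat_lit 163) .nil))))))))) (.g (nat_lit 1) (.e (nat_lit 164467) (nat_lit 0) .nil) .nil))))) 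
(.nd (nat_lit 8) (.nd (nat_lit 9) 
(.lf (nat_lit 497869) (.g (nat_lit 3617) (.e (nat_lit 163942) (nat_lit 19) (.e (nat_lit 483341) (nat_lit 9) (.e (nat_lit 426200) (nat_lit 9) (.e (nat_lit 426436) (nat_lit 18) (.e (nat_lit 98335) (nat_lit 18) (.e (nat_lit 164325) (nat_lit 230) .nil)))))) (.g (nat_lit 1) (.e (nat_lit 161934) (nat_lit 0) .nil) .nil))) 
(.lf (nat_lit 498381) (.g (nat_lit 3620) (.e (nat_lit 163962) (nat_lit 25) (.e (nat_lit 532535) (nat_lit 9) (.e (nat_lit 336163) (nat_lit 10) (.e (nat_lit 344119) (nat_lit 21) (.e (nat_lit 516139) (nat_lit 7) (.e (nat_lit 409616) (nat_lit 10) (.e (nat_lit 5762) (nat_lit 315) .nil))))))) (.g (nat_lit 1) (.e (nat_lit 164161) (nat_lit 0) .nil) .nil)))) (.nd (nat_lit 9) 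
(.lf (nat_lit 498125) (.g (nat_lit 807) (.e (nat_lit 163947) (nat_lit 20) (.e (nat_lit 491562) (nat_lit 12) (.e (nat_lit 385106) (nat_lit 50) .nil))) (.g (nat_lit 0) (.e (nat_lit 163523) (nat_lit 0) .nil) .nil))) 
(.lf (nat_lit 498637) (.g (nat_lit 1160) (.e (nat_lit 163962) (nat_lit 25) (.e (nat_lit 532549) (nat_lit 12) (.e (nat_lit 360473) (nat_lit 8) (.e (nat_lit 557086) (nat_lit 11) .nil)))) (.g (nat_lit 0) (.e (nat_lit 164755) (nat_lit 0) .nil) .nil))))))) (.nd (nat_lit 6) (.nd (nat_lit 7) (.nd (nat_lit 8) (.nd (nat_lit 9) 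
(.lf (nat_lit 497709) (.g (nat_lit 3684) (.e (nat_lit 163941) (nat_lit 19) (.e (nat_lit 483341) (nat_lit 9) (.e (nat_lit 426185) (nat_lit 9) (.e (nat_lit 426436) (nat_lit 18) (.e (nat_lit 98335) (nat_lit 18) (.e (nat_lit 164329) (nat_lit 230) .nil)))))) (.g (nat_lit 1) (.e (nat_lit 161275) (nat_lit 0) .nil) .nil))) 
(.lf (nat_lit 498221) (.g (nat_lit 2817) (.e (nat_lit 163962) (nat_lit 25) (.e (nat_lit 532500) (nat_lit 1) (.e (nat_lit 57927) (nat_lit 282) (.e (nat_lit 163875) (nat_lit 3) (.e (nat_lit 204862) (nat_lit 27) (.e (nat_lit 344117) (nat_lit 21) (.e (nat_lit 516123) (nat_lit 2) (.e (nat_lit 213033) (nat_lit 12) .nil)))))))) (.g (nat_lit 1) (.e (nat_lit 163711) (nat_lit 0) .nil) .nil)))) 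
(.nd (nat_lit 9) 
(.lf (nat_lit 497965) (.g (nat_lit 3163) (.e (nat_lit 163943) (nat_lit 19) (.e (nat_lit 483398) (nat_lit 25) (.e (nat_lit 368676) (nat_lit 21) (.e (nat_lit 516195) (nat_lit 26) (.e (nat_lit 335988) (nat_lit 1) (.e (nat_lit 57927) (nat_lit 282) .nil)))))) (.g (nat_lit 1) (.e (nat_lit 162790) (nat_lit 0) .nil) .nil))) 
(.lf (nat_lit 498477) (.g (nat_lit 2292) (.e (nat_lit 163962) (nat_lit 25) (.e (nat_lit 532543) (nat_lit 10) (.e (nat_lit 344129) (nat_lit 26) (.e (nat_lit 557096) (nat_lit 13) (.e (nat_lit 179968) (nat_lit 18) .nil))))) (.g (nat_lit 0) (.e (nat_lit 164430) (nat_lit 0) .nil) .nil))))) (.nd (nat_lit 8) (.nd (nat_lit 9) 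
(.lf (nat_lit 497837) (.g (nat_lit 3354) (.e (nat_lit 163941) (nat_lit 19) (.e (nat_lit 483393) (nat_lit 23) (.e (nat_lit 336021) (nat_lit 3) (.e (nat_lit 98313) (nat_lit 9) (.e (nat_lit 335996) (nat_lit 1) (.e (nat_lit 57931) (nat_lit 282) .nil)))))) (.g (nat_lit 1) (.e (nat_lit 161788) (nat_lit 0) .nil) .nil))) 
(.lf (nat_lit 498349) (.g (nat_lit 2802) (.e (nat_lit 163962) (nat_lit 25) (.e (nat_lit 532535) (nat_lit 9) (.e (nat_lit 336073) (nat_lit 9) (.e (nat_lit 336028) (nat_lit 3) (.e (nat_lit 98350) (nat_lit 24) (.e (nat_lit 409616) (nat_lit 10) (.e (nat_lit 7936) (nat_lit 315) .nil))))))) (.g (nat_lit 1) (.e (nat_lit 164045) (nat_lit 0) .nil) .nil)))) (.nd (nat_lit 9) 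
(.lf (nat_lit 498093) (.g (nat_lit 1777) (.e (nat_lit 163946) (nat_lit 20) (.e (nat_lit 491566) (nat_lit 12) (.e (nat_lit 385093) (nat_lit 49) (.e (nat_lit 778331) (nat_lit 8) .nil)))) (.g (nat_lit 0) (.e (nat_lit 163478) (nat_lit 0) .nil) .nil))) 
(.lf (nat_lit 498605) (.g (nat_lit 3705) (.e (nat_lit 163962) (nat_lit 25) (.e (nat_lit 532549) (nat_lit 12) (.e (nat_lit 360466) (nat_lit 3) (.e (nat_lit 516139) (nat_lit 7) (.e (nat_lit 409617) (nat_lit 10) (.e (nat_lit 5762) (nat_lit 315) .nil)))))) (.g (nat_lit 1) (.e (nat_lit 164669) (nat_lit 0) .nil) .nil)))))) (.nd (nat_lit 7) (.nd (nat_lit 8) (.nd (nat_lit 9) 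
(.lf (nat_lit 497773) (.g (nat_lit 1589) (.e (nat_lit 163941) (nat_lit 19) (.e (nat_lit 483341) (nat_lit 9) (.e (nat_lit 426200) (nat_lit 9) (.e (nat_lit 426392) (nat_lit 15) (.e (nat_lit 1796) (nat_lit 119) .nil))))) (.g (nat_lit 0) (.e (nat_lit 161430) (nat_lit 0) .nil) .nil))) 
(.lf (nat_lit 498285) (.g (nat_lit 2387) (.e (nat_lit 163962) (nat_lit 25) (.e (nat_lit 532523) (nat_lit 7) (.e (nat_lit 319539) (nat_lit 19) (.e (nat_lit 311315) (nat_lit 3) (.e (nat_lit 204846) (nat_lit 24) (.e (nat_lit 319504) (nat_lit 10) (.e (nat_lit 7936) (nat_lit 315) .nil))))))) (.g (nat_lit 1) (.e (nat_lit 163888) (nat_lit 0) .nil) .nil)))) (.nd (nat_lit 9) 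
(.lf (nat_lit 498029) (.g (nat_lit 1364) (.e (nat_lit 163945) (nat_lit 20) (.e (nat_lit 491563) (nat_lit 12) (.e (nat_lit 385102) (nat_lit 50) .nil))) (.g (nat_lit 0) (.e (nat_lit 163379) (nat_lit 0) .nil) .nil))) 
(.lf (nat_lit 498541) (.g (nat_lit 2541) (.e (nat_lit 163962) (nat_lit 25) (.e (nat_lit 532544) (nat_lit 10) (.e (nat_lit 344133) (nat_lit 26) (.e (nat_lit 557098) (nat_lit 13) (.e (nat_lit 172136) (nat_lit 15) .nil))))) (.g (nat_lit 0) (.e (nat_lit 164499) (nat_lit 0) .nil) .nil))))) (.nd (nat_lit 8) (.nd (nat_lit 9) 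
(.lf (nat_lit 497901) (.g (nat_lit 4522) (.e (nat_lit 163943) (nat_lit 19) (.e (nat_lit 483341) (nat_lit 9) (.e (nat_lit 426187) (nat_lit 9) (.e (nat_lit 426436) (nat_lit 18) (.e (nat_lit 98335) (nat_lit 18) (.e (nat_lit 164330) (nat_lit 230) .nil)))))) (.g (nat_lit 1) (.e (nat_lit 162255) (nat_lit 0) .nil) .nil))) 
(.lf (nat_lit 498413) (.g (nat_lit 1747) (.e (nat_lit 163962) (nat_lit 25) (.e (nat_lit 532535) (nat_lit 9) (.e (nat_lit 336176) (nat_lit 10) (.e (nat_lit 344130) (nat_lit 26) (.e (nat_lit 557067) (nat_lit 9) .nil))))) (.g (nat_lit 0) (.e (nat_lit 164227) (nat_lit 0) .nil) .nil)))) (.nd (nat_lit 9) 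
(.lf (nat_lit 498157) (.g (nat_lit 5543) (.e (nat_lit 163961) (nat_lit 25) (.e (nat_lit 532550) (nat_lit 12) (.e (nat_lit 360475) (nat_lit 8) (.e (nat_lit 557073) (nat_lit 9) .nil)))) (.g (nat_lit 0) (.e (nat_lit 163585) (nat_lit 0) .nil) .nil))) 
(.lf (nat_lit 498669) (.g (nat_lit 1990) (.e (nat_lit 163962) (nat_lit 25) (.e (nat_lit 532550) (nat_lit 12) (.e (nat_lit 360466) (nat_lit 3) (.e (nat_lit 516139) (nat_lit 7) (.e (nat_lit 409616) (nat_lit 10) (.e (nat_lit 7936) (nat_lit 315) .nil)))))) (.g (nat_lit 1) (.e (nat_lit 164831) (nat_lit 0) .nil) .nil)))))))) 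
(.nd (nat_lit 5) (.nd (nat_lit 6) (.nd (nat_lit 7) (.nd (nat_lit 8) (.nd (nat_lit 9) 
(.lf (nat_lit 497693) (.g (nat_lit 2256) (.e (nat_lit 163941) (nat_lit 19) (.e (nat_lit 483339) (nat_lit 9) (.e (nat_lit 426262) (nat_lit 9) (.e (nat_lit 426435) (nat_lit 18) (.e (nat_lit 98335) (nat_lit 18) (.e (nat_lit 164324) (nat_lit 230) .nil)))))) (.g (nat_lit 1) (.e (nat_lit 161255) (nat_lit 0) .nil) .nil))) 
(.lf (nat_lit 498205) (.g (nat_lit 2233) (.e (nat_lit 163962) (nat_lit 25) (.e (nat_lit 532500) (nat_lit 1) (.e (nat_lit 57926) (nat_lit 282) (.e (nat_lit 163871) (nat_lit 2) (.e (nat_lit 196670) (nat_lit 14) (.e (nat_lit 73746) (nat_lit 3) (.e (nat_lit 516127) (nat_lit 2) (.e (nat_lit 213033) (nat_lit 12) .nil)))))))) (.g (nat_lit 1) (.e (nat_lit 163687) (nat_lit 0) .nil) .nil)))) 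
(.nd (nat_lit 9) 
(.lf (nat_lit 497949) (.g (nat_lit 1118) (.e (nat_lit 163943) (nat_lit 19) (.e (nat_lit 483394) (nat_lit 24) (.e (nat_lit 344117) (nat_lit 21) (.e (nat_lit 516194) (nat_lit 26) .nil)))) (.g (nat_lit 0) (.e (nat_lit 162746) (nat_lit 0) .nil) .nil))) 
(.lf (nat_lit 498461) (.g (nat_lit 3261) (.e (nat_lit 163962) (nat_lit 25) (.e (nat_lit 532535) (nat_lit 9) (.e (nat_lit 336226) (nat_lit 14) (.e (nat_lit 401424) (nat_lit 2) (.e (nat_lit 196668) (nat_lit 14) (.e (nat_lit 81664) (nat_lit 35) .nil)))))) (.g (nat_lit 1) (.e (nat_lit 164383) (nat_lit 0) .nil) .nil))))) (.nd (nat_lit 8) (.nd (nat_lit 9) 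
(.lf (nat_lit 497821) (.g (nat_lit 557) (.e (nat_lit 163941) (nat_lit 19) (.e (nat_lit 483344) (nat_lit 17) (.e (nat_lit 6714) (nat_lit 360) .nil))) (.g (nat_lit 0) (.e (nat_lit 161690) (nat_lit 0) .nil) .nil))) 
(.lf (nat_lit 498333) (.g (nat_lit 2608) (.e (nat_lit 163962) (nat_lit 25) (.e (nat_lit 532535) (nat_lit 9) (.e (nat_lit 336058) (nat_lit 7) (.e (nat_lit 319519) (nat_lit 12) (.e (nat_lit 40704) (nat_lit 5) (.e (nat_lit 1512) (nat_lit 108) (.e (nat_lit 335872) (nat_lit 0) (.e (nat_lit 6713) (nat_lit 360) .nil)))))))) (.g (nat_lit 1) (.e (nat_lit 164009) (nat_lit 0) .nil) .nil)))) (.nd (nat_lit 9) 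
(.lf (nat_lit 498077) (.g (nat_lit 1062) (.e (nat_lit 163945) (nat_lit 20) (.e (nat_lit 491571) (nat_lit 13) (.e (nat_lit 393298) (nat_lit 27) .nil))) (.g (nat_lit 0) (.e (nat_lit 163461) (nat_lit 0) .nil) .nil))) 
(.lf (nat_lit 498589) (.g (nat_lit 2271) (.e (nat_lit 163962) (nat_lit 25) (.e (nat_lit 532547) (nat_lit 11) (.e (nat_lit 352315) (nat_lit 23) (.e (nat_lit 98350) (nat_lit 24) (.e (nat_lit 417536) (nat_lit 10) .nil))))) (.g (nat_lit 0) (.e (nat_lit 164616) (nat_lit 0) .nil) .nil)))))) (.nd (nat_lit 7) (.nd (nat_lit 8) (.nd (nat_lit 9) 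
(.lf (nat_lit 497757) (.g (nat_lit 361) (.e (nat_lit 163941) (nat_lit 19) (.e (nat_lit 483341) (nat_lit 9) (.e (nat_lit 426199) (nat_lit 9) .nil))) (.g (nat_lit 0) (.e (nat_lit 161400) (nat_lit 0) .nil) .nil))) 
(.lf (nat_lit 498269) (.g (nat_lit 3682) (.e (nat_lit 163962) (nat_lit 25) (.e (nat_lit 532523) (nat_lit 7) (.e (nat_lit 319490) (nat_lit 0) (.e (nat_lit 5664) (nat_lit 312) (.e (nat_lit 2661) (nat_lit 167) (.e (nat_lit 196669) (nat_lit 14) (.e (nat_lit 81664) (nat_lit 35) .nil))))))) (.g (nat_lit 1) (.e (nat_lit 163852) (nat_lit 0) .nil) .nil)))) (.nd (nat_lit 9) 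
(.lf (nat_lit 498013) (.g (nat_lit 4512) (.e (nat_lit 163944) (nat_lit 19) (.e (nat_lit 483341) (nat_lit 9) (.e (nat_lit 426189) (nat_lit 9) (.e (nat_lit 426436) (nat_lit 18) (.e (nat_lit 98335) (nat_lit 18) (.e (nat_lit 164327) (nat_lit 230) .nil)))))) (.g (nat_lit 1) (.e (nat_lit 162994) (nat_lit 0) .nil) .nil))) 
(.lf (nat_lit 498525) (.g (nat_lit 2505) (.e (nat_lit 163962) (nat_lit 25) (.e (nat_lit 532544) (nat_lit 10) (.e (nat_lit 344132) (nat_lit 26) (.e (nat_lit 557100) (nat_lit 13) (.e (nat_lit 179968) (nat_lit 15) .nil))))) (.g (nat_lit 0) (.e (nat_lit 164483) (nat_lit 0) .nil) .nil))))) (.nd (nat_lit 8) (.nd (nat_lit 9) 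
(.lf (nat_lit 497885) (.g (nat_lit 3039) (.e (nat_lit 163943) (nat_lit 19) (.e (nat_lit 483337) (nat_lit 9) (.e (nat_lit 426190) (nat_lit 9) (.e (nat_lit 426436) (nat_lit 18) (.e (nat_lit 98335) (nat_lit 18) (.e (nat_lit 164324) (nat_lit 230) .nil)))))) (.g (nat_lit 1) (.e (nat_lit 162142) (nat_lit 0) .nil) .nil))) 
(.lf (nat_lit 498397) (.g (nat_lit 1005) (.e (nat_lit 163962) (nat_lit 25) (.e (nat_lit 532535) (nat_lit 9) (.e (nat_lit 336176) (nat_lit 10) (.e (nat_lit 344117) (nat_lit 21) .nil)))) (.g (nat_lit 0) (.e (nat_lit 164196) (nat_lit 0) .nil) .nil)))) (.nd (nat_lit 9) 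
(.lf (nat_lit 498141) (.g (nat_lit 1926) (.e (nat_lit 163950) (nat_lit 21) (.e (nat_lit 507648) (nat_lit 20) (.e (nat_lit 81922) (nat_lit 0) (.e (nat_lit 3305) (nat_lit 202) (.e (nat_lit 573487) (nat_lit 14) (.e (nat_lit 81664) (nat_lit 35) .nil)))))) (.g (nat_lit 1) (.e (nat_lit 163541) (nat_lit 0) .nil) .nil))) 
(.lf (nat_lit 498653) (.g (nat_lit 1719) (.e (nat_lit 163962) (nat_lit 25) (.e (nat_lit 532549) (nat_lit 12) (.e (nat_lit 360475) (nat_lit 8) (.e (nat_lit 557086) (nat_lit 11) .nil)))) (.g (nat_lit 0) (.e (nat_lit 164788) (nat_lit 0) .nil) .nil))))))) (.nd (nat_lit 6) (.nd (nat_lit 7) (.nd (nat_lit 8) (.nd (nat_lit 9) 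
(.lf (nat_lit 497725) (.g (nat_lit 3755) (.e (nat_lit 163941) (nat_lit 19) (.e (nat_lit 483341) (nat_lit 9) (.e (nat_lit 426188) (nat_lit 9) (.e (nat_lit 426436) (nat_lit 18) (.e (nat_lit 98335) (nat_lit 18) (.e (nat_lit 164327) (nat_lit 230) .nil)))))) (.g (nat_lit 1) (.e (nat_lit 161303) (nat_lit 0) .nil) .nil))) 
(.lf (nat_lit 498237) (.g (nat_lit 2031) (.e (nat_lit 163962) (nat_lit 25) (.e (nat_lit 532513) (nat_lit 3) (.e (nat_lit 114714) (nat_lit 22) (.e (nat_lit 90172) (nat_lit 14) (.e (nat_lit 180244) (nat_lit 5) (.e (nat_lit 532501) (nat_lit 1) (.e (nat_lit 57651) (nat_lit 152) (.e (nat_lit 2603) (nat_lit 163) .nil)))))))) (.g (nat_lit 1) (.e (nat_lit 163750) (nat_lit 0) .nil) .nil)))) 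
(.nd (nat_lit 9) 
(.lf (nat_lit 497981) (.g (nat_lit 817) (.e (nat_lit 163943) (nat_lit 19) (.e (nat_lit 483413) (nat_lit 27) (.e (nat_lit 401408) (nat_lit 0) .nil))) (.g (nat_lit 0) (.e (nat_lit 162826) (nat_lit 0) .nil) .nil))) 
(.lf (nat_lit 498493) (.g (nat_lit 514) (.e (nat_lit 163962) (nat_lit 25) (.e (nat_lit 532544) (nat_lit 10) (.e (nat_lit 344080) (nat_lit 13) .nil))) (.g (nat_lit 0) (.e (nat_lit 164450) (nat_lit 0) .nil) .nil))))) (.nd (nat_lit 8) (.nd (nat_lit 9) 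
(.lf (nat_lit 497853) (.g (nat_lit 3126) (.e (nat_lit 163942) (nat_lit 19) (.e (nat_lit 483341) (nat_lit 9) (.e (nat_lit 426188) (nat_lit 9) (.e (nat_lit 426436) (nat_lit 18) (.e (nat_lit 98335) (nat_lit 18) (.e (nat_lit 164322) (nat_lit 230) .nil)))))) (.g (nat_lit 1) (.e (nat_lit 161888) (nat_lit 0) .nil) .nil))) 
(.lf (nat_lit 498365) (.g (nat_lit 3872) (.e (nat_lit 163962) (nat_lit 25) (.e (nat_lit 532535) (nat_lit 9) (.e (nat_lit 336110) (nat_lit 9) (.e (nat_lit 336028) (nat_lit 3) (.e (nat_lit 98350) (nat_lit 24) (.e (nat_lit 409616) (nat_lit 10) (.e (nat_lit 5757) (nat_lit 315) .nil))))))) (.g (nat_lit 1) (.e (nat_lit 164118) (nat_lit 0) .nil) .nil)))) (.nd (nat_lit 9) 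
(.lf (nat_lit 498109) (.g (nat_lit 1115) (.e (nat_lit 163946) (nat_lit 20) (.e (nat_lit 491571) (nat_lit 13) (.e (nat_lit 393298) (nat_lit 27) .nil))) (.g (nat_lit 0) (.e (nat_lit 163507) (nat_lit 0) .nil) .nil))) 
(.lf (nat_lit 498621) (.g (nat_lit 443) (.e (nat_lit 163962) (nat_lit 25) (.e (nat_lit 532549) (nat_lit 12) (.e (nat_lit 360468) (nat_lit 3) .nil))) (.g (nat_lit 0) (.e (nat_lit 164715) (nat_lit 0) .nil) .nil)))))) (.nd (nat_lit 7) (.nd (nat_lit 8) (.nd (nat_lit 9) 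
(.lf (nat_lit 497789) (.g (nat_lit 3737) (.e (nat_lit 163941) (nat_lit 19) (.e (nat_lit 483341) (nat_lit 9) (.e (nat_lit 426306) (nat_lit 12) (.e (nat_lit 475179) (nat_lit 24) (.e (nat_lit 516117) (nat_lit 1) (.e (nat_lit 164332) (nat_lit 230) .nil)))))) (.g (nat_lit 1) (.e (nat_lit 161493) (nat_lit 0) .nil) .nil))) 
(.lf (nat_lit 498301) (.g (nat_lit 2786) (.e (nat_lit 163962) (nat_lit 25) (.e (nat_lit 532523) (nat_lit 7) (.e (nat_lit 319533) (nat_lit 16) (.e (nat_lit 286734) (nat_lit 3) (.e (nat_lit 98367) (nat_lit 27) .nil))))) (.g (nat_lit 0) (.e (nat_lit 163904) (nat_lit 0) .nil) .nil)))) (.nd (nat_lit 9) 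
(.lf (nat_lit 498045) (.g (nat_lit 1647) (.e (nat_lit 163945) (nat_lit 20) (.e (nat_lit 491566) (nat_lit 12) (.e (nat_lit 385104) (nat_lit 50) (.e (nat_lit 786481) (nat_lit 30) (.e (nat_lit 360457) (nat_lit 0) .nil))))) (.g (nat_lit 0) (.e (nat_lit 163408) (nat_lit 0) .nil) .nil))) 
(.lf (nat_lit 498557) (.g (nat_lit 2668) (.e (nat_lit 163962) (nat_lit 25) (.e (nat_lit 532544) (nat_lit 10) (.e (nat_lit 344133) (nat_lit 26) (.e (nat_lit 557105) (nat_lit 14) (.e (nat_lit 188160) (nat_lit 1) (.e (nat_lit 499910) (nat_lit 8) (.e (nat_lit 164021) (nat_lit 46) (.e (nat_lit 704588) (nat_lit 3) .nil)))))))) (.g (nat_lit 1) (.e (nat_lit 164515) (nat_lit 0) .nil) .nil))))) 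
(.nd (nat_lit 8) (.nd (nat_lit 9) 
(.lf (nat_lit 497917) (.g (nat_lit 3923) (.e (nat_lit 163943) (nat_lit 19) (.e (nat_lit 483341) (nat_lit 9) (.e (nat_lit 426198) (nat_lit 9) (.e (nat_lit 426436) (nat_lit 18) (.e (nat_lit 98335) (nat_lit 18) (.e (nat_lit 164332) (nat_lit 230) .nil)))))) (.g (nat_lit 1) (.e (nat_lit 162299) (nat_lit 0) .nil) .nil))) 
(.lf (nat_lit 498429) (.g (nat_lit 1050) (.e (nat_lit 163962) (nat_lit 25) (.e (nat_lit 532535) (nat_lit 9) (.e (nat_lit 336176) (nat_lit 10) (.e (nat_lit 344132) (nat_lit 26) .nil)))) (.g (nat_lit 0) (.e (nat_lit 164276) (nat_lit 0) .nil) .nil)))) (.nd (nat_lit 9) 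
(.lf (nat_lit 498173) (.g (nat_lit 1036) (.e (nat_lit 163962) (nat_lit 25) (.e (nat_lit 532486) (nat_lit 0) (.e (nat_lit 6113) (nat_lit 332) (.e (nat_lit 2810) (nat_lit 180) .nil)))) (.g (nat_lit 0) (.e (nat_lit 163616) (nat_lit 0) .nil) .nil))) 
(.lf (nat_lit 498685) (.g (nat_lit 1894) (.e (nat_lit 163962) (nat_lit 25) (.e (nat_lit 532550) (nat_lit 12) (.e (nat_lit 360474) (nat_lit 8) (.e (nat_lit 557070) (nat_lit 9) (.e (nat_lit 7936) (nat_lit 21) (.e (nat_lit 335872) (nat_lit 0) (.e (nat_lit 6711) (nat_lit 360) .nil))))))) (.g (nat_lit 1) (.e (nat_lit 164855) (nat_lit 0) .nil) .nil))))))))))) 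
(.nd (nat_lit 2) (.nd (nat_lit 3) (.nd (nat_lit 4) (.nd (nat_lit 5) (.nd (nat_lit 6) 
(.nd (nat_lit 7) (.nd (nat_lit 8) (.nd (nat_lit 9) 
(.lf (nat_lit 497667) (.g (nat_lit 2191) (.e (nat_lit 163941) (nat_lit 19) (.e (nat_lit 483339) (nat_lit 9) (.e (nat_lit 426230) (nat_lit 9) (.e (nat_lit 426435) (nat_lit 18) (.e (nat_lit 98335) (nat_lit 18) (.e (nat_lit 164332) (nat_lit 230) .nil)))))) (.g (nat_lit 1) (.e (nat_lit 161227) (nat_lit 0) .nil) .nil))) 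
(.lf (nat_lit 498179) (.g (nat_lit 3399) (.e (nat_lit 163962) (nat_lit 25) (.e (nat_lit 532499) (nat_lit 1) (.e (nat_lit 57926) (nat_lit 282) (.e (nat_lit 163869) (nat_lit 2) (.e (nat_lit 196670) (nat_lit 14) (.e (nat_lit 73746) (nat_lit 3) (.e (nat_lit 516127) (nat_lit 2) (.e (nat_lit 213033) (nat_lit 12) .nil)))))))) (.g (nat_lit 1) (.e (nat_lit 163625) (nat_lit 0) .nil) .nil)))) 
(.nd (nat_lit 9) 
(.lf (nat_lit 497923) (.g (nat_lit 667) (.e (nat_lit 163943) (nat_lit 19) (.e (nat_lit 483346) (nat_lit 17) (.e (nat_lit 976) (nat_lit 81) .nil))) (.g (nat_lit 0) (.e (nat_lit 162456) (nat_lit 0) .nil) .nil))) 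
(.lf (nat_lit 498435) (.g (nat_lit 1021) (.e (nat_lit 163962) (nat_lit 25) (.e (nat_lit 532535) (nat_lit 9) (.e (nat_lit 336176) (nat_lit 10) (.e (nat_lit 344133) (nat_lit 26) .nil)))) (.g (nat_lit 0) (.e (nat_lit 164298) (nat_lit 0) .nil) .nil))))) (.nd (nat_lit 8) (.nd (nat_lit 9) 
(.lf (nat_lit 497795) (.g (nat_lit 3359) (.e (nat_lit 163941) (nat_lit 19) (.e (nat_lit 483341) (nat_lit 9) (.e (nat_lit 426308) (nat_lit 12) (.e (nat_lit 475179) (nat_lit 24) (.e (nat_lit 516117) (nat_lit 1) (.e (nat_lit 164329) (nat_lit 230) .nil)))))) (.g (nat_lit 1) (.e (nat_lit 161536) (nat_lit 0) .nil) .nil))) 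
(.lf (nat_lit 498307) (.g (nat_lit 2860) (.e (nat_lit 163962) (nat_lit 25) (.e (nat_lit 532523) (nat_lit 7) (.e (nat_lit 319534) (nat_lit 16) (.e (nat_lit 286735) (nat_lit 3) (.e (nat_lit 98350) (nat_lit 24) .nil))))) (.g (nat_lit 0) (.e (nat_lit 163910) (nat_lit 0) .nil) .nil)))) (.nd (nat_lit 9) 
(.lf (nat_lit 498051) (.g (nat_lit 1875) (.e (nat_lit 163945) (nat_lit 20) (.e (nat_lit 491566) (nat_lit 12) (.e (nat_lit 385105) (nat_lit 50) (.e (nat_lit 786481) (nat_lit 30) (.e (nat_lit 360456) (nat_lit 0) .nil))))) (.g (nat_lit 0) (.e (nat_lit 163414) (nat_lit 0) .nil) .nil))) 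
(.lf (nat_lit 498563) (.g (nat_lit 3231) (.e (nat_lit 163962) (nat_lit 25) (.e (nat_lit 532546) (nat_lit 11) (.e (nat_lit 352313) (nat_lit 23) (.e (nat_lit 98350) (nat_lit 24) (.e (nat_lit 409616) (nat_lit 10) (.e (nat_lit 5762) (nat_lit 315) .nil)))))) (.g (nat_lit 1) (.e (nat_lit 164528) (nat_lit 0) .nil) .nil)))))) (.nd (nat_lit 7) (.nd (nat_lit 8) (.nd (nat_lit 9) 
(.lf (nat_lit 497731) (.g (nat_lit 3884) (.e (nat_lit 163941) (nat_lit 19) (.e (nat_lit 483341) (nat_lit 9) (.e (nat_lit 426190) (nat_lit 9) (.e (nat_lit 426436) (nat_lit 18) (.e (nat_lit 98335) (nat_lit 18) (.e (nat_lit 164324) (nat_lit 230) .nil)))))) (.g (nat_lit 1) (.e (nat_lit 161325) (nat_lit 0) .nil) .nil))) 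
(.lf (nat_lit 498243) (.g (nat_lit 2443) (.e (nat_lit 163962) (nat_lit 25) (.e (nat_lit 532513) (nat_lit 3) (.e (nat_lit 114714) (nat_lit 22) (.e (nat_lit 90172) (nat_lit 14) (.e (nat_lit 180244) (nat_lit 5) (.e (nat_lit 532503) (nat_lit 1) (.e (nat_lit 57658) (nat_lit 152) (.e (nat_lit 2603) (nat_lit 163) .nil)))))))) (.g (nat_lit 1) (.e (nat_lit 163759) (nat_lit 0) .nil) .nil)))) 
(.nd (nat_lit 9) 
(.lf (nat_lit 497987) (.g (nat_lit 4175) (.e (nat_lit 163943) (nat_lit 19) (.e (nat_lit 483413) (nat_lit 27) (.e (nat_lit 401414) (nat_lit 0) (.e (nat_lit 3304) (nat_lit 202) (.e (nat_lit 573484) (nat_lit 13) (.e (nat_lit 65563) (nat_lit 1) (.e (nat_lit 57926) (nat_lit 282) .nil))))))) (.g (nat_lit 1) (.e (nat_lit 162858) (nat_lit 0) .nil) .nil))) 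
(.lf (nat_lit 498499) (.g (nat_lit 2646) (.e (nat_lit 163962) (nat_lit 25) (.e (nat_lit 532544) (nat_lit 10) (.e (nat_lit 344129) (nat_lit 26) (.e (nat_lit 557097) (nat_lit 13) (.e (nat_lit 172133) (nat_lit 15) (.e (nat_lit 1800) (nat_lit 119) (.e (nat_lit 516119) (nat_lit 1) (.e (nat_lit 164345) (nat_lit 240) (.e (nat_lit 2599) (nat_lit 163) .nil))))))))) (.g (nat_lit 1) (.e (nat_lit 164457) (nat_lit 0) .nil) .nil))))) 
(.nd (nat_lit 8) (.nd (nat_lit 9) 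
(.lf (nat_lit 497859) (.g (nat_lit 2508) (.e (nat_lit 163942) (nat_lit 19) (.e (nat_lit 483341) (nat_lit 9) (.e (nat_lit 426190) (nat_lit 9) (.e (nat_lit 426436) (nat_lit 18) (.e (nat_lit 98335) (nat_lit 18) .nil))))) (.g (nat_lit 0) (.e (nat_lit 161905) (nat_lit 0) .nil) .nil))) 
(.lf (nat_lit 498371) (.g (nat_lit 4504) (.e (nat_lit 163962) (nat_lit 25) (.e (nat_lit 532535) (nat_lit 9) (.e (nat_lit 336110) (nat_lit 9) (.e (nat_lit 336028) (nat_lit 3) (.e (nat_lit 98350) (nat_lit 24) (.e (nat_lit 409617) (nat_lit 10) (.e (nat_lit 7936) (nat_lit 315) .nil))))))) (.g (nat_lit 1) (.e (nat_lit 164125) (nat_lit 0) .nil) .nil)))) (.nd (nat_lit 9) 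
(.lf (nat_lit 498115) (.g (nat_lit 2729) (.e (nat_lit 163946) (nat_lit 20) (.e (nat_lit 491571) (nat_lit 13) (.e (nat_lit 393299) (nat_lit 27) (.e (nat_lit 491560) (nat_lit 10) (.e (nat_lit 344088) (nat_lit 18) (.e (nat_lit 6943) (nat_lit 375) .nil)))))) (.g (nat_lit 1) (.e (nat_lit 163513) (nat_lit 0) .nil) .nil))) 
(.lf (nat_lit 498627) (.g (nat_lit 1430) (.e (nat_lit 163962) (nat_lit 25) (.e (nat_lit 532549) (nat_lit 12) (.e (nat_lit 360473) (nat_lit 8) (.e (nat_lit 557065) (nat_lit 9) .nil)))) (.g (nat_lit 0) (.e (nat_lit 164721) (nat_lit 0) .nil) .nil))))))) (.nd (nat_lit 6) (.nd (nat_lit 7) (.nd (nat_lit 8) (.nd (nat_lit 9) 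
(.lf (nat_lit 497699) (.g (nat_lit 2665) (.e (nat_lit 163941) (nat_lit 19) (.e (nat_lit 483339) (nat_lit 9) (.e (nat_lit 426318) (nat_lit 12) (.e (nat_lit 475179) (nat_lit 24) (.e (nat_lit 516117) (nat_lit 1) (.e (nat_lit 164332) (nat_lit 230) .nil)))))) (.g (nat_lit 1) (.e (nat_lit 161262) (nat_lit 0) .nil) .nil))) 
(.lf (nat_lit 498211) (.g (nat_lit 555) (.e (nat_lit 163962) (nat_lit 25) (.e (nat_lit 532500) (nat_lit 1) (.e (nat_lit 57927) (nat_lit 282) .nil))) (.g (nat_lit 0) (.e (nat_lit 163693) (nat_lit 0) .nil) .nil)))) (.nd (nat_lit 9) 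
(.lf (nat_lit 497955) (.g (nat_lit 2007) (.e (nat_lit 163943) (nat_lit 19) (.e (nat_lit 483394) (nat_lit 24) (.e (nat_lit 344117) (nat_lit 21) (.e (nat_lit 516195) (nat_lit 26) (.e (nat_lit 335993) (nat_lit 1) (.e (nat_lit 57931) (nat_lit 282) .nil)))))) (.g (nat_lit 1) (.e (nat_lit 162752) (nat_lit 0) .nil) .nil))) 
(.lf (nat_lit 498467) (.g (nat_lit 3219) (.e (nat_lit 163962) (nat_lit 25) (.e (nat_lit 532535) (nat_lit 9) (.e (nat_lit 336226) (nat_lit 14) (.e (nat_lit 401425) (nat_lit 2) (.e (nat_lit 196668) (nat_lit 14) (.e (nat_lit 81664) (nat_lit 35) .nil)))))) (.g (nat_lit 1) (.e (nat_lit 164397) (nat_lit 0) .nil) .nil))))) (.nd (nat_lit 8) (.nd (nat_lit 9) 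
(.lf (nat_lit 497827) (.g (nat_lit 1594) (.e (nat_lit 163941) (nat_lit 19) (.e (nat_lit 483346) (nat_lit 17) (.e (nat_lit 6712) (nat_lit 360) (.e (nat_lit 163978) (nat_lit 30) .nil)))) (.g (nat_lit 0) (.e (nat_lit 161731) (nat_lit 0) .nil) .nil))) 
(.lf (nat_lit 498339) (.g (nat_lit 2629) (.e (nat_lit 163962) (nat_lit 25) (.e (nat_lit 532535) (nat_lit 9) (.e (nat_lit 336061) (nat_lit 7) (.e (nat_lit 319519) (nat_lit 12) (.e (nat_lit 32778) (nat_lit 5) (.e (nat_lit 1512) (nat_lit 108) (.e (nat_lit 335872) (nat_lit 0) (.e (nat_lit 6713) (nat_lit 360) .nil)))))))) (.g (nat_lit 1) (.e (nat_lit 164028) (nat_lit 0) .nil) .nil)))) (.nd (nat_lit 9) 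
(.lf (nat_lit 498083) (.g (nat_lit 2690) (.e (nat_lit 163945) (nat_lit 20) (.e (nat_lit 491571) (nat_lit 13) (.e (nat_lit 393299) (nat_lit 27) (.e (nat_lit 491560) (nat_lit 10) (.e (nat_lit 344088) (nat_lit 18) (.e (nat_lit 6940) (nat_lit 375) .nil)))))) (.g (nat_lit 1) (.e (nat_lit 163468) (nat_lit 0) .nil) .nil))) 
(.lf (nat_lit 498595) (.g (nat_lit 2330) (.e (nat_lit 163962) (nat_lit 25) (.e (nat_lit 532549) (nat_lit 12) (.e (nat_lit 360466) (nat_lit 3) (.e (nat_lit 516138) (nat_lit 7) (.e (nat_lit 409609) (nat_lit 10) .nil))))) (.g (nat_lit 0) (.e (nat_lit 164659) (nat_lit 0) .nil) .nil)))))) (.nd (nat_lit 7) (.nd (nat_lit 8) (.nd (nat_lit 9) 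
(.lf (nat_lit 497763) (.g (nat_lit 4594) (.e (nat_lit 163941) (nat_lit 19) (.e (nat_lit 483341) (nat_lit 9) (.e (nat_lit 426199) (nat_lit 9) (.e (nat_lit 426436) (nat_lit 18) (.e (nat_lit 98335) (nat_lit 18) (.e (nat_lit 164329) (nat_lit 230) .nil)))))) (.g (nat_lit 1) (.e (nat_lit 161409) (nat_lit 0) .nil) .nil))) 
(.lf (nat_lit 498275) (.g (nat_lit 3470) (.e (nat_lit 163962) (nat_lit 25) (.e (nat_lit 532523) (nat_lit 7) (.e (nat_lit 319490) (nat_lit 0) (.e (nat_lit 5664) (nat_lit 312) (.e (nat_lit 2679) (nat_lit 168) (.e (nat_lit 204849) (nat_lit 25) (.e (nat_lit 327681) (nat_lit 0) (.e (nat_lit 5762) (nat_lit 315) .nil)))))))) (.g (nat_lit 1) (.e (nat_lit 163858) (nat_lit 0) .nil) .nil)))) 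
(.nd (nat_lit 9) 
(.lf (nat_lit 498019) (.g (nat_lit 3408) (.e (nat_lit 163944) (nat_lit 19) (.e (nat_lit 483341) (nat_lit 9) (.e (nat_lit 426198) (nat_lit 9) (.e (nat_lit 426436) (nat_lit 18) (.e (nat_lit 98335) (nat_lit 18) (.e (nat_lit 164327) (nat_lit 230) .nil)))))) (.g (nat_lit 1) (.e (nat_lit 163024) (nat_lit 0) .nil) .nil))) 
(.lf (nat_lit 498531) (.g (nat_lit 2656) (.e (nat_lit 163962) (nat_lit 25) (.e (nat_lit 532544) (nat_lit 10) (.e (nat_lit 344133) (nat_lit 26) (.e (nat_lit 557096) (nat_lit 13) (.e (nat_lit 172133) (nat_lit 15) (.e (nat_lit 1800) (nat_lit 119) (.e (nat_lit 516119) (nat_lit 1) (.e (nat_lit 164345) (nat_lit 240) (.e (nat_lit 2599) (nat_lit 163) .nil))))))))) (.g (nat_lit 1) (.e (nat_lit 164489) (nat_lit 0) .nil) .nil))))) 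
(.nd (nat_lit 8) (.nd (nat_lit 9) 
(.lf (nat_lit 497891) (.g (nat_lit 2121) (.e (nat_lit 163943) (nat_lit 19) (.e (nat_lit 483337) (nat_lit 9) (.e (nat_lit 426204) (nat_lit 9) (.e (nat_lit 426412) (nat_lit 15) (.e (nat_lit 1800) (nat_lit 119) .nil))))) (.g (nat_lit 0) (.e (nat_lit 162166) (nat_lit 0) .nil) .nil))) 
(.lf (nat_lit 498403) (.g (nat_lit 1827) (.e (nat_lit 163962) (nat_lit 25) (.e (nat_lit 532535) (nat_lit 9) (.e (nat_lit 336176) (nat_lit 10) (.e (nat_lit 344126) (nat_lit 25) (.e (nat_lit 548870) (nat_lit 5) .nil))))) (.g (nat_lit 0) (.e (nat_lit 164207) (nat_lit 0) .nil) .nil)))) (.nd (nat_lit 9) 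
(.lf (nat_lit 498147) (.g (nat_lit 1820) (.e (nat_lit 163961) (nat_lit 25) (.e (nat_lit 532514) (nat_lit 3) (.e (nat_lit 114718) (nat_lit 23) (.e (nat_lit 98356) (nat_lit 26) (.e (nat_lit 426438) (nat_lit 18) (.e (nat_lit 98335) (nat_lit 18) (.e (nat_lit 164305) (nat_lit 226) (.e (nat_lit 2612) (nat_lit 163) .nil)))))))) (.g (nat_lit 1) (.e (nat_lit 163562) (nat_lit 0) .nil) .nil))) 
(.lf (nat_lit 498659) (.g (nat_lit 3402) (.e (nat_lit 163962) (nat_lit 25) (.e (nat_lit 532549) (nat_lit 12) (.e (nat_lit 360475) (nat_lit 8) (.e (nat_lit 557087) (nat_lit 11) (.e (nat_lit 24588) (nat_lit 0) .nil))))) (.g (nat_lit 0) (.e (nat_lit 164794) (nat_lit 0) .nil) .nil)))))))) (.nd (nat_lit 5) (.nd (nat_lit 6) (.nd (nat_lit 7) (.nd (nat_lit 8) (.nd (nat_lit 9) 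
(.lf (nat_lit 497683) (.g (nat_lit 2210) (.e (nat_lit 163941) (nat_lit 19) (.e (nat_lit 483339) (nat_lit 9) (.e (nat_lit 426260) (nat_lit 9) (.e (nat_lit 426435) (nat_lit 18) (.e (nat_lit 98335) (nat_lit 18) (.e (nat_lit 164332) (nat_lit 230) .nil)))))) (.g (nat_lit 1) (.e (nat_lit 161244) (nat_lit 0) .nil) .nil))) 
(.lf (nat_lit 498195) (.g (nat_lit 2189) (.e (nat_lit 163962) (nat_lit 25) (.e (nat_lit 532500) (nat_lit 1) (.e (nat_lit 57851) (nat_lit 252) (.e (nat_lit 57347) (nat_lit 0) (.e (nat_lit 1852) (nat_lit 124) .nil))))) (.g (nat_lit 0) (.e (nat_lit 163666) (nat_lit 0) .nil) .nil)))) (.nd (nat_lit 9) 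
(.lf (nat_lit 497939) (.g (nat_lit 1863) (.e (nat_lit 163943) (nat_lit 19) (.e (nat_lit 483392) (nat_lit 23) (.e (nat_lit 336021) (nat_lit 3) (.e (nat_lit 98317) (nat_lit 9) (.e (nat_lit 335995) (nat_lit 1) (.e (nat_lit 57931) (nat_lit 282) .nil)))))) (.g (nat_lit 1) (.e (nat_lit 162702) (nat_lit 0) .nil) .nil))) 
(.lf (nat_lit 498451) (.g (nat_lit 3866) (.e (nat_lit 163962) (nat_lit 25) (.e (nat_lit 532535) (nat_lit 9) (.e (nat_lit 336177) (nat_lit 10) (.e (nat_lit 344117) (nat_lit 21) (.e (nat_lit 516139) (nat_lit 7) (.e (nat_lit 409618) (nat_lit 10) (.e (nat_lit 5756) (nat_lit 315) .nil))))))) (.g (nat_lit 1) (.e (nat_lit 164339) (nat_lit 0) .nil) .nil))))) (.nd (nat_lit 8) (.nd (nat_lit 9) 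
(.lf (nat_lit 497811) (.g (nat_lit 3909) (.e (nat_lit 163941) (nat_lit 19) (.e (nat_lit 483341) (nat_lit 9) (.e (nat_lit 426315) (nat_lit 12) (.e (nat_lit 475179) (nat_lit 24) (.e (nat_lit 516120) (nat_lit 1) (.e (nat_lit 164332) (nat_lit 230) .nil)))))) (.g (nat_lit 1) (.e (nat_lit 161630) (nat_lit 0) .nil) .nil))) 
(.lf (nat_lit 498323) (.g (nat_lit 3911) (.e (nat_lit 163962) (nat_lit 25) (.e (nat_lit 532526) (nat_lit 8) (.e (nat_lit 327699) (nat_lit 8) (.e (nat_lit 303119) (nat_lit 3) (.e (nat_lit 204863) (nat_lit 27) (.e (nat_lit 352000) (nat_lit 3) .nil)))))) (.g (nat_lit 1) (.e (nat_lit 163937) (nat_lit 0) .nil) .nil)))) (.nd (nat_lit 9) 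
(.lf (nat_lit 498067) (.g (nat_lit 2722) (.e (nat_lit 163945) (nat_lit 20) (.e (nat_lit 491569) (nat_lit 13) (.e (nat_lit 393301) (nat_lit 27) (.e (nat_lit 491558) (nat_lit 10) (.e (nat_lit 344088) (nat_lit 18) .nil))))) (.g (nat_lit 0) (.e (nat_lit 163430) (nat_lit 0) .nil) .nil))) 
(.lf (nat_lit 498579) (.g (nat_lit 2981) (.e (nat_lit 163962) (nat_lit 25) (.e (nat_lit 532547) (nat_lit 11) (.e (nat_lit 352315) (nat_lit 23) (.e (nat_lit 98349) (nat_lit 24) (.e (nat_lit 409612) (nat_lit 10) (.e (nat_lit 5762) (nat_lit 315) .nil)))))) (.g (nat_lit 1) (.e (nat_lit 164605) (nat_lit 0) .nil) .nil)))))) (.nd (nat_lit 7) (.nd (nat_lit 8) (.nd (nat_lit 9) 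
(.lf (nat_lit 497747) (.g (nat_lit 309) (.e (nat_lit 163941) (nat_lit 19) (.e (nat_lit 483341) (nat_lit 9) (.e (nat_lit 426198) (nat_lit 9) .nil))) (.g (nat_lit 0) (.e (nat_lit 161364) (nat_lit 0) .nil) .nil))) 
(.lf (nat_lit 498259) (.g (nat_lit 2308) (.e (nat_lit 163962) (nat_lit 25) (.e (nat_lit 532513) (nat_lit 3) (.e (nat_lit 114714) (nat_lit 22) (.e (nat_lit 90174) (nat_lit 14) (.e (nat_lit 180243) (nat_lit 5) (.e (nat_lit 532504) (nat_lit 1) (.e (nat_lit 57662) (nat_lit 152) (.e (nat_lit 7936) (nat_lit 163) .nil)))))))) (.g (nat_lit 1) (.e (nat_lit 163787) (nat_lit 0) .nil) .nil)))) 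
(.nd (nat_lit 9) 
(.lf (nat_lit 498003) (.g (nat_lit 2029) (.e (nat_lit 163944) (nat_lit 19) (.e (nat_lit 483339) (nat_lit 9) (.e (nat_lit 426261) (nat_lit 9) (.e (nat_lit 426435) (nat_lit 18) (.e (nat_lit 98333) (nat_lit 18) (.e (nat_lit 164325) (nat_lit 230) .nil)))))) (.g (nat_lit 1) (.e (nat_lit 162967) (nat_lit 0) .nil) .nil))) 
(.lf (nat_lit 498515) (.g (nat_lit 1887) (.e (nat_lit 163962) (nat_lit 25) (.e (nat_lit 532544) (nat_lit 10) (.e (nat_lit 344130) (nat_lit 26) (.e (nat_lit 557103) (nat_lit 14) (.e (nat_lit 188160) (nat_lit 3) .nil))))) (.g (nat_lit 0) (.e (nat_lit 164473) (nat_lit 0) .nil) .nil))))) (.nd (nat_lit 8) (.nd (nat_lit 9) 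
(.lf (nat_lit 497875) (.g (nat_lit 2015) (.e (nat_lit 163943) (nat_lit 19) (.e (nat_lit 483336) (nat_lit 9) (.e (nat_lit 426190) (nat_lit 9) (.e (nat_lit 426436) (nat_lit 18) (.e (nat_lit 98335) (nat_lit 18) (.e (nat_lit 164332) (nat_lit 230) .nil)))))) (.g (nat_lit 1) (.e (nat_lit 162098) (nat_lit 0) .nil) .nil))) 
(.lf (nat_lit 498387) (.g (nat_lit 1403) (.e (nat_lit 163962) (nat_lit 25) (.e (nat_lit 532535) (nat_lit 9) (.e (nat_lit 336173) (nat_lit 10) (.e (nat_lit 344117) (nat_lit 21) .nil)))) (.g (nat_lit 0) (.e (nat_lit 164177) (nat_lit 0) .nil) .nil)))) (.nd (nat_lit 9) 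
(.lf (nat_lit 498131) (.g (nat_lit 2232) (.e (nat_lit 163950) (nat_lit 21) (.e (nat_lit 500071) (nat_lit 19) (.e (nat_lit 73781) (nat_lit 32) (.e (nat_lit 2664) (nat_lit 167) (.e (nat_lit 196670) (nat_lit 14) (.e (nat_lit 81664) (nat_lit 35) .nil)))))) (.g (nat_lit 1) (.e (nat_lit 163531) (nat_lit 0) .nil) .nil))) 
(.lf (nat_lit 498643) (.g (nat_lit 2493) (.e (nat_lit 163962) (nat_lit 25) (.e (nat_lit 532549) (nat_lit 12) (.e (nat_lit 360475) (nat_lit 8) (.e (nat_lit 557065) (nat_lit 9) .nil)))) (.g (nat_lit 0) (.e (nat_lit 164762) (nat_lit 0) .nil) .nil))))))) (.nd (nat_lit 6) (.nd (nat_lit 7) (.nd (nat_lit 8) (.nd (nat_lit 9) 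
(.lf (nat_lit 497715) (.g (nat_lit 5443) (.e (nat_lit 163941) (nat_lit 19) (.e (nat_lit 483341) (nat_lit 9) (.e (nat_lit 426186) (nat_lit 9) (.e (nat_lit 426436) (nat_lit 18) (.e (nat_lit 98335) (nat_lit 18) (.e (nat_lit 164330) (nat_lit 230) .nil)))))) (.g (nat_lit 1) (.e (nat_lit 161281) (nat_lit 0) .nil) .nil))) 
(.lf (nat_lit 498227) (.g (nat_lit 1540) (.e (nat_lit 163962) (nat_lit 25) (.e (nat_lit 532501) (nat_lit 1) (.e (nat_lit 57851) (nat_lit 252) .nil))) (.g (nat_lit 0) (.e (nat_lit 163721) (nat_lit 0) .nil) .nil)))) (.nd (nat_lit 9) 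
(.lf (nat_lit 497971) (.g (nat_lit 3629) (.e (nat_lit 163943) (nat_lit 19) (.e (nat_lit 483399) (nat_lit 25) (.e (nat_lit 368676) (nat_lit 21) (.e (nat_lit 516195) (nat_lit 26) (.e (nat_lit 335986) (nat_lit 1) (.e (nat_lit 57931) (nat_lit 282) .nil)))))) (.g (nat_lit 1) (.e (nat_lit 162797) (nat_lit 0) .nil) .nil))) 
(.lf (nat_lit 498483) (.g (nat_lit 2972) (.e (nat_lit 163962) (nat_lit 25) (.e (nat_lit 532543) (nat_lit 10) (.e (nat_lit 344129) (nat_lit 26) (.e (nat_lit 557104) (nat_lit 14) (.e (nat_lit 180244) (nat_lit 5) (.e (nat_lit 532503) (nat_lit 1) (.e (nat_lit 57704) (nat_lit 164) (.e (nat_lit 2601) (nat_lit 163) .nil)))))))) (.g (nat_lit 1) (.e (nat_lit 164436) (nat_lit 0) .nil) .nil))))) 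
(.nd (nat_lit 8) (.nd (nat_lit 9) 
(.lf (nat_lit 497843) (.g (nat_lit 2762) (.e (nat_lit 163941) (nat_lit 19) (.e (nat_lit 483394) (nat_lit 24) (.e (nat_lit 344117) (nat_lit 21) (.e (nat_lit 516195) (nat_lit 26) (.e (nat_lit 335986) (nat_lit 1) (.e (nat_lit 57927) (nat_lit 282) .nil)))))) (.g (nat_lit 1) (.e (nat_lit 161797) (nat_lit 0) .nil) .nil))) 
(.lf (nat_lit 498355) (.g (nat_lit 3652) (.e (nat_lit 163962) (nat_lit 25) (.e (nat_lit 532535) (nat_lit 9) (.e (nat_lit 336099) (nat_lit 9) (.e (nat_lit 336028) (nat_lit 3) (.e (nat_lit 98349) (nat_lit 24) (.e (nat_lit 409609) (nat_lit 10) (.e (nat_lit 5756) (nat_lit 315) .nil))))))) (.g (nat_lit 1) (.e (nat_lit 164096) (nat_lit 0) .nil) .nil)))) (.nd (nat_lit 9) 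
(.lf (nat_lit 498099) (.g (nat_lit 1425) (.e (nat_lit 163946) (nat_lit 20) (.e (nat_lit 491566) (nat_lit 12) (.e (nat_lit 385104) (nat_lit 50) (.e (nat_lit 786483) (nat_lit 30) .nil)))) (.g (nat_lit 0) (.e (nat_lit 163490) (nat_lit 0) .nil) .nil))) 
(.lf (nat_lit 498611) (.g (nat_lit 2047) (.e (nat_lit 163962) (nat_lit 25) (.e (nat_lit 532549) (nat_lit 12) (.e (nat_lit 360466) (nat_lit 3) (.e (nat_lit 516142) (nat_lit 8) (.e (nat_lit 417821) (nat_lit 10) .nil))))) (.g (nat_lit 0) (.e (nat_lit 164676) (nat_lit 0) .nil) .nil)))))) (.nd (nat_lit 7) (.nd (nat_lit 8) (.nd (nat_lit 9) 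
(.lf (nat_lit 497779) (.g (nat_lit 3942) (.e (nat_lit 163941) (nat_lit 19) (.e (nat_lit 483341) (nat_lit 9) (.e (nat_lit 433920) (nat_lit 9) (.e (nat_lit 426436) (nat_lit 18) (.e (nat_lit 98335) (nat_lit 18) (.e (nat_lit 164325) (nat_lit 230) .nil)))))) (.g (nat_lit 1) (.e (nat_lit 161447) (nat_lit 0) .nil) .nil))) 
(.lf (nat_lit 498291) (.g (nat_lit 3059) (.e (nat_lit 163962) (nat_lit 25) (.e (nat_lit 532523) (nat_lit 7) (.e (nat_lit 319530) (nat_lit 16) (.e (nat_lit 286735) (nat_lit 3) (.e (nat_lit 98368) (nat_lit 27) .nil))))) (.g (nat_lit 0) (.e (nat_lit 163894) (nat_lit 0) .nil) .nil)))) (.nd (nat_lit 9) 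
(.lf (nat_lit 498035) (.g (nat_lit 2523) (.e (nat_lit 163945) (nat_lit 20) (.e (nat_lit 491566) (nat_lit 12) (.e (nat_lit 385093) (nat_lit 49) (.e (nat_lit 778326) (nat_lit 6) (.e (nat_lit 81959) (nat_lit 24) (.e (nat_lit 123228) (nat_lit 282) .nil)))))) (.g (nat_lit 1) (.e (nat_lit 163388) (nat_lit 0) .nil) .nil))) 
(.lf (nat_lit 498547) (.g (nat_lit 2397) (.e (nat_lit 163962) (nat_lit 25) (.e (nat_lit 532544) (nat_lit 10) (.e (nat_lit 344133) (nat_lit 26) (.e (nat_lit 557098) (nat_lit 13) (.e (nat_lit 179968) (nat_lit 18) .nil))))) (.g (nat_lit 0) (.e (nat_lit 164505) (nat_lit 0) .nil) .nil))))) (.nd (nat_lit 8) (.nd (nat_lit 9) 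
(.lf (nat_lit 497907) (.g (nat_lit 5039) (.e (nat_lit 163943) (nat_lit 19) (.e (nat_lit 483341) (nat_lit 9) (.e (nat_lit 426189) (nat_lit 9) (.e (nat_lit 426436) (nat_lit 18) (.e (nat_lit 98335) (nat_lit 18) (.e (nat_lit 164330) (nat_lit 230) .nil)))))) (.g (nat_lit 1) (.e (nat_lit 162269) (nat_lit 0) .nil) .nil))) 
(.lf (nat_lit 498419) (.g (nat_lit 3278) (.e (nat_lit 163962) (nat_lit 25) (.e (nat_lit 532535) (nat_lit 9) (.e (nat_lit 336176) (nat_lit 10) (.e (nat_lit 344130) (nat_lit 26) (.e (nat_lit 557087) (nat_lit 11) (.e (nat_lit 24582) (nat_lit 0) (.e (nat_lit 7936) (nat_lit 360) .nil))))))) (.g (nat_lit 1) (.e (nat_lit 164266) (nat_lit 0) .nil) .nil)))) (.nd (nat_lit 9) 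
(.lf (nat_lit 498163) (.g (nat_lit 3929) (.e (nat_lit 163962) (nat_lit 25) (.e (nat_lit 532482) (nat_lit 0) (.e (nat_lit 6203) (nat_lit 332) (.e (nat_lit 2798) (nat_lit 180) (.e (nat_lit 303119) (nat_lit 3) (.e (nat_lit 204821) (nat_lit 17) (.e (nat_lit 6238) (nat_lit 336) (.e (nat_lit 229693) (nat_lit 249) .nil)))))))) (.g (nat_lit 1) (.e (nat_lit 163604) (nat_lit 0) .nil) .nil))) 
(.lf (nat_lit 498675) (.g (nat_lit 757) (.e (nat_lit 163962) (nat_lit 25) (.e (nat_lit 532550) (nat_lit 12) (.e (nat_lit 360468) (nat_lit 3) (.e (nat_lit 516139) (nat_lit 7) .nil)))) (.g (nat_lit 0) (.e (nat_lit 164843) (nat_lit 0) .nil) .nil))))))))) (.nd (nat_lit 4) (.nd (nat_lit 5) (.nd (nat_lit 6) (.nd (nat_lit 7) (.nd (nat_lit 8) (.nd (nat_lit 9) 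
(.lf (nat_lit 497675) (.g (nat_lit 2173) (.e (nat_lit 163941) (nat_lit 19) (.e (nat_lit 483339) (nat_lit 9) (.e (nat_lit 426234) (nat_lit 9) (.e (nat_lit 426435) (nat_lit 18) (.e (nat_lit 98335) (nat_lit 18) (.e (nat_lit 164332) (nat_lit 230) .nil)))))) (.g (nat_lit 1) (.e (nat_lit 161235) (nat_lit 0) .nil) .nil))) 
(.lf (nat_lit 498187) (.g (nat_lit 4436) (.e (nat_lit 163962) (nat_lit 25) (.e (nat_lit 532499) (nat_lit 1) (.e (nat_lit 57927) (nat_lit 282) (.e (nat_lit 163869) (nat_lit 2) (.e (nat_lit 196670) (nat_lit 14) (.e (nat_lit 73746) (nat_lit 3) (.e (nat_lit 516126) (nat_lit 2) (.e (nat_lit 213033) (nat_lit 12) .nil)))))))) (.g (nat_lit 1) (.e (nat_lit 163648) (nat_lit 0) .nil) .nil)))) 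
(.nd (nat_lit 9) 
(.lf (nat_lit 497931) (.g (nat_lit 3822) (.e (nat_lit 163943) (nat_lit 19) (.e (nat_lit 483346) (nat_lit 17) (.e (nat_lit 6712) (nat_lit 360) (.e (nat_lit 163979) (nat_lit 30) (.e (nat_lit 573482) (nat_lit 13) (.e (nat_lit 65563) (nat_lit 1) (.e (nat_lit 57927) (nat_lit 282) .nil))))))) (.g (nat_lit 1) (.e (nat_lit 162546) (nat_lit 0) .nil) .nil))) 
(.lf (nat_lit 498443) (.g (nat_lit 2287) (.e (nat_lit 163962) (nat_lit 25) (.e (nat_lit 532535) (nat_lit 9) (.e (nat_lit 336176) (nat_lit 10) (.e (nat_lit 344133) (nat_lit 26) (.e (nat_lit 557071) (nat_lit 9) (.e (nat_lit 214) (nat_lit 19) (.e (nat_lit 319493) (nat_lit 0) (.e (nat_lit 5761) (nat_lit 315) .nil)))))))) (.g (nat_lit 1) (.e (nat_lit 164329) (nat_lit 0) .nil) .nil))))) 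
(.nd (nat_lit 8) (.nd (nat_lit 9) 
(.lf (nat_lit 497803) (.g (nat_lit 4035) (.e (nat_lit 163941) (nat_lit 19) (.e (nat_lit 483341) (nat_lit 9) (.e (nat_lit 426313) (nat_lit 12) (.e (nat_lit 475179) (nat_lit 24) (.e (nat_lit 516120) (nat_lit 1) (.e (nat_lit 164330) (nat_lit 230) .nil)))))) (.g (nat_lit 1) (.e (nat_lit 161548) (nat_lit 0) .nil) .nil))) 
(.lf (nat_lit 498315) (.g (nat_lit 1983) (.e (nat_lit 163962) (nat_lit 25) (.e (nat_lit 532526) (nat_lit 8) (.e (nat_lit 327698) (nat_lit 8) (.e (nat_lit 303119) (nat_lit 3) (.e (nat_lit 204845) (nat_lit 24) .nil))))) (.g (nat_lit 0) (.e (nat_lit 163923) (nat_lit 0) .nil) .nil)))) (.nd (nat_lit 9) 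
(.lf (nat_lit 498059) (.g (nat_lit 2244) (.e (nat_lit 163945) (nat_lit 20) (.e (nat_lit 491568) (nat_lit 13) (.e (nat_lit 393301) (nat_lit 27) (.e (nat_lit 491558) (nat_lit 10) (.e (nat_lit 344091) (nat_lit 18) .nil))))) (.g (nat_lit 0) (.e (nat_lit 163422) (nat_lit 0) .nil) .nil))) 
(.lf (nat_lit 498571) (.g (nat_lit 3667) (.e (nat_lit 163962) (nat_lit 25) (.e (nat_lit 532547) (nat_lit 11) (.e (nat_lit 352313) (nat_lit 23) (.e (nat_lit 98350) (nat_lit 24) (.e (nat_lit 409616) (nat_lit 10) (.e (nat_lit 5763) (nat_lit 315) .nil)))))) (.g (nat_lit 1) (.e (nat_lit 164589) (nat_lit 0) .nil) .nil)))))) (.nd (nat_lit 7) (.nd (nat_lit 8) (.nd (nat_lit 9) 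
(.lf (nat_lit 497739) (.g (nat_lit 5052) (.e (nat_lit 163941) (nat_lit 19) (.e (nat_lit 483341) (nat_lit 9) (.e (nat_lit 426196) (nat_lit 9) (.e (nat_lit 426436) (nat_lit 18) (.e (nat_lit 98335) (nat_lit 18) (.e (nat_lit 164330) (nat_lit 230) .nil)))))) (.g (nat_lit 1) (.e (nat_lit 161343) (nat_lit 0) .nil) .nil))) 
(.lf (nat_lit 498251) (.g (nat_lit 2075) (.e (nat_lit 163962) (nat_lit 25) (.e (nat_lit 532513) (nat_lit 3) (.e (nat_lit 114714) (nat_lit 22) (.e (nat_lit 90174) (nat_lit 14) (.e (nat_lit 180243) (nat_lit 5) (.e (nat_lit 532501) (nat_lit 1) (.e (nat_lit 57651) (nat_lit 152) (.e (nat_lit 2603) (nat_lit 163) .nil)))))))) (.g (nat_lit 1) (.e (nat_lit 163772) (nat_lit 0) .nil) .nil)))) 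
(.nd (nat_lit 9) 
(.lf (nat_lit 497995) (.g (nat_lit 2576) (.e (nat_lit 163944) (nat_lit 19) (.e (nat_lit 483337) (nat_lit 9) (.e (nat_lit 426190) (nat_lit 9) (.e (nat_lit 426436) (nat_lit 18) (.e (nat_lit 98335) (nat_lit 18) (.e (nat_lit 164325) (nat_lit 230) .nil)))))) (.g (nat_lit 1) (.e (nat_lit 162897) (nat_lit 0) .nil) .nil))) 
(.lf (nat_lit 498507) (.g (nat_lit 1985) (.e (nat_lit 163962) (nat_lit 25) (.e (nat_lit 532544) (nat_lit 10) (.e (nat_lit 344129) (nat_lit 26) (.e (nat_lit 557104) (nat_lit 14) (.e (nat_lit 188160) (nat_lit 3) .nil))))) (.g (nat_lit 0) (.e (nat_lit 164465) (nat_lit 0) .nil) .nil))))) (.nd (nat_lit 8) (.nd (nat_lit 9) 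
(.lf (nat_lit 497867) (.g (nat_lit 3240) (.e (nat_lit 163942) (nat_lit 19) (.e (nat_lit 483341) (nat_lit 9) (.e (nat_lit 426200) (nat_lit 9) (.e (nat_lit 426436) (nat_lit 18) (.e (nat_lit 98335) (nat_lit 18) (.e (nat_lit 164322) (nat_lit 230) .nil)))))) (.g (nat_lit 1) (.e (nat_lit 161932) (nat_lit 0) .nil) .nil))) 
(.lf (nat_lit 498379) (.g (nat_lit 3681) (.e (nat_lit 163962) (nat_lit 25) (.e (nat_lit 532535) (nat_lit 9) (.e (nat_lit 336163) (nat_lit 10) (.e (nat_lit 344117) (nat_lit 21) (.e (nat_lit 516139) (nat_lit 7) (.e (nat_lit 409617) (nat_lit 10) (.e (nat_lit 5762) (nat_lit 315) .nil))))))) (.g (nat_lit 1) (.e (nat_lit 164156) (nat_lit 0) .nil) .nil)))) (.nd (nat_lit 9) 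
(.lf (nat_lit 498123) (.g (nat_lit 1421) (.e (nat_lit 163947) (nat_lit 20) (.e (nat_lit 491560) (nat_lit 10) (.e (nat_lit 344169) (nat_lit 40) (.e (nat_lit 671764) (nat_lit 6) .nil)))) (.g (nat_lit 0) (.e (nat_lit 163521) (nat_lit 0) .nil) .nil))) 
(.lf (nat_lit 498635) (.g (nat_lit 1200) (.e (nat_lit 163962) (nat_lit 25) (.e (nat_lit 532549) (nat_lit 12) (.e (nat_lit 360473) (nat_lit 8) (.e (nat_lit 557073) (nat_lit 9) .nil)))) (.g (nat_lit 0) (.e (nat_lit 164746) (nat_lit 0) .nil) .nil))))))) (.nd (nat_lit 6) (.nd (nat_lit 7) (.nd (nat_lit 8) (.nd (nat_lit 9) 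
(.lf (nat_lit 497707) (.g (nat_lit 623) (.e (nat_lit 163941) (nat_lit 19) (.e (nat_lit 483341) (nat_lit 9) (.e (nat_lit 426031) (nat_lit 0) .nil))) (.g (nat_lit 0) (.e (nat_lit 161272) (nat_lit 0) .nil) .nil))) 
(.lf (nat_lit 498219) (.g (nat_lit 2712) (.e (nat_lit 163962) (nat_lit 25) (.e (nat_lit 532500) (nat_lit 1) (.e (nat_lit 57927) (nat_lit 282) (.e (nat_lit 163874) (nat_lit 3) (.e (nat_lit 204862) (nat_lit 27) (.e (nat_lit 344117) (nat_lit 21) (.e (nat_lit 516106) (nat_lit 0) (.e (nat_lit 3721) (nat_lit 227) (.e (nat_lit 778474) (nat_lit 12) .nil))))))))) (.g (nat_lit 1) (.e (nat_lit 163709) (nat_lit 0) .nil) .nil)))) 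
(.nd (nat_lit 9) 
(.lf (nat_lit 497963) (.g (nat_lit 3040) (.e (nat_lit 163943) (nat_lit 19) (.e (nat_lit 483398) (nat_lit 25) (.e (nat_lit 368676) (nat_lit 21) (.e (nat_lit 516195) (nat_lit 26) (.e (nat_lit 335986) (nat_lit 1) (.e (nat_lit 57927) (nat_lit 282) .nil)))))) (.g (nat_lit 1) (.e (nat_lit 162788) (nat_lit 0) .nil) .nil))) 
(.lf (nat_lit 498475) (.g (nat_lit 3888) (.e (nat_lit 163962) (nat_lit 25) (.e (nat_lit 532543) (nat_lit 10) (.e (nat_lit 344129) (nat_lit 26) (.e (nat_lit 557096) (nat_lit 13) (.e (nat_lit 172133) (nat_lit 15) (.e (nat_lit 1800) (nat_lit 119) (.e (nat_lit 516119) (nat_lit 1) (.e (nat_lit 164345) (nat_lit 240) (.e (nat_lit 2601) (nat_lit 163) .nil))))))))) (.g (nat_lit 1) (.e (nat_lit 164428) (nat_lit 0) .nil) .nil))))) 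
(.nd (nat_lit 8) (.nd (nat_lit 9) 
(.lf (nat_lit 497835) (.g (nat_lit 2091) (.e (nat_lit 163941) (nat_lit 19) (.e (nat_lit 483393) (nat_lit 23) (.e (nat_lit 336021) (nat_lit 3) (.e (nat_lit 98313) (nat_lit 9) (.e (nat_lit 335993) (nat_lit 1) (.e (nat_lit 57931) (nat_lit 282) .nil)))))) (.g (nat_lit 1) (.e (nat_lit 161784) (nat_lit 0) .nil) .nil))) 
(.lf (nat_lit 498347) (.g (nat_lit 430) (.e (nat_lit 163962) (nat_lit 25) (.e (nat_lit 532535) (nat_lit 9) (.e (nat_lit 336073) (nat_lit 9) .nil))) (.g (nat_lit 0) (.e (nat_lit 164038) (nat_lit 0) .nil) .nil)))) (.nd (nat_lit 9) 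
(.lf (nat_lit 498091) (.g (nat_lit 2599) (.e (nat_lit 163946) (nat_lit 20) (.e (nat_lit 491566) (nat_lit 12) (.e (nat_lit 385093) (nat_lit 49) (.e (nat_lit 778326) (nat_lit 6) (.e (nat_lit 81948) (nat_lit 21) (.e (nat_lit 57926) (nat_lit 282) .nil)))))) (.g (nat_lit 1) (.e (nat_lit 163476) (nat_lit 0) .nil) .nil))) 
(.lf (nat_lit 498603) (.g (nat_lit 3094) (.e (nat_lit 163962) (nat_lit 25) (.e (nat_lit 532549) (nat_lit 12) (.e (nat_lit 360466) (nat_lit 3) (.e (nat_lit 516139) (nat_lit 7) (.e (nat_lit 409616) (nat_lit 10) (.e (nat_lit 7936) (nat_lit 315) .nil)))))) (.g (nat_lit 1) (.e (nat_lit 164667) (nat_lit 0) .nil) .nil)))))) (.nd (nat_lit 7) (.nd (nat_lit 8) (.nd (nat_lit 9) 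
(.lf (nat_lit 497771) (.g (nat_lit 1670) (.e (nat_lit 163941) (nat_lit 19) (.e (nat_lit 483341) (nat_lit 9) (.e (nat_lit 426200) (nat_lit 9) (.e (nat_lit 426363) (nat_lit 15) (.e (nat_lit 1798) (nat_lit 119) .nil))))) (.g (nat_lit 0) (.e (nat_lit 161428) (nat_lit 0) .nil) .nil))) 
(.lf (nat_lit 498283) (.g (nat_lit 493) (.e (nat_lit 163962) (nat_lit 25) (.e (nat_lit 532523) (nat_lit 7) (.e (nat_lit 319511) (nat_lit 10) .nil))) (.g (nat_lit 0) (.e (nat_lit 163883) (nat_lit 0) .nil) .nil)))) (.nd (nat_lit 9) 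
(.lf (nat_lit 498027) (.g (nat_lit 1836) (.e (nat_lit 163944) (nat_lit 19) (.e (nat_lit 483393) (nat_lit 23) (.e (nat_lit 336021) (nat_lit 3) (.e (nat_lit 98316) (nat_lit 9) .nil)))) (.g (nat_lit 0) (.e (nat_lit 163293) (nat_lit 0) .nil) .nil))) 
(.lf (nat_lit 498539) (.g (nat_lit 2837) (.e (nat_lit 163962) (nat_lit 25) (.e (nat_lit 532544) (nat_lit 10) (.e (nat_lit 344133) (nat_lit 26) (.e (nat_lit 557098) (nat_lit 13) (.e (nat_lit 172132) (nat_lit 15) .nil))))) (.g (nat_lit 0) (.e (nat_lit 164497) (nat_lit 0) .nil) .nil))))) (.nd (nat_lit 8) (.nd (nat_lit 9) 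
(.lf (nat_lit 497899) (.g (nat_lit 4249) (.e (nat_lit 163943) (nat_lit 19) (.e (nat_lit 483341) (nat_lit 9) (.e (nat_lit 426187) (nat_lit 9) (.e (nat_lit 426436) (nat_lit 18) (.e (nat_lit 98335) (nat_lit 18) (.e (nat_lit 164324) (nat_lit 230) .nil)))))) (.g (nat_lit 1) (.e (nat_lit 162253) (nat_lit 0) .nil) .nil))) 
(.lf (nat_lit 498411) (.g (nat_lit 2103) (.e (nat_lit 163962) (nat_lit 25) (.e (nat_lit 532535) (nat_lit 9) (.e (nat_lit 336176) (nat_lit 10) (.e (nat_lit 344130) (nat_lit 26) (.e (nat_lit 557064) (nat_lit 9) (.e (nat_lit 214) (nat_lit 19) (.e (nat_lit 319491) (nat_lit 0) (.e (nat_lit 5761) (nat_lit 315) .nil)))))))) (.g (nat_lit 1) (.e (nat_lit 164218) (nat_lit 0) .nil) .nil)))) (.nd (nat_lit 9) 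
(.lf (nat_lit 498155) (.g (nat_lit 6299) (.e (nat_lit 163961) (nat_lit 25) (.e (nat_lit 532550) (nat_lit 12) (.e (nat_lit 360475) (nat_lit 8) (.e (nat_lit 557067) (nat_lit 9) .nil)))) (.g (nat_lit 0) (.e (nat_lit 163583) (nat_lit 0) .nil) .nil))) 
(.lf (nat_lit 498667) (.g (nat_lit 1067) (.e (nat_lit 163962) (nat_lit 25) (.e (nat_lit 532550) (nat_lit 12) (.e (nat_lit 360466) (nat_lit 3) (.e (nat_lit 516139) (nat_lit 7) .nil)))) (.g (nat_lit 0) (.e (nat_lit 164828) (nat_lit 0) .nil) .nil)))))))) (.nd (nat_lit 5) (.nd (nat_lit 6) (.nd (nat_lit 7) (.nd (nat_lit 8) (.nd (nat_lit 9) 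
(.lf (nat_lit 497691) (.g (nat_lit 2343) (.e (nat_lit 163941) (nat_lit 19) (.e (nat_lit 483339) (nat_lit 9) (.e (nat_lit 426261) (nat_lit 9) (.e (nat_lit 426435) (nat_lit 18) (.e (nat_lit 98335) (nat_lit 18) (.e (nat_lit 164332) (nat_lit 230) .nil)))))) (.g (nat_lit 1) (.e (nat_lit 161253) (nat_lit 0) .nil) .nil))) 
(.lf (nat_lit 498203) (.g (nat_lit 2465) (.e (nat_lit 163962) (nat_lit 25) (.e (nat_lit 532500) (nat_lit 1) (.e (nat_lit 57926) (nat_lit 282) (.e (nat_lit 163871) (nat_lit 2) (.e (nat_lit 196670) (nat_lit 14) (.e (nat_lit 73746) (nat_lit 3) (.e (nat_lit 516124) (nat_lit 2) (.e (nat_lit 213033) (nat_lit 12) .nil)))))))) (.g (nat_lit 1) (.e (nat_lit 163685) (nat_lit 0) .nil) .nil)))) 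
(.nd (nat_lit 9) 
(.lf (nat_lit 497947) (.g (nat_lit 2601) (.e (nat_lit 163943) (nat_lit 19) (.e (nat_lit 483393) (nat_lit 23) (.e (nat_lit 336021) (nat_lit 3) (.e (nat_lit 98317) (nat_lit 9) (.e (nat_lit 335994) (nat_lit 1) (.e (nat_lit 57931) (nat_lit 282) .nil)))))) (.g (nat_lit 1) (.e (nat_lit 162742) (nat_lit 0) .nil) .nil))) 
(.lf (nat_lit 498459) (.g (nat_lit 2344) (.e (nat_lit 163962) (nat_lit 25) (.e (nat_lit 532535) (nat_lit 9) (.e (nat_lit 336226) (nat_lit 14) (.e (nat_lit 401414) (nat_lit 0) (.e (nat_lit 3124) (nat_lit 193) (.e (nat_lit 500073) (nat_lit 19) (.e (nat_lit 81664) (nat_lit 35) .nil))))))) (.g (nat_lit 1) (.e (nat_lit 164379) (nat_lit 0) .nil) .nil))))) (.nd (nat_lit 8) (.nd (nat_lit 9) 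
(.lf (nat_lit 497819) (.g (nat_lit 1122) (.e (nat_lit 163941) (nat_lit 19) (.e (nat_lit 483344) (nat_lit 17) (.e (nat_lit 6712) (nat_lit 360) (.e (nat_lit 163979) (nat_lit 30) .nil)))) (.g (nat_lit 0) (.e (nat_lit 161682) (nat_lit 0) .nil) .nil))) 
(.lf (nat_lit 498331) (.g (nat_lit 768) (.e (nat_lit 163962) (nat_lit 25) (.e (nat_lit 532535) (nat_lit 9) (.e (nat_lit 336058) (nat_lit 7) (.e (nat_lit 319519) (nat_lit 12) .nil)))) (.g (nat_lit 0) (.e (nat_lit 163998) (nat_lit 0) .nil) .nil)))) (.nd (nat_lit 9) 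
(.lf (nat_lit 498075) (.g (nat_lit 2474) (.e (nat_lit 163945) (nat_lit 20) (.e (nat_lit 491569) (nat_lit 13) (.e (nat_lit 393301) (nat_lit 27) (.e (nat_lit 491560) (nat_lit 10) (.e (nat_lit 344094) (nat_lit 18) .nil))))) (.g (nat_lit 0) (.e (nat_lit 163438) (nat_lit 0) .nil) .nil))) 
(.lf (nat_lit 498587) (.g (nat_lit 2560) (.e (nat_lit 163962) (nat_lit 25) (.e (nat_lit 532547) (nat_lit 11) (.e (nat_lit 352315) (nat_lit 23) (.e (nat_lit 98350) (nat_lit 24) (.e (nat_lit 409617) (nat_lit 10) (.e (nat_lit 5757) (nat_lit 315) .nil)))))) (.g (nat_lit 1) (.e (nat_lit 164613) (nat_lit 0) .nil) .nil)))))) (.nd (nat_lit 7) (.nd (nat_lit 8) (.nd (nat_lit 9) 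
(.lf (nat_lit 497755) (.g (nat_lit 3441) (.e (nat_lit 163941) (nat_lit 19) (.e (nat_lit 483341) (nat_lit 9) (.e (nat_lit 426198) (nat_lit 9) (.e (nat_lit 426436) (nat_lit 18) (.e (nat_lit 98335) (nat_lit 18) (.e (nat_lit 164327) (nat_lit 230) .nil)))))) (.g (nat_lit 1) (.e (nat_lit 161390) (nat_lit 0) .nil) .nil))) 
(.lf (nat_lit 498267) (.g (nat_lit 687) (.e (nat_lit 163962) (nat_lit 25) (.e (nat_lit 532523) (nat_lit 7) (.e (nat_lit 319490) (nat_lit 0) .nil))) (.g (nat_lit 0) (.e (nat_lit 163846) (nat_lit 0) .nil) .nil)))) (.nd (nat_lit 9) 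
(.lf (nat_lit 498011) (.g (nat_lit 3422) (.e (nat_lit 163944) (nat_lit 19) (.e (nat_lit 483341) (nat_lit 9) (.e (nat_lit 426188) (nat_lit 9) (.e (nat_lit 426436) (nat_lit 18) (.e (nat_lit 98335) (nat_lit 18) (.e (nat_lit 164327) (nat_lit 230) .nil)))))) (.g (nat_lit 1) (.e (nat_lit 162988) (nat_lit 0) .nil) .nil))) 
(.lf (nat_lit 498523) (.g (nat_lit 1709) (.e (nat_lit 163962) (nat_lit 25) (.e (nat_lit 532544) (nat_lit 10) (.e (nat_lit 344131) (nat_lit 26) (.e (nat_lit 557103) (nat_lit 14) (.e (nat_lit 188160) (nat_lit 3) .nil))))) (.g (nat_lit 0) (.e (nat_lit 164481) (nat_lit 0) .nil) .nil))))) (.nd (nat_lit 8) (.nd (nat_lit 9) 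
(.lf (nat_lit 497883) (.g (nat_lit 4037) (.e (nat_lit 163943) (nat_lit 19) (.e (nat_lit 483337) (nat_lit 9) (.e (nat_lit 426189) (nat_lit 9) (.e (nat_lit 426436) (nat_lit 18) (.e (nat_lit 98335) (nat_lit 18) (.e (nat_lit 164330) (nat_lit 230) .nil)))))) (.g (nat_lit 1) (.e (nat_lit 162137) (nat_lit 0) .nil) .nil))) 
(.lf (nat_lit 498395) (.g (nat_lit 1476) (.e (nat_lit 163962) (nat_lit 25) (.e (nat_lit 532535) (nat_lit 9) (.e (nat_lit 336176) (nat_lit 10) (.e (nat_lit 344095) (nat_lit 18) .nil)))) (.g (nat_lit 0) (.e (nat_lit 164186) (nat_lit 0) .nil) .nil)))) (.nd (nat_lit 9) 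
(.lf (nat_lit 498139) (.g (nat_lit 2101) (.e (nat_lit 163950) (nat_lit 21) (.e (nat_lit 500079) (nat_lit 20) (.e (nat_lit 81922) (nat_lit 0) (.e (nat_lit 3305) (nat_lit 202) (.e (nat_lit 573487) (nat_lit 14) (.e (nat_lit 81664) (nat_lit 35) .nil)))))) (.g (nat_lit 1) (.e (nat_lit 163539) (nat_lit 0) .nil) .nil))) 
(.lf (nat_lit 498651) (.g (nat_lit 2242) (.e (nat_lit 163962) (nat_lit 25) (.e (nat_lit 532549) (nat_lit 12) (.e (nat_lit 360475) (nat_lit 8) (.e (nat_lit 557073) (nat_lit 9) .nil)))) (.g (nat_lit 0) (.e (nat_lit 164786) (nat_lit 0) .nil) .nil))))))) (.nd (nat_lit 6) (.nd (nat_lit 7) (.nd (nat_lit 8) (.nd (nat_lit 9) 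
(.lf (nat_lit 497723) (.g (nat_lit 3974) (.e (nat_lit 163941) (nat_lit 19) (.e (nat_lit 483341) (nat_lit 9) (.e (nat_lit 426188) (nat_lit 9) (.e (nat_lit 426436) (nat_lit 18) (.e (nat_lit 98335) (nat_lit 18) (.e (nat_lit 164325) (nat_lit 230) .nil)))))) (.g (nat_lit 1) (.e (nat_lit 161301) (nat_lit 0) .nil) .nil))) 
(.lf (nat_lit 498235) (.g (nat_lit 3851) (.e (nat_lit 163962) (nat_lit 25) (.e (nat_lit 532513) (nat_lit 3) (.e (nat_lit 114714) (nat_lit 22) (.e (nat_lit 90172) (nat_lit 14) (.e (nat_lit 180244) (nat_lit 5) (.e (nat_lit 532499) (nat_lit 1) (.e (nat_lit 57657) (nat_lit 152) (.e (nat_lit 7936) (nat_lit 163) .nil)))))))) (.g (nat_lit 1) (.e (nat_lit 163745) (nat_lit 0) .nil) .nil)))) 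
(.nd (nat_lit 9) 
(.lf (nat_lit 497979) (.g (nat_lit 2051) (.e (nat_lit 163943) (nat_lit 19) (.e (nat_lit 483411) (nat_lit 27) (.e (nat_lit 401414) (nat_lit 0) (.e (nat_lit 3297) (nat_lit 202) .nil)))) (.g (nat_lit 0) (.e (nat_lit 162820) (nat_lit 0) .nil) .nil))) 
(.lf (nat_lit 498491) (.g (nat_lit 2020) (.e (nat_lit 163962) (nat_lit 25) (.e (nat_lit 532543) (nat_lit 10) (.e (nat_lit 344133) (nat_lit 26) (.e (nat_lit 557098) (nat_lit 13) (.e (nat_lit 179968) (nat_lit 15) (.e (nat_lit 1800) (nat_lit 119) (.e (nat_lit 516119) (nat_lit 1) (.e (nat_lit 164347) (nat_lit 240) (.e (nat_lit 2601) (nat_lit 163) .nil))))))))) (.g (nat_lit 1) (.e (nat_lit 164444) (nat_lit 0) .nil) .nil))))) 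
(.nd (nat_lit 8) (.nd (nat_lit 9) 
(.lf (nat_lit 497851) (.g (nat_lit 427) (.e (nat_lit 163942) (nat_lit 19) (.e (nat_lit 483339) (nat_lit 9) (.e (nat_lit 426262) (nat_lit 9) (.e (nat_lit 433920) (nat_lit 18) .nil)))) (.g (nat_lit 0) (.e (nat_lit 161871) (nat_lit 0) .nil) .nil))) 
(.lf (nat_lit 498363) (.g (nat_lit 3783) (.e (nat_lit 163962) (nat_lit 25) (.e (nat_lit 532535) (nat_lit 9) (.e (nat_lit 336099) (nat_lit 9) (.e (nat_lit 336028) (nat_lit 3) (.e (nat_lit 98350) (nat_lit 24) (.e (nat_lit 409617) (nat_lit 10) (.e (nat_lit 7936) (nat_lit 315) .nil))))))) (.g (nat_lit 1) (.e (nat_lit 164104) (nat_lit 0) .nil) .nil)))) (.nd (nat_lit 9) 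
(.lf (nat_lit 498107) (.g (nat_lit 2489) (.e (nat_lit 163946) (nat_lit 20) (.e (nat_lit 491566) (nat_lit 12) (.e (nat_lit 385105) (nat_lit 50) (.e (nat_lit 786483) (nat_lit 30) (.e (nat_lit 360457) (nat_lit 0) .nil))))) (.g (nat_lit 0) (.e (nat_lit 163498) (nat_lit 0) .nil) .nil))) 
(.lf (nat_lit 498619) (.g (nat_lit 2886) (.e (nat_lit 163962) (nat_lit 25) (.e (nat_lit 532549) (nat_lit 12) (.e (nat_lit 360467) (nat_lit 3) (.e (nat_lit 516139) (nat_lit 7) (.e (nat_lit 409623) (nat_lit 10) (.e (nat_lit 5761) (nat_lit 315) .nil)))))) (.g (nat_lit 1) (.e (nat_lit 164713) (nat_lit 0) .nil) .nil)))))) (.nd (nat_lit 7) (.nd (nat_lit 8) (.nd (nat_lit 9) 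
(.lf (nat_lit 497787) (.g (nat_lit 3785) (.e (nat_lit 163941) (nat_lit 19) (.e (nat_lit 483341) (nat_lit 9) (.e (nat_lit 426305) (nat_lit 12) (.e (nat_lit 475179) (nat_lit 24) (.e (nat_lit 516119) (nat_lit 1) (.e (nat_lit 164326) (nat_lit 230) .nil)))))) (.g (nat_lit 1) (.e (nat_lit 161467) (nat_lit 0) .nil) .nil))) 
(.lf (nat_lit 498299) (.g (nat_lit 1462) (.e (nat_lit 163962) (nat_lit 25) (.e (nat_lit 532523) (nat_lit 7) (.e (nat_lit 319533) (nat_lit 16) (.e (nat_lit 286732) (nat_lit 2) .nil)))) (.g (nat_lit 0) (.e (nat_lit 163902) (nat_lit 0) .nil) .nil)))) (.nd (nat_lit 9) 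
(.lf (nat_lit 498043) (.g (nat_lit 4349) (.e (nat_lit 163945) (nat_lit 20) (.e (nat_lit 491566) (nat_lit 12) (.e (nat_lit 385104) (nat_lit 50) (.e (nat_lit 786480) (nat_lit 29) (.e (nat_lit 352309) (nat_lit 21) (.e (nat_lit 57931) (nat_lit 282) .nil)))))) (.g (nat_lit 1) (.e (nat_lit 163406) (nat_lit 0) .nil) .nil))) 
(.lf (nat_lit 498555) (.g (nat_lit 2702) (.e (nat_lit 163962) (nat_lit 25) (.e (nat_lit 532544) (nat_lit 10) (.e (nat_lit 344133) (nat_lit 26) (.e (nat_lit 557103) (nat_lit 14) (.e (nat_lit 180250) (nat_lit 10) (.e (nat_lit 573473) (nat_lit 12) (.e (nat_lit 57508) (nat_lit 39) (.e (nat_lit 647180) (nat_lit 3) .nil)))))))) (.g (nat_lit 1) (.e (nat_lit 164513) (nat_lit 0) .nil) .nil))))) 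
(.nd (nat_lit 8) (.nd (nat_lit 9) 
(.lf (nat_lit 497915) (.g (nat_lit 3650) (.e (nat_lit 163943) (nat_lit 19) (.e (nat_lit 483341) (nat_lit 9) (.e (nat_lit 426198) (nat_lit 9) (.e (nat_lit 426436) (nat_lit 18) (.e (nat_lit 98335) (nat_lit 18) (.e (nat_lit 164324) (nat_lit 230) .nil)))))) (.g (nat_lit 1) (.e (nat_lit 162297) (nat_lit 0) .nil) .nil))) 
(.lf (nat_lit 498427) (.g (nat_lit 3614) (.e (nat_lit 163962) (nat_lit 25) (.e (nat_lit 532535) (nat_lit 9) (.e (nat_lit 336176) (nat_lit 10) (.e (nat_lit 344130) (nat_lit 26) (.e (nat_lit 557087) (nat_lit 11) (.e (nat_lit 24594) (nat_lit 0) (.e (nat_lit 7936) (nat_lit 360) .nil))))))) (.g (nat_lit 1) (.e (nat_lit 164274) (nat_lit 0) .nil) .nil)))) (.nd (nat_lit 9) 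
(.lf (nat_lit 498171) (.g (nat_lit 2008) (.e (nat_lit 163962) (nat_lit 25) (.e (nat_lit 532482) (nat_lit 0) (.e (nat_lit 6722) (nat_lit 362) (.e (nat_lit 180245) (nat_lit 5) (.e (nat_lit 532523) (nat_lit 7) (.e (nat_lit 319504) (nat_lit 10) (.e (nat_lit 7936) (nat_lit 315) .nil))))))) (.g (nat_lit 1) (.e (nat_lit 163614) (nat_lit 0) .nil) .nil))) 
(.lf (nat_lit 498683) (.g (nat_lit 1864) (.e (nat_lit 163962) (nat_lit 25) (.e (nat_lit 532550) (nat_lit 12) (.e (nat_lit 360474) (nat_lit 8) (.e (nat_lit 557070) (nat_lit 9) (.e (nat_lit 7936) (nat_lit 19) .nil))))) (.g (nat_lit 0) (.e (nat_lit 164853) (nat_lit 0) .nil) .nil)))))))))) 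
(.nd (nat_lit 3) (.nd (nat_lit 4) (.nd (nat_lit 5) (.nd (nat_lit 6) (.nd (nat_lit 7) 
(.nd (nat_lit 8) (.nd (nat_lit 9) 
(.lf (nat_lit 497671) (.g (nat_lit 2190) (.e (nat_lit 163941) (nat_lit 19) (.e (nat_lit 483339) (nat_lit 9) (.e (nat_lit 426234) (nat_lit 9) (.e (nat_lit 426435) (nat_lit 18) (.e (nat_lit 98335) (nat_lit 18) (.e (nat_lit 164324) (nat_lit 230) .nil)))))) (.g (nat_lit 1) (.e (nat_lit 161231) (nat_lit 0) .nil) .nil))) 
(.lf (nat_lit 498183) (.g (nat_lit 2500) (.e (nat_lit 163962) (nat_lit 25) (.e (nat_lit 532499) (nat_lit 1) (.e (nat_lit 57926) (nat_lit 282) (.e (nat_lit 163875) (nat_lit 3) (.e (nat_lit 204863) (nat_lit 27) .nil))))) (.g (nat_lit 0) (.e (nat_lit 163629) (nat_lit 0) .nil) .nil)))) (.nd (nat_lit 9) 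
(.lf (nat_lit 497927) (.g (nat_lit 3889) (.e (nat_lit 163943) (nat_lit 19) (.e (nat_lit 483346) (nat_lit 17) (.e (nat_lit 6712) (nat_lit 360) (.e (nat_lit 163978) (nat_lit 30) (.e (nat_lit 573484) (nat_lit 13) (.e (nat_lit 65563) (nat_lit 1) (.e (nat_lit 57931) (nat_lit 282) .nil))))))) (.g (nat_lit 1) (.e (nat_lit 162532) (nat_lit 0) .nil) .nil))) 
(.lf (nat_lit 498439) (.g (nat_lit 1861) (.e (nat_lit 163962) (nat_lit 25) (.e (nat_lit 532535) (nat_lit 9) (.e (nat_lit 336176) (nat_lit 10) (.e (nat_lit 344133) (nat_lit 26) (.e (nat_lit 557068) (nat_lit 9) .nil))))) (.g (nat_lit 0) (.e (nat_lit 164305) (nat_lit 0) .nil) .nil))))) (.nd (nat_lit 8) (.nd (nat_lit 9) 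
(.lf (nat_lit 497799) (.g (nat_lit 4006) (.e (nat_lit 163941) (nat_lit 19) (.e (nat_lit 483341) (nat_lit 9) (.e (nat_lit 426308) (nat_lit 12) (.e (nat_lit 475179) (nat_lit 24) (.e (nat_lit 516120) (nat_lit 1) (.e (nat_lit 164330) (nat_lit 230) .nil)))))) (.g (nat_lit 1) (.e (nat_lit 161541) (nat_lit 0) .nil) .nil))) 
(.lf (nat_lit 498311) (.g (nat_lit 429) (.e (nat_lit 163962) (nat_lit 25) (.e (nat_lit 532526) (nat_lit 8) (.e (nat_lit 327698) (nat_lit 8) .nil))) (.g (nat_lit 0) (.e (nat_lit 163918) (nat_lit 0) .nil) .nil)))) (.nd (nat_lit 9) 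
(.lf (nat_lit 498055) (.g (nat_lit 2308) (.e (nat_lit 163945) (nat_lit 20) (.e (nat_lit 491566) (nat_lit 12) (.e (nat_lit 385105) (nat_lit 50) (.e (nat_lit 786483) (nat_lit 30) (.e (nat_lit 360448) (nat_lit 0) .nil))))) (.g (nat_lit 0) (.e (nat_lit 163418) (nat_lit 0) .nil) .nil))) 
(.lf (nat_lit 498567) (.g (nat_lit 406) (.e (nat_lit 163962) (nat_lit 25) (.e (nat_lit 532547) (nat_lit 11) (.e (nat_lit 352303) (nat_lit 20) .nil))) (.g (nat_lit 0) (.e (nat_lit 164547) (nat_lit 0) .nil) .nil)))))) (.nd (nat_lit 7) (.nd (nat_lit 8) (.nd (nat_lit 9) 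
(.lf (nat_lit 497735) (.g (nat_lit 3848) (.e (nat_lit 163941) (nat_lit 19) (.e (nat_lit 483341) (nat_lit 9) (.e (nat_lit 426190) (nat_lit 9) (.e (nat_lit 426436) (nat_lit 18) (.e (nat_lit 98335) (nat_lit 18) (.e (nat_lit 164332) (nat_lit 230) .nil)))))) (.g (nat_lit 1) (.e (nat_lit 161329) (nat_lit 0) .nil) .nil))) 
(.lf (nat_lit 498247) (.g (nat_lit 4027) (.e (nat_lit 163962) (nat_lit 25) (.e (nat_lit 532513) (nat_lit 3) (.e (nat_lit 114714) (nat_lit 22) (.e (nat_lit 90174) (nat_lit 14) (.e (nat_lit 180243) (nat_lit 5) (.e (nat_lit 532499) (nat_lit 1) (.e (nat_lit 57654) (nat_lit 152) (.e (nat_lit 2615) (nat_lit 163) .nil)))))))) (.g (nat_lit 1) (.e (nat_lit 163767) (nat_lit 0) .nil) .nil)))) 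
(.nd (nat_lit 9) 
(.lf (nat_lit 497991) (.g (nat_lit 1174) (.e (nat_lit 163943) (nat_lit 19) (.e (nat_lit 483413) (nat_lit 27) (.e (nat_lit 401418) (nat_lit 0) .nil))) (.g (nat_lit 0) (.e (nat_lit 162864) (nat_lit 0) .nil) .nil))) 
(.lf (nat_lit 498503) (.g (nat_lit 2445) (.e (nat_lit 163962) (nat_lit 25) (.e (nat_lit 532544) (nat_lit 10) (.e (nat_lit 344129) (nat_lit 26) (.e (nat_lit 557103) (nat_lit 14) (.e (nat_lit 188160) (nat_lit 1) (.e (nat_lit 499910) (nat_lit 8) (.e (nat_lit 164021) (nat_lit 46) (.e (nat_lit 704588) (nat_lit 3) .nil)))))))) (.g (nat_lit 1) (.e (nat_lit 164461) (nat_lit 0) .nil) .nil))))) 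
(.nd (nat_lit 8) (.nd (nat_lit 9) 
(.lf (nat_lit 497863) (.g (nat_lit 334) (.e (nat_lit 163942) (nat_lit 19) (.e (nat_lit 483341) (nat_lit 9) (.e (nat_lit 426199) (nat_lit 9) .nil))) (.g (nat_lit 0) (.e (nat_lit 161911) (nat_lit 0) .nil) .nil))) 
(.lf (nat_lit 498375) (.g (nat_lit 2964) (.e (nat_lit 163962) (nat_lit 25) (.e (nat_lit 532535) (nat_lit 9) (.e (nat_lit 336111) (nat_lit 9) (.e (nat_lit 336028) (nat_lit 3) (.e (nat_lit 98350) (nat_lit 24) (.e (nat_lit 409617) (nat_lit 10) (.e (nat_lit 5757) (nat_lit 315) .nil))))))) (.g (nat_lit 1) (.e (nat_lit 164138) (nat_lit 0) .nil) .nil)))) (.nd (nat_lit 9) 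
(.lf (nat_lit 498119) (.g (nat_lit 783) (.e (nat_lit 163947) (nat_lit 20) (.e (nat_lit 491558) (nat_lit 10) (.e (nat_lit 344168) (nat_lit 40) .nil))) (.g (nat_lit 0) (.e (nat_lit 163517) (nat_lit 0) .nil) .nil))) 
(.lf (nat_lit 498631) (.g (nat_lit 1555) (.e (nat_lit 163962) (nat_lit 25) (.e (nat_lit 532549) (nat_lit 12) (.e (nat_lit 360473) (nat_lit 8) (.e (nat_lit 557068) (nat_lit 9) (.e (nat_lit 7936) (nat_lit 19) .nil))))) (.g (nat_lit 0) (.e (nat_lit 164736) (nat_lit 0) .nil) .nil))))))) (.nd (nat_lit 6) (.nd (nat_lit 7) (.nd (nat_lit 8) (.nd (nat_lit 9) 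
(.lf (nat_lit 497703) (.g (nat_lit 2451) (.e (nat_lit 163941) (nat_lit 19) (.e (nat_lit 483340) (nat_lit 9) (.e (nat_lit 426200) (nat_lit 9) (.e (nat_lit 426436) (nat_lit 18) (.e (nat_lit 98335) (nat_lit 18) (.e (nat_lit 164330) (nat_lit 230) .nil)))))) (.g (nat_lit 1) (.e (nat_lit 161268) (nat_lit 0) .nil) .nil))) 
(.lf (nat_lit 498215) (.g (nat_lit 3635) (.e (nat_lit 163962) (nat_lit 25) (.e (nat_lit 532500) (nat_lit 1) (.e (nat_lit 57927) (nat_lit 282) (.e (nat_lit 163869) (nat_lit 2) (.e (nat_lit 196670) (nat_lit 14) (.e (nat_lit 73746) (nat_lit 3) (.e (nat_lit 516127) (nat_lit 2) (.e (nat_lit 213033) (nat_lit 12) .nil)))))))) (.g (nat_lit 1) (.e (nat_lit 163703) (nat_lit 0) .nil) .nil)))) 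
(.nd (nat_lit 9) 
(.lf (nat_lit 497959) (.g (nat_lit 3508) (.e (nat_lit 163943) (nat_lit 19) (.e (nat_lit 483395) (nat_lit 24) (.e (nat_lit 344117) (nat_lit 21) (.e (nat_lit 516195) (nat_lit 26) (.e (nat_lit 335986) (nat_lit 1) (.e (nat_lit 57927) (nat_lit 282) .nil)))))) (.g (nat_lit 1) (.e (nat_lit 162762) (nat_lit 0) .nil) .nil))) 
(.lf (nat_lit 498471) (.g (nat_lit 1679) (.e (nat_lit 163962) (nat_lit 25) (.e (nat_lit 540416) (nat_lit 9) (.e (nat_lit 336204) (nat_lit 12) (.e (nat_lit 385074) (nat_lit 31) (.e (nat_lit 573487) (nat_lit 14) (.e (nat_lit 81664) (nat_lit 35) .nil)))))) (.g (nat_lit 1) (.e (nat_lit 164423) (nat_lit 0) .nil) .nil))))) (.nd (nat_lit 8) (.nd (nat_lit 9) 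
(.lf (nat_lit 497831) (.g (nat_lit 3129) (.e (nat_lit 163941) (nat_lit 19) (.e (nat_lit 483393) (nat_lit 23) (.e (nat_lit 336021) (nat_lit 3) (.e (nat_lit 98313) (nat_lit 9) (.e (nat_lit 335986) (nat_lit 1) (.e (nat_lit 57931) (nat_lit 282) .nil)))))) (.g (nat_lit 1) (.e (nat_lit 161780) (nat_lit 0) .nil) .nil))) 
(.lf (nat_lit 498343) (.g (nat_lit 2841) (.e (nat_lit 163962) (nat_lit 25) (.e (nat_lit 532535) (nat_lit 9) (.e (nat_lit 336061) (nat_lit 7) (.e (nat_lit 319519) (nat_lit 12) (.e (nat_lit 32779) (nat_lit 5) (.e (nat_lit 1512) (nat_lit 108) (.e (nat_lit 335874) (nat_lit 0) (.e (nat_lit 6713) (nat_lit 360) .nil)))))))) (.g (nat_lit 1) (.e (nat_lit 164032) (nat_lit 0) .nil) .nil)))) (.nd (nat_lit 9) 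
(.lf (nat_lit 498087) (.g (nat_lit 2613) (.e (nat_lit 163945) (nat_lit 20) (.e (nat_lit 491571) (nat_lit 13) (.e (nat_lit 393299) (nat_lit 27) (.e (nat_lit 491560) (nat_lit 10) (.e (nat_lit 344091) (nat_lit 18) (.e (nat_lit 6942) (nat_lit 375) .nil)))))) (.g (nat_lit 1) (.e (nat_lit 163472) (nat_lit 0) .nil) .nil))) 
(.lf (nat_lit 498599) (.g (nat_lit 3161) (.e (nat_lit 163962) (nat_lit 25) (.e (nat_lit 532549) (nat_lit 12) (.e (nat_lit 360466) (nat_lit 3) (.e (nat_lit 516139) (nat_lit 7) (.e (nat_lit 409612) (nat_lit 10) .nil))))) (.g (nat_lit 0) (.e (nat_lit 164663) (nat_lit 0) .nil) .nil)))))) (.nd (nat_lit 7) (.nd (nat_lit 8) (.nd (nat_lit 9) 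
(.lf (nat_lit 497767) (.g (nat_lit 301) (.e (nat_lit 163941) (nat_lit 19) (.e (nat_lit 483341) (nat_lit 9) (.e (nat_lit 426200) (nat_lit 9) .nil))) (.g (nat_lit 0) (.e (nat_lit 161422) (nat_lit 0) .nil) .nil))) 
(.lf (nat_lit 498279) (.g (nat_lit 3212) (.e (nat_lit 163962) (nat_lit 25) (.e (nat_lit 532523) (nat_lit 7) (.e (nat_lit 319491) (nat_lit 0) (.e (nat_lit 5664) (nat_lit 312) (.e (nat_lit 2661) (nat_lit 167) (.e (nat_lit 196668) (nat_lit 14) (.e (nat_lit 81664) (nat_lit 35) .nil))))))) (.g (nat_lit 1) (.e (nat_lit 163870) (nat_lit 0) .nil) .nil)))) (.nd (nat_lit 9) 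
(.lf (nat_lit 498023) (.g (nat_lit 725) (.e (nat_lit 163944) (nat_lit 19) (.e (nat_lit 483346) (nat_lit 17) (.e (nat_lit 2285) (nat_lit 151) (.e (nat_lit 778315) (nat_lit 2) .nil)))) (.g (nat_lit 0) (.e (nat_lit 163179) (nat_lit 0) .nil) .nil))) 
(.lf (nat_lit 498535) (.g (nat_lit 2424) (.e (nat_lit 163962) (nat_lit 25) (.e (nat_lit 532544) (nat_lit 10) (.e (nat_lit 344133) (nat_lit 26) (.e (nat_lit 557097) (nat_lit 13) (.e (nat_lit 172133) (nat_lit 15) .nil))))) (.g (nat_lit 0) (.e (nat_lit 164493) (nat_lit 0) .nil) .nil))))) (.nd (nat_lit 8) (.nd (nat_lit 9) 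
(.lf (nat_lit 497895) (.g (nat_lit 2197) (.e (nat_lit 163943) (nat_lit 19) (.e (nat_lit 483339) (nat_lit 9) (.e (nat_lit 426262) (nat_lit 9) (.e (nat_lit 426435) (nat_lit 18) (.e (nat_lit 98335) (nat_lit 18) (.e (nat_lit 164332) (nat_lit 230) .nil)))))) (.g (nat_lit 1) (.e (nat_lit 162221) (nat_lit 0) .nil) .nil))) 
(.lf (nat_lit 498407) (.g (nat_lit 1575) (.e (nat_lit 163962) (nat_lit 25) (.e (nat_lit 532535) (nat_lit 9) (.e (nat_lit 336176) (nat_lit 10) (.e (nat_lit 344127) (nat_lit 26) (.e (nat_lit 557066) (nat_lit 9) .nil))))) (.g (nat_lit 0) (.e (nat_lit 164214) (nat_lit 0) .nil) .nil)))) (.nd (nat_lit 9) 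
(.lf (nat_lit 498151) (.g (nat_lit 3497) (.e (nat_lit 163961) (nat_lit 25) (.e (nat_lit 532550) (nat_lit 12) (.e (nat_lit 360474) (nat_lit 8) (.e (nat_lit 557072) (nat_lit 9) .nil)))) (.g (nat_lit 0) (.e (nat_lit 163579) (nat_lit 0) .nil) .nil))) 
(.lf (nat_lit 498663) (.g (nat_lit 486) (.e (nat_lit 163962) (nat_lit 25) (.e (nat_lit 532550) (nat_lit 12) (.e (nat_lit 360465) (nat_lit 3) .nil))) (.g (nat_lit 0) (.e (nat_lit 164822) (nat_lit 0) .nil) .nil)))))))) (.nd (nat_lit 5) (.nd (nat_lit 6) (.nd (nat_lit 7) (.nd (nat_lit 8) (.nd (nat_lit 9) 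
(.lf (nat_lit 497687) (.g (nat_lit 2323) (.e (nat_lit 163941) (nat_lit 19) (.e (nat_lit 483339) (nat_lit 9) (.e (nat_lit 426261) (nat_lit 9) (.e (nat_lit 426435) (nat_lit 18) (.e (nat_lit 98335) (nat_lit 18) (.e (nat_lit 164325) (nat_lit 230) .nil)))))) (.g (nat_lit 1) (.e (nat_lit 161249) (nat_lit 0) .nil) .nil))) 
(.lf (nat_lit 498199) (.g (nat_lit 2409) (.e (nat_lit 163962) (nat_lit 25) (.e (nat_lit 532500) (nat_lit 1) (.e (nat_lit 57926) (nat_lit 282) (.e (nat_lit 163869) (nat_lit 2) (.e (nat_lit 196670) (nat_lit 14) (.e (nat_lit 73746) (nat_lit 3) (.e (nat_lit 516122) (nat_lit 2) (.e (nat_lit 213033) (nat_lit 12) .nil)))))))) (.g (nat_lit 1) (.e (nat_lit 163680) (nat_lit 0) .nil) .nil)))) 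
(.nd (nat_lit 9) 
(.lf (nat_lit 497943) (.g (nat_lit 1790) (.e (nat_lit 163943) (nat_lit 19) (.e (nat_lit 483393) (nat_lit 23) (.e (nat_lit 336021) (nat_lit 3) (.e (nat_lit 98316) (nat_lit 9) .nil)))) (.g (nat_lit 0) (.e (nat_lit 162738) (nat_lit 0) .nil) .nil))) 
(.lf (nat_lit 498455) (.g (nat_lit 3593) (.e (nat_lit 163962) (nat_lit 25) (.e (nat_lit 532535) (nat_lit 9) (.e (nat_lit 336178) (nat_lit 10) (.e (nat_lit 344117) (nat_lit 21) (.e (nat_lit 516139) (nat_lit 7) (.e (nat_lit 409617) (nat_lit 10) (.e (nat_lit 7936) (nat_lit 315) .nil))))))) (.g (nat_lit 1) (.e (nat_lit 164345) (nat_lit 0) .nil) .nil))))) (.nd (nat_lit 8) (.nd (nat_lit 9) 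
(.lf (nat_lit 497815) (.g (nat_lit 3683) (.e (nat_lit 163941) (nat_lit 19) (.e (nat_lit 483341) (nat_lit 9) (.e (nat_lit 426316) (nat_lit 12) (.e (nat_lit 475179) (nat_lit 24) (.e (nat_lit 516120) (nat_lit 1) (.e (nat_lit 164332) (nat_lit 230) .nil)))))) (.g (nat_lit 1) (.e (nat_lit 161660) (nat_lit 0) .nil) .nil))) 
(.lf (nat_lit 498327) (.g (nat_lit 847) (.e (nat_lit 163962) (nat_lit 25) (.e (nat_lit 532535) (nat_lit 9) (.e (nat_lit 335905) (nat_lit 0) .nil))) (.g (nat_lit 0) (.e (nat_lit 163974) (nat_lit 0) .nil) .nil)))) (.nd (nat_lit 9) 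
(.lf (nat_lit 498071) (.g (nat_lit 3463) (.e (nat_lit 163945) (nat_lit 20) (.e (nat_lit 491569) (nat_lit 13) (.e (nat_lit 393301) (nat_lit 27) (.e (nat_lit 491559) (nat_lit 10) (.e (nat_lit 344091) (nat_lit 18) (.e (nat_lit 6942) (nat_lit 375) .nil)))))) (.g (nat_lit 1) (.e (nat_lit 163434) (nat_lit 0) .nil) .nil))) 
(.lf (nat_lit 498583) (.g (nat_lit 2217) (.e (nat_lit 163962) (nat_lit 25) (.e (nat_lit 532547) (nat_lit 11) (.e (nat_lit 352315) (nat_lit 23) (.e (nat_lit 98349) (nat_lit 24) (.e (nat_lit 409617) (nat_lit 10) (.e (nat_lit 7936) (nat_lit 315) .nil)))))) (.g (nat_lit 1) (.e (nat_lit 164609) (nat_lit 0) .nil) .nil)))))) (.nd (nat_lit 7) (.nd (nat_lit 8) (.nd (nat_lit 9) 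
(.lf (nat_lit 497751) (.g (nat_lit 1684) (.e (nat_lit 163941) (nat_lit 19) (.e (nat_lit 483341) (nat_lit 9) (.e (nat_lit 426198) (nat_lit 9) (.e (nat_lit 426378) (nat_lit 15) (.e (nat_lit 1800) (nat_lit 119) .nil))))) (.g (nat_lit 0) (.e (nat_lit 161372) (nat_lit 0) .nil) .nil))) 
(.lf (nat_lit 498263) (.g (nat_lit 2922) (.e (nat_lit 163962) (nat_lit 25) (.e (nat_lit 532514) (nat_lit 3) (.e (nat_lit 114718) (nat_lit 23) (.e (nat_lit 98356) (nat_lit 26) (.e (nat_lit 426438) (nat_lit 18) (.e (nat_lit 98335) (nat_lit 18) (.e (nat_lit 164305) (nat_lit 226) (.e (nat_lit 2604) (nat_lit 163) .nil)))))))) (.g (nat_lit 1) (.e (nat_lit 163822) (nat_lit 0) .nil) .nil)))) 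
(.nd (nat_lit 9) 
(.lf (nat_lit 498007) (.g (nat_lit 3794) (.e (nat_lit 163944) (nat_lit 19) (.e (nat_lit 483341) (nat_lit 9) (.e (nat_lit 426187) (nat_lit 9) (.e (nat_lit 426436) (nat_lit 18) (.e (nat_lit 98335) (nat_lit 18) (.e (nat_lit 164325) (nat_lit 230) .nil)))))) (.g (nat_lit 1) (.e (nat_lit 162982) (nat_lit 0) .nil) .nil))) 
(.lf (nat_lit 498519) (.g (nat_lit 2938) (.e (nat_lit 163962) (nat_lit 25) (.e (nat_lit 532544) (nat_lit 10) (.e (nat_lit 344131) (nat_lit 26) (.e (nat_lit 557098) (nat_lit 13) (.e (nat_lit 172133) (nat_lit 15) (.e (nat_lit 1800) (nat_lit 119) (.e (nat_lit 516119) (nat_lit 1) (.e (nat_lit 164345) (nat_lit 240) (.e (nat_lit 2600) (nat_lit 163) .nil))))))))) (.g (nat_lit 1) (.e (nat_lit 164477) (nat_lit 0) .nil) .nil))))) 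
(.nd (nat_lit 8) (.nd (nat_lit 9) 
(.lf (nat_lit 497879) (.g (nat_lit 4246) (.e (nat_lit 163943) (nat_lit 19) (.e (nat_lit 483337) (nat_lit 9) (.e (nat_lit 426187) (nat_lit 9) (.e (nat_lit 426436) (nat_lit 18) (.e (nat_lit 98335) (nat_lit 18) (.e (nat_lit 164330) (nat_lit 230) .nil)))))) (.g (nat_lit 1) (.e (nat_lit 162125) (nat_lit 0) .nil) .nil))) 
(.lf (nat_lit 498391) (.g (nat_lit 3487) (.e (nat_lit 163962) (nat_lit 25) (.e (nat_lit 532535) (nat_lit 9) (.e (nat_lit 336173) (nat_lit 10) (.e (nat_lit 344126) (nat_lit 25) (.e (nat_lit 556800) (nat_lit 5) (.e (nat_lit 1515) (nat_lit 108) (.e (nat_lit 335874) (nat_lit 0) (.e (nat_lit 6713) (nat_lit 360) .nil)))))))) (.g (nat_lit 1) (.e (nat_lit 164182) (nat_lit 0) .nil) .nil)))) 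
(.nd (nat_lit 9) 
(.lf (nat_lit 498135) (.g (nat_lit 2407) (.e (nat_lit 163950) (nat_lit 21) (.e (nat_lit 500073) (nat_lit 19) (.e (nat_lit 73781) (nat_lit 32) (.e (nat_lit 2664) (nat_lit 167) (.e (nat_lit 196670) (nat_lit 14) (.e (nat_lit 81664) (nat_lit 35) .nil)))))) (.g (nat_lit 1) (.e (nat_lit 163535) (nat_lit 0) .nil) .nil))) 
(.lf (nat_lit 498647) (.g (nat_lit 1884) (.e (nat_lit 163962) (nat_lit 25) (.e (nat_lit 532549) (nat_lit 12) (.e (nat_lit 360475) (nat_lit 8) (.e (nat_lit 557068) (nat_lit 9) .nil)))) (.g (nat_lit 0) (.e (nat_lit 164769) (nat_lit 0) .nil) .nil))))))) (.nd (nat_lit 6) (.nd (nat_lit 7) (.nd (nat_lit 8) (.nd (nat_lit 9) 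
(.lf (nat_lit 497719) (.g (nat_lit 5080) (.e (nat_lit 163941) (nat_lit 19) (.e (nat_lit 483341) (nat_lit 9) (.e (nat_lit 426187) (nat_lit 9) (.e (nat_lit 426436) (nat_lit 18) (.e (nat_lit 98335) (nat_lit 18) (.e (nat_lit 164327) (nat_lit 230) .nil)))))) (.g (nat_lit 1) (.e (nat_lit 161288) (nat_lit 0) .nil) .nil))) 
(.lf (nat_lit 498231) (.g (nat_lit 2497) (.e (nat_lit 163962) (nat_lit 25) (.e (nat_lit 532513) (nat_lit 3) (.e (nat_lit 114714) (nat_lit 22) (.e (nat_lit 90172) (nat_lit 14) (.e (nat_lit 180243) (nat_lit 5) (.e (nat_lit 532501) (nat_lit 1) (.e (nat_lit 57674) (nat_lit 152) (.e (nat_lit 7936) (nat_lit 163) .nil)))))))) (.g (nat_lit 1) (.e (nat_lit 163736) (nat_lit 0) .nil) .nil)))) 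
(.nd (nat_lit 9) 
(.lf (nat_lit 497975) (.g (nat_lit 3145) (.e (nat_lit 163943) (nat_lit 19) (.e (nat_lit 483399) (nat_lit 25) (.e (nat_lit 368676) (nat_lit 21) (.e (nat_lit 516195) (nat_lit 26) (.e (nat_lit 335995) (nat_lit 1) (.e (nat_lit 57931) (nat_lit 282) .nil)))))) (.g (nat_lit 1) (.e (nat_lit 162802) (nat_lit 0) .nil) .nil))) 
(.lf (nat_lit 498487) (.g (nat_lit 1315) (.e (nat_lit 163962) (nat_lit 25) (.e (nat_lit 532543) (nat_lit 10) (.e (nat_lit 344130) (nat_lit 26) (.e (nat_lit 557104) (nat_lit 14) (.e (nat_lit 188160) (nat_lit 1) .nil))))) (.g (nat_lit 0) (.e (nat_lit 164440) (nat_lit 0) .nil) .nil))))) (.nd (nat_lit 8) (.nd (nat_lit 9) 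
(.lf (nat_lit 497847) (.g (nat_lit 825) (.e (nat_lit 163941) (nat_lit 19) (.e (nat_lit 483412) (nat_lit 27) (.e (nat_lit 401414) (nat_lit 0) .nil))) (.g (nat_lit 0) (.e (nat_lit 161831) (nat_lit 0) .nil) .nil))) 
(.lf (nat_lit 498359) (.g (nat_lit 2980) (.e (nat_lit 163962) (nat_lit 25) (.e (nat_lit 532535) (nat_lit 9) (.e (nat_lit 336099) (nat_lit 9) (.e (nat_lit 336028) (nat_lit 3) (.e (nat_lit 98349) (nat_lit 24) (.e (nat_lit 409617) (nat_lit 10) (.e (nat_lit 5762) (nat_lit 315) .nil))))))) (.g (nat_lit 1) (.e (nat_lit 164100) (nat_lit 0) .nil) .nil)))) (.nd (nat_lit 9) 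
(.lf (nat_lit 498103) (.g (nat_lit 1585) (.e (nat_lit 163946) (nat_lit 20) (.e (nat_lit 491566) (nat_lit 12) (.e (nat_lit 385105) (nat_lit 50) (.e (nat_lit 786481) (nat_lit 30) .nil)))) (.g (nat_lit 0) (.e (nat_lit 163494) (nat_lit 0) .nil) .nil))) 
(.lf (nat_lit 498615) (.g (nat_lit 3116) (.e (nat_lit 163962) (nat_lit 25) (.e (nat_lit 532549) (nat_lit 12) (.e (nat_lit 360467) (nat_lit 3) (.e (nat_lit 516139) (nat_lit 7) (.e (nat_lit 409616) (nat_lit 10) (.e (nat_lit 5756) (nat_lit 315) .nil)))))) (.g (nat_lit 1) (.e (nat_lit 164709) (nat_lit 0) .nil) .nil)))))) (.nd (nat_lit 7) (.nd (nat_lit 8) (.nd (nat_lit 9) 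
(.lf (nat_lit 497783) (.g (nat_lit 4155) (.e (nat_lit 163941) (nat_lit 19) (.e (nat_lit 483341) (nat_lit 9) (.e (nat_lit 433920) (nat_lit 9) (.e (nat_lit 426436) (nat_lit 18) (.e (nat_lit 98335) (nat_lit 18) (.e (nat_lit 164331) (nat_lit 230) .nil)))))) (.g (nat_lit 1) (.e (nat_lit 161451) (nat_lit 0) .nil) .nil))) 
(.lf (nat_lit 498295) (.g (nat_lit 3977) (.e (nat_lit 163962) (nat_lit 25) (.e (nat_lit 532523) (nat_lit 7) (.e (nat_lit 319531) (nat_lit 16) (.e (nat_lit 286735) (nat_lit 3) (.e (nat_lit 98350) (nat_lit 24) (.e (nat_lit 409602) (nat_lit 0) (.e (nat_lit 5761) (nat_lit 315) .nil))))))) (.g (nat_lit 1) (.e (nat_lit 163898) (nat_lit 0) .nil) .nil)))) (.nd (nat_lit 9) 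
(.lf (nat_lit 498039) (.g (nat_lit 2777) (.e (nat_lit 163945) (nat_lit 20) (.e (nat_lit 491566) (nat_lit 12) (.e (nat_lit 385093) (nat_lit 49) (.e (nat_lit 778327) (nat_lit 6) (.e (nat_lit 81959) (nat_lit 24) (.e (nat_lit 123229) (nat_lit 282) .nil)))))) (.g (nat_lit 1) (.e (nat_lit 163392) (nat_lit 0) .nil) .nil))) 
(.lf (nat_lit 498551) (.g (nat_lit 2389) (.e (nat_lit 163962) (nat_lit 25) (.e (nat_lit 532544) (nat_lit 10) (.e (nat_lit 344133) (nat_lit 26) (.e (nat_lit 557103) (nat_lit 14) (.e (nat_lit 180243) (nat_lit 5) (.e (nat_lit 532501) (nat_lit 1) (.e (nat_lit 57703) (nat_lit 164) (.e (nat_lit 2600) (nat_lit 163) .nil)))))))) (.g (nat_lit 1) (.e (nat_lit 164509) (nat_lit 0) .nil) .nil))))) 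
(.nd (nat_lit 8) (.nd (nat_lit 9) 
(.lf (nat_lit 497911) (.g (nat_lit 3857) (.e (nat_lit 163943) (nat_lit 19) (.e (nat_lit 483341) (nat_lit 9) (.e (nat_lit 426190) (nat_lit 9) (.e (nat_lit 426436) (nat_lit 18) (.e (nat_lit 98335) (nat_lit 18) (.e (nat_lit 164332) (nat_lit 230) .nil)))))) (.g (nat_lit 1) (.e (nat_lit 162276) (nat_lit 0) .nil) .nil))) 
(.lf (nat_lit 498423) (.g (nat_lit 3159) (.e (nat_lit 163962) (nat_lit 25) (.e (nat_lit 532535) (nat_lit 9) (.e (nat_lit 336176) (nat_lit 10) (.e (nat_lit 344130) (nat_lit 26) (.e (nat_lit 557087) (nat_lit 11) (.e (nat_lit 24589) (nat_lit 0) (.e (nat_lit 7936) (nat_lit 360) .nil))))))) (.g (nat_lit 1) (.e (nat_lit 164270) (nat_lit 0) .nil) .nil)))) (.nd (nat_lit 9) 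
(.lf (nat_lit 498167) (.g (nat_lit 2167) (.e (nat_lit 163962) (nat_lit 25) (.e (nat_lit 532482) (nat_lit 0) (.e (nat_lit 6203) (nat_lit 332) (.e (nat_lit 2798) (nat_lit 180) (.e (nat_lit 303119) (nat_lit 3) (.e (nat_lit 204859) (nat_lit 26) (.e (nat_lit 335876) (nat_lit 0) (.e (nat_lit 6713) (nat_lit 360) .nil)))))))) (.g (nat_lit 1) (.e (nat_lit 163608) (nat_lit 0) .nil) .nil))) 
(.lf (nat_lit 498679) (.g (nat_lit 1674) (.e (nat_lit 163962) (nat_lit 25) (.e (nat_lit 532550) (nat_lit 12) (.e (nat_lit 360471) (nat_lit 7) (.e (nat_lit 548890) (nat_lit 10) (.e (nat_lit 81664) (nat_lit 35) .nil))))) (.g (nat_lit 1) (.e (nat_lit 164848) (nat_lit 0) .nil) .nil))))))))) (.nd (nat_lit 4) (.nd (nat_lit 5) (.nd (nat_lit 6) (.nd (nat_lit 7) (.nd (nat_lit 8) (.nd (nat_lit 9) 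
(.lf (nat_lit 497679) (.g (nat_lit 2161) (.e (nat_lit 163941) (nat_lit 19) (.e (nat_lit 483339) (nat_lit 9) (.e (nat_lit 426260) (nat_lit 9) (.e (nat_lit 426435) (nat_lit 18) (.e (nat_lit 98335) (nat_lit 18) (.e (nat_lit 164325) (nat_lit 230) .nil)))))) (.g (nat_lit 1) (.e (nat_lit 161240) (nat_lit 0) .nil) .nil))) 
(.lf (nat_lit 498191) (.g (nat_lit 3594) (.e (nat_lit 163962) (nat_lit 25) (.e (nat_lit 532499) (nat_lit 1) (.e (nat_lit 57927) (nat_lit 282) (.e (nat_lit 163875) (nat_lit 3) (.e (nat_lit 204862) (nat_lit 27) (.e (nat_lit 344117) (nat_lit 21) (.e (nat_lit 516123) (nat_lit 2) (.e (nat_lit 213033) (nat_lit 12) .nil)))))))) (.g (nat_lit 1) (.e (nat_lit 163654) (nat_lit 0) .nil) .nil)))) 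
(.nd (nat_lit 9) 
(.lf (nat_lit 497935) (.g (nat_lit 1248) (.e (nat_lit 163943) (nat_lit 19) (.e (nat_lit 483372) (nat_lit 21) (.e (nat_lit 319504) (nat_lit 10) (.e (nat_lit 618) (nat_lit 48) .nil)))) (.g (nat_lit 0) (.e (nat_lit 162635) (nat_lit 0) .nil) .nil))) 
(.lf (nat_lit 498447) (.g (nat_lit 1730) (.e (nat_lit 163962) (nat_lit 25) (.e (nat_lit 532535) (nat_lit 9) (.e (nat_lit 336176) (nat_lit 10) (.e (nat_lit 344133) (nat_lit 26) (.e (nat_lit 557086) (nat_lit 11) .nil))))) (.g (nat_lit 0) (.e (nat_lit 164334) (nat_lit 0) .nil) .nil))))) (.nd (nat_lit 8) (.nd (nat_lit 9) 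
(.lf (nat_lit 497807) (.g (nat_lit 3451) (.e (nat_lit 163941) (nat_lit 19) (.e (nat_lit 483341) (nat_lit 9) (.e (nat_lit 426315) (nat_lit 12) (.e (nat_lit 475178) (nat_lit 24) (.e (nat_lit 516119) (nat_lit 1) (.e (nat_lit 164326) (nat_lit 230) .nil)))))) (.g (nat_lit 1) (.e (nat_lit 161616) (nat_lit 0) .nil) .nil))) 
(.lf (nat_lit 498319) (.g (nat_lit 3377) (.e (nat_lit 163962) (nat_lit 25) (.e (nat_lit 532526) (nat_lit 8) (.e (nat_lit 327699) (nat_lit 8) (.e (nat_lit 303117) (nat_lit 2) (.e (nat_lit 196669) (nat_lit 14) (.e (nat_lit 81664) (nat_lit 35) .nil)))))) (.g (nat_lit 1) (.e (nat_lit 163928) (nat_lit 0) .nil) .nil)))) (.nd (nat_lit 9) 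
(.lf (nat_lit 498063) (.g (nat_lit 3187) (.e (nat_lit 163945) (nat_lit 20) (.e (nat_lit 491568) (nat_lit 13) (.e (nat_lit 393301) (nat_lit 27) (.e (nat_lit 491560) (nat_lit 10) (.e (nat_lit 344090) (nat_lit 18) .nil))))) (.g (nat_lit 0) (.e (nat_lit 163426) (nat_lit 0) .nil) .nil))) 
(.lf (nat_lit 498575) (.g (nat_lit 3132) (.e (nat_lit 163962) (nat_lit 25) (.e (nat_lit 532547) (nat_lit 11) (.e (nat_lit 352314) (nat_lit 23) (.e (nat_lit 98350) (nat_lit 24) (.e (nat_lit 409616) (nat_lit 10) (.e (nat_lit 5763) (nat_lit 315) .nil)))))) (.g (nat_lit 1) (.e (nat_lit 164594) (nat_lit 0) .nil) .nil)))))) (.nd (nat_lit 7) (.nd (nat_lit 8) (.nd (nat_lit 9) 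
(.lf (nat_lit 497743) (.g (nat_lit 3767) (.e (nat_lit 163941) (nat_lit 19) (.e (nat_lit 483341) (nat_lit 9) (.e (nat_lit 426197) (nat_lit 9) (.e (nat_lit 426436) (nat_lit 18) (.e (nat_lit 98335) (nat_lit 18) (.e (nat_lit 164324) (nat_lit 230) .nil)))))) (.g (nat_lit 1) (.e (nat_lit 161357) (nat_lit 0) .nil) .nil))) 
(.lf (nat_lit 498255) (.g (nat_lit 2946) (.e (nat_lit 163962) (nat_lit 25) (.e (nat_lit 532513) (nat_lit 3) (.e (nat_lit 114714) (nat_lit 22) (.e (nat_lit 90174) (nat_lit 14) (.e (nat_lit 180243) (nat_lit 5) (.e (nat_lit 532501) (nat_lit 1) (.e (nat_lit 57674) (nat_lit 152) (.e (nat_lit 7936) (nat_lit 163) .nil)))))))) (.g (nat_lit 1) (.e (nat_lit 163777) (nat_lit 0) .nil) .nil)))) 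
(.nd (nat_lit 9) 
(.lf (nat_lit 497999) (.g (nat_lit 1777) (.e (nat_lit 163944) (nat_lit 19) (.e (nat_lit 483339) (nat_lit 9) (.e (nat_lit 426234) (nat_lit 9) (.e (nat_lit 426435) (nat_lit 18) (.e (nat_lit 98335) (nat_lit 18) (.e (nat_lit 164325) (nat_lit 230) .nil)))))) (.g (nat_lit 1) (.e (nat_lit 162961) (nat_lit 0) .nil) .nil))) 
(.lf (nat_lit 498511) (.g (nat_lit 1863) (.e (nat_lit 163962) (nat_lit 25) (.e (nat_lit 532544) (nat_lit 10) (.e (nat_lit 344130) (nat_lit 26) (.e (nat_lit 557097) (nat_lit 13) (.e (nat_lit 179968) (nat_lit 15) .nil))))) (.g (nat_lit 0) (.e (nat_lit 164469) (nat_lit 0) .nil) .nil))))) (.nd (nat_lit 8) (.nd (nat_lit 9) 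
(.lf (nat_lit 497871) (.g (nat_lit 3519) (.e (nat_lit 163942) (nat_lit 19) (.e (nat_lit 483341) (nat_lit 9) (.e (nat_lit 426200) (nat_lit 9) (.e (nat_lit 426436) (nat_lit 18) (.e (nat_lit 98335) (nat_lit 18) (.e (nat_lit 164329) (nat_lit 230) .nil)))))) (.g (nat_lit 1) (.e (nat_lit 161936) (nat_lit 0) .nil) .nil))) 
(.lf (nat_lit 498383) (.g (nat_lit 3128) (.e (nat_lit 163962) (nat_lit 25) (.e (nat_lit 532535) (nat_lit 9) (.e (nat_lit 336163) (nat_lit 10) (.e (nat_lit 344119) (nat_lit 21) (.e (nat_lit 516139) (nat_lit 7) (.e (nat_lit 409617) (nat_lit 10) (.e (nat_lit 5762) (nat_lit 315) .nil))))))) (.g (nat_lit 1) (.e (nat_lit 164163) (nat_lit 0) .nil) .nil)))) (.nd (nat_lit 9) 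
(.lf (nat_lit 498127) (.g (nat_lit 2842) (.e (nat_lit 163950) (nat_lit 21) (.e (nat_lit 500059) (nat_lit 18) (.e (nat_lit 65630) (nat_lit 14) (.e (nat_lit 401428) (nat_lit 3) (.e (nat_lit 204863) (nat_lit 27) (.e (nat_lit 352000) (nat_lit 3) .nil)))))) (.g (nat_lit 1) (.e (nat_lit 163527) (nat_lit 0) .nil) .nil))) 
(.lf (nat_lit 498639) (.g (nat_lit 2432) (.e (nat_lit 163962) (nat_lit 25) (.e (nat_lit 532549) (nat_lit 12) (.e (nat_lit 360473) (nat_lit 8) (.e (nat_lit 557087) (nat_lit 11) (.e (nat_lit 24588) (nat_lit 0) (.e (nat_lit 7936) (nat_lit 360) .nil)))))) (.g (nat_lit 1) (.e (nat_lit 164757) (nat_lit 0) .nil) .nil))))))) (.nd (nat_lit 6) (.nd (nat_lit 7) (.nd (nat_lit 8) (.nd (nat_lit 9) 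
(.lf (nat_lit 497711) (.g (nat_lit 4992) (.e (nat_lit 163941) (nat_lit 19) (.e (nat_lit 483341) (nat_lit 9) (.e (nat_lit 426186) (nat_lit 9) (.e (nat_lit 426436) (nat_lit 18) (.e (nat_lit 98335) (nat_lit 18) (.e (nat_lit 164325) (nat_lit 230) .nil)))))) (.g (nat_lit 1) (.e (nat_lit 161277) (nat_lit 0) .nil) .nil))) 
(.lf (nat_lit 498223) (.g (nat_lit 2551) (.e (nat_lit 163962) (nat_lit 25) (.e (nat_lit 532500) (nat_lit 1) (.e (nat_lit 57929) (nat_lit 282) (.e (nat_lit 163869) (nat_lit 2) (.e (nat_lit 196670) (nat_lit 14) (.e (nat_lit 73746) (nat_lit 3) (.e (nat_lit 516126) (nat_lit 2) (.e (nat_lit 213033) (nat_lit 12) .nil)))))))) (.g (nat_lit 1) (.e (nat_lit 163713) (nat_lit 0) .nil) .nil)))) 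
(.nd (nat_lit 9) 
(.lf (nat_lit 497967) (.g (nat_lit 3292) (.e (nat_lit 163943) (nat_lit 19) (.e (nat_lit 483398) (nat_lit 25) (.e (nat_lit 368676) (nat_lit 21) (.e (nat_lit 516195) (nat_lit 26) (.e (nat_lit 335996) (nat_lit 1) (.e (nat_lit 57931) (nat_lit 282) .nil)))))) (.g (nat_lit 1) (.e (nat_lit 162793) (nat_lit 0) .nil) .nil))) 
(.lf (nat_lit 498479) (.g (nat_lit 2394) (.e (nat_lit 163962) (nat_lit 25) (.e (nat_lit 532543) (nat_lit 10) (.e (nat_lit 344129) (nat_lit 26) (.e (nat_lit 557097) (nat_lit 13) (.e (nat_lit 172132) (nat_lit 15) .nil))))) (.g (nat_lit 0) (.e (nat_lit 164432) (nat_lit 0) .nil) .nil))))) (.nd (nat_lit 8) (.nd (nat_lit 9) 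
(.lf (nat_lit 497839) (.g (nat_lit 2461) (.e (nat_lit 163941) (nat_lit 19) (.e (nat_lit 483393) (nat_lit 23) (.e (nat_lit 336021) (nat_lit 3) (.e (nat_lit 98317) (nat_lit 9) (.e (nat_lit 335987) (nat_lit 1) (.e (nat_lit 57927) (nat_lit 282) .nil)))))) (.g (nat_lit 1) (.e (nat_lit 161792) (nat_lit 0) .nil) .nil))) 
(.lf (nat_lit 498351) (.g (nat_lit 4236) (.e (nat_lit 163962) (nat_lit 25) (.e (nat_lit 532535) (nat_lit 9) (.e (nat_lit 336073) (nat_lit 9) (.e (nat_lit 336028) (nat_lit 3) (.e (nat_lit 98350) (nat_lit 24) (.e (nat_lit 409617) (nat_lit 10) (.e (nat_lit 5762) (nat_lit 315) .nil))))))) (.g (nat_lit 1) (.e (nat_lit 164047) (nat_lit 0) .nil) .nil)))) (.nd (nat_lit 9) 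
(.lf (nat_lit 498095) (.g (nat_lit 709) (.e (nat_lit 163946) (nat_lit 20) (.e (nat_lit 491566) (nat_lit 12) (.e (nat_lit 385104) (nat_lit 50) .nil))) (.g (nat_lit 0) (.e (nat_lit 163486) (nat_lit 0) .nil) .nil))) 
(.lf (nat_lit 498607) (.g (nat_lit 2892) (.e (nat_lit 163962) (nat_lit 25) (.e (nat_lit 532549) (nat_lit 12) (.e (nat_lit 360466) (nat_lit 3) (.e (nat_lit 516139) (nat_lit 7) (.e (nat_lit 417536) (nat_lit 10) .nil))))) (.g (nat_lit 0) (.e (nat_lit 164671) (nat_lit 0) .nil) .nil)))))) (.nd (nat_lit 7) (.nd (nat_lit 8) (.nd (nat_lit 9) 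
(.lf (nat_lit 497775) (.g (nat_lit 735) (.e (nat_lit 163941) (nat_lit 19) (.e (nat_lit 483341) (nat_lit 9) (.e (nat_lit 426220) (nat_lit 9) .nil))) (.g (nat_lit 0) (.e (nat_lit 161443) (nat_lit 0) .nil) .nil))) 
(.lf (nat_lit 498287) (.g (nat_lit 1826) (.e (nat_lit 163962) (nat_lit 25) (.e (nat_lit 532523) (nat_lit 7) (.e (nat_lit 319530) (nat_lit 16) (.e (nat_lit 286733) (nat_lit 2) .nil)))) (.g (nat_lit 0) (.e (nat_lit 163890) (nat_lit 0) .nil) .nil)))) (.nd (nat_lit 9) 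
(.lf (nat_lit 498031) (.g (nat_lit 1504) (.e (nat_lit 163945) (nat_lit 20) (.e (nat_lit 491566) (nat_lit 12) (.e (nat_lit 385092) (nat_lit 49) (.e (nat_lit 778326) (nat_lit 6) (.e (nat_lit 81959) (nat_lit 24) .nil))))) (.g (nat_lit 0) (.e (nat_lit 163383) (nat_lit 0) .nil) .nil))) 
(.lf (nat_lit 498543) (.g (nat_lit 2854) (.e (nat_lit 163962) (nat_lit 25) (.e (nat_lit 532544) (nat_lit 10) (.e (nat_lit 344133) (nat_lit 26) (.e (nat_lit 557098) (nat_lit 13) (.e (nat_lit 172136) (nat_lit 15) (.e (nat_lit 1800) (nat_lit 119) (.e (nat_lit 516119) (nat_lit 1) (.e (nat_lit 164347) (nat_lit 240) (.e (nat_lit 2601) (nat_lit 163) .nil))))))))) (.g (nat_lit 1) (.e (nat_lit 164501) (nat_lit 0) .nil) .nil))))) 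
(.nd (nat_lit 8) (.nd (nat_lit 9) 
(.lf (nat_lit 497903) (.g (nat_lit 3817) (.e (nat_lit 163943) (nat_lit 19) (.e (nat_lit 483341) (nat_lit 9) (.e (nat_lit 426188) (nat_lit 9) (.e (nat_lit 426436) (nat_lit 18) (.e (nat_lit 98335) (nat_lit 18) (.e (nat_lit 164324) (nat_lit 230) .nil)))))) (.g (nat_lit 1) (.e (nat_lit 162260) (nat_lit 0) .nil) .nil))) 
(.lf (nat_lit 498415) (.g (nat_lit 1742) (.e (nat_lit 163962) (nat_lit 25) (.e (nat_lit 532535) (nat_lit 9) (.e (nat_lit 336176) (nat_lit 10) (.e (nat_lit 344130) (nat_lit 26) (.e (nat_lit 557071) (nat_lit 9) .nil))))) (.g (nat_lit 0) (.e (nat_lit 164248) (nat_lit 0) .nil) .nil)))) (.nd (nat_lit 9) 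
(.lf (nat_lit 498159) (.g (nat_lit 3634) (.e (nat_lit 163962) (nat_lit 25) (.e (nat_lit 532482) (nat_lit 0) (.e (nat_lit 6203) (nat_lit 332) (.e (nat_lit 2797) (nat_lit 180) (.e (nat_lit 303117) (nat_lit 2) (.e (nat_lit 196668) (nat_lit 14) (.e (nat_lit 81664) (nat_lit 35) .nil))))))) (.g (nat_lit 1) (.e (nat_lit 163593) (nat_lit 0) .nil) .nil))) 
(.lf (nat_lit 498671) (.g (nat_lit 3971) (.e (nat_lit 163962) (nat_lit 25) (.e (nat_lit 532550) (nat_lit 12) (.e (nat_lit 360467) (nat_lit 3) (.e (nat_lit 516139) (nat_lit 7) (.e (nat_lit 409616) (nat_lit 10) (.e (nat_lit 5763) (nat_lit 315) .nil)))))) (.g (nat_lit 1) (.e (nat_lit 164835) (nat_lit 0) .nil) .nil)))))))) 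
(.nd (nat_lit 5) (.nd (nat_lit 6) (.nd (nat_lit 7) (.nd (nat_lit 8) (.nd (nat_lit 9) 
(.lf (nat_lit 497695) (.g (nat_lit 1882) (.e (nat_lit 163941) (nat_lit 19) (.e (nat_lit 483339) (nat_lit 9) (.e (nat_lit 426262) (nat_lit 9) (.e (nat_lit 426435) (nat_lit 18) (.e (nat_lit 98335) (nat_lit 18) (.e (nat_lit 164326) (nat_lit 230) .nil)))))) (.g (nat_lit 1) (.e (nat_lit 161257) (nat_lit 0) .nil) .nil))) 
(.lf (nat_lit 498207) (.g (nat_lit 2275) (.e (nat_lit 163962) (nat_lit 25) (.e (nat_lit 532500) (nat_lit 1) (.e (nat_lit 57926) (nat_lit 282) (.e (nat_lit 163875) (nat_lit 3) (.e (nat_lit 204862) (nat_lit 27) .nil))))) (.g (nat_lit 0) (.e (nat_lit 163689) (nat_lit 0) .nil) .nil)))) (.nd (nat_lit 9) 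
(.lf (nat_lit 497951) (.g (nat_lit 3263) (.e (nat_lit 163943) (nat_lit 19) (.e (nat_lit 483394) (nat_lit 24) (.e (nat_lit 344117) (nat_lit 21) (.e (nat_lit 516195) (nat_lit 26) (.e (nat_lit 335986) (nat_lit 1) (.e (nat_lit 57927) (nat_lit 282) .nil)))))) (.g (nat_lit 1) (.e (nat_lit 162748) (nat_lit 0) .nil) .nil))) 
(.lf (nat_lit 498463) (.g (nat_lit 3311) (.e (nat_lit 163962) (nat_lit 25) (.e (nat_lit 532535) (nat_lit 9) (.e (nat_lit 336226) (nat_lit 14) (.e (nat_lit 401425) (nat_lit 2) (.e (nat_lit 196622) (nat_lit 9) (.e (nat_lit 1512) (nat_lit 108) (.e (nat_lit 335872) (nat_lit 0) (.e (nat_lit 6711) (nat_lit 360) .nil)))))))) (.g (nat_lit 1) (.e (nat_lit 164385) (nat_lit 0) .nil) .nil))))) 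
(.nd (nat_lit 8) (.nd (nat_lit 9) 
(.lf (nat_lit 497823) (.g (nat_lit 1092) (.e (nat_lit 163941) (nat_lit 19) (.e (nat_lit 483345) (nat_lit 17) (.e (nat_lit 6712) (nat_lit 360) (.e (nat_lit 163978) (nat_lit 30) .nil)))) (.g (nat_lit 0) (.e (nat_lit 161709) (nat_lit 0) .nil) .nil))) 
(.lf (nat_lit 498335) (.g (nat_lit 470) (.e (nat_lit 163962) (nat_lit 25) (.e (nat_lit 532535) (nat_lit 9) (.e (nat_lit 336061) (nat_lit 7) .nil))) (.g (nat_lit 0) (.e (nat_lit 164014) (nat_lit 0) .nil) .nil)))) (.nd (nat_lit 9) 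
(.lf (nat_lit 498079) (.g (nat_lit 2369) (.e (nat_lit 163945) (nat_lit 20) (.e (nat_lit 491571) (nat_lit 13) (.e (nat_lit 393299) (nat_lit 27) (.e (nat_lit 491558) (nat_lit 10) (.e (nat_lit 344091) (nat_lit 18) .nil))))) (.g (nat_lit 0) (.e (nat_lit 163464) (nat_lit 0) .nil) .nil))) 
(.lf (nat_lit 498591) (.g (nat_lit 1930) (.e (nat_lit 163962) (nat_lit 25) (.e (nat_lit 532548) (nat_lit 11) (.e (nat_lit 352315) (nat_lit 23) (.e (nat_lit 98353) (nat_lit 25) (.e (nat_lit 417820) (nat_lit 10) (.e (nat_lit 5761) (nat_lit 315) .nil)))))) (.g (nat_lit 1) (.e (nat_lit 164625) (nat_lit 0) .nil) .nil)))))) (.nd (nat_lit 7) (.nd (nat_lit 8) (.nd (nat_lit 9) 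
(.lf (nat_lit 497759) (.g (nat_lit 5054) (.e (nat_lit 163941) (nat_lit 19) (.e (nat_lit 483341) (nat_lit 9) (.e (nat_lit 426199) (nat_lit 9) (.e (nat_lit 426436) (nat_lit 18) (.e (nat_lit 98335) (nat_lit 18) (.e (nat_lit 164324) (nat_lit 230) .nil)))))) (.g (nat_lit 1) (.e (nat_lit 161405) (nat_lit 0) .nil) .nil))) 
(.lf (nat_lit 498271) (.g (nat_lit 2739) (.e (nat_lit 163962) (nat_lit 25) (.e (nat_lit 532523) (nat_lit 7) (.e (nat_lit 319490) (nat_lit 0) (.e (nat_lit 5664) (nat_lit 312) (.e (nat_lit 2679) (nat_lit 168) .nil))))) (.g (nat_lit 0) (.e (nat_lit 163854) (nat_lit 0) .nil) .nil)))) (.nd (nat_lit 9) 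
(.lf (nat_lit 498015) (.g (nat_lit 3375) (.e (nat_lit 163944) (nat_lit 19) (.e (nat_lit 483341) (nat_lit 9) (.e (nat_lit 426190) (nat_lit 9) (.e (nat_lit 426436) (nat_lit 18) (.e (nat_lit 98335) (nat_lit 18) (.e (nat_lit 164325) (nat_lit 230) .nil)))))) (.g (nat_lit 1) (.e (nat_lit 163001) (nat_lit 0) .nil) .nil))) 
(.lf (nat_lit 498527) (.g (nat_lit 1145) (.e (nat_lit 163962) (nat_lit 25) (.e (nat_lit 532544) (nat_lit 10) (.e (nat_lit 344132) (nat_lit 26) (.e (nat_lit 557101) (nat_lit 13) .nil)))) (.g (nat_lit 0) (.e (nat_lit 164485) (nat_lit 0) .nil) .nil))))) (.nd (nat_lit 8) (.nd (nat_lit 9) 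
(.lf (nat_lit 497887) (.g (nat_lit 3240) (.e (nat_lit 163943) (nat_lit 19) (.e (nat_lit 483337) (nat_lit 9) (.e (nat_lit 426190) (nat_lit 9) (.e (nat_lit 426436) (nat_lit 18) (.e (nat_lit 98335) (nat_lit 18) (.e (nat_lit 164330) (nat_lit 230) .nil)))))) (.g (nat_lit 1) (.e (nat_lit 162144) (nat_lit 0) .nil) .nil))) 
(.lf (nat_lit 498399) (.g (nat_lit 1490) (.e (nat_lit 163962) (nat_lit 25) (.e (nat_lit 532535) (nat_lit 9) (.e (nat_lit 336176) (nat_lit 10) (.e (nat_lit 344120) (nat_lit 21) .nil)))) (.g (nat_lit 0) (.e (nat_lit 164203) (nat_lit 0) .nil) .nil)))) (.nd (nat_lit 9) 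
(.lf (nat_lit 498143) (.g (nat_lit 1928) (.e (nat_lit 163950) (nat_lit 21) (.e (nat_lit 507648) (nat_lit 20) (.e (nat_lit 81924) (nat_lit 0) (.e (nat_lit 3305) (nat_lit 202) (.e (nat_lit 573487) (nat_lit 14) (.e (nat_lit 81664) (nat_lit 35) .nil)))))) (.g (nat_lit 1) (.e (nat_lit 163543) (nat_lit 0) .nil) .nil))) 
(.lf (nat_lit 498655) (.g (nat_lit 3108) (.e (nat_lit 163962) (nat_lit 25) (.e (nat_lit 532549) (nat_lit 12) (.e (nat_lit 360475) (nat_lit 8) (.e (nat_lit 557086) (nat_lit 11) (.e (nat_lit 24578) (nat_lit 0) .nil))))) (.g (nat_lit 0) (.e (nat_lit 164790) (nat_lit 0) .nil) .nil))))))) (.nd (nat_lit 6) (.nd (nat_lit 7) (.nd (nat_lit 8) (.nd (nat_lit 9) 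
(.lf (nat_lit 497727) (.g (nat_lit 4566) (.e (nat_lit 163941) (nat_lit 19) (.e (nat_lit 483341) (nat_lit 9) (.e (nat_lit 426189) (nat_lit 9) (.e (nat_lit 426436) (nat_lit 18) (.e (nat_lit 98335) (nat_lit 18) (.e (nat_lit 164322) (nat_lit 230) .nil)))))) (.g (nat_lit 1) (.e (nat_lit 161315) (nat_lit 0) .nil) .nil))) 
(.lf (nat_lit 498239) (.g (nat_lit 2221) (.e (nat_lit 163962) (nat_lit 25) (.e (nat_lit 532513) (nat_lit 3) (.e (nat_lit 114714) (nat_lit 22) (.e (nat_lit 90172) (nat_lit 14) (.e (nat_lit 180244) (nat_lit 5) (.e (nat_lit 532501) (nat_lit 1) (.e (nat_lit 57662) (nat_lit 152) (.e (nat_lit 7936) (nat_lit 163) .nil)))))))) (.g (nat_lit 1) (.e (nat_lit 163754) (nat_lit 0) .nil) .nil)))) 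
(.nd (nat_lit 9) 
(.lf (nat_lit 497983) (.g (nat_lit 1102) (.e (nat_lit 163943) (nat_lit 19) (.e (nat_lit 483413) (nat_lit 27) (.e (nat_lit 401413) (nat_lit 0) .nil))) (.g (nat_lit 0) (.e (nat_lit 162831) (nat_lit 0) .nil) .nil))) 
(.lf (nat_lit 498495) (.g (nat_lit 2152) (.e (nat_lit 163962) (nat_lit 25) (.e (nat_lit 532544) (nat_lit 10) (.e (nat_lit 344117) (nat_lit 21) (.e (nat_lit 516123) (nat_lit 2) (.e (nat_lit 213033) (nat_lit 12) .nil))))) (.g (nat_lit 0) (.e (nat_lit 164453) (nat_lit 0) .nil) .nil))))) (.nd (nat_lit 8) (.nd (nat_lit 9) 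
(.lf (nat_lit 497855) (.g (nat_lit 3519) (.e (nat_lit 163942) (nat_lit 19) (.e (nat_lit 483341) (nat_lit 9) (.e (nat_lit 426188) (nat_lit 9) (.e (nat_lit 426436) (nat_lit 18) (.e (nat_lit 98335) (nat_lit 18) (.e (nat_lit 164325) (nat_lit 230) .nil)))))) (.g (nat_lit 1) (.e (nat_lit 161890) (nat_lit 0) .nil) .nil))) 
(.lf (nat_lit 498367) (.g (nat_lit 4569) (.e (nat_lit 163962) (nat_lit 25) (.e (nat_lit 532535) (nat_lit 9) (.e (nat_lit 336110) (nat_lit 9) (.e (nat_lit 336028) (nat_lit 3) (.e (nat_lit 98350) (nat_lit 24) (.e (nat_lit 409616) (nat_lit 10) (.e (nat_lit 5763) (nat_lit 315) .nil))))))) (.g (nat_lit 1) (.e (nat_lit 164120) (nat_lit 0) .nil) .nil)))) (.nd (nat_lit 9) 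
(.lf (nat_lit 498111) (.g (nat_lit 2435) (.e (nat_lit 163946) (nat_lit 20) (.e (nat_lit 491571) (nat_lit 13) (.e (nat_lit 393299) (nat_lit 27) (.e (nat_lit 491558) (nat_lit 10) (.e (nat_lit 344091) (nat_lit 18) .nil))))) (.g (nat_lit 0) (.e (nat_lit 163509) (nat_lit 0) .nil) .nil))) 
(.lf (nat_lit 498623) (.g (nat_lit 1243) (.e (nat_lit 163962) (nat_lit 25) (.e (nat_lit 532549) (nat_lit 12) (.e (nat_lit 360471) (nat_lit 7) (.e (nat_lit 548870) (nat_lit 5) .nil)))) (.g (nat_lit 0) (.e (nat_lit 164717) (nat_lit 0) .nil) .nil)))))) (.nd (nat_lit 7) (.nd (nat_lit 8) (.nd (nat_lit 9) 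
(.lf (nat_lit 497791) (.g (nat_lit 3958) (.e (nat_lit 163941) (nat_lit 19) (.e (nat_lit 483341) (nat_lit 9) (.e (nat_lit 426306) (nat_lit 12) (.e (nat_lit 475179) (nat_lit 24) (.e (nat_lit 516120) (nat_lit 1) (.e (nat_lit 164330) (nat_lit 230) .nil)))))) (.g (nat_lit 1) (.e (nat_lit 161498) (nat_lit 0) .nil) .nil))) 
(.lf (nat_lit 498303) (.g (nat_lit 2732) (.e (nat_lit 163962) (nat_lit 25) (.e (nat_lit 532523) (nat_lit 7) (.e (nat_lit 319533) (nat_lit 16) (.e (nat_lit 286735) (nat_lit 3) (.e (nat_lit 98350) (nat_lit 24) .nil))))) (.g (nat_lit 0) (.e (nat_lit 163906) (nat_lit 0) .nil) .nil)))) (.nd (nat_lit 9) 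
(.lf (nat_lit 498047) (.g (nat_lit 2341) (.e (nat_lit 163945) (nat_lit 20) (.e (nat_lit 491566) (nat_lit 12) (.e (nat_lit 385104) (nat_lit 50) (.e (nat_lit 786483) (nat_lit 30) (.e (nat_lit 360457) (nat_lit 0) .nil))))) (.g (nat_lit 0) (.e (nat_lit 163410) (nat_lit 0) .nil) .nil))) 
(.lf (nat_lit 498559) (.g (nat_lit 2422) (.e (nat_lit 163962) (nat_lit 25) (.e (nat_lit 532544) (nat_lit 10) (.e (nat_lit 344133) (nat_lit 26) (.e (nat_lit 557105) (nat_lit 14) (.e (nat_lit 188160) (nat_lit 3) .nil))))) (.g (nat_lit 0) (.e (nat_lit 164517) (nat_lit 0) .nil) .nil))))) (.nd (nat_lit 8) (.nd (nat_lit 9) 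
(.lf (nat_lit 497919) (.g (nat_lit 3766) (.e (nat_lit 163943) (nat_lit 19) (.e (nat_lit 483341) (nat_lit 9) (.e (nat_lit 426200) (nat_lit 9) (.e (nat_lit 426436) (nat_lit 18) (.e (nat_lit 98335) (nat_lit 18) (.e (nat_lit 164325) (nat_lit 230) .nil)))))) (.g (nat_lit 1) (.e (nat_lit 162329) (nat_lit 0) .nil) .nil))) 
(.lf (nat_lit 498431) (.g (nat_lit 1758) (.e (nat_lit 163962) (nat_lit 25) (.e (nat_lit 532535) (nat_lit 9) (.e (nat_lit 336176) (nat_lit 10) (.e (nat_lit 344132) (nat_lit 26) (.e (nat_lit 557072) (nat_lit 9) .nil))))) (.g (nat_lit 0) (.e (nat_lit 164278) (nat_lit 0) .nil) .nil)))) (.nd (nat_lit 9) 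
(.lf (nat_lit 498175) (.g (nat_lit 557) (.e (nat_lit 163962) (nat_lit 25) (.e (nat_lit 532490) (nat_lit 0) (.e (nat_lit 7936) (nat_lit 362) .nil))) (.g (nat_lit 0) (.e (nat_lit 163620) (nat_lit 0) .nil) .nil))) 
(.lf (nat_lit 498687) (.g (nat_lit 1864) (.e (nat_lit 163962) (nat_lit 25) (.e (nat_lit 532550) (nat_lit 12) (.e (nat_lit 360474) (nat_lit 8) (.e (nat_lit 557070) (nat_lit 9) (.e (nat_lit 7936) (nat_lit 22) .nil))))) (.g (nat_lit 0) (.e (nat_lit 164857) (nat_lit 0) .nil) .nil)))))))))))))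

noncomputable def tv5547 : DT := (.nd (nat_lit 0) (.nd (nat_lit 1) (.nd (nat_lit 2) (.nd (nat_lit 3) (.nd (nat_lit 4) (.nd (nat_lit 5) (.nd (nat_lit 6) (.nd (nat_lit 7) (.nd (nat_lit 8) (.nd (nat_lit 9) 
(.lf (nat_lit 498688) (.g (nat_lit 1075) (.e (nat_lit 163962) (nat_lit 25) (.e (nat_lit 532550) (nat_lit 12) (.e (nat_lit 360474) (nat_lit 8) (.e (nat_lit 557072) (nat_lit 9) .nil)))) (.g (nat_lit 0) (.e (nat_lit 164860) (nat_lit 0) .nil) .nil))) 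
(.lf (nat_lit 499200) (.g (nat_lit 1971) (.e (nat_lit 163975) (nat_lit 30) (.e (nat_lit 573481) (nat_lit 13) (.e (nat_lit 65619) (nat_lit 10) (.e (nat_lit 344119) (nat_lit 21) (.e (nat_lit 516182) (nat_lit 15) .nil))))) (.g (nat_lit 0) (.e (nat_lit 166098) (nat_lit 0) .nil) .nil)))) (.nd (nat_lit 9) 
(.lf (nat_lit 498944) (.g (nat_lit 1174) (.e (nat_lit 163965) (nat_lit 25) (.e (nat_lit 532550) (nat_lit 12) (.e (nat_lit 360474) (nat_lit 8) .nil))) (.g (nat_lit 0) (.e (nat_lit 165607) (nat_lit 0) .nil) .nil))) 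
(.lf (nat_lit 499456) (.g (nat_lit 3651) (.e (nat_lit 163975) (nat_lit 30) (.e (nat_lit 573492) (nat_lit 15) (.e (nat_lit 81956) (nat_lit 23) (.e (nat_lit 98383) (nat_lit 32) (.e (nat_lit 475197) (nat_lit 40) (.e (nat_lit 704589) (nat_lit 3) .nil)))))) (.g (nat_lit 1) (.e (nat_lit 166845) (nat_lit 0) .nil) .nil))))) (.nd (nat_lit 8) (.nd (nat_lit 9) 
(.lf (nat_lit 498816) (.g (nat_lit 2490) (.e (nat_lit 163963) (nat_lit 25) (.e (nat_lit 532501) (nat_lit 1) (.e (nat_lit 57927) (nat_lit 282) (.e (nat_lit 163869) (nat_lit 2) (.e (nat_lit 196670) (nat_lit 14) (.e (nat_lit 73746) (nat_lit 3) (.e (nat_lit 516122) (nat_lit 2) (.e (nat_lit 213035) (nat_lit 12) .nil)))))))) (.g (nat_lit 1) (.e (nat_lit 165187) (nat_lit 0) .nil) .nil))) 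
(.lf (nat_lit 499328) (.g (nat_lit 3232) (.e (nat_lit 163975) (nat_lit 30) (.e (nat_lit 573491) (nat_lit 15) (.e (nat_lit 81955) (nat_lit 23) (.e (nat_lit 98386) (nat_lit 32) (.e (nat_lit 475198) (nat_lit 40) (.e (nat_lit 704590) (nat_lit 3) .nil)))))) (.g (nat_lit 1) (.e (nat_lit 166468) (nat_lit 0) .nil) .nil)))) (.nd (nat_lit 9) 
(.lf (nat_lit 499072) (.g (nat_lit 967) (.e (nat_lit 163975) (nat_lit 30) (.e (nat_lit 573481) (nat_lit 13) (.e (nat_lit 65604) (nat_lit 9) (.e (nat_lit 336028) (nat_lit 3) .nil)))) (.g (nat_lit 0) (.e (nat_lit 165908) (nat_lit 0) .nil) .nil))) 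
(.lf (nat_lit 499584) (.g (nat_lit 2860) (.e (nat_lit 163976) (nat_lit 30) (.e (nat_lit 573481) (nat_lit 13) (.e (nat_lit 65619) (nat_lit 10) (.e (nat_lit 344117) (nat_lit 21) (.e (nat_lit 516147) (nat_lit 9) (.e (nat_lit 426444) (nat_lit 19) (.e (nat_lit 114432) (nat_lit 3) .nil))))))) (.g (nat_lit 1) (.e (nat_lit 167097) (nat_lit 0) .nil) .nil)))))) 
(.nd (nat_lit 7) (.nd (nat_lit 8) (.nd (nat_lit 9) 
(.lf (nat_lit 498752) (.g (nat_lit 2729) (.e (nat_lit 163962) (nat_lit 25) (.e (nat_lit 532558) (nat_lit 14) (.e (nat_lit 376868) (nat_lit 23) (.e (nat_lit 98350) (nat_lit 24) (.e (nat_lit 409617) (nat_lit 10) (.e (nat_lit 7936) (nat_lit 315) .nil)))))) (.g (nat_lit 1) (.e (nat_lit 164967) (nat_lit 0) .nil) .nil))) 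
(.lf (nat_lit 499264) (.g (nat_lit 2043) (.e (nat_lit 163975) (nat_lit 30) (.e (nat_lit 573491) (nat_lit 15) (.e (nat_lit 81954) (nat_lit 23) (.e (nat_lit 98356) (nat_lit 26) (.e (nat_lit 426363) (nat_lit 15) .nil))))) (.g (nat_lit 0) (.e (nat_lit 166368) (nat_lit 0) .nil) .nil)))) (.nd (nat_lit 9) 
(.lf (nat_lit 499008) (.g (nat_lit 2299) (.e (nat_lit 163974) (nat_lit 30) (.e (nat_lit 573484) (nat_lit 13) (.e (nat_lit 65610) (nat_lit 10) (.e (nat_lit 344117) (nat_lit 21) .nil)))) (.g (nat_lit 0) (.e (nat_lit 165763) (nat_lit 0) .nil) .nil))) 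
(.lf (nat_lit 499520) (.g (nat_lit 3536) (.e (nat_lit 163976) (nat_lit 30) (.e (nat_lit 573481) (nat_lit 13) (.e (nat_lit 65604) (nat_lit 9) (.e (nat_lit 336013) (nat_lit 2) (.e (nat_lit 90170) (nat_lit 13) (.e (nat_lit 172049) (nat_lit 0) (.e (nat_lit 3406) (nat_lit 212) (.e (nat_lit 655373) (nat_lit 3) .nil)))))))) (.g (nat_lit 1) (.e (nat_lit 166978) (nat_lit 0) .nil) .nil))))) 
(.nd (nat_lit 8) (.nd (nat_lit 9) 
(.lf (nat_lit 498880) (.g (nat_lit 2324) (.e (nat_lit 163964) (nat_lit 25) (.e (nat_lit 532501) (nat_lit 1) (.e (nat_lit 57927) (nat_lit 282) (.e (nat_lit 163871) (nat_lit 2) (.e (nat_lit 196670) (nat_lit 14) (.e (nat_lit 73746) (nat_lit 3) (.e (nat_lit 516122) (nat_lit 2) (.e (nat_lit 213035) (nat_lit 12) .nil)))))))) (.g (nat_lit 1) (.e (nat_lit 165398) (nat_lit 0) .nil) .nil))) 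
(.lf (nat_lit 499392) (.g (nat_lit 3034) (.e (nat_lit 163975) (nat_lit 30) (.e (nat_lit 573492) (nat_lit 15) (.e (nat_lit 81956) (nat_lit 23) (.e (nat_lit 98356) (nat_lit 26) (.e (nat_lit 426362) (nat_lit 15) (.e (nat_lit 2061) (nat_lit 142) (.e (nat_lit 704589) (nat_lit 3) .nil))))))) (.g (nat_lit 1) (.e (nat_lit 166704) (nat_lit 0) .nil) .nil)))) (.nd (nat_lit 9) 
(.lf (nat_lit 499136) (.g (nat_lit 2504) (.e (nat_lit 163975) (nat_lit 30) (.e (nat_lit 573481) (nat_lit 13) (.e (nat_lit 65619) (nat_lit 10) (.e (nat_lit 344117) (nat_lit 21) (.e (nat_lit 516151) (nat_lit 9) (.e (nat_lit 426022) (nat_lit 0) (.e (nat_lit 3399) (nat_lit 211) (.e (nat_lit 647180) (nat_lit 3) .nil)))))))) (.g (nat_lit 1) (.e (nat_lit 166017) (nat_lit 0) .nil) .nil))) 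
(.lf (nat_lit 499648) (.g (nat_lit 2835) (.e (nat_lit 163976) (nat_lit 30) (.e (nat_lit 573482) (nat_lit 13) (.e (nat_lit 65619) (nat_lit 10) (.e (nat_lit 344117) (nat_lit 21) (.e (nat_lit 516160) (nat_lit 10) .nil))))) (.g (nat_lit 0) (.e (nat_lit 167183) (nat_lit 0) .nil) .nil))))))) (.nd (nat_lit 6) (.nd (nat_lit 7) (.nd (nat_lit 8) (.nd (nat_lit 9) 
(.lf (nat_lit 498720) (.g (nat_lit 3523) (.e (nat_lit 163962) (nat_lit 25) (.e (nat_lit 532550) (nat_lit 12) (.e (nat_lit 360475) (nat_lit 8) (.e (nat_lit 557070) (nat_lit 9) (.e (nat_lit 296) (nat_lit 22) .nil))))) (.g (nat_lit 0) (.e (nat_lit 164907) (nat_lit 0) .nil) .nil))) 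
(.lf (nat_lit 499232) (.g (nat_lit 2365) (.e (nat_lit 163975) (nat_lit 30) (.e (nat_lit 573488) (nat_lit 14) (.e (nat_lit 73755) (nat_lit 8) (.e (nat_lit 557104) (nat_lit 14) (.e (nat_lit 180251) (nat_lit 10) (.e (nat_lit 573475) (nat_lit 12) (.e (nat_lit 57503) (nat_lit 38) (.e (nat_lit 638994) (nat_lit 7) .nil)))))))) (.g (nat_lit 1) (.e (nat_lit 166256) (nat_lit 0) .nil) .nil)))) 
(.nd (nat_lit 9) 
(.lf (nat_lit 498976) (.g (nat_lit 3693) (.e (nat_lit 163973) (nat_lit 30) (.e (nat_lit 573492) (nat_lit 15) (.e (nat_lit 81956) (nat_lit 23) (.e (nat_lit 98355) (nat_lit 26) .nil)))) (.g (nat_lit 0) (.e (nat_lit 165706) (nat_lit 0) .nil) .nil))) 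
(.lf (nat_lit 499488) (.g (nat_lit 1048) (.e (nat_lit 163975) (nat_lit 30) (.e (nat_lit 573493) (nat_lit 15) (.e (nat_lit 81956) (nat_lit 23) .nil))) (.g (nat_lit 0) (.e (nat_lit 166892) (nat_lit 0) .nil) .nil))))) (.nd (nat_lit 8) (.nd (nat_lit 9) 
(.lf (nat_lit 498848) (.g (nat_lit 2518) (.e (nat_lit 163964) (nat_lit 25) (.e (nat_lit 532499) (nat_lit 1) (.e (nat_lit 57926) (nat_lit 282) (.e (nat_lit 163875) (nat_lit 3) (.e (nat_lit 204862) (nat_lit 27) .nil))))) (.g (nat_lit 0) (.e (nat_lit 165331) (nat_lit 0) .nil) .nil))) 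
(.lf (nat_lit 499360) (.g (nat_lit 4362) (.e (nat_lit 163975) (nat_lit 30) (.e (nat_lit 573492) (nat_lit 15) (.e (nat_lit 81953) (nat_lit 22) (.e (nat_lit 90170) (nat_lit 13) (.e (nat_lit 172138) (nat_lit 15) (.e (nat_lit 2058) (nat_lit 142) (.e (nat_lit 704589) (nat_lit 3) .nil))))))) (.g (nat_lit 1) (.e (nat_lit 166606) (nat_lit 0) .nil) .nil)))) (.nd (nat_lit 9) 
(.lf (nat_lit 499104) (.g (nat_lit 2299) (.e (nat_lit 163975) (nat_lit 30) (.e (nat_lit 573481) (nat_lit 13) (.e (nat_lit 65619) (nat_lit 10) (.e (nat_lit 344117) (nat_lit 21) (.e (nat_lit 516143) (nat_lit 9) .nil))))) (.g (nat_lit 0) (.e (nat_lit 165985) (nat_lit 0) .nil) .nil))) 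
(.lf (nat_lit 499616) (.g (nat_lit 2462) (.e (nat_lit 163976) (nat_lit 30) (.e (nat_lit 573481) (nat_lit 13) (.e (nat_lit 65619) (nat_lit 10) (.e (nat_lit 344117) (nat_lit 21) (.e (nat_lit 516153) (nat_lit 9) .nil))))) (.g (nat_lit 0) (.e (nat_lit 167131) (nat_lit 0) .nil) .nil)))))) (.nd (nat_lit 7) (.nd (nat_lit 8) (.nd (nat_lit 9) 
(.lf (nat_lit 498784) (.g (nat_lit 3012) (.e (nat_lit 163963) (nat_lit 25) (.e (nat_lit 532499) (nat_lit 1) (.e (nat_lit 57847) (nat_lit 252) (.e (nat_lit 57365) (nat_lit 1) .nil)))) (.g (nat_lit 0) (.e (nat_lit 165129) (nat_lit 0) .nil) .nil))) 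
(.lf (nat_lit 499296) (.g (nat_lit 3739) (.e (nat_lit 163975) (nat_lit 30) (.e (nat_lit 573491) (nat_lit 15) (.e (nat_lit 81954) (nat_lit 23) (.e (nat_lit 98359) (nat_lit 26) (.e (nat_lit 426412) (nat_lit 15) (.e (nat_lit 2058) (nat_lit 142) (.e (nat_lit 704589) (nat_lit 3) .nil))))))) (.g (nat_lit 1) (.e (nat_lit 166413) (nat_lit 0) .nil) .nil)))) (.nd (nat_lit 9) 
(.lf (nat_lit 499040) (.g (nat_lit 3175) (.e (nat_lit 163975) (nat_lit 30) (.e (nat_lit 573480) (nat_lit 13) (.e (nat_lit 65610) (nat_lit 10) (.e (nat_lit 344117) (nat_lit 21) (.e (nat_lit 516179) (nat_lit 15) (.e (nat_lit 475199) (nat_lit 40) (.e (nat_lit 704590) (nat_lit 3) .nil))))))) (.g (nat_lit 1) (.e (nat_lit 165858) (nat_lit 0) .nil) .nil))) 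
(.lf (nat_lit 499552) (.g (nat_lit 2127) (.e (nat_lit 163976) (nat_lit 30) (.e (nat_lit 573481) (nat_lit 13) (.e (nat_lit 65619) (nat_lit 10) (.e (nat_lit 344117) (nat_lit 21) (.e (nat_lit 516143) (nat_lit 9) .nil))))) (.g (nat_lit 0) (.e (nat_lit 167065) (nat_lit 0) .nil) .nil))))) (.nd (nat_lit 8) (.nd (nat_lit 9) 
(.lf (nat_lit 498912) (.g (nat_lit 3129) (.e (nat_lit 163964) (nat_lit 25) (.e (nat_lit 532513) (nat_lit 3) (.e (nat_lit 114718) (nat_lit 23) (.e (nat_lit 98384) (nat_lit 32) (.e (nat_lit 475177) (nat_lit 24) (.e (nat_lit 516117) (nat_lit 1) (.e (nat_lit 164304) (nat_lit 226) (.e (nat_lit 2612) (nat_lit 163) .nil)))))))) (.g (nat_lit 1) (.e (nat_lit 165463) (nat_lit 0) .nil) .nil))) 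
(.lf (nat_lit 499424) (.g (nat_lit 3846) (.e (nat_lit 163975) (nat_lit 30) (.e (nat_lit 573492) (nat_lit 15) (.e (nat_lit 81956) (nat_lit 23) (.e (nat_lit 98358) (nat_lit 26) (.e (nat_lit 426444) (nat_lit 19) (.e (nat_lit 114432) (nat_lit 3) .nil)))))) (.g (nat_lit 1) (.e (nat_lit 166739) (nat_lit 0) .nil) .nil)))) (.nd (nat_lit 9) 
(.lf (nat_lit 499168) (.g (nat_lit 3620) (.e (nat_lit 163975) (nat_lit 30) (.e (nat_lit 573481) (nat_lit 13) (.e (nat_lit 65619) (nat_lit 10) (.e (nat_lit 344117) (nat_lit 21) (.e (nat_lit 516160) (nat_lit 10) (.e (nat_lit 434209) (nat_lit 18) (.e (nat_lit 5546) (nat_lit 306) (.e (nat_lit 2599) (nat_lit 163) .nil)))))))) (.g (nat_lit 1) (.e (nat_lit 166052) (nat_lit 0) .nil) .nil))) 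
(.lf (nat_lit 499680) (.g (nat_lit 2582) (.e (nat_lit 163976) (nat_lit 30) (.e (nat_lit 573489) (nat_lit 14) (.e (nat_lit 73754) (nat_lit 8) (.e (nat_lit 557105) (nat_lit 14) (.e (nat_lit 180252) (nat_lit 10) .nil))))) (.g (nat_lit 0) (.e (nat_lit 167320) (nat_lit 0) .nil) .nil)))))))) (.nd (nat_lit 5) (.nd (nat_lit 6) (.nd (nat_lit 7) (.nd (nat_lit 8) (.nd (nat_lit 9) 
(.lf (nat_lit 498704) (.g (nat_lit 3063) (.e (nat_lit 163962) (nat_lit 25) (.e (nat_lit 532550) (nat_lit 12) (.e (nat_lit 360475) (nat_lit 8) (.e (nat_lit 557065) (nat_lit 9) (.e (nat_lit 304) (nat_lit 22) .nil))))) (.g (nat_lit 0) (.e (nat_lit 164880) (nat_lit 0) .nil) .nil))) 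
(.lf (nat_lit 499216) (.g (nat_lit 2678) (.e (nat_lit 163975) (nat_lit 30) (.e (nat_lit 573487) (nat_lit 14) (.e (nat_lit 73753) (nat_lit 8) (.e (nat_lit 557103) (nat_lit 14) (.e (nat_lit 180250) (nat_lit 10) (.e (nat_lit 573478) (nat_lit 12) (.e (nat_lit 57502) (nat_lit 38) (.e (nat_lit 638994) (nat_lit 7) .nil)))))))) (.g (nat_lit 1) (.e (nat_lit 166171) (nat_lit 0) .nil) .nil)))) 
(.nd (nat_lit 9) 
(.lf (nat_lit 498960) (.g (nat_lit 2540) (.e (nat_lit 163973) (nat_lit 30) (.e (nat_lit 573479) (nat_lit 13) (.e (nat_lit 65619) (nat_lit 10) (.e (nat_lit 344117) (nat_lit 21) (.e (nat_lit 516160) (nat_lit 10) (.e (nat_lit 434271) (nat_lit 38) (.e (nat_lit 655375) (nat_lit 3) .nil))))))) (.g (nat_lit 1) (.e (nat_lit 165647) (nat_lit 0) .nil) .nil))) 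
(.lf (nat_lit 499472) (.g (nat_lit 4579) (.e (nat_lit 163975) (nat_lit 30) (.e (nat_lit 573492) (nat_lit 15) (.e (nat_lit 81956) (nat_lit 23) (.e (nat_lit 98385) (nat_lit 32) (.e (nat_lit 475198) (nat_lit 40) (.e (nat_lit 704589) (nat_lit 3) .nil)))))) (.g (nat_lit 1) (.e (nat_lit 166861) (nat_lit 0) .nil) .nil))))) (.nd (nat_lit 8) (.nd (nat_lit 9) 
(.lf (nat_lit 498832) (.g (nat_lit 2326) (.e (nat_lit 163963) (nat_lit 25) (.e (nat_lit 532513) (nat_lit 3) (.e (nat_lit 114718) (nat_lit 23) (.e (nat_lit 98356) (nat_lit 26) (.e (nat_lit 426438) (nat_lit 18) (.e (nat_lit 98335) (nat_lit 18) (.e (nat_lit 164305) (nat_lit 226) (.e (nat_lit 2612) (nat_lit 163) .nil)))))))) (.g (nat_lit 1) (.e (nat_lit 165229) (nat_lit 0) .nil) .nil))) 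
(.lf (nat_lit 499344) (.g (nat_lit 514) (.e (nat_lit 163975) (nat_lit 30) (.e (nat_lit 573492) (nat_lit 15) (.e (nat_lit 81951) (nat_lit 22) .nil))) (.g (nat_lit 0) (.e (nat_lit 166501) (nat_lit 0) .nil) .nil)))) (.nd (nat_lit 9) 
(.lf (nat_lit 499088) (.g (nat_lit 2929) (.e (nat_lit 163975) (nat_lit 30) (.e (nat_lit 573481) (nat_lit 13) (.e (nat_lit 65604) (nat_lit 9) (.e (nat_lit 336028) (nat_lit 3) (.e (nat_lit 98386) (nat_lit 32) (.e (nat_lit 475196) (nat_lit 40) (.e (nat_lit 704589) (nat_lit 3) .nil))))))) (.g (nat_lit 1) (.e (nat_lit 165963) (nat_lit 0) .nil) .nil))) 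
(.lf (nat_lit 499600) (.g (nat_lit 3708) (.e (nat_lit 163976) (nat_lit 30) (.e (nat_lit 573481) (nat_lit 13) (.e (nat_lit 65619) (nat_lit 10) (.e (nat_lit 344117) (nat_lit 21) (.e (nat_lit 516151) (nat_lit 9) (.e (nat_lit 426097) (nat_lit 1) (.e (nat_lit 164347) (nat_lit 240) (.e (nat_lit 2601) (nat_lit 163) .nil)))))))) (.g (nat_lit 1) (.e (nat_lit 167114) (nat_lit 0) .nil) .nil)))))) 
(.nd (nat_lit 7) (.nd (nat_lit 8) (.nd (nat_lit 9) 
(.lf (nat_lit 498768) (.g (nat_lit 1906) (.e (nat_lit 163962) (nat_lit 25) (.e (nat_lit 532560) (nat_lit 14) (.e (nat_lit 376869) (nat_lit 23) (.e (nat_lit 98353) (nat_lit 25) (.e (nat_lit 417820) (nat_lit 10) (.e (nat_lit 5761) (nat_lit 315) .nil)))))) (.g (nat_lit 1) (.e (nat_lit 165005) (nat_lit 0) .nil) .nil))) 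
(.lf (nat_lit 499280) (.g (nat_lit 2258) (.e (nat_lit 163975) (nat_lit 30) (.e (nat_lit 573491) (nat_lit 15) (.e (nat_lit 81954) (nat_lit 23) (.e (nat_lit 98356) (nat_lit 26) (.e (nat_lit 426402) (nat_lit 15) .nil))))) (.g (nat_lit 0) (.e (nat_lit 166384) (nat_lit 0) .nil) .nil)))) (.nd (nat_lit 9) 
(.lf (nat_lit 499024) (.g (nat_lit 4486) (.e (nat_lit 163974) (nat_lit 30) (.e (nat_lit 573493) (nat_lit 15) (.e (nat_lit 81956) (nat_lit 23) (.e (nat_lit 98356) (nat_lit 26) .nil)))) (.g (nat_lit 0) (.e (nat_lit 165798) (nat_lit 0) .nil) .nil))) 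
(.lf (nat_lit 499536) (.g (nat_lit 2193) (.e (nat_lit 163976) (nat_lit 30) (.e (nat_lit 573481) (nat_lit 13) (.e (nat_lit 65604) (nat_lit 9) (.e (nat_lit 336028) (nat_lit 3) (.e (nat_lit 98361) (nat_lit 26) .nil))))) (.g (nat_lit 0) (.e (nat_lit 167037) (nat_lit 0) .nil) .nil))))) (.nd (nat_lit 8) (.nd (nat_lit 9) 
(.lf (nat_lit 498896) (.g (nat_lit 3885) (.e (nat_lit 163964) (nat_lit 25) (.e (nat_lit 532503) (nat_lit 1) (.e (nat_lit 57931) (nat_lit 282) (.e (nat_lit 163869) (nat_lit 2) (.e (nat_lit 196670) (nat_lit 14) (.e (nat_lit 73746) (nat_lit 3) (.e (nat_lit 516126) (nat_lit 2) (.e (nat_lit 213035) (nat_lit 12) .nil)))))))) (.g (nat_lit 1) (.e (nat_lit 165424) (nat_lit 0) .nil) .nil))) 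
(.lf (nat_lit 499408) (.g (nat_lit 3086) (.e (nat_lit 163975) (nat_lit 30) (.e (nat_lit 573492) (nat_lit 15) (.e (nat_lit 81956) (nat_lit 23) (.e (nat_lit 98356) (nat_lit 26) (.e (nat_lit 426399) (nat_lit 15) (.e (nat_lit 2056) (nat_lit 142) (.e (nat_lit 704589) (nat_lit 3) .nil))))))) (.g (nat_lit 1) (.e (nat_lit 166720) (nat_lit 0) .nil) .nil)))) (.nd (nat_lit 9) 
(.lf (nat_lit 499152) (.g (nat_lit 5985) (.e (nat_lit 163975) (nat_lit 30) (.e (nat_lit 573481) (nat_lit 13) (.e (nat_lit 65619) (nat_lit 10) (.e (nat_lit 344117) (nat_lit 21) (.e (nat_lit 516151) (nat_lit 9) (.e (nat_lit 426412) (nat_lit 15) (.e (nat_lit 2059) (nat_lit 142) (.e (nat_lit 704589) (nat_lit 3) .nil)))))))) (.g (nat_lit 1) (.e (nat_lit 166034) (nat_lit 0) .nil) .nil))) 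
(.lf (nat_lit 499664) (.g (nat_lit 2110) (.e (nat_lit 163976) (nat_lit 30) (.e (nat_lit 573488) (nat_lit 14) (.e (nat_lit 73755) (nat_lit 8) (.e (nat_lit 557103) (nat_lit 14) (.e (nat_lit 180250) (nat_lit 10) .nil))))) (.g (nat_lit 0) (.e (nat_lit 167289) (nat_lit 0) .nil) .nil))))))) (.nd (nat_lit 6) (.nd (nat_lit 7) (.nd (nat_lit 8) (.nd (nat_lit 9) 
(.lf (nat_lit 498736) (.g (nat_lit 2636) (.e (nat_lit 163962) (nat_lit 25) (.e (nat_lit 532550) (nat_lit 12) (.e (nat_lit 360475) (nat_lit 8) (.e (nat_lit 557087) (nat_lit 11) (.e (nat_lit 24589) (nat_lit 0) .nil))))) (.g (nat_lit 0) (.e (nat_lit 164934) (nat_lit 0) .nil) .nil))) 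
(.lf (nat_lit 499248) (.g (nat_lit 2783) (.e (nat_lit 163975) (nat_lit 30) (.e (nat_lit 573491) (nat_lit 15) (.e (nat_lit 81951) (nat_lit 22) (.e (nat_lit 90170) (nat_lit 13) (.e (nat_lit 172137) (nat_lit 15) .nil))))) (.g (nat_lit 0) (.e (nat_lit 166326) (nat_lit 0) .nil) .nil)))) (.nd (nat_lit 9) 
(.lf (nat_lit 498992) (.g (nat_lit 4854) (.e (nat_lit 163973) (nat_lit 30) (.e (nat_lit 573492) (nat_lit 15) (.e (nat_lit 81956) (nat_lit 23) (.e (nat_lit 98367) (nat_lit 27) (.e (nat_lit 434272) (nat_lit 38) (.e (nat_lit 655375) (nat_lit 3) .nil)))))) (.g (nat_lit 1) (.e (nat_lit 165733) (nat_lit 0) .nil) .nil))) 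
(.lf (nat_lit 499504) (.g (nat_lit 1105) (.e (nat_lit 163976) (nat_lit 30) (.e (nat_lit 573474) (nat_lit 12) (.e (nat_lit 57544) (nat_lit 47) .nil))) (.g (nat_lit 0) (.e (nat_lit 166939) (nat_lit 0) .nil) .nil))))) (.nd (nat_lit 8) (.nd (nat_lit 9) 
(.lf (nat_lit 498864) (.g (nat_lit 3101) (.e (nat_lit 163964) (nat_lit 25) (.e (nat_lit 532501) (nat_lit 1) (.e (nat_lit 57926) (nat_lit 282) (.e (nat_lit 163869) (nat_lit 2) (.e (nat_lit 196670) (nat_lit 14) (.e (nat_lit 73746) (nat_lit 3) (.e (nat_lit 516126) (nat_lit 2) (.e (nat_lit 213033) (nat_lit 12) .nil)))))))) (.g (nat_lit 1) (.e (nat_lit 165369) (nat_lit 0) .nil) .nil))) 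
(.lf (nat_lit 499376) (.g (nat_lit 2925) (.e (nat_lit 163975) (nat_lit 30) (.e (nat_lit 573492) (nat_lit 15) (.e (nat_lit 81956) (nat_lit 23) (.e (nat_lit 98355) (nat_lit 26) (.e (nat_lit 426444) (nat_lit 19) (.e (nat_lit 114432) (nat_lit 3) .nil)))))) (.g (nat_lit 1) (.e (nat_lit 166683) (nat_lit 0) .nil) .nil)))) (.nd (nat_lit 9) 
(.lf (nat_lit 499120) (.g (nat_lit 3717) (.e (nat_lit 163975) (nat_lit 30) (.e (nat_lit 573481) (nat_lit 13) (.e (nat_lit 65619) (nat_lit 10) (.e (nat_lit 344117) (nat_lit 21) (.e (nat_lit 516145) (nat_lit 9) (.e (nat_lit 426374) (nat_lit 15) (.e (nat_lit 2056) (nat_lit 142) (.e (nat_lit 704589) (nat_lit 3) .nil)))))))) (.g (nat_lit 1) (.e (nat_lit 166001) (nat_lit 0) .nil) .nil))) 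
(.lf (nat_lit 499632) (.g (nat_lit 2912) (.e (nat_lit 163976) (nat_lit 30) (.e (nat_lit 573481) (nat_lit 13) (.e (nat_lit 65619) (nat_lit 10) (.e (nat_lit 344117) (nat_lit 21) (.e (nat_lit 516180) (nat_lit 15) (.e (nat_lit 475205) (nat_lit 40) (.e (nat_lit 704588) (nat_lit 3) .nil))))))) (.g (nat_lit 1) (.e (nat_lit 167162) (nat_lit 0) .nil) .nil)))))) 
(.nd (nat_lit 7) (.nd (nat_lit 8) (.nd (nat_lit 9) 
(.lf (nat_lit 498800) (.g (nat_lit 4188) (.e (nat_lit 163963) (nat_lit 25) (.e (nat_lit 532499) (nat_lit 1) (.e (nat_lit 57927) (nat_lit 282) (.e (nat_lit 163869) (nat_lit 2) (.e (nat_lit 196670) (nat_lit 14) (.e (nat_lit 73746) (nat_lit 3) (.e (nat_lit 516124) (nat_lit 2) (.e (nat_lit 213035) (nat_lit 12) .nil)))))))) (.g (nat_lit 1) (.e (nat_lit 165158) (nat_lit 0) .nil) .nil))) 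
(.lf (nat_lit 499312) (.g (nat_lit 2903) (.e (nat_lit 163975) (nat_lit 30) (.e (nat_lit 573491) (nat_lit 15) (.e (nat_lit 81954) (nat_lit 23) (.e (nat_lit 98383) (nat_lit 32) (.e (nat_lit 475199) (nat_lit 40) (.e (nat_lit 704589) (nat_lit 3) .nil)))))) (.g (nat_lit 1) (.e (nat_lit 166452) (nat_lit 0) .nil) .nil)))) (.nd (nat_lit 9) 
(.lf (nat_lit 499056) (.g (nat_lit 3723) (.e (nat_lit 163975) (nat_lit 30) (.e (nat_lit 573481) (nat_lit 13) (.e (nat_lit 65604) (nat_lit 9) (.e (nat_lit 336013) (nat_lit 2) (.e (nat_lit 90170) (nat_lit 13) (.e (nat_lit 172061) (nat_lit 1) (.e (nat_lit 164345) (nat_lit 240) (.e (nat_lit 2600) (nat_lit 163) .nil)))))))) (.g (nat_lit 1) (.e (nat_lit 165891) (nat_lit 0) .nil) .nil))) 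
(.lf (nat_lit 499568) (.g (nat_lit 3099) (.e (nat_lit 163976) (nat_lit 30) (.e (nat_lit 573481) (nat_lit 13) (.e (nat_lit 65619) (nat_lit 10) (.e (nat_lit 344117) (nat_lit 21) (.e (nat_lit 516144) (nat_lit 9) (.e (nat_lit 426393) (nat_lit 15) (.e (nat_lit 2056) (nat_lit 142) (.e (nat_lit 704589) (nat_lit 3) .nil)))))))) (.g (nat_lit 1) (.e (nat_lit 167081) (nat_lit 0) .nil) .nil))))) 
(.nd (nat_lit 8) (.nd (nat_lit 9) 
(.lf (nat_lit 498928) (.g (nat_lit 2220) (.e (nat_lit 163964) (nat_lit 25) (.e (nat_lit 532553) (nat_lit 13) (.e (nat_lit 368676) (nat_lit 21) (.e (nat_lit 516131) (nat_lit 3) (.e (nat_lit 221212) (nat_lit 22) (.e (nat_lit 196659) (nat_lit 12) (.e (nat_lit 57507) (nat_lit 39) (.e (nat_lit 647181) (nat_lit 3) .nil)))))))) (.g (nat_lit 1) (.e (nat_lit 165536) (nat_lit 0) .nil) .nil))) 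
(.lf (nat_lit 499440) (.g (nat_lit 5408) (.e (nat_lit 163975) (nat_lit 30) (.e (nat_lit 573492) (nat_lit 15) (.e (nat_lit 81956) (nat_lit 23) (.e (nat_lit 98363) (nat_lit 26) (.e (nat_lit 426419) (nat_lit 15) (.e (nat_lit 2059) (nat_lit 142) (.e (nat_lit 704589) (nat_lit 3) .nil))))))) (.g (nat_lit 1) (.e (nat_lit 166789) (nat_lit 0) .nil) .nil)))) (.nd (nat_lit 9) 
(.lf (nat_lit 499184) (.g (nat_lit 3870) (.e (nat_lit 163975) (nat_lit 30) (.e (nat_lit 573481) (nat_lit 13) (.e (nat_lit 65619) (nat_lit 10) (.e (nat_lit 344117) (nat_lit 21) (.e (nat_lit 516180) (nat_lit 15) (.e (nat_lit 475197) (nat_lit 40) (.e (nat_lit 704589) (nat_lit 3) .nil))))))) (.g (nat_lit 1) (.e (nat_lit 166082) (nat_lit 0) .nil) .nil))) 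
(.lf (nat_lit 499696) (.g (nat_lit 1358) (.e (nat_lit 163976) (nat_lit 30) (.e (nat_lit 573491) (nat_lit 15) (.e (nat_lit 81941) (nat_lit 20) (.e (nat_lit 1788) (nat_lit 119) (.e (nat_lit 516181) (nat_lit 15) .nil))))) (.g (nat_lit 0) (.e (nat_lit 167346) (nat_lit 0) .nil) .nil))))))))) (.nd (nat_lit 4) (.nd (nat_lit 5) (.nd (nat_lit 6) (.nd (nat_lit 7) (.nd (nat_lit 8) (.nd (nat_lit 9) 
(.lf (nat_lit 498696) (.g (nat_lit 1060) (.e (nat_lit 163962) (nat_lit 25) (.e (nat_lit 532550) (nat_lit 12) (.e (nat_lit 360474) (nat_lit 8) (.e (nat_lit 557073) (nat_lit 9) .nil)))) (.g (nat_lit 0) (.e (nat_lit 164868) (nat_lit 0) .nil) .nil))) 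
(.lf (nat_lit 499208) (.g (nat_lit 2821) (.e (nat_lit 163975) (nat_lit 30) (.e (nat_lit 573482) (nat_lit 13) (.e (nat_lit 65619) (nat_lit 10) (.e (nat_lit 344117) (nat_lit 21) (.e (nat_lit 516151) (nat_lit 9) .nil))))) (.g (nat_lit 0) (.e (nat_lit 166113) (nat_lit 0) .nil) .nil)))) (.nd (nat_lit 9) 
(.lf (nat_lit 498952) (.g (nat_lit 3526) (.e (nat_lit 163959) (nat_lit 24) (.e (nat_lit 524320) (nat_lit 12) (.e (nat_lit 450579) (nat_lit 5) (.e (nat_lit 532534) (nat_lit 9) (.e (nat_lit 336240) (nat_lit 15) (.e (nat_lit 3605) (nat_lit 225) (.e (nat_lit 761898) (nat_lit 15) .nil))))))) (.g (nat_lit 1) (.e (nat_lit 165624) (nat_lit 0) .nil) .nil))) 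
(.lf (nat_lit 499464) (.g (nat_lit 4702) (.e (nat_lit 163975) (nat_lit 30) (.e (nat_lit 573492) (nat_lit 15) (.e (nat_lit 81956) (nat_lit 23) (.e (nat_lit 98384) (nat_lit 32) (.e (nat_lit 475199) (nat_lit 40) (.e (nat_lit 704589) (nat_lit 3) .nil)))))) (.g (nat_lit 1) (.e (nat_lit 166853) (nat_lit 0) .nil) .nil))))) (.nd (nat_lit 8) (.nd (nat_lit 9) 
(.lf (nat_lit 498824) (.g (nat_lit 2225) (.e (nat_lit 163963) (nat_lit 25) (.e (nat_lit 532504) (nat_lit 1) (.e (nat_lit 57929) (nat_lit 282) (.e (nat_lit 163869) (nat_lit 2) (.e (nat_lit 196670) (nat_lit 14) .nil))))) (.g (nat_lit 0) (.e (nat_lit 165203) (nat_lit 0) .nil) .nil))) 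
(.lf (nat_lit 499336) (.g (nat_lit 1793) (.e (nat_lit 163975) (nat_lit 30) (.e (nat_lit 573491) (nat_lit 15) (.e (nat_lit 81956) (nat_lit 23) (.e (nat_lit 98383) (nat_lit 32) .nil)))) (.g (nat_lit 0) (.e (nat_lit 166476) (nat_lit 0) .nil) .nil)))) (.nd (nat_lit 9) 
(.lf (nat_lit 499080) (.g (nat_lit 1863) (.e (nat_lit 163975) (nat_lit 30) (.e (nat_lit 573481) (nat_lit 13) (.e (nat_lit 65604) (nat_lit 9) (.e (nat_lit 336028) (nat_lit 3) (.e (nat_lit 106240) (nat_lit 26) (.e (nat_lit 426443) (nat_lit 19) (.e (nat_lit 114432) (nat_lit 3) .nil))))))) (.g (nat_lit 1) (.e (nat_lit 165947) (nat_lit 0) .nil) .nil))) 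
(.lf (nat_lit 499592) (.g (nat_lit 3778) (.e (nat_lit 163976) (nat_lit 30) (.e (nat_lit 573481) (nat_lit 13) (.e (nat_lit 65619) (nat_lit 10) (.e (nat_lit 344117) (nat_lit 21) (.e (nat_lit 516151) (nat_lit 9) (.e (nat_lit 426042) (nat_lit 0) (.e (nat_lit 2458) (nat_lit 157) (.e (nat_lit 5547) (nat_lit 306) (.e (nat_lit 2599) (nat_lit 163) .nil))))))))) (.g (nat_lit 1) (.e (nat_lit 167105) (nat_lit 0) .nil) .nil)))))) 
(.nd (nat_lit 7) (.nd (nat_lit 8) (.nd (nat_lit 9) 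
(.lf (nat_lit 498760) (.g (nat_lit 2890) (.e (nat_lit 163962) (nat_lit 25) (.e (nat_lit 532559) (nat_lit 14) (.e (nat_lit 376869) (nat_lit 23) (.e (nat_lit 98350) (nat_lit 24) (.e (nat_lit 409617) (nat_lit 10) (.e (nat_lit 7936) (nat_lit 315) .nil)))))) (.g (nat_lit 1) (.e (nat_lit 164985) (nat_lit 0) .nil) .nil))) 
(.lf (nat_lit 499272) (.g (nat_lit 2173) (.e (nat_lit 163975) (nat_lit 30) (.e (nat_lit 573491) (nat_lit 15) (.e (nat_lit 81954) (nat_lit 23) (.e (nat_lit 98356) (nat_lit 26) (.e (nat_lit 426379) (nat_lit 15) (.e (nat_lit 2056) (nat_lit 142) (.e (nat_lit 704589) (nat_lit 3) .nil))))))) (.g (nat_lit 1) (.e (nat_lit 166376) (nat_lit 0) .nil) .nil)))) (.nd (nat_lit 9) 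
(.lf (nat_lit 499016) (.g (nat_lit 4076) (.e (nat_lit 163974) (nat_lit 30) (.e (nat_lit 573492) (nat_lit 15) (.e (nat_lit 81956) (nat_lit 23) (.e (nat_lit 98355) (nat_lit 26) .nil)))) (.g (nat_lit 0) (.e (nat_lit 165779) (nat_lit 0) .nil) .nil))) 
(.lf (nat_lit 499528) (.g (nat_lit 3398) (.e (nat_lit 163976) (nat_lit 30) (.e (nat_lit 573481) (nat_lit 13) (.e (nat_lit 65604) (nat_lit 9) (.e (nat_lit 336013) (nat_lit 2) (.e (nat_lit 90170) (nat_lit 13) (.e (nat_lit 172061) (nat_lit 1) (.e (nat_lit 164345) (nat_lit 240) (.e (nat_lit 2601) (nat_lit 163) .nil)))))))) (.g (nat_lit 1) (.e (nat_lit 166986) (nat_lit 0) .nil) .nil))))) 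
(.nd (nat_lit 8) (.nd (nat_lit 9) 
(.lf (nat_lit 498888) (.g (nat_lit 2806) (.e (nat_lit 163964) (nat_lit 25) (.e (nat_lit 532501) (nat_lit 1) (.e (nat_lit 57928) (nat_lit 282) (.e (nat_lit 163871) (nat_lit 2) (.e (nat_lit 196670) (nat_lit 14) (.e (nat_lit 73746) (nat_lit 3) (.e (nat_lit 516124) (nat_lit 2) (.e (nat_lit 213035) (nat_lit 12) .nil)))))))) (.g (nat_lit 1) (.e (nat_lit 165408) (nat_lit 0) .nil) .nil))) 
(.lf (nat_lit 499400) (.g (nat_lit 3239) (.e (nat_lit 163975) (nat_lit 30) (.e (nat_lit 573492) (nat_lit 15) (.e (nat_lit 81956) (nat_lit 23) (.e (nat_lit 98356) (nat_lit 26) (.e (nat_lit 426376) (nat_lit 15) .nil))))) (.g (nat_lit 0) (.e (nat_lit 166712) (nat_lit 0) .nil) .nil)))) (.nd (nat_lit 9) 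
(.lf (nat_lit 499144) (.g (nat_lit 3378) (.e (nat_lit 163975) (nat_lit 30) (.e (nat_lit 573481) (nat_lit 13) (.e (nat_lit 65619) (nat_lit 10) (.e (nat_lit 344117) (nat_lit 21) (.e (nat_lit 516151) (nat_lit 9) (.e (nat_lit 426097) (nat_lit 1) (.e (nat_lit 164348) (nat_lit 240) (.e (nat_lit 2599) (nat_lit 163) .nil)))))))) (.g (nat_lit 1) (.e (nat_lit 166025) (nat_lit 0) .nil) .nil))) 
(.lf (nat_lit 499656) (.g (nat_lit 3224) (.e (nat_lit 163976) (nat_lit 30) (.e (nat_lit 573487) (nat_lit 14) (.e (nat_lit 73753) (nat_lit 8) (.e (nat_lit 557105) (nat_lit 14) (.e (nat_lit 180252) (nat_lit 10) (.e (nat_lit 573473) (nat_lit 12) (.e (nat_lit 57504) (nat_lit 38) (.e (nat_lit 638994) (nat_lit 7) .nil)))))))) (.g (nat_lit 1) (.e (nat_lit 167249) (nat_lit 0) .nil) .nil))))))) 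
(.nd (nat_lit 6) (.nd (nat_lit 7) (.nd (nat_lit 8) (.nd (nat_lit 9) 
(.lf (nat_lit 498728) (.g (nat_lit 3513) (.e (nat_lit 163962) (nat_lit 25) (.e (nat_lit 532550) (nat_lit 12) (.e (nat_lit 360475) (nat_lit 8) (.e (nat_lit 557085) (nat_lit 11) (.e (nat_lit 24579) (nat_lit 0) .nil))))) (.g (nat_lit 0) (.e (nat_lit 164926) (nat_lit 0) .nil) .nil))) 
(.lf (nat_lit 499240) (.g (nat_lit 3003) (.e (nat_lit 163975) (nat_lit 30) (.e (nat_lit 573489) (nat_lit 14) (.e (nat_lit 73755) (nat_lit 8) (.e (nat_lit 557105) (nat_lit 14) (.e (nat_lit 180252) (nat_lit 10) (.e (nat_lit 573474) (nat_lit 12) (.e (nat_lit 57503) (nat_lit 38) (.e (nat_lit 638994) (nat_lit 7) .nil)))))))) (.g (nat_lit 1) (.e (nat_lit 166267) (nat_lit 0) .nil) .nil)))) 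
(.nd (nat_lit 9) 
(.lf (nat_lit 498984) (.g (nat_lit 4146) (.e (nat_lit 163973) (nat_lit 30) (.e (nat_lit 573492) (nat_lit 15) (.e (nat_lit 81956) (nat_lit 23) (.e (nat_lit 98366) (nat_lit 27) (.e (nat_lit 434271) (nat_lit 38) (.e (nat_lit 655373) (nat_lit 3) .nil)))))) (.g (nat_lit 1) (.e (nat_lit 165725) (nat_lit 0) .nil) .nil))) 
(.lf (nat_lit 499496) (.g (nat_lit 4359) (.e (nat_lit 163975) (nat_lit 30) (.e (nat_lit 573493) (nat_lit 15) (.e (nat_lit 81956) (nat_lit 23) (.e (nat_lit 98384) (nat_lit 32) .nil)))) (.g (nat_lit 0) (.e (nat_lit 166905) (nat_lit 0) .nil) .nil))))) (.nd (nat_lit 8) (.nd (nat_lit 9) 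
(.lf (nat_lit 498856) (.g (nat_lit 2873) (.e (nat_lit 163964) (nat_lit 25) (.e (nat_lit 532499) (nat_lit 1) (.e (nat_lit 57931) (nat_lit 282) (.e (nat_lit 163869) (nat_lit 2) (.e (nat_lit 196670) (nat_lit 14) (.e (nat_lit 73746) (nat_lit 3) (.e (nat_lit 516124) (nat_lit 2) (.e (nat_lit 213033) (nat_lit 12) .nil)))))))) (.g (nat_lit 1) (.e (nat_lit 165350) (nat_lit 0) .nil) .nil))) 
(.lf (nat_lit 499368) (.g (nat_lit 3305) (.e (nat_lit 163975) (nat_lit 30) (.e (nat_lit 573492) (nat_lit 15) (.e (nat_lit 81954) (nat_lit 23) (.e (nat_lit 98384) (nat_lit 32) (.e (nat_lit 475198) (nat_lit 40) (.e (nat_lit 704590) (nat_lit 3) .nil)))))) (.g (nat_lit 1) (.e (nat_lit 166652) (nat_lit 0) .nil) .nil)))) (.nd (nat_lit 9) 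
(.lf (nat_lit 499112) (.g (nat_lit 2518) (.e (nat_lit 163975) (nat_lit 30) (.e (nat_lit 573481) (nat_lit 13) (.e (nat_lit 65619) (nat_lit 10) (.e (nat_lit 344117) (nat_lit 21) (.e (nat_lit 516144) (nat_lit 9) (.e (nat_lit 426405) (nat_lit 15) (.e (nat_lit 2056) (nat_lit 142) (.e (nat_lit 704589) (nat_lit 3) .nil)))))))) (.g (nat_lit 1) (.e (nat_lit 165993) (nat_lit 0) .nil) .nil))) 
(.lf (nat_lit 499624) (.g (nat_lit 3974) (.e (nat_lit 163976) (nat_lit 30) (.e (nat_lit 573481) (nat_lit 13) (.e (nat_lit 65619) (nat_lit 10) (.e (nat_lit 344117) (nat_lit 21) (.e (nat_lit 516160) (nat_lit 10) (.e (nat_lit 434271) (nat_lit 38) (.e (nat_lit 655373) (nat_lit 3) .nil))))))) (.g (nat_lit 1) (.e (nat_lit 167142) (nat_lit 0) .nil) .nil)))))) 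
(.nd (nat_lit 7) (.nd (nat_lit 8) (.nd (nat_lit 9) 
(.lf (nat_lit 498792) (.g (nat_lit 2526) (.e (nat_lit 163963) (nat_lit 25) (.e (nat_lit 532499) (nat_lit 1) (.e (nat_lit 57926) (nat_lit 282) (.e (nat_lit 163875) (nat_lit 3) (.e (nat_lit 204862) (nat_lit 27) .nil))))) (.g (nat_lit 0) (.e (nat_lit 165138) (nat_lit 0) .nil) .nil))) 
(.lf (nat_lit 499304) (.g (nat_lit 1212) (.e (nat_lit 163975) (nat_lit 30) (.e (nat_lit 573491) (nat_lit 15) (.e (nat_lit 81954) (nat_lit 23) (.e (nat_lit 106240) (nat_lit 26) .nil)))) (.g (nat_lit 0) (.e (nat_lit 166431) (nat_lit 0) .nil) .nil)))) (.nd (nat_lit 9) 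
(.lf (nat_lit 499048) (.g (nat_lit 3860) (.e (nat_lit 163975) (nat_lit 30) (.e (nat_lit 573481) (nat_lit 13) (.e (nat_lit 65604) (nat_lit 9) (.e (nat_lit 336013) (nat_lit 2) (.e (nat_lit 90170) (nat_lit 13) (.e (nat_lit 172049) (nat_lit 0) (.e (nat_lit 3409) (nat_lit 212) (.e (nat_lit 655373) (nat_lit 3) .nil)))))))) (.g (nat_lit 1) (.e (nat_lit 165883) (nat_lit 0) .nil) .nil))) 
(.lf (nat_lit 499560) (.g (nat_lit 2286) (.e (nat_lit 163976) (nat_lit 30) (.e (nat_lit 573481) (nat_lit 13) (.e (nat_lit 65619) (nat_lit 10) (.e (nat_lit 344117) (nat_lit 21) (.e (nat_lit 516144) (nat_lit 9) .nil))))) (.g (nat_lit 0) (.e (nat_lit 167073) (nat_lit 0) .nil) .nil))))) (.nd (nat_lit 8) (.nd (nat_lit 9) 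
(.lf (nat_lit 498920) (.g (nat_lit 2906) (.e (nat_lit 163964) (nat_lit 25) (.e (nat_lit 532534) (nat_lit 9) (.e (nat_lit 336019) (nat_lit 3) (.e (nat_lit 98342) (nat_lit 20) (.e (nat_lit 221210) (nat_lit 22) (.e (nat_lit 196660) (nat_lit 12) (.e (nat_lit 57507) (nat_lit 39) (.e (nat_lit 647181) (nat_lit 3) .nil)))))))) (.g (nat_lit 1) (.e (nat_lit 165513) (nat_lit 0) .nil) .nil))) 
(.lf (nat_lit 499432) (.g (nat_lit 4432) (.e (nat_lit 163975) (nat_lit 30) (.e (nat_lit 573492) (nat_lit 15) (.e (nat_lit 81956) (nat_lit 23) (.e (nat_lit 98359) (nat_lit 26) (.e (nat_lit 426412) (nat_lit 15) (.e (nat_lit 2058) (nat_lit 142) (.e (nat_lit 704589) (nat_lit 3) .nil))))))) (.g (nat_lit 1) (.e (nat_lit 166775) (nat_lit 0) .nil) .nil)))) (.nd (nat_lit 9) 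
(.lf (nat_lit 499176) (.g (nat_lit 2981) (.e (nat_lit 163975) (nat_lit 30) (.e (nat_lit 573481) (nat_lit 13) (.e (nat_lit 65619) (nat_lit 10) (.e (nat_lit 344117) (nat_lit 21) (.e (nat_lit 516178) (nat_lit 15) (.e (nat_lit 475197) (nat_lit 40) (.e (nat_lit 704590) (nat_lit 3) .nil))))))) (.g (nat_lit 1) (.e (nat_lit 166074) (nat_lit 0) .nil) .nil))) 
(.lf (nat_lit 499688) (.g (nat_lit 2864) (.e (nat_lit 163976) (nat_lit 30) (.e (nat_lit 573489) (nat_lit 14) (.e (nat_lit 73755) (nat_lit 8) (.e (nat_lit 557105) (nat_lit 14) (.e (nat_lit 180251) (nat_lit 10) (.e (nat_lit 573475) (nat_lit 12) (.e (nat_lit 57503) (nat_lit 38) (.e (nat_lit 638994) (nat_lit 7) .nil)))))))) (.g (nat_lit 1) (.e (nat_lit 167328) (nat_lit 0) .nil) .nil)))))))) 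
(.nd (nat_lit 5) (.nd (nat_lit 6) (.nd (nat_lit 7) (.nd (nat_lit 8) (.nd (nat_lit 9) 
(.lf (nat_lit 498712) (.g (nat_lit 3623) (.e (nat_lit 163962) (nat_lit 25) (.e (nat_lit 532550) (nat_lit 12) (.e (nat_lit 360475) (nat_lit 8) (.e (nat_lit 557067) (nat_lit 9) (.e (nat_lit 288) (nat_lit 21) .nil))))) (.g (nat_lit 0) (.e (nat_lit 164892) (nat_lit 0) .nil) .nil))) 
(.lf (nat_lit 499224) (.g (nat_lit 2474) (.e (nat_lit 163975) (nat_lit 30) (.e (nat_lit 573488) (nat_lit 14) (.e (nat_lit 73754) (nat_lit 8) (.e (nat_lit 557105) (nat_lit 14) (.e (nat_lit 180251) (nat_lit 10) (.e (nat_lit 573475) (nat_lit 12) (.e (nat_lit 57503) (nat_lit 38) (.e (nat_lit 638994) (nat_lit 7) .nil)))))))) (.g (nat_lit 1) (.e (nat_lit 166194) (nat_lit 0) .nil) .nil)))) 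
(.nd (nat_lit 9) 
(.lf (nat_lit 498968) (.g (nat_lit 1372) (.e (nat_lit 163973) (nat_lit 30) (.e (nat_lit 573485) (nat_lit 13) (.e (nat_lit 65604) (nat_lit 9) (.e (nat_lit 336028) (nat_lit 3) .nil)))) (.g (nat_lit 0) (.e (nat_lit 165656) (nat_lit 0) .nil) .nil))) 
(.lf (nat_lit 499480) (.g (nat_lit 4603) (.e (nat_lit 163975) (nat_lit 30) (.e (nat_lit 573492) (nat_lit 15) (.e (nat_lit 81956) (nat_lit 23) (.e (nat_lit 98386) (nat_lit 32) (.e (nat_lit 475199) (nat_lit 40) (.e (nat_lit 704589) (nat_lit 3) .nil)))))) (.g (nat_lit 1) (.e (nat_lit 166869) (nat_lit 0) .nil) .nil))))) (.nd (nat_lit 8) (.nd (nat_lit 9) 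
(.lf (nat_lit 498840) (.g (nat_lit 4090) (.e (nat_lit 163963) (nat_lit 25) (.e (nat_lit 532550) (nat_lit 12) (.e (nat_lit 360474) (nat_lit 8) (.e (nat_lit 557073) (nat_lit 9) .nil)))) (.g (nat_lit 0) (.e (nat_lit 165298) (nat_lit 0) .nil) .nil))) 
(.lf (nat_lit 499352) (.g (nat_lit 3929) (.e (nat_lit 163975) (nat_lit 30) (.e (nat_lit 573492) (nat_lit 15) (.e (nat_lit 81953) (nat_lit 22) (.e (nat_lit 90167) (nat_lit 13) .nil)))) (.g (nat_lit 0) (.e (nat_lit 166561) (nat_lit 0) .nil) .nil)))) (.nd (nat_lit 9) 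
(.lf (nat_lit 499096) (.g (nat_lit 3730) (.e (nat_lit 163975) (nat_lit 30) (.e (nat_lit 573481) (nat_lit 13) (.e (nat_lit 65609) (nat_lit 10) (.e (nat_lit 344120) (nat_lit 21) (.e (nat_lit 516179) (nat_lit 15) (.e (nat_lit 475199) (nat_lit 40) (.e (nat_lit 704589) (nat_lit 3) .nil))))))) (.g (nat_lit 1) (.e (nat_lit 165971) (nat_lit 0) .nil) .nil))) 
(.lf (nat_lit 499608) (.g (nat_lit 2310) (.e (nat_lit 163976) (nat_lit 30) (.e (nat_lit 573481) (nat_lit 13) (.e (nat_lit 65619) (nat_lit 10) (.e (nat_lit 344117) (nat_lit 21) (.e (nat_lit 516152) (nat_lit 9) .nil))))) (.g (nat_lit 0) (.e (nat_lit 167123) (nat_lit 0) .nil) .nil)))))) (.nd (nat_lit 7) (.nd (nat_lit 8) (.nd (nat_lit 9) 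
(.lf (nat_lit 498776) (.g (nat_lit 3572) (.e (nat_lit 163962) (nat_lit 25) (.e (nat_lit 532569) (nat_lit 16) (.e (nat_lit 401448) (nat_lit 10) (.e (nat_lit 434232) (nat_lit 23) (.e (nat_lit 532523) (nat_lit 7) (.e (nat_lit 319504) (nat_lit 10) (.e (nat_lit 7936) (nat_lit 315) .nil))))))) (.g (nat_lit 1) (.e (nat_lit 165042) (nat_lit 0) .nil) .nil))) 
(.lf (nat_lit 499288) (.g (nat_lit 1062) (.e (nat_lit 163975) (nat_lit 30) (.e (nat_lit 573491) (nat_lit 15) (.e (nat_lit 81954) (nat_lit 23) (.e (nat_lit 98357) (nat_lit 26) .nil)))) (.g (nat_lit 0) (.e (nat_lit 166396) (nat_lit 0) .nil) .nil)))) (.nd (nat_lit 9) 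
(.lf (nat_lit 499032) (.g (nat_lit 961) (.e (nat_lit 163975) (nat_lit 30) (.e (nat_lit 573471) (nat_lit 11) (.e (nat_lit 16468) (nat_lit 13) .nil))) (.g (nat_lit 0) (.e (nat_lit 165834) (nat_lit 0) .nil) .nil))) 
(.lf (nat_lit 499544) (.g (nat_lit 2584) (.e (nat_lit 163976) (nat_lit 30) (.e (nat_lit 573481) (nat_lit 13) (.e (nat_lit 65604) (nat_lit 9) (.e (nat_lit 336028) (nat_lit 3) (.e (nat_lit 98386) (nat_lit 32) (.e (nat_lit 475196) (nat_lit 40) (.e (nat_lit 704589) (nat_lit 3) .nil))))))) (.g (nat_lit 1) (.e (nat_lit 167051) (nat_lit 0) .nil) .nil))))) (.nd (nat_lit 8) (.nd (nat_lit 9) 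
(.lf (nat_lit 498904) (.g (nat_lit 1960) (.e (nat_lit 163964) (nat_lit 25) (.e (nat_lit 532513) (nat_lit 3) (.e (nat_lit 114714) (nat_lit 22) (.e (nat_lit 90167) (nat_lit 13) (.e (nat_lit 172065) (nat_lit 3) .nil))))) (.g (nat_lit 0) (.e (nat_lit 165436) (nat_lit 0) .nil) .nil))) 
(.lf (nat_lit 499416) (.g (nat_lit 2909) (.e (nat_lit 163975) (nat_lit 30) (.e (nat_lit 573492) (nat_lit 15) (.e (nat_lit 81956) (nat_lit 23) (.e (nat_lit 98356) (nat_lit 26) (.e (nat_lit 426440) (nat_lit 19) (.e (nat_lit 114432) (nat_lit 3) .nil)))))) (.g (nat_lit 1) (.e (nat_lit 166728) (nat_lit 0) .nil) .nil)))) (.nd (nat_lit 9) 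
(.lf (nat_lit 499160) (.g (nat_lit 2635) (.e (nat_lit 163975) (nat_lit 30) (.e (nat_lit 573481) (nat_lit 13) (.e (nat_lit 65619) (nat_lit 10) (.e (nat_lit 344117) (nat_lit 21) (.e (nat_lit 516153) (nat_lit 9) .nil))))) (.g (nat_lit 0) (.e (nat_lit 166042) (nat_lit 0) .nil) .nil))) 
(.lf (nat_lit 499672) (.g (nat_lit 1846) (.e (nat_lit 163976) (nat_lit 30) (.e (nat_lit 573488) (nat_lit 14) (.e (nat_lit 73755) (nat_lit 8) (.e (nat_lit 557104) (nat_lit 14) (.e (nat_lit 180245) (nat_lit 5) .nil))))) (.g (nat_lit 0) (.e (nat_lit 167302) (nat_lit 0) .nil) .nil))))))) (.nd (nat_lit 6) (.nd (nat_lit 7) (.nd (nat_lit 8) (.nd (nat_lit 9) 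
(.lf (nat_lit 498744) (.g (nat_lit 2953) (.e (nat_lit 163962) (nat_lit 25) (.e (nat_lit 532550) (nat_lit 12) (.e (nat_lit 360475) (nat_lit 8) (.e (nat_lit 557091) (nat_lit 12) .nil)))) (.g (nat_lit 0) (.e (nat_lit 164944) (nat_lit 0) .nil) .nil))) 
(.lf (nat_lit 499256) (.g (nat_lit 2533) (.e (nat_lit 163975) (nat_lit 30) (.e (nat_lit 573491) (nat_lit 15) (.e (nat_lit 81954) (nat_lit 23) (.e (nat_lit 98356) (nat_lit 26) (.e (nat_lit 426350) (nat_lit 15) .nil))))) (.g (nat_lit 0) (.e (nat_lit 166360) (nat_lit 0) .nil) .nil)))) (.nd (nat_lit 9) 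
(.lf (nat_lit 499000) (.g (nat_lit 1377) (.e (nat_lit 163974) (nat_lit 30) (.e (nat_lit 573482) (nat_lit 13) (.e (nat_lit 65604) (nat_lit 9) (.e (nat_lit 336028) (nat_lit 3) .nil)))) (.g (nat_lit 0) (.e (nat_lit 165755) (nat_lit 0) .nil) .nil))) 
(.lf (nat_lit 499512) (.g (nat_lit 3234) (.e (nat_lit 163976) (nat_lit 30) (.e (nat_lit 573481) (nat_lit 13) (.e (nat_lit 65604) (nat_lit 9) (.e (nat_lit 336013) (nat_lit 2) (.e (nat_lit 90170) (nat_lit 13) (.e (nat_lit 172032) (nat_lit 0) (.e (nat_lit 3397) (nat_lit 211) (.e (nat_lit 647180) (nat_lit 3) .nil)))))))) (.g (nat_lit 1) (.e (nat_lit 166962) (nat_lit 0) .nil) .nil))))) 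
(.nd (nat_lit 8) (.nd (nat_lit 9) 
(.lf (nat_lit 498872) (.g (nat_lit 2593) (.e (nat_lit 163964) (nat_lit 25) (.e (nat_lit 532501) (nat_lit 1) (.e (nat_lit 57926) (nat_lit 282) (.e (nat_lit 163875) (nat_lit 3) (.e (nat_lit 204862) (nat_lit 27) (.e (nat_lit 344117) (nat_lit 21) (.e (nat_lit 516123) (nat_lit 2) (.e (nat_lit 213033) (nat_lit 12) .nil)))))))) (.g (nat_lit 1) (.e (nat_lit 165380) (nat_lit 0) .nil) .nil))) 
(.lf (nat_lit 499384) (.g (nat_lit 3171) (.e (nat_lit 163975) (nat_lit 30) (.e (nat_lit 573492) (nat_lit 15) (.e (nat_lit 81956) (nat_lit 23) (.e (nat_lit 98356) (nat_lit 26) (.e (nat_lit 426360) (nat_lit 15) (.e (nat_lit 2049) (nat_lit 142) (.e (nat_lit 704589) (nat_lit 3) .nil))))))) (.g (nat_lit 1) (.e (nat_lit 166696) (nat_lit 0) .nil) .nil)))) (.nd (nat_lit 9) 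
(.lf (nat_lit 499128) (.g (nat_lit 2369) (.e (nat_lit 163975) (nat_lit 30) (.e (nat_lit 573481) (nat_lit 13) (.e (nat_lit 65619) (nat_lit 10) (.e (nat_lit 344117) (nat_lit 21) (.e (nat_lit 516147) (nat_lit 9) (.e (nat_lit 426376) (nat_lit 15) (.e (nat_lit 2057) (nat_lit 142) (.e (nat_lit 704589) (nat_lit 3) .nil)))))))) (.g (nat_lit 1) (.e (nat_lit 166009) (nat_lit 0) .nil) .nil))) 
(.lf (nat_lit 499640) (.g (nat_lit 4319) (.e (nat_lit 163976) (nat_lit 30) (.e (nat_lit 573481) (nat_lit 13) (.e (nat_lit 65621) (nat_lit 11) (.e (nat_lit 368676) (nat_lit 21) (.e (nat_lit 516179) (nat_lit 15) (.e (nat_lit 475199) (nat_lit 40) (.e (nat_lit 704589) (nat_lit 3) .nil))))))) (.g (nat_lit 1) (.e (nat_lit 167171) (nat_lit 0) .nil) .nil)))))) 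
(.nd (nat_lit 7) (.nd (nat_lit 8) (.nd (nat_lit 9) 
(.lf (nat_lit 498808) (.g (nat_lit 3037) (.e (nat_lit 163963) (nat_lit 25) (.e (nat_lit 532499) (nat_lit 1) (.e (nat_lit 57931) (nat_lit 282) (.e (nat_lit 163869) (nat_lit 2) (.e (nat_lit 196670) (nat_lit 14) (.e (nat_lit 73746) (nat_lit 3) (.e (nat_lit 516126) (nat_lit 2) (.e (nat_lit 213034) (nat_lit 12) .nil)))))))) (.g (nat_lit 1) (.e (nat_lit 165173) (nat_lit 0) .nil) .nil))) 
(.lf (nat_lit 499320) (.g (nat_lit 1495) (.e (nat_lit 163975) (nat_lit 30) (.e (nat_lit 573491) (nat_lit 15) (.e (nat_lit 81954) (nat_lit 23) (.e (nat_lit 98385) (nat_lit 32) (.e (nat_lit 483072) (nat_lit 40) .nil))))) (.g (nat_lit 0) (.e (nat_lit 166460) (nat_lit 0) .nil) .nil)))) (.nd (nat_lit 9) 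
(.lf (nat_lit 499064) (.g (nat_lit 1951) (.e (nat_lit 163975) (nat_lit 30) (.e (nat_lit 573481) (nat_lit 13) (.e (nat_lit 65604) (nat_lit 9) (.e (nat_lit 336013) (nat_lit 2) (.e (nat_lit 90170) (nat_lit 13) (.e (nat_lit 172070) (nat_lit 4) (.e (nat_lit 229663) (nat_lit 240) (.e (nat_lit 2603) (nat_lit 163) .nil)))))))) (.g (nat_lit 1) (.e (nat_lit 165900) (nat_lit 0) .nil) .nil))) 
(.lf (nat_lit 499576) (.g (nat_lit 3320) (.e (nat_lit 163976) (nat_lit 30) (.e (nat_lit 573481) (nat_lit 13) (.e (nat_lit 65619) (nat_lit 10) (.e (nat_lit 344117) (nat_lit 21) (.e (nat_lit 516145) (nat_lit 9) (.e (nat_lit 426416) (nat_lit 15) (.e (nat_lit 2057) (nat_lit 142) (.e (nat_lit 704589) (nat_lit 3) .nil)))))))) (.g (nat_lit 1) (.e (nat_lit 167089) (nat_lit 0) .nil) .nil))))) 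
(.nd (nat_lit 8) (.nd (nat_lit 9) 
(.lf (nat_lit 498936) (.g (nat_lit 1981) (.e (nat_lit 163965) (nat_lit 25) (.e (nat_lit 532499) (nat_lit 1) (.e (nat_lit 57927) (nat_lit 282) (.e (nat_lit 163871) (nat_lit 2) (.e (nat_lit 196670) (nat_lit 14) (.e (nat_lit 73746) (nat_lit 3) (.e (nat_lit 516126) (nat_lit 2) (.e (nat_lit 213033) (nat_lit 12) .nil)))))))) (.g (nat_lit 1) (.e (nat_lit 165576) (nat_lit 0) .nil) .nil))) 
(.lf (nat_lit 499448) (.g (nat_lit 1359) (.e (nat_lit 163975) (nat_lit 30) (.e (nat_lit 573492) (nat_lit 15) (.e (nat_lit 81956) (nat_lit 23) (.e (nat_lit 98366) (nat_lit 27) .nil)))) (.g (nat_lit 0) (.e (nat_lit 166803) (nat_lit 0) .nil) .nil)))) (.nd (nat_lit 9) 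
(.lf (nat_lit 499192) (.g (nat_lit 4155) (.e (nat_lit 163975) (nat_lit 30) (.e (nat_lit 573481) (nat_lit 13) (.e (nat_lit 65619) (nat_lit 10) (.e (nat_lit 344117) (nat_lit 21) (.e (nat_lit 516181) (nat_lit 15) (.e (nat_lit 475199) (nat_lit 40) (.e (nat_lit 704589) (nat_lit 3) .nil))))))) (.g (nat_lit 1) (.e (nat_lit 166090) (nat_lit 0) .nil) .nil))) 
(.lf (nat_lit 499704) (.g (nat_lit 2717) (.e (nat_lit 163976) (nat_lit 30) (.e (nat_lit 573491) (nat_lit 15) (.e (nat_lit 81951) (nat_lit 22) (.e (nat_lit 90170) (nat_lit 13) (.e (nat_lit 172137) (nat_lit 15) .nil))))) (.g (nat_lit 0) (.e (nat_lit 167396) (nat_lit 0) .nil) .nil)))))))))) 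
(.nd (nat_lit 3) (.nd (nat_lit 4) (.nd (nat_lit 5) (.nd (nat_lit 6) (.nd (nat_lit 7) 
(.nd (nat_lit 8) (.nd (nat_lit 9) 
(.lf (nat_lit 498692) (.g (nat_lit 2156) (.e (nat_lit 163962) (nat_lit 25) (.e (nat_lit 532550) (nat_lit 12) (.e (nat_lit 360474) (nat_lit 8) (.e (nat_lit 557072) (nat_lit 9) (.e (nat_lit 288) (nat_lit 21) (.e (nat_lit 335876) (nat_lit 0) (.e (nat_lit 6713) (nat_lit 360) .nil))))))) (.g (nat_lit 1) (.e (nat_lit 164864) (nat_lit 0) .nil) .nil))) 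
(.lf (nat_lit 499204) (.g (nat_lit 2035) (.e (nat_lit 163975) (nat_lit 30) (.e (nat_lit 573482) (nat_lit 13) (.e (nat_lit 65604) (nat_lit 9) (.e (nat_lit 336013) (nat_lit 2) .nil)))) (.g (nat_lit 0) (.e (nat_lit 166109) (nat_lit 0) .nil) .nil)))) (.nd (nat_lit 9) 
(.lf (nat_lit 498948) (.g (nat_lit 1656) (.e (nat_lit 171776) (nat_lit 23) (.e (nat_lit 516160) (nat_lit 10) (.e (nat_lit 434231) (nat_lit 23) (.e (nat_lit 532507) (nat_lit 2) .nil)))) (.g (nat_lit 0) (.e (nat_lit 165619) (nat_lit 0) .nil) .nil))) 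
(.lf (nat_lit 499460) (.g (nat_lit 4662) (.e (nat_lit 163975) (nat_lit 30) (.e (nat_lit 573492) (nat_lit 15) (.e (nat_lit 81956) (nat_lit 23) (.e (nat_lit 98384) (nat_lit 32) (.e (nat_lit 475197) (nat_lit 40) (.e (nat_lit 704589) (nat_lit 3) .nil)))))) (.g (nat_lit 1) (.e (nat_lit 166849) (nat_lit 0) .nil) .nil))))) (.nd (nat_lit 8) (.nd (nat_lit 9) 
(.lf (nat_lit 498820) (.g (nat_lit 2441) (.e (nat_lit 163963) (nat_lit 25) (.e (nat_lit 532501) (nat_lit 1) (.e (nat_lit 57927) (nat_lit 282) (.e (nat_lit 163875) (nat_lit 3) (.e (nat_lit 204862) (nat_lit 27) .nil))))) (.g (nat_lit 0) (.e (nat_lit 165191) (nat_lit 0) .nil) .nil))) 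
(.lf (nat_lit 499332) (.g (nat_lit 2531) (.e (nat_lit 163975) (nat_lit 30) (.e (nat_lit 573491) (nat_lit 15) (.e (nat_lit 81956) (nat_lit 23) (.e (nat_lit 98356) (nat_lit 26) (.e (nat_lit 426354) (nat_lit 15) .nil))))) (.g (nat_lit 0) (.e (nat_lit 166472) (nat_lit 0) .nil) .nil)))) (.nd (nat_lit 9) 
(.lf (nat_lit 499076) (.g (nat_lit 5077) (.e (nat_lit 163975) (nat_lit 30) (.e (nat_lit 573481) (nat_lit 13) (.e (nat_lit 65604) (nat_lit 9) (.e (nat_lit 336028) (nat_lit 3) (.e (nat_lit 98359) (nat_lit 26) (.e (nat_lit 426412) (nat_lit 15) (.e (nat_lit 2059) (nat_lit 142) (.e (nat_lit 704589) (nat_lit 3) .nil)))))))) (.g (nat_lit 1) (.e (nat_lit 165939) (nat_lit 0) .nil) .nil))) 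
(.lf (nat_lit 499588) (.g (nat_lit 3444) (.e (nat_lit 163976) (nat_lit 30) (.e (nat_lit 573481) (nat_lit 13) (.e (nat_lit 65619) (nat_lit 10) (.e (nat_lit 344117) (nat_lit 21) (.e (nat_lit 516151) (nat_lit 9) (.e (nat_lit 426003) (nat_lit 0) (.e (nat_lit 3399) (nat_lit 211) (.e (nat_lit 647180) (nat_lit 3) .nil)))))))) (.g (nat_lit 1) (.e (nat_lit 167101) (nat_lit 0) .nil) .nil)))))) 
(.nd (nat_lit 7) (.nd (nat_lit 8) (.nd (nat_lit 9) 
(.lf (nat_lit 498756) (.g (nat_lit 2345) (.e (nat_lit 163962) (nat_lit 25) (.e (nat_lit 532559) (nat_lit 14) (.e (nat_lit 376868) (nat_lit 23) (.e (nat_lit 98350) (nat_lit 24) (.e (nat_lit 409617) (nat_lit 10) (.e (nat_lit 7936) (nat_lit 315) .nil)))))) (.g (nat_lit 1) (.e (nat_lit 164981) (nat_lit 0) .nil) .nil))) 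
(.lf (nat_lit 499268) (.g (nat_lit 2584) (.e (nat_lit 163975) (nat_lit 30) (.e (nat_lit 573491) (nat_lit 15) (.e (nat_lit 81954) (nat_lit 23) (.e (nat_lit 98356) (nat_lit 26) (.e (nat_lit 426374) (nat_lit 15) (.e (nat_lit 2057) (nat_lit 142) (.e (nat_lit 704589) (nat_lit 3) .nil))))))) (.g (nat_lit 1) (.e (nat_lit 166372) (nat_lit 0) .nil) .nil)))) (.nd (nat_lit 9) 
(.lf (nat_lit 499012) (.g (nat_lit 6797) (.e (nat_lit 163974) (nat_lit 30) (.e (nat_lit 573484) (nat_lit 13) (.e (nat_lit 65610) (nat_lit 10) (.e (nat_lit 344117) (nat_lit 21) (.e (nat_lit 516179) (nat_lit 15) (.e (nat_lit 475199) (nat_lit 40) (.e (nat_lit 704589) (nat_lit 3) .nil))))))) (.g (nat_lit 1) (.e (nat_lit 165767) (nat_lit 0) .nil) .nil))) 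
(.lf (nat_lit 499524) (.g (nat_lit 3301) (.e (nat_lit 163976) (nat_lit 30) (.e (nat_lit 573481) (nat_lit 13) (.e (nat_lit 65604) (nat_lit 9) (.e (nat_lit 336013) (nat_lit 2) (.e (nat_lit 90170) (nat_lit 13) (.e (nat_lit 172059) (nat_lit 1) (.e (nat_lit 164345) (nat_lit 240) (.e (nat_lit 2600) (nat_lit 163) .nil)))))))) (.g (nat_lit 1) (.e (nat_lit 166982) (nat_lit 0) .nil) .nil))))) 
(.nd (nat_lit 8) (.nd (nat_lit 9) 
(.lf (nat_lit 498884) (.g (nat_lit 2996) (.e (nat_lit 163964) (nat_lit 25) (.e (nat_lit 532501) (nat_lit 1) (.e (nat_lit 57927) (nat_lit 282) (.e (nat_lit 163874) (nat_lit 3) (.e (nat_lit 204862) (nat_lit 27) (.e (nat_lit 344117) (nat_lit 21) (.e (nat_lit 516122) (nat_lit 2) (.e (nat_lit 213035) (nat_lit 12) .nil)))))))) (.g (nat_lit 1) (.e (nat_lit 165402) (nat_lit 0) .nil) .nil))) 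
(.lf (nat_lit 499396) (.g (nat_lit 3239) (.e (nat_lit 163975) (nat_lit 30) (.e (nat_lit 573492) (nat_lit 15) (.e (nat_lit 81956) (nat_lit 23) (.e (nat_lit 98356) (nat_lit 26) (.e (nat_lit 426374) (nat_lit 15) .nil))))) (.g (nat_lit 0) (.e (nat_lit 166708) (nat_lit 0) .nil) .nil)))) (.nd (nat_lit 9) 
(.lf (nat_lit 499140) (.g (nat_lit 2355) (.e (nat_lit 163975) (nat_lit 30) (.e (nat_lit 573481) (nat_lit 13) (.e (nat_lit 65619) (nat_lit 10) (.e (nat_lit 344117) (nat_lit 21) (.e (nat_lit 516151) (nat_lit 9) (.e (nat_lit 426043) (nat_lit 0) (.e (nat_lit 2458) (nat_lit 157) (.e (nat_lit 5546) (nat_lit 306) (.e (nat_lit 2600) (nat_lit 163) .nil))))))))) (.g (nat_lit 1) (.e (nat_lit 166021) (nat_lit 0) .nil) .nil))) 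
(.lf (nat_lit 499652) (.g (nat_lit 2284) (.e (nat_lit 163976) (nat_lit 30) (.e (nat_lit 573487) (nat_lit 14) (.e (nat_lit 73753) (nat_lit 8) (.e (nat_lit 557103) (nat_lit 14) (.e (nat_lit 180250) (nat_lit 10) (.e (nat_lit 573478) (nat_lit 12) (.e (nat_lit 57502) (nat_lit 38) (.e (nat_lit 638994) (nat_lit 7) .nil)))))))) (.g (nat_lit 1) (.e (nat_lit 167241) (nat_lit 0) .nil) .nil))))))) 
(.nd (nat_lit 6) (.nd (nat_lit 7) (.nd (nat_lit 8) (.nd (nat_lit 9) 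
(.lf (nat_lit 498724) (.g (nat_lit 3045) (.e (nat_lit 163962) (nat_lit 25) (.e (nat_lit 532550) (nat_lit 12) (.e (nat_lit 360475) (nat_lit 8) (.e (nat_lit 557074) (nat_lit 9) .nil)))) (.g (nat_lit 0) (.e (nat_lit 164918) (nat_lit 0) .nil) .nil))) 
(.lf (nat_lit 499236) (.g (nat_lit 2271) (.e (nat_lit 163975) (nat_lit 30) (.e (nat_lit 573488) (nat_lit 14) (.e (nat_lit 73755) (nat_lit 8) (.e (nat_lit 557105) (nat_lit 14) (.e (nat_lit 180252) (nat_lit 10) (.e (nat_lit 573473) (nat_lit 12) (.e (nat_lit 57501) (nat_lit 37) (.e (nat_lit 630799) (nat_lit 7) .nil)))))))) (.g (nat_lit 1) (.e (nat_lit 166262) (nat_lit 0) .nil) .nil)))) 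
(.nd (nat_lit 9) 
(.lf (nat_lit 498980) (.g (nat_lit 2598) (.e (nat_lit 163973) (nat_lit 30) (.e (nat_lit 573492) (nat_lit 15) (.e (nat_lit 81956) (nat_lit 23) (.e (nat_lit 98359) (nat_lit 26) .nil)))) (.g (nat_lit 0) (.e (nat_lit 165711) (nat_lit 0) .nil) .nil))) 
(.lf (nat_lit 499492) (.g (nat_lit 4470) (.e (nat_lit 163975) (nat_lit 30) (.e (nat_lit 573493) (nat_lit 15) (.e (nat_lit 81956) (nat_lit 23) (.e (nat_lit 98358) (nat_lit 26) .nil)))) (.g (nat_lit 0) (.e (nat_lit 166896) (nat_lit 0) .nil) .nil))))) (.nd (nat_lit 8) (.nd (nat_lit 9) 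
(.lf (nat_lit 498852) (.g (nat_lit 4208) (.e (nat_lit 163964) (nat_lit 25) (.e (nat_lit 532499) (nat_lit 1) (.e (nat_lit 57927) (nat_lit 282) (.e (nat_lit 163869) (nat_lit 2) (.e (nat_lit 196670) (nat_lit 14) (.e (nat_lit 73746) (nat_lit 3) (.e (nat_lit 516126) (nat_lit 2) (.e (nat_lit 213035) (nat_lit 12) .nil)))))))) (.g (nat_lit 1) (.e (nat_lit 165341) (nat_lit 0) .nil) .nil))) 
(.lf (nat_lit 499364) (.g (nat_lit 1242) (.e (nat_lit 163975) (nat_lit 30) (.e (nat_lit 573492) (nat_lit 15) (.e (nat_lit 81954) (nat_lit 23) (.e (nat_lit 98359) (nat_lit 26) .nil)))) (.g (nat_lit 0) (.e (nat_lit 166647) (nat_lit 0) .nil) .nil)))) (.nd (nat_lit 9) 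
(.lf (nat_lit 499108) (.g (nat_lit 2459) (.e (nat_lit 163975) (nat_lit 30) (.e (nat_lit 573481) (nat_lit 13) (.e (nat_lit 65619) (nat_lit 10) (.e (nat_lit 344117) (nat_lit 21) (.e (nat_lit 516144) (nat_lit 9) .nil))))) (.g (nat_lit 0) (.e (nat_lit 165989) (nat_lit 0) .nil) .nil))) 
(.lf (nat_lit 499620) (.g (nat_lit 3509) (.e (nat_lit 163976) (nat_lit 30) (.e (nat_lit 573481) (nat_lit 13) (.e (nat_lit 65619) (nat_lit 10) (.e (nat_lit 344117) (nat_lit 21) (.e (nat_lit 516159) (nat_lit 10) (.e (nat_lit 434271) (nat_lit 38) (.e (nat_lit 655373) (nat_lit 3) .nil))))))) (.g (nat_lit 1) (.e (nat_lit 167136) (nat_lit 0) .nil) .nil)))))) 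
(.nd (nat_lit 7) (.nd (nat_lit 8) (.nd (nat_lit 9) 
(.lf (nat_lit 498788) (.g (nat_lit 3138) (.e (nat_lit 163963) (nat_lit 25) (.e (nat_lit 532499) (nat_lit 1) (.e (nat_lit 57926) (nat_lit 282) (.e (nat_lit 163869) (nat_lit 2) (.e (nat_lit 196670) (nat_lit 14) (.e (nat_lit 73746) (nat_lit 3) (.e (nat_lit 516124) (nat_lit 2) (.e (nat_lit 213035) (nat_lit 12) .nil)))))))) (.g (nat_lit 1) (.e (nat_lit 165134) (nat_lit 0) .nil) .nil))) 
(.lf (nat_lit 499300) (.g (nat_lit 1400) (.e (nat_lit 163975) (nat_lit 30) (.e (nat_lit 573491) (nat_lit 15) (.e (nat_lit 81954) (nat_lit 23) (.e (nat_lit 98362) (nat_lit 26) .nil)))) (.g (nat_lit 0) (.e (nat_lit 166419) (nat_lit 0) .nil) .nil)))) (.nd (nat_lit 9) 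
(.lf (nat_lit 499044) (.g (nat_lit 4093) (.e (nat_lit 163975) (nat_lit 30) (.e (nat_lit 573481) (nat_lit 13) (.e (nat_lit 65604) (nat_lit 9) (.e (nat_lit 336013) (nat_lit 2) (.e (nat_lit 90166) (nat_lit 13) (.e (nat_lit 172133) (nat_lit 15) (.e (nat_lit 2059) (nat_lit 142) (.e (nat_lit 704589) (nat_lit 3) .nil)))))))) (.g (nat_lit 1) (.e (nat_lit 165870) (nat_lit 0) .nil) .nil))) 
(.lf (nat_lit 499556) (.g (nat_lit 3533) (.e (nat_lit 163976) (nat_lit 30) (.e (nat_lit 573481) (nat_lit 13) (.e (nat_lit 65619) (nat_lit 10) (.e (nat_lit 344117) (nat_lit 21) (.e (nat_lit 516143) (nat_lit 9) (.e (nat_lit 426109) (nat_lit 1) (.e (nat_lit 164345) (nat_lit 240) (.e (nat_lit 2601) (nat_lit 163) .nil)))))))) (.g (nat_lit 1) (.e (nat_lit 167069) (nat_lit 0) .nil) .nil))))) 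
(.nd (nat_lit 8) (.nd (nat_lit 9) 
(.lf (nat_lit 498916) (.g (nat_lit 1086) (.e (nat_lit 163964) (nat_lit 25) (.e (nat_lit 532515) (nat_lit 3) (.e (nat_lit 114719) (nat_lit 23) (.e (nat_lit 98354) (nat_lit 26) .nil)))) (.g (nat_lit 0) (.e (nat_lit 165479) (nat_lit 0) .nil) .nil))) 
(.lf (nat_lit 499428) (.g (nat_lit 2172) (.e (nat_lit 163975) (nat_lit 30) (.e (nat_lit 573492) (nat_lit 15) (.e (nat_lit 81956) (nat_lit 23) (.e (nat_lit 98359) (nat_lit 26) (.e (nat_lit 426396) (nat_lit 15) .nil))))) (.g (nat_lit 0) (.e (nat_lit 166771) (nat_lit 0) .nil) .nil)))) (.nd (nat_lit 9) 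
(.lf (nat_lit 499172) (.g (nat_lit 2601) (.e (nat_lit 163975) (nat_lit 30) (.e (nat_lit 573481) (nat_lit 13) (.e (nat_lit 65619) (nat_lit 10) (.e (nat_lit 344117) (nat_lit 21) (.e (nat_lit 516161) (nat_lit 10) .nil))))) (.g (nat_lit 0) (.e (nat_lit 166057) (nat_lit 0) .nil) .nil))) 
(.lf (nat_lit 499684) (.g (nat_lit 2542) (.e (nat_lit 163976) (nat_lit 30) (.e (nat_lit 573489) (nat_lit 14) (.e (nat_lit 73755) (nat_lit 8) (.e (nat_lit 557103) (nat_lit 14) .nil)))) (.g (nat_lit 0) (.e (nat_lit 167324) (nat_lit 0) .nil) .nil)))))))) (.nd (nat_lit 5) (.nd (nat_lit 6) (.nd (nat_lit 7) (.nd (nat_lit 8) (.nd (nat_lit 9) 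
(.lf (nat_lit 498708) (.g (nat_lit 1331) (.e (nat_lit 163962) (nat_lit 25) (.e (nat_lit 532550) (nat_lit 12) (.e (nat_lit 360475) (nat_lit 8) (.e (nat_lit 557066) (nat_lit 9) .nil)))) (.g (nat_lit 0) (.e (nat_lit 164884) (nat_lit 0) .nil) .nil))) 
(.lf (nat_lit 499220) (.g (nat_lit 3392) (.e (nat_lit 163975) (nat_lit 30) (.e (nat_lit 573487) (nat_lit 14) (.e (nat_lit 73753) (nat_lit 8) (.e (nat_lit 557105) (nat_lit 14) (.e (nat_lit 180252) (nat_lit 10) (.e (nat_lit 573473) (nat_lit 12) (.e (nat_lit 57503) (nat_lit 38) (.e (nat_lit 638994) (nat_lit 7) .nil)))))))) (.g (nat_lit 1) (.e (nat_lit 166183) (nat_lit 0) .nil) .nil)))) 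
(.nd (nat_lit 9) 
(.lf (nat_lit 498964) (.g (nat_lit 3073) (.e (nat_lit 163973) (nat_lit 30) (.e (nat_lit 573484) (nat_lit 13) (.e (nat_lit 65610) (nat_lit 10) (.e (nat_lit 344117) (nat_lit 21) (.e (nat_lit 516160) (nat_lit 10) (.e (nat_lit 434271) (nat_lit 38) (.e (nat_lit 655373) (nat_lit 3) .nil))))))) (.g (nat_lit 1) (.e (nat_lit 165652) (nat_lit 0) .nil) .nil))) 
(.lf (nat_lit 499476) (.g (nat_lit 3069) (.e (nat_lit 163975) (nat_lit 30) (.e (nat_lit 573492) (nat_lit 15) (.e (nat_lit 81956) (nat_lit 23) (.e (nat_lit 98385) (nat_lit 32) (.e (nat_lit 483072) (nat_lit 40) (.e (nat_lit 704590) (nat_lit 3) .nil)))))) (.g (nat_lit 1) (.e (nat_lit 166865) (nat_lit 0) .nil) .nil))))) (.nd (nat_lit 8) (.nd (nat_lit 9) 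
(.lf (nat_lit 498836) (.g (nat_lit 3003) (.e (nat_lit 163963) (nat_lit 25) (.e (nat_lit 532534) (nat_lit 9) (.e (nat_lit 336019) (nat_lit 3) (.e (nat_lit 98342) (nat_lit 20) (.e (nat_lit 221212) (nat_lit 22) .nil))))) (.g (nat_lit 0) (.e (nat_lit 165292) (nat_lit 0) .nil) .nil))) 
(.lf (nat_lit 499348) (.g (nat_lit 3158) (.e (nat_lit 163975) (nat_lit 30) (.e (nat_lit 573492) (nat_lit 15) (.e (nat_lit 81951) (nat_lit 22) (.e (nat_lit 90170) (nat_lit 13) (.e (nat_lit 172138) (nat_lit 15) (.e (nat_lit 2056) (nat_lit 142) (.e (nat_lit 704589) (nat_lit 3) .nil))))))) (.g (nat_lit 1) (.e (nat_lit 166515) (nat_lit 0) .nil) .nil)))) (.nd (nat_lit 9) 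
(.lf (nat_lit 499092) (.g (nat_lit 1763) (.e (nat_lit 163975) (nat_lit 30) (.e (nat_lit 573481) (nat_lit 13) (.e (nat_lit 65604) (nat_lit 9) (.e (nat_lit 336028) (nat_lit 3) (.e (nat_lit 106240) (nat_lit 32) .nil))))) (.g (nat_lit 0) (.e (nat_lit 165967) (nat_lit 0) .nil) .nil))) 
(.lf (nat_lit 499604) (.g (nat_lit 2161) (.e (nat_lit 163976) (nat_lit 30) (.e (nat_lit 573481) (nat_lit 13) (.e (nat_lit 65619) (nat_lit 10) (.e (nat_lit 344117) (nat_lit 21) (.e (nat_lit 516151) (nat_lit 9) (.e (nat_lit 426142) (nat_lit 4) (.e (nat_lit 229663) (nat_lit 240) (.e (nat_lit 2603) (nat_lit 163) .nil)))))))) (.g (nat_lit 1) (.e (nat_lit 167118) (nat_lit 0) .nil) .nil)))))) 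
(.nd (nat_lit 7) (.nd (nat_lit 8) (.nd (nat_lit 9) 
(.lf (nat_lit 498772) (.g (nat_lit 2062) (.e (nat_lit 163962) (nat_lit 25) (.e (nat_lit 532569) (nat_lit 16) (.e (nat_lit 401448) (nat_lit 10) (.e (nat_lit 434231) (nat_lit 23) .nil)))) (.g (nat_lit 0) (.e (nat_lit 165038) (nat_lit 0) .nil) .nil))) 
(.lf (nat_lit 499284) (.g (nat_lit 2027) (.e (nat_lit 163975) (nat_lit 30) (.e (nat_lit 573491) (nat_lit 15) (.e (nat_lit 81954) (nat_lit 23) (.e (nat_lit 98356) (nat_lit 26) (.e (nat_lit 426440) (nat_lit 19) (.e (nat_lit 114432) (nat_lit 3) .nil)))))) (.g (nat_lit 1) (.e (nat_lit 166388) (nat_lit 0) .nil) .nil)))) (.nd (nat_lit 9) 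
(.lf (nat_lit 499028) (.g (nat_lit 4605) (.e (nat_lit 163974) (nat_lit 30) (.e (nat_lit 573493) (nat_lit 15) (.e (nat_lit 81956) (nat_lit 23) (.e (nat_lit 98385) (nat_lit 32) .nil)))) (.g (nat_lit 0) (.e (nat_lit 165806) (nat_lit 0) .nil) .nil))) 
(.lf (nat_lit 499540) (.g (nat_lit 3475) (.e (nat_lit 163976) (nat_lit 30) (.e (nat_lit 573481) (nat_lit 13) (.e (nat_lit 65604) (nat_lit 9) (.e (nat_lit 336028) (nat_lit 3) (.e (nat_lit 98366) (nat_lit 27) (.e (nat_lit 434272) (nat_lit 38) (.e (nat_lit 655373) (nat_lit 3) .nil))))))) (.g (nat_lit 1) (.e (nat_lit 167045) (nat_lit 0) .nil) .nil))))) (.nd (nat_lit 8) (.nd (nat_lit 9) 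
(.lf (nat_lit 498900) (.g (nat_lit 2159) (.e (nat_lit 163964) (nat_lit 25) (.e (nat_lit 532504) (nat_lit 1) (.e (nat_lit 57852) (nat_lit 252) (.e (nat_lit 57377) (nat_lit 3) .nil)))) (.g (nat_lit 0) (.e (nat_lit 165428) (nat_lit 0) .nil) .nil))) 
(.lf (nat_lit 499412) (.g (nat_lit 3264) (.e (nat_lit 163975) (nat_lit 30) (.e (nat_lit 573492) (nat_lit 15) (.e (nat_lit 81956) (nat_lit 23) (.e (nat_lit 98356) (nat_lit 26) (.e (nat_lit 426404) (nat_lit 15) .nil))))) (.g (nat_lit 0) (.e (nat_lit 166724) (nat_lit 0) .nil) .nil)))) (.nd (nat_lit 9) 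
(.lf (nat_lit 499156) (.g (nat_lit 2713) (.e (nat_lit 163975) (nat_lit 30) (.e (nat_lit 573481) (nat_lit 13) (.e (nat_lit 65619) (nat_lit 10) (.e (nat_lit 344117) (nat_lit 21) (.e (nat_lit 516152) (nat_lit 9) (.e (nat_lit 426109) (nat_lit 1) (.e (nat_lit 164345) (nat_lit 240) (.e (nat_lit 2600) (nat_lit 163) .nil)))))))) (.g (nat_lit 1) (.e (nat_lit 166038) (nat_lit 0) .nil) .nil))) 
(.lf (nat_lit 499668) (.g (nat_lit 2745) (.e (nat_lit 163976) (nat_lit 30) (.e (nat_lit 573488) (nat_lit 14) (.e (nat_lit 73755) (nat_lit 8) (.e (nat_lit 557103) (nat_lit 14) (.e (nat_lit 180251) (nat_lit 10) (.e (nat_lit 573475) (nat_lit 12) (.e (nat_lit 57503) (nat_lit 38) (.e (nat_lit 638994) (nat_lit 7) .nil)))))))) (.g (nat_lit 1) (.e (nat_lit 167293) (nat_lit 0) .nil) .nil))))))) 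
(.nd (nat_lit 6) (.nd (nat_lit 7) (.nd (nat_lit 8) (.nd (nat_lit 9) 
(.lf (nat_lit 498740) (.g (nat_lit 2779) (.e (nat_lit 163962) (nat_lit 25) (.e (nat_lit 532550) (nat_lit 12) (.e (nat_lit 360475) (nat_lit 8) (.e (nat_lit 557087) (nat_lit 11) (.e (nat_lit 24594) (nat_lit 0) .nil))))) (.g (nat_lit 0) (.e (nat_lit 164938) (nat_lit 0) .nil) .nil))) 
(.lf (nat_lit 499252) (.g (nat_lit 429) (.e (nat_lit 163975) (nat_lit 30) (.e (nat_lit 573491) (nat_lit 15) (.e (nat_lit 81954) (nat_lit 23) .nil))) (.g (nat_lit 0) (.e (nat_lit 166351) (nat_lit 0) .nil) .nil)))) (.nd (nat_lit 9) 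
(.lf (nat_lit 498996) (.g (nat_lit 3161) (.e (nat_lit 163973) (nat_lit 30) (.e (nat_lit 573493) (nat_lit 15) (.e (nat_lit 81956) (nat_lit 23) (.e (nat_lit 98366) (nat_lit 27) .nil)))) (.g (nat_lit 0) (.e (nat_lit 165750) (nat_lit 0) .nil) .nil))) 
(.lf (nat_lit 499508) (.g (nat_lit 1222) (.e (nat_lit 163976) (nat_lit 30) (.e (nat_lit 573481) (nat_lit 13) (.e (nat_lit 65563) (nat_lit 1) (.e (nat_lit 57927) (nat_lit 282) (.e (nat_lit 163941) (nat_lit 19) .nil))))) (.g (nat_lit 0) (.e (nat_lit 166954) (nat_lit 0) .nil) .nil))))) (.nd (nat_lit 8) (.nd (nat_lit 9) 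
(.lf (nat_lit 498868) (.g (nat_lit 2560) (.e (nat_lit 163964) (nat_lit 25) (.e (nat_lit 532501) (nat_lit 1) (.e (nat_lit 57926) (nat_lit 282) (.e (nat_lit 163871) (nat_lit 2) (.e (nat_lit 196670) (nat_lit 14) (.e (nat_lit 73746) (nat_lit 3) (.e (nat_lit 516126) (nat_lit 2) (.e (nat_lit 213035) (nat_lit 12) .nil)))))))) (.g (nat_lit 1) (.e (nat_lit 165376) (nat_lit 0) .nil) .nil))) 
(.lf (nat_lit 499380) (.g (nat_lit 3218) (.e (nat_lit 163975) (nat_lit 30) (.e (nat_lit 573492) (nat_lit 15) (.e (nat_lit 81956) (nat_lit 23) (.e (nat_lit 98356) (nat_lit 26) (.e (nat_lit 426355) (nat_lit 15) .nil))))) (.g (nat_lit 0) (.e (nat_lit 166692) (nat_lit 0) .nil) .nil)))) (.nd (nat_lit 9) 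
(.lf (nat_lit 499124) (.g (nat_lit 3627) (.e (nat_lit 163975) (nat_lit 30) (.e (nat_lit 573481) (nat_lit 13) (.e (nat_lit 65619) (nat_lit 10) (.e (nat_lit 344117) (nat_lit 21) (.e (nat_lit 516145) (nat_lit 9) (.e (nat_lit 426416) (nat_lit 15) (.e (nat_lit 2057) (nat_lit 142) (.e (nat_lit 704589) (nat_lit 3) .nil)))))))) (.g (nat_lit 1) (.e (nat_lit 166005) (nat_lit 0) .nil) .nil))) 
(.lf (nat_lit 499636) (.g (nat_lit 1341) (.e (nat_lit 163976) (nat_lit 30) (.e (nat_lit 573481) (nat_lit 13) (.e (nat_lit 65619) (nat_lit 10) (.e (nat_lit 344118) (nat_lit 21) .nil)))) (.g (nat_lit 0) (.e (nat_lit 167166) (nat_lit 0) .nil) .nil)))))) (.nd (nat_lit 7) (.nd (nat_lit 8) (.nd (nat_lit 9) 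
(.lf (nat_lit 498804) (.g (nat_lit 3478) (.e (nat_lit 163963) (nat_lit 25) (.e (nat_lit 532499) (nat_lit 1) (.e (nat_lit 57927) (nat_lit 282) (.e (nat_lit 163871) (nat_lit 2) (.e (nat_lit 196670) (nat_lit 14) (.e (nat_lit 73746) (nat_lit 3) (.e (nat_lit 516124) (nat_lit 2) (.e (nat_lit 213034) (nat_lit 12) .nil)))))))) (.g (nat_lit 1) (.e (nat_lit 165165) (nat_lit 0) .nil) .nil))) 
(.lf (nat_lit 499316) (.g (nat_lit 2563) (.e (nat_lit 163975) (nat_lit 30) (.e (nat_lit 573491) (nat_lit 15) (.e (nat_lit 81954) (nat_lit 23) (.e (nat_lit 98384) (nat_lit 32) (.e (nat_lit 475205) (nat_lit 40) (.e (nat_lit 704588) (nat_lit 3) .nil)))))) (.g (nat_lit 1) (.e (nat_lit 166456) (nat_lit 0) .nil) .nil)))) (.nd (nat_lit 9) 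
(.lf (nat_lit 499060) (.g (nat_lit 1871) (.e (nat_lit 163975) (nat_lit 30) (.e (nat_lit 573481) (nat_lit 13) (.e (nat_lit 65604) (nat_lit 9) (.e (nat_lit 336013) (nat_lit 2) (.e (nat_lit 90170) (nat_lit 13) (.e (nat_lit 172061) (nat_lit 1) (.e (nat_lit 164347) (nat_lit 240) (.e (nat_lit 2600) (nat_lit 163) .nil)))))))) (.g (nat_lit 1) (.e (nat_lit 165895) (nat_lit 0) .nil) .nil))) 
(.lf (nat_lit 499572) (.g (nat_lit 2212) (.e (nat_lit 163976) (nat_lit 30) (.e (nat_lit 573481) (nat_lit 13) (.e (nat_lit 65619) (nat_lit 10) (.e (nat_lit 344117) (nat_lit 21) (.e (nat_lit 516145) (nat_lit 9) .nil))))) (.g (nat_lit 0) (.e (nat_lit 167085) (nat_lit 0) .nil) .nil))))) (.nd (nat_lit 8) (.nd (nat_lit 9) 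
(.lf (nat_lit 498932) (.g (nat_lit 4281) (.e (nat_lit 163965) (nat_lit 25) (.e (nat_lit 532499) (nat_lit 1) (.e (nat_lit 57927) (nat_lit 282) (.e (nat_lit 163869) (nat_lit 2) (.e (nat_lit 196670) (nat_lit 14) (.e (nat_lit 73746) (nat_lit 3) (.e (nat_lit 516124) (nat_lit 2) (.e (nat_lit 213035) (nat_lit 12) .nil)))))))) (.g (nat_lit 1) (.e (nat_lit 165572) (nat_lit 0) .nil) .nil))) 
(.lf (nat_lit 499444) (.g (nat_lit 3193) (.e (nat_lit 163975) (nat_lit 30) (.e (nat_lit 573492) (nat_lit 15) (.e (nat_lit 81956) (nat_lit 23) (.e (nat_lit 98365) (nat_lit 26) .nil)))) (.g (nat_lit 0) (.e (nat_lit 166794) (nat_lit 0) .nil) .nil)))) (.nd (nat_lit 9) 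
(.lf (nat_lit 499188) (.g (nat_lit 2950) (.e (nat_lit 163975) (nat_lit 30) (.e (nat_lit 573481) (nat_lit 13) (.e (nat_lit 65619) (nat_lit 10) (.e (nat_lit 344117) (nat_lit 21) (.e (nat_lit 516180) (nat_lit 15) (.e (nat_lit 475201) (nat_lit 40) (.e (nat_lit 712448) (nat_lit 3) .nil))))))) (.g (nat_lit 1) (.e (nat_lit 166086) (nat_lit 0) .nil) .nil))) 
(.lf (nat_lit 499700) (.g (nat_lit 1691) (.e (nat_lit 163976) (nat_lit 30) (.e (nat_lit 573491) (nat_lit 15) (.e (nat_lit 81951) (nat_lit 22) (.e (nat_lit 90169) (nat_lit 13) .nil)))) (.g (nat_lit 0) (.e (nat_lit 167357) (nat_lit 0) .nil) .nil))))))))) (.nd (nat_lit 4) (.nd (nat_lit 5) (.nd (nat_lit 6) (.nd (nat_lit 7) (.nd (nat_lit 8) (.nd (nat_lit 9) 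
(.lf (nat_lit 498700) (.g (nat_lit 2467) (.e (nat_lit 163962) (nat_lit 25) (.e (nat_lit 532550) (nat_lit 12) (.e (nat_lit 360474) (nat_lit 8) (.e (nat_lit 557085) (nat_lit 11) (.e (nat_lit 24579) (nat_lit 0) .nil))))) (.g (nat_lit 0) (.e (nat_lit 164874) (nat_lit 0) .nil) .nil))) 
(.lf (nat_lit 499212) (.g (nat_lit 2634) (.e (nat_lit 163975) (nat_lit 30) (.e (nat_lit 573487) (nat_lit 14) (.e (nat_lit 73753) (nat_lit 8) (.e (nat_lit 557103) (nat_lit 14) (.e (nat_lit 180250) (nat_lit 10) (.e (nat_lit 573475) (nat_lit 12) (.e (nat_lit 57502) (nat_lit 38) (.e (nat_lit 638994) (nat_lit 7) .nil)))))))) (.g (nat_lit 1) (.e (nat_lit 166166) (nat_lit 0) .nil) .nil)))) 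
(.nd (nat_lit 9) 
(.lf (nat_lit 498956) (.g (nat_lit 2595) (.e (nat_lit 163973) (nat_lit 30) (.e (nat_lit 573479) (nat_lit 13) (.e (nat_lit 65619) (nat_lit 10) (.e (nat_lit 344117) (nat_lit 21) (.e (nat_lit 516159) (nat_lit 10) (.e (nat_lit 434271) (nat_lit 38) (.e (nat_lit 655373) (nat_lit 3) .nil))))))) (.g (nat_lit 1) (.e (nat_lit 165643) (nat_lit 0) .nil) .nil))) 
(.lf (nat_lit 499468) (.g (nat_lit 3466) (.e (nat_lit 163975) (nat_lit 30) (.e (nat_lit 573492) (nat_lit 15) (.e (nat_lit 81956) (nat_lit 23) (.e (nat_lit 98384) (nat_lit 32) (.e (nat_lit 483072) (nat_lit 40) .nil))))) (.g (nat_lit 0) (.e (nat_lit 166857) (nat_lit 0) .nil) .nil))))) (.nd (nat_lit 8) (.nd (nat_lit 9) 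
(.lf (nat_lit 498828) (.g (nat_lit 2170) (.e (nat_lit 163963) (nat_lit 25) (.e (nat_lit 532513) (nat_lit 3) (.e (nat_lit 114714) (nat_lit 22) (.e (nat_lit 90170) (nat_lit 13) (.e (nat_lit 172067) (nat_lit 3) .nil))))) (.g (nat_lit 0) (.e (nat_lit 165209) (nat_lit 0) .nil) .nil))) 
(.lf (nat_lit 499340) (.g (nat_lit 3091) (.e (nat_lit 163975) (nat_lit 30) (.e (nat_lit 573491) (nat_lit 15) (.e (nat_lit 81956) (nat_lit 23) (.e (nat_lit 98384) (nat_lit 32) (.e (nat_lit 475198) (nat_lit 40) .nil))))) (.g (nat_lit 0) (.e (nat_lit 166480) (nat_lit 0) .nil) .nil)))) (.nd (nat_lit 9) 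
(.lf (nat_lit 499084) (.g (nat_lit 2795) (.e (nat_lit 163975) (nat_lit 30) (.e (nat_lit 573481) (nat_lit 13) (.e (nat_lit 65604) (nat_lit 9) (.e (nat_lit 336028) (nat_lit 3) (.e (nat_lit 98383) (nat_lit 32) (.e (nat_lit 475197) (nat_lit 40) (.e (nat_lit 704590) (nat_lit 3) .nil))))))) (.g (nat_lit 1) (.e (nat_lit 165959) (nat_lit 0) .nil) .nil))) 
(.lf (nat_lit 499596) (.g (nat_lit 3730) (.e (nat_lit 163976) (nat_lit 30) (.e (nat_lit 573481) (nat_lit 13) (.e (nat_lit 65619) (nat_lit 10) (.e (nat_lit 344117) (nat_lit 21) (.e (nat_lit 516151) (nat_lit 9) (.e (nat_lit 426043) (nat_lit 0) (.e (nat_lit 3407) (nat_lit 212) (.e (nat_lit 655373) (nat_lit 3) .nil)))))))) (.g (nat_lit 1) (.e (nat_lit 167109) (nat_lit 0) .nil) .nil)))))) 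
(.nd (nat_lit 7) (.nd (nat_lit 8) (.nd (nat_lit 9) 
(.lf (nat_lit 498764) (.g (nat_lit 853) (.e (nat_lit 163962) (nat_lit 25) (.e (nat_lit 532560) (nat_lit 14) (.e (nat_lit 376867) (nat_lit 23) .nil))) (.g (nat_lit 0) (.e (nat_lit 165000) (nat_lit 0) .nil) .nil))) 
(.lf (nat_lit 499276) (.g (nat_lit 1930) (.e (nat_lit 163975) (nat_lit 30) (.e (nat_lit 573491) (nat_lit 15) (.e (nat_lit 81954) (nat_lit 23) (.e (nat_lit 98356) (nat_lit 26) (.e (nat_lit 426416) (nat_lit 15) .nil))))) (.g (nat_lit 0) (.e (nat_lit 166380) (nat_lit 0) .nil) .nil)))) (.nd (nat_lit 9) 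
(.lf (nat_lit 499020) (.g (nat_lit 5724) (.e (nat_lit 163974) (nat_lit 30) (.e (nat_lit 573492) (nat_lit 15) (.e (nat_lit 81956) (nat_lit 23) (.e (nat_lit 98363) (nat_lit 26) .nil)))) (.g (nat_lit 0) (.e (nat_lit 165783) (nat_lit 0) .nil) .nil))) 
(.lf (nat_lit 499532) (.g (nat_lit 2994) (.e (nat_lit 163976) (nat_lit 30) (.e (nat_lit 573481) (nat_lit 13) (.e (nat_lit 65604) (nat_lit 9) (.e (nat_lit 336013) (nat_lit 2) (.e (nat_lit 90170) (nat_lit 13) (.e (nat_lit 179968) (nat_lit 24) (.e (nat_lit 163584) (nat_lit 3) .nil))))))) (.g (nat_lit 1) (.e (nat_lit 166997) (nat_lit 0) .nil) .nil))))) (.nd (nat_lit 8) (.nd (nat_lit 9) 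
(.lf (nat_lit 498892) (.g (nat_lit 3944) (.e (nat_lit 163964) (nat_lit 25) (.e (nat_lit 532501) (nat_lit 1) (.e (nat_lit 57931) (nat_lit 282) (.e (nat_lit 163869) (nat_lit 2) (.e (nat_lit 196670) (nat_lit 14) (.e (nat_lit 73746) (nat_lit 3) (.e (nat_lit 516124) (nat_lit 2) (.e (nat_lit 213035) (nat_lit 12) .nil)))))))) (.g (nat_lit 1) (.e (nat_lit 165419) (nat_lit 0) .nil) .nil))) 
(.lf (nat_lit 499404) (.g (nat_lit 2734) (.e (nat_lit 163975) (nat_lit 30) (.e (nat_lit 573492) (nat_lit 15) (.e (nat_lit 81956) (nat_lit 23) (.e (nat_lit 98356) (nat_lit 26) (.e (nat_lit 426415) (nat_lit 15) .nil))))) (.g (nat_lit 0) (.e (nat_lit 166716) (nat_lit 0) .nil) .nil)))) (.nd (nat_lit 9) 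
(.lf (nat_lit 499148) (.g (nat_lit 2468) (.e (nat_lit 163975) (nat_lit 30) (.e (nat_lit 573481) (nat_lit 13) (.e (nat_lit 65619) (nat_lit 10) (.e (nat_lit 344117) (nat_lit 21) (.e (nat_lit 516151) (nat_lit 9) (.e (nat_lit 426142) (nat_lit 4) (.e (nat_lit 229665) (nat_lit 240) (.e (nat_lit 2604) (nat_lit 163) .nil)))))))) (.g (nat_lit 1) (.e (nat_lit 166030) (nat_lit 0) .nil) .nil))) 
(.lf (nat_lit 499660) (.g (nat_lit 1097) (.e (nat_lit 163976) (nat_lit 30) (.e (nat_lit 573488) (nat_lit 14) (.e (nat_lit 73755) (nat_lit 8) (.e (nat_lit 557096) (nat_lit 13) .nil)))) (.g (nat_lit 0) (.e (nat_lit 167267) (nat_lit 0) .nil) .nil))))))) (.nd (nat_lit 6) (.nd (nat_lit 7) (.nd (nat_lit 8) (.nd (nat_lit 9) 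
(.lf (nat_lit 498732) (.g (nat_lit 907) (.e (nat_lit 163962) (nat_lit 25) (.e (nat_lit 532550) (nat_lit 12) (.e (nat_lit 360475) (nat_lit 8) (.e (nat_lit 557087) (nat_lit 11) .nil)))) (.g (nat_lit 0) (.e (nat_lit 164930) (nat_lit 0) .nil) .nil))) 
(.lf (nat_lit 499244) (.g (nat_lit 1709) (.e (nat_lit 163975) (nat_lit 30) (.e (nat_lit 573491) (nat_lit 15) (.e (nat_lit 81951) (nat_lit 22) (.e (nat_lit 90167) (nat_lit 13) .nil)))) (.g (nat_lit 0) (.e (nat_lit 166291) (nat_lit 0) .nil) .nil)))) (.nd (nat_lit 9) 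
(.lf (nat_lit 498988) (.g (nat_lit 2576) (.e (nat_lit 163973) (nat_lit 30) (.e (nat_lit 573492) (nat_lit 15) (.e (nat_lit 81956) (nat_lit 23) (.e (nat_lit 98367) (nat_lit 27) .nil)))) (.g (nat_lit 0) (.e (nat_lit 165729) (nat_lit 0) .nil) .nil))) 
(.lf (nat_lit 499500) (.g (nat_lit 3219) (.e (nat_lit 163976) (nat_lit 30) (.e (nat_lit 573474) (nat_lit 12) (.e (nat_lit 57528) (nat_lit 46) (.e (nat_lit 704589) (nat_lit 3) (.e (nat_lit 163962) (nat_lit 25) (.e (nat_lit 532543) (nat_lit 10) (.e (nat_lit 344117) (nat_lit 21) (.e (nat_lit 516123) (nat_lit 2) (.e (nat_lit 213033) (nat_lit 12) .nil))))))))) (.g (nat_lit 1) (.e (nat_lit 166932) (nat_lit 0) .nil) .nil))))) 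
(.nd (nat_lit 8) (.nd (nat_lit 9) 
(.lf (nat_lit 498860) (.g (nat_lit 2866) (.e (nat_lit 163964) (nat_lit 25) (.e (nat_lit 532501) (nat_lit 1) (.e (nat_lit 57926) (nat_lit 282) (.e (nat_lit 163868) (nat_lit 2) (.e (nat_lit 196670) (nat_lit 14) (.e (nat_lit 73746) (nat_lit 3) (.e (nat_lit 516126) (nat_lit 2) (.e (nat_lit 213035) (nat_lit 12) .nil)))))))) (.g (nat_lit 1) (.e (nat_lit 165363) (nat_lit 0) .nil) .nil))) 
(.lf (nat_lit 499372) (.g (nat_lit 2317) (.e (nat_lit 163975) (nat_lit 30) (.e (nat_lit 573492) (nat_lit 15) (.e (nat_lit 81954) (nat_lit 23) (.e (nat_lit 98386) (nat_lit 32) (.e (nat_lit 475197) (nat_lit 40) (.e (nat_lit 704589) (nat_lit 3) .nil)))))) (.g (nat_lit 1) (.e (nat_lit 166656) (nat_lit 0) .nil) .nil)))) (.nd (nat_lit 9) 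
(.lf (nat_lit 499116) (.g (nat_lit 2763) (.e (nat_lit 163975) (nat_lit 30) (.e (nat_lit 573481) (nat_lit 13) (.e (nat_lit 65619) (nat_lit 10) (.e (nat_lit 344117) (nat_lit 21) (.e (nat_lit 516144) (nat_lit 9) (.e (nat_lit 426442) (nat_lit 19) (.e (nat_lit 114432) (nat_lit 3) .nil))))))) (.g (nat_lit 1) (.e (nat_lit 165997) (nat_lit 0) .nil) .nil))) 
(.lf (nat_lit 499628) (.g (nat_lit 4441) (.e (nat_lit 163976) (nat_lit 30) (.e (nat_lit 573481) (nat_lit 13) (.e (nat_lit 65619) (nat_lit 10) (.e (nat_lit 344117) (nat_lit 21) (.e (nat_lit 516179) (nat_lit 15) (.e (nat_lit 475199) (nat_lit 40) (.e (nat_lit 704589) (nat_lit 3) .nil))))))) (.g (nat_lit 1) (.e (nat_lit 167158) (nat_lit 0) .nil) .nil)))))) 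
(.nd (nat_lit 7) (.nd (nat_lit 8) (.nd (nat_lit 9) 
(.lf (nat_lit 498796) (.g (nat_lit 2753) (.e (nat_lit 163963) (nat_lit 25) (.e (nat_lit 532499) (nat_lit 1) (.e (nat_lit 57927) (nat_lit 282) (.e (nat_lit 163868) (nat_lit 2) (.e (nat_lit 196670) (nat_lit 14) (.e (nat_lit 73746) (nat_lit 3) (.e (nat_lit 516126) (nat_lit 2) (.e (nat_lit 213033) (nat_lit 12) .nil)))))))) (.g (nat_lit 1) (.e (nat_lit 165153) (nat_lit 0) .nil) .nil))) 
(.lf (nat_lit 499308) (.g (nat_lit 3352) (.e (nat_lit 163975) (nat_lit 30) (.e (nat_lit 573491) (nat_lit 15) (.e (nat_lit 81954) (nat_lit 23) (.e (nat_lit 98367) (nat_lit 27) (.e (nat_lit 434271) (nat_lit 38) (.e (nat_lit 655373) (nat_lit 3) .nil)))))) (.g (nat_lit 1) (.e (nat_lit 166441) (nat_lit 0) .nil) .nil)))) (.nd (nat_lit 9) 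
(.lf (nat_lit 499052) (.g (nat_lit 2892) (.e (nat_lit 163975) (nat_lit 30) (.e (nat_lit 573481) (nat_lit 13) (.e (nat_lit 65604) (nat_lit 9) (.e (nat_lit 336013) (nat_lit 2) (.e (nat_lit 90170) (nat_lit 13) (.e (nat_lit 172059) (nat_lit 1) (.e (nat_lit 164347) (nat_lit 240) (.e (nat_lit 2599) (nat_lit 163) .nil)))))))) (.g (nat_lit 1) (.e (nat_lit 165887) (nat_lit 0) .nil) .nil))) 
(.lf (nat_lit 499564) (.g (nat_lit 3328) (.e (nat_lit 163976) (nat_lit 30) (.e (nat_lit 573481) (nat_lit 13) (.e (nat_lit 65619) (nat_lit 10) (.e (nat_lit 344117) (nat_lit 21) (.e (nat_lit 516144) (nat_lit 9) (.e (nat_lit 426374) (nat_lit 15) (.e (nat_lit 2059) (nat_lit 142) (.e (nat_lit 704589) (nat_lit 3) .nil)))))))) (.g (nat_lit 1) (.e (nat_lit 167077) (nat_lit 0) .nil) .nil))))) 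
(.nd (nat_lit 8) (.nd (nat_lit 9) 
(.lf (nat_lit 498924) (.g (nat_lit 3052) (.e (nat_lit 163964) (nat_lit 25) (.e (nat_lit 532535) (nat_lit 9) (.e (nat_lit 336099) (nat_lit 9) (.e (nat_lit 336028) (nat_lit 3) .nil)))) (.g (nat_lit 0) (.e (nat_lit 165524) (nat_lit 0) .nil) .nil))) 
(.lf (nat_lit 499436) (.g (nat_lit 2635) (.e (nat_lit 163975) (nat_lit 30) (.e (nat_lit 573492) (nat_lit 15) (.e (nat_lit 81956) (nat_lit 23) (.e (nat_lit 98361) (nat_lit 26) .nil)))) (.g (nat_lit 0) (.e (nat_lit 166782) (nat_lit 0) .nil) .nil)))) (.nd (nat_lit 9) 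
(.lf (nat_lit 499180) (.g (nat_lit 4613) (.e (nat_lit 163975) (nat_lit 30) (.e (nat_lit 573481) (nat_lit 13) (.e (nat_lit 65619) (nat_lit 10) (.e (nat_lit 344117) (nat_lit 21) (.e (nat_lit 516179) (nat_lit 15) (.e (nat_lit 475199) (nat_lit 40) (.e (nat_lit 704589) (nat_lit 3) .nil))))))) (.g (nat_lit 1) (.e (nat_lit 166078) (nat_lit 0) .nil) .nil))) 
(.lf (nat_lit 499692) (.g (nat_lit 2559) (.e (nat_lit 163976) (nat_lit 30) (.e (nat_lit 573489) (nat_lit 14) (.e (nat_lit 73755) (nat_lit 8) (.e (nat_lit 557105) (nat_lit 14) (.e (nat_lit 180252) (nat_lit 10) (.e (nat_lit 573474) (nat_lit 12) (.e (nat_lit 57502) (nat_lit 38) (.e (nat_lit 638994) (nat_lit 7) .nil)))))))) (.g (nat_lit 1) (.e (nat_lit 167332) (nat_lit 0) .nil) .nil)))))))) 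
(.nd (nat_lit 5) (.nd (nat_lit 6) (.nd (nat_lit 7) (.nd (nat_lit 8) (.nd (nat_lit 9) 
(.lf (nat_lit 498716) (.g (nat_lit 2106) (.e (nat_lit 163962) (nat_lit 25) (.e (nat_lit 532550) (nat_lit 12) (.e (nat_lit 360475) (nat_lit 8) (.e (nat_lit 557068) (nat_lit 9) (.e (nat_lit 7936) (nat_lit 21) .nil))))) (.g (nat_lit 0) (.e (nat_lit 164902) (nat_lit 0) .nil) .nil))) 
(.lf (nat_lit 499228) (.g (nat_lit 3247) (.e (nat_lit 163975) (nat_lit 30) (.e (nat_lit 573488) (nat_lit 14) (.e (nat_lit 73755) (nat_lit 8) (.e (nat_lit 557103) (nat_lit 14) (.e (nat_lit 180250) (nat_lit 10) (.e (nat_lit 573473) (nat_lit 12) (.e (nat_lit 57504) (nat_lit 38) (.e (nat_lit 638994) (nat_lit 7) .nil)))))))) (.g (nat_lit 1) (.e (nat_lit 166233) (nat_lit 0) .nil) .nil)))) 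
(.nd (nat_lit 9) 
(.lf (nat_lit 498972) (.g (nat_lit 2497) (.e (nat_lit 163973) (nat_lit 30) (.e (nat_lit 573489) (nat_lit 14) (.e (nat_lit 73755) (nat_lit 8) (.e (nat_lit 557105) (nat_lit 14) (.e (nat_lit 180252) (nat_lit 10) .nil))))) (.g (nat_lit 0) (.e (nat_lit 165662) (nat_lit 0) .nil) .nil))) 
(.lf (nat_lit 499484) (.g (nat_lit 6715) (.e (nat_lit 163975) (nat_lit 30) (.e (nat_lit 573493) (nat_lit 15) (.e (nat_lit 81953) (nat_lit 22) (.e (nat_lit 90168) (nat_lit 13) .nil)))) (.g (nat_lit 0) (.e (nat_lit 166885) (nat_lit 0) .nil) .nil))))) (.nd (nat_lit 8) (.nd (nat_lit 9) 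
(.lf (nat_lit 498844) (.g (nat_lit 2529) (.e (nat_lit 163963) (nat_lit 25) (.e (nat_lit 532560) (nat_lit 14) (.e (nat_lit 376865) (nat_lit 22) (.e (nat_lit 90185) (nat_lit 17) (.e (nat_lit 237573) (nat_lit 0) .nil))))) (.g (nat_lit 0) (.e (nat_lit 165313) (nat_lit 0) .nil) .nil))) 
(.lf (nat_lit 499356) (.g (nat_lit 951) (.e (nat_lit 163975) (nat_lit 30) (.e (nat_lit 573492) (nat_lit 15) (.e (nat_lit 81953) (nat_lit 22) (.e (nat_lit 90170) (nat_lit 13) .nil)))) (.g (nat_lit 0) (.e (nat_lit 166565) (nat_lit 0) .nil) .nil)))) (.nd (nat_lit 9) 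
(.lf (nat_lit 499100) (.g (nat_lit 3761) (.e (nat_lit 163975) (nat_lit 30) (.e (nat_lit 573481) (nat_lit 13) (.e (nat_lit 65610) (nat_lit 10) (.e (nat_lit 344117) (nat_lit 21) (.e (nat_lit 516179) (nat_lit 15) (.e (nat_lit 475199) (nat_lit 40) (.e (nat_lit 704590) (nat_lit 3) .nil))))))) (.g (nat_lit 1) (.e (nat_lit 165975) (nat_lit 0) .nil) .nil))) 
(.lf (nat_lit 499612) (.g (nat_lit 2355) (.e (nat_lit 163976) (nat_lit 30) (.e (nat_lit 573481) (nat_lit 13) (.e (nat_lit 65619) (nat_lit 10) (.e (nat_lit 344117) (nat_lit 21) (.e (nat_lit 516152) (nat_lit 9) (.e (nat_lit 426109) (nat_lit 1) (.e (nat_lit 164345) (nat_lit 240) (.e (nat_lit 2601) (nat_lit 163) .nil)))))))) (.g (nat_lit 1) (.e (nat_lit 167127) (nat_lit 0) .nil) .nil)))))) 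
(.nd (nat_lit 7) (.nd (nat_lit 8) (.nd (nat_lit 9) 
(.lf (nat_lit 498780) (.g (nat_lit 4179) (.e (nat_lit 163962) (nat_lit 25) (.e (nat_lit 532569) (nat_lit 16) (.e (nat_lit 401451) (nat_lit 12) (.e (nat_lit 475185) (nat_lit 29) (.e (nat_lit 557105) (nat_lit 14) .nil))))) (.g (nat_lit 0) (.e (nat_lit 165049) (nat_lit 0) .nil) .nil))) 
(.lf (nat_lit 499292) (.g (nat_lit 995) (.e (nat_lit 163975) (nat_lit 30) (.e (nat_lit 573491) (nat_lit 15) (.e (nat_lit 81954) (nat_lit 23) (.e (nat_lit 98359) (nat_lit 26) .nil)))) (.g (nat_lit 0) (.e (nat_lit 166400) (nat_lit 0) .nil) .nil)))) (.nd (nat_lit 9) 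
(.lf (nat_lit 499036) (.g (nat_lit 3932) (.e (nat_lit 163975) (nat_lit 30) (.e (nat_lit 573479) (nat_lit 13) (.e (nat_lit 65610) (nat_lit 10) (.e (nat_lit 344117) (nat_lit 21) (.e (nat_lit 516179) (nat_lit 15) (.e (nat_lit 475198) (nat_lit 40) (.e (nat_lit 704589) (nat_lit 3) .nil))))))) (.g (nat_lit 1) (.e (nat_lit 165854) (nat_lit 0) .nil) .nil))) 
(.lf (nat_lit 499548) (.g (nat_lit 4767) (.e (nat_lit 163976) (nat_lit 30) (.e (nat_lit 573481) (nat_lit 13) (.e (nat_lit 65610) (nat_lit 10) (.e (nat_lit 344117) (nat_lit 21) (.e (nat_lit 516179) (nat_lit 15) (.e (nat_lit 475199) (nat_lit 40) (.e (nat_lit 704589) (nat_lit 3) .nil))))))) (.g (nat_lit 1) (.e (nat_lit 167055) (nat_lit 0) .nil) .nil))))) (.nd (nat_lit 8) (.nd (nat_lit 9) 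
(.lf (nat_lit 498908) (.g (nat_lit 1953) (.e (nat_lit 163964) (nat_lit 25) (.e (nat_lit 532513) (nat_lit 3) (.e (nat_lit 114714) (nat_lit 22) (.e (nat_lit 90172) (nat_lit 14) (.e (nat_lit 180244) (nat_lit 5) (.e (nat_lit 532501) (nat_lit 1) (.e (nat_lit 57663) (nat_lit 152) (.e (nat_lit 2606) (nat_lit 163) .nil)))))))) (.g (nat_lit 1) (.e (nat_lit 165450) (nat_lit 0) .nil) .nil))) 
(.lf (nat_lit 499420) (.g (nat_lit 2787) (.e (nat_lit 163975) (nat_lit 30) (.e (nat_lit 573492) (nat_lit 15) (.e (nat_lit 81956) (nat_lit 23) (.e (nat_lit 98357) (nat_lit 26) (.e (nat_lit 426442) (nat_lit 19) (.e (nat_lit 114432) (nat_lit 3) .nil)))))) (.g (nat_lit 1) (.e (nat_lit 166735) (nat_lit 0) .nil) .nil)))) (.nd (nat_lit 9) 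
(.lf (nat_lit 499164) (.g (nat_lit 3473) (.e (nat_lit 163975) (nat_lit 30) (.e (nat_lit 573481) (nat_lit 13) (.e (nat_lit 65619) (nat_lit 10) (.e (nat_lit 344117) (nat_lit 21) (.e (nat_lit 516159) (nat_lit 10) (.e (nat_lit 434209) (nat_lit 18) (.e (nat_lit 5546) (nat_lit 306) (.e (nat_lit 2601) (nat_lit 163) .nil)))))))) (.g (nat_lit 1) (.e (nat_lit 166047) (nat_lit 0) .nil) .nil))) 
(.lf (nat_lit 499676) (.g (nat_lit 3291) (.e (nat_lit 163976) (nat_lit 30) (.e (nat_lit 573488) (nat_lit 14) (.e (nat_lit 73755) (nat_lit 8) (.e (nat_lit 557105) (nat_lit 14) (.e (nat_lit 180252) (nat_lit 10) (.e (nat_lit 573473) (nat_lit 12) (.e (nat_lit 57500) (nat_lit 37) (.e (nat_lit 630799) (nat_lit 7) .nil)))))))) (.g (nat_lit 1) (.e (nat_lit 167312) (nat_lit 0) .nil) .nil))))))) 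
(.nd (nat_lit 6) (.nd (nat_lit 7) (.nd (nat_lit 8) (.nd (nat_lit 9) 
(.lf (nat_lit 498748) (.g (nat_lit 2768) (.e (nat_lit 163962) (nat_lit 25) (.e (nat_lit 532551) (nat_lit 12) (.e (nat_lit 360467) (nat_lit 3) (.e (nat_lit 516139) (nat_lit 7) (.e (nat_lit 409617) (nat_lit 10) (.e (nat_lit 7936) (nat_lit 315) .nil)))))) (.g (nat_lit 1) (.e (nat_lit 164950) (nat_lit 0) .nil) .nil))) 
(.lf (nat_lit 499260) (.g (nat_lit 2249) (.e (nat_lit 163975) (nat_lit 30) (.e (nat_lit 573491) (nat_lit 15) (.e (nat_lit 81954) (nat_lit 23) (.e (nat_lit 98356) (nat_lit 26) (.e (nat_lit 426360) (nat_lit 15) (.e (nat_lit 2060) (nat_lit 142) (.e (nat_lit 704589) (nat_lit 3) .nil))))))) (.g (nat_lit 1) (.e (nat_lit 166364) (nat_lit 0) .nil) .nil)))) (.nd (nat_lit 9) 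
(.lf (nat_lit 499004) (.g (nat_lit 2362) (.e (nat_lit 163974) (nat_lit 30) (.e (nat_lit 573482) (nat_lit 13) (.e (nat_lit 65619) (nat_lit 10) (.e (nat_lit 344117) (nat_lit 21) (.e (nat_lit 516145) (nat_lit 9) .nil))))) (.g (nat_lit 0) (.e (nat_lit 165759) (nat_lit 0) .nil) .nil))) 
(.lf (nat_lit 499516) (.g (nat_lit 3495) (.e (nat_lit 163976) (nat_lit 30) (.e (nat_lit 573481) (nat_lit 13) (.e (nat_lit 65604) (nat_lit 9) (.e (nat_lit 336013) (nat_lit 2) (.e (nat_lit 90170) (nat_lit 13) (.e (nat_lit 172042) (nat_lit 0) (.e (nat_lit 3406) (nat_lit 212) (.e (nat_lit 655373) (nat_lit 3) .nil)))))))) (.g (nat_lit 1) (.e (nat_lit 166968) (nat_lit 0) .nil) .nil))))) 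
(.nd (nat_lit 8) (.nd (nat_lit 9) 
(.lf (nat_lit 498876) (.g (nat_lit 3530) (.e (nat_lit 163964) (nat_lit 25) (.e (nat_lit 532501) (nat_lit 1) (.e (nat_lit 57927) (nat_lit 282) (.e (nat_lit 163869) (nat_lit 2) (.e (nat_lit 196670) (nat_lit 14) (.e (nat_lit 73746) (nat_lit 3) (.e (nat_lit 516122) (nat_lit 2) (.e (nat_lit 213035) (nat_lit 12) .nil)))))))) (.g (nat_lit 1) (.e (nat_lit 165393) (nat_lit 0) .nil) .nil))) 
(.lf (nat_lit 499388) (.g (nat_lit 3253) (.e (nat_lit 163975) (nat_lit 30) (.e (nat_lit 573492) (nat_lit 15) (.e (nat_lit 81956) (nat_lit 23) (.e (nat_lit 98356) (nat_lit 26) (.e (nat_lit 426360) (nat_lit 15) (.e (nat_lit 2062) (nat_lit 142) (.e (nat_lit 704589) (nat_lit 3) .nil))))))) (.g (nat_lit 1) (.e (nat_lit 166700) (nat_lit 0) .nil) .nil)))) (.nd (nat_lit 9) 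
(.lf (nat_lit 499132) (.g (nat_lit 2837) (.e (nat_lit 163975) (nat_lit 30) (.e (nat_lit 573481) (nat_lit 13) (.e (nat_lit 65619) (nat_lit 10) (.e (nat_lit 344117) (nat_lit 21) (.e (nat_lit 516150) (nat_lit 9) (.e (nat_lit 426444) (nat_lit 19) (.e (nat_lit 114432) (nat_lit 3) .nil))))))) (.g (nat_lit 1) (.e (nat_lit 166013) (nat_lit 0) .nil) .nil))) 
(.lf (nat_lit 499644) (.g (nat_lit 2958) (.e (nat_lit 163976) (nat_lit 30) (.e (nat_lit 573482) (nat_lit 13) (.e (nat_lit 65619) (nat_lit 10) (.e (nat_lit 344107) (nat_lit 19) (.e (nat_lit 499913) (nat_lit 9) .nil))))) (.g (nat_lit 0) (.e (nat_lit 167179) (nat_lit 0) .nil) .nil)))))) (.nd (nat_lit 7) (.nd (nat_lit 8) (.nd (nat_lit 9) 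
(.lf (nat_lit 498812) (.g (nat_lit 2610) (.e (nat_lit 163963) (nat_lit 25) (.e (nat_lit 532501) (nat_lit 1) (.e (nat_lit 57926) (nat_lit 282) (.e (nat_lit 163875) (nat_lit 3) (.e (nat_lit 204862) (nat_lit 27) .nil))))) (.g (nat_lit 0) (.e (nat_lit 165178) (nat_lit 0) .nil) .nil))) 
(.lf (nat_lit 499324) (.g (nat_lit 2849) (.e (nat_lit 163975) (nat_lit 30) (.e (nat_lit 573491) (nat_lit 15) (.e (nat_lit 81955) (nat_lit 23) (.e (nat_lit 98384) (nat_lit 32) (.e (nat_lit 475199) (nat_lit 40) (.e (nat_lit 704589) (nat_lit 3) .nil)))))) (.g (nat_lit 1) (.e (nat_lit 166464) (nat_lit 0) .nil) .nil)))) (.nd (nat_lit 9) 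
(.lf (nat_lit 499068) (.g (nat_lit 4877) (.e (nat_lit 163975) (nat_lit 30) (.e (nat_lit 573481) (nat_lit 13) (.e (nat_lit 65604) (nat_lit 9) (.e (nat_lit 336013) (nat_lit 2) (.e (nat_lit 90170) (nat_lit 13) (.e (nat_lit 172138) (nat_lit 15) (.e (nat_lit 2058) (nat_lit 142) (.e (nat_lit 704589) (nat_lit 3) .nil)))))))) (.g (nat_lit 1) (.e (nat_lit 165904) (nat_lit 0) .nil) .nil))) 
(.lf (nat_lit 499580) (.g (nat_lit 2165) (.e (nat_lit 163976) (nat_lit 30) (.e (nat_lit 573481) (nat_lit 13) (.e (nat_lit 65619) (nat_lit 10) (.e (nat_lit 344117) (nat_lit 21) (.e (nat_lit 516147) (nat_lit 9) (.e (nat_lit 426375) (nat_lit 15) (.e (nat_lit 2056) (nat_lit 142) (.e (nat_lit 704589) (nat_lit 3) .nil)))))))) (.g (nat_lit 1) (.e (nat_lit 167093) (nat_lit 0) .nil) .nil))))) 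
(.nd (nat_lit 8) (.nd (nat_lit 9) 
(.lf (nat_lit 498940) (.g (nat_lit 2610) (.e (nat_lit 163965) (nat_lit 25) (.e (nat_lit 532501) (nat_lit 1) (.e (nat_lit 57926) (nat_lit 282) (.e (nat_lit 163875) (nat_lit 3) (.e (nat_lit 204862) (nat_lit 27) .nil))))) (.g (nat_lit 0) (.e (nat_lit 165583) (nat_lit 0) .nil) .nil))) 
(.lf (nat_lit 499452) (.g (nat_lit 3720) (.e (nat_lit 163975) (nat_lit 30) (.e (nat_lit 573492) (nat_lit 15) (.e (nat_lit 81956) (nat_lit 23) (.e (nat_lit 98367) (nat_lit 27) (.e (nat_lit 434272) (nat_lit 38) (.e (nat_lit 655373) (nat_lit 3) .nil)))))) (.g (nat_lit 1) (.e (nat_lit 166826) (nat_lit 0) .nil) .nil)))) (.nd (nat_lit 9) 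
(.lf (nat_lit 499196) (.g (nat_lit 1784) (.e (nat_lit 163975) (nat_lit 30) (.e (nat_lit 573481) (nat_lit 13) (.e (nat_lit 65619) (nat_lit 10) (.e (nat_lit 344118) (nat_lit 21) (.e (nat_lit 516182) (nat_lit 15) .nil))))) (.g (nat_lit 0) (.e (nat_lit 166094) (nat_lit 0) .nil) .nil))) 
(.lf (nat_lit 499708) (.g (nat_lit 1419) (.e (nat_lit 163976) (nat_lit 30) (.e (nat_lit 573491) (nat_lit 15) (.e (nat_lit 81954) (nat_lit 23) (.e (nat_lit 98354) (nat_lit 26) (.e (nat_lit 426025) (nat_lit 0) .nil))))) (.g (nat_lit 0) (.e (nat_lit 167424) (nat_lit 0) .nil) .nil))))))))))) 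
(.nd (nat_lit 2) (.nd (nat_lit 3) (.nd (nat_lit 4) (.nd (nat_lit 5) (.nd (nat_lit 6) 
(.nd (nat_lit 7) (.nd (nat_lit 8) (.nd (nat_lit 9) 
(.lf (nat_lit 498690) (.g (nat_lit 2263) (.e (nat_lit 163962) (nat_lit 25) (.e (nat_lit 532550) (nat_lit 12) (.e (nat_lit 360474) (nat_lit 8) (.e (nat_lit 557072) (nat_lit 9) (.e (nat_lit 288) (nat_lit 21) (.e (nat_lit 335872) (nat_lit 0) (.e (nat_lit 6713) (nat_lit 360) .nil))))))) (.g (nat_lit 1) (.e (nat_lit 164862) (nat_lit 0) .nil) .nil))) 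
(.lf (nat_lit 499202) (.g (nat_lit 4734) (.e (nat_lit 163975) (nat_lit 30) (.e (nat_lit 573481) (nat_lit 13) (.e (nat_lit 65621) (nat_lit 11) (.e (nat_lit 368676) (nat_lit 21) (.e (nat_lit 516179) (nat_lit 15) (.e (nat_lit 475199) (nat_lit 40) (.e (nat_lit 704589) (nat_lit 3) .nil))))))) (.g (nat_lit 1) (.e (nat_lit 166105) (nat_lit 0) .nil) .nil)))) (.nd (nat_lit 9) 
(.lf (nat_lit 498946) (.g (nat_lit 2924) (.e (nat_lit 163965) (nat_lit 25) (.e (nat_lit 532560) (nat_lit 14) (.e (nat_lit 376865) (nat_lit 22) (.e (nat_lit 90185) (nat_lit 17) (.e (nat_lit 237573) (nat_lit 0) .nil))))) (.g (nat_lit 0) (.e (nat_lit 165610) (nat_lit 0) .nil) .nil))) 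
(.lf (nat_lit 499458) (.g (nat_lit 3817) (.e (nat_lit 163975) (nat_lit 30) (.e (nat_lit 573492) (nat_lit 15) (.e (nat_lit 81956) (nat_lit 23) (.e (nat_lit 98383) (nat_lit 32) (.e (nat_lit 475198) (nat_lit 40) (.e (nat_lit 704589) (nat_lit 3) .nil)))))) (.g (nat_lit 1) (.e (nat_lit 166847) (nat_lit 0) .nil) .nil))))) (.nd (nat_lit 8) (.nd (nat_lit 9) 
(.lf (nat_lit 498818) (.g (nat_lit 2707) (.e (nat_lit 163963) (nat_lit 25) (.e (nat_lit 532501) (nat_lit 1) (.e (nat_lit 57927) (nat_lit 282) (.e (nat_lit 163869) (nat_lit 2) (.e (nat_lit 196670) (nat_lit 14) (.e (nat_lit 73746) (nat_lit 3) (.e (nat_lit 516126) (nat_lit 2) (.e (nat_lit 213034) (nat_lit 12) .nil)))))))) (.g (nat_lit 1) (.e (nat_lit 165189) (nat_lit 0) .nil) .nil))) 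
(.lf (nat_lit 499330) (.g (nat_lit 577) (.e (nat_lit 163975) (nat_lit 30) (.e (nat_lit 573491) (nat_lit 15) (.e (nat_lit 81956) (nat_lit 23) .nil))) (.g (nat_lit 0) (.e (nat_lit 166470) (nat_lit 0) .nil) .nil)))) (.nd (nat_lit 9) 
(.lf (nat_lit 499074) (.g (nat_lit 1848) (.e (nat_lit 163975) (nat_lit 30) (.e (nat_lit 573481) (nat_lit 13) (.e (nat_lit 65604) (nat_lit 9) (.e (nat_lit 336028) (nat_lit 3) (.e (nat_lit 98359) (nat_lit 26) .nil))))) (.g (nat_lit 0) (.e (nat_lit 165915) (nat_lit 0) .nil) .nil))) 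
(.lf (nat_lit 499586) (.g (nat_lit 2807) (.e (nat_lit 163976) (nat_lit 30) (.e (nat_lit 573481) (nat_lit 13) (.e (nat_lit 65619) (nat_lit 10) (.e (nat_lit 344117) (nat_lit 21) (.e (nat_lit 516148) (nat_lit 9) (.e (nat_lit 426444) (nat_lit 19) (.e (nat_lit 114432) (nat_lit 3) .nil))))))) (.g (nat_lit 1) (.e (nat_lit 167099) (nat_lit 0) .nil) .nil)))))) 
(.nd (nat_lit 7) (.nd (nat_lit 8) (.nd (nat_lit 9) 
(.lf (nat_lit 498754) (.g (nat_lit 1037) (.e (nat_lit 163962) (nat_lit 25) (.e (nat_lit 532559) (nat_lit 14) (.e (nat_lit 376866) (nat_lit 23) (.e (nat_lit 98350) (nat_lit 24) (.e (nat_lit 409617) (nat_lit 10) .nil))))) (.g (nat_lit 0) (.e (nat_lit 164979) (nat_lit 0) .nil) .nil))) 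
(.lf (nat_lit 499266) (.g (nat_lit 2080) (.e (nat_lit 163975) (nat_lit 30) (.e (nat_lit 573491) (nat_lit 15) (.e (nat_lit 81954) (nat_lit 23) (.e (nat_lit 98356) (nat_lit 26) (.e (nat_lit 426363) (nat_lit 15) (.e (nat_lit 7936) (nat_lit 142) (.e (nat_lit 704589) (nat_lit 3) .nil))))))) (.g (nat_lit 1) (.e (nat_lit 166370) (nat_lit 0) .nil) .nil)))) (.nd (nat_lit 9) 
(.lf (nat_lit 499010) (.g (nat_lit 4164) (.e (nat_lit 163974) (nat_lit 30) (.e (nat_lit 573484) (nat_lit 13) (.e (nat_lit 65610) (nat_lit 10) (.e (nat_lit 344117) (nat_lit 21) (.e (nat_lit 516179) (nat_lit 15) (.e (nat_lit 475198) (nat_lit 40) (.e (nat_lit 704589) (nat_lit 3) .nil))))))) (.g (nat_lit 1) (.e (nat_lit 165765) (nat_lit 0) .nil) .nil))) 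
(.lf (nat_lit 499522) (.g (nat_lit 3410) (.e (nat_lit 163976) (nat_lit 30) (.e (nat_lit 573481) (nat_lit 13) (.e (nat_lit 65604) (nat_lit 9) (.e (nat_lit 336013) (nat_lit 2) (.e (nat_lit 90170) (nat_lit 13) (.e (nat_lit 172049) (nat_lit 0) (.e (nat_lit 3408) (nat_lit 212) (.e (nat_lit 655373) (nat_lit 3) .nil)))))))) (.g (nat_lit 1) (.e (nat_lit 166980) (nat_lit 0) .nil) .nil))))) 
(.nd (nat_lit 8) (.nd (nat_lit 9) 
(.lf (nat_lit 498882) (.g (nat_lit 2822) (.e (nat_lit 163964) (nat_lit 25) (.e (nat_lit 532501) (nat_lit 1) (.e (nat_lit 57927) (nat_lit 282) (.e (nat_lit 163871) (nat_lit 2) (.e (nat_lit 196670) (nat_lit 14) (.e (nat_lit 73746) (nat_lit 3) (.e (nat_lit 516126) (nat_lit 2) (.e (nat_lit 213035) (nat_lit 12) .nil)))))))) (.g (nat_lit 1) (.e (nat_lit 165400) (nat_lit 0) .nil) .nil))) 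
(.lf (nat_lit 499394) (.g (nat_lit 3177) (.e (nat_lit 163975) (nat_lit 30) (.e (nat_lit 573492) (nat_lit 15) (.e (nat_lit 81956) (nat_lit 23) (.e (nat_lit 98356) (nat_lit 26) (.e (nat_lit 426363) (nat_lit 15) (.e (nat_lit 2062) (nat_lit 142) (.e (nat_lit 704589) (nat_lit 3) .nil))))))) (.g (nat_lit 1) (.e (nat_lit 166706) (nat_lit 0) .nil) .nil)))) (.nd (nat_lit 9) 
(.lf (nat_lit 499138) (.g (nat_lit 4334) (.e (nat_lit 163975) (nat_lit 30) (.e (nat_lit 573481) (nat_lit 13) (.e (nat_lit 65619) (nat_lit 10) (.e (nat_lit 344117) (nat_lit 21) (.e (nat_lit 516151) (nat_lit 9) (.e (nat_lit 426042) (nat_lit 0) (.e (nat_lit 2458) (nat_lit 157) (.e (nat_lit 5546) (nat_lit 306) (.e (nat_lit 2600) (nat_lit 163) .nil))))))))) (.g (nat_lit 1) (.e (nat_lit 166019) (nat_lit 0) .nil) .nil))) 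
(.lf (nat_lit 499650) (.g (nat_lit 5940) (.e (nat_lit 163976) (nat_lit 30) (.e (nat_lit 573484) (nat_lit 13) (.e (nat_lit 65610) (nat_lit 10) (.e (nat_lit 344117) (nat_lit 21) (.e (nat_lit 516179) (nat_lit 15) (.e (nat_lit 475199) (nat_lit 40) (.e (nat_lit 704589) (nat_lit 3) .nil))))))) (.g (nat_lit 1) (.e (nat_lit 167185) (nat_lit 0) .nil) .nil))))))) 
(.nd (nat_lit 6) (.nd (nat_lit 7) (.nd (nat_lit 8) (.nd (nat_lit 9) 
(.lf (nat_lit 498722) (.g (nat_lit 3607) (.e (nat_lit 163962) (nat_lit 25) (.e (nat_lit 532550) (nat_lit 12) (.e (nat_lit 360475) (nat_lit 8) (.e (nat_lit 557072) (nat_lit 9) .nil)))) (.g (nat_lit 0) (.e (nat_lit 164910) (nat_lit 0) .nil) .nil))) 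
(.lf (nat_lit 499234) (.g (nat_lit 2480) (.e (nat_lit 163975) (nat_lit 30) (.e (nat_lit 573488) (nat_lit 14) (.e (nat_lit 73755) (nat_lit 8) (.e (nat_lit 557105) (nat_lit 14) (.e (nat_lit 180251) (nat_lit 10) (.e (nat_lit 573477) (nat_lit 12) (.e (nat_lit 57502) (nat_lit 38) (.e (nat_lit 638994) (nat_lit 7) .nil)))))))) (.g (nat_lit 1) (.e (nat_lit 166260) (nat_lit 0) .nil) .nil)))) 
(.nd (nat_lit 9) 
(.lf (nat_lit 498978) (.g (nat_lit 3665) (.e (nat_lit 163973) (nat_lit 30) (.e (nat_lit 573492) (nat_lit 15) (.e (nat_lit 81956) (nat_lit 23) (.e (nat_lit 98357) (nat_lit 26) .nil)))) (.g (nat_lit 0) (.e (nat_lit 165709) (nat_lit 0) .nil) .nil))) 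
(.lf (nat_lit 499490) (.g (nat_lit 4419) (.e (nat_lit 163975) (nat_lit 30) (.e (nat_lit 573493) (nat_lit 15) (.e (nat_lit 81956) (nat_lit 23) (.e (nat_lit 98356) (nat_lit 26) .nil)))) (.g (nat_lit 0) (.e (nat_lit 166894) (nat_lit 0) .nil) .nil))))) (.nd (nat_lit 8) (.nd (nat_lit 9) 
(.lf (nat_lit 498850) (.g (nat_lit 2710) (.e (nat_lit 163964) (nat_lit 25) (.e (nat_lit 532499) (nat_lit 1) (.e (nat_lit 57927) (nat_lit 282) (.e (nat_lit 163868) (nat_lit 2) (.e (nat_lit 196670) (nat_lit 14) (.e (nat_lit 73746) (nat_lit 3) (.e (nat_lit 516126) (nat_lit 2) (.e (nat_lit 213033) (nat_lit 12) .nil)))))))) (.g (nat_lit 1) (.e (nat_lit 165337) (nat_lit 0) .nil) .nil))) 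
(.lf (nat_lit 499362) (.g (nat_lit 506) (.e (nat_lit 163975) (nat_lit 30) (.e (nat_lit 573492) (nat_lit 15) (.e (nat_lit 81954) (nat_lit 23) .nil))) (.g (nat_lit 0) (.e (nat_lit 166645) (nat_lit 0) .nil) .nil)))) (.nd (nat_lit 9) 
(.lf (nat_lit 499106) (.g (nat_lit 3890) (.e (nat_lit 163975) (nat_lit 30) (.e (nat_lit 573481) (nat_lit 13) (.e (nat_lit 65619) (nat_lit 10) (.e (nat_lit 344117) (nat_lit 21) (.e (nat_lit 516143) (nat_lit 9) (.e (nat_lit 426109) (nat_lit 1) (.e (nat_lit 164345) (nat_lit 240) (.e (nat_lit 2600) (nat_lit 163) .nil)))))))) (.g (nat_lit 1) (.e (nat_lit 165987) (nat_lit 0) .nil) .nil))) 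
(.lf (nat_lit 499618) (.g (nat_lit 2129) (.e (nat_lit 163976) (nat_lit 30) (.e (nat_lit 573481) (nat_lit 13) (.e (nat_lit 65619) (nat_lit 10) (.e (nat_lit 344117) (nat_lit 21) (.e (nat_lit 516159) (nat_lit 10) .nil))))) (.g (nat_lit 0) (.e (nat_lit 167133) (nat_lit 0) .nil) .nil)))))) (.nd (nat_lit 7) (.nd (nat_lit 8) (.nd (nat_lit 9) 
(.lf (nat_lit 498786) (.g (nat_lit 2991) (.e (nat_lit 163963) (nat_lit 25) (.e (nat_lit 532499) (nat_lit 1) (.e (nat_lit 57847) (nat_lit 252) (.e (nat_lit 57368) (nat_lit 1) .nil)))) (.g (nat_lit 0) (.e (nat_lit 165131) (nat_lit 0) .nil) .nil))) 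
(.lf (nat_lit 499298) (.g (nat_lit 1738) (.e (nat_lit 163975) (nat_lit 30) (.e (nat_lit 573491) (nat_lit 15) (.e (nat_lit 81954) (nat_lit 23) (.e (nat_lit 98359) (nat_lit 26) (.e (nat_lit 433920) (nat_lit 19) (.e (nat_lit 114432) (nat_lit 3) .nil)))))) (.g (nat_lit 1) (.e (nat_lit 166415) (nat_lit 0) .nil) .nil)))) (.nd (nat_lit 9) 
(.lf (nat_lit 499042) (.g (nat_lit 1758) (.e (nat_lit 163975) (nat_lit 30) (.e (nat_lit 573481) (nat_lit 13) (.e (nat_lit 65604) (nat_lit 9) (.e (nat_lit 336013) (nat_lit 2) (.e (nat_lit 90134) (nat_lit 9) .nil))))) (.g (nat_lit 0) (.e (nat_lit 165868) (nat_lit 0) .nil) .nil))) 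
(.lf (nat_lit 499554) (.g (nat_lit 2857) (.e (nat_lit 163976) (nat_lit 30) (.e (nat_lit 573481) (nat_lit 13) (.e (nat_lit 65619) (nat_lit 10) (.e (nat_lit 344117) (nat_lit 21) (.e (nat_lit 516143) (nat_lit 9) (.e (nat_lit 426025) (nat_lit 0) (.e (nat_lit 3399) (nat_lit 211) (.e (nat_lit 647180) (nat_lit 3) .nil)))))))) (.g (nat_lit 1) (.e (nat_lit 167067) (nat_lit 0) .nil) .nil))))) 
(.nd (nat_lit 8) (.nd (nat_lit 9) 
(.lf (nat_lit 498914) (.g (nat_lit 4648) (.e (nat_lit 163964) (nat_lit 25) (.e (nat_lit 532513) (nat_lit 3) (.e (nat_lit 114718) (nat_lit 23) (.e (nat_lit 98384) (nat_lit 32) (.e (nat_lit 475179) (nat_lit 24) (.e (nat_lit 516120) (nat_lit 1) (.e (nat_lit 164304) (nat_lit 226) (.e (nat_lit 2612) (nat_lit 163) .nil)))))))) (.g (nat_lit 1) (.e (nat_lit 165465) (nat_lit 0) .nil) .nil))) 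
(.lf (nat_lit 499426) (.g (nat_lit 2663) (.e (nat_lit 163975) (nat_lit 30) (.e (nat_lit 573492) (nat_lit 15) (.e (nat_lit 81956) (nat_lit 23) (.e (nat_lit 98359) (nat_lit 26) (.e (nat_lit 426380) (nat_lit 15) .nil))))) (.g (nat_lit 0) (.e (nat_lit 166769) (nat_lit 0) .nil) .nil)))) (.nd (nat_lit 9) 
(.lf (nat_lit 499170) (.g (nat_lit 2413) (.e (nat_lit 163975) (nat_lit 30) (.e (nat_lit 573481) (nat_lit 13) (.e (nat_lit 65619) (nat_lit 10) (.e (nat_lit 344117) (nat_lit 21) (.e (nat_lit 516160) (nat_lit 10) (.e (nat_lit 434270) (nat_lit 38) (.e (nat_lit 655373) (nat_lit 3) .nil))))))) (.g (nat_lit 1) (.e (nat_lit 166055) (nat_lit 0) .nil) .nil))) 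
(.lf (nat_lit 499682) (.g (nat_lit 2557) (.e (nat_lit 163976) (nat_lit 30) (.e (nat_lit 573489) (nat_lit 14) (.e (nat_lit 73755) (nat_lit 8) (.e (nat_lit 557097) (nat_lit 13) .nil)))) (.g (nat_lit 0) (.e (nat_lit 167322) (nat_lit 0) .nil) .nil)))))))) (.nd (nat_lit 5) (.nd (nat_lit 6) (.nd (nat_lit 7) (.nd (nat_lit 8) (.nd (nat_lit 9) 
(.lf (nat_lit 498706) (.g (nat_lit 3095) (.e (nat_lit 163962) (nat_lit 25) (.e (nat_lit 532550) (nat_lit 12) (.e (nat_lit 360475) (nat_lit 8) (.e (nat_lit 557065) (nat_lit 9) (.e (nat_lit 326) (nat_lit 25) .nil))))) (.g (nat_lit 0) (.e (nat_lit 164882) (nat_lit 0) .nil) .nil))) 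
(.lf (nat_lit 499218) (.g (nat_lit 4237) (.e (nat_lit 163975) (nat_lit 30) (.e (nat_lit 573487) (nat_lit 14) (.e (nat_lit 73753) (nat_lit 8) (.e (nat_lit 557105) (nat_lit 14) (.e (nat_lit 180251) (nat_lit 10) (.e (nat_lit 573475) (nat_lit 12) (.e (nat_lit 57503) (nat_lit 38) (.e (nat_lit 638994) (nat_lit 7) .nil)))))))) (.g (nat_lit 1) (.e (nat_lit 166179) (nat_lit 0) .nil) .nil)))) 
(.nd (nat_lit 9) 
(.lf (nat_lit 498962) (.g (nat_lit 2199) (.e (nat_lit 163973) (nat_lit 30) (.e (nat_lit 573481) (nat_lit 13) (.e (nat_lit 65604) (nat_lit 9) (.e (nat_lit 336028) (nat_lit 3) (.e (nat_lit 98366) (nat_lit 27) (.e (nat_lit 434272) (nat_lit 38) (.e (nat_lit 655375) (nat_lit 3) .nil))))))) (.g (nat_lit 1) (.e (nat_lit 165650) (nat_lit 0) .nil) .nil))) 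
(.lf (nat_lit 499474) (.g (nat_lit 2854) (.e (nat_lit 163975) (nat_lit 30) (.e (nat_lit 573492) (nat_lit 15) (.e (nat_lit 81956) (nat_lit 23) (.e (nat_lit 98385) (nat_lit 32) (.e (nat_lit 475201) (nat_lit 40) (.e (nat_lit 712448) (nat_lit 3) .nil)))))) (.g (nat_lit 1) (.e (nat_lit 166863) (nat_lit 0) .nil) .nil))))) (.nd (nat_lit 8) (.nd (nat_lit 9) 
(.lf (nat_lit 498834) (.g (nat_lit 1899) (.e (nat_lit 163963) (nat_lit 25) (.e (nat_lit 532534) (nat_lit 9) (.e (nat_lit 336019) (nat_lit 3) (.e (nat_lit 98342) (nat_lit 20) .nil)))) (.g (nat_lit 0) (.e (nat_lit 165290) (nat_lit 0) .nil) .nil))) 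
(.lf (nat_lit 499346) (.g (nat_lit 3211) (.e (nat_lit 163975) (nat_lit 30) (.e (nat_lit 573492) (nat_lit 15) (.e (nat_lit 81951) (nat_lit 22) (.e (nat_lit 90170) (nat_lit 13) (.e (nat_lit 172136) (nat_lit 15) .nil))))) (.g (nat_lit 0) (.e (nat_lit 166513) (nat_lit 0) .nil) .nil)))) (.nd (nat_lit 9) 
(.lf (nat_lit 499090) (.g (nat_lit 4710) (.e (nat_lit 163975) (nat_lit 30) (.e (nat_lit 573481) (nat_lit 13) (.e (nat_lit 65604) (nat_lit 9) (.e (nat_lit 336028) (nat_lit 3) (.e (nat_lit 98386) (nat_lit 32) (.e (nat_lit 475198) (nat_lit 40) (.e (nat_lit 704590) (nat_lit 3) .nil))))))) (.g (nat_lit 1) (.e (nat_lit 165965) (nat_lit 0) .nil) .nil))) 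
(.lf (nat_lit 499602) (.g (nat_lit 4093) (.e (nat_lit 163976) (nat_lit 30) (.e (nat_lit 573481) (nat_lit 13) (.e (nat_lit 65619) (nat_lit 10) (.e (nat_lit 344117) (nat_lit 21) (.e (nat_lit 516151) (nat_lit 9) (.e (nat_lit 426097) (nat_lit 1) (.e (nat_lit 164348) (nat_lit 240) (.e (nat_lit 2601) (nat_lit 163) .nil)))))))) (.g (nat_lit 1) (.e (nat_lit 167116) (nat_lit 0) .nil) .nil)))))) 
(.nd (nat_lit 7) (.nd (nat_lit 8) (.nd (nat_lit 9) 
(.lf (nat_lit 498770) (.g (nat_lit 1734) (.e (nat_lit 163962) (nat_lit 25) (.e (nat_lit 532569) (nat_lit 16) (.e (nat_lit 401434) (nat_lit 9) (.e (nat_lit 426140) (nat_lit 3) .nil)))) (.g (nat_lit 0) (.e (nat_lit 165029) (nat_lit 0) .nil) .nil))) 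
(.lf (nat_lit 499282) (.g (nat_lit 1796) (.e (nat_lit 163975) (nat_lit 30) (.e (nat_lit 573491) (nat_lit 15) (.e (nat_lit 81954) (nat_lit 23) (.e (nat_lit 98356) (nat_lit 26) (.e (nat_lit 433920) (nat_lit 15) .nil))))) (.g (nat_lit 0) (.e (nat_lit 166386) (nat_lit 0) .nil) .nil)))) (.nd (nat_lit 9) 
(.lf (nat_lit 499026) (.g (nat_lit 4550) (.e (nat_lit 163974) (nat_lit 30) (.e (nat_lit 573493) (nat_lit 15) (.e (nat_lit 81956) (nat_lit 23) (.e (nat_lit 98358) (nat_lit 26) .nil)))) (.g (nat_lit 0) (.e (nat_lit 165800) (nat_lit 0) .nil) .nil))) 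
(.lf (nat_lit 499538) (.g (nat_lit 1618) (.e (nat_lit 163976) (nat_lit 30) (.e (nat_lit 573481) (nat_lit 13) (.e (nat_lit 65604) (nat_lit 9) (.e (nat_lit 336028) (nat_lit 3) (.e (nat_lit 106240) (nat_lit 26) .nil))))) (.g (nat_lit 0) (.e (nat_lit 167040) (nat_lit 0) .nil) .nil))))) (.nd (nat_lit 8) (.nd (nat_lit 9) 
(.lf (nat_lit 498898) (.g (nat_lit 2307) (.e (nat_lit 163964) (nat_lit 25) (.e (nat_lit 532504) (nat_lit 1) (.e (nat_lit 57852) (nat_lit 252) (.e (nat_lit 57371) (nat_lit 2) .nil)))) (.g (nat_lit 0) (.e (nat_lit 165426) (nat_lit 0) .nil) .nil))) 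
(.lf (nat_lit 499410) (.g (nat_lit 3575) (.e (nat_lit 163975) (nat_lit 30) (.e (nat_lit 573492) (nat_lit 15) (.e (nat_lit 81956) (nat_lit 23) (.e (nat_lit 98356) (nat_lit 26) (.e (nat_lit 426400) (nat_lit 15) (.e (nat_lit 2056) (nat_lit 142) (.e (nat_lit 704589) (nat_lit 3) .nil))))))) (.g (nat_lit 1) (.e (nat_lit 166722) (nat_lit 0) .nil) .nil)))) (.nd (nat_lit 9) 
(.lf (nat_lit 499154) (.g (nat_lit 3111) (.e (nat_lit 163975) (nat_lit 30) (.e (nat_lit 573481) (nat_lit 13) (.e (nat_lit 65619) (nat_lit 10) (.e (nat_lit 344117) (nat_lit 21) (.e (nat_lit 516151) (nat_lit 9) (.e (nat_lit 433920) (nat_lit 24) (.e (nat_lit 163584) (nat_lit 3) .nil))))))) (.g (nat_lit 1) (.e (nat_lit 166036) (nat_lit 0) .nil) .nil))) 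
(.lf (nat_lit 499666) (.g (nat_lit 2182) (.e (nat_lit 163976) (nat_lit 30) (.e (nat_lit 573488) (nat_lit 14) (.e (nat_lit 73755) (nat_lit 8) (.e (nat_lit 557103) (nat_lit 14) (.e (nat_lit 180250) (nat_lit 10) (.e (nat_lit 573477) (nat_lit 12) (.e (nat_lit 57500) (nat_lit 37) (.e (nat_lit 630799) (nat_lit 7) .nil)))))))) (.g (nat_lit 1) (.e (nat_lit 167291) (nat_lit 0) .nil) .nil))))))) 
(.nd (nat_lit 6) (.nd (nat_lit 7) (.nd (nat_lit 8) (.nd (nat_lit 9) 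
(.lf (nat_lit 498738) (.g (nat_lit 2765) (.e (nat_lit 163962) (nat_lit 25) (.e (nat_lit 532550) (nat_lit 12) (.e (nat_lit 360475) (nat_lit 8) (.e (nat_lit 557087) (nat_lit 11) (.e (nat_lit 24591) (nat_lit 0) .nil))))) (.g (nat_lit 0) (.e (nat_lit 164936) (nat_lit 0) .nil) .nil))) 
(.lf (nat_lit 499250) (.g (nat_lit 4121) (.e (nat_lit 163975) (nat_lit 30) (.e (nat_lit 573491) (nat_lit 15) (.e (nat_lit 81951) (nat_lit 22) (.e (nat_lit 90170) (nat_lit 13) (.e (nat_lit 172138) (nat_lit 15) (.e (nat_lit 2058) (nat_lit 142) (.e (nat_lit 704589) (nat_lit 3) .nil))))))) (.g (nat_lit 1) (.e (nat_lit 166328) (nat_lit 0) .nil) .nil)))) (.nd (nat_lit 9) 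
(.lf (nat_lit 498994) (.g (nat_lit 1061) (.e (nat_lit 163973) (nat_lit 30) (.e (nat_lit 573493) (nat_lit 15) (.e (nat_lit 81956) (nat_lit 23) .nil))) (.g (nat_lit 0) (.e (nat_lit 165746) (nat_lit 0) .nil) .nil))) 
(.lf (nat_lit 499506) (.g (nat_lit 4668) (.e (nat_lit 163976) (nat_lit 30) (.e (nat_lit 573479) (nat_lit 13) (.e (nat_lit 65610) (nat_lit 10) (.e (nat_lit 344117) (nat_lit 21) (.e (nat_lit 516179) (nat_lit 15) (.e (nat_lit 475199) (nat_lit 40) (.e (nat_lit 704589) (nat_lit 3) .nil))))))) (.g (nat_lit 1) (.e (nat_lit 166952) (nat_lit 0) .nil) .nil))))) (.nd (nat_lit 8) (.nd (nat_lit 9) 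
(.lf (nat_lit 498866) (.g (nat_lit 3993) (.e (nat_lit 163964) (nat_lit 25) (.e (nat_lit 532501) (nat_lit 1) (.e (nat_lit 57926) (nat_lit 282) (.e (nat_lit 163869) (nat_lit 2) (.e (nat_lit 196670) (nat_lit 14) (.e (nat_lit 73746) (nat_lit 3) (.e (nat_lit 516127) (nat_lit 2) (.e (nat_lit 213035) (nat_lit 12) .nil)))))))) (.g (nat_lit 1) (.e (nat_lit 165371) (nat_lit 0) .nil) .nil))) 
(.lf (nat_lit 499378) (.g (nat_lit 3223) (.e (nat_lit 163975) (nat_lit 30) (.e (nat_lit 573492) (nat_lit 15) (.e (nat_lit 81956) (nat_lit 23) (.e (nat_lit 98356) (nat_lit 26) (.e (nat_lit 426350) (nat_lit 15) .nil))))) (.g (nat_lit 0) (.e (nat_lit 166690) (nat_lit 0) .nil) .nil)))) (.nd (nat_lit 9) 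
(.lf (nat_lit 499122) (.g (nat_lit 4641) (.e (nat_lit 163975) (nat_lit 30) (.e (nat_lit 573481) (nat_lit 13) (.e (nat_lit 65619) (nat_lit 10) (.e (nat_lit 344117) (nat_lit 21) (.e (nat_lit 516145) (nat_lit 9) (.e (nat_lit 426376) (nat_lit 15) (.e (nat_lit 2058) (nat_lit 142) (.e (nat_lit 704589) (nat_lit 3) .nil)))))))) (.g (nat_lit 1) (.e (nat_lit 166003) (nat_lit 0) .nil) .nil))) 
(.lf (nat_lit 499634) (.g (nat_lit 3783) (.e (nat_lit 163976) (nat_lit 30) (.e (nat_lit 573481) (nat_lit 13) (.e (nat_lit 65619) (nat_lit 10) (.e (nat_lit 344117) (nat_lit 21) (.e (nat_lit 516181) (nat_lit 15) (.e (nat_lit 475199) (nat_lit 40) (.e (nat_lit 704589) (nat_lit 3) .nil))))))) (.g (nat_lit 1) (.e (nat_lit 167164) (nat_lit 0) .nil) .nil)))))) 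
(.nd (nat_lit 7) (.nd (nat_lit 8) (.nd (nat_lit 9) 
(.lf (nat_lit 498802) (.g (nat_lit 4221) (.e (nat_lit 163963) (nat_lit 25) (.e (nat_lit 532499) (nat_lit 1) (.e (nat_lit 57927) (nat_lit 282) (.e (nat_lit 163869) (nat_lit 2) (.e (nat_lit 196670) (nat_lit 14) (.e (nat_lit 73746) (nat_lit 3) (.e (nat_lit 516127) (nat_lit 2) (.e (nat_lit 213034) (nat_lit 12) .nil)))))))) (.g (nat_lit 1) (.e (nat_lit 165160) (nat_lit 0) .nil) .nil))) 
(.lf (nat_lit 499314) (.g (nat_lit 3545) (.e (nat_lit 163975) (nat_lit 30) (.e (nat_lit 573491) (nat_lit 15) (.e (nat_lit 81954) (nat_lit 23) (.e (nat_lit 98384) (nat_lit 32) (.e (nat_lit 475199) (nat_lit 40) (.e (nat_lit 704589) (nat_lit 3) .nil)))))) (.g (nat_lit 1) (.e (nat_lit 166454) (nat_lit 0) .nil) .nil)))) (.nd (nat_lit 9) 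
(.lf (nat_lit 499058) (.g (nat_lit 2637) (.e (nat_lit 163975) (nat_lit 30) (.e (nat_lit 573481) (nat_lit 13) (.e (nat_lit 65604) (nat_lit 9) (.e (nat_lit 336013) (nat_lit 2) (.e (nat_lit 90170) (nat_lit 13) (.e (nat_lit 172061) (nat_lit 1) (.e (nat_lit 164346) (nat_lit 240) (.e (nat_lit 2601) (nat_lit 163) .nil)))))))) (.g (nat_lit 1) (.e (nat_lit 165893) (nat_lit 0) .nil) .nil))) 
(.lf (nat_lit 499570) (.g (nat_lit 2389) (.e (nat_lit 163976) (nat_lit 30) (.e (nat_lit 573481) (nat_lit 13) (.e (nat_lit 65619) (nat_lit 10) (.e (nat_lit 344117) (nat_lit 21) (.e (nat_lit 516144) (nat_lit 9) (.e (nat_lit 426402) (nat_lit 15) (.e (nat_lit 2046) (nat_lit 142) (.e (nat_lit 704589) (nat_lit 3) .nil)))))))) (.g (nat_lit 1) (.e (nat_lit 167083) (nat_lit 0) .nil) .nil))))) 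
(.nd (nat_lit 8) (.nd (nat_lit 9) 
(.lf (nat_lit 498930) (.g (nat_lit 2385) (.e (nat_lit 163964) (nat_lit 25) (.e (nat_lit 532554) (nat_lit 13) (.e (nat_lit 368676) (nat_lit 21) (.e (nat_lit 516131) (nat_lit 3) (.e (nat_lit 221212) (nat_lit 22) (.e (nat_lit 196659) (nat_lit 12) (.e (nat_lit 57507) (nat_lit 39) (.e (nat_lit 647181) (nat_lit 3) .nil)))))))) (.g (nat_lit 1) (.e (nat_lit 165539) (nat_lit 0) .nil) .nil))) 
(.lf (nat_lit 499442) (.g (nat_lit 3400) (.e (nat_lit 163975) (nat_lit 30) (.e (nat_lit 573492) (nat_lit 15) (.e (nat_lit 81956) (nat_lit 23) (.e (nat_lit 98363) (nat_lit 26) (.e (nat_lit 426443) (nat_lit 19) (.e (nat_lit 114432) (nat_lit 3) .nil)))))) (.g (nat_lit 1) (.e (nat_lit 166791) (nat_lit 0) .nil) .nil)))) (.nd (nat_lit 9) 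
(.lf (nat_lit 499186) (.g (nat_lit 4781) (.e (nat_lit 163975) (nat_lit 30) (.e (nat_lit 573481) (nat_lit 13) (.e (nat_lit 65619) (nat_lit 10) (.e (nat_lit 344117) (nat_lit 21) (.e (nat_lit 516180) (nat_lit 15) (.e (nat_lit 475198) (nat_lit 40) (.e (nat_lit 704590) (nat_lit 3) .nil))))))) (.g (nat_lit 1) (.e (nat_lit 166084) (nat_lit 0) .nil) .nil))) 
(.lf (nat_lit 499698) (.g (nat_lit 408) (.e (nat_lit 163976) (nat_lit 30) (.e (nat_lit 573491) (nat_lit 15) (.e (nat_lit 81951) (nat_lit 22) .nil))) (.g (nat_lit 0) (.e (nat_lit 167349) (nat_lit 0) .nil) .nil))))))))) (.nd (nat_lit 4) (.nd (nat_lit 5) (.nd (nat_lit 6) (.nd (nat_lit 7) (.nd (nat_lit 8) (.nd (nat_lit 9) 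
(.lf (nat_lit 498698) (.g (nat_lit 2115) (.e (nat_lit 163962) (nat_lit 25) (.e (nat_lit 532550) (nat_lit 12) (.e (nat_lit 360474) (nat_lit 8) (.e (nat_lit 557073) (nat_lit 9) (.e (nat_lit 288) (nat_lit 21) (.e (nat_lit 335877) (nat_lit 0) (.e (nat_lit 6713) (nat_lit 360) .nil))))))) (.g (nat_lit 1) (.e (nat_lit 164872) (nat_lit 0) .nil) .nil))) 
(.lf (nat_lit 499210) (.g (nat_lit 3309) (.e (nat_lit 163975) (nat_lit 30) (.e (nat_lit 573487) (nat_lit 14) (.e (nat_lit 73753) (nat_lit 8) (.e (nat_lit 557103) (nat_lit 14) (.e (nat_lit 180250) (nat_lit 10) (.e (nat_lit 573473) (nat_lit 12) (.e (nat_lit 57503) (nat_lit 38) (.e (nat_lit 638994) (nat_lit 7) .nil)))))))) (.g (nat_lit 1) (.e (nat_lit 166163) (nat_lit 0) .nil) .nil)))) 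
(.nd (nat_lit 9) 
(.lf (nat_lit 498954) (.g (nat_lit 3463) (.e (nat_lit 163973) (nat_lit 30) (.e (nat_lit 573479) (nat_lit 13) (.e (nat_lit 65619) (nat_lit 10) (.e (nat_lit 344117) (nat_lit 21) (.e (nat_lit 516151) (nat_lit 9) (.e (nat_lit 426042) (nat_lit 0) (.e (nat_lit 3409) (nat_lit 212) (.e (nat_lit 655375) (nat_lit 3) .nil)))))))) (.g (nat_lit 1) (.e (nat_lit 165641) (nat_lit 0) .nil) .nil))) 
(.lf (nat_lit 499466) (.g (nat_lit 4354) (.e (nat_lit 163975) (nat_lit 30) (.e (nat_lit 573492) (nat_lit 15) (.e (nat_lit 81956) (nat_lit 23) (.e (nat_lit 98384) (nat_lit 32) (.e (nat_lit 475203) (nat_lit 40) .nil))))) (.g (nat_lit 0) (.e (nat_lit 166855) (nat_lit 0) .nil) .nil))))) (.nd (nat_lit 8) (.nd (nat_lit 9) 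
(.lf (nat_lit 498826) (.g (nat_lit 1368) (.e (nat_lit 163963) (nat_lit 25) (.e (nat_lit 532513) (nat_lit 3) (.e (nat_lit 114714) (nat_lit 22) (.e (nat_lit 90167) (nat_lit 13) .nil)))) (.g (nat_lit 0) (.e (nat_lit 165206) (nat_lit 0) .nil) .nil))) 
(.lf (nat_lit 499338) (.g (nat_lit 3337) (.e (nat_lit 163975) (nat_lit 30) (.e (nat_lit 573491) (nat_lit 15) (.e (nat_lit 81956) (nat_lit 23) (.e (nat_lit 98384) (nat_lit 32) (.e (nat_lit 475196) (nat_lit 40) .nil))))) (.g (nat_lit 0) (.e (nat_lit 166478) (nat_lit 0) .nil) .nil)))) (.nd (nat_lit 9) 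
(.lf (nat_lit 499082) (.g (nat_lit 3952) (.e (nat_lit 163975) (nat_lit 30) (.e (nat_lit 573481) (nat_lit 13) (.e (nat_lit 65604) (nat_lit 9) (.e (nat_lit 336028) (nat_lit 3) (.e (nat_lit 98367) (nat_lit 27) (.e (nat_lit 434272) (nat_lit 38) (.e (nat_lit 655373) (nat_lit 3) .nil))))))) (.g (nat_lit 1) (.e (nat_lit 165957) (nat_lit 0) .nil) .nil))) 
(.lf (nat_lit 499594) (.g (nat_lit 2090) (.e (nat_lit 163976) (nat_lit 30) (.e (nat_lit 573481) (nat_lit 13) (.e (nat_lit 65619) (nat_lit 10) (.e (nat_lit 344117) (nat_lit 21) (.e (nat_lit 516151) (nat_lit 9) (.e (nat_lit 426043) (nat_lit 0) (.e (nat_lit 2458) (nat_lit 157) (.e (nat_lit 5546) (nat_lit 306) (.e (nat_lit 2599) (nat_lit 163) .nil))))))))) (.g (nat_lit 1) (.e (nat_lit 167107) (nat_lit 0) .nil) .nil)))))) 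
(.nd (nat_lit 7) (.nd (nat_lit 8) (.nd (nat_lit 9) 
(.lf (nat_lit 498762) (.g (nat_lit 2449) (.e (nat_lit 163962) (nat_lit 25) (.e (nat_lit 532559) (nat_lit 14) (.e (nat_lit 376869) (nat_lit 23) (.e (nat_lit 98353) (nat_lit 25) (.e (nat_lit 417820) (nat_lit 10) (.e (nat_lit 5761) (nat_lit 315) .nil)))))) (.g (nat_lit 1) (.e (nat_lit 164987) (nat_lit 0) .nil) .nil))) 
(.lf (nat_lit 499274) (.g (nat_lit 2503) (.e (nat_lit 163975) (nat_lit 30) (.e (nat_lit 573491) (nat_lit 15) (.e (nat_lit 81954) (nat_lit 23) (.e (nat_lit 98356) (nat_lit 26) (.e (nat_lit 426393) (nat_lit 15) .nil))))) (.g (nat_lit 0) (.e (nat_lit 166378) (nat_lit 0) .nil) .nil)))) (.nd (nat_lit 9) 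
(.lf (nat_lit 499018) (.g (nat_lit 4055) (.e (nat_lit 163974) (nat_lit 30) (.e (nat_lit 573492) (nat_lit 15) (.e (nat_lit 81956) (nat_lit 23) (.e (nat_lit 98357) (nat_lit 26) .nil)))) (.g (nat_lit 0) (.e (nat_lit 165781) (nat_lit 0) .nil) .nil))) 
(.lf (nat_lit 499530) (.g (nat_lit 3474) (.e (nat_lit 163976) (nat_lit 30) (.e (nat_lit 573481) (nat_lit 13) (.e (nat_lit 65604) (nat_lit 9) (.e (nat_lit 336013) (nat_lit 2) (.e (nat_lit 90170) (nat_lit 13) (.e (nat_lit 172061) (nat_lit 1) (.e (nat_lit 164347) (nat_lit 240) (.e (nat_lit 2601) (nat_lit 163) .nil)))))))) (.g (nat_lit 1) (.e (nat_lit 166988) (nat_lit 0) .nil) .nil))))) 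
(.nd (nat_lit 8) (.nd (nat_lit 9) 
(.lf (nat_lit 498890) (.g (nat_lit 2834) (.e (nat_lit 163964) (nat_lit 25) (.e (nat_lit 532501) (nat_lit 1) (.e (nat_lit 57928) (nat_lit 282) (.e (nat_lit 163871) (nat_lit 2) (.e (nat_lit 196670) (nat_lit 14) (.e (nat_lit 73746) (nat_lit 3) (.e (nat_lit 516127) (nat_lit 2) (.e (nat_lit 213035) (nat_lit 12) .nil)))))))) (.g (nat_lit 1) (.e (nat_lit 165410) (nat_lit 0) .nil) .nil))) 
(.lf (nat_lit 499402) (.g (nat_lit 3264) (.e (nat_lit 163975) (nat_lit 30) (.e (nat_lit 573492) (nat_lit 15) (.e (nat_lit 81956) (nat_lit 23) (.e (nat_lit 98356) (nat_lit 26) (.e (nat_lit 426397) (nat_lit 15) .nil))))) (.g (nat_lit 0) (.e (nat_lit 166714) (nat_lit 0) .nil) .nil)))) (.nd (nat_lit 9) 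
(.lf (nat_lit 499146) (.g (nat_lit 2268) (.e (nat_lit 163975) (nat_lit 30) (.e (nat_lit 573481) (nat_lit 13) (.e (nat_lit 65619) (nat_lit 10) (.e (nat_lit 344117) (nat_lit 21) (.e (nat_lit 516151) (nat_lit 9) (.e (nat_lit 426142) (nat_lit 4) (.e (nat_lit 229663) (nat_lit 240) (.e (nat_lit 2603) (nat_lit 163) .nil)))))))) (.g (nat_lit 1) (.e (nat_lit 166028) (nat_lit 0) .nil) .nil))) 
(.lf (nat_lit 499658) (.g (nat_lit 826) (.e (nat_lit 163976) (nat_lit 30) (.e (nat_lit 573488) (nat_lit 14) (.e (nat_lit 73754) (nat_lit 8) (.e (nat_lit 557101) (nat_lit 13) .nil)))) (.g (nat_lit 0) (.e (nat_lit 167265) (nat_lit 0) .nil) .nil))))))) (.nd (nat_lit 6) (.nd (nat_lit 7) (.nd (nat_lit 8) (.nd (nat_lit 9) 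
(.lf (nat_lit 498730) (.g (nat_lit 2734) (.e (nat_lit 163962) (nat_lit 25) (.e (nat_lit 532550) (nat_lit 12) (.e (nat_lit 360475) (nat_lit 8) (.e (nat_lit 557086) (nat_lit 11) (.e (nat_lit 24578) (nat_lit 0) .nil))))) (.g (nat_lit 0) (.e (nat_lit 164928) (nat_lit 0) .nil) .nil))) 
(.lf (nat_lit 499242) (.g (nat_lit 1343) (.e (nat_lit 163975) (nat_lit 30) (.e (nat_lit 573491) (nat_lit 15) (.e (nat_lit 81946) (nat_lit 20) (.e (nat_lit 1802) (nat_lit 119) .nil)))) (.g (nat_lit 0) (.e (nat_lit 166280) (nat_lit 0) .nil) .nil)))) (.nd (nat_lit 9) 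
(.lf (nat_lit 498986) (.g (nat_lit 4089) (.e (nat_lit 163973) (nat_lit 30) (.e (nat_lit 573492) (nat_lit 15) (.e (nat_lit 81956) (nat_lit 23) (.e (nat_lit 98366) (nat_lit 27) (.e (nat_lit 434272) (nat_lit 38) (.e (nat_lit 655373) (nat_lit 3) .nil)))))) (.g (nat_lit 1) (.e (nat_lit 165727) (nat_lit 0) .nil) .nil))) 
(.lf (nat_lit 499498) (.g (nat_lit 4140) (.e (nat_lit 163975) (nat_lit 30) (.e (nat_lit 573493) (nat_lit 15) (.e (nat_lit 81956) (nat_lit 23) (.e (nat_lit 98386) (nat_lit 32) .nil)))) (.g (nat_lit 0) (.e (nat_lit 166907) (nat_lit 0) .nil) .nil))))) (.nd (nat_lit 8) (.nd (nat_lit 9) 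
(.lf (nat_lit 498858) (.g (nat_lit 885) (.e (nat_lit 163964) (nat_lit 25) (.e (nat_lit 532501) (nat_lit 1) (.e (nat_lit 57926) (nat_lit 282) .nil))) (.g (nat_lit 0) (.e (nat_lit 165357) (nat_lit 0) .nil) .nil))) 
(.lf (nat_lit 499370) (.g (nat_lit 1894) (.e (nat_lit 163975) (nat_lit 30) (.e (nat_lit 573492) (nat_lit 15) (.e (nat_lit 81954) (nat_lit 23) (.e (nat_lit 98386) (nat_lit 32) (.e (nat_lit 475196) (nat_lit 40) .nil))))) (.g (nat_lit 0) (.e (nat_lit 166654) (nat_lit 0) .nil) .nil)))) (.nd (nat_lit 9) 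
(.lf (nat_lit 499114) (.g (nat_lit 3545) (.e (nat_lit 163975) (nat_lit 30) (.e (nat_lit 573481) (nat_lit 13) (.e (nat_lit 65619) (nat_lit 10) (.e (nat_lit 344117) (nat_lit 21) (.e (nat_lit 516144) (nat_lit 9) (.e (nat_lit 426420) (nat_lit 15) (.e (nat_lit 2058) (nat_lit 142) (.e (nat_lit 704589) (nat_lit 3) .nil)))))))) (.g (nat_lit 1) (.e (nat_lit 165995) (nat_lit 0) .nil) .nil))) 
(.lf (nat_lit 499626) (.g (nat_lit 2429) (.e (nat_lit 163976) (nat_lit 30) (.e (nat_lit 573481) (nat_lit 13) (.e (nat_lit 65619) (nat_lit 10) (.e (nat_lit 344117) (nat_lit 21) (.e (nat_lit 516161) (nat_lit 10) .nil))))) (.g (nat_lit 0) (.e (nat_lit 167144) (nat_lit 0) .nil) .nil)))))) (.nd (nat_lit 7) (.nd (nat_lit 8) (.nd (nat_lit 9) 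
(.lf (nat_lit 498794) (.g (nat_lit 665) (.e (nat_lit 163963) (nat_lit 25) (.e (nat_lit 532499) (nat_lit 1) (.e (nat_lit 57927) (nat_lit 282) .nil))) (.g (nat_lit 0) (.e (nat_lit 165140) (nat_lit 0) .nil) .nil))) 
(.lf (nat_lit 499306) (.g (nat_lit 2951) (.e (nat_lit 163975) (nat_lit 30) (.e (nat_lit 573491) (nat_lit 15) (.e (nat_lit 81954) (nat_lit 23) (.e (nat_lit 98366) (nat_lit 27) (.e (nat_lit 434272) (nat_lit 38) (.e (nat_lit 655373) (nat_lit 3) .nil)))))) (.g (nat_lit 1) (.e (nat_lit 166435) (nat_lit 0) .nil) .nil)))) (.nd (nat_lit 9) 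
(.lf (nat_lit 499050) (.g (nat_lit 3797) (.e (nat_lit 163975) (nat_lit 30) (.e (nat_lit 573481) (nat_lit 13) (.e (nat_lit 65604) (nat_lit 9) (.e (nat_lit 336013) (nat_lit 2) (.e (nat_lit 90170) (nat_lit 13) (.e (nat_lit 172059) (nat_lit 1) (.e (nat_lit 164345) (nat_lit 240) (.e (nat_lit 2600) (nat_lit 163) .nil)))))))) (.g (nat_lit 1) (.e (nat_lit 165885) (nat_lit 0) .nil) .nil))) 
(.lf (nat_lit 499562) (.g (nat_lit 2451) (.e (nat_lit 163976) (nat_lit 30) (.e (nat_lit 573481) (nat_lit 13) (.e (nat_lit 65619) (nat_lit 10) (.e (nat_lit 344117) (nat_lit 21) (.e (nat_lit 516144) (nat_lit 9) (.e (nat_lit 426374) (nat_lit 15) (.e (nat_lit 2056) (nat_lit 142) (.e (nat_lit 704589) (nat_lit 3) .nil)))))))) (.g (nat_lit 1) (.e (nat_lit 167075) (nat_lit 0) .nil) .nil))))) 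
(.nd (nat_lit 8) (.nd (nat_lit 9) 
(.lf (nat_lit 498922) (.g (nat_lit 4083) (.e (nat_lit 163964) (nat_lit 25) (.e (nat_lit 532534) (nat_lit 9) (.e (nat_lit 336019) (nat_lit 3) (.e (nat_lit 98342) (nat_lit 20) (.e (nat_lit 221212) (nat_lit 22) (.e (nat_lit 196660) (nat_lit 12) (.e (nat_lit 57507) (nat_lit 39) (.e (nat_lit 647181) (nat_lit 3) .nil)))))))) (.g (nat_lit 1) (.e (nat_lit 165515) (nat_lit 0) .nil) .nil))) 
(.lf (nat_lit 499434) (.g (nat_lit 2324) (.e (nat_lit 163975) (nat_lit 30) (.e (nat_lit 573492) (nat_lit 15) (.e (nat_lit 81956) (nat_lit 23) (.e (nat_lit 98359) (nat_lit 26) (.e (nat_lit 433920) (nat_lit 19) (.e (nat_lit 114432) (nat_lit 3) .nil)))))) (.g (nat_lit 1) (.e (nat_lit 166777) (nat_lit 0) .nil) .nil)))) (.nd (nat_lit 9) 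
(.lf (nat_lit 499178) (.g (nat_lit 4070) (.e (nat_lit 163975) (nat_lit 30) (.e (nat_lit 573481) (nat_lit 13) (.e (nat_lit 65619) (nat_lit 10) (.e (nat_lit 344117) (nat_lit 21) (.e (nat_lit 516178) (nat_lit 15) (.e (nat_lit 475199) (nat_lit 40) (.e (nat_lit 704589) (nat_lit 3) .nil))))))) (.g (nat_lit 1) (.e (nat_lit 166076) (nat_lit 0) .nil) .nil))) 
(.lf (nat_lit 499690) (.g (nat_lit 3571) (.e (nat_lit 163976) (nat_lit 30) (.e (nat_lit 573489) (nat_lit 14) (.e (nat_lit 73755) (nat_lit 8) (.e (nat_lit 557105) (nat_lit 14) (.e (nat_lit 180252) (nat_lit 10) (.e (nat_lit 573473) (nat_lit 12) (.e (nat_lit 57501) (nat_lit 37) (.e (nat_lit 630799) (nat_lit 7) .nil)))))))) (.g (nat_lit 1) (.e (nat_lit 167330) (nat_lit 0) .nil) .nil)))))))) 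
(.nd (nat_lit 5) (.nd (nat_lit 6) (.nd (nat_lit 7) (.nd (nat_lit 8) (.nd (nat_lit 9) 
(.lf (nat_lit 498714) (.g (nat_lit 2106) (.e (nat_lit 163962) (nat_lit 25) (.e (nat_lit 532550) (nat_lit 12) (.e (nat_lit 360475) (nat_lit 8) (.e (nat_lit 557068) (nat_lit 9) (.e (nat_lit 7936) (nat_lit 19) .nil))))) (.g (nat_lit 0) (.e (nat_lit 164900) (nat_lit 0) .nil) .nil))) 
(.lf (nat_lit 499226) (.g (nat_lit 3524) (.e (nat_lit 163975) (nat_lit 30) (.e (nat_lit 573488) (nat_lit 14) (.e (nat_lit 73754) (nat_lit 8) (.e (nat_lit 557105) (nat_lit 14) (.e (nat_lit 180252) (nat_lit 10) (.e (nat_lit 573475) (nat_lit 12) (.e (nat_lit 57503) (nat_lit 38) (.e (nat_lit 638994) (nat_lit 7) .nil)))))))) (.g (nat_lit 1) (.e (nat_lit 166196) (nat_lit 0) .nil) .nil)))) 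
(.nd (nat_lit 9) 
(.lf (nat_lit 498970) (.g (nat_lit 642) (.e (nat_lit 163973) (nat_lit 30) (.e (nat_lit 573489) (nat_lit 14) (.e (nat_lit 73755) (nat_lit 8) .nil))) (.g (nat_lit 0) (.e (nat_lit 165659) (nat_lit 0) .nil) .nil))) 
(.lf (nat_lit 499482) (.g (nat_lit 989) (.e (nat_lit 163975) (nat_lit 30) (.e (nat_lit 573493) (nat_lit 15) (.e (nat_lit 81953) (nat_lit 22) .nil))) (.g (nat_lit 0) (.e (nat_lit 166876) (nat_lit 0) .nil) .nil))))) (.nd (nat_lit 8) (.nd (nat_lit 9) 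
(.lf (nat_lit 498842) (.g (nat_lit 5134) (.e (nat_lit 163963) (nat_lit 25) (.e (nat_lit 532550) (nat_lit 12) (.e (nat_lit 360475) (nat_lit 8) (.e (nat_lit 557068) (nat_lit 9) .nil)))) (.g (nat_lit 0) (.e (nat_lit 165300) (nat_lit 0) .nil) .nil))) 
(.lf (nat_lit 499354) (.g (nat_lit 2020) (.e (nat_lit 163975) (nat_lit 30) (.e (nat_lit 573492) (nat_lit 15) (.e (nat_lit 81953) (nat_lit 22) (.e (nat_lit 90169) (nat_lit 13) .nil)))) (.g (nat_lit 0) (.e (nat_lit 166563) (nat_lit 0) .nil) .nil)))) (.nd (nat_lit 9) 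
(.lf (nat_lit 499098) (.g (nat_lit 3969) (.e (nat_lit 163975) (nat_lit 30) (.e (nat_lit 573481) (nat_lit 13) (.e (nat_lit 65610) (nat_lit 10) (.e (nat_lit 344117) (nat_lit 21) (.e (nat_lit 516179) (nat_lit 15) (.e (nat_lit 475198) (nat_lit 40) (.e (nat_lit 704590) (nat_lit 3) .nil))))))) (.g (nat_lit 1) (.e (nat_lit 165973) (nat_lit 0) .nil) .nil))) 
(.lf (nat_lit 499610) (.g (nat_lit 2439) (.e (nat_lit 163976) (nat_lit 30) (.e (nat_lit 573481) (nat_lit 13) (.e (nat_lit 65619) (nat_lit 10) (.e (nat_lit 344117) (nat_lit 21) (.e (nat_lit 516152) (nat_lit 9) (.e (nat_lit 426025) (nat_lit 0) (.e (nat_lit 3399) (nat_lit 211) (.e (nat_lit 647180) (nat_lit 3) .nil)))))))) (.g (nat_lit 1) (.e (nat_lit 167125) (nat_lit 0) .nil) .nil)))))) 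
(.nd (nat_lit 7) (.nd (nat_lit 8) (.nd (nat_lit 9) 
(.lf (nat_lit 498778) (.g (nat_lit 2083) (.e (nat_lit 163962) (nat_lit 25) (.e (nat_lit 532569) (nat_lit 16) (.e (nat_lit 401448) (nat_lit 10) (.e (nat_lit 434246) (nat_lit 28) .nil)))) (.g (nat_lit 0) (.e (nat_lit 165045) (nat_lit 0) .nil) .nil))) 
(.lf (nat_lit 499290) (.g (nat_lit 2340) (.e (nat_lit 163975) (nat_lit 30) (.e (nat_lit 573491) (nat_lit 15) (.e (nat_lit 81954) (nat_lit 23) (.e (nat_lit 98358) (nat_lit 26) (.e (nat_lit 426402) (nat_lit 15) .nil))))) (.g (nat_lit 0) (.e (nat_lit 166398) (nat_lit 0) .nil) .nil)))) (.nd (nat_lit 9) 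
(.lf (nat_lit 499034) (.g (nat_lit 2898) (.e (nat_lit 163975) (nat_lit 30) (.e (nat_lit 573474) (nat_lit 12) (.e (nat_lit 57528) (nat_lit 46) (.e (nat_lit 704590) (nat_lit 3) (.e (nat_lit 163962) (nat_lit 25) (.e (nat_lit 532544) (nat_lit 10) (.e (nat_lit 344117) (nat_lit 21) (.e (nat_lit 516123) (nat_lit 2) (.e (nat_lit 213033) (nat_lit 12) .nil))))))))) (.g (nat_lit 1) (.e (nat_lit 165841) (nat_lit 0) .nil) .nil))) 
(.lf (nat_lit 499546) (.g (nat_lit 1618) (.e (nat_lit 163976) (nat_lit 30) (.e (nat_lit 573481) (nat_lit 13) (.e (nat_lit 65604) (nat_lit 9) (.e (nat_lit 336028) (nat_lit 3) (.e (nat_lit 106240) (nat_lit 32) .nil))))) (.g (nat_lit 0) (.e (nat_lit 167053) (nat_lit 0) .nil) .nil))))) (.nd (nat_lit 8) (.nd (nat_lit 9) 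
(.lf (nat_lit 498906) (.g (nat_lit 2181) (.e (nat_lit 163964) (nat_lit 25) (.e (nat_lit 532513) (nat_lit 3) (.e (nat_lit 114714) (nat_lit 22) (.e (nat_lit 90172) (nat_lit 14) (.e (nat_lit 180243) (nat_lit 5) (.e (nat_lit 532504) (nat_lit 1) (.e (nat_lit 57662) (nat_lit 152) (.e (nat_lit 2612) (nat_lit 163) .nil)))))))) (.g (nat_lit 1) (.e (nat_lit 165448) (nat_lit 0) .nil) .nil))) 
(.lf (nat_lit 499418) (.g (nat_lit 3260) (.e (nat_lit 163975) (nat_lit 30) (.e (nat_lit 573492) (nat_lit 15) (.e (nat_lit 81956) (nat_lit 23) (.e (nat_lit 98356) (nat_lit 26) (.e (nat_lit 426444) (nat_lit 19) (.e (nat_lit 114432) (nat_lit 3) .nil)))))) (.g (nat_lit 1) (.e (nat_lit 166730) (nat_lit 0) .nil) .nil)))) (.nd (nat_lit 9) 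
(.lf (nat_lit 499162) (.g (nat_lit 2108) (.e (nat_lit 163975) (nat_lit 30) (.e (nat_lit 573481) (nat_lit 13) (.e (nat_lit 65619) (nat_lit 10) (.e (nat_lit 344117) (nat_lit 21) (.e (nat_lit 524032) (nat_lit 9) .nil))))) (.g (nat_lit 0) (.e (nat_lit 166044) (nat_lit 0) .nil) .nil))) 
(.lf (nat_lit 499674) (.g (nat_lit 3092) (.e (nat_lit 163976) (nat_lit 30) (.e (nat_lit 573488) (nat_lit 14) (.e (nat_lit 73755) (nat_lit 8) (.e (nat_lit 557104) (nat_lit 14) (.e (nat_lit 180252) (nat_lit 10) (.e (nat_lit 573475) (nat_lit 12) (.e (nat_lit 57500) (nat_lit 37) (.e (nat_lit 630799) (nat_lit 7) .nil)))))))) (.g (nat_lit 1) (.e (nat_lit 167309) (nat_lit 0) .nil) .nil))))))) 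
(.nd (nat_lit 6) (.nd (nat_lit 7) (.nd (nat_lit 8) (.nd (nat_lit 9) 
(.lf (nat_lit 498746) (.g (nat_lit 2946) (.e (nat_lit 163962) (nat_lit 25) (.e (nat_lit 532551) (nat_lit 12) (.e (nat_lit 360467) (nat_lit 3) (.e (nat_lit 516139) (nat_lit 7) (.e (nat_lit 409616) (nat_lit 10) (.e (nat_lit 5762) (nat_lit 315) .nil)))))) (.g (nat_lit 1) (.e (nat_lit 164948) (nat_lit 0) .nil) .nil))) 
(.lf (nat_lit 499258) (.g (nat_lit 2402) (.e (nat_lit 163975) (nat_lit 30) (.e (nat_lit 573491) (nat_lit 15) (.e (nat_lit 81954) (nat_lit 23) (.e (nat_lit 98356) (nat_lit 26) (.e (nat_lit 426357) (nat_lit 15) .nil))))) (.g (nat_lit 0) (.e (nat_lit 166362) (nat_lit 0) .nil) .nil)))) (.nd (nat_lit 9) 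
(.lf (nat_lit 499002) (.g (nat_lit 2267) (.e (nat_lit 163974) (nat_lit 30) (.e (nat_lit 573482) (nat_lit 13) (.e (nat_lit 65619) (nat_lit 10) (.e (nat_lit 344117) (nat_lit 21) (.e (nat_lit 516143) (nat_lit 9) .nil))))) (.g (nat_lit 0) (.e (nat_lit 165757) (nat_lit 0) .nil) .nil))) 
(.lf (nat_lit 499514) (.g (nat_lit 2738) (.e (nat_lit 163976) (nat_lit 30) (.e (nat_lit 573481) (nat_lit 13) (.e (nat_lit 65604) (nat_lit 9) (.e (nat_lit 336013) (nat_lit 2) (.e (nat_lit 90170) (nat_lit 13) (.e (nat_lit 172035) (nat_lit 0) (.e (nat_lit 3399) (nat_lit 211) (.e (nat_lit 647180) (nat_lit 3) .nil)))))))) (.g (nat_lit 1) (.e (nat_lit 166964) (nat_lit 0) .nil) .nil))))) 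
(.nd (nat_lit 8) (.nd (nat_lit 9) 
(.lf (nat_lit 498874) (.g (nat_lit 2409) (.e (nat_lit 163964) (nat_lit 25) (.e (nat_lit 532501) (nat_lit 1) (.e (nat_lit 57927) (nat_lit 282) (.e (nat_lit 163868) (nat_lit 2) (.e (nat_lit 196670) (nat_lit 14) (.e (nat_lit 73746) (nat_lit 3) (.e (nat_lit 516124) (nat_lit 2) (.e (nat_lit 213033) (nat_lit 12) .nil)))))))) (.g (nat_lit 1) (.e (nat_lit 165388) (nat_lit 0) .nil) .nil))) 
(.lf (nat_lit 499386) (.g (nat_lit 3042) (.e (nat_lit 163975) (nat_lit 30) (.e (nat_lit 573492) (nat_lit 15) (.e (nat_lit 81956) (nat_lit 23) (.e (nat_lit 98356) (nat_lit 26) (.e (nat_lit 426360) (nat_lit 15) (.e (nat_lit 2053) (nat_lit 142) (.e (nat_lit 704589) (nat_lit 3) .nil))))))) (.g (nat_lit 1) (.e (nat_lit 166698) (nat_lit 0) .nil) .nil)))) (.nd (nat_lit 9) 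
(.lf (nat_lit 499130) (.g (nat_lit 3079) (.e (nat_lit 163975) (nat_lit 30) (.e (nat_lit 573481) (nat_lit 13) (.e (nat_lit 65619) (nat_lit 10) (.e (nat_lit 344117) (nat_lit 21) (.e (nat_lit 516147) (nat_lit 9) (.e (nat_lit 426444) (nat_lit 19) (.e (nat_lit 114432) (nat_lit 3) .nil))))))) (.g (nat_lit 1) (.e (nat_lit 166011) (nat_lit 0) .nil) .nil))) 
(.lf (nat_lit 499642) (.g (nat_lit 1970) (.e (nat_lit 163976) (nat_lit 30) (.e (nat_lit 573482) (nat_lit 13) (.e (nat_lit 65604) (nat_lit 9) (.e (nat_lit 336013) (nat_lit 2) .nil)))) (.g (nat_lit 0) (.e (nat_lit 167177) (nat_lit 0) .nil) .nil)))))) (.nd (nat_lit 7) (.nd (nat_lit 8) (.nd (nat_lit 9) 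
(.lf (nat_lit 498810) (.g (nat_lit 3390) (.e (nat_lit 163963) (nat_lit 25) (.e (nat_lit 532501) (nat_lit 1) (.e (nat_lit 57926) (nat_lit 282) (.e (nat_lit 163869) (nat_lit 2) (.e (nat_lit 196670) (nat_lit 14) (.e (nat_lit 73746) (nat_lit 3) (.e (nat_lit 516124) (nat_lit 2) (.e (nat_lit 213034) (nat_lit 12) .nil)))))))) (.g (nat_lit 1) (.e (nat_lit 165175) (nat_lit 0) .nil) .nil))) 
(.lf (nat_lit 499322) (.g (nat_lit 1212) (.e (nat_lit 163975) (nat_lit 30) (.e (nat_lit 573491) (nat_lit 15) (.e (nat_lit 81954) (nat_lit 23) (.e (nat_lit 106240) (nat_lit 32) .nil)))) (.g (nat_lit 0) (.e (nat_lit 166462) (nat_lit 0) .nil) .nil)))) (.nd (nat_lit 9) 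
(.lf (nat_lit 499066) (.g (nat_lit 2486) (.e (nat_lit 163975) (nat_lit 30) (.e (nat_lit 573481) (nat_lit 13) (.e (nat_lit 65604) (nat_lit 9) (.e (nat_lit 336013) (nat_lit 2) (.e (nat_lit 90170) (nat_lit 13) (.e (nat_lit 172070) (nat_lit 4) (.e (nat_lit 229665) (nat_lit 240) (.e (nat_lit 2604) (nat_lit 163) .nil)))))))) (.g (nat_lit 1) (.e (nat_lit 165902) (nat_lit 0) .nil) .nil))) 
(.lf (nat_lit 499578) (.g (nat_lit 3140) (.e (nat_lit 163976) (nat_lit 30) (.e (nat_lit 573481) (nat_lit 13) (.e (nat_lit 65619) (nat_lit 10) (.e (nat_lit 344117) (nat_lit 21) (.e (nat_lit 516146) (nat_lit 9) (.e (nat_lit 426444) (nat_lit 19) (.e (nat_lit 114432) (nat_lit 3) .nil))))))) (.g (nat_lit 1) (.e (nat_lit 167091) (nat_lit 0) .nil) .nil))))) (.nd (nat_lit 8) (.nd (nat_lit 9) 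
(.lf (nat_lit 498938) (.g (nat_lit 2291) (.e (nat_lit 163965) (nat_lit 25) (.e (nat_lit 532501) (nat_lit 1) (.e (nat_lit 57926) (nat_lit 282) (.e (nat_lit 163869) (nat_lit 2) (.e (nat_lit 196670) (nat_lit 14) (.e (nat_lit 73746) (nat_lit 3) (.e (nat_lit 516122) (nat_lit 2) (.e (nat_lit 213035) (nat_lit 12) .nil)))))))) (.g (nat_lit 1) (.e (nat_lit 165581) (nat_lit 0) .nil) .nil))) 
(.lf (nat_lit 499450) (.g (nat_lit 3437) (.e (nat_lit 163975) (nat_lit 30) (.e (nat_lit 573492) (nat_lit 15) (.e (nat_lit 81956) (nat_lit 23) (.e (nat_lit 98366) (nat_lit 27) (.e (nat_lit 434272) (nat_lit 38) (.e (nat_lit 655373) (nat_lit 3) .nil)))))) (.g (nat_lit 1) (.e (nat_lit 166809) (nat_lit 0) .nil) .nil)))) (.nd (nat_lit 9) 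
(.lf (nat_lit 499194) (.g (nat_lit 3489) (.e (nat_lit 163975) (nat_lit 30) (.e (nat_lit 573481) (nat_lit 13) (.e (nat_lit 65619) (nat_lit 10) (.e (nat_lit 344117) (nat_lit 21) (.e (nat_lit 516182) (nat_lit 15) (.e (nat_lit 475198) (nat_lit 40) (.e (nat_lit 704589) (nat_lit 3) .nil))))))) (.g (nat_lit 1) (.e (nat_lit 166092) (nat_lit 0) .nil) .nil))) 
(.lf (nat_lit 499706) (.g (nat_lit 2852) (.e (nat_lit 163976) (nat_lit 30) (.e (nat_lit 573491) (nat_lit 15) (.e (nat_lit 81951) (nat_lit 22) (.e (nat_lit 90170) (nat_lit 13) (.e (nat_lit 172137) (nat_lit 15) (.e (nat_lit 2059) (nat_lit 142) (.e (nat_lit 704589) (nat_lit 3) .nil))))))) (.g (nat_lit 1) (.e (nat_lit 167398) (nat_lit 0) .nil) .nil)))))))))) 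
(.nd (nat_lit 3) (.nd (nat_lit 4) (.nd (nat_lit 5) (.nd (nat_lit 6) (.nd (nat_lit 7) 
(.nd (nat_lit 8) (.nd (nat_lit 9) 
(.lf (nat_lit 498694) (.g (nat_lit 2123) (.e (nat_lit 163962) (nat_lit 25) (.e (nat_lit 532550) (nat_lit 12) (.e (nat_lit 360474) (nat_lit 8) (.e (nat_lit 557072) (nat_lit 9) (.e (nat_lit 288) (nat_lit 21) (.e (nat_lit 335877) (nat_lit 0) (.e (nat_lit 6713) (nat_lit 360) .nil))))))) (.g (nat_lit 1) (.e (nat_lit 164866) (nat_lit 0) .nil) .nil))) 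
(.lf (nat_lit 499206) (.g (nat_lit 3172) (.e (nat_lit 163975) (nat_lit 30) (.e (nat_lit 573482) (nat_lit 13) (.e (nat_lit 65610) (nat_lit 10) (.e (nat_lit 344117) (nat_lit 21) (.e (nat_lit 516151) (nat_lit 9) .nil))))) (.g (nat_lit 0) (.e (nat_lit 166111) (nat_lit 0) .nil) .nil)))) (.nd (nat_lit 9) 
(.lf (nat_lit 498950) (.g (nat_lit 3802) (.e (nat_lit 163959) (nat_lit 24) (.e (nat_lit 524319) (nat_lit 11) (.e (nat_lit 442427) (nat_lit 23) (.e (nat_lit 204863) (nat_lit 27) (.e (nat_lit 344156) (nat_lit 36) (.e (nat_lit 638995) (nat_lit 7) .nil)))))) (.g (nat_lit 1) (.e (nat_lit 165622) (nat_lit 0) .nil) .nil))) 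
(.lf (nat_lit 499462) (.g (nat_lit 4681) (.e (nat_lit 163975) (nat_lit 30) (.e (nat_lit 573492) (nat_lit 15) (.e (nat_lit 81956) (nat_lit 23) (.e (nat_lit 98384) (nat_lit 32) (.e (nat_lit 475198) (nat_lit 40) (.e (nat_lit 704589) (nat_lit 3) .nil)))))) (.g (nat_lit 1) (.e (nat_lit 166851) (nat_lit 0) .nil) .nil))))) (.nd (nat_lit 8) (.nd (nat_lit 9) 
(.lf (nat_lit 498822) (.g (nat_lit 2159) (.e (nat_lit 163963) (nat_lit 25) (.e (nat_lit 532504) (nat_lit 1) (.e (nat_lit 57852) (nat_lit 252) (.e (nat_lit 57377) (nat_lit 3) .nil)))) (.g (nat_lit 0) (.e (nat_lit 165200) (nat_lit 0) .nil) .nil))) 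
(.lf (nat_lit 499334) (.g (nat_lit 2660) (.e (nat_lit 163975) (nat_lit 30) (.e (nat_lit 573491) (nat_lit 15) (.e (nat_lit 81956) (nat_lit 23) (.e (nat_lit 98356) (nat_lit 26) (.e (nat_lit 426363) (nat_lit 15) .nil))))) (.g (nat_lit 0) (.e (nat_lit 166474) (nat_lit 0) .nil) .nil)))) (.nd (nat_lit 9) 
(.lf (nat_lit 499078) (.g (nat_lit 2368) (.e (nat_lit 163975) (nat_lit 30) (.e (nat_lit 573481) (nat_lit 13) (.e (nat_lit 65604) (nat_lit 9) (.e (nat_lit 336028) (nat_lit 3) (.e (nat_lit 98360) (nat_lit 26) .nil))))) (.g (nat_lit 0) (.e (nat_lit 165943) (nat_lit 0) .nil) .nil))) 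
(.lf (nat_lit 499590) (.g (nat_lit 3721) (.e (nat_lit 163976) (nat_lit 30) (.e (nat_lit 573481) (nat_lit 13) (.e (nat_lit 65619) (nat_lit 10) (.e (nat_lit 344117) (nat_lit 21) (.e (nat_lit 516151) (nat_lit 9) (.e (nat_lit 426025) (nat_lit 0) (.e (nat_lit 3397) (nat_lit 211) (.e (nat_lit 647180) (nat_lit 3) .nil)))))))) (.g (nat_lit 1) (.e (nat_lit 167103) (nat_lit 0) .nil) .nil)))))) 
(.nd (nat_lit 7) (.nd (nat_lit 8) (.nd (nat_lit 9) 
(.lf (nat_lit 498758) (.g (nat_lit 134) (.e (nat_lit 163962) (nat_lit 25) (.e (nat_lit 532559) (nat_lit 14) (.e (nat_lit 376869) (nat_lit 23) .nil))) (.g (nat_lit 0) (.e (nat_lit 164983) (nat_lit 0) .nil) .nil))) 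
(.lf (nat_lit 499270) (.g (nat_lit 2525) (.e (nat_lit 163975) (nat_lit 30) (.e (nat_lit 573491) (nat_lit 15) (.e (nat_lit 81954) (nat_lit 23) (.e (nat_lit 98356) (nat_lit 26) (.e (nat_lit 426376) (nat_lit 15) .nil))))) (.g (nat_lit 0) (.e (nat_lit 166374) (nat_lit 0) .nil) .nil)))) (.nd (nat_lit 9) 
(.lf (nat_lit 499014) (.g (nat_lit 2497) (.e (nat_lit 163974) (nat_lit 30) (.e (nat_lit 573489) (nat_lit 14) (.e (nat_lit 73755) (nat_lit 8) (.e (nat_lit 557105) (nat_lit 14) (.e (nat_lit 180252) (nat_lit 10) .nil))))) (.g (nat_lit 0) (.e (nat_lit 165777) (nat_lit 0) .nil) .nil))) 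
(.lf (nat_lit 499526) (.g (nat_lit 3548) (.e (nat_lit 163976) (nat_lit 30) (.e (nat_lit 573481) (nat_lit 13) (.e (nat_lit 65604) (nat_lit 9) (.e (nat_lit 336013) (nat_lit 2) (.e (nat_lit 90170) (nat_lit 13) (.e (nat_lit 172059) (nat_lit 1) (.e (nat_lit 164347) (nat_lit 240) (.e (nat_lit 2601) (nat_lit 163) .nil)))))))) (.g (nat_lit 1) (.e (nat_lit 166984) (nat_lit 0) .nil) .nil))))) 
(.nd (nat_lit 8) (.nd (nat_lit 9) 
(.lf (nat_lit 498886) (.g (nat_lit 2404) (.e (nat_lit 163964) (nat_lit 25) (.e (nat_lit 532501) (nat_lit 1) (.e (nat_lit 57927) (nat_lit 282) (.e (nat_lit 163875) (nat_lit 3) (.e (nat_lit 204862) (nat_lit 27) .nil))))) (.g (nat_lit 0) (.e (nat_lit 165404) (nat_lit 0) .nil) .nil))) 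
(.lf (nat_lit 499398) (.g (nat_lit 3249) (.e (nat_lit 163975) (nat_lit 30) (.e (nat_lit 573492) (nat_lit 15) (.e (nat_lit 81956) (nat_lit 23) (.e (nat_lit 98356) (nat_lit 26) (.e (nat_lit 426375) (nat_lit 15) .nil))))) (.g (nat_lit 0) (.e (nat_lit 166710) (nat_lit 0) .nil) .nil)))) (.nd (nat_lit 9) 
(.lf (nat_lit 499142) (.g (nat_lit 4019) (.e (nat_lit 163975) (nat_lit 30) (.e (nat_lit 573481) (nat_lit 13) (.e (nat_lit 65619) (nat_lit 10) (.e (nat_lit 344117) (nat_lit 21) (.e (nat_lit 516151) (nat_lit 9) (.e (nat_lit 426097) (nat_lit 1) (.e (nat_lit 164345) (nat_lit 240) (.e (nat_lit 2600) (nat_lit 163) .nil)))))))) (.g (nat_lit 1) (.e (nat_lit 166023) (nat_lit 0) .nil) .nil))) 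
(.lf (nat_lit 499654) (.g (nat_lit 2438) (.e (nat_lit 163976) (nat_lit 30) (.e (nat_lit 573487) (nat_lit 14) (.e (nat_lit 73753) (nat_lit 8) (.e (nat_lit 557105) (nat_lit 14) (.e (nat_lit 180251) (nat_lit 10) (.e (nat_lit 573477) (nat_lit 12) (.e (nat_lit 57502) (nat_lit 38) (.e (nat_lit 638994) (nat_lit 7) .nil)))))))) (.g (nat_lit 1) (.e (nat_lit 167245) (nat_lit 0) .nil) .nil))))))) 
(.nd (nat_lit 6) (.nd (nat_lit 7) (.nd (nat_lit 8) (.nd (nat_lit 9) 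
(.lf (nat_lit 498726) (.g (nat_lit 2428) (.e (nat_lit 163962) (nat_lit 25) (.e (nat_lit 532550) (nat_lit 12) (.e (nat_lit 360475) (nat_lit 8) (.e (nat_lit 564992) (nat_lit 9) .nil)))) (.g (nat_lit 0) (.e (nat_lit 164921) (nat_lit 0) .nil) .nil))) 
(.lf (nat_lit 499238) (.g (nat_lit 4366) (.e (nat_lit 163975) (nat_lit 30) (.e (nat_lit 573488) (nat_lit 14) (.e (nat_lit 73755) (nat_lit 8) (.e (nat_lit 557105) (nat_lit 14) (.e (nat_lit 180252) (nat_lit 10) (.e (nat_lit 573474) (nat_lit 12) (.e (nat_lit 57504) (nat_lit 38) (.e (nat_lit 638994) (nat_lit 7) .nil)))))))) (.g (nat_lit 1) (.e (nat_lit 166264) (nat_lit 0) .nil) .nil)))) 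
(.nd (nat_lit 9) 
(.lf (nat_lit 498982) (.g (nat_lit 3779) (.e (nat_lit 163973) (nat_lit 30) (.e (nat_lit 573492) (nat_lit 15) (.e (nat_lit 81956) (nat_lit 23) (.e (nat_lit 106240) (nat_lit 26) .nil)))) (.g (nat_lit 0) (.e (nat_lit 165723) (nat_lit 0) .nil) .nil))) 
(.lf (nat_lit 499494) (.g (nat_lit 4641) (.e (nat_lit 163975) (nat_lit 30) (.e (nat_lit 573493) (nat_lit 15) (.e (nat_lit 81956) (nat_lit 23) (.e (nat_lit 98363) (nat_lit 26) .nil)))) (.g (nat_lit 0) (.e (nat_lit 166898) (nat_lit 0) .nil) .nil))))) (.nd (nat_lit 8) (.nd (nat_lit 9) 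
(.lf (nat_lit 498854) (.g (nat_lit 2110) (.e (nat_lit 163964) (nat_lit 25) (.e (nat_lit 532499) (nat_lit 1) (.e (nat_lit 57927) (nat_lit 282) (.e (nat_lit 163871) (nat_lit 2) (.e (nat_lit 196670) (nat_lit 14) (.e (nat_lit 73746) (nat_lit 3) (.e (nat_lit 516127) (nat_lit 2) (.e (nat_lit 213033) (nat_lit 12) .nil)))))))) (.g (nat_lit 1) (.e (nat_lit 165345) (nat_lit 0) .nil) .nil))) 
(.lf (nat_lit 499366) (.g (nat_lit 1833) (.e (nat_lit 163975) (nat_lit 30) (.e (nat_lit 573492) (nat_lit 15) (.e (nat_lit 81954) (nat_lit 23) (.e (nat_lit 98383) (nat_lit 32) (.e (nat_lit 475197) (nat_lit 40) (.e (nat_lit 704589) (nat_lit 3) .nil)))))) (.g (nat_lit 1) (.e (nat_lit 166650) (nat_lit 0) .nil) .nil)))) (.nd (nat_lit 9) 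
(.lf (nat_lit 499110) (.g (nat_lit 3422) (.e (nat_lit 163975) (nat_lit 30) (.e (nat_lit 573481) (nat_lit 13) (.e (nat_lit 65619) (nat_lit 10) (.e (nat_lit 344117) (nat_lit 21) (.e (nat_lit 516144) (nat_lit 9) (.e (nat_lit 426376) (nat_lit 15) (.e (nat_lit 2056) (nat_lit 142) (.e (nat_lit 704589) (nat_lit 3) .nil)))))))) (.g (nat_lit 1) (.e (nat_lit 165991) (nat_lit 0) .nil) .nil))) 
(.lf (nat_lit 499622) (.g (nat_lit 2083) (.e (nat_lit 163976) (nat_lit 30) (.e (nat_lit 573481) (nat_lit 13) (.e (nat_lit 65619) (nat_lit 10) (.e (nat_lit 344117) (nat_lit 21) (.e (nat_lit 516160) (nat_lit 10) .nil))))) (.g (nat_lit 0) (.e (nat_lit 167138) (nat_lit 0) .nil) .nil)))))) (.nd (nat_lit 7) (.nd (nat_lit 8) (.nd (nat_lit 9) 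
(.lf (nat_lit 498790) (.g (nat_lit 3171) (.e (nat_lit 163963) (nat_lit 25) (.e (nat_lit 532499) (nat_lit 1) (.e (nat_lit 57926) (nat_lit 282) (.e (nat_lit 163869) (nat_lit 2) (.e (nat_lit 196670) (nat_lit 14) (.e (nat_lit 73746) (nat_lit 3) (.e (nat_lit 516127) (nat_lit 2) (.e (nat_lit 213034) (nat_lit 12) .nil)))))))) (.g (nat_lit 1) (.e (nat_lit 165136) (nat_lit 0) .nil) .nil))) 
(.lf (nat_lit 499302) (.g (nat_lit 3479) (.e (nat_lit 163975) (nat_lit 30) (.e (nat_lit 573491) (nat_lit 15) (.e (nat_lit 81954) (nat_lit 23) (.e (nat_lit 98362) (nat_lit 26) (.e (nat_lit 426412) (nat_lit 15) (.e (nat_lit 2059) (nat_lit 142) (.e (nat_lit 704589) (nat_lit 3) .nil))))))) (.g (nat_lit 1) (.e (nat_lit 166421) (nat_lit 0) .nil) .nil)))) (.nd (nat_lit 9) 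
(.lf (nat_lit 499046) (.g (nat_lit 1624) (.e (nat_lit 163975) (nat_lit 30) (.e (nat_lit 573481) (nat_lit 13) (.e (nat_lit 65604) (nat_lit 9) (.e (nat_lit 336013) (nat_lit 2) (.e (nat_lit 90170) (nat_lit 13) .nil))))) (.g (nat_lit 0) (.e (nat_lit 165872) (nat_lit 0) .nil) .nil))) 
(.lf (nat_lit 499558) (.g (nat_lit 2343) (.e (nat_lit 163976) (nat_lit 30) (.e (nat_lit 573481) (nat_lit 13) (.e (nat_lit 65619) (nat_lit 10) (.e (nat_lit 344117) (nat_lit 21) (.e (nat_lit 516143) (nat_lit 9) (.e (nat_lit 426109) (nat_lit 1) (.e (nat_lit 164346) (nat_lit 240) (.e (nat_lit 2601) (nat_lit 163) .nil)))))))) (.g (nat_lit 1) (.e (nat_lit 167071) (nat_lit 0) .nil) .nil))))) 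
(.nd (nat_lit 8) (.nd (nat_lit 9) 
(.lf (nat_lit 498918) (.g (nat_lit 2819) (.e (nat_lit 163964) (nat_lit 25) (.e (nat_lit 532531) (nat_lit 9) (.e (nat_lit 336019) (nat_lit 3) (.e (nat_lit 98342) (nat_lit 20) (.e (nat_lit 221212) (nat_lit 22) (.e (nat_lit 196658) (nat_lit 12) (.e (nat_lit 57508) (nat_lit 39) (.e (nat_lit 647181) (nat_lit 3) .nil)))))))) (.g (nat_lit 1) (.e (nat_lit 165510) (nat_lit 0) .nil) .nil))) 
(.lf (nat_lit 499430) (.g (nat_lit 2506) (.e (nat_lit 163975) (nat_lit 30) (.e (nat_lit 573492) (nat_lit 15) (.e (nat_lit 81956) (nat_lit 23) (.e (nat_lit 98359) (nat_lit 26) (.e (nat_lit 426410) (nat_lit 15) (.e (nat_lit 2056) (nat_lit 142) (.e (nat_lit 704589) (nat_lit 3) .nil))))))) (.g (nat_lit 1) (.e (nat_lit 166773) (nat_lit 0) .nil) .nil)))) (.nd (nat_lit 9) 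
(.lf (nat_lit 499174) (.g (nat_lit 2491) (.e (nat_lit 163975) (nat_lit 30) (.e (nat_lit 573481) (nat_lit 13) (.e (nat_lit 65619) (nat_lit 10) (.e (nat_lit 344117) (nat_lit 21) (.e (nat_lit 516178) (nat_lit 15) (.e (nat_lit 475196) (nat_lit 40) (.e (nat_lit 704589) (nat_lit 3) .nil))))))) (.g (nat_lit 1) (.e (nat_lit 166072) (nat_lit 0) .nil) .nil))) 
(.lf (nat_lit 499686) (.g (nat_lit 2047) (.e (nat_lit 163976) (nat_lit 30) (.e (nat_lit 573489) (nat_lit 14) (.e (nat_lit 73755) (nat_lit 8) (.e (nat_lit 557105) (nat_lit 14) .nil)))) (.g (nat_lit 0) (.e (nat_lit 167326) (nat_lit 0) .nil) .nil)))))))) (.nd (nat_lit 5) (.nd (nat_lit 6) (.nd (nat_lit 7) (.nd (nat_lit 8) (.nd (nat_lit 9) 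
(.lf (nat_lit 498710) (.g (nat_lit 3859) (.e (nat_lit 163962) (nat_lit 25) (.e (nat_lit 532550) (nat_lit 12) (.e (nat_lit 360475) (nat_lit 8) (.e (nat_lit 557067) (nat_lit 9) (.e (nat_lit 220) (nat_lit 20) .nil))))) (.g (nat_lit 0) (.e (nat_lit 164890) (nat_lit 0) .nil) .nil))) 
(.lf (nat_lit 499222) (.g (nat_lit 4841) (.e (nat_lit 163975) (nat_lit 30) (.e (nat_lit 573487) (nat_lit 14) (.e (nat_lit 73753) (nat_lit 8) (.e (nat_lit 557105) (nat_lit 14) (.e (nat_lit 180252) (nat_lit 10) (.e (nat_lit 573475) (nat_lit 12) (.e (nat_lit 57503) (nat_lit 38) (.e (nat_lit 638994) (nat_lit 7) .nil)))))))) (.g (nat_lit 1) (.e (nat_lit 166185) (nat_lit 0) .nil) .nil)))) 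
(.nd (nat_lit 9) 
(.lf (nat_lit 498966) (.g (nat_lit 3467) (.e (nat_lit 163973) (nat_lit 30) (.e (nat_lit 573484) (nat_lit 13) (.e (nat_lit 65610) (nat_lit 10) (.e (nat_lit 344117) (nat_lit 21) (.e (nat_lit 516160) (nat_lit 10) (.e (nat_lit 434272) (nat_lit 38) (.e (nat_lit 655373) (nat_lit 3) .nil))))))) (.g (nat_lit 1) (.e (nat_lit 165654) (nat_lit 0) .nil) .nil))) 
(.lf (nat_lit 499478) (.g (nat_lit 3398) (.e (nat_lit 163975) (nat_lit 30) (.e (nat_lit 573492) (nat_lit 15) (.e (nat_lit 81956) (nat_lit 23) (.e (nat_lit 98386) (nat_lit 32) (.e (nat_lit 475197) (nat_lit 40) (.e (nat_lit 704590) (nat_lit 3) .nil)))))) (.g (nat_lit 1) (.e (nat_lit 166867) (nat_lit 0) .nil) .nil))))) (.nd (nat_lit 8) (.nd (nat_lit 9) 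
(.lf (nat_lit 498838) (.g (nat_lit 1174) (.e (nat_lit 163963) (nat_lit 25) (.e (nat_lit 532550) (nat_lit 12) (.e (nat_lit 360474) (nat_lit 8) .nil))) (.g (nat_lit 0) (.e (nat_lit 165296) (nat_lit 0) .nil) .nil))) 
(.lf (nat_lit 499350) (.g (nat_lit 434) (.e (nat_lit 163975) (nat_lit 30) (.e (nat_lit 573492) (nat_lit 15) (.e (nat_lit 81953) (nat_lit 22) .nil))) (.g (nat_lit 0) (.e (nat_lit 166526) (nat_lit 0) .nil) .nil)))) (.nd (nat_lit 9) 
(.lf (nat_lit 499094) (.g (nat_lit 4656) (.e (nat_lit 163975) (nat_lit 30) (.e (nat_lit 573481) (nat_lit 13) (.e (nat_lit 65609) (nat_lit 10) (.e (nat_lit 344117) (nat_lit 21) (.e (nat_lit 516179) (nat_lit 15) (.e (nat_lit 475199) (nat_lit 40) (.e (nat_lit 704589) (nat_lit 3) .nil))))))) (.g (nat_lit 1) (.e (nat_lit 165969) (nat_lit 0) .nil) .nil))) 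
(.lf (nat_lit 499606) (.g (nat_lit 2710) (.e (nat_lit 163976) (nat_lit 30) (.e (nat_lit 573481) (nat_lit 13) (.e (nat_lit 65619) (nat_lit 10) (.e (nat_lit 344117) (nat_lit 21) (.e (nat_lit 516151) (nat_lit 9) (.e (nat_lit 433920) (nat_lit 19) (.e (nat_lit 114432) (nat_lit 3) .nil))))))) (.g (nat_lit 1) (.e (nat_lit 167121) (nat_lit 0) .nil) .nil)))))) 
(.nd (nat_lit 7) (.nd (nat_lit 8) (.nd (nat_lit 9) 
(.lf (nat_lit 498774) (.g (nat_lit 2216) (.e (nat_lit 163962) (nat_lit 25) (.e (nat_lit 532569) (nat_lit 16) (.e (nat_lit 401448) (nat_lit 10) (.e (nat_lit 434232) (nat_lit 23) .nil)))) (.g (nat_lit 0) (.e (nat_lit 165040) (nat_lit 0) .nil) .nil))) 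
(.lf (nat_lit 499286) (.g (nat_lit 2405) (.e (nat_lit 163975) (nat_lit 30) (.e (nat_lit 573491) (nat_lit 15) (.e (nat_lit 81954) (nat_lit 23) (.e (nat_lit 98356) (nat_lit 26) (.e (nat_lit 426444) (nat_lit 19) (.e (nat_lit 114432) (nat_lit 3) .nil)))))) (.g (nat_lit 1) (.e (nat_lit 166390) (nat_lit 0) .nil) .nil)))) (.nd (nat_lit 9) 
(.lf (nat_lit 499030) (.g (nat_lit 3679) (.e (nat_lit 163975) (nat_lit 30) (.e (nat_lit 573471) (nat_lit 11) (.e (nat_lit 16425) (nat_lit 7) (.e (nat_lit 409616) (nat_lit 10) (.e (nat_lit 7936) (nat_lit 43) (.e (nat_lit 516160) (nat_lit 10) (.e (nat_lit 442112) (nat_lit 11) .nil))))))) (.g (nat_lit 1) (.e (nat_lit 165818) (nat_lit 0) .nil) .nil))) 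
(.lf (nat_lit 499542) (.g (nat_lit 3606) (.e (nat_lit 163976) (nat_lit 30) (.e (nat_lit 573481) (nat_lit 13) (.e (nat_lit 65604) (nat_lit 9) (.e (nat_lit 336028) (nat_lit 3) (.e (nat_lit 98367) (nat_lit 27) (.e (nat_lit 434272) (nat_lit 38) (.e (nat_lit 655373) (nat_lit 3) .nil))))))) (.g (nat_lit 1) (.e (nat_lit 167049) (nat_lit 0) .nil) .nil))))) (.nd (nat_lit 8) (.nd (nat_lit 9) 
(.lf (nat_lit 498902) (.g (nat_lit 472) (.e (nat_lit 163964) (nat_lit 25) (.e (nat_lit 532513) (nat_lit 3) (.e (nat_lit 114714) (nat_lit 22) .nil))) (.g (nat_lit 0) (.e (nat_lit 165434) (nat_lit 0) .nil) .nil))) 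
(.lf (nat_lit 499414) (.g (nat_lit 2492) (.e (nat_lit 163975) (nat_lit 30) (.e (nat_lit 573492) (nat_lit 15) (.e (nat_lit 81956) (nat_lit 23) (.e (nat_lit 98356) (nat_lit 26) (.e (nat_lit 433920) (nat_lit 15) .nil))))) (.g (nat_lit 0) (.e (nat_lit 166726) (nat_lit 0) .nil) .nil)))) (.nd (nat_lit 9) 
(.lf (nat_lit 499158) (.g (nat_lit 2660) (.e (nat_lit 163975) (nat_lit 30) (.e (nat_lit 573481) (nat_lit 13) (.e (nat_lit 65619) (nat_lit 10) (.e (nat_lit 344117) (nat_lit 21) (.e (nat_lit 516152) (nat_lit 9) (.e (nat_lit 426109) (nat_lit 1) (.e (nat_lit 164346) (nat_lit 240) (.e (nat_lit 2600) (nat_lit 163) .nil)))))))) (.g (nat_lit 1) (.e (nat_lit 166040) (nat_lit 0) .nil) .nil))) 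
(.lf (nat_lit 499670) (.g (nat_lit 1900) (.e (nat_lit 163976) (nat_lit 30) (.e (nat_lit 573488) (nat_lit 14) (.e (nat_lit 73755) (nat_lit 8) (.e (nat_lit 557104) (nat_lit 14) (.e (nat_lit 180243) (nat_lit 5) .nil))))) (.g (nat_lit 0) (.e (nat_lit 167295) (nat_lit 0) .nil) .nil))))))) (.nd (nat_lit 6) (.nd (nat_lit 7) (.nd (nat_lit 8) (.nd (nat_lit 9) 
(.lf (nat_lit 498742) (.g (nat_lit 3157) (.e (nat_lit 163962) (nat_lit 25) (.e (nat_lit 532550) (nat_lit 12) (.e (nat_lit 360475) (nat_lit 8) (.e (nat_lit 557089) (nat_lit 12) .nil)))) (.g (nat_lit 0) (.e (nat_lit 164940) (nat_lit 0) .nil) .nil))) 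
(.lf (nat_lit 499254) (.g (nat_lit 1735) (.e (nat_lit 163975) (nat_lit 30) (.e (nat_lit 573491) (nat_lit 15) (.e (nat_lit 81954) (nat_lit 23) (.e (nat_lit 98355) (nat_lit 26) (.e (nat_lit 426444) (nat_lit 19) (.e (nat_lit 114432) (nat_lit 3) .nil)))))) (.g (nat_lit 1) (.e (nat_lit 166355) (nat_lit 0) .nil) .nil)))) (.nd (nat_lit 9) 
(.lf (nat_lit 498998) (.g (nat_lit 1840) (.e (nat_lit 163974) (nat_lit 30) (.e (nat_lit 573479) (nat_lit 13) (.e (nat_lit 65619) (nat_lit 10) (.e (nat_lit 344117) (nat_lit 21) (.e (nat_lit 516147) (nat_lit 9) (.e (nat_lit 426442) (nat_lit 19) (.e (nat_lit 114432) (nat_lit 3) .nil))))))) (.g (nat_lit 1) (.e (nat_lit 165753) (nat_lit 0) .nil) .nil))) 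
(.lf (nat_lit 499510) (.g (nat_lit 3859) (.e (nat_lit 163976) (nat_lit 30) (.e (nat_lit 573481) (nat_lit 13) (.e (nat_lit 65604) (nat_lit 9) (.e (nat_lit 336013) (nat_lit 2) (.e (nat_lit 90166) (nat_lit 13) .nil))))) (.g (nat_lit 0) (.e (nat_lit 166960) (nat_lit 0) .nil) .nil))))) (.nd (nat_lit 8) (.nd (nat_lit 9) 
(.lf (nat_lit 498870) (.g (nat_lit 2575) (.e (nat_lit 163964) (nat_lit 25) (.e (nat_lit 532501) (nat_lit 1) (.e (nat_lit 57926) (nat_lit 282) (.e (nat_lit 163875) (nat_lit 3) (.e (nat_lit 204862) (nat_lit 27) .nil))))) (.g (nat_lit 0) (.e (nat_lit 165378) (nat_lit 0) .nil) .nil))) 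
(.lf (nat_lit 499382) (.g (nat_lit 3318) (.e (nat_lit 163975) (nat_lit 30) (.e (nat_lit 573492) (nat_lit 15) (.e (nat_lit 81956) (nat_lit 23) (.e (nat_lit 98356) (nat_lit 26) (.e (nat_lit 426360) (nat_lit 15) (.e (nat_lit 2045) (nat_lit 142) (.e (nat_lit 704589) (nat_lit 3) .nil))))))) (.g (nat_lit 1) (.e (nat_lit 166694) (nat_lit 0) .nil) .nil)))) (.nd (nat_lit 9) 
(.lf (nat_lit 499126) (.g (nat_lit 3359) (.e (nat_lit 163975) (nat_lit 30) (.e (nat_lit 573481) (nat_lit 13) (.e (nat_lit 65619) (nat_lit 10) (.e (nat_lit 344117) (nat_lit 21) (.e (nat_lit 516146) (nat_lit 9) (.e (nat_lit 426444) (nat_lit 19) (.e (nat_lit 114432) (nat_lit 3) .nil))))))) (.g (nat_lit 1) (.e (nat_lit 166007) (nat_lit 0) .nil) .nil))) 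
(.lf (nat_lit 499638) (.g (nat_lit 1880) (.e (nat_lit 163976) (nat_lit 30) (.e (nat_lit 573481) (nat_lit 13) (.e (nat_lit 65619) (nat_lit 10) (.e (nat_lit 344119) (nat_lit 21) (.e (nat_lit 516182) (nat_lit 15) .nil))))) (.g (nat_lit 0) (.e (nat_lit 167168) (nat_lit 0) .nil) .nil)))))) (.nd (nat_lit 7) (.nd (nat_lit 8) (.nd (nat_lit 9) 
(.lf (nat_lit 498806) (.g (nat_lit 2130) (.e (nat_lit 163963) (nat_lit 25) (.e (nat_lit 532499) (nat_lit 1) (.e (nat_lit 57927) (nat_lit 282) (.e (nat_lit 163875) (nat_lit 3) (.e (nat_lit 204862) (nat_lit 27) .nil))))) (.g (nat_lit 0) (.e (nat_lit 165167) (nat_lit 0) .nil) .nil))) 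
(.lf (nat_lit 499318) (.g (nat_lit 2933) (.e (nat_lit 163975) (nat_lit 30) (.e (nat_lit 573491) (nat_lit 15) (.e (nat_lit 81954) (nat_lit 23) (.e (nat_lit 98385) (nat_lit 32) (.e (nat_lit 475198) (nat_lit 40) (.e (nat_lit 704589) (nat_lit 3) .nil)))))) (.g (nat_lit 1) (.e (nat_lit 166458) (nat_lit 0) .nil) .nil)))) (.nd (nat_lit 9) 
(.lf (nat_lit 499062) (.g (nat_lit 2714) (.e (nat_lit 163975) (nat_lit 30) (.e (nat_lit 573481) (nat_lit 13) (.e (nat_lit 65604) (nat_lit 9) (.e (nat_lit 336013) (nat_lit 2) (.e (nat_lit 90170) (nat_lit 13) (.e (nat_lit 172061) (nat_lit 1) (.e (nat_lit 164348) (nat_lit 240) (.e (nat_lit 2600) (nat_lit 163) .nil)))))))) (.g (nat_lit 1) (.e (nat_lit 165897) (nat_lit 0) .nil) .nil))) 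
(.lf (nat_lit 499574) (.g (nat_lit 3961) (.e (nat_lit 163976) (nat_lit 30) (.e (nat_lit 573481) (nat_lit 13) (.e (nat_lit 65619) (nat_lit 10) (.e (nat_lit 344117) (nat_lit 21) (.e (nat_lit 516145) (nat_lit 9) (.e (nat_lit 426379) (nat_lit 15) (.e (nat_lit 2058) (nat_lit 142) (.e (nat_lit 704589) (nat_lit 3) .nil)))))))) (.g (nat_lit 1) (.e (nat_lit 167087) (nat_lit 0) .nil) .nil))))) 
(.nd (nat_lit 8) (.nd (nat_lit 9) 
(.lf (nat_lit 498934) (.g (nat_lit 2876) (.e (nat_lit 163965) (nat_lit 25) (.e (nat_lit 532499) (nat_lit 1) (.e (nat_lit 57927) (nat_lit 282) (.e (nat_lit 163869) (nat_lit 2) (.e (nat_lit 196670) (nat_lit 14) (.e (nat_lit 73746) (nat_lit 3) (.e (nat_lit 516127) (nat_lit 2) (.e (nat_lit 213033) (nat_lit 12) .nil)))))))) (.g (nat_lit 1) (.e (nat_lit 165574) (nat_lit 0) .nil) .nil))) 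
(.lf (nat_lit 499446) (.g (nat_lit 4557) (.e (nat_lit 163975) (nat_lit 30) (.e (nat_lit 573492) (nat_lit 15) (.e (nat_lit 81956) (nat_lit 23) (.e (nat_lit 98365) (nat_lit 26) (.e (nat_lit 426413) (nat_lit 15) .nil))))) (.g (nat_lit 0) (.e (nat_lit 166801) (nat_lit 0) .nil) .nil)))) (.nd (nat_lit 9) 
(.lf (nat_lit 499190) (.g (nat_lit 3641) (.e (nat_lit 163975) (nat_lit 30) (.e (nat_lit 573481) (nat_lit 13) (.e (nat_lit 65619) (nat_lit 10) (.e (nat_lit 344117) (nat_lit 21) (.e (nat_lit 516181) (nat_lit 15) (.e (nat_lit 475196) (nat_lit 40) (.e (nat_lit 704590) (nat_lit 3) .nil))))))) (.g (nat_lit 1) (.e (nat_lit 166088) (nat_lit 0) .nil) .nil))) 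
(.lf (nat_lit 499702) (.g (nat_lit 5219) (.e (nat_lit 163976) (nat_lit 30) (.e (nat_lit 573491) (nat_lit 15) (.e (nat_lit 81951) (nat_lit 22) (.e (nat_lit 90169) (nat_lit 13) (.e (nat_lit 172133) (nat_lit 15) (.e (nat_lit 2059) (nat_lit 142) (.e (nat_lit 704589) (nat_lit 3) .nil))))))) (.g (nat_lit 1) (.e (nat_lit 167359) (nat_lit 0) .nil) .nil))))))))) 
(.nd (nat_lit 4) (.nd (nat_lit 5) (.nd (nat_lit 6) (.nd (nat_lit 7) (.nd (nat_lit 8) 
(.nd (nat_lit 9) 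
(.lf (nat_lit 498702) (.g (nat_lit 2088) (.e (nat_lit 163962) (nat_lit 25) (.e (nat_lit 532550) (nat_lit 12) (.e (nat_lit 360475) (nat_lit 8) (.e (nat_lit 557065) (nat_lit 9) .nil)))) (.g (nat_lit 0) (.e (nat_lit 164878) (nat_lit 0) .nil) .nil))) 
(.lf (nat_lit 499214) (.g (nat_lit 3266) (.e (nat_lit 163975) (nat_lit 30) (.e (nat_lit 573487) (nat_lit 14) (.e (nat_lit 73753) (nat_lit 8) (.e (nat_lit 557103) (nat_lit 14) (.e (nat_lit 180250) (nat_lit 10) (.e (nat_lit 573475) (nat_lit 12) (.e (nat_lit 57504) (nat_lit 38) (.e (nat_lit 638994) (nat_lit 7) .nil)))))))) (.g (nat_lit 1) (.e (nat_lit 166168) (nat_lit 0) .nil) .nil)))) 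
(.nd (nat_lit 9) 
(.lf (nat_lit 498958) (.g (nat_lit 2861) (.e (nat_lit 163973) (nat_lit 30) (.e (nat_lit 573479) (nat_lit 13) (.e (nat_lit 65619) (nat_lit 10) (.e (nat_lit 344117) (nat_lit 21) (.e (nat_lit 516159) (nat_lit 10) (.e (nat_lit 434272) (nat_lit 38) (.e (nat_lit 655373) (nat_lit 3) .nil))))))) (.g (nat_lit 1) (.e (nat_lit 165645) (nat_lit 0) .nil) .nil))) 
(.lf (nat_lit 499470) (.g (nat_lit 2026) (.e (nat_lit 163975) (nat_lit 30) (.e (nat_lit 573492) (nat_lit 15) (.e (nat_lit 81956) (nat_lit 23) (.e (nat_lit 98385) (nat_lit 32) .nil)))) (.g (nat_lit 0) (.e (nat_lit 166859) (nat_lit 0) .nil) .nil))))) (.nd (nat_lit 8) (.nd (nat_lit 9) 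
(.lf (nat_lit 498830) (.g (nat_lit 1870) (.e (nat_lit 163963) (nat_lit 25) (.e (nat_lit 532513) (nat_lit 3) (.e (nat_lit 114714) (nat_lit 22) (.e (nat_lit 90172) (nat_lit 14) (.e (nat_lit 180244) (nat_lit 5) .nil))))) (.g (nat_lit 0) (.e (nat_lit 165214) (nat_lit 0) .nil) .nil))) 
(.lf (nat_lit 499342) (.g (nat_lit 1744) (.e (nat_lit 163975) (nat_lit 30) (.e (nat_lit 573491) (nat_lit 15) (.e (nat_lit 81956) (nat_lit 23) (.e (nat_lit 98385) (nat_lit 32) .nil)))) (.g (nat_lit 0) (.e (nat_lit 166482) (nat_lit 0) .nil) .nil)))) (.nd (nat_lit 9) 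
(.lf (nat_lit 499086) (.g (nat_lit 3666) (.e (nat_lit 163975) (nat_lit 30) (.e (nat_lit 573481) (nat_lit 13) (.e (nat_lit 65604) (nat_lit 9) (.e (nat_lit 336028) (nat_lit 3) (.e (nat_lit 98383) (nat_lit 32) (.e (nat_lit 475199) (nat_lit 40) (.e (nat_lit 704589) (nat_lit 3) .nil))))))) (.g (nat_lit 1) (.e (nat_lit 165961) (nat_lit 0) .nil) .nil))) 
(.lf (nat_lit 499598) (.g (nat_lit 3857) (.e (nat_lit 163976) (nat_lit 30) (.e (nat_lit 573481) (nat_lit 13) (.e (nat_lit 65619) (nat_lit 10) (.e (nat_lit 344117) (nat_lit 21) (.e (nat_lit 516151) (nat_lit 9) (.e (nat_lit 426043) (nat_lit 0) (.e (nat_lit 3409) (nat_lit 212) (.e (nat_lit 655373) (nat_lit 3) .nil)))))))) (.g (nat_lit 1) (.e (nat_lit 167111) (nat_lit 0) .nil) .nil)))))) 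
(.nd (nat_lit 7) (.nd (nat_lit 8) (.nd (nat_lit 9) 
(.lf (nat_lit 498766) (.g (nat_lit 997) (.e (nat_lit 163962) (nat_lit 25) (.e (nat_lit 532560) (nat_lit 14) (.e (nat_lit 376869) (nat_lit 23) (.e (nat_lit 98349) (nat_lit 24) .nil)))) (.g (nat_lit 0) (.e (nat_lit 165002) (nat_lit 0) .nil) .nil))) 
(.lf (nat_lit 499278) (.g (nat_lit 2533) (.e (nat_lit 163975) (nat_lit 30) (.e (nat_lit 573491) (nat_lit 15) (.e (nat_lit 81954) (nat_lit 23) (.e (nat_lit 98356) (nat_lit 26) (.e (nat_lit 426399) (nat_lit 15) .nil))))) (.g (nat_lit 0) (.e (nat_lit 166382) (nat_lit 0) .nil) .nil)))) (.nd (nat_lit 9) 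
(.lf (nat_lit 499022) (.g (nat_lit 816) (.e (nat_lit 163974) (nat_lit 30) (.e (nat_lit 573493) (nat_lit 15) (.e (nat_lit 81956) (nat_lit 23) .nil))) (.g (nat_lit 0) (.e (nat_lit 165796) (nat_lit 0) .nil) .nil))) 
(.lf (nat_lit 499534) (.g (nat_lit 1703) (.e (nat_lit 163976) (nat_lit 30) (.e (nat_lit 573481) (nat_lit 13) (.e (nat_lit 65604) (nat_lit 9) (.e (nat_lit 336028) (nat_lit 3) (.e (nat_lit 98359) (nat_lit 26) .nil))))) (.g (nat_lit 0) (.e (nat_lit 167007) (nat_lit 0) .nil) .nil))))) (.nd (nat_lit 8) (.nd (nat_lit 9) 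
(.lf (nat_lit 498894) (.g (nat_lit 3936) (.e (nat_lit 163964) (nat_lit 25) (.e (nat_lit 532501) (nat_lit 1) (.e (nat_lit 57931) (nat_lit 282) (.e (nat_lit 163869) (nat_lit 2) (.e (nat_lit 196670) (nat_lit 14) (.e (nat_lit 73746) (nat_lit 3) (.e (nat_lit 516126) (nat_lit 2) (.e (nat_lit 213035) (nat_lit 12) .nil)))))))) (.g (nat_lit 1) (.e (nat_lit 165421) (nat_lit 0) .nil) .nil))) 
(.lf (nat_lit 499406) (.g (nat_lit 3258) (.e (nat_lit 163975) (nat_lit 30) (.e (nat_lit 573492) (nat_lit 15) (.e (nat_lit 81956) (nat_lit 23) (.e (nat_lit 98356) (nat_lit 26) (.e (nat_lit 426420) (nat_lit 15) .nil))))) (.g (nat_lit 0) (.e (nat_lit 166718) (nat_lit 0) .nil) .nil)))) (.nd (nat_lit 9) 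
(.lf (nat_lit 499150) (.g (nat_lit 4334) (.e (nat_lit 163975) (nat_lit 30) (.e (nat_lit 573481) (nat_lit 13) (.e (nat_lit 65619) (nat_lit 10) (.e (nat_lit 344117) (nat_lit 21) (.e (nat_lit 516151) (nat_lit 9) (.e (nat_lit 426414) (nat_lit 15) (.e (nat_lit 2059) (nat_lit 142) (.e (nat_lit 704589) (nat_lit 3) .nil)))))))) (.g (nat_lit 1) (.e (nat_lit 166032) (nat_lit 0) .nil) .nil))) 
(.lf (nat_lit 499662) (.g (nat_lit 2273) (.e (nat_lit 163976) (nat_lit 30) (.e (nat_lit 573488) (nat_lit 14) (.e (nat_lit 73755) (nat_lit 8) (.e (nat_lit 557103) (nat_lit 14) (.e (nat_lit 180243) (nat_lit 5) .nil))))) (.g (nat_lit 0) (.e (nat_lit 167282) (nat_lit 0) .nil) .nil))))))) (.nd (nat_lit 6) (.nd (nat_lit 7) (.nd (nat_lit 8) (.nd (nat_lit 9) 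
(.lf (nat_lit 498734) (.g (nat_lit 2735) (.e (nat_lit 163962) (nat_lit 25) (.e (nat_lit 532550) (nat_lit 12) (.e (nat_lit 360475) (nat_lit 8) (.e (nat_lit 557087) (nat_lit 11) (.e (nat_lit 24583) (nat_lit 0) .nil))))) (.g (nat_lit 0) (.e (nat_lit 164932) (nat_lit 0) .nil) .nil))) 
(.lf (nat_lit 499246) (.g (nat_lit 1147) (.e (nat_lit 163975) (nat_lit 30) (.e (nat_lit 573491) (nat_lit 15) (.e (nat_lit 81951) (nat_lit 22) (.e (nat_lit 90170) (nat_lit 13) .nil)))) (.g (nat_lit 0) (.e (nat_lit 166293) (nat_lit 0) .nil) .nil)))) (.nd (nat_lit 9) 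
(.lf (nat_lit 498990) (.g (nat_lit 4685) (.e (nat_lit 163973) (nat_lit 30) (.e (nat_lit 573492) (nat_lit 15) (.e (nat_lit 81956) (nat_lit 23) (.e (nat_lit 98367) (nat_lit 27) (.e (nat_lit 434271) (nat_lit 38) (.e (nat_lit 655373) (nat_lit 3) .nil)))))) (.g (nat_lit 1) (.e (nat_lit 165731) (nat_lit 0) .nil) .nil))) 
(.lf (nat_lit 499502) (.g (nat_lit 3692) (.e (nat_lit 163976) (nat_lit 30) (.e (nat_lit 573474) (nat_lit 12) (.e (nat_lit 57528) (nat_lit 46) (.e (nat_lit 704590) (nat_lit 3) (.e (nat_lit 163962) (nat_lit 25) (.e (nat_lit 532544) (nat_lit 10) (.e (nat_lit 344117) (nat_lit 21) (.e (nat_lit 516123) (nat_lit 2) (.e (nat_lit 213033) (nat_lit 12) .nil))))))))) (.g (nat_lit 1) (.e (nat_lit 166934) (nat_lit 0) .nil) .nil))))) 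
(.nd (nat_lit 8) (.nd (nat_lit 9) 
(.lf (nat_lit 498862) (.g (nat_lit 3107) (.e (nat_lit 163964) (nat_lit 25) (.e (nat_lit 532501) (nat_lit 1) (.e (nat_lit 57926) (nat_lit 282) (.e (nat_lit 163869) (nat_lit 2) (.e (nat_lit 196670) (nat_lit 14) (.e (nat_lit 73746) (nat_lit 3) (.e (nat_lit 516124) (nat_lit 2) (.e (nat_lit 213033) (nat_lit 12) .nil)))))))) (.g (nat_lit 1) (.e (nat_lit 165367) (nat_lit 0) .nil) .nil))) 
(.lf (nat_lit 499374) (.g (nat_lit 1970) (.e (nat_lit 163975) (nat_lit 30) (.e (nat_lit 573492) (nat_lit 15) (.e (nat_lit 81956) (nat_lit 23) (.e (nat_lit 98355) (nat_lit 26) .nil)))) (.g (nat_lit 0) (.e (nat_lit 166681) (nat_lit 0) .nil) .nil)))) (.nd (nat_lit 9) 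
(.lf (nat_lit 499118) (.g (nat_lit 2704) (.e (nat_lit 163975) (nat_lit 30) (.e (nat_lit 573481) (nat_lit 13) (.e (nat_lit 65619) (nat_lit 10) (.e (nat_lit 344117) (nat_lit 21) (.e (nat_lit 516144) (nat_lit 9) (.e (nat_lit 426466) (nat_lit 24) (.e (nat_lit 163584) (nat_lit 3) .nil))))))) (.g (nat_lit 1) (.e (nat_lit 165999) (nat_lit 0) .nil) .nil))) 
(.lf (nat_lit 499630) (.g (nat_lit 3553) (.e (nat_lit 163976) (nat_lit 30) (.e (nat_lit 573481) (nat_lit 13) (.e (nat_lit 65619) (nat_lit 10) (.e (nat_lit 344117) (nat_lit 21) (.e (nat_lit 516180) (nat_lit 15) (.e (nat_lit 475197) (nat_lit 40) (.e (nat_lit 704589) (nat_lit 3) .nil))))))) (.g (nat_lit 1) (.e (nat_lit 167160) (nat_lit 0) .nil) .nil)))))) 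
(.nd (nat_lit 7) (.nd (nat_lit 8) (.nd (nat_lit 9) 
(.lf (nat_lit 498798) (.g (nat_lit 3667) (.e (nat_lit 163963) (nat_lit 25) (.e (nat_lit 532499) (nat_lit 1) (.e (nat_lit 57927) (nat_lit 282) (.e (nat_lit 163869) (nat_lit 2) (.e (nat_lit 196670) (nat_lit 14) (.e (nat_lit 73746) (nat_lit 3) (.e (nat_lit 516122) (nat_lit 2) (.e (nat_lit 213035) (nat_lit 12) .nil)))))))) (.g (nat_lit 1) (.e (nat_lit 165156) (nat_lit 0) .nil) .nil))) 
(.lf (nat_lit 499310) (.g (nat_lit 1139) (.e (nat_lit 163975) (nat_lit 30) (.e (nat_lit 573491) (nat_lit 15) (.e (nat_lit 81954) (nat_lit 23) (.e (nat_lit 98383) (nat_lit 32) .nil)))) (.g (nat_lit 0) (.e (nat_lit 166450) (nat_lit 0) .nil) .nil)))) (.nd (nat_lit 9) 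
(.lf (nat_lit 499054) (.g (nat_lit 2808) (.e (nat_lit 163975) (nat_lit 30) (.e (nat_lit 573481) (nat_lit 13) (.e (nat_lit 65604) (nat_lit 9) (.e (nat_lit 336013) (nat_lit 2) (.e (nat_lit 90170) (nat_lit 13) (.e (nat_lit 172059) (nat_lit 1) (.e (nat_lit 164348) (nat_lit 240) (.e (nat_lit 2600) (nat_lit 163) .nil)))))))) (.g (nat_lit 1) (.e (nat_lit 165889) (nat_lit 0) .nil) .nil))) 
(.lf (nat_lit 499566) (.g (nat_lit 3252) (.e (nat_lit 163976) (nat_lit 30) (.e (nat_lit 573481) (nat_lit 13) (.e (nat_lit 65619) (nat_lit 10) (.e (nat_lit 344117) (nat_lit 21) (.e (nat_lit 516144) (nat_lit 9) (.e (nat_lit 426376) (nat_lit 15) (.e (nat_lit 2059) (nat_lit 142) (.e (nat_lit 704589) (nat_lit 3) .nil)))))))) (.g (nat_lit 1) (.e (nat_lit 167079) (nat_lit 0) .nil) .nil))))) 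
(.nd (nat_lit 8) (.nd (nat_lit 9) 
(.lf (nat_lit 498926) (.g (nat_lit 847) (.e (nat_lit 163964) (nat_lit 25) (.e (nat_lit 532550) (nat_lit 12) (.e (nat_lit 360475) (nat_lit 8) .nil))) (.g (nat_lit 0) (.e (nat_lit 165531) (nat_lit 0) .nil) .nil))) 
(.lf (nat_lit 499438) (.g (nat_lit 2122) (.e (nat_lit 163975) (nat_lit 30) (.e (nat_lit 573492) (nat_lit 15) (.e (nat_lit 81956) (nat_lit 23) (.e (nat_lit 98363) (nat_lit 26) .nil)))) (.g (nat_lit 0) (.e (nat_lit 166784) (nat_lit 0) .nil) .nil)))) (.nd (nat_lit 9) 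
(.lf (nat_lit 499182) (.g (nat_lit 2693) (.e (nat_lit 163975) (nat_lit 30) (.e (nat_lit 573481) (nat_lit 13) (.e (nat_lit 65619) (nat_lit 10) (.e (nat_lit 344117) (nat_lit 21) (.e (nat_lit 516180) (nat_lit 15) (.e (nat_lit 475195) (nat_lit 40) (.e (nat_lit 704589) (nat_lit 3) .nil))))))) (.g (nat_lit 1) (.e (nat_lit 166080) (nat_lit 0) .nil) .nil))) 
(.lf (nat_lit 499694) (.g (nat_lit 3678) (.e (nat_lit 163976) (nat_lit 30) (.e (nat_lit 573489) (nat_lit 14) (.e (nat_lit 73755) (nat_lit 8) (.e (nat_lit 557105) (nat_lit 14) (.e (nat_lit 180252) (nat_lit 10) (.e (nat_lit 573475) (nat_lit 12) (.e (nat_lit 57501) (nat_lit 37) (.e (nat_lit 630799) (nat_lit 7) .nil)))))))) (.g (nat_lit 1) (.e (nat_lit 167334) (nat_lit 0) .nil) .nil)))))))) 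
(.nd (nat_lit 5) (.nd (nat_lit 6) (.nd (nat_lit 7) (.nd (nat_lit 8) (.nd (nat_lit 9) 
(.lf (nat_lit 498718) (.g (nat_lit 3567) (.e (nat_lit 163962) (nat_lit 25) (.e (nat_lit 532550) (nat_lit 12) (.e (nat_lit 360475) (nat_lit 8) (.e (nat_lit 557070) (nat_lit 9) (.e (nat_lit 281) (nat_lit 21) .nil))))) (.g (nat_lit 0) (.e (nat_lit 164905) (nat_lit 0) .nil) .nil))) 
(.lf (nat_lit 499230) (.g (nat_lit 3155) (.e (nat_lit 163975) (nat_lit 30) (.e (nat_lit 573488) (nat_lit 14) (.e (nat_lit 73755) (nat_lit 8) (.e (nat_lit 557103) (nat_lit 14) (.e (nat_lit 180251) (nat_lit 10) (.e (nat_lit 573475) (nat_lit 12) (.e (nat_lit 57503) (nat_lit 38) (.e (nat_lit 638994) (nat_lit 7) .nil)))))))) (.g (nat_lit 1) (.e (nat_lit 166235) (nat_lit 0) .nil) .nil)))) 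
(.nd (nat_lit 9) 
(.lf (nat_lit 498974) (.g (nat_lit 591) (.e (nat_lit 163973) (nat_lit 30) (.e (nat_lit 573492) (nat_lit 15) (.e (nat_lit 81954) (nat_lit 23) .nil))) (.g (nat_lit 0) (.e (nat_lit 165700) (nat_lit 0) .nil) .nil))) 
(.lf (nat_lit 499486) (.g (nat_lit 3704) (.e (nat_lit 163975) (nat_lit 30) (.e (nat_lit 573493) (nat_lit 15) (.e (nat_lit 81953) (nat_lit 22) (.e (nat_lit 90170) (nat_lit 13) .nil)))) (.g (nat_lit 0) (.e (nat_lit 166887) (nat_lit 0) .nil) .nil))))) (.nd (nat_lit 8) (.nd (nat_lit 9) 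
(.lf (nat_lit 498846) (.g (nat_lit 2413) (.e (nat_lit 163964) (nat_lit 25) (.e (nat_lit 532499) (nat_lit 1) (.e (nat_lit 57847) (nat_lit 252) (.e (nat_lit 57370) (nat_lit 2) (.e (nat_lit 90158) (nat_lit 11) (.e (nat_lit 24608) (nat_lit 3) (.e (nat_lit 98337) (nat_lit 19) (.e (nat_lit 213035) (nat_lit 12) .nil)))))))) (.g (nat_lit 1) (.e (nat_lit 165327) (nat_lit 0) .nil) .nil))) 
(.lf (nat_lit 499358) (.g (nat_lit 2925) (.e (nat_lit 163975) (nat_lit 30) (.e (nat_lit 573492) (nat_lit 15) (.e (nat_lit 81953) (nat_lit 22) (.e (nat_lit 90170) (nat_lit 13) (.e (nat_lit 172137) (nat_lit 15) .nil))))) (.g (nat_lit 0) (.e (nat_lit 166604) (nat_lit 0) .nil) .nil)))) (.nd (nat_lit 9) 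
(.lf (nat_lit 499102) (.g (nat_lit 4692) (.e (nat_lit 163975) (nat_lit 30) (.e (nat_lit 573481) (nat_lit 13) (.e (nat_lit 65618) (nat_lit 10) (.e (nat_lit 344117) (nat_lit 21) (.e (nat_lit 516151) (nat_lit 9) (.e (nat_lit 426412) (nat_lit 15) (.e (nat_lit 2057) (nat_lit 142) (.e (nat_lit 704589) (nat_lit 3) .nil)))))))) (.g (nat_lit 1) (.e (nat_lit 165977) (nat_lit 0) .nil) .nil))) 
(.lf (nat_lit 499614) (.g (nat_lit 2488) (.e (nat_lit 163976) (nat_lit 30) (.e (nat_lit 573481) (nat_lit 13) (.e (nat_lit 65619) (nat_lit 10) (.e (nat_lit 344117) (nat_lit 21) (.e (nat_lit 516152) (nat_lit 9) (.e (nat_lit 426109) (nat_lit 1) (.e (nat_lit 164347) (nat_lit 240) (.e (nat_lit 2599) (nat_lit 163) .nil)))))))) (.g (nat_lit 1) (.e (nat_lit 167129) (nat_lit 0) .nil) .nil)))))) 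
(.nd (nat_lit 7) (.nd (nat_lit 8) (.nd (nat_lit 9) 
(.lf (nat_lit 498782) (.g (nat_lit 2546) (.e (nat_lit 163962) (nat_lit 25) (.e (nat_lit 532569) (nat_lit 16) (.e (nat_lit 401456) (nat_lit 13) (.e (nat_lit 483370) (nat_lit 20) .nil)))) (.g (nat_lit 0) (.e (nat_lit 165054) (nat_lit 0) .nil) .nil))) 
(.lf (nat_lit 499294) (.g (nat_lit 2156) (.e (nat_lit 163975) (nat_lit 30) (.e (nat_lit 573491) (nat_lit 15) (.e (nat_lit 81954) (nat_lit 23) (.e (nat_lit 98359) (nat_lit 26) (.e (nat_lit 426410) (nat_lit 15) .nil))))) (.g (nat_lit 0) (.e (nat_lit 166411) (nat_lit 0) .nil) .nil)))) (.nd (nat_lit 9) 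
(.lf (nat_lit 499038) (.g (nat_lit 2335) (.e (nat_lit 163975) (nat_lit 30) (.e (nat_lit 573479) (nat_lit 13) (.e (nat_lit 65619) (nat_lit 10) (.e (nat_lit 344117) (nat_lit 21) (.e (nat_lit 516179) (nat_lit 15) (.e (nat_lit 475199) (nat_lit 40) (.e (nat_lit 704589) (nat_lit 3) .nil))))))) (.g (nat_lit 1) (.e (nat_lit 165856) (nat_lit 0) .nil) .nil))) 
(.lf (nat_lit 499550) (.g (nat_lit 1504) (.e (nat_lit 163976) (nat_lit 30) (.e (nat_lit 573481) (nat_lit 13) (.e (nat_lit 65619) (nat_lit 10) (.e (nat_lit 344116) (nat_lit 21) (.e (nat_lit 516182) (nat_lit 15) .nil))))) (.g (nat_lit 0) (.e (nat_lit 167060) (nat_lit 0) .nil) .nil))))) (.nd (nat_lit 8) (.nd (nat_lit 9) 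
(.lf (nat_lit 498910) (.g (nat_lit 1995) (.e (nat_lit 163964) (nat_lit 25) (.e (nat_lit 532513) (nat_lit 3) (.e (nat_lit 114714) (nat_lit 22) (.e (nat_lit 90172) (nat_lit 14) (.e (nat_lit 180244) (nat_lit 5) (.e (nat_lit 532501) (nat_lit 1) (.e (nat_lit 57665) (nat_lit 152) (.e (nat_lit 7936) (nat_lit 163) .nil)))))))) (.g (nat_lit 1) (.e (nat_lit 165452) (nat_lit 0) .nil) .nil))) 
(.lf (nat_lit 499422) (.g (nat_lit 2337) (.e (nat_lit 163975) (nat_lit 30) (.e (nat_lit 573492) (nat_lit 15) (.e (nat_lit 81956) (nat_lit 23) (.e (nat_lit 98358) (nat_lit 26) .nil)))) (.g (nat_lit 0) (.e (nat_lit 166737) (nat_lit 0) .nil) .nil)))) (.nd (nat_lit 9) 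
(.lf (nat_lit 499166) (.g (nat_lit 2418) (.e (nat_lit 163975) (nat_lit 30) (.e (nat_lit 573481) (nat_lit 13) (.e (nat_lit 65619) (nat_lit 10) (.e (nat_lit 344117) (nat_lit 21) (.e (nat_lit 516159) (nat_lit 10) (.e (nat_lit 434270) (nat_lit 38) (.e (nat_lit 655373) (nat_lit 3) .nil))))))) (.g (nat_lit 1) (.e (nat_lit 166050) (nat_lit 0) .nil) .nil))) 
(.lf (nat_lit 499678) (.g (nat_lit 3939) (.e (nat_lit 163976) (nat_lit 30) (.e (nat_lit 573488) (nat_lit 14) (.e (nat_lit 73755) (nat_lit 8) (.e (nat_lit 557105) (nat_lit 14) (.e (nat_lit 180252) (nat_lit 10) (.e (nat_lit 573474) (nat_lit 12) (.e (nat_lit 57500) (nat_lit 37) (.e (nat_lit 630799) (nat_lit 7) .nil)))))))) (.g (nat_lit 1) (.e (nat_lit 167314) (nat_lit 0) .nil) .nil))))))) 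
(.nd (nat_lit 6) (.nd (nat_lit 7) (.nd (nat_lit 8) (.nd (nat_lit 9) 
(.lf (nat_lit 498750) (.g (nat_lit 685) (.e (nat_lit 163962) (nat_lit 25) (.e (nat_lit 532558) (nat_lit 14) (.e (nat_lit 376855) (nat_lit 20) .nil))) (.g (nat_lit 0) (.e (nat_lit 164961) (nat_lit 0) .nil) .nil))) 
(.lf (nat_lit 499262) (.g (nat_lit 2121) (.e (nat_lit 163975) (nat_lit 30) (.e (nat_lit 573491) (nat_lit 15) (.e (nat_lit 81954) (nat_lit 23) (.e (nat_lit 98356) (nat_lit 26) (.e (nat_lit 426362) (nat_lit 15) (.e (nat_lit 2061) (nat_lit 142) (.e (nat_lit 704589) (nat_lit 3) .nil))))))) (.g (nat_lit 1) (.e (nat_lit 166366) (nat_lit 0) .nil) .nil)))) (.nd (nat_lit 9) 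
(.lf (nat_lit 499006) (.g (nat_lit 2265) (.e (nat_lit 163974) (nat_lit 30) (.e (nat_lit 573482) (nat_lit 13) (.e (nat_lit 65619) (nat_lit 10) (.e (nat_lit 344117) (nat_lit 21) (.e (nat_lit 516159) (nat_lit 10) .nil))))) (.g (nat_lit 0) (.e (nat_lit 165761) (nat_lit 0) .nil) .nil))) 
(.lf (nat_lit 499518) (.g (nat_lit 3462) (.e (nat_lit 163976) (nat_lit 30) (.e (nat_lit 573481) (nat_lit 13) (.e (nat_lit 65604) (nat_lit 9) (.e (nat_lit 336013) (nat_lit 2) (.e (nat_lit 90170) (nat_lit 13) (.e (nat_lit 172042) (nat_lit 0) (.e (nat_lit 3409) (nat_lit 212) (.e (nat_lit 655373) (nat_lit 3) .nil)))))))) (.g (nat_lit 1) (.e (nat_lit 166970) (nat_lit 0) .nil) .nil))))) 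
(.nd (nat_lit 8) (.nd (nat_lit 9) 
(.lf (nat_lit 498878) (.g (nat_lit 4056) (.e (nat_lit 163964) (nat_lit 25) (.e (nat_lit 532501) (nat_lit 1) (.e (nat_lit 57927) (nat_lit 282) (.e (nat_lit 163869) (nat_lit 2) (.e (nat_lit 196670) (nat_lit 14) (.e (nat_lit 73746) (nat_lit 3) (.e (nat_lit 516127) (nat_lit 2) (.e (nat_lit 213035) (nat_lit 12) .nil)))))))) (.g (nat_lit 1) (.e (nat_lit 165395) (nat_lit 0) .nil) .nil))) 
(.lf (nat_lit 499390) (.g (nat_lit 2747) (.e (nat_lit 163975) (nat_lit 30) (.e (nat_lit 573492) (nat_lit 15) (.e (nat_lit 81956) (nat_lit 23) (.e (nat_lit 98356) (nat_lit 26) (.e (nat_lit 426362) (nat_lit 15) .nil))))) (.g (nat_lit 0) (.e (nat_lit 166702) (nat_lit 0) .nil) .nil)))) (.nd (nat_lit 9) 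
(.lf (nat_lit 499134) (.g (nat_lit 2481) (.e (nat_lit 163975) (nat_lit 30) (.e (nat_lit 573481) (nat_lit 13) (.e (nat_lit 65619) (nat_lit 10) (.e (nat_lit 344117) (nat_lit 21) (.e (nat_lit 516151) (nat_lit 9) (.e (nat_lit 426003) (nat_lit 0) (.e (nat_lit 3409) (nat_lit 212) (.e (nat_lit 655373) (nat_lit 3) .nil)))))))) (.g (nat_lit 1) (.e (nat_lit 166015) (nat_lit 0) .nil) .nil))) 
(.lf (nat_lit 499646) (.g (nat_lit 2756) (.e (nat_lit 163976) (nat_lit 30) (.e (nat_lit 573482) (nat_lit 13) (.e (nat_lit 65619) (nat_lit 10) (.e (nat_lit 344117) (nat_lit 21) (.e (nat_lit 516151) (nat_lit 9) .nil))))) (.g (nat_lit 0) (.e (nat_lit 167181) (nat_lit 0) .nil) .nil)))))) (.nd (nat_lit 7) (.nd (nat_lit 8) (.nd (nat_lit 9) 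
(.lf (nat_lit 498814) (.g (nat_lit 921) (.e (nat_lit 163963) (nat_lit 25) (.e (nat_lit 532501) (nat_lit 1) (.e (nat_lit 57927) (nat_lit 282) .nil))) (.g (nat_lit 0) (.e (nat_lit 165180) (nat_lit 0) .nil) .nil))) 
(.lf (nat_lit 499326) (.g (nat_lit 2454) (.e (nat_lit 163975) (nat_lit 30) (.e (nat_lit 573491) (nat_lit 15) (.e (nat_lit 81955) (nat_lit 23) (.e (nat_lit 98386) (nat_lit 32) (.e (nat_lit 475196) (nat_lit 40) (.e (nat_lit 704590) (nat_lit 3) .nil)))))) (.g (nat_lit 1) (.e (nat_lit 166466) (nat_lit 0) .nil) .nil)))) (.nd (nat_lit 9) 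
(.lf (nat_lit 499070) (.g (nat_lit 3223) (.e (nat_lit 163975) (nat_lit 30) (.e (nat_lit 573481) (nat_lit 13) (.e (nat_lit 65604) (nat_lit 9) (.e (nat_lit 336013) (nat_lit 2) (.e (nat_lit 90170) (nat_lit 13) (.e (nat_lit 179968) (nat_lit 19) (.e (nat_lit 114432) (nat_lit 3) .nil))))))) (.g (nat_lit 1) (.e (nat_lit 165906) (nat_lit 0) .nil) .nil))) 
(.lf (nat_lit 499582) (.g (nat_lit 1949) (.e (nat_lit 163976) (nat_lit 30) (.e (nat_lit 573481) (nat_lit 13) (.e (nat_lit 65619) (nat_lit 10) (.e (nat_lit 344117) (nat_lit 21) (.e (nat_lit 516147) (nat_lit 9) (.e (nat_lit 426420) (nat_lit 15) (.e (nat_lit 2058) (nat_lit 142) (.e (nat_lit 704589) (nat_lit 3) .nil)))))))) (.g (nat_lit 1) (.e (nat_lit 167095) (nat_lit 0) .nil) .nil))))) 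
(.nd (nat_lit 8) (.nd (nat_lit 9) 
(.lf (nat_lit 498942) (.g (nat_lit 3006) (.e (nat_lit 163965) (nat_lit 25) (.e (nat_lit 532535) (nat_lit 9) (.e (nat_lit 336099) (nat_lit 9) (.e (nat_lit 336013) (nat_lit 2) .nil)))) (.g (nat_lit 0) (.e (nat_lit 165605) (nat_lit 0) .nil) .nil))) 
(.lf (nat_lit 499454) (.g (nat_lit 1535) (.e (nat_lit 163975) (nat_lit 30) (.e (nat_lit 573492) (nat_lit 15) (.e (nat_lit 81956) (nat_lit 23) (.e (nat_lit 98368) (nat_lit 27) (.e (nat_lit 434272) (nat_lit 38) .nil))))) (.g (nat_lit 0) (.e (nat_lit 166831) (nat_lit 0) .nil) .nil)))) (.nd (nat_lit 9) 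
(.lf (nat_lit 499198) (.g (nat_lit 3144) (.e (nat_lit 163975) (nat_lit 30) (.e (nat_lit 573481) (nat_lit 13) (.e (nat_lit 65619) (nat_lit 10) (.e (nat_lit 344119) (nat_lit 21) (.e (nat_lit 516179) (nat_lit 15) (.e (nat_lit 475198) (nat_lit 40) (.e (nat_lit 704589) (nat_lit 3) .nil))))))) (.g (nat_lit 1) (.e (nat_lit 166096) (nat_lit 0) .nil) .nil))) 
(.lf (nat_lit 499710) (.g (nat_lit 1434) (.e (nat_lit 163976) (nat_lit 30) (.e (nat_lit 573491) (nat_lit 15) (.e (nat_lit 81954) (nat_lit 23) (.e (nat_lit 98355) (nat_lit 26) (.e (nat_lit 426379) (nat_lit 15) .nil))))) (.g (nat_lit 0) (.e (nat_lit 167430) (nat_lit 0) .nil) .nil)))))))))))) 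
(.nd (nat_lit 1) (.nd (nat_lit 2) (.nd (nat_lit 3) (.nd (nat_lit 4) (.nd (nat_lit 5) 
(.nd (nat_lit 6) (.nd (nat_lit 7) (.nd (nat_lit 8) (.nd (nat_lit 9) 
(.lf (nat_lit 498689) (.g (nat_lit 1839) (.e (nat_lit 163962) (nat_lit 25) (.e (nat_lit 532550) (nat_lit 12) (.e (nat_lit 360474) (nat_lit 8) (.e (nat_lit 557072) (nat_lit 9) (.e (nat_lit 7936) (nat_lit 19) (.e (nat_lit 319492) (nat_lit 0) (.e (nat_lit 5761) (nat_lit 315) .nil))))))) (.g (nat_lit 1) (.e (nat_lit 164861) (nat_lit 0) .nil) .nil))) 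
(.lf (nat_lit 499201) (.g (nat_lit 2496) (.e (nat_lit 163975) (nat_lit 30) (.e (nat_lit 573481) (nat_lit 13) (.e (nat_lit 65619) (nat_lit 10) (.e (nat_lit 344119) (nat_lit 21) (.e (nat_lit 516182) (nat_lit 15) (.e (nat_lit 475198) (nat_lit 40) (.e (nat_lit 704590) (nat_lit 3) .nil))))))) (.g (nat_lit 1) (.e (nat_lit 166099) (nat_lit 0) .nil) .nil)))) (.nd (nat_lit 9) 
(.lf (nat_lit 498945) (.g (nat_lit 5134) (.e (nat_lit 163965) (nat_lit 25) (.e (nat_lit 532550) (nat_lit 12) (.e (nat_lit 360475) (nat_lit 8) (.e (nat_lit 557068) (nat_lit 9) .nil)))) (.g (nat_lit 0) (.e (nat_lit 165608) (nat_lit 0) .nil) .nil))) 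
(.lf (nat_lit 499457) (.g (nat_lit 2593) (.e (nat_lit 163975) (nat_lit 30) (.e (nat_lit 573492) (nat_lit 15) (.e (nat_lit 81956) (nat_lit 23) (.e (nat_lit 98383) (nat_lit 32) (.e (nat_lit 475197) (nat_lit 40) (.e (nat_lit 704590) (nat_lit 3) .nil)))))) (.g (nat_lit 1) (.e (nat_lit 166846) (nat_lit 0) .nil) .nil))))) (.nd (nat_lit 8) (.nd (nat_lit 9) 
(.lf (nat_lit 498817) (.g (nat_lit 3453) (.e (nat_lit 163963) (nat_lit 25) (.e (nat_lit 532501) (nat_lit 1) (.e (nat_lit 57927) (nat_lit 282) (.e (nat_lit 163869) (nat_lit 2) (.e (nat_lit 196670) (nat_lit 14) (.e (nat_lit 73746) (nat_lit 3) (.e (nat_lit 516124) (nat_lit 2) (.e (nat_lit 213034) (nat_lit 12) .nil)))))))) (.g (nat_lit 1) (.e (nat_lit 165188) (nat_lit 0) .nil) .nil))) 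
(.lf (nat_lit 499329) (.g (nat_lit 2619) (.e (nat_lit 163975) (nat_lit 30) (.e (nat_lit 573491) (nat_lit 15) (.e (nat_lit 81955) (nat_lit 23) (.e (nat_lit 98386) (nat_lit 32) (.e (nat_lit 475199) (nat_lit 40) (.e (nat_lit 704589) (nat_lit 3) .nil)))))) (.g (nat_lit 1) (.e (nat_lit 166469) (nat_lit 0) .nil) .nil)))) (.nd (nat_lit 9) 
(.lf (nat_lit 499073) (.g (nat_lit 2699) (.e (nat_lit 163975) (nat_lit 30) (.e (nat_lit 573481) (nat_lit 13) (.e (nat_lit 65604) (nat_lit 9) (.e (nat_lit 336028) (nat_lit 3) (.e (nat_lit 98356) (nat_lit 26) (.e (nat_lit 426444) (nat_lit 19) (.e (nat_lit 114432) (nat_lit 3) .nil))))))) (.g (nat_lit 1) (.e (nat_lit 165914) (nat_lit 0) .nil) .nil))) 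
(.lf (nat_lit 499585) (.g (nat_lit 2343) (.e (nat_lit 163976) (nat_lit 30) (.e (nat_lit 573481) (nat_lit 13) (.e (nat_lit 65619) (nat_lit 10) (.e (nat_lit 344117) (nat_lit 21) (.e (nat_lit 516147) (nat_lit 9) (.e (nat_lit 426469) (nat_lit 24) (.e (nat_lit 163584) (nat_lit 3) .nil))))))) (.g (nat_lit 1) (.e (nat_lit 167098) (nat_lit 0) .nil) .nil)))))) 
(.nd (nat_lit 7) (.nd (nat_lit 8) (.nd (nat_lit 9) 
(.lf (nat_lit 498753) (.g (nat_lit 1210) (.e (nat_lit 163962) (nat_lit 25) (.e (nat_lit 532558) (nat_lit 14) (.e (nat_lit 376869) (nat_lit 23) (.e (nat_lit 98350) (nat_lit 24) .nil)))) (.g (nat_lit 0) (.e (nat_lit 164969) (nat_lit 0) .nil) .nil))) 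
(.lf (nat_lit 499265) (.g (nat_lit 2171) (.e (nat_lit 163975) (nat_lit 30) (.e (nat_lit 573491) (nat_lit 15) (.e (nat_lit 81954) (nat_lit 23) (.e (nat_lit 98356) (nat_lit 26) (.e (nat_lit 426363) (nat_lit 15) (.e (nat_lit 2062) (nat_lit 142) (.e (nat_lit 704589) (nat_lit 3) .nil))))))) (.g (nat_lit 1) (.e (nat_lit 166369) (nat_lit 0) .nil) .nil)))) (.nd (nat_lit 9) 
(.lf (nat_lit 499009) (.g (nat_lit 3095) (.e (nat_lit 163974) (nat_lit 30) (.e (nat_lit 573484) (nat_lit 13) (.e (nat_lit 65610) (nat_lit 10) (.e (nat_lit 344117) (nat_lit 21) (.e (nat_lit 516145) (nat_lit 9) (.e (nat_lit 426442) (nat_lit 19) (.e (nat_lit 114432) (nat_lit 3) .nil))))))) (.g (nat_lit 1) (.e (nat_lit 165764) (nat_lit 0) .nil) .nil))) 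
(.lf (nat_lit 499521) (.g (nat_lit 3375) (.e (nat_lit 163976) (nat_lit 30) (.e (nat_lit 573481) (nat_lit 13) (.e (nat_lit 65604) (nat_lit 9) (.e (nat_lit 336013) (nat_lit 2) (.e (nat_lit 90170) (nat_lit 13) (.e (nat_lit 172049) (nat_lit 0) (.e (nat_lit 3407) (nat_lit 212) (.e (nat_lit 655373) (nat_lit 3) .nil)))))))) (.g (nat_lit 1) (.e (nat_lit 166979) (nat_lit 0) .nil) .nil))))) 
(.nd (nat_lit 8) (.nd (nat_lit 9) 
(.lf (nat_lit 498881) (.g (nat_lit 2827) (.e (nat_lit 163964) (nat_lit 25) (.e (nat_lit 532501) (nat_lit 1) (.e (nat_lit 57927) (nat_lit 282) (.e (nat_lit 163871) (nat_lit 2) (.e (nat_lit 196670) (nat_lit 14) (.e (nat_lit 73746) (nat_lit 3) (.e (nat_lit 516124) (nat_lit 2) (.e (nat_lit 213035) (nat_lit 12) .nil)))))))) (.g (nat_lit 1) (.e (nat_lit 165399) (nat_lit 0) .nil) .nil))) 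
(.lf (nat_lit 499393) (.g (nat_lit 2758) (.e (nat_lit 163975) (nat_lit 30) (.e (nat_lit 573492) (nat_lit 15) (.e (nat_lit 81956) (nat_lit 23) (.e (nat_lit 98356) (nat_lit 26) (.e (nat_lit 426364) (nat_lit 15) .nil))))) (.g (nat_lit 0) (.e (nat_lit 166705) (nat_lit 0) .nil) .nil)))) (.nd (nat_lit 9) 
(.lf (nat_lit 499137) (.g (nat_lit 2765) (.e (nat_lit 163975) (nat_lit 30) (.e (nat_lit 573481) (nat_lit 13) (.e (nat_lit 65619) (nat_lit 10) (.e (nat_lit 344117) (nat_lit 21) (.e (nat_lit 516151) (nat_lit 9) (.e (nat_lit 426022) (nat_lit 0) (.e (nat_lit 3402) (nat_lit 211) (.e (nat_lit 647180) (nat_lit 3) .nil)))))))) (.g (nat_lit 1) (.e (nat_lit 166018) (nat_lit 0) .nil) .nil))) 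
(.lf (nat_lit 499649) (.g (nat_lit 4425) (.e (nat_lit 163976) (nat_lit 30) (.e (nat_lit 573484) (nat_lit 13) (.e (nat_lit 65610) (nat_lit 10) (.e (nat_lit 344117) (nat_lit 21) (.e (nat_lit 516179) (nat_lit 15) (.e (nat_lit 475198) (nat_lit 40) (.e (nat_lit 704589) (nat_lit 3) .nil))))))) (.g (nat_lit 1) (.e (nat_lit 167184) (nat_lit 0) .nil) .nil))))))) 
(.nd (nat_lit 6) (.nd (nat_lit 7) (.nd (nat_lit 8) (.nd (nat_lit 9) 
(.lf (nat_lit 498721) (.g (nat_lit 3613) (.e (nat_lit 163962) (nat_lit 25) (.e (nat_lit 532550) (nat_lit 12) (.e (nat_lit 360475) (nat_lit 8) (.e (nat_lit 557071) (nat_lit 9) .nil)))) (.g (nat_lit 0) (.e (nat_lit 164909) (nat_lit 0) .nil) .nil))) 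
(.lf (nat_lit 499233) (.g (nat_lit 3521) (.e (nat_lit 163975) (nat_lit 30) (.e (nat_lit 573488) (nat_lit 14) (.e (nat_lit 73755) (nat_lit 8) (.e (nat_lit 557105) (nat_lit 14) (.e (nat_lit 180251) (nat_lit 10) (.e (nat_lit 573475) (nat_lit 12) (.e (nat_lit 57503) (nat_lit 38) (.e (nat_lit 638994) (nat_lit 7) .nil)))))))) (.g (nat_lit 1) (.e (nat_lit 166259) (nat_lit 0) .nil) .nil)))) 
(.nd (nat_lit 9) 
(.lf (nat_lit 498977) (.g (nat_lit 3615) (.e (nat_lit 163973) (nat_lit 30) (.e (nat_lit 573492) (nat_lit 15) (.e (nat_lit 81956) (nat_lit 23) (.e (nat_lit 98356) (nat_lit 26) .nil)))) (.g (nat_lit 0) (.e (nat_lit 165707) (nat_lit 0) .nil) .nil))) 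
(.lf (nat_lit 499489) (.g (nat_lit 4536) (.e (nat_lit 163975) (nat_lit 30) (.e (nat_lit 573493) (nat_lit 15) (.e (nat_lit 81956) (nat_lit 23) (.e (nat_lit 98355) (nat_lit 26) .nil)))) (.g (nat_lit 0) (.e (nat_lit 166893) (nat_lit 0) .nil) .nil))))) (.nd (nat_lit 8) (.nd (nat_lit 9) 
(.lf (nat_lit 498849) (.g (nat_lit 2709) (.e (nat_lit 163964) (nat_lit 25) (.e (nat_lit 532499) (nat_lit 1) (.e (nat_lit 57927) (nat_lit 282) (.e (nat_lit 163868) (nat_lit 2) (.e (nat_lit 196670) (nat_lit 14) (.e (nat_lit 73746) (nat_lit 3) (.e (nat_lit 516124) (nat_lit 2) (.e (nat_lit 213033) (nat_lit 12) .nil)))))))) (.g (nat_lit 1) (.e (nat_lit 165336) (nat_lit 0) .nil) .nil))) 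
(.lf (nat_lit 499361) (.g (nat_lit 4664) (.e (nat_lit 163975) (nat_lit 30) (.e (nat_lit 573492) (nat_lit 15) (.e (nat_lit 81953) (nat_lit 22) (.e (nat_lit 90170) (nat_lit 13) (.e (nat_lit 172138) (nat_lit 15) (.e (nat_lit 2059) (nat_lit 142) (.e (nat_lit 704589) (nat_lit 3) .nil))))))) (.g (nat_lit 1) (.e (nat_lit 166607) (nat_lit 0) .nil) .nil)))) (.nd (nat_lit 9) 
(.lf (nat_lit 499105) (.g (nat_lit 2884) (.e (nat_lit 163975) (nat_lit 30) (.e (nat_lit 573481) (nat_lit 13) (.e (nat_lit 65619) (nat_lit 10) (.e (nat_lit 344117) (nat_lit 21) (.e (nat_lit 516143) (nat_lit 9) (.e (nat_lit 426109) (nat_lit 1) (.e (nat_lit 164345) (nat_lit 240) (.e (nat_lit 2599) (nat_lit 163) .nil)))))))) (.g (nat_lit 1) (.e (nat_lit 165986) (nat_lit 0) .nil) .nil))) 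
(.lf (nat_lit 499617) (.g (nat_lit 1935) (.e (nat_lit 163976) (nat_lit 30) (.e (nat_lit 573481) (nat_lit 13) (.e (nat_lit 65619) (nat_lit 10) (.e (nat_lit 344117) (nat_lit 21) (.e (nat_lit 524032) (nat_lit 9) .nil))))) (.g (nat_lit 0) (.e (nat_lit 167132) (nat_lit 0) .nil) .nil)))))) (.nd (nat_lit 7) (.nd (nat_lit 8) (.nd (nat_lit 9) 
(.lf (nat_lit 498785) (.g (nat_lit 3723) (.e (nat_lit 163963) (nat_lit 25) (.e (nat_lit 532499) (nat_lit 1) (.e (nat_lit 57847) (nat_lit 252) (.e (nat_lit 57365) (nat_lit 1) (.e (nat_lit 57926) (nat_lit 282) .nil))))) (.g (nat_lit 0) (.e (nat_lit 165130) (nat_lit 0) .nil) .nil))) 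
(.lf (nat_lit 499297) (.g (nat_lit 4330) (.e (nat_lit 163975) (nat_lit 30) (.e (nat_lit 573491) (nat_lit 15) (.e (nat_lit 81954) (nat_lit 23) (.e (nat_lit 98359) (nat_lit 26) (.e (nat_lit 426412) (nat_lit 15) (.e (nat_lit 2059) (nat_lit 142) (.e (nat_lit 704589) (nat_lit 3) .nil))))))) (.g (nat_lit 1) (.e (nat_lit 166414) (nat_lit 0) .nil) .nil)))) (.nd (nat_lit 9) 
(.lf (nat_lit 499041) (.g (nat_lit 3421) (.e (nat_lit 163975) (nat_lit 30) (.e (nat_lit 573481) (nat_lit 13) (.e (nat_lit 65589) (nat_lit 9) (.e (nat_lit 336019) (nat_lit 3) (.e (nat_lit 98384) (nat_lit 32) (.e (nat_lit 475199) (nat_lit 40) (.e (nat_lit 704589) (nat_lit 3) .nil))))))) (.g (nat_lit 1) (.e (nat_lit 165865) (nat_lit 0) .nil) .nil))) 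
(.lf (nat_lit 499553) (.g (nat_lit 3012) (.e (nat_lit 163976) (nat_lit 30) (.e (nat_lit 573481) (nat_lit 13) (.e (nat_lit 65619) (nat_lit 10) (.e (nat_lit 344117) (nat_lit 21) (.e (nat_lit 516143) (nat_lit 9) (.e (nat_lit 426025) (nat_lit 0) (.e (nat_lit 3397) (nat_lit 211) (.e (nat_lit 647180) (nat_lit 3) .nil)))))))) (.g (nat_lit 1) (.e (nat_lit 167066) (nat_lit 0) .nil) .nil))))) 
(.nd (nat_lit 8) (.nd (nat_lit 9) 
(.lf (nat_lit 498913) (.g (nat_lit 4537) (.e (nat_lit 163964) (nat_lit 25) (.e (nat_lit 532513) (nat_lit 3) (.e (nat_lit 114718) (nat_lit 23) (.e (nat_lit 98384) (nat_lit 32) (.e (nat_lit 475179) (nat_lit 24) (.e (nat_lit 516117) (nat_lit 1) (.e (nat_lit 164305) (nat_lit 226) (.e (nat_lit 2612) (nat_lit 163) .nil)))))))) (.g (nat_lit 1) (.e (nat_lit 165464) (nat_lit 0) .nil) .nil))) 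
(.lf (nat_lit 499425) (.g (nat_lit 1308) (.e (nat_lit 163975) (nat_lit 30) (.e (nat_lit 573492) (nat_lit 15) (.e (nat_lit 81956) (nat_lit 23) (.e (nat_lit 98359) (nat_lit 26) .nil)))) (.g (nat_lit 0) (.e (nat_lit 166740) (nat_lit 0) .nil) .nil)))) (.nd (nat_lit 9) 
(.lf (nat_lit 499169) (.g (nat_lit 3468) (.e (nat_lit 163975) (nat_lit 30) (.e (nat_lit 573481) (nat_lit 13) (.e (nat_lit 65619) (nat_lit 10) (.e (nat_lit 344117) (nat_lit 21) (.e (nat_lit 516160) (nat_lit 10) (.e (nat_lit 434209) (nat_lit 18) (.e (nat_lit 5547) (nat_lit 306) (.e (nat_lit 2599) (nat_lit 163) .nil)))))))) (.g (nat_lit 1) (.e (nat_lit 166053) (nat_lit 0) .nil) .nil))) 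
(.lf (nat_lit 499681) (.g (nat_lit 567) (.e (nat_lit 163976) (nat_lit 30) (.e (nat_lit 573489) (nat_lit 14) (.e (nat_lit 73755) (nat_lit 8) .nil))) (.g (nat_lit 0) (.e (nat_lit 167321) (nat_lit 0) .nil) .nil)))))))) (.nd (nat_lit 5) (.nd (nat_lit 6) (.nd (nat_lit 7) (.nd (nat_lit 8) (.nd (nat_lit 9) 
(.lf (nat_lit 498705) (.g (nat_lit 3059) (.e (nat_lit 163962) (nat_lit 25) (.e (nat_lit 532550) (nat_lit 12) (.e (nat_lit 360475) (nat_lit 8) (.e (nat_lit 557065) (nat_lit 9) (.e (nat_lit 307) (nat_lit 22) .nil))))) (.g (nat_lit 0) (.e (nat_lit 164881) (nat_lit 0) .nil) .nil))) 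
(.lf (nat_lit 499217) (.g (nat_lit 3096) (.e (nat_lit 163975) (nat_lit 30) (.e (nat_lit 573487) (nat_lit 14) (.e (nat_lit 73753) (nat_lit 8) (.e (nat_lit 557103) (nat_lit 14) (.e (nat_lit 180251) (nat_lit 10) (.e (nat_lit 573475) (nat_lit 12) (.e (nat_lit 57503) (nat_lit 38) (.e (nat_lit 638994) (nat_lit 7) .nil)))))))) (.g (nat_lit 1) (.e (nat_lit 166172) (nat_lit 0) .nil) .nil)))) 
(.nd (nat_lit 9) 
(.lf (nat_lit 498961) (.g (nat_lit 3462) (.e (nat_lit 163973) (nat_lit 30) (.e (nat_lit 573479) (nat_lit 13) (.e (nat_lit 65619) (nat_lit 10) (.e (nat_lit 344117) (nat_lit 21) (.e (nat_lit 516160) (nat_lit 10) (.e (nat_lit 434272) (nat_lit 38) (.e (nat_lit 655373) (nat_lit 3) .nil))))))) (.g (nat_lit 1) (.e (nat_lit 165648) (nat_lit 0) .nil) .nil))) 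
(.lf (nat_lit 499473) (.g (nat_lit 4892) (.e (nat_lit 163975) (nat_lit 30) (.e (nat_lit 573492) (nat_lit 15) (.e (nat_lit 81956) (nat_lit 23) (.e (nat_lit 98385) (nat_lit 32) (.e (nat_lit 475198) (nat_lit 40) (.e (nat_lit 704590) (nat_lit 3) .nil)))))) (.g (nat_lit 1) (.e (nat_lit 166862) (nat_lit 0) .nil) .nil))))) (.nd (nat_lit 8) (.nd (nat_lit 9) 
(.lf (nat_lit 498833) (.g (nat_lit 2128) (.e (nat_lit 163963) (nat_lit 25) (.e (nat_lit 532513) (nat_lit 3) (.e (nat_lit 114719) (nat_lit 23) (.e (nat_lit 98356) (nat_lit 26) (.e (nat_lit 426438) (nat_lit 18) (.e (nat_lit 98335) (nat_lit 18) (.e (nat_lit 164305) (nat_lit 226) (.e (nat_lit 2612) (nat_lit 163) .nil)))))))) (.g (nat_lit 1) (.e (nat_lit 165241) (nat_lit 0) .nil) .nil))) 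
(.lf (nat_lit 499345) (.g (nat_lit 1417) (.e (nat_lit 163975) (nat_lit 30) (.e (nat_lit 573492) (nat_lit 15) (.e (nat_lit 81951) (nat_lit 22) (.e (nat_lit 90170) (nat_lit 13) .nil)))) (.g (nat_lit 0) (.e (nat_lit 166505) (nat_lit 0) .nil) .nil)))) (.nd (nat_lit 9) 
(.lf (nat_lit 499089) (.g (nat_lit 2832) (.e (nat_lit 163975) (nat_lit 30) (.e (nat_lit 573481) (nat_lit 13) (.e (nat_lit 65604) (nat_lit 9) (.e (nat_lit 336028) (nat_lit 3) (.e (nat_lit 98386) (nat_lit 32) (.e (nat_lit 475197) (nat_lit 40) (.e (nat_lit 704590) (nat_lit 3) .nil))))))) (.g (nat_lit 1) (.e (nat_lit 165964) (nat_lit 0) .nil) .nil))) 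
(.lf (nat_lit 499601) (.g (nat_lit 2357) (.e (nat_lit 163976) (nat_lit 30) (.e (nat_lit 573481) (nat_lit 13) (.e (nat_lit 65619) (nat_lit 10) (.e (nat_lit 344117) (nat_lit 21) (.e (nat_lit 516151) (nat_lit 9) (.e (nat_lit 426097) (nat_lit 1) (.e (nat_lit 164348) (nat_lit 240) (.e (nat_lit 2600) (nat_lit 163) .nil)))))))) (.g (nat_lit 1) (.e (nat_lit 167115) (nat_lit 0) .nil) .nil)))))) 
(.nd (nat_lit 7) (.nd (nat_lit 8) (.nd (nat_lit 9) 
(.lf (nat_lit 498769) (.g (nat_lit 1692) (.e (nat_lit 163962) (nat_lit 25) (.e (nat_lit 532567) (nat_lit 16) (.e (nat_lit 401459) (nat_lit 13) (.e (nat_lit 483350) (nat_lit 17) .nil)))) (.g (nat_lit 0) (.e (nat_lit 165025) (nat_lit 0) .nil) .nil))) 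
(.lf (nat_lit 499281) (.g (nat_lit 2533) (.e (nat_lit 163975) (nat_lit 30) (.e (nat_lit 573491) (nat_lit 15) (.e (nat_lit 81954) (nat_lit 23) (.e (nat_lit 98356) (nat_lit 26) (.e (nat_lit 426404) (nat_lit 15) .nil))))) (.g (nat_lit 0) (.e (nat_lit 166385) (nat_lit 0) .nil) .nil)))) (.nd (nat_lit 9) 
(.lf (nat_lit 499025) (.g (nat_lit 4679) (.e (nat_lit 163974) (nat_lit 30) (.e (nat_lit 573493) (nat_lit 15) (.e (nat_lit 81956) (nat_lit 23) (.e (nat_lit 98357) (nat_lit 26) .nil)))) (.g (nat_lit 0) (.e (nat_lit 165799) (nat_lit 0) .nil) .nil))) 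
(.lf (nat_lit 499537) (.g (nat_lit 2470) (.e (nat_lit 163976) (nat_lit 30) (.e (nat_lit 573481) (nat_lit 13) (.e (nat_lit 65604) (nat_lit 9) (.e (nat_lit 336028) (nat_lit 3) (.e (nat_lit 98362) (nat_lit 26) (.e (nat_lit 426412) (nat_lit 15) (.e (nat_lit 2059) (nat_lit 142) (.e (nat_lit 704589) (nat_lit 3) .nil)))))))) (.g (nat_lit 1) (.e (nat_lit 167039) (nat_lit 0) .nil) .nil))))) 
(.nd (nat_lit 8) (.nd (nat_lit 9) 
(.lf (nat_lit 498897) (.g (nat_lit 3927) (.e (nat_lit 163964) (nat_lit 25) (.e (nat_lit 532503) (nat_lit 1) (.e (nat_lit 57931) (nat_lit 282) (.e (nat_lit 163869) (nat_lit 2) (.e (nat_lit 196670) (nat_lit 14) (.e (nat_lit 73746) (nat_lit 3) (.e (nat_lit 516127) (nat_lit 2) (.e (nat_lit 213035) (nat_lit 12) .nil)))))))) (.g (nat_lit 1) (.e (nat_lit 165425) (nat_lit 0) .nil) .nil))) 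
(.lf (nat_lit 499409) (.g (nat_lit 3264) (.e (nat_lit 163975) (nat_lit 30) (.e (nat_lit 573492) (nat_lit 15) (.e (nat_lit 81956) (nat_lit 23) (.e (nat_lit 98356) (nat_lit 26) (.e (nat_lit 426400) (nat_lit 15) .nil))))) (.g (nat_lit 0) (.e (nat_lit 166721) (nat_lit 0) .nil) .nil)))) (.nd (nat_lit 9) 
(.lf (nat_lit 499153) (.g (nat_lit 2978) (.e (nat_lit 163975) (nat_lit 30) (.e (nat_lit 573481) (nat_lit 13) (.e (nat_lit 65619) (nat_lit 10) (.e (nat_lit 344117) (nat_lit 21) (.e (nat_lit 516151) (nat_lit 9) (.e (nat_lit 433920) (nat_lit 19) (.e (nat_lit 114432) (nat_lit 3) .nil))))))) (.g (nat_lit 1) (.e (nat_lit 166035) (nat_lit 0) .nil) .nil))) 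
(.lf (nat_lit 499665) (.g (nat_lit 3138) (.e (nat_lit 163976) (nat_lit 30) (.e (nat_lit 573488) (nat_lit 14) (.e (nat_lit 73755) (nat_lit 8) (.e (nat_lit 557103) (nat_lit 14) (.e (nat_lit 180250) (nat_lit 10) (.e (nat_lit 573473) (nat_lit 12) (.e (nat_lit 57501) (nat_lit 37) (.e (nat_lit 630799) (nat_lit 7) .nil)))))))) (.g (nat_lit 1) (.e (nat_lit 167290) (nat_lit 0) .nil) .nil))))))) 
(.nd (nat_lit 6) (.nd (nat_lit 7) (.nd (nat_lit 8) (.nd (nat_lit 9) 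
(.lf (nat_lit 498737) (.g (nat_lit 2841) (.e (nat_lit 163962) (nat_lit 25) (.e (nat_lit 532550) (nat_lit 12) (.e (nat_lit 360475) (nat_lit 8) (.e (nat_lit 557087) (nat_lit 11) (.e (nat_lit 24590) (nat_lit 0) .nil))))) (.g (nat_lit 0) (.e (nat_lit 164935) (nat_lit 0) .nil) .nil))) 
(.lf (nat_lit 499249) (.g (nat_lit 2875) (.e (nat_lit 163975) (nat_lit 30) (.e (nat_lit 573491) (nat_lit 15) (.e (nat_lit 81951) (nat_lit 22) (.e (nat_lit 90170) (nat_lit 13) (.e (nat_lit 172137) (nat_lit 15) (.e (nat_lit 2057) (nat_lit 142) (.e (nat_lit 704589) (nat_lit 3) .nil))))))) (.g (nat_lit 1) (.e (nat_lit 166327) (nat_lit 0) .nil) .nil)))) (.nd (nat_lit 9) 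
(.lf (nat_lit 498993) (.g (nat_lit 2341) (.e (nat_lit 163973) (nat_lit 30) (.e (nat_lit 573492) (nat_lit 15) (.e (nat_lit 81956) (nat_lit 23) (.e (nat_lit 98368) (nat_lit 27) .nil)))) (.g (nat_lit 0) (.e (nat_lit 165734) (nat_lit 0) .nil) .nil))) 
(.lf (nat_lit 499505) (.g (nat_lit 3138) (.e (nat_lit 163976) (nat_lit 30) (.e (nat_lit 573479) (nat_lit 13) (.e (nat_lit 65610) (nat_lit 10) (.e (nat_lit 344117) (nat_lit 21) (.e (nat_lit 516179) (nat_lit 15) (.e (nat_lit 475198) (nat_lit 40) (.e (nat_lit 704589) (nat_lit 3) .nil))))))) (.g (nat_lit 1) (.e (nat_lit 166951) (nat_lit 0) .nil) .nil))))) (.nd (nat_lit 8) (.nd (nat_lit 9) 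
(.lf (nat_lit 498865) (.g (nat_lit 3951) (.e (nat_lit 163964) (nat_lit 25) (.e (nat_lit 532501) (nat_lit 1) (.e (nat_lit 57926) (nat_lit 282) (.e (nat_lit 163869) (nat_lit 2) (.e (nat_lit 196670) (nat_lit 14) (.e (nat_lit 73746) (nat_lit 3) (.e (nat_lit 516126) (nat_lit 2) (.e (nat_lit 213035) (nat_lit 12) .nil)))))))) (.g (nat_lit 1) (.e (nat_lit 165370) (nat_lit 0) .nil) .nil))) 
(.lf (nat_lit 499377) (.g (nat_lit 1734) (.e (nat_lit 163975) (nat_lit 30) (.e (nat_lit 573492) (nat_lit 15) (.e (nat_lit 81956) (nat_lit 23) (.e (nat_lit 98356) (nat_lit 26) .nil)))) (.g (nat_lit 0) (.e (nat_lit 166684) (nat_lit 0) .nil) .nil)))) (.nd (nat_lit 9) 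
(.lf (nat_lit 499121) (.g (nat_lit 4478) (.e (nat_lit 163975) (nat_lit 30) (.e (nat_lit 573481) (nat_lit 13) (.e (nat_lit 65619) (nat_lit 10) (.e (nat_lit 344117) (nat_lit 21) (.e (nat_lit 516145) (nat_lit 9) (.e (nat_lit 426375) (nat_lit 15) (.e (nat_lit 2057) (nat_lit 142) (.e (nat_lit 704589) (nat_lit 3) .nil)))))))) (.g (nat_lit 1) (.e (nat_lit 166002) (nat_lit 0) .nil) .nil))) 
(.lf (nat_lit 499633) (.g (nat_lit 3220) (.e (nat_lit 163976) (nat_lit 30) (.e (nat_lit 573481) (nat_lit 13) (.e (nat_lit 65619) (nat_lit 10) (.e (nat_lit 344117) (nat_lit 21) (.e (nat_lit 516181) (nat_lit 15) (.e (nat_lit 475198) (nat_lit 40) (.e (nat_lit 704589) (nat_lit 3) .nil))))))) (.g (nat_lit 1) (.e (nat_lit 167163) (nat_lit 0) .nil) .nil)))))) 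
(.nd (nat_lit 7) (.nd (nat_lit 8) (.nd (nat_lit 9) 
(.lf (nat_lit 498801) (.g (nat_lit 4151) (.e (nat_lit 163963) (nat_lit 25) (.e (nat_lit 532499) (nat_lit 1) (.e (nat_lit 57927) (nat_lit 282) (.e (nat_lit 163869) (nat_lit 2) (.e (nat_lit 196670) (nat_lit 14) (.e (nat_lit 73746) (nat_lit 3) (.e (nat_lit 516126) (nat_lit 2) (.e (nat_lit 213035) (nat_lit 12) .nil)))))))) (.g (nat_lit 1) (.e (nat_lit 165159) (nat_lit 0) .nil) .nil))) 
(.lf (nat_lit 499313) (.g (nat_lit 2913) (.e (nat_lit 163975) (nat_lit 30) (.e (nat_lit 573491) (nat_lit 15) (.e (nat_lit 81954) (nat_lit 23) (.e (nat_lit 98384) (nat_lit 32) (.e (nat_lit 475197) (nat_lit 40) (.e (nat_lit 704590) (nat_lit 3) .nil)))))) (.g (nat_lit 1) (.e (nat_lit 166453) (nat_lit 0) .nil) .nil)))) (.nd (nat_lit 9) 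
(.lf (nat_lit 499057) (.g (nat_lit 2681) (.e (nat_lit 163975) (nat_lit 30) (.e (nat_lit 573481) (nat_lit 13) (.e (nat_lit 65604) (nat_lit 9) (.e (nat_lit 336013) (nat_lit 2) (.e (nat_lit 90170) (nat_lit 13) (.e (nat_lit 172061) (nat_lit 1) (.e (nat_lit 164346) (nat_lit 240) (.e (nat_lit 2599) (nat_lit 163) .nil)))))))) (.g (nat_lit 1) (.e (nat_lit 165892) (nat_lit 0) .nil) .nil))) 
(.lf (nat_lit 499569) (.g (nat_lit 2391) (.e (nat_lit 163976) (nat_lit 30) (.e (nat_lit 573481) (nat_lit 13) (.e (nat_lit 65619) (nat_lit 10) (.e (nat_lit 344117) (nat_lit 21) (.e (nat_lit 516144) (nat_lit 9) (.e (nat_lit 426416) (nat_lit 15) (.e (nat_lit 2059) (nat_lit 142) (.e (nat_lit 704589) (nat_lit 3) .nil)))))))) (.g (nat_lit 1) (.e (nat_lit 167082) (nat_lit 0) .nil) .nil))))) 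
(.nd (nat_lit 8) (.nd (nat_lit 9) 
(.lf (nat_lit 498929) (.g (nat_lit 3382) (.e (nat_lit 163964) (nat_lit 25) (.e (nat_lit 532554) (nat_lit 13) (.e (nat_lit 368676) (nat_lit 21) (.e (nat_lit 516131) (nat_lit 3) (.e (nat_lit 221212) (nat_lit 22) (.e (nat_lit 196658) (nat_lit 12) (.e (nat_lit 57508) (nat_lit 39) (.e (nat_lit 647181) (nat_lit 3) .nil)))))))) (.g (nat_lit 1) (.e (nat_lit 165538) (nat_lit 0) .nil) .nil))) 
(.lf (nat_lit 499441) (.g (nat_lit 3068) (.e (nat_lit 163975) (nat_lit 30) (.e (nat_lit 573492) (nat_lit 15) (.e (nat_lit 81956) (nat_lit 23) (.e (nat_lit 98363) (nat_lit 26) (.e (nat_lit 426441) (nat_lit 19) (.e (nat_lit 114432) (nat_lit 3) .nil)))))) (.g (nat_lit 1) (.e (nat_lit 166790) (nat_lit 0) .nil) .nil)))) (.nd (nat_lit 9) 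
(.lf (nat_lit 499185) (.g (nat_lit 4086) (.e (nat_lit 163975) (nat_lit 30) (.e (nat_lit 573481) (nat_lit 13) (.e (nat_lit 65619) (nat_lit 10) (.e (nat_lit 344117) (nat_lit 21) (.e (nat_lit 516180) (nat_lit 15) (.e (nat_lit 475198) (nat_lit 40) (.e (nat_lit 704589) (nat_lit 3) .nil))))))) (.g (nat_lit 1) (.e (nat_lit 166083) (nat_lit 0) .nil) .nil))) 
(.lf (nat_lit 499697) (.g (nat_lit 1666) (.e (nat_lit 163976) (nat_lit 30) (.e (nat_lit 573491) (nat_lit 15) (.e (nat_lit 81946) (nat_lit 20) (.e (nat_lit 1802) (nat_lit 119) (.e (nat_lit 516178) (nat_lit 15) .nil))))) (.g (nat_lit 0) (.e (nat_lit 167348) (nat_lit 0) .nil) .nil))))))))) (.nd (nat_lit 4) (.nd (nat_lit 5) (.nd (nat_lit 6) (.nd (nat_lit 7) (.nd (nat_lit 8) (.nd (nat_lit 9) 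
(.lf (nat_lit 498697) (.g (nat_lit 1279) (.e (nat_lit 163962) (nat_lit 25) (.e (nat_lit 532550) (nat_lit 12) (.e (nat_lit 360474) (nat_lit 8) (.e (nat_lit 557073) (nat_lit 9) (.e (nat_lit 7936) (nat_lit 19) .nil))))) (.g (nat_lit 0) (.e (nat_lit 164871) (nat_lit 0) .nil) .nil))) 
(.lf (nat_lit 499209) (.g (nat_lit 2900) (.e (nat_lit 163975) (nat_lit 30) (.e (nat_lit 573482) (nat_lit 13) (.e (nat_lit 65619) (nat_lit 10) (.e (nat_lit 344117) (nat_lit 21) (.e (nat_lit 516160) (nat_lit 10) .nil))))) (.g (nat_lit 0) (.e (nat_lit 166114) (nat_lit 0) .nil) .nil)))) (.nd (nat_lit 9) 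
(.lf (nat_lit 498953) (.g (nat_lit 1079) (.e (nat_lit 163973) (nat_lit 30) (.e (nat_lit 573469) (nat_lit 11) (.e (nat_lit 16465) (nat_lit 13) (.e (nat_lit 491264) (nat_lit 10) .nil)))) (.g (nat_lit 0) (.e (nat_lit 165640) (nat_lit 0) .nil) .nil))) 
(.lf (nat_lit 499465) (.g (nat_lit 3120) (.e (nat_lit 163975) (nat_lit 30) (.e (nat_lit 573492) (nat_lit 15) (.e (nat_lit 81956) (nat_lit 23) (.e (nat_lit 98384) (nat_lit 32) (.e (nat_lit 475201) (nat_lit 40) (.e (nat_lit 712448) (nat_lit 3) .nil)))))) (.g (nat_lit 1) (.e (nat_lit 166854) (nat_lit 0) .nil) .nil))))) (.nd (nat_lit 8) (.nd (nat_lit 9) 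
(.lf (nat_lit 498825) (.g (nat_lit 469) (.e (nat_lit 163963) (nat_lit 25) (.e (nat_lit 532513) (nat_lit 3) (.e (nat_lit 114714) (nat_lit 22) .nil))) (.g (nat_lit 0) (.e (nat_lit 165205) (nat_lit 0) .nil) .nil))) 
(.lf (nat_lit 499337) (.g (nat_lit 2262) (.e (nat_lit 163975) (nat_lit 30) (.e (nat_lit 573491) (nat_lit 15) (.e (nat_lit 81956) (nat_lit 23) (.e (nat_lit 98383) (nat_lit 32) (.e (nat_lit 475199) (nat_lit 40) .nil))))) (.g (nat_lit 0) (.e (nat_lit 166477) (nat_lit 0) .nil) .nil)))) (.nd (nat_lit 9) 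
(.lf (nat_lit 499081) (.g (nat_lit 3821) (.e (nat_lit 163975) (nat_lit 30) (.e (nat_lit 573481) (nat_lit 13) (.e (nat_lit 65604) (nat_lit 9) (.e (nat_lit 336028) (nat_lit 3) (.e (nat_lit 98366) (nat_lit 27) (.e (nat_lit 434272) (nat_lit 38) (.e (nat_lit 655373) (nat_lit 3) .nil))))))) (.g (nat_lit 1) (.e (nat_lit 165952) (nat_lit 0) .nil) .nil))) 
(.lf (nat_lit 499593) (.g (nat_lit 4867) (.e (nat_lit 163976) (nat_lit 30) (.e (nat_lit 573481) (nat_lit 13) (.e (nat_lit 65619) (nat_lit 10) (.e (nat_lit 344117) (nat_lit 21) (.e (nat_lit 516151) (nat_lit 9) (.e (nat_lit 426042) (nat_lit 0) (.e (nat_lit 3409) (nat_lit 212) (.e (nat_lit 655373) (nat_lit 3) .nil)))))))) (.g (nat_lit 1) (.e (nat_lit 167106) (nat_lit 0) .nil) .nil)))))) 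
(.nd (nat_lit 7) (.nd (nat_lit 8) (.nd (nat_lit 9) 
(.lf (nat_lit 498761) (.g (nat_lit 1951) (.e (nat_lit 163962) (nat_lit 25) (.e (nat_lit 532559) (nat_lit 14) (.e (nat_lit 376869) (nat_lit 23) (.e (nat_lit 98350) (nat_lit 24) (.e (nat_lit 409623) (nat_lit 10) (.e (nat_lit 5761) (nat_lit 315) .nil)))))) (.g (nat_lit 1) (.e (nat_lit 164986) (nat_lit 0) .nil) .nil))) 
(.lf (nat_lit 499273) (.g (nat_lit 2354) (.e (nat_lit 163975) (nat_lit 30) (.e (nat_lit 573491) (nat_lit 15) (.e (nat_lit 81954) (nat_lit 23) (.e (nat_lit 98356) (nat_lit 26) (.e (nat_lit 426392) (nat_lit 15) .nil))))) (.g (nat_lit 0) (.e (nat_lit 166377) (nat_lit 0) .nil) .nil)))) (.nd (nat_lit 9) 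
(.lf (nat_lit 499017) (.g (nat_lit 4107) (.e (nat_lit 163974) (nat_lit 30) (.e (nat_lit 573492) (nat_lit 15) (.e (nat_lit 81956) (nat_lit 23) (.e (nat_lit 98356) (nat_lit 26) .nil)))) (.g (nat_lit 0) (.e (nat_lit 165780) (nat_lit 0) .nil) .nil))) 
(.lf (nat_lit 499529) (.g (nat_lit 3069) (.e (nat_lit 163976) (nat_lit 30) (.e (nat_lit 573481) (nat_lit 13) (.e (nat_lit 65604) (nat_lit 9) (.e (nat_lit 336013) (nat_lit 2) (.e (nat_lit 90170) (nat_lit 13) (.e (nat_lit 172061) (nat_lit 1) (.e (nat_lit 164346) (nat_lit 240) (.e (nat_lit 2600) (nat_lit 163) .nil)))))))) (.g (nat_lit 1) (.e (nat_lit 166987) (nat_lit 0) .nil) .nil))))) 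
(.nd (nat_lit 8) (.nd (nat_lit 9) 
(.lf (nat_lit 498889) (.g (nat_lit 2801) (.e (nat_lit 163964) (nat_lit 25) (.e (nat_lit 532501) (nat_lit 1) (.e (nat_lit 57928) (nat_lit 282) (.e (nat_lit 163871) (nat_lit 2) (.e (nat_lit 196670) (nat_lit 14) (.e (nat_lit 73746) (nat_lit 3) (.e (nat_lit 516126) (nat_lit 2) (.e (nat_lit 213035) (nat_lit 12) .nil)))))))) (.g (nat_lit 1) (.e (nat_lit 165409) (nat_lit 0) .nil) .nil))) 
(.lf (nat_lit 499401) (.g (nat_lit 2974) (.e (nat_lit 163975) (nat_lit 30) (.e (nat_lit 573492) (nat_lit 15) (.e (nat_lit 81956) (nat_lit 23) (.e (nat_lit 98356) (nat_lit 26) (.e (nat_lit 426379) (nat_lit 15) (.e (nat_lit 2056) (nat_lit 142) (.e (nat_lit 704589) (nat_lit 3) .nil))))))) (.g (nat_lit 1) (.e (nat_lit 166713) (nat_lit 0) .nil) .nil)))) (.nd (nat_lit 9) 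
(.lf (nat_lit 499145) (.g (nat_lit 4026) (.e (nat_lit 163975) (nat_lit 30) (.e (nat_lit 573481) (nat_lit 13) (.e (nat_lit 65619) (nat_lit 10) (.e (nat_lit 344117) (nat_lit 21) (.e (nat_lit 516151) (nat_lit 9) (.e (nat_lit 426104) (nat_lit 1) (.e (nat_lit 164347) (nat_lit 240) (.e (nat_lit 2601) (nat_lit 163) .nil)))))))) (.g (nat_lit 1) (.e (nat_lit 166026) (nat_lit 0) .nil) .nil))) 
(.lf (nat_lit 499657) (.g (nat_lit 2973) (.e (nat_lit 163976) (nat_lit 30) (.e (nat_lit 573487) (nat_lit 14) (.e (nat_lit 73754) (nat_lit 8) (.e (nat_lit 557105) (nat_lit 14) (.e (nat_lit 180252) (nat_lit 10) (.e (nat_lit 573475) (nat_lit 12) (.e (nat_lit 57503) (nat_lit 38) (.e (nat_lit 638994) (nat_lit 7) .nil)))))))) (.g (nat_lit 1) (.e (nat_lit 167252) (nat_lit 0) .nil) .nil))))))) 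
(.nd (nat_lit 6) (.nd (nat_lit 7) (.nd (nat_lit 8) (.nd (nat_lit 9) 
(.lf (nat_lit 498729) (.g (nat_lit 1511) (.e (nat_lit 163962) (nat_lit 25) (.e (nat_lit 532550) (nat_lit 12) (.e (nat_lit 360475) (nat_lit 8) (.e (nat_lit 557086) (nat_lit 11) .nil)))) (.g (nat_lit 0) (.e (nat_lit 164927) (nat_lit 0) .nil) .nil))) 
(.lf (nat_lit 499241) (.g (nat_lit 3219) (.e (nat_lit 163975) (nat_lit 30) (.e (nat_lit 573489) (nat_lit 14) (.e (nat_lit 73755) (nat_lit 8) (.e (nat_lit 557105) (nat_lit 14) (.e (nat_lit 180252) (nat_lit 10) (.e (nat_lit 573474) (nat_lit 12) (.e (nat_lit 57504) (nat_lit 38) (.e (nat_lit 638994) (nat_lit 7) .nil)))))))) (.g (nat_lit 1) (.e (nat_lit 166268) (nat_lit 0) .nil) .nil)))) 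
(.nd (nat_lit 9) 
(.lf (nat_lit 498985) (.g (nat_lit 3623) (.e (nat_lit 163973) (nat_lit 30) (.e (nat_lit 573492) (nat_lit 15) (.e (nat_lit 81956) (nat_lit 23) (.e (nat_lit 98366) (nat_lit 27) (.e (nat_lit 434271) (nat_lit 38) (.e (nat_lit 655375) (nat_lit 3) .nil)))))) (.g (nat_lit 1) (.e (nat_lit 165726) (nat_lit 0) .nil) .nil))) 
(.lf (nat_lit 499497) (.g (nat_lit 4525) (.e (nat_lit 163975) (nat_lit 30) (.e (nat_lit 573493) (nat_lit 15) (.e (nat_lit 81956) (nat_lit 23) (.e (nat_lit 98385) (nat_lit 32) .nil)))) (.g (nat_lit 0) (.e (nat_lit 166906) (nat_lit 0) .nil) .nil))))) (.nd (nat_lit 8) (.nd (nat_lit 9) 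
(.lf (nat_lit 498857) (.g (nat_lit 2340) (.e (nat_lit 163964) (nat_lit 25) (.e (nat_lit 532501) (nat_lit 1) (.e (nat_lit 57852) (nat_lit 252) (.e (nat_lit 57378) (nat_lit 3) (.e (nat_lit 98313) (nat_lit 9) .nil))))) (.g (nat_lit 0) (.e (nat_lit 165351) (nat_lit 0) .nil) .nil))) 
(.lf (nat_lit 499369) (.g (nat_lit 2761) (.e (nat_lit 163975) (nat_lit 30) (.e (nat_lit 573492) (nat_lit 15) (.e (nat_lit 81954) (nat_lit 23) (.e (nat_lit 98384) (nat_lit 32) (.e (nat_lit 475199) (nat_lit 40) (.e (nat_lit 704589) (nat_lit 3) .nil)))))) (.g (nat_lit 1) (.e (nat_lit 166653) (nat_lit 0) .nil) .nil)))) (.nd (nat_lit 9) 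
(.lf (nat_lit 499113) (.g (nat_lit 2525) (.e (nat_lit 163975) (nat_lit 30) (.e (nat_lit 573481) (nat_lit 13) (.e (nat_lit 65619) (nat_lit 10) (.e (nat_lit 344117) (nat_lit 21) (.e (nat_lit 516144) (nat_lit 9) (.e (nat_lit 426416) (nat_lit 15) (.e (nat_lit 2058) (nat_lit 142) (.e (nat_lit 704589) (nat_lit 3) .nil)))))))) (.g (nat_lit 1) (.e (nat_lit 165994) (nat_lit 0) .nil) .nil))) 
(.lf (nat_lit 499625) (.g (nat_lit 4257) (.e (nat_lit 163976) (nat_lit 30) (.e (nat_lit 573481) (nat_lit 13) (.e (nat_lit 65619) (nat_lit 10) (.e (nat_lit 344117) (nat_lit 21) (.e (nat_lit 516160) (nat_lit 10) (.e (nat_lit 434272) (nat_lit 38) (.e (nat_lit 655373) (nat_lit 3) .nil))))))) (.g (nat_lit 1) (.e (nat_lit 167143) (nat_lit 0) .nil) .nil)))))) 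
(.nd (nat_lit 7) (.nd (nat_lit 8) (.nd (nat_lit 9) 
(.lf (nat_lit 498793) (.g (nat_lit 2702) (.e (nat_lit 163963) (nat_lit 25) (.e (nat_lit 532499) (nat_lit 1) (.e (nat_lit 57926) (nat_lit 282) (.e (nat_lit 163875) (nat_lit 3) (.e (nat_lit 204862) (nat_lit 27) (.e (nat_lit 344117) (nat_lit 21) (.e (nat_lit 516106) (nat_lit 0) (.e (nat_lit 3721) (nat_lit 227) (.e (nat_lit 778474) (nat_lit 12) .nil))))))))) (.g (nat_lit 1) (.e (nat_lit 165139) (nat_lit 0) .nil) .nil))) 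
(.lf (nat_lit 499305) (.g (nat_lit 2763) (.e (nat_lit 163975) (nat_lit 30) (.e (nat_lit 573491) (nat_lit 15) (.e (nat_lit 81954) (nat_lit 23) (.e (nat_lit 98366) (nat_lit 27) (.e (nat_lit 434271) (nat_lit 38) (.e (nat_lit 655373) (nat_lit 3) .nil)))))) (.g (nat_lit 1) (.e (nat_lit 166434) (nat_lit 0) .nil) .nil)))) (.nd (nat_lit 9) 
(.lf (nat_lit 499049) (.g (nat_lit 2795) (.e (nat_lit 163975) (nat_lit 30) (.e (nat_lit 573481) (nat_lit 13) (.e (nat_lit 65604) (nat_lit 9) (.e (nat_lit 336013) (nat_lit 2) (.e (nat_lit 90170) (nat_lit 13) (.e (nat_lit 172059) (nat_lit 1) (.e (nat_lit 164345) (nat_lit 240) (.e (nat_lit 2599) (nat_lit 163) .nil)))))))) (.g (nat_lit 1) (.e (nat_lit 165884) (nat_lit 0) .nil) .nil))) 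
(.lf (nat_lit 499561) (.g (nat_lit 2511) (.e (nat_lit 163976) (nat_lit 30) (.e (nat_lit 573481) (nat_lit 13) (.e (nat_lit 65619) (nat_lit 10) (.e (nat_lit 344117) (nat_lit 21) (.e (nat_lit 516144) (nat_lit 9) (.e (nat_lit 426364) (nat_lit 15) (.e (nat_lit 2056) (nat_lit 142) (.e (nat_lit 704589) (nat_lit 3) .nil)))))))) (.g (nat_lit 1) (.e (nat_lit 167074) (nat_lit 0) .nil) .nil))))) 
(.nd (nat_lit 8) (.nd (nat_lit 9) 
(.lf (nat_lit 498921) (.g (nat_lit 3045) (.e (nat_lit 163964) (nat_lit 25) (.e (nat_lit 532534) (nat_lit 9) (.e (nat_lit 336019) (nat_lit 3) (.e (nat_lit 98342) (nat_lit 20) (.e (nat_lit 221212) (nat_lit 22) (.e (nat_lit 196659) (nat_lit 12) (.e (nat_lit 57507) (nat_lit 39) (.e (nat_lit 647181) (nat_lit 3) .nil)))))))) (.g (nat_lit 1) (.e (nat_lit 165514) (nat_lit 0) .nil) .nil))) 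
(.lf (nat_lit 499433) (.g (nat_lit 5017) (.e (nat_lit 163975) (nat_lit 30) (.e (nat_lit 573492) (nat_lit 15) (.e (nat_lit 81956) (nat_lit 23) (.e (nat_lit 98359) (nat_lit 26) (.e (nat_lit 426412) (nat_lit 15) (.e (nat_lit 2059) (nat_lit 142) (.e (nat_lit 704589) (nat_lit 3) .nil))))))) (.g (nat_lit 1) (.e (nat_lit 166776) (nat_lit 0) .nil) .nil)))) (.nd (nat_lit 9) 
(.lf (nat_lit 499177) (.g (nat_lit 4105) (.e (nat_lit 163975) (nat_lit 30) (.e (nat_lit 573481) (nat_lit 13) (.e (nat_lit 65619) (nat_lit 10) (.e (nat_lit 344117) (nat_lit 21) (.e (nat_lit 516178) (nat_lit 15) (.e (nat_lit 475198) (nat_lit 40) (.e (nat_lit 704589) (nat_lit 3) .nil))))))) (.g (nat_lit 1) (.e (nat_lit 166075) (nat_lit 0) .nil) .nil))) 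
(.lf (nat_lit 499689) (.g (nat_lit 3355) (.e (nat_lit 163976) (nat_lit 30) (.e (nat_lit 573489) (nat_lit 14) (.e (nat_lit 73755) (nat_lit 8) (.e (nat_lit 557105) (nat_lit 14) (.e (nat_lit 180252) (nat_lit 10) (.e (nat_lit 573473) (nat_lit 12) (.e (nat_lit 57500) (nat_lit 37) (.e (nat_lit 630799) (nat_lit 7) .nil)))))))) (.g (nat_lit 1) (.e (nat_lit 167329) (nat_lit 0) .nil) .nil)))))))) 
(.nd (nat_lit 5) (.nd (nat_lit 6) (.nd (nat_lit 7) (.nd (nat_lit 8) (.nd (nat_lit 9) 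
(.lf (nat_lit 498713) (.g (nat_lit 1588) (.e (nat_lit 163962) (nat_lit 25) (.e (nat_lit 532550) (nat_lit 12) (.e (nat_lit 360475) (nat_lit 8) (.e (nat_lit 557068) (nat_lit 9) .nil)))) (.g (nat_lit 0) (.e (nat_lit 164893) (nat_lit 0) .nil) .nil))) 
(.lf (nat_lit 499225) (.g (nat_lit 2260) (.e (nat_lit 163975) (nat_lit 30) (.e (nat_lit 573488) (nat_lit 14) (.e (nat_lit 73754) (nat_lit 8) (.e (nat_lit 557105) (nat_lit 14) (.e (nat_lit 180252) (nat_lit 10) (.e (nat_lit 573473) (nat_lit 12) (.e (nat_lit 57504) (nat_lit 38) (.e (nat_lit 638994) (nat_lit 7) .nil)))))))) (.g (nat_lit 1) (.e (nat_lit 166195) (nat_lit 0) .nil) .nil)))) 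
(.nd (nat_lit 9) 
(.lf (nat_lit 498969) (.g (nat_lit 2237) (.e (nat_lit 163973) (nat_lit 30) (.e (nat_lit 573485) (nat_lit 13) (.e (nat_lit 65619) (nat_lit 10) (.e (nat_lit 344117) (nat_lit 21) (.e (nat_lit 516160) (nat_lit 10) .nil))))) (.g (nat_lit 0) (.e (nat_lit 165657) (nat_lit 0) .nil) .nil))) 
(.lf (nat_lit 499481) (.g (nat_lit 3568) (.e (nat_lit 163975) (nat_lit 30) (.e (nat_lit 573492) (nat_lit 15) (.e (nat_lit 81956) (nat_lit 23) (.e (nat_lit 98386) (nat_lit 32) (.e (nat_lit 475199) (nat_lit 40) (.e (nat_lit 704590) (nat_lit 3) .nil)))))) (.g (nat_lit 1) (.e (nat_lit 166870) (nat_lit 0) .nil) .nil))))) (.nd (nat_lit 8) (.nd (nat_lit 9) 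
(.lf (nat_lit 498841) (.g (nat_lit 1186) (.e (nat_lit 163963) (nat_lit 25) (.e (nat_lit 532550) (nat_lit 12) (.e (nat_lit 360475) (nat_lit 8) .nil))) (.g (nat_lit 0) (.e (nat_lit 165299) (nat_lit 0) .nil) .nil))) 
(.lf (nat_lit 499353) (.g (nat_lit 4193) (.e (nat_lit 163975) (nat_lit 30) (.e (nat_lit 573492) (nat_lit 15) (.e (nat_lit 81953) (nat_lit 22) (.e (nat_lit 90168) (nat_lit 13) .nil)))) (.g (nat_lit 0) (.e (nat_lit 166562) (nat_lit 0) .nil) .nil)))) (.nd (nat_lit 9) 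
(.lf (nat_lit 499097) (.g (nat_lit 3736) (.e (nat_lit 163975) (nat_lit 30) (.e (nat_lit 573481) (nat_lit 13) (.e (nat_lit 65610) (nat_lit 10) (.e (nat_lit 344117) (nat_lit 21) (.e (nat_lit 516179) (nat_lit 15) (.e (nat_lit 475198) (nat_lit 40) (.e (nat_lit 704589) (nat_lit 3) .nil))))))) (.g (nat_lit 1) (.e (nat_lit 165972) (nat_lit 0) .nil) .nil))) 
(.lf (nat_lit 499609) (.g (nat_lit 2463) (.e (nat_lit 163976) (nat_lit 30) (.e (nat_lit 573481) (nat_lit 13) (.e (nat_lit 65619) (nat_lit 10) (.e (nat_lit 344117) (nat_lit 21) (.e (nat_lit 516152) (nat_lit 9) (.e (nat_lit 426025) (nat_lit 0) (.e (nat_lit 3397) (nat_lit 211) (.e (nat_lit 647180) (nat_lit 3) .nil)))))))) (.g (nat_lit 1) (.e (nat_lit 167124) (nat_lit 0) .nil) .nil)))))) 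
(.nd (nat_lit 7) (.nd (nat_lit 8) (.nd (nat_lit 9) 
(.lf (nat_lit 498777) (.g (nat_lit 2687) (.e (nat_lit 163962) (nat_lit 25) (.e (nat_lit 532569) (nat_lit 16) (.e (nat_lit 401448) (nat_lit 10) (.e (nat_lit 434234) (nat_lit 23) .nil)))) (.g (nat_lit 0) (.e (nat_lit 165044) (nat_lit 0) .nil) .nil))) 
(.lf (nat_lit 499289) (.g (nat_lit 1638) (.e (nat_lit 163975) (nat_lit 30) (.e (nat_lit 573491) (nat_lit 15) (.e (nat_lit 81954) (nat_lit 23) (.e (nat_lit 98357) (nat_lit 26) (.e (nat_lit 426444) (nat_lit 19) (.e (nat_lit 114432) (nat_lit 3) .nil)))))) (.g (nat_lit 1) (.e (nat_lit 166397) (nat_lit 0) .nil) .nil)))) (.nd (nat_lit 9) 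
(.lf (nat_lit 499033) (.g (nat_lit 1048) (.e (nat_lit 163975) (nat_lit 30) (.e (nat_lit 573474) (nat_lit 12) (.e (nat_lit 57528) (nat_lit 46) .nil))) (.g (nat_lit 0) (.e (nat_lit 165838) (nat_lit 0) .nil) .nil))) 
(.lf (nat_lit 499545) (.g (nat_lit 3891) (.e (nat_lit 163976) (nat_lit 30) (.e (nat_lit 573481) (nat_lit 13) (.e (nat_lit 65604) (nat_lit 9) (.e (nat_lit 336028) (nat_lit 3) (.e (nat_lit 98386) (nat_lit 32) (.e (nat_lit 475199) (nat_lit 40) (.e (nat_lit 704589) (nat_lit 3) .nil))))))) (.g (nat_lit 1) (.e (nat_lit 167052) (nat_lit 0) .nil) .nil))))) (.nd (nat_lit 8) (.nd (nat_lit 9) 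
(.lf (nat_lit 498905) (.g (nat_lit 2250) (.e (nat_lit 163964) (nat_lit 25) (.e (nat_lit 532513) (nat_lit 3) (.e (nat_lit 114714) (nat_lit 22) (.e (nat_lit 90172) (nat_lit 14) (.e (nat_lit 180243) (nat_lit 5) (.e (nat_lit 532501) (nat_lit 1) (.e (nat_lit 57662) (nat_lit 152) (.e (nat_lit 2612) (nat_lit 163) .nil)))))))) (.g (nat_lit 1) (.e (nat_lit 165447) (nat_lit 0) .nil) .nil))) 
(.lf (nat_lit 499417) (.g (nat_lit 2897) (.e (nat_lit 163975) (nat_lit 30) (.e (nat_lit 573492) (nat_lit 15) (.e (nat_lit 81956) (nat_lit 23) (.e (nat_lit 98356) (nat_lit 26) (.e (nat_lit 426442) (nat_lit 19) (.e (nat_lit 114432) (nat_lit 3) .nil)))))) (.g (nat_lit 1) (.e (nat_lit 166729) (nat_lit 0) .nil) .nil)))) (.nd (nat_lit 9) 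
(.lf (nat_lit 499161) (.g (nat_lit 2676) (.e (nat_lit 163975) (nat_lit 30) (.e (nat_lit 573481) (nat_lit 13) (.e (nat_lit 65619) (nat_lit 10) (.e (nat_lit 344117) (nat_lit 21) (.e (nat_lit 516156) (nat_lit 9) .nil))))) (.g (nat_lit 0) (.e (nat_lit 166043) (nat_lit 0) .nil) .nil))) 
(.lf (nat_lit 499673) (.g (nat_lit 1857) (.e (nat_lit 163976) (nat_lit 30) (.e (nat_lit 573488) (nat_lit 14) (.e (nat_lit 73755) (nat_lit 8) (.e (nat_lit 557104) (nat_lit 14) (.e (nat_lit 180250) (nat_lit 10) .nil))))) (.g (nat_lit 0) (.e (nat_lit 167308) (nat_lit 0) .nil) .nil))))))) (.nd (nat_lit 6) (.nd (nat_lit 7) (.nd (nat_lit 8) (.nd (nat_lit 9) 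
(.lf (nat_lit 498745) (.g (nat_lit 3611) (.e (nat_lit 163962) (nat_lit 25) (.e (nat_lit 532550) (nat_lit 12) (.e (nat_lit 360475) (nat_lit 8) (.e (nat_lit 557091) (nat_lit 12) (.e (nat_lit 163843) (nat_lit 0) .nil))))) (.g (nat_lit 0) (.e (nat_lit 164945) (nat_lit 0) .nil) .nil))) 
(.lf (nat_lit 499257) (.g (nat_lit 2533) (.e (nat_lit 163975) (nat_lit 30) (.e (nat_lit 573491) (nat_lit 15) (.e (nat_lit 81954) (nat_lit 23) (.e (nat_lit 98356) (nat_lit 26) (.e (nat_lit 426355) (nat_lit 15) .nil))))) (.g (nat_lit 0) (.e (nat_lit 166361) (nat_lit 0) .nil) .nil)))) (.nd (nat_lit 9) 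
(.lf (nat_lit 499001) (.g (nat_lit 2154) (.e (nat_lit 163974) (nat_lit 30) (.e (nat_lit 573482) (nat_lit 13) (.e (nat_lit 65604) (nat_lit 9) (.e (nat_lit 336028) (nat_lit 3) (.e (nat_lit 98359) (nat_lit 26) .nil))))) (.g (nat_lit 0) (.e (nat_lit 165756) (nat_lit 0) .nil) .nil))) 
(.lf (nat_lit 499513) (.g (nat_lit 3354) (.e (nat_lit 163976) (nat_lit 30) (.e (nat_lit 573481) (nat_lit 13) (.e (nat_lit 65604) (nat_lit 9) (.e (nat_lit 336013) (nat_lit 2) (.e (nat_lit 90170) (nat_lit 13) (.e (nat_lit 172032) (nat_lit 0) (.e (nat_lit 3399) (nat_lit 211) (.e (nat_lit 647180) (nat_lit 3) .nil)))))))) (.g (nat_lit 1) (.e (nat_lit 166963) (nat_lit 0) .nil) .nil))))) 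
(.nd (nat_lit 8) (.nd (nat_lit 9) 
(.lf (nat_lit 498873) (.g (nat_lit 2570) (.e (nat_lit 163964) (nat_lit 25) (.e (nat_lit 532501) (nat_lit 1) (.e (nat_lit 57926) (nat_lit 282) (.e (nat_lit 163875) (nat_lit 3) (.e (nat_lit 204863) (nat_lit 27) .nil))))) (.g (nat_lit 0) (.e (nat_lit 165381) (nat_lit 0) .nil) .nil))) 
(.lf (nat_lit 499385) (.g (nat_lit 3281) (.e (nat_lit 163975) (nat_lit 30) (.e (nat_lit 573492) (nat_lit 15) (.e (nat_lit 81956) (nat_lit 23) (.e (nat_lit 98356) (nat_lit 26) (.e (nat_lit 426360) (nat_lit 15) (.e (nat_lit 2051) (nat_lit 142) (.e (nat_lit 704589) (nat_lit 3) .nil))))))) (.g (nat_lit 1) (.e (nat_lit 166697) (nat_lit 0) .nil) .nil)))) (.nd (nat_lit 9) 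
(.lf (nat_lit 499129) (.g (nat_lit 2788) (.e (nat_lit 163975) (nat_lit 30) (.e (nat_lit 573481) (nat_lit 13) (.e (nat_lit 65619) (nat_lit 10) (.e (nat_lit 344117) (nat_lit 21) (.e (nat_lit 516147) (nat_lit 9) (.e (nat_lit 426442) (nat_lit 19) (.e (nat_lit 114432) (nat_lit 3) .nil))))))) (.g (nat_lit 1) (.e (nat_lit 166010) (nat_lit 0) .nil) .nil))) 
(.lf (nat_lit 499641) (.g (nat_lit 1994) (.e (nat_lit 163976) (nat_lit 30) (.e (nat_lit 573481) (nat_lit 13) (.e (nat_lit 65621) (nat_lit 11) (.e (nat_lit 368676) (nat_lit 21) (.e (nat_lit 516182) (nat_lit 15) .nil))))) (.g (nat_lit 0) (.e (nat_lit 167172) (nat_lit 0) .nil) .nil)))))) (.nd (nat_lit 7) (.nd (nat_lit 8) (.nd (nat_lit 9) 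
(.lf (nat_lit 498809) (.g (nat_lit 2427) (.e (nat_lit 163963) (nat_lit 25) (.e (nat_lit 532501) (nat_lit 1) (.e (nat_lit 57926) (nat_lit 282) (.e (nat_lit 163869) (nat_lit 2) (.e (nat_lit 196670) (nat_lit 14) (.e (nat_lit 73746) (nat_lit 3) (.e (nat_lit 516122) (nat_lit 2) (.e (nat_lit 213035) (nat_lit 12) .nil)))))))) (.g (nat_lit 1) (.e (nat_lit 165174) (nat_lit 0) .nil) .nil))) 
(.lf (nat_lit 499321) (.g (nat_lit 3522) (.e (nat_lit 163975) (nat_lit 30) (.e (nat_lit 573491) (nat_lit 15) (.e (nat_lit 81954) (nat_lit 23) (.e (nat_lit 98386) (nat_lit 32) (.e (nat_lit 475199) (nat_lit 40) (.e (nat_lit 704589) (nat_lit 3) .nil)))))) (.g (nat_lit 1) (.e (nat_lit 166461) (nat_lit 0) .nil) .nil)))) (.nd (nat_lit 9) 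
(.lf (nat_lit 499065) (.g (nat_lit 2118) (.e (nat_lit 163975) (nat_lit 30) (.e (nat_lit 573481) (nat_lit 13) (.e (nat_lit 65604) (nat_lit 9) (.e (nat_lit 336013) (nat_lit 2) (.e (nat_lit 90170) (nat_lit 13) (.e (nat_lit 172070) (nat_lit 4) (.e (nat_lit 229664) (nat_lit 240) (.e (nat_lit 2604) (nat_lit 163) .nil)))))))) (.g (nat_lit 1) (.e (nat_lit 165901) (nat_lit 0) .nil) .nil))) 
(.lf (nat_lit 499577) (.g (nat_lit 4492) (.e (nat_lit 163976) (nat_lit 30) (.e (nat_lit 573481) (nat_lit 13) (.e (nat_lit 65619) (nat_lit 10) (.e (nat_lit 344117) (nat_lit 21) (.e (nat_lit 516145) (nat_lit 9) (.e (nat_lit 426420) (nat_lit 15) (.e (nat_lit 2058) (nat_lit 142) (.e (nat_lit 704589) (nat_lit 3) .nil)))))))) (.g (nat_lit 1) (.e (nat_lit 167090) (nat_lit 0) .nil) .nil))))) 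
(.nd (nat_lit 8) (.nd (nat_lit 9) 
(.lf (nat_lit 498937) (.g (nat_lit 3103) (.e (nat_lit 163965) (nat_lit 25) (.e (nat_lit 532499) (nat_lit 1) (.e (nat_lit 57931) (nat_lit 282) (.e (nat_lit 163869) (nat_lit 2) (.e (nat_lit 196670) (nat_lit 14) (.e (nat_lit 73746) (nat_lit 3) (.e (nat_lit 516122) (nat_lit 2) (.e (nat_lit 213035) (nat_lit 12) .nil)))))))) (.g (nat_lit 1) (.e (nat_lit 165580) (nat_lit 0) .nil) .nil))) 
(.lf (nat_lit 499449) (.g (nat_lit 3401) (.e (nat_lit 163975) (nat_lit 30) (.e (nat_lit 573492) (nat_lit 15) (.e (nat_lit 81956) (nat_lit 23) (.e (nat_lit 98366) (nat_lit 27) (.e (nat_lit 434271) (nat_lit 38) (.e (nat_lit 655373) (nat_lit 3) .nil)))))) (.g (nat_lit 1) (.e (nat_lit 166808) (nat_lit 0) .nil) .nil)))) (.nd (nat_lit 9) 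
(.lf (nat_lit 499193) (.g (nat_lit 2311) (.e (nat_lit 163975) (nat_lit 30) (.e (nat_lit 573481) (nat_lit 13) (.e (nat_lit 65619) (nat_lit 10) (.e (nat_lit 344117) (nat_lit 21) (.e (nat_lit 516182) (nat_lit 15) .nil))))) (.g (nat_lit 0) (.e (nat_lit 166091) (nat_lit 0) .nil) .nil))) 
(.lf (nat_lit 499705) (.g (nat_lit 2760) (.e (nat_lit 163976) (nat_lit 30) (.e (nat_lit 573491) (nat_lit 15) (.e (nat_lit 81951) (nat_lit 22) (.e (nat_lit 90170) (nat_lit 13) (.e (nat_lit 172137) (nat_lit 15) (.e (nat_lit 2057) (nat_lit 142) (.e (nat_lit 704589) (nat_lit 3) .nil))))))) (.g (nat_lit 1) (.e (nat_lit 167397) (nat_lit 0) .nil) .nil)))))))))) 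
(.nd (nat_lit 3) (.nd (nat_lit 4) (.nd (nat_lit 5) (.nd (nat_lit 6) (.nd (nat_lit 7) 
(.nd (nat_lit 8) (.nd (nat_lit 9) 
(.lf (nat_lit 498693) (.g (nat_lit 2290) (.e (nat_lit 163962) (nat_lit 25) (.e (nat_lit 532550) (nat_lit 12) (.e (nat_lit 360474) (nat_lit 8) (.e (nat_lit 557072) (nat_lit 9) (.e (nat_lit 288) (nat_lit 21) (.e (nat_lit 335877) (nat_lit 0) (.e (nat_lit 6711) (nat_lit 360) .nil))))))) (.g (nat_lit 1) (.e (nat_lit 164865) (nat_lit 0) .nil) .nil))) 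
(.lf (nat_lit 499205) (.g (nat_lit 2043) (.e (nat_lit 163975) (nat_lit 30) (.e (nat_lit 573482) (nat_lit 13) (.e (nat_lit 65604) (nat_lit 9) (.e (nat_lit 336028) (nat_lit 3) .nil)))) (.g (nat_lit 0) (.e (nat_lit 166110) (nat_lit 0) .nil) .nil)))) (.nd (nat_lit 9) 
(.lf (nat_lit 498949) (.g (nat_lit 662) (.e (nat_lit 163959) (nat_lit 24) (.e (nat_lit 524319) (nat_lit 11) (.e (nat_lit 450304) (nat_lit 18) (.e (nat_lit 393253) (nat_lit 18) (.e (nat_lit 164348) (nat_lit 240) .nil))))) (.g (nat_lit 0) (.e (nat_lit 165621) (nat_lit 0) .nil) .nil))) 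
(.lf (nat_lit 499461) (.g (nat_lit 3613) (.e (nat_lit 163975) (nat_lit 30) (.e (nat_lit 573492) (nat_lit 15) (.e (nat_lit 81956) (nat_lit 23) (.e (nat_lit 98384) (nat_lit 32) (.e (nat_lit 475197) (nat_lit 40) (.e (nat_lit 704590) (nat_lit 3) .nil)))))) (.g (nat_lit 1) (.e (nat_lit 166850) (nat_lit 0) .nil) .nil))))) (.nd (nat_lit 8) (.nd (nat_lit 9) 
(.lf (nat_lit 498821) (.g (nat_lit 3267) (.e (nat_lit 163963) (nat_lit 25) (.e (nat_lit 532501) (nat_lit 1) (.e (nat_lit 57931) (nat_lit 282) (.e (nat_lit 163869) (nat_lit 2) (.e (nat_lit 196670) (nat_lit 14) (.e (nat_lit 73746) (nat_lit 3) (.e (nat_lit 516124) (nat_lit 2) (.e (nat_lit 213034) (nat_lit 12) .nil)))))))) (.g (nat_lit 1) (.e (nat_lit 165194) (nat_lit 0) .nil) .nil))) 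
(.lf (nat_lit 499333) (.g (nat_lit 2717) (.e (nat_lit 163975) (nat_lit 30) (.e (nat_lit 573491) (nat_lit 15) (.e (nat_lit 81956) (nat_lit 23) (.e (nat_lit 98356) (nat_lit 26) (.e (nat_lit 426360) (nat_lit 15) .nil))))) (.g (nat_lit 0) (.e (nat_lit 166473) (nat_lit 0) .nil) .nil)))) (.nd (nat_lit 9) 
(.lf (nat_lit 499077) (.g (nat_lit 2710) (.e (nat_lit 163975) (nat_lit 30) (.e (nat_lit 573481) (nat_lit 13) (.e (nat_lit 65604) (nat_lit 9) (.e (nat_lit 336028) (nat_lit 3) (.e (nat_lit 98359) (nat_lit 26) (.e (nat_lit 433920) (nat_lit 19) (.e (nat_lit 114432) (nat_lit 3) .nil))))))) (.g (nat_lit 1) (.e (nat_lit 165940) (nat_lit 0) .nil) .nil))) 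
(.lf (nat_lit 499589) (.g (nat_lit 3227) (.e (nat_lit 163976) (nat_lit 30) (.e (nat_lit 573481) (nat_lit 13) (.e (nat_lit 65619) (nat_lit 10) (.e (nat_lit 344117) (nat_lit 21) (.e (nat_lit 516151) (nat_lit 9) (.e (nat_lit 426022) (nat_lit 0) (.e (nat_lit 3401) (nat_lit 211) (.e (nat_lit 647180) (nat_lit 3) .nil)))))))) (.g (nat_lit 1) (.e (nat_lit 167102) (nat_lit 0) .nil) .nil)))))) 
(.nd (nat_lit 7) (.nd (nat_lit 8) (.nd (nat_lit 9) 
(.lf (nat_lit 498757) (.g (nat_lit 1638) (.e (nat_lit 163962) (nat_lit 25) (.e (nat_lit 532559) (nat_lit 14) (.e (nat_lit 376868) (nat_lit 23) (.e (nat_lit 98350) (nat_lit 24) (.e (nat_lit 409623) (nat_lit 10) (.e (nat_lit 5761) (nat_lit 315) .nil)))))) (.g (nat_lit 1) (.e (nat_lit 164982) (nat_lit 0) .nil) .nil))) 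
(.lf (nat_lit 499269) (.g (nat_lit 2528) (.e (nat_lit 163975) (nat_lit 30) (.e (nat_lit 573491) (nat_lit 15) (.e (nat_lit 81954) (nat_lit 23) (.e (nat_lit 98356) (nat_lit 26) (.e (nat_lit 426375) (nat_lit 15) .nil))))) (.g (nat_lit 0) (.e (nat_lit 166373) (nat_lit 0) .nil) .nil)))) (.nd (nat_lit 9) 
(.lf (nat_lit 499013) (.g (nat_lit 2984) (.e (nat_lit 163974) (nat_lit 30) (.e (nat_lit 573489) (nat_lit 14) (.e (nat_lit 73755) (nat_lit 8) (.e (nat_lit 557105) (nat_lit 14) (.e (nat_lit 180251) (nat_lit 10) .nil))))) (.g (nat_lit 0) (.e (nat_lit 165776) (nat_lit 0) .nil) .nil))) 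
(.lf (nat_lit 499525) (.g (nat_lit 3476) (.e (nat_lit 163976) (nat_lit 30) (.e (nat_lit 573481) (nat_lit 13) (.e (nat_lit 65604) (nat_lit 9) (.e (nat_lit 336013) (nat_lit 2) (.e (nat_lit 90170) (nat_lit 13) (.e (nat_lit 172059) (nat_lit 1) (.e (nat_lit 164345) (nat_lit 240) (.e (nat_lit 2601) (nat_lit 163) .nil)))))))) (.g (nat_lit 1) (.e (nat_lit 166983) (nat_lit 0) .nil) .nil))))) 
(.nd (nat_lit 8) (.nd (nat_lit 9) 
(.lf (nat_lit 498885) (.g (nat_lit 2659) (.e (nat_lit 163964) (nat_lit 25) (.e (nat_lit 532501) (nat_lit 1) (.e (nat_lit 57927) (nat_lit 282) (.e (nat_lit 163874) (nat_lit 3) (.e (nat_lit 204863) (nat_lit 27) (.e (nat_lit 344117) (nat_lit 21) (.e (nat_lit 516122) (nat_lit 2) (.e (nat_lit 213035) (nat_lit 12) .nil)))))))) (.g (nat_lit 1) (.e (nat_lit 165403) (nat_lit 0) .nil) .nil))) 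
(.lf (nat_lit 499397) (.g (nat_lit 3655) (.e (nat_lit 163975) (nat_lit 30) (.e (nat_lit 573492) (nat_lit 15) (.e (nat_lit 81956) (nat_lit 23) (.e (nat_lit 98356) (nat_lit 26) (.e (nat_lit 426374) (nat_lit 15) (.e (nat_lit 2057) (nat_lit 142) (.e (nat_lit 704589) (nat_lit 3) .nil))))))) (.g (nat_lit 1) (.e (nat_lit 166709) (nat_lit 0) .nil) .nil)))) (.nd (nat_lit 9) 
(.lf (nat_lit 499141) (.g (nat_lit 4226) (.e (nat_lit 163975) (nat_lit 30) (.e (nat_lit 573481) (nat_lit 13) (.e (nat_lit 65619) (nat_lit 10) (.e (nat_lit 344117) (nat_lit 21) (.e (nat_lit 516151) (nat_lit 9) (.e (nat_lit 426043) (nat_lit 0) (.e (nat_lit 3409) (nat_lit 212) (.e (nat_lit 655373) (nat_lit 3) .nil)))))))) (.g (nat_lit 1) (.e (nat_lit 166022) (nat_lit 0) .nil) .nil))) 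
(.lf (nat_lit 499653) (.g (nat_lit 2702) (.e (nat_lit 163976) (nat_lit 30) (.e (nat_lit 573487) (nat_lit 14) (.e (nat_lit 73753) (nat_lit 8) (.e (nat_lit 557103) (nat_lit 14) (.e (nat_lit 180251) (nat_lit 10) (.e (nat_lit 573475) (nat_lit 12) (.e (nat_lit 57503) (nat_lit 38) (.e (nat_lit 638994) (nat_lit 7) .nil)))))))) (.g (nat_lit 1) (.e (nat_lit 167242) (nat_lit 0) .nil) .nil))))))) 
(.nd (nat_lit 6) (.nd (nat_lit 7) (.nd (nat_lit 8) (.nd (nat_lit 9) 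
(.lf (nat_lit 498725) (.g (nat_lit 3613) (.e (nat_lit 163962) (nat_lit 25) (.e (nat_lit 532550) (nat_lit 12) (.e (nat_lit 360475) (nat_lit 8) (.e (nat_lit 557079) (nat_lit 9) .nil)))) (.g (nat_lit 0) (.e (nat_lit 164920) (nat_lit 0) .nil) .nil))) 
(.lf (nat_lit 499237) (.g (nat_lit 3687) (.e (nat_lit 163975) (nat_lit 30) (.e (nat_lit 573488) (nat_lit 14) (.e (nat_lit 73755) (nat_lit 8) (.e (nat_lit 557105) (nat_lit 14) (.e (nat_lit 180252) (nat_lit 10) (.e (nat_lit 573473) (nat_lit 12) (.e (nat_lit 57504) (nat_lit 38) (.e (nat_lit 638994) (nat_lit 7) .nil)))))))) (.g (nat_lit 1) (.e (nat_lit 166263) (nat_lit 0) .nil) .nil)))) 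
(.nd (nat_lit 9) 
(.lf (nat_lit 498981) (.g (nat_lit 3869) (.e (nat_lit 163973) (nat_lit 30) (.e (nat_lit 573492) (nat_lit 15) (.e (nat_lit 81956) (nat_lit 23) (.e (nat_lit 98363) (nat_lit 26) .nil)))) (.g (nat_lit 0) (.e (nat_lit 165720) (nat_lit 0) .nil) .nil))) 
(.lf (nat_lit 499493) (.g (nat_lit 3121) (.e (nat_lit 163975) (nat_lit 30) (.e (nat_lit 573493) (nat_lit 15) (.e (nat_lit 81956) (nat_lit 23) (.e (nat_lit 98359) (nat_lit 26) .nil)))) (.g (nat_lit 0) (.e (nat_lit 166897) (nat_lit 0) .nil) .nil))))) (.nd (nat_lit 8) (.nd (nat_lit 9) 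
(.lf (nat_lit 498853) (.g (nat_lit 2572) (.e (nat_lit 163964) (nat_lit 25) (.e (nat_lit 532499) (nat_lit 1) (.e (nat_lit 57927) (nat_lit 282) (.e (nat_lit 163871) (nat_lit 2) (.e (nat_lit 196670) (nat_lit 14) (.e (nat_lit 73746) (nat_lit 3) (.e (nat_lit 516122) (nat_lit 2) (.e (nat_lit 213035) (nat_lit 12) .nil)))))))) (.g (nat_lit 1) (.e (nat_lit 165344) (nat_lit 0) .nil) .nil))) 
(.lf (nat_lit 499365) (.g (nat_lit 2276) (.e (nat_lit 163975) (nat_lit 30) (.e (nat_lit 573492) (nat_lit 15) (.e (nat_lit 81954) (nat_lit 23) (.e (nat_lit 98359) (nat_lit 26) (.e (nat_lit 426412) (nat_lit 15) .nil))))) (.g (nat_lit 0) (.e (nat_lit 166648) (nat_lit 0) .nil) .nil)))) (.nd (nat_lit 9) 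
(.lf (nat_lit 499109) (.g (nat_lit 2755) (.e (nat_lit 163975) (nat_lit 30) (.e (nat_lit 573481) (nat_lit 13) (.e (nat_lit 65619) (nat_lit 10) (.e (nat_lit 344117) (nat_lit 21) (.e (nat_lit 516144) (nat_lit 9) (.e (nat_lit 426374) (nat_lit 15) (.e (nat_lit 2056) (nat_lit 142) (.e (nat_lit 704589) (nat_lit 3) .nil)))))))) (.g (nat_lit 1) (.e (nat_lit 165990) (nat_lit 0) .nil) .nil))) 
(.lf (nat_lit 499621) (.g (nat_lit 3677) (.e (nat_lit 163976) (nat_lit 30) (.e (nat_lit 573481) (nat_lit 13) (.e (nat_lit 65619) (nat_lit 10) (.e (nat_lit 344117) (nat_lit 21) (.e (nat_lit 516159) (nat_lit 10) (.e (nat_lit 434272) (nat_lit 38) (.e (nat_lit 655373) (nat_lit 3) .nil))))))) (.g (nat_lit 1) (.e (nat_lit 167137) (nat_lit 0) .nil) .nil)))))) 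
(.nd (nat_lit 7) (.nd (nat_lit 8) (.nd (nat_lit 9) 
(.lf (nat_lit 498789) (.g (nat_lit 3101) (.e (nat_lit 163963) (nat_lit 25) (.e (nat_lit 532499) (nat_lit 1) (.e (nat_lit 57926) (nat_lit 282) (.e (nat_lit 163869) (nat_lit 2) (.e (nat_lit 196670) (nat_lit 14) (.e (nat_lit 73746) (nat_lit 3) (.e (nat_lit 516126) (nat_lit 2) (.e (nat_lit 213035) (nat_lit 12) .nil)))))))) (.g (nat_lit 1) (.e (nat_lit 165135) (nat_lit 0) .nil) .nil))) 
(.lf (nat_lit 499301) (.g (nat_lit 1602) (.e (nat_lit 163975) (nat_lit 30) (.e (nat_lit 573491) (nat_lit 15) (.e (nat_lit 81954) (nat_lit 23) (.e (nat_lit 98362) (nat_lit 26) (.e (nat_lit 426410) (nat_lit 15) .nil))))) (.g (nat_lit 0) (.e (nat_lit 166420) (nat_lit 0) .nil) .nil)))) (.nd (nat_lit 9) 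
(.lf (nat_lit 499045) (.g (nat_lit 4489) (.e (nat_lit 163975) (nat_lit 30) (.e (nat_lit 573481) (nat_lit 13) (.e (nat_lit 65604) (nat_lit 9) (.e (nat_lit 336013) (nat_lit 2) (.e (nat_lit 90168) (nat_lit 13) .nil))))) (.g (nat_lit 0) (.e (nat_lit 165871) (nat_lit 0) .nil) .nil))) 
(.lf (nat_lit 499557) (.g (nat_lit 3301) (.e (nat_lit 163976) (nat_lit 30) (.e (nat_lit 573481) (nat_lit 13) (.e (nat_lit 65619) (nat_lit 10) (.e (nat_lit 344117) (nat_lit 21) (.e (nat_lit 516143) (nat_lit 9) (.e (nat_lit 426109) (nat_lit 1) (.e (nat_lit 164346) (nat_lit 240) (.e (nat_lit 2600) (nat_lit 163) .nil)))))))) (.g (nat_lit 1) (.e (nat_lit 167070) (nat_lit 0) .nil) .nil))))) 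
(.nd (nat_lit 8) (.nd (nat_lit 9) 
(.lf (nat_lit 498917) (.g (nat_lit 1336) (.e (nat_lit 163964) (nat_lit 25) (.e (nat_lit 532515) (nat_lit 3) (.e (nat_lit 114719) (nat_lit 23) (.e (nat_lit 98357) (nat_lit 26) .nil)))) (.g (nat_lit 0) (.e (nat_lit 165480) (nat_lit 0) .nil) .nil))) 
(.lf (nat_lit 499429) (.g (nat_lit 5314) (.e (nat_lit 163975) (nat_lit 30) (.e (nat_lit 573492) (nat_lit 15) (.e (nat_lit 81956) (nat_lit 23) (.e (nat_lit 98359) (nat_lit 26) (.e (nat_lit 426396) (nat_lit 15) (.e (nat_lit 2059) (nat_lit 142) (.e (nat_lit 704589) (nat_lit 3) .nil))))))) (.g (nat_lit 1) (.e (nat_lit 166772) (nat_lit 0) .nil) .nil)))) (.nd (nat_lit 9) 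
(.lf (nat_lit 499173) (.g (nat_lit 2811) (.e (nat_lit 163975) (nat_lit 30) (.e (nat_lit 573481) (nat_lit 13) (.e (nat_lit 65619) (nat_lit 10) (.e (nat_lit 344117) (nat_lit 21) (.e (nat_lit 516161) (nat_lit 10) (.e (nat_lit 434209) (nat_lit 18) (.e (nat_lit 5548) (nat_lit 306) (.e (nat_lit 2601) (nat_lit 163) .nil)))))))) (.g (nat_lit 1) (.e (nat_lit 166058) (nat_lit 0) .nil) .nil))) 
(.lf (nat_lit 499685) (.g (nat_lit 2558) (.e (nat_lit 163976) (nat_lit 30) (.e (nat_lit 573489) (nat_lit 14) (.e (nat_lit 73755) (nat_lit 8) (.e (nat_lit 557104) (nat_lit 14) .nil)))) (.g (nat_lit 0) (.e (nat_lit 167325) (nat_lit 0) .nil) .nil)))))))) (.nd (nat_lit 5) (.nd (nat_lit 6) (.nd (nat_lit 7) (.nd (nat_lit 8) (.nd (nat_lit 9) 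
(.lf (nat_lit 498709) (.g (nat_lit 2406) (.e (nat_lit 163962) (nat_lit 25) (.e (nat_lit 532550) (nat_lit 12) (.e (nat_lit 360475) (nat_lit 8) (.e (nat_lit 557067) (nat_lit 9) .nil)))) (.g (nat_lit 0) (.e (nat_lit 164885) (nat_lit 0) .nil) .nil))) 
(.lf (nat_lit 499221) (.g (nat_lit 3318) (.e (nat_lit 163975) (nat_lit 30) (.e (nat_lit 573487) (nat_lit 14) (.e (nat_lit 73753) (nat_lit 8) (.e (nat_lit 557105) (nat_lit 14) (.e (nat_lit 180252) (nat_lit 10) (.e (nat_lit 573475) (nat_lit 12) (.e (nat_lit 57502) (nat_lit 38) (.e (nat_lit 638994) (nat_lit 7) .nil)))))))) (.g (nat_lit 1) (.e (nat_lit 166184) (nat_lit 0) .nil) .nil)))) 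
(.nd (nat_lit 9) 
(.lf (nat_lit 498965) (.g (nat_lit 2554) (.e (nat_lit 163973) (nat_lit 30) (.e (nat_lit 573484) (nat_lit 13) (.e (nat_lit 65610) (nat_lit 10) (.e (nat_lit 344117) (nat_lit 21) (.e (nat_lit 516160) (nat_lit 10) (.e (nat_lit 434271) (nat_lit 38) (.e (nat_lit 655375) (nat_lit 3) .nil))))))) (.g (nat_lit 1) (.e (nat_lit 165653) (nat_lit 0) .nil) .nil))) 
(.lf (nat_lit 499477) (.g (nat_lit 4428) (.e (nat_lit 163975) (nat_lit 30) (.e (nat_lit 573492) (nat_lit 15) (.e (nat_lit 81956) (nat_lit 23) (.e (nat_lit 98386) (nat_lit 32) (.e (nat_lit 475197) (nat_lit 40) (.e (nat_lit 704589) (nat_lit 3) .nil)))))) (.g (nat_lit 1) (.e (nat_lit 166866) (nat_lit 0) .nil) .nil))))) (.nd (nat_lit 8) (.nd (nat_lit 9) 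
(.lf (nat_lit 498837) (.g (nat_lit 1360) (.e (nat_lit 163963) (nat_lit 25) (.e (nat_lit 532535) (nat_lit 9) (.e (nat_lit 336099) (nat_lit 9) .nil))) (.g (nat_lit 0) (.e (nat_lit 165294) (nat_lit 0) .nil) .nil))) 
(.lf (nat_lit 499349) (.g (nat_lit 3078) (.e (nat_lit 163975) (nat_lit 30) (.e (nat_lit 573492) (nat_lit 15) (.e (nat_lit 81951) (nat_lit 22) (.e (nat_lit 90170) (nat_lit 13) (.e (nat_lit 172138) (nat_lit 15) (.e (nat_lit 2057) (nat_lit 142) (.e (nat_lit 704589) (nat_lit 3) .nil))))))) (.g (nat_lit 1) (.e (nat_lit 166516) (nat_lit 0) .nil) .nil)))) (.nd (nat_lit 9) 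
(.lf (nat_lit 499093) (.g (nat_lit 5133) (.e (nat_lit 163975) (nat_lit 30) (.e (nat_lit 573481) (nat_lit 13) (.e (nat_lit 65609) (nat_lit 10) (.e (nat_lit 344117) (nat_lit 21) (.e (nat_lit 516151) (nat_lit 9) (.e (nat_lit 426412) (nat_lit 15) (.e (nat_lit 2059) (nat_lit 142) (.e (nat_lit 704589) (nat_lit 3) .nil)))))))) (.g (nat_lit 1) (.e (nat_lit 165968) (nat_lit 0) .nil) .nil))) 
(.lf (nat_lit 499605) (.g (nat_lit 3922) (.e (nat_lit 163976) (nat_lit 30) (.e (nat_lit 573481) (nat_lit 13) (.e (nat_lit 65619) (nat_lit 10) (.e (nat_lit 344117) (nat_lit 21) (.e (nat_lit 516151) (nat_lit 9) (.e (nat_lit 426414) (nat_lit 15) (.e (nat_lit 2059) (nat_lit 142) (.e (nat_lit 704589) (nat_lit 3) .nil)))))))) (.g (nat_lit 1) (.e (nat_lit 167120) (nat_lit 0) .nil) .nil)))))) 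
(.nd (nat_lit 7) (.nd (nat_lit 8) (.nd (nat_lit 9) 
(.lf (nat_lit 498773) (.g (nat_lit 3329) (.e (nat_lit 163962) (nat_lit 25) (.e (nat_lit 532569) (nat_lit 16) (.e (nat_lit 401448) (nat_lit 10) (.e (nat_lit 434231) (nat_lit 23) (.e (nat_lit 532486) (nat_lit 0) .nil))))) (.g (nat_lit 0) (.e (nat_lit 165039) (nat_lit 0) .nil) .nil))) 
(.lf (nat_lit 499285) (.g (nat_lit 2056) (.e (nat_lit 163975) (nat_lit 30) (.e (nat_lit 573491) (nat_lit 15) (.e (nat_lit 81954) (nat_lit 23) (.e (nat_lit 98356) (nat_lit 26) (.e (nat_lit 426442) (nat_lit 19) (.e (nat_lit 114432) (nat_lit 3) .nil)))))) (.g (nat_lit 1) (.e (nat_lit 166389) (nat_lit 0) .nil) .nil)))) (.nd (nat_lit 9) 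
(.lf (nat_lit 499029) (.g (nat_lit 2084) (.e (nat_lit 163975) (nat_lit 30) (.e (nat_lit 573451) (nat_lit 9) (.e (nat_lit 1401) (nat_lit 106) (.e (nat_lit 319531) (nat_lit 16) (.e (nat_lit 294656) (nat_lit 34) .nil))))) (.g (nat_lit 0) (.e (nat_lit 165814) (nat_lit 0) .nil) .nil))) 
(.lf (nat_lit 499541) (.g (nat_lit 3595) (.e (nat_lit 163976) (nat_lit 30) (.e (nat_lit 573481) (nat_lit 13) (.e (nat_lit 65604) (nat_lit 9) (.e (nat_lit 336028) (nat_lit 3) (.e (nat_lit 98367) (nat_lit 27) (.e (nat_lit 434271) (nat_lit 38) (.e (nat_lit 655373) (nat_lit 3) .nil))))))) (.g (nat_lit 1) (.e (nat_lit 167048) (nat_lit 0) .nil) .nil))))) (.nd (nat_lit 8) (.nd (nat_lit 9) 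
(.lf (nat_lit 498901) (.g (nat_lit 2462) (.e (nat_lit 163964) (nat_lit 25) (.e (nat_lit 532504) (nat_lit 1) (.e (nat_lit 57929) (nat_lit 282) (.e (nat_lit 163869) (nat_lit 2) (.e (nat_lit 196670) (nat_lit 14) .nil))))) (.g (nat_lit 0) (.e (nat_lit 165430) (nat_lit 0) .nil) .nil))) 
(.lf (nat_lit 499413) (.g (nat_lit 3292) (.e (nat_lit 163975) (nat_lit 30) (.e (nat_lit 573492) (nat_lit 15) (.e (nat_lit 81956) (nat_lit 23) (.e (nat_lit 98356) (nat_lit 26) (.e (nat_lit 426404) (nat_lit 15) (.e (nat_lit 2056) (nat_lit 142) (.e (nat_lit 704589) (nat_lit 3) .nil))))))) (.g (nat_lit 1) (.e (nat_lit 166725) (nat_lit 0) .nil) .nil)))) (.nd (nat_lit 9) 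
(.lf (nat_lit 499157) (.g (nat_lit 2801) (.e (nat_lit 163975) (nat_lit 30) (.e (nat_lit 573481) (nat_lit 13) (.e (nat_lit 65619) (nat_lit 10) (.e (nat_lit 344117) (nat_lit 21) (.e (nat_lit 516152) (nat_lit 9) (.e (nat_lit 426109) (nat_lit 1) (.e (nat_lit 164345) (nat_lit 240) (.e (nat_lit 2601) (nat_lit 163) .nil)))))))) (.g (nat_lit 1) (.e (nat_lit 166039) (nat_lit 0) .nil) .nil))) 
(.lf (nat_lit 499669) (.g (nat_lit 893) (.e (nat_lit 163976) (nat_lit 30) (.e (nat_lit 573488) (nat_lit 14) (.e (nat_lit 73755) (nat_lit 8) (.e (nat_lit 557104) (nat_lit 14) .nil)))) (.g (nat_lit 0) (.e (nat_lit 167294) (nat_lit 0) .nil) .nil))))))) (.nd (nat_lit 6) (.nd (nat_lit 7) (.nd (nat_lit 8) (.nd (nat_lit 9) 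
(.lf (nat_lit 498741) (.g (nat_lit 2739) (.e (nat_lit 163962) (nat_lit 25) (.e (nat_lit 532550) (nat_lit 12) (.e (nat_lit 360475) (nat_lit 8) (.e (nat_lit 557087) (nat_lit 11) (.e (nat_lit 24595) (nat_lit 0) .nil))))) (.g (nat_lit 0) (.e (nat_lit 164939) (nat_lit 0) .nil) .nil))) 
(.lf (nat_lit 499253) (.g (nat_lit 1102) (.e (nat_lit 163975) (nat_lit 30) (.e (nat_lit 573491) (nat_lit 15) (.e (nat_lit 81954) (nat_lit 23) (.e (nat_lit 98355) (nat_lit 26) .nil)))) (.g (nat_lit 0) (.e (nat_lit 166354) (nat_lit 0) .nil) .nil)))) (.nd (nat_lit 9) 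
(.lf (nat_lit 498997) (.g (nat_lit 3134) (.e (nat_lit 163973) (nat_lit 30) (.e (nat_lit 573493) (nat_lit 15) (.e (nat_lit 81956) (nat_lit 23) (.e (nat_lit 98367) (nat_lit 27) .nil)))) (.g (nat_lit 0) (.e (nat_lit 165751) (nat_lit 0) .nil) .nil))) 
(.lf (nat_lit 499509) (.g (nat_lit 1612) (.e (nat_lit 163976) (nat_lit 30) (.e (nat_lit 573481) (nat_lit 13) (.e (nat_lit 65604) (nat_lit 9) (.e (nat_lit 336013) (nat_lit 2) (.e (nat_lit 90134) (nat_lit 9) .nil))))) (.g (nat_lit 0) (.e (nat_lit 166959) (nat_lit 0) .nil) .nil))))) (.nd (nat_lit 8) (.nd (nat_lit 9) 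
(.lf (nat_lit 498869) (.g (nat_lit 2593) (.e (nat_lit 163964) (nat_lit 25) (.e (nat_lit 532501) (nat_lit 1) (.e (nat_lit 57926) (nat_lit 282) (.e (nat_lit 163871) (nat_lit 2) (.e (nat_lit 196670) (nat_lit 14) (.e (nat_lit 73746) (nat_lit 3) (.e (nat_lit 516127) (nat_lit 2) (.e (nat_lit 213035) (nat_lit 12) .nil)))))))) (.g (nat_lit 1) (.e (nat_lit 165377) (nat_lit 0) .nil) .nil))) 
(.lf (nat_lit 499381) (.g (nat_lit 2876) (.e (nat_lit 163975) (nat_lit 30) (.e (nat_lit 573492) (nat_lit 15) (.e (nat_lit 81956) (nat_lit 23) (.e (nat_lit 98356) (nat_lit 26) (.e (nat_lit 426360) (nat_lit 15) .nil))))) (.g (nat_lit 0) (.e (nat_lit 166693) (nat_lit 0) .nil) .nil)))) (.nd (nat_lit 9) 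
(.lf (nat_lit 499125) (.g (nat_lit 4685) (.e (nat_lit 163975) (nat_lit 30) (.e (nat_lit 573481) (nat_lit 13) (.e (nat_lit 65619) (nat_lit 10) (.e (nat_lit 344117) (nat_lit 21) (.e (nat_lit 516145) (nat_lit 9) (.e (nat_lit 426420) (nat_lit 15) (.e (nat_lit 2058) (nat_lit 142) (.e (nat_lit 704589) (nat_lit 3) .nil)))))))) (.g (nat_lit 1) (.e (nat_lit 166006) (nat_lit 0) .nil) .nil))) 
(.lf (nat_lit 499637) (.g (nat_lit 1784) (.e (nat_lit 163976) (nat_lit 30) (.e (nat_lit 573481) (nat_lit 13) (.e (nat_lit 65619) (nat_lit 10) (.e (nat_lit 344118) (nat_lit 21) (.e (nat_lit 516182) (nat_lit 15) (.e (nat_lit 475199) (nat_lit 40) (.e (nat_lit 704589) (nat_lit 3) .nil))))))) (.g (nat_lit 1) (.e (nat_lit 167167) (nat_lit 0) .nil) .nil)))))) 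
(.nd (nat_lit 7) (.nd (nat_lit 8) (.nd (nat_lit 9) 
(.lf (nat_lit 498805) (.g (nat_lit 2153) (.e (nat_lit 163963) (nat_lit 25) (.e (nat_lit 532499) (nat_lit 1) (.e (nat_lit 57927) (nat_lit 282) (.e (nat_lit 163871) (nat_lit 2) (.e (nat_lit 196670) (nat_lit 14) (.e (nat_lit 73746) (nat_lit 3) (.e (nat_lit 516127) (nat_lit 2) (.e (nat_lit 213033) (nat_lit 12) .nil)))))))) (.g (nat_lit 1) (.e (nat_lit 165166) (nat_lit 0) .nil) .nil))) 
(.lf (nat_lit 499317) (.g (nat_lit 1722) (.e (nat_lit 163975) (nat_lit 30) (.e (nat_lit 573491) (nat_lit 15) (.e (nat_lit 81954) (nat_lit 23) (.e (nat_lit 98385) (nat_lit 32) (.e (nat_lit 475195) (nat_lit 40) (.e (nat_lit 704589) (nat_lit 3) .nil)))))) (.g (nat_lit 1) (.e (nat_lit 166457) (nat_lit 0) .nil) .nil)))) (.nd (nat_lit 9) 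
(.lf (nat_lit 499061) (.g (nat_lit 3112) (.e (nat_lit 163975) (nat_lit 30) (.e (nat_lit 573481) (nat_lit 13) (.e (nat_lit 65604) (nat_lit 9) (.e (nat_lit 336013) (nat_lit 2) (.e (nat_lit 90170) (nat_lit 13) (.e (nat_lit 172061) (nat_lit 1) (.e (nat_lit 164348) (nat_lit 240) (.e (nat_lit 2599) (nat_lit 163) .nil)))))))) (.g (nat_lit 1) (.e (nat_lit 165896) (nat_lit 0) .nil) .nil))) 
(.lf (nat_lit 499573) (.g (nat_lit 4430) (.e (nat_lit 163976) (nat_lit 30) (.e (nat_lit 573481) (nat_lit 13) (.e (nat_lit 65619) (nat_lit 10) (.e (nat_lit 344117) (nat_lit 21) (.e (nat_lit 516145) (nat_lit 9) (.e (nat_lit 426376) (nat_lit 15) (.e (nat_lit 2058) (nat_lit 142) (.e (nat_lit 704589) (nat_lit 3) .nil)))))))) (.g (nat_lit 1) (.e (nat_lit 167086) (nat_lit 0) .nil) .nil))))) 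
(.nd (nat_lit 8) (.nd (nat_lit 9) 
(.lf (nat_lit 498933) (.g (nat_lit 4241) (.e (nat_lit 163965) (nat_lit 25) (.e (nat_lit 532499) (nat_lit 1) (.e (nat_lit 57927) (nat_lit 282) (.e (nat_lit 163869) (nat_lit 2) (.e (nat_lit 196670) (nat_lit 14) (.e (nat_lit 73746) (nat_lit 3) (.e (nat_lit 516126) (nat_lit 2) (.e (nat_lit 213035) (nat_lit 12) .nil)))))))) (.g (nat_lit 1) (.e (nat_lit 165573) (nat_lit 0) .nil) .nil))) 
(.lf (nat_lit 499445) (.g (nat_lit 4617) (.e (nat_lit 163975) (nat_lit 30) (.e (nat_lit 573492) (nat_lit 15) (.e (nat_lit 81956) (nat_lit 23) (.e (nat_lit 98365) (nat_lit 26) (.e (nat_lit 426387) (nat_lit 15) .nil))))) (.g (nat_lit 0) (.e (nat_lit 166800) (nat_lit 0) .nil) .nil)))) (.nd (nat_lit 9) 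
(.lf (nat_lit 499189) (.g (nat_lit 2886) (.e (nat_lit 163975) (nat_lit 30) (.e (nat_lit 573481) (nat_lit 13) (.e (nat_lit 65619) (nat_lit 10) (.e (nat_lit 344117) (nat_lit 21) (.e (nat_lit 516180) (nat_lit 15) (.e (nat_lit 475205) (nat_lit 40) (.e (nat_lit 704588) (nat_lit 3) .nil))))))) (.g (nat_lit 1) (.e (nat_lit 166087) (nat_lit 0) .nil) .nil))) 
(.lf (nat_lit 499701) (.g (nat_lit 1998) (.e (nat_lit 163976) (nat_lit 30) (.e (nat_lit 573491) (nat_lit 15) (.e (nat_lit 81951) (nat_lit 22) (.e (nat_lit 90169) (nat_lit 13) (.e (nat_lit 172133) (nat_lit 15) .nil))))) (.g (nat_lit 0) (.e (nat_lit 167358) (nat_lit 0) .nil) .nil))))))))) (.nd (nat_lit 4) (.nd (nat_lit 5) (.nd (nat_lit 6) (.nd (nat_lit 7) (.nd (nat_lit 8) (.nd (nat_lit 9) 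
(.lf (nat_lit 498701) (.g (nat_lit 3156) (.e (nat_lit 163962) (nat_lit 25) (.e (nat_lit 532550) (nat_lit 12) (.e (nat_lit 360475) (nat_lit 8) (.e (nat_lit 557064) (nat_lit 9) .nil)))) (.g (nat_lit 0) (.e (nat_lit 164876) (nat_lit 0) .nil) .nil))) 
(.lf (nat_lit 499213) (.g (nat_lit 4148) (.e (nat_lit 163975) (nat_lit 30) (.e (nat_lit 573487) (nat_lit 14) (.e (nat_lit 73753) (nat_lit 8) (.e (nat_lit 557103) (nat_lit 14) (.e (nat_lit 180250) (nat_lit 10) (.e (nat_lit 573475) (nat_lit 12) (.e (nat_lit 57503) (nat_lit 38) (.e (nat_lit 638994) (nat_lit 7) .nil)))))))) (.g (nat_lit 1) (.e (nat_lit 166167) (nat_lit 0) .nil) .nil)))) 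
(.nd (nat_lit 9) 
(.lf (nat_lit 498957) (.g (nat_lit 2072) (.e (nat_lit 163973) (nat_lit 30) (.e (nat_lit 573479) (nat_lit 13) (.e (nat_lit 65619) (nat_lit 10) (.e (nat_lit 344117) (nat_lit 21) (.e (nat_lit 516159) (nat_lit 10) (.e (nat_lit 434271) (nat_lit 38) (.e (nat_lit 655375) (nat_lit 3) .nil))))))) (.g (nat_lit 1) (.e (nat_lit 165644) (nat_lit 0) .nil) .nil))) 
(.lf (nat_lit 499469) (.g (nat_lit 4219) (.e (nat_lit 163975) (nat_lit 30) (.e (nat_lit 573492) (nat_lit 15) (.e (nat_lit 81956) (nat_lit 23) (.e (nat_lit 98384) (nat_lit 32) (.e (nat_lit 483072) (nat_lit 40) (.e (nat_lit 704590) (nat_lit 3) .nil)))))) (.g (nat_lit 1) (.e (nat_lit 166858) (nat_lit 0) .nil) .nil))))) (.nd (nat_lit 8) (.nd (nat_lit 9) 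
(.lf (nat_lit 498829) (.g (nat_lit 2136) (.e (nat_lit 163963) (nat_lit 25) (.e (nat_lit 532513) (nat_lit 3) (.e (nat_lit 114714) (nat_lit 22) (.e (nat_lit 90172) (nat_lit 14) (.e (nat_lit 180243) (nat_lit 5) .nil))))) (.g (nat_lit 0) (.e (nat_lit 165212) (nat_lit 0) .nil) .nil))) 
(.lf (nat_lit 499341) (.g (nat_lit 3116) (.e (nat_lit 163975) (nat_lit 30) (.e (nat_lit 573491) (nat_lit 15) (.e (nat_lit 81956) (nat_lit 23) (.e (nat_lit 98384) (nat_lit 32) (.e (nat_lit 475199) (nat_lit 40) (.e (nat_lit 704589) (nat_lit 3) .nil)))))) (.g (nat_lit 1) (.e (nat_lit 166481) (nat_lit 0) .nil) .nil)))) (.nd (nat_lit 9) 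
(.lf (nat_lit 499085) (.g (nat_lit 3636) (.e (nat_lit 163975) (nat_lit 30) (.e (nat_lit 573481) (nat_lit 13) (.e (nat_lit 65604) (nat_lit 9) (.e (nat_lit 336028) (nat_lit 3) (.e (nat_lit 98383) (nat_lit 32) (.e (nat_lit 475198) (nat_lit 40) (.e (nat_lit 704589) (nat_lit 3) .nil))))))) (.g (nat_lit 1) (.e (nat_lit 165960) (nat_lit 0) .nil) .nil))) 
(.lf (nat_lit 499597) (.g (nat_lit 3741) (.e (nat_lit 163976) (nat_lit 30) (.e (nat_lit 573481) (nat_lit 13) (.e (nat_lit 65619) (nat_lit 10) (.e (nat_lit 344117) (nat_lit 21) (.e (nat_lit 516151) (nat_lit 9) (.e (nat_lit 426043) (nat_lit 0) (.e (nat_lit 3408) (nat_lit 212) (.e (nat_lit 655373) (nat_lit 3) .nil)))))))) (.g (nat_lit 1) (.e (nat_lit 167110) (nat_lit 0) .nil) .nil)))))) 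
(.nd (nat_lit 7) (.nd (nat_lit 8) (.nd (nat_lit 9) 
(.lf (nat_lit 498765) (.g (nat_lit 1766) (.e (nat_lit 163962) (nat_lit 25) (.e (nat_lit 532560) (nat_lit 14) (.e (nat_lit 376868) (nat_lit 23) (.e (nat_lit 98350) (nat_lit 24) (.e (nat_lit 409623) (nat_lit 10) .nil))))) (.g (nat_lit 0) (.e (nat_lit 165001) (nat_lit 0) .nil) .nil))) 
(.lf (nat_lit 499277) (.g (nat_lit 2533) (.e (nat_lit 163975) (nat_lit 30) (.e (nat_lit 573491) (nat_lit 15) (.e (nat_lit 81954) (nat_lit 23) (.e (nat_lit 98356) (nat_lit 26) (.e (nat_lit 426420) (nat_lit 15) .nil))))) (.g (nat_lit 0) (.e (nat_lit 166381) (nat_lit 0) .nil) .nil)))) (.nd (nat_lit 9) 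
(.lf (nat_lit 499021) (.g (nat_lit 3965) (.e (nat_lit 163974) (nat_lit 30) (.e (nat_lit 573492) (nat_lit 15) (.e (nat_lit 81956) (nat_lit 23) (.e (nat_lit 98385) (nat_lit 32) .nil)))) (.g (nat_lit 0) (.e (nat_lit 165789) (nat_lit 0) .nil) .nil))) 
(.lf (nat_lit 499533) (.g (nat_lit 917) (.e (nat_lit 163976) (nat_lit 30) (.e (nat_lit 573481) (nat_lit 13) (.e (nat_lit 65604) (nat_lit 9) (.e (nat_lit 336028) (nat_lit 3) .nil)))) (.g (nat_lit 0) (.e (nat_lit 166998) (nat_lit 0) .nil) .nil))))) (.nd (nat_lit 8) (.nd (nat_lit 9) 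
(.lf (nat_lit 498893) (.g (nat_lit 3086) (.e (nat_lit 163964) (nat_lit 25) (.e (nat_lit 532501) (nat_lit 1) (.e (nat_lit 57931) (nat_lit 282) (.e (nat_lit 163869) (nat_lit 2) (.e (nat_lit 196670) (nat_lit 14) (.e (nat_lit 73746) (nat_lit 3) (.e (nat_lit 516126) (nat_lit 2) (.e (nat_lit 213033) (nat_lit 12) .nil)))))))) (.g (nat_lit 1) (.e (nat_lit 165420) (nat_lit 0) .nil) .nil))) 
(.lf (nat_lit 499405) (.g (nat_lit 2549) (.e (nat_lit 163975) (nat_lit 30) (.e (nat_lit 573492) (nat_lit 15) (.e (nat_lit 81956) (nat_lit 23) (.e (nat_lit 98356) (nat_lit 26) (.e (nat_lit 426416) (nat_lit 15) .nil))))) (.g (nat_lit 0) (.e (nat_lit 166717) (nat_lit 0) .nil) .nil)))) (.nd (nat_lit 9) 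
(.lf (nat_lit 499149) (.g (nat_lit 3395) (.e (nat_lit 163975) (nat_lit 30) (.e (nat_lit 573481) (nat_lit 13) (.e (nat_lit 65619) (nat_lit 10) (.e (nat_lit 344117) (nat_lit 21) (.e (nat_lit 516151) (nat_lit 9) (.e (nat_lit 426410) (nat_lit 15) (.e (nat_lit 2056) (nat_lit 142) (.e (nat_lit 704589) (nat_lit 3) .nil)))))))) (.g (nat_lit 1) (.e (nat_lit 166031) (nat_lit 0) .nil) .nil))) 
(.lf (nat_lit 499661) (.g (nat_lit 2329) (.e (nat_lit 163976) (nat_lit 30) (.e (nat_lit 573488) (nat_lit 14) (.e (nat_lit 73755) (nat_lit 8) (.e (nat_lit 557098) (nat_lit 13) (.e (nat_lit 172067) (nat_lit 3) .nil))))) (.g (nat_lit 0) (.e (nat_lit 167277) (nat_lit 0) .nil) .nil))))))) (.nd (nat_lit 6) (.nd (nat_lit 7) (.nd (nat_lit 8) (.nd (nat_lit 9) 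
(.lf (nat_lit 498733) (.g (nat_lit 2655) (.e (nat_lit 163962) (nat_lit 25) (.e (nat_lit 532550) (nat_lit 12) (.e (nat_lit 360475) (nat_lit 8) (.e (nat_lit 557087) (nat_lit 11) (.e (nat_lit 24576) (nat_lit 0) .nil))))) (.g (nat_lit 0) (.e (nat_lit 164931) (nat_lit 0) .nil) .nil))) 
(.lf (nat_lit 499245) (.g (nat_lit 1707) (.e (nat_lit 163975) (nat_lit 30) (.e (nat_lit 573491) (nat_lit 15) (.e (nat_lit 81951) (nat_lit 22) (.e (nat_lit 90169) (nat_lit 13) .nil)))) (.g (nat_lit 0) (.e (nat_lit 166292) (nat_lit 0) .nil) .nil)))) (.nd (nat_lit 9) 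
(.lf (nat_lit 498989) (.g (nat_lit 3767) (.e (nat_lit 163973) (nat_lit 30) (.e (nat_lit 573492) (nat_lit 15) (.e (nat_lit 81956) (nat_lit 23) (.e (nat_lit 98367) (nat_lit 27) (.e (nat_lit 434270) (nat_lit 38) (.e (nat_lit 655373) (nat_lit 3) .nil)))))) (.g (nat_lit 1) (.e (nat_lit 165730) (nat_lit 0) .nil) .nil))) 
(.lf (nat_lit 499501) (.g (nat_lit 2707) (.e (nat_lit 163976) (nat_lit 30) (.e (nat_lit 573474) (nat_lit 12) (.e (nat_lit 57528) (nat_lit 46) (.e (nat_lit 704589) (nat_lit 3) (.e (nat_lit 163962) (nat_lit 25) (.e (nat_lit 532544) (nat_lit 10) (.e (nat_lit 344117) (nat_lit 21) (.e (nat_lit 516123) (nat_lit 2) (.e (nat_lit 213033) (nat_lit 12) .nil))))))))) (.g (nat_lit 1) (.e (nat_lit 166933) (nat_lit 0) .nil) .nil))))) 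
(.nd (nat_lit 8) (.nd (nat_lit 9) 
(.lf (nat_lit 498861) (.g (nat_lit 2910) (.e (nat_lit 163964) (nat_lit 25) (.e (nat_lit 532501) (nat_lit 1) (.e (nat_lit 57926) (nat_lit 282) (.e (nat_lit 163868) (nat_lit 2) (.e (nat_lit 196670) (nat_lit 14) (.e (nat_lit 73746) (nat_lit 3) (.e (nat_lit 516127) (nat_lit 2) (.e (nat_lit 213035) (nat_lit 12) .nil)))))))) (.g (nat_lit 1) (.e (nat_lit 165364) (nat_lit 0) .nil) .nil))) 
(.lf (nat_lit 499373) (.g (nat_lit 1562) (.e (nat_lit 163975) (nat_lit 30) (.e (nat_lit 573492) (nat_lit 15) (.e (nat_lit 81956) (nat_lit 23) (.e (nat_lit 98354) (nat_lit 26) .nil)))) (.g (nat_lit 0) (.e (nat_lit 166678) (nat_lit 0) .nil) .nil)))) (.nd (nat_lit 9) 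
(.lf (nat_lit 499117) (.g (nat_lit 3370) (.e (nat_lit 163975) (nat_lit 30) (.e (nat_lit 573481) (nat_lit 13) (.e (nat_lit 65619) (nat_lit 10) (.e (nat_lit 344117) (nat_lit 21) (.e (nat_lit 516144) (nat_lit 9) (.e (nat_lit 426444) (nat_lit 19) (.e (nat_lit 114432) (nat_lit 3) .nil))))))) (.g (nat_lit 1) (.e (nat_lit 165998) (nat_lit 0) .nil) .nil))) 
(.lf (nat_lit 499629) (.g (nat_lit 2388) (.e (nat_lit 163976) (nat_lit 30) (.e (nat_lit 573481) (nat_lit 13) (.e (nat_lit 65619) (nat_lit 10) (.e (nat_lit 344117) (nat_lit 21) (.e (nat_lit 516180) (nat_lit 15) (.e (nat_lit 475195) (nat_lit 40) (.e (nat_lit 704589) (nat_lit 3) .nil))))))) (.g (nat_lit 1) (.e (nat_lit 167159) (nat_lit 0) .nil) .nil)))))) 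
(.nd (nat_lit 7) (.nd (nat_lit 8) (.nd (nat_lit 9) 
(.lf (nat_lit 498797) (.g (nat_lit 2966) (.e (nat_lit 163963) (nat_lit 25) (.e (nat_lit 532499) (nat_lit 1) (.e (nat_lit 57927) (nat_lit 282) (.e (nat_lit 163869) (nat_lit 2) (.e (nat_lit 196670) (nat_lit 14) (.e (nat_lit 73746) (nat_lit 3) (.e (nat_lit 516122) (nat_lit 2) (.e (nat_lit 213034) (nat_lit 12) .nil)))))))) (.g (nat_lit 1) (.e (nat_lit 165155) (nat_lit 0) .nil) .nil))) 
(.lf (nat_lit 499309) (.g (nat_lit 3287) (.e (nat_lit 163975) (nat_lit 30) (.e (nat_lit 573491) (nat_lit 15) (.e (nat_lit 81954) (nat_lit 23) (.e (nat_lit 98367) (nat_lit 27) (.e (nat_lit 434272) (nat_lit 38) (.e (nat_lit 655373) (nat_lit 3) .nil)))))) (.g (nat_lit 1) (.e (nat_lit 166442) (nat_lit 0) .nil) .nil)))) (.nd (nat_lit 9) 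
(.lf (nat_lit 499053) (.g (nat_lit 3139) (.e (nat_lit 163975) (nat_lit 30) (.e (nat_lit 573481) (nat_lit 13) (.e (nat_lit 65604) (nat_lit 9) (.e (nat_lit 336013) (nat_lit 2) (.e (nat_lit 90170) (nat_lit 13) (.e (nat_lit 172059) (nat_lit 1) (.e (nat_lit 164348) (nat_lit 240) (.e (nat_lit 2599) (nat_lit 163) .nil)))))))) (.g (nat_lit 1) (.e (nat_lit 165888) (nat_lit 0) .nil) .nil))) 
(.lf (nat_lit 499565) (.g (nat_lit 3135) (.e (nat_lit 163976) (nat_lit 30) (.e (nat_lit 573481) (nat_lit 13) (.e (nat_lit 65619) (nat_lit 10) (.e (nat_lit 344117) (nat_lit 21) (.e (nat_lit 516144) (nat_lit 9) (.e (nat_lit 426376) (nat_lit 15) (.e (nat_lit 2056) (nat_lit 142) (.e (nat_lit 704589) (nat_lit 3) .nil)))))))) (.g (nat_lit 1) (.e (nat_lit 167078) (nat_lit 0) .nil) .nil))))) 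
(.nd (nat_lit 8) (.nd (nat_lit 9) 
(.lf (nat_lit 498925) (.g (nat_lit 1174) (.e (nat_lit 163964) (nat_lit 25) (.e (nat_lit 532550) (nat_lit 12) (.e (nat_lit 360474) (nat_lit 8) .nil))) (.g (nat_lit 0) (.e (nat_lit 165528) (nat_lit 0) .nil) .nil))) 
(.lf (nat_lit 499437) (.g (nat_lit 3048) (.e (nat_lit 163975) (nat_lit 30) (.e (nat_lit 573492) (nat_lit 15) (.e (nat_lit 81956) (nat_lit 23) (.e (nat_lit 98362) (nat_lit 26) .nil)))) (.g (nat_lit 0) (.e (nat_lit 166783) (nat_lit 0) .nil) .nil)))) (.nd (nat_lit 9) 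
(.lf (nat_lit 499181) (.g (nat_lit 3208) (.e (nat_lit 163975) (nat_lit 30) (.e (nat_lit 573481) (nat_lit 13) (.e (nat_lit 65619) (nat_lit 10) (.e (nat_lit 344117) (nat_lit 21) (.e (nat_lit 516179) (nat_lit 15) (.e (nat_lit 475199) (nat_lit 40) (.e (nat_lit 704590) (nat_lit 3) .nil))))))) (.g (nat_lit 1) (.e (nat_lit 166079) (nat_lit 0) .nil) .nil))) 
(.lf (nat_lit 499693) (.g (nat_lit 3704) (.e (nat_lit 163976) (nat_lit 30) (.e (nat_lit 573489) (nat_lit 14) (.e (nat_lit 73755) (nat_lit 8) (.e (nat_lit 557105) (nat_lit 14) (.e (nat_lit 180252) (nat_lit 10) (.e (nat_lit 573475) (nat_lit 12) (.e (nat_lit 57500) (nat_lit 37) (.e (nat_lit 630799) (nat_lit 7) .nil)))))))) (.g (nat_lit 1) (.e (nat_lit 167333) (nat_lit 0) .nil) .nil)))))))) 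
(.nd (nat_lit 5) (.nd (nat_lit 6) (.nd (nat_lit 7) (.nd (nat_lit 8) (.nd (nat_lit 9) 
(.lf (nat_lit 498717) (.g (nat_lit 2543) (.e (nat_lit 163962) (nat_lit 25) (.e (nat_lit 532550) (nat_lit 12) (.e (nat_lit 360475) (nat_lit 8) (.e (nat_lit 557070) (nat_lit 9) .nil)))) (.g (nat_lit 0) (.e (nat_lit 164904) (nat_lit 0) .nil) .nil))) 
(.lf (nat_lit 499229) (.g (nat_lit 2438) (.e (nat_lit 163975) (nat_lit 30) (.e (nat_lit 573488) (nat_lit 14) (.e (nat_lit 73755) (nat_lit 8) (.e (nat_lit 557103) (nat_lit 14) (.e (nat_lit 180250) (nat_lit 10) (.e (nat_lit 573478) (nat_lit 12) (.e (nat_lit 57502) (nat_lit 38) (.e (nat_lit 638994) (nat_lit 7) .nil)))))))) (.g (nat_lit 1) (.e (nat_lit 166234) (nat_lit 0) .nil) .nil)))) 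
(.nd (nat_lit 9) 
(.lf (nat_lit 498973) (.g (nat_lit 1303) (.e (nat_lit 163973) (nat_lit 30) (.e (nat_lit 573491) (nat_lit 15) (.e (nat_lit 81954) (nat_lit 23) (.e (nat_lit 98366) (nat_lit 27) .nil)))) (.g (nat_lit 0) (.e (nat_lit 165664) (nat_lit 0) .nil) .nil))) 
(.lf (nat_lit 499485) (.g (nat_lit 5165) (.e (nat_lit 163975) (nat_lit 30) (.e (nat_lit 573493) (nat_lit 15) (.e (nat_lit 81953) (nat_lit 22) (.e (nat_lit 90169) (nat_lit 13) .nil)))) (.g (nat_lit 0) (.e (nat_lit 166886) (nat_lit 0) .nil) .nil))))) (.nd (nat_lit 8) (.nd (nat_lit 9) 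
(.lf (nat_lit 498845) (.g (nat_lit 2084) (.e (nat_lit 163963) (nat_lit 25) (.e (nat_lit 532579) (nat_lit 26) (.e (nat_lit 426316) (nat_lit 12) (.e (nat_lit 475185) (nat_lit 29) (.e (nat_lit 557098) (nat_lit 13) .nil))))) (.g (nat_lit 0) (.e (nat_lit 165326) (nat_lit 0) .nil) .nil))) 
(.lf (nat_lit 499357) (.g (nat_lit 2345) (.e (nat_lit 163975) (nat_lit 30) (.e (nat_lit 573492) (nat_lit 15) (.e (nat_lit 81953) (nat_lit 22) (.e (nat_lit 90170) (nat_lit 13) (.e (nat_lit 172136) (nat_lit 15) .nil))))) (.g (nat_lit 0) (.e (nat_lit 166603) (nat_lit 0) .nil) .nil)))) (.nd (nat_lit 9) 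
(.lf (nat_lit 499101) (.g (nat_lit 4813) (.e (nat_lit 163975) (nat_lit 30) (.e (nat_lit 573481) (nat_lit 13) (.e (nat_lit 65618) (nat_lit 10) (.e (nat_lit 344117) (nat_lit 21) (.e (nat_lit 516151) (nat_lit 9) (.e (nat_lit 426412) (nat_lit 15) (.e (nat_lit 2056) (nat_lit 142) (.e (nat_lit 704589) (nat_lit 3) .nil)))))))) (.g (nat_lit 1) (.e (nat_lit 165976) (nat_lit 0) .nil) .nil))) 
(.lf (nat_lit 499613) (.g (nat_lit 2335) (.e (nat_lit 163976) (nat_lit 30) (.e (nat_lit 573481) (nat_lit 13) (.e (nat_lit 65619) (nat_lit 10) (.e (nat_lit 344117) (nat_lit 21) (.e (nat_lit 516152) (nat_lit 9) (.e (nat_lit 426109) (nat_lit 1) (.e (nat_lit 164346) (nat_lit 240) (.e (nat_lit 2599) (nat_lit 163) .nil)))))))) (.g (nat_lit 1) (.e (nat_lit 167128) (nat_lit 0) .nil) .nil)))))) 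
(.nd (nat_lit 7) (.nd (nat_lit 8) (.nd (nat_lit 9) 
(.lf (nat_lit 498781) (.g (nat_lit 792) (.e (nat_lit 163962) (nat_lit 25) (.e (nat_lit 532569) (nat_lit 16) (.e (nat_lit 401456) (nat_lit 13) .nil))) (.g (nat_lit 0) (.e (nat_lit 165050) (nat_lit 0) .nil) .nil))) 
(.lf (nat_lit 499293) (.g (nat_lit 2166) (.e (nat_lit 163975) (nat_lit 30) (.e (nat_lit 573491) (nat_lit 15) (.e (nat_lit 81954) (nat_lit 23) (.e (nat_lit 98359) (nat_lit 26) (.e (nat_lit 426380) (nat_lit 15) .nil))))) (.g (nat_lit 0) (.e (nat_lit 166410) (nat_lit 0) .nil) .nil)))) (.nd (nat_lit 9) 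
(.lf (nat_lit 499037) (.g (nat_lit 5299) (.e (nat_lit 163975) (nat_lit 30) (.e (nat_lit 573479) (nat_lit 13) (.e (nat_lit 65610) (nat_lit 10) (.e (nat_lit 344117) (nat_lit 21) (.e (nat_lit 516179) (nat_lit 15) (.e (nat_lit 475199) (nat_lit 40) (.e (nat_lit 704589) (nat_lit 3) .nil))))))) (.g (nat_lit 1) (.e (nat_lit 165855) (nat_lit 0) .nil) .nil))) 
(.lf (nat_lit 499549) (.g (nat_lit 4332) (.e (nat_lit 163976) (nat_lit 30) (.e (nat_lit 573481) (nat_lit 13) (.e (nat_lit 65618) (nat_lit 10) (.e (nat_lit 344117) (nat_lit 21) (.e (nat_lit 516179) (nat_lit 15) (.e (nat_lit 475199) (nat_lit 40) (.e (nat_lit 704589) (nat_lit 3) .nil))))))) (.g (nat_lit 1) (.e (nat_lit 167056) (nat_lit 0) .nil) .nil))))) (.nd (nat_lit 8) (.nd (nat_lit 9) 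
(.lf (nat_lit 498909) (.g (nat_lit 4588) (.e (nat_lit 163964) (nat_lit 25) (.e (nat_lit 532513) (nat_lit 3) (.e (nat_lit 114714) (nat_lit 22) (.e (nat_lit 90172) (nat_lit 14) (.e (nat_lit 180244) (nat_lit 5) (.e (nat_lit 532501) (nat_lit 1) (.e (nat_lit 57663) (nat_lit 152) (.e (nat_lit 2612) (nat_lit 163) .nil)))))))) (.g (nat_lit 1) (.e (nat_lit 165451) (nat_lit 0) .nil) .nil))) 
(.lf (nat_lit 499421) (.g (nat_lit 3006) (.e (nat_lit 163975) (nat_lit 30) (.e (nat_lit 573492) (nat_lit 15) (.e (nat_lit 81956) (nat_lit 23) (.e (nat_lit 98357) (nat_lit 26) (.e (nat_lit 426444) (nat_lit 19) (.e (nat_lit 114432) (nat_lit 3) .nil)))))) (.g (nat_lit 1) (.e (nat_lit 166736) (nat_lit 0) .nil) .nil)))) (.nd (nat_lit 9) 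
(.lf (nat_lit 499165) (.g (nat_lit 3164) (.e (nat_lit 163975) (nat_lit 30) (.e (nat_lit 573481) (nat_lit 13) (.e (nat_lit 65619) (nat_lit 10) (.e (nat_lit 344117) (nat_lit 21) (.e (nat_lit 516159) (nat_lit 10) (.e (nat_lit 434209) (nat_lit 18) (.e (nat_lit 5547) (nat_lit 306) (.e (nat_lit 2599) (nat_lit 163) .nil)))))))) (.g (nat_lit 1) (.e (nat_lit 166048) (nat_lit 0) .nil) .nil))) 
(.lf (nat_lit 499677) (.g (nat_lit 3507) (.e (nat_lit 163976) (nat_lit 30) (.e (nat_lit 573488) (nat_lit 14) (.e (nat_lit 73755) (nat_lit 8) (.e (nat_lit 557105) (nat_lit 14) (.e (nat_lit 180252) (nat_lit 10) (.e (nat_lit 573473) (nat_lit 12) (.e (nat_lit 57501) (nat_lit 37) (.e (nat_lit 630799) (nat_lit 7) .nil)))))))) (.g (nat_lit 1) (.e (nat_lit 167313) (nat_lit 0) .nil) .nil))))))) 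
(.nd (nat_lit 6) (.nd (nat_lit 7) (.nd (nat_lit 8) (.nd (nat_lit 9) 
(.lf (nat_lit 498749) (.g (nat_lit 1097) (.e (nat_lit 163962) (nat_lit 25) (.e (nat_lit 532551) (nat_lit 12) (.e (nat_lit 360471) (nat_lit 7) (.e (nat_lit 548890) (nat_lit 10) (.e (nat_lit 81664) (nat_lit 35) .nil))))) (.g (nat_lit 1) (.e (nat_lit 164951) (nat_lit 0) .nil) .nil))) 
(.lf (nat_lit 499261) (.g (nat_lit 2034) (.e (nat_lit 163975) (nat_lit 30) (.e (nat_lit 573491) (nat_lit 15) (.e (nat_lit 81954) (nat_lit 23) (.e (nat_lit 98356) (nat_lit 26) (.e (nat_lit 426362) (nat_lit 15) .nil))))) (.g (nat_lit 0) (.e (nat_lit 166365) (nat_lit 0) .nil) .nil)))) (.nd (nat_lit 9) 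
(.lf (nat_lit 499005) (.g (nat_lit 2411) (.e (nat_lit 163974) (nat_lit 30) (.e (nat_lit 573482) (nat_lit 13) (.e (nat_lit 65619) (nat_lit 10) (.e (nat_lit 344117) (nat_lit 21) (.e (nat_lit 516147) (nat_lit 9) (.e (nat_lit 426442) (nat_lit 19) (.e (nat_lit 114432) (nat_lit 3) .nil))))))) (.g (nat_lit 1) (.e (nat_lit 165760) (nat_lit 0) .nil) .nil))) 
(.lf (nat_lit 499517) (.g (nat_lit 3398) (.e (nat_lit 163976) (nat_lit 30) (.e (nat_lit 573481) (nat_lit 13) (.e (nat_lit 65604) (nat_lit 9) (.e (nat_lit 336013) (nat_lit 2) (.e (nat_lit 90170) (nat_lit 13) (.e (nat_lit 172042) (nat_lit 0) (.e (nat_lit 3408) (nat_lit 212) (.e (nat_lit 655373) (nat_lit 3) .nil)))))))) (.g (nat_lit 1) (.e (nat_lit 166969) (nat_lit 0) .nil) .nil))))) 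
(.nd (nat_lit 8) (.nd (nat_lit 9) 
(.lf (nat_lit 498877) (.g (nat_lit 4014) (.e (nat_lit 163964) (nat_lit 25) (.e (nat_lit 532501) (nat_lit 1) (.e (nat_lit 57927) (nat_lit 282) (.e (nat_lit 163869) (nat_lit 2) (.e (nat_lit 196670) (nat_lit 14) (.e (nat_lit 73746) (nat_lit 3) (.e (nat_lit 516126) (nat_lit 2) (.e (nat_lit 213035) (nat_lit 12) .nil)))))))) (.g (nat_lit 1) (.e (nat_lit 165394) (nat_lit 0) .nil) .nil))) 
(.lf (nat_lit 499389) (.g (nat_lit 3098) (.e (nat_lit 163975) (nat_lit 30) (.e (nat_lit 573492) (nat_lit 15) (.e (nat_lit 81956) (nat_lit 23) (.e (nat_lit 98356) (nat_lit 26) (.e (nat_lit 426360) (nat_lit 15) (.e (nat_lit 2064) (nat_lit 142) (.e (nat_lit 704589) (nat_lit 3) .nil))))))) (.g (nat_lit 1) (.e (nat_lit 166701) (nat_lit 0) .nil) .nil)))) (.nd (nat_lit 9) 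
(.lf (nat_lit 499133) (.g (nat_lit 2172) (.e (nat_lit 163975) (nat_lit 30) (.e (nat_lit 573481) (nat_lit 13) (.e (nat_lit 65619) (nat_lit 10) (.e (nat_lit 344117) (nat_lit 21) (.e (nat_lit 516151) (nat_lit 9) .nil))))) (.g (nat_lit 0) (.e (nat_lit 166014) (nat_lit 0) .nil) .nil))) 
(.lf (nat_lit 499645) (.g (nat_lit 1957) (.e (nat_lit 163976) (nat_lit 30) (.e (nat_lit 573482) (nat_lit 13) (.e (nat_lit 65619) (nat_lit 10) (.e (nat_lit 344117) (nat_lit 21) .nil)))) (.g (nat_lit 0) (.e (nat_lit 167180) (nat_lit 0) .nil) .nil)))))) (.nd (nat_lit 7) (.nd (nat_lit 8) (.nd (nat_lit 9) 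
(.lf (nat_lit 498813) (.g (nat_lit 2638) (.e (nat_lit 163963) (nat_lit 25) (.e (nat_lit 532501) (nat_lit 1) (.e (nat_lit 57926) (nat_lit 282) (.e (nat_lit 163875) (nat_lit 3) (.e (nat_lit 204862) (nat_lit 27) (.e (nat_lit 344117) (nat_lit 21) (.e (nat_lit 516106) (nat_lit 0) (.e (nat_lit 3721) (nat_lit 227) (.e (nat_lit 778474) (nat_lit 12) .nil))))))))) (.g (nat_lit 1) (.e (nat_lit 165179) (nat_lit 0) .nil) .nil))) 
(.lf (nat_lit 499325) (.g (nat_lit 2109) (.e (nat_lit 163975) (nat_lit 30) (.e (nat_lit 573491) (nat_lit 15) (.e (nat_lit 81955) (nat_lit 23) (.e (nat_lit 98384) (nat_lit 32) (.e (nat_lit 475201) (nat_lit 40) .nil))))) (.g (nat_lit 0) (.e (nat_lit 166465) (nat_lit 0) .nil) .nil)))) (.nd (nat_lit 9) 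
(.lf (nat_lit 499069) (.g (nat_lit 5169) (.e (nat_lit 163975) (nat_lit 30) (.e (nat_lit 573481) (nat_lit 13) (.e (nat_lit 65604) (nat_lit 9) (.e (nat_lit 336013) (nat_lit 2) (.e (nat_lit 90170) (nat_lit 13) (.e (nat_lit 172138) (nat_lit 15) (.e (nat_lit 2059) (nat_lit 142) (.e (nat_lit 704589) (nat_lit 3) .nil)))))))) (.g (nat_lit 1) (.e (nat_lit 165905) (nat_lit 0) .nil) .nil))) 
(.lf (nat_lit 499581) (.g (nat_lit 2061) (.e (nat_lit 163976) (nat_lit 30) (.e (nat_lit 573481) (nat_lit 13) (.e (nat_lit 65619) (nat_lit 10) (.e (nat_lit 344117) (nat_lit 21) (.e (nat_lit 516147) (nat_lit 9) (.e (nat_lit 426376) (nat_lit 15) (.e (nat_lit 2057) (nat_lit 142) (.e (nat_lit 704589) (nat_lit 3) .nil)))))))) (.g (nat_lit 1) (.e (nat_lit 167094) (nat_lit 0) .nil) .nil))))) 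
(.nd (nat_lit 8) (.nd (nat_lit 9) 
(.lf (nat_lit 498941) (.g (nat_lit 2149) (.e (nat_lit 163965) (nat_lit 25) (.e (nat_lit 532513) (nat_lit 3) (.e (nat_lit 114718) (nat_lit 23) (.e (nat_lit 98356) (nat_lit 26) (.e (nat_lit 426438) (nat_lit 18) .nil))))) (.g (nat_lit 0) (.e (nat_lit 165594) (nat_lit 0) .nil) .nil))) 
(.lf (nat_lit 499453) (.g (nat_lit 1265) (.e (nat_lit 163975) (nat_lit 30) (.e (nat_lit 573492) (nat_lit 15) (.e (nat_lit 81956) (nat_lit 23) (.e (nat_lit 98368) (nat_lit 27) .nil)))) (.g (nat_lit 0) (.e (nat_lit 166827) (nat_lit 0) .nil) .nil)))) (.nd (nat_lit 9) 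
(.lf (nat_lit 499197) (.g (nat_lit 2021) (.e (nat_lit 163975) (nat_lit 30) (.e (nat_lit 573481) (nat_lit 13) (.e (nat_lit 65619) (nat_lit 10) (.e (nat_lit 344118) (nat_lit 21) (.e (nat_lit 516182) (nat_lit 15) (.e (nat_lit 475199) (nat_lit 40) (.e (nat_lit 704589) (nat_lit 3) .nil))))))) (.g (nat_lit 1) (.e (nat_lit 166095) (nat_lit 0) .nil) .nil))) 
(.lf (nat_lit 499709) (.g (nat_lit 1492) (.e (nat_lit 163976) (nat_lit 30) (.e (nat_lit 573491) (nat_lit 15) (.e (nat_lit 81954) (nat_lit 23) (.e (nat_lit 98354) (nat_lit 26) (.e (nat_lit 426025) (nat_lit 0) (.e (nat_lit 3397) (nat_lit 211) (.e (nat_lit 647180) (nat_lit 3) .nil))))))) (.g (nat_lit 1) (.e (nat_lit 167425) (nat_lit 0) .nil) .nil))))))))))) 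
(.nd (nat_lit 2) (.nd (nat_lit 3) (.nd (nat_lit 4) (.nd (nat_lit 5) (.nd (nat_lit 6) 
(.nd (nat_lit 7) (.nd (nat_lit 8) (.nd (nat_lit 9) 
(.lf (nat_lit 498691) (.g (nat_lit 2179) (.e (nat_lit 163962) (nat_lit 25) (.e (nat_lit 532550) (nat_lit 12) (.e (nat_lit 360474) (nat_lit 8) (.e (nat_lit 557072) (nat_lit 9) (.e (nat_lit 288) (nat_lit 21) (.e (nat_lit 335874) (nat_lit 0) (.e (nat_lit 6713) (nat_lit 360) .nil))))))) (.g (nat_lit 1) (.e (nat_lit 164863) (nat_lit 0) .nil) .nil))) 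
(.lf (nat_lit 499203) (.g (nat_lit 2111) (.e (nat_lit 163975) (nat_lit 30) (.e (nat_lit 573481) (nat_lit 13) (.e (nat_lit 65621) (nat_lit 11) (.e (nat_lit 368676) (nat_lit 21) (.e (nat_lit 516182) (nat_lit 15) (.e (nat_lit 475199) (nat_lit 40) (.e (nat_lit 704589) (nat_lit 3) .nil))))))) (.g (nat_lit 1) (.e (nat_lit 166106) (nat_lit 0) .nil) .nil)))) (.nd (nat_lit 9) 
(.lf (nat_lit 498947) (.g (nat_lit 939) (.e (nat_lit 171776) (nat_lit 23) (.e (nat_lit 516158) (nat_lit 9) (.e (nat_lit 426188) (nat_lit 9) (.e (nat_lit 426568) (nat_lit 34) .nil)))) (.g (nat_lit 0) (.e (nat_lit 165618) (nat_lit 0) .nil) .nil))) 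
(.lf (nat_lit 499459) (.g (nat_lit 3871) (.e (nat_lit 163975) (nat_lit 30) (.e (nat_lit 573492) (nat_lit 15) (.e (nat_lit 81956) (nat_lit 23) (.e (nat_lit 98383) (nat_lit 32) (.e (nat_lit 475199) (nat_lit 40) (.e (nat_lit 704589) (nat_lit 3) .nil)))))) (.g (nat_lit 1) (.e (nat_lit 166848) (nat_lit 0) .nil) .nil))))) (.nd (nat_lit 8) (.nd (nat_lit 9) 
(.lf (nat_lit 498819) (.g (nat_lit 2288) (.e (nat_lit 163963) (nat_lit 25) (.e (nat_lit 532501) (nat_lit 1) (.e (nat_lit 57927) (nat_lit 282) (.e (nat_lit 163871) (nat_lit 2) (.e (nat_lit 196670) (nat_lit 14) .nil))))) (.g (nat_lit 0) (.e (nat_lit 165190) (nat_lit 0) .nil) .nil))) 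
(.lf (nat_lit 499331) (.g (nat_lit 1473) (.e (nat_lit 163975) (nat_lit 30) (.e (nat_lit 573491) (nat_lit 15) (.e (nat_lit 81956) (nat_lit 23) (.e (nat_lit 98356) (nat_lit 26) .nil)))) (.g (nat_lit 0) (.e (nat_lit 166471) (nat_lit 0) .nil) .nil)))) (.nd (nat_lit 9) 
(.lf (nat_lit 499075) (.g (nat_lit 4517) (.e (nat_lit 163975) (nat_lit 30) (.e (nat_lit 573481) (nat_lit 13) (.e (nat_lit 65604) (nat_lit 9) (.e (nat_lit 336028) (nat_lit 3) (.e (nat_lit 98359) (nat_lit 26) (.e (nat_lit 426412) (nat_lit 15) (.e (nat_lit 2058) (nat_lit 142) (.e (nat_lit 704589) (nat_lit 3) .nil)))))))) (.g (nat_lit 1) (.e (nat_lit 165938) (nat_lit 0) .nil) .nil))) 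
(.lf (nat_lit 499587) (.g (nat_lit 2000) (.e (nat_lit 163976) (nat_lit 30) (.e (nat_lit 573481) (nat_lit 13) (.e (nat_lit 65619) (nat_lit 10) (.e (nat_lit 344117) (nat_lit 21) (.e (nat_lit 516151) (nat_lit 9) .nil))))) (.g (nat_lit 0) (.e (nat_lit 167100) (nat_lit 0) .nil) .nil)))))) (.nd (nat_lit 7) (.nd (nat_lit 8) (.nd (nat_lit 9) 
(.lf (nat_lit 498755) (.g (nat_lit 2242) (.e (nat_lit 163962) (nat_lit 25) (.e (nat_lit 532559) (nat_lit 14) (.e (nat_lit 376868) (nat_lit 23) (.e (nat_lit 98350) (nat_lit 24) (.e (nat_lit 409617) (nat_lit 10) (.e (nat_lit 5762) (nat_lit 315) .nil)))))) (.g (nat_lit 1) (.e (nat_lit 164980) (nat_lit 0) .nil) .nil))) 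
(.lf (nat_lit 499267) (.g (nat_lit 2519) (.e (nat_lit 163975) (nat_lit 30) (.e (nat_lit 573491) (nat_lit 15) (.e (nat_lit 81954) (nat_lit 23) (.e (nat_lit 98356) (nat_lit 26) (.e (nat_lit 426374) (nat_lit 15) .nil))))) (.g (nat_lit 0) (.e (nat_lit 166371) (nat_lit 0) .nil) .nil)))) (.nd (nat_lit 9) 
(.lf (nat_lit 499011) (.g (nat_lit 5075) (.e (nat_lit 163974) (nat_lit 30) (.e (nat_lit 573484) (nat_lit 13) (.e (nat_lit 65610) (nat_lit 10) (.e (nat_lit 344117) (nat_lit 21) (.e (nat_lit 516179) (nat_lit 15) (.e (nat_lit 475198) (nat_lit 40) (.e (nat_lit 704590) (nat_lit 3) .nil))))))) (.g (nat_lit 1) (.e (nat_lit 165766) (nat_lit 0) .nil) .nil))) 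
(.lf (nat_lit 499523) (.g (nat_lit 3514) (.e (nat_lit 163976) (nat_lit 30) (.e (nat_lit 573481) (nat_lit 13) (.e (nat_lit 65604) (nat_lit 9) (.e (nat_lit 336013) (nat_lit 2) (.e (nat_lit 90170) (nat_lit 13) (.e (nat_lit 172049) (nat_lit 0) (.e (nat_lit 3409) (nat_lit 212) (.e (nat_lit 655373) (nat_lit 3) .nil)))))))) (.g (nat_lit 1) (.e (nat_lit 166981) (nat_lit 0) .nil) .nil))))) 
(.nd (nat_lit 8) (.nd (nat_lit 9) 
(.lf (nat_lit 498883) (.g (nat_lit 2855) (.e (nat_lit 163964) (nat_lit 25) (.e (nat_lit 532501) (nat_lit 1) (.e (nat_lit 57927) (nat_lit 282) (.e (nat_lit 163871) (nat_lit 2) (.e (nat_lit 196670) (nat_lit 14) (.e (nat_lit 73746) (nat_lit 3) (.e (nat_lit 516127) (nat_lit 2) (.e (nat_lit 213035) (nat_lit 12) .nil)))))))) (.g (nat_lit 1) (.e (nat_lit 165401) (nat_lit 0) .nil) .nil))) 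
(.lf (nat_lit 499395) (.g (nat_lit 3109) (.e (nat_lit 163975) (nat_lit 30) (.e (nat_lit 573492) (nat_lit 15) (.e (nat_lit 81956) (nat_lit 23) (.e (nat_lit 98356) (nat_lit 26) (.e (nat_lit 426363) (nat_lit 15) (.e (nat_lit 7936) (nat_lit 142) (.e (nat_lit 704589) (nat_lit 3) .nil))))))) (.g (nat_lit 1) (.e (nat_lit 166707) (nat_lit 0) .nil) .nil)))) (.nd (nat_lit 9) 
(.lf (nat_lit 499139) (.g (nat_lit 4132) (.e (nat_lit 163975) (nat_lit 30) (.e (nat_lit 573481) (nat_lit 13) (.e (nat_lit 65619) (nat_lit 10) (.e (nat_lit 344117) (nat_lit 21) (.e (nat_lit 516151) (nat_lit 9) (.e (nat_lit 426042) (nat_lit 0) (.e (nat_lit 2458) (nat_lit 157) (.e (nat_lit 5547) (nat_lit 306) (.e (nat_lit 2601) (nat_lit 163) .nil))))))))) (.g (nat_lit 1) (.e (nat_lit 166020) (nat_lit 0) .nil) .nil))) 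
(.lf (nat_lit 499651) (.g (nat_lit 2240) (.e (nat_lit 163976) (nat_lit 30) (.e (nat_lit 573487) (nat_lit 14) (.e (nat_lit 73753) (nat_lit 8) (.e (nat_lit 557103) (nat_lit 14) (.e (nat_lit 180250) (nat_lit 10) (.e (nat_lit 573475) (nat_lit 12) (.e (nat_lit 57502) (nat_lit 38) (.e (nat_lit 638994) (nat_lit 7) .nil)))))))) (.g (nat_lit 1) (.e (nat_lit 167238) (nat_lit 0) .nil) .nil))))))) 
(.nd (nat_lit 6) (.nd (nat_lit 7) (.nd (nat_lit 8) (.nd (nat_lit 9) 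
(.lf (nat_lit 498723) (.g (nat_lit 1957) (.e (nat_lit 163962) (nat_lit 25) (.e (nat_lit 532550) (nat_lit 12) (.e (nat_lit 360475) (nat_lit 8) (.e (nat_lit 557073) (nat_lit 9) .nil)))) (.g (nat_lit 0) (.e (nat_lit 164911) (nat_lit 0) .nil) .nil))) 
(.lf (nat_lit 499235) (.g (nat_lit 2065) (.e (nat_lit 163975) (nat_lit 30) (.e (nat_lit 573488) (nat_lit 14) (.e (nat_lit 73755) (nat_lit 8) (.e (nat_lit 557105) (nat_lit 14) (.e (nat_lit 180252) (nat_lit 10) (.e (nat_lit 573473) (nat_lit 12) (.e (nat_lit 57500) (nat_lit 37) (.e (nat_lit 630799) (nat_lit 7) .nil)))))))) (.g (nat_lit 1) (.e (nat_lit 166261) (nat_lit 0) .nil) .nil)))) 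
(.nd (nat_lit 9) 
(.lf (nat_lit 498979) (.g (nat_lit 3959) (.e (nat_lit 163973) (nat_lit 30) (.e (nat_lit 573492) (nat_lit 15) (.e (nat_lit 81956) (nat_lit 23) (.e (nat_lit 98358) (nat_lit 26) .nil)))) (.g (nat_lit 0) (.e (nat_lit 165710) (nat_lit 0) .nil) .nil))) 
(.lf (nat_lit 499491) (.g (nat_lit 4599) (.e (nat_lit 163975) (nat_lit 30) (.e (nat_lit 573493) (nat_lit 15) (.e (nat_lit 81956) (nat_lit 23) (.e (nat_lit 98357) (nat_lit 26) .nil)))) (.g (nat_lit 0) (.e (nat_lit 166895) (nat_lit 0) .nil) .nil))))) (.nd (nat_lit 8) (.nd (nat_lit 9) 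
(.lf (nat_lit 498851) (.g (nat_lit 4211) (.e (nat_lit 163964) (nat_lit 25) (.e (nat_lit 532499) (nat_lit 1) (.e (nat_lit 57927) (nat_lit 282) (.e (nat_lit 163869) (nat_lit 2) (.e (nat_lit 196670) (nat_lit 14) (.e (nat_lit 73746) (nat_lit 3) (.e (nat_lit 516124) (nat_lit 2) (.e (nat_lit 213035) (nat_lit 12) .nil)))))))) (.g (nat_lit 1) (.e (nat_lit 165340) (nat_lit 0) .nil) .nil))) 
(.lf (nat_lit 499363) (.g (nat_lit 1239) (.e (nat_lit 163975) (nat_lit 30) (.e (nat_lit 573492) (nat_lit 15) (.e (nat_lit 81954) (nat_lit 23) (.e (nat_lit 98356) (nat_lit 26) .nil)))) (.g (nat_lit 0) (.e (nat_lit 166646) (nat_lit 0) .nil) .nil)))) (.nd (nat_lit 9) 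
(.lf (nat_lit 499107) (.g (nat_lit 2887) (.e (nat_lit 163975) (nat_lit 30) (.e (nat_lit 573481) (nat_lit 13) (.e (nat_lit 65619) (nat_lit 10) (.e (nat_lit 344117) (nat_lit 21) (.e (nat_lit 516143) (nat_lit 9) (.e (nat_lit 426109) (nat_lit 1) (.e (nat_lit 164346) (nat_lit 240) (.e (nat_lit 2599) (nat_lit 163) .nil)))))))) (.g (nat_lit 1) (.e (nat_lit 165988) (nat_lit 0) .nil) .nil))) 
(.lf (nat_lit 499619) (.g (nat_lit 3804) (.e (nat_lit 163976) (nat_lit 30) (.e (nat_lit 573481) (nat_lit 13) (.e (nat_lit 65619) (nat_lit 10) (.e (nat_lit 344117) (nat_lit 21) (.e (nat_lit 516159) (nat_lit 10) (.e (nat_lit 434209) (nat_lit 18) (.e (nat_lit 5547) (nat_lit 306) (.e (nat_lit 2601) (nat_lit 163) .nil)))))))) (.g (nat_lit 1) (.e (nat_lit 167134) (nat_lit 0) .nil) .nil)))))) 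
(.nd (nat_lit 7) (.nd (nat_lit 8) (.nd (nat_lit 9) 
(.lf (nat_lit 498787) (.g (nat_lit 2240) (.e (nat_lit 163963) (nat_lit 25) (.e (nat_lit 532499) (nat_lit 1) (.e (nat_lit 57847) (nat_lit 252) (.e (nat_lit 57370) (nat_lit 2) .nil)))) (.g (nat_lit 0) (.e (nat_lit 165132) (nat_lit 0) .nil) .nil))) 
(.lf (nat_lit 499299) (.g (nat_lit 1266) (.e (nat_lit 163975) (nat_lit 30) (.e (nat_lit 573491) (nat_lit 15) (.e (nat_lit 81954) (nat_lit 23) (.e (nat_lit 98360) (nat_lit 26) .nil)))) (.g (nat_lit 0) (.e (nat_lit 166417) (nat_lit 0) .nil) .nil)))) (.nd (nat_lit 9) 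
(.lf (nat_lit 499043) (.g (nat_lit 2033) (.e (nat_lit 163975) (nat_lit 30) (.e (nat_lit 573481) (nat_lit 13) (.e (nat_lit 65604) (nat_lit 9) (.e (nat_lit 336013) (nat_lit 2) (.e (nat_lit 90134) (nat_lit 9) (.e (nat_lit 3055) (nat_lit 190) (.e (nat_lit 475197) (nat_lit 40) (.e (nat_lit 704589) (nat_lit 3) .nil)))))))) (.g (nat_lit 1) (.e (nat_lit 165869) (nat_lit 0) .nil) .nil))) 
(.lf (nat_lit 499555) (.g (nat_lit 3413) (.e (nat_lit 163976) (nat_lit 30) (.e (nat_lit 573481) (nat_lit 13) (.e (nat_lit 65619) (nat_lit 10) (.e (nat_lit 344117) (nat_lit 21) (.e (nat_lit 516143) (nat_lit 9) (.e (nat_lit 426109) (nat_lit 1) (.e (nat_lit 164345) (nat_lit 240) (.e (nat_lit 2600) (nat_lit 163) .nil)))))))) (.g (nat_lit 1) (.e (nat_lit 167068) (nat_lit 0) .nil) .nil))))) 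
(.nd (nat_lit 8) (.nd (nat_lit 9) 
(.lf (nat_lit 498915) (.g (nat_lit 2827) (.e (nat_lit 163964) (nat_lit 25) (.e (nat_lit 532513) (nat_lit 3) (.e (nat_lit 114719) (nat_lit 23) (.e (nat_lit 98384) (nat_lit 32) (.e (nat_lit 475177) (nat_lit 24) (.e (nat_lit 516120) (nat_lit 1) (.e (nat_lit 164304) (nat_lit 226) (.e (nat_lit 2612) (nat_lit 163) .nil)))))))) (.g (nat_lit 1) (.e (nat_lit 165469) (nat_lit 0) .nil) .nil))) 
(.lf (nat_lit 499427) (.g (nat_lit 2653) (.e (nat_lit 163975) (nat_lit 30) (.e (nat_lit 573492) (nat_lit 15) (.e (nat_lit 81956) (nat_lit 23) (.e (nat_lit 98359) (nat_lit 26) (.e (nat_lit 426394) (nat_lit 15) .nil))))) (.g (nat_lit 0) (.e (nat_lit 166770) (nat_lit 0) .nil) .nil)))) (.nd (nat_lit 9) 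
(.lf (nat_lit 499171) (.g (nat_lit 4620) (.e (nat_lit 163975) (nat_lit 30) (.e (nat_lit 573481) (nat_lit 13) (.e (nat_lit 65619) (nat_lit 10) (.e (nat_lit 344117) (nat_lit 21) (.e (nat_lit 516160) (nat_lit 10) (.e (nat_lit 434272) (nat_lit 38) (.e (nat_lit 655373) (nat_lit 3) .nil))))))) (.g (nat_lit 1) (.e (nat_lit 166056) (nat_lit 0) .nil) .nil))) 
(.lf (nat_lit 499683) (.g (nat_lit 2625) (.e (nat_lit 163976) (nat_lit 30) (.e (nat_lit 573489) (nat_lit 14) (.e (nat_lit 73755) (nat_lit 8) (.e (nat_lit 557098) (nat_lit 13) .nil)))) (.g (nat_lit 0) (.e (nat_lit 167323) (nat_lit 0) .nil) .nil)))))))) (.nd (nat_lit 5) (.nd (nat_lit 6) (.nd (nat_lit 7) (.nd (nat_lit 8) (.nd (nat_lit 9) 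
(.lf (nat_lit 498707) (.g (nat_lit 3061) (.e (nat_lit 163962) (nat_lit 25) (.e (nat_lit 532550) (nat_lit 12) (.e (nat_lit 360475) (nat_lit 8) (.e (nat_lit 557065) (nat_lit 9) (.e (nat_lit 330) (nat_lit 25) .nil))))) (.g (nat_lit 0) (.e (nat_lit 164883) (nat_lit 0) .nil) .nil))) 
(.lf (nat_lit 499219) (.g (nat_lit 2519) (.e (nat_lit 163975) (nat_lit 30) (.e (nat_lit 573487) (nat_lit 14) (.e (nat_lit 73753) (nat_lit 8) (.e (nat_lit 557105) (nat_lit 14) (.e (nat_lit 180251) (nat_lit 10) (.e (nat_lit 573478) (nat_lit 12) (.e (nat_lit 57502) (nat_lit 38) (.e (nat_lit 638994) (nat_lit 7) .nil)))))))) (.g (nat_lit 1) (.e (nat_lit 166181) (nat_lit 0) .nil) .nil)))) 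
(.nd (nat_lit 9) 
(.lf (nat_lit 498963) (.g (nat_lit 2047) (.e (nat_lit 163973) (nat_lit 30) (.e (nat_lit 573481) (nat_lit 13) (.e (nat_lit 65604) (nat_lit 9) (.e (nat_lit 336028) (nat_lit 3) (.e (nat_lit 98367) (nat_lit 27) .nil))))) (.g (nat_lit 0) (.e (nat_lit 165651) (nat_lit 0) .nil) .nil))) 
(.lf (nat_lit 499475) (.g (nat_lit 2844) (.e (nat_lit 163975) (nat_lit 30) (.e (nat_lit 573492) (nat_lit 15) (.e (nat_lit 81956) (nat_lit 23) (.e (nat_lit 98385) (nat_lit 32) (.e (nat_lit 475205) (nat_lit 40) (.e (nat_lit 704588) (nat_lit 3) .nil)))))) (.g (nat_lit 1) (.e (nat_lit 166864) (nat_lit 0) .nil) .nil))))) (.nd (nat_lit 8) (.nd (nat_lit 9) 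
(.lf (nat_lit 498835) (.g (nat_lit 2937) (.e (nat_lit 163963) (nat_lit 25) (.e (nat_lit 532534) (nat_lit 9) (.e (nat_lit 336019) (nat_lit 3) (.e (nat_lit 98342) (nat_lit 20) (.e (nat_lit 221210) (nat_lit 22) (.e (nat_lit 196658) (nat_lit 12) (.e (nat_lit 57508) (nat_lit 39) (.e (nat_lit 647181) (nat_lit 3) .nil)))))))) (.g (nat_lit 1) (.e (nat_lit 165291) (nat_lit 0) .nil) .nil))) 
(.lf (nat_lit 499347) (.g (nat_lit 3500) (.e (nat_lit 163975) (nat_lit 30) (.e (nat_lit 573492) (nat_lit 15) (.e (nat_lit 81951) (nat_lit 22) (.e (nat_lit 90170) (nat_lit 13) (.e (nat_lit 172137) (nat_lit 15) .nil))))) (.g (nat_lit 0) (.e (nat_lit 166514) (nat_lit 0) .nil) .nil)))) (.nd (nat_lit 9) 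
(.lf (nat_lit 499091) (.g (nat_lit 4180) (.e (nat_lit 163975) (nat_lit 30) (.e (nat_lit 573481) (nat_lit 13) (.e (nat_lit 65604) (nat_lit 9) (.e (nat_lit 336028) (nat_lit 3) (.e (nat_lit 98386) (nat_lit 32) (.e (nat_lit 475199) (nat_lit 40) (.e (nat_lit 704589) (nat_lit 3) .nil))))))) (.g (nat_lit 1) (.e (nat_lit 165966) (nat_lit 0) .nil) .nil))) 
(.lf (nat_lit 499603) (.g (nat_lit 4656) (.e (nat_lit 163976) (nat_lit 30) (.e (nat_lit 573481) (nat_lit 13) (.e (nat_lit 65619) (nat_lit 10) (.e (nat_lit 344117) (nat_lit 21) (.e (nat_lit 516151) (nat_lit 9) (.e (nat_lit 426104) (nat_lit 1) (.e (nat_lit 164345) (nat_lit 240) (.e (nat_lit 2601) (nat_lit 163) .nil)))))))) (.g (nat_lit 1) (.e (nat_lit 167117) (nat_lit 0) .nil) .nil)))))) 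
(.nd (nat_lit 7) (.nd (nat_lit 8) (.nd (nat_lit 9) 
(.lf (nat_lit 498771) (.g (nat_lit 638) (.e (nat_lit 163962) (nat_lit 25) (.e (nat_lit 532569) (nat_lit 16) (.e (nat_lit 401448) (nat_lit 10) .nil))) (.g (nat_lit 0) (.e (nat_lit 165036) (nat_lit 0) .nil) .nil))) 
(.lf (nat_lit 499283) (.g (nat_lit 2056) (.e (nat_lit 163975) (nat_lit 30) (.e (nat_lit 573491) (nat_lit 15) (.e (nat_lit 81954) (nat_lit 23) (.e (nat_lit 98356) (nat_lit 26) (.e (nat_lit 426439) (nat_lit 19) .nil))))) (.g (nat_lit 0) (.e (nat_lit 166387) (nat_lit 0) .nil) .nil)))) (.nd (nat_lit 9) 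
(.lf (nat_lit 499027) (.g (nat_lit 4721) (.e (nat_lit 163974) (nat_lit 30) (.e (nat_lit 573493) (nat_lit 15) (.e (nat_lit 81956) (nat_lit 23) (.e (nat_lit 98363) (nat_lit 26) .nil)))) (.g (nat_lit 0) (.e (nat_lit 165801) (nat_lit 0) .nil) .nil))) 
(.lf (nat_lit 499539) (.g (nat_lit 3291) (.e (nat_lit 163976) (nat_lit 30) (.e (nat_lit 573481) (nat_lit 13) (.e (nat_lit 65604) (nat_lit 9) (.e (nat_lit 336028) (nat_lit 3) (.e (nat_lit 98366) (nat_lit 27) (.e (nat_lit 434271) (nat_lit 38) (.e (nat_lit 655373) (nat_lit 3) .nil))))))) (.g (nat_lit 1) (.e (nat_lit 167044) (nat_lit 0) .nil) .nil))))) (.nd (nat_lit 8) (.nd (nat_lit 9) 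
(.lf (nat_lit 498899) (.g (nat_lit 2115) (.e (nat_lit 163964) (nat_lit 25) (.e (nat_lit 532504) (nat_lit 1) (.e (nat_lit 57852) (nat_lit 252) (.e (nat_lit 57373) (nat_lit 2) .nil)))) (.g (nat_lit 0) (.e (nat_lit 165427) (nat_lit 0) .nil) .nil))) 
(.lf (nat_lit 499411) (.g (nat_lit 2934) (.e (nat_lit 163975) (nat_lit 30) (.e (nat_lit 573492) (nat_lit 15) (.e (nat_lit 81956) (nat_lit 23) (.e (nat_lit 98356) (nat_lit 26) (.e (nat_lit 426402) (nat_lit 15) .nil))))) (.g (nat_lit 0) (.e (nat_lit 166723) (nat_lit 0) .nil) .nil)))) (.nd (nat_lit 9) 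
(.lf (nat_lit 499155) (.g (nat_lit 2482) (.e (nat_lit 163975) (nat_lit 30) (.e (nat_lit 573481) (nat_lit 13) (.e (nat_lit 65619) (nat_lit 10) (.e (nat_lit 344117) (nat_lit 21) (.e (nat_lit 516152) (nat_lit 9) .nil))))) (.g (nat_lit 0) (.e (nat_lit 166037) (nat_lit 0) .nil) .nil))) 
(.lf (nat_lit 499667) (.g (nat_lit 3557) (.e (nat_lit 163976) (nat_lit 30) (.e (nat_lit 573488) (nat_lit 14) (.e (nat_lit 73755) (nat_lit 8) (.e (nat_lit 557103) (nat_lit 14) (.e (nat_lit 180250) (nat_lit 10) (.e (nat_lit 573478) (nat_lit 12) (.e (nat_lit 57500) (nat_lit 37) (.e (nat_lit 630799) (nat_lit 7) .nil)))))))) (.g (nat_lit 1) (.e (nat_lit 167292) (nat_lit 0) .nil) .nil))))))) 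
(.nd (nat_lit 6) (.nd (nat_lit 7) (.nd (nat_lit 8) (.nd (nat_lit 9) 
(.lf (nat_lit 498739) (.g (nat_lit 2743) (.e (nat_lit 163962) (nat_lit 25) (.e (nat_lit 532550) (nat_lit 12) (.e (nat_lit 360475) (nat_lit 8) (.e (nat_lit 557087) (nat_lit 11) (.e (nat_lit 24593) (nat_lit 0) .nil))))) (.g (nat_lit 0) (.e (nat_lit 164937) (nat_lit 0) .nil) .nil))) 
(.lf (nat_lit 499251) (.g (nat_lit 4426) (.e (nat_lit 163975) (nat_lit 30) (.e (nat_lit 573491) (nat_lit 15) (.e (nat_lit 81951) (nat_lit 22) (.e (nat_lit 90170) (nat_lit 13) (.e (nat_lit 172138) (nat_lit 15) (.e (nat_lit 2059) (nat_lit 142) (.e (nat_lit 704589) (nat_lit 3) .nil))))))) (.g (nat_lit 1) (.e (nat_lit 166329) (nat_lit 0) .nil) .nil)))) (.nd (nat_lit 9) 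
(.lf (nat_lit 498995) (.g (nat_lit 4431) (.e (nat_lit 163973) (nat_lit 30) (.e (nat_lit 573493) (nat_lit 15) (.e (nat_lit 81956) (nat_lit 23) (.e (nat_lit 98356) (nat_lit 26) .nil)))) (.g (nat_lit 0) (.e (nat_lit 165747) (nat_lit 0) .nil) .nil))) 
(.lf (nat_lit 499507) (.g (nat_lit 3687) (.e (nat_lit 163976) (nat_lit 30) (.e (nat_lit 573480) (nat_lit 13) (.e (nat_lit 65610) (nat_lit 10) (.e (nat_lit 344117) (nat_lit 21) (.e (nat_lit 516151) (nat_lit 9) (.e (nat_lit 426412) (nat_lit 15) (.e (nat_lit 2057) (nat_lit 142) (.e (nat_lit 704589) (nat_lit 3) .nil)))))))) (.g (nat_lit 1) (.e (nat_lit 166953) (nat_lit 0) .nil) .nil))))) 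
(.nd (nat_lit 8) (.nd (nat_lit 9) 
(.lf (nat_lit 498867) (.g (nat_lit 2565) (.e (nat_lit 163964) (nat_lit 25) (.e (nat_lit 532501) (nat_lit 1) (.e (nat_lit 57926) (nat_lit 282) (.e (nat_lit 163871) (nat_lit 2) (.e (nat_lit 196670) (nat_lit 14) (.e (nat_lit 73746) (nat_lit 3) (.e (nat_lit 516124) (nat_lit 2) (.e (nat_lit 213035) (nat_lit 12) .nil)))))))) (.g (nat_lit 1) (.e (nat_lit 165375) (nat_lit 0) .nil) .nil))) 
(.lf (nat_lit 499379) (.g (nat_lit 2751) (.e (nat_lit 163975) (nat_lit 30) (.e (nat_lit 573492) (nat_lit 15) (.e (nat_lit 81956) (nat_lit 23) (.e (nat_lit 98356) (nat_lit 26) (.e (nat_lit 426354) (nat_lit 15) .nil))))) (.g (nat_lit 0) (.e (nat_lit 166691) (nat_lit 0) .nil) .nil)))) (.nd (nat_lit 9) 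
(.lf (nat_lit 499123) (.g (nat_lit 4154) (.e (nat_lit 163975) (nat_lit 30) (.e (nat_lit 573481) (nat_lit 13) (.e (nat_lit 65619) (nat_lit 10) (.e (nat_lit 344117) (nat_lit 21) (.e (nat_lit 516145) (nat_lit 9) (.e (nat_lit 426379) (nat_lit 15) (.e (nat_lit 2058) (nat_lit 142) (.e (nat_lit 704589) (nat_lit 3) .nil)))))))) (.g (nat_lit 1) (.e (nat_lit 166004) (nat_lit 0) .nil) .nil))) 
(.lf (nat_lit 499635) (.g (nat_lit 2139) (.e (nat_lit 163976) (nat_lit 30) (.e (nat_lit 573481) (nat_lit 13) (.e (nat_lit 65619) (nat_lit 10) (.e (nat_lit 344117) (nat_lit 21) (.e (nat_lit 516182) (nat_lit 15) .nil))))) (.g (nat_lit 0) (.e (nat_lit 167165) (nat_lit 0) .nil) .nil)))))) (.nd (nat_lit 7) (.nd (nat_lit 8) (.nd (nat_lit 9) 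
(.lf (nat_lit 498803) (.g (nat_lit 4234) (.e (nat_lit 163963) (nat_lit 25) (.e (nat_lit 532499) (nat_lit 1) (.e (nat_lit 57927) (nat_lit 282) (.e (nat_lit 163869) (nat_lit 2) (.e (nat_lit 196670) (nat_lit 14) (.e (nat_lit 73746) (nat_lit 3) (.e (nat_lit 516127) (nat_lit 2) (.e (nat_lit 213035) (nat_lit 12) .nil)))))))) (.g (nat_lit 1) (.e (nat_lit 165161) (nat_lit 0) .nil) .nil))) 
(.lf (nat_lit 499315) (.g (nat_lit 2244) (.e (nat_lit 163975) (nat_lit 30) (.e (nat_lit 573491) (nat_lit 15) (.e (nat_lit 81954) (nat_lit 23) (.e (nat_lit 98384) (nat_lit 32) (.e (nat_lit 475201) (nat_lit 40) (.e (nat_lit 712448) (nat_lit 3) .nil)))))) (.g (nat_lit 1) (.e (nat_lit 166455) (nat_lit 0) .nil) .nil)))) (.nd (nat_lit 9) 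
(.lf (nat_lit 499059) (.g (nat_lit 2825) (.e (nat_lit 163975) (nat_lit 30) (.e (nat_lit 573481) (nat_lit 13) (.e (nat_lit 65604) (nat_lit 9) (.e (nat_lit 336013) (nat_lit 2) (.e (nat_lit 90170) (nat_lit 13) (.e (nat_lit 172061) (nat_lit 1) (.e (nat_lit 164347) (nat_lit 240) (.e (nat_lit 2599) (nat_lit 163) .nil)))))))) (.g (nat_lit 1) (.e (nat_lit 165894) (nat_lit 0) .nil) .nil))) 
(.lf (nat_lit 499571) (.g (nat_lit 3151) (.e (nat_lit 163976) (nat_lit 30) (.e (nat_lit 573481) (nat_lit 13) (.e (nat_lit 65619) (nat_lit 10) (.e (nat_lit 344117) (nat_lit 21) (.e (nat_lit 516144) (nat_lit 9) (.e (nat_lit 426444) (nat_lit 19) (.e (nat_lit 114432) (nat_lit 3) .nil))))))) (.g (nat_lit 1) (.e (nat_lit 167084) (nat_lit 0) .nil) .nil))))) (.nd (nat_lit 8) (.nd (nat_lit 9) 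
(.lf (nat_lit 498931) (.g (nat_lit 2252) (.e (nat_lit 163965) (nat_lit 25) (.e (nat_lit 532499) (nat_lit 1) (.e (nat_lit 57926) (nat_lit 282) (.e (nat_lit 163869) (nat_lit 2) (.e (nat_lit 196670) (nat_lit 14) (.e (nat_lit 73746) (nat_lit 3) (.e (nat_lit 516126) (nat_lit 2) (.e (nat_lit 213033) (nat_lit 12) .nil)))))))) (.g (nat_lit 1) (.e (nat_lit 165567) (nat_lit 0) .nil) .nil))) 
(.lf (nat_lit 499443) (.g (nat_lit 3241) (.e (nat_lit 163975) (nat_lit 30) (.e (nat_lit 573492) (nat_lit 15) (.e (nat_lit 81956) (nat_lit 23) (.e (nat_lit 98364) (nat_lit 26) .nil)))) (.g (nat_lit 0) (.e (nat_lit 166792) (nat_lit 0) .nil) .nil)))) (.nd (nat_lit 9) 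
(.lf (nat_lit 499187) (.g (nat_lit 2656) (.e (nat_lit 163975) (nat_lit 30) (.e (nat_lit 573481) (nat_lit 13) (.e (nat_lit 65619) (nat_lit 10) (.e (nat_lit 344117) (nat_lit 21) (.e (nat_lit 516180) (nat_lit 15) (.e (nat_lit 475200) (nat_lit 40) (.e (nat_lit 712448) (nat_lit 3) .nil))))))) (.g (nat_lit 1) (.e (nat_lit 166085) (nat_lit 0) .nil) .nil))) 
(.lf (nat_lit 499699) (.g (nat_lit 1705) (.e (nat_lit 163976) (nat_lit 30) (.e (nat_lit 573491) (nat_lit 15) (.e (nat_lit 81951) (nat_lit 22) (.e (nat_lit 90167) (nat_lit 13) .nil)))) (.g (nat_lit 0) (.e (nat_lit 167356) (nat_lit 0) .nil) .nil))))))))) (.nd (nat_lit 4) (.nd (nat_lit 5) (.nd (nat_lit 6) (.nd (nat_lit 7) (.nd (nat_lit 8) (.nd (nat_lit 9) 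
(.lf (nat_lit 498699) (.g (nat_lit 1279) (.e (nat_lit 163962) (nat_lit 25) (.e (nat_lit 532550) (nat_lit 12) (.e (nat_lit 360474) (nat_lit 8) (.e (nat_lit 557073) (nat_lit 9) (.e (nat_lit 7936) (nat_lit 21) .nil))))) (.g (nat_lit 0) (.e (nat_lit 164873) (nat_lit 0) .nil) .nil))) 
(.lf (nat_lit 499211) (.g (nat_lit 3454) (.e (nat_lit 163975) (nat_lit 30) (.e (nat_lit 573487) (nat_lit 14) (.e (nat_lit 73753) (nat_lit 8) (.e (nat_lit 557103) (nat_lit 14) (.e (nat_lit 180250) (nat_lit 10) (.e (nat_lit 573473) (nat_lit 12) (.e (nat_lit 57504) (nat_lit 38) (.e (nat_lit 638994) (nat_lit 7) .nil)))))))) (.g (nat_lit 1) (.e (nat_lit 166164) (nat_lit 0) .nil) .nil)))) 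
(.nd (nat_lit 9) 
(.lf (nat_lit 498955) (.g (nat_lit 2419) (.e (nat_lit 163973) (nat_lit 30) (.e (nat_lit 573479) (nat_lit 13) (.e (nat_lit 65619) (nat_lit 10) (.e (nat_lit 344117) (nat_lit 21) (.e (nat_lit 516151) (nat_lit 9) (.e (nat_lit 426043) (nat_lit 0) (.e (nat_lit 3406) (nat_lit 212) (.e (nat_lit 655375) (nat_lit 3) .nil)))))))) (.g (nat_lit 1) (.e (nat_lit 165642) (nat_lit 0) .nil) .nil))) 
(.lf (nat_lit 499467) (.g (nat_lit 2955) (.e (nat_lit 163975) (nat_lit 30) (.e (nat_lit 573492) (nat_lit 15) (.e (nat_lit 81956) (nat_lit 23) (.e (nat_lit 98384) (nat_lit 32) (.e (nat_lit 475205) (nat_lit 40) (.e (nat_lit 704588) (nat_lit 3) .nil)))))) (.g (nat_lit 1) (.e (nat_lit 166856) (nat_lit 0) .nil) .nil))))) (.nd (nat_lit 8) (.nd (nat_lit 9) 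
(.lf (nat_lit 498827) (.g (nat_lit 2358) (.e (nat_lit 163963) (nat_lit 25) (.e (nat_lit 532513) (nat_lit 3) (.e (nat_lit 114714) (nat_lit 22) (.e (nat_lit 90170) (nat_lit 13) (.e (nat_lit 172065) (nat_lit 3) .nil))))) (.g (nat_lit 0) (.e (nat_lit 165208) (nat_lit 0) .nil) .nil))) 
(.lf (nat_lit 499339) (.g (nat_lit 3250) (.e (nat_lit 163975) (nat_lit 30) (.e (nat_lit 573491) (nat_lit 15) (.e (nat_lit 81956) (nat_lit 23) (.e (nat_lit 98384) (nat_lit 32) (.e (nat_lit 475197) (nat_lit 40) .nil))))) (.g (nat_lit 0) (.e (nat_lit 166479) (nat_lit 0) .nil) .nil)))) (.nd (nat_lit 9) 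
(.lf (nat_lit 499083) (.g (nat_lit 2390) (.e (nat_lit 163975) (nat_lit 30) (.e (nat_lit 573481) (nat_lit 13) (.e (nat_lit 65604) (nat_lit 9) (.e (nat_lit 336028) (nat_lit 3) (.e (nat_lit 98383) (nat_lit 32) (.e (nat_lit 475196) (nat_lit 40) (.e (nat_lit 704590) (nat_lit 3) .nil))))))) (.g (nat_lit 1) (.e (nat_lit 165958) (nat_lit 0) .nil) .nil))) 
(.lf (nat_lit 499595) (.g (nat_lit 3890) (.e (nat_lit 163976) (nat_lit 30) (.e (nat_lit 573481) (nat_lit 13) (.e (nat_lit 65619) (nat_lit 10) (.e (nat_lit 344117) (nat_lit 21) (.e (nat_lit 516151) (nat_lit 9) (.e (nat_lit 426043) (nat_lit 0) (.e (nat_lit 3406) (nat_lit 212) (.e (nat_lit 655373) (nat_lit 3) .nil)))))))) (.g (nat_lit 1) (.e (nat_lit 167108) (nat_lit 0) .nil) .nil)))))) 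
(.nd (nat_lit 7) (.nd (nat_lit 8) (.nd (nat_lit 9) 
(.lf (nat_lit 498763) (.g (nat_lit 745) (.e (nat_lit 163962) (nat_lit 25) (.e (nat_lit 532560) (nat_lit 14) (.e (nat_lit 376855) (nat_lit 20) (.e (nat_lit 1836) (nat_lit 123) .nil)))) (.g (nat_lit 0) (.e (nat_lit 164993) (nat_lit 0) .nil) .nil))) 
(.lf (nat_lit 499275) (.g (nat_lit 2109) (.e (nat_lit 163975) (nat_lit 30) (.e (nat_lit 573491) (nat_lit 15) (.e (nat_lit 81954) (nat_lit 23) (.e (nat_lit 98356) (nat_lit 26) (.e (nat_lit 426415) (nat_lit 15) .nil))))) (.g (nat_lit 0) (.e (nat_lit 166379) (nat_lit 0) .nil) .nil)))) (.nd (nat_lit 9) 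
(.lf (nat_lit 499019) (.g (nat_lit 5112) (.e (nat_lit 163974) (nat_lit 30) (.e (nat_lit 573492) (nat_lit 15) (.e (nat_lit 81956) (nat_lit 23) (.e (nat_lit 98358) (nat_lit 26) .nil)))) (.g (nat_lit 0) (.e (nat_lit 165782) (nat_lit 0) .nil) .nil))) 
(.lf (nat_lit 499531) (.g (nat_lit 2994) (.e (nat_lit 163976) (nat_lit 30) (.e (nat_lit 573481) (nat_lit 13) (.e (nat_lit 65604) (nat_lit 9) (.e (nat_lit 336013) (nat_lit 2) (.e (nat_lit 90170) (nat_lit 13) (.e (nat_lit 179968) (nat_lit 19) (.e (nat_lit 114432) (nat_lit 3) .nil))))))) (.g (nat_lit 1) (.e (nat_lit 166996) (nat_lit 0) .nil) .nil))))) (.nd (nat_lit 8) (.nd (nat_lit 9) 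
(.lf (nat_lit 498891) (.g (nat_lit 3092) (.e (nat_lit 163964) (nat_lit 25) (.e (nat_lit 532501) (nat_lit 1) (.e (nat_lit 57931) (nat_lit 282) (.e (nat_lit 163869) (nat_lit 2) (.e (nat_lit 196670) (nat_lit 14) (.e (nat_lit 73746) (nat_lit 3) (.e (nat_lit 516124) (nat_lit 2) (.e (nat_lit 213033) (nat_lit 12) .nil)))))))) (.g (nat_lit 1) (.e (nat_lit 165418) (nat_lit 0) .nil) .nil))) 
(.lf (nat_lit 499403) (.g (nat_lit 3221) (.e (nat_lit 163975) (nat_lit 30) (.e (nat_lit 573492) (nat_lit 15) (.e (nat_lit 81956) (nat_lit 23) (.e (nat_lit 98356) (nat_lit 26) (.e (nat_lit 426393) (nat_lit 15) .nil))))) (.g (nat_lit 0) (.e (nat_lit 166715) (nat_lit 0) .nil) .nil)))) (.nd (nat_lit 9) 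
(.lf (nat_lit 499147) (.g (nat_lit 2232) (.e (nat_lit 163975) (nat_lit 30) (.e (nat_lit 573481) (nat_lit 13) (.e (nat_lit 65619) (nat_lit 10) (.e (nat_lit 344117) (nat_lit 21) (.e (nat_lit 516151) (nat_lit 9) (.e (nat_lit 426142) (nat_lit 4) (.e (nat_lit 229664) (nat_lit 240) (.e (nat_lit 2604) (nat_lit 163) .nil)))))))) (.g (nat_lit 1) (.e (nat_lit 166029) (nat_lit 0) .nil) .nil))) 
(.lf (nat_lit 499659) (.g (nat_lit 1977) (.e (nat_lit 163976) (nat_lit 30) (.e (nat_lit 573488) (nat_lit 14) (.e (nat_lit 73754) (nat_lit 8) (.e (nat_lit 557105) (nat_lit 14) (.e (nat_lit 180251) (nat_lit 10) .nil))))) (.g (nat_lit 0) (.e (nat_lit 167266) (nat_lit 0) .nil) .nil))))))) (.nd (nat_lit 6) (.nd (nat_lit 7) (.nd (nat_lit 8) (.nd (nat_lit 9) 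
(.lf (nat_lit 498731) (.g (nat_lit 2755) (.e (nat_lit 163962) (nat_lit 25) (.e (nat_lit 532550) (nat_lit 12) (.e (nat_lit 360475) (nat_lit 8) (.e (nat_lit 557086) (nat_lit 11) (.e (nat_lit 24583) (nat_lit 0) .nil))))) (.g (nat_lit 0) (.e (nat_lit 164929) (nat_lit 0) .nil) .nil))) 
(.lf (nat_lit 499243) (.g (nat_lit 405) (.e (nat_lit 163975) (nat_lit 30) (.e (nat_lit 573491) (nat_lit 15) (.e (nat_lit 81951) (nat_lit 22) .nil))) (.g (nat_lit 0) (.e (nat_lit 166282) (nat_lit 0) .nil) .nil)))) (.nd (nat_lit 9) 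
(.lf (nat_lit 498987) (.g (nat_lit 4591) (.e (nat_lit 163973) (nat_lit 30) (.e (nat_lit 573492) (nat_lit 15) (.e (nat_lit 81956) (nat_lit 23) (.e (nat_lit 98366) (nat_lit 27) (.e (nat_lit 434272) (nat_lit 38) (.e (nat_lit 655375) (nat_lit 3) .nil)))))) (.g (nat_lit 1) (.e (nat_lit 165728) (nat_lit 0) .nil) .nil))) 
(.lf (nat_lit 499499) (.g (nat_lit 4401) (.e (nat_lit 163975) (nat_lit 30) (.e (nat_lit 573493) (nat_lit 15) (.e (nat_lit 81956) (nat_lit 23) (.e (nat_lit 106240) (nat_lit 32) .nil)))) (.g (nat_lit 0) (.e (nat_lit 166908) (nat_lit 0) .nil) .nil))))) (.nd (nat_lit 8) (.nd (nat_lit 9) 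
(.lf (nat_lit 498859) (.g (nat_lit 2867) (.e (nat_lit 163964) (nat_lit 25) (.e (nat_lit 532501) (nat_lit 1) (.e (nat_lit 57926) (nat_lit 282) (.e (nat_lit 163868) (nat_lit 2) (.e (nat_lit 196670) (nat_lit 14) (.e (nat_lit 73746) (nat_lit 3) (.e (nat_lit 516124) (nat_lit 2) (.e (nat_lit 213035) (nat_lit 12) .nil)))))))) (.g (nat_lit 1) (.e (nat_lit 165362) (nat_lit 0) .nil) .nil))) 
(.lf (nat_lit 499371) (.g (nat_lit 2439) (.e (nat_lit 163975) (nat_lit 30) (.e (nat_lit 573492) (nat_lit 15) (.e (nat_lit 81954) (nat_lit 23) (.e (nat_lit 98386) (nat_lit 32) (.e (nat_lit 475196) (nat_lit 40) (.e (nat_lit 704590) (nat_lit 3) .nil)))))) (.g (nat_lit 1) (.e (nat_lit 166655) (nat_lit 0) .nil) .nil)))) (.nd (nat_lit 9) 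
(.lf (nat_lit 499115) (.g (nat_lit 2699) (.e (nat_lit 163975) (nat_lit 30) (.e (nat_lit 573481) (nat_lit 13) (.e (nat_lit 65619) (nat_lit 10) (.e (nat_lit 344117) (nat_lit 21) (.e (nat_lit 516144) (nat_lit 9) (.e (nat_lit 426402) (nat_lit 15) (.e (nat_lit 2046) (nat_lit 142) (.e (nat_lit 704589) (nat_lit 3) .nil)))))))) (.g (nat_lit 1) (.e (nat_lit 165996) (nat_lit 0) .nil) .nil))) 
(.lf (nat_lit 499627) (.g (nat_lit 2163) (.e (nat_lit 163976) (nat_lit 30) (.e (nat_lit 573481) (nat_lit 13) (.e (nat_lit 65619) (nat_lit 10) (.e (nat_lit 344117) (nat_lit 21) (.e (nat_lit 516178) (nat_lit 15) (.e (nat_lit 475196) (nat_lit 40) (.e (nat_lit 704589) (nat_lit 3) .nil))))))) (.g (nat_lit 1) (.e (nat_lit 167157) (nat_lit 0) .nil) .nil)))))) 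
(.nd (nat_lit 7) (.nd (nat_lit 8) (.nd (nat_lit 9) 
(.lf (nat_lit 498795) (.g (nat_lit 2752) (.e (nat_lit 163963) (nat_lit 25) (.e (nat_lit 532499) (nat_lit 1) (.e (nat_lit 57927) (nat_lit 282) (.e (nat_lit 163868) (nat_lit 2) (.e (nat_lit 196670) (nat_lit 14) (.e (nat_lit 73746) (nat_lit 3) (.e (nat_lit 516124) (nat_lit 2) (.e (nat_lit 213033) (nat_lit 12) .nil)))))))) (.g (nat_lit 1) (.e (nat_lit 165152) (nat_lit 0) .nil) .nil))) 
(.lf (nat_lit 499307) (.g (nat_lit 2389) (.e (nat_lit 163975) (nat_lit 30) (.e (nat_lit 573491) (nat_lit 15) (.e (nat_lit 81954) (nat_lit 23) (.e (nat_lit 98367) (nat_lit 27) (.e (nat_lit 434270) (nat_lit 38) (.e (nat_lit 655373) (nat_lit 3) .nil)))))) (.g (nat_lit 1) (.e (nat_lit 166440) (nat_lit 0) .nil) .nil)))) (.nd (nat_lit 9) 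
(.lf (nat_lit 499051) (.g (nat_lit 2799) (.e (nat_lit 163975) (nat_lit 30) (.e (nat_lit 573481) (nat_lit 13) (.e (nat_lit 65604) (nat_lit 9) (.e (nat_lit 336013) (nat_lit 2) (.e (nat_lit 90170) (nat_lit 13) (.e (nat_lit 172059) (nat_lit 1) (.e (nat_lit 164346) (nat_lit 240) (.e (nat_lit 2599) (nat_lit 163) .nil)))))))) (.g (nat_lit 1) (.e (nat_lit 165886) (nat_lit 0) .nil) .nil))) 
(.lf (nat_lit 499563) (.g (nat_lit 3187) (.e (nat_lit 163976) (nat_lit 30) (.e (nat_lit 573481) (nat_lit 13) (.e (nat_lit 65619) (nat_lit 10) (.e (nat_lit 344117) (nat_lit 21) (.e (nat_lit 516144) (nat_lit 9) (.e (nat_lit 426374) (nat_lit 15) (.e (nat_lit 2058) (nat_lit 142) (.e (nat_lit 704589) (nat_lit 3) .nil)))))))) (.g (nat_lit 1) (.e (nat_lit 167076) (nat_lit 0) .nil) .nil))))) 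
(.nd (nat_lit 8) (.nd (nat_lit 9) 
(.lf (nat_lit 498923) (.g (nat_lit 1360) (.e (nat_lit 163964) (nat_lit 25) (.e (nat_lit 532535) (nat_lit 9) (.e (nat_lit 336099) (nat_lit 9) .nil))) (.g (nat_lit 0) (.e (nat_lit 165522) (nat_lit 0) .nil) .nil))) 
(.lf (nat_lit 499435) (.g (nat_lit 2118) (.e (nat_lit 163975) (nat_lit 30) (.e (nat_lit 573492) (nat_lit 15) (.e (nat_lit 81956) (nat_lit 23) (.e (nat_lit 98360) (nat_lit 26) .nil)))) (.g (nat_lit 0) (.e (nat_lit 166780) (nat_lit 0) .nil) .nil)))) (.nd (nat_lit 9) 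
(.lf (nat_lit 499179) (.g (nat_lit 4549) (.e (nat_lit 163975) (nat_lit 30) (.e (nat_lit 573481) (nat_lit 13) (.e (nat_lit 65619) (nat_lit 10) (.e (nat_lit 344117) (nat_lit 21) (.e (nat_lit 516179) (nat_lit 15) (.e (nat_lit 475198) (nat_lit 40) (.e (nat_lit 704590) (nat_lit 3) .nil))))))) (.g (nat_lit 1) (.e (nat_lit 166077) (nat_lit 0) .nil) .nil))) 
(.lf (nat_lit 499691) (.g (nat_lit 2760) (.e (nat_lit 163976) (nat_lit 30) (.e (nat_lit 573489) (nat_lit 14) (.e (nat_lit 73755) (nat_lit 8) (.e (nat_lit 557105) (nat_lit 14) (.e (nat_lit 180252) (nat_lit 10) (.e (nat_lit 573473) (nat_lit 12) (.e (nat_lit 57503) (nat_lit 38) (.e (nat_lit 638994) (nat_lit 7) .nil)))))))) (.g (nat_lit 1) (.e (nat_lit 167331) (nat_lit 0) .nil) .nil)))))))) 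
(.nd (nat_lit 5) (.nd (nat_lit 6) (.nd (nat_lit 7) (.nd (nat_lit 8) (.nd (nat_lit 9) 
(.lf (nat_lit 498715) (.g (nat_lit 2761) (.e (nat_lit 163962) (nat_lit 25) (.e (nat_lit 532550) (nat_lit 12) (.e (nat_lit 360475) (nat_lit 8) (.e (nat_lit 557068) (nat_lit 9) (.e (nat_lit 288) (nat_lit 21) (.e (nat_lit 335877) (nat_lit 0) (.e (nat_lit 6713) (nat_lit 360) .nil))))))) (.g (nat_lit 1) (.e (nat_lit 164901) (nat_lit 0) .nil) .nil))) 
(.lf (nat_lit 499227) (.g (nat_lit 3112) (.e (nat_lit 163975) (nat_lit 30) (.e (nat_lit 573488) (nat_lit 14) (.e (nat_lit 73755) (nat_lit 8) (.e (nat_lit 557103) (nat_lit 14) (.e (nat_lit 180250) (nat_lit 10) (.e (nat_lit 573473) (nat_lit 12) (.e (nat_lit 57503) (nat_lit 38) (.e (nat_lit 638994) (nat_lit 7) .nil)))))))) (.g (nat_lit 1) (.e (nat_lit 166232) (nat_lit 0) .nil) .nil)))) 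
(.nd (nat_lit 9) 
(.lf (nat_lit 498971) (.g (nat_lit 2984) (.e (nat_lit 163973) (nat_lit 30) (.e (nat_lit 573489) (nat_lit 14) (.e (nat_lit 73755) (nat_lit 8) (.e (nat_lit 557105) (nat_lit 14) (.e (nat_lit 180251) (nat_lit 10) .nil))))) (.g (nat_lit 0) (.e (nat_lit 165661) (nat_lit 0) .nil) .nil))) 
(.lf (nat_lit 499483) (.g (nat_lit 6054) (.e (nat_lit 163975) (nat_lit 30) (.e (nat_lit 573493) (nat_lit 15) (.e (nat_lit 81953) (nat_lit 22) (.e (nat_lit 90166) (nat_lit 13) .nil)))) (.g (nat_lit 0) (.e (nat_lit 166884) (nat_lit 0) .nil) .nil))))) (.nd (nat_lit 8) (.nd (nat_lit 9) 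
(.lf (nat_lit 498843) (.g (nat_lit 5828) (.e (nat_lit 163963) (nat_lit 25) (.e (nat_lit 532550) (nat_lit 12) (.e (nat_lit 360475) (nat_lit 8) (.e (nat_lit 557073) (nat_lit 9) .nil)))) (.g (nat_lit 0) (.e (nat_lit 165301) (nat_lit 0) .nil) .nil))) 
(.lf (nat_lit 499355) (.g (nat_lit 6826) (.e (nat_lit 163975) (nat_lit 30) (.e (nat_lit 573492) (nat_lit 15) (.e (nat_lit 81953) (nat_lit 22) (.e (nat_lit 90169) (nat_lit 13) (.e (nat_lit 172133) (nat_lit 15) (.e (nat_lit 2059) (nat_lit 142) (.e (nat_lit 704589) (nat_lit 3) .nil))))))) (.g (nat_lit 1) (.e (nat_lit 166564) (nat_lit 0) .nil) .nil)))) (.nd (nat_lit 9) 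
(.lf (nat_lit 499099) (.g (nat_lit 5101) (.e (nat_lit 163975) (nat_lit 30) (.e (nat_lit 573481) (nat_lit 13) (.e (nat_lit 65610) (nat_lit 10) (.e (nat_lit 344117) (nat_lit 21) (.e (nat_lit 516179) (nat_lit 15) (.e (nat_lit 475199) (nat_lit 40) (.e (nat_lit 704589) (nat_lit 3) .nil))))))) (.g (nat_lit 1) (.e (nat_lit 165974) (nat_lit 0) .nil) .nil))) 
(.lf (nat_lit 499611) (.g (nat_lit 2445) (.e (nat_lit 163976) (nat_lit 30) (.e (nat_lit 573481) (nat_lit 13) (.e (nat_lit 65619) (nat_lit 10) (.e (nat_lit 344117) (nat_lit 21) (.e (nat_lit 516152) (nat_lit 9) (.e (nat_lit 426109) (nat_lit 1) (.e (nat_lit 164345) (nat_lit 240) (.e (nat_lit 2599) (nat_lit 163) .nil)))))))) (.g (nat_lit 1) (.e (nat_lit 167126) (nat_lit 0) .nil) .nil)))))) 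
(.nd (nat_lit 7) (.nd (nat_lit 8) (.nd (nat_lit 9) 
(.lf (nat_lit 498779) (.g (nat_lit 4211) (.e (nat_lit 163962) (nat_lit 25) (.e (nat_lit 532569) (nat_lit 16) (.e (nat_lit 401451) (nat_lit 12) (.e (nat_lit 475185) (nat_lit 29) (.e (nat_lit 557103) (nat_lit 14) .nil))))) (.g (nat_lit 0) (.e (nat_lit 165048) (nat_lit 0) .nil) .nil))) 
(.lf (nat_lit 499291) (.g (nat_lit 2225) (.e (nat_lit 163975) (nat_lit 30) (.e (nat_lit 573491) (nat_lit 15) (.e (nat_lit 81954) (nat_lit 23) (.e (nat_lit 98358) (nat_lit 26) (.e (nat_lit 426444) (nat_lit 19) (.e (nat_lit 114432) (nat_lit 3) .nil)))))) (.g (nat_lit 1) (.e (nat_lit 166399) (nat_lit 0) .nil) .nil)))) (.nd (nat_lit 9) 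
(.lf (nat_lit 499035) (.g (nat_lit 1048) (.e (nat_lit 163975) (nat_lit 30) (.e (nat_lit 573474) (nat_lit 12) (.e (nat_lit 57544) (nat_lit 47) .nil))) (.g (nat_lit 0) (.e (nat_lit 165844) (nat_lit 0) .nil) .nil))) 
(.lf (nat_lit 499547) (.g (nat_lit 3331) (.e (nat_lit 163976) (nat_lit 30) (.e (nat_lit 573481) (nat_lit 13) (.e (nat_lit 65609) (nat_lit 10) (.e (nat_lit 344120) (nat_lit 21) (.e (nat_lit 516179) (nat_lit 15) (.e (nat_lit 475199) (nat_lit 40) (.e (nat_lit 704589) (nat_lit 3) .nil))))))) (.g (nat_lit 1) (.e (nat_lit 167054) (nat_lit 0) .nil) .nil))))) (.nd (nat_lit 8) (.nd (nat_lit 9) 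
(.lf (nat_lit 498907) (.g (nat_lit 2037) (.e (nat_lit 163964) (nat_lit 25) (.e (nat_lit 532513) (nat_lit 3) (.e (nat_lit 114714) (nat_lit 22) (.e (nat_lit 90172) (nat_lit 14) (.e (nat_lit 180244) (nat_lit 5) (.e (nat_lit 532499) (nat_lit 1) (.e (nat_lit 57655) (nat_lit 152) (.e (nat_lit 2615) (nat_lit 163) .nil)))))))) (.g (nat_lit 1) (.e (nat_lit 165449) (nat_lit 0) .nil) .nil))) 
(.lf (nat_lit 499419) (.g (nat_lit 2686) (.e (nat_lit 163975) (nat_lit 30) (.e (nat_lit 573492) (nat_lit 15) (.e (nat_lit 81956) (nat_lit 23) (.e (nat_lit 98356) (nat_lit 26) (.e (nat_lit 433920) (nat_lit 19) (.e (nat_lit 114432) (nat_lit 3) .nil)))))) (.g (nat_lit 1) (.e (nat_lit 166731) (nat_lit 0) .nil) .nil)))) (.nd (nat_lit 9) 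
(.lf (nat_lit 499163) (.g (nat_lit 2302) (.e (nat_lit 163975) (nat_lit 30) (.e (nat_lit 573481) (nat_lit 13) (.e (nat_lit 65619) (nat_lit 10) (.e (nat_lit 344117) (nat_lit 21) (.e (nat_lit 516159) (nat_lit 10) .nil))))) (.g (nat_lit 0) (.e (nat_lit 166045) (nat_lit 0) .nil) .nil))) 
(.lf (nat_lit 499675) (.g (nat_lit 2713) (.e (nat_lit 163976) (nat_lit 30) (.e (nat_lit 573488) (nat_lit 14) (.e (nat_lit 73755) (nat_lit 8) (.e (nat_lit 557105) (nat_lit 14) (.e (nat_lit 180251) (nat_lit 10) (.e (nat_lit 573478) (nat_lit 12) (.e (nat_lit 57500) (nat_lit 37) (.e (nat_lit 630799) (nat_lit 7) .nil)))))))) (.g (nat_lit 1) (.e (nat_lit 167311) (nat_lit 0) .nil) .nil))))))) 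
(.nd (nat_lit 6) (.nd (nat_lit 7) (.nd (nat_lit 8) (.nd (nat_lit 9) 
(.lf (nat_lit 498747) (.g (nat_lit 2022) (.e (nat_lit 163962) (nat_lit 25) (.e (nat_lit 532551) (nat_lit 12) (.e (nat_lit 360467) (nat_lit 3) (.e (nat_lit 516139) (nat_lit 7) (.e (nat_lit 409616) (nat_lit 10) (.e (nat_lit 7936) (nat_lit 315) .nil)))))) (.g (nat_lit 1) (.e (nat_lit 164949) (nat_lit 0) .nil) .nil))) 
(.lf (nat_lit 499259) (.g (nat_lit 2202) (.e (nat_lit 163975) (nat_lit 30) (.e (nat_lit 573491) (nat_lit 15) (.e (nat_lit 81954) (nat_lit 23) (.e (nat_lit 98356) (nat_lit 26) (.e (nat_lit 426360) (nat_lit 15) .nil))))) (.g (nat_lit 0) (.e (nat_lit 166363) (nat_lit 0) .nil) .nil)))) (.nd (nat_lit 9) 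
(.lf (nat_lit 499003) (.g (nat_lit 2456) (.e (nat_lit 163974) (nat_lit 30) (.e (nat_lit 573482) (nat_lit 13) (.e (nat_lit 65619) (nat_lit 10) (.e (nat_lit 344117) (nat_lit 21) (.e (nat_lit 516144) (nat_lit 9) .nil))))) (.g (nat_lit 0) (.e (nat_lit 165758) (nat_lit 0) .nil) .nil))) 
(.lf (nat_lit 499515) (.g (nat_lit 3266) (.e (nat_lit 163976) (nat_lit 30) (.e (nat_lit 573481) (nat_lit 13) (.e (nat_lit 65604) (nat_lit 9) (.e (nat_lit 336013) (nat_lit 2) (.e (nat_lit 90170) (nat_lit 13) (.e (nat_lit 172035) (nat_lit 0) (.e (nat_lit 3402) (nat_lit 211) (.e (nat_lit 647180) (nat_lit 3) .nil)))))))) (.g (nat_lit 1) (.e (nat_lit 166965) (nat_lit 0) .nil) .nil))))) 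
(.nd (nat_lit 8) (.nd (nat_lit 9) 
(.lf (nat_lit 498875) (.g (nat_lit 2410) (.e (nat_lit 163964) (nat_lit 25) (.e (nat_lit 532501) (nat_lit 1) (.e (nat_lit 57927) (nat_lit 282) (.e (nat_lit 163868) (nat_lit 2) (.e (nat_lit 196670) (nat_lit 14) (.e (nat_lit 73746) (nat_lit 3) (.e (nat_lit 516126) (nat_lit 2) (.e (nat_lit 213033) (nat_lit 12) .nil)))))))) (.g (nat_lit 1) (.e (nat_lit 165389) (nat_lit 0) .nil) .nil))) 
(.lf (nat_lit 499387) (.g (nat_lit 3052) (.e (nat_lit 163975) (nat_lit 30) (.e (nat_lit 573492) (nat_lit 15) (.e (nat_lit 81956) (nat_lit 23) (.e (nat_lit 98356) (nat_lit 26) (.e (nat_lit 426360) (nat_lit 15) (.e (nat_lit 2055) (nat_lit 142) (.e (nat_lit 704589) (nat_lit 3) .nil))))))) (.g (nat_lit 1) (.e (nat_lit 166699) (nat_lit 0) .nil) .nil)))) (.nd (nat_lit 9) 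
(.lf (nat_lit 499131) (.g (nat_lit 3026) (.e (nat_lit 163975) (nat_lit 30) (.e (nat_lit 573481) (nat_lit 13) (.e (nat_lit 65619) (nat_lit 10) (.e (nat_lit 344117) (nat_lit 21) (.e (nat_lit 516148) (nat_lit 9) (.e (nat_lit 426444) (nat_lit 19) (.e (nat_lit 114432) (nat_lit 3) .nil))))))) (.g (nat_lit 1) (.e (nat_lit 166012) (nat_lit 0) .nil) .nil))) 
(.lf (nat_lit 499643) (.g (nat_lit 1978) (.e (nat_lit 163976) (nat_lit 30) (.e (nat_lit 573482) (nat_lit 13) (.e (nat_lit 65604) (nat_lit 9) (.e (nat_lit 336028) (nat_lit 3) .nil)))) (.g (nat_lit 0) (.e (nat_lit 167178) (nat_lit 0) .nil) .nil)))))) (.nd (nat_lit 7) (.nd (nat_lit 8) (.nd (nat_lit 9) 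
(.lf (nat_lit 498811) (.g (nat_lit 2323) (.e (nat_lit 163963) (nat_lit 25) (.e (nat_lit 532501) (nat_lit 1) (.e (nat_lit 57926) (nat_lit 282) (.e (nat_lit 163869) (nat_lit 2) (.e (nat_lit 196670) (nat_lit 14) (.e (nat_lit 73746) (nat_lit 3) (.e (nat_lit 516126) (nat_lit 2) (.e (nat_lit 213033) (nat_lit 12) .nil)))))))) (.g (nat_lit 1) (.e (nat_lit 165176) (nat_lit 0) .nil) .nil))) 
(.lf (nat_lit 499323) (.g (nat_lit 1937) (.e (nat_lit 163975) (nat_lit 30) (.e (nat_lit 573491) (nat_lit 15) (.e (nat_lit 81955) (nat_lit 23) (.e (nat_lit 98358) (nat_lit 26) (.e (nat_lit 426444) (nat_lit 19) .nil))))) (.g (nat_lit 0) (.e (nat_lit 166463) (nat_lit 0) .nil) .nil)))) (.nd (nat_lit 9) 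
(.lf (nat_lit 499067) (.g (nat_lit 1835) (.e (nat_lit 163975) (nat_lit 30) (.e (nat_lit 573481) (nat_lit 13) (.e (nat_lit 65604) (nat_lit 9) (.e (nat_lit 336013) (nat_lit 2) (.e (nat_lit 90170) (nat_lit 13) (.e (nat_lit 172070) (nat_lit 4) (.e (nat_lit 229666) (nat_lit 240) (.e (nat_lit 2603) (nat_lit 163) .nil)))))))) (.g (nat_lit 1) (.e (nat_lit 165903) (nat_lit 0) .nil) .nil))) 
(.lf (nat_lit 499579) (.g (nat_lit 1945) (.e (nat_lit 163976) (nat_lit 30) (.e (nat_lit 573481) (nat_lit 13) (.e (nat_lit 65619) (nat_lit 10) (.e (nat_lit 344117) (nat_lit 21) (.e (nat_lit 516147) (nat_lit 9) .nil))))) (.g (nat_lit 0) (.e (nat_lit 167092) (nat_lit 0) .nil) .nil))))) (.nd (nat_lit 8) (.nd (nat_lit 9) 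
(.lf (nat_lit 498939) (.g (nat_lit 1771) (.e (nat_lit 163965) (nat_lit 25) (.e (nat_lit 532501) (nat_lit 1) (.e (nat_lit 57926) (nat_lit 282) (.e (nat_lit 163871) (nat_lit 2) .nil)))) (.g (nat_lit 0) (.e (nat_lit 165582) (nat_lit 0) .nil) .nil))) 
(.lf (nat_lit 499451) (.g (nat_lit 3905) (.e (nat_lit 163975) (nat_lit 30) (.e (nat_lit 573492) (nat_lit 15) (.e (nat_lit 81956) (nat_lit 23) (.e (nat_lit 98367) (nat_lit 27) (.e (nat_lit 434271) (nat_lit 38) (.e (nat_lit 655373) (nat_lit 3) .nil)))))) (.g (nat_lit 1) (.e (nat_lit 166825) (nat_lit 0) .nil) .nil)))) (.nd (nat_lit 9) 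
(.lf (nat_lit 499195) (.g (nat_lit 2360) (.e (nat_lit 163975) (nat_lit 30) (.e (nat_lit 573481) (nat_lit 13) (.e (nat_lit 65619) (nat_lit 10) (.e (nat_lit 344117) (nat_lit 21) (.e (nat_lit 516182) (nat_lit 15) (.e (nat_lit 475199) (nat_lit 40) (.e (nat_lit 704590) (nat_lit 3) .nil))))))) (.g (nat_lit 1) (.e (nat_lit 166093) (nat_lit 0) .nil) .nil))) 
(.lf (nat_lit 499707) (.g (nat_lit 388) (.e (nat_lit 163976) (nat_lit 30) (.e (nat_lit 573491) (nat_lit 15) (.e (nat_lit 81954) (nat_lit 23) .nil))) (.g (nat_lit 0) (.e (nat_lit 167421) (nat_lit 0) .nil) .nil)))))))))) (.nd (nat_lit 3) (.nd (nat_lit 4) (.nd (nat_lit 5) (.nd (nat_lit 6) (.nd (nat_lit 7) (.nd (nat_lit 8) (.nd (nat_lit 9) 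
(.lf (nat_lit 498695) (.g (nat_lit 1491) (.e (nat_lit 163962) (nat_lit 25) (.e (nat_lit 532550) (nat_lit 12) (.e (nat_lit 360474) (nat_lit 8) (.e (nat_lit 557072) (nat_lit 9) (.e (nat_lit 7936) (nat_lit 21) .nil))))) (.g (nat_lit 0) (.e (nat_lit 164867) (nat_lit 0) .nil) .nil))) 
(.lf (nat_lit 499207) (.g (nat_lit 2022) (.e (nat_lit 163975) (nat_lit 30) (.e (nat_lit 573482) (nat_lit 13) (.e (nat_lit 65619) (nat_lit 10) (.e (nat_lit 344117) (nat_lit 21) .nil)))) (.g (nat_lit 0) (.e (nat_lit 166112) (nat_lit 0) .nil) .nil)))) (.nd (nat_lit 9) 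
(.lf (nat_lit 498951) (.g (nat_lit 1688) (.e (nat_lit 163959) (nat_lit 24) (.e (nat_lit 524320) (nat_lit 12) (.e (nat_lit 450579) (nat_lit 5) (.e (nat_lit 532530) (nat_lit 9) (.e (nat_lit 336257) (nat_lit 15) (.e (nat_lit 3604) (nat_lit 225) (.e (nat_lit 761898) (nat_lit 15) .nil))))))) (.g (nat_lit 1) (.e (nat_lit 165623) (nat_lit 0) .nil) .nil))) 
(.lf (nat_lit 499463) (.g (nat_lit 5272) (.e (nat_lit 163975) (nat_lit 30) (.e (nat_lit 573492) (nat_lit 15) (.e (nat_lit 81956) (nat_lit 23) (.e (nat_lit 98384) (nat_lit 32) (.e (nat_lit 475198) (nat_lit 40) (.e (nat_lit 704590) (nat_lit 3) .nil)))))) (.g (nat_lit 1) (.e (nat_lit 166852) (nat_lit 0) .nil) .nil))))) (.nd (nat_lit 8) (.nd (nat_lit 9) 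
(.lf (nat_lit 498823) (.g (nat_lit 1966) (.e (nat_lit 163963) (nat_lit 25) (.e (nat_lit 532504) (nat_lit 1) (.e (nat_lit 57852) (nat_lit 252) (.e (nat_lit 57378) (nat_lit 3) .nil)))) (.g (nat_lit 0) (.e (nat_lit 165201) (nat_lit 0) .nil) .nil))) 
(.lf (nat_lit 499335) (.g (nat_lit 2600) (.e (nat_lit 163975) (nat_lit 30) (.e (nat_lit 573491) (nat_lit 15) (.e (nat_lit 81956) (nat_lit 23) (.e (nat_lit 98356) (nat_lit 26) (.e (nat_lit 426416) (nat_lit 15) .nil))))) (.g (nat_lit 0) (.e (nat_lit 166475) (nat_lit 0) .nil) .nil)))) (.nd (nat_lit 9) 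
(.lf (nat_lit 499079) (.g (nat_lit 1763) (.e (nat_lit 163975) (nat_lit 30) (.e (nat_lit 573481) (nat_lit 13) (.e (nat_lit 65604) (nat_lit 9) (.e (nat_lit 336028) (nat_lit 3) (.e (nat_lit 106240) (nat_lit 26) .nil))))) (.g (nat_lit 0) (.e (nat_lit 165945) (nat_lit 0) .nil) .nil))) 
(.lf (nat_lit 499591) (.g (nat_lit 3550) (.e (nat_lit 163976) (nat_lit 30) (.e (nat_lit 573481) (nat_lit 13) (.e (nat_lit 65619) (nat_lit 10) (.e (nat_lit 344117) (nat_lit 21) (.e (nat_lit 516151) (nat_lit 9) (.e (nat_lit 426025) (nat_lit 0) (.e (nat_lit 3399) (nat_lit 211) (.e (nat_lit 647180) (nat_lit 3) .nil)))))))) (.g (nat_lit 1) (.e (nat_lit 167104) (nat_lit 0) .nil) .nil)))))) 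
(.nd (nat_lit 7) (.nd (nat_lit 8) (.nd (nat_lit 9) 
(.lf (nat_lit 498759) (.g (nat_lit 2824) (.e (nat_lit 163962) (nat_lit 25) (.e (nat_lit 532559) (nat_lit 14) (.e (nat_lit 376869) (nat_lit 23) (.e (nat_lit 98350) (nat_lit 24) (.e (nat_lit 409617) (nat_lit 10) (.e (nat_lit 5762) (nat_lit 315) .nil)))))) (.g (nat_lit 1) (.e (nat_lit 164984) (nat_lit 0) .nil) .nil))) 
(.lf (nat_lit 499271) (.g (nat_lit 2118) (.e (nat_lit 163975) (nat_lit 30) (.e (nat_lit 573491) (nat_lit 15) (.e (nat_lit 81954) (nat_lit 23) (.e (nat_lit 98356) (nat_lit 26) (.e (nat_lit 426379) (nat_lit 15) .nil))))) (.g (nat_lit 0) (.e (nat_lit 166375) (nat_lit 0) .nil) .nil)))) (.nd (nat_lit 9) 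
(.lf (nat_lit 499015) (.g (nat_lit 741) (.e (nat_lit 163974) (nat_lit 30) (.e (nat_lit 573492) (nat_lit 15) (.e (nat_lit 81956) (nat_lit 23) .nil))) (.g (nat_lit 0) (.e (nat_lit 165778) (nat_lit 0) .nil) .nil))) 
(.lf (nat_lit 499527) (.g (nat_lit 3227) (.e (nat_lit 163976) (nat_lit 30) (.e (nat_lit 573481) (nat_lit 13) (.e (nat_lit 65604) (nat_lit 9) (.e (nat_lit 336013) (nat_lit 2) (.e (nat_lit 90170) (nat_lit 13) (.e (nat_lit 172061) (nat_lit 1) (.e (nat_lit 164345) (nat_lit 240) (.e (nat_lit 2600) (nat_lit 163) .nil)))))))) (.g (nat_lit 1) (.e (nat_lit 166985) (nat_lit 0) .nil) .nil))))) 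
(.nd (nat_lit 8) (.nd (nat_lit 9) 
(.lf (nat_lit 498887) (.g (nat_lit 2525) (.e (nat_lit 163964) (nat_lit 25) (.e (nat_lit 532501) (nat_lit 1) (.e (nat_lit 57928) (nat_lit 282) (.e (nat_lit 163868) (nat_lit 2) (.e (nat_lit 196670) (nat_lit 14) .nil))))) (.g (nat_lit 0) (.e (nat_lit 165406) (nat_lit 0) .nil) .nil))) 
(.lf (nat_lit 499399) (.g (nat_lit 3264) (.e (nat_lit 163975) (nat_lit 30) (.e (nat_lit 573492) (nat_lit 15) (.e (nat_lit 81956) (nat_lit 23) (.e (nat_lit 98356) (nat_lit 26) (.e (nat_lit 426377) (nat_lit 15) .nil))))) (.g (nat_lit 0) (.e (nat_lit 166711) (nat_lit 0) .nil) .nil)))) (.nd (nat_lit 9) 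
(.lf (nat_lit 499143) (.g (nat_lit 3094) (.e (nat_lit 163975) (nat_lit 30) (.e (nat_lit 573481) (nat_lit 13) (.e (nat_lit 65619) (nat_lit 10) (.e (nat_lit 344117) (nat_lit 21) (.e (nat_lit 516151) (nat_lit 9) (.e (nat_lit 426097) (nat_lit 1) (.e (nat_lit 164347) (nat_lit 240) (.e (nat_lit 2599) (nat_lit 163) .nil)))))))) (.g (nat_lit 1) (.e (nat_lit 166024) (nat_lit 0) .nil) .nil))) 
(.lf (nat_lit 499655) (.g (nat_lit 2901) (.e (nat_lit 163976) (nat_lit 30) (.e (nat_lit 573487) (nat_lit 14) (.e (nat_lit 73753) (nat_lit 8) (.e (nat_lit 557105) (nat_lit 14) (.e (nat_lit 180252) (nat_lit 10) (.e (nat_lit 573473) (nat_lit 12) (.e (nat_lit 57503) (nat_lit 38) (.e (nat_lit 638994) (nat_lit 7) .nil)))))))) (.g (nat_lit 1) (.e (nat_lit 167248) (nat_lit 0) .nil) .nil))))))) 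
(.nd (nat_lit 6) (.nd (nat_lit 7) (.nd (nat_lit 8) (.nd (nat_lit 9) 
(.lf (nat_lit 498727) (.g (nat_lit 2475) (.e (nat_lit 163962) (nat_lit 25) (.e (nat_lit 532550) (nat_lit 12) (.e (nat_lit 360475) (nat_lit 8) (.e (nat_lit 557085) (nat_lit 11) .nil)))) (.g (nat_lit 0) (.e (nat_lit 164925) (nat_lit 0) .nil) .nil))) 
(.lf (nat_lit 499239) (.g (nat_lit 2196) (.e (nat_lit 163975) (nat_lit 30) (.e (nat_lit 573489) (nat_lit 14) (.e (nat_lit 73755) (nat_lit 8) (.e (nat_lit 557105) (nat_lit 14) .nil)))) (.g (nat_lit 0) (.e (nat_lit 166266) (nat_lit 0) .nil) .nil)))) (.nd (nat_lit 9) 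
(.lf (nat_lit 498983) (.g (nat_lit 2510) (.e (nat_lit 163973) (nat_lit 30) (.e (nat_lit 573492) (nat_lit 15) (.e (nat_lit 81956) (nat_lit 23) (.e (nat_lit 98366) (nat_lit 27) .nil)))) (.g (nat_lit 0) (.e (nat_lit 165724) (nat_lit 0) .nil) .nil))) 
(.lf (nat_lit 499495) (.g (nat_lit 4204) (.e (nat_lit 163975) (nat_lit 30) (.e (nat_lit 573493) (nat_lit 15) (.e (nat_lit 81956) (nat_lit 23) (.e (nat_lit 98383) (nat_lit 32) .nil)))) (.g (nat_lit 0) (.e (nat_lit 166904) (nat_lit 0) .nil) .nil))))) (.nd (nat_lit 8) (.nd (nat_lit 9) 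
(.lf (nat_lit 498855) (.g (nat_lit 3094) (.e (nat_lit 163964) (nat_lit 25) (.e (nat_lit 532499) (nat_lit 1) (.e (nat_lit 57931) (nat_lit 282) (.e (nat_lit 163869) (nat_lit 2) (.e (nat_lit 196670) (nat_lit 14) (.e (nat_lit 73746) (nat_lit 3) (.e (nat_lit 516122) (nat_lit 2) (.e (nat_lit 213035) (nat_lit 12) .nil)))))))) (.g (nat_lit 1) (.e (nat_lit 165349) (nat_lit 0) .nil) .nil))) 
(.lf (nat_lit 499367) (.g (nat_lit 2667) (.e (nat_lit 163975) (nat_lit 30) (.e (nat_lit 573492) (nat_lit 15) (.e (nat_lit 81954) (nat_lit 23) (.e (nat_lit 98384) (nat_lit 32) (.e (nat_lit 475198) (nat_lit 40) .nil))))) (.g (nat_lit 0) (.e (nat_lit 166651) (nat_lit 0) .nil) .nil)))) (.nd (nat_lit 9) 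
(.lf (nat_lit 499111) (.g (nat_lit 3415) (.e (nat_lit 163975) (nat_lit 30) (.e (nat_lit 573481) (nat_lit 13) (.e (nat_lit 65619) (nat_lit 10) (.e (nat_lit 344117) (nat_lit 21) (.e (nat_lit 516144) (nat_lit 9) (.e (nat_lit 426393) (nat_lit 15) (.e (nat_lit 2056) (nat_lit 142) (.e (nat_lit 704589) (nat_lit 3) .nil)))))))) (.g (nat_lit 1) (.e (nat_lit 165992) (nat_lit 0) .nil) .nil))) 
(.lf (nat_lit 499623) (.g (nat_lit 4112) (.e (nat_lit 163976) (nat_lit 30) (.e (nat_lit 573481) (nat_lit 13) (.e (nat_lit 65619) (nat_lit 10) (.e (nat_lit 344117) (nat_lit 21) (.e (nat_lit 516160) (nat_lit 10) (.e (nat_lit 434209) (nat_lit 18) (.e (nat_lit 5547) (nat_lit 306) (.e (nat_lit 2601) (nat_lit 163) .nil)))))))) (.g (nat_lit 1) (.e (nat_lit 167140) (nat_lit 0) .nil) .nil)))))) 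
(.nd (nat_lit 7) (.nd (nat_lit 8) (.nd (nat_lit 9) 
(.lf (nat_lit 498791) (.g (nat_lit 3184) (.e (nat_lit 163963) (nat_lit 25) (.e (nat_lit 532499) (nat_lit 1) (.e (nat_lit 57926) (nat_lit 282) (.e (nat_lit 163869) (nat_lit 2) (.e (nat_lit 196670) (nat_lit 14) (.e (nat_lit 73746) (nat_lit 3) (.e (nat_lit 516127) (nat_lit 2) (.e (nat_lit 213035) (nat_lit 12) .nil)))))))) (.g (nat_lit 1) (.e (nat_lit 165137) (nat_lit 0) .nil) .nil))) 
(.lf (nat_lit 499303) (.g (nat_lit 2519) (.e (nat_lit 163975) (nat_lit 30) (.e (nat_lit 573491) (nat_lit 15) (.e (nat_lit 81954) (nat_lit 23) (.e (nat_lit 98365) (nat_lit 26) (.e (nat_lit 426413) (nat_lit 15) .nil))))) (.g (nat_lit 0) (.e (nat_lit 166430) (nat_lit 0) .nil) .nil)))) (.nd (nat_lit 9) 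
(.lf (nat_lit 499047) (.g (nat_lit 3803) (.e (nat_lit 163975) (nat_lit 30) (.e (nat_lit 573481) (nat_lit 13) (.e (nat_lit 65604) (nat_lit 9) (.e (nat_lit 336013) (nat_lit 2) (.e (nat_lit 90170) (nat_lit 13) (.e (nat_lit 172042) (nat_lit 0) (.e (nat_lit 3409) (nat_lit 212) (.e (nat_lit 655373) (nat_lit 3) .nil)))))))) (.g (nat_lit 1) (.e (nat_lit 165877) (nat_lit 0) .nil) .nil))) 
(.lf (nat_lit 499559) (.g (nat_lit 3651) (.e (nat_lit 163976) (nat_lit 30) (.e (nat_lit 573481) (nat_lit 13) (.e (nat_lit 65619) (nat_lit 10) (.e (nat_lit 344117) (nat_lit 21) (.e (nat_lit 516143) (nat_lit 9) (.e (nat_lit 426109) (nat_lit 1) (.e (nat_lit 164347) (nat_lit 240) (.e (nat_lit 2601) (nat_lit 163) .nil)))))))) (.g (nat_lit 1) (.e (nat_lit 167072) (nat_lit 0) .nil) .nil))))) 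
(.nd (nat_lit 8) (.nd (nat_lit 9) 
(.lf (nat_lit 498919) (.g (nat_lit 3998) (.e (nat_lit 163964) (nat_lit 25) (.e (nat_lit 532534) (nat_lit 9) (.e (nat_lit 336019) (nat_lit 3) (.e (nat_lit 98342) (nat_lit 20) (.e (nat_lit 221210) (nat_lit 22) (.e (nat_lit 196658) (nat_lit 12) (.e (nat_lit 57508) (nat_lit 39) (.e (nat_lit 647181) (nat_lit 3) .nil)))))))) (.g (nat_lit 1) (.e (nat_lit 165512) (nat_lit 0) .nil) .nil))) 
(.lf (nat_lit 499431) (.g (nat_lit 2663) (.e (nat_lit 163975) (nat_lit 30) (.e (nat_lit 573492) (nat_lit 15) (.e (nat_lit 81956) (nat_lit 23) (.e (nat_lit 98359) (nat_lit 26) (.e (nat_lit 426414) (nat_lit 15) .nil))))) (.g (nat_lit 0) (.e (nat_lit 166774) (nat_lit 0) .nil) .nil)))) (.nd (nat_lit 9) 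
(.lf (nat_lit 499175) (.g (nat_lit 3533) (.e (nat_lit 163975) (nat_lit 30) (.e (nat_lit 573481) (nat_lit 13) (.e (nat_lit 65619) (nat_lit 10) (.e (nat_lit 344117) (nat_lit 21) (.e (nat_lit 516178) (nat_lit 15) (.e (nat_lit 475196) (nat_lit 40) (.e (nat_lit 704590) (nat_lit 3) .nil))))))) (.g (nat_lit 1) (.e (nat_lit 166073) (nat_lit 0) .nil) .nil))) 
(.lf (nat_lit 499687) (.g (nat_lit 2834) (.e (nat_lit 163976) (nat_lit 30) (.e (nat_lit 573489) (nat_lit 14) (.e (nat_lit 73755) (nat_lit 8) (.e (nat_lit 557105) (nat_lit 14) (.e (nat_lit 180251) (nat_lit 10) .nil))))) (.g (nat_lit 0) (.e (nat_lit 167327) (nat_lit 0) .nil) .nil)))))))) (.nd (nat_lit 5) (.nd (nat_lit 6) (.nd (nat_lit 7) (.nd (nat_lit 8) (.nd (nat_lit 9) 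
(.lf (nat_lit 498711) (.g (nat_lit 3978) (.e (nat_lit 163962) (nat_lit 25) (.e (nat_lit 532550) (nat_lit 12) (.e (nat_lit 360475) (nat_lit 8) (.e (nat_lit 557067) (nat_lit 9) (.e (nat_lit 220) (nat_lit 20) (.e (nat_lit 327681) (nat_lit 0) (.e (nat_lit 5762) (nat_lit 315) .nil))))))) (.g (nat_lit 1) (.e (nat_lit 164891) (nat_lit 0) .nil) .nil))) 
(.lf (nat_lit 499223) (.g (nat_lit 2369) (.e (nat_lit 163975) (nat_lit 30) (.e (nat_lit 573487) (nat_lit 14) (.e (nat_lit 73754) (nat_lit 8) (.e (nat_lit 557105) (nat_lit 14) (.e (nat_lit 180252) (nat_lit 10) (.e (nat_lit 573475) (nat_lit 12) (.e (nat_lit 57504) (nat_lit 38) (.e (nat_lit 638994) (nat_lit 7) .nil)))))))) (.g (nat_lit 1) (.e (nat_lit 166186) (nat_lit 0) .nil) .nil)))) 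
(.nd (nat_lit 9) 
(.lf (nat_lit 498967) (.g (nat_lit 3687) (.e (nat_lit 163973) (nat_lit 30) (.e (nat_lit 573484) (nat_lit 13) (.e (nat_lit 65610) (nat_lit 10) (.e (nat_lit 344117) (nat_lit 21) (.e (nat_lit 516179) (nat_lit 15) (.e (nat_lit 475198) (nat_lit 40) (.e (nat_lit 704590) (nat_lit 3) .nil))))))) (.g (nat_lit 1) (.e (nat_lit 165655) (nat_lit 0) .nil) .nil))) 
(.lf (nat_lit 499479) (.g (nat_lit 5064) (.e (nat_lit 163975) (nat_lit 30) (.e (nat_lit 573492) (nat_lit 15) (.e (nat_lit 81956) (nat_lit 23) (.e (nat_lit 98386) (nat_lit 32) (.e (nat_lit 475198) (nat_lit 40) (.e (nat_lit 704590) (nat_lit 3) .nil)))))) (.g (nat_lit 1) (.e (nat_lit 166868) (nat_lit 0) .nil) .nil))))) (.nd (nat_lit 8) (.nd (nat_lit 9) 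
(.lf (nat_lit 498839) (.g (nat_lit 4116) (.e (nat_lit 163963) (nat_lit 25) (.e (nat_lit 532550) (nat_lit 12) (.e (nat_lit 360474) (nat_lit 8) (.e (nat_lit 557072) (nat_lit 9) .nil)))) (.g (nat_lit 0) (.e (nat_lit 165297) (nat_lit 0) .nil) .nil))) 
(.lf (nat_lit 499351) (.g (nat_lit 3139) (.e (nat_lit 163975) (nat_lit 30) (.e (nat_lit 573492) (nat_lit 15) (.e (nat_lit 81953) (nat_lit 22) (.e (nat_lit 90166) (nat_lit 13) .nil)))) (.g (nat_lit 0) (.e (nat_lit 166560) (nat_lit 0) .nil) .nil)))) (.nd (nat_lit 9) 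
(.lf (nat_lit 499095) (.g (nat_lit 4079) (.e (nat_lit 163975) (nat_lit 30) (.e (nat_lit 573481) (nat_lit 13) (.e (nat_lit 65609) (nat_lit 10) (.e (nat_lit 344118) (nat_lit 21) (.e (nat_lit 516179) (nat_lit 15) (.e (nat_lit 475199) (nat_lit 40) (.e (nat_lit 704589) (nat_lit 3) .nil))))))) (.g (nat_lit 1) (.e (nat_lit 165970) (nat_lit 0) .nil) .nil))) 
(.lf (nat_lit 499607) (.g (nat_lit 2710) (.e (nat_lit 163976) (nat_lit 30) (.e (nat_lit 573481) (nat_lit 13) (.e (nat_lit 65619) (nat_lit 10) (.e (nat_lit 344117) (nat_lit 21) (.e (nat_lit 516151) (nat_lit 9) (.e (nat_lit 433920) (nat_lit 24) (.e (nat_lit 163584) (nat_lit 3) .nil))))))) (.g (nat_lit 1) (.e (nat_lit 167122) (nat_lit 0) .nil) .nil)))))) 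
(.nd (nat_lit 7) (.nd (nat_lit 8) (.nd (nat_lit 9) 
(.lf (nat_lit 498775) (.g (nat_lit 2621) (.e (nat_lit 163962) (nat_lit 25) (.e (nat_lit 532569) (nat_lit 16) (.e (nat_lit 401448) (nat_lit 10) (.e (nat_lit 434232) (nat_lit 23) (.e (nat_lit 532486) (nat_lit 0) .nil))))) (.g (nat_lit 0) (.e (nat_lit 165041) (nat_lit 0) .nil) .nil))) 
(.lf (nat_lit 499287) (.g (nat_lit 1837) (.e (nat_lit 163975) (nat_lit 30) (.e (nat_lit 573491) (nat_lit 15) (.e (nat_lit 81954) (nat_lit 23) (.e (nat_lit 98356) (nat_lit 26) (.e (nat_lit 433920) (nat_lit 19) (.e (nat_lit 114432) (nat_lit 3) .nil)))))) (.g (nat_lit 1) (.e (nat_lit 166391) (nat_lit 0) .nil) .nil)))) (.nd (nat_lit 9) 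
(.lf (nat_lit 499031) (.g (nat_lit 2156) (.e (nat_lit 163975) (nat_lit 30) (.e (nat_lit 573471) (nat_lit 11) (.e (nat_lit 16466) (nat_lit 13) (.e (nat_lit 483370) (nat_lit 20) .nil)))) (.g (nat_lit 0) (.e (nat_lit 165833) (nat_lit 0) .nil) .nil))) 
(.lf (nat_lit 499543) (.g (nat_lit 3281) (.e (nat_lit 163976) (nat_lit 30) (.e (nat_lit 573481) (nat_lit 13) (.e (nat_lit 65604) (nat_lit 9) (.e (nat_lit 336028) (nat_lit 3) (.e (nat_lit 98383) (nat_lit 32) (.e (nat_lit 475198) (nat_lit 40) (.e (nat_lit 704589) (nat_lit 3) .nil))))))) (.g (nat_lit 1) (.e (nat_lit 167050) (nat_lit 0) .nil) .nil))))) (.nd (nat_lit 8) (.nd (nat_lit 9) 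
(.lf (nat_lit 498903) (.g (nat_lit 1431) (.e (nat_lit 163964) (nat_lit 25) (.e (nat_lit 532513) (nat_lit 3) (.e (nat_lit 114714) (nat_lit 22) (.e (nat_lit 90167) (nat_lit 13) .nil)))) (.g (nat_lit 0) (.e (nat_lit 165435) (nat_lit 0) .nil) .nil))) 
(.lf (nat_lit 499415) (.g (nat_lit 2822) (.e (nat_lit 163975) (nat_lit 30) (.e (nat_lit 573492) (nat_lit 15) (.e (nat_lit 81956) (nat_lit 23) (.e (nat_lit 98356) (nat_lit 26) (.e (nat_lit 426439) (nat_lit 19) (.e (nat_lit 114432) (nat_lit 3) .nil)))))) (.g (nat_lit 1) (.e (nat_lit 166727) (nat_lit 0) .nil) .nil)))) (.nd (nat_lit 9) 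
(.lf (nat_lit 499159) (.g (nat_lit 2816) (.e (nat_lit 163975) (nat_lit 30) (.e (nat_lit 573481) (nat_lit 13) (.e (nat_lit 65619) (nat_lit 10) (.e (nat_lit 344117) (nat_lit 21) (.e (nat_lit 516152) (nat_lit 9) (.e (nat_lit 426109) (nat_lit 1) (.e (nat_lit 164347) (nat_lit 240) (.e (nat_lit 2601) (nat_lit 163) .nil)))))))) (.g (nat_lit 1) (.e (nat_lit 166041) (nat_lit 0) .nil) .nil))) 
(.lf (nat_lit 499671) (.g (nat_lit 1715) (.e (nat_lit 163976) (nat_lit 30) (.e (nat_lit 573488) (nat_lit 14) (.e (nat_lit 73755) (nat_lit 8) (.e (nat_lit 557104) (nat_lit 14) (.e (nat_lit 180244) (nat_lit 5) .nil))))) (.g (nat_lit 0) (.e (nat_lit 167296) (nat_lit 0) .nil) .nil))))))) (.nd (nat_lit 6) (.nd (nat_lit 7) (.nd (nat_lit 8) (.nd (nat_lit 9) 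
(.lf (nat_lit 498743) (.g (nat_lit 3809) (.e (nat_lit 163962) (nat_lit 25) (.e (nat_lit 532550) (nat_lit 12) (.e (nat_lit 360475) (nat_lit 8) (.e (nat_lit 557089) (nat_lit 12) (.e (nat_lit 163844) (nat_lit 0) .nil))))) (.g (nat_lit 0) (.e (nat_lit 164941) (nat_lit 0) .nil) .nil))) 
(.lf (nat_lit 499255) (.g (nat_lit 1100) (.e (nat_lit 163975) (nat_lit 30) (.e (nat_lit 573491) (nat_lit 15) (.e (nat_lit 81954) (nat_lit 23) (.e (nat_lit 98356) (nat_lit 26) .nil)))) (.g (nat_lit 0) (.e (nat_lit 166357) (nat_lit 0) .nil) .nil)))) (.nd (nat_lit 9) 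
(.lf (nat_lit 498999) (.g (nat_lit 674) (.e (nat_lit 163974) (nat_lit 30) (.e (nat_lit 573481) (nat_lit 13) (.e (nat_lit 65619) (nat_lit 10) .nil))) (.g (nat_lit 0) (.e (nat_lit 165754) (nat_lit 0) .nil) .nil))) 
(.lf (nat_lit 499511) (.g (nat_lit 1478) (.e (nat_lit 163976) (nat_lit 30) (.e (nat_lit 573481) (nat_lit 13) (.e (nat_lit 65604) (nat_lit 9) (.e (nat_lit 336013) (nat_lit 2) (.e (nat_lit 90170) (nat_lit 13) .nil))))) (.g (nat_lit 0) (.e (nat_lit 166961) (nat_lit 0) .nil) .nil))))) (.nd (nat_lit 8) (.nd (nat_lit 9) 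
(.lf (nat_lit 498871) (.g (nat_lit 3250) (.e (nat_lit 163964) (nat_lit 25) (.e (nat_lit 532501) (nat_lit 1) (.e (nat_lit 57926) (nat_lit 282) (.e (nat_lit 163875) (nat_lit 3) (.e (nat_lit 204862) (nat_lit 27) (.e (nat_lit 344117) (nat_lit 21) (.e (nat_lit 516122) (nat_lit 2) (.e (nat_lit 213035) (nat_lit 12) .nil)))))))) (.g (nat_lit 1) (.e (nat_lit 165379) (nat_lit 0) .nil) .nil))) 
(.lf (nat_lit 499383) (.g (nat_lit 3051) (.e (nat_lit 163975) (nat_lit 30) (.e (nat_lit 573492) (nat_lit 15) (.e (nat_lit 81956) (nat_lit 23) (.e (nat_lit 98356) (nat_lit 26) (.e (nat_lit 426360) (nat_lit 15) (.e (nat_lit 2048) (nat_lit 142) (.e (nat_lit 704589) (nat_lit 3) .nil))))))) (.g (nat_lit 1) (.e (nat_lit 166695) (nat_lit 0) .nil) .nil)))) (.nd (nat_lit 9) 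
(.lf (nat_lit 499127) (.g (nat_lit 2117) (.e (nat_lit 163975) (nat_lit 30) (.e (nat_lit 573481) (nat_lit 13) (.e (nat_lit 65619) (nat_lit 10) (.e (nat_lit 344117) (nat_lit 21) (.e (nat_lit 516147) (nat_lit 9) .nil))))) (.g (nat_lit 0) (.e (nat_lit 166008) (nat_lit 0) .nil) .nil))) 
(.lf (nat_lit 499639) (.g (nat_lit 2279) (.e (nat_lit 163976) (nat_lit 30) (.e (nat_lit 573481) (nat_lit 13) (.e (nat_lit 65619) (nat_lit 10) (.e (nat_lit 344119) (nat_lit 21) (.e (nat_lit 516182) (nat_lit 15) (.e (nat_lit 475198) (nat_lit 40) (.e (nat_lit 704589) (nat_lit 3) .nil))))))) (.g (nat_lit 1) (.e (nat_lit 167169) (nat_lit 0) .nil) .nil)))))) 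
(.nd (nat_lit 7) (.nd (nat_lit 8) (.nd (nat_lit 9) 
(.lf (nat_lit 498807) (.g (nat_lit 3783) (.e (nat_lit 163963) (nat_lit 25) (.e (nat_lit 532499) (nat_lit 1) (.e (nat_lit 57931) (nat_lit 282) (.e (nat_lit 163869) (nat_lit 2) (.e (nat_lit 196670) (nat_lit 14) (.e (nat_lit 73746) (nat_lit 3) (.e (nat_lit 516124) (nat_lit 2) (.e (nat_lit 213034) (nat_lit 12) .nil)))))))) (.g (nat_lit 1) (.e (nat_lit 165172) (nat_lit 0) .nil) .nil))) 
(.lf (nat_lit 499319) (.g (nat_lit 1472) (.e (nat_lit 163975) (nat_lit 30) (.e (nat_lit 573491) (nat_lit 15) (.e (nat_lit 81954) (nat_lit 23) (.e (nat_lit 98385) (nat_lit 32) (.e (nat_lit 475201) (nat_lit 40) .nil))))) (.g (nat_lit 0) (.e (nat_lit 166459) (nat_lit 0) .nil) .nil)))) (.nd (nat_lit 9) 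
(.lf (nat_lit 499063) (.g (nat_lit 2048) (.e (nat_lit 163975) (nat_lit 30) (.e (nat_lit 573481) (nat_lit 13) (.e (nat_lit 65604) (nat_lit 9) (.e (nat_lit 336013) (nat_lit 2) (.e (nat_lit 90170) (nat_lit 13) (.e (nat_lit 172068) (nat_lit 4) (.e (nat_lit 229664) (nat_lit 240) (.e (nat_lit 2604) (nat_lit 163) .nil)))))))) (.g (nat_lit 1) (.e (nat_lit 165898) (nat_lit 0) .nil) .nil))) 
(.lf (nat_lit 499575) (.g (nat_lit 3396) (.e (nat_lit 163976) (nat_lit 30) (.e (nat_lit 573481) (nat_lit 13) (.e (nat_lit 65619) (nat_lit 10) (.e (nat_lit 344117) (nat_lit 21) (.e (nat_lit 516145) (nat_lit 9) (.e (nat_lit 426416) (nat_lit 15) (.e (nat_lit 2056) (nat_lit 142) (.e (nat_lit 704589) (nat_lit 3) .nil)))))))) (.g (nat_lit 1) (.e (nat_lit 167088) (nat_lit 0) .nil) .nil))))) 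
(.nd (nat_lit 8) (.nd (nat_lit 9) 
(.lf (nat_lit 498935) (.g (nat_lit 2614) (.e (nat_lit 163965) (nat_lit 25) (.e (nat_lit 532499) (nat_lit 1) (.e (nat_lit 57927) (nat_lit 282) (.e (nat_lit 163871) (nat_lit 2) (.e (nat_lit 196670) (nat_lit 14) (.e (nat_lit 73746) (nat_lit 3) (.e (nat_lit 516122) (nat_lit 2) (.e (nat_lit 213035) (nat_lit 12) .nil)))))))) (.g (nat_lit 1) (.e (nat_lit 165575) (nat_lit 0) .nil) .nil))) 
(.lf (nat_lit 499447) (.g (nat_lit 1801) (.e (nat_lit 163975) (nat_lit 30) (.e (nat_lit 573492) (nat_lit 15) (.e (nat_lit 81956) (nat_lit 23) (.e (nat_lit 106240) (nat_lit 26) .nil)))) (.g (nat_lit 0) (.e (nat_lit 166802) (nat_lit 0) .nil) .nil)))) (.nd (nat_lit 9) 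
(.lf (nat_lit 499191) (.g (nat_lit 2773) (.e (nat_lit 163975) (nat_lit 30) (.e (nat_lit 573481) (nat_lit 13) (.e (nat_lit 65619) (nat_lit 10) (.e (nat_lit 344117) (nat_lit 21) (.e (nat_lit 516181) (nat_lit 15) (.e (nat_lit 475197) (nat_lit 40) (.e (nat_lit 704590) (nat_lit 3) .nil))))))) (.g (nat_lit 1) (.e (nat_lit 166089) (nat_lit 0) .nil) .nil))) 
(.lf (nat_lit 499703) (.g (nat_lit 1081) (.e (nat_lit 163976) (nat_lit 30) (.e (nat_lit 573491) (nat_lit 15) (.e (nat_lit 81951) (nat_lit 22) (.e (nat_lit 90170) (nat_lit 13) .nil)))) (.g (nat_lit 0) (.e (nat_lit 167360) (nat_lit 0) .nil) .nil))))))))) (.nd (nat_lit 4) (.nd (nat_lit 5) (.nd (nat_lit 6) (.nd (nat_lit 7) (.nd (nat_lit 8) (.nd (nat_lit 9) 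
(.lf (nat_lit 498703) (.g (nat_lit 3091) (.e (nat_lit 163962) (nat_lit 25) (.e (nat_lit 532550) (nat_lit 12) (.e (nat_lit 360475) (nat_lit 8) (.e (nat_lit 557065) (nat_lit 9) (.e (nat_lit 293) (nat_lit 21) .nil))))) (.g (nat_lit 0) (.e (nat_lit 164879) (nat_lit 0) .nil) .nil))) 
(.lf (nat_lit 499215) (.g (nat_lit 3072) (.e (nat_lit 163975) (nat_lit 30) (.e (nat_lit 573487) (nat_lit 14) (.e (nat_lit 73753) (nat_lit 8) (.e (nat_lit 557103) (nat_lit 14) (.e (nat_lit 180250) (nat_lit 10) (.e (nat_lit 573477) (nat_lit 12) (.e (nat_lit 57502) (nat_lit 38) (.e (nat_lit 638994) (nat_lit 7) .nil)))))))) (.g (nat_lit 1) (.e (nat_lit 166169) (nat_lit 0) .nil) .nil)))) 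
(.nd (nat_lit 9) 
(.lf (nat_lit 498959) (.g (nat_lit 3059) (.e (nat_lit 163973) (nat_lit 30) (.e (nat_lit 573479) (nat_lit 13) (.e (nat_lit 65619) (nat_lit 10) (.e (nat_lit 344117) (nat_lit 21) (.e (nat_lit 516160) (nat_lit 10) (.e (nat_lit 434271) (nat_lit 38) (.e (nat_lit 655373) (nat_lit 3) .nil))))))) (.g (nat_lit 1) (.e (nat_lit 165646) (nat_lit 0) .nil) .nil))) 
(.lf (nat_lit 499471) (.g (nat_lit 3017) (.e (nat_lit 163975) (nat_lit 30) (.e (nat_lit 573492) (nat_lit 15) (.e (nat_lit 81956) (nat_lit 23) (.e (nat_lit 98385) (nat_lit 32) (.e (nat_lit 475197) (nat_lit 40) (.e (nat_lit 704590) (nat_lit 3) .nil)))))) (.g (nat_lit 1) (.e (nat_lit 166860) (nat_lit 0) .nil) .nil))))) (.nd (nat_lit 8) (.nd (nat_lit 9) 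
(.lf (nat_lit 498831) (.g (nat_lit 2105) (.e (nat_lit 163963) (nat_lit 25) (.e (nat_lit 532513) (nat_lit 3) (.e (nat_lit 114714) (nat_lit 22) (.e (nat_lit 90174) (nat_lit 14) (.e (nat_lit 180243) (nat_lit 5) .nil))))) (.g (nat_lit 0) (.e (nat_lit 165219) (nat_lit 0) .nil) .nil))) 
(.lf (nat_lit 499343) (.g (nat_lit 2326) (.e (nat_lit 163975) (nat_lit 30) (.e (nat_lit 573491) (nat_lit 15) (.e (nat_lit 81956) (nat_lit 23) (.e (nat_lit 98386) (nat_lit 32) .nil)))) (.g (nat_lit 0) (.e (nat_lit 166483) (nat_lit 0) .nil) .nil)))) (.nd (nat_lit 9) 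
(.lf (nat_lit 499087) (.g (nat_lit 3231) (.e (nat_lit 163975) (nat_lit 30) (.e (nat_lit 573481) (nat_lit 13) (.e (nat_lit 65604) (nat_lit 9) (.e (nat_lit 336028) (nat_lit 3) (.e (nat_lit 98384) (nat_lit 32) (.e (nat_lit 475198) (nat_lit 40) (.e (nat_lit 704589) (nat_lit 3) .nil))))))) (.g (nat_lit 1) (.e (nat_lit 165962) (nat_lit 0) .nil) .nil))) 
(.lf (nat_lit 499599) (.g (nat_lit 3658) (.e (nat_lit 163976) (nat_lit 30) (.e (nat_lit 573481) (nat_lit 13) (.e (nat_lit 65619) (nat_lit 10) (.e (nat_lit 344117) (nat_lit 21) (.e (nat_lit 516151) (nat_lit 9) (.e (nat_lit 426097) (nat_lit 1) (.e (nat_lit 164345) (nat_lit 240) (.e (nat_lit 2601) (nat_lit 163) .nil)))))))) (.g (nat_lit 1) (.e (nat_lit 167112) (nat_lit 0) .nil) .nil)))))) 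
(.nd (nat_lit 7) (.nd (nat_lit 8) (.nd (nat_lit 9) 
(.lf (nat_lit 498767) (.g (nat_lit 1309) (.e (nat_lit 163962) (nat_lit 25) (.e (nat_lit 532560) (nat_lit 14) (.e (nat_lit 376869) (nat_lit 23) (.e (nat_lit 98351) (nat_lit 25) .nil)))) (.g (nat_lit 0) (.e (nat_lit 165003) (nat_lit 0) .nil) .nil))) 
(.lf (nat_lit 499279) (.g (nat_lit 2533) (.e (nat_lit 163975) (nat_lit 30) (.e (nat_lit 573491) (nat_lit 15) (.e (nat_lit 81954) (nat_lit 23) (.e (nat_lit 98356) (nat_lit 26) (.e (nat_lit 426400) (nat_lit 15) .nil))))) (.g (nat_lit 0) (.e (nat_lit 166383) (nat_lit 0) .nil) .nil)))) (.nd (nat_lit 9) 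
(.lf (nat_lit 499023) (.g (nat_lit 4616) (.e (nat_lit 163974) (nat_lit 30) (.e (nat_lit 573493) (nat_lit 15) (.e (nat_lit 81956) (nat_lit 23) (.e (nat_lit 98355) (nat_lit 26) .nil)))) (.g (nat_lit 0) (.e (nat_lit 165797) (nat_lit 0) .nil) .nil))) 
(.lf (nat_lit 499535) (.g (nat_lit 2482) (.e (nat_lit 163976) (nat_lit 30) (.e (nat_lit 573481) (nat_lit 13) (.e (nat_lit 65604) (nat_lit 9) (.e (nat_lit 336028) (nat_lit 3) (.e (nat_lit 98359) (nat_lit 26) (.e (nat_lit 433920) (nat_lit 19) (.e (nat_lit 114432) (nat_lit 3) .nil))))))) (.g (nat_lit 1) (.e (nat_lit 167035) (nat_lit 0) .nil) .nil))))) (.nd (nat_lit 8) (.nd (nat_lit 9) 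
(.lf (nat_lit 498895) (.g (nat_lit 3978) (.e (nat_lit 163964) (nat_lit 25) (.e (nat_lit 532501) (nat_lit 1) (.e (nat_lit 57931) (nat_lit 282) (.e (nat_lit 163869) (nat_lit 2) (.e (nat_lit 196670) (nat_lit 14) (.e (nat_lit 73746) (nat_lit 3) (.e (nat_lit 516127) (nat_lit 2) (.e (nat_lit 213035) (nat_lit 12) .nil)))))))) (.g (nat_lit 1) (.e (nat_lit 165422) (nat_lit 0) .nil) .nil))) 
(.lf (nat_lit 499407) (.g (nat_lit 3010) (.e (nat_lit 163975) (nat_lit 30) (.e (nat_lit 573492) (nat_lit 15) (.e (nat_lit 81956) (nat_lit 23) (.e (nat_lit 98356) (nat_lit 26) (.e (nat_lit 426399) (nat_lit 15) .nil))))) (.g (nat_lit 0) (.e (nat_lit 166719) (nat_lit 0) .nil) .nil)))) (.nd (nat_lit 9) 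
(.lf (nat_lit 499151) (.g (nat_lit 5283) (.e (nat_lit 163975) (nat_lit 30) (.e (nat_lit 573481) (nat_lit 13) (.e (nat_lit 65619) (nat_lit 10) (.e (nat_lit 344117) (nat_lit 21) (.e (nat_lit 516151) (nat_lit 9) (.e (nat_lit 426412) (nat_lit 15) (.e (nat_lit 2058) (nat_lit 142) (.e (nat_lit 704589) (nat_lit 3) .nil)))))))) (.g (nat_lit 1) (.e (nat_lit 166033) (nat_lit 0) .nil) .nil))) 
(.lf (nat_lit 499663) (.g (nat_lit 2170) (.e (nat_lit 163976) (nat_lit 30) (.e (nat_lit 573488) (nat_lit 14) (.e (nat_lit 73755) (nat_lit 8) (.e (nat_lit 557103) (nat_lit 14) (.e (nat_lit 180244) (nat_lit 5) .nil))))) (.g (nat_lit 0) (.e (nat_lit 167283) (nat_lit 0) .nil) .nil))))))) (.nd (nat_lit 6) (.nd (nat_lit 7) (.nd (nat_lit 8) (.nd (nat_lit 9) 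
(.lf (nat_lit 498735) (.g (nat_lit 2867) (.e (nat_lit 163962) (nat_lit 25) (.e (nat_lit 532550) (nat_lit 12) (.e (nat_lit 360475) (nat_lit 8) (.e (nat_lit 557087) (nat_lit 11) (.e (nat_lit 24588) (nat_lit 0) (.e (nat_lit 7936) (nat_lit 360) .nil)))))) (.g (nat_lit 1) (.e (nat_lit 164933) (nat_lit 0) .nil) .nil))) 
(.lf (nat_lit 499247) (.g (nat_lit 2381) (.e (nat_lit 163975) (nat_lit 30) (.e (nat_lit 573491) (nat_lit 15) (.e (nat_lit 81951) (nat_lit 22) (.e (nat_lit 90170) (nat_lit 13) (.e (nat_lit 172136) (nat_lit 15) .nil))))) (.g (nat_lit 0) (.e (nat_lit 166325) (nat_lit 0) .nil) .nil)))) (.nd (nat_lit 9) 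
(.lf (nat_lit 498991) (.g (nat_lit 4426) (.e (nat_lit 163973) (nat_lit 30) (.e (nat_lit 573492) (nat_lit 15) (.e (nat_lit 81956) (nat_lit 23) (.e (nat_lit 98367) (nat_lit 27) (.e (nat_lit 434272) (nat_lit 38) (.e (nat_lit 655373) (nat_lit 3) .nil)))))) (.g (nat_lit 1) (.e (nat_lit 165732) (nat_lit 0) .nil) .nil))) 
(.lf (nat_lit 499503) (.g (nat_lit 2075) (.e (nat_lit 163976) (nat_lit 30) (.e (nat_lit 573474) (nat_lit 12) (.e (nat_lit 57530) (nat_lit 46) (.e (nat_lit 704589) (nat_lit 3) (.e (nat_lit 163962) (nat_lit 25) .nil))))) (.g (nat_lit 0) (.e (nat_lit 166935) (nat_lit 0) .nil) .nil))))) (.nd (nat_lit 8) (.nd (nat_lit 9) 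
(.lf (nat_lit 498863) (.g (nat_lit 3959) (.e (nat_lit 163964) (nat_lit 25) (.e (nat_lit 532501) (nat_lit 1) (.e (nat_lit 57926) (nat_lit 282) (.e (nat_lit 163869) (nat_lit 2) (.e (nat_lit 196670) (nat_lit 14) (.e (nat_lit 73746) (nat_lit 3) (.e (nat_lit 516124) (nat_lit 2) (.e (nat_lit 213035) (nat_lit 12) .nil)))))))) (.g (nat_lit 1) (.e (nat_lit 165368) (nat_lit 0) .nil) .nil))) 
(.lf (nat_lit 499375) (.g (nat_lit 2676) (.e (nat_lit 163975) (nat_lit 30) (.e (nat_lit 573492) (nat_lit 15) (.e (nat_lit 81956) (nat_lit 23) (.e (nat_lit 98355) (nat_lit 26) (.e (nat_lit 426442) (nat_lit 19) (.e (nat_lit 114432) (nat_lit 3) .nil)))))) (.g (nat_lit 1) (.e (nat_lit 166682) (nat_lit 0) .nil) .nil)))) (.nd (nat_lit 9) 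
(.lf (nat_lit 499119) (.g (nat_lit 2384) (.e (nat_lit 163975) (nat_lit 30) (.e (nat_lit 573481) (nat_lit 13) (.e (nat_lit 65619) (nat_lit 10) (.e (nat_lit 344117) (nat_lit 21) (.e (nat_lit 516145) (nat_lit 9) .nil))))) (.g (nat_lit 0) (.e (nat_lit 166000) (nat_lit 0) .nil) .nil))) 
(.lf (nat_lit 499631) (.g (nat_lit 3712) (.e (nat_lit 163976) (nat_lit 30) (.e (nat_lit 573481) (nat_lit 13) (.e (nat_lit 65619) (nat_lit 10) (.e (nat_lit 344117) (nat_lit 21) (.e (nat_lit 516180) (nat_lit 15) (.e (nat_lit 475198) (nat_lit 40) (.e (nat_lit 704589) (nat_lit 3) .nil))))))) (.g (nat_lit 1) (.e (nat_lit 167161) (nat_lit 0) .nil) .nil)))))) 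
(.nd (nat_lit 7) (.nd (nat_lit 8) (.nd (nat_lit 9) 
(.lf (nat_lit 498799) (.g (nat_lit 4630) (.e (nat_lit 163963) (nat_lit 25) (.e (nat_lit 532499) (nat_lit 1) (.e (nat_lit 57927) (nat_lit 282) (.e (nat_lit 163869) (nat_lit 2) (.e (nat_lit 196670) (nat_lit 14) (.e (nat_lit 73746) (nat_lit 3) (.e (nat_lit 516124) (nat_lit 2) (.e (nat_lit 213034) (nat_lit 12) .nil)))))))) (.g (nat_lit 1) (.e (nat_lit 165157) (nat_lit 0) .nil) .nil))) 
(.lf (nat_lit 499311) (.g (nat_lit 2767) (.e (nat_lit 163975) (nat_lit 30) (.e (nat_lit 573491) (nat_lit 15) (.e (nat_lit 81954) (nat_lit 23) (.e (nat_lit 98383) (nat_lit 32) (.e (nat_lit 475197) (nat_lit 40) (.e (nat_lit 704589) (nat_lit 3) .nil)))))) (.g (nat_lit 1) (.e (nat_lit 166451) (nat_lit 0) .nil) .nil)))) (.nd (nat_lit 9) 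
(.lf (nat_lit 499055) (.g (nat_lit 2718) (.e (nat_lit 163975) (nat_lit 30) (.e (nat_lit 573481) (nat_lit 13) (.e (nat_lit 65604) (nat_lit 9) (.e (nat_lit 336013) (nat_lit 2) (.e (nat_lit 90170) (nat_lit 13) (.e (nat_lit 172061) (nat_lit 1) (.e (nat_lit 164345) (nat_lit 240) (.e (nat_lit 2599) (nat_lit 163) .nil)))))))) (.g (nat_lit 1) (.e (nat_lit 165890) (nat_lit 0) .nil) .nil))) 
(.lf (nat_lit 499567) (.g (nat_lit 3302) (.e (nat_lit 163976) (nat_lit 30) (.e (nat_lit 573481) (nat_lit 13) (.e (nat_lit 65619) (nat_lit 10) (.e (nat_lit 344117) (nat_lit 21) (.e (nat_lit 516144) (nat_lit 9) (.e (nat_lit 426382) (nat_lit 15) (.e (nat_lit 2059) (nat_lit 142) (.e (nat_lit 704589) (nat_lit 3) .nil)))))))) (.g (nat_lit 1) (.e (nat_lit 167080) (nat_lit 0) .nil) .nil))))) 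
(.nd (nat_lit 8) (.nd (nat_lit 9) 
(.lf (nat_lit 498927) (.g (nat_lit 2493) (.e (nat_lit 163964) (nat_lit 25) (.e (nat_lit 532553) (nat_lit 13) (.e (nat_lit 368676) (nat_lit 21) (.e (nat_lit 516129) (nat_lit 3) (.e (nat_lit 221210) (nat_lit 22) (.e (nat_lit 196658) (nat_lit 12) (.e (nat_lit 57508) (nat_lit 39) (.e (nat_lit 647181) (nat_lit 3) .nil)))))))) (.g (nat_lit 1) (.e (nat_lit 165535) (nat_lit 0) .nil) .nil))) 
(.lf (nat_lit 499439) (.g (nat_lit 2639) (.e (nat_lit 163975) (nat_lit 30) (.e (nat_lit 573492) (nat_lit 15) (.e (nat_lit 81956) (nat_lit 23) (.e (nat_lit 98363) (nat_lit 26) (.e (nat_lit 426391) (nat_lit 15) .nil))))) (.g (nat_lit 0) (.e (nat_lit 166788) (nat_lit 0) .nil) .nil)))) (.nd (nat_lit 9) 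
(.lf (nat_lit 499183) (.g (nat_lit 4098) (.e (nat_lit 163975) (nat_lit 30) (.e (nat_lit 573481) (nat_lit 13) (.e (nat_lit 65619) (nat_lit 10) (.e (nat_lit 344117) (nat_lit 21) (.e (nat_lit 516180) (nat_lit 15) (.e (nat_lit 475195) (nat_lit 40) (.e (nat_lit 704590) (nat_lit 3) .nil))))))) (.g (nat_lit 1) (.e (nat_lit 166081) (nat_lit 0) .nil) .nil))) 
(.lf (nat_lit 499695) (.g (nat_lit 3836) (.e (nat_lit 163976) (nat_lit 30) (.e (nat_lit 573489) (nat_lit 14) (.e (nat_lit 73755) (nat_lit 8) (.e (nat_lit 557105) (nat_lit 14) (.e (nat_lit 180252) (nat_lit 10) (.e (nat_lit 573475) (nat_lit 12) (.e (nat_lit 57503) (nat_lit 38) (.e (nat_lit 638994) (nat_lit 7) .nil)))))))) (.g (nat_lit 1) (.e (nat_lit 167335) (nat_lit 0) .nil) .nil)))))))) 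
(.nd (nat_lit 5) (.nd (nat_lit 6) (.nd (nat_lit 7) (.nd (nat_lit 8) (.nd (nat_lit 9) 
(.lf (nat_lit 498719) (.g (nat_lit 3292) (.e (nat_lit 163962) (nat_lit 25) (.e (nat_lit 532550) (nat_lit 12) (.e (nat_lit 360475) (nat_lit 8) (.e (nat_lit 557070) (nat_lit 9) (.e (nat_lit 7936) (nat_lit 21) .nil))))) (.g (nat_lit 0) (.e (nat_lit 164906) (nat_lit 0) .nil) .nil))) 
(.lf (nat_lit 499231) (.g (nat_lit 1175) (.e (nat_lit 163975) (nat_lit 30) (.e (nat_lit 573488) (nat_lit 14) (.e (nat_lit 73755) (nat_lit 8) (.e (nat_lit 557104) (nat_lit 14) .nil)))) (.g (nat_lit 0) (.e (nat_lit 166236) (nat_lit 0) .nil) .nil)))) (.nd (nat_lit 9) 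
(.lf (nat_lit 498975) (.g (nat_lit 631) (.e (nat_lit 163973) (nat_lit 30) (.e (nat_lit 573492) (nat_lit 15) (.e (nat_lit 81956) (nat_lit 23) .nil))) (.g (nat_lit 0) (.e (nat_lit 165701) (nat_lit 0) .nil) .nil))) 
(.lf (nat_lit 499487) (.g (nat_lit 1117) (.e (nat_lit 163975) (nat_lit 30) (.e (nat_lit 573493) (nat_lit 15) (.e (nat_lit 81954) (nat_lit 23) .nil))) (.g (nat_lit 0) (.e (nat_lit 166891) (nat_lit 0) .nil) .nil))))) (.nd (nat_lit 8) (.nd (nat_lit 9) 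
(.lf (nat_lit 498847) (.g (nat_lit 2412) (.e (nat_lit 163964) (nat_lit 25) (.e (nat_lit 532499) (nat_lit 1) (.e (nat_lit 57926) (nat_lit 282) (.e (nat_lit 163869) (nat_lit 2) (.e (nat_lit 196670) (nat_lit 14) (.e (nat_lit 73746) (nat_lit 3) (.e (nat_lit 516127) (nat_lit 2) (.e (nat_lit 213033) (nat_lit 12) .nil)))))))) (.g (nat_lit 1) (.e (nat_lit 165330) (nat_lit 0) .nil) .nil))) 
(.lf (nat_lit 499359) (.g (nat_lit 3484) (.e (nat_lit 163975) (nat_lit 30) (.e (nat_lit 573492) (nat_lit 15) (.e (nat_lit 81953) (nat_lit 22) (.e (nat_lit 90170) (nat_lit 13) (.e (nat_lit 172137) (nat_lit 15) (.e (nat_lit 2057) (nat_lit 142) (.e (nat_lit 704589) (nat_lit 3) .nil))))))) (.g (nat_lit 1) (.e (nat_lit 166605) (nat_lit 0) .nil) .nil)))) (.nd (nat_lit 9) 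
(.lf (nat_lit 499103) (.g (nat_lit 1354) (.e (nat_lit 163975) (nat_lit 30) (.e (nat_lit 573481) (nat_lit 13) (.e (nat_lit 65619) (nat_lit 10) (.e (nat_lit 344117) (nat_lit 21) .nil)))) (.g (nat_lit 0) (.e (nat_lit 165983) (nat_lit 0) .nil) .nil))) 
(.lf (nat_lit 499615) (.g (nat_lit 2422) (.e (nat_lit 163976) (nat_lit 30) (.e (nat_lit 573481) (nat_lit 13) (.e (nat_lit 65619) (nat_lit 10) (.e (nat_lit 344117) (nat_lit 21) (.e (nat_lit 516152) (nat_lit 9) (.e (nat_lit 426109) (nat_lit 1) (.e (nat_lit 164347) (nat_lit 240) (.e (nat_lit 2601) (nat_lit 163) .nil)))))))) (.g (nat_lit 1) (.e (nat_lit 167130) (nat_lit 0) .nil) .nil)))))) 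
(.nd (nat_lit 7) (.nd (nat_lit 8) (.nd (nat_lit 9) 
(.lf (nat_lit 498783) (.g (nat_lit 780) (.e (nat_lit 163962) (nat_lit 25) (.e (nat_lit 532569) (nat_lit 16) (.e (nat_lit 401458) (nat_lit 13) .nil))) (.g (nat_lit 0) (.e (nat_lit 165055) (nat_lit 0) .nil) .nil))) 
(.lf (nat_lit 499295) (.g (nat_lit 2171) (.e (nat_lit 163975) (nat_lit 30) (.e (nat_lit 573491) (nat_lit 15) (.e (nat_lit 81954) (nat_lit 23) (.e (nat_lit 98359) (nat_lit 26) (.e (nat_lit 426410) (nat_lit 15) (.e (nat_lit 2056) (nat_lit 142) (.e (nat_lit 704589) (nat_lit 3) .nil))))))) (.g (nat_lit 1) (.e (nat_lit 166412) (nat_lit 0) .nil) .nil)))) (.nd (nat_lit 9) 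
(.lf (nat_lit 499039) (.g (nat_lit 3129) (.e (nat_lit 163975) (nat_lit 30) (.e (nat_lit 573480) (nat_lit 13) (.e (nat_lit 65610) (nat_lit 10) (.e (nat_lit 344117) (nat_lit 21) (.e (nat_lit 516179) (nat_lit 15) (.e (nat_lit 475198) (nat_lit 40) (.e (nat_lit 704589) (nat_lit 3) .nil))))))) (.g (nat_lit 1) (.e (nat_lit 165857) (nat_lit 0) .nil) .nil))) 
(.lf (nat_lit 499551) (.g (nat_lit 1182) (.e (nat_lit 163976) (nat_lit 30) (.e (nat_lit 573481) (nat_lit 13) (.e (nat_lit 65619) (nat_lit 10) (.e (nat_lit 344117) (nat_lit 21) .nil)))) (.g (nat_lit 0) (.e (nat_lit 167061) (nat_lit 0) .nil) .nil))))) (.nd (nat_lit 8) (.nd (nat_lit 9) 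
(.lf (nat_lit 498911) (.g (nat_lit 2218) (.e (nat_lit 163964) (nat_lit 25) (.e (nat_lit 532513) (nat_lit 3) (.e (nat_lit 114714) (nat_lit 22) (.e (nat_lit 90174) (nat_lit 14) (.e (nat_lit 180243) (nat_lit 5) (.e (nat_lit 532501) (nat_lit 1) (.e (nat_lit 57661) (nat_lit 152) (.e (nat_lit 2612) (nat_lit 163) .nil)))))))) (.g (nat_lit 1) (.e (nat_lit 165455) (nat_lit 0) .nil) .nil))) 
(.lf (nat_lit 499423) (.g (nat_lit 3658) (.e (nat_lit 163975) (nat_lit 30) (.e (nat_lit 573492) (nat_lit 15) (.e (nat_lit 81956) (nat_lit 23) (.e (nat_lit 98358) (nat_lit 26) (.e (nat_lit 426402) (nat_lit 15) .nil))))) (.g (nat_lit 0) (.e (nat_lit 166738) (nat_lit 0) .nil) .nil)))) (.nd (nat_lit 9) 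
(.lf (nat_lit 499167) (.g (nat_lit 4050) (.e (nat_lit 163975) (nat_lit 30) (.e (nat_lit 573481) (nat_lit 13) (.e (nat_lit 65619) (nat_lit 10) (.e (nat_lit 344117) (nat_lit 21) (.e (nat_lit 516159) (nat_lit 10) (.e (nat_lit 434272) (nat_lit 38) (.e (nat_lit 655373) (nat_lit 3) .nil))))))) (.g (nat_lit 1) (.e (nat_lit 166051) (nat_lit 0) .nil) .nil))) 
(.lf (nat_lit 499679) (.g (nat_lit 3584) (.e (nat_lit 163976) (nat_lit 30) (.e (nat_lit 573488) (nat_lit 14) (.e (nat_lit 73755) (nat_lit 8) (.e (nat_lit 557105) (nat_lit 14) (.e (nat_lit 180252) (nat_lit 10) (.e (nat_lit 573474) (nat_lit 12) (.e (nat_lit 57501) (nat_lit 37) (.e (nat_lit 630799) (nat_lit 7) .nil)))))))) (.g (nat_lit 1) (.e (nat_lit 167315) (nat_lit 0) .nil) .nil))))))) 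
(.nd (nat_lit 6) (.nd (nat_lit 7) (.nd (nat_lit 8) (.nd (nat_lit 9) 
(.lf (nat_lit 498751) (.g (nat_lit 2774) (.e (nat_lit 163962) (nat_lit 25) (.e (nat_lit 532558) (nat_lit 14) (.e (nat_lit 376868) (nat_lit 23) (.e (nat_lit 98350) (nat_lit 24) (.e (nat_lit 409617) (nat_lit 10) (.e (nat_lit 5762) (nat_lit 315) .nil)))))) (.g (nat_lit 1) (.e (nat_lit 164966) (nat_lit 0) .nil) .nil))) 
(.lf (nat_lit 499263) (.g (nat_lit 2026) (.e (nat_lit 163975) (nat_lit 30) (.e (nat_lit 573491) (nat_lit 15) (.e (nat_lit 81954) (nat_lit 23) (.e (nat_lit 98356) (nat_lit 26) (.e (nat_lit 426364) (nat_lit 15) .nil))))) (.g (nat_lit 0) (.e (nat_lit 166367) (nat_lit 0) .nil) .nil)))) (.nd (nat_lit 9) 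
(.lf (nat_lit 499007) (.g (nat_lit 2175) (.e (nat_lit 163974) (nat_lit 30) (.e (nat_lit 573482) (nat_lit 13) (.e (nat_lit 65619) (nat_lit 10) (.e (nat_lit 344117) (nat_lit 21) (.e (nat_lit 516180) (nat_lit 15) .nil))))) (.g (nat_lit 0) (.e (nat_lit 165762) (nat_lit 0) .nil) .nil))) 
(.lf (nat_lit 499519) (.g (nat_lit 2679) (.e (nat_lit 163976) (nat_lit 30) (.e (nat_lit 573481) (nat_lit 13) (.e (nat_lit 65604) (nat_lit 9) (.e (nat_lit 336013) (nat_lit 2) (.e (nat_lit 90170) (nat_lit 13) (.e (nat_lit 172049) (nat_lit 0) (.e (nat_lit 7936) (nat_lit 211) (.e (nat_lit 647180) (nat_lit 3) .nil)))))))) (.g (nat_lit 1) (.e (nat_lit 166977) (nat_lit 0) .nil) .nil))))) 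
(.nd (nat_lit 8) (.nd (nat_lit 9) 
(.lf (nat_lit 498879) (.g (nat_lit 2253) (.e (nat_lit 163964) (nat_lit 25) (.e (nat_lit 532501) (nat_lit 1) (.e (nat_lit 57927) (nat_lit 282) (.e (nat_lit 163871) (nat_lit 2) (.e (nat_lit 196670) (nat_lit 14) .nil))))) (.g (nat_lit 0) (.e (nat_lit 165397) (nat_lit 0) .nil) .nil))) 
(.lf (nat_lit 499391) (.g (nat_lit 3248) (.e (nat_lit 163975) (nat_lit 30) (.e (nat_lit 573492) (nat_lit 15) (.e (nat_lit 81956) (nat_lit 23) (.e (nat_lit 98356) (nat_lit 26) (.e (nat_lit 426362) (nat_lit 15) (.e (nat_lit 2056) (nat_lit 142) (.e (nat_lit 704589) (nat_lit 3) .nil))))))) (.g (nat_lit 1) (.e (nat_lit 166703) (nat_lit 0) .nil) .nil)))) (.nd (nat_lit 9) 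
(.lf (nat_lit 499135) (.g (nat_lit 2541) (.e (nat_lit 163975) (nat_lit 30) (.e (nat_lit 573481) (nat_lit 13) (.e (nat_lit 65619) (nat_lit 10) (.e (nat_lit 344117) (nat_lit 21) (.e (nat_lit 516151) (nat_lit 9) (.e (nat_lit 426022) (nat_lit 0) (.e (nat_lit 3397) (nat_lit 211) (.e (nat_lit 647180) (nat_lit 3) .nil)))))))) (.g (nat_lit 1) (.e (nat_lit 166016) (nat_lit 0) .nil) .nil))) 
(.lf (nat_lit 499647) (.g (nat_lit 3183) (.e (nat_lit 163976) (nat_lit 30) (.e (nat_lit 573482) (nat_lit 13) (.e (nat_lit 65619) (nat_lit 10) (.e (nat_lit 344117) (nat_lit 21) (.e (nat_lit 516151) (nat_lit 9) (.e (nat_lit 426396) (nat_lit 15) (.e (nat_lit 2059) (nat_lit 142) (.e (nat_lit 704589) (nat_lit 3) .nil)))))))) (.g (nat_lit 1) (.e (nat_lit 167182) (nat_lit 0) .nil) .nil)))))) 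
(.nd (nat_lit 7) (.nd (nat_lit 8) (.nd (nat_lit 9) 
(.lf (nat_lit 498815) (.g (nat_lit 2692) (.e (nat_lit 163963) (nat_lit 25) (.e (nat_lit 532501) (nat_lit 1) (.e (nat_lit 57927) (nat_lit 282) (.e (nat_lit 163868) (nat_lit 2) (.e (nat_lit 196670) (nat_lit 14) (.e (nat_lit 73746) (nat_lit 3) (.e (nat_lit 516124) (nat_lit 2) (.e (nat_lit 213034) (nat_lit 12) .nil)))))))) (.g (nat_lit 1) (.e (nat_lit 165183) (nat_lit 0) .nil) .nil))) 
(.lf (nat_lit 499327) (.g (nat_lit 2141) (.e (nat_lit 163975) (nat_lit 30) (.e (nat_lit 573491) (nat_lit 15) (.e (nat_lit 81955) (nat_lit 23) (.e (nat_lit 98386) (nat_lit 32) (.e (nat_lit 475197) (nat_lit 40) (.e (nat_lit 704589) (nat_lit 3) .nil)))))) (.g (nat_lit 1) (.e (nat_lit 166467) (nat_lit 0) .nil) .nil)))) (.nd (nat_lit 9) 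
(.lf (nat_lit 499071) (.g (nat_lit 3356) (.e (nat_lit 163975) (nat_lit 30) (.e (nat_lit 573481) (nat_lit 13) (.e (nat_lit 65604) (nat_lit 9) (.e (nat_lit 336013) (nat_lit 2) (.e (nat_lit 90170) (nat_lit 13) (.e (nat_lit 179968) (nat_lit 24) (.e (nat_lit 163584) (nat_lit 3) .nil))))))) (.g (nat_lit 1) (.e (nat_lit 165907) (nat_lit 0) .nil) .nil))) 
(.lf (nat_lit 499583) (.g (nat_lit 2658) (.e (nat_lit 163976) (nat_lit 30) (.e (nat_lit 573481) (nat_lit 13) (.e (nat_lit 65619) (nat_lit 10) (.e (nat_lit 344117) (nat_lit 21) (.e (nat_lit 516147) (nat_lit 9) (.e (nat_lit 426442) (nat_lit 19) (.e (nat_lit 114432) (nat_lit 3) .nil))))))) (.g (nat_lit 1) (.e (nat_lit 167096) (nat_lit 0) .nil) .nil))))) (.nd (nat_lit 8) (.nd (nat_lit 9) 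
(.lf (nat_lit 498943) (.g (nat_lit 3052) (.e (nat_lit 163965) (nat_lit 25) (.e (nat_lit 532535) (nat_lit 9) (.e (nat_lit 336099) (nat_lit 9) (.e (nat_lit 336028) (nat_lit 3) .nil)))) (.g (nat_lit 0) (.e (nat_lit 165606) (nat_lit 0) .nil) .nil))) 
(.lf (nat_lit 499455) (.g (nat_lit 2460) (.e (nat_lit 163975) (nat_lit 30) (.e (nat_lit 573492) (nat_lit 15) (.e (nat_lit 81956) (nat_lit 23) (.e (nat_lit 98383) (nat_lit 32) (.e (nat_lit 475196) (nat_lit 40) (.e (nat_lit 704590) (nat_lit 3) .nil)))))) (.g (nat_lit 1) (.e (nat_lit 166844) (nat_lit 0) .nil) .nil)))) (.nd (nat_lit 9) 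
(.lf (nat_lit 499199) (.g (nat_lit 1994) (.e (nat_lit 163975) (nat_lit 30) (.e (nat_lit 573481) (nat_lit 13) (.e (nat_lit 65619) (nat_lit 10) (.e (nat_lit 344119) (nat_lit 21) (.e (nat_lit 516181) (nat_lit 15) .nil))))) (.g (nat_lit 0) (.e (nat_lit 166097) (nat_lit 0) .nil) .nil))) 
(.lf (nat_lit 499711) (.g (nat_lit 1722) (.e (nat_lit 163976) (nat_lit 30) (.e (nat_lit 573491) (nat_lit 15) (.e (nat_lit 81954) (nat_lit 23) (.e (nat_lit 98355) (nat_lit 26) (.e (nat_lit 426442) (nat_lit 19) (.e (nat_lit 114432) (nat_lit 3) .nil)))))) (.g (nat_lit 1) (.e (nat_lit 167431) (nat_lit 0) .nil) .nil)))))))))))))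

noncomputable def tv5548 : DT := (.nd (nat_lit 0) (.nd (nat_lit 1) (.nd (nat_lit 2) (.nd (nat_lit 3) (.nd (nat_lit 4) (.nd (nat_lit 5) (.nd (nat_lit 6) (.nd (nat_lit 7) (.nd (nat_lit 8) (.nd (nat_lit 9) 
(.lf (nat_lit 499712) (.g (nat_lit 1896) (.e (nat_lit 163976) (nat_lit 30) (.e (nat_lit 573491) (nat_lit 15) (.e (nat_lit 81954) (nat_lit 23) (.e (nat_lit 98355) (nat_lit 26) (.e (nat_lit 426444) (nat_lit 19) (.e (nat_lit 114432) (nat_lit 3) .nil)))))) (.g (nat_lit 1) (.e (nat_lit 167432) (nat_lit 0) .nil) .nil))) 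
(.lf (nat_lit 500224) (.g (nat_lit 4231) (.e (nat_lit 163977) (nat_lit 30) (.e (nat_lit 573485) (nat_lit 13) (.e (nat_lit 65604) (nat_lit 9) (.e (nat_lit 336013) (nat_lit 2) (.e (nat_lit 90170) (nat_lit 13) (.e (nat_lit 172059) (nat_lit 1) (.e (nat_lit 164348) (nat_lit 240) (.e (nat_lit 2601) (nat_lit 163) .nil)))))))) (.g (nat_lit 1) (.e (nat_lit 168461) (nat_lit 0) .nil) .nil)))) 
(.nd (nat_lit 9) 
(.lf (nat_lit 499968) (.g (nat_lit 1628) (.e (nat_lit 163977) (nat_lit 30) (.e (nat_lit 573481) (nat_lit 13) (.e (nat_lit 65619) (nat_lit 10) (.e (nat_lit 344117) (nat_lit 21) .nil)))) (.g (nat_lit 0) (.e (nat_lit 168085) (nat_lit 0) .nil) .nil))) 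
(.lf (nat_lit 500480) (.g (nat_lit 1307) (.e (nat_lit 163977) (nat_lit 30) (.e (nat_lit 573489) (nat_lit 14) (.e (nat_lit 73754) (nat_lit 8) (.e (nat_lit 557101) (nat_lit 13) .nil)))) (.g (nat_lit 0) (.e (nat_lit 168911) (nat_lit 0) .nil) .nil))))) (.nd (nat_lit 8) (.nd (nat_lit 9) 
(.lf (nat_lit 499840) (.g (nat_lit 2636) (.e (nat_lit 163976) (nat_lit 30) (.e (nat_lit 573492) (nat_lit 15) (.e (nat_lit 81956) (nat_lit 23) (.e (nat_lit 98356) (nat_lit 26) (.e (nat_lit 426362) (nat_lit 15) .nil))))) (.g (nat_lit 0) (.e (nat_lit 167797) (nat_lit 0) .nil) .nil))) 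
(.lf (nat_lit 500352) (.g (nat_lit 4453) (.e (nat_lit 163977) (nat_lit 30) (.e (nat_lit 573485) (nat_lit 13) (.e (nat_lit 65619) (nat_lit 10) (.e (nat_lit 344117) (nat_lit 21) (.e (nat_lit 516160) (nat_lit 10) (.e (nat_lit 434271) (nat_lit 38) (.e (nat_lit 655375) (nat_lit 3) .nil))))))) (.g (nat_lit 1) (.e (nat_lit 168624) (nat_lit 0) .nil) .nil)))) (.nd (nat_lit 9) 
(.lf (nat_lit 500096) (.g (nat_lit 2313) (.e (nat_lit 163977) (nat_lit 30) (.e (nat_lit 573482) (nat_lit 13) (.e (nat_lit 65619) (nat_lit 10) (.e (nat_lit 344117) (nat_lit 21) (.e (nat_lit 516152) (nat_lit 9) .nil))))) (.g (nat_lit 0) (.e (nat_lit 168238) (nat_lit 0) .nil) .nil))) 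
(.lf (nat_lit 500608) (.g (nat_lit 4479) (.e (nat_lit 163977) (nat_lit 30) (.e (nat_lit 573489) (nat_lit 14) (.e (nat_lit 73755) (nat_lit 8) (.e (nat_lit 557103) (nat_lit 14) (.e (nat_lit 180250) (nat_lit 10) (.e (nat_lit 573473) (nat_lit 12) (.e (nat_lit 57503) (nat_lit 38) (.e (nat_lit 638995) (nat_lit 7) .nil)))))))) (.g (nat_lit 1) (.e (nat_lit 169126) (nat_lit 0) .nil) .nil)))))) 
(.nd (nat_lit 7) (.nd (nat_lit 8) (.nd (nat_lit 9) 
(.lf (nat_lit 499776) (.g (nat_lit 3384) (.e (nat_lit 163976) (nat_lit 30) (.e (nat_lit 573491) (nat_lit 15) (.e (nat_lit 81954) (nat_lit 23) (.e (nat_lit 98386) (nat_lit 32) (.e (nat_lit 475198) (nat_lit 40) (.e (nat_lit 704589) (nat_lit 3) .nil)))))) (.g (nat_lit 1) (.e (nat_lit 167544) (nat_lit 0) .nil) .nil))) 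
(.lf (nat_lit 500288) (.g (nat_lit 2385) (.e (nat_lit 163977) (nat_lit 30) (.e (nat_lit 573485) (nat_lit 13) (.e (nat_lit 65619) (nat_lit 10) (.e (nat_lit 344117) (nat_lit 21) (.e (nat_lit 516145) (nat_lit 9) (.e (nat_lit 426444) (nat_lit 19) (.e (nat_lit 114432) (nat_lit 3) .nil))))))) (.g (nat_lit 1) (.e (nat_lit 168560) (nat_lit 0) .nil) .nil)))) (.nd (nat_lit 9) 
(.lf (nat_lit 500032) (.g (nat_lit 2894) (.e (nat_lit 163977) (nat_lit 30) (.e (nat_lit 573482) (nat_lit 13) (.e (nat_lit 65604) (nat_lit 9) (.e (nat_lit 336028) (nat_lit 3) (.e (nat_lit 98361) (nat_lit 26) (.e (nat_lit 426144) (nat_lit 4) (.e (nat_lit 229663) (nat_lit 240) (.e (nat_lit 2612) (nat_lit 163) .nil)))))))) (.g (nat_lit 1) (.e (nat_lit 168170) (nat_lit 0) .nil) .nil))) 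
(.lf (nat_lit 500544) (.g (nat_lit 1680) (.e (nat_lit 163977) (nat_lit 30) (.e (nat_lit 573489) (nat_lit 14) (.e (nat_lit 73755) (nat_lit 8) (.e (nat_lit 557097) (nat_lit 13) (.e (nat_lit 172067) (nat_lit 3) .nil))))) (.g (nat_lit 0) (.e (nat_lit 169016) (nat_lit 0) .nil) .nil))))) (.nd (nat_lit 8) (.nd (nat_lit 9) 
(.lf (nat_lit 499904) (.g (nat_lit 1307) (.e (nat_lit 163976) (nat_lit 30) (.e (nat_lit 573492) (nat_lit 15) (.e (nat_lit 81956) (nat_lit 23) (.e (nat_lit 98366) (nat_lit 27) .nil)))) (.g (nat_lit 0) (.e (nat_lit 167914) (nat_lit 0) .nil) .nil))) 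
(.lf (nat_lit 500416) (.g (nat_lit 2853) (.e (nat_lit 163977) (nat_lit 30) (.e (nat_lit 573487) (nat_lit 14) (.e (nat_lit 73753) (nat_lit 8) (.e (nat_lit 557105) (nat_lit 14) (.e (nat_lit 180251) (nat_lit 10) (.e (nat_lit 573478) (nat_lit 12) (.e (nat_lit 57502) (nat_lit 38) (.e (nat_lit 638996) (nat_lit 7) .nil)))))))) (.g (nat_lit 1) (.e (nat_lit 168829) (nat_lit 0) .nil) .nil)))) 
(.nd (nat_lit 9) 
(.lf (nat_lit 500160) (.g (nat_lit 2274) (.e (nat_lit 163977) (nat_lit 30) (.e (nat_lit 573484) (nat_lit 13) (.e (nat_lit 65610) (nat_lit 10) (.e (nat_lit 344117) (nat_lit 21) (.e (nat_lit 516148) (nat_lit 9) .nil))))) (.g (nat_lit 0) (.e (nat_lit 168336) (nat_lit 0) .nil) .nil))) 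
(.lf (nat_lit 500672) (.g (nat_lit 2260) (.e (nat_lit 163977) (nat_lit 30) (.e (nat_lit 573489) (nat_lit 14) (.e (nat_lit 73755) (nat_lit 8) (.e (nat_lit 557104) (nat_lit 14) (.e (nat_lit 180251) (nat_lit 10) (.e (nat_lit 573477) (nat_lit 12) (.e (nat_lit 57502) (nat_lit 38) (.e (nat_lit 638996) (nat_lit 7) .nil)))))))) (.g (nat_lit 1) (.e (nat_lit 169226) (nat_lit 0) .nil) .nil))))))) 
(.nd (nat_lit 6) (.nd (nat_lit 7) (.nd (nat_lit 8) (.nd (nat_lit 9) 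
(.lf (nat_lit 499744) (.g (nat_lit 2191) (.e (nat_lit 163976) (nat_lit 30) (.e (nat_lit 573491) (nat_lit 15) (.e (nat_lit 81954) (nat_lit 23) (.e (nat_lit 98359) (nat_lit 26) (.e (nat_lit 426022) (nat_lit 0) (.e (nat_lit 3397) (nat_lit 211) (.e (nat_lit 647180) (nat_lit 3) .nil))))))) (.g (nat_lit 1) (.e (nat_lit 167473) (nat_lit 0) .nil) .nil))) 
(.lf (nat_lit 500256) (.g (nat_lit 1998) (.e (nat_lit 163977) (nat_lit 30) (.e (nat_lit 573485) (nat_lit 13) (.e (nat_lit 65604) (nat_lit 9) (.e (nat_lit 336028) (nat_lit 3) (.e (nat_lit 98366) (nat_lit 27) (.e (nat_lit 434202) (nat_lit 18) (.e (nat_lit 5537) (nat_lit 306) (.e (nat_lit 2601) (nat_lit 163) .nil)))))))) (.g (nat_lit 1) (.e (nat_lit 168526) (nat_lit 0) .nil) .nil)))) 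
(.nd (nat_lit 9) 
(.lf (nat_lit 500000) (.g (nat_lit 2925) (.e (nat_lit 163977) (nat_lit 30) (.e (nat_lit 573482) (nat_lit 13) (.e (nat_lit 65604) (nat_lit 9) (.e (nat_lit 336013) (nat_lit 2) (.e (nat_lit 90170) (nat_lit 13) (.e (nat_lit 172061) (nat_lit 1) (.e (nat_lit 164346) (nat_lit 240) (.e (nat_lit 2601) (nat_lit 163) .nil)))))))) (.g (nat_lit 1) (.e (nat_lit 168125) (nat_lit 0) .nil) .nil))) 
(.lf (nat_lit 500512) (.g (nat_lit 3714) (.e (nat_lit 163977) (nat_lit 30) (.e (nat_lit 573489) (nat_lit 14) (.e (nat_lit 73754) (nat_lit 8) (.e (nat_lit 557105) (nat_lit 14) (.e (nat_lit 180252) (nat_lit 10) (.e (nat_lit 573475) (nat_lit 12) (.e (nat_lit 57501) (nat_lit 37) (.e (nat_lit 630799) (nat_lit 7) .nil)))))))) (.g (nat_lit 1) (.e (nat_lit 168948) (nat_lit 0) .nil) .nil))))) 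
(.nd (nat_lit 8) (.nd (nat_lit 9) 
(.lf (nat_lit 499872) (.g (nat_lit 2675) (.e (nat_lit 163976) (nat_lit 30) (.e (nat_lit 573492) (nat_lit 15) (.e (nat_lit 81956) (nat_lit 23) (.e (nat_lit 98359) (nat_lit 26) (.e (nat_lit 426023) (nat_lit 0) (.e (nat_lit 3401) (nat_lit 211) (.e (nat_lit 647180) (nat_lit 3) .nil))))))) (.g (nat_lit 1) (.e (nat_lit 167834) (nat_lit 0) .nil) .nil))) 
(.lf (nat_lit 500384) (.g (nat_lit 2833) (.e (nat_lit 163977) (nat_lit 30) (.e (nat_lit 573487) (nat_lit 14) (.e (nat_lit 73753) (nat_lit 8) (.e (nat_lit 557101) (nat_lit 13) (.e (nat_lit 172067) (nat_lit 3) (.e (nat_lit 204815) (nat_lit 17) (.e (nat_lit 2271) (nat_lit 149) (.e (nat_lit 761898) (nat_lit 15) .nil)))))))) (.g (nat_lit 1) (.e (nat_lit 168768) (nat_lit 0) .nil) .nil)))) 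
(.nd (nat_lit 9) 
(.lf (nat_lit 500128) (.g (nat_lit 2738) (.e (nat_lit 163977) (nat_lit 30) (.e (nat_lit 573482) (nat_lit 13) (.e (nat_lit 65619) (nat_lit 10) (.e (nat_lit 344117) (nat_lit 21) (.e (nat_lit 516161) (nat_lit 10) (.e (nat_lit 434209) (nat_lit 18) (.e (nat_lit 5548) (nat_lit 306) (.e (nat_lit 2601) (nat_lit 163) .nil)))))))) (.g (nat_lit 1) (.e (nat_lit 168270) (nat_lit 0) .nil) .nil))) 
(.lf (nat_lit 500640) (.g (nat_lit 1938) (.e (nat_lit 163977) (nat_lit 30) (.e (nat_lit 573489) (nat_lit 14) (.e (nat_lit 73755) (nat_lit 8) (.e (nat_lit 557104) (nat_lit 14) (.e (nat_lit 180244) (nat_lit 5) .nil))))) (.g (nat_lit 0) (.e (nat_lit 169163) (nat_lit 0) .nil) .nil)))))) (.nd (nat_lit 7) (.nd (nat_lit 8) (.nd (nat_lit 9) 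
(.lf (nat_lit 499808) (.g (nat_lit 485) (.e (nat_lit 163976) (nat_lit 30) (.e (nat_lit 573492) (nat_lit 15) (.e (nat_lit 81954) (nat_lit 23) .nil))) (.g (nat_lit 0) (.e (nat_lit 167732) (nat_lit 0) .nil) .nil))) 
(.lf (nat_lit 500320) (.g (nat_lit 2485) (.e (nat_lit 163977) (nat_lit 30) (.e (nat_lit 573485) (nat_lit 13) (.e (nat_lit 65619) (nat_lit 10) (.e (nat_lit 344117) (nat_lit 21) (.e (nat_lit 516152) (nat_lit 9) (.e (nat_lit 426109) (nat_lit 1) (.e (nat_lit 164345) (nat_lit 240) (.e (nat_lit 2600) (nat_lit 163) .nil)))))))) (.g (nat_lit 1) (.e (nat_lit 168592) (nat_lit 0) .nil) .nil)))) 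
(.nd (nat_lit 9) 
(.lf (nat_lit 500064) (.g (nat_lit 2288) (.e (nat_lit 163977) (nat_lit 30) (.e (nat_lit 573482) (nat_lit 13) (.e (nat_lit 65619) (nat_lit 10) (.e (nat_lit 344117) (nat_lit 21) (.e (nat_lit 516144) (nat_lit 9) .nil))))) (.g (nat_lit 0) (.e (nat_lit 168206) (nat_lit 0) .nil) .nil))) 
(.lf (nat_lit 500576) (.g (nat_lit 2866) (.e (nat_lit 163977) (nat_lit 30) (.e (nat_lit 573489) (nat_lit 14) (.e (nat_lit 73755) (nat_lit 8) (.e (nat_lit 557098) (nat_lit 13) (.e (nat_lit 172067) (nat_lit 3) (.e (nat_lit 204821) (nat_lit 17) (.e (nat_lit 7936) (nat_lit 149) (.e (nat_lit 761899) (nat_lit 15) .nil)))))))) (.g (nat_lit 1) (.e (nat_lit 169069) (nat_lit 0) .nil) .nil))))) 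
(.nd (nat_lit 8) (.nd (nat_lit 9) 
(.lf (nat_lit 499936) (.g (nat_lit 3313) (.e (nat_lit 163976) (nat_lit 30) (.e (nat_lit 573493) (nat_lit 15) (.e (nat_lit 81953) (nat_lit 22) (.e (nat_lit 90170) (nat_lit 13) .nil)))) (.g (nat_lit 0) (.e (nat_lit 168013) (nat_lit 0) .nil) .nil))) 
(.lf (nat_lit 500448) (.g (nat_lit 3036) (.e (nat_lit 163977) (nat_lit 30) (.e (nat_lit 573487) (nat_lit 14) (.e (nat_lit 73755) (nat_lit 8) (.e (nat_lit 557105) (nat_lit 14) (.e (nat_lit 180252) (nat_lit 10) (.e (nat_lit 573475) (nat_lit 12) (.e (nat_lit 57503) (nat_lit 38) (.e (nat_lit 638995) (nat_lit 7) .nil)))))))) (.g (nat_lit 1) (.e (nat_lit 168863) (nat_lit 0) .nil) .nil)))) 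
(.nd (nat_lit 9) 
(.lf (nat_lit 500192) (.g (nat_lit 2550) (.e (nat_lit 163977) (nat_lit 30) (.e (nat_lit 573484) (nat_lit 13) (.e (nat_lit 65610) (nat_lit 10) (.e (nat_lit 344117) (nat_lit 21) (.e (nat_lit 516160) (nat_lit 10) .nil))))) (.g (nat_lit 0) (.e (nat_lit 168398) (nat_lit 0) .nil) .nil))) 
(.lf (nat_lit 500704) (.g (nat_lit 4238) (.e (nat_lit 163977) (nat_lit 30) (.e (nat_lit 573489) (nat_lit 14) (.e (nat_lit 73755) (nat_lit 8) (.e (nat_lit 557105) (nat_lit 14) (.e (nat_lit 180252) (nat_lit 10) (.e (nat_lit 573475) (nat_lit 12) (.e (nat_lit 57501) (nat_lit 37) (.e (nat_lit 630799) (nat_lit 7) .nil)))))))) (.g (nat_lit 1) (.e (nat_lit 169285) (nat_lit 0) .nil) .nil)))))))) 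
(.nd (nat_lit 5) (.nd (nat_lit 6) (.nd (nat_lit 7) (.nd (nat_lit 8) (.nd (nat_lit 9) 
(.lf (nat_lit 499728) (.g (nat_lit 2479) (.e (nat_lit 163976) (nat_lit 30) (.e (nat_lit 573491) (nat_lit 15) (.e (nat_lit 81954) (nat_lit 23) (.e (nat_lit 98356) (nat_lit 26) (.e (nat_lit 426399) (nat_lit 15) .nil))))) (.g (nat_lit 0) (.e (nat_lit 167452) (nat_lit 0) .nil) .nil))) 
(.lf (nat_lit 500240) (.g (nat_lit 1044) (.e (nat_lit 163977) (nat_lit 30) (.e (nat_lit 573485) (nat_lit 13) (.e (nat_lit 65604) (nat_lit 9) (.e (nat_lit 336028) (nat_lit 3) .nil)))) (.g (nat_lit 0) (.e (nat_lit 168477) (nat_lit 0) .nil) .nil)))) (.nd (nat_lit 9) 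
(.lf (nat_lit 499984) (.g (nat_lit 3334) (.e (nat_lit 163977) (nat_lit 30) (.e (nat_lit 573482) (nat_lit 13) (.e (nat_lit 65604) (nat_lit 9) (.e (nat_lit 336013) (nat_lit 2) (.e (nat_lit 90170) (nat_lit 13) (.e (nat_lit 172036) (nat_lit 0) (.e (nat_lit 3402) (nat_lit 211) (.e (nat_lit 647181) (nat_lit 3) .nil)))))))) (.g (nat_lit 1) (.e (nat_lit 168109) (nat_lit 0) .nil) .nil))) 
(.lf (nat_lit 500496) (.g (nat_lit 4962) (.e (nat_lit 163977) (nat_lit 30) (.e (nat_lit 573489) (nat_lit 14) (.e (nat_lit 73754) (nat_lit 8) (.e (nat_lit 557105) (nat_lit 14) (.e (nat_lit 180251) (nat_lit 10) (.e (nat_lit 573475) (nat_lit 12) (.e (nat_lit 57503) (nat_lit 38) (.e (nat_lit 638995) (nat_lit 7) .nil)))))))) (.g (nat_lit 1) (.e (nat_lit 168932) (nat_lit 0) .nil) .nil))))) 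
(.nd (nat_lit 8) (.nd (nat_lit 9) 
(.lf (nat_lit 499856) (.g (nat_lit 2992) (.e (nat_lit 163976) (nat_lit 30) (.e (nat_lit 573492) (nat_lit 15) (.e (nat_lit 81956) (nat_lit 23) (.e (nat_lit 98356) (nat_lit 26) (.e (nat_lit 426442) (nat_lit 19) (.e (nat_lit 114432) (nat_lit 3) .nil)))))) (.g (nat_lit 1) (.e (nat_lit 167813) (nat_lit 0) .nil) .nil))) 
(.lf (nat_lit 500368) (.g (nat_lit 464) (.e (nat_lit 163977) (nat_lit 30) (.e (nat_lit 573487) (nat_lit 14) (.e (nat_lit 73753) (nat_lit 8) .nil))) (.g (nat_lit 0) (.e (nat_lit 168690) (nat_lit 0) .nil) .nil)))) (.nd (nat_lit 9) 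
(.lf (nat_lit 500112) (.g (nat_lit 4217) (.e (nat_lit 163977) (nat_lit 30) (.e (nat_lit 573482) (nat_lit 13) (.e (nat_lit 65619) (nat_lit 10) (.e (nat_lit 344117) (nat_lit 21) (.e (nat_lit 516159) (nat_lit 10) (.e (nat_lit 434209) (nat_lit 18) (.e (nat_lit 5547) (nat_lit 306) (.e (nat_lit 2601) (nat_lit 163) .nil)))))))) (.g (nat_lit 1) (.e (nat_lit 168254) (nat_lit 0) .nil) .nil))) 
(.lf (nat_lit 500624) (.g (nat_lit 3709) (.e (nat_lit 163977) (nat_lit 30) (.e (nat_lit 573489) (nat_lit 14) (.e (nat_lit 73755) (nat_lit 8) (.e (nat_lit 557103) (nat_lit 14) (.e (nat_lit 180250) (nat_lit 10) (.e (nat_lit 573477) (nat_lit 12) (.e (nat_lit 57502) (nat_lit 38) (.e (nat_lit 638996) (nat_lit 7) .nil)))))))) (.g (nat_lit 1) (.e (nat_lit 169142) (nat_lit 0) .nil) .nil)))))) 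
(.nd (nat_lit 7) (.nd (nat_lit 8) (.nd (nat_lit 9) 
(.lf (nat_lit 499792) (.g (nat_lit 3168) (.e (nat_lit 163976) (nat_lit 30) (.e (nat_lit 573492) (nat_lit 15) (.e (nat_lit 81951) (nat_lit 22) (.e (nat_lit 90170) (nat_lit 13) (.e (nat_lit 172136) (nat_lit 15) .nil))))) (.g (nat_lit 0) (.e (nat_lit 167583) (nat_lit 0) .nil) .nil))) 
(.lf (nat_lit 500304) (.g (nat_lit 3979) (.e (nat_lit 163977) (nat_lit 30) (.e (nat_lit 573485) (nat_lit 13) (.e (nat_lit 65619) (nat_lit 10) (.e (nat_lit 344117) (nat_lit 21) (.e (nat_lit 516151) (nat_lit 9) (.e (nat_lit 426097) (nat_lit 1) (.e (nat_lit 164347) (nat_lit 240) (.e (nat_lit 2601) (nat_lit 163) .nil)))))))) (.g (nat_lit 1) (.e (nat_lit 168576) (nat_lit 0) .nil) .nil)))) 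
(.nd (nat_lit 9) 
(.lf (nat_lit 500048) (.g (nat_lit 2085) (.e (nat_lit 163977) (nat_lit 30) (.e (nat_lit 573482) (nat_lit 13) (.e (nat_lit 65604) (nat_lit 9) (.e (nat_lit 336028) (nat_lit 3) (.e (nat_lit 98367) (nat_lit 27) (.e (nat_lit 434202) (nat_lit 18) (.e (nat_lit 5537) (nat_lit 306) (.e (nat_lit 2601) (nat_lit 163) .nil)))))))) (.g (nat_lit 1) (.e (nat_lit 168188) (nat_lit 0) .nil) .nil))) 
(.lf (nat_lit 500560) (.g (nat_lit 3116) (.e (nat_lit 163977) (nat_lit 30) (.e (nat_lit 573489) (nat_lit 14) (.e (nat_lit 73755) (nat_lit 8) (.e (nat_lit 557098) (nat_lit 13) (.e (nat_lit 172065) (nat_lit 3) (.e (nat_lit 204821) (nat_lit 17) (.e (nat_lit 2264) (nat_lit 149) (.e (nat_lit 761899) (nat_lit 15) .nil)))))))) (.g (nat_lit 1) (.e (nat_lit 169048) (nat_lit 0) .nil) .nil))))) 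
(.nd (nat_lit 8) (.nd (nat_lit 9) 
(.lf (nat_lit 499920) (.g (nat_lit 3100) (.e (nat_lit 163976) (nat_lit 30) (.e (nat_lit 573492) (nat_lit 15) (.e (nat_lit 81956) (nat_lit 23) (.e (nat_lit 98384) (nat_lit 32) (.e (nat_lit 475205) (nat_lit 40) (.e (nat_lit 704588) (nat_lit 3) .nil)))))) (.g (nat_lit 1) (.e (nat_lit 167974) (nat_lit 0) .nil) .nil))) 
(.lf (nat_lit 500432) (.g (nat_lit 3449) (.e (nat_lit 163977) (nat_lit 30) (.e (nat_lit 573487) (nat_lit 14) (.e (nat_lit 73754) (nat_lit 8) (.e (nat_lit 557105) (nat_lit 14) (.e (nat_lit 180251) (nat_lit 10) (.e (nat_lit 573475) (nat_lit 12) (.e (nat_lit 57503) (nat_lit 38) (.e (nat_lit 638996) (nat_lit 7) .nil)))))))) (.g (nat_lit 1) (.e (nat_lit 168847) (nat_lit 0) .nil) .nil)))) 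
(.nd (nat_lit 9) 
(.lf (nat_lit 500176) (.g (nat_lit 2992) (.e (nat_lit 163977) (nat_lit 30) (.e (nat_lit 573484) (nat_lit 13) (.e (nat_lit 65610) (nat_lit 10) (.e (nat_lit 344117) (nat_lit 21) (.e (nat_lit 516151) (nat_lit 9) (.e (nat_lit 426142) (nat_lit 4) (.e (nat_lit 229663) (nat_lit 240) (.e (nat_lit 2604) (nat_lit 163) .nil)))))))) (.g (nat_lit 1) (.e (nat_lit 168374) (nat_lit 0) .nil) .nil))) 
(.lf (nat_lit 500688) (.g (nat_lit 2322) (.e (nat_lit 163977) (nat_lit 30) (.e (nat_lit 573489) (nat_lit 14) (.e (nat_lit 73755) (nat_lit 8) (.e (nat_lit 557105) (nat_lit 14) (.e (nat_lit 180245) (nat_lit 5) (.e (nat_lit 532481) (nat_lit 0) (.e (nat_lit 2271) (nat_lit 149) (.e (nat_lit 761898) (nat_lit 15) .nil)))))))) (.g (nat_lit 1) (.e (nat_lit 169243) (nat_lit 0) .nil) .nil))))))) 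
(.nd (nat_lit 6) (.nd (nat_lit 7) (.nd (nat_lit 8) (.nd (nat_lit 9) 
(.lf (nat_lit 499760) (.g (nat_lit 1111) (.e (nat_lit 163976) (nat_lit 30) (.e (nat_lit 573491) (nat_lit 15) (.e (nat_lit 81954) (nat_lit 23) (.e (nat_lit 106240) (nat_lit 26) .nil)))) (.g (nat_lit 0) (.e (nat_lit 167510) (nat_lit 0) .nil) .nil))) 
(.lf (nat_lit 500272) (.g (nat_lit 4390) (.e (nat_lit 163977) (nat_lit 30) (.e (nat_lit 573485) (nat_lit 13) (.e (nat_lit 65604) (nat_lit 9) (.e (nat_lit 336028) (nat_lit 3) (.e (nat_lit 98367) (nat_lit 27) (.e (nat_lit 434209) (nat_lit 18) (.e (nat_lit 5547) (nat_lit 306) (.e (nat_lit 2611) (nat_lit 163) .nil)))))))) (.g (nat_lit 1) (.e (nat_lit 168542) (nat_lit 0) .nil) .nil)))) 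
(.nd (nat_lit 9) 
(.lf (nat_lit 500016) (.g (nat_lit 1913) (.e (nat_lit 163977) (nat_lit 30) (.e (nat_lit 573482) (nat_lit 13) (.e (nat_lit 65604) (nat_lit 9) (.e (nat_lit 336028) (nat_lit 3) (.e (nat_lit 98359) (nat_lit 26) .nil))))) (.g (nat_lit 0) (.e (nat_lit 168143) (nat_lit 0) .nil) .nil))) 
(.lf (nat_lit 500528) (.g (nat_lit 2624) (.e (nat_lit 163977) (nat_lit 30) (.e (nat_lit 573489) (nat_lit 14) (.e (nat_lit 73755) (nat_lit 8) (.e (nat_lit 557097) (nat_lit 13) (.e (nat_lit 172065) (nat_lit 3) (.e (nat_lit 204815) (nat_lit 17) (.e (nat_lit 2271) (nat_lit 149) (.e (nat_lit 761898) (nat_lit 15) .nil)))))))) (.g (nat_lit 1) (.e (nat_lit 168990) (nat_lit 0) .nil) .nil))))) 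
(.nd (nat_lit 8) (.nd (nat_lit 9) 
(.lf (nat_lit 499888) (.g (nat_lit 2438) (.e (nat_lit 163976) (nat_lit 30) (.e (nat_lit 573492) (nat_lit 15) (.e (nat_lit 81956) (nat_lit 23) (.e (nat_lit 98361) (nat_lit 26) .nil)))) (.g (nat_lit 0) (.e (nat_lit 167883) (nat_lit 0) .nil) .nil))) 
(.lf (nat_lit 500400) (.g (nat_lit 3022) (.e (nat_lit 163977) (nat_lit 30) (.e (nat_lit 573487) (nat_lit 14) (.e (nat_lit 73753) (nat_lit 8) (.e (nat_lit 557103) (nat_lit 14) (.e (nat_lit 180250) (nat_lit 10) (.e (nat_lit 573475) (nat_lit 12) (.e (nat_lit 57502) (nat_lit 38) (.e (nat_lit 638996) (nat_lit 7) .nil)))))))) (.g (nat_lit 1) (.e (nat_lit 168811) (nat_lit 0) .nil) .nil)))) 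
(.nd (nat_lit 9) 
(.lf (nat_lit 500144) (.g (nat_lit 2244) (.e (nat_lit 163977) (nat_lit 30) (.e (nat_lit 573482) (nat_lit 13) (.e (nat_lit 65619) (nat_lit 10) (.e (nat_lit 344117) (nat_lit 21) (.e (nat_lit 516172) (nat_lit 13) .nil))))) (.g (nat_lit 0) (.e (nat_lit 168286) (nat_lit 0) .nil) .nil))) 
(.lf (nat_lit 500656) (.g (nat_lit 2148) (.e (nat_lit 163977) (nat_lit 30) (.e (nat_lit 573489) (nat_lit 14) (.e (nat_lit 73755) (nat_lit 8) (.e (nat_lit 557104) (nat_lit 14) (.e (nat_lit 180245) (nat_lit 5) .nil))))) (.g (nat_lit 0) (.e (nat_lit 169203) (nat_lit 0) .nil) .nil)))))) (.nd (nat_lit 7) (.nd (nat_lit 8) (.nd (nat_lit 9) 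
(.lf (nat_lit 499824) (.g (nat_lit 2586) (.e (nat_lit 163976) (nat_lit 30) (.e (nat_lit 573492) (nat_lit 15) (.e (nat_lit 81956) (nat_lit 23) (.e (nat_lit 98355) (nat_lit 26) (.e (nat_lit 426442) (nat_lit 19) (.e (nat_lit 114432) (nat_lit 3) .nil)))))) (.g (nat_lit 1) (.e (nat_lit 167774) (nat_lit 0) .nil) .nil))) 
(.lf (nat_lit 500336) (.g (nat_lit 2875) (.e (nat_lit 163977) (nat_lit 30) (.e (nat_lit 573485) (nat_lit 13) (.e (nat_lit 65619) (nat_lit 10) (.e (nat_lit 344117) (nat_lit 21) (.e (nat_lit 516159) (nat_lit 10) (.e (nat_lit 434209) (nat_lit 18) (.e (nat_lit 5548) (nat_lit 306) (.e (nat_lit 2600) (nat_lit 163) .nil)))))))) (.g (nat_lit 1) (.e (nat_lit 168608) (nat_lit 0) .nil) .nil)))) 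
(.nd (nat_lit 9) 
(.lf (nat_lit 500080) (.g (nat_lit 4044) (.e (nat_lit 163977) (nat_lit 30) (.e (nat_lit 573482) (nat_lit 13) (.e (nat_lit 65619) (nat_lit 10) (.e (nat_lit 344117) (nat_lit 21) (.e (nat_lit 516151) (nat_lit 9) (.e (nat_lit 426097) (nat_lit 1) (.e (nat_lit 164345) (nat_lit 240) (.e (nat_lit 2601) (nat_lit 163) .nil)))))))) (.g (nat_lit 1) (.e (nat_lit 168222) (nat_lit 0) .nil) .nil))) 
(.lf (nat_lit 500592) (.g (nat_lit 2205) (.e (nat_lit 163977) (nat_lit 30) (.e (nat_lit 573489) (nat_lit 14) (.e (nat_lit 73755) (nat_lit 8) (.e (nat_lit 557103) (nat_lit 14) (.e (nat_lit 180244) (nat_lit 5) (.e (nat_lit 532480) (nat_lit 0) (.e (nat_lit 2270) (nat_lit 149) (.e (nat_lit 761899) (nat_lit 15) .nil)))))))) (.g (nat_lit 1) (.e (nat_lit 169096) (nat_lit 0) .nil) .nil))))) 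
(.nd (nat_lit 8) (.nd (nat_lit 9) 
(.lf (nat_lit 499952) (.g (nat_lit 3578) (.e (nat_lit 163976) (nat_lit 30) (.e (nat_lit 573493) (nat_lit 15) (.e (nat_lit 81956) (nat_lit 23) (.e (nat_lit 98386) (nat_lit 32) .nil)))) (.g (nat_lit 0) (.e (nat_lit 168041) (nat_lit 0) .nil) .nil))) 
(.lf (nat_lit 500464) (.g (nat_lit 3038) (.e (nat_lit 163977) (nat_lit 30) (.e (nat_lit 573488) (nat_lit 14) (.e (nat_lit 73755) (nat_lit 8) (.e (nat_lit 557105) (nat_lit 14) (.e (nat_lit 180252) (nat_lit 10) (.e (nat_lit 573474) (nat_lit 12) (.e (nat_lit 57504) (nat_lit 38) (.e (nat_lit 638995) (nat_lit 7) .nil)))))))) (.g (nat_lit 1) (.e (nat_lit 168882) (nat_lit 0) .nil) .nil)))) 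
(.nd (nat_lit 9) 
(.lf (nat_lit 500208) (.g (nat_lit 3132) (.e (nat_lit 163977) (nat_lit 30) (.e (nat_lit 573485) (nat_lit 13) (.e (nat_lit 65604) (nat_lit 9) (.e (nat_lit 336013) (nat_lit 2) (.e (nat_lit 90170) (nat_lit 13) (.e (nat_lit 172033) (nat_lit 0) (.e (nat_lit 3401) (nat_lit 211) (.e (nat_lit 647181) (nat_lit 3) .nil)))))))) (.g (nat_lit 1) (.e (nat_lit 168443) (nat_lit 0) .nil) .nil))) 
(.lf (nat_lit 500720) (.g (nat_lit 3013) (.e (nat_lit 163977) (nat_lit 30) (.e (nat_lit 573491) (nat_lit 15) (.e (nat_lit 81951) (nat_lit 22) (.e (nat_lit 90170) (nat_lit 13) (.e (nat_lit 172033) (nat_lit 0) (.e (nat_lit 3401) (nat_lit 211) (.e (nat_lit 647181) (nat_lit 3) .nil))))))) (.g (nat_lit 1) (.e (nat_lit 169325) (nat_lit 0) .nil) .nil))))))))) 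
(.nd (nat_lit 4) (.nd (nat_lit 5) (.nd (nat_lit 6) (.nd (nat_lit 7) (.nd (nat_lit 8) 
(.nd (nat_lit 9) 
(.lf (nat_lit 499720) (.g (nat_lit 1980) (.e (nat_lit 163976) (nat_lit 30) (.e (nat_lit 573491) (nat_lit 15) (.e (nat_lit 81954) (nat_lit 23) (.e (nat_lit 98356) (nat_lit 26) (.e (nat_lit 426362) (nat_lit 15) .nil))))) (.g (nat_lit 0) (.e (nat_lit 167444) (nat_lit 0) .nil) .nil))) 
(.lf (nat_lit 500232) (.g (nat_lit 4187) (.e (nat_lit 163977) (nat_lit 30) (.e (nat_lit 573485) (nat_lit 13) (.e (nat_lit 65604) (nat_lit 9) (.e (nat_lit 336013) (nat_lit 2) (.e (nat_lit 90170) (nat_lit 13) (.e (nat_lit 172061) (nat_lit 1) (.e (nat_lit 164348) (nat_lit 240) (.e (nat_lit 2601) (nat_lit 163) .nil)))))))) (.g (nat_lit 1) (.e (nat_lit 168469) (nat_lit 0) .nil) .nil)))) 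
(.nd (nat_lit 9) 
(.lf (nat_lit 499976) (.g (nat_lit 3724) (.e (nat_lit 163977) (nat_lit 30) (.e (nat_lit 573481) (nat_lit 13) (.e (nat_lit 65619) (nat_lit 10) (.e (nat_lit 344117) (nat_lit 21) (.e (nat_lit 516160) (nat_lit 10) (.e (nat_lit 434272) (nat_lit 38) (.e (nat_lit 655375) (nat_lit 3) .nil))))))) (.g (nat_lit 1) (.e (nat_lit 168093) (nat_lit 0) .nil) .nil))) 
(.lf (nat_lit 500488) (.g (nat_lit 2924) (.e (nat_lit 163977) (nat_lit 30) (.e (nat_lit 573489) (nat_lit 14) (.e (nat_lit 73754) (nat_lit 8) (.e (nat_lit 557103) (nat_lit 14) (.e (nat_lit 180243) (nat_lit 5) .nil))))) (.g (nat_lit 0) (.e (nat_lit 168924) (nat_lit 0) .nil) .nil))))) (.nd (nat_lit 8) (.nd (nat_lit 9) 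
(.lf (nat_lit 499848) (.g (nat_lit 2624) (.e (nat_lit 163976) (nat_lit 30) (.e (nat_lit 573492) (nat_lit 15) (.e (nat_lit 81956) (nat_lit 23) (.e (nat_lit 98356) (nat_lit 26) (.e (nat_lit 426415) (nat_lit 15) .nil))))) (.g (nat_lit 0) (.e (nat_lit 167805) (nat_lit 0) .nil) .nil))) 
(.lf (nat_lit 500360) (.g (nat_lit 3257) (.e (nat_lit 163977) (nat_lit 30) (.e (nat_lit 573485) (nat_lit 13) (.e (nat_lit 65619) (nat_lit 10) (.e (nat_lit 344117) (nat_lit 21) (.e (nat_lit 516169) (nat_lit 13) (.e (nat_lit 458774) (nat_lit 18) (.e (nat_lit 5547) (nat_lit 306) (.e (nat_lit 2601) (nat_lit 163) .nil)))))))) (.g (nat_lit 1) (.e (nat_lit 168633) (nat_lit 0) .nil) .nil)))) 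
(.nd (nat_lit 9) 
(.lf (nat_lit 500104) (.g (nat_lit 2480) (.e (nat_lit 163977) (nat_lit 30) (.e (nat_lit 573482) (nat_lit 13) (.e (nat_lit 65619) (nat_lit 10) (.e (nat_lit 344117) (nat_lit 21) (.e (nat_lit 516155) (nat_lit 9) .nil))))) (.g (nat_lit 0) (.e (nat_lit 168246) (nat_lit 0) .nil) .nil))) 
(.lf (nat_lit 500616) (.g (nat_lit 2781) (.e (nat_lit 163977) (nat_lit 30) (.e (nat_lit 573489) (nat_lit 14) (.e (nat_lit 73755) (nat_lit 8) (.e (nat_lit 557103) (nat_lit 14) (.e (nat_lit 180250) (nat_lit 10) (.e (nat_lit 573475) (nat_lit 12) (.e (nat_lit 57502) (nat_lit 38) (.e (nat_lit 638995) (nat_lit 7) .nil)))))))) (.g (nat_lit 1) (.e (nat_lit 169134) (nat_lit 0) .nil) .nil)))))) 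
(.nd (nat_lit 7) (.nd (nat_lit 8) (.nd (nat_lit 9) 
(.lf (nat_lit 499784) (.g (nat_lit 1421) (.e (nat_lit 163976) (nat_lit 30) (.e (nat_lit 573491) (nat_lit 15) (.e (nat_lit 81956) (nat_lit 23) (.e (nat_lit 98356) (nat_lit 26) .nil)))) (.g (nat_lit 0) (.e (nat_lit 167552) (nat_lit 0) .nil) .nil))) 
(.lf (nat_lit 500296) (.g (nat_lit 3964) (.e (nat_lit 163977) (nat_lit 30) (.e (nat_lit 573485) (nat_lit 13) (.e (nat_lit 65619) (nat_lit 10) (.e (nat_lit 344117) (nat_lit 21) (.e (nat_lit 516151) (nat_lit 9) (.e (nat_lit 426042) (nat_lit 0) (.e (nat_lit 2458) (nat_lit 157) (.e (nat_lit 5547) (nat_lit 306) (.e (nat_lit 2601) (nat_lit 163) .nil))))))))) (.g (nat_lit 1) (.e (nat_lit 168568) (nat_lit 0) .nil) .nil)))) 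
(.nd (nat_lit 9) 
(.lf (nat_lit 500040) (.g (nat_lit 2102) (.e (nat_lit 163977) (nat_lit 30) (.e (nat_lit 573482) (nat_lit 13) (.e (nat_lit 65604) (nat_lit 9) (.e (nat_lit 336028) (nat_lit 3) (.e (nat_lit 98366) (nat_lit 27) (.e (nat_lit 434202) (nat_lit 18) (.e (nat_lit 5537) (nat_lit 306) (.e (nat_lit 2601) (nat_lit 163) .nil)))))))) (.g (nat_lit 1) (.e (nat_lit 168180) (nat_lit 0) .nil) .nil))) 
(.lf (nat_lit 500552) (.g (nat_lit 3320) (.e (nat_lit 163977) (nat_lit 30) (.e (nat_lit 573489) (nat_lit 14) (.e (nat_lit 73755) (nat_lit 8) (.e (nat_lit 557097) (nat_lit 13) (.e (nat_lit 172067) (nat_lit 3) (.e (nat_lit 204821) (nat_lit 17) (.e (nat_lit 7936) (nat_lit 149) (.e (nat_lit 761899) (nat_lit 15) .nil)))))))) (.g (nat_lit 1) (.e (nat_lit 169028) (nat_lit 0) .nil) .nil))))) 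
(.nd (nat_lit 8) (.nd (nat_lit 9) 
(.lf (nat_lit 499912) (.g (nat_lit 3377) (.e (nat_lit 163976) (nat_lit 30) (.e (nat_lit 573492) (nat_lit 15) (.e (nat_lit 81956) (nat_lit 23) (.e (nat_lit 98383) (nat_lit 32) (.e (nat_lit 475197) (nat_lit 40) (.e (nat_lit 704589) (nat_lit 3) .nil)))))) (.g (nat_lit 1) (.e (nat_lit 167966) (nat_lit 0) .nil) .nil))) 
(.lf (nat_lit 500424) (.g (nat_lit 3863) (.e (nat_lit 163977) (nat_lit 30) (.e (nat_lit 573487) (nat_lit 14) (.e (nat_lit 73753) (nat_lit 8) (.e (nat_lit 557105) (nat_lit 14) (.e (nat_lit 180252) (nat_lit 10) (.e (nat_lit 573475) (nat_lit 12) (.e (nat_lit 57501) (nat_lit 37) (.e (nat_lit 630800) (nat_lit 7) .nil)))))))) (.g (nat_lit 1) (.e (nat_lit 168838) (nat_lit 0) .nil) .nil)))) 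
(.nd (nat_lit 9) 
(.lf (nat_lit 500168) (.g (nat_lit 2774) (.e (nat_lit 163977) (nat_lit 30) (.e (nat_lit 573484) (nat_lit 13) (.e (nat_lit 65610) (nat_lit 10) (.e (nat_lit 344117) (nat_lit 21) (.e (nat_lit 516151) (nat_lit 9) (.e (nat_lit 426042) (nat_lit 0) (.e (nat_lit 3407) (nat_lit 212) (.e (nat_lit 655375) (nat_lit 3) .nil)))))))) (.g (nat_lit 1) (.e (nat_lit 168355) (nat_lit 0) .nil) .nil))) 
(.lf (nat_lit 500680) (.g (nat_lit 2741) (.e (nat_lit 163977) (nat_lit 30) (.e (nat_lit 573489) (nat_lit 14) (.e (nat_lit 73755) (nat_lit 8) (.e (nat_lit 557104) (nat_lit 14) (.e (nat_lit 180252) (nat_lit 10) (.e (nat_lit 573474) (nat_lit 12) (.e (nat_lit 57504) (nat_lit 38) (.e (nat_lit 638996) (nat_lit 7) .nil)))))))) (.g (nat_lit 1) (.e (nat_lit 169234) (nat_lit 0) .nil) .nil))))))) 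
(.nd (nat_lit 6) (.nd (nat_lit 7) (.nd (nat_lit 8) (.nd (nat_lit 9) 
(.lf (nat_lit 499752) (.g (nat_lit 1544) (.e (nat_lit 163976) (nat_lit 30) (.e (nat_lit 573491) (nat_lit 15) (.e (nat_lit 81954) (nat_lit 23) (.e (nat_lit 98360) (nat_lit 26) (.e (nat_lit 426025) (nat_lit 0) .nil))))) (.g (nat_lit 0) (.e (nat_lit 167496) (nat_lit 0) .nil) .nil))) 
(.lf (nat_lit 500264) (.g (nat_lit 2144) (.e (nat_lit 163977) (nat_lit 30) (.e (nat_lit 573485) (nat_lit 13) (.e (nat_lit 65604) (nat_lit 9) (.e (nat_lit 336028) (nat_lit 3) (.e (nat_lit 98366) (nat_lit 27) (.e (nat_lit 434271) (nat_lit 38) (.e (nat_lit 655374) (nat_lit 3) .nil))))))) (.g (nat_lit 1) (.e (nat_lit 168534) (nat_lit 0) .nil) .nil)))) (.nd (nat_lit 9) 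
(.lf (nat_lit 500008) (.g (nat_lit 5483) (.e (nat_lit 163977) (nat_lit 30) (.e (nat_lit 573482) (nat_lit 13) (.e (nat_lit 65604) (nat_lit 9) (.e (nat_lit 336013) (nat_lit 2) (.e (nat_lit 90170) (nat_lit 13) (.e (nat_lit 172070) (nat_lit 4) (.e (nat_lit 229663) (nat_lit 240) (.e (nat_lit 2612) (nat_lit 163) .nil)))))))) (.g (nat_lit 1) (.e (nat_lit 168133) (nat_lit 0) .nil) .nil))) 
(.lf (nat_lit 500520) (.g (nat_lit 3423) (.e (nat_lit 163977) (nat_lit 30) (.e (nat_lit 573489) (nat_lit 14) (.e (nat_lit 73755) (nat_lit 8) (.e (nat_lit 557096) (nat_lit 13) (.e (nat_lit 172067) (nat_lit 3) (.e (nat_lit 204815) (nat_lit 17) (.e (nat_lit 2271) (nat_lit 149) (.e (nat_lit 761898) (nat_lit 15) .nil)))))))) (.g (nat_lit 1) (.e (nat_lit 168975) (nat_lit 0) .nil) .nil))))) 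
(.nd (nat_lit 8) (.nd (nat_lit 9) 
(.lf (nat_lit 499880) (.g (nat_lit 3705) (.e (nat_lit 163976) (nat_lit 30) (.e (nat_lit 573492) (nat_lit 15) (.e (nat_lit 81956) (nat_lit 23) (.e (nat_lit 98359) (nat_lit 26) (.e (nat_lit 426412) (nat_lit 15) (.e (nat_lit 2056) (nat_lit 142) (.e (nat_lit 704589) (nat_lit 3) .nil))))))) (.g (nat_lit 1) (.e (nat_lit 167869) (nat_lit 0) .nil) .nil))) 
(.lf (nat_lit 500392) (.g (nat_lit 4514) (.e (nat_lit 163977) (nat_lit 30) (.e (nat_lit 573487) (nat_lit 14) (.e (nat_lit 73753) (nat_lit 8) (.e (nat_lit 557103) (nat_lit 14) (.e (nat_lit 180250) (nat_lit 10) (.e (nat_lit 573473) (nat_lit 12) (.e (nat_lit 57503) (nat_lit 38) (.e (nat_lit 638995) (nat_lit 7) .nil)))))))) (.g (nat_lit 1) (.e (nat_lit 168801) (nat_lit 0) .nil) .nil)))) 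
(.nd (nat_lit 9) 
(.lf (nat_lit 500136) (.g (nat_lit 2987) (.e (nat_lit 163977) (nat_lit 30) (.e (nat_lit 573482) (nat_lit 13) (.e (nat_lit 65619) (nat_lit 10) (.e (nat_lit 344117) (nat_lit 21) (.e (nat_lit 516170) (nat_lit 13) (.e (nat_lit 458774) (nat_lit 18) (.e (nat_lit 5546) (nat_lit 306) (.e (nat_lit 2601) (nat_lit 163) .nil)))))))) (.g (nat_lit 1) (.e (nat_lit 168278) (nat_lit 0) .nil) .nil))) 
(.lf (nat_lit 500648) (.g (nat_lit 2630) (.e (nat_lit 163977) (nat_lit 30) (.e (nat_lit 573489) (nat_lit 14) (.e (nat_lit 73755) (nat_lit 8) (.e (nat_lit 557104) (nat_lit 14) (.e (nat_lit 180244) (nat_lit 5) (.e (nat_lit 532485) (nat_lit 0) (.e (nat_lit 2271) (nat_lit 149) (.e (nat_lit 761899) (nat_lit 15) .nil)))))))) (.g (nat_lit 1) (.e (nat_lit 169177) (nat_lit 0) .nil) .nil)))))) 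
(.nd (nat_lit 7) (.nd (nat_lit 8) (.nd (nat_lit 9) 
(.lf (nat_lit 499816) (.g (nat_lit 2625) (.e (nat_lit 163976) (nat_lit 30) (.e (nat_lit 573492) (nat_lit 15) (.e (nat_lit 81954) (nat_lit 23) (.e (nat_lit 98384) (nat_lit 32) (.e (nat_lit 475199) (nat_lit 40) .nil))))) (.g (nat_lit 0) (.e (nat_lit 167741) (nat_lit 0) .nil) .nil))) 
(.lf (nat_lit 500328) (.g (nat_lit 1777) (.e (nat_lit 163977) (nat_lit 30) (.e (nat_lit 573485) (nat_lit 13) (.e (nat_lit 65619) (nat_lit 10) (.e (nat_lit 344117) (nat_lit 21) (.e (nat_lit 524032) (nat_lit 9) .nil))))) (.g (nat_lit 0) (.e (nat_lit 168600) (nat_lit 0) .nil) .nil)))) (.nd (nat_lit 9) 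
(.lf (nat_lit 500072) (.g (nat_lit 1992) (.e (nat_lit 163977) (nat_lit 30) (.e (nat_lit 573482) (nat_lit 13) (.e (nat_lit 65619) (nat_lit 10) (.e (nat_lit 344117) (nat_lit 21) (.e (nat_lit 516151) (nat_lit 9) .nil))))) (.g (nat_lit 0) (.e (nat_lit 168214) (nat_lit 0) .nil) .nil))) 
(.lf (nat_lit 500584) (.g (nat_lit 1042) (.e (nat_lit 163977) (nat_lit 30) (.e (nat_lit 573489) (nat_lit 14) (.e (nat_lit 73755) (nat_lit 8) (.e (nat_lit 557103) (nat_lit 14) .nil)))) (.g (nat_lit 0) (.e (nat_lit 169082) (nat_lit 0) .nil) .nil))))) (.nd (nat_lit 8) (.nd (nat_lit 9) 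
(.lf (nat_lit 499944) (.g (nat_lit 4357) (.e (nat_lit 163976) (nat_lit 30) (.e (nat_lit 573493) (nat_lit 15) (.e (nat_lit 81956) (nat_lit 23) (.e (nat_lit 98363) (nat_lit 26) .nil)))) (.g (nat_lit 0) (.e (nat_lit 168028) (nat_lit 0) .nil) .nil))) 
(.lf (nat_lit 500456) (.g (nat_lit 2905) (.e (nat_lit 163977) (nat_lit 30) (.e (nat_lit 573488) (nat_lit 14) (.e (nat_lit 73755) (nat_lit 8) (.e (nat_lit 557103) (nat_lit 14) (.e (nat_lit 180250) (nat_lit 10) (.e (nat_lit 573474) (nat_lit 12) (.e (nat_lit 57503) (nat_lit 38) (.e (nat_lit 638995) (nat_lit 7) .nil)))))))) (.g (nat_lit 1) (.e (nat_lit 168874) (nat_lit 0) .nil) .nil)))) 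
(.nd (nat_lit 9) 
(.lf (nat_lit 500200) (.g (nat_lit 4590) (.e (nat_lit 163977) (nat_lit 30) (.e (nat_lit 573484) (nat_lit 13) (.e (nat_lit 65610) (nat_lit 10) (.e (nat_lit 344117) (nat_lit 21) (.e (nat_lit 516179) (nat_lit 15) (.e (nat_lit 475198) (nat_lit 40) (.e (nat_lit 704590) (nat_lit 3) .nil))))))) (.g (nat_lit 1) (.e (nat_lit 168430) (nat_lit 0) .nil) .nil))) 
(.lf (nat_lit 500712) (.g (nat_lit 3355) (.e (nat_lit 163977) (nat_lit 30) (.e (nat_lit 573489) (nat_lit 14) (.e (nat_lit 73755) (nat_lit 8) (.e (nat_lit 557105) (nat_lit 14) (.e (nat_lit 180252) (nat_lit 10) (.e (nat_lit 573478) (nat_lit 12) (.e (nat_lit 57500) (nat_lit 37) (.e (nat_lit 630799) (nat_lit 7) .nil)))))))) (.g (nat_lit 1) (.e (nat_lit 169293) (nat_lit 0) .nil) .nil)))))))) 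
(.nd (nat_lit 5) (.nd (nat_lit 6) (.nd (nat_lit 7) (.nd (nat_lit 8) (.nd (nat_lit 9) 
(.lf (nat_lit 499736) (.g (nat_lit 2551) (.e (nat_lit 163976) (nat_lit 30) (.e (nat_lit 573491) (nat_lit 15) (.e (nat_lit 81954) (nat_lit 23) (.e (nat_lit 98356) (nat_lit 26) (.e (nat_lit 426444) (nat_lit 19) (.e (nat_lit 114432) (nat_lit 3) .nil)))))) (.g (nat_lit 1) (.e (nat_lit 167460) (nat_lit 0) .nil) .nil))) 
(.lf (nat_lit 500248) (.g (nat_lit 2397) (.e (nat_lit 163977) (nat_lit 30) (.e (nat_lit 573485) (nat_lit 13) (.e (nat_lit 65604) (nat_lit 9) (.e (nat_lit 336028) (nat_lit 3) (.e (nat_lit 98360) (nat_lit 26) (.e (nat_lit 426025) (nat_lit 0) (.e (nat_lit 3397) (nat_lit 211) (.e (nat_lit 647181) (nat_lit 3) .nil)))))))) (.g (nat_lit 1) (.e (nat_lit 168515) (nat_lit 0) .nil) .nil)))) (.nd (nat_lit 9) 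
(.lf (nat_lit 499992) (.g (nat_lit 2976) (.e (nat_lit 163977) (nat_lit 30) (.e (nat_lit 573482) (nat_lit 13) (.e (nat_lit 65604) (nat_lit 9) (.e (nat_lit 336013) (nat_lit 2) (.e (nat_lit 90170) (nat_lit 13) (.e (nat_lit 172049) (nat_lit 0) (.e (nat_lit 2458) (nat_lit 157) (.e (nat_lit 5546) (nat_lit 306) (.e (nat_lit 2611) (nat_lit 163) .nil))))))))) (.g (nat_lit 1) (.e (nat_lit 168117) (nat_lit 0) .nil) .nil))) 
(.lf (nat_lit 500504) (.g (nat_lit 3109) (.e (nat_lit 163977) (nat_lit 30) (.e (nat_lit 573489) (nat_lit 14) (.e (nat_lit 73754) (nat_lit 8) (.e (nat_lit 557105) (nat_lit 14) (.e (nat_lit 180252) (nat_lit 10) (.e (nat_lit 573473) (nat_lit 12) (.e (nat_lit 57501) (nat_lit 37) (.e (nat_lit 630799) (nat_lit 7) .nil)))))))) (.g (nat_lit 1) (.e (nat_lit 168940) (nat_lit 0) .nil) .nil))))) 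
(.nd (nat_lit 8) (.nd (nat_lit 9) 
(.lf (nat_lit 499864) (.g (nat_lit 1268) (.e (nat_lit 163976) (nat_lit 30) (.e (nat_lit 573492) (nat_lit 15) (.e (nat_lit 81956) (nat_lit 23) (.e (nat_lit 98359) (nat_lit 26) .nil)))) (.g (nat_lit 0) (.e (nat_lit 167826) (nat_lit 0) .nil) .nil))) 
(.lf (nat_lit 500376) (.g (nat_lit 2676) (.e (nat_lit 163977) (nat_lit 30) (.e (nat_lit 573487) (nat_lit 14) (.e (nat_lit 73753) (nat_lit 8) (.e (nat_lit 557100) (nat_lit 13) (.e (nat_lit 172065) (nat_lit 3) .nil))))) (.g (nat_lit 0) (.e (nat_lit 168733) (nat_lit 0) .nil) .nil)))) (.nd (nat_lit 9) 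
(.lf (nat_lit 500120) (.g (nat_lit 3756) (.e (nat_lit 163977) (nat_lit 30) (.e (nat_lit 573482) (nat_lit 13) (.e (nat_lit 65619) (nat_lit 10) (.e (nat_lit 344117) (nat_lit 21) (.e (nat_lit 516160) (nat_lit 10) (.e (nat_lit 434209) (nat_lit 18) (.e (nat_lit 5546) (nat_lit 306) (.e (nat_lit 2601) (nat_lit 163) .nil)))))))) (.g (nat_lit 1) (.e (nat_lit 168262) (nat_lit 0) .nil) .nil))) 
(.lf (nat_lit 500632) (.g (nat_lit 1290) (.e (nat_lit 163977) (nat_lit 30) (.e (nat_lit 573489) (nat_lit 14) (.e (nat_lit 73755) (nat_lit 8) (.e (nat_lit 557104) (nat_lit 14) .nil)))) (.g (nat_lit 0) (.e (nat_lit 169150) (nat_lit 0) .nil) .nil)))))) (.nd (nat_lit 7) (.nd (nat_lit 8) (.nd (nat_lit 9) 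
(.lf (nat_lit 499800) (.g (nat_lit 6326) (.e (nat_lit 163976) (nat_lit 30) (.e (nat_lit 573492) (nat_lit 15) (.e (nat_lit 81953) (nat_lit 22) (.e (nat_lit 90169) (nat_lit 13) (.e (nat_lit 172133) (nat_lit 15) (.e (nat_lit 2059) (nat_lit 142) (.e (nat_lit 704589) (nat_lit 3) .nil))))))) (.g (nat_lit 1) (.e (nat_lit 167631) (nat_lit 0) .nil) .nil))) 
(.lf (nat_lit 500312) (.g (nat_lit 4010) (.e (nat_lit 163977) (nat_lit 30) (.e (nat_lit 573485) (nat_lit 13) (.e (nat_lit 65619) (nat_lit 10) (.e (nat_lit 344117) (nat_lit 21) (.e (nat_lit 516151) (nat_lit 9) (.e (nat_lit 426104) (nat_lit 1) (.e (nat_lit 164348) (nat_lit 240) (.e (nat_lit 2611) (nat_lit 163) .nil)))))))) (.g (nat_lit 1) (.e (nat_lit 168584) (nat_lit 0) .nil) .nil)))) 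
(.nd (nat_lit 9) 
(.lf (nat_lit 500056) (.g (nat_lit 2437) (.e (nat_lit 163977) (nat_lit 30) (.e (nat_lit 573482) (nat_lit 13) (.e (nat_lit 65604) (nat_lit 9) (.e (nat_lit 336028) (nat_lit 3) (.e (nat_lit 98376) (nat_lit 30) .nil))))) (.g (nat_lit 0) (.e (nat_lit 168196) (nat_lit 0) .nil) .nil))) 
(.lf (nat_lit 500568) (.g (nat_lit 3332) (.e (nat_lit 163977) (nat_lit 30) (.e (nat_lit 573489) (nat_lit 14) (.e (nat_lit 73755) (nat_lit 8) (.e (nat_lit 557098) (nat_lit 13) (.e (nat_lit 172067) (nat_lit 3) (.e (nat_lit 204814) (nat_lit 17) (.e (nat_lit 2270) (nat_lit 149) (.e (nat_lit 761899) (nat_lit 15) .nil)))))))) (.g (nat_lit 1) (.e (nat_lit 169057) (nat_lit 0) .nil) .nil))))) 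
(.nd (nat_lit 8) (.nd (nat_lit 9) 
(.lf (nat_lit 499928) (.g (nat_lit 2954) (.e (nat_lit 163976) (nat_lit 30) (.e (nat_lit 573492) (nat_lit 15) (.e (nat_lit 81956) (nat_lit 23) (.e (nat_lit 98385) (nat_lit 32) (.e (nat_lit 475205) (nat_lit 40) (.e (nat_lit 704588) (nat_lit 3) .nil)))))) (.g (nat_lit 1) (.e (nat_lit 167982) (nat_lit 0) .nil) .nil))) 
(.lf (nat_lit 500440) (.g (nat_lit 3987) (.e (nat_lit 163977) (nat_lit 30) (.e (nat_lit 573487) (nat_lit 14) (.e (nat_lit 73754) (nat_lit 8) (.e (nat_lit 557105) (nat_lit 14) (.e (nat_lit 180252) (nat_lit 10) (.e (nat_lit 573475) (nat_lit 12) (.e (nat_lit 57503) (nat_lit 38) (.e (nat_lit 638996) (nat_lit 7) .nil)))))))) (.g (nat_lit 1) (.e (nat_lit 168855) (nat_lit 0) .nil) .nil)))) 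
(.nd (nat_lit 9) 
(.lf (nat_lit 500184) (.g (nat_lit 2785) (.e (nat_lit 163977) (nat_lit 30) (.e (nat_lit 573484) (nat_lit 13) (.e (nat_lit 65610) (nat_lit 10) (.e (nat_lit 344117) (nat_lit 21) (.e (nat_lit 516152) (nat_lit 9) .nil))))) (.g (nat_lit 0) (.e (nat_lit 168382) (nat_lit 0) .nil) .nil))) 
(.lf (nat_lit 500696) (.g (nat_lit 3291) (.e (nat_lit 163977) (nat_lit 30) (.e (nat_lit 573489) (nat_lit 14) (.e (nat_lit 73755) (nat_lit 8) (.e (nat_lit 557105) (nat_lit 14) (.e (nat_lit 180251) (nat_lit 10) (.e (nat_lit 573478) (nat_lit 12) (.e (nat_lit 57500) (nat_lit 37) (.e (nat_lit 630799) (nat_lit 7) .nil)))))))) (.g (nat_lit 1) (.e (nat_lit 169252) (nat_lit 0) .nil) .nil))))))) 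
(.nd (nat_lit 6) (.nd (nat_lit 7) (.nd (nat_lit 8) (.nd (nat_lit 9) 
(.lf (nat_lit 499768) (.g (nat_lit 2494) (.e (nat_lit 163976) (nat_lit 30) (.e (nat_lit 573491) (nat_lit 15) (.e (nat_lit 81954) (nat_lit 23) (.e (nat_lit 98384) (nat_lit 32) (.e (nat_lit 475201) (nat_lit 40) (.e (nat_lit 712448) (nat_lit 3) .nil)))))) (.g (nat_lit 1) (.e (nat_lit 167536) (nat_lit 0) .nil) .nil))) 
(.lf (nat_lit 500280) (.g (nat_lit 3371) (.e (nat_lit 163977) (nat_lit 30) (.e (nat_lit 573485) (nat_lit 13) (.e (nat_lit 65619) (nat_lit 10) (.e (nat_lit 344117) (nat_lit 21) (.e (nat_lit 516097) (nat_lit 0) (.e (nat_lit 7366) (nat_lit 388) (.e (nat_lit 2610) (nat_lit 163) (.e (nat_lit 164347) (nat_lit 240) (.e (nat_lit 2610) (nat_lit 163) .nil))))))))) (.g (nat_lit 1) (.e (nat_lit 168551) (nat_lit 0) .nil) .nil)))) 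
(.nd (nat_lit 9) 
(.lf (nat_lit 500024) (.g (nat_lit 3566) (.e (nat_lit 163977) (nat_lit 30) (.e (nat_lit 573482) (nat_lit 13) (.e (nat_lit 65604) (nat_lit 9) (.e (nat_lit 336028) (nat_lit 3) (.e (nat_lit 98359) (nat_lit 26) (.e (nat_lit 426104) (nat_lit 1) (.e (nat_lit 164345) (nat_lit 240) (.e (nat_lit 2600) (nat_lit 163) .nil)))))))) (.g (nat_lit 1) (.e (nat_lit 168158) (nat_lit 0) .nil) .nil))) 
(.lf (nat_lit 500536) (.g (nat_lit 1972) (.e (nat_lit 163977) (nat_lit 30) (.e (nat_lit 573489) (nat_lit 14) (.e (nat_lit 73755) (nat_lit 8) (.e (nat_lit 557097) (nat_lit 13) (.e (nat_lit 172066) (nat_lit 3) .nil))))) (.g (nat_lit 0) (.e (nat_lit 169001) (nat_lit 0) .nil) .nil))))) (.nd (nat_lit 8) (.nd (nat_lit 9) 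
(.lf (nat_lit 499896) (.g (nat_lit 2798) (.e (nat_lit 163976) (nat_lit 30) (.e (nat_lit 573492) (nat_lit 15) (.e (nat_lit 81956) (nat_lit 23) (.e (nat_lit 98363) (nat_lit 26) (.e (nat_lit 426441) (nat_lit 19) (.e (nat_lit 114432) (nat_lit 3) .nil)))))) (.g (nat_lit 1) (.e (nat_lit 167897) (nat_lit 0) .nil) .nil))) 
(.lf (nat_lit 500408) (.g (nat_lit 4408) (.e (nat_lit 163977) (nat_lit 30) (.e (nat_lit 573487) (nat_lit 14) (.e (nat_lit 73753) (nat_lit 8) (.e (nat_lit 557103) (nat_lit 14) (.e (nat_lit 180251) (nat_lit 10) (.e (nat_lit 573475) (nat_lit 12) (.e (nat_lit 57503) (nat_lit 38) (.e (nat_lit 638995) (nat_lit 7) .nil)))))))) (.g (nat_lit 1) (.e (nat_lit 168820) (nat_lit 0) .nil) .nil)))) 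
(.nd (nat_lit 9) 
(.lf (nat_lit 500152) (.g (nat_lit 2465) (.e (nat_lit 163977) (nat_lit 30) (.e (nat_lit 573484) (nat_lit 13) (.e (nat_lit 65610) (nat_lit 10) (.e (nat_lit 344117) (nat_lit 21) (.e (nat_lit 516145) (nat_lit 9) .nil))))) (.g (nat_lit 0) (.e (nat_lit 168318) (nat_lit 0) .nil) .nil))) 
(.lf (nat_lit 500664) (.g (nat_lit 2638) (.e (nat_lit 163977) (nat_lit 30) (.e (nat_lit 573489) (nat_lit 14) (.e (nat_lit 73755) (nat_lit 8) (.e (nat_lit 557104) (nat_lit 14) (.e (nat_lit 180250) (nat_lit 10) (.e (nat_lit 573475) (nat_lit 12) (.e (nat_lit 57501) (nat_lit 37) (.e (nat_lit 630800) (nat_lit 7) .nil)))))))) (.g (nat_lit 1) (.e (nat_lit 169218) (nat_lit 0) .nil) .nil)))))) 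
(.nd (nat_lit 7) (.nd (nat_lit 8) (.nd (nat_lit 9) 
(.lf (nat_lit 499832) (.g (nat_lit 2974) (.e (nat_lit 163976) (nat_lit 30) (.e (nat_lit 573492) (nat_lit 15) (.e (nat_lit 81956) (nat_lit 23) (.e (nat_lit 98356) (nat_lit 26) (.e (nat_lit 426360) (nat_lit 15) (.e (nat_lit 2045) (nat_lit 142) (.e (nat_lit 704589) (nat_lit 3) .nil))))))) (.g (nat_lit 1) (.e (nat_lit 167789) (nat_lit 0) .nil) .nil))) 
(.lf (nat_lit 500344) (.g (nat_lit 4385) (.e (nat_lit 163977) (nat_lit 30) (.e (nat_lit 573485) (nat_lit 13) (.e (nat_lit 65619) (nat_lit 10) (.e (nat_lit 344117) (nat_lit 21) (.e (nat_lit 516160) (nat_lit 10) (.e (nat_lit 434209) (nat_lit 18) (.e (nat_lit 5546) (nat_lit 306) (.e (nat_lit 2600) (nat_lit 163) .nil)))))))) (.g (nat_lit 1) (.e (nat_lit 168616) (nat_lit 0) .nil) .nil)))) 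
(.nd (nat_lit 9) 
(.lf (nat_lit 500088) (.g (nat_lit 4439) (.e (nat_lit 163977) (nat_lit 30) (.e (nat_lit 573482) (nat_lit 13) (.e (nat_lit 65619) (nat_lit 10) (.e (nat_lit 344117) (nat_lit 21) (.e (nat_lit 516151) (nat_lit 9) (.e (nat_lit 426104) (nat_lit 1) (.e (nat_lit 164348) (nat_lit 240) (.e (nat_lit 2610) (nat_lit 163) .nil)))))))) (.g (nat_lit 1) (.e (nat_lit 168230) (nat_lit 0) .nil) .nil))) 
(.lf (nat_lit 500600) (.g (nat_lit 3697) (.e (nat_lit 163977) (nat_lit 30) (.e (nat_lit 573489) (nat_lit 14) (.e (nat_lit 73755) (nat_lit 8) (.e (nat_lit 557103) (nat_lit 14) (.e (nat_lit 180244) (nat_lit 5) (.e (nat_lit 532489) (nat_lit 0) (.e (nat_lit 7936) (nat_lit 149) (.e (nat_lit 761898) (nat_lit 15) .nil)))))))) (.g (nat_lit 1) (.e (nat_lit 169110) (nat_lit 0) .nil) .nil))))) 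
(.nd (nat_lit 8) (.nd (nat_lit 9) 
(.lf (nat_lit 499960) (.g (nat_lit 2062) (.e (nat_lit 163977) (nat_lit 30) (.e (nat_lit 573479) (nat_lit 13) (.e (nat_lit 65619) (nat_lit 10) (.e (nat_lit 344117) (nat_lit 21) (.e (nat_lit 516170) (nat_lit 13) (.e (nat_lit 458774) (nat_lit 18) (.e (nat_lit 5547) (nat_lit 306) (.e (nat_lit 2611) (nat_lit 163) .nil)))))))) (.g (nat_lit 1) (.e (nat_lit 168075) (nat_lit 0) .nil) .nil))) 
(.lf (nat_lit 500472) (.g (nat_lit 3789) (.e (nat_lit 163977) (nat_lit 30) (.e (nat_lit 573489) (nat_lit 14) (.e (nat_lit 73754) (nat_lit 8) (.e (nat_lit 557100) (nat_lit 13) (.e (nat_lit 172065) (nat_lit 3) (.e (nat_lit 204817) (nat_lit 17) (.e (nat_lit 7936) (nat_lit 149) (.e (nat_lit 761899) (nat_lit 15) .nil)))))))) (.g (nat_lit 1) (.e (nat_lit 168897) (nat_lit 0) .nil) .nil)))) 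
(.nd (nat_lit 9) 
(.lf (nat_lit 500216) (.g (nat_lit 3233) (.e (nat_lit 163977) (nat_lit 30) (.e (nat_lit 573485) (nat_lit 13) (.e (nat_lit 65604) (nat_lit 9) (.e (nat_lit 336013) (nat_lit 2) (.e (nat_lit 90170) (nat_lit 13) (.e (nat_lit 172049) (nat_lit 0) (.e (nat_lit 2458) (nat_lit 157) (.e (nat_lit 5546) (nat_lit 306) (.e (nat_lit 2600) (nat_lit 163) .nil))))))))) (.g (nat_lit 1) (.e (nat_lit 168452) (nat_lit 0) .nil) .nil))) 
(.lf (nat_lit 500728) (.g (nat_lit 3947) (.e (nat_lit 163977) (nat_lit 30) (.e (nat_lit 573491) (nat_lit 15) (.e (nat_lit 81951) (nat_lit 22) (.e (nat_lit 90170) (nat_lit 13) (.e (nat_lit 172039) (nat_lit 0) (.e (nat_lit 3397) (nat_lit 211) (.e (nat_lit 647181) (nat_lit 3) .nil))))))) (.g (nat_lit 1) (.e (nat_lit 169333) (nat_lit 0) .nil) .nil)))))))))) 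
(.nd (nat_lit 3) (.nd (nat_lit 4) (.nd (nat_lit 5) (.nd (nat_lit 6) (.nd (nat_lit 7) 
(.nd (nat_lit 8) (.nd (nat_lit 9) 
(.lf (nat_lit 499716) (.g (nat_lit 2285) (.e (nat_lit 163976) (nat_lit 30) (.e (nat_lit 573491) (nat_lit 15) (.e (nat_lit 81954) (nat_lit 23) (.e (nat_lit 98356) (nat_lit 26) (.e (nat_lit 426360) (nat_lit 15) (.e (nat_lit 2047) (nat_lit 142) (.e (nat_lit 704589) (nat_lit 3) .nil))))))) (.g (nat_lit 1) (.e (nat_lit 167440) (nat_lit 0) .nil) .nil))) 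
(.lf (nat_lit 500228) (.g (nat_lit 2005) (.e (nat_lit 163977) (nat_lit 30) (.e (nat_lit 573485) (nat_lit 13) (.e (nat_lit 65604) (nat_lit 9) (.e (nat_lit 336013) (nat_lit 2) (.e (nat_lit 90170) (nat_lit 13) (.e (nat_lit 172061) (nat_lit 1) (.e (nat_lit 164347) (nat_lit 240) (.e (nat_lit 2600) (nat_lit 163) .nil)))))))) (.g (nat_lit 1) (.e (nat_lit 168465) (nat_lit 0) .nil) .nil)))) 
(.nd (nat_lit 9) 
(.lf (nat_lit 499972) (.g (nat_lit 2575) (.e (nat_lit 163977) (nat_lit 30) (.e (nat_lit 573481) (nat_lit 13) (.e (nat_lit 65619) (nat_lit 10) (.e (nat_lit 344117) (nat_lit 21) (.e (nat_lit 516159) (nat_lit 10) .nil))))) (.g (nat_lit 0) (.e (nat_lit 168089) (nat_lit 0) .nil) .nil))) 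
(.lf (nat_lit 500484) (.g (nat_lit 2486) (.e (nat_lit 163977) (nat_lit 30) (.e (nat_lit 573489) (nat_lit 14) (.e (nat_lit 73754) (nat_lit 8) (.e (nat_lit 557101) (nat_lit 13) (.e (nat_lit 172066) (nat_lit 3) (.e (nat_lit 204817) (nat_lit 17) (.e (nat_lit 2272) (nat_lit 149) (.e (nat_lit 761899) (nat_lit 15) .nil)))))))) (.g (nat_lit 1) (.e (nat_lit 168918) (nat_lit 0) .nil) .nil))))) 
(.nd (nat_lit 8) (.nd (nat_lit 9) 
(.lf (nat_lit 499844) (.g (nat_lit 2725) (.e (nat_lit 163976) (nat_lit 30) (.e (nat_lit 573492) (nat_lit 15) (.e (nat_lit 81956) (nat_lit 23) (.e (nat_lit 98356) (nat_lit 26) (.e (nat_lit 426363) (nat_lit 15) (.e (nat_lit 7936) (nat_lit 142) (.e (nat_lit 704589) (nat_lit 3) .nil))))))) (.g (nat_lit 1) (.e (nat_lit 167801) (nat_lit 0) .nil) .nil))) 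
(.lf (nat_lit 500356) (.g (nat_lit 2630) (.e (nat_lit 163977) (nat_lit 30) (.e (nat_lit 573485) (nat_lit 13) (.e (nat_lit 65619) (nat_lit 10) (.e (nat_lit 344117) (nat_lit 21) (.e (nat_lit 516161) (nat_lit 10) (.e (nat_lit 434209) (nat_lit 18) (.e (nat_lit 5548) (nat_lit 306) (.e (nat_lit 2601) (nat_lit 163) .nil)))))))) (.g (nat_lit 1) (.e (nat_lit 168628) (nat_lit 0) .nil) .nil)))) 
(.nd (nat_lit 9) 
(.lf (nat_lit 500100) (.g (nat_lit 2617) (.e (nat_lit 163977) (nat_lit 30) (.e (nat_lit 573482) (nat_lit 13) (.e (nat_lit 65619) (nat_lit 10) (.e (nat_lit 344117) (nat_lit 21) (.e (nat_lit 516152) (nat_lit 9) (.e (nat_lit 426109) (nat_lit 1) (.e (nat_lit 164346) (nat_lit 240) (.e (nat_lit 2611) (nat_lit 163) .nil)))))))) (.g (nat_lit 1) (.e (nat_lit 168242) (nat_lit 0) .nil) .nil))) 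
(.lf (nat_lit 500612) (.g (nat_lit 5038) (.e (nat_lit 163977) (nat_lit 30) (.e (nat_lit 573489) (nat_lit 14) (.e (nat_lit 73755) (nat_lit 8) (.e (nat_lit 557103) (nat_lit 14) (.e (nat_lit 180250) (nat_lit 10) (.e (nat_lit 573474) (nat_lit 12) (.e (nat_lit 57503) (nat_lit 38) (.e (nat_lit 638995) (nat_lit 7) .nil)))))))) (.g (nat_lit 1) (.e (nat_lit 169130) (nat_lit 0) .nil) .nil)))))) 
(.nd (nat_lit 7) (.nd (nat_lit 8) (.nd (nat_lit 9) 
(.lf (nat_lit 499780) (.g (nat_lit 2823) (.e (nat_lit 163976) (nat_lit 30) (.e (nat_lit 573491) (nat_lit 15) (.e (nat_lit 81955) (nat_lit 23) (.e (nat_lit 98384) (nat_lit 32) (.e (nat_lit 475199) (nat_lit 40) (.e (nat_lit 704589) (nat_lit 3) .nil)))))) (.g (nat_lit 1) (.e (nat_lit 167548) (nat_lit 0) .nil) .nil))) 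
(.lf (nat_lit 500292) (.g (nat_lit 2319) (.e (nat_lit 163977) (nat_lit 30) (.e (nat_lit 573485) (nat_lit 13) (.e (nat_lit 65619) (nat_lit 10) (.e (nat_lit 344117) (nat_lit 21) (.e (nat_lit 516148) (nat_lit 9) (.e (nat_lit 426444) (nat_lit 19) (.e (nat_lit 114432) (nat_lit 3) .nil))))))) (.g (nat_lit 1) (.e (nat_lit 168564) (nat_lit 0) .nil) .nil)))) (.nd (nat_lit 9) 
(.lf (nat_lit 500036) (.g (nat_lit 2437) (.e (nat_lit 163977) (nat_lit 30) (.e (nat_lit 573482) (nat_lit 13) (.e (nat_lit 65604) (nat_lit 9) (.e (nat_lit 336028) (nat_lit 3) (.e (nat_lit 98364) (nat_lit 26) .nil))))) (.g (nat_lit 0) (.e (nat_lit 168175) (nat_lit 0) .nil) .nil))) 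
(.lf (nat_lit 500548) (.g (nat_lit 3162) (.e (nat_lit 163977) (nat_lit 30) (.e (nat_lit 573489) (nat_lit 14) (.e (nat_lit 73755) (nat_lit 8) (.e (nat_lit 557097) (nat_lit 13) (.e (nat_lit 172067) (nat_lit 3) (.e (nat_lit 204815) (nat_lit 17) (.e (nat_lit 2271) (nat_lit 149) (.e (nat_lit 761897) (nat_lit 15) .nil)))))))) (.g (nat_lit 1) (.e (nat_lit 169021) (nat_lit 0) .nil) .nil))))) 
(.nd (nat_lit 8) (.nd (nat_lit 9) 
(.lf (nat_lit 499908) (.g (nat_lit 3542) (.e (nat_lit 163976) (nat_lit 30) (.e (nat_lit 573492) (nat_lit 15) (.e (nat_lit 81956) (nat_lit 23) (.e (nat_lit 98367) (nat_lit 27) (.e (nat_lit 434272) (nat_lit 38) (.e (nat_lit 655373) (nat_lit 3) .nil)))))) (.g (nat_lit 1) (.e (nat_lit 167938) (nat_lit 0) .nil) .nil))) 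
(.lf (nat_lit 500420) (.g (nat_lit 4178) (.e (nat_lit 163977) (nat_lit 30) (.e (nat_lit 573487) (nat_lit 14) (.e (nat_lit 73753) (nat_lit 8) (.e (nat_lit 557105) (nat_lit 14) (.e (nat_lit 180252) (nat_lit 10) (.e (nat_lit 573473) (nat_lit 12) (.e (nat_lit 57503) (nat_lit 38) (.e (nat_lit 638996) (nat_lit 7) .nil)))))))) (.g (nat_lit 1) (.e (nat_lit 168834) (nat_lit 0) .nil) .nil)))) 
(.nd (nat_lit 9) 
(.lf (nat_lit 500164) (.g (nat_lit 2536) (.e (nat_lit 163977) (nat_lit 30) (.e (nat_lit 573484) (nat_lit 13) (.e (nat_lit 65610) (nat_lit 10) (.e (nat_lit 344117) (nat_lit 21) (.e (nat_lit 516151) (nat_lit 9) (.e (nat_lit 426003) (nat_lit 0) (.e (nat_lit 3401) (nat_lit 211) (.e (nat_lit 647181) (nat_lit 3) .nil)))))))) (.g (nat_lit 1) (.e (nat_lit 168340) (nat_lit 0) .nil) .nil))) 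
(.lf (nat_lit 500676) (.g (nat_lit 3466) (.e (nat_lit 163977) (nat_lit 30) (.e (nat_lit 573489) (nat_lit 14) (.e (nat_lit 73755) (nat_lit 8) (.e (nat_lit 557104) (nat_lit 14) (.e (nat_lit 180252) (nat_lit 10) (.e (nat_lit 573473) (nat_lit 12) (.e (nat_lit 57501) (nat_lit 37) (.e (nat_lit 630800) (nat_lit 7) .nil)))))))) (.g (nat_lit 1) (.e (nat_lit 169230) (nat_lit 0) .nil) .nil))))))) 
(.nd (nat_lit 6) (.nd (nat_lit 7) (.nd (nat_lit 8) (.nd (nat_lit 9) 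
(.lf (nat_lit 499748) (.g (nat_lit 2657) (.e (nat_lit 163976) (nat_lit 30) (.e (nat_lit 573491) (nat_lit 15) (.e (nat_lit 81954) (nat_lit 23) (.e (nat_lit 98359) (nat_lit 26) (.e (nat_lit 426025) (nat_lit 0) (.e (nat_lit 3399) (nat_lit 211) (.e (nat_lit 647180) (nat_lit 3) .nil))))))) (.g (nat_lit 1) (.e (nat_lit 167477) (nat_lit 0) .nil) .nil))) 
(.lf (nat_lit 500260) (.g (nat_lit 4148) (.e (nat_lit 163977) (nat_lit 30) (.e (nat_lit 573485) (nat_lit 13) (.e (nat_lit 65604) (nat_lit 9) (.e (nat_lit 336028) (nat_lit 3) (.e (nat_lit 98366) (nat_lit 27) (.e (nat_lit 434209) (nat_lit 18) (.e (nat_lit 5547) (nat_lit 306) (.e (nat_lit 2601) (nat_lit 163) .nil)))))))) (.g (nat_lit 1) (.e (nat_lit 168530) (nat_lit 0) .nil) .nil)))) 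
(.nd (nat_lit 9) 
(.lf (nat_lit 500004) (.g (nat_lit 4300) (.e (nat_lit 163977) (nat_lit 30) (.e (nat_lit 573482) (nat_lit 13) (.e (nat_lit 65604) (nat_lit 9) (.e (nat_lit 336013) (nat_lit 2) (.e (nat_lit 90170) (nat_lit 13) (.e (nat_lit 172061) (nat_lit 1) (.e (nat_lit 164348) (nat_lit 240) (.e (nat_lit 2601) (nat_lit 163) .nil)))))))) (.g (nat_lit 1) (.e (nat_lit 168129) (nat_lit 0) .nil) .nil))) 
(.lf (nat_lit 500516) (.g (nat_lit 5054) (.e (nat_lit 163977) (nat_lit 30) (.e (nat_lit 573489) (nat_lit 14) (.e (nat_lit 73754) (nat_lit 8) (.e (nat_lit 557105) (nat_lit 14) (.e (nat_lit 180252) (nat_lit 10) (.e (nat_lit 573475) (nat_lit 12) (.e (nat_lit 57503) (nat_lit 38) (.e (nat_lit 638996) (nat_lit 7) .nil)))))))) (.g (nat_lit 1) (.e (nat_lit 168952) (nat_lit 0) .nil) .nil))))) 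
(.nd (nat_lit 8) (.nd (nat_lit 9) 
(.lf (nat_lit 499876) (.g (nat_lit 2613) (.e (nat_lit 163976) (nat_lit 30) (.e (nat_lit 573492) (nat_lit 15) (.e (nat_lit 81956) (nat_lit 23) (.e (nat_lit 98359) (nat_lit 26) (.e (nat_lit 426394) (nat_lit 15) .nil))))) (.g (nat_lit 0) (.e (nat_lit 167865) (nat_lit 0) .nil) .nil))) 
(.lf (nat_lit 500388) (.g (nat_lit 4128) (.e (nat_lit 163977) (nat_lit 30) (.e (nat_lit 573487) (nat_lit 14) (.e (nat_lit 73753) (nat_lit 8) (.e (nat_lit 557103) (nat_lit 14) (.e (nat_lit 180244) (nat_lit 5) (.e (nat_lit 532481) (nat_lit 0) (.e (nat_lit 2271) (nat_lit 149) (.e (nat_lit 761898) (nat_lit 15) .nil)))))))) (.g (nat_lit 1) (.e (nat_lit 168790) (nat_lit 0) .nil) .nil)))) 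
(.nd (nat_lit 9) 
(.lf (nat_lit 500132) (.g (nat_lit 2491) (.e (nat_lit 163977) (nat_lit 30) (.e (nat_lit 573482) (nat_lit 13) (.e (nat_lit 65619) (nat_lit 10) (.e (nat_lit 344117) (nat_lit 21) (.e (nat_lit 516169) (nat_lit 13) (.e (nat_lit 458774) (nat_lit 18) (.e (nat_lit 5546) (nat_lit 306) (.e (nat_lit 2600) (nat_lit 163) .nil)))))))) (.g (nat_lit 1) (.e (nat_lit 168274) (nat_lit 0) .nil) .nil))) 
(.lf (nat_lit 500644) (.g (nat_lit 4061) (.e (nat_lit 163977) (nat_lit 30) (.e (nat_lit 573489) (nat_lit 14) (.e (nat_lit 73755) (nat_lit 8) (.e (nat_lit 557104) (nat_lit 14) (.e (nat_lit 180244) (nat_lit 5) (.e (nat_lit 532484) (nat_lit 0) (.e (nat_lit 2272) (nat_lit 149) (.e (nat_lit 761899) (nat_lit 15) .nil)))))))) (.g (nat_lit 1) (.e (nat_lit 169171) (nat_lit 0) .nil) .nil)))))) 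
(.nd (nat_lit 7) (.nd (nat_lit 8) (.nd (nat_lit 9) 
(.lf (nat_lit 499812) (.g (nat_lit 2259) (.e (nat_lit 163976) (nat_lit 30) (.e (nat_lit 573492) (nat_lit 15) (.e (nat_lit 81954) (nat_lit 23) (.e (nat_lit 98359) (nat_lit 26) (.e (nat_lit 426412) (nat_lit 15) .nil))))) (.g (nat_lit 0) (.e (nat_lit 167736) (nat_lit 0) .nil) .nil))) 
(.lf (nat_lit 500324) (.g (nat_lit 2707) (.e (nat_lit 163977) (nat_lit 30) (.e (nat_lit 573485) (nat_lit 13) (.e (nat_lit 65619) (nat_lit 10) (.e (nat_lit 344117) (nat_lit 21) (.e (nat_lit 516153) (nat_lit 9) (.e (nat_lit 426025) (nat_lit 0) (.e (nat_lit 3399) (nat_lit 211) (.e (nat_lit 647181) (nat_lit 3) .nil)))))))) (.g (nat_lit 1) (.e (nat_lit 168596) (nat_lit 0) .nil) .nil)))) 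
(.nd (nat_lit 9) 
(.lf (nat_lit 500068) (.g (nat_lit 2799) (.e (nat_lit 163977) (nat_lit 30) (.e (nat_lit 573482) (nat_lit 13) (.e (nat_lit 65619) (nat_lit 10) (.e (nat_lit 344117) (nat_lit 21) (.e (nat_lit 516146) (nat_lit 9) (.e (nat_lit 426444) (nat_lit 19) (.e (nat_lit 114432) (nat_lit 3) .nil))))))) (.g (nat_lit 1) (.e (nat_lit 168210) (nat_lit 0) .nil) .nil))) 
(.lf (nat_lit 500580) (.g (nat_lit 2553) (.e (nat_lit 163977) (nat_lit 30) (.e (nat_lit 573489) (nat_lit 14) (.e (nat_lit 73755) (nat_lit 8) (.e (nat_lit 557099) (nat_lit 13) .nil)))) (.g (nat_lit 0) (.e (nat_lit 169077) (nat_lit 0) .nil) .nil))))) (.nd (nat_lit 8) (.nd (nat_lit 9) 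
(.lf (nat_lit 499940) (.g (nat_lit 4329) (.e (nat_lit 163976) (nat_lit 30) (.e (nat_lit 573493) (nat_lit 15) (.e (nat_lit 81956) (nat_lit 23) (.e (nat_lit 98357) (nat_lit 26) .nil)))) (.g (nat_lit 0) (.e (nat_lit 168024) (nat_lit 0) .nil) .nil))) 
(.lf (nat_lit 500452) (.g (nat_lit 3133) (.e (nat_lit 163977) (nat_lit 30) (.e (nat_lit 573488) (nat_lit 14) (.e (nat_lit 73755) (nat_lit 8) (.e (nat_lit 557098) (nat_lit 13) (.e (nat_lit 172067) (nat_lit 3) .nil))))) (.g (nat_lit 0) (.e (nat_lit 168870) (nat_lit 0) .nil) .nil)))) (.nd (nat_lit 9) 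
(.lf (nat_lit 500196) (.g (nat_lit 2825) (.e (nat_lit 163977) (nat_lit 30) (.e (nat_lit 573484) (nat_lit 13) (.e (nat_lit 65610) (nat_lit 10) (.e (nat_lit 344117) (nat_lit 21) (.e (nat_lit 516160) (nat_lit 10) (.e (nat_lit 434272) (nat_lit 38) (.e (nat_lit 655373) (nat_lit 3) .nil))))))) (.g (nat_lit 1) (.e (nat_lit 168409) (nat_lit 0) .nil) .nil))) 
(.lf (nat_lit 500708) (.g (nat_lit 2351) (.e (nat_lit 163977) (nat_lit 30) (.e (nat_lit 573489) (nat_lit 14) (.e (nat_lit 73755) (nat_lit 8) (.e (nat_lit 557105) (nat_lit 14) (.e (nat_lit 180252) (nat_lit 10) (.e (nat_lit 573475) (nat_lit 12) (.e (nat_lit 57503) (nat_lit 38) (.e (nat_lit 638994) (nat_lit 7) .nil)))))))) (.g (nat_lit 1) (.e (nat_lit 169289) (nat_lit 0) .nil) .nil)))))))) 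
(.nd (nat_lit 5) (.nd (nat_lit 6) (.nd (nat_lit 7) (.nd (nat_lit 8) (.nd (nat_lit 9) 
(.lf (nat_lit 499732) (.g (nat_lit 1742) (.e (nat_lit 163976) (nat_lit 30) (.e (nat_lit 573491) (nat_lit 15) (.e (nat_lit 81954) (nat_lit 23) (.e (nat_lit 98356) (nat_lit 26) (.e (nat_lit 433920) (nat_lit 15) .nil))))) (.g (nat_lit 0) (.e (nat_lit 167456) (nat_lit 0) .nil) .nil))) 
(.lf (nat_lit 500244) (.g (nat_lit 2369) (.e (nat_lit 163977) (nat_lit 30) (.e (nat_lit 573485) (nat_lit 13) (.e (nat_lit 65604) (nat_lit 9) (.e (nat_lit 336028) (nat_lit 3) (.e (nat_lit 98359) (nat_lit 26) (.e (nat_lit 426003) (nat_lit 0) (.e (nat_lit 3401) (nat_lit 211) (.e (nat_lit 647181) (nat_lit 3) .nil)))))))) (.g (nat_lit 1) (.e (nat_lit 168486) (nat_lit 0) .nil) .nil)))) (.nd (nat_lit 9) 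
(.lf (nat_lit 499988) (.g (nat_lit 3794) (.e (nat_lit 163977) (nat_lit 30) (.e (nat_lit 573482) (nat_lit 13) (.e (nat_lit 65604) (nat_lit 9) (.e (nat_lit 336013) (nat_lit 2) (.e (nat_lit 90170) (nat_lit 13) (.e (nat_lit 172046) (nat_lit 0) (.e (nat_lit 2478) (nat_lit 157) (.e (nat_lit 5548) (nat_lit 306) (.e (nat_lit 2610) (nat_lit 163) .nil))))))))) (.g (nat_lit 1) (.e (nat_lit 168113) (nat_lit 0) .nil) .nil))) 
(.lf (nat_lit 500500) (.g (nat_lit 2567) (.e (nat_lit 163977) (nat_lit 30) (.e (nat_lit 573489) (nat_lit 14) (.e (nat_lit 73754) (nat_lit 8) (.e (nat_lit 557105) (nat_lit 14) (.e (nat_lit 180251) (nat_lit 10) (.e (nat_lit 573478) (nat_lit 12) (.e (nat_lit 57500) (nat_lit 37) (.e (nat_lit 630799) (nat_lit 7) .nil)))))))) (.g (nat_lit 1) (.e (nat_lit 168936) (nat_lit 0) .nil) .nil))))) 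
(.nd (nat_lit 8) (.nd (nat_lit 9) 
(.lf (nat_lit 499860) (.g (nat_lit 2828) (.e (nat_lit 163976) (nat_lit 30) (.e (nat_lit 573492) (nat_lit 15) (.e (nat_lit 81956) (nat_lit 23) (.e (nat_lit 98357) (nat_lit 26) (.e (nat_lit 426444) (nat_lit 19) (.e (nat_lit 114432) (nat_lit 3) .nil)))))) (.g (nat_lit 1) (.e (nat_lit 167821) (nat_lit 0) .nil) .nil))) 
(.lf (nat_lit 500372) (.g (nat_lit 2354) (.e (nat_lit 163977) (nat_lit 30) (.e (nat_lit 573487) (nat_lit 14) (.e (nat_lit 73753) (nat_lit 8) (.e (nat_lit 557098) (nat_lit 13) (.e (nat_lit 172066) (nat_lit 3) .nil))))) (.g (nat_lit 0) (.e (nat_lit 168713) (nat_lit 0) .nil) .nil)))) (.nd (nat_lit 9) 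
(.lf (nat_lit 500116) (.g (nat_lit 2285) (.e (nat_lit 163977) (nat_lit 30) (.e (nat_lit 573482) (nat_lit 13) (.e (nat_lit 65619) (nat_lit 10) (.e (nat_lit 344117) (nat_lit 21) (.e (nat_lit 516159) (nat_lit 10) (.e (nat_lit 434271) (nat_lit 38) (.e (nat_lit 655374) (nat_lit 3) .nil))))))) (.g (nat_lit 1) (.e (nat_lit 168258) (nat_lit 0) .nil) .nil))) 
(.lf (nat_lit 500628) (.g (nat_lit 3224) (.e (nat_lit 163977) (nat_lit 30) (.e (nat_lit 573489) (nat_lit 14) (.e (nat_lit 73755) (nat_lit 8) (.e (nat_lit 557103) (nat_lit 14) (.e (nat_lit 180250) (nat_lit 10) (.e (nat_lit 573478) (nat_lit 12) (.e (nat_lit 57502) (nat_lit 38) (.e (nat_lit 638996) (nat_lit 7) .nil)))))))) (.g (nat_lit 1) (.e (nat_lit 169146) (nat_lit 0) .nil) .nil)))))) 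
(.nd (nat_lit 7) (.nd (nat_lit 8) (.nd (nat_lit 9) 
(.lf (nat_lit 499796) (.g (nat_lit 3867) (.e (nat_lit 163976) (nat_lit 30) (.e (nat_lit 573492) (nat_lit 15) (.e (nat_lit 81953) (nat_lit 22) (.e (nat_lit 90167) (nat_lit 13) .nil)))) (.g (nat_lit 0) (.e (nat_lit 167626) (nat_lit 0) .nil) .nil))) 
(.lf (nat_lit 500308) (.g (nat_lit 4275) (.e (nat_lit 163977) (nat_lit 30) (.e (nat_lit 573485) (nat_lit 13) (.e (nat_lit 65619) (nat_lit 10) (.e (nat_lit 344117) (nat_lit 21) (.e (nat_lit 516151) (nat_lit 9) (.e (nat_lit 426097) (nat_lit 1) (.e (nat_lit 164348) (nat_lit 240) (.e (nat_lit 2611) (nat_lit 163) .nil)))))))) (.g (nat_lit 1) (.e (nat_lit 168580) (nat_lit 0) .nil) .nil)))) 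
(.nd (nat_lit 9) 
(.lf (nat_lit 500052) (.g (nat_lit 4433) (.e (nat_lit 163977) (nat_lit 30) (.e (nat_lit 573482) (nat_lit 13) (.e (nat_lit 65604) (nat_lit 9) (.e (nat_lit 336028) (nat_lit 3) (.e (nat_lit 98367) (nat_lit 27) (.e (nat_lit 434209) (nat_lit 18) (.e (nat_lit 5547) (nat_lit 306) (.e (nat_lit 2601) (nat_lit 163) .nil)))))))) (.g (nat_lit 1) (.e (nat_lit 168192) (nat_lit 0) .nil) .nil))) 
(.lf (nat_lit 500564) (.g (nat_lit 3006) (.e (nat_lit 163977) (nat_lit 30) (.e (nat_lit 573489) (nat_lit 14) (.e (nat_lit 73755) (nat_lit 8) (.e (nat_lit 557098) (nat_lit 13) (.e (nat_lit 172066) (nat_lit 3) (.e (nat_lit 204817) (nat_lit 17) (.e (nat_lit 2272) (nat_lit 149) (.e (nat_lit 761899) (nat_lit 15) .nil)))))))) (.g (nat_lit 1) (.e (nat_lit 169052) (nat_lit 0) .nil) .nil))))) 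
(.nd (nat_lit 8) (.nd (nat_lit 9) 
(.lf (nat_lit 499924) (.g (nat_lit 3595) (.e (nat_lit 163976) (nat_lit 30) (.e (nat_lit 573492) (nat_lit 15) (.e (nat_lit 81956) (nat_lit 23) (.e (nat_lit 98385) (nat_lit 32) (.e (nat_lit 475196) (nat_lit 40) (.e (nat_lit 704589) (nat_lit 3) .nil)))))) (.g (nat_lit 1) (.e (nat_lit 167978) (nat_lit 0) .nil) .nil))) 
(.lf (nat_lit 500436) (.g (nat_lit 3037) (.e (nat_lit 163977) (nat_lit 30) (.e (nat_lit 573487) (nat_lit 14) (.e (nat_lit 73754) (nat_lit 8) (.e (nat_lit 557105) (nat_lit 14) (.e (nat_lit 180252) (nat_lit 10) (.e (nat_lit 573473) (nat_lit 12) (.e (nat_lit 57504) (nat_lit 38) (.e (nat_lit 638996) (nat_lit 7) .nil)))))))) (.g (nat_lit 1) (.e (nat_lit 168851) (nat_lit 0) .nil) .nil)))) 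
(.nd (nat_lit 9) 
(.lf (nat_lit 500180) (.g (nat_lit 2381) (.e (nat_lit 163977) (nat_lit 30) (.e (nat_lit 573484) (nat_lit 13) (.e (nat_lit 65610) (nat_lit 10) (.e (nat_lit 344117) (nat_lit 21) (.e (nat_lit 516151) (nat_lit 9) (.e (nat_lit 426146) (nat_lit 4) (.e (nat_lit 229663) (nat_lit 240) (.e (nat_lit 2612) (nat_lit 163) .nil)))))))) (.g (nat_lit 1) (.e (nat_lit 168378) (nat_lit 0) .nil) .nil))) 
(.lf (nat_lit 500692) (.g (nat_lit 2065) (.e (nat_lit 163977) (nat_lit 30) (.e (nat_lit 573489) (nat_lit 14) (.e (nat_lit 73755) (nat_lit 8) (.e (nat_lit 557105) (nat_lit 14) (.e (nat_lit 180251) (nat_lit 10) (.e (nat_lit 573477) (nat_lit 12) (.e (nat_lit 57500) (nat_lit 37) (.e (nat_lit 630799) (nat_lit 7) .nil)))))))) (.g (nat_lit 1) (.e (nat_lit 169248) (nat_lit 0) .nil) .nil))))))) 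
(.nd (nat_lit 6) (.nd (nat_lit 7) (.nd (nat_lit 8) (.nd (nat_lit 9) 
(.lf (nat_lit 499764) (.g (nat_lit 2732) (.e (nat_lit 163976) (nat_lit 30) (.e (nat_lit 573491) (nat_lit 15) (.e (nat_lit 81954) (nat_lit 23) (.e (nat_lit 98383) (nat_lit 32) (.e (nat_lit 475198) (nat_lit 40) (.e (nat_lit 704589) (nat_lit 3) .nil)))))) (.g (nat_lit 1) (.e (nat_lit 167532) (nat_lit 0) .nil) .nil))) 
(.lf (nat_lit 500276) (.g (nat_lit 4328) (.e (nat_lit 163977) (nat_lit 30) (.e (nat_lit 573485) (nat_lit 13) (.e (nat_lit 65604) (nat_lit 9) (.e (nat_lit 336028) (nat_lit 3) (.e (nat_lit 98367) (nat_lit 27) (.e (nat_lit 434271) (nat_lit 38) (.e (nat_lit 655375) (nat_lit 3) .nil))))))) (.g (nat_lit 1) (.e (nat_lit 168546) (nat_lit 0) .nil) .nil)))) (.nd (nat_lit 9) 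
(.lf (nat_lit 500020) (.g (nat_lit 3735) (.e (nat_lit 163977) (nat_lit 30) (.e (nat_lit 573482) (nat_lit 13) (.e (nat_lit 65604) (nat_lit 9) (.e (nat_lit 336028) (nat_lit 3) (.e (nat_lit 98359) (nat_lit 26) (.e (nat_lit 426097) (nat_lit 1) (.e (nat_lit 164347) (nat_lit 240) (.e (nat_lit 2601) (nat_lit 163) .nil)))))))) (.g (nat_lit 1) (.e (nat_lit 168153) (nat_lit 0) .nil) .nil))) 
(.lf (nat_lit 500532) (.g (nat_lit 3879) (.e (nat_lit 163977) (nat_lit 30) (.e (nat_lit 573489) (nat_lit 14) (.e (nat_lit 73755) (nat_lit 8) (.e (nat_lit 557097) (nat_lit 13) (.e (nat_lit 172065) (nat_lit 3) (.e (nat_lit 204817) (nat_lit 17) (.e (nat_lit 7936) (nat_lit 149) (.e (nat_lit 761899) (nat_lit 15) .nil)))))))) (.g (nat_lit 1) (.e (nat_lit 168995) (nat_lit 0) .nil) .nil))))) 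
(.nd (nat_lit 8) (.nd (nat_lit 9) 
(.lf (nat_lit 499892) (.g (nat_lit 3429) (.e (nat_lit 163976) (nat_lit 30) (.e (nat_lit 573492) (nat_lit 15) (.e (nat_lit 81956) (nat_lit 23) (.e (nat_lit 98362) (nat_lit 26) (.e (nat_lit 426025) (nat_lit 0) (.e (nat_lit 3397) (nat_lit 211) (.e (nat_lit 647180) (nat_lit 3) .nil))))))) (.g (nat_lit 1) (.e (nat_lit 167890) (nat_lit 0) .nil) .nil))) 
(.lf (nat_lit 500404) (.g (nat_lit 3309) (.e (nat_lit 163977) (nat_lit 30) (.e (nat_lit 573487) (nat_lit 14) (.e (nat_lit 73753) (nat_lit 8) (.e (nat_lit 557103) (nat_lit 14) (.e (nat_lit 180250) (nat_lit 10) (.e (nat_lit 573477) (nat_lit 12) (.e (nat_lit 57502) (nat_lit 38) (.e (nat_lit 638995) (nat_lit 7) .nil)))))))) (.g (nat_lit 1) (.e (nat_lit 168815) (nat_lit 0) .nil) .nil)))) 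
(.nd (nat_lit 9) 
(.lf (nat_lit 500148) (.g (nat_lit 3272) (.e (nat_lit 163977) (nat_lit 30) (.e (nat_lit 573484) (nat_lit 13) (.e (nat_lit 65610) (nat_lit 10) (.e (nat_lit 344117) (nat_lit 21) (.e (nat_lit 516143) (nat_lit 9) (.e (nat_lit 426109) (nat_lit 1) (.e (nat_lit 164346) (nat_lit 240) (.e (nat_lit 2601) (nat_lit 163) .nil)))))))) (.g (nat_lit 1) (.e (nat_lit 168312) (nat_lit 0) .nil) .nil))) 
(.lf (nat_lit 500660) (.g (nat_lit 3376) (.e (nat_lit 163977) (nat_lit 30) (.e (nat_lit 573489) (nat_lit 14) (.e (nat_lit 73755) (nat_lit 8) (.e (nat_lit 557104) (nat_lit 14) (.e (nat_lit 180250) (nat_lit 10) (.e (nat_lit 573473) (nat_lit 12) (.e (nat_lit 57503) (nat_lit 38) (.e (nat_lit 638995) (nat_lit 7) .nil)))))))) (.g (nat_lit 1) (.e (nat_lit 169214) (nat_lit 0) .nil) .nil)))))) 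
(.nd (nat_lit 7) (.nd (nat_lit 8) (.nd (nat_lit 9) 
(.lf (nat_lit 499828) (.g (nat_lit 3027) (.e (nat_lit 163976) (nat_lit 30) (.e (nat_lit 573492) (nat_lit 15) (.e (nat_lit 81956) (nat_lit 23) (.e (nat_lit 98356) (nat_lit 26) (.e (nat_lit 426354) (nat_lit 15) (.e (nat_lit 2050) (nat_lit 142) (.e (nat_lit 704589) (nat_lit 3) .nil))))))) (.g (nat_lit 1) (.e (nat_lit 167785) (nat_lit 0) .nil) .nil))) 
(.lf (nat_lit 500340) (.g (nat_lit 3978) (.e (nat_lit 163977) (nat_lit 30) (.e (nat_lit 573485) (nat_lit 13) (.e (nat_lit 65619) (nat_lit 10) (.e (nat_lit 344117) (nat_lit 21) (.e (nat_lit 516159) (nat_lit 10) (.e (nat_lit 434271) (nat_lit 38) (.e (nat_lit 655375) (nat_lit 3) .nil))))))) (.g (nat_lit 1) (.e (nat_lit 168612) (nat_lit 0) .nil) .nil)))) (.nd (nat_lit 9) 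
(.lf (nat_lit 500084) (.g (nat_lit 2958) (.e (nat_lit 163977) (nat_lit 30) (.e (nat_lit 573482) (nat_lit 13) (.e (nat_lit 65619) (nat_lit 10) (.e (nat_lit 344117) (nat_lit 21) (.e (nat_lit 516151) (nat_lit 9) (.e (nat_lit 426097) (nat_lit 1) (.e (nat_lit 164348) (nat_lit 240) (.e (nat_lit 2600) (nat_lit 163) .nil)))))))) (.g (nat_lit 1) (.e (nat_lit 168226) (nat_lit 0) .nil) .nil))) 
(.lf (nat_lit 500596) (.g (nat_lit 2383) (.e (nat_lit 163977) (nat_lit 30) (.e (nat_lit 573489) (nat_lit 14) (.e (nat_lit 73755) (nat_lit 8) (.e (nat_lit 557103) (nat_lit 14) (.e (nat_lit 180244) (nat_lit 5) (.e (nat_lit 532485) (nat_lit 0) (.e (nat_lit 2272) (nat_lit 149) (.e (nat_lit 761899) (nat_lit 15) .nil)))))))) (.g (nat_lit 1) (.e (nat_lit 169105) (nat_lit 0) .nil) .nil))))) 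
(.nd (nat_lit 8) (.nd (nat_lit 9) 
(.lf (nat_lit 499956) (.g (nat_lit 1922) (.e (nat_lit 163977) (nat_lit 30) (.e (nat_lit 573479) (nat_lit 13) (.e (nat_lit 65619) (nat_lit 10) (.e (nat_lit 344117) (nat_lit 21) (.e (nat_lit 516159) (nat_lit 10) (.e (nat_lit 434209) (nat_lit 18) (.e (nat_lit 5548) (nat_lit 306) (.e (nat_lit 2611) (nat_lit 163) .nil)))))))) (.g (nat_lit 1) (.e (nat_lit 168071) (nat_lit 0) .nil) .nil))) 
(.lf (nat_lit 500468) (.g (nat_lit 1538) (.e (nat_lit 163977) (nat_lit 30) (.e (nat_lit 573489) (nat_lit 14) (.e (nat_lit 73754) (nat_lit 8) (.e (nat_lit 557095) (nat_lit 13) .nil)))) (.g (nat_lit 0) (.e (nat_lit 168891) (nat_lit 0) .nil) .nil)))) (.nd (nat_lit 9) 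
(.lf (nat_lit 500212) (.g (nat_lit 3146) (.e (nat_lit 163977) (nat_lit 30) (.e (nat_lit 573485) (nat_lit 13) (.e (nat_lit 65604) (nat_lit 9) (.e (nat_lit 336013) (nat_lit 2) (.e (nat_lit 90170) (nat_lit 13) (.e (nat_lit 172042) (nat_lit 0) (.e (nat_lit 2458) (nat_lit 157) (.e (nat_lit 5548) (nat_lit 306) (.e (nat_lit 2601) (nat_lit 163) .nil))))))))) (.g (nat_lit 1) (.e (nat_lit 168447) (nat_lit 0) .nil) .nil))) 
(.lf (nat_lit 500724) (.g (nat_lit 3017) (.e (nat_lit 163977) (nat_lit 30) (.e (nat_lit 573491) (nat_lit 15) (.e (nat_lit 81951) (nat_lit 22) (.e (nat_lit 90170) (nat_lit 13) (.e (nat_lit 172036) (nat_lit 0) (.e (nat_lit 3402) (nat_lit 211) (.e (nat_lit 647181) (nat_lit 3) .nil))))))) (.g (nat_lit 1) (.e (nat_lit 169329) (nat_lit 0) .nil) .nil))))))))) 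
(.nd (nat_lit 4) (.nd (nat_lit 5) (.nd (nat_lit 6) (.nd (nat_lit 7) (.nd (nat_lit 8) 
(.nd (nat_lit 9) 
(.lf (nat_lit 499724) (.g (nat_lit 2023) (.e (nat_lit 163976) (nat_lit 30) (.e (nat_lit 573491) (nat_lit 15) (.e (nat_lit 81954) (nat_lit 23) (.e (nat_lit 98356) (nat_lit 26) (.e (nat_lit 426363) (nat_lit 15) (.e (nat_lit 2062) (nat_lit 142) (.e (nat_lit 704589) (nat_lit 3) .nil))))))) (.g (nat_lit 1) (.e (nat_lit 167448) (nat_lit 0) .nil) .nil))) 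
(.lf (nat_lit 500236) (.g (nat_lit 2887) (.e (nat_lit 163977) (nat_lit 30) (.e (nat_lit 573485) (nat_lit 13) (.e (nat_lit 65604) (nat_lit 9) (.e (nat_lit 336013) (nat_lit 2) (.e (nat_lit 90170) (nat_lit 13) (.e (nat_lit 172068) (nat_lit 4) (.e (nat_lit 229666) (nat_lit 240) (.e (nat_lit 2604) (nat_lit 163) .nil)))))))) (.g (nat_lit 1) (.e (nat_lit 168473) (nat_lit 0) .nil) .nil)))) 
(.nd (nat_lit 9) 
(.lf (nat_lit 499980) (.g (nat_lit 1692) (.e (nat_lit 163977) (nat_lit 30) (.e (nat_lit 573482) (nat_lit 13) (.e (nat_lit 65604) (nat_lit 9) (.e (nat_lit 336013) (nat_lit 2) (.e (nat_lit 90170) (nat_lit 13) .nil))))) (.g (nat_lit 0) (.e (nat_lit 168105) (nat_lit 0) .nil) .nil))) 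
(.lf (nat_lit 500492) (.g (nat_lit 3069) (.e (nat_lit 163977) (nat_lit 30) (.e (nat_lit 573489) (nat_lit 14) (.e (nat_lit 73754) (nat_lit 8) (.e (nat_lit 557103) (nat_lit 14) (.e (nat_lit 180250) (nat_lit 10) (.e (nat_lit 573474) (nat_lit 12) (.e (nat_lit 57503) (nat_lit 38) (.e (nat_lit 638996) (nat_lit 7) .nil)))))))) (.g (nat_lit 1) (.e (nat_lit 168928) (nat_lit 0) .nil) .nil))))) 
(.nd (nat_lit 8) (.nd (nat_lit 9) 
(.lf (nat_lit 499852) (.g (nat_lit 2823) (.e (nat_lit 163976) (nat_lit 30) (.e (nat_lit 573492) (nat_lit 15) (.e (nat_lit 81956) (nat_lit 23) (.e (nat_lit 98356) (nat_lit 26) (.e (nat_lit 426402) (nat_lit 15) .nil))))) (.g (nat_lit 0) (.e (nat_lit 167809) (nat_lit 0) .nil) .nil))) 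
(.lf (nat_lit 500364) (.g (nat_lit 2999) (.e (nat_lit 163977) (nat_lit 30) (.e (nat_lit 573485) (nat_lit 13) (.e (nat_lit 65619) (nat_lit 10) (.e (nat_lit 344117) (nat_lit 21) (.e (nat_lit 516171) (nat_lit 13) (.e (nat_lit 458774) (nat_lit 18) (.e (nat_lit 5547) (nat_lit 306) (.e (nat_lit 2601) (nat_lit 163) .nil)))))))) (.g (nat_lit 1) (.e (nat_lit 168639) (nat_lit 0) .nil) .nil)))) 
(.nd (nat_lit 9) 
(.lf (nat_lit 500108) (.g (nat_lit 2182) (.e (nat_lit 163977) (nat_lit 30) (.e (nat_lit 573482) (nat_lit 13) (.e (nat_lit 65619) (nat_lit 10) (.e (nat_lit 344117) (nat_lit 21) (.e (nat_lit 524032) (nat_lit 9) (.e (nat_lit 426107) (nat_lit 1) (.e (nat_lit 164347) (nat_lit 240) (.e (nat_lit 2611) (nat_lit 163) .nil)))))))) (.g (nat_lit 1) (.e (nat_lit 168250) (nat_lit 0) .nil) .nil))) 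
(.lf (nat_lit 500620) (.g (nat_lit 3960) (.e (nat_lit 163977) (nat_lit 30) (.e (nat_lit 573489) (nat_lit 14) (.e (nat_lit 73755) (nat_lit 8) (.e (nat_lit 557103) (nat_lit 14) (.e (nat_lit 180250) (nat_lit 10) (.e (nat_lit 573475) (nat_lit 12) (.e (nat_lit 57504) (nat_lit 38) (.e (nat_lit 638996) (nat_lit 7) .nil)))))))) (.g (nat_lit 1) (.e (nat_lit 169138) (nat_lit 0) .nil) .nil)))))) 
(.nd (nat_lit 7) (.nd (nat_lit 8) (.nd (nat_lit 9) 
(.lf (nat_lit 499788) (.g (nat_lit 3002) (.e (nat_lit 163976) (nat_lit 30) (.e (nat_lit 573491) (nat_lit 15) (.e (nat_lit 81956) (nat_lit 23) (.e (nat_lit 98384) (nat_lit 32) (.e (nat_lit 475199) (nat_lit 40) .nil))))) (.g (nat_lit 0) (.e (nat_lit 167556) (nat_lit 0) .nil) .nil))) 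
(.lf (nat_lit 500300) (.g (nat_lit 2091) (.e (nat_lit 163977) (nat_lit 30) (.e (nat_lit 573485) (nat_lit 13) (.e (nat_lit 65619) (nat_lit 10) (.e (nat_lit 344117) (nat_lit 21) (.e (nat_lit 516151) (nat_lit 9) (.e (nat_lit 426043) (nat_lit 0) (.e (nat_lit 2458) (nat_lit 157) (.e (nat_lit 5547) (nat_lit 306) (.e (nat_lit 2611) (nat_lit 163) .nil))))))))) (.g (nat_lit 1) (.e (nat_lit 168572) (nat_lit 0) .nil) .nil)))) 
(.nd (nat_lit 9) 
(.lf (nat_lit 500044) (.g (nat_lit 4525) (.e (nat_lit 163977) (nat_lit 30) (.e (nat_lit 573482) (nat_lit 13) (.e (nat_lit 65604) (nat_lit 9) (.e (nat_lit 336028) (nat_lit 3) (.e (nat_lit 98366) (nat_lit 27) (.e (nat_lit 434209) (nat_lit 18) (.e (nat_lit 5548) (nat_lit 306) (.e (nat_lit 2601) (nat_lit 163) .nil)))))))) (.g (nat_lit 1) (.e (nat_lit 168184) (nat_lit 0) .nil) .nil))) 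
(.lf (nat_lit 500556) (.g (nat_lit 4134) (.e (nat_lit 163977) (nat_lit 30) (.e (nat_lit 573489) (nat_lit 14) (.e (nat_lit 73755) (nat_lit 8) (.e (nat_lit 557098) (nat_lit 13) (.e (nat_lit 172065) (nat_lit 3) (.e (nat_lit 204817) (nat_lit 17) (.e (nat_lit 2272) (nat_lit 149) (.e (nat_lit 761899) (nat_lit 15) .nil)))))))) (.g (nat_lit 1) (.e (nat_lit 169043) (nat_lit 0) .nil) .nil))))) 
(.nd (nat_lit 8) (.nd (nat_lit 9) 
(.lf (nat_lit 499916) (.g (nat_lit 4473) (.e (nat_lit 163976) (nat_lit 30) (.e (nat_lit 573492) (nat_lit 15) (.e (nat_lit 81956) (nat_lit 23) (.e (nat_lit 98384) (nat_lit 32) (.e (nat_lit 475198) (nat_lit 40) (.e (nat_lit 704589) (nat_lit 3) .nil)))))) (.g (nat_lit 1) (.e (nat_lit 167970) (nat_lit 0) .nil) .nil))) 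
(.lf (nat_lit 500428) (.g (nat_lit 4734) (.e (nat_lit 163977) (nat_lit 30) (.e (nat_lit 573487) (nat_lit 14) (.e (nat_lit 73753) (nat_lit 8) (.e (nat_lit 557105) (nat_lit 14) (.e (nat_lit 180252) (nat_lit 10) (.e (nat_lit 573475) (nat_lit 12) (.e (nat_lit 57504) (nat_lit 38) (.e (nat_lit 638995) (nat_lit 7) .nil)))))))) (.g (nat_lit 1) (.e (nat_lit 168842) (nat_lit 0) .nil) .nil)))) 
(.nd (nat_lit 9) 
(.lf (nat_lit 500172) (.g (nat_lit 3193) (.e (nat_lit 163977) (nat_lit 30) (.e (nat_lit 573484) (nat_lit 13) (.e (nat_lit 65610) (nat_lit 10) (.e (nat_lit 344117) (nat_lit 21) (.e (nat_lit 516151) (nat_lit 9) (.e (nat_lit 426097) (nat_lit 1) (.e (nat_lit 164346) (nat_lit 240) (.e (nat_lit 2601) (nat_lit 163) .nil)))))))) (.g (nat_lit 1) (.e (nat_lit 168363) (nat_lit 0) .nil) .nil))) 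
(.lf (nat_lit 500684) (.g (nat_lit 4669) (.e (nat_lit 163977) (nat_lit 30) (.e (nat_lit 573489) (nat_lit 14) (.e (nat_lit 73755) (nat_lit 8) (.e (nat_lit 557104) (nat_lit 14) (.e (nat_lit 180252) (nat_lit 10) (.e (nat_lit 573475) (nat_lit 12) (.e (nat_lit 57503) (nat_lit 38) (.e (nat_lit 638995) (nat_lit 7) .nil)))))))) (.g (nat_lit 1) (.e (nat_lit 169238) (nat_lit 0) .nil) .nil))))))) 
(.nd (nat_lit 6) (.nd (nat_lit 7) (.nd (nat_lit 8) (.nd (nat_lit 9) 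
(.lf (nat_lit 499756) (.g (nat_lit 2181) (.e (nat_lit 163976) (nat_lit 30) (.e (nat_lit 573491) (nat_lit 15) (.e (nat_lit 81954) (nat_lit 23) (.e (nat_lit 98362) (nat_lit 26) (.e (nat_lit 426025) (nat_lit 0) (.e (nat_lit 3397) (nat_lit 211) (.e (nat_lit 647180) (nat_lit 3) .nil))))))) (.g (nat_lit 1) (.e (nat_lit 167503) (nat_lit 0) .nil) .nil))) 
(.lf (nat_lit 500268) (.g (nat_lit 4392) (.e (nat_lit 163977) (nat_lit 30) (.e (nat_lit 573485) (nat_lit 13) (.e (nat_lit 65604) (nat_lit 9) (.e (nat_lit 336028) (nat_lit 3) (.e (nat_lit 98367) (nat_lit 27) (.e (nat_lit 434209) (nat_lit 18) (.e (nat_lit 5546) (nat_lit 306) (.e (nat_lit 2600) (nat_lit 163) .nil)))))))) (.g (nat_lit 1) (.e (nat_lit 168538) (nat_lit 0) .nil) .nil)))) 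
(.nd (nat_lit 9) 
(.lf (nat_lit 500012) (.g (nat_lit 3623) (.e (nat_lit 163977) (nat_lit 30) (.e (nat_lit 573482) (nat_lit 13) (.e (nat_lit 65604) (nat_lit 9) (.e (nat_lit 336028) (nat_lit 3) (.e (nat_lit 98354) (nat_lit 26) (.e (nat_lit 426109) (nat_lit 1) (.e (nat_lit 164345) (nat_lit 240) (.e (nat_lit 2601) (nat_lit 163) .nil)))))))) (.g (nat_lit 1) (.e (nat_lit 168139) (nat_lit 0) .nil) .nil))) 
(.lf (nat_lit 500524) (.g (nat_lit 3527) (.e (nat_lit 163977) (nat_lit 30) (.e (nat_lit 573489) (nat_lit 14) (.e (nat_lit 73755) (nat_lit 8) (.e (nat_lit 557096) (nat_lit 13) (.e (nat_lit 172067) (nat_lit 3) (.e (nat_lit 204817) (nat_lit 17) (.e (nat_lit 7936) (nat_lit 149) (.e (nat_lit 761899) (nat_lit 15) .nil)))))))) (.g (nat_lit 1) (.e (nat_lit 168981) (nat_lit 0) .nil) .nil))))) 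
(.nd (nat_lit 8) (.nd (nat_lit 9) 
(.lf (nat_lit 499884) (.g (nat_lit 1894) (.e (nat_lit 163976) (nat_lit 30) (.e (nat_lit 573492) (nat_lit 15) (.e (nat_lit 81956) (nat_lit 23) (.e (nat_lit 98360) (nat_lit 26) .nil)))) (.g (nat_lit 0) (.e (nat_lit 167875) (nat_lit 0) .nil) .nil))) 
(.lf (nat_lit 500396) (.g (nat_lit 4988) (.e (nat_lit 163977) (nat_lit 30) (.e (nat_lit 573487) (nat_lit 14) (.e (nat_lit 73753) (nat_lit 8) (.e (nat_lit 557103) (nat_lit 14) (.e (nat_lit 180250) (nat_lit 10) (.e (nat_lit 573474) (nat_lit 12) (.e (nat_lit 57503) (nat_lit 38) (.e (nat_lit 638995) (nat_lit 7) .nil)))))))) (.g (nat_lit 1) (.e (nat_lit 168805) (nat_lit 0) .nil) .nil)))) 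
(.nd (nat_lit 9) 
(.lf (nat_lit 500140) (.g (nat_lit 3120) (.e (nat_lit 163977) (nat_lit 30) (.e (nat_lit 573482) (nat_lit 13) (.e (nat_lit 65619) (nat_lit 10) (.e (nat_lit 344117) (nat_lit 21) (.e (nat_lit 516171) (nat_lit 13) (.e (nat_lit 458774) (nat_lit 18) (.e (nat_lit 5547) (nat_lit 306) (.e (nat_lit 2601) (nat_lit 163) .nil)))))))) (.g (nat_lit 1) (.e (nat_lit 168282) (nat_lit 0) .nil) .nil))) 
(.lf (nat_lit 500652) (.g (nat_lit 3364) (.e (nat_lit 163977) (nat_lit 30) (.e (nat_lit 573489) (nat_lit 14) (.e (nat_lit 73755) (nat_lit 8) (.e (nat_lit 557104) (nat_lit 14) (.e (nat_lit 180244) (nat_lit 5) (.e (nat_lit 532489) (nat_lit 0) (.e (nat_lit 7936) (nat_lit 149) (.e (nat_lit 761899) (nat_lit 15) .nil)))))))) (.g (nat_lit 1) (.e (nat_lit 169183) (nat_lit 0) .nil) .nil)))))) 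
(.nd (nat_lit 7) (.nd (nat_lit 8) (.nd (nat_lit 9) 
(.lf (nat_lit 499820) (.g (nat_lit 1508) (.e (nat_lit 163976) (nat_lit 30) (.e (nat_lit 573492) (nat_lit 15) (.e (nat_lit 81956) (nat_lit 23) (.e (nat_lit 98354) (nat_lit 26) .nil)))) (.g (nat_lit 0) (.e (nat_lit 167764) (nat_lit 0) .nil) .nil))) 
(.lf (nat_lit 500332) (.g (nat_lit 4141) (.e (nat_lit 163977) (nat_lit 30) (.e (nat_lit 573485) (nat_lit 13) (.e (nat_lit 65619) (nat_lit 10) (.e (nat_lit 344117) (nat_lit 21) (.e (nat_lit 516159) (nat_lit 10) (.e (nat_lit 434209) (nat_lit 18) (.e (nat_lit 5546) (nat_lit 306) (.e (nat_lit 2600) (nat_lit 163) .nil)))))))) (.g (nat_lit 1) (.e (nat_lit 168604) (nat_lit 0) .nil) .nil)))) 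
(.nd (nat_lit 9) 
(.lf (nat_lit 500076) (.g (nat_lit 4232) (.e (nat_lit 163977) (nat_lit 30) (.e (nat_lit 573482) (nat_lit 13) (.e (nat_lit 65619) (nat_lit 10) (.e (nat_lit 344117) (nat_lit 21) (.e (nat_lit 516151) (nat_lit 9) (.e (nat_lit 426042) (nat_lit 0) (.e (nat_lit 2458) (nat_lit 157) (.e (nat_lit 5547) (nat_lit 306) (.e (nat_lit 2611) (nat_lit 163) .nil))))))))) (.g (nat_lit 1) (.e (nat_lit 168218) (nat_lit 0) .nil) .nil))) 
(.lf (nat_lit 500588) (.g (nat_lit 4040) (.e (nat_lit 163977) (nat_lit 30) (.e (nat_lit 573489) (nat_lit 14) (.e (nat_lit 73755) (nat_lit 8) (.e (nat_lit 557103) (nat_lit 14) (.e (nat_lit 180243) (nat_lit 5) (.e (nat_lit 532484) (nat_lit 0) (.e (nat_lit 7936) (nat_lit 149) (.e (nat_lit 761898) (nat_lit 15) .nil)))))))) (.g (nat_lit 1) (.e (nat_lit 169089) (nat_lit 0) .nil) .nil))))) 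
(.nd (nat_lit 8) (.nd (nat_lit 9) 
(.lf (nat_lit 499948) (.g (nat_lit 2560) (.e (nat_lit 163976) (nat_lit 30) (.e (nat_lit 573493) (nat_lit 15) (.e (nat_lit 81956) (nat_lit 23) (.e (nat_lit 98367) (nat_lit 27) .nil)))) (.g (nat_lit 0) (.e (nat_lit 168033) (nat_lit 0) .nil) .nil))) 
(.lf (nat_lit 500460) (.g (nat_lit 3088) (.e (nat_lit 163977) (nat_lit 30) (.e (nat_lit 573488) (nat_lit 14) (.e (nat_lit 73755) (nat_lit 8) (.e (nat_lit 557105) (nat_lit 14) (.e (nat_lit 180251) (nat_lit 10) (.e (nat_lit 573475) (nat_lit 12) (.e (nat_lit 57503) (nat_lit 38) (.e (nat_lit 638995) (nat_lit 7) .nil)))))))) (.g (nat_lit 1) (.e (nat_lit 168878) (nat_lit 0) .nil) .nil)))) 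
(.nd (nat_lit 9) 
(.lf (nat_lit 500204) (.g (nat_lit 1736) (.e (nat_lit 163977) (nat_lit 30) (.e (nat_lit 573485) (nat_lit 13) (.e (nat_lit 65604) (nat_lit 9) (.e (nat_lit 336013) (nat_lit 2) (.e (nat_lit 90134) (nat_lit 9) .nil))))) (.g (nat_lit 0) (.e (nat_lit 168439) (nat_lit 0) .nil) .nil))) 
(.lf (nat_lit 500716) (.g (nat_lit 2215) (.e (nat_lit 163977) (nat_lit 30) (.e (nat_lit 573489) (nat_lit 14) (.e (nat_lit 73768) (nat_lit 19) (.e (nat_lit 647171) (nat_lit 0) (.e (nat_lit 2854) (nat_lit 184) (.e (nat_lit 426533) (nat_lit 28) (.e (nat_lit 352000) (nat_lit 3) .nil))))))) (.g (nat_lit 1) (.e (nat_lit 169298) (nat_lit 0) .nil) .nil)))))))) 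
(.nd (nat_lit 5) (.nd (nat_lit 6) (.nd (nat_lit 7) (.nd (nat_lit 8) (.nd (nat_lit 9) 
(.lf (nat_lit 499740) (.g (nat_lit 1779) (.e (nat_lit 163976) (nat_lit 30) (.e (nat_lit 573491) (nat_lit 15) (.e (nat_lit 81954) (nat_lit 23) (.e (nat_lit 98357) (nat_lit 26) (.e (nat_lit 426444) (nat_lit 19) (.e (nat_lit 114432) (nat_lit 3) .nil)))))) (.g (nat_lit 1) (.e (nat_lit 167468) (nat_lit 0) .nil) .nil))) 
(.lf (nat_lit 500252) (.g (nat_lit 2507) (.e (nat_lit 163977) (nat_lit 30) (.e (nat_lit 573485) (nat_lit 13) (.e (nat_lit 65604) (nat_lit 9) (.e (nat_lit 336028) (nat_lit 3) (.e (nat_lit 98362) (nat_lit 26) (.e (nat_lit 426025) (nat_lit 0) (.e (nat_lit 3399) (nat_lit 211) (.e (nat_lit 647181) (nat_lit 3) .nil)))))))) (.g (nat_lit 1) (.e (nat_lit 168519) (nat_lit 0) .nil) .nil)))) (.nd (nat_lit 9) 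
(.lf (nat_lit 499996) (.g (nat_lit 4151) (.e (nat_lit 163977) (nat_lit 30) (.e (nat_lit 573482) (nat_lit 13) (.e (nat_lit 65604) (nat_lit 9) (.e (nat_lit 336013) (nat_lit 2) (.e (nat_lit 90170) (nat_lit 13) (.e (nat_lit 172059) (nat_lit 1) (.e (nat_lit 164347) (nat_lit 240) (.e (nat_lit 2601) (nat_lit 163) .nil)))))))) (.g (nat_lit 1) (.e (nat_lit 168121) (nat_lit 0) .nil) .nil))) 
(.lf (nat_lit 500508) (.g (nat_lit 4209) (.e (nat_lit 163977) (nat_lit 30) (.e (nat_lit 573489) (nat_lit 14) (.e (nat_lit 73754) (nat_lit 8) (.e (nat_lit 557105) (nat_lit 14) (.e (nat_lit 180252) (nat_lit 10) (.e (nat_lit 573473) (nat_lit 12) (.e (nat_lit 57504) (nat_lit 38) (.e (nat_lit 638995) (nat_lit 7) .nil)))))))) (.g (nat_lit 1) (.e (nat_lit 168944) (nat_lit 0) .nil) .nil))))) 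
(.nd (nat_lit 8) (.nd (nat_lit 9) 
(.lf (nat_lit 499868) (.g (nat_lit 2110) (.e (nat_lit 163976) (nat_lit 30) (.e (nat_lit 573492) (nat_lit 15) (.e (nat_lit 81956) (nat_lit 23) (.e (nat_lit 98359) (nat_lit 26) (.e (nat_lit 426022) (nat_lit 0) .nil))))) (.g (nat_lit 0) (.e (nat_lit 167830) (nat_lit 0) .nil) .nil))) 
(.lf (nat_lit 500380) (.g (nat_lit 2912) (.e (nat_lit 163977) (nat_lit 30) (.e (nat_lit 573487) (nat_lit 14) (.e (nat_lit 73753) (nat_lit 8) (.e (nat_lit 557100) (nat_lit 13) (.e (nat_lit 172065) (nat_lit 3) (.e (nat_lit 204821) (nat_lit 17) (.e (nat_lit 7936) (nat_lit 149) (.e (nat_lit 761898) (nat_lit 15) .nil)))))))) (.g (nat_lit 1) (.e (nat_lit 168742) (nat_lit 0) .nil) .nil)))) 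
(.nd (nat_lit 9) 
(.lf (nat_lit 500124) (.g (nat_lit 4787) (.e (nat_lit 163977) (nat_lit 30) (.e (nat_lit 573482) (nat_lit 13) (.e (nat_lit 65619) (nat_lit 10) (.e (nat_lit 344117) (nat_lit 21) (.e (nat_lit 516160) (nat_lit 10) (.e (nat_lit 434209) (nat_lit 18) (.e (nat_lit 5548) (nat_lit 306) (.e (nat_lit 2601) (nat_lit 163) .nil)))))))) (.g (nat_lit 1) (.e (nat_lit 168266) (nat_lit 0) .nil) .nil))) 
(.lf (nat_lit 500636) (.g (nat_lit 2660) (.e (nat_lit 163977) (nat_lit 30) (.e (nat_lit 573489) (nat_lit 14) (.e (nat_lit 73755) (nat_lit 8) (.e (nat_lit 557104) (nat_lit 14) (.e (nat_lit 180242) (nat_lit 5) (.e (nat_lit 532484) (nat_lit 0) (.e (nat_lit 7936) (nat_lit 149) (.e (nat_lit 761899) (nat_lit 15) .nil)))))))) (.g (nat_lit 1) (.e (nat_lit 169157) (nat_lit 0) .nil) .nil)))))) 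
(.nd (nat_lit 7) (.nd (nat_lit 8) (.nd (nat_lit 9) 
(.lf (nat_lit 499804) (.g (nat_lit 3223) (.e (nat_lit 163976) (nat_lit 30) (.e (nat_lit 573492) (nat_lit 15) (.e (nat_lit 81953) (nat_lit 22) (.e (nat_lit 90170) (nat_lit 13) (.e (nat_lit 172137) (nat_lit 15) (.e (nat_lit 2057) (nat_lit 142) (.e (nat_lit 704589) (nat_lit 3) .nil))))))) (.g (nat_lit 1) (.e (nat_lit 167685) (nat_lit 0) .nil) .nil))) 
(.lf (nat_lit 500316) (.g (nat_lit 2253) (.e (nat_lit 163977) (nat_lit 30) (.e (nat_lit 573485) (nat_lit 13) (.e (nat_lit 65619) (nat_lit 10) (.e (nat_lit 344117) (nat_lit 21) (.e (nat_lit 516151) (nat_lit 9) (.e (nat_lit 433920) (nat_lit 19) (.e (nat_lit 114432) (nat_lit 3) .nil))))))) (.g (nat_lit 1) (.e (nat_lit 168588) (nat_lit 0) .nil) .nil)))) (.nd (nat_lit 9) 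
(.lf (nat_lit 500060) (.g (nat_lit 2335) (.e (nat_lit 163977) (nat_lit 30) (.e (nat_lit 573482) (nat_lit 13) (.e (nat_lit 65619) (nat_lit 10) (.e (nat_lit 344117) (nat_lit 21) (.e (nat_lit 516106) (nat_lit 0) (.e (nat_lit 7936) (nat_lit 388) (.e (nat_lit 2610) (nat_lit 163) (.e (nat_lit 164347) (nat_lit 240) (.e (nat_lit 2601) (nat_lit 163) .nil))))))))) (.g (nat_lit 1) (.e (nat_lit 168201) (nat_lit 0) .nil) .nil))) 
(.lf (nat_lit 500572) (.g (nat_lit 3207) (.e (nat_lit 163977) (nat_lit 30) (.e (nat_lit 573489) (nat_lit 14) (.e (nat_lit 73755) (nat_lit 8) (.e (nat_lit 557098) (nat_lit 13) (.e (nat_lit 172067) (nat_lit 3) (.e (nat_lit 204817) (nat_lit 17) (.e (nat_lit 7936) (nat_lit 149) (.e (nat_lit 761897) (nat_lit 15) .nil)))))))) (.g (nat_lit 1) (.e (nat_lit 169064) (nat_lit 0) .nil) .nil))))) 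
(.nd (nat_lit 8) (.nd (nat_lit 9) 
(.lf (nat_lit 499932) (.g (nat_lit 5486) (.e (nat_lit 163976) (nat_lit 30) (.e (nat_lit 573493) (nat_lit 15) (.e (nat_lit 81953) (nat_lit 22) (.e (nat_lit 90166) (nat_lit 13) .nil)))) (.g (nat_lit 0) (.e (nat_lit 168009) (nat_lit 0) .nil) .nil))) 
(.lf (nat_lit 500444) (.g (nat_lit 2910) (.e (nat_lit 163977) (nat_lit 30) (.e (nat_lit 573487) (nat_lit 14) (.e (nat_lit 73755) (nat_lit 8) (.e (nat_lit 557105) (nat_lit 14) (.e (nat_lit 180251) (nat_lit 10) .nil))))) (.g (nat_lit 0) (.e (nat_lit 168859) (nat_lit 0) .nil) .nil)))) (.nd (nat_lit 9) 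
(.lf (nat_lit 500188) (.g (nat_lit 2259) (.e (nat_lit 163977) (nat_lit 30) (.e (nat_lit 573484) (nat_lit 13) (.e (nat_lit 65610) (nat_lit 10) (.e (nat_lit 344117) (nat_lit 21) (.e (nat_lit 516159) (nat_lit 10) .nil))))) (.g (nat_lit 0) (.e (nat_lit 168386) (nat_lit 0) .nil) .nil))) 
(.lf (nat_lit 500700) (.g (nat_lit 2235) (.e (nat_lit 163977) (nat_lit 30) (.e (nat_lit 573489) (nat_lit 14) (.e (nat_lit 73755) (nat_lit 8) (.e (nat_lit 557105) (nat_lit 14) (.e (nat_lit 180252) (nat_lit 10) (.e (nat_lit 573474) (nat_lit 12) (.e (nat_lit 65280) (nat_lit 37) (.e (nat_lit 630799) (nat_lit 7) .nil)))))))) (.g (nat_lit 1) (.e (nat_lit 169281) (nat_lit 0) .nil) .nil))))))) 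
(.nd (nat_lit 6) (.nd (nat_lit 7) (.nd (nat_lit 8) (.nd (nat_lit 9) 
(.lf (nat_lit 499772) (.g (nat_lit 1741) (.e (nat_lit 163976) (nat_lit 30) (.e (nat_lit 573491) (nat_lit 15) (.e (nat_lit 81954) (nat_lit 23) (.e (nat_lit 98385) (nat_lit 32) (.e (nat_lit 475205) (nat_lit 40) (.e (nat_lit 704588) (nat_lit 3) .nil)))))) (.g (nat_lit 1) (.e (nat_lit 167540) (nat_lit 0) .nil) .nil))) 
(.lf (nat_lit 500284) (.g (nat_lit 4034) (.e (nat_lit 163977) (nat_lit 30) (.e (nat_lit 573485) (nat_lit 13) (.e (nat_lit 65619) (nat_lit 10) (.e (nat_lit 344117) (nat_lit 21) (.e (nat_lit 516143) (nat_lit 9) (.e (nat_lit 426109) (nat_lit 1) (.e (nat_lit 164347) (nat_lit 240) (.e (nat_lit 2611) (nat_lit 163) .nil)))))))) (.g (nat_lit 1) (.e (nat_lit 168556) (nat_lit 0) .nil) .nil)))) 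
(.nd (nat_lit 9) 
(.lf (nat_lit 500028) (.g (nat_lit 2315) (.e (nat_lit 163977) (nat_lit 30) (.e (nat_lit 573482) (nat_lit 13) (.e (nat_lit 65604) (nat_lit 9) (.e (nat_lit 336028) (nat_lit 3) (.e (nat_lit 98359) (nat_lit 26) (.e (nat_lit 433920) (nat_lit 19) (.e (nat_lit 114432) (nat_lit 3) .nil))))))) (.g (nat_lit 1) (.e (nat_lit 168165) (nat_lit 0) .nil) .nil))) 
(.lf (nat_lit 500540) (.g (nat_lit 2821) (.e (nat_lit 163977) (nat_lit 30) (.e (nat_lit 573489) (nat_lit 14) (.e (nat_lit 73755) (nat_lit 8) (.e (nat_lit 557097) (nat_lit 13) (.e (nat_lit 172066) (nat_lit 3) (.e (nat_lit 204820) (nat_lit 17) (.e (nat_lit 7936) (nat_lit 149) (.e (nat_lit 761899) (nat_lit 15) .nil)))))))) (.g (nat_lit 1) (.e (nat_lit 169008) (nat_lit 0) .nil) .nil))))) 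
(.nd (nat_lit 8) (.nd (nat_lit 9) 
(.lf (nat_lit 499900) (.g (nat_lit 4536) (.e (nat_lit 163976) (nat_lit 30) (.e (nat_lit 573492) (nat_lit 15) (.e (nat_lit 81956) (nat_lit 23) (.e (nat_lit 98365) (nat_lit 26) (.e (nat_lit 426387) (nat_lit 15) .nil))))) (.g (nat_lit 0) (.e (nat_lit 167910) (nat_lit 0) .nil) .nil))) 
(.lf (nat_lit 500412) (.g (nat_lit 3112) (.e (nat_lit 163977) (nat_lit 30) (.e (nat_lit 573487) (nat_lit 14) (.e (nat_lit 73753) (nat_lit 8) (.e (nat_lit 557105) (nat_lit 14) (.e (nat_lit 180251) (nat_lit 10) (.e (nat_lit 573477) (nat_lit 12) (.e (nat_lit 57502) (nat_lit 38) (.e (nat_lit 638995) (nat_lit 7) .nil)))))))) (.g (nat_lit 1) (.e (nat_lit 168824) (nat_lit 0) .nil) .nil)))) 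
(.nd (nat_lit 9) 
(.lf (nat_lit 500156) (.g (nat_lit 3612) (.e (nat_lit 163977) (nat_lit 30) (.e (nat_lit 573484) (nat_lit 13) (.e (nat_lit 65610) (nat_lit 10) (.e (nat_lit 344117) (nat_lit 21) (.e (nat_lit 516145) (nat_lit 9) (.e (nat_lit 426444) (nat_lit 19) (.e (nat_lit 114432) (nat_lit 3) .nil))))))) (.g (nat_lit 1) (.e (nat_lit 168332) (nat_lit 0) .nil) .nil))) 
(.lf (nat_lit 500668) (.g (nat_lit 2176) (.e (nat_lit 163977) (nat_lit 30) (.e (nat_lit 573489) (nat_lit 14) (.e (nat_lit 73755) (nat_lit 8) (.e (nat_lit 557104) (nat_lit 14) (.e (nat_lit 180250) (nat_lit 10) (.e (nat_lit 573478) (nat_lit 12) (.e (nat_lit 57500) (nat_lit 37) (.e (nat_lit 630800) (nat_lit 7) .nil)))))))) (.g (nat_lit 1) (.e (nat_lit 169222) (nat_lit 0) .nil) .nil)))))) 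
(.nd (nat_lit 7) (.nd (nat_lit 8) (.nd (nat_lit 9) 
(.lf (nat_lit 499836) (.g (nat_lit 2909) (.e (nat_lit 163976) (nat_lit 30) (.e (nat_lit 573492) (nat_lit 15) (.e (nat_lit 81956) (nat_lit 23) (.e (nat_lit 98356) (nat_lit 26) (.e (nat_lit 426360) (nat_lit 15) (.e (nat_lit 2062) (nat_lit 142) (.e (nat_lit 704589) (nat_lit 3) .nil))))))) (.g (nat_lit 1) (.e (nat_lit 167793) (nat_lit 0) .nil) .nil))) 
(.lf (nat_lit 500348) (.g (nat_lit 3196) (.e (nat_lit 163977) (nat_lit 30) (.e (nat_lit 573485) (nat_lit 13) (.e (nat_lit 65619) (nat_lit 10) (.e (nat_lit 344117) (nat_lit 21) (.e (nat_lit 516160) (nat_lit 10) (.e (nat_lit 434209) (nat_lit 18) (.e (nat_lit 5548) (nat_lit 306) (.e (nat_lit 2600) (nat_lit 163) .nil)))))))) (.g (nat_lit 1) (.e (nat_lit 168620) (nat_lit 0) .nil) .nil)))) 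
(.nd (nat_lit 9) 
(.lf (nat_lit 500092) (.g (nat_lit 2519) (.e (nat_lit 163977) (nat_lit 30) (.e (nat_lit 573482) (nat_lit 13) (.e (nat_lit 65619) (nat_lit 10) (.e (nat_lit 344117) (nat_lit 21) (.e (nat_lit 516151) (nat_lit 9) (.e (nat_lit 426142) (nat_lit 4) (.e (nat_lit 229668) (nat_lit 240) (.e (nat_lit 2605) (nat_lit 163) .nil)))))))) (.g (nat_lit 1) (.e (nat_lit 168234) (nat_lit 0) .nil) .nil))) 
(.lf (nat_lit 500604) (.g (nat_lit 2320) (.e (nat_lit 163977) (nat_lit 30) (.e (nat_lit 573489) (nat_lit 14) (.e (nat_lit 73755) (nat_lit 8) (.e (nat_lit 557103) (nat_lit 14) (.e (nat_lit 180250) (nat_lit 10) (.e (nat_lit 573473) (nat_lit 12) (.e (nat_lit 57500) (nat_lit 37) (.e (nat_lit 630799) (nat_lit 7) .nil)))))))) (.g (nat_lit 1) (.e (nat_lit 169122) (nat_lit 0) .nil) .nil))))) 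
(.nd (nat_lit 8) (.nd (nat_lit 9) 
(.lf (nat_lit 499964) (.g (nat_lit 2054) (.e (nat_lit 163977) (nat_lit 30) (.e (nat_lit 573481) (nat_lit 13) (.e (nat_lit 65604) (nat_lit 9) (.e (nat_lit 336028) (nat_lit 3) (.e (nat_lit 98366) (nat_lit 27) .nil))))) (.g (nat_lit 0) (.e (nat_lit 168081) (nat_lit 0) .nil) .nil))) 
(.lf (nat_lit 500476) (.g (nat_lit 2700) (.e (nat_lit 163977) (nat_lit 30) (.e (nat_lit 573489) (nat_lit 14) (.e (nat_lit 73754) (nat_lit 8) (.e (nat_lit 557100) (nat_lit 13) (.e (nat_lit 172067) (nat_lit 3) (.e (nat_lit 204815) (nat_lit 17) (.e (nat_lit 2271) (nat_lit 149) (.e (nat_lit 761899) (nat_lit 15) .nil)))))))) (.g (nat_lit 1) (.e (nat_lit 168901) (nat_lit 0) .nil) .nil)))) 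
(.nd (nat_lit 9) 
(.lf (nat_lit 500220) (.g (nat_lit 2905) (.e (nat_lit 163977) (nat_lit 30) (.e (nat_lit 573485) (nat_lit 13) (.e (nat_lit 65604) (nat_lit 9) (.e (nat_lit 336013) (nat_lit 2) (.e (nat_lit 90170) (nat_lit 13) (.e (nat_lit 172059) (nat_lit 1) (.e (nat_lit 164346) (nat_lit 240) (.e (nat_lit 2601) (nat_lit 163) .nil)))))))) (.g (nat_lit 1) (.e (nat_lit 168457) (nat_lit 0) .nil) .nil))) 
(.lf (nat_lit 500732) (.g (nat_lit 2494) (.e (nat_lit 163977) (nat_lit 30) (.e (nat_lit 573491) (nat_lit 15) (.e (nat_lit 81951) (nat_lit 22) (.e (nat_lit 90170) (nat_lit 13) (.e (nat_lit 172049) (nat_lit 0) (.e (nat_lit 7936) (nat_lit 211) (.e (nat_lit 647181) (nat_lit 3) .nil))))))) (.g (nat_lit 1) (.e (nat_lit 169343) (nat_lit 0) .nil) .nil))))))))))) 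
(.nd (nat_lit 2) (.nd (nat_lit 3) (.nd (nat_lit 4) (.nd (nat_lit 5) (.nd (nat_lit 6) 
(.nd (nat_lit 7) (.nd (nat_lit 8) (.nd (nat_lit 9) 
(.lf (nat_lit 499714) (.g (nat_lit 2158) (.e (nat_lit 163976) (nat_lit 30) (.e (nat_lit 573491) (nat_lit 15) (.e (nat_lit 81954) (nat_lit 23) (.e (nat_lit 98356) (nat_lit 26) (.e (nat_lit 426354) (nat_lit 15) (.e (nat_lit 2064) (nat_lit 142) (.e (nat_lit 704589) (nat_lit 3) .nil))))))) (.g (nat_lit 1) (.e (nat_lit 167438) (nat_lit 0) .nil) .nil))) 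
(.lf (nat_lit 500226) (.g (nat_lit 3863) (.e (nat_lit 163977) (nat_lit 30) (.e (nat_lit 573485) (nat_lit 13) (.e (nat_lit 65604) (nat_lit 9) (.e (nat_lit 336013) (nat_lit 2) (.e (nat_lit 90170) (nat_lit 13) (.e (nat_lit 172061) (nat_lit 1) (.e (nat_lit 164345) (nat_lit 240) (.e (nat_lit 2601) (nat_lit 163) .nil)))))))) (.g (nat_lit 1) (.e (nat_lit 168463) (nat_lit 0) .nil) .nil)))) 
(.nd (nat_lit 9) 
(.lf (nat_lit 499970) (.g (nat_lit 2446) (.e (nat_lit 163977) (nat_lit 30) (.e (nat_lit 573481) (nat_lit 13) (.e (nat_lit 65619) (nat_lit 10) (.e (nat_lit 344117) (nat_lit 21) (.e (nat_lit 516151) (nat_lit 9) .nil))))) (.g (nat_lit 0) (.e (nat_lit 168087) (nat_lit 0) .nil) .nil))) 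
(.lf (nat_lit 500482) (.g (nat_lit 3127) (.e (nat_lit 163977) (nat_lit 30) (.e (nat_lit 573489) (nat_lit 14) (.e (nat_lit 73754) (nat_lit 8) (.e (nat_lit 557101) (nat_lit 13) (.e (nat_lit 172065) (nat_lit 3) (.e (nat_lit 204817) (nat_lit 17) (.e (nat_lit 7936) (nat_lit 149) (.e (nat_lit 761899) (nat_lit 15) .nil)))))))) (.g (nat_lit 1) (.e (nat_lit 168916) (nat_lit 0) .nil) .nil))))) 
(.nd (nat_lit 8) (.nd (nat_lit 9) 
(.lf (nat_lit 499842) (.g (nat_lit 2647) (.e (nat_lit 163976) (nat_lit 30) (.e (nat_lit 573492) (nat_lit 15) (.e (nat_lit 81956) (nat_lit 23) (.e (nat_lit 98356) (nat_lit 26) (.e (nat_lit 426364) (nat_lit 15) .nil))))) (.g (nat_lit 0) (.e (nat_lit 167799) (nat_lit 0) .nil) .nil))) 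
(.lf (nat_lit 500354) (.g (nat_lit 3543) (.e (nat_lit 163977) (nat_lit 30) (.e (nat_lit 573485) (nat_lit 13) (.e (nat_lit 65619) (nat_lit 10) (.e (nat_lit 344117) (nat_lit 21) (.e (nat_lit 516160) (nat_lit 10) (.e (nat_lit 434272) (nat_lit 38) (.e (nat_lit 655374) (nat_lit 3) .nil))))))) (.g (nat_lit 1) (.e (nat_lit 168626) (nat_lit 0) .nil) .nil)))) (.nd (nat_lit 9) 
(.lf (nat_lit 500098) (.g (nat_lit 2757) (.e (nat_lit 163977) (nat_lit 30) (.e (nat_lit 573482) (nat_lit 13) (.e (nat_lit 65619) (nat_lit 10) (.e (nat_lit 344117) (nat_lit 21) (.e (nat_lit 516152) (nat_lit 9) (.e (nat_lit 426109) (nat_lit 1) (.e (nat_lit 164345) (nat_lit 240) (.e (nat_lit 2601) (nat_lit 163) .nil)))))))) (.g (nat_lit 1) (.e (nat_lit 168240) (nat_lit 0) .nil) .nil))) 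
(.lf (nat_lit 500610) (.g (nat_lit 4178) (.e (nat_lit 163977) (nat_lit 30) (.e (nat_lit 573489) (nat_lit 14) (.e (nat_lit 73755) (nat_lit 8) (.e (nat_lit 557103) (nat_lit 14) (.e (nat_lit 180250) (nat_lit 10) (.e (nat_lit 573473) (nat_lit 12) (.e (nat_lit 57504) (nat_lit 38) (.e (nat_lit 638995) (nat_lit 7) .nil)))))))) (.g (nat_lit 1) (.e (nat_lit 169128) (nat_lit 0) .nil) .nil)))))) 
(.nd (nat_lit 7) (.nd (nat_lit 8) (.nd (nat_lit 9) 
(.lf (nat_lit 499778) (.g (nat_lit 1111) (.e (nat_lit 163976) (nat_lit 30) (.e (nat_lit 573491) (nat_lit 15) (.e (nat_lit 81954) (nat_lit 23) (.e (nat_lit 106240) (nat_lit 32) .nil)))) (.g (nat_lit 0) (.e (nat_lit 167546) (nat_lit 0) .nil) .nil))) 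
(.lf (nat_lit 500290) (.g (nat_lit 2097) (.e (nat_lit 163977) (nat_lit 30) (.e (nat_lit 573485) (nat_lit 13) (.e (nat_lit 65619) (nat_lit 10) (.e (nat_lit 344117) (nat_lit 21) (.e (nat_lit 516147) (nat_lit 9) (.e (nat_lit 426442) (nat_lit 19) (.e (nat_lit 114432) (nat_lit 3) .nil))))))) (.g (nat_lit 1) (.e (nat_lit 168562) (nat_lit 0) .nil) .nil)))) (.nd (nat_lit 9) 
(.lf (nat_lit 500034) (.g (nat_lit 2581) (.e (nat_lit 163977) (nat_lit 30) (.e (nat_lit 573482) (nat_lit 13) (.e (nat_lit 65604) (nat_lit 9) (.e (nat_lit 336028) (nat_lit 3) (.e (nat_lit 98362) (nat_lit 26) (.e (nat_lit 426025) (nat_lit 0) (.e (nat_lit 3399) (nat_lit 211) (.e (nat_lit 647181) (nat_lit 3) .nil)))))))) (.g (nat_lit 1) (.e (nat_lit 168172) (nat_lit 0) .nil) .nil))) 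
(.lf (nat_lit 500546) (.g (nat_lit 2321) (.e (nat_lit 163977) (nat_lit 30) (.e (nat_lit 573489) (nat_lit 14) (.e (nat_lit 73755) (nat_lit 8) (.e (nat_lit 557097) (nat_lit 13) (.e (nat_lit 172067) (nat_lit 3) (.e (nat_lit 204815) (nat_lit 17) (.e (nat_lit 2265) (nat_lit 149) (.e (nat_lit 761899) (nat_lit 15) .nil)))))))) (.g (nat_lit 1) (.e (nat_lit 169019) (nat_lit 0) .nil) .nil))))) 
(.nd (nat_lit 8) (.nd (nat_lit 9) 
(.lf (nat_lit 499906) (.g (nat_lit 3258) (.e (nat_lit 163976) (nat_lit 30) (.e (nat_lit 573492) (nat_lit 15) (.e (nat_lit 81956) (nat_lit 23) (.e (nat_lit 98366) (nat_lit 27) (.e (nat_lit 434272) (nat_lit 38) (.e (nat_lit 655373) (nat_lit 3) .nil)))))) (.g (nat_lit 1) (.e (nat_lit 167919) (nat_lit 0) .nil) .nil))) 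
(.lf (nat_lit 500418) (.g (nat_lit 3278) (.e (nat_lit 163977) (nat_lit 30) (.e (nat_lit 573487) (nat_lit 14) (.e (nat_lit 73753) (nat_lit 8) (.e (nat_lit 557105) (nat_lit 14) (.e (nat_lit 180252) (nat_lit 10) (.e (nat_lit 573473) (nat_lit 12) (.e (nat_lit 57501) (nat_lit 37) (.e (nat_lit 630800) (nat_lit 7) .nil)))))))) (.g (nat_lit 1) (.e (nat_lit 168832) (nat_lit 0) .nil) .nil)))) 
(.nd (nat_lit 9) 
(.lf (nat_lit 500162) (.g (nat_lit 3691) (.e (nat_lit 163977) (nat_lit 30) (.e (nat_lit 573484) (nat_lit 13) (.e (nat_lit 65610) (nat_lit 10) (.e (nat_lit 344117) (nat_lit 21) (.e (nat_lit 516151) (nat_lit 9) (.e (nat_lit 426003) (nat_lit 0) (.e (nat_lit 3397) (nat_lit 211) (.e (nat_lit 647181) (nat_lit 3) .nil)))))))) (.g (nat_lit 1) (.e (nat_lit 168338) (nat_lit 0) .nil) .nil))) 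
(.lf (nat_lit 500674) (.g (nat_lit 2139) (.e (nat_lit 163977) (nat_lit 30) (.e (nat_lit 573489) (nat_lit 14) (.e (nat_lit 73755) (nat_lit 8) (.e (nat_lit 557104) (nat_lit 14) (.e (nat_lit 180252) (nat_lit 10) .nil))))) (.g (nat_lit 0) (.e (nat_lit 169228) (nat_lit 0) .nil) .nil))))))) (.nd (nat_lit 6) (.nd (nat_lit 7) (.nd (nat_lit 8) (.nd (nat_lit 9) 
(.lf (nat_lit 499746) (.g (nat_lit 2423) (.e (nat_lit 163976) (nat_lit 30) (.e (nat_lit 573491) (nat_lit 15) (.e (nat_lit 81954) (nat_lit 23) (.e (nat_lit 98359) (nat_lit 26) (.e (nat_lit 426022) (nat_lit 0) (.e (nat_lit 3402) (nat_lit 211) (.e (nat_lit 647180) (nat_lit 3) .nil))))))) (.g (nat_lit 1) (.e (nat_lit 167475) (nat_lit 0) .nil) .nil))) 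
(.lf (nat_lit 500258) (.g (nat_lit 4200) (.e (nat_lit 163977) (nat_lit 30) (.e (nat_lit 573485) (nat_lit 13) (.e (nat_lit 65604) (nat_lit 9) (.e (nat_lit 336028) (nat_lit 3) (.e (nat_lit 98366) (nat_lit 27) (.e (nat_lit 434209) (nat_lit 18) (.e (nat_lit 5546) (nat_lit 306) (.e (nat_lit 2600) (nat_lit 163) .nil)))))))) (.g (nat_lit 1) (.e (nat_lit 168528) (nat_lit 0) .nil) .nil)))) 
(.nd (nat_lit 9) 
(.lf (nat_lit 500002) (.g (nat_lit 4090) (.e (nat_lit 163977) (nat_lit 30) (.e (nat_lit 573482) (nat_lit 13) (.e (nat_lit 65604) (nat_lit 9) (.e (nat_lit 336013) (nat_lit 2) (.e (nat_lit 90170) (nat_lit 13) (.e (nat_lit 172061) (nat_lit 1) (.e (nat_lit 164347) (nat_lit 240) (.e (nat_lit 2601) (nat_lit 163) .nil)))))))) (.g (nat_lit 1) (.e (nat_lit 168127) (nat_lit 0) .nil) .nil))) 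
(.lf (nat_lit 500514) (.g (nat_lit 3472) (.e (nat_lit 163977) (nat_lit 30) (.e (nat_lit 573489) (nat_lit 14) (.e (nat_lit 73754) (nat_lit 8) (.e (nat_lit 557105) (nat_lit 14) (.e (nat_lit 180252) (nat_lit 10) (.e (nat_lit 573475) (nat_lit 12) (.e (nat_lit 57502) (nat_lit 38) (.e (nat_lit 638995) (nat_lit 7) .nil)))))))) (.g (nat_lit 1) (.e (nat_lit 168950) (nat_lit 0) .nil) .nil))))) 
(.nd (nat_lit 8) (.nd (nat_lit 9) 
(.lf (nat_lit 499874) (.g (nat_lit 2623) (.e (nat_lit 163976) (nat_lit 30) (.e (nat_lit 573492) (nat_lit 15) (.e (nat_lit 81956) (nat_lit 23) (.e (nat_lit 98359) (nat_lit 26) (.e (nat_lit 426380) (nat_lit 15) .nil))))) (.g (nat_lit 0) (.e (nat_lit 167863) (nat_lit 0) .nil) .nil))) 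
(.lf (nat_lit 500386) (.g (nat_lit 3806) (.e (nat_lit 163977) (nat_lit 30) (.e (nat_lit 573487) (nat_lit 14) (.e (nat_lit 73753) (nat_lit 8) (.e (nat_lit 557103) (nat_lit 14) (.e (nat_lit 180243) (nat_lit 5) (.e (nat_lit 532489) (nat_lit 0) (.e (nat_lit 7936) (nat_lit 149) (.e (nat_lit 761898) (nat_lit 15) .nil)))))))) (.g (nat_lit 1) (.e (nat_lit 168784) (nat_lit 0) .nil) .nil)))) 
(.nd (nat_lit 9) 
(.lf (nat_lit 500130) (.g (nat_lit 2836) (.e (nat_lit 163977) (nat_lit 30) (.e (nat_lit 573482) (nat_lit 13) (.e (nat_lit 65619) (nat_lit 10) (.e (nat_lit 344117) (nat_lit 21) (.e (nat_lit 516161) (nat_lit 10) (.e (nat_lit 434209) (nat_lit 18) (.e (nat_lit 5548) (nat_lit 306) (.e (nat_lit 2611) (nat_lit 163) .nil)))))))) (.g (nat_lit 1) (.e (nat_lit 168272) (nat_lit 0) .nil) .nil))) 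
(.lf (nat_lit 500642) (.g (nat_lit 2739) (.e (nat_lit 163977) (nat_lit 30) (.e (nat_lit 573489) (nat_lit 14) (.e (nat_lit 73755) (nat_lit 8) (.e (nat_lit 557104) (nat_lit 14) (.e (nat_lit 180244) (nat_lit 5) (.e (nat_lit 532483) (nat_lit 0) (.e (nat_lit 7936) (nat_lit 149) (.e (nat_lit 761898) (nat_lit 15) .nil)))))))) (.g (nat_lit 1) (.e (nat_lit 169168) (nat_lit 0) .nil) .nil)))))) 
(.nd (nat_lit 7) (.nd (nat_lit 8) (.nd (nat_lit 9) 
(.lf (nat_lit 499810) (.g (nat_lit 1224) (.e (nat_lit 163976) (nat_lit 30) (.e (nat_lit 573492) (nat_lit 15) (.e (nat_lit 81954) (nat_lit 23) (.e (nat_lit 98359) (nat_lit 26) .nil)))) (.g (nat_lit 0) (.e (nat_lit 167734) (nat_lit 0) .nil) .nil))) 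
(.lf (nat_lit 500322) (.g (nat_lit 2406) (.e (nat_lit 163977) (nat_lit 30) (.e (nat_lit 573485) (nat_lit 13) (.e (nat_lit 65619) (nat_lit 10) (.e (nat_lit 344117) (nat_lit 21) (.e (nat_lit 516152) (nat_lit 9) (.e (nat_lit 426109) (nat_lit 1) (.e (nat_lit 164346) (nat_lit 240) (.e (nat_lit 2600) (nat_lit 163) .nil)))))))) (.g (nat_lit 1) (.e (nat_lit 168594) (nat_lit 0) .nil) .nil)))) 
(.nd (nat_lit 9) 
(.lf (nat_lit 500066) (.g (nat_lit 2209) (.e (nat_lit 163977) (nat_lit 30) (.e (nat_lit 573482) (nat_lit 13) (.e (nat_lit 65619) (nat_lit 10) (.e (nat_lit 344117) (nat_lit 21) (.e (nat_lit 516145) (nat_lit 9) .nil))))) (.g (nat_lit 0) (.e (nat_lit 168208) (nat_lit 0) .nil) .nil))) 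
(.lf (nat_lit 500578) (.g (nat_lit 3626) (.e (nat_lit 163977) (nat_lit 30) (.e (nat_lit 573489) (nat_lit 14) (.e (nat_lit 73755) (nat_lit 8) (.e (nat_lit 557098) (nat_lit 13) (.e (nat_lit 172133) (nat_lit 15) (.e (nat_lit 1800) (nat_lit 119) (.e (nat_lit 516117) (nat_lit 1) (.e (nat_lit 164305) (nat_lit 226) (.e (nat_lit 2612) (nat_lit 163) .nil))))))))) (.g (nat_lit 1) (.e (nat_lit 169071) (nat_lit 0) .nil) .nil))))) 
(.nd (nat_lit 8) (.nd (nat_lit 9) 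
(.lf (nat_lit 499938) (.g (nat_lit 4468) (.e (nat_lit 163976) (nat_lit 30) (.e (nat_lit 573493) (nat_lit 15) (.e (nat_lit 81956) (nat_lit 23) (.e (nat_lit 98355) (nat_lit 26) .nil)))) (.g (nat_lit 0) (.e (nat_lit 168022) (nat_lit 0) .nil) .nil))) 
(.lf (nat_lit 500450) (.g (nat_lit 1676) (.e (nat_lit 163977) (nat_lit 30) (.e (nat_lit 573488) (nat_lit 14) (.e (nat_lit 73755) (nat_lit 8) (.e (nat_lit 557097) (nat_lit 13) .nil)))) (.g (nat_lit 0) (.e (nat_lit 168868) (nat_lit 0) .nil) .nil)))) (.nd (nat_lit 9) 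
(.lf (nat_lit 500194) (.g (nat_lit 2553) (.e (nat_lit 163977) (nat_lit 30) (.e (nat_lit 573484) (nat_lit 13) (.e (nat_lit 65610) (nat_lit 10) (.e (nat_lit 344117) (nat_lit 21) (.e (nat_lit 516160) (nat_lit 10) (.e (nat_lit 434215) (nat_lit 18) (.e (nat_lit 5448) (nat_lit 306) (.e (nat_lit 2612) (nat_lit 163) .nil)))))))) (.g (nat_lit 1) (.e (nat_lit 168407) (nat_lit 0) .nil) .nil))) 
(.lf (nat_lit 500706) (.g (nat_lit 3854) (.e (nat_lit 163977) (nat_lit 30) (.e (nat_lit 573489) (nat_lit 14) (.e (nat_lit 73755) (nat_lit 8) (.e (nat_lit 557105) (nat_lit 14) (.e (nat_lit 180252) (nat_lit 10) (.e (nat_lit 573475) (nat_lit 12) (.e (nat_lit 57502) (nat_lit 38) (.e (nat_lit 638995) (nat_lit 7) .nil)))))))) (.g (nat_lit 1) (.e (nat_lit 169287) (nat_lit 0) .nil) .nil)))))))) 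
(.nd (nat_lit 5) (.nd (nat_lit 6) (.nd (nat_lit 7) (.nd (nat_lit 8) (.nd (nat_lit 9) 
(.lf (nat_lit 499730) (.g (nat_lit 2204) (.e (nat_lit 163976) (nat_lit 30) (.e (nat_lit 573491) (nat_lit 15) (.e (nat_lit 81954) (nat_lit 23) (.e (nat_lit 98356) (nat_lit 26) (.e (nat_lit 426402) (nat_lit 15) .nil))))) (.g (nat_lit 0) (.e (nat_lit 167454) (nat_lit 0) .nil) .nil))) 
(.lf (nat_lit 500242) (.g (nat_lit 2217) (.e (nat_lit 163977) (nat_lit 30) (.e (nat_lit 573485) (nat_lit 13) (.e (nat_lit 65604) (nat_lit 9) (.e (nat_lit 336028) (nat_lit 3) (.e (nat_lit 98356) (nat_lit 26) .nil))))) (.g (nat_lit 0) (.e (nat_lit 168484) (nat_lit 0) .nil) .nil)))) (.nd (nat_lit 9) 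
(.lf (nat_lit 499986) (.g (nat_lit 3961) (.e (nat_lit 163977) (nat_lit 30) (.e (nat_lit 573482) (nat_lit 13) (.e (nat_lit 65604) (nat_lit 9) (.e (nat_lit 336013) (nat_lit 2) (.e (nat_lit 90170) (nat_lit 13) (.e (nat_lit 172046) (nat_lit 0) (.e (nat_lit 2458) (nat_lit 157) (.e (nat_lit 5548) (nat_lit 306) (.e (nat_lit 2610) (nat_lit 163) .nil))))))))) (.g (nat_lit 1) (.e (nat_lit 168111) (nat_lit 0) .nil) .nil))) 
(.lf (nat_lit 500498) (.g (nat_lit 2576) (.e (nat_lit 163977) (nat_lit 30) (.e (nat_lit 573489) (nat_lit 14) (.e (nat_lit 73754) (nat_lit 8) (.e (nat_lit 557105) (nat_lit 14) (.e (nat_lit 180251) (nat_lit 10) (.e (nat_lit 573477) (nat_lit 12) (.e (nat_lit 57502) (nat_lit 38) (.e (nat_lit 638995) (nat_lit 7) .nil)))))))) (.g (nat_lit 1) (.e (nat_lit 168934) (nat_lit 0) .nil) .nil))))) 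
(.nd (nat_lit 8) (.nd (nat_lit 9) 
(.lf (nat_lit 499858) (.g (nat_lit 2643) (.e (nat_lit 163976) (nat_lit 30) (.e (nat_lit 573492) (nat_lit 15) (.e (nat_lit 81956) (nat_lit 23) (.e (nat_lit 98356) (nat_lit 26) (.e (nat_lit 433920) (nat_lit 19) (.e (nat_lit 114432) (nat_lit 3) .nil)))))) (.g (nat_lit 1) (.e (nat_lit 167815) (nat_lit 0) .nil) .nil))) 
(.lf (nat_lit 500370) (.g (nat_lit 2539) (.e (nat_lit 163977) (nat_lit 30) (.e (nat_lit 573487) (nat_lit 14) (.e (nat_lit 73753) (nat_lit 8) (.e (nat_lit 557098) (nat_lit 13) (.e (nat_lit 172065) (nat_lit 3) (.e (nat_lit 204815) (nat_lit 17) (.e (nat_lit 2271) (nat_lit 149) (.e (nat_lit 761898) (nat_lit 15) .nil)))))))) (.g (nat_lit 1) (.e (nat_lit 168703) (nat_lit 0) .nil) .nil)))) 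
(.nd (nat_lit 9) 
(.lf (nat_lit 500114) (.g (nat_lit 4492) (.e (nat_lit 163977) (nat_lit 30) (.e (nat_lit 573482) (nat_lit 13) (.e (nat_lit 65619) (nat_lit 10) (.e (nat_lit 344117) (nat_lit 21) (.e (nat_lit 516159) (nat_lit 10) (.e (nat_lit 434209) (nat_lit 18) (.e (nat_lit 5548) (nat_lit 306) (.e (nat_lit 2601) (nat_lit 163) .nil)))))))) (.g (nat_lit 1) (.e (nat_lit 168256) (nat_lit 0) .nil) .nil))) 
(.lf (nat_lit 500626) (.g (nat_lit 3663) (.e (nat_lit 163977) (nat_lit 30) (.e (nat_lit 573489) (nat_lit 14) (.e (nat_lit 73755) (nat_lit 8) (.e (nat_lit 557103) (nat_lit 14) (.e (nat_lit 180250) (nat_lit 10) (.e (nat_lit 573478) (nat_lit 12) (.e (nat_lit 57500) (nat_lit 37) (.e (nat_lit 630800) (nat_lit 7) .nil)))))))) (.g (nat_lit 1) (.e (nat_lit 169144) (nat_lit 0) .nil) .nil)))))) 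
(.nd (nat_lit 7) (.nd (nat_lit 8) (.nd (nat_lit 9) 
(.lf (nat_lit 499794) (.g (nat_lit 2695) (.e (nat_lit 163976) (nat_lit 30) (.e (nat_lit 573492) (nat_lit 15) (.e (nat_lit 81951) (nat_lit 22) (.e (nat_lit 90170) (nat_lit 13) (.e (nat_lit 172138) (nat_lit 15) .nil))))) (.g (nat_lit 0) (.e (nat_lit 167585) (nat_lit 0) .nil) .nil))) 
(.lf (nat_lit 500306) (.g (nat_lit 2819) (.e (nat_lit 163977) (nat_lit 30) (.e (nat_lit 573485) (nat_lit 13) (.e (nat_lit 65619) (nat_lit 10) (.e (nat_lit 344117) (nat_lit 21) (.e (nat_lit 516151) (nat_lit 9) (.e (nat_lit 426097) (nat_lit 1) (.e (nat_lit 164348) (nat_lit 240) (.e (nat_lit 2600) (nat_lit 163) .nil)))))))) (.g (nat_lit 1) (.e (nat_lit 168578) (nat_lit 0) .nil) .nil)))) 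
(.nd (nat_lit 9) 
(.lf (nat_lit 500050) (.g (nat_lit 3741) (.e (nat_lit 163977) (nat_lit 30) (.e (nat_lit 573482) (nat_lit 13) (.e (nat_lit 65604) (nat_lit 9) (.e (nat_lit 336028) (nat_lit 3) (.e (nat_lit 98367) (nat_lit 27) (.e (nat_lit 434209) (nat_lit 18) (.e (nat_lit 5546) (nat_lit 306) (.e (nat_lit 2601) (nat_lit 163) .nil)))))))) (.g (nat_lit 1) (.e (nat_lit 168190) (nat_lit 0) .nil) .nil))) 
(.lf (nat_lit 500562) (.g (nat_lit 3625) (.e (nat_lit 163977) (nat_lit 30) (.e (nat_lit 573489) (nat_lit 14) (.e (nat_lit 73755) (nat_lit 8) (.e (nat_lit 557098) (nat_lit 13) (.e (nat_lit 172065) (nat_lit 3) (.e (nat_lit 204821) (nat_lit 17) (.e (nat_lit 2270) (nat_lit 149) (.e (nat_lit 761899) (nat_lit 15) .nil)))))))) (.g (nat_lit 1) (.e (nat_lit 169050) (nat_lit 0) .nil) .nil))))) 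
(.nd (nat_lit 8) (.nd (nat_lit 9) 
(.lf (nat_lit 499922) (.g (nat_lit 1983) (.e (nat_lit 163976) (nat_lit 30) (.e (nat_lit 573492) (nat_lit 15) (.e (nat_lit 81956) (nat_lit 23) (.e (nat_lit 98385) (nat_lit 32) .nil)))) (.g (nat_lit 0) (.e (nat_lit 167976) (nat_lit 0) .nil) .nil))) 
(.lf (nat_lit 500434) (.g (nat_lit 3046) (.e (nat_lit 163977) (nat_lit 30) (.e (nat_lit 573487) (nat_lit 14) (.e (nat_lit 73754) (nat_lit 8) (.e (nat_lit 557105) (nat_lit 14) (.e (nat_lit 180252) (nat_lit 10) (.e (nat_lit 573473) (nat_lit 12) (.e (nat_lit 57503) (nat_lit 38) (.e (nat_lit 638996) (nat_lit 7) .nil)))))))) (.g (nat_lit 1) (.e (nat_lit 168849) (nat_lit 0) .nil) .nil)))) 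
(.nd (nat_lit 9) 
(.lf (nat_lit 500178) (.g (nat_lit 2310) (.e (nat_lit 163977) (nat_lit 30) (.e (nat_lit 573484) (nat_lit 13) (.e (nat_lit 65610) (nat_lit 10) (.e (nat_lit 344117) (nat_lit 21) (.e (nat_lit 516151) (nat_lit 9) (.e (nat_lit 426142) (nat_lit 4) (.e (nat_lit 229666) (nat_lit 240) (.e (nat_lit 2604) (nat_lit 163) .nil)))))))) (.g (nat_lit 1) (.e (nat_lit 168376) (nat_lit 0) .nil) .nil))) 
(.lf (nat_lit 500690) (.g (nat_lit 5152) (.e (nat_lit 163977) (nat_lit 30) (.e (nat_lit 573489) (nat_lit 14) (.e (nat_lit 73755) (nat_lit 8) (.e (nat_lit 557105) (nat_lit 14) (.e (nat_lit 180251) (nat_lit 10) (.e (nat_lit 573475) (nat_lit 12) (.e (nat_lit 57503) (nat_lit 38) (.e (nat_lit 638996) (nat_lit 7) .nil)))))))) (.g (nat_lit 1) (.e (nat_lit 169246) (nat_lit 0) .nil) .nil))))))) 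
(.nd (nat_lit 6) (.nd (nat_lit 7) (.nd (nat_lit 8) (.nd (nat_lit 9) 
(.lf (nat_lit 499762) (.g (nat_lit 1085) (.e (nat_lit 163976) (nat_lit 30) (.e (nat_lit 573491) (nat_lit 15) (.e (nat_lit 81954) (nat_lit 23) (.e (nat_lit 98383) (nat_lit 32) .nil)))) (.g (nat_lit 0) (.e (nat_lit 167530) (nat_lit 0) .nil) .nil))) 
(.lf (nat_lit 500274) (.g (nat_lit 4666) (.e (nat_lit 163977) (nat_lit 30) (.e (nat_lit 573485) (nat_lit 13) (.e (nat_lit 65604) (nat_lit 9) (.e (nat_lit 336028) (nat_lit 3) (.e (nat_lit 98367) (nat_lit 27) (.e (nat_lit 434209) (nat_lit 18) (.e (nat_lit 5548) (nat_lit 306) (.e (nat_lit 2611) (nat_lit 163) .nil)))))))) (.g (nat_lit 1) (.e (nat_lit 168544) (nat_lit 0) .nil) .nil)))) 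
(.nd (nat_lit 9) 
(.lf (nat_lit 500018) (.g (nat_lit 2557) (.e (nat_lit 163977) (nat_lit 30) (.e (nat_lit 573482) (nat_lit 13) (.e (nat_lit 65604) (nat_lit 9) (.e (nat_lit 336028) (nat_lit 3) (.e (nat_lit 98359) (nat_lit 26) (.e (nat_lit 426039) (nat_lit 0) (.e (nat_lit 2458) (nat_lit 157) (.e (nat_lit 5548) (nat_lit 306) (.e (nat_lit 2610) (nat_lit 163) .nil))))))))) (.g (nat_lit 1) (.e (nat_lit 168149) (nat_lit 0) .nil) .nil))) 
(.lf (nat_lit 500530) (.g (nat_lit 2666) (.e (nat_lit 163977) (nat_lit 30) (.e (nat_lit 573489) (nat_lit 14) (.e (nat_lit 73755) (nat_lit 8) (.e (nat_lit 557097) (nat_lit 13) (.e (nat_lit 172065) (nat_lit 3) (.e (nat_lit 204817) (nat_lit 17) (.e (nat_lit 2272) (nat_lit 149) (.e (nat_lit 761897) (nat_lit 15) .nil)))))))) (.g (nat_lit 1) (.e (nat_lit 168992) (nat_lit 0) .nil) .nil))))) 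
(.nd (nat_lit 8) (.nd (nat_lit 9) 
(.lf (nat_lit 499890) (.g (nat_lit 2897) (.e (nat_lit 163976) (nat_lit 30) (.e (nat_lit 573492) (nat_lit 15) (.e (nat_lit 81956) (nat_lit 23) (.e (nat_lit 98362) (nat_lit 26) .nil)))) (.g (nat_lit 0) (.e (nat_lit 167888) (nat_lit 0) .nil) .nil))) 
(.lf (nat_lit 500402) (.g (nat_lit 4351) (.e (nat_lit 163977) (nat_lit 30) (.e (nat_lit 573487) (nat_lit 14) (.e (nat_lit 73753) (nat_lit 8) (.e (nat_lit 557103) (nat_lit 14) (.e (nat_lit 180250) (nat_lit 10) (.e (nat_lit 573475) (nat_lit 12) (.e (nat_lit 57503) (nat_lit 38) (.e (nat_lit 638996) (nat_lit 7) .nil)))))))) (.g (nat_lit 1) (.e (nat_lit 168813) (nat_lit 0) .nil) .nil)))) 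
(.nd (nat_lit 9) 
(.lf (nat_lit 500146) (.g (nat_lit 1077) (.e (nat_lit 163977) (nat_lit 30) (.e (nat_lit 573484) (nat_lit 13) (.e (nat_lit 65610) (nat_lit 10) (.e (nat_lit 344117) (nat_lit 21) .nil)))) (.g (nat_lit 0) (.e (nat_lit 168310) (nat_lit 0) .nil) .nil))) 
(.lf (nat_lit 500658) (.g (nat_lit 2512) (.e (nat_lit 163977) (nat_lit 30) (.e (nat_lit 573489) (nat_lit 14) (.e (nat_lit 73755) (nat_lit 8) (.e (nat_lit 557104) (nat_lit 14) (.e (nat_lit 180245) (nat_lit 5) (.e (nat_lit 532484) (nat_lit 0) (.e (nat_lit 7936) (nat_lit 149) (.e (nat_lit 761899) (nat_lit 15) .nil)))))))) (.g (nat_lit 1) (.e (nat_lit 169206) (nat_lit 0) .nil) .nil)))))) 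
(.nd (nat_lit 7) (.nd (nat_lit 8) (.nd (nat_lit 9) 
(.lf (nat_lit 499826) (.g (nat_lit 1670) (.e (nat_lit 163976) (nat_lit 30) (.e (nat_lit 573492) (nat_lit 15) (.e (nat_lit 81956) (nat_lit 23) (.e (nat_lit 98356) (nat_lit 26) .nil)))) (.g (nat_lit 0) (.e (nat_lit 167778) (nat_lit 0) .nil) .nil))) 
(.lf (nat_lit 500338) (.g (nat_lit 4453) (.e (nat_lit 163977) (nat_lit 30) (.e (nat_lit 573485) (nat_lit 13) (.e (nat_lit 65619) (nat_lit 10) (.e (nat_lit 344117) (nat_lit 21) (.e (nat_lit 516159) (nat_lit 10) (.e (nat_lit 434209) (nat_lit 18) (.e (nat_lit 5548) (nat_lit 306) (.e (nat_lit 2611) (nat_lit 163) .nil)))))))) (.g (nat_lit 1) (.e (nat_lit 168610) (nat_lit 0) .nil) .nil)))) 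
(.nd (nat_lit 9) 
(.lf (nat_lit 500082) (.g (nat_lit 2140) (.e (nat_lit 163977) (nat_lit 30) (.e (nat_lit 573482) (nat_lit 13) (.e (nat_lit 65619) (nat_lit 10) (.e (nat_lit 344117) (nat_lit 21) (.e (nat_lit 516151) (nat_lit 9) (.e (nat_lit 426097) (nat_lit 1) (.e (nat_lit 164347) (nat_lit 240) (.e (nat_lit 2600) (nat_lit 163) .nil)))))))) (.g (nat_lit 1) (.e (nat_lit 168224) (nat_lit 0) .nil) .nil))) 
(.lf (nat_lit 500594) (.g (nat_lit 3341) (.e (nat_lit 163977) (nat_lit 30) (.e (nat_lit 573489) (nat_lit 14) (.e (nat_lit 73755) (nat_lit 8) (.e (nat_lit 557103) (nat_lit 14) (.e (nat_lit 180244) (nat_lit 5) (.e (nat_lit 532481) (nat_lit 0) (.e (nat_lit 2272) (nat_lit 149) (.e (nat_lit 761899) (nat_lit 15) .nil)))))))) (.g (nat_lit 1) (.e (nat_lit 169098) (nat_lit 0) .nil) .nil))))) 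
(.nd (nat_lit 8) (.nd (nat_lit 9) 
(.lf (nat_lit 499954) (.g (nat_lit 1059) (.e (nat_lit 163977) (nat_lit 30) (.e (nat_lit 573471) (nat_lit 11) (.e (nat_lit 16425) (nat_lit 7) .nil))) (.g (nat_lit 0) (.e (nat_lit 168049) (nat_lit 0) .nil) .nil))) 
(.lf (nat_lit 500466) (.g (nat_lit 2628) (.e (nat_lit 163977) (nat_lit 30) (.e (nat_lit 573488) (nat_lit 14) (.e (nat_lit 73755) (nat_lit 8) (.e (nat_lit 557105) (nat_lit 14) (.e (nat_lit 180252) (nat_lit 10) (.e (nat_lit 573475) (nat_lit 12) (.e (nat_lit 57504) (nat_lit 38) (.e (nat_lit 638995) (nat_lit 7) .nil)))))))) (.g (nat_lit 1) (.e (nat_lit 168884) (nat_lit 0) .nil) .nil)))) 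
(.nd (nat_lit 9) 
(.lf (nat_lit 500210) (.g (nat_lit 3285) (.e (nat_lit 163977) (nat_lit 30) (.e (nat_lit 573485) (nat_lit 13) (.e (nat_lit 65604) (nat_lit 9) (.e (nat_lit 336013) (nat_lit 2) (.e (nat_lit 90170) (nat_lit 13) (.e (nat_lit 172036) (nat_lit 0) (.e (nat_lit 3402) (nat_lit 211) (.e (nat_lit 647181) (nat_lit 3) .nil)))))))) (.g (nat_lit 1) (.e (nat_lit 168445) (nat_lit 0) .nil) .nil))) 
(.lf (nat_lit 500722) (.g (nat_lit 4004) (.e (nat_lit 163977) (nat_lit 30) (.e (nat_lit 573491) (nat_lit 15) (.e (nat_lit 81951) (nat_lit 22) (.e (nat_lit 90170) (nat_lit 13) (.e (nat_lit 172035) (nat_lit 0) (.e (nat_lit 3397) (nat_lit 211) (.e (nat_lit 647181) (nat_lit 3) .nil))))))) (.g (nat_lit 1) (.e (nat_lit 169327) (nat_lit 0) .nil) .nil))))))))) 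
(.nd (nat_lit 4) (.nd (nat_lit 5) (.nd (nat_lit 6) (.nd (nat_lit 7) (.nd (nat_lit 8) 
(.nd (nat_lit 9) 
(.lf (nat_lit 499722) (.g (nat_lit 1980) (.e (nat_lit 163976) (nat_lit 30) (.e (nat_lit 573491) (nat_lit 15) (.e (nat_lit 81954) (nat_lit 23) (.e (nat_lit 98356) (nat_lit 26) (.e (nat_lit 426364) (nat_lit 15) .nil))))) (.g (nat_lit 0) (.e (nat_lit 167446) (nat_lit 0) .nil) .nil))) 
(.lf (nat_lit 500234) (.g (nat_lit 3402) (.e (nat_lit 163977) (nat_lit 30) (.e (nat_lit 573485) (nat_lit 13) (.e (nat_lit 65604) (nat_lit 9) (.e (nat_lit 336013) (nat_lit 2) (.e (nat_lit 90170) (nat_lit 13) (.e (nat_lit 172068) (nat_lit 4) (.e (nat_lit 229663) (nat_lit 240) (.e (nat_lit 2604) (nat_lit 163) .nil)))))))) (.g (nat_lit 1) (.e (nat_lit 168471) (nat_lit 0) .nil) .nil)))) 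
(.nd (nat_lit 9) 
(.lf (nat_lit 499978) (.g (nat_lit 1825) (.e (nat_lit 163977) (nat_lit 30) (.e (nat_lit 573482) (nat_lit 13) (.e (nat_lit 65604) (nat_lit 9) (.e (nat_lit 336013) (nat_lit 2) (.e (nat_lit 90134) (nat_lit 9) .nil))))) (.g (nat_lit 0) (.e (nat_lit 168103) (nat_lit 0) .nil) .nil))) 
(.lf (nat_lit 500490) (.g (nat_lit 3247) (.e (nat_lit 163977) (nat_lit 30) (.e (nat_lit 573489) (nat_lit 14) (.e (nat_lit 73754) (nat_lit 8) (.e (nat_lit 557103) (nat_lit 14) (.e (nat_lit 180243) (nat_lit 5) (.e (nat_lit 532484) (nat_lit 0) (.e (nat_lit 7936) (nat_lit 149) (.e (nat_lit 761899) (nat_lit 15) .nil)))))))) (.g (nat_lit 1) (.e (nat_lit 168926) (nat_lit 0) .nil) .nil))))) 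
(.nd (nat_lit 8) (.nd (nat_lit 9) 
(.lf (nat_lit 499850) (.g (nat_lit 3154) (.e (nat_lit 163976) (nat_lit 30) (.e (nat_lit 573492) (nat_lit 15) (.e (nat_lit 81956) (nat_lit 23) (.e (nat_lit 98356) (nat_lit 26) (.e (nat_lit 426400) (nat_lit 15) .nil))))) (.g (nat_lit 0) (.e (nat_lit 167807) (nat_lit 0) .nil) .nil))) 
(.lf (nat_lit 500362) (.g (nat_lit 4381) (.e (nat_lit 163977) (nat_lit 30) (.e (nat_lit 573485) (nat_lit 13) (.e (nat_lit 65619) (nat_lit 10) (.e (nat_lit 344117) (nat_lit 21) (.e (nat_lit 516170) (nat_lit 13) (.e (nat_lit 458774) (nat_lit 18) (.e (nat_lit 5547) (nat_lit 306) (.e (nat_lit 2601) (nat_lit 163) .nil)))))))) (.g (nat_lit 1) (.e (nat_lit 168637) (nat_lit 0) .nil) .nil)))) 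
(.nd (nat_lit 9) 
(.lf (nat_lit 500106) (.g (nat_lit 1954) (.e (nat_lit 163977) (nat_lit 30) (.e (nat_lit 573482) (nat_lit 13) (.e (nat_lit 65619) (nat_lit 10) (.e (nat_lit 344117) (nat_lit 21) (.e (nat_lit 524032) (nat_lit 9) .nil))))) (.g (nat_lit 0) (.e (nat_lit 168248) (nat_lit 0) .nil) .nil))) 
(.lf (nat_lit 500618) (.g (nat_lit 4606) (.e (nat_lit 163977) (nat_lit 30) (.e (nat_lit 573489) (nat_lit 14) (.e (nat_lit 73755) (nat_lit 8) (.e (nat_lit 557103) (nat_lit 14) (.e (nat_lit 180250) (nat_lit 10) (.e (nat_lit 573475) (nat_lit 12) (.e (nat_lit 57503) (nat_lit 38) (.e (nat_lit 638995) (nat_lit 7) .nil)))))))) (.g (nat_lit 1) (.e (nat_lit 169136) (nat_lit 0) .nil) .nil)))))) 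
(.nd (nat_lit 7) (.nd (nat_lit 8) (.nd (nat_lit 9) 
(.lf (nat_lit 499786) (.g (nat_lit 3198) (.e (nat_lit 163976) (nat_lit 30) (.e (nat_lit 573491) (nat_lit 15) (.e (nat_lit 81956) (nat_lit 23) (.e (nat_lit 98384) (nat_lit 32) (.e (nat_lit 475197) (nat_lit 40) .nil))))) (.g (nat_lit 0) (.e (nat_lit 167554) (nat_lit 0) .nil) .nil))) 
(.lf (nat_lit 500298) (.g (nat_lit 2124) (.e (nat_lit 163977) (nat_lit 30) (.e (nat_lit 573485) (nat_lit 13) (.e (nat_lit 65619) (nat_lit 10) (.e (nat_lit 344117) (nat_lit 21) (.e (nat_lit 516151) (nat_lit 9) (.e (nat_lit 426043) (nat_lit 0) (.e (nat_lit 2458) (nat_lit 157) (.e (nat_lit 5546) (nat_lit 306) (.e (nat_lit 2600) (nat_lit 163) .nil))))))))) (.g (nat_lit 1) (.e (nat_lit 168570) (nat_lit 0) .nil) .nil)))) 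
(.nd (nat_lit 9) 
(.lf (nat_lit 500042) (.g (nat_lit 3564) (.e (nat_lit 163977) (nat_lit 30) (.e (nat_lit 573482) (nat_lit 13) (.e (nat_lit 65604) (nat_lit 9) (.e (nat_lit 336028) (nat_lit 3) (.e (nat_lit 98366) (nat_lit 27) (.e (nat_lit 434209) (nat_lit 18) (.e (nat_lit 5546) (nat_lit 306) (.e (nat_lit 2601) (nat_lit 163) .nil)))))))) (.g (nat_lit 1) (.e (nat_lit 168182) (nat_lit 0) .nil) .nil))) 
(.lf (nat_lit 500554) (.g (nat_lit 1866) (.e (nat_lit 163977) (nat_lit 30) (.e (nat_lit 573489) (nat_lit 14) (.e (nat_lit 73755) (nat_lit 8) (.e (nat_lit 557098) (nat_lit 13) .nil)))) (.g (nat_lit 0) (.e (nat_lit 169032) (nat_lit 0) .nil) .nil))))) (.nd (nat_lit 8) (.nd (nat_lit 9) 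
(.lf (nat_lit 499914) (.g (nat_lit 3665) (.e (nat_lit 163976) (nat_lit 30) (.e (nat_lit 573492) (nat_lit 15) (.e (nat_lit 81956) (nat_lit 23) (.e (nat_lit 98383) (nat_lit 32) (.e (nat_lit 475199) (nat_lit 40) (.e (nat_lit 704589) (nat_lit 3) .nil)))))) (.g (nat_lit 1) (.e (nat_lit 167968) (nat_lit 0) .nil) .nil))) 
(.lf (nat_lit 500426) (.g (nat_lit 3636) (.e (nat_lit 163977) (nat_lit 30) (.e (nat_lit 573487) (nat_lit 14) (.e (nat_lit 73753) (nat_lit 8) (.e (nat_lit 557105) (nat_lit 14) (.e (nat_lit 180252) (nat_lit 10) (.e (nat_lit 573475) (nat_lit 12) (.e (nat_lit 57502) (nat_lit 38) (.e (nat_lit 638996) (nat_lit 7) .nil)))))))) (.g (nat_lit 1) (.e (nat_lit 168840) (nat_lit 0) .nil) .nil)))) 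
(.nd (nat_lit 9) 
(.lf (nat_lit 500170) (.g (nat_lit 3115) (.e (nat_lit 163977) (nat_lit 30) (.e (nat_lit 573484) (nat_lit 13) (.e (nat_lit 65610) (nat_lit 10) (.e (nat_lit 344117) (nat_lit 21) (.e (nat_lit 516151) (nat_lit 9) (.e (nat_lit 426045) (nat_lit 0) (.e (nat_lit 3406) (nat_lit 212) (.e (nat_lit 655375) (nat_lit 3) .nil)))))))) (.g (nat_lit 1) (.e (nat_lit 168358) (nat_lit 0) .nil) .nil))) 
(.lf (nat_lit 500682) (.g (nat_lit 3747) (.e (nat_lit 163977) (nat_lit 30) (.e (nat_lit 573489) (nat_lit 14) (.e (nat_lit 73755) (nat_lit 8) (.e (nat_lit 557104) (nat_lit 14) (.e (nat_lit 180252) (nat_lit 10) (.e (nat_lit 573475) (nat_lit 12) (.e (nat_lit 57500) (nat_lit 37) (.e (nat_lit 630800) (nat_lit 7) .nil)))))))) (.g (nat_lit 1) (.e (nat_lit 169236) (nat_lit 0) .nil) .nil))))))) 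
(.nd (nat_lit 6) (.nd (nat_lit 7) (.nd (nat_lit 8) (.nd (nat_lit 9) 
(.lf (nat_lit 499754) (.g (nat_lit 1972) (.e (nat_lit 163976) (nat_lit 30) (.e (nat_lit 573491) (nat_lit 15) (.e (nat_lit 81954) (nat_lit 23) (.e (nat_lit 98361) (nat_lit 26) (.e (nat_lit 426025) (nat_lit 0) (.e (nat_lit 3397) (nat_lit 211) (.e (nat_lit 647180) (nat_lit 3) .nil))))))) (.g (nat_lit 1) (.e (nat_lit 167500) (nat_lit 0) .nil) .nil))) 
(.lf (nat_lit 500266) (.g (nat_lit 1820) (.e (nat_lit 163977) (nat_lit 30) (.e (nat_lit 573485) (nat_lit 13) (.e (nat_lit 65604) (nat_lit 9) (.e (nat_lit 336028) (nat_lit 3) (.e (nat_lit 98367) (nat_lit 27) .nil))))) (.g (nat_lit 0) (.e (nat_lit 168536) (nat_lit 0) .nil) .nil)))) (.nd (nat_lit 9) 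
(.lf (nat_lit 500010) (.g (nat_lit 1137) (.e (nat_lit 163977) (nat_lit 30) (.e (nat_lit 573482) (nat_lit 13) (.e (nat_lit 65604) (nat_lit 9) (.e (nat_lit 336028) (nat_lit 3) .nil)))) (.g (nat_lit 0) (.e (nat_lit 168135) (nat_lit 0) .nil) .nil))) 
(.lf (nat_lit 500522) (.g (nat_lit 3735) (.e (nat_lit 163977) (nat_lit 30) (.e (nat_lit 573489) (nat_lit 14) (.e (nat_lit 73755) (nat_lit 8) (.e (nat_lit 557096) (nat_lit 13) (.e (nat_lit 172067) (nat_lit 3) (.e (nat_lit 204817) (nat_lit 17) (.e (nat_lit 2272) (nat_lit 149) (.e (nat_lit 761899) (nat_lit 15) .nil)))))))) (.g (nat_lit 1) (.e (nat_lit 168978) (nat_lit 0) .nil) .nil))))) 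
(.nd (nat_lit 8) (.nd (nat_lit 9) 
(.lf (nat_lit 499882) (.g (nat_lit 4629) (.e (nat_lit 163976) (nat_lit 30) (.e (nat_lit 573492) (nat_lit 15) (.e (nat_lit 81956) (nat_lit 23) (.e (nat_lit 98359) (nat_lit 26) (.e (nat_lit 426412) (nat_lit 15) (.e (nat_lit 2059) (nat_lit 142) (.e (nat_lit 704589) (nat_lit 3) .nil))))))) (.g (nat_lit 1) (.e (nat_lit 167871) (nat_lit 0) .nil) .nil))) 
(.lf (nat_lit 500394) (.g (nat_lit 4193) (.e (nat_lit 163977) (nat_lit 30) (.e (nat_lit 573487) (nat_lit 14) (.e (nat_lit 73753) (nat_lit 8) (.e (nat_lit 557103) (nat_lit 14) (.e (nat_lit 180250) (nat_lit 10) (.e (nat_lit 573473) (nat_lit 12) (.e (nat_lit 57504) (nat_lit 38) (.e (nat_lit 638995) (nat_lit 7) .nil)))))))) (.g (nat_lit 1) (.e (nat_lit 168803) (nat_lit 0) .nil) .nil)))) 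
(.nd (nat_lit 9) 
(.lf (nat_lit 500138) (.g (nat_lit 4529) (.e (nat_lit 163977) (nat_lit 30) (.e (nat_lit 573482) (nat_lit 13) (.e (nat_lit 65619) (nat_lit 10) (.e (nat_lit 344117) (nat_lit 21) (.e (nat_lit 516170) (nat_lit 13) (.e (nat_lit 458774) (nat_lit 18) (.e (nat_lit 5547) (nat_lit 306) (.e (nat_lit 2601) (nat_lit 163) .nil)))))))) (.g (nat_lit 1) (.e (nat_lit 168280) (nat_lit 0) .nil) .nil))) 
(.lf (nat_lit 500650) (.g (nat_lit 3114) (.e (nat_lit 163977) (nat_lit 30) (.e (nat_lit 573489) (nat_lit 14) (.e (nat_lit 73755) (nat_lit 8) (.e (nat_lit 557104) (nat_lit 14) (.e (nat_lit 180244) (nat_lit 5) (.e (nat_lit 532488) (nat_lit 0) (.e (nat_lit 7936) (nat_lit 149) (.e (nat_lit 761899) (nat_lit 15) .nil)))))))) (.g (nat_lit 1) (.e (nat_lit 169180) (nat_lit 0) .nil) .nil)))))) 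
(.nd (nat_lit 7) (.nd (nat_lit 8) (.nd (nat_lit 9) 
(.lf (nat_lit 499818) (.g (nat_lit 1954) (.e (nat_lit 163976) (nat_lit 30) (.e (nat_lit 573492) (nat_lit 15) (.e (nat_lit 81954) (nat_lit 23) (.e (nat_lit 98386) (nat_lit 32) (.e (nat_lit 475197) (nat_lit 40) (.e (nat_lit 704589) (nat_lit 3) .nil)))))) (.g (nat_lit 1) (.e (nat_lit 167743) (nat_lit 0) .nil) .nil))) 
(.lf (nat_lit 500330) (.g (nat_lit 1919) (.e (nat_lit 163977) (nat_lit 30) (.e (nat_lit 573485) (nat_lit 13) (.e (nat_lit 65619) (nat_lit 10) (.e (nat_lit 344117) (nat_lit 21) (.e (nat_lit 524032) (nat_lit 9) (.e (nat_lit 426107) (nat_lit 1) (.e (nat_lit 164347) (nat_lit 240) (.e (nat_lit 2611) (nat_lit 163) .nil)))))))) (.g (nat_lit 1) (.e (nat_lit 168602) (nat_lit 0) .nil) .nil)))) 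
(.nd (nat_lit 9) 
(.lf (nat_lit 500074) (.g (nat_lit 3874) (.e (nat_lit 163977) (nat_lit 30) (.e (nat_lit 573482) (nat_lit 13) (.e (nat_lit 65619) (nat_lit 10) (.e (nat_lit 344117) (nat_lit 21) (.e (nat_lit 516151) (nat_lit 9) (.e (nat_lit 426042) (nat_lit 0) (.e (nat_lit 2458) (nat_lit 157) (.e (nat_lit 5546) (nat_lit 306) (.e (nat_lit 2611) (nat_lit 163) .nil))))))))) (.g (nat_lit 1) (.e (nat_lit 168216) (nat_lit 0) .nil) .nil))) 
(.lf (nat_lit 500586) (.g (nat_lit 2088) (.e (nat_lit 163977) (nat_lit 30) (.e (nat_lit 573489) (nat_lit 14) (.e (nat_lit 73755) (nat_lit 8) (.e (nat_lit 557103) (nat_lit 14) (.e (nat_lit 180243) (nat_lit 5) .nil))))) (.g (nat_lit 0) (.e (nat_lit 169085) (nat_lit 0) .nil) .nil))))) (.nd (nat_lit 8) (.nd (nat_lit 9) 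
(.lf (nat_lit 499946) (.g (nat_lit 3849) (.e (nat_lit 163976) (nat_lit 30) (.e (nat_lit 573493) (nat_lit 15) (.e (nat_lit 81956) (nat_lit 23) (.e (nat_lit 106240) (nat_lit 26) .nil)))) (.g (nat_lit 0) (.e (nat_lit 168031) (nat_lit 0) .nil) .nil))) 
(.lf (nat_lit 500458) (.g (nat_lit 1646) (.e (nat_lit 163977) (nat_lit 30) (.e (nat_lit 573488) (nat_lit 14) (.e (nat_lit 73755) (nat_lit 8) (.e (nat_lit 557104) (nat_lit 14) .nil)))) (.g (nat_lit 0) (.e (nat_lit 168876) (nat_lit 0) .nil) .nil)))) (.nd (nat_lit 9) 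
(.lf (nat_lit 500202) (.g (nat_lit 2290) (.e (nat_lit 163977) (nat_lit 30) (.e (nat_lit 573484) (nat_lit 13) (.e (nat_lit 65610) (nat_lit 10) (.e (nat_lit 344118) (nat_lit 21) .nil)))) (.g (nat_lit 0) (.e (nat_lit 168432) (nat_lit 0) .nil) .nil))) 
(.lf (nat_lit 500714) (.g (nat_lit 424) (.e (nat_lit 163977) (nat_lit 30) (.e (nat_lit 573489) (nat_lit 14) (.e (nat_lit 73768) (nat_lit 19) .nil))) (.g (nat_lit 0) (.e (nat_lit 169296) (nat_lit 0) .nil) .nil)))))))) (.nd (nat_lit 5) (.nd (nat_lit 6) (.nd (nat_lit 7) (.nd (nat_lit 8) (.nd (nat_lit 9) 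
(.lf (nat_lit 499738) (.g (nat_lit 1014) (.e (nat_lit 163976) (nat_lit 30) (.e (nat_lit 573491) (nat_lit 15) (.e (nat_lit 81954) (nat_lit 23) (.e (nat_lit 98357) (nat_lit 26) .nil)))) (.g (nat_lit 0) (.e (nat_lit 167466) (nat_lit 0) .nil) .nil))) 
(.lf (nat_lit 500250) (.g (nat_lit 2645) (.e (nat_lit 163977) (nat_lit 30) (.e (nat_lit 573485) (nat_lit 13) (.e (nat_lit 65604) (nat_lit 9) (.e (nat_lit 336028) (nat_lit 3) (.e (nat_lit 98361) (nat_lit 26) (.e (nat_lit 426144) (nat_lit 4) (.e (nat_lit 229663) (nat_lit 240) (.e (nat_lit 2612) (nat_lit 163) .nil)))))))) (.g (nat_lit 1) (.e (nat_lit 168517) (nat_lit 0) .nil) .nil)))) 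
(.nd (nat_lit 9) 
(.lf (nat_lit 499994) (.g (nat_lit 4058) (.e (nat_lit 163977) (nat_lit 30) (.e (nat_lit 573482) (nat_lit 13) (.e (nat_lit 65604) (nat_lit 9) (.e (nat_lit 336013) (nat_lit 2) (.e (nat_lit 90170) (nat_lit 13) (.e (nat_lit 172059) (nat_lit 1) (.e (nat_lit 164345) (nat_lit 240) (.e (nat_lit 2601) (nat_lit 163) .nil)))))))) (.g (nat_lit 1) (.e (nat_lit 168119) (nat_lit 0) .nil) .nil))) 
(.lf (nat_lit 500506) (.g (nat_lit 4280) (.e (nat_lit 163977) (nat_lit 30) (.e (nat_lit 573489) (nat_lit 14) (.e (nat_lit 73754) (nat_lit 8) (.e (nat_lit 557105) (nat_lit 14) (.e (nat_lit 180252) (nat_lit 10) (.e (nat_lit 573473) (nat_lit 12) (.e (nat_lit 57503) (nat_lit 38) (.e (nat_lit 638995) (nat_lit 7) .nil)))))))) (.g (nat_lit 1) (.e (nat_lit 168942) (nat_lit 0) .nil) .nil))))) 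
(.nd (nat_lit 8) (.nd (nat_lit 9) 
(.lf (nat_lit 499866) (.g (nat_lit 2436) (.e (nat_lit 163976) (nat_lit 30) (.e (nat_lit 573492) (nat_lit 15) (.e (nat_lit 81956) (nat_lit 23) (.e (nat_lit 98359) (nat_lit 26) (.e (nat_lit 426003) (nat_lit 0) (.e (nat_lit 3397) (nat_lit 211) (.e (nat_lit 647180) (nat_lit 3) .nil))))))) (.g (nat_lit 1) (.e (nat_lit 167828) (nat_lit 0) .nil) .nil))) 
(.lf (nat_lit 500378) (.g (nat_lit 2679) (.e (nat_lit 163977) (nat_lit 30) (.e (nat_lit 573487) (nat_lit 14) (.e (nat_lit 73753) (nat_lit 8) (.e (nat_lit 557100) (nat_lit 13) (.e (nat_lit 172065) (nat_lit 3) (.e (nat_lit 204817) (nat_lit 17) (.e (nat_lit 2271) (nat_lit 149) (.e (nat_lit 761898) (nat_lit 15) .nil)))))))) (.g (nat_lit 1) (.e (nat_lit 168737) (nat_lit 0) .nil) .nil)))) 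
(.nd (nat_lit 9) 
(.lf (nat_lit 500122) (.g (nat_lit 4528) (.e (nat_lit 163977) (nat_lit 30) (.e (nat_lit 573482) (nat_lit 13) (.e (nat_lit 65619) (nat_lit 10) (.e (nat_lit 344117) (nat_lit 21) (.e (nat_lit 516160) (nat_lit 10) (.e (nat_lit 434209) (nat_lit 18) (.e (nat_lit 5547) (nat_lit 306) (.e (nat_lit 2601) (nat_lit 163) .nil)))))))) (.g (nat_lit 1) (.e (nat_lit 168264) (nat_lit 0) .nil) .nil))) 
(.lf (nat_lit 500634) (.g (nat_lit 3065) (.e (nat_lit 163977) (nat_lit 30) (.e (nat_lit 573489) (nat_lit 14) (.e (nat_lit 73755) (nat_lit 8) (.e (nat_lit 557104) (nat_lit 14) (.e (nat_lit 180242) (nat_lit 5) (.e (nat_lit 532481) (nat_lit 0) (.e (nat_lit 2271) (nat_lit 149) (.e (nat_lit 761899) (nat_lit 15) .nil)))))))) (.g (nat_lit 1) (.e (nat_lit 169154) (nat_lit 0) .nil) .nil)))))) 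
(.nd (nat_lit 7) (.nd (nat_lit 8) (.nd (nat_lit 9) 
(.lf (nat_lit 499802) (.g (nat_lit 2258) (.e (nat_lit 163976) (nat_lit 30) (.e (nat_lit 573492) (nat_lit 15) (.e (nat_lit 81953) (nat_lit 22) (.e (nat_lit 90170) (nat_lit 13) (.e (nat_lit 172136) (nat_lit 15) .nil))))) (.g (nat_lit 0) (.e (nat_lit 167683) (nat_lit 0) .nil) .nil))) 
(.lf (nat_lit 500314) (.g (nat_lit 2901) (.e (nat_lit 163977) (nat_lit 30) (.e (nat_lit 573485) (nat_lit 13) (.e (nat_lit 65619) (nat_lit 10) (.e (nat_lit 344117) (nat_lit 21) (.e (nat_lit 516151) (nat_lit 9) (.e (nat_lit 426142) (nat_lit 4) (.e (nat_lit 229666) (nat_lit 240) (.e (nat_lit 2604) (nat_lit 163) .nil)))))))) (.g (nat_lit 1) (.e (nat_lit 168586) (nat_lit 0) .nil) .nil)))) 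
(.nd (nat_lit 9) 
(.lf (nat_lit 500058) (.g (nat_lit 1188) (.e (nat_lit 163977) (nat_lit 30) (.e (nat_lit 573482) (nat_lit 13) (.e (nat_lit 65619) (nat_lit 10) (.e (nat_lit 344117) (nat_lit 21) .nil)))) (.g (nat_lit 0) (.e (nat_lit 168199) (nat_lit 0) .nil) .nil))) 
(.lf (nat_lit 500570) (.g (nat_lit 3329) (.e (nat_lit 163977) (nat_lit 30) (.e (nat_lit 573489) (nat_lit 14) (.e (nat_lit 73755) (nat_lit 8) (.e (nat_lit 557098) (nat_lit 13) (.e (nat_lit 172067) (nat_lit 3) (.e (nat_lit 204816) (nat_lit 17) (.e (nat_lit 2273) (nat_lit 149) (.e (nat_lit 761899) (nat_lit 15) .nil)))))))) (.g (nat_lit 1) (.e (nat_lit 169061) (nat_lit 0) .nil) .nil))))) 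
(.nd (nat_lit 8) (.nd (nat_lit 9) 
(.lf (nat_lit 499930) (.g (nat_lit 4338) (.e (nat_lit 163976) (nat_lit 30) (.e (nat_lit 573492) (nat_lit 15) (.e (nat_lit 81956) (nat_lit 23) (.e (nat_lit 98386) (nat_lit 32) (.e (nat_lit 475198) (nat_lit 40) (.e (nat_lit 704589) (nat_lit 3) .nil)))))) (.g (nat_lit 1) (.e (nat_lit 167984) (nat_lit 0) .nil) .nil))) 
(.lf (nat_lit 500442) (.g (nat_lit 3633) (.e (nat_lit 163977) (nat_lit 30) (.e (nat_lit 573487) (nat_lit 14) (.e (nat_lit 73754) (nat_lit 8) (.e (nat_lit 557105) (nat_lit 14) (.e (nat_lit 180252) (nat_lit 10) (.e (nat_lit 573475) (nat_lit 12) (.e (nat_lit 57504) (nat_lit 38) (.e (nat_lit 638996) (nat_lit 7) .nil)))))))) (.g (nat_lit 1) (.e (nat_lit 168857) (nat_lit 0) .nil) .nil)))) 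
(.nd (nat_lit 9) 
(.lf (nat_lit 500186) (.g (nat_lit 2956) (.e (nat_lit 163977) (nat_lit 30) (.e (nat_lit 573484) (nat_lit 13) (.e (nat_lit 65610) (nat_lit 10) (.e (nat_lit 344117) (nat_lit 21) (.e (nat_lit 516153) (nat_lit 9) .nil))))) (.g (nat_lit 0) (.e (nat_lit 168384) (nat_lit 0) .nil) .nil))) 
(.lf (nat_lit 500698) (.g (nat_lit 2709) (.e (nat_lit 163977) (nat_lit 30) (.e (nat_lit 573489) (nat_lit 14) (.e (nat_lit 73755) (nat_lit 8) (.e (nat_lit 557105) (nat_lit 14) (.e (nat_lit 180251) (nat_lit 10) (.e (nat_lit 573478) (nat_lit 12) (.e (nat_lit 57502) (nat_lit 38) (.e (nat_lit 638995) (nat_lit 7) .nil)))))))) (.g (nat_lit 1) (.e (nat_lit 169254) (nat_lit 0) .nil) .nil))))))) 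
(.nd (nat_lit 6) (.nd (nat_lit 7) (.nd (nat_lit 8) (.nd (nat_lit 9) 
(.lf (nat_lit 499770) (.g (nat_lit 1593) (.e (nat_lit 163976) (nat_lit 30) (.e (nat_lit 573491) (nat_lit 15) (.e (nat_lit 81954) (nat_lit 23) (.e (nat_lit 98385) (nat_lit 32) (.e (nat_lit 475195) (nat_lit 40) (.e (nat_lit 704589) (nat_lit 3) .nil)))))) (.g (nat_lit 1) (.e (nat_lit 167538) (nat_lit 0) .nil) .nil))) 
(.lf (nat_lit 500282) (.g (nat_lit 3809) (.e (nat_lit 163977) (nat_lit 30) (.e (nat_lit 573485) (nat_lit 13) (.e (nat_lit 65619) (nat_lit 10) (.e (nat_lit 344117) (nat_lit 21) (.e (nat_lit 516143) (nat_lit 9) (.e (nat_lit 426109) (nat_lit 1) (.e (nat_lit 164345) (nat_lit 240) (.e (nat_lit 2601) (nat_lit 163) .nil)))))))) (.g (nat_lit 1) (.e (nat_lit 168554) (nat_lit 0) .nil) .nil)))) 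
(.nd (nat_lit 9) 
(.lf (nat_lit 500026) (.g (nat_lit 2382) (.e (nat_lit 163977) (nat_lit 30) (.e (nat_lit 573482) (nat_lit 13) (.e (nat_lit 65604) (nat_lit 9) (.e (nat_lit 336028) (nat_lit 3) (.e (nat_lit 98359) (nat_lit 26) (.e (nat_lit 426104) (nat_lit 1) (.e (nat_lit 164348) (nat_lit 240) (.e (nat_lit 2601) (nat_lit 163) .nil)))))))) (.g (nat_lit 1) (.e (nat_lit 168161) (nat_lit 0) .nil) .nil))) 
(.lf (nat_lit 500538) (.g (nat_lit 2874) (.e (nat_lit 163977) (nat_lit 30) (.e (nat_lit 573489) (nat_lit 14) (.e (nat_lit 73755) (nat_lit 8) (.e (nat_lit 557097) (nat_lit 13) (.e (nat_lit 172066) (nat_lit 3) (.e (nat_lit 204817) (nat_lit 17) (.e (nat_lit 7936) (nat_lit 149) (.e (nat_lit 761897) (nat_lit 15) .nil)))))))) (.g (nat_lit 1) (.e (nat_lit 169005) (nat_lit 0) .nil) .nil))))) 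
(.nd (nat_lit 8) (.nd (nat_lit 9) 
(.lf (nat_lit 499898) (.g (nat_lit 3124) (.e (nat_lit 163976) (nat_lit 30) (.e (nat_lit 573492) (nat_lit 15) (.e (nat_lit 81956) (nat_lit 23) (.e (nat_lit 98364) (nat_lit 26) .nil)))) (.g (nat_lit 0) (.e (nat_lit 167900) (nat_lit 0) .nil) .nil))) 
(.lf (nat_lit 500410) (.g (nat_lit 2947) (.e (nat_lit 163977) (nat_lit 30) (.e (nat_lit 573487) (nat_lit 14) (.e (nat_lit 73753) (nat_lit 8) (.e (nat_lit 557103) (nat_lit 14) (.e (nat_lit 180252) (nat_lit 10) (.e (nat_lit 573475) (nat_lit 12) (.e (nat_lit 57503) (nat_lit 38) (.e (nat_lit 638995) (nat_lit 7) .nil)))))))) (.g (nat_lit 1) (.e (nat_lit 168822) (nat_lit 0) .nil) .nil)))) 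
(.nd (nat_lit 9) 
(.lf (nat_lit 500154) (.g (nat_lit 3020) (.e (nat_lit 163977) (nat_lit 30) (.e (nat_lit 573484) (nat_lit 13) (.e (nat_lit 65610) (nat_lit 10) (.e (nat_lit 344117) (nat_lit 21) (.e (nat_lit 516145) (nat_lit 9) (.e (nat_lit 433920) (nat_lit 4) (.e (nat_lit 229663) (nat_lit 240) (.e (nat_lit 2612) (nat_lit 163) .nil)))))))) (.g (nat_lit 1) (.e (nat_lit 168330) (nat_lit 0) .nil) .nil))) 
(.lf (nat_lit 500666) (.g (nat_lit 4020) (.e (nat_lit 163977) (nat_lit 30) (.e (nat_lit 573489) (nat_lit 14) (.e (nat_lit 73755) (nat_lit 8) (.e (nat_lit 557104) (nat_lit 14) (.e (nat_lit 180250) (nat_lit 10) (.e (nat_lit 573475) (nat_lit 12) (.e (nat_lit 57503) (nat_lit 38) (.e (nat_lit 638996) (nat_lit 7) .nil)))))))) (.g (nat_lit 1) (.e (nat_lit 169220) (nat_lit 0) .nil) .nil)))))) 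
(.nd (nat_lit 7) (.nd (nat_lit 8) (.nd (nat_lit 9) 
(.lf (nat_lit 499834) (.g (nat_lit 2937) (.e (nat_lit 163976) (nat_lit 30) (.e (nat_lit 573492) (nat_lit 15) (.e (nat_lit 81956) (nat_lit 23) (.e (nat_lit 98356) (nat_lit 26) (.e (nat_lit 426360) (nat_lit 15) (.e (nat_lit 2051) (nat_lit 142) (.e (nat_lit 704589) (nat_lit 3) .nil))))))) (.g (nat_lit 1) (.e (nat_lit 167791) (nat_lit 0) .nil) .nil))) 
(.lf (nat_lit 500346) (.g (nat_lit 4406) (.e (nat_lit 163977) (nat_lit 30) (.e (nat_lit 573485) (nat_lit 13) (.e (nat_lit 65619) (nat_lit 10) (.e (nat_lit 344117) (nat_lit 21) (.e (nat_lit 516160) (nat_lit 10) (.e (nat_lit 434209) (nat_lit 18) (.e (nat_lit 5547) (nat_lit 306) (.e (nat_lit 2601) (nat_lit 163) .nil)))))))) (.g (nat_lit 1) (.e (nat_lit 168618) (nat_lit 0) .nil) .nil)))) 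
(.nd (nat_lit 9) 
(.lf (nat_lit 500090) (.g (nat_lit 3689) (.e (nat_lit 163977) (nat_lit 30) (.e (nat_lit 573482) (nat_lit 13) (.e (nat_lit 65619) (nat_lit 10) (.e (nat_lit 344117) (nat_lit 21) (.e (nat_lit 516151) (nat_lit 9) (.e (nat_lit 426142) (nat_lit 4) (.e (nat_lit 229663) (nat_lit 240) (.e (nat_lit 2604) (nat_lit 163) .nil)))))))) (.g (nat_lit 1) (.e (nat_lit 168232) (nat_lit 0) .nil) .nil))) 
(.lf (nat_lit 500602) (.g (nat_lit 2739) (.e (nat_lit 163977) (nat_lit 30) (.e (nat_lit 573489) (nat_lit 14) (.e (nat_lit 73755) (nat_lit 8) (.e (nat_lit 557103) (nat_lit 14) (.e (nat_lit 180244) (nat_lit 5) (.e (nat_lit 532491) (nat_lit 0) (.e (nat_lit 2270) (nat_lit 149) (.e (nat_lit 761899) (nat_lit 15) .nil)))))))) (.g (nat_lit 1) (.e (nat_lit 169112) (nat_lit 0) .nil) .nil))))) 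
(.nd (nat_lit 8) (.nd (nat_lit 9) 
(.lf (nat_lit 499962) (.g (nat_lit 1208) (.e (nat_lit 163977) (nat_lit 30) (.e (nat_lit 573481) (nat_lit 13) (.e (nat_lit 65604) (nat_lit 9) (.e (nat_lit 336028) (nat_lit 3) .nil)))) (.g (nat_lit 0) (.e (nat_lit 168079) (nat_lit 0) .nil) .nil))) 
(.lf (nat_lit 500474) (.g (nat_lit 2586) (.e (nat_lit 163977) (nat_lit 30) (.e (nat_lit 573489) (nat_lit 14) (.e (nat_lit 73754) (nat_lit 8) (.e (nat_lit 557100) (nat_lit 13) (.e (nat_lit 172067) (nat_lit 3) .nil))))) (.g (nat_lit 0) (.e (nat_lit 168899) (nat_lit 0) .nil) .nil)))) (.nd (nat_lit 9) 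
(.lf (nat_lit 500218) (.g (nat_lit 3058) (.e (nat_lit 163977) (nat_lit 30) (.e (nat_lit 573485) (nat_lit 13) (.e (nat_lit 65604) (nat_lit 9) (.e (nat_lit 336013) (nat_lit 2) (.e (nat_lit 90170) (nat_lit 13) (.e (nat_lit 172049) (nat_lit 0) (.e (nat_lit 7936) (nat_lit 211) (.e (nat_lit 647181) (nat_lit 3) .nil)))))))) (.g (nat_lit 1) (.e (nat_lit 168455) (nat_lit 0) .nil) .nil))) 
(.lf (nat_lit 500730) (.g (nat_lit 2243) (.e (nat_lit 163977) (nat_lit 30) (.e (nat_lit 573491) (nat_lit 15) (.e (nat_lit 81951) (nat_lit 22) (.e (nat_lit 90170) (nat_lit 13) (.e (nat_lit 172046) (nat_lit 0) .nil))))) (.g (nat_lit 0) (.e (nat_lit 169336) (nat_lit 0) .nil) .nil)))))))))) 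
(.nd (nat_lit 3) (.nd (nat_lit 4) (.nd (nat_lit 5) (.nd (nat_lit 6) (.nd (nat_lit 7) 
(.nd (nat_lit 8) (.nd (nat_lit 9) 
(.lf (nat_lit 499718) (.g (nat_lit 2056) (.e (nat_lit 163976) (nat_lit 30) (.e (nat_lit 573491) (nat_lit 15) (.e (nat_lit 81954) (nat_lit 23) (.e (nat_lit 98356) (nat_lit 26) (.e (nat_lit 426361) (nat_lit 15) (.e (nat_lit 2055) (nat_lit 142) (.e (nat_lit 704589) (nat_lit 3) .nil))))))) (.g (nat_lit 1) (.e (nat_lit 167442) (nat_lit 0) .nil) .nil))) 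
(.lf (nat_lit 500230) (.g (nat_lit 4041) (.e (nat_lit 163977) (nat_lit 30) (.e (nat_lit 573485) (nat_lit 13) (.e (nat_lit 65604) (nat_lit 9) (.e (nat_lit 336013) (nat_lit 2) (.e (nat_lit 90170) (nat_lit 13) (.e (nat_lit 172061) (nat_lit 1) (.e (nat_lit 164347) (nat_lit 240) (.e (nat_lit 2611) (nat_lit 163) .nil)))))))) (.g (nat_lit 1) (.e (nat_lit 168467) (nat_lit 0) .nil) .nil)))) 
(.nd (nat_lit 9) 
(.lf (nat_lit 499974) (.g (nat_lit 2529) (.e (nat_lit 163977) (nat_lit 30) (.e (nat_lit 573481) (nat_lit 13) (.e (nat_lit 65619) (nat_lit 10) (.e (nat_lit 344117) (nat_lit 21) (.e (nat_lit 516160) (nat_lit 10) .nil))))) (.g (nat_lit 0) (.e (nat_lit 168091) (nat_lit 0) .nil) .nil))) 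
(.lf (nat_lit 500486) (.g (nat_lit 2454) (.e (nat_lit 163977) (nat_lit 30) (.e (nat_lit 573489) (nat_lit 14) (.e (nat_lit 73754) (nat_lit 8) (.e (nat_lit 557101) (nat_lit 13) (.e (nat_lit 172067) (nat_lit 3) (.e (nat_lit 204817) (nat_lit 17) (.e (nat_lit 7936) (nat_lit 149) (.e (nat_lit 761899) (nat_lit 15) .nil)))))))) (.g (nat_lit 1) (.e (nat_lit 168922) (nat_lit 0) .nil) .nil))))) 
(.nd (nat_lit 8) (.nd (nat_lit 9) 
(.lf (nat_lit 499846) (.g (nat_lit 2700) (.e (nat_lit 163976) (nat_lit 30) (.e (nat_lit 573492) (nat_lit 15) (.e (nat_lit 81956) (nat_lit 23) (.e (nat_lit 98356) (nat_lit 26) (.e (nat_lit 426379) (nat_lit 15) (.e (nat_lit 2056) (nat_lit 142) (.e (nat_lit 704589) (nat_lit 3) .nil))))))) (.g (nat_lit 1) (.e (nat_lit 167803) (nat_lit 0) .nil) .nil))) 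
(.lf (nat_lit 500358) (.g (nat_lit 2698) (.e (nat_lit 163977) (nat_lit 30) (.e (nat_lit 573485) (nat_lit 13) (.e (nat_lit 65619) (nat_lit 10) (.e (nat_lit 344117) (nat_lit 21) (.e (nat_lit 516161) (nat_lit 10) (.e (nat_lit 434209) (nat_lit 18) (.e (nat_lit 5548) (nat_lit 306) (.e (nat_lit 2611) (nat_lit 163) .nil)))))))) (.g (nat_lit 1) (.e (nat_lit 168630) (nat_lit 0) .nil) .nil)))) 
(.nd (nat_lit 9) 
(.lf (nat_lit 500102) (.g (nat_lit 2821) (.e (nat_lit 163977) (nat_lit 30) (.e (nat_lit 573482) (nat_lit 13) (.e (nat_lit 65619) (nat_lit 10) (.e (nat_lit 344117) (nat_lit 21) (.e (nat_lit 516153) (nat_lit 9) (.e (nat_lit 426025) (nat_lit 0) (.e (nat_lit 3399) (nat_lit 211) (.e (nat_lit 647181) (nat_lit 3) .nil)))))))) (.g (nat_lit 1) (.e (nat_lit 168244) (nat_lit 0) .nil) .nil))) 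
(.lf (nat_lit 500614) (.g (nat_lit 3714) (.e (nat_lit 163977) (nat_lit 30) (.e (nat_lit 573489) (nat_lit 14) (.e (nat_lit 73755) (nat_lit 8) (.e (nat_lit 557103) (nat_lit 14) (.e (nat_lit 180250) (nat_lit 10) (.e (nat_lit 573475) (nat_lit 12) (.e (nat_lit 57500) (nat_lit 37) (.e (nat_lit 630800) (nat_lit 7) .nil)))))))) (.g (nat_lit 1) (.e (nat_lit 169132) (nat_lit 0) .nil) .nil)))))) 
(.nd (nat_lit 7) (.nd (nat_lit 8) (.nd (nat_lit 9) 
(.lf (nat_lit 499782) (.g (nat_lit 2500) (.e (nat_lit 163976) (nat_lit 30) (.e (nat_lit 573491) (nat_lit 15) (.e (nat_lit 81955) (nat_lit 23) (.e (nat_lit 98386) (nat_lit 32) (.e (nat_lit 475199) (nat_lit 40) (.e (nat_lit 704589) (nat_lit 3) .nil)))))) (.g (nat_lit 1) (.e (nat_lit 167550) (nat_lit 0) .nil) .nil))) 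
(.lf (nat_lit 500294) (.g (nat_lit 4103) (.e (nat_lit 163977) (nat_lit 30) (.e (nat_lit 573485) (nat_lit 13) (.e (nat_lit 65619) (nat_lit 10) (.e (nat_lit 344117) (nat_lit 21) (.e (nat_lit 516151) (nat_lit 9) (.e (nat_lit 426042) (nat_lit 0) (.e (nat_lit 2458) (nat_lit 157) (.e (nat_lit 5546) (nat_lit 306) (.e (nat_lit 2600) (nat_lit 163) .nil))))))))) (.g (nat_lit 1) (.e (nat_lit 168566) (nat_lit 0) .nil) .nil)))) 
(.nd (nat_lit 9) 
(.lf (nat_lit 500038) (.g (nat_lit 2225) (.e (nat_lit 163977) (nat_lit 30) (.e (nat_lit 573482) (nat_lit 13) (.e (nat_lit 65604) (nat_lit 9) (.e (nat_lit 336028) (nat_lit 3) (.e (nat_lit 106240) (nat_lit 26) (.e (nat_lit 426107) (nat_lit 1) (.e (nat_lit 164347) (nat_lit 240) (.e (nat_lit 2601) (nat_lit 163) .nil)))))))) (.g (nat_lit 1) (.e (nat_lit 168177) (nat_lit 0) .nil) .nil))) 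
(.lf (nat_lit 500550) (.g (nat_lit 3346) (.e (nat_lit 163977) (nat_lit 30) (.e (nat_lit 573489) (nat_lit 14) (.e (nat_lit 73755) (nat_lit 8) (.e (nat_lit 557097) (nat_lit 13) (.e (nat_lit 172067) (nat_lit 3) (.e (nat_lit 204817) (nat_lit 17) (.e (nat_lit 7936) (nat_lit 149) (.e (nat_lit 761897) (nat_lit 15) .nil)))))))) (.g (nat_lit 1) (.e (nat_lit 169024) (nat_lit 0) .nil) .nil))))) 
(.nd (nat_lit 8) (.nd (nat_lit 9) 
(.lf (nat_lit 499910) (.g (nat_lit 1516) (.e (nat_lit 163976) (nat_lit 30) (.e (nat_lit 573492) (nat_lit 15) (.e (nat_lit 81956) (nat_lit 23) (.e (nat_lit 98368) (nat_lit 27) (.e (nat_lit 434272) (nat_lit 38) .nil))))) (.g (nat_lit 0) (.e (nat_lit 167947) (nat_lit 0) .nil) .nil))) 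
(.lf (nat_lit 500422) (.g (nat_lit 4169) (.e (nat_lit 163977) (nat_lit 30) (.e (nat_lit 573487) (nat_lit 14) (.e (nat_lit 73753) (nat_lit 8) (.e (nat_lit 557105) (nat_lit 14) (.e (nat_lit 180252) (nat_lit 10) (.e (nat_lit 573473) (nat_lit 12) (.e (nat_lit 57504) (nat_lit 38) (.e (nat_lit 638996) (nat_lit 7) .nil)))))))) (.g (nat_lit 1) (.e (nat_lit 168836) (nat_lit 0) .nil) .nil)))) 
(.nd (nat_lit 9) 
(.lf (nat_lit 500166) (.g (nat_lit 2874) (.e (nat_lit 163977) (nat_lit 30) (.e (nat_lit 573484) (nat_lit 13) (.e (nat_lit 65610) (nat_lit 10) (.e (nat_lit 344117) (nat_lit 21) (.e (nat_lit 516151) (nat_lit 9) (.e (nat_lit 426022) (nat_lit 0) (.e (nat_lit 7936) (nat_lit 211) (.e (nat_lit 647181) (nat_lit 3) .nil)))))))) (.g (nat_lit 1) (.e (nat_lit 168342) (nat_lit 0) .nil) .nil))) 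
(.lf (nat_lit 500678) (.g (nat_lit 4209) (.e (nat_lit 163977) (nat_lit 30) (.e (nat_lit 573489) (nat_lit 14) (.e (nat_lit 73755) (nat_lit 8) (.e (nat_lit 557104) (nat_lit 14) (.e (nat_lit 180252) (nat_lit 10) (.e (nat_lit 573473) (nat_lit 12) (.e (nat_lit 57503) (nat_lit 38) (.e (nat_lit 638996) (nat_lit 7) .nil)))))))) (.g (nat_lit 1) (.e (nat_lit 169232) (nat_lit 0) .nil) .nil))))))) 
(.nd (nat_lit 6) (.nd (nat_lit 7) (.nd (nat_lit 8) (.nd (nat_lit 9) 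
(.lf (nat_lit 499750) (.g (nat_lit 1848) (.e (nat_lit 163976) (nat_lit 30) (.e (nat_lit 573491) (nat_lit 15) (.e (nat_lit 81954) (nat_lit 23) (.e (nat_lit 98359) (nat_lit 26) (.e (nat_lit 433920) (nat_lit 19) (.e (nat_lit 114432) (nat_lit 3) .nil)))))) (.g (nat_lit 1) (.e (nat_lit 167492) (nat_lit 0) .nil) .nil))) 
(.lf (nat_lit 500262) (.g (nat_lit 4422) (.e (nat_lit 163977) (nat_lit 30) (.e (nat_lit 573485) (nat_lit 13) (.e (nat_lit 65604) (nat_lit 9) (.e (nat_lit 336028) (nat_lit 3) (.e (nat_lit 98366) (nat_lit 27) (.e (nat_lit 434209) (nat_lit 18) (.e (nat_lit 5548) (nat_lit 306) (.e (nat_lit 2601) (nat_lit 163) .nil)))))))) (.g (nat_lit 1) (.e (nat_lit 168532) (nat_lit 0) .nil) .nil)))) 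
(.nd (nat_lit 9) 
(.lf (nat_lit 500006) (.g (nat_lit 3039) (.e (nat_lit 163977) (nat_lit 30) (.e (nat_lit 573482) (nat_lit 13) (.e (nat_lit 65604) (nat_lit 9) (.e (nat_lit 336013) (nat_lit 2) (.e (nat_lit 90170) (nat_lit 13) (.e (nat_lit 172068) (nat_lit 4) (.e (nat_lit 229666) (nat_lit 240) (.e (nat_lit 2604) (nat_lit 163) .nil)))))))) (.g (nat_lit 1) (.e (nat_lit 168131) (nat_lit 0) .nil) .nil))) 
(.lf (nat_lit 500518) (.g (nat_lit 4668) (.e (nat_lit 163977) (nat_lit 30) (.e (nat_lit 573489) (nat_lit 14) (.e (nat_lit 73754) (nat_lit 8) (.e (nat_lit 557105) (nat_lit 14) (.e (nat_lit 180252) (nat_lit 10) (.e (nat_lit 573475) (nat_lit 12) (.e (nat_lit 57504) (nat_lit 38) (.e (nat_lit 638996) (nat_lit 7) .nil)))))))) (.g (nat_lit 1) (.e (nat_lit 168954) (nat_lit 0) .nil) .nil))))) 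
(.nd (nat_lit 8) (.nd (nat_lit 9) 
(.lf (nat_lit 499878) (.g (nat_lit 2334) (.e (nat_lit 163976) (nat_lit 30) (.e (nat_lit 573492) (nat_lit 15) (.e (nat_lit 81956) (nat_lit 23) (.e (nat_lit 98359) (nat_lit 26) (.e (nat_lit 426410) (nat_lit 15) (.e (nat_lit 2056) (nat_lit 142) (.e (nat_lit 704589) (nat_lit 3) .nil))))))) (.g (nat_lit 1) (.e (nat_lit 167867) (nat_lit 0) .nil) .nil))) 
(.lf (nat_lit 500390) (.g (nat_lit 2090) (.e (nat_lit 163977) (nat_lit 30) (.e (nat_lit 573487) (nat_lit 14) (.e (nat_lit 73753) (nat_lit 8) (.e (nat_lit 557103) (nat_lit 14) (.e (nat_lit 180250) (nat_lit 10) .nil))))) (.g (nat_lit 0) (.e (nat_lit 168799) (nat_lit 0) .nil) .nil)))) (.nd (nat_lit 9) 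
(.lf (nat_lit 500134) (.g (nat_lit 2207) (.e (nat_lit 163977) (nat_lit 30) (.e (nat_lit 573482) (nat_lit 13) (.e (nat_lit 65619) (nat_lit 10) (.e (nat_lit 344117) (nat_lit 21) (.e (nat_lit 516170) (nat_lit 13) .nil))))) (.g (nat_lit 0) (.e (nat_lit 168276) (nat_lit 0) .nil) .nil))) 
(.lf (nat_lit 500646) (.g (nat_lit 2433) (.e (nat_lit 163977) (nat_lit 30) (.e (nat_lit 573489) (nat_lit 14) (.e (nat_lit 73755) (nat_lit 8) (.e (nat_lit 557104) (nat_lit 14) (.e (nat_lit 180244) (nat_lit 5) (.e (nat_lit 532485) (nat_lit 0) (.e (nat_lit 2264) (nat_lit 149) (.e (nat_lit 761899) (nat_lit 15) .nil)))))))) (.g (nat_lit 1) (.e (nat_lit 169175) (nat_lit 0) .nil) .nil)))))) 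
(.nd (nat_lit 7) (.nd (nat_lit 8) (.nd (nat_lit 9) 
(.lf (nat_lit 499814) (.g (nat_lit 1799) (.e (nat_lit 163976) (nat_lit 30) (.e (nat_lit 573492) (nat_lit 15) (.e (nat_lit 81954) (nat_lit 23) (.e (nat_lit 98383) (nat_lit 32) (.e (nat_lit 475199) (nat_lit 40) (.e (nat_lit 704589) (nat_lit 3) .nil)))))) (.g (nat_lit 1) (.e (nat_lit 167739) (nat_lit 0) .nil) .nil))) 
(.lf (nat_lit 500326) (.g (nat_lit 2396) (.e (nat_lit 163977) (nat_lit 30) (.e (nat_lit 573485) (nat_lit 13) (.e (nat_lit 65619) (nat_lit 10) (.e (nat_lit 344117) (nat_lit 21) (.e (nat_lit 516155) (nat_lit 9) .nil))))) (.g (nat_lit 0) (.e (nat_lit 168598) (nat_lit 0) .nil) .nil)))) (.nd (nat_lit 9) 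
(.lf (nat_lit 500070) (.g (nat_lit 2501) (.e (nat_lit 163977) (nat_lit 30) (.e (nat_lit 573482) (nat_lit 13) (.e (nat_lit 65619) (nat_lit 10) (.e (nat_lit 344117) (nat_lit 21) (.e (nat_lit 516147) (nat_lit 9) (.e (nat_lit 426444) (nat_lit 19) (.e (nat_lit 114432) (nat_lit 3) .nil))))))) (.g (nat_lit 1) (.e (nat_lit 168212) (nat_lit 0) .nil) .nil))) 
(.lf (nat_lit 500582) (.g (nat_lit 3460) (.e (nat_lit 163977) (nat_lit 30) (.e (nat_lit 573489) (nat_lit 14) (.e (nat_lit 73755) (nat_lit 8) (.e (nat_lit 557100) (nat_lit 13) (.e (nat_lit 172065) (nat_lit 3) .nil))))) (.g (nat_lit 0) (.e (nat_lit 169079) (nat_lit 0) .nil) .nil))))) (.nd (nat_lit 8) (.nd (nat_lit 9) 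
(.lf (nat_lit 499942) (.g (nat_lit 2559) (.e (nat_lit 163976) (nat_lit 30) (.e (nat_lit 573493) (nat_lit 15) (.e (nat_lit 81956) (nat_lit 23) (.e (nat_lit 98359) (nat_lit 26) .nil)))) (.g (nat_lit 0) (.e (nat_lit 168026) (nat_lit 0) .nil) .nil))) 
(.lf (nat_lit 500454) (.g (nat_lit 2875) (.e (nat_lit 163977) (nat_lit 30) (.e (nat_lit 573488) (nat_lit 14) (.e (nat_lit 73755) (nat_lit 8) (.e (nat_lit 557103) (nat_lit 14) (.e (nat_lit 180244) (nat_lit 5) .nil))))) (.g (nat_lit 0) (.e (nat_lit 168872) (nat_lit 0) .nil) .nil)))) (.nd (nat_lit 9) 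
(.lf (nat_lit 500198) (.g (nat_lit 2190) (.e (nat_lit 163977) (nat_lit 30) (.e (nat_lit 573484) (nat_lit 13) (.e (nat_lit 65610) (nat_lit 10) (.e (nat_lit 344117) (nat_lit 21) (.e (nat_lit 516170) (nat_lit 13) .nil))))) (.g (nat_lit 0) (.e (nat_lit 168416) (nat_lit 0) .nil) .nil))) 
(.lf (nat_lit 500710) (.g (nat_lit 5059) (.e (nat_lit 163977) (nat_lit 30) (.e (nat_lit 573489) (nat_lit 14) (.e (nat_lit 73755) (nat_lit 8) (.e (nat_lit 557105) (nat_lit 14) (.e (nat_lit 180252) (nat_lit 10) (.e (nat_lit 573475) (nat_lit 12) (.e (nat_lit 57504) (nat_lit 38) (.e (nat_lit 638995) (nat_lit 7) .nil)))))))) (.g (nat_lit 1) (.e (nat_lit 169291) (nat_lit 0) .nil) .nil)))))))) 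
(.nd (nat_lit 5) (.nd (nat_lit 6) (.nd (nat_lit 7) (.nd (nat_lit 8) (.nd (nat_lit 9) 
(.lf (nat_lit 499734) (.g (nat_lit 2080) (.e (nat_lit 163976) (nat_lit 30) (.e (nat_lit 573491) (nat_lit 15) (.e (nat_lit 81954) (nat_lit 23) (.e (nat_lit 98356) (nat_lit 26) (.e (nat_lit 426440) (nat_lit 19) (.e (nat_lit 114432) (nat_lit 3) .nil)))))) (.g (nat_lit 1) (.e (nat_lit 167458) (nat_lit 0) .nil) .nil))) 
(.lf (nat_lit 500246) (.g (nat_lit 2174) (.e (nat_lit 163977) (nat_lit 30) (.e (nat_lit 573485) (nat_lit 13) (.e (nat_lit 65604) (nat_lit 9) (.e (nat_lit 336028) (nat_lit 3) (.e (nat_lit 98359) (nat_lit 26) (.e (nat_lit 433920) (nat_lit 19) (.e (nat_lit 114432) (nat_lit 3) .nil))))))) (.g (nat_lit 1) (.e (nat_lit 168512) (nat_lit 0) .nil) .nil)))) (.nd (nat_lit 9) 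
(.lf (nat_lit 499990) (.g (nat_lit 3357) (.e (nat_lit 163977) (nat_lit 30) (.e (nat_lit 573482) (nat_lit 13) (.e (nat_lit 65604) (nat_lit 9) (.e (nat_lit 336013) (nat_lit 2) (.e (nat_lit 90170) (nat_lit 13) (.e (nat_lit 172049) (nat_lit 0) (.e (nat_lit 2458) (nat_lit 157) (.e (nat_lit 5546) (nat_lit 306) (.e (nat_lit 2600) (nat_lit 163) .nil))))))))) (.g (nat_lit 1) (.e (nat_lit 168115) (nat_lit 0) .nil) .nil))) 
(.lf (nat_lit 500502) (.g (nat_lit 2885) (.e (nat_lit 163977) (nat_lit 30) (.e (nat_lit 573489) (nat_lit 14) (.e (nat_lit 73754) (nat_lit 8) (.e (nat_lit 557105) (nat_lit 14) (.e (nat_lit 180252) (nat_lit 10) (.e (nat_lit 573473) (nat_lit 12) (.e (nat_lit 57500) (nat_lit 37) (.e (nat_lit 630799) (nat_lit 7) .nil)))))))) (.g (nat_lit 1) (.e (nat_lit 168938) (nat_lit 0) .nil) .nil))))) 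
(.nd (nat_lit 8) (.nd (nat_lit 9) 
(.lf (nat_lit 499862) (.g (nat_lit 3367) (.e (nat_lit 163976) (nat_lit 30) (.e (nat_lit 573492) (nat_lit 15) (.e (nat_lit 81956) (nat_lit 23) (.e (nat_lit 98358) (nat_lit 26) (.e (nat_lit 426402) (nat_lit 15) .nil))))) (.g (nat_lit 0) (.e (nat_lit 167824) (nat_lit 0) .nil) .nil))) 
(.lf (nat_lit 500374) (.g (nat_lit 2592) (.e (nat_lit 163977) (nat_lit 30) (.e (nat_lit 573487) (nat_lit 14) (.e (nat_lit 73753) (nat_lit 8) (.e (nat_lit 557098) (nat_lit 13) (.e (nat_lit 172067) (nat_lit 3) (.e (nat_lit 204821) (nat_lit 17) (.e (nat_lit 7936) (nat_lit 149) (.e (nat_lit 761898) (nat_lit 15) .nil)))))))) (.g (nat_lit 1) (.e (nat_lit 168729) (nat_lit 0) .nil) .nil)))) 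
(.nd (nat_lit 9) 
(.lf (nat_lit 500118) (.g (nat_lit 2071) (.e (nat_lit 163977) (nat_lit 30) (.e (nat_lit 573482) (nat_lit 13) (.e (nat_lit 65619) (nat_lit 10) (.e (nat_lit 344117) (nat_lit 21) (.e (nat_lit 516160) (nat_lit 10) .nil))))) (.g (nat_lit 0) (.e (nat_lit 168260) (nat_lit 0) .nil) .nil))) 
(.lf (nat_lit 500630) (.g (nat_lit 4375) (.e (nat_lit 163977) (nat_lit 30) (.e (nat_lit 573489) (nat_lit 14) (.e (nat_lit 73755) (nat_lit 8) (.e (nat_lit 557103) (nat_lit 14) (.e (nat_lit 180251) (nat_lit 10) (.e (nat_lit 573475) (nat_lit 12) (.e (nat_lit 57503) (nat_lit 38) (.e (nat_lit 638996) (nat_lit 7) .nil)))))))) (.g (nat_lit 1) (.e (nat_lit 169148) (nat_lit 0) .nil) .nil)))))) 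
(.nd (nat_lit 7) (.nd (nat_lit 8) (.nd (nat_lit 9) 
(.lf (nat_lit 499798) (.g (nat_lit 4181) (.e (nat_lit 163976) (nat_lit 30) (.e (nat_lit 573492) (nat_lit 15) (.e (nat_lit 81953) (nat_lit 22) (.e (nat_lit 90168) (nat_lit 13) .nil)))) (.g (nat_lit 0) (.e (nat_lit 167629) (nat_lit 0) .nil) .nil))) 
(.lf (nat_lit 500310) (.g (nat_lit 3998) (.e (nat_lit 163977) (nat_lit 30) (.e (nat_lit 573485) (nat_lit 13) (.e (nat_lit 65619) (nat_lit 10) (.e (nat_lit 344117) (nat_lit 21) (.e (nat_lit 516151) (nat_lit 9) (.e (nat_lit 426104) (nat_lit 1) (.e (nat_lit 164347) (nat_lit 240) (.e (nat_lit 2611) (nat_lit 163) .nil)))))))) (.g (nat_lit 1) (.e (nat_lit 168582) (nat_lit 0) .nil) .nil)))) 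
(.nd (nat_lit 9) 
(.lf (nat_lit 500054) (.g (nat_lit 2702) (.e (nat_lit 163977) (nat_lit 30) (.e (nat_lit 573482) (nat_lit 13) (.e (nat_lit 65604) (nat_lit 9) (.e (nat_lit 336028) (nat_lit 3) (.e (nat_lit 98367) (nat_lit 27) (.e (nat_lit 434271) (nat_lit 38) (.e (nat_lit 655374) (nat_lit 3) .nil))))))) (.g (nat_lit 1) (.e (nat_lit 168194) (nat_lit 0) .nil) .nil))) 
(.lf (nat_lit 500566) (.g (nat_lit 3251) (.e (nat_lit 163977) (nat_lit 30) (.e (nat_lit 573489) (nat_lit 14) (.e (nat_lit 73755) (nat_lit 8) (.e (nat_lit 557098) (nat_lit 13) (.e (nat_lit 172066) (nat_lit 3) (.e (nat_lit 204821) (nat_lit 17) (.e (nat_lit 2270) (nat_lit 149) (.e (nat_lit 761899) (nat_lit 15) .nil)))))))) (.g (nat_lit 1) (.e (nat_lit 169055) (nat_lit 0) .nil) .nil))))) 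
(.nd (nat_lit 8) (.nd (nat_lit 9) 
(.lf (nat_lit 499926) (.g (nat_lit 4283) (.e (nat_lit 163976) (nat_lit 30) (.e (nat_lit 573492) (nat_lit 15) (.e (nat_lit 81956) (nat_lit 23) (.e (nat_lit 98385) (nat_lit 32) (.e (nat_lit 475198) (nat_lit 40) (.e (nat_lit 704589) (nat_lit 3) .nil)))))) (.g (nat_lit 1) (.e (nat_lit 167980) (nat_lit 0) .nil) .nil))) 
(.lf (nat_lit 500438) (.g (nat_lit 2853) (.e (nat_lit 163977) (nat_lit 30) (.e (nat_lit 573487) (nat_lit 14) (.e (nat_lit 73754) (nat_lit 8) (.e (nat_lit 557105) (nat_lit 14) (.e (nat_lit 180252) (nat_lit 10) (.e (nat_lit 573475) (nat_lit 12) (.e (nat_lit 57501) (nat_lit 37) (.e (nat_lit 630800) (nat_lit 7) .nil)))))))) (.g (nat_lit 1) (.e (nat_lit 168853) (nat_lit 0) .nil) .nil)))) 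
(.nd (nat_lit 9) 
(.lf (nat_lit 500182) (.g (nat_lit 2348) (.e (nat_lit 163977) (nat_lit 30) (.e (nat_lit 573484) (nat_lit 13) (.e (nat_lit 65610) (nat_lit 10) (.e (nat_lit 344117) (nat_lit 21) (.e (nat_lit 516151) (nat_lit 9) (.e (nat_lit 426465) (nat_lit 24) (.e (nat_lit 163584) (nat_lit 3) .nil))))))) (.g (nat_lit 1) (.e (nat_lit 168380) (nat_lit 0) .nil) .nil))) 
(.lf (nat_lit 500694) (.g (nat_lit 3380) (.e (nat_lit 163977) (nat_lit 30) (.e (nat_lit 573489) (nat_lit 14) (.e (nat_lit 73755) (nat_lit 8) (.e (nat_lit 557105) (nat_lit 14) (.e (nat_lit 180251) (nat_lit 10) (.e (nat_lit 573477) (nat_lit 12) (.e (nat_lit 57502) (nat_lit 38) (.e (nat_lit 638995) (nat_lit 7) .nil)))))))) (.g (nat_lit 1) (.e (nat_lit 169250) (nat_lit 0) .nil) .nil))))))) 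
(.nd (nat_lit 6) (.nd (nat_lit 7) (.nd (nat_lit 8) (.nd (nat_lit 9) 
(.lf (nat_lit 499766) (.g (nat_lit 3534) (.e (nat_lit 163976) (nat_lit 30) (.e (nat_lit 573491) (nat_lit 15) (.e (nat_lit 81954) (nat_lit 23) (.e (nat_lit 98384) (nat_lit 32) (.e (nat_lit 475197) (nat_lit 40) (.e (nat_lit 704589) (nat_lit 3) .nil)))))) (.g (nat_lit 1) (.e (nat_lit 167534) (nat_lit 0) .nil) .nil))) 
(.lf (nat_lit 500278) (.g (nat_lit 2530) (.e (nat_lit 163977) (nat_lit 30) (.e (nat_lit 573485) (nat_lit 13) (.e (nat_lit 65604) (nat_lit 9) (.e (nat_lit 336028) (nat_lit 3) (.e (nat_lit 98384) (nat_lit 32) (.e (nat_lit 475201) (nat_lit 40) (.e (nat_lit 712448) (nat_lit 3) .nil))))))) (.g (nat_lit 1) (.e (nat_lit 168548) (nat_lit 0) .nil) .nil)))) (.nd (nat_lit 9) 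
(.lf (nat_lit 500022) (.g (nat_lit 3962) (.e (nat_lit 163977) (nat_lit 30) (.e (nat_lit 573482) (nat_lit 13) (.e (nat_lit 65604) (nat_lit 9) (.e (nat_lit 336028) (nat_lit 3) (.e (nat_lit 98359) (nat_lit 26) (.e (nat_lit 426097) (nat_lit 1) (.e (nat_lit 164348) (nat_lit 240) (.e (nat_lit 2601) (nat_lit 163) .nil)))))))) (.g (nat_lit 1) (.e (nat_lit 168155) (nat_lit 0) .nil) .nil))) 
(.lf (nat_lit 500534) (.g (nat_lit 2679) (.e (nat_lit 163977) (nat_lit 30) (.e (nat_lit 573489) (nat_lit 14) (.e (nat_lit 73755) (nat_lit 8) (.e (nat_lit 557097) (nat_lit 13) (.e (nat_lit 172065) (nat_lit 3) (.e (nat_lit 204821) (nat_lit 17) (.e (nat_lit 7936) (nat_lit 149) (.e (nat_lit 761898) (nat_lit 15) .nil)))))))) (.g (nat_lit 1) (.e (nat_lit 168998) (nat_lit 0) .nil) .nil))))) 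
(.nd (nat_lit 8) (.nd (nat_lit 9) 
(.lf (nat_lit 499894) (.g (nat_lit 2588) (.e (nat_lit 163976) (nat_lit 30) (.e (nat_lit 573492) (nat_lit 15) (.e (nat_lit 81956) (nat_lit 23) (.e (nat_lit 98363) (nat_lit 26) (.e (nat_lit 426391) (nat_lit 15) .nil))))) (.g (nat_lit 0) (.e (nat_lit 167895) (nat_lit 0) .nil) .nil))) 
(.lf (nat_lit 500406) (.g (nat_lit 3315) (.e (nat_lit 163977) (nat_lit 30) (.e (nat_lit 573487) (nat_lit 14) (.e (nat_lit 73753) (nat_lit 8) (.e (nat_lit 557103) (nat_lit 14) (.e (nat_lit 180250) (nat_lit 10) (.e (nat_lit 573478) (nat_lit 12) (.e (nat_lit 57500) (nat_lit 37) (.e (nat_lit 630800) (nat_lit 7) .nil)))))))) (.g (nat_lit 1) (.e (nat_lit 168818) (nat_lit 0) .nil) .nil)))) 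
(.nd (nat_lit 9) 
(.lf (nat_lit 500150) (.g (nat_lit 2797) (.e (nat_lit 163977) (nat_lit 30) (.e (nat_lit 573484) (nat_lit 13) (.e (nat_lit 65610) (nat_lit 10) (.e (nat_lit 344117) (nat_lit 21) (.e (nat_lit 516143) (nat_lit 9) (.e (nat_lit 426143) (nat_lit 4) (.e (nat_lit 229663) (nat_lit 240) (.e (nat_lit 2612) (nat_lit 163) .nil)))))))) (.g (nat_lit 1) (.e (nat_lit 168316) (nat_lit 0) .nil) .nil))) 
(.lf (nat_lit 500662) (.g (nat_lit 2436) (.e (nat_lit 163977) (nat_lit 30) (.e (nat_lit 573489) (nat_lit 14) (.e (nat_lit 73755) (nat_lit 8) (.e (nat_lit 557104) (nat_lit 14) (.e (nat_lit 180250) (nat_lit 10) (.e (nat_lit 573475) (nat_lit 12) (.e (nat_lit 57500) (nat_lit 37) (.e (nat_lit 630799) (nat_lit 7) .nil)))))))) (.g (nat_lit 1) (.e (nat_lit 169216) (nat_lit 0) .nil) .nil)))))) 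
(.nd (nat_lit 7) (.nd (nat_lit 8) (.nd (nat_lit 9) 
(.lf (nat_lit 499830) (.g (nat_lit 2865) (.e (nat_lit 163976) (nat_lit 30) (.e (nat_lit 573492) (nat_lit 15) (.e (nat_lit 81956) (nat_lit 23) (.e (nat_lit 98356) (nat_lit 26) (.e (nat_lit 426352) (nat_lit 15) .nil))))) (.g (nat_lit 0) (.e (nat_lit 167787) (nat_lit 0) .nil) .nil))) 
(.lf (nat_lit 500342) (.g (nat_lit 1960) (.e (nat_lit 163977) (nat_lit 30) (.e (nat_lit 573485) (nat_lit 13) (.e (nat_lit 65619) (nat_lit 10) (.e (nat_lit 344117) (nat_lit 21) (.e (nat_lit 516160) (nat_lit 10) .nil))))) (.g (nat_lit 0) (.e (nat_lit 168614) (nat_lit 0) .nil) .nil)))) (.nd (nat_lit 9) 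
(.lf (nat_lit 500086) (.g (nat_lit 4065) (.e (nat_lit 163977) (nat_lit 30) (.e (nat_lit 573482) (nat_lit 13) (.e (nat_lit 65619) (nat_lit 10) (.e (nat_lit 344117) (nat_lit 21) (.e (nat_lit 516151) (nat_lit 9) (.e (nat_lit 426104) (nat_lit 1) (.e (nat_lit 164347) (nat_lit 240) (.e (nat_lit 2601) (nat_lit 163) .nil)))))))) (.g (nat_lit 1) (.e (nat_lit 168228) (nat_lit 0) .nil) .nil))) 
(.lf (nat_lit 500598) (.g (nat_lit 2446) (.e (nat_lit 163977) (nat_lit 30) (.e (nat_lit 573489) (nat_lit 14) (.e (nat_lit 73755) (nat_lit 8) (.e (nat_lit 557103) (nat_lit 14) (.e (nat_lit 180244) (nat_lit 5) (.e (nat_lit 532488) (nat_lit 0) (.e (nat_lit 7936) (nat_lit 149) (.e (nat_lit 761899) (nat_lit 15) .nil)))))))) (.g (nat_lit 1) (.e (nat_lit 169108) (nat_lit 0) .nil) .nil))))) 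
(.nd (nat_lit 8) (.nd (nat_lit 9) 
(.lf (nat_lit 499958) (.g (nat_lit 2178) (.e (nat_lit 163977) (nat_lit 30) (.e (nat_lit 573479) (nat_lit 13) (.e (nat_lit 65619) (nat_lit 10) (.e (nat_lit 344117) (nat_lit 21) (.e (nat_lit 516160) (nat_lit 10) (.e (nat_lit 434209) (nat_lit 18) (.e (nat_lit 5548) (nat_lit 306) (.e (nat_lit 2601) (nat_lit 163) .nil)))))))) (.g (nat_lit 1) (.e (nat_lit 168073) (nat_lit 0) .nil) .nil))) 
(.lf (nat_lit 500470) (.g (nat_lit 3868) (.e (nat_lit 163977) (nat_lit 30) (.e (nat_lit 573489) (nat_lit 14) (.e (nat_lit 73754) (nat_lit 8) (.e (nat_lit 557100) (nat_lit 13) (.e (nat_lit 172065) (nat_lit 3) (.e (nat_lit 204817) (nat_lit 17) (.e (nat_lit 2272) (nat_lit 149) (.e (nat_lit 761899) (nat_lit 15) .nil)))))))) (.g (nat_lit 1) (.e (nat_lit 168894) (nat_lit 0) .nil) .nil)))) 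
(.nd (nat_lit 9) 
(.lf (nat_lit 500214) (.g (nat_lit 3501) (.e (nat_lit 163977) (nat_lit 30) (.e (nat_lit 573485) (nat_lit 13) (.e (nat_lit 65604) (nat_lit 9) (.e (nat_lit 336013) (nat_lit 2) (.e (nat_lit 90170) (nat_lit 13) (.e (nat_lit 172046) (nat_lit 0) (.e (nat_lit 2478) (nat_lit 157) (.e (nat_lit 5548) (nat_lit 306) (.e (nat_lit 2601) (nat_lit 163) .nil))))))))) (.g (nat_lit 1) (.e (nat_lit 168449) (nat_lit 0) .nil) .nil))) 
(.lf (nat_lit 500726) (.g (nat_lit 2874) (.e (nat_lit 163977) (nat_lit 30) (.e (nat_lit 573491) (nat_lit 15) (.e (nat_lit 81951) (nat_lit 22) (.e (nat_lit 90170) (nat_lit 13) (.e (nat_lit 172038) (nat_lit 0) (.e (nat_lit 3399) (nat_lit 211) (.e (nat_lit 647181) (nat_lit 3) .nil))))))) (.g (nat_lit 1) (.e (nat_lit 169331) (nat_lit 0) .nil) .nil))))))))) 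
(.nd (nat_lit 4) (.nd (nat_lit 5) (.nd (nat_lit 6) (.nd (nat_lit 7) (.nd (nat_lit 8) 
(.nd (nat_lit 9) 
(.lf (nat_lit 499726) (.g (nat_lit 2096) (.e (nat_lit 163976) (nat_lit 30) (.e (nat_lit 573491) (nat_lit 15) (.e (nat_lit 81954) (nat_lit 23) (.e (nat_lit 98356) (nat_lit 26) (.e (nat_lit 426379) (nat_lit 15) (.e (nat_lit 2056) (nat_lit 142) (.e (nat_lit 704589) (nat_lit 3) .nil))))))) (.g (nat_lit 1) (.e (nat_lit 167450) (nat_lit 0) .nil) .nil))) 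
(.lf (nat_lit 500238) (.g (nat_lit 5260) (.e (nat_lit 163977) (nat_lit 30) (.e (nat_lit 573485) (nat_lit 13) (.e (nat_lit 65604) (nat_lit 9) (.e (nat_lit 336013) (nat_lit 2) (.e (nat_lit 90170) (nat_lit 13) (.e (nat_lit 172070) (nat_lit 4) (.e (nat_lit 229663) (nat_lit 240) (.e (nat_lit 2612) (nat_lit 163) .nil)))))))) (.g (nat_lit 1) (.e (nat_lit 168475) (nat_lit 0) .nil) .nil)))) 
(.nd (nat_lit 9) 
(.lf (nat_lit 499982) (.g (nat_lit 3197) (.e (nat_lit 163977) (nat_lit 30) (.e (nat_lit 573482) (nat_lit 13) (.e (nat_lit 65604) (nat_lit 9) (.e (nat_lit 336013) (nat_lit 2) (.e (nat_lit 90170) (nat_lit 13) (.e (nat_lit 172033) (nat_lit 0) (.e (nat_lit 3401) (nat_lit 211) (.e (nat_lit 647181) (nat_lit 3) .nil)))))))) (.g (nat_lit 1) (.e (nat_lit 168107) (nat_lit 0) .nil) .nil))) 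
(.lf (nat_lit 500494) (.g (nat_lit 1722) (.e (nat_lit 163977) (nat_lit 30) (.e (nat_lit 573489) (nat_lit 14) (.e (nat_lit 73754) (nat_lit 8) (.e (nat_lit 557105) (nat_lit 14) .nil)))) (.g (nat_lit 0) (.e (nat_lit 168930) (nat_lit 0) .nil) .nil))))) (.nd (nat_lit 8) (.nd (nat_lit 9) 
(.lf (nat_lit 499854) (.g (nat_lit 2855) (.e (nat_lit 163976) (nat_lit 30) (.e (nat_lit 573492) (nat_lit 15) (.e (nat_lit 81956) (nat_lit 23) (.e (nat_lit 98356) (nat_lit 26) (.e (nat_lit 426439) (nat_lit 19) (.e (nat_lit 114432) (nat_lit 3) .nil)))))) (.g (nat_lit 1) (.e (nat_lit 167811) (nat_lit 0) .nil) .nil))) 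
(.lf (nat_lit 500366) (.g (nat_lit 2187) (.e (nat_lit 163977) (nat_lit 30) (.e (nat_lit 573485) (nat_lit 13) (.e (nat_lit 65619) (nat_lit 10) (.e (nat_lit 344117) (nat_lit 21) (.e (nat_lit 516172) (nat_lit 13) .nil))))) (.g (nat_lit 0) (.e (nat_lit 168643) (nat_lit 0) .nil) .nil)))) (.nd (nat_lit 9) 
(.lf (nat_lit 500110) (.g (nat_lit 2336) (.e (nat_lit 163977) (nat_lit 30) (.e (nat_lit 573482) (nat_lit 13) (.e (nat_lit 65619) (nat_lit 10) (.e (nat_lit 344117) (nat_lit 21) (.e (nat_lit 516159) (nat_lit 10) (.e (nat_lit 434202) (nat_lit 18) (.e (nat_lit 5537) (nat_lit 306) (.e (nat_lit 2601) (nat_lit 163) .nil)))))))) (.g (nat_lit 1) (.e (nat_lit 168252) (nat_lit 0) .nil) .nil))) 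
(.lf (nat_lit 500622) (.g (nat_lit 2266) (.e (nat_lit 163977) (nat_lit 30) (.e (nat_lit 573489) (nat_lit 14) (.e (nat_lit 73755) (nat_lit 8) (.e (nat_lit 557103) (nat_lit 14) (.e (nat_lit 180250) (nat_lit 10) (.e (nat_lit 573477) (nat_lit 12) (.e (nat_lit 57500) (nat_lit 37) (.e (nat_lit 630800) (nat_lit 7) .nil)))))))) (.g (nat_lit 1) (.e (nat_lit 169140) (nat_lit 0) .nil) .nil)))))) 
(.nd (nat_lit 7) (.nd (nat_lit 8) (.nd (nat_lit 9) 
(.lf (nat_lit 499790) (.g (nat_lit 493) (.e (nat_lit 163976) (nat_lit 30) (.e (nat_lit 573492) (nat_lit 15) (.e (nat_lit 81951) (nat_lit 22) .nil))) (.g (nat_lit 0) (.e (nat_lit 167575) (nat_lit 0) .nil) .nil))) 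
(.lf (nat_lit 500302) (.g (nat_lit 3470) (.e (nat_lit 163977) (nat_lit 30) (.e (nat_lit 573485) (nat_lit 13) (.e (nat_lit 65619) (nat_lit 10) (.e (nat_lit 344117) (nat_lit 21) (.e (nat_lit 516151) (nat_lit 9) (.e (nat_lit 426097) (nat_lit 1) (.e (nat_lit 164345) (nat_lit 240) (.e (nat_lit 2610) (nat_lit 163) .nil)))))))) (.g (nat_lit 1) (.e (nat_lit 168574) (nat_lit 0) .nil) .nil)))) 
(.nd (nat_lit 9) 
(.lf (nat_lit 500046) (.g (nat_lit 2954) (.e (nat_lit 163977) (nat_lit 30) (.e (nat_lit 573482) (nat_lit 13) (.e (nat_lit 65604) (nat_lit 9) (.e (nat_lit 336028) (nat_lit 3) (.e (nat_lit 98366) (nat_lit 27) (.e (nat_lit 434272) (nat_lit 38) (.e (nat_lit 655374) (nat_lit 3) .nil))))))) (.g (nat_lit 1) (.e (nat_lit 168186) (nat_lit 0) .nil) .nil))) 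
(.lf (nat_lit 500558) (.g (nat_lit 4551) (.e (nat_lit 163977) (nat_lit 30) (.e (nat_lit 573489) (nat_lit 14) (.e (nat_lit 73755) (nat_lit 8) (.e (nat_lit 557098) (nat_lit 13) (.e (nat_lit 172065) (nat_lit 3) (.e (nat_lit 204817) (nat_lit 17) (.e (nat_lit 7936) (nat_lit 149) (.e (nat_lit 761898) (nat_lit 15) .nil)))))))) (.g (nat_lit 1) (.e (nat_lit 169046) (nat_lit 0) .nil) .nil))))) 
(.nd (nat_lit 8) (.nd (nat_lit 9) 
(.lf (nat_lit 499918) (.g (nat_lit 3351) (.e (nat_lit 163976) (nat_lit 30) (.e (nat_lit 573492) (nat_lit 15) (.e (nat_lit 81956) (nat_lit 23) (.e (nat_lit 98384) (nat_lit 32) (.e (nat_lit 475201) (nat_lit 40) (.e (nat_lit 712448) (nat_lit 3) .nil)))))) (.g (nat_lit 1) (.e (nat_lit 167972) (nat_lit 0) .nil) .nil))) 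
(.lf (nat_lit 500430) (.g (nat_lit 782) (.e (nat_lit 163977) (nat_lit 30) (.e (nat_lit 573487) (nat_lit 14) (.e (nat_lit 73754) (nat_lit 8) .nil))) (.g (nat_lit 0) (.e (nat_lit 168844) (nat_lit 0) .nil) .nil)))) (.nd (nat_lit 9) 
(.lf (nat_lit 500174) (.g (nat_lit 2691) (.e (nat_lit 163977) (nat_lit 30) (.e (nat_lit 573484) (nat_lit 13) (.e (nat_lit 65610) (nat_lit 10) (.e (nat_lit 344117) (nat_lit 21) (.e (nat_lit 516151) (nat_lit 9) (.e (nat_lit 433920) (nat_lit 1) (.e (nat_lit 164348) (nat_lit 240) (.e (nat_lit 2601) (nat_lit 163) .nil)))))))) (.g (nat_lit 1) (.e (nat_lit 168371) (nat_lit 0) .nil) .nil))) 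
(.lf (nat_lit 500686) (.g (nat_lit 1132) (.e (nat_lit 163977) (nat_lit 30) (.e (nat_lit 573489) (nat_lit 14) (.e (nat_lit 73755) (nat_lit 8) (.e (nat_lit 557105) (nat_lit 14) .nil)))) (.g (nat_lit 0) (.e (nat_lit 169240) (nat_lit 0) .nil) .nil))))))) (.nd (nat_lit 6) (.nd (nat_lit 7) (.nd (nat_lit 8) (.nd (nat_lit 9) 
(.lf (nat_lit 499758) (.g (nat_lit 1126) (.e (nat_lit 163976) (nat_lit 30) (.e (nat_lit 573491) (nat_lit 15) (.e (nat_lit 81954) (nat_lit 23) (.e (nat_lit 98363) (nat_lit 26) .nil)))) (.g (nat_lit 0) (.e (nat_lit 167505) (nat_lit 0) .nil) .nil))) 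
(.lf (nat_lit 500270) (.g (nat_lit 1903) (.e (nat_lit 163977) (nat_lit 30) (.e (nat_lit 573485) (nat_lit 13) (.e (nat_lit 65604) (nat_lit 9) (.e (nat_lit 336028) (nat_lit 3) (.e (nat_lit 98367) (nat_lit 27) (.e (nat_lit 434209) (nat_lit 18) (.e (nat_lit 5547) (nat_lit 306) (.e (nat_lit 2600) (nat_lit 163) .nil)))))))) (.g (nat_lit 1) (.e (nat_lit 168540) (nat_lit 0) .nil) .nil)))) 
(.nd (nat_lit 9) 
(.lf (nat_lit 500014) (.g (nat_lit 2347) (.e (nat_lit 163977) (nat_lit 30) (.e (nat_lit 573482) (nat_lit 13) (.e (nat_lit 65604) (nat_lit 9) (.e (nat_lit 336028) (nat_lit 3) (.e (nat_lit 98356) (nat_lit 26) .nil))))) (.g (nat_lit 0) (.e (nat_lit 168141) (nat_lit 0) .nil) .nil))) 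
(.lf (nat_lit 500526) (.g (nat_lit 1213) (.e (nat_lit 163977) (nat_lit 30) (.e (nat_lit 573489) (nat_lit 14) (.e (nat_lit 73755) (nat_lit 8) (.e (nat_lit 557097) (nat_lit 13) .nil)))) (.g (nat_lit 0) (.e (nat_lit 168984) (nat_lit 0) .nil) .nil))))) (.nd (nat_lit 8) (.nd (nat_lit 9) 
(.lf (nat_lit 499886) (.g (nat_lit 2552) (.e (nat_lit 163976) (nat_lit 30) (.e (nat_lit 573492) (nat_lit 15) (.e (nat_lit 81956) (nat_lit 23) (.e (nat_lit 98360) (nat_lit 26) (.e (nat_lit 426025) (nat_lit 0) (.e (nat_lit 3399) (nat_lit 211) (.e (nat_lit 647180) (nat_lit 3) .nil))))))) (.g (nat_lit 1) (.e (nat_lit 167877) (nat_lit 0) .nil) .nil))) 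
(.lf (nat_lit 500398) (.g (nat_lit 3442) (.e (nat_lit 163977) (nat_lit 30) (.e (nat_lit 573487) (nat_lit 14) (.e (nat_lit 73753) (nat_lit 8) (.e (nat_lit 557103) (nat_lit 14) (.e (nat_lit 180250) (nat_lit 10) (.e (nat_lit 573475) (nat_lit 12) (.e (nat_lit 57500) (nat_lit 37) (.e (nat_lit 630800) (nat_lit 7) .nil)))))))) (.g (nat_lit 1) (.e (nat_lit 168808) (nat_lit 0) .nil) .nil)))) 
(.nd (nat_lit 9) 
(.lf (nat_lit 500142) (.g (nat_lit 3248) (.e (nat_lit 163977) (nat_lit 30) (.e (nat_lit 573482) (nat_lit 13) (.e (nat_lit 65619) (nat_lit 10) (.e (nat_lit 344117) (nat_lit 21) (.e (nat_lit 516171) (nat_lit 13) (.e (nat_lit 458774) (nat_lit 18) (.e (nat_lit 5548) (nat_lit 306) (.e (nat_lit 2601) (nat_lit 163) .nil)))))))) (.g (nat_lit 1) (.e (nat_lit 168284) (nat_lit 0) .nil) .nil))) 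
(.lf (nat_lit 500654) (.g (nat_lit 3407) (.e (nat_lit 163977) (nat_lit 30) (.e (nat_lit 573489) (nat_lit 14) (.e (nat_lit 73755) (nat_lit 8) (.e (nat_lit 557104) (nat_lit 14) (.e (nat_lit 180244) (nat_lit 5) (.e (nat_lit 532491) (nat_lit 0) (.e (nat_lit 2270) (nat_lit 149) (.e (nat_lit 761899) (nat_lit 15) .nil)))))))) (.g (nat_lit 1) (.e (nat_lit 169186) (nat_lit 0) .nil) .nil)))))) 
(.nd (nat_lit 7) (.nd (nat_lit 8) (.nd (nat_lit 9) 
(.lf (nat_lit 499822) (.g (nat_lit 1889) (.e (nat_lit 163976) (nat_lit 30) (.e (nat_lit 573492) (nat_lit 15) (.e (nat_lit 81956) (nat_lit 23) (.e (nat_lit 98354) (nat_lit 26) (.e (nat_lit 426025) (nat_lit 0) (.e (nat_lit 3399) (nat_lit 211) (.e (nat_lit 647180) (nat_lit 3) .nil))))))) (.g (nat_lit 1) (.e (nat_lit 167766) (nat_lit 0) .nil) .nil))) 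
(.lf (nat_lit 500334) (.g (nat_lit 4094) (.e (nat_lit 163977) (nat_lit 30) (.e (nat_lit 573485) (nat_lit 13) (.e (nat_lit 65619) (nat_lit 10) (.e (nat_lit 344117) (nat_lit 21) (.e (nat_lit 516159) (nat_lit 10) (.e (nat_lit 434209) (nat_lit 18) (.e (nat_lit 5547) (nat_lit 306) (.e (nat_lit 2601) (nat_lit 163) .nil)))))))) (.g (nat_lit 1) (.e (nat_lit 168606) (nat_lit 0) .nil) .nil)))) 
(.nd (nat_lit 9) 
(.lf (nat_lit 500078) (.g (nat_lit 2130) (.e (nat_lit 163977) (nat_lit 30) (.e (nat_lit 573482) (nat_lit 13) (.e (nat_lit 65619) (nat_lit 10) (.e (nat_lit 344117) (nat_lit 21) (.e (nat_lit 516151) (nat_lit 9) (.e (nat_lit 426043) (nat_lit 0) (.e (nat_lit 2458) (nat_lit 157) (.e (nat_lit 5547) (nat_lit 306) (.e (nat_lit 2601) (nat_lit 163) .nil))))))))) (.g (nat_lit 1) (.e (nat_lit 168220) (nat_lit 0) .nil) .nil))) 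
(.lf (nat_lit 500590) (.g (nat_lit 2909) (.e (nat_lit 163977) (nat_lit 30) (.e (nat_lit 573489) (nat_lit 14) (.e (nat_lit 73755) (nat_lit 8) (.e (nat_lit 557103) (nat_lit 14) (.e (nat_lit 180243) (nat_lit 5) (.e (nat_lit 532489) (nat_lit 0) (.e (nat_lit 7936) (nat_lit 149) (.e (nat_lit 761898) (nat_lit 15) .nil)))))))) (.g (nat_lit 1) (.e (nat_lit 169091) (nat_lit 0) .nil) .nil))))) 
(.nd (nat_lit 8) (.nd (nat_lit 9) 
(.lf (nat_lit 499950) (.g (nat_lit 4312) (.e (nat_lit 163976) (nat_lit 30) (.e (nat_lit 573493) (nat_lit 15) (.e (nat_lit 81956) (nat_lit 23) (.e (nat_lit 98384) (nat_lit 32) .nil)))) (.g (nat_lit 0) (.e (nat_lit 168039) (nat_lit 0) .nil) .nil))) 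
(.lf (nat_lit 500462) (.g (nat_lit 2655) (.e (nat_lit 163977) (nat_lit 30) (.e (nat_lit 573488) (nat_lit 14) (.e (nat_lit 73755) (nat_lit 8) (.e (nat_lit 557105) (nat_lit 14) (.e (nat_lit 180252) (nat_lit 10) (.e (nat_lit 573473) (nat_lit 12) (.e (nat_lit 57504) (nat_lit 38) (.e (nat_lit 638995) (nat_lit 7) .nil)))))))) (.g (nat_lit 1) (.e (nat_lit 168880) (nat_lit 0) .nil) .nil)))) 
(.nd (nat_lit 9) 
(.lf (nat_lit 500206) (.g (nat_lit 1581) (.e (nat_lit 163977) (nat_lit 30) (.e (nat_lit 573485) (nat_lit 13) (.e (nat_lit 65604) (nat_lit 9) (.e (nat_lit 336013) (nat_lit 2) (.e (nat_lit 90170) (nat_lit 13) .nil))))) (.g (nat_lit 0) (.e (nat_lit 168441) (nat_lit 0) .nil) .nil))) 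
(.lf (nat_lit 500718) (.g (nat_lit 1629) (.e (nat_lit 163977) (nat_lit 30) (.e (nat_lit 573491) (nat_lit 15) (.e (nat_lit 81951) (nat_lit 22) (.e (nat_lit 90167) (nat_lit 13) .nil)))) (.g (nat_lit 0) (.e (nat_lit 169322) (nat_lit 0) .nil) .nil)))))))) (.nd (nat_lit 5) (.nd (nat_lit 6) (.nd (nat_lit 7) (.nd (nat_lit 8) (.nd (nat_lit 9) 
(.lf (nat_lit 499742) (.g (nat_lit 941) (.e (nat_lit 163976) (nat_lit 30) (.e (nat_lit 573491) (nat_lit 15) (.e (nat_lit 81954) (nat_lit 23) (.e (nat_lit 98359) (nat_lit 26) .nil)))) (.g (nat_lit 0) (.e (nat_lit 167471) (nat_lit 0) .nil) .nil))) 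
(.lf (nat_lit 500254) (.g (nat_lit 1700) (.e (nat_lit 163977) (nat_lit 30) (.e (nat_lit 573485) (nat_lit 13) (.e (nat_lit 65604) (nat_lit 9) (.e (nat_lit 336028) (nat_lit 3) (.e (nat_lit 106240) (nat_lit 26) .nil))))) (.g (nat_lit 0) (.e (nat_lit 168522) (nat_lit 0) .nil) .nil)))) (.nd (nat_lit 9) 
(.lf (nat_lit 499998) (.g (nat_lit 4344) (.e (nat_lit 163977) (nat_lit 30) (.e (nat_lit 573482) (nat_lit 13) (.e (nat_lit 65604) (nat_lit 9) (.e (nat_lit 336013) (nat_lit 2) (.e (nat_lit 90170) (nat_lit 13) (.e (nat_lit 172059) (nat_lit 1) (.e (nat_lit 164348) (nat_lit 240) (.e (nat_lit 2601) (nat_lit 163) .nil)))))))) (.g (nat_lit 1) (.e (nat_lit 168123) (nat_lit 0) .nil) .nil))) 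
(.lf (nat_lit 500510) (.g (nat_lit 3733) (.e (nat_lit 163977) (nat_lit 30) (.e (nat_lit 573489) (nat_lit 14) (.e (nat_lit 73754) (nat_lit 8) (.e (nat_lit 557105) (nat_lit 14) (.e (nat_lit 180252) (nat_lit 10) (.e (nat_lit 573475) (nat_lit 12) (.e (nat_lit 57500) (nat_lit 37) (.e (nat_lit 630799) (nat_lit 7) .nil)))))))) (.g (nat_lit 1) (.e (nat_lit 168946) (nat_lit 0) .nil) .nil))))) 
(.nd (nat_lit 8) (.nd (nat_lit 9) 
(.lf (nat_lit 499870) (.g (nat_lit 2775) (.e (nat_lit 163976) (nat_lit 30) (.e (nat_lit 573492) (nat_lit 15) (.e (nat_lit 81956) (nat_lit 23) (.e (nat_lit 98359) (nat_lit 26) (.e (nat_lit 426022) (nat_lit 0) (.e (nat_lit 3399) (nat_lit 211) (.e (nat_lit 647180) (nat_lit 3) .nil))))))) (.g (nat_lit 1) (.e (nat_lit 167832) (nat_lit 0) .nil) .nil))) 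
(.lf (nat_lit 500382) (.g (nat_lit 3065) (.e (nat_lit 163977) (nat_lit 30) (.e (nat_lit 573487) (nat_lit 14) (.e (nat_lit 73753) (nat_lit 8) (.e (nat_lit 557100) (nat_lit 13) (.e (nat_lit 172067) (nat_lit 3) (.e (nat_lit 204815) (nat_lit 17) (.e (nat_lit 2271) (nat_lit 149) (.e (nat_lit 761898) (nat_lit 15) .nil)))))))) (.g (nat_lit 1) (.e (nat_lit 168746) (nat_lit 0) .nil) .nil)))) 
(.nd (nat_lit 9) 
(.lf (nat_lit 500126) (.g (nat_lit 2433) (.e (nat_lit 163977) (nat_lit 30) (.e (nat_lit 573482) (nat_lit 13) (.e (nat_lit 65619) (nat_lit 10) (.e (nat_lit 344117) (nat_lit 21) (.e (nat_lit 516161) (nat_lit 10) .nil))))) (.g (nat_lit 0) (.e (nat_lit 168268) (nat_lit 0) .nil) .nil))) 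
(.lf (nat_lit 500638) (.g (nat_lit 2305) (.e (nat_lit 163977) (nat_lit 30) (.e (nat_lit 573489) (nat_lit 14) (.e (nat_lit 73755) (nat_lit 8) (.e (nat_lit 557104) (nat_lit 14) (.e (nat_lit 180243) (nat_lit 5) (.e (nat_lit 532484) (nat_lit 0) (.e (nat_lit 2272) (nat_lit 149) (.e (nat_lit 761899) (nat_lit 15) .nil)))))))) (.g (nat_lit 1) (.e (nat_lit 169159) (nat_lit 0) .nil) .nil)))))) 
(.nd (nat_lit 7) (.nd (nat_lit 8) (.nd (nat_lit 9) 
(.lf (nat_lit 499806) (.g (nat_lit 4025) (.e (nat_lit 163976) (nat_lit 30) (.e (nat_lit 573492) (nat_lit 15) (.e (nat_lit 81953) (nat_lit 22) (.e (nat_lit 90170) (nat_lit 13) (.e (nat_lit 172138) (nat_lit 15) (.e (nat_lit 2058) (nat_lit 142) (.e (nat_lit 704589) (nat_lit 3) .nil))))))) (.g (nat_lit 1) (.e (nat_lit 167687) (nat_lit 0) .nil) .nil))) 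
(.lf (nat_lit 500318) (.g (nat_lit 2244) (.e (nat_lit 163977) (nat_lit 30) (.e (nat_lit 573485) (nat_lit 13) (.e (nat_lit 65619) (nat_lit 10) (.e (nat_lit 344117) (nat_lit 21) (.e (nat_lit 516151) (nat_lit 9) (.e (nat_lit 433920) (nat_lit 24) (.e (nat_lit 163584) (nat_lit 3) .nil))))))) (.g (nat_lit 1) (.e (nat_lit 168590) (nat_lit 0) .nil) .nil)))) (.nd (nat_lit 9) 
(.lf (nat_lit 500062) (.g (nat_lit 3921) (.e (nat_lit 163977) (nat_lit 30) (.e (nat_lit 573482) (nat_lit 13) (.e (nat_lit 65619) (nat_lit 10) (.e (nat_lit 344117) (nat_lit 21) (.e (nat_lit 516143) (nat_lit 9) (.e (nat_lit 426109) (nat_lit 1) (.e (nat_lit 164345) (nat_lit 240) (.e (nat_lit 2601) (nat_lit 163) .nil)))))))) (.g (nat_lit 1) (.e (nat_lit 168204) (nat_lit 0) .nil) .nil))) 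
(.lf (nat_lit 500574) (.g (nat_lit 3887) (.e (nat_lit 163977) (nat_lit 30) (.e (nat_lit 573489) (nat_lit 14) (.e (nat_lit 73755) (nat_lit 8) (.e (nat_lit 557098) (nat_lit 13) (.e (nat_lit 172067) (nat_lit 3) (.e (nat_lit 204817) (nat_lit 17) (.e (nat_lit 7936) (nat_lit 149) (.e (nat_lit 761899) (nat_lit 15) .nil)))))))) (.g (nat_lit 1) (.e (nat_lit 169066) (nat_lit 0) .nil) .nil))))) 
(.nd (nat_lit 8) (.nd (nat_lit 9) 
(.lf (nat_lit 499934) (.g (nat_lit 6147) (.e (nat_lit 163976) (nat_lit 30) (.e (nat_lit 573493) (nat_lit 15) (.e (nat_lit 81953) (nat_lit 22) (.e (nat_lit 90168) (nat_lit 13) .nil)))) (.g (nat_lit 0) (.e (nat_lit 168011) (nat_lit 0) .nil) .nil))) 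
(.lf (nat_lit 500446) (.g (nat_lit 3004) (.e (nat_lit 163977) (nat_lit 30) (.e (nat_lit 573487) (nat_lit 14) (.e (nat_lit 73755) (nat_lit 8) (.e (nat_lit 557105) (nat_lit 14) (.e (nat_lit 180252) (nat_lit 10) (.e (nat_lit 573474) (nat_lit 12) (.e (nat_lit 57503) (nat_lit 38) (.e (nat_lit 638995) (nat_lit 7) .nil)))))))) (.g (nat_lit 1) (.e (nat_lit 168861) (nat_lit 0) .nil) .nil)))) 
(.nd (nat_lit 9) 
(.lf (nat_lit 500190) (.g (nat_lit 2865) (.e (nat_lit 163977) (nat_lit 30) (.e (nat_lit 573484) (nat_lit 13) (.e (nat_lit 65610) (nat_lit 10) (.e (nat_lit 344117) (nat_lit 21) (.e (nat_lit 516159) (nat_lit 10) (.e (nat_lit 434271) (nat_lit 38) (.e (nat_lit 655374) (nat_lit 3) .nil))))))) (.g (nat_lit 1) (.e (nat_lit 168396) (nat_lit 0) .nil) .nil))) 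
(.lf (nat_lit 500702) (.g (nat_lit 3696) (.e (nat_lit 163977) (nat_lit 30) (.e (nat_lit 573489) (nat_lit 14) (.e (nat_lit 73755) (nat_lit 8) (.e (nat_lit 557105) (nat_lit 14) (.e (nat_lit 180252) (nat_lit 10) (.e (nat_lit 573474) (nat_lit 12) (.e (nat_lit 65280) (nat_lit 38) (.e (nat_lit 638996) (nat_lit 7) .nil)))))))) (.g (nat_lit 1) (.e (nat_lit 169283) (nat_lit 0) .nil) .nil))))))) 
(.nd (nat_lit 6) (.nd (nat_lit 7) (.nd (nat_lit 8) (.nd (nat_lit 9) 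
(.lf (nat_lit 499774) (.g (nat_lit 2713) (.e (nat_lit 163976) (nat_lit 30) (.e (nat_lit 573491) (nat_lit 15) (.e (nat_lit 81954) (nat_lit 23) (.e (nat_lit 98386) (nat_lit 32) (.e (nat_lit 475196) (nat_lit 40) (.e (nat_lit 704589) (nat_lit 3) .nil)))))) (.g (nat_lit 1) (.e (nat_lit 167542) (nat_lit 0) .nil) .nil))) 
(.lf (nat_lit 500286) (.g (nat_lit 2609) (.e (nat_lit 163977) (nat_lit 30) (.e (nat_lit 573485) (nat_lit 13) (.e (nat_lit 65619) (nat_lit 10) (.e (nat_lit 344117) (nat_lit 21) (.e (nat_lit 516144) (nat_lit 9) (.e (nat_lit 426444) (nat_lit 19) (.e (nat_lit 114432) (nat_lit 3) .nil))))))) (.g (nat_lit 1) (.e (nat_lit 168558) (nat_lit 0) .nil) .nil)))) (.nd (nat_lit 9) 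
(.lf (nat_lit 500030) (.g (nat_lit 2468) (.e (nat_lit 163977) (nat_lit 30) (.e (nat_lit 573482) (nat_lit 13) (.e (nat_lit 65604) (nat_lit 9) (.e (nat_lit 336028) (nat_lit 3) (.e (nat_lit 98360) (nat_lit 26) (.e (nat_lit 426025) (nat_lit 0) (.e (nat_lit 3397) (nat_lit 211) (.e (nat_lit 647181) (nat_lit 3) .nil)))))))) (.g (nat_lit 1) (.e (nat_lit 168168) (nat_lit 0) .nil) .nil))) 
(.lf (nat_lit 500542) (.g (nat_lit 2616) (.e (nat_lit 163977) (nat_lit 30) (.e (nat_lit 573489) (nat_lit 14) (.e (nat_lit 73755) (nat_lit 8) (.e (nat_lit 557097) (nat_lit 13) (.e (nat_lit 172066) (nat_lit 3) (.e (nat_lit 204822) (nat_lit 17) (.e (nat_lit 2270) (nat_lit 149) (.e (nat_lit 761898) (nat_lit 15) .nil)))))))) (.g (nat_lit 1) (.e (nat_lit 169011) (nat_lit 0) .nil) .nil))))) 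
(.nd (nat_lit 8) (.nd (nat_lit 9) 
(.lf (nat_lit 499902) (.g (nat_lit 4773) (.e (nat_lit 163976) (nat_lit 30) (.e (nat_lit 573492) (nat_lit 15) (.e (nat_lit 81956) (nat_lit 23) (.e (nat_lit 98365) (nat_lit 26) (.e (nat_lit 426413) (nat_lit 15) (.e (nat_lit 2059) (nat_lit 142) (.e (nat_lit 704589) (nat_lit 3) .nil))))))) (.g (nat_lit 1) (.e (nat_lit 167912) (nat_lit 0) .nil) .nil))) 
(.lf (nat_lit 500414) (.g (nat_lit 3138) (.e (nat_lit 163977) (nat_lit 30) (.e (nat_lit 573487) (nat_lit 14) (.e (nat_lit 73753) (nat_lit 8) (.e (nat_lit 557105) (nat_lit 14) (.e (nat_lit 180251) (nat_lit 10) (.e (nat_lit 573478) (nat_lit 12) (.e (nat_lit 57500) (nat_lit 37) (.e (nat_lit 630800) (nat_lit 7) .nil)))))))) (.g (nat_lit 1) (.e (nat_lit 168827) (nat_lit 0) .nil) .nil)))) 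
(.nd (nat_lit 9) 
(.lf (nat_lit 500158) (.g (nat_lit 2251) (.e (nat_lit 163977) (nat_lit 30) (.e (nat_lit 573484) (nat_lit 13) (.e (nat_lit 65610) (nat_lit 10) (.e (nat_lit 344117) (nat_lit 21) (.e (nat_lit 516147) (nat_lit 9) .nil))))) (.g (nat_lit 0) (.e (nat_lit 168334) (nat_lit 0) .nil) .nil))) 
(.lf (nat_lit 500670) (.g (nat_lit 4230) (.e (nat_lit 163977) (nat_lit 30) (.e (nat_lit 573489) (nat_lit 14) (.e (nat_lit 73755) (nat_lit 8) (.e (nat_lit 557104) (nat_lit 14) (.e (nat_lit 180251) (nat_lit 10) (.e (nat_lit 573475) (nat_lit 12) (.e (nat_lit 57503) (nat_lit 38) (.e (nat_lit 638995) (nat_lit 7) .nil)))))))) (.g (nat_lit 1) (.e (nat_lit 169224) (nat_lit 0) .nil) .nil)))))) 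
(.nd (nat_lit 7) (.nd (nat_lit 8) (.nd (nat_lit 9) 
(.lf (nat_lit 499838) (.g (nat_lit 3106) (.e (nat_lit 163976) (nat_lit 30) (.e (nat_lit 573492) (nat_lit 15) (.e (nat_lit 81956) (nat_lit 23) (.e (nat_lit 98356) (nat_lit 26) (.e (nat_lit 426360) (nat_lit 15) (.e (nat_lit 7936) (nat_lit 142) (.e (nat_lit 704589) (nat_lit 3) .nil))))))) (.g (nat_lit 1) (.e (nat_lit 167795) (nat_lit 0) .nil) .nil))) 
(.lf (nat_lit 500350) (.g (nat_lit 4733) (.e (nat_lit 163977) (nat_lit 30) (.e (nat_lit 573485) (nat_lit 13) (.e (nat_lit 65619) (nat_lit 10) (.e (nat_lit 344117) (nat_lit 21) (.e (nat_lit 516160) (nat_lit 10) (.e (nat_lit 434209) (nat_lit 18) (.e (nat_lit 5548) (nat_lit 306) (.e (nat_lit 2611) (nat_lit 163) .nil)))))))) (.g (nat_lit 1) (.e (nat_lit 168622) (nat_lit 0) .nil) .nil)))) 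
(.nd (nat_lit 9) 
(.lf (nat_lit 500094) (.g (nat_lit 2503) (.e (nat_lit 163977) (nat_lit 30) (.e (nat_lit 573482) (nat_lit 13) (.e (nat_lit 65619) (nat_lit 10) (.e (nat_lit 344117) (nat_lit 21) (.e (nat_lit 516151) (nat_lit 9) (.e (nat_lit 426465) (nat_lit 24) (.e (nat_lit 163584) (nat_lit 3) .nil))))))) (.g (nat_lit 1) (.e (nat_lit 168236) (nat_lit 0) .nil) .nil))) 
(.lf (nat_lit 500606) (.g (nat_lit 3024) (.e (nat_lit 163977) (nat_lit 30) (.e (nat_lit 573489) (nat_lit 14) (.e (nat_lit 73755) (nat_lit 8) (.e (nat_lit 557103) (nat_lit 14) (.e (nat_lit 180250) (nat_lit 10) (.e (nat_lit 573473) (nat_lit 12) (.e (nat_lit 57501) (nat_lit 37) (.e (nat_lit 630799) (nat_lit 7) .nil)))))))) (.g (nat_lit 1) (.e (nat_lit 169124) (nat_lit 0) .nil) .nil))))) 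
(.nd (nat_lit 8) (.nd (nat_lit 9) 
(.lf (nat_lit 499966) (.g (nat_lit 2231) (.e (nat_lit 163977) (nat_lit 30) (.e (nat_lit 573481) (nat_lit 13) (.e (nat_lit 65604) (nat_lit 9) (.e (nat_lit 336028) (nat_lit 3) (.e (nat_lit 98367) (nat_lit 27) (.e (nat_lit 434271) (nat_lit 38) (.e (nat_lit 655375) (nat_lit 3) .nil))))))) (.g (nat_lit 1) (.e (nat_lit 168083) (nat_lit 0) .nil) .nil))) 
(.lf (nat_lit 500478) (.g (nat_lit 2738) (.e (nat_lit 163977) (nat_lit 30) (.e (nat_lit 573489) (nat_lit 14) (.e (nat_lit 73754) (nat_lit 8) (.e (nat_lit 557100) (nat_lit 13) (.e (nat_lit 172067) (nat_lit 3) (.e (nat_lit 204821) (nat_lit 17) (.e (nat_lit 2270) (nat_lit 149) (.e (nat_lit 761899) (nat_lit 15) .nil)))))))) (.g (nat_lit 1) (.e (nat_lit 168904) (nat_lit 0) .nil) .nil)))) 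
(.nd (nat_lit 9) 
(.lf (nat_lit 500222) (.g (nat_lit 4105) (.e (nat_lit 163977) (nat_lit 30) (.e (nat_lit 573485) (nat_lit 13) (.e (nat_lit 65604) (nat_lit 9) (.e (nat_lit 336013) (nat_lit 2) (.e (nat_lit 90170) (nat_lit 13) (.e (nat_lit 172059) (nat_lit 1) (.e (nat_lit 164347) (nat_lit 240) (.e (nat_lit 2611) (nat_lit 163) .nil)))))))) (.g (nat_lit 1) (.e (nat_lit 168459) (nat_lit 0) .nil) .nil))) 
(.lf (nat_lit 500734) (.g (nat_lit 3236) (.e (nat_lit 163977) (nat_lit 30) (.e (nat_lit 573491) (nat_lit 15) (.e (nat_lit 81951) (nat_lit 22) (.e (nat_lit 90170) (nat_lit 13) (.e (nat_lit 172052) (nat_lit 0) (.e (nat_lit 3409) (nat_lit 212) (.e (nat_lit 655375) (nat_lit 3) .nil))))))) (.g (nat_lit 1) (.e (nat_lit 169345) (nat_lit 0) .nil) .nil)))))))))))) 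
(.nd (nat_lit 1) (.nd (nat_lit 2) (.nd (nat_lit 3) (.nd (nat_lit 4) (.nd (nat_lit 5) 
(.nd (nat_lit 6) (.nd (nat_lit 7) (.nd (nat_lit 8) (.nd (nat_lit 9) 
(.lf (nat_lit 499713) (.g (nat_lit 1047) (.e (nat_lit 163976) (nat_lit 30) (.e (nat_lit 573491) (nat_lit 15) (.e (nat_lit 81954) (nat_lit 23) (.e (nat_lit 98356) (nat_lit 26) .nil)))) (.g (nat_lit 0) (.e (nat_lit 167435) (nat_lit 0) .nil) .nil))) 
(.lf (nat_lit 500225) (.g (nat_lit 4335) (.e (nat_lit 163977) (nat_lit 30) (.e (nat_lit 573485) (nat_lit 13) (.e (nat_lit 65604) (nat_lit 9) (.e (nat_lit 336013) (nat_lit 2) (.e (nat_lit 90170) (nat_lit 13) (.e (nat_lit 172059) (nat_lit 1) (.e (nat_lit 164348) (nat_lit 240) (.e (nat_lit 2611) (nat_lit 163) .nil)))))))) (.g (nat_lit 1) (.e (nat_lit 168462) (nat_lit 0) .nil) .nil)))) 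
(.nd (nat_lit 9) 
(.lf (nat_lit 499969) (.g (nat_lit 2573) (.e (nat_lit 163977) (nat_lit 30) (.e (nat_lit 573481) (nat_lit 13) (.e (nat_lit 65619) (nat_lit 10) (.e (nat_lit 344117) (nat_lit 21) (.e (nat_lit 516143) (nat_lit 9) .nil))))) (.g (nat_lit 0) (.e (nat_lit 168086) (nat_lit 0) .nil) .nil))) 
(.lf (nat_lit 500481) (.g (nat_lit 3210) (.e (nat_lit 163977) (nat_lit 30) (.e (nat_lit 573489) (nat_lit 14) (.e (nat_lit 73754) (nat_lit 8) (.e (nat_lit 557101) (nat_lit 13) (.e (nat_lit 172065) (nat_lit 3) (.e (nat_lit 204817) (nat_lit 17) (.e (nat_lit 2272) (nat_lit 149) (.e (nat_lit 761899) (nat_lit 15) .nil)))))))) (.g (nat_lit 1) (.e (nat_lit 168914) (nat_lit 0) .nil) .nil))))) 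
(.nd (nat_lit 8) (.nd (nat_lit 9) 
(.lf (nat_lit 499841) (.g (nat_lit 2903) (.e (nat_lit 163976) (nat_lit 30) (.e (nat_lit 573492) (nat_lit 15) (.e (nat_lit 81956) (nat_lit 23) (.e (nat_lit 98356) (nat_lit 26) (.e (nat_lit 426362) (nat_lit 15) (.e (nat_lit 2056) (nat_lit 142) (.e (nat_lit 704589) (nat_lit 3) .nil))))))) (.g (nat_lit 1) (.e (nat_lit 167798) (nat_lit 0) .nil) .nil))) 
(.lf (nat_lit 500353) (.g (nat_lit 2046) (.e (nat_lit 163977) (nat_lit 30) (.e (nat_lit 573485) (nat_lit 13) (.e (nat_lit 65619) (nat_lit 10) (.e (nat_lit 344117) (nat_lit 21) (.e (nat_lit 516160) (nat_lit 10) (.e (nat_lit 434272) (nat_lit 38) (.e (nat_lit 655373) (nat_lit 3) .nil))))))) (.g (nat_lit 1) (.e (nat_lit 168625) (nat_lit 0) .nil) .nil)))) (.nd (nat_lit 9) 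
(.lf (nat_lit 500097) (.g (nat_lit 2651) (.e (nat_lit 163977) (nat_lit 30) (.e (nat_lit 573482) (nat_lit 13) (.e (nat_lit 65619) (nat_lit 10) (.e (nat_lit 344117) (nat_lit 21) (.e (nat_lit 516152) (nat_lit 9) (.e (nat_lit 426109) (nat_lit 1) (.e (nat_lit 164345) (nat_lit 240) (.e (nat_lit 2600) (nat_lit 163) .nil)))))))) (.g (nat_lit 1) (.e (nat_lit 168239) (nat_lit 0) .nil) .nil))) 
(.lf (nat_lit 500609) (.g (nat_lit 4388) (.e (nat_lit 163977) (nat_lit 30) (.e (nat_lit 573489) (nat_lit 14) (.e (nat_lit 73755) (nat_lit 8) (.e (nat_lit 557103) (nat_lit 14) (.e (nat_lit 180250) (nat_lit 10) (.e (nat_lit 573473) (nat_lit 12) (.e (nat_lit 57503) (nat_lit 38) (.e (nat_lit 638996) (nat_lit 7) .nil)))))))) (.g (nat_lit 1) (.e (nat_lit 169127) (nat_lit 0) .nil) .nil)))))) 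
(.nd (nat_lit 7) (.nd (nat_lit 8) (.nd (nat_lit 9) 
(.lf (nat_lit 499777) (.g (nat_lit 3398) (.e (nat_lit 163976) (nat_lit 30) (.e (nat_lit 573491) (nat_lit 15) (.e (nat_lit 81954) (nat_lit 23) (.e (nat_lit 98386) (nat_lit 32) (.e (nat_lit 475199) (nat_lit 40) (.e (nat_lit 704589) (nat_lit 3) .nil)))))) (.g (nat_lit 1) (.e (nat_lit 167545) (nat_lit 0) .nil) .nil))) 
(.lf (nat_lit 500289) (.g (nat_lit 2705) (.e (nat_lit 163977) (nat_lit 30) (.e (nat_lit 573485) (nat_lit 13) (.e (nat_lit 65619) (nat_lit 10) (.e (nat_lit 344117) (nat_lit 21) (.e (nat_lit 516146) (nat_lit 9) (.e (nat_lit 426444) (nat_lit 19) (.e (nat_lit 114432) (nat_lit 3) .nil))))))) (.g (nat_lit 1) (.e (nat_lit 168561) (nat_lit 0) .nil) .nil)))) (.nd (nat_lit 9) 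
(.lf (nat_lit 500033) (.g (nat_lit 2435) (.e (nat_lit 163977) (nat_lit 30) (.e (nat_lit 573482) (nat_lit 13) (.e (nat_lit 65604) (nat_lit 9) (.e (nat_lit 336028) (nat_lit 3) (.e (nat_lit 98362) (nat_lit 26) .nil))))) (.g (nat_lit 0) (.e (nat_lit 168171) (nat_lit 0) .nil) .nil))) 
(.lf (nat_lit 500545) (.g (nat_lit 3481) (.e (nat_lit 163977) (nat_lit 30) (.e (nat_lit 573489) (nat_lit 14) (.e (nat_lit 73755) (nat_lit 8) (.e (nat_lit 557097) (nat_lit 13) (.e (nat_lit 172067) (nat_lit 3) (.e (nat_lit 204814) (nat_lit 17) (.e (nat_lit 2270) (nat_lit 149) (.e (nat_lit 761898) (nat_lit 15) .nil)))))))) (.g (nat_lit 1) (.e (nat_lit 169017) (nat_lit 0) .nil) .nil))))) 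
(.nd (nat_lit 8) (.nd (nat_lit 9) 
(.lf (nat_lit 499905) (.g (nat_lit 3221) (.e (nat_lit 163976) (nat_lit 30) (.e (nat_lit 573492) (nat_lit 15) (.e (nat_lit 81956) (nat_lit 23) (.e (nat_lit 98366) (nat_lit 27) (.e (nat_lit 434271) (nat_lit 38) (.e (nat_lit 655373) (nat_lit 3) .nil)))))) (.g (nat_lit 1) (.e (nat_lit 167918) (nat_lit 0) .nil) .nil))) 
(.lf (nat_lit 500417) (.g (nat_lit 3024) (.e (nat_lit 163977) (nat_lit 30) (.e (nat_lit 573487) (nat_lit 14) (.e (nat_lit 73753) (nat_lit 8) (.e (nat_lit 557105) (nat_lit 14) (.e (nat_lit 180252) (nat_lit 10) (.e (nat_lit 573473) (nat_lit 12) (.e (nat_lit 57500) (nat_lit 37) (.e (nat_lit 630800) (nat_lit 7) .nil)))))))) (.g (nat_lit 1) (.e (nat_lit 168831) (nat_lit 0) .nil) .nil)))) 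
(.nd (nat_lit 9) 
(.lf (nat_lit 500161) (.g (nat_lit 2175) (.e (nat_lit 163977) (nat_lit 30) (.e (nat_lit 573484) (nat_lit 13) (.e (nat_lit 65610) (nat_lit 10) (.e (nat_lit 344117) (nat_lit 21) (.e (nat_lit 516151) (nat_lit 9) .nil))))) (.g (nat_lit 0) (.e (nat_lit 168337) (nat_lit 0) .nil) .nil))) 
(.lf (nat_lit 500673) (.g (nat_lit 2337) (.e (nat_lit 163977) (nat_lit 30) (.e (nat_lit 573489) (nat_lit 14) (.e (nat_lit 73755) (nat_lit 8) (.e (nat_lit 557104) (nat_lit 14) (.e (nat_lit 180251) (nat_lit 10) (.e (nat_lit 573478) (nat_lit 12) (.e (nat_lit 57500) (nat_lit 37) (.e (nat_lit 630800) (nat_lit 7) .nil)))))))) (.g (nat_lit 1) (.e (nat_lit 169227) (nat_lit 0) .nil) .nil))))))) 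
(.nd (nat_lit 6) (.nd (nat_lit 7) (.nd (nat_lit 8) (.nd (nat_lit 9) 
(.lf (nat_lit 499745) (.g (nat_lit 2166) (.e (nat_lit 163976) (nat_lit 30) (.e (nat_lit 573491) (nat_lit 15) (.e (nat_lit 81954) (nat_lit 23) (.e (nat_lit 98359) (nat_lit 26) (.e (nat_lit 426022) (nat_lit 0) (.e (nat_lit 3399) (nat_lit 211) (.e (nat_lit 647180) (nat_lit 3) .nil))))))) (.g (nat_lit 1) (.e (nat_lit 167474) (nat_lit 0) .nil) .nil))) 
(.lf (nat_lit 500257) (.g (nat_lit 3530) (.e (nat_lit 163977) (nat_lit 30) (.e (nat_lit 573485) (nat_lit 13) (.e (nat_lit 65604) (nat_lit 9) (.e (nat_lit 336028) (nat_lit 3) (.e (nat_lit 98366) (nat_lit 27) (.e (nat_lit 434202) (nat_lit 18) (.e (nat_lit 5537) (nat_lit 306) (.e (nat_lit 2611) (nat_lit 163) .nil)))))))) (.g (nat_lit 1) (.e (nat_lit 168527) (nat_lit 0) .nil) .nil)))) 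
(.nd (nat_lit 9) 
(.lf (nat_lit 500001) (.g (nat_lit 2118) (.e (nat_lit 163977) (nat_lit 30) (.e (nat_lit 573482) (nat_lit 13) (.e (nat_lit 65604) (nat_lit 9) (.e (nat_lit 336013) (nat_lit 2) (.e (nat_lit 90170) (nat_lit 13) (.e (nat_lit 172061) (nat_lit 1) (.e (nat_lit 164347) (nat_lit 240) (.e (nat_lit 2600) (nat_lit 163) .nil)))))))) (.g (nat_lit 1) (.e (nat_lit 168126) (nat_lit 0) .nil) .nil))) 
(.lf (nat_lit 500513) (.g (nat_lit 4173) (.e (nat_lit 163977) (nat_lit 30) (.e (nat_lit 573489) (nat_lit 14) (.e (nat_lit 73754) (nat_lit 8) (.e (nat_lit 557105) (nat_lit 14) (.e (nat_lit 180252) (nat_lit 10) (.e (nat_lit 573475) (nat_lit 12) (.e (nat_lit 57501) (nat_lit 37) (.e (nat_lit 630800) (nat_lit 7) .nil)))))))) (.g (nat_lit 1) (.e (nat_lit 168949) (nat_lit 0) .nil) .nil))))) 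
(.nd (nat_lit 8) (.nd (nat_lit 9) 
(.lf (nat_lit 499873) (.g (nat_lit 2824) (.e (nat_lit 163976) (nat_lit 30) (.e (nat_lit 573492) (nat_lit 15) (.e (nat_lit 81956) (nat_lit 23) (.e (nat_lit 98359) (nat_lit 26) (.e (nat_lit 426023) (nat_lit 0) (.e (nat_lit 3402) (nat_lit 211) (.e (nat_lit 647180) (nat_lit 3) .nil))))))) (.g (nat_lit 1) (.e (nat_lit 167835) (nat_lit 0) .nil) .nil))) 
(.lf (nat_lit 500385) (.g (nat_lit 3548) (.e (nat_lit 163977) (nat_lit 30) (.e (nat_lit 573487) (nat_lit 14) (.e (nat_lit 73753) (nat_lit 8) (.e (nat_lit 557103) (nat_lit 14) (.e (nat_lit 180243) (nat_lit 5) (.e (nat_lit 532484) (nat_lit 0) (.e (nat_lit 2271) (nat_lit 149) (.e (nat_lit 761898) (nat_lit 15) .nil)))))))) (.g (nat_lit 1) (.e (nat_lit 168780) (nat_lit 0) .nil) .nil)))) 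
(.nd (nat_lit 9) 
(.lf (nat_lit 500129) (.g (nat_lit 2628) (.e (nat_lit 163977) (nat_lit 30) (.e (nat_lit 573482) (nat_lit 13) (.e (nat_lit 65619) (nat_lit 10) (.e (nat_lit 344117) (nat_lit 21) (.e (nat_lit 516161) (nat_lit 10) (.e (nat_lit 434209) (nat_lit 18) (.e (nat_lit 5548) (nat_lit 306) (.e (nat_lit 2610) (nat_lit 163) .nil)))))))) (.g (nat_lit 1) (.e (nat_lit 168271) (nat_lit 0) .nil) .nil))) 
(.lf (nat_lit 500641) (.g (nat_lit 2201) (.e (nat_lit 163977) (nat_lit 30) (.e (nat_lit 573489) (nat_lit 14) (.e (nat_lit 73755) (nat_lit 8) (.e (nat_lit 557104) (nat_lit 14) (.e (nat_lit 180244) (nat_lit 5) (.e (nat_lit 532481) (nat_lit 0) (.e (nat_lit 7936) (nat_lit 149) (.e (nat_lit 761899) (nat_lit 15) .nil)))))))) (.g (nat_lit 1) (.e (nat_lit 169167) (nat_lit 0) .nil) .nil)))))) 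
(.nd (nat_lit 7) (.nd (nat_lit 8) (.nd (nat_lit 9) 
(.lf (nat_lit 499809) (.g (nat_lit 1222) (.e (nat_lit 163976) (nat_lit 30) (.e (nat_lit 573492) (nat_lit 15) (.e (nat_lit 81954) (nat_lit 23) (.e (nat_lit 98356) (nat_lit 26) .nil)))) (.g (nat_lit 0) (.e (nat_lit 167733) (nat_lit 0) .nil) .nil))) 
(.lf (nat_lit 500321) (.g (nat_lit 2588) (.e (nat_lit 163977) (nat_lit 30) (.e (nat_lit 573485) (nat_lit 13) (.e (nat_lit 65619) (nat_lit 10) (.e (nat_lit 344117) (nat_lit 21) (.e (nat_lit 516152) (nat_lit 9) (.e (nat_lit 426109) (nat_lit 1) (.e (nat_lit 164345) (nat_lit 240) (.e (nat_lit 2601) (nat_lit 163) .nil)))))))) (.g (nat_lit 1) (.e (nat_lit 168593) (nat_lit 0) .nil) .nil)))) 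
(.nd (nat_lit 9) 
(.lf (nat_lit 500065) (.g (nat_lit 2805) (.e (nat_lit 163977) (nat_lit 30) (.e (nat_lit 573482) (nat_lit 13) (.e (nat_lit 65619) (nat_lit 10) (.e (nat_lit 344117) (nat_lit 21) (.e (nat_lit 516144) (nat_lit 9) (.e (nat_lit 426444) (nat_lit 19) (.e (nat_lit 114432) (nat_lit 3) .nil))))))) (.g (nat_lit 1) (.e (nat_lit 168207) (nat_lit 0) .nil) .nil))) 
(.lf (nat_lit 500577) (.g (nat_lit 3782) (.e (nat_lit 163977) (nat_lit 30) (.e (nat_lit 573489) (nat_lit 14) (.e (nat_lit 73755) (nat_lit 8) (.e (nat_lit 557098) (nat_lit 13) (.e (nat_lit 172133) (nat_lit 15) (.e (nat_lit 1800) (nat_lit 119) (.e (nat_lit 516117) (nat_lit 1) (.e (nat_lit 164304) (nat_lit 226) (.e (nat_lit 2612) (nat_lit 163) .nil))))))))) (.g (nat_lit 1) (.e (nat_lit 169070) (nat_lit 0) .nil) .nil))))) 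
(.nd (nat_lit 8) (.nd (nat_lit 9) 
(.lf (nat_lit 499937) (.g (nat_lit 794) (.e (nat_lit 163976) (nat_lit 30) (.e (nat_lit 573493) (nat_lit 15) (.e (nat_lit 81956) (nat_lit 23) .nil))) (.g (nat_lit 0) (.e (nat_lit 168018) (nat_lit 0) .nil) .nil))) 
(.lf (nat_lit 500449) (.g (nat_lit 744) (.e (nat_lit 163977) (nat_lit 30) (.e (nat_lit 573488) (nat_lit 14) (.e (nat_lit 73755) (nat_lit 8) .nil))) (.g (nat_lit 0) (.e (nat_lit 168867) (nat_lit 0) .nil) .nil)))) (.nd (nat_lit 9) 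
(.lf (nat_lit 500193) (.g (nat_lit 3113) (.e (nat_lit 163977) (nat_lit 30) (.e (nat_lit 573484) (nat_lit 13) (.e (nat_lit 65610) (nat_lit 10) (.e (nat_lit 344117) (nat_lit 21) (.e (nat_lit 516160) (nat_lit 10) (.e (nat_lit 434209) (nat_lit 18) (.e (nat_lit 5546) (nat_lit 306) (.e (nat_lit 2610) (nat_lit 163) .nil)))))))) (.g (nat_lit 1) (.e (nat_lit 168400) (nat_lit 0) .nil) .nil))) 
(.lf (nat_lit 500705) (.g (nat_lit 4575) (.e (nat_lit 163977) (nat_lit 30) (.e (nat_lit 573489) (nat_lit 14) (.e (nat_lit 73755) (nat_lit 8) (.e (nat_lit 557105) (nat_lit 14) (.e (nat_lit 180252) (nat_lit 10) (.e (nat_lit 573475) (nat_lit 12) (.e (nat_lit 57501) (nat_lit 37) (.e (nat_lit 630800) (nat_lit 7) .nil)))))))) (.g (nat_lit 1) (.e (nat_lit 169286) (nat_lit 0) .nil) .nil)))))))) 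
(.nd (nat_lit 5) (.nd (nat_lit 6) (.nd (nat_lit 7) (.nd (nat_lit 8) (.nd (nat_lit 9) 
(.lf (nat_lit 499729) (.g (nat_lit 2479) (.e (nat_lit 163976) (nat_lit 30) (.e (nat_lit 573491) (nat_lit 15) (.e (nat_lit 81954) (nat_lit 23) (.e (nat_lit 98356) (nat_lit 26) (.e (nat_lit 426400) (nat_lit 15) .nil))))) (.g (nat_lit 0) (.e (nat_lit 167453) (nat_lit 0) .nil) .nil))) 
(.lf (nat_lit 500241) (.g (nat_lit 1862) (.e (nat_lit 163977) (nat_lit 30) (.e (nat_lit 573485) (nat_lit 13) (.e (nat_lit 65604) (nat_lit 9) (.e (nat_lit 336028) (nat_lit 3) (.e (nat_lit 98354) (nat_lit 26) .nil))))) (.g (nat_lit 0) (.e (nat_lit 168480) (nat_lit 0) .nil) .nil)))) (.nd (nat_lit 9) 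
(.lf (nat_lit 499985) (.g (nat_lit 3263) (.e (nat_lit 163977) (nat_lit 30) (.e (nat_lit 573482) (nat_lit 13) (.e (nat_lit 65604) (nat_lit 9) (.e (nat_lit 336013) (nat_lit 2) (.e (nat_lit 90170) (nat_lit 13) (.e (nat_lit 172042) (nat_lit 0) (.e (nat_lit 2458) (nat_lit 157) (.e (nat_lit 5548) (nat_lit 306) (.e (nat_lit 2601) (nat_lit 163) .nil))))))))) (.g (nat_lit 1) (.e (nat_lit 168110) (nat_lit 0) .nil) .nil))) 
(.lf (nat_lit 500497) (.g (nat_lit 4586) (.e (nat_lit 163977) (nat_lit 30) (.e (nat_lit 573489) (nat_lit 14) (.e (nat_lit 73754) (nat_lit 8) (.e (nat_lit 557105) (nat_lit 14) (.e (nat_lit 180251) (nat_lit 10) (.e (nat_lit 573475) (nat_lit 12) (.e (nat_lit 57503) (nat_lit 38) (.e (nat_lit 638996) (nat_lit 7) .nil)))))))) (.g (nat_lit 1) (.e (nat_lit 168933) (nat_lit 0) .nil) .nil))))) 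
(.nd (nat_lit 8) (.nd (nat_lit 9) 
(.lf (nat_lit 499857) (.g (nat_lit 3266) (.e (nat_lit 163976) (nat_lit 30) (.e (nat_lit 573492) (nat_lit 15) (.e (nat_lit 81956) (nat_lit 23) (.e (nat_lit 98356) (nat_lit 26) (.e (nat_lit 426444) (nat_lit 19) (.e (nat_lit 114432) (nat_lit 3) .nil)))))) (.g (nat_lit 1) (.e (nat_lit 167814) (nat_lit 0) .nil) .nil))) 
(.lf (nat_lit 500369) (.g (nat_lit 1663) (.e (nat_lit 163977) (nat_lit 30) (.e (nat_lit 573487) (nat_lit 14) (.e (nat_lit 73753) (nat_lit 8) (.e (nat_lit 557097) (nat_lit 13) (.e (nat_lit 172067) (nat_lit 3) .nil))))) (.g (nat_lit 0) (.e (nat_lit 168697) (nat_lit 0) .nil) .nil)))) (.nd (nat_lit 9) 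
(.lf (nat_lit 500113) (.g (nat_lit 2992) (.e (nat_lit 163977) (nat_lit 30) (.e (nat_lit 573482) (nat_lit 13) (.e (nat_lit 65619) (nat_lit 10) (.e (nat_lit 344117) (nat_lit 21) (.e (nat_lit 516159) (nat_lit 10) (.e (nat_lit 434209) (nat_lit 18) (.e (nat_lit 5548) (nat_lit 306) (.e (nat_lit 2600) (nat_lit 163) .nil)))))))) (.g (nat_lit 1) (.e (nat_lit 168255) (nat_lit 0) .nil) .nil))) 
(.lf (nat_lit 500625) (.g (nat_lit 3437) (.e (nat_lit 163977) (nat_lit 30) (.e (nat_lit 573489) (nat_lit 14) (.e (nat_lit 73755) (nat_lit 8) (.e (nat_lit 557103) (nat_lit 14) (.e (nat_lit 180250) (nat_lit 10) (.e (nat_lit 573478) (nat_lit 12) (.e (nat_lit 57500) (nat_lit 37) (.e (nat_lit 630799) (nat_lit 7) .nil)))))))) (.g (nat_lit 1) (.e (nat_lit 169143) (nat_lit 0) .nil) .nil)))))) 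
(.nd (nat_lit 7) (.nd (nat_lit 8) (.nd (nat_lit 9) 
(.lf (nat_lit 499793) (.g (nat_lit 3457) (.e (nat_lit 163976) (nat_lit 30) (.e (nat_lit 573492) (nat_lit 15) (.e (nat_lit 81951) (nat_lit 22) (.e (nat_lit 90170) (nat_lit 13) (.e (nat_lit 172137) (nat_lit 15) .nil))))) (.g (nat_lit 0) (.e (nat_lit 167584) (nat_lit 0) .nil) .nil))) 
(.lf (nat_lit 500305) (.g (nat_lit 4055) (.e (nat_lit 163977) (nat_lit 30) (.e (nat_lit 573485) (nat_lit 13) (.e (nat_lit 65619) (nat_lit 10) (.e (nat_lit 344117) (nat_lit 21) (.e (nat_lit 516151) (nat_lit 9) (.e (nat_lit 426097) (nat_lit 1) (.e (nat_lit 164347) (nat_lit 240) (.e (nat_lit 2611) (nat_lit 163) .nil)))))))) (.g (nat_lit 1) (.e (nat_lit 168577) (nat_lit 0) .nil) .nil)))) 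
(.nd (nat_lit 9) 
(.lf (nat_lit 500049) (.g (nat_lit 3644) (.e (nat_lit 163977) (nat_lit 30) (.e (nat_lit 573482) (nat_lit 13) (.e (nat_lit 65604) (nat_lit 9) (.e (nat_lit 336028) (nat_lit 3) (.e (nat_lit 98367) (nat_lit 27) (.e (nat_lit 434202) (nat_lit 18) (.e (nat_lit 5537) (nat_lit 306) (.e (nat_lit 2611) (nat_lit 163) .nil)))))))) (.g (nat_lit 1) (.e (nat_lit 168189) (nat_lit 0) .nil) .nil))) 
(.lf (nat_lit 500561) (.g (nat_lit 3141) (.e (nat_lit 163977) (nat_lit 30) (.e (nat_lit 573489) (nat_lit 14) (.e (nat_lit 73755) (nat_lit 8) (.e (nat_lit 557098) (nat_lit 13) (.e (nat_lit 172065) (nat_lit 3) (.e (nat_lit 204821) (nat_lit 17) (.e (nat_lit 2270) (nat_lit 149) (.e (nat_lit 761898) (nat_lit 15) .nil)))))))) (.g (nat_lit 1) (.e (nat_lit 169049) (nat_lit 0) .nil) .nil))))) 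
(.nd (nat_lit 8) (.nd (nat_lit 9) 
(.lf (nat_lit 499921) (.g (nat_lit 3464) (.e (nat_lit 163976) (nat_lit 30) (.e (nat_lit 573492) (nat_lit 15) (.e (nat_lit 81956) (nat_lit 23) (.e (nat_lit 98384) (nat_lit 32) (.e (nat_lit 483072) (nat_lit 40) .nil))))) (.g (nat_lit 0) (.e (nat_lit 167975) (nat_lit 0) .nil) .nil))) 
(.lf (nat_lit 500433) (.g (nat_lit 3376) (.e (nat_lit 163977) (nat_lit 30) (.e (nat_lit 573487) (nat_lit 14) (.e (nat_lit 73754) (nat_lit 8) (.e (nat_lit 557105) (nat_lit 14) (.e (nat_lit 180252) (nat_lit 10) (.e (nat_lit 573473) (nat_lit 12) (.e (nat_lit 57503) (nat_lit 38) (.e (nat_lit 638995) (nat_lit 7) .nil)))))))) (.g (nat_lit 1) (.e (nat_lit 168848) (nat_lit 0) .nil) .nil)))) 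
(.nd (nat_lit 9) 
(.lf (nat_lit 500177) (.g (nat_lit 2534) (.e (nat_lit 163977) (nat_lit 30) (.e (nat_lit 573484) (nat_lit 13) (.e (nat_lit 65610) (nat_lit 10) (.e (nat_lit 344117) (nat_lit 21) (.e (nat_lit 516151) (nat_lit 9) (.e (nat_lit 426142) (nat_lit 4) (.e (nat_lit 229665) (nat_lit 240) (.e (nat_lit 2612) (nat_lit 163) .nil)))))))) (.g (nat_lit 1) (.e (nat_lit 168375) (nat_lit 0) .nil) .nil))) 
(.lf (nat_lit 500689) (.g (nat_lit 2776) (.e (nat_lit 163977) (nat_lit 30) (.e (nat_lit 573489) (nat_lit 14) (.e (nat_lit 73755) (nat_lit 8) (.e (nat_lit 557105) (nat_lit 14) (.e (nat_lit 180251) (nat_lit 10) (.e (nat_lit 573473) (nat_lit 12) (.e (nat_lit 57503) (nat_lit 38) (.e (nat_lit 638995) (nat_lit 7) .nil)))))))) (.g (nat_lit 1) (.e (nat_lit 169245) (nat_lit 0) .nil) .nil))))))) 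
(.nd (nat_lit 6) (.nd (nat_lit 7) (.nd (nat_lit 8) (.nd (nat_lit 9) 
(.lf (nat_lit 499761) (.g (nat_lit 2214) (.e (nat_lit 163976) (nat_lit 30) (.e (nat_lit 573491) (nat_lit 15) (.e (nat_lit 81954) (nat_lit 23) (.e (nat_lit 98367) (nat_lit 27) (.e (nat_lit 434270) (nat_lit 38) (.e (nat_lit 655373) (nat_lit 3) .nil)))))) (.g (nat_lit 1) (.e (nat_lit 167519) (nat_lit 0) .nil) .nil))) 
(.lf (nat_lit 500273) (.g (nat_lit 4604) (.e (nat_lit 163977) (nat_lit 30) (.e (nat_lit 573485) (nat_lit 13) (.e (nat_lit 65604) (nat_lit 9) (.e (nat_lit 336028) (nat_lit 3) (.e (nat_lit 98367) (nat_lit 27) (.e (nat_lit 434209) (nat_lit 18) (.e (nat_lit 5548) (nat_lit 306) (.e (nat_lit 2601) (nat_lit 163) .nil)))))))) (.g (nat_lit 1) (.e (nat_lit 168543) (nat_lit 0) .nil) .nil)))) 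
(.nd (nat_lit 9) 
(.lf (nat_lit 500017) (.g (nat_lit 2427) (.e (nat_lit 163977) (nat_lit 30) (.e (nat_lit 573482) (nat_lit 13) (.e (nat_lit 65604) (nat_lit 9) (.e (nat_lit 336028) (nat_lit 3) (.e (nat_lit 98359) (nat_lit 26) (.e (nat_lit 426003) (nat_lit 0) (.e (nat_lit 3401) (nat_lit 211) (.e (nat_lit 647181) (nat_lit 3) .nil)))))))) (.g (nat_lit 1) (.e (nat_lit 168144) (nat_lit 0) .nil) .nil))) 
(.lf (nat_lit 500529) (.g (nat_lit 2276) (.e (nat_lit 163977) (nat_lit 30) (.e (nat_lit 573489) (nat_lit 14) (.e (nat_lit 73755) (nat_lit 8) (.e (nat_lit 557097) (nat_lit 13) (.e (nat_lit 172065) (nat_lit 3) (.e (nat_lit 204815) (nat_lit 17) (.e (nat_lit 2271) (nat_lit 149) (.e (nat_lit 761899) (nat_lit 15) .nil)))))))) (.g (nat_lit 1) (.e (nat_lit 168991) (nat_lit 0) .nil) .nil))))) 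
(.nd (nat_lit 8) (.nd (nat_lit 9) 
(.lf (nat_lit 499889) (.g (nat_lit 3150) (.e (nat_lit 163976) (nat_lit 30) (.e (nat_lit 573492) (nat_lit 15) (.e (nat_lit 81956) (nat_lit 23) (.e (nat_lit 98361) (nat_lit 26) (.e (nat_lit 426025) (nat_lit 0) (.e (nat_lit 3397) (nat_lit 211) (.e (nat_lit 647180) (nat_lit 3) .nil))))))) (.g (nat_lit 1) (.e (nat_lit 167884) (nat_lit 0) .nil) .nil))) 
(.lf (nat_lit 500401) (.g (nat_lit 4760) (.e (nat_lit 163977) (nat_lit 30) (.e (nat_lit 573487) (nat_lit 14) (.e (nat_lit 73753) (nat_lit 8) (.e (nat_lit 557103) (nat_lit 14) (.e (nat_lit 180250) (nat_lit 10) (.e (nat_lit 573475) (nat_lit 12) (.e (nat_lit 57503) (nat_lit 38) (.e (nat_lit 638995) (nat_lit 7) .nil)))))))) (.g (nat_lit 1) (.e (nat_lit 168812) (nat_lit 0) .nil) .nil)))) 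
(.nd (nat_lit 9) 
(.lf (nat_lit 500145) (.g (nat_lit 2498) (.e (nat_lit 163977) (nat_lit 30) (.e (nat_lit 573482) (nat_lit 13) (.e (nat_lit 65619) (nat_lit 10) (.e (nat_lit 344117) (nat_lit 21) (.e (nat_lit 516180) (nat_lit 15) (.e (nat_lit 475201) (nat_lit 40) (.e (nat_lit 712448) (nat_lit 3) .nil))))))) (.g (nat_lit 1) (.e (nat_lit 168287) (nat_lit 0) .nil) .nil))) 
(.lf (nat_lit 500657) (.g (nat_lit 2880) (.e (nat_lit 163977) (nat_lit 30) (.e (nat_lit 573489) (nat_lit 14) (.e (nat_lit 73755) (nat_lit 8) (.e (nat_lit 557104) (nat_lit 14) (.e (nat_lit 180245) (nat_lit 5) (.e (nat_lit 532484) (nat_lit 0) (.e (nat_lit 7936) (nat_lit 149) (.e (nat_lit 761898) (nat_lit 15) .nil)))))))) (.g (nat_lit 1) (.e (nat_lit 169205) (nat_lit 0) .nil) .nil)))))) 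
(.nd (nat_lit 7) (.nd (nat_lit 8) (.nd (nat_lit 9) 
(.lf (nat_lit 499825) (.g (nat_lit 2746) (.e (nat_lit 163976) (nat_lit 30) (.e (nat_lit 573492) (nat_lit 15) (.e (nat_lit 81956) (nat_lit 23) (.e (nat_lit 98355) (nat_lit 26) (.e (nat_lit 426444) (nat_lit 19) (.e (nat_lit 114432) (nat_lit 3) .nil)))))) (.g (nat_lit 1) (.e (nat_lit 167775) (nat_lit 0) .nil) .nil))) 
(.lf (nat_lit 500337) (.g (nat_lit 4372) (.e (nat_lit 163977) (nat_lit 30) (.e (nat_lit 573485) (nat_lit 13) (.e (nat_lit 65619) (nat_lit 10) (.e (nat_lit 344117) (nat_lit 21) (.e (nat_lit 516159) (nat_lit 10) (.e (nat_lit 434209) (nat_lit 18) (.e (nat_lit 5548) (nat_lit 306) (.e (nat_lit 2601) (nat_lit 163) .nil)))))))) (.g (nat_lit 1) (.e (nat_lit 168609) (nat_lit 0) .nil) .nil)))) 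
(.nd (nat_lit 9) 
(.lf (nat_lit 500081) (.g (nat_lit 2942) (.e (nat_lit 163977) (nat_lit 30) (.e (nat_lit 573482) (nat_lit 13) (.e (nat_lit 65619) (nat_lit 10) (.e (nat_lit 344117) (nat_lit 21) (.e (nat_lit 516151) (nat_lit 9) (.e (nat_lit 426097) (nat_lit 1) (.e (nat_lit 164346) (nat_lit 240) (.e (nat_lit 2601) (nat_lit 163) .nil)))))))) (.g (nat_lit 1) (.e (nat_lit 168223) (nat_lit 0) .nil) .nil))) 
(.lf (nat_lit 500593) (.g (nat_lit 2284) (.e (nat_lit 163977) (nat_lit 30) (.e (nat_lit 573489) (nat_lit 14) (.e (nat_lit 73755) (nat_lit 8) (.e (nat_lit 557103) (nat_lit 14) (.e (nat_lit 180244) (nat_lit 5) (.e (nat_lit 532481) (nat_lit 0) (.e (nat_lit 2264) (nat_lit 149) (.e (nat_lit 761899) (nat_lit 15) .nil)))))))) (.g (nat_lit 1) (.e (nat_lit 169097) (nat_lit 0) .nil) .nil))))) 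
(.nd (nat_lit 8) (.nd (nat_lit 9) 
(.lf (nat_lit 499953) (.g (nat_lit 3849) (.e (nat_lit 163976) (nat_lit 30) (.e (nat_lit 573493) (nat_lit 15) (.e (nat_lit 81956) (nat_lit 23) (.e (nat_lit 106240) (nat_lit 32) .nil)))) (.g (nat_lit 0) (.e (nat_lit 168042) (nat_lit 0) .nil) .nil))) 
(.lf (nat_lit 500465) (.g (nat_lit 2549) (.e (nat_lit 163977) (nat_lit 30) (.e (nat_lit 573488) (nat_lit 14) (.e (nat_lit 73755) (nat_lit 8) (.e (nat_lit 557105) (nat_lit 14) (.e (nat_lit 180252) (nat_lit 10) (.e (nat_lit 573475) (nat_lit 12) (.e (nat_lit 57503) (nat_lit 38) (.e (nat_lit 638996) (nat_lit 7) .nil)))))))) (.g (nat_lit 1) (.e (nat_lit 168883) (nat_lit 0) .nil) .nil)))) 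
(.nd (nat_lit 9) 
(.lf (nat_lit 500209) (.g (nat_lit 3123) (.e (nat_lit 163977) (nat_lit 30) (.e (nat_lit 573485) (nat_lit 13) (.e (nat_lit 65604) (nat_lit 9) (.e (nat_lit 336013) (nat_lit 2) (.e (nat_lit 90170) (nat_lit 13) (.e (nat_lit 172033) (nat_lit 0) (.e (nat_lit 3402) (nat_lit 211) (.e (nat_lit 647181) (nat_lit 3) .nil)))))))) (.g (nat_lit 1) (.e (nat_lit 168444) (nat_lit 0) .nil) .nil))) 
(.lf (nat_lit 500721) (.g (nat_lit 2992) (.e (nat_lit 163977) (nat_lit 30) (.e (nat_lit 573491) (nat_lit 15) (.e (nat_lit 81951) (nat_lit 22) (.e (nat_lit 90170) (nat_lit 13) (.e (nat_lit 172033) (nat_lit 0) (.e (nat_lit 3402) (nat_lit 211) (.e (nat_lit 647181) (nat_lit 3) .nil))))))) (.g (nat_lit 1) (.e (nat_lit 169326) (nat_lit 0) .nil) .nil))))))))) 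
(.nd (nat_lit 4) (.nd (nat_lit 5) (.nd (nat_lit 6) (.nd (nat_lit 7) (.nd (nat_lit 8) 
(.nd (nat_lit 9) 
(.lf (nat_lit 499721) (.g (nat_lit 2165) (.e (nat_lit 163976) (nat_lit 30) (.e (nat_lit 573491) (nat_lit 15) (.e (nat_lit 81954) (nat_lit 23) (.e (nat_lit 98356) (nat_lit 26) (.e (nat_lit 426362) (nat_lit 15) (.e (nat_lit 2056) (nat_lit 142) (.e (nat_lit 704589) (nat_lit 3) .nil))))))) (.g (nat_lit 1) (.e (nat_lit 167445) (nat_lit 0) .nil) .nil))) 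
(.lf (nat_lit 500233) (.g (nat_lit 4274) (.e (nat_lit 163977) (nat_lit 30) (.e (nat_lit 573485) (nat_lit 13) (.e (nat_lit 65604) (nat_lit 9) (.e (nat_lit 336013) (nat_lit 2) (.e (nat_lit 90170) (nat_lit 13) (.e (nat_lit 172061) (nat_lit 1) (.e (nat_lit 164348) (nat_lit 240) (.e (nat_lit 2611) (nat_lit 163) .nil)))))))) (.g (nat_lit 1) (.e (nat_lit 168470) (nat_lit 0) .nil) .nil)))) 
(.nd (nat_lit 9) 
(.lf (nat_lit 499977) (.g (nat_lit 2918) (.e (nat_lit 163977) (nat_lit 30) (.e (nat_lit 573482) (nat_lit 13) (.e (nat_lit 65598) (nat_lit 9) (.e (nat_lit 336013) (nat_lit 2) (.e (nat_lit 90170) (nat_lit 13) .nil))))) (.g (nat_lit 0) (.e (nat_lit 168102) (nat_lit 0) .nil) .nil))) 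
(.lf (nat_lit 500489) (.g (nat_lit 3628) (.e (nat_lit 163977) (nat_lit 30) (.e (nat_lit 573489) (nat_lit 14) (.e (nat_lit 73754) (nat_lit 8) (.e (nat_lit 557103) (nat_lit 14) (.e (nat_lit 180243) (nat_lit 5) (.e (nat_lit 532484) (nat_lit 0) (.e (nat_lit 7936) (nat_lit 149) (.e (nat_lit 761898) (nat_lit 15) .nil)))))))) (.g (nat_lit 1) (.e (nat_lit 168925) (nat_lit 0) .nil) .nil))))) 
(.nd (nat_lit 8) (.nd (nat_lit 9) 
(.lf (nat_lit 499849) (.g (nat_lit 2900) (.e (nat_lit 163976) (nat_lit 30) (.e (nat_lit 573492) (nat_lit 15) (.e (nat_lit 81956) (nat_lit 23) (.e (nat_lit 98356) (nat_lit 26) (.e (nat_lit 426399) (nat_lit 15) .nil))))) (.g (nat_lit 0) (.e (nat_lit 167806) (nat_lit 0) .nil) .nil))) 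
(.lf (nat_lit 500361) (.g (nat_lit 2831) (.e (nat_lit 163977) (nat_lit 30) (.e (nat_lit 573485) (nat_lit 13) (.e (nat_lit 65619) (nat_lit 10) (.e (nat_lit 344117) (nat_lit 21) (.e (nat_lit 516169) (nat_lit 13) (.e (nat_lit 458774) (nat_lit 18) (.e (nat_lit 5547) (nat_lit 306) (.e (nat_lit 2610) (nat_lit 163) .nil)))))))) (.g (nat_lit 1) (.e (nat_lit 168634) (nat_lit 0) .nil) .nil)))) 
(.nd (nat_lit 9) 
(.lf (nat_lit 500105) (.g (nat_lit 2857) (.e (nat_lit 163977) (nat_lit 30) (.e (nat_lit 573482) (nat_lit 13) (.e (nat_lit 65619) (nat_lit 10) (.e (nat_lit 344117) (nat_lit 21) (.e (nat_lit 516155) (nat_lit 9) (.e (nat_lit 426025) (nat_lit 0) (.e (nat_lit 3397) (nat_lit 211) (.e (nat_lit 647181) (nat_lit 3) .nil)))))))) (.g (nat_lit 1) (.e (nat_lit 168247) (nat_lit 0) .nil) .nil))) 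
(.lf (nat_lit 500617) (.g (nat_lit 3104) (.e (nat_lit 163977) (nat_lit 30) (.e (nat_lit 573489) (nat_lit 14) (.e (nat_lit 73755) (nat_lit 8) (.e (nat_lit 557103) (nat_lit 14) (.e (nat_lit 180250) (nat_lit 10) (.e (nat_lit 573475) (nat_lit 12) (.e (nat_lit 57502) (nat_lit 38) (.e (nat_lit 638996) (nat_lit 7) .nil)))))))) (.g (nat_lit 1) (.e (nat_lit 169135) (nat_lit 0) .nil) .nil)))))) 
(.nd (nat_lit 7) (.nd (nat_lit 8) (.nd (nat_lit 9) 
(.lf (nat_lit 499785) (.g (nat_lit 1734) (.e (nat_lit 163976) (nat_lit 30) (.e (nat_lit 573491) (nat_lit 15) (.e (nat_lit 81956) (nat_lit 23) (.e (nat_lit 98383) (nat_lit 32) .nil)))) (.g (nat_lit 0) (.e (nat_lit 167553) (nat_lit 0) .nil) .nil))) 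
(.lf (nat_lit 500297) (.g (nat_lit 4070) (.e (nat_lit 163977) (nat_lit 30) (.e (nat_lit 573485) (nat_lit 13) (.e (nat_lit 65619) (nat_lit 10) (.e (nat_lit 344117) (nat_lit 21) (.e (nat_lit 516151) (nat_lit 9) (.e (nat_lit 426042) (nat_lit 0) (.e (nat_lit 2458) (nat_lit 157) (.e (nat_lit 5547) (nat_lit 306) (.e (nat_lit 2611) (nat_lit 163) .nil))))))))) (.g (nat_lit 1) (.e (nat_lit 168569) (nat_lit 0) .nil) .nil)))) 
(.nd (nat_lit 9) 
(.lf (nat_lit 500041) (.g (nat_lit 3661) (.e (nat_lit 163977) (nat_lit 30) (.e (nat_lit 573482) (nat_lit 13) (.e (nat_lit 65604) (nat_lit 9) (.e (nat_lit 336028) (nat_lit 3) (.e (nat_lit 98366) (nat_lit 27) (.e (nat_lit 434202) (nat_lit 18) (.e (nat_lit 5537) (nat_lit 306) (.e (nat_lit 2611) (nat_lit 163) .nil)))))))) (.g (nat_lit 1) (.e (nat_lit 168181) (nat_lit 0) .nil) .nil))) 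
(.lf (nat_lit 500553) (.g (nat_lit 4473) (.e (nat_lit 163977) (nat_lit 30) (.e (nat_lit 573489) (nat_lit 14) (.e (nat_lit 73755) (nat_lit 8) (.e (nat_lit 557097) (nat_lit 13) (.e (nat_lit 172133) (nat_lit 15) (.e (nat_lit 1800) (nat_lit 119) (.e (nat_lit 516117) (nat_lit 1) (.e (nat_lit 164304) (nat_lit 226) (.e (nat_lit 2612) (nat_lit 163) .nil))))))))) (.g (nat_lit 1) (.e (nat_lit 169030) (nat_lit 0) .nil) .nil))))) 
(.nd (nat_lit 8) (.nd (nat_lit 9) 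
(.lf (nat_lit 499913) (.g (nat_lit 3537) (.e (nat_lit 163976) (nat_lit 30) (.e (nat_lit 573492) (nat_lit 15) (.e (nat_lit 81956) (nat_lit 23) (.e (nat_lit 98383) (nat_lit 32) (.e (nat_lit 475198) (nat_lit 40) (.e (nat_lit 704589) (nat_lit 3) .nil)))))) (.g (nat_lit 1) (.e (nat_lit 167967) (nat_lit 0) .nil) .nil))) 
(.lf (nat_lit 500425) (.g (nat_lit 3485) (.e (nat_lit 163977) (nat_lit 30) (.e (nat_lit 573487) (nat_lit 14) (.e (nat_lit 73753) (nat_lit 8) (.e (nat_lit 557105) (nat_lit 14) (.e (nat_lit 180252) (nat_lit 10) (.e (nat_lit 573475) (nat_lit 12) (.e (nat_lit 57502) (nat_lit 38) (.e (nat_lit 638995) (nat_lit 7) .nil)))))))) (.g (nat_lit 1) (.e (nat_lit 168839) (nat_lit 0) .nil) .nil)))) 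
(.nd (nat_lit 9) 
(.lf (nat_lit 500169) (.g (nat_lit 2725) (.e (nat_lit 163977) (nat_lit 30) (.e (nat_lit 573484) (nat_lit 13) (.e (nat_lit 65610) (nat_lit 10) (.e (nat_lit 344117) (nat_lit 21) (.e (nat_lit 516151) (nat_lit 9) (.e (nat_lit 426042) (nat_lit 0) (.e (nat_lit 3408) (nat_lit 212) (.e (nat_lit 655375) (nat_lit 3) .nil)))))))) (.g (nat_lit 1) (.e (nat_lit 168356) (nat_lit 0) .nil) .nil))) 
(.lf (nat_lit 500681) (.g (nat_lit 3414) (.e (nat_lit 163977) (nat_lit 30) (.e (nat_lit 573489) (nat_lit 14) (.e (nat_lit 73755) (nat_lit 8) (.e (nat_lit 557104) (nat_lit 14) (.e (nat_lit 180252) (nat_lit 10) (.e (nat_lit 573475) (nat_lit 12) (.e (nat_lit 57500) (nat_lit 37) (.e (nat_lit 630799) (nat_lit 7) .nil)))))))) (.g (nat_lit 1) (.e (nat_lit 169235) (nat_lit 0) .nil) .nil))))))) 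
(.nd (nat_lit 6) (.nd (nat_lit 7) (.nd (nat_lit 8) (.nd (nat_lit 9) 
(.lf (nat_lit 499753) (.g (nat_lit 1573) (.e (nat_lit 163976) (nat_lit 30) (.e (nat_lit 573491) (nat_lit 15) (.e (nat_lit 81954) (nat_lit 23) (.e (nat_lit 98360) (nat_lit 26) (.e (nat_lit 426025) (nat_lit 0) (.e (nat_lit 3397) (nat_lit 211) (.e (nat_lit 647180) (nat_lit 3) .nil))))))) (.g (nat_lit 1) (.e (nat_lit 167497) (nat_lit 0) .nil) .nil))) 
(.lf (nat_lit 500265) (.g (nat_lit 2816) (.e (nat_lit 163977) (nat_lit 30) (.e (nat_lit 573485) (nat_lit 13) (.e (nat_lit 65604) (nat_lit 9) (.e (nat_lit 336028) (nat_lit 3) (.e (nat_lit 98366) (nat_lit 27) (.e (nat_lit 434272) (nat_lit 38) (.e (nat_lit 655374) (nat_lit 3) .nil))))))) (.g (nat_lit 1) (.e (nat_lit 168535) (nat_lit 0) .nil) .nil)))) (.nd (nat_lit 9) 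
(.lf (nat_lit 500009) (.g (nat_lit 3057) (.e (nat_lit 163977) (nat_lit 30) (.e (nat_lit 573482) (nat_lit 13) (.e (nat_lit 65604) (nat_lit 9) (.e (nat_lit 336013) (nat_lit 2) (.e (nat_lit 90170) (nat_lit 13) (.e (nat_lit 172070) (nat_lit 4) (.e (nat_lit 229666) (nat_lit 240) (.e (nat_lit 2604) (nat_lit 163) .nil)))))))) (.g (nat_lit 1) (.e (nat_lit 168134) (nat_lit 0) .nil) .nil))) 
(.lf (nat_lit 500521) (.g (nat_lit 3075) (.e (nat_lit 163977) (nat_lit 30) (.e (nat_lit 573489) (nat_lit 14) (.e (nat_lit 73755) (nat_lit 8) (.e (nat_lit 557096) (nat_lit 13) (.e (nat_lit 172067) (nat_lit 3) (.e (nat_lit 204815) (nat_lit 17) (.e (nat_lit 2271) (nat_lit 149) (.e (nat_lit 761899) (nat_lit 15) .nil)))))))) (.g (nat_lit 1) (.e (nat_lit 168976) (nat_lit 0) .nil) .nil))))) 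
(.nd (nat_lit 8) (.nd (nat_lit 9) 
(.lf (nat_lit 499881) (.g (nat_lit 4184) (.e (nat_lit 163976) (nat_lit 30) (.e (nat_lit 573492) (nat_lit 15) (.e (nat_lit 81956) (nat_lit 23) (.e (nat_lit 98359) (nat_lit 26) (.e (nat_lit 426412) (nat_lit 15) (.e (nat_lit 2058) (nat_lit 142) (.e (nat_lit 704589) (nat_lit 3) .nil))))))) (.g (nat_lit 1) (.e (nat_lit 167870) (nat_lit 0) .nil) .nil))) 
(.lf (nat_lit 500393) (.g (nat_lit 4193) (.e (nat_lit 163977) (nat_lit 30) (.e (nat_lit 573487) (nat_lit 14) (.e (nat_lit 73753) (nat_lit 8) (.e (nat_lit 557103) (nat_lit 14) (.e (nat_lit 180250) (nat_lit 10) (.e (nat_lit 573473) (nat_lit 12) (.e (nat_lit 57503) (nat_lit 38) (.e (nat_lit 638996) (nat_lit 7) .nil)))))))) (.g (nat_lit 1) (.e (nat_lit 168802) (nat_lit 0) .nil) .nil)))) 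
(.nd (nat_lit 9) 
(.lf (nat_lit 500137) (.g (nat_lit 3166) (.e (nat_lit 163977) (nat_lit 30) (.e (nat_lit 573482) (nat_lit 13) (.e (nat_lit 65619) (nat_lit 10) (.e (nat_lit 344117) (nat_lit 21) (.e (nat_lit 516170) (nat_lit 13) (.e (nat_lit 458774) (nat_lit 18) (.e (nat_lit 5546) (nat_lit 306) (.e (nat_lit 2611) (nat_lit 163) .nil)))))))) (.g (nat_lit 1) (.e (nat_lit 168279) (nat_lit 0) .nil) .nil))) 
(.lf (nat_lit 500649) (.g (nat_lit 3396) (.e (nat_lit 163977) (nat_lit 30) (.e (nat_lit 573489) (nat_lit 14) (.e (nat_lit 73755) (nat_lit 8) (.e (nat_lit 557104) (nat_lit 14) (.e (nat_lit 180244) (nat_lit 5) (.e (nat_lit 532488) (nat_lit 0) (.e (nat_lit 7936) (nat_lit 149) (.e (nat_lit 761898) (nat_lit 15) .nil)))))))) (.g (nat_lit 1) (.e (nat_lit 169179) (nat_lit 0) .nil) .nil)))))) 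
(.nd (nat_lit 7) (.nd (nat_lit 8) (.nd (nat_lit 9) 
(.lf (nat_lit 499817) (.g (nat_lit 1877) (.e (nat_lit 163976) (nat_lit 30) (.e (nat_lit 573492) (nat_lit 15) (.e (nat_lit 81954) (nat_lit 23) (.e (nat_lit 98386) (nat_lit 32) (.e (nat_lit 475196) (nat_lit 40) .nil))))) (.g (nat_lit 0) (.e (nat_lit 167742) (nat_lit 0) .nil) .nil))) 
(.lf (nat_lit 500329) (.g (nat_lit 1901) (.e (nat_lit 163977) (nat_lit 30) (.e (nat_lit 573485) (nat_lit 13) (.e (nat_lit 65619) (nat_lit 10) (.e (nat_lit 344117) (nat_lit 21) (.e (nat_lit 524032) (nat_lit 9) (.e (nat_lit 426107) (nat_lit 1) (.e (nat_lit 164347) (nat_lit 240) (.e (nat_lit 2601) (nat_lit 163) .nil)))))))) (.g (nat_lit 1) (.e (nat_lit 168601) (nat_lit 0) .nil) .nil)))) 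
(.nd (nat_lit 9) 
(.lf (nat_lit 500073) (.g (nat_lit 4253) (.e (nat_lit 163977) (nat_lit 30) (.e (nat_lit 573482) (nat_lit 13) (.e (nat_lit 65619) (nat_lit 10) (.e (nat_lit 344117) (nat_lit 21) (.e (nat_lit 516151) (nat_lit 9) (.e (nat_lit 426042) (nat_lit 0) (.e (nat_lit 2458) (nat_lit 157) (.e (nat_lit 5546) (nat_lit 306) (.e (nat_lit 2600) (nat_lit 163) .nil))))))))) (.g (nat_lit 1) (.e (nat_lit 168215) (nat_lit 0) .nil) .nil))) 
(.lf (nat_lit 500585) (.g (nat_lit 2372) (.e (nat_lit 163977) (nat_lit 30) (.e (nat_lit 573489) (nat_lit 14) (.e (nat_lit 73755) (nat_lit 8) (.e (nat_lit 557103) (nat_lit 14) (.e (nat_lit 180242) (nat_lit 5) .nil))))) (.g (nat_lit 0) (.e (nat_lit 169084) (nat_lit 0) .nil) .nil))))) (.nd (nat_lit 8) (.nd (nat_lit 9) 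
(.lf (nat_lit 499945) (.g (nat_lit 4410) (.e (nat_lit 163976) (nat_lit 30) (.e (nat_lit 573493) (nat_lit 15) (.e (nat_lit 81956) (nat_lit 23) (.e (nat_lit 98365) (nat_lit 26) .nil)))) (.g (nat_lit 0) (.e (nat_lit 168030) (nat_lit 0) .nil) .nil))) 
(.lf (nat_lit 500457) (.g (nat_lit 3197) (.e (nat_lit 163977) (nat_lit 30) (.e (nat_lit 573488) (nat_lit 14) (.e (nat_lit 73755) (nat_lit 8) (.e (nat_lit 557103) (nat_lit 14) (.e (nat_lit 180251) (nat_lit 10) .nil))))) (.g (nat_lit 0) (.e (nat_lit 168875) (nat_lit 0) .nil) .nil)))) (.nd (nat_lit 9) 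
(.lf (nat_lit 500201) (.g (nat_lit 4695) (.e (nat_lit 163977) (nat_lit 30) (.e (nat_lit 573484) (nat_lit 13) (.e (nat_lit 65610) (nat_lit 10) (.e (nat_lit 344117) (nat_lit 21) (.e (nat_lit 516179) (nat_lit 15) (.e (nat_lit 475199) (nat_lit 40) (.e (nat_lit 704590) (nat_lit 3) .nil))))))) (.g (nat_lit 1) (.e (nat_lit 168431) (nat_lit 0) .nil) .nil))) 
(.lf (nat_lit 500713) (.g (nat_lit 3571) (.e (nat_lit 163977) (nat_lit 30) (.e (nat_lit 573489) (nat_lit 14) (.e (nat_lit 73755) (nat_lit 8) (.e (nat_lit 557105) (nat_lit 14) (.e (nat_lit 180252) (nat_lit 10) (.e (nat_lit 573478) (nat_lit 12) (.e (nat_lit 57500) (nat_lit 37) (.e (nat_lit 630800) (nat_lit 7) .nil)))))))) (.g (nat_lit 1) (.e (nat_lit 169294) (nat_lit 0) .nil) .nil)))))))) 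
(.nd (nat_lit 5) (.nd (nat_lit 6) (.nd (nat_lit 7) (.nd (nat_lit 8) (.nd (nat_lit 9) 
(.lf (nat_lit 499737) (.g (nat_lit 1934) (.e (nat_lit 163976) (nat_lit 30) (.e (nat_lit 573491) (nat_lit 15) (.e (nat_lit 81954) (nat_lit 23) (.e (nat_lit 98356) (nat_lit 26) (.e (nat_lit 433920) (nat_lit 19) (.e (nat_lit 114432) (nat_lit 3) .nil)))))) (.g (nat_lit 1) (.e (nat_lit 167461) (nat_lit 0) .nil) .nil))) 
(.lf (nat_lit 500249) (.g (nat_lit 2306) (.e (nat_lit 163977) (nat_lit 30) (.e (nat_lit 573485) (nat_lit 13) (.e (nat_lit 65604) (nat_lit 9) (.e (nat_lit 336028) (nat_lit 3) (.e (nat_lit 98361) (nat_lit 26) .nil))))) (.g (nat_lit 0) (.e (nat_lit 168516) (nat_lit 0) .nil) .nil)))) (.nd (nat_lit 9) 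
(.lf (nat_lit 499993) (.g (nat_lit 3107) (.e (nat_lit 163977) (nat_lit 30) (.e (nat_lit 573482) (nat_lit 13) (.e (nat_lit 65604) (nat_lit 9) (.e (nat_lit 336013) (nat_lit 2) (.e (nat_lit 90170) (nat_lit 13) (.e (nat_lit 172049) (nat_lit 0) (.e (nat_lit 7936) (nat_lit 211) (.e (nat_lit 647181) (nat_lit 3) .nil)))))))) (.g (nat_lit 1) (.e (nat_lit 168118) (nat_lit 0) .nil) .nil))) 
(.lf (nat_lit 500505) (.g (nat_lit 3466) (.e (nat_lit 163977) (nat_lit 30) (.e (nat_lit 573489) (nat_lit 14) (.e (nat_lit 73754) (nat_lit 8) (.e (nat_lit 557105) (nat_lit 14) (.e (nat_lit 180252) (nat_lit 10) (.e (nat_lit 573473) (nat_lit 12) (.e (nat_lit 57501) (nat_lit 37) (.e (nat_lit 630800) (nat_lit 7) .nil)))))))) (.g (nat_lit 1) (.e (nat_lit 168941) (nat_lit 0) .nil) .nil))))) 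
(.nd (nat_lit 8) (.nd (nat_lit 9) 
(.lf (nat_lit 499865) (.g (nat_lit 2111) (.e (nat_lit 163976) (nat_lit 30) (.e (nat_lit 573492) (nat_lit 15) (.e (nat_lit 81956) (nat_lit 23) (.e (nat_lit 98359) (nat_lit 26) (.e (nat_lit 426003) (nat_lit 0) .nil))))) (.g (nat_lit 0) (.e (nat_lit 167827) (nat_lit 0) .nil) .nil))) 
(.lf (nat_lit 500377) (.g (nat_lit 2842) (.e (nat_lit 163977) (nat_lit 30) (.e (nat_lit 573487) (nat_lit 14) (.e (nat_lit 73753) (nat_lit 8) (.e (nat_lit 557100) (nat_lit 13) (.e (nat_lit 172065) (nat_lit 3) (.e (nat_lit 204815) (nat_lit 17) (.e (nat_lit 2271) (nat_lit 149) (.e (nat_lit 761898) (nat_lit 15) .nil)))))))) (.g (nat_lit 1) (.e (nat_lit 168734) (nat_lit 0) .nil) .nil)))) 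
(.nd (nat_lit 9) 
(.lf (nat_lit 500121) (.g (nat_lit 2103) (.e (nat_lit 163977) (nat_lit 30) (.e (nat_lit 573482) (nat_lit 13) (.e (nat_lit 65619) (nat_lit 10) (.e (nat_lit 344117) (nat_lit 21) (.e (nat_lit 516160) (nat_lit 10) (.e (nat_lit 434209) (nat_lit 18) (.e (nat_lit 5547) (nat_lit 306) (.e (nat_lit 2600) (nat_lit 163) .nil)))))))) (.g (nat_lit 1) (.e (nat_lit 168263) (nat_lit 0) .nil) .nil))) 
(.lf (nat_lit 500633) (.g (nat_lit 2403) (.e (nat_lit 163977) (nat_lit 30) (.e (nat_lit 573489) (nat_lit 14) (.e (nat_lit 73755) (nat_lit 8) (.e (nat_lit 557104) (nat_lit 14) (.e (nat_lit 180242) (nat_lit 5) .nil))))) (.g (nat_lit 0) (.e (nat_lit 169153) (nat_lit 0) .nil) .nil)))))) (.nd (nat_lit 7) (.nd (nat_lit 8) (.nd (nat_lit 9) 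
(.lf (nat_lit 499801) (.g (nat_lit 873) (.e (nat_lit 163976) (nat_lit 30) (.e (nat_lit 573492) (nat_lit 15) (.e (nat_lit 81953) (nat_lit 22) (.e (nat_lit 90170) (nat_lit 13) .nil)))) (.g (nat_lit 0) (.e (nat_lit 167633) (nat_lit 0) .nil) .nil))) 
(.lf (nat_lit 500313) (.g (nat_lit 3583) (.e (nat_lit 163977) (nat_lit 30) (.e (nat_lit 573485) (nat_lit 13) (.e (nat_lit 65619) (nat_lit 10) (.e (nat_lit 344117) (nat_lit 21) (.e (nat_lit 516151) (nat_lit 9) (.e (nat_lit 426142) (nat_lit 4) (.e (nat_lit 229663) (nat_lit 240) (.e (nat_lit 2604) (nat_lit 163) .nil)))))))) (.g (nat_lit 1) (.e (nat_lit 168585) (nat_lit 0) .nil) .nil)))) 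
(.nd (nat_lit 9) 
(.lf (nat_lit 500057) (.g (nat_lit 2695) (.e (nat_lit 163977) (nat_lit 30) (.e (nat_lit 573482) (nat_lit 13) (.e (nat_lit 65604) (nat_lit 9) (.e (nat_lit 336028) (nat_lit 3) (.e (nat_lit 98384) (nat_lit 32) (.e (nat_lit 475201) (nat_lit 40) (.e (nat_lit 712448) (nat_lit 3) .nil))))))) (.g (nat_lit 1) (.e (nat_lit 168197) (nat_lit 0) .nil) .nil))) 
(.lf (nat_lit 500569) (.g (nat_lit 4392) (.e (nat_lit 163977) (nat_lit 30) (.e (nat_lit 573489) (nat_lit 14) (.e (nat_lit 73755) (nat_lit 8) (.e (nat_lit 557098) (nat_lit 13) (.e (nat_lit 172067) (nat_lit 3) (.e (nat_lit 204815) (nat_lit 17) (.e (nat_lit 2271) (nat_lit 149) (.e (nat_lit 761898) (nat_lit 15) .nil)))))))) (.g (nat_lit 1) (.e (nat_lit 169059) (nat_lit 0) .nil) .nil))))) 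
(.nd (nat_lit 8) (.nd (nat_lit 9) 
(.lf (nat_lit 499929) (.g (nat_lit 4090) (.e (nat_lit 163976) (nat_lit 30) (.e (nat_lit 573492) (nat_lit 15) (.e (nat_lit 81956) (nat_lit 23) (.e (nat_lit 98386) (nat_lit 32) (.e (nat_lit 475197) (nat_lit 40) (.e (nat_lit 704589) (nat_lit 3) .nil)))))) (.g (nat_lit 1) (.e (nat_lit 167983) (nat_lit 0) .nil) .nil))) 
(.lf (nat_lit 500441) (.g (nat_lit 3753) (.e (nat_lit 163977) (nat_lit 30) (.e (nat_lit 573487) (nat_lit 14) (.e (nat_lit 73754) (nat_lit 8) (.e (nat_lit 557105) (nat_lit 14) (.e (nat_lit 180252) (nat_lit 10) (.e (nat_lit 573475) (nat_lit 12) (.e (nat_lit 57504) (nat_lit 38) (.e (nat_lit 638995) (nat_lit 7) .nil)))))))) (.g (nat_lit 1) (.e (nat_lit 168856) (nat_lit 0) .nil) .nil)))) 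
(.nd (nat_lit 9) 
(.lf (nat_lit 500185) (.g (nat_lit 2798) (.e (nat_lit 163977) (nat_lit 30) (.e (nat_lit 573484) (nat_lit 13) (.e (nat_lit 65610) (nat_lit 10) (.e (nat_lit 344117) (nat_lit 21) (.e (nat_lit 516152) (nat_lit 9) (.e (nat_lit 426025) (nat_lit 0) (.e (nat_lit 3397) (nat_lit 211) (.e (nat_lit 647181) (nat_lit 3) .nil)))))))) (.g (nat_lit 1) (.e (nat_lit 168383) (nat_lit 0) .nil) .nil))) 
(.lf (nat_lit 500697) (.g (nat_lit 3507) (.e (nat_lit 163977) (nat_lit 30) (.e (nat_lit 573489) (nat_lit 14) (.e (nat_lit 73755) (nat_lit 8) (.e (nat_lit 557105) (nat_lit 14) (.e (nat_lit 180251) (nat_lit 10) (.e (nat_lit 573478) (nat_lit 12) (.e (nat_lit 57500) (nat_lit 37) (.e (nat_lit 630800) (nat_lit 7) .nil)))))))) (.g (nat_lit 1) (.e (nat_lit 169253) (nat_lit 0) .nil) .nil))))))) 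
(.nd (nat_lit 6) (.nd (nat_lit 7) (.nd (nat_lit 8) (.nd (nat_lit 9) 
(.lf (nat_lit 499769) (.g (nat_lit 2741) (.e (nat_lit 163976) (nat_lit 30) (.e (nat_lit 573491) (nat_lit 15) (.e (nat_lit 81954) (nat_lit 23) (.e (nat_lit 98384) (nat_lit 32) (.e (nat_lit 475205) (nat_lit 40) (.e (nat_lit 704588) (nat_lit 3) .nil)))))) (.g (nat_lit 1) (.e (nat_lit 167537) (nat_lit 0) .nil) .nil))) 
(.lf (nat_lit 500281) (.g (nat_lit 2014) (.e (nat_lit 163977) (nat_lit 30) (.e (nat_lit 573485) (nat_lit 13) (.e (nat_lit 65619) (nat_lit 10) (.e (nat_lit 344117) (nat_lit 21) (.e (nat_lit 516143) (nat_lit 9) .nil))))) (.g (nat_lit 0) (.e (nat_lit 168553) (nat_lit 0) .nil) .nil)))) (.nd (nat_lit 9) 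
(.lf (nat_lit 500025) (.g (nat_lit 2662) (.e (nat_lit 163977) (nat_lit 30) (.e (nat_lit 573482) (nat_lit 13) (.e (nat_lit 65604) (nat_lit 9) (.e (nat_lit 336028) (nat_lit 3) (.e (nat_lit 98359) (nat_lit 26) (.e (nat_lit 426104) (nat_lit 1) (.e (nat_lit 164347) (nat_lit 240) (.e (nat_lit 2601) (nat_lit 163) .nil)))))))) (.g (nat_lit 1) (.e (nat_lit 168159) (nat_lit 0) .nil) .nil))) 
(.lf (nat_lit 500537) (.g (nat_lit 2431) (.e (nat_lit 163977) (nat_lit 30) (.e (nat_lit 573489) (nat_lit 14) (.e (nat_lit 73755) (nat_lit 8) (.e (nat_lit 557097) (nat_lit 13) (.e (nat_lit 172066) (nat_lit 3) (.e (nat_lit 204817) (nat_lit 17) (.e (nat_lit 2272) (nat_lit 149) (.e (nat_lit 761897) (nat_lit 15) .nil)))))))) (.g (nat_lit 1) (.e (nat_lit 169003) (nat_lit 0) .nil) .nil))))) 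
(.nd (nat_lit 8) (.nd (nat_lit 9) 
(.lf (nat_lit 499897) (.g (nat_lit 2909) (.e (nat_lit 163976) (nat_lit 30) (.e (nat_lit 573492) (nat_lit 15) (.e (nat_lit 81956) (nat_lit 23) (.e (nat_lit 98363) (nat_lit 26) (.e (nat_lit 426443) (nat_lit 19) (.e (nat_lit 114432) (nat_lit 3) .nil)))))) (.g (nat_lit 1) (.e (nat_lit 167898) (nat_lit 0) .nil) .nil))) 
(.lf (nat_lit 500409) (.g (nat_lit 3898) (.e (nat_lit 163977) (nat_lit 30) (.e (nat_lit 573487) (nat_lit 14) (.e (nat_lit 73753) (nat_lit 8) (.e (nat_lit 557103) (nat_lit 14) (.e (nat_lit 180251) (nat_lit 10) (.e (nat_lit 573475) (nat_lit 12) (.e (nat_lit 57503) (nat_lit 38) (.e (nat_lit 638996) (nat_lit 7) .nil)))))))) (.g (nat_lit 1) (.e (nat_lit 168821) (nat_lit 0) .nil) .nil)))) 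
(.nd (nat_lit 9) 
(.lf (nat_lit 500153) (.g (nat_lit 3052) (.e (nat_lit 163977) (nat_lit 30) (.e (nat_lit 573484) (nat_lit 13) (.e (nat_lit 65610) (nat_lit 10) (.e (nat_lit 344117) (nat_lit 21) (.e (nat_lit 516145) (nat_lit 9) (.e (nat_lit 433920) (nat_lit 1) (.e (nat_lit 164347) (nat_lit 240) (.e (nat_lit 2601) (nat_lit 163) .nil)))))))) (.g (nat_lit 1) (.e (nat_lit 168328) (nat_lit 0) .nil) .nil))) 
(.lf (nat_lit 500665) (.g (nat_lit 4199) (.e (nat_lit 163977) (nat_lit 30) (.e (nat_lit 573489) (nat_lit 14) (.e (nat_lit 73755) (nat_lit 8) (.e (nat_lit 557104) (nat_lit 14) (.e (nat_lit 180250) (nat_lit 10) (.e (nat_lit 573475) (nat_lit 12) (.e (nat_lit 57503) (nat_lit 38) (.e (nat_lit 638995) (nat_lit 7) .nil)))))))) (.g (nat_lit 1) (.e (nat_lit 169219) (nat_lit 0) .nil) .nil)))))) 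
(.nd (nat_lit 7) (.nd (nat_lit 8) (.nd (nat_lit 9) 
(.lf (nat_lit 499833) (.g (nat_lit 2827) (.e (nat_lit 163976) (nat_lit 30) (.e (nat_lit 573492) (nat_lit 15) (.e (nat_lit 81956) (nat_lit 23) (.e (nat_lit 98356) (nat_lit 26) (.e (nat_lit 426360) (nat_lit 15) (.e (nat_lit 2049) (nat_lit 142) (.e (nat_lit 704589) (nat_lit 3) .nil))))))) (.g (nat_lit 1) (.e (nat_lit 167790) (nat_lit 0) .nil) .nil))) 
(.lf (nat_lit 500345) (.g (nat_lit 3636) (.e (nat_lit 163977) (nat_lit 30) (.e (nat_lit 573485) (nat_lit 13) (.e (nat_lit 65619) (nat_lit 10) (.e (nat_lit 344117) (nat_lit 21) (.e (nat_lit 516160) (nat_lit 10) (.e (nat_lit 434209) (nat_lit 18) (.e (nat_lit 5546) (nat_lit 306) (.e (nat_lit 2601) (nat_lit 163) .nil)))))))) (.g (nat_lit 1) (.e (nat_lit 168617) (nat_lit 0) .nil) .nil)))) 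
(.nd (nat_lit 9) 
(.lf (nat_lit 500089) (.g (nat_lit 4176) (.e (nat_lit 163977) (nat_lit 30) (.e (nat_lit 573482) (nat_lit 13) (.e (nat_lit 65619) (nat_lit 10) (.e (nat_lit 344117) (nat_lit 21) (.e (nat_lit 516151) (nat_lit 9) (.e (nat_lit 426104) (nat_lit 1) (.e (nat_lit 164348) (nat_lit 240) (.e (nat_lit 2611) (nat_lit 163) .nil)))))))) (.g (nat_lit 1) (.e (nat_lit 168231) (nat_lit 0) .nil) .nil))) 
(.lf (nat_lit 500601) (.g (nat_lit 2763) (.e (nat_lit 163977) (nat_lit 30) (.e (nat_lit 573489) (nat_lit 14) (.e (nat_lit 73755) (nat_lit 8) (.e (nat_lit 557103) (nat_lit 14) (.e (nat_lit 180244) (nat_lit 5) (.e (nat_lit 532489) (nat_lit 0) (.e (nat_lit 7936) (nat_lit 149) (.e (nat_lit 761899) (nat_lit 15) .nil)))))))) (.g (nat_lit 1) (.e (nat_lit 169111) (nat_lit 0) .nil) .nil))))) 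
(.nd (nat_lit 8) (.nd (nat_lit 9) 
(.lf (nat_lit 499961) (.g (nat_lit 1810) (.e (nat_lit 163977) (nat_lit 30) (.e (nat_lit 573481) (nat_lit 13) (.e (nat_lit 65604) (nat_lit 9) (.e (nat_lit 336013) (nat_lit 2) (.e (nat_lit 90170) (nat_lit 13) .nil))))) (.g (nat_lit 0) (.e (nat_lit 168078) (nat_lit 0) .nil) .nil))) 
(.lf (nat_lit 500473) (.g (nat_lit 3229) (.e (nat_lit 163977) (nat_lit 30) (.e (nat_lit 573489) (nat_lit 14) (.e (nat_lit 73754) (nat_lit 8) (.e (nat_lit 557100) (nat_lit 13) (.e (nat_lit 172065) (nat_lit 3) (.e (nat_lit 204821) (nat_lit 17) (.e (nat_lit 2270) (nat_lit 149) (.e (nat_lit 761899) (nat_lit 15) .nil)))))))) (.g (nat_lit 1) (.e (nat_lit 168898) (nat_lit 0) .nil) .nil)))) 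
(.nd (nat_lit 9) 
(.lf (nat_lit 500217) (.g (nat_lit 2681) (.e (nat_lit 163977) (nat_lit 30) (.e (nat_lit 573485) (nat_lit 13) (.e (nat_lit 65604) (nat_lit 9) (.e (nat_lit 336013) (nat_lit 2) (.e (nat_lit 90170) (nat_lit 13) (.e (nat_lit 172049) (nat_lit 0) (.e (nat_lit 2458) (nat_lit 157) (.e (nat_lit 5546) (nat_lit 306) (.e (nat_lit 2601) (nat_lit 163) .nil))))))))) (.g (nat_lit 1) (.e (nat_lit 168453) (nat_lit 0) .nil) .nil))) 
(.lf (nat_lit 500729) (.g (nat_lit 3230) (.e (nat_lit 163977) (nat_lit 30) (.e (nat_lit 573491) (nat_lit 15) (.e (nat_lit 81951) (nat_lit 22) (.e (nat_lit 90170) (nat_lit 13) (.e (nat_lit 172043) (nat_lit 0) (.e (nat_lit 3409) (nat_lit 212) (.e (nat_lit 655375) (nat_lit 3) .nil))))))) (.g (nat_lit 1) (.e (nat_lit 169335) (nat_lit 0) .nil) .nil)))))))))) 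
(.nd (nat_lit 3) (.nd (nat_lit 4) (.nd (nat_lit 5) (.nd (nat_lit 6) (.nd (nat_lit 7) 
(.nd (nat_lit 8) (.nd (nat_lit 9) 
(.lf (nat_lit 499717) (.g (nat_lit 2250) (.e (nat_lit 163976) (nat_lit 30) (.e (nat_lit 573491) (nat_lit 15) (.e (nat_lit 81954) (nat_lit 23) (.e (nat_lit 98356) (nat_lit 26) (.e (nat_lit 426360) (nat_lit 15) (.e (nat_lit 2063) (nat_lit 142) (.e (nat_lit 704589) (nat_lit 3) .nil))))))) (.g (nat_lit 1) (.e (nat_lit 167441) (nat_lit 0) .nil) .nil))) 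
(.lf (nat_lit 500229) (.g (nat_lit 3969) (.e (nat_lit 163977) (nat_lit 30) (.e (nat_lit 573485) (nat_lit 13) (.e (nat_lit 65604) (nat_lit 9) (.e (nat_lit 336013) (nat_lit 2) (.e (nat_lit 90170) (nat_lit 13) (.e (nat_lit 172061) (nat_lit 1) (.e (nat_lit 164347) (nat_lit 240) (.e (nat_lit 2601) (nat_lit 163) .nil)))))))) (.g (nat_lit 1) (.e (nat_lit 168466) (nat_lit 0) .nil) .nil)))) 
(.nd (nat_lit 9) 
(.lf (nat_lit 499973) (.g (nat_lit 3205) (.e (nat_lit 163977) (nat_lit 30) (.e (nat_lit 573481) (nat_lit 13) (.e (nat_lit 65619) (nat_lit 10) (.e (nat_lit 344117) (nat_lit 21) (.e (nat_lit 516159) (nat_lit 10) (.e (nat_lit 434272) (nat_lit 38) (.e (nat_lit 655375) (nat_lit 3) .nil))))))) (.g (nat_lit 1) (.e (nat_lit 168090) (nat_lit 0) .nil) .nil))) 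
(.lf (nat_lit 500485) (.g (nat_lit 2319) (.e (nat_lit 163977) (nat_lit 30) (.e (nat_lit 573489) (nat_lit 14) (.e (nat_lit 73754) (nat_lit 8) (.e (nat_lit 557101) (nat_lit 13) (.e (nat_lit 172066) (nat_lit 3) (.e (nat_lit 204817) (nat_lit 17) (.e (nat_lit 7936) (nat_lit 149) (.e (nat_lit 761899) (nat_lit 15) .nil)))))))) (.g (nat_lit 1) (.e (nat_lit 168920) (nat_lit 0) .nil) .nil))))) 
(.nd (nat_lit 8) (.nd (nat_lit 9) 
(.lf (nat_lit 499845) (.g (nat_lit 3377) (.e (nat_lit 163976) (nat_lit 30) (.e (nat_lit 573492) (nat_lit 15) (.e (nat_lit 81956) (nat_lit 23) (.e (nat_lit 98356) (nat_lit 26) (.e (nat_lit 426374) (nat_lit 15) (.e (nat_lit 2057) (nat_lit 142) (.e (nat_lit 704589) (nat_lit 3) .nil))))))) (.g (nat_lit 1) (.e (nat_lit 167802) (nat_lit 0) .nil) .nil))) 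
(.lf (nat_lit 500357) (.g (nat_lit 2574) (.e (nat_lit 163977) (nat_lit 30) (.e (nat_lit 573485) (nat_lit 13) (.e (nat_lit 65619) (nat_lit 10) (.e (nat_lit 344117) (nat_lit 21) (.e (nat_lit 516161) (nat_lit 10) (.e (nat_lit 434209) (nat_lit 18) (.e (nat_lit 5548) (nat_lit 306) (.e (nat_lit 2610) (nat_lit 163) .nil)))))))) (.g (nat_lit 1) (.e (nat_lit 168629) (nat_lit 0) .nil) .nil)))) 
(.nd (nat_lit 9) 
(.lf (nat_lit 500101) (.g (nat_lit 2469) (.e (nat_lit 163977) (nat_lit 30) (.e (nat_lit 573482) (nat_lit 13) (.e (nat_lit 65619) (nat_lit 10) (.e (nat_lit 344117) (nat_lit 21) (.e (nat_lit 516153) (nat_lit 9) .nil))))) (.g (nat_lit 0) (.e (nat_lit 168243) (nat_lit 0) .nil) .nil))) 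
(.lf (nat_lit 500613) (.g (nat_lit 3410) (.e (nat_lit 163977) (nat_lit 30) (.e (nat_lit 573489) (nat_lit 14) (.e (nat_lit 73755) (nat_lit 8) (.e (nat_lit 557103) (nat_lit 14) (.e (nat_lit 180250) (nat_lit 10) (.e (nat_lit 573475) (nat_lit 12) (.e (nat_lit 57500) (nat_lit 37) (.e (nat_lit 630799) (nat_lit 7) .nil)))))))) (.g (nat_lit 1) (.e (nat_lit 169131) (nat_lit 0) .nil) .nil)))))) 
(.nd (nat_lit 7) (.nd (nat_lit 8) (.nd (nat_lit 9) 
(.lf (nat_lit 499781) (.g (nat_lit 2096) (.e (nat_lit 163976) (nat_lit 30) (.e (nat_lit 573491) (nat_lit 15) (.e (nat_lit 81955) (nat_lit 23) (.e (nat_lit 98384) (nat_lit 32) (.e (nat_lit 475201) (nat_lit 40) .nil))))) (.g (nat_lit 0) (.e (nat_lit 167549) (nat_lit 0) .nil) .nil))) 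
(.lf (nat_lit 500293) (.g (nat_lit 1858) (.e (nat_lit 163977) (nat_lit 30) (.e (nat_lit 573485) (nat_lit 13) (.e (nat_lit 65619) (nat_lit 10) (.e (nat_lit 344117) (nat_lit 21) (.e (nat_lit 516151) (nat_lit 9) .nil))))) (.g (nat_lit 0) (.e (nat_lit 168565) (nat_lit 0) .nil) .nil)))) (.nd (nat_lit 9) 
(.lf (nat_lit 500037) (.g (nat_lit 1849) (.e (nat_lit 163977) (nat_lit 30) (.e (nat_lit 573482) (nat_lit 13) (.e (nat_lit 65604) (nat_lit 9) (.e (nat_lit 336028) (nat_lit 3) (.e (nat_lit 106240) (nat_lit 26) .nil))))) (.g (nat_lit 0) (.e (nat_lit 168176) (nat_lit 0) .nil) .nil))) 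
(.lf (nat_lit 500549) (.g (nat_lit 2929) (.e (nat_lit 163977) (nat_lit 30) (.e (nat_lit 573489) (nat_lit 14) (.e (nat_lit 73755) (nat_lit 8) (.e (nat_lit 557097) (nat_lit 13) (.e (nat_lit 172067) (nat_lit 3) (.e (nat_lit 204817) (nat_lit 17) (.e (nat_lit 2272) (nat_lit 149) (.e (nat_lit 761897) (nat_lit 15) .nil)))))))) (.g (nat_lit 1) (.e (nat_lit 169023) (nat_lit 0) .nil) .nil))))) 
(.nd (nat_lit 8) (.nd (nat_lit 9) 
(.lf (nat_lit 499909) (.g (nat_lit 1246) (.e (nat_lit 163976) (nat_lit 30) (.e (nat_lit 573492) (nat_lit 15) (.e (nat_lit 81956) (nat_lit 23) (.e (nat_lit 98368) (nat_lit 27) .nil)))) (.g (nat_lit 0) (.e (nat_lit 167939) (nat_lit 0) .nil) .nil))) 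
(.lf (nat_lit 500421) (.g (nat_lit 4388) (.e (nat_lit 163977) (nat_lit 30) (.e (nat_lit 573487) (nat_lit 14) (.e (nat_lit 73753) (nat_lit 8) (.e (nat_lit 557105) (nat_lit 14) (.e (nat_lit 180252) (nat_lit 10) (.e (nat_lit 573473) (nat_lit 12) (.e (nat_lit 57504) (nat_lit 38) (.e (nat_lit 638995) (nat_lit 7) .nil)))))))) (.g (nat_lit 1) (.e (nat_lit 168835) (nat_lit 0) .nil) .nil)))) 
(.nd (nat_lit 9) 
(.lf (nat_lit 500165) (.g (nat_lit 2748) (.e (nat_lit 163977) (nat_lit 30) (.e (nat_lit 573484) (nat_lit 13) (.e (nat_lit 65610) (nat_lit 10) (.e (nat_lit 344117) (nat_lit 21) (.e (nat_lit 516151) (nat_lit 9) (.e (nat_lit 426003) (nat_lit 0) (.e (nat_lit 3402) (nat_lit 211) (.e (nat_lit 647181) (nat_lit 3) .nil)))))))) (.g (nat_lit 1) (.e (nat_lit 168341) (nat_lit 0) .nil) .nil))) 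
(.lf (nat_lit 500677) (.g (nat_lit 4280) (.e (nat_lit 163977) (nat_lit 30) (.e (nat_lit 573489) (nat_lit 14) (.e (nat_lit 73755) (nat_lit 8) (.e (nat_lit 557104) (nat_lit 14) (.e (nat_lit 180252) (nat_lit 10) (.e (nat_lit 573473) (nat_lit 12) (.e (nat_lit 57503) (nat_lit 38) (.e (nat_lit 638995) (nat_lit 7) .nil)))))))) (.g (nat_lit 1) (.e (nat_lit 169231) (nat_lit 0) .nil) .nil))))))) 
(.nd (nat_lit 6) (.nd (nat_lit 7) (.nd (nat_lit 8) (.nd (nat_lit 9) 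
(.lf (nat_lit 499749) (.g (nat_lit 2107) (.e (nat_lit 163976) (nat_lit 30) (.e (nat_lit 573491) (nat_lit 15) (.e (nat_lit 81954) (nat_lit 23) (.e (nat_lit 98359) (nat_lit 26) (.e (nat_lit 426410) (nat_lit 15) (.e (nat_lit 2056) (nat_lit 142) (.e (nat_lit 704589) (nat_lit 3) .nil))))))) (.g (nat_lit 1) (.e (nat_lit 167491) (nat_lit 0) .nil) .nil))) 
(.lf (nat_lit 500261) (.g (nat_lit 4208) (.e (nat_lit 163977) (nat_lit 30) (.e (nat_lit 573485) (nat_lit 13) (.e (nat_lit 65604) (nat_lit 9) (.e (nat_lit 336028) (nat_lit 3) (.e (nat_lit 98366) (nat_lit 27) (.e (nat_lit 434209) (nat_lit 18) (.e (nat_lit 5547) (nat_lit 306) (.e (nat_lit 2611) (nat_lit 163) .nil)))))))) (.g (nat_lit 1) (.e (nat_lit 168531) (nat_lit 0) .nil) .nil)))) 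
(.nd (nat_lit 9) 
(.lf (nat_lit 500005) (.g (nat_lit 3293) (.e (nat_lit 163977) (nat_lit 30) (.e (nat_lit 573482) (nat_lit 13) (.e (nat_lit 65604) (nat_lit 9) (.e (nat_lit 336013) (nat_lit 2) (.e (nat_lit 90170) (nat_lit 13) (.e (nat_lit 172068) (nat_lit 4) (.e (nat_lit 229665) (nat_lit 240) (.e (nat_lit 2612) (nat_lit 163) .nil)))))))) (.g (nat_lit 1) (.e (nat_lit 168130) (nat_lit 0) .nil) .nil))) 
(.lf (nat_lit 500517) (.g (nat_lit 4677) (.e (nat_lit 163977) (nat_lit 30) (.e (nat_lit 573489) (nat_lit 14) (.e (nat_lit 73754) (nat_lit 8) (.e (nat_lit 557105) (nat_lit 14) (.e (nat_lit 180252) (nat_lit 10) (.e (nat_lit 573475) (nat_lit 12) (.e (nat_lit 57504) (nat_lit 38) (.e (nat_lit 638995) (nat_lit 7) .nil)))))))) (.g (nat_lit 1) (.e (nat_lit 168953) (nat_lit 0) .nil) .nil))))) 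
(.nd (nat_lit 8) (.nd (nat_lit 9) 
(.lf (nat_lit 499877) (.g (nat_lit 2132) (.e (nat_lit 163976) (nat_lit 30) (.e (nat_lit 573492) (nat_lit 15) (.e (nat_lit 81956) (nat_lit 23) (.e (nat_lit 98359) (nat_lit 26) (.e (nat_lit 426396) (nat_lit 15) .nil))))) (.g (nat_lit 0) (.e (nat_lit 167866) (nat_lit 0) .nil) .nil))) 
(.lf (nat_lit 500389) (.g (nat_lit 2604) (.e (nat_lit 163977) (nat_lit 30) (.e (nat_lit 573487) (nat_lit 14) (.e (nat_lit 73753) (nat_lit 8) (.e (nat_lit 557103) (nat_lit 14) (.e (nat_lit 180244) (nat_lit 5) (.e (nat_lit 532484) (nat_lit 0) (.e (nat_lit 2271) (nat_lit 149) (.e (nat_lit 761898) (nat_lit 15) .nil)))))))) (.g (nat_lit 1) (.e (nat_lit 168793) (nat_lit 0) .nil) .nil)))) 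
(.nd (nat_lit 9) 
(.lf (nat_lit 500133) (.g (nat_lit 3407) (.e (nat_lit 163977) (nat_lit 30) (.e (nat_lit 573482) (nat_lit 13) (.e (nat_lit 65619) (nat_lit 10) (.e (nat_lit 344117) (nat_lit 21) (.e (nat_lit 516169) (nat_lit 13) (.e (nat_lit 458774) (nat_lit 18) (.e (nat_lit 5547) (nat_lit 306) (.e (nat_lit 2601) (nat_lit 163) .nil)))))))) (.g (nat_lit 1) (.e (nat_lit 168275) (nat_lit 0) .nil) .nil))) 
(.lf (nat_lit 500645) (.g (nat_lit 3286) (.e (nat_lit 163977) (nat_lit 30) (.e (nat_lit 573489) (nat_lit 14) (.e (nat_lit 73755) (nat_lit 8) (.e (nat_lit 557104) (nat_lit 14) (.e (nat_lit 180244) (nat_lit 5) (.e (nat_lit 532484) (nat_lit 0) (.e (nat_lit 2271) (nat_lit 149) (.e (nat_lit 761899) (nat_lit 15) .nil)))))))) (.g (nat_lit 1) (.e (nat_lit 169172) (nat_lit 0) .nil) .nil)))))) 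
(.nd (nat_lit 7) (.nd (nat_lit 8) (.nd (nat_lit 9) 
(.lf (nat_lit 499813) (.g (nat_lit 1663) (.e (nat_lit 163976) (nat_lit 30) (.e (nat_lit 573492) (nat_lit 15) (.e (nat_lit 81954) (nat_lit 23) (.e (nat_lit 98383) (nat_lit 32) (.e (nat_lit 475198) (nat_lit 40) (.e (nat_lit 704589) (nat_lit 3) .nil)))))) (.g (nat_lit 1) (.e (nat_lit 167738) (nat_lit 0) .nil) .nil))) 
(.lf (nat_lit 500325) (.g (nat_lit 2694) (.e (nat_lit 163977) (nat_lit 30) (.e (nat_lit 573485) (nat_lit 13) (.e (nat_lit 65619) (nat_lit 10) (.e (nat_lit 344117) (nat_lit 21) (.e (nat_lit 516153) (nat_lit 9) (.e (nat_lit 426144) (nat_lit 4) (.e (nat_lit 229663) (nat_lit 240) (.e (nat_lit 2612) (nat_lit 163) .nil)))))))) (.g (nat_lit 1) (.e (nat_lit 168597) (nat_lit 0) .nil) .nil)))) 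
(.nd (nat_lit 9) 
(.lf (nat_lit 500069) (.g (nat_lit 2178) (.e (nat_lit 163977) (nat_lit 30) (.e (nat_lit 573482) (nat_lit 13) (.e (nat_lit 65619) (nat_lit 10) (.e (nat_lit 344117) (nat_lit 21) (.e (nat_lit 516147) (nat_lit 9) (.e (nat_lit 426442) (nat_lit 19) (.e (nat_lit 114432) (nat_lit 3) .nil))))))) (.g (nat_lit 1) (.e (nat_lit 168211) (nat_lit 0) .nil) .nil))) 
(.lf (nat_lit 500581) (.g (nat_lit 2553) (.e (nat_lit 163977) (nat_lit 30) (.e (nat_lit 573489) (nat_lit 14) (.e (nat_lit 73755) (nat_lit 8) (.e (nat_lit 557100) (nat_lit 13) .nil)))) (.g (nat_lit 0) (.e (nat_lit 169078) (nat_lit 0) .nil) .nil))))) (.nd (nat_lit 8) (.nd (nat_lit 9) 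
(.lf (nat_lit 499941) (.g (nat_lit 3908) (.e (nat_lit 163976) (nat_lit 30) (.e (nat_lit 573493) (nat_lit 15) (.e (nat_lit 81956) (nat_lit 23) (.e (nat_lit 98358) (nat_lit 26) .nil)))) (.g (nat_lit 0) (.e (nat_lit 168025) (nat_lit 0) .nil) .nil))) 
(.lf (nat_lit 500453) (.g (nat_lit 3130) (.e (nat_lit 163977) (nat_lit 30) (.e (nat_lit 573488) (nat_lit 14) (.e (nat_lit 73755) (nat_lit 8) (.e (nat_lit 557098) (nat_lit 13) (.e (nat_lit 179968) (nat_lit 18) .nil))))) (.g (nat_lit 0) (.e (nat_lit 168871) (nat_lit 0) .nil) .nil)))) (.nd (nat_lit 9) 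
(.lf (nat_lit 500197) (.g (nat_lit 4322) (.e (nat_lit 163977) (nat_lit 30) (.e (nat_lit 573484) (nat_lit 13) (.e (nat_lit 65610) (nat_lit 10) (.e (nat_lit 344117) (nat_lit 21) (.e (nat_lit 516160) (nat_lit 10) (.e (nat_lit 434272) (nat_lit 38) (.e (nat_lit 655374) (nat_lit 3) .nil))))))) (.g (nat_lit 1) (.e (nat_lit 168410) (nat_lit 0) .nil) .nil))) 
(.lf (nat_lit 500709) (.g (nat_lit 5532) (.e (nat_lit 163977) (nat_lit 30) (.e (nat_lit 573489) (nat_lit 14) (.e (nat_lit 73755) (nat_lit 8) (.e (nat_lit 557105) (nat_lit 14) (.e (nat_lit 180252) (nat_lit 10) (.e (nat_lit 573475) (nat_lit 12) (.e (nat_lit 57503) (nat_lit 38) (.e (nat_lit 638996) (nat_lit 7) .nil)))))))) (.g (nat_lit 1) (.e (nat_lit 169290) (nat_lit 0) .nil) .nil)))))))) 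
(.nd (nat_lit 5) (.nd (nat_lit 6) (.nd (nat_lit 7) (.nd (nat_lit 8) (.nd (nat_lit 9) 
(.lf (nat_lit 499733) (.g (nat_lit 2171) (.e (nat_lit 163976) (nat_lit 30) (.e (nat_lit 573491) (nat_lit 15) (.e (nat_lit 81954) (nat_lit 23) (.e (nat_lit 98356) (nat_lit 26) (.e (nat_lit 426439) (nat_lit 19) (.e (nat_lit 114432) (nat_lit 3) .nil)))))) (.g (nat_lit 1) (.e (nat_lit 167457) (nat_lit 0) .nil) .nil))) 
(.lf (nat_lit 500245) (.g (nat_lit 2535) (.e (nat_lit 163977) (nat_lit 30) (.e (nat_lit 573485) (nat_lit 13) (.e (nat_lit 65604) (nat_lit 9) (.e (nat_lit 336028) (nat_lit 3) (.e (nat_lit 98359) (nat_lit 26) (.e (nat_lit 426142) (nat_lit 4) (.e (nat_lit 229666) (nat_lit 240) (.e (nat_lit 2604) (nat_lit 163) .nil)))))))) (.g (nat_lit 1) (.e (nat_lit 168508) (nat_lit 0) .nil) .nil)))) 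
(.nd (nat_lit 9) 
(.lf (nat_lit 499989) (.g (nat_lit 3797) (.e (nat_lit 163977) (nat_lit 30) (.e (nat_lit 573482) (nat_lit 13) (.e (nat_lit 65604) (nat_lit 9) (.e (nat_lit 336013) (nat_lit 2) (.e (nat_lit 90170) (nat_lit 13) (.e (nat_lit 172046) (nat_lit 0) (.e (nat_lit 2478) (nat_lit 157) (.e (nat_lit 5548) (nat_lit 306) (.e (nat_lit 2611) (nat_lit 163) .nil))))))))) (.g (nat_lit 1) (.e (nat_lit 168114) (nat_lit 0) .nil) .nil))) 
(.lf (nat_lit 500501) (.g (nat_lit 2905) (.e (nat_lit 163977) (nat_lit 30) (.e (nat_lit 573489) (nat_lit 14) (.e (nat_lit 73754) (nat_lit 8) (.e (nat_lit 557105) (nat_lit 14) (.e (nat_lit 180251) (nat_lit 10) (.e (nat_lit 573478) (nat_lit 12) (.e (nat_lit 57500) (nat_lit 37) (.e (nat_lit 630800) (nat_lit 7) .nil)))))))) (.g (nat_lit 1) (.e (nat_lit 168937) (nat_lit 0) .nil) .nil))))) 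
(.nd (nat_lit 8) (.nd (nat_lit 9) 
(.lf (nat_lit 499861) (.g (nat_lit 2046) (.e (nat_lit 163976) (nat_lit 30) (.e (nat_lit 573492) (nat_lit 15) (.e (nat_lit 81956) (nat_lit 23) (.e (nat_lit 98358) (nat_lit 26) .nil)))) (.g (nat_lit 0) (.e (nat_lit 167823) (nat_lit 0) .nil) .nil))) 
(.lf (nat_lit 500373) (.g (nat_lit 3797) (.e (nat_lit 163977) (nat_lit 30) (.e (nat_lit 573487) (nat_lit 14) (.e (nat_lit 73753) (nat_lit 8) (.e (nat_lit 557098) (nat_lit 13) (.e (nat_lit 172067) (nat_lit 3) (.e (nat_lit 204815) (nat_lit 17) (.e (nat_lit 2271) (nat_lit 149) (.e (nat_lit 761898) (nat_lit 15) .nil)))))))) (.g (nat_lit 1) (.e (nat_lit 168720) (nat_lit 0) .nil) .nil)))) 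
(.nd (nat_lit 9) 
(.lf (nat_lit 500117) (.g (nat_lit 3005) (.e (nat_lit 163977) (nat_lit 30) (.e (nat_lit 573482) (nat_lit 13) (.e (nat_lit 65619) (nat_lit 10) (.e (nat_lit 344117) (nat_lit 21) (.e (nat_lit 516159) (nat_lit 10) (.e (nat_lit 434272) (nat_lit 38) (.e (nat_lit 655374) (nat_lit 3) .nil))))))) (.g (nat_lit 1) (.e (nat_lit 168259) (nat_lit 0) .nil) .nil))) 
(.lf (nat_lit 500629) (.g (nat_lit 4655) (.e (nat_lit 163977) (nat_lit 30) (.e (nat_lit 573489) (nat_lit 14) (.e (nat_lit 73755) (nat_lit 8) (.e (nat_lit 557103) (nat_lit 14) (.e (nat_lit 180251) (nat_lit 10) (.e (nat_lit 573475) (nat_lit 12) (.e (nat_lit 57503) (nat_lit 38) (.e (nat_lit 638995) (nat_lit 7) .nil)))))))) (.g (nat_lit 1) (.e (nat_lit 169147) (nat_lit 0) .nil) .nil)))))) 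
(.nd (nat_lit 7) (.nd (nat_lit 8) (.nd (nat_lit 9) 
(.lf (nat_lit 499797) (.g (nat_lit 4211) (.e (nat_lit 163976) (nat_lit 30) (.e (nat_lit 573492) (nat_lit 15) (.e (nat_lit 81953) (nat_lit 22) (.e (nat_lit 90167) (nat_lit 13) (.e (nat_lit 172138) (nat_lit 15) .nil))))) (.g (nat_lit 0) (.e (nat_lit 167627) (nat_lit 0) .nil) .nil))) 
(.lf (nat_lit 500309) (.g (nat_lit 3919) (.e (nat_lit 163977) (nat_lit 30) (.e (nat_lit 573485) (nat_lit 13) (.e (nat_lit 65619) (nat_lit 10) (.e (nat_lit 344117) (nat_lit 21) (.e (nat_lit 516151) (nat_lit 9) (.e (nat_lit 426104) (nat_lit 1) (.e (nat_lit 164347) (nat_lit 240) (.e (nat_lit 2601) (nat_lit 163) .nil)))))))) (.g (nat_lit 1) (.e (nat_lit 168581) (nat_lit 0) .nil) .nil)))) 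
(.nd (nat_lit 9) 
(.lf (nat_lit 500053) (.g (nat_lit 4706) (.e (nat_lit 163977) (nat_lit 30) (.e (nat_lit 573482) (nat_lit 13) (.e (nat_lit 65604) (nat_lit 9) (.e (nat_lit 336028) (nat_lit 3) (.e (nat_lit 98367) (nat_lit 27) (.e (nat_lit 434209) (nat_lit 18) (.e (nat_lit 5548) (nat_lit 306) (.e (nat_lit 2601) (nat_lit 163) .nil)))))))) (.g (nat_lit 1) (.e (nat_lit 168193) (nat_lit 0) .nil) .nil))) 
(.lf (nat_lit 500565) (.g (nat_lit 3362) (.e (nat_lit 163977) (nat_lit 30) (.e (nat_lit 573489) (nat_lit 14) (.e (nat_lit 73755) (nat_lit 8) (.e (nat_lit 557098) (nat_lit 13) (.e (nat_lit 172066) (nat_lit 3) (.e (nat_lit 204817) (nat_lit 17) (.e (nat_lit 7936) (nat_lit 149) (.e (nat_lit 761898) (nat_lit 15) .nil)))))))) (.g (nat_lit 1) (.e (nat_lit 169054) (nat_lit 0) .nil) .nil))))) 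
(.nd (nat_lit 8) (.nd (nat_lit 9) 
(.lf (nat_lit 499925) (.g (nat_lit 3810) (.e (nat_lit 163976) (nat_lit 30) (.e (nat_lit 573492) (nat_lit 15) (.e (nat_lit 81956) (nat_lit 23) (.e (nat_lit 98385) (nat_lit 32) (.e (nat_lit 475197) (nat_lit 40) (.e (nat_lit 704589) (nat_lit 3) .nil)))))) (.g (nat_lit 1) (.e (nat_lit 167979) (nat_lit 0) .nil) .nil))) 
(.lf (nat_lit 500437) (.g (nat_lit 2849) (.e (nat_lit 163977) (nat_lit 30) (.e (nat_lit 573487) (nat_lit 14) (.e (nat_lit 73754) (nat_lit 8) (.e (nat_lit 557105) (nat_lit 14) (.e (nat_lit 180252) (nat_lit 10) (.e (nat_lit 573475) (nat_lit 12) (.e (nat_lit 57500) (nat_lit 37) (.e (nat_lit 630800) (nat_lit 7) .nil)))))))) (.g (nat_lit 1) (.e (nat_lit 168852) (nat_lit 0) .nil) .nil)))) 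
(.nd (nat_lit 9) 
(.lf (nat_lit 500181) (.g (nat_lit 2717) (.e (nat_lit 163977) (nat_lit 30) (.e (nat_lit 573484) (nat_lit 13) (.e (nat_lit 65610) (nat_lit 10) (.e (nat_lit 344117) (nat_lit 21) (.e (nat_lit 516151) (nat_lit 9) (.e (nat_lit 433920) (nat_lit 19) (.e (nat_lit 114432) (nat_lit 3) .nil))))))) (.g (nat_lit 1) (.e (nat_lit 168379) (nat_lit 0) .nil) .nil))) 
(.lf (nat_lit 500693) (.g (nat_lit 2271) (.e (nat_lit 163977) (nat_lit 30) (.e (nat_lit 573489) (nat_lit 14) (.e (nat_lit 73755) (nat_lit 8) (.e (nat_lit 557105) (nat_lit 14) (.e (nat_lit 180251) (nat_lit 10) (.e (nat_lit 573477) (nat_lit 12) (.e (nat_lit 57500) (nat_lit 37) (.e (nat_lit 630800) (nat_lit 7) .nil)))))))) (.g (nat_lit 1) (.e (nat_lit 169249) (nat_lit 0) .nil) .nil))))))) 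
(.nd (nat_lit 6) (.nd (nat_lit 7) (.nd (nat_lit 8) (.nd (nat_lit 9) 
(.lf (nat_lit 499765) (.g (nat_lit 2812) (.e (nat_lit 163976) (nat_lit 30) (.e (nat_lit 573491) (nat_lit 15) (.e (nat_lit 81954) (nat_lit 23) (.e (nat_lit 98383) (nat_lit 32) (.e (nat_lit 475199) (nat_lit 40) (.e (nat_lit 704589) (nat_lit 3) .nil)))))) (.g (nat_lit 1) (.e (nat_lit 167533) (nat_lit 0) .nil) .nil))) 
(.lf (nat_lit 500277) (.g (nat_lit 3740) (.e (nat_lit 163977) (nat_lit 30) (.e (nat_lit 573485) (nat_lit 13) (.e (nat_lit 65604) (nat_lit 9) (.e (nat_lit 336028) (nat_lit 3) (.e (nat_lit 98367) (nat_lit 27) (.e (nat_lit 434272) (nat_lit 38) (.e (nat_lit 655374) (nat_lit 3) .nil))))))) (.g (nat_lit 1) (.e (nat_lit 168547) (nat_lit 0) .nil) .nil)))) (.nd (nat_lit 9) 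
(.lf (nat_lit 500021) (.g (nat_lit 2593) (.e (nat_lit 163977) (nat_lit 30) (.e (nat_lit 573482) (nat_lit 13) (.e (nat_lit 65604) (nat_lit 9) (.e (nat_lit 336028) (nat_lit 3) (.e (nat_lit 98359) (nat_lit 26) (.e (nat_lit 426097) (nat_lit 1) (.e (nat_lit 164348) (nat_lit 240) (.e (nat_lit 2600) (nat_lit 163) .nil)))))))) (.g (nat_lit 1) (.e (nat_lit 168154) (nat_lit 0) .nil) .nil))) 
(.lf (nat_lit 500533) (.g (nat_lit 3008) (.e (nat_lit 163977) (nat_lit 30) (.e (nat_lit 573489) (nat_lit 14) (.e (nat_lit 73755) (nat_lit 8) (.e (nat_lit 557097) (nat_lit 13) (.e (nat_lit 172065) (nat_lit 3) (.e (nat_lit 204821) (nat_lit 17) (.e (nat_lit 2264) (nat_lit 149) (.e (nat_lit 761899) (nat_lit 15) .nil)))))))) (.g (nat_lit 1) (.e (nat_lit 168997) (nat_lit 0) .nil) .nil))))) 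
(.nd (nat_lit 8) (.nd (nat_lit 9) 
(.lf (nat_lit 499893) (.g (nat_lit 2071) (.e (nat_lit 163976) (nat_lit 30) (.e (nat_lit 573492) (nat_lit 15) (.e (nat_lit 81956) (nat_lit 23) (.e (nat_lit 98363) (nat_lit 26) .nil)))) (.g (nat_lit 0) (.e (nat_lit 167891) (nat_lit 0) .nil) .nil))) 
(.lf (nat_lit 500405) (.g (nat_lit 3454) (.e (nat_lit 163977) (nat_lit 30) (.e (nat_lit 573487) (nat_lit 14) (.e (nat_lit 73753) (nat_lit 8) (.e (nat_lit 557103) (nat_lit 14) (.e (nat_lit 180250) (nat_lit 10) (.e (nat_lit 573477) (nat_lit 12) (.e (nat_lit 57502) (nat_lit 38) (.e (nat_lit 638996) (nat_lit 7) .nil)))))))) (.g (nat_lit 1) (.e (nat_lit 168816) (nat_lit 0) .nil) .nil)))) 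
(.nd (nat_lit 9) 
(.lf (nat_lit 500149) (.g (nat_lit 2673) (.e (nat_lit 163977) (nat_lit 30) (.e (nat_lit 573484) (nat_lit 13) (.e (nat_lit 65610) (nat_lit 10) (.e (nat_lit 344117) (nat_lit 21) (.e (nat_lit 516143) (nat_lit 9) (.e (nat_lit 426109) (nat_lit 1) (.e (nat_lit 164346) (nat_lit 240) (.e (nat_lit 2610) (nat_lit 163) .nil)))))))) (.g (nat_lit 1) (.e (nat_lit 168313) (nat_lit 0) .nil) .nil))) 
(.lf (nat_lit 500661) (.g (nat_lit 3285) (.e (nat_lit 163977) (nat_lit 30) (.e (nat_lit 573489) (nat_lit 14) (.e (nat_lit 73755) (nat_lit 8) (.e (nat_lit 557104) (nat_lit 14) (.e (nat_lit 180250) (nat_lit 10) (.e (nat_lit 573473) (nat_lit 12) (.e (nat_lit 57503) (nat_lit 38) (.e (nat_lit 638996) (nat_lit 7) .nil)))))))) (.g (nat_lit 1) (.e (nat_lit 169215) (nat_lit 0) .nil) .nil)))))) 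
(.nd (nat_lit 7) (.nd (nat_lit 8) (.nd (nat_lit 9) 
(.lf (nat_lit 499829) (.g (nat_lit 3015) (.e (nat_lit 163976) (nat_lit 30) (.e (nat_lit 573492) (nat_lit 15) (.e (nat_lit 81956) (nat_lit 23) (.e (nat_lit 98356) (nat_lit 26) (.e (nat_lit 426354) (nat_lit 15) (.e (nat_lit 2064) (nat_lit 142) (.e (nat_lit 704589) (nat_lit 3) .nil))))))) (.g (nat_lit 1) (.e (nat_lit 167786) (nat_lit 0) .nil) .nil))) 
(.lf (nat_lit 500341) (.g (nat_lit 2921) (.e (nat_lit 163977) (nat_lit 30) (.e (nat_lit 573485) (nat_lit 13) (.e (nat_lit 65619) (nat_lit 10) (.e (nat_lit 344117) (nat_lit 21) (.e (nat_lit 516159) (nat_lit 10) (.e (nat_lit 434272) (nat_lit 38) (.e (nat_lit 655374) (nat_lit 3) .nil))))))) (.g (nat_lit 1) (.e (nat_lit 168613) (nat_lit 0) .nil) .nil)))) (.nd (nat_lit 9) 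
(.lf (nat_lit 500085) (.g (nat_lit 4335) (.e (nat_lit 163977) (nat_lit 30) (.e (nat_lit 573482) (nat_lit 13) (.e (nat_lit 65619) (nat_lit 10) (.e (nat_lit 344117) (nat_lit 21) (.e (nat_lit 516151) (nat_lit 9) (.e (nat_lit 426097) (nat_lit 1) (.e (nat_lit 164348) (nat_lit 240) (.e (nat_lit 2601) (nat_lit 163) .nil)))))))) (.g (nat_lit 1) (.e (nat_lit 168227) (nat_lit 0) .nil) .nil))) 
(.lf (nat_lit 500597) (.g (nat_lit 2728) (.e (nat_lit 163977) (nat_lit 30) (.e (nat_lit 573489) (nat_lit 14) (.e (nat_lit 73755) (nat_lit 8) (.e (nat_lit 557103) (nat_lit 14) (.e (nat_lit 180244) (nat_lit 5) (.e (nat_lit 532488) (nat_lit 0) (.e (nat_lit 7936) (nat_lit 149) (.e (nat_lit 761898) (nat_lit 15) .nil)))))))) (.g (nat_lit 1) (.e (nat_lit 169107) (nat_lit 0) .nil) .nil))))) 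
(.nd (nat_lit 8) (.nd (nat_lit 9) 
(.lf (nat_lit 499957) (.g (nat_lit 1949) (.e (nat_lit 163977) (nat_lit 30) (.e (nat_lit 573479) (nat_lit 13) (.e (nat_lit 65619) (nat_lit 10) (.e (nat_lit 344117) (nat_lit 21) (.e (nat_lit 516160) (nat_lit 10) (.e (nat_lit 434209) (nat_lit 18) (.e (nat_lit 5547) (nat_lit 306) (.e (nat_lit 2611) (nat_lit 163) .nil)))))))) (.g (nat_lit 1) (.e (nat_lit 168072) (nat_lit 0) .nil) .nil))) 
(.lf (nat_lit 500469) (.g (nat_lit 2807) (.e (nat_lit 163977) (nat_lit 30) (.e (nat_lit 573489) (nat_lit 14) (.e (nat_lit 73754) (nat_lit 8) (.e (nat_lit 557100) (nat_lit 13) (.e (nat_lit 172065) (nat_lit 3) .nil))))) (.g (nat_lit 0) (.e (nat_lit 168893) (nat_lit 0) .nil) .nil)))) (.nd (nat_lit 9) 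
(.lf (nat_lit 500213) (.g (nat_lit 3824) (.e (nat_lit 163977) (nat_lit 30) (.e (nat_lit 573485) (nat_lit 13) (.e (nat_lit 65604) (nat_lit 9) (.e (nat_lit 336013) (nat_lit 2) (.e (nat_lit 90170) (nat_lit 13) (.e (nat_lit 172046) (nat_lit 0) (.e (nat_lit 2458) (nat_lit 157) (.e (nat_lit 5548) (nat_lit 306) (.e (nat_lit 2610) (nat_lit 163) .nil))))))))) (.g (nat_lit 1) (.e (nat_lit 168448) (nat_lit 0) .nil) .nil))) 
(.lf (nat_lit 500725) (.g (nat_lit 2996) (.e (nat_lit 163977) (nat_lit 30) (.e (nat_lit 573491) (nat_lit 15) (.e (nat_lit 81951) (nat_lit 22) (.e (nat_lit 90170) (nat_lit 13) (.e (nat_lit 172038) (nat_lit 0) (.e (nat_lit 3397) (nat_lit 211) (.e (nat_lit 647181) (nat_lit 3) .nil))))))) (.g (nat_lit 1) (.e (nat_lit 169330) (nat_lit 0) .nil) .nil))))))))) 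
(.nd (nat_lit 4) (.nd (nat_lit 5) (.nd (nat_lit 6) (.nd (nat_lit 7) (.nd (nat_lit 8) 
(.nd (nat_lit 9) 
(.lf (nat_lit 499725) (.g (nat_lit 2472) (.e (nat_lit 163976) (nat_lit 30) (.e (nat_lit 573491) (nat_lit 15) (.e (nat_lit 81954) (nat_lit 23) (.e (nat_lit 98356) (nat_lit 26) (.e (nat_lit 426374) (nat_lit 15) (.e (nat_lit 2057) (nat_lit 142) (.e (nat_lit 704589) (nat_lit 3) .nil))))))) (.g (nat_lit 1) (.e (nat_lit 167449) (nat_lit 0) .nil) .nil))) 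
(.lf (nat_lit 500237) (.g (nat_lit 5456) (.e (nat_lit 163977) (nat_lit 30) (.e (nat_lit 573485) (nat_lit 13) (.e (nat_lit 65604) (nat_lit 9) (.e (nat_lit 336013) (nat_lit 2) (.e (nat_lit 90170) (nat_lit 13) (.e (nat_lit 172069) (nat_lit 4) (.e (nat_lit 229663) (nat_lit 240) (.e (nat_lit 2612) (nat_lit 163) .nil)))))))) (.g (nat_lit 1) (.e (nat_lit 168474) (nat_lit 0) .nil) .nil)))) 
(.nd (nat_lit 9) 
(.lf (nat_lit 499981) (.g (nat_lit 3393) (.e (nat_lit 163977) (nat_lit 30) (.e (nat_lit 573482) (nat_lit 13) (.e (nat_lit 65604) (nat_lit 9) (.e (nat_lit 336013) (nat_lit 2) (.e (nat_lit 90170) (nat_lit 13) (.e (nat_lit 172032) (nat_lit 0) (.e (nat_lit 3401) (nat_lit 211) (.e (nat_lit 647181) (nat_lit 3) .nil)))))))) (.g (nat_lit 1) (.e (nat_lit 168106) (nat_lit 0) .nil) .nil))) 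
(.lf (nat_lit 500493) (.g (nat_lit 3145) (.e (nat_lit 163977) (nat_lit 30) (.e (nat_lit 573489) (nat_lit 14) (.e (nat_lit 73754) (nat_lit 8) (.e (nat_lit 557103) (nat_lit 14) (.e (nat_lit 180250) (nat_lit 10) (.e (nat_lit 573475) (nat_lit 12) (.e (nat_lit 57503) (nat_lit 38) (.e (nat_lit 638995) (nat_lit 7) .nil)))))))) (.g (nat_lit 1) (.e (nat_lit 168929) (nat_lit 0) .nil) .nil))))) 
(.nd (nat_lit 8) (.nd (nat_lit 9) 
(.lf (nat_lit 499853) (.g (nat_lit 3154) (.e (nat_lit 163976) (nat_lit 30) (.e (nat_lit 573492) (nat_lit 15) (.e (nat_lit 81956) (nat_lit 23) (.e (nat_lit 98356) (nat_lit 26) (.e (nat_lit 426404) (nat_lit 15) .nil))))) (.g (nat_lit 0) (.e (nat_lit 167810) (nat_lit 0) .nil) .nil))) 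
(.lf (nat_lit 500365) (.g (nat_lit 3130) (.e (nat_lit 163977) (nat_lit 30) (.e (nat_lit 573485) (nat_lit 13) (.e (nat_lit 65619) (nat_lit 10) (.e (nat_lit 344117) (nat_lit 21) (.e (nat_lit 516171) (nat_lit 13) (.e (nat_lit 458774) (nat_lit 18) (.e (nat_lit 5548) (nat_lit 306) (.e (nat_lit 2601) (nat_lit 163) .nil)))))))) (.g (nat_lit 1) (.e (nat_lit 168641) (nat_lit 0) .nil) .nil)))) 
(.nd (nat_lit 9) 
(.lf (nat_lit 500109) (.g (nat_lit 2114) (.e (nat_lit 163977) (nat_lit 30) (.e (nat_lit 573482) (nat_lit 13) (.e (nat_lit 65619) (nat_lit 10) (.e (nat_lit 344117) (nat_lit 21) (.e (nat_lit 516159) (nat_lit 10) .nil))))) (.g (nat_lit 0) (.e (nat_lit 168251) (nat_lit 0) .nil) .nil))) 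
(.lf (nat_lit 500621) (.g (nat_lit 2060) (.e (nat_lit 163977) (nat_lit 30) (.e (nat_lit 573489) (nat_lit 14) (.e (nat_lit 73755) (nat_lit 8) (.e (nat_lit 557103) (nat_lit 14) (.e (nat_lit 180250) (nat_lit 10) (.e (nat_lit 573477) (nat_lit 12) (.e (nat_lit 57500) (nat_lit 37) (.e (nat_lit 630799) (nat_lit 7) .nil)))))))) (.g (nat_lit 1) (.e (nat_lit 169139) (nat_lit 0) .nil) .nil)))))) 
(.nd (nat_lit 7) (.nd (nat_lit 8) (.nd (nat_lit 9) 
(.lf (nat_lit 499789) (.g (nat_lit 2266) (.e (nat_lit 163976) (nat_lit 30) (.e (nat_lit 573491) (nat_lit 15) (.e (nat_lit 81956) (nat_lit 23) (.e (nat_lit 98386) (nat_lit 32) .nil)))) (.g (nat_lit 0) (.e (nat_lit 167557) (nat_lit 0) .nil) .nil))) 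
(.lf (nat_lit 500301) (.g (nat_lit 3900) (.e (nat_lit 163977) (nat_lit 30) (.e (nat_lit 573485) (nat_lit 13) (.e (nat_lit 65619) (nat_lit 10) (.e (nat_lit 344117) (nat_lit 21) (.e (nat_lit 516151) (nat_lit 9) (.e (nat_lit 426097) (nat_lit 1) (.e (nat_lit 164345) (nat_lit 240) (.e (nat_lit 2601) (nat_lit 163) .nil)))))))) (.g (nat_lit 1) (.e (nat_lit 168573) (nat_lit 0) .nil) .nil)))) 
(.nd (nat_lit 9) 
(.lf (nat_lit 500045) (.g (nat_lit 2282) (.e (nat_lit 163977) (nat_lit 30) (.e (nat_lit 573482) (nat_lit 13) (.e (nat_lit 65604) (nat_lit 9) (.e (nat_lit 336028) (nat_lit 3) (.e (nat_lit 98366) (nat_lit 27) (.e (nat_lit 434271) (nat_lit 38) (.e (nat_lit 655374) (nat_lit 3) .nil))))))) (.g (nat_lit 1) (.e (nat_lit 168185) (nat_lit 0) .nil) .nil))) 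
(.lf (nat_lit 500557) (.g (nat_lit 3348) (.e (nat_lit 163977) (nat_lit 30) (.e (nat_lit 573489) (nat_lit 14) (.e (nat_lit 73755) (nat_lit 8) (.e (nat_lit 557098) (nat_lit 13) (.e (nat_lit 172065) (nat_lit 3) (.e (nat_lit 204817) (nat_lit 17) (.e (nat_lit 7936) (nat_lit 149) (.e (nat_lit 761897) (nat_lit 15) .nil)))))))) (.g (nat_lit 1) (.e (nat_lit 169045) (nat_lit 0) .nil) .nil))))) 
(.nd (nat_lit 8) (.nd (nat_lit 9) 
(.lf (nat_lit 499917) (.g (nat_lit 4569) (.e (nat_lit 163976) (nat_lit 30) (.e (nat_lit 573492) (nat_lit 15) (.e (nat_lit 81956) (nat_lit 23) (.e (nat_lit 98384) (nat_lit 32) (.e (nat_lit 475199) (nat_lit 40) (.e (nat_lit 704589) (nat_lit 3) .nil)))))) (.g (nat_lit 1) (.e (nat_lit 167971) (nat_lit 0) .nil) .nil))) 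
(.lf (nat_lit 500429) (.g (nat_lit 4643) (.e (nat_lit 163977) (nat_lit 30) (.e (nat_lit 573487) (nat_lit 14) (.e (nat_lit 73753) (nat_lit 8) (.e (nat_lit 557105) (nat_lit 14) (.e (nat_lit 180252) (nat_lit 10) (.e (nat_lit 573475) (nat_lit 12) (.e (nat_lit 57504) (nat_lit 38) (.e (nat_lit 638996) (nat_lit 7) .nil)))))))) (.g (nat_lit 1) (.e (nat_lit 168843) (nat_lit 0) .nil) .nil)))) 
(.nd (nat_lit 9) 
(.lf (nat_lit 500173) (.g (nat_lit 3057) (.e (nat_lit 163977) (nat_lit 30) (.e (nat_lit 573484) (nat_lit 13) (.e (nat_lit 65610) (nat_lit 10) (.e (nat_lit 344117) (nat_lit 21) (.e (nat_lit 516151) (nat_lit 9) (.e (nat_lit 426104) (nat_lit 1) (.e (nat_lit 164348) (nat_lit 240) (.e (nat_lit 2601) (nat_lit 163) .nil)))))))) (.g (nat_lit 1) (.e (nat_lit 168370) (nat_lit 0) .nil) .nil))) 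
(.lf (nat_lit 500685) (.g (nat_lit 4489) (.e (nat_lit 163977) (nat_lit 30) (.e (nat_lit 573489) (nat_lit 14) (.e (nat_lit 73755) (nat_lit 8) (.e (nat_lit 557104) (nat_lit 14) (.e (nat_lit 180252) (nat_lit 10) (.e (nat_lit 573475) (nat_lit 12) (.e (nat_lit 57503) (nat_lit 38) (.e (nat_lit 638996) (nat_lit 7) .nil)))))))) (.g (nat_lit 1) (.e (nat_lit 169239) (nat_lit 0) .nil) .nil))))))) 
(.nd (nat_lit 6) (.nd (nat_lit 7) (.nd (nat_lit 8) (.nd (nat_lit 9) 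
(.lf (nat_lit 499757) (.g (nat_lit 2025) (.e (nat_lit 163976) (nat_lit 30) (.e (nat_lit 573491) (nat_lit 15) (.e (nat_lit 81954) (nat_lit 23) (.e (nat_lit 98362) (nat_lit 26) (.e (nat_lit 426025) (nat_lit 0) (.e (nat_lit 3399) (nat_lit 211) (.e (nat_lit 647180) (nat_lit 3) .nil))))))) (.g (nat_lit 1) (.e (nat_lit 167504) (nat_lit 0) .nil) .nil))) 
(.lf (nat_lit 500269) (.g (nat_lit 3638) (.e (nat_lit 163977) (nat_lit 30) (.e (nat_lit 573485) (nat_lit 13) (.e (nat_lit 65604) (nat_lit 9) (.e (nat_lit 336028) (nat_lit 3) (.e (nat_lit 98367) (nat_lit 27) (.e (nat_lit 434209) (nat_lit 18) (.e (nat_lit 5546) (nat_lit 306) (.e (nat_lit 2601) (nat_lit 163) .nil)))))))) (.g (nat_lit 1) (.e (nat_lit 168539) (nat_lit 0) .nil) .nil)))) 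
(.nd (nat_lit 9) 
(.lf (nat_lit 500013) (.g (nat_lit 3778) (.e (nat_lit 163977) (nat_lit 30) (.e (nat_lit 573482) (nat_lit 13) (.e (nat_lit 65604) (nat_lit 9) (.e (nat_lit 336028) (nat_lit 3) (.e (nat_lit 98354) (nat_lit 26) (.e (nat_lit 426109) (nat_lit 1) (.e (nat_lit 164347) (nat_lit 240) (.e (nat_lit 2601) (nat_lit 163) .nil)))))))) (.g (nat_lit 1) (.e (nat_lit 168140) (nat_lit 0) .nil) .nil))) 
(.lf (nat_lit 500525) (.g (nat_lit 3321) (.e (nat_lit 163977) (nat_lit 30) (.e (nat_lit 573489) (nat_lit 14) (.e (nat_lit 73755) (nat_lit 8) (.e (nat_lit 557096) (nat_lit 13) (.e (nat_lit 172067) (nat_lit 3) (.e (nat_lit 204821) (nat_lit 17) (.e (nat_lit 2270) (nat_lit 149) (.e (nat_lit 761899) (nat_lit 15) .nil)))))))) (.g (nat_lit 1) (.e (nat_lit 168983) (nat_lit 0) .nil) .nil))))) 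
(.nd (nat_lit 8) (.nd (nat_lit 9) 
(.lf (nat_lit 499885) (.g (nat_lit 2706) (.e (nat_lit 163976) (nat_lit 30) (.e (nat_lit 573492) (nat_lit 15) (.e (nat_lit 81956) (nat_lit 23) (.e (nat_lit 98360) (nat_lit 26) (.e (nat_lit 426025) (nat_lit 0) (.e (nat_lit 3397) (nat_lit 211) (.e (nat_lit 647180) (nat_lit 3) .nil))))))) (.g (nat_lit 1) (.e (nat_lit 167876) (nat_lit 0) .nil) .nil))) 
(.lf (nat_lit 500397) (.g (nat_lit 2925) (.e (nat_lit 163977) (nat_lit 30) (.e (nat_lit 573487) (nat_lit 14) (.e (nat_lit 73753) (nat_lit 8) (.e (nat_lit 557103) (nat_lit 14) (.e (nat_lit 180250) (nat_lit 10) (.e (nat_lit 573474) (nat_lit 12) (.e (nat_lit 57504) (nat_lit 38) (.e (nat_lit 638996) (nat_lit 7) .nil)))))))) (.g (nat_lit 1) (.e (nat_lit 168806) (nat_lit 0) .nil) .nil)))) 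
(.nd (nat_lit 9) 
(.lf (nat_lit 500141) (.g (nat_lit 3203) (.e (nat_lit 163977) (nat_lit 30) (.e (nat_lit 573482) (nat_lit 13) (.e (nat_lit 65619) (nat_lit 10) (.e (nat_lit 344117) (nat_lit 21) (.e (nat_lit 516171) (nat_lit 13) (.e (nat_lit 458774) (nat_lit 18) (.e (nat_lit 5547) (nat_lit 306) (.e (nat_lit 2611) (nat_lit 163) .nil)))))))) (.g (nat_lit 1) (.e (nat_lit 168283) (nat_lit 0) .nil) .nil))) 
(.lf (nat_lit 500653) (.g (nat_lit 2189) (.e (nat_lit 163977) (nat_lit 30) (.e (nat_lit 573489) (nat_lit 14) (.e (nat_lit 73755) (nat_lit 8) (.e (nat_lit 557104) (nat_lit 14) (.e (nat_lit 180244) (nat_lit 5) (.e (nat_lit 532490) (nat_lit 0) (.e (nat_lit 7936) (nat_lit 149) (.e (nat_lit 761899) (nat_lit 15) .nil)))))))) (.g (nat_lit 1) (.e (nat_lit 169185) (nat_lit 0) .nil) .nil)))))) 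
(.nd (nat_lit 7) (.nd (nat_lit 8) (.nd (nat_lit 9) 
(.lf (nat_lit 499821) (.g (nat_lit 1989) (.e (nat_lit 163976) (nat_lit 30) (.e (nat_lit 573492) (nat_lit 15) (.e (nat_lit 81956) (nat_lit 23) (.e (nat_lit 98354) (nat_lit 26) (.e (nat_lit 426025) (nat_lit 0) (.e (nat_lit 3397) (nat_lit 211) (.e (nat_lit 647180) (nat_lit 3) .nil))))))) (.g (nat_lit 1) (.e (nat_lit 167765) (nat_lit 0) .nil) .nil))) 
(.lf (nat_lit 500333) (.g (nat_lit 3401) (.e (nat_lit 163977) (nat_lit 30) (.e (nat_lit 573485) (nat_lit 13) (.e (nat_lit 65619) (nat_lit 10) (.e (nat_lit 344117) (nat_lit 21) (.e (nat_lit 516159) (nat_lit 10) (.e (nat_lit 434209) (nat_lit 18) (.e (nat_lit 5546) (nat_lit 306) (.e (nat_lit 2601) (nat_lit 163) .nil)))))))) (.g (nat_lit 1) (.e (nat_lit 168605) (nat_lit 0) .nil) .nil)))) 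
(.nd (nat_lit 9) 
(.lf (nat_lit 500077) (.g (nat_lit 2274) (.e (nat_lit 163977) (nat_lit 30) (.e (nat_lit 573482) (nat_lit 13) (.e (nat_lit 65619) (nat_lit 10) (.e (nat_lit 344117) (nat_lit 21) (.e (nat_lit 516151) (nat_lit 9) (.e (nat_lit 426043) (nat_lit 0) (.e (nat_lit 2458) (nat_lit 157) (.e (nat_lit 5546) (nat_lit 306) (.e (nat_lit 2600) (nat_lit 163) .nil))))))))) (.g (nat_lit 1) (.e (nat_lit 168219) (nat_lit 0) .nil) .nil))) 
(.lf (nat_lit 500589) (.g (nat_lit 3672) (.e (nat_lit 163977) (nat_lit 30) (.e (nat_lit 573489) (nat_lit 14) (.e (nat_lit 73755) (nat_lit 8) (.e (nat_lit 557103) (nat_lit 14) (.e (nat_lit 180243) (nat_lit 5) (.e (nat_lit 532484) (nat_lit 0) (.e (nat_lit 7936) (nat_lit 149) (.e (nat_lit 761899) (nat_lit 15) .nil)))))))) (.g (nat_lit 1) (.e (nat_lit 169090) (nat_lit 0) .nil) .nil))))) 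
(.nd (nat_lit 8) (.nd (nat_lit 9) 
(.lf (nat_lit 499949) (.g (nat_lit 3689) (.e (nat_lit 163976) (nat_lit 30) (.e (nat_lit 573493) (nat_lit 15) (.e (nat_lit 81956) (nat_lit 23) (.e (nat_lit 98383) (nat_lit 32) .nil)))) (.g (nat_lit 0) (.e (nat_lit 168038) (nat_lit 0) .nil) .nil))) 
(.lf (nat_lit 500461) (.g (nat_lit 2776) (.e (nat_lit 163977) (nat_lit 30) (.e (nat_lit 573488) (nat_lit 14) (.e (nat_lit 73755) (nat_lit 8) (.e (nat_lit 557105) (nat_lit 14) (.e (nat_lit 180252) (nat_lit 10) (.e (nat_lit 573473) (nat_lit 12) (.e (nat_lit 57503) (nat_lit 38) (.e (nat_lit 638995) (nat_lit 7) .nil)))))))) (.g (nat_lit 1) (.e (nat_lit 168879) (nat_lit 0) .nil) .nil)))) 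
(.nd (nat_lit 9) 
(.lf (nat_lit 500205) (.g (nat_lit 2272) (.e (nat_lit 163977) (nat_lit 30) (.e (nat_lit 573485) (nat_lit 13) (.e (nat_lit 65604) (nat_lit 9) (.e (nat_lit 336013) (nat_lit 2) (.e (nat_lit 90134) (nat_lit 9) (.e (nat_lit 2884) (nat_lit 184) (.e (nat_lit 426025) (nat_lit 0) (.e (nat_lit 3399) (nat_lit 211) (.e (nat_lit 647181) (nat_lit 3) .nil))))))))) (.g (nat_lit 1) (.e (nat_lit 168440) (nat_lit 0) .nil) .nil))) 
(.lf (nat_lit 500717) (.g (nat_lit 1658) (.e (nat_lit 163977) (nat_lit 30) (.e (nat_lit 573489) (nat_lit 14) (.e (nat_lit 73768) (nat_lit 19) (.e (nat_lit 647172) (nat_lit 0) (.e (nat_lit 2854) (nat_lit 184) (.e (nat_lit 426533) (nat_lit 28) (.e (nat_lit 352000) (nat_lit 3) .nil))))))) (.g (nat_lit 1) (.e (nat_lit 169302) (nat_lit 0) .nil) .nil)))))))) 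
(.nd (nat_lit 5) (.nd (nat_lit 6) (.nd (nat_lit 7) (.nd (nat_lit 8) (.nd (nat_lit 9) 
(.lf (nat_lit 499741) (.g (nat_lit 2379) (.e (nat_lit 163976) (nat_lit 30) (.e (nat_lit 573491) (nat_lit 15) (.e (nat_lit 81954) (nat_lit 23) (.e (nat_lit 98358) (nat_lit 26) (.e (nat_lit 426444) (nat_lit 19) (.e (nat_lit 114432) (nat_lit 3) .nil)))))) (.g (nat_lit 1) (.e (nat_lit 167470) (nat_lit 0) .nil) .nil))) 
(.lf (nat_lit 500253) (.g (nat_lit 2299) (.e (nat_lit 163977) (nat_lit 30) (.e (nat_lit 573485) (nat_lit 13) (.e (nat_lit 65604) (nat_lit 9) (.e (nat_lit 336028) (nat_lit 3) (.e (nat_lit 98363) (nat_lit 26) .nil))))) (.g (nat_lit 0) (.e (nat_lit 168520) (nat_lit 0) .nil) .nil)))) (.nd (nat_lit 9) 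
(.lf (nat_lit 499997) (.g (nat_lit 3055) (.e (nat_lit 163977) (nat_lit 30) (.e (nat_lit 573482) (nat_lit 13) (.e (nat_lit 65604) (nat_lit 9) (.e (nat_lit 336013) (nat_lit 2) (.e (nat_lit 90170) (nat_lit 13) (.e (nat_lit 172059) (nat_lit 1) (.e (nat_lit 164348) (nat_lit 240) (.e (nat_lit 2600) (nat_lit 163) .nil)))))))) (.g (nat_lit 1) (.e (nat_lit 168122) (nat_lit 0) .nil) .nil))) 
(.lf (nat_lit 500509) (.g (nat_lit 4072) (.e (nat_lit 163977) (nat_lit 30) (.e (nat_lit 573489) (nat_lit 14) (.e (nat_lit 73754) (nat_lit 8) (.e (nat_lit 557105) (nat_lit 14) (.e (nat_lit 180252) (nat_lit 10) (.e (nat_lit 573473) (nat_lit 12) (.e (nat_lit 57504) (nat_lit 38) (.e (nat_lit 638996) (nat_lit 7) .nil)))))))) (.g (nat_lit 1) (.e (nat_lit 168945) (nat_lit 0) .nil) .nil))))) 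
(.nd (nat_lit 8) (.nd (nat_lit 9) 
(.lf (nat_lit 499869) (.g (nat_lit 2799) (.e (nat_lit 163976) (nat_lit 30) (.e (nat_lit 573492) (nat_lit 15) (.e (nat_lit 81956) (nat_lit 23) (.e (nat_lit 98359) (nat_lit 26) (.e (nat_lit 426022) (nat_lit 0) (.e (nat_lit 3397) (nat_lit 211) (.e (nat_lit 647180) (nat_lit 3) .nil))))))) (.g (nat_lit 1) (.e (nat_lit 167831) (nat_lit 0) .nil) .nil))) 
(.lf (nat_lit 500381) (.g (nat_lit 2453) (.e (nat_lit 163977) (nat_lit 30) (.e (nat_lit 573487) (nat_lit 14) (.e (nat_lit 73753) (nat_lit 8) (.e (nat_lit 557100) (nat_lit 13) (.e (nat_lit 172067) (nat_lit 3) .nil))))) (.g (nat_lit 0) (.e (nat_lit 168745) (nat_lit 0) .nil) .nil)))) (.nd (nat_lit 9) 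
(.lf (nat_lit 500125) (.g (nat_lit 2129) (.e (nat_lit 163977) (nat_lit 30) (.e (nat_lit 573482) (nat_lit 13) (.e (nat_lit 65619) (nat_lit 10) (.e (nat_lit 344117) (nat_lit 21) (.e (nat_lit 516160) (nat_lit 10) (.e (nat_lit 434272) (nat_lit 38) (.e (nat_lit 655373) (nat_lit 3) .nil))))))) (.g (nat_lit 1) (.e (nat_lit 168267) (nat_lit 0) .nil) .nil))) 
(.lf (nat_lit 500637) (.g (nat_lit 2971) (.e (nat_lit 163977) (nat_lit 30) (.e (nat_lit 573489) (nat_lit 14) (.e (nat_lit 73755) (nat_lit 8) (.e (nat_lit 557104) (nat_lit 14) (.e (nat_lit 180242) (nat_lit 5) (.e (nat_lit 532489) (nat_lit 0) (.e (nat_lit 7936) (nat_lit 149) (.e (nat_lit 761898) (nat_lit 15) .nil)))))))) (.g (nat_lit 1) (.e (nat_lit 169158) (nat_lit 0) .nil) .nil)))))) 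
(.nd (nat_lit 7) (.nd (nat_lit 8) (.nd (nat_lit 9) 
(.lf (nat_lit 499805) (.g (nat_lit 3546) (.e (nat_lit 163976) (nat_lit 30) (.e (nat_lit 573492) (nat_lit 15) (.e (nat_lit 81953) (nat_lit 22) (.e (nat_lit 90170) (nat_lit 13) (.e (nat_lit 172138) (nat_lit 15) (.e (nat_lit 2056) (nat_lit 142) (.e (nat_lit 704589) (nat_lit 3) .nil))))))) (.g (nat_lit 1) (.e (nat_lit 167686) (nat_lit 0) .nil) .nil))) 
(.lf (nat_lit 500317) (.g (nat_lit 2403) (.e (nat_lit 163977) (nat_lit 30) (.e (nat_lit 573485) (nat_lit 13) (.e (nat_lit 65619) (nat_lit 10) (.e (nat_lit 344117) (nat_lit 21) (.e (nat_lit 516151) (nat_lit 9) (.e (nat_lit 426465) (nat_lit 24) (.e (nat_lit 163584) (nat_lit 3) .nil))))))) (.g (nat_lit 1) (.e (nat_lit 168589) (nat_lit 0) .nil) .nil)))) (.nd (nat_lit 9) 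
(.lf (nat_lit 500061) (.g (nat_lit 2117) (.e (nat_lit 163977) (nat_lit 30) (.e (nat_lit 573482) (nat_lit 13) (.e (nat_lit 65619) (nat_lit 10) (.e (nat_lit 344117) (nat_lit 21) (.e (nat_lit 516143) (nat_lit 9) .nil))))) (.g (nat_lit 0) (.e (nat_lit 168203) (nat_lit 0) .nil) .nil))) 
(.lf (nat_lit 500573) (.g (nat_lit 4410) (.e (nat_lit 163977) (nat_lit 30) (.e (nat_lit 573489) (nat_lit 14) (.e (nat_lit 73755) (nat_lit 8) (.e (nat_lit 557098) (nat_lit 13) (.e (nat_lit 172067) (nat_lit 3) (.e (nat_lit 204817) (nat_lit 17) (.e (nat_lit 7936) (nat_lit 149) (.e (nat_lit 761898) (nat_lit 15) .nil)))))))) (.g (nat_lit 1) (.e (nat_lit 169065) (nat_lit 0) .nil) .nil))))) 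
(.nd (nat_lit 8) (.nd (nat_lit 9) 
(.lf (nat_lit 499933) (.g (nat_lit 5995) (.e (nat_lit 163976) (nat_lit 30) (.e (nat_lit 573493) (nat_lit 15) (.e (nat_lit 81953) (nat_lit 22) (.e (nat_lit 90167) (nat_lit 13) .nil)))) (.g (nat_lit 0) (.e (nat_lit 168010) (nat_lit 0) .nil) .nil))) 
(.lf (nat_lit 500445) (.g (nat_lit 2675) (.e (nat_lit 163977) (nat_lit 30) (.e (nat_lit 573487) (nat_lit 14) (.e (nat_lit 73755) (nat_lit 8) (.e (nat_lit 557105) (nat_lit 14) (.e (nat_lit 180252) (nat_lit 10) .nil))))) (.g (nat_lit 0) (.e (nat_lit 168860) (nat_lit 0) .nil) .nil)))) (.nd (nat_lit 9) 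
(.lf (nat_lit 500189) (.g (nat_lit 2751) (.e (nat_lit 163977) (nat_lit 30) (.e (nat_lit 573484) (nat_lit 13) (.e (nat_lit 65610) (nat_lit 10) (.e (nat_lit 344117) (nat_lit 21) (.e (nat_lit 516159) (nat_lit 10) (.e (nat_lit 434209) (nat_lit 18) (.e (nat_lit 5546) (nat_lit 306) (.e (nat_lit 2610) (nat_lit 163) .nil)))))))) (.g (nat_lit 1) (.e (nat_lit 168389) (nat_lit 0) .nil) .nil))) 
(.lf (nat_lit 500701) (.g (nat_lit 3300) (.e (nat_lit 163977) (nat_lit 30) (.e (nat_lit 573489) (nat_lit 14) (.e (nat_lit 73755) (nat_lit 8) (.e (nat_lit 557105) (nat_lit 14) (.e (nat_lit 180252) (nat_lit 10) (.e (nat_lit 573474) (nat_lit 12) (.e (nat_lit 65280) (nat_lit 37) (.e (nat_lit 630800) (nat_lit 7) .nil)))))))) (.g (nat_lit 1) (.e (nat_lit 169282) (nat_lit 0) .nil) .nil))))))) 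
(.nd (nat_lit 6) (.nd (nat_lit 7) (.nd (nat_lit 8) (.nd (nat_lit 9) 
(.lf (nat_lit 499773) (.g (nat_lit 1450) (.e (nat_lit 163976) (nat_lit 30) (.e (nat_lit 573491) (nat_lit 15) (.e (nat_lit 81954) (nat_lit 23) (.e (nat_lit 98385) (nat_lit 32) (.e (nat_lit 483072) (nat_lit 40) .nil))))) (.g (nat_lit 0) (.e (nat_lit 167541) (nat_lit 0) .nil) .nil))) 
(.lf (nat_lit 500285) (.g (nat_lit 2134) (.e (nat_lit 163977) (nat_lit 30) (.e (nat_lit 573485) (nat_lit 13) (.e (nat_lit 65619) (nat_lit 10) (.e (nat_lit 344117) (nat_lit 21) (.e (nat_lit 516144) (nat_lit 9) .nil))))) (.g (nat_lit 0) (.e (nat_lit 168557) (nat_lit 0) .nil) .nil)))) (.nd (nat_lit 9) 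
(.lf (nat_lit 500029) (.g (nat_lit 2429) (.e (nat_lit 163977) (nat_lit 30) (.e (nat_lit 573482) (nat_lit 13) (.e (nat_lit 65604) (nat_lit 9) (.e (nat_lit 336028) (nat_lit 3) (.e (nat_lit 98360) (nat_lit 26) .nil))))) (.g (nat_lit 0) (.e (nat_lit 168167) (nat_lit 0) .nil) .nil))) 
(.lf (nat_lit 500541) (.g (nat_lit 2824) (.e (nat_lit 163977) (nat_lit 30) (.e (nat_lit 573489) (nat_lit 14) (.e (nat_lit 73755) (nat_lit 8) (.e (nat_lit 557097) (nat_lit 13) (.e (nat_lit 172066) (nat_lit 3) (.e (nat_lit 204821) (nat_lit 17) (.e (nat_lit 7936) (nat_lit 149) (.e (nat_lit 761899) (nat_lit 15) .nil)))))))) (.g (nat_lit 1) (.e (nat_lit 169010) (nat_lit 0) .nil) .nil))))) 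
(.nd (nat_lit 8) (.nd (nat_lit 9) 
(.lf (nat_lit 499901) (.g (nat_lit 4476) (.e (nat_lit 163976) (nat_lit 30) (.e (nat_lit 573492) (nat_lit 15) (.e (nat_lit 81956) (nat_lit 23) (.e (nat_lit 98365) (nat_lit 26) (.e (nat_lit 426413) (nat_lit 15) .nil))))) (.g (nat_lit 0) (.e (nat_lit 167911) (nat_lit 0) .nil) .nil))) 
(.lf (nat_lit 500413) (.g (nat_lit 3247) (.e (nat_lit 163977) (nat_lit 30) (.e (nat_lit 573487) (nat_lit 14) (.e (nat_lit 73753) (nat_lit 8) (.e (nat_lit 557105) (nat_lit 14) (.e (nat_lit 180251) (nat_lit 10) (.e (nat_lit 573477) (nat_lit 12) (.e (nat_lit 57502) (nat_lit 38) (.e (nat_lit 638996) (nat_lit 7) .nil)))))))) (.g (nat_lit 1) (.e (nat_lit 168825) (nat_lit 0) .nil) .nil)))) 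
(.nd (nat_lit 9) 
(.lf (nat_lit 500157) (.g (nat_lit 2490) (.e (nat_lit 163977) (nat_lit 30) (.e (nat_lit 573484) (nat_lit 13) (.e (nat_lit 65610) (nat_lit 10) (.e (nat_lit 344117) (nat_lit 21) (.e (nat_lit 516145) (nat_lit 9) (.e (nat_lit 426469) (nat_lit 24) (.e (nat_lit 163584) (nat_lit 3) .nil))))))) (.g (nat_lit 1) (.e (nat_lit 168333) (nat_lit 0) .nil) .nil))) 
(.lf (nat_lit 500669) (.g (nat_lit 2115) (.e (nat_lit 163977) (nat_lit 30) (.e (nat_lit 573489) (nat_lit 14) (.e (nat_lit 73755) (nat_lit 8) (.e (nat_lit 557104) (nat_lit 14) (.e (nat_lit 180251) (nat_lit 10) .nil))))) (.g (nat_lit 0) (.e (nat_lit 169223) (nat_lit 0) .nil) .nil)))))) (.nd (nat_lit 7) (.nd (nat_lit 8) (.nd (nat_lit 9) 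
(.lf (nat_lit 499837) (.g (nat_lit 3125) (.e (nat_lit 163976) (nat_lit 30) (.e (nat_lit 573492) (nat_lit 15) (.e (nat_lit 81956) (nat_lit 23) (.e (nat_lit 98356) (nat_lit 26) (.e (nat_lit 426360) (nat_lit 15) (.e (nat_lit 2097) (nat_lit 142) (.e (nat_lit 704589) (nat_lit 3) .nil))))))) (.g (nat_lit 1) (.e (nat_lit 167794) (nat_lit 0) .nil) .nil))) 
(.lf (nat_lit 500349) (.g (nat_lit 4668) (.e (nat_lit 163977) (nat_lit 30) (.e (nat_lit 573485) (nat_lit 13) (.e (nat_lit 65619) (nat_lit 10) (.e (nat_lit 344117) (nat_lit 21) (.e (nat_lit 516160) (nat_lit 10) (.e (nat_lit 434209) (nat_lit 18) (.e (nat_lit 5548) (nat_lit 306) (.e (nat_lit 2601) (nat_lit 163) .nil)))))))) (.g (nat_lit 1) (.e (nat_lit 168621) (nat_lit 0) .nil) .nil)))) 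
(.nd (nat_lit 9) 
(.lf (nat_lit 500093) (.g (nat_lit 2353) (.e (nat_lit 163977) (nat_lit 30) (.e (nat_lit 573482) (nat_lit 13) (.e (nat_lit 65619) (nat_lit 10) (.e (nat_lit 344117) (nat_lit 21) (.e (nat_lit 516151) (nat_lit 9) (.e (nat_lit 433920) (nat_lit 19) (.e (nat_lit 114432) (nat_lit 3) .nil))))))) (.g (nat_lit 1) (.e (nat_lit 168235) (nat_lit 0) .nil) .nil))) 
(.lf (nat_lit 500605) (.g (nat_lit 2547) (.e (nat_lit 163977) (nat_lit 30) (.e (nat_lit 573489) (nat_lit 14) (.e (nat_lit 73755) (nat_lit 8) (.e (nat_lit 557103) (nat_lit 14) (.e (nat_lit 180250) (nat_lit 10) (.e (nat_lit 573473) (nat_lit 12) (.e (nat_lit 57500) (nat_lit 37) (.e (nat_lit 630800) (nat_lit 7) .nil)))))))) (.g (nat_lit 1) (.e (nat_lit 169123) (nat_lit 0) .nil) .nil))))) 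
(.nd (nat_lit 8) (.nd (nat_lit 9) 
(.lf (nat_lit 499965) (.g (nat_lit 2047) (.e (nat_lit 163977) (nat_lit 30) (.e (nat_lit 573481) (nat_lit 13) (.e (nat_lit 65604) (nat_lit 9) (.e (nat_lit 336028) (nat_lit 3) (.e (nat_lit 98367) (nat_lit 27) .nil))))) (.g (nat_lit 0) (.e (nat_lit 168082) (nat_lit 0) .nil) .nil))) 
(.lf (nat_lit 500477) (.g (nat_lit 3196) (.e (nat_lit 163977) (nat_lit 30) (.e (nat_lit 573489) (nat_lit 14) (.e (nat_lit 73754) (nat_lit 8) (.e (nat_lit 557100) (nat_lit 13) (.e (nat_lit 172067) (nat_lit 3) (.e (nat_lit 204817) (nat_lit 17) (.e (nat_lit 7936) (nat_lit 149) (.e (nat_lit 761899) (nat_lit 15) .nil)))))))) (.g (nat_lit 1) (.e (nat_lit 168903) (nat_lit 0) .nil) .nil)))) 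
(.nd (nat_lit 9) 
(.lf (nat_lit 500221) (.g (nat_lit 4030) (.e (nat_lit 163977) (nat_lit 30) (.e (nat_lit 573485) (nat_lit 13) (.e (nat_lit 65604) (nat_lit 9) (.e (nat_lit 336013) (nat_lit 2) (.e (nat_lit 90170) (nat_lit 13) (.e (nat_lit 172059) (nat_lit 1) (.e (nat_lit 164347) (nat_lit 240) (.e (nat_lit 2601) (nat_lit 163) .nil)))))))) (.g (nat_lit 1) (.e (nat_lit 168458) (nat_lit 0) .nil) .nil))) 
(.lf (nat_lit 500733) (.g (nat_lit 3092) (.e (nat_lit 163977) (nat_lit 30) (.e (nat_lit 573491) (nat_lit 15) (.e (nat_lit 81951) (nat_lit 22) (.e (nat_lit 90170) (nat_lit 13) (.e (nat_lit 172051) (nat_lit 0) .nil))))) (.g (nat_lit 0) (.e (nat_lit 169344) (nat_lit 0) .nil) .nil))))))))))) 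
(.nd (nat_lit 2) (.nd (nat_lit 3) (.nd (nat_lit 4) (.nd (nat_lit 5) (.nd (nat_lit 6) 
(.nd (nat_lit 7) (.nd (nat_lit 8) (.nd (nat_lit 9) 
(.lf (nat_lit 499715) (.g (nat_lit 2149) (.e (nat_lit 163976) (nat_lit 30) (.e (nat_lit 573491) (nat_lit 15) (.e (nat_lit 81954) (nat_lit 23) (.e (nat_lit 98356) (nat_lit 26) (.e (nat_lit 426360) (nat_lit 15) .nil))))) (.g (nat_lit 0) (.e (nat_lit 167439) (nat_lit 0) .nil) .nil))) 
(.lf (nat_lit 500227) (.g (nat_lit 2807) (.e (nat_lit 163977) (nat_lit 30) (.e (nat_lit 573485) (nat_lit 13) (.e (nat_lit 65604) (nat_lit 9) (.e (nat_lit 336013) (nat_lit 2) (.e (nat_lit 90170) (nat_lit 13) (.e (nat_lit 172061) (nat_lit 1) (.e (nat_lit 164346) (nat_lit 240) (.e (nat_lit 2601) (nat_lit 163) .nil)))))))) (.g (nat_lit 1) (.e (nat_lit 168464) (nat_lit 0) .nil) .nil)))) 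
(.nd (nat_lit 9) 
(.lf (nat_lit 499971) (.g (nat_lit 2984) (.e (nat_lit 163977) (nat_lit 30) (.e (nat_lit 573481) (nat_lit 13) (.e (nat_lit 65619) (nat_lit 10) (.e (nat_lit 344117) (nat_lit 21) (.e (nat_lit 516151) (nat_lit 9) (.e (nat_lit 426142) (nat_lit 4) (.e (nat_lit 229663) (nat_lit 240) (.e (nat_lit 2612) (nat_lit 163) .nil)))))))) (.g (nat_lit 1) (.e (nat_lit 168088) (nat_lit 0) .nil) .nil))) 
(.lf (nat_lit 500483) (.g (nat_lit 2519) (.e (nat_lit 163977) (nat_lit 30) (.e (nat_lit 573489) (nat_lit 14) (.e (nat_lit 73754) (nat_lit 8) (.e (nat_lit 557101) (nat_lit 13) (.e (nat_lit 172065) (nat_lit 3) (.e (nat_lit 204821) (nat_lit 17) (.e (nat_lit 2270) (nat_lit 149) (.e (nat_lit 761899) (nat_lit 15) .nil)))))))) (.g (nat_lit 1) (.e (nat_lit 168917) (nat_lit 0) .nil) .nil))))) 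
(.nd (nat_lit 8) (.nd (nat_lit 9) 
(.lf (nat_lit 499843) (.g (nat_lit 2833) (.e (nat_lit 163976) (nat_lit 30) (.e (nat_lit 573492) (nat_lit 15) (.e (nat_lit 81956) (nat_lit 23) (.e (nat_lit 98356) (nat_lit 26) (.e (nat_lit 426363) (nat_lit 15) (.e (nat_lit 2062) (nat_lit 142) (.e (nat_lit 704589) (nat_lit 3) .nil))))))) (.g (nat_lit 1) (.e (nat_lit 167800) (nat_lit 0) .nil) .nil))) 
(.lf (nat_lit 500355) (.g (nat_lit 2344) (.e (nat_lit 163977) (nat_lit 30) (.e (nat_lit 573485) (nat_lit 13) (.e (nat_lit 65619) (nat_lit 10) (.e (nat_lit 344117) (nat_lit 21) (.e (nat_lit 516161) (nat_lit 10) .nil))))) (.g (nat_lit 0) (.e (nat_lit 168627) (nat_lit 0) .nil) .nil)))) (.nd (nat_lit 9) 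
(.lf (nat_lit 500099) (.g (nat_lit 2571) (.e (nat_lit 163977) (nat_lit 30) (.e (nat_lit 573482) (nat_lit 13) (.e (nat_lit 65619) (nat_lit 10) (.e (nat_lit 344117) (nat_lit 21) (.e (nat_lit 516152) (nat_lit 9) (.e (nat_lit 426109) (nat_lit 1) (.e (nat_lit 164346) (nat_lit 240) (.e (nat_lit 2600) (nat_lit 163) .nil)))))))) (.g (nat_lit 1) (.e (nat_lit 168241) (nat_lit 0) .nil) .nil))) 
(.lf (nat_lit 500611) (.g (nat_lit 4169) (.e (nat_lit 163977) (nat_lit 30) (.e (nat_lit 573489) (nat_lit 14) (.e (nat_lit 73755) (nat_lit 8) (.e (nat_lit 557103) (nat_lit 14) (.e (nat_lit 180250) (nat_lit 10) (.e (nat_lit 573473) (nat_lit 12) (.e (nat_lit 57504) (nat_lit 38) (.e (nat_lit 638996) (nat_lit 7) .nil)))))))) (.g (nat_lit 1) (.e (nat_lit 169129) (nat_lit 0) .nil) .nil)))))) 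
(.nd (nat_lit 7) (.nd (nat_lit 8) (.nd (nat_lit 9) 
(.lf (nat_lit 499779) (.g (nat_lit 1963) (.e (nat_lit 163976) (nat_lit 30) (.e (nat_lit 573491) (nat_lit 15) (.e (nat_lit 81955) (nat_lit 23) (.e (nat_lit 98358) (nat_lit 26) (.e (nat_lit 426444) (nat_lit 19) (.e (nat_lit 114432) (nat_lit 3) .nil)))))) (.g (nat_lit 1) (.e (nat_lit 167547) (nat_lit 0) .nil) .nil))) 
(.lf (nat_lit 500291) (.g (nat_lit 2420) (.e (nat_lit 163977) (nat_lit 30) (.e (nat_lit 573485) (nat_lit 13) (.e (nat_lit 65619) (nat_lit 10) (.e (nat_lit 344117) (nat_lit 21) (.e (nat_lit 516147) (nat_lit 9) (.e (nat_lit 426444) (nat_lit 19) (.e (nat_lit 114432) (nat_lit 3) .nil))))))) (.g (nat_lit 1) (.e (nat_lit 168563) (nat_lit 0) .nil) .nil)))) (.nd (nat_lit 9) 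
(.lf (nat_lit 500035) (.g (nat_lit 2522) (.e (nat_lit 163977) (nat_lit 30) (.e (nat_lit 573482) (nat_lit 13) (.e (nat_lit 65604) (nat_lit 9) (.e (nat_lit 336028) (nat_lit 3) (.e (nat_lit 98363) (nat_lit 26) (.e (nat_lit 426110) (nat_lit 1) (.e (nat_lit 164348) (nat_lit 240) (.e (nat_lit 2610) (nat_lit 163) .nil)))))))) (.g (nat_lit 1) (.e (nat_lit 168174) (nat_lit 0) .nil) .nil))) 
(.lf (nat_lit 500547) (.g (nat_lit 2262) (.e (nat_lit 163977) (nat_lit 30) (.e (nat_lit 573489) (nat_lit 14) (.e (nat_lit 73755) (nat_lit 8) (.e (nat_lit 557097) (nat_lit 13) (.e (nat_lit 172067) (nat_lit 3) (.e (nat_lit 204815) (nat_lit 17) (.e (nat_lit 2272) (nat_lit 149) (.e (nat_lit 761899) (nat_lit 15) .nil)))))))) (.g (nat_lit 1) (.e (nat_lit 169020) (nat_lit 0) .nil) .nil))))) 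
(.nd (nat_lit 8) (.nd (nat_lit 9) 
(.lf (nat_lit 499907) (.g (nat_lit 3720) (.e (nat_lit 163976) (nat_lit 30) (.e (nat_lit 573492) (nat_lit 15) (.e (nat_lit 81956) (nat_lit 23) (.e (nat_lit 98367) (nat_lit 27) (.e (nat_lit 434271) (nat_lit 38) (.e (nat_lit 655373) (nat_lit 3) .nil)))))) (.g (nat_lit 1) (.e (nat_lit 167937) (nat_lit 0) .nil) .nil))) 
(.lf (nat_lit 500419) (.g (nat_lit 4479) (.e (nat_lit 163977) (nat_lit 30) (.e (nat_lit 573487) (nat_lit 14) (.e (nat_lit 73753) (nat_lit 8) (.e (nat_lit 557105) (nat_lit 14) (.e (nat_lit 180252) (nat_lit 10) (.e (nat_lit 573473) (nat_lit 12) (.e (nat_lit 57503) (nat_lit 38) (.e (nat_lit 638995) (nat_lit 7) .nil)))))))) (.g (nat_lit 1) (.e (nat_lit 168833) (nat_lit 0) .nil) .nil)))) 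
(.nd (nat_lit 9) 
(.lf (nat_lit 500163) (.g (nat_lit 3441) (.e (nat_lit 163977) (nat_lit 30) (.e (nat_lit 573484) (nat_lit 13) (.e (nat_lit 65610) (nat_lit 10) (.e (nat_lit 344117) (nat_lit 21) (.e (nat_lit 516151) (nat_lit 9) (.e (nat_lit 426003) (nat_lit 0) (.e (nat_lit 3399) (nat_lit 211) (.e (nat_lit 647181) (nat_lit 3) .nil)))))))) (.g (nat_lit 1) (.e (nat_lit 168339) (nat_lit 0) .nil) .nil))) 
(.lf (nat_lit 500675) (.g (nat_lit 2885) (.e (nat_lit 163977) (nat_lit 30) (.e (nat_lit 573489) (nat_lit 14) (.e (nat_lit 73755) (nat_lit 8) (.e (nat_lit 557104) (nat_lit 14) (.e (nat_lit 180252) (nat_lit 10) (.e (nat_lit 573473) (nat_lit 12) (.e (nat_lit 57500) (nat_lit 37) (.e (nat_lit 630799) (nat_lit 7) .nil)))))))) (.g (nat_lit 1) (.e (nat_lit 169229) (nat_lit 0) .nil) .nil))))))) 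
(.nd (nat_lit 6) (.nd (nat_lit 7) (.nd (nat_lit 8) (.nd (nat_lit 9) 
(.lf (nat_lit 499747) (.g (nat_lit 2755) (.e (nat_lit 163976) (nat_lit 30) (.e (nat_lit 573491) (nat_lit 15) (.e (nat_lit 81954) (nat_lit 23) (.e (nat_lit 98359) (nat_lit 26) (.e (nat_lit 426025) (nat_lit 0) (.e (nat_lit 3397) (nat_lit 211) (.e (nat_lit 647180) (nat_lit 3) .nil))))))) (.g (nat_lit 1) (.e (nat_lit 167476) (nat_lit 0) .nil) .nil))) 
(.lf (nat_lit 500259) (.g (nat_lit 3460) (.e (nat_lit 163977) (nat_lit 30) (.e (nat_lit 573485) (nat_lit 13) (.e (nat_lit 65604) (nat_lit 9) (.e (nat_lit 336028) (nat_lit 3) (.e (nat_lit 98366) (nat_lit 27) (.e (nat_lit 434209) (nat_lit 18) (.e (nat_lit 5546) (nat_lit 306) (.e (nat_lit 2601) (nat_lit 163) .nil)))))))) (.g (nat_lit 1) (.e (nat_lit 168529) (nat_lit 0) .nil) .nil)))) 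
(.nd (nat_lit 9) 
(.lf (nat_lit 500003) (.g (nat_lit 2962) (.e (nat_lit 163977) (nat_lit 30) (.e (nat_lit 573482) (nat_lit 13) (.e (nat_lit 65604) (nat_lit 9) (.e (nat_lit 336013) (nat_lit 2) (.e (nat_lit 90170) (nat_lit 13) (.e (nat_lit 172061) (nat_lit 1) (.e (nat_lit 164348) (nat_lit 240) (.e (nat_lit 2600) (nat_lit 163) .nil)))))))) (.g (nat_lit 1) (.e (nat_lit 168128) (nat_lit 0) .nil) .nil))) 
(.lf (nat_lit 500515) (.g (nat_lit 3699) (.e (nat_lit 163977) (nat_lit 30) (.e (nat_lit 573489) (nat_lit 14) (.e (nat_lit 73754) (nat_lit 8) (.e (nat_lit 557105) (nat_lit 14) (.e (nat_lit 180252) (nat_lit 10) (.e (nat_lit 573475) (nat_lit 12) (.e (nat_lit 57502) (nat_lit 38) (.e (nat_lit 638996) (nat_lit 7) .nil)))))))) (.g (nat_lit 1) (.e (nat_lit 168951) (nat_lit 0) .nil) .nil))))) 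
(.nd (nat_lit 8) (.nd (nat_lit 9) 
(.lf (nat_lit 499875) (.g (nat_lit 2996) (.e (nat_lit 163976) (nat_lit 30) (.e (nat_lit 573492) (nat_lit 15) (.e (nat_lit 81956) (nat_lit 23) (.e (nat_lit 98359) (nat_lit 26) (.e (nat_lit 426380) (nat_lit 15) (.e (nat_lit 2058) (nat_lit 142) (.e (nat_lit 704589) (nat_lit 3) .nil))))))) (.g (nat_lit 1) (.e (nat_lit 167864) (nat_lit 0) .nil) .nil))) 
(.lf (nat_lit 500387) (.g (nat_lit 2035) (.e (nat_lit 163977) (nat_lit 30) (.e (nat_lit 573487) (nat_lit 14) (.e (nat_lit 73753) (nat_lit 8) (.e (nat_lit 557103) (nat_lit 14) (.e (nat_lit 180244) (nat_lit 5) .nil))))) (.g (nat_lit 0) (.e (nat_lit 168787) (nat_lit 0) .nil) .nil)))) (.nd (nat_lit 9) 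
(.lf (nat_lit 500131) (.g (nat_lit 2525) (.e (nat_lit 163977) (nat_lit 30) (.e (nat_lit 573482) (nat_lit 13) (.e (nat_lit 65619) (nat_lit 10) (.e (nat_lit 344117) (nat_lit 21) (.e (nat_lit 516168) (nat_lit 13) .nil))))) (.g (nat_lit 0) (.e (nat_lit 168273) (nat_lit 0) .nil) .nil))) 
(.lf (nat_lit 500643) (.g (nat_lit 2410) (.e (nat_lit 163977) (nat_lit 30) (.e (nat_lit 573489) (nat_lit 14) (.e (nat_lit 73755) (nat_lit 8) (.e (nat_lit 557104) (nat_lit 14) (.e (nat_lit 180244) (nat_lit 5) (.e (nat_lit 532483) (nat_lit 0) (.e (nat_lit 7936) (nat_lit 149) (.e (nat_lit 761899) (nat_lit 15) .nil)))))))) (.g (nat_lit 1) (.e (nat_lit 169169) (nat_lit 0) .nil) .nil)))))) 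
(.nd (nat_lit 7) (.nd (nat_lit 8) (.nd (nat_lit 9) 
(.lf (nat_lit 499811) (.g (nat_lit 2210) (.e (nat_lit 163976) (nat_lit 30) (.e (nat_lit 573492) (nat_lit 15) (.e (nat_lit 81954) (nat_lit 23) (.e (nat_lit 98359) (nat_lit 26) (.e (nat_lit 426396) (nat_lit 15) .nil))))) (.g (nat_lit 0) (.e (nat_lit 167735) (nat_lit 0) .nil) .nil))) 
(.lf (nat_lit 500323) (.g (nat_lit 2422) (.e (nat_lit 163977) (nat_lit 30) (.e (nat_lit 573485) (nat_lit 13) (.e (nat_lit 65619) (nat_lit 10) (.e (nat_lit 344117) (nat_lit 21) (.e (nat_lit 516152) (nat_lit 9) (.e (nat_lit 426109) (nat_lit 1) (.e (nat_lit 164346) (nat_lit 240) (.e (nat_lit 2611) (nat_lit 163) .nil)))))))) (.g (nat_lit 1) (.e (nat_lit 168595) (nat_lit 0) .nil) .nil)))) 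
(.nd (nat_lit 9) 
(.lf (nat_lit 500067) (.g (nat_lit 2586) (.e (nat_lit 163977) (nat_lit 30) (.e (nat_lit 573482) (nat_lit 13) (.e (nat_lit 65619) (nat_lit 10) (.e (nat_lit 344117) (nat_lit 21) (.e (nat_lit 516145) (nat_lit 9) (.e (nat_lit 426444) (nat_lit 19) (.e (nat_lit 114432) (nat_lit 3) .nil))))))) (.g (nat_lit 1) (.e (nat_lit 168209) (nat_lit 0) .nil) .nil))) 
(.lf (nat_lit 500579) (.g (nat_lit 3821) (.e (nat_lit 163977) (nat_lit 30) (.e (nat_lit 573489) (nat_lit 14) (.e (nat_lit 73755) (nat_lit 8) (.e (nat_lit 557098) (nat_lit 13) (.e (nat_lit 179968) (nat_lit 18) (.e (nat_lit 98334) (nat_lit 18) (.e (nat_lit 164305) (nat_lit 226) (.e (nat_lit 2612) (nat_lit 163) .nil)))))))) (.g (nat_lit 1) (.e (nat_lit 169076) (nat_lit 0) .nil) .nil))))) 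
(.nd (nat_lit 8) (.nd (nat_lit 9) 
(.lf (nat_lit 499939) (.g (nat_lit 4365) (.e (nat_lit 163976) (nat_lit 30) (.e (nat_lit 573493) (nat_lit 15) (.e (nat_lit 81956) (nat_lit 23) (.e (nat_lit 98356) (nat_lit 26) .nil)))) (.g (nat_lit 0) (.e (nat_lit 168023) (nat_lit 0) .nil) .nil))) 
(.lf (nat_lit 500451) (.g (nat_lit 1897) (.e (nat_lit 163977) (nat_lit 30) (.e (nat_lit 573488) (nat_lit 14) (.e (nat_lit 73755) (nat_lit 8) (.e (nat_lit 557098) (nat_lit 13) .nil)))) (.g (nat_lit 0) (.e (nat_lit 168869) (nat_lit 0) .nil) .nil)))) (.nd (nat_lit 9) 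
(.lf (nat_lit 500195) (.g (nat_lit 3497) (.e (nat_lit 163977) (nat_lit 30) (.e (nat_lit 573484) (nat_lit 13) (.e (nat_lit 65610) (nat_lit 10) (.e (nat_lit 344117) (nat_lit 21) (.e (nat_lit 516160) (nat_lit 10) (.e (nat_lit 434271) (nat_lit 38) (.e (nat_lit 655374) (nat_lit 3) .nil))))))) (.g (nat_lit 1) (.e (nat_lit 168408) (nat_lit 0) .nil) .nil))) 
(.lf (nat_lit 500707) (.g (nat_lit 4177) (.e (nat_lit 163977) (nat_lit 30) (.e (nat_lit 573489) (nat_lit 14) (.e (nat_lit 73755) (nat_lit 8) (.e (nat_lit 557105) (nat_lit 14) (.e (nat_lit 180252) (nat_lit 10) (.e (nat_lit 573475) (nat_lit 12) (.e (nat_lit 57502) (nat_lit 38) (.e (nat_lit 638996) (nat_lit 7) .nil)))))))) (.g (nat_lit 1) (.e (nat_lit 169288) (nat_lit 0) .nil) .nil)))))))) 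
(.nd (nat_lit 5) (.nd (nat_lit 6) (.nd (nat_lit 7) (.nd (nat_lit 8) (.nd (nat_lit 9) 
(.lf (nat_lit 499731) (.g (nat_lit 2479) (.e (nat_lit 163976) (nat_lit 30) (.e (nat_lit 573491) (nat_lit 15) (.e (nat_lit 81954) (nat_lit 23) (.e (nat_lit 98356) (nat_lit 26) (.e (nat_lit 426404) (nat_lit 15) .nil))))) (.g (nat_lit 0) (.e (nat_lit 167455) (nat_lit 0) .nil) .nil))) 
(.lf (nat_lit 500243) (.g (nat_lit 1810) (.e (nat_lit 163977) (nat_lit 30) (.e (nat_lit 573485) (nat_lit 13) (.e (nat_lit 65604) (nat_lit 9) (.e (nat_lit 336028) (nat_lit 3) (.e (nat_lit 98359) (nat_lit 26) .nil))))) (.g (nat_lit 0) (.e (nat_lit 168485) (nat_lit 0) .nil) .nil)))) (.nd (nat_lit 9) 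
(.lf (nat_lit 499987) (.g (nat_lit 3618) (.e (nat_lit 163977) (nat_lit 30) (.e (nat_lit 573482) (nat_lit 13) (.e (nat_lit 65604) (nat_lit 9) (.e (nat_lit 336013) (nat_lit 2) (.e (nat_lit 90170) (nat_lit 13) (.e (nat_lit 172046) (nat_lit 0) (.e (nat_lit 2478) (nat_lit 157) (.e (nat_lit 5548) (nat_lit 306) (.e (nat_lit 2601) (nat_lit 163) .nil))))))))) (.g (nat_lit 1) (.e (nat_lit 168112) (nat_lit 0) .nil) .nil))) 
(.lf (nat_lit 500499) (.g (nat_lit 2787) (.e (nat_lit 163977) (nat_lit 30) (.e (nat_lit 573489) (nat_lit 14) (.e (nat_lit 73754) (nat_lit 8) (.e (nat_lit 557105) (nat_lit 14) (.e (nat_lit 180251) (nat_lit 10) (.e (nat_lit 573477) (nat_lit 12) (.e (nat_lit 57502) (nat_lit 38) (.e (nat_lit 638996) (nat_lit 7) .nil)))))))) (.g (nat_lit 1) (.e (nat_lit 168935) (nat_lit 0) .nil) .nil))))) 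
(.nd (nat_lit 8) (.nd (nat_lit 9) 
(.lf (nat_lit 499859) (.g (nat_lit 2698) (.e (nat_lit 163976) (nat_lit 30) (.e (nat_lit 573492) (nat_lit 15) (.e (nat_lit 81956) (nat_lit 23) (.e (nat_lit 98357) (nat_lit 26) (.e (nat_lit 426442) (nat_lit 19) (.e (nat_lit 114432) (nat_lit 3) .nil)))))) (.g (nat_lit 1) (.e (nat_lit 167820) (nat_lit 0) .nil) .nil))) 
(.lf (nat_lit 500371) (.g (nat_lit 2571) (.e (nat_lit 163977) (nat_lit 30) (.e (nat_lit 573487) (nat_lit 14) (.e (nat_lit 73753) (nat_lit 8) (.e (nat_lit 557098) (nat_lit 13) (.e (nat_lit 172065) (nat_lit 3) (.e (nat_lit 204821) (nat_lit 17) (.e (nat_lit 7936) (nat_lit 149) (.e (nat_lit 761898) (nat_lit 15) .nil)))))))) (.g (nat_lit 1) (.e (nat_lit 168710) (nat_lit 0) .nil) .nil)))) 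
(.nd (nat_lit 9) 
(.lf (nat_lit 500115) (.g (nat_lit 2391) (.e (nat_lit 163977) (nat_lit 30) (.e (nat_lit 573482) (nat_lit 13) (.e (nat_lit 65619) (nat_lit 10) (.e (nat_lit 344117) (nat_lit 21) (.e (nat_lit 516159) (nat_lit 10) (.e (nat_lit 434212) (nat_lit 18) (.e (nat_lit 5548) (nat_lit 306) (.e (nat_lit 2611) (nat_lit 163) .nil)))))))) (.g (nat_lit 1) (.e (nat_lit 168257) (nat_lit 0) .nil) .nil))) 
(.lf (nat_lit 500627) (.g (nat_lit 2901) (.e (nat_lit 163977) (nat_lit 30) (.e (nat_lit 573489) (nat_lit 14) (.e (nat_lit 73755) (nat_lit 8) (.e (nat_lit 557103) (nat_lit 14) (.e (nat_lit 180250) (nat_lit 10) (.e (nat_lit 573478) (nat_lit 12) (.e (nat_lit 57502) (nat_lit 38) (.e (nat_lit 638995) (nat_lit 7) .nil)))))))) (.g (nat_lit 1) (.e (nat_lit 169145) (nat_lit 0) .nil) .nil)))))) 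
(.nd (nat_lit 7) (.nd (nat_lit 8) (.nd (nat_lit 9) 
(.lf (nat_lit 499795) (.g (nat_lit 2433) (.e (nat_lit 163976) (nat_lit 30) (.e (nat_lit 573492) (nat_lit 15) (.e (nat_lit 81953) (nat_lit 22) (.e (nat_lit 90166) (nat_lit 13) .nil)))) (.g (nat_lit 0) (.e (nat_lit 167624) (nat_lit 0) .nil) .nil))) 
(.lf (nat_lit 500307) (.g (nat_lit 4197) (.e (nat_lit 163977) (nat_lit 30) (.e (nat_lit 573485) (nat_lit 13) (.e (nat_lit 65619) (nat_lit 10) (.e (nat_lit 344117) (nat_lit 21) (.e (nat_lit 516151) (nat_lit 9) (.e (nat_lit 426097) (nat_lit 1) (.e (nat_lit 164348) (nat_lit 240) (.e (nat_lit 2601) (nat_lit 163) .nil)))))))) (.g (nat_lit 1) (.e (nat_lit 168579) (nat_lit 0) .nil) .nil)))) 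
(.nd (nat_lit 9) 
(.lf (nat_lit 500051) (.g (nat_lit 2001) (.e (nat_lit 163977) (nat_lit 30) (.e (nat_lit 573482) (nat_lit 13) (.e (nat_lit 65604) (nat_lit 9) (.e (nat_lit 336028) (nat_lit 3) (.e (nat_lit 98367) (nat_lit 27) (.e (nat_lit 434209) (nat_lit 18) (.e (nat_lit 5547) (nat_lit 306) (.e (nat_lit 2600) (nat_lit 163) .nil)))))))) (.g (nat_lit 1) (.e (nat_lit 168191) (nat_lit 0) .nil) .nil))) 
(.lf (nat_lit 500563) (.g (nat_lit 2992) (.e (nat_lit 163977) (nat_lit 30) (.e (nat_lit 573489) (nat_lit 14) (.e (nat_lit 73755) (nat_lit 8) (.e (nat_lit 557098) (nat_lit 13) (.e (nat_lit 172066) (nat_lit 3) .nil))))) (.g (nat_lit 0) (.e (nat_lit 169051) (nat_lit 0) .nil) .nil))))) (.nd (nat_lit 8) (.nd (nat_lit 9) 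
(.lf (nat_lit 499923) (.g (nat_lit 3200) (.e (nat_lit 163976) (nat_lit 30) (.e (nat_lit 573492) (nat_lit 15) (.e (nat_lit 81956) (nat_lit 23) (.e (nat_lit 98385) (nat_lit 32) (.e (nat_lit 475195) (nat_lit 40) (.e (nat_lit 704589) (nat_lit 3) .nil)))))) (.g (nat_lit 1) (.e (nat_lit 167977) (nat_lit 0) .nil) .nil))) 
(.lf (nat_lit 500435) (.g (nat_lit 3285) (.e (nat_lit 163977) (nat_lit 30) (.e (nat_lit 573487) (nat_lit 14) (.e (nat_lit 73754) (nat_lit 8) (.e (nat_lit 557105) (nat_lit 14) (.e (nat_lit 180252) (nat_lit 10) (.e (nat_lit 573473) (nat_lit 12) (.e (nat_lit 57504) (nat_lit 38) (.e (nat_lit 638995) (nat_lit 7) .nil)))))))) (.g (nat_lit 1) (.e (nat_lit 168850) (nat_lit 0) .nil) .nil)))) 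
(.nd (nat_lit 9) 
(.lf (nat_lit 500179) (.g (nat_lit 3782) (.e (nat_lit 163977) (nat_lit 30) (.e (nat_lit 573484) (nat_lit 13) (.e (nat_lit 65610) (nat_lit 10) (.e (nat_lit 344117) (nat_lit 21) (.e (nat_lit 516151) (nat_lit 9) (.e (nat_lit 426142) (nat_lit 4) (.e (nat_lit 229666) (nat_lit 240) (.e (nat_lit 2612) (nat_lit 163) .nil)))))))) (.g (nat_lit 1) (.e (nat_lit 168377) (nat_lit 0) .nil) .nil))) 
(.lf (nat_lit 500691) (.g (nat_lit 2511) (.e (nat_lit 163977) (nat_lit 30) (.e (nat_lit 573489) (nat_lit 14) (.e (nat_lit 73755) (nat_lit 8) (.e (nat_lit 557105) (nat_lit 14) (.e (nat_lit 180251) (nat_lit 10) (.e (nat_lit 573475) (nat_lit 12) (.e (nat_lit 57504) (nat_lit 38) (.e (nat_lit 638996) (nat_lit 7) .nil)))))))) (.g (nat_lit 1) (.e (nat_lit 169247) (nat_lit 0) .nil) .nil))))))) 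
(.nd (nat_lit 6) (.nd (nat_lit 7) (.nd (nat_lit 8) (.nd (nat_lit 9) 
(.lf (nat_lit 499763) (.g (nat_lit 2590) (.e (nat_lit 163976) (nat_lit 30) (.e (nat_lit 573491) (nat_lit 15) (.e (nat_lit 81954) (nat_lit 23) (.e (nat_lit 98383) (nat_lit 32) (.e (nat_lit 475197) (nat_lit 40) (.e (nat_lit 704589) (nat_lit 3) .nil)))))) (.g (nat_lit 1) (.e (nat_lit 167531) (nat_lit 0) .nil) .nil))) 
(.lf (nat_lit 500275) (.g (nat_lit 2565) (.e (nat_lit 163977) (nat_lit 30) (.e (nat_lit 573485) (nat_lit 13) (.e (nat_lit 65604) (nat_lit 9) (.e (nat_lit 336028) (nat_lit 3) (.e (nat_lit 98367) (nat_lit 27) (.e (nat_lit 434271) (nat_lit 38) (.e (nat_lit 655374) (nat_lit 3) .nil))))))) (.g (nat_lit 1) (.e (nat_lit 168545) (nat_lit 0) .nil) .nil)))) (.nd (nat_lit 9) 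
(.lf (nat_lit 500019) (.g (nat_lit 3642) (.e (nat_lit 163977) (nat_lit 30) (.e (nat_lit 573482) (nat_lit 13) (.e (nat_lit 65604) (nat_lit 9) (.e (nat_lit 336028) (nat_lit 3) (.e (nat_lit 98359) (nat_lit 26) (.e (nat_lit 426097) (nat_lit 1) (.e (nat_lit 164345) (nat_lit 240) (.e (nat_lit 2601) (nat_lit 163) .nil)))))))) (.g (nat_lit 1) (.e (nat_lit 168152) (nat_lit 0) .nil) .nil))) 
(.lf (nat_lit 500531) (.g (nat_lit 3199) (.e (nat_lit 163977) (nat_lit 30) (.e (nat_lit 573489) (nat_lit 14) (.e (nat_lit 73755) (nat_lit 8) (.e (nat_lit 557097) (nat_lit 13) (.e (nat_lit 172065) (nat_lit 3) (.e (nat_lit 204817) (nat_lit 17) (.e (nat_lit 7936) (nat_lit 149) (.e (nat_lit 761897) (nat_lit 15) .nil)))))))) (.g (nat_lit 1) (.e (nat_lit 168994) (nat_lit 0) .nil) .nil))))) 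
(.nd (nat_lit 8) (.nd (nat_lit 9) 
(.lf (nat_lit 499891) (.g (nat_lit 3325) (.e (nat_lit 163976) (nat_lit 30) (.e (nat_lit 573492) (nat_lit 15) (.e (nat_lit 81956) (nat_lit 23) (.e (nat_lit 98362) (nat_lit 26) (.e (nat_lit 426025) (nat_lit 0) .nil))))) (.g (nat_lit 0) (.e (nat_lit 167889) (nat_lit 0) .nil) .nil))) 
(.lf (nat_lit 500403) (.g (nat_lit 4007) (.e (nat_lit 163977) (nat_lit 30) (.e (nat_lit 573487) (nat_lit 14) (.e (nat_lit 73753) (nat_lit 8) (.e (nat_lit 557103) (nat_lit 14) (.e (nat_lit 180250) (nat_lit 10) (.e (nat_lit 573475) (nat_lit 12) (.e (nat_lit 57504) (nat_lit 38) (.e (nat_lit 638995) (nat_lit 7) .nil)))))))) (.g (nat_lit 1) (.e (nat_lit 168814) (nat_lit 0) .nil) .nil)))) 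
(.nd (nat_lit 9) 
(.lf (nat_lit 500147) (.g (nat_lit 2175) (.e (nat_lit 163977) (nat_lit 30) (.e (nat_lit 573484) (nat_lit 13) (.e (nat_lit 65610) (nat_lit 10) (.e (nat_lit 344117) (nat_lit 21) (.e (nat_lit 516143) (nat_lit 9) .nil))))) (.g (nat_lit 0) (.e (nat_lit 168311) (nat_lit 0) .nil) .nil))) 
(.lf (nat_lit 500659) (.g (nat_lit 2158) (.e (nat_lit 163977) (nat_lit 30) (.e (nat_lit 573489) (nat_lit 14) (.e (nat_lit 73755) (nat_lit 8) (.e (nat_lit 557104) (nat_lit 14) (.e (nat_lit 180250) (nat_lit 10) .nil))))) (.g (nat_lit 0) (.e (nat_lit 169213) (nat_lit 0) .nil) .nil)))))) (.nd (nat_lit 7) (.nd (nat_lit 8) (.nd (nat_lit 9) 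
(.lf (nat_lit 499827) (.g (nat_lit 2640) (.e (nat_lit 163976) (nat_lit 30) (.e (nat_lit 573492) (nat_lit 15) (.e (nat_lit 81956) (nat_lit 23) (.e (nat_lit 98356) (nat_lit 26) (.e (nat_lit 426354) (nat_lit 15) .nil))))) (.g (nat_lit 0) (.e (nat_lit 167784) (nat_lit 0) .nil) .nil))) 
(.lf (nat_lit 500339) (.g (nat_lit 2201) (.e (nat_lit 163977) (nat_lit 30) (.e (nat_lit 573485) (nat_lit 13) (.e (nat_lit 65619) (nat_lit 10) (.e (nat_lit 344117) (nat_lit 21) (.e (nat_lit 516159) (nat_lit 10) (.e (nat_lit 434271) (nat_lit 38) (.e (nat_lit 655374) (nat_lit 3) .nil))))))) (.g (nat_lit 1) (.e (nat_lit 168611) (nat_lit 0) .nil) .nil)))) (.nd (nat_lit 9) 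
(.lf (nat_lit 500083) (.g (nat_lit 4125) (.e (nat_lit 163977) (nat_lit 30) (.e (nat_lit 573482) (nat_lit 13) (.e (nat_lit 65619) (nat_lit 10) (.e (nat_lit 344117) (nat_lit 21) (.e (nat_lit 516151) (nat_lit 9) (.e (nat_lit 426097) (nat_lit 1) (.e (nat_lit 164347) (nat_lit 240) (.e (nat_lit 2601) (nat_lit 163) .nil)))))))) (.g (nat_lit 1) (.e (nat_lit 168225) (nat_lit 0) .nil) .nil))) 
(.lf (nat_lit 500595) (.g (nat_lit 4613) (.e (nat_lit 163977) (nat_lit 30) (.e (nat_lit 573489) (nat_lit 14) (.e (nat_lit 73755) (nat_lit 8) (.e (nat_lit 557103) (nat_lit 14) (.e (nat_lit 180244) (nat_lit 5) (.e (nat_lit 532481) (nat_lit 0) (.e (nat_lit 2271) (nat_lit 149) (.e (nat_lit 761899) (nat_lit 15) .nil)))))))) (.g (nat_lit 1) (.e (nat_lit 169100) (nat_lit 0) .nil) .nil))))) 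
(.nd (nat_lit 8) (.nd (nat_lit 9) 
(.lf (nat_lit 499955) (.g (nat_lit 1879) (.e (nat_lit 163977) (nat_lit 30) (.e (nat_lit 573479) (nat_lit 13) (.e (nat_lit 65619) (nat_lit 10) (.e (nat_lit 344117) (nat_lit 21) (.e (nat_lit 516159) (nat_lit 10) (.e (nat_lit 434209) (nat_lit 18) (.e (nat_lit 5548) (nat_lit 306) (.e (nat_lit 2601) (nat_lit 163) .nil)))))))) (.g (nat_lit 1) (.e (nat_lit 168070) (nat_lit 0) .nil) .nil))) 
(.lf (nat_lit 500467) (.g (nat_lit 847) (.e (nat_lit 163977) (nat_lit 30) (.e (nat_lit 573489) (nat_lit 14) (.e (nat_lit 73753) (nat_lit 8) .nil))) (.g (nat_lit 0) (.e (nat_lit 168890) (nat_lit 0) .nil) .nil)))) (.nd (nat_lit 9) 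
(.lf (nat_lit 500211) (.g (nat_lit 3378) (.e (nat_lit 163977) (nat_lit 30) (.e (nat_lit 573485) (nat_lit 13) (.e (nat_lit 65604) (nat_lit 9) (.e (nat_lit 336013) (nat_lit 2) (.e (nat_lit 90170) (nat_lit 13) (.e (nat_lit 172038) (nat_lit 0) (.e (nat_lit 3397) (nat_lit 211) (.e (nat_lit 647181) (nat_lit 3) .nil)))))))) (.g (nat_lit 1) (.e (nat_lit 168446) (nat_lit 0) .nil) .nil))) 
(.lf (nat_lit 500723) (.g (nat_lit 2297) (.e (nat_lit 163977) (nat_lit 30) (.e (nat_lit 573491) (nat_lit 15) (.e (nat_lit 81951) (nat_lit 22) (.e (nat_lit 90170) (nat_lit 13) (.e (nat_lit 172036) (nat_lit 0) .nil))))) (.g (nat_lit 0) (.e (nat_lit 169328) (nat_lit 0) .nil) .nil))))))))) (.nd (nat_lit 4) (.nd (nat_lit 5) (.nd (nat_lit 6) (.nd (nat_lit 7) (.nd (nat_lit 8) (.nd (nat_lit 9) 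
(.lf (nat_lit 499723) (.g (nat_lit 1990) (.e (nat_lit 163976) (nat_lit 30) (.e (nat_lit 573491) (nat_lit 15) (.e (nat_lit 81954) (nat_lit 23) (.e (nat_lit 98356) (nat_lit 26) (.e (nat_lit 426363) (nat_lit 15) .nil))))) (.g (nat_lit 0) (.e (nat_lit 167447) (nat_lit 0) .nil) .nil))) 
(.lf (nat_lit 500235) (.g (nat_lit 3070) (.e (nat_lit 163977) (nat_lit 30) (.e (nat_lit 573485) (nat_lit 13) (.e (nat_lit 65604) (nat_lit 9) (.e (nat_lit 336013) (nat_lit 2) (.e (nat_lit 90170) (nat_lit 13) (.e (nat_lit 172068) (nat_lit 4) (.e (nat_lit 229665) (nat_lit 240) (.e (nat_lit 2612) (nat_lit 163) .nil)))))))) (.g (nat_lit 1) (.e (nat_lit 168472) (nat_lit 0) .nil) .nil)))) 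
(.nd (nat_lit 9) 
(.lf (nat_lit 499979) (.g (nat_lit 2300) (.e (nat_lit 163977) (nat_lit 30) (.e (nat_lit 573482) (nat_lit 13) (.e (nat_lit 65604) (nat_lit 9) (.e (nat_lit 336013) (nat_lit 2) (.e (nat_lit 90134) (nat_lit 9) (.e (nat_lit 2884) (nat_lit 184) (.e (nat_lit 426025) (nat_lit 0) (.e (nat_lit 3399) (nat_lit 211) (.e (nat_lit 647181) (nat_lit 3) .nil))))))))) (.g (nat_lit 1) (.e (nat_lit 168104) (nat_lit 0) .nil) .nil))) 
(.lf (nat_lit 500491) (.g (nat_lit 3282) (.e (nat_lit 163977) (nat_lit 30) (.e (nat_lit 573489) (nat_lit 14) (.e (nat_lit 73754) (nat_lit 8) (.e (nat_lit 557103) (nat_lit 14) (.e (nat_lit 180244) (nat_lit 5) .nil))))) (.g (nat_lit 0) (.e (nat_lit 168927) (nat_lit 0) .nil) .nil))))) (.nd (nat_lit 8) (.nd (nat_lit 9) 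
(.lf (nat_lit 499851) (.g (nat_lit 3252) (.e (nat_lit 163976) (nat_lit 30) (.e (nat_lit 573492) (nat_lit 15) (.e (nat_lit 81956) (nat_lit 23) (.e (nat_lit 98356) (nat_lit 26) (.e (nat_lit 426400) (nat_lit 15) (.e (nat_lit 2056) (nat_lit 142) (.e (nat_lit 704589) (nat_lit 3) .nil))))))) (.g (nat_lit 1) (.e (nat_lit 167808) (nat_lit 0) .nil) .nil))) 
(.lf (nat_lit 500363) (.g (nat_lit 2175) (.e (nat_lit 163977) (nat_lit 30) (.e (nat_lit 573485) (nat_lit 13) (.e (nat_lit 65619) (nat_lit 10) (.e (nat_lit 344117) (nat_lit 21) (.e (nat_lit 516171) (nat_lit 13) .nil))))) (.g (nat_lit 0) (.e (nat_lit 168638) (nat_lit 0) .nil) .nil)))) (.nd (nat_lit 9) 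
(.lf (nat_lit 500107) (.g (nat_lit 2150) (.e (nat_lit 163977) (nat_lit 30) (.e (nat_lit 573482) (nat_lit 13) (.e (nat_lit 65619) (nat_lit 10) (.e (nat_lit 344117) (nat_lit 21) (.e (nat_lit 524032) (nat_lit 9) (.e (nat_lit 426107) (nat_lit 1) (.e (nat_lit 164347) (nat_lit 240) (.e (nat_lit 2601) (nat_lit 163) .nil)))))))) (.g (nat_lit 1) (.e (nat_lit 168249) (nat_lit 0) .nil) .nil))) 
(.lf (nat_lit 500619) (.g (nat_lit 4427) (.e (nat_lit 163977) (nat_lit 30) (.e (nat_lit 573489) (nat_lit 14) (.e (nat_lit 73755) (nat_lit 8) (.e (nat_lit 557103) (nat_lit 14) (.e (nat_lit 180250) (nat_lit 10) (.e (nat_lit 573475) (nat_lit 12) (.e (nat_lit 57503) (nat_lit 38) (.e (nat_lit 638996) (nat_lit 7) .nil)))))))) (.g (nat_lit 1) (.e (nat_lit 169137) (nat_lit 0) .nil) .nil)))))) 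
(.nd (nat_lit 7) (.nd (nat_lit 8) (.nd (nat_lit 9) 
(.lf (nat_lit 499787) (.g (nat_lit 3039) (.e (nat_lit 163976) (nat_lit 30) (.e (nat_lit 573491) (nat_lit 15) (.e (nat_lit 81956) (nat_lit 23) (.e (nat_lit 98384) (nat_lit 32) (.e (nat_lit 475198) (nat_lit 40) .nil))))) (.g (nat_lit 0) (.e (nat_lit 167555) (nat_lit 0) .nil) .nil))) 
(.lf (nat_lit 500299) (.g (nat_lit 1985) (.e (nat_lit 163977) (nat_lit 30) (.e (nat_lit 573485) (nat_lit 13) (.e (nat_lit 65619) (nat_lit 10) (.e (nat_lit 344117) (nat_lit 21) (.e (nat_lit 516151) (nat_lit 9) (.e (nat_lit 426043) (nat_lit 0) (.e (nat_lit 2458) (nat_lit 157) (.e (nat_lit 5547) (nat_lit 306) (.e (nat_lit 2601) (nat_lit 163) .nil))))))))) (.g (nat_lit 1) (.e (nat_lit 168571) (nat_lit 0) .nil) .nil)))) 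
(.nd (nat_lit 9) 
(.lf (nat_lit 500043) (.g (nat_lit 4254) (.e (nat_lit 163977) (nat_lit 30) (.e (nat_lit 573482) (nat_lit 13) (.e (nat_lit 65604) (nat_lit 9) (.e (nat_lit 336028) (nat_lit 3) (.e (nat_lit 98366) (nat_lit 27) (.e (nat_lit 434209) (nat_lit 18) (.e (nat_lit 5547) (nat_lit 306) (.e (nat_lit 2601) (nat_lit 163) .nil)))))))) (.g (nat_lit 1) (.e (nat_lit 168183) (nat_lit 0) .nil) .nil))) 
(.lf (nat_lit 500555) (.g (nat_lit 3070) (.e (nat_lit 163977) (nat_lit 30) (.e (nat_lit 573489) (nat_lit 14) (.e (nat_lit 73755) (nat_lit 8) (.e (nat_lit 557098) (nat_lit 13) (.e (nat_lit 172065) (nat_lit 3) .nil))))) (.g (nat_lit 0) (.e (nat_lit 169042) (nat_lit 0) .nil) .nil))))) (.nd (nat_lit 8) (.nd (nat_lit 9) 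
(.lf (nat_lit 499915) (.g (nat_lit 4408) (.e (nat_lit 163976) (nat_lit 30) (.e (nat_lit 573492) (nat_lit 15) (.e (nat_lit 81956) (nat_lit 23) (.e (nat_lit 98384) (nat_lit 32) (.e (nat_lit 475197) (nat_lit 40) (.e (nat_lit 704589) (nat_lit 3) .nil)))))) (.g (nat_lit 1) (.e (nat_lit 167969) (nat_lit 0) .nil) .nil))) 
(.lf (nat_lit 500427) (.g (nat_lit 4997) (.e (nat_lit 163977) (nat_lit 30) (.e (nat_lit 573487) (nat_lit 14) (.e (nat_lit 73753) (nat_lit 8) (.e (nat_lit 557105) (nat_lit 14) (.e (nat_lit 180252) (nat_lit 10) (.e (nat_lit 573475) (nat_lit 12) (.e (nat_lit 57503) (nat_lit 38) (.e (nat_lit 638996) (nat_lit 7) .nil)))))))) (.g (nat_lit 1) (.e (nat_lit 168841) (nat_lit 0) .nil) .nil)))) 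
(.nd (nat_lit 9) 
(.lf (nat_lit 500171) (.g (nat_lit 3207) (.e (nat_lit 163977) (nat_lit 30) (.e (nat_lit 573484) (nat_lit 13) (.e (nat_lit 65610) (nat_lit 10) (.e (nat_lit 344117) (nat_lit 21) (.e (nat_lit 516151) (nat_lit 9) (.e (nat_lit 426047) (nat_lit 0) (.e (nat_lit 3406) (nat_lit 212) (.e (nat_lit 655375) (nat_lit 3) .nil)))))))) (.g (nat_lit 1) (.e (nat_lit 168362) (nat_lit 0) .nil) .nil))) 
(.lf (nat_lit 500683) (.g (nat_lit 3700) (.e (nat_lit 163977) (nat_lit 30) (.e (nat_lit 573489) (nat_lit 14) (.e (nat_lit 73755) (nat_lit 8) (.e (nat_lit 557104) (nat_lit 14) (.e (nat_lit 180252) (nat_lit 10) (.e (nat_lit 573475) (nat_lit 12) (.e (nat_lit 57501) (nat_lit 37) (.e (nat_lit 630800) (nat_lit 7) .nil)))))))) (.g (nat_lit 1) (.e (nat_lit 169237) (nat_lit 0) .nil) .nil))))))) 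
(.nd (nat_lit 6) (.nd (nat_lit 7) (.nd (nat_lit 8) (.nd (nat_lit 9) 
(.lf (nat_lit 499755) (.g (nat_lit 1832) (.e (nat_lit 163976) (nat_lit 30) (.e (nat_lit 573491) (nat_lit 15) (.e (nat_lit 81954) (nat_lit 23) (.e (nat_lit 98361) (nat_lit 26) (.e (nat_lit 426025) (nat_lit 0) (.e (nat_lit 3399) (nat_lit 211) (.e (nat_lit 647180) (nat_lit 3) .nil))))))) (.g (nat_lit 1) (.e (nat_lit 167501) (nat_lit 0) .nil) .nil))) 
(.lf (nat_lit 500267) (.g (nat_lit 3514) (.e (nat_lit 163977) (nat_lit 30) (.e (nat_lit 573485) (nat_lit 13) (.e (nat_lit 65604) (nat_lit 9) (.e (nat_lit 336028) (nat_lit 3) (.e (nat_lit 98367) (nat_lit 27) (.e (nat_lit 434202) (nat_lit 18) (.e (nat_lit 5537) (nat_lit 306) (.e (nat_lit 2611) (nat_lit 163) .nil)))))))) (.g (nat_lit 1) (.e (nat_lit 168537) (nat_lit 0) .nil) .nil)))) 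
(.nd (nat_lit 9) 
(.lf (nat_lit 500011) (.g (nat_lit 1960) (.e (nat_lit 163977) (nat_lit 30) (.e (nat_lit 573482) (nat_lit 13) (.e (nat_lit 65604) (nat_lit 9) (.e (nat_lit 336028) (nat_lit 3) (.e (nat_lit 98354) (nat_lit 26) .nil))))) (.g (nat_lit 0) (.e (nat_lit 168138) (nat_lit 0) .nil) .nil))) 
(.lf (nat_lit 500523) (.g (nat_lit 2847) (.e (nat_lit 163977) (nat_lit 30) (.e (nat_lit 573489) (nat_lit 14) (.e (nat_lit 73755) (nat_lit 8) (.e (nat_lit 557096) (nat_lit 13) (.e (nat_lit 172067) (nat_lit 3) (.e (nat_lit 204817) (nat_lit 17) (.e (nat_lit 7936) (nat_lit 149) (.e (nat_lit 761897) (nat_lit 15) .nil)))))))) (.g (nat_lit 1) (.e (nat_lit 168980) (nat_lit 0) .nil) .nil))))) 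
(.nd (nat_lit 8) (.nd (nat_lit 9) 
(.lf (nat_lit 499883) (.g (nat_lit 2383) (.e (nat_lit 163976) (nat_lit 30) (.e (nat_lit 573492) (nat_lit 15) (.e (nat_lit 81956) (nat_lit 23) (.e (nat_lit 98359) (nat_lit 26) (.e (nat_lit 433920) (nat_lit 19) (.e (nat_lit 114432) (nat_lit 3) .nil)))))) (.g (nat_lit 1) (.e (nat_lit 167872) (nat_lit 0) .nil) .nil))) 
(.lf (nat_lit 500395) (.g (nat_lit 4006) (.e (nat_lit 163977) (nat_lit 30) (.e (nat_lit 573487) (nat_lit 14) (.e (nat_lit 73753) (nat_lit 8) (.e (nat_lit 557103) (nat_lit 14) (.e (nat_lit 180250) (nat_lit 10) (.e (nat_lit 573473) (nat_lit 12) (.e (nat_lit 57504) (nat_lit 38) (.e (nat_lit 638996) (nat_lit 7) .nil)))))))) (.g (nat_lit 1) (.e (nat_lit 168804) (nat_lit 0) .nil) .nil)))) 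
(.nd (nat_lit 9) 
(.lf (nat_lit 500139) (.g (nat_lit 2252) (.e (nat_lit 163977) (nat_lit 30) (.e (nat_lit 573482) (nat_lit 13) (.e (nat_lit 65619) (nat_lit 10) (.e (nat_lit 344117) (nat_lit 21) (.e (nat_lit 516171) (nat_lit 13) (.e (nat_lit 458774) (nat_lit 18) (.e (nat_lit 5546) (nat_lit 306) (.e (nat_lit 2600) (nat_lit 163) .nil)))))))) (.g (nat_lit 1) (.e (nat_lit 168281) (nat_lit 0) .nil) .nil))) 
(.lf (nat_lit 500651) (.g (nat_lit 3306) (.e (nat_lit 163977) (nat_lit 30) (.e (nat_lit 573489) (nat_lit 14) (.e (nat_lit 73755) (nat_lit 8) (.e (nat_lit 557104) (nat_lit 14) (.e (nat_lit 180244) (nat_lit 5) (.e (nat_lit 532489) (nat_lit 0) (.e (nat_lit 2272) (nat_lit 149) (.e (nat_lit 761899) (nat_lit 15) .nil)))))))) (.g (nat_lit 1) (.e (nat_lit 169181) (nat_lit 0) .nil) .nil)))))) 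
(.nd (nat_lit 7) (.nd (nat_lit 8) (.nd (nat_lit 9) 
(.lf (nat_lit 499819) (.g (nat_lit 220) (.e (nat_lit 163976) (nat_lit 30) (.e (nat_lit 573492) (nat_lit 15) (.e (nat_lit 81956) (nat_lit 23) .nil))) (.g (nat_lit 0) (.e (nat_lit 167744) (nat_lit 0) .nil) .nil))) 
(.lf (nat_lit 500331) (.g (nat_lit 2002) (.e (nat_lit 163977) (nat_lit 30) (.e (nat_lit 573485) (nat_lit 13) (.e (nat_lit 65619) (nat_lit 10) (.e (nat_lit 344117) (nat_lit 21) (.e (nat_lit 516159) (nat_lit 10) .nil))))) (.g (nat_lit 0) (.e (nat_lit 168603) (nat_lit 0) .nil) .nil)))) (.nd (nat_lit 9) 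
(.lf (nat_lit 500075) (.g (nat_lit 4109) (.e (nat_lit 163977) (nat_lit 30) (.e (nat_lit 573482) (nat_lit 13) (.e (nat_lit 65619) (nat_lit 10) (.e (nat_lit 344117) (nat_lit 21) (.e (nat_lit 516151) (nat_lit 9) (.e (nat_lit 426042) (nat_lit 0) (.e (nat_lit 2458) (nat_lit 157) (.e (nat_lit 5547) (nat_lit 306) (.e (nat_lit 2601) (nat_lit 163) .nil))))))))) (.g (nat_lit 1) (.e (nat_lit 168217) (nat_lit 0) .nil) .nil))) 
(.lf (nat_lit 500587) (.g (nat_lit 2740) (.e (nat_lit 163977) (nat_lit 30) (.e (nat_lit 573489) (nat_lit 14) (.e (nat_lit 73755) (nat_lit 8) (.e (nat_lit 557103) (nat_lit 14) (.e (nat_lit 180243) (nat_lit 5) (.e (nat_lit 532484) (nat_lit 0) (.e (nat_lit 2271) (nat_lit 149) (.e (nat_lit 761898) (nat_lit 15) .nil)))))))) (.g (nat_lit 1) (.e (nat_lit 169086) (nat_lit 0) .nil) .nil))))) 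
(.nd (nat_lit 8) (.nd (nat_lit 9) 
(.lf (nat_lit 499947) (.g (nat_lit 2673) (.e (nat_lit 163976) (nat_lit 30) (.e (nat_lit 573493) (nat_lit 15) (.e (nat_lit 81956) (nat_lit 23) (.e (nat_lit 98366) (nat_lit 27) .nil)))) (.g (nat_lit 0) (.e (nat_lit 168032) (nat_lit 0) .nil) .nil))) 
(.lf (nat_lit 500459) (.g (nat_lit 1661) (.e (nat_lit 163977) (nat_lit 30) (.e (nat_lit 573488) (nat_lit 14) (.e (nat_lit 73755) (nat_lit 8) (.e (nat_lit 557105) (nat_lit 14) .nil)))) (.g (nat_lit 0) (.e (nat_lit 168877) (nat_lit 0) .nil) .nil)))) (.nd (nat_lit 9) 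
(.lf (nat_lit 500203) (.g (nat_lit 441) (.e (nat_lit 163977) (nat_lit 30) (.e (nat_lit 573484) (nat_lit 13) (.e (nat_lit 65617) (nat_lit 10) .nil))) (.g (nat_lit 0) (.e (nat_lit 168434) (nat_lit 0) .nil) .nil))) 
(.lf (nat_lit 500715) (.g (nat_lit 1088) (.e (nat_lit 163977) (nat_lit 30) (.e (nat_lit 573489) (nat_lit 14) (.e (nat_lit 73768) (nat_lit 19) (.e (nat_lit 647171) (nat_lit 0) .nil)))) (.g (nat_lit 0) (.e (nat_lit 169297) (nat_lit 0) .nil) .nil)))))))) (.nd (nat_lit 5) (.nd (nat_lit 6) (.nd (nat_lit 7) (.nd (nat_lit 8) (.nd (nat_lit 9) 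
(.lf (nat_lit 499739) (.g (nat_lit 1648) (.e (nat_lit 163976) (nat_lit 30) (.e (nat_lit 573491) (nat_lit 15) (.e (nat_lit 81954) (nat_lit 23) (.e (nat_lit 98357) (nat_lit 26) (.e (nat_lit 426442) (nat_lit 19) (.e (nat_lit 114432) (nat_lit 3) .nil)))))) (.g (nat_lit 1) (.e (nat_lit 167467) (nat_lit 0) .nil) .nil))) 
(.lf (nat_lit 500251) (.g (nat_lit 2920) (.e (nat_lit 163977) (nat_lit 30) (.e (nat_lit 573485) (nat_lit 13) (.e (nat_lit 65604) (nat_lit 9) (.e (nat_lit 336028) (nat_lit 3) (.e (nat_lit 98362) (nat_lit 26) (.e (nat_lit 426025) (nat_lit 0) (.e (nat_lit 3397) (nat_lit 211) (.e (nat_lit 647181) (nat_lit 3) .nil)))))))) (.g (nat_lit 1) (.e (nat_lit 168518) (nat_lit 0) .nil) .nil)))) (.nd (nat_lit 9) 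
(.lf (nat_lit 499995) (.g (nat_lit 3023) (.e (nat_lit 163977) (nat_lit 30) (.e (nat_lit 573482) (nat_lit 13) (.e (nat_lit 65604) (nat_lit 9) (.e (nat_lit 336013) (nat_lit 2) (.e (nat_lit 90170) (nat_lit 13) (.e (nat_lit 172059) (nat_lit 1) (.e (nat_lit 164346) (nat_lit 240) (.e (nat_lit 2601) (nat_lit 163) .nil)))))))) (.g (nat_lit 1) (.e (nat_lit 168120) (nat_lit 0) .nil) .nil))) 
(.lf (nat_lit 500507) (.g (nat_lit 4113) (.e (nat_lit 163977) (nat_lit 30) (.e (nat_lit 573489) (nat_lit 14) (.e (nat_lit 73754) (nat_lit 8) (.e (nat_lit 557105) (nat_lit 14) (.e (nat_lit 180252) (nat_lit 10) (.e (nat_lit 573473) (nat_lit 12) (.e (nat_lit 57503) (nat_lit 38) (.e (nat_lit 638996) (nat_lit 7) .nil)))))))) (.g (nat_lit 1) (.e (nat_lit 168943) (nat_lit 0) .nil) .nil))))) 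
(.nd (nat_lit 8) (.nd (nat_lit 9) 
(.lf (nat_lit 499867) (.g (nat_lit 2623) (.e (nat_lit 163976) (nat_lit 30) (.e (nat_lit 573492) (nat_lit 15) (.e (nat_lit 81956) (nat_lit 23) (.e (nat_lit 98359) (nat_lit 26) (.e (nat_lit 426018) (nat_lit 0) .nil))))) (.g (nat_lit 0) (.e (nat_lit 167829) (nat_lit 0) .nil) .nil))) 
(.lf (nat_lit 500379) (.g (nat_lit 3242) (.e (nat_lit 163977) (nat_lit 30) (.e (nat_lit 573487) (nat_lit 14) (.e (nat_lit 73753) (nat_lit 8) (.e (nat_lit 557100) (nat_lit 13) (.e (nat_lit 172065) (nat_lit 3) (.e (nat_lit 204821) (nat_lit 17) (.e (nat_lit 2270) (nat_lit 149) (.e (nat_lit 761898) (nat_lit 15) .nil)))))))) (.g (nat_lit 1) (.e (nat_lit 168740) (nat_lit 0) .nil) .nil)))) 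
(.nd (nat_lit 9) 
(.lf (nat_lit 500123) (.g (nat_lit 3312) (.e (nat_lit 163977) (nat_lit 30) (.e (nat_lit 573482) (nat_lit 13) (.e (nat_lit 65619) (nat_lit 10) (.e (nat_lit 344117) (nat_lit 21) (.e (nat_lit 516160) (nat_lit 10) (.e (nat_lit 434209) (nat_lit 18) (.e (nat_lit 5548) (nat_lit 306) (.e (nat_lit 2600) (nat_lit 163) .nil)))))))) (.g (nat_lit 1) (.e (nat_lit 168265) (nat_lit 0) .nil) .nil))) 
(.lf (nat_lit 500635) (.g (nat_lit 3028) (.e (nat_lit 163977) (nat_lit 30) (.e (nat_lit 573489) (nat_lit 14) (.e (nat_lit 73755) (nat_lit 8) (.e (nat_lit 557104) (nat_lit 14) (.e (nat_lit 180242) (nat_lit 5) (.e (nat_lit 532484) (nat_lit 0) (.e (nat_lit 7936) (nat_lit 149) (.e (nat_lit 761898) (nat_lit 15) .nil)))))))) (.g (nat_lit 1) (.e (nat_lit 169156) (nat_lit 0) .nil) .nil)))))) 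
(.nd (nat_lit 7) (.nd (nat_lit 8) (.nd (nat_lit 9) 
(.lf (nat_lit 499803) (.g (nat_lit 2847) (.e (nat_lit 163976) (nat_lit 30) (.e (nat_lit 573492) (nat_lit 15) (.e (nat_lit 81953) (nat_lit 22) (.e (nat_lit 90170) (nat_lit 13) (.e (nat_lit 172137) (nat_lit 15) .nil))))) (.g (nat_lit 0) (.e (nat_lit 167684) (nat_lit 0) .nil) .nil))) 
(.lf (nat_lit 500315) (.g (nat_lit 2413) (.e (nat_lit 163977) (nat_lit 30) (.e (nat_lit 573485) (nat_lit 13) (.e (nat_lit 65619) (nat_lit 10) (.e (nat_lit 344117) (nat_lit 21) (.e (nat_lit 516151) (nat_lit 9) (.e (nat_lit 426142) (nat_lit 4) (.e (nat_lit 229668) (nat_lit 240) (.e (nat_lit 2605) (nat_lit 163) .nil)))))))) (.g (nat_lit 1) (.e (nat_lit 168587) (nat_lit 0) .nil) .nil)))) 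
(.nd (nat_lit 9) 
(.lf (nat_lit 500059) (.g (nat_lit 3507) (.e (nat_lit 163977) (nat_lit 30) (.e (nat_lit 573482) (nat_lit 13) (.e (nat_lit 65619) (nat_lit 10) (.e (nat_lit 344117) (nat_lit 21) (.e (nat_lit 516097) (nat_lit 0) (.e (nat_lit 7366) (nat_lit 388) (.e (nat_lit 2610) (nat_lit 163) (.e (nat_lit 164347) (nat_lit 240) (.e (nat_lit 2610) (nat_lit 163) .nil))))))))) (.g (nat_lit 1) (.e (nat_lit 168200) (nat_lit 0) .nil) .nil))) 
(.lf (nat_lit 500571) (.g (nat_lit 4095) (.e (nat_lit 163977) (nat_lit 30) (.e (nat_lit 573489) (nat_lit 14) (.e (nat_lit 73755) (nat_lit 8) (.e (nat_lit 557098) (nat_lit 13) (.e (nat_lit 172067) (nat_lit 3) (.e (nat_lit 204817) (nat_lit 17) (.e (nat_lit 2272) (nat_lit 149) (.e (nat_lit 761899) (nat_lit 15) .nil)))))))) (.g (nat_lit 1) (.e (nat_lit 169062) (nat_lit 0) .nil) .nil))))) 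
(.nd (nat_lit 8) (.nd (nat_lit 9) 
(.lf (nat_lit 499931) (.g (nat_lit 4298) (.e (nat_lit 163976) (nat_lit 30) (.e (nat_lit 573492) (nat_lit 15) (.e (nat_lit 81956) (nat_lit 23) (.e (nat_lit 98386) (nat_lit 32) (.e (nat_lit 475199) (nat_lit 40) (.e (nat_lit 704589) (nat_lit 3) .nil)))))) (.g (nat_lit 1) (.e (nat_lit 167985) (nat_lit 0) .nil) .nil))) 
(.lf (nat_lit 500443) (.g (nat_lit 782) (.e (nat_lit 163977) (nat_lit 30) (.e (nat_lit 573487) (nat_lit 14) (.e (nat_lit 73755) (nat_lit 8) .nil))) (.g (nat_lit 0) (.e (nat_lit 168858) (nat_lit 0) .nil) .nil)))) (.nd (nat_lit 9) 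
(.lf (nat_lit 500187) (.g (nat_lit 3497) (.e (nat_lit 163977) (nat_lit 30) (.e (nat_lit 573484) (nat_lit 13) (.e (nat_lit 65610) (nat_lit 10) (.e (nat_lit 344117) (nat_lit 21) (.e (nat_lit 516155) (nat_lit 9) .nil))))) (.g (nat_lit 0) (.e (nat_lit 168385) (nat_lit 0) .nil) .nil))) 
(.lf (nat_lit 500699) (.g (nat_lit 4128) (.e (nat_lit 163977) (nat_lit 30) (.e (nat_lit 573489) (nat_lit 14) (.e (nat_lit 73755) (nat_lit 8) (.e (nat_lit 557105) (nat_lit 14) (.e (nat_lit 180252) (nat_lit 10) (.e (nat_lit 573473) (nat_lit 12) (.e (nat_lit 57500) (nat_lit 37) (.e (nat_lit 630800) (nat_lit 7) .nil)))))))) (.g (nat_lit 1) (.e (nat_lit 169271) (nat_lit 0) .nil) .nil))))))) 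
(.nd (nat_lit 6) (.nd (nat_lit 7) (.nd (nat_lit 8) (.nd (nat_lit 9) 
(.lf (nat_lit 499771) (.g (nat_lit 2764) (.e (nat_lit 163976) (nat_lit 30) (.e (nat_lit 573491) (nat_lit 15) (.e (nat_lit 81954) (nat_lit 23) (.e (nat_lit 98385) (nat_lit 32) (.e (nat_lit 475198) (nat_lit 40) (.e (nat_lit 704589) (nat_lit 3) .nil)))))) (.g (nat_lit 1) (.e (nat_lit 167539) (nat_lit 0) .nil) .nil))) 
(.lf (nat_lit 500283) (.g (nat_lit 3959) (.e (nat_lit 163977) (nat_lit 30) (.e (nat_lit 573485) (nat_lit 13) (.e (nat_lit 65619) (nat_lit 10) (.e (nat_lit 344117) (nat_lit 21) (.e (nat_lit 516143) (nat_lit 9) (.e (nat_lit 426109) (nat_lit 1) (.e (nat_lit 164347) (nat_lit 240) (.e (nat_lit 2601) (nat_lit 163) .nil)))))))) (.g (nat_lit 1) (.e (nat_lit 168555) (nat_lit 0) .nil) .nil)))) 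
(.nd (nat_lit 9) 
(.lf (nat_lit 500027) (.g (nat_lit 3352) (.e (nat_lit 163977) (nat_lit 30) (.e (nat_lit 573482) (nat_lit 13) (.e (nat_lit 65604) (nat_lit 9) (.e (nat_lit 336028) (nat_lit 3) (.e (nat_lit 98359) (nat_lit 26) (.e (nat_lit 426142) (nat_lit 4) (.e (nat_lit 229663) (nat_lit 240) (.e (nat_lit 2604) (nat_lit 163) .nil)))))))) (.g (nat_lit 1) (.e (nat_lit 168163) (nat_lit 0) .nil) .nil))) 
(.lf (nat_lit 500539) (.g (nat_lit 2570) (.e (nat_lit 163977) (nat_lit 30) (.e (nat_lit 573489) (nat_lit 14) (.e (nat_lit 73755) (nat_lit 8) (.e (nat_lit 557097) (nat_lit 13) (.e (nat_lit 172066) (nat_lit 3) (.e (nat_lit 204819) (nat_lit 17) (.e (nat_lit 7936) (nat_lit 149) (.e (nat_lit 761899) (nat_lit 15) .nil)))))))) (.g (nat_lit 1) (.e (nat_lit 169006) (nat_lit 0) .nil) .nil))))) 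
(.nd (nat_lit 8) (.nd (nat_lit 9) 
(.lf (nat_lit 499899) (.g (nat_lit 3124) (.e (nat_lit 163976) (nat_lit 30) (.e (nat_lit 573492) (nat_lit 15) (.e (nat_lit 81956) (nat_lit 23) (.e (nat_lit 98365) (nat_lit 26) .nil)))) (.g (nat_lit 0) (.e (nat_lit 167902) (nat_lit 0) .nil) .nil))) 
(.lf (nat_lit 500411) (.g (nat_lit 4985) (.e (nat_lit 163977) (nat_lit 30) (.e (nat_lit 573487) (nat_lit 14) (.e (nat_lit 73753) (nat_lit 8) (.e (nat_lit 557105) (nat_lit 14) (.e (nat_lit 180251) (nat_lit 10) (.e (nat_lit 573475) (nat_lit 12) (.e (nat_lit 57503) (nat_lit 38) (.e (nat_lit 638996) (nat_lit 7) .nil)))))))) (.g (nat_lit 1) (.e (nat_lit 168823) (nat_lit 0) .nil) .nil)))) 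
(.nd (nat_lit 9) 
(.lf (nat_lit 500155) (.g (nat_lit 2574) (.e (nat_lit 163977) (nat_lit 30) (.e (nat_lit 573484) (nat_lit 13) (.e (nat_lit 65610) (nat_lit 10) (.e (nat_lit 344117) (nat_lit 21) (.e (nat_lit 516145) (nat_lit 9) (.e (nat_lit 426442) (nat_lit 19) (.e (nat_lit 114432) (nat_lit 3) .nil))))))) (.g (nat_lit 1) (.e (nat_lit 168331) (nat_lit 0) .nil) .nil))) 
(.lf (nat_lit 500667) (.g (nat_lit 2986) (.e (nat_lit 163977) (nat_lit 30) (.e (nat_lit 573489) (nat_lit 14) (.e (nat_lit 73755) (nat_lit 8) (.e (nat_lit 557104) (nat_lit 14) (.e (nat_lit 180250) (nat_lit 10) (.e (nat_lit 573475) (nat_lit 12) (.e (nat_lit 57504) (nat_lit 38) (.e (nat_lit 638996) (nat_lit 7) .nil)))))))) (.g (nat_lit 1) (.e (nat_lit 169221) (nat_lit 0) .nil) .nil)))))) 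
(.nd (nat_lit 7) (.nd (nat_lit 8) (.nd (nat_lit 9) 
(.lf (nat_lit 499835) (.g (nat_lit 3214) (.e (nat_lit 163976) (nat_lit 30) (.e (nat_lit 573492) (nat_lit 15) (.e (nat_lit 81956) (nat_lit 23) (.e (nat_lit 98356) (nat_lit 26) (.e (nat_lit 426360) (nat_lit 15) (.e (nat_lit 2060) (nat_lit 142) (.e (nat_lit 704589) (nat_lit 3) .nil))))))) (.g (nat_lit 1) (.e (nat_lit 167792) (nat_lit 0) .nil) .nil))) 
(.lf (nat_lit 500347) (.g (nat_lit 4471) (.e (nat_lit 163977) (nat_lit 30) (.e (nat_lit 573485) (nat_lit 13) (.e (nat_lit 65619) (nat_lit 10) (.e (nat_lit 344117) (nat_lit 21) (.e (nat_lit 516160) (nat_lit 10) (.e (nat_lit 434209) (nat_lit 18) (.e (nat_lit 5547) (nat_lit 306) (.e (nat_lit 2611) (nat_lit 163) .nil)))))))) (.g (nat_lit 1) (.e (nat_lit 168619) (nat_lit 0) .nil) .nil)))) 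
(.nd (nat_lit 9) 
(.lf (nat_lit 500091) (.g (nat_lit 3007) (.e (nat_lit 163977) (nat_lit 30) (.e (nat_lit 573482) (nat_lit 13) (.e (nat_lit 65619) (nat_lit 10) (.e (nat_lit 344117) (nat_lit 21) (.e (nat_lit 516151) (nat_lit 9) (.e (nat_lit 426142) (nat_lit 4) (.e (nat_lit 229666) (nat_lit 240) (.e (nat_lit 2604) (nat_lit 163) .nil)))))))) (.g (nat_lit 1) (.e (nat_lit 168233) (nat_lit 0) .nil) .nil))) 
(.lf (nat_lit 500603) (.g (nat_lit 2050) (.e (nat_lit 163977) (nat_lit 30) (.e (nat_lit 573489) (nat_lit 14) (.e (nat_lit 73755) (nat_lit 8) (.e (nat_lit 557103) (nat_lit 14) (.e (nat_lit 180250) (nat_lit 10) .nil))))) (.g (nat_lit 0) (.e (nat_lit 169121) (nat_lit 0) .nil) .nil))))) (.nd (nat_lit 8) (.nd (nat_lit 9) 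
(.lf (nat_lit 499963) (.g (nat_lit 2042) (.e (nat_lit 163977) (nat_lit 30) (.e (nat_lit 573481) (nat_lit 13) (.e (nat_lit 65604) (nat_lit 9) (.e (nat_lit 336028) (nat_lit 3) (.e (nat_lit 98359) (nat_lit 26) .nil))))) (.g (nat_lit 0) (.e (nat_lit 168080) (nat_lit 0) .nil) .nil))) 
(.lf (nat_lit 500475) (.g (nat_lit 3061) (.e (nat_lit 163977) (nat_lit 30) (.e (nat_lit 573489) (nat_lit 14) (.e (nat_lit 73754) (nat_lit 8) (.e (nat_lit 557100) (nat_lit 13) (.e (nat_lit 172067) (nat_lit 3) (.e (nat_lit 204815) (nat_lit 17) (.e (nat_lit 2271) (nat_lit 149) (.e (nat_lit 761898) (nat_lit 15) .nil)))))))) (.g (nat_lit 1) (.e (nat_lit 168900) (nat_lit 0) .nil) .nil)))) 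
(.nd (nat_lit 9) 
(.lf (nat_lit 500219) (.g (nat_lit 3939) (.e (nat_lit 163977) (nat_lit 30) (.e (nat_lit 573485) (nat_lit 13) (.e (nat_lit 65604) (nat_lit 9) (.e (nat_lit 336013) (nat_lit 2) (.e (nat_lit 90170) (nat_lit 13) (.e (nat_lit 172059) (nat_lit 1) (.e (nat_lit 164345) (nat_lit 240) (.e (nat_lit 2601) (nat_lit 163) .nil)))))))) (.g (nat_lit 1) (.e (nat_lit 168456) (nat_lit 0) .nil) .nil))) 
(.lf (nat_lit 500731) (.g (nat_lit 3092) (.e (nat_lit 163977) (nat_lit 30) (.e (nat_lit 573491) (nat_lit 15) (.e (nat_lit 81951) (nat_lit 22) (.e (nat_lit 90170) (nat_lit 13) (.e (nat_lit 172048) (nat_lit 0) .nil))))) (.g (nat_lit 0) (.e (nat_lit 169339) (nat_lit 0) .nil) .nil)))))))))) 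
(.nd (nat_lit 3) (.nd (nat_lit 4) (.nd (nat_lit 5) (.nd (nat_lit 6) (.nd (nat_lit 7) 
(.nd (nat_lit 8) (.nd (nat_lit 9) 
(.lf (nat_lit 499719) (.g (nat_lit 2007) (.e (nat_lit 163976) (nat_lit 30) (.e (nat_lit 573491) (nat_lit 15) (.e (nat_lit 81954) (nat_lit 23) (.e (nat_lit 98356) (nat_lit 26) (.e (nat_lit 426361) (nat_lit 15) (.e (nat_lit 2064) (nat_lit 142) (.e (nat_lit 704589) (nat_lit 3) .nil))))))) (.g (nat_lit 1) (.e (nat_lit 167443) (nat_lit 0) .nil) .nil))) 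
(.lf (nat_lit 500231) (.g (nat_lit 2849) (.e (nat_lit 163977) (nat_lit 30) (.e (nat_lit 573485) (nat_lit 13) (.e (nat_lit 65604) (nat_lit 9) (.e (nat_lit 336013) (nat_lit 2) (.e (nat_lit 90170) (nat_lit 13) (.e (nat_lit 172061) (nat_lit 1) (.e (nat_lit 164348) (nat_lit 240) (.e (nat_lit 2600) (nat_lit 163) .nil)))))))) (.g (nat_lit 1) (.e (nat_lit 168468) (nat_lit 0) .nil) .nil)))) 
(.nd (nat_lit 9) 
(.lf (nat_lit 499975) (.g (nat_lit 2732) (.e (nat_lit 163977) (nat_lit 30) (.e (nat_lit 573481) (nat_lit 13) (.e (nat_lit 65619) (nat_lit 10) (.e (nat_lit 344117) (nat_lit 21) (.e (nat_lit 516160) (nat_lit 10) (.e (nat_lit 434271) (nat_lit 38) (.e (nat_lit 655375) (nat_lit 3) .nil))))))) (.g (nat_lit 1) (.e (nat_lit 168092) (nat_lit 0) .nil) .nil))) 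
(.lf (nat_lit 500487) (.g (nat_lit 2159) (.e (nat_lit 163977) (nat_lit 30) (.e (nat_lit 573489) (nat_lit 14) (.e (nat_lit 73754) (nat_lit 8) (.e (nat_lit 557103) (nat_lit 14) .nil)))) (.g (nat_lit 0) (.e (nat_lit 168923) (nat_lit 0) .nil) .nil))))) (.nd (nat_lit 8) (.nd (nat_lit 9) 
(.lf (nat_lit 499847) (.g (nat_lit 3154) (.e (nat_lit 163976) (nat_lit 30) (.e (nat_lit 573492) (nat_lit 15) (.e (nat_lit 81956) (nat_lit 23) (.e (nat_lit 98356) (nat_lit 26) (.e (nat_lit 426397) (nat_lit 15) .nil))))) (.g (nat_lit 0) (.e (nat_lit 167804) (nat_lit 0) .nil) .nil))) 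
(.lf (nat_lit 500359) (.g (nat_lit 2096) (.e (nat_lit 163977) (nat_lit 30) (.e (nat_lit 573485) (nat_lit 13) (.e (nat_lit 65619) (nat_lit 10) (.e (nat_lit 344117) (nat_lit 21) (.e (nat_lit 516169) (nat_lit 13) .nil))))) (.g (nat_lit 0) (.e (nat_lit 168631) (nat_lit 0) .nil) .nil)))) (.nd (nat_lit 9) 
(.lf (nat_lit 500103) (.g (nat_lit 2891) (.e (nat_lit 163977) (nat_lit 30) (.e (nat_lit 573482) (nat_lit 13) (.e (nat_lit 65619) (nat_lit 10) (.e (nat_lit 344117) (nat_lit 21) (.e (nat_lit 516153) (nat_lit 9) (.e (nat_lit 426144) (nat_lit 4) (.e (nat_lit 229663) (nat_lit 240) (.e (nat_lit 2612) (nat_lit 163) .nil)))))))) (.g (nat_lit 1) (.e (nat_lit 168245) (nat_lit 0) .nil) .nil))) 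
(.lf (nat_lit 500615) (.g (nat_lit 3275) (.e (nat_lit 163977) (nat_lit 30) (.e (nat_lit 573489) (nat_lit 14) (.e (nat_lit 73755) (nat_lit 8) (.e (nat_lit 557103) (nat_lit 14) (.e (nat_lit 180250) (nat_lit 10) (.e (nat_lit 573475) (nat_lit 12) (.e (nat_lit 57501) (nat_lit 37) (.e (nat_lit 630799) (nat_lit 7) .nil)))))))) (.g (nat_lit 1) (.e (nat_lit 169133) (nat_lit 0) .nil) .nil)))))) 
(.nd (nat_lit 7) (.nd (nat_lit 8) (.nd (nat_lit 9) 
(.lf (nat_lit 499783) (.g (nat_lit 525) (.e (nat_lit 163976) (nat_lit 30) (.e (nat_lit 573491) (nat_lit 15) (.e (nat_lit 81956) (nat_lit 23) .nil))) (.g (nat_lit 0) (.e (nat_lit 167551) (nat_lit 0) .nil) .nil))) 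
(.lf (nat_lit 500295) (.g (nat_lit 3704) (.e (nat_lit 163977) (nat_lit 30) (.e (nat_lit 573485) (nat_lit 13) (.e (nat_lit 65619) (nat_lit 10) (.e (nat_lit 344117) (nat_lit 21) (.e (nat_lit 516151) (nat_lit 9) (.e (nat_lit 426042) (nat_lit 0) (.e (nat_lit 2458) (nat_lit 157) (.e (nat_lit 5546) (nat_lit 306) (.e (nat_lit 2611) (nat_lit 163) .nil))))))))) (.g (nat_lit 1) (.e (nat_lit 168567) (nat_lit 0) .nil) .nil)))) 
(.nd (nat_lit 9) 
(.lf (nat_lit 500039) (.g (nat_lit 1923) (.e (nat_lit 163977) (nat_lit 30) (.e (nat_lit 573482) (nat_lit 13) (.e (nat_lit 65604) (nat_lit 9) (.e (nat_lit 336028) (nat_lit 3) (.e (nat_lit 98366) (nat_lit 27) .nil))))) (.g (nat_lit 0) (.e (nat_lit 168179) (nat_lit 0) .nil) .nil))) 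
(.lf (nat_lit 500551) (.g (nat_lit 2233) (.e (nat_lit 163977) (nat_lit 30) (.e (nat_lit 573489) (nat_lit 14) (.e (nat_lit 73755) (nat_lit 8) (.e (nat_lit 557097) (nat_lit 13) (.e (nat_lit 172067) (nat_lit 3) (.e (nat_lit 204819) (nat_lit 17) (.e (nat_lit 7936) (nat_lit 149) (.e (nat_lit 761899) (nat_lit 15) .nil)))))))) (.g (nat_lit 1) (.e (nat_lit 169025) (nat_lit 0) .nil) .nil))))) 
(.nd (nat_lit 8) (.nd (nat_lit 9) 
(.lf (nat_lit 499911) (.g (nat_lit 1583) (.e (nat_lit 163976) (nat_lit 30) (.e (nat_lit 573492) (nat_lit 15) (.e (nat_lit 81956) (nat_lit 23) (.e (nat_lit 98383) (nat_lit 32) .nil)))) (.g (nat_lit 0) (.e (nat_lit 167965) (nat_lit 0) .nil) .nil))) 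
(.lf (nat_lit 500423) (.g (nat_lit 3859) (.e (nat_lit 163977) (nat_lit 30) (.e (nat_lit 573487) (nat_lit 14) (.e (nat_lit 73753) (nat_lit 8) (.e (nat_lit 557105) (nat_lit 14) (.e (nat_lit 180252) (nat_lit 10) (.e (nat_lit 573475) (nat_lit 12) (.e (nat_lit 57500) (nat_lit 37) (.e (nat_lit 630800) (nat_lit 7) .nil)))))))) (.g (nat_lit 1) (.e (nat_lit 168837) (nat_lit 0) .nil) .nil)))) 
(.nd (nat_lit 9) 
(.lf (nat_lit 500167) (.g (nat_lit 2958) (.e (nat_lit 163977) (nat_lit 30) (.e (nat_lit 573484) (nat_lit 13) (.e (nat_lit 65610) (nat_lit 10) (.e (nat_lit 344117) (nat_lit 21) (.e (nat_lit 516151) (nat_lit 9) (.e (nat_lit 426042) (nat_lit 0) (.e (nat_lit 3406) (nat_lit 212) (.e (nat_lit 655375) (nat_lit 3) .nil)))))))) (.g (nat_lit 1) (.e (nat_lit 168354) (nat_lit 0) .nil) .nil))) 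
(.lf (nat_lit 500679) (.g (nat_lit 4072) (.e (nat_lit 163977) (nat_lit 30) (.e (nat_lit 573489) (nat_lit 14) (.e (nat_lit 73755) (nat_lit 8) (.e (nat_lit 557104) (nat_lit 14) (.e (nat_lit 180252) (nat_lit 10) (.e (nat_lit 573473) (nat_lit 12) (.e (nat_lit 57504) (nat_lit 38) (.e (nat_lit 638996) (nat_lit 7) .nil)))))))) (.g (nat_lit 1) (.e (nat_lit 169233) (nat_lit 0) .nil) .nil))))))) 
(.nd (nat_lit 6) (.nd (nat_lit 7) (.nd (nat_lit 8) (.nd (nat_lit 9) 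
(.lf (nat_lit 499751) (.g (nat_lit 1217) (.e (nat_lit 163976) (nat_lit 30) (.e (nat_lit 573491) (nat_lit 15) (.e (nat_lit 81954) (nat_lit 23) (.e (nat_lit 98360) (nat_lit 26) .nil)))) (.g (nat_lit 0) (.e (nat_lit 167495) (nat_lit 0) .nil) .nil))) 
(.lf (nat_lit 500263) (.g (nat_lit 4495) (.e (nat_lit 163977) (nat_lit 30) (.e (nat_lit 573485) (nat_lit 13) (.e (nat_lit 65604) (nat_lit 9) (.e (nat_lit 336028) (nat_lit 3) (.e (nat_lit 98366) (nat_lit 27) (.e (nat_lit 434209) (nat_lit 18) (.e (nat_lit 5548) (nat_lit 306) (.e (nat_lit 2611) (nat_lit 163) .nil)))))))) (.g (nat_lit 1) (.e (nat_lit 168533) (nat_lit 0) .nil) .nil)))) 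
(.nd (nat_lit 9) 
(.lf (nat_lit 500007) (.g (nat_lit 5679) (.e (nat_lit 163977) (nat_lit 30) (.e (nat_lit 573482) (nat_lit 13) (.e (nat_lit 65604) (nat_lit 9) (.e (nat_lit 336013) (nat_lit 2) (.e (nat_lit 90170) (nat_lit 13) (.e (nat_lit 172069) (nat_lit 4) (.e (nat_lit 229663) (nat_lit 240) (.e (nat_lit 2612) (nat_lit 163) .nil)))))))) (.g (nat_lit 1) (.e (nat_lit 168132) (nat_lit 0) .nil) .nil))) 
(.lf (nat_lit 500519) (.g (nat_lit 1475) (.e (nat_lit 163977) (nat_lit 30) (.e (nat_lit 573489) (nat_lit 14) (.e (nat_lit 73755) (nat_lit 8) (.e (nat_lit 557096) (nat_lit 13) .nil)))) (.g (nat_lit 0) (.e (nat_lit 168970) (nat_lit 0) .nil) .nil))))) (.nd (nat_lit 8) (.nd (nat_lit 9) 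
(.lf (nat_lit 499879) (.g (nat_lit 2623) (.e (nat_lit 163976) (nat_lit 30) (.e (nat_lit 573492) (nat_lit 15) (.e (nat_lit 81956) (nat_lit 23) (.e (nat_lit 98359) (nat_lit 26) (.e (nat_lit 426414) (nat_lit 15) .nil))))) (.g (nat_lit 0) (.e (nat_lit 167868) (nat_lit 0) .nil) .nil))) 
(.lf (nat_lit 500391) (.g (nat_lit 2906) (.e (nat_lit 163977) (nat_lit 30) (.e (nat_lit 573487) (nat_lit 14) (.e (nat_lit 73753) (nat_lit 8) (.e (nat_lit 557103) (nat_lit 14) (.e (nat_lit 180250) (nat_lit 10) (.e (nat_lit 573473) (nat_lit 12) (.e (nat_lit 57501) (nat_lit 37) (.e (nat_lit 630800) (nat_lit 7) .nil)))))))) (.g (nat_lit 1) (.e (nat_lit 168800) (nat_lit 0) .nil) .nil)))) 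
(.nd (nat_lit 9) 
(.lf (nat_lit 500135) (.g (nat_lit 2244) (.e (nat_lit 163977) (nat_lit 30) (.e (nat_lit 573482) (nat_lit 13) (.e (nat_lit 65619) (nat_lit 10) (.e (nat_lit 344117) (nat_lit 21) (.e (nat_lit 516170) (nat_lit 13) (.e (nat_lit 458774) (nat_lit 18) (.e (nat_lit 5543) (nat_lit 306) (.e (nat_lit 2601) (nat_lit 163) .nil)))))))) (.g (nat_lit 1) (.e (nat_lit 168277) (nat_lit 0) .nil) .nil))) 
(.lf (nat_lit 500647) (.g (nat_lit 3051) (.e (nat_lit 163977) (nat_lit 30) (.e (nat_lit 573489) (nat_lit 14) (.e (nat_lit 73755) (nat_lit 8) (.e (nat_lit 557104) (nat_lit 14) (.e (nat_lit 180244) (nat_lit 5) (.e (nat_lit 532485) (nat_lit 0) (.e (nat_lit 2272) (nat_lit 149) (.e (nat_lit 761899) (nat_lit 15) .nil)))))))) (.g (nat_lit 1) (.e (nat_lit 169176) (nat_lit 0) .nil) .nil)))))) 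
(.nd (nat_lit 7) (.nd (nat_lit 8) (.nd (nat_lit 9) 
(.lf (nat_lit 499815) (.g (nat_lit 2650) (.e (nat_lit 163976) (nat_lit 30) (.e (nat_lit 573492) (nat_lit 15) (.e (nat_lit 81954) (nat_lit 23) (.e (nat_lit 98384) (nat_lit 32) (.e (nat_lit 475198) (nat_lit 40) .nil))))) (.g (nat_lit 0) (.e (nat_lit 167740) (nat_lit 0) .nil) .nil))) 
(.lf (nat_lit 500327) (.g (nat_lit 2810) (.e (nat_lit 163977) (nat_lit 30) (.e (nat_lit 573485) (nat_lit 13) (.e (nat_lit 65619) (nat_lit 10) (.e (nat_lit 344117) (nat_lit 21) (.e (nat_lit 516155) (nat_lit 9) (.e (nat_lit 426025) (nat_lit 0) (.e (nat_lit 3397) (nat_lit 211) (.e (nat_lit 647181) (nat_lit 3) .nil)))))))) (.g (nat_lit 1) (.e (nat_lit 168599) (nat_lit 0) .nil) .nil)))) 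
(.nd (nat_lit 9) 
(.lf (nat_lit 500071) (.g (nat_lit 2454) (.e (nat_lit 163977) (nat_lit 30) (.e (nat_lit 573482) (nat_lit 13) (.e (nat_lit 65619) (nat_lit 10) (.e (nat_lit 344117) (nat_lit 21) (.e (nat_lit 516148) (nat_lit 9) (.e (nat_lit 426444) (nat_lit 19) (.e (nat_lit 114432) (nat_lit 3) .nil))))))) (.g (nat_lit 1) (.e (nat_lit 168213) (nat_lit 0) .nil) .nil))) 
(.lf (nat_lit 500583) (.g (nat_lit 2553) (.e (nat_lit 163977) (nat_lit 30) (.e (nat_lit 573489) (nat_lit 14) (.e (nat_lit 73755) (nat_lit 8) (.e (nat_lit 557101) (nat_lit 13) .nil)))) (.g (nat_lit 0) (.e (nat_lit 169081) (nat_lit 0) .nil) .nil))))) (.nd (nat_lit 8) (.nd (nat_lit 9) 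
(.lf (nat_lit 499943) (.g (nat_lit 4568) (.e (nat_lit 163976) (nat_lit 30) (.e (nat_lit 573493) (nat_lit 15) (.e (nat_lit 81956) (nat_lit 23) (.e (nat_lit 98362) (nat_lit 26) .nil)))) (.g (nat_lit 0) (.e (nat_lit 168027) (nat_lit 0) .nil) .nil))) 
(.lf (nat_lit 500455) (.g (nat_lit 2814) (.e (nat_lit 163977) (nat_lit 30) (.e (nat_lit 573488) (nat_lit 14) (.e (nat_lit 73755) (nat_lit 8) (.e (nat_lit 557103) (nat_lit 14) (.e (nat_lit 180250) (nat_lit 10) .nil))))) (.g (nat_lit 0) (.e (nat_lit 168873) (nat_lit 0) .nil) .nil)))) (.nd (nat_lit 9) 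
(.lf (nat_lit 500199) (.g (nat_lit 2490) (.e (nat_lit 163977) (nat_lit 30) (.e (nat_lit 573484) (nat_lit 13) (.e (nat_lit 65610) (nat_lit 10) (.e (nat_lit 344117) (nat_lit 21) (.e (nat_lit 516179) (nat_lit 15) (.e (nat_lit 475198) (nat_lit 40) (.e (nat_lit 704589) (nat_lit 3) .nil))))))) (.g (nat_lit 1) (.e (nat_lit 168429) (nat_lit 0) .nil) .nil))) 
(.lf (nat_lit 500711) (.g (nat_lit 5146) (.e (nat_lit 163977) (nat_lit 30) (.e (nat_lit 573489) (nat_lit 14) (.e (nat_lit 73755) (nat_lit 8) (.e (nat_lit 557105) (nat_lit 14) (.e (nat_lit 180252) (nat_lit 10) (.e (nat_lit 573475) (nat_lit 12) (.e (nat_lit 57504) (nat_lit 38) (.e (nat_lit 638996) (nat_lit 7) .nil)))))))) (.g (nat_lit 1) (.e (nat_lit 169292) (nat_lit 0) .nil) .nil)))))))) 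
(.nd (nat_lit 5) (.nd (nat_lit 6) (.nd (nat_lit 7) (.nd (nat_lit 8) (.nd (nat_lit 9) 
(.lf (nat_lit 499735) (.g (nat_lit 2291) (.e (nat_lit 163976) (nat_lit 30) (.e (nat_lit 573491) (nat_lit 15) (.e (nat_lit 81954) (nat_lit 23) (.e (nat_lit 98356) (nat_lit 26) (.e (nat_lit 426442) (nat_lit 19) (.e (nat_lit 114432) (nat_lit 3) .nil)))))) (.g (nat_lit 1) (.e (nat_lit 167459) (nat_lit 0) .nil) .nil))) 
(.lf (nat_lit 500247) (.g (nat_lit 2337) (.e (nat_lit 163977) (nat_lit 30) (.e (nat_lit 573485) (nat_lit 13) (.e (nat_lit 65604) (nat_lit 9) (.e (nat_lit 336028) (nat_lit 3) (.e (nat_lit 98360) (nat_lit 26) .nil))))) (.g (nat_lit 0) (.e (nat_lit 168514) (nat_lit 0) .nil) .nil)))) (.nd (nat_lit 9) 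
(.lf (nat_lit 499991) (.g (nat_lit 2799) (.e (nat_lit 163977) (nat_lit 30) (.e (nat_lit 573482) (nat_lit 13) (.e (nat_lit 65604) (nat_lit 9) (.e (nat_lit 336013) (nat_lit 2) (.e (nat_lit 90170) (nat_lit 13) (.e (nat_lit 172049) (nat_lit 0) (.e (nat_lit 2458) (nat_lit 157) (.e (nat_lit 5546) (nat_lit 306) (.e (nat_lit 2601) (nat_lit 163) .nil))))))))) (.g (nat_lit 1) (.e (nat_lit 168116) (nat_lit 0) .nil) .nil))) 
(.lf (nat_lit 500503) (.g (nat_lit 3231) (.e (nat_lit 163977) (nat_lit 30) (.e (nat_lit 573489) (nat_lit 14) (.e (nat_lit 73754) (nat_lit 8) (.e (nat_lit 557105) (nat_lit 14) (.e (nat_lit 180252) (nat_lit 10) (.e (nat_lit 573473) (nat_lit 12) (.e (nat_lit 57500) (nat_lit 37) (.e (nat_lit 630800) (nat_lit 7) .nil)))))))) (.g (nat_lit 1) (.e (nat_lit 168939) (nat_lit 0) .nil) .nil))))) 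
(.nd (nat_lit 8) (.nd (nat_lit 9) 
(.lf (nat_lit 499863) (.g (nat_lit 3444) (.e (nat_lit 163976) (nat_lit 30) (.e (nat_lit 573492) (nat_lit 15) (.e (nat_lit 81956) (nat_lit 23) (.e (nat_lit 98358) (nat_lit 26) (.e (nat_lit 426444) (nat_lit 19) (.e (nat_lit 114432) (nat_lit 3) .nil)))))) (.g (nat_lit 1) (.e (nat_lit 167825) (nat_lit 0) .nil) .nil))) 
(.lf (nat_lit 500375) (.g (nat_lit 3672) (.e (nat_lit 163977) (nat_lit 30) (.e (nat_lit 573487) (nat_lit 14) (.e (nat_lit 73753) (nat_lit 8) (.e (nat_lit 557098) (nat_lit 13) (.e (nat_lit 172133) (nat_lit 15) (.e (nat_lit 1800) (nat_lit 119) (.e (nat_lit 516120) (nat_lit 1) (.e (nat_lit 164304) (nat_lit 226) (.e (nat_lit 2612) (nat_lit 163) .nil))))))))) (.g (nat_lit 1) (.e (nat_lit 168731) (nat_lit 0) .nil) .nil)))) 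
(.nd (nat_lit 9) 
(.lf (nat_lit 500119) (.g (nat_lit 3941) (.e (nat_lit 163977) (nat_lit 30) (.e (nat_lit 573482) (nat_lit 13) (.e (nat_lit 65619) (nat_lit 10) (.e (nat_lit 344117) (nat_lit 21) (.e (nat_lit 516160) (nat_lit 10) (.e (nat_lit 434202) (nat_lit 18) (.e (nat_lit 5537) (nat_lit 306) (.e (nat_lit 2611) (nat_lit 163) .nil)))))))) (.g (nat_lit 1) (.e (nat_lit 168261) (nat_lit 0) .nil) .nil))) 
(.lf (nat_lit 500631) (.g (nat_lit 2947) (.e (nat_lit 163977) (nat_lit 30) (.e (nat_lit 573489) (nat_lit 14) (.e (nat_lit 73755) (nat_lit 8) (.e (nat_lit 557103) (nat_lit 14) (.e (nat_lit 180252) (nat_lit 10) (.e (nat_lit 573475) (nat_lit 12) (.e (nat_lit 57503) (nat_lit 38) (.e (nat_lit 638996) (nat_lit 7) .nil)))))))) (.g (nat_lit 1) (.e (nat_lit 169149) (nat_lit 0) .nil) .nil)))))) 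
(.nd (nat_lit 7) (.nd (nat_lit 8) (.nd (nat_lit 9) 
(.lf (nat_lit 499799) (.g (nat_lit 1930) (.e (nat_lit 163976) (nat_lit 30) (.e (nat_lit 573492) (nat_lit 15) (.e (nat_lit 81953) (nat_lit 22) (.e (nat_lit 90169) (nat_lit 13) .nil)))) (.g (nat_lit 0) (.e (nat_lit 167630) (nat_lit 0) .nil) .nil))) 
(.lf (nat_lit 500311) (.g (nat_lit 4352) (.e (nat_lit 163977) (nat_lit 30) (.e (nat_lit 573485) (nat_lit 13) (.e (nat_lit 65619) (nat_lit 10) (.e (nat_lit 344117) (nat_lit 21) (.e (nat_lit 516151) (nat_lit 9) (.e (nat_lit 426104) (nat_lit 1) (.e (nat_lit 164348) (nat_lit 240) (.e (nat_lit 2610) (nat_lit 163) .nil)))))))) (.g (nat_lit 1) (.e (nat_lit 168583) (nat_lit 0) .nil) .nil)))) 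
(.nd (nat_lit 9) 
(.lf (nat_lit 500055) (.g (nat_lit 3877) (.e (nat_lit 163977) (nat_lit 30) (.e (nat_lit 573482) (nat_lit 13) (.e (nat_lit 65604) (nat_lit 9) (.e (nat_lit 336028) (nat_lit 3) (.e (nat_lit 98367) (nat_lit 27) (.e (nat_lit 434272) (nat_lit 38) (.e (nat_lit 655374) (nat_lit 3) .nil))))))) (.g (nat_lit 1) (.e (nat_lit 168195) (nat_lit 0) .nil) .nil))) 
(.lf (nat_lit 500567) (.g (nat_lit 2849) (.e (nat_lit 163977) (nat_lit 30) (.e (nat_lit 573489) (nat_lit 14) (.e (nat_lit 73755) (nat_lit 8) (.e (nat_lit 557098) (nat_lit 13) (.e (nat_lit 172067) (nat_lit 3) .nil))))) (.g (nat_lit 0) (.e (nat_lit 169056) (nat_lit 0) .nil) .nil))))) (.nd (nat_lit 8) (.nd (nat_lit 9) 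
(.lf (nat_lit 499927) (.g (nat_lit 3043) (.e (nat_lit 163976) (nat_lit 30) (.e (nat_lit 573492) (nat_lit 15) (.e (nat_lit 81956) (nat_lit 23) (.e (nat_lit 98385) (nat_lit 32) (.e (nat_lit 475201) (nat_lit 40) (.e (nat_lit 712448) (nat_lit 3) .nil)))))) (.g (nat_lit 1) (.e (nat_lit 167981) (nat_lit 0) .nil) .nil))) 
(.lf (nat_lit 500439) (.g (nat_lit 2504) (.e (nat_lit 163977) (nat_lit 30) (.e (nat_lit 573487) (nat_lit 14) (.e (nat_lit 73754) (nat_lit 8) (.e (nat_lit 557105) (nat_lit 14) (.e (nat_lit 180252) (nat_lit 10) (.e (nat_lit 573475) (nat_lit 12) (.e (nat_lit 57502) (nat_lit 38) (.e (nat_lit 638995) (nat_lit 7) .nil)))))))) (.g (nat_lit 1) (.e (nat_lit 168854) (nat_lit 0) .nil) .nil)))) 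
(.nd (nat_lit 9) 
(.lf (nat_lit 500183) (.g (nat_lit 2708) (.e (nat_lit 163977) (nat_lit 30) (.e (nat_lit 573484) (nat_lit 13) (.e (nat_lit 65610) (nat_lit 10) (.e (nat_lit 344117) (nat_lit 21) (.e (nat_lit 516151) (nat_lit 9) (.e (nat_lit 433920) (nat_lit 24) (.e (nat_lit 163584) (nat_lit 3) .nil))))))) (.g (nat_lit 1) (.e (nat_lit 168381) (nat_lit 0) .nil) .nil))) 
(.lf (nat_lit 500695) (.g (nat_lit 3687) (.e (nat_lit 163977) (nat_lit 30) (.e (nat_lit 573489) (nat_lit 14) (.e (nat_lit 73755) (nat_lit 8) (.e (nat_lit 557105) (nat_lit 14) (.e (nat_lit 180251) (nat_lit 10) (.e (nat_lit 573477) (nat_lit 12) (.e (nat_lit 57502) (nat_lit 38) (.e (nat_lit 638996) (nat_lit 7) .nil)))))))) (.g (nat_lit 1) (.e (nat_lit 169251) (nat_lit 0) .nil) .nil))))))) 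
(.nd (nat_lit 6) (.nd (nat_lit 7) (.nd (nat_lit 8) (.nd (nat_lit 9) 
(.lf (nat_lit 499767) (.g (nat_lit 3427) (.e (nat_lit 163976) (nat_lit 30) (.e (nat_lit 573491) (nat_lit 15) (.e (nat_lit 81954) (nat_lit 23) (.e (nat_lit 98384) (nat_lit 32) (.e (nat_lit 475198) (nat_lit 40) (.e (nat_lit 704589) (nat_lit 3) .nil)))))) (.g (nat_lit 1) (.e (nat_lit 167535) (nat_lit 0) .nil) .nil))) 
(.lf (nat_lit 500279) (.g (nat_lit 1058) (.e (nat_lit 163977) (nat_lit 30) (.e (nat_lit 573485) (nat_lit 13) (.e (nat_lit 65619) (nat_lit 10) (.e (nat_lit 344117) (nat_lit 21) .nil)))) (.g (nat_lit 0) (.e (nat_lit 168550) (nat_lit 0) .nil) .nil)))) (.nd (nat_lit 9) 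
(.lf (nat_lit 500023) (.g (nat_lit 2137) (.e (nat_lit 163977) (nat_lit 30) (.e (nat_lit 573482) (nat_lit 13) (.e (nat_lit 65604) (nat_lit 9) (.e (nat_lit 336028) (nat_lit 3) (.e (nat_lit 98359) (nat_lit 26) (.e (nat_lit 426103) (nat_lit 1) (.e (nat_lit 164348) (nat_lit 240) (.e (nat_lit 2601) (nat_lit 163) .nil)))))))) (.g (nat_lit 1) (.e (nat_lit 168156) (nat_lit 0) .nil) .nil))) 
(.lf (nat_lit 500535) (.g (nat_lit 2375) (.e (nat_lit 163977) (nat_lit 30) (.e (nat_lit 573489) (nat_lit 14) (.e (nat_lit 73755) (nat_lit 8) (.e (nat_lit 557097) (nat_lit 13) (.e (nat_lit 172065) (nat_lit 3) (.e (nat_lit 204821) (nat_lit 17) (.e (nat_lit 7936) (nat_lit 149) (.e (nat_lit 761899) (nat_lit 15) .nil)))))))) (.g (nat_lit 1) (.e (nat_lit 168999) (nat_lit 0) .nil) .nil))))) 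
(.nd (nat_lit 8) (.nd (nat_lit 9) 
(.lf (nat_lit 499895) (.g (nat_lit 5059) (.e (nat_lit 163976) (nat_lit 30) (.e (nat_lit 573492) (nat_lit 15) (.e (nat_lit 81956) (nat_lit 23) (.e (nat_lit 98363) (nat_lit 26) (.e (nat_lit 426419) (nat_lit 15) (.e (nat_lit 2059) (nat_lit 142) (.e (nat_lit 704589) (nat_lit 3) .nil))))))) (.g (nat_lit 1) (.e (nat_lit 167896) (nat_lit 0) .nil) .nil))) 
(.lf (nat_lit 500407) (.g (nat_lit 3066) (.e (nat_lit 163977) (nat_lit 30) (.e (nat_lit 573487) (nat_lit 14) (.e (nat_lit 73753) (nat_lit 8) (.e (nat_lit 557103) (nat_lit 14) (.e (nat_lit 180250) (nat_lit 10) (.e (nat_lit 573478) (nat_lit 12) (.e (nat_lit 57502) (nat_lit 38) (.e (nat_lit 638996) (nat_lit 7) .nil)))))))) (.g (nat_lit 1) (.e (nat_lit 168819) (nat_lit 0) .nil) .nil)))) 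
(.nd (nat_lit 9) 
(.lf (nat_lit 500151) (.g (nat_lit 2341) (.e (nat_lit 163977) (nat_lit 30) (.e (nat_lit 573484) (nat_lit 13) (.e (nat_lit 65610) (nat_lit 10) (.e (nat_lit 344117) (nat_lit 21) (.e (nat_lit 516144) (nat_lit 9) .nil))))) (.g (nat_lit 0) (.e (nat_lit 168317) (nat_lit 0) .nil) .nil))) 
(.lf (nat_lit 500663) (.g (nat_lit 2740) (.e (nat_lit 163977) (nat_lit 30) (.e (nat_lit 573489) (nat_lit 14) (.e (nat_lit 73755) (nat_lit 8) (.e (nat_lit 557104) (nat_lit 14) (.e (nat_lit 180250) (nat_lit 10) (.e (nat_lit 573475) (nat_lit 12) (.e (nat_lit 57500) (nat_lit 37) (.e (nat_lit 630800) (nat_lit 7) .nil)))))))) (.g (nat_lit 1) (.e (nat_lit 169217) (nat_lit 0) .nil) .nil)))))) 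
(.nd (nat_lit 7) (.nd (nat_lit 8) (.nd (nat_lit 9) 
(.lf (nat_lit 499831) (.g (nat_lit 2765) (.e (nat_lit 163976) (nat_lit 30) (.e (nat_lit 573492) (nat_lit 15) (.e (nat_lit 81956) (nat_lit 23) (.e (nat_lit 98356) (nat_lit 26) (.e (nat_lit 426360) (nat_lit 15) .nil))))) (.g (nat_lit 0) (.e (nat_lit 167788) (nat_lit 0) .nil) .nil))) 
(.lf (nat_lit 500343) (.g (nat_lit 3794) (.e (nat_lit 163977) (nat_lit 30) (.e (nat_lit 573485) (nat_lit 13) (.e (nat_lit 65619) (nat_lit 10) (.e (nat_lit 344117) (nat_lit 21) (.e (nat_lit 516160) (nat_lit 10) (.e (nat_lit 434202) (nat_lit 18) (.e (nat_lit 5537) (nat_lit 306) (.e (nat_lit 2611) (nat_lit 163) .nil)))))))) (.g (nat_lit 1) (.e (nat_lit 168615) (nat_lit 0) .nil) .nil)))) 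
(.nd (nat_lit 9) 
(.lf (nat_lit 500087) (.g (nat_lit 4158) (.e (nat_lit 163977) (nat_lit 30) (.e (nat_lit 573482) (nat_lit 13) (.e (nat_lit 65619) (nat_lit 10) (.e (nat_lit 344117) (nat_lit 21) (.e (nat_lit 516151) (nat_lit 9) (.e (nat_lit 426104) (nat_lit 1) (.e (nat_lit 164347) (nat_lit 240) (.e (nat_lit 2611) (nat_lit 163) .nil)))))))) (.g (nat_lit 1) (.e (nat_lit 168229) (nat_lit 0) .nil) .nil))) 
(.lf (nat_lit 500599) (.g (nat_lit 2738) (.e (nat_lit 163977) (nat_lit 30) (.e (nat_lit 573489) (nat_lit 14) (.e (nat_lit 73755) (nat_lit 8) (.e (nat_lit 557103) (nat_lit 14) (.e (nat_lit 180244) (nat_lit 5) (.e (nat_lit 532489) (nat_lit 0) (.e (nat_lit 2272) (nat_lit 149) (.e (nat_lit 761899) (nat_lit 15) .nil)))))))) (.g (nat_lit 1) (.e (nat_lit 169109) (nat_lit 0) .nil) .nil))))) 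
(.nd (nat_lit 8) (.nd (nat_lit 9) 
(.lf (nat_lit 499959) (.g (nat_lit 2205) (.e (nat_lit 163977) (nat_lit 30) (.e (nat_lit 573479) (nat_lit 13) (.e (nat_lit 65619) (nat_lit 10) (.e (nat_lit 344117) (nat_lit 21) (.e (nat_lit 516160) (nat_lit 10) (.e (nat_lit 434209) (nat_lit 18) (.e (nat_lit 5548) (nat_lit 306) (.e (nat_lit 2611) (nat_lit 163) .nil)))))))) (.g (nat_lit 1) (.e (nat_lit 168074) (nat_lit 0) .nil) .nil))) 
(.lf (nat_lit 500471) (.g (nat_lit 3119) (.e (nat_lit 163977) (nat_lit 30) (.e (nat_lit 573489) (nat_lit 14) (.e (nat_lit 73754) (nat_lit 8) (.e (nat_lit 557100) (nat_lit 13) (.e (nat_lit 172065) (nat_lit 3) (.e (nat_lit 204817) (nat_lit 17) (.e (nat_lit 7936) (nat_lit 149) (.e (nat_lit 761897) (nat_lit 15) .nil)))))))) (.g (nat_lit 1) (.e (nat_lit 168896) (nat_lit 0) .nil) .nil)))) 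
(.nd (nat_lit 9) 
(.lf (nat_lit 500215) (.g (nat_lit 3657) (.e (nat_lit 163977) (nat_lit 30) (.e (nat_lit 573485) (nat_lit 13) (.e (nat_lit 65604) (nat_lit 9) (.e (nat_lit 336013) (nat_lit 2) (.e (nat_lit 90170) (nat_lit 13) (.e (nat_lit 172046) (nat_lit 0) (.e (nat_lit 2478) (nat_lit 157) (.e (nat_lit 5548) (nat_lit 306) (.e (nat_lit 2610) (nat_lit 163) .nil))))))))) (.g (nat_lit 1) (.e (nat_lit 168450) (nat_lit 0) .nil) .nil))) 
(.lf (nat_lit 500727) (.g (nat_lit 2758) (.e (nat_lit 163977) (nat_lit 30) (.e (nat_lit 573491) (nat_lit 15) (.e (nat_lit 81951) (nat_lit 22) (.e (nat_lit 90170) (nat_lit 13) (.e (nat_lit 172038) (nat_lit 0) (.e (nat_lit 3402) (nat_lit 211) (.e (nat_lit 647181) (nat_lit 3) .nil))))))) (.g (nat_lit 1) (.e (nat_lit 169332) (nat_lit 0) .nil) .nil))))))))) 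
(.nd (nat_lit 4) (.nd (nat_lit 5) (.nd (nat_lit 6) (.nd (nat_lit 7) (.nd (nat_lit 8) 
(.nd (nat_lit 9) 
(.lf (nat_lit 499727) (.g (nat_lit 2055) (.e (nat_lit 163976) (nat_lit 30) (.e (nat_lit 573491) (nat_lit 15) (.e (nat_lit 81954) (nat_lit 23) (.e (nat_lit 98356) (nat_lit 26) (.e (nat_lit 426415) (nat_lit 15) .nil))))) (.g (nat_lit 0) (.e (nat_lit 167451) (nat_lit 0) .nil) .nil))) 
(.lf (nat_lit 500239) (.g (nat_lit 2905) (.e (nat_lit 163977) (nat_lit 30) (.e (nat_lit 573485) (nat_lit 13) (.e (nat_lit 65604) (nat_lit 9) (.e (nat_lit 336013) (nat_lit 2) (.e (nat_lit 90170) (nat_lit 13) (.e (nat_lit 172070) (nat_lit 4) (.e (nat_lit 229666) (nat_lit 240) (.e (nat_lit 2604) (nat_lit 163) .nil)))))))) (.g (nat_lit 1) (.e (nat_lit 168476) (nat_lit 0) .nil) .nil)))) 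
(.nd (nat_lit 9) 
(.lf (nat_lit 499983) (.g (nat_lit 3172) (.e (nat_lit 163977) (nat_lit 30) (.e (nat_lit 573482) (nat_lit 13) (.e (nat_lit 65604) (nat_lit 9) (.e (nat_lit 336013) (nat_lit 2) (.e (nat_lit 90170) (nat_lit 13) (.e (nat_lit 172033) (nat_lit 0) (.e (nat_lit 3402) (nat_lit 211) (.e (nat_lit 647181) (nat_lit 3) .nil)))))))) (.g (nat_lit 1) (.e (nat_lit 168108) (nat_lit 0) .nil) .nil))) 
(.lf (nat_lit 500495) (.g (nat_lit 2498) (.e (nat_lit 163977) (nat_lit 30) (.e (nat_lit 573489) (nat_lit 14) (.e (nat_lit 73754) (nat_lit 8) (.e (nat_lit 557105) (nat_lit 14) (.e (nat_lit 180251) (nat_lit 10) .nil))))) (.g (nat_lit 0) (.e (nat_lit 168931) (nat_lit 0) .nil) .nil))))) (.nd (nat_lit 8) (.nd (nat_lit 9) 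
(.lf (nat_lit 499855) (.g (nat_lit 2822) (.e (nat_lit 163976) (nat_lit 30) (.e (nat_lit 573492) (nat_lit 15) (.e (nat_lit 81956) (nat_lit 23) (.e (nat_lit 98356) (nat_lit 26) (.e (nat_lit 426440) (nat_lit 19) (.e (nat_lit 114432) (nat_lit 3) .nil)))))) (.g (nat_lit 1) (.e (nat_lit 167812) (nat_lit 0) .nil) .nil))) 
(.lf (nat_lit 500367) (.g (nat_lit 2378) (.e (nat_lit 163977) (nat_lit 30) (.e (nat_lit 573485) (nat_lit 13) (.e (nat_lit 65619) (nat_lit 10) (.e (nat_lit 344117) (nat_lit 21) (.e (nat_lit 516180) (nat_lit 15) (.e (nat_lit 475201) (nat_lit 40) (.e (nat_lit 712448) (nat_lit 3) .nil))))))) (.g (nat_lit 1) (.e (nat_lit 168644) (nat_lit 0) .nil) .nil)))) (.nd (nat_lit 9) 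
(.lf (nat_lit 500111) (.g (nat_lit 3522) (.e (nat_lit 163977) (nat_lit 30) (.e (nat_lit 573482) (nat_lit 13) (.e (nat_lit 65619) (nat_lit 10) (.e (nat_lit 344117) (nat_lit 21) (.e (nat_lit 516159) (nat_lit 10) (.e (nat_lit 434209) (nat_lit 18) (.e (nat_lit 5546) (nat_lit 306) (.e (nat_lit 2601) (nat_lit 163) .nil)))))))) (.g (nat_lit 1) (.e (nat_lit 168253) (nat_lit 0) .nil) .nil))) 
(.lf (nat_lit 500623) (.g (nat_lit 3392) (.e (nat_lit 163977) (nat_lit 30) (.e (nat_lit 573489) (nat_lit 14) (.e (nat_lit 73755) (nat_lit 8) (.e (nat_lit 557103) (nat_lit 14) (.e (nat_lit 180250) (nat_lit 10) (.e (nat_lit 573477) (nat_lit 12) (.e (nat_lit 57502) (nat_lit 38) (.e (nat_lit 638995) (nat_lit 7) .nil)))))))) (.g (nat_lit 1) (.e (nat_lit 169141) (nat_lit 0) .nil) .nil)))))) 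
(.nd (nat_lit 7) (.nd (nat_lit 8) (.nd (nat_lit 9) 
(.lf (nat_lit 499791) (.g (nat_lit 1373) (.e (nat_lit 163976) (nat_lit 30) (.e (nat_lit 573492) (nat_lit 15) (.e (nat_lit 81951) (nat_lit 22) (.e (nat_lit 90170) (nat_lit 13) .nil)))) (.g (nat_lit 0) (.e (nat_lit 167580) (nat_lit 0) .nil) .nil))) 
(.lf (nat_lit 500303) (.g (nat_lit 2799) (.e (nat_lit 163977) (nat_lit 30) (.e (nat_lit 573485) (nat_lit 13) (.e (nat_lit 65619) (nat_lit 10) (.e (nat_lit 344117) (nat_lit 21) (.e (nat_lit 516151) (nat_lit 9) (.e (nat_lit 426097) (nat_lit 1) (.e (nat_lit 164346) (nat_lit 240) (.e (nat_lit 2601) (nat_lit 163) .nil)))))))) (.g (nat_lit 1) (.e (nat_lit 168575) (nat_lit 0) .nil) .nil)))) 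
(.nd (nat_lit 9) 
(.lf (nat_lit 500047) (.g (nat_lit 1916) (.e (nat_lit 163977) (nat_lit 30) (.e (nat_lit 573482) (nat_lit 13) (.e (nat_lit 65604) (nat_lit 9) (.e (nat_lit 336028) (nat_lit 3) (.e (nat_lit 98367) (nat_lit 27) .nil))))) (.g (nat_lit 0) (.e (nat_lit 168187) (nat_lit 0) .nil) .nil))) 
(.lf (nat_lit 500559) (.g (nat_lit 4028) (.e (nat_lit 163977) (nat_lit 30) (.e (nat_lit 573489) (nat_lit 14) (.e (nat_lit 73755) (nat_lit 8) (.e (nat_lit 557098) (nat_lit 13) (.e (nat_lit 172065) (nat_lit 3) (.e (nat_lit 204817) (nat_lit 17) (.e (nat_lit 7936) (nat_lit 149) (.e (nat_lit 761899) (nat_lit 15) .nil)))))))) (.g (nat_lit 1) (.e (nat_lit 169047) (nat_lit 0) .nil) .nil))))) 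
(.nd (nat_lit 8) (.nd (nat_lit 9) 
(.lf (nat_lit 499919) (.g (nat_lit 4352) (.e (nat_lit 163976) (nat_lit 30) (.e (nat_lit 573492) (nat_lit 15) (.e (nat_lit 81956) (nat_lit 23) (.e (nat_lit 98384) (nat_lit 32) (.e (nat_lit 475203) (nat_lit 40) .nil))))) (.g (nat_lit 0) (.e (nat_lit 167973) (nat_lit 0) .nil) .nil))) 
(.lf (nat_lit 500431) (.g (nat_lit 3988) (.e (nat_lit 163977) (nat_lit 30) (.e (nat_lit 573487) (nat_lit 14) (.e (nat_lit 73754) (nat_lit 8) (.e (nat_lit 557105) (nat_lit 14) (.e (nat_lit 180251) (nat_lit 10) (.e (nat_lit 573475) (nat_lit 12) (.e (nat_lit 57503) (nat_lit 38) (.e (nat_lit 638995) (nat_lit 7) .nil)))))))) (.g (nat_lit 1) (.e (nat_lit 168846) (nat_lit 0) .nil) .nil)))) 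
(.nd (nat_lit 9) 
(.lf (nat_lit 500175) (.g (nat_lit 2350) (.e (nat_lit 163977) (nat_lit 30) (.e (nat_lit 573484) (nat_lit 13) (.e (nat_lit 65610) (nat_lit 10) (.e (nat_lit 344117) (nat_lit 21) (.e (nat_lit 516151) (nat_lit 9) (.e (nat_lit 433920) (nat_lit 1) (.e (nat_lit 164348) (nat_lit 240) (.e (nat_lit 2610) (nat_lit 163) .nil)))))))) (.g (nat_lit 1) (.e (nat_lit 168372) (nat_lit 0) .nil) .nil))) 
(.lf (nat_lit 500687) (.g (nat_lit 2233) (.e (nat_lit 163977) (nat_lit 30) (.e (nat_lit 573489) (nat_lit 14) (.e (nat_lit 73755) (nat_lit 8) (.e (nat_lit 557105) (nat_lit 14) (.e (nat_lit 180245) (nat_lit 5) .nil))))) (.g (nat_lit 0) (.e (nat_lit 169242) (nat_lit 0) .nil) .nil))))))) (.nd (nat_lit 6) (.nd (nat_lit 7) (.nd (nat_lit 8) (.nd (nat_lit 9) 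
(.lf (nat_lit 499759) (.g (nat_lit 2425) (.e (nat_lit 163976) (nat_lit 30) (.e (nat_lit 573491) (nat_lit 15) (.e (nat_lit 81954) (nat_lit 23) (.e (nat_lit 98365) (nat_lit 26) (.e (nat_lit 426413) (nat_lit 15) .nil))))) (.g (nat_lit 0) (.e (nat_lit 167509) (nat_lit 0) .nil) .nil))) 
(.lf (nat_lit 500271) (.g (nat_lit 4328) (.e (nat_lit 163977) (nat_lit 30) (.e (nat_lit 573485) (nat_lit 13) (.e (nat_lit 65604) (nat_lit 9) (.e (nat_lit 336028) (nat_lit 3) (.e (nat_lit 98367) (nat_lit 27) (.e (nat_lit 434209) (nat_lit 18) (.e (nat_lit 5547) (nat_lit 306) (.e (nat_lit 2601) (nat_lit 163) .nil)))))))) (.g (nat_lit 1) (.e (nat_lit 168541) (nat_lit 0) .nil) .nil)))) 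
(.nd (nat_lit 9) 
(.lf (nat_lit 500015) (.g (nat_lit 2488) (.e (nat_lit 163977) (nat_lit 30) (.e (nat_lit 573482) (nat_lit 13) (.e (nat_lit 65604) (nat_lit 9) (.e (nat_lit 336028) (nat_lit 3) (.e (nat_lit 98358) (nat_lit 26) (.e (nat_lit 426444) (nat_lit 19) (.e (nat_lit 114432) (nat_lit 3) .nil))))))) (.g (nat_lit 1) (.e (nat_lit 168142) (nat_lit 0) .nil) .nil))) 
(.lf (nat_lit 500527) (.g (nat_lit 1957) (.e (nat_lit 163977) (nat_lit 30) (.e (nat_lit 573489) (nat_lit 14) (.e (nat_lit 73755) (nat_lit 8) (.e (nat_lit 557097) (nat_lit 13) (.e (nat_lit 172065) (nat_lit 3) .nil))))) (.g (nat_lit 0) (.e (nat_lit 168989) (nat_lit 0) .nil) .nil))))) (.nd (nat_lit 8) (.nd (nat_lit 9) 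
(.lf (nat_lit 499887) (.g (nat_lit 2000) (.e (nat_lit 163976) (nat_lit 30) (.e (nat_lit 573492) (nat_lit 15) (.e (nat_lit 81956) (nat_lit 23) (.e (nat_lit 98360) (nat_lit 26) (.e (nat_lit 426411) (nat_lit 15) .nil))))) (.g (nat_lit 0) (.e (nat_lit 167882) (nat_lit 0) .nil) .nil))) 
(.lf (nat_lit 500399) (.g (nat_lit 3359) (.e (nat_lit 163977) (nat_lit 30) (.e (nat_lit 573487) (nat_lit 14) (.e (nat_lit 73753) (nat_lit 8) (.e (nat_lit 557103) (nat_lit 14) (.e (nat_lit 180250) (nat_lit 10) (.e (nat_lit 573475) (nat_lit 12) (.e (nat_lit 57501) (nat_lit 37) (.e (nat_lit 630800) (nat_lit 7) .nil)))))))) (.g (nat_lit 1) (.e (nat_lit 168810) (nat_lit 0) .nil) .nil)))) 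
(.nd (nat_lit 9) 
(.lf (nat_lit 500143) (.g (nat_lit 3355) (.e (nat_lit 163977) (nat_lit 30) (.e (nat_lit 573482) (nat_lit 13) (.e (nat_lit 65619) (nat_lit 10) (.e (nat_lit 344117) (nat_lit 21) (.e (nat_lit 516171) (nat_lit 13) (.e (nat_lit 458774) (nat_lit 18) (.e (nat_lit 5548) (nat_lit 306) (.e (nat_lit 2611) (nat_lit 163) .nil)))))))) (.g (nat_lit 1) (.e (nat_lit 168285) (nat_lit 0) .nil) .nil))) 
(.lf (nat_lit 500655) (.g (nat_lit 2813) (.e (nat_lit 163977) (nat_lit 30) (.e (nat_lit 573489) (nat_lit 14) (.e (nat_lit 73755) (nat_lit 8) (.e (nat_lit 557104) (nat_lit 14) (.e (nat_lit 180244) (nat_lit 5) (.e (nat_lit 532499) (nat_lit 1) (.e (nat_lit 57657) (nat_lit 152) (.e (nat_lit 2606) (nat_lit 163) .nil)))))))) (.g (nat_lit 1) (.e (nat_lit 169187) (nat_lit 0) .nil) .nil)))))) 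
(.nd (nat_lit 7) (.nd (nat_lit 8) (.nd (nat_lit 9) 
(.lf (nat_lit 499823) (.g (nat_lit 2279) (.e (nat_lit 163976) (nat_lit 30) (.e (nat_lit 573492) (nat_lit 15) (.e (nat_lit 81956) (nat_lit 23) (.e (nat_lit 98355) (nat_lit 26) (.e (nat_lit 426402) (nat_lit 15) .nil))))) (.g (nat_lit 0) (.e (nat_lit 167773) (nat_lit 0) .nil) .nil))) 
(.lf (nat_lit 500335) (.g (nat_lit 4157) (.e (nat_lit 163977) (nat_lit 30) (.e (nat_lit 573485) (nat_lit 13) (.e (nat_lit 65619) (nat_lit 10) (.e (nat_lit 344117) (nat_lit 21) (.e (nat_lit 516159) (nat_lit 10) (.e (nat_lit 434209) (nat_lit 18) (.e (nat_lit 5547) (nat_lit 306) (.e (nat_lit 2611) (nat_lit 163) .nil)))))))) (.g (nat_lit 1) (.e (nat_lit 168607) (nat_lit 0) .nil) .nil)))) 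
(.nd (nat_lit 9) 
(.lf (nat_lit 500079) (.g (nat_lit 2253) (.e (nat_lit 163977) (nat_lit 30) (.e (nat_lit 573482) (nat_lit 13) (.e (nat_lit 65619) (nat_lit 10) (.e (nat_lit 344117) (nat_lit 21) (.e (nat_lit 516151) (nat_lit 9) (.e (nat_lit 426043) (nat_lit 0) (.e (nat_lit 2458) (nat_lit 157) (.e (nat_lit 5547) (nat_lit 306) (.e (nat_lit 2611) (nat_lit 163) .nil))))))))) (.g (nat_lit 1) (.e (nat_lit 168221) (nat_lit 0) .nil) .nil))) 
(.lf (nat_lit 500591) (.g (nat_lit 2052) (.e (nat_lit 163977) (nat_lit 30) (.e (nat_lit 573489) (nat_lit 14) (.e (nat_lit 73755) (nat_lit 8) (.e (nat_lit 557103) (nat_lit 14) (.e (nat_lit 180244) (nat_lit 5) .nil))))) (.g (nat_lit 0) (.e (nat_lit 169094) (nat_lit 0) .nil) .nil))))) (.nd (nat_lit 8) (.nd (nat_lit 9) 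
(.lf (nat_lit 499951) (.g (nat_lit 4335) (.e (nat_lit 163976) (nat_lit 30) (.e (nat_lit 573493) (nat_lit 15) (.e (nat_lit 81956) (nat_lit 23) (.e (nat_lit 98385) (nat_lit 32) .nil)))) (.g (nat_lit 0) (.e (nat_lit 168040) (nat_lit 0) .nil) .nil))) 
(.lf (nat_lit 500463) (.g (nat_lit 3299) (.e (nat_lit 163977) (nat_lit 30) (.e (nat_lit 573488) (nat_lit 14) (.e (nat_lit 73755) (nat_lit 8) (.e (nat_lit 557105) (nat_lit 14) (.e (nat_lit 180252) (nat_lit 10) (.e (nat_lit 573474) (nat_lit 12) (.e (nat_lit 57503) (nat_lit 38) (.e (nat_lit 638995) (nat_lit 7) .nil)))))))) (.g (nat_lit 1) (.e (nat_lit 168881) (nat_lit 0) .nil) .nil)))) 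
(.nd (nat_lit 9) 
(.lf (nat_lit 500207) (.g (nat_lit 3328) (.e (nat_lit 163977) (nat_lit 30) (.e (nat_lit 573485) (nat_lit 13) (.e (nat_lit 65604) (nat_lit 9) (.e (nat_lit 336013) (nat_lit 2) (.e (nat_lit 90170) (nat_lit 13) (.e (nat_lit 172032) (nat_lit 0) (.e (nat_lit 3401) (nat_lit 211) (.e (nat_lit 647181) (nat_lit 3) .nil)))))))) (.g (nat_lit 1) (.e (nat_lit 168442) (nat_lit 0) .nil) .nil))) 
(.lf (nat_lit 500719) (.g (nat_lit 996) (.e (nat_lit 163977) (nat_lit 30) (.e (nat_lit 573491) (nat_lit 15) (.e (nat_lit 81951) (nat_lit 22) (.e (nat_lit 90170) (nat_lit 13) .nil)))) (.g (nat_lit 0) (.e (nat_lit 169324) (nat_lit 0) .nil) .nil)))))))) (.nd (nat_lit 5) (.nd (nat_lit 6) (.nd (nat_lit 7) (.nd (nat_lit 8) (.nd (nat_lit 9) 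
(.lf (nat_lit 499743) (.g (nat_lit 1786) (.e (nat_lit 163976) (nat_lit 30) (.e (nat_lit 573491) (nat_lit 15) (.e (nat_lit 81954) (nat_lit 23) (.e (nat_lit 98359) (nat_lit 26) (.e (nat_lit 426003) (nat_lit 0) .nil))))) (.g (nat_lit 0) (.e (nat_lit 167472) (nat_lit 0) .nil) .nil))) 
(.lf (nat_lit 500255) (.g (nat_lit 1827) (.e (nat_lit 163977) (nat_lit 30) (.e (nat_lit 573485) (nat_lit 13) (.e (nat_lit 65604) (nat_lit 9) (.e (nat_lit 336028) (nat_lit 3) (.e (nat_lit 98366) (nat_lit 27) .nil))))) (.g (nat_lit 0) (.e (nat_lit 168525) (nat_lit 0) .nil) .nil)))) (.nd (nat_lit 9) 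
(.lf (nat_lit 499999) (.g (nat_lit 3982) (.e (nat_lit 163977) (nat_lit 30) (.e (nat_lit 573482) (nat_lit 13) (.e (nat_lit 65604) (nat_lit 9) (.e (nat_lit 336013) (nat_lit 2) (.e (nat_lit 90170) (nat_lit 13) (.e (nat_lit 172061) (nat_lit 1) (.e (nat_lit 164345) (nat_lit 240) (.e (nat_lit 2601) (nat_lit 163) .nil)))))))) (.g (nat_lit 1) (.e (nat_lit 168124) (nat_lit 0) .nil) .nil))) 
(.lf (nat_lit 500511) (.g (nat_lit 4188) (.e (nat_lit 163977) (nat_lit 30) (.e (nat_lit 573489) (nat_lit 14) (.e (nat_lit 73754) (nat_lit 8) (.e (nat_lit 557105) (nat_lit 14) (.e (nat_lit 180252) (nat_lit 10) (.e (nat_lit 573475) (nat_lit 12) (.e (nat_lit 57500) (nat_lit 37) (.e (nat_lit 630800) (nat_lit 7) .nil)))))))) (.g (nat_lit 1) (.e (nat_lit 168947) (nat_lit 0) .nil) .nil))))) 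
(.nd (nat_lit 8) (.nd (nat_lit 9) 
(.lf (nat_lit 499871) (.g (nat_lit 3032) (.e (nat_lit 163976) (nat_lit 30) (.e (nat_lit 573492) (nat_lit 15) (.e (nat_lit 81956) (nat_lit 23) (.e (nat_lit 98359) (nat_lit 26) (.e (nat_lit 426022) (nat_lit 0) (.e (nat_lit 3402) (nat_lit 211) (.e (nat_lit 647180) (nat_lit 3) .nil))))))) (.g (nat_lit 1) (.e (nat_lit 167833) (nat_lit 0) .nil) .nil))) 
(.lf (nat_lit 500383) (.g (nat_lit 3760) (.e (nat_lit 163977) (nat_lit 30) (.e (nat_lit 573487) (nat_lit 14) (.e (nat_lit 73753) (nat_lit 8) (.e (nat_lit 557100) (nat_lit 13) (.e (nat_lit 172067) (nat_lit 3) (.e (nat_lit 204817) (nat_lit 17) (.e (nat_lit 7936) (nat_lit 149) (.e (nat_lit 761898) (nat_lit 15) .nil)))))))) (.g (nat_lit 1) (.e (nat_lit 168751) (nat_lit 0) .nil) .nil)))) 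
(.nd (nat_lit 9) 
(.lf (nat_lit 500127) (.g (nat_lit 2434) (.e (nat_lit 163977) (nat_lit 30) (.e (nat_lit 573482) (nat_lit 13) (.e (nat_lit 65619) (nat_lit 10) (.e (nat_lit 344117) (nat_lit 21) (.e (nat_lit 516161) (nat_lit 10) (.e (nat_lit 434209) (nat_lit 18) (.e (nat_lit 5547) (nat_lit 306) (.e (nat_lit 2611) (nat_lit 163) .nil)))))))) (.g (nat_lit 1) (.e (nat_lit 168269) (nat_lit 0) .nil) .nil))) 
(.lf (nat_lit 500639) (.g (nat_lit 2735) (.e (nat_lit 163977) (nat_lit 30) (.e (nat_lit 573489) (nat_lit 14) (.e (nat_lit 73755) (nat_lit 8) (.e (nat_lit 557104) (nat_lit 14) (.e (nat_lit 180243) (nat_lit 5) (.e (nat_lit 532484) (nat_lit 0) (.e (nat_lit 7936) (nat_lit 149) (.e (nat_lit 761899) (nat_lit 15) .nil)))))))) (.g (nat_lit 1) (.e (nat_lit 169161) (nat_lit 0) .nil) .nil)))))) 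
(.nd (nat_lit 7) (.nd (nat_lit 8) (.nd (nat_lit 9) 
(.lf (nat_lit 499807) (.g (nat_lit 4196) (.e (nat_lit 163976) (nat_lit 30) (.e (nat_lit 573492) (nat_lit 15) (.e (nat_lit 81953) (nat_lit 22) (.e (nat_lit 90170) (nat_lit 13) (.e (nat_lit 172138) (nat_lit 15) (.e (nat_lit 2059) (nat_lit 142) (.e (nat_lit 704589) (nat_lit 3) .nil))))))) (.g (nat_lit 1) (.e (nat_lit 167688) (nat_lit 0) .nil) .nil))) 
(.lf (nat_lit 500319) (.g (nat_lit 2194) (.e (nat_lit 163977) (nat_lit 30) (.e (nat_lit 573485) (nat_lit 13) (.e (nat_lit 65619) (nat_lit 10) (.e (nat_lit 344117) (nat_lit 21) (.e (nat_lit 516152) (nat_lit 9) .nil))))) (.g (nat_lit 0) (.e (nat_lit 168591) (nat_lit 0) .nil) .nil)))) (.nd (nat_lit 9) 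
(.lf (nat_lit 500063) (.g (nat_lit 4073) (.e (nat_lit 163977) (nat_lit 30) (.e (nat_lit 573482) (nat_lit 13) (.e (nat_lit 65619) (nat_lit 10) (.e (nat_lit 344117) (nat_lit 21) (.e (nat_lit 516143) (nat_lit 9) (.e (nat_lit 426109) (nat_lit 1) (.e (nat_lit 164347) (nat_lit 240) (.e (nat_lit 2601) (nat_lit 163) .nil)))))))) (.g (nat_lit 1) (.e (nat_lit 168205) (nat_lit 0) .nil) .nil))) 
(.lf (nat_lit 500575) (.g (nat_lit 4192) (.e (nat_lit 163977) (nat_lit 30) (.e (nat_lit 573489) (nat_lit 14) (.e (nat_lit 73755) (nat_lit 8) (.e (nat_lit 557098) (nat_lit 13) (.e (nat_lit 172067) (nat_lit 3) (.e (nat_lit 204821) (nat_lit 17) (.e (nat_lit 2270) (nat_lit 149) (.e (nat_lit 761899) (nat_lit 15) .nil)))))))) (.g (nat_lit 1) (.e (nat_lit 169068) (nat_lit 0) .nil) .nil))))) 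
(.nd (nat_lit 8) (.nd (nat_lit 9) 
(.lf (nat_lit 499935) (.g (nat_lit 5150) (.e (nat_lit 163976) (nat_lit 30) (.e (nat_lit 573493) (nat_lit 15) (.e (nat_lit 81953) (nat_lit 22) (.e (nat_lit 90169) (nat_lit 13) .nil)))) (.g (nat_lit 0) (.e (nat_lit 168012) (nat_lit 0) .nil) .nil))) 
(.lf (nat_lit 500447) (.g (nat_lit 2773) (.e (nat_lit 163977) (nat_lit 30) (.e (nat_lit 573487) (nat_lit 14) (.e (nat_lit 73755) (nat_lit 8) (.e (nat_lit 557105) (nat_lit 14) (.e (nat_lit 180252) (nat_lit 10) (.e (nat_lit 573474) (nat_lit 12) (.e (nat_lit 57504) (nat_lit 38) (.e (nat_lit 638995) (nat_lit 7) .nil)))))))) (.g (nat_lit 1) (.e (nat_lit 168862) (nat_lit 0) .nil) .nil)))) 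
(.nd (nat_lit 9) 
(.lf (nat_lit 500191) (.g (nat_lit 3583) (.e (nat_lit 163977) (nat_lit 30) (.e (nat_lit 573484) (nat_lit 13) (.e (nat_lit 65610) (nat_lit 10) (.e (nat_lit 344117) (nat_lit 21) (.e (nat_lit 516159) (nat_lit 10) (.e (nat_lit 434272) (nat_lit 38) (.e (nat_lit 655374) (nat_lit 3) .nil))))))) (.g (nat_lit 1) (.e (nat_lit 168397) (nat_lit 0) .nil) .nil))) 
(.lf (nat_lit 500703) (.g (nat_lit 4590) (.e (nat_lit 163977) (nat_lit 30) (.e (nat_lit 573489) (nat_lit 14) (.e (nat_lit 73755) (nat_lit 8) (.e (nat_lit 557105) (nat_lit 14) (.e (nat_lit 180252) (nat_lit 10) (.e (nat_lit 573475) (nat_lit 12) (.e (nat_lit 57500) (nat_lit 37) (.e (nat_lit 630800) (nat_lit 7) .nil)))))))) (.g (nat_lit 1) (.e (nat_lit 169284) (nat_lit 0) .nil) .nil))))))) 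
(.nd (nat_lit 6) (.nd (nat_lit 7) (.nd (nat_lit 8) (.nd (nat_lit 9) 
(.lf (nat_lit 499775) (.g (nat_lit 3218) (.e (nat_lit 163976) (nat_lit 30) (.e (nat_lit 573491) (nat_lit 15) (.e (nat_lit 81954) (nat_lit 23) (.e (nat_lit 98386) (nat_lit 32) (.e (nat_lit 475197) (nat_lit 40) (.e (nat_lit 704589) (nat_lit 3) .nil)))))) (.g (nat_lit 1) (.e (nat_lit 167543) (nat_lit 0) .nil) .nil))) 
(.lf (nat_lit 500287) (.g (nat_lit 2062) (.e (nat_lit 163977) (nat_lit 30) (.e (nat_lit 573485) (nat_lit 13) (.e (nat_lit 65619) (nat_lit 10) (.e (nat_lit 344117) (nat_lit 21) (.e (nat_lit 516145) (nat_lit 9) .nil))))) (.g (nat_lit 0) (.e (nat_lit 168559) (nat_lit 0) .nil) .nil)))) (.nd (nat_lit 9) 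
(.lf (nat_lit 500031) (.g (nat_lit 2402) (.e (nat_lit 163977) (nat_lit 30) (.e (nat_lit 573482) (nat_lit 13) (.e (nat_lit 65604) (nat_lit 9) (.e (nat_lit 336028) (nat_lit 3) (.e (nat_lit 98361) (nat_lit 26) .nil))))) (.g (nat_lit 0) (.e (nat_lit 168169) (nat_lit 0) .nil) .nil))) 
(.lf (nat_lit 500543) (.g (nat_lit 3115) (.e (nat_lit 163977) (nat_lit 30) (.e (nat_lit 573489) (nat_lit 14) (.e (nat_lit 73755) (nat_lit 8) (.e (nat_lit 557097) (nat_lit 13) (.e (nat_lit 172066) (nat_lit 3) (.e (nat_lit 204822) (nat_lit 17) (.e (nat_lit 2270) (nat_lit 149) (.e (nat_lit 761899) (nat_lit 15) .nil)))))))) (.g (nat_lit 1) (.e (nat_lit 169012) (nat_lit 0) .nil) .nil))))) 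
(.nd (nat_lit 8) (.nd (nat_lit 9) 
(.lf (nat_lit 499903) (.g (nat_lit 1690) (.e (nat_lit 163976) (nat_lit 30) (.e (nat_lit 573492) (nat_lit 15) (.e (nat_lit 81956) (nat_lit 23) (.e (nat_lit 106240) (nat_lit 26) .nil)))) (.g (nat_lit 0) (.e (nat_lit 167913) (nat_lit 0) .nil) .nil))) 
(.lf (nat_lit 500415) (.g (nat_lit 2702) (.e (nat_lit 163977) (nat_lit 30) (.e (nat_lit 573487) (nat_lit 14) (.e (nat_lit 73753) (nat_lit 8) (.e (nat_lit 557105) (nat_lit 14) (.e (nat_lit 180251) (nat_lit 10) (.e (nat_lit 573478) (nat_lit 12) (.e (nat_lit 57502) (nat_lit 38) (.e (nat_lit 638995) (nat_lit 7) .nil)))))))) (.g (nat_lit 1) (.e (nat_lit 168828) (nat_lit 0) .nil) .nil)))) 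
(.nd (nat_lit 9) 
(.lf (nat_lit 500159) (.g (nat_lit 2355) (.e (nat_lit 163977) (nat_lit 30) (.e (nat_lit 573484) (nat_lit 13) (.e (nat_lit 65610) (nat_lit 10) (.e (nat_lit 344117) (nat_lit 21) (.e (nat_lit 516147) (nat_lit 9) (.e (nat_lit 426444) (nat_lit 19) (.e (nat_lit 114432) (nat_lit 3) .nil))))))) (.g (nat_lit 1) (.e (nat_lit 168335) (nat_lit 0) .nil) .nil))) 
(.lf (nat_lit 500671) (.g (nat_lit 3950) (.e (nat_lit 163977) (nat_lit 30) (.e (nat_lit 573489) (nat_lit 14) (.e (nat_lit 73755) (nat_lit 8) (.e (nat_lit 557104) (nat_lit 14) (.e (nat_lit 180251) (nat_lit 10) (.e (nat_lit 573475) (nat_lit 12) (.e (nat_lit 57503) (nat_lit 38) (.e (nat_lit 638996) (nat_lit 7) .nil)))))))) (.g (nat_lit 1) (.e (nat_lit 169225) (nat_lit 0) .nil) .nil)))))) 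
(.nd (nat_lit 7) (.nd (nat_lit 8) (.nd (nat_lit 9) 
(.lf (nat_lit 499839) (.g (nat_lit 2860) (.e (nat_lit 163976) (nat_lit 30) (.e (nat_lit 573492) (nat_lit 15) (.e (nat_lit 81956) (nat_lit 23) (.e (nat_lit 98356) (nat_lit 26) (.e (nat_lit 426361) (nat_lit 15) (.e (nat_lit 2064) (nat_lit 142) (.e (nat_lit 704589) (nat_lit 3) .nil))))))) (.g (nat_lit 1) (.e (nat_lit 167796) (nat_lit 0) .nil) .nil))) 
(.lf (nat_lit 500351) (.g (nat_lit 2709) (.e (nat_lit 163977) (nat_lit 30) (.e (nat_lit 573485) (nat_lit 13) (.e (nat_lit 65619) (nat_lit 10) (.e (nat_lit 344117) (nat_lit 21) (.e (nat_lit 516160) (nat_lit 10) (.e (nat_lit 434271) (nat_lit 38) (.e (nat_lit 655374) (nat_lit 3) .nil))))))) (.g (nat_lit 1) (.e (nat_lit 168623) (nat_lit 0) .nil) .nil)))) (.nd (nat_lit 9) 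
(.lf (nat_lit 500095) (.g (nat_lit 2344) (.e (nat_lit 163977) (nat_lit 30) (.e (nat_lit 573482) (nat_lit 13) (.e (nat_lit 65619) (nat_lit 10) (.e (nat_lit 344117) (nat_lit 21) (.e (nat_lit 516151) (nat_lit 9) (.e (nat_lit 433920) (nat_lit 24) (.e (nat_lit 163584) (nat_lit 3) .nil))))))) (.g (nat_lit 1) (.e (nat_lit 168237) (nat_lit 0) .nil) .nil))) 
(.lf (nat_lit 500607) (.g (nat_lit 3278) (.e (nat_lit 163977) (nat_lit 30) (.e (nat_lit 573489) (nat_lit 14) (.e (nat_lit 73755) (nat_lit 8) (.e (nat_lit 557103) (nat_lit 14) (.e (nat_lit 180250) (nat_lit 10) (.e (nat_lit 573473) (nat_lit 12) (.e (nat_lit 57501) (nat_lit 37) (.e (nat_lit 630800) (nat_lit 7) .nil)))))))) (.g (nat_lit 1) (.e (nat_lit 169125) (nat_lit 0) .nil) .nil))))) 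
(.nd (nat_lit 8) (.nd (nat_lit 9) 
(.lf (nat_lit 499967) (.g (nat_lit 2937) (.e (nat_lit 163977) (nat_lit 30) (.e (nat_lit 573481) (nat_lit 13) (.e (nat_lit 65604) (nat_lit 9) (.e (nat_lit 336028) (nat_lit 3) (.e (nat_lit 98367) (nat_lit 27) (.e (nat_lit 434272) (nat_lit 38) (.e (nat_lit 655375) (nat_lit 3) .nil))))))) (.g (nat_lit 1) (.e (nat_lit 168084) (nat_lit 0) .nil) .nil))) 
(.lf (nat_lit 500479) (.g (nat_lit 3045) (.e (nat_lit 163977) (nat_lit 30) (.e (nat_lit 573489) (nat_lit 14) (.e (nat_lit 73754) (nat_lit 8) (.e (nat_lit 557100) (nat_lit 13) (.e (nat_lit 172138) (nat_lit 15) .nil))))) (.g (nat_lit 0) (.e (nat_lit 168905) (nat_lit 0) .nil) .nil)))) (.nd (nat_lit 9) 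
(.lf (nat_lit 500223) (.g (nat_lit 2942) (.e (nat_lit 163977) (nat_lit 30) (.e (nat_lit 573485) (nat_lit 13) (.e (nat_lit 65604) (nat_lit 9) (.e (nat_lit 336013) (nat_lit 2) (.e (nat_lit 90170) (nat_lit 13) (.e (nat_lit 172059) (nat_lit 1) (.e (nat_lit 164348) (nat_lit 240) (.e (nat_lit 2600) (nat_lit 163) .nil)))))))) (.g (nat_lit 1) (.e (nat_lit 168460) (nat_lit 0) .nil) .nil))) 
(.lf (nat_lit 500735) (.g (nat_lit 3092) (.e (nat_lit 163977) (nat_lit 30) (.e (nat_lit 573491) (nat_lit 15) (.e (nat_lit 81951) (nat_lit 22) (.e (nat_lit 90170) (nat_lit 13) (.e (nat_lit 172060) (nat_lit 1) .nil))))) (.g (nat_lit 0) (.e (nat_lit 169350) (nat_lit 0) .nil) .nil)))))))))))))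

noncomputable def tv5549 : DT := (.nd (nat_lit 0) (.nd (nat_lit 1) (.nd (nat_lit 2) (.nd (nat_lit 3) (.nd (nat_lit 4) (.nd (nat_lit 5) (.nd (nat_lit 6) (.nd (nat_lit 7) (.nd (nat_lit 8) (.nd (nat_lit 9) 
(.lf (nat_lit 500736) (.g (nat_lit 3153) (.e (nat_lit 163977) (nat_lit 30) (.e (nat_lit 573491) (nat_lit 15) (.e (nat_lit 81951) (nat_lit 22) (.e (nat_lit 90170) (nat_lit 13) (.e (nat_lit 172068) (nat_lit 4) (.e (nat_lit 229663) (nat_lit 240) (.e (nat_lit 2604) (nat_lit 163) .nil))))))) (.g (nat_lit 1) (.e (nat_lit 169358) (nat_lit 0) .nil) .nil))) 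
(.lf (nat_lit 501248) (.g (nat_lit 5335) (.e (nat_lit 163978) (nat_lit 30) (.e (nat_lit 573484) (nat_lit 13) (.e (nat_lit 65610) (nat_lit 10) (.e (nat_lit 344117) (nat_lit 21) (.e (nat_lit 516160) (nat_lit 10) (.e (nat_lit 434272) (nat_lit 38) (.e (nat_lit 655374) (nat_lit 3) .nil))))))) (.g (nat_lit 1) (.e (nat_lit 170653) (nat_lit 0) .nil) .nil)))) (.nd (nat_lit 9) 
(.lf (nat_lit 500992) (.g (nat_lit 4831) (.e (nat_lit 163977) (nat_lit 30) (.e (nat_lit 573493) (nat_lit 15) (.e (nat_lit 81956) (nat_lit 23) (.e (nat_lit 98365) (nat_lit 26) (.e (nat_lit 426107) (nat_lit 1) .nil))))) (.g (nat_lit 0) (.e (nat_lit 170122) (nat_lit 0) .nil) .nil))) 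
(.lf (nat_lit 501504) (.g (nat_lit 4876) (.e (nat_lit 163978) (nat_lit 30) (.e (nat_lit 573485) (nat_lit 13) (.e (nat_lit 65619) (nat_lit 10) (.e (nat_lit 344117) (nat_lit 21) (.e (nat_lit 516145) (nat_lit 9) (.e (nat_lit 426352) (nat_lit 15) (.e (nat_lit 7936) (nat_lit 142) (.e (nat_lit 704589) (nat_lit 3) .nil)))))))) (.g (nat_lit 1) (.e (nat_lit 171016) (nat_lit 0) .nil) .nil))))) 
(.nd (nat_lit 8) (.nd (nat_lit 9) 
(.lf (nat_lit 500864) (.g (nat_lit 3261) (.e (nat_lit 163977) (nat_lit 30) (.e (nat_lit 573493) (nat_lit 15) (.e (nat_lit 81951) (nat_lit 22) (.e (nat_lit 90174) (nat_lit 14) (.e (nat_lit 180232) (nat_lit 0) .nil))))) (.g (nat_lit 0) (.e (nat_lit 169748) (nat_lit 0) .nil) .nil))) 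
(.lf (nat_lit 501376) (.g (nat_lit 1816) (.e (nat_lit 163978) (nat_lit 30) (.e (nat_lit 573485) (nat_lit 13) (.e (nat_lit 65604) (nat_lit 9) (.e (nat_lit 336028) (nat_lit 3) (.e (nat_lit 98359) (nat_lit 26) .nil))))) (.g (nat_lit 0) (.e (nat_lit 170828) (nat_lit 0) .nil) .nil)))) (.nd (nat_lit 9) 
(.lf (nat_lit 501120) (.g (nat_lit 867) (.e (nat_lit 163978) (nat_lit 30) (.e (nat_lit 573482) (nat_lit 13) (.e (nat_lit 65616) (nat_lit 10) .nil))) (.g (nat_lit 0) (.e (nat_lit 170385) (nat_lit 0) .nil) .nil))) 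
(.lf (nat_lit 501632) (.g (nat_lit 4397) (.e (nat_lit 163978) (nat_lit 30) (.e (nat_lit 573485) (nat_lit 13) (.e (nat_lit 65619) (nat_lit 10) (.e (nat_lit 344117) (nat_lit 21) (.e (nat_lit 516159) (nat_lit 10) (.e (nat_lit 434209) (nat_lit 18) (.e (nat_lit 5547) (nat_lit 306) (.e (nat_lit 2599) (nat_lit 163) .nil)))))))) (.g (nat_lit 1) (.e (nat_lit 171148) (nat_lit 0) .nil) .nil)))))) 
(.nd (nat_lit 7) (.nd (nat_lit 8) (.nd (nat_lit 9) 
(.lf (nat_lit 500800) (.g (nat_lit 2249) (.e (nat_lit 163977) (nat_lit 30) (.e (nat_lit 573492) (nat_lit 15) (.e (nat_lit 81956) (nat_lit 23) (.e (nat_lit 98354) (nat_lit 26) .nil)))) (.g (nat_lit 0) (.e (nat_lit 169571) (nat_lit 0) .nil) .nil))) 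
(.lf (nat_lit 501312) (.g (nat_lit 4175) (.e (nat_lit 163978) (nat_lit 30) (.e (nat_lit 573485) (nat_lit 13) (.e (nat_lit 65604) (nat_lit 9) (.e (nat_lit 336013) (nat_lit 2) (.e (nat_lit 90170) (nat_lit 13) (.e (nat_lit 172049) (nat_lit 0) (.e (nat_lit 3408) (nat_lit 212) (.e (nat_lit 655373) (nat_lit 3) .nil)))))))) (.g (nat_lit 1) (.e (nat_lit 170754) (nat_lit 0) .nil) .nil)))) (.nd (nat_lit 9) 
(.lf (nat_lit 501056) (.g (nat_lit 3878) (.e (nat_lit 163978) (nat_lit 30) (.e (nat_lit 573479) (nat_lit 13) (.e (nat_lit 65619) (nat_lit 10) (.e (nat_lit 344117) (nat_lit 21) (.e (nat_lit 516151) (nat_lit 9) (.e (nat_lit 426039) (nat_lit 0) (.e (nat_lit 2458) (nat_lit 157) (.e (nat_lit 5547) (nat_lit 306) (.e (nat_lit 2611) (nat_lit 163) .nil))))))))) (.g (nat_lit 1) (.e (nat_lit 170321) (nat_lit 0) .nil) .nil))) 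
(.lf (nat_lit 501568) (.g (nat_lit 3307) (.e (nat_lit 163978) (nat_lit 30) (.e (nat_lit 573485) (nat_lit 13) (.e (nat_lit 65619) (nat_lit 10) (.e (nat_lit 344117) (nat_lit 21) (.e (nat_lit 516151) (nat_lit 9) (.e (nat_lit 426097) (nat_lit 1) (.e (nat_lit 164346) (nat_lit 240) (.e (nat_lit 2600) (nat_lit 163) .nil)))))))) (.g (nat_lit 1) (.e (nat_lit 171080) (nat_lit 0) .nil) .nil))))) 
(.nd (nat_lit 8) (.nd (nat_lit 9) 
(.lf (nat_lit 500928) (.g (nat_lit 2214) (.e (nat_lit 163977) (nat_lit 30) (.e (nat_lit 573493) (nat_lit 15) (.e (nat_lit 81954) (nat_lit 23) (.e (nat_lit 106240) (nat_lit 26) .nil)))) (.g (nat_lit 0) (.e (nat_lit 169947) (nat_lit 0) .nil) .nil))) 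
(.lf (nat_lit 501440) (.g (nat_lit 2414) (.e (nat_lit 163978) (nat_lit 30) (.e (nat_lit 573485) (nat_lit 13) (.e (nat_lit 65604) (nat_lit 9) (.e (nat_lit 336028) (nat_lit 3) (.e (nat_lit 98367) (nat_lit 27) (.e (nat_lit 434270) (nat_lit 38) (.e (nat_lit 655374) (nat_lit 3) .nil))))))) (.g (nat_lit 1) (.e (nat_lit 170941) (nat_lit 0) .nil) .nil)))) (.nd (nat_lit 9) 
(.lf (nat_lit 501184) (.g (nat_lit 2470) (.e (nat_lit 163978) (nat_lit 30) (.e (nat_lit 573484) (nat_lit 13) (.e (nat_lit 65610) (nat_lit 10) (.e (nat_lit 344117) (nat_lit 21) (.e (nat_lit 516151) (nat_lit 9) (.e (nat_lit 426022) (nat_lit 0) (.e (nat_lit 7936) (nat_lit 211) (.e (nat_lit 647181) (nat_lit 3) .nil)))))))) (.g (nat_lit 1) (.e (nat_lit 170496) (nat_lit 0) .nil) .nil))) 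
(.lf (nat_lit 501696) (.g (nat_lit 4822) (.e (nat_lit 163978) (nat_lit 30) (.e (nat_lit 573485) (nat_lit 13) (.e (nat_lit 65619) (nat_lit 10) (.e (nat_lit 344117) (nat_lit 21) (.e (nat_lit 516179) (nat_lit 15) (.e (nat_lit 475198) (nat_lit 40) (.e (nat_lit 704589) (nat_lit 3) .nil))))))) (.g (nat_lit 1) (.e (nat_lit 171222) (nat_lit 0) .nil) .nil))))))) 
(.nd (nat_lit 6) (.nd (nat_lit 7) (.nd (nat_lit 8) (.nd (nat_lit 9) 
(.lf (nat_lit 500768) (.g (nat_lit 2091) (.e (nat_lit 163977) (nat_lit 30) (.e (nat_lit 573491) (nat_lit 15) (.e (nat_lit 81954) (nat_lit 23) (.e (nat_lit 98365) (nat_lit 26) (.e (nat_lit 426024) (nat_lit 0) .nil))))) (.g (nat_lit 0) (.e (nat_lit 169449) (nat_lit 0) .nil) .nil))) 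
(.lf (nat_lit 501280) (.g (nat_lit 3615) (.e (nat_lit 163978) (nat_lit 30) (.e (nat_lit 573485) (nat_lit 13) (.e (nat_lit 65604) (nat_lit 9) (.e (nat_lit 336013) (nat_lit 2) (.e (nat_lit 90170) (nat_lit 13) (.e (nat_lit 172033) (nat_lit 0) (.e (nat_lit 3401) (nat_lit 211) (.e (nat_lit 647181) (nat_lit 3) .nil)))))))) (.g (nat_lit 1) (.e (nat_lit 170721) (nat_lit 0) .nil) .nil)))) (.nd (nat_lit 9) 
(.lf (nat_lit 501024) (.g (nat_lit 3623) (.e (nat_lit 163977) (nat_lit 30) (.e (nat_lit 573493) (nat_lit 15) (.e (nat_lit 81956) (nat_lit 23) (.e (nat_lit 98384) (nat_lit 32) (.e (nat_lit 483072) (nat_lit 40) .nil))))) (.g (nat_lit 0) (.e (nat_lit 170243) (nat_lit 0) .nil) .nil))) 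
(.lf (nat_lit 501536) (.g (nat_lit 2616) (.e (nat_lit 163978) (nat_lit 30) (.e (nat_lit 573485) (nat_lit 13) (.e (nat_lit 65619) (nat_lit 10) (.e (nat_lit 344117) (nat_lit 21) (.e (nat_lit 516151) (nat_lit 9) (.e (nat_lit 426003) (nat_lit 0) (.e (nat_lit 3409) (nat_lit 212) (.e (nat_lit 655373) (nat_lit 3) .nil)))))))) (.g (nat_lit 1) (.e (nat_lit 171048) (nat_lit 0) .nil) .nil))))) 
(.nd (nat_lit 8) (.nd (nat_lit 9) 
(.lf (nat_lit 500896) (.g (nat_lit 2450) (.e (nat_lit 163977) (nat_lit 30) (.e (nat_lit 573493) (nat_lit 15) (.e (nat_lit 81953) (nat_lit 22) (.e (nat_lit 90170) (nat_lit 13) (.e (nat_lit 172069) (nat_lit 4) (.e (nat_lit 229663) (nat_lit 240) (.e (nat_lit 2604) (nat_lit 163) .nil))))))) (.g (nat_lit 1) (.e (nat_lit 169868) (nat_lit 0) .nil) .nil))) 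
(.lf (nat_lit 501408) (.g (nat_lit 2350) (.e (nat_lit 163978) (nat_lit 30) (.e (nat_lit 573485) (nat_lit 13) (.e (nat_lit 65604) (nat_lit 9) (.e (nat_lit 336028) (nat_lit 3) (.e (nat_lit 98362) (nat_lit 26) .nil))))) (.g (nat_lit 0) (.e (nat_lit 170892) (nat_lit 0) .nil) .nil)))) (.nd (nat_lit 9) 
(.lf (nat_lit 501152) (.g (nat_lit 3042) (.e (nat_lit 163978) (nat_lit 30) (.e (nat_lit 573484) (nat_lit 13) (.e (nat_lit 65610) (nat_lit 10) (.e (nat_lit 344117) (nat_lit 21) (.e (nat_lit 516145) (nat_lit 9) (.e (nat_lit 433920) (nat_lit 1) (.e (nat_lit 164346) (nat_lit 240) (.e (nat_lit 2610) (nat_lit 163) .nil)))))))) (.g (nat_lit 1) (.e (nat_lit 170455) (nat_lit 0) .nil) .nil))) 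
(.lf (nat_lit 501664) (.g (nat_lit 2546) (.e (nat_lit 163978) (nat_lit 30) (.e (nat_lit 573485) (nat_lit 13) (.e (nat_lit 65619) (nat_lit 10) (.e (nat_lit 344117) (nat_lit 21) (.e (nat_lit 516161) (nat_lit 10) (.e (nat_lit 434209) (nat_lit 18) (.e (nat_lit 5547) (nat_lit 306) (.e (nat_lit 2599) (nat_lit 163) .nil)))))))) (.g (nat_lit 1) (.e (nat_lit 171185) (nat_lit 0) .nil) .nil)))))) 
(.nd (nat_lit 7) (.nd (nat_lit 8) (.nd (nat_lit 9) 
(.lf (nat_lit 500832) (.g (nat_lit 3140) (.e (nat_lit 163977) (nat_lit 30) (.e (nat_lit 573492) (nat_lit 15) (.e (nat_lit 81956) (nat_lit 23) (.e (nat_lit 98385) (nat_lit 32) (.e (nat_lit 475201) (nat_lit 40) (.e (nat_lit 712448) (nat_lit 3) .nil)))))) (.g (nat_lit 1) (.e (nat_lit 169630) (nat_lit 0) .nil) .nil))) 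
(.lf (nat_lit 501344) (.g (nat_lit 3458) (.e (nat_lit 163978) (nat_lit 30) (.e (nat_lit 573485) (nat_lit 13) (.e (nat_lit 65604) (nat_lit 9) (.e (nat_lit 336013) (nat_lit 2) (.e (nat_lit 90170) (nat_lit 13) (.e (nat_lit 172068) (nat_lit 4) (.e (nat_lit 229666) (nat_lit 240) (.e (nat_lit 2603) (nat_lit 163) .nil)))))))) (.g (nat_lit 1) (.e (nat_lit 170789) (nat_lit 0) .nil) .nil)))) 
(.nd (nat_lit 9) 
(.lf (nat_lit 501088) (.g (nat_lit 2284) (.e (nat_lit 163978) (nat_lit 30) (.e (nat_lit 573479) (nat_lit 13) (.e (nat_lit 65619) (nat_lit 10) (.e (nat_lit 344117) (nat_lit 21) (.e (nat_lit 516159) (nat_lit 10) (.e (nat_lit 434271) (nat_lit 38) (.e (nat_lit 655374) (nat_lit 3) .nil))))))) (.g (nat_lit 1) (.e (nat_lit 170353) (nat_lit 0) .nil) .nil))) 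
(.lf (nat_lit 501600) (.g (nat_lit 2197) (.e (nat_lit 163978) (nat_lit 30) (.e (nat_lit 573485) (nat_lit 13) (.e (nat_lit 65619) (nat_lit 10) (.e (nat_lit 344117) (nat_lit 21) (.e (nat_lit 516152) (nat_lit 9) .nil))))) (.g (nat_lit 0) (.e (nat_lit 171112) (nat_lit 0) .nil) .nil))))) (.nd (nat_lit 8) (.nd (nat_lit 9) 
(.lf (nat_lit 500960) (.g (nat_lit 3064) (.e (nat_lit 163977) (nat_lit 30) (.e (nat_lit 573493) (nat_lit 15) (.e (nat_lit 81956) (nat_lit 23) (.e (nat_lit 98359) (nat_lit 26) (.e (nat_lit 426003) (nat_lit 0) (.e (nat_lit 3401) (nat_lit 211) (.e (nat_lit 647181) (nat_lit 3) .nil))))))) (.g (nat_lit 1) (.e (nat_lit 170046) (nat_lit 0) .nil) .nil))) 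
(.lf (nat_lit 501472) (.g (nat_lit 3262) (.e (nat_lit 163978) (nat_lit 30) (.e (nat_lit 573485) (nat_lit 13) (.e (nat_lit 65619) (nat_lit 10) (.e (nat_lit 344117) (nat_lit 21) (.e (nat_lit 516143) (nat_lit 9) (.e (nat_lit 426109) (nat_lit 1) (.e (nat_lit 164346) (nat_lit 240) (.e (nat_lit 2600) (nat_lit 163) .nil)))))))) (.g (nat_lit 1) (.e (nat_lit 170984) (nat_lit 0) .nil) .nil)))) 
(.nd (nat_lit 9) 
(.lf (nat_lit 501216) (.g (nat_lit 2334) (.e (nat_lit 163978) (nat_lit 30) (.e (nat_lit 573484) (nat_lit 13) (.e (nat_lit 65610) (nat_lit 10) (.e (nat_lit 344117) (nat_lit 21) (.e (nat_lit 516151) (nat_lit 9) (.e (nat_lit 426043) (nat_lit 0) (.e (nat_lit 3409) (nat_lit 212) (.e (nat_lit 655374) (nat_lit 3) .nil)))))))) (.g (nat_lit 1) (.e (nat_lit 170558) (nat_lit 0) .nil) .nil))) 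
(.lf (nat_lit 501728) (.g (nat_lit 3396) (.e (nat_lit 163978) (nat_lit 30) (.e (nat_lit 573487) (nat_lit 14) (.e (nat_lit 73753) (nat_lit 8) (.e (nat_lit 557104) (nat_lit 14) (.e (nat_lit 180251) (nat_lit 10) (.e (nat_lit 573475) (nat_lit 12) (.e (nat_lit 57503) (nat_lit 38) (.e (nat_lit 638995) (nat_lit 7) .nil)))))))) (.g (nat_lit 1) (.e (nat_lit 171369) (nat_lit 0) .nil) .nil)))))))) 
(.nd (nat_lit 5) (.nd (nat_lit 6) (.nd (nat_lit 7) (.nd (nat_lit 8) (.nd (nat_lit 9) 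
(.lf (nat_lit 500752) (.g (nat_lit 2011) (.e (nat_lit 163977) (nat_lit 30) (.e (nat_lit 573491) (nat_lit 15) (.e (nat_lit 81954) (nat_lit 23) (.e (nat_lit 98357) (nat_lit 26) (.e (nat_lit 426444) (nat_lit 19) (.e (nat_lit 114432) (nat_lit 3) .nil)))))) (.g (nat_lit 1) (.e (nat_lit 169412) (nat_lit 0) .nil) .nil))) 
(.lf (nat_lit 501264) (.g (nat_lit 1591) (.e (nat_lit 163978) (nat_lit 30) (.e (nat_lit 573484) (nat_lit 13) (.e (nat_lit 65617) (nat_lit 10) (.e (nat_lit 344117) (nat_lit 21) .nil)))) (.g (nat_lit 0) (.e (nat_lit 170691) (nat_lit 0) .nil) .nil)))) (.nd (nat_lit 9) 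
(.lf (nat_lit 501008) (.g (nat_lit 2953) (.e (nat_lit 163977) (nat_lit 30) (.e (nat_lit 573493) (nat_lit 15) (.e (nat_lit 81956) (nat_lit 23) (.e (nat_lit 98367) (nat_lit 27) (.e (nat_lit 434270) (nat_lit 38) (.e (nat_lit 655375) (nat_lit 3) .nil)))))) (.g (nat_lit 1) (.e (nat_lit 170184) (nat_lit 0) .nil) .nil))) 
(.lf (nat_lit 501520) (.g (nat_lit 3004) (.e (nat_lit 163978) (nat_lit 30) (.e (nat_lit 573485) (nat_lit 13) (.e (nat_lit 65619) (nat_lit 10) (.e (nat_lit 344117) (nat_lit 21) (.e (nat_lit 516145) (nat_lit 9) (.e (nat_lit 426439) (nat_lit 19) (.e (nat_lit 114432) (nat_lit 3) .nil))))))) (.g (nat_lit 1) (.e (nat_lit 171032) (nat_lit 0) .nil) .nil))))) (.nd (nat_lit 8) (.nd (nat_lit 9) 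
(.lf (nat_lit 500880) (.g (nat_lit 3358) (.e (nat_lit 163977) (nat_lit 30) (.e (nat_lit 573493) (nat_lit 15) (.e (nat_lit 81953) (nat_lit 22) (.e (nat_lit 90170) (nat_lit 13) (.e (nat_lit 172038) (nat_lit 0) (.e (nat_lit 3402) (nat_lit 211) (.e (nat_lit 647181) (nat_lit 3) .nil))))))) (.g (nat_lit 1) (.e (nat_lit 169833) (nat_lit 0) .nil) .nil))) 
(.lf (nat_lit 501392) (.g (nat_lit 3989) (.e (nat_lit 163978) (nat_lit 30) (.e (nat_lit 573485) (nat_lit 13) (.e (nat_lit 65604) (nat_lit 9) (.e (nat_lit 336028) (nat_lit 3) (.e (nat_lit 98359) (nat_lit 26) (.e (nat_lit 426043) (nat_lit 0) (.e (nat_lit 3409) (nat_lit 212) (.e (nat_lit 655373) (nat_lit 3) .nil)))))))) (.g (nat_lit 1) (.e (nat_lit 170850) (nat_lit 0) .nil) .nil)))) (.nd (nat_lit 9) 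
(.lf (nat_lit 501136) (.g (nat_lit 3703) (.e (nat_lit 163978) (nat_lit 30) (.e (nat_lit 573484) (nat_lit 13) (.e (nat_lit 65610) (nat_lit 10) (.e (nat_lit 344117) (nat_lit 21) (.e (nat_lit 516143) (nat_lit 9) (.e (nat_lit 426109) (nat_lit 1) (.e (nat_lit 164347) (nat_lit 240) (.e (nat_lit 2601) (nat_lit 163) .nil)))))))) (.g (nat_lit 1) (.e (nat_lit 170422) (nat_lit 0) .nil) .nil))) 
(.lf (nat_lit 501648) (.g (nat_lit 4346) (.e (nat_lit 163978) (nat_lit 30) (.e (nat_lit 573485) (nat_lit 13) (.e (nat_lit 65619) (nat_lit 10) (.e (nat_lit 344117) (nat_lit 21) (.e (nat_lit 516160) (nat_lit 10) (.e (nat_lit 434202) (nat_lit 18) (.e (nat_lit 5537) (nat_lit 306) (.e (nat_lit 2611) (nat_lit 163) .nil)))))))) (.g (nat_lit 1) (.e (nat_lit 171165) (nat_lit 0) .nil) .nil)))))) 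
(.nd (nat_lit 7) (.nd (nat_lit 8) (.nd (nat_lit 9) 
(.lf (nat_lit 500816) (.g (nat_lit 3908) (.e (nat_lit 163977) (nat_lit 30) (.e (nat_lit 573492) (nat_lit 15) (.e (nat_lit 81956) (nat_lit 23) (.e (nat_lit 98362) (nat_lit 26) .nil)))) (.g (nat_lit 0) (.e (nat_lit 169599) (nat_lit 0) .nil) .nil))) 
(.lf (nat_lit 501328) (.g (nat_lit 4207) (.e (nat_lit 163978) (nat_lit 30) (.e (nat_lit 573485) (nat_lit 13) (.e (nat_lit 65604) (nat_lit 9) (.e (nat_lit 336013) (nat_lit 2) (.e (nat_lit 90170) (nat_lit 13) (.e (nat_lit 172061) (nat_lit 1) (.e (nat_lit 164345) (nat_lit 240) (.e (nat_lit 2599) (nat_lit 163) .nil)))))))) (.g (nat_lit 1) (.e (nat_lit 170771) (nat_lit 0) .nil) .nil)))) 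
(.nd (nat_lit 9) 
(.lf (nat_lit 501072) (.g (nat_lit 4519) (.e (nat_lit 163978) (nat_lit 30) (.e (nat_lit 573479) (nat_lit 13) (.e (nat_lit 65619) (nat_lit 10) (.e (nat_lit 344117) (nat_lit 21) (.e (nat_lit 516151) (nat_lit 9) (.e (nat_lit 426104) (nat_lit 1) (.e (nat_lit 164347) (nat_lit 240) (.e (nat_lit 2610) (nat_lit 163) .nil)))))))) (.g (nat_lit 1) (.e (nat_lit 170337) (nat_lit 0) .nil) .nil))) 
(.lf (nat_lit 501584) (.g (nat_lit 3248) (.e (nat_lit 163978) (nat_lit 30) (.e (nat_lit 573485) (nat_lit 13) (.e (nat_lit 65619) (nat_lit 10) (.e (nat_lit 344117) (nat_lit 21) (.e (nat_lit 516151) (nat_lit 9) (.e (nat_lit 426142) (nat_lit 4) (.e (nat_lit 229664) (nat_lit 240) (.e (nat_lit 2603) (nat_lit 163) .nil)))))))) (.g (nat_lit 1) (.e (nat_lit 171096) (nat_lit 0) .nil) .nil))))) 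
(.nd (nat_lit 8) (.nd (nat_lit 9) 
(.lf (nat_lit 500944) (.g (nat_lit 1830) (.e (nat_lit 163977) (nat_lit 30) (.e (nat_lit 573493) (nat_lit 15) (.e (nat_lit 81956) (nat_lit 23) (.e (nat_lit 98356) (nat_lit 26) .nil)))) (.g (nat_lit 0) (.e (nat_lit 170019) (nat_lit 0) .nil) .nil))) 
(.lf (nat_lit 501456) (.g (nat_lit 2069) (.e (nat_lit 163978) (nat_lit 30) (.e (nat_lit 573485) (nat_lit 13) (.e (nat_lit 65604) (nat_lit 9) (.e (nat_lit 336028) (nat_lit 3) (.e (nat_lit 106240) (nat_lit 32) (.e (nat_lit 475196) (nat_lit 40) (.e (nat_lit 704589) (nat_lit 3) .nil))))))) (.g (nat_lit 1) (.e (nat_lit 170960) (nat_lit 0) .nil) .nil)))) (.nd (nat_lit 9) 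
(.lf (nat_lit 501200) (.g (nat_lit 1919) (.e (nat_lit 163978) (nat_lit 30) (.e (nat_lit 573484) (nat_lit 13) (.e (nat_lit 65610) (nat_lit 10) (.e (nat_lit 344117) (nat_lit 21) (.e (nat_lit 516151) (nat_lit 9) (.e (nat_lit 426042) (nat_lit 0) (.e (nat_lit 7936) (nat_lit 211) (.e (nat_lit 647180) (nat_lit 3) .nil)))))))) (.g (nat_lit 1) (.e (nat_lit 170539) (nat_lit 0) .nil) .nil))) 
(.lf (nat_lit 501712) (.g (nat_lit 2785) (.e (nat_lit 163978) (nat_lit 30) (.e (nat_lit 573485) (nat_lit 13) (.e (nat_lit 65619) (nat_lit 10) (.e (nat_lit 344119) (nat_lit 21) (.e (nat_lit 516182) (nat_lit 15) (.e (nat_lit 475198) (nat_lit 40) (.e (nat_lit 704589) (nat_lit 3) .nil))))))) (.g (nat_lit 1) (.e (nat_lit 171238) (nat_lit 0) .nil) .nil))))))) 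
(.nd (nat_lit 6) (.nd (nat_lit 7) (.nd (nat_lit 8) (.nd (nat_lit 9) 
(.lf (nat_lit 500784) (.g (nat_lit 2095) (.e (nat_lit 163977) (nat_lit 30) (.e (nat_lit 573491) (nat_lit 15) (.e (nat_lit 81955) (nat_lit 23) (.e (nat_lit 98384) (nat_lit 32) (.e (nat_lit 475201) (nat_lit 40) (.e (nat_lit 712448) (nat_lit 3) .nil)))))) (.g (nat_lit 1) (.e (nat_lit 169509) (nat_lit 0) .nil) .nil))) 
(.lf (nat_lit 501296) (.g (nat_lit 4218) (.e (nat_lit 163978) (nat_lit 30) (.e (nat_lit 573485) (nat_lit 13) (.e (nat_lit 65604) (nat_lit 9) (.e (nat_lit 336013) (nat_lit 2) (.e (nat_lit 90170) (nat_lit 13) (.e (nat_lit 172042) (nat_lit 0) (.e (nat_lit 3409) (nat_lit 212) (.e (nat_lit 655373) (nat_lit 3) .nil)))))))) (.g (nat_lit 1) (.e (nat_lit 170738) (nat_lit 0) .nil) .nil)))) (.nd (nat_lit 9) 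
(.lf (nat_lit 501040) (.g (nat_lit 3019) (.e (nat_lit 163978) (nat_lit 30) (.e (nat_lit 573479) (nat_lit 13) (.e (nat_lit 65619) (nat_lit 10) (.e (nat_lit 344117) (nat_lit 21) (.e (nat_lit 516145) (nat_lit 9) (.e (nat_lit 433920) (nat_lit 1) (.e (nat_lit 164347) (nat_lit 240) (.e (nat_lit 2611) (nat_lit 163) .nil)))))))) (.g (nat_lit 1) (.e (nat_lit 170305) (nat_lit 0) .nil) .nil))) 
(.lf (nat_lit 501552) (.g (nat_lit 4241) (.e (nat_lit 163978) (nat_lit 30) (.e (nat_lit 573485) (nat_lit 13) (.e (nat_lit 65619) (nat_lit 10) (.e (nat_lit 344117) (nat_lit 21) (.e (nat_lit 516151) (nat_lit 9) (.e (nat_lit 426042) (nat_lit 0) (.e (nat_lit 3406) (nat_lit 212) (.e (nat_lit 655375) (nat_lit 3) .nil)))))))) (.g (nat_lit 1) (.e (nat_lit 171064) (nat_lit 0) .nil) .nil))))) 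
(.nd (nat_lit 8) (.nd (nat_lit 9) 
(.lf (nat_lit 500912) (.g (nat_lit 2250) (.e (nat_lit 163977) (nat_lit 30) (.e (nat_lit 573493) (nat_lit 15) (.e (nat_lit 81954) (nat_lit 23) (.e (nat_lit 98355) (nat_lit 26) .nil)))) (.g (nat_lit 0) (.e (nat_lit 169914) (nat_lit 0) .nil) .nil))) 
(.lf (nat_lit 501424) (.g (nat_lit 5084) (.e (nat_lit 163978) (nat_lit 30) (.e (nat_lit 573485) (nat_lit 13) (.e (nat_lit 65604) (nat_lit 9) (.e (nat_lit 336028) (nat_lit 3) (.e (nat_lit 98366) (nat_lit 27) (.e (nat_lit 434209) (nat_lit 18) (.e (nat_lit 5547) (nat_lit 306) (.e (nat_lit 2610) (nat_lit 163) .nil)))))))) (.g (nat_lit 1) (.e (nat_lit 170916) (nat_lit 0) .nil) .nil)))) 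
(.nd (nat_lit 9) 
(.lf (nat_lit 501168) (.g (nat_lit 3583) (.e (nat_lit 163978) (nat_lit 30) (.e (nat_lit 573484) (nat_lit 13) (.e (nat_lit 65610) (nat_lit 10) (.e (nat_lit 344117) (nat_lit 21) (.e (nat_lit 516147) (nat_lit 9) (.e (nat_lit 426444) (nat_lit 19) (.e (nat_lit 114432) (nat_lit 3) .nil))))))) (.g (nat_lit 1) (.e (nat_lit 170480) (nat_lit 0) .nil) .nil))) 
(.lf (nat_lit 501680) (.g (nat_lit 3869) (.e (nat_lit 163978) (nat_lit 30) (.e (nat_lit 573485) (nat_lit 13) (.e (nat_lit 65619) (nat_lit 10) (.e (nat_lit 344117) (nat_lit 21) (.e (nat_lit 516170) (nat_lit 13) (.e (nat_lit 458774) (nat_lit 18) (.e (nat_lit 5547) (nat_lit 306) (.e (nat_lit 2601) (nat_lit 163) .nil)))))))) (.g (nat_lit 1) (.e (nat_lit 171204) (nat_lit 0) .nil) .nil)))))) 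
(.nd (nat_lit 7) (.nd (nat_lit 8) (.nd (nat_lit 9) 
(.lf (nat_lit 500848) (.g (nat_lit 4631) (.e (nat_lit 163977) (nat_lit 30) (.e (nat_lit 573493) (nat_lit 15) (.e (nat_lit 81951) (nat_lit 22) (.e (nat_lit 90170) (nat_lit 13) (.e (nat_lit 172039) (nat_lit 0) (.e (nat_lit 3397) (nat_lit 211) (.e (nat_lit 647181) (nat_lit 3) .nil))))))) (.g (nat_lit 1) (.e (nat_lit 169699) (nat_lit 0) .nil) .nil))) 
(.lf (nat_lit 501360) (.g (nat_lit 3731) (.e (nat_lit 163978) (nat_lit 30) (.e (nat_lit 573485) (nat_lit 13) (.e (nat_lit 65604) (nat_lit 9) (.e (nat_lit 336013) (nat_lit 2) (.e (nat_lit 90170) (nat_lit 13) (.e (nat_lit 172137) (nat_lit 15) (.e (nat_lit 2057) (nat_lit 142) (.e (nat_lit 704589) (nat_lit 3) .nil)))))))) (.g (nat_lit 1) (.e (nat_lit 170805) (nat_lit 0) .nil) .nil)))) 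
(.nd (nat_lit 9) 
(.lf (nat_lit 501104) (.g (nat_lit 2658) (.e (nat_lit 163978) (nat_lit 30) (.e (nat_lit 573479) (nat_lit 13) (.e (nat_lit 65619) (nat_lit 10) (.e (nat_lit 344117) (nat_lit 21) (.e (nat_lit 516170) (nat_lit 13) (.e (nat_lit 458774) (nat_lit 18) (.e (nat_lit 5548) (nat_lit 306) (.e (nat_lit 2601) (nat_lit 163) .nil)))))))) (.g (nat_lit 1) (.e (nat_lit 170369) (nat_lit 0) .nil) .nil))) 
(.lf (nat_lit 501616) (.g (nat_lit 3065) (.e (nat_lit 163978) (nat_lit 30) (.e (nat_lit 573485) (nat_lit 13) (.e (nat_lit 65619) (nat_lit 10) (.e (nat_lit 344117) (nat_lit 21) (.e (nat_lit 516153) (nat_lit 9) (.e (nat_lit 426109) (nat_lit 1) (.e (nat_lit 164345) (nat_lit 240) (.e (nat_lit 2610) (nat_lit 163) .nil)))))))) (.g (nat_lit 1) (.e (nat_lit 171128) (nat_lit 0) .nil) .nil))))) 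
(.nd (nat_lit 8) (.nd (nat_lit 9) 
(.lf (nat_lit 500976) (.g (nat_lit 2933) (.e (nat_lit 163977) (nat_lit 30) (.e (nat_lit 573493) (nat_lit 15) (.e (nat_lit 81956) (nat_lit 23) (.e (nat_lit 98359) (nat_lit 26) (.e (nat_lit 433920) (nat_lit 19) (.e (nat_lit 114432) (nat_lit 3) .nil)))))) (.g (nat_lit 1) (.e (nat_lit 170092) (nat_lit 0) .nil) .nil))) 
(.lf (nat_lit 501488) (.g (nat_lit 3730) (.e (nat_lit 163978) (nat_lit 30) (.e (nat_lit 573485) (nat_lit 13) (.e (nat_lit 65619) (nat_lit 10) (.e (nat_lit 344117) (nat_lit 21) (.e (nat_lit 516144) (nat_lit 9) (.e (nat_lit 426382) (nat_lit 15) (.e (nat_lit 2059) (nat_lit 142) (.e (nat_lit 704589) (nat_lit 3) .nil)))))))) (.g (nat_lit 1) (.e (nat_lit 171000) (nat_lit 0) .nil) .nil)))) 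
(.nd (nat_lit 9) 
(.lf (nat_lit 501232) (.g (nat_lit 3945) (.e (nat_lit 163978) (nat_lit 30) (.e (nat_lit 573484) (nat_lit 13) (.e (nat_lit 65610) (nat_lit 10) (.e (nat_lit 344117) (nat_lit 21) (.e (nat_lit 516151) (nat_lit 9) (.e (nat_lit 433920) (nat_lit 24) (.e (nat_lit 163584) (nat_lit 3) .nil))))))) (.g (nat_lit 1) (.e (nat_lit 170602) (nat_lit 0) .nil) .nil))) 
(.lf (nat_lit 501744) (.g (nat_lit 4267) (.e (nat_lit 163978) (nat_lit 30) (.e (nat_lit 573489) (nat_lit 14) (.e (nat_lit 73754) (nat_lit 8) (.e (nat_lit 557100) (nat_lit 13) (.e (nat_lit 172065) (nat_lit 3) (.e (nat_lit 204817) (nat_lit 17) (.e (nat_lit 2272) (nat_lit 149) (.e (nat_lit 761899) (nat_lit 15) .nil)))))))) (.g (nat_lit 1) (.e (nat_lit 171400) (nat_lit 0) .nil) .nil))))))))) 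
(.nd (nat_lit 4) (.nd (nat_lit 5) (.nd (nat_lit 6) (.nd (nat_lit 7) (.nd (nat_lit 8) 
(.nd (nat_lit 9) 
(.lf (nat_lit 500744) (.g (nat_lit 1831) (.e (nat_lit 163977) (nat_lit 30) (.e (nat_lit 573491) (nat_lit 15) (.e (nat_lit 81954) (nat_lit 23) (.e (nat_lit 98355) (nat_lit 26) (.e (nat_lit 426442) (nat_lit 19) (.e (nat_lit 114432) (nat_lit 3) .nil)))))) (.g (nat_lit 1) (.e (nat_lit 169391) (nat_lit 0) .nil) .nil))) 
(.lf (nat_lit 501256) (.g (nat_lit 3319) (.e (nat_lit 163978) (nat_lit 30) (.e (nat_lit 573484) (nat_lit 13) (.e (nat_lit 65610) (nat_lit 10) (.e (nat_lit 344117) (nat_lit 21) (.e (nat_lit 516179) (nat_lit 15) (.e (nat_lit 475205) (nat_lit 40) (.e (nat_lit 712448) (nat_lit 3) .nil))))))) (.g (nat_lit 1) (.e (nat_lit 170681) (nat_lit 0) .nil) .nil)))) (.nd (nat_lit 9) 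
(.lf (nat_lit 501000) (.g (nat_lit 3092) (.e (nat_lit 163977) (nat_lit 30) (.e (nat_lit 573493) (nat_lit 15) (.e (nat_lit 81956) (nat_lit 23) (.e (nat_lit 98366) (nat_lit 27) (.e (nat_lit 434272) (nat_lit 38) (.e (nat_lit 655374) (nat_lit 3) .nil)))))) (.g (nat_lit 1) (.e (nat_lit 170145) (nat_lit 0) .nil) .nil))) 
(.lf (nat_lit 501512) (.g (nat_lit 4435) (.e (nat_lit 163978) (nat_lit 30) (.e (nat_lit 573485) (nat_lit 13) (.e (nat_lit 65619) (nat_lit 10) (.e (nat_lit 344117) (nat_lit 21) (.e (nat_lit 516145) (nat_lit 9) (.e (nat_lit 426379) (nat_lit 15) (.e (nat_lit 2058) (nat_lit 142) (.e (nat_lit 704589) (nat_lit 3) .nil)))))))) (.g (nat_lit 1) (.e (nat_lit 171024) (nat_lit 0) .nil) .nil))))) 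
(.nd (nat_lit 8) (.nd (nat_lit 9) 
(.lf (nat_lit 500872) (.g (nat_lit 2376) (.e (nat_lit 163977) (nat_lit 30) (.e (nat_lit 573493) (nat_lit 15) (.e (nat_lit 81953) (nat_lit 22) (.e (nat_lit 90170) (nat_lit 13) (.e (nat_lit 172032) (nat_lit 0) .nil))))) (.g (nat_lit 0) (.e (nat_lit 169825) (nat_lit 0) .nil) .nil))) 
(.lf (nat_lit 501384) (.g (nat_lit 2648) (.e (nat_lit 163978) (nat_lit 30) (.e (nat_lit 573485) (nat_lit 13) (.e (nat_lit 65604) (nat_lit 9) (.e (nat_lit 336028) (nat_lit 3) (.e (nat_lit 98359) (nat_lit 26) (.e (nat_lit 426022) (nat_lit 0) (.e (nat_lit 3401) (nat_lit 211) (.e (nat_lit 647180) (nat_lit 3) .nil)))))))) (.g (nat_lit 1) (.e (nat_lit 170836) (nat_lit 0) .nil) .nil)))) (.nd (nat_lit 9) 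
(.lf (nat_lit 501128) (.g (nat_lit 623) (.e (nat_lit 163978) (nat_lit 30) (.e (nat_lit 573484) (nat_lit 13) (.e (nat_lit 65563) (nat_lit 1) .nil))) (.g (nat_lit 0) (.e (nat_lit 170393) (nat_lit 0) .nil) .nil))) 
(.lf (nat_lit 501640) (.g (nat_lit 2717) (.e (nat_lit 163978) (nat_lit 30) (.e (nat_lit 573485) (nat_lit 13) (.e (nat_lit 65619) (nat_lit 10) (.e (nat_lit 344117) (nat_lit 21) (.e (nat_lit 516159) (nat_lit 10) (.e (nat_lit 434270) (nat_lit 38) (.e (nat_lit 655374) (nat_lit 3) .nil))))))) (.g (nat_lit 1) (.e (nat_lit 171157) (nat_lit 0) .nil) .nil)))))) 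
(.nd (nat_lit 7) (.nd (nat_lit 8) (.nd (nat_lit 9) 
(.lf (nat_lit 500808) (.g (nat_lit 1948) (.e (nat_lit 163977) (nat_lit 30) (.e (nat_lit 573492) (nat_lit 15) (.e (nat_lit 81956) (nat_lit 23) (.e (nat_lit 98357) (nat_lit 26) .nil)))) (.g (nat_lit 0) (.e (nat_lit 169591) (nat_lit 0) .nil) .nil))) 
(.lf (nat_lit 501320) (.g (nat_lit 3409) (.e (nat_lit 163978) (nat_lit 30) (.e (nat_lit 573485) (nat_lit 13) (.e (nat_lit 65604) (nat_lit 9) (.e (nat_lit 336013) (nat_lit 2) (.e (nat_lit 90170) (nat_lit 13) (.e (nat_lit 172059) (nat_lit 1) (.e (nat_lit 164347) (nat_lit 240) (.e (nat_lit 2601) (nat_lit 163) .nil)))))))) (.g (nat_lit 1) (.e (nat_lit 170763) (nat_lit 0) .nil) .nil)))) 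
(.nd (nat_lit 9) 
(.lf (nat_lit 501064) (.g (nat_lit 4624) (.e (nat_lit 163978) (nat_lit 30) (.e (nat_lit 573479) (nat_lit 13) (.e (nat_lit 65619) (nat_lit 10) (.e (nat_lit 344117) (nat_lit 21) (.e (nat_lit 516151) (nat_lit 9) (.e (nat_lit 426042) (nat_lit 0) (.e (nat_lit 3407) (nat_lit 212) (.e (nat_lit 655375) (nat_lit 3) .nil)))))))) (.g (nat_lit 1) (.e (nat_lit 170329) (nat_lit 0) .nil) .nil))) 
(.lf (nat_lit 501576) (.g (nat_lit 4222) (.e (nat_lit 163978) (nat_lit 30) (.e (nat_lit 573485) (nat_lit 13) (.e (nat_lit 65619) (nat_lit 10) (.e (nat_lit 344117) (nat_lit 21) (.e (nat_lit 516151) (nat_lit 9) (.e (nat_lit 426104) (nat_lit 1) (.e (nat_lit 164347) (nat_lit 240) (.e (nat_lit 2599) (nat_lit 163) .nil)))))))) (.g (nat_lit 1) (.e (nat_lit 171088) (nat_lit 0) .nil) .nil))))) 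
(.nd (nat_lit 8) (.nd (nat_lit 9) 
(.lf (nat_lit 500936) (.g (nat_lit 4561) (.e (nat_lit 163977) (nat_lit 30) (.e (nat_lit 573493) (nat_lit 15) (.e (nat_lit 81954) (nat_lit 23) (.e (nat_lit 98367) (nat_lit 27) (.e (nat_lit 434272) (nat_lit 38) (.e (nat_lit 655375) (nat_lit 3) .nil)))))) (.g (nat_lit 1) (.e (nat_lit 169970) (nat_lit 0) .nil) .nil))) 
(.lf (nat_lit 501448) (.g (nat_lit 4212) (.e (nat_lit 163978) (nat_lit 30) (.e (nat_lit 573485) (nat_lit 13) (.e (nat_lit 65604) (nat_lit 9) (.e (nat_lit 336028) (nat_lit 3) (.e (nat_lit 98383) (nat_lit 32) (.e (nat_lit 475198) (nat_lit 40) (.e (nat_lit 704589) (nat_lit 3) .nil))))))) (.g (nat_lit 1) (.e (nat_lit 170952) (nat_lit 0) .nil) .nil)))) (.nd (nat_lit 9) 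
(.lf (nat_lit 501192) (.g (nat_lit 5253) (.e (nat_lit 163978) (nat_lit 30) (.e (nat_lit 573484) (nat_lit 13) (.e (nat_lit 65610) (nat_lit 10) (.e (nat_lit 344117) (nat_lit 21) (.e (nat_lit 516151) (nat_lit 9) (.e (nat_lit 426038) (nat_lit 0) (.e (nat_lit 2458) (nat_lit 157) (.e (nat_lit 5547) (nat_lit 306) (.e (nat_lit 2610) (nat_lit 163) .nil))))))))) (.g (nat_lit 1) (.e (nat_lit 170512) (nat_lit 0) .nil) .nil))) 
(.lf (nat_lit 501704) (.g (nat_lit 2896) (.e (nat_lit 163978) (nat_lit 30) (.e (nat_lit 573485) (nat_lit 13) (.e (nat_lit 65619) (nat_lit 10) (.e (nat_lit 344117) (nat_lit 21) (.e (nat_lit 516181) (nat_lit 15) (.e (nat_lit 475196) (nat_lit 40) (.e (nat_lit 704589) (nat_lit 3) .nil))))))) (.g (nat_lit 1) (.e (nat_lit 171230) (nat_lit 0) .nil) .nil))))))) 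
(.nd (nat_lit 6) (.nd (nat_lit 7) (.nd (nat_lit 8) (.nd (nat_lit 9) 
(.lf (nat_lit 500776) (.g (nat_lit 2037) (.e (nat_lit 163977) (nat_lit 30) (.e (nat_lit 573491) (nat_lit 15) (.e (nat_lit 81954) (nat_lit 23) (.e (nat_lit 98367) (nat_lit 27) (.e (nat_lit 434270) (nat_lit 38) (.e (nat_lit 655374) (nat_lit 3) .nil)))))) (.g (nat_lit 1) (.e (nat_lit 169492) (nat_lit 0) .nil) .nil))) 
(.lf (nat_lit 501288) (.g (nat_lit 3272) (.e (nat_lit 163978) (nat_lit 30) (.e (nat_lit 573485) (nat_lit 13) (.e (nat_lit 65604) (nat_lit 9) (.e (nat_lit 336013) (nat_lit 2) (.e (nat_lit 90170) (nat_lit 13) (.e (nat_lit 172042) (nat_lit 0) (.e (nat_lit 2458) (nat_lit 157) (.e (nat_lit 5547) (nat_lit 306) (.e (nat_lit 2601) (nat_lit 163) .nil))))))))) (.g (nat_lit 1) (.e (nat_lit 170730) (nat_lit 0) .nil) .nil)))) 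
(.nd (nat_lit 9) 
(.lf (nat_lit 501032) (.g (nat_lit 4779) (.e (nat_lit 163978) (nat_lit 30) (.e (nat_lit 573479) (nat_lit 13) (.e (nat_lit 65604) (nat_lit 9) (.e (nat_lit 336013) (nat_lit 2) (.e (nat_lit 90170) (nat_lit 13) (.e (nat_lit 172046) (nat_lit 0) (.e (nat_lit 3406) (nat_lit 212) (.e (nat_lit 655375) (nat_lit 3) .nil)))))))) (.g (nat_lit 1) (.e (nat_lit 170296) (nat_lit 0) .nil) .nil))) 
(.lf (nat_lit 501544) (.g (nat_lit 4296) (.e (nat_lit 163978) (nat_lit 30) (.e (nat_lit 573485) (nat_lit 13) (.e (nat_lit 65619) (nat_lit 10) (.e (nat_lit 344117) (nat_lit 21) (.e (nat_lit 516151) (nat_lit 9) (.e (nat_lit 426042) (nat_lit 0) (.e (nat_lit 2458) (nat_lit 157) (.e (nat_lit 5546) (nat_lit 306) (.e (nat_lit 2610) (nat_lit 163) .nil))))))))) (.g (nat_lit 1) (.e (nat_lit 171056) (nat_lit 0) .nil) .nil))))) 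
(.nd (nat_lit 8) (.nd (nat_lit 9) 
(.lf (nat_lit 500904) (.g (nat_lit 2654) (.e (nat_lit 163977) (nat_lit 30) (.e (nat_lit 573493) (nat_lit 15) (.e (nat_lit 81953) (nat_lit 22) (.e (nat_lit 90174) (nat_lit 14) .nil)))) (.g (nat_lit 0) (.e (nat_lit 169883) (nat_lit 0) .nil) .nil))) 
(.lf (nat_lit 501416) (.g (nat_lit 2251) (.e (nat_lit 163978) (nat_lit 30) (.e (nat_lit 573485) (nat_lit 13) (.e (nat_lit 65604) (nat_lit 9) (.e (nat_lit 336028) (nat_lit 3) (.e (nat_lit 106240) (nat_lit 26) (.e (nat_lit 426441) (nat_lit 19) (.e (nat_lit 114432) (nat_lit 3) .nil))))))) (.g (nat_lit 1) (.e (nat_lit 170904) (nat_lit 0) .nil) .nil)))) (.nd (nat_lit 9) 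
(.lf (nat_lit 501160) (.g (nat_lit 3173) (.e (nat_lit 163978) (nat_lit 30) (.e (nat_lit 573484) (nat_lit 13) (.e (nat_lit 65610) (nat_lit 10) (.e (nat_lit 344117) (nat_lit 21) (.e (nat_lit 516145) (nat_lit 9) (.e (nat_lit 433920) (nat_lit 19) (.e (nat_lit 114432) (nat_lit 3) .nil))))))) (.g (nat_lit 1) (.e (nat_lit 170472) (nat_lit 0) .nil) .nil))) 
(.lf (nat_lit 501672) (.g (nat_lit 2857) (.e (nat_lit 163978) (nat_lit 30) (.e (nat_lit 573485) (nat_lit 13) (.e (nat_lit 65619) (nat_lit 10) (.e (nat_lit 344117) (nat_lit 21) (.e (nat_lit 516169) (nat_lit 13) (.e (nat_lit 458774) (nat_lit 18) (.e (nat_lit 5546) (nat_lit 306) (.e (nat_lit 2599) (nat_lit 163) .nil)))))))) (.g (nat_lit 1) (.e (nat_lit 171194) (nat_lit 0) .nil) .nil)))))) 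
(.nd (nat_lit 7) (.nd (nat_lit 8) (.nd (nat_lit 9) 
(.lf (nat_lit 500840) (.g (nat_lit 3897) (.e (nat_lit 163977) (nat_lit 30) (.e (nat_lit 573493) (nat_lit 15) (.e (nat_lit 81951) (nat_lit 22) (.e (nat_lit 90170) (nat_lit 13) (.e (nat_lit 172033) (nat_lit 0) .nil))))) (.g (nat_lit 0) (.e (nat_lit 169691) (nat_lit 0) .nil) .nil))) 
(.lf (nat_lit 501352) (.g (nat_lit 3589) (.e (nat_lit 163978) (nat_lit 30) (.e (nat_lit 573485) (nat_lit 13) (.e (nat_lit 65604) (nat_lit 9) (.e (nat_lit 336013) (nat_lit 2) (.e (nat_lit 90170) (nat_lit 13) (.e (nat_lit 172070) (nat_lit 4) (.e (nat_lit 229663) (nat_lit 240) (.e (nat_lit 2603) (nat_lit 163) .nil)))))))) (.g (nat_lit 1) (.e (nat_lit 170797) (nat_lit 0) .nil) .nil)))) 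
(.nd (nat_lit 9) 
(.lf (nat_lit 501096) (.g (nat_lit 3629) (.e (nat_lit 163978) (nat_lit 30) (.e (nat_lit 573479) (nat_lit 13) (.e (nat_lit 65619) (nat_lit 10) (.e (nat_lit 344117) (nat_lit 21) (.e (nat_lit 516160) (nat_lit 10) (.e (nat_lit 434272) (nat_lit 38) (.e (nat_lit 655374) (nat_lit 3) .nil))))))) (.g (nat_lit 1) (.e (nat_lit 170361) (nat_lit 0) .nil) .nil))) 
(.lf (nat_lit 501608) (.g (nat_lit 2401) (.e (nat_lit 163978) (nat_lit 30) (.e (nat_lit 573485) (nat_lit 13) (.e (nat_lit 65619) (nat_lit 10) (.e (nat_lit 344117) (nat_lit 21) (.e (nat_lit 516152) (nat_lit 9) (.e (nat_lit 426144) (nat_lit 4) (.e (nat_lit 229665) (nat_lit 240) (.e (nat_lit 2602) (nat_lit 163) .nil)))))))) (.g (nat_lit 1) (.e (nat_lit 171120) (nat_lit 0) .nil) .nil))))) 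
(.nd (nat_lit 8) (.nd (nat_lit 9) 
(.lf (nat_lit 500968) (.g (nat_lit 2826) (.e (nat_lit 163977) (nat_lit 30) (.e (nat_lit 573493) (nat_lit 15) (.e (nat_lit 81956) (nat_lit 23) (.e (nat_lit 98359) (nat_lit 26) (.e (nat_lit 426045) (nat_lit 0) .nil))))) (.g (nat_lit 0) (.e (nat_lit 170069) (nat_lit 0) .nil) .nil))) 
(.lf (nat_lit 501480) (.g (nat_lit 2137) (.e (nat_lit 163978) (nat_lit 30) (.e (nat_lit 573485) (nat_lit 13) (.e (nat_lit 65619) (nat_lit 10) (.e (nat_lit 344117) (nat_lit 21) (.e (nat_lit 516144) (nat_lit 9) .nil))))) (.g (nat_lit 0) (.e (nat_lit 170992) (nat_lit 0) .nil) .nil)))) (.nd (nat_lit 9) 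
(.lf (nat_lit 501224) (.g (nat_lit 2294) (.e (nat_lit 163978) (nat_lit 30) (.e (nat_lit 573484) (nat_lit 13) (.e (nat_lit 65610) (nat_lit 10) (.e (nat_lit 344117) (nat_lit 21) (.e (nat_lit 516151) (nat_lit 9) (.e (nat_lit 426097) (nat_lit 1) (.e (nat_lit 164346) (nat_lit 240) (.e (nat_lit 2601) (nat_lit 163) .nil)))))))) (.g (nat_lit 1) (.e (nat_lit 170573) (nat_lit 0) .nil) .nil))) 
(.lf (nat_lit 501736) (.g (nat_lit 4082) (.e (nat_lit 163978) (nat_lit 30) (.e (nat_lit 573487) (nat_lit 14) (.e (nat_lit 73753) (nat_lit 8) (.e (nat_lit 557105) (nat_lit 14) (.e (nat_lit 180252) (nat_lit 10) (.e (nat_lit 573475) (nat_lit 12) (.e (nat_lit 57503) (nat_lit 38) (.e (nat_lit 638996) (nat_lit 7) .nil)))))))) (.g (nat_lit 1) (.e (nat_lit 171377) (nat_lit 0) .nil) .nil)))))))) 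
(.nd (nat_lit 5) (.nd (nat_lit 6) (.nd (nat_lit 7) (.nd (nat_lit 8) (.nd (nat_lit 9) 
(.lf (nat_lit 500760) (.g (nat_lit 2927) (.e (nat_lit 163977) (nat_lit 30) (.e (nat_lit 573491) (nat_lit 15) (.e (nat_lit 81954) (nat_lit 23) (.e (nat_lit 98359) (nat_lit 26) (.e (nat_lit 426142) (nat_lit 4) (.e (nat_lit 229663) (nat_lit 240) (.e (nat_lit 2604) (nat_lit 163) .nil))))))) (.g (nat_lit 1) (.e (nat_lit 169437) (nat_lit 0) .nil) .nil))) 
(.lf (nat_lit 501272) (.g (nat_lit 4166) (.e (nat_lit 163978) (nat_lit 30) (.e (nat_lit 573485) (nat_lit 13) (.e (nat_lit 65604) (nat_lit 9) (.e (nat_lit 336013) (nat_lit 2) (.e (nat_lit 90170) (nat_lit 13) (.e (nat_lit 172032) (nat_lit 0) (.e (nat_lit 3399) (nat_lit 211) (.e (nat_lit 647180) (nat_lit 3) .nil)))))))) (.g (nat_lit 1) (.e (nat_lit 170713) (nat_lit 0) .nil) .nil)))) (.nd (nat_lit 9) 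
(.lf (nat_lit 501016) (.g (nat_lit 2909) (.e (nat_lit 163977) (nat_lit 30) (.e (nat_lit 573493) (nat_lit 15) (.e (nat_lit 81956) (nat_lit 23) (.e (nat_lit 98368) (nat_lit 27) (.e (nat_lit 434208) (nat_lit 18) .nil))))) (.g (nat_lit 0) (.e (nat_lit 170203) (nat_lit 0) .nil) .nil))) 
(.lf (nat_lit 501528) (.g (nat_lit 3456) (.e (nat_lit 163978) (nat_lit 30) (.e (nat_lit 573485) (nat_lit 13) (.e (nat_lit 65619) (nat_lit 10) (.e (nat_lit 344117) (nat_lit 21) (.e (nat_lit 516147) (nat_lit 9) (.e (nat_lit 426444) (nat_lit 19) (.e (nat_lit 114432) (nat_lit 3) .nil))))))) (.g (nat_lit 1) (.e (nat_lit 171040) (nat_lit 0) .nil) .nil))))) (.nd (nat_lit 8) (.nd (nat_lit 9) 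
(.lf (nat_lit 500888) (.g (nat_lit 2847) (.e (nat_lit 163977) (nat_lit 30) (.e (nat_lit 573493) (nat_lit 15) (.e (nat_lit 81953) (nat_lit 22) (.e (nat_lit 90170) (nat_lit 13) (.e (nat_lit 172049) (nat_lit 0) (.e (nat_lit 7936) (nat_lit 211) (.e (nat_lit 647181) (nat_lit 3) .nil))))))) (.g (nat_lit 1) (.e (nat_lit 169846) (nat_lit 0) .nil) .nil))) 
(.lf (nat_lit 501400) (.g (nat_lit 2649) (.e (nat_lit 163978) (nat_lit 30) (.e (nat_lit 573485) (nat_lit 13) (.e (nat_lit 65604) (nat_lit 9) (.e (nat_lit 336028) (nat_lit 3) (.e (nat_lit 98360) (nat_lit 26) (.e (nat_lit 426396) (nat_lit 15) (.e (nat_lit 2059) (nat_lit 142) (.e (nat_lit 704589) (nat_lit 3) .nil)))))))) (.g (nat_lit 1) (.e (nat_lit 170881) (nat_lit 0) .nil) .nil)))) 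
(.nd (nat_lit 9) 
(.lf (nat_lit 501144) (.g (nat_lit 2055) (.e (nat_lit 163978) (nat_lit 30) (.e (nat_lit 573484) (nat_lit 13) (.e (nat_lit 65610) (nat_lit 10) (.e (nat_lit 344117) (nat_lit 21) (.e (nat_lit 516145) (nat_lit 9) .nil))))) (.g (nat_lit 0) (.e (nat_lit 170438) (nat_lit 0) .nil) .nil))) 
(.lf (nat_lit 501656) (.g (nat_lit 2716) (.e (nat_lit 163978) (nat_lit 30) (.e (nat_lit 573485) (nat_lit 13) (.e (nat_lit 65619) (nat_lit 10) (.e (nat_lit 344117) (nat_lit 21) (.e (nat_lit 516160) (nat_lit 10) (.e (nat_lit 434270) (nat_lit 38) (.e (nat_lit 655374) (nat_lit 3) .nil))))))) (.g (nat_lit 1) (.e (nat_lit 171177) (nat_lit 0) .nil) .nil)))))) 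
(.nd (nat_lit 7) (.nd (nat_lit 8) (.nd (nat_lit 9) 
(.lf (nat_lit 500824) (.g (nat_lit 2888) (.e (nat_lit 163977) (nat_lit 30) (.e (nat_lit 573492) (nat_lit 15) (.e (nat_lit 81956) (nat_lit 23) (.e (nat_lit 98368) (nat_lit 27) .nil)))) (.g (nat_lit 0) (.e (nat_lit 169610) (nat_lit 0) .nil) .nil))) 
(.lf (nat_lit 501336) (.g (nat_lit 3713) (.e (nat_lit 163978) (nat_lit 30) (.e (nat_lit 573485) (nat_lit 13) (.e (nat_lit 65604) (nat_lit 9) (.e (nat_lit 336013) (nat_lit 2) (.e (nat_lit 90170) (nat_lit 13) (.e (nat_lit 172061) (nat_lit 1) (.e (nat_lit 164348) (nat_lit 240) (.e (nat_lit 2601) (nat_lit 163) .nil)))))))) (.g (nat_lit 1) (.e (nat_lit 170781) (nat_lit 0) .nil) .nil)))) 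
(.nd (nat_lit 9) 
(.lf (nat_lit 501080) (.g (nat_lit 3247) (.e (nat_lit 163978) (nat_lit 30) (.e (nat_lit 573479) (nat_lit 13) (.e (nat_lit 65619) (nat_lit 10) (.e (nat_lit 344117) (nat_lit 21) (.e (nat_lit 516152) (nat_lit 9) (.e (nat_lit 426109) (nat_lit 1) (.e (nat_lit 164347) (nat_lit 240) (.e (nat_lit 2611) (nat_lit 163) .nil)))))))) (.g (nat_lit 1) (.e (nat_lit 170345) (nat_lit 0) .nil) .nil))) 
(.lf (nat_lit 501592) (.g (nat_lit 4411) (.e (nat_lit 163978) (nat_lit 30) (.e (nat_lit 573485) (nat_lit 13) (.e (nat_lit 65619) (nat_lit 10) (.e (nat_lit 344117) (nat_lit 21) (.e (nat_lit 516151) (nat_lit 9) (.e (nat_lit 426396) (nat_lit 15) (.e (nat_lit 2058) (nat_lit 142) (.e (nat_lit 704589) (nat_lit 3) .nil)))))))) (.g (nat_lit 1) (.e (nat_lit 171104) (nat_lit 0) .nil) .nil))))) 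
(.nd (nat_lit 8) (.nd (nat_lit 9) 
(.lf (nat_lit 500952) (.g (nat_lit 3805) (.e (nat_lit 163977) (nat_lit 30) (.e (nat_lit 573493) (nat_lit 15) (.e (nat_lit 81956) (nat_lit 23) (.e (nat_lit 98356) (nat_lit 26) (.e (nat_lit 426444) (nat_lit 19) (.e (nat_lit 114432) (nat_lit 3) .nil)))))) (.g (nat_lit 1) (.e (nat_lit 170034) (nat_lit 0) .nil) .nil))) 
(.lf (nat_lit 501464) (.g (nat_lit 4845) (.e (nat_lit 163978) (nat_lit 30) (.e (nat_lit 573485) (nat_lit 13) (.e (nat_lit 65619) (nat_lit 10) (.e (nat_lit 344117) (nat_lit 21) (.e (nat_lit 516097) (nat_lit 0) (.e (nat_lit 7366) (nat_lit 388) (.e (nat_lit 2610) (nat_lit 163) (.e (nat_lit 164347) (nat_lit 240) (.e (nat_lit 2610) (nat_lit 163) .nil))))))))) (.g (nat_lit 1) (.e (nat_lit 170973) (nat_lit 0) .nil) .nil)))) 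
(.nd (nat_lit 9) 
(.lf (nat_lit 501208) (.g (nat_lit 2781) (.e (nat_lit 163978) (nat_lit 30) (.e (nat_lit 573484) (nat_lit 13) (.e (nat_lit 65610) (nat_lit 10) (.e (nat_lit 344117) (nat_lit 21) (.e (nat_lit 516151) (nat_lit 9) (.e (nat_lit 426042) (nat_lit 0) (.e (nat_lit 3408) (nat_lit 212) (.e (nat_lit 655375) (nat_lit 3) .nil)))))))) (.g (nat_lit 1) (.e (nat_lit 170547) (nat_lit 0) .nil) .nil))) 
(.lf (nat_lit 501720) (.g (nat_lit 3654) (.e (nat_lit 163978) (nat_lit 30) (.e (nat_lit 573487) (nat_lit 14) (.e (nat_lit 73753) (nat_lit 8) (.e (nat_lit 557100) (nat_lit 13) (.e (nat_lit 172138) (nat_lit 15) (.e (nat_lit 1800) (nat_lit 119) (.e (nat_lit 516117) (nat_lit 1) (.e (nat_lit 164304) (nat_lit 226) (.e (nat_lit 2612) (nat_lit 163) .nil))))))))) (.g (nat_lit 1) (.e (nat_lit 171317) (nat_lit 0) .nil) .nil))))))) 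
(.nd (nat_lit 6) (.nd (nat_lit 7) (.nd (nat_lit 8) (.nd (nat_lit 9) 
(.lf (nat_lit 500792) (.g (nat_lit 5344) (.e (nat_lit 163977) (nat_lit 30) (.e (nat_lit 573492) (nat_lit 15) (.e (nat_lit 81953) (nat_lit 22) (.e (nat_lit 90167) (nat_lit 13) .nil)))) (.g (nat_lit 0) (.e (nat_lit 169533) (nat_lit 0) .nil) .nil))) 
(.lf (nat_lit 501304) (.g (nat_lit 3605) (.e (nat_lit 163978) (nat_lit 30) (.e (nat_lit 573485) (nat_lit 13) (.e (nat_lit 65604) (nat_lit 9) (.e (nat_lit 336013) (nat_lit 2) (.e (nat_lit 90170) (nat_lit 13) (.e (nat_lit 172046) (nat_lit 0) (.e (nat_lit 3403) (nat_lit 212) (.e (nat_lit 655374) (nat_lit 3) .nil)))))))) (.g (nat_lit 1) (.e (nat_lit 170746) (nat_lit 0) .nil) .nil)))) (.nd (nat_lit 9) 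
(.lf (nat_lit 501048) (.g (nat_lit 4020) (.e (nat_lit 163978) (nat_lit 30) (.e (nat_lit 573479) (nat_lit 13) (.e (nat_lit 65619) (nat_lit 10) (.e (nat_lit 344117) (nat_lit 21) (.e (nat_lit 516151) (nat_lit 9) (.e (nat_lit 426025) (nat_lit 0) (.e (nat_lit 3399) (nat_lit 211) (.e (nat_lit 647181) (nat_lit 3) .nil)))))))) (.g (nat_lit 1) (.e (nat_lit 170313) (nat_lit 0) .nil) .nil))) 
(.lf (nat_lit 501560) (.g (nat_lit 2701) (.e (nat_lit 163978) (nat_lit 30) (.e (nat_lit 573485) (nat_lit 13) (.e (nat_lit 65619) (nat_lit 10) (.e (nat_lit 344117) (nat_lit 21) (.e (nat_lit 516151) (nat_lit 9) (.e (nat_lit 426043) (nat_lit 0) (.e (nat_lit 3406) (nat_lit 212) (.e (nat_lit 655374) (nat_lit 3) .nil)))))))) (.g (nat_lit 1) (.e (nat_lit 171072) (nat_lit 0) .nil) .nil))))) 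
(.nd (nat_lit 8) (.nd (nat_lit 9) 
(.lf (nat_lit 500920) (.g (nat_lit 4217) (.e (nat_lit 163977) (nat_lit 30) (.e (nat_lit 573493) (nat_lit 15) (.e (nat_lit 81954) (nat_lit 23) (.e (nat_lit 98359) (nat_lit 26) (.e (nat_lit 426022) (nat_lit 0) (.e (nat_lit 3397) (nat_lit 211) (.e (nat_lit 647181) (nat_lit 3) .nil))))))) (.g (nat_lit 1) (.e (nat_lit 169922) (nat_lit 0) .nil) .nil))) 
(.lf (nat_lit 501432) (.g (nat_lit 2327) (.e (nat_lit 163978) (nat_lit 30) (.e (nat_lit 573485) (nat_lit 13) (.e (nat_lit 65604) (nat_lit 9) (.e (nat_lit 336028) (nat_lit 3) (.e (nat_lit 98367) (nat_lit 27) (.e (nat_lit 434202) (nat_lit 18) (.e (nat_lit 5537) (nat_lit 306) (.e (nat_lit 2599) (nat_lit 163) .nil)))))))) (.g (nat_lit 1) (.e (nat_lit 170926) (nat_lit 0) .nil) .nil)))) 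
(.nd (nat_lit 9) 
(.lf (nat_lit 501176) (.g (nat_lit 2781) (.e (nat_lit 163978) (nat_lit 30) (.e (nat_lit 573484) (nat_lit 13) (.e (nat_lit 65610) (nat_lit 10) (.e (nat_lit 344117) (nat_lit 21) (.e (nat_lit 516151) (nat_lit 9) (.e (nat_lit 426003) (nat_lit 0) (.e (nat_lit 3401) (nat_lit 211) (.e (nat_lit 647181) (nat_lit 3) .nil)))))))) (.g (nat_lit 1) (.e (nat_lit 170488) (nat_lit 0) .nil) .nil))) 
(.lf (nat_lit 501688) (.g (nat_lit 2221) (.e (nat_lit 163978) (nat_lit 30) (.e (nat_lit 573485) (nat_lit 13) (.e (nat_lit 65619) (nat_lit 10) (.e (nat_lit 344117) (nat_lit 21) (.e (nat_lit 516172) (nat_lit 13) (.e (nat_lit 458774) (nat_lit 18) (.e (nat_lit 5547) (nat_lit 306) (.e (nat_lit 2599) (nat_lit 163) .nil)))))))) (.g (nat_lit 1) (.e (nat_lit 171214) (nat_lit 0) .nil) .nil)))))) 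
(.nd (nat_lit 7) (.nd (nat_lit 8) (.nd (nat_lit 9) 
(.lf (nat_lit 500856) (.g (nat_lit 4579) (.e (nat_lit 163977) (nat_lit 30) (.e (nat_lit 573493) (nat_lit 15) (.e (nat_lit 81951) (nat_lit 22) (.e (nat_lit 90170) (nat_lit 13) (.e (nat_lit 172059) (nat_lit 1) (.e (nat_lit 164348) (nat_lit 240) (.e (nat_lit 2610) (nat_lit 163) .nil))))))) (.g (nat_lit 1) (.e (nat_lit 169720) (nat_lit 0) .nil) .nil))) 
(.lf (nat_lit 501368) (.g (nat_lit 4274) (.e (nat_lit 163978) (nat_lit 30) (.e (nat_lit 573485) (nat_lit 13) (.e (nat_lit 65604) (nat_lit 9) (.e (nat_lit 336013) (nat_lit 2) (.e (nat_lit 90185) (nat_lit 17) .nil))))) (.g (nat_lit 0) (.e (nat_lit 170813) (nat_lit 0) .nil) .nil)))) (.nd (nat_lit 9) 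
(.lf (nat_lit 501112) (.g (nat_lit 4345) (.e (nat_lit 163978) (nat_lit 30) (.e (nat_lit 573481) (nat_lit 13) (.e (nat_lit 65604) (nat_lit 9) (.e (nat_lit 336028) (nat_lit 3) (.e (nat_lit 98367) (nat_lit 27) (.e (nat_lit 434272) (nat_lit 38) (.e (nat_lit 655375) (nat_lit 3) .nil))))))) (.g (nat_lit 1) (.e (nat_lit 170377) (nat_lit 0) .nil) .nil))) 
(.lf (nat_lit 501624) (.g (nat_lit 2812) (.e (nat_lit 163978) (nat_lit 30) (.e (nat_lit 573485) (nat_lit 13) (.e (nat_lit 65619) (nat_lit 10) (.e (nat_lit 344117) (nat_lit 21) (.e (nat_lit 516155) (nat_lit 9) (.e (nat_lit 426025) (nat_lit 0) (.e (nat_lit 3397) (nat_lit 211) (.e (nat_lit 647181) (nat_lit 3) .nil)))))))) (.g (nat_lit 1) (.e (nat_lit 171136) (nat_lit 0) .nil) .nil))))) 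
(.nd (nat_lit 8) (.nd (nat_lit 9) 
(.lf (nat_lit 500984) (.g (nat_lit 5832) (.e (nat_lit 163977) (nat_lit 30) (.e (nat_lit 573493) (nat_lit 15) (.e (nat_lit 81956) (nat_lit 23) (.e (nat_lit 98363) (nat_lit 26) (.e (nat_lit 426110) (nat_lit 1) (.e (nat_lit 164348) (nat_lit 240) (.e (nat_lit 2610) (nat_lit 163) .nil))))))) (.g (nat_lit 1) (.e (nat_lit 170109) (nat_lit 0) .nil) .nil))) 
(.lf (nat_lit 501496) (.g (nat_lit 3127) (.e (nat_lit 163978) (nat_lit 30) (.e (nat_lit 573485) (nat_lit 13) (.e (nat_lit 65619) (nat_lit 10) (.e (nat_lit 344117) (nat_lit 21) (.e (nat_lit 516144) (nat_lit 9) (.e (nat_lit 426442) (nat_lit 19) (.e (nat_lit 114432) (nat_lit 3) .nil))))))) (.g (nat_lit 1) (.e (nat_lit 171008) (nat_lit 0) .nil) .nil)))) (.nd (nat_lit 9) 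
(.lf (nat_lit 501240) (.g (nat_lit 3878) (.e (nat_lit 163978) (nat_lit 30) (.e (nat_lit 573484) (nat_lit 13) (.e (nat_lit 65610) (nat_lit 10) (.e (nat_lit 344117) (nat_lit 21) (.e (nat_lit 516159) (nat_lit 10) (.e (nat_lit 434271) (nat_lit 38) (.e (nat_lit 655374) (nat_lit 3) .nil))))))) (.g (nat_lit 1) (.e (nat_lit 170627) (nat_lit 0) .nil) .nil))) 
(.lf (nat_lit 501752) (.g (nat_lit 2424) (.e (nat_lit 163978) (nat_lit 30) (.e (nat_lit 573489) (nat_lit 14) (.e (nat_lit 73754) (nat_lit 8) (.e (nat_lit 557100) (nat_lit 13) (.e (nat_lit 172067) (nat_lit 3) .nil))))) (.g (nat_lit 0) (.e (nat_lit 171421) (nat_lit 0) .nil) .nil)))))))))) 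
(.nd (nat_lit 3) (.nd (nat_lit 4) (.nd (nat_lit 5) (.nd (nat_lit 6) (.nd (nat_lit 7) 
(.nd (nat_lit 8) (.nd (nat_lit 9) 
(.lf (nat_lit 500740) (.g (nat_lit 4869) (.e (nat_lit 163977) (nat_lit 30) (.e (nat_lit 573491) (nat_lit 15) (.e (nat_lit 81951) (nat_lit 22) (.e (nat_lit 90170) (nat_lit 13) (.e (nat_lit 172070) (nat_lit 4) (.e (nat_lit 229663) (nat_lit 240) (.e (nat_lit 2612) (nat_lit 163) .nil))))))) (.g (nat_lit 1) (.e (nat_lit 169362) (nat_lit 0) .nil) .nil))) 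
(.lf (nat_lit 501252) (.g (nat_lit 2480) (.e (nat_lit 163978) (nat_lit 30) (.e (nat_lit 573484) (nat_lit 13) (.e (nat_lit 65610) (nat_lit 10) (.e (nat_lit 344117) (nat_lit 21) (.e (nat_lit 516179) (nat_lit 15) (.e (nat_lit 475197) (nat_lit 40) (.e (nat_lit 704589) (nat_lit 3) .nil))))))) (.g (nat_lit 1) (.e (nat_lit 170677) (nat_lit 0) .nil) .nil)))) (.nd (nat_lit 9) 
(.lf (nat_lit 500996) (.g (nat_lit 2639) (.e (nat_lit 163977) (nat_lit 30) (.e (nat_lit 573493) (nat_lit 15) (.e (nat_lit 81956) (nat_lit 23) (.e (nat_lit 98366) (nat_lit 27) (.e (nat_lit 434202) (nat_lit 18) .nil))))) (.g (nat_lit 0) (.e (nat_lit 170135) (nat_lit 0) .nil) .nil))) 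
(.lf (nat_lit 501508) (.g (nat_lit 4612) (.e (nat_lit 163978) (nat_lit 30) (.e (nat_lit 573485) (nat_lit 13) (.e (nat_lit 65619) (nat_lit 10) (.e (nat_lit 344117) (nat_lit 21) (.e (nat_lit 516145) (nat_lit 9) (.e (nat_lit 426375) (nat_lit 15) (.e (nat_lit 2057) (nat_lit 142) (.e (nat_lit 704589) (nat_lit 3) .nil)))))))) (.g (nat_lit 1) (.e (nat_lit 171020) (nat_lit 0) .nil) .nil))))) 
(.nd (nat_lit 8) (.nd (nat_lit 9) 
(.lf (nat_lit 500868) (.g (nat_lit 4405) (.e (nat_lit 163977) (nat_lit 30) (.e (nat_lit 573493) (nat_lit 15) (.e (nat_lit 81953) (nat_lit 22) (.e (nat_lit 90167) (nat_lit 13) (.e (nat_lit 172070) (nat_lit 4) .nil))))) (.g (nat_lit 0) (.e (nat_lit 169821) (nat_lit 0) .nil) .nil))) 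
(.lf (nat_lit 501380) (.g (nat_lit 2857) (.e (nat_lit 163978) (nat_lit 30) (.e (nat_lit 573485) (nat_lit 13) (.e (nat_lit 65604) (nat_lit 9) (.e (nat_lit 336028) (nat_lit 3) (.e (nat_lit 98359) (nat_lit 26) (.e (nat_lit 426003) (nat_lit 0) (.e (nat_lit 3401) (nat_lit 211) (.e (nat_lit 647181) (nat_lit 3) .nil)))))))) (.g (nat_lit 1) (.e (nat_lit 170832) (nat_lit 0) .nil) .nil)))) (.nd (nat_lit 9) 
(.lf (nat_lit 501124) (.g (nat_lit 5455) (.e (nat_lit 163978) (nat_lit 30) (.e (nat_lit 573482) (nat_lit 13) (.e (nat_lit 65619) (nat_lit 10) (.e (nat_lit 344117) (nat_lit 21) (.e (nat_lit 516160) (nat_lit 10) (.e (nat_lit 434272) (nat_lit 38) (.e (nat_lit 655375) (nat_lit 3) .nil))))))) (.g (nat_lit 1) (.e (nat_lit 170389) (nat_lit 0) .nil) .nil))) 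
(.lf (nat_lit 501636) (.g (nat_lit 5517) (.e (nat_lit 163978) (nat_lit 30) (.e (nat_lit 573485) (nat_lit 13) (.e (nat_lit 65619) (nat_lit 10) (.e (nat_lit 344117) (nat_lit 21) (.e (nat_lit 516159) (nat_lit 10) (.e (nat_lit 434209) (nat_lit 18) (.e (nat_lit 5548) (nat_lit 306) (.e (nat_lit 2610) (nat_lit 163) .nil)))))))) (.g (nat_lit 1) (.e (nat_lit 171153) (nat_lit 0) .nil) .nil)))))) 
(.nd (nat_lit 7) (.nd (nat_lit 8) (.nd (nat_lit 9) 
(.lf (nat_lit 500804) (.g (nat_lit 2460) (.e (nat_lit 163977) (nat_lit 30) (.e (nat_lit 573492) (nat_lit 15) (.e (nat_lit 81956) (nat_lit 23) (.e (nat_lit 98356) (nat_lit 26) .nil)))) (.g (nat_lit 0) (.e (nat_lit 169577) (nat_lit 0) .nil) .nil))) 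
(.lf (nat_lit 501316) (.g (nat_lit 3438) (.e (nat_lit 163978) (nat_lit 30) (.e (nat_lit 573485) (nat_lit 13) (.e (nat_lit 65604) (nat_lit 9) (.e (nat_lit 336013) (nat_lit 2) (.e (nat_lit 90170) (nat_lit 13) (.e (nat_lit 172059) (nat_lit 1) (.e (nat_lit 164345) (nat_lit 240) (.e (nat_lit 2600) (nat_lit 163) .nil)))))))) (.g (nat_lit 1) (.e (nat_lit 170758) (nat_lit 0) .nil) .nil)))) 
(.nd (nat_lit 9) 
(.lf (nat_lit 501060) (.g (nat_lit 4488) (.e (nat_lit 163978) (nat_lit 30) (.e (nat_lit 573479) (nat_lit 13) (.e (nat_lit 65619) (nat_lit 10) (.e (nat_lit 344117) (nat_lit 21) (.e (nat_lit 516151) (nat_lit 9) (.e (nat_lit 426042) (nat_lit 0) (.e (nat_lit 2458) (nat_lit 157) (.e (nat_lit 5547) (nat_lit 306) (.e (nat_lit 2611) (nat_lit 163) .nil))))))))) (.g (nat_lit 1) (.e (nat_lit 170325) (nat_lit 0) .nil) .nil))) 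
(.lf (nat_lit 501572) (.g (nat_lit 2543) (.e (nat_lit 163978) (nat_lit 30) (.e (nat_lit 573485) (nat_lit 13) (.e (nat_lit 65619) (nat_lit 10) (.e (nat_lit 344117) (nat_lit 21) (.e (nat_lit 516151) (nat_lit 9) (.e (nat_lit 426097) (nat_lit 1) (.e (nat_lit 164348) (nat_lit 240) (.e (nat_lit 2598) (nat_lit 163) .nil)))))))) (.g (nat_lit 1) (.e (nat_lit 171084) (nat_lit 0) .nil) .nil))))) 
(.nd (nat_lit 8) (.nd (nat_lit 9) 
(.lf (nat_lit 500932) (.g (nat_lit 2053) (.e (nat_lit 163977) (nat_lit 30) (.e (nat_lit 573493) (nat_lit 15) (.e (nat_lit 81954) (nat_lit 23) (.e (nat_lit 98367) (nat_lit 27) .nil)))) (.g (nat_lit 0) (.e (nat_lit 169955) (nat_lit 0) .nil) .nil))) 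
(.lf (nat_lit 501444) (.g (nat_lit 4374) (.e (nat_lit 163978) (nat_lit 30) (.e (nat_lit 573485) (nat_lit 13) (.e (nat_lit 65604) (nat_lit 9) (.e (nat_lit 336028) (nat_lit 3) (.e (nat_lit 98367) (nat_lit 27) (.e (nat_lit 434272) (nat_lit 38) (.e (nat_lit 655373) (nat_lit 3) .nil))))))) (.g (nat_lit 1) (.e (nat_lit 170945) (nat_lit 0) .nil) .nil)))) (.nd (nat_lit 9) 
(.lf (nat_lit 501188) (.g (nat_lit 3087) (.e (nat_lit 163978) (nat_lit 30) (.e (nat_lit 573484) (nat_lit 13) (.e (nat_lit 65610) (nat_lit 10) (.e (nat_lit 344117) (nat_lit 21) (.e (nat_lit 516151) (nat_lit 9) (.e (nat_lit 426034) (nat_lit 0) (.e (nat_lit 3403) (nat_lit 212) (.e (nat_lit 655374) (nat_lit 3) .nil)))))))) (.g (nat_lit 1) (.e (nat_lit 170502) (nat_lit 0) .nil) .nil))) 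
(.lf (nat_lit 501700) (.g (nat_lit 3414) (.e (nat_lit 163978) (nat_lit 30) (.e (nat_lit 573485) (nat_lit 13) (.e (nat_lit 65619) (nat_lit 10) (.e (nat_lit 344117) (nat_lit 21) (.e (nat_lit 516180) (nat_lit 15) (.e (nat_lit 475201) (nat_lit 40) (.e (nat_lit 712448) (nat_lit 3) .nil))))))) (.g (nat_lit 1) (.e (nat_lit 171226) (nat_lit 0) .nil) .nil))))))) 
(.nd (nat_lit 6) (.nd (nat_lit 7) (.nd (nat_lit 8) (.nd (nat_lit 9) 
(.lf (nat_lit 500772) (.g (nat_lit 1093) (.e (nat_lit 163977) (nat_lit 30) (.e (nat_lit 573491) (nat_lit 15) (.e (nat_lit 81954) (nat_lit 23) (.e (nat_lit 106240) (nat_lit 26) .nil)))) (.g (nat_lit 0) (.e (nat_lit 169465) (nat_lit 0) .nil) .nil))) 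
(.lf (nat_lit 501284) (.g (nat_lit 3993) (.e (nat_lit 163978) (nat_lit 30) (.e (nat_lit 573485) (nat_lit 13) (.e (nat_lit 65604) (nat_lit 9) (.e (nat_lit 336013) (nat_lit 2) (.e (nat_lit 90170) (nat_lit 13) (.e (nat_lit 172039) (nat_lit 0) (.e (nat_lit 3402) (nat_lit 211) (.e (nat_lit 647180) (nat_lit 3) .nil)))))))) (.g (nat_lit 1) (.e (nat_lit 170725) (nat_lit 0) .nil) .nil)))) (.nd (nat_lit 9) 
(.lf (nat_lit 501028) (.g (nat_lit 991) (.e (nat_lit 163978) (nat_lit 30) (.e (nat_lit 573475) (nat_lit 12) (.e (nat_lit 57546) (nat_lit 47) .nil))) (.g (nat_lit 0) (.e (nat_lit 170278) (nat_lit 0) .nil) .nil))) 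
(.lf (nat_lit 501540) (.g (nat_lit 4771) (.e (nat_lit 163978) (nat_lit 30) (.e (nat_lit 573485) (nat_lit 13) (.e (nat_lit 65619) (nat_lit 10) (.e (nat_lit 344117) (nat_lit 21) (.e (nat_lit 516151) (nat_lit 9) (.e (nat_lit 426038) (nat_lit 0) (.e (nat_lit 2458) (nat_lit 157) (.e (nat_lit 5547) (nat_lit 306) (.e (nat_lit 2610) (nat_lit 163) .nil))))))))) (.g (nat_lit 1) (.e (nat_lit 171052) (nat_lit 0) .nil) .nil))))) 
(.nd (nat_lit 8) (.nd (nat_lit 9) 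
(.lf (nat_lit 500900) (.g (nat_lit 3608) (.e (nat_lit 163977) (nat_lit 30) (.e (nat_lit 573493) (nat_lit 15) (.e (nat_lit 81953) (nat_lit 22) (.e (nat_lit 90171) (nat_lit 14) .nil)))) (.g (nat_lit 0) (.e (nat_lit 169874) (nat_lit 0) .nil) .nil))) 
(.lf (nat_lit 501412) (.g (nat_lit 2732) (.e (nat_lit 163978) (nat_lit 30) (.e (nat_lit 573485) (nat_lit 13) (.e (nat_lit 65604) (nat_lit 9) (.e (nat_lit 336028) (nat_lit 3) (.e (nat_lit 98364) (nat_lit 26) (.e (nat_lit 426107) (nat_lit 1) (.e (nat_lit 164347) (nat_lit 240) (.e (nat_lit 2610) (nat_lit 163) .nil)))))))) (.g (nat_lit 1) (.e (nat_lit 170898) (nat_lit 0) .nil) .nil)))) 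
(.nd (nat_lit 9) 
(.lf (nat_lit 501156) (.g (nat_lit 3823) (.e (nat_lit 163978) (nat_lit 30) (.e (nat_lit 573484) (nat_lit 13) (.e (nat_lit 65610) (nat_lit 10) (.e (nat_lit 344117) (nat_lit 21) (.e (nat_lit 516145) (nat_lit 9) (.e (nat_lit 426439) (nat_lit 19) (.e (nat_lit 114432) (nat_lit 3) .nil))))))) (.g (nat_lit 1) (.e (nat_lit 170468) (nat_lit 0) .nil) .nil))) 
(.lf (nat_lit 501668) (.g (nat_lit 2679) (.e (nat_lit 163978) (nat_lit 30) (.e (nat_lit 573485) (nat_lit 13) (.e (nat_lit 65619) (nat_lit 10) (.e (nat_lit 344117) (nat_lit 21) (.e (nat_lit 516161) (nat_lit 10) (.e (nat_lit 434272) (nat_lit 38) (.e (nat_lit 655373) (nat_lit 3) .nil))))))) (.g (nat_lit 1) (.e (nat_lit 171189) (nat_lit 0) .nil) .nil)))))) 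
(.nd (nat_lit 7) (.nd (nat_lit 8) (.nd (nat_lit 9) 
(.lf (nat_lit 500836) (.g (nat_lit 2110) (.e (nat_lit 163977) (nat_lit 30) (.e (nat_lit 573493) (nat_lit 15) (.e (nat_lit 81951) (nat_lit 22) (.e (nat_lit 90170) (nat_lit 13) .nil)))) (.g (nat_lit 0) (.e (nat_lit 169687) (nat_lit 0) .nil) .nil))) 
(.lf (nat_lit 501348) (.g (nat_lit 3563) (.e (nat_lit 163978) (nat_lit 30) (.e (nat_lit 573485) (nat_lit 13) (.e (nat_lit 65604) (nat_lit 9) (.e (nat_lit 336013) (nat_lit 2) (.e (nat_lit 90170) (nat_lit 13) (.e (nat_lit 172069) (nat_lit 4) (.e (nat_lit 229665) (nat_lit 240) (.e (nat_lit 2602) (nat_lit 163) .nil)))))))) (.g (nat_lit 1) (.e (nat_lit 170793) (nat_lit 0) .nil) .nil)))) 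
(.nd (nat_lit 9) 
(.lf (nat_lit 501092) (.g (nat_lit 2845) (.e (nat_lit 163978) (nat_lit 30) (.e (nat_lit 573479) (nat_lit 13) (.e (nat_lit 65619) (nat_lit 10) (.e (nat_lit 344117) (nat_lit 21) (.e (nat_lit 516160) (nat_lit 10) (.e (nat_lit 434209) (nat_lit 18) (.e (nat_lit 5548) (nat_lit 306) (.e (nat_lit 2601) (nat_lit 163) .nil)))))))) (.g (nat_lit 1) (.e (nat_lit 170357) (nat_lit 0) .nil) .nil))) 
(.lf (nat_lit 501604) (.g (nat_lit 2970) (.e (nat_lit 163978) (nat_lit 30) (.e (nat_lit 573485) (nat_lit 13) (.e (nat_lit 65619) (nat_lit 10) (.e (nat_lit 344117) (nat_lit 21) (.e (nat_lit 516152) (nat_lit 9) (.e (nat_lit 426109) (nat_lit 1) (.e (nat_lit 164345) (nat_lit 240) (.e (nat_lit 2599) (nat_lit 163) .nil)))))))) (.g (nat_lit 1) (.e (nat_lit 171116) (nat_lit 0) .nil) .nil))))) 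
(.nd (nat_lit 8) (.nd (nat_lit 9) 
(.lf (nat_lit 500964) (.g (nat_lit 2826) (.e (nat_lit 163977) (nat_lit 30) (.e (nat_lit 573493) (nat_lit 15) (.e (nat_lit 81956) (nat_lit 23) (.e (nat_lit 98359) (nat_lit 26) (.e (nat_lit 426034) (nat_lit 0) .nil))))) (.g (nat_lit 0) (.e (nat_lit 170054) (nat_lit 0) .nil) .nil))) 
(.lf (nat_lit 501476) (.g (nat_lit 2355) (.e (nat_lit 163978) (nat_lit 30) (.e (nat_lit 573485) (nat_lit 13) (.e (nat_lit 65619) (nat_lit 10) (.e (nat_lit 344117) (nat_lit 21) (.e (nat_lit 516143) (nat_lit 9) (.e (nat_lit 426144) (nat_lit 4) (.e (nat_lit 229664) (nat_lit 240) (.e (nat_lit 2602) (nat_lit 163) .nil)))))))) (.g (nat_lit 1) (.e (nat_lit 170988) (nat_lit 0) .nil) .nil)))) 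
(.nd (nat_lit 9) 
(.lf (nat_lit 501220) (.g (nat_lit 4767) (.e (nat_lit 163978) (nat_lit 30) (.e (nat_lit 573484) (nat_lit 13) (.e (nat_lit 65610) (nat_lit 10) (.e (nat_lit 344117) (nat_lit 21) (.e (nat_lit 516151) (nat_lit 9) (.e (nat_lit 426047) (nat_lit 0) (.e (nat_lit 2458) (nat_lit 157) (.e (nat_lit 5547) (nat_lit 306) (.e (nat_lit 2610) (nat_lit 163) .nil))))))))) (.g (nat_lit 1) (.e (nat_lit 170565) (nat_lit 0) .nil) .nil))) 
(.lf (nat_lit 501732) (.g (nat_lit 3444) (.e (nat_lit 163978) (nat_lit 30) (.e (nat_lit 573487) (nat_lit 14) (.e (nat_lit 73753) (nat_lit 8) (.e (nat_lit 557105) (nat_lit 14) (.e (nat_lit 180251) (nat_lit 10) (.e (nat_lit 573478) (nat_lit 12) (.e (nat_lit 57502) (nat_lit 38) (.e (nat_lit 638995) (nat_lit 7) .nil)))))))) (.g (nat_lit 1) (.e (nat_lit 171373) (nat_lit 0) .nil) .nil)))))))) 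
(.nd (nat_lit 5) (.nd (nat_lit 6) (.nd (nat_lit 7) (.nd (nat_lit 8) (.nd (nat_lit 9) 
(.lf (nat_lit 500756) (.g (nat_lit 3539) (.e (nat_lit 163977) (nat_lit 30) (.e (nat_lit 573491) (nat_lit 15) (.e (nat_lit 81954) (nat_lit 23) (.e (nat_lit 98359) (nat_lit 26) (.e (nat_lit 426023) (nat_lit 0) (.e (nat_lit 3397) (nat_lit 211) (.e (nat_lit 647181) (nat_lit 3) .nil))))))) (.g (nat_lit 1) (.e (nat_lit 169418) (nat_lit 0) .nil) .nil))) 
(.lf (nat_lit 501268) (.g (nat_lit 4441) (.e (nat_lit 163978) (nat_lit 30) (.e (nat_lit 573485) (nat_lit 13) (.e (nat_lit 65604) (nat_lit 9) (.e (nat_lit 336013) (nat_lit 2) (.e (nat_lit 90166) (nat_lit 13) (.e (nat_lit 172133) (nat_lit 15) (.e (nat_lit 2059) (nat_lit 142) (.e (nat_lit 704589) (nat_lit 3) .nil)))))))) (.g (nat_lit 1) (.e (nat_lit 170709) (nat_lit 0) .nil) .nil)))) 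
(.nd (nat_lit 9) 
(.lf (nat_lit 501012) (.g (nat_lit 1728) (.e (nat_lit 163977) (nat_lit 30) (.e (nat_lit 573493) (nat_lit 15) (.e (nat_lit 81956) (nat_lit 23) (.e (nat_lit 98368) (nat_lit 27) .nil)))) (.g (nat_lit 0) (.e (nat_lit 170188) (nat_lit 0) .nil) .nil))) 
(.lf (nat_lit 501524) (.g (nat_lit 3741) (.e (nat_lit 163978) (nat_lit 30) (.e (nat_lit 573485) (nat_lit 13) (.e (nat_lit 65619) (nat_lit 10) (.e (nat_lit 344117) (nat_lit 21) (.e (nat_lit 516146) (nat_lit 9) (.e (nat_lit 426444) (nat_lit 19) (.e (nat_lit 114432) (nat_lit 3) .nil))))))) (.g (nat_lit 1) (.e (nat_lit 171036) (nat_lit 0) .nil) .nil))))) (.nd (nat_lit 8) (.nd (nat_lit 9) 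
(.lf (nat_lit 500884) (.g (nat_lit 2622) (.e (nat_lit 163977) (nat_lit 30) (.e (nat_lit 573493) (nat_lit 15) (.e (nat_lit 81953) (nat_lit 22) (.e (nat_lit 90170) (nat_lit 13) (.e (nat_lit 172046) (nat_lit 0) .nil))))) (.g (nat_lit 0) (.e (nat_lit 169838) (nat_lit 0) .nil) .nil))) 
(.lf (nat_lit 501396) (.g (nat_lit 5032) (.e (nat_lit 163978) (nat_lit 30) (.e (nat_lit 573485) (nat_lit 13) (.e (nat_lit 65604) (nat_lit 9) (.e (nat_lit 336028) (nat_lit 3) (.e (nat_lit 98359) (nat_lit 26) (.e (nat_lit 426412) (nat_lit 15) (.e (nat_lit 2058) (nat_lit 142) (.e (nat_lit 704589) (nat_lit 3) .nil)))))))) (.g (nat_lit 1) (.e (nat_lit 170875) (nat_lit 0) .nil) .nil)))) 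
(.nd (nat_lit 9) 
(.lf (nat_lit 501140) (.g (nat_lit 2776) (.e (nat_lit 163978) (nat_lit 30) (.e (nat_lit 573484) (nat_lit 13) (.e (nat_lit 65610) (nat_lit 10) (.e (nat_lit 344117) (nat_lit 21) (.e (nat_lit 516144) (nat_lit 9) (.e (nat_lit 426442) (nat_lit 19) (.e (nat_lit 114432) (nat_lit 3) .nil))))))) (.g (nat_lit 1) (.e (nat_lit 170434) (nat_lit 0) .nil) .nil))) 
(.lf (nat_lit 501652) (.g (nat_lit 3902) (.e (nat_lit 163978) (nat_lit 30) (.e (nat_lit 573485) (nat_lit 13) (.e (nat_lit 65619) (nat_lit 10) (.e (nat_lit 344117) (nat_lit 21) (.e (nat_lit 516160) (nat_lit 10) (.e (nat_lit 434209) (nat_lit 18) (.e (nat_lit 5547) (nat_lit 306) (.e (nat_lit 2601) (nat_lit 163) .nil)))))))) (.g (nat_lit 1) (.e (nat_lit 171172) (nat_lit 0) .nil) .nil)))))) 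
(.nd (nat_lit 7) (.nd (nat_lit 8) (.nd (nat_lit 9) 
(.lf (nat_lit 500820) (.g (nat_lit 3894) (.e (nat_lit 163977) (nat_lit 30) (.e (nat_lit 573492) (nat_lit 15) (.e (nat_lit 81956) (nat_lit 23) (.e (nat_lit 98365) (nat_lit 26) .nil)))) (.g (nat_lit 0) (.e (nat_lit 169603) (nat_lit 0) .nil) .nil))) 
(.lf (nat_lit 501332) (.g (nat_lit 4301) (.e (nat_lit 163978) (nat_lit 30) (.e (nat_lit 573485) (nat_lit 13) (.e (nat_lit 65604) (nat_lit 9) (.e (nat_lit 336013) (nat_lit 2) (.e (nat_lit 90170) (nat_lit 13) (.e (nat_lit 172061) (nat_lit 1) (.e (nat_lit 164347) (nat_lit 240) (.e (nat_lit 2599) (nat_lit 163) .nil)))))))) (.g (nat_lit 1) (.e (nat_lit 170776) (nat_lit 0) .nil) .nil)))) 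
(.nd (nat_lit 9) 
(.lf (nat_lit 501076) (.g (nat_lit 2663) (.e (nat_lit 163978) (nat_lit 30) (.e (nat_lit 573479) (nat_lit 13) (.e (nat_lit 65619) (nat_lit 10) (.e (nat_lit 344117) (nat_lit 21) (.e (nat_lit 516151) (nat_lit 9) (.e (nat_lit 426142) (nat_lit 4) (.e (nat_lit 229665) (nat_lit 240) (.e (nat_lit 2602) (nat_lit 163) .nil)))))))) (.g (nat_lit 1) (.e (nat_lit 170341) (nat_lit 0) .nil) .nil))) 
(.lf (nat_lit 501588) (.g (nat_lit 3550) (.e (nat_lit 163978) (nat_lit 30) (.e (nat_lit 573485) (nat_lit 13) (.e (nat_lit 65619) (nat_lit 10) (.e (nat_lit 344117) (nat_lit 21) (.e (nat_lit 516151) (nat_lit 9) (.e (nat_lit 426142) (nat_lit 4) (.e (nat_lit 229666) (nat_lit 240) (.e (nat_lit 2603) (nat_lit 163) .nil)))))))) (.g (nat_lit 1) (.e (nat_lit 171100) (nat_lit 0) .nil) .nil))))) 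
(.nd (nat_lit 8) (.nd (nat_lit 9) 
(.lf (nat_lit 500948) (.g (nat_lit 3196) (.e (nat_lit 163977) (nat_lit 30) (.e (nat_lit 573493) (nat_lit 15) (.e (nat_lit 81956) (nat_lit 23) (.e (nat_lit 98356) (nat_lit 26) (.e (nat_lit 433920) (nat_lit 4) (.e (nat_lit 229663) (nat_lit 240) (.e (nat_lit 2612) (nat_lit 163) .nil))))))) (.g (nat_lit 1) (.e (nat_lit 170027) (nat_lit 0) .nil) .nil))) 
(.lf (nat_lit 501460) (.g (nat_lit 5444) (.e (nat_lit 163978) (nat_lit 30) (.e (nat_lit 573485) (nat_lit 13) (.e (nat_lit 65610) (nat_lit 10) (.e (nat_lit 344117) (nat_lit 21) (.e (nat_lit 516179) (nat_lit 15) (.e (nat_lit 475199) (nat_lit 40) (.e (nat_lit 704589) (nat_lit 3) .nil))))))) (.g (nat_lit 1) (.e (nat_lit 170965) (nat_lit 0) .nil) .nil)))) (.nd (nat_lit 9) 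
(.lf (nat_lit 501204) (.g (nat_lit 2950) (.e (nat_lit 163978) (nat_lit 30) (.e (nat_lit 573484) (nat_lit 13) (.e (nat_lit 65610) (nat_lit 10) (.e (nat_lit 344117) (nat_lit 21) (.e (nat_lit 516151) (nat_lit 9) (.e (nat_lit 426042) (nat_lit 0) (.e (nat_lit 3406) (nat_lit 212) (.e (nat_lit 655375) (nat_lit 3) .nil)))))))) (.g (nat_lit 1) (.e (nat_lit 170543) (nat_lit 0) .nil) .nil))) 
(.lf (nat_lit 501716) (.g (nat_lit 3475) (.e (nat_lit 163978) (nat_lit 30) (.e (nat_lit 573487) (nat_lit 14) (.e (nat_lit 73753) (nat_lit 8) (.e (nat_lit 557100) (nat_lit 13) (.e (nat_lit 172065) (nat_lit 3) (.e (nat_lit 204815) (nat_lit 17) (.e (nat_lit 2271) (nat_lit 149) (.e (nat_lit 761898) (nat_lit 15) .nil)))))))) (.g (nat_lit 1) (.e (nat_lit 171304) (nat_lit 0) .nil) .nil))))))) 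
(.nd (nat_lit 6) (.nd (nat_lit 7) (.nd (nat_lit 8) (.nd (nat_lit 9) 
(.lf (nat_lit 500788) (.g (nat_lit 2638) (.e (nat_lit 163977) (nat_lit 30) (.e (nat_lit 573492) (nat_lit 15) (.e (nat_lit 81951) (nat_lit 22) (.e (nat_lit 90170) (nat_lit 13) .nil)))) (.g (nat_lit 0) (.e (nat_lit 169525) (nat_lit 0) .nil) .nil))) 
(.lf (nat_lit 501300) (.g (nat_lit 3865) (.e (nat_lit 163978) (nat_lit 30) (.e (nat_lit 573485) (nat_lit 13) (.e (nat_lit 65604) (nat_lit 9) (.e (nat_lit 336013) (nat_lit 2) (.e (nat_lit 90170) (nat_lit 13) (.e (nat_lit 172046) (nat_lit 0) (.e (nat_lit 2458) (nat_lit 157) (.e (nat_lit 5547) (nat_lit 306) (.e (nat_lit 2601) (nat_lit 163) .nil))))))))) (.g (nat_lit 1) (.e (nat_lit 170742) (nat_lit 0) .nil) .nil)))) 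
(.nd (nat_lit 9) 
(.lf (nat_lit 501044) (.g (nat_lit 3892) (.e (nat_lit 163978) (nat_lit 30) (.e (nat_lit 573479) (nat_lit 13) (.e (nat_lit 65619) (nat_lit 10) (.e (nat_lit 344117) (nat_lit 21) (.e (nat_lit 516151) (nat_lit 9) (.e (nat_lit 426018) (nat_lit 0) (.e (nat_lit 2536) (nat_lit 157) (.e (nat_lit 5543) (nat_lit 306) (.e (nat_lit 2611) (nat_lit 163) .nil))))))))) (.g (nat_lit 1) (.e (nat_lit 170309) (nat_lit 0) .nil) .nil))) 
(.lf (nat_lit 501556) (.g (nat_lit 2645) (.e (nat_lit 163978) (nat_lit 30) (.e (nat_lit 573485) (nat_lit 13) (.e (nat_lit 65619) (nat_lit 10) (.e (nat_lit 344117) (nat_lit 21) (.e (nat_lit 516151) (nat_lit 9) (.e (nat_lit 426043) (nat_lit 0) (.e (nat_lit 2458) (nat_lit 157) (.e (nat_lit 5546) (nat_lit 306) (.e (nat_lit 2599) (nat_lit 163) .nil))))))))) (.g (nat_lit 1) (.e (nat_lit 171068) (nat_lit 0) .nil) .nil))))) 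
(.nd (nat_lit 8) (.nd (nat_lit 9) 
(.lf (nat_lit 500916) (.g (nat_lit 2309) (.e (nat_lit 163977) (nat_lit 30) (.e (nat_lit 573493) (nat_lit 15) (.e (nat_lit 81954) (nat_lit 23) (.e (nat_lit 98357) (nat_lit 26) .nil)))) (.g (nat_lit 0) (.e (nat_lit 169918) (nat_lit 0) .nil) .nil))) 
(.lf (nat_lit 501428) (.g (nat_lit 3348) (.e (nat_lit 163978) (nat_lit 30) (.e (nat_lit 573485) (nat_lit 13) (.e (nat_lit 65604) (nat_lit 9) (.e (nat_lit 336028) (nat_lit 3) (.e (nat_lit 98366) (nat_lit 27) (.e (nat_lit 434271) (nat_lit 38) (.e (nat_lit 655374) (nat_lit 3) .nil))))))) (.g (nat_lit 1) (.e (nat_lit 170921) (nat_lit 0) .nil) .nil)))) (.nd (nat_lit 9) 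
(.lf (nat_lit 501172) (.g (nat_lit 2966) (.e (nat_lit 163978) (nat_lit 30) (.e (nat_lit 573484) (nat_lit 13) (.e (nat_lit 65610) (nat_lit 10) (.e (nat_lit 344117) (nat_lit 21) (.e (nat_lit 516151) (nat_lit 9) (.e (nat_lit 426003) (nat_lit 0) (.e (nat_lit 3397) (nat_lit 211) (.e (nat_lit 647180) (nat_lit 3) .nil)))))))) (.g (nat_lit 1) (.e (nat_lit 170484) (nat_lit 0) .nil) .nil))) 
(.lf (nat_lit 501684) (.g (nat_lit 3352) (.e (nat_lit 163978) (nat_lit 30) (.e (nat_lit 573485) (nat_lit 13) (.e (nat_lit 65619) (nat_lit 10) (.e (nat_lit 344117) (nat_lit 21) (.e (nat_lit 516171) (nat_lit 13) (.e (nat_lit 458774) (nat_lit 18) (.e (nat_lit 5547) (nat_lit 306) (.e (nat_lit 2599) (nat_lit 163) .nil)))))))) (.g (nat_lit 1) (.e (nat_lit 171209) (nat_lit 0) .nil) .nil)))))) 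
(.nd (nat_lit 7) (.nd (nat_lit 8) (.nd (nat_lit 9) 
(.lf (nat_lit 500852) (.g (nat_lit 4220) (.e (nat_lit 163977) (nat_lit 30) (.e (nat_lit 573493) (nat_lit 15) (.e (nat_lit 81951) (nat_lit 22) (.e (nat_lit 90170) (nat_lit 13) (.e (nat_lit 172042) (nat_lit 0) (.e (nat_lit 3409) (nat_lit 212) (.e (nat_lit 655375) (nat_lit 3) .nil))))))) (.g (nat_lit 1) (.e (nat_lit 169704) (nat_lit 0) .nil) .nil))) 
(.lf (nat_lit 501364) (.g (nat_lit 3825) (.e (nat_lit 163978) (nat_lit 30) (.e (nat_lit 573485) (nat_lit 13) (.e (nat_lit 65604) (nat_lit 9) (.e (nat_lit 336013) (nat_lit 2) (.e (nat_lit 90170) (nat_lit 13) (.e (nat_lit 179968) (nat_lit 19) (.e (nat_lit 114432) (nat_lit 3) .nil))))))) (.g (nat_lit 1) (.e (nat_lit 170809) (nat_lit 0) .nil) .nil)))) (.nd (nat_lit 9) 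
(.lf (nat_lit 501108) (.g (nat_lit 4282) (.e (nat_lit 163978) (nat_lit 30) (.e (nat_lit 573479) (nat_lit 13) (.e (nat_lit 65619) (nat_lit 10) (.e (nat_lit 344129) (nat_lit 26) (.e (nat_lit 557066) (nat_lit 9) (.e (nat_lit 307) (nat_lit 22) (.e (nat_lit 344097) (nat_lit 18) (.e (nat_lit 4717) (nat_lit 275) (.e (nat_lit 2611) (nat_lit 163) .nil))))))))) (.g (nat_lit 1) (.e (nat_lit 170373) (nat_lit 0) .nil) .nil))) 
(.lf (nat_lit 501620) (.g (nat_lit 3120) (.e (nat_lit 163978) (nat_lit 30) (.e (nat_lit 573485) (nat_lit 13) (.e (nat_lit 65619) (nat_lit 10) (.e (nat_lit 344117) (nat_lit 21) (.e (nat_lit 516153) (nat_lit 9) (.e (nat_lit 426109) (nat_lit 1) (.e (nat_lit 164347) (nat_lit 240) (.e (nat_lit 2610) (nat_lit 163) .nil)))))))) (.g (nat_lit 1) (.e (nat_lit 171132) (nat_lit 0) .nil) .nil))))) 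
(.nd (nat_lit 8) (.nd (nat_lit 9) 
(.lf (nat_lit 500980) (.g (nat_lit 3410) (.e (nat_lit 163977) (nat_lit 30) (.e (nat_lit 573493) (nat_lit 15) (.e (nat_lit 81956) (nat_lit 23) (.e (nat_lit 98361) (nat_lit 26) (.e (nat_lit 426006) (nat_lit 0) .nil))))) (.g (nat_lit 0) (.e (nat_lit 170101) (nat_lit 0) .nil) .nil))) 
(.lf (nat_lit 501492) (.g (nat_lit 2821) (.e (nat_lit 163978) (nat_lit 30) (.e (nat_lit 573485) (nat_lit 13) (.e (nat_lit 65619) (nat_lit 10) (.e (nat_lit 344117) (nat_lit 21) (.e (nat_lit 516144) (nat_lit 9) (.e (nat_lit 426416) (nat_lit 15) (.e (nat_lit 2058) (nat_lit 142) (.e (nat_lit 704589) (nat_lit 3) .nil)))))))) (.g (nat_lit 1) (.e (nat_lit 171004) (nat_lit 0) .nil) .nil)))) 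
(.nd (nat_lit 9) 
(.lf (nat_lit 501236) (.g (nat_lit 3224) (.e (nat_lit 163978) (nat_lit 30) (.e (nat_lit 573484) (nat_lit 13) (.e (nat_lit 65610) (nat_lit 10) (.e (nat_lit 344117) (nat_lit 21) (.e (nat_lit 516155) (nat_lit 9) (.e (nat_lit 426025) (nat_lit 0) (.e (nat_lit 3397) (nat_lit 211) (.e (nat_lit 647181) (nat_lit 3) .nil)))))))) (.g (nat_lit 1) (.e (nat_lit 170607) (nat_lit 0) .nil) .nil))) 
(.lf (nat_lit 501748) (.g (nat_lit 3249) (.e (nat_lit 163978) (nat_lit 30) (.e (nat_lit 573489) (nat_lit 14) (.e (nat_lit 73754) (nat_lit 8) (.e (nat_lit 557100) (nat_lit 13) (.e (nat_lit 172065) (nat_lit 3) (.e (nat_lit 204821) (nat_lit 17) (.e (nat_lit 2264) (nat_lit 149) (.e (nat_lit 761899) (nat_lit 15) .nil)))))))) (.g (nat_lit 1) (.e (nat_lit 171405) (nat_lit 0) .nil) .nil))))))))) 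
(.nd (nat_lit 4) (.nd (nat_lit 5) (.nd (nat_lit 6) (.nd (nat_lit 7) (.nd (nat_lit 8) 
(.nd (nat_lit 9) 
(.lf (nat_lit 500748) (.g (nat_lit 2402) (.e (nat_lit 163977) (nat_lit 30) (.e (nat_lit 573491) (nat_lit 15) (.e (nat_lit 81954) (nat_lit 23) (.e (nat_lit 98356) (nat_lit 26) (.e (nat_lit 426442) (nat_lit 19) (.e (nat_lit 114432) (nat_lit 3) .nil)))))) (.g (nat_lit 1) (.e (nat_lit 169404) (nat_lit 0) .nil) .nil))) 
(.lf (nat_lit 501260) (.g (nat_lit 3281) (.e (nat_lit 163978) (nat_lit 30) (.e (nat_lit 573484) (nat_lit 13) (.e (nat_lit 65610) (nat_lit 10) (.e (nat_lit 344117) (nat_lit 21) (.e (nat_lit 516180) (nat_lit 15) (.e (nat_lit 475201) (nat_lit 40) (.e (nat_lit 712448) (nat_lit 3) .nil))))))) (.g (nat_lit 1) (.e (nat_lit 170685) (nat_lit 0) .nil) .nil)))) (.nd (nat_lit 9) 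
(.lf (nat_lit 501004) (.g (nat_lit 2975) (.e (nat_lit 163977) (nat_lit 30) (.e (nat_lit 573493) (nat_lit 15) (.e (nat_lit 81956) (nat_lit 23) (.e (nat_lit 98367) (nat_lit 27) (.e (nat_lit 434206) (nat_lit 18) .nil))))) (.g (nat_lit 0) (.e (nat_lit 170155) (nat_lit 0) .nil) .nil))) 
(.lf (nat_lit 501516) (.g (nat_lit 3867) (.e (nat_lit 163978) (nat_lit 30) (.e (nat_lit 573485) (nat_lit 13) (.e (nat_lit 65619) (nat_lit 10) (.e (nat_lit 344117) (nat_lit 21) (.e (nat_lit 516145) (nat_lit 9) (.e (nat_lit 426416) (nat_lit 15) (.e (nat_lit 2056) (nat_lit 142) (.e (nat_lit 704589) (nat_lit 3) .nil)))))))) (.g (nat_lit 1) (.e (nat_lit 171028) (nat_lit 0) .nil) .nil))))) 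
(.nd (nat_lit 8) (.nd (nat_lit 9) 
(.lf (nat_lit 500876) (.g (nat_lit 3183) (.e (nat_lit 163977) (nat_lit 30) (.e (nat_lit 573493) (nat_lit 15) (.e (nat_lit 81953) (nat_lit 22) (.e (nat_lit 90170) (nat_lit 13) (.e (nat_lit 172036) (nat_lit 0) (.e (nat_lit 3402) (nat_lit 211) (.e (nat_lit 647181) (nat_lit 3) .nil))))))) (.g (nat_lit 1) (.e (nat_lit 169829) (nat_lit 0) .nil) .nil))) 
(.lf (nat_lit 501388) (.g (nat_lit 2273) (.e (nat_lit 163978) (nat_lit 30) (.e (nat_lit 573485) (nat_lit 13) (.e (nat_lit 65604) (nat_lit 9) (.e (nat_lit 336028) (nat_lit 3) (.e (nat_lit 98359) (nat_lit 26) (.e (nat_lit 426043) (nat_lit 0) (.e (nat_lit 7936) (nat_lit 211) (.e (nat_lit 647180) (nat_lit 3) .nil)))))))) (.g (nat_lit 1) (.e (nat_lit 170846) (nat_lit 0) .nil) .nil)))) (.nd (nat_lit 9) 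
(.lf (nat_lit 501132) (.g (nat_lit 1657) (.e (nat_lit 163978) (nat_lit 30) (.e (nat_lit 573484) (nat_lit 13) (.e (nat_lit 65610) (nat_lit 10) (.e (nat_lit 344117) (nat_lit 21) (.e (nat_lit 516143) (nat_lit 9) .nil))))) (.g (nat_lit 0) (.e (nat_lit 170414) (nat_lit 0) .nil) .nil))) 
(.lf (nat_lit 501644) (.g (nat_lit 4201) (.e (nat_lit 163978) (nat_lit 30) (.e (nat_lit 573485) (nat_lit 13) (.e (nat_lit 65619) (nat_lit 10) (.e (nat_lit 344117) (nat_lit 21) (.e (nat_lit 516159) (nat_lit 10) (.e (nat_lit 434272) (nat_lit 38) (.e (nat_lit 655373) (nat_lit 3) .nil))))))) (.g (nat_lit 1) (.e (nat_lit 171161) (nat_lit 0) .nil) .nil)))))) 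
(.nd (nat_lit 7) (.nd (nat_lit 8) (.nd (nat_lit 9) 
(.lf (nat_lit 500812) (.g (nat_lit 3581) (.e (nat_lit 163977) (nat_lit 30) (.e (nat_lit 573492) (nat_lit 15) (.e (nat_lit 81956) (nat_lit 23) (.e (nat_lit 98358) (nat_lit 26) (.e (nat_lit 426444) (nat_lit 19) .nil))))) (.g (nat_lit 0) (.e (nat_lit 169595) (nat_lit 0) .nil) .nil))) 
(.lf (nat_lit 501324) (.g (nat_lit 4541) (.e (nat_lit 163978) (nat_lit 30) (.e (nat_lit 573485) (nat_lit 13) (.e (nat_lit 65604) (nat_lit 9) (.e (nat_lit 336013) (nat_lit 2) (.e (nat_lit 90170) (nat_lit 13) (.e (nat_lit 172060) (nat_lit 1) (.e (nat_lit 164345) (nat_lit 240) (.e (nat_lit 2610) (nat_lit 163) .nil)))))))) (.g (nat_lit 1) (.e (nat_lit 170767) (nat_lit 0) .nil) .nil)))) 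
(.nd (nat_lit 9) 
(.lf (nat_lit 501068) (.g (nat_lit 2824) (.e (nat_lit 163978) (nat_lit 30) (.e (nat_lit 573479) (nat_lit 13) (.e (nat_lit 65619) (nat_lit 10) (.e (nat_lit 344117) (nat_lit 21) (.e (nat_lit 516151) (nat_lit 9) (.e (nat_lit 426097) (nat_lit 1) (.e (nat_lit 164348) (nat_lit 240) (.e (nat_lit 2599) (nat_lit 163) .nil)))))))) (.g (nat_lit 1) (.e (nat_lit 170333) (nat_lit 0) .nil) .nil))) 
(.lf (nat_lit 501580) (.g (nat_lit 3417) (.e (nat_lit 163978) (nat_lit 30) (.e (nat_lit 573485) (nat_lit 13) (.e (nat_lit 65619) (nat_lit 10) (.e (nat_lit 344117) (nat_lit 21) (.e (nat_lit 516151) (nat_lit 9) (.e (nat_lit 426142) (nat_lit 4) (.e (nat_lit 229663) (nat_lit 240) (.e (nat_lit 2598) (nat_lit 163) .nil)))))))) (.g (nat_lit 1) (.e (nat_lit 171092) (nat_lit 0) .nil) .nil))))) 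
(.nd (nat_lit 8) (.nd (nat_lit 9) 
(.lf (nat_lit 500940) (.g (nat_lit 1602) (.e (nat_lit 163977) (nat_lit 30) (.e (nat_lit 573493) (nat_lit 15) (.e (nat_lit 81956) (nat_lit 23) (.e (nat_lit 98354) (nat_lit 26) .nil)))) (.g (nat_lit 0) (.e (nat_lit 170011) (nat_lit 0) .nil) .nil))) 
(.lf (nat_lit 501452) (.g (nat_lit 3427) (.e (nat_lit 163978) (nat_lit 30) (.e (nat_lit 573485) (nat_lit 13) (.e (nat_lit 65604) (nat_lit 9) (.e (nat_lit 336028) (nat_lit 3) (.e (nat_lit 98386) (nat_lit 32) (.e (nat_lit 475196) (nat_lit 40) (.e (nat_lit 704589) (nat_lit 3) .nil))))))) (.g (nat_lit 1) (.e (nat_lit 170956) (nat_lit 0) .nil) .nil)))) (.nd (nat_lit 9) 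
(.lf (nat_lit 501196) (.g (nat_lit 4656) (.e (nat_lit 163978) (nat_lit 30) (.e (nat_lit 573484) (nat_lit 13) (.e (nat_lit 65610) (nat_lit 10) (.e (nat_lit 344117) (nat_lit 21) (.e (nat_lit 516151) (nat_lit 9) (.e (nat_lit 426040) (nat_lit 0) (.e (nat_lit 2458) (nat_lit 157) (.e (nat_lit 5547) (nat_lit 306) (.e (nat_lit 2610) (nat_lit 163) .nil))))))))) (.g (nat_lit 1) (.e (nat_lit 170523) (nat_lit 0) .nil) .nil))) 
(.lf (nat_lit 501708) (.g (nat_lit 4197) (.e (nat_lit 163978) (nat_lit 30) (.e (nat_lit 573485) (nat_lit 13) (.e (nat_lit 65619) (nat_lit 10) (.e (nat_lit 344118) (nat_lit 21) (.e (nat_lit 516179) (nat_lit 15) (.e (nat_lit 475199) (nat_lit 40) (.e (nat_lit 704589) (nat_lit 3) .nil))))))) (.g (nat_lit 1) (.e (nat_lit 171234) (nat_lit 0) .nil) .nil))))))) 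
(.nd (nat_lit 6) (.nd (nat_lit 7) (.nd (nat_lit 8) (.nd (nat_lit 9) 
(.lf (nat_lit 500780) (.g (nat_lit 1271) (.e (nat_lit 163977) (nat_lit 30) (.e (nat_lit 573491) (nat_lit 15) (.e (nat_lit 81954) (nat_lit 23) (.e (nat_lit 98368) (nat_lit 27) .nil)))) (.g (nat_lit 0) (.e (nat_lit 169496) (nat_lit 0) .nil) .nil))) 
(.lf (nat_lit 501292) (.g (nat_lit 2652) (.e (nat_lit 163978) (nat_lit 30) (.e (nat_lit 573485) (nat_lit 13) (.e (nat_lit 65604) (nat_lit 9) (.e (nat_lit 336013) (nat_lit 2) (.e (nat_lit 90170) (nat_lit 13) (.e (nat_lit 172042) (nat_lit 0) (.e (nat_lit 3403) (nat_lit 212) (.e (nat_lit 655374) (nat_lit 3) .nil)))))))) (.g (nat_lit 1) (.e (nat_lit 170734) (nat_lit 0) .nil) .nil)))) (.nd (nat_lit 9) 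
(.lf (nat_lit 501036) (.g (nat_lit 2525) (.e (nat_lit 163978) (nat_lit 30) (.e (nat_lit 573479) (nat_lit 13) (.e (nat_lit 65610) (nat_lit 10) (.e (nat_lit 344117) (nat_lit 21) (.e (nat_lit 516160) (nat_lit 10) .nil))))) (.g (nat_lit 0) (.e (nat_lit 170301) (nat_lit 0) .nil) .nil))) 
(.lf (nat_lit 501548) (.g (nat_lit 4081) (.e (nat_lit 163978) (nat_lit 30) (.e (nat_lit 573485) (nat_lit 13) (.e (nat_lit 65619) (nat_lit 10) (.e (nat_lit 344117) (nat_lit 21) (.e (nat_lit 516151) (nat_lit 9) (.e (nat_lit 426042) (nat_lit 0) (.e (nat_lit 2458) (nat_lit 157) (.e (nat_lit 5548) (nat_lit 306) (.e (nat_lit 2611) (nat_lit 163) .nil))))))))) (.g (nat_lit 1) (.e (nat_lit 171060) (nat_lit 0) .nil) .nil))))) 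
(.nd (nat_lit 8) (.nd (nat_lit 9) 
(.lf (nat_lit 500908) (.g (nat_lit 3729) (.e (nat_lit 163977) (nat_lit 30) (.e (nat_lit 573493) (nat_lit 15) (.e (nat_lit 81953) (nat_lit 22) (.e (nat_lit 90185) (nat_lit 17) .nil)))) (.g (nat_lit 0) (.e (nat_lit 169896) (nat_lit 0) .nil) .nil))) 
(.lf (nat_lit 501420) (.g (nat_lit 3706) (.e (nat_lit 163978) (nat_lit 30) (.e (nat_lit 573485) (nat_lit 13) (.e (nat_lit 65604) (nat_lit 9) (.e (nat_lit 336028) (nat_lit 3) (.e (nat_lit 98366) (nat_lit 27) (.e (nat_lit 434209) (nat_lit 18) (.e (nat_lit 5546) (nat_lit 306) (.e (nat_lit 2600) (nat_lit 163) .nil)))))))) (.g (nat_lit 1) (.e (nat_lit 170911) (nat_lit 0) .nil) .nil)))) 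
(.nd (nat_lit 9) 
(.lf (nat_lit 501164) (.g (nat_lit 3173) (.e (nat_lit 163978) (nat_lit 30) (.e (nat_lit 573484) (nat_lit 13) (.e (nat_lit 65610) (nat_lit 10) (.e (nat_lit 344117) (nat_lit 21) (.e (nat_lit 516145) (nat_lit 9) (.e (nat_lit 433920) (nat_lit 24) (.e (nat_lit 163584) (nat_lit 3) .nil))))))) (.g (nat_lit 1) (.e (nat_lit 170476) (nat_lit 0) .nil) .nil))) 
(.lf (nat_lit 501676) (.g (nat_lit 2998) (.e (nat_lit 163978) (nat_lit 30) (.e (nat_lit 573485) (nat_lit 13) (.e (nat_lit 65619) (nat_lit 10) (.e (nat_lit 344117) (nat_lit 21) (.e (nat_lit 516169) (nat_lit 13) (.e (nat_lit 458774) (nat_lit 18) (.e (nat_lit 5548) (nat_lit 306) (.e (nat_lit 2601) (nat_lit 163) .nil)))))))) (.g (nat_lit 1) (.e (nat_lit 171199) (nat_lit 0) .nil) .nil)))))) 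
(.nd (nat_lit 7) (.nd (nat_lit 8) (.nd (nat_lit 9) 
(.lf (nat_lit 500844) (.g (nat_lit 4184) (.e (nat_lit 163977) (nat_lit 30) (.e (nat_lit 573493) (nat_lit 15) (.e (nat_lit 81951) (nat_lit 22) (.e (nat_lit 90170) (nat_lit 13) (.e (nat_lit 172035) (nat_lit 0) (.e (nat_lit 3399) (nat_lit 211) (.e (nat_lit 647181) (nat_lit 3) .nil))))))) (.g (nat_lit 1) (.e (nat_lit 169695) (nat_lit 0) .nil) .nil))) 
(.lf (nat_lit 501356) (.g (nat_lit 3345) (.e (nat_lit 163978) (nat_lit 30) (.e (nat_lit 573485) (nat_lit 13) (.e (nat_lit 65604) (nat_lit 9) (.e (nat_lit 336013) (nat_lit 2) (.e (nat_lit 90170) (nat_lit 13) (.e (nat_lit 172070) (nat_lit 4) (.e (nat_lit 229665) (nat_lit 240) (.e (nat_lit 2603) (nat_lit 163) .nil)))))))) (.g (nat_lit 1) (.e (nat_lit 170801) (nat_lit 0) .nil) .nil)))) 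
(.nd (nat_lit 9) 
(.lf (nat_lit 501100) (.g (nat_lit 2934) (.e (nat_lit 163978) (nat_lit 30) (.e (nat_lit 573479) (nat_lit 13) (.e (nat_lit 65619) (nat_lit 10) (.e (nat_lit 344117) (nat_lit 21) (.e (nat_lit 516170) (nat_lit 13) (.e (nat_lit 458774) (nat_lit 18) (.e (nat_lit 5543) (nat_lit 306) (.e (nat_lit 2610) (nat_lit 163) .nil)))))))) (.g (nat_lit 1) (.e (nat_lit 170365) (nat_lit 0) .nil) .nil))) 
(.lf (nat_lit 501612) (.g (nat_lit 2532) (.e (nat_lit 163978) (nat_lit 30) (.e (nat_lit 573485) (nat_lit 13) (.e (nat_lit 65619) (nat_lit 10) (.e (nat_lit 344117) (nat_lit 21) (.e (nat_lit 516153) (nat_lit 9) (.e (nat_lit 426025) (nat_lit 0) (.e (nat_lit 3397) (nat_lit 211) (.e (nat_lit 647180) (nat_lit 3) .nil)))))))) (.g (nat_lit 1) (.e (nat_lit 171124) (nat_lit 0) .nil) .nil))))) 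
(.nd (nat_lit 8) (.nd (nat_lit 9) 
(.lf (nat_lit 500972) (.g (nat_lit 2491) (.e (nat_lit 163977) (nat_lit 30) (.e (nat_lit 573493) (nat_lit 15) (.e (nat_lit 81956) (nat_lit 23) (.e (nat_lit 98359) (nat_lit 26) (.e (nat_lit 426104) (nat_lit 1) .nil))))) (.g (nat_lit 0) (.e (nat_lit 170084) (nat_lit 0) .nil) .nil))) 
(.lf (nat_lit 501484) (.g (nat_lit 3734) (.e (nat_lit 163978) (nat_lit 30) (.e (nat_lit 573485) (nat_lit 13) (.e (nat_lit 65619) (nat_lit 10) (.e (nat_lit 344117) (nat_lit 21) (.e (nat_lit 516144) (nat_lit 9) (.e (nat_lit 426374) (nat_lit 15) (.e (nat_lit 2059) (nat_lit 142) (.e (nat_lit 704589) (nat_lit 3) .nil)))))))) (.g (nat_lit 1) (.e (nat_lit 170996) (nat_lit 0) .nil) .nil)))) 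
(.nd (nat_lit 9) 
(.lf (nat_lit 501228) (.g (nat_lit 2523) (.e (nat_lit 163978) (nat_lit 30) (.e (nat_lit 573484) (nat_lit 13) (.e (nat_lit 65610) (nat_lit 10) (.e (nat_lit 344117) (nat_lit 21) (.e (nat_lit 516151) (nat_lit 9) (.e (nat_lit 426104) (nat_lit 1) (.e (nat_lit 164347) (nat_lit 240) (.e (nat_lit 2601) (nat_lit 163) .nil)))))))) (.g (nat_lit 1) (.e (nat_lit 170583) (nat_lit 0) .nil) .nil))) 
(.lf (nat_lit 501740) (.g (nat_lit 1347) (.e (nat_lit 163978) (nat_lit 30) (.e (nat_lit 573489) (nat_lit 14) (.e (nat_lit 73754) (nat_lit 8) (.e (nat_lit 557100) (nat_lit 13) .nil)))) (.g (nat_lit 0) (.e (nat_lit 171387) (nat_lit 0) .nil) .nil)))))))) (.nd (nat_lit 5) (.nd (nat_lit 6) (.nd (nat_lit 7) (.nd (nat_lit 8) (.nd (nat_lit 9) 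
(.lf (nat_lit 500764) (.g (nat_lit 1626) (.e (nat_lit 163977) (nat_lit 30) (.e (nat_lit 573491) (nat_lit 15) (.e (nat_lit 81954) (nat_lit 23) (.e (nat_lit 98361) (nat_lit 26) (.e (nat_lit 426109) (nat_lit 1) .nil))))) (.g (nat_lit 0) (.e (nat_lit 169443) (nat_lit 0) .nil) .nil))) 
(.lf (nat_lit 501276) (.g (nat_lit 3732) (.e (nat_lit 163978) (nat_lit 30) (.e (nat_lit 573485) (nat_lit 13) (.e (nat_lit 65604) (nat_lit 9) (.e (nat_lit 336013) (nat_lit 2) (.e (nat_lit 90170) (nat_lit 13) (.e (nat_lit 172033) (nat_lit 0) (.e (nat_lit 3397) (nat_lit 211) (.e (nat_lit 647181) (nat_lit 3) .nil)))))))) (.g (nat_lit 1) (.e (nat_lit 170717) (nat_lit 0) .nil) .nil)))) (.nd (nat_lit 9) 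
(.lf (nat_lit 501020) (.g (nat_lit 3177) (.e (nat_lit 163977) (nat_lit 30) (.e (nat_lit 573493) (nat_lit 15) (.e (nat_lit 81956) (nat_lit 23) (.e (nat_lit 98368) (nat_lit 27) (.e (nat_lit 434271) (nat_lit 38) (.e (nat_lit 655375) (nat_lit 3) .nil)))))) (.g (nat_lit 1) (.e (nat_lit 170223) (nat_lit 0) .nil) .nil))) 
(.lf (nat_lit 501532) (.g (nat_lit 1849) (.e (nat_lit 163978) (nat_lit 30) (.e (nat_lit 573485) (nat_lit 13) (.e (nat_lit 65619) (nat_lit 10) (.e (nat_lit 344117) (nat_lit 21) (.e (nat_lit 516151) (nat_lit 9) .nil))))) (.g (nat_lit 0) (.e (nat_lit 171044) (nat_lit 0) .nil) .nil))))) (.nd (nat_lit 8) (.nd (nat_lit 9) 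
(.lf (nat_lit 500892) (.g (nat_lit 3428) (.e (nat_lit 163977) (nat_lit 30) (.e (nat_lit 573493) (nat_lit 15) (.e (nat_lit 81953) (nat_lit 22) (.e (nat_lit 90170) (nat_lit 13) (.e (nat_lit 172060) (nat_lit 1) .nil))))) (.g (nat_lit 0) (.e (nat_lit 169855) (nat_lit 0) .nil) .nil))) 
(.lf (nat_lit 501404) (.g (nat_lit 3114) (.e (nat_lit 163978) (nat_lit 30) (.e (nat_lit 573485) (nat_lit 13) (.e (nat_lit 65604) (nat_lit 9) (.e (nat_lit 336028) (nat_lit 3) (.e (nat_lit 98361) (nat_lit 26) (.e (nat_lit 426025) (nat_lit 0) (.e (nat_lit 3399) (nat_lit 211) (.e (nat_lit 647181) (nat_lit 3) .nil)))))))) (.g (nat_lit 1) (.e (nat_lit 170885) (nat_lit 0) .nil) .nil)))) (.nd (nat_lit 9) 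
(.lf (nat_lit 501148) (.g (nat_lit 2857) (.e (nat_lit 163978) (nat_lit 30) (.e (nat_lit 573484) (nat_lit 13) (.e (nat_lit 65610) (nat_lit 10) (.e (nat_lit 344117) (nat_lit 21) (.e (nat_lit 516145) (nat_lit 9) (.e (nat_lit 426091) (nat_lit 0) (.e (nat_lit 2458) (nat_lit 157) (.e (nat_lit 5548) (nat_lit 306) (.e (nat_lit 2610) (nat_lit 163) .nil))))))))) (.g (nat_lit 1) (.e (nat_lit 170444) (nat_lit 0) .nil) .nil))) 
(.lf (nat_lit 501660) (.g (nat_lit 4768) (.e (nat_lit 163978) (nat_lit 30) (.e (nat_lit 573485) (nat_lit 13) (.e (nat_lit 65619) (nat_lit 10) (.e (nat_lit 344117) (nat_lit 21) (.e (nat_lit 516160) (nat_lit 10) (.e (nat_lit 434272) (nat_lit 38) (.e (nat_lit 655373) (nat_lit 3) .nil))))))) (.g (nat_lit 1) (.e (nat_lit 171181) (nat_lit 0) .nil) .nil)))))) 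
(.nd (nat_lit 7) (.nd (nat_lit 8) (.nd (nat_lit 9) 
(.lf (nat_lit 500828) (.g (nat_lit 3827) (.e (nat_lit 163977) (nat_lit 30) (.e (nat_lit 573492) (nat_lit 15) (.e (nat_lit 81956) (nat_lit 23) (.e (nat_lit 98384) (nat_lit 32) (.e (nat_lit 475201) (nat_lit 40) (.e (nat_lit 712448) (nat_lit 3) .nil)))))) (.g (nat_lit 1) (.e (nat_lit 169626) (nat_lit 0) .nil) .nil))) 
(.lf (nat_lit 501340) (.g (nat_lit 3175) (.e (nat_lit 163978) (nat_lit 30) (.e (nat_lit 573485) (nat_lit 13) (.e (nat_lit 65604) (nat_lit 9) (.e (nat_lit 336013) (nat_lit 2) (.e (nat_lit 90170) (nat_lit 13) (.e (nat_lit 172068) (nat_lit 4) (.e (nat_lit 229664) (nat_lit 240) (.e (nat_lit 2603) (nat_lit 163) .nil)))))))) (.g (nat_lit 1) (.e (nat_lit 170785) (nat_lit 0) .nil) .nil)))) 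
(.nd (nat_lit 9) 
(.lf (nat_lit 501084) (.g (nat_lit 2718) (.e (nat_lit 163978) (nat_lit 30) (.e (nat_lit 573479) (nat_lit 13) (.e (nat_lit 65619) (nat_lit 10) (.e (nat_lit 344117) (nat_lit 21) (.e (nat_lit 516159) (nat_lit 10) (.e (nat_lit 434209) (nat_lit 18) (.e (nat_lit 5547) (nat_lit 306) (.e (nat_lit 2599) (nat_lit 163) .nil)))))))) (.g (nat_lit 1) (.e (nat_lit 170349) (nat_lit 0) .nil) .nil))) 
(.lf (nat_lit 501596) (.g (nat_lit 6037) (.e (nat_lit 163978) (nat_lit 30) (.e (nat_lit 573485) (nat_lit 13) (.e (nat_lit 65619) (nat_lit 10) (.e (nat_lit 344117) (nat_lit 21) (.e (nat_lit 516151) (nat_lit 9) (.e (nat_lit 426412) (nat_lit 15) (.e (nat_lit 2059) (nat_lit 142) (.e (nat_lit 704589) (nat_lit 3) .nil)))))))) (.g (nat_lit 1) (.e (nat_lit 171108) (nat_lit 0) .nil) .nil))))) 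
(.nd (nat_lit 8) (.nd (nat_lit 9) 
(.lf (nat_lit 500956) (.g (nat_lit 4175) (.e (nat_lit 163977) (nat_lit 30) (.e (nat_lit 573493) (nat_lit 15) (.e (nat_lit 81956) (nat_lit 23) (.e (nat_lit 98358) (nat_lit 26) (.e (nat_lit 426112) (nat_lit 1) .nil))))) (.g (nat_lit 0) (.e (nat_lit 170042) (nat_lit 0) .nil) .nil))) 
(.lf (nat_lit 501468) (.g (nat_lit 4127) (.e (nat_lit 163978) (nat_lit 30) (.e (nat_lit 573485) (nat_lit 13) (.e (nat_lit 65619) (nat_lit 10) (.e (nat_lit 344117) (nat_lit 21) (.e (nat_lit 516143) (nat_lit 9) (.e (nat_lit 426109) (nat_lit 1) (.e (nat_lit 164345) (nat_lit 240) (.e (nat_lit 2599) (nat_lit 163) .nil)))))))) (.g (nat_lit 1) (.e (nat_lit 170980) (nat_lit 0) .nil) .nil)))) 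
(.nd (nat_lit 9) 
(.lf (nat_lit 501212) (.g (nat_lit 2527) (.e (nat_lit 163978) (nat_lit 30) (.e (nat_lit 573484) (nat_lit 13) (.e (nat_lit 65610) (nat_lit 10) (.e (nat_lit 344117) (nat_lit 21) (.e (nat_lit 516151) (nat_lit 9) (.e (nat_lit 426043) (nat_lit 0) (.e (nat_lit 7936) (nat_lit 211) (.e (nat_lit 647180) (nat_lit 3) .nil)))))))) (.g (nat_lit 1) (.e (nat_lit 170554) (nat_lit 0) .nil) .nil))) 
(.lf (nat_lit 501724) (.g (nat_lit 4134) (.e (nat_lit 163978) (nat_lit 30) (.e (nat_lit 573487) (nat_lit 14) (.e (nat_lit 73753) (nat_lit 8) (.e (nat_lit 557103) (nat_lit 14) (.e (nat_lit 180243) (nat_lit 5) (.e (nat_lit 532504) (nat_lit 1) (.e (nat_lit 57663) (nat_lit 152) (.e (nat_lit 2612) (nat_lit 163) .nil)))))))) (.g (nat_lit 1) (.e (nat_lit 171354) (nat_lit 0) .nil) .nil))))))) 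
(.nd (nat_lit 6) (.nd (nat_lit 7) (.nd (nat_lit 8) (.nd (nat_lit 9) 
(.lf (nat_lit 500796) (.g (nat_lit 5050) (.e (nat_lit 163977) (nat_lit 30) (.e (nat_lit 573492) (nat_lit 15) (.e (nat_lit 81953) (nat_lit 22) (.e (nat_lit 90184) (nat_lit 17) .nil)))) (.g (nat_lit 0) (.e (nat_lit 169541) (nat_lit 0) .nil) .nil))) 
(.lf (nat_lit 501308) (.g (nat_lit 3518) (.e (nat_lit 163978) (nat_lit 30) (.e (nat_lit 573485) (nat_lit 13) (.e (nat_lit 65604) (nat_lit 9) (.e (nat_lit 336013) (nat_lit 2) (.e (nat_lit 90170) (nat_lit 13) (.e (nat_lit 172049) (nat_lit 0) (.e (nat_lit 7936) (nat_lit 211) (.e (nat_lit 647180) (nat_lit 3) .nil)))))))) (.g (nat_lit 1) (.e (nat_lit 170750) (nat_lit 0) .nil) .nil)))) (.nd (nat_lit 9) 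
(.lf (nat_lit 501052) (.g (nat_lit 4299) (.e (nat_lit 163978) (nat_lit 30) (.e (nat_lit 573479) (nat_lit 13) (.e (nat_lit 65619) (nat_lit 10) (.e (nat_lit 344117) (nat_lit 21) (.e (nat_lit 516151) (nat_lit 9) (.e (nat_lit 426038) (nat_lit 0) (.e (nat_lit 2458) (nat_lit 157) (.e (nat_lit 5547) (nat_lit 306) (.e (nat_lit 2611) (nat_lit 163) .nil))))))))) (.g (nat_lit 1) (.e (nat_lit 170317) (nat_lit 0) .nil) .nil))) 
(.lf (nat_lit 501564) (.g (nat_lit 4352) (.e (nat_lit 163978) (nat_lit 30) (.e (nat_lit 573485) (nat_lit 13) (.e (nat_lit 65619) (nat_lit 10) (.e (nat_lit 344117) (nat_lit 21) (.e (nat_lit 516151) (nat_lit 9) (.e (nat_lit 426043) (nat_lit 0) (.e (nat_lit 3409) (nat_lit 212) (.e (nat_lit 655373) (nat_lit 3) .nil)))))))) (.g (nat_lit 1) (.e (nat_lit 171076) (nat_lit 0) .nil) .nil))))) 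
(.nd (nat_lit 8) (.nd (nat_lit 9) 
(.lf (nat_lit 500924) (.g (nat_lit 2319) (.e (nat_lit 163977) (nat_lit 30) (.e (nat_lit 573493) (nat_lit 15) (.e (nat_lit 81954) (nat_lit 23) (.e (nat_lit 98363) (nat_lit 26) .nil)))) (.g (nat_lit 0) (.e (nat_lit 169939) (nat_lit 0) .nil) .nil))) 
(.lf (nat_lit 501436) (.g (nat_lit 3709) (.e (nat_lit 163978) (nat_lit 30) (.e (nat_lit 573485) (nat_lit 13) (.e (nat_lit 65604) (nat_lit 9) (.e (nat_lit 336028) (nat_lit 3) (.e (nat_lit 98367) (nat_lit 27) (.e (nat_lit 434209) (nat_lit 18) (.e (nat_lit 5547) (nat_lit 306) (.e (nat_lit 2601) (nat_lit 163) .nil)))))))) (.g (nat_lit 1) (.e (nat_lit 170935) (nat_lit 0) .nil) .nil)))) 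
(.nd (nat_lit 9) 
(.lf (nat_lit 501180) (.g (nat_lit 4922) (.e (nat_lit 163978) (nat_lit 30) (.e (nat_lit 573484) (nat_lit 13) (.e (nat_lit 65610) (nat_lit 10) (.e (nat_lit 344117) (nat_lit 21) (.e (nat_lit 516151) (nat_lit 9) (.e (nat_lit 426022) (nat_lit 0) (.e (nat_lit 3397) (nat_lit 211) (.e (nat_lit 647180) (nat_lit 3) .nil)))))))) (.g (nat_lit 1) (.e (nat_lit 170492) (nat_lit 0) .nil) .nil))) 
(.lf (nat_lit 501692) (.g (nat_lit 3934) (.e (nat_lit 163978) (nat_lit 30) (.e (nat_lit 573485) (nat_lit 13) (.e (nat_lit 65619) (nat_lit 10) (.e (nat_lit 344117) (nat_lit 21) (.e (nat_lit 516178) (nat_lit 15) (.e (nat_lit 475197) (nat_lit 40) (.e (nat_lit 704589) (nat_lit 3) .nil))))))) (.g (nat_lit 1) (.e (nat_lit 171218) (nat_lit 0) .nil) .nil)))))) 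
(.nd (nat_lit 7) (.nd (nat_lit 8) (.nd (nat_lit 9) 
(.lf (nat_lit 500860) (.g (nat_lit 4565) (.e (nat_lit 163977) (nat_lit 30) (.e (nat_lit 573493) (nat_lit 15) (.e (nat_lit 81951) (nat_lit 22) (.e (nat_lit 90170) (nat_lit 13) (.e (nat_lit 172068) (nat_lit 4) (.e (nat_lit 229666) (nat_lit 240) (.e (nat_lit 2612) (nat_lit 163) .nil))))))) (.g (nat_lit 1) (.e (nat_lit 169735) (nat_lit 0) .nil) .nil))) 
(.lf (nat_lit 501372) (.g (nat_lit 2964) (.e (nat_lit 163978) (nat_lit 30) (.e (nat_lit 573485) (nat_lit 13) (.e (nat_lit 65604) (nat_lit 9) (.e (nat_lit 336028) (nat_lit 3) (.e (nat_lit 98354) (nat_lit 26) (.e (nat_lit 426025) (nat_lit 0) (.e (nat_lit 3399) (nat_lit 211) (.e (nat_lit 647181) (nat_lit 3) .nil)))))))) (.g (nat_lit 1) (.e (nat_lit 170818) (nat_lit 0) .nil) .nil)))) (.nd (nat_lit 9) 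
(.lf (nat_lit 501116) (.g (nat_lit 2499) (.e (nat_lit 163978) (nat_lit 30) (.e (nat_lit 573482) (nat_lit 13) (.e (nat_lit 65598) (nat_lit 9) (.e (nat_lit 336028) (nat_lit 3) (.e (nat_lit 98367) (nat_lit 27) .nil))))) (.g (nat_lit 0) (.e (nat_lit 170381) (nat_lit 0) .nil) .nil))) 
(.lf (nat_lit 501628) (.g (nat_lit 1993) (.e (nat_lit 163978) (nat_lit 30) (.e (nat_lit 573485) (nat_lit 13) (.e (nat_lit 65619) (nat_lit 10) (.e (nat_lit 344117) (nat_lit 21) (.e (nat_lit 516159) (nat_lit 10) .nil))))) (.g (nat_lit 0) (.e (nat_lit 171140) (nat_lit 0) .nil) .nil))))) (.nd (nat_lit 8) (.nd (nat_lit 9) 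
(.lf (nat_lit 500988) (.g (nat_lit 4875) (.e (nat_lit 163977) (nat_lit 30) (.e (nat_lit 573493) (nat_lit 15) (.e (nat_lit 81956) (nat_lit 23) (.e (nat_lit 98365) (nat_lit 26) (.e (nat_lit 426098) (nat_lit 1) .nil))))) (.g (nat_lit 0) (.e (nat_lit 170114) (nat_lit 0) .nil) .nil))) 
(.lf (nat_lit 501500) (.g (nat_lit 2065) (.e (nat_lit 163978) (nat_lit 30) (.e (nat_lit 573485) (nat_lit 13) (.e (nat_lit 65619) (nat_lit 10) (.e (nat_lit 344117) (nat_lit 21) (.e (nat_lit 516145) (nat_lit 9) .nil))))) (.g (nat_lit 0) (.e (nat_lit 171012) (nat_lit 0) .nil) .nil)))) (.nd (nat_lit 9) 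
(.lf (nat_lit 501244) (.g (nat_lit 2810) (.e (nat_lit 163978) (nat_lit 30) (.e (nat_lit 573484) (nat_lit 13) (.e (nat_lit 65610) (nat_lit 10) (.e (nat_lit 344117) (nat_lit 21) (.e (nat_lit 516160) (nat_lit 10) (.e (nat_lit 434270) (nat_lit 38) (.e (nat_lit 655373) (nat_lit 3) .nil))))))) (.g (nat_lit 1) (.e (nat_lit 170649) (nat_lit 0) .nil) .nil))) 
(.lf (nat_lit 501756) (.g (nat_lit 3540) (.e (nat_lit 163978) (nat_lit 30) (.e (nat_lit 573489) (nat_lit 14) (.e (nat_lit 73754) (nat_lit 8) (.e (nat_lit 557100) (nat_lit 13) (.e (nat_lit 172067) (nat_lit 3) (.e (nat_lit 204817) (nat_lit 17) (.e (nat_lit 2272) (nat_lit 149) (.e (nat_lit 761897) (nat_lit 15) .nil)))))))) (.g (nat_lit 1) (.e (nat_lit 171425) (nat_lit 0) .nil) .nil))))))))))) 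
(.nd (nat_lit 2) (.nd (nat_lit 3) (.nd (nat_lit 4) (.nd (nat_lit 5) (.nd (nat_lit 6) 
(.nd (nat_lit 7) (.nd (nat_lit 8) (.nd (nat_lit 9) 
(.lf (nat_lit 500738) (.g (nat_lit 2557) (.e (nat_lit 163977) (nat_lit 30) (.e (nat_lit 573491) (nat_lit 15) (.e (nat_lit 81951) (nat_lit 22) (.e (nat_lit 90170) (nat_lit 13) (.e (nat_lit 172069) (nat_lit 4) (.e (nat_lit 229663) (nat_lit 240) (.e (nat_lit 2604) (nat_lit 163) .nil))))))) (.g (nat_lit 1) (.e (nat_lit 169360) (nat_lit 0) .nil) .nil))) 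
(.lf (nat_lit 501250) (.g (nat_lit 3108) (.e (nat_lit 163978) (nat_lit 30) (.e (nat_lit 573484) (nat_lit 13) (.e (nat_lit 65610) (nat_lit 10) (.e (nat_lit 344117) (nat_lit 21) (.e (nat_lit 516172) (nat_lit 13) (.e (nat_lit 458774) (nat_lit 18) (.e (nat_lit 5547) (nat_lit 306) (.e (nat_lit 2610) (nat_lit 163) .nil)))))))) (.g (nat_lit 1) (.e (nat_lit 170675) (nat_lit 0) .nil) .nil)))) 
(.nd (nat_lit 9) 
(.lf (nat_lit 500994) (.g (nat_lit 2782) (.e (nat_lit 163977) (nat_lit 30) (.e (nat_lit 573493) (nat_lit 15) (.e (nat_lit 81956) (nat_lit 23) (.e (nat_lit 106240) (nat_lit 26) .nil)))) (.g (nat_lit 0) (.e (nat_lit 170132) (nat_lit 0) .nil) .nil))) 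
(.lf (nat_lit 501506) (.g (nat_lit 3870) (.e (nat_lit 163978) (nat_lit 30) (.e (nat_lit 573485) (nat_lit 13) (.e (nat_lit 65619) (nat_lit 10) (.e (nat_lit 344117) (nat_lit 21) (.e (nat_lit 516145) (nat_lit 9) (.e (nat_lit 426374) (nat_lit 15) (.e (nat_lit 2056) (nat_lit 142) (.e (nat_lit 704589) (nat_lit 3) .nil)))))))) (.g (nat_lit 1) (.e (nat_lit 171018) (nat_lit 0) .nil) .nil))))) 
(.nd (nat_lit 8) (.nd (nat_lit 9) 
(.lf (nat_lit 500866) (.g (nat_lit 3108) (.e (nat_lit 163977) (nat_lit 30) (.e (nat_lit 573493) (nat_lit 15) (.e (nat_lit 81953) (nat_lit 22) (.e (nat_lit 90166) (nat_lit 13) .nil)))) (.g (nat_lit 0) (.e (nat_lit 169819) (nat_lit 0) .nil) .nil))) 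
(.lf (nat_lit 501378) (.g (nat_lit 3577) (.e (nat_lit 163978) (nat_lit 30) (.e (nat_lit 573485) (nat_lit 13) (.e (nat_lit 65604) (nat_lit 9) (.e (nat_lit 336028) (nat_lit 3) (.e (nat_lit 98359) (nat_lit 26) (.e (nat_lit 426003) (nat_lit 0) (.e (nat_lit 3397) (nat_lit 211) (.e (nat_lit 647181) (nat_lit 3) .nil)))))))) (.g (nat_lit 1) (.e (nat_lit 170830) (nat_lit 0) .nil) .nil)))) (.nd (nat_lit 9) 
(.lf (nat_lit 501122) (.g (nat_lit 4044) (.e (nat_lit 163978) (nat_lit 30) (.e (nat_lit 573482) (nat_lit 13) (.e (nat_lit 65619) (nat_lit 10) (.e (nat_lit 344117) (nat_lit 21) (.e (nat_lit 516151) (nat_lit 9) (.e (nat_lit 426042) (nat_lit 0) (.e (nat_lit 3408) (nat_lit 212) (.e (nat_lit 655375) (nat_lit 3) .nil)))))))) (.g (nat_lit 1) (.e (nat_lit 170387) (nat_lit 0) .nil) .nil))) 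
(.lf (nat_lit 501634) (.g (nat_lit 4996) (.e (nat_lit 163978) (nat_lit 30) (.e (nat_lit 573485) (nat_lit 13) (.e (nat_lit 65619) (nat_lit 10) (.e (nat_lit 344117) (nat_lit 21) (.e (nat_lit 516159) (nat_lit 10) (.e (nat_lit 434209) (nat_lit 18) (.e (nat_lit 5547) (nat_lit 306) (.e (nat_lit 2610) (nat_lit 163) .nil)))))))) (.g (nat_lit 1) (.e (nat_lit 171150) (nat_lit 0) .nil) .nil)))))) 
(.nd (nat_lit 7) (.nd (nat_lit 8) (.nd (nat_lit 9) 
(.lf (nat_lit 500802) (.g (nat_lit 2960) (.e (nat_lit 163977) (nat_lit 30) (.e (nat_lit 573492) (nat_lit 15) (.e (nat_lit 81956) (nat_lit 23) (.e (nat_lit 98355) (nat_lit 26) (.e (nat_lit 426442) (nat_lit 19) (.e (nat_lit 114432) (nat_lit 3) .nil)))))) (.g (nat_lit 1) (.e (nat_lit 169574) (nat_lit 0) .nil) .nil))) 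
(.lf (nat_lit 501314) (.g (nat_lit 4111) (.e (nat_lit 163978) (nat_lit 30) (.e (nat_lit 573485) (nat_lit 13) (.e (nat_lit 65604) (nat_lit 9) (.e (nat_lit 336013) (nat_lit 2) (.e (nat_lit 90170) (nat_lit 13) (.e (nat_lit 172052) (nat_lit 0) (.e (nat_lit 3409) (nat_lit 212) (.e (nat_lit 655375) (nat_lit 3) .nil)))))))) (.g (nat_lit 1) (.e (nat_lit 170756) (nat_lit 0) .nil) .nil)))) (.nd (nat_lit 9) 
(.lf (nat_lit 501058) (.g (nat_lit 3907) (.e (nat_lit 163978) (nat_lit 30) (.e (nat_lit 573479) (nat_lit 13) (.e (nat_lit 65619) (nat_lit 10) (.e (nat_lit 344117) (nat_lit 21) (.e (nat_lit 516151) (nat_lit 9) (.e (nat_lit 426042) (nat_lit 0) (.e (nat_lit 2458) (nat_lit 157) (.e (nat_lit 5546) (nat_lit 306) (.e (nat_lit 2610) (nat_lit 163) .nil))))))))) (.g (nat_lit 1) (.e (nat_lit 170323) (nat_lit 0) .nil) .nil))) 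
(.lf (nat_lit 501570) (.g (nat_lit 3477) (.e (nat_lit 163978) (nat_lit 30) (.e (nat_lit 573485) (nat_lit 13) (.e (nat_lit 65619) (nat_lit 10) (.e (nat_lit 344117) (nat_lit 21) (.e (nat_lit 516151) (nat_lit 9) (.e (nat_lit 426097) (nat_lit 1) (.e (nat_lit 164347) (nat_lit 240) (.e (nat_lit 2601) (nat_lit 163) .nil)))))))) (.g (nat_lit 1) (.e (nat_lit 171082) (nat_lit 0) .nil) .nil))))) 
(.nd (nat_lit 8) (.nd (nat_lit 9) 
(.lf (nat_lit 500930) (.g (nat_lit 3818) (.e (nat_lit 163977) (nat_lit 30) (.e (nat_lit 573493) (nat_lit 15) (.e (nat_lit 81954) (nat_lit 23) (.e (nat_lit 98366) (nat_lit 27) (.e (nat_lit 434271) (nat_lit 38) (.e (nat_lit 655375) (nat_lit 3) .nil)))))) (.g (nat_lit 1) (.e (nat_lit 169953) (nat_lit 0) .nil) .nil))) 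
(.lf (nat_lit 501442) (.g (nat_lit 4381) (.e (nat_lit 163978) (nat_lit 30) (.e (nat_lit 573485) (nat_lit 13) (.e (nat_lit 65604) (nat_lit 9) (.e (nat_lit 336028) (nat_lit 3) (.e (nat_lit 98367) (nat_lit 27) (.e (nat_lit 434271) (nat_lit 38) (.e (nat_lit 655373) (nat_lit 3) .nil))))))) (.g (nat_lit 1) (.e (nat_lit 170943) (nat_lit 0) .nil) .nil)))) (.nd (nat_lit 9) 
(.lf (nat_lit 501186) (.g (nat_lit 4266) (.e (nat_lit 163978) (nat_lit 30) (.e (nat_lit 573484) (nat_lit 13) (.e (nat_lit 65610) (nat_lit 10) (.e (nat_lit 344117) (nat_lit 21) (.e (nat_lit 516151) (nat_lit 9) (.e (nat_lit 426034) (nat_lit 0) (.e (nat_lit 2458) (nat_lit 157) (.e (nat_lit 5547) (nat_lit 306) (.e (nat_lit 2610) (nat_lit 163) .nil))))))))) (.g (nat_lit 1) (.e (nat_lit 170500) (nat_lit 0) .nil) .nil))) 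
(.lf (nat_lit 501698) (.g (nat_lit 4360) (.e (nat_lit 163978) (nat_lit 30) (.e (nat_lit 573485) (nat_lit 13) (.e (nat_lit 65619) (nat_lit 10) (.e (nat_lit 344117) (nat_lit 21) (.e (nat_lit 516180) (nat_lit 15) (.e (nat_lit 475198) (nat_lit 40) (.e (nat_lit 704589) (nat_lit 3) .nil))))))) (.g (nat_lit 1) (.e (nat_lit 171224) (nat_lit 0) .nil) .nil))))))) 
(.nd (nat_lit 6) (.nd (nat_lit 7) (.nd (nat_lit 8) (.nd (nat_lit 9) 
(.lf (nat_lit 500770) (.g (nat_lit 2908) (.e (nat_lit 163977) (nat_lit 30) (.e (nat_lit 573491) (nat_lit 15) (.e (nat_lit 81954) (nat_lit 23) (.e (nat_lit 98365) (nat_lit 26) (.e (nat_lit 426108) (nat_lit 1) (.e (nat_lit 164345) (nat_lit 240) (.e (nat_lit 2610) (nat_lit 163) .nil))))))) (.g (nat_lit 1) (.e (nat_lit 169462) (nat_lit 0) .nil) .nil))) 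
(.lf (nat_lit 501282) (.g (nat_lit 3196) (.e (nat_lit 163978) (nat_lit 30) (.e (nat_lit 573485) (nat_lit 13) (.e (nat_lit 65604) (nat_lit 9) (.e (nat_lit 336013) (nat_lit 2) (.e (nat_lit 90170) (nat_lit 13) (.e (nat_lit 172036) (nat_lit 0) (.e (nat_lit 3402) (nat_lit 211) (.e (nat_lit 647180) (nat_lit 3) .nil)))))))) (.g (nat_lit 1) (.e (nat_lit 170723) (nat_lit 0) .nil) .nil)))) (.nd (nat_lit 9) 
(.lf (nat_lit 501026) (.g (nat_lit 3864) (.e (nat_lit 163977) (nat_lit 30) (.e (nat_lit 573493) (nat_lit 15) (.e (nat_lit 81956) (nat_lit 23) (.e (nat_lit 98385) (nat_lit 32) (.e (nat_lit 475201) (nat_lit 40) (.e (nat_lit 712448) (nat_lit 3) .nil)))))) (.g (nat_lit 1) (.e (nat_lit 170245) (nat_lit 0) .nil) .nil))) 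
(.lf (nat_lit 501538) (.g (nat_lit 4108) (.e (nat_lit 163978) (nat_lit 30) (.e (nat_lit 573485) (nat_lit 13) (.e (nat_lit 65619) (nat_lit 10) (.e (nat_lit 344117) (nat_lit 21) (.e (nat_lit 516151) (nat_lit 9) (.e (nat_lit 426025) (nat_lit 0) (.e (nat_lit 3399) (nat_lit 211) (.e (nat_lit 647180) (nat_lit 3) .nil)))))))) (.g (nat_lit 1) (.e (nat_lit 171050) (nat_lit 0) .nil) .nil))))) 
(.nd (nat_lit 8) (.nd (nat_lit 9) 
(.lf (nat_lit 500898) (.g (nat_lit 5215) (.e (nat_lit 163977) (nat_lit 30) (.e (nat_lit 573493) (nat_lit 15) (.e (nat_lit 81953) (nat_lit 22) (.e (nat_lit 90170) (nat_lit 13) (.e (nat_lit 172070) (nat_lit 4) (.e (nat_lit 229663) (nat_lit 240) (.e (nat_lit 2612) (nat_lit 163) .nil))))))) (.g (nat_lit 1) (.e (nat_lit 169870) (nat_lit 0) .nil) .nil))) 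
(.lf (nat_lit 501410) (.g (nat_lit 2937) (.e (nat_lit 163978) (nat_lit 30) (.e (nat_lit 573485) (nat_lit 13) (.e (nat_lit 65604) (nat_lit 9) (.e (nat_lit 336028) (nat_lit 3) (.e (nat_lit 98362) (nat_lit 26) (.e (nat_lit 426025) (nat_lit 0) (.e (nat_lit 3397) (nat_lit 211) (.e (nat_lit 647181) (nat_lit 3) .nil)))))))) (.g (nat_lit 1) (.e (nat_lit 170894) (nat_lit 0) .nil) .nil)))) (.nd (nat_lit 9) 
(.lf (nat_lit 501154) (.g (nat_lit 3063) (.e (nat_lit 163978) (nat_lit 30) (.e (nat_lit 573484) (nat_lit 13) (.e (nat_lit 65610) (nat_lit 10) (.e (nat_lit 344117) (nat_lit 21) (.e (nat_lit 516145) (nat_lit 9) (.e (nat_lit 433920) (nat_lit 1) (.e (nat_lit 164348) (nat_lit 240) (.e (nat_lit 2601) (nat_lit 163) .nil)))))))) (.g (nat_lit 1) (.e (nat_lit 170461) (nat_lit 0) .nil) .nil))) 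
(.lf (nat_lit 501666) (.g (nat_lit 2918) (.e (nat_lit 163978) (nat_lit 30) (.e (nat_lit 573485) (nat_lit 13) (.e (nat_lit 65619) (nat_lit 10) (.e (nat_lit 344117) (nat_lit 21) (.e (nat_lit 516161) (nat_lit 10) (.e (nat_lit 434209) (nat_lit 18) (.e (nat_lit 5548) (nat_lit 306) (.e (nat_lit 2599) (nat_lit 163) .nil)))))))) (.g (nat_lit 1) (.e (nat_lit 171187) (nat_lit 0) .nil) .nil)))))) 
(.nd (nat_lit 7) (.nd (nat_lit 8) (.nd (nat_lit 9) 
(.lf (nat_lit 500834) (.g (nat_lit 660) (.e (nat_lit 163977) (nat_lit 30) (.e (nat_lit 573493) (nat_lit 15) (.e (nat_lit 81951) (nat_lit 22) .nil))) (.g (nat_lit 0) (.e (nat_lit 169680) (nat_lit 0) .nil) .nil))) 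
(.lf (nat_lit 501346) (.g (nat_lit 2718) (.e (nat_lit 163978) (nat_lit 30) (.e (nat_lit 573485) (nat_lit 13) (.e (nat_lit 65604) (nat_lit 9) (.e (nat_lit 336013) (nat_lit 2) (.e (nat_lit 90170) (nat_lit 13) (.e (nat_lit 172069) (nat_lit 4) (.e (nat_lit 229663) (nat_lit 240) (.e (nat_lit 2603) (nat_lit 163) .nil)))))))) (.g (nat_lit 1) (.e (nat_lit 170791) (nat_lit 0) .nil) .nil)))) 
(.nd (nat_lit 9) 
(.lf (nat_lit 501090) (.g (nat_lit 3004) (.e (nat_lit 163978) (nat_lit 30) (.e (nat_lit 573479) (nat_lit 13) (.e (nat_lit 65619) (nat_lit 10) (.e (nat_lit 344117) (nat_lit 21) (.e (nat_lit 516159) (nat_lit 10) (.e (nat_lit 434272) (nat_lit 38) (.e (nat_lit 655374) (nat_lit 3) .nil))))))) (.g (nat_lit 1) (.e (nat_lit 170355) (nat_lit 0) .nil) .nil))) 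
(.lf (nat_lit 501602) (.g (nat_lit 2984) (.e (nat_lit 163978) (nat_lit 30) (.e (nat_lit 573485) (nat_lit 13) (.e (nat_lit 65619) (nat_lit 10) (.e (nat_lit 344117) (nat_lit 21) (.e (nat_lit 516152) (nat_lit 9) (.e (nat_lit 426025) (nat_lit 0) (.e (nat_lit 3399) (nat_lit 211) (.e (nat_lit 647180) (nat_lit 3) .nil)))))))) (.g (nat_lit 1) (.e (nat_lit 171114) (nat_lit 0) .nil) .nil))))) 
(.nd (nat_lit 8) (.nd (nat_lit 9) 
(.lf (nat_lit 500962) (.g (nat_lit 4379) (.e (nat_lit 163977) (nat_lit 30) (.e (nat_lit 573493) (nat_lit 15) (.e (nat_lit 81956) (nat_lit 23) (.e (nat_lit 98359) (nat_lit 26) (.e (nat_lit 426023) (nat_lit 0) (.e (nat_lit 3397) (nat_lit 211) (.e (nat_lit 647181) (nat_lit 3) .nil))))))) (.g (nat_lit 1) (.e (nat_lit 170052) (nat_lit 0) .nil) .nil))) 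
(.lf (nat_lit 501474) (.g (nat_lit 4894) (.e (nat_lit 163978) (nat_lit 30) (.e (nat_lit 573485) (nat_lit 13) (.e (nat_lit 65619) (nat_lit 10) (.e (nat_lit 344117) (nat_lit 21) (.e (nat_lit 516143) (nat_lit 9) (.e (nat_lit 426109) (nat_lit 1) (.e (nat_lit 164347) (nat_lit 240) (.e (nat_lit 2610) (nat_lit 163) .nil)))))))) (.g (nat_lit 1) (.e (nat_lit 170986) (nat_lit 0) .nil) .nil)))) 
(.nd (nat_lit 9) 
(.lf (nat_lit 501218) (.g (nat_lit 3158) (.e (nat_lit 163978) (nat_lit 30) (.e (nat_lit 573484) (nat_lit 13) (.e (nat_lit 65610) (nat_lit 10) (.e (nat_lit 344117) (nat_lit 21) (.e (nat_lit 516151) (nat_lit 9) (.e (nat_lit 426049) (nat_lit 0) (.e (nat_lit 3403) (nat_lit 212) (.e (nat_lit 655373) (nat_lit 3) .nil)))))))) (.g (nat_lit 1) (.e (nat_lit 170560) (nat_lit 0) .nil) .nil))) 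
(.lf (nat_lit 501730) (.g (nat_lit 3066) (.e (nat_lit 163978) (nat_lit 30) (.e (nat_lit 573487) (nat_lit 14) (.e (nat_lit 73753) (nat_lit 8) (.e (nat_lit 557105) (nat_lit 14) (.e (nat_lit 180250) (nat_lit 10) (.e (nat_lit 573475) (nat_lit 12) (.e (nat_lit 57503) (nat_lit 38) (.e (nat_lit 638995) (nat_lit 7) .nil)))))))) (.g (nat_lit 1) (.e (nat_lit 171371) (nat_lit 0) .nil) .nil)))))))) 
(.nd (nat_lit 5) (.nd (nat_lit 6) (.nd (nat_lit 7) (.nd (nat_lit 8) (.nd (nat_lit 9) 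
(.lf (nat_lit 500754) (.g (nat_lit 833) (.e (nat_lit 163977) (nat_lit 30) (.e (nat_lit 573491) (nat_lit 15) (.e (nat_lit 81954) (nat_lit 23) (.e (nat_lit 98359) (nat_lit 26) .nil)))) (.g (nat_lit 0) (.e (nat_lit 169414) (nat_lit 0) .nil) .nil))) 
(.lf (nat_lit 501266) (.g (nat_lit 4904) (.e (nat_lit 163978) (nat_lit 30) (.e (nat_lit 573485) (nat_lit 13) (.e (nat_lit 65604) (nat_lit 9) (.e (nat_lit 336013) (nat_lit 2) (.e (nat_lit 90121) (nat_lit 9) (.e (nat_lit 3071) (nat_lit 190) (.e (nat_lit 475199) (nat_lit 40) (.e (nat_lit 704589) (nat_lit 3) .nil)))))))) (.g (nat_lit 1) (.e (nat_lit 170703) (nat_lit 0) .nil) .nil)))) (.nd (nat_lit 9) 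
(.lf (nat_lit 501010) (.g (nat_lit 4563) (.e (nat_lit 163977) (nat_lit 30) (.e (nat_lit 573493) (nat_lit 15) (.e (nat_lit 81956) (nat_lit 23) (.e (nat_lit 98367) (nat_lit 27) (.e (nat_lit 434271) (nat_lit 38) (.e (nat_lit 655375) (nat_lit 3) .nil)))))) (.g (nat_lit 1) (.e (nat_lit 170186) (nat_lit 0) .nil) .nil))) 
(.lf (nat_lit 501522) (.g (nat_lit 3421) (.e (nat_lit 163978) (nat_lit 30) (.e (nat_lit 573485) (nat_lit 13) (.e (nat_lit 65619) (nat_lit 10) (.e (nat_lit 344117) (nat_lit 21) (.e (nat_lit 516145) (nat_lit 9) (.e (nat_lit 426444) (nat_lit 19) (.e (nat_lit 114432) (nat_lit 3) .nil))))))) (.g (nat_lit 1) (.e (nat_lit 171034) (nat_lit 0) .nil) .nil))))) (.nd (nat_lit 8) (.nd (nat_lit 9) 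
(.lf (nat_lit 500882) (.g (nat_lit 4111) (.e (nat_lit 163977) (nat_lit 30) (.e (nat_lit 573493) (nat_lit 15) (.e (nat_lit 81953) (nat_lit 22) (.e (nat_lit 90170) (nat_lit 13) (.e (nat_lit 172042) (nat_lit 0) (.e (nat_lit 3406) (nat_lit 212) (.e (nat_lit 655375) (nat_lit 3) .nil))))))) (.g (nat_lit 1) (.e (nat_lit 169835) (nat_lit 0) .nil) .nil))) 
(.lf (nat_lit 501394) (.g (nat_lit 2459) (.e (nat_lit 163978) (nat_lit 30) (.e (nat_lit 573485) (nat_lit 13) (.e (nat_lit 65604) (nat_lit 9) (.e (nat_lit 336028) (nat_lit 3) (.e (nat_lit 98359) (nat_lit 26) (.e (nat_lit 426396) (nat_lit 15) (.e (nat_lit 2057) (nat_lit 142) (.e (nat_lit 704589) (nat_lit 3) .nil)))))))) (.g (nat_lit 1) (.e (nat_lit 170873) (nat_lit 0) .nil) .nil)))) 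
(.nd (nat_lit 9) 
(.lf (nat_lit 501138) (.g (nat_lit 1934) (.e (nat_lit 163978) (nat_lit 30) (.e (nat_lit 573484) (nat_lit 13) (.e (nat_lit 65610) (nat_lit 10) (.e (nat_lit 344117) (nat_lit 21) (.e (nat_lit 516143) (nat_lit 9) (.e (nat_lit 426465) (nat_lit 24) (.e (nat_lit 163584) (nat_lit 3) .nil))))))) (.g (nat_lit 1) (.e (nat_lit 170432) (nat_lit 0) .nil) .nil))) 
(.lf (nat_lit 501650) (.g (nat_lit 3099) (.e (nat_lit 163978) (nat_lit 30) (.e (nat_lit 573485) (nat_lit 13) (.e (nat_lit 65619) (nat_lit 10) (.e (nat_lit 344117) (nat_lit 21) (.e (nat_lit 516160) (nat_lit 10) (.e (nat_lit 434209) (nat_lit 18) (.e (nat_lit 5546) (nat_lit 306) (.e (nat_lit 2601) (nat_lit 163) .nil)))))))) (.g (nat_lit 1) (.e (nat_lit 171170) (nat_lit 0) .nil) .nil)))))) 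
(.nd (nat_lit 7) (.nd (nat_lit 8) (.nd (nat_lit 9) 
(.lf (nat_lit 500818) (.g (nat_lit 5950) (.e (nat_lit 163977) (nat_lit 30) (.e (nat_lit 573492) (nat_lit 15) (.e (nat_lit 81956) (nat_lit 23) (.e (nat_lit 98363) (nat_lit 26) (.e (nat_lit 426110) (nat_lit 1) (.e (nat_lit 164348) (nat_lit 240) (.e (nat_lit 2610) (nat_lit 163) .nil))))))) (.g (nat_lit 1) (.e (nat_lit 169601) (nat_lit 0) .nil) .nil))) 
(.lf (nat_lit 501330) (.g (nat_lit 3249) (.e (nat_lit 163978) (nat_lit 30) (.e (nat_lit 573485) (nat_lit 13) (.e (nat_lit 65604) (nat_lit 9) (.e (nat_lit 336013) (nat_lit 2) (.e (nat_lit 90170) (nat_lit 13) (.e (nat_lit 172061) (nat_lit 1) (.e (nat_lit 164345) (nat_lit 240) (.e (nat_lit 2601) (nat_lit 163) .nil)))))))) (.g (nat_lit 1) (.e (nat_lit 170773) (nat_lit 0) .nil) .nil)))) 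
(.nd (nat_lit 9) 
(.lf (nat_lit 501074) (.g (nat_lit 4604) (.e (nat_lit 163978) (nat_lit 30) (.e (nat_lit 573479) (nat_lit 13) (.e (nat_lit 65619) (nat_lit 10) (.e (nat_lit 344117) (nat_lit 21) (.e (nat_lit 516151) (nat_lit 9) (.e (nat_lit 426104) (nat_lit 1) (.e (nat_lit 164348) (nat_lit 240) (.e (nat_lit 2611) (nat_lit 163) .nil)))))))) (.g (nat_lit 1) (.e (nat_lit 170339) (nat_lit 0) .nil) .nil))) 
(.lf (nat_lit 501586) (.g (nat_lit 3219) (.e (nat_lit 163978) (nat_lit 30) (.e (nat_lit 573485) (nat_lit 13) (.e (nat_lit 65619) (nat_lit 10) (.e (nat_lit 344117) (nat_lit 21) (.e (nat_lit 516151) (nat_lit 9) (.e (nat_lit 426142) (nat_lit 4) (.e (nat_lit 229665) (nat_lit 240) (.e (nat_lit 2603) (nat_lit 163) .nil)))))))) (.g (nat_lit 1) (.e (nat_lit 171098) (nat_lit 0) .nil) .nil))))) 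
(.nd (nat_lit 8) (.nd (nat_lit 9) 
(.lf (nat_lit 500946) (.g (nat_lit 3111) (.e (nat_lit 163977) (nat_lit 30) (.e (nat_lit 573493) (nat_lit 15) (.e (nat_lit 81956) (nat_lit 23) (.e (nat_lit 98356) (nat_lit 26) (.e (nat_lit 426112) (nat_lit 1) .nil))))) (.g (nat_lit 0) (.e (nat_lit 170023) (nat_lit 0) .nil) .nil))) 
(.lf (nat_lit 501458) (.g (nat_lit 1101) (.e (nat_lit 163978) (nat_lit 30) (.e (nat_lit 573485) (nat_lit 13) (.e (nat_lit 65610) (nat_lit 10) (.e (nat_lit 344117) (nat_lit 21) .nil)))) (.g (nat_lit 0) (.e (nat_lit 170963) (nat_lit 0) .nil) .nil)))) (.nd (nat_lit 9) 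
(.lf (nat_lit 501202) (.g (nat_lit 2928) (.e (nat_lit 163978) (nat_lit 30) (.e (nat_lit 573484) (nat_lit 13) (.e (nat_lit 65610) (nat_lit 10) (.e (nat_lit 344117) (nat_lit 21) (.e (nat_lit 516151) (nat_lit 9) (.e (nat_lit 426042) (nat_lit 0) (.e (nat_lit 3403) (nat_lit 212) (.e (nat_lit 655374) (nat_lit 3) .nil)))))))) (.g (nat_lit 1) (.e (nat_lit 170541) (nat_lit 0) .nil) .nil))) 
(.lf (nat_lit 501714) (.g (nat_lit 3706) (.e (nat_lit 163978) (nat_lit 30) (.e (nat_lit 573485) (nat_lit 13) (.e (nat_lit 65621) (nat_lit 11) (.e (nat_lit 368676) (nat_lit 21) (.e (nat_lit 516179) (nat_lit 15) (.e (nat_lit 475199) (nat_lit 40) (.e (nat_lit 704589) (nat_lit 3) .nil))))))) (.g (nat_lit 1) (.e (nat_lit 171281) (nat_lit 0) .nil) .nil))))))) 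
(.nd (nat_lit 6) (.nd (nat_lit 7) (.nd (nat_lit 8) (.nd (nat_lit 9) 
(.lf (nat_lit 500786) (.g (nat_lit 1096) (.e (nat_lit 163977) (nat_lit 30) (.e (nat_lit 573491) (nat_lit 15) (.e (nat_lit 81956) (nat_lit 23) (.e (nat_lit 98359) (nat_lit 26) .nil)))) (.g (nat_lit 0) (.e (nat_lit 169511) (nat_lit 0) .nil) .nil))) 
(.lf (nat_lit 501298) (.g (nat_lit 4060) (.e (nat_lit 163978) (nat_lit 30) (.e (nat_lit 573485) (nat_lit 13) (.e (nat_lit 65604) (nat_lit 9) (.e (nat_lit 336013) (nat_lit 2) (.e (nat_lit 90170) (nat_lit 13) (.e (nat_lit 172046) (nat_lit 0) (.e (nat_lit 2458) (nat_lit 157) (.e (nat_lit 5546) (nat_lit 306) (.e (nat_lit 2600) (nat_lit 163) .nil))))))))) (.g (nat_lit 1) (.e (nat_lit 170740) (nat_lit 0) .nil) .nil)))) 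
(.nd (nat_lit 9) 
(.lf (nat_lit 501042) (.g (nat_lit 2566) (.e (nat_lit 163978) (nat_lit 30) (.e (nat_lit 573479) (nat_lit 13) (.e (nat_lit 65619) (nat_lit 10) (.e (nat_lit 344117) (nat_lit 21) (.e (nat_lit 516151) (nat_lit 9) (.e (nat_lit 426003) (nat_lit 0) (.e (nat_lit 3399) (nat_lit 211) (.e (nat_lit 647180) (nat_lit 3) .nil)))))))) (.g (nat_lit 1) (.e (nat_lit 170307) (nat_lit 0) .nil) .nil))) 
(.lf (nat_lit 501554) (.g (nat_lit 4051) (.e (nat_lit 163978) (nat_lit 30) (.e (nat_lit 573485) (nat_lit 13) (.e (nat_lit 65619) (nat_lit 10) (.e (nat_lit 344117) (nat_lit 21) (.e (nat_lit 516151) (nat_lit 9) (.e (nat_lit 426042) (nat_lit 0) (.e (nat_lit 3408) (nat_lit 212) (.e (nat_lit 655375) (nat_lit 3) .nil)))))))) (.g (nat_lit 1) (.e (nat_lit 171066) (nat_lit 0) .nil) .nil))))) 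
(.nd (nat_lit 8) (.nd (nat_lit 9) 
(.lf (nat_lit 500914) (.g (nat_lit 3107) (.e (nat_lit 163977) (nat_lit 30) (.e (nat_lit 573493) (nat_lit 15) (.e (nat_lit 81954) (nat_lit 23) (.e (nat_lit 98356) (nat_lit 26) (.e (nat_lit 433920) (nat_lit 1) .nil))))) (.g (nat_lit 0) (.e (nat_lit 169916) (nat_lit 0) .nil) .nil))) 
(.lf (nat_lit 501426) (.g (nat_lit 5609) (.e (nat_lit 163978) (nat_lit 30) (.e (nat_lit 573485) (nat_lit 13) (.e (nat_lit 65604) (nat_lit 9) (.e (nat_lit 336028) (nat_lit 3) (.e (nat_lit 98366) (nat_lit 27) (.e (nat_lit 434209) (nat_lit 18) (.e (nat_lit 5548) (nat_lit 306) (.e (nat_lit 2610) (nat_lit 163) .nil)))))))) (.g (nat_lit 1) (.e (nat_lit 170919) (nat_lit 0) .nil) .nil)))) 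
(.nd (nat_lit 9) 
(.lf (nat_lit 501170) (.g (nat_lit 3321) (.e (nat_lit 163978) (nat_lit 30) (.e (nat_lit 573484) (nat_lit 13) (.e (nat_lit 65610) (nat_lit 10) (.e (nat_lit 344117) (nat_lit 21) (.e (nat_lit 516148) (nat_lit 9) (.e (nat_lit 426444) (nat_lit 19) (.e (nat_lit 114432) (nat_lit 3) .nil))))))) (.g (nat_lit 1) (.e (nat_lit 170482) (nat_lit 0) .nil) .nil))) 
(.lf (nat_lit 501682) (.g (nat_lit 3287) (.e (nat_lit 163978) (nat_lit 30) (.e (nat_lit 573485) (nat_lit 13) (.e (nat_lit 65619) (nat_lit 10) (.e (nat_lit 344117) (nat_lit 21) (.e (nat_lit 516170) (nat_lit 13) (.e (nat_lit 458804) (nat_lit 38) (.e (nat_lit 655373) (nat_lit 3) .nil))))))) (.g (nat_lit 1) (.e (nat_lit 171206) (nat_lit 0) .nil) .nil)))))) 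
(.nd (nat_lit 7) (.nd (nat_lit 8) (.nd (nat_lit 9) 
(.lf (nat_lit 500850) (.g (nat_lit 4431) (.e (nat_lit 163977) (nat_lit 30) (.e (nat_lit 573493) (nat_lit 15) (.e (nat_lit 81951) (nat_lit 22) (.e (nat_lit 90170) (nat_lit 13) (.e (nat_lit 172039) (nat_lit 0) (.e (nat_lit 3401) (nat_lit 211) (.e (nat_lit 647181) (nat_lit 3) .nil))))))) (.g (nat_lit 1) (.e (nat_lit 169701) (nat_lit 0) .nil) .nil))) 
(.lf (nat_lit 501362) (.g (nat_lit 5379) (.e (nat_lit 163978) (nat_lit 30) (.e (nat_lit 573485) (nat_lit 13) (.e (nat_lit 65604) (nat_lit 9) (.e (nat_lit 336013) (nat_lit 2) (.e (nat_lit 90170) (nat_lit 13) (.e (nat_lit 172138) (nat_lit 15) (.e (nat_lit 2058) (nat_lit 142) (.e (nat_lit 704589) (nat_lit 3) .nil)))))))) (.g (nat_lit 1) (.e (nat_lit 170807) (nat_lit 0) .nil) .nil)))) 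
(.nd (nat_lit 9) 
(.lf (nat_lit 501106) (.g (nat_lit 3445) (.e (nat_lit 163978) (nat_lit 30) (.e (nat_lit 573479) (nat_lit 13) (.e (nat_lit 65619) (nat_lit 10) (.e (nat_lit 344117) (nat_lit 21) (.e (nat_lit 516179) (nat_lit 15) (.e (nat_lit 475199) (nat_lit 40) (.e (nat_lit 704589) (nat_lit 3) .nil))))))) (.g (nat_lit 1) (.e (nat_lit 170371) (nat_lit 0) .nil) .nil))) 
(.lf (nat_lit 501618) (.g (nat_lit 2371) (.e (nat_lit 163978) (nat_lit 30) (.e (nat_lit 573485) (nat_lit 13) (.e (nat_lit 65619) (nat_lit 10) (.e (nat_lit 344117) (nat_lit 21) (.e (nat_lit 516153) (nat_lit 9) (.e (nat_lit 426109) (nat_lit 1) (.e (nat_lit 164346) (nat_lit 240) (.e (nat_lit 2599) (nat_lit 163) .nil)))))))) (.g (nat_lit 1) (.e (nat_lit 171130) (nat_lit 0) .nil) .nil))))) 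
(.nd (nat_lit 8) (.nd (nat_lit 9) 
(.lf (nat_lit 500978) (.g (nat_lit 2957) (.e (nat_lit 163977) (nat_lit 30) (.e (nat_lit 573493) (nat_lit 15) (.e (nat_lit 81956) (nat_lit 23) (.e (nat_lit 98360) (nat_lit 26) (.e (nat_lit 426144) (nat_lit 4) .nil))))) (.g (nat_lit 0) (.e (nat_lit 170098) (nat_lit 0) .nil) .nil))) 
(.lf (nat_lit 501490) (.g (nat_lit 3473) (.e (nat_lit 163978) (nat_lit 30) (.e (nat_lit 573485) (nat_lit 13) (.e (nat_lit 65619) (nat_lit 10) (.e (nat_lit 344117) (nat_lit 21) (.e (nat_lit 516144) (nat_lit 9) (.e (nat_lit 426393) (nat_lit 15) (.e (nat_lit 2057) (nat_lit 142) (.e (nat_lit 704589) (nat_lit 3) .nil)))))))) (.g (nat_lit 1) (.e (nat_lit 171002) (nat_lit 0) .nil) .nil)))) 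
(.nd (nat_lit 9) 
(.lf (nat_lit 501234) (.g (nat_lit 2614) (.e (nat_lit 163978) (nat_lit 30) (.e (nat_lit 573484) (nat_lit 13) (.e (nat_lit 65610) (nat_lit 10) (.e (nat_lit 344117) (nat_lit 21) (.e (nat_lit 516152) (nat_lit 9) (.e (nat_lit 426025) (nat_lit 0) (.e (nat_lit 3397) (nat_lit 211) (.e (nat_lit 647181) (nat_lit 3) .nil)))))))) (.g (nat_lit 1) (.e (nat_lit 170604) (nat_lit 0) .nil) .nil))) 
(.lf (nat_lit 501746) (.g (nat_lit 4378) (.e (nat_lit 163978) (nat_lit 30) (.e (nat_lit 573489) (nat_lit 14) (.e (nat_lit 73754) (nat_lit 8) (.e (nat_lit 557100) (nat_lit 13) (.e (nat_lit 172065) (nat_lit 3) (.e (nat_lit 204817) (nat_lit 17) (.e (nat_lit 7936) (nat_lit 149) (.e (nat_lit 761897) (nat_lit 15) .nil)))))))) (.g (nat_lit 1) (.e (nat_lit 171403) (nat_lit 0) .nil) .nil))))))))) 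
(.nd (nat_lit 4) (.nd (nat_lit 5) (.nd (nat_lit 6) (.nd (nat_lit 7) (.nd (nat_lit 8) 
(.nd (nat_lit 9) 
(.lf (nat_lit 500746) (.g (nat_lit 2488) (.e (nat_lit 163977) (nat_lit 30) (.e (nat_lit 573491) (nat_lit 15) (.e (nat_lit 81954) (nat_lit 23) (.e (nat_lit 98356) (nat_lit 26) (.e (nat_lit 426439) (nat_lit 19) (.e (nat_lit 114432) (nat_lit 3) .nil)))))) (.g (nat_lit 1) (.e (nat_lit 169402) (nat_lit 0) .nil) .nil))) 
(.lf (nat_lit 501258) (.g (nat_lit 2187) (.e (nat_lit 163978) (nat_lit 30) (.e (nat_lit 573484) (nat_lit 13) (.e (nat_lit 65610) (nat_lit 10) (.e (nat_lit 344117) (nat_lit 21) (.e (nat_lit 516180) (nat_lit 15) .nil))))) (.g (nat_lit 0) (.e (nat_lit 170683) (nat_lit 0) .nil) .nil)))) (.nd (nat_lit 9) 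
(.lf (nat_lit 501002) (.g (nat_lit 2999) (.e (nat_lit 163977) (nat_lit 30) (.e (nat_lit 573493) (nat_lit 15) (.e (nat_lit 81956) (nat_lit 23) (.e (nat_lit 98367) (nat_lit 27) (.e (nat_lit 434200) (nat_lit 18) .nil))))) (.g (nat_lit 0) (.e (nat_lit 170147) (nat_lit 0) .nil) .nil))) 
(.lf (nat_lit 501514) (.g (nat_lit 3915) (.e (nat_lit 163978) (nat_lit 30) (.e (nat_lit 573485) (nat_lit 13) (.e (nat_lit 65619) (nat_lit 10) (.e (nat_lit 344117) (nat_lit 21) (.e (nat_lit 516145) (nat_lit 9) (.e (nat_lit 426393) (nat_lit 15) (.e (nat_lit 2059) (nat_lit 142) (.e (nat_lit 704589) (nat_lit 3) .nil)))))))) (.g (nat_lit 1) (.e (nat_lit 171026) (nat_lit 0) .nil) .nil))))) 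
(.nd (nat_lit 8) (.nd (nat_lit 9) 
(.lf (nat_lit 500874) (.g (nat_lit 4355) (.e (nat_lit 163977) (nat_lit 30) (.e (nat_lit 573493) (nat_lit 15) (.e (nat_lit 81953) (nat_lit 22) (.e (nat_lit 90170) (nat_lit 13) (.e (nat_lit 172035) (nat_lit 0) (.e (nat_lit 3397) (nat_lit 211) (.e (nat_lit 647181) (nat_lit 3) .nil))))))) (.g (nat_lit 1) (.e (nat_lit 169827) (nat_lit 0) .nil) .nil))) 
(.lf (nat_lit 501386) (.g (nat_lit 2222) (.e (nat_lit 163978) (nat_lit 30) (.e (nat_lit 573485) (nat_lit 13) (.e (nat_lit 65604) (nat_lit 9) (.e (nat_lit 336028) (nat_lit 3) (.e (nat_lit 98359) (nat_lit 26) (.e (nat_lit 426039) (nat_lit 0) (.e (nat_lit 3403) (nat_lit 212) (.e (nat_lit 655373) (nat_lit 3) .nil)))))))) (.g (nat_lit 1) (.e (nat_lit 170841) (nat_lit 0) .nil) .nil)))) (.nd (nat_lit 9) 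
(.lf (nat_lit 501130) (.g (nat_lit 2099) (.e (nat_lit 163978) (nat_lit 30) (.e (nat_lit 573484) (nat_lit 13) (.e (nat_lit 65610) (nat_lit 10) (.e (nat_lit 344116) (nat_lit 21) (.e (nat_lit 516148) (nat_lit 9) .nil))))) (.g (nat_lit 0) (.e (nat_lit 170412) (nat_lit 0) .nil) .nil))) 
(.lf (nat_lit 501642) (.g (nat_lit 4028) (.e (nat_lit 163978) (nat_lit 30) (.e (nat_lit 573485) (nat_lit 13) (.e (nat_lit 65619) (nat_lit 10) (.e (nat_lit 344117) (nat_lit 21) (.e (nat_lit 516159) (nat_lit 10) (.e (nat_lit 434271) (nat_lit 38) (.e (nat_lit 655373) (nat_lit 3) .nil))))))) (.g (nat_lit 1) (.e (nat_lit 171159) (nat_lit 0) .nil) .nil)))))) 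
(.nd (nat_lit 7) (.nd (nat_lit 8) (.nd (nat_lit 9) 
(.lf (nat_lit 500810) (.g (nat_lit 3352) (.e (nat_lit 163977) (nat_lit 30) (.e (nat_lit 573492) (nat_lit 15) (.e (nat_lit 81956) (nat_lit 23) (.e (nat_lit 98357) (nat_lit 26) (.e (nat_lit 426444) (nat_lit 19) (.e (nat_lit 114432) (nat_lit 3) .nil)))))) (.g (nat_lit 1) (.e (nat_lit 169593) (nat_lit 0) .nil) .nil))) 
(.lf (nat_lit 501322) (.g (nat_lit 4560) (.e (nat_lit 163978) (nat_lit 30) (.e (nat_lit 573485) (nat_lit 13) (.e (nat_lit 65604) (nat_lit 9) (.e (nat_lit 336013) (nat_lit 2) (.e (nat_lit 90170) (nat_lit 13) (.e (nat_lit 172059) (nat_lit 1) (.e (nat_lit 164348) (nat_lit 240) (.e (nat_lit 2599) (nat_lit 163) .nil)))))))) (.g (nat_lit 1) (.e (nat_lit 170765) (nat_lit 0) .nil) .nil)))) 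
(.nd (nat_lit 9) 
(.lf (nat_lit 501066) (.g (nat_lit 4443) (.e (nat_lit 163978) (nat_lit 30) (.e (nat_lit 573479) (nat_lit 13) (.e (nat_lit 65619) (nat_lit 10) (.e (nat_lit 344117) (nat_lit 21) (.e (nat_lit 516151) (nat_lit 9) (.e (nat_lit 426042) (nat_lit 0) (.e (nat_lit 3409) (nat_lit 212) (.e (nat_lit 655373) (nat_lit 3) .nil)))))))) (.g (nat_lit 1) (.e (nat_lit 170331) (nat_lit 0) .nil) .nil))) 
(.lf (nat_lit 501578) (.g (nat_lit 4179) (.e (nat_lit 163978) (nat_lit 30) (.e (nat_lit 573485) (nat_lit 13) (.e (nat_lit 65619) (nat_lit 10) (.e (nat_lit 344117) (nat_lit 21) (.e (nat_lit 516151) (nat_lit 9) (.e (nat_lit 426104) (nat_lit 1) (.e (nat_lit 164348) (nat_lit 240) (.e (nat_lit 2599) (nat_lit 163) .nil)))))))) (.g (nat_lit 1) (.e (nat_lit 171090) (nat_lit 0) .nil) .nil))))) 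
(.nd (nat_lit 8) (.nd (nat_lit 9) 
(.lf (nat_lit 500938) (.g (nat_lit 3814) (.e (nat_lit 163977) (nat_lit 30) (.e (nat_lit 573493) (nat_lit 15) (.e (nat_lit 81954) (nat_lit 23) (.e (nat_lit 98384) (nat_lit 32) (.e (nat_lit 475201) (nat_lit 40) (.e (nat_lit 712448) (nat_lit 3) .nil)))))) (.g (nat_lit 1) (.e (nat_lit 169973) (nat_lit 0) .nil) .nil))) 
(.lf (nat_lit 501450) (.g (nat_lit 3919) (.e (nat_lit 163978) (nat_lit 30) (.e (nat_lit 573485) (nat_lit 13) (.e (nat_lit 65604) (nat_lit 9) (.e (nat_lit 336028) (nat_lit 3) (.e (nat_lit 98384) (nat_lit 32) (.e (nat_lit 475198) (nat_lit 40) (.e (nat_lit 704589) (nat_lit 3) .nil))))))) (.g (nat_lit 1) (.e (nat_lit 170954) (nat_lit 0) .nil) .nil)))) (.nd (nat_lit 9) 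
(.lf (nat_lit 501194) (.g (nat_lit 4637) (.e (nat_lit 163978) (nat_lit 30) (.e (nat_lit 573484) (nat_lit 13) (.e (nat_lit 65610) (nat_lit 10) (.e (nat_lit 344117) (nat_lit 21) (.e (nat_lit 516151) (nat_lit 9) (.e (nat_lit 426038) (nat_lit 0) (.e (nat_lit 2515) (nat_lit 157) (.e (nat_lit 5448) (nat_lit 306) (.e (nat_lit 2612) (nat_lit 163) .nil))))))))) (.g (nat_lit 1) (.e (nat_lit 170518) (nat_lit 0) .nil) .nil))) 
(.lf (nat_lit 501706) (.g (nat_lit 2553) (.e (nat_lit 163978) (nat_lit 30) (.e (nat_lit 573485) (nat_lit 13) (.e (nat_lit 65619) (nat_lit 10) (.e (nat_lit 344117) (nat_lit 21) (.e (nat_lit 516182) (nat_lit 15) (.e (nat_lit 475197) (nat_lit 40) (.e (nat_lit 704589) (nat_lit 3) .nil))))))) (.g (nat_lit 1) (.e (nat_lit 171232) (nat_lit 0) .nil) .nil))))))) 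
(.nd (nat_lit 6) (.nd (nat_lit 7) (.nd (nat_lit 8) (.nd (nat_lit 9) 
(.lf (nat_lit 500778) (.g (nat_lit 2577) (.e (nat_lit 163977) (nat_lit 30) (.e (nat_lit 573491) (nat_lit 15) (.e (nat_lit 81954) (nat_lit 23) (.e (nat_lit 98367) (nat_lit 27) (.e (nat_lit 434271) (nat_lit 38) (.e (nat_lit 655374) (nat_lit 3) .nil)))))) (.g (nat_lit 1) (.e (nat_lit 169494) (nat_lit 0) .nil) .nil))) 
(.lf (nat_lit 501290) (.g (nat_lit 2604) (.e (nat_lit 163978) (nat_lit 30) (.e (nat_lit 573485) (nat_lit 13) (.e (nat_lit 65604) (nat_lit 9) (.e (nat_lit 336013) (nat_lit 2) (.e (nat_lit 90170) (nat_lit 13) (.e (nat_lit 172042) (nat_lit 0) (.e (nat_lit 2458) (nat_lit 157) (.e (nat_lit 5548) (nat_lit 306) (.e (nat_lit 2601) (nat_lit 163) .nil))))))))) (.g (nat_lit 1) (.e (nat_lit 170732) (nat_lit 0) .nil) .nil)))) 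
(.nd (nat_lit 9) 
(.lf (nat_lit 501034) (.g (nat_lit 2792) (.e (nat_lit 163978) (nat_lit 30) (.e (nat_lit 573479) (nat_lit 13) (.e (nat_lit 65604) (nat_lit 9) (.e (nat_lit 336028) (nat_lit 3) (.e (nat_lit 98367) (nat_lit 27) (.e (nat_lit 434272) (nat_lit 38) (.e (nat_lit 655374) (nat_lit 3) .nil))))))) (.g (nat_lit 1) (.e (nat_lit 170299) (nat_lit 0) .nil) .nil))) 
(.lf (nat_lit 501546) (.g (nat_lit 4304) (.e (nat_lit 163978) (nat_lit 30) (.e (nat_lit 573485) (nat_lit 13) (.e (nat_lit 65619) (nat_lit 10) (.e (nat_lit 344117) (nat_lit 21) (.e (nat_lit 516151) (nat_lit 9) (.e (nat_lit 426042) (nat_lit 0) (.e (nat_lit 2458) (nat_lit 157) (.e (nat_lit 5547) (nat_lit 306) (.e (nat_lit 2599) (nat_lit 163) .nil))))))))) (.g (nat_lit 1) (.e (nat_lit 171058) (nat_lit 0) .nil) .nil))))) 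
(.nd (nat_lit 8) (.nd (nat_lit 9) 
(.lf (nat_lit 500906) (.g (nat_lit 4390) (.e (nat_lit 163977) (nat_lit 30) (.e (nat_lit 573493) (nat_lit 15) (.e (nat_lit 81953) (nat_lit 22) (.e (nat_lit 90183) (nat_lit 17) .nil)))) (.g (nat_lit 0) (.e (nat_lit 169893) (nat_lit 0) .nil) .nil))) 
(.lf (nat_lit 501418) (.g (nat_lit 1833) (.e (nat_lit 163978) (nat_lit 30) (.e (nat_lit 573485) (nat_lit 13) (.e (nat_lit 65604) (nat_lit 9) (.e (nat_lit 336028) (nat_lit 3) (.e (nat_lit 98366) (nat_lit 27) .nil))))) (.g (nat_lit 0) (.e (nat_lit 170906) (nat_lit 0) .nil) .nil)))) (.nd (nat_lit 9) 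
(.lf (nat_lit 501162) (.g (nat_lit 3097) (.e (nat_lit 163978) (nat_lit 30) (.e (nat_lit 573484) (nat_lit 13) (.e (nat_lit 65610) (nat_lit 10) (.e (nat_lit 344117) (nat_lit 21) (.e (nat_lit 516145) (nat_lit 9) (.e (nat_lit 426467) (nat_lit 24) (.e (nat_lit 163584) (nat_lit 3) .nil))))))) (.g (nat_lit 1) (.e (nat_lit 170474) (nat_lit 0) .nil) .nil))) 
(.lf (nat_lit 501674) (.g (nat_lit 2745) (.e (nat_lit 163978) (nat_lit 30) (.e (nat_lit 573485) (nat_lit 13) (.e (nat_lit 65619) (nat_lit 10) (.e (nat_lit 344117) (nat_lit 21) (.e (nat_lit 516169) (nat_lit 13) (.e (nat_lit 458774) (nat_lit 18) (.e (nat_lit 5547) (nat_lit 306) (.e (nat_lit 2601) (nat_lit 163) .nil)))))))) (.g (nat_lit 1) (.e (nat_lit 171196) (nat_lit 0) .nil) .nil)))))) 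
(.nd (nat_lit 7) (.nd (nat_lit 8) (.nd (nat_lit 9) 
(.lf (nat_lit 500842) (.g (nat_lit 4070) (.e (nat_lit 163977) (nat_lit 30) (.e (nat_lit 573493) (nat_lit 15) (.e (nat_lit 81951) (nat_lit 22) (.e (nat_lit 90170) (nat_lit 13) (.e (nat_lit 172033) (nat_lit 0) (.e (nat_lit 3399) (nat_lit 211) (.e (nat_lit 647181) (nat_lit 3) .nil))))))) (.g (nat_lit 1) (.e (nat_lit 169693) (nat_lit 0) .nil) .nil))) 
(.lf (nat_lit 501354) (.g (nat_lit 3245) (.e (nat_lit 163978) (nat_lit 30) (.e (nat_lit 573485) (nat_lit 13) (.e (nat_lit 65604) (nat_lit 9) (.e (nat_lit 336013) (nat_lit 2) (.e (nat_lit 90170) (nat_lit 13) (.e (nat_lit 172070) (nat_lit 4) (.e (nat_lit 229664) (nat_lit 240) (.e (nat_lit 2603) (nat_lit 163) .nil)))))))) (.g (nat_lit 1) (.e (nat_lit 170799) (nat_lit 0) .nil) .nil)))) 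
(.nd (nat_lit 9) 
(.lf (nat_lit 501098) (.g (nat_lit 3189) (.e (nat_lit 163978) (nat_lit 30) (.e (nat_lit 573479) (nat_lit 13) (.e (nat_lit 65619) (nat_lit 10) (.e (nat_lit 344117) (nat_lit 21) (.e (nat_lit 516161) (nat_lit 10) (.e (nat_lit 434272) (nat_lit 38) (.e (nat_lit 655375) (nat_lit 3) .nil))))))) (.g (nat_lit 1) (.e (nat_lit 170363) (nat_lit 0) .nil) .nil))) 
(.lf (nat_lit 501610) (.g (nat_lit 2571) (.e (nat_lit 163978) (nat_lit 30) (.e (nat_lit 573485) (nat_lit 13) (.e (nat_lit 65619) (nat_lit 10) (.e (nat_lit 344117) (nat_lit 21) (.e (nat_lit 516152) (nat_lit 9) (.e (nat_lit 426414) (nat_lit 15) (.e (nat_lit 2058) (nat_lit 142) (.e (nat_lit 704589) (nat_lit 3) .nil)))))))) (.g (nat_lit 1) (.e (nat_lit 171122) (nat_lit 0) .nil) .nil))))) 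
(.nd (nat_lit 8) (.nd (nat_lit 9) 
(.lf (nat_lit 500970) (.g (nat_lit 2826) (.e (nat_lit 163977) (nat_lit 30) (.e (nat_lit 573493) (nat_lit 15) (.e (nat_lit 81956) (nat_lit 23) (.e (nat_lit 98359) (nat_lit 26) (.e (nat_lit 426046) (nat_lit 0) .nil))))) (.g (nat_lit 0) (.e (nat_lit 170071) (nat_lit 0) .nil) .nil))) 
(.lf (nat_lit 501482) (.g (nat_lit 2400) (.e (nat_lit 163978) (nat_lit 30) (.e (nat_lit 573485) (nat_lit 13) (.e (nat_lit 65619) (nat_lit 10) (.e (nat_lit 344117) (nat_lit 21) (.e (nat_lit 516144) (nat_lit 9) (.e (nat_lit 426374) (nat_lit 15) (.e (nat_lit 2057) (nat_lit 142) (.e (nat_lit 704589) (nat_lit 3) .nil)))))))) (.g (nat_lit 1) (.e (nat_lit 170994) (nat_lit 0) .nil) .nil)))) 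
(.nd (nat_lit 9) 
(.lf (nat_lit 501226) (.g (nat_lit 4003) (.e (nat_lit 163978) (nat_lit 30) (.e (nat_lit 573484) (nat_lit 13) (.e (nat_lit 65610) (nat_lit 10) (.e (nat_lit 344117) (nat_lit 21) (.e (nat_lit 516151) (nat_lit 9) (.e (nat_lit 426097) (nat_lit 1) (.e (nat_lit 164348) (nat_lit 240) (.e (nat_lit 2601) (nat_lit 163) .nil)))))))) (.g (nat_lit 1) (.e (nat_lit 170577) (nat_lit 0) .nil) .nil))) 
(.lf (nat_lit 501738) (.g (nat_lit 775) (.e (nat_lit 163978) (nat_lit 30) (.e (nat_lit 573489) (nat_lit 14) (.e (nat_lit 73753) (nat_lit 8) .nil))) (.g (nat_lit 0) (.e (nat_lit 171384) (nat_lit 0) .nil) .nil)))))))) (.nd (nat_lit 5) (.nd (nat_lit 6) (.nd (nat_lit 7) (.nd (nat_lit 8) (.nd (nat_lit 9) 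
(.lf (nat_lit 500762) (.g (nat_lit 2365) (.e (nat_lit 163977) (nat_lit 30) (.e (nat_lit 573491) (nat_lit 15) (.e (nat_lit 81954) (nat_lit 23) (.e (nat_lit 98359) (nat_lit 26) (.e (nat_lit 426146) (nat_lit 4) (.e (nat_lit 229663) (nat_lit 240) (.e (nat_lit 2612) (nat_lit 163) .nil))))))) (.g (nat_lit 1) (.e (nat_lit 169439) (nat_lit 0) .nil) .nil))) 
(.lf (nat_lit 501274) (.g (nat_lit 3485) (.e (nat_lit 163978) (nat_lit 30) (.e (nat_lit 573485) (nat_lit 13) (.e (nat_lit 65604) (nat_lit 9) (.e (nat_lit 336013) (nat_lit 2) (.e (nat_lit 90170) (nat_lit 13) (.e (nat_lit 172032) (nat_lit 0) (.e (nat_lit 3402) (nat_lit 211) (.e (nat_lit 647180) (nat_lit 3) .nil)))))))) (.g (nat_lit 1) (.e (nat_lit 170715) (nat_lit 0) .nil) .nil)))) (.nd (nat_lit 9) 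
(.lf (nat_lit 501018) (.g (nat_lit 2909) (.e (nat_lit 163977) (nat_lit 30) (.e (nat_lit 573493) (nat_lit 15) (.e (nat_lit 81956) (nat_lit 23) (.e (nat_lit 98368) (nat_lit 27) (.e (nat_lit 434211) (nat_lit 18) .nil))))) (.g (nat_lit 0) (.e (nat_lit 170211) (nat_lit 0) .nil) .nil))) 
(.lf (nat_lit 501530) (.g (nat_lit 3355) (.e (nat_lit 163978) (nat_lit 30) (.e (nat_lit 573485) (nat_lit 13) (.e (nat_lit 65619) (nat_lit 10) (.e (nat_lit 344117) (nat_lit 21) (.e (nat_lit 516148) (nat_lit 9) (.e (nat_lit 426444) (nat_lit 19) (.e (nat_lit 114432) (nat_lit 3) .nil))))))) (.g (nat_lit 1) (.e (nat_lit 171042) (nat_lit 0) .nil) .nil))))) (.nd (nat_lit 8) (.nd (nat_lit 9) 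
(.lf (nat_lit 500890) (.g (nat_lit 3429) (.e (nat_lit 163977) (nat_lit 30) (.e (nat_lit 573493) (nat_lit 15) (.e (nat_lit 81953) (nat_lit 22) (.e (nat_lit 90170) (nat_lit 13) (.e (nat_lit 172051) (nat_lit 0) .nil))))) (.g (nat_lit 0) (.e (nat_lit 169848) (nat_lit 0) .nil) .nil))) 
(.lf (nat_lit 501402) (.g (nat_lit 3048) (.e (nat_lit 163978) (nat_lit 30) (.e (nat_lit 573485) (nat_lit 13) (.e (nat_lit 65604) (nat_lit 9) (.e (nat_lit 336028) (nat_lit 3) (.e (nat_lit 98361) (nat_lit 26) (.e (nat_lit 426025) (nat_lit 0) (.e (nat_lit 3397) (nat_lit 211) (.e (nat_lit 647180) (nat_lit 3) .nil)))))))) (.g (nat_lit 1) (.e (nat_lit 170883) (nat_lit 0) .nil) .nil)))) (.nd (nat_lit 9) 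
(.lf (nat_lit 501146) (.g (nat_lit 2824) (.e (nat_lit 163978) (nat_lit 30) (.e (nat_lit 573484) (nat_lit 13) (.e (nat_lit 65610) (nat_lit 10) (.e (nat_lit 344117) (nat_lit 21) (.e (nat_lit 516145) (nat_lit 9) (.e (nat_lit 425992) (nat_lit 0) (.e (nat_lit 2475) (nat_lit 157) (.e (nat_lit 5547) (nat_lit 306) (.e (nat_lit 2610) (nat_lit 163) .nil))))))))) (.g (nat_lit 1) (.e (nat_lit 170440) (nat_lit 0) .nil) .nil))) 
(.lf (nat_lit 501658) (.g (nat_lit 4496) (.e (nat_lit 163978) (nat_lit 30) (.e (nat_lit 573485) (nat_lit 13) (.e (nat_lit 65619) (nat_lit 10) (.e (nat_lit 344117) (nat_lit 21) (.e (nat_lit 516160) (nat_lit 10) (.e (nat_lit 434271) (nat_lit 38) (.e (nat_lit 655373) (nat_lit 3) .nil))))))) (.g (nat_lit 1) (.e (nat_lit 171179) (nat_lit 0) .nil) .nil)))))) 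
(.nd (nat_lit 7) (.nd (nat_lit 8) (.nd (nat_lit 9) 
(.lf (nat_lit 500826) (.g (nat_lit 2162) (.e (nat_lit 163977) (nat_lit 30) (.e (nat_lit 573492) (nat_lit 15) (.e (nat_lit 81956) (nat_lit 23) (.e (nat_lit 98378) (nat_lit 30) .nil)))) (.g (nat_lit 0) (.e (nat_lit 169620) (nat_lit 0) .nil) .nil))) 
(.lf (nat_lit 501338) (.g (nat_lit 4351) (.e (nat_lit 163978) (nat_lit 30) (.e (nat_lit 573485) (nat_lit 13) (.e (nat_lit 65604) (nat_lit 9) (.e (nat_lit 336013) (nat_lit 2) (.e (nat_lit 90170) (nat_lit 13) (.e (nat_lit 172068) (nat_lit 4) (.e (nat_lit 229663) (nat_lit 240) (.e (nat_lit 2602) (nat_lit 163) .nil)))))))) (.g (nat_lit 1) (.e (nat_lit 170783) (nat_lit 0) .nil) .nil)))) 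
(.nd (nat_lit 9) 
(.lf (nat_lit 501082) (.g (nat_lit 4095) (.e (nat_lit 163978) (nat_lit 30) (.e (nat_lit 573479) (nat_lit 13) (.e (nat_lit 65619) (nat_lit 10) (.e (nat_lit 344117) (nat_lit 21) (.e (nat_lit 516159) (nat_lit 10) (.e (nat_lit 434202) (nat_lit 18) (.e (nat_lit 5537) (nat_lit 306) (.e (nat_lit 2611) (nat_lit 163) .nil)))))))) (.g (nat_lit 1) (.e (nat_lit 170347) (nat_lit 0) .nil) .nil))) 
(.lf (nat_lit 501594) (.g (nat_lit 4345) (.e (nat_lit 163978) (nat_lit 30) (.e (nat_lit 573485) (nat_lit 13) (.e (nat_lit 65619) (nat_lit 10) (.e (nat_lit 344117) (nat_lit 21) (.e (nat_lit 516151) (nat_lit 9) (.e (nat_lit 426414) (nat_lit 15) (.e (nat_lit 2059) (nat_lit 142) (.e (nat_lit 704589) (nat_lit 3) .nil)))))))) (.g (nat_lit 1) (.e (nat_lit 171106) (nat_lit 0) .nil) .nil))))) 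
(.nd (nat_lit 8) (.nd (nat_lit 9) 
(.lf (nat_lit 500954) (.g (nat_lit 3196) (.e (nat_lit 163977) (nat_lit 30) (.e (nat_lit 573493) (nat_lit 15) (.e (nat_lit 81956) (nat_lit 23) (.e (nat_lit 98357) (nat_lit 26) (.e (nat_lit 426442) (nat_lit 19) (.e (nat_lit 114432) (nat_lit 3) .nil)))))) (.g (nat_lit 1) (.e (nat_lit 170040) (nat_lit 0) .nil) .nil))) 
(.lf (nat_lit 501466) (.g (nat_lit 3592) (.e (nat_lit 163978) (nat_lit 30) (.e (nat_lit 573485) (nat_lit 13) (.e (nat_lit 65619) (nat_lit 10) (.e (nat_lit 344117) (nat_lit 21) (.e (nat_lit 516143) (nat_lit 9) (.e (nat_lit 426025) (nat_lit 0) (.e (nat_lit 3397) (nat_lit 211) (.e (nat_lit 647180) (nat_lit 3) .nil)))))))) (.g (nat_lit 1) (.e (nat_lit 170978) (nat_lit 0) .nil) .nil)))) 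
(.nd (nat_lit 9) 
(.lf (nat_lit 501210) (.g (nat_lit 2986) (.e (nat_lit 163978) (nat_lit 30) (.e (nat_lit 573484) (nat_lit 13) (.e (nat_lit 65610) (nat_lit 10) (.e (nat_lit 344117) (nat_lit 21) (.e (nat_lit 516151) (nat_lit 9) (.e (nat_lit 426045) (nat_lit 0) (.e (nat_lit 3403) (nat_lit 212) (.e (nat_lit 655374) (nat_lit 3) .nil)))))))) (.g (nat_lit 1) (.e (nat_lit 170550) (nat_lit 0) .nil) .nil))) 
(.lf (nat_lit 501722) (.g (nat_lit 4134) (.e (nat_lit 163978) (nat_lit 30) (.e (nat_lit 573487) (nat_lit 14) (.e (nat_lit 73753) (nat_lit 8) (.e (nat_lit 557103) (nat_lit 14) (.e (nat_lit 180243) (nat_lit 5) (.e (nat_lit 532489) (nat_lit 0) (.e (nat_lit 7936) (nat_lit 149) (.e (nat_lit 761898) (nat_lit 15) .nil)))))))) (.g (nat_lit 1) (.e (nat_lit 171338) (nat_lit 0) .nil) .nil))))))) 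
(.nd (nat_lit 6) (.nd (nat_lit 7) (.nd (nat_lit 8) (.nd (nat_lit 9) 
(.lf (nat_lit 500794) (.g (nat_lit 3020) (.e (nat_lit 163977) (nat_lit 30) (.e (nat_lit 573492) (nat_lit 15) (.e (nat_lit 81953) (nat_lit 22) (.e (nat_lit 90170) (nat_lit 13) .nil)))) (.g (nat_lit 0) (.e (nat_lit 169535) (nat_lit 0) .nil) .nil))) 
(.lf (nat_lit 501306) (.g (nat_lit 2723) (.e (nat_lit 163978) (nat_lit 30) (.e (nat_lit 573485) (nat_lit 13) (.e (nat_lit 65604) (nat_lit 9) (.e (nat_lit 336013) (nat_lit 2) (.e (nat_lit 90170) (nat_lit 13) (.e (nat_lit 172049) (nat_lit 0) (.e (nat_lit 2458) (nat_lit 157) (.e (nat_lit 5546) (nat_lit 306) (.e (nat_lit 2600) (nat_lit 163) .nil))))))))) (.g (nat_lit 1) (.e (nat_lit 170748) (nat_lit 0) .nil) .nil)))) 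
(.nd (nat_lit 9) 
(.lf (nat_lit 501050) (.g (nat_lit 3872) (.e (nat_lit 163978) (nat_lit 30) (.e (nat_lit 573479) (nat_lit 13) (.e (nat_lit 65619) (nat_lit 10) (.e (nat_lit 344117) (nat_lit 21) (.e (nat_lit 516151) (nat_lit 9) (.e (nat_lit 426038) (nat_lit 0) (.e (nat_lit 2458) (nat_lit 157) (.e (nat_lit 5546) (nat_lit 306) (.e (nat_lit 2611) (nat_lit 163) .nil))))))))) (.g (nat_lit 1) (.e (nat_lit 170315) (nat_lit 0) .nil) .nil))) 
(.lf (nat_lit 501562) (.g (nat_lit 2404) (.e (nat_lit 163978) (nat_lit 30) (.e (nat_lit 573485) (nat_lit 13) (.e (nat_lit 65619) (nat_lit 10) (.e (nat_lit 344117) (nat_lit 21) (.e (nat_lit 516151) (nat_lit 9) (.e (nat_lit 426043) (nat_lit 0) (.e (nat_lit 3407) (nat_lit 212) (.e (nat_lit 655374) (nat_lit 3) .nil)))))))) (.g (nat_lit 1) (.e (nat_lit 171074) (nat_lit 0) .nil) .nil))))) 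
(.nd (nat_lit 8) (.nd (nat_lit 9) 
(.lf (nat_lit 500922) (.g (nat_lit 4264) (.e (nat_lit 163977) (nat_lit 30) (.e (nat_lit 573493) (nat_lit 15) (.e (nat_lit 81954) (nat_lit 23) (.e (nat_lit 98359) (nat_lit 26) (.e (nat_lit 426097) (nat_lit 1) (.e (nat_lit 164348) (nat_lit 240) (.e (nat_lit 2610) (nat_lit 163) .nil))))))) (.g (nat_lit 1) (.e (nat_lit 169929) (nat_lit 0) .nil) .nil))) 
(.lf (nat_lit 501434) (.g (nat_lit 2986) (.e (nat_lit 163978) (nat_lit 30) (.e (nat_lit 573485) (nat_lit 13) (.e (nat_lit 65604) (nat_lit 9) (.e (nat_lit 336028) (nat_lit 3) (.e (nat_lit 98367) (nat_lit 27) (.e (nat_lit 434209) (nat_lit 18) (.e (nat_lit 5546) (nat_lit 306) (.e (nat_lit 2601) (nat_lit 163) .nil)))))))) (.g (nat_lit 1) (.e (nat_lit 170932) (nat_lit 0) .nil) .nil)))) 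
(.nd (nat_lit 9) 
(.lf (nat_lit 501178) (.g (nat_lit 3114) (.e (nat_lit 163978) (nat_lit 30) (.e (nat_lit 573484) (nat_lit 13) (.e (nat_lit 65610) (nat_lit 10) (.e (nat_lit 344117) (nat_lit 21) (.e (nat_lit 516151) (nat_lit 9) (.e (nat_lit 426017) (nat_lit 0) (.e (nat_lit 3403) (nat_lit 212) (.e (nat_lit 655374) (nat_lit 3) .nil)))))))) (.g (nat_lit 1) (.e (nat_lit 170490) (nat_lit 0) .nil) .nil))) 
(.lf (nat_lit 501690) (.g (nat_lit 2808) (.e (nat_lit 163978) (nat_lit 30) (.e (nat_lit 573485) (nat_lit 13) (.e (nat_lit 65619) (nat_lit 10) (.e (nat_lit 344117) (nat_lit 21) (.e (nat_lit 516172) (nat_lit 13) (.e (nat_lit 458774) (nat_lit 18) (.e (nat_lit 5548) (nat_lit 306) (.e (nat_lit 2610) (nat_lit 163) .nil)))))))) (.g (nat_lit 1) (.e (nat_lit 171216) (nat_lit 0) .nil) .nil)))))) 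
(.nd (nat_lit 7) (.nd (nat_lit 8) (.nd (nat_lit 9) 
(.lf (nat_lit 500858) (.g (nat_lit 3711) (.e (nat_lit 163977) (nat_lit 30) (.e (nat_lit 573493) (nat_lit 15) (.e (nat_lit 81951) (nat_lit 22) (.e (nat_lit 90170) (nat_lit 13) (.e (nat_lit 172068) (nat_lit 4) (.e (nat_lit 229663) (nat_lit 240) (.e (nat_lit 2604) (nat_lit 163) .nil))))))) (.g (nat_lit 1) (.e (nat_lit 169733) (nat_lit 0) .nil) .nil))) 
(.lf (nat_lit 501370) (.g (nat_lit 1052) (.e (nat_lit 163978) (nat_lit 30) (.e (nat_lit 573485) (nat_lit 13) (.e (nat_lit 65604) (nat_lit 9) (.e (nat_lit 336028) (nat_lit 3) .nil)))) (.g (nat_lit 0) (.e (nat_lit 170815) (nat_lit 0) .nil) .nil)))) (.nd (nat_lit 9) 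
(.lf (nat_lit 501114) (.g (nat_lit 2271) (.e (nat_lit 163978) (nat_lit 30) (.e (nat_lit 573482) (nat_lit 13) (.e (nat_lit 65589) (nat_lit 9) (.e (nat_lit 336028) (nat_lit 3) (.e (nat_lit 98367) (nat_lit 27) .nil))))) (.g (nat_lit 0) (.e (nat_lit 170379) (nat_lit 0) .nil) .nil))) 
(.lf (nat_lit 501626) (.g (nat_lit 2445) (.e (nat_lit 163978) (nat_lit 30) (.e (nat_lit 573485) (nat_lit 13) (.e (nat_lit 65619) (nat_lit 10) (.e (nat_lit 344117) (nat_lit 21) (.e (nat_lit 516157) (nat_lit 9) .nil))))) (.g (nat_lit 0) (.e (nat_lit 171138) (nat_lit 0) .nil) .nil))))) (.nd (nat_lit 8) (.nd (nat_lit 9) 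
(.lf (nat_lit 500986) (.g (nat_lit 3641) (.e (nat_lit 163977) (nat_lit 30) (.e (nat_lit 573493) (nat_lit 15) (.e (nat_lit 81956) (nat_lit 23) (.e (nat_lit 98364) (nat_lit 26) .nil)))) (.g (nat_lit 0) (.e (nat_lit 170112) (nat_lit 0) .nil) .nil))) 
(.lf (nat_lit 501498) (.g (nat_lit 3280) (.e (nat_lit 163978) (nat_lit 30) (.e (nat_lit 573485) (nat_lit 13) (.e (nat_lit 65619) (nat_lit 10) (.e (nat_lit 344117) (nat_lit 21) (.e (nat_lit 516144) (nat_lit 9) (.e (nat_lit 426466) (nat_lit 24) (.e (nat_lit 163584) (nat_lit 3) .nil))))))) (.g (nat_lit 1) (.e (nat_lit 171010) (nat_lit 0) .nil) .nil)))) (.nd (nat_lit 9) 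
(.lf (nat_lit 501242) (.g (nat_lit 2032) (.e (nat_lit 163978) (nat_lit 30) (.e (nat_lit 573484) (nat_lit 13) (.e (nat_lit 65610) (nat_lit 10) (.e (nat_lit 344117) (nat_lit 21) (.e (nat_lit 516160) (nat_lit 10) .nil))))) (.g (nat_lit 0) (.e (nat_lit 170629) (nat_lit 0) .nil) .nil))) 
(.lf (nat_lit 501754) (.g (nat_lit 3245) (.e (nat_lit 163978) (nat_lit 30) (.e (nat_lit 573489) (nat_lit 14) (.e (nat_lit 73754) (nat_lit 8) (.e (nat_lit 557100) (nat_lit 13) (.e (nat_lit 172067) (nat_lit 3) (.e (nat_lit 204815) (nat_lit 17) (.e (nat_lit 2271) (nat_lit 149) (.e (nat_lit 761899) (nat_lit 15) .nil)))))))) (.g (nat_lit 1) (.e (nat_lit 171423) (nat_lit 0) .nil) .nil)))))))))) 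
(.nd (nat_lit 3) (.nd (nat_lit 4) (.nd (nat_lit 5) (.nd (nat_lit 6) (.nd (nat_lit 7) 
(.nd (nat_lit 8) (.nd (nat_lit 9) 
(.lf (nat_lit 500742) (.g (nat_lit 349) (.e (nat_lit 163977) (nat_lit 30) (.e (nat_lit 573491) (nat_lit 15) (.e (nat_lit 81953) (nat_lit 22) .nil))) (.g (nat_lit 0) (.e (nat_lit 169388) (nat_lit 0) .nil) .nil))) 
(.lf (nat_lit 501254) (.g (nat_lit 4554) (.e (nat_lit 163978) (nat_lit 30) (.e (nat_lit 573484) (nat_lit 13) (.e (nat_lit 65610) (nat_lit 10) (.e (nat_lit 344117) (nat_lit 21) (.e (nat_lit 516179) (nat_lit 15) (.e (nat_lit 475201) (nat_lit 40) (.e (nat_lit 712448) (nat_lit 3) .nil))))))) (.g (nat_lit 1) (.e (nat_lit 170679) (nat_lit 0) .nil) .nil)))) (.nd (nat_lit 9) 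
(.lf (nat_lit 500998) (.g (nat_lit 2558) (.e (nat_lit 163977) (nat_lit 30) (.e (nat_lit 573493) (nat_lit 15) (.e (nat_lit 81956) (nat_lit 23) (.e (nat_lit 98366) (nat_lit 27) (.e (nat_lit 434271) (nat_lit 38) (.e (nat_lit 655374) (nat_lit 3) .nil)))))) (.g (nat_lit 1) (.e (nat_lit 170143) (nat_lit 0) .nil) .nil))) 
(.lf (nat_lit 501510) (.g (nat_lit 4922) (.e (nat_lit 163978) (nat_lit 30) (.e (nat_lit 573485) (nat_lit 13) (.e (nat_lit 65619) (nat_lit 10) (.e (nat_lit 344117) (nat_lit 21) (.e (nat_lit 516145) (nat_lit 9) (.e (nat_lit 426376) (nat_lit 15) (.e (nat_lit 2058) (nat_lit 142) (.e (nat_lit 704589) (nat_lit 3) .nil)))))))) (.g (nat_lit 1) (.e (nat_lit 171022) (nat_lit 0) .nil) .nil))))) 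
(.nd (nat_lit 8) (.nd (nat_lit 9) 
(.lf (nat_lit 500870) (.g (nat_lit 2887) (.e (nat_lit 163977) (nat_lit 30) (.e (nat_lit 573493) (nat_lit 15) (.e (nat_lit 81953) (nat_lit 22) (.e (nat_lit 90169) (nat_lit 13) .nil)))) (.g (nat_lit 0) (.e (nat_lit 169823) (nat_lit 0) .nil) .nil))) 
(.lf (nat_lit 501382) (.g (nat_lit 3579) (.e (nat_lit 163978) (nat_lit 30) (.e (nat_lit 573485) (nat_lit 13) (.e (nat_lit 65604) (nat_lit 9) (.e (nat_lit 336028) (nat_lit 3) (.e (nat_lit 98359) (nat_lit 26) (.e (nat_lit 426022) (nat_lit 0) (.e (nat_lit 3397) (nat_lit 211) (.e (nat_lit 647180) (nat_lit 3) .nil)))))))) (.g (nat_lit 1) (.e (nat_lit 170834) (nat_lit 0) .nil) .nil)))) (.nd (nat_lit 9) 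
(.lf (nat_lit 501126) (.g (nat_lit 3379) (.e (nat_lit 163978) (nat_lit 30) (.e (nat_lit 573483) (nat_lit 13) (.e (nat_lit 65610) (nat_lit 10) (.e (nat_lit 344117) (nat_lit 21) (.e (nat_lit 516179) (nat_lit 15) (.e (nat_lit 475199) (nat_lit 40) (.e (nat_lit 704589) (nat_lit 3) .nil))))))) (.g (nat_lit 1) (.e (nat_lit 170391) (nat_lit 0) .nil) .nil))) 
(.lf (nat_lit 501638) (.g (nat_lit 2985) (.e (nat_lit 163978) (nat_lit 30) (.e (nat_lit 573485) (nat_lit 13) (.e (nat_lit 65619) (nat_lit 10) (.e (nat_lit 344117) (nat_lit 21) (.e (nat_lit 516159) (nat_lit 10) (.e (nat_lit 434212) (nat_lit 18) (.e (nat_lit 5548) (nat_lit 306) (.e (nat_lit 2611) (nat_lit 163) .nil)))))))) (.g (nat_lit 1) (.e (nat_lit 171155) (nat_lit 0) .nil) .nil)))))) 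
(.nd (nat_lit 7) (.nd (nat_lit 8) (.nd (nat_lit 9) 
(.lf (nat_lit 500806) (.g (nat_lit 5258) (.e (nat_lit 163977) (nat_lit 30) (.e (nat_lit 573492) (nat_lit 15) (.e (nat_lit 81956) (nat_lit 23) (.e (nat_lit 98356) (nat_lit 26) (.e (nat_lit 426148) (nat_lit 4) (.e (nat_lit 229663) (nat_lit 240) (.e (nat_lit 2612) (nat_lit 163) .nil))))))) (.g (nat_lit 1) (.e (nat_lit 169587) (nat_lit 0) .nil) .nil))) 
(.lf (nat_lit 501318) (.g (nat_lit 3320) (.e (nat_lit 163978) (nat_lit 30) (.e (nat_lit 573485) (nat_lit 13) (.e (nat_lit 65604) (nat_lit 9) (.e (nat_lit 336013) (nat_lit 2) (.e (nat_lit 90170) (nat_lit 13) (.e (nat_lit 172059) (nat_lit 1) (.e (nat_lit 164346) (nat_lit 240) (.e (nat_lit 2600) (nat_lit 163) .nil)))))))) (.g (nat_lit 1) (.e (nat_lit 170761) (nat_lit 0) .nil) .nil)))) 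
(.nd (nat_lit 9) 
(.lf (nat_lit 501062) (.g (nat_lit 3903) (.e (nat_lit 163978) (nat_lit 30) (.e (nat_lit 573479) (nat_lit 13) (.e (nat_lit 65619) (nat_lit 10) (.e (nat_lit 344117) (nat_lit 21) (.e (nat_lit 516151) (nat_lit 9) (.e (nat_lit 426042) (nat_lit 0) (.e (nat_lit 2458) (nat_lit 157) (.e (nat_lit 5548) (nat_lit 306) (.e (nat_lit 2611) (nat_lit 163) .nil))))))))) (.g (nat_lit 1) (.e (nat_lit 170327) (nat_lit 0) .nil) .nil))) 
(.lf (nat_lit 501574) (.g (nat_lit 4474) (.e (nat_lit 163978) (nat_lit 30) (.e (nat_lit 573485) (nat_lit 13) (.e (nat_lit 65619) (nat_lit 10) (.e (nat_lit 344117) (nat_lit 21) (.e (nat_lit 516151) (nat_lit 9) (.e (nat_lit 426104) (nat_lit 1) (.e (nat_lit 164345) (nat_lit 240) (.e (nat_lit 2600) (nat_lit 163) .nil)))))))) (.g (nat_lit 1) (.e (nat_lit 171086) (nat_lit 0) .nil) .nil))))) 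
(.nd (nat_lit 8) (.nd (nat_lit 9) 
(.lf (nat_lit 500934) (.g (nat_lit 4983) (.e (nat_lit 163977) (nat_lit 30) (.e (nat_lit 573493) (nat_lit 15) (.e (nat_lit 81954) (nat_lit 23) (.e (nat_lit 98367) (nat_lit 27) (.e (nat_lit 434271) (nat_lit 38) (.e (nat_lit 655375) (nat_lit 3) .nil)))))) (.g (nat_lit 1) (.e (nat_lit 169968) (nat_lit 0) .nil) .nil))) 
(.lf (nat_lit 501446) (.g (nat_lit 1904) (.e (nat_lit 163978) (nat_lit 30) (.e (nat_lit 573485) (nat_lit 13) (.e (nat_lit 65604) (nat_lit 9) (.e (nat_lit 336028) (nat_lit 3) (.e (nat_lit 98383) (nat_lit 32) (.e (nat_lit 475196) (nat_lit 40) (.e (nat_lit 704589) (nat_lit 3) .nil))))))) (.g (nat_lit 1) (.e (nat_lit 170950) (nat_lit 0) .nil) .nil)))) (.nd (nat_lit 9) 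
(.lf (nat_lit 501190) (.g (nat_lit 4517) (.e (nat_lit 163978) (nat_lit 30) (.e (nat_lit 573484) (nat_lit 13) (.e (nat_lit 65610) (nat_lit 10) (.e (nat_lit 344117) (nat_lit 21) (.e (nat_lit 516151) (nat_lit 9) (.e (nat_lit 426037) (nat_lit 0) (.e (nat_lit 2458) (nat_lit 157) (.e (nat_lit 5548) (nat_lit 306) (.e (nat_lit 2610) (nat_lit 163) .nil))))))))) (.g (nat_lit 1) (.e (nat_lit 170506) (nat_lit 0) .nil) .nil))) 
(.lf (nat_lit 501702) (.g (nat_lit 2138) (.e (nat_lit 163978) (nat_lit 30) (.e (nat_lit 573485) (nat_lit 13) (.e (nat_lit 65619) (nat_lit 10) (.e (nat_lit 344117) (nat_lit 21) (.e (nat_lit 516180) (nat_lit 15) (.e (nat_lit 475205) (nat_lit 40) (.e (nat_lit 712448) (nat_lit 3) .nil))))))) (.g (nat_lit 1) (.e (nat_lit 171228) (nat_lit 0) .nil) .nil))))))) 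
(.nd (nat_lit 6) (.nd (nat_lit 7) (.nd (nat_lit 8) (.nd (nat_lit 9) 
(.lf (nat_lit 500774) (.g (nat_lit 2233) (.e (nat_lit 163977) (nat_lit 30) (.e (nat_lit 573491) (nat_lit 15) (.e (nat_lit 81954) (nat_lit 23) (.e (nat_lit 98367) (nat_lit 27) (.e (nat_lit 434211) (nat_lit 18) .nil))))) (.g (nat_lit 0) (.e (nat_lit 169482) (nat_lit 0) .nil) .nil))) 
(.lf (nat_lit 501286) (.g (nat_lit 3553) (.e (nat_lit 163978) (nat_lit 30) (.e (nat_lit 573485) (nat_lit 13) (.e (nat_lit 65604) (nat_lit 9) (.e (nat_lit 336013) (nat_lit 2) (.e (nat_lit 90170) (nat_lit 13) (.e (nat_lit 172042) (nat_lit 0) (.e (nat_lit 2458) (nat_lit 157) (.e (nat_lit 5546) (nat_lit 306) (.e (nat_lit 2600) (nat_lit 163) .nil))))))))) (.g (nat_lit 1) (.e (nat_lit 170728) (nat_lit 0) .nil) .nil)))) 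
(.nd (nat_lit 9) 
(.lf (nat_lit 501030) (.g (nat_lit 4243) (.e (nat_lit 163978) (nat_lit 30) (.e (nat_lit 573479) (nat_lit 13) (.e (nat_lit 65604) (nat_lit 9) (.e (nat_lit 336013) (nat_lit 2) (.e (nat_lit 90170) (nat_lit 13) (.e (nat_lit 172046) (nat_lit 0) (.e (nat_lit 2458) (nat_lit 157) (.e (nat_lit 5547) (nat_lit 306) (.e (nat_lit 2610) (nat_lit 163) .nil))))))))) (.g (nat_lit 1) (.e (nat_lit 170294) (nat_lit 0) .nil) .nil))) 
(.lf (nat_lit 501542) (.g (nat_lit 3009) (.e (nat_lit 163978) (nat_lit 30) (.e (nat_lit 573485) (nat_lit 13) (.e (nat_lit 65619) (nat_lit 10) (.e (nat_lit 344117) (nat_lit 21) (.e (nat_lit 516151) (nat_lit 9) (.e (nat_lit 426042) (nat_lit 0) (.e (nat_lit 2438) (nat_lit 157) (.e (nat_lit 5499) (nat_lit 306) (.e (nat_lit 2609) (nat_lit 163) .nil))))))))) (.g (nat_lit 1) (.e (nat_lit 171054) (nat_lit 0) .nil) .nil))))) 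
(.nd (nat_lit 8) (.nd (nat_lit 9) 
(.lf (nat_lit 500902) (.g (nat_lit 3240) (.e (nat_lit 163977) (nat_lit 30) (.e (nat_lit 573493) (nat_lit 15) (.e (nat_lit 81953) (nat_lit 22) (.e (nat_lit 90172) (nat_lit 14) (.e (nat_lit 180229) (nat_lit 0) .nil))))) (.g (nat_lit 0) (.e (nat_lit 169876) (nat_lit 0) .nil) .nil))) 
(.lf (nat_lit 501414) (.g (nat_lit 4059) (.e (nat_lit 163978) (nat_lit 30) (.e (nat_lit 573485) (nat_lit 13) (.e (nat_lit 65604) (nat_lit 9) (.e (nat_lit 336028) (nat_lit 3) (.e (nat_lit 98365) (nat_lit 26) (.e (nat_lit 426107) (nat_lit 1) (.e (nat_lit 164347) (nat_lit 240) (.e (nat_lit 2610) (nat_lit 163) .nil)))))))) (.g (nat_lit 1) (.e (nat_lit 170900) (nat_lit 0) .nil) .nil)))) 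
(.nd (nat_lit 9) 
(.lf (nat_lit 501158) (.g (nat_lit 3923) (.e (nat_lit 163978) (nat_lit 30) (.e (nat_lit 573484) (nat_lit 13) (.e (nat_lit 65610) (nat_lit 10) (.e (nat_lit 344117) (nat_lit 21) (.e (nat_lit 516145) (nat_lit 9) (.e (nat_lit 426442) (nat_lit 19) (.e (nat_lit 114432) (nat_lit 3) .nil))))))) (.g (nat_lit 1) (.e (nat_lit 170470) (nat_lit 0) .nil) .nil))) 
(.lf (nat_lit 501670) (.g (nat_lit 2844) (.e (nat_lit 163978) (nat_lit 30) (.e (nat_lit 573485) (nat_lit 13) (.e (nat_lit 65619) (nat_lit 10) (.e (nat_lit 344117) (nat_lit 21) (.e (nat_lit 516168) (nat_lit 13) (.e (nat_lit 458774) (nat_lit 18) (.e (nat_lit 5547) (nat_lit 306) (.e (nat_lit 2610) (nat_lit 163) .nil)))))))) (.g (nat_lit 1) (.e (nat_lit 171191) (nat_lit 0) .nil) .nil)))))) 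
(.nd (nat_lit 7) (.nd (nat_lit 8) (.nd (nat_lit 9) 
(.lf (nat_lit 500838) (.g (nat_lit 5043) (.e (nat_lit 163977) (nat_lit 30) (.e (nat_lit 573493) (nat_lit 15) (.e (nat_lit 81951) (nat_lit 22) (.e (nat_lit 90170) (nat_lit 13) (.e (nat_lit 172032) (nat_lit 0) (.e (nat_lit 3397) (nat_lit 211) (.e (nat_lit 647181) (nat_lit 3) .nil))))))) (.g (nat_lit 1) (.e (nat_lit 169689) (nat_lit 0) .nil) .nil))) 
(.lf (nat_lit 501350) (.g (nat_lit 2308) (.e (nat_lit 163978) (nat_lit 30) (.e (nat_lit 573485) (nat_lit 13) (.e (nat_lit 65604) (nat_lit 9) (.e (nat_lit 336013) (nat_lit 2) (.e (nat_lit 90170) (nat_lit 13) (.e (nat_lit 172069) (nat_lit 4) (.e (nat_lit 229666) (nat_lit 240) (.e (nat_lit 2602) (nat_lit 163) .nil)))))))) (.g (nat_lit 1) (.e (nat_lit 170795) (nat_lit 0) .nil) .nil)))) 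
(.nd (nat_lit 9) 
(.lf (nat_lit 501094) (.g (nat_lit 2795) (.e (nat_lit 163978) (nat_lit 30) (.e (nat_lit 573479) (nat_lit 13) (.e (nat_lit 65619) (nat_lit 10) (.e (nat_lit 344117) (nat_lit 21) (.e (nat_lit 516160) (nat_lit 10) (.e (nat_lit 434271) (nat_lit 38) (.e (nat_lit 655374) (nat_lit 3) .nil))))))) (.g (nat_lit 1) (.e (nat_lit 170359) (nat_lit 0) .nil) .nil))) 
(.lf (nat_lit 501606) (.g (nat_lit 2957) (.e (nat_lit 163978) (nat_lit 30) (.e (nat_lit 573485) (nat_lit 13) (.e (nat_lit 65619) (nat_lit 10) (.e (nat_lit 344117) (nat_lit 21) (.e (nat_lit 516152) (nat_lit 9) (.e (nat_lit 426109) (nat_lit 1) (.e (nat_lit 164346) (nat_lit 240) (.e (nat_lit 2611) (nat_lit 163) .nil)))))))) (.g (nat_lit 1) (.e (nat_lit 171118) (nat_lit 0) .nil) .nil))))) 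
(.nd (nat_lit 8) (.nd (nat_lit 9) 
(.lf (nat_lit 500966) (.g (nat_lit 2721) (.e (nat_lit 163977) (nat_lit 30) (.e (nat_lit 573493) (nat_lit 15) (.e (nat_lit 81956) (nat_lit 23) (.e (nat_lit 98359) (nat_lit 26) (.e (nat_lit 426039) (nat_lit 0) .nil))))) (.g (nat_lit 0) (.e (nat_lit 170062) (nat_lit 0) .nil) .nil))) 
(.lf (nat_lit 501478) (.g (nat_lit 2665) (.e (nat_lit 163978) (nat_lit 30) (.e (nat_lit 573485) (nat_lit 13) (.e (nat_lit 65619) (nat_lit 10) (.e (nat_lit 344117) (nat_lit 21) (.e (nat_lit 516143) (nat_lit 9) (.e (nat_lit 426444) (nat_lit 19) (.e (nat_lit 114432) (nat_lit 3) .nil))))))) (.g (nat_lit 1) (.e (nat_lit 170990) (nat_lit 0) .nil) .nil)))) (.nd (nat_lit 9) 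
(.lf (nat_lit 501222) (.g (nat_lit 2958) (.e (nat_lit 163978) (nat_lit 30) (.e (nat_lit 573484) (nat_lit 13) (.e (nat_lit 65610) (nat_lit 10) (.e (nat_lit 344117) (nat_lit 21) (.e (nat_lit 516151) (nat_lit 9) (.e (nat_lit 426047) (nat_lit 0) (.e (nat_lit 3406) (nat_lit 212) (.e (nat_lit 655373) (nat_lit 3) .nil)))))))) (.g (nat_lit 1) (.e (nat_lit 170567) (nat_lit 0) .nil) .nil))) 
(.lf (nat_lit 501734) (.g (nat_lit 4227) (.e (nat_lit 163978) (nat_lit 30) (.e (nat_lit 573487) (nat_lit 14) (.e (nat_lit 73753) (nat_lit 8) (.e (nat_lit 557105) (nat_lit 14) (.e (nat_lit 180252) (nat_lit 10) (.e (nat_lit 573475) (nat_lit 12) (.e (nat_lit 57502) (nat_lit 38) (.e (nat_lit 638995) (nat_lit 7) .nil)))))))) (.g (nat_lit 1) (.e (nat_lit 171375) (nat_lit 0) .nil) .nil)))))))) 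
(.nd (nat_lit 5) (.nd (nat_lit 6) (.nd (nat_lit 7) (.nd (nat_lit 8) (.nd (nat_lit 9) 
(.lf (nat_lit 500758) (.g (nat_lit 2645) (.e (nat_lit 163977) (nat_lit 30) (.e (nat_lit 573491) (nat_lit 15) (.e (nat_lit 81954) (nat_lit 23) (.e (nat_lit 98359) (nat_lit 26) (.e (nat_lit 426103) (nat_lit 1) (.e (nat_lit 164348) (nat_lit 240) (.e (nat_lit 2610) (nat_lit 163) .nil))))))) (.g (nat_lit 1) (.e (nat_lit 169430) (nat_lit 0) .nil) .nil))) 
(.lf (nat_lit 501270) (.g (nat_lit 1582) (.e (nat_lit 163978) (nat_lit 30) (.e (nat_lit 573485) (nat_lit 13) (.e (nat_lit 65604) (nat_lit 9) (.e (nat_lit 336013) (nat_lit 2) (.e (nat_lit 90170) (nat_lit 13) .nil))))) (.g (nat_lit 0) (.e (nat_lit 170711) (nat_lit 0) .nil) .nil)))) (.nd (nat_lit 9) 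
(.lf (nat_lit 501014) (.g (nat_lit 2840) (.e (nat_lit 163977) (nat_lit 30) (.e (nat_lit 573493) (nat_lit 15) (.e (nat_lit 81956) (nat_lit 23) (.e (nat_lit 98368) (nat_lit 27) (.e (nat_lit 434205) (nat_lit 18) .nil))))) (.g (nat_lit 0) (.e (nat_lit 170198) (nat_lit 0) .nil) .nil))) 
(.lf (nat_lit 501526) (.g (nat_lit 2540) (.e (nat_lit 163978) (nat_lit 30) (.e (nat_lit 573485) (nat_lit 13) (.e (nat_lit 65619) (nat_lit 10) (.e (nat_lit 344117) (nat_lit 21) (.e (nat_lit 516147) (nat_lit 9) (.e (nat_lit 426420) (nat_lit 15) (.e (nat_lit 2058) (nat_lit 142) (.e (nat_lit 704589) (nat_lit 3) .nil)))))))) (.g (nat_lit 1) (.e (nat_lit 171038) (nat_lit 0) .nil) .nil))))) 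
(.nd (nat_lit 8) (.nd (nat_lit 9) 
(.lf (nat_lit 500886) (.g (nat_lit 2754) (.e (nat_lit 163977) (nat_lit 30) (.e (nat_lit 573493) (nat_lit 15) (.e (nat_lit 81953) (nat_lit 22) (.e (nat_lit 90170) (nat_lit 13) (.e (nat_lit 172046) (nat_lit 0) (.e (nat_lit 3407) (nat_lit 212) (.e (nat_lit 655375) (nat_lit 3) .nil))))))) (.g (nat_lit 1) (.e (nat_lit 169841) (nat_lit 0) .nil) .nil))) 
(.lf (nat_lit 501398) (.g (nat_lit 3322) (.e (nat_lit 163978) (nat_lit 30) (.e (nat_lit 573485) (nat_lit 13) (.e (nat_lit 65604) (nat_lit 9) (.e (nat_lit 336028) (nat_lit 3) (.e (nat_lit 98359) (nat_lit 26) (.e (nat_lit 433920) (nat_lit 19) (.e (nat_lit 114432) (nat_lit 3) .nil))))))) (.g (nat_lit 1) (.e (nat_lit 170877) (nat_lit 0) .nil) .nil)))) (.nd (nat_lit 9) 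
(.lf (nat_lit 501142) (.g (nat_lit 3062) (.e (nat_lit 163978) (nat_lit 30) (.e (nat_lit 573484) (nat_lit 13) (.e (nat_lit 65610) (nat_lit 10) (.e (nat_lit 344117) (nat_lit 21) (.e (nat_lit 516144) (nat_lit 9) (.e (nat_lit 426466) (nat_lit 24) (.e (nat_lit 163584) (nat_lit 3) .nil))))))) (.g (nat_lit 1) (.e (nat_lit 170436) (nat_lit 0) .nil) .nil))) 
(.lf (nat_lit 501654) (.g (nat_lit 5807) (.e (nat_lit 163978) (nat_lit 30) (.e (nat_lit 573485) (nat_lit 13) (.e (nat_lit 65619) (nat_lit 10) (.e (nat_lit 344117) (nat_lit 21) (.e (nat_lit 516160) (nat_lit 10) (.e (nat_lit 434209) (nat_lit 18) (.e (nat_lit 5548) (nat_lit 306) (.e (nat_lit 2610) (nat_lit 163) .nil)))))))) (.g (nat_lit 1) (.e (nat_lit 171175) (nat_lit 0) .nil) .nil)))))) 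
(.nd (nat_lit 7) (.nd (nat_lit 8) (.nd (nat_lit 9) 
(.lf (nat_lit 500822) (.g (nat_lit 3888) (.e (nat_lit 163977) (nat_lit 30) (.e (nat_lit 573492) (nat_lit 15) (.e (nat_lit 81956) (nat_lit 23) (.e (nat_lit 98366) (nat_lit 27) .nil)))) (.g (nat_lit 0) (.e (nat_lit 169608) (nat_lit 0) .nil) .nil))) 
(.lf (nat_lit 501334) (.g (nat_lit 4940) (.e (nat_lit 163978) (nat_lit 30) (.e (nat_lit 573485) (nat_lit 13) (.e (nat_lit 65604) (nat_lit 9) (.e (nat_lit 336013) (nat_lit 2) (.e (nat_lit 90170) (nat_lit 13) (.e (nat_lit 172061) (nat_lit 1) (.e (nat_lit 164347) (nat_lit 240) (.e (nat_lit 2610) (nat_lit 163) .nil)))))))) (.g (nat_lit 1) (.e (nat_lit 170778) (nat_lit 0) .nil) .nil)))) 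
(.nd (nat_lit 9) 
(.lf (nat_lit 501078) (.g (nat_lit 2922) (.e (nat_lit 163978) (nat_lit 30) (.e (nat_lit 573479) (nat_lit 13) (.e (nat_lit 65619) (nat_lit 10) (.e (nat_lit 344117) (nat_lit 21) (.e (nat_lit 516152) (nat_lit 9) (.e (nat_lit 426025) (nat_lit 0) (.e (nat_lit 3399) (nat_lit 211) (.e (nat_lit 647181) (nat_lit 3) .nil)))))))) (.g (nat_lit 1) (.e (nat_lit 170343) (nat_lit 0) .nil) .nil))) 
(.lf (nat_lit 501590) (.g (nat_lit 4534) (.e (nat_lit 163978) (nat_lit 30) (.e (nat_lit 573485) (nat_lit 13) (.e (nat_lit 65619) (nat_lit 10) (.e (nat_lit 344117) (nat_lit 21) (.e (nat_lit 516151) (nat_lit 9) (.e (nat_lit 426380) (nat_lit 15) (.e (nat_lit 2058) (nat_lit 142) (.e (nat_lit 704589) (nat_lit 3) .nil)))))))) (.g (nat_lit 1) (.e (nat_lit 171102) (nat_lit 0) .nil) .nil))))) 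
(.nd (nat_lit 8) (.nd (nat_lit 9) 
(.lf (nat_lit 500950) (.g (nat_lit 3389) (.e (nat_lit 163977) (nat_lit 30) (.e (nat_lit 573493) (nat_lit 15) (.e (nat_lit 81956) (nat_lit 23) (.e (nat_lit 98356) (nat_lit 26) (.e (nat_lit 426440) (nat_lit 19) (.e (nat_lit 114432) (nat_lit 3) .nil)))))) (.g (nat_lit 1) (.e (nat_lit 170032) (nat_lit 0) .nil) .nil))) 
(.lf (nat_lit 501462) (.g (nat_lit 3310) (.e (nat_lit 163978) (nat_lit 30) (.e (nat_lit 573485) (nat_lit 13) (.e (nat_lit 65619) (nat_lit 10) (.e (nat_lit 344116) (nat_lit 21) (.e (nat_lit 516179) (nat_lit 15) (.e (nat_lit 475199) (nat_lit 40) (.e (nat_lit 704589) (nat_lit 3) .nil))))))) (.g (nat_lit 1) (.e (nat_lit 170969) (nat_lit 0) .nil) .nil)))) (.nd (nat_lit 9) 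
(.lf (nat_lit 501206) (.g (nat_lit 2815) (.e (nat_lit 163978) (nat_lit 30) (.e (nat_lit 573484) (nat_lit 13) (.e (nat_lit 65610) (nat_lit 10) (.e (nat_lit 344117) (nat_lit 21) (.e (nat_lit 516151) (nat_lit 9) (.e (nat_lit 426042) (nat_lit 0) (.e (nat_lit 3407) (nat_lit 212) (.e (nat_lit 655375) (nat_lit 3) .nil)))))))) (.g (nat_lit 1) (.e (nat_lit 170545) (nat_lit 0) .nil) .nil))) 
(.lf (nat_lit 501718) (.g (nat_lit 3311) (.e (nat_lit 163978) (nat_lit 30) (.e (nat_lit 573487) (nat_lit 14) (.e (nat_lit 73753) (nat_lit 8) (.e (nat_lit 557100) (nat_lit 13) (.e (nat_lit 172065) (nat_lit 3) (.e (nat_lit 204817) (nat_lit 17) (.e (nat_lit 2271) (nat_lit 149) (.e (nat_lit 761898) (nat_lit 15) .nil)))))))) (.g (nat_lit 1) (.e (nat_lit 171307) (nat_lit 0) .nil) .nil))))))) 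
(.nd (nat_lit 6) (.nd (nat_lit 7) (.nd (nat_lit 8) (.nd (nat_lit 9) 
(.lf (nat_lit 500790) (.g (nat_lit 925) (.e (nat_lit 163977) (nat_lit 30) (.e (nat_lit 573492) (nat_lit 15) (.e (nat_lit 81953) (nat_lit 22) .nil))) (.g (nat_lit 0) (.e (nat_lit 169528) (nat_lit 0) .nil) .nil))) 
(.lf (nat_lit 501302) (.g (nat_lit 3842) (.e (nat_lit 163978) (nat_lit 30) (.e (nat_lit 573485) (nat_lit 13) (.e (nat_lit 65604) (nat_lit 9) (.e (nat_lit 336013) (nat_lit 2) (.e (nat_lit 90170) (nat_lit 13) (.e (nat_lit 172046) (nat_lit 0) (.e (nat_lit 2478) (nat_lit 157) (.e (nat_lit 5548) (nat_lit 306) (.e (nat_lit 2599) (nat_lit 163) .nil))))))))) (.g (nat_lit 1) (.e (nat_lit 170744) (nat_lit 0) .nil) .nil)))) 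
(.nd (nat_lit 9) 
(.lf (nat_lit 501046) (.g (nat_lit 2832) (.e (nat_lit 163978) (nat_lit 30) (.e (nat_lit 573479) (nat_lit 13) (.e (nat_lit 65619) (nat_lit 10) (.e (nat_lit 344117) (nat_lit 21) (.e (nat_lit 516151) (nat_lit 9) (.e (nat_lit 426025) (nat_lit 0) (.e (nat_lit 3397) (nat_lit 211) (.e (nat_lit 647180) (nat_lit 3) .nil)))))))) (.g (nat_lit 1) (.e (nat_lit 170311) (nat_lit 0) .nil) .nil))) 
(.lf (nat_lit 501558) (.g (nat_lit 2597) (.e (nat_lit 163978) (nat_lit 30) (.e (nat_lit 573485) (nat_lit 13) (.e (nat_lit 65619) (nat_lit 10) (.e (nat_lit 344117) (nat_lit 21) (.e (nat_lit 516151) (nat_lit 9) (.e (nat_lit 426043) (nat_lit 0) (.e (nat_lit 7936) (nat_lit 211) (.e (nat_lit 647180) (nat_lit 3) .nil)))))))) (.g (nat_lit 1) (.e (nat_lit 171070) (nat_lit 0) .nil) .nil))))) 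
(.nd (nat_lit 8) (.nd (nat_lit 9) 
(.lf (nat_lit 500918) (.g (nat_lit 3820) (.e (nat_lit 163977) (nat_lit 30) (.e (nat_lit 573493) (nat_lit 15) (.e (nat_lit 81954) (nat_lit 23) (.e (nat_lit 98358) (nat_lit 26) (.e (nat_lit 426444) (nat_lit 19) (.e (nat_lit 114432) (nat_lit 3) .nil)))))) (.g (nat_lit 1) (.e (nat_lit 169920) (nat_lit 0) .nil) .nil))) 
(.lf (nat_lit 501430) (.g (nat_lit 4020) (.e (nat_lit 163978) (nat_lit 30) (.e (nat_lit 573485) (nat_lit 13) (.e (nat_lit 65604) (nat_lit 9) (.e (nat_lit 336028) (nat_lit 3) (.e (nat_lit 98366) (nat_lit 27) (.e (nat_lit 434272) (nat_lit 38) (.e (nat_lit 655374) (nat_lit 3) .nil))))))) (.g (nat_lit 1) (.e (nat_lit 170923) (nat_lit 0) .nil) .nil)))) (.nd (nat_lit 9) 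
(.lf (nat_lit 501174) (.g (nat_lit 3127) (.e (nat_lit 163978) (nat_lit 30) (.e (nat_lit 573484) (nat_lit 13) (.e (nat_lit 65610) (nat_lit 10) (.e (nat_lit 344117) (nat_lit 21) (.e (nat_lit 516151) (nat_lit 9) (.e (nat_lit 426003) (nat_lit 0) (.e (nat_lit 3399) (nat_lit 211) (.e (nat_lit 647181) (nat_lit 3) .nil)))))))) (.g (nat_lit 1) (.e (nat_lit 170486) (nat_lit 0) .nil) .nil))) 
(.lf (nat_lit 501686) (.g (nat_lit 2754) (.e (nat_lit 163978) (nat_lit 30) (.e (nat_lit 573485) (nat_lit 13) (.e (nat_lit 65619) (nat_lit 10) (.e (nat_lit 344117) (nat_lit 21) (.e (nat_lit 516171) (nat_lit 13) (.e (nat_lit 458774) (nat_lit 18) (.e (nat_lit 5548) (nat_lit 306) (.e (nat_lit 2601) (nat_lit 163) .nil)))))))) (.g (nat_lit 1) (.e (nat_lit 171211) (nat_lit 0) .nil) .nil)))))) 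
(.nd (nat_lit 7) (.nd (nat_lit 8) (.nd (nat_lit 9) 
(.lf (nat_lit 500854) (.g (nat_lit 4197) (.e (nat_lit 163977) (nat_lit 30) (.e (nat_lit 573493) (nat_lit 15) (.e (nat_lit 81951) (nat_lit 22) (.e (nat_lit 90170) (nat_lit 13) (.e (nat_lit 172049) (nat_lit 0) (.e (nat_lit 3409) (nat_lit 212) (.e (nat_lit 655375) (nat_lit 3) .nil))))))) (.g (nat_lit 1) (.e (nat_lit 169710) (nat_lit 0) .nil) .nil))) 
(.lf (nat_lit 501366) (.g (nat_lit 4735) (.e (nat_lit 163978) (nat_lit 30) (.e (nat_lit 573485) (nat_lit 13) (.e (nat_lit 65604) (nat_lit 9) (.e (nat_lit 336013) (nat_lit 2) (.e (nat_lit 90172) (nat_lit 14) .nil))))) (.g (nat_lit 0) (.e (nat_lit 170811) (nat_lit 0) .nil) .nil)))) (.nd (nat_lit 9) 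
(.lf (nat_lit 501110) (.g (nat_lit 3066) (.e (nat_lit 163978) (nat_lit 30) (.e (nat_lit 573480) (nat_lit 13) (.e (nat_lit 65610) (nat_lit 10) (.e (nat_lit 344117) (nat_lit 21) (.e (nat_lit 516159) (nat_lit 10) (.e (nat_lit 434272) (nat_lit 38) (.e (nat_lit 655375) (nat_lit 3) .nil))))))) (.g (nat_lit 1) (.e (nat_lit 170375) (nat_lit 0) .nil) .nil))) 
(.lf (nat_lit 501622) (.g (nat_lit 3117) (.e (nat_lit 163978) (nat_lit 30) (.e (nat_lit 573485) (nat_lit 13) (.e (nat_lit 65619) (nat_lit 10) (.e (nat_lit 344117) (nat_lit 21) (.e (nat_lit 516153) (nat_lit 9) (.e (nat_lit 426412) (nat_lit 15) (.e (nat_lit 2059) (nat_lit 142) (.e (nat_lit 704589) (nat_lit 3) .nil)))))))) (.g (nat_lit 1) (.e (nat_lit 171134) (nat_lit 0) .nil) .nil))))) 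
(.nd (nat_lit 8) (.nd (nat_lit 9) 
(.lf (nat_lit 500982) (.g (nat_lit 3941) (.e (nat_lit 163977) (nat_lit 30) (.e (nat_lit 573493) (nat_lit 15) (.e (nat_lit 81956) (nat_lit 23) (.e (nat_lit 98362) (nat_lit 26) (.e (nat_lit 426109) (nat_lit 1) .nil))))) (.g (nat_lit 0) (.e (nat_lit 170105) (nat_lit 0) .nil) .nil))) 
(.lf (nat_lit 501494) (.g (nat_lit 2484) (.e (nat_lit 163978) (nat_lit 30) (.e (nat_lit 573485) (nat_lit 13) (.e (nat_lit 65619) (nat_lit 10) (.e (nat_lit 344117) (nat_lit 21) (.e (nat_lit 516144) (nat_lit 9) (.e (nat_lit 426399) (nat_lit 15) (.e (nat_lit 2056) (nat_lit 142) (.e (nat_lit 704589) (nat_lit 3) .nil)))))))) (.g (nat_lit 1) (.e (nat_lit 171006) (nat_lit 0) .nil) .nil)))) 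
(.nd (nat_lit 9) 
(.lf (nat_lit 501238) (.g (nat_lit 2309) (.e (nat_lit 163978) (nat_lit 30) (.e (nat_lit 573484) (nat_lit 13) (.e (nat_lit 65610) (nat_lit 10) (.e (nat_lit 344117) (nat_lit 21) (.e (nat_lit 516159) (nat_lit 10) (.e (nat_lit 434270) (nat_lit 38) (.e (nat_lit 655373) (nat_lit 3) .nil))))))) (.g (nat_lit 1) (.e (nat_lit 170625) (nat_lit 0) .nil) .nil))) 
(.lf (nat_lit 501750) (.g (nat_lit 4109) (.e (nat_lit 163978) (nat_lit 30) (.e (nat_lit 573489) (nat_lit 14) (.e (nat_lit 73754) (nat_lit 8) (.e (nat_lit 557100) (nat_lit 13) (.e (nat_lit 172065) (nat_lit 3) (.e (nat_lit 204830) (nat_lit 18) (.e (nat_lit 57663) (nat_lit 152) (.e (nat_lit 2606) (nat_lit 163) .nil)))))))) (.g (nat_lit 1) (.e (nat_lit 171408) (nat_lit 0) .nil) .nil))))))))) 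
(.nd (nat_lit 4) (.nd (nat_lit 5) (.nd (nat_lit 6) (.nd (nat_lit 7) (.nd (nat_lit 8) 
(.nd (nat_lit 9) 
(.lf (nat_lit 500750) (.g (nat_lit 2166) (.e (nat_lit 163977) (nat_lit 30) (.e (nat_lit 573491) (nat_lit 15) (.e (nat_lit 81954) (nat_lit 23) (.e (nat_lit 98356) (nat_lit 26) (.e (nat_lit 433920) (nat_lit 19) (.e (nat_lit 114432) (nat_lit 3) .nil)))))) (.g (nat_lit 1) (.e (nat_lit 169406) (nat_lit 0) .nil) .nil))) 
(.lf (nat_lit 501262) (.g (nat_lit 2335) (.e (nat_lit 163978) (nat_lit 30) (.e (nat_lit 573484) (nat_lit 13) (.e (nat_lit 65610) (nat_lit 10) (.e (nat_lit 344117) (nat_lit 21) (.e (nat_lit 516180) (nat_lit 15) (.e (nat_lit 475205) (nat_lit 40) (.e (nat_lit 712448) (nat_lit 3) .nil))))))) (.g (nat_lit 1) (.e (nat_lit 170687) (nat_lit 0) .nil) .nil)))) (.nd (nat_lit 9) 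
(.lf (nat_lit 501006) (.g (nat_lit 2745) (.e (nat_lit 163977) (nat_lit 30) (.e (nat_lit 573493) (nat_lit 15) (.e (nat_lit 81956) (nat_lit 23) (.e (nat_lit 98367) (nat_lit 27) (.e (nat_lit 434213) (nat_lit 18) .nil))))) (.g (nat_lit 0) (.e (nat_lit 170177) (nat_lit 0) .nil) .nil))) 
(.lf (nat_lit 501518) (.g (nat_lit 4541) (.e (nat_lit 163978) (nat_lit 30) (.e (nat_lit 573485) (nat_lit 13) (.e (nat_lit 65619) (nat_lit 10) (.e (nat_lit 344117) (nat_lit 21) (.e (nat_lit 516145) (nat_lit 9) (.e (nat_lit 426420) (nat_lit 15) (.e (nat_lit 2056) (nat_lit 142) (.e (nat_lit 704589) (nat_lit 3) .nil)))))))) (.g (nat_lit 1) (.e (nat_lit 171030) (nat_lit 0) .nil) .nil))))) 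
(.nd (nat_lit 8) (.nd (nat_lit 9) 
(.lf (nat_lit 500878) (.g (nat_lit 3601) (.e (nat_lit 163977) (nat_lit 30) (.e (nat_lit 573493) (nat_lit 15) (.e (nat_lit 81953) (nat_lit 22) (.e (nat_lit 90170) (nat_lit 13) (.e (nat_lit 172038) (nat_lit 0) (.e (nat_lit 3397) (nat_lit 211) (.e (nat_lit 647181) (nat_lit 3) .nil))))))) (.g (nat_lit 1) (.e (nat_lit 169831) (nat_lit 0) .nil) .nil))) 
(.lf (nat_lit 501390) (.g (nat_lit 3890) (.e (nat_lit 163978) (nat_lit 30) (.e (nat_lit 573485) (nat_lit 13) (.e (nat_lit 65604) (nat_lit 9) (.e (nat_lit 336028) (nat_lit 3) (.e (nat_lit 98359) (nat_lit 26) (.e (nat_lit 426043) (nat_lit 0) (.e (nat_lit 3407) (nat_lit 212) (.e (nat_lit 655373) (nat_lit 3) .nil)))))))) (.g (nat_lit 1) (.e (nat_lit 170848) (nat_lit 0) .nil) .nil)))) (.nd (nat_lit 9) 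
(.lf (nat_lit 501134) (.g (nat_lit 3378) (.e (nat_lit 163978) (nat_lit 30) (.e (nat_lit 573484) (nat_lit 13) (.e (nat_lit 65610) (nat_lit 10) (.e (nat_lit 344117) (nat_lit 21) (.e (nat_lit 516143) (nat_lit 9) (.e (nat_lit 426025) (nat_lit 0) (.e (nat_lit 3399) (nat_lit 211) (.e (nat_lit 647180) (nat_lit 3) .nil)))))))) (.g (nat_lit 1) (.e (nat_lit 170416) (nat_lit 0) .nil) .nil))) 
(.lf (nat_lit 501646) (.g (nat_lit 1951) (.e (nat_lit 163978) (nat_lit 30) (.e (nat_lit 573485) (nat_lit 13) (.e (nat_lit 65619) (nat_lit 10) (.e (nat_lit 344117) (nat_lit 21) (.e (nat_lit 516160) (nat_lit 10) .nil))))) (.g (nat_lit 0) (.e (nat_lit 171163) (nat_lit 0) .nil) .nil)))))) (.nd (nat_lit 7) (.nd (nat_lit 8) (.nd (nat_lit 9) 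
(.lf (nat_lit 500814) (.g (nat_lit 2822) (.e (nat_lit 163977) (nat_lit 30) (.e (nat_lit 573492) (nat_lit 15) (.e (nat_lit 81956) (nat_lit 23) (.e (nat_lit 98360) (nat_lit 26) .nil)))) (.g (nat_lit 0) (.e (nat_lit 169597) (nat_lit 0) .nil) .nil))) 
(.lf (nat_lit 501326) (.g (nat_lit 4193) (.e (nat_lit 163978) (nat_lit 30) (.e (nat_lit 573485) (nat_lit 13) (.e (nat_lit 65604) (nat_lit 9) (.e (nat_lit 336013) (nat_lit 2) (.e (nat_lit 90170) (nat_lit 13) (.e (nat_lit 172060) (nat_lit 1) (.e (nat_lit 164347) (nat_lit 240) (.e (nat_lit 2610) (nat_lit 163) .nil)))))))) (.g (nat_lit 1) (.e (nat_lit 170769) (nat_lit 0) .nil) .nil)))) 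
(.nd (nat_lit 9) 
(.lf (nat_lit 501070) (.g (nat_lit 3579) (.e (nat_lit 163978) (nat_lit 30) (.e (nat_lit 573479) (nat_lit 13) (.e (nat_lit 65619) (nat_lit 10) (.e (nat_lit 344117) (nat_lit 21) (.e (nat_lit 516151) (nat_lit 9) (.e (nat_lit 426104) (nat_lit 1) (.e (nat_lit 164345) (nat_lit 240) (.e (nat_lit 2599) (nat_lit 163) .nil)))))))) (.g (nat_lit 1) (.e (nat_lit 170335) (nat_lit 0) .nil) .nil))) 
(.lf (nat_lit 501582) (.g (nat_lit 3794) (.e (nat_lit 163978) (nat_lit 30) (.e (nat_lit 573485) (nat_lit 13) (.e (nat_lit 65619) (nat_lit 10) (.e (nat_lit 344117) (nat_lit 21) (.e (nat_lit 516151) (nat_lit 9) (.e (nat_lit 426142) (nat_lit 4) (.e (nat_lit 229663) (nat_lit 240) (.e (nat_lit 2603) (nat_lit 163) .nil)))))))) (.g (nat_lit 1) (.e (nat_lit 171094) (nat_lit 0) .nil) .nil))))) 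
(.nd (nat_lit 8) (.nd (nat_lit 9) 
(.lf (nat_lit 500942) (.g (nat_lit 3052) (.e (nat_lit 163977) (nat_lit 30) (.e (nat_lit 573493) (nat_lit 15) (.e (nat_lit 81956) (nat_lit 23) (.e (nat_lit 98355) (nat_lit 26) (.e (nat_lit 426442) (nat_lit 19) (.e (nat_lit 114432) (nat_lit 3) .nil)))))) (.g (nat_lit 1) (.e (nat_lit 170016) (nat_lit 0) .nil) .nil))) 
(.lf (nat_lit 501454) (.g (nat_lit 4338) (.e (nat_lit 163978) (nat_lit 30) (.e (nat_lit 573485) (nat_lit 13) (.e (nat_lit 65604) (nat_lit 9) (.e (nat_lit 336028) (nat_lit 3) (.e (nat_lit 98386) (nat_lit 32) (.e (nat_lit 475198) (nat_lit 40) (.e (nat_lit 704589) (nat_lit 3) .nil))))))) (.g (nat_lit 1) (.e (nat_lit 170958) (nat_lit 0) .nil) .nil)))) (.nd (nat_lit 9) 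
(.lf (nat_lit 501198) (.g (nat_lit 3054) (.e (nat_lit 163978) (nat_lit 30) (.e (nat_lit 573484) (nat_lit 13) (.e (nat_lit 65610) (nat_lit 10) (.e (nat_lit 344117) (nat_lit 21) (.e (nat_lit 516151) (nat_lit 9) (.e (nat_lit 426040) (nat_lit 0) (.e (nat_lit 3403) (nat_lit 212) (.e (nat_lit 655373) (nat_lit 3) .nil)))))))) (.g (nat_lit 1) (.e (nat_lit 170526) (nat_lit 0) .nil) .nil))) 
(.lf (nat_lit 501710) (.g (nat_lit 3295) (.e (nat_lit 163978) (nat_lit 30) (.e (nat_lit 573485) (nat_lit 13) (.e (nat_lit 65619) (nat_lit 10) (.e (nat_lit 344119) (nat_lit 21) (.e (nat_lit 516179) (nat_lit 15) (.e (nat_lit 475198) (nat_lit 40) (.e (nat_lit 704589) (nat_lit 3) .nil))))))) (.g (nat_lit 1) (.e (nat_lit 171236) (nat_lit 0) .nil) .nil))))))) 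
(.nd (nat_lit 6) (.nd (nat_lit 7) (.nd (nat_lit 8) (.nd (nat_lit 9) 
(.lf (nat_lit 500782) (.g (nat_lit 1902) (.e (nat_lit 163977) (nat_lit 30) (.e (nat_lit 573491) (nat_lit 15) (.e (nat_lit 81954) (nat_lit 23) (.e (nat_lit 98385) (nat_lit 32) (.e (nat_lit 475201) (nat_lit 40) (.e (nat_lit 712448) (nat_lit 3) .nil)))))) (.g (nat_lit 1) (.e (nat_lit 169505) (nat_lit 0) .nil) .nil))) 
(.lf (nat_lit 501294) (.g (nat_lit 2429) (.e (nat_lit 163978) (nat_lit 30) (.e (nat_lit 573485) (nat_lit 13) (.e (nat_lit 65604) (nat_lit 9) (.e (nat_lit 336013) (nat_lit 2) (.e (nat_lit 90170) (nat_lit 13) (.e (nat_lit 172042) (nat_lit 0) (.e (nat_lit 3406) (nat_lit 212) (.e (nat_lit 655374) (nat_lit 3) .nil)))))))) (.g (nat_lit 1) (.e (nat_lit 170736) (nat_lit 0) .nil) .nil)))) (.nd (nat_lit 9) 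
(.lf (nat_lit 501038) (.g (nat_lit 5394) (.e (nat_lit 163978) (nat_lit 30) (.e (nat_lit 573479) (nat_lit 13) (.e (nat_lit 65610) (nat_lit 10) (.e (nat_lit 344117) (nat_lit 21) (.e (nat_lit 516179) (nat_lit 15) (.e (nat_lit 475198) (nat_lit 40) (.e (nat_lit 704589) (nat_lit 3) .nil))))))) (.g (nat_lit 1) (.e (nat_lit 170303) (nat_lit 0) .nil) .nil))) 
(.lf (nat_lit 501550) (.g (nat_lit 3872) (.e (nat_lit 163978) (nat_lit 30) (.e (nat_lit 573485) (nat_lit 13) (.e (nat_lit 65619) (nat_lit 10) (.e (nat_lit 344117) (nat_lit 21) (.e (nat_lit 516151) (nat_lit 9) (.e (nat_lit 426042) (nat_lit 0) (.e (nat_lit 3403) (nat_lit 212) (.e (nat_lit 655374) (nat_lit 3) .nil)))))))) (.g (nat_lit 1) (.e (nat_lit 171062) (nat_lit 0) .nil) .nil))))) 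
(.nd (nat_lit 8) (.nd (nat_lit 9) 
(.lf (nat_lit 500910) (.g (nat_lit 617) (.e (nat_lit 163977) (nat_lit 30) (.e (nat_lit 573493) (nat_lit 15) (.e (nat_lit 81954) (nat_lit 23) .nil))) (.g (nat_lit 0) (.e (nat_lit 169909) (nat_lit 0) .nil) .nil))) 
(.lf (nat_lit 501422) (.g (nat_lit 4484) (.e (nat_lit 163978) (nat_lit 30) (.e (nat_lit 573485) (nat_lit 13) (.e (nat_lit 65604) (nat_lit 9) (.e (nat_lit 336028) (nat_lit 3) (.e (nat_lit 98366) (nat_lit 27) (.e (nat_lit 434209) (nat_lit 18) (.e (nat_lit 5547) (nat_lit 306) (.e (nat_lit 2599) (nat_lit 163) .nil)))))))) (.g (nat_lit 1) (.e (nat_lit 170914) (nat_lit 0) .nil) .nil)))) 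
(.nd (nat_lit 9) 
(.lf (nat_lit 501166) (.g (nat_lit 1733) (.e (nat_lit 163978) (nat_lit 30) (.e (nat_lit 573484) (nat_lit 13) (.e (nat_lit 65610) (nat_lit 10) (.e (nat_lit 344117) (nat_lit 21) (.e (nat_lit 516147) (nat_lit 9) .nil))))) (.g (nat_lit 0) (.e (nat_lit 170478) (nat_lit 0) .nil) .nil))) 
(.lf (nat_lit 501678) (.g (nat_lit 2559) (.e (nat_lit 163978) (nat_lit 30) (.e (nat_lit 573485) (nat_lit 13) (.e (nat_lit 65619) (nat_lit 10) (.e (nat_lit 344117) (nat_lit 21) (.e (nat_lit 516170) (nat_lit 13) (.e (nat_lit 458774) (nat_lit 18) (.e (nat_lit 5543) (nat_lit 306) (.e (nat_lit 2599) (nat_lit 163) .nil)))))))) (.g (nat_lit 1) (.e (nat_lit 171201) (nat_lit 0) .nil) .nil)))))) 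
(.nd (nat_lit 7) (.nd (nat_lit 8) (.nd (nat_lit 9) 
(.lf (nat_lit 500846) (.g (nat_lit 4617) (.e (nat_lit 163977) (nat_lit 30) (.e (nat_lit 573493) (nat_lit 15) (.e (nat_lit 81951) (nat_lit 22) (.e (nat_lit 90170) (nat_lit 13) (.e (nat_lit 172035) (nat_lit 0) (.e (nat_lit 3402) (nat_lit 211) (.e (nat_lit 647181) (nat_lit 3) .nil))))))) (.g (nat_lit 1) (.e (nat_lit 169697) (nat_lit 0) .nil) .nil))) 
(.lf (nat_lit 501358) (.g (nat_lit 3473) (.e (nat_lit 163978) (nat_lit 30) (.e (nat_lit 573485) (nat_lit 13) (.e (nat_lit 65604) (nat_lit 9) (.e (nat_lit 336013) (nat_lit 2) (.e (nat_lit 90170) (nat_lit 13) (.e (nat_lit 172070) (nat_lit 4) (.e (nat_lit 229666) (nat_lit 240) (.e (nat_lit 2603) (nat_lit 163) .nil)))))))) (.g (nat_lit 1) (.e (nat_lit 170803) (nat_lit 0) .nil) .nil)))) 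
(.nd (nat_lit 9) 
(.lf (nat_lit 501102) (.g (nat_lit 2565) (.e (nat_lit 163978) (nat_lit 30) (.e (nat_lit 573479) (nat_lit 13) (.e (nat_lit 65619) (nat_lit 10) (.e (nat_lit 344117) (nat_lit 21) (.e (nat_lit 516170) (nat_lit 13) (.e (nat_lit 458774) (nat_lit 18) (.e (nat_lit 5547) (nat_lit 306) (.e (nat_lit 2601) (nat_lit 163) .nil)))))))) (.g (nat_lit 1) (.e (nat_lit 170367) (nat_lit 0) .nil) .nil))) 
(.lf (nat_lit 501614) (.g (nat_lit 2497) (.e (nat_lit 163978) (nat_lit 30) (.e (nat_lit 573485) (nat_lit 13) (.e (nat_lit 65619) (nat_lit 10) (.e (nat_lit 344117) (nat_lit 21) (.e (nat_lit 516153) (nat_lit 9) (.e (nat_lit 426025) (nat_lit 0) (.e (nat_lit 3399) (nat_lit 211) (.e (nat_lit 647180) (nat_lit 3) .nil)))))))) (.g (nat_lit 1) (.e (nat_lit 171126) (nat_lit 0) .nil) .nil))))) 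
(.nd (nat_lit 8) (.nd (nat_lit 9) 
(.lf (nat_lit 500974) (.g (nat_lit 5126) (.e (nat_lit 163977) (nat_lit 30) (.e (nat_lit 573493) (nat_lit 15) (.e (nat_lit 81956) (nat_lit 23) (.e (nat_lit 98359) (nat_lit 26) (.e (nat_lit 426142) (nat_lit 4) (.e (nat_lit 229663) (nat_lit 240) (.e (nat_lit 2612) (nat_lit 163) .nil))))))) (.g (nat_lit 1) (.e (nat_lit 170090) (nat_lit 0) .nil) .nil))) 
(.lf (nat_lit 501486) (.g (nat_lit 3542) (.e (nat_lit 163978) (nat_lit 30) (.e (nat_lit 573485) (nat_lit 13) (.e (nat_lit 65619) (nat_lit 10) (.e (nat_lit 344117) (nat_lit 21) (.e (nat_lit 516144) (nat_lit 9) (.e (nat_lit 426376) (nat_lit 15) (.e (nat_lit 2057) (nat_lit 142) (.e (nat_lit 704589) (nat_lit 3) .nil)))))))) (.g (nat_lit 1) (.e (nat_lit 170998) (nat_lit 0) .nil) .nil)))) 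
(.nd (nat_lit 9) 
(.lf (nat_lit 501230) (.g (nat_lit 3945) (.e (nat_lit 163978) (nat_lit 30) (.e (nat_lit 573484) (nat_lit 13) (.e (nat_lit 65610) (nat_lit 10) (.e (nat_lit 344117) (nat_lit 21) (.e (nat_lit 516151) (nat_lit 9) (.e (nat_lit 433920) (nat_lit 19) (.e (nat_lit 114432) (nat_lit 3) .nil))))))) (.g (nat_lit 1) (.e (nat_lit 170600) (nat_lit 0) .nil) .nil))) 
(.lf (nat_lit 501742) (.g (nat_lit 2927) (.e (nat_lit 163978) (nat_lit 30) (.e (nat_lit 573489) (nat_lit 14) (.e (nat_lit 73754) (nat_lit 8) (.e (nat_lit 557100) (nat_lit 13) (.e (nat_lit 172065) (nat_lit 3) (.e (nat_lit 204815) (nat_lit 17) (.e (nat_lit 2271) (nat_lit 149) (.e (nat_lit 761898) (nat_lit 15) .nil)))))))) (.g (nat_lit 1) (.e (nat_lit 171398) (nat_lit 0) .nil) .nil)))))))) 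
(.nd (nat_lit 5) (.nd (nat_lit 6) (.nd (nat_lit 7) (.nd (nat_lit 8) (.nd (nat_lit 9) 
(.lf (nat_lit 500766) (.g (nat_lit 1222) (.e (nat_lit 163977) (nat_lit 30) (.e (nat_lit 573491) (nat_lit 15) (.e (nat_lit 81954) (nat_lit 23) (.e (nat_lit 98363) (nat_lit 26) .nil)))) (.g (nat_lit 0) (.e (nat_lit 169445) (nat_lit 0) .nil) .nil))) 
(.lf (nat_lit 501278) (.g (nat_lit 3420) (.e (nat_lit 163978) (nat_lit 30) (.e (nat_lit 573485) (nat_lit 13) (.e (nat_lit 65604) (nat_lit 9) (.e (nat_lit 336013) (nat_lit 2) (.e (nat_lit 90170) (nat_lit 13) (.e (nat_lit 172033) (nat_lit 0) (.e (nat_lit 3399) (nat_lit 211) (.e (nat_lit 647181) (nat_lit 3) .nil)))))))) (.g (nat_lit 1) (.e (nat_lit 170719) (nat_lit 0) .nil) .nil)))) (.nd (nat_lit 9) 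
(.lf (nat_lit 501022) (.g (nat_lit 4436) (.e (nat_lit 163977) (nat_lit 30) (.e (nat_lit 573493) (nat_lit 15) (.e (nat_lit 81956) (nat_lit 23) (.e (nat_lit 98384) (nat_lit 32) (.e (nat_lit 475203) (nat_lit 40) .nil))))) (.g (nat_lit 0) (.e (nat_lit 170241) (nat_lit 0) .nil) .nil))) 
(.lf (nat_lit 501534) (.g (nat_lit 3891) (.e (nat_lit 163978) (nat_lit 30) (.e (nat_lit 573485) (nat_lit 13) (.e (nat_lit 65619) (nat_lit 10) (.e (nat_lit 344117) (nat_lit 21) (.e (nat_lit 516151) (nat_lit 9) (.e (nat_lit 426003) (nat_lit 0) (.e (nat_lit 3401) (nat_lit 211) (.e (nat_lit 647181) (nat_lit 3) .nil)))))))) (.g (nat_lit 1) (.e (nat_lit 171046) (nat_lit 0) .nil) .nil))))) 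
(.nd (nat_lit 8) (.nd (nat_lit 9) 
(.lf (nat_lit 500894) (.g (nat_lit 2910) (.e (nat_lit 163977) (nat_lit 30) (.e (nat_lit 573493) (nat_lit 15) (.e (nat_lit 81953) (nat_lit 22) (.e (nat_lit 90170) (nat_lit 13) (.e (nat_lit 172068) (nat_lit 4) (.e (nat_lit 229665) (nat_lit 240) (.e (nat_lit 2612) (nat_lit 163) .nil))))))) (.g (nat_lit 1) (.e (nat_lit 169866) (nat_lit 0) .nil) .nil))) 
(.lf (nat_lit 501406) (.g (nat_lit 2992) (.e (nat_lit 163978) (nat_lit 30) (.e (nat_lit 573485) (nat_lit 13) (.e (nat_lit 65604) (nat_lit 9) (.e (nat_lit 336028) (nat_lit 3) (.e (nat_lit 98361) (nat_lit 26) (.e (nat_lit 426109) (nat_lit 1) (.e (nat_lit 164347) (nat_lit 240) (.e (nat_lit 2610) (nat_lit 163) .nil)))))))) (.g (nat_lit 1) (.e (nat_lit 170890) (nat_lit 0) .nil) .nil)))) 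
(.nd (nat_lit 9) 
(.lf (nat_lit 501150) (.g (nat_lit 2892) (.e (nat_lit 163978) (nat_lit 30) (.e (nat_lit 573484) (nat_lit 13) (.e (nat_lit 65610) (nat_lit 10) (.e (nat_lit 344117) (nat_lit 21) (.e (nat_lit 516145) (nat_lit 9) (.e (nat_lit 426095) (nat_lit 0) (.e (nat_lit 2458) (nat_lit 157) (.e (nat_lit 5547) (nat_lit 306) (.e (nat_lit 2610) (nat_lit 163) .nil))))))))) (.g (nat_lit 1) (.e (nat_lit 170450) (nat_lit 0) .nil) .nil))) 
(.lf (nat_lit 501662) (.g (nat_lit 2347) (.e (nat_lit 163978) (nat_lit 30) (.e (nat_lit 573485) (nat_lit 13) (.e (nat_lit 65619) (nat_lit 10) (.e (nat_lit 344117) (nat_lit 21) (.e (nat_lit 516161) (nat_lit 10) .nil))))) (.g (nat_lit 0) (.e (nat_lit 171183) (nat_lit 0) .nil) .nil)))))) (.nd (nat_lit 7) (.nd (nat_lit 8) (.nd (nat_lit 9) 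
(.lf (nat_lit 500830) (.g (nat_lit 2574) (.e (nat_lit 163977) (nat_lit 30) (.e (nat_lit 573492) (nat_lit 15) (.e (nat_lit 81956) (nat_lit 23) (.e (nat_lit 98384) (nat_lit 32) (.e (nat_lit 475205) (nat_lit 40) .nil))))) (.g (nat_lit 0) (.e (nat_lit 169628) (nat_lit 0) .nil) .nil))) 
(.lf (nat_lit 501342) (.g (nat_lit 3122) (.e (nat_lit 163978) (nat_lit 30) (.e (nat_lit 573485) (nat_lit 13) (.e (nat_lit 65604) (nat_lit 9) (.e (nat_lit 336013) (nat_lit 2) (.e (nat_lit 90170) (nat_lit 13) (.e (nat_lit 172068) (nat_lit 4) (.e (nat_lit 229665) (nat_lit 240) (.e (nat_lit 2603) (nat_lit 163) .nil)))))))) (.g (nat_lit 1) (.e (nat_lit 170787) (nat_lit 0) .nil) .nil)))) 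
(.nd (nat_lit 9) 
(.lf (nat_lit 501086) (.g (nat_lit 2546) (.e (nat_lit 163978) (nat_lit 30) (.e (nat_lit 573479) (nat_lit 13) (.e (nat_lit 65619) (nat_lit 10) (.e (nat_lit 344117) (nat_lit 21) (.e (nat_lit 516159) (nat_lit 10) (.e (nat_lit 434209) (nat_lit 18) (.e (nat_lit 5548) (nat_lit 306) (.e (nat_lit 2601) (nat_lit 163) .nil)))))))) (.g (nat_lit 1) (.e (nat_lit 170351) (nat_lit 0) .nil) .nil))) 
(.lf (nat_lit 501598) (.g (nat_lit 3767) (.e (nat_lit 163978) (nat_lit 30) (.e (nat_lit 573485) (nat_lit 13) (.e (nat_lit 65619) (nat_lit 10) (.e (nat_lit 344117) (nat_lit 21) (.e (nat_lit 516151) (nat_lit 9) (.e (nat_lit 426465) (nat_lit 24) (.e (nat_lit 163584) (nat_lit 3) .nil))))))) (.g (nat_lit 1) (.e (nat_lit 171110) (nat_lit 0) .nil) .nil))))) (.nd (nat_lit 8) (.nd (nat_lit 9) 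
(.lf (nat_lit 500958) (.g (nat_lit 1434) (.e (nat_lit 163977) (nat_lit 30) (.e (nat_lit 573493) (nat_lit 15) (.e (nat_lit 81956) (nat_lit 23) (.e (nat_lit 98359) (nat_lit 26) .nil)))) (.g (nat_lit 0) (.e (nat_lit 170044) (nat_lit 0) .nil) .nil))) 
(.lf (nat_lit 501470) (.g (nat_lit 3313) (.e (nat_lit 163978) (nat_lit 30) (.e (nat_lit 573485) (nat_lit 13) (.e (nat_lit 65619) (nat_lit 10) (.e (nat_lit 344117) (nat_lit 21) (.e (nat_lit 516143) (nat_lit 9) (.e (nat_lit 426109) (nat_lit 1) (.e (nat_lit 164345) (nat_lit 240) (.e (nat_lit 2601) (nat_lit 163) .nil)))))))) (.g (nat_lit 1) (.e (nat_lit 170982) (nat_lit 0) .nil) .nil)))) 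
(.nd (nat_lit 9) 
(.lf (nat_lit 501214) (.g (nat_lit 2447) (.e (nat_lit 163978) (nat_lit 30) (.e (nat_lit 573484) (nat_lit 13) (.e (nat_lit 65610) (nat_lit 10) (.e (nat_lit 344117) (nat_lit 21) (.e (nat_lit 516151) (nat_lit 9) (.e (nat_lit 426043) (nat_lit 0) (.e (nat_lit 3407) (nat_lit 212) (.e (nat_lit 655374) (nat_lit 3) .nil)))))))) (.g (nat_lit 1) (.e (nat_lit 170556) (nat_lit 0) .nil) .nil))) 
(.lf (nat_lit 501726) (.g (nat_lit 4886) (.e (nat_lit 163978) (nat_lit 30) (.e (nat_lit 573487) (nat_lit 14) (.e (nat_lit 73753) (nat_lit 8) (.e (nat_lit 557103) (nat_lit 14) (.e (nat_lit 180251) (nat_lit 10) (.e (nat_lit 573475) (nat_lit 12) (.e (nat_lit 57503) (nat_lit 38) (.e (nat_lit 638995) (nat_lit 7) .nil)))))))) (.g (nat_lit 1) (.e (nat_lit 171367) (nat_lit 0) .nil) .nil))))))) 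
(.nd (nat_lit 6) (.nd (nat_lit 7) (.nd (nat_lit 8) (.nd (nat_lit 9) 
(.lf (nat_lit 500798) (.g (nat_lit 880) (.e (nat_lit 163977) (nat_lit 30) (.e (nat_lit 573492) (nat_lit 15) (.e (nat_lit 81954) (nat_lit 23) .nil))) (.g (nat_lit 0) (.e (nat_lit 169543) (nat_lit 0) .nil) .nil))) 
(.lf (nat_lit 501310) (.g (nat_lit 2448) (.e (nat_lit 163978) (nat_lit 30) (.e (nat_lit 573485) (nat_lit 13) (.e (nat_lit 65604) (nat_lit 9) (.e (nat_lit 336013) (nat_lit 2) (.e (nat_lit 90170) (nat_lit 13) (.e (nat_lit 172049) (nat_lit 0) (.e (nat_lit 3406) (nat_lit 212) (.e (nat_lit 655374) (nat_lit 3) .nil)))))))) (.g (nat_lit 1) (.e (nat_lit 170752) (nat_lit 0) .nil) .nil)))) (.nd (nat_lit 9) 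
(.lf (nat_lit 501054) (.g (nat_lit 3800) (.e (nat_lit 163978) (nat_lit 30) (.e (nat_lit 573479) (nat_lit 13) (.e (nat_lit 65619) (nat_lit 10) (.e (nat_lit 344117) (nat_lit 21) (.e (nat_lit 516151) (nat_lit 9) (.e (nat_lit 426040) (nat_lit 0) (.e (nat_lit 2458) (nat_lit 157) (.e (nat_lit 5547) (nat_lit 306) (.e (nat_lit 2610) (nat_lit 163) .nil))))))))) (.g (nat_lit 1) (.e (nat_lit 170319) (nat_lit 0) .nil) .nil))) 
(.lf (nat_lit 501566) (.g (nat_lit 3408) (.e (nat_lit 163978) (nat_lit 30) (.e (nat_lit 573485) (nat_lit 13) (.e (nat_lit 65619) (nat_lit 10) (.e (nat_lit 344117) (nat_lit 21) (.e (nat_lit 516151) (nat_lit 9) (.e (nat_lit 426097) (nat_lit 1) (.e (nat_lit 164345) (nat_lit 240) (.e (nat_lit 2601) (nat_lit 163) .nil)))))))) (.g (nat_lit 1) (.e (nat_lit 171078) (nat_lit 0) .nil) .nil))))) 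
(.nd (nat_lit 8) (.nd (nat_lit 9) 
(.lf (nat_lit 500926) (.g (nat_lit 2350) (.e (nat_lit 163977) (nat_lit 30) (.e (nat_lit 573493) (nat_lit 15) (.e (nat_lit 81954) (nat_lit 23) (.e (nat_lit 98365) (nat_lit 26) .nil)))) (.g (nat_lit 0) (.e (nat_lit 169941) (nat_lit 0) .nil) .nil))) 
(.lf (nat_lit 501438) (.g (nat_lit 4107) (.e (nat_lit 163978) (nat_lit 30) (.e (nat_lit 573485) (nat_lit 13) (.e (nat_lit 65604) (nat_lit 9) (.e (nat_lit 336028) (nat_lit 3) (.e (nat_lit 98367) (nat_lit 27) (.e (nat_lit 434209) (nat_lit 18) (.e (nat_lit 5548) (nat_lit 306) (.e (nat_lit 2601) (nat_lit 163) .nil)))))))) (.g (nat_lit 1) (.e (nat_lit 170938) (nat_lit 0) .nil) .nil)))) 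
(.nd (nat_lit 9) 
(.lf (nat_lit 501182) (.g (nat_lit 4023) (.e (nat_lit 163978) (nat_lit 30) (.e (nat_lit 573484) (nat_lit 13) (.e (nat_lit 65610) (nat_lit 10) (.e (nat_lit 344117) (nat_lit 21) (.e (nat_lit 516151) (nat_lit 9) (.e (nat_lit 426022) (nat_lit 0) (.e (nat_lit 3401) (nat_lit 211) (.e (nat_lit 647180) (nat_lit 3) .nil)))))))) (.g (nat_lit 1) (.e (nat_lit 170494) (nat_lit 0) .nil) .nil))) 
(.lf (nat_lit 501694) (.g (nat_lit 4482) (.e (nat_lit 163978) (nat_lit 30) (.e (nat_lit 573485) (nat_lit 13) (.e (nat_lit 65619) (nat_lit 10) (.e (nat_lit 344117) (nat_lit 21) (.e (nat_lit 516178) (nat_lit 15) (.e (nat_lit 475199) (nat_lit 40) (.e (nat_lit 704589) (nat_lit 3) .nil))))))) (.g (nat_lit 1) (.e (nat_lit 171220) (nat_lit 0) .nil) .nil)))))) 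
(.nd (nat_lit 7) (.nd (nat_lit 8) (.nd (nat_lit 9) 
(.lf (nat_lit 500862) (.g (nat_lit 4785) (.e (nat_lit 163977) (nat_lit 30) (.e (nat_lit 573493) (nat_lit 15) (.e (nat_lit 81951) (nat_lit 22) (.e (nat_lit 90170) (nat_lit 13) (.e (nat_lit 172070) (nat_lit 4) (.e (nat_lit 229666) (nat_lit 240) (.e (nat_lit 2612) (nat_lit 163) .nil))))))) (.g (nat_lit 1) (.e (nat_lit 169737) (nat_lit 0) .nil) .nil))) 
(.lf (nat_lit 501374) (.g (nat_lit 3248) (.e (nat_lit 163978) (nat_lit 30) (.e (nat_lit 573485) (nat_lit 13) (.e (nat_lit 65604) (nat_lit 9) (.e (nat_lit 336028) (nat_lit 3) (.e (nat_lit 98356) (nat_lit 26) (.e (nat_lit 426444) (nat_lit 19) (.e (nat_lit 114432) (nat_lit 3) .nil))))))) (.g (nat_lit 1) (.e (nat_lit 170826) (nat_lit 0) .nil) .nil)))) (.nd (nat_lit 9) 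
(.lf (nat_lit 501118) (.g (nat_lit 4847) (.e (nat_lit 163978) (nat_lit 30) (.e (nat_lit 573482) (nat_lit 13) (.e (nat_lit 65604) (nat_lit 9) (.e (nat_lit 336028) (nat_lit 3) (.e (nat_lit 98366) (nat_lit 27) (.e (nat_lit 434272) (nat_lit 38) (.e (nat_lit 655375) (nat_lit 3) .nil))))))) (.g (nat_lit 1) (.e (nat_lit 170383) (nat_lit 0) .nil) .nil))) 
(.lf (nat_lit 501630) (.g (nat_lit 3709) (.e (nat_lit 163978) (nat_lit 30) (.e (nat_lit 573485) (nat_lit 13) (.e (nat_lit 65619) (nat_lit 10) (.e (nat_lit 344117) (nat_lit 21) (.e (nat_lit 516159) (nat_lit 10) (.e (nat_lit 434209) (nat_lit 18) (.e (nat_lit 5546) (nat_lit 306) (.e (nat_lit 2600) (nat_lit 163) .nil)))))))) (.g (nat_lit 1) (.e (nat_lit 171146) (nat_lit 0) .nil) .nil))))) 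
(.nd (nat_lit 8) (.nd (nat_lit 9) 
(.lf (nat_lit 500990) (.g (nat_lit 5066) (.e (nat_lit 163977) (nat_lit 30) (.e (nat_lit 573493) (nat_lit 15) (.e (nat_lit 81956) (nat_lit 23) (.e (nat_lit 98365) (nat_lit 26) (.e (nat_lit 426105) (nat_lit 1) .nil))))) (.g (nat_lit 0) (.e (nat_lit 170120) (nat_lit 0) .nil) .nil))) 
(.lf (nat_lit 501502) (.g (nat_lit 4002) (.e (nat_lit 163978) (nat_lit 30) (.e (nat_lit 573485) (nat_lit 13) (.e (nat_lit 65619) (nat_lit 10) (.e (nat_lit 344117) (nat_lit 21) (.e (nat_lit 516145) (nat_lit 9) (.e (nat_lit 433920) (nat_lit 1) (.e (nat_lit 164348) (nat_lit 240) (.e (nat_lit 2610) (nat_lit 163) .nil)))))))) (.g (nat_lit 1) (.e (nat_lit 171014) (nat_lit 0) .nil) .nil)))) 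
(.nd (nat_lit 9) 
(.lf (nat_lit 501246) (.g (nat_lit 2644) (.e (nat_lit 163978) (nat_lit 30) (.e (nat_lit 573484) (nat_lit 13) (.e (nat_lit 65610) (nat_lit 10) (.e (nat_lit 344117) (nat_lit 21) (.e (nat_lit 516160) (nat_lit 10) (.e (nat_lit 434270) (nat_lit 38) (.e (nat_lit 655375) (nat_lit 3) .nil))))))) (.g (nat_lit 1) (.e (nat_lit 170651) (nat_lit 0) .nil) .nil))) 
(.lf (nat_lit 501758) (.g (nat_lit 3785) (.e (nat_lit 163978) (nat_lit 30) (.e (nat_lit 573489) (nat_lit 14) (.e (nat_lit 73754) (nat_lit 8) (.e (nat_lit 557100) (nat_lit 13) (.e (nat_lit 172067) (nat_lit 3) (.e (nat_lit 204817) (nat_lit 17) (.e (nat_lit 7936) (nat_lit 149) (.e (nat_lit 761897) (nat_lit 15) .nil)))))))) (.g (nat_lit 1) (.e (nat_lit 171428) (nat_lit 0) .nil) .nil)))))))))))) 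
(.nd (nat_lit 1) (.nd (nat_lit 2) (.nd (nat_lit 3) (.nd (nat_lit 4) (.nd (nat_lit 5) 
(.nd (nat_lit 6) (.nd (nat_lit 7) (.nd (nat_lit 8) (.nd (nat_lit 9) 
(.lf (nat_lit 500737) (.g (nat_lit 2639) (.e (nat_lit 163977) (nat_lit 30) (.e (nat_lit 573491) (nat_lit 15) (.e (nat_lit 81951) (nat_lit 22) (.e (nat_lit 90170) (nat_lit 13) (.e (nat_lit 172068) (nat_lit 4) (.e (nat_lit 229666) (nat_lit 240) (.e (nat_lit 2604) (nat_lit 163) .nil))))))) (.g (nat_lit 1) (.e (nat_lit 169359) (nat_lit 0) .nil) .nil))) 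
(.lf (nat_lit 501249) (.g (nat_lit 2999) (.e (nat_lit 163978) (nat_lit 30) (.e (nat_lit 573484) (nat_lit 13) (.e (nat_lit 65610) (nat_lit 10) (.e (nat_lit 344117) (nat_lit 21) (.e (nat_lit 516171) (nat_lit 13) (.e (nat_lit 458774) (nat_lit 18) (.e (nat_lit 5547) (nat_lit 306) (.e (nat_lit 2610) (nat_lit 163) .nil)))))))) (.g (nat_lit 1) (.e (nat_lit 170672) (nat_lit 0) .nil) .nil)))) 
(.nd (nat_lit 9) 
(.lf (nat_lit 500993) (.g (nat_lit 5710) (.e (nat_lit 163977) (nat_lit 30) (.e (nat_lit 573493) (nat_lit 15) (.e (nat_lit 81956) (nat_lit 23) (.e (nat_lit 98365) (nat_lit 26) (.e (nat_lit 426145) (nat_lit 4) (.e (nat_lit 229663) (nat_lit 240) (.e (nat_lit 2612) (nat_lit 163) .nil))))))) (.g (nat_lit 1) (.e (nat_lit 170131) (nat_lit 0) .nil) .nil))) 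
(.lf (nat_lit 501505) (.g (nat_lit 4241) (.e (nat_lit 163978) (nat_lit 30) (.e (nat_lit 573485) (nat_lit 13) (.e (nat_lit 65619) (nat_lit 10) (.e (nat_lit 344117) (nat_lit 21) (.e (nat_lit 516145) (nat_lit 9) (.e (nat_lit 426364) (nat_lit 15) (.e (nat_lit 2056) (nat_lit 142) (.e (nat_lit 704589) (nat_lit 3) .nil)))))))) (.g (nat_lit 1) (.e (nat_lit 171017) (nat_lit 0) .nil) .nil))))) 
(.nd (nat_lit 8) (.nd (nat_lit 9) 
(.lf (nat_lit 500865) (.g (nat_lit 4675) (.e (nat_lit 163977) (nat_lit 30) (.e (nat_lit 573493) (nat_lit 15) (.e (nat_lit 81951) (nat_lit 22) (.e (nat_lit 90185) (nat_lit 17) (.e (nat_lit 237584) (nat_lit 1) (.e (nat_lit 164348) (nat_lit 240) (.e (nat_lit 2610) (nat_lit 163) .nil))))))) (.g (nat_lit 1) (.e (nat_lit 169759) (nat_lit 0) .nil) .nil))) 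
(.lf (nat_lit 501377) (.g (nat_lit 2936) (.e (nat_lit 163978) (nat_lit 30) (.e (nat_lit 573485) (nat_lit 13) (.e (nat_lit 65604) (nat_lit 9) (.e (nat_lit 336028) (nat_lit 3) (.e (nat_lit 98359) (nat_lit 26) (.e (nat_lit 426003) (nat_lit 0) (.e (nat_lit 3397) (nat_lit 211) (.e (nat_lit 647180) (nat_lit 3) .nil)))))))) (.g (nat_lit 1) (.e (nat_lit 170829) (nat_lit 0) .nil) .nil)))) (.nd (nat_lit 9) 
(.lf (nat_lit 501121) (.g (nat_lit 4046) (.e (nat_lit 163978) (nat_lit 30) (.e (nat_lit 573482) (nat_lit 13) (.e (nat_lit 65619) (nat_lit 10) (.e (nat_lit 344117) (nat_lit 21) (.e (nat_lit 516151) (nat_lit 9) (.e (nat_lit 426042) (nat_lit 0) (.e (nat_lit 3407) (nat_lit 212) (.e (nat_lit 655375) (nat_lit 3) .nil)))))))) (.g (nat_lit 1) (.e (nat_lit 170386) (nat_lit 0) .nil) .nil))) 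
(.lf (nat_lit 501633) (.g (nat_lit 3590) (.e (nat_lit 163978) (nat_lit 30) (.e (nat_lit 573485) (nat_lit 13) (.e (nat_lit 65619) (nat_lit 10) (.e (nat_lit 344117) (nat_lit 21) (.e (nat_lit 516159) (nat_lit 10) (.e (nat_lit 434209) (nat_lit 18) (.e (nat_lit 5547) (nat_lit 306) (.e (nat_lit 2601) (nat_lit 163) .nil)))))))) (.g (nat_lit 1) (.e (nat_lit 171149) (nat_lit 0) .nil) .nil)))))) 
(.nd (nat_lit 7) (.nd (nat_lit 8) (.nd (nat_lit 9) 
(.lf (nat_lit 500801) (.g (nat_lit 1915) (.e (nat_lit 163977) (nat_lit 30) (.e (nat_lit 573492) (nat_lit 15) (.e (nat_lit 81956) (nat_lit 23) (.e (nat_lit 98355) (nat_lit 26) .nil)))) (.g (nat_lit 0) (.e (nat_lit 169572) (nat_lit 0) .nil) .nil))) 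
(.lf (nat_lit 501313) (.g (nat_lit 4263) (.e (nat_lit 163978) (nat_lit 30) (.e (nat_lit 573485) (nat_lit 13) (.e (nat_lit 65604) (nat_lit 9) (.e (nat_lit 336013) (nat_lit 2) (.e (nat_lit 90170) (nat_lit 13) (.e (nat_lit 172049) (nat_lit 0) (.e (nat_lit 3409) (nat_lit 212) (.e (nat_lit 655373) (nat_lit 3) .nil)))))))) (.g (nat_lit 1) (.e (nat_lit 170755) (nat_lit 0) .nil) .nil)))) (.nd (nat_lit 9) 
(.lf (nat_lit 501057) (.g (nat_lit 3720) (.e (nat_lit 163978) (nat_lit 30) (.e (nat_lit 573479) (nat_lit 13) (.e (nat_lit 65619) (nat_lit 10) (.e (nat_lit 344117) (nat_lit 21) (.e (nat_lit 516151) (nat_lit 9) (.e (nat_lit 426039) (nat_lit 0) (.e (nat_lit 2458) (nat_lit 157) (.e (nat_lit 5548) (nat_lit 306) (.e (nat_lit 2610) (nat_lit 163) .nil))))))))) (.g (nat_lit 1) (.e (nat_lit 170322) (nat_lit 0) .nil) .nil))) 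
(.lf (nat_lit 501569) (.g (nat_lit 4289) (.e (nat_lit 163978) (nat_lit 30) (.e (nat_lit 573485) (nat_lit 13) (.e (nat_lit 65619) (nat_lit 10) (.e (nat_lit 344117) (nat_lit 21) (.e (nat_lit 516151) (nat_lit 9) (.e (nat_lit 426097) (nat_lit 1) (.e (nat_lit 164347) (nat_lit 240) (.e (nat_lit 2599) (nat_lit 163) .nil)))))))) (.g (nat_lit 1) (.e (nat_lit 171081) (nat_lit 0) .nil) .nil))))) 
(.nd (nat_lit 8) (.nd (nat_lit 9) 
(.lf (nat_lit 500929) (.g (nat_lit 2051) (.e (nat_lit 163977) (nat_lit 30) (.e (nat_lit 573493) (nat_lit 15) (.e (nat_lit 81954) (nat_lit 23) (.e (nat_lit 98366) (nat_lit 27) .nil)))) (.g (nat_lit 0) (.e (nat_lit 169948) (nat_lit 0) .nil) .nil))) 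
(.lf (nat_lit 501441) (.g (nat_lit 2624) (.e (nat_lit 163978) (nat_lit 30) (.e (nat_lit 573485) (nat_lit 13) (.e (nat_lit 65604) (nat_lit 9) (.e (nat_lit 336028) (nat_lit 3) (.e (nat_lit 98367) (nat_lit 27) (.e (nat_lit 434270) (nat_lit 38) (.e (nat_lit 655375) (nat_lit 3) .nil))))))) (.g (nat_lit 1) (.e (nat_lit 170942) (nat_lit 0) .nil) .nil)))) (.nd (nat_lit 9) 
(.lf (nat_lit 501185) (.g (nat_lit 3858) (.e (nat_lit 163978) (nat_lit 30) (.e (nat_lit 573484) (nat_lit 13) (.e (nat_lit 65610) (nat_lit 10) (.e (nat_lit 344117) (nat_lit 21) (.e (nat_lit 516151) (nat_lit 9) (.e (nat_lit 426023) (nat_lit 0) (.e (nat_lit 3402) (nat_lit 211) (.e (nat_lit 647181) (nat_lit 3) .nil)))))))) (.g (nat_lit 1) (.e (nat_lit 170497) (nat_lit 0) .nil) .nil))) 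
(.lf (nat_lit 501697) (.g (nat_lit 5112) (.e (nat_lit 163978) (nat_lit 30) (.e (nat_lit 573485) (nat_lit 13) (.e (nat_lit 65619) (nat_lit 10) (.e (nat_lit 344117) (nat_lit 21) (.e (nat_lit 516179) (nat_lit 15) (.e (nat_lit 475199) (nat_lit 40) (.e (nat_lit 704589) (nat_lit 3) .nil))))))) (.g (nat_lit 1) (.e (nat_lit 171223) (nat_lit 0) .nil) .nil))))))) 
(.nd (nat_lit 6) (.nd (nat_lit 7) (.nd (nat_lit 8) (.nd (nat_lit 9) 
(.lf (nat_lit 500769) (.g (nat_lit 2921) (.e (nat_lit 163977) (nat_lit 30) (.e (nat_lit 573491) (nat_lit 15) (.e (nat_lit 81954) (nat_lit 23) (.e (nat_lit 98365) (nat_lit 26) (.e (nat_lit 426098) (nat_lit 1) (.e (nat_lit 164348) (nat_lit 240) (.e (nat_lit 2610) (nat_lit 163) .nil))))))) (.g (nat_lit 1) (.e (nat_lit 169451) (nat_lit 0) .nil) .nil))) 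
(.lf (nat_lit 501281) (.g (nat_lit 3035) (.e (nat_lit 163978) (nat_lit 30) (.e (nat_lit 573485) (nat_lit 13) (.e (nat_lit 65604) (nat_lit 9) (.e (nat_lit 336013) (nat_lit 2) (.e (nat_lit 90170) (nat_lit 13) (.e (nat_lit 172033) (nat_lit 0) (.e (nat_lit 3402) (nat_lit 211) (.e (nat_lit 647180) (nat_lit 3) .nil)))))))) (.g (nat_lit 1) (.e (nat_lit 170722) (nat_lit 0) .nil) .nil)))) (.nd (nat_lit 9) 
(.lf (nat_lit 501025) (.g (nat_lit 2267) (.e (nat_lit 163977) (nat_lit 30) (.e (nat_lit 573493) (nat_lit 15) (.e (nat_lit 81956) (nat_lit 23) (.e (nat_lit 98385) (nat_lit 32) .nil)))) (.g (nat_lit 0) (.e (nat_lit 170244) (nat_lit 0) .nil) .nil))) 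
(.lf (nat_lit 501537) (.g (nat_lit 3776) (.e (nat_lit 163978) (nat_lit 30) (.e (nat_lit 573485) (nat_lit 13) (.e (nat_lit 65619) (nat_lit 10) (.e (nat_lit 344117) (nat_lit 21) (.e (nat_lit 516151) (nat_lit 9) (.e (nat_lit 426022) (nat_lit 0) (.e (nat_lit 3401) (nat_lit 211) (.e (nat_lit 647180) (nat_lit 3) .nil)))))))) (.g (nat_lit 1) (.e (nat_lit 171049) (nat_lit 0) .nil) .nil))))) 
(.nd (nat_lit 8) (.nd (nat_lit 9) 
(.lf (nat_lit 500897) (.g (nat_lit 3590) (.e (nat_lit 163977) (nat_lit 30) (.e (nat_lit 573493) (nat_lit 15) (.e (nat_lit 81953) (nat_lit 22) (.e (nat_lit 90170) (nat_lit 13) (.e (nat_lit 172070) (nat_lit 4) (.e (nat_lit 229663) (nat_lit 240) (.e (nat_lit 2604) (nat_lit 163) .nil))))))) (.g (nat_lit 1) (.e (nat_lit 169869) (nat_lit 0) .nil) .nil))) 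
(.lf (nat_lit 501409) (.g (nat_lit 2351) (.e (nat_lit 163978) (nat_lit 30) (.e (nat_lit 573485) (nat_lit 13) (.e (nat_lit 65604) (nat_lit 9) (.e (nat_lit 336028) (nat_lit 3) (.e (nat_lit 98362) (nat_lit 26) (.e (nat_lit 426025) (nat_lit 0) (.e (nat_lit 3397) (nat_lit 211) (.e (nat_lit 647180) (nat_lit 3) .nil)))))))) (.g (nat_lit 1) (.e (nat_lit 170893) (nat_lit 0) .nil) .nil)))) (.nd (nat_lit 9) 
(.lf (nat_lit 501153) (.g (nat_lit 2248) (.e (nat_lit 163978) (nat_lit 30) (.e (nat_lit 573484) (nat_lit 13) (.e (nat_lit 65610) (nat_lit 10) (.e (nat_lit 344117) (nat_lit 21) (.e (nat_lit 516145) (nat_lit 9) (.e (nat_lit 433920) (nat_lit 1) (.e (nat_lit 164347) (nat_lit 240) (.e (nat_lit 2601) (nat_lit 163) .nil)))))))) (.g (nat_lit 1) (.e (nat_lit 170458) (nat_lit 0) .nil) .nil))) 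
(.lf (nat_lit 501665) (.g (nat_lit 2919) (.e (nat_lit 163978) (nat_lit 30) (.e (nat_lit 573485) (nat_lit 13) (.e (nat_lit 65619) (nat_lit 10) (.e (nat_lit 344117) (nat_lit 21) (.e (nat_lit 516161) (nat_lit 10) (.e (nat_lit 434209) (nat_lit 18) (.e (nat_lit 5547) (nat_lit 306) (.e (nat_lit 2611) (nat_lit 163) .nil)))))))) (.g (nat_lit 1) (.e (nat_lit 171186) (nat_lit 0) .nil) .nil)))))) 
(.nd (nat_lit 7) (.nd (nat_lit 8) (.nd (nat_lit 9) 
(.lf (nat_lit 500833) (.g (nat_lit 2100) (.e (nat_lit 163977) (nat_lit 30) (.e (nat_lit 573492) (nat_lit 15) (.e (nat_lit 81956) (nat_lit 23) (.e (nat_lit 98385) (nat_lit 32) (.e (nat_lit 475205) (nat_lit 40) .nil))))) (.g (nat_lit 0) (.e (nat_lit 169631) (nat_lit 0) .nil) .nil))) 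
(.lf (nat_lit 501345) (.g (nat_lit 2438) (.e (nat_lit 163978) (nat_lit 30) (.e (nat_lit 573485) (nat_lit 13) (.e (nat_lit 65604) (nat_lit 9) (.e (nat_lit 336013) (nat_lit 2) (.e (nat_lit 90170) (nat_lit 13) (.e (nat_lit 172069) (nat_lit 4) (.e (nat_lit 229663) (nat_lit 240) (.e (nat_lit 2598) (nat_lit 163) .nil)))))))) (.g (nat_lit 1) (.e (nat_lit 170790) (nat_lit 0) .nil) .nil)))) 
(.nd (nat_lit 9) 
(.lf (nat_lit 501089) (.g (nat_lit 3249) (.e (nat_lit 163978) (nat_lit 30) (.e (nat_lit 573479) (nat_lit 13) (.e (nat_lit 65619) (nat_lit 10) (.e (nat_lit 344117) (nat_lit 21) (.e (nat_lit 516159) (nat_lit 10) (.e (nat_lit 434272) (nat_lit 38) (.e (nat_lit 655373) (nat_lit 3) .nil))))))) (.g (nat_lit 1) (.e (nat_lit 170354) (nat_lit 0) .nil) .nil))) 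
(.lf (nat_lit 501601) (.g (nat_lit 3000) (.e (nat_lit 163978) (nat_lit 30) (.e (nat_lit 573485) (nat_lit 13) (.e (nat_lit 65619) (nat_lit 10) (.e (nat_lit 344117) (nat_lit 21) (.e (nat_lit 516152) (nat_lit 9) (.e (nat_lit 426025) (nat_lit 0) (.e (nat_lit 3397) (nat_lit 211) (.e (nat_lit 647180) (nat_lit 3) .nil)))))))) (.g (nat_lit 1) (.e (nat_lit 171113) (nat_lit 0) .nil) .nil))))) 
(.nd (nat_lit 8) (.nd (nat_lit 9) 
(.lf (nat_lit 500961) (.g (nat_lit 2826) (.e (nat_lit 163977) (nat_lit 30) (.e (nat_lit 573493) (nat_lit 15) (.e (nat_lit 81956) (nat_lit 23) (.e (nat_lit 98359) (nat_lit 26) (.e (nat_lit 426018) (nat_lit 0) .nil))))) (.g (nat_lit 0) (.e (nat_lit 170047) (nat_lit 0) .nil) .nil))) 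
(.lf (nat_lit 501473) (.g (nat_lit 4271) (.e (nat_lit 163978) (nat_lit 30) (.e (nat_lit 573485) (nat_lit 13) (.e (nat_lit 65619) (nat_lit 10) (.e (nat_lit 344117) (nat_lit 21) (.e (nat_lit 516143) (nat_lit 9) (.e (nat_lit 426109) (nat_lit 1) (.e (nat_lit 164347) (nat_lit 240) (.e (nat_lit 2599) (nat_lit 163) .nil)))))))) (.g (nat_lit 1) (.e (nat_lit 170985) (nat_lit 0) .nil) .nil)))) 
(.nd (nat_lit 9) 
(.lf (nat_lit 501217) (.g (nat_lit 4357) (.e (nat_lit 163978) (nat_lit 30) (.e (nat_lit 573484) (nat_lit 13) (.e (nat_lit 65610) (nat_lit 10) (.e (nat_lit 344117) (nat_lit 21) (.e (nat_lit 516151) (nat_lit 9) (.e (nat_lit 426049) (nat_lit 0) (.e (nat_lit 2515) (nat_lit 157) (.e (nat_lit 5448) (nat_lit 306) (.e (nat_lit 2612) (nat_lit 163) .nil))))))))) (.g (nat_lit 1) (.e (nat_lit 170559) (nat_lit 0) .nil) .nil))) 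
(.lf (nat_lit 501729) (.g (nat_lit 4269) (.e (nat_lit 163978) (nat_lit 30) (.e (nat_lit 573487) (nat_lit 14) (.e (nat_lit 73753) (nat_lit 8) (.e (nat_lit 557104) (nat_lit 14) (.e (nat_lit 180252) (nat_lit 10) (.e (nat_lit 573475) (nat_lit 12) (.e (nat_lit 57503) (nat_lit 38) (.e (nat_lit 638995) (nat_lit 7) .nil)))))))) (.g (nat_lit 1) (.e (nat_lit 171370) (nat_lit 0) .nil) .nil)))))))) 
(.nd (nat_lit 5) (.nd (nat_lit 6) (.nd (nat_lit 7) (.nd (nat_lit 8) (.nd (nat_lit 9) 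
(.lf (nat_lit 500753) (.g (nat_lit 2625) (.e (nat_lit 163977) (nat_lit 30) (.e (nat_lit 573491) (nat_lit 15) (.e (nat_lit 81954) (nat_lit 23) (.e (nat_lit 98358) (nat_lit 26) (.e (nat_lit 426444) (nat_lit 19) (.e (nat_lit 114432) (nat_lit 3) .nil)))))) (.g (nat_lit 1) (.e (nat_lit 169413) (nat_lit 0) .nil) .nil))) 
(.lf (nat_lit 501265) (.g (nat_lit 1053) (.e (nat_lit 163978) (nat_lit 30) (.e (nat_lit 573485) (nat_lit 13) (.e (nat_lit 65604) (nat_lit 9) (.e (nat_lit 336013) (nat_lit 2) .nil)))) (.g (nat_lit 0) (.e (nat_lit 170702) (nat_lit 0) .nil) .nil)))) (.nd (nat_lit 9) 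
(.lf (nat_lit 501009) (.g (nat_lit 2954) (.e (nat_lit 163977) (nat_lit 30) (.e (nat_lit 573493) (nat_lit 15) (.e (nat_lit 81956) (nat_lit 23) (.e (nat_lit 98367) (nat_lit 27) (.e (nat_lit 434271) (nat_lit 38) (.e (nat_lit 655374) (nat_lit 3) .nil)))))) (.g (nat_lit 1) (.e (nat_lit 170185) (nat_lit 0) .nil) .nil))) 
(.lf (nat_lit 501521) (.g (nat_lit 2441) (.e (nat_lit 163978) (nat_lit 30) (.e (nat_lit 573485) (nat_lit 13) (.e (nat_lit 65619) (nat_lit 10) (.e (nat_lit 344117) (nat_lit 21) (.e (nat_lit 516145) (nat_lit 9) (.e (nat_lit 426442) (nat_lit 19) (.e (nat_lit 114432) (nat_lit 3) .nil))))))) (.g (nat_lit 1) (.e (nat_lit 171033) (nat_lit 0) .nil) .nil))))) (.nd (nat_lit 8) (.nd (nat_lit 9) 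
(.lf (nat_lit 500881) (.g (nat_lit 4288) (.e (nat_lit 163977) (nat_lit 30) (.e (nat_lit 573493) (nat_lit 15) (.e (nat_lit 81953) (nat_lit 22) (.e (nat_lit 90170) (nat_lit 13) (.e (nat_lit 172039) (nat_lit 0) (.e (nat_lit 3397) (nat_lit 211) (.e (nat_lit 647181) (nat_lit 3) .nil))))))) (.g (nat_lit 1) (.e (nat_lit 169834) (nat_lit 0) .nil) .nil))) 
(.lf (nat_lit 501393) (.g (nat_lit 4598) (.e (nat_lit 163978) (nat_lit 30) (.e (nat_lit 573485) (nat_lit 13) (.e (nat_lit 65604) (nat_lit 9) (.e (nat_lit 336028) (nat_lit 3) (.e (nat_lit 98359) (nat_lit 26) (.e (nat_lit 426097) (nat_lit 1) (.e (nat_lit 164347) (nat_lit 240) (.e (nat_lit 2610) (nat_lit 163) .nil)))))))) (.g (nat_lit 1) (.e (nat_lit 170857) (nat_lit 0) .nil) .nil)))) 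
(.nd (nat_lit 9) 
(.lf (nat_lit 501137) (.g (nat_lit 2610) (.e (nat_lit 163978) (nat_lit 30) (.e (nat_lit 573484) (nat_lit 13) (.e (nat_lit 65610) (nat_lit 10) (.e (nat_lit 344117) (nat_lit 21) (.e (nat_lit 516143) (nat_lit 9) (.e (nat_lit 426444) (nat_lit 19) (.e (nat_lit 114432) (nat_lit 3) .nil))))))) (.g (nat_lit 1) (.e (nat_lit 170431) (nat_lit 0) .nil) .nil))) 
(.lf (nat_lit 501649) (.g (nat_lit 3953) (.e (nat_lit 163978) (nat_lit 30) (.e (nat_lit 573485) (nat_lit 13) (.e (nat_lit 65619) (nat_lit 10) (.e (nat_lit 344117) (nat_lit 21) (.e (nat_lit 516160) (nat_lit 10) (.e (nat_lit 434209) (nat_lit 18) (.e (nat_lit 5546) (nat_lit 306) (.e (nat_lit 2600) (nat_lit 163) .nil)))))))) (.g (nat_lit 1) (.e (nat_lit 171169) (nat_lit 0) .nil) .nil)))))) 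
(.nd (nat_lit 7) (.nd (nat_lit 8) (.nd (nat_lit 9) 
(.lf (nat_lit 500817) (.g (nat_lit 3695) (.e (nat_lit 163977) (nat_lit 30) (.e (nat_lit 573492) (nat_lit 15) (.e (nat_lit 81956) (nat_lit 23) (.e (nat_lit 98363) (nat_lit 26) .nil)))) (.g (nat_lit 0) (.e (nat_lit 169600) (nat_lit 0) .nil) .nil))) 
(.lf (nat_lit 501329) (.g (nat_lit 3364) (.e (nat_lit 163978) (nat_lit 30) (.e (nat_lit 573485) (nat_lit 13) (.e (nat_lit 65604) (nat_lit 9) (.e (nat_lit 336013) (nat_lit 2) (.e (nat_lit 90170) (nat_lit 13) (.e (nat_lit 172061) (nat_lit 1) (.e (nat_lit 164345) (nat_lit 240) (.e (nat_lit 2600) (nat_lit 163) .nil)))))))) (.g (nat_lit 1) (.e (nat_lit 170772) (nat_lit 0) .nil) .nil)))) 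
(.nd (nat_lit 9) 
(.lf (nat_lit 501073) (.g (nat_lit 4446) (.e (nat_lit 163978) (nat_lit 30) (.e (nat_lit 573479) (nat_lit 13) (.e (nat_lit 65619) (nat_lit 10) (.e (nat_lit 344117) (nat_lit 21) (.e (nat_lit 516151) (nat_lit 9) (.e (nat_lit 426104) (nat_lit 1) (.e (nat_lit 164347) (nat_lit 240) (.e (nat_lit 2611) (nat_lit 163) .nil)))))))) (.g (nat_lit 1) (.e (nat_lit 170338) (nat_lit 0) .nil) .nil))) 
(.lf (nat_lit 501585) (.g (nat_lit 4246) (.e (nat_lit 163978) (nat_lit 30) (.e (nat_lit 573485) (nat_lit 13) (.e (nat_lit 65619) (nat_lit 10) (.e (nat_lit 344117) (nat_lit 21) (.e (nat_lit 516151) (nat_lit 9) (.e (nat_lit 426142) (nat_lit 4) (.e (nat_lit 229665) (nat_lit 240) (.e (nat_lit 2602) (nat_lit 163) .nil)))))))) (.g (nat_lit 1) (.e (nat_lit 171097) (nat_lit 0) .nil) .nil))))) 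
(.nd (nat_lit 8) (.nd (nat_lit 9) 
(.lf (nat_lit 500945) (.g (nat_lit 2546) (.e (nat_lit 163977) (nat_lit 30) (.e (nat_lit 573493) (nat_lit 15) (.e (nat_lit 81956) (nat_lit 23) (.e (nat_lit 98356) (nat_lit 26) (.e (nat_lit 433920) (nat_lit 0) .nil))))) (.g (nat_lit 0) (.e (nat_lit 170022) (nat_lit 0) .nil) .nil))) 
(.lf (nat_lit 501457) (.g (nat_lit 2294) (.e (nat_lit 163978) (nat_lit 30) (.e (nat_lit 573485) (nat_lit 13) (.e (nat_lit 65604) (nat_lit 9) (.e (nat_lit 336028) (nat_lit 3) (.e (nat_lit 106240) (nat_lit 32) (.e (nat_lit 475197) (nat_lit 40) (.e (nat_lit 704589) (nat_lit 3) .nil))))))) (.g (nat_lit 1) (.e (nat_lit 170961) (nat_lit 0) .nil) .nil)))) (.nd (nat_lit 9) 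
(.lf (nat_lit 501201) (.g (nat_lit 2664) (.e (nat_lit 163978) (nat_lit 30) (.e (nat_lit 573484) (nat_lit 13) (.e (nat_lit 65610) (nat_lit 10) (.e (nat_lit 344117) (nat_lit 21) (.e (nat_lit 516151) (nat_lit 9) (.e (nat_lit 426042) (nat_lit 0) (.e (nat_lit 3403) (nat_lit 212) (.e (nat_lit 655373) (nat_lit 3) .nil)))))))) (.g (nat_lit 1) (.e (nat_lit 170540) (nat_lit 0) .nil) .nil))) 
(.lf (nat_lit 501713) (.g (nat_lit 4640) (.e (nat_lit 163978) (nat_lit 30) (.e (nat_lit 573485) (nat_lit 13) (.e (nat_lit 65620) (nat_lit 10) (.e (nat_lit 344117) (nat_lit 21) (.e (nat_lit 516179) (nat_lit 15) (.e (nat_lit 475199) (nat_lit 40) (.e (nat_lit 704589) (nat_lit 3) .nil))))))) (.g (nat_lit 1) (.e (nat_lit 171280) (nat_lit 0) .nil) .nil))))))) 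
(.nd (nat_lit 6) (.nd (nat_lit 7) (.nd (nat_lit 8) (.nd (nat_lit 9) 
(.lf (nat_lit 500785) (.g (nat_lit 376) (.e (nat_lit 163977) (nat_lit 30) (.e (nat_lit 573491) (nat_lit 15) (.e (nat_lit 81956) (nat_lit 23) .nil))) (.g (nat_lit 0) (.e (nat_lit 169510) (nat_lit 0) .nil) .nil))) 
(.lf (nat_lit 501297) (.g (nat_lit 4122) (.e (nat_lit 163978) (nat_lit 30) (.e (nat_lit 573485) (nat_lit 13) (.e (nat_lit 65604) (nat_lit 9) (.e (nat_lit 336013) (nat_lit 2) (.e (nat_lit 90170) (nat_lit 13) (.e (nat_lit 172043) (nat_lit 0) (.e (nat_lit 3409) (nat_lit 212) (.e (nat_lit 655375) (nat_lit 3) .nil)))))))) (.g (nat_lit 1) (.e (nat_lit 170739) (nat_lit 0) .nil) .nil)))) (.nd (nat_lit 9) 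
(.lf (nat_lit 501041) (.g (nat_lit 3910) (.e (nat_lit 163978) (nat_lit 30) (.e (nat_lit 573479) (nat_lit 13) (.e (nat_lit 65619) (nat_lit 10) (.e (nat_lit 344117) (nat_lit 21) (.e (nat_lit 516145) (nat_lit 9) (.e (nat_lit 433920) (nat_lit 1) (.e (nat_lit 164348) (nat_lit 240) (.e (nat_lit 2610) (nat_lit 163) .nil)))))))) (.g (nat_lit 1) (.e (nat_lit 170306) (nat_lit 0) .nil) .nil))) 
(.lf (nat_lit 501553) (.g (nat_lit 4071) (.e (nat_lit 163978) (nat_lit 30) (.e (nat_lit 573485) (nat_lit 13) (.e (nat_lit 65619) (nat_lit 10) (.e (nat_lit 344117) (nat_lit 21) (.e (nat_lit 516151) (nat_lit 9) (.e (nat_lit 426042) (nat_lit 0) (.e (nat_lit 3407) (nat_lit 212) (.e (nat_lit 655375) (nat_lit 3) .nil)))))))) (.g (nat_lit 1) (.e (nat_lit 171065) (nat_lit 0) .nil) .nil))))) 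
(.nd (nat_lit 8) (.nd (nat_lit 9) 
(.lf (nat_lit 500913) (.g (nat_lit 2157) (.e (nat_lit 163977) (nat_lit 30) (.e (nat_lit 573493) (nat_lit 15) (.e (nat_lit 81954) (nat_lit 23) (.e (nat_lit 98356) (nat_lit 26) .nil)))) (.g (nat_lit 0) (.e (nat_lit 169915) (nat_lit 0) .nil) .nil))) 
(.lf (nat_lit 501425) (.g (nat_lit 3925) (.e (nat_lit 163978) (nat_lit 30) (.e (nat_lit 573485) (nat_lit 13) (.e (nat_lit 65604) (nat_lit 9) (.e (nat_lit 336028) (nat_lit 3) (.e (nat_lit 98366) (nat_lit 27) (.e (nat_lit 434209) (nat_lit 18) (.e (nat_lit 5548) (nat_lit 306) (.e (nat_lit 2601) (nat_lit 163) .nil)))))))) (.g (nat_lit 1) (.e (nat_lit 170918) (nat_lit 0) .nil) .nil)))) 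
(.nd (nat_lit 9) 
(.lf (nat_lit 501169) (.g (nat_lit 2909) (.e (nat_lit 163978) (nat_lit 30) (.e (nat_lit 573484) (nat_lit 13) (.e (nat_lit 65610) (nat_lit 10) (.e (nat_lit 344117) (nat_lit 21) (.e (nat_lit 516147) (nat_lit 9) (.e (nat_lit 426469) (nat_lit 24) (.e (nat_lit 163584) (nat_lit 3) .nil))))))) (.g (nat_lit 1) (.e (nat_lit 170481) (nat_lit 0) .nil) .nil))) 
(.lf (nat_lit 501681) (.g (nat_lit 3962) (.e (nat_lit 163978) (nat_lit 30) (.e (nat_lit 573485) (nat_lit 13) (.e (nat_lit 65619) (nat_lit 10) (.e (nat_lit 344117) (nat_lit 21) (.e (nat_lit 516170) (nat_lit 13) (.e (nat_lit 458774) (nat_lit 18) (.e (nat_lit 5548) (nat_lit 306) (.e (nat_lit 2601) (nat_lit 163) .nil)))))))) (.g (nat_lit 1) (.e (nat_lit 171205) (nat_lit 0) .nil) .nil)))))) 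
(.nd (nat_lit 7) (.nd (nat_lit 8) (.nd (nat_lit 9) 
(.lf (nat_lit 500849) (.g (nat_lit 4310) (.e (nat_lit 163977) (nat_lit 30) (.e (nat_lit 573493) (nat_lit 15) (.e (nat_lit 81951) (nat_lit 22) (.e (nat_lit 90170) (nat_lit 13) (.e (nat_lit 172039) (nat_lit 0) (.e (nat_lit 3399) (nat_lit 211) (.e (nat_lit 647181) (nat_lit 3) .nil))))))) (.g (nat_lit 1) (.e (nat_lit 169700) (nat_lit 0) .nil) .nil))) 
(.lf (nat_lit 501361) (.g (nat_lit 3763) (.e (nat_lit 163978) (nat_lit 30) (.e (nat_lit 573485) (nat_lit 13) (.e (nat_lit 65604) (nat_lit 9) (.e (nat_lit 336013) (nat_lit 2) (.e (nat_lit 90170) (nat_lit 13) (.e (nat_lit 172137) (nat_lit 15) (.e (nat_lit 2059) (nat_lit 142) (.e (nat_lit 704589) (nat_lit 3) .nil)))))))) (.g (nat_lit 1) (.e (nat_lit 170806) (nat_lit 0) .nil) .nil)))) 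
(.nd (nat_lit 9) 
(.lf (nat_lit 501105) (.g (nat_lit 3165) (.e (nat_lit 163978) (nat_lit 30) (.e (nat_lit 573479) (nat_lit 13) (.e (nat_lit 65619) (nat_lit 10) (.e (nat_lit 344117) (nat_lit 21) (.e (nat_lit 516179) (nat_lit 15) (.e (nat_lit 475198) (nat_lit 40) (.e (nat_lit 704589) (nat_lit 3) .nil))))))) (.g (nat_lit 1) (.e (nat_lit 170370) (nat_lit 0) .nil) .nil))) 
(.lf (nat_lit 501617) (.g (nat_lit 2863) (.e (nat_lit 163978) (nat_lit 30) (.e (nat_lit 573485) (nat_lit 13) (.e (nat_lit 65619) (nat_lit 10) (.e (nat_lit 344117) (nat_lit 21) (.e (nat_lit 516153) (nat_lit 9) (.e (nat_lit 426109) (nat_lit 1) (.e (nat_lit 164345) (nat_lit 240) (.e (nat_lit 2611) (nat_lit 163) .nil)))))))) (.g (nat_lit 1) (.e (nat_lit 171129) (nat_lit 0) .nil) .nil))))) 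
(.nd (nat_lit 8) (.nd (nat_lit 9) 
(.lf (nat_lit 500977) (.g (nat_lit 2281) (.e (nat_lit 163977) (nat_lit 30) (.e (nat_lit 573493) (nat_lit 15) (.e (nat_lit 81956) (nat_lit 23) (.e (nat_lit 98360) (nat_lit 26) .nil)))) (.g (nat_lit 0) (.e (nat_lit 170095) (nat_lit 0) .nil) .nil))) 
(.lf (nat_lit 501489) (.g (nat_lit 3640) (.e (nat_lit 163978) (nat_lit 30) (.e (nat_lit 573485) (nat_lit 13) (.e (nat_lit 65619) (nat_lit 10) (.e (nat_lit 344117) (nat_lit 21) (.e (nat_lit 516144) (nat_lit 9) (.e (nat_lit 426393) (nat_lit 15) (.e (nat_lit 2056) (nat_lit 142) (.e (nat_lit 704589) (nat_lit 3) .nil)))))))) (.g (nat_lit 1) (.e (nat_lit 171001) (nat_lit 0) .nil) .nil)))) 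
(.nd (nat_lit 9) 
(.lf (nat_lit 501233) (.g (nat_lit 2374) (.e (nat_lit 163978) (nat_lit 30) (.e (nat_lit 573484) (nat_lit 13) (.e (nat_lit 65610) (nat_lit 10) (.e (nat_lit 344117) (nat_lit 21) (.e (nat_lit 516152) (nat_lit 9) .nil))))) (.g (nat_lit 0) (.e (nat_lit 170603) (nat_lit 0) .nil) .nil))) 
(.lf (nat_lit 501745) (.g (nat_lit 2742) (.e (nat_lit 163978) (nat_lit 30) (.e (nat_lit 573489) (nat_lit 14) (.e (nat_lit 73754) (nat_lit 8) (.e (nat_lit 557100) (nat_lit 13) (.e (nat_lit 172065) (nat_lit 3) (.e (nat_lit 204817) (nat_lit 17) (.e (nat_lit 2271) (nat_lit 149) (.e (nat_lit 761898) (nat_lit 15) .nil)))))))) (.g (nat_lit 1) (.e (nat_lit 171401) (nat_lit 0) .nil) .nil))))))))) 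
(.nd (nat_lit 4) (.nd (nat_lit 5) (.nd (nat_lit 6) (.nd (nat_lit 7) (.nd (nat_lit 8) 
(.nd (nat_lit 9) 
(.lf (nat_lit 500745) (.g (nat_lit 2126) (.e (nat_lit 163977) (nat_lit 30) (.e (nat_lit 573491) (nat_lit 15) (.e (nat_lit 81954) (nat_lit 23) (.e (nat_lit 98355) (nat_lit 26) (.e (nat_lit 426444) (nat_lit 19) (.e (nat_lit 114432) (nat_lit 3) .nil)))))) (.g (nat_lit 1) (.e (nat_lit 169392) (nat_lit 0) .nil) .nil))) 
(.lf (nat_lit 501257) (.g (nat_lit 2604) (.e (nat_lit 163978) (nat_lit 30) (.e (nat_lit 573484) (nat_lit 13) (.e (nat_lit 65610) (nat_lit 10) (.e (nat_lit 344117) (nat_lit 21) (.e (nat_lit 516179) (nat_lit 15) (.e (nat_lit 483072) (nat_lit 40) (.e (nat_lit 712448) (nat_lit 3) .nil))))))) (.g (nat_lit 1) (.e (nat_lit 170682) (nat_lit 0) .nil) .nil)))) (.nd (nat_lit 9) 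
(.lf (nat_lit 501001) (.g (nat_lit 1409) (.e (nat_lit 163977) (nat_lit 30) (.e (nat_lit 573493) (nat_lit 15) (.e (nat_lit 81956) (nat_lit 23) (.e (nat_lit 98367) (nat_lit 27) .nil)))) (.g (nat_lit 0) (.e (nat_lit 170146) (nat_lit 0) .nil) .nil))) 
(.lf (nat_lit 501513) (.g (nat_lit 4196) (.e (nat_lit 163978) (nat_lit 30) (.e (nat_lit 573485) (nat_lit 13) (.e (nat_lit 65619) (nat_lit 10) (.e (nat_lit 344117) (nat_lit 21) (.e (nat_lit 516145) (nat_lit 9) (.e (nat_lit 426393) (nat_lit 15) (.e (nat_lit 2058) (nat_lit 142) (.e (nat_lit 704589) (nat_lit 3) .nil)))))))) (.g (nat_lit 1) (.e (nat_lit 171025) (nat_lit 0) .nil) .nil))))) 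
(.nd (nat_lit 8) (.nd (nat_lit 9) 
(.lf (nat_lit 500873) (.g (nat_lit 3193) (.e (nat_lit 163977) (nat_lit 30) (.e (nat_lit 573493) (nat_lit 15) (.e (nat_lit 81953) (nat_lit 22) (.e (nat_lit 90170) (nat_lit 13) (.e (nat_lit 172032) (nat_lit 0) (.e (nat_lit 3401) (nat_lit 211) (.e (nat_lit 647181) (nat_lit 3) .nil))))))) (.g (nat_lit 1) (.e (nat_lit 169826) (nat_lit 0) .nil) .nil))) 
(.lf (nat_lit 501385) (.g (nat_lit 3797) (.e (nat_lit 163978) (nat_lit 30) (.e (nat_lit 573485) (nat_lit 13) (.e (nat_lit 65604) (nat_lit 9) (.e (nat_lit 336028) (nat_lit 3) (.e (nat_lit 98359) (nat_lit 26) (.e (nat_lit 426022) (nat_lit 0) (.e (nat_lit 3402) (nat_lit 211) (.e (nat_lit 647180) (nat_lit 3) .nil)))))))) (.g (nat_lit 1) (.e (nat_lit 170837) (nat_lit 0) .nil) .nil)))) (.nd (nat_lit 9) 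
(.lf (nat_lit 501129) (.g (nat_lit 1894) (.e (nat_lit 163978) (nat_lit 30) (.e (nat_lit 573484) (nat_lit 13) (.e (nat_lit 65610) (nat_lit 10) (.e (nat_lit 344116) (nat_lit 21) .nil)))) (.g (nat_lit 0) (.e (nat_lit 170411) (nat_lit 0) .nil) .nil))) 
(.lf (nat_lit 501641) (.g (nat_lit 2778) (.e (nat_lit 163978) (nat_lit 30) (.e (nat_lit 573485) (nat_lit 13) (.e (nat_lit 65619) (nat_lit 10) (.e (nat_lit 344117) (nat_lit 21) (.e (nat_lit 516159) (nat_lit 10) (.e (nat_lit 434270) (nat_lit 38) (.e (nat_lit 655375) (nat_lit 3) .nil))))))) (.g (nat_lit 1) (.e (nat_lit 171158) (nat_lit 0) .nil) .nil)))))) 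
(.nd (nat_lit 7) (.nd (nat_lit 8) (.nd (nat_lit 9) 
(.lf (nat_lit 500809) (.g (nat_lit 3101) (.e (nat_lit 163977) (nat_lit 30) (.e (nat_lit 573492) (nat_lit 15) (.e (nat_lit 81956) (nat_lit 23) (.e (nat_lit 98357) (nat_lit 26) (.e (nat_lit 426442) (nat_lit 19) (.e (nat_lit 114432) (nat_lit 3) .nil)))))) (.g (nat_lit 1) (.e (nat_lit 169592) (nat_lit 0) .nil) .nil))) 
(.lf (nat_lit 501321) (.g (nat_lit 4995) (.e (nat_lit 163978) (nat_lit 30) (.e (nat_lit 573485) (nat_lit 13) (.e (nat_lit 65604) (nat_lit 9) (.e (nat_lit 336013) (nat_lit 2) (.e (nat_lit 90170) (nat_lit 13) (.e (nat_lit 172059) (nat_lit 1) (.e (nat_lit 164347) (nat_lit 240) (.e (nat_lit 2610) (nat_lit 163) .nil)))))))) (.g (nat_lit 1) (.e (nat_lit 170764) (nat_lit 0) .nil) .nil)))) 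
(.nd (nat_lit 9) 
(.lf (nat_lit 501065) (.g (nat_lit 4572) (.e (nat_lit 163978) (nat_lit 30) (.e (nat_lit 573479) (nat_lit 13) (.e (nat_lit 65619) (nat_lit 10) (.e (nat_lit 344117) (nat_lit 21) (.e (nat_lit 516151) (nat_lit 9) (.e (nat_lit 426042) (nat_lit 0) (.e (nat_lit 3408) (nat_lit 212) (.e (nat_lit 655375) (nat_lit 3) .nil)))))))) (.g (nat_lit 1) (.e (nat_lit 170330) (nat_lit 0) .nil) .nil))) 
(.lf (nat_lit 501577) (.g (nat_lit 4624) (.e (nat_lit 163978) (nat_lit 30) (.e (nat_lit 573485) (nat_lit 13) (.e (nat_lit 65619) (nat_lit 10) (.e (nat_lit 344117) (nat_lit 21) (.e (nat_lit 516151) (nat_lit 9) (.e (nat_lit 426104) (nat_lit 1) (.e (nat_lit 164347) (nat_lit 240) (.e (nat_lit 2611) (nat_lit 163) .nil)))))))) (.g (nat_lit 1) (.e (nat_lit 171089) (nat_lit 0) .nil) .nil))))) 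
(.nd (nat_lit 8) (.nd (nat_lit 9) 
(.lf (nat_lit 500937) (.g (nat_lit 2217) (.e (nat_lit 163977) (nat_lit 30) (.e (nat_lit 573493) (nat_lit 15) (.e (nat_lit 81954) (nat_lit 23) (.e (nat_lit 98384) (nat_lit 32) .nil)))) (.g (nat_lit 0) (.e (nat_lit 169972) (nat_lit 0) .nil) .nil))) 
(.lf (nat_lit 501449) (.g (nat_lit 4338) (.e (nat_lit 163978) (nat_lit 30) (.e (nat_lit 573485) (nat_lit 13) (.e (nat_lit 65604) (nat_lit 9) (.e (nat_lit 336028) (nat_lit 3) (.e (nat_lit 98383) (nat_lit 32) (.e (nat_lit 475199) (nat_lit 40) (.e (nat_lit 704589) (nat_lit 3) .nil))))))) (.g (nat_lit 1) (.e (nat_lit 170953) (nat_lit 0) .nil) .nil)))) (.nd (nat_lit 9) 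
(.lf (nat_lit 501193) (.g (nat_lit 4941) (.e (nat_lit 163978) (nat_lit 30) (.e (nat_lit 573484) (nat_lit 13) (.e (nat_lit 65610) (nat_lit 10) (.e (nat_lit 344117) (nat_lit 21) (.e (nat_lit 516151) (nat_lit 9) (.e (nat_lit 426038) (nat_lit 0) (.e (nat_lit 2458) (nat_lit 157) (.e (nat_lit 5548) (nat_lit 306) (.e (nat_lit 2610) (nat_lit 163) .nil))))))))) (.g (nat_lit 1) (.e (nat_lit 170515) (nat_lit 0) .nil) .nil))) 
(.lf (nat_lit 501705) (.g (nat_lit 4406) (.e (nat_lit 163978) (nat_lit 30) (.e (nat_lit 573485) (nat_lit 13) (.e (nat_lit 65619) (nat_lit 10) (.e (nat_lit 344117) (nat_lit 21) (.e (nat_lit 516181) (nat_lit 15) (.e (nat_lit 475199) (nat_lit 40) (.e (nat_lit 704589) (nat_lit 3) .nil))))))) (.g (nat_lit 1) (.e (nat_lit 171231) (nat_lit 0) .nil) .nil))))))) 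
(.nd (nat_lit 6) (.nd (nat_lit 7) (.nd (nat_lit 8) (.nd (nat_lit 9) 
(.lf (nat_lit 500777) (.g (nat_lit 2174) (.e (nat_lit 163977) (nat_lit 30) (.e (nat_lit 573491) (nat_lit 15) (.e (nat_lit 81954) (nat_lit 23) (.e (nat_lit 98367) (nat_lit 27) (.e (nat_lit 434270) (nat_lit 38) (.e (nat_lit 655375) (nat_lit 3) .nil)))))) (.g (nat_lit 1) (.e (nat_lit 169493) (nat_lit 0) .nil) .nil))) 
(.lf (nat_lit 501289) (.g (nat_lit 3487) (.e (nat_lit 163978) (nat_lit 30) (.e (nat_lit 573485) (nat_lit 13) (.e (nat_lit 65604) (nat_lit 9) (.e (nat_lit 336013) (nat_lit 2) (.e (nat_lit 90170) (nat_lit 13) (.e (nat_lit 172042) (nat_lit 0) (.e (nat_lit 2458) (nat_lit 157) (.e (nat_lit 5548) (nat_lit 306) (.e (nat_lit 2599) (nat_lit 163) .nil))))))))) (.g (nat_lit 1) (.e (nat_lit 170731) (nat_lit 0) .nil) .nil)))) 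
(.nd (nat_lit 9) 
(.lf (nat_lit 501033) (.g (nat_lit 4038) (.e (nat_lit 163978) (nat_lit 30) (.e (nat_lit 573479) (nat_lit 13) (.e (nat_lit 65604) (nat_lit 9) (.e (nat_lit 336013) (nat_lit 2) (.e (nat_lit 90170) (nat_lit 13) (.e (nat_lit 172059) (nat_lit 1) (.e (nat_lit 164348) (nat_lit 240) (.e (nat_lit 2611) (nat_lit 163) .nil)))))))) (.g (nat_lit 1) (.e (nat_lit 170297) (nat_lit 0) .nil) .nil))) 
(.lf (nat_lit 501545) (.g (nat_lit 4239) (.e (nat_lit 163978) (nat_lit 30) (.e (nat_lit 573485) (nat_lit 13) (.e (nat_lit 65619) (nat_lit 10) (.e (nat_lit 344117) (nat_lit 21) (.e (nat_lit 516151) (nat_lit 9) (.e (nat_lit 426042) (nat_lit 0) (.e (nat_lit 2458) (nat_lit 157) (.e (nat_lit 5546) (nat_lit 306) (.e (nat_lit 2611) (nat_lit 163) .nil))))))))) (.g (nat_lit 1) (.e (nat_lit 171057) (nat_lit 0) .nil) .nil))))) 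
(.nd (nat_lit 8) (.nd (nat_lit 9) 
(.lf (nat_lit 500905) (.g (nat_lit 3288) (.e (nat_lit 163977) (nat_lit 30) (.e (nat_lit 573493) (nat_lit 15) (.e (nat_lit 81953) (nat_lit 22) (.e (nat_lit 90174) (nat_lit 14) (.e (nat_lit 180228) (nat_lit 0) .nil))))) (.g (nat_lit 0) (.e (nat_lit 169885) (nat_lit 0) .nil) .nil))) 
(.lf (nat_lit 501417) (.g (nat_lit 2729) (.e (nat_lit 163978) (nat_lit 30) (.e (nat_lit 573485) (nat_lit 13) (.e (nat_lit 65604) (nat_lit 9) (.e (nat_lit 336028) (nat_lit 3) (.e (nat_lit 106240) (nat_lit 26) (.e (nat_lit 426443) (nat_lit 19) (.e (nat_lit 114432) (nat_lit 3) .nil))))))) (.g (nat_lit 1) (.e (nat_lit 170905) (nat_lit 0) .nil) .nil)))) (.nd (nat_lit 9) 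
(.lf (nat_lit 501161) (.g (nat_lit 3921) (.e (nat_lit 163978) (nat_lit 30) (.e (nat_lit 573484) (nat_lit 13) (.e (nat_lit 65610) (nat_lit 10) (.e (nat_lit 344117) (nat_lit 21) (.e (nat_lit 516145) (nat_lit 9) (.e (nat_lit 426466) (nat_lit 24) (.e (nat_lit 163584) (nat_lit 3) .nil))))))) (.g (nat_lit 1) (.e (nat_lit 170473) (nat_lit 0) .nil) .nil))) 
(.lf (nat_lit 501673) (.g (nat_lit 3615) (.e (nat_lit 163978) (nat_lit 30) (.e (nat_lit 573485) (nat_lit 13) (.e (nat_lit 65619) (nat_lit 10) (.e (nat_lit 344117) (nat_lit 21) (.e (nat_lit 516169) (nat_lit 13) (.e (nat_lit 458774) (nat_lit 18) (.e (nat_lit 5547) (nat_lit 306) (.e (nat_lit 2599) (nat_lit 163) .nil)))))))) (.g (nat_lit 1) (.e (nat_lit 171195) (nat_lit 0) .nil) .nil)))))) 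
(.nd (nat_lit 7) (.nd (nat_lit 8) (.nd (nat_lit 9) 
(.lf (nat_lit 500841) (.g (nat_lit 4275) (.e (nat_lit 163977) (nat_lit 30) (.e (nat_lit 573493) (nat_lit 15) (.e (nat_lit 81951) (nat_lit 22) (.e (nat_lit 90170) (nat_lit 13) (.e (nat_lit 172033) (nat_lit 0) (.e (nat_lit 3397) (nat_lit 211) (.e (nat_lit 647181) (nat_lit 3) .nil))))))) (.g (nat_lit 1) (.e (nat_lit 169692) (nat_lit 0) .nil) .nil))) 
(.lf (nat_lit 501353) (.g (nat_lit 2640) (.e (nat_lit 163978) (nat_lit 30) (.e (nat_lit 573485) (nat_lit 13) (.e (nat_lit 65604) (nat_lit 9) (.e (nat_lit 336013) (nat_lit 2) (.e (nat_lit 90170) (nat_lit 13) (.e (nat_lit 172070) (nat_lit 4) (.e (nat_lit 229664) (nat_lit 240) (.e (nat_lit 2598) (nat_lit 163) .nil)))))))) (.g (nat_lit 1) (.e (nat_lit 170798) (nat_lit 0) .nil) .nil)))) 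
(.nd (nat_lit 9) 
(.lf (nat_lit 501097) (.g (nat_lit 3229) (.e (nat_lit 163978) (nat_lit 30) (.e (nat_lit 573479) (nat_lit 13) (.e (nat_lit 65619) (nat_lit 10) (.e (nat_lit 344117) (nat_lit 21) (.e (nat_lit 516161) (nat_lit 10) (.e (nat_lit 434209) (nat_lit 18) (.e (nat_lit 5548) (nat_lit 306) (.e (nat_lit 2611) (nat_lit 163) .nil)))))))) (.g (nat_lit 1) (.e (nat_lit 170362) (nat_lit 0) .nil) .nil))) 
(.lf (nat_lit 501609) (.g (nat_lit 2508) (.e (nat_lit 163978) (nat_lit 30) (.e (nat_lit 573485) (nat_lit 13) (.e (nat_lit 65619) (nat_lit 10) (.e (nat_lit 344117) (nat_lit 21) (.e (nat_lit 516152) (nat_lit 9) (.e (nat_lit 426411) (nat_lit 15) (.e (nat_lit 2057) (nat_lit 142) (.e (nat_lit 704589) (nat_lit 3) .nil)))))))) (.g (nat_lit 1) (.e (nat_lit 171121) (nat_lit 0) .nil) .nil))))) 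
(.nd (nat_lit 8) (.nd (nat_lit 9) 
(.lf (nat_lit 500969) (.g (nat_lit 4150) (.e (nat_lit 163977) (nat_lit 30) (.e (nat_lit 573493) (nat_lit 15) (.e (nat_lit 81956) (nat_lit 23) (.e (nat_lit 98359) (nat_lit 26) (.e (nat_lit 426043) (nat_lit 0) (.e (nat_lit 3406) (nat_lit 212) (.e (nat_lit 655375) (nat_lit 3) .nil))))))) (.g (nat_lit 1) (.e (nat_lit 170070) (nat_lit 0) .nil) .nil))) 
(.lf (nat_lit 501481) (.g (nat_lit 2923) (.e (nat_lit 163978) (nat_lit 30) (.e (nat_lit 573485) (nat_lit 13) (.e (nat_lit 65619) (nat_lit 10) (.e (nat_lit 344117) (nat_lit 21) (.e (nat_lit 516144) (nat_lit 9) (.e (nat_lit 426374) (nat_lit 15) (.e (nat_lit 2056) (nat_lit 142) (.e (nat_lit 704589) (nat_lit 3) .nil)))))))) (.g (nat_lit 1) (.e (nat_lit 170993) (nat_lit 0) .nil) .nil)))) 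
(.nd (nat_lit 9) 
(.lf (nat_lit 501225) (.g (nat_lit 3590) (.e (nat_lit 163978) (nat_lit 30) (.e (nat_lit 573484) (nat_lit 13) (.e (nat_lit 65610) (nat_lit 10) (.e (nat_lit 344117) (nat_lit 21) (.e (nat_lit 516151) (nat_lit 9) (.e (nat_lit 426097) (nat_lit 1) (.e (nat_lit 164347) (nat_lit 240) (.e (nat_lit 2601) (nat_lit 163) .nil)))))))) (.g (nat_lit 1) (.e (nat_lit 170575) (nat_lit 0) .nil) .nil))) 
(.lf (nat_lit 501737) (.g (nat_lit 3681) (.e (nat_lit 163978) (nat_lit 30) (.e (nat_lit 573487) (nat_lit 14) (.e (nat_lit 73753) (nat_lit 8) (.e (nat_lit 557105) (nat_lit 14) (.e (nat_lit 180252) (nat_lit 10) (.e (nat_lit 573475) (nat_lit 12) (.e (nat_lit 57504) (nat_lit 38) (.e (nat_lit 638996) (nat_lit 7) .nil)))))))) (.g (nat_lit 1) (.e (nat_lit 171378) (nat_lit 0) .nil) .nil)))))))) 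
(.nd (nat_lit 5) (.nd (nat_lit 6) (.nd (nat_lit 7) (.nd (nat_lit 8) (.nd (nat_lit 9) 
(.lf (nat_lit 500761) (.g (nat_lit 2256) (.e (nat_lit 163977) (nat_lit 30) (.e (nat_lit 573491) (nat_lit 15) (.e (nat_lit 81954) (nat_lit 23) (.e (nat_lit 98359) (nat_lit 26) (.e (nat_lit 426142) (nat_lit 4) (.e (nat_lit 229666) (nat_lit 240) (.e (nat_lit 2604) (nat_lit 163) .nil))))))) (.g (nat_lit 1) (.e (nat_lit 169438) (nat_lit 0) .nil) .nil))) 
(.lf (nat_lit 501273) (.g (nat_lit 3811) (.e (nat_lit 163978) (nat_lit 30) (.e (nat_lit 573485) (nat_lit 13) (.e (nat_lit 65604) (nat_lit 9) (.e (nat_lit 336013) (nat_lit 2) (.e (nat_lit 90170) (nat_lit 13) (.e (nat_lit 172032) (nat_lit 0) (.e (nat_lit 3401) (nat_lit 211) (.e (nat_lit 647181) (nat_lit 3) .nil)))))))) (.g (nat_lit 1) (.e (nat_lit 170714) (nat_lit 0) .nil) .nil)))) (.nd (nat_lit 9) 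
(.lf (nat_lit 501017) (.g (nat_lit 2909) (.e (nat_lit 163977) (nat_lit 30) (.e (nat_lit 573493) (nat_lit 15) (.e (nat_lit 81956) (nat_lit 23) (.e (nat_lit 98368) (nat_lit 27) (.e (nat_lit 434210) (nat_lit 18) .nil))))) (.g (nat_lit 0) (.e (nat_lit 170209) (nat_lit 0) .nil) .nil))) 
(.lf (nat_lit 501529) (.g (nat_lit 2829) (.e (nat_lit 163978) (nat_lit 30) (.e (nat_lit 573485) (nat_lit 13) (.e (nat_lit 65619) (nat_lit 10) (.e (nat_lit 344117) (nat_lit 21) (.e (nat_lit 516147) (nat_lit 9) (.e (nat_lit 426469) (nat_lit 24) (.e (nat_lit 163584) (nat_lit 3) .nil))))))) (.g (nat_lit 1) (.e (nat_lit 171041) (nat_lit 0) .nil) .nil))))) (.nd (nat_lit 8) (.nd (nat_lit 9) 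
(.lf (nat_lit 500889) (.g (nat_lit 4051) (.e (nat_lit 163977) (nat_lit 30) (.e (nat_lit 573493) (nat_lit 15) (.e (nat_lit 81953) (nat_lit 22) (.e (nat_lit 90170) (nat_lit 13) (.e (nat_lit 172049) (nat_lit 0) (.e (nat_lit 3406) (nat_lit 212) (.e (nat_lit 655375) (nat_lit 3) .nil))))))) (.g (nat_lit 1) (.e (nat_lit 169847) (nat_lit 0) .nil) .nil))) 
(.lf (nat_lit 501401) (.g (nat_lit 2317) (.e (nat_lit 163978) (nat_lit 30) (.e (nat_lit 573485) (nat_lit 13) (.e (nat_lit 65604) (nat_lit 9) (.e (nat_lit 336028) (nat_lit 3) (.e (nat_lit 98361) (nat_lit 26) .nil))))) (.g (nat_lit 0) (.e (nat_lit 170882) (nat_lit 0) .nil) .nil)))) (.nd (nat_lit 9) 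
(.lf (nat_lit 501145) (.g (nat_lit 2884) (.e (nat_lit 163978) (nat_lit 30) (.e (nat_lit 573484) (nat_lit 13) (.e (nat_lit 65610) (nat_lit 10) (.e (nat_lit 344117) (nat_lit 21) (.e (nat_lit 516145) (nat_lit 9) (.e (nat_lit 425985) (nat_lit 0) (.e (nat_lit 2475) (nat_lit 157) (.e (nat_lit 5548) (nat_lit 306) (.e (nat_lit 2610) (nat_lit 163) .nil))))))))) (.g (nat_lit 1) (.e (nat_lit 170439) (nat_lit 0) .nil) .nil))) 
(.lf (nat_lit 501657) (.g (nat_lit 2774) (.e (nat_lit 163978) (nat_lit 30) (.e (nat_lit 573485) (nat_lit 13) (.e (nat_lit 65619) (nat_lit 10) (.e (nat_lit 344117) (nat_lit 21) (.e (nat_lit 516160) (nat_lit 10) (.e (nat_lit 434270) (nat_lit 38) (.e (nat_lit 655375) (nat_lit 3) .nil))))))) (.g (nat_lit 1) (.e (nat_lit 171178) (nat_lit 0) .nil) .nil)))))) 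
(.nd (nat_lit 7) (.nd (nat_lit 8) (.nd (nat_lit 9) 
(.lf (nat_lit 500825) (.g (nat_lit 3840) (.e (nat_lit 163977) (nat_lit 30) (.e (nat_lit 573492) (nat_lit 15) (.e (nat_lit 81956) (nat_lit 23) (.e (nat_lit 98375) (nat_lit 30) .nil)))) (.g (nat_lit 0) (.e (nat_lit 169611) (nat_lit 0) .nil) .nil))) 
(.lf (nat_lit 501337) (.g (nat_lit 3321) (.e (nat_lit 163978) (nat_lit 30) (.e (nat_lit 573485) (nat_lit 13) (.e (nat_lit 65604) (nat_lit 9) (.e (nat_lit 336013) (nat_lit 2) (.e (nat_lit 90170) (nat_lit 13) (.e (nat_lit 172068) (nat_lit 4) (.e (nat_lit 229663) (nat_lit 240) (.e (nat_lit 2598) (nat_lit 163) .nil)))))))) (.g (nat_lit 1) (.e (nat_lit 170782) (nat_lit 0) .nil) .nil)))) 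
(.nd (nat_lit 9) 
(.lf (nat_lit 501081) (.g (nat_lit 2802) (.e (nat_lit 163978) (nat_lit 30) (.e (nat_lit 573479) (nat_lit 13) (.e (nat_lit 65619) (nat_lit 10) (.e (nat_lit 344117) (nat_lit 21) (.e (nat_lit 516153) (nat_lit 9) (.e (nat_lit 426109) (nat_lit 1) (.e (nat_lit 164347) (nat_lit 240) (.e (nat_lit 2610) (nat_lit 163) .nil)))))))) (.g (nat_lit 1) (.e (nat_lit 170346) (nat_lit 0) .nil) .nil))) 
(.lf (nat_lit 501593) (.g (nat_lit 3720) (.e (nat_lit 163978) (nat_lit 30) (.e (nat_lit 573485) (nat_lit 13) (.e (nat_lit 65619) (nat_lit 10) (.e (nat_lit 344117) (nat_lit 21) (.e (nat_lit 516151) (nat_lit 9) (.e (nat_lit 426410) (nat_lit 15) (.e (nat_lit 2056) (nat_lit 142) (.e (nat_lit 704589) (nat_lit 3) .nil)))))))) (.g (nat_lit 1) (.e (nat_lit 171105) (nat_lit 0) .nil) .nil))))) 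
(.nd (nat_lit 8) (.nd (nat_lit 9) 
(.lf (nat_lit 500953) (.g (nat_lit 3133) (.e (nat_lit 163977) (nat_lit 30) (.e (nat_lit 573493) (nat_lit 15) (.e (nat_lit 81956) (nat_lit 23) (.e (nat_lit 98356) (nat_lit 26) (.e (nat_lit 433920) (nat_lit 19) (.e (nat_lit 114432) (nat_lit 3) .nil)))))) (.g (nat_lit 1) (.e (nat_lit 170035) (nat_lit 0) .nil) .nil))) 
(.lf (nat_lit 501465) (.g (nat_lit 2005) (.e (nat_lit 163978) (nat_lit 30) (.e (nat_lit 573485) (nat_lit 13) (.e (nat_lit 65619) (nat_lit 10) (.e (nat_lit 344117) (nat_lit 21) (.e (nat_lit 516143) (nat_lit 9) .nil))))) (.g (nat_lit 0) (.e (nat_lit 170977) (nat_lit 0) .nil) .nil)))) (.nd (nat_lit 9) 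
(.lf (nat_lit 501209) (.g (nat_lit 2083) (.e (nat_lit 163978) (nat_lit 30) (.e (nat_lit 573484) (nat_lit 13) (.e (nat_lit 65610) (nat_lit 10) (.e (nat_lit 344117) (nat_lit 21) (.e (nat_lit 516151) (nat_lit 9) (.e (nat_lit 426042) (nat_lit 0) (.e (nat_lit 3409) (nat_lit 212) (.e (nat_lit 655374) (nat_lit 3) .nil)))))))) (.g (nat_lit 1) (.e (nat_lit 170548) (nat_lit 0) .nil) .nil))) 
(.lf (nat_lit 501721) (.g (nat_lit 3791) (.e (nat_lit 163978) (nat_lit 30) (.e (nat_lit 573487) (nat_lit 14) (.e (nat_lit 73753) (nat_lit 8) (.e (nat_lit 557100) (nat_lit 13) (.e (nat_lit 172138) (nat_lit 15) (.e (nat_lit 1800) (nat_lit 119) (.e (nat_lit 516120) (nat_lit 1) (.e (nat_lit 164304) (nat_lit 226) (.e (nat_lit 2612) (nat_lit 163) .nil))))))))) (.g (nat_lit 1) (.e (nat_lit 171318) (nat_lit 0) .nil) .nil))))))) 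
(.nd (nat_lit 6) (.nd (nat_lit 7) (.nd (nat_lit 8) (.nd (nat_lit 9) 
(.lf (nat_lit 500793) (.g (nat_lit 5716) (.e (nat_lit 163977) (nat_lit 30) (.e (nat_lit 573492) (nat_lit 15) (.e (nat_lit 81953) (nat_lit 22) (.e (nat_lit 90168) (nat_lit 13) .nil)))) (.g (nat_lit 0) (.e (nat_lit 169534) (nat_lit 0) .nil) .nil))) 
(.lf (nat_lit 501305) (.g (nat_lit 3495) (.e (nat_lit 163978) (nat_lit 30) (.e (nat_lit 573485) (nat_lit 13) (.e (nat_lit 65604) (nat_lit 9) (.e (nat_lit 336013) (nat_lit 2) (.e (nat_lit 90170) (nat_lit 13) (.e (nat_lit 172046) (nat_lit 0) (.e (nat_lit 3407) (nat_lit 212) (.e (nat_lit 655375) (nat_lit 3) .nil)))))))) (.g (nat_lit 1) (.e (nat_lit 170747) (nat_lit 0) .nil) .nil)))) (.nd (nat_lit 9) 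
(.lf (nat_lit 501049) (.g (nat_lit 3775) (.e (nat_lit 163978) (nat_lit 30) (.e (nat_lit 573479) (nat_lit 13) (.e (nat_lit 65619) (nat_lit 10) (.e (nat_lit 344117) (nat_lit 21) (.e (nat_lit 516151) (nat_lit 9) (.e (nat_lit 426023) (nat_lit 0) (.e (nat_lit 3399) (nat_lit 211) (.e (nat_lit 647181) (nat_lit 3) .nil)))))))) (.g (nat_lit 1) (.e (nat_lit 170314) (nat_lit 0) .nil) .nil))) 
(.lf (nat_lit 501561) (.g (nat_lit 4239) (.e (nat_lit 163978) (nat_lit 30) (.e (nat_lit 573485) (nat_lit 13) (.e (nat_lit 65619) (nat_lit 10) (.e (nat_lit 344117) (nat_lit 21) (.e (nat_lit 516151) (nat_lit 9) (.e (nat_lit 426043) (nat_lit 0) (.e (nat_lit 3407) (nat_lit 212) (.e (nat_lit 655373) (nat_lit 3) .nil)))))))) (.g (nat_lit 1) (.e (nat_lit 171073) (nat_lit 0) .nil) .nil))))) 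
(.nd (nat_lit 8) (.nd (nat_lit 9) 
(.lf (nat_lit 500921) (.g (nat_lit 4458) (.e (nat_lit 163977) (nat_lit 30) (.e (nat_lit 573493) (nat_lit 15) (.e (nat_lit 81954) (nat_lit 23) (.e (nat_lit 98359) (nat_lit 26) (.e (nat_lit 426025) (nat_lit 0) (.e (nat_lit 3399) (nat_lit 211) (.e (nat_lit 647181) (nat_lit 3) .nil))))))) (.g (nat_lit 1) (.e (nat_lit 169923) (nat_lit 0) .nil) .nil))) 
(.lf (nat_lit 501433) (.g (nat_lit 3898) (.e (nat_lit 163978) (nat_lit 30) (.e (nat_lit 573485) (nat_lit 13) (.e (nat_lit 65604) (nat_lit 9) (.e (nat_lit 336028) (nat_lit 3) (.e (nat_lit 98367) (nat_lit 27) (.e (nat_lit 434209) (nat_lit 18) (.e (nat_lit 5546) (nat_lit 306) (.e (nat_lit 2600) (nat_lit 163) .nil)))))))) (.g (nat_lit 1) (.e (nat_lit 170931) (nat_lit 0) .nil) .nil)))) 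
(.nd (nat_lit 9) 
(.lf (nat_lit 501177) (.g (nat_lit 2438) (.e (nat_lit 163978) (nat_lit 30) (.e (nat_lit 573484) (nat_lit 13) (.e (nat_lit 65610) (nat_lit 10) (.e (nat_lit 344117) (nat_lit 21) (.e (nat_lit 516151) (nat_lit 9) (.e (nat_lit 426003) (nat_lit 0) (.e (nat_lit 3402) (nat_lit 211) (.e (nat_lit 647180) (nat_lit 3) .nil)))))))) (.g (nat_lit 1) (.e (nat_lit 170489) (nat_lit 0) .nil) .nil))) 
(.lf (nat_lit 501689) (.g (nat_lit 2813) (.e (nat_lit 163978) (nat_lit 30) (.e (nat_lit 573485) (nat_lit 13) (.e (nat_lit 65619) (nat_lit 10) (.e (nat_lit 344117) (nat_lit 21) (.e (nat_lit 516172) (nat_lit 13) (.e (nat_lit 458774) (nat_lit 18) (.e (nat_lit 5547) (nat_lit 306) (.e (nat_lit 2610) (nat_lit 163) .nil)))))))) (.g (nat_lit 1) (.e (nat_lit 171215) (nat_lit 0) .nil) .nil)))))) 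
(.nd (nat_lit 7) (.nd (nat_lit 8) (.nd (nat_lit 9) 
(.lf (nat_lit 500857) (.g (nat_lit 4765) (.e (nat_lit 163977) (nat_lit 30) (.e (nat_lit 573493) (nat_lit 15) (.e (nat_lit 81951) (nat_lit 22) (.e (nat_lit 90170) (nat_lit 13) (.e (nat_lit 172061) (nat_lit 1) (.e (nat_lit 164348) (nat_lit 240) (.e (nat_lit 2610) (nat_lit 163) .nil))))))) (.g (nat_lit 1) (.e (nat_lit 169731) (nat_lit 0) .nil) .nil))) 
(.lf (nat_lit 501369) (.g (nat_lit 3845) (.e (nat_lit 163978) (nat_lit 30) (.e (nat_lit 573485) (nat_lit 13) (.e (nat_lit 65604) (nat_lit 9) (.e (nat_lit 336023) (nat_lit 3) (.e (nat_lit 98384) (nat_lit 32) (.e (nat_lit 475199) (nat_lit 40) (.e (nat_lit 704589) (nat_lit 3) .nil))))))) (.g (nat_lit 1) (.e (nat_lit 170814) (nat_lit 0) .nil) .nil)))) (.nd (nat_lit 9) 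
(.lf (nat_lit 501113) (.g (nat_lit 4707) (.e (nat_lit 163978) (nat_lit 30) (.e (nat_lit 573481) (nat_lit 13) (.e (nat_lit 65619) (nat_lit 10) (.e (nat_lit 344117) (nat_lit 21) (.e (nat_lit 516151) (nat_lit 9) (.e (nat_lit 426042) (nat_lit 0) (.e (nat_lit 3409) (nat_lit 212) (.e (nat_lit 655375) (nat_lit 3) .nil)))))))) (.g (nat_lit 1) (.e (nat_lit 170378) (nat_lit 0) .nil) .nil))) 
(.lf (nat_lit 501625) (.g (nat_lit 2422) (.e (nat_lit 163978) (nat_lit 30) (.e (nat_lit 573485) (nat_lit 13) (.e (nat_lit 65619) (nat_lit 10) (.e (nat_lit 344117) (nat_lit 21) (.e (nat_lit 516156) (nat_lit 9) (.e (nat_lit 426443) (nat_lit 19) (.e (nat_lit 114432) (nat_lit 3) .nil))))))) (.g (nat_lit 1) (.e (nat_lit 171137) (nat_lit 0) .nil) .nil))))) (.nd (nat_lit 8) (.nd (nat_lit 9) 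
(.lf (nat_lit 500985) (.g (nat_lit 3829) (.e (nat_lit 163977) (nat_lit 30) (.e (nat_lit 573493) (nat_lit 15) (.e (nat_lit 81956) (nat_lit 23) (.e (nat_lit 98363) (nat_lit 26) (.e (nat_lit 426443) (nat_lit 19) (.e (nat_lit 114432) (nat_lit 3) .nil)))))) (.g (nat_lit 1) (.e (nat_lit 170110) (nat_lit 0) .nil) .nil))) 
(.lf (nat_lit 501497) (.g (nat_lit 3645) (.e (nat_lit 163978) (nat_lit 30) (.e (nat_lit 573485) (nat_lit 13) (.e (nat_lit 65619) (nat_lit 10) (.e (nat_lit 344117) (nat_lit 21) (.e (nat_lit 516144) (nat_lit 9) (.e (nat_lit 426444) (nat_lit 19) (.e (nat_lit 114432) (nat_lit 3) .nil))))))) (.g (nat_lit 1) (.e (nat_lit 171009) (nat_lit 0) .nil) .nil)))) (.nd (nat_lit 9) 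
(.lf (nat_lit 501241) (.g (nat_lit 4596) (.e (nat_lit 163978) (nat_lit 30) (.e (nat_lit 573484) (nat_lit 13) (.e (nat_lit 65610) (nat_lit 10) (.e (nat_lit 344117) (nat_lit 21) (.e (nat_lit 516159) (nat_lit 10) (.e (nat_lit 434272) (nat_lit 38) (.e (nat_lit 655374) (nat_lit 3) .nil))))))) (.g (nat_lit 1) (.e (nat_lit 170628) (nat_lit 0) .nil) .nil))) 
(.lf (nat_lit 501753) (.g (nat_lit 2941) (.e (nat_lit 163978) (nat_lit 30) (.e (nat_lit 573489) (nat_lit 14) (.e (nat_lit 73754) (nat_lit 8) (.e (nat_lit 557100) (nat_lit 13) (.e (nat_lit 172067) (nat_lit 3) (.e (nat_lit 204815) (nat_lit 17) (.e (nat_lit 2271) (nat_lit 149) (.e (nat_lit 761897) (nat_lit 15) .nil)))))))) (.g (nat_lit 1) (.e (nat_lit 171422) (nat_lit 0) .nil) .nil)))))))))) 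
(.nd (nat_lit 3) (.nd (nat_lit 4) (.nd (nat_lit 5) (.nd (nat_lit 6) (.nd (nat_lit 7) 
(.nd (nat_lit 8) (.nd (nat_lit 9) 
(.lf (nat_lit 500741) (.g (nat_lit 2846) (.e (nat_lit 163977) (nat_lit 30) (.e (nat_lit 573491) (nat_lit 15) (.e (nat_lit 81951) (nat_lit 22) (.e (nat_lit 90170) (nat_lit 13) (.e (nat_lit 172070) (nat_lit 4) (.e (nat_lit 229666) (nat_lit 240) (.e (nat_lit 2604) (nat_lit 163) .nil))))))) (.g (nat_lit 1) (.e (nat_lit 169363) (nat_lit 0) .nil) .nil))) 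
(.lf (nat_lit 501253) (.g (nat_lit 4450) (.e (nat_lit 163978) (nat_lit 30) (.e (nat_lit 573484) (nat_lit 13) (.e (nat_lit 65610) (nat_lit 10) (.e (nat_lit 344117) (nat_lit 21) (.e (nat_lit 516179) (nat_lit 15) (.e (nat_lit 475198) (nat_lit 40) (.e (nat_lit 704589) (nat_lit 3) .nil))))))) (.g (nat_lit 1) (.e (nat_lit 170678) (nat_lit 0) .nil) .nil)))) (.nd (nat_lit 9) 
(.lf (nat_lit 500997) (.g (nat_lit 2681) (.e (nat_lit 163977) (nat_lit 30) (.e (nat_lit 573493) (nat_lit 15) (.e (nat_lit 81956) (nat_lit 23) (.e (nat_lit 98366) (nat_lit 27) (.e (nat_lit 434212) (nat_lit 18) .nil))))) (.g (nat_lit 0) (.e (nat_lit 170142) (nat_lit 0) .nil) .nil))) 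
(.lf (nat_lit 501509) (.g (nat_lit 4238) (.e (nat_lit 163978) (nat_lit 30) (.e (nat_lit 573485) (nat_lit 13) (.e (nat_lit 65619) (nat_lit 10) (.e (nat_lit 344117) (nat_lit 21) (.e (nat_lit 516145) (nat_lit 9) (.e (nat_lit 426376) (nat_lit 15) (.e (nat_lit 2056) (nat_lit 142) (.e (nat_lit 704589) (nat_lit 3) .nil)))))))) (.g (nat_lit 1) (.e (nat_lit 171021) (nat_lit 0) .nil) .nil))))) 
(.nd (nat_lit 8) (.nd (nat_lit 9) 
(.lf (nat_lit 500869) (.g (nat_lit 4496) (.e (nat_lit 163977) (nat_lit 30) (.e (nat_lit 573493) (nat_lit 15) (.e (nat_lit 81953) (nat_lit 22) (.e (nat_lit 90168) (nat_lit 13) .nil)))) (.g (nat_lit 0) (.e (nat_lit 169822) (nat_lit 0) .nil) .nil))) 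
(.lf (nat_lit 501381) (.g (nat_lit 2407) (.e (nat_lit 163978) (nat_lit 30) (.e (nat_lit 573485) (nat_lit 13) (.e (nat_lit 65604) (nat_lit 9) (.e (nat_lit 336028) (nat_lit 3) (.e (nat_lit 98359) (nat_lit 26) (.e (nat_lit 426003) (nat_lit 0) (.e (nat_lit 3402) (nat_lit 211) (.e (nat_lit 647180) (nat_lit 3) .nil)))))))) (.g (nat_lit 1) (.e (nat_lit 170833) (nat_lit 0) .nil) .nil)))) (.nd (nat_lit 9) 
(.lf (nat_lit 501125) (.g (nat_lit 2682) (.e (nat_lit 163978) (nat_lit 30) (.e (nat_lit 573482) (nat_lit 13) (.e (nat_lit 65619) (nat_lit 10) (.e (nat_lit 344117) (nat_lit 21) (.e (nat_lit 516161) (nat_lit 10) (.e (nat_lit 434272) (nat_lit 38) (.e (nat_lit 655375) (nat_lit 3) .nil))))))) (.g (nat_lit 1) (.e (nat_lit 170390) (nat_lit 0) .nil) .nil))) 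
(.lf (nat_lit 501637) (.g (nat_lit 2760) (.e (nat_lit 163978) (nat_lit 30) (.e (nat_lit 573485) (nat_lit 13) (.e (nat_lit 65619) (nat_lit 10) (.e (nat_lit 344117) (nat_lit 21) (.e (nat_lit 516159) (nat_lit 10) (.e (nat_lit 434211) (nat_lit 18) (.e (nat_lit 5548) (nat_lit 306) (.e (nat_lit 2610) (nat_lit 163) .nil)))))))) (.g (nat_lit 1) (.e (nat_lit 171154) (nat_lit 0) .nil) .nil)))))) 
(.nd (nat_lit 7) (.nd (nat_lit 8) (.nd (nat_lit 9) 
(.lf (nat_lit 500805) (.g (nat_lit 3573) (.e (nat_lit 163977) (nat_lit 30) (.e (nat_lit 573492) (nat_lit 15) (.e (nat_lit 81956) (nat_lit 23) (.e (nat_lit 98356) (nat_lit 26) (.e (nat_lit 426112) (nat_lit 1) .nil))))) (.g (nat_lit 0) (.e (nat_lit 169581) (nat_lit 0) .nil) .nil))) 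
(.lf (nat_lit 501317) (.g (nat_lit 3325) (.e (nat_lit 163978) (nat_lit 30) (.e (nat_lit 573485) (nat_lit 13) (.e (nat_lit 65604) (nat_lit 9) (.e (nat_lit 336013) (nat_lit 2) (.e (nat_lit 90170) (nat_lit 13) (.e (nat_lit 172059) (nat_lit 1) (.e (nat_lit 164345) (nat_lit 240) (.e (nat_lit 2601) (nat_lit 163) .nil)))))))) (.g (nat_lit 1) (.e (nat_lit 170759) (nat_lit 0) .nil) .nil)))) 
(.nd (nat_lit 9) 
(.lf (nat_lit 501061) (.g (nat_lit 4330) (.e (nat_lit 163978) (nat_lit 30) (.e (nat_lit 573479) (nat_lit 13) (.e (nat_lit 65619) (nat_lit 10) (.e (nat_lit 344117) (nat_lit 21) (.e (nat_lit 516151) (nat_lit 9) (.e (nat_lit 426042) (nat_lit 0) (.e (nat_lit 2458) (nat_lit 157) (.e (nat_lit 5548) (nat_lit 306) (.e (nat_lit 2610) (nat_lit 163) .nil))))))))) (.g (nat_lit 1) (.e (nat_lit 170326) (nat_lit 0) .nil) .nil))) 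
(.lf (nat_lit 501573) (.g (nat_lit 3890) (.e (nat_lit 163978) (nat_lit 30) (.e (nat_lit 573485) (nat_lit 13) (.e (nat_lit 65619) (nat_lit 10) (.e (nat_lit 344117) (nat_lit 21) (.e (nat_lit 516151) (nat_lit 9) (.e (nat_lit 426097) (nat_lit 1) (.e (nat_lit 164348) (nat_lit 240) (.e (nat_lit 2601) (nat_lit 163) .nil)))))))) (.g (nat_lit 1) (.e (nat_lit 171085) (nat_lit 0) .nil) .nil))))) 
(.nd (nat_lit 8) (.nd (nat_lit 9) 
(.lf (nat_lit 500933) (.g (nat_lit 3203) (.e (nat_lit 163977) (nat_lit 30) (.e (nat_lit 573493) (nat_lit 15) (.e (nat_lit 81954) (nat_lit 23) (.e (nat_lit 98367) (nat_lit 27) (.e (nat_lit 434271) (nat_lit 38) .nil))))) (.g (nat_lit 0) (.e (nat_lit 169967) (nat_lit 0) .nil) .nil))) 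
(.lf (nat_lit 501445) (.g (nat_lit 4944) (.e (nat_lit 163978) (nat_lit 30) (.e (nat_lit 573485) (nat_lit 13) (.e (nat_lit 65604) (nat_lit 9) (.e (nat_lit 336028) (nat_lit 3) (.e (nat_lit 98367) (nat_lit 27) (.e (nat_lit 434272) (nat_lit 38) (.e (nat_lit 655374) (nat_lit 3) .nil))))))) (.g (nat_lit 1) (.e (nat_lit 170946) (nat_lit 0) .nil) .nil)))) (.nd (nat_lit 9) 
(.lf (nat_lit 501189) (.g (nat_lit 4829) (.e (nat_lit 163978) (nat_lit 30) (.e (nat_lit 573484) (nat_lit 13) (.e (nat_lit 65610) (nat_lit 10) (.e (nat_lit 344117) (nat_lit 21) (.e (nat_lit 516151) (nat_lit 9) (.e (nat_lit 426037) (nat_lit 0) (.e (nat_lit 2458) (nat_lit 157) (.e (nat_lit 5547) (nat_lit 306) (.e (nat_lit 2610) (nat_lit 163) .nil))))))))) (.g (nat_lit 1) (.e (nat_lit 170505) (nat_lit 0) .nil) .nil))) 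
(.lf (nat_lit 501701) (.g (nat_lit 3429) (.e (nat_lit 163978) (nat_lit 30) (.e (nat_lit 573485) (nat_lit 13) (.e (nat_lit 65619) (nat_lit 10) (.e (nat_lit 344117) (nat_lit 21) (.e (nat_lit 516180) (nat_lit 15) (.e (nat_lit 475205) (nat_lit 40) (.e (nat_lit 704588) (nat_lit 3) .nil))))))) (.g (nat_lit 1) (.e (nat_lit 171227) (nat_lit 0) .nil) .nil))))))) 
(.nd (nat_lit 6) (.nd (nat_lit 7) (.nd (nat_lit 8) (.nd (nat_lit 9) 
(.lf (nat_lit 500773) (.g (nat_lit 2408) (.e (nat_lit 163977) (nat_lit 30) (.e (nat_lit 573491) (nat_lit 15) (.e (nat_lit 81954) (nat_lit 23) (.e (nat_lit 98366) (nat_lit 27) (.e (nat_lit 434272) (nat_lit 38) (.e (nat_lit 655374) (nat_lit 3) .nil)))))) (.g (nat_lit 1) (.e (nat_lit 169471) (nat_lit 0) .nil) .nil))) 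
(.lf (nat_lit 501285) (.g (nat_lit 3835) (.e (nat_lit 163978) (nat_lit 30) (.e (nat_lit 573485) (nat_lit 13) (.e (nat_lit 65604) (nat_lit 9) (.e (nat_lit 336013) (nat_lit 2) (.e (nat_lit 90170) (nat_lit 13) (.e (nat_lit 172039) (nat_lit 0) (.e (nat_lit 3402) (nat_lit 211) (.e (nat_lit 647181) (nat_lit 3) .nil)))))))) (.g (nat_lit 1) (.e (nat_lit 170726) (nat_lit 0) .nil) .nil)))) (.nd (nat_lit 9) 
(.lf (nat_lit 501029) (.g (nat_lit 351) (.e (nat_lit 163978) (nat_lit 30) (.e (nat_lit 573477) (nat_lit 12) (.e (nat_lit 57548) (nat_lit 47) .nil))) (.g (nat_lit 0) (.e (nat_lit 170279) (nat_lit 0) .nil) .nil))) 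
(.lf (nat_lit 501541) (.g (nat_lit 4350) (.e (nat_lit 163978) (nat_lit 30) (.e (nat_lit 573485) (nat_lit 13) (.e (nat_lit 65619) (nat_lit 10) (.e (nat_lit 344117) (nat_lit 21) (.e (nat_lit 516151) (nat_lit 9) (.e (nat_lit 426039) (nat_lit 0) (.e (nat_lit 2458) (nat_lit 157) (.e (nat_lit 5547) (nat_lit 306) (.e (nat_lit 2610) (nat_lit 163) .nil))))))))) (.g (nat_lit 1) (.e (nat_lit 171053) (nat_lit 0) .nil) .nil))))) 
(.nd (nat_lit 8) (.nd (nat_lit 9) 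
(.lf (nat_lit 500901) (.g (nat_lit 2521) (.e (nat_lit 163977) (nat_lit 30) (.e (nat_lit 573493) (nat_lit 15) (.e (nat_lit 81953) (nat_lit 22) (.e (nat_lit 90172) (nat_lit 14) .nil)))) (.g (nat_lit 0) (.e (nat_lit 169875) (nat_lit 0) .nil) .nil))) 
(.lf (nat_lit 501413) (.g (nat_lit 2356) (.e (nat_lit 163978) (nat_lit 30) (.e (nat_lit 573485) (nat_lit 13) (.e (nat_lit 65604) (nat_lit 9) (.e (nat_lit 336028) (nat_lit 3) (.e (nat_lit 98365) (nat_lit 26) .nil))))) (.g (nat_lit 0) (.e (nat_lit 170899) (nat_lit 0) .nil) .nil)))) (.nd (nat_lit 9) 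
(.lf (nat_lit 501157) (.g (nat_lit 2192) (.e (nat_lit 163978) (nat_lit 30) (.e (nat_lit 573484) (nat_lit 13) (.e (nat_lit 65610) (nat_lit 10) (.e (nat_lit 344117) (nat_lit 21) (.e (nat_lit 516145) (nat_lit 9) (.e (nat_lit 426440) (nat_lit 19) (.e (nat_lit 114432) (nat_lit 3) .nil))))))) (.g (nat_lit 1) (.e (nat_lit 170469) (nat_lit 0) .nil) .nil))) 
(.lf (nat_lit 501669) (.g (nat_lit 2749) (.e (nat_lit 163978) (nat_lit 30) (.e (nat_lit 573485) (nat_lit 13) (.e (nat_lit 65619) (nat_lit 10) (.e (nat_lit 344117) (nat_lit 21) (.e (nat_lit 516161) (nat_lit 10) (.e (nat_lit 434272) (nat_lit 38) (.e (nat_lit 655375) (nat_lit 3) .nil))))))) (.g (nat_lit 1) (.e (nat_lit 171190) (nat_lit 0) .nil) .nil)))))) 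
(.nd (nat_lit 7) (.nd (nat_lit 8) (.nd (nat_lit 9) 
(.lf (nat_lit 500837) (.g (nat_lit 3719) (.e (nat_lit 163977) (nat_lit 30) (.e (nat_lit 573493) (nat_lit 15) (.e (nat_lit 81951) (nat_lit 22) (.e (nat_lit 90170) (nat_lit 13) (.e (nat_lit 172032) (nat_lit 0) .nil))))) (.g (nat_lit 0) (.e (nat_lit 169688) (nat_lit 0) .nil) .nil))) 
(.lf (nat_lit 501349) (.g (nat_lit 3486) (.e (nat_lit 163978) (nat_lit 30) (.e (nat_lit 573485) (nat_lit 13) (.e (nat_lit 65604) (nat_lit 9) (.e (nat_lit 336013) (nat_lit 2) (.e (nat_lit 90170) (nat_lit 13) (.e (nat_lit 172069) (nat_lit 4) (.e (nat_lit 229665) (nat_lit 240) (.e (nat_lit 2612) (nat_lit 163) .nil)))))))) (.g (nat_lit 1) (.e (nat_lit 170794) (nat_lit 0) .nil) .nil)))) 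
(.nd (nat_lit 9) 
(.lf (nat_lit 501093) (.g (nat_lit 3550) (.e (nat_lit 163978) (nat_lit 30) (.e (nat_lit 573479) (nat_lit 13) (.e (nat_lit 65619) (nat_lit 10) (.e (nat_lit 344117) (nat_lit 21) (.e (nat_lit 516160) (nat_lit 10) (.e (nat_lit 434271) (nat_lit 38) (.e (nat_lit 655373) (nat_lit 3) .nil))))))) (.g (nat_lit 1) (.e (nat_lit 170358) (nat_lit 0) .nil) .nil))) 
(.lf (nat_lit 501605) (.g (nat_lit 2868) (.e (nat_lit 163978) (nat_lit 30) (.e (nat_lit 573485) (nat_lit 13) (.e (nat_lit 65619) (nat_lit 10) (.e (nat_lit 344117) (nat_lit 21) (.e (nat_lit 516152) (nat_lit 9) (.e (nat_lit 426109) (nat_lit 1) (.e (nat_lit 164346) (nat_lit 240) (.e (nat_lit 2599) (nat_lit 163) .nil)))))))) (.g (nat_lit 1) (.e (nat_lit 171117) (nat_lit 0) .nil) .nil))))) 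
(.nd (nat_lit 8) (.nd (nat_lit 9) 
(.lf (nat_lit 500965) (.g (nat_lit 2826) (.e (nat_lit 163977) (nat_lit 30) (.e (nat_lit 573493) (nat_lit 15) (.e (nat_lit 81956) (nat_lit 23) (.e (nat_lit 98359) (nat_lit 26) (.e (nat_lit 426038) (nat_lit 0) .nil))))) (.g (nat_lit 0) (.e (nat_lit 170056) (nat_lit 0) .nil) .nil))) 
(.lf (nat_lit 501477) (.g (nat_lit 3210) (.e (nat_lit 163978) (nat_lit 30) (.e (nat_lit 573485) (nat_lit 13) (.e (nat_lit 65619) (nat_lit 10) (.e (nat_lit 344117) (nat_lit 21) (.e (nat_lit 516143) (nat_lit 9) (.e (nat_lit 426144) (nat_lit 4) (.e (nat_lit 229665) (nat_lit 240) (.e (nat_lit 2602) (nat_lit 163) .nil)))))))) (.g (nat_lit 1) (.e (nat_lit 170989) (nat_lit 0) .nil) .nil)))) 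
(.nd (nat_lit 9) 
(.lf (nat_lit 501221) (.g (nat_lit 4455) (.e (nat_lit 163978) (nat_lit 30) (.e (nat_lit 573484) (nat_lit 13) (.e (nat_lit 65610) (nat_lit 10) (.e (nat_lit 344117) (nat_lit 21) (.e (nat_lit 516151) (nat_lit 9) (.e (nat_lit 426047) (nat_lit 0) (.e (nat_lit 2458) (nat_lit 157) (.e (nat_lit 5548) (nat_lit 306) (.e (nat_lit 2610) (nat_lit 163) .nil))))))))) (.g (nat_lit 1) (.e (nat_lit 170566) (nat_lit 0) .nil) .nil))) 
(.lf (nat_lit 501733) (.g (nat_lit 3173) (.e (nat_lit 163978) (nat_lit 30) (.e (nat_lit 573487) (nat_lit 14) (.e (nat_lit 73753) (nat_lit 8) (.e (nat_lit 557105) (nat_lit 14) (.e (nat_lit 180252) (nat_lit 10) (.e (nat_lit 573473) (nat_lit 12) (.e (nat_lit 57504) (nat_lit 38) (.e (nat_lit 638996) (nat_lit 7) .nil)))))))) (.g (nat_lit 1) (.e (nat_lit 171374) (nat_lit 0) .nil) .nil)))))))) 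
(.nd (nat_lit 5) (.nd (nat_lit 6) (.nd (nat_lit 7) (.nd (nat_lit 8) (.nd (nat_lit 9) 
(.lf (nat_lit 500757) (.g (nat_lit 1403) (.e (nat_lit 163977) (nat_lit 30) (.e (nat_lit 573491) (nat_lit 15) (.e (nat_lit 81954) (nat_lit 23) (.e (nat_lit 98359) (nat_lit 26) (.e (nat_lit 426043) (nat_lit 0) .nil))))) (.g (nat_lit 0) (.e (nat_lit 169424) (nat_lit 0) .nil) .nil))) 
(.lf (nat_lit 501269) (.g (nat_lit 4751) (.e (nat_lit 163978) (nat_lit 30) (.e (nat_lit 573485) (nat_lit 13) (.e (nat_lit 65604) (nat_lit 9) (.e (nat_lit 336013) (nat_lit 2) (.e (nat_lit 90167) (nat_lit 13) .nil))))) (.g (nat_lit 0) (.e (nat_lit 170710) (nat_lit 0) .nil) .nil)))) (.nd (nat_lit 9) 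
(.lf (nat_lit 501013) (.g (nat_lit 2837) (.e (nat_lit 163977) (nat_lit 30) (.e (nat_lit 573493) (nat_lit 15) (.e (nat_lit 81956) (nat_lit 23) (.e (nat_lit 98368) (nat_lit 27) (.e (nat_lit 434203) (nat_lit 18) .nil))))) (.g (nat_lit 0) (.e (nat_lit 170196) (nat_lit 0) .nil) .nil))) 
(.lf (nat_lit 501525) (.g (nat_lit 2670) (.e (nat_lit 163978) (nat_lit 30) (.e (nat_lit 573485) (nat_lit 13) (.e (nat_lit 65619) (nat_lit 10) (.e (nat_lit 344117) (nat_lit 21) (.e (nat_lit 516147) (nat_lit 9) (.e (nat_lit 426393) (nat_lit 15) (.e (nat_lit 2059) (nat_lit 142) (.e (nat_lit 704589) (nat_lit 3) .nil)))))))) (.g (nat_lit 1) (.e (nat_lit 171037) (nat_lit 0) .nil) .nil))))) 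
(.nd (nat_lit 8) (.nd (nat_lit 9) 
(.lf (nat_lit 500885) (.g (nat_lit 3529) (.e (nat_lit 163977) (nat_lit 30) (.e (nat_lit 573493) (nat_lit 15) (.e (nat_lit 81953) (nat_lit 22) (.e (nat_lit 90170) (nat_lit 13) (.e (nat_lit 172046) (nat_lit 0) (.e (nat_lit 2478) (nat_lit 157) (.e (nat_lit 5548) (nat_lit 306) (.e (nat_lit 2610) (nat_lit 163) .nil)))))))) (.g (nat_lit 1) (.e (nat_lit 169840) (nat_lit 0) .nil) .nil))) 
(.lf (nat_lit 501397) (.g (nat_lit 5425) (.e (nat_lit 163978) (nat_lit 30) (.e (nat_lit 573485) (nat_lit 13) (.e (nat_lit 65604) (nat_lit 9) (.e (nat_lit 336028) (nat_lit 3) (.e (nat_lit 98359) (nat_lit 26) (.e (nat_lit 426412) (nat_lit 15) (.e (nat_lit 2059) (nat_lit 142) (.e (nat_lit 704589) (nat_lit 3) .nil)))))))) (.g (nat_lit 1) (.e (nat_lit 170876) (nat_lit 0) .nil) .nil)))) 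
(.nd (nat_lit 9) 
(.lf (nat_lit 501141) (.g (nat_lit 3302) (.e (nat_lit 163978) (nat_lit 30) (.e (nat_lit 573484) (nat_lit 13) (.e (nat_lit 65610) (nat_lit 10) (.e (nat_lit 344117) (nat_lit 21) (.e (nat_lit 516144) (nat_lit 9) (.e (nat_lit 426444) (nat_lit 19) (.e (nat_lit 114432) (nat_lit 3) .nil))))))) (.g (nat_lit 1) (.e (nat_lit 170435) (nat_lit 0) .nil) .nil))) 
(.lf (nat_lit 501653) (.g (nat_lit 5302) (.e (nat_lit 163978) (nat_lit 30) (.e (nat_lit 573485) (nat_lit 13) (.e (nat_lit 65619) (nat_lit 10) (.e (nat_lit 344117) (nat_lit 21) (.e (nat_lit 516160) (nat_lit 10) (.e (nat_lit 434209) (nat_lit 18) (.e (nat_lit 5547) (nat_lit 306) (.e (nat_lit 2610) (nat_lit 163) .nil)))))))) (.g (nat_lit 1) (.e (nat_lit 171173) (nat_lit 0) .nil) .nil)))))) 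
(.nd (nat_lit 7) (.nd (nat_lit 8) (.nd (nat_lit 9) 
(.lf (nat_lit 500821) (.g (nat_lit 1974) (.e (nat_lit 163977) (nat_lit 30) (.e (nat_lit 573492) (nat_lit 15) (.e (nat_lit 81956) (nat_lit 23) (.e (nat_lit 106240) (nat_lit 26) .nil)))) (.g (nat_lit 0) (.e (nat_lit 169606) (nat_lit 0) .nil) .nil))) 
(.lf (nat_lit 501333) (.g (nat_lit 3344) (.e (nat_lit 163978) (nat_lit 30) (.e (nat_lit 573485) (nat_lit 13) (.e (nat_lit 65604) (nat_lit 9) (.e (nat_lit 336013) (nat_lit 2) (.e (nat_lit 90170) (nat_lit 13) (.e (nat_lit 172061) (nat_lit 1) (.e (nat_lit 164347) (nat_lit 240) (.e (nat_lit 2601) (nat_lit 163) .nil)))))))) (.g (nat_lit 1) (.e (nat_lit 170777) (nat_lit 0) .nil) .nil)))) 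
(.nd (nat_lit 9) 
(.lf (nat_lit 501077) (.g (nat_lit 3330) (.e (nat_lit 163978) (nat_lit 30) (.e (nat_lit 573479) (nat_lit 13) (.e (nat_lit 65619) (nat_lit 10) (.e (nat_lit 344117) (nat_lit 21) (.e (nat_lit 516152) (nat_lit 9) (.e (nat_lit 426025) (nat_lit 0) (.e (nat_lit 3397) (nat_lit 211) (.e (nat_lit 647181) (nat_lit 3) .nil)))))))) (.g (nat_lit 1) (.e (nat_lit 170342) (nat_lit 0) .nil) .nil))) 
(.lf (nat_lit 501589) (.g (nat_lit 4319) (.e (nat_lit 163978) (nat_lit 30) (.e (nat_lit 573485) (nat_lit 13) (.e (nat_lit 65619) (nat_lit 10) (.e (nat_lit 344117) (nat_lit 21) (.e (nat_lit 516151) (nat_lit 9) (.e (nat_lit 426146) (nat_lit 4) (.e (nat_lit 229663) (nat_lit 240) (.e (nat_lit 2612) (nat_lit 163) .nil)))))))) (.g (nat_lit 1) (.e (nat_lit 171101) (nat_lit 0) .nil) .nil))))) 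
(.nd (nat_lit 8) (.nd (nat_lit 9) 
(.lf (nat_lit 500949) (.g (nat_lit 3499) (.e (nat_lit 163977) (nat_lit 30) (.e (nat_lit 573493) (nat_lit 15) (.e (nat_lit 81956) (nat_lit 23) (.e (nat_lit 98356) (nat_lit 26) (.e (nat_lit 426439) (nat_lit 19) (.e (nat_lit 114432) (nat_lit 3) .nil)))))) (.g (nat_lit 1) (.e (nat_lit 170031) (nat_lit 0) .nil) .nil))) 
(.lf (nat_lit 501461) (.g (nat_lit 187) (.e (nat_lit 163978) (nat_lit 30) (.e (nat_lit 573485) (nat_lit 13) (.e (nat_lit 65619) (nat_lit 10) .nil))) (.g (nat_lit 0) (.e (nat_lit 170966) (nat_lit 0) .nil) .nil)))) (.nd (nat_lit 9) 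
(.lf (nat_lit 501205) (.g (nat_lit 2532) (.e (nat_lit 163978) (nat_lit 30) (.e (nat_lit 573484) (nat_lit 13) (.e (nat_lit 65610) (nat_lit 10) (.e (nat_lit 344117) (nat_lit 21) (.e (nat_lit 516151) (nat_lit 9) (.e (nat_lit 426042) (nat_lit 0) (.e (nat_lit 3407) (nat_lit 212) (.e (nat_lit 655373) (nat_lit 3) .nil)))))))) (.g (nat_lit 1) (.e (nat_lit 170544) (nat_lit 0) .nil) .nil))) 
(.lf (nat_lit 501717) (.g (nat_lit 3322) (.e (nat_lit 163978) (nat_lit 30) (.e (nat_lit 573487) (nat_lit 14) (.e (nat_lit 73753) (nat_lit 8) (.e (nat_lit 557100) (nat_lit 13) (.e (nat_lit 172065) (nat_lit 3) (.e (nat_lit 204817) (nat_lit 17) (.e (nat_lit 2272) (nat_lit 149) (.e (nat_lit 761898) (nat_lit 15) .nil)))))))) (.g (nat_lit 1) (.e (nat_lit 171306) (nat_lit 0) .nil) .nil))))))) 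
(.nd (nat_lit 6) (.nd (nat_lit 7) (.nd (nat_lit 8) (.nd (nat_lit 9) 
(.lf (nat_lit 500789) (.g (nat_lit 2903) (.e (nat_lit 163977) (nat_lit 30) (.e (nat_lit 573492) (nat_lit 15) (.e (nat_lit 81951) (nat_lit 22) (.e (nat_lit 90185) (nat_lit 17) .nil)))) (.g (nat_lit 0) (.e (nat_lit 169527) (nat_lit 0) .nil) .nil))) 
(.lf (nat_lit 501301) (.g (nat_lit 4080) (.e (nat_lit 163978) (nat_lit 30) (.e (nat_lit 573485) (nat_lit 13) (.e (nat_lit 65604) (nat_lit 9) (.e (nat_lit 336013) (nat_lit 2) (.e (nat_lit 90170) (nat_lit 13) (.e (nat_lit 172046) (nat_lit 0) (.e (nat_lit 2458) (nat_lit 157) (.e (nat_lit 5548) (nat_lit 306) (.e (nat_lit 2599) (nat_lit 163) .nil))))))))) (.g (nat_lit 1) (.e (nat_lit 170743) (nat_lit 0) .nil) .nil)))) 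
(.nd (nat_lit 9) 
(.lf (nat_lit 501045) (.g (nat_lit 3454) (.e (nat_lit 163978) (nat_lit 30) (.e (nat_lit 573479) (nat_lit 13) (.e (nat_lit 65619) (nat_lit 10) (.e (nat_lit 344117) (nat_lit 21) (.e (nat_lit 516151) (nat_lit 9) (.e (nat_lit 426022) (nat_lit 0) (.e (nat_lit 3402) (nat_lit 211) (.e (nat_lit 647180) (nat_lit 3) .nil)))))))) (.g (nat_lit 1) (.e (nat_lit 170310) (nat_lit 0) .nil) .nil))) 
(.lf (nat_lit 501557) (.g (nat_lit 2325) (.e (nat_lit 163978) (nat_lit 30) (.e (nat_lit 573485) (nat_lit 13) (.e (nat_lit 65619) (nat_lit 10) (.e (nat_lit 344117) (nat_lit 21) (.e (nat_lit 516151) (nat_lit 9) (.e (nat_lit 426043) (nat_lit 0) (.e (nat_lit 2458) (nat_lit 157) (.e (nat_lit 5547) (nat_lit 306) (.e (nat_lit 2599) (nat_lit 163) .nil))))))))) (.g (nat_lit 1) (.e (nat_lit 171069) (nat_lit 0) .nil) .nil))))) 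
(.nd (nat_lit 8) (.nd (nat_lit 9) 
(.lf (nat_lit 500917) (.g (nat_lit 3490) (.e (nat_lit 163977) (nat_lit 30) (.e (nat_lit 573493) (nat_lit 15) (.e (nat_lit 81954) (nat_lit 23) (.e (nat_lit 98358) (nat_lit 26) (.e (nat_lit 426112) (nat_lit 1) .nil))))) (.g (nat_lit 0) (.e (nat_lit 169919) (nat_lit 0) .nil) .nil))) 
(.lf (nat_lit 501429) (.g (nat_lit 4242) (.e (nat_lit 163978) (nat_lit 30) (.e (nat_lit 573485) (nat_lit 13) (.e (nat_lit 65604) (nat_lit 9) (.e (nat_lit 336028) (nat_lit 3) (.e (nat_lit 98366) (nat_lit 27) (.e (nat_lit 434272) (nat_lit 38) (.e (nat_lit 655373) (nat_lit 3) .nil))))))) (.g (nat_lit 1) (.e (nat_lit 170922) (nat_lit 0) .nil) .nil)))) (.nd (nat_lit 9) 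
(.lf (nat_lit 501173) (.g (nat_lit 2995) (.e (nat_lit 163978) (nat_lit 30) (.e (nat_lit 573484) (nat_lit 13) (.e (nat_lit 65610) (nat_lit 10) (.e (nat_lit 344117) (nat_lit 21) (.e (nat_lit 516151) (nat_lit 9) (.e (nat_lit 426003) (nat_lit 0) (.e (nat_lit 3399) (nat_lit 211) (.e (nat_lit 647180) (nat_lit 3) .nil)))))))) (.g (nat_lit 1) (.e (nat_lit 170485) (nat_lit 0) .nil) .nil))) 
(.lf (nat_lit 501685) (.g (nat_lit 3445) (.e (nat_lit 163978) (nat_lit 30) (.e (nat_lit 573485) (nat_lit 13) (.e (nat_lit 65619) (nat_lit 10) (.e (nat_lit 344117) (nat_lit 21) (.e (nat_lit 516171) (nat_lit 13) (.e (nat_lit 458774) (nat_lit 18) (.e (nat_lit 5548) (nat_lit 306) (.e (nat_lit 2599) (nat_lit 163) .nil)))))))) (.g (nat_lit 1) (.e (nat_lit 171210) (nat_lit 0) .nil) .nil)))))) 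
(.nd (nat_lit 7) (.nd (nat_lit 8) (.nd (nat_lit 9) 
(.lf (nat_lit 500853) (.g (nat_lit 4343) (.e (nat_lit 163977) (nat_lit 30) (.e (nat_lit 573493) (nat_lit 15) (.e (nat_lit 81951) (nat_lit 22) (.e (nat_lit 90170) (nat_lit 13) (.e (nat_lit 172043) (nat_lit 0) .nil))))) (.g (nat_lit 0) (.e (nat_lit 169705) (nat_lit 0) .nil) .nil))) 
(.lf (nat_lit 501365) (.g (nat_lit 3825) (.e (nat_lit 163978) (nat_lit 30) (.e (nat_lit 573485) (nat_lit 13) (.e (nat_lit 65604) (nat_lit 9) (.e (nat_lit 336013) (nat_lit 2) (.e (nat_lit 90170) (nat_lit 13) (.e (nat_lit 179968) (nat_lit 24) (.e (nat_lit 163584) (nat_lit 3) .nil))))))) (.g (nat_lit 1) (.e (nat_lit 170810) (nat_lit 0) .nil) .nil)))) (.nd (nat_lit 9) 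
(.lf (nat_lit 501109) (.g (nat_lit 2961) (.e (nat_lit 163978) (nat_lit 30) (.e (nat_lit 573480) (nat_lit 13) (.e (nat_lit 65604) (nat_lit 9) (.e (nat_lit 336028) (nat_lit 3) (.e (nat_lit 98367) (nat_lit 27) (.e (nat_lit 434272) (nat_lit 38) (.e (nat_lit 655375) (nat_lit 3) .nil))))))) (.g (nat_lit 1) (.e (nat_lit 170374) (nat_lit 0) .nil) .nil))) 
(.lf (nat_lit 501621) (.g (nat_lit 2905) (.e (nat_lit 163978) (nat_lit 30) (.e (nat_lit 573485) (nat_lit 13) (.e (nat_lit 65619) (nat_lit 10) (.e (nat_lit 344117) (nat_lit 21) (.e (nat_lit 516153) (nat_lit 9) (.e (nat_lit 426109) (nat_lit 1) (.e (nat_lit 164347) (nat_lit 240) (.e (nat_lit 2611) (nat_lit 163) .nil)))))))) (.g (nat_lit 1) (.e (nat_lit 171133) (nat_lit 0) .nil) .nil))))) 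
(.nd (nat_lit 8) (.nd (nat_lit 9) 
(.lf (nat_lit 500981) (.g (nat_lit 3574) (.e (nat_lit 163977) (nat_lit 30) (.e (nat_lit 573493) (nat_lit 15) (.e (nat_lit 81956) (nat_lit 23) (.e (nat_lit 98362) (nat_lit 26) .nil)))) (.g (nat_lit 0) (.e (nat_lit 170104) (nat_lit 0) .nil) .nil))) 
(.lf (nat_lit 501493) (.g (nat_lit 2797) (.e (nat_lit 163978) (nat_lit 30) (.e (nat_lit 573485) (nat_lit 13) (.e (nat_lit 65619) (nat_lit 10) (.e (nat_lit 344117) (nat_lit 21) (.e (nat_lit 516144) (nat_lit 9) (.e (nat_lit 426416) (nat_lit 15) (.e (nat_lit 2059) (nat_lit 142) (.e (nat_lit 704589) (nat_lit 3) .nil)))))))) (.g (nat_lit 1) (.e (nat_lit 171005) (nat_lit 0) .nil) .nil)))) 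
(.nd (nat_lit 9) 
(.lf (nat_lit 501237) (.g (nat_lit 3726) (.e (nat_lit 163978) (nat_lit 30) (.e (nat_lit 573484) (nat_lit 13) (.e (nat_lit 65610) (nat_lit 10) (.e (nat_lit 344117) (nat_lit 21) (.e (nat_lit 516155) (nat_lit 9) (.e (nat_lit 426144) (nat_lit 4) (.e (nat_lit 229663) (nat_lit 240) (.e (nat_lit 2612) (nat_lit 163) .nil)))))))) (.g (nat_lit 1) (.e (nat_lit 170608) (nat_lit 0) .nil) .nil))) 
(.lf (nat_lit 501749) (.g (nat_lit 2997) (.e (nat_lit 163978) (nat_lit 30) (.e (nat_lit 573489) (nat_lit 14) (.e (nat_lit 73754) (nat_lit 8) (.e (nat_lit 557100) (nat_lit 13) (.e (nat_lit 172065) (nat_lit 3) (.e (nat_lit 204821) (nat_lit 17) (.e (nat_lit 2270) (nat_lit 149) (.e (nat_lit 761897) (nat_lit 15) .nil)))))))) (.g (nat_lit 1) (.e (nat_lit 171406) (nat_lit 0) .nil) .nil))))))))) 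
(.nd (nat_lit 4) (.nd (nat_lit 5) (.nd (nat_lit 6) (.nd (nat_lit 7) (.nd (nat_lit 8) 
(.nd (nat_lit 9) 
(.lf (nat_lit 500749) (.g (nat_lit 2783) (.e (nat_lit 163977) (nat_lit 30) (.e (nat_lit 573491) (nat_lit 15) (.e (nat_lit 81954) (nat_lit 23) (.e (nat_lit 98356) (nat_lit 26) (.e (nat_lit 426444) (nat_lit 19) (.e (nat_lit 114432) (nat_lit 3) .nil)))))) (.g (nat_lit 1) (.e (nat_lit 169405) (nat_lit 0) .nil) .nil))) 
(.lf (nat_lit 501261) (.g (nat_lit 2975) (.e (nat_lit 163978) (nat_lit 30) (.e (nat_lit 573484) (nat_lit 13) (.e (nat_lit 65610) (nat_lit 10) (.e (nat_lit 344117) (nat_lit 21) (.e (nat_lit 516180) (nat_lit 15) (.e (nat_lit 475205) (nat_lit 40) (.e (nat_lit 704588) (nat_lit 3) .nil))))))) (.g (nat_lit 1) (.e (nat_lit 170686) (nat_lit 0) .nil) .nil)))) (.nd (nat_lit 9) 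
(.lf (nat_lit 501005) (.g (nat_lit 2665) (.e (nat_lit 163977) (nat_lit 30) (.e (nat_lit 573493) (nat_lit 15) (.e (nat_lit 81956) (nat_lit 23) (.e (nat_lit 98367) (nat_lit 27) (.e (nat_lit 434211) (nat_lit 18) .nil))))) (.g (nat_lit 0) (.e (nat_lit 170170) (nat_lit 0) .nil) .nil))) 
(.lf (nat_lit 501517) (.g (nat_lit 3801) (.e (nat_lit 163978) (nat_lit 30) (.e (nat_lit 573485) (nat_lit 13) (.e (nat_lit 65619) (nat_lit 10) (.e (nat_lit 344117) (nat_lit 21) (.e (nat_lit 516145) (nat_lit 9) (.e (nat_lit 426416) (nat_lit 15) (.e (nat_lit 2057) (nat_lit 142) (.e (nat_lit 704589) (nat_lit 3) .nil)))))))) (.g (nat_lit 1) (.e (nat_lit 171029) (nat_lit 0) .nil) .nil))))) 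
(.nd (nat_lit 8) (.nd (nat_lit 9) 
(.lf (nat_lit 500877) (.g (nat_lit 2861) (.e (nat_lit 163977) (nat_lit 30) (.e (nat_lit 573493) (nat_lit 15) (.e (nat_lit 81953) (nat_lit 22) (.e (nat_lit 90170) (nat_lit 13) (.e (nat_lit 172038) (nat_lit 0) .nil))))) (.g (nat_lit 0) (.e (nat_lit 169830) (nat_lit 0) .nil) .nil))) 
(.lf (nat_lit 501389) (.g (nat_lit 4030) (.e (nat_lit 163978) (nat_lit 30) (.e (nat_lit 573485) (nat_lit 13) (.e (nat_lit 65604) (nat_lit 9) (.e (nat_lit 336028) (nat_lit 3) (.e (nat_lit 98359) (nat_lit 26) (.e (nat_lit 426043) (nat_lit 0) (.e (nat_lit 3406) (nat_lit 212) (.e (nat_lit 655373) (nat_lit 3) .nil)))))))) (.g (nat_lit 1) (.e (nat_lit 170847) (nat_lit 0) .nil) .nil)))) (.nd (nat_lit 9) 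
(.lf (nat_lit 501133) (.g (nat_lit 3524) (.e (nat_lit 163978) (nat_lit 30) (.e (nat_lit 573484) (nat_lit 13) (.e (nat_lit 65610) (nat_lit 10) (.e (nat_lit 344117) (nat_lit 21) (.e (nat_lit 516143) (nat_lit 9) (.e (nat_lit 426025) (nat_lit 0) (.e (nat_lit 3397) (nat_lit 211) (.e (nat_lit 647180) (nat_lit 3) .nil)))))))) (.g (nat_lit 1) (.e (nat_lit 170415) (nat_lit 0) .nil) .nil))) 
(.lf (nat_lit 501645) (.g (nat_lit 4200) (.e (nat_lit 163978) (nat_lit 30) (.e (nat_lit 573485) (nat_lit 13) (.e (nat_lit 65619) (nat_lit 10) (.e (nat_lit 344117) (nat_lit 21) (.e (nat_lit 516159) (nat_lit 10) (.e (nat_lit 434272) (nat_lit 38) (.e (nat_lit 655374) (nat_lit 3) .nil))))))) (.g (nat_lit 1) (.e (nat_lit 171162) (nat_lit 0) .nil) .nil)))))) 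
(.nd (nat_lit 7) (.nd (nat_lit 8) (.nd (nat_lit 9) 
(.lf (nat_lit 500813) (.g (nat_lit 3883) (.e (nat_lit 163977) (nat_lit 30) (.e (nat_lit 573492) (nat_lit 15) (.e (nat_lit 81956) (nat_lit 23) (.e (nat_lit 98359) (nat_lit 26) .nil)))) (.g (nat_lit 0) (.e (nat_lit 169596) (nat_lit 0) .nil) .nil))) 
(.lf (nat_lit 501325) (.g (nat_lit 4288) (.e (nat_lit 163978) (nat_lit 30) (.e (nat_lit 573485) (nat_lit 13) (.e (nat_lit 65604) (nat_lit 9) (.e (nat_lit 336013) (nat_lit 2) (.e (nat_lit 90170) (nat_lit 13) (.e (nat_lit 172060) (nat_lit 1) (.e (nat_lit 164345) (nat_lit 240) (.e (nat_lit 2611) (nat_lit 163) .nil)))))))) (.g (nat_lit 1) (.e (nat_lit 170768) (nat_lit 0) .nil) .nil)))) 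
(.nd (nat_lit 9) 
(.lf (nat_lit 501069) (.g (nat_lit 3858) (.e (nat_lit 163978) (nat_lit 30) (.e (nat_lit 573479) (nat_lit 13) (.e (nat_lit 65619) (nat_lit 10) (.e (nat_lit 344117) (nat_lit 21) (.e (nat_lit 516151) (nat_lit 9) (.e (nat_lit 426103) (nat_lit 1) (.e (nat_lit 164348) (nat_lit 240) (.e (nat_lit 2610) (nat_lit 163) .nil)))))))) (.g (nat_lit 1) (.e (nat_lit 170334) (nat_lit 0) .nil) .nil))) 
(.lf (nat_lit 501581) (.g (nat_lit 4392) (.e (nat_lit 163978) (nat_lit 30) (.e (nat_lit 573485) (nat_lit 13) (.e (nat_lit 65619) (nat_lit 10) (.e (nat_lit 344117) (nat_lit 21) (.e (nat_lit 516151) (nat_lit 9) (.e (nat_lit 426142) (nat_lit 4) (.e (nat_lit 229663) (nat_lit 240) (.e (nat_lit 2602) (nat_lit 163) .nil)))))))) (.g (nat_lit 1) (.e (nat_lit 171093) (nat_lit 0) .nil) .nil))))) 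
(.nd (nat_lit 8) (.nd (nat_lit 9) 
(.lf (nat_lit 500941) (.g (nat_lit 1913) (.e (nat_lit 163977) (nat_lit 30) (.e (nat_lit 573493) (nat_lit 15) (.e (nat_lit 81956) (nat_lit 23) (.e (nat_lit 98355) (nat_lit 26) .nil)))) (.g (nat_lit 0) (.e (nat_lit 170015) (nat_lit 0) .nil) .nil))) 
(.lf (nat_lit 501453) (.g (nat_lit 3959) (.e (nat_lit 163978) (nat_lit 30) (.e (nat_lit 573485) (nat_lit 13) (.e (nat_lit 65604) (nat_lit 9) (.e (nat_lit 336028) (nat_lit 3) (.e (nat_lit 98386) (nat_lit 32) (.e (nat_lit 475197) (nat_lit 40) (.e (nat_lit 704589) (nat_lit 3) .nil))))))) (.g (nat_lit 1) (.e (nat_lit 170957) (nat_lit 0) .nil) .nil)))) (.nd (nat_lit 9) 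
(.lf (nat_lit 501197) (.g (nat_lit 4344) (.e (nat_lit 163978) (nat_lit 30) (.e (nat_lit 573484) (nat_lit 13) (.e (nat_lit 65610) (nat_lit 10) (.e (nat_lit 344117) (nat_lit 21) (.e (nat_lit 516151) (nat_lit 9) (.e (nat_lit 426040) (nat_lit 0) (.e (nat_lit 2458) (nat_lit 157) (.e (nat_lit 5548) (nat_lit 306) (.e (nat_lit 2610) (nat_lit 163) .nil))))))))) (.g (nat_lit 1) (.e (nat_lit 170525) (nat_lit 0) .nil) .nil))) 
(.lf (nat_lit 501709) (.g (nat_lit 2388) (.e (nat_lit 163978) (nat_lit 30) (.e (nat_lit 573485) (nat_lit 13) (.e (nat_lit 65619) (nat_lit 10) (.e (nat_lit 344118) (nat_lit 21) (.e (nat_lit 516182) (nat_lit 15) (.e (nat_lit 475199) (nat_lit 40) (.e (nat_lit 704589) (nat_lit 3) .nil))))))) (.g (nat_lit 1) (.e (nat_lit 171235) (nat_lit 0) .nil) .nil))))))) 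
(.nd (nat_lit 6) (.nd (nat_lit 7) (.nd (nat_lit 8) (.nd (nat_lit 9) 
(.lf (nat_lit 500781) (.g (nat_lit 2723) (.e (nat_lit 163977) (nat_lit 30) (.e (nat_lit 573491) (nat_lit 15) (.e (nat_lit 81954) (nat_lit 23) (.e (nat_lit 98384) (nat_lit 32) (.e (nat_lit 475201) (nat_lit 40) (.e (nat_lit 712448) (nat_lit 3) .nil)))))) (.g (nat_lit 1) (.e (nat_lit 169504) (nat_lit 0) .nil) .nil))) 
(.lf (nat_lit 501293) (.g (nat_lit 4265) (.e (nat_lit 163978) (nat_lit 30) (.e (nat_lit 573485) (nat_lit 13) (.e (nat_lit 65604) (nat_lit 9) (.e (nat_lit 336013) (nat_lit 2) (.e (nat_lit 90170) (nat_lit 13) (.e (nat_lit 172042) (nat_lit 0) (.e (nat_lit 3406) (nat_lit 212) (.e (nat_lit 655373) (nat_lit 3) .nil)))))))) (.g (nat_lit 1) (.e (nat_lit 170735) (nat_lit 0) .nil) .nil)))) (.nd (nat_lit 9) 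
(.lf (nat_lit 501037) (.g (nat_lit 4647) (.e (nat_lit 163978) (nat_lit 30) (.e (nat_lit 573479) (nat_lit 13) (.e (nat_lit 65610) (nat_lit 10) (.e (nat_lit 344117) (nat_lit 21) (.e (nat_lit 516160) (nat_lit 10) (.e (nat_lit 434272) (nat_lit 38) (.e (nat_lit 655375) (nat_lit 3) .nil))))))) (.g (nat_lit 1) (.e (nat_lit 170302) (nat_lit 0) .nil) .nil))) 
(.lf (nat_lit 501549) (.g (nat_lit 3698) (.e (nat_lit 163978) (nat_lit 30) (.e (nat_lit 573485) (nat_lit 13) (.e (nat_lit 65619) (nat_lit 10) (.e (nat_lit 344117) (nat_lit 21) (.e (nat_lit 516151) (nat_lit 9) (.e (nat_lit 426042) (nat_lit 0) (.e (nat_lit 3403) (nat_lit 212) (.e (nat_lit 655373) (nat_lit 3) .nil)))))))) (.g (nat_lit 1) (.e (nat_lit 171061) (nat_lit 0) .nil) .nil))))) 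
(.nd (nat_lit 8) (.nd (nat_lit 9) 
(.lf (nat_lit 500909) (.g (nat_lit 4884) (.e (nat_lit 163977) (nat_lit 30) (.e (nat_lit 573493) (nat_lit 15) (.e (nat_lit 81953) (nat_lit 22) (.e (nat_lit 90186) (nat_lit 17) .nil)))) (.g (nat_lit 0) (.e (nat_lit 169908) (nat_lit 0) .nil) .nil))) 
(.lf (nat_lit 501421) (.g (nat_lit 2808) (.e (nat_lit 163978) (nat_lit 30) (.e (nat_lit 573485) (nat_lit 13) (.e (nat_lit 65604) (nat_lit 9) (.e (nat_lit 336028) (nat_lit 3) (.e (nat_lit 98366) (nat_lit 27) (.e (nat_lit 434209) (nat_lit 18) (.e (nat_lit 5546) (nat_lit 306) (.e (nat_lit 2601) (nat_lit 163) .nil)))))))) (.g (nat_lit 1) (.e (nat_lit 170912) (nat_lit 0) .nil) .nil)))) 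
(.nd (nat_lit 9) 
(.lf (nat_lit 501165) (.g (nat_lit 3695) (.e (nat_lit 163978) (nat_lit 30) (.e (nat_lit 573484) (nat_lit 13) (.e (nat_lit 65610) (nat_lit 10) (.e (nat_lit 344117) (nat_lit 21) (.e (nat_lit 516146) (nat_lit 9) (.e (nat_lit 426444) (nat_lit 19) (.e (nat_lit 114432) (nat_lit 3) .nil))))))) (.g (nat_lit 1) (.e (nat_lit 170477) (nat_lit 0) .nil) .nil))) 
(.lf (nat_lit 501677) (.g (nat_lit 2102) (.e (nat_lit 163978) (nat_lit 30) (.e (nat_lit 573485) (nat_lit 13) (.e (nat_lit 65619) (nat_lit 10) (.e (nat_lit 344117) (nat_lit 21) (.e (nat_lit 516170) (nat_lit 13) .nil))))) (.g (nat_lit 0) (.e (nat_lit 171200) (nat_lit 0) .nil) .nil)))))) (.nd (nat_lit 7) (.nd (nat_lit 8) (.nd (nat_lit 9) 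
(.lf (nat_lit 500845) (.g (nat_lit 4573) (.e (nat_lit 163977) (nat_lit 30) (.e (nat_lit 573493) (nat_lit 15) (.e (nat_lit 81951) (nat_lit 22) (.e (nat_lit 90170) (nat_lit 13) (.e (nat_lit 172035) (nat_lit 0) (.e (nat_lit 3401) (nat_lit 211) (.e (nat_lit 647181) (nat_lit 3) .nil))))))) (.g (nat_lit 1) (.e (nat_lit 169696) (nat_lit 0) .nil) .nil))) 
(.lf (nat_lit 501357) (.g (nat_lit 2147) (.e (nat_lit 163978) (nat_lit 30) (.e (nat_lit 573485) (nat_lit 13) (.e (nat_lit 65604) (nat_lit 9) (.e (nat_lit 336013) (nat_lit 2) (.e (nat_lit 90170) (nat_lit 13) (.e (nat_lit 172070) (nat_lit 4) (.e (nat_lit 229666) (nat_lit 240) (.e (nat_lit 2598) (nat_lit 163) .nil)))))))) (.g (nat_lit 1) (.e (nat_lit 170802) (nat_lit 0) .nil) .nil)))) 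
(.nd (nat_lit 9) 
(.lf (nat_lit 501101) (.g (nat_lit 3212) (.e (nat_lit 163978) (nat_lit 30) (.e (nat_lit 573479) (nat_lit 13) (.e (nat_lit 65619) (nat_lit 10) (.e (nat_lit 344117) (nat_lit 21) (.e (nat_lit 516170) (nat_lit 13) (.e (nat_lit 458774) (nat_lit 18) (.e (nat_lit 5543) (nat_lit 306) (.e (nat_lit 2611) (nat_lit 163) .nil)))))))) (.g (nat_lit 1) (.e (nat_lit 170366) (nat_lit 0) .nil) .nil))) 
(.lf (nat_lit 501613) (.g (nat_lit 3129) (.e (nat_lit 163978) (nat_lit 30) (.e (nat_lit 573485) (nat_lit 13) (.e (nat_lit 65619) (nat_lit 10) (.e (nat_lit 344117) (nat_lit 21) (.e (nat_lit 516153) (nat_lit 9) (.e (nat_lit 426025) (nat_lit 0) (.e (nat_lit 3397) (nat_lit 211) (.e (nat_lit 647181) (nat_lit 3) .nil)))))))) (.g (nat_lit 1) (.e (nat_lit 171125) (nat_lit 0) .nil) .nil))))) 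
(.nd (nat_lit 8) (.nd (nat_lit 9) 
(.lf (nat_lit 500973) (.g (nat_lit 3610) (.e (nat_lit 163977) (nat_lit 30) (.e (nat_lit 573493) (nat_lit 15) (.e (nat_lit 81956) (nat_lit 23) (.e (nat_lit 98359) (nat_lit 26) (.e (nat_lit 426142) (nat_lit 4) (.e (nat_lit 229663) (nat_lit 240) (.e (nat_lit 2604) (nat_lit 163) .nil))))))) (.g (nat_lit 1) (.e (nat_lit 170089) (nat_lit 0) .nil) .nil))) 
(.lf (nat_lit 501485) (.g (nat_lit 3662) (.e (nat_lit 163978) (nat_lit 30) (.e (nat_lit 573485) (nat_lit 13) (.e (nat_lit 65619) (nat_lit 10) (.e (nat_lit 344117) (nat_lit 21) (.e (nat_lit 516144) (nat_lit 9) (.e (nat_lit 426376) (nat_lit 15) (.e (nat_lit 2056) (nat_lit 142) (.e (nat_lit 704589) (nat_lit 3) .nil)))))))) (.g (nat_lit 1) (.e (nat_lit 170997) (nat_lit 0) .nil) .nil)))) 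
(.nd (nat_lit 9) 
(.lf (nat_lit 501229) (.g (nat_lit 2388) (.e (nat_lit 163978) (nat_lit 30) (.e (nat_lit 573484) (nat_lit 13) (.e (nat_lit 65610) (nat_lit 10) (.e (nat_lit 344117) (nat_lit 21) (.e (nat_lit 516151) (nat_lit 9) (.e (nat_lit 426104) (nat_lit 1) (.e (nat_lit 164348) (nat_lit 240) (.e (nat_lit 2601) (nat_lit 163) .nil)))))))) (.g (nat_lit 1) (.e (nat_lit 170585) (nat_lit 0) .nil) .nil))) 
(.lf (nat_lit 501741) (.g (nat_lit 2644) (.e (nat_lit 163978) (nat_lit 30) (.e (nat_lit 573489) (nat_lit 14) (.e (nat_lit 73754) (nat_lit 8) (.e (nat_lit 557100) (nat_lit 13) (.e (nat_lit 172065) (nat_lit 3) .nil))))) (.g (nat_lit 0) (.e (nat_lit 171397) (nat_lit 0) .nil) .nil)))))))) (.nd (nat_lit 5) (.nd (nat_lit 6) (.nd (nat_lit 7) (.nd (nat_lit 8) (.nd (nat_lit 9) 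
(.lf (nat_lit 500765) (.g (nat_lit 1253) (.e (nat_lit 163977) (nat_lit 30) (.e (nat_lit 573491) (nat_lit 15) (.e (nat_lit 81954) (nat_lit 23) (.e (nat_lit 98362) (nat_lit 26) .nil)))) (.g (nat_lit 0) (.e (nat_lit 169444) (nat_lit 0) .nil) .nil))) 
(.lf (nat_lit 501277) (.g (nat_lit 3194) (.e (nat_lit 163978) (nat_lit 30) (.e (nat_lit 573485) (nat_lit 13) (.e (nat_lit 65604) (nat_lit 9) (.e (nat_lit 336013) (nat_lit 2) (.e (nat_lit 90170) (nat_lit 13) (.e (nat_lit 172033) (nat_lit 0) (.e (nat_lit 3399) (nat_lit 211) (.e (nat_lit 647180) (nat_lit 3) .nil)))))))) (.g (nat_lit 1) (.e (nat_lit 170718) (nat_lit 0) .nil) .nil)))) (.nd (nat_lit 9) 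
(.lf (nat_lit 501021) (.g (nat_lit 3859) (.e (nat_lit 163977) (nat_lit 30) (.e (nat_lit 573493) (nat_lit 15) (.e (nat_lit 81956) (nat_lit 23) (.e (nat_lit 98384) (nat_lit 32) (.e (nat_lit 475201) (nat_lit 40) (.e (nat_lit 712448) (nat_lit 3) .nil)))))) (.g (nat_lit 1) (.e (nat_lit 170240) (nat_lit 0) .nil) .nil))) 
(.lf (nat_lit 501533) (.g (nat_lit 2977) (.e (nat_lit 163978) (nat_lit 30) (.e (nat_lit 573485) (nat_lit 13) (.e (nat_lit 65619) (nat_lit 10) (.e (nat_lit 344117) (nat_lit 21) (.e (nat_lit 516151) (nat_lit 9) (.e (nat_lit 426003) (nat_lit 0) (.e (nat_lit 3401) (nat_lit 211) (.e (nat_lit 647180) (nat_lit 3) .nil)))))))) (.g (nat_lit 1) (.e (nat_lit 171045) (nat_lit 0) .nil) .nil))))) 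
(.nd (nat_lit 8) (.nd (nat_lit 9) 
(.lf (nat_lit 500893) (.g (nat_lit 3409) (.e (nat_lit 163977) (nat_lit 30) (.e (nat_lit 573493) (nat_lit 15) (.e (nat_lit 81953) (nat_lit 22) (.e (nat_lit 90170) (nat_lit 13) (.e (nat_lit 172068) (nat_lit 4) (.e (nat_lit 229663) (nat_lit 240) (.e (nat_lit 2604) (nat_lit 163) .nil))))))) (.g (nat_lit 1) (.e (nat_lit 169865) (nat_lit 0) .nil) .nil))) 
(.lf (nat_lit 501405) (.g (nat_lit 3094) (.e (nat_lit 163978) (nat_lit 30) (.e (nat_lit 573485) (nat_lit 13) (.e (nat_lit 65604) (nat_lit 9) (.e (nat_lit 336028) (nat_lit 3) (.e (nat_lit 98361) (nat_lit 26) (.e (nat_lit 426109) (nat_lit 1) (.e (nat_lit 164345) (nat_lit 240) (.e (nat_lit 2610) (nat_lit 163) .nil)))))))) (.g (nat_lit 1) (.e (nat_lit 170887) (nat_lit 0) .nil) .nil)))) 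
(.nd (nat_lit 9) 
(.lf (nat_lit 501149) (.g (nat_lit 3110) (.e (nat_lit 163978) (nat_lit 30) (.e (nat_lit 573484) (nat_lit 13) (.e (nat_lit 65610) (nat_lit 10) (.e (nat_lit 344117) (nat_lit 21) (.e (nat_lit 516145) (nat_lit 9) (.e (nat_lit 426093) (nat_lit 0) (.e (nat_lit 2458) (nat_lit 157) (.e (nat_lit 5548) (nat_lit 306) (.e (nat_lit 2610) (nat_lit 163) .nil))))))))) (.g (nat_lit 1) (.e (nat_lit 170448) (nat_lit 0) .nil) .nil))) 
(.lf (nat_lit 501661) (.g (nat_lit 4822) (.e (nat_lit 163978) (nat_lit 30) (.e (nat_lit 573485) (nat_lit 13) (.e (nat_lit 65619) (nat_lit 10) (.e (nat_lit 344117) (nat_lit 21) (.e (nat_lit 516160) (nat_lit 10) (.e (nat_lit 434272) (nat_lit 38) (.e (nat_lit 655374) (nat_lit 3) .nil))))))) (.g (nat_lit 1) (.e (nat_lit 171182) (nat_lit 0) .nil) .nil)))))) 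
(.nd (nat_lit 7) (.nd (nat_lit 8) (.nd (nat_lit 9) 
(.lf (nat_lit 500829) (.g (nat_lit 4306) (.e (nat_lit 163977) (nat_lit 30) (.e (nat_lit 573492) (nat_lit 15) (.e (nat_lit 81956) (nat_lit 23) (.e (nat_lit 98384) (nat_lit 32) (.e (nat_lit 475203) (nat_lit 40) .nil))))) (.g (nat_lit 0) (.e (nat_lit 169627) (nat_lit 0) .nil) .nil))) 
(.lf (nat_lit 501341) (.g (nat_lit 4294) (.e (nat_lit 163978) (nat_lit 30) (.e (nat_lit 573485) (nat_lit 13) (.e (nat_lit 65604) (nat_lit 9) (.e (nat_lit 336013) (nat_lit 2) (.e (nat_lit 90170) (nat_lit 13) (.e (nat_lit 172068) (nat_lit 4) (.e (nat_lit 229665) (nat_lit 240) (.e (nat_lit 2602) (nat_lit 163) .nil)))))))) (.g (nat_lit 1) (.e (nat_lit 170786) (nat_lit 0) .nil) .nil)))) 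
(.nd (nat_lit 9) 
(.lf (nat_lit 501085) (.g (nat_lit 3000) (.e (nat_lit 163978) (nat_lit 30) (.e (nat_lit 573479) (nat_lit 13) (.e (nat_lit 65619) (nat_lit 10) (.e (nat_lit 344117) (nat_lit 21) (.e (nat_lit 516159) (nat_lit 10) (.e (nat_lit 434209) (nat_lit 18) (.e (nat_lit 5548) (nat_lit 306) (.e (nat_lit 2599) (nat_lit 163) .nil)))))))) (.g (nat_lit 1) (.e (nat_lit 170350) (nat_lit 0) .nil) .nil))) 
(.lf (nat_lit 501597) (.g (nat_lit 3289) (.e (nat_lit 163978) (nat_lit 30) (.e (nat_lit 573485) (nat_lit 13) (.e (nat_lit 65619) (nat_lit 10) (.e (nat_lit 344117) (nat_lit 21) (.e (nat_lit 516151) (nat_lit 9) (.e (nat_lit 433920) (nat_lit 19) (.e (nat_lit 114432) (nat_lit 3) .nil))))))) (.g (nat_lit 1) (.e (nat_lit 171109) (nat_lit 0) .nil) .nil))))) (.nd (nat_lit 8) (.nd (nat_lit 9) 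
(.lf (nat_lit 500957) (.g (nat_lit 4691) (.e (nat_lit 163977) (nat_lit 30) (.e (nat_lit 573493) (nat_lit 15) (.e (nat_lit 81956) (nat_lit 23) (.e (nat_lit 98358) (nat_lit 26) (.e (nat_lit 426444) (nat_lit 19) (.e (nat_lit 114432) (nat_lit 3) .nil)))))) (.g (nat_lit 1) (.e (nat_lit 170043) (nat_lit 0) .nil) .nil))) 
(.lf (nat_lit 501469) (.g (nat_lit 3374) (.e (nat_lit 163978) (nat_lit 30) (.e (nat_lit 573485) (nat_lit 13) (.e (nat_lit 65619) (nat_lit 10) (.e (nat_lit 344117) (nat_lit 21) (.e (nat_lit 516143) (nat_lit 9) (.e (nat_lit 426109) (nat_lit 1) (.e (nat_lit 164345) (nat_lit 240) (.e (nat_lit 2600) (nat_lit 163) .nil)))))))) (.g (nat_lit 1) (.e (nat_lit 170981) (nat_lit 0) .nil) .nil)))) 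
(.nd (nat_lit 9) 
(.lf (nat_lit 501213) (.g (nat_lit 2744) (.e (nat_lit 163978) (nat_lit 30) (.e (nat_lit 573484) (nat_lit 13) (.e (nat_lit 65610) (nat_lit 10) (.e (nat_lit 344117) (nat_lit 21) (.e (nat_lit 516151) (nat_lit 9) (.e (nat_lit 426043) (nat_lit 0) (.e (nat_lit 3406) (nat_lit 212) (.e (nat_lit 655374) (nat_lit 3) .nil)))))))) (.g (nat_lit 1) (.e (nat_lit 170555) (nat_lit 0) .nil) .nil))) 
(.lf (nat_lit 501725) (.g (nat_lit 3448) (.e (nat_lit 163978) (nat_lit 30) (.e (nat_lit 573487) (nat_lit 14) (.e (nat_lit 73753) (nat_lit 8) (.e (nat_lit 557103) (nat_lit 14) (.e (nat_lit 180244) (nat_lit 5) (.e (nat_lit 532504) (nat_lit 1) (.e (nat_lit 57663) (nat_lit 152) (.e (nat_lit 2612) (nat_lit 163) .nil)))))))) (.g (nat_lit 1) (.e (nat_lit 171365) (nat_lit 0) .nil) .nil))))))) 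
(.nd (nat_lit 6) (.nd (nat_lit 7) (.nd (nat_lit 8) (.nd (nat_lit 9) 
(.lf (nat_lit 500797) (.g (nat_lit 5328) (.e (nat_lit 163977) (nat_lit 30) (.e (nat_lit 573492) (nat_lit 15) (.e (nat_lit 81953) (nat_lit 22) (.e (nat_lit 90185) (nat_lit 17) .nil)))) (.g (nat_lit 0) (.e (nat_lit 169542) (nat_lit 0) .nil) .nil))) 
(.lf (nat_lit 501309) (.g (nat_lit 4300) (.e (nat_lit 163978) (nat_lit 30) (.e (nat_lit 573485) (nat_lit 13) (.e (nat_lit 65604) (nat_lit 9) (.e (nat_lit 336013) (nat_lit 2) (.e (nat_lit 90170) (nat_lit 13) (.e (nat_lit 172049) (nat_lit 0) (.e (nat_lit 3406) (nat_lit 212) (.e (nat_lit 655373) (nat_lit 3) .nil)))))))) (.g (nat_lit 1) (.e (nat_lit 170751) (nat_lit 0) .nil) .nil)))) (.nd (nat_lit 9) 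
(.lf (nat_lit 501053) (.g (nat_lit 4141) (.e (nat_lit 163978) (nat_lit 30) (.e (nat_lit 573479) (nat_lit 13) (.e (nat_lit 65619) (nat_lit 10) (.e (nat_lit 344117) (nat_lit 21) (.e (nat_lit 516151) (nat_lit 9) (.e (nat_lit 426038) (nat_lit 0) (.e (nat_lit 2458) (nat_lit 157) (.e (nat_lit 5548) (nat_lit 306) (.e (nat_lit 2610) (nat_lit 163) .nil))))))))) (.g (nat_lit 1) (.e (nat_lit 170318) (nat_lit 0) .nil) .nil))) 
(.lf (nat_lit 501565) (.g (nat_lit 4220) (.e (nat_lit 163978) (nat_lit 30) (.e (nat_lit 573485) (nat_lit 13) (.e (nat_lit 65619) (nat_lit 10) (.e (nat_lit 344117) (nat_lit 21) (.e (nat_lit 516151) (nat_lit 9) (.e (nat_lit 426097) (nat_lit 1) (.e (nat_lit 164345) (nat_lit 240) (.e (nat_lit 2599) (nat_lit 163) .nil)))))))) (.g (nat_lit 1) (.e (nat_lit 171077) (nat_lit 0) .nil) .nil))))) 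
(.nd (nat_lit 8) (.nd (nat_lit 9) 
(.lf (nat_lit 500925) (.g (nat_lit 2308) (.e (nat_lit 163977) (nat_lit 30) (.e (nat_lit 573493) (nat_lit 15) (.e (nat_lit 81954) (nat_lit 23) (.e (nat_lit 98364) (nat_lit 26) .nil)))) (.g (nat_lit 0) (.e (nat_lit 169940) (nat_lit 0) .nil) .nil))) 
(.lf (nat_lit 501437) (.g (nat_lit 5270) (.e (nat_lit 163978) (nat_lit 30) (.e (nat_lit 573485) (nat_lit 13) (.e (nat_lit 65604) (nat_lit 9) (.e (nat_lit 336028) (nat_lit 3) (.e (nat_lit 98367) (nat_lit 27) (.e (nat_lit 434209) (nat_lit 18) (.e (nat_lit 5547) (nat_lit 306) (.e (nat_lit 2610) (nat_lit 163) .nil)))))))) (.g (nat_lit 1) (.e (nat_lit 170936) (nat_lit 0) .nil) .nil)))) 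
(.nd (nat_lit 9) 
(.lf (nat_lit 501181) (.g (nat_lit 5043) (.e (nat_lit 163978) (nat_lit 30) (.e (nat_lit 573484) (nat_lit 13) (.e (nat_lit 65610) (nat_lit 10) (.e (nat_lit 344117) (nat_lit 21) (.e (nat_lit 516151) (nat_lit 9) (.e (nat_lit 426022) (nat_lit 0) (.e (nat_lit 3399) (nat_lit 211) (.e (nat_lit 647181) (nat_lit 3) .nil)))))))) (.g (nat_lit 1) (.e (nat_lit 170493) (nat_lit 0) .nil) .nil))) 
(.lf (nat_lit 501693) (.g (nat_lit 4391) (.e (nat_lit 163978) (nat_lit 30) (.e (nat_lit 573485) (nat_lit 13) (.e (nat_lit 65619) (nat_lit 10) (.e (nat_lit 344117) (nat_lit 21) (.e (nat_lit 516178) (nat_lit 15) (.e (nat_lit 475198) (nat_lit 40) (.e (nat_lit 704589) (nat_lit 3) .nil))))))) (.g (nat_lit 1) (.e (nat_lit 171219) (nat_lit 0) .nil) .nil)))))) 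
(.nd (nat_lit 7) (.nd (nat_lit 8) (.nd (nat_lit 9) 
(.lf (nat_lit 500861) (.g (nat_lit 3998) (.e (nat_lit 163977) (nat_lit 30) (.e (nat_lit 573493) (nat_lit 15) (.e (nat_lit 81951) (nat_lit 22) (.e (nat_lit 90170) (nat_lit 13) (.e (nat_lit 172070) (nat_lit 4) (.e (nat_lit 229663) (nat_lit 240) (.e (nat_lit 2604) (nat_lit 163) .nil))))))) (.g (nat_lit 1) (.e (nat_lit 169736) (nat_lit 0) .nil) .nil))) 
(.lf (nat_lit 501373) (.g (nat_lit 4647) (.e (nat_lit 163978) (nat_lit 30) (.e (nat_lit 573485) (nat_lit 13) (.e (nat_lit 65604) (nat_lit 9) (.e (nat_lit 336028) (nat_lit 3) (.e (nat_lit 98354) (nat_lit 26) (.e (nat_lit 426109) (nat_lit 1) (.e (nat_lit 164347) (nat_lit 240) (.e (nat_lit 2610) (nat_lit 163) .nil)))))))) (.g (nat_lit 1) (.e (nat_lit 170825) (nat_lit 0) .nil) .nil)))) 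
(.nd (nat_lit 9) 
(.lf (nat_lit 501117) (.g (nat_lit 2090) (.e (nat_lit 163978) (nat_lit 30) (.e (nat_lit 573482) (nat_lit 13) (.e (nat_lit 65604) (nat_lit 9) (.e (nat_lit 336028) (nat_lit 3) (.e (nat_lit 98359) (nat_lit 26) .nil))))) (.g (nat_lit 0) (.e (nat_lit 170382) (nat_lit 0) .nil) .nil))) 
(.lf (nat_lit 501629) (.g (nat_lit 2530) (.e (nat_lit 163978) (nat_lit 30) (.e (nat_lit 573485) (nat_lit 13) (.e (nat_lit 65619) (nat_lit 10) (.e (nat_lit 344117) (nat_lit 21) (.e (nat_lit 516159) (nat_lit 10) (.e (nat_lit 434202) (nat_lit 18) (.e (nat_lit 5537) (nat_lit 306) (.e (nat_lit 2599) (nat_lit 163) .nil)))))))) (.g (nat_lit 1) (.e (nat_lit 171142) (nat_lit 0) .nil) .nil))))) 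
(.nd (nat_lit 8) (.nd (nat_lit 9) 
(.lf (nat_lit 500989) (.g (nat_lit 5216) (.e (nat_lit 163977) (nat_lit 30) (.e (nat_lit 573493) (nat_lit 15) (.e (nat_lit 81956) (nat_lit 23) (.e (nat_lit 98365) (nat_lit 26) (.e (nat_lit 426100) (nat_lit 1) (.e (nat_lit 164345) (nat_lit 240) (.e (nat_lit 2610) (nat_lit 163) .nil))))))) (.g (nat_lit 1) (.e (nat_lit 170118) (nat_lit 0) .nil) .nil))) 
(.lf (nat_lit 501501) (.g (nat_lit 3050) (.e (nat_lit 163978) (nat_lit 30) (.e (nat_lit 573485) (nat_lit 13) (.e (nat_lit 65619) (nat_lit 10) (.e (nat_lit 344117) (nat_lit 21) (.e (nat_lit 516145) (nat_lit 9) (.e (nat_lit 433920) (nat_lit 1) (.e (nat_lit 164347) (nat_lit 240) (.e (nat_lit 2611) (nat_lit 163) .nil)))))))) (.g (nat_lit 1) (.e (nat_lit 171013) (nat_lit 0) .nil) .nil)))) 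
(.nd (nat_lit 9) 
(.lf (nat_lit 501245) (.g (nat_lit 3044) (.e (nat_lit 163978) (nat_lit 30) (.e (nat_lit 573484) (nat_lit 13) (.e (nat_lit 65610) (nat_lit 10) (.e (nat_lit 344117) (nat_lit 21) (.e (nat_lit 516160) (nat_lit 10) (.e (nat_lit 434270) (nat_lit 38) (.e (nat_lit 655374) (nat_lit 3) .nil))))))) (.g (nat_lit 1) (.e (nat_lit 170650) (nat_lit 0) .nil) .nil))) 
(.lf (nat_lit 501757) (.g (nat_lit 3803) (.e (nat_lit 163978) (nat_lit 30) (.e (nat_lit 573489) (nat_lit 14) (.e (nat_lit 73754) (nat_lit 8) (.e (nat_lit 557100) (nat_lit 13) (.e (nat_lit 172067) (nat_lit 3) (.e (nat_lit 204817) (nat_lit 17) (.e (nat_lit 2272) (nat_lit 149) (.e (nat_lit 761899) (nat_lit 15) .nil)))))))) (.g (nat_lit 1) (.e (nat_lit 171426) (nat_lit 0) .nil) .nil))))))))))) 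
(.nd (nat_lit 2) (.nd (nat_lit 3) (.nd (nat_lit 4) (.nd (nat_lit 5) (.nd (nat_lit 6) 
(.nd (nat_lit 7) (.nd (nat_lit 8) (.nd (nat_lit 9) 
(.lf (nat_lit 500739) (.g (nat_lit 3419) (.e (nat_lit 163977) (nat_lit 30) (.e (nat_lit 573491) (nat_lit 15) (.e (nat_lit 81951) (nat_lit 22) (.e (nat_lit 90170) (nat_lit 13) (.e (nat_lit 172070) (nat_lit 4) (.e (nat_lit 229663) (nat_lit 240) (.e (nat_lit 2604) (nat_lit 163) .nil))))))) (.g (nat_lit 1) (.e (nat_lit 169361) (nat_lit 0) .nil) .nil))) 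
(.lf (nat_lit 501251) (.g (nat_lit 3106) (.e (nat_lit 163978) (nat_lit 30) (.e (nat_lit 573484) (nat_lit 13) (.e (nat_lit 65610) (nat_lit 10) (.e (nat_lit 344117) (nat_lit 21) (.e (nat_lit 516172) (nat_lit 13) (.e (nat_lit 458774) (nat_lit 18) (.e (nat_lit 5548) (nat_lit 306) (.e (nat_lit 2610) (nat_lit 163) .nil)))))))) (.g (nat_lit 1) (.e (nat_lit 170676) (nat_lit 0) .nil) .nil)))) 
(.nd (nat_lit 9) 
(.lf (nat_lit 500995) (.g (nat_lit 1466) (.e (nat_lit 163977) (nat_lit 30) (.e (nat_lit 573493) (nat_lit 15) (.e (nat_lit 81956) (nat_lit 23) (.e (nat_lit 98366) (nat_lit 27) .nil)))) (.g (nat_lit 0) (.e (nat_lit 170134) (nat_lit 0) .nil) .nil))) 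
(.lf (nat_lit 501507) (.g (nat_lit 4464) (.e (nat_lit 163978) (nat_lit 30) (.e (nat_lit 573485) (nat_lit 13) (.e (nat_lit 65619) (nat_lit 10) (.e (nat_lit 344117) (nat_lit 21) (.e (nat_lit 516145) (nat_lit 9) (.e (nat_lit 426375) (nat_lit 15) (.e (nat_lit 2056) (nat_lit 142) (.e (nat_lit 704589) (nat_lit 3) .nil)))))))) (.g (nat_lit 1) (.e (nat_lit 171019) (nat_lit 0) .nil) .nil))))) 
(.nd (nat_lit 8) (.nd (nat_lit 9) 
(.lf (nat_lit 500867) (.g (nat_lit 4063) (.e (nat_lit 163977) (nat_lit 30) (.e (nat_lit 573493) (nat_lit 15) (.e (nat_lit 81953) (nat_lit 22) (.e (nat_lit 90167) (nat_lit 13) .nil)))) (.g (nat_lit 0) (.e (nat_lit 169820) (nat_lit 0) .nil) .nil))) 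
(.lf (nat_lit 501379) (.g (nat_lit 3028) (.e (nat_lit 163978) (nat_lit 30) (.e (nat_lit 573485) (nat_lit 13) (.e (nat_lit 65604) (nat_lit 9) (.e (nat_lit 336028) (nat_lit 3) (.e (nat_lit 98359) (nat_lit 26) (.e (nat_lit 426003) (nat_lit 0) (.e (nat_lit 3399) (nat_lit 211) (.e (nat_lit 647180) (nat_lit 3) .nil)))))))) (.g (nat_lit 1) (.e (nat_lit 170831) (nat_lit 0) .nil) .nil)))) (.nd (nat_lit 9) 
(.lf (nat_lit 501123) (.g (nat_lit 4940) (.e (nat_lit 163978) (nat_lit 30) (.e (nat_lit 573482) (nat_lit 13) (.e (nat_lit 65619) (nat_lit 10) (.e (nat_lit 344117) (nat_lit 21) (.e (nat_lit 516159) (nat_lit 10) (.e (nat_lit 434272) (nat_lit 38) (.e (nat_lit 655375) (nat_lit 3) .nil))))))) (.g (nat_lit 1) (.e (nat_lit 170388) (nat_lit 0) .nil) .nil))) 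
(.lf (nat_lit 501635) (.g (nat_lit 3990) (.e (nat_lit 163978) (nat_lit 30) (.e (nat_lit 573485) (nat_lit 13) (.e (nat_lit 65619) (nat_lit 10) (.e (nat_lit 344117) (nat_lit 21) (.e (nat_lit 516159) (nat_lit 10) (.e (nat_lit 434209) (nat_lit 18) (.e (nat_lit 5548) (nat_lit 306) (.e (nat_lit 2601) (nat_lit 163) .nil)))))))) (.g (nat_lit 1) (.e (nat_lit 171152) (nat_lit 0) .nil) .nil)))))) 
(.nd (nat_lit 7) (.nd (nat_lit 8) (.nd (nat_lit 9) 
(.lf (nat_lit 500803) (.g (nat_lit 3241) (.e (nat_lit 163977) (nat_lit 30) (.e (nat_lit 573492) (nat_lit 15) (.e (nat_lit 81956) (nat_lit 23) (.e (nat_lit 98355) (nat_lit 26) (.e (nat_lit 426444) (nat_lit 19) (.e (nat_lit 114432) (nat_lit 3) .nil)))))) (.g (nat_lit 1) (.e (nat_lit 169575) (nat_lit 0) .nil) .nil))) 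
(.lf (nat_lit 501315) (.g (nat_lit 4285) (.e (nat_lit 163978) (nat_lit 30) (.e (nat_lit 573485) (nat_lit 13) (.e (nat_lit 65604) (nat_lit 9) (.e (nat_lit 336013) (nat_lit 2) (.e (nat_lit 90170) (nat_lit 13) (.e (nat_lit 172059) (nat_lit 1) (.e (nat_lit 164345) (nat_lit 240) (.e (nat_lit 2599) (nat_lit 163) .nil)))))))) (.g (nat_lit 1) (.e (nat_lit 170757) (nat_lit 0) .nil) .nil)))) 
(.nd (nat_lit 9) 
(.lf (nat_lit 501059) (.g (nat_lit 4061) (.e (nat_lit 163978) (nat_lit 30) (.e (nat_lit 573479) (nat_lit 13) (.e (nat_lit 65619) (nat_lit 10) (.e (nat_lit 344117) (nat_lit 21) (.e (nat_lit 516151) (nat_lit 9) (.e (nat_lit 426042) (nat_lit 0) (.e (nat_lit 2458) (nat_lit 157) (.e (nat_lit 5546) (nat_lit 306) (.e (nat_lit 2611) (nat_lit 163) .nil))))))))) (.g (nat_lit 1) (.e (nat_lit 170324) (nat_lit 0) .nil) .nil))) 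
(.lf (nat_lit 501571) (.g (nat_lit 4921) (.e (nat_lit 163978) (nat_lit 30) (.e (nat_lit 573485) (nat_lit 13) (.e (nat_lit 65619) (nat_lit 10) (.e (nat_lit 344117) (nat_lit 21) (.e (nat_lit 516151) (nat_lit 9) (.e (nat_lit 426097) (nat_lit 1) (.e (nat_lit 164347) (nat_lit 240) (.e (nat_lit 2610) (nat_lit 163) .nil)))))))) (.g (nat_lit 1) (.e (nat_lit 171083) (nat_lit 0) .nil) .nil))))) 
(.nd (nat_lit 8) (.nd (nat_lit 9) 
(.lf (nat_lit 500931) (.g (nat_lit 4030) (.e (nat_lit 163977) (nat_lit 30) (.e (nat_lit 573493) (nat_lit 15) (.e (nat_lit 81954) (nat_lit 23) (.e (nat_lit 98366) (nat_lit 27) (.e (nat_lit 434272) (nat_lit 38) (.e (nat_lit 655375) (nat_lit 3) .nil)))))) (.g (nat_lit 1) (.e (nat_lit 169954) (nat_lit 0) .nil) .nil))) 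
(.lf (nat_lit 501443) (.g (nat_lit 3769) (.e (nat_lit 163978) (nat_lit 30) (.e (nat_lit 573485) (nat_lit 13) (.e (nat_lit 65604) (nat_lit 9) (.e (nat_lit 336028) (nat_lit 3) (.e (nat_lit 98367) (nat_lit 27) (.e (nat_lit 434271) (nat_lit 38) (.e (nat_lit 655374) (nat_lit 3) .nil))))))) (.g (nat_lit 1) (.e (nat_lit 170944) (nat_lit 0) .nil) .nil)))) (.nd (nat_lit 9) 
(.lf (nat_lit 501187) (.g (nat_lit 2967) (.e (nat_lit 163978) (nat_lit 30) (.e (nat_lit 573484) (nat_lit 13) (.e (nat_lit 65610) (nat_lit 10) (.e (nat_lit 344117) (nat_lit 21) (.e (nat_lit 516151) (nat_lit 9) (.e (nat_lit 426034) (nat_lit 0) (.e (nat_lit 2478) (nat_lit 157) (.e (nat_lit 5548) (nat_lit 306) (.e (nat_lit 2610) (nat_lit 163) .nil))))))))) (.g (nat_lit 1) (.e (nat_lit 170501) (nat_lit 0) .nil) .nil))) 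
(.lf (nat_lit 501699) (.g (nat_lit 2945) (.e (nat_lit 163978) (nat_lit 30) (.e (nat_lit 573485) (nat_lit 13) (.e (nat_lit 65619) (nat_lit 10) (.e (nat_lit 344117) (nat_lit 21) (.e (nat_lit 516180) (nat_lit 15) (.e (nat_lit 475200) (nat_lit 40) (.e (nat_lit 712448) (nat_lit 3) .nil))))))) (.g (nat_lit 1) (.e (nat_lit 171225) (nat_lit 0) .nil) .nil))))))) 
(.nd (nat_lit 6) (.nd (nat_lit 7) (.nd (nat_lit 8) (.nd (nat_lit 9) 
(.lf (nat_lit 500771) (.g (nat_lit 3024) (.e (nat_lit 163977) (nat_lit 30) (.e (nat_lit 573491) (nat_lit 15) (.e (nat_lit 81954) (nat_lit 23) (.e (nat_lit 98365) (nat_lit 26) (.e (nat_lit 426145) (nat_lit 4) (.e (nat_lit 229663) (nat_lit 240) (.e (nat_lit 2612) (nat_lit 163) .nil))))))) (.g (nat_lit 1) (.e (nat_lit 169464) (nat_lit 0) .nil) .nil))) 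
(.lf (nat_lit 501283) (.g (nat_lit 3370) (.e (nat_lit 163978) (nat_lit 30) (.e (nat_lit 573485) (nat_lit 13) (.e (nat_lit 65604) (nat_lit 9) (.e (nat_lit 336013) (nat_lit 2) (.e (nat_lit 90170) (nat_lit 13) (.e (nat_lit 172038) (nat_lit 0) (.e (nat_lit 3397) (nat_lit 211) (.e (nat_lit 647181) (nat_lit 3) .nil)))))))) (.g (nat_lit 1) (.e (nat_lit 170724) (nat_lit 0) .nil) .nil)))) (.nd (nat_lit 9) 
(.lf (nat_lit 501027) (.g (nat_lit 2026) (.e (nat_lit 163978) (nat_lit 30) (.e (nat_lit 573474) (nat_lit 12) (.e (nat_lit 57528) (nat_lit 46) (.e (nat_lit 704514) (nat_lit 0) .nil)))) (.g (nat_lit 0) (.e (nat_lit 170276) (nat_lit 0) .nil) .nil))) 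
(.lf (nat_lit 501539) (.g (nat_lit 3755) (.e (nat_lit 163978) (nat_lit 30) (.e (nat_lit 573485) (nat_lit 13) (.e (nat_lit 65619) (nat_lit 10) (.e (nat_lit 344117) (nat_lit 21) (.e (nat_lit 516151) (nat_lit 9) (.e (nat_lit 426023) (nat_lit 0) (.e (nat_lit 3402) (nat_lit 211) (.e (nat_lit 647181) (nat_lit 3) .nil)))))))) (.g (nat_lit 1) (.e (nat_lit 171051) (nat_lit 0) .nil) .nil))))) 
(.nd (nat_lit 8) (.nd (nat_lit 9) 
(.lf (nat_lit 500899) (.g (nat_lit 3024) (.e (nat_lit 163977) (nat_lit 30) (.e (nat_lit 573493) (nat_lit 15) (.e (nat_lit 81953) (nat_lit 22) (.e (nat_lit 90170) (nat_lit 13) (.e (nat_lit 172070) (nat_lit 4) (.e (nat_lit 229666) (nat_lit 240) (.e (nat_lit 2604) (nat_lit 163) .nil))))))) (.g (nat_lit 1) (.e (nat_lit 169871) (nat_lit 0) .nil) .nil))) 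
(.lf (nat_lit 501411) (.g (nat_lit 2895) (.e (nat_lit 163978) (nat_lit 30) (.e (nat_lit 573485) (nat_lit 13) (.e (nat_lit 65604) (nat_lit 9) (.e (nat_lit 336028) (nat_lit 3) (.e (nat_lit 98363) (nat_lit 26) (.e (nat_lit 426110) (nat_lit 1) (.e (nat_lit 164348) (nat_lit 240) (.e (nat_lit 2610) (nat_lit 163) .nil)))))))) (.g (nat_lit 1) (.e (nat_lit 170896) (nat_lit 0) .nil) .nil)))) 
(.nd (nat_lit 9) 
(.lf (nat_lit 501155) (.g (nat_lit 2692) (.e (nat_lit 163978) (nat_lit 30) (.e (nat_lit 573484) (nat_lit 13) (.e (nat_lit 65610) (nat_lit 10) (.e (nat_lit 344117) (nat_lit 21) (.e (nat_lit 516145) (nat_lit 9) (.e (nat_lit 433920) (nat_lit 4) (.e (nat_lit 229665) (nat_lit 240) (.e (nat_lit 2612) (nat_lit 163) .nil)))))))) (.g (nat_lit 1) (.e (nat_lit 170467) (nat_lit 0) .nil) .nil))) 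
(.lf (nat_lit 501667) (.g (nat_lit 2464) (.e (nat_lit 163978) (nat_lit 30) (.e (nat_lit 573485) (nat_lit 13) (.e (nat_lit 65619) (nat_lit 10) (.e (nat_lit 344117) (nat_lit 21) (.e (nat_lit 516161) (nat_lit 10) (.e (nat_lit 434271) (nat_lit 38) (.e (nat_lit 655375) (nat_lit 3) .nil))))))) (.g (nat_lit 1) (.e (nat_lit 171188) (nat_lit 0) .nil) .nil)))))) 
(.nd (nat_lit 7) (.nd (nat_lit 8) (.nd (nat_lit 9) 
(.lf (nat_lit 500835) (.g (nat_lit 2452) (.e (nat_lit 163977) (nat_lit 30) (.e (nat_lit 573493) (nat_lit 15) (.e (nat_lit 81951) (nat_lit 22) (.e (nat_lit 90167) (nat_lit 13) .nil)))) (.g (nat_lit 0) (.e (nat_lit 169685) (nat_lit 0) .nil) .nil))) 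
(.lf (nat_lit 501347) (.g (nat_lit 3314) (.e (nat_lit 163978) (nat_lit 30) (.e (nat_lit 573485) (nat_lit 13) (.e (nat_lit 65604) (nat_lit 9) (.e (nat_lit 336013) (nat_lit 2) (.e (nat_lit 90170) (nat_lit 13) (.e (nat_lit 172069) (nat_lit 4) (.e (nat_lit 229664) (nat_lit 240) (.e (nat_lit 2603) (nat_lit 163) .nil)))))))) (.g (nat_lit 1) (.e (nat_lit 170792) (nat_lit 0) .nil) .nil)))) 
(.nd (nat_lit 9) 
(.lf (nat_lit 501091) (.g (nat_lit 4143) (.e (nat_lit 163978) (nat_lit 30) (.e (nat_lit 573479) (nat_lit 13) (.e (nat_lit 65619) (nat_lit 10) (.e (nat_lit 344117) (nat_lit 21) (.e (nat_lit 516160) (nat_lit 10) (.e (nat_lit 434202) (nat_lit 18) (.e (nat_lit 5537) (nat_lit 306) (.e (nat_lit 2611) (nat_lit 163) .nil)))))))) (.g (nat_lit 1) (.e (nat_lit 170356) (nat_lit 0) .nil) .nil))) 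
(.lf (nat_lit 501603) (.g (nat_lit 3185) (.e (nat_lit 163978) (nat_lit 30) (.e (nat_lit 573485) (nat_lit 13) (.e (nat_lit 65619) (nat_lit 10) (.e (nat_lit 344117) (nat_lit 21) (.e (nat_lit 516152) (nat_lit 9) (.e (nat_lit 426025) (nat_lit 0) (.e (nat_lit 3399) (nat_lit 211) (.e (nat_lit 647181) (nat_lit 3) .nil)))))))) (.g (nat_lit 1) (.e (nat_lit 171115) (nat_lit 0) .nil) .nil))))) 
(.nd (nat_lit 8) (.nd (nat_lit 9) 
(.lf (nat_lit 500963) (.g (nat_lit 2826) (.e (nat_lit 163977) (nat_lit 30) (.e (nat_lit 573493) (nat_lit 15) (.e (nat_lit 81956) (nat_lit 23) (.e (nat_lit 98359) (nat_lit 26) (.e (nat_lit 426036) (nat_lit 0) .nil))))) (.g (nat_lit 0) (.e (nat_lit 170053) (nat_lit 0) .nil) .nil))) 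
(.lf (nat_lit 501475) (.g (nat_lit 2393) (.e (nat_lit 163978) (nat_lit 30) (.e (nat_lit 573485) (nat_lit 13) (.e (nat_lit 65619) (nat_lit 10) (.e (nat_lit 344117) (nat_lit 21) (.e (nat_lit 516143) (nat_lit 9) (.e (nat_lit 426144) (nat_lit 4) (.e (nat_lit 229663) (nat_lit 240) (.e (nat_lit 2602) (nat_lit 163) .nil)))))))) (.g (nat_lit 1) (.e (nat_lit 170987) (nat_lit 0) .nil) .nil)))) 
(.nd (nat_lit 9) 
(.lf (nat_lit 501219) (.g (nat_lit 3099) (.e (nat_lit 163978) (nat_lit 30) (.e (nat_lit 573484) (nat_lit 13) (.e (nat_lit 65610) (nat_lit 10) (.e (nat_lit 344117) (nat_lit 21) (.e (nat_lit 516151) (nat_lit 9) (.e (nat_lit 426050) (nat_lit 0) (.e (nat_lit 3403) (nat_lit 212) (.e (nat_lit 655373) (nat_lit 3) .nil)))))))) (.g (nat_lit 1) (.e (nat_lit 170561) (nat_lit 0) .nil) .nil))) 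
(.lf (nat_lit 501731) (.g (nat_lit 6058) (.e (nat_lit 163978) (nat_lit 30) (.e (nat_lit 573487) (nat_lit 14) (.e (nat_lit 73753) (nat_lit 8) (.e (nat_lit 557105) (nat_lit 14) (.e (nat_lit 180251) (nat_lit 10) (.e (nat_lit 573475) (nat_lit 12) (.e (nat_lit 57503) (nat_lit 38) (.e (nat_lit 638995) (nat_lit 7) .nil)))))))) (.g (nat_lit 1) (.e (nat_lit 171372) (nat_lit 0) .nil) .nil)))))))) 
(.nd (nat_lit 5) (.nd (nat_lit 6) (.nd (nat_lit 7) (.nd (nat_lit 8) (.nd (nat_lit 9) 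
(.lf (nat_lit 500755) (.g (nat_lit 4167) (.e (nat_lit 163977) (nat_lit 30) (.e (nat_lit 573491) (nat_lit 15) (.e (nat_lit 81954) (nat_lit 23) (.e (nat_lit 98359) (nat_lit 26) (.e (nat_lit 426025) (nat_lit 0) (.e (nat_lit 3397) (nat_lit 211) (.e (nat_lit 647181) (nat_lit 3) .nil))))))) (.g (nat_lit 1) (.e (nat_lit 169417) (nat_lit 0) .nil) .nil))) 
(.lf (nat_lit 501267) (.g (nat_lit 1737) (.e (nat_lit 163978) (nat_lit 30) (.e (nat_lit 573485) (nat_lit 13) (.e (nat_lit 65604) (nat_lit 9) (.e (nat_lit 336013) (nat_lit 2) (.e (nat_lit 90134) (nat_lit 9) .nil))))) (.g (nat_lit 0) (.e (nat_lit 170704) (nat_lit 0) .nil) .nil)))) (.nd (nat_lit 9) 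
(.lf (nat_lit 501011) (.g (nat_lit 3787) (.e (nat_lit 163977) (nat_lit 30) (.e (nat_lit 573493) (nat_lit 15) (.e (nat_lit 81956) (nat_lit 23) (.e (nat_lit 98367) (nat_lit 27) (.e (nat_lit 434272) (nat_lit 38) (.e (nat_lit 655374) (nat_lit 3) .nil)))))) (.g (nat_lit 1) (.e (nat_lit 170187) (nat_lit 0) .nil) .nil))) 
(.lf (nat_lit 501523) (.g (nat_lit 2581) (.e (nat_lit 163978) (nat_lit 30) (.e (nat_lit 573485) (nat_lit 13) (.e (nat_lit 65619) (nat_lit 10) (.e (nat_lit 344117) (nat_lit 21) (.e (nat_lit 516145) (nat_lit 9) (.e (nat_lit 426469) (nat_lit 24) (.e (nat_lit 163584) (nat_lit 3) .nil))))))) (.g (nat_lit 1) (.e (nat_lit 171035) (nat_lit 0) .nil) .nil))))) (.nd (nat_lit 8) (.nd (nat_lit 9) 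
(.lf (nat_lit 500883) (.g (nat_lit 3511) (.e (nat_lit 163977) (nat_lit 30) (.e (nat_lit 573493) (nat_lit 15) (.e (nat_lit 81953) (nat_lit 22) (.e (nat_lit 90170) (nat_lit 13) (.e (nat_lit 172043) (nat_lit 0) (.e (nat_lit 3409) (nat_lit 212) (.e (nat_lit 655375) (nat_lit 3) .nil))))))) (.g (nat_lit 1) (.e (nat_lit 169836) (nat_lit 0) .nil) .nil))) 
(.lf (nat_lit 501395) (.g (nat_lit 3322) (.e (nat_lit 163978) (nat_lit 30) (.e (nat_lit 573485) (nat_lit 13) (.e (nat_lit 65604) (nat_lit 9) (.e (nat_lit 336028) (nat_lit 3) (.e (nat_lit 98359) (nat_lit 26) (.e (nat_lit 426410) (nat_lit 15) (.e (nat_lit 2057) (nat_lit 142) (.e (nat_lit 704589) (nat_lit 3) .nil)))))))) (.g (nat_lit 1) (.e (nat_lit 170874) (nat_lit 0) .nil) .nil)))) 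
(.nd (nat_lit 9) 
(.lf (nat_lit 501139) (.g (nat_lit 1930) (.e (nat_lit 163978) (nat_lit 30) (.e (nat_lit 573484) (nat_lit 13) (.e (nat_lit 65610) (nat_lit 10) (.e (nat_lit 344117) (nat_lit 21) (.e (nat_lit 516144) (nat_lit 9) .nil))))) (.g (nat_lit 0) (.e (nat_lit 170433) (nat_lit 0) .nil) .nil))) 
(.lf (nat_lit 501651) (.g (nat_lit 4705) (.e (nat_lit 163978) (nat_lit 30) (.e (nat_lit 573485) (nat_lit 13) (.e (nat_lit 65619) (nat_lit 10) (.e (nat_lit 344117) (nat_lit 21) (.e (nat_lit 516160) (nat_lit 10) (.e (nat_lit 434209) (nat_lit 18) (.e (nat_lit 5547) (nat_lit 306) (.e (nat_lit 2599) (nat_lit 163) .nil)))))))) (.g (nat_lit 1) (.e (nat_lit 171171) (nat_lit 0) .nil) .nil)))))) 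
(.nd (nat_lit 7) (.nd (nat_lit 8) (.nd (nat_lit 9) 
(.lf (nat_lit 500819) (.g (nat_lit 3812) (.e (nat_lit 163977) (nat_lit 30) (.e (nat_lit 573492) (nat_lit 15) (.e (nat_lit 81956) (nat_lit 23) (.e (nat_lit 98364) (nat_lit 26) .nil)))) (.g (nat_lit 0) (.e (nat_lit 169602) (nat_lit 0) .nil) .nil))) 
(.lf (nat_lit 501331) (.g (nat_lit 4858) (.e (nat_lit 163978) (nat_lit 30) (.e (nat_lit 573485) (nat_lit 13) (.e (nat_lit 65604) (nat_lit 9) (.e (nat_lit 336013) (nat_lit 2) (.e (nat_lit 90170) (nat_lit 13) (.e (nat_lit 172061) (nat_lit 1) (.e (nat_lit 164345) (nat_lit 240) (.e (nat_lit 2610) (nat_lit 163) .nil)))))))) (.g (nat_lit 1) (.e (nat_lit 170774) (nat_lit 0) .nil) .nil)))) 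
(.nd (nat_lit 9) 
(.lf (nat_lit 501075) (.g (nat_lit 2813) (.e (nat_lit 163978) (nat_lit 30) (.e (nat_lit 573479) (nat_lit 13) (.e (nat_lit 65619) (nat_lit 10) (.e (nat_lit 344117) (nat_lit 21) (.e (nat_lit 516151) (nat_lit 9) (.e (nat_lit 426142) (nat_lit 4) (.e (nat_lit 229663) (nat_lit 240) (.e (nat_lit 2602) (nat_lit 163) .nil)))))))) (.g (nat_lit 1) (.e (nat_lit 170340) (nat_lit 0) .nil) .nil))) 
(.lf (nat_lit 501587) (.g (nat_lit 2127) (.e (nat_lit 163978) (nat_lit 30) (.e (nat_lit 573485) (nat_lit 13) (.e (nat_lit 65619) (nat_lit 10) (.e (nat_lit 344117) (nat_lit 21) (.e (nat_lit 516151) (nat_lit 9) (.e (nat_lit 426142) (nat_lit 4) (.e (nat_lit 229666) (nat_lit 240) (.e (nat_lit 2598) (nat_lit 163) .nil)))))))) (.g (nat_lit 1) (.e (nat_lit 171099) (nat_lit 0) .nil) .nil))))) 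
(.nd (nat_lit 8) (.nd (nat_lit 9) 
(.lf (nat_lit 500947) (.g (nat_lit 3817) (.e (nat_lit 163977) (nat_lit 30) (.e (nat_lit 573493) (nat_lit 15) (.e (nat_lit 81956) (nat_lit 23) (.e (nat_lit 98356) (nat_lit 26) (.e (nat_lit 426148) (nat_lit 4) (.e (nat_lit 229663) (nat_lit 240) (.e (nat_lit 2612) (nat_lit 163) .nil))))))) (.g (nat_lit 1) (.e (nat_lit 170026) (nat_lit 0) .nil) .nil))) 
(.lf (nat_lit 501459) (.g (nat_lit 4021) (.e (nat_lit 163978) (nat_lit 30) (.e (nat_lit 573485) (nat_lit 13) (.e (nat_lit 65610) (nat_lit 10) (.e (nat_lit 344117) (nat_lit 21) (.e (nat_lit 516179) (nat_lit 15) (.e (nat_lit 475198) (nat_lit 40) (.e (nat_lit 704589) (nat_lit 3) .nil))))))) (.g (nat_lit 1) (.e (nat_lit 170964) (nat_lit 0) .nil) .nil)))) (.nd (nat_lit 9) 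
(.lf (nat_lit 501203) (.g (nat_lit 2709) (.e (nat_lit 163978) (nat_lit 30) (.e (nat_lit 573484) (nat_lit 13) (.e (nat_lit 65610) (nat_lit 10) (.e (nat_lit 344117) (nat_lit 21) (.e (nat_lit 516151) (nat_lit 9) (.e (nat_lit 426042) (nat_lit 0) (.e (nat_lit 3406) (nat_lit 212) (.e (nat_lit 655373) (nat_lit 3) .nil)))))))) (.g (nat_lit 1) (.e (nat_lit 170542) (nat_lit 0) .nil) .nil))) 
(.lf (nat_lit 501715) (.g (nat_lit 3003) (.e (nat_lit 163978) (nat_lit 30) (.e (nat_lit 573487) (nat_lit 14) (.e (nat_lit 73753) (nat_lit 8) (.e (nat_lit 557098) (nat_lit 13) (.e (nat_lit 172067) (nat_lit 3) (.e (nat_lit 204821) (nat_lit 17) (.e (nat_lit 7936) (nat_lit 149) (.e (nat_lit 761898) (nat_lit 15) .nil)))))))) (.g (nat_lit 1) (.e (nat_lit 171298) (nat_lit 0) .nil) .nil))))))) 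
(.nd (nat_lit 6) (.nd (nat_lit 7) (.nd (nat_lit 8) (.nd (nat_lit 9) 
(.lf (nat_lit 500787) (.g (nat_lit 2321) (.e (nat_lit 163977) (nat_lit 30) (.e (nat_lit 573491) (nat_lit 15) (.e (nat_lit 81956) (nat_lit 23) (.e (nat_lit 98359) (nat_lit 26) (.e (nat_lit 426025) (nat_lit 0) .nil))))) (.g (nat_lit 0) (.e (nat_lit 169512) (nat_lit 0) .nil) .nil))) 
(.lf (nat_lit 501299) (.g (nat_lit 3280) (.e (nat_lit 163978) (nat_lit 30) (.e (nat_lit 573485) (nat_lit 13) (.e (nat_lit 65604) (nat_lit 9) (.e (nat_lit 336013) (nat_lit 2) (.e (nat_lit 90170) (nat_lit 13) (.e (nat_lit 172046) (nat_lit 0) (.e (nat_lit 2458) (nat_lit 157) (.e (nat_lit 5546) (nat_lit 306) (.e (nat_lit 2601) (nat_lit 163) .nil))))))))) (.g (nat_lit 1) (.e (nat_lit 170741) (nat_lit 0) .nil) .nil)))) 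
(.nd (nat_lit 9) 
(.lf (nat_lit 501043) (.g (nat_lit 3970) (.e (nat_lit 163978) (nat_lit 30) (.e (nat_lit 573479) (nat_lit 13) (.e (nat_lit 65619) (nat_lit 10) (.e (nat_lit 344117) (nat_lit 21) (.e (nat_lit 516151) (nat_lit 9) (.e (nat_lit 426003) (nat_lit 0) (.e (nat_lit 3399) (nat_lit 211) (.e (nat_lit 647181) (nat_lit 3) .nil)))))))) (.g (nat_lit 1) (.e (nat_lit 170308) (nat_lit 0) .nil) .nil))) 
(.lf (nat_lit 501555) (.g (nat_lit 3027) (.e (nat_lit 163978) (nat_lit 30) (.e (nat_lit 573485) (nat_lit 13) (.e (nat_lit 65619) (nat_lit 10) (.e (nat_lit 344117) (nat_lit 21) (.e (nat_lit 516151) (nat_lit 9) (.e (nat_lit 426042) (nat_lit 0) (.e (nat_lit 3409) (nat_lit 212) (.e (nat_lit 655374) (nat_lit 3) .nil)))))))) (.g (nat_lit 1) (.e (nat_lit 171067) (nat_lit 0) .nil) .nil))))) 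
(.nd (nat_lit 8) (.nd (nat_lit 9) 
(.lf (nat_lit 500915) (.g (nat_lit 3499) (.e (nat_lit 163977) (nat_lit 30) (.e (nat_lit 573493) (nat_lit 15) (.e (nat_lit 81954) (nat_lit 23) (.e (nat_lit 98356) (nat_lit 26) (.e (nat_lit 426444) (nat_lit 19) .nil))))) (.g (nat_lit 0) (.e (nat_lit 169917) (nat_lit 0) .nil) .nil))) 
(.lf (nat_lit 501427) (.g (nat_lit 4060) (.e (nat_lit 163978) (nat_lit 30) (.e (nat_lit 573485) (nat_lit 13) (.e (nat_lit 65604) (nat_lit 9) (.e (nat_lit 336028) (nat_lit 3) (.e (nat_lit 98366) (nat_lit 27) (.e (nat_lit 434271) (nat_lit 38) (.e (nat_lit 655373) (nat_lit 3) .nil))))))) (.g (nat_lit 1) (.e (nat_lit 170920) (nat_lit 0) .nil) .nil)))) (.nd (nat_lit 9) 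
(.lf (nat_lit 501171) (.g (nat_lit 1656) (.e (nat_lit 163978) (nat_lit 30) (.e (nat_lit 573484) (nat_lit 13) (.e (nat_lit 65610) (nat_lit 10) (.e (nat_lit 344117) (nat_lit 21) (.e (nat_lit 516151) (nat_lit 9) .nil))))) (.g (nat_lit 0) (.e (nat_lit 170483) (nat_lit 0) .nil) .nil))) 
(.lf (nat_lit 501683) (.g (nat_lit 2647) (.e (nat_lit 163978) (nat_lit 30) (.e (nat_lit 573485) (nat_lit 13) (.e (nat_lit 65619) (nat_lit 10) (.e (nat_lit 344117) (nat_lit 21) (.e (nat_lit 516171) (nat_lit 13) (.e (nat_lit 458774) (nat_lit 18) (.e (nat_lit 5546) (nat_lit 306) (.e (nat_lit 2599) (nat_lit 163) .nil)))))))) (.g (nat_lit 1) (.e (nat_lit 171208) (nat_lit 0) .nil) .nil)))))) 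
(.nd (nat_lit 7) (.nd (nat_lit 8) (.nd (nat_lit 9) 
(.lf (nat_lit 500851) (.g (nat_lit 4427) (.e (nat_lit 163977) (nat_lit 30) (.e (nat_lit 573493) (nat_lit 15) (.e (nat_lit 81951) (nat_lit 22) (.e (nat_lit 90170) (nat_lit 13) (.e (nat_lit 172039) (nat_lit 0) (.e (nat_lit 3402) (nat_lit 211) (.e (nat_lit 647181) (nat_lit 3) .nil))))))) (.g (nat_lit 1) (.e (nat_lit 169702) (nat_lit 0) .nil) .nil))) 
(.lf (nat_lit 501363) (.g (nat_lit 5509) (.e (nat_lit 163978) (nat_lit 30) (.e (nat_lit 573485) (nat_lit 13) (.e (nat_lit 65604) (nat_lit 9) (.e (nat_lit 336013) (nat_lit 2) (.e (nat_lit 90170) (nat_lit 13) (.e (nat_lit 172138) (nat_lit 15) (.e (nat_lit 2059) (nat_lit 142) (.e (nat_lit 704589) (nat_lit 3) .nil)))))))) (.g (nat_lit 1) (.e (nat_lit 170808) (nat_lit 0) .nil) .nil)))) 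
(.nd (nat_lit 9) 
(.lf (nat_lit 501107) (.g (nat_lit 4464) (.e (nat_lit 163978) (nat_lit 30) (.e (nat_lit 573479) (nat_lit 13) (.e (nat_lit 65619) (nat_lit 10) (.e (nat_lit 344129) (nat_lit 26) (.e (nat_lit 557066) (nat_lit 9) (.e (nat_lit 307) (nat_lit 22) (.e (nat_lit 344090) (nat_lit 18) (.e (nat_lit 4708) (nat_lit 275) (.e (nat_lit 2611) (nat_lit 163) .nil))))))))) (.g (nat_lit 1) (.e (nat_lit 170372) (nat_lit 0) .nil) .nil))) 
(.lf (nat_lit 501619) (.g (nat_lit 2499) (.e (nat_lit 163978) (nat_lit 30) (.e (nat_lit 573485) (nat_lit 13) (.e (nat_lit 65619) (nat_lit 10) (.e (nat_lit 344117) (nat_lit 21) (.e (nat_lit 516153) (nat_lit 9) (.e (nat_lit 426109) (nat_lit 1) (.e (nat_lit 164347) (nat_lit 240) (.e (nat_lit 2599) (nat_lit 163) .nil)))))))) (.g (nat_lit 1) (.e (nat_lit 171131) (nat_lit 0) .nil) .nil))))) 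
(.nd (nat_lit 8) (.nd (nat_lit 9) 
(.lf (nat_lit 500979) (.g (nat_lit 3250) (.e (nat_lit 163977) (nat_lit 30) (.e (nat_lit 573493) (nat_lit 15) (.e (nat_lit 81956) (nat_lit 23) (.e (nat_lit 98361) (nat_lit 26) .nil)))) (.g (nat_lit 0) (.e (nat_lit 170100) (nat_lit 0) .nil) .nil))) 
(.lf (nat_lit 501491) (.g (nat_lit 2758) (.e (nat_lit 163978) (nat_lit 30) (.e (nat_lit 573485) (nat_lit 13) (.e (nat_lit 65619) (nat_lit 10) (.e (nat_lit 344117) (nat_lit 21) (.e (nat_lit 516144) (nat_lit 9) (.e (nat_lit 426405) (nat_lit 15) (.e (nat_lit 2056) (nat_lit 142) (.e (nat_lit 704589) (nat_lit 3) .nil)))))))) (.g (nat_lit 1) (.e (nat_lit 171003) (nat_lit 0) .nil) .nil)))) 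
(.nd (nat_lit 9) 
(.lf (nat_lit 501235) (.g (nat_lit 2546) (.e (nat_lit 163978) (nat_lit 30) (.e (nat_lit 573484) (nat_lit 13) (.e (nat_lit 65610) (nat_lit 10) (.e (nat_lit 344117) (nat_lit 21) (.e (nat_lit 516153) (nat_lit 9) .nil))))) (.g (nat_lit 0) (.e (nat_lit 170606) (nat_lit 0) .nil) .nil))) 
(.lf (nat_lit 501747) (.g (nat_lit 4046) (.e (nat_lit 163978) (nat_lit 30) (.e (nat_lit 573489) (nat_lit 14) (.e (nat_lit 73754) (nat_lit 8) (.e (nat_lit 557100) (nat_lit 13) (.e (nat_lit 172065) (nat_lit 3) (.e (nat_lit 204817) (nat_lit 17) (.e (nat_lit 7936) (nat_lit 149) (.e (nat_lit 761899) (nat_lit 15) .nil)))))))) (.g (nat_lit 1) (.e (nat_lit 171404) (nat_lit 0) .nil) .nil))))))))) 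
(.nd (nat_lit 4) (.nd (nat_lit 5) (.nd (nat_lit 6) (.nd (nat_lit 7) (.nd (nat_lit 8) 
(.nd (nat_lit 9) 
(.lf (nat_lit 500747) (.g (nat_lit 2401) (.e (nat_lit 163977) (nat_lit 30) (.e (nat_lit 573491) (nat_lit 15) (.e (nat_lit 81954) (nat_lit 23) (.e (nat_lit 98356) (nat_lit 26) (.e (nat_lit 426440) (nat_lit 19) (.e (nat_lit 114432) (nat_lit 3) .nil)))))) (.g (nat_lit 1) (.e (nat_lit 169403) (nat_lit 0) .nil) .nil))) 
(.lf (nat_lit 501259) (.g (nat_lit 2502) (.e (nat_lit 163978) (nat_lit 30) (.e (nat_lit 573484) (nat_lit 13) (.e (nat_lit 65610) (nat_lit 10) (.e (nat_lit 344117) (nat_lit 21) (.e (nat_lit 516180) (nat_lit 15) (.e (nat_lit 475200) (nat_lit 40) (.e (nat_lit 712448) (nat_lit 3) .nil))))))) (.g (nat_lit 1) (.e (nat_lit 170684) (nat_lit 0) .nil) .nil)))) (.nd (nat_lit 9) 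
(.lf (nat_lit 501003) (.g (nat_lit 2825) (.e (nat_lit 163977) (nat_lit 30) (.e (nat_lit 573493) (nat_lit 15) (.e (nat_lit 81956) (nat_lit 23) (.e (nat_lit 98367) (nat_lit 27) (.e (nat_lit 434203) (nat_lit 18) .nil))))) (.g (nat_lit 0) (.e (nat_lit 170153) (nat_lit 0) .nil) .nil))) 
(.lf (nat_lit 501515) (.g (nat_lit 3819) (.e (nat_lit 163978) (nat_lit 30) (.e (nat_lit 573485) (nat_lit 13) (.e (nat_lit 65619) (nat_lit 10) (.e (nat_lit 344117) (nat_lit 21) (.e (nat_lit 516145) (nat_lit 9) (.e (nat_lit 426415) (nat_lit 15) (.e (nat_lit 7936) (nat_lit 142) (.e (nat_lit 704589) (nat_lit 3) .nil)))))))) (.g (nat_lit 1) (.e (nat_lit 171027) (nat_lit 0) .nil) .nil))))) 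
(.nd (nat_lit 8) (.nd (nat_lit 9) 
(.lf (nat_lit 500875) (.g (nat_lit 2481) (.e (nat_lit 163977) (nat_lit 30) (.e (nat_lit 573493) (nat_lit 15) (.e (nat_lit 81953) (nat_lit 22) (.e (nat_lit 90170) (nat_lit 13) (.e (nat_lit 172036) (nat_lit 0) .nil))))) (.g (nat_lit 0) (.e (nat_lit 169828) (nat_lit 0) .nil) .nil))) 
(.lf (nat_lit 501387) (.g (nat_lit 3275) (.e (nat_lit 163978) (nat_lit 30) (.e (nat_lit 573485) (nat_lit 13) (.e (nat_lit 65604) (nat_lit 9) (.e (nat_lit 336028) (nat_lit 3) (.e (nat_lit 98359) (nat_lit 26) (.e (nat_lit 426042) (nat_lit 0) (.e (nat_lit 3409) (nat_lit 212) (.e (nat_lit 655373) (nat_lit 3) .nil)))))))) (.g (nat_lit 1) (.e (nat_lit 170844) (nat_lit 0) .nil) .nil)))) (.nd (nat_lit 9) 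
(.lf (nat_lit 501131) (.g (nat_lit 666) (.e (nat_lit 163978) (nat_lit 30) (.e (nat_lit 573484) (nat_lit 13) (.e (nat_lit 65610) (nat_lit 10) (.e (nat_lit 344117) (nat_lit 21) .nil)))) (.g (nat_lit 0) (.e (nat_lit 170413) (nat_lit 0) .nil) .nil))) 
(.lf (nat_lit 501643) (.g (nat_lit 3480) (.e (nat_lit 163978) (nat_lit 30) (.e (nat_lit 573485) (nat_lit 13) (.e (nat_lit 65619) (nat_lit 10) (.e (nat_lit 344117) (nat_lit 21) (.e (nat_lit 516159) (nat_lit 10) (.e (nat_lit 434271) (nat_lit 38) (.e (nat_lit 655374) (nat_lit 3) .nil))))))) (.g (nat_lit 1) (.e (nat_lit 171160) (nat_lit 0) .nil) .nil)))))) 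
(.nd (nat_lit 7) (.nd (nat_lit 8) (.nd (nat_lit 9) 
(.lf (nat_lit 500811) (.g (nat_lit 2895) (.e (nat_lit 163977) (nat_lit 30) (.e (nat_lit 573492) (nat_lit 15) (.e (nat_lit 81956) (nat_lit 23) (.e (nat_lit 98358) (nat_lit 26) .nil)))) (.g (nat_lit 0) (.e (nat_lit 169594) (nat_lit 0) .nil) .nil))) 
(.lf (nat_lit 501323) (.g (nat_lit 3774) (.e (nat_lit 163978) (nat_lit 30) (.e (nat_lit 573485) (nat_lit 13) (.e (nat_lit 65604) (nat_lit 9) (.e (nat_lit 336013) (nat_lit 2) (.e (nat_lit 90170) (nat_lit 13) (.e (nat_lit 172059) (nat_lit 1) (.e (nat_lit 164348) (nat_lit 240) (.e (nat_lit 2601) (nat_lit 163) .nil)))))))) (.g (nat_lit 1) (.e (nat_lit 170766) (nat_lit 0) .nil) .nil)))) 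
(.nd (nat_lit 9) 
(.lf (nat_lit 501067) (.g (nat_lit 3938) (.e (nat_lit 163978) (nat_lit 30) (.e (nat_lit 573479) (nat_lit 13) (.e (nat_lit 65619) (nat_lit 10) (.e (nat_lit 344117) (nat_lit 21) (.e (nat_lit 516151) (nat_lit 9) (.e (nat_lit 426047) (nat_lit 0) (.e (nat_lit 2458) (nat_lit 157) (.e (nat_lit 5547) (nat_lit 306) (.e (nat_lit 2610) (nat_lit 163) .nil))))))))) (.g (nat_lit 1) (.e (nat_lit 170332) (nat_lit 0) .nil) .nil))) 
(.lf (nat_lit 501579) (.g (nat_lit 4782) (.e (nat_lit 163978) (nat_lit 30) (.e (nat_lit 573485) (nat_lit 13) (.e (nat_lit 65619) (nat_lit 10) (.e (nat_lit 344117) (nat_lit 21) (.e (nat_lit 516151) (nat_lit 9) (.e (nat_lit 426104) (nat_lit 1) (.e (nat_lit 164348) (nat_lit 240) (.e (nat_lit 2611) (nat_lit 163) .nil)))))))) (.g (nat_lit 1) (.e (nat_lit 171091) (nat_lit 0) .nil) .nil))))) 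
(.nd (nat_lit 8) (.nd (nat_lit 9) 
(.lf (nat_lit 500939) (.g (nat_lit 227) (.e (nat_lit 163977) (nat_lit 30) (.e (nat_lit 573493) (nat_lit 15) (.e (nat_lit 81956) (nat_lit 23) .nil))) (.g (nat_lit 0) (.e (nat_lit 169974) (nat_lit 0) .nil) .nil))) 
(.lf (nat_lit 501451) (.g (nat_lit 3678) (.e (nat_lit 163978) (nat_lit 30) (.e (nat_lit 573485) (nat_lit 13) (.e (nat_lit 65604) (nat_lit 9) (.e (nat_lit 336028) (nat_lit 3) (.e (nat_lit 98384) (nat_lit 32) (.e (nat_lit 475201) (nat_lit 40) (.e (nat_lit 712448) (nat_lit 3) .nil))))))) (.g (nat_lit 1) (.e (nat_lit 170955) (nat_lit 0) .nil) .nil)))) (.nd (nat_lit 9) 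
(.lf (nat_lit 501195) (.g (nat_lit 3106) (.e (nat_lit 163978) (nat_lit 30) (.e (nat_lit 573484) (nat_lit 13) (.e (nat_lit 65610) (nat_lit 10) (.e (nat_lit 344117) (nat_lit 21) (.e (nat_lit 516151) (nat_lit 9) (.e (nat_lit 426038) (nat_lit 0) (.e (nat_lit 3406) (nat_lit 212) (.e (nat_lit 655373) (nat_lit 3) .nil)))))))) (.g (nat_lit 1) (.e (nat_lit 170519) (nat_lit 0) .nil) .nil))) 
(.lf (nat_lit 501707) (.g (nat_lit 3702) (.e (nat_lit 163978) (nat_lit 30) (.e (nat_lit 573485) (nat_lit 13) (.e (nat_lit 65619) (nat_lit 10) (.e (nat_lit 344117) (nat_lit 21) (.e (nat_lit 516182) (nat_lit 15) (.e (nat_lit 475198) (nat_lit 40) (.e (nat_lit 704589) (nat_lit 3) .nil))))))) (.g (nat_lit 1) (.e (nat_lit 171233) (nat_lit 0) .nil) .nil))))))) 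
(.nd (nat_lit 6) (.nd (nat_lit 7) (.nd (nat_lit 8) (.nd (nat_lit 9) 
(.lf (nat_lit 500779) (.g (nat_lit 3716) (.e (nat_lit 163977) (nat_lit 30) (.e (nat_lit 573491) (nat_lit 15) (.e (nat_lit 81954) (nat_lit 23) (.e (nat_lit 98367) (nat_lit 27) (.e (nat_lit 434272) (nat_lit 38) (.e (nat_lit 655374) (nat_lit 3) .nil)))))) (.g (nat_lit 1) (.e (nat_lit 169495) (nat_lit 0) .nil) .nil))) 
(.lf (nat_lit 501291) (.g (nat_lit 2422) (.e (nat_lit 163978) (nat_lit 30) (.e (nat_lit 573485) (nat_lit 13) (.e (nat_lit 65604) (nat_lit 9) (.e (nat_lit 336013) (nat_lit 2) (.e (nat_lit 90170) (nat_lit 13) (.e (nat_lit 172042) (nat_lit 0) (.e (nat_lit 2478) (nat_lit 157) (.e (nat_lit 5548) (nat_lit 306) (.e (nat_lit 2599) (nat_lit 163) .nil))))))))) (.g (nat_lit 1) (.e (nat_lit 170733) (nat_lit 0) .nil) .nil)))) 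
(.nd (nat_lit 9) 
(.lf (nat_lit 501035) (.g (nat_lit 3734) (.e (nat_lit 163978) (nat_lit 30) (.e (nat_lit 573479) (nat_lit 13) (.e (nat_lit 65610) (nat_lit 10) (.e (nat_lit 344117) (nat_lit 21) (.e (nat_lit 516159) (nat_lit 10) (.e (nat_lit 434272) (nat_lit 38) (.e (nat_lit 655375) (nat_lit 3) .nil))))))) (.g (nat_lit 1) (.e (nat_lit 170300) (nat_lit 0) .nil) .nil))) 
(.lf (nat_lit 501547) (.g (nat_lit 4666) (.e (nat_lit 163978) (nat_lit 30) (.e (nat_lit 573485) (nat_lit 13) (.e (nat_lit 65619) (nat_lit 10) (.e (nat_lit 344117) (nat_lit 21) (.e (nat_lit 516151) (nat_lit 9) (.e (nat_lit 426042) (nat_lit 0) (.e (nat_lit 2458) (nat_lit 157) (.e (nat_lit 5547) (nat_lit 306) (.e (nat_lit 2611) (nat_lit 163) .nil))))))))) (.g (nat_lit 1) (.e (nat_lit 171059) (nat_lit 0) .nil) .nil))))) 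
(.nd (nat_lit 8) (.nd (nat_lit 9) 
(.lf (nat_lit 500907) (.g (nat_lit 4256) (.e (nat_lit 163977) (nat_lit 30) (.e (nat_lit 573493) (nat_lit 15) (.e (nat_lit 81953) (nat_lit 22) (.e (nat_lit 90184) (nat_lit 17) .nil)))) (.g (nat_lit 0) (.e (nat_lit 169894) (nat_lit 0) .nil) .nil))) 
(.lf (nat_lit 501419) (.g (nat_lit 2343) (.e (nat_lit 163978) (nat_lit 30) (.e (nat_lit 573485) (nat_lit 13) (.e (nat_lit 65604) (nat_lit 9) (.e (nat_lit 336028) (nat_lit 3) (.e (nat_lit 98366) (nat_lit 27) (.e (nat_lit 434202) (nat_lit 18) (.e (nat_lit 5537) (nat_lit 306) (.e (nat_lit 2599) (nat_lit 163) .nil)))))))) (.g (nat_lit 1) (.e (nat_lit 170908) (nat_lit 0) .nil) .nil)))) 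
(.nd (nat_lit 9) 
(.lf (nat_lit 501163) (.g (nat_lit 3850) (.e (nat_lit 163978) (nat_lit 30) (.e (nat_lit 573484) (nat_lit 13) (.e (nat_lit 65610) (nat_lit 10) (.e (nat_lit 344117) (nat_lit 21) (.e (nat_lit 516145) (nat_lit 9) (.e (nat_lit 426469) (nat_lit 24) (.e (nat_lit 163584) (nat_lit 3) .nil))))))) (.g (nat_lit 1) (.e (nat_lit 170475) (nat_lit 0) .nil) .nil))) 
(.lf (nat_lit 501675) (.g (nat_lit 3696) (.e (nat_lit 163978) (nat_lit 30) (.e (nat_lit 573485) (nat_lit 13) (.e (nat_lit 65619) (nat_lit 10) (.e (nat_lit 344117) (nat_lit 21) (.e (nat_lit 516169) (nat_lit 13) (.e (nat_lit 458774) (nat_lit 18) (.e (nat_lit 5548) (nat_lit 306) (.e (nat_lit 2599) (nat_lit 163) .nil)))))))) (.g (nat_lit 1) (.e (nat_lit 171198) (nat_lit 0) .nil) .nil)))))) 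
(.nd (nat_lit 7) (.nd (nat_lit 8) (.nd (nat_lit 9) 
(.lf (nat_lit 500843) (.g (nat_lit 4730) (.e (nat_lit 163977) (nat_lit 30) (.e (nat_lit 573493) (nat_lit 15) (.e (nat_lit 81951) (nat_lit 22) (.e (nat_lit 90170) (nat_lit 13) (.e (nat_lit 172035) (nat_lit 0) (.e (nat_lit 3397) (nat_lit 211) (.e (nat_lit 647181) (nat_lit 3) .nil))))))) (.g (nat_lit 1) (.e (nat_lit 169694) (nat_lit 0) .nil) .nil))) 
(.lf (nat_lit 501355) (.g (nat_lit 2120) (.e (nat_lit 163978) (nat_lit 30) (.e (nat_lit 573485) (nat_lit 13) (.e (nat_lit 65604) (nat_lit 9) (.e (nat_lit 336013) (nat_lit 2) (.e (nat_lit 90170) (nat_lit 13) (.e (nat_lit 172070) (nat_lit 4) (.e (nat_lit 229665) (nat_lit 240) (.e (nat_lit 2598) (nat_lit 163) .nil)))))))) (.g (nat_lit 1) (.e (nat_lit 170800) (nat_lit 0) .nil) .nil)))) 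
(.nd (nat_lit 9) 
(.lf (nat_lit 501099) (.g (nat_lit 3034) (.e (nat_lit 163978) (nat_lit 30) (.e (nat_lit 573479) (nat_lit 13) (.e (nat_lit 65619) (nat_lit 10) (.e (nat_lit 344117) (nat_lit 21) (.e (nat_lit 516168) (nat_lit 13) (.e (nat_lit 458774) (nat_lit 18) (.e (nat_lit 5548) (nat_lit 306) (.e (nat_lit 2610) (nat_lit 163) .nil)))))))) (.g (nat_lit 1) (.e (nat_lit 170364) (nat_lit 0) .nil) .nil))) 
(.lf (nat_lit 501611) (.g (nat_lit 2399) (.e (nat_lit 163978) (nat_lit 30) (.e (nat_lit 573485) (nat_lit 13) (.e (nat_lit 65619) (nat_lit 10) (.e (nat_lit 344117) (nat_lit 21) (.e (nat_lit 516152) (nat_lit 9) (.e (nat_lit 426465) (nat_lit 24) (.e (nat_lit 163584) (nat_lit 3) .nil))))))) (.g (nat_lit 1) (.e (nat_lit 171123) (nat_lit 0) .nil) .nil))))) (.nd (nat_lit 8) (.nd (nat_lit 9) 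
(.lf (nat_lit 500971) (.g (nat_lit 2826) (.e (nat_lit 163977) (nat_lit 30) (.e (nat_lit 573493) (nat_lit 15) (.e (nat_lit 81956) (nat_lit 23) (.e (nat_lit 98359) (nat_lit 26) (.e (nat_lit 426047) (nat_lit 0) .nil))))) (.g (nat_lit 0) (.e (nat_lit 170072) (nat_lit 0) .nil) .nil))) 
(.lf (nat_lit 501483) (.g (nat_lit 3685) (.e (nat_lit 163978) (nat_lit 30) (.e (nat_lit 573485) (nat_lit 13) (.e (nat_lit 65619) (nat_lit 10) (.e (nat_lit 344117) (nat_lit 21) (.e (nat_lit 516144) (nat_lit 9) (.e (nat_lit 426374) (nat_lit 15) (.e (nat_lit 2058) (nat_lit 142) (.e (nat_lit 704589) (nat_lit 3) .nil)))))))) (.g (nat_lit 1) (.e (nat_lit 170995) (nat_lit 0) .nil) .nil)))) 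
(.nd (nat_lit 9) 
(.lf (nat_lit 501227) (.g (nat_lit 3553) (.e (nat_lit 163978) (nat_lit 30) (.e (nat_lit 573484) (nat_lit 13) (.e (nat_lit 65610) (nat_lit 10) (.e (nat_lit 344117) (nat_lit 21) (.e (nat_lit 516151) (nat_lit 9) (.e (nat_lit 426104) (nat_lit 1) (.e (nat_lit 164345) (nat_lit 240) (.e (nat_lit 2601) (nat_lit 163) .nil)))))))) (.g (nat_lit 1) (.e (nat_lit 170581) (nat_lit 0) .nil) .nil))) 
(.lf (nat_lit 501739) (.g (nat_lit 1177) (.e (nat_lit 163978) (nat_lit 30) (.e (nat_lit 573489) (nat_lit 14) (.e (nat_lit 73754) (nat_lit 8) (.e (nat_lit 557095) (nat_lit 13) .nil)))) (.g (nat_lit 0) (.e (nat_lit 171385) (nat_lit 0) .nil) .nil)))))))) (.nd (nat_lit 5) (.nd (nat_lit 6) (.nd (nat_lit 7) (.nd (nat_lit 8) (.nd (nat_lit 9) 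
(.lf (nat_lit 500763) (.g (nat_lit 2081) (.e (nat_lit 163977) (nat_lit 30) (.e (nat_lit 573491) (nat_lit 15) (.e (nat_lit 81954) (nat_lit 23) (.e (nat_lit 98359) (nat_lit 26) (.e (nat_lit 433920) (nat_lit 19) (.e (nat_lit 114432) (nat_lit 3) .nil)))))) (.g (nat_lit 1) (.e (nat_lit 169440) (nat_lit 0) .nil) .nil))) 
(.lf (nat_lit 501275) (.g (nat_lit 3091) (.e (nat_lit 163978) (nat_lit 30) (.e (nat_lit 573485) (nat_lit 13) (.e (nat_lit 65604) (nat_lit 9) (.e (nat_lit 336013) (nat_lit 2) (.e (nat_lit 90170) (nat_lit 13) (.e (nat_lit 172033) (nat_lit 0) (.e (nat_lit 3397) (nat_lit 211) (.e (nat_lit 647180) (nat_lit 3) .nil)))))))) (.g (nat_lit 1) (.e (nat_lit 170716) (nat_lit 0) .nil) .nil)))) (.nd (nat_lit 9) 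
(.lf (nat_lit 501019) (.g (nat_lit 2909) (.e (nat_lit 163977) (nat_lit 30) (.e (nat_lit 573493) (nat_lit 15) (.e (nat_lit 81956) (nat_lit 23) (.e (nat_lit 98368) (nat_lit 27) (.e (nat_lit 434213) (nat_lit 18) .nil))))) (.g (nat_lit 0) (.e (nat_lit 170220) (nat_lit 0) .nil) .nil))) 
(.lf (nat_lit 501531) (.g (nat_lit 3251) (.e (nat_lit 163978) (nat_lit 30) (.e (nat_lit 573485) (nat_lit 13) (.e (nat_lit 65619) (nat_lit 10) (.e (nat_lit 344117) (nat_lit 21) (.e (nat_lit 516150) (nat_lit 9) (.e (nat_lit 426444) (nat_lit 19) (.e (nat_lit 114432) (nat_lit 3) .nil))))))) (.g (nat_lit 1) (.e (nat_lit 171043) (nat_lit 0) .nil) .nil))))) (.nd (nat_lit 8) (.nd (nat_lit 9) 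
(.lf (nat_lit 500891) (.g (nat_lit 3514) (.e (nat_lit 163977) (nat_lit 30) (.e (nat_lit 573493) (nat_lit 15) (.e (nat_lit 81953) (nat_lit 22) (.e (nat_lit 90170) (nat_lit 13) (.e (nat_lit 172052) (nat_lit 0) (.e (nat_lit 3409) (nat_lit 212) (.e (nat_lit 655375) (nat_lit 3) .nil))))))) (.g (nat_lit 1) (.e (nat_lit 169849) (nat_lit 0) .nil) .nil))) 
(.lf (nat_lit 501403) (.g (nat_lit 2909) (.e (nat_lit 163978) (nat_lit 30) (.e (nat_lit 573485) (nat_lit 13) (.e (nat_lit 65604) (nat_lit 9) (.e (nat_lit 336028) (nat_lit 3) (.e (nat_lit 98361) (nat_lit 26) (.e (nat_lit 426025) (nat_lit 0) (.e (nat_lit 3399) (nat_lit 211) (.e (nat_lit 647180) (nat_lit 3) .nil)))))))) (.g (nat_lit 1) (.e (nat_lit 170884) (nat_lit 0) .nil) .nil)))) (.nd (nat_lit 9) 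
(.lf (nat_lit 501147) (.g (nat_lit 3137) (.e (nat_lit 163978) (nat_lit 30) (.e (nat_lit 573484) (nat_lit 13) (.e (nat_lit 65610) (nat_lit 10) (.e (nat_lit 344117) (nat_lit 21) (.e (nat_lit 516145) (nat_lit 9) (.e (nat_lit 425996) (nat_lit 0) (.e (nat_lit 2475) (nat_lit 157) (.e (nat_lit 5548) (nat_lit 306) (.e (nat_lit 2610) (nat_lit 163) .nil))))))))) (.g (nat_lit 1) (.e (nat_lit 170441) (nat_lit 0) .nil) .nil))) 
(.lf (nat_lit 501659) (.g (nat_lit 3988) (.e (nat_lit 163978) (nat_lit 30) (.e (nat_lit 573485) (nat_lit 13) (.e (nat_lit 65619) (nat_lit 10) (.e (nat_lit 344117) (nat_lit 21) (.e (nat_lit 516160) (nat_lit 10) (.e (nat_lit 434271) (nat_lit 38) (.e (nat_lit 655374) (nat_lit 3) .nil))))))) (.g (nat_lit 1) (.e (nat_lit 171180) (nat_lit 0) .nil) .nil)))))) 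
(.nd (nat_lit 7) (.nd (nat_lit 8) (.nd (nat_lit 9) 
(.lf (nat_lit 500827) (.g (nat_lit 1865) (.e (nat_lit 163977) (nat_lit 30) (.e (nat_lit 573492) (nat_lit 15) (.e (nat_lit 81956) (nat_lit 23) (.e (nat_lit 98384) (nat_lit 32) .nil)))) (.g (nat_lit 0) (.e (nat_lit 169625) (nat_lit 0) .nil) .nil))) 
(.lf (nat_lit 501339) (.g (nat_lit 3611) (.e (nat_lit 163978) (nat_lit 30) (.e (nat_lit 573485) (nat_lit 13) (.e (nat_lit 65604) (nat_lit 9) (.e (nat_lit 336013) (nat_lit 2) (.e (nat_lit 90170) (nat_lit 13) (.e (nat_lit 172068) (nat_lit 4) (.e (nat_lit 229663) (nat_lit 240) (.e (nat_lit 2603) (nat_lit 163) .nil)))))))) (.g (nat_lit 1) (.e (nat_lit 170784) (nat_lit 0) .nil) .nil)))) 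
(.nd (nat_lit 9) 
(.lf (nat_lit 501083) (.g (nat_lit 2955) (.e (nat_lit 163978) (nat_lit 30) (.e (nat_lit 573479) (nat_lit 13) (.e (nat_lit 65619) (nat_lit 10) (.e (nat_lit 344117) (nat_lit 21) (.e (nat_lit 516159) (nat_lit 10) (.e (nat_lit 434209) (nat_lit 18) (.e (nat_lit 5546) (nat_lit 306) (.e (nat_lit 2599) (nat_lit 163) .nil)))))))) (.g (nat_lit 1) (.e (nat_lit 170348) (nat_lit 0) .nil) .nil))) 
(.lf (nat_lit 501595) (.g (nat_lit 5502) (.e (nat_lit 163978) (nat_lit 30) (.e (nat_lit 573485) (nat_lit 13) (.e (nat_lit 65619) (nat_lit 10) (.e (nat_lit 344117) (nat_lit 21) (.e (nat_lit 516151) (nat_lit 9) (.e (nat_lit 426412) (nat_lit 15) (.e (nat_lit 2058) (nat_lit 142) (.e (nat_lit 704589) (nat_lit 3) .nil)))))))) (.g (nat_lit 1) (.e (nat_lit 171107) (nat_lit 0) .nil) .nil))))) 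
(.nd (nat_lit 8) (.nd (nat_lit 9) 
(.lf (nat_lit 500955) (.g (nat_lit 3445) (.e (nat_lit 163977) (nat_lit 30) (.e (nat_lit 573493) (nat_lit 15) (.e (nat_lit 81956) (nat_lit 23) (.e (nat_lit 98357) (nat_lit 26) (.e (nat_lit 426444) (nat_lit 19) (.e (nat_lit 114432) (nat_lit 3) .nil)))))) (.g (nat_lit 1) (.e (nat_lit 170041) (nat_lit 0) .nil) .nil))) 
(.lf (nat_lit 501467) (.g (nat_lit 3445) (.e (nat_lit 163978) (nat_lit 30) (.e (nat_lit 573485) (nat_lit 13) (.e (nat_lit 65619) (nat_lit 10) (.e (nat_lit 344117) (nat_lit 21) (.e (nat_lit 516143) (nat_lit 9) (.e (nat_lit 426025) (nat_lit 0) (.e (nat_lit 3399) (nat_lit 211) (.e (nat_lit 647180) (nat_lit 3) .nil)))))))) (.g (nat_lit 1) (.e (nat_lit 170979) (nat_lit 0) .nil) .nil)))) 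
(.nd (nat_lit 9) 
(.lf (nat_lit 501211) (.g (nat_lit 3009) (.e (nat_lit 163978) (nat_lit 30) (.e (nat_lit 573484) (nat_lit 13) (.e (nat_lit 65610) (nat_lit 10) (.e (nat_lit 344117) (nat_lit 21) (.e (nat_lit 516151) (nat_lit 9) (.e (nat_lit 426043) (nat_lit 0) (.e (nat_lit 2458) (nat_lit 157) (.e (nat_lit 5547) (nat_lit 306) (.e (nat_lit 2610) (nat_lit 163) .nil))))))))) (.g (nat_lit 1) (.e (nat_lit 170553) (nat_lit 0) .nil) .nil))) 
(.lf (nat_lit 501723) (.g (nat_lit 4167) (.e (nat_lit 163978) (nat_lit 30) (.e (nat_lit 573487) (nat_lit 14) (.e (nat_lit 73753) (nat_lit 8) (.e (nat_lit 557103) (nat_lit 14) (.e (nat_lit 180243) (nat_lit 5) (.e (nat_lit 532501) (nat_lit 1) (.e (nat_lit 57663) (nat_lit 152) (.e (nat_lit 2612) (nat_lit 163) .nil)))))))) (.g (nat_lit 1) (.e (nat_lit 171342) (nat_lit 0) .nil) .nil))))))) 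
(.nd (nat_lit 6) (.nd (nat_lit 7) (.nd (nat_lit 8) (.nd (nat_lit 9) 
(.lf (nat_lit 500795) (.g (nat_lit 5737) (.e (nat_lit 163977) (nat_lit 30) (.e (nat_lit 573492) (nat_lit 15) (.e (nat_lit 81953) (nat_lit 22) (.e (nat_lit 90183) (nat_lit 17) .nil)))) (.g (nat_lit 0) (.e (nat_lit 169540) (nat_lit 0) .nil) .nil))) 
(.lf (nat_lit 501307) (.g (nat_lit 3458) (.e (nat_lit 163978) (nat_lit 30) (.e (nat_lit 573485) (nat_lit 13) (.e (nat_lit 65604) (nat_lit 9) (.e (nat_lit 336013) (nat_lit 2) (.e (nat_lit 90170) (nat_lit 13) (.e (nat_lit 172049) (nat_lit 0) (.e (nat_lit 2458) (nat_lit 157) (.e (nat_lit 5547) (nat_lit 306) (.e (nat_lit 2599) (nat_lit 163) .nil))))))))) (.g (nat_lit 1) (.e (nat_lit 170749) (nat_lit 0) .nil) .nil)))) 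
(.nd (nat_lit 9) 
(.lf (nat_lit 501051) (.g (nat_lit 4435) (.e (nat_lit 163978) (nat_lit 30) (.e (nat_lit 573479) (nat_lit 13) (.e (nat_lit 65619) (nat_lit 10) (.e (nat_lit 344117) (nat_lit 21) (.e (nat_lit 516151) (nat_lit 9) (.e (nat_lit 426038) (nat_lit 0) (.e (nat_lit 2458) (nat_lit 157) (.e (nat_lit 5547) (nat_lit 306) (.e (nat_lit 2610) (nat_lit 163) .nil))))))))) (.g (nat_lit 1) (.e (nat_lit 170316) (nat_lit 0) .nil) .nil))) 
(.lf (nat_lit 501563) (.g (nat_lit 4253) (.e (nat_lit 163978) (nat_lit 30) (.e (nat_lit 573485) (nat_lit 13) (.e (nat_lit 65619) (nat_lit 10) (.e (nat_lit 344117) (nat_lit 21) (.e (nat_lit 516151) (nat_lit 9) (.e (nat_lit 426043) (nat_lit 0) (.e (nat_lit 3408) (nat_lit 212) (.e (nat_lit 655373) (nat_lit 3) .nil)))))))) (.g (nat_lit 1) (.e (nat_lit 171075) (nat_lit 0) .nil) .nil))))) 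
(.nd (nat_lit 8) (.nd (nat_lit 9) 
(.lf (nat_lit 500923) (.g (nat_lit 2993) (.e (nat_lit 163977) (nat_lit 30) (.e (nat_lit 573493) (nat_lit 15) (.e (nat_lit 81954) (nat_lit 23) (.e (nat_lit 98359) (nat_lit 26) (.e (nat_lit 426142) (nat_lit 4) .nil))))) (.g (nat_lit 0) (.e (nat_lit 169936) (nat_lit 0) .nil) .nil))) 
(.lf (nat_lit 501435) (.g (nat_lit 4657) (.e (nat_lit 163978) (nat_lit 30) (.e (nat_lit 573485) (nat_lit 13) (.e (nat_lit 65604) (nat_lit 9) (.e (nat_lit 336028) (nat_lit 3) (.e (nat_lit 98367) (nat_lit 27) (.e (nat_lit 434209) (nat_lit 18) (.e (nat_lit 5547) (nat_lit 306) (.e (nat_lit 2599) (nat_lit 163) .nil)))))))) (.g (nat_lit 1) (.e (nat_lit 170934) (nat_lit 0) .nil) .nil)))) 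
(.nd (nat_lit 9) 
(.lf (nat_lit 501179) (.g (nat_lit 3020) (.e (nat_lit 163978) (nat_lit 30) (.e (nat_lit 573484) (nat_lit 13) (.e (nat_lit 65610) (nat_lit 10) (.e (nat_lit 344117) (nat_lit 21) (.e (nat_lit 516151) (nat_lit 9) (.e (nat_lit 426021) (nat_lit 0) (.e (nat_lit 3411) (nat_lit 212) (.e (nat_lit 655373) (nat_lit 3) .nil)))))))) (.g (nat_lit 1) (.e (nat_lit 170491) (nat_lit 0) .nil) .nil))) 
(.lf (nat_lit 501691) (.g (nat_lit 2806) (.e (nat_lit 163978) (nat_lit 30) (.e (nat_lit 573485) (nat_lit 13) (.e (nat_lit 65619) (nat_lit 10) (.e (nat_lit 344117) (nat_lit 21) (.e (nat_lit 516178) (nat_lit 15) (.e (nat_lit 475196) (nat_lit 40) (.e (nat_lit 704589) (nat_lit 3) .nil))))))) (.g (nat_lit 1) (.e (nat_lit 171217) (nat_lit 0) .nil) .nil)))))) 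
(.nd (nat_lit 7) (.nd (nat_lit 8) (.nd (nat_lit 9) 
(.lf (nat_lit 500859) (.g (nat_lit 5404) (.e (nat_lit 163977) (nat_lit 30) (.e (nat_lit 573493) (nat_lit 15) (.e (nat_lit 81951) (nat_lit 22) (.e (nat_lit 90170) (nat_lit 13) (.e (nat_lit 172068) (nat_lit 4) (.e (nat_lit 229663) (nat_lit 240) (.e (nat_lit 2612) (nat_lit 163) .nil))))))) (.g (nat_lit 1) (.e (nat_lit 169734) (nat_lit 0) .nil) .nil))) 
(.lf (nat_lit 501371) (.g (nat_lit 2756) (.e (nat_lit 163978) (nat_lit 30) (.e (nat_lit 573485) (nat_lit 13) (.e (nat_lit 65604) (nat_lit 9) (.e (nat_lit 336028) (nat_lit 3) (.e (nat_lit 98354) (nat_lit 26) (.e (nat_lit 426025) (nat_lit 0) (.e (nat_lit 3399) (nat_lit 211) (.e (nat_lit 647180) (nat_lit 3) .nil)))))))) (.g (nat_lit 1) (.e (nat_lit 170817) (nat_lit 0) .nil) .nil)))) (.nd (nat_lit 9) 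
(.lf (nat_lit 501115) (.g (nat_lit 2479) (.e (nat_lit 163978) (nat_lit 30) (.e (nat_lit 573482) (nat_lit 13) (.e (nat_lit 65598) (nat_lit 9) (.e (nat_lit 336028) (nat_lit 3) (.e (nat_lit 98366) (nat_lit 27) .nil))))) (.g (nat_lit 0) (.e (nat_lit 170380) (nat_lit 0) .nil) .nil))) 
(.lf (nat_lit 501627) (.g (nat_lit 2177) (.e (nat_lit 163978) (nat_lit 30) (.e (nat_lit 573485) (nat_lit 13) (.e (nat_lit 65619) (nat_lit 10) (.e (nat_lit 344117) (nat_lit 21) (.e (nat_lit 524032) (nat_lit 9) (.e (nat_lit 426107) (nat_lit 1) (.e (nat_lit 164347) (nat_lit 240) (.e (nat_lit 2599) (nat_lit 163) .nil)))))))) (.g (nat_lit 1) (.e (nat_lit 171139) (nat_lit 0) .nil) .nil))))) 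
(.nd (nat_lit 8) (.nd (nat_lit 9) 
(.lf (nat_lit 500987) (.g (nat_lit 3667) (.e (nat_lit 163977) (nat_lit 30) (.e (nat_lit 573493) (nat_lit 15) (.e (nat_lit 81956) (nat_lit 23) (.e (nat_lit 98365) (nat_lit 26) .nil)))) (.g (nat_lit 0) (.e (nat_lit 170113) (nat_lit 0) .nil) .nil))) 
(.lf (nat_lit 501499) (.g (nat_lit 3009) (.e (nat_lit 163978) (nat_lit 30) (.e (nat_lit 573485) (nat_lit 13) (.e (nat_lit 65619) (nat_lit 10) (.e (nat_lit 344117) (nat_lit 21) (.e (nat_lit 516144) (nat_lit 9) (.e (nat_lit 426469) (nat_lit 24) (.e (nat_lit 163584) (nat_lit 3) .nil))))))) (.g (nat_lit 1) (.e (nat_lit 171011) (nat_lit 0) .nil) .nil)))) (.nd (nat_lit 9) 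
(.lf (nat_lit 501243) (.g (nat_lit 2785) (.e (nat_lit 163978) (nat_lit 30) (.e (nat_lit 573484) (nat_lit 13) (.e (nat_lit 65610) (nat_lit 10) (.e (nat_lit 344117) (nat_lit 21) (.e (nat_lit 516160) (nat_lit 10) (.e (nat_lit 434211) (nat_lit 18) (.e (nat_lit 5548) (nat_lit 306) (.e (nat_lit 2610) (nat_lit 163) .nil)))))))) (.g (nat_lit 1) (.e (nat_lit 170646) (nat_lit 0) .nil) .nil))) 
(.lf (nat_lit 501755) (.g (nat_lit 2866) (.e (nat_lit 163978) (nat_lit 30) (.e (nat_lit 573489) (nat_lit 14) (.e (nat_lit 73754) (nat_lit 8) (.e (nat_lit 557100) (nat_lit 13) (.e (nat_lit 172067) (nat_lit 3) (.e (nat_lit 204816) (nat_lit 17) (.e (nat_lit 2273) (nat_lit 149) (.e (nat_lit 761899) (nat_lit 15) .nil)))))))) (.g (nat_lit 1) (.e (nat_lit 171424) (nat_lit 0) .nil) .nil)))))))))) 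
(.nd (nat_lit 3) (.nd (nat_lit 4) (.nd (nat_lit 5) (.nd (nat_lit 6) (.nd (nat_lit 7) 
(.nd (nat_lit 8) (.nd (nat_lit 9) 
(.lf (nat_lit 500743) (.g (nat_lit 271) (.e (nat_lit 163977) (nat_lit 30) (.e (nat_lit 573491) (nat_lit 15) (.e (nat_lit 81954) (nat_lit 23) .nil))) (.g (nat_lit 0) (.e (nat_lit 169389) (nat_lit 0) .nil) .nil))) 
(.lf (nat_lit 501255) (.g (nat_lit 3912) (.e (nat_lit 163978) (nat_lit 30) (.e (nat_lit 573484) (nat_lit 13) (.e (nat_lit 65610) (nat_lit 10) (.e (nat_lit 344117) (nat_lit 21) (.e (nat_lit 516179) (nat_lit 15) (.e (nat_lit 475205) (nat_lit 40) (.e (nat_lit 704588) (nat_lit 3) .nil))))))) (.g (nat_lit 1) (.e (nat_lit 170680) (nat_lit 0) .nil) .nil)))) (.nd (nat_lit 9) 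
(.lf (nat_lit 500999) (.g (nat_lit 4328) (.e (nat_lit 163977) (nat_lit 30) (.e (nat_lit 573493) (nat_lit 15) (.e (nat_lit 81956) (nat_lit 23) (.e (nat_lit 98366) (nat_lit 27) (.e (nat_lit 434271) (nat_lit 38) (.e (nat_lit 655375) (nat_lit 3) .nil)))))) (.g (nat_lit 1) (.e (nat_lit 170144) (nat_lit 0) .nil) .nil))) 
(.lf (nat_lit 501511) (.g (nat_lit 4256) (.e (nat_lit 163978) (nat_lit 30) (.e (nat_lit 573485) (nat_lit 13) (.e (nat_lit 65619) (nat_lit 10) (.e (nat_lit 344117) (nat_lit 21) (.e (nat_lit 516145) (nat_lit 9) (.e (nat_lit 426376) (nat_lit 15) (.e (nat_lit 2059) (nat_lit 142) (.e (nat_lit 704589) (nat_lit 3) .nil)))))))) (.g (nat_lit 1) (.e (nat_lit 171023) (nat_lit 0) .nil) .nil))))) 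
(.nd (nat_lit 8) (.nd (nat_lit 9) 
(.lf (nat_lit 500871) (.g (nat_lit 1207) (.e (nat_lit 163977) (nat_lit 30) (.e (nat_lit 573493) (nat_lit 15) (.e (nat_lit 81953) (nat_lit 22) (.e (nat_lit 90170) (nat_lit 13) .nil)))) (.g (nat_lit 0) (.e (nat_lit 169824) (nat_lit 0) .nil) .nil))) 
(.lf (nat_lit 501383) (.g (nat_lit 3561) (.e (nat_lit 163978) (nat_lit 30) (.e (nat_lit 573485) (nat_lit 13) (.e (nat_lit 65604) (nat_lit 9) (.e (nat_lit 336028) (nat_lit 3) (.e (nat_lit 98359) (nat_lit 26) (.e (nat_lit 426022) (nat_lit 0) (.e (nat_lit 3399) (nat_lit 211) (.e (nat_lit 647180) (nat_lit 3) .nil)))))))) (.g (nat_lit 1) (.e (nat_lit 170835) (nat_lit 0) .nil) .nil)))) (.nd (nat_lit 9) 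
(.lf (nat_lit 501127) (.g (nat_lit 3948) (.e (nat_lit 163978) (nat_lit 30) (.e (nat_lit 573483) (nat_lit 13) (.e (nat_lit 65619) (nat_lit 10) (.e (nat_lit 344117) (nat_lit 21) (.e (nat_lit 516160) (nat_lit 10) (.e (nat_lit 434272) (nat_lit 38) (.e (nat_lit 655375) (nat_lit 3) .nil))))))) (.g (nat_lit 1) (.e (nat_lit 170392) (nat_lit 0) .nil) .nil))) 
(.lf (nat_lit 501639) (.g (nat_lit 2573) (.e (nat_lit 163978) (nat_lit 30) (.e (nat_lit 573485) (nat_lit 13) (.e (nat_lit 65619) (nat_lit 10) (.e (nat_lit 344117) (nat_lit 21) (.e (nat_lit 516159) (nat_lit 10) (.e (nat_lit 434270) (nat_lit 38) (.e (nat_lit 655373) (nat_lit 3) .nil))))))) (.g (nat_lit 1) (.e (nat_lit 171156) (nat_lit 0) .nil) .nil)))))) 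
(.nd (nat_lit 7) (.nd (nat_lit 8) (.nd (nat_lit 9) 
(.lf (nat_lit 500807) (.g (nat_lit 3569) (.e (nat_lit 163977) (nat_lit 30) (.e (nat_lit 573492) (nat_lit 15) (.e (nat_lit 81956) (nat_lit 23) (.e (nat_lit 98356) (nat_lit 26) (.e (nat_lit 426444) (nat_lit 19) (.e (nat_lit 114432) (nat_lit 3) .nil)))))) (.g (nat_lit 1) (.e (nat_lit 169589) (nat_lit 0) .nil) .nil))) 
(.lf (nat_lit 501319) (.g (nat_lit 4365) (.e (nat_lit 163978) (nat_lit 30) (.e (nat_lit 573485) (nat_lit 13) (.e (nat_lit 65604) (nat_lit 9) (.e (nat_lit 336013) (nat_lit 2) (.e (nat_lit 90170) (nat_lit 13) (.e (nat_lit 172059) (nat_lit 1) (.e (nat_lit 164347) (nat_lit 240) (.e (nat_lit 2599) (nat_lit 163) .nil)))))))) (.g (nat_lit 1) (.e (nat_lit 170762) (nat_lit 0) .nil) .nil)))) 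
(.nd (nat_lit 9) 
(.lf (nat_lit 501063) (.g (nat_lit 4429) (.e (nat_lit 163978) (nat_lit 30) (.e (nat_lit 573479) (nat_lit 13) (.e (nat_lit 65619) (nat_lit 10) (.e (nat_lit 344117) (nat_lit 21) (.e (nat_lit 516151) (nat_lit 9) (.e (nat_lit 426042) (nat_lit 0) (.e (nat_lit 3406) (nat_lit 212) (.e (nat_lit 655375) (nat_lit 3) .nil)))))))) (.g (nat_lit 1) (.e (nat_lit 170328) (nat_lit 0) .nil) .nil))) 
(.lf (nat_lit 501575) (.g (nat_lit 4406) (.e (nat_lit 163978) (nat_lit 30) (.e (nat_lit 573485) (nat_lit 13) (.e (nat_lit 65619) (nat_lit 10) (.e (nat_lit 344117) (nat_lit 21) (.e (nat_lit 516151) (nat_lit 9) (.e (nat_lit 426104) (nat_lit 1) (.e (nat_lit 164345) (nat_lit 240) (.e (nat_lit 2601) (nat_lit 163) .nil)))))))) (.g (nat_lit 1) (.e (nat_lit 171087) (nat_lit 0) .nil) .nil))))) 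
(.nd (nat_lit 8) (.nd (nat_lit 9) 
(.lf (nat_lit 500935) (.g (nat_lit 3906) (.e (nat_lit 163977) (nat_lit 30) (.e (nat_lit 573493) (nat_lit 15) (.e (nat_lit 81954) (nat_lit 23) (.e (nat_lit 98367) (nat_lit 27) (.e (nat_lit 434272) (nat_lit 38) (.e (nat_lit 655374) (nat_lit 3) .nil)))))) (.g (nat_lit 1) (.e (nat_lit 169969) (nat_lit 0) .nil) .nil))) 
(.lf (nat_lit 501447) (.g (nat_lit 4015) (.e (nat_lit 163978) (nat_lit 30) (.e (nat_lit 573485) (nat_lit 13) (.e (nat_lit 65604) (nat_lit 9) (.e (nat_lit 336028) (nat_lit 3) (.e (nat_lit 98383) (nat_lit 32) (.e (nat_lit 475197) (nat_lit 40) (.e (nat_lit 704589) (nat_lit 3) .nil))))))) (.g (nat_lit 1) (.e (nat_lit 170951) (nat_lit 0) .nil) .nil)))) (.nd (nat_lit 9) 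
(.lf (nat_lit 501191) (.g (nat_lit 4581) (.e (nat_lit 163978) (nat_lit 30) (.e (nat_lit 573484) (nat_lit 13) (.e (nat_lit 65610) (nat_lit 10) (.e (nat_lit 344117) (nat_lit 21) (.e (nat_lit 516151) (nat_lit 9) (.e (nat_lit 426038) (nat_lit 0) (.e (nat_lit 2458) (nat_lit 157) (.e (nat_lit 5546) (nat_lit 306) (.e (nat_lit 2610) (nat_lit 163) .nil))))))))) (.g (nat_lit 1) (.e (nat_lit 170510) (nat_lit 0) .nil) .nil))) 
(.lf (nat_lit 501703) (.g (nat_lit 2462) (.e (nat_lit 163978) (nat_lit 30) (.e (nat_lit 573485) (nat_lit 13) (.e (nat_lit 65619) (nat_lit 10) (.e (nat_lit 344117) (nat_lit 21) (.e (nat_lit 516180) (nat_lit 15) (.e (nat_lit 483072) (nat_lit 40) (.e (nat_lit 712448) (nat_lit 3) .nil))))))) (.g (nat_lit 1) (.e (nat_lit 171229) (nat_lit 0) .nil) .nil))))))) 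
(.nd (nat_lit 6) (.nd (nat_lit 7) (.nd (nat_lit 8) (.nd (nat_lit 9) 
(.lf (nat_lit 500775) (.g (nat_lit 2251) (.e (nat_lit 163977) (nat_lit 30) (.e (nat_lit 573491) (nat_lit 15) (.e (nat_lit 81954) (nat_lit 23) (.e (nat_lit 98367) (nat_lit 27) (.e (nat_lit 434213) (nat_lit 18) .nil))))) (.g (nat_lit 0) (.e (nat_lit 169486) (nat_lit 0) .nil) .nil))) 
(.lf (nat_lit 501287) (.g (nat_lit 2773) (.e (nat_lit 163978) (nat_lit 30) (.e (nat_lit 573485) (nat_lit 13) (.e (nat_lit 65604) (nat_lit 9) (.e (nat_lit 336013) (nat_lit 2) (.e (nat_lit 90170) (nat_lit 13) (.e (nat_lit 172042) (nat_lit 0) (.e (nat_lit 2458) (nat_lit 157) (.e (nat_lit 5546) (nat_lit 306) (.e (nat_lit 2601) (nat_lit 163) .nil))))))))) (.g (nat_lit 1) (.e (nat_lit 170729) (nat_lit 0) .nil) .nil)))) 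
(.nd (nat_lit 9) 
(.lf (nat_lit 501031) (.g (nat_lit 4107) (.e (nat_lit 163978) (nat_lit 30) (.e (nat_lit 573479) (nat_lit 13) (.e (nat_lit 65604) (nat_lit 9) (.e (nat_lit 336013) (nat_lit 2) (.e (nat_lit 90170) (nat_lit 13) (.e (nat_lit 172046) (nat_lit 0) (.e (nat_lit 2458) (nat_lit 157) (.e (nat_lit 5547) (nat_lit 306) (.e (nat_lit 2611) (nat_lit 163) .nil))))))))) (.g (nat_lit 1) (.e (nat_lit 170295) (nat_lit 0) .nil) .nil))) 
(.lf (nat_lit 501543) (.g (nat_lit 3660) (.e (nat_lit 163978) (nat_lit 30) (.e (nat_lit 573485) (nat_lit 13) (.e (nat_lit 65619) (nat_lit 10) (.e (nat_lit 344117) (nat_lit 21) (.e (nat_lit 516151) (nat_lit 9) (.e (nat_lit 426042) (nat_lit 0) (.e (nat_lit 2458) (nat_lit 157) (.e (nat_lit 5546) (nat_lit 306) (.e (nat_lit 2600) (nat_lit 163) .nil))))))))) (.g (nat_lit 1) (.e (nat_lit 171055) (nat_lit 0) .nil) .nil))))) 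
(.nd (nat_lit 8) (.nd (nat_lit 9) 
(.lf (nat_lit 500903) (.g (nat_lit 4143) (.e (nat_lit 163977) (nat_lit 30) (.e (nat_lit 573493) (nat_lit 15) (.e (nat_lit 81953) (nat_lit 22) (.e (nat_lit 90173) (nat_lit 14) .nil)))) (.g (nat_lit 0) (.e (nat_lit 169882) (nat_lit 0) .nil) .nil))) 
(.lf (nat_lit 501415) (.g (nat_lit 1710) (.e (nat_lit 163978) (nat_lit 30) (.e (nat_lit 573485) (nat_lit 13) (.e (nat_lit 65604) (nat_lit 9) (.e (nat_lit 336028) (nat_lit 3) (.e (nat_lit 106240) (nat_lit 26) .nil))))) (.g (nat_lit 0) (.e (nat_lit 170902) (nat_lit 0) .nil) .nil)))) (.nd (nat_lit 9) 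
(.lf (nat_lit 501159) (.g (nat_lit 4840) (.e (nat_lit 163978) (nat_lit 30) (.e (nat_lit 573484) (nat_lit 13) (.e (nat_lit 65610) (nat_lit 10) (.e (nat_lit 344117) (nat_lit 21) (.e (nat_lit 516145) (nat_lit 9) (.e (nat_lit 426444) (nat_lit 19) (.e (nat_lit 114432) (nat_lit 3) .nil))))))) (.g (nat_lit 1) (.e (nat_lit 170471) (nat_lit 0) .nil) .nil))) 
(.lf (nat_lit 501671) (.g (nat_lit 2501) (.e (nat_lit 163978) (nat_lit 30) (.e (nat_lit 573485) (nat_lit 13) (.e (nat_lit 65619) (nat_lit 10) (.e (nat_lit 344117) (nat_lit 21) (.e (nat_lit 516168) (nat_lit 13) (.e (nat_lit 458774) (nat_lit 18) (.e (nat_lit 5548) (nat_lit 306) (.e (nat_lit 2599) (nat_lit 163) .nil)))))))) (.g (nat_lit 1) (.e (nat_lit 171192) (nat_lit 0) .nil) .nil)))))) 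
(.nd (nat_lit 7) (.nd (nat_lit 8) (.nd (nat_lit 9) 
(.lf (nat_lit 500839) (.g (nat_lit 4855) (.e (nat_lit 163977) (nat_lit 30) (.e (nat_lit 573493) (nat_lit 15) (.e (nat_lit 81951) (nat_lit 22) (.e (nat_lit 90170) (nat_lit 13) (.e (nat_lit 172032) (nat_lit 0) (.e (nat_lit 3399) (nat_lit 211) (.e (nat_lit 647181) (nat_lit 3) .nil))))))) (.g (nat_lit 1) (.e (nat_lit 169690) (nat_lit 0) .nil) .nil))) 
(.lf (nat_lit 501351) (.g (nat_lit 3209) (.e (nat_lit 163978) (nat_lit 30) (.e (nat_lit 573485) (nat_lit 13) (.e (nat_lit 65604) (nat_lit 9) (.e (nat_lit 336013) (nat_lit 2) (.e (nat_lit 90170) (nat_lit 13) (.e (nat_lit 172070) (nat_lit 4) (.e (nat_lit 229663) (nat_lit 240) (.e (nat_lit 2598) (nat_lit 163) .nil)))))))) (.g (nat_lit 1) (.e (nat_lit 170796) (nat_lit 0) .nil) .nil)))) 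
(.nd (nat_lit 9) 
(.lf (nat_lit 501095) (.g (nat_lit 3819) (.e (nat_lit 163978) (nat_lit 30) (.e (nat_lit 573479) (nat_lit 13) (.e (nat_lit 65619) (nat_lit 10) (.e (nat_lit 344117) (nat_lit 21) (.e (nat_lit 516160) (nat_lit 10) (.e (nat_lit 434272) (nat_lit 38) (.e (nat_lit 655373) (nat_lit 3) .nil))))))) (.g (nat_lit 1) (.e (nat_lit 170360) (nat_lit 0) .nil) .nil))) 
(.lf (nat_lit 501607) (.g (nat_lit 3000) (.e (nat_lit 163978) (nat_lit 30) (.e (nat_lit 573485) (nat_lit 13) (.e (nat_lit 65619) (nat_lit 10) (.e (nat_lit 344117) (nat_lit 21) (.e (nat_lit 516152) (nat_lit 9) (.e (nat_lit 426109) (nat_lit 1) (.e (nat_lit 164347) (nat_lit 240) (.e (nat_lit 2599) (nat_lit 163) .nil)))))))) (.g (nat_lit 1) (.e (nat_lit 171119) (nat_lit 0) .nil) .nil))))) 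
(.nd (nat_lit 8) (.nd (nat_lit 9) 
(.lf (nat_lit 500967) (.g (nat_lit 2446) (.e (nat_lit 163977) (nat_lit 30) (.e (nat_lit 573493) (nat_lit 15) (.e (nat_lit 81956) (nat_lit 23) (.e (nat_lit 98359) (nat_lit 26) (.e (nat_lit 426042) (nat_lit 0) .nil))))) (.g (nat_lit 0) (.e (nat_lit 170067) (nat_lit 0) .nil) .nil))) 
(.lf (nat_lit 501479) (.g (nat_lit 2486) (.e (nat_lit 163978) (nat_lit 30) (.e (nat_lit 573485) (nat_lit 13) (.e (nat_lit 65619) (nat_lit 10) (.e (nat_lit 344117) (nat_lit 21) (.e (nat_lit 516143) (nat_lit 9) (.e (nat_lit 426465) (nat_lit 24) (.e (nat_lit 163584) (nat_lit 3) .nil))))))) (.g (nat_lit 1) (.e (nat_lit 170991) (nat_lit 0) .nil) .nil)))) (.nd (nat_lit 9) 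
(.lf (nat_lit 501223) (.g (nat_lit 3521) (.e (nat_lit 163978) (nat_lit 30) (.e (nat_lit 573484) (nat_lit 13) (.e (nat_lit 65610) (nat_lit 10) (.e (nat_lit 344117) (nat_lit 21) (.e (nat_lit 516151) (nat_lit 9) (.e (nat_lit 426097) (nat_lit 1) (.e (nat_lit 164345) (nat_lit 240) (.e (nat_lit 2601) (nat_lit 163) .nil)))))))) (.g (nat_lit 1) (.e (nat_lit 170570) (nat_lit 0) .nil) .nil))) 
(.lf (nat_lit 501735) (.g (nat_lit 5970) (.e (nat_lit 163978) (nat_lit 30) (.e (nat_lit 573487) (nat_lit 14) (.e (nat_lit 73753) (nat_lit 8) (.e (nat_lit 557105) (nat_lit 14) (.e (nat_lit 180252) (nat_lit 10) (.e (nat_lit 573475) (nat_lit 12) (.e (nat_lit 57503) (nat_lit 38) (.e (nat_lit 638995) (nat_lit 7) .nil)))))))) (.g (nat_lit 1) (.e (nat_lit 171376) (nat_lit 0) .nil) .nil)))))))) 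
(.nd (nat_lit 5) (.nd (nat_lit 6) (.nd (nat_lit 7) (.nd (nat_lit 8) (.nd (nat_lit 9) 
(.lf (nat_lit 500759) (.g (nat_lit 2637) (.e (nat_lit 163977) (nat_lit 30) (.e (nat_lit 573491) (nat_lit 15) (.e (nat_lit 81954) (nat_lit 23) (.e (nat_lit 98359) (nat_lit 26) (.e (nat_lit 426104) (nat_lit 1) (.e (nat_lit 164348) (nat_lit 240) (.e (nat_lit 2610) (nat_lit 163) .nil))))))) (.g (nat_lit 1) (.e (nat_lit 169435) (nat_lit 0) .nil) .nil))) 
(.lf (nat_lit 501271) (.g (nat_lit 4037) (.e (nat_lit 163978) (nat_lit 30) (.e (nat_lit 573485) (nat_lit 13) (.e (nat_lit 65604) (nat_lit 9) (.e (nat_lit 336013) (nat_lit 2) (.e (nat_lit 90170) (nat_lit 13) (.e (nat_lit 172032) (nat_lit 0) (.e (nat_lit 3397) (nat_lit 211) (.e (nat_lit 647180) (nat_lit 3) .nil)))))))) (.g (nat_lit 1) (.e (nat_lit 170712) (nat_lit 0) .nil) .nil)))) (.nd (nat_lit 9) 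
(.lf (nat_lit 501015) (.g (nat_lit 2915) (.e (nat_lit 163977) (nat_lit 30) (.e (nat_lit 573493) (nat_lit 15) (.e (nat_lit 81956) (nat_lit 23) (.e (nat_lit 98368) (nat_lit 27) (.e (nat_lit 434207) (nat_lit 18) .nil))))) (.g (nat_lit 0) (.e (nat_lit 170202) (nat_lit 0) .nil) .nil))) 
(.lf (nat_lit 501527) (.g (nat_lit 3254) (.e (nat_lit 163978) (nat_lit 30) (.e (nat_lit 573485) (nat_lit 13) (.e (nat_lit 65619) (nat_lit 10) (.e (nat_lit 344117) (nat_lit 21) (.e (nat_lit 516147) (nat_lit 9) (.e (nat_lit 426442) (nat_lit 19) (.e (nat_lit 114432) (nat_lit 3) .nil))))))) (.g (nat_lit 1) (.e (nat_lit 171039) (nat_lit 0) .nil) .nil))))) (.nd (nat_lit 8) (.nd (nat_lit 9) 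
(.lf (nat_lit 500887) (.g (nat_lit 3429) (.e (nat_lit 163977) (nat_lit 30) (.e (nat_lit 573493) (nat_lit 15) (.e (nat_lit 81953) (nat_lit 22) (.e (nat_lit 90170) (nat_lit 13) (.e (nat_lit 172048) (nat_lit 0) .nil))))) (.g (nat_lit 0) (.e (nat_lit 169842) (nat_lit 0) .nil) .nil))) 
(.lf (nat_lit 501399) (.g (nat_lit 2347) (.e (nat_lit 163978) (nat_lit 30) (.e (nat_lit 573485) (nat_lit 13) (.e (nat_lit 65604) (nat_lit 9) (.e (nat_lit 336028) (nat_lit 3) (.e (nat_lit 98360) (nat_lit 26) .nil))))) (.g (nat_lit 0) (.e (nat_lit 170880) (nat_lit 0) .nil) .nil)))) (.nd (nat_lit 9) 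
(.lf (nat_lit 501143) (.g (nat_lit 2658) (.e (nat_lit 163978) (nat_lit 30) (.e (nat_lit 573484) (nat_lit 13) (.e (nat_lit 65610) (nat_lit 10) (.e (nat_lit 344117) (nat_lit 21) (.e (nat_lit 516144) (nat_lit 9) (.e (nat_lit 426469) (nat_lit 24) (.e (nat_lit 163584) (nat_lit 3) .nil))))))) (.g (nat_lit 1) (.e (nat_lit 170437) (nat_lit 0) .nil) .nil))) 
(.lf (nat_lit 501655) (.g (nat_lit 2572) (.e (nat_lit 163978) (nat_lit 30) (.e (nat_lit 573485) (nat_lit 13) (.e (nat_lit 65619) (nat_lit 10) (.e (nat_lit 344117) (nat_lit 21) (.e (nat_lit 516160) (nat_lit 10) (.e (nat_lit 434270) (nat_lit 38) (.e (nat_lit 655373) (nat_lit 3) .nil))))))) (.g (nat_lit 1) (.e (nat_lit 171176) (nat_lit 0) .nil) .nil)))))) 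
(.nd (nat_lit 7) (.nd (nat_lit 8) (.nd (nat_lit 9) 
(.lf (nat_lit 500823) (.g (nat_lit 3882) (.e (nat_lit 163977) (nat_lit 30) (.e (nat_lit 573492) (nat_lit 15) (.e (nat_lit 81956) (nat_lit 23) (.e (nat_lit 98367) (nat_lit 27) .nil)))) (.g (nat_lit 0) (.e (nat_lit 169609) (nat_lit 0) .nil) .nil))) 
(.lf (nat_lit 501335) (.g (nat_lit 4507) (.e (nat_lit 163978) (nat_lit 30) (.e (nat_lit 573485) (nat_lit 13) (.e (nat_lit 65604) (nat_lit 9) (.e (nat_lit 336013) (nat_lit 2) (.e (nat_lit 90170) (nat_lit 13) (.e (nat_lit 172061) (nat_lit 1) (.e (nat_lit 164348) (nat_lit 240) (.e (nat_lit 2599) (nat_lit 163) .nil)))))))) (.g (nat_lit 1) (.e (nat_lit 170780) (nat_lit 0) .nil) .nil)))) 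
(.nd (nat_lit 9) 
(.lf (nat_lit 501079) (.g (nat_lit 3178) (.e (nat_lit 163978) (nat_lit 30) (.e (nat_lit 573479) (nat_lit 13) (.e (nat_lit 65619) (nat_lit 10) (.e (nat_lit 344117) (nat_lit 21) (.e (nat_lit 516152) (nat_lit 9) (.e (nat_lit 426109) (nat_lit 1) (.e (nat_lit 164345) (nat_lit 240) (.e (nat_lit 2611) (nat_lit 163) .nil)))))))) (.g (nat_lit 1) (.e (nat_lit 170344) (nat_lit 0) .nil) .nil))) 
(.lf (nat_lit 501591) (.g (nat_lit 2482) (.e (nat_lit 163978) (nat_lit 30) (.e (nat_lit 573485) (nat_lit 13) (.e (nat_lit 65619) (nat_lit 10) (.e (nat_lit 344117) (nat_lit 21) (.e (nat_lit 516151) (nat_lit 9) (.e (nat_lit 426396) (nat_lit 15) (.e (nat_lit 2057) (nat_lit 142) (.e (nat_lit 704589) (nat_lit 3) .nil)))))))) (.g (nat_lit 1) (.e (nat_lit 171103) (nat_lit 0) .nil) .nil))))) 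
(.nd (nat_lit 8) (.nd (nat_lit 9) 
(.lf (nat_lit 500951) (.g (nat_lit 3407) (.e (nat_lit 163977) (nat_lit 30) (.e (nat_lit 573493) (nat_lit 15) (.e (nat_lit 81956) (nat_lit 23) (.e (nat_lit 98356) (nat_lit 26) (.e (nat_lit 426442) (nat_lit 19) (.e (nat_lit 114432) (nat_lit 3) .nil)))))) (.g (nat_lit 1) (.e (nat_lit 170033) (nat_lit 0) .nil) .nil))) 
(.lf (nat_lit 501463) (.g (nat_lit 1061) (.e (nat_lit 163978) (nat_lit 30) (.e (nat_lit 573485) (nat_lit 13) (.e (nat_lit 65619) (nat_lit 10) (.e (nat_lit 344117) (nat_lit 21) .nil)))) (.g (nat_lit 0) (.e (nat_lit 170970) (nat_lit 0) .nil) .nil)))) (.nd (nat_lit 9) 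
(.lf (nat_lit 501207) (.g (nat_lit 2574) (.e (nat_lit 163978) (nat_lit 30) (.e (nat_lit 573484) (nat_lit 13) (.e (nat_lit 65610) (nat_lit 10) (.e (nat_lit 344117) (nat_lit 21) (.e (nat_lit 516151) (nat_lit 9) (.e (nat_lit 426042) (nat_lit 0) (.e (nat_lit 3408) (nat_lit 212) (.e (nat_lit 655373) (nat_lit 3) .nil)))))))) (.g (nat_lit 1) (.e (nat_lit 170546) (nat_lit 0) .nil) .nil))) 
(.lf (nat_lit 501719) (.g (nat_lit 3287) (.e (nat_lit 163978) (nat_lit 30) (.e (nat_lit 573487) (nat_lit 14) (.e (nat_lit 73753) (nat_lit 8) (.e (nat_lit 557100) (nat_lit 13) (.e (nat_lit 172065) (nat_lit 3) (.e (nat_lit 204821) (nat_lit 17) (.e (nat_lit 7936) (nat_lit 149) (.e (nat_lit 761898) (nat_lit 15) .nil)))))))) (.g (nat_lit 1) (.e (nat_lit 171311) (nat_lit 0) .nil) .nil))))))) 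
(.nd (nat_lit 6) (.nd (nat_lit 7) (.nd (nat_lit 8) (.nd (nat_lit 9) 
(.lf (nat_lit 500791) (.g (nat_lit 5310) (.e (nat_lit 163977) (nat_lit 30) (.e (nat_lit 573492) (nat_lit 15) (.e (nat_lit 81953) (nat_lit 22) (.e (nat_lit 90166) (nat_lit 13) .nil)))) (.g (nat_lit 0) (.e (nat_lit 169532) (nat_lit 0) .nil) .nil))) 
(.lf (nat_lit 501303) (.g (nat_lit 3609) (.e (nat_lit 163978) (nat_lit 30) (.e (nat_lit 573485) (nat_lit 13) (.e (nat_lit 65604) (nat_lit 9) (.e (nat_lit 336013) (nat_lit 2) (.e (nat_lit 90170) (nat_lit 13) (.e (nat_lit 172046) (nat_lit 0) (.e (nat_lit 3403) (nat_lit 212) (.e (nat_lit 655373) (nat_lit 3) .nil)))))))) (.g (nat_lit 1) (.e (nat_lit 170745) (nat_lit 0) .nil) .nil)))) (.nd (nat_lit 9) 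
(.lf (nat_lit 501047) (.g (nat_lit 2672) (.e (nat_lit 163978) (nat_lit 30) (.e (nat_lit 573479) (nat_lit 13) (.e (nat_lit 65619) (nat_lit 10) (.e (nat_lit 344117) (nat_lit 21) (.e (nat_lit 516151) (nat_lit 9) (.e (nat_lit 426025) (nat_lit 0) (.e (nat_lit 3399) (nat_lit 211) (.e (nat_lit 647180) (nat_lit 3) .nil)))))))) (.g (nat_lit 1) (.e (nat_lit 170312) (nat_lit 0) .nil) .nil))) 
(.lf (nat_lit 501559) (.g (nat_lit 4390) (.e (nat_lit 163978) (nat_lit 30) (.e (nat_lit 573485) (nat_lit 13) (.e (nat_lit 65619) (nat_lit 10) (.e (nat_lit 344117) (nat_lit 21) (.e (nat_lit 516151) (nat_lit 9) (.e (nat_lit 426043) (nat_lit 0) (.e (nat_lit 3406) (nat_lit 212) (.e (nat_lit 655373) (nat_lit 3) .nil)))))))) (.g (nat_lit 1) (.e (nat_lit 171071) (nat_lit 0) .nil) .nil))))) 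
(.nd (nat_lit 8) (.nd (nat_lit 9) 
(.lf (nat_lit 500919) (.g (nat_lit 2086) (.e (nat_lit 163977) (nat_lit 30) (.e (nat_lit 573493) (nat_lit 15) (.e (nat_lit 81954) (nat_lit 23) (.e (nat_lit 98359) (nat_lit 26) .nil)))) (.g (nat_lit 0) (.e (nat_lit 169921) (nat_lit 0) .nil) .nil))) 
(.lf (nat_lit 501431) (.g (nat_lit 1826) (.e (nat_lit 163978) (nat_lit 30) (.e (nat_lit 573485) (nat_lit 13) (.e (nat_lit 65604) (nat_lit 9) (.e (nat_lit 336028) (nat_lit 3) (.e (nat_lit 98367) (nat_lit 27) .nil))))) (.g (nat_lit 0) (.e (nat_lit 170924) (nat_lit 0) .nil) .nil)))) (.nd (nat_lit 9) 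
(.lf (nat_lit 501175) (.g (nat_lit 1971) (.e (nat_lit 163978) (nat_lit 30) (.e (nat_lit 573484) (nat_lit 13) (.e (nat_lit 65610) (nat_lit 10) (.e (nat_lit 344117) (nat_lit 21) (.e (nat_lit 516151) (nat_lit 9) (.e (nat_lit 426003) (nat_lit 0) (.e (nat_lit 3401) (nat_lit 211) (.e (nat_lit 647180) (nat_lit 3) .nil)))))))) (.g (nat_lit 1) (.e (nat_lit 170487) (nat_lit 0) .nil) .nil))) 
(.lf (nat_lit 501687) (.g (nat_lit 2880) (.e (nat_lit 163978) (nat_lit 30) (.e (nat_lit 573485) (nat_lit 13) (.e (nat_lit 65619) (nat_lit 10) (.e (nat_lit 344117) (nat_lit 21) (.e (nat_lit 516171) (nat_lit 13) (.e (nat_lit 458804) (nat_lit 38) (.e (nat_lit 655373) (nat_lit 3) .nil))))))) (.g (nat_lit 1) (.e (nat_lit 171213) (nat_lit 0) .nil) .nil)))))) 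
(.nd (nat_lit 7) (.nd (nat_lit 8) (.nd (nat_lit 9) 
(.lf (nat_lit 500855) (.g (nat_lit 4343) (.e (nat_lit 163977) (nat_lit 30) (.e (nat_lit 573493) (nat_lit 15) (.e (nat_lit 81951) (nat_lit 22) (.e (nat_lit 90170) (nat_lit 13) (.e (nat_lit 172052) (nat_lit 0) .nil))))) (.g (nat_lit 0) (.e (nat_lit 169711) (nat_lit 0) .nil) .nil))) 
(.lf (nat_lit 501367) (.g (nat_lit 4606) (.e (nat_lit 163978) (nat_lit 30) (.e (nat_lit 573485) (nat_lit 13) (.e (nat_lit 65604) (nat_lit 9) (.e (nat_lit 336013) (nat_lit 2) (.e (nat_lit 90174) (nat_lit 14) .nil))))) (.g (nat_lit 0) (.e (nat_lit 170812) (nat_lit 0) .nil) .nil)))) (.nd (nat_lit 9) 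
(.lf (nat_lit 501111) (.g (nat_lit 2862) (.e (nat_lit 163978) (nat_lit 30) (.e (nat_lit 573480) (nat_lit 13) (.e (nat_lit 65610) (nat_lit 10) (.e (nat_lit 344117) (nat_lit 21) (.e (nat_lit 516160) (nat_lit 10) (.e (nat_lit 434271) (nat_lit 38) (.e (nat_lit 655375) (nat_lit 3) .nil))))))) (.g (nat_lit 1) (.e (nat_lit 170376) (nat_lit 0) .nil) .nil))) 
(.lf (nat_lit 501623) (.g (nat_lit 2399) (.e (nat_lit 163978) (nat_lit 30) (.e (nat_lit 573485) (nat_lit 13) (.e (nat_lit 65619) (nat_lit 10) (.e (nat_lit 344117) (nat_lit 21) (.e (nat_lit 516155) (nat_lit 9) .nil))))) (.g (nat_lit 0) (.e (nat_lit 171135) (nat_lit 0) .nil) .nil))))) (.nd (nat_lit 8) (.nd (nat_lit 9) 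
(.lf (nat_lit 500983) (.g (nat_lit 2536) (.e (nat_lit 163977) (nat_lit 30) (.e (nat_lit 573493) (nat_lit 15) (.e (nat_lit 81956) (nat_lit 23) (.e (nat_lit 98363) (nat_lit 26) .nil)))) (.g (nat_lit 0) (.e (nat_lit 170107) (nat_lit 0) .nil) .nil))) 
(.lf (nat_lit 501495) (.g (nat_lit 2579) (.e (nat_lit 163978) (nat_lit 30) (.e (nat_lit 573485) (nat_lit 13) (.e (nat_lit 65619) (nat_lit 10) (.e (nat_lit 344117) (nat_lit 21) (.e (nat_lit 516144) (nat_lit 9) (.e (nat_lit 426402) (nat_lit 15) (.e (nat_lit 2056) (nat_lit 142) (.e (nat_lit 704589) (nat_lit 3) .nil)))))))) (.g (nat_lit 1) (.e (nat_lit 171007) (nat_lit 0) .nil) .nil)))) 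
(.nd (nat_lit 9) 
(.lf (nat_lit 501239) (.g (nat_lit 2543) (.e (nat_lit 163978) (nat_lit 30) (.e (nat_lit 573484) (nat_lit 13) (.e (nat_lit 65610) (nat_lit 10) (.e (nat_lit 344117) (nat_lit 21) (.e (nat_lit 516159) (nat_lit 10) (.e (nat_lit 434270) (nat_lit 38) (.e (nat_lit 655374) (nat_lit 3) .nil))))))) (.g (nat_lit 1) (.e (nat_lit 170626) (nat_lit 0) .nil) .nil))) 
(.lf (nat_lit 501751) (.g (nat_lit 4882) (.e (nat_lit 163978) (nat_lit 30) (.e (nat_lit 573489) (nat_lit 14) (.e (nat_lit 73754) (nat_lit 8) (.e (nat_lit 557100) (nat_lit 13) (.e (nat_lit 172065) (nat_lit 3) (.e (nat_lit 204830) (nat_lit 18) (.e (nat_lit 57663) (nat_lit 152) (.e (nat_lit 2612) (nat_lit 163) .nil)))))))) (.g (nat_lit 1) (.e (nat_lit 171409) (nat_lit 0) .nil) .nil))))))))) 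
(.nd (nat_lit 4) (.nd (nat_lit 5) (.nd (nat_lit 6) (.nd (nat_lit 7) (.nd (nat_lit 8) 
(.nd (nat_lit 9) 
(.lf (nat_lit 500751) (.g (nat_lit 1759) (.e (nat_lit 163977) (nat_lit 30) (.e (nat_lit 573491) (nat_lit 15) (.e (nat_lit 81954) (nat_lit 23) (.e (nat_lit 98357) (nat_lit 26) (.e (nat_lit 426442) (nat_lit 19) (.e (nat_lit 114432) (nat_lit 3) .nil)))))) (.g (nat_lit 1) (.e (nat_lit 169411) (nat_lit 0) .nil) .nil))) 
(.lf (nat_lit 501263) (.g (nat_lit 1955) (.e (nat_lit 163978) (nat_lit 30) (.e (nat_lit 573484) (nat_lit 13) (.e (nat_lit 65610) (nat_lit 10) (.e (nat_lit 344118) (nat_lit 21) .nil)))) (.g (nat_lit 0) (.e (nat_lit 170688) (nat_lit 0) .nil) .nil)))) (.nd (nat_lit 9) 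
(.lf (nat_lit 501007) (.g (nat_lit 2672) (.e (nat_lit 163977) (nat_lit 30) (.e (nat_lit 573493) (nat_lit 15) (.e (nat_lit 81956) (nat_lit 23) (.e (nat_lit 98367) (nat_lit 27) (.e (nat_lit 434270) (nat_lit 38) (.e (nat_lit 655374) (nat_lit 3) .nil)))))) (.g (nat_lit 1) (.e (nat_lit 170183) (nat_lit 0) .nil) .nil))) 
(.lf (nat_lit 501519) (.g (nat_lit 4294) (.e (nat_lit 163978) (nat_lit 30) (.e (nat_lit 573485) (nat_lit 13) (.e (nat_lit 65619) (nat_lit 10) (.e (nat_lit 344117) (nat_lit 21) (.e (nat_lit 516145) (nat_lit 9) (.e (nat_lit 426420) (nat_lit 15) (.e (nat_lit 2057) (nat_lit 142) (.e (nat_lit 704589) (nat_lit 3) .nil)))))))) (.g (nat_lit 1) (.e (nat_lit 171031) (nat_lit 0) .nil) .nil))))) 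
(.nd (nat_lit 8) (.nd (nat_lit 9) 
(.lf (nat_lit 500879) (.g (nat_lit 3479) (.e (nat_lit 163977) (nat_lit 30) (.e (nat_lit 573493) (nat_lit 15) (.e (nat_lit 81953) (nat_lit 22) (.e (nat_lit 90170) (nat_lit 13) (.e (nat_lit 172038) (nat_lit 0) (.e (nat_lit 3399) (nat_lit 211) (.e (nat_lit 647181) (nat_lit 3) .nil))))))) (.g (nat_lit 1) (.e (nat_lit 169832) (nat_lit 0) .nil) .nil))) 
(.lf (nat_lit 501391) (.g (nat_lit 3923) (.e (nat_lit 163978) (nat_lit 30) (.e (nat_lit 573485) (nat_lit 13) (.e (nat_lit 65604) (nat_lit 9) (.e (nat_lit 336028) (nat_lit 3) (.e (nat_lit 98359) (nat_lit 26) (.e (nat_lit 426043) (nat_lit 0) (.e (nat_lit 3408) (nat_lit 212) (.e (nat_lit 655373) (nat_lit 3) .nil)))))))) (.g (nat_lit 1) (.e (nat_lit 170849) (nat_lit 0) .nil) .nil)))) (.nd (nat_lit 9) 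
(.lf (nat_lit 501135) (.g (nat_lit 2373) (.e (nat_lit 163978) (nat_lit 30) (.e (nat_lit 573484) (nat_lit 13) (.e (nat_lit 65610) (nat_lit 10) (.e (nat_lit 344117) (nat_lit 21) (.e (nat_lit 516143) (nat_lit 9) (.e (nat_lit 426109) (nat_lit 1) (.e (nat_lit 164346) (nat_lit 240) (.e (nat_lit 2601) (nat_lit 163) .nil)))))))) (.g (nat_lit 1) (.e (nat_lit 170419) (nat_lit 0) .nil) .nil))) 
(.lf (nat_lit 501647) (.g (nat_lit 4079) (.e (nat_lit 163978) (nat_lit 30) (.e (nat_lit 573485) (nat_lit 13) (.e (nat_lit 65619) (nat_lit 10) (.e (nat_lit 344117) (nat_lit 21) (.e (nat_lit 516160) (nat_lit 10) (.e (nat_lit 434202) (nat_lit 18) (.e (nat_lit 5537) (nat_lit 306) (.e (nat_lit 2610) (nat_lit 163) .nil)))))))) (.g (nat_lit 1) (.e (nat_lit 171164) (nat_lit 0) .nil) .nil)))))) 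
(.nd (nat_lit 7) (.nd (nat_lit 8) (.nd (nat_lit 9) 
(.lf (nat_lit 500815) (.g (nat_lit 3832) (.e (nat_lit 163977) (nat_lit 30) (.e (nat_lit 573492) (nat_lit 15) (.e (nat_lit 81956) (nat_lit 23) (.e (nat_lit 98361) (nat_lit 26) .nil)))) (.g (nat_lit 0) (.e (nat_lit 169598) (nat_lit 0) .nil) .nil))) 
(.lf (nat_lit 501327) (.g (nat_lit 4390) (.e (nat_lit 163978) (nat_lit 30) (.e (nat_lit 573485) (nat_lit 13) (.e (nat_lit 65604) (nat_lit 9) (.e (nat_lit 336013) (nat_lit 2) (.e (nat_lit 90170) (nat_lit 13) (.e (nat_lit 172060) (nat_lit 1) (.e (nat_lit 164348) (nat_lit 240) (.e (nat_lit 2610) (nat_lit 163) .nil)))))))) (.g (nat_lit 1) (.e (nat_lit 170770) (nat_lit 0) .nil) .nil)))) 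
(.nd (nat_lit 9) 
(.lf (nat_lit 501071) (.g (nat_lit 2990) (.e (nat_lit 163978) (nat_lit 30) (.e (nat_lit 573479) (nat_lit 13) (.e (nat_lit 65619) (nat_lit 10) (.e (nat_lit 344117) (nat_lit 21) (.e (nat_lit 516151) (nat_lit 9) (.e (nat_lit 426104) (nat_lit 1) (.e (nat_lit 164345) (nat_lit 240) (.e (nat_lit 2601) (nat_lit 163) .nil)))))))) (.g (nat_lit 1) (.e (nat_lit 170336) (nat_lit 0) .nil) .nil))) 
(.lf (nat_lit 501583) (.g (nat_lit 2546) (.e (nat_lit 163978) (nat_lit 30) (.e (nat_lit 573485) (nat_lit 13) (.e (nat_lit 65619) (nat_lit 10) (.e (nat_lit 344117) (nat_lit 21) (.e (nat_lit 516151) (nat_lit 9) (.e (nat_lit 426142) (nat_lit 4) (.e (nat_lit 229664) (nat_lit 240) (.e (nat_lit 2598) (nat_lit 163) .nil)))))))) (.g (nat_lit 1) (.e (nat_lit 171095) (nat_lit 0) .nil) .nil))))) 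
(.nd (nat_lit 8) (.nd (nat_lit 9) 
(.lf (nat_lit 500943) (.g (nat_lit 3323) (.e (nat_lit 163977) (nat_lit 30) (.e (nat_lit 573493) (nat_lit 15) (.e (nat_lit 81956) (nat_lit 23) (.e (nat_lit 98355) (nat_lit 26) (.e (nat_lit 426444) (nat_lit 19) (.e (nat_lit 114432) (nat_lit 3) .nil)))))) (.g (nat_lit 1) (.e (nat_lit 170017) (nat_lit 0) .nil) .nil))) 
(.lf (nat_lit 501455) (.g (nat_lit 4706) (.e (nat_lit 163978) (nat_lit 30) (.e (nat_lit 573485) (nat_lit 13) (.e (nat_lit 65604) (nat_lit 9) (.e (nat_lit 336028) (nat_lit 3) (.e (nat_lit 98386) (nat_lit 32) (.e (nat_lit 475199) (nat_lit 40) (.e (nat_lit 704589) (nat_lit 3) .nil))))))) (.g (nat_lit 1) (.e (nat_lit 170959) (nat_lit 0) .nil) .nil)))) (.nd (nat_lit 9) 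
(.lf (nat_lit 501199) (.g (nat_lit 4029) (.e (nat_lit 163978) (nat_lit 30) (.e (nat_lit 573484) (nat_lit 13) (.e (nat_lit 65610) (nat_lit 10) (.e (nat_lit 344117) (nat_lit 21) (.e (nat_lit 516151) (nat_lit 9) (.e (nat_lit 426041) (nat_lit 0) (.e (nat_lit 3406) (nat_lit 212) (.e (nat_lit 655375) (nat_lit 3) .nil)))))))) (.g (nat_lit 1) (.e (nat_lit 170528) (nat_lit 0) .nil) .nil))) 
(.lf (nat_lit 501711) (.g (nat_lit 3598) (.e (nat_lit 163978) (nat_lit 30) (.e (nat_lit 573485) (nat_lit 13) (.e (nat_lit 65619) (nat_lit 10) (.e (nat_lit 344119) (nat_lit 21) (.e (nat_lit 516179) (nat_lit 15) (.e (nat_lit 475199) (nat_lit 40) (.e (nat_lit 704589) (nat_lit 3) .nil))))))) (.g (nat_lit 1) (.e (nat_lit 171237) (nat_lit 0) .nil) .nil))))))) 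
(.nd (nat_lit 6) (.nd (nat_lit 7) (.nd (nat_lit 8) (.nd (nat_lit 9) 
(.lf (nat_lit 500783) (.g (nat_lit 2096) (.e (nat_lit 163977) (nat_lit 30) (.e (nat_lit 573491) (nat_lit 15) (.e (nat_lit 81955) (nat_lit 23) (.e (nat_lit 98358) (nat_lit 26) (.e (nat_lit 426444) (nat_lit 19) (.e (nat_lit 114432) (nat_lit 3) .nil)))))) (.g (nat_lit 1) (.e (nat_lit 169508) (nat_lit 0) .nil) .nil))) 
(.lf (nat_lit 501295) (.g (nat_lit 4164) (.e (nat_lit 163978) (nat_lit 30) (.e (nat_lit 573485) (nat_lit 13) (.e (nat_lit 65604) (nat_lit 9) (.e (nat_lit 336013) (nat_lit 2) (.e (nat_lit 90170) (nat_lit 13) (.e (nat_lit 172042) (nat_lit 0) (.e (nat_lit 3408) (nat_lit 212) (.e (nat_lit 655373) (nat_lit 3) .nil)))))))) (.g (nat_lit 1) (.e (nat_lit 170737) (nat_lit 0) .nil) .nil)))) (.nd (nat_lit 9) 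
(.lf (nat_lit 501039) (.g (nat_lit 2721) (.e (nat_lit 163978) (nat_lit 30) (.e (nat_lit 573479) (nat_lit 13) (.e (nat_lit 65619) (nat_lit 10) (.e (nat_lit 344117) (nat_lit 21) (.e (nat_lit 516143) (nat_lit 9) (.e (nat_lit 426109) (nat_lit 1) (.e (nat_lit 164347) (nat_lit 240) (.e (nat_lit 2599) (nat_lit 163) .nil)))))))) (.g (nat_lit 1) (.e (nat_lit 170304) (nat_lit 0) .nil) .nil))) 
(.lf (nat_lit 501551) (.g (nat_lit 3743) (.e (nat_lit 163978) (nat_lit 30) (.e (nat_lit 573485) (nat_lit 13) (.e (nat_lit 65619) (nat_lit 10) (.e (nat_lit 344117) (nat_lit 21) (.e (nat_lit 516151) (nat_lit 9) (.e (nat_lit 426042) (nat_lit 0) (.e (nat_lit 3406) (nat_lit 212) (.e (nat_lit 655373) (nat_lit 3) .nil)))))))) (.g (nat_lit 1) (.e (nat_lit 171063) (nat_lit 0) .nil) .nil))))) 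
(.nd (nat_lit 8) (.nd (nat_lit 9) 
(.lf (nat_lit 500911) (.g (nat_lit 2187) (.e (nat_lit 163977) (nat_lit 30) (.e (nat_lit 573493) (nat_lit 15) (.e (nat_lit 81954) (nat_lit 23) (.e (nat_lit 98354) (nat_lit 26) .nil)))) (.g (nat_lit 0) (.e (nat_lit 169910) (nat_lit 0) .nil) .nil))) 
(.lf (nat_lit 501423) (.g (nat_lit 3529) (.e (nat_lit 163978) (nat_lit 30) (.e (nat_lit 573485) (nat_lit 13) (.e (nat_lit 65604) (nat_lit 9) (.e (nat_lit 336028) (nat_lit 3) (.e (nat_lit 98366) (nat_lit 27) (.e (nat_lit 434209) (nat_lit 18) (.e (nat_lit 5547) (nat_lit 306) (.e (nat_lit 2601) (nat_lit 163) .nil)))))))) (.g (nat_lit 1) (.e (nat_lit 170915) (nat_lit 0) .nil) .nil)))) 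
(.nd (nat_lit 9) 
(.lf (nat_lit 501167) (.g (nat_lit 3377) (.e (nat_lit 163978) (nat_lit 30) (.e (nat_lit 573484) (nat_lit 13) (.e (nat_lit 65610) (nat_lit 10) (.e (nat_lit 344117) (nat_lit 21) (.e (nat_lit 516147) (nat_lit 9) (.e (nat_lit 426442) (nat_lit 19) (.e (nat_lit 114432) (nat_lit 3) .nil))))))) (.g (nat_lit 1) (.e (nat_lit 170479) (nat_lit 0) .nil) .nil))) 
(.lf (nat_lit 501679) (.g (nat_lit 4734) (.e (nat_lit 163978) (nat_lit 30) (.e (nat_lit 573485) (nat_lit 13) (.e (nat_lit 65619) (nat_lit 10) (.e (nat_lit 344117) (nat_lit 21) (.e (nat_lit 516170) (nat_lit 13) (.e (nat_lit 458774) (nat_lit 18) (.e (nat_lit 5547) (nat_lit 306) (.e (nat_lit 2599) (nat_lit 163) .nil)))))))) (.g (nat_lit 1) (.e (nat_lit 171203) (nat_lit 0) .nil) .nil)))))) 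
(.nd (nat_lit 7) (.nd (nat_lit 8) (.nd (nat_lit 9) 
(.lf (nat_lit 500847) (.g (nat_lit 4132) (.e (nat_lit 163977) (nat_lit 30) (.e (nat_lit 573493) (nat_lit 15) (.e (nat_lit 81951) (nat_lit 22) (.e (nat_lit 90170) (nat_lit 13) (.e (nat_lit 172038) (nat_lit 0) .nil))))) (.g (nat_lit 0) (.e (nat_lit 169698) (nat_lit 0) .nil) .nil))) 
(.lf (nat_lit 501359) (.g (nat_lit 4018) (.e (nat_lit 163978) (nat_lit 30) (.e (nat_lit 573485) (nat_lit 13) (.e (nat_lit 65604) (nat_lit 9) (.e (nat_lit 336013) (nat_lit 2) (.e (nat_lit 90170) (nat_lit 13) (.e (nat_lit 172136) (nat_lit 15) (.e (nat_lit 2056) (nat_lit 142) (.e (nat_lit 704589) (nat_lit 3) .nil)))))))) (.g (nat_lit 1) (.e (nat_lit 170804) (nat_lit 0) .nil) .nil)))) 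
(.nd (nat_lit 9) 
(.lf (nat_lit 501103) (.g (nat_lit 3117) (.e (nat_lit 163978) (nat_lit 30) (.e (nat_lit 573479) (nat_lit 13) (.e (nat_lit 65619) (nat_lit 10) (.e (nat_lit 344117) (nat_lit 21) (.e (nat_lit 516170) (nat_lit 13) (.e (nat_lit 458774) (nat_lit 18) (.e (nat_lit 5548) (nat_lit 306) (.e (nat_lit 2599) (nat_lit 163) .nil)))))))) (.g (nat_lit 1) (.e (nat_lit 170368) (nat_lit 0) .nil) .nil))) 
(.lf (nat_lit 501615) (.g (nat_lit 2458) (.e (nat_lit 163978) (nat_lit 30) (.e (nat_lit 573485) (nat_lit 13) (.e (nat_lit 65619) (nat_lit 10) (.e (nat_lit 344117) (nat_lit 21) (.e (nat_lit 516153) (nat_lit 9) (.e (nat_lit 426109) (nat_lit 1) (.e (nat_lit 164345) (nat_lit 240) (.e (nat_lit 2599) (nat_lit 163) .nil)))))))) (.g (nat_lit 1) (.e (nat_lit 171127) (nat_lit 0) .nil) .nil))))) 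
(.nd (nat_lit 8) (.nd (nat_lit 9) 
(.lf (nat_lit 500975) (.g (nat_lit 2939) (.e (nat_lit 163977) (nat_lit 30) (.e (nat_lit 573493) (nat_lit 15) (.e (nat_lit 81956) (nat_lit 23) (.e (nat_lit 98359) (nat_lit 26) (.e (nat_lit 426142) (nat_lit 4) (.e (nat_lit 229666) (nat_lit 240) (.e (nat_lit 2604) (nat_lit 163) .nil))))))) (.g (nat_lit 1) (.e (nat_lit 170091) (nat_lit 0) .nil) .nil))) 
(.lf (nat_lit 501487) (.g (nat_lit 3680) (.e (nat_lit 163978) (nat_lit 30) (.e (nat_lit 573485) (nat_lit 13) (.e (nat_lit 65619) (nat_lit 10) (.e (nat_lit 344117) (nat_lit 21) (.e (nat_lit 516144) (nat_lit 9) (.e (nat_lit 426376) (nat_lit 15) (.e (nat_lit 2059) (nat_lit 142) (.e (nat_lit 704589) (nat_lit 3) .nil)))))))) (.g (nat_lit 1) (.e (nat_lit 170999) (nat_lit 0) .nil) .nil)))) 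
(.nd (nat_lit 9) 
(.lf (nat_lit 501231) (.g (nat_lit 3904) (.e (nat_lit 163978) (nat_lit 30) (.e (nat_lit 573484) (nat_lit 13) (.e (nat_lit 65610) (nat_lit 10) (.e (nat_lit 344117) (nat_lit 21) (.e (nat_lit 516151) (nat_lit 9) (.e (nat_lit 426465) (nat_lit 24) (.e (nat_lit 163584) (nat_lit 3) .nil))))))) (.g (nat_lit 1) (.e (nat_lit 170601) (nat_lit 0) .nil) .nil))) 
(.lf (nat_lit 501743) (.g (nat_lit 3118) (.e (nat_lit 163978) (nat_lit 30) (.e (nat_lit 573489) (nat_lit 14) (.e (nat_lit 73754) (nat_lit 8) (.e (nat_lit 557100) (nat_lit 13) (.e (nat_lit 172065) (nat_lit 3) (.e (nat_lit 204817) (nat_lit 17) (.e (nat_lit 2272) (nat_lit 149) (.e (nat_lit 761898) (nat_lit 15) .nil)))))))) (.g (nat_lit 1) (.e (nat_lit 171399) (nat_lit 0) .nil) .nil)))))))) 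
(.nd (nat_lit 5) (.nd (nat_lit 6) (.nd (nat_lit 7) (.nd (nat_lit 8) (.nd (nat_lit 9) 
(.lf (nat_lit 500767) (.g (nat_lit 1943) (.e (nat_lit 163977) (nat_lit 30) (.e (nat_lit 573491) (nat_lit 15) (.e (nat_lit 81954) (nat_lit 23) (.e (nat_lit 98363) (nat_lit 26) (.e (nat_lit 426443) (nat_lit 19) .nil))))) (.g (nat_lit 0) (.e (nat_lit 169446) (nat_lit 0) .nil) .nil))) 
(.lf (nat_lit 501279) (.g (nat_lit 2701) (.e (nat_lit 163978) (nat_lit 30) (.e (nat_lit 573485) (nat_lit 13) (.e (nat_lit 65604) (nat_lit 9) (.e (nat_lit 336013) (nat_lit 2) (.e (nat_lit 90170) (nat_lit 13) (.e (nat_lit 172033) (nat_lit 0) (.e (nat_lit 3401) (nat_lit 211) (.e (nat_lit 647180) (nat_lit 3) .nil)))))))) (.g (nat_lit 1) (.e (nat_lit 170720) (nat_lit 0) .nil) .nil)))) (.nd (nat_lit 9) 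
(.lf (nat_lit 501023) (.g (nat_lit 4229) (.e (nat_lit 163977) (nat_lit 30) (.e (nat_lit 573493) (nat_lit 15) (.e (nat_lit 81956) (nat_lit 23) (.e (nat_lit 98384) (nat_lit 32) (.e (nat_lit 475204) (nat_lit 40) .nil))))) (.g (nat_lit 0) (.e (nat_lit 170242) (nat_lit 0) .nil) .nil))) 
(.lf (nat_lit 501535) (.g (nat_lit 3444) (.e (nat_lit 163978) (nat_lit 30) (.e (nat_lit 573485) (nat_lit 13) (.e (nat_lit 65619) (nat_lit 10) (.e (nat_lit 344117) (nat_lit 21) (.e (nat_lit 516151) (nat_lit 9) (.e (nat_lit 426003) (nat_lit 0) (.e (nat_lit 3402) (nat_lit 211) (.e (nat_lit 647180) (nat_lit 3) .nil)))))))) (.g (nat_lit 1) (.e (nat_lit 171047) (nat_lit 0) .nil) .nil))))) 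
(.nd (nat_lit 8) (.nd (nat_lit 9) 
(.lf (nat_lit 500895) (.g (nat_lit 2895) (.e (nat_lit 163977) (nat_lit 30) (.e (nat_lit 573493) (nat_lit 15) (.e (nat_lit 81953) (nat_lit 22) (.e (nat_lit 90170) (nat_lit 13) (.e (nat_lit 172068) (nat_lit 4) (.e (nat_lit 229666) (nat_lit 240) (.e (nat_lit 2604) (nat_lit 163) .nil))))))) (.g (nat_lit 1) (.e (nat_lit 169867) (nat_lit 0) .nil) .nil))) 
(.lf (nat_lit 501407) (.g (nat_lit 2887) (.e (nat_lit 163978) (nat_lit 30) (.e (nat_lit 573485) (nat_lit 13) (.e (nat_lit 65604) (nat_lit 9) (.e (nat_lit 336028) (nat_lit 3) (.e (nat_lit 98361) (nat_lit 26) (.e (nat_lit 426412) (nat_lit 15) (.e (nat_lit 2059) (nat_lit 142) (.e (nat_lit 704589) (nat_lit 3) .nil)))))))) (.g (nat_lit 1) (.e (nat_lit 170891) (nat_lit 0) .nil) .nil)))) 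
(.nd (nat_lit 9) 
(.lf (nat_lit 501151) (.g (nat_lit 2965) (.e (nat_lit 163978) (nat_lit 30) (.e (nat_lit 573484) (nat_lit 13) (.e (nat_lit 65610) (nat_lit 10) (.e (nat_lit 344117) (nat_lit 21) (.e (nat_lit 516145) (nat_lit 9) (.e (nat_lit 433920) (nat_lit 1) (.e (nat_lit 164345) (nat_lit 240) (.e (nat_lit 2610) (nat_lit 163) .nil)))))))) (.g (nat_lit 1) (.e (nat_lit 170452) (nat_lit 0) .nil) .nil))) 
(.lf (nat_lit 501663) (.g (nat_lit 2444) (.e (nat_lit 163978) (nat_lit 30) (.e (nat_lit 573485) (nat_lit 13) (.e (nat_lit 65619) (nat_lit 10) (.e (nat_lit 344117) (nat_lit 21) (.e (nat_lit 516161) (nat_lit 10) (.e (nat_lit 434209) (nat_lit 18) (.e (nat_lit 5546) (nat_lit 306) (.e (nat_lit 2599) (nat_lit 163) .nil)))))))) (.g (nat_lit 1) (.e (nat_lit 171184) (nat_lit 0) .nil) .nil)))))) 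
(.nd (nat_lit 7) (.nd (nat_lit 8) (.nd (nat_lit 9) 
(.lf (nat_lit 500831) (.g (nat_lit 1749) (.e (nat_lit 163977) (nat_lit 30) (.e (nat_lit 573492) (nat_lit 15) (.e (nat_lit 81956) (nat_lit 23) (.e (nat_lit 98385) (nat_lit 32) .nil)))) (.g (nat_lit 0) (.e (nat_lit 169629) (nat_lit 0) .nil) .nil))) 
(.lf (nat_lit 501343) (.g (nat_lit 2132) (.e (nat_lit 163978) (nat_lit 30) (.e (nat_lit 573485) (nat_lit 13) (.e (nat_lit 65604) (nat_lit 9) (.e (nat_lit 336013) (nat_lit 2) (.e (nat_lit 90170) (nat_lit 13) (.e (nat_lit 172068) (nat_lit 4) (.e (nat_lit 229666) (nat_lit 240) (.e (nat_lit 2598) (nat_lit 163) .nil)))))))) (.g (nat_lit 1) (.e (nat_lit 170788) (nat_lit 0) .nil) .nil)))) 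
(.nd (nat_lit 9) 
(.lf (nat_lit 501087) (.g (nat_lit 3079) (.e (nat_lit 163978) (nat_lit 30) (.e (nat_lit 573479) (nat_lit 13) (.e (nat_lit 65619) (nat_lit 10) (.e (nat_lit 344117) (nat_lit 21) (.e (nat_lit 516159) (nat_lit 10) (.e (nat_lit 434271) (nat_lit 38) (.e (nat_lit 655373) (nat_lit 3) .nil))))))) (.g (nat_lit 1) (.e (nat_lit 170352) (nat_lit 0) .nil) .nil))) 
(.lf (nat_lit 501599) (.g (nat_lit 3289) (.e (nat_lit 163978) (nat_lit 30) (.e (nat_lit 573485) (nat_lit 13) (.e (nat_lit 65619) (nat_lit 10) (.e (nat_lit 344117) (nat_lit 21) (.e (nat_lit 516151) (nat_lit 9) (.e (nat_lit 433920) (nat_lit 24) (.e (nat_lit 163584) (nat_lit 3) .nil))))))) (.g (nat_lit 1) (.e (nat_lit 171111) (nat_lit 0) .nil) .nil))))) (.nd (nat_lit 8) (.nd (nat_lit 9) 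
(.lf (nat_lit 500959) (.g (nat_lit 2348) (.e (nat_lit 163977) (nat_lit 30) (.e (nat_lit 573493) (nat_lit 15) (.e (nat_lit 81956) (nat_lit 23) (.e (nat_lit 98359) (nat_lit 26) (.e (nat_lit 426003) (nat_lit 0) .nil))))) (.g (nat_lit 0) (.e (nat_lit 170045) (nat_lit 0) .nil) .nil))) 
(.lf (nat_lit 501471) (.g (nat_lit 2237) (.e (nat_lit 163978) (nat_lit 30) (.e (nat_lit 573485) (nat_lit 13) (.e (nat_lit 65619) (nat_lit 10) (.e (nat_lit 344117) (nat_lit 21) (.e (nat_lit 516143) (nat_lit 9) (.e (nat_lit 426109) (nat_lit 1) (.e (nat_lit 164346) (nat_lit 240) (.e (nat_lit 2598) (nat_lit 163) .nil)))))))) (.g (nat_lit 1) (.e (nat_lit 170983) (nat_lit 0) .nil) .nil)))) 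
(.nd (nat_lit 9) 
(.lf (nat_lit 501215) (.g (nat_lit 2235) (.e (nat_lit 163978) (nat_lit 30) (.e (nat_lit 573484) (nat_lit 13) (.e (nat_lit 65610) (nat_lit 10) (.e (nat_lit 344117) (nat_lit 21) (.e (nat_lit 516151) (nat_lit 9) (.e (nat_lit 426043) (nat_lit 0) (.e (nat_lit 3408) (nat_lit 212) (.e (nat_lit 655374) (nat_lit 3) .nil)))))))) (.g (nat_lit 1) (.e (nat_lit 170557) (nat_lit 0) .nil) .nil))) 
(.lf (nat_lit 501727) (.g (nat_lit 2898) (.e (nat_lit 163978) (nat_lit 30) (.e (nat_lit 573487) (nat_lit 14) (.e (nat_lit 73753) (nat_lit 8) (.e (nat_lit 557103) (nat_lit 14) (.e (nat_lit 180251) (nat_lit 10) (.e (nat_lit 573475) (nat_lit 12) (.e (nat_lit 57503) (nat_lit 38) (.e (nat_lit 638996) (nat_lit 7) .nil)))))))) (.g (nat_lit 1) (.e (nat_lit 171368) (nat_lit 0) .nil) .nil))))))) 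
(.nd (nat_lit 6) (.nd (nat_lit 7) (.nd (nat_lit 8) (.nd (nat_lit 9) 
(.lf (nat_lit 500799) (.g (nat_lit 162) (.e (nat_lit 163977) (nat_lit 30) (.e (nat_lit 573492) (nat_lit 15) (.e (nat_lit 81956) (nat_lit 23) .nil))) (.g (nat_lit 0) (.e (nat_lit 169544) (nat_lit 0) .nil) .nil))) 
(.lf (nat_lit 501311) (.g (nat_lit 4142) (.e (nat_lit 163978) (nat_lit 30) (.e (nat_lit 573485) (nat_lit 13) (.e (nat_lit 65604) (nat_lit 9) (.e (nat_lit 336013) (nat_lit 2) (.e (nat_lit 90170) (nat_lit 13) (.e (nat_lit 172049) (nat_lit 0) (.e (nat_lit 3407) (nat_lit 212) (.e (nat_lit 655373) (nat_lit 3) .nil)))))))) (.g (nat_lit 1) (.e (nat_lit 170753) (nat_lit 0) .nil) .nil)))) (.nd (nat_lit 9) 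
(.lf (nat_lit 501055) (.g (nat_lit 4014) (.e (nat_lit 163978) (nat_lit 30) (.e (nat_lit 573479) (nat_lit 13) (.e (nat_lit 65619) (nat_lit 10) (.e (nat_lit 344117) (nat_lit 21) (.e (nat_lit 516151) (nat_lit 9) (.e (nat_lit 426039) (nat_lit 0) (.e (nat_lit 2458) (nat_lit 157) (.e (nat_lit 5547) (nat_lit 306) (.e (nat_lit 2610) (nat_lit 163) .nil))))))))) (.g (nat_lit 1) (.e (nat_lit 170320) (nat_lit 0) .nil) .nil))) 
(.lf (nat_lit 501567) (.g (nat_lit 2297) (.e (nat_lit 163978) (nat_lit 30) (.e (nat_lit 573485) (nat_lit 13) (.e (nat_lit 65619) (nat_lit 10) (.e (nat_lit 344117) (nat_lit 21) (.e (nat_lit 516151) (nat_lit 9) (.e (nat_lit 426097) (nat_lit 1) (.e (nat_lit 164346) (nat_lit 240) (.e (nat_lit 2598) (nat_lit 163) .nil)))))))) (.g (nat_lit 1) (.e (nat_lit 171079) (nat_lit 0) .nil) .nil))))) 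
(.nd (nat_lit 8) (.nd (nat_lit 9) 
(.lf (nat_lit 500927) (.g (nat_lit 3418) (.e (nat_lit 163977) (nat_lit 30) (.e (nat_lit 573493) (nat_lit 15) (.e (nat_lit 81954) (nat_lit 23) (.e (nat_lit 98365) (nat_lit 26) (.e (nat_lit 426024) (nat_lit 0) .nil))))) (.g (nat_lit 0) (.e (nat_lit 169942) (nat_lit 0) .nil) .nil))) 
(.lf (nat_lit 501439) (.g (nat_lit 2448) (.e (nat_lit 163978) (nat_lit 30) (.e (nat_lit 573485) (nat_lit 13) (.e (nat_lit 65604) (nat_lit 9) (.e (nat_lit 336028) (nat_lit 3) (.e (nat_lit 98367) (nat_lit 27) (.e (nat_lit 434270) (nat_lit 38) (.e (nat_lit 655373) (nat_lit 3) .nil))))))) (.g (nat_lit 1) (.e (nat_lit 170940) (nat_lit 0) .nil) .nil)))) (.nd (nat_lit 9) 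
(.lf (nat_lit 501183) (.g (nat_lit 3238) (.e (nat_lit 163978) (nat_lit 30) (.e (nat_lit 573484) (nat_lit 13) (.e (nat_lit 65610) (nat_lit 10) (.e (nat_lit 344117) (nat_lit 21) (.e (nat_lit 516151) (nat_lit 9) (.e (nat_lit 426022) (nat_lit 0) (.e (nat_lit 7936) (nat_lit 211) (.e (nat_lit 647180) (nat_lit 3) .nil)))))))) (.g (nat_lit 1) (.e (nat_lit 170495) (nat_lit 0) .nil) .nil))) 
(.lf (nat_lit 501695) (.g (nat_lit 4725) (.e (nat_lit 163978) (nat_lit 30) (.e (nat_lit 573485) (nat_lit 13) (.e (nat_lit 65619) (nat_lit 10) (.e (nat_lit 344117) (nat_lit 21) (.e (nat_lit 516179) (nat_lit 15) (.e (nat_lit 475197) (nat_lit 40) (.e (nat_lit 704589) (nat_lit 3) .nil))))))) (.g (nat_lit 1) (.e (nat_lit 171221) (nat_lit 0) .nil) .nil)))))) 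
(.nd (nat_lit 7) (.nd (nat_lit 8) (.nd (nat_lit 9) 
(.lf (nat_lit 500863) (.g (nat_lit 3216) (.e (nat_lit 163977) (nat_lit 30) (.e (nat_lit 573493) (nat_lit 15) (.e (nat_lit 81951) (nat_lit 22) (.e (nat_lit 90174) (nat_lit 14) (.e (nat_lit 180228) (nat_lit 0) .nil))))) (.g (nat_lit 0) (.e (nat_lit 169747) (nat_lit 0) .nil) .nil))) 
(.lf (nat_lit 501375) (.g (nat_lit 3429) (.e (nat_lit 163978) (nat_lit 30) (.e (nat_lit 573485) (nat_lit 13) (.e (nat_lit 65604) (nat_lit 9) (.e (nat_lit 336028) (nat_lit 3) (.e (nat_lit 98358) (nat_lit 26) (.e (nat_lit 426444) (nat_lit 19) (.e (nat_lit 114432) (nat_lit 3) .nil))))))) (.g (nat_lit 1) (.e (nat_lit 170827) (nat_lit 0) .nil) .nil)))) (.nd (nat_lit 9) 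
(.lf (nat_lit 501119) (.g (nat_lit 4932) (.e (nat_lit 163978) (nat_lit 30) (.e (nat_lit 573482) (nat_lit 13) (.e (nat_lit 65604) (nat_lit 9) (.e (nat_lit 336028) (nat_lit 3) (.e (nat_lit 98367) (nat_lit 27) (.e (nat_lit 434272) (nat_lit 38) (.e (nat_lit 655375) (nat_lit 3) .nil))))))) (.g (nat_lit 1) (.e (nat_lit 170384) (nat_lit 0) .nil) .nil))) 
(.lf (nat_lit 501631) (.g (nat_lit 2864) (.e (nat_lit 163978) (nat_lit 30) (.e (nat_lit 573485) (nat_lit 13) (.e (nat_lit 65619) (nat_lit 10) (.e (nat_lit 344117) (nat_lit 21) (.e (nat_lit 516159) (nat_lit 10) (.e (nat_lit 434209) (nat_lit 18) (.e (nat_lit 5546) (nat_lit 306) (.e (nat_lit 2601) (nat_lit 163) .nil)))))))) (.g (nat_lit 1) (.e (nat_lit 171147) (nat_lit 0) .nil) .nil))))) 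
(.nd (nat_lit 8) (.nd (nat_lit 9) 
(.lf (nat_lit 500991) (.g (nat_lit 5127) (.e (nat_lit 163977) (nat_lit 30) (.e (nat_lit 573493) (nat_lit 15) (.e (nat_lit 81956) (nat_lit 23) (.e (nat_lit 98365) (nat_lit 26) (.e (nat_lit 426106) (nat_lit 1) .nil))))) (.g (nat_lit 0) (.e (nat_lit 170121) (nat_lit 0) .nil) .nil))) 
(.lf (nat_lit 501503) (.g (nat_lit 3785) (.e (nat_lit 163978) (nat_lit 30) (.e (nat_lit 573485) (nat_lit 13) (.e (nat_lit 65619) (nat_lit 10) (.e (nat_lit 344117) (nat_lit 21) (.e (nat_lit 516145) (nat_lit 9) (.e (nat_lit 433920) (nat_lit 1) (.e (nat_lit 164348) (nat_lit 240) (.e (nat_lit 2611) (nat_lit 163) .nil)))))))) (.g (nat_lit 1) (.e (nat_lit 171015) (nat_lit 0) .nil) .nil)))) 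
(.nd (nat_lit 9) 
(.lf (nat_lit 501247) (.g (nat_lit 4510) (.e (nat_lit 163978) (nat_lit 30) (.e (nat_lit 573484) (nat_lit 13) (.e (nat_lit 65610) (nat_lit 10) (.e (nat_lit 344117) (nat_lit 21) (.e (nat_lit 516160) (nat_lit 10) (.e (nat_lit 434271) (nat_lit 38) (.e (nat_lit 655374) (nat_lit 3) .nil))))))) (.g (nat_lit 1) (.e (nat_lit 170652) (nat_lit 0) .nil) .nil))) 
(.lf (nat_lit 501759) (.g (nat_lit 3993) (.e (nat_lit 163978) (nat_lit 30) (.e (nat_lit 573489) (nat_lit 14) (.e (nat_lit 73754) (nat_lit 8) (.e (nat_lit 557100) (nat_lit 13) (.e (nat_lit 172067) (nat_lit 3) (.e (nat_lit 204817) (nat_lit 17) (.e (nat_lit 7936) (nat_lit 149) (.e (nat_lit 761898) (nat_lit 15) .nil)))))))) (.g (nat_lit 1) (.e (nat_lit 171429) (nat_lit 0) .nil) .nil)))))))))))))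


end

end Pool.Agent.Lib.MP_5854e1_co.Cz
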