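import Pool.Agent.Lib.MP_5854e1_co.DtD

/-!
# Windows and cells of the rings
-/

set_option autoImplicit false
set_option maxRecDepth 100000
set_option deprecated.oldSectionVars true

namespace Pool.Agent.Lib.MP_5854e1_co.Cz

open Pool.Agent.Lib.MP_5854e1_co

noncomputable section

noncomputable def tv5550 : DT := (.nd (nat_lit 0) (.nd (nat_lit 1) (.nd (nat_lit 2) (.nd (nat_lit 3) (.nd (nat_lit 4) (.nd (nat_lit 5) (.nd (nat_lit 6) (.nd (nat_lit 7) (.nd (nat_lit 8) (.nd (nat_lit 9) 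
(.lf (nat_lit 501760) (.g (nat_lit 2707) (.e (nat_lit 163978) (nat_lit 30) (.e (nat_lit 573489) (nat_lit 14) (.e (nat_lit 73754) (nat_lit 8) (.e (nat_lit 557100) (nat_lit 13) (.e (nat_lit 172067) (nat_lit 3) (.e (nat_lit 204821) (nat_lit 17) (.e (nat_lit 2264) (nat_lit 149) (.e (nat_lit 761899) (nat_lit 15) .nil)))))))) (.g (nat_lit 1) (.e (nat_lit 171430) (nat_lit 0) .nil) .nil))) 
(.lf (nat_lit 502272) (.g (nat_lit 5356) (.e (nat_lit 163979) (nat_lit 30) (.e (nat_lit 573482) (nat_lit 13) (.e (nat_lit 65604) (nat_lit 9) (.e (nat_lit 336013) (nat_lit 2) (.e (nat_lit 90170) (nat_lit 13) (.e (nat_lit 172138) (nat_lit 15) (.e (nat_lit 2058) (nat_lit 142) (.e (nat_lit 704589) (nat_lit 3) .nil)))))))) (.g (nat_lit 1) (.e (nat_lit 173160) (nat_lit 0) .nil) .nil)))) 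
(.nd (nat_lit 9) 
(.lf (nat_lit 502016) (.g (nat_lit 4350) (.e (nat_lit 163978) (nat_lit 30) (.e (nat_lit 573489) (nat_lit 14) (.e (nat_lit 73755) (nat_lit 8) (.e (nat_lit 557105) (nat_lit 14) (.e (nat_lit 180245) (nat_lit 5) (.e (nat_lit 532499) (nat_lit 1) (.e (nat_lit 57657) (nat_lit 152) (.e (nat_lit 2606) (nat_lit 163) .nil)))))))) (.g (nat_lit 1) (.e (nat_lit 172319) (nat_lit 0) .nil) .nil))) 
(.lf (nat_lit 502528) (.g (nat_lit 3294) (.e (nat_lit 163979) (nat_lit 30) (.e (nat_lit 573482) (nat_lit 13) (.e (nat_lit 65619) (nat_lit 10) (.e (nat_lit 344117) (nat_lit 21) (.e (nat_lit 516153) (nat_lit 9) (.e (nat_lit 426412) (nat_lit 15) (.e (nat_lit 2059) (nat_lit 142) (.e (nat_lit 704589) (nat_lit 3) .nil)))))))) (.g (nat_lit 1) (.e (nat_lit 173464) (nat_lit 0) .nil) .nil))))) 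
(.nd (nat_lit 8) (.nd (nat_lit 9) 
(.lf (nat_lit 501888) (.g (nat_lit 3236) (.e (nat_lit 163978) (nat_lit 30) (.e (nat_lit 573489) (nat_lit 14) (.e (nat_lit 73755) (nat_lit 8) (.e (nat_lit 557098) (nat_lit 13) (.e (nat_lit 172067) (nat_lit 3) (.e (nat_lit 204816) (nat_lit 17) (.e (nat_lit 2273) (nat_lit 149) (.e (nat_lit 761897) (nat_lit 15) .nil)))))))) (.g (nat_lit 1) (.e (nat_lit 171777) (nat_lit 0) .nil) .nil))) 
(.lf (nat_lit 502400) (.g (nat_lit 2506) (.e (nat_lit 163979) (nat_lit 30) (.e (nat_lit 573482) (nat_lit 13) (.e (nat_lit 65619) (nat_lit 10) (.e (nat_lit 344117) (nat_lit 21) (.e (nat_lit 516143) (nat_lit 9) (.e (nat_lit 426465) (nat_lit 24) (.e (nat_lit 163584) (nat_lit 3) .nil))))))) (.g (nat_lit 1) (.e (nat_lit 173336) (nat_lit 0) .nil) .nil)))) (.nd (nat_lit 9) 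
(.lf (nat_lit 502144) (.g (nat_lit 3763) (.e (nat_lit 163978) (nat_lit 30) (.e (nat_lit 573493) (nat_lit 15) (.e (nat_lit 81956) (nat_lit 23) (.e (nat_lit 98362) (nat_lit 26) .nil)))) (.g (nat_lit 0) (.e (nat_lit 172926) (nat_lit 0) .nil) .nil))) 
(.lf (nat_lit 502656) (.g (nat_lit 3328) (.e (nat_lit 163979) (nat_lit 30) (.e (nat_lit 573487) (nat_lit 14) (.e (nat_lit 73753) (nat_lit 8) (.e (nat_lit 557098) (nat_lit 13) (.e (nat_lit 172065) (nat_lit 3) (.e (nat_lit 204817) (nat_lit 17) (.e (nat_lit 7936) (nat_lit 149) (.e (nat_lit 761894) (nat_lit 15) .nil)))))))) (.g (nat_lit 1) (.e (nat_lit 173662) (nat_lit 0) .nil) .nil)))))) 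
(.nd (nat_lit 7) (.nd (nat_lit 8) (.nd (nat_lit 9) 
(.lf (nat_lit 501824) (.g (nat_lit 3857) (.e (nat_lit 163978) (nat_lit 30) (.e (nat_lit 573489) (nat_lit 14) (.e (nat_lit 73755) (nat_lit 8) (.e (nat_lit 557097) (nat_lit 13) (.e (nat_lit 172065) (nat_lit 3) (.e (nat_lit 204817) (nat_lit 17) (.e (nat_lit 2272) (nat_lit 149) (.e (nat_lit 761899) (nat_lit 15) .nil)))))))) (.g (nat_lit 1) (.e (nat_lit 171612) (nat_lit 0) .nil) .nil))) 
(.lf (nat_lit 502336) (.g (nat_lit 4398) (.e (nat_lit 163979) (nat_lit 30) (.e (nat_lit 573482) (nat_lit 13) (.e (nat_lit 65604) (nat_lit 9) (.e (nat_lit 336028) (nat_lit 3) (.e (nat_lit 98366) (nat_lit 27) (.e (nat_lit 434209) (nat_lit 18) (.e (nat_lit 5548) (nat_lit 306) (.e (nat_lit 2601) (nat_lit 163) .nil)))))))) (.g (nat_lit 1) (.e (nat_lit 173254) (nat_lit 0) .nil) .nil)))) 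
(.nd (nat_lit 9) 
(.lf (nat_lit 502080) (.g (nat_lit 1998) (.e (nat_lit 163978) (nat_lit 30) (.e (nat_lit 573490) (nat_lit 15) (.e (nat_lit 81956) (nat_lit 23) (.e (nat_lit 106240) (nat_lit 26) .nil)))) (.g (nat_lit 0) (.e (nat_lit 172726) (nat_lit 0) .nil) .nil))) 
(.lf (nat_lit 502592) (.g (nat_lit 2236) (.e (nat_lit 163979) (nat_lit 30) (.e (nat_lit 573482) (nat_lit 13) (.e (nat_lit 65619) (nat_lit 10) (.e (nat_lit 344117) (nat_lit 21) (.e (nat_lit 516170) (nat_lit 13) .nil))))) (.g (nat_lit 0) (.e (nat_lit 173529) (nat_lit 0) .nil) .nil))))) (.nd (nat_lit 8) (.nd (nat_lit 9) 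
(.lf (nat_lit 501952) (.g (nat_lit 3547) (.e (nat_lit 163978) (nat_lit 30) (.e (nat_lit 573489) (nat_lit 14) (.e (nat_lit 73755) (nat_lit 8) (.e (nat_lit 557104) (nat_lit 14) (.e (nat_lit 180242) (nat_lit 5) (.e (nat_lit 532481) (nat_lit 0) (.e (nat_lit 2271) (nat_lit 149) (.e (nat_lit 761898) (nat_lit 15) .nil)))))))) (.g (nat_lit 1) (.e (nat_lit 172032) (nat_lit 0) .nil) .nil))) 
(.lf (nat_lit 502464) (.g (nat_lit 4387) (.e (nat_lit 163979) (nat_lit 30) (.e (nat_lit 573482) (nat_lit 13) (.e (nat_lit 65619) (nat_lit 10) (.e (nat_lit 344117) (nat_lit 21) (.e (nat_lit 516151) (nat_lit 9) (.e (nat_lit 426042) (nat_lit 0) (.e (nat_lit 2458) (nat_lit 157) (.e (nat_lit 5547) (nat_lit 306) (.e (nat_lit 2599) (nat_lit 163) .nil))))))))) (.g (nat_lit 1) (.e (nat_lit 173400) (nat_lit 0) .nil) .nil)))) 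
(.nd (nat_lit 9) 
(.lf (nat_lit 502208) (.g (nat_lit 2448) (.e (nat_lit 163979) (nat_lit 30) (.e (nat_lit 573482) (nat_lit 13) (.e (nat_lit 65604) (nat_lit 9) (.e (nat_lit 336013) (nat_lit 2) (.e (nat_lit 90170) (nat_lit 13) (.e (nat_lit 172042) (nat_lit 0) (.e (nat_lit 3406) (nat_lit 212) (.e (nat_lit 655374) (nat_lit 3) .nil)))))))) (.g (nat_lit 1) (.e (nat_lit 173093) (nat_lit 0) .nil) .nil))) 
(.lf (nat_lit 502720) (.g (nat_lit 3386) (.e (nat_lit 163979) (nat_lit 30) (.e (nat_lit 573487) (nat_lit 14) (.e (nat_lit 73753) (nat_lit 8) (.e (nat_lit 557105) (nat_lit 14) (.e (nat_lit 180251) (nat_lit 10) (.e (nat_lit 573478) (nat_lit 12) (.e (nat_lit 57500) (nat_lit 37) (.e (nat_lit 630800) (nat_lit 7) .nil)))))))) (.g (nat_lit 1) (.e (nat_lit 173826) (nat_lit 0) .nil) .nil))))))) 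
(.nd (nat_lit 6) (.nd (nat_lit 7) (.nd (nat_lit 8) (.nd (nat_lit 9) 
(.lf (nat_lit 501792) (.g (nat_lit 2961) (.e (nat_lit 163978) (nat_lit 30) (.e (nat_lit 573489) (nat_lit 14) (.e (nat_lit 73754) (nat_lit 8) (.e (nat_lit 557103) (nat_lit 14) (.e (nat_lit 180243) (nat_lit 5) (.e (nat_lit 532484) (nat_lit 0) (.e (nat_lit 2272) (nat_lit 149) (.e (nat_lit 761899) (nat_lit 15) .nil)))))))) (.g (nat_lit 1) (.e (nat_lit 171514) (nat_lit 0) .nil) .nil))) 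
(.lf (nat_lit 502304) (.g (nat_lit 3930) (.e (nat_lit 163979) (nat_lit 30) (.e (nat_lit 573482) (nat_lit 13) (.e (nat_lit 65604) (nat_lit 9) (.e (nat_lit 336028) (nat_lit 3) (.e (nat_lit 98359) (nat_lit 26) (.e (nat_lit 426097) (nat_lit 1) (.e (nat_lit 164348) (nat_lit 240) (.e (nat_lit 2601) (nat_lit 163) .nil)))))))) (.g (nat_lit 1) (.e (nat_lit 173206) (nat_lit 0) .nil) .nil)))) 
(.nd (nat_lit 9) 
(.lf (nat_lit 502048) (.g (nat_lit 3553) (.e (nat_lit 163978) (nat_lit 30) (.e (nat_lit 573489) (nat_lit 14) (.e (nat_lit 73755) (nat_lit 8) (.e (nat_lit 557105) (nat_lit 14) (.e (nat_lit 180252) (nat_lit 10) (.e (nat_lit 573474) (nat_lit 12) (.e (nat_lit 65280) (nat_lit 37) (.e (nat_lit 630799) (nat_lit 7) .nil)))))))) (.g (nat_lit 1) (.e (nat_lit 172687) (nat_lit 0) .nil) .nil))) 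
(.lf (nat_lit 502560) (.g (nat_lit 3530) (.e (nat_lit 163979) (nat_lit 30) (.e (nat_lit 573482) (nat_lit 13) (.e (nat_lit 65619) (nat_lit 10) (.e (nat_lit 344117) (nat_lit 21) (.e (nat_lit 516160) (nat_lit 10) (.e (nat_lit 434209) (nat_lit 18) (.e (nat_lit 5546) (nat_lit 306) (.e (nat_lit 2601) (nat_lit 163) .nil)))))))) (.g (nat_lit 1) (.e (nat_lit 173497) (nat_lit 0) .nil) .nil))))) 
(.nd (nat_lit 8) (.nd (nat_lit 9) 
(.lf (nat_lit 501920) (.g (nat_lit 4033) (.e (nat_lit 163978) (nat_lit 30) (.e (nat_lit 573489) (nat_lit 14) (.e (nat_lit 73755) (nat_lit 8) (.e (nat_lit 557103) (nat_lit 14) (.e (nat_lit 180243) (nat_lit 5) (.e (nat_lit 532501) (nat_lit 1) (.e (nat_lit 57663) (nat_lit 152) (.e (nat_lit 2612) (nat_lit 163) .nil)))))))) (.g (nat_lit 1) (.e (nat_lit 171872) (nat_lit 0) .nil) .nil))) 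
(.lf (nat_lit 502432) (.g (nat_lit 4015) (.e (nat_lit 163979) (nat_lit 30) (.e (nat_lit 573482) (nat_lit 13) (.e (nat_lit 65619) (nat_lit 10) (.e (nat_lit 344117) (nat_lit 21) (.e (nat_lit 516145) (nat_lit 9) (.e (nat_lit 426416) (nat_lit 15) (.e (nat_lit 2056) (nat_lit 142) (.e (nat_lit 704589) (nat_lit 3) .nil)))))))) (.g (nat_lit 1) (.e (nat_lit 173368) (nat_lit 0) .nil) .nil)))) 
(.nd (nat_lit 9) 
(.lf (nat_lit 502176) (.g (nat_lit 4789) (.e (nat_lit 163979) (nat_lit 30) (.e (nat_lit 573481) (nat_lit 13) (.e (nat_lit 65619) (nat_lit 10) (.e (nat_lit 344117) (nat_lit 21) (.e (nat_lit 516159) (nat_lit 10) (.e (nat_lit 434272) (nat_lit 38) (.e (nat_lit 655375) (nat_lit 3) .nil))))))) (.g (nat_lit 1) (.e (nat_lit 173046) (nat_lit 0) .nil) .nil))) 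
(.lf (nat_lit 502688) (.g (nat_lit 3359) (.e (nat_lit 163979) (nat_lit 30) (.e (nat_lit 573487) (nat_lit 14) (.e (nat_lit 73753) (nat_lit 8) (.e (nat_lit 557103) (nat_lit 14) (.e (nat_lit 180250) (nat_lit 10) (.e (nat_lit 573473) (nat_lit 12) (.e (nat_lit 57501) (nat_lit 37) (.e (nat_lit 630800) (nat_lit 7) .nil)))))))) (.g (nat_lit 1) (.e (nat_lit 173788) (nat_lit 0) .nil) .nil)))))) 
(.nd (nat_lit 7) (.nd (nat_lit 8) (.nd (nat_lit 9) 
(.lf (nat_lit 501856) (.g (nat_lit 3685) (.e (nat_lit 163978) (nat_lit 30) (.e (nat_lit 573489) (nat_lit 14) (.e (nat_lit 73755) (nat_lit 8) (.e (nat_lit 557098) (nat_lit 13) (.e (nat_lit 172065) (nat_lit 3) (.e (nat_lit 204817) (nat_lit 17) (.e (nat_lit 2272) (nat_lit 149) (.e (nat_lit 761898) (nat_lit 15) .nil)))))))) (.g (nat_lit 1) (.e (nat_lit 171704) (nat_lit 0) .nil) .nil))) 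
(.lf (nat_lit 502368) (.g (nat_lit 5167) (.e (nat_lit 163979) (nat_lit 30) (.e (nat_lit 573482) (nat_lit 13) (.e (nat_lit 65610) (nat_lit 10) (.e (nat_lit 344117) (nat_lit 21) (.e (nat_lit 516151) (nat_lit 9) (.e (nat_lit 426412) (nat_lit 15) (.e (nat_lit 2056) (nat_lit 142) (.e (nat_lit 704589) (nat_lit 3) .nil)))))))) (.g (nat_lit 1) (.e (nat_lit 173301) (nat_lit 0) .nil) .nil)))) 
(.nd (nat_lit 9) 
(.lf (nat_lit 502112) (.g (nat_lit 3653) (.e (nat_lit 163978) (nat_lit 30) (.e (nat_lit 573493) (nat_lit 15) (.e (nat_lit 81951) (nat_lit 22) (.e (nat_lit 90185) (nat_lit 17) .nil)))) (.g (nat_lit 0) (.e (nat_lit 172855) (nat_lit 0) .nil) .nil))) 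
(.lf (nat_lit 502624) (.g (nat_lit 4436) (.e (nat_lit 163979) (nat_lit 30) (.e (nat_lit 573482) (nat_lit 13) (.e (nat_lit 65619) (nat_lit 10) (.e (nat_lit 344117) (nat_lit 21) (.e (nat_lit 516181) (nat_lit 15) (.e (nat_lit 475199) (nat_lit 40) (.e (nat_lit 704589) (nat_lit 3) .nil))))))) (.g (nat_lit 1) (.e (nat_lit 173564) (nat_lit 0) .nil) .nil))))) (.nd (nat_lit 8) (.nd (nat_lit 9) 
(.lf (nat_lit 501984) (.g (nat_lit 2080) (.e (nat_lit 163978) (nat_lit 30) (.e (nat_lit 573489) (nat_lit 14) (.e (nat_lit 73755) (nat_lit 8) (.e (nat_lit 557105) (nat_lit 14) (.e (nat_lit 180242) (nat_lit 5) .nil))))) (.g (nat_lit 0) (.e (nat_lit 172202) (nat_lit 0) .nil) .nil))) 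
(.lf (nat_lit 502496) (.g (nat_lit 3041) (.e (nat_lit 163979) (nat_lit 30) (.e (nat_lit 573482) (nat_lit 13) (.e (nat_lit 65619) (nat_lit 10) (.e (nat_lit 344117) (nat_lit 21) (.e (nat_lit 516151) (nat_lit 9) (.e (nat_lit 426142) (nat_lit 4) (.e (nat_lit 229666) (nat_lit 240) (.e (nat_lit 2598) (nat_lit 163) .nil)))))))) (.g (nat_lit 1) (.e (nat_lit 173432) (nat_lit 0) .nil) .nil)))) 
(.nd (nat_lit 9) 
(.lf (nat_lit 502240) (.g (nat_lit 4402) (.e (nat_lit 163979) (nat_lit 30) (.e (nat_lit 573482) (nat_lit 13) (.e (nat_lit 65604) (nat_lit 9) (.e (nat_lit 336013) (nat_lit 2) (.e (nat_lit 90170) (nat_lit 13) (.e (nat_lit 172060) (nat_lit 1) (.e (nat_lit 164348) (nat_lit 240) (.e (nat_lit 2610) (nat_lit 163) .nil)))))))) (.g (nat_lit 1) (.e (nat_lit 173128) (nat_lit 0) .nil) .nil))) 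
(.lf (nat_lit 502752) (.g (nat_lit 2590) (.e (nat_lit 163979) (nat_lit 30) (.e (nat_lit 573487) (nat_lit 14) (.e (nat_lit 73754) (nat_lit 8) (.e (nat_lit 557105) (nat_lit 14) (.e (nat_lit 180252) (nat_lit 10) (.e (nat_lit 573475) (nat_lit 12) (.e (nat_lit 57504) (nat_lit 38) (.e (nat_lit 638994) (nat_lit 7) .nil)))))))) (.g (nat_lit 1) (.e (nat_lit 173866) (nat_lit 0) .nil) .nil)))))))) 
(.nd (nat_lit 5) (.nd (nat_lit 6) (.nd (nat_lit 7) (.nd (nat_lit 8) (.nd (nat_lit 9) 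
(.lf (nat_lit 501776) (.g (nat_lit 3140) (.e (nat_lit 163978) (nat_lit 30) (.e (nat_lit 573489) (nat_lit 14) (.e (nat_lit 73754) (nat_lit 8) (.e (nat_lit 557101) (nat_lit 13) (.e (nat_lit 172065) (nat_lit 3) (.e (nat_lit 204830) (nat_lit 18) (.e (nat_lit 57663) (nat_lit 152) (.e (nat_lit 2606) (nat_lit 163) .nil)))))))) (.g (nat_lit 1) (.e (nat_lit 171477) (nat_lit 0) .nil) .nil))) 
(.lf (nat_lit 502288) (.g (nat_lit 2902) (.e (nat_lit 163979) (nat_lit 30) (.e (nat_lit 573482) (nat_lit 13) (.e (nat_lit 65604) (nat_lit 9) (.e (nat_lit 336028) (nat_lit 3) (.e (nat_lit 98359) (nat_lit 26) (.e (nat_lit 426003) (nat_lit 0) (.e (nat_lit 3397) (nat_lit 211) (.e (nat_lit 647180) (nat_lit 3) .nil)))))))) (.g (nat_lit 1) (.e (nat_lit 173178) (nat_lit 0) .nil) .nil)))) (.nd (nat_lit 9) 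
(.lf (nat_lit 502032) (.g (nat_lit 3299) (.e (nat_lit 163978) (nat_lit 30) (.e (nat_lit 573489) (nat_lit 14) (.e (nat_lit 73755) (nat_lit 8) (.e (nat_lit 557105) (nat_lit 14) (.e (nat_lit 180251) (nat_lit 10) (.e (nat_lit 573473) (nat_lit 12) (.e (nat_lit 57503) (nat_lit 38) (.e (nat_lit 638995) (nat_lit 7) .nil)))))))) (.g (nat_lit 1) (.e (nat_lit 172435) (nat_lit 0) .nil) .nil))) 
(.lf (nat_lit 502544) (.g (nat_lit 3054) (.e (nat_lit 163979) (nat_lit 30) (.e (nat_lit 573482) (nat_lit 13) (.e (nat_lit 65619) (nat_lit 10) (.e (nat_lit 344117) (nat_lit 21) (.e (nat_lit 516159) (nat_lit 10) (.e (nat_lit 434209) (nat_lit 18) (.e (nat_lit 5548) (nat_lit 306) (.e (nat_lit 2598) (nat_lit 163) .nil)))))))) (.g (nat_lit 1) (.e (nat_lit 173480) (nat_lit 0) .nil) .nil))))) 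
(.nd (nat_lit 8) (.nd (nat_lit 9) 
(.lf (nat_lit 501904) (.g (nat_lit 2809) (.e (nat_lit 163978) (nat_lit 30) (.e (nat_lit 573489) (nat_lit 14) (.e (nat_lit 73755) (nat_lit 8) (.e (nat_lit 557099) (nat_lit 13) .nil)))) (.g (nat_lit 0) (.e (nat_lit 171837) (nat_lit 0) .nil) .nil))) 
(.lf (nat_lit 502416) (.g (nat_lit 3391) (.e (nat_lit 163979) (nat_lit 30) (.e (nat_lit 573482) (nat_lit 13) (.e (nat_lit 65619) (nat_lit 10) (.e (nat_lit 344117) (nat_lit 21) (.e (nat_lit 516144) (nat_lit 9) (.e (nat_lit 426466) (nat_lit 24) (.e (nat_lit 163584) (nat_lit 3) .nil))))))) (.g (nat_lit 1) (.e (nat_lit 173352) (nat_lit 0) .nil) .nil)))) (.nd (nat_lit 9) 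
(.lf (nat_lit 502160) (.g (nat_lit 854) (.e (nat_lit 163979) (nat_lit 30) (.e (nat_lit 573474) (nat_lit 12) (.e (nat_lit 57528) (nat_lit 46) .nil))) (.g (nat_lit 0) (.e (nat_lit 172999) (nat_lit 0) .nil) .nil))) 
(.lf (nat_lit 502672) (.g (nat_lit 3408) (.e (nat_lit 163979) (nat_lit 30) (.e (nat_lit 573487) (nat_lit 14) (.e (nat_lit 73753) (nat_lit 8) (.e (nat_lit 557100) (nat_lit 13) (.e (nat_lit 172067) (nat_lit 3) (.e (nat_lit 204815) (nat_lit 17) (.e (nat_lit 2271) (nat_lit 149) (.e (nat_lit 761898) (nat_lit 15) .nil)))))))) (.g (nat_lit 1) (.e (nat_lit 173712) (nat_lit 0) .nil) .nil)))))) 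
(.nd (nat_lit 7) (.nd (nat_lit 8) (.nd (nat_lit 9) 
(.lf (nat_lit 501840) (.g (nat_lit 2680) (.e (nat_lit 163978) (nat_lit 30) (.e (nat_lit 573489) (nat_lit 14) (.e (nat_lit 73755) (nat_lit 8) (.e (nat_lit 557097) (nat_lit 13) (.e (nat_lit 172067) (nat_lit 3) .nil))))) (.g (nat_lit 0) (.e (nat_lit 171637) (nat_lit 0) .nil) .nil))) 
(.lf (nat_lit 502352) (.g (nat_lit 4073) (.e (nat_lit 163979) (nat_lit 30) (.e (nat_lit 573482) (nat_lit 13) (.e (nat_lit 65604) (nat_lit 9) (.e (nat_lit 336028) (nat_lit 3) (.e (nat_lit 98383) (nat_lit 32) (.e (nat_lit 475198) (nat_lit 40) (.e (nat_lit 704589) (nat_lit 3) .nil))))))) (.g (nat_lit 1) (.e (nat_lit 173284) (nat_lit 0) .nil) .nil)))) (.nd (nat_lit 9) 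
(.lf (nat_lit 502096) (.g (nat_lit 2457) (.e (nat_lit 163978) (nat_lit 30) (.e (nat_lit 573491) (nat_lit 15) (.e (nat_lit 81955) (nat_lit 23) (.e (nat_lit 98366) (nat_lit 27) (.e (nat_lit 434271) (nat_lit 38) (.e (nat_lit 655375) (nat_lit 3) .nil)))))) (.g (nat_lit 1) (.e (nat_lit 172768) (nat_lit 0) .nil) .nil))) 
(.lf (nat_lit 502608) (.g (nat_lit 2813) (.e (nat_lit 163979) (nat_lit 30) (.e (nat_lit 573482) (nat_lit 13) (.e (nat_lit 65619) (nat_lit 10) (.e (nat_lit 344117) (nat_lit 21) (.e (nat_lit 516172) (nat_lit 13) (.e (nat_lit 458774) (nat_lit 18) (.e (nat_lit 5548) (nat_lit 306) (.e (nat_lit 2610) (nat_lit 163) .nil)))))))) (.g (nat_lit 1) (.e (nat_lit 173548) (nat_lit 0) .nil) .nil))))) 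
(.nd (nat_lit 8) (.nd (nat_lit 9) 
(.lf (nat_lit 501968) (.g (nat_lit 3431) (.e (nat_lit 163978) (nat_lit 30) (.e (nat_lit 573489) (nat_lit 14) (.e (nat_lit 73755) (nat_lit 8) (.e (nat_lit 557104) (nat_lit 14) (.e (nat_lit 180244) (nat_lit 5) (.e (nat_lit 532499) (nat_lit 1) (.e (nat_lit 57663) (nat_lit 152) (.e (nat_lit 2612) (nat_lit 163) .nil)))))))) (.g (nat_lit 1) (.e (nat_lit 172072) (nat_lit 0) .nil) .nil))) 
(.lf (nat_lit 502480) (.g (nat_lit 4307) (.e (nat_lit 163979) (nat_lit 30) (.e (nat_lit 573482) (nat_lit 13) (.e (nat_lit 65619) (nat_lit 10) (.e (nat_lit 344117) (nat_lit 21) (.e (nat_lit 516151) (nat_lit 9) (.e (nat_lit 426097) (nat_lit 1) (.e (nat_lit 164345) (nat_lit 240) (.e (nat_lit 2599) (nat_lit 163) .nil)))))))) (.g (nat_lit 1) (.e (nat_lit 173416) (nat_lit 0) .nil) .nil)))) 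
(.nd (nat_lit 9) 
(.lf (nat_lit 502224) (.g (nat_lit 2210) (.e (nat_lit 163979) (nat_lit 30) (.e (nat_lit 573482) (nat_lit 13) (.e (nat_lit 65604) (nat_lit 9) (.e (nat_lit 336013) (nat_lit 2) (.e (nat_lit 90170) (nat_lit 13) (.e (nat_lit 172049) (nat_lit 0) (.e (nat_lit 2458) (nat_lit 157) (.e (nat_lit 5548) (nat_lit 306) (.e (nat_lit 2601) (nat_lit 163) .nil))))))))) (.g (nat_lit 1) (.e (nat_lit 173112) (nat_lit 0) .nil) .nil))) 
(.lf (nat_lit 502736) (.g (nat_lit 3442) (.e (nat_lit 163979) (nat_lit 30) (.e (nat_lit 573487) (nat_lit 14) (.e (nat_lit 73753) (nat_lit 8) (.e (nat_lit 557105) (nat_lit 14) (.e (nat_lit 180252) (nat_lit 10) (.e (nat_lit 573475) (nat_lit 12) (.e (nat_lit 57504) (nat_lit 38) (.e (nat_lit 638994) (nat_lit 7) .nil)))))))) (.g (nat_lit 1) (.e (nat_lit 173846) (nat_lit 0) .nil) .nil))))))) 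
(.nd (nat_lit 6) (.nd (nat_lit 7) (.nd (nat_lit 8) (.nd (nat_lit 9) 
(.lf (nat_lit 501808) (.g (nat_lit 3371) (.e (nat_lit 163978) (nat_lit 30) (.e (nat_lit 573489) (nat_lit 14) (.e (nat_lit 73754) (nat_lit 8) (.e (nat_lit 557105) (nat_lit 14) (.e (nat_lit 180252) (nat_lit 10) (.e (nat_lit 573475) (nat_lit 12) (.e (nat_lit 57504) (nat_lit 38) (.e (nat_lit 638996) (nat_lit 7) .nil)))))))) (.g (nat_lit 1) (.e (nat_lit 171542) (nat_lit 0) .nil) .nil))) 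
(.lf (nat_lit 502320) (.g (nat_lit 2458) (.e (nat_lit 163979) (nat_lit 30) (.e (nat_lit 573482) (nat_lit 13) (.e (nat_lit 65604) (nat_lit 9) (.e (nat_lit 336028) (nat_lit 3) (.e (nat_lit 98361) (nat_lit 26) (.e (nat_lit 426109) (nat_lit 1) (.e (nat_lit 164345) (nat_lit 240) (.e (nat_lit 2599) (nat_lit 163) .nil)))))))) (.g (nat_lit 1) (.e (nat_lit 173230) (nat_lit 0) .nil) .nil)))) 
(.nd (nat_lit 9) 
(.lf (nat_lit 502064) (.g (nat_lit 3648) (.e (nat_lit 163978) (nat_lit 30) (.e (nat_lit 573489) (nat_lit 14) (.e (nat_lit 73755) (nat_lit 8) (.e (nat_lit 557105) (nat_lit 14) (.e (nat_lit 180252) (nat_lit 10) (.e (nat_lit 573478) (nat_lit 12) (.e (nat_lit 57500) (nat_lit 37) (.e (nat_lit 630800) (nat_lit 7) .nil)))))))) (.g (nat_lit 1) (.e (nat_lit 172703) (nat_lit 0) .nil) .nil))) 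
(.lf (nat_lit 502576) (.g (nat_lit 2969) (.e (nat_lit 163979) (nat_lit 30) (.e (nat_lit 573482) (nat_lit 13) (.e (nat_lit 65619) (nat_lit 10) (.e (nat_lit 344117) (nat_lit 21) (.e (nat_lit 516161) (nat_lit 10) (.e (nat_lit 434209) (nat_lit 18) (.e (nat_lit 5548) (nat_lit 306) (.e (nat_lit 2599) (nat_lit 163) .nil)))))))) (.g (nat_lit 1) (.e (nat_lit 173513) (nat_lit 0) .nil) .nil))))) 
(.nd (nat_lit 8) (.nd (nat_lit 9) 
(.lf (nat_lit 501936) (.g (nat_lit 3599) (.e (nat_lit 163978) (nat_lit 30) (.e (nat_lit 573489) (nat_lit 14) (.e (nat_lit 73755) (nat_lit 8) (.e (nat_lit 557103) (nat_lit 14) (.e (nat_lit 180244) (nat_lit 5) (.e (nat_lit 532501) (nat_lit 1) (.e (nat_lit 57662) (nat_lit 152) (.e (nat_lit 2606) (nat_lit 163) .nil)))))))) (.g (nat_lit 1) (.e (nat_lit 171950) (nat_lit 0) .nil) .nil))) 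
(.lf (nat_lit 502448) (.g (nat_lit 3257) (.e (nat_lit 163979) (nat_lit 30) (.e (nat_lit 573482) (nat_lit 13) (.e (nat_lit 65619) (nat_lit 10) (.e (nat_lit 344117) (nat_lit 21) (.e (nat_lit 516150) (nat_lit 9) (.e (nat_lit 426444) (nat_lit 19) (.e (nat_lit 114432) (nat_lit 3) .nil))))))) (.g (nat_lit 1) (.e (nat_lit 173384) (nat_lit 0) .nil) .nil)))) (.nd (nat_lit 9) 
(.lf (nat_lit 502192) (.g (nat_lit 3713) (.e (nat_lit 163979) (nat_lit 30) (.e (nat_lit 573482) (nat_lit 13) (.e (nat_lit 65604) (nat_lit 9) (.e (nat_lit 336013) (nat_lit 2) (.e (nat_lit 90170) (nat_lit 13) (.e (nat_lit 172032) (nat_lit 0) (.e (nat_lit 3401) (nat_lit 211) (.e (nat_lit 647181) (nat_lit 3) .nil)))))))) (.g (nat_lit 1) (.e (nat_lit 173076) (nat_lit 0) .nil) .nil))) 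
(.lf (nat_lit 502704) (.g (nat_lit 3826) (.e (nat_lit 163979) (nat_lit 30) (.e (nat_lit 573487) (nat_lit 14) (.e (nat_lit 73753) (nat_lit 8) (.e (nat_lit 557103) (nat_lit 14) (.e (nat_lit 180250) (nat_lit 10) (.e (nat_lit 573475) (nat_lit 12) (.e (nat_lit 57504) (nat_lit 38) (.e (nat_lit 638996) (nat_lit 7) .nil)))))))) (.g (nat_lit 1) (.e (nat_lit 173805) (nat_lit 0) .nil) .nil)))))) 
(.nd (nat_lit 7) (.nd (nat_lit 8) (.nd (nat_lit 9) 
(.lf (nat_lit 501872) (.g (nat_lit 3337) (.e (nat_lit 163978) (nat_lit 30) (.e (nat_lit 573489) (nat_lit 14) (.e (nat_lit 73755) (nat_lit 8) (.e (nat_lit 557098) (nat_lit 13) (.e (nat_lit 172066) (nat_lit 3) (.e (nat_lit 204817) (nat_lit 17) (.e (nat_lit 2272) (nat_lit 149) (.e (nat_lit 761897) (nat_lit 15) .nil)))))))) (.g (nat_lit 1) (.e (nat_lit 171738) (nat_lit 0) .nil) .nil))) 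
(.lf (nat_lit 502384) (.g (nat_lit 3874) (.e (nat_lit 163979) (nat_lit 30) (.e (nat_lit 573482) (nat_lit 13) (.e (nat_lit 65619) (nat_lit 10) (.e (nat_lit 344117) (nat_lit 21) (.e (nat_lit 516097) (nat_lit 0) (.e (nat_lit 7366) (nat_lit 388) (.e (nat_lit 2610) (nat_lit 163) (.e (nat_lit 164347) (nat_lit 240) (.e (nat_lit 2601) (nat_lit 163) .nil))))))))) (.g (nat_lit 1) (.e (nat_lit 173319) (nat_lit 0) .nil) .nil)))) 
(.nd (nat_lit 9) 
(.lf (nat_lit 502128) (.g (nat_lit 3797) (.e (nat_lit 163978) (nat_lit 30) (.e (nat_lit 573493) (nat_lit 15) (.e (nat_lit 81954) (nat_lit 23) (.e (nat_lit 98360) (nat_lit 26) .nil)))) (.g (nat_lit 0) (.e (nat_lit 172899) (nat_lit 0) .nil) .nil))) 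
(.lf (nat_lit 502640) (.g (nat_lit 4145) (.e (nat_lit 163979) (nat_lit 30) (.e (nat_lit 573482) (nat_lit 13) (.e (nat_lit 65620) (nat_lit 10) (.e (nat_lit 344117) (nat_lit 21) (.e (nat_lit 516179) (nat_lit 15) (.e (nat_lit 475199) (nat_lit 40) (.e (nat_lit 704589) (nat_lit 3) .nil))))))) (.g (nat_lit 1) (.e (nat_lit 173603) (nat_lit 0) .nil) .nil))))) (.nd (nat_lit 8) (.nd (nat_lit 9) 
(.lf (nat_lit 502000) (.g (nat_lit 3994) (.e (nat_lit 163978) (nat_lit 30) (.e (nat_lit 573489) (nat_lit 14) (.e (nat_lit 73755) (nat_lit 8) (.e (nat_lit 557105) (nat_lit 14) (.e (nat_lit 180244) (nat_lit 5) (.e (nat_lit 532501) (nat_lit 1) (.e (nat_lit 57663) (nat_lit 152) (.e (nat_lit 2612) (nat_lit 163) .nil)))))))) (.g (nat_lit 1) (.e (nat_lit 172247) (nat_lit 0) .nil) .nil))) 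
(.lf (nat_lit 502512) (.g (nat_lit 2571) (.e (nat_lit 163979) (nat_lit 30) (.e (nat_lit 573482) (nat_lit 13) (.e (nat_lit 65619) (nat_lit 10) (.e (nat_lit 344117) (nat_lit 21) (.e (nat_lit 516152) (nat_lit 9) (.e (nat_lit 426109) (nat_lit 1) (.e (nat_lit 164345) (nat_lit 240) (.e (nat_lit 2601) (nat_lit 163) .nil)))))))) (.g (nat_lit 1) (.e (nat_lit 173448) (nat_lit 0) .nil) .nil)))) 
(.nd (nat_lit 9) 
(.lf (nat_lit 502256) (.g (nat_lit 3341) (.e (nat_lit 163979) (nat_lit 30) (.e (nat_lit 573482) (nat_lit 13) (.e (nat_lit 65604) (nat_lit 9) (.e (nat_lit 336013) (nat_lit 2) (.e (nat_lit 90170) (nat_lit 13) (.e (nat_lit 172069) (nat_lit 4) (.e (nat_lit 229663) (nat_lit 240) (.e (nat_lit 2598) (nat_lit 163) .nil)))))))) (.g (nat_lit 1) (.e (nat_lit 173144) (nat_lit 0) .nil) .nil))) 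
(.lf (nat_lit 502768) (.g (nat_lit 2898) (.e (nat_lit 163979) (nat_lit 30) (.e (nat_lit 573488) (nat_lit 14) (.e (nat_lit 73753) (nat_lit 8) (.e (nat_lit 557103) (nat_lit 14) (.e (nat_lit 180250) (nat_lit 10) (.e (nat_lit 573474) (nat_lit 12) (.e (nat_lit 57504) (nat_lit 38) (.e (nat_lit 638995) (nat_lit 7) .nil)))))))) (.g (nat_lit 1) (.e (nat_lit 173893) (nat_lit 0) .nil) .nil))))))))) 
(.nd (nat_lit 4) (.nd (nat_lit 5) (.nd (nat_lit 6) (.nd (nat_lit 7) (.nd (nat_lit 8) 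
(.nd (nat_lit 9) 
(.lf (nat_lit 501768) (.g (nat_lit 1113) (.e (nat_lit 163978) (nat_lit 30) (.e (nat_lit 573489) (nat_lit 14) (.e (nat_lit 73754) (nat_lit 8) (.e (nat_lit 557101) (nat_lit 13) .nil)))) (.g (nat_lit 0) (.e (nat_lit 171459) (nat_lit 0) .nil) .nil))) 
(.lf (nat_lit 502280) (.g (nat_lit 2712) (.e (nat_lit 163979) (nat_lit 30) (.e (nat_lit 573482) (nat_lit 13) (.e (nat_lit 65604) (nat_lit 9) (.e (nat_lit 336028) (nat_lit 3) (.e (nat_lit 98354) (nat_lit 26) (.e (nat_lit 426025) (nat_lit 0) (.e (nat_lit 3399) (nat_lit 211) (.e (nat_lit 647180) (nat_lit 3) .nil)))))))) (.g (nat_lit 1) (.e (nat_lit 173169) (nat_lit 0) .nil) .nil)))) (.nd (nat_lit 9) 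
(.lf (nat_lit 502024) (.g (nat_lit 2783) (.e (nat_lit 163978) (nat_lit 30) (.e (nat_lit 573489) (nat_lit 14) (.e (nat_lit 73755) (nat_lit 8) (.e (nat_lit 557105) (nat_lit 14) (.e (nat_lit 180245) (nat_lit 5) (.e (nat_lit 532503) (nat_lit 1) (.e (nat_lit 57658) (nat_lit 152) (.e (nat_lit 2606) (nat_lit 163) .nil)))))))) (.g (nat_lit 1) (.e (nat_lit 172385) (nat_lit 0) .nil) .nil))) 
(.lf (nat_lit 502536) (.g (nat_lit 3339) (.e (nat_lit 163979) (nat_lit 30) (.e (nat_lit 573482) (nat_lit 13) (.e (nat_lit 65619) (nat_lit 10) (.e (nat_lit 344117) (nat_lit 21) (.e (nat_lit 516159) (nat_lit 10) (.e (nat_lit 434202) (nat_lit 18) (.e (nat_lit 5537) (nat_lit 306) (.e (nat_lit 2598) (nat_lit 163) .nil)))))))) (.g (nat_lit 1) (.e (nat_lit 173472) (nat_lit 0) .nil) .nil))))) 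
(.nd (nat_lit 8) (.nd (nat_lit 9) 
(.lf (nat_lit 501896) (.g (nat_lit 3535) (.e (nat_lit 163978) (nat_lit 30) (.e (nat_lit 573489) (nat_lit 14) (.e (nat_lit 73755) (nat_lit 8) (.e (nat_lit 557098) (nat_lit 13) (.e (nat_lit 172067) (nat_lit 3) (.e (nat_lit 204821) (nat_lit 17) (.e (nat_lit 2264) (nat_lit 149) (.e (nat_lit 761898) (nat_lit 15) .nil)))))))) (.g (nat_lit 1) (.e (nat_lit 171791) (nat_lit 0) .nil) .nil))) 
(.lf (nat_lit 502408) (.g (nat_lit 2863) (.e (nat_lit 163979) (nat_lit 30) (.e (nat_lit 573482) (nat_lit 13) (.e (nat_lit 65619) (nat_lit 10) (.e (nat_lit 344117) (nat_lit 21) (.e (nat_lit 516144) (nat_lit 9) (.e (nat_lit 426405) (nat_lit 15) (.e (nat_lit 2056) (nat_lit 142) (.e (nat_lit 704589) (nat_lit 3) .nil)))))))) (.g (nat_lit 1) (.e (nat_lit 173344) (nat_lit 0) .nil) .nil)))) 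
(.nd (nat_lit 9) 
(.lf (nat_lit 502152) (.g (nat_lit 3286) (.e (nat_lit 163978) (nat_lit 30) (.e (nat_lit 573493) (nat_lit 15) (.e (nat_lit 81956) (nat_lit 23) (.e (nat_lit 98368) (nat_lit 27) (.e (nat_lit 434271) (nat_lit 38) (.e (nat_lit 655375) (nat_lit 3) .nil)))))) (.g (nat_lit 1) (.e (nat_lit 172935) (nat_lit 0) .nil) .nil))) 
(.lf (nat_lit 502664) (.g (nat_lit 4165) (.e (nat_lit 163979) (nat_lit 30) (.e (nat_lit 573487) (nat_lit 14) (.e (nat_lit 73753) (nat_lit 8) (.e (nat_lit 557098) (nat_lit 13) (.e (nat_lit 172067) (nat_lit 3) (.e (nat_lit 204817) (nat_lit 17) (.e (nat_lit 7936) (nat_lit 149) (.e (nat_lit 761898) (nat_lit 15) .nil)))))))) (.g (nat_lit 1) (.e (nat_lit 173683) (nat_lit 0) .nil) .nil)))))) 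
(.nd (nat_lit 7) (.nd (nat_lit 8) (.nd (nat_lit 9) 
(.lf (nat_lit 501832) (.g (nat_lit 3230) (.e (nat_lit 163978) (nat_lit 30) (.e (nat_lit 573489) (nat_lit 14) (.e (nat_lit 73755) (nat_lit 8) (.e (nat_lit 557097) (nat_lit 13) (.e (nat_lit 172066) (nat_lit 3) (.e (nat_lit 204815) (nat_lit 17) (.e (nat_lit 2271) (nat_lit 149) (.e (nat_lit 761899) (nat_lit 15) .nil)))))))) (.g (nat_lit 1) (.e (nat_lit 171623) (nat_lit 0) .nil) .nil))) 
(.lf (nat_lit 502344) (.g (nat_lit 4579) (.e (nat_lit 163979) (nat_lit 30) (.e (nat_lit 573482) (nat_lit 13) (.e (nat_lit 65604) (nat_lit 9) (.e (nat_lit 336028) (nat_lit 3) (.e (nat_lit 98367) (nat_lit 27) (.e (nat_lit 434209) (nat_lit 18) (.e (nat_lit 5548) (nat_lit 306) (.e (nat_lit 2601) (nat_lit 163) .nil)))))))) (.g (nat_lit 1) (.e (nat_lit 173274) (nat_lit 0) .nil) .nil)))) 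
(.nd (nat_lit 9) 
(.lf (nat_lit 502088) (.g (nat_lit 3081) (.e (nat_lit 163978) (nat_lit 30) (.e (nat_lit 573491) (nat_lit 15) (.e (nat_lit 81951) (nat_lit 22) (.e (nat_lit 90170) (nat_lit 13) (.e (nat_lit 172046) (nat_lit 0) (.e (nat_lit 3406) (nat_lit 212) (.e (nat_lit 655375) (nat_lit 3) .nil))))))) (.g (nat_lit 1) (.e (nat_lit 172757) (nat_lit 0) .nil) .nil))) 
(.lf (nat_lit 502600) (.g (nat_lit 3410) (.e (nat_lit 163979) (nat_lit 30) (.e (nat_lit 573482) (nat_lit 13) (.e (nat_lit 65619) (nat_lit 10) (.e (nat_lit 344117) (nat_lit 21) (.e (nat_lit 516171) (nat_lit 13) (.e (nat_lit 458774) (nat_lit 18) (.e (nat_lit 5547) (nat_lit 306) (.e (nat_lit 2599) (nat_lit 163) .nil)))))))) (.g (nat_lit 1) (.e (nat_lit 173540) (nat_lit 0) .nil) .nil))))) 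
(.nd (nat_lit 8) (.nd (nat_lit 9) 
(.lf (nat_lit 501960) (.g (nat_lit 4532) (.e (nat_lit 163978) (nat_lit 30) (.e (nat_lit 573489) (nat_lit 14) (.e (nat_lit 73755) (nat_lit 8) (.e (nat_lit 557104) (nat_lit 14) (.e (nat_lit 180244) (nat_lit 5) (.e (nat_lit 532484) (nat_lit 0) (.e (nat_lit 7936) (nat_lit 149) (.e (nat_lit 761898) (nat_lit 15) .nil)))))))) (.g (nat_lit 1) (.e (nat_lit 172051) (nat_lit 0) .nil) .nil))) 
(.lf (nat_lit 502472) (.g (nat_lit 4065) (.e (nat_lit 163979) (nat_lit 30) (.e (nat_lit 573482) (nat_lit 13) (.e (nat_lit 65619) (nat_lit 10) (.e (nat_lit 344117) (nat_lit 21) (.e (nat_lit 516151) (nat_lit 9) (.e (nat_lit 426042) (nat_lit 0) (.e (nat_lit 3408) (nat_lit 212) (.e (nat_lit 655375) (nat_lit 3) .nil)))))))) (.g (nat_lit 1) (.e (nat_lit 173408) (nat_lit 0) .nil) .nil)))) 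
(.nd (nat_lit 9) 
(.lf (nat_lit 502216) (.g (nat_lit 3940) (.e (nat_lit 163979) (nat_lit 30) (.e (nat_lit 573482) (nat_lit 13) (.e (nat_lit 65604) (nat_lit 9) (.e (nat_lit 336013) (nat_lit 2) (.e (nat_lit 90170) (nat_lit 13) (.e (nat_lit 172046) (nat_lit 0) (.e (nat_lit 2478) (nat_lit 157) (.e (nat_lit 5548) (nat_lit 306) (.e (nat_lit 2611) (nat_lit 163) .nil))))))))) (.g (nat_lit 1) (.e (nat_lit 173103) (nat_lit 0) .nil) .nil))) 
(.lf (nat_lit 502728) (.g (nat_lit 4427) (.e (nat_lit 163979) (nat_lit 30) (.e (nat_lit 573487) (nat_lit 14) (.e (nat_lit 73753) (nat_lit 8) (.e (nat_lit 557105) (nat_lit 14) (.e (nat_lit 180252) (nat_lit 10) (.e (nat_lit 573473) (nat_lit 12) (.e (nat_lit 57504) (nat_lit 38) (.e (nat_lit 638995) (nat_lit 7) .nil)))))))) (.g (nat_lit 1) (.e (nat_lit 173836) (nat_lit 0) .nil) .nil))))))) 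
(.nd (nat_lit 6) (.nd (nat_lit 7) (.nd (nat_lit 8) (.nd (nat_lit 9) 
(.lf (nat_lit 501800) (.g (nat_lit 1942) (.e (nat_lit 163978) (nat_lit 30) (.e (nat_lit 573489) (nat_lit 14) (.e (nat_lit 73754) (nat_lit 8) (.e (nat_lit 557105) (nat_lit 14) (.e (nat_lit 180251) (nat_lit 10) .nil))))) (.g (nat_lit 0) (.e (nat_lit 171534) (nat_lit 0) .nil) .nil))) 
(.lf (nat_lit 502312) (.g (nat_lit 4995) (.e (nat_lit 163979) (nat_lit 30) (.e (nat_lit 573482) (nat_lit 13) (.e (nat_lit 65604) (nat_lit 9) (.e (nat_lit 336028) (nat_lit 3) (.e (nat_lit 98359) (nat_lit 26) (.e (nat_lit 426412) (nat_lit 15) (.e (nat_lit 2058) (nat_lit 142) (.e (nat_lit 704589) (nat_lit 3) .nil)))))))) (.g (nat_lit 1) (.e (nat_lit 173220) (nat_lit 0) .nil) .nil)))) 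
(.nd (nat_lit 9) 
(.lf (nat_lit 502056) (.g (nat_lit 4560) (.e (nat_lit 163978) (nat_lit 30) (.e (nat_lit 573489) (nat_lit 14) (.e (nat_lit 73755) (nat_lit 8) (.e (nat_lit 557105) (nat_lit 14) (.e (nat_lit 180252) (nat_lit 10) (.e (nat_lit 573475) (nat_lit 12) (.e (nat_lit 57501) (nat_lit 37) (.e (nat_lit 630800) (nat_lit 7) .nil)))))))) (.g (nat_lit 1) (.e (nat_lit 172695) (nat_lit 0) .nil) .nil))) 
(.lf (nat_lit 502568) (.g (nat_lit 2618) (.e (nat_lit 163979) (nat_lit 30) (.e (nat_lit 573482) (nat_lit 13) (.e (nat_lit 65619) (nat_lit 10) (.e (nat_lit 344117) (nat_lit 21) (.e (nat_lit 516160) (nat_lit 10) (.e (nat_lit 434270) (nat_lit 38) (.e (nat_lit 655374) (nat_lit 3) .nil))))))) (.g (nat_lit 1) (.e (nat_lit 173505) (nat_lit 0) .nil) .nil))))) (.nd (nat_lit 8) (.nd (nat_lit 9) 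
(.lf (nat_lit 501928) (.g (nat_lit 2865) (.e (nat_lit 163978) (nat_lit 30) (.e (nat_lit 573489) (nat_lit 14) (.e (nat_lit 73755) (nat_lit 8) (.e (nat_lit 557103) (nat_lit 14) (.e (nat_lit 180244) (nat_lit 5) (.e (nat_lit 532488) (nat_lit 0) (.e (nat_lit 7936) (nat_lit 149) (.e (nat_lit 761899) (nat_lit 15) .nil)))))))) (.g (nat_lit 1) (.e (nat_lit 171902) (nat_lit 0) .nil) .nil))) 
(.lf (nat_lit 502440) (.g (nat_lit 3787) (.e (nat_lit 163979) (nat_lit 30) (.e (nat_lit 573482) (nat_lit 13) (.e (nat_lit 65619) (nat_lit 10) (.e (nat_lit 344117) (nat_lit 21) (.e (nat_lit 516146) (nat_lit 9) (.e (nat_lit 426444) (nat_lit 19) (.e (nat_lit 114432) (nat_lit 3) .nil))))))) (.g (nat_lit 1) (.e (nat_lit 173376) (nat_lit 0) .nil) .nil)))) (.nd (nat_lit 9) 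
(.lf (nat_lit 502184) (.g (nat_lit 1838) (.e (nat_lit 163979) (nat_lit 30) (.e (nat_lit 573482) (nat_lit 13) (.e (nat_lit 65604) (nat_lit 9) (.e (nat_lit 336013) (nat_lit 2) (.e (nat_lit 90134) (nat_lit 9) .nil))))) (.g (nat_lit 0) (.e (nat_lit 173066) (nat_lit 0) .nil) .nil))) 
(.lf (nat_lit 502696) (.g (nat_lit 3812) (.e (nat_lit 163979) (nat_lit 30) (.e (nat_lit 573487) (nat_lit 14) (.e (nat_lit 73753) (nat_lit 8) (.e (nat_lit 557103) (nat_lit 14) (.e (nat_lit 180250) (nat_lit 10) (.e (nat_lit 573475) (nat_lit 12) (.e (nat_lit 57501) (nat_lit 37) (.e (nat_lit 630800) (nat_lit 7) .nil)))))))) (.g (nat_lit 1) (.e (nat_lit 173797) (nat_lit 0) .nil) .nil)))))) 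
(.nd (nat_lit 7) (.nd (nat_lit 8) (.nd (nat_lit 9) 
(.lf (nat_lit 501864) (.g (nat_lit 3039) (.e (nat_lit 163978) (nat_lit 30) (.e (nat_lit 573489) (nat_lit 14) (.e (nat_lit 73755) (nat_lit 8) (.e (nat_lit 557098) (nat_lit 13) (.e (nat_lit 172065) (nat_lit 3) (.e (nat_lit 204821) (nat_lit 17) (.e (nat_lit 7936) (nat_lit 149) (.e (nat_lit 761899) (nat_lit 15) .nil)))))))) (.g (nat_lit 1) (.e (nat_lit 171716) (nat_lit 0) .nil) .nil))) 
(.lf (nat_lit 502376) (.g (nat_lit 4985) (.e (nat_lit 163979) (nat_lit 30) (.e (nat_lit 573482) (nat_lit 13) (.e (nat_lit 65616) (nat_lit 10) (.e (nat_lit 344117) (nat_lit 21) (.e (nat_lit 516151) (nat_lit 9) (.e (nat_lit 426412) (nat_lit 15) (.e (nat_lit 2059) (nat_lit 142) (.e (nat_lit 704589) (nat_lit 3) .nil)))))))) (.g (nat_lit 1) (.e (nat_lit 173309) (nat_lit 0) .nil) .nil)))) 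
(.nd (nat_lit 9) 
(.lf (nat_lit 502120) (.g (nat_lit 7098) (.e (nat_lit 163978) (nat_lit 30) (.e (nat_lit 573493) (nat_lit 15) (.e (nat_lit 81953) (nat_lit 22) (.e (nat_lit 90173) (nat_lit 14) .nil)))) (.g (nat_lit 0) (.e (nat_lit 172889) (nat_lit 0) .nil) .nil))) 
(.lf (nat_lit 502632) (.g (nat_lit 981) (.e (nat_lit 163979) (nat_lit 30) (.e (nat_lit 573482) (nat_lit 13) (.e (nat_lit 65619) (nat_lit 10) (.e (nat_lit 344129) (nat_lit 26) .nil)))) (.g (nat_lit 0) (.e (nat_lit 173574) (nat_lit 0) .nil) .nil))))) (.nd (nat_lit 8) (.nd (nat_lit 9) 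
(.lf (nat_lit 501992) (.g (nat_lit 2799) (.e (nat_lit 163978) (nat_lit 30) (.e (nat_lit 573489) (nat_lit 14) (.e (nat_lit 73755) (nat_lit 8) (.e (nat_lit 557105) (nat_lit 14) (.e (nat_lit 180243) (nat_lit 5) (.e (nat_lit 532504) (nat_lit 1) (.e (nat_lit 57663) (nat_lit 152) (.e (nat_lit 2612) (nat_lit 163) .nil)))))))) (.g (nat_lit 1) (.e (nat_lit 172228) (nat_lit 0) .nil) .nil))) 
(.lf (nat_lit 502504) (.g (nat_lit 3341) (.e (nat_lit 163979) (nat_lit 30) (.e (nat_lit 573482) (nat_lit 13) (.e (nat_lit 65619) (nat_lit 10) (.e (nat_lit 344117) (nat_lit 21) (.e (nat_lit 516151) (nat_lit 9) (.e (nat_lit 433920) (nat_lit 19) (.e (nat_lit 114432) (nat_lit 3) .nil))))))) (.g (nat_lit 1) (.e (nat_lit 173440) (nat_lit 0) .nil) .nil)))) (.nd (nat_lit 9) 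
(.lf (nat_lit 502248) (.g (nat_lit 4974) (.e (nat_lit 163979) (nat_lit 30) (.e (nat_lit 573482) (nat_lit 13) (.e (nat_lit 65604) (nat_lit 9) (.e (nat_lit 336013) (nat_lit 2) (.e (nat_lit 90170) (nat_lit 13) (.e (nat_lit 172061) (nat_lit 1) (.e (nat_lit 164347) (nat_lit 240) (.e (nat_lit 2610) (nat_lit 163) .nil)))))))) (.g (nat_lit 1) (.e (nat_lit 173136) (nat_lit 0) .nil) .nil))) 
(.lf (nat_lit 502760) (.g (nat_lit 4090) (.e (nat_lit 163979) (nat_lit 30) (.e (nat_lit 573487) (nat_lit 14) (.e (nat_lit 73755) (nat_lit 8) (.e (nat_lit 557105) (nat_lit 14) (.e (nat_lit 180252) (nat_lit 10) (.e (nat_lit 573474) (nat_lit 12) (.e (nat_lit 57503) (nat_lit 38) (.e (nat_lit 638995) (nat_lit 7) .nil)))))))) (.g (nat_lit 1) (.e (nat_lit 173874) (nat_lit 0) .nil) .nil)))))))) 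
(.nd (nat_lit 5) (.nd (nat_lit 6) (.nd (nat_lit 7) (.nd (nat_lit 8) (.nd (nat_lit 9) 
(.lf (nat_lit 501784) (.g (nat_lit 2304) (.e (nat_lit 163978) (nat_lit 30) (.e (nat_lit 573489) (nat_lit 14) (.e (nat_lit 73754) (nat_lit 8) (.e (nat_lit 557101) (nat_lit 13) (.e (nat_lit 172066) (nat_lit 3) (.e (nat_lit 204822) (nat_lit 17) (.e (nat_lit 2270) (nat_lit 149) (.e (nat_lit 761899) (nat_lit 15) .nil)))))))) (.g (nat_lit 1) (.e (nat_lit 171489) (nat_lit 0) .nil) .nil))) 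
(.lf (nat_lit 502296) (.g (nat_lit 3766) (.e (nat_lit 163979) (nat_lit 30) (.e (nat_lit 573482) (nat_lit 13) (.e (nat_lit 65604) (nat_lit 9) (.e (nat_lit 336028) (nat_lit 3) (.e (nat_lit 98359) (nat_lit 26) (.e (nat_lit 426022) (nat_lit 0) (.e (nat_lit 3402) (nat_lit 211) (.e (nat_lit 647180) (nat_lit 3) .nil)))))))) (.g (nat_lit 1) (.e (nat_lit 173186) (nat_lit 0) .nil) .nil)))) (.nd (nat_lit 9) 
(.lf (nat_lit 502040) (.g (nat_lit 2508) (.e (nat_lit 163978) (nat_lit 30) (.e (nat_lit 573489) (nat_lit 14) (.e (nat_lit 73755) (nat_lit 8) (.e (nat_lit 557105) (nat_lit 14) (.e (nat_lit 180251) (nat_lit 10) (.e (nat_lit 573478) (nat_lit 12) (.e (nat_lit 57502) (nat_lit 38) (.e (nat_lit 638994) (nat_lit 7) .nil)))))))) (.g (nat_lit 1) (.e (nat_lit 172443) (nat_lit 0) .nil) .nil))) 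
(.lf (nat_lit 502552) (.g (nat_lit 3380) (.e (nat_lit 163979) (nat_lit 30) (.e (nat_lit 573482) (nat_lit 13) (.e (nat_lit 65619) (nat_lit 10) (.e (nat_lit 344117) (nat_lit 21) (.e (nat_lit 516159) (nat_lit 10) (.e (nat_lit 434271) (nat_lit 38) (.e (nat_lit 655374) (nat_lit 3) .nil))))))) (.g (nat_lit 1) (.e (nat_lit 173488) (nat_lit 0) .nil) .nil))))) (.nd (nat_lit 8) (.nd (nat_lit 9) 
(.lf (nat_lit 501912) (.g (nat_lit 3695) (.e (nat_lit 163978) (nat_lit 30) (.e (nat_lit 573489) (nat_lit 14) (.e (nat_lit 73755) (nat_lit 8) (.e (nat_lit 557100) (nat_lit 13) (.e (nat_lit 172138) (nat_lit 15) .nil))))) (.g (nat_lit 0) (.e (nat_lit 171845) (nat_lit 0) .nil) .nil))) 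
(.lf (nat_lit 502424) (.g (nat_lit 4574) (.e (nat_lit 163979) (nat_lit 30) (.e (nat_lit 573482) (nat_lit 13) (.e (nat_lit 65619) (nat_lit 10) (.e (nat_lit 344117) (nat_lit 21) (.e (nat_lit 516145) (nat_lit 9) (.e (nat_lit 426375) (nat_lit 15) (.e (nat_lit 2056) (nat_lit 142) (.e (nat_lit 704589) (nat_lit 3) .nil)))))))) (.g (nat_lit 1) (.e (nat_lit 173360) (nat_lit 0) .nil) .nil)))) 
(.nd (nat_lit 9) 
(.lf (nat_lit 502168) (.g (nat_lit 3700) (.e (nat_lit 163979) (nat_lit 30) (.e (nat_lit 573481) (nat_lit 13) (.e (nat_lit 65604) (nat_lit 9) (.e (nat_lit 336013) (nat_lit 2) (.e (nat_lit 90170) (nat_lit 13) (.e (nat_lit 172046) (nat_lit 0) (.e (nat_lit 3406) (nat_lit 212) (.e (nat_lit 655375) (nat_lit 3) .nil)))))))) (.g (nat_lit 1) (.e (nat_lit 173037) (nat_lit 0) .nil) .nil))) 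
(.lf (nat_lit 502680) (.g (nat_lit 4183) (.e (nat_lit 163979) (nat_lit 30) (.e (nat_lit 573487) (nat_lit 14) (.e (nat_lit 73753) (nat_lit 8) (.e (nat_lit 557103) (nat_lit 14) (.e (nat_lit 180243) (nat_lit 5) (.e (nat_lit 532484) (nat_lit 0) (.e (nat_lit 7936) (nat_lit 149) (.e (nat_lit 761894) (nat_lit 15) .nil)))))))) (.g (nat_lit 1) (.e (nat_lit 173744) (nat_lit 0) .nil) .nil)))))) 
(.nd (nat_lit 7) (.nd (nat_lit 8) (.nd (nat_lit 9) 
(.lf (nat_lit 501848) (.g (nat_lit 4112) (.e (nat_lit 163978) (nat_lit 30) (.e (nat_lit 573489) (nat_lit 14) (.e (nat_lit 73755) (nat_lit 8) (.e (nat_lit 557097) (nat_lit 13) (.e (nat_lit 172067) (nat_lit 3) (.e (nat_lit 204821) (nat_lit 17) (.e (nat_lit 2264) (nat_lit 149) (.e (nat_lit 761899) (nat_lit 15) .nil)))))))) (.g (nat_lit 1) (.e (nat_lit 171648) (nat_lit 0) .nil) .nil))) 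
(.lf (nat_lit 502360) (.g (nat_lit 2258) (.e (nat_lit 163979) (nat_lit 30) (.e (nat_lit 573482) (nat_lit 13) (.e (nat_lit 65604) (nat_lit 9) (.e (nat_lit 336028) (nat_lit 3) (.e (nat_lit 106240) (nat_lit 32) (.e (nat_lit 475197) (nat_lit 40) (.e (nat_lit 704589) (nat_lit 3) .nil))))))) (.g (nat_lit 1) (.e (nat_lit 173292) (nat_lit 0) .nil) .nil)))) (.nd (nat_lit 9) 
(.lf (nat_lit 502104) (.g (nat_lit 4372) (.e (nat_lit 163978) (nat_lit 30) (.e (nat_lit 573492) (nat_lit 15) (.e (nat_lit 81956) (nat_lit 23) (.e (nat_lit 98359) (nat_lit 26) .nil)))) (.g (nat_lit 0) (.e (nat_lit 172780) (nat_lit 0) .nil) .nil))) 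
(.lf (nat_lit 502616) (.g (nat_lit 4359) (.e (nat_lit 163979) (nat_lit 30) (.e (nat_lit 573482) (nat_lit 13) (.e (nat_lit 65619) (nat_lit 10) (.e (nat_lit 344117) (nat_lit 21) (.e (nat_lit 516180) (nat_lit 15) (.e (nat_lit 475198) (nat_lit 40) (.e (nat_lit 704589) (nat_lit 3) .nil))))))) (.g (nat_lit 1) (.e (nat_lit 173556) (nat_lit 0) .nil) .nil))))) (.nd (nat_lit 8) (.nd (nat_lit 9) 
(.lf (nat_lit 501976) (.g (nat_lit 3854) (.e (nat_lit 163978) (nat_lit 30) (.e (nat_lit 573489) (nat_lit 14) (.e (nat_lit 73755) (nat_lit 8) (.e (nat_lit 557104) (nat_lit 14) (.e (nat_lit 180244) (nat_lit 5) (.e (nat_lit 532504) (nat_lit 1) (.e (nat_lit 57662) (nat_lit 152) (.e (nat_lit 2606) (nat_lit 163) .nil)))))))) (.g (nat_lit 1) (.e (nat_lit 172148) (nat_lit 0) .nil) .nil))) 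
(.lf (nat_lit 502488) (.g (nat_lit 4860) (.e (nat_lit 163979) (nat_lit 30) (.e (nat_lit 573482) (nat_lit 13) (.e (nat_lit 65619) (nat_lit 10) (.e (nat_lit 344117) (nat_lit 21) (.e (nat_lit 516151) (nat_lit 9) (.e (nat_lit 426104) (nat_lit 1) (.e (nat_lit 164345) (nat_lit 240) (.e (nat_lit 2601) (nat_lit 163) .nil)))))))) (.g (nat_lit 1) (.e (nat_lit 173424) (nat_lit 0) .nil) .nil)))) 
(.nd (nat_lit 9) 
(.lf (nat_lit 502232) (.g (nat_lit 2452) (.e (nat_lit 163979) (nat_lit 30) (.e (nat_lit 573482) (nat_lit 13) (.e (nat_lit 65604) (nat_lit 9) (.e (nat_lit 336013) (nat_lit 2) (.e (nat_lit 90170) (nat_lit 13) (.e (nat_lit 172059) (nat_lit 1) (.e (nat_lit 164346) (nat_lit 240) (.e (nat_lit 2607) (nat_lit 163) .nil)))))))) (.g (nat_lit 1) (.e (nat_lit 173120) (nat_lit 0) .nil) .nil))) 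
(.lf (nat_lit 502744) (.g (nat_lit 4199) (.e (nat_lit 163979) (nat_lit 30) (.e (nat_lit 573487) (nat_lit 14) (.e (nat_lit 73754) (nat_lit 8) (.e (nat_lit 557105) (nat_lit 14) (.e (nat_lit 180252) (nat_lit 10) (.e (nat_lit 573473) (nat_lit 12) (.e (nat_lit 57503) (nat_lit 38) (.e (nat_lit 638995) (nat_lit 7) .nil)))))))) (.g (nat_lit 1) (.e (nat_lit 173856) (nat_lit 0) .nil) .nil))))))) 
(.nd (nat_lit 6) (.nd (nat_lit 7) (.nd (nat_lit 8) (.nd (nat_lit 9) 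
(.lf (nat_lit 501816) (.g (nat_lit 3431) (.e (nat_lit 163978) (nat_lit 30) (.e (nat_lit 573489) (nat_lit 14) (.e (nat_lit 73755) (nat_lit 8) (.e (nat_lit 557096) (nat_lit 13) (.e (nat_lit 172067) (nat_lit 3) (.e (nat_lit 204815) (nat_lit 17) (.e (nat_lit 2271) (nat_lit 149) (.e (nat_lit 761899) (nat_lit 15) .nil)))))))) (.g (nat_lit 1) (.e (nat_lit 171588) (nat_lit 0) .nil) .nil))) 
(.lf (nat_lit 502328) (.g (nat_lit 2895) (.e (nat_lit 163979) (nat_lit 30) (.e (nat_lit 573482) (nat_lit 13) (.e (nat_lit 65604) (nat_lit 9) (.e (nat_lit 336028) (nat_lit 3) (.e (nat_lit 98365) (nat_lit 26) (.e (nat_lit 426107) (nat_lit 1) (.e (nat_lit 164347) (nat_lit 240) (.e (nat_lit 2601) (nat_lit 163) .nil)))))))) (.g (nat_lit 1) (.e (nat_lit 173239) (nat_lit 0) .nil) .nil)))) 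
(.nd (nat_lit 9) 
(.lf (nat_lit 502072) (.g (nat_lit 3205) (.e (nat_lit 163978) (nat_lit 30) (.e (nat_lit 573490) (nat_lit 15) (.e (nat_lit 81954) (nat_lit 23) (.e (nat_lit 98366) (nat_lit 27) (.e (nat_lit 434271) (nat_lit 38) (.e (nat_lit 655375) (nat_lit 3) .nil)))))) (.g (nat_lit 1) (.e (nat_lit 172718) (nat_lit 0) .nil) .nil))) 
(.lf (nat_lit 502584) (.g (nat_lit 2593) (.e (nat_lit 163979) (nat_lit 30) (.e (nat_lit 573482) (nat_lit 13) (.e (nat_lit 65619) (nat_lit 10) (.e (nat_lit 344117) (nat_lit 21) (.e (nat_lit 516168) (nat_lit 13) (.e (nat_lit 458774) (nat_lit 18) (.e (nat_lit 5548) (nat_lit 306) (.e (nat_lit 2611) (nat_lit 163) .nil)))))))) (.g (nat_lit 1) (.e (nat_lit 173521) (nat_lit 0) .nil) .nil))))) 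
(.nd (nat_lit 8) (.nd (nat_lit 9) 
(.lf (nat_lit 501944) (.g (nat_lit 5081) (.e (nat_lit 163978) (nat_lit 30) (.e (nat_lit 573489) (nat_lit 14) (.e (nat_lit 73755) (nat_lit 8) (.e (nat_lit 557103) (nat_lit 14) (.e (nat_lit 180244) (nat_lit 5) (.e (nat_lit 532504) (nat_lit 1) (.e (nat_lit 57663) (nat_lit 152) (.e (nat_lit 2612) (nat_lit 163) .nil)))))))) (.g (nat_lit 1) (.e (nat_lit 172005) (nat_lit 0) .nil) .nil))) 
(.lf (nat_lit 502456) (.g (nat_lit 4326) (.e (nat_lit 163979) (nat_lit 30) (.e (nat_lit 573482) (nat_lit 13) (.e (nat_lit 65619) (nat_lit 10) (.e (nat_lit 344117) (nat_lit 21) (.e (nat_lit 516151) (nat_lit 9) (.e (nat_lit 426025) (nat_lit 0) (.e (nat_lit 3397) (nat_lit 211) (.e (nat_lit 647180) (nat_lit 3) .nil)))))))) (.g (nat_lit 1) (.e (nat_lit 173392) (nat_lit 0) .nil) .nil)))) 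
(.nd (nat_lit 9) 
(.lf (nat_lit 502200) (.g (nat_lit 3909) (.e (nat_lit 163979) (nat_lit 30) (.e (nat_lit 573482) (nat_lit 13) (.e (nat_lit 65604) (nat_lit 9) (.e (nat_lit 336013) (nat_lit 2) (.e (nat_lit 90170) (nat_lit 13) (.e (nat_lit 172035) (nat_lit 0) (.e (nat_lit 3397) (nat_lit 211) (.e (nat_lit 647180) (nat_lit 3) .nil)))))))) (.g (nat_lit 1) (.e (nat_lit 173084) (nat_lit 0) .nil) .nil))) 
(.lf (nat_lit 502712) (.g (nat_lit 4654) (.e (nat_lit 163979) (nat_lit 30) (.e (nat_lit 573487) (nat_lit 14) (.e (nat_lit 73753) (nat_lit 8) (.e (nat_lit 557103) (nat_lit 14) (.e (nat_lit 180251) (nat_lit 10) (.e (nat_lit 573475) (nat_lit 12) (.e (nat_lit 57503) (nat_lit 38) (.e (nat_lit 638995) (nat_lit 7) .nil)))))))) (.g (nat_lit 1) (.e (nat_lit 173815) (nat_lit 0) .nil) .nil)))))) 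
(.nd (nat_lit 7) (.nd (nat_lit 8) (.nd (nat_lit 9) 
(.lf (nat_lit 501880) (.g (nat_lit 3543) (.e (nat_lit 163978) (nat_lit 30) (.e (nat_lit 573489) (nat_lit 14) (.e (nat_lit 73755) (nat_lit 8) (.e (nat_lit 557098) (nat_lit 13) (.e (nat_lit 172066) (nat_lit 3) (.e (nat_lit 204830) (nat_lit 18) (.e (nat_lit 57663) (nat_lit 152) (.e (nat_lit 2606) (nat_lit 163) .nil)))))))) (.g (nat_lit 1) (.e (nat_lit 171760) (nat_lit 0) .nil) .nil))) 
(.lf (nat_lit 502392) (.g (nat_lit 4182) (.e (nat_lit 163979) (nat_lit 30) (.e (nat_lit 573482) (nat_lit 13) (.e (nat_lit 65619) (nat_lit 10) (.e (nat_lit 344117) (nat_lit 21) (.e (nat_lit 516143) (nat_lit 9) (.e (nat_lit 426109) (nat_lit 1) (.e (nat_lit 164345) (nat_lit 240) (.e (nat_lit 2599) (nat_lit 163) .nil)))))))) (.g (nat_lit 1) (.e (nat_lit 173328) (nat_lit 0) .nil) .nil)))) 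
(.nd (nat_lit 9) 
(.lf (nat_lit 502136) (.g (nat_lit 448) (.e (nat_lit 163978) (nat_lit 30) (.e (nat_lit 573493) (nat_lit 15) (.e (nat_lit 81956) (nat_lit 23) .nil))) (.g (nat_lit 0) (.e (nat_lit 172907) (nat_lit 0) .nil) .nil))) 
(.lf (nat_lit 502648) (.g (nat_lit 6620) (.e (nat_lit 163979) (nat_lit 30) (.e (nat_lit 573484) (nat_lit 13) (.e (nat_lit 65610) (nat_lit 10) (.e (nat_lit 344117) (nat_lit 21) (.e (nat_lit 516179) (nat_lit 15) (.e (nat_lit 475199) (nat_lit 40) (.e (nat_lit 704589) (nat_lit 3) .nil))))))) (.g (nat_lit 1) (.e (nat_lit 173624) (nat_lit 0) .nil) .nil))))) (.nd (nat_lit 8) (.nd (nat_lit 9) 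
(.lf (nat_lit 502008) (.g (nat_lit 2261) (.e (nat_lit 163978) (nat_lit 30) (.e (nat_lit 573489) (nat_lit 14) (.e (nat_lit 73755) (nat_lit 8) (.e (nat_lit 557105) (nat_lit 14) (.e (nat_lit 180245) (nat_lit 5) (.e (nat_lit 532481) (nat_lit 0) (.e (nat_lit 2272) (nat_lit 149) (.e (nat_lit 761899) (nat_lit 15) .nil)))))))) (.g (nat_lit 1) (.e (nat_lit 172290) (nat_lit 0) .nil) .nil))) 
(.lf (nat_lit 502520) (.g (nat_lit 2497) (.e (nat_lit 163979) (nat_lit 30) (.e (nat_lit 573482) (nat_lit 13) (.e (nat_lit 65619) (nat_lit 10) (.e (nat_lit 344117) (nat_lit 21) (.e (nat_lit 516153) (nat_lit 9) .nil))))) (.g (nat_lit 0) (.e (nat_lit 173456) (nat_lit 0) .nil) .nil)))) (.nd (nat_lit 9) 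
(.lf (nat_lit 502264) (.g (nat_lit 4332) (.e (nat_lit 163979) (nat_lit 30) (.e (nat_lit 573482) (nat_lit 13) (.e (nat_lit 65604) (nat_lit 9) (.e (nat_lit 336013) (nat_lit 2) (.e (nat_lit 90170) (nat_lit 13) (.e (nat_lit 172070) (nat_lit 4) (.e (nat_lit 229664) (nat_lit 240) (.e (nat_lit 2602) (nat_lit 163) .nil)))))))) (.g (nat_lit 1) (.e (nat_lit 173152) (nat_lit 0) .nil) .nil))) 
(.lf (nat_lit 502776) (.g (nat_lit 2745) (.e (nat_lit 163979) (nat_lit 30) (.e (nat_lit 573488) (nat_lit 14) (.e (nat_lit 73753) (nat_lit 8) (.e (nat_lit 557105) (nat_lit 14) (.e (nat_lit 180251) (nat_lit 10) (.e (nat_lit 573478) (nat_lit 12) (.e (nat_lit 57502) (nat_lit 38) (.e (nat_lit 638995) (nat_lit 7) .nil)))))))) (.g (nat_lit 1) (.e (nat_lit 173901) (nat_lit 0) .nil) .nil)))))))))) 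
(.nd (nat_lit 3) (.nd (nat_lit 4) (.nd (nat_lit 5) (.nd (nat_lit 6) (.nd (nat_lit 7) 
(.nd (nat_lit 8) (.nd (nat_lit 9) 
(.lf (nat_lit 501764) (.g (nat_lit 4219) (.e (nat_lit 163978) (nat_lit 30) (.e (nat_lit 573489) (nat_lit 14) (.e (nat_lit 73754) (nat_lit 8) (.e (nat_lit 557100) (nat_lit 13) (.e (nat_lit 172067) (nat_lit 3) (.e (nat_lit 204830) (nat_lit 18) (.e (nat_lit 57663) (nat_lit 152) (.e (nat_lit 2612) (nat_lit 163) .nil)))))))) (.g (nat_lit 1) (.e (nat_lit 171435) (nat_lit 0) .nil) .nil))) 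
(.lf (nat_lit 502276) (.g (nat_lit 4439) (.e (nat_lit 163979) (nat_lit 30) (.e (nat_lit 573482) (nat_lit 13) (.e (nat_lit 65604) (nat_lit 9) (.e (nat_lit 336013) (nat_lit 2) (.e (nat_lit 90174) (nat_lit 14) .nil))))) (.g (nat_lit 0) (.e (nat_lit 173164) (nat_lit 0) .nil) .nil)))) (.nd (nat_lit 9) 
(.lf (nat_lit 502020) (.g (nat_lit 3184) (.e (nat_lit 163978) (nat_lit 30) (.e (nat_lit 573489) (nat_lit 14) (.e (nat_lit 73755) (nat_lit 8) (.e (nat_lit 557105) (nat_lit 14) (.e (nat_lit 180245) (nat_lit 5) (.e (nat_lit 532501) (nat_lit 1) (.e (nat_lit 57663) (nat_lit 152) (.e (nat_lit 2606) (nat_lit 163) .nil)))))))) (.g (nat_lit 1) (.e (nat_lit 172356) (nat_lit 0) .nil) .nil))) 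
(.lf (nat_lit 502532) (.g (nat_lit 1983) (.e (nat_lit 163979) (nat_lit 30) (.e (nat_lit 573482) (nat_lit 13) (.e (nat_lit 65619) (nat_lit 10) (.e (nat_lit 344117) (nat_lit 21) (.e (nat_lit 524032) (nat_lit 9) .nil))))) (.g (nat_lit 0) (.e (nat_lit 173468) (nat_lit 0) .nil) .nil))))) (.nd (nat_lit 8) (.nd (nat_lit 9) 
(.lf (nat_lit 501892) (.g (nat_lit 3146) (.e (nat_lit 163978) (nat_lit 30) (.e (nat_lit 573489) (nat_lit 14) (.e (nat_lit 73755) (nat_lit 8) (.e (nat_lit 557098) (nat_lit 13) (.e (nat_lit 172067) (nat_lit 3) (.e (nat_lit 204817) (nat_lit 17) (.e (nat_lit 2271) (nat_lit 149) (.e (nat_lit 761898) (nat_lit 15) .nil)))))))) (.g (nat_lit 1) (.e (nat_lit 171783) (nat_lit 0) .nil) .nil))) 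
(.lf (nat_lit 502404) (.g (nat_lit 3759) (.e (nat_lit 163979) (nat_lit 30) (.e (nat_lit 573482) (nat_lit 13) (.e (nat_lit 65619) (nat_lit 10) (.e (nat_lit 344117) (nat_lit 21) (.e (nat_lit 516144) (nat_lit 9) (.e (nat_lit 426376) (nat_lit 15) (.e (nat_lit 2056) (nat_lit 142) (.e (nat_lit 704589) (nat_lit 3) .nil)))))))) (.g (nat_lit 1) (.e (nat_lit 173340) (nat_lit 0) .nil) .nil)))) 
(.nd (nat_lit 9) 
(.lf (nat_lit 502148) (.g (nat_lit 3454) (.e (nat_lit 163978) (nat_lit 30) (.e (nat_lit 573493) (nat_lit 15) (.e (nat_lit 81956) (nat_lit 23) (.e (nat_lit 106240) (nat_lit 26) .nil)))) (.g (nat_lit 0) (.e (nat_lit 172931) (nat_lit 0) .nil) .nil))) 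
(.lf (nat_lit 502660) (.g (nat_lit 3373) (.e (nat_lit 163979) (nat_lit 30) (.e (nat_lit 573487) (nat_lit 14) (.e (nat_lit 73753) (nat_lit 8) (.e (nat_lit 557098) (nat_lit 13) (.e (nat_lit 172066) (nat_lit 3) (.e (nat_lit 204817) (nat_lit 17) (.e (nat_lit 7936) (nat_lit 149) (.e (nat_lit 761898) (nat_lit 15) .nil)))))))) (.g (nat_lit 1) (.e (nat_lit 173671) (nat_lit 0) .nil) .nil)))))) 
(.nd (nat_lit 7) (.nd (nat_lit 8) (.nd (nat_lit 9) 
(.lf (nat_lit 501828) (.g (nat_lit 3480) (.e (nat_lit 163978) (nat_lit 30) (.e (nat_lit 573489) (nat_lit 14) (.e (nat_lit 73755) (nat_lit 8) (.e (nat_lit 557097) (nat_lit 13) (.e (nat_lit 172065) (nat_lit 3) (.e (nat_lit 204821) (nat_lit 17) (.e (nat_lit 2270) (nat_lit 149) (.e (nat_lit 761899) (nat_lit 15) .nil)))))))) (.g (nat_lit 1) (.e (nat_lit 171617) (nat_lit 0) .nil) .nil))) 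
(.lf (nat_lit 502340) (.g (nat_lit 2251) (.e (nat_lit 163979) (nat_lit 30) (.e (nat_lit 573482) (nat_lit 13) (.e (nat_lit 65604) (nat_lit 9) (.e (nat_lit 336028) (nat_lit 3) (.e (nat_lit 98367) (nat_lit 27) (.e (nat_lit 434202) (nat_lit 18) (.e (nat_lit 5537) (nat_lit 306) (.e (nat_lit 2599) (nat_lit 163) .nil)))))))) (.g (nat_lit 1) (.e (nat_lit 173260) (nat_lit 0) .nil) .nil)))) 
(.nd (nat_lit 9) 
(.lf (nat_lit 502084) (.g (nat_lit 2272) (.e (nat_lit 163978) (nat_lit 30) (.e (nat_lit 573490) (nat_lit 15) (.e (nat_lit 81956) (nat_lit 23) (.e (nat_lit 98368) (nat_lit 27) .nil)))) (.g (nat_lit 0) (.e (nat_lit 172730) (nat_lit 0) .nil) .nil))) 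
(.lf (nat_lit 502596) (.g (nat_lit 4328) (.e (nat_lit 163979) (nat_lit 30) (.e (nat_lit 573482) (nat_lit 13) (.e (nat_lit 65619) (nat_lit 10) (.e (nat_lit 344117) (nat_lit 21) (.e (nat_lit 516170) (nat_lit 13) (.e (nat_lit 458774) (nat_lit 18) (.e (nat_lit 5548) (nat_lit 306) (.e (nat_lit 2601) (nat_lit 163) .nil)))))))) (.g (nat_lit 1) (.e (nat_lit 173536) (nat_lit 0) .nil) .nil))))) 
(.nd (nat_lit 8) (.nd (nat_lit 9) 
(.lf (nat_lit 501956) (.g (nat_lit 5216) (.e (nat_lit 163978) (nat_lit 30) (.e (nat_lit 573489) (nat_lit 14) (.e (nat_lit 73755) (nat_lit 8) (.e (nat_lit 557104) (nat_lit 14) (.e (nat_lit 180244) (nat_lit 5) (.e (nat_lit 532481) (nat_lit 0) (.e (nat_lit 2271) (nat_lit 149) (.e (nat_lit 761899) (nat_lit 15) .nil)))))))) (.g (nat_lit 1) (.e (nat_lit 172044) (nat_lit 0) .nil) .nil))) 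
(.lf (nat_lit 502468) (.g (nat_lit 3797) (.e (nat_lit 163979) (nat_lit 30) (.e (nat_lit 573482) (nat_lit 13) (.e (nat_lit 65619) (nat_lit 10) (.e (nat_lit 344117) (nat_lit 21) (.e (nat_lit 516151) (nat_lit 9) (.e (nat_lit 426042) (nat_lit 0) (.e (nat_lit 3403) (nat_lit 212) (.e (nat_lit 655374) (nat_lit 3) .nil)))))))) (.g (nat_lit 1) (.e (nat_lit 173404) (nat_lit 0) .nil) .nil)))) 
(.nd (nat_lit 9) 
(.lf (nat_lit 502212) (.g (nat_lit 4077) (.e (nat_lit 163979) (nat_lit 30) (.e (nat_lit 573482) (nat_lit 13) (.e (nat_lit 65604) (nat_lit 9) (.e (nat_lit 336013) (nat_lit 2) (.e (nat_lit 90170) (nat_lit 13) (.e (nat_lit 172046) (nat_lit 0) (.e (nat_lit 2458) (nat_lit 157) (.e (nat_lit 5548) (nat_lit 306) (.e (nat_lit 2599) (nat_lit 163) .nil))))))))) (.g (nat_lit 1) (.e (nat_lit 173099) (nat_lit 0) .nil) .nil))) 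
(.lf (nat_lit 502724) (.g (nat_lit 3612) (.e (nat_lit 163979) (nat_lit 30) (.e (nat_lit 573487) (nat_lit 14) (.e (nat_lit 73753) (nat_lit 8) (.e (nat_lit 557105) (nat_lit 14) (.e (nat_lit 180252) (nat_lit 10) (.e (nat_lit 573473) (nat_lit 12) (.e (nat_lit 57501) (nat_lit 37) (.e (nat_lit 630800) (nat_lit 7) .nil)))))))) (.g (nat_lit 1) (.e (nat_lit 173832) (nat_lit 0) .nil) .nil))))))) 
(.nd (nat_lit 6) (.nd (nat_lit 7) (.nd (nat_lit 8) (.nd (nat_lit 9) 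
(.lf (nat_lit 501796) (.g (nat_lit 3527) (.e (nat_lit 163978) (nat_lit 30) (.e (nat_lit 573489) (nat_lit 14) (.e (nat_lit 73754) (nat_lit 8) (.e (nat_lit 557103) (nat_lit 14) (.e (nat_lit 180243) (nat_lit 5) (.e (nat_lit 532504) (nat_lit 1) (.e (nat_lit 57663) (nat_lit 152) (.e (nat_lit 2612) (nat_lit 163) .nil)))))))) (.g (nat_lit 1) (.e (nat_lit 171526) (nat_lit 0) .nil) .nil))) 
(.lf (nat_lit 502308) (.g (nat_lit 2856) (.e (nat_lit 163979) (nat_lit 30) (.e (nat_lit 573482) (nat_lit 13) (.e (nat_lit 65604) (nat_lit 9) (.e (nat_lit 336028) (nat_lit 3) (.e (nat_lit 98359) (nat_lit 26) (.e (nat_lit 426104) (nat_lit 1) (.e (nat_lit 164347) (nat_lit 240) (.e (nat_lit 2599) (nat_lit 163) .nil)))))))) (.g (nat_lit 1) (.e (nat_lit 173211) (nat_lit 0) .nil) .nil)))) 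
(.nd (nat_lit 9) 
(.lf (nat_lit 502052) (.g (nat_lit 2231) (.e (nat_lit 163978) (nat_lit 30) (.e (nat_lit 573489) (nat_lit 14) (.e (nat_lit 73755) (nat_lit 8) (.e (nat_lit 557105) (nat_lit 14) (.e (nat_lit 180252) (nat_lit 10) (.e (nat_lit 573474) (nat_lit 12) (.e (nat_lit 65280) (nat_lit 38) (.e (nat_lit 638994) (nat_lit 7) .nil)))))))) (.g (nat_lit 1) (.e (nat_lit 172691) (nat_lit 0) .nil) .nil))) 
(.lf (nat_lit 502564) (.g (nat_lit 2403) (.e (nat_lit 163979) (nat_lit 30) (.e (nat_lit 573482) (nat_lit 13) (.e (nat_lit 65619) (nat_lit 10) (.e (nat_lit 344117) (nat_lit 21) (.e (nat_lit 516160) (nat_lit 10) (.e (nat_lit 434209) (nat_lit 18) (.e (nat_lit 5547) (nat_lit 306) (.e (nat_lit 2607) (nat_lit 163) .nil)))))))) (.g (nat_lit 1) (.e (nat_lit 173501) (nat_lit 0) .nil) .nil))))) 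
(.nd (nat_lit 8) (.nd (nat_lit 9) 
(.lf (nat_lit 501924) (.g (nat_lit 2880) (.e (nat_lit 163978) (nat_lit 30) (.e (nat_lit 573489) (nat_lit 14) (.e (nat_lit 73755) (nat_lit 8) (.e (nat_lit 557103) (nat_lit 14) (.e (nat_lit 180244) (nat_lit 5) (.e (nat_lit 532481) (nat_lit 0) (.e (nat_lit 2265) (nat_lit 149) (.e (nat_lit 761899) (nat_lit 15) .nil)))))))) (.g (nat_lit 1) (.e (nat_lit 171894) (nat_lit 0) .nil) .nil))) 
(.lf (nat_lit 502436) (.g (nat_lit 5110) (.e (nat_lit 163979) (nat_lit 30) (.e (nat_lit 573482) (nat_lit 13) (.e (nat_lit 65619) (nat_lit 10) (.e (nat_lit 344117) (nat_lit 21) (.e (nat_lit 516145) (nat_lit 9) (.e (nat_lit 426420) (nat_lit 15) (.e (nat_lit 2058) (nat_lit 142) (.e (nat_lit 704589) (nat_lit 3) .nil)))))))) (.g (nat_lit 1) (.e (nat_lit 173372) (nat_lit 0) .nil) .nil)))) 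
(.nd (nat_lit 9) 
(.lf (nat_lit 502180) (.g (nat_lit 3774) (.e (nat_lit 163979) (nat_lit 30) (.e (nat_lit 573482) (nat_lit 13) (.e (nat_lit 65563) (nat_lit 1) (.e (nat_lit 57931) (nat_lit 282) (.e (nat_lit 163943) (nat_lit 19) (.e (nat_lit 483344) (nat_lit 17) (.e (nat_lit 6712) (nat_lit 360) .nil))))))) (.g (nat_lit 1) (.e (nat_lit 173051) (nat_lit 0) .nil) .nil))) 
(.lf (nat_lit 502692) (.g (nat_lit 4351) (.e (nat_lit 163979) (nat_lit 30) (.e (nat_lit 573487) (nat_lit 14) (.e (nat_lit 73753) (nat_lit 8) (.e (nat_lit 557103) (nat_lit 14) (.e (nat_lit 180250) (nat_lit 10) (.e (nat_lit 573473) (nat_lit 12) (.e (nat_lit 57504) (nat_lit 38) (.e (nat_lit 638995) (nat_lit 7) .nil)))))))) (.g (nat_lit 1) (.e (nat_lit 173792) (nat_lit 0) .nil) .nil)))))) 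
(.nd (nat_lit 7) (.nd (nat_lit 8) (.nd (nat_lit 9) 
(.lf (nat_lit 501860) (.g (nat_lit 4813) (.e (nat_lit 163978) (nat_lit 30) (.e (nat_lit 573489) (nat_lit 14) (.e (nat_lit 73755) (nat_lit 8) (.e (nat_lit 557098) (nat_lit 13) (.e (nat_lit 172065) (nat_lit 3) (.e (nat_lit 204817) (nat_lit 17) (.e (nat_lit 7936) (nat_lit 149) (.e (nat_lit 761897) (nat_lit 15) .nil)))))))) (.g (nat_lit 1) (.e (nat_lit 171709) (nat_lit 0) .nil) .nil))) 
(.lf (nat_lit 502372) (.g (nat_lit 3312) (.e (nat_lit 163979) (nat_lit 30) (.e (nat_lit 573482) (nat_lit 13) (.e (nat_lit 65613) (nat_lit 10) (.e (nat_lit 344118) (nat_lit 21) (.e (nat_lit 516179) (nat_lit 15) (.e (nat_lit 475199) (nat_lit 40) (.e (nat_lit 704589) (nat_lit 3) .nil))))))) (.g (nat_lit 1) (.e (nat_lit 173305) (nat_lit 0) .nil) .nil)))) (.nd (nat_lit 9) 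
(.lf (nat_lit 502116) (.g (nat_lit 6303) (.e (nat_lit 163978) (nat_lit 30) (.e (nat_lit 573493) (nat_lit 15) (.e (nat_lit 81953) (nat_lit 22) (.e (nat_lit 90169) (nat_lit 13) .nil)))) (.g (nat_lit 0) (.e (nat_lit 172885) (nat_lit 0) .nil) .nil))) 
(.lf (nat_lit 502628) (.g (nat_lit 2495) (.e (nat_lit 163979) (nat_lit 30) (.e (nat_lit 573482) (nat_lit 13) (.e (nat_lit 65619) (nat_lit 10) (.e (nat_lit 344118) (nat_lit 21) (.e (nat_lit 516182) (nat_lit 15) (.e (nat_lit 475199) (nat_lit 40) (.e (nat_lit 704589) (nat_lit 3) .nil))))))) (.g (nat_lit 1) (.e (nat_lit 173568) (nat_lit 0) .nil) .nil))))) (.nd (nat_lit 8) (.nd (nat_lit 9) 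
(.lf (nat_lit 501988) (.g (nat_lit 2430) (.e (nat_lit 163978) (nat_lit 30) (.e (nat_lit 573489) (nat_lit 14) (.e (nat_lit 73755) (nat_lit 8) (.e (nat_lit 557105) (nat_lit 14) (.e (nat_lit 180242) (nat_lit 5) (.e (nat_lit 532503) (nat_lit 1) (.e (nat_lit 57659) (nat_lit 152) (.e (nat_lit 2612) (nat_lit 163) .nil)))))))) (.g (nat_lit 1) (.e (nat_lit 172218) (nat_lit 0) .nil) .nil))) 
(.lf (nat_lit 502500) (.g (nat_lit 3729) (.e (nat_lit 163979) (nat_lit 30) (.e (nat_lit 573482) (nat_lit 13) (.e (nat_lit 65619) (nat_lit 10) (.e (nat_lit 344117) (nat_lit 21) (.e (nat_lit 516151) (nat_lit 9) (.e (nat_lit 426410) (nat_lit 15) (.e (nat_lit 2056) (nat_lit 142) (.e (nat_lit 704589) (nat_lit 3) .nil)))))))) (.g (nat_lit 1) (.e (nat_lit 173436) (nat_lit 0) .nil) .nil)))) 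
(.nd (nat_lit 9) 
(.lf (nat_lit 502244) (.g (nat_lit 4889) (.e (nat_lit 163979) (nat_lit 30) (.e (nat_lit 573482) (nat_lit 13) (.e (nat_lit 65604) (nat_lit 9) (.e (nat_lit 336013) (nat_lit 2) (.e (nat_lit 90170) (nat_lit 13) (.e (nat_lit 172061) (nat_lit 1) (.e (nat_lit 164345) (nat_lit 240) (.e (nat_lit 2610) (nat_lit 163) .nil)))))))) (.g (nat_lit 1) (.e (nat_lit 173132) (nat_lit 0) .nil) .nil))) 
(.lf (nat_lit 502756) (.g (nat_lit 3970) (.e (nat_lit 163979) (nat_lit 30) (.e (nat_lit 573487) (nat_lit 14) (.e (nat_lit 73755) (nat_lit 8) (.e (nat_lit 557105) (nat_lit 14) (.e (nat_lit 180251) (nat_lit 10) (.e (nat_lit 573475) (nat_lit 12) (.e (nat_lit 57503) (nat_lit 38) (.e (nat_lit 638995) (nat_lit 7) .nil)))))))) (.g (nat_lit 1) (.e (nat_lit 173870) (nat_lit 0) .nil) .nil)))))))) 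
(.nd (nat_lit 5) (.nd (nat_lit 6) (.nd (nat_lit 7) (.nd (nat_lit 8) (.nd (nat_lit 9) 
(.lf (nat_lit 501780) (.g (nat_lit 2458) (.e (nat_lit 163978) (nat_lit 30) (.e (nat_lit 573489) (nat_lit 14) (.e (nat_lit 73754) (nat_lit 8) (.e (nat_lit 557101) (nat_lit 13) (.e (nat_lit 172066) (nat_lit 3) (.e (nat_lit 204815) (nat_lit 17) (.e (nat_lit 2271) (nat_lit 149) (.e (nat_lit 761899) (nat_lit 15) .nil)))))))) (.g (nat_lit 1) (.e (nat_lit 171484) (nat_lit 0) .nil) .nil))) 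
(.lf (nat_lit 502292) (.g (nat_lit 2392) (.e (nat_lit 163979) (nat_lit 30) (.e (nat_lit 573482) (nat_lit 13) (.e (nat_lit 65604) (nat_lit 9) (.e (nat_lit 336028) (nat_lit 3) (.e (nat_lit 98359) (nat_lit 26) (.e (nat_lit 426003) (nat_lit 0) (.e (nat_lit 3402) (nat_lit 211) (.e (nat_lit 647180) (nat_lit 3) .nil)))))))) (.g (nat_lit 1) (.e (nat_lit 173182) (nat_lit 0) .nil) .nil)))) (.nd (nat_lit 9) 
(.lf (nat_lit 502036) (.g (nat_lit 2716) (.e (nat_lit 163978) (nat_lit 30) (.e (nat_lit 573489) (nat_lit 14) (.e (nat_lit 73755) (nat_lit 8) (.e (nat_lit 557105) (nat_lit 14) (.e (nat_lit 180251) (nat_lit 10) (.e (nat_lit 573477) (nat_lit 12) (.e (nat_lit 57500) (nat_lit 37) (.e (nat_lit 630799) (nat_lit 7) .nil)))))))) (.g (nat_lit 1) (.e (nat_lit 172439) (nat_lit 0) .nil) .nil))) 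
(.lf (nat_lit 502548) (.g (nat_lit 2575) (.e (nat_lit 163979) (nat_lit 30) (.e (nat_lit 573482) (nat_lit 13) (.e (nat_lit 65619) (nat_lit 10) (.e (nat_lit 344117) (nat_lit 21) (.e (nat_lit 516159) (nat_lit 10) (.e (nat_lit 434212) (nat_lit 18) (.e (nat_lit 5548) (nat_lit 306) (.e (nat_lit 2611) (nat_lit 163) .nil)))))))) (.g (nat_lit 1) (.e (nat_lit 173484) (nat_lit 0) .nil) .nil))))) 
(.nd (nat_lit 8) (.nd (nat_lit 9) 
(.lf (nat_lit 501908) (.g (nat_lit 3671) (.e (nat_lit 163978) (nat_lit 30) (.e (nat_lit 573489) (nat_lit 14) (.e (nat_lit 73755) (nat_lit 8) (.e (nat_lit 557100) (nat_lit 13) (.e (nat_lit 172065) (nat_lit 3) (.e (nat_lit 204817) (nat_lit 17) (.e (nat_lit 7936) (nat_lit 149) (.e (nat_lit 761897) (nat_lit 15) .nil)))))))) (.g (nat_lit 1) (.e (nat_lit 171841) (nat_lit 0) .nil) .nil))) 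
(.lf (nat_lit 502420) (.g (nat_lit 4204) (.e (nat_lit 163979) (nat_lit 30) (.e (nat_lit 573482) (nat_lit 13) (.e (nat_lit 65619) (nat_lit 10) (.e (nat_lit 344117) (nat_lit 21) (.e (nat_lit 516145) (nat_lit 9) (.e (nat_lit 433920) (nat_lit 1) (.e (nat_lit 164348) (nat_lit 240) (.e (nat_lit 2610) (nat_lit 163) .nil)))))))) (.g (nat_lit 1) (.e (nat_lit 173356) (nat_lit 0) .nil) .nil)))) 
(.nd (nat_lit 9) 
(.lf (nat_lit 502164) (.g (nat_lit 2766) (.e (nat_lit 163979) (nat_lit 30) (.e (nat_lit 573479) (nat_lit 13) (.e (nat_lit 65610) (nat_lit 10) (.e (nat_lit 344117) (nat_lit 21) (.e (nat_lit 516179) (nat_lit 15) .nil))))) (.g (nat_lit 0) (.e (nat_lit 173032) (nat_lit 0) .nil) .nil))) 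
(.lf (nat_lit 502676) (.g (nat_lit 2116) (.e (nat_lit 163979) (nat_lit 30) (.e (nat_lit 573487) (nat_lit 14) (.e (nat_lit 73753) (nat_lit 8) (.e (nat_lit 557101) (nat_lit 13) (.e (nat_lit 172066) (nat_lit 3) .nil))))) (.g (nat_lit 0) (.e (nat_lit 173729) (nat_lit 0) .nil) .nil)))))) (.nd (nat_lit 7) (.nd (nat_lit 8) (.nd (nat_lit 9) 
(.lf (nat_lit 501844) (.g (nat_lit 4120) (.e (nat_lit 163978) (nat_lit 30) (.e (nat_lit 573489) (nat_lit 14) (.e (nat_lit 73755) (nat_lit 8) (.e (nat_lit 557097) (nat_lit 13) (.e (nat_lit 172067) (nat_lit 3) (.e (nat_lit 204817) (nat_lit 17) (.e (nat_lit 2272) (nat_lit 149) (.e (nat_lit 761899) (nat_lit 15) .nil)))))))) (.g (nat_lit 1) (.e (nat_lit 171642) (nat_lit 0) .nil) .nil))) 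
(.lf (nat_lit 502356) (.g (nat_lit 3379) (.e (nat_lit 163979) (nat_lit 30) (.e (nat_lit 573482) (nat_lit 13) (.e (nat_lit 65604) (nat_lit 9) (.e (nat_lit 336028) (nat_lit 3) (.e (nat_lit 98386) (nat_lit 32) (.e (nat_lit 475196) (nat_lit 40) (.e (nat_lit 704589) (nat_lit 3) .nil))))))) (.g (nat_lit 1) (.e (nat_lit 173288) (nat_lit 0) .nil) .nil)))) (.nd (nat_lit 9) 
(.lf (nat_lit 502100) (.g (nat_lit 3786) (.e (nat_lit 163978) (nat_lit 30) (.e (nat_lit 573491) (nat_lit 15) (.e (nat_lit 81956) (nat_lit 23) (.e (nat_lit 98367) (nat_lit 27) (.e (nat_lit 434271) (nat_lit 38) (.e (nat_lit 655375) (nat_lit 3) .nil)))))) (.g (nat_lit 1) (.e (nat_lit 172772) (nat_lit 0) .nil) .nil))) 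
(.lf (nat_lit 502612) (.g (nat_lit 4671) (.e (nat_lit 163979) (nat_lit 30) (.e (nat_lit 573482) (nat_lit 13) (.e (nat_lit 65619) (nat_lit 10) (.e (nat_lit 344117) (nat_lit 21) (.e (nat_lit 516179) (nat_lit 15) (.e (nat_lit 475198) (nat_lit 40) (.e (nat_lit 704589) (nat_lit 3) .nil))))))) (.g (nat_lit 1) (.e (nat_lit 173552) (nat_lit 0) .nil) .nil))))) (.nd (nat_lit 8) (.nd (nat_lit 9) 
(.lf (nat_lit 501972) (.g (nat_lit 5357) (.e (nat_lit 163978) (nat_lit 30) (.e (nat_lit 573489) (nat_lit 14) (.e (nat_lit 73755) (nat_lit 8) (.e (nat_lit 557104) (nat_lit 14) (.e (nat_lit 180244) (nat_lit 5) (.e (nat_lit 532501) (nat_lit 1) (.e (nat_lit 57663) (nat_lit 152) (.e (nat_lit 2612) (nat_lit 163) .nil)))))))) (.g (nat_lit 1) (.e (nat_lit 172105) (nat_lit 0) .nil) .nil))) 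
(.lf (nat_lit 502484) (.g (nat_lit 3931) (.e (nat_lit 163979) (nat_lit 30) (.e (nat_lit 573482) (nat_lit 13) (.e (nat_lit 65619) (nat_lit 10) (.e (nat_lit 344117) (nat_lit 21) (.e (nat_lit 516151) (nat_lit 9) (.e (nat_lit 426097) (nat_lit 1) (.e (nat_lit 164347) (nat_lit 240) (.e (nat_lit 2601) (nat_lit 163) .nil)))))))) (.g (nat_lit 1) (.e (nat_lit 173420) (nat_lit 0) .nil) .nil)))) 
(.nd (nat_lit 9) 
(.lf (nat_lit 502228) (.g (nat_lit 4187) (.e (nat_lit 163979) (nat_lit 30) (.e (nat_lit 573482) (nat_lit 13) (.e (nat_lit 65604) (nat_lit 9) (.e (nat_lit 336013) (nat_lit 2) (.e (nat_lit 90170) (nat_lit 13) (.e (nat_lit 172052) (nat_lit 0) (.e (nat_lit 3409) (nat_lit 212) (.e (nat_lit 655375) (nat_lit 3) .nil)))))))) (.g (nat_lit 1) (.e (nat_lit 173116) (nat_lit 0) .nil) .nil))) 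
(.lf (nat_lit 502740) (.g (nat_lit 4811) (.e (nat_lit 163979) (nat_lit 30) (.e (nat_lit 573487) (nat_lit 14) (.e (nat_lit 73754) (nat_lit 8) (.e (nat_lit 557105) (nat_lit 14) (.e (nat_lit 180251) (nat_lit 10) (.e (nat_lit 573475) (nat_lit 12) (.e (nat_lit 57503) (nat_lit 38) (.e (nat_lit 638995) (nat_lit 7) .nil)))))))) (.g (nat_lit 1) (.e (nat_lit 173850) (nat_lit 0) .nil) .nil))))))) 
(.nd (nat_lit 6) (.nd (nat_lit 7) (.nd (nat_lit 8) (.nd (nat_lit 9) 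
(.lf (nat_lit 501812) (.g (nat_lit 2086) (.e (nat_lit 163978) (nat_lit 30) (.e (nat_lit 573489) (nat_lit 14) (.e (nat_lit 73755) (nat_lit 8) (.e (nat_lit 557096) (nat_lit 13) (.e (nat_lit 172067) (nat_lit 3) .nil))))) (.g (nat_lit 0) (.e (nat_lit 171584) (nat_lit 0) .nil) .nil))) 
(.lf (nat_lit 502324) (.g (nat_lit 2864) (.e (nat_lit 163979) (nat_lit 30) (.e (nat_lit 573482) (nat_lit 13) (.e (nat_lit 65604) (nat_lit 9) (.e (nat_lit 336028) (nat_lit 3) (.e (nat_lit 98362) (nat_lit 26) (.e (nat_lit 426025) (nat_lit 0) (.e (nat_lit 3397) (nat_lit 211) (.e (nat_lit 647181) (nat_lit 3) .nil)))))))) (.g (nat_lit 1) (.e (nat_lit 173235) (nat_lit 0) .nil) .nil)))) (.nd (nat_lit 9) 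
(.lf (nat_lit 502068) (.g (nat_lit 3081) (.e (nat_lit 163978) (nat_lit 30) (.e (nat_lit 573490) (nat_lit 15) (.e (nat_lit 81953) (nat_lit 22) (.e (nat_lit 90170) (nat_lit 13) (.e (nat_lit 172043) (nat_lit 0) .nil))))) (.g (nat_lit 0) (.e (nat_lit 172711) (nat_lit 0) .nil) .nil))) 
(.lf (nat_lit 502580) (.g (nat_lit 2783) (.e (nat_lit 163979) (nat_lit 30) (.e (nat_lit 573482) (nat_lit 13) (.e (nat_lit 65619) (nat_lit 10) (.e (nat_lit 344117) (nat_lit 21) (.e (nat_lit 516161) (nat_lit 10) (.e (nat_lit 434272) (nat_lit 38) (.e (nat_lit 655373) (nat_lit 3) .nil))))))) (.g (nat_lit 1) (.e (nat_lit 173517) (nat_lit 0) .nil) .nil))))) (.nd (nat_lit 8) (.nd (nat_lit 9) 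
(.lf (nat_lit 501940) (.g (nat_lit 4166) (.e (nat_lit 163978) (nat_lit 30) (.e (nat_lit 573489) (nat_lit 14) (.e (nat_lit 73755) (nat_lit 8) (.e (nat_lit 557103) (nat_lit 14) (.e (nat_lit 180244) (nat_lit 5) (.e (nat_lit 532503) (nat_lit 1) (.e (nat_lit 57657) (nat_lit 152) (.e (nat_lit 2606) (nat_lit 163) .nil)))))))) (.g (nat_lit 1) (.e (nat_lit 171979) (nat_lit 0) .nil) .nil))) 
(.lf (nat_lit 502452) (.g (nat_lit 3877) (.e (nat_lit 163979) (nat_lit 30) (.e (nat_lit 573482) (nat_lit 13) (.e (nat_lit 65619) (nat_lit 10) (.e (nat_lit 344117) (nat_lit 21) (.e (nat_lit 516151) (nat_lit 9) (.e (nat_lit 426003) (nat_lit 0) (.e (nat_lit 3401) (nat_lit 211) (.e (nat_lit 647181) (nat_lit 3) .nil)))))))) (.g (nat_lit 1) (.e (nat_lit 173388) (nat_lit 0) .nil) .nil)))) 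
(.nd (nat_lit 9) 
(.lf (nat_lit 502196) (.g (nat_lit 3172) (.e (nat_lit 163979) (nat_lit 30) (.e (nat_lit 573482) (nat_lit 13) (.e (nat_lit 65604) (nat_lit 9) (.e (nat_lit 336013) (nat_lit 2) (.e (nat_lit 90170) (nat_lit 13) (.e (nat_lit 172033) (nat_lit 0) (.e (nat_lit 3399) (nat_lit 211) (.e (nat_lit 647180) (nat_lit 3) .nil)))))))) (.g (nat_lit 1) (.e (nat_lit 173080) (nat_lit 0) .nil) .nil))) 
(.lf (nat_lit 502708) (.g (nat_lit 3682) (.e (nat_lit 163979) (nat_lit 30) (.e (nat_lit 573487) (nat_lit 14) (.e (nat_lit 73753) (nat_lit 8) (.e (nat_lit 557103) (nat_lit 14) (.e (nat_lit 180250) (nat_lit 10) (.e (nat_lit 573478) (nat_lit 12) (.e (nat_lit 57500) (nat_lit 37) (.e (nat_lit 630800) (nat_lit 7) .nil)))))))) (.g (nat_lit 1) (.e (nat_lit 173811) (nat_lit 0) .nil) .nil)))))) 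
(.nd (nat_lit 7) (.nd (nat_lit 8) (.nd (nat_lit 9) 
(.lf (nat_lit 501876) (.g (nat_lit 3215) (.e (nat_lit 163978) (nat_lit 30) (.e (nat_lit 573489) (nat_lit 14) (.e (nat_lit 73755) (nat_lit 8) (.e (nat_lit 557098) (nat_lit 13) (.e (nat_lit 172066) (nat_lit 3) (.e (nat_lit 204821) (nat_lit 17) (.e (nat_lit 2270) (nat_lit 149) (.e (nat_lit 761897) (nat_lit 15) .nil)))))))) (.g (nat_lit 1) (.e (nat_lit 171746) (nat_lit 0) .nil) .nil))) 
(.lf (nat_lit 502388) (.g (nat_lit 2146) (.e (nat_lit 163979) (nat_lit 30) (.e (nat_lit 573482) (nat_lit 13) (.e (nat_lit 65619) (nat_lit 10) (.e (nat_lit 344117) (nat_lit 21) (.e (nat_lit 516143) (nat_lit 9) .nil))))) (.g (nat_lit 0) (.e (nat_lit 173324) (nat_lit 0) .nil) .nil)))) (.nd (nat_lit 9) 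
(.lf (nat_lit 502132) (.g (nat_lit 4599) (.e (nat_lit 163978) (nat_lit 30) (.e (nat_lit 573493) (nat_lit 15) (.e (nat_lit 81954) (nat_lit 23) (.e (nat_lit 98366) (nat_lit 27) (.e (nat_lit 434272) (nat_lit 38) (.e (nat_lit 655375) (nat_lit 3) .nil)))))) (.g (nat_lit 1) (.e (nat_lit 172903) (nat_lit 0) .nil) .nil))) 
(.lf (nat_lit 502644) (.g (nat_lit 5019) (.e (nat_lit 163979) (nat_lit 30) (.e (nat_lit 573483) (nat_lit 13) (.e (nat_lit 65610) (nat_lit 10) (.e (nat_lit 344117) (nat_lit 21) (.e (nat_lit 516179) (nat_lit 15) (.e (nat_lit 475199) (nat_lit 40) (.e (nat_lit 704589) (nat_lit 3) .nil))))))) (.g (nat_lit 1) (.e (nat_lit 173620) (nat_lit 0) .nil) .nil))))) (.nd (nat_lit 8) (.nd (nat_lit 9) 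
(.lf (nat_lit 502004) (.g (nat_lit 2585) (.e (nat_lit 163978) (nat_lit 30) (.e (nat_lit 573489) (nat_lit 14) (.e (nat_lit 73755) (nat_lit 8) (.e (nat_lit 557105) (nat_lit 14) (.e (nat_lit 180244) (nat_lit 5) (.e (nat_lit 532504) (nat_lit 1) (.e (nat_lit 57662) (nat_lit 152) (.e (nat_lit 2606) (nat_lit 163) .nil)))))))) (.g (nat_lit 1) (.e (nat_lit 172283) (nat_lit 0) .nil) .nil))) 
(.lf (nat_lit 502516) (.g (nat_lit 2658) (.e (nat_lit 163979) (nat_lit 30) (.e (nat_lit 573482) (nat_lit 13) (.e (nat_lit 65619) (nat_lit 10) (.e (nat_lit 344117) (nat_lit 21) (.e (nat_lit 516152) (nat_lit 9) (.e (nat_lit 426109) (nat_lit 1) (.e (nat_lit 164347) (nat_lit 240) (.e (nat_lit 2601) (nat_lit 163) .nil)))))))) (.g (nat_lit 1) (.e (nat_lit 173452) (nat_lit 0) .nil) .nil)))) 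
(.nd (nat_lit 9) 
(.lf (nat_lit 502260) (.g (nat_lit 3481) (.e (nat_lit 163979) (nat_lit 30) (.e (nat_lit 573482) (nat_lit 13) (.e (nat_lit 65604) (nat_lit 9) (.e (nat_lit 336013) (nat_lit 2) (.e (nat_lit 90170) (nat_lit 13) (.e (nat_lit 172069) (nat_lit 4) (.e (nat_lit 229665) (nat_lit 240) (.e (nat_lit 2602) (nat_lit 163) .nil)))))))) (.g (nat_lit 1) (.e (nat_lit 173148) (nat_lit 0) .nil) .nil))) 
(.lf (nat_lit 502772) (.g (nat_lit 2702) (.e (nat_lit 163979) (nat_lit 30) (.e (nat_lit 573488) (nat_lit 14) (.e (nat_lit 73753) (nat_lit 8) (.e (nat_lit 557103) (nat_lit 14) (.e (nat_lit 180250) (nat_lit 10) (.e (nat_lit 573478) (nat_lit 12) (.e (nat_lit 57502) (nat_lit 38) (.e (nat_lit 638995) (nat_lit 7) .nil)))))))) (.g (nat_lit 1) (.e (nat_lit 173897) (nat_lit 0) .nil) .nil))))))))) 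
(.nd (nat_lit 4) (.nd (nat_lit 5) (.nd (nat_lit 6) (.nd (nat_lit 7) (.nd (nat_lit 8) 
(.nd (nat_lit 9) 
(.lf (nat_lit 501772) (.g (nat_lit 3682) (.e (nat_lit 163978) (nat_lit 30) (.e (nat_lit 573489) (nat_lit 14) (.e (nat_lit 73754) (nat_lit 8) (.e (nat_lit 557101) (nat_lit 13) (.e (nat_lit 172065) (nat_lit 3) (.e (nat_lit 204817) (nat_lit 17) (.e (nat_lit 7936) (nat_lit 149) (.e (nat_lit 761897) (nat_lit 15) .nil)))))))) (.g (nat_lit 1) (.e (nat_lit 171472) (nat_lit 0) .nil) .nil))) 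
(.lf (nat_lit 502284) (.g (nat_lit 4663) (.e (nat_lit 163979) (nat_lit 30) (.e (nat_lit 573482) (nat_lit 13) (.e (nat_lit 65604) (nat_lit 9) (.e (nat_lit 336028) (nat_lit 3) (.e (nat_lit 98354) (nat_lit 26) (.e (nat_lit 426109) (nat_lit 1) (.e (nat_lit 164347) (nat_lit 240) (.e (nat_lit 2610) (nat_lit 163) .nil)))))))) (.g (nat_lit 1) (.e (nat_lit 173174) (nat_lit 0) .nil) .nil)))) 
(.nd (nat_lit 9) 
(.lf (nat_lit 502028) (.g (nat_lit 3004) (.e (nat_lit 163978) (nat_lit 30) (.e (nat_lit 573489) (nat_lit 14) (.e (nat_lit 73755) (nat_lit 8) (.e (nat_lit 557105) (nat_lit 14) (.e (nat_lit 180250) (nat_lit 10) (.e (nat_lit 573473) (nat_lit 12) (.e (nat_lit 57503) (nat_lit 38) (.e (nat_lit 638995) (nat_lit 7) .nil)))))))) (.g (nat_lit 1) (.e (nat_lit 172431) (nat_lit 0) .nil) .nil))) 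
(.lf (nat_lit 502540) (.g (nat_lit 3193) (.e (nat_lit 163979) (nat_lit 30) (.e (nat_lit 573482) (nat_lit 13) (.e (nat_lit 65619) (nat_lit 10) (.e (nat_lit 344117) (nat_lit 21) (.e (nat_lit 516159) (nat_lit 10) (.e (nat_lit 434209) (nat_lit 18) (.e (nat_lit 5546) (nat_lit 306) (.e (nat_lit 2598) (nat_lit 163) .nil)))))))) (.g (nat_lit 1) (.e (nat_lit 173476) (nat_lit 0) .nil) .nil))))) 
(.nd (nat_lit 8) (.nd (nat_lit 9) 
(.lf (nat_lit 501900) (.g (nat_lit 3744) (.e (nat_lit 163978) (nat_lit 30) (.e (nat_lit 573489) (nat_lit 14) (.e (nat_lit 73755) (nat_lit 8) (.e (nat_lit 557098) (nat_lit 13) (.e (nat_lit 172131) (nat_lit 15) (.e (nat_lit 1798) (nat_lit 119) (.e (nat_lit 516120) (nat_lit 1) (.e (nat_lit 164304) (nat_lit 226) (.e (nat_lit 2612) (nat_lit 163) .nil))))))))) (.g (nat_lit 1) (.e (nat_lit 171816) (nat_lit 0) .nil) .nil))) 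
(.lf (nat_lit 502412) (.g (nat_lit 3014) (.e (nat_lit 163979) (nat_lit 30) (.e (nat_lit 573482) (nat_lit 13) (.e (nat_lit 65619) (nat_lit 10) (.e (nat_lit 344117) (nat_lit 21) (.e (nat_lit 516144) (nat_lit 9) (.e (nat_lit 426402) (nat_lit 15) (.e (nat_lit 2046) (nat_lit 142) (.e (nat_lit 704589) (nat_lit 3) .nil)))))))) (.g (nat_lit 1) (.e (nat_lit 173348) (nat_lit 0) .nil) .nil)))) 
(.nd (nat_lit 9) 
(.lf (nat_lit 502156) (.g (nat_lit 3537) (.e (nat_lit 163978) (nat_lit 30) (.e (nat_lit 573493) (nat_lit 15) (.e (nat_lit 81956) (nat_lit 23) (.e (nat_lit 98384) (nat_lit 32) .nil)))) (.g (nat_lit 0) (.e (nat_lit 172944) (nat_lit 0) .nil) .nil))) 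
(.lf (nat_lit 502668) (.g (nat_lit 3815) (.e (nat_lit 163979) (nat_lit 30) (.e (nat_lit 573487) (nat_lit 14) (.e (nat_lit 73753) (nat_lit 8) (.e (nat_lit 557100) (nat_lit 13) (.e (nat_lit 172065) (nat_lit 3) (.e (nat_lit 204817) (nat_lit 17) (.e (nat_lit 7936) (nat_lit 149) (.e (nat_lit 761894) (nat_lit 15) .nil)))))))) (.g (nat_lit 1) (.e (nat_lit 173697) (nat_lit 0) .nil) .nil)))))) 
(.nd (nat_lit 7) (.nd (nat_lit 8) (.nd (nat_lit 9) 
(.lf (nat_lit 501836) (.g (nat_lit 3489) (.e (nat_lit 163978) (nat_lit 30) (.e (nat_lit 573489) (nat_lit 14) (.e (nat_lit 73755) (nat_lit 8) (.e (nat_lit 557097) (nat_lit 13) (.e (nat_lit 172066) (nat_lit 3) (.e (nat_lit 204821) (nat_lit 17) (.e (nat_lit 2264) (nat_lit 149) (.e (nat_lit 761899) (nat_lit 15) .nil)))))))) (.g (nat_lit 1) (.e (nat_lit 171627) (nat_lit 0) .nil) .nil))) 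
(.lf (nat_lit 502348) (.g (nat_lit 4930) (.e (nat_lit 163979) (nat_lit 30) (.e (nat_lit 573482) (nat_lit 13) (.e (nat_lit 65604) (nat_lit 9) (.e (nat_lit 336028) (nat_lit 3) (.e (nat_lit 98367) (nat_lit 27) (.e (nat_lit 434272) (nat_lit 38) (.e (nat_lit 655374) (nat_lit 3) .nil))))))) (.g (nat_lit 1) (.e (nat_lit 173279) (nat_lit 0) .nil) .nil)))) (.nd (nat_lit 9) 
(.lf (nat_lit 502092) (.g (nat_lit 2651) (.e (nat_lit 163978) (nat_lit 30) (.e (nat_lit 573491) (nat_lit 15) (.e (nat_lit 81953) (nat_lit 22) (.e (nat_lit 90170) (nat_lit 13) (.e (nat_lit 172046) (nat_lit 0) .nil))))) (.g (nat_lit 0) (.e (nat_lit 172764) (nat_lit 0) .nil) .nil))) 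
(.lf (nat_lit 502604) (.g (nat_lit 3549) (.e (nat_lit 163979) (nat_lit 30) (.e (nat_lit 573482) (nat_lit 13) (.e (nat_lit 65619) (nat_lit 10) (.e (nat_lit 344117) (nat_lit 21) (.e (nat_lit 516171) (nat_lit 13) (.e (nat_lit 458774) (nat_lit 18) (.e (nat_lit 5548) (nat_lit 306) (.e (nat_lit 2611) (nat_lit 163) .nil)))))))) (.g (nat_lit 1) (.e (nat_lit 173544) (nat_lit 0) .nil) .nil))))) 
(.nd (nat_lit 8) (.nd (nat_lit 9) 
(.lf (nat_lit 501964) (.g (nat_lit 3170) (.e (nat_lit 163978) (nat_lit 30) (.e (nat_lit 573489) (nat_lit 14) (.e (nat_lit 73755) (nat_lit 8) (.e (nat_lit 557104) (nat_lit 14) (.e (nat_lit 180244) (nat_lit 5) (.e (nat_lit 532489) (nat_lit 0) (.e (nat_lit 7936) (nat_lit 149) (.e (nat_lit 761899) (nat_lit 15) .nil)))))))) (.g (nat_lit 1) (.e (nat_lit 172056) (nat_lit 0) .nil) .nil))) 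
(.lf (nat_lit 502476) (.g (nat_lit 2624) (.e (nat_lit 163979) (nat_lit 30) (.e (nat_lit 573482) (nat_lit 13) (.e (nat_lit 65619) (nat_lit 10) (.e (nat_lit 344117) (nat_lit 21) (.e (nat_lit 516151) (nat_lit 9) (.e (nat_lit 426043) (nat_lit 0) (.e (nat_lit 7936) (nat_lit 211) (.e (nat_lit 647180) (nat_lit 3) .nil)))))))) (.g (nat_lit 1) (.e (nat_lit 173412) (nat_lit 0) .nil) .nil)))) 
(.nd (nat_lit 9) 
(.lf (nat_lit 502220) (.g (nat_lit 2454) (.e (nat_lit 163979) (nat_lit 30) (.e (nat_lit 573482) (nat_lit 13) (.e (nat_lit 65604) (nat_lit 9) (.e (nat_lit 336013) (nat_lit 2) (.e (nat_lit 90170) (nat_lit 13) (.e (nat_lit 172049) (nat_lit 0) (.e (nat_lit 2458) (nat_lit 157) (.e (nat_lit 5546) (nat_lit 306) (.e (nat_lit 2601) (nat_lit 163) .nil))))))))) (.g (nat_lit 1) (.e (nat_lit 173108) (nat_lit 0) .nil) .nil))) 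
(.lf (nat_lit 502732) (.g (nat_lit 4205) (.e (nat_lit 163979) (nat_lit 30) (.e (nat_lit 573487) (nat_lit 14) (.e (nat_lit 73753) (nat_lit 8) (.e (nat_lit 557105) (nat_lit 14) (.e (nat_lit 180252) (nat_lit 10) (.e (nat_lit 573475) (nat_lit 12) (.e (nat_lit 57502) (nat_lit 38) (.e (nat_lit 638995) (nat_lit 7) .nil)))))))) (.g (nat_lit 1) (.e (nat_lit 173842) (nat_lit 0) .nil) .nil))))))) 
(.nd (nat_lit 6) (.nd (nat_lit 7) (.nd (nat_lit 8) (.nd (nat_lit 9) 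
(.lf (nat_lit 501804) (.g (nat_lit 2533) (.e (nat_lit 163978) (nat_lit 30) (.e (nat_lit 573489) (nat_lit 14) (.e (nat_lit 73754) (nat_lit 8) (.e (nat_lit 557105) (nat_lit 14) (.e (nat_lit 180252) (nat_lit 10) (.e (nat_lit 573475) (nat_lit 12) (.e (nat_lit 57500) (nat_lit 37) (.e (nat_lit 630800) (nat_lit 7) .nil)))))))) (.g (nat_lit 1) (.e (nat_lit 171538) (nat_lit 0) .nil) .nil))) 
(.lf (nat_lit 502316) (.g (nat_lit 2412) (.e (nat_lit 163979) (nat_lit 30) (.e (nat_lit 573482) (nat_lit 13) (.e (nat_lit 65604) (nat_lit 9) (.e (nat_lit 336028) (nat_lit 3) (.e (nat_lit 98361) (nat_lit 26) .nil))))) (.g (nat_lit 0) (.e (nat_lit 173226) (nat_lit 0) .nil) .nil)))) (.nd (nat_lit 9) 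
(.lf (nat_lit 502060) (.g (nat_lit 4238) (.e (nat_lit 163978) (nat_lit 30) (.e (nat_lit 573489) (nat_lit 14) (.e (nat_lit 73755) (nat_lit 8) (.e (nat_lit 557105) (nat_lit 14) (.e (nat_lit 180252) (nat_lit 10) (.e (nat_lit 573475) (nat_lit 12) (.e (nat_lit 57504) (nat_lit 38) (.e (nat_lit 638994) (nat_lit 7) .nil)))))))) (.g (nat_lit 1) (.e (nat_lit 172699) (nat_lit 0) .nil) .nil))) 
(.lf (nat_lit 502572) (.g (nat_lit 2461) (.e (nat_lit 163979) (nat_lit 30) (.e (nat_lit 573482) (nat_lit 13) (.e (nat_lit 65619) (nat_lit 10) (.e (nat_lit 344117) (nat_lit 21) (.e (nat_lit 516161) (nat_lit 10) .nil))))) (.g (nat_lit 0) (.e (nat_lit 173509) (nat_lit 0) .nil) .nil))))) (.nd (nat_lit 8) (.nd (nat_lit 9) 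
(.lf (nat_lit 501932) (.g (nat_lit 4256) (.e (nat_lit 163978) (nat_lit 30) (.e (nat_lit 573489) (nat_lit 14) (.e (nat_lit 73755) (nat_lit 8) (.e (nat_lit 557103) (nat_lit 14) (.e (nat_lit 180244) (nat_lit 5) (.e (nat_lit 532499) (nat_lit 1) (.e (nat_lit 57652) (nat_lit 152) (.e (nat_lit 2606) (nat_lit 163) .nil)))))))) (.g (nat_lit 1) (.e (nat_lit 171909) (nat_lit 0) .nil) .nil))) 
(.lf (nat_lit 502444) (.g (nat_lit 3287) (.e (nat_lit 163979) (nat_lit 30) (.e (nat_lit 573482) (nat_lit 13) (.e (nat_lit 65619) (nat_lit 10) (.e (nat_lit 344117) (nat_lit 21) (.e (nat_lit 516147) (nat_lit 9) (.e (nat_lit 426442) (nat_lit 19) (.e (nat_lit 114432) (nat_lit 3) .nil))))))) (.g (nat_lit 1) (.e (nat_lit 173380) (nat_lit 0) .nil) .nil)))) (.nd (nat_lit 9) 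
(.lf (nat_lit 502188) (.g (nat_lit 4596) (.e (nat_lit 163979) (nat_lit 30) (.e (nat_lit 573482) (nat_lit 13) (.e (nat_lit 65604) (nat_lit 9) (.e (nat_lit 336013) (nat_lit 2) (.e (nat_lit 90167) (nat_lit 13) .nil))))) (.g (nat_lit 0) (.e (nat_lit 173072) (nat_lit 0) .nil) .nil))) 
(.lf (nat_lit 502700) (.g (nat_lit 5006) (.e (nat_lit 163979) (nat_lit 30) (.e (nat_lit 573487) (nat_lit 14) (.e (nat_lit 73753) (nat_lit 8) (.e (nat_lit 557103) (nat_lit 14) (.e (nat_lit 180250) (nat_lit 10) (.e (nat_lit 573475) (nat_lit 12) (.e (nat_lit 57503) (nat_lit 38) (.e (nat_lit 638995) (nat_lit 7) .nil)))))))) (.g (nat_lit 1) (.e (nat_lit 173801) (nat_lit 0) .nil) .nil)))))) 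
(.nd (nat_lit 7) (.nd (nat_lit 8) (.nd (nat_lit 9) 
(.lf (nat_lit 501868) (.g (nat_lit 3218) (.e (nat_lit 163978) (nat_lit 30) (.e (nat_lit 573489) (nat_lit 14) (.e (nat_lit 73755) (nat_lit 8) (.e (nat_lit 557098) (nat_lit 13) (.e (nat_lit 172066) (nat_lit 3) (.e (nat_lit 204814) (nat_lit 17) (.e (nat_lit 2270) (nat_lit 149) (.e (nat_lit 761898) (nat_lit 15) .nil)))))))) (.g (nat_lit 1) (.e (nat_lit 171734) (nat_lit 0) .nil) .nil))) 
(.lf (nat_lit 502380) (.g (nat_lit 373) (.e (nat_lit 163979) (nat_lit 30) (.e (nat_lit 573482) (nat_lit 13) (.e (nat_lit 65619) (nat_lit 10) .nil))) (.g (nat_lit 0) (.e (nat_lit 173313) (nat_lit 0) .nil) .nil)))) (.nd (nat_lit 9) 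
(.lf (nat_lit 502124) (.g (nat_lit 6271) (.e (nat_lit 163978) (nat_lit 30) (.e (nat_lit 573493) (nat_lit 15) (.e (nat_lit 81953) (nat_lit 22) (.e (nat_lit 90185) (nat_lit 17) .nil)))) (.g (nat_lit 0) (.e (nat_lit 172894) (nat_lit 0) .nil) .nil))) 
(.lf (nat_lit 502636) (.g (nat_lit 3177) (.e (nat_lit 163979) (nat_lit 30) (.e (nat_lit 573482) (nat_lit 13) (.e (nat_lit 65619) (nat_lit 10) (.e (nat_lit 344129) (nat_lit 26) (.e (nat_lit 557087) (nat_lit 11) (.e (nat_lit 24597) (nat_lit 1) (.e (nat_lit 57772) (nat_lit 227) (.e (nat_lit 2607) (nat_lit 163) .nil)))))))) (.g (nat_lit 1) (.e (nat_lit 173598) (nat_lit 0) .nil) .nil))))) 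
(.nd (nat_lit 8) (.nd (nat_lit 9) 
(.lf (nat_lit 501996) (.g (nat_lit 3071) (.e (nat_lit 163978) (nat_lit 30) (.e (nat_lit 573489) (nat_lit 14) (.e (nat_lit 73755) (nat_lit 8) (.e (nat_lit 557105) (nat_lit 14) (.e (nat_lit 180244) (nat_lit 5) (.e (nat_lit 532499) (nat_lit 1) (.e (nat_lit 57652) (nat_lit 152) (.e (nat_lit 2606) (nat_lit 163) .nil)))))))) (.g (nat_lit 1) (.e (nat_lit 172235) (nat_lit 0) .nil) .nil))) 
(.lf (nat_lit 502508) (.g (nat_lit 3080) (.e (nat_lit 163979) (nat_lit 30) (.e (nat_lit 573482) (nat_lit 13) (.e (nat_lit 65619) (nat_lit 10) (.e (nat_lit 344117) (nat_lit 21) (.e (nat_lit 516152) (nat_lit 9) (.e (nat_lit 426025) (nat_lit 0) (.e (nat_lit 3397) (nat_lit 211) (.e (nat_lit 647180) (nat_lit 3) .nil)))))))) (.g (nat_lit 1) (.e (nat_lit 173444) (nat_lit 0) .nil) .nil)))) 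
(.nd (nat_lit 9) 
(.lf (nat_lit 502252) (.g (nat_lit 4181) (.e (nat_lit 163979) (nat_lit 30) (.e (nat_lit 573482) (nat_lit 13) (.e (nat_lit 65604) (nat_lit 9) (.e (nat_lit 336013) (nat_lit 2) (.e (nat_lit 90170) (nat_lit 13) (.e (nat_lit 172068) (nat_lit 4) (.e (nat_lit 229663) (nat_lit 240) (.e (nat_lit 2598) (nat_lit 163) .nil)))))))) (.g (nat_lit 1) (.e (nat_lit 173140) (nat_lit 0) .nil) .nil))) 
(.lf (nat_lit 502764) (.g (nat_lit 608) (.e (nat_lit 163979) (nat_lit 30) (.e (nat_lit 573487) (nat_lit 14) (.e (nat_lit 73762) (nat_lit 16) .nil))) (.g (nat_lit 0) (.e (nat_lit 173878) (nat_lit 0) .nil) .nil)))))))) (.nd (nat_lit 5) (.nd (nat_lit 6) (.nd (nat_lit 7) (.nd (nat_lit 8) (.nd (nat_lit 9) 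
(.lf (nat_lit 501788) (.g (nat_lit 3217) (.e (nat_lit 163978) (nat_lit 30) (.e (nat_lit 573489) (nat_lit 14) (.e (nat_lit 73754) (nat_lit 8) (.e (nat_lit 557101) (nat_lit 13) (.e (nat_lit 172067) (nat_lit 3) (.e (nat_lit 204817) (nat_lit 17) (.e (nat_lit 7936) (nat_lit 149) (.e (nat_lit 761898) (nat_lit 15) .nil)))))))) (.g (nat_lit 1) (.e (nat_lit 171502) (nat_lit 0) .nil) .nil))) 
(.lf (nat_lit 502300) (.g (nat_lit 3321) (.e (nat_lit 163979) (nat_lit 30) (.e (nat_lit 573482) (nat_lit 13) (.e (nat_lit 65604) (nat_lit 9) (.e (nat_lit 336028) (nat_lit 3) (.e (nat_lit 98359) (nat_lit 26) (.e (nat_lit 426042) (nat_lit 0) (.e (nat_lit 3409) (nat_lit 212) (.e (nat_lit 655373) (nat_lit 3) .nil)))))))) (.g (nat_lit 1) (.e (nat_lit 173199) (nat_lit 0) .nil) .nil)))) (.nd (nat_lit 9) 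
(.lf (nat_lit 502044) (.g (nat_lit 4273) (.e (nat_lit 163978) (nat_lit 30) (.e (nat_lit 573489) (nat_lit 14) (.e (nat_lit 73755) (nat_lit 8) (.e (nat_lit 557105) (nat_lit 14) (.e (nat_lit 180252) (nat_lit 10) (.e (nat_lit 573473) (nat_lit 12) (.e (nat_lit 57504) (nat_lit 38) (.e (nat_lit 638994) (nat_lit 7) .nil)))))))) (.g (nat_lit 1) (.e (nat_lit 172561) (nat_lit 0) .nil) .nil))) 
(.lf (nat_lit 502556) (.g (nat_lit 4167) (.e (nat_lit 163979) (nat_lit 30) (.e (nat_lit 573482) (nat_lit 13) (.e (nat_lit 65619) (nat_lit 10) (.e (nat_lit 344117) (nat_lit 21) (.e (nat_lit 516160) (nat_lit 10) (.e (nat_lit 434202) (nat_lit 18) (.e (nat_lit 5537) (nat_lit 306) (.e (nat_lit 2610) (nat_lit 163) .nil)))))))) (.g (nat_lit 1) (.e (nat_lit 173492) (nat_lit 0) .nil) .nil))))) 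
(.nd (nat_lit 8) (.nd (nat_lit 9) 
(.lf (nat_lit 501916) (.g (nat_lit 3343) (.e (nat_lit 163978) (nat_lit 30) (.e (nat_lit 573489) (nat_lit 14) (.e (nat_lit 73755) (nat_lit 8) (.e (nat_lit 557103) (nat_lit 14) (.e (nat_lit 180243) (nat_lit 5) .nil))))) (.g (nat_lit 0) (.e (nat_lit 171861) (nat_lit 0) .nil) .nil))) 
(.lf (nat_lit 502428) (.g (nat_lit 4502) (.e (nat_lit 163979) (nat_lit 30) (.e (nat_lit 573482) (nat_lit 13) (.e (nat_lit 65619) (nat_lit 10) (.e (nat_lit 344117) (nat_lit 21) (.e (nat_lit 516145) (nat_lit 9) (.e (nat_lit 426376) (nat_lit 15) (.e (nat_lit 2059) (nat_lit 142) (.e (nat_lit 704589) (nat_lit 3) .nil)))))))) (.g (nat_lit 1) (.e (nat_lit 173364) (nat_lit 0) .nil) .nil)))) 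
(.nd (nat_lit 9) 
(.lf (nat_lit 502172) (.g (nat_lit 3419) (.e (nat_lit 163979) (nat_lit 30) (.e (nat_lit 573481) (nat_lit 13) (.e (nat_lit 65610) (nat_lit 10) (.e (nat_lit 344117) (nat_lit 21) (.e (nat_lit 516151) (nat_lit 9) (.e (nat_lit 426412) (nat_lit 15) (.e (nat_lit 2058) (nat_lit 142) (.e (nat_lit 704589) (nat_lit 3) .nil)))))))) (.g (nat_lit 1) (.e (nat_lit 173042) (nat_lit 0) .nil) .nil))) 
(.lf (nat_lit 502684) (.g (nat_lit 2899) (.e (nat_lit 163979) (nat_lit 30) (.e (nat_lit 573487) (nat_lit 14) (.e (nat_lit 73753) (nat_lit 8) (.e (nat_lit 557103) (nat_lit 14) (.e (nat_lit 180244) (nat_lit 5) (.e (nat_lit 532484) (nat_lit 0) (.e (nat_lit 2271) (nat_lit 149) (.e (nat_lit 761898) (nat_lit 15) .nil)))))))) (.g (nat_lit 1) (.e (nat_lit 173765) (nat_lit 0) .nil) .nil)))))) 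
(.nd (nat_lit 7) (.nd (nat_lit 8) (.nd (nat_lit 9) 
(.lf (nat_lit 501852) (.g (nat_lit 2890) (.e (nat_lit 163978) (nat_lit 30) (.e (nat_lit 573489) (nat_lit 14) (.e (nat_lit 73755) (nat_lit 8) (.e (nat_lit 557098) (nat_lit 13) (.e (nat_lit 172065) (nat_lit 3) .nil))))) (.g (nat_lit 0) (.e (nat_lit 171699) (nat_lit 0) .nil) .nil))) 
(.lf (nat_lit 502364) (.g (nat_lit 3532) (.e (nat_lit 163979) (nat_lit 30) (.e (nat_lit 573482) (nat_lit 13) (.e (nat_lit 65609) (nat_lit 10) (.e (nat_lit 344117) (nat_lit 21) (.e (nat_lit 516151) (nat_lit 9) (.e (nat_lit 426412) (nat_lit 15) (.e (nat_lit 2057) (nat_lit 142) (.e (nat_lit 704589) (nat_lit 3) .nil)))))))) (.g (nat_lit 1) (.e (nat_lit 173297) (nat_lit 0) .nil) .nil)))) 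
(.nd (nat_lit 9) 
(.lf (nat_lit 502108) (.g (nat_lit 2983) (.e (nat_lit 163978) (nat_lit 30) (.e (nat_lit 573493) (nat_lit 15) (.e (nat_lit 81951) (nat_lit 22) (.e (nat_lit 90170) (nat_lit 13) (.e (nat_lit 172046) (nat_lit 0) .nil))))) (.g (nat_lit 0) (.e (nat_lit 172850) (nat_lit 0) .nil) .nil))) 
(.lf (nat_lit 502620) (.g (nat_lit 2200) (.e (nat_lit 163979) (nat_lit 30) (.e (nat_lit 573482) (nat_lit 13) (.e (nat_lit 65619) (nat_lit 10) (.e (nat_lit 344117) (nat_lit 21) (.e (nat_lit 516180) (nat_lit 15) (.e (nat_lit 475205) (nat_lit 40) (.e (nat_lit 712448) (nat_lit 3) .nil))))))) (.g (nat_lit 1) (.e (nat_lit 173560) (nat_lit 0) .nil) .nil))))) (.nd (nat_lit 8) (.nd (nat_lit 9) 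
(.lf (nat_lit 501980) (.g (nat_lit 3079) (.e (nat_lit 163978) (nat_lit 30) (.e (nat_lit 573489) (nat_lit 14) (.e (nat_lit 73755) (nat_lit 8) (.e (nat_lit 557104) (nat_lit 14) (.e (nat_lit 180251) (nat_lit 10) .nil))))) (.g (nat_lit 0) (.e (nat_lit 172179) (nat_lit 0) .nil) .nil))) 
(.lf (nat_lit 502492) (.g (nat_lit 4431) (.e (nat_lit 163979) (nat_lit 30) (.e (nat_lit 573482) (nat_lit 13) (.e (nat_lit 65619) (nat_lit 10) (.e (nat_lit 344117) (nat_lit 21) (.e (nat_lit 516151) (nat_lit 9) (.e (nat_lit 426104) (nat_lit 1) (.e (nat_lit 164348) (nat_lit 240) (.e (nat_lit 2611) (nat_lit 163) .nil)))))))) (.g (nat_lit 1) (.e (nat_lit 173428) (nat_lit 0) .nil) .nil)))) 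
(.nd (nat_lit 9) 
(.lf (nat_lit 502236) (.g (nat_lit 4285) (.e (nat_lit 163979) (nat_lit 30) (.e (nat_lit 573482) (nat_lit 13) (.e (nat_lit 65604) (nat_lit 9) (.e (nat_lit 336013) (nat_lit 2) (.e (nat_lit 90170) (nat_lit 13) (.e (nat_lit 172059) (nat_lit 1) (.e (nat_lit 164348) (nat_lit 240) (.e (nat_lit 2601) (nat_lit 163) .nil)))))))) (.g (nat_lit 1) (.e (nat_lit 173124) (nat_lit 0) .nil) .nil))) 
(.lf (nat_lit 502748) (.g (nat_lit 3255) (.e (nat_lit 163979) (nat_lit 30) (.e (nat_lit 573487) (nat_lit 14) (.e (nat_lit 73754) (nat_lit 8) (.e (nat_lit 557105) (nat_lit 14) (.e (nat_lit 180252) (nat_lit 10) (.e (nat_lit 573475) (nat_lit 12) (.e (nat_lit 57500) (nat_lit 37) (.e (nat_lit 630800) (nat_lit 7) .nil)))))))) (.g (nat_lit 1) (.e (nat_lit 173861) (nat_lit 0) .nil) .nil))))))) 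
(.nd (nat_lit 6) (.nd (nat_lit 7) (.nd (nat_lit 8) (.nd (nat_lit 9) 
(.lf (nat_lit 501820) (.g (nat_lit 3848) (.e (nat_lit 163978) (nat_lit 30) (.e (nat_lit 573489) (nat_lit 14) (.e (nat_lit 73755) (nat_lit 8) (.e (nat_lit 557096) (nat_lit 13) (.e (nat_lit 172067) (nat_lit 3) (.e (nat_lit 204821) (nat_lit 17) (.e (nat_lit 2270) (nat_lit 149) (.e (nat_lit 761898) (nat_lit 15) .nil)))))))) (.g (nat_lit 1) (.e (nat_lit 171593) (nat_lit 0) .nil) .nil))) 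
(.lf (nat_lit 502332) (.g (nat_lit 1933) (.e (nat_lit 163979) (nat_lit 30) (.e (nat_lit 573482) (nat_lit 13) (.e (nat_lit 65604) (nat_lit 9) (.e (nat_lit 336028) (nat_lit 3) (.e (nat_lit 98366) (nat_lit 27) .nil))))) (.g (nat_lit 0) (.e (nat_lit 173243) (nat_lit 0) .nil) .nil)))) (.nd (nat_lit 9) 
(.lf (nat_lit 502076) (.g (nat_lit 2547) (.e (nat_lit 163978) (nat_lit 30) (.e (nat_lit 573490) (nat_lit 15) (.e (nat_lit 81956) (nat_lit 23) (.e (nat_lit 98354) (nat_lit 26) (.e (nat_lit 426109) (nat_lit 1) .nil))))) (.g (nat_lit 0) (.e (nat_lit 172722) (nat_lit 0) .nil) .nil))) 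
(.lf (nat_lit 502588) (.g (nat_lit 3204) (.e (nat_lit 163979) (nat_lit 30) (.e (nat_lit 573482) (nat_lit 13) (.e (nat_lit 65619) (nat_lit 10) (.e (nat_lit 344117) (nat_lit 21) (.e (nat_lit 516169) (nat_lit 13) (.e (nat_lit 458774) (nat_lit 18) (.e (nat_lit 5547) (nat_lit 306) (.e (nat_lit 2601) (nat_lit 163) .nil)))))))) (.g (nat_lit 1) (.e (nat_lit 173525) (nat_lit 0) .nil) .nil))))) 
(.nd (nat_lit 8) (.nd (nat_lit 9) 
(.lf (nat_lit 501948) (.g (nat_lit 3825) (.e (nat_lit 163978) (nat_lit 30) (.e (nat_lit 573489) (nat_lit 14) (.e (nat_lit 73755) (nat_lit 8) (.e (nat_lit 557103) (nat_lit 14) (.e (nat_lit 180251) (nat_lit 10) (.e (nat_lit 573475) (nat_lit 12) (.e (nat_lit 57503) (nat_lit 38) (.e (nat_lit 638995) (nat_lit 7) .nil)))))))) (.g (nat_lit 1) (.e (nat_lit 172020) (nat_lit 0) .nil) .nil))) 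
(.lf (nat_lit 502460) (.g (nat_lit 4493) (.e (nat_lit 163979) (nat_lit 30) (.e (nat_lit 573482) (nat_lit 13) (.e (nat_lit 65619) (nat_lit 10) (.e (nat_lit 344117) (nat_lit 21) (.e (nat_lit 516151) (nat_lit 9) (.e (nat_lit 426039) (nat_lit 0) (.e (nat_lit 2458) (nat_lit 157) (.e (nat_lit 5547) (nat_lit 306) (.e (nat_lit 2610) (nat_lit 163) .nil))))))))) (.g (nat_lit 1) (.e (nat_lit 173396) (nat_lit 0) .nil) .nil)))) 
(.nd (nat_lit 9) 
(.lf (nat_lit 502204) (.g (nat_lit 3484) (.e (nat_lit 163979) (nat_lit 30) (.e (nat_lit 573482) (nat_lit 13) (.e (nat_lit 65604) (nat_lit 9) (.e (nat_lit 336013) (nat_lit 2) (.e (nat_lit 90170) (nat_lit 13) (.e (nat_lit 172042) (nat_lit 0) (.e (nat_lit 2458) (nat_lit 157) (.e (nat_lit 5548) (nat_lit 306) (.e (nat_lit 2599) (nat_lit 163) .nil))))))))) (.g (nat_lit 1) (.e (nat_lit 173089) (nat_lit 0) .nil) .nil))) 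
(.lf (nat_lit 502716) (.g (nat_lit 2810) (.e (nat_lit 163979) (nat_lit 30) (.e (nat_lit 573487) (nat_lit 14) (.e (nat_lit 73753) (nat_lit 8) (.e (nat_lit 557104) (nat_lit 14) (.e (nat_lit 180252) (nat_lit 10) (.e (nat_lit 573475) (nat_lit 12) (.e (nat_lit 57500) (nat_lit 37) (.e (nat_lit 630800) (nat_lit 7) .nil)))))))) (.g (nat_lit 1) (.e (nat_lit 173820) (nat_lit 0) .nil) .nil)))))) 
(.nd (nat_lit 7) (.nd (nat_lit 8) (.nd (nat_lit 9) 
(.lf (nat_lit 501884) (.g (nat_lit 4331) (.e (nat_lit 163978) (nat_lit 30) (.e (nat_lit 573489) (nat_lit 14) (.e (nat_lit 73755) (nat_lit 8) (.e (nat_lit 557098) (nat_lit 13) (.e (nat_lit 172067) (nat_lit 3) (.e (nat_lit 204814) (nat_lit 17) (.e (nat_lit 2270) (nat_lit 149) (.e (nat_lit 761898) (nat_lit 15) .nil)))))))) (.g (nat_lit 1) (.e (nat_lit 171771) (nat_lit 0) .nil) .nil))) 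
(.lf (nat_lit 502396) (.g (nat_lit 2371) (.e (nat_lit 163979) (nat_lit 30) (.e (nat_lit 573482) (nat_lit 13) (.e (nat_lit 65619) (nat_lit 10) (.e (nat_lit 344117) (nat_lit 21) (.e (nat_lit 516143) (nat_lit 9) (.e (nat_lit 426144) (nat_lit 4) (.e (nat_lit 229663) (nat_lit 240) (.e (nat_lit 2602) (nat_lit 163) .nil)))))))) (.g (nat_lit 1) (.e (nat_lit 173332) (nat_lit 0) .nil) .nil)))) 
(.nd (nat_lit 9) 
(.lf (nat_lit 502140) (.g (nat_lit 3915) (.e (nat_lit 163978) (nat_lit 30) (.e (nat_lit 573493) (nat_lit 15) (.e (nat_lit 81956) (nat_lit 23) (.e (nat_lit 98357) (nat_lit 26) .nil)))) (.g (nat_lit 0) (.e (nat_lit 172922) (nat_lit 0) .nil) .nil))) 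
(.lf (nat_lit 502652) (.g (nat_lit 4474) (.e (nat_lit 163979) (nat_lit 30) (.e (nat_lit 573485) (nat_lit 13) (.e (nat_lit 65619) (nat_lit 10) (.e (nat_lit 344117) (nat_lit 21) (.e (nat_lit 516151) (nat_lit 9) (.e (nat_lit 426042) (nat_lit 0) (.e (nat_lit 3409) (nat_lit 212) (.e (nat_lit 655375) (nat_lit 3) .nil)))))))) (.g (nat_lit 1) (.e (nat_lit 173628) (nat_lit 0) .nil) .nil))))) 
(.nd (nat_lit 8) (.nd (nat_lit 9) 
(.lf (nat_lit 502012) (.g (nat_lit 2425) (.e (nat_lit 163978) (nat_lit 30) (.e (nat_lit 573489) (nat_lit 14) (.e (nat_lit 73755) (nat_lit 8) (.e (nat_lit 557105) (nat_lit 14) (.e (nat_lit 180245) (nat_lit 5) (.e (nat_lit 532490) (nat_lit 0) (.e (nat_lit 2264) (nat_lit 149) (.e (nat_lit 761899) (nat_lit 15) .nil)))))))) (.g (nat_lit 1) (.e (nat_lit 172302) (nat_lit 0) .nil) .nil))) 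
(.lf (nat_lit 502524) (.g (nat_lit 2571) (.e (nat_lit 163979) (nat_lit 30) (.e (nat_lit 573482) (nat_lit 13) (.e (nat_lit 65619) (nat_lit 10) (.e (nat_lit 344117) (nat_lit 21) (.e (nat_lit 516153) (nat_lit 9) (.e (nat_lit 426109) (nat_lit 1) (.e (nat_lit 164345) (nat_lit 240) (.e (nat_lit 2599) (nat_lit 163) .nil)))))))) (.g (nat_lit 1) (.e (nat_lit 173460) (nat_lit 0) .nil) .nil)))) 
(.nd (nat_lit 9) 
(.lf (nat_lit 502268) (.g (nat_lit 3925) (.e (nat_lit 163979) (nat_lit 30) (.e (nat_lit 573482) (nat_lit 13) (.e (nat_lit 65604) (nat_lit 9) (.e (nat_lit 336013) (nat_lit 2) (.e (nat_lit 90170) (nat_lit 13) (.e (nat_lit 172070) (nat_lit 4) (.e (nat_lit 229666) (nat_lit 240) (.e (nat_lit 2602) (nat_lit 163) .nil)))))))) (.g (nat_lit 1) (.e (nat_lit 173156) (nat_lit 0) .nil) .nil))) 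
(.lf (nat_lit 502780) (.g (nat_lit 3554) (.e (nat_lit 163979) (nat_lit 30) (.e (nat_lit 573488) (nat_lit 14) (.e (nat_lit 73753) (nat_lit 8) (.e (nat_lit 557105) (nat_lit 14) (.e (nat_lit 180252) (nat_lit 10) (.e (nat_lit 573475) (nat_lit 12) (.e (nat_lit 57502) (nat_lit 38) (.e (nat_lit 638995) (nat_lit 7) .nil)))))))) (.g (nat_lit 1) (.e (nat_lit 173905) (nat_lit 0) .nil) .nil))))))))))) 
(.nd (nat_lit 2) (.nd (nat_lit 3) (.nd (nat_lit 4) (.nd (nat_lit 5) (.nd (nat_lit 6) 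
(.nd (nat_lit 7) (.nd (nat_lit 8) (.nd (nat_lit 9) 
(.lf (nat_lit 501762) (.g (nat_lit 3198) (.e (nat_lit 163978) (nat_lit 30) (.e (nat_lit 573489) (nat_lit 14) (.e (nat_lit 73754) (nat_lit 8) (.e (nat_lit 557100) (nat_lit 13) (.e (nat_lit 172067) (nat_lit 3) (.e (nat_lit 204821) (nat_lit 17) (.e (nat_lit 2270) (nat_lit 149) (.e (nat_lit 761899) (nat_lit 15) .nil)))))))) (.g (nat_lit 1) (.e (nat_lit 171432) (nat_lit 0) .nil) .nil))) 
(.lf (nat_lit 502274) (.g (nat_lit 3794) (.e (nat_lit 163979) (nat_lit 30) (.e (nat_lit 573482) (nat_lit 13) (.e (nat_lit 65604) (nat_lit 9) (.e (nat_lit 336013) (nat_lit 2) (.e (nat_lit 90170) (nat_lit 13) (.e (nat_lit 179968) (nat_lit 24) (.e (nat_lit 163584) (nat_lit 3) .nil))))))) (.g (nat_lit 1) (.e (nat_lit 173162) (nat_lit 0) .nil) .nil)))) (.nd (nat_lit 9) 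
(.lf (nat_lit 502018) (.g (nat_lit 3163) (.e (nat_lit 163978) (nat_lit 30) (.e (nat_lit 573489) (nat_lit 14) (.e (nat_lit 73755) (nat_lit 8) (.e (nat_lit 557105) (nat_lit 14) (.e (nat_lit 180245) (nat_lit 5) (.e (nat_lit 532499) (nat_lit 1) (.e (nat_lit 57664) (nat_lit 152) (.e (nat_lit 2606) (nat_lit 163) .nil)))))))) (.g (nat_lit 1) (.e (nat_lit 172326) (nat_lit 0) .nil) .nil))) 
(.lf (nat_lit 502530) (.g (nat_lit 2764) (.e (nat_lit 163979) (nat_lit 30) (.e (nat_lit 573482) (nat_lit 13) (.e (nat_lit 65619) (nat_lit 10) (.e (nat_lit 344117) (nat_lit 21) (.e (nat_lit 516155) (nat_lit 9) (.e (nat_lit 426025) (nat_lit 0) (.e (nat_lit 3397) (nat_lit 211) (.e (nat_lit 647181) (nat_lit 3) .nil)))))))) (.g (nat_lit 1) (.e (nat_lit 173466) (nat_lit 0) .nil) .nil))))) 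
(.nd (nat_lit 8) (.nd (nat_lit 9) 
(.lf (nat_lit 501890) (.g (nat_lit 3633) (.e (nat_lit 163978) (nat_lit 30) (.e (nat_lit 573489) (nat_lit 14) (.e (nat_lit 73755) (nat_lit 8) (.e (nat_lit 557098) (nat_lit 13) (.e (nat_lit 172067) (nat_lit 3) (.e (nat_lit 204817) (nat_lit 17) (.e (nat_lit 2272) (nat_lit 149) (.e (nat_lit 761898) (nat_lit 15) .nil)))))))) (.g (nat_lit 1) (.e (nat_lit 171781) (nat_lit 0) .nil) .nil))) 
(.lf (nat_lit 502402) (.g (nat_lit 3084) (.e (nat_lit 163979) (nat_lit 30) (.e (nat_lit 573482) (nat_lit 13) (.e (nat_lit 65619) (nat_lit 10) (.e (nat_lit 344117) (nat_lit 21) (.e (nat_lit 516144) (nat_lit 9) (.e (nat_lit 426374) (nat_lit 15) (.e (nat_lit 2056) (nat_lit 142) (.e (nat_lit 704589) (nat_lit 3) .nil)))))))) (.g (nat_lit 1) (.e (nat_lit 173338) (nat_lit 0) .nil) .nil)))) 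
(.nd (nat_lit 9) 
(.lf (nat_lit 502146) (.g (nat_lit 5049) (.e (nat_lit 163978) (nat_lit 30) (.e (nat_lit 573493) (nat_lit 15) (.e (nat_lit 81956) (nat_lit 23) (.e (nat_lit 98364) (nat_lit 26) .nil)))) (.g (nat_lit 0) (.e (nat_lit 172929) (nat_lit 0) .nil) .nil))) 
(.lf (nat_lit 502658) (.g (nat_lit 2216) (.e (nat_lit 163979) (nat_lit 30) (.e (nat_lit 573487) (nat_lit 14) (.e (nat_lit 73753) (nat_lit 8) (.e (nat_lit 557098) (nat_lit 13) (.e (nat_lit 172066) (nat_lit 3) .nil))))) (.g (nat_lit 0) (.e (nat_lit 173668) (nat_lit 0) .nil) .nil)))))) (.nd (nat_lit 7) (.nd (nat_lit 8) (.nd (nat_lit 9) 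
(.lf (nat_lit 501826) (.g (nat_lit 3040) (.e (nat_lit 163978) (nat_lit 30) (.e (nat_lit 573489) (nat_lit 14) (.e (nat_lit 73755) (nat_lit 8) (.e (nat_lit 557097) (nat_lit 13) (.e (nat_lit 172065) (nat_lit 3) (.e (nat_lit 204821) (nat_lit 17) (.e (nat_lit 2264) (nat_lit 149) (.e (nat_lit 761899) (nat_lit 15) .nil)))))))) (.g (nat_lit 1) (.e (nat_lit 171615) (nat_lit 0) .nil) .nil))) 
(.lf (nat_lit 502338) (.g (nat_lit 4010) (.e (nat_lit 163979) (nat_lit 30) (.e (nat_lit 573482) (nat_lit 13) (.e (nat_lit 65604) (nat_lit 9) (.e (nat_lit 336028) (nat_lit 3) (.e (nat_lit 98366) (nat_lit 27) (.e (nat_lit 434272) (nat_lit 38) (.e (nat_lit 655374) (nat_lit 3) .nil))))))) (.g (nat_lit 1) (.e (nat_lit 173257) (nat_lit 0) .nil) .nil)))) (.nd (nat_lit 9) 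
(.lf (nat_lit 502082) (.g (nat_lit 2886) (.e (nat_lit 163978) (nat_lit 30) (.e (nat_lit 573490) (nat_lit 15) (.e (nat_lit 81956) (nat_lit 23) (.e (nat_lit 98367) (nat_lit 27) (.e (nat_lit 434270) (nat_lit 38) (.e (nat_lit 655375) (nat_lit 3) .nil)))))) (.g (nat_lit 1) (.e (nat_lit 172728) (nat_lit 0) .nil) .nil))) 
(.lf (nat_lit 502594) (.g (nat_lit 2680) (.e (nat_lit 163979) (nat_lit 30) (.e (nat_lit 573482) (nat_lit 13) (.e (nat_lit 65619) (nat_lit 10) (.e (nat_lit 344117) (nat_lit 21) (.e (nat_lit 516170) (nat_lit 13) (.e (nat_lit 458774) (nat_lit 18) (.e (nat_lit 5546) (nat_lit 306) (.e (nat_lit 2601) (nat_lit 163) .nil)))))))) (.g (nat_lit 1) (.e (nat_lit 173532) (nat_lit 0) .nil) .nil))))) 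
(.nd (nat_lit 8) (.nd (nat_lit 9) 
(.lf (nat_lit 501954) (.g (nat_lit 2972) (.e (nat_lit 163978) (nat_lit 30) (.e (nat_lit 573489) (nat_lit 14) (.e (nat_lit 73755) (nat_lit 8) (.e (nat_lit 557104) (nat_lit 14) (.e (nat_lit 180244) (nat_lit 5) .nil))))) (.g (nat_lit 0) (.e (nat_lit 172041) (nat_lit 0) .nil) .nil))) 
(.lf (nat_lit 502466) (.g (nat_lit 4390) (.e (nat_lit 163979) (nat_lit 30) (.e (nat_lit 573482) (nat_lit 13) (.e (nat_lit 65619) (nat_lit 10) (.e (nat_lit 344117) (nat_lit 21) (.e (nat_lit 516151) (nat_lit 9) (.e (nat_lit 426042) (nat_lit 0) (.e (nat_lit 2458) (nat_lit 157) (.e (nat_lit 5547) (nat_lit 306) (.e (nat_lit 2611) (nat_lit 163) .nil))))))))) (.g (nat_lit 1) (.e (nat_lit 173402) (nat_lit 0) .nil) .nil)))) 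
(.nd (nat_lit 9) 
(.lf (nat_lit 502210) (.g (nat_lit 4212) (.e (nat_lit 163979) (nat_lit 30) (.e (nat_lit 573482) (nat_lit 13) (.e (nat_lit 65604) (nat_lit 9) (.e (nat_lit 336013) (nat_lit 2) (.e (nat_lit 90170) (nat_lit 13) (.e (nat_lit 172043) (nat_lit 0) (.e (nat_lit 3409) (nat_lit 212) (.e (nat_lit 655375) (nat_lit 3) .nil)))))))) (.g (nat_lit 1) (.e (nat_lit 173095) (nat_lit 0) .nil) .nil))) 
(.lf (nat_lit 502722) (.g (nat_lit 2546) (.e (nat_lit 163979) (nat_lit 30) (.e (nat_lit 573487) (nat_lit 14) (.e (nat_lit 73753) (nat_lit 8) (.e (nat_lit 557105) (nat_lit 14) (.e (nat_lit 180251) (nat_lit 10) (.e (nat_lit 573478) (nat_lit 12) (.e (nat_lit 57502) (nat_lit 38) (.e (nat_lit 638996) (nat_lit 7) .nil)))))))) (.g (nat_lit 1) (.e (nat_lit 173828) (nat_lit 0) .nil) .nil))))))) 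
(.nd (nat_lit 6) (.nd (nat_lit 7) (.nd (nat_lit 8) (.nd (nat_lit 9) 
(.lf (nat_lit 501794) (.g (nat_lit 3248) (.e (nat_lit 163978) (nat_lit 30) (.e (nat_lit 573489) (nat_lit 14) (.e (nat_lit 73754) (nat_lit 8) (.e (nat_lit 557103) (nat_lit 14) (.e (nat_lit 180243) (nat_lit 5) (.e (nat_lit 532484) (nat_lit 0) (.e (nat_lit 7936) (nat_lit 149) (.e (nat_lit 761899) (nat_lit 15) .nil)))))))) (.g (nat_lit 1) (.e (nat_lit 171517) (nat_lit 0) .nil) .nil))) 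
(.lf (nat_lit 502306) (.g (nat_lit 3883) (.e (nat_lit 163979) (nat_lit 30) (.e (nat_lit 573482) (nat_lit 13) (.e (nat_lit 65604) (nat_lit 9) (.e (nat_lit 336028) (nat_lit 3) (.e (nat_lit 98359) (nat_lit 26) (.e (nat_lit 426104) (nat_lit 1) (.e (nat_lit 164345) (nat_lit 240) (.e (nat_lit 2599) (nat_lit 163) .nil)))))))) (.g (nat_lit 1) (.e (nat_lit 173209) (nat_lit 0) .nil) .nil)))) 
(.nd (nat_lit 9) 
(.lf (nat_lit 502050) (.g (nat_lit 4894) (.e (nat_lit 163978) (nat_lit 30) (.e (nat_lit 573489) (nat_lit 14) (.e (nat_lit 73755) (nat_lit 8) (.e (nat_lit 557105) (nat_lit 14) (.e (nat_lit 180252) (nat_lit 10) (.e (nat_lit 573474) (nat_lit 12) (.e (nat_lit 57503) (nat_lit 38) (.e (nat_lit 638994) (nat_lit 7) .nil)))))))) (.g (nat_lit 1) (.e (nat_lit 172689) (nat_lit 0) .nil) .nil))) 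
(.lf (nat_lit 502562) (.g (nat_lit 2675) (.e (nat_lit 163979) (nat_lit 30) (.e (nat_lit 573482) (nat_lit 13) (.e (nat_lit 65619) (nat_lit 10) (.e (nat_lit 344117) (nat_lit 21) (.e (nat_lit 516160) (nat_lit 10) (.e (nat_lit 434209) (nat_lit 18) (.e (nat_lit 5547) (nat_lit 306) (.e (nat_lit 2598) (nat_lit 163) .nil)))))))) (.g (nat_lit 1) (.e (nat_lit 173499) (nat_lit 0) .nil) .nil))))) 
(.nd (nat_lit 8) (.nd (nat_lit 9) 
(.lf (nat_lit 501922) (.g (nat_lit 2306) (.e (nat_lit 163978) (nat_lit 30) (.e (nat_lit 573489) (nat_lit 14) (.e (nat_lit 73755) (nat_lit 8) (.e (nat_lit 557103) (nat_lit 14) (.e (nat_lit 180244) (nat_lit 5) .nil))))) (.g (nat_lit 0) (.e (nat_lit 171892) (nat_lit 0) .nil) .nil))) 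
(.lf (nat_lit 502434) (.g (nat_lit 4651) (.e (nat_lit 163979) (nat_lit 30) (.e (nat_lit 573482) (nat_lit 13) (.e (nat_lit 65619) (nat_lit 10) (.e (nat_lit 344117) (nat_lit 21) (.e (nat_lit 516145) (nat_lit 9) (.e (nat_lit 426420) (nat_lit 15) (.e (nat_lit 2056) (nat_lit 142) (.e (nat_lit 704589) (nat_lit 3) .nil)))))))) (.g (nat_lit 1) (.e (nat_lit 173370) (nat_lit 0) .nil) .nil)))) 
(.nd (nat_lit 9) 
(.lf (nat_lit 502178) (.g (nat_lit 2715) (.e (nat_lit 163979) (nat_lit 30) (.e (nat_lit 573481) (nat_lit 13) (.e (nat_lit 65621) (nat_lit 11) (.e (nat_lit 368676) (nat_lit 21) (.e (nat_lit 516179) (nat_lit 15) (.e (nat_lit 475199) (nat_lit 40) (.e (nat_lit 704589) (nat_lit 3) .nil))))))) (.g (nat_lit 1) (.e (nat_lit 173048) (nat_lit 0) .nil) .nil))) 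
(.lf (nat_lit 502690) (.g (nat_lit 4007) (.e (nat_lit 163979) (nat_lit 30) (.e (nat_lit 573487) (nat_lit 14) (.e (nat_lit 73753) (nat_lit 8) (.e (nat_lit 557103) (nat_lit 14) (.e (nat_lit 180250) (nat_lit 10) (.e (nat_lit 573473) (nat_lit 12) (.e (nat_lit 57503) (nat_lit 38) (.e (nat_lit 638996) (nat_lit 7) .nil)))))))) (.g (nat_lit 1) (.e (nat_lit 173790) (nat_lit 0) .nil) .nil)))))) 
(.nd (nat_lit 7) (.nd (nat_lit 8) (.nd (nat_lit 9) 
(.lf (nat_lit 501858) (.g (nat_lit 3304) (.e (nat_lit 163978) (nat_lit 30) (.e (nat_lit 573489) (nat_lit 14) (.e (nat_lit 73755) (nat_lit 8) (.e (nat_lit 557098) (nat_lit 13) (.e (nat_lit 172065) (nat_lit 3) (.e (nat_lit 204817) (nat_lit 17) (.e (nat_lit 2271) (nat_lit 149) (.e (nat_lit 761898) (nat_lit 15) .nil)))))))) (.g (nat_lit 1) (.e (nat_lit 171706) (nat_lit 0) .nil) .nil))) 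
(.lf (nat_lit 502370) (.g (nat_lit 4150) (.e (nat_lit 163979) (nat_lit 30) (.e (nat_lit 573482) (nat_lit 13) (.e (nat_lit 65610) (nat_lit 10) (.e (nat_lit 344117) (nat_lit 21) (.e (nat_lit 516179) (nat_lit 15) (.e (nat_lit 475198) (nat_lit 40) (.e (nat_lit 704589) (nat_lit 3) .nil))))))) (.g (nat_lit 1) (.e (nat_lit 173303) (nat_lit 0) .nil) .nil)))) (.nd (nat_lit 9) 
(.lf (nat_lit 502114) (.g (nat_lit 6951) (.e (nat_lit 163978) (nat_lit 30) (.e (nat_lit 573493) (nat_lit 15) (.e (nat_lit 81953) (nat_lit 22) (.e (nat_lit 90167) (nat_lit 13) .nil)))) (.g (nat_lit 0) (.e (nat_lit 172883) (nat_lit 0) .nil) .nil))) 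
(.lf (nat_lit 502626) (.g (nat_lit 3623) (.e (nat_lit 163979) (nat_lit 30) (.e (nat_lit 573482) (nat_lit 13) (.e (nat_lit 65619) (nat_lit 10) (.e (nat_lit 344117) (nat_lit 21) (.e (nat_lit 516182) (nat_lit 15) (.e (nat_lit 475198) (nat_lit 40) (.e (nat_lit 704589) (nat_lit 3) .nil))))))) (.g (nat_lit 1) (.e (nat_lit 173566) (nat_lit 0) .nil) .nil))))) (.nd (nat_lit 8) (.nd (nat_lit 9) 
(.lf (nat_lit 501986) (.g (nat_lit 2091) (.e (nat_lit 163978) (nat_lit 30) (.e (nat_lit 573489) (nat_lit 14) (.e (nat_lit 73755) (nat_lit 8) (.e (nat_lit 557105) (nat_lit 14) (.e (nat_lit 180242) (nat_lit 5) (.e (nat_lit 532484) (nat_lit 0) (.e (nat_lit 7936) (nat_lit 149) (.e (nat_lit 761899) (nat_lit 15) .nil)))))))) (.g (nat_lit 1) (.e (nat_lit 172206) (nat_lit 0) .nil) .nil))) 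
(.lf (nat_lit 502498) (.g (nat_lit 4592) (.e (nat_lit 163979) (nat_lit 30) (.e (nat_lit 573482) (nat_lit 13) (.e (nat_lit 65619) (nat_lit 10) (.e (nat_lit 344117) (nat_lit 21) (.e (nat_lit 516151) (nat_lit 9) (.e (nat_lit 426380) (nat_lit 15) (.e (nat_lit 2058) (nat_lit 142) (.e (nat_lit 704589) (nat_lit 3) .nil)))))))) (.g (nat_lit 1) (.e (nat_lit 173434) (nat_lit 0) .nil) .nil)))) 
(.nd (nat_lit 9) 
(.lf (nat_lit 502242) (.g (nat_lit 4208) (.e (nat_lit 163979) (nat_lit 30) (.e (nat_lit 573482) (nat_lit 13) (.e (nat_lit 65604) (nat_lit 9) (.e (nat_lit 336013) (nat_lit 2) (.e (nat_lit 90170) (nat_lit 13) (.e (nat_lit 172061) (nat_lit 1) (.e (nat_lit 164345) (nat_lit 240) (.e (nat_lit 2599) (nat_lit 163) .nil)))))))) (.g (nat_lit 1) (.e (nat_lit 173130) (nat_lit 0) .nil) .nil))) 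
(.lf (nat_lit 502754) (.g (nat_lit 3582) (.e (nat_lit 163979) (nat_lit 30) (.e (nat_lit 573487) (nat_lit 14) (.e (nat_lit 73754) (nat_lit 8) (.e (nat_lit 557105) (nat_lit 14) (.e (nat_lit 180252) (nat_lit 10) (.e (nat_lit 573475) (nat_lit 12) (.e (nat_lit 57504) (nat_lit 38) (.e (nat_lit 638996) (nat_lit 7) .nil)))))))) (.g (nat_lit 1) (.e (nat_lit 173868) (nat_lit 0) .nil) .nil)))))))) 
(.nd (nat_lit 5) (.nd (nat_lit 6) (.nd (nat_lit 7) (.nd (nat_lit 8) (.nd (nat_lit 9) 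
(.lf (nat_lit 501778) (.g (nat_lit 1683) (.e (nat_lit 163978) (nat_lit 30) (.e (nat_lit 573489) (nat_lit 14) (.e (nat_lit 73754) (nat_lit 8) (.e (nat_lit 557101) (nat_lit 13) (.e (nat_lit 172066) (nat_lit 3) .nil))))) (.g (nat_lit 0) (.e (nat_lit 171482) (nat_lit 0) .nil) .nil))) 
(.lf (nat_lit 502290) (.g (nat_lit 2990) (.e (nat_lit 163979) (nat_lit 30) (.e (nat_lit 573482) (nat_lit 13) (.e (nat_lit 65604) (nat_lit 9) (.e (nat_lit 336028) (nat_lit 3) (.e (nat_lit 98359) (nat_lit 26) (.e (nat_lit 426003) (nat_lit 0) (.e (nat_lit 3399) (nat_lit 211) (.e (nat_lit 647180) (nat_lit 3) .nil)))))))) (.g (nat_lit 1) (.e (nat_lit 173180) (nat_lit 0) .nil) .nil)))) (.nd (nat_lit 9) 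
(.lf (nat_lit 502034) (.g (nat_lit 2416) (.e (nat_lit 163978) (nat_lit 30) (.e (nat_lit 573489) (nat_lit 14) (.e (nat_lit 73755) (nat_lit 8) (.e (nat_lit 557105) (nat_lit 14) (.e (nat_lit 180251) (nat_lit 10) (.e (nat_lit 573475) (nat_lit 12) (.e (nat_lit 57501) (nat_lit 37) (.e (nat_lit 630799) (nat_lit 7) .nil)))))))) (.g (nat_lit 1) (.e (nat_lit 172437) (nat_lit 0) .nil) .nil))) 
(.lf (nat_lit 502546) (.g (nat_lit 2320) (.e (nat_lit 163979) (nat_lit 30) (.e (nat_lit 573482) (nat_lit 13) (.e (nat_lit 65619) (nat_lit 10) (.e (nat_lit 344117) (nat_lit 21) (.e (nat_lit 516159) (nat_lit 10) (.e (nat_lit 434211) (nat_lit 18) (.e (nat_lit 5546) (nat_lit 306) (.e (nat_lit 2599) (nat_lit 163) .nil)))))))) (.g (nat_lit 1) (.e (nat_lit 173482) (nat_lit 0) .nil) .nil))))) 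
(.nd (nat_lit 8) (.nd (nat_lit 9) 
(.lf (nat_lit 501906) (.g (nat_lit 3421) (.e (nat_lit 163978) (nat_lit 30) (.e (nat_lit 573489) (nat_lit 14) (.e (nat_lit 73755) (nat_lit 8) (.e (nat_lit 557100) (nat_lit 13) (.e (nat_lit 172065) (nat_lit 3) .nil))))) (.g (nat_lit 0) (.e (nat_lit 171839) (nat_lit 0) .nil) .nil))) 
(.lf (nat_lit 502418) (.g (nat_lit 2237) (.e (nat_lit 163979) (nat_lit 30) (.e (nat_lit 573482) (nat_lit 13) (.e (nat_lit 65619) (nat_lit 10) (.e (nat_lit 344117) (nat_lit 21) (.e (nat_lit 516145) (nat_lit 9) .nil))))) (.g (nat_lit 0) (.e (nat_lit 173354) (nat_lit 0) .nil) .nil)))) (.nd (nat_lit 9) 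
(.lf (nat_lit 502162) (.g (nat_lit 2550) (.e (nat_lit 163979) (nat_lit 30) (.e (nat_lit 573475) (nat_lit 12) (.e (nat_lit 57530) (nat_lit 46) (.e (nat_lit 704589) (nat_lit 3) (.e (nat_lit 163962) (nat_lit 25) (.e (nat_lit 532543) (nat_lit 10) (.e (nat_lit 344117) (nat_lit 21) (.e (nat_lit 516123) (nat_lit 2) (.e (nat_lit 213033) (nat_lit 12) .nil))))))))) (.g (nat_lit 1) (.e (nat_lit 173006) (nat_lit 0) .nil) .nil))) 
(.lf (nat_lit 502674) (.g (nat_lit 4037) (.e (nat_lit 163979) (nat_lit 30) (.e (nat_lit 573487) (nat_lit 14) (.e (nat_lit 73753) (nat_lit 8) (.e (nat_lit 557100) (nat_lit 13) (.e (nat_lit 172067) (nat_lit 3) (.e (nat_lit 204817) (nat_lit 17) (.e (nat_lit 7936) (nat_lit 149) (.e (nat_lit 761898) (nat_lit 15) .nil)))))))) (.g (nat_lit 1) (.e (nat_lit 173717) (nat_lit 0) .nil) .nil)))))) 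
(.nd (nat_lit 7) (.nd (nat_lit 8) (.nd (nat_lit 9) 
(.lf (nat_lit 501842) (.g (nat_lit 4764) (.e (nat_lit 163978) (nat_lit 30) (.e (nat_lit 573489) (nat_lit 14) (.e (nat_lit 73755) (nat_lit 8) (.e (nat_lit 557097) (nat_lit 13) (.e (nat_lit 172067) (nat_lit 3) (.e (nat_lit 204815) (nat_lit 17) (.e (nat_lit 2271) (nat_lit 149) (.e (nat_lit 761898) (nat_lit 15) .nil)))))))) (.g (nat_lit 1) (.e (nat_lit 171640) (nat_lit 0) .nil) .nil))) 
(.lf (nat_lit 502354) (.g (nat_lit 4056) (.e (nat_lit 163979) (nat_lit 30) (.e (nat_lit 573482) (nat_lit 13) (.e (nat_lit 65604) (nat_lit 9) (.e (nat_lit 336028) (nat_lit 3) (.e (nat_lit 98384) (nat_lit 32) (.e (nat_lit 475199) (nat_lit 40) (.e (nat_lit 704589) (nat_lit 3) .nil))))))) (.g (nat_lit 1) (.e (nat_lit 173286) (nat_lit 0) .nil) .nil)))) (.nd (nat_lit 9) 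
(.lf (nat_lit 502098) (.g (nat_lit 4413) (.e (nat_lit 163978) (nat_lit 30) (.e (nat_lit 573491) (nat_lit 15) (.e (nat_lit 81955) (nat_lit 23) (.e (nat_lit 98367) (nat_lit 27) (.e (nat_lit 434272) (nat_lit 38) (.e (nat_lit 655375) (nat_lit 3) .nil)))))) (.g (nat_lit 1) (.e (nat_lit 172770) (nat_lit 0) .nil) .nil))) 
(.lf (nat_lit 502610) (.g (nat_lit 4436) (.e (nat_lit 163979) (nat_lit 30) (.e (nat_lit 573482) (nat_lit 13) (.e (nat_lit 65619) (nat_lit 10) (.e (nat_lit 344117) (nat_lit 21) (.e (nat_lit 516178) (nat_lit 15) (.e (nat_lit 475199) (nat_lit 40) (.e (nat_lit 704589) (nat_lit 3) .nil))))))) (.g (nat_lit 1) (.e (nat_lit 173550) (nat_lit 0) .nil) .nil))))) (.nd (nat_lit 8) (.nd (nat_lit 9) 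
(.lf (nat_lit 501970) (.g (nat_lit 4053) (.e (nat_lit 163978) (nat_lit 30) (.e (nat_lit 573489) (nat_lit 14) (.e (nat_lit 73755) (nat_lit 8) (.e (nat_lit 557104) (nat_lit 14) (.e (nat_lit 180244) (nat_lit 5) (.e (nat_lit 532499) (nat_lit 1) (.e (nat_lit 57665) (nat_lit 152) (.e (nat_lit 2606) (nat_lit 163) .nil)))))))) (.g (nat_lit 1) (.e (nat_lit 172075) (nat_lit 0) .nil) .nil))) 
(.lf (nat_lit 502482) (.g (nat_lit 2428) (.e (nat_lit 163979) (nat_lit 30) (.e (nat_lit 573482) (nat_lit 13) (.e (nat_lit 65619) (nat_lit 10) (.e (nat_lit 344117) (nat_lit 21) (.e (nat_lit 516151) (nat_lit 9) (.e (nat_lit 426097) (nat_lit 1) (.e (nat_lit 164347) (nat_lit 240) (.e (nat_lit 2598) (nat_lit 163) .nil)))))))) (.g (nat_lit 1) (.e (nat_lit 173418) (nat_lit 0) .nil) .nil)))) 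
(.nd (nat_lit 9) 
(.lf (nat_lit 502226) (.g (nat_lit 2467) (.e (nat_lit 163979) (nat_lit 30) (.e (nat_lit 573482) (nat_lit 13) (.e (nat_lit 65604) (nat_lit 9) (.e (nat_lit 336013) (nat_lit 2) (.e (nat_lit 90170) (nat_lit 13) (.e (nat_lit 172049) (nat_lit 0) (.e (nat_lit 3406) (nat_lit 212) (.e (nat_lit 655374) (nat_lit 3) .nil)))))))) (.g (nat_lit 1) (.e (nat_lit 173114) (nat_lit 0) .nil) .nil))) 
(.lf (nat_lit 502738) (.g (nat_lit 4434) (.e (nat_lit 163979) (nat_lit 30) (.e (nat_lit 573487) (nat_lit 14) (.e (nat_lit 73753) (nat_lit 8) (.e (nat_lit 557105) (nat_lit 14) (.e (nat_lit 180252) (nat_lit 10) (.e (nat_lit 573475) (nat_lit 12) (.e (nat_lit 57504) (nat_lit 38) (.e (nat_lit 638996) (nat_lit 7) .nil)))))))) (.g (nat_lit 1) (.e (nat_lit 173848) (nat_lit 0) .nil) .nil))))))) 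
(.nd (nat_lit 6) (.nd (nat_lit 7) (.nd (nat_lit 8) (.nd (nat_lit 9) 
(.lf (nat_lit 501810) (.g (nat_lit 2095) (.e (nat_lit 163978) (nat_lit 30) (.e (nat_lit 573489) (nat_lit 14) (.e (nat_lit 73755) (nat_lit 8) (.e (nat_lit 557096) (nat_lit 13) (.e (nat_lit 172065) (nat_lit 3) .nil))))) (.g (nat_lit 0) (.e (nat_lit 171582) (nat_lit 0) .nil) .nil))) 
(.lf (nat_lit 502322) (.g (nat_lit 2972) (.e (nat_lit 163979) (nat_lit 30) (.e (nat_lit 573482) (nat_lit 13) (.e (nat_lit 65604) (nat_lit 9) (.e (nat_lit 336028) (nat_lit 3) (.e (nat_lit 98361) (nat_lit 26) (.e (nat_lit 426412) (nat_lit 15) (.e (nat_lit 2059) (nat_lit 142) (.e (nat_lit 704589) (nat_lit 3) .nil)))))))) (.g (nat_lit 1) (.e (nat_lit 173233) (nat_lit 0) .nil) .nil)))) 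
(.nd (nat_lit 9) 
(.lf (nat_lit 502066) (.g (nat_lit 3768) (.e (nat_lit 163978) (nat_lit 30) (.e (nat_lit 573489) (nat_lit 14) (.e (nat_lit 73755) (nat_lit 8) (.e (nat_lit 557105) (nat_lit 14) (.e (nat_lit 180252) (nat_lit 10) (.e (nat_lit 573478) (nat_lit 12) (.e (nat_lit 57502) (nat_lit 38) (.e (nat_lit 638996) (nat_lit 7) .nil)))))))) (.g (nat_lit 1) (.e (nat_lit 172705) (nat_lit 0) .nil) .nil))) 
(.lf (nat_lit 502578) (.g (nat_lit 3045) (.e (nat_lit 163979) (nat_lit 30) (.e (nat_lit 573482) (nat_lit 13) (.e (nat_lit 65619) (nat_lit 10) (.e (nat_lit 344117) (nat_lit 21) (.e (nat_lit 516161) (nat_lit 10) (.e (nat_lit 434209) (nat_lit 18) (.e (nat_lit 5548) (nat_lit 306) (.e (nat_lit 2611) (nat_lit 163) .nil)))))))) (.g (nat_lit 1) (.e (nat_lit 173515) (nat_lit 0) .nil) .nil))))) 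
(.nd (nat_lit 8) (.nd (nat_lit 9) 
(.lf (nat_lit 501938) (.g (nat_lit 4904) (.e (nat_lit 163978) (nat_lit 30) (.e (nat_lit 573489) (nat_lit 14) (.e (nat_lit 73755) (nat_lit 8) (.e (nat_lit 557103) (nat_lit 14) (.e (nat_lit 180244) (nat_lit 5) (.e (nat_lit 532501) (nat_lit 1) (.e (nat_lit 57663) (nat_lit 152) (.e (nat_lit 2612) (nat_lit 163) .nil)))))))) (.g (nat_lit 1) (.e (nat_lit 171953) (nat_lit 0) .nil) .nil))) 
(.lf (nat_lit 502450) (.g (nat_lit 4053) (.e (nat_lit 163979) (nat_lit 30) (.e (nat_lit 573482) (nat_lit 13) (.e (nat_lit 65619) (nat_lit 10) (.e (nat_lit 344117) (nat_lit 21) (.e (nat_lit 516151) (nat_lit 9) (.e (nat_lit 426003) (nat_lit 0) (.e (nat_lit 3399) (nat_lit 211) (.e (nat_lit 647180) (nat_lit 3) .nil)))))))) (.g (nat_lit 1) (.e (nat_lit 173386) (nat_lit 0) .nil) .nil)))) 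
(.nd (nat_lit 9) 
(.lf (nat_lit 502194) (.g (nat_lit 3072) (.e (nat_lit 163979) (nat_lit 30) (.e (nat_lit 573482) (nat_lit 13) (.e (nat_lit 65604) (nat_lit 9) (.e (nat_lit 336013) (nat_lit 2) (.e (nat_lit 90170) (nat_lit 13) (.e (nat_lit 172033) (nat_lit 0) (.e (nat_lit 3397) (nat_lit 211) (.e (nat_lit 647180) (nat_lit 3) .nil)))))))) (.g (nat_lit 1) (.e (nat_lit 173078) (nat_lit 0) .nil) .nil))) 
(.lf (nat_lit 502706) (.g (nat_lit 4148) (.e (nat_lit 163979) (nat_lit 30) (.e (nat_lit 573487) (nat_lit 14) (.e (nat_lit 73753) (nat_lit 8) (.e (nat_lit 557103) (nat_lit 14) (.e (nat_lit 180250) (nat_lit 10) (.e (nat_lit 573477) (nat_lit 12) (.e (nat_lit 57502) (nat_lit 38) (.e (nat_lit 638995) (nat_lit 7) .nil)))))))) (.g (nat_lit 1) (.e (nat_lit 173808) (nat_lit 0) .nil) .nil)))))) 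
(.nd (nat_lit 7) (.nd (nat_lit 8) (.nd (nat_lit 9) 
(.lf (nat_lit 501874) (.g (nat_lit 3624) (.e (nat_lit 163978) (nat_lit 30) (.e (nat_lit 573489) (nat_lit 14) (.e (nat_lit 73755) (nat_lit 8) (.e (nat_lit 557098) (nat_lit 13) (.e (nat_lit 172066) (nat_lit 3) (.e (nat_lit 204817) (nat_lit 17) (.e (nat_lit 7936) (nat_lit 149) (.e (nat_lit 761897) (nat_lit 15) .nil)))))))) (.g (nat_lit 1) (.e (nat_lit 171741) (nat_lit 0) .nil) .nil))) 
(.lf (nat_lit 502386) (.g (nat_lit 2567) (.e (nat_lit 163979) (nat_lit 30) (.e (nat_lit 573482) (nat_lit 13) (.e (nat_lit 65619) (nat_lit 10) (.e (nat_lit 344117) (nat_lit 21) (.e (nat_lit 516106) (nat_lit 0) (.e (nat_lit 7936) (nat_lit 388) (.e (nat_lit 2610) (nat_lit 163) (.e (nat_lit 164347) (nat_lit 240) (.e (nat_lit 2599) (nat_lit 163) .nil))))))))) (.g (nat_lit 1) (.e (nat_lit 173321) (nat_lit 0) .nil) .nil)))) 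
(.nd (nat_lit 9) 
(.lf (nat_lit 502130) (.g (nat_lit 3856) (.e (nat_lit 163978) (nat_lit 30) (.e (nat_lit 573493) (nat_lit 15) (.e (nat_lit 81954) (nat_lit 23) (.e (nat_lit 98365) (nat_lit 26) .nil)))) (.g (nat_lit 0) (.e (nat_lit 172901) (nat_lit 0) .nil) .nil))) 
(.lf (nat_lit 502642) (.g (nat_lit 537) (.e (nat_lit 163979) (nat_lit 30) (.e (nat_lit 573482) (nat_lit 13) (.e (nat_lit 65626) (nat_lit 13) .nil))) (.g (nat_lit 0) (.e (nat_lit 173607) (nat_lit 0) .nil) .nil))))) (.nd (nat_lit 8) (.nd (nat_lit 9) 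
(.lf (nat_lit 502002) (.g (nat_lit 3015) (.e (nat_lit 163978) (nat_lit 30) (.e (nat_lit 573489) (nat_lit 14) (.e (nat_lit 73755) (nat_lit 8) (.e (nat_lit 557105) (nat_lit 14) (.e (nat_lit 180244) (nat_lit 5) (.e (nat_lit 532503) (nat_lit 1) (.e (nat_lit 57657) (nat_lit 152) (.e (nat_lit 2606) (nat_lit 163) .nil)))))))) (.g (nat_lit 1) (.e (nat_lit 172267) (nat_lit 0) .nil) .nil))) 
(.lf (nat_lit 502514) (.g (nat_lit 2713) (.e (nat_lit 163979) (nat_lit 30) (.e (nat_lit 573482) (nat_lit 13) (.e (nat_lit 65619) (nat_lit 10) (.e (nat_lit 344117) (nat_lit 21) (.e (nat_lit 516152) (nat_lit 9) (.e (nat_lit 426109) (nat_lit 1) (.e (nat_lit 164346) (nat_lit 240) (.e (nat_lit 2611) (nat_lit 163) .nil)))))))) (.g (nat_lit 1) (.e (nat_lit 173450) (nat_lit 0) .nil) .nil)))) 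
(.nd (nat_lit 9) 
(.lf (nat_lit 502258) (.g (nat_lit 4442) (.e (nat_lit 163979) (nat_lit 30) (.e (nat_lit 573482) (nat_lit 13) (.e (nat_lit 65604) (nat_lit 9) (.e (nat_lit 336013) (nat_lit 2) (.e (nat_lit 90170) (nat_lit 13) (.e (nat_lit 172069) (nat_lit 4) (.e (nat_lit 229664) (nat_lit 240) (.e (nat_lit 2602) (nat_lit 163) .nil)))))))) (.g (nat_lit 1) (.e (nat_lit 173146) (nat_lit 0) .nil) .nil))) 
(.lf (nat_lit 502770) (.g (nat_lit 4654) (.e (nat_lit 163979) (nat_lit 30) (.e (nat_lit 573488) (nat_lit 14) (.e (nat_lit 73753) (nat_lit 8) (.e (nat_lit 557103) (nat_lit 14) (.e (nat_lit 180250) (nat_lit 10) (.e (nat_lit 573475) (nat_lit 12) (.e (nat_lit 57503) (nat_lit 38) (.e (nat_lit 638995) (nat_lit 7) .nil)))))))) (.g (nat_lit 1) (.e (nat_lit 173895) (nat_lit 0) .nil) .nil))))))))) 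
(.nd (nat_lit 4) (.nd (nat_lit 5) (.nd (nat_lit 6) (.nd (nat_lit 7) (.nd (nat_lit 8) 
(.nd (nat_lit 9) 
(.lf (nat_lit 501770) (.g (nat_lit 3312) (.e (nat_lit 163978) (nat_lit 30) (.e (nat_lit 573489) (nat_lit 14) (.e (nat_lit 73754) (nat_lit 8) (.e (nat_lit 557101) (nat_lit 13) (.e (nat_lit 172065) (nat_lit 3) (.e (nat_lit 204817) (nat_lit 17) (.e (nat_lit 2272) (nat_lit 149) (.e (nat_lit 761897) (nat_lit 15) .nil)))))))) (.g (nat_lit 1) (.e (nat_lit 171469) (nat_lit 0) .nil) .nil))) 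
(.lf (nat_lit 502282) (.g (nat_lit 3845) (.e (nat_lit 163979) (nat_lit 30) (.e (nat_lit 573482) (nat_lit 13) (.e (nat_lit 65604) (nat_lit 9) (.e (nat_lit 336028) (nat_lit 3) (.e (nat_lit 98354) (nat_lit 26) (.e (nat_lit 426109) (nat_lit 1) (.e (nat_lit 164345) (nat_lit 240) (.e (nat_lit 2599) (nat_lit 163) .nil)))))))) (.g (nat_lit 1) (.e (nat_lit 173171) (nat_lit 0) .nil) .nil)))) 
(.nd (nat_lit 9) 
(.lf (nat_lit 502026) (.g (nat_lit 3098) (.e (nat_lit 163978) (nat_lit 30) (.e (nat_lit 573489) (nat_lit 14) (.e (nat_lit 73755) (nat_lit 8) (.e (nat_lit 557105) (nat_lit 14) (.e (nat_lit 180245) (nat_lit 5) (.e (nat_lit 532504) (nat_lit 1) (.e (nat_lit 57663) (nat_lit 152) (.e (nat_lit 2606) (nat_lit 163) .nil)))))))) (.g (nat_lit 1) (.e (nat_lit 172408) (nat_lit 0) .nil) .nil))) 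
(.lf (nat_lit 502538) (.g (nat_lit 3705) (.e (nat_lit 163979) (nat_lit 30) (.e (nat_lit 573482) (nat_lit 13) (.e (nat_lit 65619) (nat_lit 10) (.e (nat_lit 344117) (nat_lit 21) (.e (nat_lit 516159) (nat_lit 10) (.e (nat_lit 434202) (nat_lit 18) (.e (nat_lit 5537) (nat_lit 306) (.e (nat_lit 2607) (nat_lit 163) .nil)))))))) (.g (nat_lit 1) (.e (nat_lit 173474) (nat_lit 0) .nil) .nil))))) 
(.nd (nat_lit 8) (.nd (nat_lit 9) 
(.lf (nat_lit 501898) (.g (nat_lit 3801) (.e (nat_lit 163978) (nat_lit 30) (.e (nat_lit 573489) (nat_lit 14) (.e (nat_lit 73755) (nat_lit 8) (.e (nat_lit 557098) (nat_lit 13) (.e (nat_lit 172067) (nat_lit 3) (.e (nat_lit 204830) (nat_lit 18) (.e (nat_lit 57663) (nat_lit 152) (.e (nat_lit 2606) (nat_lit 163) .nil)))))))) (.g (nat_lit 1) (.e (nat_lit 171801) (nat_lit 0) .nil) .nil))) 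
(.lf (nat_lit 502410) (.g (nat_lit 3058) (.e (nat_lit 163979) (nat_lit 30) (.e (nat_lit 573482) (nat_lit 13) (.e (nat_lit 65619) (nat_lit 10) (.e (nat_lit 344117) (nat_lit 21) (.e (nat_lit 516144) (nat_lit 9) (.e (nat_lit 426416) (nat_lit 15) (.e (nat_lit 2059) (nat_lit 142) (.e (nat_lit 704589) (nat_lit 3) .nil)))))))) (.g (nat_lit 1) (.e (nat_lit 173346) (nat_lit 0) .nil) .nil)))) 
(.nd (nat_lit 9) 
(.lf (nat_lit 502154) (.g (nat_lit 3454) (.e (nat_lit 163978) (nat_lit 30) (.e (nat_lit 573493) (nat_lit 15) (.e (nat_lit 81956) (nat_lit 23) (.e (nat_lit 106240) (nat_lit 27) .nil)))) (.g (nat_lit 0) (.e (nat_lit 172937) (nat_lit 0) .nil) .nil))) 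
(.lf (nat_lit 502666) (.g (nat_lit 3185) (.e (nat_lit 163979) (nat_lit 30) (.e (nat_lit 573487) (nat_lit 14) (.e (nat_lit 73753) (nat_lit 8) (.e (nat_lit 557100) (nat_lit 13) (.e (nat_lit 172065) (nat_lit 3) (.e (nat_lit 204815) (nat_lit 17) (.e (nat_lit 2271) (nat_lit 149) (.e (nat_lit 761898) (nat_lit 15) .nil)))))))) (.g (nat_lit 1) (.e (nat_lit 173692) (nat_lit 0) .nil) .nil)))))) 
(.nd (nat_lit 7) (.nd (nat_lit 8) (.nd (nat_lit 9) 
(.lf (nat_lit 501834) (.g (nat_lit 3856) (.e (nat_lit 163978) (nat_lit 30) (.e (nat_lit 573489) (nat_lit 14) (.e (nat_lit 73755) (nat_lit 8) (.e (nat_lit 557097) (nat_lit 13) (.e (nat_lit 172066) (nat_lit 3) (.e (nat_lit 204817) (nat_lit 17) (.e (nat_lit 7936) (nat_lit 149) (.e (nat_lit 761898) (nat_lit 15) .nil)))))))) (.g (nat_lit 1) (.e (nat_lit 171625) (nat_lit 0) .nil) .nil))) 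
(.lf (nat_lit 502346) (.g (nat_lit 2410) (.e (nat_lit 163979) (nat_lit 30) (.e (nat_lit 573482) (nat_lit 13) (.e (nat_lit 65604) (nat_lit 9) (.e (nat_lit 336028) (nat_lit 3) (.e (nat_lit 98367) (nat_lit 27) (.e (nat_lit 434270) (nat_lit 38) (.e (nat_lit 655374) (nat_lit 3) .nil))))))) (.g (nat_lit 1) (.e (nat_lit 173277) (nat_lit 0) .nil) .nil)))) (.nd (nat_lit 9) 
(.lf (nat_lit 502090) (.g (nat_lit 1353) (.e (nat_lit 163978) (nat_lit 30) (.e (nat_lit 573491) (nat_lit 15) (.e (nat_lit 81952) (nat_lit 22) .nil))) (.g (nat_lit 0) (.e (nat_lit 172760) (nat_lit 0) .nil) .nil))) 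
(.lf (nat_lit 502602) (.g (nat_lit 3499) (.e (nat_lit 163979) (nat_lit 30) (.e (nat_lit 573482) (nat_lit 13) (.e (nat_lit 65619) (nat_lit 10) (.e (nat_lit 344117) (nat_lit 21) (.e (nat_lit 516171) (nat_lit 13) (.e (nat_lit 458774) (nat_lit 18) (.e (nat_lit 5548) (nat_lit 306) (.e (nat_lit 2599) (nat_lit 163) .nil)))))))) (.g (nat_lit 1) (.e (nat_lit 173542) (nat_lit 0) .nil) .nil))))) 
(.nd (nat_lit 8) (.nd (nat_lit 9) 
(.lf (nat_lit 501962) (.g (nat_lit 2980) (.e (nat_lit 163978) (nat_lit 30) (.e (nat_lit 573489) (nat_lit 14) (.e (nat_lit 73755) (nat_lit 8) (.e (nat_lit 557104) (nat_lit 14) (.e (nat_lit 180244) (nat_lit 5) (.e (nat_lit 532485) (nat_lit 0) (.e (nat_lit 2272) (nat_lit 149) (.e (nat_lit 761899) (nat_lit 15) .nil)))))))) (.g (nat_lit 1) (.e (nat_lit 172054) (nat_lit 0) .nil) .nil))) 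
(.lf (nat_lit 502474) (.g (nat_lit 2408) (.e (nat_lit 163979) (nat_lit 30) (.e (nat_lit 573482) (nat_lit 13) (.e (nat_lit 65619) (nat_lit 10) (.e (nat_lit 344117) (nat_lit 21) (.e (nat_lit 516151) (nat_lit 9) (.e (nat_lit 426043) (nat_lit 0) (.e (nat_lit 2458) (nat_lit 157) (.e (nat_lit 5547) (nat_lit 306) (.e (nat_lit 2599) (nat_lit 163) .nil))))))))) (.g (nat_lit 1) (.e (nat_lit 173410) (nat_lit 0) .nil) .nil)))) 
(.nd (nat_lit 9) 
(.lf (nat_lit 502218) (.g (nat_lit 3624) (.e (nat_lit 163979) (nat_lit 30) (.e (nat_lit 573482) (nat_lit 13) (.e (nat_lit 65604) (nat_lit 9) (.e (nat_lit 336013) (nat_lit 2) (.e (nat_lit 90170) (nat_lit 13) (.e (nat_lit 172046) (nat_lit 0) (.e (nat_lit 3403) (nat_lit 212) (.e (nat_lit 655374) (nat_lit 3) .nil)))))))) (.g (nat_lit 1) (.e (nat_lit 173105) (nat_lit 0) .nil) .nil))) 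
(.lf (nat_lit 502730) (.g (nat_lit 4107) (.e (nat_lit 163979) (nat_lit 30) (.e (nat_lit 573487) (nat_lit 14) (.e (nat_lit 73753) (nat_lit 8) (.e (nat_lit 557105) (nat_lit 14) (.e (nat_lit 180252) (nat_lit 10) (.e (nat_lit 573475) (nat_lit 12) (.e (nat_lit 57500) (nat_lit 37) (.e (nat_lit 630800) (nat_lit 7) .nil)))))))) (.g (nat_lit 1) (.e (nat_lit 173839) (nat_lit 0) .nil) .nil))))))) 
(.nd (nat_lit 6) (.nd (nat_lit 7) (.nd (nat_lit 8) (.nd (nat_lit 9) 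
(.lf (nat_lit 501802) (.g (nat_lit 2741) (.e (nat_lit 163978) (nat_lit 30) (.e (nat_lit 573489) (nat_lit 14) (.e (nat_lit 73754) (nat_lit 8) (.e (nat_lit 557105) (nat_lit 14) (.e (nat_lit 180252) (nat_lit 10) (.e (nat_lit 573473) (nat_lit 12) (.e (nat_lit 57504) (nat_lit 38) (.e (nat_lit 638996) (nat_lit 7) .nil)))))))) (.g (nat_lit 1) (.e (nat_lit 171536) (nat_lit 0) .nil) .nil))) 
(.lf (nat_lit 502314) (.g (nat_lit 2439) (.e (nat_lit 163979) (nat_lit 30) (.e (nat_lit 573482) (nat_lit 13) (.e (nat_lit 65604) (nat_lit 9) (.e (nat_lit 336028) (nat_lit 3) (.e (nat_lit 98360) (nat_lit 26) .nil))))) (.g (nat_lit 0) (.e (nat_lit 173224) (nat_lit 0) .nil) .nil)))) (.nd (nat_lit 9) 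
(.lf (nat_lit 502058) (.g (nat_lit 3669) (.e (nat_lit 163978) (nat_lit 30) (.e (nat_lit 573489) (nat_lit 14) (.e (nat_lit 73755) (nat_lit 8) (.e (nat_lit 557105) (nat_lit 14) (.e (nat_lit 180252) (nat_lit 10) (.e (nat_lit 573475) (nat_lit 12) (.e (nat_lit 57502) (nat_lit 38) (.e (nat_lit 638994) (nat_lit 7) .nil)))))))) (.g (nat_lit 1) (.e (nat_lit 172697) (nat_lit 0) .nil) .nil))) 
(.lf (nat_lit 502570) (.g (nat_lit 3890) (.e (nat_lit 163979) (nat_lit 30) (.e (nat_lit 573482) (nat_lit 13) (.e (nat_lit 65619) (nat_lit 10) (.e (nat_lit 344117) (nat_lit 21) (.e (nat_lit 516160) (nat_lit 10) (.e (nat_lit 434271) (nat_lit 38) (.e (nat_lit 655374) (nat_lit 3) .nil))))))) (.g (nat_lit 1) (.e (nat_lit 173507) (nat_lit 0) .nil) .nil))))) (.nd (nat_lit 8) (.nd (nat_lit 9) 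
(.lf (nat_lit 501930) (.g (nat_lit 4135) (.e (nat_lit 163978) (nat_lit 30) (.e (nat_lit 573489) (nat_lit 14) (.e (nat_lit 73755) (nat_lit 8) (.e (nat_lit 557103) (nat_lit 14) (.e (nat_lit 180244) (nat_lit 5) (.e (nat_lit 532489) (nat_lit 0) (.e (nat_lit 7936) (nat_lit 149) (.e (nat_lit 761898) (nat_lit 15) .nil)))))))) (.g (nat_lit 1) (.e (nat_lit 171904) (nat_lit 0) .nil) .nil))) 
(.lf (nat_lit 502442) (.g (nat_lit 2707) (.e (nat_lit 163979) (nat_lit 30) (.e (nat_lit 573482) (nat_lit 13) (.e (nat_lit 65619) (nat_lit 10) (.e (nat_lit 344117) (nat_lit 21) (.e (nat_lit 516147) (nat_lit 9) (.e (nat_lit 426376) (nat_lit 15) (.e (nat_lit 2057) (nat_lit 142) (.e (nat_lit 704589) (nat_lit 3) .nil)))))))) (.g (nat_lit 1) (.e (nat_lit 173378) (nat_lit 0) .nil) .nil)))) 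
(.nd (nat_lit 9) 
(.lf (nat_lit 502186) (.g (nat_lit 2609) (.e (nat_lit 163979) (nat_lit 30) (.e (nat_lit 573482) (nat_lit 13) (.e (nat_lit 65604) (nat_lit 9) (.e (nat_lit 336013) (nat_lit 2) (.e (nat_lit 90134) (nat_lit 9) (.e (nat_lit 3055) (nat_lit 190) (.e (nat_lit 475197) (nat_lit 40) (.e (nat_lit 704589) (nat_lit 3) .nil)))))))) (.g (nat_lit 1) (.e (nat_lit 173070) (nat_lit 0) .nil) .nil))) 
(.lf (nat_lit 502698) (.g (nat_lit 2834) (.e (nat_lit 163979) (nat_lit 30) (.e (nat_lit 573487) (nat_lit 14) (.e (nat_lit 73753) (nat_lit 8) (.e (nat_lit 557103) (nat_lit 14) (.e (nat_lit 180250) (nat_lit 10) (.e (nat_lit 573475) (nat_lit 12) (.e (nat_lit 57502) (nat_lit 38) (.e (nat_lit 638996) (nat_lit 7) .nil)))))))) (.g (nat_lit 1) (.e (nat_lit 173799) (nat_lit 0) .nil) .nil)))))) 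
(.nd (nat_lit 7) (.nd (nat_lit 8) (.nd (nat_lit 9) 
(.lf (nat_lit 501866) (.g (nat_lit 5116) (.e (nat_lit 163978) (nat_lit 30) (.e (nat_lit 573489) (nat_lit 14) (.e (nat_lit 73755) (nat_lit 8) (.e (nat_lit 557098) (nat_lit 13) (.e (nat_lit 172065) (nat_lit 3) (.e (nat_lit 204830) (nat_lit 18) (.e (nat_lit 57663) (nat_lit 152) (.e (nat_lit 2612) (nat_lit 163) .nil)))))))) (.g (nat_lit 1) (.e (nat_lit 171720) (nat_lit 0) .nil) .nil))) 
(.lf (nat_lit 502378) (.g (nat_lit 3453) (.e (nat_lit 163979) (nat_lit 30) (.e (nat_lit 573482) (nat_lit 13) (.e (nat_lit 65616) (nat_lit 10) (.e (nat_lit 344118) (nat_lit 21) (.e (nat_lit 516179) (nat_lit 15) (.e (nat_lit 475199) (nat_lit 40) (.e (nat_lit 704589) (nat_lit 3) .nil))))))) (.g (nat_lit 1) (.e (nat_lit 173311) (nat_lit 0) .nil) .nil)))) (.nd (nat_lit 9) 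
(.lf (nat_lit 502122) (.g (nat_lit 7192) (.e (nat_lit 163978) (nat_lit 30) (.e (nat_lit 573493) (nat_lit 15) (.e (nat_lit 81953) (nat_lit 22) (.e (nat_lit 90183) (nat_lit 17) .nil)))) (.g (nat_lit 0) (.e (nat_lit 172892) (nat_lit 0) .nil) .nil))) 
(.lf (nat_lit 502634) (.g (nat_lit 3495) (.e (nat_lit 163979) (nat_lit 30) (.e (nat_lit 573482) (nat_lit 13) (.e (nat_lit 65619) (nat_lit 10) (.e (nat_lit 344129) (nat_lit 26) (.e (nat_lit 557087) (nat_lit 11) (.e (nat_lit 24597) (nat_lit 1) (.e (nat_lit 57770) (nat_lit 227) (.e (nat_lit 2607) (nat_lit 163) .nil)))))))) (.g (nat_lit 1) (.e (nat_lit 173595) (nat_lit 0) .nil) .nil))))) 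
(.nd (nat_lit 8) (.nd (nat_lit 9) 
(.lf (nat_lit 501994) (.g (nat_lit 3353) (.e (nat_lit 163978) (nat_lit 30) (.e (nat_lit 573489) (nat_lit 14) (.e (nat_lit 73755) (nat_lit 8) (.e (nat_lit 557105) (nat_lit 14) (.e (nat_lit 180244) (nat_lit 5) (.e (nat_lit 532484) (nat_lit 0) (.e (nat_lit 2272) (nat_lit 149) (.e (nat_lit 761899) (nat_lit 15) .nil)))))))) (.g (nat_lit 1) (.e (nat_lit 172231) (nat_lit 0) .nil) .nil))) 
(.lf (nat_lit 502506) (.g (nat_lit 3341) (.e (nat_lit 163979) (nat_lit 30) (.e (nat_lit 573482) (nat_lit 13) (.e (nat_lit 65619) (nat_lit 10) (.e (nat_lit 344117) (nat_lit 21) (.e (nat_lit 516151) (nat_lit 9) (.e (nat_lit 433920) (nat_lit 24) (.e (nat_lit 163584) (nat_lit 3) .nil))))))) (.g (nat_lit 1) (.e (nat_lit 173442) (nat_lit 0) .nil) .nil)))) (.nd (nat_lit 9) 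
(.lf (nat_lit 502250) (.g (nat_lit 4188) (.e (nat_lit 163979) (nat_lit 30) (.e (nat_lit 573482) (nat_lit 13) (.e (nat_lit 65604) (nat_lit 9) (.e (nat_lit 336013) (nat_lit 2) (.e (nat_lit 90170) (nat_lit 13) (.e (nat_lit 172061) (nat_lit 1) (.e (nat_lit 164348) (nat_lit 240) (.e (nat_lit 2601) (nat_lit 163) .nil)))))))) (.g (nat_lit 1) (.e (nat_lit 173138) (nat_lit 0) .nil) .nil))) 
(.lf (nat_lit 502762) (.g (nat_lit 4118) (.e (nat_lit 163979) (nat_lit 30) (.e (nat_lit 573487) (nat_lit 14) (.e (nat_lit 73755) (nat_lit 8) (.e (nat_lit 557105) (nat_lit 14) (.e (nat_lit 180252) (nat_lit 10) (.e (nat_lit 573475) (nat_lit 12) (.e (nat_lit 57503) (nat_lit 38) (.e (nat_lit 638995) (nat_lit 7) .nil)))))))) (.g (nat_lit 1) (.e (nat_lit 173876) (nat_lit 0) .nil) .nil)))))))) 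
(.nd (nat_lit 5) (.nd (nat_lit 6) (.nd (nat_lit 7) (.nd (nat_lit 8) (.nd (nat_lit 9) 
(.lf (nat_lit 501786) (.g (nat_lit 3027) (.e (nat_lit 163978) (nat_lit 30) (.e (nat_lit 573489) (nat_lit 14) (.e (nat_lit 73754) (nat_lit 8) (.e (nat_lit 557101) (nat_lit 13) (.e (nat_lit 172067) (nat_lit 3) (.e (nat_lit 204817) (nat_lit 17) (.e (nat_lit 2272) (nat_lit 149) (.e (nat_lit 761899) (nat_lit 15) .nil)))))))) (.g (nat_lit 1) (.e (nat_lit 171499) (nat_lit 0) .nil) .nil))) 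
(.lf (nat_lit 502298) (.g (nat_lit 4016) (.e (nat_lit 163979) (nat_lit 30) (.e (nat_lit 573482) (nat_lit 13) (.e (nat_lit 65604) (nat_lit 9) (.e (nat_lit 336028) (nat_lit 3) (.e (nat_lit 98359) (nat_lit 26) (.e (nat_lit 426025) (nat_lit 0) (.e (nat_lit 3399) (nat_lit 211) (.e (nat_lit 647180) (nat_lit 3) .nil)))))))) (.g (nat_lit 1) (.e (nat_lit 173188) (nat_lit 0) .nil) .nil)))) (.nd (nat_lit 9) 
(.lf (nat_lit 502042) (.g (nat_lit 3300) (.e (nat_lit 163978) (nat_lit 30) (.e (nat_lit 573489) (nat_lit 14) (.e (nat_lit 73755) (nat_lit 8) (.e (nat_lit 557105) (nat_lit 14) (.e (nat_lit 180252) (nat_lit 10) (.e (nat_lit 573473) (nat_lit 12) (.e (nat_lit 57501) (nat_lit 37) (.e (nat_lit 638720) (nat_lit 7) .nil)))))))) (.g (nat_lit 1) (.e (nat_lit 172559) (nat_lit 0) .nil) .nil))) 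
(.lf (nat_lit 502554) (.g (nat_lit 2100) (.e (nat_lit 163979) (nat_lit 30) (.e (nat_lit 573482) (nat_lit 13) (.e (nat_lit 65619) (nat_lit 10) (.e (nat_lit 344117) (nat_lit 21) (.e (nat_lit 516160) (nat_lit 10) .nil))))) (.g (nat_lit 0) (.e (nat_lit 173490) (nat_lit 0) .nil) .nil))))) (.nd (nat_lit 8) (.nd (nat_lit 9) 
(.lf (nat_lit 501914) (.g (nat_lit 1851) (.e (nat_lit 163978) (nat_lit 30) (.e (nat_lit 573489) (nat_lit 14) (.e (nat_lit 73755) (nat_lit 8) (.e (nat_lit 557103) (nat_lit 14) .nil)))) (.g (nat_lit 0) (.e (nat_lit 171850) (nat_lit 0) .nil) .nil))) 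
(.lf (nat_lit 502426) (.g (nat_lit 4340) (.e (nat_lit 163979) (nat_lit 30) (.e (nat_lit 573482) (nat_lit 13) (.e (nat_lit 65619) (nat_lit 10) (.e (nat_lit 344117) (nat_lit 21) (.e (nat_lit 516145) (nat_lit 9) (.e (nat_lit 426376) (nat_lit 15) (.e (nat_lit 2056) (nat_lit 142) (.e (nat_lit 704589) (nat_lit 3) .nil)))))))) (.g (nat_lit 1) (.e (nat_lit 173362) (nat_lit 0) .nil) .nil)))) 
(.nd (nat_lit 9) 
(.lf (nat_lit 502170) (.g (nat_lit 2030) (.e (nat_lit 163979) (nat_lit 30) (.e (nat_lit 573481) (nat_lit 13) (.e (nat_lit 65604) (nat_lit 9) (.e (nat_lit 336028) (nat_lit 3) (.e (nat_lit 98359) (nat_lit 26) .nil))))) (.g (nat_lit 0) (.e (nat_lit 173039) (nat_lit 0) .nil) .nil))) 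
(.lf (nat_lit 502682) (.g (nat_lit 4036) (.e (nat_lit 163979) (nat_lit 30) (.e (nat_lit 573487) (nat_lit 14) (.e (nat_lit 73753) (nat_lit 8) (.e (nat_lit 557103) (nat_lit 14) (.e (nat_lit 180243) (nat_lit 5) (.e (nat_lit 532489) (nat_lit 0) (.e (nat_lit 7936) (nat_lit 149) (.e (nat_lit 761898) (nat_lit 15) .nil)))))))) (.g (nat_lit 1) (.e (nat_lit 173747) (nat_lit 0) .nil) .nil)))))) 
(.nd (nat_lit 7) (.nd (nat_lit 8) (.nd (nat_lit 9) 
(.lf (nat_lit 501850) (.g (nat_lit 4556) (.e (nat_lit 163978) (nat_lit 30) (.e (nat_lit 573489) (nat_lit 14) (.e (nat_lit 73755) (nat_lit 8) (.e (nat_lit 557097) (nat_lit 13) (.e (nat_lit 172067) (nat_lit 3) (.e (nat_lit 204830) (nat_lit 18) (.e (nat_lit 57663) (nat_lit 152) (.e (nat_lit 2612) (nat_lit 163) .nil)))))))) (.g (nat_lit 1) (.e (nat_lit 171653) (nat_lit 0) .nil) .nil))) 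
(.lf (nat_lit 502362) (.g (nat_lit 1589) (.e (nat_lit 163979) (nat_lit 30) (.e (nat_lit 573482) (nat_lit 13) (.e (nat_lit 65609) (nat_lit 10) (.e (nat_lit 344117) (nat_lit 21) (.e (nat_lit 516151) (nat_lit 9) .nil))))) (.g (nat_lit 0) (.e (nat_lit 173295) (nat_lit 0) .nil) .nil)))) (.nd (nat_lit 9) 
(.lf (nat_lit 502106) (.g (nat_lit 4512) (.e (nat_lit 163978) (nat_lit 30) (.e (nat_lit 573492) (nat_lit 15) (.e (nat_lit 81956) (nat_lit 23) (.e (nat_lit 98367) (nat_lit 27) .nil)))) (.g (nat_lit 0) (.e (nat_lit 172782) (nat_lit 0) .nil) .nil))) 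
(.lf (nat_lit 502618) (.g (nat_lit 3486) (.e (nat_lit 163979) (nat_lit 30) (.e (nat_lit 573482) (nat_lit 13) (.e (nat_lit 65619) (nat_lit 10) (.e (nat_lit 344117) (nat_lit 21) (.e (nat_lit 516180) (nat_lit 15) (.e (nat_lit 475201) (nat_lit 40) (.e (nat_lit 712448) (nat_lit 3) .nil))))))) (.g (nat_lit 1) (.e (nat_lit 173558) (nat_lit 0) .nil) .nil))))) (.nd (nat_lit 8) (.nd (nat_lit 9) 
(.lf (nat_lit 501978) (.g (nat_lit 3182) (.e (nat_lit 163978) (nat_lit 30) (.e (nat_lit 573489) (nat_lit 14) (.e (nat_lit 73755) (nat_lit 8) (.e (nat_lit 557104) (nat_lit 14) (.e (nat_lit 180245) (nat_lit 5) .nil))))) (.g (nat_lit 0) (.e (nat_lit 172157) (nat_lit 0) .nil) .nil))) 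
(.lf (nat_lit 502490) (.g (nat_lit 4353) (.e (nat_lit 163979) (nat_lit 30) (.e (nat_lit 573482) (nat_lit 13) (.e (nat_lit 65619) (nat_lit 10) (.e (nat_lit 344117) (nat_lit 21) (.e (nat_lit 516151) (nat_lit 9) (.e (nat_lit 426104) (nat_lit 1) (.e (nat_lit 164347) (nat_lit 240) (.e (nat_lit 2611) (nat_lit 163) .nil)))))))) (.g (nat_lit 1) (.e (nat_lit 173426) (nat_lit 0) .nil) .nil)))) 
(.nd (nat_lit 9) 
(.lf (nat_lit 502234) (.g (nat_lit 4358) (.e (nat_lit 163979) (nat_lit 30) (.e (nat_lit 573482) (nat_lit 13) (.e (nat_lit 65604) (nat_lit 9) (.e (nat_lit 336013) (nat_lit 2) (.e (nat_lit 90170) (nat_lit 13) (.e (nat_lit 172059) (nat_lit 1) (.e (nat_lit 164347) (nat_lit 240) (.e (nat_lit 2599) (nat_lit 163) .nil)))))))) (.g (nat_lit 1) (.e (nat_lit 173122) (nat_lit 0) .nil) .nil))) 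
(.lf (nat_lit 502746) (.g (nat_lit 4020) (.e (nat_lit 163979) (nat_lit 30) (.e (nat_lit 573487) (nat_lit 14) (.e (nat_lit 73754) (nat_lit 8) (.e (nat_lit 557105) (nat_lit 14) (.e (nat_lit 180252) (nat_lit 10) (.e (nat_lit 573473) (nat_lit 12) (.e (nat_lit 57504) (nat_lit 38) (.e (nat_lit 638995) (nat_lit 7) .nil)))))))) (.g (nat_lit 1) (.e (nat_lit 173858) (nat_lit 0) .nil) .nil))))))) 
(.nd (nat_lit 6) (.nd (nat_lit 7) (.nd (nat_lit 8) (.nd (nat_lit 9) 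
(.lf (nat_lit 501818) (.g (nat_lit 4137) (.e (nat_lit 163978) (nat_lit 30) (.e (nat_lit 573489) (nat_lit 14) (.e (nat_lit 73755) (nat_lit 8) (.e (nat_lit 557096) (nat_lit 13) (.e (nat_lit 172067) (nat_lit 3) (.e (nat_lit 204817) (nat_lit 17) (.e (nat_lit 7936) (nat_lit 149) (.e (nat_lit 761898) (nat_lit 15) .nil)))))))) (.g (nat_lit 1) (.e (nat_lit 171591) (nat_lit 0) .nil) .nil))) 
(.lf (nat_lit 502330) (.g (nat_lit 1859) (.e (nat_lit 163979) (nat_lit 30) (.e (nat_lit 573482) (nat_lit 13) (.e (nat_lit 65604) (nat_lit 9) (.e (nat_lit 336028) (nat_lit 3) (.e (nat_lit 106240) (nat_lit 26) .nil))))) (.g (nat_lit 0) (.e (nat_lit 173241) (nat_lit 0) .nil) .nil)))) (.nd (nat_lit 9) 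
(.lf (nat_lit 502074) (.g (nat_lit 4234) (.e (nat_lit 163978) (nat_lit 30) (.e (nat_lit 573490) (nat_lit 15) (.e (nat_lit 81955) (nat_lit 23) (.e (nat_lit 98367) (nat_lit 27) (.e (nat_lit 434272) (nat_lit 38) (.e (nat_lit 655375) (nat_lit 3) .nil)))))) (.g (nat_lit 1) (.e (nat_lit 172720) (nat_lit 0) .nil) .nil))) 
(.lf (nat_lit 502586) (.g (nat_lit 2936) (.e (nat_lit 163979) (nat_lit 30) (.e (nat_lit 573482) (nat_lit 13) (.e (nat_lit 65619) (nat_lit 10) (.e (nat_lit 344117) (nat_lit 21) (.e (nat_lit 516169) (nat_lit 13) (.e (nat_lit 458774) (nat_lit 18) (.e (nat_lit 5546) (nat_lit 306) (.e (nat_lit 2599) (nat_lit 163) .nil)))))))) (.g (nat_lit 1) (.e (nat_lit 173523) (nat_lit 0) .nil) .nil))))) 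
(.nd (nat_lit 8) (.nd (nat_lit 9) 
(.lf (nat_lit 501946) (.g (nat_lit 2966) (.e (nat_lit 163978) (nat_lit 30) (.e (nat_lit 573489) (nat_lit 14) (.e (nat_lit 73755) (nat_lit 8) (.e (nat_lit 557103) (nat_lit 14) (.e (nat_lit 180250) (nat_lit 10) (.e (nat_lit 573475) (nat_lit 12) (.e (nat_lit 57504) (nat_lit 38) (.e (nat_lit 638995) (nat_lit 7) .nil)))))))) (.g (nat_lit 1) (.e (nat_lit 172018) (nat_lit 0) .nil) .nil))) 
(.lf (nat_lit 502458) (.g (nat_lit 3789) (.e (nat_lit 163979) (nat_lit 30) (.e (nat_lit 573482) (nat_lit 13) (.e (nat_lit 65619) (nat_lit 10) (.e (nat_lit 344117) (nat_lit 21) (.e (nat_lit 516151) (nat_lit 9) (.e (nat_lit 426023) (nat_lit 0) (.e (nat_lit 3402) (nat_lit 211) (.e (nat_lit 647181) (nat_lit 3) .nil)))))))) (.g (nat_lit 1) (.e (nat_lit 173394) (nat_lit 0) .nil) .nil)))) 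
(.nd (nat_lit 9) 
(.lf (nat_lit 502202) (.g (nat_lit 4048) (.e (nat_lit 163979) (nat_lit 30) (.e (nat_lit 573482) (nat_lit 13) (.e (nat_lit 65604) (nat_lit 9) (.e (nat_lit 336013) (nat_lit 2) (.e (nat_lit 90170) (nat_lit 13) (.e (nat_lit 172035) (nat_lit 0) (.e (nat_lit 3402) (nat_lit 211) (.e (nat_lit 647180) (nat_lit 3) .nil)))))))) (.g (nat_lit 1) (.e (nat_lit 173086) (nat_lit 0) .nil) .nil))) 
(.lf (nat_lit 502714) (.g (nat_lit 3193) (.e (nat_lit 163979) (nat_lit 30) (.e (nat_lit 573487) (nat_lit 14) (.e (nat_lit 73753) (nat_lit 8) (.e (nat_lit 557103) (nat_lit 14) (.e (nat_lit 180252) (nat_lit 10) (.e (nat_lit 573475) (nat_lit 12) (.e (nat_lit 57503) (nat_lit 38) (.e (nat_lit 638995) (nat_lit 7) .nil)))))))) (.g (nat_lit 1) (.e (nat_lit 173817) (nat_lit 0) .nil) .nil)))))) 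
(.nd (nat_lit 7) (.nd (nat_lit 8) (.nd (nat_lit 9) 
(.lf (nat_lit 501882) (.g (nat_lit 2670) (.e (nat_lit 163978) (nat_lit 30) (.e (nat_lit 573489) (nat_lit 14) (.e (nat_lit 73755) (nat_lit 8) (.e (nat_lit 557098) (nat_lit 13) (.e (nat_lit 172067) (nat_lit 3) .nil))))) (.g (nat_lit 0) (.e (nat_lit 171769) (nat_lit 0) .nil) .nil))) 
(.lf (nat_lit 502394) (.g (nat_lit 2543) (.e (nat_lit 163979) (nat_lit 30) (.e (nat_lit 573482) (nat_lit 13) (.e (nat_lit 65619) (nat_lit 10) (.e (nat_lit 344117) (nat_lit 21) (.e (nat_lit 516143) (nat_lit 9) (.e (nat_lit 426109) (nat_lit 1) (.e (nat_lit 164346) (nat_lit 240) (.e (nat_lit 2601) (nat_lit 163) .nil)))))))) (.g (nat_lit 1) (.e (nat_lit 173330) (nat_lit 0) .nil) .nil)))) 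
(.nd (nat_lit 9) 
(.lf (nat_lit 502138) (.g (nat_lit 3912) (.e (nat_lit 163978) (nat_lit 30) (.e (nat_lit 573493) (nat_lit 15) (.e (nat_lit 81956) (nat_lit 23) (.e (nat_lit 98355) (nat_lit 26) .nil)))) (.g (nat_lit 0) (.e (nat_lit 172920) (nat_lit 0) .nil) .nil))) 
(.lf (nat_lit 502650) (.g (nat_lit 2988) (.e (nat_lit 163979) (nat_lit 30) (.e (nat_lit 573485) (nat_lit 13) (.e (nat_lit 65604) (nat_lit 9) (.e (nat_lit 336028) (nat_lit 3) (.e (nat_lit 98366) (nat_lit 27) (.e (nat_lit 434271) (nat_lit 38) (.e (nat_lit 655375) (nat_lit 3) .nil))))))) (.g (nat_lit 1) (.e (nat_lit 173626) (nat_lit 0) .nil) .nil))))) (.nd (nat_lit 8) (.nd (nat_lit 9) 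
(.lf (nat_lit 502010) (.g (nat_lit 2355) (.e (nat_lit 163978) (nat_lit 30) (.e (nat_lit 573489) (nat_lit 14) (.e (nat_lit 73755) (nat_lit 8) (.e (nat_lit 557105) (nat_lit 14) (.e (nat_lit 180245) (nat_lit 5) (.e (nat_lit 532486) (nat_lit 0) (.e (nat_lit 7936) (nat_lit 149) (.e (nat_lit 761899) (nat_lit 15) .nil)))))))) (.g (nat_lit 1) (.e (nat_lit 172296) (nat_lit 0) .nil) .nil))) 
(.lf (nat_lit 502522) (.g (nat_lit 3150) (.e (nat_lit 163979) (nat_lit 30) (.e (nat_lit 573482) (nat_lit 13) (.e (nat_lit 65619) (nat_lit 10) (.e (nat_lit 344117) (nat_lit 21) (.e (nat_lit 516153) (nat_lit 9) (.e (nat_lit 426025) (nat_lit 0) (.e (nat_lit 3397) (nat_lit 211) (.e (nat_lit 647181) (nat_lit 3) .nil)))))))) (.g (nat_lit 1) (.e (nat_lit 173458) (nat_lit 0) .nil) .nil)))) 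
(.nd (nat_lit 9) 
(.lf (nat_lit 502266) (.g (nat_lit 4506) (.e (nat_lit 163979) (nat_lit 30) (.e (nat_lit 573482) (nat_lit 13) (.e (nat_lit 65604) (nat_lit 9) (.e (nat_lit 336013) (nat_lit 2) (.e (nat_lit 90170) (nat_lit 13) (.e (nat_lit 172070) (nat_lit 4) (.e (nat_lit 229665) (nat_lit 240) (.e (nat_lit 2602) (nat_lit 163) .nil)))))))) (.g (nat_lit 1) (.e (nat_lit 173154) (nat_lit 0) .nil) .nil))) 
(.lf (nat_lit 502778) (.g (nat_lit 4655) (.e (nat_lit 163979) (nat_lit 30) (.e (nat_lit 573488) (nat_lit 14) (.e (nat_lit 73753) (nat_lit 8) (.e (nat_lit 557105) (nat_lit 14) (.e (nat_lit 180252) (nat_lit 10) (.e (nat_lit 573473) (nat_lit 12) (.e (nat_lit 57503) (nat_lit 38) (.e (nat_lit 638995) (nat_lit 7) .nil)))))))) (.g (nat_lit 1) (.e (nat_lit 173903) (nat_lit 0) .nil) .nil)))))))))) 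
(.nd (nat_lit 3) (.nd (nat_lit 4) (.nd (nat_lit 5) (.nd (nat_lit 6) (.nd (nat_lit 7) 
(.nd (nat_lit 8) (.nd (nat_lit 9) 
(.lf (nat_lit 501766) (.g (nat_lit 3435) (.e (nat_lit 163978) (nat_lit 30) (.e (nat_lit 573489) (nat_lit 14) (.e (nat_lit 73754) (nat_lit 8) (.e (nat_lit 557100) (nat_lit 13) (.e (nat_lit 179968) (nat_lit 15) (.e (nat_lit 1800) (nat_lit 119) (.e (nat_lit 516120) (nat_lit 1) (.e (nat_lit 164304) (nat_lit 226) (.e (nat_lit 2612) (nat_lit 163) .nil))))))))) (.g (nat_lit 1) (.e (nat_lit 171457) (nat_lit 0) .nil) .nil))) 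
(.lf (nat_lit 502278) (.g (nat_lit 3702) (.e (nat_lit 163979) (nat_lit 30) (.e (nat_lit 573482) (nat_lit 13) (.e (nat_lit 65604) (nat_lit 9) (.e (nat_lit 336023) (nat_lit 3) (.e (nat_lit 98384) (nat_lit 32) (.e (nat_lit 475199) (nat_lit 40) (.e (nat_lit 704589) (nat_lit 3) .nil))))))) (.g (nat_lit 1) (.e (nat_lit 173166) (nat_lit 0) .nil) .nil)))) (.nd (nat_lit 9) 
(.lf (nat_lit 502022) (.g (nat_lit 3060) (.e (nat_lit 163978) (nat_lit 30) (.e (nat_lit 573489) (nat_lit 14) (.e (nat_lit 73755) (nat_lit 8) (.e (nat_lit 557105) (nat_lit 14) (.e (nat_lit 180245) (nat_lit 5) (.e (nat_lit 532503) (nat_lit 1) (.e (nat_lit 57651) (nat_lit 152) (.e (nat_lit 2606) (nat_lit 163) .nil)))))))) (.g (nat_lit 1) (.e (nat_lit 172372) (nat_lit 0) .nil) .nil))) 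
(.lf (nat_lit 502534) (.g (nat_lit 2376) (.e (nat_lit 163979) (nat_lit 30) (.e (nat_lit 573482) (nat_lit 13) (.e (nat_lit 65619) (nat_lit 10) (.e (nat_lit 344117) (nat_lit 21) (.e (nat_lit 524032) (nat_lit 9) (.e (nat_lit 426107) (nat_lit 1) (.e (nat_lit 164347) (nat_lit 240) (.e (nat_lit 2611) (nat_lit 163) .nil)))))))) (.g (nat_lit 1) (.e (nat_lit 173470) (nat_lit 0) .nil) .nil))))) 
(.nd (nat_lit 8) (.nd (nat_lit 9) 
(.lf (nat_lit 501894) (.g (nat_lit 4672) (.e (nat_lit 163978) (nat_lit 30) (.e (nat_lit 573489) (nat_lit 14) (.e (nat_lit 73755) (nat_lit 8) (.e (nat_lit 557098) (nat_lit 13) (.e (nat_lit 172067) (nat_lit 3) (.e (nat_lit 204817) (nat_lit 17) (.e (nat_lit 7936) (nat_lit 149) (.e (nat_lit 761897) (nat_lit 15) .nil)))))))) (.g (nat_lit 1) (.e (nat_lit 171786) (nat_lit 0) .nil) .nil))) 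
(.lf (nat_lit 502406) (.g (nat_lit 3971) (.e (nat_lit 163979) (nat_lit 30) (.e (nat_lit 573482) (nat_lit 13) (.e (nat_lit 65619) (nat_lit 10) (.e (nat_lit 344117) (nat_lit 21) (.e (nat_lit 516144) (nat_lit 9) (.e (nat_lit 426382) (nat_lit 15) (.e (nat_lit 2059) (nat_lit 142) (.e (nat_lit 704589) (nat_lit 3) .nil)))))))) (.g (nat_lit 1) (.e (nat_lit 173342) (nat_lit 0) .nil) .nil)))) 
(.nd (nat_lit 9) 
(.lf (nat_lit 502150) (.g (nat_lit 4839) (.e (nat_lit 163978) (nat_lit 30) (.e (nat_lit 573493) (nat_lit 15) (.e (nat_lit 81956) (nat_lit 23) (.e (nat_lit 98366) (nat_lit 27) (.e (nat_lit 434272) (nat_lit 38) (.e (nat_lit 655375) (nat_lit 3) .nil)))))) (.g (nat_lit 1) (.e (nat_lit 172933) (nat_lit 0) .nil) .nil))) 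
(.lf (nat_lit 502662) (.g (nat_lit 4176) (.e (nat_lit 163979) (nat_lit 30) (.e (nat_lit 573487) (nat_lit 14) (.e (nat_lit 73753) (nat_lit 8) (.e (nat_lit 557098) (nat_lit 13) (.e (nat_lit 172067) (nat_lit 3) (.e (nat_lit 204815) (nat_lit 17) (.e (nat_lit 2271) (nat_lit 149) (.e (nat_lit 761898) (nat_lit 15) .nil)))))))) (.g (nat_lit 1) (.e (nat_lit 173677) (nat_lit 0) .nil) .nil)))))) 
(.nd (nat_lit 7) (.nd (nat_lit 8) (.nd (nat_lit 9) 
(.lf (nat_lit 501830) (.g (nat_lit 2972) (.e (nat_lit 163978) (nat_lit 30) (.e (nat_lit 573489) (nat_lit 14) (.e (nat_lit 73755) (nat_lit 8) (.e (nat_lit 557097) (nat_lit 13) (.e (nat_lit 172066) (nat_lit 3) .nil))))) (.g (nat_lit 0) (.e (nat_lit 171621) (nat_lit 0) .nil) .nil))) 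
(.lf (nat_lit 502342) (.g (nat_lit 4041) (.e (nat_lit 163979) (nat_lit 30) (.e (nat_lit 573482) (nat_lit 13) (.e (nat_lit 65604) (nat_lit 9) (.e (nat_lit 336028) (nat_lit 3) (.e (nat_lit 98367) (nat_lit 27) (.e (nat_lit 434209) (nat_lit 18) (.e (nat_lit 5546) (nat_lit 306) (.e (nat_lit 2611) (nat_lit 163) .nil)))))))) (.g (nat_lit 1) (.e (nat_lit 173269) (nat_lit 0) .nil) .nil)))) 
(.nd (nat_lit 9) 
(.lf (nat_lit 502086) (.g (nat_lit 3364) (.e (nat_lit 163978) (nat_lit 30) (.e (nat_lit 573491) (nat_lit 15) (.e (nat_lit 81951) (nat_lit 22) (.e (nat_lit 90170) (nat_lit 13) (.e (nat_lit 172043) (nat_lit 0) .nil))))) (.g (nat_lit 0) (.e (nat_lit 172755) (nat_lit 0) .nil) .nil))) 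
(.lf (nat_lit 502598) (.g (nat_lit 2628) (.e (nat_lit 163979) (nat_lit 30) (.e (nat_lit 573482) (nat_lit 13) (.e (nat_lit 65619) (nat_lit 10) (.e (nat_lit 344117) (nat_lit 21) (.e (nat_lit 516170) (nat_lit 13) (.e (nat_lit 458804) (nat_lit 38) (.e (nat_lit 655374) (nat_lit 3) .nil))))))) (.g (nat_lit 1) (.e (nat_lit 173538) (nat_lit 0) .nil) .nil))))) (.nd (nat_lit 8) (.nd (nat_lit 9) 
(.lf (nat_lit 501958) (.g (nat_lit 3793) (.e (nat_lit 163978) (nat_lit 30) (.e (nat_lit 573489) (nat_lit 14) (.e (nat_lit 73755) (nat_lit 8) (.e (nat_lit 557104) (nat_lit 14) (.e (nat_lit 180244) (nat_lit 5) (.e (nat_lit 532484) (nat_lit 0) (.e (nat_lit 2271) (nat_lit 149) (.e (nat_lit 761898) (nat_lit 15) .nil)))))))) (.g (nat_lit 1) (.e (nat_lit 172047) (nat_lit 0) .nil) .nil))) 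
(.lf (nat_lit 502470) (.g (nat_lit 4286) (.e (nat_lit 163979) (nat_lit 30) (.e (nat_lit 573482) (nat_lit 13) (.e (nat_lit 65619) (nat_lit 10) (.e (nat_lit 344117) (nat_lit 21) (.e (nat_lit 516151) (nat_lit 9) (.e (nat_lit 426042) (nat_lit 0) (.e (nat_lit 3406) (nat_lit 212) (.e (nat_lit 655375) (nat_lit 3) .nil)))))))) (.g (nat_lit 1) (.e (nat_lit 173406) (nat_lit 0) .nil) .nil)))) 
(.nd (nat_lit 9) 
(.lf (nat_lit 502214) (.g (nat_lit 3839) (.e (nat_lit 163979) (nat_lit 30) (.e (nat_lit 573482) (nat_lit 13) (.e (nat_lit 65604) (nat_lit 9) (.e (nat_lit 336013) (nat_lit 2) (.e (nat_lit 90170) (nat_lit 13) (.e (nat_lit 172046) (nat_lit 0) (.e (nat_lit 2478) (nat_lit 157) (.e (nat_lit 5548) (nat_lit 306) (.e (nat_lit 2599) (nat_lit 163) .nil))))))))) (.g (nat_lit 1) (.e (nat_lit 173101) (nat_lit 0) .nil) .nil))) 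
(.lf (nat_lit 502726) (.g (nat_lit 3873) (.e (nat_lit 163979) (nat_lit 30) (.e (nat_lit 573487) (nat_lit 14) (.e (nat_lit 73753) (nat_lit 8) (.e (nat_lit 557105) (nat_lit 14) (.e (nat_lit 180252) (nat_lit 10) (.e (nat_lit 573473) (nat_lit 12) (.e (nat_lit 57503) (nat_lit 38) (.e (nat_lit 638996) (nat_lit 7) .nil)))))))) (.g (nat_lit 1) (.e (nat_lit 173834) (nat_lit 0) .nil) .nil))))))) 
(.nd (nat_lit 6) (.nd (nat_lit 7) (.nd (nat_lit 8) (.nd (nat_lit 9) 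
(.lf (nat_lit 501798) (.g (nat_lit 1165) (.e (nat_lit 163978) (nat_lit 30) (.e (nat_lit 573489) (nat_lit 14) (.e (nat_lit 73754) (nat_lit 8) (.e (nat_lit 557105) (nat_lit 14) .nil)))) (.g (nat_lit 0) (.e (nat_lit 171531) (nat_lit 0) .nil) .nil))) 
(.lf (nat_lit 502310) (.g (nat_lit 2263) (.e (nat_lit 163979) (nat_lit 30) (.e (nat_lit 573482) (nat_lit 13) (.e (nat_lit 65604) (nat_lit 9) (.e (nat_lit 336028) (nat_lit 3) (.e (nat_lit 98359) (nat_lit 26) (.e (nat_lit 426104) (nat_lit 1) (.e (nat_lit 164348) (nat_lit 240) (.e (nat_lit 2601) (nat_lit 163) .nil)))))))) (.g (nat_lit 1) (.e (nat_lit 173213) (nat_lit 0) .nil) .nil)))) 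
(.nd (nat_lit 9) 
(.lf (nat_lit 502054) (.g (nat_lit 2677) (.e (nat_lit 163978) (nat_lit 30) (.e (nat_lit 573489) (nat_lit 14) (.e (nat_lit 73755) (nat_lit 8) (.e (nat_lit 557105) (nat_lit 14) (.e (nat_lit 180252) (nat_lit 10) (.e (nat_lit 573475) (nat_lit 12) (.e (nat_lit 57500) (nat_lit 37) (.e (nat_lit 638720) (nat_lit 7) .nil)))))))) (.g (nat_lit 1) (.e (nat_lit 172693) (nat_lit 0) .nil) .nil))) 
(.lf (nat_lit 502566) (.g (nat_lit 2935) (.e (nat_lit 163979) (nat_lit 30) (.e (nat_lit 573482) (nat_lit 13) (.e (nat_lit 65619) (nat_lit 10) (.e (nat_lit 344117) (nat_lit 21) (.e (nat_lit 516160) (nat_lit 10) (.e (nat_lit 434209) (nat_lit 18) (.e (nat_lit 5548) (nat_lit 306) (.e (nat_lit 2607) (nat_lit 163) .nil)))))))) (.g (nat_lit 1) (.e (nat_lit 173503) (nat_lit 0) .nil) .nil))))) 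
(.nd (nat_lit 8) (.nd (nat_lit 9) 
(.lf (nat_lit 501926) (.g (nat_lit 3064) (.e (nat_lit 163978) (nat_lit 30) (.e (nat_lit 573489) (nat_lit 14) (.e (nat_lit 73755) (nat_lit 8) (.e (nat_lit 557103) (nat_lit 14) (.e (nat_lit 180244) (nat_lit 5) (.e (nat_lit 532485) (nat_lit 0) (.e (nat_lit 2271) (nat_lit 149) (.e (nat_lit 761898) (nat_lit 15) .nil)))))))) (.g (nat_lit 1) (.e (nat_lit 171900) (nat_lit 0) .nil) .nil))) 
(.lf (nat_lit 502438) (.g (nat_lit 3574) (.e (nat_lit 163979) (nat_lit 30) (.e (nat_lit 573482) (nat_lit 13) (.e (nat_lit 65619) (nat_lit 10) (.e (nat_lit 344117) (nat_lit 21) (.e (nat_lit 516145) (nat_lit 9) (.e (nat_lit 426444) (nat_lit 19) (.e (nat_lit 114432) (nat_lit 3) .nil))))))) (.g (nat_lit 1) (.e (nat_lit 173374) (nat_lit 0) .nil) .nil)))) (.nd (nat_lit 9) 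
(.lf (nat_lit 502182) (.g (nat_lit 2504) (.e (nat_lit 163979) (nat_lit 30) (.e (nat_lit 573482) (nat_lit 13) (.e (nat_lit 65598) (nat_lit 9) (.e (nat_lit 336013) (nat_lit 2) (.e (nat_lit 90170) (nat_lit 13) .nil))))) (.g (nat_lit 0) (.e (nat_lit 173064) (nat_lit 0) .nil) .nil))) 
(.lf (nat_lit 502694) (.g (nat_lit 2869) (.e (nat_lit 163979) (nat_lit 30) (.e (nat_lit 573487) (nat_lit 14) (.e (nat_lit 73753) (nat_lit 8) (.e (nat_lit 557103) (nat_lit 14) (.e (nat_lit 180250) (nat_lit 10) (.e (nat_lit 573474) (nat_lit 12) (.e (nat_lit 57504) (nat_lit 38) (.e (nat_lit 638996) (nat_lit 7) .nil)))))))) (.g (nat_lit 1) (.e (nat_lit 173794) (nat_lit 0) .nil) .nil)))))) 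
(.nd (nat_lit 7) (.nd (nat_lit 8) (.nd (nat_lit 9) 
(.lf (nat_lit 501862) (.g (nat_lit 3589) (.e (nat_lit 163978) (nat_lit 30) (.e (nat_lit 573489) (nat_lit 14) (.e (nat_lit 73755) (nat_lit 8) (.e (nat_lit 557098) (nat_lit 13) (.e (nat_lit 172065) (nat_lit 3) (.e (nat_lit 204821) (nat_lit 17) (.e (nat_lit 2270) (nat_lit 149) (.e (nat_lit 761897) (nat_lit 15) .nil)))))))) (.g (nat_lit 1) (.e (nat_lit 171714) (nat_lit 0) .nil) .nil))) 
(.lf (nat_lit 502374) (.g (nat_lit 3317) (.e (nat_lit 163979) (nat_lit 30) (.e (nat_lit 573482) (nat_lit 13) (.e (nat_lit 65616) (nat_lit 10) (.e (nat_lit 344116) (nat_lit 21) (.e (nat_lit 516179) (nat_lit 15) (.e (nat_lit 475199) (nat_lit 40) (.e (nat_lit 704589) (nat_lit 3) .nil))))))) (.g (nat_lit 1) (.e (nat_lit 173307) (nat_lit 0) .nil) .nil)))) (.nd (nat_lit 9) 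
(.lf (nat_lit 502118) (.g (nat_lit 6328) (.e (nat_lit 163978) (nat_lit 30) (.e (nat_lit 573493) (nat_lit 15) (.e (nat_lit 81953) (nat_lit 22) (.e (nat_lit 90171) (nat_lit 14) .nil)))) (.g (nat_lit 0) (.e (nat_lit 172887) (nat_lit 0) .nil) .nil))) 
(.lf (nat_lit 502630) (.g (nat_lit 3908) (.e (nat_lit 163979) (nat_lit 30) (.e (nat_lit 573482) (nat_lit 13) (.e (nat_lit 65619) (nat_lit 10) (.e (nat_lit 344119) (nat_lit 21) (.e (nat_lit 516179) (nat_lit 15) (.e (nat_lit 475199) (nat_lit 40) (.e (nat_lit 704589) (nat_lit 3) .nil))))))) (.g (nat_lit 1) (.e (nat_lit 173570) (nat_lit 0) .nil) .nil))))) (.nd (nat_lit 8) (.nd (nat_lit 9) 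
(.lf (nat_lit 501990) (.g (nat_lit 2602) (.e (nat_lit 163978) (nat_lit 30) (.e (nat_lit 573489) (nat_lit 14) (.e (nat_lit 73755) (nat_lit 8) (.e (nat_lit 557105) (nat_lit 14) (.e (nat_lit 180243) (nat_lit 5) (.e (nat_lit 532484) (nat_lit 0) (.e (nat_lit 7936) (nat_lit 149) (.e (nat_lit 761898) (nat_lit 15) .nil)))))))) (.g (nat_lit 1) (.e (nat_lit 172223) (nat_lit 0) .nil) .nil))) 
(.lf (nat_lit 502502) (.g (nat_lit 5068) (.e (nat_lit 163979) (nat_lit 30) (.e (nat_lit 573482) (nat_lit 13) (.e (nat_lit 65619) (nat_lit 10) (.e (nat_lit 344117) (nat_lit 21) (.e (nat_lit 516151) (nat_lit 9) (.e (nat_lit 426412) (nat_lit 15) (.e (nat_lit 2056) (nat_lit 142) (.e (nat_lit 704589) (nat_lit 3) .nil)))))))) (.g (nat_lit 1) (.e (nat_lit 173438) (nat_lit 0) .nil) .nil)))) 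
(.nd (nat_lit 9) 
(.lf (nat_lit 502246) (.g (nat_lit 2354) (.e (nat_lit 163979) (nat_lit 30) (.e (nat_lit 573482) (nat_lit 13) (.e (nat_lit 65604) (nat_lit 9) (.e (nat_lit 336013) (nat_lit 2) (.e (nat_lit 90170) (nat_lit 13) (.e (nat_lit 172061) (nat_lit 1) (.e (nat_lit 164347) (nat_lit 240) (.e (nat_lit 2598) (nat_lit 163) .nil)))))))) (.g (nat_lit 1) (.e (nat_lit 173134) (nat_lit 0) .nil) .nil))) 
(.lf (nat_lit 502758) (.g (nat_lit 3563) (.e (nat_lit 163979) (nat_lit 30) (.e (nat_lit 573487) (nat_lit 14) (.e (nat_lit 73755) (nat_lit 8) (.e (nat_lit 557105) (nat_lit 14) (.e (nat_lit 180252) (nat_lit 10) (.e (nat_lit 573473) (nat_lit 12) (.e (nat_lit 57503) (nat_lit 38) (.e (nat_lit 638995) (nat_lit 7) .nil)))))))) (.g (nat_lit 1) (.e (nat_lit 173872) (nat_lit 0) .nil) .nil)))))))) 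
(.nd (nat_lit 5) (.nd (nat_lit 6) (.nd (nat_lit 7) (.nd (nat_lit 8) (.nd (nat_lit 9) 
(.lf (nat_lit 501782) (.g (nat_lit 2851) (.e (nat_lit 163978) (nat_lit 30) (.e (nat_lit 573489) (nat_lit 14) (.e (nat_lit 73754) (nat_lit 8) (.e (nat_lit 557101) (nat_lit 13) (.e (nat_lit 172066) (nat_lit 3) (.e (nat_lit 204817) (nat_lit 17) (.e (nat_lit 2272) (nat_lit 149) (.e (nat_lit 761899) (nat_lit 15) .nil)))))))) (.g (nat_lit 1) (.e (nat_lit 171486) (nat_lit 0) .nil) .nil))) 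
(.lf (nat_lit 502294) (.g (nat_lit 3519) (.e (nat_lit 163979) (nat_lit 30) (.e (nat_lit 573482) (nat_lit 13) (.e (nat_lit 65604) (nat_lit 9) (.e (nat_lit 336028) (nat_lit 3) (.e (nat_lit 98359) (nat_lit 26) (.e (nat_lit 426022) (nat_lit 0) (.e (nat_lit 3399) (nat_lit 211) (.e (nat_lit 647180) (nat_lit 3) .nil)))))))) (.g (nat_lit 1) (.e (nat_lit 173184) (nat_lit 0) .nil) .nil)))) (.nd (nat_lit 9) 
(.lf (nat_lit 502038) (.g (nat_lit 3179) (.e (nat_lit 163978) (nat_lit 30) (.e (nat_lit 573489) (nat_lit 14) (.e (nat_lit 73755) (nat_lit 8) (.e (nat_lit 557105) (nat_lit 14) (.e (nat_lit 180251) (nat_lit 10) (.e (nat_lit 573477) (nat_lit 12) (.e (nat_lit 57502) (nat_lit 38) (.e (nat_lit 638994) (nat_lit 7) .nil)))))))) (.g (nat_lit 1) (.e (nat_lit 172441) (nat_lit 0) .nil) .nil))) 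
(.lf (nat_lit 502550) (.g (nat_lit 2620) (.e (nat_lit 163979) (nat_lit 30) (.e (nat_lit 573482) (nat_lit 13) (.e (nat_lit 65619) (nat_lit 10) (.e (nat_lit 344117) (nat_lit 21) (.e (nat_lit 516159) (nat_lit 10) (.e (nat_lit 434270) (nat_lit 38) (.e (nat_lit 655374) (nat_lit 3) .nil))))))) (.g (nat_lit 1) (.e (nat_lit 173486) (nat_lit 0) .nil) .nil))))) (.nd (nat_lit 8) (.nd (nat_lit 9) 
(.lf (nat_lit 501910) (.g (nat_lit 3442) (.e (nat_lit 163978) (nat_lit 30) (.e (nat_lit 573489) (nat_lit 14) (.e (nat_lit 73755) (nat_lit 8) (.e (nat_lit 557100) (nat_lit 13) (.e (nat_lit 172065) (nat_lit 3) (.e (nat_lit 204817) (nat_lit 17) (.e (nat_lit 7936) (nat_lit 149) (.e (nat_lit 761899) (nat_lit 15) .nil)))))))) (.g (nat_lit 1) (.e (nat_lit 171843) (nat_lit 0) .nil) .nil))) 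
(.lf (nat_lit 502422) (.g (nat_lit 4351) (.e (nat_lit 163979) (nat_lit 30) (.e (nat_lit 573482) (nat_lit 13) (.e (nat_lit 65619) (nat_lit 10) (.e (nat_lit 344117) (nat_lit 21) (.e (nat_lit 516145) (nat_lit 9) (.e (nat_lit 426364) (nat_lit 15) (.e (nat_lit 2056) (nat_lit 142) (.e (nat_lit 704589) (nat_lit 3) .nil)))))))) (.g (nat_lit 1) (.e (nat_lit 173358) (nat_lit 0) .nil) .nil)))) 
(.nd (nat_lit 9) 
(.lf (nat_lit 502166) (.g (nat_lit 5171) (.e (nat_lit 163979) (nat_lit 30) (.e (nat_lit 573480) (nat_lit 13) (.e (nat_lit 65610) (nat_lit 10) (.e (nat_lit 344117) (nat_lit 21) (.e (nat_lit 516179) (nat_lit 15) (.e (nat_lit 475199) (nat_lit 40) (.e (nat_lit 704589) (nat_lit 3) .nil))))))) (.g (nat_lit 1) (.e (nat_lit 173034) (nat_lit 0) .nil) .nil))) 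
(.lf (nat_lit 502678) (.g (nat_lit 3148) (.e (nat_lit 163979) (nat_lit 30) (.e (nat_lit 573487) (nat_lit 14) (.e (nat_lit 73753) (nat_lit 8) (.e (nat_lit 557101) (nat_lit 13) (.e (nat_lit 172067) (nat_lit 3) (.e (nat_lit 204815) (nat_lit 17) (.e (nat_lit 2271) (nat_lit 149) (.e (nat_lit 761898) (nat_lit 15) .nil)))))))) (.g (nat_lit 1) (.e (nat_lit 173734) (nat_lit 0) .nil) .nil)))))) 
(.nd (nat_lit 7) (.nd (nat_lit 8) (.nd (nat_lit 9) 
(.lf (nat_lit 501846) (.g (nat_lit 4328) (.e (nat_lit 163978) (nat_lit 30) (.e (nat_lit 573489) (nat_lit 14) (.e (nat_lit 73755) (nat_lit 8) (.e (nat_lit 557097) (nat_lit 13) (.e (nat_lit 172067) (nat_lit 3) (.e (nat_lit 204817) (nat_lit 17) (.e (nat_lit 7936) (nat_lit 149) (.e (nat_lit 761898) (nat_lit 15) .nil)))))))) (.g (nat_lit 1) (.e (nat_lit 171645) (nat_lit 0) .nil) .nil))) 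
(.lf (nat_lit 502358) (.g (nat_lit 4721) (.e (nat_lit 163979) (nat_lit 30) (.e (nat_lit 573482) (nat_lit 13) (.e (nat_lit 65604) (nat_lit 9) (.e (nat_lit 336028) (nat_lit 3) (.e (nat_lit 98386) (nat_lit 32) (.e (nat_lit 475199) (nat_lit 40) (.e (nat_lit 704589) (nat_lit 3) .nil))))))) (.g (nat_lit 1) (.e (nat_lit 173290) (nat_lit 0) .nil) .nil)))) (.nd (nat_lit 9) 
(.lf (nat_lit 502102) (.g (nat_lit 3441) (.e (nat_lit 163978) (nat_lit 30) (.e (nat_lit 573492) (nat_lit 15) (.e (nat_lit 81953) (nat_lit 22) (.e (nat_lit 90170) (nat_lit 13) .nil)))) (.g (nat_lit 0) (.e (nat_lit 172778) (nat_lit 0) .nil) .nil))) 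
(.lf (nat_lit 502614) (.g (nat_lit 3024) (.e (nat_lit 163979) (nat_lit 30) (.e (nat_lit 573482) (nat_lit 13) (.e (nat_lit 65619) (nat_lit 10) (.e (nat_lit 344117) (nat_lit 21) (.e (nat_lit 516180) (nat_lit 15) (.e (nat_lit 475195) (nat_lit 40) (.e (nat_lit 704589) (nat_lit 3) .nil))))))) (.g (nat_lit 1) (.e (nat_lit 173554) (nat_lit 0) .nil) .nil))))) (.nd (nat_lit 8) (.nd (nat_lit 9) 
(.lf (nat_lit 501974) (.g (nat_lit 4298) (.e (nat_lit 163978) (nat_lit 30) (.e (nat_lit 573489) (nat_lit 14) (.e (nat_lit 73755) (nat_lit 8) (.e (nat_lit 557104) (nat_lit 14) (.e (nat_lit 180244) (nat_lit 5) (.e (nat_lit 532503) (nat_lit 1) (.e (nat_lit 57657) (nat_lit 152) (.e (nat_lit 2606) (nat_lit 163) .nil)))))))) (.g (nat_lit 1) (.e (nat_lit 172128) (nat_lit 0) .nil) .nil))) 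
(.lf (nat_lit 502486) (.g (nat_lit 4344) (.e (nat_lit 163979) (nat_lit 30) (.e (nat_lit 573482) (nat_lit 13) (.e (nat_lit 65619) (nat_lit 10) (.e (nat_lit 344117) (nat_lit 21) (.e (nat_lit 516151) (nat_lit 9) (.e (nat_lit 426097) (nat_lit 1) (.e (nat_lit 164348) (nat_lit 240) (.e (nat_lit 2601) (nat_lit 163) .nil)))))))) (.g (nat_lit 1) (.e (nat_lit 173422) (nat_lit 0) .nil) .nil)))) 
(.nd (nat_lit 9) 
(.lf (nat_lit 502230) (.g (nat_lit 4286) (.e (nat_lit 163979) (nat_lit 30) (.e (nat_lit 573482) (nat_lit 13) (.e (nat_lit 65604) (nat_lit 9) (.e (nat_lit 336013) (nat_lit 2) (.e (nat_lit 90170) (nat_lit 13) (.e (nat_lit 172059) (nat_lit 1) (.e (nat_lit 164345) (nat_lit 240) (.e (nat_lit 2599) (nat_lit 163) .nil)))))))) (.g (nat_lit 1) (.e (nat_lit 173118) (nat_lit 0) .nil) .nil))) 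
(.lf (nat_lit 502742) (.g (nat_lit 2954) (.e (nat_lit 163979) (nat_lit 30) (.e (nat_lit 573487) (nat_lit 14) (.e (nat_lit 73754) (nat_lit 8) (.e (nat_lit 557105) (nat_lit 14) (.e (nat_lit 180251) (nat_lit 10) (.e (nat_lit 573477) (nat_lit 12) (.e (nat_lit 57502) (nat_lit 38) (.e (nat_lit 638995) (nat_lit 7) .nil)))))))) (.g (nat_lit 1) (.e (nat_lit 173852) (nat_lit 0) .nil) .nil))))))) 
(.nd (nat_lit 6) (.nd (nat_lit 7) (.nd (nat_lit 8) (.nd (nat_lit 9) 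
(.lf (nat_lit 501814) (.g (nat_lit 3024) (.e (nat_lit 163978) (nat_lit 30) (.e (nat_lit 573489) (nat_lit 14) (.e (nat_lit 73755) (nat_lit 8) (.e (nat_lit 557096) (nat_lit 13) (.e (nat_lit 172067) (nat_lit 3) (.e (nat_lit 204815) (nat_lit 17) (.e (nat_lit 2271) (nat_lit 149) (.e (nat_lit 761897) (nat_lit 15) .nil)))))))) (.g (nat_lit 1) (.e (nat_lit 171586) (nat_lit 0) .nil) .nil))) 
(.lf (nat_lit 502326) (.g (nat_lit 2447) (.e (nat_lit 163979) (nat_lit 30) (.e (nat_lit 573482) (nat_lit 13) (.e (nat_lit 65604) (nat_lit 9) (.e (nat_lit 336028) (nat_lit 3) (.e (nat_lit 98364) (nat_lit 26) .nil))))) (.g (nat_lit 0) (.e (nat_lit 173237) (nat_lit 0) .nil) .nil)))) (.nd (nat_lit 9) 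
(.lf (nat_lit 502070) (.g (nat_lit 3081) (.e (nat_lit 163978) (nat_lit 30) (.e (nat_lit 573490) (nat_lit 15) (.e (nat_lit 81953) (nat_lit 22) (.e (nat_lit 90170) (nat_lit 13) (.e (nat_lit 172052) (nat_lit 0) .nil))))) (.g (nat_lit 0) (.e (nat_lit 172713) (nat_lit 0) .nil) .nil))) 
(.lf (nat_lit 502582) (.g (nat_lit 2554) (.e (nat_lit 163979) (nat_lit 30) (.e (nat_lit 573482) (nat_lit 13) (.e (nat_lit 65619) (nat_lit 10) (.e (nat_lit 344117) (nat_lit 21) (.e (nat_lit 516168) (nat_lit 13) .nil))))) (.g (nat_lit 0) (.e (nat_lit 173519) (nat_lit 0) .nil) .nil))))) (.nd (nat_lit 8) (.nd (nat_lit 9) 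
(.lf (nat_lit 501942) (.g (nat_lit 3547) (.e (nat_lit 163978) (nat_lit 30) (.e (nat_lit 573489) (nat_lit 14) (.e (nat_lit 73755) (nat_lit 8) (.e (nat_lit 557103) (nat_lit 14) (.e (nat_lit 180244) (nat_lit 5) (.e (nat_lit 532504) (nat_lit 1) (.e (nat_lit 57662) (nat_lit 152) (.e (nat_lit 2606) (nat_lit 163) .nil)))))))) (.g (nat_lit 1) (.e (nat_lit 172002) (nat_lit 0) .nil) .nil))) 
(.lf (nat_lit 502454) (.g (nat_lit 2754) (.e (nat_lit 163979) (nat_lit 30) (.e (nat_lit 573482) (nat_lit 13) (.e (nat_lit 65619) (nat_lit 10) (.e (nat_lit 344117) (nat_lit 21) (.e (nat_lit 516151) (nat_lit 9) (.e (nat_lit 426003) (nat_lit 0) (.e (nat_lit 3409) (nat_lit 212) (.e (nat_lit 655373) (nat_lit 3) .nil)))))))) (.g (nat_lit 1) (.e (nat_lit 173390) (nat_lit 0) .nil) .nil)))) 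
(.nd (nat_lit 9) 
(.lf (nat_lit 502198) (.g (nat_lit 3517) (.e (nat_lit 163979) (nat_lit 30) (.e (nat_lit 573482) (nat_lit 13) (.e (nat_lit 65604) (nat_lit 9) (.e (nat_lit 336013) (nat_lit 2) (.e (nat_lit 90170) (nat_lit 13) (.e (nat_lit 172033) (nat_lit 0) (.e (nat_lit 3401) (nat_lit 211) (.e (nat_lit 647181) (nat_lit 3) .nil)))))))) (.g (nat_lit 1) (.e (nat_lit 173082) (nat_lit 0) .nil) .nil))) 
(.lf (nat_lit 502710) (.g (nat_lit 2878) (.e (nat_lit 163979) (nat_lit 30) (.e (nat_lit 573487) (nat_lit 14) (.e (nat_lit 73753) (nat_lit 8) (.e (nat_lit 557103) (nat_lit 14) (.e (nat_lit 180250) (nat_lit 10) (.e (nat_lit 573478) (nat_lit 12) (.e (nat_lit 57502) (nat_lit 38) (.e (nat_lit 638996) (nat_lit 7) .nil)))))))) (.g (nat_lit 1) (.e (nat_lit 173813) (nat_lit 0) .nil) .nil)))))) 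
(.nd (nat_lit 7) (.nd (nat_lit 8) (.nd (nat_lit 9) 
(.lf (nat_lit 501878) (.g (nat_lit 3399) (.e (nat_lit 163978) (nat_lit 30) (.e (nat_lit 573489) (nat_lit 14) (.e (nat_lit 73755) (nat_lit 8) (.e (nat_lit 557098) (nat_lit 13) (.e (nat_lit 172066) (nat_lit 3) (.e (nat_lit 204822) (nat_lit 17) (.e (nat_lit 2270) (nat_lit 149) (.e (nat_lit 761898) (nat_lit 15) .nil)))))))) (.g (nat_lit 1) (.e (nat_lit 171748) (nat_lit 0) .nil) .nil))) 
(.lf (nat_lit 502390) (.g (nat_lit 3464) (.e (nat_lit 163979) (nat_lit 30) (.e (nat_lit 573482) (nat_lit 13) (.e (nat_lit 65619) (nat_lit 10) (.e (nat_lit 344117) (nat_lit 21) (.e (nat_lit 516143) (nat_lit 9) (.e (nat_lit 426025) (nat_lit 0) (.e (nat_lit 3399) (nat_lit 211) (.e (nat_lit 647180) (nat_lit 3) .nil)))))))) (.g (nat_lit 1) (.e (nat_lit 173326) (nat_lit 0) .nil) .nil)))) 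
(.nd (nat_lit 9) 
(.lf (nat_lit 502134) (.g (nat_lit 4955) (.e (nat_lit 163978) (nat_lit 30) (.e (nat_lit 573493) (nat_lit 15) (.e (nat_lit 81954) (nat_lit 23) (.e (nat_lit 98367) (nat_lit 27) (.e (nat_lit 434272) (nat_lit 38) (.e (nat_lit 655375) (nat_lit 3) .nil)))))) (.g (nat_lit 1) (.e (nat_lit 172905) (nat_lit 0) .nil) .nil))) 
(.lf (nat_lit 502646) (.g (nat_lit 4033) (.e (nat_lit 163979) (nat_lit 30) (.e (nat_lit 573484) (nat_lit 13) (.e (nat_lit 65610) (nat_lit 10) (.e (nat_lit 344117) (nat_lit 21) (.e (nat_lit 516160) (nat_lit 10) (.e (nat_lit 434272) (nat_lit 38) (.e (nat_lit 655375) (nat_lit 3) .nil))))))) (.g (nat_lit 1) (.e (nat_lit 173622) (nat_lit 0) .nil) .nil))))) (.nd (nat_lit 8) (.nd (nat_lit 9) 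
(.lf (nat_lit 502006) (.g (nat_lit 4119) (.e (nat_lit 163978) (nat_lit 30) (.e (nat_lit 573489) (nat_lit 14) (.e (nat_lit 73755) (nat_lit 8) (.e (nat_lit 557105) (nat_lit 14) (.e (nat_lit 180244) (nat_lit 5) (.e (nat_lit 532504) (nat_lit 1) (.e (nat_lit 57663) (nat_lit 152) (.e (nat_lit 2612) (nat_lit 163) .nil)))))))) (.g (nat_lit 1) (.e (nat_lit 172285) (nat_lit 0) .nil) .nil))) 
(.lf (nat_lit 502518) (.g (nat_lit 2646) (.e (nat_lit 163979) (nat_lit 30) (.e (nat_lit 573482) (nat_lit 13) (.e (nat_lit 65619) (nat_lit 10) (.e (nat_lit 344117) (nat_lit 21) (.e (nat_lit 516152) (nat_lit 9) (.e (nat_lit 426414) (nat_lit 15) (.e (nat_lit 2058) (nat_lit 142) (.e (nat_lit 704589) (nat_lit 3) .nil)))))))) (.g (nat_lit 1) (.e (nat_lit 173454) (nat_lit 0) .nil) .nil)))) 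
(.nd (nat_lit 9) 
(.lf (nat_lit 502262) (.g (nat_lit 4209) (.e (nat_lit 163979) (nat_lit 30) (.e (nat_lit 573482) (nat_lit 13) (.e (nat_lit 65604) (nat_lit 9) (.e (nat_lit 336013) (nat_lit 2) (.e (nat_lit 90170) (nat_lit 13) (.e (nat_lit 172070) (nat_lit 4) (.e (nat_lit 229663) (nat_lit 240) (.e (nat_lit 2598) (nat_lit 163) .nil)))))))) (.g (nat_lit 1) (.e (nat_lit 173150) (nat_lit 0) .nil) .nil))) 
(.lf (nat_lit 502774) (.g (nat_lit 5645) (.e (nat_lit 163979) (nat_lit 30) (.e (nat_lit 573488) (nat_lit 14) (.e (nat_lit 73753) (nat_lit 8) (.e (nat_lit 557105) (nat_lit 14) (.e (nat_lit 180251) (nat_lit 10) (.e (nat_lit 573475) (nat_lit 12) (.e (nat_lit 57503) (nat_lit 38) (.e (nat_lit 638995) (nat_lit 7) .nil)))))))) (.g (nat_lit 1) (.e (nat_lit 173899) (nat_lit 0) .nil) .nil))))))))) 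
(.nd (nat_lit 4) (.nd (nat_lit 5) (.nd (nat_lit 6) (.nd (nat_lit 7) (.nd (nat_lit 8) 
(.nd (nat_lit 9) 
(.lf (nat_lit 501774) (.g (nat_lit 2505) (.e (nat_lit 163978) (nat_lit 30) (.e (nat_lit 573489) (nat_lit 14) (.e (nat_lit 73754) (nat_lit 8) (.e (nat_lit 557101) (nat_lit 13) (.e (nat_lit 172065) (nat_lit 3) (.e (nat_lit 204821) (nat_lit 17) (.e (nat_lit 2264) (nat_lit 149) (.e (nat_lit 761899) (nat_lit 15) .nil)))))))) (.g (nat_lit 1) (.e (nat_lit 171474) (nat_lit 0) .nil) .nil))) 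
(.lf (nat_lit 502286) (.g (nat_lit 3449) (.e (nat_lit 163979) (nat_lit 30) (.e (nat_lit 573482) (nat_lit 13) (.e (nat_lit 65604) (nat_lit 9) (.e (nat_lit 336028) (nat_lit 3) (.e (nat_lit 98358) (nat_lit 26) (.e (nat_lit 426444) (nat_lit 19) (.e (nat_lit 114432) (nat_lit 3) .nil))))))) (.g (nat_lit 1) (.e (nat_lit 173176) (nat_lit 0) .nil) .nil)))) (.nd (nat_lit 9) 
(.lf (nat_lit 502030) (.g (nat_lit 3748) (.e (nat_lit 163978) (nat_lit 30) (.e (nat_lit 573489) (nat_lit 14) (.e (nat_lit 73755) (nat_lit 8) (.e (nat_lit 557105) (nat_lit 14) (.e (nat_lit 180250) (nat_lit 10) (.e (nat_lit 573475) (nat_lit 12) (.e (nat_lit 57503) (nat_lit 38) (.e (nat_lit 638996) (nat_lit 7) .nil)))))))) (.g (nat_lit 1) (.e (nat_lit 172433) (nat_lit 0) .nil) .nil))) 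
(.lf (nat_lit 502542) (.g (nat_lit 2334) (.e (nat_lit 163979) (nat_lit 30) (.e (nat_lit 573482) (nat_lit 13) (.e (nat_lit 65619) (nat_lit 10) (.e (nat_lit 344117) (nat_lit 21) (.e (nat_lit 516159) (nat_lit 10) (.e (nat_lit 434209) (nat_lit 18) (.e (nat_lit 5547) (nat_lit 306) (.e (nat_lit 2598) (nat_lit 163) .nil)))))))) (.g (nat_lit 1) (.e (nat_lit 173478) (nat_lit 0) .nil) .nil))))) 
(.nd (nat_lit 8) (.nd (nat_lit 9) 
(.lf (nat_lit 501902) (.g (nat_lit 5551) (.e (nat_lit 163978) (nat_lit 30) (.e (nat_lit 573489) (nat_lit 14) (.e (nat_lit 73755) (nat_lit 8) (.e (nat_lit 557098) (nat_lit 13) (.e (nat_lit 172132) (nat_lit 15) (.e (nat_lit 1796) (nat_lit 119) (.e (nat_lit 516120) (nat_lit 1) (.e (nat_lit 164304) (nat_lit 226) (.e (nat_lit 2612) (nat_lit 163) .nil))))))))) (.g (nat_lit 1) (.e (nat_lit 171819) (nat_lit 0) .nil) .nil))) 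
(.lf (nat_lit 502414) (.g (nat_lit 3275) (.e (nat_lit 163979) (nat_lit 30) (.e (nat_lit 573482) (nat_lit 13) (.e (nat_lit 65619) (nat_lit 10) (.e (nat_lit 344117) (nat_lit 21) (.e (nat_lit 516144) (nat_lit 9) (.e (nat_lit 426442) (nat_lit 19) (.e (nat_lit 114432) (nat_lit 3) .nil))))))) (.g (nat_lit 1) (.e (nat_lit 173350) (nat_lit 0) .nil) .nil)))) (.nd (nat_lit 9) 
(.lf (nat_lit 502158) (.g (nat_lit 5276) (.e (nat_lit 163978) (nat_lit 30) (.e (nat_lit 573493) (nat_lit 15) (.e (nat_lit 81956) (nat_lit 23) (.e (nat_lit 98386) (nat_lit 32) .nil)))) (.g (nat_lit 0) (.e (nat_lit 172946) (nat_lit 0) .nil) .nil))) 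
(.lf (nat_lit 502670) (.g (nat_lit 3189) (.e (nat_lit 163979) (nat_lit 30) (.e (nat_lit 573487) (nat_lit 14) (.e (nat_lit 73753) (nat_lit 8) (.e (nat_lit 557100) (nat_lit 13) (.e (nat_lit 172065) (nat_lit 3) (.e (nat_lit 204821) (nat_lit 17) (.e (nat_lit 7936) (nat_lit 149) (.e (nat_lit 761898) (nat_lit 15) .nil)))))))) (.g (nat_lit 1) (.e (nat_lit 173703) (nat_lit 0) .nil) .nil)))))) 
(.nd (nat_lit 7) (.nd (nat_lit 8) (.nd (nat_lit 9) 
(.lf (nat_lit 501838) (.g (nat_lit 3076) (.e (nat_lit 163978) (nat_lit 30) (.e (nat_lit 573489) (nat_lit 14) (.e (nat_lit 73755) (nat_lit 8) (.e (nat_lit 557097) (nat_lit 13) (.e (nat_lit 172066) (nat_lit 3) (.e (nat_lit 204822) (nat_lit 17) (.e (nat_lit 2270) (nat_lit 149) (.e (nat_lit 761899) (nat_lit 15) .nil)))))))) (.g (nat_lit 1) (.e (nat_lit 171629) (nat_lit 0) .nil) .nil))) 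
(.lf (nat_lit 502350) (.g (nat_lit 2447) (.e (nat_lit 163979) (nat_lit 30) (.e (nat_lit 573482) (nat_lit 13) (.e (nat_lit 65604) (nat_lit 9) (.e (nat_lit 336028) (nat_lit 3) (.e (nat_lit 98377) (nat_lit 30) .nil))))) (.g (nat_lit 0) (.e (nat_lit 173282) (nat_lit 0) .nil) .nil)))) (.nd (nat_lit 9) 
(.lf (nat_lit 502094) (.g (nat_lit 4390) (.e (nat_lit 163978) (nat_lit 30) (.e (nat_lit 573491) (nat_lit 15) (.e (nat_lit 81954) (nat_lit 23) (.e (nat_lit 98367) (nat_lit 27) (.e (nat_lit 434272) (nat_lit 38) (.e (nat_lit 655375) (nat_lit 3) .nil)))))) (.g (nat_lit 1) (.e (nat_lit 172766) (nat_lit 0) .nil) .nil))) 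
(.lf (nat_lit 502606) (.g (nat_lit 2273) (.e (nat_lit 163979) (nat_lit 30) (.e (nat_lit 573482) (nat_lit 13) (.e (nat_lit 65619) (nat_lit 10) (.e (nat_lit 344117) (nat_lit 21) (.e (nat_lit 516172) (nat_lit 13) .nil))))) (.g (nat_lit 0) (.e (nat_lit 173546) (nat_lit 0) .nil) .nil))))) (.nd (nat_lit 8) (.nd (nat_lit 9) 
(.lf (nat_lit 501966) (.g (nat_lit 3895) (.e (nat_lit 163978) (nat_lit 30) (.e (nat_lit 573489) (nat_lit 14) (.e (nat_lit 73755) (nat_lit 8) (.e (nat_lit 557104) (nat_lit 14) (.e (nat_lit 180244) (nat_lit 5) (.e (nat_lit 532499) (nat_lit 1) (.e (nat_lit 57659) (nat_lit 152) (.e (nat_lit 2606) (nat_lit 163) .nil)))))))) (.g (nat_lit 1) (.e (nat_lit 172069) (nat_lit 0) .nil) .nil))) 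
(.lf (nat_lit 502478) (.g (nat_lit 2329) (.e (nat_lit 163979) (nat_lit 30) (.e (nat_lit 573482) (nat_lit 13) (.e (nat_lit 65619) (nat_lit 10) (.e (nat_lit 344117) (nat_lit 21) (.e (nat_lit 516151) (nat_lit 9) (.e (nat_lit 426043) (nat_lit 0) (.e (nat_lit 3407) (nat_lit 212) (.e (nat_lit 655374) (nat_lit 3) .nil)))))))) (.g (nat_lit 1) (.e (nat_lit 173414) (nat_lit 0) .nil) .nil)))) 
(.nd (nat_lit 9) 
(.lf (nat_lit 502222) (.g (nat_lit 2953) (.e (nat_lit 163979) (nat_lit 30) (.e (nat_lit 573482) (nat_lit 13) (.e (nat_lit 65604) (nat_lit 9) (.e (nat_lit 336013) (nat_lit 2) (.e (nat_lit 90170) (nat_lit 13) (.e (nat_lit 172049) (nat_lit 0) (.e (nat_lit 2458) (nat_lit 157) (.e (nat_lit 5547) (nat_lit 306) (.e (nat_lit 2601) (nat_lit 163) .nil))))))))) (.g (nat_lit 1) (.e (nat_lit 173110) (nat_lit 0) .nil) .nil))) 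
(.lf (nat_lit 502734) (.g (nat_lit 4230) (.e (nat_lit 163979) (nat_lit 30) (.e (nat_lit 573487) (nat_lit 14) (.e (nat_lit 73753) (nat_lit 8) (.e (nat_lit 557105) (nat_lit 14) (.e (nat_lit 180252) (nat_lit 10) (.e (nat_lit 573475) (nat_lit 12) (.e (nat_lit 57503) (nat_lit 38) (.e (nat_lit 638994) (nat_lit 7) .nil)))))))) (.g (nat_lit 1) (.e (nat_lit 173844) (nat_lit 0) .nil) .nil))))))) 
(.nd (nat_lit 6) (.nd (nat_lit 7) (.nd (nat_lit 8) (.nd (nat_lit 9) 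
(.lf (nat_lit 501806) (.g (nat_lit 2753) (.e (nat_lit 163978) (nat_lit 30) (.e (nat_lit 573489) (nat_lit 14) (.e (nat_lit 73754) (nat_lit 8) (.e (nat_lit 557105) (nat_lit 14) (.e (nat_lit 180252) (nat_lit 10) (.e (nat_lit 573475) (nat_lit 12) (.e (nat_lit 57502) (nat_lit 38) (.e (nat_lit 638996) (nat_lit 7) .nil)))))))) (.g (nat_lit 1) (.e (nat_lit 171540) (nat_lit 0) .nil) .nil))) 
(.lf (nat_lit 502318) (.g (nat_lit 2904) (.e (nat_lit 163979) (nat_lit 30) (.e (nat_lit 573482) (nat_lit 13) (.e (nat_lit 65604) (nat_lit 9) (.e (nat_lit 336028) (nat_lit 3) (.e (nat_lit 98361) (nat_lit 26) (.e (nat_lit 426025) (nat_lit 0) (.e (nat_lit 3399) (nat_lit 211) (.e (nat_lit 647180) (nat_lit 3) .nil)))))))) (.g (nat_lit 1) (.e (nat_lit 173228) (nat_lit 0) .nil) .nil)))) (.nd (nat_lit 9) 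
(.lf (nat_lit 502062) (.g (nat_lit 3219) (.e (nat_lit 163978) (nat_lit 30) (.e (nat_lit 573489) (nat_lit 14) (.e (nat_lit 73755) (nat_lit 8) (.e (nat_lit 557105) (nat_lit 14) (.e (nat_lit 180252) (nat_lit 10) (.e (nat_lit 573477) (nat_lit 12) (.e (nat_lit 57502) (nat_lit 38) (.e (nat_lit 638996) (nat_lit 7) .nil)))))))) (.g (nat_lit 1) (.e (nat_lit 172701) (nat_lit 0) .nil) .nil))) 
(.lf (nat_lit 502574) (.g (nat_lit 2599) (.e (nat_lit 163979) (nat_lit 30) (.e (nat_lit 573482) (nat_lit 13) (.e (nat_lit 65619) (nat_lit 10) (.e (nat_lit 344117) (nat_lit 21) (.e (nat_lit 516161) (nat_lit 10) (.e (nat_lit 434209) (nat_lit 18) (.e (nat_lit 5547) (nat_lit 306) (.e (nat_lit 2599) (nat_lit 163) .nil)))))))) (.g (nat_lit 1) (.e (nat_lit 173511) (nat_lit 0) .nil) .nil))))) 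
(.nd (nat_lit 8) (.nd (nat_lit 9) 
(.lf (nat_lit 501934) (.g (nat_lit 5027) (.e (nat_lit 163978) (nat_lit 30) (.e (nat_lit 573489) (nat_lit 14) (.e (nat_lit 73755) (nat_lit 8) (.e (nat_lit 557103) (nat_lit 14) (.e (nat_lit 180244) (nat_lit 5) (.e (nat_lit 532499) (nat_lit 1) (.e (nat_lit 57659) (nat_lit 152) (.e (nat_lit 2612) (nat_lit 163) .nil)))))))) (.g (nat_lit 1) (.e (nat_lit 171922) (nat_lit 0) .nil) .nil))) 
(.lf (nat_lit 502446) (.g (nat_lit 2982) (.e (nat_lit 163979) (nat_lit 30) (.e (nat_lit 573482) (nat_lit 13) (.e (nat_lit 65619) (nat_lit 10) (.e (nat_lit 344117) (nat_lit 21) (.e (nat_lit 516147) (nat_lit 9) (.e (nat_lit 426469) (nat_lit 24) (.e (nat_lit 163584) (nat_lit 3) .nil))))))) (.g (nat_lit 1) (.e (nat_lit 173382) (nat_lit 0) .nil) .nil)))) (.nd (nat_lit 9) 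
(.lf (nat_lit 502190) (.g (nat_lit 4018) (.e (nat_lit 163979) (nat_lit 30) (.e (nat_lit 573482) (nat_lit 13) (.e (nat_lit 65604) (nat_lit 9) (.e (nat_lit 336013) (nat_lit 2) (.e (nat_lit 90170) (nat_lit 13) (.e (nat_lit 172032) (nat_lit 0) (.e (nat_lit 3397) (nat_lit 211) (.e (nat_lit 647180) (nat_lit 3) .nil)))))))) (.g (nat_lit 1) (.e (nat_lit 173074) (nat_lit 0) .nil) .nil))) 
(.lf (nat_lit 502702) (.g (nat_lit 2834) (.e (nat_lit 163979) (nat_lit 30) (.e (nat_lit 573487) (nat_lit 14) (.e (nat_lit 73753) (nat_lit 8) (.e (nat_lit 557103) (nat_lit 14) (.e (nat_lit 180250) (nat_lit 10) (.e (nat_lit 573475) (nat_lit 12) (.e (nat_lit 57504) (nat_lit 38) (.e (nat_lit 638994) (nat_lit 7) .nil)))))))) (.g (nat_lit 1) (.e (nat_lit 173803) (nat_lit 0) .nil) .nil)))))) 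
(.nd (nat_lit 7) (.nd (nat_lit 8) (.nd (nat_lit 9) 
(.lf (nat_lit 501870) (.g (nat_lit 2904) (.e (nat_lit 163978) (nat_lit 30) (.e (nat_lit 573489) (nat_lit 14) (.e (nat_lit 73755) (nat_lit 8) (.e (nat_lit 557098) (nat_lit 13) (.e (nat_lit 172066) (nat_lit 3) (.e (nat_lit 204815) (nat_lit 17) (.e (nat_lit 2271) (nat_lit 149) (.e (nat_lit 761897) (nat_lit 15) .nil)))))))) (.g (nat_lit 1) (.e (nat_lit 171736) (nat_lit 0) .nil) .nil))) 
(.lf (nat_lit 502382) (.g (nat_lit 1217) (.e (nat_lit 163979) (nat_lit 30) (.e (nat_lit 573482) (nat_lit 13) (.e (nat_lit 65619) (nat_lit 10) (.e (nat_lit 344117) (nat_lit 21) .nil)))) (.g (nat_lit 0) (.e (nat_lit 173317) (nat_lit 0) .nil) .nil)))) (.nd (nat_lit 9) 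
(.lf (nat_lit 502126) (.g (nat_lit 3718) (.e (nat_lit 163978) (nat_lit 30) (.e (nat_lit 573493) (nat_lit 15) (.e (nat_lit 81954) (nat_lit 23) (.e (nat_lit 98356) (nat_lit 26) .nil)))) (.g (nat_lit 0) (.e (nat_lit 172897) (nat_lit 0) .nil) .nil))) 
(.lf (nat_lit 502638) (.g (nat_lit 3872) (.e (nat_lit 163979) (nat_lit 30) (.e (nat_lit 573482) (nat_lit 13) (.e (nat_lit 65619) (nat_lit 10) (.e (nat_lit 344129) (nat_lit 26) (.e (nat_lit 557087) (nat_lit 11) (.e (nat_lit 24598) (nat_lit 1) (.e (nat_lit 57770) (nat_lit 227) (.e (nat_lit 2607) (nat_lit 163) .nil)))))))) (.g (nat_lit 1) (.e (nat_lit 173601) (nat_lit 0) .nil) .nil))))) 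
(.nd (nat_lit 8) (.nd (nat_lit 9) 
(.lf (nat_lit 501998) (.g (nat_lit 2627) (.e (nat_lit 163978) (nat_lit 30) (.e (nat_lit 573489) (nat_lit 14) (.e (nat_lit 73755) (nat_lit 8) (.e (nat_lit 557105) (nat_lit 14) (.e (nat_lit 180244) (nat_lit 5) (.e (nat_lit 532501) (nat_lit 1) (.e (nat_lit 57662) (nat_lit 152) (.e (nat_lit 2606) (nat_lit 163) .nil)))))))) (.g (nat_lit 1) (.e (nat_lit 172244) (nat_lit 0) .nil) .nil))) 
(.lf (nat_lit 502510) (.g (nat_lit 3244) (.e (nat_lit 163979) (nat_lit 30) (.e (nat_lit 573482) (nat_lit 13) (.e (nat_lit 65619) (nat_lit 10) (.e (nat_lit 344117) (nat_lit 21) (.e (nat_lit 516152) (nat_lit 9) (.e (nat_lit 426025) (nat_lit 0) (.e (nat_lit 3399) (nat_lit 211) (.e (nat_lit 647181) (nat_lit 3) .nil)))))))) (.g (nat_lit 1) (.e (nat_lit 173446) (nat_lit 0) .nil) .nil)))) 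
(.nd (nat_lit 9) 
(.lf (nat_lit 502254) (.g (nat_lit 2797) (.e (nat_lit 163979) (nat_lit 30) (.e (nat_lit 573482) (nat_lit 13) (.e (nat_lit 65604) (nat_lit 9) (.e (nat_lit 336013) (nat_lit 2) (.e (nat_lit 90170) (nat_lit 13) (.e (nat_lit 172068) (nat_lit 4) (.e (nat_lit 229665) (nat_lit 240) (.e (nat_lit 2598) (nat_lit 163) .nil)))))))) (.g (nat_lit 1) (.e (nat_lit 173142) (nat_lit 0) .nil) .nil))) 
(.lf (nat_lit 502766) (.g (nat_lit 3898) (.e (nat_lit 163979) (nat_lit 30) (.e (nat_lit 573488) (nat_lit 14) (.e (nat_lit 73753) (nat_lit 8) (.e (nat_lit 557103) (nat_lit 14) (.e (nat_lit 180250) (nat_lit 10) (.e (nat_lit 573473) (nat_lit 12) (.e (nat_lit 57504) (nat_lit 38) (.e (nat_lit 638995) (nat_lit 7) .nil)))))))) (.g (nat_lit 1) (.e (nat_lit 173891) (nat_lit 0) .nil) .nil)))))))) 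
(.nd (nat_lit 5) (.nd (nat_lit 6) (.nd (nat_lit 7) (.nd (nat_lit 8) (.nd (nat_lit 9) 
(.lf (nat_lit 501790) (.g (nat_lit 1783) (.e (nat_lit 163978) (nat_lit 30) (.e (nat_lit 573489) (nat_lit 14) (.e (nat_lit 73754) (nat_lit 8) (.e (nat_lit 557103) (nat_lit 14) .nil)))) (.g (nat_lit 0) (.e (nat_lit 171512) (nat_lit 0) .nil) .nil))) 
(.lf (nat_lit 502302) (.g (nat_lit 3867) (.e (nat_lit 163979) (nat_lit 30) (.e (nat_lit 573482) (nat_lit 13) (.e (nat_lit 65604) (nat_lit 9) (.e (nat_lit 336028) (nat_lit 3) (.e (nat_lit 98359) (nat_lit 26) (.e (nat_lit 426097) (nat_lit 1) (.e (nat_lit 164345) (nat_lit 240) (.e (nat_lit 2599) (nat_lit 163) .nil)))))))) (.g (nat_lit 1) (.e (nat_lit 173202) (nat_lit 0) .nil) .nil)))) 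
(.nd (nat_lit 9) 
(.lf (nat_lit 502046) (.g (nat_lit 3553) (.e (nat_lit 163978) (nat_lit 30) (.e (nat_lit 573489) (nat_lit 14) (.e (nat_lit 73755) (nat_lit 8) (.e (nat_lit 557105) (nat_lit 14) (.e (nat_lit 180252) (nat_lit 10) (.e (nat_lit 573474) (nat_lit 12) (.e (nat_lit 57500) (nat_lit 37) (.e (nat_lit 638720) (nat_lit 7) .nil)))))))) (.g (nat_lit 1) (.e (nat_lit 172685) (nat_lit 0) .nil) .nil))) 
(.lf (nat_lit 502558) (.g (nat_lit 2817) (.e (nat_lit 163979) (nat_lit 30) (.e (nat_lit 573482) (nat_lit 13) (.e (nat_lit 65619) (nat_lit 10) (.e (nat_lit 344117) (nat_lit 21) (.e (nat_lit 516160) (nat_lit 10) (.e (nat_lit 434202) (nat_lit 18) (.e (nat_lit 5537) (nat_lit 306) (.e (nat_lit 7936) (nat_lit 163) .nil)))))))) (.g (nat_lit 1) (.e (nat_lit 173494) (nat_lit 0) .nil) .nil))))) 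
(.nd (nat_lit 8) (.nd (nat_lit 9) 
(.lf (nat_lit 501918) (.g (nat_lit 3485) (.e (nat_lit 163978) (nat_lit 30) (.e (nat_lit 573489) (nat_lit 14) (.e (nat_lit 73755) (nat_lit 8) (.e (nat_lit 557103) (nat_lit 14) (.e (nat_lit 180243) (nat_lit 5) (.e (nat_lit 532484) (nat_lit 0) (.e (nat_lit 2271) (nat_lit 149) (.e (nat_lit 761898) (nat_lit 15) .nil)))))))) (.g (nat_lit 1) (.e (nat_lit 171864) (nat_lit 0) .nil) .nil))) 
(.lf (nat_lit 502430) (.g (nat_lit 4319) (.e (nat_lit 163979) (nat_lit 30) (.e (nat_lit 573482) (nat_lit 13) (.e (nat_lit 65619) (nat_lit 10) (.e (nat_lit 344117) (nat_lit 21) (.e (nat_lit 516145) (nat_lit 9) (.e (nat_lit 426393) (nat_lit 15) (.e (nat_lit 2058) (nat_lit 142) (.e (nat_lit 704589) (nat_lit 3) .nil)))))))) (.g (nat_lit 1) (.e (nat_lit 173366) (nat_lit 0) .nil) .nil)))) 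
(.nd (nat_lit 9) 
(.lf (nat_lit 502174) (.g (nat_lit 1405) (.e (nat_lit 163979) (nat_lit 30) (.e (nat_lit 573481) (nat_lit 13) (.e (nat_lit 65619) (nat_lit 10) (.e (nat_lit 344117) (nat_lit 21) .nil)))) (.g (nat_lit 0) (.e (nat_lit 173044) (nat_lit 0) .nil) .nil))) 
(.lf (nat_lit 502686) (.g (nat_lit 3067) (.e (nat_lit 163979) (nat_lit 30) (.e (nat_lit 573487) (nat_lit 14) (.e (nat_lit 73753) (nat_lit 8) (.e (nat_lit 557103) (nat_lit 14) (.e (nat_lit 180244) (nat_lit 5) (.e (nat_lit 532489) (nat_lit 0) (.e (nat_lit 7936) (nat_lit 149) (.e (nat_lit 761898) (nat_lit 15) .nil)))))))) (.g (nat_lit 1) (.e (nat_lit 173769) (nat_lit 0) .nil) .nil)))))) 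
(.nd (nat_lit 7) (.nd (nat_lit 8) (.nd (nat_lit 9) 
(.lf (nat_lit 501854) (.g (nat_lit 3275) (.e (nat_lit 163978) (nat_lit 30) (.e (nat_lit 573489) (nat_lit 14) (.e (nat_lit 73755) (nat_lit 8) (.e (nat_lit 557098) (nat_lit 13) (.e (nat_lit 172065) (nat_lit 3) (.e (nat_lit 204815) (nat_lit 17) (.e (nat_lit 2271) (nat_lit 149) (.e (nat_lit 761899) (nat_lit 15) .nil)))))))) (.g (nat_lit 1) (.e (nat_lit 171701) (nat_lit 0) .nil) .nil))) 
(.lf (nat_lit 502366) (.g (nat_lit 3633) (.e (nat_lit 163979) (nat_lit 30) (.e (nat_lit 573482) (nat_lit 13) (.e (nat_lit 65609) (nat_lit 10) (.e (nat_lit 344120) (nat_lit 21) (.e (nat_lit 516179) (nat_lit 15) (.e (nat_lit 475199) (nat_lit 40) (.e (nat_lit 704589) (nat_lit 3) .nil))))))) (.g (nat_lit 1) (.e (nat_lit 173299) (nat_lit 0) .nil) .nil)))) (.nd (nat_lit 9) 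
(.lf (nat_lit 502110) (.g (nat_lit 4137) (.e (nat_lit 163978) (nat_lit 30) (.e (nat_lit 573493) (nat_lit 15) (.e (nat_lit 81951) (nat_lit 22) (.e (nat_lit 90172) (nat_lit 14) (.e (nat_lit 180229) (nat_lit 0) .nil))))) (.g (nat_lit 0) (.e (nat_lit 172852) (nat_lit 0) .nil) .nil))) 
(.lf (nat_lit 502622) (.g (nat_lit 2892) (.e (nat_lit 163979) (nat_lit 30) (.e (nat_lit 573482) (nat_lit 13) (.e (nat_lit 65619) (nat_lit 10) (.e (nat_lit 344117) (nat_lit 21) (.e (nat_lit 516181) (nat_lit 15) (.e (nat_lit 475196) (nat_lit 40) (.e (nat_lit 704589) (nat_lit 3) .nil))))))) (.g (nat_lit 1) (.e (nat_lit 173562) (nat_lit 0) .nil) .nil))))) (.nd (nat_lit 8) (.nd (nat_lit 9) 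
(.lf (nat_lit 501982) (.g (nat_lit 3226) (.e (nat_lit 163978) (nat_lit 30) (.e (nat_lit 573489) (nat_lit 14) (.e (nat_lit 73755) (nat_lit 8) (.e (nat_lit 557104) (nat_lit 14) (.e (nat_lit 180252) (nat_lit 10) (.e (nat_lit 573475) (nat_lit 12) (.e (nat_lit 57503) (nat_lit 38) (.e (nat_lit 638995) (nat_lit 7) .nil)))))))) (.g (nat_lit 1) (.e (nat_lit 172181) (nat_lit 0) .nil) .nil))) 
(.lf (nat_lit 502494) (.g (nat_lit 3460) (.e (nat_lit 163979) (nat_lit 30) (.e (nat_lit 573482) (nat_lit 13) (.e (nat_lit 65619) (nat_lit 10) (.e (nat_lit 344117) (nat_lit 21) (.e (nat_lit 516151) (nat_lit 9) (.e (nat_lit 426142) (nat_lit 4) (.e (nat_lit 229664) (nat_lit 240) (.e (nat_lit 2598) (nat_lit 163) .nil)))))))) (.g (nat_lit 1) (.e (nat_lit 173430) (nat_lit 0) .nil) .nil)))) 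
(.nd (nat_lit 9) 
(.lf (nat_lit 502238) (.g (nat_lit 4585) (.e (nat_lit 163979) (nat_lit 30) (.e (nat_lit 573482) (nat_lit 13) (.e (nat_lit 65604) (nat_lit 9) (.e (nat_lit 336013) (nat_lit 2) (.e (nat_lit 90170) (nat_lit 13) (.e (nat_lit 172060) (nat_lit 1) (.e (nat_lit 164345) (nat_lit 240) (.e (nat_lit 2610) (nat_lit 163) .nil)))))))) (.g (nat_lit 1) (.e (nat_lit 173126) (nat_lit 0) .nil) .nil))) 
(.lf (nat_lit 502750) (.g (nat_lit 3378) (.e (nat_lit 163979) (nat_lit 30) (.e (nat_lit 573487) (nat_lit 14) (.e (nat_lit 73754) (nat_lit 8) (.e (nat_lit 557105) (nat_lit 14) (.e (nat_lit 180252) (nat_lit 10) (.e (nat_lit 573475) (nat_lit 12) (.e (nat_lit 57503) (nat_lit 38) (.e (nat_lit 638994) (nat_lit 7) .nil)))))))) (.g (nat_lit 1) (.e (nat_lit 173864) (nat_lit 0) .nil) .nil))))))) 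
(.nd (nat_lit 6) (.nd (nat_lit 7) (.nd (nat_lit 8) (.nd (nat_lit 9) 
(.lf (nat_lit 501822) (.g (nat_lit 2957) (.e (nat_lit 163978) (nat_lit 30) (.e (nat_lit 573489) (nat_lit 14) (.e (nat_lit 73755) (nat_lit 8) (.e (nat_lit 557097) (nat_lit 13) (.e (nat_lit 172065) (nat_lit 3) .nil))))) (.g (nat_lit 0) (.e (nat_lit 171610) (nat_lit 0) .nil) .nil))) 
(.lf (nat_lit 502334) (.g (nat_lit 3869) (.e (nat_lit 163979) (nat_lit 30) (.e (nat_lit 573482) (nat_lit 13) (.e (nat_lit 65604) (nat_lit 9) (.e (nat_lit 336028) (nat_lit 3) (.e (nat_lit 98366) (nat_lit 27) (.e (nat_lit 434209) (nat_lit 18) (.e (nat_lit 5546) (nat_lit 306) (.e (nat_lit 2611) (nat_lit 163) .nil)))))))) (.g (nat_lit 1) (.e (nat_lit 173250) (nat_lit 0) .nil) .nil)))) 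
(.nd (nat_lit 9) 
(.lf (nat_lit 502078) (.g (nat_lit 3085) (.e (nat_lit 163978) (nat_lit 30) (.e (nat_lit 573490) (nat_lit 15) (.e (nat_lit 81956) (nat_lit 23) (.e (nat_lit 98359) (nat_lit 26) (.e (nat_lit 426041) (nat_lit 0) .nil))))) (.g (nat_lit 0) (.e (nat_lit 172724) (nat_lit 0) .nil) .nil))) 
(.lf (nat_lit 502590) (.g (nat_lit 3779) (.e (nat_lit 163979) (nat_lit 30) (.e (nat_lit 573482) (nat_lit 13) (.e (nat_lit 65619) (nat_lit 10) (.e (nat_lit 344117) (nat_lit 21) (.e (nat_lit 516169) (nat_lit 13) (.e (nat_lit 458774) (nat_lit 18) (.e (nat_lit 5548) (nat_lit 306) (.e (nat_lit 2599) (nat_lit 163) .nil)))))))) (.g (nat_lit 1) (.e (nat_lit 173527) (nat_lit 0) .nil) .nil))))) 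
(.nd (nat_lit 8) (.nd (nat_lit 9) 
(.lf (nat_lit 501950) (.g (nat_lit 2179) (.e (nat_lit 163978) (nat_lit 30) (.e (nat_lit 573489) (nat_lit 14) (.e (nat_lit 73755) (nat_lit 8) (.e (nat_lit 557104) (nat_lit 14) .nil)))) (.g (nat_lit 0) (.e (nat_lit 172022) (nat_lit 0) .nil) .nil))) 
(.lf (nat_lit 502462) (.g (nat_lit 4462) (.e (nat_lit 163979) (nat_lit 30) (.e (nat_lit 573482) (nat_lit 13) (.e (nat_lit 65619) (nat_lit 10) (.e (nat_lit 344117) (nat_lit 21) (.e (nat_lit 516151) (nat_lit 9) (.e (nat_lit 426042) (nat_lit 0) (.e (nat_lit 2458) (nat_lit 157) (.e (nat_lit 5546) (nat_lit 306) (.e (nat_lit 2610) (nat_lit 163) .nil))))))))) (.g (nat_lit 1) (.e (nat_lit 173398) (nat_lit 0) .nil) .nil)))) 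
(.nd (nat_lit 9) 
(.lf (nat_lit 502206) (.g (nat_lit 2419) (.e (nat_lit 163979) (nat_lit 30) (.e (nat_lit 573482) (nat_lit 13) (.e (nat_lit 65604) (nat_lit 9) (.e (nat_lit 336013) (nat_lit 2) (.e (nat_lit 90170) (nat_lit 13) (.e (nat_lit 172042) (nat_lit 0) (.e (nat_lit 2478) (nat_lit 157) (.e (nat_lit 5548) (nat_lit 306) (.e (nat_lit 2599) (nat_lit 163) .nil))))))))) (.g (nat_lit 1) (.e (nat_lit 173091) (nat_lit 0) .nil) .nil))) 
(.lf (nat_lit 502718) (.g (nat_lit 4681) (.e (nat_lit 163979) (nat_lit 30) (.e (nat_lit 573487) (nat_lit 14) (.e (nat_lit 73753) (nat_lit 8) (.e (nat_lit 557105) (nat_lit 14) (.e (nat_lit 180251) (nat_lit 10) (.e (nat_lit 573475) (nat_lit 12) (.e (nat_lit 57503) (nat_lit 38) (.e (nat_lit 638996) (nat_lit 7) .nil)))))))) (.g (nat_lit 1) (.e (nat_lit 173823) (nat_lit 0) .nil) .nil)))))) 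
(.nd (nat_lit 7) (.nd (nat_lit 8) (.nd (nat_lit 9) 
(.lf (nat_lit 501886) (.g (nat_lit 4481) (.e (nat_lit 163978) (nat_lit 30) (.e (nat_lit 573489) (nat_lit 14) (.e (nat_lit 73755) (nat_lit 8) (.e (nat_lit 557098) (nat_lit 13) (.e (nat_lit 172067) (nat_lit 3) (.e (nat_lit 204815) (nat_lit 17) (.e (nat_lit 2271) (nat_lit 149) (.e (nat_lit 761897) (nat_lit 15) .nil)))))))) (.g (nat_lit 1) (.e (nat_lit 171774) (nat_lit 0) .nil) .nil))) 
(.lf (nat_lit 502398) (.g (nat_lit 3176) (.e (nat_lit 163979) (nat_lit 30) (.e (nat_lit 573482) (nat_lit 13) (.e (nat_lit 65619) (nat_lit 10) (.e (nat_lit 344117) (nat_lit 21) (.e (nat_lit 516143) (nat_lit 9) (.e (nat_lit 426144) (nat_lit 4) (.e (nat_lit 229665) (nat_lit 240) (.e (nat_lit 2602) (nat_lit 163) .nil)))))))) (.g (nat_lit 1) (.e (nat_lit 173334) (nat_lit 0) .nil) .nil)))) 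
(.nd (nat_lit 9) 
(.lf (nat_lit 502142) (.g (nat_lit 3707) (.e (nat_lit 163978) (nat_lit 30) (.e (nat_lit 573493) (nat_lit 15) (.e (nat_lit 81956) (nat_lit 23) (.e (nat_lit 98360) (nat_lit 26) .nil)))) (.g (nat_lit 0) (.e (nat_lit 172924) (nat_lit 0) .nil) .nil))) 
(.lf (nat_lit 502654) (.g (nat_lit 3595) (.e (nat_lit 163979) (nat_lit 30) (.e (nat_lit 573485) (nat_lit 13) (.e (nat_lit 65619) (nat_lit 10) (.e (nat_lit 344117) (nat_lit 21) (.e (nat_lit 516160) (nat_lit 10) (.e (nat_lit 434271) (nat_lit 38) (.e (nat_lit 655375) (nat_lit 3) .nil))))))) (.g (nat_lit 1) (.e (nat_lit 173630) (nat_lit 0) .nil) .nil))))) (.nd (nat_lit 8) (.nd (nat_lit 9) 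
(.lf (nat_lit 502014) (.g (nat_lit 2153) (.e (nat_lit 163978) (nat_lit 30) (.e (nat_lit 573489) (nat_lit 14) (.e (nat_lit 73755) (nat_lit 8) (.e (nat_lit 557105) (nat_lit 14) (.e (nat_lit 180245) (nat_lit 5) (.e (nat_lit 532494) (nat_lit 0) (.e (nat_lit 2264) (nat_lit 149) (.e (nat_lit 761899) (nat_lit 15) .nil)))))))) (.g (nat_lit 1) (.e (nat_lit 172306) (nat_lit 0) .nil) .nil))) 
(.lf (nat_lit 502526) (.g (nat_lit 2605) (.e (nat_lit 163979) (nat_lit 30) (.e (nat_lit 573482) (nat_lit 13) (.e (nat_lit 65619) (nat_lit 10) (.e (nat_lit 344117) (nat_lit 21) (.e (nat_lit 516153) (nat_lit 9) (.e (nat_lit 426109) (nat_lit 1) (.e (nat_lit 164347) (nat_lit 240) (.e (nat_lit 2599) (nat_lit 163) .nil)))))))) (.g (nat_lit 1) (.e (nat_lit 173462) (nat_lit 0) .nil) .nil)))) 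
(.nd (nat_lit 9) 
(.lf (nat_lit 502270) (.g (nat_lit 3819) (.e (nat_lit 163979) (nat_lit 30) (.e (nat_lit 573482) (nat_lit 13) (.e (nat_lit 65604) (nat_lit 9) (.e (nat_lit 336013) (nat_lit 2) (.e (nat_lit 90170) (nat_lit 13) (.e (nat_lit 172137) (nat_lit 15) (.e (nat_lit 2059) (nat_lit 142) (.e (nat_lit 704589) (nat_lit 3) .nil)))))))) (.g (nat_lit 1) (.e (nat_lit 173158) (nat_lit 0) .nil) .nil))) 
(.lf (nat_lit 502782) (.g (nat_lit 3164) (.e (nat_lit 163979) (nat_lit 30) (.e (nat_lit 573488) (nat_lit 14) (.e (nat_lit 73754) (nat_lit 8) (.e (nat_lit 557103) (nat_lit 14) (.e (nat_lit 180250) (nat_lit 10) (.e (nat_lit 573475) (nat_lit 12) (.e (nat_lit 57503) (nat_lit 38) (.e (nat_lit 638995) (nat_lit 7) .nil)))))))) (.g (nat_lit 1) (.e (nat_lit 173907) (nat_lit 0) .nil) .nil)))))))))))) 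
(.nd (nat_lit 1) (.nd (nat_lit 2) (.nd (nat_lit 3) (.nd (nat_lit 4) (.nd (nat_lit 5) 
(.nd (nat_lit 6) (.nd (nat_lit 7) (.nd (nat_lit 8) (.nd (nat_lit 9) 
(.lf (nat_lit 501761) (.g (nat_lit 3452) (.e (nat_lit 163978) (nat_lit 30) (.e (nat_lit 573489) (nat_lit 14) (.e (nat_lit 73754) (nat_lit 8) (.e (nat_lit 557100) (nat_lit 13) (.e (nat_lit 172067) (nat_lit 3) (.e (nat_lit 204821) (nat_lit 17) (.e (nat_lit 2270) (nat_lit 149) (.e (nat_lit 761898) (nat_lit 15) .nil)))))))) (.g (nat_lit 1) (.e (nat_lit 171431) (nat_lit 0) .nil) .nil))) 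
(.lf (nat_lit 502273) (.g (nat_lit 3794) (.e (nat_lit 163979) (nat_lit 30) (.e (nat_lit 573482) (nat_lit 13) (.e (nat_lit 65604) (nat_lit 9) (.e (nat_lit 336013) (nat_lit 2) (.e (nat_lit 90170) (nat_lit 13) (.e (nat_lit 179968) (nat_lit 19) (.e (nat_lit 114432) (nat_lit 3) .nil))))))) (.g (nat_lit 1) (.e (nat_lit 173161) (nat_lit 0) .nil) .nil)))) (.nd (nat_lit 9) 
(.lf (nat_lit 502017) (.g (nat_lit 2814) (.e (nat_lit 163978) (nat_lit 30) (.e (nat_lit 573489) (nat_lit 14) (.e (nat_lit 73755) (nat_lit 8) (.e (nat_lit 557105) (nat_lit 14) (.e (nat_lit 180245) (nat_lit 5) (.e (nat_lit 532499) (nat_lit 1) (.e (nat_lit 57659) (nat_lit 152) (.e (nat_lit 2606) (nat_lit 163) .nil)))))))) (.g (nat_lit 1) (.e (nat_lit 172323) (nat_lit 0) .nil) .nil))) 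
(.lf (nat_lit 502529) (.g (nat_lit 2509) (.e (nat_lit 163979) (nat_lit 30) (.e (nat_lit 573482) (nat_lit 13) (.e (nat_lit 65619) (nat_lit 10) (.e (nat_lit 344117) (nat_lit 21) (.e (nat_lit 516155) (nat_lit 9) .nil))))) (.g (nat_lit 0) (.e (nat_lit 173465) (nat_lit 0) .nil) .nil))))) (.nd (nat_lit 8) (.nd (nat_lit 9) 
(.lf (nat_lit 501889) (.g (nat_lit 4427) (.e (nat_lit 163978) (nat_lit 30) (.e (nat_lit 573489) (nat_lit 14) (.e (nat_lit 73755) (nat_lit 8) (.e (nat_lit 557098) (nat_lit 13) (.e (nat_lit 172067) (nat_lit 3) (.e (nat_lit 204817) (nat_lit 17) (.e (nat_lit 2272) (nat_lit 149) (.e (nat_lit 761897) (nat_lit 15) .nil)))))))) (.g (nat_lit 1) (.e (nat_lit 171780) (nat_lit 0) .nil) .nil))) 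
(.lf (nat_lit 502401) (.g (nat_lit 2317) (.e (nat_lit 163979) (nat_lit 30) (.e (nat_lit 573482) (nat_lit 13) (.e (nat_lit 65619) (nat_lit 10) (.e (nat_lit 344117) (nat_lit 21) (.e (nat_lit 516144) (nat_lit 9) .nil))))) (.g (nat_lit 0) (.e (nat_lit 173337) (nat_lit 0) .nil) .nil)))) (.nd (nat_lit 9) 
(.lf (nat_lit 502145) (.g (nat_lit 4591) (.e (nat_lit 163978) (nat_lit 30) (.e (nat_lit 573493) (nat_lit 15) (.e (nat_lit 81956) (nat_lit 23) (.e (nat_lit 98363) (nat_lit 26) .nil)))) (.g (nat_lit 0) (.e (nat_lit 172927) (nat_lit 0) .nil) .nil))) 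
(.lf (nat_lit 502657) (.g (nat_lit 2884) (.e (nat_lit 163979) (nat_lit 30) (.e (nat_lit 573487) (nat_lit 14) (.e (nat_lit 73753) (nat_lit 8) (.e (nat_lit 557098) (nat_lit 13) (.e (nat_lit 172065) (nat_lit 3) (.e (nat_lit 204821) (nat_lit 17) (.e (nat_lit 7936) (nat_lit 149) (.e (nat_lit 761898) (nat_lit 15) .nil)))))))) (.g (nat_lit 1) (.e (nat_lit 173664) (nat_lit 0) .nil) .nil)))))) 
(.nd (nat_lit 7) (.nd (nat_lit 8) (.nd (nat_lit 9) 
(.lf (nat_lit 501825) (.g (nat_lit 3868) (.e (nat_lit 163978) (nat_lit 30) (.e (nat_lit 573489) (nat_lit 14) (.e (nat_lit 73755) (nat_lit 8) (.e (nat_lit 557097) (nat_lit 13) (.e (nat_lit 172065) (nat_lit 3) (.e (nat_lit 204817) (nat_lit 17) (.e (nat_lit 7936) (nat_lit 149) (.e (nat_lit 761897) (nat_lit 15) .nil)))))))) (.g (nat_lit 1) (.e (nat_lit 171614) (nat_lit 0) .nil) .nil))) 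
(.lf (nat_lit 502337) (.g (nat_lit 3345) (.e (nat_lit 163979) (nat_lit 30) (.e (nat_lit 573482) (nat_lit 13) (.e (nat_lit 65604) (nat_lit 9) (.e (nat_lit 336028) (nat_lit 3) (.e (nat_lit 98366) (nat_lit 27) (.e (nat_lit 434271) (nat_lit 38) (.e (nat_lit 655374) (nat_lit 3) .nil))))))) (.g (nat_lit 1) (.e (nat_lit 173256) (nat_lit 0) .nil) .nil)))) (.nd (nat_lit 9) 
(.lf (nat_lit 502081) (.g (nat_lit 5079) (.e (nat_lit 163978) (nat_lit 30) (.e (nat_lit 573490) (nat_lit 15) (.e (nat_lit 81956) (nat_lit 23) (.e (nat_lit 98366) (nat_lit 27) (.e (nat_lit 434272) (nat_lit 38) (.e (nat_lit 655375) (nat_lit 3) .nil)))))) (.g (nat_lit 1) (.e (nat_lit 172727) (nat_lit 0) .nil) .nil))) 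
(.lf (nat_lit 502593) (.g (nat_lit 2595) (.e (nat_lit 163979) (nat_lit 30) (.e (nat_lit 573482) (nat_lit 13) (.e (nat_lit 65619) (nat_lit 10) (.e (nat_lit 344117) (nat_lit 21) (.e (nat_lit 516170) (nat_lit 13) (.e (nat_lit 458774) (nat_lit 18) (.e (nat_lit 5543) (nat_lit 306) (.e (nat_lit 2599) (nat_lit 163) .nil)))))))) (.g (nat_lit 1) (.e (nat_lit 173530) (nat_lit 0) .nil) .nil))))) 
(.nd (nat_lit 8) (.nd (nat_lit 9) 
(.lf (nat_lit 501953) (.g (nat_lit 3234) (.e (nat_lit 163978) (nat_lit 30) (.e (nat_lit 573489) (nat_lit 14) (.e (nat_lit 73755) (nat_lit 8) (.e (nat_lit 557104) (nat_lit 14) (.e (nat_lit 180243) (nat_lit 5) .nil))))) (.g (nat_lit 0) (.e (nat_lit 172036) (nat_lit 0) .nil) .nil))) 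
(.lf (nat_lit 502465) (.g (nat_lit 3887) (.e (nat_lit 163979) (nat_lit 30) (.e (nat_lit 573482) (nat_lit 13) (.e (nat_lit 65619) (nat_lit 10) (.e (nat_lit 344117) (nat_lit 21) (.e (nat_lit 516151) (nat_lit 9) (.e (nat_lit 426042) (nat_lit 0) (.e (nat_lit 2458) (nat_lit 157) (.e (nat_lit 5547) (nat_lit 306) (.e (nat_lit 2601) (nat_lit 163) .nil))))))))) (.g (nat_lit 1) (.e (nat_lit 173401) (nat_lit 0) .nil) .nil)))) 
(.nd (nat_lit 9) 
(.lf (nat_lit 502209) (.g (nat_lit 4873) (.e (nat_lit 163979) (nat_lit 30) (.e (nat_lit 573482) (nat_lit 13) (.e (nat_lit 65604) (nat_lit 9) (.e (nat_lit 336013) (nat_lit 2) (.e (nat_lit 90170) (nat_lit 13) (.e (nat_lit 172042) (nat_lit 0) (.e (nat_lit 3409) (nat_lit 212) (.e (nat_lit 655375) (nat_lit 3) .nil)))))))) (.g (nat_lit 1) (.e (nat_lit 173094) (nat_lit 0) .nil) .nil))) 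
(.lf (nat_lit 502721) (.g (nat_lit 3422) (.e (nat_lit 163979) (nat_lit 30) (.e (nat_lit 573487) (nat_lit 14) (.e (nat_lit 73753) (nat_lit 8) (.e (nat_lit 557105) (nat_lit 14) (.e (nat_lit 180251) (nat_lit 10) (.e (nat_lit 573478) (nat_lit 12) (.e (nat_lit 57502) (nat_lit 38) (.e (nat_lit 638995) (nat_lit 7) .nil)))))))) (.g (nat_lit 1) (.e (nat_lit 173827) (nat_lit 0) .nil) .nil))))))) 
(.nd (nat_lit 6) (.nd (nat_lit 7) (.nd (nat_lit 8) (.nd (nat_lit 9) 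
(.lf (nat_lit 501793) (.g (nat_lit 3633) (.e (nat_lit 163978) (nat_lit 30) (.e (nat_lit 573489) (nat_lit 14) (.e (nat_lit 73754) (nat_lit 8) (.e (nat_lit 557103) (nat_lit 14) (.e (nat_lit 180243) (nat_lit 5) (.e (nat_lit 532484) (nat_lit 0) (.e (nat_lit 7936) (nat_lit 149) (.e (nat_lit 761898) (nat_lit 15) .nil)))))))) (.g (nat_lit 1) (.e (nat_lit 171516) (nat_lit 0) .nil) .nil))) 
(.lf (nat_lit 502305) (.g (nat_lit 2402) (.e (nat_lit 163979) (nat_lit 30) (.e (nat_lit 573482) (nat_lit 13) (.e (nat_lit 65604) (nat_lit 9) (.e (nat_lit 336028) (nat_lit 3) (.e (nat_lit 98359) (nat_lit 26) (.e (nat_lit 426103) (nat_lit 1) (.e (nat_lit 164348) (nat_lit 240) (.e (nat_lit 2599) (nat_lit 163) .nil)))))))) (.g (nat_lit 1) (.e (nat_lit 173207) (nat_lit 0) .nil) .nil)))) 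
(.nd (nat_lit 9) 
(.lf (nat_lit 502049) (.g (nat_lit 3915) (.e (nat_lit 163978) (nat_lit 30) (.e (nat_lit 573489) (nat_lit 14) (.e (nat_lit 73755) (nat_lit 8) (.e (nat_lit 557105) (nat_lit 14) (.e (nat_lit 180252) (nat_lit 10) (.e (nat_lit 573474) (nat_lit 12) (.e (nat_lit 57502) (nat_lit 38) (.e (nat_lit 638994) (nat_lit 7) .nil)))))))) (.g (nat_lit 1) (.e (nat_lit 172688) (nat_lit 0) .nil) .nil))) 
(.lf (nat_lit 502561) (.g (nat_lit 3231) (.e (nat_lit 163979) (nat_lit 30) (.e (nat_lit 573482) (nat_lit 13) (.e (nat_lit 65619) (nat_lit 10) (.e (nat_lit 344117) (nat_lit 21) (.e (nat_lit 516160) (nat_lit 10) (.e (nat_lit 434209) (nat_lit 18) (.e (nat_lit 5546) (nat_lit 306) (.e (nat_lit 2607) (nat_lit 163) .nil)))))))) (.g (nat_lit 1) (.e (nat_lit 173498) (nat_lit 0) .nil) .nil))))) 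
(.nd (nat_lit 8) (.nd (nat_lit 9) 
(.lf (nat_lit 501921) (.g (nat_lit 4002) (.e (nat_lit 163978) (nat_lit 30) (.e (nat_lit 573489) (nat_lit 14) (.e (nat_lit 73755) (nat_lit 8) (.e (nat_lit 557103) (nat_lit 14) (.e (nat_lit 180243) (nat_lit 5) (.e (nat_lit 532504) (nat_lit 1) (.e (nat_lit 57663) (nat_lit 152) (.e (nat_lit 2612) (nat_lit 163) .nil)))))))) (.g (nat_lit 1) (.e (nat_lit 171889) (nat_lit 0) .nil) .nil))) 
(.lf (nat_lit 502433) (.g (nat_lit 3946) (.e (nat_lit 163979) (nat_lit 30) (.e (nat_lit 573482) (nat_lit 13) (.e (nat_lit 65619) (nat_lit 10) (.e (nat_lit 344117) (nat_lit 21) (.e (nat_lit 516145) (nat_lit 9) (.e (nat_lit 426416) (nat_lit 15) (.e (nat_lit 2057) (nat_lit 142) (.e (nat_lit 704589) (nat_lit 3) .nil)))))))) (.g (nat_lit 1) (.e (nat_lit 173369) (nat_lit 0) .nil) .nil)))) 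
(.nd (nat_lit 9) 
(.lf (nat_lit 502177) (.g (nat_lit 2758) (.e (nat_lit 163979) (nat_lit 30) (.e (nat_lit 573481) (nat_lit 13) (.e (nat_lit 65619) (nat_lit 10) (.e (nat_lit 344117) (nat_lit 21) (.e (nat_lit 516161) (nat_lit 10) (.e (nat_lit 434272) (nat_lit 38) (.e (nat_lit 655375) (nat_lit 3) .nil))))))) (.g (nat_lit 1) (.e (nat_lit 173047) (nat_lit 0) .nil) .nil))) 
(.lf (nat_lit 502689) (.g (nat_lit 2871) (.e (nat_lit 163979) (nat_lit 30) (.e (nat_lit 573487) (nat_lit 14) (.e (nat_lit 73753) (nat_lit 8) (.e (nat_lit 557103) (nat_lit 14) (.e (nat_lit 180250) (nat_lit 10) (.e (nat_lit 573473) (nat_lit 12) (.e (nat_lit 57503) (nat_lit 38) (.e (nat_lit 638994) (nat_lit 7) .nil)))))))) (.g (nat_lit 1) (.e (nat_lit 173789) (nat_lit 0) .nil) .nil)))))) 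
(.nd (nat_lit 7) (.nd (nat_lit 8) (.nd (nat_lit 9) 
(.lf (nat_lit 501857) (.g (nat_lit 4832) (.e (nat_lit 163978) (nat_lit 30) (.e (nat_lit 573489) (nat_lit 14) (.e (nat_lit 73755) (nat_lit 8) (.e (nat_lit 557098) (nat_lit 13) (.e (nat_lit 172065) (nat_lit 3) (.e (nat_lit 204817) (nat_lit 17) (.e (nat_lit 2272) (nat_lit 149) (.e (nat_lit 761899) (nat_lit 15) .nil)))))))) (.g (nat_lit 1) (.e (nat_lit 171705) (nat_lit 0) .nil) .nil))) 
(.lf (nat_lit 502369) (.g (nat_lit 6287) (.e (nat_lit 163979) (nat_lit 30) (.e (nat_lit 573482) (nat_lit 13) (.e (nat_lit 65610) (nat_lit 10) (.e (nat_lit 344117) (nat_lit 21) (.e (nat_lit 516151) (nat_lit 9) (.e (nat_lit 426412) (nat_lit 15) (.e (nat_lit 2059) (nat_lit 142) (.e (nat_lit 704589) (nat_lit 3) .nil)))))))) (.g (nat_lit 1) (.e (nat_lit 173302) (nat_lit 0) .nil) .nil)))) 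
(.nd (nat_lit 9) 
(.lf (nat_lit 502113) (.g (nat_lit 6469) (.e (nat_lit 163978) (nat_lit 30) (.e (nat_lit 573493) (nat_lit 15) (.e (nat_lit 81953) (nat_lit 22) (.e (nat_lit 90166) (nat_lit 13) .nil)))) (.g (nat_lit 0) (.e (nat_lit 172882) (nat_lit 0) .nil) .nil))) 
(.lf (nat_lit 502625) (.g (nat_lit 2571) (.e (nat_lit 163979) (nat_lit 30) (.e (nat_lit 573482) (nat_lit 13) (.e (nat_lit 65619) (nat_lit 10) (.e (nat_lit 344117) (nat_lit 21) (.e (nat_lit 516182) (nat_lit 15) (.e (nat_lit 475197) (nat_lit 40) (.e (nat_lit 704589) (nat_lit 3) .nil))))))) (.g (nat_lit 1) (.e (nat_lit 173565) (nat_lit 0) .nil) .nil))))) (.nd (nat_lit 8) (.nd (nat_lit 9) 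
(.lf (nat_lit 501985) (.g (nat_lit 2478) (.e (nat_lit 163978) (nat_lit 30) (.e (nat_lit 573489) (nat_lit 14) (.e (nat_lit 73755) (nat_lit 8) (.e (nat_lit 557105) (nat_lit 14) (.e (nat_lit 180242) (nat_lit 5) (.e (nat_lit 532484) (nat_lit 0) (.e (nat_lit 7936) (nat_lit 149) (.e (nat_lit 761898) (nat_lit 15) .nil)))))))) (.g (nat_lit 1) (.e (nat_lit 172205) (nat_lit 0) .nil) .nil))) 
(.lf (nat_lit 502497) (.g (nat_lit 2507) (.e (nat_lit 163979) (nat_lit 30) (.e (nat_lit 573482) (nat_lit 13) (.e (nat_lit 65619) (nat_lit 10) (.e (nat_lit 344117) (nat_lit 21) (.e (nat_lit 516151) (nat_lit 9) (.e (nat_lit 426142) (nat_lit 4) (.e (nat_lit 229670) (nat_lit 240) (.e (nat_lit 2598) (nat_lit 163) .nil)))))))) (.g (nat_lit 1) (.e (nat_lit 173433) (nat_lit 0) .nil) .nil)))) 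
(.nd (nat_lit 9) 
(.lf (nat_lit 502241) (.g (nat_lit 2236) (.e (nat_lit 163979) (nat_lit 30) (.e (nat_lit 573482) (nat_lit 13) (.e (nat_lit 65604) (nat_lit 9) (.e (nat_lit 336013) (nat_lit 2) (.e (nat_lit 90170) (nat_lit 13) (.e (nat_lit 172061) (nat_lit 1) (.e (nat_lit 164345) (nat_lit 240) (.e (nat_lit 2598) (nat_lit 163) .nil)))))))) (.g (nat_lit 1) (.e (nat_lit 173129) (nat_lit 0) .nil) .nil))) 
(.lf (nat_lit 502753) (.g (nat_lit 4489) (.e (nat_lit 163979) (nat_lit 30) (.e (nat_lit 573487) (nat_lit 14) (.e (nat_lit 73754) (nat_lit 8) (.e (nat_lit 557105) (nat_lit 14) (.e (nat_lit 180252) (nat_lit 10) (.e (nat_lit 573475) (nat_lit 12) (.e (nat_lit 57504) (nat_lit 38) (.e (nat_lit 638995) (nat_lit 7) .nil)))))))) (.g (nat_lit 1) (.e (nat_lit 173867) (nat_lit 0) .nil) .nil)))))))) 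
(.nd (nat_lit 5) (.nd (nat_lit 6) (.nd (nat_lit 7) (.nd (nat_lit 8) (.nd (nat_lit 9) 
(.lf (nat_lit 501777) (.g (nat_lit 3913) (.e (nat_lit 163978) (nat_lit 30) (.e (nat_lit 573489) (nat_lit 14) (.e (nat_lit 73754) (nat_lit 8) (.e (nat_lit 557101) (nat_lit 13) (.e (nat_lit 172065) (nat_lit 3) (.e (nat_lit 204830) (nat_lit 18) (.e (nat_lit 57663) (nat_lit 152) (.e (nat_lit 2612) (nat_lit 163) .nil)))))))) (.g (nat_lit 1) (.e (nat_lit 171478) (nat_lit 0) .nil) .nil))) 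
(.lf (nat_lit 502289) (.g (nat_lit 3473) (.e (nat_lit 163979) (nat_lit 30) (.e (nat_lit 573482) (nat_lit 13) (.e (nat_lit 65604) (nat_lit 9) (.e (nat_lit 336028) (nat_lit 3) (.e (nat_lit 98359) (nat_lit 26) (.e (nat_lit 426003) (nat_lit 0) (.e (nat_lit 3397) (nat_lit 211) (.e (nat_lit 647181) (nat_lit 3) .nil)))))))) (.g (nat_lit 1) (.e (nat_lit 173179) (nat_lit 0) .nil) .nil)))) (.nd (nat_lit 9) 
(.lf (nat_lit 502033) (.g (nat_lit 3038) (.e (nat_lit 163978) (nat_lit 30) (.e (nat_lit 573489) (nat_lit 14) (.e (nat_lit 73755) (nat_lit 8) (.e (nat_lit 557105) (nat_lit 14) (.e (nat_lit 180251) (nat_lit 10) (.e (nat_lit 573473) (nat_lit 12) (.e (nat_lit 57503) (nat_lit 38) (.e (nat_lit 638996) (nat_lit 7) .nil)))))))) (.g (nat_lit 1) (.e (nat_lit 172436) (nat_lit 0) .nil) .nil))) 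
(.lf (nat_lit 502545) (.g (nat_lit 2602) (.e (nat_lit 163979) (nat_lit 30) (.e (nat_lit 573482) (nat_lit 13) (.e (nat_lit 65619) (nat_lit 10) (.e (nat_lit 344117) (nat_lit 21) (.e (nat_lit 516159) (nat_lit 10) (.e (nat_lit 434209) (nat_lit 18) (.e (nat_lit 5548) (nat_lit 306) (.e (nat_lit 2607) (nat_lit 163) .nil)))))))) (.g (nat_lit 1) (.e (nat_lit 173481) (nat_lit 0) .nil) .nil))))) 
(.nd (nat_lit 8) (.nd (nat_lit 9) 
(.lf (nat_lit 501905) (.g (nat_lit 2390) (.e (nat_lit 163978) (nat_lit 30) (.e (nat_lit 573489) (nat_lit 14) (.e (nat_lit 73755) (nat_lit 8) (.e (nat_lit 557100) (nat_lit 13) .nil)))) (.g (nat_lit 0) (.e (nat_lit 171838) (nat_lit 0) .nil) .nil))) 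
(.lf (nat_lit 502417) (.g (nat_lit 3277) (.e (nat_lit 163979) (nat_lit 30) (.e (nat_lit 573482) (nat_lit 13) (.e (nat_lit 65619) (nat_lit 10) (.e (nat_lit 344117) (nat_lit 21) (.e (nat_lit 516144) (nat_lit 9) (.e (nat_lit 426469) (nat_lit 24) (.e (nat_lit 163584) (nat_lit 3) .nil))))))) (.g (nat_lit 1) (.e (nat_lit 173353) (nat_lit 0) .nil) .nil)))) (.nd (nat_lit 9) 
(.lf (nat_lit 502161) (.g (nat_lit 3923) (.e (nat_lit 163979) (nat_lit 30) (.e (nat_lit 573474) (nat_lit 12) (.e (nat_lit 57528) (nat_lit 46) (.e (nat_lit 704590) (nat_lit 3) (.e (nat_lit 163962) (nat_lit 25) (.e (nat_lit 532543) (nat_lit 10) (.e (nat_lit 344117) (nat_lit 21) (.e (nat_lit 516123) (nat_lit 2) (.e (nat_lit 213033) (nat_lit 12) .nil))))))))) (.g (nat_lit 1) (.e (nat_lit 173002) (nat_lit 0) .nil) .nil))) 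
(.lf (nat_lit 502673) (.g (nat_lit 2721) (.e (nat_lit 163979) (nat_lit 30) (.e (nat_lit 573487) (nat_lit 14) (.e (nat_lit 73753) (nat_lit 8) (.e (nat_lit 557100) (nat_lit 13) (.e (nat_lit 172067) (nat_lit 3) (.e (nat_lit 204817) (nat_lit 17) (.e (nat_lit 7936) (nat_lit 149) (.e (nat_lit 761894) (nat_lit 15) .nil)))))))) (.g (nat_lit 1) (.e (nat_lit 173715) (nat_lit 0) .nil) .nil)))))) 
(.nd (nat_lit 7) (.nd (nat_lit 8) (.nd (nat_lit 9) 
(.lf (nat_lit 501841) (.g (nat_lit 3970) (.e (nat_lit 163978) (nat_lit 30) (.e (nat_lit 573489) (nat_lit 14) (.e (nat_lit 73755) (nat_lit 8) (.e (nat_lit 557097) (nat_lit 13) (.e (nat_lit 172067) (nat_lit 3) (.e (nat_lit 204815) (nat_lit 17) (.e (nat_lit 2271) (nat_lit 149) (.e (nat_lit 761897) (nat_lit 15) .nil)))))))) (.g (nat_lit 1) (.e (nat_lit 171639) (nat_lit 0) .nil) .nil))) 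
(.lf (nat_lit 502353) (.g (nat_lit 3725) (.e (nat_lit 163979) (nat_lit 30) (.e (nat_lit 573482) (nat_lit 13) (.e (nat_lit 65604) (nat_lit 9) (.e (nat_lit 336028) (nat_lit 3) (.e (nat_lit 98384) (nat_lit 32) (.e (nat_lit 475198) (nat_lit 40) (.e (nat_lit 704589) (nat_lit 3) .nil))))))) (.g (nat_lit 1) (.e (nat_lit 173285) (nat_lit 0) .nil) .nil)))) (.nd (nat_lit 9) 
(.lf (nat_lit 502097) (.g (nat_lit 3691) (.e (nat_lit 163978) (nat_lit 30) (.e (nat_lit 573491) (nat_lit 15) (.e (nat_lit 81955) (nat_lit 23) (.e (nat_lit 98366) (nat_lit 27) (.e (nat_lit 434272) (nat_lit 38) (.e (nat_lit 655375) (nat_lit 3) .nil)))))) (.g (nat_lit 1) (.e (nat_lit 172769) (nat_lit 0) .nil) .nil))) 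
(.lf (nat_lit 502609) (.g (nat_lit 2764) (.e (nat_lit 163979) (nat_lit 30) (.e (nat_lit 573482) (nat_lit 13) (.e (nat_lit 65619) (nat_lit 10) (.e (nat_lit 344117) (nat_lit 21) (.e (nat_lit 516178) (nat_lit 15) (.e (nat_lit 475196) (nat_lit 40) (.e (nat_lit 704589) (nat_lit 3) .nil))))))) (.g (nat_lit 1) (.e (nat_lit 173549) (nat_lit 0) .nil) .nil))))) (.nd (nat_lit 8) (.nd (nat_lit 9) 
(.lf (nat_lit 501969) (.g (nat_lit 4310) (.e (nat_lit 163978) (nat_lit 30) (.e (nat_lit 573489) (nat_lit 14) (.e (nat_lit 73755) (nat_lit 8) (.e (nat_lit 557104) (nat_lit 14) (.e (nat_lit 180244) (nat_lit 5) (.e (nat_lit 532499) (nat_lit 1) (.e (nat_lit 57664) (nat_lit 152) (.e (nat_lit 2606) (nat_lit 163) .nil)))))))) (.g (nat_lit 1) (.e (nat_lit 172074) (nat_lit 0) .nil) .nil))) 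
(.lf (nat_lit 502481) (.g (nat_lit 3211) (.e (nat_lit 163979) (nat_lit 30) (.e (nat_lit 573482) (nat_lit 13) (.e (nat_lit 65619) (nat_lit 10) (.e (nat_lit 344117) (nat_lit 21) (.e (nat_lit 516151) (nat_lit 9) (.e (nat_lit 426097) (nat_lit 1) (.e (nat_lit 164346) (nat_lit 240) (.e (nat_lit 2598) (nat_lit 163) .nil)))))))) (.g (nat_lit 1) (.e (nat_lit 173417) (nat_lit 0) .nil) .nil)))) 
(.nd (nat_lit 9) 
(.lf (nat_lit 502225) (.g (nat_lit 3471) (.e (nat_lit 163979) (nat_lit 30) (.e (nat_lit 573482) (nat_lit 13) (.e (nat_lit 65604) (nat_lit 9) (.e (nat_lit 336013) (nat_lit 2) (.e (nat_lit 90170) (nat_lit 13) (.e (nat_lit 172049) (nat_lit 0) (.e (nat_lit 7936) (nat_lit 211) (.e (nat_lit 647180) (nat_lit 3) .nil)))))))) (.g (nat_lit 1) (.e (nat_lit 173113) (nat_lit 0) .nil) .nil))) 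
(.lf (nat_lit 502737) (.g (nat_lit 4774) (.e (nat_lit 163979) (nat_lit 30) (.e (nat_lit 573487) (nat_lit 14) (.e (nat_lit 73753) (nat_lit 8) (.e (nat_lit 557105) (nat_lit 14) (.e (nat_lit 180252) (nat_lit 10) (.e (nat_lit 573475) (nat_lit 12) (.e (nat_lit 57504) (nat_lit 38) (.e (nat_lit 638995) (nat_lit 7) .nil)))))))) (.g (nat_lit 1) (.e (nat_lit 173847) (nat_lit 0) .nil) .nil))))))) 
(.nd (nat_lit 6) (.nd (nat_lit 7) (.nd (nat_lit 8) (.nd (nat_lit 9) 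
(.lf (nat_lit 501809) (.g (nat_lit 2021) (.e (nat_lit 163978) (nat_lit 30) (.e (nat_lit 573489) (nat_lit 14) (.e (nat_lit 73755) (nat_lit 8) (.e (nat_lit 557090) (nat_lit 12) .nil)))) (.g (nat_lit 0) (.e (nat_lit 171569) (nat_lit 0) .nil) .nil))) 
(.lf (nat_lit 502321) (.g (nat_lit 3047) (.e (nat_lit 163979) (nat_lit 30) (.e (nat_lit 573482) (nat_lit 13) (.e (nat_lit 65604) (nat_lit 9) (.e (nat_lit 336028) (nat_lit 3) (.e (nat_lit 98361) (nat_lit 26) (.e (nat_lit 426109) (nat_lit 1) (.e (nat_lit 164347) (nat_lit 240) (.e (nat_lit 2610) (nat_lit 163) .nil)))))))) (.g (nat_lit 1) (.e (nat_lit 173232) (nat_lit 0) .nil) .nil)))) 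
(.nd (nat_lit 9) 
(.lf (nat_lit 502065) (.g (nat_lit 3540) (.e (nat_lit 163978) (nat_lit 30) (.e (nat_lit 573489) (nat_lit 14) (.e (nat_lit 73755) (nat_lit 8) (.e (nat_lit 557105) (nat_lit 14) (.e (nat_lit 180252) (nat_lit 10) (.e (nat_lit 573478) (nat_lit 12) (.e (nat_lit 57502) (nat_lit 38) (.e (nat_lit 638995) (nat_lit 7) .nil)))))))) (.g (nat_lit 1) (.e (nat_lit 172704) (nat_lit 0) .nil) .nil))) 
(.lf (nat_lit 502577) (.g (nat_lit 2652) (.e (nat_lit 163979) (nat_lit 30) (.e (nat_lit 573482) (nat_lit 13) (.e (nat_lit 65619) (nat_lit 10) (.e (nat_lit 344117) (nat_lit 21) (.e (nat_lit 516161) (nat_lit 10) (.e (nat_lit 434209) (nat_lit 18) (.e (nat_lit 5548) (nat_lit 306) (.e (nat_lit 2601) (nat_lit 163) .nil)))))))) (.g (nat_lit 1) (.e (nat_lit 173514) (nat_lit 0) .nil) .nil))))) 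
(.nd (nat_lit 8) (.nd (nat_lit 9) 
(.lf (nat_lit 501937) (.g (nat_lit 4063) (.e (nat_lit 163978) (nat_lit 30) (.e (nat_lit 573489) (nat_lit 14) (.e (nat_lit 73755) (nat_lit 8) (.e (nat_lit 557103) (nat_lit 14) (.e (nat_lit 180244) (nat_lit 5) (.e (nat_lit 532501) (nat_lit 1) (.e (nat_lit 57663) (nat_lit 152) (.e (nat_lit 2606) (nat_lit 163) .nil)))))))) (.g (nat_lit 1) (.e (nat_lit 171952) (nat_lit 0) .nil) .nil))) 
(.lf (nat_lit 502449) (.g (nat_lit 2021) (.e (nat_lit 163979) (nat_lit 30) (.e (nat_lit 573482) (nat_lit 13) (.e (nat_lit 65619) (nat_lit 10) (.e (nat_lit 344117) (nat_lit 21) (.e (nat_lit 516151) (nat_lit 9) .nil))))) (.g (nat_lit 0) (.e (nat_lit 173385) (nat_lit 0) .nil) .nil)))) (.nd (nat_lit 9) 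
(.lf (nat_lit 502193) (.g (nat_lit 3482) (.e (nat_lit 163979) (nat_lit 30) (.e (nat_lit 573482) (nat_lit 13) (.e (nat_lit 65604) (nat_lit 9) (.e (nat_lit 336013) (nat_lit 2) (.e (nat_lit 90170) (nat_lit 13) (.e (nat_lit 172032) (nat_lit 0) (.e (nat_lit 3402) (nat_lit 211) (.e (nat_lit 647180) (nat_lit 3) .nil)))))))) (.g (nat_lit 1) (.e (nat_lit 173077) (nat_lit 0) .nil) .nil))) 
(.lf (nat_lit 502705) (.g (nat_lit 2634) (.e (nat_lit 163979) (nat_lit 30) (.e (nat_lit 573487) (nat_lit 14) (.e (nat_lit 73753) (nat_lit 8) (.e (nat_lit 557103) (nat_lit 14) (.e (nat_lit 180250) (nat_lit 10) (.e (nat_lit 573477) (nat_lit 12) (.e (nat_lit 57502) (nat_lit 38) (.e (nat_lit 638994) (nat_lit 7) .nil)))))))) (.g (nat_lit 1) (.e (nat_lit 173807) (nat_lit 0) .nil) .nil)))))) 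
(.nd (nat_lit 7) (.nd (nat_lit 8) (.nd (nat_lit 9) 
(.lf (nat_lit 501873) (.g (nat_lit 3704) (.e (nat_lit 163978) (nat_lit 30) (.e (nat_lit 573489) (nat_lit 14) (.e (nat_lit 73755) (nat_lit 8) (.e (nat_lit 557098) (nat_lit 13) (.e (nat_lit 172066) (nat_lit 3) (.e (nat_lit 204817) (nat_lit 17) (.e (nat_lit 2272) (nat_lit 149) (.e (nat_lit 761899) (nat_lit 15) .nil)))))))) (.g (nat_lit 1) (.e (nat_lit 171739) (nat_lit 0) .nil) .nil))) 
(.lf (nat_lit 502385) (.g (nat_lit 3394) (.e (nat_lit 163979) (nat_lit 30) (.e (nat_lit 573482) (nat_lit 13) (.e (nat_lit 65619) (nat_lit 10) (.e (nat_lit 344117) (nat_lit 21) (.e (nat_lit 516099) (nat_lit 0) .nil))))) (.g (nat_lit 0) (.e (nat_lit 173320) (nat_lit 0) .nil) .nil)))) (.nd (nat_lit 9) 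
(.lf (nat_lit 502129) (.g (nat_lit 3794) (.e (nat_lit 163978) (nat_lit 30) (.e (nat_lit 573493) (nat_lit 15) (.e (nat_lit 81954) (nat_lit 23) (.e (nat_lit 98362) (nat_lit 26) .nil)))) (.g (nat_lit 0) (.e (nat_lit 172900) (nat_lit 0) .nil) .nil))) 
(.lf (nat_lit 502641) (.g (nat_lit 2045) (.e (nat_lit 163979) (nat_lit 30) (.e (nat_lit 573482) (nat_lit 13) (.e (nat_lit 65621) (nat_lit 11) (.e (nat_lit 368676) (nat_lit 21) (.e (nat_lit 516182) (nat_lit 15) .nil))))) (.g (nat_lit 0) (.e (nat_lit 173604) (nat_lit 0) .nil) .nil))))) (.nd (nat_lit 8) (.nd (nat_lit 9) 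
(.lf (nat_lit 502001) (.g (nat_lit 2805) (.e (nat_lit 163978) (nat_lit 30) (.e (nat_lit 573489) (nat_lit 14) (.e (nat_lit 73755) (nat_lit 8) (.e (nat_lit 557105) (nat_lit 14) (.e (nat_lit 180244) (nat_lit 5) (.e (nat_lit 532503) (nat_lit 1) (.e (nat_lit 57651) (nat_lit 152) (.e (nat_lit 2606) (nat_lit 163) .nil)))))))) (.g (nat_lit 1) (.e (nat_lit 172258) (nat_lit 0) .nil) .nil))) 
(.lf (nat_lit 502513) (.g (nat_lit 2974) (.e (nat_lit 163979) (nat_lit 30) (.e (nat_lit 573482) (nat_lit 13) (.e (nat_lit 65619) (nat_lit 10) (.e (nat_lit 344117) (nat_lit 21) (.e (nat_lit 516152) (nat_lit 9) (.e (nat_lit 426109) (nat_lit 1) (.e (nat_lit 164346) (nat_lit 240) (.e (nat_lit 2599) (nat_lit 163) .nil)))))))) (.g (nat_lit 1) (.e (nat_lit 173449) (nat_lit 0) .nil) .nil)))) 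
(.nd (nat_lit 9) 
(.lf (nat_lit 502257) (.g (nat_lit 3612) (.e (nat_lit 163979) (nat_lit 30) (.e (nat_lit 573482) (nat_lit 13) (.e (nat_lit 65604) (nat_lit 9) (.e (nat_lit 336013) (nat_lit 2) (.e (nat_lit 90170) (nat_lit 13) (.e (nat_lit 172069) (nat_lit 4) (.e (nat_lit 229664) (nat_lit 240) (.e (nat_lit 2598) (nat_lit 163) .nil)))))))) (.g (nat_lit 1) (.e (nat_lit 173145) (nat_lit 0) .nil) .nil))) 
(.lf (nat_lit 502769) (.g (nat_lit 2658) (.e (nat_lit 163979) (nat_lit 30) (.e (nat_lit 573488) (nat_lit 14) (.e (nat_lit 73753) (nat_lit 8) (.e (nat_lit 557103) (nat_lit 14) (.e (nat_lit 180250) (nat_lit 10) (.e (nat_lit 573475) (nat_lit 12) (.e (nat_lit 57502) (nat_lit 38) (.e (nat_lit 638995) (nat_lit 7) .nil)))))))) (.g (nat_lit 1) (.e (nat_lit 173894) (nat_lit 0) .nil) .nil))))))))) 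
(.nd (nat_lit 4) (.nd (nat_lit 5) (.nd (nat_lit 6) (.nd (nat_lit 7) (.nd (nat_lit 8) 
(.nd (nat_lit 9) 
(.lf (nat_lit 501769) (.g (nat_lit 1692) (.e (nat_lit 163978) (nat_lit 30) (.e (nat_lit 573489) (nat_lit 14) (.e (nat_lit 73754) (nat_lit 8) (.e (nat_lit 557101) (nat_lit 13) (.e (nat_lit 172065) (nat_lit 3) .nil))))) (.g (nat_lit 0) (.e (nat_lit 171468) (nat_lit 0) .nil) .nil))) 
(.lf (nat_lit 502281) (.g (nat_lit 2893) (.e (nat_lit 163979) (nat_lit 30) (.e (nat_lit 573482) (nat_lit 13) (.e (nat_lit 65604) (nat_lit 9) (.e (nat_lit 336028) (nat_lit 3) (.e (nat_lit 98354) (nat_lit 26) (.e (nat_lit 426025) (nat_lit 0) (.e (nat_lit 3399) (nat_lit 211) (.e (nat_lit 647181) (nat_lit 3) .nil)))))))) (.g (nat_lit 1) (.e (nat_lit 173170) (nat_lit 0) .nil) .nil)))) (.nd (nat_lit 9) 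
(.lf (nat_lit 502025) (.g (nat_lit 3956) (.e (nat_lit 163978) (nat_lit 30) (.e (nat_lit 573489) (nat_lit 14) (.e (nat_lit 73755) (nat_lit 8) (.e (nat_lit 557105) (nat_lit 14) (.e (nat_lit 180245) (nat_lit 5) (.e (nat_lit 532503) (nat_lit 1) (.e (nat_lit 57659) (nat_lit 152) (.e (nat_lit 2612) (nat_lit 163) .nil)))))))) (.g (nat_lit 1) (.e (nat_lit 172388) (nat_lit 0) .nil) .nil))) 
(.lf (nat_lit 502537) (.g (nat_lit 2541) (.e (nat_lit 163979) (nat_lit 30) (.e (nat_lit 573482) (nat_lit 13) (.e (nat_lit 65619) (nat_lit 10) (.e (nat_lit 344117) (nat_lit 21) (.e (nat_lit 516159) (nat_lit 10) (.e (nat_lit 434202) (nat_lit 18) (.e (nat_lit 5537) (nat_lit 306) (.e (nat_lit 2599) (nat_lit 163) .nil)))))))) (.g (nat_lit 1) (.e (nat_lit 173473) (nat_lit 0) .nil) .nil))))) 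
(.nd (nat_lit 8) (.nd (nat_lit 9) 
(.lf (nat_lit 501897) (.g (nat_lit 4157) (.e (nat_lit 163978) (nat_lit 30) (.e (nat_lit 573489) (nat_lit 14) (.e (nat_lit 73755) (nat_lit 8) (.e (nat_lit 557098) (nat_lit 13) (.e (nat_lit 172067) (nat_lit 3) (.e (nat_lit 204821) (nat_lit 17) (.e (nat_lit 2270) (nat_lit 149) (.e (nat_lit 761897) (nat_lit 15) .nil)))))))) (.g (nat_lit 1) (.e (nat_lit 171792) (nat_lit 0) .nil) .nil))) 
(.lf (nat_lit 502409) (.g (nat_lit 2909) (.e (nat_lit 163979) (nat_lit 30) (.e (nat_lit 573482) (nat_lit 13) (.e (nat_lit 65619) (nat_lit 10) (.e (nat_lit 344117) (nat_lit 21) (.e (nat_lit 516144) (nat_lit 9) (.e (nat_lit 426416) (nat_lit 15) (.e (nat_lit 2058) (nat_lit 142) (.e (nat_lit 704589) (nat_lit 3) .nil)))))))) (.g (nat_lit 1) (.e (nat_lit 173345) (nat_lit 0) .nil) .nil)))) 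
(.nd (nat_lit 9) 
(.lf (nat_lit 502153) (.g (nat_lit 4131) (.e (nat_lit 163978) (nat_lit 30) (.e (nat_lit 573493) (nat_lit 15) (.e (nat_lit 81956) (nat_lit 23) (.e (nat_lit 98368) (nat_lit 27) (.e (nat_lit 434272) (nat_lit 38) (.e (nat_lit 655375) (nat_lit 3) .nil)))))) (.g (nat_lit 1) (.e (nat_lit 172936) (nat_lit 0) .nil) .nil))) 
(.lf (nat_lit 502665) (.g (nat_lit 2905) (.e (nat_lit 163979) (nat_lit 30) (.e (nat_lit 573487) (nat_lit 14) (.e (nat_lit 73753) (nat_lit 8) (.e (nat_lit 557098) (nat_lit 13) (.e (nat_lit 172067) (nat_lit 3) (.e (nat_lit 204821) (nat_lit 17) (.e (nat_lit 7936) (nat_lit 149) (.e (nat_lit 761898) (nat_lit 15) .nil)))))))) (.g (nat_lit 1) (.e (nat_lit 173688) (nat_lit 0) .nil) .nil)))))) 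
(.nd (nat_lit 7) (.nd (nat_lit 8) (.nd (nat_lit 9) 
(.lf (nat_lit 501833) (.g (nat_lit 3543) (.e (nat_lit 163978) (nat_lit 30) (.e (nat_lit 573489) (nat_lit 14) (.e (nat_lit 73755) (nat_lit 8) (.e (nat_lit 557097) (nat_lit 13) (.e (nat_lit 172066) (nat_lit 3) (.e (nat_lit 204817) (nat_lit 17) (.e (nat_lit 7936) (nat_lit 149) (.e (nat_lit 761897) (nat_lit 15) .nil)))))))) (.g (nat_lit 1) (.e (nat_lit 171624) (nat_lit 0) .nil) .nil))) 
(.lf (nat_lit 502345) (.g (nat_lit 2479) (.e (nat_lit 163979) (nat_lit 30) (.e (nat_lit 573482) (nat_lit 13) (.e (nat_lit 65604) (nat_lit 9) (.e (nat_lit 336028) (nat_lit 3) (.e (nat_lit 98367) (nat_lit 27) (.e (nat_lit 434270) (nat_lit 38) (.e (nat_lit 655373) (nat_lit 3) .nil))))))) (.g (nat_lit 1) (.e (nat_lit 173276) (nat_lit 0) .nil) .nil)))) (.nd (nat_lit 9) 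
(.lf (nat_lit 502089) (.g (nat_lit 3525) (.e (nat_lit 163978) (nat_lit 30) (.e (nat_lit 573491) (nat_lit 15) (.e (nat_lit 81951) (nat_lit 22) (.e (nat_lit 90170) (nat_lit 13) (.e (nat_lit 172052) (nat_lit 0) .nil))))) (.g (nat_lit 0) (.e (nat_lit 172758) (nat_lit 0) .nil) .nil))) 
(.lf (nat_lit 502601) (.g (nat_lit 3378) (.e (nat_lit 163979) (nat_lit 30) (.e (nat_lit 573482) (nat_lit 13) (.e (nat_lit 65619) (nat_lit 10) (.e (nat_lit 344117) (nat_lit 21) (.e (nat_lit 516171) (nat_lit 13) (.e (nat_lit 458774) (nat_lit 18) (.e (nat_lit 5547) (nat_lit 306) (.e (nat_lit 2611) (nat_lit 163) .nil)))))))) (.g (nat_lit 1) (.e (nat_lit 173541) (nat_lit 0) .nil) .nil))))) 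
(.nd (nat_lit 8) (.nd (nat_lit 9) 
(.lf (nat_lit 501961) (.g (nat_lit 4145) (.e (nat_lit 163978) (nat_lit 30) (.e (nat_lit 573489) (nat_lit 14) (.e (nat_lit 73755) (nat_lit 8) (.e (nat_lit 557104) (nat_lit 14) (.e (nat_lit 180244) (nat_lit 5) (.e (nat_lit 532484) (nat_lit 0) (.e (nat_lit 7936) (nat_lit 149) (.e (nat_lit 761899) (nat_lit 15) .nil)))))))) (.g (nat_lit 1) (.e (nat_lit 172052) (nat_lit 0) .nil) .nil))) 
(.lf (nat_lit 502473) (.g (nat_lit 2719) (.e (nat_lit 163979) (nat_lit 30) (.e (nat_lit 573482) (nat_lit 13) (.e (nat_lit 65619) (nat_lit 10) (.e (nat_lit 344117) (nat_lit 21) (.e (nat_lit 516151) (nat_lit 9) (.e (nat_lit 426043) (nat_lit 0) (.e (nat_lit 2458) (nat_lit 157) (.e (nat_lit 5546) (nat_lit 306) (.e (nat_lit 2599) (nat_lit 163) .nil))))))))) (.g (nat_lit 1) (.e (nat_lit 173409) (nat_lit 0) .nil) .nil)))) 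
(.nd (nat_lit 9) 
(.lf (nat_lit 502217) (.g (nat_lit 3663) (.e (nat_lit 163979) (nat_lit 30) (.e (nat_lit 573482) (nat_lit 13) (.e (nat_lit 65604) (nat_lit 9) (.e (nat_lit 336013) (nat_lit 2) (.e (nat_lit 90170) (nat_lit 13) (.e (nat_lit 172046) (nat_lit 0) (.e (nat_lit 3403) (nat_lit 212) (.e (nat_lit 655373) (nat_lit 3) .nil)))))))) (.g (nat_lit 1) (.e (nat_lit 173104) (nat_lit 0) .nil) .nil))) 
(.lf (nat_lit 502729) (.g (nat_lit 3960) (.e (nat_lit 163979) (nat_lit 30) (.e (nat_lit 573487) (nat_lit 14) (.e (nat_lit 73753) (nat_lit 8) (.e (nat_lit 557105) (nat_lit 14) (.e (nat_lit 180252) (nat_lit 10) (.e (nat_lit 573473) (nat_lit 12) (.e (nat_lit 57504) (nat_lit 38) (.e (nat_lit 638996) (nat_lit 7) .nil)))))))) (.g (nat_lit 1) (.e (nat_lit 173837) (nat_lit 0) .nil) .nil))))))) 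
(.nd (nat_lit 6) (.nd (nat_lit 7) (.nd (nat_lit 8) (.nd (nat_lit 9) 
(.lf (nat_lit 501801) (.g (nat_lit 2865) (.e (nat_lit 163978) (nat_lit 30) (.e (nat_lit 573489) (nat_lit 14) (.e (nat_lit 73754) (nat_lit 8) (.e (nat_lit 557105) (nat_lit 14) (.e (nat_lit 180252) (nat_lit 10) (.e (nat_lit 573473) (nat_lit 12) (.e (nat_lit 57503) (nat_lit 38) (.e (nat_lit 638996) (nat_lit 7) .nil)))))))) (.g (nat_lit 1) (.e (nat_lit 171535) (nat_lit 0) .nil) .nil))) 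
(.lf (nat_lit 502313) (.g (nat_lit 3276) (.e (nat_lit 163979) (nat_lit 30) (.e (nat_lit 573482) (nat_lit 13) (.e (nat_lit 65604) (nat_lit 9) (.e (nat_lit 336028) (nat_lit 3) (.e (nat_lit 98359) (nat_lit 26) (.e (nat_lit 433920) (nat_lit 19) (.e (nat_lit 114432) (nat_lit 3) .nil))))))) (.g (nat_lit 1) (.e (nat_lit 173221) (nat_lit 0) .nil) .nil)))) (.nd (nat_lit 9) 
(.lf (nat_lit 502057) (.g (nat_lit 3348) (.e (nat_lit 163978) (nat_lit 30) (.e (nat_lit 573489) (nat_lit 14) (.e (nat_lit 73755) (nat_lit 8) (.e (nat_lit 557105) (nat_lit 14) (.e (nat_lit 180252) (nat_lit 10) (.e (nat_lit 573475) (nat_lit 12) (.e (nat_lit 57501) (nat_lit 37) (.e (nat_lit 638720) (nat_lit 7) .nil)))))))) (.g (nat_lit 1) (.e (nat_lit 172696) (nat_lit 0) .nil) .nil))) 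
(.lf (nat_lit 502569) (.g (nat_lit 2342) (.e (nat_lit 163979) (nat_lit 30) (.e (nat_lit 573482) (nat_lit 13) (.e (nat_lit 65619) (nat_lit 10) (.e (nat_lit 344117) (nat_lit 21) (.e (nat_lit 516160) (nat_lit 10) (.e (nat_lit 434270) (nat_lit 38) (.e (nat_lit 655375) (nat_lit 3) .nil))))))) (.g (nat_lit 1) (.e (nat_lit 173506) (nat_lit 0) .nil) .nil))))) (.nd (nat_lit 8) (.nd (nat_lit 9) 
(.lf (nat_lit 501929) (.g (nat_lit 3280) (.e (nat_lit 163978) (nat_lit 30) (.e (nat_lit 573489) (nat_lit 14) (.e (nat_lit 73755) (nat_lit 8) (.e (nat_lit 557103) (nat_lit 14) (.e (nat_lit 180244) (nat_lit 5) (.e (nat_lit 532489) (nat_lit 0) (.e (nat_lit 2272) (nat_lit 149) (.e (nat_lit 761899) (nat_lit 15) .nil)))))))) (.g (nat_lit 1) (.e (nat_lit 171903) (nat_lit 0) .nil) .nil))) 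
(.lf (nat_lit 502441) (.g (nat_lit 2773) (.e (nat_lit 163979) (nat_lit 30) (.e (nat_lit 573482) (nat_lit 13) (.e (nat_lit 65619) (nat_lit 10) (.e (nat_lit 344117) (nat_lit 21) (.e (nat_lit 516147) (nat_lit 9) (.e (nat_lit 426375) (nat_lit 15) (.e (nat_lit 2056) (nat_lit 142) (.e (nat_lit 704589) (nat_lit 3) .nil)))))))) (.g (nat_lit 1) (.e (nat_lit 173377) (nat_lit 0) .nil) .nil)))) 
(.nd (nat_lit 9) 
(.lf (nat_lit 502185) (.g (nat_lit 3481) (.e (nat_lit 163979) (nat_lit 30) (.e (nat_lit 573482) (nat_lit 13) (.e (nat_lit 65604) (nat_lit 9) (.e (nat_lit 336013) (nat_lit 2) (.e (nat_lit 90134) (nat_lit 9) (.e (nat_lit 2950) (nat_lit 184) (.e (nat_lit 426107) (nat_lit 1) (.e (nat_lit 164347) (nat_lit 240) (.e (nat_lit 2610) (nat_lit 163) .nil))))))))) (.g (nat_lit 1) (.e (nat_lit 173069) (nat_lit 0) .nil) .nil))) 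
(.lf (nat_lit 502697) (.g (nat_lit 2196) (.e (nat_lit 163979) (nat_lit 30) (.e (nat_lit 573487) (nat_lit 14) (.e (nat_lit 73753) (nat_lit 8) (.e (nat_lit 557103) (nat_lit 14) (.e (nat_lit 180250) (nat_lit 10) (.e (nat_lit 573475) (nat_lit 12) (.e (nat_lit 57502) (nat_lit 38) (.e (nat_lit 638994) (nat_lit 7) .nil)))))))) (.g (nat_lit 1) (.e (nat_lit 173798) (nat_lit 0) .nil) .nil)))))) 
(.nd (nat_lit 7) (.nd (nat_lit 8) (.nd (nat_lit 9) 
(.lf (nat_lit 501865) (.g (nat_lit 4226) (.e (nat_lit 163978) (nat_lit 30) (.e (nat_lit 573489) (nat_lit 14) (.e (nat_lit 73755) (nat_lit 8) (.e (nat_lit 557098) (nat_lit 13) (.e (nat_lit 172065) (nat_lit 3) (.e (nat_lit 204830) (nat_lit 18) (.e (nat_lit 57663) (nat_lit 152) (.e (nat_lit 2606) (nat_lit 163) .nil)))))))) (.g (nat_lit 1) (.e (nat_lit 171719) (nat_lit 0) .nil) .nil))) 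
(.lf (nat_lit 502377) (.g (nat_lit 4073) (.e (nat_lit 163979) (nat_lit 30) (.e (nat_lit 573482) (nat_lit 13) (.e (nat_lit 65616) (nat_lit 10) (.e (nat_lit 344117) (nat_lit 21) (.e (nat_lit 516179) (nat_lit 15) (.e (nat_lit 475199) (nat_lit 40) (.e (nat_lit 704589) (nat_lit 3) .nil))))))) (.g (nat_lit 1) (.e (nat_lit 173310) (nat_lit 0) .nil) .nil)))) (.nd (nat_lit 9) 
(.lf (nat_lit 502121) (.g (nat_lit 4853) (.e (nat_lit 163978) (nat_lit 30) (.e (nat_lit 573493) (nat_lit 15) (.e (nat_lit 81953) (nat_lit 22) (.e (nat_lit 90174) (nat_lit 14) .nil)))) (.g (nat_lit 0) (.e (nat_lit 172890) (nat_lit 0) .nil) .nil))) 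
(.lf (nat_lit 502633) (.g (nat_lit 3627) (.e (nat_lit 163979) (nat_lit 30) (.e (nat_lit 573482) (nat_lit 13) (.e (nat_lit 65619) (nat_lit 10) (.e (nat_lit 344129) (nat_lit 26) (.e (nat_lit 557065) (nat_lit 9) (.e (nat_lit 307) (nat_lit 22) (.e (nat_lit 344097) (nat_lit 18) (.e (nat_lit 4715) (nat_lit 275) (.e (nat_lit 2610) (nat_lit 163) .nil))))))))) (.g (nat_lit 1) (.e (nat_lit 173579) (nat_lit 0) .nil) .nil))))) 
(.nd (nat_lit 8) (.nd (nat_lit 9) 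
(.lf (nat_lit 501993) (.g (nat_lit 2044) (.e (nat_lit 163978) (nat_lit 30) (.e (nat_lit 573489) (nat_lit 14) (.e (nat_lit 73755) (nat_lit 8) (.e (nat_lit 557105) (nat_lit 14) (.e (nat_lit 180244) (nat_lit 5) .nil))))) (.g (nat_lit 0) (.e (nat_lit 172229) (nat_lit 0) .nil) .nil))) 
(.lf (nat_lit 502505) (.g (nat_lit 3819) (.e (nat_lit 163979) (nat_lit 30) (.e (nat_lit 573482) (nat_lit 13) (.e (nat_lit 65619) (nat_lit 10) (.e (nat_lit 344117) (nat_lit 21) (.e (nat_lit 516151) (nat_lit 9) (.e (nat_lit 426465) (nat_lit 24) (.e (nat_lit 163584) (nat_lit 3) .nil))))))) (.g (nat_lit 1) (.e (nat_lit 173441) (nat_lit 0) .nil) .nil)))) (.nd (nat_lit 9) 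
(.lf (nat_lit 502249) (.g (nat_lit 3353) (.e (nat_lit 163979) (nat_lit 30) (.e (nat_lit 573482) (nat_lit 13) (.e (nat_lit 65604) (nat_lit 9) (.e (nat_lit 336013) (nat_lit 2) (.e (nat_lit 90170) (nat_lit 13) (.e (nat_lit 172061) (nat_lit 1) (.e (nat_lit 164348) (nat_lit 240) (.e (nat_lit 2598) (nat_lit 163) .nil)))))))) (.g (nat_lit 1) (.e (nat_lit 173137) (nat_lit 0) .nil) .nil))) 
(.lf (nat_lit 502761) (.g (nat_lit 3748) (.e (nat_lit 163979) (nat_lit 30) (.e (nat_lit 573487) (nat_lit 14) (.e (nat_lit 73755) (nat_lit 8) (.e (nat_lit 557105) (nat_lit 14) (.e (nat_lit 180252) (nat_lit 10) (.e (nat_lit 573474) (nat_lit 12) (.e (nat_lit 57504) (nat_lit 38) (.e (nat_lit 638995) (nat_lit 7) .nil)))))))) (.g (nat_lit 1) (.e (nat_lit 173875) (nat_lit 0) .nil) .nil)))))))) 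
(.nd (nat_lit 5) (.nd (nat_lit 6) (.nd (nat_lit 7) (.nd (nat_lit 8) (.nd (nat_lit 9) 
(.lf (nat_lit 501785) (.g (nat_lit 2764) (.e (nat_lit 163978) (nat_lit 30) (.e (nat_lit 573489) (nat_lit 14) (.e (nat_lit 73754) (nat_lit 8) (.e (nat_lit 557101) (nat_lit 13) (.e (nat_lit 172067) (nat_lit 3) (.e (nat_lit 204817) (nat_lit 17) (.e (nat_lit 2272) (nat_lit 149) (.e (nat_lit 761897) (nat_lit 15) .nil)))))))) (.g (nat_lit 1) (.e (nat_lit 171498) (nat_lit 0) .nil) .nil))) 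
(.lf (nat_lit 502297) (.g (nat_lit 4134) (.e (nat_lit 163979) (nat_lit 30) (.e (nat_lit 573482) (nat_lit 13) (.e (nat_lit 65604) (nat_lit 9) (.e (nat_lit 336028) (nat_lit 3) (.e (nat_lit 98359) (nat_lit 26) (.e (nat_lit 426025) (nat_lit 0) (.e (nat_lit 3397) (nat_lit 211) (.e (nat_lit 647180) (nat_lit 3) .nil)))))))) (.g (nat_lit 1) (.e (nat_lit 173187) (nat_lit 0) .nil) .nil)))) (.nd (nat_lit 9) 
(.lf (nat_lit 502041) (.g (nat_lit 2235) (.e (nat_lit 163978) (nat_lit 30) (.e (nat_lit 573489) (nat_lit 14) (.e (nat_lit 73755) (nat_lit 8) (.e (nat_lit 557105) (nat_lit 14) (.e (nat_lit 180252) (nat_lit 10) (.e (nat_lit 573473) (nat_lit 12) (.e (nat_lit 57500) (nat_lit 37) (.e (nat_lit 638720) (nat_lit 7) .nil)))))))) (.g (nat_lit 1) (.e (nat_lit 172558) (nat_lit 0) .nil) .nil))) 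
(.lf (nat_lit 502553) (.g (nat_lit 4096) (.e (nat_lit 163979) (nat_lit 30) (.e (nat_lit 573482) (nat_lit 13) (.e (nat_lit 65619) (nat_lit 10) (.e (nat_lit 344117) (nat_lit 21) (.e (nat_lit 516159) (nat_lit 10) (.e (nat_lit 434272) (nat_lit 38) (.e (nat_lit 655374) (nat_lit 3) .nil))))))) (.g (nat_lit 1) (.e (nat_lit 173489) (nat_lit 0) .nil) .nil))))) (.nd (nat_lit 8) (.nd (nat_lit 9) 
(.lf (nat_lit 501913) (.g (nat_lit 2641) (.e (nat_lit 163978) (nat_lit 30) (.e (nat_lit 573489) (nat_lit 14) (.e (nat_lit 73755) (nat_lit 8) (.e (nat_lit 557101) (nat_lit 13) .nil)))) (.g (nat_lit 0) (.e (nat_lit 171848) (nat_lit 0) .nil) .nil))) 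
(.lf (nat_lit 502425) (.g (nat_lit 4755) (.e (nat_lit 163979) (nat_lit 30) (.e (nat_lit 573482) (nat_lit 13) (.e (nat_lit 65619) (nat_lit 10) (.e (nat_lit 344117) (nat_lit 21) (.e (nat_lit 516145) (nat_lit 9) (.e (nat_lit 426375) (nat_lit 15) (.e (nat_lit 2057) (nat_lit 142) (.e (nat_lit 704589) (nat_lit 3) .nil)))))))) (.g (nat_lit 1) (.e (nat_lit 173361) (nat_lit 0) .nil) .nil)))) 
(.nd (nat_lit 9) 
(.lf (nat_lit 502169) (.g (nat_lit 1195) (.e (nat_lit 163979) (nat_lit 30) (.e (nat_lit 573481) (nat_lit 13) (.e (nat_lit 65604) (nat_lit 9) (.e (nat_lit 336028) (nat_lit 3) .nil)))) (.g (nat_lit 0) (.e (nat_lit 173038) (nat_lit 0) .nil) .nil))) 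
(.lf (nat_lit 502681) (.g (nat_lit 3335) (.e (nat_lit 163979) (nat_lit 30) (.e (nat_lit 573487) (nat_lit 14) (.e (nat_lit 73753) (nat_lit 8) (.e (nat_lit 557103) (nat_lit 14) (.e (nat_lit 180243) (nat_lit 5) (.e (nat_lit 532488) (nat_lit 0) (.e (nat_lit 7936) (nat_lit 149) (.e (nat_lit 761898) (nat_lit 15) .nil)))))))) (.g (nat_lit 1) (.e (nat_lit 173746) (nat_lit 0) .nil) .nil)))))) 
(.nd (nat_lit 7) (.nd (nat_lit 8) (.nd (nat_lit 9) 
(.lf (nat_lit 501849) (.g (nat_lit 3080) (.e (nat_lit 163978) (nat_lit 30) (.e (nat_lit 573489) (nat_lit 14) (.e (nat_lit 73755) (nat_lit 8) (.e (nat_lit 557097) (nat_lit 13) (.e (nat_lit 172067) (nat_lit 3) (.e (nat_lit 204821) (nat_lit 17) (.e (nat_lit 7936) (nat_lit 149) (.e (nat_lit 761899) (nat_lit 15) .nil)))))))) (.g (nat_lit 1) (.e (nat_lit 171649) (nat_lit 0) .nil) .nil))) 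
(.lf (nat_lit 502361) (.g (nat_lit 572) (.e (nat_lit 163979) (nat_lit 30) (.e (nat_lit 573482) (nat_lit 13) (.e (nat_lit 65607) (nat_lit 9) .nil))) (.g (nat_lit 0) (.e (nat_lit 173294) (nat_lit 0) .nil) .nil)))) (.nd (nat_lit 9) 
(.lf (nat_lit 502105) (.g (nat_lit 4449) (.e (nat_lit 163978) (nat_lit 30) (.e (nat_lit 573492) (nat_lit 15) (.e (nat_lit 81956) (nat_lit 23) (.e (nat_lit 98366) (nat_lit 27) .nil)))) (.g (nat_lit 0) (.e (nat_lit 172781) (nat_lit 0) .nil) .nil))) 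
(.lf (nat_lit 502617) (.g (nat_lit 3007) (.e (nat_lit 163979) (nat_lit 30) (.e (nat_lit 573482) (nat_lit 13) (.e (nat_lit 65619) (nat_lit 10) (.e (nat_lit 344117) (nat_lit 21) (.e (nat_lit 516180) (nat_lit 15) (.e (nat_lit 475200) (nat_lit 40) (.e (nat_lit 712448) (nat_lit 3) .nil))))))) (.g (nat_lit 1) (.e (nat_lit 173557) (nat_lit 0) .nil) .nil))))) (.nd (nat_lit 8) (.nd (nat_lit 9) 
(.lf (nat_lit 501977) (.g (nat_lit 5388) (.e (nat_lit 163978) (nat_lit 30) (.e (nat_lit 573489) (nat_lit 14) (.e (nat_lit 73755) (nat_lit 8) (.e (nat_lit 557104) (nat_lit 14) (.e (nat_lit 180244) (nat_lit 5) (.e (nat_lit 532504) (nat_lit 1) (.e (nat_lit 57663) (nat_lit 152) (.e (nat_lit 2612) (nat_lit 163) .nil)))))))) (.g (nat_lit 1) (.e (nat_lit 172150) (nat_lit 0) .nil) .nil))) 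
(.lf (nat_lit 502489) (.g (nat_lit 4298) (.e (nat_lit 163979) (nat_lit 30) (.e (nat_lit 573482) (nat_lit 13) (.e (nat_lit 65619) (nat_lit 10) (.e (nat_lit 344117) (nat_lit 21) (.e (nat_lit 516151) (nat_lit 9) (.e (nat_lit 426104) (nat_lit 1) (.e (nat_lit 164347) (nat_lit 240) (.e (nat_lit 2599) (nat_lit 163) .nil)))))))) (.g (nat_lit 1) (.e (nat_lit 173425) (nat_lit 0) .nil) .nil)))) 
(.nd (nat_lit 9) 
(.lf (nat_lit 502233) (.g (nat_lit 2460) (.e (nat_lit 163979) (nat_lit 30) (.e (nat_lit 573482) (nat_lit 13) (.e (nat_lit 65604) (nat_lit 9) (.e (nat_lit 336013) (nat_lit 2) (.e (nat_lit 90170) (nat_lit 13) (.e (nat_lit 172059) (nat_lit 1) (.e (nat_lit 164347) (nat_lit 240) (.e (nat_lit 2598) (nat_lit 163) .nil)))))))) (.g (nat_lit 1) (.e (nat_lit 173121) (nat_lit 0) .nil) .nil))) 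
(.lf (nat_lit 502745) (.g (nat_lit 2899) (.e (nat_lit 163979) (nat_lit 30) (.e (nat_lit 573487) (nat_lit 14) (.e (nat_lit 73754) (nat_lit 8) (.e (nat_lit 557105) (nat_lit 14) (.e (nat_lit 180252) (nat_lit 10) (.e (nat_lit 573473) (nat_lit 12) (.e (nat_lit 57503) (nat_lit 38) (.e (nat_lit 638996) (nat_lit 7) .nil)))))))) (.g (nat_lit 1) (.e (nat_lit 173857) (nat_lit 0) .nil) .nil))))))) 
(.nd (nat_lit 6) (.nd (nat_lit 7) (.nd (nat_lit 8) (.nd (nat_lit 9) 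
(.lf (nat_lit 501817) (.g (nat_lit 3579) (.e (nat_lit 163978) (nat_lit 30) (.e (nat_lit 573489) (nat_lit 14) (.e (nat_lit 73755) (nat_lit 8) (.e (nat_lit 557096) (nat_lit 13) (.e (nat_lit 172067) (nat_lit 3) (.e (nat_lit 204817) (nat_lit 17) (.e (nat_lit 2272) (nat_lit 149) (.e (nat_lit 761897) (nat_lit 15) .nil)))))))) (.g (nat_lit 1) (.e (nat_lit 171589) (nat_lit 0) .nil) .nil))) 
(.lf (nat_lit 502329) (.g (nat_lit 4101) (.e (nat_lit 163979) (nat_lit 30) (.e (nat_lit 573482) (nat_lit 13) (.e (nat_lit 65604) (nat_lit 9) (.e (nat_lit 336028) (nat_lit 3) (.e (nat_lit 98365) (nat_lit 26) (.e (nat_lit 426107) (nat_lit 1) (.e (nat_lit 164347) (nat_lit 240) (.e (nat_lit 2610) (nat_lit 163) .nil)))))))) (.g (nat_lit 1) (.e (nat_lit 173240) (nat_lit 0) .nil) .nil)))) 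
(.nd (nat_lit 9) 
(.lf (nat_lit 502073) (.g (nat_lit 2946) (.e (nat_lit 163978) (nat_lit 30) (.e (nat_lit 573490) (nat_lit 15) (.e (nat_lit 81955) (nat_lit 23) (.e (nat_lit 98366) (nat_lit 27) (.e (nat_lit 434272) (nat_lit 38) (.e (nat_lit 655375) (nat_lit 3) .nil)))))) (.g (nat_lit 1) (.e (nat_lit 172719) (nat_lit 0) .nil) .nil))) 
(.lf (nat_lit 502585) (.g (nat_lit 2233) (.e (nat_lit 163979) (nat_lit 30) (.e (nat_lit 573482) (nat_lit 13) (.e (nat_lit 65619) (nat_lit 10) (.e (nat_lit 344117) (nat_lit 21) (.e (nat_lit 516169) (nat_lit 13) .nil))))) (.g (nat_lit 0) (.e (nat_lit 173522) (nat_lit 0) .nil) .nil))))) (.nd (nat_lit 8) (.nd (nat_lit 9) 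
(.lf (nat_lit 501945) (.g (nat_lit 3112) (.e (nat_lit 163978) (nat_lit 30) (.e (nat_lit 573489) (nat_lit 14) (.e (nat_lit 73755) (nat_lit 8) (.e (nat_lit 557103) (nat_lit 14) (.e (nat_lit 180250) (nat_lit 10) (.e (nat_lit 573473) (nat_lit 12) (.e (nat_lit 57504) (nat_lit 38) (.e (nat_lit 638996) (nat_lit 7) .nil)))))))) (.g (nat_lit 1) (.e (nat_lit 172017) (nat_lit 0) .nil) .nil))) 
(.lf (nat_lit 502457) (.g (nat_lit 4159) (.e (nat_lit 163979) (nat_lit 30) (.e (nat_lit 573482) (nat_lit 13) (.e (nat_lit 65619) (nat_lit 10) (.e (nat_lit 344117) (nat_lit 21) (.e (nat_lit 516151) (nat_lit 9) (.e (nat_lit 426025) (nat_lit 0) (.e (nat_lit 3399) (nat_lit 211) (.e (nat_lit 647180) (nat_lit 3) .nil)))))))) (.g (nat_lit 1) (.e (nat_lit 173393) (nat_lit 0) .nil) .nil)))) 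
(.nd (nat_lit 9) 
(.lf (nat_lit 502201) (.g (nat_lit 3526) (.e (nat_lit 163979) (nat_lit 30) (.e (nat_lit 573482) (nat_lit 13) (.e (nat_lit 65604) (nat_lit 9) (.e (nat_lit 336013) (nat_lit 2) (.e (nat_lit 90170) (nat_lit 13) (.e (nat_lit 172035) (nat_lit 0) (.e (nat_lit 3399) (nat_lit 211) (.e (nat_lit 647180) (nat_lit 3) .nil)))))))) (.g (nat_lit 1) (.e (nat_lit 173085) (nat_lit 0) .nil) .nil))) 
(.lf (nat_lit 502713) (.g (nat_lit 3713) (.e (nat_lit 163979) (nat_lit 30) (.e (nat_lit 573487) (nat_lit 14) (.e (nat_lit 73753) (nat_lit 8) (.e (nat_lit 557103) (nat_lit 14) (.e (nat_lit 180251) (nat_lit 10) (.e (nat_lit 573475) (nat_lit 12) (.e (nat_lit 57503) (nat_lit 38) (.e (nat_lit 638996) (nat_lit 7) .nil)))))))) (.g (nat_lit 1) (.e (nat_lit 173816) (nat_lit 0) .nil) .nil)))))) 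
(.nd (nat_lit 7) (.nd (nat_lit 8) (.nd (nat_lit 9) 
(.lf (nat_lit 501881) (.g (nat_lit 4436) (.e (nat_lit 163978) (nat_lit 30) (.e (nat_lit 573489) (nat_lit 14) (.e (nat_lit 73755) (nat_lit 8) (.e (nat_lit 557098) (nat_lit 13) (.e (nat_lit 172066) (nat_lit 3) (.e (nat_lit 204830) (nat_lit 18) (.e (nat_lit 57663) (nat_lit 152) (.e (nat_lit 2612) (nat_lit 163) .nil)))))))) (.g (nat_lit 1) (.e (nat_lit 171761) (nat_lit 0) .nil) .nil))) 
(.lf (nat_lit 502393) (.g (nat_lit 3119) (.e (nat_lit 163979) (nat_lit 30) (.e (nat_lit 573482) (nat_lit 13) (.e (nat_lit 65619) (nat_lit 10) (.e (nat_lit 344117) (nat_lit 21) (.e (nat_lit 516143) (nat_lit 9) (.e (nat_lit 426109) (nat_lit 1) (.e (nat_lit 164346) (nat_lit 240) (.e (nat_lit 2598) (nat_lit 163) .nil)))))))) (.g (nat_lit 1) (.e (nat_lit 173329) (nat_lit 0) .nil) .nil)))) 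
(.nd (nat_lit 9) 
(.lf (nat_lit 502137) (.g (nat_lit 3692) (.e (nat_lit 163978) (nat_lit 30) (.e (nat_lit 573493) (nat_lit 15) (.e (nat_lit 81956) (nat_lit 23) (.e (nat_lit 98354) (nat_lit 26) .nil)))) (.g (nat_lit 0) (.e (nat_lit 172919) (nat_lit 0) .nil) .nil))) 
(.lf (nat_lit 502649) (.g (nat_lit 1373) (.e (nat_lit 163979) (nat_lit 30) (.e (nat_lit 573485) (nat_lit 13) (.e (nat_lit 65604) (nat_lit 9) (.e (nat_lit 336028) (nat_lit 3) .nil)))) (.g (nat_lit 0) (.e (nat_lit 173625) (nat_lit 0) .nil) .nil))))) (.nd (nat_lit 8) (.nd (nat_lit 9) 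
(.lf (nat_lit 502009) (.g (nat_lit 2656) (.e (nat_lit 163978) (nat_lit 30) (.e (nat_lit 573489) (nat_lit 14) (.e (nat_lit 73755) (nat_lit 8) (.e (nat_lit 557105) (nat_lit 14) (.e (nat_lit 180245) (nat_lit 5) (.e (nat_lit 532486) (nat_lit 0) (.e (nat_lit 7936) (nat_lit 149) (.e (nat_lit 761898) (nat_lit 15) .nil)))))))) (.g (nat_lit 1) (.e (nat_lit 172295) (nat_lit 0) .nil) .nil))) 
(.lf (nat_lit 502521) (.g (nat_lit 2613) (.e (nat_lit 163979) (nat_lit 30) (.e (nat_lit 573482) (nat_lit 13) (.e (nat_lit 65619) (nat_lit 10) (.e (nat_lit 344117) (nat_lit 21) (.e (nat_lit 516153) (nat_lit 9) (.e (nat_lit 426025) (nat_lit 0) (.e (nat_lit 3397) (nat_lit 211) (.e (nat_lit 647180) (nat_lit 3) .nil)))))))) (.g (nat_lit 1) (.e (nat_lit 173457) (nat_lit 0) .nil) .nil)))) 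
(.nd (nat_lit 9) 
(.lf (nat_lit 502265) (.g (nat_lit 3019) (.e (nat_lit 163979) (nat_lit 30) (.e (nat_lit 573482) (nat_lit 13) (.e (nat_lit 65604) (nat_lit 9) (.e (nat_lit 336013) (nat_lit 2) (.e (nat_lit 90170) (nat_lit 13) (.e (nat_lit 172070) (nat_lit 4) (.e (nat_lit 229665) (nat_lit 240) (.e (nat_lit 2598) (nat_lit 163) .nil)))))))) (.g (nat_lit 1) (.e (nat_lit 173153) (nat_lit 0) .nil) .nil))) 
(.lf (nat_lit 502777) (.g (nat_lit 2323) (.e (nat_lit 163979) (nat_lit 30) (.e (nat_lit 573488) (nat_lit 14) (.e (nat_lit 73753) (nat_lit 8) (.e (nat_lit 557105) (nat_lit 14) (.e (nat_lit 180252) (nat_lit 10) .nil))))) (.g (nat_lit 0) (.e (nat_lit 173902) (nat_lit 0) .nil) .nil)))))))))) 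
(.nd (nat_lit 3) (.nd (nat_lit 4) (.nd (nat_lit 5) (.nd (nat_lit 6) (.nd (nat_lit 7) 
(.nd (nat_lit 8) (.nd (nat_lit 9) 
(.lf (nat_lit 501765) (.g (nat_lit 3855) (.e (nat_lit 163978) (nat_lit 30) (.e (nat_lit 573489) (nat_lit 14) (.e (nat_lit 73754) (nat_lit 8) (.e (nat_lit 557100) (nat_lit 13) (.e (nat_lit 172138) (nat_lit 15) (.e (nat_lit 1800) (nat_lit 119) (.e (nat_lit 516117) (nat_lit 1) (.e (nat_lit 164305) (nat_lit 226) (.e (nat_lit 2612) (nat_lit 163) .nil))))))))) (.g (nat_lit 1) (.e (nat_lit 171447) (nat_lit 0) .nil) .nil))) 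
(.lf (nat_lit 502277) (.g (nat_lit 4381) (.e (nat_lit 163979) (nat_lit 30) (.e (nat_lit 573482) (nat_lit 13) (.e (nat_lit 65604) (nat_lit 9) (.e (nat_lit 336013) (nat_lit 2) (.e (nat_lit 90185) (nat_lit 17) .nil))))) (.g (nat_lit 0) (.e (nat_lit 173165) (nat_lit 0) .nil) .nil)))) (.nd (nat_lit 9) 
(.lf (nat_lit 502021) (.g (nat_lit 3934) (.e (nat_lit 163978) (nat_lit 30) (.e (nat_lit 573489) (nat_lit 14) (.e (nat_lit 73755) (nat_lit 8) (.e (nat_lit 557105) (nat_lit 14) (.e (nat_lit 180245) (nat_lit 5) (.e (nat_lit 532501) (nat_lit 1) (.e (nat_lit 57663) (nat_lit 152) (.e (nat_lit 2612) (nat_lit 163) .nil)))))))) (.g (nat_lit 1) (.e (nat_lit 172357) (nat_lit 0) .nil) .nil))) 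
(.lf (nat_lit 502533) (.g (nat_lit 2340) (.e (nat_lit 163979) (nat_lit 30) (.e (nat_lit 573482) (nat_lit 13) (.e (nat_lit 65619) (nat_lit 10) (.e (nat_lit 344117) (nat_lit 21) (.e (nat_lit 524032) (nat_lit 9) (.e (nat_lit 426107) (nat_lit 1) (.e (nat_lit 164347) (nat_lit 240) (.e (nat_lit 2599) (nat_lit 163) .nil)))))))) (.g (nat_lit 1) (.e (nat_lit 173469) (nat_lit 0) .nil) .nil))))) 
(.nd (nat_lit 8) (.nd (nat_lit 9) 
(.lf (nat_lit 501893) (.g (nat_lit 2751) (.e (nat_lit 163978) (nat_lit 30) (.e (nat_lit 573489) (nat_lit 14) (.e (nat_lit 73755) (nat_lit 8) (.e (nat_lit 557098) (nat_lit 13) (.e (nat_lit 172067) (nat_lit 3) (.e (nat_lit 204817) (nat_lit 17) (.e (nat_lit 2271) (nat_lit 149) (.e (nat_lit 761899) (nat_lit 15) .nil)))))))) (.g (nat_lit 1) (.e (nat_lit 171784) (nat_lit 0) .nil) .nil))) 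
(.lf (nat_lit 502405) (.g (nat_lit 3921) (.e (nat_lit 163979) (nat_lit 30) (.e (nat_lit 573482) (nat_lit 13) (.e (nat_lit 65619) (nat_lit 10) (.e (nat_lit 344117) (nat_lit 21) (.e (nat_lit 516144) (nat_lit 9) (.e (nat_lit 426376) (nat_lit 15) (.e (nat_lit 2059) (nat_lit 142) (.e (nat_lit 704589) (nat_lit 3) .nil)))))))) (.g (nat_lit 1) (.e (nat_lit 173341) (nat_lit 0) .nil) .nil)))) 
(.nd (nat_lit 9) 
(.lf (nat_lit 502149) (.g (nat_lit 3191) (.e (nat_lit 163978) (nat_lit 30) (.e (nat_lit 573493) (nat_lit 15) (.e (nat_lit 81956) (nat_lit 23) (.e (nat_lit 98366) (nat_lit 27) (.e (nat_lit 434271) (nat_lit 38) (.e (nat_lit 655375) (nat_lit 3) .nil)))))) (.g (nat_lit 1) (.e (nat_lit 172932) (nat_lit 0) .nil) .nil))) 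
(.lf (nat_lit 502661) (.g (nat_lit 2804) (.e (nat_lit 163979) (nat_lit 30) (.e (nat_lit 573487) (nat_lit 14) (.e (nat_lit 73753) (nat_lit 8) (.e (nat_lit 557098) (nat_lit 13) (.e (nat_lit 172066) (nat_lit 3) (.e (nat_lit 204821) (nat_lit 17) (.e (nat_lit 2270) (nat_lit 149) (.e (nat_lit 761898) (nat_lit 15) .nil)))))))) (.g (nat_lit 1) (.e (nat_lit 173672) (nat_lit 0) .nil) .nil)))))) 
(.nd (nat_lit 7) (.nd (nat_lit 8) (.nd (nat_lit 9) 
(.lf (nat_lit 501829) (.g (nat_lit 3802) (.e (nat_lit 163978) (nat_lit 30) (.e (nat_lit 573489) (nat_lit 14) (.e (nat_lit 73755) (nat_lit 8) (.e (nat_lit 557097) (nat_lit 13) (.e (nat_lit 172065) (nat_lit 3) (.e (nat_lit 204830) (nat_lit 18) (.e (nat_lit 57663) (nat_lit 152) (.e (nat_lit 2606) (nat_lit 163) .nil)))))))) (.g (nat_lit 1) (.e (nat_lit 171619) (nat_lit 0) .nil) .nil))) 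
(.lf (nat_lit 502341) (.g (nat_lit 2648) (.e (nat_lit 163979) (nat_lit 30) (.e (nat_lit 573482) (nat_lit 13) (.e (nat_lit 65604) (nat_lit 9) (.e (nat_lit 336028) (nat_lit 3) (.e (nat_lit 98367) (nat_lit 27) (.e (nat_lit 434208) (nat_lit 18) (.e (nat_lit 5537) (nat_lit 306) (.e (nat_lit 2611) (nat_lit 163) .nil)))))))) (.g (nat_lit 1) (.e (nat_lit 173265) (nat_lit 0) .nil) .nil)))) 
(.nd (nat_lit 9) 
(.lf (nat_lit 502085) (.g (nat_lit 2555) (.e (nat_lit 163978) (nat_lit 30) (.e (nat_lit 573491) (nat_lit 15) (.e (nat_lit 81951) (nat_lit 22) (.e (nat_lit 90170) (nat_lit 13) (.e (nat_lit 172042) (nat_lit 0) (.e (nat_lit 3407) (nat_lit 212) (.e (nat_lit 655375) (nat_lit 3) .nil))))))) (.g (nat_lit 1) (.e (nat_lit 172754) (nat_lit 0) .nil) .nil))) 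
(.lf (nat_lit 502597) (.g (nat_lit 3417) (.e (nat_lit 163979) (nat_lit 30) (.e (nat_lit 573482) (nat_lit 13) (.e (nat_lit 65619) (nat_lit 10) (.e (nat_lit 344117) (nat_lit 21) (.e (nat_lit 516170) (nat_lit 13) (.e (nat_lit 458804) (nat_lit 38) (.e (nat_lit 655373) (nat_lit 3) .nil))))))) (.g (nat_lit 1) (.e (nat_lit 173537) (nat_lit 0) .nil) .nil))))) (.nd (nat_lit 8) (.nd (nat_lit 9) 
(.lf (nat_lit 501957) (.g (nat_lit 4010) (.e (nat_lit 163978) (nat_lit 30) (.e (nat_lit 573489) (nat_lit 14) (.e (nat_lit 73755) (nat_lit 8) (.e (nat_lit 557104) (nat_lit 14) (.e (nat_lit 180244) (nat_lit 5) (.e (nat_lit 532484) (nat_lit 0) (.e (nat_lit 2272) (nat_lit 149) (.e (nat_lit 761899) (nat_lit 15) .nil)))))))) (.g (nat_lit 1) (.e (nat_lit 172046) (nat_lit 0) .nil) .nil))) 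
(.lf (nat_lit 502469) (.g (nat_lit 3883) (.e (nat_lit 163979) (nat_lit 30) (.e (nat_lit 573482) (nat_lit 13) (.e (nat_lit 65619) (nat_lit 10) (.e (nat_lit 344117) (nat_lit 21) (.e (nat_lit 516151) (nat_lit 9) (.e (nat_lit 426042) (nat_lit 0) (.e (nat_lit 3406) (nat_lit 212) (.e (nat_lit 655373) (nat_lit 3) .nil)))))))) (.g (nat_lit 1) (.e (nat_lit 173405) (nat_lit 0) .nil) .nil)))) 
(.nd (nat_lit 9) 
(.lf (nat_lit 502213) (.g (nat_lit 3633) (.e (nat_lit 163979) (nat_lit 30) (.e (nat_lit 573482) (nat_lit 13) (.e (nat_lit 65604) (nat_lit 9) (.e (nat_lit 336013) (nat_lit 2) (.e (nat_lit 90170) (nat_lit 13) (.e (nat_lit 172046) (nat_lit 0) (.e (nat_lit 2458) (nat_lit 157) (.e (nat_lit 5548) (nat_lit 306) (.e (nat_lit 2601) (nat_lit 163) .nil))))))))) (.g (nat_lit 1) (.e (nat_lit 173100) (nat_lit 0) .nil) .nil))) 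
(.lf (nat_lit 502725) (.g (nat_lit 2781) (.e (nat_lit 163979) (nat_lit 30) (.e (nat_lit 573487) (nat_lit 14) (.e (nat_lit 73753) (nat_lit 8) (.e (nat_lit 557105) (nat_lit 14) (.e (nat_lit 180252) (nat_lit 10) (.e (nat_lit 573473) (nat_lit 12) (.e (nat_lit 57503) (nat_lit 38) (.e (nat_lit 638994) (nat_lit 7) .nil)))))))) (.g (nat_lit 1) (.e (nat_lit 173833) (nat_lit 0) .nil) .nil))))))) 
(.nd (nat_lit 6) (.nd (nat_lit 7) (.nd (nat_lit 8) (.nd (nat_lit 9) 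
(.lf (nat_lit 501797) (.g (nat_lit 2975) (.e (nat_lit 163978) (nat_lit 30) (.e (nat_lit 573489) (nat_lit 14) (.e (nat_lit 73754) (nat_lit 8) (.e (nat_lit 557103) (nat_lit 14) (.e (nat_lit 180244) (nat_lit 5) .nil))))) (.g (nat_lit 0) (.e (nat_lit 171528) (nat_lit 0) .nil) .nil))) 
(.lf (nat_lit 502309) (.g (nat_lit 2386) (.e (nat_lit 163979) (nat_lit 30) (.e (nat_lit 573482) (nat_lit 13) (.e (nat_lit 65604) (nat_lit 9) (.e (nat_lit 336028) (nat_lit 3) (.e (nat_lit 98359) (nat_lit 26) (.e (nat_lit 426104) (nat_lit 1) (.e (nat_lit 164347) (nat_lit 240) (.e (nat_lit 2601) (nat_lit 163) .nil)))))))) (.g (nat_lit 1) (.e (nat_lit 173212) (nat_lit 0) .nil) .nil)))) 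
(.nd (nat_lit 9) 
(.lf (nat_lit 502053) (.g (nat_lit 4671) (.e (nat_lit 163978) (nat_lit 30) (.e (nat_lit 573489) (nat_lit 14) (.e (nat_lit 73755) (nat_lit 8) (.e (nat_lit 557105) (nat_lit 14) (.e (nat_lit 180252) (nat_lit 10) (.e (nat_lit 573475) (nat_lit 12) (.e (nat_lit 57500) (nat_lit 37) (.e (nat_lit 630800) (nat_lit 7) .nil)))))))) (.g (nat_lit 1) (.e (nat_lit 172692) (nat_lit 0) .nil) .nil))) 
(.lf (nat_lit 502565) (.g (nat_lit 3373) (.e (nat_lit 163979) (nat_lit 30) (.e (nat_lit 573482) (nat_lit 13) (.e (nat_lit 65619) (nat_lit 10) (.e (nat_lit 344117) (nat_lit 21) (.e (nat_lit 516160) (nat_lit 10) (.e (nat_lit 434209) (nat_lit 18) (.e (nat_lit 5548) (nat_lit 306) (.e (nat_lit 2598) (nat_lit 163) .nil)))))))) (.g (nat_lit 1) (.e (nat_lit 173502) (nat_lit 0) .nil) .nil))))) 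
(.nd (nat_lit 8) (.nd (nat_lit 9) 
(.lf (nat_lit 501925) (.g (nat_lit 5707) (.e (nat_lit 163978) (nat_lit 30) (.e (nat_lit 573489) (nat_lit 14) (.e (nat_lit 73755) (nat_lit 8) (.e (nat_lit 557103) (nat_lit 14) (.e (nat_lit 180244) (nat_lit 5) (.e (nat_lit 532481) (nat_lit 0) (.e (nat_lit 2271) (nat_lit 149) (.e (nat_lit 761898) (nat_lit 15) .nil)))))))) (.g (nat_lit 1) (.e (nat_lit 171897) (nat_lit 0) .nil) .nil))) 
(.lf (nat_lit 502437) (.g (nat_lit 2594) (.e (nat_lit 163979) (nat_lit 30) (.e (nat_lit 573482) (nat_lit 13) (.e (nat_lit 65619) (nat_lit 10) (.e (nat_lit 344117) (nat_lit 21) (.e (nat_lit 516145) (nat_lit 9) (.e (nat_lit 426442) (nat_lit 19) (.e (nat_lit 114432) (nat_lit 3) .nil))))))) (.g (nat_lit 1) (.e (nat_lit 173373) (nat_lit 0) .nil) .nil)))) (.nd (nat_lit 9) 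
(.lf (nat_lit 502181) (.g (nat_lit 3671) (.e (nat_lit 163979) (nat_lit 30) (.e (nat_lit 573482) (nat_lit 13) (.e (nat_lit 65598) (nat_lit 9) (.e (nat_lit 336013) (nat_lit 2) (.e (nat_lit 90168) (nat_lit 13) (.e (nat_lit 172133) (nat_lit 15) (.e (nat_lit 2059) (nat_lit 142) (.e (nat_lit 704589) (nat_lit 3) .nil)))))))) (.g (nat_lit 1) (.e (nat_lit 173063) (nat_lit 0) .nil) .nil))) 
(.lf (nat_lit 502693) (.g (nat_lit 3916) (.e (nat_lit 163979) (nat_lit 30) (.e (nat_lit 573487) (nat_lit 14) (.e (nat_lit 73753) (nat_lit 8) (.e (nat_lit 557103) (nat_lit 14) (.e (nat_lit 180250) (nat_lit 10) (.e (nat_lit 573473) (nat_lit 12) (.e (nat_lit 57504) (nat_lit 38) (.e (nat_lit 638996) (nat_lit 7) .nil)))))))) (.g (nat_lit 1) (.e (nat_lit 173793) (nat_lit 0) .nil) .nil)))))) 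
(.nd (nat_lit 7) (.nd (nat_lit 8) (.nd (nat_lit 9) 
(.lf (nat_lit 501861) (.g (nat_lit 3944) (.e (nat_lit 163978) (nat_lit 30) (.e (nat_lit 573489) (nat_lit 14) (.e (nat_lit 73755) (nat_lit 8) (.e (nat_lit 557098) (nat_lit 13) (.e (nat_lit 172065) (nat_lit 3) (.e (nat_lit 204821) (nat_lit 17) (.e (nat_lit 2264) (nat_lit 149) (.e (nat_lit 761899) (nat_lit 15) .nil)))))))) (.g (nat_lit 1) (.e (nat_lit 171713) (nat_lit 0) .nil) .nil))) 
(.lf (nat_lit 502373) (.g (nat_lit 2005) (.e (nat_lit 163979) (nat_lit 30) (.e (nat_lit 573482) (nat_lit 13) (.e (nat_lit 65613) (nat_lit 10) (.e (nat_lit 344119) (nat_lit 21) (.e (nat_lit 516182) (nat_lit 15) (.e (nat_lit 475199) (nat_lit 40) (.e (nat_lit 704589) (nat_lit 3) .nil))))))) (.g (nat_lit 1) (.e (nat_lit 173306) (nat_lit 0) .nil) .nil)))) (.nd (nat_lit 9) 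
(.lf (nat_lit 502117) (.g (nat_lit 2611) (.e (nat_lit 163978) (nat_lit 30) (.e (nat_lit 573493) (nat_lit 15) (.e (nat_lit 81953) (nat_lit 22) (.e (nat_lit 90170) (nat_lit 13) (.e (nat_lit 172046) (nat_lit 0) .nil))))) (.g (nat_lit 0) (.e (nat_lit 172886) (nat_lit 0) .nil) .nil))) 
(.lf (nat_lit 502629) (.g (nat_lit 3486) (.e (nat_lit 163979) (nat_lit 30) (.e (nat_lit 573482) (nat_lit 13) (.e (nat_lit 65619) (nat_lit 10) (.e (nat_lit 344119) (nat_lit 21) (.e (nat_lit 516179) (nat_lit 15) (.e (nat_lit 475198) (nat_lit 40) (.e (nat_lit 704589) (nat_lit 3) .nil))))))) (.g (nat_lit 1) (.e (nat_lit 173569) (nat_lit 0) .nil) .nil))))) (.nd (nat_lit 8) (.nd (nat_lit 9) 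
(.lf (nat_lit 501989) (.g (nat_lit 2071) (.e (nat_lit 163978) (nat_lit 30) (.e (nat_lit 573489) (nat_lit 14) (.e (nat_lit 73755) (nat_lit 8) (.e (nat_lit 557105) (nat_lit 14) (.e (nat_lit 180243) (nat_lit 5) .nil))))) (.g (nat_lit 0) (.e (nat_lit 172221) (nat_lit 0) .nil) .nil))) 
(.lf (nat_lit 502501) (.g (nat_lit 4631) (.e (nat_lit 163979) (nat_lit 30) (.e (nat_lit 573482) (nat_lit 13) (.e (nat_lit 65619) (nat_lit 10) (.e (nat_lit 344117) (nat_lit 21) (.e (nat_lit 516151) (nat_lit 9) (.e (nat_lit 426414) (nat_lit 15) (.e (nat_lit 2059) (nat_lit 142) (.e (nat_lit 704589) (nat_lit 3) .nil)))))))) (.g (nat_lit 1) (.e (nat_lit 173437) (nat_lit 0) .nil) .nil)))) 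
(.nd (nat_lit 9) 
(.lf (nat_lit 502245) (.g (nat_lit 3154) (.e (nat_lit 163979) (nat_lit 30) (.e (nat_lit 573482) (nat_lit 13) (.e (nat_lit 65604) (nat_lit 9) (.e (nat_lit 336013) (nat_lit 2) (.e (nat_lit 90170) (nat_lit 13) (.e (nat_lit 172061) (nat_lit 1) (.e (nat_lit 164346) (nat_lit 240) (.e (nat_lit 2598) (nat_lit 163) .nil)))))))) (.g (nat_lit 1) (.e (nat_lit 173133) (nat_lit 0) .nil) .nil))) 
(.lf (nat_lit 502757) (.g (nat_lit 2494) (.e (nat_lit 163979) (nat_lit 30) (.e (nat_lit 573487) (nat_lit 14) (.e (nat_lit 73755) (nat_lit 8) (.e (nat_lit 557105) (nat_lit 14) (.e (nat_lit 180252) (nat_lit 10) .nil))))) (.g (nat_lit 0) (.e (nat_lit 173871) (nat_lit 0) .nil) .nil)))))))) (.nd (nat_lit 5) (.nd (nat_lit 6) (.nd (nat_lit 7) (.nd (nat_lit 8) (.nd (nat_lit 9) 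
(.lf (nat_lit 501781) (.g (nat_lit 2587) (.e (nat_lit 163978) (nat_lit 30) (.e (nat_lit 573489) (nat_lit 14) (.e (nat_lit 73754) (nat_lit 8) (.e (nat_lit 557101) (nat_lit 13) (.e (nat_lit 172066) (nat_lit 3) (.e (nat_lit 204817) (nat_lit 17) (.e (nat_lit 2272) (nat_lit 149) (.e (nat_lit 761897) (nat_lit 15) .nil)))))))) (.g (nat_lit 1) (.e (nat_lit 171485) (nat_lit 0) .nil) .nil))) 
(.lf (nat_lit 502293) (.g (nat_lit 3544) (.e (nat_lit 163979) (nat_lit 30) (.e (nat_lit 573482) (nat_lit 13) (.e (nat_lit 65604) (nat_lit 9) (.e (nat_lit 336028) (nat_lit 3) (.e (nat_lit 98359) (nat_lit 26) (.e (nat_lit 426022) (nat_lit 0) (.e (nat_lit 3397) (nat_lit 211) (.e (nat_lit 647180) (nat_lit 3) .nil)))))))) (.g (nat_lit 1) (.e (nat_lit 173183) (nat_lit 0) .nil) .nil)))) (.nd (nat_lit 9) 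
(.lf (nat_lit 502037) (.g (nat_lit 2352) (.e (nat_lit 163978) (nat_lit 30) (.e (nat_lit 573489) (nat_lit 14) (.e (nat_lit 73755) (nat_lit 8) (.e (nat_lit 557105) (nat_lit 14) (.e (nat_lit 180251) (nat_lit 10) (.e (nat_lit 573477) (nat_lit 12) (.e (nat_lit 57500) (nat_lit 37) (.e (nat_lit 630800) (nat_lit 7) .nil)))))))) (.g (nat_lit 1) (.e (nat_lit 172440) (nat_lit 0) .nil) .nil))) 
(.lf (nat_lit 502549) (.g (nat_lit 2678) (.e (nat_lit 163979) (nat_lit 30) (.e (nat_lit 573482) (nat_lit 13) (.e (nat_lit 65619) (nat_lit 10) (.e (nat_lit 344117) (nat_lit 21) (.e (nat_lit 516159) (nat_lit 10) (.e (nat_lit 434270) (nat_lit 38) (.e (nat_lit 655373) (nat_lit 3) .nil))))))) (.g (nat_lit 1) (.e (nat_lit 173485) (nat_lit 0) .nil) .nil))))) (.nd (nat_lit 8) (.nd (nat_lit 9) 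
(.lf (nat_lit 501909) (.g (nat_lit 3984) (.e (nat_lit 163978) (nat_lit 30) (.e (nat_lit 573489) (nat_lit 14) (.e (nat_lit 73755) (nat_lit 8) (.e (nat_lit 557100) (nat_lit 13) (.e (nat_lit 172065) (nat_lit 3) (.e (nat_lit 204817) (nat_lit 17) (.e (nat_lit 7936) (nat_lit 149) (.e (nat_lit 761898) (nat_lit 15) .nil)))))))) (.g (nat_lit 1) (.e (nat_lit 171842) (nat_lit 0) .nil) .nil))) 
(.lf (nat_lit 502421) (.g (nat_lit 4709) (.e (nat_lit 163979) (nat_lit 30) (.e (nat_lit 573482) (nat_lit 13) (.e (nat_lit 65619) (nat_lit 10) (.e (nat_lit 344117) (nat_lit 21) (.e (nat_lit 516145) (nat_lit 9) (.e (nat_lit 426352) (nat_lit 15) (.e (nat_lit 7936) (nat_lit 142) (.e (nat_lit 704589) (nat_lit 3) .nil)))))))) (.g (nat_lit 1) (.e (nat_lit 173357) (nat_lit 0) .nil) .nil)))) 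
(.nd (nat_lit 9) 
(.lf (nat_lit 502165) (.g (nat_lit 1736) (.e (nat_lit 163979) (nat_lit 30) (.e (nat_lit 573480) (nat_lit 13) (.e (nat_lit 65604) (nat_lit 9) (.e (nat_lit 336013) (nat_lit 2) (.e (nat_lit 90170) (nat_lit 13) .nil))))) (.g (nat_lit 0) (.e (nat_lit 173033) (nat_lit 0) .nil) .nil))) 
(.lf (nat_lit 502677) (.g (nat_lit 3311) (.e (nat_lit 163979) (nat_lit 30) (.e (nat_lit 573487) (nat_lit 14) (.e (nat_lit 73753) (nat_lit 8) (.e (nat_lit 557101) (nat_lit 13) (.e (nat_lit 172066) (nat_lit 3) (.e (nat_lit 204817) (nat_lit 17) (.e (nat_lit 7936) (nat_lit 149) (.e (nat_lit 761898) (nat_lit 15) .nil)))))))) (.g (nat_lit 1) (.e (nat_lit 173731) (nat_lit 0) .nil) .nil)))))) 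
(.nd (nat_lit 7) (.nd (nat_lit 8) (.nd (nat_lit 9) 
(.lf (nat_lit 501845) (.g (nat_lit 4015) (.e (nat_lit 163978) (nat_lit 30) (.e (nat_lit 573489) (nat_lit 14) (.e (nat_lit 73755) (nat_lit 8) (.e (nat_lit 557097) (nat_lit 13) (.e (nat_lit 172067) (nat_lit 3) (.e (nat_lit 204817) (nat_lit 17) (.e (nat_lit 7936) (nat_lit 149) (.e (nat_lit 761897) (nat_lit 15) .nil)))))))) (.g (nat_lit 1) (.e (nat_lit 171644) (nat_lit 0) .nil) .nil))) 
(.lf (nat_lit 502357) (.g (nat_lit 4349) (.e (nat_lit 163979) (nat_lit 30) (.e (nat_lit 573482) (nat_lit 13) (.e (nat_lit 65604) (nat_lit 9) (.e (nat_lit 336028) (nat_lit 3) (.e (nat_lit 98386) (nat_lit 32) (.e (nat_lit 475198) (nat_lit 40) (.e (nat_lit 704589) (nat_lit 3) .nil))))))) (.g (nat_lit 1) (.e (nat_lit 173289) (nat_lit 0) .nil) .nil)))) (.nd (nat_lit 9) 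
(.lf (nat_lit 502101) (.g (nat_lit 4529) (.e (nat_lit 163978) (nat_lit 30) (.e (nat_lit 573491) (nat_lit 15) (.e (nat_lit 81956) (nat_lit 23) (.e (nat_lit 98367) (nat_lit 27) (.e (nat_lit 434272) (nat_lit 38) (.e (nat_lit 655375) (nat_lit 3) .nil)))))) (.g (nat_lit 1) (.e (nat_lit 172773) (nat_lit 0) .nil) .nil))) 
(.lf (nat_lit 502613) (.g (nat_lit 5080) (.e (nat_lit 163979) (nat_lit 30) (.e (nat_lit 573482) (nat_lit 13) (.e (nat_lit 65619) (nat_lit 10) (.e (nat_lit 344117) (nat_lit 21) (.e (nat_lit 516179) (nat_lit 15) (.e (nat_lit 475199) (nat_lit 40) (.e (nat_lit 704589) (nat_lit 3) .nil))))))) (.g (nat_lit 1) (.e (nat_lit 173553) (nat_lit 0) .nil) .nil))))) (.nd (nat_lit 8) (.nd (nat_lit 9) 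
(.lf (nat_lit 501973) (.g (nat_lit 4085) (.e (nat_lit 163978) (nat_lit 30) (.e (nat_lit 573489) (nat_lit 14) (.e (nat_lit 73755) (nat_lit 8) (.e (nat_lit 557104) (nat_lit 14) (.e (nat_lit 180244) (nat_lit 5) (.e (nat_lit 532503) (nat_lit 1) (.e (nat_lit 57651) (nat_lit 152) (.e (nat_lit 2606) (nat_lit 163) .nil)))))))) (.g (nat_lit 1) (.e (nat_lit 172119) (nat_lit 0) .nil) .nil))) 
(.lf (nat_lit 502485) (.g (nat_lit 3444) (.e (nat_lit 163979) (nat_lit 30) (.e (nat_lit 573482) (nat_lit 13) (.e (nat_lit 65619) (nat_lit 10) (.e (nat_lit 344117) (nat_lit 21) (.e (nat_lit 516151) (nat_lit 9) (.e (nat_lit 426097) (nat_lit 1) (.e (nat_lit 164348) (nat_lit 240) (.e (nat_lit 2598) (nat_lit 163) .nil)))))))) (.g (nat_lit 1) (.e (nat_lit 173421) (nat_lit 0) .nil) .nil)))) 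
(.nd (nat_lit 9) 
(.lf (nat_lit 502229) (.g (nat_lit 2330) (.e (nat_lit 163979) (nat_lit 30) (.e (nat_lit 573482) (nat_lit 13) (.e (nat_lit 65604) (nat_lit 9) (.e (nat_lit 336013) (nat_lit 2) (.e (nat_lit 90170) (nat_lit 13) (.e (nat_lit 172059) (nat_lit 1) (.e (nat_lit 164345) (nat_lit 240) (.e (nat_lit 2598) (nat_lit 163) .nil)))))))) (.g (nat_lit 1) (.e (nat_lit 173117) (nat_lit 0) .nil) .nil))) 
(.lf (nat_lit 502741) (.g (nat_lit 3303) (.e (nat_lit 163979) (nat_lit 30) (.e (nat_lit 573487) (nat_lit 14) (.e (nat_lit 73754) (nat_lit 8) (.e (nat_lit 557105) (nat_lit 14) (.e (nat_lit 180251) (nat_lit 10) (.e (nat_lit 573475) (nat_lit 12) (.e (nat_lit 57503) (nat_lit 38) (.e (nat_lit 638996) (nat_lit 7) .nil)))))))) (.g (nat_lit 1) (.e (nat_lit 173851) (nat_lit 0) .nil) .nil))))))) 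
(.nd (nat_lit 6) (.nd (nat_lit 7) (.nd (nat_lit 8) (.nd (nat_lit 9) 
(.lf (nat_lit 501813) (.g (nat_lit 2492) (.e (nat_lit 163978) (nat_lit 30) (.e (nat_lit 573489) (nat_lit 14) (.e (nat_lit 73755) (nat_lit 8) (.e (nat_lit 557096) (nat_lit 13) (.e (nat_lit 172067) (nat_lit 3) (.e (nat_lit 204814) (nat_lit 17) (.e (nat_lit 2270) (nat_lit 149) (.e (nat_lit 761899) (nat_lit 15) .nil)))))))) (.g (nat_lit 1) (.e (nat_lit 171585) (nat_lit 0) .nil) .nil))) 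
(.lf (nat_lit 502325) (.g (nat_lit 2437) (.e (nat_lit 163979) (nat_lit 30) (.e (nat_lit 573482) (nat_lit 13) (.e (nat_lit 65604) (nat_lit 9) (.e (nat_lit 336028) (nat_lit 3) (.e (nat_lit 98363) (nat_lit 26) .nil))))) (.g (nat_lit 0) (.e (nat_lit 173236) (nat_lit 0) .nil) .nil)))) (.nd (nat_lit 9) 
(.lf (nat_lit 502069) (.g (nat_lit 2732) (.e (nat_lit 163978) (nat_lit 30) (.e (nat_lit 573490) (nat_lit 15) (.e (nat_lit 81953) (nat_lit 22) (.e (nat_lit 90170) (nat_lit 13) (.e (nat_lit 172046) (nat_lit 0) (.e (nat_lit 3407) (nat_lit 212) (.e (nat_lit 655375) (nat_lit 3) .nil))))))) (.g (nat_lit 1) (.e (nat_lit 172712) (nat_lit 0) .nil) .nil))) 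
(.lf (nat_lit 502581) (.g (nat_lit 2939) (.e (nat_lit 163979) (nat_lit 30) (.e (nat_lit 573482) (nat_lit 13) (.e (nat_lit 65619) (nat_lit 10) (.e (nat_lit 344117) (nat_lit 21) (.e (nat_lit 516161) (nat_lit 10) (.e (nat_lit 434272) (nat_lit 38) (.e (nat_lit 655375) (nat_lit 3) .nil))))))) (.g (nat_lit 1) (.e (nat_lit 173518) (nat_lit 0) .nil) .nil))))) (.nd (nat_lit 8) (.nd (nat_lit 9) 
(.lf (nat_lit 501941) (.g (nat_lit 3582) (.e (nat_lit 163978) (nat_lit 30) (.e (nat_lit 573489) (nat_lit 14) (.e (nat_lit 73755) (nat_lit 8) (.e (nat_lit 557103) (nat_lit 14) (.e (nat_lit 180244) (nat_lit 5) (.e (nat_lit 532503) (nat_lit 1) (.e (nat_lit 57659) (nat_lit 152) (.e (nat_lit 2606) (nat_lit 163) .nil)))))))) (.g (nat_lit 1) (.e (nat_lit 171984) (nat_lit 0) .nil) .nil))) 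
(.lf (nat_lit 502453) (.g (nat_lit 3518) (.e (nat_lit 163979) (nat_lit 30) (.e (nat_lit 573482) (nat_lit 13) (.e (nat_lit 65619) (nat_lit 10) (.e (nat_lit 344117) (nat_lit 21) (.e (nat_lit 516151) (nat_lit 9) (.e (nat_lit 426003) (nat_lit 0) (.e (nat_lit 3402) (nat_lit 211) (.e (nat_lit 647180) (nat_lit 3) .nil)))))))) (.g (nat_lit 1) (.e (nat_lit 173389) (nat_lit 0) .nil) .nil)))) 
(.nd (nat_lit 9) 
(.lf (nat_lit 502197) (.g (nat_lit 3370) (.e (nat_lit 163979) (nat_lit 30) (.e (nat_lit 573482) (nat_lit 13) (.e (nat_lit 65604) (nat_lit 9) (.e (nat_lit 336013) (nat_lit 2) (.e (nat_lit 90170) (nat_lit 13) (.e (nat_lit 172033) (nat_lit 0) (.e (nat_lit 3399) (nat_lit 211) (.e (nat_lit 647181) (nat_lit 3) .nil)))))))) (.g (nat_lit 1) (.e (nat_lit 173081) (nat_lit 0) .nil) .nil))) 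
(.lf (nat_lit 502709) (.g (nat_lit 2240) (.e (nat_lit 163979) (nat_lit 30) (.e (nat_lit 573487) (nat_lit 14) (.e (nat_lit 73753) (nat_lit 8) (.e (nat_lit 557103) (nat_lit 14) (.e (nat_lit 180250) (nat_lit 10) (.e (nat_lit 573478) (nat_lit 12) (.e (nat_lit 57502) (nat_lit 38) (.e (nat_lit 638994) (nat_lit 7) .nil)))))))) (.g (nat_lit 1) (.e (nat_lit 173812) (nat_lit 0) .nil) .nil)))))) 
(.nd (nat_lit 7) (.nd (nat_lit 8) (.nd (nat_lit 9) 
(.lf (nat_lit 501877) (.g (nat_lit 2988) (.e (nat_lit 163978) (nat_lit 30) (.e (nat_lit 573489) (nat_lit 14) (.e (nat_lit 73755) (nat_lit 8) (.e (nat_lit 557098) (nat_lit 13) (.e (nat_lit 172066) (nat_lit 3) (.e (nat_lit 204821) (nat_lit 17) (.e (nat_lit 7936) (nat_lit 149) (.e (nat_lit 761898) (nat_lit 15) .nil)))))))) (.g (nat_lit 1) (.e (nat_lit 171747) (nat_lit 0) .nil) .nil))) 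
(.lf (nat_lit 502389) (.g (nat_lit 3615) (.e (nat_lit 163979) (nat_lit 30) (.e (nat_lit 573482) (nat_lit 13) (.e (nat_lit 65619) (nat_lit 10) (.e (nat_lit 344117) (nat_lit 21) (.e (nat_lit 516143) (nat_lit 9) (.e (nat_lit 426025) (nat_lit 0) (.e (nat_lit 3397) (nat_lit 211) (.e (nat_lit 647180) (nat_lit 3) .nil)))))))) (.g (nat_lit 1) (.e (nat_lit 173325) (nat_lit 0) .nil) .nil)))) 
(.nd (nat_lit 9) 
(.lf (nat_lit 502133) (.g (nat_lit 3866) (.e (nat_lit 163978) (nat_lit 30) (.e (nat_lit 573493) (nat_lit 15) (.e (nat_lit 81954) (nat_lit 23) (.e (nat_lit 98367) (nat_lit 27) (.e (nat_lit 434271) (nat_lit 38) (.e (nat_lit 655375) (nat_lit 3) .nil)))))) (.g (nat_lit 1) (.e (nat_lit 172904) (nat_lit 0) .nil) .nil))) 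
(.lf (nat_lit 502645) (.g (nat_lit 2401) (.e (nat_lit 163979) (nat_lit 30) (.e (nat_lit 573484) (nat_lit 13) (.e (nat_lit 65610) (nat_lit 10) (.e (nat_lit 344117) (nat_lit 21) .nil)))) (.g (nat_lit 0) (.e (nat_lit 173621) (nat_lit 0) .nil) .nil))))) (.nd (nat_lit 8) (.nd (nat_lit 9) 
(.lf (nat_lit 502005) (.g (nat_lit 3270) (.e (nat_lit 163978) (nat_lit 30) (.e (nat_lit 573489) (nat_lit 14) (.e (nat_lit 73755) (nat_lit 8) (.e (nat_lit 557105) (nat_lit 14) (.e (nat_lit 180244) (nat_lit 5) (.e (nat_lit 532504) (nat_lit 1) (.e (nat_lit 57663) (nat_lit 152) (.e (nat_lit 2606) (nat_lit 163) .nil)))))))) (.g (nat_lit 1) (.e (nat_lit 172284) (nat_lit 0) .nil) .nil))) 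
(.lf (nat_lit 502517) (.g (nat_lit 2424) (.e (nat_lit 163979) (nat_lit 30) (.e (nat_lit 573482) (nat_lit 13) (.e (nat_lit 65619) (nat_lit 10) (.e (nat_lit 344117) (nat_lit 21) (.e (nat_lit 516152) (nat_lit 9) (.e (nat_lit 426144) (nat_lit 4) (.e (nat_lit 229665) (nat_lit 240) (.e (nat_lit 2602) (nat_lit 163) .nil)))))))) (.g (nat_lit 1) (.e (nat_lit 173453) (nat_lit 0) .nil) .nil)))) 
(.nd (nat_lit 9) 
(.lf (nat_lit 502261) (.g (nat_lit 3254) (.e (nat_lit 163979) (nat_lit 30) (.e (nat_lit 573482) (nat_lit 13) (.e (nat_lit 65604) (nat_lit 9) (.e (nat_lit 336013) (nat_lit 2) (.e (nat_lit 90170) (nat_lit 13) (.e (nat_lit 172069) (nat_lit 4) (.e (nat_lit 229665) (nat_lit 240) (.e (nat_lit 2612) (nat_lit 163) .nil)))))))) (.g (nat_lit 1) (.e (nat_lit 173149) (nat_lit 0) .nil) .nil))) 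
(.lf (nat_lit 502773) (.g (nat_lit 4302) (.e (nat_lit 163979) (nat_lit 30) (.e (nat_lit 573488) (nat_lit 14) (.e (nat_lit 73753) (nat_lit 8) (.e (nat_lit 557103) (nat_lit 14) (.e (nat_lit 180251) (nat_lit 10) (.e (nat_lit 573475) (nat_lit 12) (.e (nat_lit 57503) (nat_lit 38) (.e (nat_lit 638995) (nat_lit 7) .nil)))))))) (.g (nat_lit 1) (.e (nat_lit 173898) (nat_lit 0) .nil) .nil))))))))) 
(.nd (nat_lit 4) (.nd (nat_lit 5) (.nd (nat_lit 6) (.nd (nat_lit 7) (.nd (nat_lit 8) 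
(.nd (nat_lit 9) 
(.lf (nat_lit 501773) (.g (nat_lit 3890) (.e (nat_lit 163978) (nat_lit 30) (.e (nat_lit 573489) (nat_lit 14) (.e (nat_lit 73754) (nat_lit 8) (.e (nat_lit 557101) (nat_lit 13) (.e (nat_lit 172065) (nat_lit 3) (.e (nat_lit 204817) (nat_lit 17) (.e (nat_lit 7936) (nat_lit 149) (.e (nat_lit 761898) (nat_lit 15) .nil)))))))) (.g (nat_lit 1) (.e (nat_lit 171473) (nat_lit 0) .nil) .nil))) 
(.lf (nat_lit 502285) (.g (nat_lit 3303) (.e (nat_lit 163979) (nat_lit 30) (.e (nat_lit 573482) (nat_lit 13) (.e (nat_lit 65604) (nat_lit 9) (.e (nat_lit 336028) (nat_lit 3) (.e (nat_lit 98356) (nat_lit 26) (.e (nat_lit 426444) (nat_lit 19) (.e (nat_lit 114432) (nat_lit 3) .nil))))))) (.g (nat_lit 1) (.e (nat_lit 173175) (nat_lit 0) .nil) .nil)))) (.nd (nat_lit 9) 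
(.lf (nat_lit 502029) (.g (nat_lit 2773) (.e (nat_lit 163978) (nat_lit 30) (.e (nat_lit 573489) (nat_lit 14) (.e (nat_lit 73755) (nat_lit 8) (.e (nat_lit 557105) (nat_lit 14) (.e (nat_lit 180250) (nat_lit 10) (.e (nat_lit 573473) (nat_lit 12) (.e (nat_lit 57503) (nat_lit 38) (.e (nat_lit 638996) (nat_lit 7) .nil)))))))) (.g (nat_lit 1) (.e (nat_lit 172432) (nat_lit 0) .nil) .nil))) 
(.lf (nat_lit 502541) (.g (nat_lit 2991) (.e (nat_lit 163979) (nat_lit 30) (.e (nat_lit 573482) (nat_lit 13) (.e (nat_lit 65619) (nat_lit 10) (.e (nat_lit 344117) (nat_lit 21) (.e (nat_lit 516159) (nat_lit 10) (.e (nat_lit 434209) (nat_lit 18) (.e (nat_lit 5546) (nat_lit 306) (.e (nat_lit 2607) (nat_lit 163) .nil)))))))) (.g (nat_lit 1) (.e (nat_lit 173477) (nat_lit 0) .nil) .nil))))) 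
(.nd (nat_lit 8) (.nd (nat_lit 9) 
(.lf (nat_lit 501901) (.g (nat_lit 3717) (.e (nat_lit 163978) (nat_lit 30) (.e (nat_lit 573489) (nat_lit 14) (.e (nat_lit 73755) (nat_lit 8) (.e (nat_lit 557098) (nat_lit 13) (.e (nat_lit 172131) (nat_lit 15) (.e (nat_lit 1800) (nat_lit 119) (.e (nat_lit 516120) (nat_lit 1) (.e (nat_lit 164305) (nat_lit 226) (.e (nat_lit 2612) (nat_lit 163) .nil))))))))) (.g (nat_lit 1) (.e (nat_lit 171817) (nat_lit 0) .nil) .nil))) 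
(.lf (nat_lit 502413) (.g (nat_lit 2644) (.e (nat_lit 163979) (nat_lit 30) (.e (nat_lit 573482) (nat_lit 13) (.e (nat_lit 65619) (nat_lit 10) (.e (nat_lit 344117) (nat_lit 21) (.e (nat_lit 516144) (nat_lit 9) (.e (nat_lit 426402) (nat_lit 15) (.e (nat_lit 2056) (nat_lit 142) (.e (nat_lit 704589) (nat_lit 3) .nil)))))))) (.g (nat_lit 1) (.e (nat_lit 173349) (nat_lit 0) .nil) .nil)))) 
(.nd (nat_lit 9) 
(.lf (nat_lit 502157) (.g (nat_lit 4002) (.e (nat_lit 163978) (nat_lit 30) (.e (nat_lit 573493) (nat_lit 15) (.e (nat_lit 81956) (nat_lit 23) (.e (nat_lit 98385) (nat_lit 32) .nil)))) (.g (nat_lit 0) (.e (nat_lit 172945) (nat_lit 0) .nil) .nil))) 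
(.lf (nat_lit 502669) (.g (nat_lit 3569) (.e (nat_lit 163979) (nat_lit 30) (.e (nat_lit 573487) (nat_lit 14) (.e (nat_lit 73753) (nat_lit 8) (.e (nat_lit 557100) (nat_lit 13) (.e (nat_lit 172065) (nat_lit 3) (.e (nat_lit 204821) (nat_lit 17) (.e (nat_lit 2270) (nat_lit 149) (.e (nat_lit 761898) (nat_lit 15) .nil)))))))) (.g (nat_lit 1) (.e (nat_lit 173701) (nat_lit 0) .nil) .nil)))))) 
(.nd (nat_lit 7) (.nd (nat_lit 8) (.nd (nat_lit 9) 
(.lf (nat_lit 501837) (.g (nat_lit 3929) (.e (nat_lit 163978) (nat_lit 30) (.e (nat_lit 573489) (nat_lit 14) (.e (nat_lit 73755) (nat_lit 8) (.e (nat_lit 557097) (nat_lit 13) (.e (nat_lit 172066) (nat_lit 3) (.e (nat_lit 204821) (nat_lit 17) (.e (nat_lit 2270) (nat_lit 149) (.e (nat_lit 761899) (nat_lit 15) .nil)))))))) (.g (nat_lit 1) (.e (nat_lit 171628) (nat_lit 0) .nil) .nil))) 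
(.lf (nat_lit 502349) (.g (nat_lit 2761) (.e (nat_lit 163979) (nat_lit 30) (.e (nat_lit 573482) (nat_lit 13) (.e (nat_lit 65604) (nat_lit 9) (.e (nat_lit 336028) (nat_lit 3) (.e (nat_lit 98376) (nat_lit 30) (.e (nat_lit 458774) (nat_lit 18) (.e (nat_lit 5548) (nat_lit 306) (.e (nat_lit 2610) (nat_lit 163) .nil)))))))) (.g (nat_lit 1) (.e (nat_lit 173281) (nat_lit 0) .nil) .nil)))) 
(.nd (nat_lit 9) 
(.lf (nat_lit 502093) (.g (nat_lit 4084) (.e (nat_lit 163978) (nat_lit 30) (.e (nat_lit 573491) (nat_lit 15) (.e (nat_lit 81954) (nat_lit 23) (.e (nat_lit 98366) (nat_lit 27) (.e (nat_lit 434272) (nat_lit 38) (.e (nat_lit 655375) (nat_lit 3) .nil)))))) (.g (nat_lit 1) (.e (nat_lit 172765) (nat_lit 0) .nil) .nil))) 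
(.lf (nat_lit 502605) (.g (nat_lit 2983) (.e (nat_lit 163979) (nat_lit 30) (.e (nat_lit 573482) (nat_lit 13) (.e (nat_lit 65619) (nat_lit 10) (.e (nat_lit 344117) (nat_lit 21) (.e (nat_lit 516171) (nat_lit 13) (.e (nat_lit 458804) (nat_lit 38) (.e (nat_lit 655373) (nat_lit 3) .nil))))))) (.g (nat_lit 1) (.e (nat_lit 173545) (nat_lit 0) .nil) .nil))))) (.nd (nat_lit 8) (.nd (nat_lit 9) 
(.lf (nat_lit 501965) (.g (nat_lit 3414) (.e (nat_lit 163978) (nat_lit 30) (.e (nat_lit 573489) (nat_lit 14) (.e (nat_lit 73755) (nat_lit 8) (.e (nat_lit 557104) (nat_lit 14) (.e (nat_lit 180244) (nat_lit 5) (.e (nat_lit 532491) (nat_lit 0) (.e (nat_lit 2270) (nat_lit 149) (.e (nat_lit 761899) (nat_lit 15) .nil)))))))) (.g (nat_lit 1) (.e (nat_lit 172057) (nat_lit 0) .nil) .nil))) 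
(.lf (nat_lit 502477) (.g (nat_lit 2626) (.e (nat_lit 163979) (nat_lit 30) (.e (nat_lit 573482) (nat_lit 13) (.e (nat_lit 65619) (nat_lit 10) (.e (nat_lit 344117) (nat_lit 21) (.e (nat_lit 516151) (nat_lit 9) (.e (nat_lit 426043) (nat_lit 0) (.e (nat_lit 3406) (nat_lit 212) (.e (nat_lit 655374) (nat_lit 3) .nil)))))))) (.g (nat_lit 1) (.e (nat_lit 173413) (nat_lit 0) .nil) .nil)))) 
(.nd (nat_lit 9) 
(.lf (nat_lit 502221) (.g (nat_lit 3455) (.e (nat_lit 163979) (nat_lit 30) (.e (nat_lit 573482) (nat_lit 13) (.e (nat_lit 65604) (nat_lit 9) (.e (nat_lit 336013) (nat_lit 2) (.e (nat_lit 90170) (nat_lit 13) (.e (nat_lit 172049) (nat_lit 0) (.e (nat_lit 2458) (nat_lit 157) (.e (nat_lit 5547) (nat_lit 306) (.e (nat_lit 2599) (nat_lit 163) .nil))))))))) (.g (nat_lit 1) (.e (nat_lit 173109) (nat_lit 0) .nil) .nil))) 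
(.lf (nat_lit 502733) (.g (nat_lit 3329) (.e (nat_lit 163979) (nat_lit 30) (.e (nat_lit 573487) (nat_lit 14) (.e (nat_lit 73753) (nat_lit 8) (.e (nat_lit 557105) (nat_lit 14) (.e (nat_lit 180252) (nat_lit 10) (.e (nat_lit 573475) (nat_lit 12) (.e (nat_lit 57502) (nat_lit 38) (.e (nat_lit 638996) (nat_lit 7) .nil)))))))) (.g (nat_lit 1) (.e (nat_lit 173843) (nat_lit 0) .nil) .nil))))))) 
(.nd (nat_lit 6) (.nd (nat_lit 7) (.nd (nat_lit 8) (.nd (nat_lit 9) 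
(.lf (nat_lit 501805) (.g (nat_lit 2867) (.e (nat_lit 163978) (nat_lit 30) (.e (nat_lit 573489) (nat_lit 14) (.e (nat_lit 73754) (nat_lit 8) (.e (nat_lit 557105) (nat_lit 14) (.e (nat_lit 180252) (nat_lit 10) (.e (nat_lit 573475) (nat_lit 12) (.e (nat_lit 57501) (nat_lit 37) (.e (nat_lit 630799) (nat_lit 7) .nil)))))))) (.g (nat_lit 1) (.e (nat_lit 171539) (nat_lit 0) .nil) .nil))) 
(.lf (nat_lit 502317) (.g (nat_lit 3047) (.e (nat_lit 163979) (nat_lit 30) (.e (nat_lit 573482) (nat_lit 13) (.e (nat_lit 65604) (nat_lit 9) (.e (nat_lit 336028) (nat_lit 3) (.e (nat_lit 98361) (nat_lit 26) (.e (nat_lit 426025) (nat_lit 0) (.e (nat_lit 3397) (nat_lit 211) (.e (nat_lit 647180) (nat_lit 3) .nil)))))))) (.g (nat_lit 1) (.e (nat_lit 173227) (nat_lit 0) .nil) .nil)))) (.nd (nat_lit 9) 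
(.lf (nat_lit 502061) (.g (nat_lit 3107) (.e (nat_lit 163978) (nat_lit 30) (.e (nat_lit 573489) (nat_lit 14) (.e (nat_lit 73755) (nat_lit 8) (.e (nat_lit 557105) (nat_lit 14) (.e (nat_lit 180252) (nat_lit 10) (.e (nat_lit 573476) (nat_lit 12) (.e (nat_lit 57502) (nat_lit 38) (.e (nat_lit 638996) (nat_lit 7) .nil)))))))) (.g (nat_lit 1) (.e (nat_lit 172700) (nat_lit 0) .nil) .nil))) 
(.lf (nat_lit 502573) (.g (nat_lit 2488) (.e (nat_lit 163979) (nat_lit 30) (.e (nat_lit 573482) (nat_lit 13) (.e (nat_lit 65619) (nat_lit 10) (.e (nat_lit 344117) (nat_lit 21) (.e (nat_lit 516161) (nat_lit 10) (.e (nat_lit 434209) (nat_lit 18) (.e (nat_lit 5546) (nat_lit 306) (.e (nat_lit 2599) (nat_lit 163) .nil)))))))) (.g (nat_lit 1) (.e (nat_lit 173510) (nat_lit 0) .nil) .nil))))) 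
(.nd (nat_lit 8) (.nd (nat_lit 9) 
(.lf (nat_lit 501933) (.g (nat_lit 4957) (.e (nat_lit 163978) (nat_lit 30) (.e (nat_lit 573489) (nat_lit 14) (.e (nat_lit 73755) (nat_lit 8) (.e (nat_lit 557103) (nat_lit 14) (.e (nat_lit 180244) (nat_lit 5) (.e (nat_lit 532499) (nat_lit 1) (.e (nat_lit 57657) (nat_lit 152) (.e (nat_lit 2606) (nat_lit 163) .nil)))))))) (.g (nat_lit 1) (.e (nat_lit 171917) (nat_lit 0) .nil) .nil))) 
(.lf (nat_lit 502445) (.g (nat_lit 3489) (.e (nat_lit 163979) (nat_lit 30) (.e (nat_lit 573482) (nat_lit 13) (.e (nat_lit 65619) (nat_lit 10) (.e (nat_lit 344117) (nat_lit 21) (.e (nat_lit 516147) (nat_lit 9) (.e (nat_lit 426444) (nat_lit 19) (.e (nat_lit 114432) (nat_lit 3) .nil))))))) (.g (nat_lit 1) (.e (nat_lit 173381) (nat_lit 0) .nil) .nil)))) (.nd (nat_lit 9) 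
(.lf (nat_lit 502189) (.g (nat_lit 1705) (.e (nat_lit 163979) (nat_lit 30) (.e (nat_lit 573482) (nat_lit 13) (.e (nat_lit 65604) (nat_lit 9) (.e (nat_lit 336013) (nat_lit 2) (.e (nat_lit 90170) (nat_lit 13) .nil))))) (.g (nat_lit 0) (.e (nat_lit 173073) (nat_lit 0) .nil) .nil))) 
(.lf (nat_lit 502701) (.g (nat_lit 4166) (.e (nat_lit 163979) (nat_lit 30) (.e (nat_lit 573487) (nat_lit 14) (.e (nat_lit 73753) (nat_lit 8) (.e (nat_lit 557103) (nat_lit 14) (.e (nat_lit 180250) (nat_lit 10) (.e (nat_lit 573475) (nat_lit 12) (.e (nat_lit 57503) (nat_lit 38) (.e (nat_lit 638996) (nat_lit 7) .nil)))))))) (.g (nat_lit 1) (.e (nat_lit 173802) (nat_lit 0) .nil) .nil)))))) 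
(.nd (nat_lit 7) (.nd (nat_lit 8) (.nd (nat_lit 9) 
(.lf (nat_lit 501869) (.g (nat_lit 2976) (.e (nat_lit 163978) (nat_lit 30) (.e (nat_lit 573489) (nat_lit 14) (.e (nat_lit 73755) (nat_lit 8) (.e (nat_lit 557098) (nat_lit 13) (.e (nat_lit 172066) (nat_lit 3) (.e (nat_lit 204814) (nat_lit 17) (.e (nat_lit 2270) (nat_lit 149) (.e (nat_lit 761899) (nat_lit 15) .nil)))))))) (.g (nat_lit 1) (.e (nat_lit 171735) (nat_lit 0) .nil) .nil))) 
(.lf (nat_lit 502381) (.g (nat_lit 3483) (.e (nat_lit 163979) (nat_lit 30) (.e (nat_lit 573482) (nat_lit 13) (.e (nat_lit 65619) (nat_lit 10) (.e (nat_lit 344116) (nat_lit 21) (.e (nat_lit 516179) (nat_lit 15) (.e (nat_lit 475199) (nat_lit 40) (.e (nat_lit 704589) (nat_lit 3) .nil))))))) (.g (nat_lit 1) (.e (nat_lit 173316) (nat_lit 0) .nil) .nil)))) (.nd (nat_lit 9) 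
(.lf (nat_lit 502125) (.g (nat_lit 3749) (.e (nat_lit 163978) (nat_lit 30) (.e (nat_lit 573493) (nat_lit 15) (.e (nat_lit 81954) (nat_lit 23) (.e (nat_lit 98354) (nat_lit 26) .nil)))) (.g (nat_lit 0) (.e (nat_lit 172896) (nat_lit 0) .nil) .nil))) 
(.lf (nat_lit 502637) (.g (nat_lit 3165) (.e (nat_lit 163979) (nat_lit 30) (.e (nat_lit 573482) (nat_lit 13) (.e (nat_lit 65619) (nat_lit 10) (.e (nat_lit 344129) (nat_lit 26) (.e (nat_lit 557087) (nat_lit 11) (.e (nat_lit 24597) (nat_lit 1) (.e (nat_lit 57772) (nat_lit 227) (.e (nat_lit 2611) (nat_lit 163) .nil)))))))) (.g (nat_lit 1) (.e (nat_lit 173599) (nat_lit 0) .nil) .nil))))) 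
(.nd (nat_lit 8) (.nd (nat_lit 9) 
(.lf (nat_lit 501997) (.g (nat_lit 4077) (.e (nat_lit 163978) (nat_lit 30) (.e (nat_lit 573489) (nat_lit 14) (.e (nat_lit 73755) (nat_lit 8) (.e (nat_lit 557105) (nat_lit 14) (.e (nat_lit 180244) (nat_lit 5) (.e (nat_lit 532499) (nat_lit 1) (.e (nat_lit 57657) (nat_lit 152) (.e (nat_lit 2606) (nat_lit 163) .nil)))))))) (.g (nat_lit 1) (.e (nat_lit 172238) (nat_lit 0) .nil) .nil))) 
(.lf (nat_lit 502509) (.g (nat_lit 3060) (.e (nat_lit 163979) (nat_lit 30) (.e (nat_lit 573482) (nat_lit 13) (.e (nat_lit 65619) (nat_lit 10) (.e (nat_lit 344117) (nat_lit 21) (.e (nat_lit 516152) (nat_lit 9) (.e (nat_lit 426025) (nat_lit 0) (.e (nat_lit 3399) (nat_lit 211) (.e (nat_lit 647180) (nat_lit 3) .nil)))))))) (.g (nat_lit 1) (.e (nat_lit 173445) (nat_lit 0) .nil) .nil)))) 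
(.nd (nat_lit 9) 
(.lf (nat_lit 502253) (.g (nat_lit 3473) (.e (nat_lit 163979) (nat_lit 30) (.e (nat_lit 573482) (nat_lit 13) (.e (nat_lit 65604) (nat_lit 9) (.e (nat_lit 336013) (nat_lit 2) (.e (nat_lit 90170) (nat_lit 13) (.e (nat_lit 172068) (nat_lit 4) (.e (nat_lit 229664) (nat_lit 240) (.e (nat_lit 2598) (nat_lit 163) .nil)))))))) (.g (nat_lit 1) (.e (nat_lit 173141) (nat_lit 0) .nil) .nil))) 
(.lf (nat_lit 502765) (.g (nat_lit 4408) (.e (nat_lit 163979) (nat_lit 30) (.e (nat_lit 573488) (nat_lit 14) (.e (nat_lit 73753) (nat_lit 8) (.e (nat_lit 557103) (nat_lit 14) (.e (nat_lit 180250) (nat_lit 10) (.e (nat_lit 573473) (nat_lit 12) (.e (nat_lit 57503) (nat_lit 38) (.e (nat_lit 638995) (nat_lit 7) .nil)))))))) (.g (nat_lit 1) (.e (nat_lit 173890) (nat_lit 0) .nil) .nil)))))))) 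
(.nd (nat_lit 5) (.nd (nat_lit 6) (.nd (nat_lit 7) (.nd (nat_lit 8) (.nd (nat_lit 9) 
(.lf (nat_lit 501789) (.g (nat_lit 3240) (.e (nat_lit 163978) (nat_lit 30) (.e (nat_lit 573489) (nat_lit 14) (.e (nat_lit 73754) (nat_lit 8) (.e (nat_lit 557101) (nat_lit 13) (.e (nat_lit 172067) (nat_lit 3) (.e (nat_lit 204830) (nat_lit 18) (.e (nat_lit 57663) (nat_lit 152) (.e (nat_lit 2612) (nat_lit 163) .nil)))))))) (.g (nat_lit 1) (.e (nat_lit 171503) (nat_lit 0) .nil) .nil))) 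
(.lf (nat_lit 502301) (.g (nat_lit 2211) (.e (nat_lit 163979) (nat_lit 30) (.e (nat_lit 573482) (nat_lit 13) (.e (nat_lit 65604) (nat_lit 9) (.e (nat_lit 336028) (nat_lit 3) (.e (nat_lit 98359) (nat_lit 26) (.e (nat_lit 426043) (nat_lit 0) (.e (nat_lit 7936) (nat_lit 211) (.e (nat_lit 647180) (nat_lit 3) .nil)))))))) (.g (nat_lit 1) (.e (nat_lit 173201) (nat_lit 0) .nil) .nil)))) (.nd (nat_lit 9) 
(.lf (nat_lit 502045) (.g (nat_lit 3696) (.e (nat_lit 163978) (nat_lit 30) (.e (nat_lit 573489) (nat_lit 14) (.e (nat_lit 73755) (nat_lit 8) (.e (nat_lit 557105) (nat_lit 14) (.e (nat_lit 180252) (nat_lit 10) (.e (nat_lit 573473) (nat_lit 12) (.e (nat_lit 57504) (nat_lit 38) (.e (nat_lit 646912) (nat_lit 7) .nil)))))))) (.g (nat_lit 1) (.e (nat_lit 172562) (nat_lit 0) .nil) .nil))) 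
(.lf (nat_lit 502557) (.g (nat_lit 4054) (.e (nat_lit 163979) (nat_lit 30) (.e (nat_lit 573482) (nat_lit 13) (.e (nat_lit 65619) (nat_lit 10) (.e (nat_lit 344117) (nat_lit 21) (.e (nat_lit 516160) (nat_lit 10) (.e (nat_lit 434202) (nat_lit 18) (.e (nat_lit 5537) (nat_lit 306) (.e (nat_lit 2611) (nat_lit 163) .nil)))))))) (.g (nat_lit 1) (.e (nat_lit 173493) (nat_lit 0) .nil) .nil))))) 
(.nd (nat_lit 8) (.nd (nat_lit 9) 
(.lf (nat_lit 501917) (.g (nat_lit 3804) (.e (nat_lit 163978) (nat_lit 30) (.e (nat_lit 573489) (nat_lit 14) (.e (nat_lit 73755) (nat_lit 8) (.e (nat_lit 557103) (nat_lit 14) (.e (nat_lit 180243) (nat_lit 5) (.e (nat_lit 532484) (nat_lit 0) (.e (nat_lit 2272) (nat_lit 149) (.e (nat_lit 761899) (nat_lit 15) .nil)))))))) (.g (nat_lit 1) (.e (nat_lit 171863) (nat_lit 0) .nil) .nil))) 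
(.lf (nat_lit 502429) (.g (nat_lit 4579) (.e (nat_lit 163979) (nat_lit 30) (.e (nat_lit 573482) (nat_lit 13) (.e (nat_lit 65619) (nat_lit 10) (.e (nat_lit 344117) (nat_lit 21) (.e (nat_lit 516145) (nat_lit 9) (.e (nat_lit 426379) (nat_lit 15) (.e (nat_lit 2058) (nat_lit 142) (.e (nat_lit 704589) (nat_lit 3) .nil)))))))) (.g (nat_lit 1) (.e (nat_lit 173365) (nat_lit 0) .nil) .nil)))) 
(.nd (nat_lit 9) 
(.lf (nat_lit 502173) (.g (nat_lit 3464) (.e (nat_lit 163979) (nat_lit 30) (.e (nat_lit 573481) (nat_lit 13) (.e (nat_lit 65610) (nat_lit 10) (.e (nat_lit 344117) (nat_lit 21) (.e (nat_lit 516179) (nat_lit 15) (.e (nat_lit 475199) (nat_lit 40) (.e (nat_lit 704589) (nat_lit 3) .nil))))))) (.g (nat_lit 1) (.e (nat_lit 173043) (nat_lit 0) .nil) .nil))) 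
(.lf (nat_lit 502685) (.g (nat_lit 3036) (.e (nat_lit 163979) (nat_lit 30) (.e (nat_lit 573487) (nat_lit 14) (.e (nat_lit 73753) (nat_lit 8) (.e (nat_lit 557103) (nat_lit 14) (.e (nat_lit 180244) (nat_lit 5) (.e (nat_lit 532484) (nat_lit 0) (.e (nat_lit 7936) (nat_lit 149) (.e (nat_lit 761894) (nat_lit 15) .nil)))))))) (.g (nat_lit 1) (.e (nat_lit 173766) (nat_lit 0) .nil) .nil)))))) 
(.nd (nat_lit 7) (.nd (nat_lit 8) (.nd (nat_lit 9) 
(.lf (nat_lit 501853) (.g (nat_lit 3662) (.e (nat_lit 163978) (nat_lit 30) (.e (nat_lit 573489) (nat_lit 14) (.e (nat_lit 73755) (nat_lit 8) (.e (nat_lit 557098) (nat_lit 13) (.e (nat_lit 172065) (nat_lit 3) (.e (nat_lit 204815) (nat_lit 17) (.e (nat_lit 2271) (nat_lit 149) (.e (nat_lit 761898) (nat_lit 15) .nil)))))))) (.g (nat_lit 1) (.e (nat_lit 171700) (nat_lit 0) .nil) .nil))) 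
(.lf (nat_lit 502365) (.g (nat_lit 3964) (.e (nat_lit 163979) (nat_lit 30) (.e (nat_lit 573482) (nat_lit 13) (.e (nat_lit 65609) (nat_lit 10) (.e (nat_lit 344118) (nat_lit 21) (.e (nat_lit 516179) (nat_lit 15) (.e (nat_lit 475199) (nat_lit 40) (.e (nat_lit 704589) (nat_lit 3) .nil))))))) (.g (nat_lit 1) (.e (nat_lit 173298) (nat_lit 0) .nil) .nil)))) (.nd (nat_lit 9) 
(.lf (nat_lit 502109) (.g (nat_lit 3254) (.e (nat_lit 163978) (nat_lit 30) (.e (nat_lit 573493) (nat_lit 15) (.e (nat_lit 81951) (nat_lit 22) (.e (nat_lit 90172) (nat_lit 14) .nil)))) (.g (nat_lit 0) (.e (nat_lit 172851) (nat_lit 0) .nil) .nil))) 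
(.lf (nat_lit 502621) (.g (nat_lit 2373) (.e (nat_lit 163979) (nat_lit 30) (.e (nat_lit 573482) (nat_lit 13) (.e (nat_lit 65619) (nat_lit 10) (.e (nat_lit 344117) (nat_lit 21) (.e (nat_lit 516180) (nat_lit 15) (.e (nat_lit 483072) (nat_lit 40) (.e (nat_lit 712448) (nat_lit 3) .nil))))))) (.g (nat_lit 1) (.e (nat_lit 173561) (nat_lit 0) .nil) .nil))))) (.nd (nat_lit 8) (.nd (nat_lit 9) 
(.lf (nat_lit 501981) (.g (nat_lit 3046) (.e (nat_lit 163978) (nat_lit 30) (.e (nat_lit 573489) (nat_lit 14) (.e (nat_lit 73755) (nat_lit 8) (.e (nat_lit 557104) (nat_lit 14) (.e (nat_lit 180252) (nat_lit 10) .nil))))) (.g (nat_lit 0) (.e (nat_lit 172180) (nat_lit 0) .nil) .nil))) 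
(.lf (nat_lit 502493) (.g (nat_lit 4255) (.e (nat_lit 163979) (nat_lit 30) (.e (nat_lit 573482) (nat_lit 13) (.e (nat_lit 65619) (nat_lit 10) (.e (nat_lit 344117) (nat_lit 21) (.e (nat_lit 516151) (nat_lit 9) (.e (nat_lit 426142) (nat_lit 4) (.e (nat_lit 229663) (nat_lit 240) (.e (nat_lit 2598) (nat_lit 163) .nil)))))))) (.g (nat_lit 1) (.e (nat_lit 173429) (nat_lit 0) .nil) .nil)))) 
(.nd (nat_lit 9) 
(.lf (nat_lit 502237) (.g (nat_lit 2660) (.e (nat_lit 163979) (nat_lit 30) (.e (nat_lit 573482) (nat_lit 13) (.e (nat_lit 65604) (nat_lit 9) (.e (nat_lit 336013) (nat_lit 2) (.e (nat_lit 90170) (nat_lit 13) (.e (nat_lit 172059) (nat_lit 1) (.e (nat_lit 164348) (nat_lit 240) (.e (nat_lit 2607) (nat_lit 163) .nil)))))))) (.g (nat_lit 1) (.e (nat_lit 173125) (nat_lit 0) .nil) .nil))) 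
(.lf (nat_lit 502749) (.g (nat_lit 3345) (.e (nat_lit 163979) (nat_lit 30) (.e (nat_lit 573487) (nat_lit 14) (.e (nat_lit 73754) (nat_lit 8) (.e (nat_lit 557105) (nat_lit 14) (.e (nat_lit 180252) (nat_lit 10) (.e (nat_lit 573475) (nat_lit 12) (.e (nat_lit 57501) (nat_lit 37) (.e (nat_lit 630800) (nat_lit 7) .nil)))))))) (.g (nat_lit 1) (.e (nat_lit 173863) (nat_lit 0) .nil) .nil))))))) 
(.nd (nat_lit 6) (.nd (nat_lit 7) (.nd (nat_lit 8) (.nd (nat_lit 9) 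
(.lf (nat_lit 501821) (.g (nat_lit 2118) (.e (nat_lit 163978) (nat_lit 30) (.e (nat_lit 573489) (nat_lit 14) (.e (nat_lit 73755) (nat_lit 8) (.e (nat_lit 557097) (nat_lit 13) .nil)))) (.g (nat_lit 0) (.e (nat_lit 171602) (nat_lit 0) .nil) .nil))) 
(.lf (nat_lit 502333) (.g (nat_lit 2268) (.e (nat_lit 163979) (nat_lit 30) (.e (nat_lit 573482) (nat_lit 13) (.e (nat_lit 65604) (nat_lit 9) (.e (nat_lit 336028) (nat_lit 3) (.e (nat_lit 98366) (nat_lit 27) (.e (nat_lit 434202) (nat_lit 18) (.e (nat_lit 5537) (nat_lit 306) (.e (nat_lit 2599) (nat_lit 163) .nil)))))))) (.g (nat_lit 1) (.e (nat_lit 173245) (nat_lit 0) .nil) .nil)))) 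
(.nd (nat_lit 9) 
(.lf (nat_lit 502077) (.g (nat_lit 1799) (.e (nat_lit 163978) (nat_lit 30) (.e (nat_lit 573490) (nat_lit 15) (.e (nat_lit 81956) (nat_lit 23) (.e (nat_lit 98356) (nat_lit 26) .nil)))) (.g (nat_lit 0) (.e (nat_lit 172723) (nat_lit 0) .nil) .nil))) 
(.lf (nat_lit 502589) (.g (nat_lit 3663) (.e (nat_lit 163979) (nat_lit 30) (.e (nat_lit 573482) (nat_lit 13) (.e (nat_lit 65619) (nat_lit 10) (.e (nat_lit 344117) (nat_lit 21) (.e (nat_lit 516169) (nat_lit 13) (.e (nat_lit 458774) (nat_lit 18) (.e (nat_lit 5547) (nat_lit 306) (.e (nat_lit 2611) (nat_lit 163) .nil)))))))) (.g (nat_lit 1) (.e (nat_lit 173526) (nat_lit 0) .nil) .nil))))) 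
(.nd (nat_lit 8) (.nd (nat_lit 9) 
(.lf (nat_lit 501949) (.g (nat_lit 3382) (.e (nat_lit 163978) (nat_lit 30) (.e (nat_lit 573489) (nat_lit 14) (.e (nat_lit 73755) (nat_lit 8) (.e (nat_lit 557103) (nat_lit 14) (.e (nat_lit 180251) (nat_lit 10) (.e (nat_lit 573475) (nat_lit 12) (.e (nat_lit 57503) (nat_lit 38) (.e (nat_lit 638996) (nat_lit 7) .nil)))))))) (.g (nat_lit 1) (.e (nat_lit 172021) (nat_lit 0) .nil) .nil))) 
(.lf (nat_lit 502461) (.g (nat_lit 3061) (.e (nat_lit 163979) (nat_lit 30) (.e (nat_lit 573482) (nat_lit 13) (.e (nat_lit 65619) (nat_lit 10) (.e (nat_lit 344117) (nat_lit 21) (.e (nat_lit 516151) (nat_lit 9) (.e (nat_lit 426042) (nat_lit 0) (.e (nat_lit 2427) (nat_lit 157) (.e (nat_lit 5531) (nat_lit 306) (.e (nat_lit 2608) (nat_lit 163) .nil))))))))) (.g (nat_lit 1) (.e (nat_lit 173397) (nat_lit 0) .nil) .nil)))) 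
(.nd (nat_lit 9) 
(.lf (nat_lit 502205) (.g (nat_lit 3040) (.e (nat_lit 163979) (nat_lit 30) (.e (nat_lit 573482) (nat_lit 13) (.e (nat_lit 65604) (nat_lit 9) (.e (nat_lit 336013) (nat_lit 2) (.e (nat_lit 90170) (nat_lit 13) (.e (nat_lit 172042) (nat_lit 0) (.e (nat_lit 2458) (nat_lit 157) (.e (nat_lit 5548) (nat_lit 306) (.e (nat_lit 2601) (nat_lit 163) .nil))))))))) (.g (nat_lit 1) (.e (nat_lit 173090) (nat_lit 0) .nil) .nil))) 
(.lf (nat_lit 502717) (.g (nat_lit 3626) (.e (nat_lit 163979) (nat_lit 30) (.e (nat_lit 573487) (nat_lit 14) (.e (nat_lit 73753) (nat_lit 8) (.e (nat_lit 557105) (nat_lit 14) (.e (nat_lit 180251) (nat_lit 10) (.e (nat_lit 573475) (nat_lit 12) (.e (nat_lit 57503) (nat_lit 38) (.e (nat_lit 638994) (nat_lit 7) .nil)))))))) (.g (nat_lit 1) (.e (nat_lit 173822) (nat_lit 0) .nil) .nil)))))) 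
(.nd (nat_lit 7) (.nd (nat_lit 8) (.nd (nat_lit 9) 
(.lf (nat_lit 501885) (.g (nat_lit 4089) (.e (nat_lit 163978) (nat_lit 30) (.e (nat_lit 573489) (nat_lit 14) (.e (nat_lit 73755) (nat_lit 8) (.e (nat_lit 557098) (nat_lit 13) (.e (nat_lit 172067) (nat_lit 3) (.e (nat_lit 204814) (nat_lit 17) (.e (nat_lit 2270) (nat_lit 149) (.e (nat_lit 761899) (nat_lit 15) .nil)))))))) (.g (nat_lit 1) (.e (nat_lit 171772) (nat_lit 0) .nil) .nil))) 
(.lf (nat_lit 502397) (.g (nat_lit 2331) (.e (nat_lit 163979) (nat_lit 30) (.e (nat_lit 573482) (nat_lit 13) (.e (nat_lit 65619) (nat_lit 10) (.e (nat_lit 344117) (nat_lit 21) (.e (nat_lit 516143) (nat_lit 9) (.e (nat_lit 426144) (nat_lit 4) (.e (nat_lit 229664) (nat_lit 240) (.e (nat_lit 2602) (nat_lit 163) .nil)))))))) (.g (nat_lit 1) (.e (nat_lit 173333) (nat_lit 0) .nil) .nil)))) 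
(.nd (nat_lit 9) 
(.lf (nat_lit 502141) (.g (nat_lit 4854) (.e (nat_lit 163978) (nat_lit 30) (.e (nat_lit 573493) (nat_lit 15) (.e (nat_lit 81956) (nat_lit 23) (.e (nat_lit 98358) (nat_lit 26) .nil)))) (.g (nat_lit 0) (.e (nat_lit 172923) (nat_lit 0) .nil) .nil))) 
(.lf (nat_lit 502653) (.g (nat_lit 3115) (.e (nat_lit 163979) (nat_lit 30) (.e (nat_lit 573485) (nat_lit 13) (.e (nat_lit 65619) (nat_lit 10) (.e (nat_lit 344117) (nat_lit 21) (.e (nat_lit 516159) (nat_lit 10) (.e (nat_lit 434271) (nat_lit 38) (.e (nat_lit 655375) (nat_lit 3) .nil))))))) (.g (nat_lit 1) (.e (nat_lit 173629) (nat_lit 0) .nil) .nil))))) (.nd (nat_lit 8) (.nd (nat_lit 9) 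
(.lf (nat_lit 502013) (.g (nat_lit 1973) (.e (nat_lit 163978) (nat_lit 30) (.e (nat_lit 573489) (nat_lit 14) (.e (nat_lit 73755) (nat_lit 8) (.e (nat_lit 557105) (nat_lit 14) (.e (nat_lit 180245) (nat_lit 5) (.e (nat_lit 532491) (nat_lit 0) (.e (nat_lit 2264) (nat_lit 149) (.e (nat_lit 761899) (nat_lit 15) .nil)))))))) (.g (nat_lit 1) (.e (nat_lit 172303) (nat_lit 0) .nil) .nil))) 
(.lf (nat_lit 502525) (.g (nat_lit 2619) (.e (nat_lit 163979) (nat_lit 30) (.e (nat_lit 573482) (nat_lit 13) (.e (nat_lit 65619) (nat_lit 10) (.e (nat_lit 344117) (nat_lit 21) (.e (nat_lit 516153) (nat_lit 9) (.e (nat_lit 426109) (nat_lit 1) (.e (nat_lit 164345) (nat_lit 240) (.e (nat_lit 2611) (nat_lit 163) .nil)))))))) (.g (nat_lit 1) (.e (nat_lit 173461) (nat_lit 0) .nil) .nil)))) 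
(.nd (nat_lit 9) 
(.lf (nat_lit 502269) (.g (nat_lit 3662) (.e (nat_lit 163979) (nat_lit 30) (.e (nat_lit 573482) (nat_lit 13) (.e (nat_lit 65604) (nat_lit 9) (.e (nat_lit 336013) (nat_lit 2) (.e (nat_lit 90170) (nat_lit 13) (.e (nat_lit 172137) (nat_lit 15) (.e (nat_lit 2057) (nat_lit 142) (.e (nat_lit 704589) (nat_lit 3) .nil)))))))) (.g (nat_lit 1) (.e (nat_lit 173157) (nat_lit 0) .nil) .nil))) 
(.lf (nat_lit 502781) (.g (nat_lit 4722) (.e (nat_lit 163979) (nat_lit 30) (.e (nat_lit 573488) (nat_lit 14) (.e (nat_lit 73753) (nat_lit 8) (.e (nat_lit 557105) (nat_lit 14) (.e (nat_lit 180252) (nat_lit 10) (.e (nat_lit 573475) (nat_lit 12) (.e (nat_lit 57504) (nat_lit 38) (.e (nat_lit 638995) (nat_lit 7) .nil)))))))) (.g (nat_lit 1) (.e (nat_lit 173906) (nat_lit 0) .nil) .nil))))))))))) 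
(.nd (nat_lit 2) (.nd (nat_lit 3) (.nd (nat_lit 4) (.nd (nat_lit 5) (.nd (nat_lit 6) 
(.nd (nat_lit 7) (.nd (nat_lit 8) (.nd (nat_lit 9) 
(.lf (nat_lit 501763) (.g (nat_lit 3443) (.e (nat_lit 163978) (nat_lit 30) (.e (nat_lit 573489) (nat_lit 14) (.e (nat_lit 73754) (nat_lit 8) (.e (nat_lit 557100) (nat_lit 13) (.e (nat_lit 172067) (nat_lit 3) (.e (nat_lit 204830) (nat_lit 18) (.e (nat_lit 57663) (nat_lit 152) (.e (nat_lit 2606) (nat_lit 163) .nil)))))))) (.g (nat_lit 1) (.e (nat_lit 171434) (nat_lit 0) .nil) .nil))) 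
(.lf (nat_lit 502275) (.g (nat_lit 4617) (.e (nat_lit 163979) (nat_lit 30) (.e (nat_lit 573482) (nat_lit 13) (.e (nat_lit 65604) (nat_lit 9) (.e (nat_lit 336013) (nat_lit 2) (.e (nat_lit 90172) (nat_lit 14) (.e (nat_lit 180229) (nat_lit 0) (.e (nat_lit 5548) (nat_lit 306) (.e (nat_lit 2610) (nat_lit 163) .nil)))))))) (.g (nat_lit 1) (.e (nat_lit 173163) (nat_lit 0) .nil) .nil)))) (.nd (nat_lit 9) 
(.lf (nat_lit 502019) (.g (nat_lit 3045) (.e (nat_lit 163978) (nat_lit 30) (.e (nat_lit 573489) (nat_lit 14) (.e (nat_lit 73755) (nat_lit 8) (.e (nat_lit 557105) (nat_lit 14) (.e (nat_lit 180245) (nat_lit 5) (.e (nat_lit 532499) (nat_lit 1) (.e (nat_lit 57665) (nat_lit 152) (.e (nat_lit 2606) (nat_lit 163) .nil)))))))) (.g (nat_lit 1) (.e (nat_lit 172328) (nat_lit 0) .nil) .nil))) 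
(.lf (nat_lit 502531) (.g (nat_lit 2554) (.e (nat_lit 163979) (nat_lit 30) (.e (nat_lit 573482) (nat_lit 13) (.e (nat_lit 65619) (nat_lit 10) (.e (nat_lit 344117) (nat_lit 21) (.e (nat_lit 516157) (nat_lit 9) .nil))))) (.g (nat_lit 0) (.e (nat_lit 173467) (nat_lit 0) .nil) .nil))))) (.nd (nat_lit 8) (.nd (nat_lit 9) 
(.lf (nat_lit 501891) (.g (nat_lit 4793) (.e (nat_lit 163978) (nat_lit 30) (.e (nat_lit 573489) (nat_lit 14) (.e (nat_lit 73755) (nat_lit 8) (.e (nat_lit 557098) (nat_lit 13) (.e (nat_lit 172067) (nat_lit 3) (.e (nat_lit 204817) (nat_lit 17) (.e (nat_lit 2272) (nat_lit 149) (.e (nat_lit 761899) (nat_lit 15) .nil)))))))) (.g (nat_lit 1) (.e (nat_lit 171782) (nat_lit 0) .nil) .nil))) 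
(.lf (nat_lit 502403) (.g (nat_lit 3792) (.e (nat_lit 163979) (nat_lit 30) (.e (nat_lit 573482) (nat_lit 13) (.e (nat_lit 65619) (nat_lit 10) (.e (nat_lit 344117) (nat_lit 21) (.e (nat_lit 516144) (nat_lit 9) (.e (nat_lit 426374) (nat_lit 15) (.e (nat_lit 2058) (nat_lit 142) (.e (nat_lit 704589) (nat_lit 3) .nil)))))))) (.g (nat_lit 1) (.e (nat_lit 173339) (nat_lit 0) .nil) .nil)))) 
(.nd (nat_lit 9) 
(.lf (nat_lit 502147) (.g (nat_lit 4471) (.e (nat_lit 163978) (nat_lit 30) (.e (nat_lit 573493) (nat_lit 15) (.e (nat_lit 81956) (nat_lit 23) (.e (nat_lit 98365) (nat_lit 26) .nil)))) (.g (nat_lit 0) (.e (nat_lit 172930) (nat_lit 0) .nil) .nil))) 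
(.lf (nat_lit 502659) (.g (nat_lit 2868) (.e (nat_lit 163979) (nat_lit 30) (.e (nat_lit 573487) (nat_lit 14) (.e (nat_lit 73753) (nat_lit 8) (.e (nat_lit 557098) (nat_lit 13) (.e (nat_lit 172066) (nat_lit 3) (.e (nat_lit 204815) (nat_lit 17) (.e (nat_lit 2271) (nat_lit 149) (.e (nat_lit 761898) (nat_lit 15) .nil)))))))) (.g (nat_lit 1) (.e (nat_lit 173669) (nat_lit 0) .nil) .nil)))))) 
(.nd (nat_lit 7) (.nd (nat_lit 8) (.nd (nat_lit 9) 
(.lf (nat_lit 501827) (.g (nat_lit 3735) (.e (nat_lit 163978) (nat_lit 30) (.e (nat_lit 573489) (nat_lit 14) (.e (nat_lit 73755) (nat_lit 8) (.e (nat_lit 557097) (nat_lit 13) (.e (nat_lit 172065) (nat_lit 3) (.e (nat_lit 204821) (nat_lit 17) (.e (nat_lit 2270) (nat_lit 149) (.e (nat_lit 761898) (nat_lit 15) .nil)))))))) (.g (nat_lit 1) (.e (nat_lit 171616) (nat_lit 0) .nil) .nil))) 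
(.lf (nat_lit 502339) (.g (nat_lit 1926) (.e (nat_lit 163979) (nat_lit 30) (.e (nat_lit 573482) (nat_lit 13) (.e (nat_lit 65604) (nat_lit 9) (.e (nat_lit 336028) (nat_lit 3) (.e (nat_lit 98367) (nat_lit 27) .nil))))) (.g (nat_lit 0) (.e (nat_lit 173258) (nat_lit 0) .nil) .nil)))) (.nd (nat_lit 9) 
(.lf (nat_lit 502083) (.g (nat_lit 5300) (.e (nat_lit 163978) (nat_lit 30) (.e (nat_lit 573490) (nat_lit 15) (.e (nat_lit 81956) (nat_lit 23) (.e (nat_lit 98367) (nat_lit 27) (.e (nat_lit 434272) (nat_lit 38) (.e (nat_lit 655375) (nat_lit 3) .nil)))))) (.g (nat_lit 1) (.e (nat_lit 172729) (nat_lit 0) .nil) .nil))) 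
(.lf (nat_lit 502595) (.g (nat_lit 4819) (.e (nat_lit 163979) (nat_lit 30) (.e (nat_lit 573482) (nat_lit 13) (.e (nat_lit 65619) (nat_lit 10) (.e (nat_lit 344117) (nat_lit 21) (.e (nat_lit 516170) (nat_lit 13) (.e (nat_lit 458774) (nat_lit 18) (.e (nat_lit 5547) (nat_lit 306) (.e (nat_lit 2599) (nat_lit 163) .nil)))))))) (.g (nat_lit 1) (.e (nat_lit 173534) (nat_lit 0) .nil) .nil))))) 
(.nd (nat_lit 8) (.nd (nat_lit 9) 
(.lf (nat_lit 501955) (.g (nat_lit 5594) (.e (nat_lit 163978) (nat_lit 30) (.e (nat_lit 573489) (nat_lit 14) (.e (nat_lit 73755) (nat_lit 8) (.e (nat_lit 557104) (nat_lit 14) (.e (nat_lit 180244) (nat_lit 5) (.e (nat_lit 532481) (nat_lit 0) (.e (nat_lit 2271) (nat_lit 149) (.e (nat_lit 761898) (nat_lit 15) .nil)))))))) (.g (nat_lit 1) (.e (nat_lit 172043) (nat_lit 0) .nil) .nil))) 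
(.lf (nat_lit 502467) (.g (nat_lit 3825) (.e (nat_lit 163979) (nat_lit 30) (.e (nat_lit 573482) (nat_lit 13) (.e (nat_lit 65619) (nat_lit 10) (.e (nat_lit 344117) (nat_lit 21) (.e (nat_lit 516151) (nat_lit 9) (.e (nat_lit 426042) (nat_lit 0) (.e (nat_lit 3403) (nat_lit 212) (.e (nat_lit 655373) (nat_lit 3) .nil)))))))) (.g (nat_lit 1) (.e (nat_lit 173403) (nat_lit 0) .nil) .nil)))) 
(.nd (nat_lit 9) 
(.lf (nat_lit 502211) (.g (nat_lit 3791) (.e (nat_lit 163979) (nat_lit 30) (.e (nat_lit 573482) (nat_lit 13) (.e (nat_lit 65604) (nat_lit 9) (.e (nat_lit 336013) (nat_lit 2) (.e (nat_lit 90170) (nat_lit 13) (.e (nat_lit 172046) (nat_lit 0) (.e (nat_lit 2458) (nat_lit 157) (.e (nat_lit 5546) (nat_lit 306) (.e (nat_lit 2601) (nat_lit 163) .nil))))))))) (.g (nat_lit 1) (.e (nat_lit 173097) (nat_lit 0) .nil) .nil))) 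
(.lf (nat_lit 502723) (.g (nat_lit 3275) (.e (nat_lit 163979) (nat_lit 30) (.e (nat_lit 573487) (nat_lit 14) (.e (nat_lit 73753) (nat_lit 8) (.e (nat_lit 557105) (nat_lit 14) (.e (nat_lit 180252) (nat_lit 10) (.e (nat_lit 573473) (nat_lit 12) (.e (nat_lit 57500) (nat_lit 37) (.e (nat_lit 630800) (nat_lit 7) .nil)))))))) (.g (nat_lit 1) (.e (nat_lit 173830) (nat_lit 0) .nil) .nil))))))) 
(.nd (nat_lit 6) (.nd (nat_lit 7) (.nd (nat_lit 8) (.nd (nat_lit 9) 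
(.lf (nat_lit 501795) (.g (nat_lit 3562) (.e (nat_lit 163978) (nat_lit 30) (.e (nat_lit 573489) (nat_lit 14) (.e (nat_lit 73754) (nat_lit 8) (.e (nat_lit 557103) (nat_lit 14) (.e (nat_lit 180243) (nat_lit 5) (.e (nat_lit 532501) (nat_lit 1) (.e (nat_lit 57663) (nat_lit 152) (.e (nat_lit 2612) (nat_lit 163) .nil)))))))) (.g (nat_lit 1) (.e (nat_lit 171519) (nat_lit 0) .nil) .nil))) 
(.lf (nat_lit 502307) (.g (nat_lit 3428) (.e (nat_lit 163979) (nat_lit 30) (.e (nat_lit 573482) (nat_lit 13) (.e (nat_lit 65604) (nat_lit 9) (.e (nat_lit 336028) (nat_lit 3) (.e (nat_lit 98359) (nat_lit 26) (.e (nat_lit 426104) (nat_lit 1) (.e (nat_lit 164345) (nat_lit 240) (.e (nat_lit 2601) (nat_lit 163) .nil)))))))) (.g (nat_lit 1) (.e (nat_lit 173210) (nat_lit 0) .nil) .nil)))) 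
(.nd (nat_lit 9) 
(.lf (nat_lit 502051) (.g (nat_lit 4860) (.e (nat_lit 163978) (nat_lit 30) (.e (nat_lit 573489) (nat_lit 14) (.e (nat_lit 73755) (nat_lit 8) (.e (nat_lit 557105) (nat_lit 14) (.e (nat_lit 180252) (nat_lit 10) (.e (nat_lit 573474) (nat_lit 12) (.e (nat_lit 57504) (nat_lit 38) (.e (nat_lit 646912) (nat_lit 7) .nil)))))))) (.g (nat_lit 1) (.e (nat_lit 172690) (nat_lit 0) .nil) .nil))) 
(.lf (nat_lit 502563) (.g (nat_lit 4333) (.e (nat_lit 163979) (nat_lit 30) (.e (nat_lit 573482) (nat_lit 13) (.e (nat_lit 65619) (nat_lit 10) (.e (nat_lit 344117) (nat_lit 21) (.e (nat_lit 516160) (nat_lit 10) (.e (nat_lit 434209) (nat_lit 18) (.e (nat_lit 5547) (nat_lit 306) (.e (nat_lit 2601) (nat_lit 163) .nil)))))))) (.g (nat_lit 1) (.e (nat_lit 173500) (nat_lit 0) .nil) .nil))))) 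
(.nd (nat_lit 8) (.nd (nat_lit 9) 
(.lf (nat_lit 501923) (.g (nat_lit 2825) (.e (nat_lit 163978) (nat_lit 30) (.e (nat_lit 573489) (nat_lit 14) (.e (nat_lit 73755) (nat_lit 8) (.e (nat_lit 557103) (nat_lit 14) (.e (nat_lit 180244) (nat_lit 5) (.e (nat_lit 532480) (nat_lit 0) (.e (nat_lit 2270) (nat_lit 149) (.e (nat_lit 761899) (nat_lit 15) .nil)))))))) (.g (nat_lit 1) (.e (nat_lit 171893) (nat_lit 0) .nil) .nil))) 
(.lf (nat_lit 502435) (.g (nat_lit 4413) (.e (nat_lit 163979) (nat_lit 30) (.e (nat_lit 573482) (nat_lit 13) (.e (nat_lit 65619) (nat_lit 10) (.e (nat_lit 344117) (nat_lit 21) (.e (nat_lit 516145) (nat_lit 9) (.e (nat_lit 426420) (nat_lit 15) (.e (nat_lit 2057) (nat_lit 142) (.e (nat_lit 704589) (nat_lit 3) .nil)))))))) (.g (nat_lit 1) (.e (nat_lit 173371) (nat_lit 0) .nil) .nil)))) 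
(.nd (nat_lit 9) 
(.lf (nat_lit 502179) (.g (nat_lit 3286) (.e (nat_lit 163979) (nat_lit 30) (.e (nat_lit 573482) (nat_lit 13) (.e (nat_lit 65563) (nat_lit 1) (.e (nat_lit 57927) (nat_lit 282) (.e (nat_lit 163943) (nat_lit 19) (.e (nat_lit 483345) (nat_lit 17) (.e (nat_lit 6712) (nat_lit 360) .nil))))))) (.g (nat_lit 1) (.e (nat_lit 173050) (nat_lit 0) .nil) .nil))) 
(.lf (nat_lit 502691) (.g (nat_lit 3022) (.e (nat_lit 163979) (nat_lit 30) (.e (nat_lit 573487) (nat_lit 14) (.e (nat_lit 73753) (nat_lit 8) (.e (nat_lit 557103) (nat_lit 14) (.e (nat_lit 180250) (nat_lit 10) (.e (nat_lit 573473) (nat_lit 12) (.e (nat_lit 57504) (nat_lit 38) (.e (nat_lit 638994) (nat_lit 7) .nil)))))))) (.g (nat_lit 1) (.e (nat_lit 173791) (nat_lit 0) .nil) .nil)))))) 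
(.nd (nat_lit 7) (.nd (nat_lit 8) (.nd (nat_lit 9) 
(.lf (nat_lit 501859) (.g (nat_lit 2909) (.e (nat_lit 163978) (nat_lit 30) (.e (nat_lit 573489) (nat_lit 14) (.e (nat_lit 73755) (nat_lit 8) (.e (nat_lit 557098) (nat_lit 13) (.e (nat_lit 172065) (nat_lit 3) (.e (nat_lit 204817) (nat_lit 17) (.e (nat_lit 2271) (nat_lit 149) (.e (nat_lit 761899) (nat_lit 15) .nil)))))))) (.g (nat_lit 1) (.e (nat_lit 171707) (nat_lit 0) .nil) .nil))) 
(.lf (nat_lit 502371) (.g (nat_lit 5692) (.e (nat_lit 163979) (nat_lit 30) (.e (nat_lit 573482) (nat_lit 13) (.e (nat_lit 65610) (nat_lit 10) (.e (nat_lit 344117) (nat_lit 21) (.e (nat_lit 516179) (nat_lit 15) (.e (nat_lit 475199) (nat_lit 40) (.e (nat_lit 704589) (nat_lit 3) .nil))))))) (.g (nat_lit 1) (.e (nat_lit 173304) (nat_lit 0) .nil) .nil)))) (.nd (nat_lit 9) 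
(.lf (nat_lit 502115) (.g (nat_lit 7122) (.e (nat_lit 163978) (nat_lit 30) (.e (nat_lit 573493) (nat_lit 15) (.e (nat_lit 81953) (nat_lit 22) (.e (nat_lit 90168) (nat_lit 13) .nil)))) (.g (nat_lit 0) (.e (nat_lit 172884) (nat_lit 0) .nil) .nil))) 
(.lf (nat_lit 502627) (.g (nat_lit 4335) (.e (nat_lit 163979) (nat_lit 30) (.e (nat_lit 573482) (nat_lit 13) (.e (nat_lit 65619) (nat_lit 10) (.e (nat_lit 344118) (nat_lit 21) (.e (nat_lit 516179) (nat_lit 15) (.e (nat_lit 475199) (nat_lit 40) (.e (nat_lit 704589) (nat_lit 3) .nil))))))) (.g (nat_lit 1) (.e (nat_lit 173567) (nat_lit 0) .nil) .nil))))) (.nd (nat_lit 8) (.nd (nat_lit 9) 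
(.lf (nat_lit 501987) (.g (nat_lit 2243) (.e (nat_lit 163978) (nat_lit 30) (.e (nat_lit 573489) (nat_lit 14) (.e (nat_lit 73755) (nat_lit 8) (.e (nat_lit 557105) (nat_lit 14) (.e (nat_lit 180242) (nat_lit 5) (.e (nat_lit 532489) (nat_lit 0) (.e (nat_lit 7936) (nat_lit 149) (.e (nat_lit 761898) (nat_lit 15) .nil)))))))) (.g (nat_lit 1) (.e (nat_lit 172207) (nat_lit 0) .nil) .nil))) 
(.lf (nat_lit 502499) (.g (nat_lit 4454) (.e (nat_lit 163979) (nat_lit 30) (.e (nat_lit 573482) (nat_lit 13) (.e (nat_lit 65619) (nat_lit 10) (.e (nat_lit 344117) (nat_lit 21) (.e (nat_lit 516151) (nat_lit 9) (.e (nat_lit 426396) (nat_lit 15) (.e (nat_lit 2058) (nat_lit 142) (.e (nat_lit 704589) (nat_lit 3) .nil)))))))) (.g (nat_lit 1) (.e (nat_lit 173435) (nat_lit 0) .nil) .nil)))) 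
(.nd (nat_lit 9) 
(.lf (nat_lit 502243) (.g (nat_lit 3760) (.e (nat_lit 163979) (nat_lit 30) (.e (nat_lit 573482) (nat_lit 13) (.e (nat_lit 65604) (nat_lit 9) (.e (nat_lit 336013) (nat_lit 2) (.e (nat_lit 90170) (nat_lit 13) (.e (nat_lit 172061) (nat_lit 1) (.e (nat_lit 164345) (nat_lit 240) (.e (nat_lit 2601) (nat_lit 163) .nil)))))))) (.g (nat_lit 1) (.e (nat_lit 173131) (nat_lit 0) .nil) .nil))) 
(.lf (nat_lit 502755) (.g (nat_lit 3066) (.e (nat_lit 163979) (nat_lit 30) (.e (nat_lit 573487) (nat_lit 14) (.e (nat_lit 73755) (nat_lit 8) (.e (nat_lit 557103) (nat_lit 14) (.e (nat_lit 180250) (nat_lit 10) (.e (nat_lit 573474) (nat_lit 12) (.e (nat_lit 57503) (nat_lit 38) (.e (nat_lit 638995) (nat_lit 7) .nil)))))))) (.g (nat_lit 1) (.e (nat_lit 173869) (nat_lit 0) .nil) .nil)))))))) 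
(.nd (nat_lit 5) (.nd (nat_lit 6) (.nd (nat_lit 7) (.nd (nat_lit 8) (.nd (nat_lit 9) 
(.lf (nat_lit 501779) (.g (nat_lit 2843) (.e (nat_lit 163978) (nat_lit 30) (.e (nat_lit 573489) (nat_lit 14) (.e (nat_lit 73754) (nat_lit 8) (.e (nat_lit 557101) (nat_lit 13) (.e (nat_lit 172066) (nat_lit 3) (.e (nat_lit 204815) (nat_lit 17) (.e (nat_lit 2271) (nat_lit 149) (.e (nat_lit 761898) (nat_lit 15) .nil)))))))) (.g (nat_lit 1) (.e (nat_lit 171483) (nat_lit 0) .nil) .nil))) 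
(.lf (nat_lit 502291) (.g (nat_lit 2744) (.e (nat_lit 163979) (nat_lit 30) (.e (nat_lit 573482) (nat_lit 13) (.e (nat_lit 65604) (nat_lit 9) (.e (nat_lit 336028) (nat_lit 3) (.e (nat_lit 98359) (nat_lit 26) (.e (nat_lit 426003) (nat_lit 0) (.e (nat_lit 3401) (nat_lit 211) (.e (nat_lit 647181) (nat_lit 3) .nil)))))))) (.g (nat_lit 1) (.e (nat_lit 173181) (nat_lit 0) .nil) .nil)))) (.nd (nat_lit 9) 
(.lf (nat_lit 502035) (.g (nat_lit 4218) (.e (nat_lit 163978) (nat_lit 30) (.e (nat_lit 573489) (nat_lit 14) (.e (nat_lit 73755) (nat_lit 8) (.e (nat_lit 557105) (nat_lit 14) (.e (nat_lit 180251) (nat_lit 10) (.e (nat_lit 573475) (nat_lit 12) (.e (nat_lit 57503) (nat_lit 38) (.e (nat_lit 638994) (nat_lit 7) .nil)))))))) (.g (nat_lit 1) (.e (nat_lit 172438) (nat_lit 0) .nil) .nil))) 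
(.lf (nat_lit 502547) (.g (nat_lit 2328) (.e (nat_lit 163979) (nat_lit 30) (.e (nat_lit 573482) (nat_lit 13) (.e (nat_lit 65619) (nat_lit 10) (.e (nat_lit 344117) (nat_lit 21) (.e (nat_lit 516159) (nat_lit 10) (.e (nat_lit 434212) (nat_lit 18) (.e (nat_lit 5548) (nat_lit 306) (.e (nat_lit 2599) (nat_lit 163) .nil)))))))) (.g (nat_lit 1) (.e (nat_lit 173483) (nat_lit 0) .nil) .nil))))) 
(.nd (nat_lit 8) (.nd (nat_lit 9) 
(.lf (nat_lit 501907) (.g (nat_lit 3663) (.e (nat_lit 163978) (nat_lit 30) (.e (nat_lit 573489) (nat_lit 14) (.e (nat_lit 73755) (nat_lit 8) (.e (nat_lit 557100) (nat_lit 13) (.e (nat_lit 172065) (nat_lit 3) (.e (nat_lit 204817) (nat_lit 17) (.e (nat_lit 2272) (nat_lit 149) (.e (nat_lit 761899) (nat_lit 15) .nil)))))))) (.g (nat_lit 1) (.e (nat_lit 171840) (nat_lit 0) .nil) .nil))) 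
(.lf (nat_lit 502419) (.g (nat_lit 2880) (.e (nat_lit 163979) (nat_lit 30) (.e (nat_lit 573482) (nat_lit 13) (.e (nat_lit 65619) (nat_lit 10) (.e (nat_lit 344117) (nat_lit 21) (.e (nat_lit 516145) (nat_lit 9) (.e (nat_lit 433920) (nat_lit 1) (.e (nat_lit 164347) (nat_lit 240) (.e (nat_lit 2611) (nat_lit 163) .nil)))))))) (.g (nat_lit 1) (.e (nat_lit 173355) (nat_lit 0) .nil) .nil)))) 
(.nd (nat_lit 9) 
(.lf (nat_lit 502163) (.g (nat_lit 2665) (.e (nat_lit 163979) (nat_lit 30) (.e (nat_lit 573475) (nat_lit 12) (.e (nat_lit 57530) (nat_lit 46) (.e (nat_lit 704590) (nat_lit 3) (.e (nat_lit 163962) (nat_lit 25) (.e (nat_lit 532543) (nat_lit 10) (.e (nat_lit 344117) (nat_lit 21) (.e (nat_lit 516123) (nat_lit 2) (.e (nat_lit 213033) (nat_lit 12) .nil))))))))) (.g (nat_lit 1) (.e (nat_lit 173007) (nat_lit 0) .nil) .nil))) 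
(.lf (nat_lit 502675) (.g (nat_lit 2853) (.e (nat_lit 163979) (nat_lit 30) (.e (nat_lit 573487) (nat_lit 14) (.e (nat_lit 73753) (nat_lit 8) (.e (nat_lit 557100) (nat_lit 13) (.e (nat_lit 172138) (nat_lit 15) .nil))))) (.g (nat_lit 0) (.e (nat_lit 173719) (nat_lit 0) .nil) .nil)))))) (.nd (nat_lit 7) (.nd (nat_lit 8) (.nd (nat_lit 9) 
(.lf (nat_lit 501843) (.g (nat_lit 4377) (.e (nat_lit 163978) (nat_lit 30) (.e (nat_lit 573489) (nat_lit 14) (.e (nat_lit 73755) (nat_lit 8) (.e (nat_lit 557097) (nat_lit 13) (.e (nat_lit 172067) (nat_lit 3) (.e (nat_lit 204815) (nat_lit 17) (.e (nat_lit 2271) (nat_lit 149) (.e (nat_lit 761899) (nat_lit 15) .nil)))))))) (.g (nat_lit 1) (.e (nat_lit 171641) (nat_lit 0) .nil) .nil))) 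
(.lf (nat_lit 502355) (.g (nat_lit 3656) (.e (nat_lit 163979) (nat_lit 30) (.e (nat_lit 573482) (nat_lit 13) (.e (nat_lit 65604) (nat_lit 9) (.e (nat_lit 336028) (nat_lit 3) (.e (nat_lit 98384) (nat_lit 32) (.e (nat_lit 475201) (nat_lit 40) (.e (nat_lit 712448) (nat_lit 3) .nil))))))) (.g (nat_lit 1) (.e (nat_lit 173287) (nat_lit 0) .nil) .nil)))) (.nd (nat_lit 9) 
(.lf (nat_lit 502099) (.g (nat_lit 4422) (.e (nat_lit 163978) (nat_lit 30) (.e (nat_lit 573491) (nat_lit 15) (.e (nat_lit 81956) (nat_lit 23) (.e (nat_lit 98366) (nat_lit 27) (.e (nat_lit 434272) (nat_lit 38) (.e (nat_lit 655375) (nat_lit 3) .nil)))))) (.g (nat_lit 1) (.e (nat_lit 172771) (nat_lit 0) .nil) .nil))) 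
(.lf (nat_lit 502611) (.g (nat_lit 4679) (.e (nat_lit 163979) (nat_lit 30) (.e (nat_lit 573482) (nat_lit 13) (.e (nat_lit 65619) (nat_lit 10) (.e (nat_lit 344117) (nat_lit 21) (.e (nat_lit 516179) (nat_lit 15) (.e (nat_lit 475197) (nat_lit 40) (.e (nat_lit 704589) (nat_lit 3) .nil))))))) (.g (nat_lit 1) (.e (nat_lit 173551) (nat_lit 0) .nil) .nil))))) (.nd (nat_lit 8) (.nd (nat_lit 9) 
(.lf (nat_lit 501971) (.g (nat_lit 3995) (.e (nat_lit 163978) (nat_lit 30) (.e (nat_lit 573489) (nat_lit 14) (.e (nat_lit 73755) (nat_lit 8) (.e (nat_lit 557104) (nat_lit 14) (.e (nat_lit 180244) (nat_lit 5) (.e (nat_lit 532501) (nat_lit 1) (.e (nat_lit 57662) (nat_lit 152) (.e (nat_lit 2606) (nat_lit 163) .nil)))))))) (.g (nat_lit 1) (.e (nat_lit 172103) (nat_lit 0) .nil) .nil))) 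
(.lf (nat_lit 502483) (.g (nat_lit 4369) (.e (nat_lit 163979) (nat_lit 30) (.e (nat_lit 573482) (nat_lit 13) (.e (nat_lit 65619) (nat_lit 10) (.e (nat_lit 344117) (nat_lit 21) (.e (nat_lit 516151) (nat_lit 9) (.e (nat_lit 426097) (nat_lit 1) (.e (nat_lit 164347) (nat_lit 240) (.e (nat_lit 2599) (nat_lit 163) .nil)))))))) (.g (nat_lit 1) (.e (nat_lit 173419) (nat_lit 0) .nil) .nil)))) 
(.nd (nat_lit 9) 
(.lf (nat_lit 502227) (.g (nat_lit 4926) (.e (nat_lit 163979) (nat_lit 30) (.e (nat_lit 573482) (nat_lit 13) (.e (nat_lit 65604) (nat_lit 9) (.e (nat_lit 336013) (nat_lit 2) (.e (nat_lit 90170) (nat_lit 13) (.e (nat_lit 172049) (nat_lit 0) (.e (nat_lit 3409) (nat_lit 212) (.e (nat_lit 655375) (nat_lit 3) .nil)))))))) (.g (nat_lit 1) (.e (nat_lit 173115) (nat_lit 0) .nil) .nil))) 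
(.lf (nat_lit 502739) (.g (nat_lit 612) (.e (nat_lit 163979) (nat_lit 30) (.e (nat_lit 573487) (nat_lit 14) (.e (nat_lit 73754) (nat_lit 8) .nil))) (.g (nat_lit 0) (.e (nat_lit 173849) (nat_lit 0) .nil) .nil))))))) (.nd (nat_lit 6) (.nd (nat_lit 7) (.nd (nat_lit 8) (.nd (nat_lit 9) 
(.lf (nat_lit 501811) (.g (nat_lit 2938) (.e (nat_lit 163978) (nat_lit 30) (.e (nat_lit 573489) (nat_lit 14) (.e (nat_lit 73755) (nat_lit 8) (.e (nat_lit 557096) (nat_lit 13) (.e (nat_lit 172065) (nat_lit 3) (.e (nat_lit 204830) (nat_lit 18) (.e (nat_lit 57663) (nat_lit 152) (.e (nat_lit 2612) (nat_lit 163) .nil)))))))) (.g (nat_lit 1) (.e (nat_lit 171583) (nat_lit 0) .nil) .nil))) 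
(.lf (nat_lit 502323) (.g (nat_lit 2445) (.e (nat_lit 163979) (nat_lit 30) (.e (nat_lit 573482) (nat_lit 13) (.e (nat_lit 65604) (nat_lit 9) (.e (nat_lit 336028) (nat_lit 3) (.e (nat_lit 98362) (nat_lit 26) .nil))))) (.g (nat_lit 0) (.e (nat_lit 173234) (nat_lit 0) .nil) .nil)))) (.nd (nat_lit 9) 
(.lf (nat_lit 502067) (.g (nat_lit 397) (.e (nat_lit 163978) (nat_lit 30) (.e (nat_lit 573489) (nat_lit 14) (.e (nat_lit 73768) (nat_lit 19) .nil))) (.g (nat_lit 0) (.e (nat_lit 172707) (nat_lit 0) .nil) .nil))) 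
(.lf (nat_lit 502579) (.g (nat_lit 2485) (.e (nat_lit 163979) (nat_lit 30) (.e (nat_lit 573482) (nat_lit 13) (.e (nat_lit 65619) (nat_lit 10) (.e (nat_lit 344117) (nat_lit 21) (.e (nat_lit 516161) (nat_lit 10) (.e (nat_lit 434271) (nat_lit 38) (.e (nat_lit 655375) (nat_lit 3) .nil))))))) (.g (nat_lit 1) (.e (nat_lit 173516) (nat_lit 0) .nil) .nil))))) (.nd (nat_lit 8) (.nd (nat_lit 9) 
(.lf (nat_lit 501939) (.g (nat_lit 3583) (.e (nat_lit 163978) (nat_lit 30) (.e (nat_lit 573489) (nat_lit 14) (.e (nat_lit 73755) (nat_lit 8) (.e (nat_lit 557103) (nat_lit 14) (.e (nat_lit 180244) (nat_lit 5) (.e (nat_lit 532503) (nat_lit 1) (.e (nat_lit 57652) (nat_lit 152) (.e (nat_lit 2606) (nat_lit 163) .nil)))))))) (.g (nat_lit 1) (.e (nat_lit 171971) (nat_lit 0) .nil) .nil))) 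
(.lf (nat_lit 502451) (.g (nat_lit 3033) (.e (nat_lit 163979) (nat_lit 30) (.e (nat_lit 573482) (nat_lit 13) (.e (nat_lit 65619) (nat_lit 10) (.e (nat_lit 344117) (nat_lit 21) (.e (nat_lit 516151) (nat_lit 9) (.e (nat_lit 426003) (nat_lit 0) (.e (nat_lit 3401) (nat_lit 211) (.e (nat_lit 647180) (nat_lit 3) .nil)))))))) (.g (nat_lit 1) (.e (nat_lit 173387) (nat_lit 0) .nil) .nil)))) 
(.nd (nat_lit 9) 
(.lf (nat_lit 502195) (.g (nat_lit 3643) (.e (nat_lit 163979) (nat_lit 30) (.e (nat_lit 573482) (nat_lit 13) (.e (nat_lit 65604) (nat_lit 9) (.e (nat_lit 336013) (nat_lit 2) (.e (nat_lit 90170) (nat_lit 13) (.e (nat_lit 172033) (nat_lit 0) (.e (nat_lit 3397) (nat_lit 211) (.e (nat_lit 647181) (nat_lit 3) .nil)))))))) (.g (nat_lit 1) (.e (nat_lit 173079) (nat_lit 0) .nil) .nil))) 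
(.lf (nat_lit 502707) (.g (nat_lit 3266) (.e (nat_lit 163979) (nat_lit 30) (.e (nat_lit 573487) (nat_lit 14) (.e (nat_lit 73753) (nat_lit 8) (.e (nat_lit 557103) (nat_lit 14) (.e (nat_lit 180250) (nat_lit 10) (.e (nat_lit 573477) (nat_lit 12) (.e (nat_lit 57502) (nat_lit 38) (.e (nat_lit 638996) (nat_lit 7) .nil)))))))) (.g (nat_lit 1) (.e (nat_lit 173809) (nat_lit 0) .nil) .nil)))))) 
(.nd (nat_lit 7) (.nd (nat_lit 8) (.nd (nat_lit 9) 
(.lf (nat_lit 501875) (.g (nat_lit 2963) (.e (nat_lit 163978) (nat_lit 30) (.e (nat_lit 573489) (nat_lit 14) (.e (nat_lit 73755) (nat_lit 8) (.e (nat_lit 557098) (nat_lit 13) (.e (nat_lit 172066) (nat_lit 3) (.e (nat_lit 204820) (nat_lit 17) (.e (nat_lit 7936) (nat_lit 149) (.e (nat_lit 761898) (nat_lit 15) .nil)))))))) (.g (nat_lit 1) (.e (nat_lit 171743) (nat_lit 0) .nil) .nil))) 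
(.lf (nat_lit 502387) (.g (nat_lit 2097) (.e (nat_lit 163979) (nat_lit 30) (.e (nat_lit 573482) (nat_lit 13) (.e (nat_lit 65619) (nat_lit 10) (.e (nat_lit 344117) (nat_lit 21) (.e (nat_lit 516106) (nat_lit 0) (.e (nat_lit 7936) (nat_lit 388) (.e (nat_lit 2610) (nat_lit 163) (.e (nat_lit 164347) (nat_lit 240) (.e (nat_lit 2601) (nat_lit 163) .nil))))))))) (.g (nat_lit 1) (.e (nat_lit 173322) (nat_lit 0) .nil) .nil)))) 
(.nd (nat_lit 9) 
(.lf (nat_lit 502131) (.g (nat_lit 2854) (.e (nat_lit 163978) (nat_lit 30) (.e (nat_lit 573493) (nat_lit 15) (.e (nat_lit 81954) (nat_lit 23) (.e (nat_lit 98366) (nat_lit 27) (.e (nat_lit 434271) (nat_lit 38) (.e (nat_lit 655375) (nat_lit 3) .nil)))))) (.g (nat_lit 1) (.e (nat_lit 172902) (nat_lit 0) .nil) .nil))) 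
(.lf (nat_lit 502643) (.g (nat_lit 2781) (.e (nat_lit 163979) (nat_lit 30) (.e (nat_lit 573483) (nat_lit 13) (.e (nat_lit 65610) (nat_lit 10) (.e (nat_lit 344117) (nat_lit 21) (.e (nat_lit 516160) (nat_lit 10) (.e (nat_lit 434272) (nat_lit 38) (.e (nat_lit 655375) (nat_lit 3) .nil))))))) (.g (nat_lit 1) (.e (nat_lit 173619) (nat_lit 0) .nil) .nil))))) (.nd (nat_lit 8) (.nd (nat_lit 9) 
(.lf (nat_lit 502003) (.g (nat_lit 2787) (.e (nat_lit 163978) (nat_lit 30) (.e (nat_lit 573489) (nat_lit 14) (.e (nat_lit 73755) (nat_lit 8) (.e (nat_lit 557105) (nat_lit 14) (.e (nat_lit 180244) (nat_lit 5) (.e (nat_lit 532503) (nat_lit 1) (.e (nat_lit 57658) (nat_lit 152) (.e (nat_lit 2606) (nat_lit 163) .nil)))))))) (.g (nat_lit 1) (.e (nat_lit 172269) (nat_lit 0) .nil) .nil))) 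
(.lf (nat_lit 502515) (.g (nat_lit 3105) (.e (nat_lit 163979) (nat_lit 30) (.e (nat_lit 573482) (nat_lit 13) (.e (nat_lit 65619) (nat_lit 10) (.e (nat_lit 344117) (nat_lit 21) (.e (nat_lit 516152) (nat_lit 9) (.e (nat_lit 426109) (nat_lit 1) (.e (nat_lit 164347) (nat_lit 240) (.e (nat_lit 2599) (nat_lit 163) .nil)))))))) (.g (nat_lit 1) (.e (nat_lit 173451) (nat_lit 0) .nil) .nil)))) 
(.nd (nat_lit 9) 
(.lf (nat_lit 502259) (.g (nat_lit 3391) (.e (nat_lit 163979) (nat_lit 30) (.e (nat_lit 573482) (nat_lit 13) (.e (nat_lit 65604) (nat_lit 9) (.e (nat_lit 336013) (nat_lit 2) (.e (nat_lit 90170) (nat_lit 13) (.e (nat_lit 172069) (nat_lit 4) (.e (nat_lit 229664) (nat_lit 240) (.e (nat_lit 2612) (nat_lit 163) .nil)))))))) (.g (nat_lit 1) (.e (nat_lit 173147) (nat_lit 0) .nil) .nil))) 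
(.lf (nat_lit 502771) (.g (nat_lit 3096) (.e (nat_lit 163979) (nat_lit 30) (.e (nat_lit 573488) (nat_lit 14) (.e (nat_lit 73753) (nat_lit 8) (.e (nat_lit 557103) (nat_lit 14) (.e (nat_lit 180250) (nat_lit 10) (.e (nat_lit 573477) (nat_lit 12) (.e (nat_lit 57502) (nat_lit 38) (.e (nat_lit 638995) (nat_lit 7) .nil)))))))) (.g (nat_lit 1) (.e (nat_lit 173896) (nat_lit 0) .nil) .nil))))))))) 
(.nd (nat_lit 4) (.nd (nat_lit 5) (.nd (nat_lit 6) (.nd (nat_lit 7) (.nd (nat_lit 8) 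
(.nd (nat_lit 9) 
(.lf (nat_lit 501771) (.g (nat_lit 3575) (.e (nat_lit 163978) (nat_lit 30) (.e (nat_lit 573489) (nat_lit 14) (.e (nat_lit 73754) (nat_lit 8) (.e (nat_lit 557101) (nat_lit 13) (.e (nat_lit 172065) (nat_lit 3) (.e (nat_lit 204817) (nat_lit 17) (.e (nat_lit 2272) (nat_lit 149) (.e (nat_lit 761899) (nat_lit 15) .nil)))))))) (.g (nat_lit 1) (.e (nat_lit 171470) (nat_lit 0) .nil) .nil))) 
(.lf (nat_lit 502283) (.g (nat_lit 3396) (.e (nat_lit 163979) (nat_lit 30) (.e (nat_lit 573482) (nat_lit 13) (.e (nat_lit 65604) (nat_lit 9) (.e (nat_lit 336028) (nat_lit 3) (.e (nat_lit 98354) (nat_lit 26) (.e (nat_lit 426109) (nat_lit 1) (.e (nat_lit 164345) (nat_lit 240) (.e (nat_lit 2601) (nat_lit 163) .nil)))))))) (.g (nat_lit 1) (.e (nat_lit 173172) (nat_lit 0) .nil) .nil)))) 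
(.nd (nat_lit 9) 
(.lf (nat_lit 502027) (.g (nat_lit 3950) (.e (nat_lit 163978) (nat_lit 30) (.e (nat_lit 573489) (nat_lit 14) (.e (nat_lit 73755) (nat_lit 8) (.e (nat_lit 557105) (nat_lit 14) (.e (nat_lit 180245) (nat_lit 5) (.e (nat_lit 532504) (nat_lit 1) (.e (nat_lit 57663) (nat_lit 152) (.e (nat_lit 2612) (nat_lit 163) .nil)))))))) (.g (nat_lit 1) (.e (nat_lit 172409) (nat_lit 0) .nil) .nil))) 
(.lf (nat_lit 502539) (.g (nat_lit 2773) (.e (nat_lit 163979) (nat_lit 30) (.e (nat_lit 573482) (nat_lit 13) (.e (nat_lit 65619) (nat_lit 10) (.e (nat_lit 344117) (nat_lit 21) (.e (nat_lit 516159) (nat_lit 10) (.e (nat_lit 434202) (nat_lit 18) (.e (nat_lit 5537) (nat_lit 306) (.e (nat_lit 7936) (nat_lit 163) .nil)))))))) (.g (nat_lit 1) (.e (nat_lit 173475) (nat_lit 0) .nil) .nil))))) 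
(.nd (nat_lit 8) (.nd (nat_lit 9) 
(.lf (nat_lit 501899) (.g (nat_lit 3124) (.e (nat_lit 163978) (nat_lit 30) (.e (nat_lit 573489) (nat_lit 14) (.e (nat_lit 73755) (nat_lit 8) (.e (nat_lit 557098) (nat_lit 13) (.e (nat_lit 172131) (nat_lit 15) .nil))))) (.g (nat_lit 0) (.e (nat_lit 171815) (nat_lit 0) .nil) .nil))) 
(.lf (nat_lit 502411) (.g (nat_lit 2589) (.e (nat_lit 163979) (nat_lit 30) (.e (nat_lit 573482) (nat_lit 13) (.e (nat_lit 65619) (nat_lit 10) (.e (nat_lit 344117) (nat_lit 21) (.e (nat_lit 516144) (nat_lit 9) (.e (nat_lit 426399) (nat_lit 15) (.e (nat_lit 2056) (nat_lit 142) (.e (nat_lit 704589) (nat_lit 3) .nil)))))))) (.g (nat_lit 1) (.e (nat_lit 173347) (nat_lit 0) .nil) .nil)))) 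
(.nd (nat_lit 9) 
(.lf (nat_lit 502155) (.g (nat_lit 5244) (.e (nat_lit 163978) (nat_lit 30) (.e (nat_lit 573493) (nat_lit 15) (.e (nat_lit 81956) (nat_lit 23) (.e (nat_lit 98383) (nat_lit 32) .nil)))) (.g (nat_lit 0) (.e (nat_lit 172943) (nat_lit 0) .nil) .nil))) 
(.lf (nat_lit 502667) (.g (nat_lit 3021) (.e (nat_lit 163979) (nat_lit 30) (.e (nat_lit 573487) (nat_lit 14) (.e (nat_lit 73753) (nat_lit 8) (.e (nat_lit 557100) (nat_lit 13) (.e (nat_lit 172065) (nat_lit 3) (.e (nat_lit 204817) (nat_lit 17) (.e (nat_lit 2271) (nat_lit 149) (.e (nat_lit 761898) (nat_lit 15) .nil)))))))) (.g (nat_lit 1) (.e (nat_lit 173695) (nat_lit 0) .nil) .nil)))))) 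
(.nd (nat_lit 7) (.nd (nat_lit 8) (.nd (nat_lit 9) 
(.lf (nat_lit 501835) (.g (nat_lit 3314) (.e (nat_lit 163978) (nat_lit 30) (.e (nat_lit 573489) (nat_lit 14) (.e (nat_lit 73755) (nat_lit 8) (.e (nat_lit 557097) (nat_lit 13) (.e (nat_lit 172066) (nat_lit 3) (.e (nat_lit 204817) (nat_lit 17) (.e (nat_lit 7936) (nat_lit 149) (.e (nat_lit 761899) (nat_lit 15) .nil)))))))) (.g (nat_lit 1) (.e (nat_lit 171626) (nat_lit 0) .nil) .nil))) 
(.lf (nat_lit 502347) (.g (nat_lit 3763) (.e (nat_lit 163979) (nat_lit 30) (.e (nat_lit 573482) (nat_lit 13) (.e (nat_lit 65604) (nat_lit 9) (.e (nat_lit 336028) (nat_lit 3) (.e (nat_lit 98367) (nat_lit 27) (.e (nat_lit 434271) (nat_lit 38) (.e (nat_lit 655374) (nat_lit 3) .nil))))))) (.g (nat_lit 1) (.e (nat_lit 173278) (nat_lit 0) .nil) .nil)))) (.nd (nat_lit 9) 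
(.lf (nat_lit 502091) (.g (nat_lit 2594) (.e (nat_lit 163978) (nat_lit 30) (.e (nat_lit 573491) (nat_lit 15) (.e (nat_lit 81953) (nat_lit 22) (.e (nat_lit 90170) (nat_lit 13) (.e (nat_lit 172042) (nat_lit 0) .nil))))) (.g (nat_lit 0) (.e (nat_lit 172763) (nat_lit 0) .nil) .nil))) 
(.lf (nat_lit 502603) (.g (nat_lit 3093) (.e (nat_lit 163979) (nat_lit 30) (.e (nat_lit 573482) (nat_lit 13) (.e (nat_lit 65619) (nat_lit 10) (.e (nat_lit 344117) (nat_lit 21) (.e (nat_lit 516171) (nat_lit 13) (.e (nat_lit 458774) (nat_lit 18) (.e (nat_lit 5548) (nat_lit 306) (.e (nat_lit 2601) (nat_lit 163) .nil)))))))) (.g (nat_lit 1) (.e (nat_lit 173543) (nat_lit 0) .nil) .nil))))) 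
(.nd (nat_lit 8) (.nd (nat_lit 9) 
(.lf (nat_lit 501963) (.g (nat_lit 3235) (.e (nat_lit 163978) (nat_lit 30) (.e (nat_lit 573489) (nat_lit 14) (.e (nat_lit 73755) (nat_lit 8) (.e (nat_lit 557104) (nat_lit 14) (.e (nat_lit 180244) (nat_lit 5) (.e (nat_lit 532489) (nat_lit 0) (.e (nat_lit 2272) (nat_lit 149) (.e (nat_lit 761899) (nat_lit 15) .nil)))))))) (.g (nat_lit 1) (.e (nat_lit 172055) (nat_lit 0) .nil) .nil))) 
(.lf (nat_lit 502475) (.g (nat_lit 2411) (.e (nat_lit 163979) (nat_lit 30) (.e (nat_lit 573482) (nat_lit 13) (.e (nat_lit 65619) (nat_lit 10) (.e (nat_lit 344117) (nat_lit 21) (.e (nat_lit 516151) (nat_lit 9) (.e (nat_lit 426043) (nat_lit 0) (.e (nat_lit 2458) (nat_lit 157) (.e (nat_lit 5547) (nat_lit 306) (.e (nat_lit 2611) (nat_lit 163) .nil))))))))) (.g (nat_lit 1) (.e (nat_lit 173411) (nat_lit 0) .nil) .nil)))) 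
(.nd (nat_lit 9) 
(.lf (nat_lit 502219) (.g (nat_lit 3491) (.e (nat_lit 163979) (nat_lit 30) (.e (nat_lit 573482) (nat_lit 13) (.e (nat_lit 65604) (nat_lit 9) (.e (nat_lit 336013) (nat_lit 2) (.e (nat_lit 90170) (nat_lit 13) (.e (nat_lit 172046) (nat_lit 0) (.e (nat_lit 3407) (nat_lit 212) (.e (nat_lit 655375) (nat_lit 3) .nil)))))))) (.g (nat_lit 1) (.e (nat_lit 173106) (nat_lit 0) .nil) .nil))) 
(.lf (nat_lit 502731) (.g (nat_lit 4197) (.e (nat_lit 163979) (nat_lit 30) (.e (nat_lit 573487) (nat_lit 14) (.e (nat_lit 73753) (nat_lit 8) (.e (nat_lit 557105) (nat_lit 14) (.e (nat_lit 180252) (nat_lit 10) (.e (nat_lit 573475) (nat_lit 12) (.e (nat_lit 57501) (nat_lit 37) (.e (nat_lit 630800) (nat_lit 7) .nil)))))))) (.g (nat_lit 1) (.e (nat_lit 173841) (nat_lit 0) .nil) .nil))))))) 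
(.nd (nat_lit 6) (.nd (nat_lit 7) (.nd (nat_lit 8) (.nd (nat_lit 9) 
(.lf (nat_lit 501803) (.g (nat_lit 2814) (.e (nat_lit 163978) (nat_lit 30) (.e (nat_lit 573489) (nat_lit 14) (.e (nat_lit 73754) (nat_lit 8) (.e (nat_lit 557105) (nat_lit 14) (.e (nat_lit 180252) (nat_lit 10) (.e (nat_lit 573475) (nat_lit 12) (.e (nat_lit 57500) (nat_lit 37) (.e (nat_lit 630799) (nat_lit 7) .nil)))))))) (.g (nat_lit 1) (.e (nat_lit 171537) (nat_lit 0) .nil) .nil))) 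
(.lf (nat_lit 502315) (.g (nat_lit 2730) (.e (nat_lit 163979) (nat_lit 30) (.e (nat_lit 573482) (nat_lit 13) (.e (nat_lit 65604) (nat_lit 9) (.e (nat_lit 336028) (nat_lit 3) (.e (nat_lit 98360) (nat_lit 26) (.e (nat_lit 426396) (nat_lit 15) (.e (nat_lit 2059) (nat_lit 142) (.e (nat_lit 704589) (nat_lit 3) .nil)))))))) (.g (nat_lit 1) (.e (nat_lit 173225) (nat_lit 0) .nil) .nil)))) 
(.nd (nat_lit 9) 
(.lf (nat_lit 502059) (.g (nat_lit 5190) (.e (nat_lit 163978) (nat_lit 30) (.e (nat_lit 573489) (nat_lit 14) (.e (nat_lit 73755) (nat_lit 8) (.e (nat_lit 557105) (nat_lit 14) (.e (nat_lit 180252) (nat_lit 10) (.e (nat_lit 573475) (nat_lit 12) (.e (nat_lit 57503) (nat_lit 38) (.e (nat_lit 638994) (nat_lit 7) .nil)))))))) (.g (nat_lit 1) (.e (nat_lit 172698) (nat_lit 0) .nil) .nil))) 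
(.lf (nat_lit 502571) (.g (nat_lit 4717) (.e (nat_lit 163979) (nat_lit 30) (.e (nat_lit 573482) (nat_lit 13) (.e (nat_lit 65619) (nat_lit 10) (.e (nat_lit 344117) (nat_lit 21) (.e (nat_lit 516160) (nat_lit 10) (.e (nat_lit 434272) (nat_lit 38) (.e (nat_lit 655374) (nat_lit 3) .nil))))))) (.g (nat_lit 1) (.e (nat_lit 173508) (nat_lit 0) .nil) .nil))))) (.nd (nat_lit 8) (.nd (nat_lit 9) 
(.lf (nat_lit 501931) (.g (nat_lit 3359) (.e (nat_lit 163978) (nat_lit 30) (.e (nat_lit 573489) (nat_lit 14) (.e (nat_lit 73755) (nat_lit 8) (.e (nat_lit 557103) (nat_lit 14) (.e (nat_lit 180244) (nat_lit 5) (.e (nat_lit 532491) (nat_lit 0) (.e (nat_lit 2270) (nat_lit 149) (.e (nat_lit 761899) (nat_lit 15) .nil)))))))) (.g (nat_lit 1) (.e (nat_lit 171905) (nat_lit 0) .nil) .nil))) 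
(.lf (nat_lit 502443) (.g (nat_lit 2564) (.e (nat_lit 163979) (nat_lit 30) (.e (nat_lit 573482) (nat_lit 13) (.e (nat_lit 65619) (nat_lit 10) (.e (nat_lit 344117) (nat_lit 21) (.e (nat_lit 516147) (nat_lit 9) (.e (nat_lit 426420) (nat_lit 15) (.e (nat_lit 2058) (nat_lit 142) (.e (nat_lit 704589) (nat_lit 3) .nil)))))))) (.g (nat_lit 1) (.e (nat_lit 173379) (nat_lit 0) .nil) .nil)))) 
(.nd (nat_lit 9) 
(.lf (nat_lit 502187) (.g (nat_lit 4500) (.e (nat_lit 163979) (nat_lit 30) (.e (nat_lit 573482) (nat_lit 13) (.e (nat_lit 65604) (nat_lit 9) (.e (nat_lit 336013) (nat_lit 2) (.e (nat_lit 90166) (nat_lit 13) (.e (nat_lit 172133) (nat_lit 15) (.e (nat_lit 2059) (nat_lit 142) (.e (nat_lit 704589) (nat_lit 3) .nil)))))))) (.g (nat_lit 1) (.e (nat_lit 173071) (nat_lit 0) .nil) .nil))) 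
(.lf (nat_lit 502699) (.g (nat_lit 3710) (.e (nat_lit 163979) (nat_lit 30) (.e (nat_lit 573487) (nat_lit 14) (.e (nat_lit 73753) (nat_lit 8) (.e (nat_lit 557103) (nat_lit 14) (.e (nat_lit 180250) (nat_lit 10) (.e (nat_lit 573475) (nat_lit 12) (.e (nat_lit 57503) (nat_lit 38) (.e (nat_lit 638994) (nat_lit 7) .nil)))))))) (.g (nat_lit 1) (.e (nat_lit 173800) (nat_lit 0) .nil) .nil)))))) 
(.nd (nat_lit 7) (.nd (nat_lit 8) (.nd (nat_lit 9) 
(.lf (nat_lit 501867) (.g (nat_lit 2719) (.e (nat_lit 163978) (nat_lit 30) (.e (nat_lit 573489) (nat_lit 14) (.e (nat_lit 73755) (nat_lit 8) (.e (nat_lit 557098) (nat_lit 13) (.e (nat_lit 172066) (nat_lit 3) .nil))))) (.g (nat_lit 0) (.e (nat_lit 171733) (nat_lit 0) .nil) .nil))) 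
(.lf (nat_lit 502379) (.g (nat_lit 4620) (.e (nat_lit 163979) (nat_lit 30) (.e (nat_lit 573482) (nat_lit 13) (.e (nat_lit 65618) (nat_lit 10) (.e (nat_lit 344117) (nat_lit 21) (.e (nat_lit 516179) (nat_lit 15) (.e (nat_lit 475199) (nat_lit 40) (.e (nat_lit 704589) (nat_lit 3) .nil))))))) (.g (nat_lit 1) (.e (nat_lit 173312) (nat_lit 0) .nil) .nil)))) (.nd (nat_lit 9) 
(.lf (nat_lit 502123) (.g (nat_lit 6718) (.e (nat_lit 163978) (nat_lit 30) (.e (nat_lit 573493) (nat_lit 15) (.e (nat_lit 81953) (nat_lit 22) (.e (nat_lit 90184) (nat_lit 17) .nil)))) (.g (nat_lit 0) (.e (nat_lit 172893) (nat_lit 0) .nil) .nil))) 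
(.lf (nat_lit 502635) (.g (nat_lit 3597) (.e (nat_lit 163979) (nat_lit 30) (.e (nat_lit 573482) (nat_lit 13) (.e (nat_lit 65619) (nat_lit 10) (.e (nat_lit 344129) (nat_lit 26) (.e (nat_lit 557087) (nat_lit 11) (.e (nat_lit 24597) (nat_lit 1) (.e (nat_lit 57771) (nat_lit 227) (.e (nat_lit 2607) (nat_lit 163) .nil)))))))) (.g (nat_lit 1) (.e (nat_lit 173597) (nat_lit 0) .nil) .nil))))) 
(.nd (nat_lit 8) (.nd (nat_lit 9) 
(.lf (nat_lit 501995) (.g (nat_lit 2815) (.e (nat_lit 163978) (nat_lit 30) (.e (nat_lit 573489) (nat_lit 14) (.e (nat_lit 73755) (nat_lit 8) (.e (nat_lit 557105) (nat_lit 14) (.e (nat_lit 180244) (nat_lit 5) (.e (nat_lit 532489) (nat_lit 0) (.e (nat_lit 7936) (nat_lit 149) (.e (nat_lit 761898) (nat_lit 15) .nil)))))))) (.g (nat_lit 1) (.e (nat_lit 172234) (nat_lit 0) .nil) .nil))) 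
(.lf (nat_lit 502507) (.g (nat_lit 2341) (.e (nat_lit 163979) (nat_lit 30) (.e (nat_lit 573482) (nat_lit 13) (.e (nat_lit 65619) (nat_lit 10) (.e (nat_lit 344117) (nat_lit 21) (.e (nat_lit 516152) (nat_lit 9) .nil))))) (.g (nat_lit 0) (.e (nat_lit 173443) (nat_lit 0) .nil) .nil)))) (.nd (nat_lit 9) 
(.lf (nat_lit 502251) (.g (nat_lit 2555) (.e (nat_lit 163979) (nat_lit 30) (.e (nat_lit 573482) (nat_lit 13) (.e (nat_lit 65604) (nat_lit 9) (.e (nat_lit 336013) (nat_lit 2) (.e (nat_lit 90170) (nat_lit 13) (.e (nat_lit 172061) (nat_lit 1) (.e (nat_lit 164348) (nat_lit 240) (.e (nat_lit 2607) (nat_lit 163) .nil)))))))) (.g (nat_lit 1) (.e (nat_lit 173139) (nat_lit 0) .nil) .nil))) 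
(.lf (nat_lit 502763) (.g (nat_lit 3358) (.e (nat_lit 163979) (nat_lit 30) (.e (nat_lit 573487) (nat_lit 14) (.e (nat_lit 73755) (nat_lit 8) (.e (nat_lit 557105) (nat_lit 14) (.e (nat_lit 180252) (nat_lit 10) (.e (nat_lit 573475) (nat_lit 12) (.e (nat_lit 57504) (nat_lit 38) (.e (nat_lit 638995) (nat_lit 7) .nil)))))))) (.g (nat_lit 1) (.e (nat_lit 173877) (nat_lit 0) .nil) .nil)))))))) 
(.nd (nat_lit 5) (.nd (nat_lit 6) (.nd (nat_lit 7) (.nd (nat_lit 8) (.nd (nat_lit 9) 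
(.lf (nat_lit 501787) (.g (nat_lit 3009) (.e (nat_lit 163978) (nat_lit 30) (.e (nat_lit 573489) (nat_lit 14) (.e (nat_lit 73754) (nat_lit 8) (.e (nat_lit 557101) (nat_lit 13) (.e (nat_lit 172067) (nat_lit 3) (.e (nat_lit 204817) (nat_lit 17) (.e (nat_lit 7936) (nat_lit 149) (.e (nat_lit 761897) (nat_lit 15) .nil)))))))) (.g (nat_lit 1) (.e (nat_lit 171501) (nat_lit 0) .nil) .nil))) 
(.lf (nat_lit 502299) (.g (nat_lit 2261) (.e (nat_lit 163979) (nat_lit 30) (.e (nat_lit 573482) (nat_lit 13) (.e (nat_lit 65604) (nat_lit 9) (.e (nat_lit 336028) (nat_lit 3) (.e (nat_lit 98359) (nat_lit 26) (.e (nat_lit 426039) (nat_lit 0) (.e (nat_lit 3403) (nat_lit 212) (.e (nat_lit 655373) (nat_lit 3) .nil)))))))) (.g (nat_lit 1) (.e (nat_lit 173196) (nat_lit 0) .nil) .nil)))) (.nd (nat_lit 9) 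
(.lf (nat_lit 502043) (.g (nat_lit 4114) (.e (nat_lit 163978) (nat_lit 30) (.e (nat_lit 573489) (nat_lit 14) (.e (nat_lit 73755) (nat_lit 8) (.e (nat_lit 557105) (nat_lit 14) (.e (nat_lit 180252) (nat_lit 10) (.e (nat_lit 573473) (nat_lit 12) (.e (nat_lit 57503) (nat_lit 38) (.e (nat_lit 638994) (nat_lit 7) .nil)))))))) (.g (nat_lit 1) (.e (nat_lit 172560) (nat_lit 0) .nil) .nil))) 
(.lf (nat_lit 502555) (.g (nat_lit 3749) (.e (nat_lit 163979) (nat_lit 30) (.e (nat_lit 573482) (nat_lit 13) (.e (nat_lit 65619) (nat_lit 10) (.e (nat_lit 344117) (nat_lit 21) (.e (nat_lit 516160) (nat_lit 10) (.e (nat_lit 434202) (nat_lit 18) (.e (nat_lit 5537) (nat_lit 306) (.e (nat_lit 2607) (nat_lit 163) .nil)))))))) (.g (nat_lit 1) (.e (nat_lit 173491) (nat_lit 0) .nil) .nil))))) 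
(.nd (nat_lit 8) (.nd (nat_lit 9) 
(.lf (nat_lit 501915) (.g (nat_lit 3308) (.e (nat_lit 163978) (nat_lit 30) (.e (nat_lit 573489) (nat_lit 14) (.e (nat_lit 73755) (nat_lit 8) (.e (nat_lit 557103) (nat_lit 14) (.e (nat_lit 180242) (nat_lit 5) .nil))))) (.g (nat_lit 0) (.e (nat_lit 171860) (nat_lit 0) .nil) .nil))) 
(.lf (nat_lit 502427) (.g (nat_lit 5053) (.e (nat_lit 163979) (nat_lit 30) (.e (nat_lit 573482) (nat_lit 13) (.e (nat_lit 65619) (nat_lit 10) (.e (nat_lit 344117) (nat_lit 21) (.e (nat_lit 516145) (nat_lit 9) (.e (nat_lit 426376) (nat_lit 15) (.e (nat_lit 2058) (nat_lit 142) (.e (nat_lit 704589) (nat_lit 3) .nil)))))))) (.g (nat_lit 1) (.e (nat_lit 173363) (nat_lit 0) .nil) .nil)))) 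
(.nd (nat_lit 9) 
(.lf (nat_lit 502171) (.g (nat_lit 4628) (.e (nat_lit 163979) (nat_lit 30) (.e (nat_lit 573481) (nat_lit 13) (.e (nat_lit 65604) (nat_lit 9) (.e (nat_lit 336028) (nat_lit 3) (.e (nat_lit 98366) (nat_lit 27) (.e (nat_lit 434272) (nat_lit 38) (.e (nat_lit 655375) (nat_lit 3) .nil))))))) (.g (nat_lit 1) (.e (nat_lit 173040) (nat_lit 0) .nil) .nil))) 
(.lf (nat_lit 502683) (.g (nat_lit 4425) (.e (nat_lit 163979) (nat_lit 30) (.e (nat_lit 573487) (nat_lit 14) (.e (nat_lit 73753) (nat_lit 8) (.e (nat_lit 557103) (nat_lit 14) (.e (nat_lit 180244) (nat_lit 5) (.e (nat_lit 532481) (nat_lit 0) (.e (nat_lit 2271) (nat_lit 149) (.e (nat_lit 761898) (nat_lit 15) .nil)))))))) (.g (nat_lit 1) (.e (nat_lit 173761) (nat_lit 0) .nil) .nil)))))) 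
(.nd (nat_lit 7) (.nd (nat_lit 8) (.nd (nat_lit 9) 
(.lf (nat_lit 501851) (.g (nat_lit 1601) (.e (nat_lit 163978) (nat_lit 30) (.e (nat_lit 573489) (nat_lit 14) (.e (nat_lit 73755) (nat_lit 8) (.e (nat_lit 557098) (nat_lit 13) .nil)))) (.g (nat_lit 0) (.e (nat_lit 171665) (nat_lit 0) .nil) .nil))) 
(.lf (nat_lit 502363) (.g (nat_lit 3635) (.e (nat_lit 163979) (nat_lit 30) (.e (nat_lit 573482) (nat_lit 13) (.e (nat_lit 65609) (nat_lit 10) (.e (nat_lit 344117) (nat_lit 21) (.e (nat_lit 516151) (nat_lit 9) (.e (nat_lit 426412) (nat_lit 15) (.e (nat_lit 2056) (nat_lit 142) (.e (nat_lit 704589) (nat_lit 3) .nil)))))))) (.g (nat_lit 1) (.e (nat_lit 173296) (nat_lit 0) .nil) .nil)))) 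
(.nd (nat_lit 9) 
(.lf (nat_lit 502107) (.g (nat_lit 3839) (.e (nat_lit 163978) (nat_lit 30) (.e (nat_lit 573493) (nat_lit 15) (.e (nat_lit 81951) (nat_lit 22) (.e (nat_lit 90167) (nat_lit 13) .nil)))) (.g (nat_lit 0) (.e (nat_lit 172849) (nat_lit 0) .nil) .nil))) 
(.lf (nat_lit 502619) (.g (nat_lit 3527) (.e (nat_lit 163979) (nat_lit 30) (.e (nat_lit 573482) (nat_lit 13) (.e (nat_lit 65619) (nat_lit 10) (.e (nat_lit 344117) (nat_lit 21) (.e (nat_lit 516180) (nat_lit 15) (.e (nat_lit 475205) (nat_lit 40) (.e (nat_lit 704588) (nat_lit 3) .nil))))))) (.g (nat_lit 1) (.e (nat_lit 173559) (nat_lit 0) .nil) .nil))))) (.nd (nat_lit 8) (.nd (nat_lit 9) 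
(.lf (nat_lit 501979) (.g (nat_lit 3193) (.e (nat_lit 163978) (nat_lit 30) (.e (nat_lit 573489) (nat_lit 14) (.e (nat_lit 73755) (nat_lit 8) (.e (nat_lit 557104) (nat_lit 14) (.e (nat_lit 180250) (nat_lit 10) .nil))))) (.g (nat_lit 0) (.e (nat_lit 172178) (nat_lit 0) .nil) .nil))) 
(.lf (nat_lit 502491) (.g (nat_lit 4253) (.e (nat_lit 163979) (nat_lit 30) (.e (nat_lit 573482) (nat_lit 13) (.e (nat_lit 65619) (nat_lit 10) (.e (nat_lit 344117) (nat_lit 21) (.e (nat_lit 516151) (nat_lit 9) (.e (nat_lit 426104) (nat_lit 1) (.e (nat_lit 164348) (nat_lit 240) (.e (nat_lit 2599) (nat_lit 163) .nil)))))))) (.g (nat_lit 1) (.e (nat_lit 173427) (nat_lit 0) .nil) .nil)))) 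
(.nd (nat_lit 9) 
(.lf (nat_lit 502235) (.g (nat_lit 3433) (.e (nat_lit 163979) (nat_lit 30) (.e (nat_lit 573482) (nat_lit 13) (.e (nat_lit 65604) (nat_lit 9) (.e (nat_lit 336013) (nat_lit 2) (.e (nat_lit 90170) (nat_lit 13) (.e (nat_lit 172059) (nat_lit 1) (.e (nat_lit 164348) (nat_lit 240) (.e (nat_lit 2598) (nat_lit 163) .nil)))))))) (.g (nat_lit 1) (.e (nat_lit 173123) (nat_lit 0) .nil) .nil))) 
(.lf (nat_lit 502747) (.g (nat_lit 2986) (.e (nat_lit 163979) (nat_lit 30) (.e (nat_lit 573487) (nat_lit 14) (.e (nat_lit 73754) (nat_lit 8) (.e (nat_lit 557105) (nat_lit 14) (.e (nat_lit 180252) (nat_lit 10) (.e (nat_lit 573473) (nat_lit 12) (.e (nat_lit 57504) (nat_lit 38) (.e (nat_lit 638996) (nat_lit 7) .nil)))))))) (.g (nat_lit 1) (.e (nat_lit 173859) (nat_lit 0) .nil) .nil))))))) 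
(.nd (nat_lit 6) (.nd (nat_lit 7) (.nd (nat_lit 8) (.nd (nat_lit 9) 
(.lf (nat_lit 501819) (.g (nat_lit 3101) (.e (nat_lit 163978) (nat_lit 30) (.e (nat_lit 573489) (nat_lit 14) (.e (nat_lit 73755) (nat_lit 8) (.e (nat_lit 557096) (nat_lit 13) (.e (nat_lit 172067) (nat_lit 3) (.e (nat_lit 204821) (nat_lit 17) (.e (nat_lit 2264) (nat_lit 149) (.e (nat_lit 761899) (nat_lit 15) .nil)))))))) (.g (nat_lit 1) (.e (nat_lit 171592) (nat_lit 0) .nil) .nil))) 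
(.lf (nat_lit 502331) (.g (nat_lit 2376) (.e (nat_lit 163979) (nat_lit 30) (.e (nat_lit 573482) (nat_lit 13) (.e (nat_lit 65604) (nat_lit 9) (.e (nat_lit 336028) (nat_lit 3) (.e (nat_lit 106240) (nat_lit 26) (.e (nat_lit 426107) (nat_lit 1) (.e (nat_lit 164347) (nat_lit 240) (.e (nat_lit 2599) (nat_lit 163) .nil)))))))) (.g (nat_lit 1) (.e (nat_lit 173242) (nat_lit 0) .nil) .nil)))) 
(.nd (nat_lit 9) 
(.lf (nat_lit 502075) (.g (nat_lit 218) (.e (nat_lit 163978) (nat_lit 30) (.e (nat_lit 573490) (nat_lit 15) (.e (nat_lit 81956) (nat_lit 23) .nil))) (.g (nat_lit 0) (.e (nat_lit 172721) (nat_lit 0) .nil) .nil))) 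
(.lf (nat_lit 502587) (.g (nat_lit 3702) (.e (nat_lit 163979) (nat_lit 30) (.e (nat_lit 573482) (nat_lit 13) (.e (nat_lit 65619) (nat_lit 10) (.e (nat_lit 344117) (nat_lit 21) (.e (nat_lit 516169) (nat_lit 13) (.e (nat_lit 458774) (nat_lit 18) (.e (nat_lit 5547) (nat_lit 306) (.e (nat_lit 2599) (nat_lit 163) .nil)))))))) (.g (nat_lit 1) (.e (nat_lit 173524) (nat_lit 0) .nil) .nil))))) 
(.nd (nat_lit 8) (.nd (nat_lit 9) 
(.lf (nat_lit 501947) (.g (nat_lit 3031) (.e (nat_lit 163978) (nat_lit 30) (.e (nat_lit 573489) (nat_lit 14) (.e (nat_lit 73755) (nat_lit 8) (.e (nat_lit 557103) (nat_lit 14) (.e (nat_lit 180250) (nat_lit 10) (.e (nat_lit 573477) (nat_lit 12) (.e (nat_lit 57502) (nat_lit 38) (.e (nat_lit 638996) (nat_lit 7) .nil)))))))) (.g (nat_lit 1) (.e (nat_lit 172019) (nat_lit 0) .nil) .nil))) 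
(.lf (nat_lit 502459) (.g (nat_lit 4914) (.e (nat_lit 163979) (nat_lit 30) (.e (nat_lit 573482) (nat_lit 13) (.e (nat_lit 65619) (nat_lit 10) (.e (nat_lit 344117) (nat_lit 21) (.e (nat_lit 516151) (nat_lit 9) (.e (nat_lit 426038) (nat_lit 0) (.e (nat_lit 2458) (nat_lit 157) (.e (nat_lit 5547) (nat_lit 306) (.e (nat_lit 2610) (nat_lit 163) .nil))))))))) (.g (nat_lit 1) (.e (nat_lit 173395) (nat_lit 0) .nil) .nil)))) 
(.nd (nat_lit 9) 
(.lf (nat_lit 502203) (.g (nat_lit 3284) (.e (nat_lit 163979) (nat_lit 30) (.e (nat_lit 573482) (nat_lit 13) (.e (nat_lit 65604) (nat_lit 9) (.e (nat_lit 336013) (nat_lit 2) (.e (nat_lit 90170) (nat_lit 13) (.e (nat_lit 172042) (nat_lit 0) (.e (nat_lit 2458) (nat_lit 157) (.e (nat_lit 5546) (nat_lit 306) (.e (nat_lit 2601) (nat_lit 163) .nil))))))))) (.g (nat_lit 1) (.e (nat_lit 173088) (nat_lit 0) .nil) .nil))) 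
(.lf (nat_lit 502715) (.g (nat_lit 3164) (.e (nat_lit 163979) (nat_lit 30) (.e (nat_lit 573487) (nat_lit 14) (.e (nat_lit 73753) (nat_lit 8) (.e (nat_lit 557104) (nat_lit 14) (.e (nat_lit 180251) (nat_lit 10) (.e (nat_lit 573475) (nat_lit 12) (.e (nat_lit 57503) (nat_lit 38) (.e (nat_lit 638995) (nat_lit 7) .nil)))))))) (.g (nat_lit 1) (.e (nat_lit 173819) (nat_lit 0) .nil) .nil)))))) 
(.nd (nat_lit 7) (.nd (nat_lit 8) (.nd (nat_lit 9) 
(.lf (nat_lit 501883) (.g (nat_lit 3281) (.e (nat_lit 163978) (nat_lit 30) (.e (nat_lit 573489) (nat_lit 14) (.e (nat_lit 73755) (nat_lit 8) (.e (nat_lit 557098) (nat_lit 13) (.e (nat_lit 172067) (nat_lit 3) (.e (nat_lit 204814) (nat_lit 17) (.e (nat_lit 2270) (nat_lit 149) (.e (nat_lit 761897) (nat_lit 15) .nil)))))))) (.g (nat_lit 1) (.e (nat_lit 171770) (nat_lit 0) .nil) .nil))) 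
(.lf (nat_lit 502395) (.g (nat_lit 3873) (.e (nat_lit 163979) (nat_lit 30) (.e (nat_lit 573482) (nat_lit 13) (.e (nat_lit 65619) (nat_lit 10) (.e (nat_lit 344117) (nat_lit 21) (.e (nat_lit 516143) (nat_lit 9) (.e (nat_lit 426109) (nat_lit 1) (.e (nat_lit 164347) (nat_lit 240) (.e (nat_lit 2601) (nat_lit 163) .nil)))))))) (.g (nat_lit 1) (.e (nat_lit 173331) (nat_lit 0) .nil) .nil)))) 
(.nd (nat_lit 9) 
(.lf (nat_lit 502139) (.g (nat_lit 3428) (.e (nat_lit 163978) (nat_lit 30) (.e (nat_lit 573493) (nat_lit 15) (.e (nat_lit 81956) (nat_lit 23) (.e (nat_lit 98356) (nat_lit 26) (.e (nat_lit 426095) (nat_lit 0) .nil))))) (.g (nat_lit 0) (.e (nat_lit 172921) (nat_lit 0) .nil) .nil))) 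
(.lf (nat_lit 502651) (.g (nat_lit 1348) (.e (nat_lit 163979) (nat_lit 30) (.e (nat_lit 573485) (nat_lit 13) (.e (nat_lit 65619) (nat_lit 10) (.e (nat_lit 344117) (nat_lit 21) .nil)))) (.g (nat_lit 0) (.e (nat_lit 173627) (nat_lit 0) .nil) .nil))))) (.nd (nat_lit 8) (.nd (nat_lit 9) 
(.lf (nat_lit 502011) (.g (nat_lit 2804) (.e (nat_lit 163978) (nat_lit 30) (.e (nat_lit 573489) (nat_lit 14) (.e (nat_lit 73755) (nat_lit 8) (.e (nat_lit 557105) (nat_lit 14) (.e (nat_lit 180245) (nat_lit 5) (.e (nat_lit 532488) (nat_lit 0) (.e (nat_lit 7936) (nat_lit 149) (.e (nat_lit 761898) (nat_lit 15) .nil)))))))) (.g (nat_lit 1) (.e (nat_lit 172299) (nat_lit 0) .nil) .nil))) 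
(.lf (nat_lit 502523) (.g (nat_lit 2574) (.e (nat_lit 163979) (nat_lit 30) (.e (nat_lit 573482) (nat_lit 13) (.e (nat_lit 65619) (nat_lit 10) (.e (nat_lit 344117) (nat_lit 21) (.e (nat_lit 516153) (nat_lit 9) (.e (nat_lit 426025) (nat_lit 0) (.e (nat_lit 3399) (nat_lit 211) (.e (nat_lit 647180) (nat_lit 3) .nil)))))))) (.g (nat_lit 1) (.e (nat_lit 173459) (nat_lit 0) .nil) .nil)))) 
(.nd (nat_lit 9) 
(.lf (nat_lit 502267) (.g (nat_lit 3050) (.e (nat_lit 163979) (nat_lit 30) (.e (nat_lit 573482) (nat_lit 13) (.e (nat_lit 65604) (nat_lit 9) (.e (nat_lit 336013) (nat_lit 2) (.e (nat_lit 90170) (nat_lit 13) (.e (nat_lit 172070) (nat_lit 4) (.e (nat_lit 229666) (nat_lit 240) (.e (nat_lit 2598) (nat_lit 163) .nil)))))))) (.g (nat_lit 1) (.e (nat_lit 173155) (nat_lit 0) .nil) .nil))) 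
(.lf (nat_lit 502779) (.g (nat_lit 4375) (.e (nat_lit 163979) (nat_lit 30) (.e (nat_lit 573488) (nat_lit 14) (.e (nat_lit 73753) (nat_lit 8) (.e (nat_lit 557105) (nat_lit 14) (.e (nat_lit 180252) (nat_lit 10) (.e (nat_lit 573473) (nat_lit 12) (.e (nat_lit 57504) (nat_lit 38) (.e (nat_lit 638995) (nat_lit 7) .nil)))))))) (.g (nat_lit 1) (.e (nat_lit 173904) (nat_lit 0) .nil) .nil)))))))))) 
(.nd (nat_lit 3) (.nd (nat_lit 4) (.nd (nat_lit 5) (.nd (nat_lit 6) (.nd (nat_lit 7) 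
(.nd (nat_lit 8) (.nd (nat_lit 9) 
(.lf (nat_lit 501767) (.g (nat_lit 2638) (.e (nat_lit 163978) (nat_lit 30) (.e (nat_lit 573489) (nat_lit 14) (.e (nat_lit 73754) (nat_lit 8) (.e (nat_lit 557100) (nat_lit 13) (.e (nat_lit 179968) (nat_lit 18) .nil))))) (.g (nat_lit 0) (.e (nat_lit 171458) (nat_lit 0) .nil) .nil))) 
(.lf (nat_lit 502279) (.g (nat_lit 1147) (.e (nat_lit 163979) (nat_lit 30) (.e (nat_lit 573482) (nat_lit 13) (.e (nat_lit 65604) (nat_lit 9) (.e (nat_lit 336028) (nat_lit 3) .nil)))) (.g (nat_lit 0) (.e (nat_lit 173167) (nat_lit 0) .nil) .nil)))) (.nd (nat_lit 9) 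
(.lf (nat_lit 502023) (.g (nat_lit 2911) (.e (nat_lit 163978) (nat_lit 30) (.e (nat_lit 573489) (nat_lit 14) (.e (nat_lit 73755) (nat_lit 8) (.e (nat_lit 557105) (nat_lit 14) (.e (nat_lit 180245) (nat_lit 5) (.e (nat_lit 532503) (nat_lit 1) (.e (nat_lit 57657) (nat_lit 152) (.e (nat_lit 2606) (nat_lit 163) .nil)))))))) (.g (nat_lit 1) (.e (nat_lit 172382) (nat_lit 0) .nil) .nil))) 
(.lf (nat_lit 502535) (.g (nat_lit 2143) (.e (nat_lit 163979) (nat_lit 30) (.e (nat_lit 573482) (nat_lit 13) (.e (nat_lit 65619) (nat_lit 10) (.e (nat_lit 344117) (nat_lit 21) (.e (nat_lit 516159) (nat_lit 10) .nil))))) (.g (nat_lit 0) (.e (nat_lit 173471) (nat_lit 0) .nil) .nil))))) (.nd (nat_lit 8) (.nd (nat_lit 9) 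
(.lf (nat_lit 501895) (.g (nat_lit 2998) (.e (nat_lit 163978) (nat_lit 30) (.e (nat_lit 573489) (nat_lit 14) (.e (nat_lit 73755) (nat_lit 8) (.e (nat_lit 557098) (nat_lit 13) (.e (nat_lit 172067) (nat_lit 3) (.e (nat_lit 204821) (nat_lit 17) (.e (nat_lit 2264) (nat_lit 149) (.e (nat_lit 761897) (nat_lit 15) .nil)))))))) (.g (nat_lit 1) (.e (nat_lit 171790) (nat_lit 0) .nil) .nil))) 
(.lf (nat_lit 502407) (.g (nat_lit 3717) (.e (nat_lit 163979) (nat_lit 30) (.e (nat_lit 573482) (nat_lit 13) (.e (nat_lit 65619) (nat_lit 10) (.e (nat_lit 344117) (nat_lit 21) (.e (nat_lit 516144) (nat_lit 9) (.e (nat_lit 426393) (nat_lit 15) (.e (nat_lit 2056) (nat_lit 142) (.e (nat_lit 704589) (nat_lit 3) .nil)))))))) (.g (nat_lit 1) (.e (nat_lit 173343) (nat_lit 0) .nil) .nil)))) 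
(.nd (nat_lit 9) 
(.lf (nat_lit 502151) (.g (nat_lit 4707) (.e (nat_lit 163978) (nat_lit 30) (.e (nat_lit 573493) (nat_lit 15) (.e (nat_lit 81956) (nat_lit 23) (.e (nat_lit 98367) (nat_lit 27) (.e (nat_lit 434272) (nat_lit 38) (.e (nat_lit 655375) (nat_lit 3) .nil)))))) (.g (nat_lit 1) (.e (nat_lit 172934) (nat_lit 0) .nil) .nil))) 
(.lf (nat_lit 502663) (.g (nat_lit 2849) (.e (nat_lit 163979) (nat_lit 30) (.e (nat_lit 573487) (nat_lit 14) (.e (nat_lit 73753) (nat_lit 8) (.e (nat_lit 557098) (nat_lit 13) (.e (nat_lit 172067) (nat_lit 3) (.e (nat_lit 204817) (nat_lit 17) (.e (nat_lit 7936) (nat_lit 149) (.e (nat_lit 761894) (nat_lit 15) .nil)))))))) (.g (nat_lit 1) (.e (nat_lit 173681) (nat_lit 0) .nil) .nil)))))) 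
(.nd (nat_lit 7) (.nd (nat_lit 8) (.nd (nat_lit 9) 
(.lf (nat_lit 501831) (.g (nat_lit 3617) (.e (nat_lit 163978) (nat_lit 30) (.e (nat_lit 573489) (nat_lit 14) (.e (nat_lit 73755) (nat_lit 8) (.e (nat_lit 557097) (nat_lit 13) (.e (nat_lit 172066) (nat_lit 3) (.e (nat_lit 204815) (nat_lit 17) (.e (nat_lit 2271) (nat_lit 149) (.e (nat_lit 761898) (nat_lit 15) .nil)))))))) (.g (nat_lit 1) (.e (nat_lit 171622) (nat_lit 0) .nil) .nil))) 
(.lf (nat_lit 502343) (.g (nat_lit 5297) (.e (nat_lit 163979) (nat_lit 30) (.e (nat_lit 573482) (nat_lit 13) (.e (nat_lit 65604) (nat_lit 9) (.e (nat_lit 336028) (nat_lit 3) (.e (nat_lit 98367) (nat_lit 27) (.e (nat_lit 434209) (nat_lit 18) (.e (nat_lit 5547) (nat_lit 306) (.e (nat_lit 2610) (nat_lit 163) .nil)))))))) (.g (nat_lit 1) (.e (nat_lit 173272) (nat_lit 0) .nil) .nil)))) 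
(.nd (nat_lit 9) 
(.lf (nat_lit 502087) (.g (nat_lit 2937) (.e (nat_lit 163978) (nat_lit 30) (.e (nat_lit 573491) (nat_lit 15) (.e (nat_lit 81951) (nat_lit 22) (.e (nat_lit 90170) (nat_lit 13) (.e (nat_lit 172046) (nat_lit 0) .nil))))) (.g (nat_lit 0) (.e (nat_lit 172756) (nat_lit 0) .nil) .nil))) 
(.lf (nat_lit 502599) (.g (nat_lit 2697) (.e (nat_lit 163979) (nat_lit 30) (.e (nat_lit 573482) (nat_lit 13) (.e (nat_lit 65619) (nat_lit 10) (.e (nat_lit 344117) (nat_lit 21) (.e (nat_lit 516171) (nat_lit 13) (.e (nat_lit 458774) (nat_lit 18) (.e (nat_lit 5546) (nat_lit 306) (.e (nat_lit 2599) (nat_lit 163) .nil)))))))) (.g (nat_lit 1) (.e (nat_lit 173539) (nat_lit 0) .nil) .nil))))) 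
(.nd (nat_lit 8) (.nd (nat_lit 9) 
(.lf (nat_lit 501959) (.g (nat_lit 3387) (.e (nat_lit 163978) (nat_lit 30) (.e (nat_lit 573489) (nat_lit 14) (.e (nat_lit 73755) (nat_lit 8) (.e (nat_lit 557104) (nat_lit 14) (.e (nat_lit 180244) (nat_lit 5) (.e (nat_lit 532484) (nat_lit 0) (.e (nat_lit 2271) (nat_lit 149) (.e (nat_lit 761899) (nat_lit 15) .nil)))))))) (.g (nat_lit 1) (.e (nat_lit 172048) (nat_lit 0) .nil) .nil))) 
(.lf (nat_lit 502471) (.g (nat_lit 4121) (.e (nat_lit 163979) (nat_lit 30) (.e (nat_lit 573482) (nat_lit 13) (.e (nat_lit 65619) (nat_lit 10) (.e (nat_lit 344117) (nat_lit 21) (.e (nat_lit 516151) (nat_lit 9) (.e (nat_lit 426042) (nat_lit 0) (.e (nat_lit 3407) (nat_lit 212) (.e (nat_lit 655375) (nat_lit 3) .nil)))))))) (.g (nat_lit 1) (.e (nat_lit 173407) (nat_lit 0) .nil) .nil)))) 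
(.nd (nat_lit 9) 
(.lf (nat_lit 502215) (.g (nat_lit 3395) (.e (nat_lit 163979) (nat_lit 30) (.e (nat_lit 573482) (nat_lit 13) (.e (nat_lit 65604) (nat_lit 9) (.e (nat_lit 336013) (nat_lit 2) (.e (nat_lit 90170) (nat_lit 13) (.e (nat_lit 172046) (nat_lit 0) (.e (nat_lit 2478) (nat_lit 157) (.e (nat_lit 5548) (nat_lit 306) (.e (nat_lit 2601) (nat_lit 163) .nil))))))))) (.g (nat_lit 1) (.e (nat_lit 173102) (nat_lit 0) .nil) .nil))) 
(.lf (nat_lit 502727) (.g (nat_lit 3104) (.e (nat_lit 163979) (nat_lit 30) (.e (nat_lit 573487) (nat_lit 14) (.e (nat_lit 73753) (nat_lit 8) (.e (nat_lit 557105) (nat_lit 14) (.e (nat_lit 180252) (nat_lit 10) (.e (nat_lit 573473) (nat_lit 12) (.e (nat_lit 57504) (nat_lit 38) (.e (nat_lit 638994) (nat_lit 7) .nil)))))))) (.g (nat_lit 1) (.e (nat_lit 173835) (nat_lit 0) .nil) .nil))))))) 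
(.nd (nat_lit 6) (.nd (nat_lit 7) (.nd (nat_lit 8) (.nd (nat_lit 9) 
(.lf (nat_lit 501799) (.g (nat_lit 2322) (.e (nat_lit 163978) (nat_lit 30) (.e (nat_lit 573489) (nat_lit 14) (.e (nat_lit 73754) (nat_lit 8) (.e (nat_lit 557105) (nat_lit 14) (.e (nat_lit 180245) (nat_lit 5) .nil))))) (.g (nat_lit 0) (.e (nat_lit 171533) (nat_lit 0) .nil) .nil))) 
(.lf (nat_lit 502311) (.g (nat_lit 4510) (.e (nat_lit 163979) (nat_lit 30) (.e (nat_lit 573482) (nat_lit 13) (.e (nat_lit 65604) (nat_lit 9) (.e (nat_lit 336028) (nat_lit 3) (.e (nat_lit 98359) (nat_lit 26) (.e (nat_lit 426412) (nat_lit 15) (.e (nat_lit 2056) (nat_lit 142) (.e (nat_lit 704589) (nat_lit 3) .nil)))))))) (.g (nat_lit 1) (.e (nat_lit 173219) (nat_lit 0) .nil) .nil)))) 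
(.nd (nat_lit 9) 
(.lf (nat_lit 502055) (.g (nat_lit 4961) (.e (nat_lit 163978) (nat_lit 30) (.e (nat_lit 573489) (nat_lit 14) (.e (nat_lit 73755) (nat_lit 8) (.e (nat_lit 557105) (nat_lit 14) (.e (nat_lit 180252) (nat_lit 10) (.e (nat_lit 573475) (nat_lit 12) (.e (nat_lit 57501) (nat_lit 37) (.e (nat_lit 630799) (nat_lit 7) .nil)))))))) (.g (nat_lit 1) (.e (nat_lit 172694) (nat_lit 0) .nil) .nil))) 
(.lf (nat_lit 502567) (.g (nat_lit 2676) (.e (nat_lit 163979) (nat_lit 30) (.e (nat_lit 573482) (nat_lit 13) (.e (nat_lit 65619) (nat_lit 10) (.e (nat_lit 344117) (nat_lit 21) (.e (nat_lit 516160) (nat_lit 10) (.e (nat_lit 434270) (nat_lit 38) (.e (nat_lit 655373) (nat_lit 3) .nil))))))) (.g (nat_lit 1) (.e (nat_lit 173504) (nat_lit 0) .nil) .nil))))) (.nd (nat_lit 8) (.nd (nat_lit 9) 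
(.lf (nat_lit 501927) (.g (nat_lit 3166) (.e (nat_lit 163978) (nat_lit 30) (.e (nat_lit 573489) (nat_lit 14) (.e (nat_lit 73755) (nat_lit 8) (.e (nat_lit 557103) (nat_lit 14) (.e (nat_lit 180244) (nat_lit 5) (.e (nat_lit 532488) (nat_lit 0) (.e (nat_lit 7936) (nat_lit 149) (.e (nat_lit 761898) (nat_lit 15) .nil)))))))) (.g (nat_lit 1) (.e (nat_lit 171901) (nat_lit 0) .nil) .nil))) 
(.lf (nat_lit 502439) (.g (nat_lit 2854) (.e (nat_lit 163979) (nat_lit 30) (.e (nat_lit 573482) (nat_lit 13) (.e (nat_lit 65619) (nat_lit 10) (.e (nat_lit 344117) (nat_lit 21) (.e (nat_lit 516145) (nat_lit 9) (.e (nat_lit 426469) (nat_lit 24) (.e (nat_lit 163584) (nat_lit 3) .nil))))))) (.g (nat_lit 1) (.e (nat_lit 173375) (nat_lit 0) .nil) .nil)))) (.nd (nat_lit 9) 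
(.lf (nat_lit 502183) (.g (nat_lit 1148) (.e (nat_lit 163979) (nat_lit 30) (.e (nat_lit 573482) (nat_lit 13) (.e (nat_lit 65604) (nat_lit 9) (.e (nat_lit 336013) (nat_lit 2) .nil)))) (.g (nat_lit 0) (.e (nat_lit 173065) (nat_lit 0) .nil) .nil))) 
(.lf (nat_lit 502695) (.g (nat_lit 3809) (.e (nat_lit 163979) (nat_lit 30) (.e (nat_lit 573487) (nat_lit 14) (.e (nat_lit 73753) (nat_lit 8) (.e (nat_lit 557103) (nat_lit 14) (.e (nat_lit 180250) (nat_lit 10) (.e (nat_lit 573475) (nat_lit 12) (.e (nat_lit 57500) (nat_lit 37) (.e (nat_lit 630800) (nat_lit 7) .nil)))))))) (.g (nat_lit 1) (.e (nat_lit 173796) (nat_lit 0) .nil) .nil)))))) 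
(.nd (nat_lit 7) (.nd (nat_lit 8) (.nd (nat_lit 9) 
(.lf (nat_lit 501863) (.g (nat_lit 3362) (.e (nat_lit 163978) (nat_lit 30) (.e (nat_lit 573489) (nat_lit 14) (.e (nat_lit 73755) (nat_lit 8) (.e (nat_lit 557098) (nat_lit 13) (.e (nat_lit 172065) (nat_lit 3) (.e (nat_lit 204821) (nat_lit 17) (.e (nat_lit 7936) (nat_lit 149) (.e (nat_lit 761898) (nat_lit 15) .nil)))))))) (.g (nat_lit 1) (.e (nat_lit 171715) (nat_lit 0) .nil) .nil))) 
(.lf (nat_lit 502375) (.g (nat_lit 3382) (.e (nat_lit 163979) (nat_lit 30) (.e (nat_lit 573482) (nat_lit 13) (.e (nat_lit 65616) (nat_lit 10) (.e (nat_lit 344116) (nat_lit 21) (.e (nat_lit 516182) (nat_lit 15) (.e (nat_lit 475199) (nat_lit 40) (.e (nat_lit 704589) (nat_lit 3) .nil))))))) (.g (nat_lit 1) (.e (nat_lit 173308) (nat_lit 0) .nil) .nil)))) (.nd (nat_lit 9) 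
(.lf (nat_lit 502119) (.g (nat_lit 4862) (.e (nat_lit 163978) (nat_lit 30) (.e (nat_lit 573493) (nat_lit 15) (.e (nat_lit 81953) (nat_lit 22) (.e (nat_lit 90172) (nat_lit 14) .nil)))) (.g (nat_lit 0) (.e (nat_lit 172888) (nat_lit 0) .nil) .nil))) 
(.lf (nat_lit 502631) (.g (nat_lit 2936) (.e (nat_lit 163979) (nat_lit 30) (.e (nat_lit 573482) (nat_lit 13) (.e (nat_lit 65619) (nat_lit 10) (.e (nat_lit 344119) (nat_lit 21) (.e (nat_lit 516182) (nat_lit 15) (.e (nat_lit 475198) (nat_lit 40) (.e (nat_lit 704589) (nat_lit 3) .nil))))))) (.g (nat_lit 1) (.e (nat_lit 173571) (nat_lit 0) .nil) .nil))))) (.nd (nat_lit 8) (.nd (nat_lit 9) 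
(.lf (nat_lit 501991) (.g (nat_lit 2853) (.e (nat_lit 163978) (nat_lit 30) (.e (nat_lit 573489) (nat_lit 14) (.e (nat_lit 73755) (nat_lit 8) (.e (nat_lit 557105) (nat_lit 14) (.e (nat_lit 180243) (nat_lit 5) (.e (nat_lit 532501) (nat_lit 1) (.e (nat_lit 57663) (nat_lit 152) (.e (nat_lit 2612) (nat_lit 163) .nil)))))))) (.g (nat_lit 1) (.e (nat_lit 172224) (nat_lit 0) .nil) .nil))) 
(.lf (nat_lit 502503) (.g (nat_lit 5564) (.e (nat_lit 163979) (nat_lit 30) (.e (nat_lit 573482) (nat_lit 13) (.e (nat_lit 65619) (nat_lit 10) (.e (nat_lit 344117) (nat_lit 21) (.e (nat_lit 516151) (nat_lit 9) (.e (nat_lit 426412) (nat_lit 15) (.e (nat_lit 2058) (nat_lit 142) (.e (nat_lit 704589) (nat_lit 3) .nil)))))))) (.g (nat_lit 1) (.e (nat_lit 173439) (nat_lit 0) .nil) .nil)))) 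
(.nd (nat_lit 9) 
(.lf (nat_lit 502247) (.g (nat_lit 4296) (.e (nat_lit 163979) (nat_lit 30) (.e (nat_lit 573482) (nat_lit 13) (.e (nat_lit 65604) (nat_lit 9) (.e (nat_lit 336013) (nat_lit 2) (.e (nat_lit 90170) (nat_lit 13) (.e (nat_lit 172061) (nat_lit 1) (.e (nat_lit 164347) (nat_lit 240) (.e (nat_lit 2599) (nat_lit 163) .nil)))))))) (.g (nat_lit 1) (.e (nat_lit 173135) (nat_lit 0) .nil) .nil))) 
(.lf (nat_lit 502759) (.g (nat_lit 3384) (.e (nat_lit 163979) (nat_lit 30) (.e (nat_lit 573487) (nat_lit 14) (.e (nat_lit 73755) (nat_lit 8) (.e (nat_lit 557105) (nat_lit 14) (.e (nat_lit 180252) (nat_lit 10) (.e (nat_lit 573473) (nat_lit 12) (.e (nat_lit 57504) (nat_lit 38) (.e (nat_lit 638995) (nat_lit 7) .nil)))))))) (.g (nat_lit 1) (.e (nat_lit 173873) (nat_lit 0) .nil) .nil)))))))) 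
(.nd (nat_lit 5) (.nd (nat_lit 6) (.nd (nat_lit 7) (.nd (nat_lit 8) (.nd (nat_lit 9) 
(.lf (nat_lit 501783) (.g (nat_lit 2874) (.e (nat_lit 163978) (nat_lit 30) (.e (nat_lit 573489) (nat_lit 14) (.e (nat_lit 73754) (nat_lit 8) (.e (nat_lit 557101) (nat_lit 13) (.e (nat_lit 172066) (nat_lit 3) (.e (nat_lit 204817) (nat_lit 17) (.e (nat_lit 7936) (nat_lit 149) (.e (nat_lit 761897) (nat_lit 15) .nil)))))))) (.g (nat_lit 1) (.e (nat_lit 171488) (nat_lit 0) .nil) .nil))) 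
(.lf (nat_lit 502295) (.g (nat_lit 2615) (.e (nat_lit 163979) (nat_lit 30) (.e (nat_lit 573482) (nat_lit 13) (.e (nat_lit 65604) (nat_lit 9) (.e (nat_lit 336028) (nat_lit 3) (.e (nat_lit 98359) (nat_lit 26) (.e (nat_lit 426022) (nat_lit 0) (.e (nat_lit 3401) (nat_lit 211) (.e (nat_lit 647180) (nat_lit 3) .nil)))))))) (.g (nat_lit 1) (.e (nat_lit 173185) (nat_lit 0) .nil) .nil)))) (.nd (nat_lit 9) 
(.lf (nat_lit 502039) (.g (nat_lit 3584) (.e (nat_lit 163978) (nat_lit 30) (.e (nat_lit 573489) (nat_lit 14) (.e (nat_lit 73755) (nat_lit 8) (.e (nat_lit 557105) (nat_lit 14) (.e (nat_lit 180251) (nat_lit 10) (.e (nat_lit 573478) (nat_lit 12) (.e (nat_lit 57500) (nat_lit 37) (.e (nat_lit 630800) (nat_lit 7) .nil)))))))) (.g (nat_lit 1) (.e (nat_lit 172442) (nat_lit 0) .nil) .nil))) 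
(.lf (nat_lit 502551) (.g (nat_lit 2344) (.e (nat_lit 163979) (nat_lit 30) (.e (nat_lit 573482) (nat_lit 13) (.e (nat_lit 65619) (nat_lit 10) (.e (nat_lit 344117) (nat_lit 21) (.e (nat_lit 516159) (nat_lit 10) (.e (nat_lit 434270) (nat_lit 38) (.e (nat_lit 655375) (nat_lit 3) .nil))))))) (.g (nat_lit 1) (.e (nat_lit 173487) (nat_lit 0) .nil) .nil))))) (.nd (nat_lit 8) (.nd (nat_lit 9) 
(.lf (nat_lit 501911) (.g (nat_lit 4334) (.e (nat_lit 163978) (nat_lit 30) (.e (nat_lit 573489) (nat_lit 14) (.e (nat_lit 73755) (nat_lit 8) (.e (nat_lit 557100) (nat_lit 13) (.e (nat_lit 172065) (nat_lit 3) (.e (nat_lit 204830) (nat_lit 18) (.e (nat_lit 57663) (nat_lit 152) (.e (nat_lit 2612) (nat_lit 163) .nil)))))))) (.g (nat_lit 1) (.e (nat_lit 171844) (nat_lit 0) .nil) .nil))) 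
(.lf (nat_lit 502423) (.g (nat_lit 4036) (.e (nat_lit 163979) (nat_lit 30) (.e (nat_lit 573482) (nat_lit 13) (.e (nat_lit 65619) (nat_lit 10) (.e (nat_lit 344117) (nat_lit 21) (.e (nat_lit 516145) (nat_lit 9) (.e (nat_lit 426374) (nat_lit 15) (.e (nat_lit 2056) (nat_lit 142) (.e (nat_lit 704589) (nat_lit 3) .nil)))))))) (.g (nat_lit 1) (.e (nat_lit 173359) (nat_lit 0) .nil) .nil)))) 
(.nd (nat_lit 9) 
(.lf (nat_lit 502167) (.g (nat_lit 1789) (.e (nat_lit 163979) (nat_lit 30) (.e (nat_lit 573481) (nat_lit 13) (.e (nat_lit 65604) (nat_lit 9) (.e (nat_lit 336013) (nat_lit 2) (.e (nat_lit 90170) (nat_lit 13) .nil))))) (.g (nat_lit 0) (.e (nat_lit 173036) (nat_lit 0) .nil) .nil))) 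
(.lf (nat_lit 502679) (.g (nat_lit 3843) (.e (nat_lit 163979) (nat_lit 30) (.e (nat_lit 573487) (nat_lit 14) (.e (nat_lit 73753) (nat_lit 8) (.e (nat_lit 557103) (nat_lit 14) (.e (nat_lit 180243) (nat_lit 5) (.e (nat_lit 532484) (nat_lit 0) (.e (nat_lit 2271) (nat_lit 149) (.e (nat_lit 761898) (nat_lit 15) .nil)))))))) (.g (nat_lit 1) (.e (nat_lit 173741) (nat_lit 0) .nil) .nil)))))) 
(.nd (nat_lit 7) (.nd (nat_lit 8) (.nd (nat_lit 9) 
(.lf (nat_lit 501847) (.g (nat_lit 3786) (.e (nat_lit 163978) (nat_lit 30) (.e (nat_lit 573489) (nat_lit 14) (.e (nat_lit 73755) (nat_lit 8) (.e (nat_lit 557097) (nat_lit 13) (.e (nat_lit 172067) (nat_lit 3) (.e (nat_lit 204817) (nat_lit 17) (.e (nat_lit 7936) (nat_lit 149) (.e (nat_lit 761899) (nat_lit 15) .nil)))))))) (.g (nat_lit 1) (.e (nat_lit 171646) (nat_lit 0) .nil) .nil))) 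
(.lf (nat_lit 502359) (.g (nat_lit 1997) (.e (nat_lit 163979) (nat_lit 30) (.e (nat_lit 573482) (nat_lit 13) (.e (nat_lit 65604) (nat_lit 9) (.e (nat_lit 336028) (nat_lit 3) (.e (nat_lit 106240) (nat_lit 32) (.e (nat_lit 475196) (nat_lit 40) (.e (nat_lit 704589) (nat_lit 3) .nil))))))) (.g (nat_lit 1) (.e (nat_lit 173291) (nat_lit 0) .nil) .nil)))) (.nd (nat_lit 9) 
(.lf (nat_lit 502103) (.g (nat_lit 771) (.e (nat_lit 163978) (nat_lit 30) (.e (nat_lit 573492) (nat_lit 15) (.e (nat_lit 81956) (nat_lit 23) .nil))) (.g (nat_lit 0) (.e (nat_lit 172779) (nat_lit 0) .nil) .nil))) 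
(.lf (nat_lit 502615) (.g (nat_lit 4145) (.e (nat_lit 163979) (nat_lit 30) (.e (nat_lit 573482) (nat_lit 13) (.e (nat_lit 65619) (nat_lit 10) (.e (nat_lit 344117) (nat_lit 21) (.e (nat_lit 516180) (nat_lit 15) (.e (nat_lit 475197) (nat_lit 40) (.e (nat_lit 704589) (nat_lit 3) .nil))))))) (.g (nat_lit 1) (.e (nat_lit 173555) (nat_lit 0) .nil) .nil))))) (.nd (nat_lit 8) (.nd (nat_lit 9) 
(.lf (nat_lit 501975) (.g (nat_lit 4070) (.e (nat_lit 163978) (nat_lit 30) (.e (nat_lit 573489) (nat_lit 14) (.e (nat_lit 73755) (nat_lit 8) (.e (nat_lit 557104) (nat_lit 14) (.e (nat_lit 180244) (nat_lit 5) (.e (nat_lit 532503) (nat_lit 1) (.e (nat_lit 57658) (nat_lit 152) (.e (nat_lit 2606) (nat_lit 163) .nil)))))))) (.g (nat_lit 1) (.e (nat_lit 172132) (nat_lit 0) .nil) .nil))) 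
(.lf (nat_lit 502487) (.g (nat_lit 2442) (.e (nat_lit 163979) (nat_lit 30) (.e (nat_lit 573482) (nat_lit 13) (.e (nat_lit 65619) (nat_lit 10) (.e (nat_lit 344117) (nat_lit 21) (.e (nat_lit 516151) (nat_lit 9) (.e (nat_lit 426097) (nat_lit 1) (.e (nat_lit 164348) (nat_lit 240) (.e (nat_lit 2607) (nat_lit 163) .nil)))))))) (.g (nat_lit 1) (.e (nat_lit 173423) (nat_lit 0) .nil) .nil)))) 
(.nd (nat_lit 9) 
(.lf (nat_lit 502231) (.g (nat_lit 3254) (.e (nat_lit 163979) (nat_lit 30) (.e (nat_lit 573482) (nat_lit 13) (.e (nat_lit 65604) (nat_lit 9) (.e (nat_lit 336013) (nat_lit 2) (.e (nat_lit 90170) (nat_lit 13) (.e (nat_lit 172059) (nat_lit 1) (.e (nat_lit 164346) (nat_lit 240) (.e (nat_lit 2598) (nat_lit 163) .nil)))))))) (.g (nat_lit 1) (.e (nat_lit 173119) (nat_lit 0) .nil) .nil))) 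
(.lf (nat_lit 502743) (.g (nat_lit 2638) (.e (nat_lit 163979) (nat_lit 30) (.e (nat_lit 573487) (nat_lit 14) (.e (nat_lit 73754) (nat_lit 8) (.e (nat_lit 557105) (nat_lit 14) (.e (nat_lit 180252) (nat_lit 10) (.e (nat_lit 573473) (nat_lit 12) (.e (nat_lit 57501) (nat_lit 37) (.e (nat_lit 630800) (nat_lit 7) .nil)))))))) (.g (nat_lit 1) (.e (nat_lit 173855) (nat_lit 0) .nil) .nil))))))) 
(.nd (nat_lit 6) (.nd (nat_lit 7) (.nd (nat_lit 8) (.nd (nat_lit 9) 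
(.lf (nat_lit 501815) (.g (nat_lit 3818) (.e (nat_lit 163978) (nat_lit 30) (.e (nat_lit 573489) (nat_lit 14) (.e (nat_lit 73755) (nat_lit 8) (.e (nat_lit 557096) (nat_lit 13) (.e (nat_lit 172067) (nat_lit 3) (.e (nat_lit 204815) (nat_lit 17) (.e (nat_lit 2271) (nat_lit 149) (.e (nat_lit 761898) (nat_lit 15) .nil)))))))) (.g (nat_lit 1) (.e (nat_lit 171587) (nat_lit 0) .nil) .nil))) 
(.lf (nat_lit 502327) (.g (nat_lit 2774) (.e (nat_lit 163979) (nat_lit 30) (.e (nat_lit 573482) (nat_lit 13) (.e (nat_lit 65604) (nat_lit 9) (.e (nat_lit 336028) (nat_lit 3) (.e (nat_lit 98364) (nat_lit 26) (.e (nat_lit 426107) (nat_lit 1) (.e (nat_lit 164347) (nat_lit 240) (.e (nat_lit 2610) (nat_lit 163) .nil)))))))) (.g (nat_lit 1) (.e (nat_lit 173238) (nat_lit 0) .nil) .nil)))) 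
(.nd (nat_lit 9) 
(.lf (nat_lit 502071) (.g (nat_lit 3102) (.e (nat_lit 163978) (nat_lit 30) (.e (nat_lit 573490) (nat_lit 15) (.e (nat_lit 81953) (nat_lit 22) (.e (nat_lit 90185) (nat_lit 17) .nil)))) (.g (nat_lit 0) (.e (nat_lit 172717) (nat_lit 0) .nil) .nil))) 
(.lf (nat_lit 502583) (.g (nat_lit 2939) (.e (nat_lit 163979) (nat_lit 30) (.e (nat_lit 573482) (nat_lit 13) (.e (nat_lit 65619) (nat_lit 10) (.e (nat_lit 344117) (nat_lit 21) (.e (nat_lit 516168) (nat_lit 13) (.e (nat_lit 458774) (nat_lit 18) (.e (nat_lit 5547) (nat_lit 306) (.e (nat_lit 2610) (nat_lit 163) .nil)))))))) (.g (nat_lit 1) (.e (nat_lit 173520) (nat_lit 0) .nil) .nil))))) 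
(.nd (nat_lit 8) (.nd (nat_lit 9) 
(.lf (nat_lit 501943) (.g (nat_lit 4232) (.e (nat_lit 163978) (nat_lit 30) (.e (nat_lit 573489) (nat_lit 14) (.e (nat_lit 73755) (nat_lit 8) (.e (nat_lit 557103) (nat_lit 14) (.e (nat_lit 180244) (nat_lit 5) (.e (nat_lit 532504) (nat_lit 1) (.e (nat_lit 57663) (nat_lit 152) (.e (nat_lit 2606) (nat_lit 163) .nil)))))))) (.g (nat_lit 1) (.e (nat_lit 172004) (nat_lit 0) .nil) .nil))) 
(.lf (nat_lit 502455) (.g (nat_lit 3832) (.e (nat_lit 163979) (nat_lit 30) (.e (nat_lit 573482) (nat_lit 13) (.e (nat_lit 65619) (nat_lit 10) (.e (nat_lit 344117) (nat_lit 21) (.e (nat_lit 516151) (nat_lit 9) (.e (nat_lit 426022) (nat_lit 0) (.e (nat_lit 3401) (nat_lit 211) (.e (nat_lit 647180) (nat_lit 3) .nil)))))))) (.g (nat_lit 1) (.e (nat_lit 173391) (nat_lit 0) .nil) .nil)))) 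
(.nd (nat_lit 9) 
(.lf (nat_lit 502199) (.g (nat_lit 3035) (.e (nat_lit 163979) (nat_lit 30) (.e (nat_lit 573482) (nat_lit 13) (.e (nat_lit 65604) (nat_lit 9) (.e (nat_lit 336013) (nat_lit 2) (.e (nat_lit 90170) (nat_lit 13) (.e (nat_lit 172033) (nat_lit 0) (.e (nat_lit 3402) (nat_lit 211) (.e (nat_lit 647180) (nat_lit 3) .nil)))))))) (.g (nat_lit 1) (.e (nat_lit 173083) (nat_lit 0) .nil) .nil))) 
(.lf (nat_lit 502711) (.g (nat_lit 2658) (.e (nat_lit 163979) (nat_lit 30) (.e (nat_lit 573487) (nat_lit 14) (.e (nat_lit 73753) (nat_lit 8) (.e (nat_lit 557103) (nat_lit 14) (.e (nat_lit 180251) (nat_lit 10) (.e (nat_lit 573475) (nat_lit 12) (.e (nat_lit 57503) (nat_lit 38) (.e (nat_lit 638994) (nat_lit 7) .nil)))))))) (.g (nat_lit 1) (.e (nat_lit 173814) (nat_lit 0) .nil) .nil)))))) 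
(.nd (nat_lit 7) (.nd (nat_lit 8) (.nd (nat_lit 9) 
(.lf (nat_lit 501879) (.g (nat_lit 3157) (.e (nat_lit 163978) (nat_lit 30) (.e (nat_lit 573489) (nat_lit 14) (.e (nat_lit 73755) (nat_lit 8) (.e (nat_lit 557098) (nat_lit 13) (.e (nat_lit 172066) (nat_lit 3) (.e (nat_lit 204822) (nat_lit 17) (.e (nat_lit 2270) (nat_lit 149) (.e (nat_lit 761899) (nat_lit 15) .nil)))))))) (.g (nat_lit 1) (.e (nat_lit 171749) (nat_lit 0) .nil) .nil))) 
(.lf (nat_lit 502391) (.g (nat_lit 2233) (.e (nat_lit 163979) (nat_lit 30) (.e (nat_lit 573482) (nat_lit 13) (.e (nat_lit 65619) (nat_lit 10) (.e (nat_lit 344117) (nat_lit 21) (.e (nat_lit 516143) (nat_lit 9) (.e (nat_lit 426109) (nat_lit 1) (.e (nat_lit 164345) (nat_lit 240) (.e (nat_lit 2598) (nat_lit 163) .nil)))))))) (.g (nat_lit 1) (.e (nat_lit 173327) (nat_lit 0) .nil) .nil)))) 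
(.nd (nat_lit 9) 
(.lf (nat_lit 502135) (.g (nat_lit 3336) (.e (nat_lit 163978) (nat_lit 30) (.e (nat_lit 573493) (nat_lit 15) (.e (nat_lit 81954) (nat_lit 23) (.e (nat_lit 98368) (nat_lit 27) .nil)))) (.g (nat_lit 0) (.e (nat_lit 172906) (nat_lit 0) .nil) .nil))) 
(.lf (nat_lit 502647) (.g (nat_lit 5122) (.e (nat_lit 163979) (nat_lit 30) (.e (nat_lit 573484) (nat_lit 13) (.e (nat_lit 65610) (nat_lit 10) (.e (nat_lit 344117) (nat_lit 21) (.e (nat_lit 516179) (nat_lit 15) (.e (nat_lit 475198) (nat_lit 40) (.e (nat_lit 704589) (nat_lit 3) .nil))))))) (.g (nat_lit 1) (.e (nat_lit 173623) (nat_lit 0) .nil) .nil))))) (.nd (nat_lit 8) (.nd (nat_lit 9) 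
(.lf (nat_lit 502007) (.g (nat_lit 1881) (.e (nat_lit 163978) (nat_lit 30) (.e (nat_lit 573489) (nat_lit 14) (.e (nat_lit 73755) (nat_lit 8) (.e (nat_lit 557105) (nat_lit 14) (.e (nat_lit 180245) (nat_lit 5) .nil))))) (.g (nat_lit 0) (.e (nat_lit 172288) (nat_lit 0) .nil) .nil))) 
(.lf (nat_lit 502519) (.g (nat_lit 2476) (.e (nat_lit 163979) (nat_lit 30) (.e (nat_lit 573482) (nat_lit 13) (.e (nat_lit 65619) (nat_lit 10) (.e (nat_lit 344117) (nat_lit 21) (.e (nat_lit 516152) (nat_lit 9) (.e (nat_lit 426465) (nat_lit 24) (.e (nat_lit 163584) (nat_lit 3) .nil))))))) (.g (nat_lit 1) (.e (nat_lit 173455) (nat_lit 0) .nil) .nil)))) (.nd (nat_lit 9) 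
(.lf (nat_lit 502263) (.g (nat_lit 3543) (.e (nat_lit 163979) (nat_lit 30) (.e (nat_lit 573482) (nat_lit 13) (.e (nat_lit 65604) (nat_lit 9) (.e (nat_lit 336013) (nat_lit 2) (.e (nat_lit 90170) (nat_lit 13) (.e (nat_lit 172070) (nat_lit 4) (.e (nat_lit 229664) (nat_lit 240) (.e (nat_lit 2598) (nat_lit 163) .nil)))))))) (.g (nat_lit 1) (.e (nat_lit 173151) (nat_lit 0) .nil) .nil))) 
(.lf (nat_lit 502775) (.g (nat_lit 3155) (.e (nat_lit 163979) (nat_lit 30) (.e (nat_lit 573488) (nat_lit 14) (.e (nat_lit 73753) (nat_lit 8) (.e (nat_lit 557105) (nat_lit 14) (.e (nat_lit 180251) (nat_lit 10) (.e (nat_lit 573477) (nat_lit 12) (.e (nat_lit 57502) (nat_lit 38) (.e (nat_lit 638995) (nat_lit 7) .nil)))))))) (.g (nat_lit 1) (.e (nat_lit 173900) (nat_lit 0) .nil) .nil))))))))) 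
(.nd (nat_lit 4) (.nd (nat_lit 5) (.nd (nat_lit 6) (.nd (nat_lit 7) (.nd (nat_lit 8) 
(.nd (nat_lit 9) 
(.lf (nat_lit 501775) (.g (nat_lit 2945) (.e (nat_lit 163978) (nat_lit 30) (.e (nat_lit 573489) (nat_lit 14) (.e (nat_lit 73754) (nat_lit 8) (.e (nat_lit 557101) (nat_lit 13) (.e (nat_lit 172065) (nat_lit 3) (.e (nat_lit 204821) (nat_lit 17) (.e (nat_lit 2270) (nat_lit 149) (.e (nat_lit 761899) (nat_lit 15) .nil)))))))) (.g (nat_lit 1) (.e (nat_lit 171475) (nat_lit 0) .nil) .nil))) 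
(.lf (nat_lit 502287) (.g (nat_lit 1923) (.e (nat_lit 163979) (nat_lit 30) (.e (nat_lit 573482) (nat_lit 13) (.e (nat_lit 65604) (nat_lit 9) (.e (nat_lit 336028) (nat_lit 3) (.e (nat_lit 98359) (nat_lit 26) .nil))))) (.g (nat_lit 0) (.e (nat_lit 173177) (nat_lit 0) .nil) .nil)))) (.nd (nat_lit 9) 
(.lf (nat_lit 502031) (.g (nat_lit 1568) (.e (nat_lit 163978) (nat_lit 30) (.e (nat_lit 573489) (nat_lit 14) (.e (nat_lit 73755) (nat_lit 8) (.e (nat_lit 557105) (nat_lit 14) (.e (nat_lit 180251) (nat_lit 10) .nil))))) (.g (nat_lit 0) (.e (nat_lit 172434) (nat_lit 0) .nil) .nil))) 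
(.lf (nat_lit 502543) (.g (nat_lit 4022) (.e (nat_lit 163979) (nat_lit 30) (.e (nat_lit 573482) (nat_lit 13) (.e (nat_lit 65619) (nat_lit 10) (.e (nat_lit 344117) (nat_lit 21) (.e (nat_lit 516159) (nat_lit 10) (.e (nat_lit 434209) (nat_lit 18) (.e (nat_lit 5547) (nat_lit 306) (.e (nat_lit 2601) (nat_lit 163) .nil)))))))) (.g (nat_lit 1) (.e (nat_lit 173479) (nat_lit 0) .nil) .nil))))) 
(.nd (nat_lit 8) (.nd (nat_lit 9) 
(.lf (nat_lit 501903) (.g (nat_lit 3124) (.e (nat_lit 163978) (nat_lit 30) (.e (nat_lit 573489) (nat_lit 14) (.e (nat_lit 73755) (nat_lit 8) (.e (nat_lit 557098) (nat_lit 13) (.e (nat_lit 172137) (nat_lit 15) .nil))))) (.g (nat_lit 0) (.e (nat_lit 171826) (nat_lit 0) .nil) .nil))) 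
(.lf (nat_lit 502415) (.g (nat_lit 3793) (.e (nat_lit 163979) (nat_lit 30) (.e (nat_lit 573482) (nat_lit 13) (.e (nat_lit 65619) (nat_lit 10) (.e (nat_lit 344117) (nat_lit 21) (.e (nat_lit 516144) (nat_lit 9) (.e (nat_lit 426444) (nat_lit 19) (.e (nat_lit 114432) (nat_lit 3) .nil))))))) (.g (nat_lit 1) (.e (nat_lit 173351) (nat_lit 0) .nil) .nil)))) (.nd (nat_lit 9) 
(.lf (nat_lit 502159) (.g (nat_lit 505) (.e (nat_lit 163979) (nat_lit 30) (.e (nat_lit 573449) (nat_lit 9) (.e (nat_lit 1400) (nat_lit 106) .nil))) (.g (nat_lit 0) (.e (nat_lit 172972) (nat_lit 0) .nil) .nil))) 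
(.lf (nat_lit 502671) (.g (nat_lit 2353) (.e (nat_lit 163979) (nat_lit 30) (.e (nat_lit 573487) (nat_lit 14) (.e (nat_lit 73753) (nat_lit 8) (.e (nat_lit 557100) (nat_lit 13) (.e (nat_lit 172067) (nat_lit 3) .nil))))) (.g (nat_lit 0) (.e (nat_lit 173711) (nat_lit 0) .nil) .nil)))))) (.nd (nat_lit 7) (.nd (nat_lit 8) (.nd (nat_lit 9) 
(.lf (nat_lit 501839) (.g (nat_lit 4355) (.e (nat_lit 163978) (nat_lit 30) (.e (nat_lit 573489) (nat_lit 14) (.e (nat_lit 73755) (nat_lit 8) (.e (nat_lit 557097) (nat_lit 13) (.e (nat_lit 172066) (nat_lit 3) (.e (nat_lit 204830) (nat_lit 18) (.e (nat_lit 57663) (nat_lit 152) (.e (nat_lit 2612) (nat_lit 163) .nil)))))))) (.g (nat_lit 1) (.e (nat_lit 171634) (nat_lit 0) .nil) .nil))) 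
(.lf (nat_lit 502351) (.g (nat_lit 3859) (.e (nat_lit 163979) (nat_lit 30) (.e (nat_lit 573482) (nat_lit 13) (.e (nat_lit 65604) (nat_lit 9) (.e (nat_lit 336028) (nat_lit 3) (.e (nat_lit 98383) (nat_lit 32) (.e (nat_lit 475197) (nat_lit 40) (.e (nat_lit 704589) (nat_lit 3) .nil))))))) (.g (nat_lit 1) (.e (nat_lit 173283) (nat_lit 0) .nil) .nil)))) (.nd (nat_lit 9) 
(.lf (nat_lit 502095) (.g (nat_lit 2532) (.e (nat_lit 163978) (nat_lit 30) (.e (nat_lit 573491) (nat_lit 15) (.e (nat_lit 81954) (nat_lit 23) (.e (nat_lit 98368) (nat_lit 27) .nil)))) (.g (nat_lit 0) (.e (nat_lit 172767) (nat_lit 0) .nil) .nil))) 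
(.lf (nat_lit 502607) (.g (nat_lit 2857) (.e (nat_lit 163979) (nat_lit 30) (.e (nat_lit 573482) (nat_lit 13) (.e (nat_lit 65619) (nat_lit 10) (.e (nat_lit 344117) (nat_lit 21) (.e (nat_lit 516172) (nat_lit 13) (.e (nat_lit 458774) (nat_lit 18) (.e (nat_lit 5547) (nat_lit 306) (.e (nat_lit 2610) (nat_lit 163) .nil)))))))) (.g (nat_lit 1) (.e (nat_lit 173547) (nat_lit 0) .nil) .nil))))) 
(.nd (nat_lit 8) (.nd (nat_lit 9) 
(.lf (nat_lit 501967) (.g (nat_lit 3992) (.e (nat_lit 163978) (nat_lit 30) (.e (nat_lit 573489) (nat_lit 14) (.e (nat_lit 73755) (nat_lit 8) (.e (nat_lit 557104) (nat_lit 14) (.e (nat_lit 180244) (nat_lit 5) (.e (nat_lit 532499) (nat_lit 1) (.e (nat_lit 57661) (nat_lit 152) (.e (nat_lit 2606) (nat_lit 163) .nil)))))))) (.g (nat_lit 1) (.e (nat_lit 172071) (nat_lit 0) .nil) .nil))) 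
(.lf (nat_lit 502479) (.g (nat_lit 2292) (.e (nat_lit 163979) (nat_lit 30) (.e (nat_lit 573482) (nat_lit 13) (.e (nat_lit 65619) (nat_lit 10) (.e (nat_lit 344117) (nat_lit 21) (.e (nat_lit 516151) (nat_lit 9) (.e (nat_lit 426097) (nat_lit 1) (.e (nat_lit 164345) (nat_lit 240) (.e (nat_lit 2598) (nat_lit 163) .nil)))))))) (.g (nat_lit 1) (.e (nat_lit 173415) (nat_lit 0) .nil) .nil)))) 
(.nd (nat_lit 9) 
(.lf (nat_lit 502223) (.g (nat_lit 3452) (.e (nat_lit 163979) (nat_lit 30) (.e (nat_lit 573482) (nat_lit 13) (.e (nat_lit 65604) (nat_lit 9) (.e (nat_lit 336013) (nat_lit 2) (.e (nat_lit 90170) (nat_lit 13) (.e (nat_lit 172049) (nat_lit 0) (.e (nat_lit 2458) (nat_lit 157) (.e (nat_lit 5547) (nat_lit 306) (.e (nat_lit 2611) (nat_lit 163) .nil))))))))) (.g (nat_lit 1) (.e (nat_lit 173111) (nat_lit 0) .nil) .nil))) 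
(.lf (nat_lit 502735) (.g (nat_lit 4693) (.e (nat_lit 163979) (nat_lit 30) (.e (nat_lit 573487) (nat_lit 14) (.e (nat_lit 73753) (nat_lit 8) (.e (nat_lit 557105) (nat_lit 14) (.e (nat_lit 180252) (nat_lit 10) (.e (nat_lit 573475) (nat_lit 12) (.e (nat_lit 57503) (nat_lit 38) (.e (nat_lit 638996) (nat_lit 7) .nil)))))))) (.g (nat_lit 1) (.e (nat_lit 173845) (nat_lit 0) .nil) .nil))))))) 
(.nd (nat_lit 6) (.nd (nat_lit 7) (.nd (nat_lit 8) (.nd (nat_lit 9) 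
(.lf (nat_lit 501807) (.g (nat_lit 3063) (.e (nat_lit 163978) (nat_lit 30) (.e (nat_lit 573489) (nat_lit 14) (.e (nat_lit 73754) (nat_lit 8) (.e (nat_lit 557105) (nat_lit 14) (.e (nat_lit 180252) (nat_lit 10) (.e (nat_lit 573475) (nat_lit 12) (.e (nat_lit 57503) (nat_lit 38) (.e (nat_lit 638994) (nat_lit 7) .nil)))))))) (.g (nat_lit 1) (.e (nat_lit 171541) (nat_lit 0) .nil) .nil))) 
(.lf (nat_lit 502319) (.g (nat_lit 3082) (.e (nat_lit 163979) (nat_lit 30) (.e (nat_lit 573482) (nat_lit 13) (.e (nat_lit 65604) (nat_lit 9) (.e (nat_lit 336028) (nat_lit 3) (.e (nat_lit 98361) (nat_lit 26) (.e (nat_lit 426025) (nat_lit 0) (.e (nat_lit 3399) (nat_lit 211) (.e (nat_lit 647181) (nat_lit 3) .nil)))))))) (.g (nat_lit 1) (.e (nat_lit 173229) (nat_lit 0) .nil) .nil)))) (.nd (nat_lit 9) 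
(.lf (nat_lit 502063) (.g (nat_lit 4003) (.e (nat_lit 163978) (nat_lit 30) (.e (nat_lit 573489) (nat_lit 14) (.e (nat_lit 73755) (nat_lit 8) (.e (nat_lit 557105) (nat_lit 14) (.e (nat_lit 180252) (nat_lit 10) (.e (nat_lit 573478) (nat_lit 12) (.e (nat_lit 57500) (nat_lit 37) (.e (nat_lit 630799) (nat_lit 7) .nil)))))))) (.g (nat_lit 1) (.e (nat_lit 172702) (nat_lit 0) .nil) .nil))) 
(.lf (nat_lit 502575) (.g (nat_lit 2615) (.e (nat_lit 163979) (nat_lit 30) (.e (nat_lit 573482) (nat_lit 13) (.e (nat_lit 65619) (nat_lit 10) (.e (nat_lit 344117) (nat_lit 21) (.e (nat_lit 516161) (nat_lit 10) (.e (nat_lit 434209) (nat_lit 18) (.e (nat_lit 5547) (nat_lit 306) (.e (nat_lit 2611) (nat_lit 163) .nil)))))))) (.g (nat_lit 1) (.e (nat_lit 173512) (nat_lit 0) .nil) .nil))))) 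
(.nd (nat_lit 8) (.nd (nat_lit 9) 
(.lf (nat_lit 501935) (.g (nat_lit 4141) (.e (nat_lit 163978) (nat_lit 30) (.e (nat_lit 573489) (nat_lit 14) (.e (nat_lit 73755) (nat_lit 8) (.e (nat_lit 557103) (nat_lit 14) (.e (nat_lit 180244) (nat_lit 5) (.e (nat_lit 532499) (nat_lit 1) (.e (nat_lit 57664) (nat_lit 152) (.e (nat_lit 2606) (nat_lit 163) .nil)))))))) (.g (nat_lit 1) (.e (nat_lit 171926) (nat_lit 0) .nil) .nil))) 
(.lf (nat_lit 502447) (.g (nat_lit 3442) (.e (nat_lit 163979) (nat_lit 30) (.e (nat_lit 573482) (nat_lit 13) (.e (nat_lit 65619) (nat_lit 10) (.e (nat_lit 344117) (nat_lit 21) (.e (nat_lit 516148) (nat_lit 9) (.e (nat_lit 426444) (nat_lit 19) (.e (nat_lit 114432) (nat_lit 3) .nil))))))) (.g (nat_lit 1) (.e (nat_lit 173383) (nat_lit 0) .nil) .nil)))) (.nd (nat_lit 9) 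
(.lf (nat_lit 502191) (.g (nat_lit 4143) (.e (nat_lit 163979) (nat_lit 30) (.e (nat_lit 573482) (nat_lit 13) (.e (nat_lit 65604) (nat_lit 9) (.e (nat_lit 336013) (nat_lit 2) (.e (nat_lit 90170) (nat_lit 13) (.e (nat_lit 172032) (nat_lit 0) (.e (nat_lit 3399) (nat_lit 211) (.e (nat_lit 647180) (nat_lit 3) .nil)))))))) (.g (nat_lit 1) (.e (nat_lit 173075) (nat_lit 0) .nil) .nil))) 
(.lf (nat_lit 502703) (.g (nat_lit 4166) (.e (nat_lit 163979) (nat_lit 30) (.e (nat_lit 573487) (nat_lit 14) (.e (nat_lit 73753) (nat_lit 8) (.e (nat_lit 557103) (nat_lit 14) (.e (nat_lit 180250) (nat_lit 10) (.e (nat_lit 573475) (nat_lit 12) (.e (nat_lit 57504) (nat_lit 38) (.e (nat_lit 638995) (nat_lit 7) .nil)))))))) (.g (nat_lit 1) (.e (nat_lit 173804) (nat_lit 0) .nil) .nil)))))) 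
(.nd (nat_lit 7) (.nd (nat_lit 8) (.nd (nat_lit 9) 
(.lf (nat_lit 501871) (.g (nat_lit 3698) (.e (nat_lit 163978) (nat_lit 30) (.e (nat_lit 573489) (nat_lit 14) (.e (nat_lit 73755) (nat_lit 8) (.e (nat_lit 557098) (nat_lit 13) (.e (nat_lit 172066) (nat_lit 3) (.e (nat_lit 204815) (nat_lit 17) (.e (nat_lit 2271) (nat_lit 149) (.e (nat_lit 761898) (nat_lit 15) .nil)))))))) (.g (nat_lit 1) (.e (nat_lit 171737) (nat_lit 0) .nil) .nil))) 
(.lf (nat_lit 502383) (.g (nat_lit 4344) (.e (nat_lit 163979) (nat_lit 30) (.e (nat_lit 573482) (nat_lit 13) (.e (nat_lit 65619) (nat_lit 10) (.e (nat_lit 344117) (nat_lit 21) (.e (nat_lit 516097) (nat_lit 0) (.e (nat_lit 7366) (nat_lit 388) (.e (nat_lit 2610) (nat_lit 163) (.e (nat_lit 164347) (nat_lit 240) (.e (nat_lit 2599) (nat_lit 163) .nil))))))))) (.g (nat_lit 1) (.e (nat_lit 173318) (nat_lit 0) .nil) .nil)))) 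
(.nd (nat_lit 9) 
(.lf (nat_lit 502127) (.g (nat_lit 2641) (.e (nat_lit 163978) (nat_lit 30) (.e (nat_lit 573493) (nat_lit 15) (.e (nat_lit 81954) (nat_lit 23) (.e (nat_lit 98359) (nat_lit 26) (.e (nat_lit 426042) (nat_lit 0) .nil))))) (.g (nat_lit 0) (.e (nat_lit 172898) (nat_lit 0) .nil) .nil))) 
(.lf (nat_lit 502639) (.g (nat_lit 3284) (.e (nat_lit 163979) (nat_lit 30) (.e (nat_lit 573482) (nat_lit 13) (.e (nat_lit 65619) (nat_lit 10) (.e (nat_lit 344129) (nat_lit 26) (.e (nat_lit 557087) (nat_lit 11) (.e (nat_lit 24598) (nat_lit 1) (.e (nat_lit 57770) (nat_lit 227) (.e (nat_lit 2611) (nat_lit 163) .nil)))))))) (.g (nat_lit 1) (.e (nat_lit 173602) (nat_lit 0) .nil) .nil))))) 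
(.nd (nat_lit 8) (.nd (nat_lit 9) 
(.lf (nat_lit 501999) (.g (nat_lit 3153) (.e (nat_lit 163978) (nat_lit 30) (.e (nat_lit 573489) (nat_lit 14) (.e (nat_lit 73755) (nat_lit 8) (.e (nat_lit 557105) (nat_lit 14) (.e (nat_lit 180244) (nat_lit 5) (.e (nat_lit 532501) (nat_lit 1) (.e (nat_lit 57663) (nat_lit 152) (.e (nat_lit 2606) (nat_lit 163) .nil)))))))) (.g (nat_lit 1) (.e (nat_lit 172246) (nat_lit 0) .nil) .nil))) 
(.lf (nat_lit 502511) (.g (nat_lit 3082) (.e (nat_lit 163979) (nat_lit 30) (.e (nat_lit 573482) (nat_lit 13) (.e (nat_lit 65619) (nat_lit 10) (.e (nat_lit 344117) (nat_lit 21) (.e (nat_lit 516152) (nat_lit 9) (.e (nat_lit 426109) (nat_lit 1) (.e (nat_lit 164345) (nat_lit 240) (.e (nat_lit 2599) (nat_lit 163) .nil)))))))) (.g (nat_lit 1) (.e (nat_lit 173447) (nat_lit 0) .nil) .nil)))) 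
(.nd (nat_lit 9) 
(.lf (nat_lit 502255) (.g (nat_lit 3030) (.e (nat_lit 163979) (nat_lit 30) (.e (nat_lit 573482) (nat_lit 13) (.e (nat_lit 65604) (nat_lit 9) (.e (nat_lit 336013) (nat_lit 2) (.e (nat_lit 90170) (nat_lit 13) (.e (nat_lit 172068) (nat_lit 4) (.e (nat_lit 229666) (nat_lit 240) (.e (nat_lit 2598) (nat_lit 163) .nil)))))))) (.g (nat_lit 1) (.e (nat_lit 173143) (nat_lit 0) .nil) .nil))) 
(.lf (nat_lit 502767) (.g (nat_lit 4886) (.e (nat_lit 163979) (nat_lit 30) (.e (nat_lit 573488) (nat_lit 14) (.e (nat_lit 73753) (nat_lit 8) (.e (nat_lit 557103) (nat_lit 14) (.e (nat_lit 180250) (nat_lit 10) (.e (nat_lit 573474) (nat_lit 12) (.e (nat_lit 57503) (nat_lit 38) (.e (nat_lit 638995) (nat_lit 7) .nil)))))))) (.g (nat_lit 1) (.e (nat_lit 173892) (nat_lit 0) .nil) .nil)))))))) 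
(.nd (nat_lit 5) (.nd (nat_lit 6) (.nd (nat_lit 7) (.nd (nat_lit 8) (.nd (nat_lit 9) 
(.lf (nat_lit 501791) (.g (nat_lit 2641) (.e (nat_lit 163978) (nat_lit 30) (.e (nat_lit 573489) (nat_lit 14) (.e (nat_lit 73754) (nat_lit 8) (.e (nat_lit 557103) (nat_lit 14) (.e (nat_lit 180243) (nat_lit 5) .nil))))) (.g (nat_lit 0) (.e (nat_lit 171513) (nat_lit 0) .nil) .nil))) 
(.lf (nat_lit 502303) (.g (nat_lit 3939) (.e (nat_lit 163979) (nat_lit 30) (.e (nat_lit 573482) (nat_lit 13) (.e (nat_lit 65604) (nat_lit 9) (.e (nat_lit 336028) (nat_lit 3) (.e (nat_lit 98359) (nat_lit 26) (.e (nat_lit 426097) (nat_lit 1) (.e (nat_lit 164347) (nat_lit 240) (.e (nat_lit 2599) (nat_lit 163) .nil)))))))) (.g (nat_lit 1) (.e (nat_lit 173204) (nat_lit 0) .nil) .nil)))) 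
(.nd (nat_lit 9) 
(.lf (nat_lit 502047) (.g (nat_lit 3911) (.e (nat_lit 163978) (nat_lit 30) (.e (nat_lit 573489) (nat_lit 14) (.e (nat_lit 73755) (nat_lit 8) (.e (nat_lit 557105) (nat_lit 14) (.e (nat_lit 180252) (nat_lit 10) (.e (nat_lit 573474) (nat_lit 12) (.e (nat_lit 57501) (nat_lit 37) (.e (nat_lit 638720) (nat_lit 7) .nil)))))))) (.g (nat_lit 1) (.e (nat_lit 172686) (nat_lit 0) .nil) .nil))) 
(.lf (nat_lit 502559) (.g (nat_lit 3426) (.e (nat_lit 163979) (nat_lit 30) (.e (nat_lit 573482) (nat_lit 13) (.e (nat_lit 65619) (nat_lit 10) (.e (nat_lit 344117) (nat_lit 21) (.e (nat_lit 516160) (nat_lit 10) (.e (nat_lit 434209) (nat_lit 18) (.e (nat_lit 5546) (nat_lit 306) (.e (nat_lit 2598) (nat_lit 163) .nil)))))))) (.g (nat_lit 1) (.e (nat_lit 173496) (nat_lit 0) .nil) .nil))))) 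
(.nd (nat_lit 8) (.nd (nat_lit 9) 
(.lf (nat_lit 501919) (.g (nat_lit 3347) (.e (nat_lit 163978) (nat_lit 30) (.e (nat_lit 573489) (nat_lit 14) (.e (nat_lit 73755) (nat_lit 8) (.e (nat_lit 557103) (nat_lit 14) (.e (nat_lit 180243) (nat_lit 5) (.e (nat_lit 532489) (nat_lit 0) (.e (nat_lit 7936) (nat_lit 149) (.e (nat_lit 761898) (nat_lit 15) .nil)))))))) (.g (nat_lit 1) (.e (nat_lit 171867) (nat_lit 0) .nil) .nil))) 
(.lf (nat_lit 502431) (.g (nat_lit 4194) (.e (nat_lit 163979) (nat_lit 30) (.e (nat_lit 573482) (nat_lit 13) (.e (nat_lit 65619) (nat_lit 10) (.e (nat_lit 344117) (nat_lit 21) (.e (nat_lit 516145) (nat_lit 9) (.e (nat_lit 426393) (nat_lit 15) (.e (nat_lit 2059) (nat_lit 142) (.e (nat_lit 704589) (nat_lit 3) .nil)))))))) (.g (nat_lit 1) (.e (nat_lit 173367) (nat_lit 0) .nil) .nil)))) 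
(.nd (nat_lit 9) 
(.lf (nat_lit 502175) (.g (nat_lit 2223) (.e (nat_lit 163979) (nat_lit 30) (.e (nat_lit 573481) (nat_lit 13) (.e (nat_lit 65619) (nat_lit 10) (.e (nat_lit 344117) (nat_lit 21) (.e (nat_lit 516151) (nat_lit 9) .nil))))) (.g (nat_lit 0) (.e (nat_lit 173045) (nat_lit 0) .nil) .nil))) 
(.lf (nat_lit 502687) (.g (nat_lit 2526) (.e (nat_lit 163979) (nat_lit 30) (.e (nat_lit 573487) (nat_lit 14) (.e (nat_lit 73753) (nat_lit 8) (.e (nat_lit 557103) (nat_lit 14) (.e (nat_lit 180250) (nat_lit 10) (.e (nat_lit 573473) (nat_lit 12) (.e (nat_lit 57500) (nat_lit 37) (.e (nat_lit 630800) (nat_lit 7) .nil)))))))) (.g (nat_lit 1) (.e (nat_lit 173786) (nat_lit 0) .nil) .nil)))))) 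
(.nd (nat_lit 7) (.nd (nat_lit 8) (.nd (nat_lit 9) 
(.lf (nat_lit 501855) (.g (nat_lit 4466) (.e (nat_lit 163978) (nat_lit 30) (.e (nat_lit 573489) (nat_lit 14) (.e (nat_lit 73755) (nat_lit 8) (.e (nat_lit 557098) (nat_lit 13) (.e (nat_lit 172065) (nat_lit 3) (.e (nat_lit 204817) (nat_lit 17) (.e (nat_lit 2272) (nat_lit 149) (.e (nat_lit 761897) (nat_lit 15) .nil)))))))) (.g (nat_lit 1) (.e (nat_lit 171703) (nat_lit 0) .nil) .nil))) 
(.lf (nat_lit 502367) (.g (nat_lit 583) (.e (nat_lit 163979) (nat_lit 30) (.e (nat_lit 573482) (nat_lit 13) (.e (nat_lit 65610) (nat_lit 10) .nil))) (.g (nat_lit 0) (.e (nat_lit 173300) (nat_lit 0) .nil) .nil)))) (.nd (nat_lit 9) 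
(.lf (nat_lit 502111) (.g (nat_lit 3851) (.e (nat_lit 163978) (nat_lit 30) (.e (nat_lit 573493) (nat_lit 15) (.e (nat_lit 81951) (nat_lit 22) (.e (nat_lit 90174) (nat_lit 14) .nil)))) (.g (nat_lit 0) (.e (nat_lit 172854) (nat_lit 0) .nil) .nil))) 
(.lf (nat_lit 502623) (.g (nat_lit 3840) (.e (nat_lit 163979) (nat_lit 30) (.e (nat_lit 573482) (nat_lit 13) (.e (nat_lit 65619) (nat_lit 10) (.e (nat_lit 344117) (nat_lit 21) (.e (nat_lit 516181) (nat_lit 15) (.e (nat_lit 475198) (nat_lit 40) (.e (nat_lit 704589) (nat_lit 3) .nil))))))) (.g (nat_lit 1) (.e (nat_lit 173563) (nat_lit 0) .nil) .nil))))) (.nd (nat_lit 8) (.nd (nat_lit 9) 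
(.lf (nat_lit 501983) (.g (nat_lit 780) (.e (nat_lit 163978) (nat_lit 30) (.e (nat_lit 573489) (nat_lit 14) (.e (nat_lit 73755) (nat_lit 8) (.e (nat_lit 557105) (nat_lit 14) .nil)))) (.g (nat_lit 0) (.e (nat_lit 172182) (nat_lit 0) .nil) .nil))) 
(.lf (nat_lit 502495) (.g (nat_lit 2808) (.e (nat_lit 163979) (nat_lit 30) (.e (nat_lit 573482) (nat_lit 13) (.e (nat_lit 65619) (nat_lit 10) (.e (nat_lit 344117) (nat_lit 21) (.e (nat_lit 516151) (nat_lit 9) (.e (nat_lit 426142) (nat_lit 4) (.e (nat_lit 229665) (nat_lit 240) (.e (nat_lit 2598) (nat_lit 163) .nil)))))))) (.g (nat_lit 1) (.e (nat_lit 173431) (nat_lit 0) .nil) .nil)))) 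
(.nd (nat_lit 9) 
(.lf (nat_lit 502239) (.g (nat_lit 4237) (.e (nat_lit 163979) (nat_lit 30) (.e (nat_lit 573482) (nat_lit 13) (.e (nat_lit 65604) (nat_lit 9) (.e (nat_lit 336013) (nat_lit 2) (.e (nat_lit 90170) (nat_lit 13) (.e (nat_lit 172060) (nat_lit 1) (.e (nat_lit 164347) (nat_lit 240) (.e (nat_lit 2610) (nat_lit 163) .nil)))))))) (.g (nat_lit 1) (.e (nat_lit 173127) (nat_lit 0) .nil) .nil))) 
(.lf (nat_lit 502751) (.g (nat_lit 3841) (.e (nat_lit 163979) (nat_lit 30) (.e (nat_lit 573487) (nat_lit 14) (.e (nat_lit 73754) (nat_lit 8) (.e (nat_lit 557105) (nat_lit 14) (.e (nat_lit 180252) (nat_lit 10) (.e (nat_lit 573475) (nat_lit 12) (.e (nat_lit 57503) (nat_lit 38) (.e (nat_lit 638996) (nat_lit 7) .nil)))))))) (.g (nat_lit 1) (.e (nat_lit 173865) (nat_lit 0) .nil) .nil))))))) 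
(.nd (nat_lit 6) (.nd (nat_lit 7) (.nd (nat_lit 8) (.nd (nat_lit 9) 
(.lf (nat_lit 501823) (.g (nat_lit 3491) (.e (nat_lit 163978) (nat_lit 30) (.e (nat_lit 573489) (nat_lit 14) (.e (nat_lit 73755) (nat_lit 8) (.e (nat_lit 557097) (nat_lit 13) (.e (nat_lit 172065) (nat_lit 3) (.e (nat_lit 204817) (nat_lit 17) (.e (nat_lit 2272) (nat_lit 149) (.e (nat_lit 761897) (nat_lit 15) .nil)))))))) (.g (nat_lit 1) (.e (nat_lit 171611) (nat_lit 0) .nil) .nil))) 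
(.lf (nat_lit 502335) (.g (nat_lit 5112) (.e (nat_lit 163979) (nat_lit 30) (.e (nat_lit 573482) (nat_lit 13) (.e (nat_lit 65604) (nat_lit 9) (.e (nat_lit 336028) (nat_lit 3) (.e (nat_lit 98366) (nat_lit 27) (.e (nat_lit 434209) (nat_lit 18) (.e (nat_lit 5547) (nat_lit 306) (.e (nat_lit 2610) (nat_lit 163) .nil)))))))) (.g (nat_lit 1) (.e (nat_lit 173252) (nat_lit 0) .nil) .nil)))) 
(.nd (nat_lit 9) 
(.lf (nat_lit 502079) (.g (nat_lit 3126) (.e (nat_lit 163978) (nat_lit 30) (.e (nat_lit 573490) (nat_lit 15) (.e (nat_lit 81956) (nat_lit 23) (.e (nat_lit 98365) (nat_lit 26) .nil)))) (.g (nat_lit 0) (.e (nat_lit 172725) (nat_lit 0) .nil) .nil))) 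
(.lf (nat_lit 502591) (.g (nat_lit 3366) (.e (nat_lit 163979) (nat_lit 30) (.e (nat_lit 573482) (nat_lit 13) (.e (nat_lit 65619) (nat_lit 10) (.e (nat_lit 344117) (nat_lit 21) (.e (nat_lit 516169) (nat_lit 13) (.e (nat_lit 458774) (nat_lit 18) (.e (nat_lit 5548) (nat_lit 306) (.e (nat_lit 2601) (nat_lit 163) .nil)))))))) (.g (nat_lit 1) (.e (nat_lit 173528) (nat_lit 0) .nil) .nil))))) 
(.nd (nat_lit 8) (.nd (nat_lit 9) 
(.lf (nat_lit 501951) (.g (nat_lit 3437) (.e (nat_lit 163978) (nat_lit 30) (.e (nat_lit 573489) (nat_lit 14) (.e (nat_lit 73755) (nat_lit 8) (.e (nat_lit 557104) (nat_lit 14) (.e (nat_lit 180242) (nat_lit 5) .nil))))) (.g (nat_lit 0) (.e (nat_lit 172031) (nat_lit 0) .nil) .nil))) 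
(.lf (nat_lit 502463) (.g (nat_lit 3970) (.e (nat_lit 163979) (nat_lit 30) (.e (nat_lit 573482) (nat_lit 13) (.e (nat_lit 65619) (nat_lit 10) (.e (nat_lit 344117) (nat_lit 21) (.e (nat_lit 516151) (nat_lit 9) (.e (nat_lit 426042) (nat_lit 0) (.e (nat_lit 2458) (nat_lit 157) (.e (nat_lit 5546) (nat_lit 306) (.e (nat_lit 2611) (nat_lit 163) .nil))))))))) (.g (nat_lit 1) (.e (nat_lit 173399) (nat_lit 0) .nil) .nil)))) 
(.nd (nat_lit 9) 
(.lf (nat_lit 502207) (.g (nat_lit 2520) (.e (nat_lit 163979) (nat_lit 30) (.e (nat_lit 573482) (nat_lit 13) (.e (nat_lit 65604) (nat_lit 9) (.e (nat_lit 336013) (nat_lit 2) (.e (nat_lit 90170) (nat_lit 13) (.e (nat_lit 172042) (nat_lit 0) (.e (nat_lit 2478) (nat_lit 157) (.e (nat_lit 5548) (nat_lit 306) (.e (nat_lit 2611) (nat_lit 163) .nil))))))))) (.g (nat_lit 1) (.e (nat_lit 173092) (nat_lit 0) .nil) .nil))) 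
(.lf (nat_lit 502719) (.g (nat_lit 2940) (.e (nat_lit 163979) (nat_lit 30) (.e (nat_lit 573487) (nat_lit 14) (.e (nat_lit 73753) (nat_lit 8) (.e (nat_lit 557105) (nat_lit 14) (.e (nat_lit 180251) (nat_lit 10) (.e (nat_lit 573477) (nat_lit 12) (.e (nat_lit 57502) (nat_lit 38) (.e (nat_lit 638996) (nat_lit 7) .nil)))))))) (.g (nat_lit 1) (.e (nat_lit 173824) (nat_lit 0) .nil) .nil)))))) 
(.nd (nat_lit 7) (.nd (nat_lit 8) (.nd (nat_lit 9) 
(.lf (nat_lit 501887) (.g (nat_lit 5275) (.e (nat_lit 163978) (nat_lit 30) (.e (nat_lit 573489) (nat_lit 14) (.e (nat_lit 73755) (nat_lit 8) (.e (nat_lit 557098) (nat_lit 13) (.e (nat_lit 172067) (nat_lit 3) (.e (nat_lit 204815) (nat_lit 17) (.e (nat_lit 2271) (nat_lit 149) (.e (nat_lit 761898) (nat_lit 15) .nil)))))))) (.g (nat_lit 1) (.e (nat_lit 171775) (nat_lit 0) .nil) .nil))) 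
(.lf (nat_lit 502399) (.g (nat_lit 2685) (.e (nat_lit 163979) (nat_lit 30) (.e (nat_lit 573482) (nat_lit 13) (.e (nat_lit 65619) (nat_lit 10) (.e (nat_lit 344117) (nat_lit 21) (.e (nat_lit 516143) (nat_lit 9) (.e (nat_lit 426444) (nat_lit 19) (.e (nat_lit 114432) (nat_lit 3) .nil))))))) (.g (nat_lit 1) (.e (nat_lit 173335) (nat_lit 0) .nil) .nil)))) (.nd (nat_lit 9) 
(.lf (nat_lit 502143) (.g (nat_lit 4698) (.e (nat_lit 163978) (nat_lit 30) (.e (nat_lit 573493) (nat_lit 15) (.e (nat_lit 81956) (nat_lit 23) (.e (nat_lit 98361) (nat_lit 26) .nil)))) (.g (nat_lit 0) (.e (nat_lit 172925) (nat_lit 0) .nil) .nil))) 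
(.lf (nat_lit 502655) (.g (nat_lit 2918) (.e (nat_lit 163979) (nat_lit 30) (.e (nat_lit 573487) (nat_lit 14) (.e (nat_lit 73753) (nat_lit 8) (.e (nat_lit 557098) (nat_lit 13) (.e (nat_lit 172065) (nat_lit 3) (.e (nat_lit 204815) (nat_lit 17) (.e (nat_lit 2271) (nat_lit 149) (.e (nat_lit 761898) (nat_lit 15) .nil)))))))) (.g (nat_lit 1) (.e (nat_lit 173659) (nat_lit 0) .nil) .nil))))) 
(.nd (nat_lit 8) (.nd (nat_lit 9) 
(.lf (nat_lit 502015) (.g (nat_lit 3017) (.e (nat_lit 163978) (nat_lit 30) (.e (nat_lit 573489) (nat_lit 14) (.e (nat_lit 73755) (nat_lit 8) (.e (nat_lit 557105) (nat_lit 14) (.e (nat_lit 180245) (nat_lit 5) (.e (nat_lit 532499) (nat_lit 1) (.e (nat_lit 57652) (nat_lit 152) (.e (nat_lit 2606) (nat_lit 163) .nil)))))))) (.g (nat_lit 1) (.e (nat_lit 172311) (nat_lit 0) .nil) .nil))) 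
(.lf (nat_lit 502527) (.g (nat_lit 2660) (.e (nat_lit 163979) (nat_lit 30) (.e (nat_lit 573482) (nat_lit 13) (.e (nat_lit 65619) (nat_lit 10) (.e (nat_lit 344117) (nat_lit 21) (.e (nat_lit 516153) (nat_lit 9) (.e (nat_lit 426109) (nat_lit 1) (.e (nat_lit 164347) (nat_lit 240) (.e (nat_lit 2611) (nat_lit 163) .nil)))))))) (.g (nat_lit 1) (.e (nat_lit 173463) (nat_lit 0) .nil) .nil)))) 
(.nd (nat_lit 9) 
(.lf (nat_lit 502271) (.g (nat_lit 4873) (.e (nat_lit 163979) (nat_lit 30) (.e (nat_lit 573482) (nat_lit 13) (.e (nat_lit 65604) (nat_lit 9) (.e (nat_lit 336013) (nat_lit 2) (.e (nat_lit 90170) (nat_lit 13) (.e (nat_lit 172138) (nat_lit 15) (.e (nat_lit 2056) (nat_lit 142) (.e (nat_lit 704589) (nat_lit 3) .nil)))))))) (.g (nat_lit 1) (.e (nat_lit 173159) (nat_lit 0) .nil) .nil))) 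
(.lf (nat_lit 502783) (.g (nat_lit 2341) (.e (nat_lit 163979) (nat_lit 30) (.e (nat_lit 573488) (nat_lit 14) (.e (nat_lit 73754) (nat_lit 8) (.e (nat_lit 557105) (nat_lit 14) (.e (nat_lit 180251) (nat_lit 10) .nil))))) (.g (nat_lit 0) (.e (nat_lit 173908) (nat_lit 0) .nil) .nil)))))))))))))

noncomputable def tv5551 : DT := (.nd (nat_lit 0) (.nd (nat_lit 1) (.nd (nat_lit 2) (.nd (nat_lit 3) (.nd (nat_lit 4) (.nd (nat_lit 5) (.nd (nat_lit 6) (.nd (nat_lit 7) (.nd (nat_lit 8) (.nd (nat_lit 9) 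
(.lf (nat_lit 502784) (.g (nat_lit 4922) (.e (nat_lit 163979) (nat_lit 30) (.e (nat_lit 573488) (nat_lit 14) (.e (nat_lit 73754) (nat_lit 8) (.e (nat_lit 557105) (nat_lit 14) (.e (nat_lit 180251) (nat_lit 10) (.e (nat_lit 573475) (nat_lit 12) (.e (nat_lit 57503) (nat_lit 38) (.e (nat_lit 638995) (nat_lit 7) .nil)))))))) (.g (nat_lit 1) (.e (nat_lit 173909) (nat_lit 0) .nil) .nil))) 
(.lf (nat_lit 503296) (.g (nat_lit 3791) (.e (nat_lit 163979) (nat_lit 30) (.e (nat_lit 573491) (nat_lit 15) (.e (nat_lit 81954) (nat_lit 23) (.e (nat_lit 98362) (nat_lit 26) (.e (nat_lit 426412) (nat_lit 15) (.e (nat_lit 2059) (nat_lit 142) (.e (nat_lit 704589) (nat_lit 3) .nil))))))) (.g (nat_lit 1) (.e (nat_lit 174865) (nat_lit 0) .nil) .nil)))) (.nd (nat_lit 9) 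
(.lf (nat_lit 503040) (.g (nat_lit 2707) (.e (nat_lit 163979) (nat_lit 30) (.e (nat_lit 573489) (nat_lit 14) (.e (nat_lit 73755) (nat_lit 8) (.e (nat_lit 557103) (nat_lit 14) (.e (nat_lit 180250) (nat_lit 10) (.e (nat_lit 573475) (nat_lit 12) (.e (nat_lit 57502) (nat_lit 38) (.e (nat_lit 638994) (nat_lit 7) .nil)))))))) (.g (nat_lit 1) (.e (nat_lit 174337) (nat_lit 0) .nil) .nil))) 
(.lf (nat_lit 503552) (.g (nat_lit 4608) (.e (nat_lit 163979) (nat_lit 30) (.e (nat_lit 573493) (nat_lit 15) (.e (nat_lit 81953) (nat_lit 22) (.e (nat_lit 90185) (nat_lit 17) (.e (nat_lit 237584) (nat_lit 1) .nil))))) (.g (nat_lit 0) (.e (nat_lit 175775) (nat_lit 0) .nil) .nil))))) (.nd (nat_lit 8) (.nd (nat_lit 9) 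
(.lf (nat_lit 502912) (.g (nat_lit 4317) (.e (nat_lit 163979) (nat_lit 30) (.e (nat_lit 573489) (nat_lit 14) (.e (nat_lit 73754) (nat_lit 8) (.e (nat_lit 557105) (nat_lit 14) (.e (nat_lit 180252) (nat_lit 10) (.e (nat_lit 573475) (nat_lit 12) (.e (nat_lit 57500) (nat_lit 37) (.e (nat_lit 630800) (nat_lit 7) .nil)))))))) (.g (nat_lit 1) (.e (nat_lit 174065) (nat_lit 0) .nil) .nil))) 
(.lf (nat_lit 503424) (.g (nat_lit 4386) (.e (nat_lit 163979) (nat_lit 30) (.e (nat_lit 573492) (nat_lit 15) (.e (nat_lit 81956) (nat_lit 23) (.e (nat_lit 98359) (nat_lit 26) (.e (nat_lit 426043) (nat_lit 0) (.e (nat_lit 3406) (nat_lit 212) (.e (nat_lit 655375) (nat_lit 3) .nil))))))) (.g (nat_lit 1) (.e (nat_lit 175237) (nat_lit 0) .nil) .nil)))) (.nd (nat_lit 9) 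
(.lf (nat_lit 503168) (.g (nat_lit 4608) (.e (nat_lit 163979) (nat_lit 30) (.e (nat_lit 573489) (nat_lit 14) (.e (nat_lit 73755) (nat_lit 8) (.e (nat_lit 557105) (nat_lit 14) (.e (nat_lit 180252) (nat_lit 10) (.e (nat_lit 573475) (nat_lit 12) (.e (nat_lit 57500) (nat_lit 37) (.e (nat_lit 630799) (nat_lit 7) .nil)))))))) (.g (nat_lit 1) (.e (nat_lit 174593) (nat_lit 0) .nil) .nil))) 
(.lf (nat_lit 503680) (.g (nat_lit 3695) (.e (nat_lit 163979) (nat_lit 30) (.e (nat_lit 573493) (nat_lit 15) (.e (nat_lit 81956) (nat_lit 23) (.e (nat_lit 98356) (nat_lit 26) (.e (nat_lit 426442) (nat_lit 19) (.e (nat_lit 114432) (nat_lit 3) .nil)))))) (.g (nat_lit 1) (.e (nat_lit 176019) (nat_lit 0) .nil) .nil)))))) (.nd (nat_lit 7) (.nd (nat_lit 8) (.nd (nat_lit 9) 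
(.lf (nat_lit 502848) (.g (nat_lit 4137) (.e (nat_lit 163979) (nat_lit 30) (.e (nat_lit 573489) (nat_lit 14) (.e (nat_lit 73753) (nat_lit 8) (.e (nat_lit 557105) (nat_lit 14) (.e (nat_lit 180251) (nat_lit 10) (.e (nat_lit 573475) (nat_lit 12) (.e (nat_lit 57503) (nat_lit 38) (.e (nat_lit 638995) (nat_lit 7) .nil)))))))) (.g (nat_lit 1) (.e (nat_lit 173979) (nat_lit 0) .nil) .nil))) 
(.lf (nat_lit 503360) (.g (nat_lit 3026) (.e (nat_lit 163979) (nat_lit 30) (.e (nat_lit 573492) (nat_lit 15) (.e (nat_lit 81951) (nat_lit 22) (.e (nat_lit 90185) (nat_lit 17) .nil)))) (.g (nat_lit 0) (.e (nat_lit 175025) (nat_lit 0) .nil) .nil)))) (.nd (nat_lit 9) 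
(.lf (nat_lit 503104) (.g (nat_lit 3251) (.e (nat_lit 163979) (nat_lit 30) (.e (nat_lit 573489) (nat_lit 14) (.e (nat_lit 73755) (nat_lit 8) (.e (nat_lit 557104) (nat_lit 14) (.e (nat_lit 180251) (nat_lit 10) (.e (nat_lit 573475) (nat_lit 12) (.e (nat_lit 57503) (nat_lit 38) (.e (nat_lit 638994) (nat_lit 7) .nil)))))))) (.g (nat_lit 1) (.e (nat_lit 174518) (nat_lit 0) .nil) .nil))) 
(.lf (nat_lit 503616) (.g (nat_lit 4047) (.e (nat_lit 163979) (nat_lit 30) (.e (nat_lit 573493) (nat_lit 15) (.e (nat_lit 81954) (nat_lit 23) (.e (nat_lit 98384) (nat_lit 32) (.e (nat_lit 475196) (nat_lit 40) (.e (nat_lit 704589) (nat_lit 3) .nil)))))) (.g (nat_lit 1) (.e (nat_lit 175890) (nat_lit 0) .nil) .nil))))) (.nd (nat_lit 8) (.nd (nat_lit 9) 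
(.lf (nat_lit 502976) (.g (nat_lit 3447) (.e (nat_lit 163979) (nat_lit 30) (.e (nat_lit 573489) (nat_lit 14) (.e (nat_lit 73755) (nat_lit 8) (.e (nat_lit 557098) (nat_lit 13) (.e (nat_lit 172065) (nat_lit 3) (.e (nat_lit 204821) (nat_lit 17) (.e (nat_lit 2264) (nat_lit 149) (.e (nat_lit 761899) (nat_lit 15) .nil)))))))) (.g (nat_lit 1) (.e (nat_lit 174205) (nat_lit 0) .nil) .nil))) 
(.lf (nat_lit 503488) (.g (nat_lit 4072) (.e (nat_lit 163979) (nat_lit 30) (.e (nat_lit 573493) (nat_lit 15) (.e (nat_lit 81951) (nat_lit 22) (.e (nat_lit 90170) (nat_lit 13) (.e (nat_lit 172137) (nat_lit 15) .nil))))) (.g (nat_lit 0) (.e (nat_lit 175563) (nat_lit 0) .nil) .nil)))) (.nd (nat_lit 9) 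
(.lf (nat_lit 503232) (.g (nat_lit 2474) (.e (nat_lit 163979) (nat_lit 30) (.e (nat_lit 573491) (nat_lit 15) (.e (nat_lit 81954) (nat_lit 23) (.e (nat_lit 98356) (nat_lit 26) (.e (nat_lit 426360) (nat_lit 15) (.e (nat_lit 2045) (nat_lit 142) (.e (nat_lit 704589) (nat_lit 3) .nil))))))) (.g (nat_lit 1) (.e (nat_lit 174773) (nat_lit 0) .nil) .nil))) 
(.lf (nat_lit 503744) (.g (nat_lit 5210) (.e (nat_lit 163979) (nat_lit 30) (.e (nat_lit 573493) (nat_lit 15) (.e (nat_lit 81956) (nat_lit 23) (.e (nat_lit 98365) (nat_lit 26) (.e (nat_lit 426413) (nat_lit 15) (.e (nat_lit 2058) (nat_lit 142) (.e (nat_lit 704589) (nat_lit 3) .nil))))))) (.g (nat_lit 1) (.e (nat_lit 176165) (nat_lit 0) .nil) .nil))))))) 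
(.nd (nat_lit 6) (.nd (nat_lit 7) (.nd (nat_lit 8) (.nd (nat_lit 9) 
(.lf (nat_lit 502816) (.g (nat_lit 4922) (.e (nat_lit 163979) (nat_lit 30) (.e (nat_lit 573488) (nat_lit 14) (.e (nat_lit 73755) (nat_lit 8) (.e (nat_lit 557104) (nat_lit 14) (.e (nat_lit 180251) (nat_lit 10) (.e (nat_lit 573475) (nat_lit 12) (.e (nat_lit 57503) (nat_lit 38) (.e (nat_lit 638995) (nat_lit 7) .nil)))))))) (.g (nat_lit 1) (.e (nat_lit 173943) (nat_lit 0) .nil) .nil))) 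
(.lf (nat_lit 503328) (.g (nat_lit 325) (.e (nat_lit 163979) (nat_lit 30) (.e (nat_lit 573491) (nat_lit 15) (.e (nat_lit 81955) (nat_lit 23) .nil))) (.g (nat_lit 0) (.e (nat_lit 174934) (nat_lit 0) .nil) .nil)))) (.nd (nat_lit 9) 
(.lf (nat_lit 503072) (.g (nat_lit 2469) (.e (nat_lit 163979) (nat_lit 30) (.e (nat_lit 573489) (nat_lit 14) (.e (nat_lit 73755) (nat_lit 8) (.e (nat_lit 557104) (nat_lit 14) (.e (nat_lit 180244) (nat_lit 5) (.e (nat_lit 532481) (nat_lit 0) (.e (nat_lit 2265) (nat_lit 149) (.e (nat_lit 761899) (nat_lit 15) .nil)))))))) (.g (nat_lit 1) (.e (nat_lit 174394) (nat_lit 0) .nil) .nil))) 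
(.lf (nat_lit 503584) (.g (nat_lit 3307) (.e (nat_lit 163979) (nat_lit 30) (.e (nat_lit 573493) (nat_lit 15) (.e (nat_lit 81954) (nat_lit 23) (.e (nat_lit 98359) (nat_lit 26) (.e (nat_lit 426022) (nat_lit 0) (.e (nat_lit 3399) (nat_lit 211) (.e (nat_lit 647180) (nat_lit 3) .nil))))))) (.g (nat_lit 1) (.e (nat_lit 175820) (nat_lit 0) .nil) .nil))))) (.nd (nat_lit 8) (.nd (nat_lit 9) 
(.lf (nat_lit 502944) (.g (nat_lit 2643) (.e (nat_lit 163979) (nat_lit 30) (.e (nat_lit 573489) (nat_lit 14) (.e (nat_lit 73755) (nat_lit 8) (.e (nat_lit 557097) (nat_lit 13) (.e (nat_lit 172066) (nat_lit 3) (.e (nat_lit 204815) (nat_lit 17) (.e (nat_lit 2271) (nat_lit 149) (.e (nat_lit 761897) (nat_lit 15) .nil)))))))) (.g (nat_lit 1) (.e (nat_lit 174132) (nat_lit 0) .nil) .nil))) 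
(.lf (nat_lit 503456) (.g (nat_lit 3668) (.e (nat_lit 163979) (nat_lit 30) (.e (nat_lit 573492) (nat_lit 15) (.e (nat_lit 81956) (nat_lit 23) (.e (nat_lit 98384) (nat_lit 32) (.e (nat_lit 475201) (nat_lit 40) (.e (nat_lit 712448) (nat_lit 3) .nil)))))) (.g (nat_lit 1) (.e (nat_lit 175348) (nat_lit 0) .nil) .nil)))) (.nd (nat_lit 9) 
(.lf (nat_lit 503200) (.g (nat_lit 2756) (.e (nat_lit 163979) (nat_lit 30) (.e (nat_lit 573491) (nat_lit 15) (.e (nat_lit 81951) (nat_lit 22) (.e (nat_lit 90170) (nat_lit 13) (.e (nat_lit 172046) (nat_lit 0) (.e (nat_lit 3403) (nat_lit 212) (.e (nat_lit 655373) (nat_lit 3) .nil))))))) (.g (nat_lit 1) (.e (nat_lit 174679) (nat_lit 0) .nil) .nil))) 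
(.lf (nat_lit 503712) (.g (nat_lit 4960) (.e (nat_lit 163979) (nat_lit 30) (.e (nat_lit 573493) (nat_lit 15) (.e (nat_lit 81956) (nat_lit 23) (.e (nat_lit 98359) (nat_lit 26) (.e (nat_lit 426412) (nat_lit 15) (.e (nat_lit 2058) (nat_lit 142) (.e (nat_lit 704589) (nat_lit 3) .nil))))))) (.g (nat_lit 1) (.e (nat_lit 176104) (nat_lit 0) .nil) .nil)))))) 
(.nd (nat_lit 7) (.nd (nat_lit 8) (.nd (nat_lit 9) 
(.lf (nat_lit 502880) (.g (nat_lit 2492) (.e (nat_lit 163979) (nat_lit 30) (.e (nat_lit 573489) (nat_lit 14) (.e (nat_lit 73754) (nat_lit 8) (.e (nat_lit 557101) (nat_lit 13) (.e (nat_lit 172067) (nat_lit 3) (.e (nat_lit 204817) (nat_lit 17) (.e (nat_lit 7936) (nat_lit 149) (.e (nat_lit 761894) (nat_lit 15) .nil)))))))) (.g (nat_lit 1) (.e (nat_lit 174031) (nat_lit 0) .nil) .nil))) 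
(.lf (nat_lit 503392) (.g (nat_lit 2929) (.e (nat_lit 163979) (nat_lit 30) (.e (nat_lit 573492) (nat_lit 15) (.e (nat_lit 81956) (nat_lit 23) (.e (nat_lit 98355) (nat_lit 26) (.e (nat_lit 426442) (nat_lit 19) (.e (nat_lit 114432) (nat_lit 3) .nil)))))) (.g (nat_lit 1) (.e (nat_lit 175157) (nat_lit 0) .nil) .nil)))) (.nd (nat_lit 9) 
(.lf (nat_lit 503136) (.g (nat_lit 2292) (.e (nat_lit 163979) (nat_lit 30) (.e (nat_lit 573489) (nat_lit 14) (.e (nat_lit 73755) (nat_lit 8) (.e (nat_lit 557105) (nat_lit 14) (.e (nat_lit 180251) (nat_lit 10) .nil))))) (.g (nat_lit 0) (.e (nat_lit 174552) (nat_lit 0) .nil) .nil))) 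
(.lf (nat_lit 503648) (.g (nat_lit 3625) (.e (nat_lit 163979) (nat_lit 30) (.e (nat_lit 573493) (nat_lit 15) (.e (nat_lit 81956) (nat_lit 23) (.e (nat_lit 98356) (nat_lit 26) (.e (nat_lit 426360) (nat_lit 15) (.e (nat_lit 2051) (nat_lit 142) (.e (nat_lit 704589) (nat_lit 3) .nil))))))) (.g (nat_lit 1) (.e (nat_lit 175979) (nat_lit 0) .nil) .nil))))) (.nd (nat_lit 8) (.nd (nat_lit 9) 
(.lf (nat_lit 503008) (.g (nat_lit 1253) (.e (nat_lit 163979) (nat_lit 30) (.e (nat_lit 573489) (nat_lit 14) (.e (nat_lit 73755) (nat_lit 8) (.e (nat_lit 557103) (nat_lit 14) .nil)))) (.g (nat_lit 0) (.e (nat_lit 174261) (nat_lit 0) .nil) .nil))) 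
(.lf (nat_lit 503520) (.g (nat_lit 3478) (.e (nat_lit 163979) (nat_lit 30) (.e (nat_lit 573493) (nat_lit 15) (.e (nat_lit 81953) (nat_lit 22) (.e (nat_lit 90170) (nat_lit 13) (.e (nat_lit 172048) (nat_lit 0) .nil))))) (.g (nat_lit 0) (.e (nat_lit 175681) (nat_lit 0) .nil) .nil)))) (.nd (nat_lit 9) 
(.lf (nat_lit 503264) (.g (nat_lit 2189) (.e (nat_lit 163979) (nat_lit 30) (.e (nat_lit 573491) (nat_lit 15) (.e (nat_lit 81954) (nat_lit 23) (.e (nat_lit 98357) (nat_lit 26) (.e (nat_lit 426442) (nat_lit 19) (.e (nat_lit 114432) (nat_lit 3) .nil)))))) (.g (nat_lit 1) (.e (nat_lit 174809) (nat_lit 0) .nil) .nil))) 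
(.lf (nat_lit 503776) (.g (nat_lit 2836) (.e (nat_lit 163979) (nat_lit 30) (.e (nat_lit 573493) (nat_lit 15) (.e (nat_lit 81956) (nat_lit 23) (.e (nat_lit 98368) (nat_lit 27) (.e (nat_lit 434212) (nat_lit 18) .nil))))) (.g (nat_lit 0) (.e (nat_lit 176297) (nat_lit 0) .nil) .nil)))))))) (.nd (nat_lit 5) (.nd (nat_lit 6) (.nd (nat_lit 7) (.nd (nat_lit 8) (.nd (nat_lit 9) 
(.lf (nat_lit 502800) (.g (nat_lit 3626) (.e (nat_lit 163979) (nat_lit 30) (.e (nat_lit 573488) (nat_lit 14) (.e (nat_lit 73755) (nat_lit 8) (.e (nat_lit 557103) (nat_lit 14) (.e (nat_lit 180250) (nat_lit 10) (.e (nat_lit 573475) (nat_lit 12) (.e (nat_lit 57502) (nat_lit 38) (.e (nat_lit 638995) (nat_lit 7) .nil)))))))) (.g (nat_lit 1) (.e (nat_lit 173927) (nat_lit 0) .nil) .nil))) 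
(.lf (nat_lit 503312) (.g (nat_lit 4080) (.e (nat_lit 163979) (nat_lit 30) (.e (nat_lit 573491) (nat_lit 15) (.e (nat_lit 81954) (nat_lit 23) (.e (nat_lit 98384) (nat_lit 32) (.e (nat_lit 475197) (nat_lit 40) (.e (nat_lit 704589) (nat_lit 3) .nil)))))) (.g (nat_lit 1) (.e (nat_lit 174918) (nat_lit 0) .nil) .nil)))) (.nd (nat_lit 9) 
(.lf (nat_lit 503056) (.g (nat_lit 4722) (.e (nat_lit 163979) (nat_lit 30) (.e (nat_lit 573489) (nat_lit 14) (.e (nat_lit 73755) (nat_lit 8) (.e (nat_lit 557103) (nat_lit 14) (.e (nat_lit 180251) (nat_lit 10) (.e (nat_lit 573475) (nat_lit 12) (.e (nat_lit 57503) (nat_lit 38) (.e (nat_lit 638996) (nat_lit 7) .nil)))))))) (.g (nat_lit 1) (.e (nat_lit 174353) (nat_lit 0) .nil) .nil))) 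
(.lf (nat_lit 503568) (.g (nat_lit 3756) (.e (nat_lit 163979) (nat_lit 30) (.e (nat_lit 573493) (nat_lit 15) (.e (nat_lit 81954) (nat_lit 23) (.e (nat_lit 98356) (nat_lit 26) (.e (nat_lit 426376) (nat_lit 15) .nil))))) (.g (nat_lit 0) (.e (nat_lit 175801) (nat_lit 0) .nil) .nil))))) (.nd (nat_lit 8) (.nd (nat_lit 9) 
(.lf (nat_lit 502928) (.g (nat_lit 3585) (.e (nat_lit 163979) (nat_lit 30) (.e (nat_lit 573489) (nat_lit 14) (.e (nat_lit 73755) (nat_lit 8) (.e (nat_lit 557096) (nat_lit 13) (.e (nat_lit 172067) (nat_lit 3) (.e (nat_lit 204817) (nat_lit 17) (.e (nat_lit 7936) (nat_lit 149) (.e (nat_lit 761897) (nat_lit 15) .nil)))))))) (.g (nat_lit 1) (.e (nat_lit 174097) (nat_lit 0) .nil) .nil))) 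
(.lf (nat_lit 503440) (.g (nat_lit 5301) (.e (nat_lit 163979) (nat_lit 30) (.e (nat_lit 573492) (nat_lit 15) (.e (nat_lit 81956) (nat_lit 23) (.e (nat_lit 98365) (nat_lit 26) (.e (nat_lit 426035) (nat_lit 0) .nil))))) (.g (nat_lit 0) (.e (nat_lit 175254) (nat_lit 0) .nil) .nil)))) (.nd (nat_lit 9) 
(.lf (nat_lit 503184) (.g (nat_lit 2063) (.e (nat_lit 163979) (nat_lit 30) (.e (nat_lit 573489) (nat_lit 14) (.e (nat_lit 73769) (nat_lit 20) (.e (nat_lit 655378) (nat_lit 4) (.e (nat_lit 172147) (nat_lit 27) (.e (nat_lit 335894) (nat_lit 0) (.e (nat_lit 6712) (nat_lit 360) .nil))))))) (.g (nat_lit 1) (.e (nat_lit 174613) (nat_lit 0) .nil) .nil))) 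
(.lf (nat_lit 503696) (.g (nat_lit 2630) (.e (nat_lit 163979) (nat_lit 30) (.e (nat_lit 573493) (nat_lit 15) (.e (nat_lit 81956) (nat_lit 23) (.e (nat_lit 98359) (nat_lit 26) (.e (nat_lit 426022) (nat_lit 0) (.e (nat_lit 3401) (nat_lit 211) (.e (nat_lit 647180) (nat_lit 3) .nil))))))) (.g (nat_lit 1) (.e (nat_lit 176045) (nat_lit 0) .nil) .nil)))))) 
(.nd (nat_lit 7) (.nd (nat_lit 8) (.nd (nat_lit 9) 
(.lf (nat_lit 502864) (.g (nat_lit 3271) (.e (nat_lit 163979) (nat_lit 30) (.e (nat_lit 573489) (nat_lit 14) (.e (nat_lit 73754) (nat_lit 8) (.e (nat_lit 557100) (nat_lit 13) (.e (nat_lit 172065) (nat_lit 3) (.e (nat_lit 204821) (nat_lit 17) (.e (nat_lit 2270) (nat_lit 149) (.e (nat_lit 761899) (nat_lit 15) .nil)))))))) (.g (nat_lit 1) (.e (nat_lit 173997) (nat_lit 0) .nil) .nil))) 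
(.lf (nat_lit 503376) (.g (nat_lit 5347) (.e (nat_lit 163979) (nat_lit 30) (.e (nat_lit 573492) (nat_lit 15) (.e (nat_lit 81953) (nat_lit 22) (.e (nat_lit 90185) (nat_lit 17) .nil)))) (.g (nat_lit 0) (.e (nat_lit 175058) (nat_lit 0) .nil) .nil)))) (.nd (nat_lit 9) 
(.lf (nat_lit 503120) (.g (nat_lit 2753) (.e (nat_lit 163979) (nat_lit 30) (.e (nat_lit 573489) (nat_lit 14) (.e (nat_lit 73755) (nat_lit 8) (.e (nat_lit 557104) (nat_lit 14) (.e (nat_lit 180252) (nat_lit 10) (.e (nat_lit 573474) (nat_lit 12) (.e (nat_lit 57504) (nat_lit 38) (.e (nat_lit 638994) (nat_lit 7) .nil)))))))) (.g (nat_lit 1) (.e (nat_lit 174535) (nat_lit 0) .nil) .nil))) 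
(.lf (nat_lit 503632) (.g (nat_lit 2198) (.e (nat_lit 163979) (nat_lit 30) (.e (nat_lit 573493) (nat_lit 15) (.e (nat_lit 81956) (nat_lit 23) (.e (nat_lit 98354) (nat_lit 26) (.e (nat_lit 426143) (nat_lit 4) .nil))))) (.g (nat_lit 0) (.e (nat_lit 175949) (nat_lit 0) .nil) .nil))))) (.nd (nat_lit 8) (.nd (nat_lit 9) 
(.lf (nat_lit 502992) (.g (nat_lit 4399) (.e (nat_lit 163979) (nat_lit 30) (.e (nat_lit 573489) (nat_lit 14) (.e (nat_lit 73755) (nat_lit 8) (.e (nat_lit 557098) (nat_lit 13) (.e (nat_lit 172067) (nat_lit 3) (.e (nat_lit 204815) (nat_lit 17) (.e (nat_lit 2271) (nat_lit 149) (.e (nat_lit 761899) (nat_lit 15) .nil)))))))) (.g (nat_lit 1) (.e (nat_lit 174228) (nat_lit 0) .nil) .nil))) 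
(.lf (nat_lit 503504) (.g (nat_lit 3654) (.e (nat_lit 163979) (nat_lit 30) (.e (nat_lit 573493) (nat_lit 15) (.e (nat_lit 81953) (nat_lit 22) (.e (nat_lit 90170) (nat_lit 13) (.e (nat_lit 172033) (nat_lit 0) (.e (nat_lit 3401) (nat_lit 211) (.e (nat_lit 647181) (nat_lit 3) .nil))))))) (.g (nat_lit 1) (.e (nat_lit 175644) (nat_lit 0) .nil) .nil)))) (.nd (nat_lit 9) 
(.lf (nat_lit 503248) (.g (nat_lit 2077) (.e (nat_lit 163979) (nat_lit 30) (.e (nat_lit 573491) (nat_lit 15) (.e (nat_lit 81954) (nat_lit 23) (.e (nat_lit 98356) (nat_lit 26) (.e (nat_lit 426415) (nat_lit 15) .nil))))) (.g (nat_lit 0) (.e (nat_lit 174789) (nat_lit 0) .nil) .nil))) 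
(.lf (nat_lit 503760) (.g (nat_lit 5757) (.e (nat_lit 163979) (nat_lit 30) (.e (nat_lit 573493) (nat_lit 15) (.e (nat_lit 81956) (nat_lit 23) (.e (nat_lit 98367) (nat_lit 27) (.e (nat_lit 434209) (nat_lit 18) (.e (nat_lit 5548) (nat_lit 306) (.e (nat_lit 2610) (nat_lit 163) .nil))))))) (.g (nat_lit 1) (.e (nat_lit 176226) (nat_lit 0) .nil) .nil))))))) 
(.nd (nat_lit 6) (.nd (nat_lit 7) (.nd (nat_lit 8) (.nd (nat_lit 9) 
(.lf (nat_lit 502832) (.g (nat_lit 5432) (.e (nat_lit 163979) (nat_lit 30) (.e (nat_lit 573488) (nat_lit 14) (.e (nat_lit 73755) (nat_lit 8) (.e (nat_lit 557105) (nat_lit 14) (.e (nat_lit 180252) (nat_lit 10) (.e (nat_lit 573473) (nat_lit 12) (.e (nat_lit 57503) (nat_lit 38) (.e (nat_lit 638995) (nat_lit 7) .nil)))))))) (.g (nat_lit 1) (.e (nat_lit 173959) (nat_lit 0) .nil) .nil))) 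
(.lf (nat_lit 503344) (.g (nat_lit 2152) (.e (nat_lit 163979) (nat_lit 30) (.e (nat_lit 573491) (nat_lit 15) (.e (nat_lit 81956) (nat_lit 23) (.e (nat_lit 98359) (nat_lit 26) (.e (nat_lit 426412) (nat_lit 15) .nil))))) (.g (nat_lit 0) (.e (nat_lit 174950) (nat_lit 0) .nil) .nil)))) (.nd (nat_lit 9) 
(.lf (nat_lit 503088) (.g (nat_lit 1732) (.e (nat_lit 163979) (nat_lit 30) (.e (nat_lit 573489) (nat_lit 14) (.e (nat_lit 73755) (nat_lit 8) (.e (nat_lit 557104) (nat_lit 14) (.e (nat_lit 180245) (nat_lit 5) .nil))))) (.g (nat_lit 0) (.e (nat_lit 174477) (nat_lit 0) .nil) .nil))) 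
(.lf (nat_lit 503600) (.g (nat_lit 2011) (.e (nat_lit 163979) (nat_lit 30) (.e (nat_lit 573493) (nat_lit 15) (.e (nat_lit 81954) (nat_lit 23) (.e (nat_lit 98366) (nat_lit 27) .nil)))) (.g (nat_lit 0) (.e (nat_lit 175860) (nat_lit 0) .nil) .nil))))) (.nd (nat_lit 8) (.nd (nat_lit 9) 
(.lf (nat_lit 502960) (.g (nat_lit 3482) (.e (nat_lit 163979) (nat_lit 30) (.e (nat_lit 573489) (nat_lit 14) (.e (nat_lit 73755) (nat_lit 8) (.e (nat_lit 557097) (nat_lit 13) (.e (nat_lit 172067) (nat_lit 3) (.e (nat_lit 204817) (nat_lit 17) (.e (nat_lit 2272) (nat_lit 149) (.e (nat_lit 761897) (nat_lit 15) .nil)))))))) (.g (nat_lit 1) (.e (nat_lit 174163) (nat_lit 0) .nil) .nil))) 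
(.lf (nat_lit 503472) (.g (nat_lit 3520) (.e (nat_lit 163979) (nat_lit 30) (.e (nat_lit 573493) (nat_lit 15) (.e (nat_lit 81951) (nat_lit 22) (.e (nat_lit 90170) (nat_lit 13) (.e (nat_lit 172042) (nat_lit 0) (.e (nat_lit 3409) (nat_lit 212) (.e (nat_lit 655373) (nat_lit 3) .nil))))))) (.g (nat_lit 1) (.e (nat_lit 175523) (nat_lit 0) .nil) .nil)))) (.nd (nat_lit 9) 
(.lf (nat_lit 503216) (.g (nat_lit 4535) (.e (nat_lit 163979) (nat_lit 30) (.e (nat_lit 573491) (nat_lit 15) (.e (nat_lit 81951) (nat_lit 22) (.e (nat_lit 90170) (nat_lit 13) (.e (nat_lit 172138) (nat_lit 15) (.e (nat_lit 2058) (nat_lit 142) (.e (nat_lit 704589) (nat_lit 3) .nil))))))) (.g (nat_lit 1) (.e (nat_lit 174725) (nat_lit 0) .nil) .nil))) 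
(.lf (nat_lit 503728) (.g (nat_lit 3971) (.e (nat_lit 163979) (nat_lit 30) (.e (nat_lit 573493) (nat_lit 15) (.e (nat_lit 81956) (nat_lit 23) (.e (nat_lit 98362) (nat_lit 26) (.e (nat_lit 426101) (nat_lit 1) .nil))))) (.g (nat_lit 0) (.e (nat_lit 176130) (nat_lit 0) .nil) .nil)))))) (.nd (nat_lit 7) (.nd (nat_lit 8) (.nd (nat_lit 9) 
(.lf (nat_lit 502896) (.g (nat_lit 4660) (.e (nat_lit 163979) (nat_lit 30) (.e (nat_lit 573489) (nat_lit 14) (.e (nat_lit 73754) (nat_lit 8) (.e (nat_lit 557105) (nat_lit 14) (.e (nat_lit 180251) (nat_lit 10) (.e (nat_lit 573475) (nat_lit 12) (.e (nat_lit 57503) (nat_lit 38) (.e (nat_lit 638996) (nat_lit 7) .nil)))))))) (.g (nat_lit 1) (.e (nat_lit 174049) (nat_lit 0) .nil) .nil))) 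
(.lf (nat_lit 503408) (.g (nat_lit 3912) (.e (nat_lit 163979) (nat_lit 30) (.e (nat_lit 573492) (nat_lit 15) (.e (nat_lit 81956) (nat_lit 23) (.e (nat_lit 98356) (nat_lit 26) (.e (nat_lit 426376) (nat_lit 15) (.e (nat_lit 2057) (nat_lit 142) (.e (nat_lit 704589) (nat_lit 3) .nil))))))) (.g (nat_lit 1) (.e (nat_lit 175211) (nat_lit 0) .nil) .nil)))) (.nd (nat_lit 9) 
(.lf (nat_lit 503152) (.g (nat_lit 4575) (.e (nat_lit 163979) (nat_lit 30) (.e (nat_lit 573489) (nat_lit 14) (.e (nat_lit 73755) (nat_lit 8) (.e (nat_lit 557105) (nat_lit 14) (.e (nat_lit 180252) (nat_lit 10) (.e (nat_lit 573473) (nat_lit 12) (.e (nat_lit 57501) (nat_lit 37) (.e (nat_lit 630800) (nat_lit 7) .nil)))))))) (.g (nat_lit 1) (.e (nat_lit 174577) (nat_lit 0) .nil) .nil))) 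
(.lf (nat_lit 503664) (.g (nat_lit 4060) (.e (nat_lit 163979) (nat_lit 30) (.e (nat_lit 573493) (nat_lit 15) (.e (nat_lit 81956) (nat_lit 23) (.e (nat_lit 98356) (nat_lit 26) (.e (nat_lit 426374) (nat_lit 15) (.e (nat_lit 2057) (nat_lit 142) (.e (nat_lit 704589) (nat_lit 3) .nil))))))) (.g (nat_lit 1) (.e (nat_lit 176000) (nat_lit 0) .nil) .nil))))) (.nd (nat_lit 8) (.nd (nat_lit 9) 
(.lf (nat_lit 503024) (.g (nat_lit 4734) (.e (nat_lit 163979) (nat_lit 30) (.e (nat_lit 573489) (nat_lit 14) (.e (nat_lit 73755) (nat_lit 8) (.e (nat_lit 557103) (nat_lit 14) (.e (nat_lit 180250) (nat_lit 10) (.e (nat_lit 573473) (nat_lit 12) (.e (nat_lit 57503) (nat_lit 38) (.e (nat_lit 638996) (nat_lit 7) .nil)))))))) (.g (nat_lit 1) (.e (nat_lit 174321) (nat_lit 0) .nil) .nil))) 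
(.lf (nat_lit 503536) (.g (nat_lit 2485) (.e (nat_lit 163979) (nat_lit 30) (.e (nat_lit 573493) (nat_lit 15) (.e (nat_lit 81953) (nat_lit 22) (.e (nat_lit 90170) (nat_lit 13) (.e (nat_lit 172136) (nat_lit 15) .nil))))) (.g (nat_lit 0) (.e (nat_lit 175727) (nat_lit 0) .nil) .nil)))) (.nd (nat_lit 9) 
(.lf (nat_lit 503280) (.g (nat_lit 3217) (.e (nat_lit 163979) (nat_lit 30) (.e (nat_lit 573491) (nat_lit 15) (.e (nat_lit 81954) (nat_lit 23) (.e (nat_lit 98359) (nat_lit 26) (.e (nat_lit 426025) (nat_lit 0) (.e (nat_lit 3399) (nat_lit 211) (.e (nat_lit 647180) (nat_lit 3) .nil))))))) (.g (nat_lit 1) (.e (nat_lit 174827) (nat_lit 0) .nil) .nil))) 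
(.lf (nat_lit 503792) (.g (nat_lit 3788) (.e (nat_lit 163979) (nat_lit 30) (.e (nat_lit 573493) (nat_lit 15) (.e (nat_lit 81956) (nat_lit 23) (.e (nat_lit 98384) (nat_lit 32) (.e (nat_lit 475205) (nat_lit 40) (.e (nat_lit 704588) (nat_lit 3) .nil)))))) (.g (nat_lit 1) (.e (nat_lit 176342) (nat_lit 0) .nil) .nil))))))))) 
(.nd (nat_lit 4) (.nd (nat_lit 5) (.nd (nat_lit 6) (.nd (nat_lit 7) (.nd (nat_lit 8) 
(.nd (nat_lit 9) 
(.lf (nat_lit 502792) (.g (nat_lit 2813) (.e (nat_lit 163979) (nat_lit 30) (.e (nat_lit 573488) (nat_lit 14) (.e (nat_lit 73755) (nat_lit 8) (.e (nat_lit 557098) (nat_lit 13) (.e (nat_lit 172067) (nat_lit 3) .nil))))) (.g (nat_lit 0) (.e (nat_lit 173919) (nat_lit 0) .nil) .nil))) 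
(.lf (nat_lit 503304) (.g (nat_lit 2805) (.e (nat_lit 163979) (nat_lit 30) (.e (nat_lit 573491) (nat_lit 15) (.e (nat_lit 81954) (nat_lit 23) (.e (nat_lit 98367) (nat_lit 27) (.e (nat_lit 434270) (nat_lit 38) (.e (nat_lit 655373) (nat_lit 3) .nil)))))) (.g (nat_lit 1) (.e (nat_lit 174904) (nat_lit 0) .nil) .nil)))) (.nd (nat_lit 9) 
(.lf (nat_lit 503048) (.g (nat_lit 2746) (.e (nat_lit 163979) (nat_lit 30) (.e (nat_lit 573489) (nat_lit 14) (.e (nat_lit 73755) (nat_lit 8) (.e (nat_lit 557103) (nat_lit 14) (.e (nat_lit 180250) (nat_lit 10) (.e (nat_lit 573477) (nat_lit 12) (.e (nat_lit 57500) (nat_lit 37) (.e (nat_lit 630800) (nat_lit 7) .nil)))))))) (.g (nat_lit 1) (.e (nat_lit 174345) (nat_lit 0) .nil) .nil))) 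
(.lf (nat_lit 503560) (.g (nat_lit 3521) (.e (nat_lit 163979) (nat_lit 30) (.e (nat_lit 573493) (nat_lit 15) (.e (nat_lit 81954) (nat_lit 23) (.e (nat_lit 98356) (nat_lit 26) (.e (nat_lit 426360) (nat_lit 15) .nil))))) (.g (nat_lit 0) (.e (nat_lit 175793) (nat_lit 0) .nil) .nil))))) (.nd (nat_lit 8) (.nd (nat_lit 9) 
(.lf (nat_lit 502920) (.g (nat_lit 4958) (.e (nat_lit 163979) (nat_lit 30) (.e (nat_lit 573489) (nat_lit 14) (.e (nat_lit 73754) (nat_lit 8) (.e (nat_lit 557105) (nat_lit 14) (.e (nat_lit 180252) (nat_lit 10) (.e (nat_lit 573475) (nat_lit 12) (.e (nat_lit 57504) (nat_lit 38) (.e (nat_lit 638995) (nat_lit 7) .nil)))))))) (.g (nat_lit 1) (.e (nat_lit 174073) (nat_lit 0) .nil) .nil))) 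
(.lf (nat_lit 503432) (.g (nat_lit 4323) (.e (nat_lit 163979) (nat_lit 30) (.e (nat_lit 573492) (nat_lit 15) (.e (nat_lit 81956) (nat_lit 23) (.e (nat_lit 98362) (nat_lit 26) (.e (nat_lit 426038) (nat_lit 0) .nil))))) (.g (nat_lit 0) (.e (nat_lit 175245) (nat_lit 0) .nil) .nil)))) (.nd (nat_lit 9) 
(.lf (nat_lit 503176) (.g (nat_lit 5506) (.e (nat_lit 163979) (nat_lit 30) (.e (nat_lit 573489) (nat_lit 14) (.e (nat_lit 73755) (nat_lit 8) (.e (nat_lit 557105) (nat_lit 14) (.e (nat_lit 180252) (nat_lit 10) (.e (nat_lit 573475) (nat_lit 12) (.e (nat_lit 57503) (nat_lit 38) (.e (nat_lit 638996) (nat_lit 7) .nil)))))))) (.g (nat_lit 1) (.e (nat_lit 174601) (nat_lit 0) .nil) .nil))) 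
(.lf (nat_lit 503688) (.g (nat_lit 3920) (.e (nat_lit 163979) (nat_lit 30) (.e (nat_lit 573493) (nat_lit 15) (.e (nat_lit 81956) (nat_lit 23) (.e (nat_lit 98358) (nat_lit 26) (.e (nat_lit 426402) (nat_lit 15) .nil))))) (.g (nat_lit 0) (.e (nat_lit 176032) (nat_lit 0) .nil) .nil)))))) (.nd (nat_lit 7) (.nd (nat_lit 8) (.nd (nat_lit 9) 
(.lf (nat_lit 502856) (.g (nat_lit 2785) (.e (nat_lit 163979) (nat_lit 30) (.e (nat_lit 573489) (nat_lit 14) (.e (nat_lit 73754) (nat_lit 8) (.e (nat_lit 557100) (nat_lit 13) (.e (nat_lit 172065) (nat_lit 3) .nil))))) (.g (nat_lit 0) (.e (nat_lit 173989) (nat_lit 0) .nil) .nil))) 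
(.lf (nat_lit 503368) (.g (nat_lit 3818) (.e (nat_lit 163979) (nat_lit 30) (.e (nat_lit 573492) (nat_lit 15) (.e (nat_lit 81953) (nat_lit 22) (.e (nat_lit 90170) (nat_lit 13) (.e (nat_lit 172046) (nat_lit 0) .nil))))) (.g (nat_lit 0) (.e (nat_lit 175047) (nat_lit 0) .nil) .nil)))) (.nd (nat_lit 9) 
(.lf (nat_lit 503112) (.g (nat_lit 4188) (.e (nat_lit 163979) (nat_lit 30) (.e (nat_lit 573489) (nat_lit 14) (.e (nat_lit 73755) (nat_lit 8) (.e (nat_lit 557104) (nat_lit 14) (.e (nat_lit 180252) (nat_lit 10) (.e (nat_lit 573473) (nat_lit 12) (.e (nat_lit 57501) (nat_lit 37) (.e (nat_lit 630799) (nat_lit 7) .nil)))))))) (.g (nat_lit 1) (.e (nat_lit 174527) (nat_lit 0) .nil) .nil))) 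
(.lf (nat_lit 503624) (.g (nat_lit 1935) (.e (nat_lit 163979) (nat_lit 30) (.e (nat_lit 573493) (nat_lit 15) (.e (nat_lit 81954) (nat_lit 23) (.e (nat_lit 98386) (nat_lit 32) .nil)))) (.g (nat_lit 0) (.e (nat_lit 175898) (nat_lit 0) .nil) .nil))))) (.nd (nat_lit 8) (.nd (nat_lit 9) 
(.lf (nat_lit 502984) (.g (nat_lit 3360) (.e (nat_lit 163979) (nat_lit 30) (.e (nat_lit 573489) (nat_lit 14) (.e (nat_lit 73755) (nat_lit 8) (.e (nat_lit 557098) (nat_lit 13) (.e (nat_lit 172066) (nat_lit 3) (.e (nat_lit 204817) (nat_lit 17) (.e (nat_lit 7936) (nat_lit 149) (.e (nat_lit 761897) (nat_lit 15) .nil)))))))) (.g (nat_lit 1) (.e (nat_lit 174216) (nat_lit 0) .nil) .nil))) 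
(.lf (nat_lit 503496) (.g (nat_lit 4123) (.e (nat_lit 163979) (nat_lit 30) (.e (nat_lit 573493) (nat_lit 15) (.e (nat_lit 81953) (nat_lit 22) (.e (nat_lit 90168) (nat_lit 13) .nil)))) (.g (nat_lit 0) (.e (nat_lit 175630) (nat_lit 0) .nil) .nil)))) (.nd (nat_lit 9) 
(.lf (nat_lit 503240) (.g (nat_lit 2741) (.e (nat_lit 163979) (nat_lit 30) (.e (nat_lit 573491) (nat_lit 15) (.e (nat_lit 81954) (nat_lit 23) (.e (nat_lit 98356) (nat_lit 26) (.e (nat_lit 426362) (nat_lit 15) (.e (nat_lit 2056) (nat_lit 142) (.e (nat_lit 704589) (nat_lit 3) .nil))))))) (.g (nat_lit 1) (.e (nat_lit 174781) (nat_lit 0) .nil) .nil))) 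
(.lf (nat_lit 503752) (.g (nat_lit 4098) (.e (nat_lit 163979) (nat_lit 30) (.e (nat_lit 573493) (nat_lit 15) (.e (nat_lit 81956) (nat_lit 23) (.e (nat_lit 98366) (nat_lit 27) (.e (nat_lit 434272) (nat_lit 38) (.e (nat_lit 655373) (nat_lit 3) .nil)))))) (.g (nat_lit 1) (.e (nat_lit 176181) (nat_lit 0) .nil) .nil))))))) (.nd (nat_lit 6) (.nd (nat_lit 7) (.nd (nat_lit 8) (.nd (nat_lit 9) 
(.lf (nat_lit 502824) (.g (nat_lit 2724) (.e (nat_lit 163979) (nat_lit 30) (.e (nat_lit 573488) (nat_lit 14) (.e (nat_lit 73755) (nat_lit 8) (.e (nat_lit 557105) (nat_lit 14) (.e (nat_lit 180250) (nat_lit 10) .nil))))) (.g (nat_lit 0) (.e (nat_lit 173951) (nat_lit 0) .nil) .nil))) 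
(.lf (nat_lit 503336) (.g (nat_lit 2919) (.e (nat_lit 163979) (nat_lit 30) (.e (nat_lit 573491) (nat_lit 15) (.e (nat_lit 81955) (nat_lit 23) (.e (nat_lit 98386) (nat_lit 32) (.e (nat_lit 475197) (nat_lit 40) (.e (nat_lit 704589) (nat_lit 3) .nil)))))) (.g (nat_lit 1) (.e (nat_lit 174942) (nat_lit 0) .nil) .nil)))) (.nd (nat_lit 9) 
(.lf (nat_lit 503080) (.g (nat_lit 3039) (.e (nat_lit 163979) (nat_lit 30) (.e (nat_lit 573489) (nat_lit 14) (.e (nat_lit 73755) (nat_lit 8) (.e (nat_lit 557104) (nat_lit 14) (.e (nat_lit 180244) (nat_lit 5) (.e (nat_lit 532489) (nat_lit 0) (.e (nat_lit 7936) (nat_lit 149) (.e (nat_lit 761899) (nat_lit 15) .nil)))))))) (.g (nat_lit 1) (.e (nat_lit 174406) (nat_lit 0) .nil) .nil))) 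
(.lf (nat_lit 503592) (.g (nat_lit 4063) (.e (nat_lit 163979) (nat_lit 30) (.e (nat_lit 573493) (nat_lit 15) (.e (nat_lit 81954) (nat_lit 23) (.e (nat_lit 98359) (nat_lit 26) (.e (nat_lit 426410) (nat_lit 15) (.e (nat_lit 2058) (nat_lit 142) (.e (nat_lit 704589) (nat_lit 3) .nil))))))) (.g (nat_lit 1) (.e (nat_lit 175847) (nat_lit 0) .nil) .nil))))) (.nd (nat_lit 8) (.nd (nat_lit 9) 
(.lf (nat_lit 502952) (.g (nat_lit 2611) (.e (nat_lit 163979) (nat_lit 30) (.e (nat_lit 573489) (nat_lit 14) (.e (nat_lit 73755) (nat_lit 8) (.e (nat_lit 557097) (nat_lit 13) (.e (nat_lit 172066) (nat_lit 3) (.e (nat_lit 204822) (nat_lit 17) (.e (nat_lit 2270) (nat_lit 149) (.e (nat_lit 761898) (nat_lit 15) .nil)))))))) (.g (nat_lit 1) (.e (nat_lit 174140) (nat_lit 0) .nil) .nil))) 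
(.lf (nat_lit 503464) (.g (nat_lit 2443) (.e (nat_lit 163979) (nat_lit 30) (.e (nat_lit 573493) (nat_lit 15) (.e (nat_lit 81951) (nat_lit 22) (.e (nat_lit 90167) (nat_lit 13) .nil)))) (.g (nat_lit 0) (.e (nat_lit 175507) (nat_lit 0) .nil) .nil)))) (.nd (nat_lit 9) 
(.lf (nat_lit 503208) (.g (nat_lit 3359) (.e (nat_lit 163979) (nat_lit 30) (.e (nat_lit 573491) (nat_lit 15) (.e (nat_lit 81951) (nat_lit 22) (.e (nat_lit 90170) (nat_lit 13) (.e (nat_lit 172060) (nat_lit 1) (.e (nat_lit 164347) (nat_lit 240) (.e (nat_lit 2610) (nat_lit 163) .nil))))))) (.g (nat_lit 1) (.e (nat_lit 174698) (nat_lit 0) .nil) .nil))) 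
(.lf (nat_lit 503720) (.g (nat_lit 3004) (.e (nat_lit 163979) (nat_lit 30) (.e (nat_lit 573493) (nat_lit 15) (.e (nat_lit 81956) (nat_lit 23) (.e (nat_lit 98360) (nat_lit 26) (.e (nat_lit 426410) (nat_lit 15) .nil))))) (.g (nat_lit 0) (.e (nat_lit 176119) (nat_lit 0) .nil) .nil)))))) (.nd (nat_lit 7) (.nd (nat_lit 8) (.nd (nat_lit 9) 
(.lf (nat_lit 502888) (.g (nat_lit 2837) (.e (nat_lit 163979) (nat_lit 30) (.e (nat_lit 573489) (nat_lit 14) (.e (nat_lit 73754) (nat_lit 8) (.e (nat_lit 557103) (nat_lit 14) (.e (nat_lit 180250) (nat_lit 10) (.e (nat_lit 573475) (nat_lit 12) (.e (nat_lit 57500) (nat_lit 37) (.e (nat_lit 630799) (nat_lit 7) .nil)))))))) (.g (nat_lit 1) (.e (nat_lit 174041) (nat_lit 0) .nil) .nil))) 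
(.lf (nat_lit 503400) (.g (nat_lit 3273) (.e (nat_lit 163979) (nat_lit 30) (.e (nat_lit 573492) (nat_lit 15) (.e (nat_lit 81956) (nat_lit 23) (.e (nat_lit 98356) (nat_lit 26) (.e (nat_lit 426091) (nat_lit 0) .nil))))) (.g (nat_lit 0) (.e (nat_lit 175173) (nat_lit 0) .nil) .nil)))) (.nd (nat_lit 9) 
(.lf (nat_lit 503144) (.g (nat_lit 2933) (.e (nat_lit 163979) (nat_lit 30) (.e (nat_lit 573489) (nat_lit 14) (.e (nat_lit 73755) (nat_lit 8) (.e (nat_lit 557105) (nat_lit 14) (.e (nat_lit 180251) (nat_lit 10) (.e (nat_lit 573477) (nat_lit 12) (.e (nat_lit 57502) (nat_lit 38) (.e (nat_lit 638994) (nat_lit 7) .nil)))))))) (.g (nat_lit 1) (.e (nat_lit 174560) (nat_lit 0) .nil) .nil))) 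
(.lf (nat_lit 503656) (.g (nat_lit 2600) (.e (nat_lit 163979) (nat_lit 30) (.e (nat_lit 573493) (nat_lit 15) (.e (nat_lit 81956) (nat_lit 23) (.e (nat_lit 98356) (nat_lit 26) (.e (nat_lit 426361) (nat_lit 15) .nil))))) (.g (nat_lit 0) (.e (nat_lit 175992) (nat_lit 0) .nil) .nil))))) (.nd (nat_lit 8) (.nd (nat_lit 9) 
(.lf (nat_lit 503016) (.g (nat_lit 4837) (.e (nat_lit 163979) (nat_lit 30) (.e (nat_lit 573489) (nat_lit 14) (.e (nat_lit 73755) (nat_lit 8) (.e (nat_lit 557103) (nat_lit 14) (.e (nat_lit 180244) (nat_lit 5) (.e (nat_lit 532481) (nat_lit 0) (.e (nat_lit 2271) (nat_lit 149) (.e (nat_lit 761898) (nat_lit 15) .nil)))))))) (.g (nat_lit 1) (.e (nat_lit 174273) (nat_lit 0) .nil) .nil))) 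
(.lf (nat_lit 503528) (.g (nat_lit 3763) (.e (nat_lit 163979) (nat_lit 30) (.e (nat_lit 573493) (nat_lit 15) (.e (nat_lit 81953) (nat_lit 22) (.e (nat_lit 90170) (nat_lit 13) (.e (nat_lit 172052) (nat_lit 0) (.e (nat_lit 3409) (nat_lit 212) (.e (nat_lit 655375) (nat_lit 3) .nil))))))) (.g (nat_lit 1) (.e (nat_lit 175692) (nat_lit 0) .nil) .nil)))) (.nd (nat_lit 9) 
(.lf (nat_lit 503272) (.g (nat_lit 2301) (.e (nat_lit 163979) (nat_lit 30) (.e (nat_lit 573491) (nat_lit 15) (.e (nat_lit 81954) (nat_lit 23) (.e (nat_lit 98359) (nat_lit 26) (.e (nat_lit 426003) (nat_lit 0) (.e (nat_lit 3399) (nat_lit 211) (.e (nat_lit 647180) (nat_lit 3) .nil))))))) (.g (nat_lit 1) (.e (nat_lit 174818) (nat_lit 0) .nil) .nil))) 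
(.lf (nat_lit 503784) (.g (nat_lit 4417) (.e (nat_lit 163979) (nat_lit 30) (.e (nat_lit 573493) (nat_lit 15) (.e (nat_lit 81956) (nat_lit 23) (.e (nat_lit 98383) (nat_lit 32) (.e (nat_lit 475199) (nat_lit 40) (.e (nat_lit 704589) (nat_lit 3) .nil)))))) (.g (nat_lit 1) (.e (nat_lit 176333) (nat_lit 0) .nil) .nil)))))))) 
(.nd (nat_lit 5) (.nd (nat_lit 6) (.nd (nat_lit 7) (.nd (nat_lit 8) (.nd (nat_lit 9) 
(.lf (nat_lit 502808) (.g (nat_lit 2070) (.e (nat_lit 163979) (nat_lit 30) (.e (nat_lit 573488) (nat_lit 14) (.e (nat_lit 73755) (nat_lit 8) (.e (nat_lit 557104) (nat_lit 14) (.e (nat_lit 180244) (nat_lit 5) .nil))))) (.g (nat_lit 0) (.e (nat_lit 173935) (nat_lit 0) .nil) .nil))) 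
(.lf (nat_lit 503320) (.g (nat_lit 3324) (.e (nat_lit 163979) (nat_lit 30) (.e (nat_lit 573491) (nat_lit 15) (.e (nat_lit 81954) (nat_lit 23) (.e (nat_lit 98385) (nat_lit 32) (.e (nat_lit 475198) (nat_lit 40) (.e (nat_lit 704589) (nat_lit 3) .nil)))))) (.g (nat_lit 1) (.e (nat_lit 174926) (nat_lit 0) .nil) .nil)))) (.nd (nat_lit 9) 
(.lf (nat_lit 503064) (.g (nat_lit 2933) (.e (nat_lit 163979) (nat_lit 30) (.e (nat_lit 573489) (nat_lit 14) (.e (nat_lit 73755) (nat_lit 8) (.e (nat_lit 557104) (nat_lit 14) (.e (nat_lit 180242) (nat_lit 5) (.e (nat_lit 532484) (nat_lit 0) (.e (nat_lit 7936) (nat_lit 149) (.e (nat_lit 761898) (nat_lit 15) .nil)))))))) (.g (nat_lit 1) (.e (nat_lit 174372) (nat_lit 0) .nil) .nil))) 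
(.lf (nat_lit 503576) (.g (nat_lit 3759) (.e (nat_lit 163979) (nat_lit 30) (.e (nat_lit 573493) (nat_lit 15) (.e (nat_lit 81954) (nat_lit 23) (.e (nat_lit 98356) (nat_lit 26) (.e (nat_lit 426420) (nat_lit 15) .nil))))) (.g (nat_lit 0) (.e (nat_lit 175809) (nat_lit 0) .nil) .nil))))) (.nd (nat_lit 8) (.nd (nat_lit 9) 
(.lf (nat_lit 502936) (.g (nat_lit 3567) (.e (nat_lit 163979) (nat_lit 30) (.e (nat_lit 573489) (nat_lit 14) (.e (nat_lit 73755) (nat_lit 8) (.e (nat_lit 557097) (nat_lit 13) (.e (nat_lit 172065) (nat_lit 3) (.e (nat_lit 204817) (nat_lit 17) (.e (nat_lit 7936) (nat_lit 149) (.e (nat_lit 761899) (nat_lit 15) .nil)))))))) (.g (nat_lit 1) (.e (nat_lit 174119) (nat_lit 0) .nil) .nil))) 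
(.lf (nat_lit 503448) (.g (nat_lit 3218) (.e (nat_lit 163979) (nat_lit 30) (.e (nat_lit 573492) (nat_lit 15) (.e (nat_lit 81956) (nat_lit 23) (.e (nat_lit 98367) (nat_lit 27) .nil)))) (.g (nat_lit 0) (.e (nat_lit 175263) (nat_lit 0) .nil) .nil)))) (.nd (nat_lit 9) 
(.lf (nat_lit 503192) (.g (nat_lit 2980) (.e (nat_lit 163979) (nat_lit 30) (.e (nat_lit 573491) (nat_lit 15) (.e (nat_lit 81951) (nat_lit 22) (.e (nat_lit 90170) (nat_lit 13) (.e (nat_lit 172033) (nat_lit 0) (.e (nat_lit 3399) (nat_lit 211) (.e (nat_lit 647181) (nat_lit 3) .nil))))))) (.g (nat_lit 1) (.e (nat_lit 174651) (nat_lit 0) .nil) .nil))) 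
(.lf (nat_lit 503704) (.g (nat_lit 2827) (.e (nat_lit 163979) (nat_lit 30) (.e (nat_lit 573493) (nat_lit 15) (.e (nat_lit 81956) (nat_lit 23) (.e (nat_lit 98359) (nat_lit 26) (.e (nat_lit 426047) (nat_lit 0) .nil))))) (.g (nat_lit 0) (.e (nat_lit 176076) (nat_lit 0) .nil) .nil)))))) (.nd (nat_lit 7) (.nd (nat_lit 8) (.nd (nat_lit 9) 
(.lf (nat_lit 502872) (.g (nat_lit 3024) (.e (nat_lit 163979) (nat_lit 30) (.e (nat_lit 573489) (nat_lit 14) (.e (nat_lit 73754) (nat_lit 8) (.e (nat_lit 557100) (nat_lit 13) (.e (nat_lit 172138) (nat_lit 15) .nil))))) (.g (nat_lit 0) (.e (nat_lit 174010) (nat_lit 0) .nil) .nil))) 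
(.lf (nat_lit 503384) (.g (nat_lit 399) (.e (nat_lit 163979) (nat_lit 30) (.e (nat_lit 573492) (nat_lit 15) (.e (nat_lit 81956) (nat_lit 23) .nil))) (.g (nat_lit 0) (.e (nat_lit 175066) (nat_lit 0) .nil) .nil)))) (.nd (nat_lit 9) 
(.lf (nat_lit 503128) (.g (nat_lit 4958) (.e (nat_lit 163979) (nat_lit 30) (.e (nat_lit 573489) (nat_lit 14) (.e (nat_lit 73755) (nat_lit 8) (.e (nat_lit 557104) (nat_lit 14) (.e (nat_lit 180252) (nat_lit 10) (.e (nat_lit 573475) (nat_lit 12) (.e (nat_lit 57503) (nat_lit 38) (.e (nat_lit 638996) (nat_lit 7) .nil)))))))) (.g (nat_lit 1) (.e (nat_lit 174543) (nat_lit 0) .nil) .nil))) 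
(.lf (nat_lit 503640) (.g (nat_lit 3302) (.e (nat_lit 163979) (nat_lit 30) (.e (nat_lit 573493) (nat_lit 15) (.e (nat_lit 81956) (nat_lit 23) (.e (nat_lit 98356) (nat_lit 26) (.e (nat_lit 426350) (nat_lit 15) .nil))))) (.g (nat_lit 0) (.e (nat_lit 175971) (nat_lit 0) .nil) .nil))))) (.nd (nat_lit 8) (.nd (nat_lit 9) 
(.lf (nat_lit 503000) (.g (nat_lit 3652) (.e (nat_lit 163979) (nat_lit 30) (.e (nat_lit 573489) (nat_lit 14) (.e (nat_lit 73755) (nat_lit 8) (.e (nat_lit 557098) (nat_lit 13) (.e (nat_lit 172067) (nat_lit 3) (.e (nat_lit 204821) (nat_lit 17) (.e (nat_lit 2270) (nat_lit 149) (.e (nat_lit 761897) (nat_lit 15) .nil)))))))) (.g (nat_lit 1) (.e (nat_lit 174236) (nat_lit 0) .nil) .nil))) 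
(.lf (nat_lit 503512) (.g (nat_lit 3916) (.e (nat_lit 163979) (nat_lit 30) (.e (nat_lit 573493) (nat_lit 15) (.e (nat_lit 81953) (nat_lit 22) (.e (nat_lit 90170) (nat_lit 13) (.e (nat_lit 172042) (nat_lit 0) (.e (nat_lit 3409) (nat_lit 212) (.e (nat_lit 655373) (nat_lit 3) .nil))))))) (.g (nat_lit 1) (.e (nat_lit 175663) (nat_lit 0) .nil) .nil)))) (.nd (nat_lit 9) 
(.lf (nat_lit 503256) (.g (nat_lit 2475) (.e (nat_lit 163979) (nat_lit 30) (.e (nat_lit 573491) (nat_lit 15) (.e (nat_lit 81954) (nat_lit 23) (.e (nat_lit 98356) (nat_lit 26) (.e (nat_lit 426402) (nat_lit 15) (.e (nat_lit 2046) (nat_lit 142) (.e (nat_lit 704589) (nat_lit 3) .nil))))))) (.g (nat_lit 1) (.e (nat_lit 174797) (nat_lit 0) .nil) .nil))) 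
(.lf (nat_lit 503768) (.g (nat_lit 3170) (.e (nat_lit 163979) (nat_lit 30) (.e (nat_lit 573493) (nat_lit 15) (.e (nat_lit 81956) (nat_lit 23) (.e (nat_lit 98367) (nat_lit 27) (.e (nat_lit 434270) (nat_lit 38) (.e (nat_lit 655375) (nat_lit 3) .nil)))))) (.g (nat_lit 1) (.e (nat_lit 176243) (nat_lit 0) .nil) .nil))))))) (.nd (nat_lit 6) (.nd (nat_lit 7) (.nd (nat_lit 8) (.nd (nat_lit 9) 
(.lf (nat_lit 502840) (.g (nat_lit 5987) (.e (nat_lit 163979) (nat_lit 30) (.e (nat_lit 573488) (nat_lit 14) (.e (nat_lit 73755) (nat_lit 8) (.e (nat_lit 557105) (nat_lit 14) (.e (nat_lit 180252) (nat_lit 10) (.e (nat_lit 573475) (nat_lit 12) (.e (nat_lit 57503) (nat_lit 38) (.e (nat_lit 638995) (nat_lit 7) .nil)))))))) (.g (nat_lit 1) (.e (nat_lit 173967) (nat_lit 0) .nil) .nil))) 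
(.lf (nat_lit 503352) (.g (nat_lit 2090) (.e (nat_lit 163979) (nat_lit 30) (.e (nat_lit 573491) (nat_lit 15) (.e (nat_lit 81956) (nat_lit 23) (.e (nat_lit 98386) (nat_lit 32) .nil)))) (.g (nat_lit 0) (.e (nat_lit 174959) (nat_lit 0) .nil) .nil)))) (.nd (nat_lit 9) 
(.lf (nat_lit 503096) (.g (nat_lit 3255) (.e (nat_lit 163979) (nat_lit 30) (.e (nat_lit 573489) (nat_lit 14) (.e (nat_lit 73755) (nat_lit 8) (.e (nat_lit 557104) (nat_lit 14) (.e (nat_lit 180250) (nat_lit 10) (.e (nat_lit 573475) (nat_lit 12) (.e (nat_lit 57501) (nat_lit 37) (.e (nat_lit 630799) (nat_lit 7) .nil)))))))) (.g (nat_lit 1) (.e (nat_lit 174510) (nat_lit 0) .nil) .nil))) 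
(.lf (nat_lit 503608) (.g (nat_lit 4034) (.e (nat_lit 163979) (nat_lit 30) (.e (nat_lit 573493) (nat_lit 15) (.e (nat_lit 81954) (nat_lit 23) (.e (nat_lit 98367) (nat_lit 27) (.e (nat_lit 434271) (nat_lit 38) (.e (nat_lit 655374) (nat_lit 3) .nil)))))) (.g (nat_lit 1) (.e (nat_lit 175879) (nat_lit 0) .nil) .nil))))) (.nd (nat_lit 8) (.nd (nat_lit 9) 
(.lf (nat_lit 502968) (.g (nat_lit 1789) (.e (nat_lit 163979) (nat_lit 30) (.e (nat_lit 573489) (nat_lit 14) (.e (nat_lit 73755) (nat_lit 8) (.e (nat_lit 557098) (nat_lit 13) .nil)))) (.g (nat_lit 0) (.e (nat_lit 174180) (nat_lit 0) .nil) .nil))) 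
(.lf (nat_lit 503480) (.g (nat_lit 4226) (.e (nat_lit 163979) (nat_lit 30) (.e (nat_lit 573493) (nat_lit 15) (.e (nat_lit 81951) (nat_lit 22) (.e (nat_lit 90170) (nat_lit 13) (.e (nat_lit 172060) (nat_lit 1) .nil))))) (.g (nat_lit 0) (.e (nat_lit 175538) (nat_lit 0) .nil) .nil)))) (.nd (nat_lit 9) 
(.lf (nat_lit 503224) (.g (nat_lit 1934) (.e (nat_lit 163979) (nat_lit 30) (.e (nat_lit 573491) (nat_lit 15) (.e (nat_lit 81954) (nat_lit 23) (.e (nat_lit 98354) (nat_lit 26) (.e (nat_lit 426025) (nat_lit 0) (.e (nat_lit 3399) (nat_lit 211) (.e (nat_lit 647180) (nat_lit 3) .nil))))))) (.g (nat_lit 1) (.e (nat_lit 174756) (nat_lit 0) .nil) .nil))) 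
(.lf (nat_lit 503736) (.g (nat_lit 5015) (.e (nat_lit 163979) (nat_lit 30) (.e (nat_lit 573493) (nat_lit 15) (.e (nat_lit 81956) (nat_lit 23) (.e (nat_lit 98365) (nat_lit 26) (.e (nat_lit 426099) (nat_lit 1) .nil))))) (.g (nat_lit 0) (.e (nat_lit 176147) (nat_lit 0) .nil) .nil)))))) (.nd (nat_lit 7) (.nd (nat_lit 8) (.nd (nat_lit 9) 
(.lf (nat_lit 502904) (.g (nat_lit 3006) (.e (nat_lit 163979) (nat_lit 30) (.e (nat_lit 573489) (nat_lit 14) (.e (nat_lit 73754) (nat_lit 8) (.e (nat_lit 557105) (nat_lit 14) (.e (nat_lit 180252) (nat_lit 10) (.e (nat_lit 573473) (nat_lit 12) (.e (nat_lit 57503) (nat_lit 38) (.e (nat_lit 638994) (nat_lit 7) .nil)))))))) (.g (nat_lit 1) (.e (nat_lit 174057) (nat_lit 0) .nil) .nil))) 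
(.lf (nat_lit 503416) (.g (nat_lit 3399) (.e (nat_lit 163979) (nat_lit 30) (.e (nat_lit 573492) (nat_lit 15) (.e (nat_lit 81956) (nat_lit 23) (.e (nat_lit 98356) (nat_lit 26) (.e (nat_lit 426444) (nat_lit 19) (.e (nat_lit 114432) (nat_lit 3) .nil)))))) (.g (nat_lit 1) (.e (nat_lit 175225) (nat_lit 0) .nil) .nil)))) (.nd (nat_lit 9) 
(.lf (nat_lit 503160) (.g (nat_lit 4560) (.e (nat_lit 163979) (nat_lit 30) (.e (nat_lit 573489) (nat_lit 14) (.e (nat_lit 73755) (nat_lit 8) (.e (nat_lit 557105) (nat_lit 14) (.e (nat_lit 180252) (nat_lit 10) (.e (nat_lit 573474) (nat_lit 12) (.e (nat_lit 57501) (nat_lit 37) (.e (nat_lit 630800) (nat_lit 7) .nil)))))))) (.g (nat_lit 1) (.e (nat_lit 174585) (nat_lit 0) .nil) .nil))) 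
(.lf (nat_lit 503672) (.g (nat_lit 3977) (.e (nat_lit 163979) (nat_lit 30) (.e (nat_lit 573493) (nat_lit 15) (.e (nat_lit 81956) (nat_lit 23) (.e (nat_lit 98356) (nat_lit 26) (.e (nat_lit 426400) (nat_lit 15) (.e (nat_lit 2056) (nat_lit 142) (.e (nat_lit 704589) (nat_lit 3) .nil))))))) (.g (nat_lit 1) (.e (nat_lit 176010) (nat_lit 0) .nil) .nil))))) (.nd (nat_lit 8) (.nd (nat_lit 9) 
(.lf (nat_lit 503032) (.g (nat_lit 2564) (.e (nat_lit 163979) (nat_lit 30) (.e (nat_lit 573489) (nat_lit 14) (.e (nat_lit 73755) (nat_lit 8) (.e (nat_lit 557103) (nat_lit 14) (.e (nat_lit 180250) (nat_lit 10) (.e (nat_lit 573474) (nat_lit 12) (.e (nat_lit 57502) (nat_lit 38) (.e (nat_lit 638995) (nat_lit 7) .nil)))))))) (.g (nat_lit 1) (.e (nat_lit 174329) (nat_lit 0) .nil) .nil))) 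
(.lf (nat_lit 503544) (.g (nat_lit 2486) (.e (nat_lit 163979) (nat_lit 30) (.e (nat_lit 573493) (nat_lit 15) (.e (nat_lit 81953) (nat_lit 22) (.e (nat_lit 90174) (nat_lit 14) .nil)))) (.g (nat_lit 0) (.e (nat_lit 175745) (nat_lit 0) .nil) .nil)))) (.nd (nat_lit 9) 
(.lf (nat_lit 503288) (.g (nat_lit 4176) (.e (nat_lit 163979) (nat_lit 30) (.e (nat_lit 573491) (nat_lit 15) (.e (nat_lit 81954) (nat_lit 23) (.e (nat_lit 98359) (nat_lit 26) (.e (nat_lit 426412) (nat_lit 15) (.e (nat_lit 2058) (nat_lit 142) (.e (nat_lit 704589) (nat_lit 3) .nil))))))) (.g (nat_lit 1) (.e (nat_lit 174854) (nat_lit 0) .nil) .nil))) 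
(.lf (nat_lit 503800) (.g (nat_lit 2550) (.e (nat_lit 163998) (nat_lit 38) (.e (nat_lit 639020) (nat_lit 16) (.e (nat_lit 65571) (nat_lit 3) (.e (nat_lit 98373) (nat_lit 29) (.e (nat_lit 458496) (nat_lit 1) .nil))))) (.g (nat_lit 0) (.e (nat_lit 176395) (nat_lit 0) .nil) .nil)))))))))) 
(.nd (nat_lit 3) (.nd (nat_lit 4) (.nd (nat_lit 5) (.nd (nat_lit 6) (.nd (nat_lit 7) 
(.nd (nat_lit 8) (.nd (nat_lit 9) 
(.lf (nat_lit 502788) (.g (nat_lit 3251) (.e (nat_lit 163979) (nat_lit 30) (.e (nat_lit 573488) (nat_lit 14) (.e (nat_lit 73754) (nat_lit 8) (.e (nat_lit 557105) (nat_lit 14) (.e (nat_lit 180252) (nat_lit 10) (.e (nat_lit 573475) (nat_lit 12) (.e (nat_lit 57502) (nat_lit 38) (.e (nat_lit 638995) (nat_lit 7) .nil)))))))) (.g (nat_lit 1) (.e (nat_lit 173913) (nat_lit 0) .nil) .nil))) 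
(.lf (nat_lit 503300) (.g (nat_lit 2858) (.e (nat_lit 163979) (nat_lit 30) (.e (nat_lit 573491) (nat_lit 15) (.e (nat_lit 81954) (nat_lit 23) (.e (nat_lit 98366) (nat_lit 27) (.e (nat_lit 434272) (nat_lit 38) (.e (nat_lit 655374) (nat_lit 3) .nil)))))) (.g (nat_lit 1) (.e (nat_lit 174882) (nat_lit 0) .nil) .nil)))) (.nd (nat_lit 9) 
(.lf (nat_lit 503044) (.g (nat_lit 4774) (.e (nat_lit 163979) (nat_lit 30) (.e (nat_lit 573489) (nat_lit 14) (.e (nat_lit 73755) (nat_lit 8) (.e (nat_lit 557103) (nat_lit 14) (.e (nat_lit 180250) (nat_lit 10) (.e (nat_lit 573475) (nat_lit 12) (.e (nat_lit 57503) (nat_lit 38) (.e (nat_lit 638996) (nat_lit 7) .nil)))))))) (.g (nat_lit 1) (.e (nat_lit 174341) (nat_lit 0) .nil) .nil))) 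
(.lf (nat_lit 503556) (.g (nat_lit 2211) (.e (nat_lit 163979) (nat_lit 30) (.e (nat_lit 573493) (nat_lit 15) (.e (nat_lit 81954) (nat_lit 23) (.e (nat_lit 98355) (nat_lit 26) .nil)))) (.g (nat_lit 0) (.e (nat_lit 175788) (nat_lit 0) .nil) .nil))))) (.nd (nat_lit 8) (.nd (nat_lit 9) 
(.lf (nat_lit 502916) (.g (nat_lit 3764) (.e (nat_lit 163979) (nat_lit 30) (.e (nat_lit 573489) (nat_lit 14) (.e (nat_lit 73754) (nat_lit 8) (.e (nat_lit 557105) (nat_lit 14) (.e (nat_lit 180252) (nat_lit 10) (.e (nat_lit 573475) (nat_lit 12) (.e (nat_lit 57502) (nat_lit 38) (.e (nat_lit 638996) (nat_lit 7) .nil)))))))) (.g (nat_lit 1) (.e (nat_lit 174069) (nat_lit 0) .nil) .nil))) 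
(.lf (nat_lit 503428) (.g (nat_lit 3221) (.e (nat_lit 163979) (nat_lit 30) (.e (nat_lit 573492) (nat_lit 15) (.e (nat_lit 81956) (nat_lit 23) (.e (nat_lit 98360) (nat_lit 26) (.e (nat_lit 426396) (nat_lit 15) .nil))))) (.g (nat_lit 0) (.e (nat_lit 175241) (nat_lit 0) .nil) .nil)))) (.nd (nat_lit 9) 
(.lf (nat_lit 503172) (.g (nat_lit 3423) (.e (nat_lit 163979) (nat_lit 30) (.e (nat_lit 573489) (nat_lit 14) (.e (nat_lit 73755) (nat_lit 8) (.e (nat_lit 557105) (nat_lit 14) (.e (nat_lit 180252) (nat_lit 10) (.e (nat_lit 573475) (nat_lit 12) (.e (nat_lit 57502) (nat_lit 38) (.e (nat_lit 638994) (nat_lit 7) .nil)))))))) (.g (nat_lit 1) (.e (nat_lit 174597) (nat_lit 0) .nil) .nil))) 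
(.lf (nat_lit 503684) (.g (nat_lit 3457) (.e (nat_lit 163979) (nat_lit 30) (.e (nat_lit 573493) (nat_lit 15) (.e (nat_lit 81956) (nat_lit 23) (.e (nat_lit 98357) (nat_lit 26) (.e (nat_lit 426442) (nat_lit 19) (.e (nat_lit 114432) (nat_lit 3) .nil)))))) (.g (nat_lit 1) (.e (nat_lit 176027) (nat_lit 0) .nil) .nil)))))) (.nd (nat_lit 7) (.nd (nat_lit 8) (.nd (nat_lit 9) 
(.lf (nat_lit 502852) (.g (nat_lit 4055) (.e (nat_lit 163979) (nat_lit 30) (.e (nat_lit 573489) (nat_lit 14) (.e (nat_lit 73753) (nat_lit 8) (.e (nat_lit 557105) (nat_lit 14) (.e (nat_lit 180252) (nat_lit 10) (.e (nat_lit 573475) (nat_lit 12) (.e (nat_lit 57503) (nat_lit 38) (.e (nat_lit 638995) (nat_lit 7) .nil)))))))) (.g (nat_lit 1) (.e (nat_lit 173983) (nat_lit 0) .nil) .nil))) 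
(.lf (nat_lit 503364) (.g (nat_lit 5735) (.e (nat_lit 163979) (nat_lit 30) (.e (nat_lit 573492) (nat_lit 15) (.e (nat_lit 81953) (nat_lit 22) (.e (nat_lit 90168) (nat_lit 13) .nil)))) (.g (nat_lit 0) (.e (nat_lit 175043) (nat_lit 0) .nil) .nil)))) (.nd (nat_lit 9) 
(.lf (nat_lit 503108) (.g (nat_lit 2939) (.e (nat_lit 163979) (nat_lit 30) (.e (nat_lit 573489) (nat_lit 14) (.e (nat_lit 73755) (nat_lit 8) (.e (nat_lit 557104) (nat_lit 14) (.e (nat_lit 180251) (nat_lit 10) (.e (nat_lit 573478) (nat_lit 12) (.e (nat_lit 57500) (nat_lit 37) (.e (nat_lit 630800) (nat_lit 7) .nil)))))))) (.g (nat_lit 1) (.e (nat_lit 174522) (nat_lit 0) .nil) .nil))) 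
(.lf (nat_lit 503620) (.g (nat_lit 4152) (.e (nat_lit 163979) (nat_lit 30) (.e (nat_lit 573493) (nat_lit 15) (.e (nat_lit 81954) (nat_lit 23) (.e (nat_lit 98384) (nat_lit 32) (.e (nat_lit 475201) (nat_lit 40) (.e (nat_lit 712448) (nat_lit 3) .nil)))))) (.g (nat_lit 1) (.e (nat_lit 175894) (nat_lit 0) .nil) .nil))))) (.nd (nat_lit 8) (.nd (nat_lit 9) 
(.lf (nat_lit 502980) (.g (nat_lit 3008) (.e (nat_lit 163979) (nat_lit 30) (.e (nat_lit 573489) (nat_lit 14) (.e (nat_lit 73755) (nat_lit 8) (.e (nat_lit 557098) (nat_lit 13) (.e (nat_lit 172066) (nat_lit 3) .nil))))) (.g (nat_lit 0) (.e (nat_lit 174212) (nat_lit 0) .nil) .nil))) 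
(.lf (nat_lit 503492) (.g (nat_lit 4079) (.e (nat_lit 163979) (nat_lit 30) (.e (nat_lit 573493) (nat_lit 15) (.e (nat_lit 81951) (nat_lit 22) (.e (nat_lit 90172) (nat_lit 14) (.e (nat_lit 180232) (nat_lit 0) (.e (nat_lit 5448) (nat_lit 306) (.e (nat_lit 2612) (nat_lit 163) .nil))))))) (.g (nat_lit 1) (.e (nat_lit 175571) (nat_lit 0) .nil) .nil)))) (.nd (nat_lit 9) 
(.lf (nat_lit 503236) (.g (nat_lit 2589) (.e (nat_lit 163979) (nat_lit 30) (.e (nat_lit 573491) (nat_lit 15) (.e (nat_lit 81954) (nat_lit 23) (.e (nat_lit 98356) (nat_lit 26) (.e (nat_lit 426360) (nat_lit 15) (.e (nat_lit 7936) (nat_lit 142) (.e (nat_lit 704589) (nat_lit 3) .nil))))))) (.g (nat_lit 1) (.e (nat_lit 174777) (nat_lit 0) .nil) .nil))) 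
(.lf (nat_lit 503748) (.g (nat_lit 5607) (.e (nat_lit 163979) (nat_lit 30) (.e (nat_lit 573493) (nat_lit 15) (.e (nat_lit 81956) (nat_lit 23) (.e (nat_lit 98366) (nat_lit 27) (.e (nat_lit 434209) (nat_lit 18) (.e (nat_lit 5548) (nat_lit 306) (.e (nat_lit 2610) (nat_lit 163) .nil))))))) (.g (nat_lit 1) (.e (nat_lit 176177) (nat_lit 0) .nil) .nil))))))) 
(.nd (nat_lit 6) (.nd (nat_lit 7) (.nd (nat_lit 8) (.nd (nat_lit 9) 
(.lf (nat_lit 502820) (.g (nat_lit 4586) (.e (nat_lit 163979) (nat_lit 30) (.e (nat_lit 573488) (nat_lit 14) (.e (nat_lit 73755) (nat_lit 8) (.e (nat_lit 557104) (nat_lit 14) (.e (nat_lit 180252) (nat_lit 10) (.e (nat_lit 573473) (nat_lit 12) (.e (nat_lit 57504) (nat_lit 38) (.e (nat_lit 638995) (nat_lit 7) .nil)))))))) (.g (nat_lit 1) (.e (nat_lit 173947) (nat_lit 0) .nil) .nil))) 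
(.lf (nat_lit 503332) (.g (nat_lit 3211) (.e (nat_lit 163979) (nat_lit 30) (.e (nat_lit 573491) (nat_lit 15) (.e (nat_lit 81955) (nat_lit 23) (.e (nat_lit 98384) (nat_lit 32) (.e (nat_lit 475198) (nat_lit 40) (.e (nat_lit 704589) (nat_lit 3) .nil)))))) (.g (nat_lit 1) (.e (nat_lit 174938) (nat_lit 0) .nil) .nil)))) (.nd (nat_lit 9) 
(.lf (nat_lit 503076) (.g (nat_lit 4014) (.e (nat_lit 163979) (nat_lit 30) (.e (nat_lit 573489) (nat_lit 14) (.e (nat_lit 73755) (nat_lit 8) (.e (nat_lit 557104) (nat_lit 14) (.e (nat_lit 180244) (nat_lit 5) (.e (nat_lit 532484) (nat_lit 0) (.e (nat_lit 7936) (nat_lit 149) (.e (nat_lit 761899) (nat_lit 15) .nil)))))))) (.g (nat_lit 1) (.e (nat_lit 174400) (nat_lit 0) .nil) .nil))) 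
(.lf (nat_lit 503588) (.g (nat_lit 3864) (.e (nat_lit 163979) (nat_lit 30) (.e (nat_lit 573493) (nat_lit 15) (.e (nat_lit 81954) (nat_lit 23) (.e (nat_lit 98359) (nat_lit 26) (.e (nat_lit 426025) (nat_lit 0) (.e (nat_lit 3399) (nat_lit 211) (.e (nat_lit 647180) (nat_lit 3) .nil))))))) (.g (nat_lit 1) (.e (nat_lit 175824) (nat_lit 0) .nil) .nil))))) (.nd (nat_lit 8) (.nd (nat_lit 9) 
(.lf (nat_lit 502948) (.g (nat_lit 3242) (.e (nat_lit 163979) (nat_lit 30) (.e (nat_lit 573489) (nat_lit 14) (.e (nat_lit 73755) (nat_lit 8) (.e (nat_lit 557097) (nat_lit 13) (.e (nat_lit 172066) (nat_lit 3) (.e (nat_lit 204817) (nat_lit 17) (.e (nat_lit 7936) (nat_lit 149) (.e (nat_lit 761899) (nat_lit 15) .nil)))))))) (.g (nat_lit 1) (.e (nat_lit 174136) (nat_lit 0) .nil) .nil))) 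
(.lf (nat_lit 503460) (.g (nat_lit 4445) (.e (nat_lit 163979) (nat_lit 30) (.e (nat_lit 573492) (nat_lit 15) (.e (nat_lit 81956) (nat_lit 23) (.e (nat_lit 98386) (nat_lit 32) (.e (nat_lit 475197) (nat_lit 40) (.e (nat_lit 704589) (nat_lit 3) .nil)))))) (.g (nat_lit 1) (.e (nat_lit 175352) (nat_lit 0) .nil) .nil)))) (.nd (nat_lit 9) 
(.lf (nat_lit 503204) (.g (nat_lit 3196) (.e (nat_lit 163979) (nat_lit 30) (.e (nat_lit 573491) (nat_lit 15) (.e (nat_lit 81951) (nat_lit 22) (.e (nat_lit 90170) (nat_lit 13) (.e (nat_lit 172052) (nat_lit 0) .nil))))) (.g (nat_lit 0) (.e (nat_lit 174686) (nat_lit 0) .nil) .nil))) 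
(.lf (nat_lit 503716) (.g (nat_lit 4403) (.e (nat_lit 163979) (nat_lit 30) (.e (nat_lit 573493) (nat_lit 15) (.e (nat_lit 81956) (nat_lit 23) (.e (nat_lit 98360) (nat_lit 26) (.e (nat_lit 426025) (nat_lit 0) (.e (nat_lit 3399) (nat_lit 211) (.e (nat_lit 647180) (nat_lit 3) .nil))))))) (.g (nat_lit 1) (.e (nat_lit 176110) (nat_lit 0) .nil) .nil)))))) 
(.nd (nat_lit 7) (.nd (nat_lit 8) (.nd (nat_lit 9) 
(.lf (nat_lit 502884) (.g (nat_lit 3305) (.e (nat_lit 163979) (nat_lit 30) (.e (nat_lit 573489) (nat_lit 14) (.e (nat_lit 73754) (nat_lit 8) (.e (nat_lit 557103) (nat_lit 14) (.e (nat_lit 180243) (nat_lit 5) (.e (nat_lit 532484) (nat_lit 0) (.e (nat_lit 7936) (nat_lit 149) (.e (nat_lit 761894) (nat_lit 15) .nil)))))))) (.g (nat_lit 1) (.e (nat_lit 174035) (nat_lit 0) .nil) .nil))) 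
(.lf (nat_lit 503396) (.g (nat_lit 2743) (.e (nat_lit 163979) (nat_lit 30) (.e (nat_lit 573492) (nat_lit 15) (.e (nat_lit 81956) (nat_lit 23) (.e (nat_lit 98356) (nat_lit 26) (.e (nat_lit 425986) (nat_lit 0) .nil))))) (.g (nat_lit 0) (.e (nat_lit 175163) (nat_lit 0) .nil) .nil)))) (.nd (nat_lit 9) 
(.lf (nat_lit 503140) (.g (nat_lit 5126) (.e (nat_lit 163979) (nat_lit 30) (.e (nat_lit 573489) (nat_lit 14) (.e (nat_lit 73755) (nat_lit 8) (.e (nat_lit 557105) (nat_lit 14) (.e (nat_lit 180251) (nat_lit 10) (.e (nat_lit 573475) (nat_lit 12) (.e (nat_lit 57503) (nat_lit 38) (.e (nat_lit 638996) (nat_lit 7) .nil)))))))) (.g (nat_lit 1) (.e (nat_lit 174556) (nat_lit 0) .nil) .nil))) 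
(.lf (nat_lit 503652) (.g (nat_lit 3597) (.e (nat_lit 163979) (nat_lit 30) (.e (nat_lit 573493) (nat_lit 15) (.e (nat_lit 81956) (nat_lit 23) (.e (nat_lit 98356) (nat_lit 26) (.e (nat_lit 426360) (nat_lit 15) (.e (nat_lit 2062) (nat_lit 142) (.e (nat_lit 704589) (nat_lit 3) .nil))))))) (.g (nat_lit 1) (.e (nat_lit 175983) (nat_lit 0) .nil) .nil))))) (.nd (nat_lit 8) (.nd (nat_lit 9) 
(.lf (nat_lit 503012) (.g (nat_lit 3225) (.e (nat_lit 163979) (nat_lit 30) (.e (nat_lit 573489) (nat_lit 14) (.e (nat_lit 73755) (nat_lit 8) (.e (nat_lit 557103) (nat_lit 14) (.e (nat_lit 180243) (nat_lit 5) (.e (nat_lit 532484) (nat_lit 0) (.e (nat_lit 7936) (nat_lit 149) (.e (nat_lit 761899) (nat_lit 15) .nil)))))))) (.g (nat_lit 1) (.e (nat_lit 174268) (nat_lit 0) .nil) .nil))) 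
(.lf (nat_lit 503524) (.g (nat_lit 3479) (.e (nat_lit 163979) (nat_lit 30) (.e (nat_lit 573493) (nat_lit 15) (.e (nat_lit 81953) (nat_lit 22) (.e (nat_lit 90170) (nat_lit 13) (.e (nat_lit 172054) (nat_lit 0) .nil))))) (.g (nat_lit 0) (.e (nat_lit 175688) (nat_lit 0) .nil) .nil)))) (.nd (nat_lit 9) 
(.lf (nat_lit 503268) (.g (nat_lit 2919) (.e (nat_lit 163979) (nat_lit 30) (.e (nat_lit 573491) (nat_lit 15) (.e (nat_lit 81954) (nat_lit 23) (.e (nat_lit 98358) (nat_lit 26) (.e (nat_lit 426444) (nat_lit 19) (.e (nat_lit 114432) (nat_lit 3) .nil)))))) (.g (nat_lit 1) (.e (nat_lit 174814) (nat_lit 0) .nil) .nil))) 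
(.lf (nat_lit 503780) (.g (nat_lit 3403) (.e (nat_lit 163979) (nat_lit 30) (.e (nat_lit 573493) (nat_lit 15) (.e (nat_lit 81956) (nat_lit 23) (.e (nat_lit 98368) (nat_lit 27) (.e (nat_lit 434271) (nat_lit 38) (.e (nat_lit 655375) (nat_lit 3) .nil)))))) (.g (nat_lit 1) (.e (nat_lit 176311) (nat_lit 0) .nil) .nil)))))))) 
(.nd (nat_lit 5) (.nd (nat_lit 6) (.nd (nat_lit 7) (.nd (nat_lit 8) (.nd (nat_lit 9) 
(.lf (nat_lit 502804) (.g (nat_lit 3746) (.e (nat_lit 163979) (nat_lit 30) (.e (nat_lit 573488) (nat_lit 14) (.e (nat_lit 73755) (nat_lit 8) (.e (nat_lit 557103) (nat_lit 14) (.e (nat_lit 180250) (nat_lit 10) (.e (nat_lit 573478) (nat_lit 12) (.e (nat_lit 57502) (nat_lit 38) (.e (nat_lit 638995) (nat_lit 7) .nil)))))))) (.g (nat_lit 1) (.e (nat_lit 173931) (nat_lit 0) .nil) .nil))) 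
(.lf (nat_lit 503316) (.g (nat_lit 2177) (.e (nat_lit 163979) (nat_lit 30) (.e (nat_lit 573491) (nat_lit 15) (.e (nat_lit 81954) (nat_lit 23) (.e (nat_lit 98384) (nat_lit 32) (.e (nat_lit 475205) (nat_lit 40) .nil))))) (.g (nat_lit 0) (.e (nat_lit 174922) (nat_lit 0) .nil) .nil)))) (.nd (nat_lit 9) 
(.lf (nat_lit 503060) (.g (nat_lit 875) (.e (nat_lit 163979) (nat_lit 30) (.e (nat_lit 573489) (nat_lit 14) (.e (nat_lit 73755) (nat_lit 8) (.e (nat_lit 557104) (nat_lit 14) .nil)))) (.g (nat_lit 0) (.e (nat_lit 174357) (nat_lit 0) .nil) .nil))) 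
(.lf (nat_lit 503572) (.g (nat_lit 3853) (.e (nat_lit 163979) (nat_lit 30) (.e (nat_lit 573493) (nat_lit 15) (.e (nat_lit 81954) (nat_lit 23) (.e (nat_lit 98356) (nat_lit 26) (.e (nat_lit 426393) (nat_lit 15) (.e (nat_lit 2059) (nat_lit 142) (.e (nat_lit 704589) (nat_lit 3) .nil))))))) (.g (nat_lit 1) (.e (nat_lit 175805) (nat_lit 0) .nil) .nil))))) (.nd (nat_lit 8) (.nd (nat_lit 9) 
(.lf (nat_lit 502932) (.g (nat_lit 2635) (.e (nat_lit 163979) (nat_lit 30) (.e (nat_lit 573489) (nat_lit 14) (.e (nat_lit 73755) (nat_lit 8) (.e (nat_lit 557097) (nat_lit 13) (.e (nat_lit 172065) (nat_lit 3) (.e (nat_lit 204815) (nat_lit 17) (.e (nat_lit 2271) (nat_lit 149) (.e (nat_lit 761898) (nat_lit 15) .nil)))))))) (.g (nat_lit 1) (.e (nat_lit 174115) (nat_lit 0) .nil) .nil))) 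
(.lf (nat_lit 503444) (.g (nat_lit 5097) (.e (nat_lit 163979) (nat_lit 30) (.e (nat_lit 573492) (nat_lit 15) (.e (nat_lit 81956) (nat_lit 23) (.e (nat_lit 98365) (nat_lit 26) (.e (nat_lit 426108) (nat_lit 1) .nil))))) (.g (nat_lit 0) (.e (nat_lit 175259) (nat_lit 0) .nil) .nil)))) (.nd (nat_lit 9) 
(.lf (nat_lit 503188) (.g (nat_lit 1101) (.e (nat_lit 163979) (nat_lit 30) (.e (nat_lit 573491) (nat_lit 15) (.e (nat_lit 81951) (nat_lit 22) (.e (nat_lit 90170) (nat_lit 13) .nil)))) (.g (nat_lit 0) (.e (nat_lit 174642) (nat_lit 0) .nil) .nil))) 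
(.lf (nat_lit 503700) (.g (nat_lit 3328) (.e (nat_lit 163979) (nat_lit 30) (.e (nat_lit 573493) (nat_lit 15) (.e (nat_lit 81956) (nat_lit 23) (.e (nat_lit 98359) (nat_lit 26) (.e (nat_lit 426023) (nat_lit 0) (.e (nat_lit 3402) (nat_lit 211) (.e (nat_lit 647181) (nat_lit 3) .nil))))))) (.g (nat_lit 1) (.e (nat_lit 176049) (nat_lit 0) .nil) .nil)))))) 
(.nd (nat_lit 7) (.nd (nat_lit 8) (.nd (nat_lit 9) 
(.lf (nat_lit 502868) (.g (nat_lit 3536) (.e (nat_lit 163979) (nat_lit 30) (.e (nat_lit 573489) (nat_lit 14) (.e (nat_lit 73754) (nat_lit 8) (.e (nat_lit 557100) (nat_lit 13) (.e (nat_lit 172067) (nat_lit 3) (.e (nat_lit 204817) (nat_lit 17) (.e (nat_lit 2272) (nat_lit 149) (.e (nat_lit 761899) (nat_lit 15) .nil)))))))) (.g (nat_lit 1) (.e (nat_lit 174004) (nat_lit 0) .nil) .nil))) 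
(.lf (nat_lit 503380) (.g (nat_lit 2456) (.e (nat_lit 163979) (nat_lit 30) (.e (nat_lit 573492) (nat_lit 15) (.e (nat_lit 81954) (nat_lit 23) (.e (nat_lit 98366) (nat_lit 27) (.e (nat_lit 434271) (nat_lit 38) (.e (nat_lit 655375) (nat_lit 3) .nil)))))) (.g (nat_lit 1) (.e (nat_lit 175062) (nat_lit 0) .nil) .nil)))) (.nd (nat_lit 9) 
(.lf (nat_lit 503124) (.g (nat_lit 4317) (.e (nat_lit 163979) (nat_lit 30) (.e (nat_lit 573489) (nat_lit 14) (.e (nat_lit 73755) (nat_lit 8) (.e (nat_lit 557104) (nat_lit 14) (.e (nat_lit 180252) (nat_lit 10) (.e (nat_lit 573475) (nat_lit 12) (.e (nat_lit 57501) (nat_lit 37) (.e (nat_lit 630799) (nat_lit 7) .nil)))))))) (.g (nat_lit 1) (.e (nat_lit 174539) (nat_lit 0) .nil) .nil))) 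
(.lf (nat_lit 503636) (.g (nat_lit 3463) (.e (nat_lit 163979) (nat_lit 30) (.e (nat_lit 573493) (nat_lit 15) (.e (nat_lit 81956) (nat_lit 23) (.e (nat_lit 98355) (nat_lit 26) (.e (nat_lit 426444) (nat_lit 19) (.e (nat_lit 114432) (nat_lit 3) .nil)))))) (.g (nat_lit 1) (.e (nat_lit 175953) (nat_lit 0) .nil) .nil))))) (.nd (nat_lit 8) (.nd (nat_lit 9) 
(.lf (nat_lit 502996) (.g (nat_lit 3384) (.e (nat_lit 163979) (nat_lit 30) (.e (nat_lit 573489) (nat_lit 14) (.e (nat_lit 73755) (nat_lit 8) (.e (nat_lit 557098) (nat_lit 13) (.e (nat_lit 172067) (nat_lit 3) (.e (nat_lit 204817) (nat_lit 17) (.e (nat_lit 7936) (nat_lit 149) (.e (nat_lit 761893) (nat_lit 15) .nil)))))))) (.g (nat_lit 1) (.e (nat_lit 174232) (nat_lit 0) .nil) .nil))) 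
(.lf (nat_lit 503508) (.g (nat_lit 3063) (.e (nat_lit 163979) (nat_lit 30) (.e (nat_lit 573493) (nat_lit 15) (.e (nat_lit 81953) (nat_lit 22) (.e (nat_lit 90170) (nat_lit 13) (.e (nat_lit 172038) (nat_lit 0) (.e (nat_lit 3399) (nat_lit 211) (.e (nat_lit 647181) (nat_lit 3) .nil))))))) (.g (nat_lit 1) (.e (nat_lit 175654) (nat_lit 0) .nil) .nil)))) (.nd (nat_lit 9) 
(.lf (nat_lit 503252) (.g (nat_lit 2603) (.e (nat_lit 163979) (nat_lit 30) (.e (nat_lit 573491) (nat_lit 15) (.e (nat_lit 81954) (nat_lit 23) (.e (nat_lit 98356) (nat_lit 26) (.e (nat_lit 426399) (nat_lit 15) (.e (nat_lit 2045) (nat_lit 142) (.e (nat_lit 704589) (nat_lit 3) .nil))))))) (.g (nat_lit 1) (.e (nat_lit 174793) (nat_lit 0) .nil) .nil))) 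
(.lf (nat_lit 503764) (.g (nat_lit 3301) (.e (nat_lit 163979) (nat_lit 30) (.e (nat_lit 573493) (nat_lit 15) (.e (nat_lit 81956) (nat_lit 23) (.e (nat_lit 98367) (nat_lit 27) (.e (nat_lit 434213) (nat_lit 18) (.e (nat_lit 5543) (nat_lit 306) (.e (nat_lit 2610) (nat_lit 163) .nil))))))) (.g (nat_lit 1) (.e (nat_lit 176233) (nat_lit 0) .nil) .nil))))))) 
(.nd (nat_lit 6) (.nd (nat_lit 7) (.nd (nat_lit 8) (.nd (nat_lit 9) 
(.lf (nat_lit 502836) (.g (nat_lit 4218) (.e (nat_lit 163979) (nat_lit 30) (.e (nat_lit 573488) (nat_lit 14) (.e (nat_lit 73755) (nat_lit 8) (.e (nat_lit 557105) (nat_lit 14) (.e (nat_lit 180252) (nat_lit 10) (.e (nat_lit 573474) (nat_lit 12) (.e (nat_lit 57502) (nat_lit 38) (.e (nat_lit 638995) (nat_lit 7) .nil)))))))) (.g (nat_lit 1) (.e (nat_lit 173963) (nat_lit 0) .nil) .nil))) 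
(.lf (nat_lit 503348) (.g (nat_lit 3014) (.e (nat_lit 163979) (nat_lit 30) (.e (nat_lit 573491) (nat_lit 15) (.e (nat_lit 81956) (nat_lit 23) (.e (nat_lit 98384) (nat_lit 32) (.e (nat_lit 475197) (nat_lit 40) .nil))))) (.g (nat_lit 0) (.e (nat_lit 174955) (nat_lit 0) .nil) .nil)))) (.nd (nat_lit 9) 
(.lf (nat_lit 503092) (.g (nat_lit 3753) (.e (nat_lit 163979) (nat_lit 30) (.e (nat_lit 573489) (nat_lit 14) (.e (nat_lit 73755) (nat_lit 8) (.e (nat_lit 557104) (nat_lit 14) (.e (nat_lit 180250) (nat_lit 10) (.e (nat_lit 573473) (nat_lit 12) (.e (nat_lit 57503) (nat_lit 38) (.e (nat_lit 638996) (nat_lit 7) .nil)))))))) (.g (nat_lit 1) (.e (nat_lit 174506) (nat_lit 0) .nil) .nil))) 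
(.lf (nat_lit 503604) (.g (nat_lit 2014) (.e (nat_lit 163979) (nat_lit 30) (.e (nat_lit 573493) (nat_lit 15) (.e (nat_lit 81954) (nat_lit 23) (.e (nat_lit 98367) (nat_lit 27) .nil)))) (.g (nat_lit 0) (.e (nat_lit 175869) (nat_lit 0) .nil) .nil))))) (.nd (nat_lit 8) (.nd (nat_lit 9) 
(.lf (nat_lit 502964) (.g (nat_lit 3974) (.e (nat_lit 163979) (nat_lit 30) (.e (nat_lit 573489) (nat_lit 14) (.e (nat_lit 73755) (nat_lit 8) (.e (nat_lit 557097) (nat_lit 13) (.e (nat_lit 172067) (nat_lit 3) (.e (nat_lit 204817) (nat_lit 17) (.e (nat_lit 7936) (nat_lit 149) (.e (nat_lit 761897) (nat_lit 15) .nil)))))))) (.g (nat_lit 1) (.e (nat_lit 174167) (nat_lit 0) .nil) .nil))) 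
(.lf (nat_lit 503476) (.g (nat_lit 3499) (.e (nat_lit 163979) (nat_lit 30) (.e (nat_lit 573493) (nat_lit 15) (.e (nat_lit 81951) (nat_lit 22) (.e (nat_lit 90170) (nat_lit 13) (.e (nat_lit 172049) (nat_lit 0) (.e (nat_lit 3409) (nat_lit 212) (.e (nat_lit 655373) (nat_lit 3) .nil))))))) (.g (nat_lit 1) (.e (nat_lit 175529) (nat_lit 0) .nil) .nil)))) (.nd (nat_lit 9) 
(.lf (nat_lit 503220) (.g (nat_lit 665) (.e (nat_lit 163979) (nat_lit 30) (.e (nat_lit 573491) (nat_lit 15) (.e (nat_lit 81953) (nat_lit 22) (.e (nat_lit 90170) (nat_lit 13) .nil)))) (.g (nat_lit 0) (.e (nat_lit 174752) (nat_lit 0) .nil) .nil))) 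
(.lf (nat_lit 503732) (.g (nat_lit 3462) (.e (nat_lit 163979) (nat_lit 30) (.e (nat_lit 573493) (nat_lit 15) (.e (nat_lit 81956) (nat_lit 23) (.e (nat_lit 98363) (nat_lit 26) (.e (nat_lit 426443) (nat_lit 19) (.e (nat_lit 114432) (nat_lit 3) .nil)))))) (.g (nat_lit 1) (.e (nat_lit 176138) (nat_lit 0) .nil) .nil)))))) (.nd (nat_lit 7) (.nd (nat_lit 8) (.nd (nat_lit 9) 
(.lf (nat_lit 502900) (.g (nat_lit 3414) (.e (nat_lit 163979) (nat_lit 30) (.e (nat_lit 573489) (nat_lit 14) (.e (nat_lit 73754) (nat_lit 8) (.e (nat_lit 557105) (nat_lit 14) (.e (nat_lit 180252) (nat_lit 10) (.e (nat_lit 573473) (nat_lit 12) (.e (nat_lit 57500) (nat_lit 37) (.e (nat_lit 630799) (nat_lit 7) .nil)))))))) (.g (nat_lit 1) (.e (nat_lit 174053) (nat_lit 0) .nil) .nil))) 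
(.lf (nat_lit 503412) (.g (nat_lit 3956) (.e (nat_lit 163979) (nat_lit 30) (.e (nat_lit 573492) (nat_lit 15) (.e (nat_lit 81956) (nat_lit 23) (.e (nat_lit 98356) (nat_lit 26) (.e (nat_lit 426393) (nat_lit 15) (.e (nat_lit 2057) (nat_lit 142) (.e (nat_lit 704589) (nat_lit 3) .nil))))))) (.g (nat_lit 1) (.e (nat_lit 175215) (nat_lit 0) .nil) .nil)))) (.nd (nat_lit 9) 
(.lf (nat_lit 503156) (.g (nat_lit 4177) (.e (nat_lit 163979) (nat_lit 30) (.e (nat_lit 573489) (nat_lit 14) (.e (nat_lit 73755) (nat_lit 8) (.e (nat_lit 557105) (nat_lit 14) (.e (nat_lit 180252) (nat_lit 10) (.e (nat_lit 573473) (nat_lit 12) (.e (nat_lit 57504) (nat_lit 38) (.e (nat_lit 638994) (nat_lit 7) .nil)))))))) (.g (nat_lit 1) (.e (nat_lit 174581) (nat_lit 0) .nil) .nil))) 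
(.lf (nat_lit 503668) (.g (nat_lit 2891) (.e (nat_lit 163979) (nat_lit 30) (.e (nat_lit 573493) (nat_lit 15) (.e (nat_lit 81956) (nat_lit 23) (.e (nat_lit 98356) (nat_lit 26) (.e (nat_lit 426415) (nat_lit 15) .nil))))) (.g (nat_lit 0) (.e (nat_lit 176004) (nat_lit 0) .nil) .nil))))) (.nd (nat_lit 8) (.nd (nat_lit 9) 
(.lf (nat_lit 503028) (.g (nat_lit 2726) (.e (nat_lit 163979) (nat_lit 30) (.e (nat_lit 573489) (nat_lit 14) (.e (nat_lit 73755) (nat_lit 8) (.e (nat_lit 557103) (nat_lit 14) (.e (nat_lit 180250) (nat_lit 10) (.e (nat_lit 573474) (nat_lit 12) (.e (nat_lit 57500) (nat_lit 37) (.e (nat_lit 630799) (nat_lit 7) .nil)))))))) (.g (nat_lit 1) (.e (nat_lit 174325) (nat_lit 0) .nil) .nil))) 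
(.lf (nat_lit 503540) (.g (nat_lit 5101) (.e (nat_lit 163979) (nat_lit 30) (.e (nat_lit 573493) (nat_lit 15) (.e (nat_lit 81953) (nat_lit 22) (.e (nat_lit 90170) (nat_lit 13) (.e (nat_lit 172138) (nat_lit 15) (.e (nat_lit 2059) (nat_lit 142) (.e (nat_lit 704589) (nat_lit 3) .nil))))))) (.g (nat_lit 1) (.e (nat_lit 175731) (nat_lit 0) .nil) .nil)))) (.nd (nat_lit 9) 
(.lf (nat_lit 503284) (.g (nat_lit 2964) (.e (nat_lit 163979) (nat_lit 30) (.e (nat_lit 573491) (nat_lit 15) (.e (nat_lit 81954) (nat_lit 23) (.e (nat_lit 98359) (nat_lit 26) (.e (nat_lit 426103) (nat_lit 1) (.e (nat_lit 164348) (nat_lit 240) (.e (nat_lit 2610) (nat_lit 163) .nil))))))) (.g (nat_lit 1) (.e (nat_lit 174844) (nat_lit 0) .nil) .nil))) 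
(.lf (nat_lit 503796) (.g (nat_lit 2451) (.e (nat_lit 171776) (nat_lit 28) (.e (nat_lit 557098) (nat_lit 13) (.e (nat_lit 172097) (nat_lit 9) (.e (nat_lit 426140) (nat_lit 3) (.e (nat_lit 204862) (nat_lit 27) .nil))))) (.g (nat_lit 0) (.e (nat_lit 176387) (nat_lit 0) .nil) .nil))))))))) (.nd (nat_lit 4) (.nd (nat_lit 5) (.nd (nat_lit 6) (.nd (nat_lit 7) (.nd (nat_lit 8) (.nd (nat_lit 9) 
(.lf (nat_lit 502796) (.g (nat_lit 2392) (.e (nat_lit 163979) (nat_lit 30) (.e (nat_lit 573488) (nat_lit 14) (.e (nat_lit 73755) (nat_lit 8) (.e (nat_lit 557103) (nat_lit 14) (.e (nat_lit 180250) (nat_lit 10) .nil))))) (.g (nat_lit 0) (.e (nat_lit 173923) (nat_lit 0) .nil) .nil))) 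
(.lf (nat_lit 503308) (.g (nat_lit 4163) (.e (nat_lit 163979) (nat_lit 30) (.e (nat_lit 573491) (nat_lit 15) (.e (nat_lit 81954) (nat_lit 23) (.e (nat_lit 98367) (nat_lit 27) (.e (nat_lit 434272) (nat_lit 38) (.e (nat_lit 655374) (nat_lit 3) .nil)))))) (.g (nat_lit 1) (.e (nat_lit 174908) (nat_lit 0) .nil) .nil)))) (.nd (nat_lit 9) 
(.lf (nat_lit 503052) (.g (nat_lit 4143) (.e (nat_lit 163979) (nat_lit 30) (.e (nat_lit 573489) (nat_lit 14) (.e (nat_lit 73755) (nat_lit 8) (.e (nat_lit 557103) (nat_lit 14) (.e (nat_lit 180250) (nat_lit 10) (.e (nat_lit 573478) (nat_lit 12) (.e (nat_lit 57500) (nat_lit 37) (.e (nat_lit 630800) (nat_lit 7) .nil)))))))) (.g (nat_lit 1) (.e (nat_lit 174349) (nat_lit 0) .nil) .nil))) 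
(.lf (nat_lit 503564) (.g (nat_lit 3853) (.e (nat_lit 163979) (nat_lit 30) (.e (nat_lit 573493) (nat_lit 15) (.e (nat_lit 81954) (nat_lit 23) (.e (nat_lit 98356) (nat_lit 26) (.e (nat_lit 426374) (nat_lit 15) (.e (nat_lit 2058) (nat_lit 142) (.e (nat_lit 704589) (nat_lit 3) .nil))))))) (.g (nat_lit 1) (.e (nat_lit 175797) (nat_lit 0) .nil) .nil))))) (.nd (nat_lit 8) (.nd (nat_lit 9) 
(.lf (nat_lit 502924) (.g (nat_lit 3544) (.e (nat_lit 163979) (nat_lit 30) (.e (nat_lit 573489) (nat_lit 14) (.e (nat_lit 73755) (nat_lit 8) (.e (nat_lit 557096) (nat_lit 13) (.e (nat_lit 172067) (nat_lit 3) (.e (nat_lit 204815) (nat_lit 17) (.e (nat_lit 2271) (nat_lit 149) (.e (nat_lit 761898) (nat_lit 15) .nil)))))))) (.g (nat_lit 1) (.e (nat_lit 174093) (nat_lit 0) .nil) .nil))) 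
(.lf (nat_lit 503436) (.g (nat_lit 4373) (.e (nat_lit 163979) (nat_lit 30) (.e (nat_lit 573492) (nat_lit 15) (.e (nat_lit 81956) (nat_lit 23) (.e (nat_lit 98364) (nat_lit 26) .nil)))) (.g (nat_lit 0) (.e (nat_lit 175249) (nat_lit 0) .nil) .nil)))) (.nd (nat_lit 9) 
(.lf (nat_lit 503180) (.g (nat_lit 3678) (.e (nat_lit 163979) (nat_lit 30) (.e (nat_lit 573489) (nat_lit 14) (.e (nat_lit 73755) (nat_lit 8) (.e (nat_lit 557105) (nat_lit 14) (.e (nat_lit 180252) (nat_lit 10) (.e (nat_lit 573478) (nat_lit 12) (.e (nat_lit 57500) (nat_lit 37) (.e (nat_lit 630800) (nat_lit 7) .nil)))))))) (.g (nat_lit 1) (.e (nat_lit 174605) (nat_lit 0) .nil) .nil))) 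
(.lf (nat_lit 503692) (.g (nat_lit 3126) (.e (nat_lit 163979) (nat_lit 30) (.e (nat_lit 573493) (nat_lit 15) (.e (nat_lit 81956) (nat_lit 23) (.e (nat_lit 98359) (nat_lit 26) (.e (nat_lit 426003) (nat_lit 0) (.e (nat_lit 3401) (nat_lit 211) (.e (nat_lit 647181) (nat_lit 3) .nil))))))) (.g (nat_lit 1) (.e (nat_lit 176036) (nat_lit 0) .nil) .nil)))))) 
(.nd (nat_lit 7) (.nd (nat_lit 8) (.nd (nat_lit 9) 
(.lf (nat_lit 502860) (.g (nat_lit 3854) (.e (nat_lit 163979) (nat_lit 30) (.e (nat_lit 573489) (nat_lit 14) (.e (nat_lit 73754) (nat_lit 8) (.e (nat_lit 557100) (nat_lit 13) (.e (nat_lit 172065) (nat_lit 3) (.e (nat_lit 204817) (nat_lit 17) (.e (nat_lit 7936) (nat_lit 149) (.e (nat_lit 761894) (nat_lit 15) .nil)))))))) (.g (nat_lit 1) (.e (nat_lit 173993) (nat_lit 0) .nil) .nil))) 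
(.lf (nat_lit 503372) (.g (nat_lit 5368) (.e (nat_lit 163979) (nat_lit 30) (.e (nat_lit 573492) (nat_lit 15) (.e (nat_lit 81953) (nat_lit 22) (.e (nat_lit 90173) (nat_lit 14) .nil)))) (.g (nat_lit 0) (.e (nat_lit 175052) (nat_lit 0) .nil) .nil)))) (.nd (nat_lit 9) 
(.lf (nat_lit 503116) (.g (nat_lit 3699) (.e (nat_lit 163979) (nat_lit 30) (.e (nat_lit 573489) (nat_lit 14) (.e (nat_lit 73755) (nat_lit 8) (.e (nat_lit 557104) (nat_lit 14) (.e (nat_lit 180252) (nat_lit 10) (.e (nat_lit 573473) (nat_lit 12) (.e (nat_lit 57504) (nat_lit 38) (.e (nat_lit 638994) (nat_lit 7) .nil)))))))) (.g (nat_lit 1) (.e (nat_lit 174531) (nat_lit 0) .nil) .nil))) 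
(.lf (nat_lit 503628) (.g (nat_lit 1660) (.e (nat_lit 163979) (nat_lit 30) (.e (nat_lit 573493) (nat_lit 15) (.e (nat_lit 81956) (nat_lit 23) (.e (nat_lit 98354) (nat_lit 26) .nil)))) (.g (nat_lit 0) (.e (nat_lit 175943) (nat_lit 0) .nil) .nil))))) (.nd (nat_lit 8) (.nd (nat_lit 9) 
(.lf (nat_lit 502988) (.g (nat_lit 2867) (.e (nat_lit 163979) (nat_lit 30) (.e (nat_lit 573489) (nat_lit 14) (.e (nat_lit 73755) (nat_lit 8) (.e (nat_lit 557098) (nat_lit 13) (.e (nat_lit 172067) (nat_lit 3) .nil))))) (.g (nat_lit 0) (.e (nat_lit 174224) (nat_lit 0) .nil) .nil))) 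
(.lf (nat_lit 503500) (.g (nat_lit 2418) (.e (nat_lit 163979) (nat_lit 30) (.e (nat_lit 573493) (nat_lit 15) (.e (nat_lit 81953) (nat_lit 22) (.e (nat_lit 90170) (nat_lit 13) (.e (nat_lit 172032) (nat_lit 0) .nil))))) (.g (nat_lit 0) (.e (nat_lit 175635) (nat_lit 0) .nil) .nil)))) (.nd (nat_lit 9) 
(.lf (nat_lit 503244) (.g (nat_lit 2498) (.e (nat_lit 163979) (nat_lit 30) (.e (nat_lit 573491) (nat_lit 15) (.e (nat_lit 81954) (nat_lit 23) (.e (nat_lit 98356) (nat_lit 26) (.e (nat_lit 426363) (nat_lit 15) (.e (nat_lit 7936) (nat_lit 142) (.e (nat_lit 704589) (nat_lit 3) .nil))))))) (.g (nat_lit 1) (.e (nat_lit 174785) (nat_lit 0) .nil) .nil))) 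
(.lf (nat_lit 503756) (.g (nat_lit 3568) (.e (nat_lit 163979) (nat_lit 30) (.e (nat_lit 573493) (nat_lit 15) (.e (nat_lit 81956) (nat_lit 23) (.e (nat_lit 98367) (nat_lit 27) (.e (nat_lit 434203) (nat_lit 18) (.e (nat_lit 5537) (nat_lit 306) (.e (nat_lit 2610) (nat_lit 163) .nil))))))) (.g (nat_lit 1) (.e (nat_lit 176198) (nat_lit 0) .nil) .nil))))))) 
(.nd (nat_lit 6) (.nd (nat_lit 7) (.nd (nat_lit 8) (.nd (nat_lit 9) 
(.lf (nat_lit 502828) (.g (nat_lit 2528) (.e (nat_lit 163979) (nat_lit 30) (.e (nat_lit 573488) (nat_lit 14) (.e (nat_lit 73755) (nat_lit 8) (.e (nat_lit 557105) (nat_lit 14) (.e (nat_lit 180251) (nat_lit 10) (.e (nat_lit 573475) (nat_lit 12) (.e (nat_lit 57504) (nat_lit 38) (.e (nat_lit 638995) (nat_lit 7) .nil)))))))) (.g (nat_lit 1) (.e (nat_lit 173955) (nat_lit 0) .nil) .nil))) 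
(.lf (nat_lit 503340) (.g (nat_lit 2364) (.e (nat_lit 163979) (nat_lit 30) (.e (nat_lit 573491) (nat_lit 15) (.e (nat_lit 81956) (nat_lit 23) (.e (nat_lit 98356) (nat_lit 26) (.e (nat_lit 426416) (nat_lit 15) .nil))))) (.g (nat_lit 0) (.e (nat_lit 174946) (nat_lit 0) .nil) .nil)))) (.nd (nat_lit 9) 
(.lf (nat_lit 503084) (.g (nat_lit 2626) (.e (nat_lit 163979) (nat_lit 30) (.e (nat_lit 573489) (nat_lit 14) (.e (nat_lit 73755) (nat_lit 8) (.e (nat_lit 557104) (nat_lit 14) (.e (nat_lit 180244) (nat_lit 5) (.e (nat_lit 532503) (nat_lit 1) (.e (nat_lit 57651) (nat_lit 152) (.e (nat_lit 2606) (nat_lit 163) .nil)))))))) (.g (nat_lit 1) (.e (nat_lit 174439) (nat_lit 0) .nil) .nil))) 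
(.lf (nat_lit 503596) (.g (nat_lit 2268) (.e (nat_lit 163979) (nat_lit 30) (.e (nat_lit 573493) (nat_lit 15) (.e (nat_lit 81954) (nat_lit 23) (.e (nat_lit 98362) (nat_lit 26) .nil)))) (.g (nat_lit 0) (.e (nat_lit 175852) (nat_lit 0) .nil) .nil))))) (.nd (nat_lit 8) (.nd (nat_lit 9) 
(.lf (nat_lit 502956) (.g (nat_lit 3667) (.e (nat_lit 163979) (nat_lit 30) (.e (nat_lit 573489) (nat_lit 14) (.e (nat_lit 73755) (nat_lit 8) (.e (nat_lit 557097) (nat_lit 13) (.e (nat_lit 172067) (nat_lit 3) (.e (nat_lit 204814) (nat_lit 17) (.e (nat_lit 2270) (nat_lit 149) (.e (nat_lit 761899) (nat_lit 15) .nil)))))))) (.g (nat_lit 1) (.e (nat_lit 174159) (nat_lit 0) .nil) .nil))) 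
(.lf (nat_lit 503468) (.g (nat_lit 4404) (.e (nat_lit 163979) (nat_lit 30) (.e (nat_lit 573493) (nat_lit 15) (.e (nat_lit 81951) (nat_lit 22) (.e (nat_lit 90170) (nat_lit 13) (.e (nat_lit 172032) (nat_lit 0) (.e (nat_lit 3397) (nat_lit 211) (.e (nat_lit 647181) (nat_lit 3) .nil))))))) (.g (nat_lit 1) (.e (nat_lit 175512) (nat_lit 0) .nil) .nil)))) (.nd (nat_lit 9) 
(.lf (nat_lit 503212) (.g (nat_lit 2737) (.e (nat_lit 163979) (nat_lit 30) (.e (nat_lit 573491) (nat_lit 15) (.e (nat_lit 81951) (nat_lit 22) (.e (nat_lit 90170) (nat_lit 13) (.e (nat_lit 172137) (nat_lit 15) .nil))))) (.g (nat_lit 0) (.e (nat_lit 174721) (nat_lit 0) .nil) .nil))) 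
(.lf (nat_lit 503724) (.g (nat_lit 4511) (.e (nat_lit 163979) (nat_lit 30) (.e (nat_lit 573493) (nat_lit 15) (.e (nat_lit 81956) (nat_lit 23) (.e (nat_lit 98361) (nat_lit 26) (.e (nat_lit 426025) (nat_lit 0) (.e (nat_lit 3399) (nat_lit 211) (.e (nat_lit 647180) (nat_lit 3) .nil))))))) (.g (nat_lit 1) (.e (nat_lit 176124) (nat_lit 0) .nil) .nil)))))) 
(.nd (nat_lit 7) (.nd (nat_lit 8) (.nd (nat_lit 9) 
(.lf (nat_lit 502892) (.g (nat_lit 3171) (.e (nat_lit 163979) (nat_lit 30) (.e (nat_lit 573489) (nat_lit 14) (.e (nat_lit 73754) (nat_lit 8) (.e (nat_lit 557103) (nat_lit 14) (.e (nat_lit 180250) (nat_lit 10) (.e (nat_lit 573477) (nat_lit 12) (.e (nat_lit 57502) (nat_lit 38) (.e (nat_lit 638995) (nat_lit 7) .nil)))))))) (.g (nat_lit 1) (.e (nat_lit 174045) (nat_lit 0) .nil) .nil))) 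
(.lf (nat_lit 503404) (.g (nat_lit 3955) (.e (nat_lit 163979) (nat_lit 30) (.e (nat_lit 573492) (nat_lit 15) (.e (nat_lit 81956) (nat_lit 23) (.e (nat_lit 98356) (nat_lit 26) (.e (nat_lit 426374) (nat_lit 15) (.e (nat_lit 2056) (nat_lit 142) (.e (nat_lit 704589) (nat_lit 3) .nil))))))) (.g (nat_lit 1) (.e (nat_lit 175207) (nat_lit 0) .nil) .nil)))) (.nd (nat_lit 9) 
(.lf (nat_lit 503148) (.g (nat_lit 2997) (.e (nat_lit 163979) (nat_lit 30) (.e (nat_lit 573489) (nat_lit 14) (.e (nat_lit 73755) (nat_lit 8) (.e (nat_lit 557105) (nat_lit 14) (.e (nat_lit 180251) (nat_lit 10) (.e (nat_lit 573478) (nat_lit 12) (.e (nat_lit 57502) (nat_lit 38) (.e (nat_lit 638996) (nat_lit 7) .nil)))))))) (.g (nat_lit 1) (.e (nat_lit 174564) (nat_lit 0) .nil) .nil))) 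
(.lf (nat_lit 503660) (.g (nat_lit 3477) (.e (nat_lit 163979) (nat_lit 30) (.e (nat_lit 573493) (nat_lit 15) (.e (nat_lit 81956) (nat_lit 23) (.e (nat_lit 98356) (nat_lit 26) (.e (nat_lit 426362) (nat_lit 15) (.e (nat_lit 2061) (nat_lit 142) (.e (nat_lit 704589) (nat_lit 3) .nil))))))) (.g (nat_lit 1) (.e (nat_lit 175996) (nat_lit 0) .nil) .nil))))) (.nd (nat_lit 8) (.nd (nat_lit 9) 
(.lf (nat_lit 503020) (.g (nat_lit 2763) (.e (nat_lit 163979) (nat_lit 30) (.e (nat_lit 573489) (nat_lit 14) (.e (nat_lit 73755) (nat_lit 8) (.e (nat_lit 557103) (nat_lit 14) (.e (nat_lit 180244) (nat_lit 5) (.e (nat_lit 532499) (nat_lit 1) (.e (nat_lit 57657) (nat_lit 152) (.e (nat_lit 2606) (nat_lit 163) .nil)))))))) (.g (nat_lit 1) (.e (nat_lit 174283) (nat_lit 0) .nil) .nil))) 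
(.lf (nat_lit 503532) (.g (nat_lit 4098) (.e (nat_lit 163979) (nat_lit 30) (.e (nat_lit 573493) (nat_lit 15) (.e (nat_lit 81953) (nat_lit 22) (.e (nat_lit 90170) (nat_lit 13) (.e (nat_lit 172060) (nat_lit 1) (.e (nat_lit 164348) (nat_lit 240) (.e (nat_lit 2610) (nat_lit 163) .nil))))))) (.g (nat_lit 1) (.e (nat_lit 175702) (nat_lit 0) .nil) .nil)))) (.nd (nat_lit 9) 
(.lf (nat_lit 503276) (.g (nat_lit 2714) (.e (nat_lit 163979) (nat_lit 30) (.e (nat_lit 573491) (nat_lit 15) (.e (nat_lit 81954) (nat_lit 23) (.e (nat_lit 98359) (nat_lit 26) (.e (nat_lit 426022) (nat_lit 0) (.e (nat_lit 3401) (nat_lit 211) (.e (nat_lit 647181) (nat_lit 3) .nil))))))) (.g (nat_lit 1) (.e (nat_lit 174823) (nat_lit 0) .nil) .nil))) 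
(.lf (nat_lit 503788) (.g (nat_lit 3793) (.e (nat_lit 163979) (nat_lit 30) (.e (nat_lit 573493) (nat_lit 15) (.e (nat_lit 81956) (nat_lit 23) (.e (nat_lit 98384) (nat_lit 32) (.e (nat_lit 475200) (nat_lit 40) .nil))))) (.g (nat_lit 0) (.e (nat_lit 176338) (nat_lit 0) .nil) .nil)))))))) (.nd (nat_lit 5) (.nd (nat_lit 6) (.nd (nat_lit 7) (.nd (nat_lit 8) (.nd (nat_lit 9) 
(.lf (nat_lit 502812) (.g (nat_lit 3449) (.e (nat_lit 163979) (nat_lit 30) (.e (nat_lit 573488) (nat_lit 14) (.e (nat_lit 73755) (nat_lit 8) (.e (nat_lit 557104) (nat_lit 14) (.e (nat_lit 180250) (nat_lit 10) (.e (nat_lit 573473) (nat_lit 12) (.e (nat_lit 57504) (nat_lit 38) (.e (nat_lit 638995) (nat_lit 7) .nil)))))))) (.g (nat_lit 1) (.e (nat_lit 173939) (nat_lit 0) .nil) .nil))) 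
(.lf (nat_lit 503324) (.g (nat_lit 3277) (.e (nat_lit 163979) (nat_lit 30) (.e (nat_lit 573491) (nat_lit 15) (.e (nat_lit 81954) (nat_lit 23) (.e (nat_lit 98386) (nat_lit 32) (.e (nat_lit 475196) (nat_lit 40) (.e (nat_lit 704589) (nat_lit 3) .nil)))))) (.g (nat_lit 1) (.e (nat_lit 174930) (nat_lit 0) .nil) .nil)))) (.nd (nat_lit 9) 
(.lf (nat_lit 503068) (.g (nat_lit 2410) (.e (nat_lit 163979) (nat_lit 30) (.e (nat_lit 573489) (nat_lit 14) (.e (nat_lit 73755) (nat_lit 8) (.e (nat_lit 557104) (nat_lit 14) (.e (nat_lit 180243) (nat_lit 5) (.e (nat_lit 532484) (nat_lit 0) (.e (nat_lit 7936) (nat_lit 149) (.e (nat_lit 761899) (nat_lit 15) .nil)))))))) (.g (nat_lit 1) (.e (nat_lit 174381) (nat_lit 0) .nil) .nil))) 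
(.lf (nat_lit 503580) (.g (nat_lit 3292) (.e (nat_lit 163979) (nat_lit 30) (.e (nat_lit 573493) (nat_lit 15) (.e (nat_lit 81954) (nat_lit 23) (.e (nat_lit 98358) (nat_lit 26) (.e (nat_lit 426402) (nat_lit 15) .nil))))) (.g (nat_lit 0) (.e (nat_lit 175816) (nat_lit 0) .nil) .nil))))) (.nd (nat_lit 8) (.nd (nat_lit 9) 
(.lf (nat_lit 502940) (.g (nat_lit 2597) (.e (nat_lit 163979) (nat_lit 30) (.e (nat_lit 573489) (nat_lit 14) (.e (nat_lit 73755) (nat_lit 8) (.e (nat_lit 557097) (nat_lit 13) (.e (nat_lit 172065) (nat_lit 3) (.e (nat_lit 204821) (nat_lit 17) (.e (nat_lit 7936) (nat_lit 149) (.e (nat_lit 761898) (nat_lit 15) .nil)))))))) (.g (nat_lit 1) (.e (nat_lit 174123) (nat_lit 0) .nil) .nil))) 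
(.lf (nat_lit 503452) (.g (nat_lit 4401) (.e (nat_lit 163979) (nat_lit 30) (.e (nat_lit 573492) (nat_lit 15) (.e (nat_lit 81956) (nat_lit 23) (.e (nat_lit 98375) (nat_lit 30) .nil)))) (.g (nat_lit 0) (.e (nat_lit 175267) (nat_lit 0) .nil) .nil)))) (.nd (nat_lit 9) 
(.lf (nat_lit 503196) (.g (nat_lit 3012) (.e (nat_lit 163979) (nat_lit 30) (.e (nat_lit 573491) (nat_lit 15) (.e (nat_lit 81951) (nat_lit 22) (.e (nat_lit 90170) (nat_lit 13) (.e (nat_lit 172039) (nat_lit 0) (.e (nat_lit 3402) (nat_lit 211) (.e (nat_lit 647181) (nat_lit 3) .nil))))))) (.g (nat_lit 1) (.e (nat_lit 174662) (nat_lit 0) .nil) .nil))) 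
(.lf (nat_lit 503708) (.g (nat_lit 3709) (.e (nat_lit 163979) (nat_lit 30) (.e (nat_lit 573493) (nat_lit 15) (.e (nat_lit 81956) (nat_lit 23) (.e (nat_lit 98359) (nat_lit 26) (.e (nat_lit 426380) (nat_lit 15) (.e (nat_lit 2058) (nat_lit 142) (.e (nat_lit 704589) (nat_lit 3) .nil))))))) (.g (nat_lit 1) (.e (nat_lit 176098) (nat_lit 0) .nil) .nil)))))) 
(.nd (nat_lit 7) (.nd (nat_lit 8) (.nd (nat_lit 9) 
(.lf (nat_lit 502876) (.g (nat_lit 3382) (.e (nat_lit 163979) (nat_lit 30) (.e (nat_lit 573489) (nat_lit 14) (.e (nat_lit 73754) (nat_lit 8) (.e (nat_lit 557101) (nat_lit 13) (.e (nat_lit 172065) (nat_lit 3) (.e (nat_lit 204817) (nat_lit 17) (.e (nat_lit 7936) (nat_lit 149) (.e (nat_lit 761897) (nat_lit 15) .nil)))))))) (.g (nat_lit 1) (.e (nat_lit 174022) (nat_lit 0) .nil) .nil))) 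
(.lf (nat_lit 503388) (.g (nat_lit 1437) (.e (nat_lit 163979) (nat_lit 30) (.e (nat_lit 573492) (nat_lit 15) (.e (nat_lit 81956) (nat_lit 23) (.e (nat_lit 98355) (nat_lit 26) .nil)))) (.g (nat_lit 0) (.e (nat_lit 175152) (nat_lit 0) .nil) .nil)))) (.nd (nat_lit 9) 
(.lf (nat_lit 503132) (.g (nat_lit 1496) (.e (nat_lit 163979) (nat_lit 30) (.e (nat_lit 573489) (nat_lit 14) (.e (nat_lit 73755) (nat_lit 8) (.e (nat_lit 557105) (nat_lit 14) .nil)))) (.g (nat_lit 0) (.e (nat_lit 174547) (nat_lit 0) .nil) .nil))) 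
(.lf (nat_lit 503644) (.g (nat_lit 2921) (.e (nat_lit 163979) (nat_lit 30) (.e (nat_lit 573493) (nat_lit 15) (.e (nat_lit 81956) (nat_lit 23) (.e (nat_lit 98356) (nat_lit 26) (.e (nat_lit 426360) (nat_lit 15) .nil))))) (.g (nat_lit 0) (.e (nat_lit 175975) (nat_lit 0) .nil) .nil))))) (.nd (nat_lit 8) (.nd (nat_lit 9) 
(.lf (nat_lit 503004) (.g (nat_lit 3312) (.e (nat_lit 163979) (nat_lit 30) (.e (nat_lit 573489) (nat_lit 14) (.e (nat_lit 73755) (nat_lit 8) (.e (nat_lit 557098) (nat_lit 13) (.e (nat_lit 172131) (nat_lit 15) .nil))))) (.g (nat_lit 0) (.e (nat_lit 174245) (nat_lit 0) .nil) .nil))) 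
(.lf (nat_lit 503516) (.g (nat_lit 3481) (.e (nat_lit 163979) (nat_lit 30) (.e (nat_lit 573493) (nat_lit 15) (.e (nat_lit 81953) (nat_lit 22) (.e (nat_lit 90170) (nat_lit 13) (.e (nat_lit 172045) (nat_lit 0) .nil))))) (.g (nat_lit 0) (.e (nat_lit 175667) (nat_lit 0) .nil) .nil)))) (.nd (nat_lit 9) 
(.lf (nat_lit 503260) (.g (nat_lit 2633) (.e (nat_lit 163979) (nat_lit 30) (.e (nat_lit 573491) (nat_lit 15) (.e (nat_lit 81954) (nat_lit 23) (.e (nat_lit 98356) (nat_lit 26) (.e (nat_lit 426440) (nat_lit 19) (.e (nat_lit 114432) (nat_lit 3) .nil)))))) (.g (nat_lit 1) (.e (nat_lit 174801) (nat_lit 0) .nil) .nil))) 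
(.lf (nat_lit 503772) (.g (nat_lit 4566) (.e (nat_lit 163979) (nat_lit 30) (.e (nat_lit 573493) (nat_lit 15) (.e (nat_lit 81956) (nat_lit 23) (.e (nat_lit 98367) (nat_lit 27) (.e (nat_lit 434272) (nat_lit 38) (.e (nat_lit 655374) (nat_lit 3) .nil)))))) (.g (nat_lit 1) (.e (nat_lit 176247) (nat_lit 0) .nil) .nil))))))) (.nd (nat_lit 6) (.nd (nat_lit 7) (.nd (nat_lit 8) (.nd (nat_lit 9) 
(.lf (nat_lit 502844) (.g (nat_lit 416) (.e (nat_lit 163979) (nat_lit 30) (.e (nat_lit 573489) (nat_lit 14) (.e (nat_lit 73731) (nat_lit 0) .nil))) (.g (nat_lit 0) (.e (nat_lit 173971) (nat_lit 0) .nil) .nil))) 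
(.lf (nat_lit 503356) (.g (nat_lit 4285) (.e (nat_lit 163979) (nat_lit 30) (.e (nat_lit 573492) (nat_lit 15) (.e (nat_lit 81951) (nat_lit 22) (.e (nat_lit 90170) (nat_lit 13) (.e (nat_lit 172043) (nat_lit 0) .nil))))) (.g (nat_lit 0) (.e (nat_lit 175018) (nat_lit 0) .nil) .nil)))) (.nd (nat_lit 9) 
(.lf (nat_lit 503100) (.g (nat_lit 3841) (.e (nat_lit 163979) (nat_lit 30) (.e (nat_lit 573489) (nat_lit 14) (.e (nat_lit 73755) (nat_lit 8) (.e (nat_lit 557104) (nat_lit 14) (.e (nat_lit 180250) (nat_lit 10) (.e (nat_lit 573475) (nat_lit 12) (.e (nat_lit 57504) (nat_lit 38) (.e (nat_lit 638995) (nat_lit 7) .nil)))))))) (.g (nat_lit 1) (.e (nat_lit 174514) (nat_lit 0) .nil) .nil))) 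
(.lf (nat_lit 503612) (.g (nat_lit 2153) (.e (nat_lit 163979) (nat_lit 30) (.e (nat_lit 573493) (nat_lit 15) (.e (nat_lit 81954) (nat_lit 23) (.e (nat_lit 98368) (nat_lit 27) .nil)))) (.g (nat_lit 0) (.e (nat_lit 175883) (nat_lit 0) .nil) .nil))))) (.nd (nat_lit 8) (.nd (nat_lit 9) 
(.lf (nat_lit 502972) (.g (nat_lit 4486) (.e (nat_lit 163979) (nat_lit 30) (.e (nat_lit 573489) (nat_lit 14) (.e (nat_lit 73755) (nat_lit 8) (.e (nat_lit 557098) (nat_lit 13) (.e (nat_lit 172065) (nat_lit 3) (.e (nat_lit 204817) (nat_lit 17) (.e (nat_lit 2272) (nat_lit 149) (.e (nat_lit 761899) (nat_lit 15) .nil)))))))) (.g (nat_lit 1) (.e (nat_lit 174201) (nat_lit 0) .nil) .nil))) 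
(.lf (nat_lit 503484) (.g (nat_lit 4498) (.e (nat_lit 163979) (nat_lit 30) (.e (nat_lit 573493) (nat_lit 15) (.e (nat_lit 81951) (nat_lit 22) (.e (nat_lit 90170) (nat_lit 13) (.e (nat_lit 172070) (nat_lit 4) (.e (nat_lit 229665) (nat_lit 240) (.e (nat_lit 2612) (nat_lit 163) .nil))))))) (.g (nat_lit 1) (.e (nat_lit 175558) (nat_lit 0) .nil) .nil)))) (.nd (nat_lit 9) 
(.lf (nat_lit 503228) (.g (nat_lit 2828) (.e (nat_lit 163979) (nat_lit 30) (.e (nat_lit 573491) (nat_lit 15) (.e (nat_lit 81954) (nat_lit 23) (.e (nat_lit 98356) (nat_lit 26) (.e (nat_lit 426354) (nat_lit 15) (.e (nat_lit 2050) (nat_lit 142) (.e (nat_lit 704589) (nat_lit 3) .nil))))))) (.g (nat_lit 1) (.e (nat_lit 174769) (nat_lit 0) .nil) .nil))) 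
(.lf (nat_lit 503740) (.g (nat_lit 5360) (.e (nat_lit 163979) (nat_lit 30) (.e (nat_lit 573493) (nat_lit 15) (.e (nat_lit 81956) (nat_lit 23) (.e (nat_lit 98365) (nat_lit 26) (.e (nat_lit 426105) (nat_lit 1) (.e (nat_lit 164347) (nat_lit 240) (.e (nat_lit 2610) (nat_lit 163) .nil))))))) (.g (nat_lit 1) (.e (nat_lit 176153) (nat_lit 0) .nil) .nil)))))) 
(.nd (nat_lit 7) (.nd (nat_lit 8) (.nd (nat_lit 9) 
(.lf (nat_lit 502908) (.g (nat_lit 4489) (.e (nat_lit 163979) (nat_lit 30) (.e (nat_lit 573489) (nat_lit 14) (.e (nat_lit 73754) (nat_lit 8) (.e (nat_lit 557105) (nat_lit 14) (.e (nat_lit 180252) (nat_lit 10) (.e (nat_lit 573473) (nat_lit 12) (.e (nat_lit 57504) (nat_lit 38) (.e (nat_lit 638995) (nat_lit 7) .nil)))))))) (.g (nat_lit 1) (.e (nat_lit 174061) (nat_lit 0) .nil) .nil))) 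
(.lf (nat_lit 503420) (.g (nat_lit 3234) (.e (nat_lit 163979) (nat_lit 30) (.e (nat_lit 573492) (nat_lit 15) (.e (nat_lit 81956) (nat_lit 23) (.e (nat_lit 98357) (nat_lit 26) (.e (nat_lit 426444) (nat_lit 19) (.e (nat_lit 114432) (nat_lit 3) .nil)))))) (.g (nat_lit 1) (.e (nat_lit 175232) (nat_lit 0) .nil) .nil)))) (.nd (nat_lit 9) 
(.lf (nat_lit 503164) (.g (nat_lit 4238) (.e (nat_lit 163979) (nat_lit 30) (.e (nat_lit 573489) (nat_lit 14) (.e (nat_lit 73755) (nat_lit 8) (.e (nat_lit 557105) (nat_lit 14) (.e (nat_lit 180252) (nat_lit 10) (.e (nat_lit 573474) (nat_lit 12) (.e (nat_lit 57502) (nat_lit 38) (.e (nat_lit 638996) (nat_lit 7) .nil)))))))) (.g (nat_lit 1) (.e (nat_lit 174589) (nat_lit 0) .nil) .nil))) 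
(.lf (nat_lit 503676) (.g (nat_lit 3319) (.e (nat_lit 163979) (nat_lit 30) (.e (nat_lit 573493) (nat_lit 15) (.e (nat_lit 81956) (nat_lit 23) (.e (nat_lit 98356) (nat_lit 26) (.e (nat_lit 426404) (nat_lit 15) .nil))))) (.g (nat_lit 0) (.e (nat_lit 176014) (nat_lit 0) .nil) .nil))))) (.nd (nat_lit 8) (.nd (nat_lit 9) 
(.lf (nat_lit 503036) (.g (nat_lit 4082) (.e (nat_lit 163979) (nat_lit 30) (.e (nat_lit 573489) (nat_lit 14) (.e (nat_lit 73755) (nat_lit 8) (.e (nat_lit 557103) (nat_lit 14) (.e (nat_lit 180250) (nat_lit 10) (.e (nat_lit 573474) (nat_lit 12) (.e (nat_lit 57504) (nat_lit 38) (.e (nat_lit 638995) (nat_lit 7) .nil)))))))) (.g (nat_lit 1) (.e (nat_lit 174333) (nat_lit 0) .nil) .nil))) 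
(.lf (nat_lit 503548) (.g (nat_lit 3763) (.e (nat_lit 163979) (nat_lit 30) (.e (nat_lit 573493) (nat_lit 15) (.e (nat_lit 81953) (nat_lit 22) (.e (nat_lit 90185) (nat_lit 17) .nil)))) (.g (nat_lit 0) (.e (nat_lit 175766) (nat_lit 0) .nil) .nil)))) (.nd (nat_lit 9) 
(.lf (nat_lit 503292) (.g (nat_lit 2404) (.e (nat_lit 163979) (nat_lit 30) (.e (nat_lit 573491) (nat_lit 15) (.e (nat_lit 81954) (nat_lit 23) (.e (nat_lit 98361) (nat_lit 26) (.e (nat_lit 426025) (nat_lit 0) (.e (nat_lit 3399) (nat_lit 211) (.e (nat_lit 647180) (nat_lit 3) .nil))))))) (.g (nat_lit 1) (.e (nat_lit 174861) (nat_lit 0) .nil) .nil))) 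
(.lf (nat_lit 503804) (.g (nat_lit 2179) (.e (nat_lit 163999) (nat_lit 38) (.e (nat_lit 639017) (nat_lit 15) (.e (nat_lit 57480) (nat_lit 28) (.e (nat_lit 557102) (nat_lit 14) .nil)))) (.g (nat_lit 0) (.e (nat_lit 176402) (nat_lit 0) .nil) .nil))))))))))) (.nd (nat_lit 2) (.nd (nat_lit 3) (.nd (nat_lit 4) (.nd (nat_lit 5) (.nd (nat_lit 6) (.nd (nat_lit 7) (.nd (nat_lit 8) (.nd (nat_lit 9) 
(.lf (nat_lit 502786) (.g (nat_lit 4230) (.e (nat_lit 163979) (nat_lit 30) (.e (nat_lit 573488) (nat_lit 14) (.e (nat_lit 73754) (nat_lit 8) (.e (nat_lit 557105) (nat_lit 14) (.e (nat_lit 180252) (nat_lit 10) (.e (nat_lit 573473) (nat_lit 12) (.e (nat_lit 57503) (nat_lit 38) (.e (nat_lit 638995) (nat_lit 7) .nil)))))))) (.g (nat_lit 1) (.e (nat_lit 173911) (nat_lit 0) .nil) .nil))) 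
(.lf (nat_lit 503298) (.g (nat_lit 2413) (.e (nat_lit 163979) (nat_lit 30) (.e (nat_lit 573491) (nat_lit 15) (.e (nat_lit 81954) (nat_lit 23) (.e (nat_lit 98365) (nat_lit 26) (.e (nat_lit 426387) (nat_lit 15) .nil))))) (.g (nat_lit 0) (.e (nat_lit 174876) (nat_lit 0) .nil) .nil)))) (.nd (nat_lit 9) 
(.lf (nat_lit 503042) (.g (nat_lit 3442) (.e (nat_lit 163979) (nat_lit 30) (.e (nat_lit 573489) (nat_lit 14) (.e (nat_lit 73755) (nat_lit 8) (.e (nat_lit 557103) (nat_lit 14) (.e (nat_lit 180250) (nat_lit 10) (.e (nat_lit 573475) (nat_lit 12) (.e (nat_lit 57502) (nat_lit 38) (.e (nat_lit 638996) (nat_lit 7) .nil)))))))) (.g (nat_lit 1) (.e (nat_lit 174339) (nat_lit 0) .nil) .nil))) 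
(.lf (nat_lit 503554) (.g (nat_lit 571) (.e (nat_lit 163979) (nat_lit 30) (.e (nat_lit 573493) (nat_lit 15) (.e (nat_lit 81954) (nat_lit 23) .nil))) (.g (nat_lit 0) (.e (nat_lit 175783) (nat_lit 0) .nil) .nil))))) (.nd (nat_lit 8) (.nd (nat_lit 9) 
(.lf (nat_lit 502914) (.g (nat_lit 4407) (.e (nat_lit 163979) (nat_lit 30) (.e (nat_lit 573489) (nat_lit 14) (.e (nat_lit 73754) (nat_lit 8) (.e (nat_lit 557105) (nat_lit 14) (.e (nat_lit 180252) (nat_lit 10) (.e (nat_lit 573475) (nat_lit 12) (.e (nat_lit 57501) (nat_lit 37) (.e (nat_lit 630800) (nat_lit 7) .nil)))))))) (.g (nat_lit 1) (.e (nat_lit 174067) (nat_lit 0) .nil) .nil))) 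
(.lf (nat_lit 503426) (.g (nat_lit 2951) (.e (nat_lit 163979) (nat_lit 30) (.e (nat_lit 573492) (nat_lit 15) (.e (nat_lit 81956) (nat_lit 23) (.e (nat_lit 98360) (nat_lit 26) .nil)))) (.g (nat_lit 0) (.e (nat_lit 175239) (nat_lit 0) .nil) .nil)))) (.nd (nat_lit 9) 
(.lf (nat_lit 503170) (.g (nat_lit 4697) (.e (nat_lit 163979) (nat_lit 30) (.e (nat_lit 573489) (nat_lit 14) (.e (nat_lit 73755) (nat_lit 8) (.e (nat_lit 557105) (nat_lit 14) (.e (nat_lit 180252) (nat_lit 10) (.e (nat_lit 573475) (nat_lit 12) (.e (nat_lit 57501) (nat_lit 37) (.e (nat_lit 630799) (nat_lit 7) .nil)))))))) (.g (nat_lit 1) (.e (nat_lit 174595) (nat_lit 0) .nil) .nil))) 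
(.lf (nat_lit 503682) (.g (nat_lit 3300) (.e (nat_lit 163979) (nat_lit 30) (.e (nat_lit 573493) (nat_lit 15) (.e (nat_lit 81956) (nat_lit 23) (.e (nat_lit 98356) (nat_lit 26) (.e (nat_lit 433920) (nat_lit 19) (.e (nat_lit 114432) (nat_lit 3) .nil)))))) (.g (nat_lit 1) (.e (nat_lit 176021) (nat_lit 0) .nil) .nil)))))) (.nd (nat_lit 7) (.nd (nat_lit 8) (.nd (nat_lit 9) 
(.lf (nat_lit 502850) (.g (nat_lit 3127) (.e (nat_lit 163979) (nat_lit 30) (.e (nat_lit 573489) (nat_lit 14) (.e (nat_lit 73753) (nat_lit 8) (.e (nat_lit 557105) (nat_lit 14) (.e (nat_lit 180252) (nat_lit 10) (.e (nat_lit 573473) (nat_lit 12) (.e (nat_lit 57503) (nat_lit 38) (.e (nat_lit 638995) (nat_lit 7) .nil)))))))) (.g (nat_lit 1) (.e (nat_lit 173981) (nat_lit 0) .nil) .nil))) 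
(.lf (nat_lit 503362) (.g (nat_lit 5329) (.e (nat_lit 163979) (nat_lit 30) (.e (nat_lit 573492) (nat_lit 15) (.e (nat_lit 81953) (nat_lit 22) (.e (nat_lit 90166) (nat_lit 13) .nil)))) (.g (nat_lit 0) (.e (nat_lit 175041) (nat_lit 0) .nil) .nil)))) (.nd (nat_lit 9) 
(.lf (nat_lit 503106) (.g (nat_lit 3524) (.e (nat_lit 163979) (nat_lit 30) (.e (nat_lit 573489) (nat_lit 14) (.e (nat_lit 73755) (nat_lit 8) (.e (nat_lit 557104) (nat_lit 14) (.e (nat_lit 180251) (nat_lit 10) (.e (nat_lit 573477) (nat_lit 12) (.e (nat_lit 57502) (nat_lit 38) (.e (nat_lit 638995) (nat_lit 7) .nil)))))))) (.g (nat_lit 1) (.e (nat_lit 174520) (nat_lit 0) .nil) .nil))) 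
(.lf (nat_lit 503618) (.g (nat_lit 4975) (.e (nat_lit 163979) (nat_lit 30) (.e (nat_lit 573493) (nat_lit 15) (.e (nat_lit 81954) (nat_lit 23) (.e (nat_lit 98384) (nat_lit 32) (.e (nat_lit 475198) (nat_lit 40) (.e (nat_lit 704589) (nat_lit 3) .nil)))))) (.g (nat_lit 1) (.e (nat_lit 175892) (nat_lit 0) .nil) .nil))))) (.nd (nat_lit 8) (.nd (nat_lit 9) 
(.lf (nat_lit 502978) (.g (nat_lit 3887) (.e (nat_lit 163979) (nat_lit 30) (.e (nat_lit 573489) (nat_lit 14) (.e (nat_lit 73755) (nat_lit 8) (.e (nat_lit 557098) (nat_lit 13) (.e (nat_lit 172065) (nat_lit 3) (.e (nat_lit 204821) (nat_lit 17) (.e (nat_lit 2270) (nat_lit 149) (.e (nat_lit 761899) (nat_lit 15) .nil)))))))) (.g (nat_lit 1) (.e (nat_lit 174207) (nat_lit 0) .nil) .nil))) 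
(.lf (nat_lit 503490) (.g (nat_lit 4294) (.e (nat_lit 163979) (nat_lit 30) (.e (nat_lit 573493) (nat_lit 15) (.e (nat_lit 81951) (nat_lit 22) (.e (nat_lit 90170) (nat_lit 13) (.e (nat_lit 172138) (nat_lit 15) (.e (nat_lit 2057) (nat_lit 142) (.e (nat_lit 704589) (nat_lit 3) .nil))))))) (.g (nat_lit 1) (.e (nat_lit 175565) (nat_lit 0) .nil) .nil)))) (.nd (nat_lit 9) 
(.lf (nat_lit 503234) (.g (nat_lit 2916) (.e (nat_lit 163979) (nat_lit 30) (.e (nat_lit 573491) (nat_lit 15) (.e (nat_lit 81954) (nat_lit 23) (.e (nat_lit 98356) (nat_lit 26) (.e (nat_lit 426360) (nat_lit 15) (.e (nat_lit 2063) (nat_lit 142) (.e (nat_lit 704589) (nat_lit 3) .nil))))))) (.g (nat_lit 1) (.e (nat_lit 174775) (nat_lit 0) .nil) .nil))) 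
(.lf (nat_lit 503746) (.g (nat_lit 1578) (.e (nat_lit 163979) (nat_lit 30) (.e (nat_lit 573493) (nat_lit 15) (.e (nat_lit 81956) (nat_lit 23) (.e (nat_lit 98366) (nat_lit 27) .nil)))) (.g (nat_lit 0) (.e (nat_lit 176167) (nat_lit 0) .nil) .nil))))))) (.nd (nat_lit 6) (.nd (nat_lit 7) (.nd (nat_lit 8) (.nd (nat_lit 9) 
(.lf (nat_lit 502818) (.g (nat_lit 2089) (.e (nat_lit 163979) (nat_lit 30) (.e (nat_lit 573488) (nat_lit 14) (.e (nat_lit 73755) (nat_lit 8) (.e (nat_lit 557104) (nat_lit 14) (.e (nat_lit 180252) (nat_lit 10) .nil))))) (.g (nat_lit 0) (.e (nat_lit 173945) (nat_lit 0) .nil) .nil))) 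
(.lf (nat_lit 503330) (.g (nat_lit 2989) (.e (nat_lit 163979) (nat_lit 30) (.e (nat_lit 573491) (nat_lit 15) (.e (nat_lit 81955) (nat_lit 23) (.e (nat_lit 98358) (nat_lit 26) (.e (nat_lit 426444) (nat_lit 19) (.e (nat_lit 114432) (nat_lit 3) .nil)))))) (.g (nat_lit 1) (.e (nat_lit 174936) (nat_lit 0) .nil) .nil)))) (.nd (nat_lit 9) 
(.lf (nat_lit 503074) (.g (nat_lit 3062) (.e (nat_lit 163979) (nat_lit 30) (.e (nat_lit 573489) (nat_lit 14) (.e (nat_lit 73755) (nat_lit 8) (.e (nat_lit 557104) (nat_lit 14) (.e (nat_lit 180244) (nat_lit 5) (.e (nat_lit 532484) (nat_lit 0) (.e (nat_lit 2271) (nat_lit 149) (.e (nat_lit 761899) (nat_lit 15) .nil)))))))) (.g (nat_lit 1) (.e (nat_lit 174398) (nat_lit 0) .nil) .nil))) 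
(.lf (nat_lit 503586) (.g (nat_lit 3962) (.e (nat_lit 163979) (nat_lit 30) (.e (nat_lit 573493) (nat_lit 15) (.e (nat_lit 81954) (nat_lit 23) (.e (nat_lit 98359) (nat_lit 26) (.e (nat_lit 426025) (nat_lit 0) (.e (nat_lit 3397) (nat_lit 211) (.e (nat_lit 647180) (nat_lit 3) .nil))))))) (.g (nat_lit 1) (.e (nat_lit 175822) (nat_lit 0) .nil) .nil))))) (.nd (nat_lit 8) (.nd (nat_lit 9) 
(.lf (nat_lit 502946) (.g (nat_lit 2478) (.e (nat_lit 163979) (nat_lit 30) (.e (nat_lit 573489) (nat_lit 14) (.e (nat_lit 73755) (nat_lit 8) (.e (nat_lit 557097) (nat_lit 13) (.e (nat_lit 172066) (nat_lit 3) (.e (nat_lit 204817) (nat_lit 17) (.e (nat_lit 7936) (nat_lit 149) (.e (nat_lit 761893) (nat_lit 15) .nil)))))))) (.g (nat_lit 1) (.e (nat_lit 174134) (nat_lit 0) .nil) .nil))) 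
(.lf (nat_lit 503458) (.g (nat_lit 3764) (.e (nat_lit 163979) (nat_lit 30) (.e (nat_lit 573492) (nat_lit 15) (.e (nat_lit 81956) (nat_lit 23) (.e (nat_lit 98385) (nat_lit 32) (.e (nat_lit 475197) (nat_lit 40) (.e (nat_lit 704589) (nat_lit 3) .nil)))))) (.g (nat_lit 1) (.e (nat_lit 175350) (nat_lit 0) .nil) .nil)))) (.nd (nat_lit 9) 
(.lf (nat_lit 503202) (.g (nat_lit 1923) (.e (nat_lit 163979) (nat_lit 30) (.e (nat_lit 573491) (nat_lit 15) (.e (nat_lit 81951) (nat_lit 22) (.e (nat_lit 90170) (nat_lit 13) (.e (nat_lit 172049) (nat_lit 0) .nil))))) (.g (nat_lit 0) (.e (nat_lit 174682) (nat_lit 0) .nil) .nil))) 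
(.lf (nat_lit 503714) (.g (nat_lit 3135) (.e (nat_lit 163979) (nat_lit 30) (.e (nat_lit 573493) (nat_lit 15) (.e (nat_lit 81956) (nat_lit 23) (.e (nat_lit 98359) (nat_lit 26) (.e (nat_lit 433920) (nat_lit 19) (.e (nat_lit 114432) (nat_lit 3) .nil)))))) (.g (nat_lit 1) (.e (nat_lit 176106) (nat_lit 0) .nil) .nil)))))) (.nd (nat_lit 7) (.nd (nat_lit 8) (.nd (nat_lit 9) 
(.lf (nat_lit 502882) (.g (nat_lit 2092) (.e (nat_lit 163979) (nat_lit 30) (.e (nat_lit 573489) (nat_lit 14) (.e (nat_lit 73754) (nat_lit 8) (.e (nat_lit 557103) (nat_lit 14) .nil)))) (.g (nat_lit 0) (.e (nat_lit 174033) (nat_lit 0) .nil) .nil))) 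
(.lf (nat_lit 503394) (.g (nat_lit 1880) (.e (nat_lit 163979) (nat_lit 30) (.e (nat_lit 573492) (nat_lit 15) (.e (nat_lit 81956) (nat_lit 23) (.e (nat_lit 98356) (nat_lit 26) .nil)))) (.g (nat_lit 0) (.e (nat_lit 175161) (nat_lit 0) .nil) .nil)))) (.nd (nat_lit 9) 
(.lf (nat_lit 503138) (.g (nat_lit 2549) (.e (nat_lit 163979) (nat_lit 30) (.e (nat_lit 573489) (nat_lit 14) (.e (nat_lit 73755) (nat_lit 8) (.e (nat_lit 557105) (nat_lit 14) (.e (nat_lit 180251) (nat_lit 10) (.e (nat_lit 573473) (nat_lit 12) (.e (nat_lit 57504) (nat_lit 38) (.e (nat_lit 638995) (nat_lit 7) .nil)))))))) (.g (nat_lit 1) (.e (nat_lit 174554) (nat_lit 0) .nil) .nil))) 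
(.lf (nat_lit 503650) (.g (nat_lit 3396) (.e (nat_lit 163979) (nat_lit 30) (.e (nat_lit 573493) (nat_lit 15) (.e (nat_lit 81956) (nat_lit 23) (.e (nat_lit 98356) (nat_lit 26) (.e (nat_lit 426360) (nat_lit 15) (.e (nat_lit 2055) (nat_lit 142) (.e (nat_lit 704589) (nat_lit 3) .nil))))))) (.g (nat_lit 1) (.e (nat_lit 175981) (nat_lit 0) .nil) .nil))))) (.nd (nat_lit 8) (.nd (nat_lit 9) 
(.lf (nat_lit 503010) (.g (nat_lit 2887) (.e (nat_lit 163979) (nat_lit 30) (.e (nat_lit 573489) (nat_lit 14) (.e (nat_lit 73755) (nat_lit 8) (.e (nat_lit 557103) (nat_lit 14) (.e (nat_lit 180243) (nat_lit 5) (.e (nat_lit 532484) (nat_lit 0) (.e (nat_lit 2272) (nat_lit 149) (.e (nat_lit 761899) (nat_lit 15) .nil)))))))) (.g (nat_lit 1) (.e (nat_lit 174266) (nat_lit 0) .nil) .nil))) 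
(.lf (nat_lit 503522) (.g (nat_lit 2124) (.e (nat_lit 163979) (nat_lit 30) (.e (nat_lit 573493) (nat_lit 15) (.e (nat_lit 81953) (nat_lit 22) (.e (nat_lit 90170) (nat_lit 13) (.e (nat_lit 172049) (nat_lit 0) .nil))))) (.g (nat_lit 0) (.e (nat_lit 175683) (nat_lit 0) .nil) .nil)))) (.nd (nat_lit 9) 
(.lf (nat_lit 503266) (.g (nat_lit 2678) (.e (nat_lit 163979) (nat_lit 30) (.e (nat_lit 573491) (nat_lit 15) (.e (nat_lit 81954) (nat_lit 23) (.e (nat_lit 98358) (nat_lit 26) (.e (nat_lit 426112) (nat_lit 1) .nil))))) (.g (nat_lit 0) (.e (nat_lit 174812) (nat_lit 0) .nil) .nil))) 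
(.lf (nat_lit 503778) (.g (nat_lit 2920) (.e (nat_lit 163979) (nat_lit 30) (.e (nat_lit 573493) (nat_lit 15) (.e (nat_lit 81956) (nat_lit 23) (.e (nat_lit 98368) (nat_lit 27) (.e (nat_lit 434270) (nat_lit 38) .nil))))) (.g (nat_lit 0) (.e (nat_lit 176309) (nat_lit 0) .nil) .nil)))))))) (.nd (nat_lit 5) (.nd (nat_lit 6) (.nd (nat_lit 7) (.nd (nat_lit 8) (.nd (nat_lit 9) 
(.lf (nat_lit 502802) (.g (nat_lit 4681) (.e (nat_lit 163979) (nat_lit 30) (.e (nat_lit 573488) (nat_lit 14) (.e (nat_lit 73755) (nat_lit 8) (.e (nat_lit 557103) (nat_lit 14) (.e (nat_lit 180250) (nat_lit 10) (.e (nat_lit 573475) (nat_lit 12) (.e (nat_lit 57504) (nat_lit 38) (.e (nat_lit 638995) (nat_lit 7) .nil)))))))) (.g (nat_lit 1) (.e (nat_lit 173929) (nat_lit 0) .nil) .nil))) 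
(.lf (nat_lit 503314) (.g (nat_lit 4097) (.e (nat_lit 163979) (nat_lit 30) (.e (nat_lit 573491) (nat_lit 15) (.e (nat_lit 81954) (nat_lit 23) (.e (nat_lit 98384) (nat_lit 32) (.e (nat_lit 475199) (nat_lit 40) (.e (nat_lit 704589) (nat_lit 3) .nil)))))) (.g (nat_lit 1) (.e (nat_lit 174920) (nat_lit 0) .nil) .nil)))) (.nd (nat_lit 9) 
(.lf (nat_lit 503058) (.g (nat_lit 3294) (.e (nat_lit 163979) (nat_lit 30) (.e (nat_lit 573489) (nat_lit 14) (.e (nat_lit 73755) (nat_lit 8) (.e (nat_lit 557103) (nat_lit 14) (.e (nat_lit 180252) (nat_lit 10) (.e (nat_lit 573475) (nat_lit 12) (.e (nat_lit 57503) (nat_lit 38) (.e (nat_lit 638996) (nat_lit 7) .nil)))))))) (.g (nat_lit 1) (.e (nat_lit 174355) (nat_lit 0) .nil) .nil))) 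
(.lf (nat_lit 503570) (.g (nat_lit 3747) (.e (nat_lit 163979) (nat_lit 30) (.e (nat_lit 573493) (nat_lit 15) (.e (nat_lit 81954) (nat_lit 23) (.e (nat_lit 98356) (nat_lit 26) (.e (nat_lit 426393) (nat_lit 15) .nil))))) (.g (nat_lit 0) (.e (nat_lit 175803) (nat_lit 0) .nil) .nil))))) (.nd (nat_lit 8) (.nd (nat_lit 9) 
(.lf (nat_lit 502930) (.g (nat_lit 902) (.e (nat_lit 163979) (nat_lit 30) (.e (nat_lit 573489) (nat_lit 14) (.e (nat_lit 73755) (nat_lit 8) (.e (nat_lit 557097) (nat_lit 13) .nil)))) (.g (nat_lit 0) (.e (nat_lit 174106) (nat_lit 0) .nil) .nil))) 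
(.lf (nat_lit 503442) (.g (nat_lit 5122) (.e (nat_lit 163979) (nat_lit 30) (.e (nat_lit 573492) (nat_lit 15) (.e (nat_lit 81956) (nat_lit 23) (.e (nat_lit 98365) (nat_lit 26) (.e (nat_lit 426098) (nat_lit 1) .nil))))) (.g (nat_lit 0) (.e (nat_lit 175256) (nat_lit 0) .nil) .nil)))) (.nd (nat_lit 9) 
(.lf (nat_lit 503186) (.g (nat_lit 1755) (.e (nat_lit 163979) (nat_lit 30) (.e (nat_lit 573491) (nat_lit 15) (.e (nat_lit 81951) (nat_lit 22) (.e (nat_lit 90169) (nat_lit 13) .nil)))) (.g (nat_lit 0) (.e (nat_lit 174640) (nat_lit 0) .nil) .nil))) 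
(.lf (nat_lit 503698) (.g (nat_lit 3410) (.e (nat_lit 163979) (nat_lit 30) (.e (nat_lit 573493) (nat_lit 15) (.e (nat_lit 81956) (nat_lit 23) (.e (nat_lit 98359) (nat_lit 26) (.e (nat_lit 426023) (nat_lit 0) (.e (nat_lit 3401) (nat_lit 211) (.e (nat_lit 647180) (nat_lit 3) .nil))))))) (.g (nat_lit 1) (.e (nat_lit 176047) (nat_lit 0) .nil) .nil)))))) 
(.nd (nat_lit 7) (.nd (nat_lit 8) (.nd (nat_lit 9) 
(.lf (nat_lit 502866) (.g (nat_lit 3435) (.e (nat_lit 163979) (nat_lit 30) (.e (nat_lit 573489) (nat_lit 14) (.e (nat_lit 73754) (nat_lit 8) (.e (nat_lit 557100) (nat_lit 13) (.e (nat_lit 172067) (nat_lit 3) (.e (nat_lit 204815) (nat_lit 17) (.e (nat_lit 2271) (nat_lit 149) (.e (nat_lit 761898) (nat_lit 15) .nil)))))))) (.g (nat_lit 1) (.e (nat_lit 174002) (nat_lit 0) .nil) .nil))) 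
(.lf (nat_lit 503378) (.g (nat_lit 3466) (.e (nat_lit 163979) (nat_lit 30) (.e (nat_lit 573492) (nat_lit 15) (.e (nat_lit 81954) (nat_lit 23) (.e (nat_lit 98359) (nat_lit 26) (.e (nat_lit 426042) (nat_lit 0) .nil))))) (.g (nat_lit 0) (.e (nat_lit 175060) (nat_lit 0) .nil) .nil)))) (.nd (nat_lit 9) 
(.lf (nat_lit 503122) (.g (nat_lit 4260) (.e (nat_lit 163979) (nat_lit 30) (.e (nat_lit 573489) (nat_lit 14) (.e (nat_lit 73755) (nat_lit 8) (.e (nat_lit 557104) (nat_lit 14) (.e (nat_lit 180252) (nat_lit 10) (.e (nat_lit 573475) (nat_lit 12) (.e (nat_lit 57500) (nat_lit 37) (.e (nat_lit 630799) (nat_lit 7) .nil)))))))) (.g (nat_lit 1) (.e (nat_lit 174537) (nat_lit 0) .nil) .nil))) 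
(.lf (nat_lit 503634) (.g (nat_lit 2405) (.e (nat_lit 163979) (nat_lit 30) (.e (nat_lit 573493) (nat_lit 15) (.e (nat_lit 81956) (nat_lit 23) (.e (nat_lit 98355) (nat_lit 26) (.e (nat_lit 426112) (nat_lit 1) .nil))))) (.g (nat_lit 0) (.e (nat_lit 175951) (nat_lit 0) .nil) .nil))))) (.nd (nat_lit 8) (.nd (nat_lit 9) 
(.lf (nat_lit 502994) (.g (nat_lit 3932) (.e (nat_lit 163979) (nat_lit 30) (.e (nat_lit 573489) (nat_lit 14) (.e (nat_lit 73755) (nat_lit 8) (.e (nat_lit 557098) (nat_lit 13) (.e (nat_lit 172067) (nat_lit 3) (.e (nat_lit 204817) (nat_lit 17) (.e (nat_lit 2272) (nat_lit 149) (.e (nat_lit 761897) (nat_lit 15) .nil)))))))) (.g (nat_lit 1) (.e (nat_lit 174230) (nat_lit 0) .nil) .nil))) 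
(.lf (nat_lit 503506) (.g (nat_lit 2878) (.e (nat_lit 163979) (nat_lit 30) (.e (nat_lit 573493) (nat_lit 15) (.e (nat_lit 81953) (nat_lit 22) (.e (nat_lit 90170) (nat_lit 13) (.e (nat_lit 172038) (nat_lit 0) .nil))))) (.g (nat_lit 0) (.e (nat_lit 175652) (nat_lit 0) .nil) .nil)))) (.nd (nat_lit 9) 
(.lf (nat_lit 503250) (.g (nat_lit 2364) (.e (nat_lit 163979) (nat_lit 30) (.e (nat_lit 573491) (nat_lit 15) (.e (nat_lit 81954) (nat_lit 23) (.e (nat_lit 98356) (nat_lit 26) (.e (nat_lit 426418) (nat_lit 15) .nil))))) (.g (nat_lit 0) (.e (nat_lit 174791) (nat_lit 0) .nil) .nil))) 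
(.lf (nat_lit 503762) (.g (nat_lit 3215) (.e (nat_lit 163979) (nat_lit 30) (.e (nat_lit 573493) (nat_lit 15) (.e (nat_lit 81956) (nat_lit 23) (.e (nat_lit 98367) (nat_lit 27) (.e (nat_lit 434211) (nat_lit 18) (.e (nat_lit 5543) (nat_lit 306) (.e (nat_lit 2610) (nat_lit 163) .nil))))))) (.g (nat_lit 1) (.e (nat_lit 176229) (nat_lit 0) .nil) .nil))))))) 
(.nd (nat_lit 6) (.nd (nat_lit 7) (.nd (nat_lit 8) (.nd (nat_lit 9) 
(.lf (nat_lit 502834) (.g (nat_lit 2511) (.e (nat_lit 163979) (nat_lit 30) (.e (nat_lit 573488) (nat_lit 14) (.e (nat_lit 73755) (nat_lit 8) (.e (nat_lit 557105) (nat_lit 14) (.e (nat_lit 180252) (nat_lit 10) (.e (nat_lit 573473) (nat_lit 12) (.e (nat_lit 57504) (nat_lit 38) (.e (nat_lit 638996) (nat_lit 7) .nil)))))))) (.g (nat_lit 1) (.e (nat_lit 173961) (nat_lit 0) .nil) .nil))) 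
(.lf (nat_lit 503346) (.g (nat_lit 1036) (.e (nat_lit 163979) (nat_lit 30) (.e (nat_lit 573491) (nat_lit 15) (.e (nat_lit 81956) (nat_lit 23) (.e (nat_lit 98367) (nat_lit 27) .nil)))) (.g (nat_lit 0) (.e (nat_lit 174952) (nat_lit 0) .nil) .nil)))) (.nd (nat_lit 9) 
(.lf (nat_lit 503090) (.g (nat_lit 2785) (.e (nat_lit 163979) (nat_lit 30) (.e (nat_lit 573489) (nat_lit 14) (.e (nat_lit 73755) (nat_lit 8) (.e (nat_lit 557104) (nat_lit 14) (.e (nat_lit 180245) (nat_lit 5) (.e (nat_lit 532484) (nat_lit 0) (.e (nat_lit 7936) (nat_lit 149) (.e (nat_lit 761898) (nat_lit 15) .nil)))))))) (.g (nat_lit 1) (.e (nat_lit 174480) (nat_lit 0) .nil) .nil))) 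
(.lf (nat_lit 503602) (.g (nat_lit 3674) (.e (nat_lit 163979) (nat_lit 30) (.e (nat_lit 573493) (nat_lit 15) (.e (nat_lit 81954) (nat_lit 23) (.e (nat_lit 98366) (nat_lit 27) (.e (nat_lit 434272) (nat_lit 38) (.e (nat_lit 655373) (nat_lit 3) .nil)))))) (.g (nat_lit 1) (.e (nat_lit 175867) (nat_lit 0) .nil) .nil))))) (.nd (nat_lit 8) (.nd (nat_lit 9) 
(.lf (nat_lit 502962) (.g (nat_lit 2950) (.e (nat_lit 163979) (nat_lit 30) (.e (nat_lit 573489) (nat_lit 14) (.e (nat_lit 73755) (nat_lit 8) (.e (nat_lit 557097) (nat_lit 13) (.e (nat_lit 172067) (nat_lit 3) (.e (nat_lit 204817) (nat_lit 17) (.e (nat_lit 7936) (nat_lit 149) (.e (nat_lit 761893) (nat_lit 15) .nil)))))))) (.g (nat_lit 1) (.e (nat_lit 174165) (nat_lit 0) .nil) .nil))) 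
(.lf (nat_lit 503474) (.g (nat_lit 4541) (.e (nat_lit 163979) (nat_lit 30) (.e (nat_lit 573493) (nat_lit 15) (.e (nat_lit 81951) (nat_lit 22) (.e (nat_lit 90170) (nat_lit 13) (.e (nat_lit 172046) (nat_lit 0) (.e (nat_lit 2458) (nat_lit 157) (.e (nat_lit 5547) (nat_lit 306) (.e (nat_lit 2610) (nat_lit 163) .nil)))))))) (.g (nat_lit 1) (.e (nat_lit 175527) (nat_lit 0) .nil) .nil)))) 
(.nd (nat_lit 9) 
(.lf (nat_lit 503218) (.g (nat_lit 1704) (.e (nat_lit 163979) (nat_lit 30) (.e (nat_lit 573491) (nat_lit 15) (.e (nat_lit 81951) (nat_lit 22) (.e (nat_lit 90185) (nat_lit 17) .nil)))) (.g (nat_lit 0) (.e (nat_lit 174742) (nat_lit 0) .nil) .nil))) 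
(.lf (nat_lit 503730) (.g (nat_lit 2090) (.e (nat_lit 163979) (nat_lit 30) (.e (nat_lit 573493) (nat_lit 15) (.e (nat_lit 81956) (nat_lit 23) (.e (nat_lit 98363) (nat_lit 26) .nil)))) (.g (nat_lit 0) (.e (nat_lit 176133) (nat_lit 0) .nil) .nil)))))) (.nd (nat_lit 7) (.nd (nat_lit 8) (.nd (nat_lit 9) 
(.lf (nat_lit 502898) (.g (nat_lit 3034) (.e (nat_lit 163979) (nat_lit 30) (.e (nat_lit 573489) (nat_lit 14) (.e (nat_lit 73754) (nat_lit 8) (.e (nat_lit 557105) (nat_lit 14) (.e (nat_lit 180251) (nat_lit 10) (.e (nat_lit 573478) (nat_lit 12) (.e (nat_lit 57500) (nat_lit 37) (.e (nat_lit 630800) (nat_lit 7) .nil)))))))) (.g (nat_lit 1) (.e (nat_lit 174051) (nat_lit 0) .nil) .nil))) 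
(.lf (nat_lit 503410) (.g (nat_lit 3845) (.e (nat_lit 163979) (nat_lit 30) (.e (nat_lit 573492) (nat_lit 15) (.e (nat_lit 81956) (nat_lit 23) (.e (nat_lit 98356) (nat_lit 26) (.e (nat_lit 426379) (nat_lit 15) (.e (nat_lit 2058) (nat_lit 142) (.e (nat_lit 704589) (nat_lit 3) .nil))))))) (.g (nat_lit 1) (.e (nat_lit 175213) (nat_lit 0) .nil) .nil)))) (.nd (nat_lit 9) 
(.lf (nat_lit 503154) (.g (nat_lit 3854) (.e (nat_lit 163979) (nat_lit 30) (.e (nat_lit 573489) (nat_lit 14) (.e (nat_lit 73755) (nat_lit 8) (.e (nat_lit 557105) (nat_lit 14) (.e (nat_lit 180252) (nat_lit 10) (.e (nat_lit 573473) (nat_lit 12) (.e (nat_lit 57503) (nat_lit 38) (.e (nat_lit 638994) (nat_lit 7) .nil)))))))) (.g (nat_lit 1) (.e (nat_lit 174579) (nat_lit 0) .nil) .nil))) 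
(.lf (nat_lit 503666) (.g (nat_lit 3486) (.e (nat_lit 163979) (nat_lit 30) (.e (nat_lit 573493) (nat_lit 15) (.e (nat_lit 81956) (nat_lit 23) (.e (nat_lit 98356) (nat_lit 26) (.e (nat_lit 426379) (nat_lit 15) (.e (nat_lit 2056) (nat_lit 142) (.e (nat_lit 704589) (nat_lit 3) .nil))))))) (.g (nat_lit 1) (.e (nat_lit 176002) (nat_lit 0) .nil) .nil))))) (.nd (nat_lit 8) (.nd (nat_lit 9) 
(.lf (nat_lit 503026) (.g (nat_lit 4997) (.e (nat_lit 163979) (nat_lit 30) (.e (nat_lit 573489) (nat_lit 14) (.e (nat_lit 73755) (nat_lit 8) (.e (nat_lit 557103) (nat_lit 14) (.e (nat_lit 180250) (nat_lit 10) (.e (nat_lit 573473) (nat_lit 12) (.e (nat_lit 57504) (nat_lit 38) (.e (nat_lit 638995) (nat_lit 7) .nil)))))))) (.g (nat_lit 1) (.e (nat_lit 174323) (nat_lit 0) .nil) .nil))) 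
(.lf (nat_lit 503538) (.g (nat_lit 3970) (.e (nat_lit 163979) (nat_lit 30) (.e (nat_lit 573493) (nat_lit 15) (.e (nat_lit 81953) (nat_lit 22) (.e (nat_lit 90170) (nat_lit 13) (.e (nat_lit 172137) (nat_lit 15) (.e (nat_lit 2057) (nat_lit 142) (.e (nat_lit 704589) (nat_lit 3) .nil))))))) (.g (nat_lit 1) (.e (nat_lit 175729) (nat_lit 0) .nil) .nil)))) (.nd (nat_lit 9) 
(.lf (nat_lit 503282) (.g (nat_lit 2825) (.e (nat_lit 163979) (nat_lit 30) (.e (nat_lit 573491) (nat_lit 15) (.e (nat_lit 81954) (nat_lit 23) (.e (nat_lit 98359) (nat_lit 26) (.e (nat_lit 426023) (nat_lit 0) (.e (nat_lit 3402) (nat_lit 211) (.e (nat_lit 647180) (nat_lit 3) .nil))))))) (.g (nat_lit 1) (.e (nat_lit 174829) (nat_lit 0) .nil) .nil))) 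
(.lf (nat_lit 503794) (.g (nat_lit 2087) (.e (nat_lit 163979) (nat_lit 30) (.e (nat_lit 573493) (nat_lit 15) (.e (nat_lit 81956) (nat_lit 23) (.e (nat_lit 98386) (nat_lit 32) .nil)))) (.g (nat_lit 0) (.e (nat_lit 176345) (nat_lit 0) .nil) .nil))))))))) (.nd (nat_lit 4) (.nd (nat_lit 5) (.nd (nat_lit 6) (.nd (nat_lit 7) (.nd (nat_lit 8) (.nd (nat_lit 9) 
(.lf (nat_lit 502794) (.g (nat_lit 1391) (.e (nat_lit 163979) (nat_lit 30) (.e (nat_lit 573488) (nat_lit 14) (.e (nat_lit 73755) (nat_lit 8) (.e (nat_lit 557103) (nat_lit 14) .nil)))) (.g (nat_lit 0) (.e (nat_lit 173921) (nat_lit 0) .nil) .nil))) 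
(.lf (nat_lit 503306) (.g (nat_lit 2432) (.e (nat_lit 163979) (nat_lit 30) (.e (nat_lit 573491) (nat_lit 15) (.e (nat_lit 81954) (nat_lit 23) (.e (nat_lit 98367) (nat_lit 27) (.e (nat_lit 434270) (nat_lit 38) (.e (nat_lit 655375) (nat_lit 3) .nil)))))) (.g (nat_lit 1) (.e (nat_lit 174906) (nat_lit 0) .nil) .nil)))) (.nd (nat_lit 9) 
(.lf (nat_lit 503050) (.g (nat_lit 4047) (.e (nat_lit 163979) (nat_lit 30) (.e (nat_lit 573489) (nat_lit 14) (.e (nat_lit 73755) (nat_lit 8) (.e (nat_lit 557103) (nat_lit 14) (.e (nat_lit 180250) (nat_lit 10) (.e (nat_lit 573477) (nat_lit 12) (.e (nat_lit 57502) (nat_lit 38) (.e (nat_lit 638996) (nat_lit 7) .nil)))))))) (.g (nat_lit 1) (.e (nat_lit 174347) (nat_lit 0) .nil) .nil))) 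
(.lf (nat_lit 503562) (.g (nat_lit 3341) (.e (nat_lit 163979) (nat_lit 30) (.e (nat_lit 573493) (nat_lit 15) (.e (nat_lit 81954) (nat_lit 23) (.e (nat_lit 98356) (nat_lit 26) (.e (nat_lit 426363) (nat_lit 15) .nil))))) (.g (nat_lit 0) (.e (nat_lit 175795) (nat_lit 0) .nil) .nil))))) (.nd (nat_lit 8) (.nd (nat_lit 9) 
(.lf (nat_lit 502922) (.g (nat_lit 1690) (.e (nat_lit 163979) (nat_lit 30) (.e (nat_lit 573489) (nat_lit 14) (.e (nat_lit 73755) (nat_lit 8) (.e (nat_lit 557096) (nat_lit 13) .nil)))) (.g (nat_lit 0) (.e (nat_lit 174090) (nat_lit 0) .nil) .nil))) 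
(.lf (nat_lit 503434) (.g (nat_lit 3927) (.e (nat_lit 163979) (nat_lit 30) (.e (nat_lit 573492) (nat_lit 15) (.e (nat_lit 81956) (nat_lit 23) (.e (nat_lit 98363) (nat_lit 26) .nil)))) (.g (nat_lit 0) (.e (nat_lit 175247) (nat_lit 0) .nil) .nil)))) (.nd (nat_lit 9) 
(.lf (nat_lit 503178) (.g (nat_lit 5247) (.e (nat_lit 163979) (nat_lit 30) (.e (nat_lit 573489) (nat_lit 14) (.e (nat_lit 73755) (nat_lit 8) (.e (nat_lit 557105) (nat_lit 14) (.e (nat_lit 180252) (nat_lit 10) (.e (nat_lit 573475) (nat_lit 12) (.e (nat_lit 57504) (nat_lit 38) (.e (nat_lit 638996) (nat_lit 7) .nil)))))))) (.g (nat_lit 1) (.e (nat_lit 174603) (nat_lit 0) .nil) .nil))) 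
(.lf (nat_lit 503690) (.g (nat_lit 1435) (.e (nat_lit 163979) (nat_lit 30) (.e (nat_lit 573493) (nat_lit 15) (.e (nat_lit 81956) (nat_lit 23) (.e (nat_lit 98359) (nat_lit 26) .nil)))) (.g (nat_lit 0) (.e (nat_lit 176034) (nat_lit 0) .nil) .nil)))))) (.nd (nat_lit 7) (.nd (nat_lit 8) (.nd (nat_lit 9) 
(.lf (nat_lit 502858) (.g (nat_lit 4000) (.e (nat_lit 163979) (nat_lit 30) (.e (nat_lit 573489) (nat_lit 14) (.e (nat_lit 73754) (nat_lit 8) (.e (nat_lit 557100) (nat_lit 13) (.e (nat_lit 172065) (nat_lit 3) (.e (nat_lit 204817) (nat_lit 17) (.e (nat_lit 2272) (nat_lit 149) (.e (nat_lit 761899) (nat_lit 15) .nil)))))))) (.g (nat_lit 1) (.e (nat_lit 173991) (nat_lit 0) .nil) .nil))) 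
(.lf (nat_lit 503370) (.g (nat_lit 4664) (.e (nat_lit 163979) (nat_lit 30) (.e (nat_lit 573492) (nat_lit 15) (.e (nat_lit 81953) (nat_lit 22) (.e (nat_lit 90170) (nat_lit 13) (.e (nat_lit 172052) (nat_lit 0) .nil))))) (.g (nat_lit 0) (.e (nat_lit 175049) (nat_lit 0) .nil) .nil)))) (.nd (nat_lit 9) 
(.lf (nat_lit 503114) (.g (nat_lit 3472) (.e (nat_lit 163979) (nat_lit 30) (.e (nat_lit 573489) (nat_lit 14) (.e (nat_lit 73755) (nat_lit 8) (.e (nat_lit 557104) (nat_lit 14) (.e (nat_lit 180252) (nat_lit 10) (.e (nat_lit 573473) (nat_lit 12) (.e (nat_lit 57503) (nat_lit 38) (.e (nat_lit 638994) (nat_lit 7) .nil)))))))) (.g (nat_lit 1) (.e (nat_lit 174529) (nat_lit 0) .nil) .nil))) 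
(.lf (nat_lit 503626) (.g (nat_lit 5186) (.e (nat_lit 163979) (nat_lit 30) (.e (nat_lit 573493) (nat_lit 15) (.e (nat_lit 81954) (nat_lit 23) (.e (nat_lit 98386) (nat_lit 32) (.e (nat_lit 475198) (nat_lit 40) (.e (nat_lit 704589) (nat_lit 3) .nil)))))) (.g (nat_lit 1) (.e (nat_lit 175900) (nat_lit 0) .nil) .nil))))) (.nd (nat_lit 8) (.nd (nat_lit 9) 
(.lf (nat_lit 502986) (.g (nat_lit 3335) (.e (nat_lit 163979) (nat_lit 30) (.e (nat_lit 573489) (nat_lit 14) (.e (nat_lit 73755) (nat_lit 8) (.e (nat_lit 557098) (nat_lit 13) (.e (nat_lit 172066) (nat_lit 3) (.e (nat_lit 204821) (nat_lit 17) (.e (nat_lit 2270) (nat_lit 149) (.e (nat_lit 761898) (nat_lit 15) .nil)))))))) (.g (nat_lit 1) (.e (nat_lit 174218) (nat_lit 0) .nil) .nil))) 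
(.lf (nat_lit 503498) (.g (nat_lit 7280) (.e (nat_lit 163979) (nat_lit 30) (.e (nat_lit 573493) (nat_lit 15) (.e (nat_lit 81953) (nat_lit 22) (.e (nat_lit 90169) (nat_lit 13) (.e (nat_lit 172133) (nat_lit 15) (.e (nat_lit 2059) (nat_lit 142) (.e (nat_lit 704589) (nat_lit 3) .nil))))))) (.g (nat_lit 1) (.e (nat_lit 175632) (nat_lit 0) .nil) .nil)))) (.nd (nat_lit 9) 
(.lf (nat_lit 503242) (.g (nat_lit 2012) (.e (nat_lit 163979) (nat_lit 30) (.e (nat_lit 573491) (nat_lit 15) (.e (nat_lit 81954) (nat_lit 23) (.e (nat_lit 98356) (nat_lit 26) (.e (nat_lit 426363) (nat_lit 15) .nil))))) (.g (nat_lit 0) (.e (nat_lit 174783) (nat_lit 0) .nil) .nil))) 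
(.lf (nat_lit 503754) (.g (nat_lit 1436) (.e (nat_lit 163979) (nat_lit 30) (.e (nat_lit 573493) (nat_lit 15) (.e (nat_lit 81956) (nat_lit 23) (.e (nat_lit 98367) (nat_lit 27) .nil)))) (.g (nat_lit 0) (.e (nat_lit 176183) (nat_lit 0) .nil) .nil))))))) (.nd (nat_lit 6) (.nd (nat_lit 7) (.nd (nat_lit 8) (.nd (nat_lit 9) 
(.lf (nat_lit 502826) (.g (nat_lit 5744) (.e (nat_lit 163979) (nat_lit 30) (.e (nat_lit 573488) (nat_lit 14) (.e (nat_lit 73755) (nat_lit 8) (.e (nat_lit 557105) (nat_lit 14) (.e (nat_lit 180251) (nat_lit 10) (.e (nat_lit 573475) (nat_lit 12) (.e (nat_lit 57503) (nat_lit 38) (.e (nat_lit 638995) (nat_lit 7) .nil)))))))) (.g (nat_lit 1) (.e (nat_lit 173953) (nat_lit 0) .nil) .nil))) 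
(.lf (nat_lit 503338) (.g (nat_lit 408) (.e (nat_lit 163979) (nat_lit 30) (.e (nat_lit 573491) (nat_lit 15) (.e (nat_lit 81956) (nat_lit 23) .nil))) (.g (nat_lit 0) (.e (nat_lit 174944) (nat_lit 0) .nil) .nil)))) (.nd (nat_lit 9) 
(.lf (nat_lit 503082) (.g (nat_lit 2541) (.e (nat_lit 163979) (nat_lit 30) (.e (nat_lit 573489) (nat_lit 14) (.e (nat_lit 73755) (nat_lit 8) (.e (nat_lit 557104) (nat_lit 14) (.e (nat_lit 180244) (nat_lit 5) (.e (nat_lit 532501) (nat_lit 1) (.e (nat_lit 57662) (nat_lit 152) (.e (nat_lit 2606) (nat_lit 163) .nil)))))))) (.g (nat_lit 1) (.e (nat_lit 174430) (nat_lit 0) .nil) .nil))) 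
(.lf (nat_lit 503594) (.g (nat_lit 2521) (.e (nat_lit 163979) (nat_lit 30) (.e (nat_lit 573493) (nat_lit 15) (.e (nat_lit 81954) (nat_lit 23) (.e (nat_lit 98360) (nat_lit 26) (.e (nat_lit 426025) (nat_lit 0) .nil))))) (.g (nat_lit 0) (.e (nat_lit 175849) (nat_lit 0) .nil) .nil))))) (.nd (nat_lit 8) (.nd (nat_lit 9) 
(.lf (nat_lit 502954) (.g (nat_lit 2851) (.e (nat_lit 163979) (nat_lit 30) (.e (nat_lit 573489) (nat_lit 14) (.e (nat_lit 73755) (nat_lit 8) (.e (nat_lit 557097) (nat_lit 13) (.e (nat_lit 172067) (nat_lit 3) (.e (nat_lit 204814) (nat_lit 17) (.e (nat_lit 2270) (nat_lit 149) (.e (nat_lit 761897) (nat_lit 15) .nil)))))))) (.g (nat_lit 1) (.e (nat_lit 174157) (nat_lit 0) .nil) .nil))) 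
(.lf (nat_lit 503466) (.g (nat_lit 2363) (.e (nat_lit 163979) (nat_lit 30) (.e (nat_lit 573493) (nat_lit 15) (.e (nat_lit 81951) (nat_lit 22) (.e (nat_lit 90169) (nat_lit 13) .nil)))) (.g (nat_lit 0) (.e (nat_lit 175509) (nat_lit 0) .nil) .nil)))) (.nd (nat_lit 9) 
(.lf (nat_lit 503210) (.g (nat_lit 2016) (.e (nat_lit 163979) (nat_lit 30) (.e (nat_lit 573491) (nat_lit 15) (.e (nat_lit 81951) (nat_lit 22) (.e (nat_lit 90170) (nat_lit 13) (.e (nat_lit 172135) (nat_lit 15) .nil))))) (.g (nat_lit 0) (.e (nat_lit 174719) (nat_lit 0) .nil) .nil))) 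
(.lf (nat_lit 503722) (.g (nat_lit 3144) (.e (nat_lit 163979) (nat_lit 30) (.e (nat_lit 573493) (nat_lit 15) (.e (nat_lit 81956) (nat_lit 23) (.e (nat_lit 98361) (nat_lit 26) .nil)))) (.g (nat_lit 0) (.e (nat_lit 176122) (nat_lit 0) .nil) .nil)))))) (.nd (nat_lit 7) (.nd (nat_lit 8) (.nd (nat_lit 9) 
(.lf (nat_lit 502890) (.g (nat_lit 3447) (.e (nat_lit 163979) (nat_lit 30) (.e (nat_lit 573489) (nat_lit 14) (.e (nat_lit 73754) (nat_lit 8) (.e (nat_lit 557103) (nat_lit 14) (.e (nat_lit 180250) (nat_lit 10) (.e (nat_lit 573475) (nat_lit 12) (.e (nat_lit 57503) (nat_lit 38) (.e (nat_lit 638996) (nat_lit 7) .nil)))))))) (.g (nat_lit 1) (.e (nat_lit 174043) (nat_lit 0) .nil) .nil))) 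
(.lf (nat_lit 503402) (.g (nat_lit 3127) (.e (nat_lit 163979) (nat_lit 30) (.e (nat_lit 573492) (nat_lit 15) (.e (nat_lit 81956) (nat_lit 23) (.e (nat_lit 98356) (nat_lit 26) (.e (nat_lit 426085) (nat_lit 0) .nil))))) (.g (nat_lit 0) (.e (nat_lit 175176) (nat_lit 0) .nil) .nil)))) (.nd (nat_lit 9) 
(.lf (nat_lit 503146) (.g (nat_lit 3640) (.e (nat_lit 163979) (nat_lit 30) (.e (nat_lit 573489) (nat_lit 14) (.e (nat_lit 73755) (nat_lit 8) (.e (nat_lit 557105) (nat_lit 14) (.e (nat_lit 180251) (nat_lit 10) (.e (nat_lit 573478) (nat_lit 12) (.e (nat_lit 57500) (nat_lit 37) (.e (nat_lit 630799) (nat_lit 7) .nil)))))))) (.g (nat_lit 1) (.e (nat_lit 174562) (nat_lit 0) .nil) .nil))) 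
(.lf (nat_lit 503658) (.g (nat_lit 2860) (.e (nat_lit 163979) (nat_lit 30) (.e (nat_lit 573493) (nat_lit 15) (.e (nat_lit 81956) (nat_lit 23) (.e (nat_lit 98356) (nat_lit 26) (.e (nat_lit 426362) (nat_lit 15) .nil))))) (.g (nat_lit 0) (.e (nat_lit 175994) (nat_lit 0) .nil) .nil))))) (.nd (nat_lit 8) (.nd (nat_lit 9) 
(.lf (nat_lit 503018) (.g (nat_lit 2871) (.e (nat_lit 163979) (nat_lit 30) (.e (nat_lit 573489) (nat_lit 14) (.e (nat_lit 73755) (nat_lit 8) (.e (nat_lit 557103) (nat_lit 14) (.e (nat_lit 180244) (nat_lit 5) (.e (nat_lit 532484) (nat_lit 0) (.e (nat_lit 7936) (nat_lit 149) (.e (nat_lit 761893) (nat_lit 15) .nil)))))))) (.g (nat_lit 1) (.e (nat_lit 174276) (nat_lit 0) .nil) .nil))) 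
(.lf (nat_lit 503530) (.g (nat_lit 4282) (.e (nat_lit 163979) (nat_lit 30) (.e (nat_lit 573493) (nat_lit 15) (.e (nat_lit 81953) (nat_lit 22) (.e (nat_lit 90170) (nat_lit 13) (.e (nat_lit 172060) (nat_lit 1) (.e (nat_lit 164345) (nat_lit 240) (.e (nat_lit 2610) (nat_lit 163) .nil))))))) (.g (nat_lit 1) (.e (nat_lit 175699) (nat_lit 0) .nil) .nil)))) (.nd (nat_lit 9) 
(.lf (nat_lit 503274) (.g (nat_lit 2727) (.e (nat_lit 163979) (nat_lit 30) (.e (nat_lit 573491) (nat_lit 15) (.e (nat_lit 81954) (nat_lit 23) (.e (nat_lit 98359) (nat_lit 26) (.e (nat_lit 426022) (nat_lit 0) (.e (nat_lit 3399) (nat_lit 211) (.e (nat_lit 647180) (nat_lit 3) .nil))))))) (.g (nat_lit 1) (.e (nat_lit 174821) (nat_lit 0) .nil) .nil))) 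
(.lf (nat_lit 503786) (.g (nat_lit 5186) (.e (nat_lit 163979) (nat_lit 30) (.e (nat_lit 573493) (nat_lit 15) (.e (nat_lit 81956) (nat_lit 23) (.e (nat_lit 98384) (nat_lit 32) (.e (nat_lit 475198) (nat_lit 40) (.e (nat_lit 704589) (nat_lit 3) .nil)))))) (.g (nat_lit 1) (.e (nat_lit 176336) (nat_lit 0) .nil) .nil)))))))) 
(.nd (nat_lit 5) (.nd (nat_lit 6) (.nd (nat_lit 7) (.nd (nat_lit 8) (.nd (nat_lit 9) 
(.lf (nat_lit 502810) (.g (nat_lit 2212) (.e (nat_lit 163979) (nat_lit 30) (.e (nat_lit 573488) (nat_lit 14) (.e (nat_lit 73755) (nat_lit 8) (.e (nat_lit 557104) (nat_lit 14) (.e (nat_lit 180250) (nat_lit 10) .nil))))) (.g (nat_lit 0) (.e (nat_lit 173937) (nat_lit 0) .nil) .nil))) 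
(.lf (nat_lit 503322) (.g (nat_lit 2284) (.e (nat_lit 163979) (nat_lit 30) (.e (nat_lit 573491) (nat_lit 15) (.e (nat_lit 81954) (nat_lit 23) (.e (nat_lit 98385) (nat_lit 32) (.e (nat_lit 475205) (nat_lit 40) (.e (nat_lit 704588) (nat_lit 3) .nil)))))) (.g (nat_lit 1) (.e (nat_lit 174928) (nat_lit 0) .nil) .nil)))) (.nd (nat_lit 9) 
(.lf (nat_lit 503066) (.g (nat_lit 1785) (.e (nat_lit 163979) (nat_lit 30) (.e (nat_lit 573489) (nat_lit 14) (.e (nat_lit 73755) (nat_lit 8) (.e (nat_lit 557104) (nat_lit 14) (.e (nat_lit 180243) (nat_lit 5) .nil))))) (.g (nat_lit 0) (.e (nat_lit 174378) (nat_lit 0) .nil) .nil))) 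
(.lf (nat_lit 503578) (.g (nat_lit 3926) (.e (nat_lit 163979) (nat_lit 30) (.e (nat_lit 573493) (nat_lit 15) (.e (nat_lit 81954) (nat_lit 23) (.e (nat_lit 98356) (nat_lit 26) (.e (nat_lit 426444) (nat_lit 19) (.e (nat_lit 114432) (nat_lit 3) .nil)))))) (.g (nat_lit 1) (.e (nat_lit 175811) (nat_lit 0) .nil) .nil))))) (.nd (nat_lit 8) (.nd (nat_lit 9) 
(.lf (nat_lit 502938) (.g (nat_lit 2403) (.e (nat_lit 163979) (nat_lit 30) (.e (nat_lit 573489) (nat_lit 14) (.e (nat_lit 73755) (nat_lit 8) (.e (nat_lit 557097) (nat_lit 13) (.e (nat_lit 172065) (nat_lit 3) (.e (nat_lit 204821) (nat_lit 17) (.e (nat_lit 2270) (nat_lit 149) (.e (nat_lit 761897) (nat_lit 15) .nil)))))))) (.g (nat_lit 1) (.e (nat_lit 174121) (nat_lit 0) .nil) .nil))) 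
(.lf (nat_lit 503450) (.g (nat_lit 2058) (.e (nat_lit 163979) (nat_lit 30) (.e (nat_lit 573492) (nat_lit 15) (.e (nat_lit 81956) (nat_lit 23) (.e (nat_lit 98368) (nat_lit 27) .nil)))) (.g (nat_lit 0) (.e (nat_lit 175265) (nat_lit 0) .nil) .nil)))) (.nd (nat_lit 9) 
(.lf (nat_lit 503194) (.g (nat_lit 2402) (.e (nat_lit 163979) (nat_lit 30) (.e (nat_lit 573491) (nat_lit 15) (.e (nat_lit 81951) (nat_lit 22) (.e (nat_lit 90170) (nat_lit 13) (.e (nat_lit 172036) (nat_lit 0) .nil))))) (.g (nat_lit 0) (.e (nat_lit 174658) (nat_lit 0) .nil) .nil))) 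
(.lf (nat_lit 503706) (.g (nat_lit 2827) (.e (nat_lit 163979) (nat_lit 30) (.e (nat_lit 573493) (nat_lit 15) (.e (nat_lit 81956) (nat_lit 23) (.e (nat_lit 98359) (nat_lit 26) (.e (nat_lit 426102) (nat_lit 1) .nil))))) (.g (nat_lit 0) (.e (nat_lit 176084) (nat_lit 0) .nil) .nil)))))) (.nd (nat_lit 7) (.nd (nat_lit 8) (.nd (nat_lit 9) 
(.lf (nat_lit 502874) (.g (nat_lit 2781) (.e (nat_lit 163979) (nat_lit 30) (.e (nat_lit 573489) (nat_lit 14) (.e (nat_lit 73754) (nat_lit 8) (.e (nat_lit 557101) (nat_lit 13) (.e (nat_lit 172065) (nat_lit 3) (.e (nat_lit 204817) (nat_lit 17) (.e (nat_lit 2272) (nat_lit 149) (.e (nat_lit 761897) (nat_lit 15) .nil)))))))) (.g (nat_lit 1) (.e (nat_lit 174020) (nat_lit 0) .nil) .nil))) 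
(.lf (nat_lit 503386) (.g (nat_lit 2457) (.e (nat_lit 163979) (nat_lit 30) (.e (nat_lit 573492) (nat_lit 15) (.e (nat_lit 81956) (nat_lit 23) (.e (nat_lit 98354) (nat_lit 26) (.e (nat_lit 426003) (nat_lit 0) .nil))))) (.g (nat_lit 0) (.e (nat_lit 175150) (nat_lit 0) .nil) .nil)))) (.nd (nat_lit 9) 
(.lf (nat_lit 503130) (.g (nat_lit 5128) (.e (nat_lit 163979) (nat_lit 30) (.e (nat_lit 573489) (nat_lit 14) (.e (nat_lit 73755) (nat_lit 8) (.e (nat_lit 557104) (nat_lit 14) (.e (nat_lit 180252) (nat_lit 10) (.e (nat_lit 573475) (nat_lit 12) (.e (nat_lit 57504) (nat_lit 38) (.e (nat_lit 638995) (nat_lit 7) .nil)))))))) (.g (nat_lit 1) (.e (nat_lit 174545) (nat_lit 0) .nil) .nil))) 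
(.lf (nat_lit 503642) (.g (nat_lit 3792) (.e (nat_lit 163979) (nat_lit 30) (.e (nat_lit 573493) (nat_lit 15) (.e (nat_lit 81956) (nat_lit 23) (.e (nat_lit 98356) (nat_lit 26) (.e (nat_lit 426354) (nat_lit 15) (.e (nat_lit 2064) (nat_lit 142) (.e (nat_lit 704589) (nat_lit 3) .nil))))))) (.g (nat_lit 1) (.e (nat_lit 175973) (nat_lit 0) .nil) .nil))))) (.nd (nat_lit 8) (.nd (nat_lit 9) 
(.lf (nat_lit 503002) (.g (nat_lit 4454) (.e (nat_lit 163979) (nat_lit 30) (.e (nat_lit 573489) (nat_lit 14) (.e (nat_lit 73755) (nat_lit 8) (.e (nat_lit 557098) (nat_lit 13) (.e (nat_lit 172067) (nat_lit 3) (.e (nat_lit 204821) (nat_lit 17) (.e (nat_lit 2270) (nat_lit 149) (.e (nat_lit 761899) (nat_lit 15) .nil)))))))) (.g (nat_lit 1) (.e (nat_lit 174238) (nat_lit 0) .nil) .nil))) 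
(.lf (nat_lit 503514) (.g (nat_lit 3472) (.e (nat_lit 163979) (nat_lit 30) (.e (nat_lit 573493) (nat_lit 15) (.e (nat_lit 81953) (nat_lit 22) (.e (nat_lit 90170) (nat_lit 13) (.e (nat_lit 172043) (nat_lit 0) .nil))))) (.g (nat_lit 0) (.e (nat_lit 175665) (nat_lit 0) .nil) .nil)))) (.nd (nat_lit 9) 
(.lf (nat_lit 503258) (.g (nat_lit 2622) (.e (nat_lit 163979) (nat_lit 30) (.e (nat_lit 573491) (nat_lit 15) (.e (nat_lit 81954) (nat_lit 23) (.e (nat_lit 98356) (nat_lit 26) (.e (nat_lit 426404) (nat_lit 15) (.e (nat_lit 2056) (nat_lit 142) (.e (nat_lit 704589) (nat_lit 3) .nil))))))) (.g (nat_lit 1) (.e (nat_lit 174799) (nat_lit 0) .nil) .nil))) 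
(.lf (nat_lit 503770) (.g (nat_lit 3741) (.e (nat_lit 163979) (nat_lit 30) (.e (nat_lit 573493) (nat_lit 15) (.e (nat_lit 81956) (nat_lit 23) (.e (nat_lit 98367) (nat_lit 27) (.e (nat_lit 434271) (nat_lit 38) (.e (nat_lit 655374) (nat_lit 3) .nil)))))) (.g (nat_lit 1) (.e (nat_lit 176245) (nat_lit 0) .nil) .nil))))))) (.nd (nat_lit 6) (.nd (nat_lit 7) (.nd (nat_lit 8) (.nd (nat_lit 9) 
(.lf (nat_lit 502842) (.g (nat_lit 5126) (.e (nat_lit 163979) (nat_lit 30) (.e (nat_lit 573488) (nat_lit 14) (.e (nat_lit 73755) (nat_lit 8) (.e (nat_lit 557105) (nat_lit 14) (.e (nat_lit 180252) (nat_lit 10) (.e (nat_lit 573475) (nat_lit 12) (.e (nat_lit 57504) (nat_lit 38) (.e (nat_lit 638995) (nat_lit 7) .nil)))))))) (.g (nat_lit 1) (.e (nat_lit 173969) (nat_lit 0) .nil) .nil))) 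
(.lf (nat_lit 503354) (.g (nat_lit 3129) (.e (nat_lit 163979) (nat_lit 30) (.e (nat_lit 573492) (nat_lit 15) (.e (nat_lit 81951) (nat_lit 22) (.e (nat_lit 90170) (nat_lit 13) (.e (nat_lit 172042) (nat_lit 0) .nil))))) (.g (nat_lit 0) (.e (nat_lit 175016) (nat_lit 0) .nil) .nil)))) (.nd (nat_lit 9) 
(.lf (nat_lit 503098) (.g (nat_lit 2590) (.e (nat_lit 163979) (nat_lit 30) (.e (nat_lit 573489) (nat_lit 14) (.e (nat_lit 73755) (nat_lit 8) (.e (nat_lit 557104) (nat_lit 14) (.e (nat_lit 180250) (nat_lit 10) (.e (nat_lit 573475) (nat_lit 12) (.e (nat_lit 57502) (nat_lit 38) (.e (nat_lit 638996) (nat_lit 7) .nil)))))))) (.g (nat_lit 1) (.e (nat_lit 174512) (nat_lit 0) .nil) .nil))) 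
(.lf (nat_lit 503610) (.g (nat_lit 4784) (.e (nat_lit 163979) (nat_lit 30) (.e (nat_lit 573493) (nat_lit 15) (.e (nat_lit 81954) (nat_lit 23) (.e (nat_lit 98367) (nat_lit 27) (.e (nat_lit 434272) (nat_lit 38) (.e (nat_lit 655374) (nat_lit 3) .nil)))))) (.g (nat_lit 1) (.e (nat_lit 175881) (nat_lit 0) .nil) .nil))))) (.nd (nat_lit 8) (.nd (nat_lit 9) 
(.lf (nat_lit 502970) (.g (nat_lit 3363) (.e (nat_lit 163979) (nat_lit 30) (.e (nat_lit 573489) (nat_lit 14) (.e (nat_lit 73755) (nat_lit 8) (.e (nat_lit 557098) (nat_lit 13) (.e (nat_lit 172065) (nat_lit 3) (.e (nat_lit 204815) (nat_lit 17) (.e (nat_lit 2271) (nat_lit 149) (.e (nat_lit 761898) (nat_lit 15) .nil)))))))) (.g (nat_lit 1) (.e (nat_lit 174199) (nat_lit 0) .nil) .nil))) 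
(.lf (nat_lit 503482) (.g (nat_lit 4575) (.e (nat_lit 163979) (nat_lit 30) (.e (nat_lit 573493) (nat_lit 15) (.e (nat_lit 81951) (nat_lit 22) (.e (nat_lit 90170) (nat_lit 13) (.e (nat_lit 172061) (nat_lit 1) (.e (nat_lit 164347) (nat_lit 240) (.e (nat_lit 2610) (nat_lit 163) .nil))))))) (.g (nat_lit 1) (.e (nat_lit 175543) (nat_lit 0) .nil) .nil)))) (.nd (nat_lit 9) 
(.lf (nat_lit 503226) (.g (nat_lit 2434) (.e (nat_lit 163979) (nat_lit 30) (.e (nat_lit 573491) (nat_lit 15) (.e (nat_lit 81954) (nat_lit 23) (.e (nat_lit 98355) (nat_lit 26) (.e (nat_lit 426444) (nat_lit 19) (.e (nat_lit 114432) (nat_lit 3) .nil)))))) (.g (nat_lit 1) (.e (nat_lit 174759) (nat_lit 0) .nil) .nil))) 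
(.lf (nat_lit 503738) (.g (nat_lit 5038) (.e (nat_lit 163979) (nat_lit 30) (.e (nat_lit 573493) (nat_lit 15) (.e (nat_lit 81956) (nat_lit 23) (.e (nat_lit 98365) (nat_lit 26) (.e (nat_lit 426105) (nat_lit 1) .nil))))) (.g (nat_lit 0) (.e (nat_lit 176151) (nat_lit 0) .nil) .nil)))))) (.nd (nat_lit 7) (.nd (nat_lit 8) (.nd (nat_lit 9) 
(.lf (nat_lit 502906) (.g (nat_lit 4186) (.e (nat_lit 163979) (nat_lit 30) (.e (nat_lit 573489) (nat_lit 14) (.e (nat_lit 73754) (nat_lit 8) (.e (nat_lit 557105) (nat_lit 14) (.e (nat_lit 180252) (nat_lit 10) (.e (nat_lit 573473) (nat_lit 12) (.e (nat_lit 57503) (nat_lit 38) (.e (nat_lit 638996) (nat_lit 7) .nil)))))))) (.g (nat_lit 1) (.e (nat_lit 174059) (nat_lit 0) .nil) .nil))) 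
(.lf (nat_lit 503418) (.g (nat_lit 1787) (.e (nat_lit 163979) (nat_lit 30) (.e (nat_lit 573492) (nat_lit 15) (.e (nat_lit 81956) (nat_lit 23) (.e (nat_lit 98357) (nat_lit 26) (.e (nat_lit 425986) (nat_lit 0) .nil))))) (.g (nat_lit 0) (.e (nat_lit 175230) (nat_lit 0) .nil) .nil)))) (.nd (nat_lit 9) 
(.lf (nat_lit 503162) (.g (nat_lit 3348) (.e (nat_lit 163979) (nat_lit 30) (.e (nat_lit 573489) (nat_lit 14) (.e (nat_lit 73755) (nat_lit 8) (.e (nat_lit 557105) (nat_lit 14) (.e (nat_lit 180252) (nat_lit 10) (.e (nat_lit 573474) (nat_lit 12) (.e (nat_lit 65280) (nat_lit 37) (.e (nat_lit 630800) (nat_lit 7) .nil)))))))) (.g (nat_lit 1) (.e (nat_lit 174587) (nat_lit 0) .nil) .nil))) 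
(.lf (nat_lit 503674) (.g (nat_lit 3037) (.e (nat_lit 163979) (nat_lit 30) (.e (nat_lit 573493) (nat_lit 15) (.e (nat_lit 81956) (nat_lit 23) (.e (nat_lit 98356) (nat_lit 26) (.e (nat_lit 426402) (nat_lit 15) .nil))))) (.g (nat_lit 0) (.e (nat_lit 176012) (nat_lit 0) .nil) .nil))))) (.nd (nat_lit 8) (.nd (nat_lit 9) 
(.lf (nat_lit 503034) (.g (nat_lit 5176) (.e (nat_lit 163979) (nat_lit 30) (.e (nat_lit 573489) (nat_lit 14) (.e (nat_lit 73755) (nat_lit 8) (.e (nat_lit 557103) (nat_lit 14) (.e (nat_lit 180250) (nat_lit 10) (.e (nat_lit 573474) (nat_lit 12) (.e (nat_lit 57503) (nat_lit 38) (.e (nat_lit 638996) (nat_lit 7) .nil)))))))) (.g (nat_lit 1) (.e (nat_lit 174331) (nat_lit 0) .nil) .nil))) 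
(.lf (nat_lit 503546) (.g (nat_lit 6063) (.e (nat_lit 163979) (nat_lit 30) (.e (nat_lit 573493) (nat_lit 15) (.e (nat_lit 81953) (nat_lit 22) (.e (nat_lit 90174) (nat_lit 14) (.e (nat_lit 180228) (nat_lit 0) (.e (nat_lit 5548) (nat_lit 306) (.e (nat_lit 2610) (nat_lit 163) .nil))))))) (.g (nat_lit 1) (.e (nat_lit 175756) (nat_lit 0) .nil) .nil)))) (.nd (nat_lit 9) 
(.lf (nat_lit 503290) (.g (nat_lit 2146) (.e (nat_lit 163979) (nat_lit 30) (.e (nat_lit 573491) (nat_lit 15) (.e (nat_lit 81954) (nat_lit 23) (.e (nat_lit 98360) (nat_lit 26) (.e (nat_lit 426025) (nat_lit 0) (.e (nat_lit 3397) (nat_lit 211) (.e (nat_lit 647180) (nat_lit 3) .nil))))))) (.g (nat_lit 1) (.e (nat_lit 174858) (nat_lit 0) .nil) .nil))) 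
(.lf (nat_lit 503802) (.g (nat_lit 1838) (.e (nat_lit 163998) (nat_lit 38) (.e (nat_lit 639020) (nat_lit 16) (.e (nat_lit 65627) (nat_lit 13) (.e (nat_lit 393284) (nat_lit 24) (.e (nat_lit 434276) (nat_lit 39) .nil))))) (.g (nat_lit 0) (.e (nat_lit 176397) (nat_lit 0) .nil) .nil)))))))))) 
(.nd (nat_lit 3) (.nd (nat_lit 4) (.nd (nat_lit 5) (.nd (nat_lit 6) (.nd (nat_lit 7) 
(.nd (nat_lit 8) (.nd (nat_lit 9) 
(.lf (nat_lit 502790) (.g (nat_lit 1566) (.e (nat_lit 163979) (nat_lit 30) (.e (nat_lit 573488) (nat_lit 14) (.e (nat_lit 73755) (nat_lit 8) (.e (nat_lit 557098) (nat_lit 13) .nil)))) (.g (nat_lit 0) (.e (nat_lit 173916) (nat_lit 0) .nil) .nil))) 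
(.lf (nat_lit 503302) (.g (nat_lit 2920) (.e (nat_lit 163979) (nat_lit 30) (.e (nat_lit 573491) (nat_lit 15) (.e (nat_lit 81954) (nat_lit 23) (.e (nat_lit 98367) (nat_lit 27) (.e (nat_lit 434211) (nat_lit 18) (.e (nat_lit 5548) (nat_lit 306) (.e (nat_lit 2610) (nat_lit 163) .nil))))))) (.g (nat_lit 1) (.e (nat_lit 174900) (nat_lit 0) .nil) .nil)))) (.nd (nat_lit 9) 
(.lf (nat_lit 503046) (.g (nat_lit 4693) (.e (nat_lit 163979) (nat_lit 30) (.e (nat_lit 573489) (nat_lit 14) (.e (nat_lit 73755) (nat_lit 8) (.e (nat_lit 557103) (nat_lit 14) (.e (nat_lit 180250) (nat_lit 10) (.e (nat_lit 573475) (nat_lit 12) (.e (nat_lit 57504) (nat_lit 38) (.e (nat_lit 638995) (nat_lit 7) .nil)))))))) (.g (nat_lit 1) (.e (nat_lit 174343) (nat_lit 0) .nil) .nil))) 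
(.lf (nat_lit 503558) (.g (nat_lit 3638) (.e (nat_lit 163979) (nat_lit 30) (.e (nat_lit 573493) (nat_lit 15) (.e (nat_lit 81954) (nat_lit 23) (.e (nat_lit 98356) (nat_lit 26) (.e (nat_lit 426148) (nat_lit 4) .nil))))) (.g (nat_lit 0) (.e (nat_lit 175791) (nat_lit 0) .nil) .nil))))) (.nd (nat_lit 8) (.nd (nat_lit 9) 
(.lf (nat_lit 502918) (.g (nat_lit 5128) (.e (nat_lit 163979) (nat_lit 30) (.e (nat_lit 573489) (nat_lit 14) (.e (nat_lit 73754) (nat_lit 8) (.e (nat_lit 557105) (nat_lit 14) (.e (nat_lit 180252) (nat_lit 10) (.e (nat_lit 573475) (nat_lit 12) (.e (nat_lit 57503) (nat_lit 38) (.e (nat_lit 638996) (nat_lit 7) .nil)))))))) (.g (nat_lit 1) (.e (nat_lit 174071) (nat_lit 0) .nil) .nil))) 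
(.lf (nat_lit 503430) (.g (nat_lit 4458) (.e (nat_lit 163979) (nat_lit 30) (.e (nat_lit 573492) (nat_lit 15) (.e (nat_lit 81956) (nat_lit 23) (.e (nat_lit 98361) (nat_lit 26) (.e (nat_lit 426025) (nat_lit 0) .nil))))) (.g (nat_lit 0) (.e (nat_lit 175243) (nat_lit 0) .nil) .nil)))) (.nd (nat_lit 9) 
(.lf (nat_lit 503174) (.g (nat_lit 4142) (.e (nat_lit 163979) (nat_lit 30) (.e (nat_lit 573489) (nat_lit 14) (.e (nat_lit 73755) (nat_lit 8) (.e (nat_lit 557105) (nat_lit 14) (.e (nat_lit 180252) (nat_lit 10) (.e (nat_lit 573475) (nat_lit 12) (.e (nat_lit 57502) (nat_lit 38) (.e (nat_lit 638996) (nat_lit 7) .nil)))))))) (.g (nat_lit 1) (.e (nat_lit 174599) (nat_lit 0) .nil) .nil))) 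
(.lf (nat_lit 503686) (.g (nat_lit 2641) (.e (nat_lit 163979) (nat_lit 30) (.e (nat_lit 573493) (nat_lit 15) (.e (nat_lit 81956) (nat_lit 23) (.e (nat_lit 98358) (nat_lit 26) .nil)))) (.g (nat_lit 0) (.e (nat_lit 176030) (nat_lit 0) .nil) .nil)))))) (.nd (nat_lit 7) (.nd (nat_lit 8) (.nd (nat_lit 9) 
(.lf (nat_lit 502854) (.g (nat_lit 3294) (.e (nat_lit 163979) (nat_lit 30) (.e (nat_lit 573489) (nat_lit 14) (.e (nat_lit 73753) (nat_lit 8) (.e (nat_lit 557105) (nat_lit 14) (.e (nat_lit 180252) (nat_lit 10) (.e (nat_lit 573475) (nat_lit 12) (.e (nat_lit 57504) (nat_lit 38) (.e (nat_lit 638995) (nat_lit 7) .nil)))))))) (.g (nat_lit 1) (.e (nat_lit 173985) (nat_lit 0) .nil) .nil))) 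
(.lf (nat_lit 503366) (.g (nat_lit 2408) (.e (nat_lit 163979) (nat_lit 30) (.e (nat_lit 573492) (nat_lit 15) (.e (nat_lit 81953) (nat_lit 22) (.e (nat_lit 90170) (nat_lit 13) .nil)))) (.g (nat_lit 0) (.e (nat_lit 175045) (nat_lit 0) .nil) .nil)))) (.nd (nat_lit 9) 
(.lf (nat_lit 503110) (.g (nat_lit 3733) (.e (nat_lit 163979) (nat_lit 30) (.e (nat_lit 573489) (nat_lit 14) (.e (nat_lit 73755) (nat_lit 8) (.e (nat_lit 557104) (nat_lit 14) (.e (nat_lit 180252) (nat_lit 10) (.e (nat_lit 573473) (nat_lit 12) (.e (nat_lit 57500) (nat_lit 37) (.e (nat_lit 630799) (nat_lit 7) .nil)))))))) (.g (nat_lit 1) (.e (nat_lit 174525) (nat_lit 0) .nil) .nil))) 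
(.lf (nat_lit 503622) (.g (nat_lit 4124) (.e (nat_lit 163979) (nat_lit 30) (.e (nat_lit 573493) (nat_lit 15) (.e (nat_lit 81954) (nat_lit 23) (.e (nat_lit 98384) (nat_lit 32) (.e (nat_lit 483072) (nat_lit 40) .nil))))) (.g (nat_lit 0) (.e (nat_lit 175896) (nat_lit 0) .nil) .nil))))) (.nd (nat_lit 8) (.nd (nat_lit 9) 
(.lf (nat_lit 502982) (.g (nat_lit 3358) (.e (nat_lit 163979) (nat_lit 30) (.e (nat_lit 573489) (nat_lit 14) (.e (nat_lit 73755) (nat_lit 8) (.e (nat_lit 557098) (nat_lit 13) (.e (nat_lit 172066) (nat_lit 3) (.e (nat_lit 204817) (nat_lit 17) (.e (nat_lit 2272) (nat_lit 149) (.e (nat_lit 761899) (nat_lit 15) .nil)))))))) (.g (nat_lit 1) (.e (nat_lit 174214) (nat_lit 0) .nil) .nil))) 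
(.lf (nat_lit 503494) (.g (nat_lit 2684) (.e (nat_lit 163979) (nat_lit 30) (.e (nat_lit 573493) (nat_lit 15) (.e (nat_lit 81953) (nat_lit 22) (.e (nat_lit 90166) (nat_lit 13) .nil)))) (.g (nat_lit 0) (.e (nat_lit 175624) (nat_lit 0) .nil) .nil)))) (.nd (nat_lit 9) 
(.lf (nat_lit 503238) (.g (nat_lit 2622) (.e (nat_lit 163979) (nat_lit 30) (.e (nat_lit 573491) (nat_lit 15) (.e (nat_lit 81954) (nat_lit 23) (.e (nat_lit 98356) (nat_lit 26) (.e (nat_lit 426361) (nat_lit 15) (.e (nat_lit 2055) (nat_lit 142) (.e (nat_lit 704589) (nat_lit 3) .nil))))))) (.g (nat_lit 1) (.e (nat_lit 174779) (nat_lit 0) .nil) .nil))) 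
(.lf (nat_lit 503750) (.g (nat_lit 2733) (.e (nat_lit 163979) (nat_lit 30) (.e (nat_lit 573493) (nat_lit 15) (.e (nat_lit 81956) (nat_lit 23) (.e (nat_lit 98366) (nat_lit 27) (.e (nat_lit 434270) (nat_lit 38) .nil))))) (.g (nat_lit 0) (.e (nat_lit 176179) (nat_lit 0) .nil) .nil))))))) (.nd (nat_lit 6) (.nd (nat_lit 7) (.nd (nat_lit 8) (.nd (nat_lit 9) 
(.lf (nat_lit 502822) (.g (nat_lit 5351) (.e (nat_lit 163979) (nat_lit 30) (.e (nat_lit 573488) (nat_lit 14) (.e (nat_lit 73755) (nat_lit 8) (.e (nat_lit 557104) (nat_lit 14) (.e (nat_lit 180252) (nat_lit 10) (.e (nat_lit 573475) (nat_lit 12) (.e (nat_lit 57503) (nat_lit 38) (.e (nat_lit 638995) (nat_lit 7) .nil)))))))) (.g (nat_lit 1) (.e (nat_lit 173949) (nat_lit 0) .nil) .nil))) 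
(.lf (nat_lit 503334) (.g (nat_lit 2987) (.e (nat_lit 163979) (nat_lit 30) (.e (nat_lit 573491) (nat_lit 15) (.e (nat_lit 81955) (nat_lit 23) (.e (nat_lit 98384) (nat_lit 32) (.e (nat_lit 475201) (nat_lit 40) (.e (nat_lit 712448) (nat_lit 3) .nil)))))) (.g (nat_lit 1) (.e (nat_lit 174940) (nat_lit 0) .nil) .nil)))) (.nd (nat_lit 9) 
(.lf (nat_lit 503078) (.g (nat_lit 3053) (.e (nat_lit 163979) (nat_lit 30) (.e (nat_lit 573489) (nat_lit 14) (.e (nat_lit 73755) (nat_lit 8) (.e (nat_lit 557104) (nat_lit 14) (.e (nat_lit 180244) (nat_lit 5) (.e (nat_lit 532489) (nat_lit 0) (.e (nat_lit 2272) (nat_lit 149) (.e (nat_lit 761899) (nat_lit 15) .nil)))))))) (.g (nat_lit 1) (.e (nat_lit 174404) (nat_lit 0) .nil) .nil))) 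
(.lf (nat_lit 503590) (.g (nat_lit 3353) (.e (nat_lit 163979) (nat_lit 30) (.e (nat_lit 573493) (nat_lit 15) (.e (nat_lit 81954) (nat_lit 23) (.e (nat_lit 98359) (nat_lit 26) (.e (nat_lit 426023) (nat_lit 0) (.e (nat_lit 3402) (nat_lit 211) (.e (nat_lit 647180) (nat_lit 3) .nil))))))) (.g (nat_lit 1) (.e (nat_lit 175826) (nat_lit 0) .nil) .nil))))) (.nd (nat_lit 8) (.nd (nat_lit 9) 
(.lf (nat_lit 502950) (.g (nat_lit 3215) (.e (nat_lit 163979) (nat_lit 30) (.e (nat_lit 573489) (nat_lit 14) (.e (nat_lit 73755) (nat_lit 8) (.e (nat_lit 557097) (nat_lit 13) (.e (nat_lit 172066) (nat_lit 3) (.e (nat_lit 204821) (nat_lit 17) (.e (nat_lit 2264) (nat_lit 149) (.e (nat_lit 761899) (nat_lit 15) .nil)))))))) (.g (nat_lit 1) (.e (nat_lit 174138) (nat_lit 0) .nil) .nil))) 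
(.lf (nat_lit 503462) (.g (nat_lit 4666) (.e (nat_lit 163979) (nat_lit 30) (.e (nat_lit 573492) (nat_lit 15) (.e (nat_lit 81956) (nat_lit 23) (.e (nat_lit 98386) (nat_lit 32) (.e (nat_lit 475199) (nat_lit 40) (.e (nat_lit 704589) (nat_lit 3) .nil)))))) (.g (nat_lit 1) (.e (nat_lit 175354) (nat_lit 0) .nil) .nil)))) (.nd (nat_lit 9) 
(.lf (nat_lit 503206) (.g (nat_lit 3196) (.e (nat_lit 163979) (nat_lit 30) (.e (nat_lit 573491) (nat_lit 15) (.e (nat_lit 81951) (nat_lit 22) (.e (nat_lit 90170) (nat_lit 13) (.e (nat_lit 172060) (nat_lit 1) .nil))))) (.g (nat_lit 0) (.e (nat_lit 174695) (nat_lit 0) .nil) .nil))) 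
(.lf (nat_lit 503718) (.g (nat_lit 2977) (.e (nat_lit 163979) (nat_lit 30) (.e (nat_lit 573493) (nat_lit 15) (.e (nat_lit 81956) (nat_lit 23) (.e (nat_lit 98360) (nat_lit 26) (.e (nat_lit 426109) (nat_lit 1) .nil))))) (.g (nat_lit 0) (.e (nat_lit 176112) (nat_lit 0) .nil) .nil)))))) (.nd (nat_lit 7) (.nd (nat_lit 8) (.nd (nat_lit 9) 
(.lf (nat_lit 502886) (.g (nat_lit 3791) (.e (nat_lit 163979) (nat_lit 30) (.e (nat_lit 573489) (nat_lit 14) (.e (nat_lit 73754) (nat_lit 8) (.e (nat_lit 557103) (nat_lit 14) (.e (nat_lit 180250) (nat_lit 10) (.e (nat_lit 573473) (nat_lit 12) (.e (nat_lit 57503) (nat_lit 38) (.e (nat_lit 638995) (nat_lit 7) .nil)))))))) (.g (nat_lit 1) (.e (nat_lit 174039) (nat_lit 0) .nil) .nil))) 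
(.lf (nat_lit 503398) (.g (nat_lit 3234) (.e (nat_lit 163979) (nat_lit 30) (.e (nat_lit 573492) (nat_lit 15) (.e (nat_lit 81956) (nat_lit 23) (.e (nat_lit 98356) (nat_lit 26) (.e (nat_lit 426062) (nat_lit 0) .nil))))) (.g (nat_lit 0) (.e (nat_lit 175170) (nat_lit 0) .nil) .nil)))) (.nd (nat_lit 9) 
(.lf (nat_lit 503142) (.g (nat_lit 2612) (.e (nat_lit 163979) (nat_lit 30) (.e (nat_lit 573489) (nat_lit 14) (.e (nat_lit 73755) (nat_lit 8) (.e (nat_lit 557105) (nat_lit 14) (.e (nat_lit 180251) (nat_lit 10) (.e (nat_lit 573475) (nat_lit 12) (.e (nat_lit 57504) (nat_lit 38) (.e (nat_lit 638996) (nat_lit 7) .nil)))))))) (.g (nat_lit 1) (.e (nat_lit 174558) (nat_lit 0) .nil) .nil))) 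
(.lf (nat_lit 503654) (.g (nat_lit 3813) (.e (nat_lit 163979) (nat_lit 30) (.e (nat_lit 573493) (nat_lit 15) (.e (nat_lit 81956) (nat_lit 23) (.e (nat_lit 98356) (nat_lit 26) (.e (nat_lit 426360) (nat_lit 15) (.e (nat_lit 2097) (nat_lit 142) (.e (nat_lit 704589) (nat_lit 3) .nil))))))) (.g (nat_lit 1) (.e (nat_lit 175985) (nat_lit 0) .nil) .nil))))) (.nd (nat_lit 8) (.nd (nat_lit 9) 
(.lf (nat_lit 503014) (.g (nat_lit 2346) (.e (nat_lit 163979) (nat_lit 30) (.e (nat_lit 573489) (nat_lit 14) (.e (nat_lit 73755) (nat_lit 8) (.e (nat_lit 557103) (nat_lit 14) (.e (nat_lit 180244) (nat_lit 5) (.e (nat_lit 532481) (nat_lit 0) (.e (nat_lit 2266) (nat_lit 149) (.e (nat_lit 761894) (nat_lit 15) .nil)))))))) (.g (nat_lit 1) (.e (nat_lit 174270) (nat_lit 0) .nil) .nil))) 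
(.lf (nat_lit 503526) (.g (nat_lit 3478) (.e (nat_lit 163979) (nat_lit 30) (.e (nat_lit 573493) (nat_lit 15) (.e (nat_lit 81953) (nat_lit 22) (.e (nat_lit 90170) (nat_lit 13) (.e (nat_lit 172051) (nat_lit 0) .nil))))) (.g (nat_lit 0) (.e (nat_lit 175690) (nat_lit 0) .nil) .nil)))) (.nd (nat_lit 9) 
(.lf (nat_lit 503270) (.g (nat_lit 2213) (.e (nat_lit 163979) (nat_lit 30) (.e (nat_lit 573491) (nat_lit 15) (.e (nat_lit 81954) (nat_lit 23) (.e (nat_lit 98359) (nat_lit 26) (.e (nat_lit 426003) (nat_lit 0) (.e (nat_lit 3397) (nat_lit 211) (.e (nat_lit 647180) (nat_lit 3) .nil))))))) (.g (nat_lit 1) (.e (nat_lit 174816) (nat_lit 0) .nil) .nil))) 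
(.lf (nat_lit 503782) (.g (nat_lit 3487) (.e (nat_lit 163979) (nat_lit 30) (.e (nat_lit 573493) (nat_lit 15) (.e (nat_lit 81956) (nat_lit 23) (.e (nat_lit 98368) (nat_lit 27) (.e (nat_lit 434272) (nat_lit 38) (.e (nat_lit 655373) (nat_lit 3) .nil)))))) (.g (nat_lit 1) (.e (nat_lit 176313) (nat_lit 0) .nil) .nil)))))))) 
(.nd (nat_lit 5) (.nd (nat_lit 6) (.nd (nat_lit 7) (.nd (nat_lit 8) (.nd (nat_lit 9) 
(.lf (nat_lit 502806) (.g (nat_lit 2767) (.e (nat_lit 163979) (nat_lit 30) (.e (nat_lit 573488) (nat_lit 14) (.e (nat_lit 73755) (nat_lit 8) (.e (nat_lit 557103) (nat_lit 14) (.e (nat_lit 180252) (nat_lit 10) .nil))))) (.g (nat_lit 0) (.e (nat_lit 173933) (nat_lit 0) .nil) .nil))) 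
(.lf (nat_lit 503318) (.g (nat_lit 2843) (.e (nat_lit 163979) (nat_lit 30) (.e (nat_lit 573491) (nat_lit 15) (.e (nat_lit 81954) (nat_lit 23) (.e (nat_lit 98384) (nat_lit 32) (.e (nat_lit 483072) (nat_lit 40) .nil))))) (.g (nat_lit 0) (.e (nat_lit 174924) (nat_lit 0) .nil) .nil)))) (.nd (nat_lit 9) 
(.lf (nat_lit 503062) (.g (nat_lit 2843) (.e (nat_lit 163979) (nat_lit 30) (.e (nat_lit 573489) (nat_lit 14) (.e (nat_lit 73755) (nat_lit 8) (.e (nat_lit 557104) (nat_lit 14) (.e (nat_lit 180242) (nat_lit 5) (.e (nat_lit 532481) (nat_lit 0) (.e (nat_lit 2271) (nat_lit 149) (.e (nat_lit 761899) (nat_lit 15) .nil)))))))) (.g (nat_lit 1) (.e (nat_lit 174369) (nat_lit 0) .nil) .nil))) 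
(.lf (nat_lit 503574) (.g (nat_lit 3978) (.e (nat_lit 163979) (nat_lit 30) (.e (nat_lit 573493) (nat_lit 15) (.e (nat_lit 81954) (nat_lit 23) (.e (nat_lit 98356) (nat_lit 26) (.e (nat_lit 426416) (nat_lit 15) (.e (nat_lit 2058) (nat_lit 142) (.e (nat_lit 704589) (nat_lit 3) .nil))))))) (.g (nat_lit 1) (.e (nat_lit 175807) (nat_lit 0) .nil) .nil))))) (.nd (nat_lit 8) (.nd (nat_lit 9) 
(.lf (nat_lit 502934) (.g (nat_lit 2803) (.e (nat_lit 163979) (nat_lit 30) (.e (nat_lit 573489) (nat_lit 14) (.e (nat_lit 73755) (nat_lit 8) (.e (nat_lit 557097) (nat_lit 13) (.e (nat_lit 172065) (nat_lit 3) (.e (nat_lit 204817) (nat_lit 17) (.e (nat_lit 7936) (nat_lit 149) (.e (nat_lit 761893) (nat_lit 15) .nil)))))))) (.g (nat_lit 1) (.e (nat_lit 174117) (nat_lit 0) .nil) .nil))) 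
(.lf (nat_lit 503446) (.g (nat_lit 3167) (.e (nat_lit 163979) (nat_lit 30) (.e (nat_lit 573492) (nat_lit 15) (.e (nat_lit 81956) (nat_lit 23) (.e (nat_lit 98366) (nat_lit 27) .nil)))) (.g (nat_lit 0) (.e (nat_lit 175261) (nat_lit 0) .nil) .nil)))) (.nd (nat_lit 9) 
(.lf (nat_lit 503190) (.g (nat_lit 3038) (.e (nat_lit 163979) (nat_lit 30) (.e (nat_lit 573491) (nat_lit 15) (.e (nat_lit 81951) (nat_lit 22) (.e (nat_lit 90170) (nat_lit 13) (.e (nat_lit 172032) (nat_lit 0) (.e (nat_lit 3401) (nat_lit 211) (.e (nat_lit 647181) (nat_lit 3) .nil))))))) (.g (nat_lit 1) (.e (nat_lit 174645) (nat_lit 0) .nil) .nil))) 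
(.lf (nat_lit 503702) (.g (nat_lit 2827) (.e (nat_lit 163979) (nat_lit 30) (.e (nat_lit 573493) (nat_lit 15) (.e (nat_lit 81956) (nat_lit 23) (.e (nat_lit 98359) (nat_lit 26) (.e (nat_lit 426034) (nat_lit 0) .nil))))) (.g (nat_lit 0) (.e (nat_lit 176051) (nat_lit 0) .nil) .nil)))))) (.nd (nat_lit 7) (.nd (nat_lit 8) (.nd (nat_lit 9) 
(.lf (nat_lit 502870) (.g (nat_lit 3478) (.e (nat_lit 163979) (nat_lit 30) (.e (nat_lit 573489) (nat_lit 14) (.e (nat_lit 73754) (nat_lit 8) (.e (nat_lit 557100) (nat_lit 13) (.e (nat_lit 172067) (nat_lit 3) (.e (nat_lit 204817) (nat_lit 17) (.e (nat_lit 7936) (nat_lit 149) (.e (nat_lit 761897) (nat_lit 15) .nil)))))))) (.g (nat_lit 1) (.e (nat_lit 174006) (nat_lit 0) .nil) .nil))) 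
(.lf (nat_lit 503382) (.g (nat_lit 3614) (.e (nat_lit 163979) (nat_lit 30) (.e (nat_lit 573492) (nat_lit 15) (.e (nat_lit 81954) (nat_lit 23) (.e (nat_lit 98367) (nat_lit 27) (.e (nat_lit 434271) (nat_lit 38) (.e (nat_lit 655375) (nat_lit 3) .nil)))))) (.g (nat_lit 1) (.e (nat_lit 175064) (nat_lit 0) .nil) .nil)))) (.nd (nat_lit 9) 
(.lf (nat_lit 503126) (.g (nat_lit 4577) (.e (nat_lit 163979) (nat_lit 30) (.e (nat_lit 573489) (nat_lit 14) (.e (nat_lit 73755) (nat_lit 8) (.e (nat_lit 557104) (nat_lit 14) (.e (nat_lit 180252) (nat_lit 10) (.e (nat_lit 573475) (nat_lit 12) (.e (nat_lit 57502) (nat_lit 38) (.e (nat_lit 638995) (nat_lit 7) .nil)))))))) (.g (nat_lit 1) (.e (nat_lit 174541) (nat_lit 0) .nil) .nil))) 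
(.lf (nat_lit 503638) (.g (nat_lit 3138) (.e (nat_lit 163979) (nat_lit 30) (.e (nat_lit 573493) (nat_lit 15) (.e (nat_lit 81956) (nat_lit 23) (.e (nat_lit 98356) (nat_lit 26) (.e (nat_lit 426148) (nat_lit 4) .nil))))) (.g (nat_lit 0) (.e (nat_lit 175969) (nat_lit 0) .nil) .nil))))) (.nd (nat_lit 8) (.nd (nat_lit 9) 
(.lf (nat_lit 502998) (.g (nat_lit 4408) (.e (nat_lit 163979) (nat_lit 30) (.e (nat_lit 573489) (nat_lit 14) (.e (nat_lit 73755) (nat_lit 8) (.e (nat_lit 557098) (nat_lit 13) (.e (nat_lit 172067) (nat_lit 3) (.e (nat_lit 204817) (nat_lit 17) (.e (nat_lit 7936) (nat_lit 149) (.e (nat_lit 761897) (nat_lit 15) .nil)))))))) (.g (nat_lit 1) (.e (nat_lit 174234) (nat_lit 0) .nil) .nil))) 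
(.lf (nat_lit 503510) (.g (nat_lit 2037) (.e (nat_lit 163979) (nat_lit 30) (.e (nat_lit 573493) (nat_lit 15) (.e (nat_lit 81953) (nat_lit 22) (.e (nat_lit 90170) (nat_lit 13) (.e (nat_lit 172042) (nat_lit 0) .nil))))) (.g (nat_lit 0) (.e (nat_lit 175658) (nat_lit 0) .nil) .nil)))) (.nd (nat_lit 9) 
(.lf (nat_lit 503254) (.g (nat_lit 2905) (.e (nat_lit 163979) (nat_lit 30) (.e (nat_lit 573491) (nat_lit 15) (.e (nat_lit 81954) (nat_lit 23) (.e (nat_lit 98356) (nat_lit 26) (.e (nat_lit 426400) (nat_lit 15) (.e (nat_lit 2056) (nat_lit 142) (.e (nat_lit 704589) (nat_lit 3) .nil))))))) (.g (nat_lit 1) (.e (nat_lit 174795) (nat_lit 0) .nil) .nil))) 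
(.lf (nat_lit 503766) (.g (nat_lit 2671) (.e (nat_lit 163979) (nat_lit 30) (.e (nat_lit 573493) (nat_lit 15) (.e (nat_lit 81956) (nat_lit 23) (.e (nat_lit 98367) (nat_lit 27) (.e (nat_lit 434214) (nat_lit 18) .nil))))) (.g (nat_lit 0) (.e (nat_lit 176239) (nat_lit 0) .nil) .nil))))))) (.nd (nat_lit 6) (.nd (nat_lit 7) (.nd (nat_lit 8) (.nd (nat_lit 9) 
(.lf (nat_lit 502838) (.g (nat_lit 5516) (.e (nat_lit 163979) (nat_lit 30) (.e (nat_lit 573488) (nat_lit 14) (.e (nat_lit 73755) (nat_lit 8) (.e (nat_lit 557105) (nat_lit 14) (.e (nat_lit 180252) (nat_lit 10) (.e (nat_lit 573474) (nat_lit 12) (.e (nat_lit 57504) (nat_lit 38) (.e (nat_lit 638995) (nat_lit 7) .nil)))))))) (.g (nat_lit 1) (.e (nat_lit 173965) (nat_lit 0) .nil) .nil))) 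
(.lf (nat_lit 503350) (.g (nat_lit 3544) (.e (nat_lit 163979) (nat_lit 30) (.e (nat_lit 573491) (nat_lit 15) (.e (nat_lit 81956) (nat_lit 23) (.e (nat_lit 98384) (nat_lit 32) (.e (nat_lit 475199) (nat_lit 40) (.e (nat_lit 704589) (nat_lit 3) .nil)))))) (.g (nat_lit 1) (.e (nat_lit 174957) (nat_lit 0) .nil) .nil)))) (.nd (nat_lit 9) 
(.lf (nat_lit 503094) (.g (nat_lit 3282) (.e (nat_lit 163979) (nat_lit 30) (.e (nat_lit 573489) (nat_lit 14) (.e (nat_lit 73755) (nat_lit 8) (.e (nat_lit 557104) (nat_lit 14) (.e (nat_lit 180250) (nat_lit 10) (.e (nat_lit 573475) (nat_lit 12) (.e (nat_lit 57500) (nat_lit 37) (.e (nat_lit 630799) (nat_lit 7) .nil)))))))) (.g (nat_lit 1) (.e (nat_lit 174508) (nat_lit 0) .nil) .nil))) 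
(.lf (nat_lit 503606) (.g (nat_lit 3421) (.e (nat_lit 163979) (nat_lit 30) (.e (nat_lit 573493) (nat_lit 15) (.e (nat_lit 81954) (nat_lit 23) (.e (nat_lit 98367) (nat_lit 27) (.e (nat_lit 434270) (nat_lit 38) (.e (nat_lit 655373) (nat_lit 3) .nil)))))) (.g (nat_lit 1) (.e (nat_lit 175877) (nat_lit 0) .nil) .nil))))) (.nd (nat_lit 8) (.nd (nat_lit 9) 
(.lf (nat_lit 502966) (.g (nat_lit 2368) (.e (nat_lit 163979) (nat_lit 30) (.e (nat_lit 573489) (nat_lit 14) (.e (nat_lit 73755) (nat_lit 8) (.e (nat_lit 557097) (nat_lit 13) (.e (nat_lit 172067) (nat_lit 3) (.e (nat_lit 204821) (nat_lit 17) (.e (nat_lit 2264) (nat_lit 149) (.e (nat_lit 761897) (nat_lit 15) .nil)))))))) (.g (nat_lit 1) (.e (nat_lit 174169) (nat_lit 0) .nil) .nil))) 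
(.lf (nat_lit 503478) (.g (nat_lit 4320) (.e (nat_lit 163979) (nat_lit 30) (.e (nat_lit 573493) (nat_lit 15) (.e (nat_lit 81951) (nat_lit 22) (.e (nat_lit 90170) (nat_lit 13) (.e (nat_lit 172059) (nat_lit 1) (.e (nat_lit 164345) (nat_lit 240) (.e (nat_lit 2610) (nat_lit 163) .nil))))))) (.g (nat_lit 1) (.e (nat_lit 175532) (nat_lit 0) .nil) .nil)))) (.nd (nat_lit 9) 
(.lf (nat_lit 503222) (.g (nat_lit 394) (.e (nat_lit 163979) (nat_lit 30) (.e (nat_lit 573491) (nat_lit 15) (.e (nat_lit 81954) (nat_lit 23) .nil))) (.g (nat_lit 0) (.e (nat_lit 174754) (nat_lit 0) .nil) .nil))) 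
(.lf (nat_lit 503734) (.g (nat_lit 3651) (.e (nat_lit 163979) (nat_lit 30) (.e (nat_lit 573493) (nat_lit 15) (.e (nat_lit 81956) (nat_lit 23) (.e (nat_lit 98365) (nat_lit 26) .nil)))) (.g (nat_lit 0) (.e (nat_lit 176142) (nat_lit 0) .nil) .nil)))))) (.nd (nat_lit 7) (.nd (nat_lit 8) (.nd (nat_lit 9) 
(.lf (nat_lit 502902) (.g (nat_lit 3747) (.e (nat_lit 163979) (nat_lit 30) (.e (nat_lit 573489) (nat_lit 14) (.e (nat_lit 73754) (nat_lit 8) (.e (nat_lit 557105) (nat_lit 14) (.e (nat_lit 180252) (nat_lit 10) (.e (nat_lit 573473) (nat_lit 12) (.e (nat_lit 57501) (nat_lit 37) (.e (nat_lit 630799) (nat_lit 7) .nil)))))))) (.g (nat_lit 1) (.e (nat_lit 174055) (nat_lit 0) .nil) .nil))) 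
(.lf (nat_lit 503414) (.g (nat_lit 3766) (.e (nat_lit 163979) (nat_lit 30) (.e (nat_lit 573492) (nat_lit 15) (.e (nat_lit 81956) (nat_lit 23) (.e (nat_lit 98356) (nat_lit 26) (.e (nat_lit 426420) (nat_lit 15) (.e (nat_lit 2057) (nat_lit 142) (.e (nat_lit 704589) (nat_lit 3) .nil))))))) (.g (nat_lit 1) (.e (nat_lit 175217) (nat_lit 0) .nil) .nil)))) (.nd (nat_lit 9) 
(.lf (nat_lit 503158) (.g (nat_lit 4908) (.e (nat_lit 163979) (nat_lit 30) (.e (nat_lit 573489) (nat_lit 14) (.e (nat_lit 73755) (nat_lit 8) (.e (nat_lit 557105) (nat_lit 14) (.e (nat_lit 180252) (nat_lit 10) (.e (nat_lit 573474) (nat_lit 12) (.e (nat_lit 57500) (nat_lit 37) (.e (nat_lit 630799) (nat_lit 7) .nil)))))))) (.g (nat_lit 1) (.e (nat_lit 174583) (nat_lit 0) .nil) .nil))) 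
(.lf (nat_lit 503670) (.g (nat_lit 3752) (.e (nat_lit 163979) (nat_lit 30) (.e (nat_lit 573493) (nat_lit 15) (.e (nat_lit 81956) (nat_lit 23) (.e (nat_lit 98356) (nat_lit 26) (.e (nat_lit 426399) (nat_lit 15) (.e (nat_lit 2056) (nat_lit 142) (.e (nat_lit 704589) (nat_lit 3) .nil))))))) (.g (nat_lit 1) (.e (nat_lit 176008) (nat_lit 0) .nil) .nil))))) (.nd (nat_lit 8) (.nd (nat_lit 9) 
(.lf (nat_lit 503030) (.g (nat_lit 2600) (.e (nat_lit 163979) (nat_lit 30) (.e (nat_lit 573489) (nat_lit 14) (.e (nat_lit 73755) (nat_lit 8) (.e (nat_lit 557103) (nat_lit 14) (.e (nat_lit 180250) (nat_lit 10) (.e (nat_lit 573474) (nat_lit 12) (.e (nat_lit 57501) (nat_lit 37) (.e (nat_lit 630799) (nat_lit 7) .nil)))))))) (.g (nat_lit 1) (.e (nat_lit 174327) (nat_lit 0) .nil) .nil))) 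
(.lf (nat_lit 503542) (.g (nat_lit 2470) (.e (nat_lit 163979) (nat_lit 30) (.e (nat_lit 573493) (nat_lit 15) (.e (nat_lit 81953) (nat_lit 22) (.e (nat_lit 90172) (nat_lit 14) .nil)))) (.g (nat_lit 0) (.e (nat_lit 175735) (nat_lit 0) .nil) .nil)))) (.nd (nat_lit 9) 
(.lf (nat_lit 503286) (.g (nat_lit 2672) (.e (nat_lit 163979) (nat_lit 30) (.e (nat_lit 573491) (nat_lit 15) (.e (nat_lit 81954) (nat_lit 23) (.e (nat_lit 98359) (nat_lit 26) (.e (nat_lit 426410) (nat_lit 15) (.e (nat_lit 2056) (nat_lit 142) (.e (nat_lit 704589) (nat_lit 3) .nil))))))) (.g (nat_lit 1) (.e (nat_lit 174852) (nat_lit 0) .nil) .nil))) 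
(.lf (nat_lit 503798) (.g (nat_lit 3072) (.e (nat_lit 163998) (nat_lit 38) (.e (nat_lit 639020) (nat_lit 16) (.e (nat_lit 65571) (nat_lit 3) (.e (nat_lit 98359) (nat_lit 26) (.e (nat_lit 426211) (nat_lit 9) .nil))))) (.g (nat_lit 0) (.e (nat_lit 176393) (nat_lit 0) .nil) .nil))))))))) (.nd (nat_lit 4) (.nd (nat_lit 5) (.nd (nat_lit 6) (.nd (nat_lit 7) (.nd (nat_lit 8) (.nd (nat_lit 9) 
(.lf (nat_lit 502798) (.g (nat_lit 6058) (.e (nat_lit 163979) (nat_lit 30) (.e (nat_lit 573488) (nat_lit 14) (.e (nat_lit 73755) (nat_lit 8) (.e (nat_lit 557103) (nat_lit 14) (.e (nat_lit 180250) (nat_lit 10) (.e (nat_lit 573474) (nat_lit 12) (.e (nat_lit 57503) (nat_lit 38) (.e (nat_lit 638995) (nat_lit 7) .nil)))))))) (.g (nat_lit 1) (.e (nat_lit 173925) (nat_lit 0) .nil) .nil))) 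
(.lf (nat_lit 503310) (.g (nat_lit 3296) (.e (nat_lit 163979) (nat_lit 30) (.e (nat_lit 573491) (nat_lit 15) (.e (nat_lit 81954) (nat_lit 23) (.e (nat_lit 98383) (nat_lit 32) (.e (nat_lit 475198) (nat_lit 40) (.e (nat_lit 704589) (nat_lit 3) .nil)))))) (.g (nat_lit 1) (.e (nat_lit 174916) (nat_lit 0) .nil) .nil)))) (.nd (nat_lit 9) 
(.lf (nat_lit 503054) (.g (nat_lit 3562) (.e (nat_lit 163979) (nat_lit 30) (.e (nat_lit 573489) (nat_lit 14) (.e (nat_lit 73755) (nat_lit 8) (.e (nat_lit 557103) (nat_lit 14) (.e (nat_lit 180250) (nat_lit 10) (.e (nat_lit 573478) (nat_lit 12) (.e (nat_lit 57502) (nat_lit 38) (.e (nat_lit 638996) (nat_lit 7) .nil)))))))) (.g (nat_lit 1) (.e (nat_lit 174351) (nat_lit 0) .nil) .nil))) 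
(.lf (nat_lit 503566) (.g (nat_lit 3757) (.e (nat_lit 163979) (nat_lit 30) (.e (nat_lit 573493) (nat_lit 15) (.e (nat_lit 81954) (nat_lit 23) (.e (nat_lit 98356) (nat_lit 26) (.e (nat_lit 426375) (nat_lit 15) .nil))))) (.g (nat_lit 0) (.e (nat_lit 175799) (nat_lit 0) .nil) .nil))))) (.nd (nat_lit 8) (.nd (nat_lit 9) 
(.lf (nat_lit 502926) (.g (nat_lit 3624) (.e (nat_lit 163979) (nat_lit 30) (.e (nat_lit 573489) (nat_lit 14) (.e (nat_lit 73755) (nat_lit 8) (.e (nat_lit 557096) (nat_lit 13) (.e (nat_lit 172067) (nat_lit 3) (.e (nat_lit 204817) (nat_lit 17) (.e (nat_lit 2272) (nat_lit 149) (.e (nat_lit 761899) (nat_lit 15) .nil)))))))) (.g (nat_lit 1) (.e (nat_lit 174095) (nat_lit 0) .nil) .nil))) 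
(.lf (nat_lit 503438) (.g (nat_lit 5343) (.e (nat_lit 163979) (nat_lit 30) (.e (nat_lit 573492) (nat_lit 15) (.e (nat_lit 81956) (nat_lit 23) (.e (nat_lit 98365) (nat_lit 26) (.e (nat_lit 426003) (nat_lit 0) .nil))))) (.g (nat_lit 0) (.e (nat_lit 175251) (nat_lit 0) .nil) .nil)))) (.nd (nat_lit 9) 
(.lf (nat_lit 503182) (.g (nat_lit 295) (.e (nat_lit 163979) (nat_lit 30) (.e (nat_lit 573489) (nat_lit 14) (.e (nat_lit 73768) (nat_lit 19) .nil))) (.g (nat_lit 0) (.e (nat_lit 174610) (nat_lit 0) .nil) .nil))) 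
(.lf (nat_lit 503694) (.g (nat_lit 3544) (.e (nat_lit 163979) (nat_lit 30) (.e (nat_lit 573493) (nat_lit 15) (.e (nat_lit 81956) (nat_lit 23) (.e (nat_lit 98359) (nat_lit 26) (.e (nat_lit 426022) (nat_lit 0) (.e (nat_lit 3397) (nat_lit 211) (.e (nat_lit 647180) (nat_lit 3) .nil))))))) (.g (nat_lit 1) (.e (nat_lit 176043) (nat_lit 0) .nil) .nil)))))) 
(.nd (nat_lit 7) (.nd (nat_lit 8) (.nd (nat_lit 9) 
(.lf (nat_lit 502862) (.g (nat_lit 3830) (.e (nat_lit 163979) (nat_lit 30) (.e (nat_lit 573489) (nat_lit 14) (.e (nat_lit 73754) (nat_lit 8) (.e (nat_lit 557100) (nat_lit 13) (.e (nat_lit 172065) (nat_lit 3) (.e (nat_lit 204817) (nat_lit 17) (.e (nat_lit 7936) (nat_lit 149) (.e (nat_lit 761899) (nat_lit 15) .nil)))))))) (.g (nat_lit 1) (.e (nat_lit 173995) (nat_lit 0) .nil) .nil))) 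
(.lf (nat_lit 503374) (.g (nat_lit 5756) (.e (nat_lit 163979) (nat_lit 30) (.e (nat_lit 573492) (nat_lit 15) (.e (nat_lit 81953) (nat_lit 22) (.e (nat_lit 90183) (nat_lit 17) .nil)))) (.g (nat_lit 0) (.e (nat_lit 175056) (nat_lit 0) .nil) .nil)))) (.nd (nat_lit 9) 
(.lf (nat_lit 503118) (.g (nat_lit 4668) (.e (nat_lit 163979) (nat_lit 30) (.e (nat_lit 573489) (nat_lit 14) (.e (nat_lit 73755) (nat_lit 8) (.e (nat_lit 557104) (nat_lit 14) (.e (nat_lit 180252) (nat_lit 10) (.e (nat_lit 573473) (nat_lit 12) (.e (nat_lit 57504) (nat_lit 38) (.e (nat_lit 638996) (nat_lit 7) .nil)))))))) (.g (nat_lit 1) (.e (nat_lit 174533) (nat_lit 0) .nil) .nil))) 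
(.lf (nat_lit 503630) (.g (nat_lit 2653) (.e (nat_lit 163979) (nat_lit 30) (.e (nat_lit 573493) (nat_lit 15) (.e (nat_lit 81956) (nat_lit 23) (.e (nat_lit 98354) (nat_lit 26) (.e (nat_lit 426025) (nat_lit 0) (.e (nat_lit 3399) (nat_lit 211) (.e (nat_lit 647180) (nat_lit 3) .nil))))))) (.g (nat_lit 1) (.e (nat_lit 175945) (nat_lit 0) .nil) .nil))))) (.nd (nat_lit 8) (.nd (nat_lit 9) 
(.lf (nat_lit 502990) (.g (nat_lit 3592) (.e (nat_lit 163979) (nat_lit 30) (.e (nat_lit 573489) (nat_lit 14) (.e (nat_lit 73755) (nat_lit 8) (.e (nat_lit 557098) (nat_lit 13) (.e (nat_lit 172067) (nat_lit 3) (.e (nat_lit 204814) (nat_lit 17) (.e (nat_lit 2270) (nat_lit 149) (.e (nat_lit 761899) (nat_lit 15) .nil)))))))) (.g (nat_lit 1) (.e (nat_lit 174226) (nat_lit 0) .nil) .nil))) 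
(.lf (nat_lit 503502) (.g (nat_lit 3780) (.e (nat_lit 163979) (nat_lit 30) (.e (nat_lit 573493) (nat_lit 15) (.e (nat_lit 81953) (nat_lit 22) (.e (nat_lit 90170) (nat_lit 13) (.e (nat_lit 172033) (nat_lit 0) (.e (nat_lit 3397) (nat_lit 211) (.e (nat_lit 647181) (nat_lit 3) .nil))))))) (.g (nat_lit 1) (.e (nat_lit 175640) (nat_lit 0) .nil) .nil)))) (.nd (nat_lit 9) 
(.lf (nat_lit 503246) (.g (nat_lit 2660) (.e (nat_lit 163979) (nat_lit 30) (.e (nat_lit 573491) (nat_lit 15) (.e (nat_lit 81954) (nat_lit 23) (.e (nat_lit 98356) (nat_lit 26) (.e (nat_lit 426379) (nat_lit 15) (.e (nat_lit 2056) (nat_lit 142) (.e (nat_lit 704589) (nat_lit 3) .nil))))))) (.g (nat_lit 1) (.e (nat_lit 174787) (nat_lit 0) .nil) .nil))) 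
(.lf (nat_lit 503758) (.g (nat_lit 3716) (.e (nat_lit 163979) (nat_lit 30) (.e (nat_lit 573493) (nat_lit 15) (.e (nat_lit 81956) (nat_lit 23) (.e (nat_lit 98367) (nat_lit 27) (.e (nat_lit 434206) (nat_lit 18) (.e (nat_lit 5537) (nat_lit 306) (.e (nat_lit 2610) (nat_lit 163) .nil))))))) (.g (nat_lit 1) (.e (nat_lit 176206) (nat_lit 0) .nil) .nil))))))) 
(.nd (nat_lit 6) (.nd (nat_lit 7) (.nd (nat_lit 8) (.nd (nat_lit 9) 
(.lf (nat_lit 502830) (.g (nat_lit 2850) (.e (nat_lit 163979) (nat_lit 30) (.e (nat_lit 573488) (nat_lit 14) (.e (nat_lit 73755) (nat_lit 8) (.e (nat_lit 557105) (nat_lit 14) (.e (nat_lit 180251) (nat_lit 10) (.e (nat_lit 573478) (nat_lit 12) (.e (nat_lit 57502) (nat_lit 38) (.e (nat_lit 638995) (nat_lit 7) .nil)))))))) (.g (nat_lit 1) (.e (nat_lit 173957) (nat_lit 0) .nil) .nil))) 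
(.lf (nat_lit 503342) (.g (nat_lit 1183) (.e (nat_lit 163979) (nat_lit 30) (.e (nat_lit 573491) (nat_lit 15) (.e (nat_lit 81956) (nat_lit 23) (.e (nat_lit 98359) (nat_lit 26) .nil)))) (.g (nat_lit 0) (.e (nat_lit 174948) (nat_lit 0) .nil) .nil)))) (.nd (nat_lit 9) 
(.lf (nat_lit 503086) (.g (nat_lit 3428) (.e (nat_lit 163979) (nat_lit 30) (.e (nat_lit 573489) (nat_lit 14) (.e (nat_lit 73755) (nat_lit 8) (.e (nat_lit 557104) (nat_lit 14) (.e (nat_lit 180244) (nat_lit 5) (.e (nat_lit 532503) (nat_lit 1) (.e (nat_lit 57661) (nat_lit 152) (.e (nat_lit 2606) (nat_lit 163) .nil)))))))) (.g (nat_lit 1) (.e (nat_lit 174455) (nat_lit 0) .nil) .nil))) 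
(.lf (nat_lit 503598) (.g (nat_lit 2310) (.e (nat_lit 163979) (nat_lit 30) (.e (nat_lit 573493) (nat_lit 15) (.e (nat_lit 81954) (nat_lit 23) (.e (nat_lit 98365) (nat_lit 26) .nil)))) (.g (nat_lit 0) (.e (nat_lit 175854) (nat_lit 0) .nil) .nil))))) (.nd (nat_lit 8) (.nd (nat_lit 9) 
(.lf (nat_lit 502958) (.g (nat_lit 3050) (.e (nat_lit 163979) (nat_lit 30) (.e (nat_lit 573489) (nat_lit 14) (.e (nat_lit 73755) (nat_lit 8) (.e (nat_lit 557097) (nat_lit 13) (.e (nat_lit 172067) (nat_lit 3) (.e (nat_lit 204816) (nat_lit 17) (.e (nat_lit 2273) (nat_lit 149) (.e (nat_lit 761898) (nat_lit 15) .nil)))))))) (.g (nat_lit 1) (.e (nat_lit 174161) (nat_lit 0) .nil) .nil))) 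
(.lf (nat_lit 503470) (.g (nat_lit 4330) (.e (nat_lit 163979) (nat_lit 30) (.e (nat_lit 573493) (nat_lit 15) (.e (nat_lit 81951) (nat_lit 22) (.e (nat_lit 90170) (nat_lit 13) (.e (nat_lit 172039) (nat_lit 0) (.e (nat_lit 3401) (nat_lit 211) (.e (nat_lit 647181) (nat_lit 3) .nil))))))) (.g (nat_lit 1) (.e (nat_lit 175519) (nat_lit 0) .nil) .nil)))) (.nd (nat_lit 9) 
(.lf (nat_lit 503214) (.g (nat_lit 3472) (.e (nat_lit 163979) (nat_lit 30) (.e (nat_lit 573491) (nat_lit 15) (.e (nat_lit 81951) (nat_lit 22) (.e (nat_lit 90170) (nat_lit 13) (.e (nat_lit 172137) (nat_lit 15) (.e (nat_lit 2059) (nat_lit 142) (.e (nat_lit 704589) (nat_lit 3) .nil))))))) (.g (nat_lit 1) (.e (nat_lit 174723) (nat_lit 0) .nil) .nil))) 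
(.lf (nat_lit 503726) (.g (nat_lit 5316) (.e (nat_lit 163979) (nat_lit 30) (.e (nat_lit 573493) (nat_lit 15) (.e (nat_lit 81956) (nat_lit 23) (.e (nat_lit 98362) (nat_lit 26) (.e (nat_lit 426025) (nat_lit 0) (.e (nat_lit 3397) (nat_lit 211) (.e (nat_lit 647180) (nat_lit 3) .nil))))))) (.g (nat_lit 1) (.e (nat_lit 176128) (nat_lit 0) .nil) .nil)))))) 
(.nd (nat_lit 7) (.nd (nat_lit 8) (.nd (nat_lit 9) 
(.lf (nat_lit 502894) (.g (nat_lit 2289) (.e (nat_lit 163979) (nat_lit 30) (.e (nat_lit 573489) (nat_lit 14) (.e (nat_lit 73754) (nat_lit 8) (.e (nat_lit 557105) (nat_lit 14) (.e (nat_lit 180251) (nat_lit 10) .nil))))) (.g (nat_lit 0) (.e (nat_lit 174047) (nat_lit 0) .nil) .nil))) 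
(.lf (nat_lit 503406) (.g (nat_lit 4045) (.e (nat_lit 163979) (nat_lit 30) (.e (nat_lit 573492) (nat_lit 15) (.e (nat_lit 81956) (nat_lit 23) (.e (nat_lit 98356) (nat_lit 26) (.e (nat_lit 426375) (nat_lit 15) (.e (nat_lit 2057) (nat_lit 142) (.e (nat_lit 704589) (nat_lit 3) .nil))))))) (.g (nat_lit 1) (.e (nat_lit 175209) (nat_lit 0) .nil) .nil)))) (.nd (nat_lit 9) 
(.lf (nat_lit 503150) (.g (nat_lit 4257) (.e (nat_lit 163979) (nat_lit 30) (.e (nat_lit 573489) (nat_lit 14) (.e (nat_lit 73755) (nat_lit 8) (.e (nat_lit 557105) (nat_lit 14) (.e (nat_lit 180252) (nat_lit 10) (.e (nat_lit 573473) (nat_lit 12) (.e (nat_lit 57500) (nat_lit 37) (.e (nat_lit 630799) (nat_lit 7) .nil)))))))) (.g (nat_lit 1) (.e (nat_lit 174575) (nat_lit 0) .nil) .nil))) 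
(.lf (nat_lit 503662) (.g (nat_lit 3597) (.e (nat_lit 163979) (nat_lit 30) (.e (nat_lit 573493) (nat_lit 15) (.e (nat_lit 81956) (nat_lit 23) (.e (nat_lit 98356) (nat_lit 26) (.e (nat_lit 426363) (nat_lit 15) (.e (nat_lit 2062) (nat_lit 142) (.e (nat_lit 704589) (nat_lit 3) .nil))))))) (.g (nat_lit 1) (.e (nat_lit 175998) (nat_lit 0) .nil) .nil))))) (.nd (nat_lit 8) (.nd (nat_lit 9) 
(.lf (nat_lit 503022) (.g (nat_lit 3863) (.e (nat_lit 163979) (nat_lit 30) (.e (nat_lit 573489) (nat_lit 14) (.e (nat_lit 73755) (nat_lit 8) (.e (nat_lit 557103) (nat_lit 14) (.e (nat_lit 180250) (nat_lit 10) (.e (nat_lit 573473) (nat_lit 12) (.e (nat_lit 57501) (nat_lit 37) (.e (nat_lit 630800) (nat_lit 7) .nil)))))))) (.g (nat_lit 1) (.e (nat_lit 174319) (nat_lit 0) .nil) .nil))) 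
(.lf (nat_lit 503534) (.g (nat_lit 4666) (.e (nat_lit 163979) (nat_lit 30) (.e (nat_lit 573493) (nat_lit 15) (.e (nat_lit 81953) (nat_lit 22) (.e (nat_lit 90170) (nat_lit 13) (.e (nat_lit 172061) (nat_lit 1) (.e (nat_lit 164347) (nat_lit 240) (.e (nat_lit 2610) (nat_lit 163) .nil))))))) (.g (nat_lit 1) (.e (nat_lit 175708) (nat_lit 0) .nil) .nil)))) (.nd (nat_lit 9) 
(.lf (nat_lit 503278) (.g (nat_lit 2772) (.e (nat_lit 163979) (nat_lit 30) (.e (nat_lit 573491) (nat_lit 15) (.e (nat_lit 81954) (nat_lit 23) (.e (nat_lit 98359) (nat_lit 26) (.e (nat_lit 426022) (nat_lit 0) (.e (nat_lit 3402) (nat_lit 211) (.e (nat_lit 647181) (nat_lit 3) .nil))))))) (.g (nat_lit 1) (.e (nat_lit 174825) (nat_lit 0) .nil) .nil))) 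
(.lf (nat_lit 503790) (.g (nat_lit 4474) (.e (nat_lit 163979) (nat_lit 30) (.e (nat_lit 573493) (nat_lit 15) (.e (nat_lit 81956) (nat_lit 23) (.e (nat_lit 98384) (nat_lit 32) (.e (nat_lit 475203) (nat_lit 40) .nil))))) (.g (nat_lit 0) (.e (nat_lit 176340) (nat_lit 0) .nil) .nil)))))))) (.nd (nat_lit 5) (.nd (nat_lit 6) (.nd (nat_lit 7) (.nd (nat_lit 8) (.nd (nat_lit 9) 
(.lf (nat_lit 502814) (.g (nat_lit 3303) (.e (nat_lit 163979) (nat_lit 30) (.e (nat_lit 573488) (nat_lit 14) (.e (nat_lit 73755) (nat_lit 8) (.e (nat_lit 557104) (nat_lit 14) (.e (nat_lit 180250) (nat_lit 10) (.e (nat_lit 573475) (nat_lit 12) (.e (nat_lit 57504) (nat_lit 38) (.e (nat_lit 638995) (nat_lit 7) .nil)))))))) (.g (nat_lit 1) (.e (nat_lit 173941) (nat_lit 0) .nil) .nil))) 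
(.lf (nat_lit 503326) (.g (nat_lit 3965) (.e (nat_lit 163979) (nat_lit 30) (.e (nat_lit 573491) (nat_lit 15) (.e (nat_lit 81954) (nat_lit 23) (.e (nat_lit 98386) (nat_lit 32) (.e (nat_lit 475198) (nat_lit 40) (.e (nat_lit 704589) (nat_lit 3) .nil)))))) (.g (nat_lit 1) (.e (nat_lit 174932) (nat_lit 0) .nil) .nil)))) (.nd (nat_lit 9) 
(.lf (nat_lit 503070) (.g (nat_lit 2547) (.e (nat_lit 163979) (nat_lit 30) (.e (nat_lit 573489) (nat_lit 14) (.e (nat_lit 73755) (nat_lit 8) (.e (nat_lit 557104) (nat_lit 14) (.e (nat_lit 180244) (nat_lit 5) (.e (nat_lit 532480) (nat_lit 0) (.e (nat_lit 2270) (nat_lit 149) (.e (nat_lit 761899) (nat_lit 15) .nil)))))))) (.g (nat_lit 1) (.e (nat_lit 174391) (nat_lit 0) .nil) .nil))) 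
(.lf (nat_lit 503582) (.g (nat_lit 2048) (.e (nat_lit 163979) (nat_lit 30) (.e (nat_lit 573493) (nat_lit 15) (.e (nat_lit 81954) (nat_lit 23) (.e (nat_lit 98359) (nat_lit 26) .nil)))) (.g (nat_lit 0) (.e (nat_lit 175818) (nat_lit 0) .nil) .nil))))) (.nd (nat_lit 8) (.nd (nat_lit 9) 
(.lf (nat_lit 502942) (.g (nat_lit 1661) (.e (nat_lit 163979) (nat_lit 30) (.e (nat_lit 573489) (nat_lit 14) (.e (nat_lit 73755) (nat_lit 8) (.e (nat_lit 557097) (nat_lit 13) (.e (nat_lit 172066) (nat_lit 3) .nil))))) (.g (nat_lit 0) (.e (nat_lit 174130) (nat_lit 0) .nil) .nil))) 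
(.lf (nat_lit 503454) (.g (nat_lit 4690) (.e (nat_lit 163979) (nat_lit 30) (.e (nat_lit 573492) (nat_lit 15) (.e (nat_lit 81956) (nat_lit 23) (.e (nat_lit 98384) (nat_lit 32) (.e (nat_lit 475198) (nat_lit 40) (.e (nat_lit 704589) (nat_lit 3) .nil)))))) (.g (nat_lit 1) (.e (nat_lit 175346) (nat_lit 0) .nil) .nil)))) (.nd (nat_lit 9) 
(.lf (nat_lit 503198) (.g (nat_lit 3466) (.e (nat_lit 163979) (nat_lit 30) (.e (nat_lit 573491) (nat_lit 15) (.e (nat_lit 81951) (nat_lit 22) (.e (nat_lit 90170) (nat_lit 13) (.e (nat_lit 172043) (nat_lit 0) (.e (nat_lit 3409) (nat_lit 212) (.e (nat_lit 655375) (nat_lit 3) .nil))))))) (.g (nat_lit 1) (.e (nat_lit 174669) (nat_lit 0) .nil) .nil))) 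
(.lf (nat_lit 503710) (.g (nat_lit 3140) (.e (nat_lit 163979) (nat_lit 30) (.e (nat_lit 573493) (nat_lit 15) (.e (nat_lit 81956) (nat_lit 23) (.e (nat_lit 98359) (nat_lit 26) (.e (nat_lit 426414) (nat_lit 15) (.e (nat_lit 2056) (nat_lit 142) (.e (nat_lit 704589) (nat_lit 3) .nil))))))) (.g (nat_lit 1) (.e (nat_lit 176102) (nat_lit 0) .nil) .nil)))))) 
(.nd (nat_lit 7) (.nd (nat_lit 8) (.nd (nat_lit 9) 
(.lf (nat_lit 502878) (.g (nat_lit 1799) (.e (nat_lit 163979) (nat_lit 30) (.e (nat_lit 573489) (nat_lit 14) (.e (nat_lit 73754) (nat_lit 8) (.e (nat_lit 557101) (nat_lit 13) (.e (nat_lit 172066) (nat_lit 3) .nil))))) (.g (nat_lit 0) (.e (nat_lit 174025) (nat_lit 0) .nil) .nil))) 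
(.lf (nat_lit 503390) (.g (nat_lit 1758) (.e (nat_lit 163979) (nat_lit 30) (.e (nat_lit 573492) (nat_lit 15) (.e (nat_lit 81956) (nat_lit 23) (.e (nat_lit 98355) (nat_lit 26) (.e (nat_lit 425996) (nat_lit 0) .nil))))) (.g (nat_lit 0) (.e (nat_lit 175155) (nat_lit 0) .nil) .nil)))) (.nd (nat_lit 9) 
(.lf (nat_lit 503134) (.g (nat_lit 4118) (.e (nat_lit 163979) (nat_lit 30) (.e (nat_lit 573489) (nat_lit 14) (.e (nat_lit 73755) (nat_lit 8) (.e (nat_lit 557105) (nat_lit 14) (.e (nat_lit 180250) (nat_lit 10) (.e (nat_lit 573475) (nat_lit 12) (.e (nat_lit 57503) (nat_lit 38) (.e (nat_lit 638995) (nat_lit 7) .nil)))))))) (.g (nat_lit 1) (.e (nat_lit 174550) (nat_lit 0) .nil) .nil))) 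
(.lf (nat_lit 503646) (.g (nat_lit 3395) (.e (nat_lit 163979) (nat_lit 30) (.e (nat_lit 573493) (nat_lit 15) (.e (nat_lit 81956) (nat_lit 23) (.e (nat_lit 98356) (nat_lit 26) (.e (nat_lit 426360) (nat_lit 15) (.e (nat_lit 2048) (nat_lit 142) (.e (nat_lit 704589) (nat_lit 3) .nil))))))) (.g (nat_lit 1) (.e (nat_lit 175977) (nat_lit 0) .nil) .nil))))) (.nd (nat_lit 8) (.nd (nat_lit 9) 
(.lf (nat_lit 503006) (.g (nat_lit 3588) (.e (nat_lit 163979) (nat_lit 30) (.e (nat_lit 573489) (nat_lit 14) (.e (nat_lit 73755) (nat_lit 8) (.e (nat_lit 557100) (nat_lit 13) (.e (nat_lit 172065) (nat_lit 3) .nil))))) (.g (nat_lit 0) (.e (nat_lit 174258) (nat_lit 0) .nil) .nil))) 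
(.lf (nat_lit 503518) (.g (nat_lit 3216) (.e (nat_lit 163979) (nat_lit 30) (.e (nat_lit 573493) (nat_lit 15) (.e (nat_lit 81953) (nat_lit 22) (.e (nat_lit 90170) (nat_lit 13) (.e (nat_lit 172046) (nat_lit 0) (.e (nat_lit 3403) (nat_lit 212) (.e (nat_lit 655373) (nat_lit 3) .nil))))))) (.g (nat_lit 1) (.e (nat_lit 175678) (nat_lit 0) .nil) .nil)))) (.nd (nat_lit 9) 
(.lf (nat_lit 503262) (.g (nat_lit 3091) (.e (nat_lit 163979) (nat_lit 30) (.e (nat_lit 573491) (nat_lit 15) (.e (nat_lit 81954) (nat_lit 23) (.e (nat_lit 98356) (nat_lit 26) (.e (nat_lit 426444) (nat_lit 19) (.e (nat_lit 114432) (nat_lit 3) .nil)))))) (.g (nat_lit 1) (.e (nat_lit 174803) (nat_lit 0) .nil) .nil))) 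
(.lf (nat_lit 503774) (.g (nat_lit 2920) (.e (nat_lit 163979) (nat_lit 30) (.e (nat_lit 573493) (nat_lit 15) (.e (nat_lit 81956) (nat_lit 23) (.e (nat_lit 98368) (nat_lit 27) (.e (nat_lit 434199) (nat_lit 18) .nil))))) (.g (nat_lit 0) (.e (nat_lit 176249) (nat_lit 0) .nil) .nil))))))) (.nd (nat_lit 6) (.nd (nat_lit 7) (.nd (nat_lit 8) (.nd (nat_lit 9) 
(.lf (nat_lit 502846) (.g (nat_lit 3425) (.e (nat_lit 163979) (nat_lit 30) (.e (nat_lit 573489) (nat_lit 14) (.e (nat_lit 73753) (nat_lit 8) (.e (nat_lit 557103) (nat_lit 14) (.e (nat_lit 180250) (nat_lit 10) (.e (nat_lit 573474) (nat_lit 12) (.e (nat_lit 57503) (nat_lit 38) (.e (nat_lit 638995) (nat_lit 7) .nil)))))))) (.g (nat_lit 1) (.e (nat_lit 173977) (nat_lit 0) .nil) .nil))) 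
(.lf (nat_lit 503358) (.g (nat_lit 3469) (.e (nat_lit 163979) (nat_lit 30) (.e (nat_lit 573492) (nat_lit 15) (.e (nat_lit 81951) (nat_lit 22) (.e (nat_lit 90170) (nat_lit 13) (.e (nat_lit 172049) (nat_lit 0) (.e (nat_lit 3409) (nat_lit 212) (.e (nat_lit 655375) (nat_lit 3) .nil))))))) (.g (nat_lit 1) (.e (nat_lit 175020) (nat_lit 0) .nil) .nil)))) (.nd (nat_lit 9) 
(.lf (nat_lit 503102) (.g (nat_lit 2794) (.e (nat_lit 163979) (nat_lit 30) (.e (nat_lit 573489) (nat_lit 14) (.e (nat_lit 73755) (nat_lit 8) (.e (nat_lit 557104) (nat_lit 14) (.e (nat_lit 180250) (nat_lit 10) (.e (nat_lit 573478) (nat_lit 12) (.e (nat_lit 57500) (nat_lit 37) (.e (nat_lit 630799) (nat_lit 7) .nil)))))))) (.g (nat_lit 1) (.e (nat_lit 174516) (nat_lit 0) .nil) .nil))) 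
(.lf (nat_lit 503614) (.g (nat_lit 4490) (.e (nat_lit 163979) (nat_lit 30) (.e (nat_lit 573493) (nat_lit 15) (.e (nat_lit 81954) (nat_lit 23) (.e (nat_lit 98383) (nat_lit 32) (.e (nat_lit 475198) (nat_lit 40) (.e (nat_lit 704589) (nat_lit 3) .nil)))))) (.g (nat_lit 1) (.e (nat_lit 175888) (nat_lit 0) .nil) .nil))))) (.nd (nat_lit 8) (.nd (nat_lit 9) 
(.lf (nat_lit 502974) (.g (nat_lit 4326) (.e (nat_lit 163979) (nat_lit 30) (.e (nat_lit 573489) (nat_lit 14) (.e (nat_lit 73755) (nat_lit 8) (.e (nat_lit 557098) (nat_lit 13) (.e (nat_lit 172065) (nat_lit 3) (.e (nat_lit 204817) (nat_lit 17) (.e (nat_lit 7936) (nat_lit 149) (.e (nat_lit 761894) (nat_lit 15) .nil)))))))) (.g (nat_lit 1) (.e (nat_lit 174203) (nat_lit 0) .nil) .nil))) 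
(.lf (nat_lit 503486) (.g (nat_lit 4478) (.e (nat_lit 163979) (nat_lit 30) (.e (nat_lit 573493) (nat_lit 15) (.e (nat_lit 81951) (nat_lit 22) (.e (nat_lit 90170) (nat_lit 13) (.e (nat_lit 172136) (nat_lit 15) (.e (nat_lit 2058) (nat_lit 142) (.e (nat_lit 704589) (nat_lit 3) .nil))))))) (.g (nat_lit 1) (.e (nat_lit 175561) (nat_lit 0) .nil) .nil)))) (.nd (nat_lit 9) 
(.lf (nat_lit 503230) (.g (nat_lit 2272) (.e (nat_lit 163979) (nat_lit 30) (.e (nat_lit 573491) (nat_lit 15) (.e (nat_lit 81954) (nat_lit 23) (.e (nat_lit 98356) (nat_lit 26) (.e (nat_lit 426352) (nat_lit 15) .nil))))) (.g (nat_lit 0) (.e (nat_lit 174771) (nat_lit 0) .nil) .nil))) 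
(.lf (nat_lit 503742) (.g (nat_lit 5000) (.e (nat_lit 163979) (nat_lit 30) (.e (nat_lit 573493) (nat_lit 15) (.e (nat_lit 81956) (nat_lit 23) (.e (nat_lit 98365) (nat_lit 26) (.e (nat_lit 426145) (nat_lit 4) .nil))))) (.g (nat_lit 0) (.e (nat_lit 176163) (nat_lit 0) .nil) .nil)))))) (.nd (nat_lit 7) (.nd (nat_lit 8) (.nd (nat_lit 9) 
(.lf (nat_lit 502910) (.g (nat_lit 3226) (.e (nat_lit 163979) (nat_lit 30) (.e (nat_lit 573489) (nat_lit 14) (.e (nat_lit 73754) (nat_lit 8) (.e (nat_lit 557105) (nat_lit 14) (.e (nat_lit 180252) (nat_lit 10) (.e (nat_lit 573474) (nat_lit 12) (.e (nat_lit 57503) (nat_lit 38) (.e (nat_lit 638995) (nat_lit 7) .nil)))))))) (.g (nat_lit 1) (.e (nat_lit 174063) (nat_lit 0) .nil) .nil))) 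
(.lf (nat_lit 503422) (.g (nat_lit 3828) (.e (nat_lit 163979) (nat_lit 30) (.e (nat_lit 573492) (nat_lit 15) (.e (nat_lit 81956) (nat_lit 23) (.e (nat_lit 98358) (nat_lit 26) (.e (nat_lit 426444) (nat_lit 19) .nil))))) (.g (nat_lit 0) (.e (nat_lit 175235) (nat_lit 0) .nil) .nil)))) (.nd (nat_lit 9) 
(.lf (nat_lit 503166) (.g (nat_lit 4862) (.e (nat_lit 163979) (nat_lit 30) (.e (nat_lit 573489) (nat_lit 14) (.e (nat_lit 73755) (nat_lit 8) (.e (nat_lit 557105) (nat_lit 14) (.e (nat_lit 180252) (nat_lit 10) (.e (nat_lit 573474) (nat_lit 12) (.e (nat_lit 57504) (nat_lit 38) (.e (nat_lit 638994) (nat_lit 7) .nil)))))))) (.g (nat_lit 1) (.e (nat_lit 174591) (nat_lit 0) .nil) .nil))) 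
(.lf (nat_lit 503678) (.g (nat_lit 3560) (.e (nat_lit 163979) (nat_lit 30) (.e (nat_lit 573493) (nat_lit 15) (.e (nat_lit 81956) (nat_lit 23) (.e (nat_lit 98356) (nat_lit 26) (.e (nat_lit 426439) (nat_lit 19) (.e (nat_lit 114432) (nat_lit 3) .nil)))))) (.g (nat_lit 1) (.e (nat_lit 176017) (nat_lit 0) .nil) .nil))))) (.nd (nat_lit 8) (.nd (nat_lit 9) 
(.lf (nat_lit 503038) (.g (nat_lit 4194) (.e (nat_lit 163979) (nat_lit 30) (.e (nat_lit 573489) (nat_lit 14) (.e (nat_lit 73755) (nat_lit 8) (.e (nat_lit 557103) (nat_lit 14) (.e (nat_lit 180250) (nat_lit 10) (.e (nat_lit 573475) (nat_lit 12) (.e (nat_lit 57500) (nat_lit 37) (.e (nat_lit 630800) (nat_lit 7) .nil)))))))) (.g (nat_lit 1) (.e (nat_lit 174335) (nat_lit 0) .nil) .nil))) 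
(.lf (nat_lit 503550) (.g (nat_lit 4671) (.e (nat_lit 163979) (nat_lit 30) (.e (nat_lit 573493) (nat_lit 15) (.e (nat_lit 81953) (nat_lit 22) (.e (nat_lit 90185) (nat_lit 17) (.e (nat_lit 237582) (nat_lit 1) .nil))))) (.g (nat_lit 0) (.e (nat_lit 175768) (nat_lit 0) .nil) .nil)))) (.nd (nat_lit 9) 
(.lf (nat_lit 503294) (.g (nat_lit 2741) (.e (nat_lit 163979) (nat_lit 30) (.e (nat_lit 573491) (nat_lit 15) (.e (nat_lit 81954) (nat_lit 23) (.e (nat_lit 98362) (nat_lit 26) (.e (nat_lit 426025) (nat_lit 0) (.e (nat_lit 3397) (nat_lit 211) (.e (nat_lit 647180) (nat_lit 3) .nil))))))) (.g (nat_lit 1) (.e (nat_lit 174863) (nat_lit 0) .nil) .nil))) 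
(.lf (nat_lit 503806) (.g (nat_lit 3516) (.e (nat_lit 163999) (nat_lit 38) (.e (nat_lit 639020) (nat_lit 16) (.e (nat_lit 65571) (nat_lit 3) (.e (nat_lit 98370) (nat_lit 28) (.e (nat_lit 442424) (nat_lit 22) (.e (nat_lit 204544) (nat_lit 3) .nil)))))) (.g (nat_lit 1) (.e (nat_lit 176404) (nat_lit 0) .nil) .nil)))))))))))) 
(.nd (nat_lit 1) (.nd (nat_lit 2) (.nd (nat_lit 3) (.nd (nat_lit 4) (.nd (nat_lit 5) 
(.nd (nat_lit 6) (.nd (nat_lit 7) (.nd (nat_lit 8) (.nd (nat_lit 9) 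
(.lf (nat_lit 502785) (.g (nat_lit 2365) (.e (nat_lit 163979) (nat_lit 30) (.e (nat_lit 573488) (nat_lit 14) (.e (nat_lit 73754) (nat_lit 8) (.e (nat_lit 557105) (nat_lit 14) (.e (nat_lit 180251) (nat_lit 10) (.e (nat_lit 573477) (nat_lit 12) (.e (nat_lit 57502) (nat_lit 38) (.e (nat_lit 638995) (nat_lit 7) .nil)))))))) (.g (nat_lit 1) (.e (nat_lit 173910) (nat_lit 0) .nil) .nil))) 
(.lf (nat_lit 503297) (.g (nat_lit 3229) (.e (nat_lit 163979) (nat_lit 30) (.e (nat_lit 573491) (nat_lit 15) (.e (nat_lit 81954) (nat_lit 23) (.e (nat_lit 98365) (nat_lit 26) (.e (nat_lit 426145) (nat_lit 4) (.e (nat_lit 229663) (nat_lit 240) (.e (nat_lit 2612) (nat_lit 163) .nil))))))) (.g (nat_lit 1) (.e (nat_lit 174875) (nat_lit 0) .nil) .nil)))) (.nd (nat_lit 9) 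
(.lf (nat_lit 503041) (.g (nat_lit 4230) (.e (nat_lit 163979) (nat_lit 30) (.e (nat_lit 573489) (nat_lit 14) (.e (nat_lit 73755) (nat_lit 8) (.e (nat_lit 557103) (nat_lit 14) (.e (nat_lit 180250) (nat_lit 10) (.e (nat_lit 573475) (nat_lit 12) (.e (nat_lit 57502) (nat_lit 38) (.e (nat_lit 638995) (nat_lit 7) .nil)))))))) (.g (nat_lit 1) (.e (nat_lit 174338) (nat_lit 0) .nil) .nil))) 
(.lf (nat_lit 503553) (.g (nat_lit 4917) (.e (nat_lit 163979) (nat_lit 30) (.e (nat_lit 573493) (nat_lit 15) (.e (nat_lit 81953) (nat_lit 22) (.e (nat_lit 90186) (nat_lit 17) .nil)))) (.g (nat_lit 0) (.e (nat_lit 175781) (nat_lit 0) .nil) .nil))))) (.nd (nat_lit 8) (.nd (nat_lit 9) 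
(.lf (nat_lit 502913) (.g (nat_lit 4349) (.e (nat_lit 163979) (nat_lit 30) (.e (nat_lit 573489) (nat_lit 14) (.e (nat_lit 73754) (nat_lit 8) (.e (nat_lit 557105) (nat_lit 14) (.e (nat_lit 180252) (nat_lit 10) (.e (nat_lit 573475) (nat_lit 12) (.e (nat_lit 57501) (nat_lit 37) (.e (nat_lit 630799) (nat_lit 7) .nil)))))))) (.g (nat_lit 1) (.e (nat_lit 174066) (nat_lit 0) .nil) .nil))) 
(.lf (nat_lit 503425) (.g (nat_lit 4493) (.e (nat_lit 163979) (nat_lit 30) (.e (nat_lit 573492) (nat_lit 15) (.e (nat_lit 81956) (nat_lit 23) (.e (nat_lit 98359) (nat_lit 26) (.e (nat_lit 426043) (nat_lit 0) (.e (nat_lit 3409) (nat_lit 212) (.e (nat_lit 655375) (nat_lit 3) .nil))))))) (.g (nat_lit 1) (.e (nat_lit 175238) (nat_lit 0) .nil) .nil)))) (.nd (nat_lit 9) 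
(.lf (nat_lit 503169) (.g (nat_lit 4697) (.e (nat_lit 163979) (nat_lit 30) (.e (nat_lit 573489) (nat_lit 14) (.e (nat_lit 73755) (nat_lit 8) (.e (nat_lit 557105) (nat_lit 14) (.e (nat_lit 180252) (nat_lit 10) (.e (nat_lit 573475) (nat_lit 12) (.e (nat_lit 57500) (nat_lit 37) (.e (nat_lit 630800) (nat_lit 7) .nil)))))))) (.g (nat_lit 1) (.e (nat_lit 174594) (nat_lit 0) .nil) .nil))) 
(.lf (nat_lit 503681) (.g (nat_lit 3972) (.e (nat_lit 163979) (nat_lit 30) (.e (nat_lit 573493) (nat_lit 15) (.e (nat_lit 81956) (nat_lit 23) (.e (nat_lit 98356) (nat_lit 26) (.e (nat_lit 426444) (nat_lit 19) (.e (nat_lit 114432) (nat_lit 3) .nil)))))) (.g (nat_lit 1) (.e (nat_lit 176020) (nat_lit 0) .nil) .nil)))))) (.nd (nat_lit 7) (.nd (nat_lit 8) (.nd (nat_lit 9) 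
(.lf (nat_lit 502849) (.g (nat_lit 2326) (.e (nat_lit 163979) (nat_lit 30) (.e (nat_lit 573489) (nat_lit 14) (.e (nat_lit 73753) (nat_lit 8) (.e (nat_lit 557105) (nat_lit 14) (.e (nat_lit 180252) (nat_lit 10) .nil))))) (.g (nat_lit 0) (.e (nat_lit 173980) (nat_lit 0) .nil) .nil))) 
(.lf (nat_lit 503361) (.g (nat_lit 589) (.e (nat_lit 163979) (nat_lit 30) (.e (nat_lit 573492) (nat_lit 15) (.e (nat_lit 81953) (nat_lit 22) .nil))) (.g (nat_lit 0) (.e (nat_lit 175026) (nat_lit 0) .nil) .nil)))) (.nd (nat_lit 9) 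
(.lf (nat_lit 503105) (.g (nat_lit 4419) (.e (nat_lit 163979) (nat_lit 30) (.e (nat_lit 573489) (nat_lit 14) (.e (nat_lit 73755) (nat_lit 8) (.e (nat_lit 557104) (nat_lit 14) (.e (nat_lit 180251) (nat_lit 10) (.e (nat_lit 573475) (nat_lit 12) (.e (nat_lit 57503) (nat_lit 38) (.e (nat_lit 638996) (nat_lit 7) .nil)))))))) (.g (nat_lit 1) (.e (nat_lit 174519) (nat_lit 0) .nil) .nil))) 
(.lf (nat_lit 503617) (.g (nat_lit 4721) (.e (nat_lit 163979) (nat_lit 30) (.e (nat_lit 573493) (nat_lit 15) (.e (nat_lit 81954) (nat_lit 23) (.e (nat_lit 98384) (nat_lit 32) (.e (nat_lit 475197) (nat_lit 40) (.e (nat_lit 704589) (nat_lit 3) .nil)))))) (.g (nat_lit 1) (.e (nat_lit 175891) (nat_lit 0) .nil) .nil))))) (.nd (nat_lit 8) (.nd (nat_lit 9) 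
(.lf (nat_lit 502977) (.g (nat_lit 3709) (.e (nat_lit 163979) (nat_lit 30) (.e (nat_lit 573489) (nat_lit 14) (.e (nat_lit 73755) (nat_lit 8) (.e (nat_lit 557098) (nat_lit 13) (.e (nat_lit 172065) (nat_lit 3) (.e (nat_lit 204821) (nat_lit 17) (.e (nat_lit 2270) (nat_lit 149) (.e (nat_lit 761898) (nat_lit 15) .nil)))))))) (.g (nat_lit 1) (.e (nat_lit 174206) (nat_lit 0) .nil) .nil))) 
(.lf (nat_lit 503489) (.g (nat_lit 4588) (.e (nat_lit 163979) (nat_lit 30) (.e (nat_lit 573493) (nat_lit 15) (.e (nat_lit 81951) (nat_lit 22) (.e (nat_lit 90170) (nat_lit 13) (.e (nat_lit 172137) (nat_lit 15) (.e (nat_lit 2058) (nat_lit 142) (.e (nat_lit 704589) (nat_lit 3) .nil))))))) (.g (nat_lit 1) (.e (nat_lit 175564) (nat_lit 0) .nil) .nil)))) (.nd (nat_lit 9) 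
(.lf (nat_lit 503233) (.g (nat_lit 2667) (.e (nat_lit 163979) (nat_lit 30) (.e (nat_lit 573491) (nat_lit 15) (.e (nat_lit 81954) (nat_lit 23) (.e (nat_lit 98356) (nat_lit 26) (.e (nat_lit 426360) (nat_lit 15) (.e (nat_lit 2060) (nat_lit 142) (.e (nat_lit 704589) (nat_lit 3) .nil))))))) (.g (nat_lit 1) (.e (nat_lit 174774) (nat_lit 0) .nil) .nil))) 
(.lf (nat_lit 503745) (.g (nat_lit 2239) (.e (nat_lit 163979) (nat_lit 30) (.e (nat_lit 573493) (nat_lit 15) (.e (nat_lit 81956) (nat_lit 23) (.e (nat_lit 106240) (nat_lit 26) .nil)))) (.g (nat_lit 0) (.e (nat_lit 176166) (nat_lit 0) .nil) .nil))))))) (.nd (nat_lit 6) (.nd (nat_lit 7) (.nd (nat_lit 8) (.nd (nat_lit 9) 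
(.lf (nat_lit 502817) (.g (nat_lit 2474) (.e (nat_lit 163979) (nat_lit 30) (.e (nat_lit 573488) (nat_lit 14) (.e (nat_lit 73755) (nat_lit 8) (.e (nat_lit 557104) (nat_lit 14) (.e (nat_lit 180251) (nat_lit 10) (.e (nat_lit 573477) (nat_lit 12) (.e (nat_lit 57502) (nat_lit 38) (.e (nat_lit 638995) (nat_lit 7) .nil)))))))) (.g (nat_lit 1) (.e (nat_lit 173944) (nat_lit 0) .nil) .nil))) 
(.lf (nat_lit 503329) (.g (nat_lit 2239) (.e (nat_lit 163979) (nat_lit 30) (.e (nat_lit 573491) (nat_lit 15) (.e (nat_lit 81955) (nat_lit 23) (.e (nat_lit 98356) (nat_lit 26) (.e (nat_lit 426444) (nat_lit 19) (.e (nat_lit 114432) (nat_lit 3) .nil)))))) (.g (nat_lit 1) (.e (nat_lit 174935) (nat_lit 0) .nil) .nil)))) (.nd (nat_lit 9) 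
(.lf (nat_lit 503073) (.g (nat_lit 3623) (.e (nat_lit 163979) (nat_lit 30) (.e (nat_lit 573489) (nat_lit 14) (.e (nat_lit 73755) (nat_lit 8) (.e (nat_lit 557104) (nat_lit 14) (.e (nat_lit 180244) (nat_lit 5) (.e (nat_lit 532481) (nat_lit 0) (.e (nat_lit 2272) (nat_lit 149) (.e (nat_lit 761899) (nat_lit 15) .nil)))))))) (.g (nat_lit 1) (.e (nat_lit 174395) (nat_lit 0) .nil) .nil))) 
(.lf (nat_lit 503585) (.g (nat_lit 3556) (.e (nat_lit 163979) (nat_lit 30) (.e (nat_lit 573493) (nat_lit 15) (.e (nat_lit 81954) (nat_lit 23) (.e (nat_lit 98359) (nat_lit 26) (.e (nat_lit 426022) (nat_lit 0) (.e (nat_lit 3402) (nat_lit 211) (.e (nat_lit 647180) (nat_lit 3) .nil))))))) (.g (nat_lit 1) (.e (nat_lit 175821) (nat_lit 0) .nil) .nil))))) (.nd (nat_lit 8) (.nd (nat_lit 9) 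
(.lf (nat_lit 502945) (.g (nat_lit 2984) (.e (nat_lit 163979) (nat_lit 30) (.e (nat_lit 573489) (nat_lit 14) (.e (nat_lit 73755) (nat_lit 8) (.e (nat_lit 557097) (nat_lit 13) (.e (nat_lit 172066) (nat_lit 3) (.e (nat_lit 204817) (nat_lit 17) (.e (nat_lit 2272) (nat_lit 149) (.e (nat_lit 761897) (nat_lit 15) .nil)))))))) (.g (nat_lit 1) (.e (nat_lit 174133) (nat_lit 0) .nil) .nil))) 
(.lf (nat_lit 503457) (.g (nat_lit 3814) (.e (nat_lit 163979) (nat_lit 30) (.e (nat_lit 573492) (nat_lit 15) (.e (nat_lit 81956) (nat_lit 23) (.e (nat_lit 98384) (nat_lit 32) (.e (nat_lit 475203) (nat_lit 40) .nil))))) (.g (nat_lit 0) (.e (nat_lit 175349) (nat_lit 0) .nil) .nil)))) (.nd (nat_lit 9) 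
(.lf (nat_lit 503201) (.g (nat_lit 3196) (.e (nat_lit 163979) (nat_lit 30) (.e (nat_lit 573491) (nat_lit 15) (.e (nat_lit 81951) (nat_lit 22) (.e (nat_lit 90170) (nat_lit 13) (.e (nat_lit 172048) (nat_lit 0) .nil))))) (.g (nat_lit 0) (.e (nat_lit 174681) (nat_lit 0) .nil) .nil))) 
(.lf (nat_lit 503713) (.g (nat_lit 5440) (.e (nat_lit 163979) (nat_lit 30) (.e (nat_lit 573493) (nat_lit 15) (.e (nat_lit 81956) (nat_lit 23) (.e (nat_lit 98359) (nat_lit 26) (.e (nat_lit 426412) (nat_lit 15) (.e (nat_lit 2059) (nat_lit 142) (.e (nat_lit 704589) (nat_lit 3) .nil))))))) (.g (nat_lit 1) (.e (nat_lit 176105) (nat_lit 0) .nil) .nil)))))) 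
(.nd (nat_lit 7) (.nd (nat_lit 8) (.nd (nat_lit 9) 
(.lf (nat_lit 502881) (.g (nat_lit 2709) (.e (nat_lit 163979) (nat_lit 30) (.e (nat_lit 573489) (nat_lit 14) (.e (nat_lit 73754) (nat_lit 8) (.e (nat_lit 557101) (nat_lit 13) (.e (nat_lit 172067) (nat_lit 3) (.e (nat_lit 204817) (nat_lit 17) (.e (nat_lit 7936) (nat_lit 149) (.e (nat_lit 761897) (nat_lit 15) .nil)))))))) (.g (nat_lit 1) (.e (nat_lit 174032) (nat_lit 0) .nil) .nil))) 
(.lf (nat_lit 503393) (.g (nat_lit 3089) (.e (nat_lit 163979) (nat_lit 30) (.e (nat_lit 573492) (nat_lit 15) (.e (nat_lit 81956) (nat_lit 23) (.e (nat_lit 98355) (nat_lit 26) (.e (nat_lit 426444) (nat_lit 19) (.e (nat_lit 114432) (nat_lit 3) .nil)))))) (.g (nat_lit 1) (.e (nat_lit 175158) (nat_lit 0) .nil) .nil)))) (.nd (nat_lit 9) 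
(.lf (nat_lit 503137) (.g (nat_lit 2628) (.e (nat_lit 163979) (nat_lit 30) (.e (nat_lit 573489) (nat_lit 14) (.e (nat_lit 73755) (nat_lit 8) (.e (nat_lit 557105) (nat_lit 14) (.e (nat_lit 180251) (nat_lit 10) (.e (nat_lit 573473) (nat_lit 12) (.e (nat_lit 57503) (nat_lit 38) (.e (nat_lit 638996) (nat_lit 7) .nil)))))))) (.g (nat_lit 1) (.e (nat_lit 174553) (nat_lit 0) .nil) .nil))) 
(.lf (nat_lit 503649) (.g (nat_lit 3386) (.e (nat_lit 163979) (nat_lit 30) (.e (nat_lit 573493) (nat_lit 15) (.e (nat_lit 81956) (nat_lit 23) (.e (nat_lit 98356) (nat_lit 26) (.e (nat_lit 426360) (nat_lit 15) (.e (nat_lit 2053) (nat_lit 142) (.e (nat_lit 704589) (nat_lit 3) .nil))))))) (.g (nat_lit 1) (.e (nat_lit 175980) (nat_lit 0) .nil) .nil))))) (.nd (nat_lit 8) (.nd (nat_lit 9) 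
(.lf (nat_lit 503009) (.g (nat_lit 2298) (.e (nat_lit 163979) (nat_lit 30) (.e (nat_lit 573489) (nat_lit 14) (.e (nat_lit 73755) (nat_lit 8) (.e (nat_lit 557103) (nat_lit 14) (.e (nat_lit 180243) (nat_lit 5) .nil))))) (.g (nat_lit 0) (.e (nat_lit 174265) (nat_lit 0) .nil) .nil))) 
(.lf (nat_lit 503521) (.g (nat_lit 3666) (.e (nat_lit 163979) (nat_lit 30) (.e (nat_lit 573493) (nat_lit 15) (.e (nat_lit 81953) (nat_lit 22) (.e (nat_lit 90170) (nat_lit 13) (.e (nat_lit 172048) (nat_lit 0) (.e (nat_lit 3409) (nat_lit 212) (.e (nat_lit 655375) (nat_lit 3) .nil))))))) (.g (nat_lit 1) (.e (nat_lit 175682) (nat_lit 0) .nil) .nil)))) (.nd (nat_lit 9) 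
(.lf (nat_lit 503265) (.g (nat_lit 2320) (.e (nat_lit 163979) (nat_lit 30) (.e (nat_lit 573491) (nat_lit 15) (.e (nat_lit 81954) (nat_lit 23) (.e (nat_lit 98357) (nat_lit 26) (.e (nat_lit 426444) (nat_lit 19) (.e (nat_lit 114432) (nat_lit 3) .nil)))))) (.g (nat_lit 1) (.e (nat_lit 174810) (nat_lit 0) .nil) .nil))) 
(.lf (nat_lit 503777) (.g (nat_lit 2920) (.e (nat_lit 163979) (nat_lit 30) (.e (nat_lit 573493) (nat_lit 15) (.e (nat_lit 81956) (nat_lit 23) (.e (nat_lit 98368) (nat_lit 27) (.e (nat_lit 434214) (nat_lit 18) .nil))))) (.g (nat_lit 0) (.e (nat_lit 176304) (nat_lit 0) .nil) .nil)))))))) (.nd (nat_lit 5) (.nd (nat_lit 6) (.nd (nat_lit 7) (.nd (nat_lit 8) (.nd (nat_lit 9) 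
(.lf (nat_lit 502801) (.g (nat_lit 5622) (.e (nat_lit 163979) (nat_lit 30) (.e (nat_lit 573488) (nat_lit 14) (.e (nat_lit 73755) (nat_lit 8) (.e (nat_lit 557103) (nat_lit 14) (.e (nat_lit 180250) (nat_lit 10) (.e (nat_lit 573475) (nat_lit 12) (.e (nat_lit 57503) (nat_lit 38) (.e (nat_lit 638995) (nat_lit 7) .nil)))))))) (.g (nat_lit 1) (.e (nat_lit 173928) (nat_lit 0) .nil) .nil))) 
(.lf (nat_lit 503313) (.g (nat_lit 4006) (.e (nat_lit 163979) (nat_lit 30) (.e (nat_lit 573491) (nat_lit 15) (.e (nat_lit 81954) (nat_lit 23) (.e (nat_lit 98384) (nat_lit 32) (.e (nat_lit 475198) (nat_lit 40) (.e (nat_lit 704589) (nat_lit 3) .nil)))))) (.g (nat_lit 1) (.e (nat_lit 174919) (nat_lit 0) .nil) .nil)))) (.nd (nat_lit 9) 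
(.lf (nat_lit 503057) (.g (nat_lit 2565) (.e (nat_lit 163979) (nat_lit 30) (.e (nat_lit 573489) (nat_lit 14) (.e (nat_lit 73755) (nat_lit 8) (.e (nat_lit 557103) (nat_lit 14) (.e (nat_lit 180252) (nat_lit 10) .nil))))) (.g (nat_lit 0) (.e (nat_lit 174354) (nat_lit 0) .nil) .nil))) 
(.lf (nat_lit 503569) (.g (nat_lit 3844) (.e (nat_lit 163979) (nat_lit 30) (.e (nat_lit 573493) (nat_lit 15) (.e (nat_lit 81954) (nat_lit 23) (.e (nat_lit 98356) (nat_lit 26) (.e (nat_lit 426376) (nat_lit 15) (.e (nat_lit 2058) (nat_lit 142) (.e (nat_lit 704589) (nat_lit 3) .nil))))))) (.g (nat_lit 1) (.e (nat_lit 175802) (nat_lit 0) .nil) .nil))))) (.nd (nat_lit 8) (.nd (nat_lit 9) 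
(.lf (nat_lit 502929) (.g (nat_lit 3120) (.e (nat_lit 163979) (nat_lit 30) (.e (nat_lit 573489) (nat_lit 14) (.e (nat_lit 73755) (nat_lit 8) (.e (nat_lit 557096) (nat_lit 13) (.e (nat_lit 172067) (nat_lit 3) (.e (nat_lit 204821) (nat_lit 17) (.e (nat_lit 2270) (nat_lit 149) (.e (nat_lit 761899) (nat_lit 15) .nil)))))))) (.g (nat_lit 1) (.e (nat_lit 174098) (nat_lit 0) .nil) .nil))) 
(.lf (nat_lit 503441) (.g (nat_lit 5216) (.e (nat_lit 163979) (nat_lit 30) (.e (nat_lit 573492) (nat_lit 15) (.e (nat_lit 81956) (nat_lit 23) (.e (nat_lit 98365) (nat_lit 26) (.e (nat_lit 426044) (nat_lit 0) .nil))))) (.g (nat_lit 0) (.e (nat_lit 175255) (nat_lit 0) .nil) .nil)))) (.nd (nat_lit 9) 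
(.lf (nat_lit 503185) (.g (nat_lit 1750) (.e (nat_lit 163979) (nat_lit 30) (.e (nat_lit 573491) (nat_lit 15) (.e (nat_lit 81951) (nat_lit 22) (.e (nat_lit 90167) (nat_lit 13) .nil)))) (.g (nat_lit 0) (.e (nat_lit 174639) (nat_lit 0) .nil) .nil))) 
(.lf (nat_lit 503697) (.g (nat_lit 3769) (.e (nat_lit 163979) (nat_lit 30) (.e (nat_lit 573493) (nat_lit 15) (.e (nat_lit 81956) (nat_lit 23) (.e (nat_lit 98359) (nat_lit 26) (.e (nat_lit 426022) (nat_lit 0) (.e (nat_lit 3402) (nat_lit 211) (.e (nat_lit 647180) (nat_lit 3) .nil))))))) (.g (nat_lit 1) (.e (nat_lit 176046) (nat_lit 0) .nil) .nil)))))) 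
(.nd (nat_lit 7) (.nd (nat_lit 8) (.nd (nat_lit 9) 
(.lf (nat_lit 502865) (.g (nat_lit 2565) (.e (nat_lit 163979) (nat_lit 30) (.e (nat_lit 573489) (nat_lit 14) (.e (nat_lit 73754) (nat_lit 8) (.e (nat_lit 557100) (nat_lit 13) (.e (nat_lit 172067) (nat_lit 3) .nil))))) (.g (nat_lit 0) (.e (nat_lit 174001) (nat_lit 0) .nil) .nil))) 
(.lf (nat_lit 503377) (.g (nat_lit 2207) (.e (nat_lit 163979) (nat_lit 30) (.e (nat_lit 573492) (nat_lit 15) (.e (nat_lit 81954) (nat_lit 23) (.e (nat_lit 98359) (nat_lit 26) .nil)))) (.g (nat_lit 0) (.e (nat_lit 175059) (nat_lit 0) .nil) .nil)))) (.nd (nat_lit 9) 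
(.lf (nat_lit 503121) (.g (nat_lit 3371) (.e (nat_lit 163979) (nat_lit 30) (.e (nat_lit 573489) (nat_lit 14) (.e (nat_lit 73755) (nat_lit 8) (.e (nat_lit 557104) (nat_lit 14) (.e (nat_lit 180252) (nat_lit 10) (.e (nat_lit 573474) (nat_lit 12) (.e (nat_lit 57504) (nat_lit 38) (.e (nat_lit 638996) (nat_lit 7) .nil)))))))) (.g (nat_lit 1) (.e (nat_lit 174536) (nat_lit 0) .nil) .nil))) 
(.lf (nat_lit 503633) (.g (nat_lit 1938) (.e (nat_lit 163979) (nat_lit 30) (.e (nat_lit 573493) (nat_lit 15) (.e (nat_lit 81956) (nat_lit 23) (.e (nat_lit 98355) (nat_lit 26) .nil)))) (.g (nat_lit 0) (.e (nat_lit 175950) (nat_lit 0) .nil) .nil))))) (.nd (nat_lit 8) (.nd (nat_lit 9) 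
(.lf (nat_lit 502993) (.g (nat_lit 3590) (.e (nat_lit 163979) (nat_lit 30) (.e (nat_lit 573489) (nat_lit 14) (.e (nat_lit 73755) (nat_lit 8) (.e (nat_lit 557098) (nat_lit 13) (.e (nat_lit 172067) (nat_lit 3) (.e (nat_lit 204816) (nat_lit 17) (.e (nat_lit 2273) (nat_lit 149) (.e (nat_lit 761899) (nat_lit 15) .nil)))))))) (.g (nat_lit 1) (.e (nat_lit 174229) (nat_lit 0) .nil) .nil))) 
(.lf (nat_lit 503505) (.g (nat_lit 2529) (.e (nat_lit 163979) (nat_lit 30) (.e (nat_lit 573493) (nat_lit 15) (.e (nat_lit 81953) (nat_lit 22) (.e (nat_lit 90170) (nat_lit 13) (.e (nat_lit 172036) (nat_lit 0) .nil))))) (.g (nat_lit 0) (.e (nat_lit 175650) (nat_lit 0) .nil) .nil)))) (.nd (nat_lit 9) 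
(.lf (nat_lit 503249) (.g (nat_lit 1898) (.e (nat_lit 163979) (nat_lit 30) (.e (nat_lit 573491) (nat_lit 15) (.e (nat_lit 81954) (nat_lit 23) (.e (nat_lit 98356) (nat_lit 26) (.e (nat_lit 426416) (nat_lit 15) .nil))))) (.g (nat_lit 0) (.e (nat_lit 174790) (nat_lit 0) .nil) .nil))) 
(.lf (nat_lit 503761) (.g (nat_lit 3020) (.e (nat_lit 163979) (nat_lit 30) (.e (nat_lit 573493) (nat_lit 15) (.e (nat_lit 81956) (nat_lit 23) (.e (nat_lit 98367) (nat_lit 27) (.e (nat_lit 434210) (nat_lit 18) .nil))))) (.g (nat_lit 0) (.e (nat_lit 176227) (nat_lit 0) .nil) .nil))))))) (.nd (nat_lit 6) (.nd (nat_lit 7) (.nd (nat_lit 8) (.nd (nat_lit 9) 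
(.lf (nat_lit 502833) (.g (nat_lit 5152) (.e (nat_lit 163979) (nat_lit 30) (.e (nat_lit 573488) (nat_lit 14) (.e (nat_lit 73755) (nat_lit 8) (.e (nat_lit 557105) (nat_lit 14) (.e (nat_lit 180252) (nat_lit 10) (.e (nat_lit 573473) (nat_lit 12) (.e (nat_lit 57504) (nat_lit 38) (.e (nat_lit 638995) (nat_lit 7) .nil)))))))) (.g (nat_lit 1) (.e (nat_lit 173960) (nat_lit 0) .nil) .nil))) 
(.lf (nat_lit 503345) (.g (nat_lit 2253) (.e (nat_lit 163979) (nat_lit 30) (.e (nat_lit 573491) (nat_lit 15) (.e (nat_lit 81956) (nat_lit 23) (.e (nat_lit 98363) (nat_lit 26) (.e (nat_lit 426419) (nat_lit 15) .nil))))) (.g (nat_lit 0) (.e (nat_lit 174951) (nat_lit 0) .nil) .nil)))) (.nd (nat_lit 9) 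
(.lf (nat_lit 503089) (.g (nat_lit 2466) (.e (nat_lit 163979) (nat_lit 30) (.e (nat_lit 573489) (nat_lit 14) (.e (nat_lit 73755) (nat_lit 8) (.e (nat_lit 557104) (nat_lit 14) (.e (nat_lit 180245) (nat_lit 5) (.e (nat_lit 532484) (nat_lit 0) (.e (nat_lit 7936) (nat_lit 149) (.e (nat_lit 761894) (nat_lit 15) .nil)))))))) (.g (nat_lit 1) (.e (nat_lit 174478) (nat_lit 0) .nil) .nil))) 
(.lf (nat_lit 503601) (.g (nat_lit 3541) (.e (nat_lit 163979) (nat_lit 30) (.e (nat_lit 573493) (nat_lit 15) (.e (nat_lit 81954) (nat_lit 23) (.e (nat_lit 98366) (nat_lit 27) (.e (nat_lit 434271) (nat_lit 38) (.e (nat_lit 655373) (nat_lit 3) .nil)))))) (.g (nat_lit 1) (.e (nat_lit 175866) (nat_lit 0) .nil) .nil))))) (.nd (nat_lit 8) (.nd (nat_lit 9) 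
(.lf (nat_lit 502961) (.g (nat_lit 3997) (.e (nat_lit 163979) (nat_lit 30) (.e (nat_lit 573489) (nat_lit 14) (.e (nat_lit 73755) (nat_lit 8) (.e (nat_lit 557097) (nat_lit 13) (.e (nat_lit 172067) (nat_lit 3) (.e (nat_lit 204817) (nat_lit 17) (.e (nat_lit 2272) (nat_lit 149) (.e (nat_lit 761899) (nat_lit 15) .nil)))))))) (.g (nat_lit 1) (.e (nat_lit 174164) (nat_lit 0) .nil) .nil))) 
(.lf (nat_lit 503473) (.g (nat_lit 4226) (.e (nat_lit 163979) (nat_lit 30) (.e (nat_lit 573493) (nat_lit 15) (.e (nat_lit 81951) (nat_lit 22) (.e (nat_lit 90170) (nat_lit 13) (.e (nat_lit 172043) (nat_lit 0) .nil))))) (.g (nat_lit 0) (.e (nat_lit 175524) (nat_lit 0) .nil) .nil)))) (.nd (nat_lit 9) 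
(.lf (nat_lit 503217) (.g (nat_lit 1743) (.e (nat_lit 163979) (nat_lit 30) (.e (nat_lit 573491) (nat_lit 15) (.e (nat_lit 81951) (nat_lit 22) (.e (nat_lit 90173) (nat_lit 14) .nil)))) (.g (nat_lit 0) (.e (nat_lit 174737) (nat_lit 0) .nil) .nil))) 
(.lf (nat_lit 503729) (.g (nat_lit 6605) (.e (nat_lit 163979) (nat_lit 30) (.e (nat_lit 573493) (nat_lit 15) (.e (nat_lit 81956) (nat_lit 23) (.e (nat_lit 98362) (nat_lit 26) (.e (nat_lit 426412) (nat_lit 15) (.e (nat_lit 2059) (nat_lit 142) (.e (nat_lit 704589) (nat_lit 3) .nil))))))) (.g (nat_lit 1) (.e (nat_lit 176132) (nat_lit 0) .nil) .nil)))))) 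
(.nd (nat_lit 7) (.nd (nat_lit 8) (.nd (nat_lit 9) 
(.lf (nat_lit 502897) (.g (nat_lit 3092) (.e (nat_lit 163979) (nat_lit 30) (.e (nat_lit 573489) (nat_lit 14) (.e (nat_lit 73754) (nat_lit 8) (.e (nat_lit 557105) (nat_lit 14) (.e (nat_lit 180251) (nat_lit 10) (.e (nat_lit 573478) (nat_lit 12) (.e (nat_lit 57500) (nat_lit 37) (.e (nat_lit 630799) (nat_lit 7) .nil)))))))) (.g (nat_lit 1) (.e (nat_lit 174050) (nat_lit 0) .nil) .nil))) 
(.lf (nat_lit 503409) (.g (nat_lit 4106) (.e (nat_lit 163979) (nat_lit 30) (.e (nat_lit 573492) (nat_lit 15) (.e (nat_lit 81956) (nat_lit 23) (.e (nat_lit 98356) (nat_lit 26) (.e (nat_lit 426376) (nat_lit 15) (.e (nat_lit 2059) (nat_lit 142) (.e (nat_lit 704589) (nat_lit 3) .nil))))))) (.g (nat_lit 1) (.e (nat_lit 175212) (nat_lit 0) .nil) .nil)))) (.nd (nat_lit 9) 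
(.lf (nat_lit 503153) (.g (nat_lit 2351) (.e (nat_lit 163979) (nat_lit 30) (.e (nat_lit 573489) (nat_lit 14) (.e (nat_lit 73755) (nat_lit 8) (.e (nat_lit 557105) (nat_lit 14) (.e (nat_lit 180252) (nat_lit 10) (.e (nat_lit 573473) (nat_lit 12) (.e (nat_lit 57502) (nat_lit 38) (.e (nat_lit 638995) (nat_lit 7) .nil)))))))) (.g (nat_lit 1) (.e (nat_lit 174578) (nat_lit 0) .nil) .nil))) 
(.lf (nat_lit 503665) (.g (nat_lit 3319) (.e (nat_lit 163979) (nat_lit 30) (.e (nat_lit 573493) (nat_lit 15) (.e (nat_lit 81956) (nat_lit 23) (.e (nat_lit 98356) (nat_lit 26) (.e (nat_lit 426377) (nat_lit 15) .nil))))) (.g (nat_lit 0) (.e (nat_lit 176001) (nat_lit 0) .nil) .nil))))) (.nd (nat_lit 8) (.nd (nat_lit 9) 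
(.lf (nat_lit 503025) (.g (nat_lit 3636) (.e (nat_lit 163979) (nat_lit 30) (.e (nat_lit 573489) (nat_lit 14) (.e (nat_lit 73755) (nat_lit 8) (.e (nat_lit 557103) (nat_lit 14) (.e (nat_lit 180250) (nat_lit 10) (.e (nat_lit 573473) (nat_lit 12) (.e (nat_lit 57504) (nat_lit 38) (.e (nat_lit 638994) (nat_lit 7) .nil)))))))) (.g (nat_lit 1) (.e (nat_lit 174322) (nat_lit 0) .nil) .nil))) 
(.lf (nat_lit 503537) (.g (nat_lit 3295) (.e (nat_lit 163979) (nat_lit 30) (.e (nat_lit 573493) (nat_lit 15) (.e (nat_lit 81953) (nat_lit 22) (.e (nat_lit 90170) (nat_lit 13) (.e (nat_lit 172137) (nat_lit 15) (.e (nat_lit 2056) (nat_lit 142) (.e (nat_lit 704589) (nat_lit 3) .nil))))))) (.g (nat_lit 1) (.e (nat_lit 175728) (nat_lit 0) .nil) .nil)))) (.nd (nat_lit 9) 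
(.lf (nat_lit 503281) (.g (nat_lit 2674) (.e (nat_lit 163979) (nat_lit 30) (.e (nat_lit 573491) (nat_lit 15) (.e (nat_lit 81954) (nat_lit 23) (.e (nat_lit 98359) (nat_lit 26) (.e (nat_lit 426023) (nat_lit 0) (.e (nat_lit 3401) (nat_lit 211) (.e (nat_lit 647180) (nat_lit 3) .nil))))))) (.g (nat_lit 1) (.e (nat_lit 174828) (nat_lit 0) .nil) .nil))) 
(.lf (nat_lit 503793) (.g (nat_lit 3872) (.e (nat_lit 163979) (nat_lit 30) (.e (nat_lit 573493) (nat_lit 15) (.e (nat_lit 81956) (nat_lit 23) (.e (nat_lit 98385) (nat_lit 32) (.e (nat_lit 475201) (nat_lit 40) (.e (nat_lit 712448) (nat_lit 3) .nil)))))) (.g (nat_lit 1) (.e (nat_lit 176344) (nat_lit 0) .nil) .nil))))))))) 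
(.nd (nat_lit 4) (.nd (nat_lit 5) (.nd (nat_lit 6) (.nd (nat_lit 7) (.nd (nat_lit 8) 
(.nd (nat_lit 9) 
(.lf (nat_lit 502793) (.g (nat_lit 3744) (.e (nat_lit 163979) (nat_lit 30) (.e (nat_lit 573488) (nat_lit 14) (.e (nat_lit 73755) (nat_lit 8) (.e (nat_lit 557098) (nat_lit 13) (.e (nat_lit 179968) (nat_lit 18) (.e (nat_lit 98335) (nat_lit 18) (.e (nat_lit 164305) (nat_lit 226) (.e (nat_lit 2612) (nat_lit 163) .nil)))))))) (.g (nat_lit 1) (.e (nat_lit 173920) (nat_lit 0) .nil) .nil))) 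
(.lf (nat_lit 503305) (.g (nat_lit 2494) (.e (nat_lit 163979) (nat_lit 30) (.e (nat_lit 573491) (nat_lit 15) (.e (nat_lit 81954) (nat_lit 23) (.e (nat_lit 98367) (nat_lit 27) (.e (nat_lit 434270) (nat_lit 38) (.e (nat_lit 655374) (nat_lit 3) .nil)))))) (.g (nat_lit 1) (.e (nat_lit 174905) (nat_lit 0) .nil) .nil)))) (.nd (nat_lit 9) 
(.lf (nat_lit 503049) (.g (nat_lit 3318) (.e (nat_lit 163979) (nat_lit 30) (.e (nat_lit 573489) (nat_lit 14) (.e (nat_lit 73755) (nat_lit 8) (.e (nat_lit 557103) (nat_lit 14) (.e (nat_lit 180250) (nat_lit 10) (.e (nat_lit 573477) (nat_lit 12) (.e (nat_lit 57502) (nat_lit 38) (.e (nat_lit 638994) (nat_lit 7) .nil)))))))) (.g (nat_lit 1) (.e (nat_lit 174346) (nat_lit 0) .nil) .nil))) 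
(.lf (nat_lit 503561) (.g (nat_lit 3447) (.e (nat_lit 163979) (nat_lit 30) (.e (nat_lit 573493) (nat_lit 15) (.e (nat_lit 81954) (nat_lit 23) (.e (nat_lit 98356) (nat_lit 26) (.e (nat_lit 426364) (nat_lit 15) .nil))))) (.g (nat_lit 0) (.e (nat_lit 175794) (nat_lit 0) .nil) .nil))))) (.nd (nat_lit 8) (.nd (nat_lit 9) 
(.lf (nat_lit 502921) (.g (nat_lit 4869) (.e (nat_lit 163979) (nat_lit 30) (.e (nat_lit 573489) (nat_lit 14) (.e (nat_lit 73754) (nat_lit 8) (.e (nat_lit 557105) (nat_lit 14) (.e (nat_lit 180252) (nat_lit 10) (.e (nat_lit 573475) (nat_lit 12) (.e (nat_lit 57504) (nat_lit 38) (.e (nat_lit 638996) (nat_lit 7) .nil)))))))) (.g (nat_lit 1) (.e (nat_lit 174074) (nat_lit 0) .nil) .nil))) 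
(.lf (nat_lit 503433) (.g (nat_lit 4323) (.e (nat_lit 163979) (nat_lit 30) (.e (nat_lit 573492) (nat_lit 15) (.e (nat_lit 81956) (nat_lit 23) (.e (nat_lit 98362) (nat_lit 26) (.e (nat_lit 426045) (nat_lit 0) .nil))))) (.g (nat_lit 0) (.e (nat_lit 175246) (nat_lit 0) .nil) .nil)))) (.nd (nat_lit 9) 
(.lf (nat_lit 503177) (.g (nat_lit 4142) (.e (nat_lit 163979) (nat_lit 30) (.e (nat_lit 573489) (nat_lit 14) (.e (nat_lit 73755) (nat_lit 8) (.e (nat_lit 557105) (nat_lit 14) (.e (nat_lit 180252) (nat_lit 10) (.e (nat_lit 573475) (nat_lit 12) (.e (nat_lit 57504) (nat_lit 38) (.e (nat_lit 638994) (nat_lit 7) .nil)))))))) (.g (nat_lit 1) (.e (nat_lit 174602) (nat_lit 0) .nil) .nil))) 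
(.lf (nat_lit 503689) (.g (nat_lit 4604) (.e (nat_lit 163979) (nat_lit 30) (.e (nat_lit 573493) (nat_lit 15) (.e (nat_lit 81956) (nat_lit 23) (.e (nat_lit 98358) (nat_lit 26) (.e (nat_lit 426444) (nat_lit 19) (.e (nat_lit 114432) (nat_lit 3) .nil)))))) (.g (nat_lit 1) (.e (nat_lit 176033) (nat_lit 0) .nil) .nil)))))) (.nd (nat_lit 7) (.nd (nat_lit 8) (.nd (nat_lit 9) 
(.lf (nat_lit 502857) (.g (nat_lit 3466) (.e (nat_lit 163979) (nat_lit 30) (.e (nat_lit 573489) (nat_lit 14) (.e (nat_lit 73754) (nat_lit 8) (.e (nat_lit 557100) (nat_lit 13) (.e (nat_lit 172065) (nat_lit 3) (.e (nat_lit 204817) (nat_lit 17) (.e (nat_lit 2272) (nat_lit 149) (.e (nat_lit 761897) (nat_lit 15) .nil)))))))) (.g (nat_lit 1) (.e (nat_lit 173990) (nat_lit 0) .nil) .nil))) 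
(.lf (nat_lit 503369) (.g (nat_lit 4731) (.e (nat_lit 163979) (nat_lit 30) (.e (nat_lit 573492) (nat_lit 15) (.e (nat_lit 81953) (nat_lit 22) (.e (nat_lit 90170) (nat_lit 13) (.e (nat_lit 172048) (nat_lit 0) .nil))))) (.g (nat_lit 0) (.e (nat_lit 175048) (nat_lit 0) .nil) .nil)))) (.nd (nat_lit 9) 
(.lf (nat_lit 503113) (.g (nat_lit 4173) (.e (nat_lit 163979) (nat_lit 30) (.e (nat_lit 573489) (nat_lit 14) (.e (nat_lit 73755) (nat_lit 8) (.e (nat_lit 557104) (nat_lit 14) (.e (nat_lit 180252) (nat_lit 10) (.e (nat_lit 573473) (nat_lit 12) (.e (nat_lit 57501) (nat_lit 37) (.e (nat_lit 630800) (nat_lit 7) .nil)))))))) (.g (nat_lit 1) (.e (nat_lit 174528) (nat_lit 0) .nil) .nil))) 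
(.lf (nat_lit 503625) (.g (nat_lit 4822) (.e (nat_lit 163979) (nat_lit 30) (.e (nat_lit 573493) (nat_lit 15) (.e (nat_lit 81954) (nat_lit 23) (.e (nat_lit 98386) (nat_lit 32) (.e (nat_lit 475197) (nat_lit 40) (.e (nat_lit 704589) (nat_lit 3) .nil)))))) (.g (nat_lit 1) (.e (nat_lit 175899) (nat_lit 0) .nil) .nil))))) (.nd (nat_lit 8) (.nd (nat_lit 9) 
(.lf (nat_lit 502985) (.g (nat_lit 3853) (.e (nat_lit 163979) (nat_lit 30) (.e (nat_lit 573489) (nat_lit 14) (.e (nat_lit 73755) (nat_lit 8) (.e (nat_lit 557098) (nat_lit 13) (.e (nat_lit 172066) (nat_lit 3) (.e (nat_lit 204817) (nat_lit 17) (.e (nat_lit 7936) (nat_lit 149) (.e (nat_lit 761898) (nat_lit 15) .nil)))))))) (.g (nat_lit 1) (.e (nat_lit 174217) (nat_lit 0) .nil) .nil))) 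
(.lf (nat_lit 503497) (.g (nat_lit 2712) (.e (nat_lit 163979) (nat_lit 30) (.e (nat_lit 573493) (nat_lit 15) (.e (nat_lit 81953) (nat_lit 22) (.e (nat_lit 90169) (nat_lit 13) .nil)))) (.g (nat_lit 0) (.e (nat_lit 175631) (nat_lit 0) .nil) .nil)))) (.nd (nat_lit 9) 
(.lf (nat_lit 503241) (.g (nat_lit 2539) (.e (nat_lit 163979) (nat_lit 30) (.e (nat_lit 573491) (nat_lit 15) (.e (nat_lit 81954) (nat_lit 23) (.e (nat_lit 98356) (nat_lit 26) (.e (nat_lit 426362) (nat_lit 15) (.e (nat_lit 2061) (nat_lit 142) (.e (nat_lit 704589) (nat_lit 3) .nil))))))) (.g (nat_lit 1) (.e (nat_lit 174782) (nat_lit 0) .nil) .nil))) 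
(.lf (nat_lit 503753) (.g (nat_lit 3878) (.e (nat_lit 163979) (nat_lit 30) (.e (nat_lit 573493) (nat_lit 15) (.e (nat_lit 81956) (nat_lit 23) (.e (nat_lit 98366) (nat_lit 27) (.e (nat_lit 434272) (nat_lit 38) (.e (nat_lit 655374) (nat_lit 3) .nil)))))) (.g (nat_lit 1) (.e (nat_lit 176182) (nat_lit 0) .nil) .nil))))))) (.nd (nat_lit 6) (.nd (nat_lit 7) (.nd (nat_lit 8) (.nd (nat_lit 9) 
(.lf (nat_lit 502825) (.g (nat_lit 3970) (.e (nat_lit 163979) (nat_lit 30) (.e (nat_lit 573488) (nat_lit 14) (.e (nat_lit 73755) (nat_lit 8) (.e (nat_lit 557105) (nat_lit 14) (.e (nat_lit 180250) (nat_lit 10) (.e (nat_lit 573475) (nat_lit 12) (.e (nat_lit 57503) (nat_lit 38) (.e (nat_lit 638995) (nat_lit 7) .nil)))))))) (.g (nat_lit 1) (.e (nat_lit 173952) (nat_lit 0) .nil) .nil))) 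
(.lf (nat_lit 503337) (.g (nat_lit 3282) (.e (nat_lit 163979) (nat_lit 30) (.e (nat_lit 573491) (nat_lit 15) (.e (nat_lit 81955) (nat_lit 23) (.e (nat_lit 98386) (nat_lit 32) (.e (nat_lit 475198) (nat_lit 40) (.e (nat_lit 704589) (nat_lit 3) .nil)))))) (.g (nat_lit 1) (.e (nat_lit 174943) (nat_lit 0) .nil) .nil)))) (.nd (nat_lit 9) 
(.lf (nat_lit 503081) (.g (nat_lit 3081) (.e (nat_lit 163979) (nat_lit 30) (.e (nat_lit 573489) (nat_lit 14) (.e (nat_lit 73755) (nat_lit 8) (.e (nat_lit 557104) (nat_lit 14) (.e (nat_lit 180244) (nat_lit 5) (.e (nat_lit 532491) (nat_lit 0) (.e (nat_lit 2270) (nat_lit 149) (.e (nat_lit 761899) (nat_lit 15) .nil)))))))) (.g (nat_lit 1) (.e (nat_lit 174408) (nat_lit 0) .nil) .nil))) 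
(.lf (nat_lit 503593) (.g (nat_lit 2244) (.e (nat_lit 163979) (nat_lit 30) (.e (nat_lit 573493) (nat_lit 15) (.e (nat_lit 81954) (nat_lit 23) (.e (nat_lit 98360) (nat_lit 26) .nil)))) (.g (nat_lit 0) (.e (nat_lit 175848) (nat_lit 0) .nil) .nil))))) (.nd (nat_lit 8) (.nd (nat_lit 9) 
(.lf (nat_lit 502953) (.g (nat_lit 2802) (.e (nat_lit 163979) (nat_lit 30) (.e (nat_lit 573489) (nat_lit 14) (.e (nat_lit 73755) (nat_lit 8) (.e (nat_lit 557097) (nat_lit 13) (.e (nat_lit 172066) (nat_lit 3) (.e (nat_lit 204822) (nat_lit 17) (.e (nat_lit 2270) (nat_lit 149) (.e (nat_lit 761899) (nat_lit 15) .nil)))))))) (.g (nat_lit 1) (.e (nat_lit 174141) (nat_lit 0) .nil) .nil))) 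
(.lf (nat_lit 503465) (.g (nat_lit 2454) (.e (nat_lit 163979) (nat_lit 30) (.e (nat_lit 573493) (nat_lit 15) (.e (nat_lit 81951) (nat_lit 22) (.e (nat_lit 90168) (nat_lit 13) .nil)))) (.g (nat_lit 0) (.e (nat_lit 175508) (nat_lit 0) .nil) .nil)))) (.nd (nat_lit 9) 
(.lf (nat_lit 503209) (.g (nat_lit 3595) (.e (nat_lit 163979) (nat_lit 30) (.e (nat_lit 573491) (nat_lit 15) (.e (nat_lit 81951) (nat_lit 22) (.e (nat_lit 90170) (nat_lit 13) (.e (nat_lit 172060) (nat_lit 1) (.e (nat_lit 164348) (nat_lit 240) (.e (nat_lit 2610) (nat_lit 163) .nil))))))) (.g (nat_lit 1) (.e (nat_lit 174699) (nat_lit 0) .nil) .nil))) 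
(.lf (nat_lit 503721) (.g (nat_lit 3758) (.e (nat_lit 163979) (nat_lit 30) (.e (nat_lit 573493) (nat_lit 15) (.e (nat_lit 81956) (nat_lit 23) (.e (nat_lit 98360) (nat_lit 26) (.e (nat_lit 426414) (nat_lit 15) (.e (nat_lit 2058) (nat_lit 142) (.e (nat_lit 704589) (nat_lit 3) .nil))))))) (.g (nat_lit 1) (.e (nat_lit 176120) (nat_lit 0) .nil) .nil)))))) 
(.nd (nat_lit 7) (.nd (nat_lit 8) (.nd (nat_lit 9) 
(.lf (nat_lit 502889) (.g (nat_lit 2810) (.e (nat_lit 163979) (nat_lit 30) (.e (nat_lit 573489) (nat_lit 14) (.e (nat_lit 73754) (nat_lit 8) (.e (nat_lit 557103) (nat_lit 14) (.e (nat_lit 180250) (nat_lit 10) (.e (nat_lit 573475) (nat_lit 12) (.e (nat_lit 57501) (nat_lit 37) (.e (nat_lit 630799) (nat_lit 7) .nil)))))))) (.g (nat_lit 1) (.e (nat_lit 174042) (nat_lit 0) .nil) .nil))) 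
(.lf (nat_lit 503401) (.g (nat_lit 3437) (.e (nat_lit 163979) (nat_lit 30) (.e (nat_lit 573492) (nat_lit 15) (.e (nat_lit 81956) (nat_lit 23) (.e (nat_lit 98356) (nat_lit 26) (.e (nat_lit 426094) (nat_lit 0) (.e (nat_lit 7936) (nat_lit 211) (.e (nat_lit 647180) (nat_lit 3) .nil))))))) (.g (nat_lit 1) (.e (nat_lit 175174) (nat_lit 0) .nil) .nil)))) (.nd (nat_lit 9) 
(.lf (nat_lit 503145) (.g (nat_lit 3652) (.e (nat_lit 163979) (nat_lit 30) (.e (nat_lit 573489) (nat_lit 14) (.e (nat_lit 73755) (nat_lit 8) (.e (nat_lit 557105) (nat_lit 14) (.e (nat_lit 180251) (nat_lit 10) (.e (nat_lit 573477) (nat_lit 12) (.e (nat_lit 57502) (nat_lit 38) (.e (nat_lit 638996) (nat_lit 7) .nil)))))))) (.g (nat_lit 1) (.e (nat_lit 174561) (nat_lit 0) .nil) .nil))) 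
(.lf (nat_lit 503657) (.g (nat_lit 3587) (.e (nat_lit 163979) (nat_lit 30) (.e (nat_lit 573493) (nat_lit 15) (.e (nat_lit 81956) (nat_lit 23) (.e (nat_lit 98356) (nat_lit 26) (.e (nat_lit 426361) (nat_lit 15) (.e (nat_lit 2055) (nat_lit 142) (.e (nat_lit 704589) (nat_lit 3) .nil))))))) (.g (nat_lit 1) (.e (nat_lit 175993) (nat_lit 0) .nil) .nil))))) (.nd (nat_lit 8) (.nd (nat_lit 9) 
(.lf (nat_lit 503017) (.g (nat_lit 3377) (.e (nat_lit 163979) (nat_lit 30) (.e (nat_lit 573489) (nat_lit 14) (.e (nat_lit 73755) (nat_lit 8) (.e (nat_lit 557103) (nat_lit 14) (.e (nat_lit 180244) (nat_lit 5) (.e (nat_lit 532484) (nat_lit 0) (.e (nat_lit 2272) (nat_lit 149) (.e (nat_lit 761899) (nat_lit 15) .nil)))))))) (.g (nat_lit 1) (.e (nat_lit 174275) (nat_lit 0) .nil) .nil))) 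
(.lf (nat_lit 503529) (.g (nat_lit 3476) (.e (nat_lit 163979) (nat_lit 30) (.e (nat_lit 573493) (nat_lit 15) (.e (nat_lit 81953) (nat_lit 22) (.e (nat_lit 90170) (nat_lit 13) (.e (nat_lit 172060) (nat_lit 1) .nil))))) (.g (nat_lit 0) (.e (nat_lit 175698) (nat_lit 0) .nil) .nil)))) (.nd (nat_lit 9) 
(.lf (nat_lit 503273) (.g (nat_lit 2752) (.e (nat_lit 163979) (nat_lit 30) (.e (nat_lit 573491) (nat_lit 15) (.e (nat_lit 81954) (nat_lit 23) (.e (nat_lit 98359) (nat_lit 26) (.e (nat_lit 426022) (nat_lit 0) (.e (nat_lit 3397) (nat_lit 211) (.e (nat_lit 647180) (nat_lit 3) .nil))))))) (.g (nat_lit 1) (.e (nat_lit 174820) (nat_lit 0) .nil) .nil))) 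
(.lf (nat_lit 503785) (.g (nat_lit 5138) (.e (nat_lit 163979) (nat_lit 30) (.e (nat_lit 573493) (nat_lit 15) (.e (nat_lit 81956) (nat_lit 23) (.e (nat_lit 98384) (nat_lit 32) (.e (nat_lit 475197) (nat_lit 40) (.e (nat_lit 704589) (nat_lit 3) .nil)))))) (.g (nat_lit 1) (.e (nat_lit 176335) (nat_lit 0) .nil) .nil)))))))) 
(.nd (nat_lit 5) (.nd (nat_lit 6) (.nd (nat_lit 7) (.nd (nat_lit 8) (.nd (nat_lit 9) 
(.lf (nat_lit 502809) (.g (nat_lit 3203) (.e (nat_lit 163979) (nat_lit 30) (.e (nat_lit 573488) (nat_lit 14) (.e (nat_lit 73755) (nat_lit 8) (.e (nat_lit 557104) (nat_lit 14) (.e (nat_lit 180244) (nat_lit 5) (.e (nat_lit 532481) (nat_lit 0) (.e (nat_lit 2271) (nat_lit 149) (.e (nat_lit 761898) (nat_lit 15) .nil)))))))) (.g (nat_lit 1) (.e (nat_lit 173936) (nat_lit 0) .nil) .nil))) 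
(.lf (nat_lit 503321) (.g (nat_lit 2208) (.e (nat_lit 163979) (nat_lit 30) (.e (nat_lit 573491) (nat_lit 15) (.e (nat_lit 81954) (nat_lit 23) (.e (nat_lit 98385) (nat_lit 32) (.e (nat_lit 475201) (nat_lit 40) (.e (nat_lit 712448) (nat_lit 3) .nil)))))) (.g (nat_lit 1) (.e (nat_lit 174927) (nat_lit 0) .nil) .nil)))) (.nd (nat_lit 9) 
(.lf (nat_lit 503065) (.g (nat_lit 2876) (.e (nat_lit 163979) (nat_lit 30) (.e (nat_lit 573489) (nat_lit 14) (.e (nat_lit 73755) (nat_lit 8) (.e (nat_lit 557104) (nat_lit 14) (.e (nat_lit 180242) (nat_lit 5) (.e (nat_lit 532489) (nat_lit 0) (.e (nat_lit 7936) (nat_lit 149) (.e (nat_lit 761898) (nat_lit 15) .nil)))))))) (.g (nat_lit 1) (.e (nat_lit 174373) (nat_lit 0) .nil) .nil))) 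
(.lf (nat_lit 503577) (.g (nat_lit 3971) (.e (nat_lit 163979) (nat_lit 30) (.e (nat_lit 573493) (nat_lit 15) (.e (nat_lit 81954) (nat_lit 23) (.e (nat_lit 98356) (nat_lit 26) (.e (nat_lit 426420) (nat_lit 15) (.e (nat_lit 2059) (nat_lit 142) (.e (nat_lit 704589) (nat_lit 3) .nil))))))) (.g (nat_lit 1) (.e (nat_lit 175810) (nat_lit 0) .nil) .nil))))) (.nd (nat_lit 8) (.nd (nat_lit 9) 
(.lf (nat_lit 502937) (.g (nat_lit 2766) (.e (nat_lit 163979) (nat_lit 30) (.e (nat_lit 573489) (nat_lit 14) (.e (nat_lit 73755) (nat_lit 8) (.e (nat_lit 557097) (nat_lit 13) (.e (nat_lit 172065) (nat_lit 3) (.e (nat_lit 204821) (nat_lit 17) (.e (nat_lit 2264) (nat_lit 149) (.e (nat_lit 761899) (nat_lit 15) .nil)))))))) (.g (nat_lit 1) (.e (nat_lit 174120) (nat_lit 0) .nil) .nil))) 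
(.lf (nat_lit 503449) (.g (nat_lit 5881) (.e (nat_lit 163979) (nat_lit 30) (.e (nat_lit 573492) (nat_lit 15) (.e (nat_lit 81956) (nat_lit 23) (.e (nat_lit 98367) (nat_lit 27) (.e (nat_lit 434272) (nat_lit 38) (.e (nat_lit 655375) (nat_lit 3) .nil)))))) (.g (nat_lit 1) (.e (nat_lit 175264) (nat_lit 0) .nil) .nil)))) (.nd (nat_lit 9) 
(.lf (nat_lit 503193) (.g (nat_lit 3136) (.e (nat_lit 163979) (nat_lit 30) (.e (nat_lit 573491) (nat_lit 15) (.e (nat_lit 81951) (nat_lit 22) (.e (nat_lit 90170) (nat_lit 13) (.e (nat_lit 172033) (nat_lit 0) (.e (nat_lit 3401) (nat_lit 211) (.e (nat_lit 647181) (nat_lit 3) .nil))))))) (.g (nat_lit 1) (.e (nat_lit 174652) (nat_lit 0) .nil) .nil))) 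
(.lf (nat_lit 503705) (.g (nat_lit 2827) (.e (nat_lit 163979) (nat_lit 30) (.e (nat_lit 573493) (nat_lit 15) (.e (nat_lit 81956) (nat_lit 23) (.e (nat_lit 98359) (nat_lit 26) (.e (nat_lit 426101) (nat_lit 1) .nil))))) (.g (nat_lit 0) (.e (nat_lit 176083) (nat_lit 0) .nil) .nil)))))) (.nd (nat_lit 7) (.nd (nat_lit 8) (.nd (nat_lit 9) 
(.lf (nat_lit 502873) (.g (nat_lit 1229) (.e (nat_lit 163979) (nat_lit 30) (.e (nat_lit 573489) (nat_lit 14) (.e (nat_lit 73754) (nat_lit 8) (.e (nat_lit 557101) (nat_lit 13) .nil)))) (.g (nat_lit 0) (.e (nat_lit 174017) (nat_lit 0) .nil) .nil))) 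
(.lf (nat_lit 503385) (.g (nat_lit 2054) (.e (nat_lit 163979) (nat_lit 30) (.e (nat_lit 573492) (nat_lit 15) (.e (nat_lit 81956) (nat_lit 23) (.e (nat_lit 98354) (nat_lit 26) .nil)))) (.g (nat_lit 0) (.e (nat_lit 175149) (nat_lit 0) .nil) .nil)))) (.nd (nat_lit 9) 
(.lf (nat_lit 503129) (.g (nat_lit 3764) (.e (nat_lit 163979) (nat_lit 30) (.e (nat_lit 573489) (nat_lit 14) (.e (nat_lit 73755) (nat_lit 8) (.e (nat_lit 557104) (nat_lit 14) (.e (nat_lit 180252) (nat_lit 10) (.e (nat_lit 573475) (nat_lit 12) (.e (nat_lit 57504) (nat_lit 38) (.e (nat_lit 638994) (nat_lit 7) .nil)))))))) (.g (nat_lit 1) (.e (nat_lit 174544) (nat_lit 0) .nil) .nil))) 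
(.lf (nat_lit 503641) (.g (nat_lit 3834) (.e (nat_lit 163979) (nat_lit 30) (.e (nat_lit 573493) (nat_lit 15) (.e (nat_lit 81956) (nat_lit 23) (.e (nat_lit 98356) (nat_lit 26) (.e (nat_lit 426354) (nat_lit 15) (.e (nat_lit 2050) (nat_lit 142) (.e (nat_lit 704589) (nat_lit 3) .nil))))))) (.g (nat_lit 1) (.e (nat_lit 175972) (nat_lit 0) .nil) .nil))))) (.nd (nat_lit 8) (.nd (nat_lit 9) 
(.lf (nat_lit 503001) (.g (nat_lit 4277) (.e (nat_lit 163979) (nat_lit 30) (.e (nat_lit 573489) (nat_lit 14) (.e (nat_lit 73755) (nat_lit 8) (.e (nat_lit 557098) (nat_lit 13) (.e (nat_lit 172067) (nat_lit 3) (.e (nat_lit 204821) (nat_lit 17) (.e (nat_lit 2270) (nat_lit 149) (.e (nat_lit 761898) (nat_lit 15) .nil)))))))) (.g (nat_lit 1) (.e (nat_lit 174237) (nat_lit 0) .nil) .nil))) 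
(.lf (nat_lit 503513) (.g (nat_lit 4495) (.e (nat_lit 163979) (nat_lit 30) (.e (nat_lit 573493) (nat_lit 15) (.e (nat_lit 81953) (nat_lit 22) (.e (nat_lit 90170) (nat_lit 13) (.e (nat_lit 172042) (nat_lit 0) (.e (nat_lit 3409) (nat_lit 212) (.e (nat_lit 655375) (nat_lit 3) .nil))))))) (.g (nat_lit 1) (.e (nat_lit 175664) (nat_lit 0) .nil) .nil)))) (.nd (nat_lit 9) 
(.lf (nat_lit 503257) (.g (nat_lit 2501) (.e (nat_lit 163979) (nat_lit 30) (.e (nat_lit 573491) (nat_lit 15) (.e (nat_lit 81954) (nat_lit 23) (.e (nat_lit 98356) (nat_lit 26) (.e (nat_lit 426404) (nat_lit 15) .nil))))) (.g (nat_lit 0) (.e (nat_lit 174798) (nat_lit 0) .nil) .nil))) 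
(.lf (nat_lit 503769) (.g (nat_lit 4270) (.e (nat_lit 163979) (nat_lit 30) (.e (nat_lit 573493) (nat_lit 15) (.e (nat_lit 81956) (nat_lit 23) (.e (nat_lit 98367) (nat_lit 27) (.e (nat_lit 434271) (nat_lit 38) (.e (nat_lit 655373) (nat_lit 3) .nil)))))) (.g (nat_lit 1) (.e (nat_lit 176244) (nat_lit 0) .nil) .nil))))))) (.nd (nat_lit 6) (.nd (nat_lit 7) (.nd (nat_lit 8) (.nd (nat_lit 9) 
(.lf (nat_lit 502841) (.g (nat_lit 2871) (.e (nat_lit 163979) (nat_lit 30) (.e (nat_lit 573488) (nat_lit 14) (.e (nat_lit 73755) (nat_lit 8) (.e (nat_lit 557105) (nat_lit 14) (.e (nat_lit 180252) (nat_lit 10) (.e (nat_lit 573475) (nat_lit 12) (.e (nat_lit 57503) (nat_lit 38) (.e (nat_lit 638996) (nat_lit 7) .nil)))))))) (.g (nat_lit 1) (.e (nat_lit 173968) (nat_lit 0) .nil) .nil))) 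
(.lf (nat_lit 503353) (.g (nat_lit 2093) (.e (nat_lit 163979) (nat_lit 30) (.e (nat_lit 573492) (nat_lit 15) (.e (nat_lit 81951) (nat_lit 22) (.e (nat_lit 90170) (nat_lit 13) .nil)))) (.g (nat_lit 0) (.e (nat_lit 175015) (nat_lit 0) .nil) .nil)))) (.nd (nat_lit 9) 
(.lf (nat_lit 503097) (.g (nat_lit 3345) (.e (nat_lit 163979) (nat_lit 30) (.e (nat_lit 573489) (nat_lit 14) (.e (nat_lit 73755) (nat_lit 8) (.e (nat_lit 557104) (nat_lit 14) (.e (nat_lit 180250) (nat_lit 10) (.e (nat_lit 573475) (nat_lit 12) (.e (nat_lit 57501) (nat_lit 37) (.e (nat_lit 630800) (nat_lit 7) .nil)))))))) (.g (nat_lit 1) (.e (nat_lit 174511) (nat_lit 0) .nil) .nil))) 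
(.lf (nat_lit 503609) (.g (nat_lit 4236) (.e (nat_lit 163979) (nat_lit 30) (.e (nat_lit 573493) (nat_lit 15) (.e (nat_lit 81954) (nat_lit 23) (.e (nat_lit 98367) (nat_lit 27) (.e (nat_lit 434272) (nat_lit 38) (.e (nat_lit 655373) (nat_lit 3) .nil)))))) (.g (nat_lit 1) (.e (nat_lit 175880) (nat_lit 0) .nil) .nil))))) (.nd (nat_lit 8) (.nd (nat_lit 9) 
(.lf (nat_lit 502969) (.g (nat_lit 3092) (.e (nat_lit 163979) (nat_lit 30) (.e (nat_lit 573489) (nat_lit 14) (.e (nat_lit 73755) (nat_lit 8) (.e (nat_lit 557098) (nat_lit 13) (.e (nat_lit 172065) (nat_lit 3) .nil))))) (.g (nat_lit 0) (.e (nat_lit 174198) (nat_lit 0) .nil) .nil))) 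
(.lf (nat_lit 503481) (.g (nat_lit 4490) (.e (nat_lit 163979) (nat_lit 30) (.e (nat_lit 573493) (nat_lit 15) (.e (nat_lit 81951) (nat_lit 22) (.e (nat_lit 90170) (nat_lit 13) (.e (nat_lit 172061) (nat_lit 1) (.e (nat_lit 164345) (nat_lit 240) (.e (nat_lit 2610) (nat_lit 163) .nil))))))) (.g (nat_lit 1) (.e (nat_lit 175540) (nat_lit 0) .nil) .nil)))) (.nd (nat_lit 9) 
(.lf (nat_lit 503225) (.g (nat_lit 2260) (.e (nat_lit 163979) (nat_lit 30) (.e (nat_lit 573491) (nat_lit 15) (.e (nat_lit 81954) (nat_lit 23) (.e (nat_lit 98355) (nat_lit 26) (.e (nat_lit 426442) (nat_lit 19) (.e (nat_lit 114432) (nat_lit 3) .nil)))))) (.g (nat_lit 1) (.e (nat_lit 174758) (nat_lit 0) .nil) .nil))) 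
(.lf (nat_lit 503737) (.g (nat_lit 6446) (.e (nat_lit 163979) (nat_lit 30) (.e (nat_lit 573493) (nat_lit 15) (.e (nat_lit 81956) (nat_lit 23) (.e (nat_lit 98365) (nat_lit 26) (.e (nat_lit 426100) (nat_lit 1) (.e (nat_lit 164345) (nat_lit 240) (.e (nat_lit 2610) (nat_lit 163) .nil))))))) (.g (nat_lit 1) (.e (nat_lit 176150) (nat_lit 0) .nil) .nil)))))) 
(.nd (nat_lit 7) (.nd (nat_lit 8) (.nd (nat_lit 9) 
(.lf (nat_lit 502905) (.g (nat_lit 4669) (.e (nat_lit 163979) (nat_lit 30) (.e (nat_lit 573489) (nat_lit 14) (.e (nat_lit 73754) (nat_lit 8) (.e (nat_lit 557105) (nat_lit 14) (.e (nat_lit 180252) (nat_lit 10) (.e (nat_lit 573473) (nat_lit 12) (.e (nat_lit 57503) (nat_lit 38) (.e (nat_lit 638995) (nat_lit 7) .nil)))))))) (.g (nat_lit 1) (.e (nat_lit 174058) (nat_lit 0) .nil) .nil))) 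
(.lf (nat_lit 503417) (.g (nat_lit 1497) (.e (nat_lit 163979) (nat_lit 30) (.e (nat_lit 573492) (nat_lit 15) (.e (nat_lit 81956) (nat_lit 23) (.e (nat_lit 98357) (nat_lit 26) .nil)))) (.g (nat_lit 0) (.e (nat_lit 175229) (nat_lit 0) .nil) .nil)))) (.nd (nat_lit 9) 
(.lf (nat_lit 503161) (.g (nat_lit 2677) (.e (nat_lit 163979) (nat_lit 30) (.e (nat_lit 573489) (nat_lit 14) (.e (nat_lit 73755) (nat_lit 8) (.e (nat_lit 557105) (nat_lit 14) (.e (nat_lit 180252) (nat_lit 10) (.e (nat_lit 573474) (nat_lit 12) (.e (nat_lit 65280) (nat_lit 37) (.e (nat_lit 630799) (nat_lit 7) .nil)))))))) (.g (nat_lit 1) (.e (nat_lit 174586) (nat_lit 0) .nil) .nil))) 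
(.lf (nat_lit 503673) (.g (nat_lit 3559) (.e (nat_lit 163979) (nat_lit 30) (.e (nat_lit 573493) (nat_lit 15) (.e (nat_lit 81956) (nat_lit 23) (.e (nat_lit 98356) (nat_lit 26) (.e (nat_lit 426400) (nat_lit 15) (.e (nat_lit 7936) (nat_lit 142) (.e (nat_lit 704589) (nat_lit 3) .nil))))))) (.g (nat_lit 1) (.e (nat_lit 176011) (nat_lit 0) .nil) .nil))))) (.nd (nat_lit 8) (.nd (nat_lit 9) 
(.lf (nat_lit 503033) (.g (nat_lit 4227) (.e (nat_lit 163979) (nat_lit 30) (.e (nat_lit 573489) (nat_lit 14) (.e (nat_lit 73755) (nat_lit 8) (.e (nat_lit 557103) (nat_lit 14) (.e (nat_lit 180250) (nat_lit 10) (.e (nat_lit 573474) (nat_lit 12) (.e (nat_lit 57503) (nat_lit 38) (.e (nat_lit 638994) (nat_lit 7) .nil)))))))) (.g (nat_lit 1) (.e (nat_lit 174330) (nat_lit 0) .nil) .nil))) 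
(.lf (nat_lit 503545) (.g (nat_lit 3405) (.e (nat_lit 163979) (nat_lit 30) (.e (nat_lit 573493) (nat_lit 15) (.e (nat_lit 81953) (nat_lit 22) (.e (nat_lit 90174) (nat_lit 14) (.e (nat_lit 180224) (nat_lit 0) .nil))))) (.g (nat_lit 0) (.e (nat_lit 175746) (nat_lit 0) .nil) .nil)))) (.nd (nat_lit 9) 
(.lf (nat_lit 503289) (.g (nat_lit 2389) (.e (nat_lit 163979) (nat_lit 30) (.e (nat_lit 573491) (nat_lit 15) (.e (nat_lit 81954) (nat_lit 23) (.e (nat_lit 98359) (nat_lit 26) (.e (nat_lit 433920) (nat_lit 19) (.e (nat_lit 114432) (nat_lit 3) .nil)))))) (.g (nat_lit 1) (.e (nat_lit 174855) (nat_lit 0) .nil) .nil))) 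
(.lf (nat_lit 503801) (.g (nat_lit 1556) (.e (nat_lit 163998) (nat_lit 38) (.e (nat_lit 639020) (nat_lit 16) (.e (nat_lit 65571) (nat_lit 3) (.e (nat_lit 98381) (nat_lit 31) .nil)))) (.g (nat_lit 0) (.e (nat_lit 176396) (nat_lit 0) .nil) .nil)))))))))) (.nd (nat_lit 3) (.nd (nat_lit 4) (.nd (nat_lit 5) (.nd (nat_lit 6) (.nd (nat_lit 7) (.nd (nat_lit 8) (.nd (nat_lit 9) 
(.lf (nat_lit 502789) (.g (nat_lit 4419) (.e (nat_lit 163979) (nat_lit 30) (.e (nat_lit 573488) (nat_lit 14) (.e (nat_lit 73754) (nat_lit 8) (.e (nat_lit 557105) (nat_lit 14) (.e (nat_lit 180252) (nat_lit 10) (.e (nat_lit 573475) (nat_lit 12) (.e (nat_lit 57504) (nat_lit 38) (.e (nat_lit 638995) (nat_lit 7) .nil)))))))) (.g (nat_lit 1) (.e (nat_lit 173914) (nat_lit 0) .nil) .nil))) 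
(.lf (nat_lit 503301) (.g (nat_lit 2365) (.e (nat_lit 163979) (nat_lit 30) (.e (nat_lit 573491) (nat_lit 15) (.e (nat_lit 81954) (nat_lit 23) (.e (nat_lit 98367) (nat_lit 27) (.e (nat_lit 434211) (nat_lit 18) .nil))))) (.g (nat_lit 0) (.e (nat_lit 174898) (nat_lit 0) .nil) .nil)))) (.nd (nat_lit 9) 
(.lf (nat_lit 503045) (.g (nat_lit 3329) (.e (nat_lit 163979) (nat_lit 30) (.e (nat_lit 573489) (nat_lit 14) (.e (nat_lit 73755) (nat_lit 8) (.e (nat_lit 557103) (nat_lit 14) (.e (nat_lit 180250) (nat_lit 10) (.e (nat_lit 573475) (nat_lit 12) (.e (nat_lit 57504) (nat_lit 38) (.e (nat_lit 638994) (nat_lit 7) .nil)))))))) (.g (nat_lit 1) (.e (nat_lit 174342) (nat_lit 0) .nil) .nil))) 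
(.lf (nat_lit 503557) (.g (nat_lit 2117) (.e (nat_lit 163979) (nat_lit 30) (.e (nat_lit 573493) (nat_lit 15) (.e (nat_lit 81954) (nat_lit 23) (.e (nat_lit 98356) (nat_lit 26) .nil)))) (.g (nat_lit 0) (.e (nat_lit 175789) (nat_lit 0) .nil) .nil))))) (.nd (nat_lit 8) (.nd (nat_lit 9) 
(.lf (nat_lit 502917) (.g (nat_lit 4577) (.e (nat_lit 163979) (nat_lit 30) (.e (nat_lit 573489) (nat_lit 14) (.e (nat_lit 73754) (nat_lit 8) (.e (nat_lit 557105) (nat_lit 14) (.e (nat_lit 180252) (nat_lit 10) (.e (nat_lit 573475) (nat_lit 12) (.e (nat_lit 57503) (nat_lit 38) (.e (nat_lit 638994) (nat_lit 7) .nil)))))))) (.g (nat_lit 1) (.e (nat_lit 174070) (nat_lit 0) .nil) .nil))) 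
(.lf (nat_lit 503429) (.g (nat_lit 4393) (.e (nat_lit 163979) (nat_lit 30) (.e (nat_lit 573492) (nat_lit 15) (.e (nat_lit 81956) (nat_lit 23) (.e (nat_lit 98361) (nat_lit 26) .nil)))) (.g (nat_lit 0) (.e (nat_lit 175242) (nat_lit 0) .nil) .nil)))) (.nd (nat_lit 9) 
(.lf (nat_lit 503173) (.g (nat_lit 4930) (.e (nat_lit 163979) (nat_lit 30) (.e (nat_lit 573489) (nat_lit 14) (.e (nat_lit 73755) (nat_lit 8) (.e (nat_lit 557105) (nat_lit 14) (.e (nat_lit 180252) (nat_lit 10) (.e (nat_lit 573475) (nat_lit 12) (.e (nat_lit 57502) (nat_lit 38) (.e (nat_lit 638995) (nat_lit 7) .nil)))))))) (.g (nat_lit 1) (.e (nat_lit 174598) (nat_lit 0) .nil) .nil))) 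
(.lf (nat_lit 503685) (.g (nat_lit 3585) (.e (nat_lit 163979) (nat_lit 30) (.e (nat_lit 573493) (nat_lit 15) (.e (nat_lit 81956) (nat_lit 23) (.e (nat_lit 98357) (nat_lit 26) (.e (nat_lit 426444) (nat_lit 19) (.e (nat_lit 114432) (nat_lit 3) .nil)))))) (.g (nat_lit 1) (.e (nat_lit 176028) (nat_lit 0) .nil) .nil)))))) (.nd (nat_lit 7) (.nd (nat_lit 8) (.nd (nat_lit 9) 
(.lf (nat_lit 502853) (.g (nat_lit 2728) (.e (nat_lit 163979) (nat_lit 30) (.e (nat_lit 573489) (nat_lit 14) (.e (nat_lit 73753) (nat_lit 8) (.e (nat_lit 557105) (nat_lit 14) (.e (nat_lit 180252) (nat_lit 10) (.e (nat_lit 573475) (nat_lit 12) (.e (nat_lit 57503) (nat_lit 38) (.e (nat_lit 638996) (nat_lit 7) .nil)))))))) (.g (nat_lit 1) (.e (nat_lit 173984) (nat_lit 0) .nil) .nil))) 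
(.lf (nat_lit 503365) (.g (nat_lit 3934) (.e (nat_lit 163979) (nat_lit 30) (.e (nat_lit 573492) (nat_lit 15) (.e (nat_lit 81953) (nat_lit 22) (.e (nat_lit 90169) (nat_lit 13) .nil)))) (.g (nat_lit 0) (.e (nat_lit 175044) (nat_lit 0) .nil) .nil)))) (.nd (nat_lit 9) 
(.lf (nat_lit 503109) (.g (nat_lit 2322) (.e (nat_lit 163979) (nat_lit 30) (.e (nat_lit 573489) (nat_lit 14) (.e (nat_lit 73755) (nat_lit 8) (.e (nat_lit 557104) (nat_lit 14) (.e (nat_lit 180251) (nat_lit 10) (.e (nat_lit 573478) (nat_lit 12) (.e (nat_lit 57502) (nat_lit 38) (.e (nat_lit 638996) (nat_lit 7) .nil)))))))) (.g (nat_lit 1) (.e (nat_lit 174523) (nat_lit 0) .nil) .nil))) 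
(.lf (nat_lit 503621) (.g (nat_lit 4156) (.e (nat_lit 163979) (nat_lit 30) (.e (nat_lit 573493) (nat_lit 15) (.e (nat_lit 81954) (nat_lit 23) (.e (nat_lit 98384) (nat_lit 32) (.e (nat_lit 475205) (nat_lit 40) (.e (nat_lit 704588) (nat_lit 3) .nil)))))) (.g (nat_lit 1) (.e (nat_lit 175895) (nat_lit 0) .nil) .nil))))) (.nd (nat_lit 8) (.nd (nat_lit 9) 
(.lf (nat_lit 502981) (.g (nat_lit 3399) (.e (nat_lit 163979) (nat_lit 30) (.e (nat_lit 573489) (nat_lit 14) (.e (nat_lit 73755) (nat_lit 8) (.e (nat_lit 557098) (nat_lit 13) (.e (nat_lit 172066) (nat_lit 3) (.e (nat_lit 204815) (nat_lit 17) (.e (nat_lit 2271) (nat_lit 149) (.e (nat_lit 761898) (nat_lit 15) .nil)))))))) (.g (nat_lit 1) (.e (nat_lit 174213) (nat_lit 0) .nil) .nil))) 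
(.lf (nat_lit 503493) (.g (nat_lit 2453) (.e (nat_lit 163979) (nat_lit 30) (.e (nat_lit 573493) (nat_lit 15) (.e (nat_lit 81951) (nat_lit 22) (.e (nat_lit 90173) (nat_lit 14) .nil)))) (.g (nat_lit 0) (.e (nat_lit 175574) (nat_lit 0) .nil) .nil)))) (.nd (nat_lit 9) 
(.lf (nat_lit 503237) (.g (nat_lit 1884) (.e (nat_lit 163979) (nat_lit 30) (.e (nat_lit 573491) (nat_lit 15) (.e (nat_lit 81954) (nat_lit 23) (.e (nat_lit 98356) (nat_lit 26) (.e (nat_lit 426361) (nat_lit 15) .nil))))) (.g (nat_lit 0) (.e (nat_lit 174778) (nat_lit 0) .nil) .nil))) 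
(.lf (nat_lit 503749) (.g (nat_lit 2733) (.e (nat_lit 163979) (nat_lit 30) (.e (nat_lit 573493) (nat_lit 15) (.e (nat_lit 81956) (nat_lit 23) (.e (nat_lit 98366) (nat_lit 27) (.e (nat_lit 434212) (nat_lit 18) .nil))))) (.g (nat_lit 0) (.e (nat_lit 176178) (nat_lit 0) .nil) .nil))))))) (.nd (nat_lit 6) (.nd (nat_lit 7) (.nd (nat_lit 8) (.nd (nat_lit 9) 
(.lf (nat_lit 502821) (.g (nat_lit 3517) (.e (nat_lit 163979) (nat_lit 30) (.e (nat_lit 573488) (nat_lit 14) (.e (nat_lit 73755) (nat_lit 8) (.e (nat_lit 557104) (nat_lit 14) (.e (nat_lit 180252) (nat_lit 10) (.e (nat_lit 573475) (nat_lit 12) (.e (nat_lit 57502) (nat_lit 38) (.e (nat_lit 638995) (nat_lit 7) .nil)))))))) (.g (nat_lit 1) (.e (nat_lit 173948) (nat_lit 0) .nil) .nil))) 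
(.lf (nat_lit 503333) (.g (nat_lit 3816) (.e (nat_lit 163979) (nat_lit 30) (.e (nat_lit 573491) (nat_lit 15) (.e (nat_lit 81955) (nat_lit 23) (.e (nat_lit 98384) (nat_lit 32) (.e (nat_lit 475199) (nat_lit 40) (.e (nat_lit 704589) (nat_lit 3) .nil)))))) (.g (nat_lit 1) (.e (nat_lit 174939) (nat_lit 0) .nil) .nil)))) (.nd (nat_lit 9) 
(.lf (nat_lit 503077) (.g (nat_lit 3301) (.e (nat_lit 163979) (nat_lit 30) (.e (nat_lit 573489) (nat_lit 14) (.e (nat_lit 73755) (nat_lit 8) (.e (nat_lit 557104) (nat_lit 14) (.e (nat_lit 180244) (nat_lit 5) (.e (nat_lit 532488) (nat_lit 0) (.e (nat_lit 7936) (nat_lit 149) (.e (nat_lit 761898) (nat_lit 15) .nil)))))))) (.g (nat_lit 1) (.e (nat_lit 174402) (nat_lit 0) .nil) .nil))) 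
(.lf (nat_lit 503589) (.g (nat_lit 3290) (.e (nat_lit 163979) (nat_lit 30) (.e (nat_lit 573493) (nat_lit 15) (.e (nat_lit 81954) (nat_lit 23) (.e (nat_lit 98359) (nat_lit 26) (.e (nat_lit 426023) (nat_lit 0) (.e (nat_lit 3397) (nat_lit 211) (.e (nat_lit 647180) (nat_lit 3) .nil))))))) (.g (nat_lit 1) (.e (nat_lit 175825) (nat_lit 0) .nil) .nil))))) (.nd (nat_lit 8) (.nd (nat_lit 9) 
(.lf (nat_lit 502949) (.g (nat_lit 2509) (.e (nat_lit 163979) (nat_lit 30) (.e (nat_lit 573489) (nat_lit 14) (.e (nat_lit 73755) (nat_lit 8) (.e (nat_lit 557097) (nat_lit 13) (.e (nat_lit 172066) (nat_lit 3) (.e (nat_lit 204820) (nat_lit 17) (.e (nat_lit 7936) (nat_lit 149) (.e (nat_lit 761899) (nat_lit 15) .nil)))))))) (.g (nat_lit 1) (.e (nat_lit 174137) (nat_lit 0) .nil) .nil))) 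
(.lf (nat_lit 503461) (.g (nat_lit 4717) (.e (nat_lit 163979) (nat_lit 30) (.e (nat_lit 573492) (nat_lit 15) (.e (nat_lit 81956) (nat_lit 23) (.e (nat_lit 98386) (nat_lit 32) (.e (nat_lit 475198) (nat_lit 40) (.e (nat_lit 704589) (nat_lit 3) .nil)))))) (.g (nat_lit 1) (.e (nat_lit 175353) (nat_lit 0) .nil) .nil)))) (.nd (nat_lit 9) 
(.lf (nat_lit 503205) (.g (nat_lit 3469) (.e (nat_lit 163979) (nat_lit 30) (.e (nat_lit 573491) (nat_lit 15) (.e (nat_lit 81951) (nat_lit 22) (.e (nat_lit 90170) (nat_lit 13) (.e (nat_lit 172052) (nat_lit 0) (.e (nat_lit 3409) (nat_lit 212) (.e (nat_lit 655375) (nat_lit 3) .nil))))))) (.g (nat_lit 1) (.e (nat_lit 174687) (nat_lit 0) .nil) .nil))) 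
(.lf (nat_lit 503717) (.g (nat_lit 3026) (.e (nat_lit 163979) (nat_lit 30) (.e (nat_lit 573493) (nat_lit 15) (.e (nat_lit 81956) (nat_lit 23) (.e (nat_lit 98360) (nat_lit 26) (.e (nat_lit 426097) (nat_lit 1) .nil))))) (.g (nat_lit 0) (.e (nat_lit 176111) (nat_lit 0) .nil) .nil)))))) (.nd (nat_lit 7) (.nd (nat_lit 8) (.nd (nat_lit 9) 
(.lf (nat_lit 502885) (.g (nat_lit 3169) (.e (nat_lit 163979) (nat_lit 30) (.e (nat_lit 573489) (nat_lit 14) (.e (nat_lit 73754) (nat_lit 8) (.e (nat_lit 557103) (nat_lit 14) (.e (nat_lit 180244) (nat_lit 5) .nil))))) (.g (nat_lit 0) (.e (nat_lit 174038) (nat_lit 0) .nil) .nil))) 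
(.lf (nat_lit 503397) (.g (nat_lit 3234) (.e (nat_lit 163979) (nat_lit 30) (.e (nat_lit 573492) (nat_lit 15) (.e (nat_lit 81956) (nat_lit 23) (.e (nat_lit 98356) (nat_lit 26) (.e (nat_lit 426056) (nat_lit 0) .nil))))) (.g (nat_lit 0) (.e (nat_lit 175169) (nat_lit 0) .nil) .nil)))) (.nd (nat_lit 9) 
(.lf (nat_lit 503141) (.g (nat_lit 2871) (.e (nat_lit 163979) (nat_lit 30) (.e (nat_lit 573489) (nat_lit 14) (.e (nat_lit 73755) (nat_lit 8) (.e (nat_lit 557105) (nat_lit 14) (.e (nat_lit 180251) (nat_lit 10) (.e (nat_lit 573475) (nat_lit 12) (.e (nat_lit 57504) (nat_lit 38) (.e (nat_lit 638995) (nat_lit 7) .nil)))))))) (.g (nat_lit 1) (.e (nat_lit 174557) (nat_lit 0) .nil) .nil))) 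
(.lf (nat_lit 503653) (.g (nat_lit 3435) (.e (nat_lit 163979) (nat_lit 30) (.e (nat_lit 573493) (nat_lit 15) (.e (nat_lit 81956) (nat_lit 23) (.e (nat_lit 98356) (nat_lit 26) (.e (nat_lit 426360) (nat_lit 15) (.e (nat_lit 2064) (nat_lit 142) (.e (nat_lit 704589) (nat_lit 3) .nil))))))) (.g (nat_lit 1) (.e (nat_lit 175984) (nat_lit 0) .nil) .nil))))) (.nd (nat_lit 8) (.nd (nat_lit 9) 
(.lf (nat_lit 503013) (.g (nat_lit 2263) (.e (nat_lit 163979) (nat_lit 30) (.e (nat_lit 573489) (nat_lit 14) (.e (nat_lit 73755) (nat_lit 8) (.e (nat_lit 557103) (nat_lit 14) (.e (nat_lit 180244) (nat_lit 5) .nil))))) (.g (nat_lit 0) (.e (nat_lit 174269) (nat_lit 0) .nil) .nil))) 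
(.lf (nat_lit 503525) (.g (nat_lit 3481) (.e (nat_lit 163979) (nat_lit 30) (.e (nat_lit 573493) (nat_lit 15) (.e (nat_lit 81953) (nat_lit 22) (.e (nat_lit 90170) (nat_lit 13) (.e (nat_lit 172055) (nat_lit 0) .nil))))) (.g (nat_lit 0) (.e (nat_lit 175689) (nat_lit 0) .nil) .nil)))) (.nd (nat_lit 9) 
(.lf (nat_lit 503269) (.g (nat_lit 1809) (.e (nat_lit 163979) (nat_lit 30) (.e (nat_lit 573491) (nat_lit 15) (.e (nat_lit 81954) (nat_lit 23) (.e (nat_lit 98359) (nat_lit 26) (.e (nat_lit 426003) (nat_lit 0) .nil))))) (.g (nat_lit 0) (.e (nat_lit 174815) (nat_lit 0) .nil) .nil))) 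
(.lf (nat_lit 503781) (.g (nat_lit 2653) (.e (nat_lit 163979) (nat_lit 30) (.e (nat_lit 573493) (nat_lit 15) (.e (nat_lit 81956) (nat_lit 23) (.e (nat_lit 98368) (nat_lit 27) (.e (nat_lit 434272) (nat_lit 38) .nil))))) (.g (nat_lit 0) (.e (nat_lit 176312) (nat_lit 0) .nil) .nil)))))))) (.nd (nat_lit 5) (.nd (nat_lit 6) (.nd (nat_lit 7) (.nd (nat_lit 8) (.nd (nat_lit 9) 
(.lf (nat_lit 502805) (.g (nat_lit 5645) (.e (nat_lit 163979) (nat_lit 30) (.e (nat_lit 573488) (nat_lit 14) (.e (nat_lit 73755) (nat_lit 8) (.e (nat_lit 557103) (nat_lit 14) (.e (nat_lit 180251) (nat_lit 10) (.e (nat_lit 573475) (nat_lit 12) (.e (nat_lit 57503) (nat_lit 38) (.e (nat_lit 638995) (nat_lit 7) .nil)))))))) (.g (nat_lit 1) (.e (nat_lit 173932) (nat_lit 0) .nil) .nil))) 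
(.lf (nat_lit 503317) (.g (nat_lit 3286) (.e (nat_lit 163979) (nat_lit 30) (.e (nat_lit 573491) (nat_lit 15) (.e (nat_lit 81954) (nat_lit 23) (.e (nat_lit 98384) (nat_lit 32) (.e (nat_lit 475205) (nat_lit 40) (.e (nat_lit 704588) (nat_lit 3) .nil)))))) (.g (nat_lit 1) (.e (nat_lit 174923) (nat_lit 0) .nil) .nil)))) (.nd (nat_lit 9) 
(.lf (nat_lit 503061) (.g (nat_lit 1988) (.e (nat_lit 163979) (nat_lit 30) (.e (nat_lit 573489) (nat_lit 14) (.e (nat_lit 73755) (nat_lit 8) (.e (nat_lit 557104) (nat_lit 14) (.e (nat_lit 180242) (nat_lit 5) .nil))))) (.g (nat_lit 0) (.e (nat_lit 174367) (nat_lit 0) .nil) .nil))) 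
(.lf (nat_lit 503573) (.g (nat_lit 3305) (.e (nat_lit 163979) (nat_lit 30) (.e (nat_lit 573493) (nat_lit 15) (.e (nat_lit 81954) (nat_lit 23) (.e (nat_lit 98356) (nat_lit 26) (.e (nat_lit 426416) (nat_lit 15) .nil))))) (.g (nat_lit 0) (.e (nat_lit 175806) (nat_lit 0) .nil) .nil))))) (.nd (nat_lit 8) (.nd (nat_lit 9) 
(.lf (nat_lit 502933) (.g (nat_lit 3219) (.e (nat_lit 163979) (nat_lit 30) (.e (nat_lit 573489) (nat_lit 14) (.e (nat_lit 73755) (nat_lit 8) (.e (nat_lit 557097) (nat_lit 13) (.e (nat_lit 172065) (nat_lit 3) (.e (nat_lit 204817) (nat_lit 17) (.e (nat_lit 2272) (nat_lit 149) (.e (nat_lit 761897) (nat_lit 15) .nil)))))))) (.g (nat_lit 1) (.e (nat_lit 174116) (nat_lit 0) .nil) .nil))) 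
(.lf (nat_lit 503445) (.g (nat_lit 2592) (.e (nat_lit 163979) (nat_lit 30) (.e (nat_lit 573492) (nat_lit 15) (.e (nat_lit 81956) (nat_lit 23) (.e (nat_lit 106240) (nat_lit 26) .nil)))) (.g (nat_lit 0) (.e (nat_lit 175260) (nat_lit 0) .nil) .nil)))) (.nd (nat_lit 9) 
(.lf (nat_lit 503189) (.g (nat_lit 2262) (.e (nat_lit 163979) (nat_lit 30) (.e (nat_lit 573491) (nat_lit 15) (.e (nat_lit 81951) (nat_lit 22) (.e (nat_lit 90170) (nat_lit 13) (.e (nat_lit 172032) (nat_lit 0) .nil))))) (.g (nat_lit 0) (.e (nat_lit 174643) (nat_lit 0) .nil) .nil))) 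
(.lf (nat_lit 503701) (.g (nat_lit 2827) (.e (nat_lit 163979) (nat_lit 30) (.e (nat_lit 573493) (nat_lit 15) (.e (nat_lit 81956) (nat_lit 23) (.e (nat_lit 98359) (nat_lit 26) (.e (nat_lit 426036) (nat_lit 0) .nil))))) (.g (nat_lit 0) (.e (nat_lit 176050) (nat_lit 0) .nil) .nil)))))) (.nd (nat_lit 7) (.nd (nat_lit 8) (.nd (nat_lit 9) 
(.lf (nat_lit 502869) (.g (nat_lit 3261) (.e (nat_lit 163979) (nat_lit 30) (.e (nat_lit 573489) (nat_lit 14) (.e (nat_lit 73754) (nat_lit 8) (.e (nat_lit 557100) (nat_lit 13) (.e (nat_lit 172067) (nat_lit 3) (.e (nat_lit 204817) (nat_lit 17) (.e (nat_lit 7936) (nat_lit 149) (.e (nat_lit 761894) (nat_lit 15) .nil)))))))) (.g (nat_lit 1) (.e (nat_lit 174005) (nat_lit 0) .nil) .nil))) 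
(.lf (nat_lit 503381) (.g (nat_lit 3657) (.e (nat_lit 163979) (nat_lit 30) (.e (nat_lit 573492) (nat_lit 15) (.e (nat_lit 81954) (nat_lit 23) (.e (nat_lit 98366) (nat_lit 27) (.e (nat_lit 434272) (nat_lit 38) (.e (nat_lit 655375) (nat_lit 3) .nil)))))) (.g (nat_lit 1) (.e (nat_lit 175063) (nat_lit 0) .nil) .nil)))) (.nd (nat_lit 9) 
(.lf (nat_lit 503125) (.g (nat_lit 4407) (.e (nat_lit 163979) (nat_lit 30) (.e (nat_lit 573489) (nat_lit 14) (.e (nat_lit 73755) (nat_lit 8) (.e (nat_lit 557104) (nat_lit 14) (.e (nat_lit 180252) (nat_lit 10) (.e (nat_lit 573475) (nat_lit 12) (.e (nat_lit 57501) (nat_lit 37) (.e (nat_lit 630800) (nat_lit 7) .nil)))))))) (.g (nat_lit 1) (.e (nat_lit 174540) (nat_lit 0) .nil) .nil))) 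
(.lf (nat_lit 503637) (.g (nat_lit 1827) (.e (nat_lit 163979) (nat_lit 30) (.e (nat_lit 573493) (nat_lit 15) (.e (nat_lit 81956) (nat_lit 23) (.e (nat_lit 98356) (nat_lit 26) .nil)))) (.g (nat_lit 0) (.e (nat_lit 175956) (nat_lit 0) .nil) .nil))))) (.nd (nat_lit 8) (.nd (nat_lit 9) 
(.lf (nat_lit 502997) (.g (nat_lit 4185) (.e (nat_lit 163979) (nat_lit 30) (.e (nat_lit 573489) (nat_lit 14) (.e (nat_lit 73755) (nat_lit 8) (.e (nat_lit 557098) (nat_lit 13) (.e (nat_lit 172067) (nat_lit 3) (.e (nat_lit 204817) (nat_lit 17) (.e (nat_lit 7936) (nat_lit 149) (.e (nat_lit 761894) (nat_lit 15) .nil)))))))) (.g (nat_lit 1) (.e (nat_lit 174233) (nat_lit 0) .nil) .nil))) 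
(.lf (nat_lit 503509) (.g (nat_lit 3071) (.e (nat_lit 163979) (nat_lit 30) (.e (nat_lit 573493) (nat_lit 15) (.e (nat_lit 81953) (nat_lit 22) (.e (nat_lit 90170) (nat_lit 13) (.e (nat_lit 172041) (nat_lit 0) .nil))))) (.g (nat_lit 0) (.e (nat_lit 175657) (nat_lit 0) .nil) .nil)))) (.nd (nat_lit 9) 
(.lf (nat_lit 503253) (.g (nat_lit 2501) (.e (nat_lit 163979) (nat_lit 30) (.e (nat_lit 573491) (nat_lit 15) (.e (nat_lit 81954) (nat_lit 23) (.e (nat_lit 98356) (nat_lit 26) (.e (nat_lit 426400) (nat_lit 15) .nil))))) (.g (nat_lit 0) (.e (nat_lit 174794) (nat_lit 0) .nil) .nil))) 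
(.lf (nat_lit 503765) (.g (nat_lit 3270) (.e (nat_lit 163979) (nat_lit 30) (.e (nat_lit 573493) (nat_lit 15) (.e (nat_lit 81956) (nat_lit 23) (.e (nat_lit 98367) (nat_lit 27) (.e (nat_lit 434213) (nat_lit 18) (.e (nat_lit 5547) (nat_lit 306) (.e (nat_lit 2610) (nat_lit 163) .nil))))))) (.g (nat_lit 1) (.e (nat_lit 176236) (nat_lit 0) .nil) .nil))))))) 
(.nd (nat_lit 6) (.nd (nat_lit 7) (.nd (nat_lit 8) (.nd (nat_lit 9) 
(.lf (nat_lit 502837) (.g (nat_lit 2874) (.e (nat_lit 163979) (nat_lit 30) (.e (nat_lit 573488) (nat_lit 14) (.e (nat_lit 73755) (nat_lit 8) (.e (nat_lit 557105) (nat_lit 14) (.e (nat_lit 180252) (nat_lit 10) (.e (nat_lit 573474) (nat_lit 12) (.e (nat_lit 57503) (nat_lit 38) (.e (nat_lit 638996) (nat_lit 7) .nil)))))))) (.g (nat_lit 1) (.e (nat_lit 173964) (nat_lit 0) .nil) .nil))) 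
(.lf (nat_lit 503349) (.g (nat_lit 3181) (.e (nat_lit 163979) (nat_lit 30) (.e (nat_lit 573491) (nat_lit 15) (.e (nat_lit 81956) (nat_lit 23) (.e (nat_lit 98384) (nat_lit 32) (.e (nat_lit 475198) (nat_lit 40) (.e (nat_lit 704589) (nat_lit 3) .nil)))))) (.g (nat_lit 1) (.e (nat_lit 174956) (nat_lit 0) .nil) .nil)))) (.nd (nat_lit 9) 
(.lf (nat_lit 503093) (.g (nat_lit 3987) (.e (nat_lit 163979) (nat_lit 30) (.e (nat_lit 573489) (nat_lit 14) (.e (nat_lit 73755) (nat_lit 8) (.e (nat_lit 557104) (nat_lit 14) (.e (nat_lit 180250) (nat_lit 10) (.e (nat_lit 573473) (nat_lit 12) (.e (nat_lit 57504) (nat_lit 38) (.e (nat_lit 638995) (nat_lit 7) .nil)))))))) (.g (nat_lit 1) (.e (nat_lit 174507) (nat_lit 0) .nil) .nil))) 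
(.lf (nat_lit 503605) (.g (nat_lit 3291) (.e (nat_lit 163979) (nat_lit 30) (.e (nat_lit 573493) (nat_lit 15) (.e (nat_lit 81954) (nat_lit 23) (.e (nat_lit 98367) (nat_lit 27) (.e (nat_lit 434270) (nat_lit 38) .nil))))) (.g (nat_lit 0) (.e (nat_lit 175876) (nat_lit 0) .nil) .nil))))) (.nd (nat_lit 8) (.nd (nat_lit 9) 
(.lf (nat_lit 502965) (.g (nat_lit 2337) (.e (nat_lit 163979) (nat_lit 30) (.e (nat_lit 573489) (nat_lit 14) (.e (nat_lit 73755) (nat_lit 8) (.e (nat_lit 557097) (nat_lit 13) (.e (nat_lit 172067) (nat_lit 3) (.e (nat_lit 204818) (nat_lit 17) (.e (nat_lit 2266) (nat_lit 149) (.e (nat_lit 761894) (nat_lit 15) .nil)))))))) (.g (nat_lit 1) (.e (nat_lit 174168) (nat_lit 0) .nil) .nil))) 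
(.lf (nat_lit 503477) (.g (nat_lit 4226) (.e (nat_lit 163979) (nat_lit 30) (.e (nat_lit 573493) (nat_lit 15) (.e (nat_lit 81951) (nat_lit 22) (.e (nat_lit 90170) (nat_lit 13) (.e (nat_lit 172052) (nat_lit 0) .nil))))) (.g (nat_lit 0) (.e (nat_lit 175530) (nat_lit 0) .nil) .nil)))) (.nd (nat_lit 9) 
(.lf (nat_lit 503221) (.g (nat_lit 2234) (.e (nat_lit 163979) (nat_lit 30) (.e (nat_lit 573491) (nat_lit 15) (.e (nat_lit 81953) (nat_lit 22) (.e (nat_lit 90170) (nat_lit 13) (.e (nat_lit 172138) (nat_lit 15) .nil))))) (.g (nat_lit 0) (.e (nat_lit 174753) (nat_lit 0) .nil) .nil))) 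
(.lf (nat_lit 503733) (.g (nat_lit 3719) (.e (nat_lit 163979) (nat_lit 30) (.e (nat_lit 573493) (nat_lit 15) (.e (nat_lit 81956) (nat_lit 23) (.e (nat_lit 98364) (nat_lit 26) .nil)))) (.g (nat_lit 0) (.e (nat_lit 176140) (nat_lit 0) .nil) .nil)))))) (.nd (nat_lit 7) (.nd (nat_lit 8) (.nd (nat_lit 9) 
(.lf (nat_lit 502901) (.g (nat_lit 3363) (.e (nat_lit 163979) (nat_lit 30) (.e (nat_lit 573489) (nat_lit 14) (.e (nat_lit 73754) (nat_lit 8) (.e (nat_lit 557105) (nat_lit 14) (.e (nat_lit 180252) (nat_lit 10) (.e (nat_lit 573473) (nat_lit 12) (.e (nat_lit 57500) (nat_lit 37) (.e (nat_lit 630800) (nat_lit 7) .nil)))))))) (.g (nat_lit 1) (.e (nat_lit 174054) (nat_lit 0) .nil) .nil))) 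
(.lf (nat_lit 503413) (.g (nat_lit 3935) (.e (nat_lit 163979) (nat_lit 30) (.e (nat_lit 573492) (nat_lit 15) (.e (nat_lit 81956) (nat_lit 23) (.e (nat_lit 98356) (nat_lit 26) (.e (nat_lit 426420) (nat_lit 15) (.e (nat_lit 2056) (nat_lit 142) (.e (nat_lit 704589) (nat_lit 3) .nil))))))) (.g (nat_lit 1) (.e (nat_lit 175216) (nat_lit 0) .nil) .nil)))) (.nd (nat_lit 9) 
(.lf (nat_lit 503157) (.g (nat_lit 5146) (.e (nat_lit 163979) (nat_lit 30) (.e (nat_lit 573489) (nat_lit 14) (.e (nat_lit 73755) (nat_lit 8) (.e (nat_lit 557105) (nat_lit 14) (.e (nat_lit 180252) (nat_lit 10) (.e (nat_lit 573473) (nat_lit 12) (.e (nat_lit 57504) (nat_lit 38) (.e (nat_lit 638996) (nat_lit 7) .nil)))))))) (.g (nat_lit 1) (.e (nat_lit 174582) (nat_lit 0) .nil) .nil))) 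
(.lf (nat_lit 503669) (.g (nat_lit 3197) (.e (nat_lit 163979) (nat_lit 30) (.e (nat_lit 573493) (nat_lit 15) (.e (nat_lit 81956) (nat_lit 23) (.e (nat_lit 98356) (nat_lit 26) (.e (nat_lit 426399) (nat_lit 15) .nil))))) (.g (nat_lit 0) (.e (nat_lit 176007) (nat_lit 0) .nil) .nil))))) (.nd (nat_lit 8) (.nd (nat_lit 9) 
(.lf (nat_lit 503029) (.g (nat_lit 2755) (.e (nat_lit 163979) (nat_lit 30) (.e (nat_lit 573489) (nat_lit 14) (.e (nat_lit 73755) (nat_lit 8) (.e (nat_lit 557103) (nat_lit 14) (.e (nat_lit 180250) (nat_lit 10) (.e (nat_lit 573474) (nat_lit 12) (.e (nat_lit 57500) (nat_lit 37) (.e (nat_lit 630800) (nat_lit 7) .nil)))))))) (.g (nat_lit 1) (.e (nat_lit 174326) (nat_lit 0) .nil) .nil))) 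
(.lf (nat_lit 503541) (.g (nat_lit 3036) (.e (nat_lit 163979) (nat_lit 30) (.e (nat_lit 573493) (nat_lit 15) (.e (nat_lit 81953) (nat_lit 22) (.e (nat_lit 90171) (nat_lit 14) .nil)))) (.g (nat_lit 0) (.e (nat_lit 175734) (nat_lit 0) .nil) .nil)))) (.nd (nat_lit 9) 
(.lf (nat_lit 503285) (.g (nat_lit 2136) (.e (nat_lit 163979) (nat_lit 30) (.e (nat_lit 573491) (nat_lit 15) (.e (nat_lit 81954) (nat_lit 23) (.e (nat_lit 98359) (nat_lit 26) (.e (nat_lit 426380) (nat_lit 15) .nil))))) (.g (nat_lit 0) (.e (nat_lit 174851) (nat_lit 0) .nil) .nil))) 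
(.lf (nat_lit 503797) (.g (nat_lit 1439) (.e (nat_lit 171776) (nat_lit 28) (.e (nat_lit 557098) (nat_lit 13) (.e (nat_lit 172115) (nat_lit 10) (.e (nat_lit 434231) (nat_lit 23) .nil)))) (.g (nat_lit 0) (.e (nat_lit 176388) (nat_lit 0) .nil) .nil))))))))) (.nd (nat_lit 4) (.nd (nat_lit 5) (.nd (nat_lit 6) (.nd (nat_lit 7) (.nd (nat_lit 8) (.nd (nat_lit 9) 
(.lf (nat_lit 502797) (.g (nat_lit 4985) (.e (nat_lit 163979) (nat_lit 30) (.e (nat_lit 573488) (nat_lit 14) (.e (nat_lit 73755) (nat_lit 8) (.e (nat_lit 557103) (nat_lit 14) (.e (nat_lit 180250) (nat_lit 10) (.e (nat_lit 573473) (nat_lit 12) (.e (nat_lit 57504) (nat_lit 38) (.e (nat_lit 638995) (nat_lit 7) .nil)))))))) (.g (nat_lit 1) (.e (nat_lit 173924) (nat_lit 0) .nil) .nil))) 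
(.lf (nat_lit 503309) (.g (nat_lit 3122) (.e (nat_lit 163979) (nat_lit 30) (.e (nat_lit 573491) (nat_lit 15) (.e (nat_lit 81954) (nat_lit 23) (.e (nat_lit 98383) (nat_lit 32) (.e (nat_lit 475197) (nat_lit 40) (.e (nat_lit 704589) (nat_lit 3) .nil)))))) (.g (nat_lit 1) (.e (nat_lit 174915) (nat_lit 0) .nil) .nil)))) (.nd (nat_lit 9) 
(.lf (nat_lit 503053) (.g (nat_lit 2827) (.e (nat_lit 163979) (nat_lit 30) (.e (nat_lit 573489) (nat_lit 14) (.e (nat_lit 73755) (nat_lit 8) (.e (nat_lit 557103) (nat_lit 14) (.e (nat_lit 180250) (nat_lit 10) (.e (nat_lit 573478) (nat_lit 12) (.e (nat_lit 57502) (nat_lit 38) (.e (nat_lit 638994) (nat_lit 7) .nil)))))))) (.g (nat_lit 1) (.e (nat_lit 174350) (nat_lit 0) .nil) .nil))) 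
(.lf (nat_lit 503565) (.g (nat_lit 4246) (.e (nat_lit 163979) (nat_lit 30) (.e (nat_lit 573493) (nat_lit 15) (.e (nat_lit 81954) (nat_lit 23) (.e (nat_lit 98356) (nat_lit 26) (.e (nat_lit 426374) (nat_lit 15) (.e (nat_lit 2059) (nat_lit 142) (.e (nat_lit 704589) (nat_lit 3) .nil))))))) (.g (nat_lit 1) (.e (nat_lit 175798) (nat_lit 0) .nil) .nil))))) (.nd (nat_lit 8) (.nd (nat_lit 9) 
(.lf (nat_lit 502925) (.g (nat_lit 3109) (.e (nat_lit 163979) (nat_lit 30) (.e (nat_lit 573489) (nat_lit 14) (.e (nat_lit 73755) (nat_lit 8) (.e (nat_lit 557096) (nat_lit 13) (.e (nat_lit 172067) (nat_lit 3) (.e (nat_lit 204817) (nat_lit 17) (.e (nat_lit 2272) (nat_lit 149) (.e (nat_lit 761897) (nat_lit 15) .nil)))))))) (.g (nat_lit 1) (.e (nat_lit 174094) (nat_lit 0) .nil) .nil))) 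
(.lf (nat_lit 503437) (.g (nat_lit 4345) (.e (nat_lit 163979) (nat_lit 30) (.e (nat_lit 573492) (nat_lit 15) (.e (nat_lit 81956) (nat_lit 23) (.e (nat_lit 98365) (nat_lit 26) .nil)))) (.g (nat_lit 0) (.e (nat_lit 175250) (nat_lit 0) .nil) .nil)))) (.nd (nat_lit 9) 
(.lf (nat_lit 503181) (.g (nat_lit 3836) (.e (nat_lit 163979) (nat_lit 30) (.e (nat_lit 573489) (nat_lit 14) (.e (nat_lit 73755) (nat_lit 8) (.e (nat_lit 557105) (nat_lit 14) (.e (nat_lit 180252) (nat_lit 10) (.e (nat_lit 573478) (nat_lit 12) (.e (nat_lit 57502) (nat_lit 38) (.e (nat_lit 638995) (nat_lit 7) .nil)))))))) (.g (nat_lit 1) (.e (nat_lit 174606) (nat_lit 0) .nil) .nil))) 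
(.lf (nat_lit 503693) (.g (nat_lit 2706) (.e (nat_lit 163979) (nat_lit 30) (.e (nat_lit 573493) (nat_lit 15) (.e (nat_lit 81956) (nat_lit 23) (.e (nat_lit 98359) (nat_lit 26) (.e (nat_lit 426003) (nat_lit 0) (.e (nat_lit 3402) (nat_lit 211) (.e (nat_lit 647180) (nat_lit 3) .nil))))))) (.g (nat_lit 1) (.e (nat_lit 176037) (nat_lit 0) .nil) .nil)))))) 
(.nd (nat_lit 7) (.nd (nat_lit 8) (.nd (nat_lit 9) 
(.lf (nat_lit 502861) (.g (nat_lit 4606) (.e (nat_lit 163979) (nat_lit 30) (.e (nat_lit 573489) (nat_lit 14) (.e (nat_lit 73754) (nat_lit 8) (.e (nat_lit 557100) (nat_lit 13) (.e (nat_lit 172065) (nat_lit 3) (.e (nat_lit 204817) (nat_lit 17) (.e (nat_lit 7936) (nat_lit 149) (.e (nat_lit 761898) (nat_lit 15) .nil)))))))) (.g (nat_lit 1) (.e (nat_lit 173994) (nat_lit 0) .nil) .nil))) 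
(.lf (nat_lit 503373) (.g (nat_lit 4219) (.e (nat_lit 163979) (nat_lit 30) (.e (nat_lit 573492) (nat_lit 15) (.e (nat_lit 81953) (nat_lit 22) (.e (nat_lit 98048) (nat_lit 14) .nil)))) (.g (nat_lit 0) (.e (nat_lit 175055) (nat_lit 0) .nil) .nil)))) (.nd (nat_lit 9) 
(.lf (nat_lit 503117) (.g (nat_lit 5054) (.e (nat_lit 163979) (nat_lit 30) (.e (nat_lit 573489) (nat_lit 14) (.e (nat_lit 73755) (nat_lit 8) (.e (nat_lit 557104) (nat_lit 14) (.e (nat_lit 180252) (nat_lit 10) (.e (nat_lit 573473) (nat_lit 12) (.e (nat_lit 57504) (nat_lit 38) (.e (nat_lit 638995) (nat_lit 7) .nil)))))))) (.g (nat_lit 1) (.e (nat_lit 174532) (nat_lit 0) .nil) .nil))) 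
(.lf (nat_lit 503629) (.g (nat_lit 2754) (.e (nat_lit 163979) (nat_lit 30) (.e (nat_lit 573493) (nat_lit 15) (.e (nat_lit 81956) (nat_lit 23) (.e (nat_lit 98354) (nat_lit 26) (.e (nat_lit 426025) (nat_lit 0) (.e (nat_lit 3397) (nat_lit 211) (.e (nat_lit 647180) (nat_lit 3) .nil))))))) (.g (nat_lit 1) (.e (nat_lit 175944) (nat_lit 0) .nil) .nil))))) (.nd (nat_lit 8) (.nd (nat_lit 9) 
(.lf (nat_lit 502989) (.g (nat_lit 3401) (.e (nat_lit 163979) (nat_lit 30) (.e (nat_lit 573489) (nat_lit 14) (.e (nat_lit 73755) (nat_lit 8) (.e (nat_lit 557098) (nat_lit 13) (.e (nat_lit 172067) (nat_lit 3) (.e (nat_lit 204814) (nat_lit 17) (.e (nat_lit 2270) (nat_lit 149) (.e (nat_lit 761898) (nat_lit 15) .nil)))))))) (.g (nat_lit 1) (.e (nat_lit 174225) (nat_lit 0) .nil) .nil))) 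
(.lf (nat_lit 503501) (.g (nat_lit 3302) (.e (nat_lit 163979) (nat_lit 30) (.e (nat_lit 573493) (nat_lit 15) (.e (nat_lit 81953) (nat_lit 22) (.e (nat_lit 90170) (nat_lit 13) (.e (nat_lit 172032) (nat_lit 0) (.e (nat_lit 3401) (nat_lit 211) (.e (nat_lit 647181) (nat_lit 3) .nil))))))) (.g (nat_lit 1) (.e (nat_lit 175637) (nat_lit 0) .nil) .nil)))) (.nd (nat_lit 9) 
(.lf (nat_lit 503245) (.g (nat_lit 3038) (.e (nat_lit 163979) (nat_lit 30) (.e (nat_lit 573491) (nat_lit 15) (.e (nat_lit 81954) (nat_lit 23) (.e (nat_lit 98356) (nat_lit 26) (.e (nat_lit 426374) (nat_lit 15) (.e (nat_lit 2057) (nat_lit 142) (.e (nat_lit 704589) (nat_lit 3) .nil))))))) (.g (nat_lit 1) (.e (nat_lit 174786) (nat_lit 0) .nil) .nil))) 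
(.lf (nat_lit 503757) (.g (nat_lit 3020) (.e (nat_lit 163979) (nat_lit 30) (.e (nat_lit 573493) (nat_lit 15) (.e (nat_lit 81956) (nat_lit 23) (.e (nat_lit 98367) (nat_lit 27) (.e (nat_lit 434205) (nat_lit 18) .nil))))) (.g (nat_lit 0) (.e (nat_lit 176203) (nat_lit 0) .nil) .nil))))))) (.nd (nat_lit 6) (.nd (nat_lit 7) (.nd (nat_lit 8) (.nd (nat_lit 9) 
(.lf (nat_lit 502829) (.g (nat_lit 3521) (.e (nat_lit 163979) (nat_lit 30) (.e (nat_lit 573488) (nat_lit 14) (.e (nat_lit 73755) (nat_lit 8) (.e (nat_lit 557105) (nat_lit 14) (.e (nat_lit 180251) (nat_lit 10) (.e (nat_lit 573477) (nat_lit 12) (.e (nat_lit 57502) (nat_lit 38) (.e (nat_lit 638995) (nat_lit 7) .nil)))))))) (.g (nat_lit 1) (.e (nat_lit 173956) (nat_lit 0) .nil) .nil))) 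
(.lf (nat_lit 503341) (.g (nat_lit 2561) (.e (nat_lit 163979) (nat_lit 30) (.e (nat_lit 573491) (nat_lit 15) (.e (nat_lit 81956) (nat_lit 23) (.e (nat_lit 98356) (nat_lit 26) (.e (nat_lit 426420) (nat_lit 15) .nil))))) (.g (nat_lit 0) (.e (nat_lit 174947) (nat_lit 0) .nil) .nil)))) (.nd (nat_lit 9) 
(.lf (nat_lit 503085) (.g (nat_lit 2611) (.e (nat_lit 163979) (nat_lit 30) (.e (nat_lit 573489) (nat_lit 14) (.e (nat_lit 73755) (nat_lit 8) (.e (nat_lit 557104) (nat_lit 14) (.e (nat_lit 180244) (nat_lit 5) (.e (nat_lit 532503) (nat_lit 1) (.e (nat_lit 57658) (nat_lit 152) (.e (nat_lit 2606) (nat_lit 163) .nil)))))))) (.g (nat_lit 1) (.e (nat_lit 174450) (nat_lit 0) .nil) .nil))) 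
(.lf (nat_lit 503597) (.g (nat_lit 2280) (.e (nat_lit 163979) (nat_lit 30) (.e (nat_lit 573493) (nat_lit 15) (.e (nat_lit 81954) (nat_lit 23) (.e (nat_lit 98363) (nat_lit 26) .nil)))) (.g (nat_lit 0) (.e (nat_lit 175853) (nat_lit 0) .nil) .nil))))) (.nd (nat_lit 8) (.nd (nat_lit 9) 
(.lf (nat_lit 502957) (.g (nat_lit 2259) (.e (nat_lit 163979) (nat_lit 30) (.e (nat_lit 573489) (nat_lit 14) (.e (nat_lit 73755) (nat_lit 8) (.e (nat_lit 557097) (nat_lit 13) (.e (nat_lit 172067) (nat_lit 3) (.e (nat_lit 204815) (nat_lit 17) (.e (nat_lit 2266) (nat_lit 149) (.e (nat_lit 761894) (nat_lit 15) .nil)))))))) (.g (nat_lit 1) (.e (nat_lit 174160) (nat_lit 0) .nil) .nil))) 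
(.lf (nat_lit 503469) (.g (nat_lit 4435) (.e (nat_lit 163979) (nat_lit 30) (.e (nat_lit 573493) (nat_lit 15) (.e (nat_lit 81951) (nat_lit 22) (.e (nat_lit 90170) (nat_lit 13) (.e (nat_lit 172035) (nat_lit 0) (.e (nat_lit 3401) (nat_lit 211) (.e (nat_lit 647181) (nat_lit 3) .nil))))))) (.g (nat_lit 1) (.e (nat_lit 175516) (nat_lit 0) .nil) .nil)))) (.nd (nat_lit 9) 
(.lf (nat_lit 503213) (.g (nat_lit 3321) (.e (nat_lit 163979) (nat_lit 30) (.e (nat_lit 573491) (nat_lit 15) (.e (nat_lit 81951) (nat_lit 22) (.e (nat_lit 90170) (nat_lit 13) (.e (nat_lit 172137) (nat_lit 15) (.e (nat_lit 2057) (nat_lit 142) (.e (nat_lit 704589) (nat_lit 3) .nil))))))) (.g (nat_lit 1) (.e (nat_lit 174722) (nat_lit 0) .nil) .nil))) 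
(.lf (nat_lit 503725) (.g (nat_lit 3557) (.e (nat_lit 163979) (nat_lit 30) (.e (nat_lit 573493) (nat_lit 15) (.e (nat_lit 81956) (nat_lit 23) (.e (nat_lit 98362) (nat_lit 26) .nil)))) (.g (nat_lit 0) (.e (nat_lit 176127) (nat_lit 0) .nil) .nil)))))) (.nd (nat_lit 7) (.nd (nat_lit 8) (.nd (nat_lit 9) 
(.lf (nat_lit 502893) (.g (nat_lit 2786) (.e (nat_lit 163979) (nat_lit 30) (.e (nat_lit 573489) (nat_lit 14) (.e (nat_lit 73754) (nat_lit 8) (.e (nat_lit 557103) (nat_lit 14) (.e (nat_lit 180250) (nat_lit 10) (.e (nat_lit 573478) (nat_lit 12) (.e (nat_lit 57500) (nat_lit 37) (.e (nat_lit 630799) (nat_lit 7) .nil)))))))) (.g (nat_lit 1) (.e (nat_lit 174046) (nat_lit 0) .nil) .nil))) 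
(.lf (nat_lit 503405) (.g (nat_lit 3795) (.e (nat_lit 163979) (nat_lit 30) (.e (nat_lit 573492) (nat_lit 15) (.e (nat_lit 81956) (nat_lit 23) (.e (nat_lit 98356) (nat_lit 26) (.e (nat_lit 426375) (nat_lit 15) (.e (nat_lit 2056) (nat_lit 142) (.e (nat_lit 704589) (nat_lit 3) .nil))))))) (.g (nat_lit 1) (.e (nat_lit 175208) (nat_lit 0) .nil) .nil)))) (.nd (nat_lit 9) 
(.lf (nat_lit 503149) (.g (nat_lit 1805) (.e (nat_lit 163979) (nat_lit 30) (.e (nat_lit 573489) (nat_lit 14) (.e (nat_lit 73755) (nat_lit 8) (.e (nat_lit 557105) (nat_lit 14) (.e (nat_lit 180252) (nat_lit 10) .nil))))) (.g (nat_lit 0) (.e (nat_lit 174565) (nat_lit 0) .nil) .nil))) 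
(.lf (nat_lit 503661) (.g (nat_lit 2758) (.e (nat_lit 163979) (nat_lit 30) (.e (nat_lit 573493) (nat_lit 15) (.e (nat_lit 81956) (nat_lit 23) (.e (nat_lit 98356) (nat_lit 26) (.e (nat_lit 426363) (nat_lit 15) .nil))))) (.g (nat_lit 0) (.e (nat_lit 175997) (nat_lit 0) .nil) .nil))))) (.nd (nat_lit 8) (.nd (nat_lit 9) 
(.lf (nat_lit 503021) (.g (nat_lit 3030) (.e (nat_lit 163979) (nat_lit 30) (.e (nat_lit 573489) (nat_lit 14) (.e (nat_lit 73755) (nat_lit 8) (.e (nat_lit 557103) (nat_lit 14) (.e (nat_lit 180250) (nat_lit 10) (.e (nat_lit 573473) (nat_lit 12) (.e (nat_lit 57500) (nat_lit 37) (.e (nat_lit 630800) (nat_lit 7) .nil)))))))) (.g (nat_lit 1) (.e (nat_lit 174318) (nat_lit 0) .nil) .nil))) 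
(.lf (nat_lit 503533) (.g (nat_lit 4580) (.e (nat_lit 163979) (nat_lit 30) (.e (nat_lit 573493) (nat_lit 15) (.e (nat_lit 81953) (nat_lit 22) (.e (nat_lit 90170) (nat_lit 13) (.e (nat_lit 172061) (nat_lit 1) (.e (nat_lit 164345) (nat_lit 240) (.e (nat_lit 2610) (nat_lit 163) .nil))))))) (.g (nat_lit 1) (.e (nat_lit 175704) (nat_lit 0) .nil) .nil)))) (.nd (nat_lit 9) 
(.lf (nat_lit 503277) (.g (nat_lit 2975) (.e (nat_lit 163979) (nat_lit 30) (.e (nat_lit 573491) (nat_lit 15) (.e (nat_lit 81954) (nat_lit 23) (.e (nat_lit 98359) (nat_lit 26) (.e (nat_lit 426022) (nat_lit 0) (.e (nat_lit 3402) (nat_lit 211) (.e (nat_lit 647180) (nat_lit 3) .nil))))))) (.g (nat_lit 1) (.e (nat_lit 174824) (nat_lit 0) .nil) .nil))) 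
(.lf (nat_lit 503789) (.g (nat_lit 4026) (.e (nat_lit 163979) (nat_lit 30) (.e (nat_lit 573493) (nat_lit 15) (.e (nat_lit 81956) (nat_lit 23) (.e (nat_lit 98384) (nat_lit 32) (.e (nat_lit 475201) (nat_lit 40) (.e (nat_lit 712448) (nat_lit 3) .nil)))))) (.g (nat_lit 1) (.e (nat_lit 176339) (nat_lit 0) .nil) .nil)))))))) 
(.nd (nat_lit 5) (.nd (nat_lit 6) (.nd (nat_lit 7) (.nd (nat_lit 8) (.nd (nat_lit 9) 
(.lf (nat_lit 502813) (.g (nat_lit 4811) (.e (nat_lit 163979) (nat_lit 30) (.e (nat_lit 573488) (nat_lit 14) (.e (nat_lit 73755) (nat_lit 8) (.e (nat_lit 557104) (nat_lit 14) (.e (nat_lit 180250) (nat_lit 10) (.e (nat_lit 573475) (nat_lit 12) (.e (nat_lit 57503) (nat_lit 38) (.e (nat_lit 638995) (nat_lit 7) .nil)))))))) (.g (nat_lit 1) (.e (nat_lit 173940) (nat_lit 0) .nil) .nil))) 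
(.lf (nat_lit 503325) (.g (nat_lit 3765) (.e (nat_lit 163979) (nat_lit 30) (.e (nat_lit 573491) (nat_lit 15) (.e (nat_lit 81954) (nat_lit 23) (.e (nat_lit 98386) (nat_lit 32) (.e (nat_lit 475197) (nat_lit 40) (.e (nat_lit 704589) (nat_lit 3) .nil)))))) (.g (nat_lit 1) (.e (nat_lit 174931) (nat_lit 0) .nil) .nil)))) (.nd (nat_lit 9) 
(.lf (nat_lit 503069) (.g (nat_lit 1523) (.e (nat_lit 163979) (nat_lit 30) (.e (nat_lit 573489) (nat_lit 14) (.e (nat_lit 73755) (nat_lit 8) (.e (nat_lit 557104) (nat_lit 14) (.e (nat_lit 180244) (nat_lit 5) .nil))))) (.g (nat_lit 0) (.e (nat_lit 174390) (nat_lit 0) .nil) .nil))) 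
(.lf (nat_lit 503581) (.g (nat_lit 4179) (.e (nat_lit 163979) (nat_lit 30) (.e (nat_lit 573493) (nat_lit 15) (.e (nat_lit 81954) (nat_lit 23) (.e (nat_lit 98358) (nat_lit 26) (.e (nat_lit 426444) (nat_lit 19) (.e (nat_lit 114432) (nat_lit 3) .nil)))))) (.g (nat_lit 1) (.e (nat_lit 175817) (nat_lit 0) .nil) .nil))))) (.nd (nat_lit 8) (.nd (nat_lit 9) 
(.lf (nat_lit 502941) (.g (nat_lit 2430) (.e (nat_lit 163979) (nat_lit 30) (.e (nat_lit 573489) (nat_lit 14) (.e (nat_lit 73755) (nat_lit 8) (.e (nat_lit 557097) (nat_lit 13) (.e (nat_lit 172065) (nat_lit 3) (.e (nat_lit 204830) (nat_lit 18) (.e (nat_lit 57663) (nat_lit 152) (.e (nat_lit 2606) (nat_lit 163) .nil)))))))) (.g (nat_lit 1) (.e (nat_lit 174125) (nat_lit 0) .nil) .nil))) 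
(.lf (nat_lit 503453) (.g (nat_lit 4602) (.e (nat_lit 163979) (nat_lit 30) (.e (nat_lit 573492) (nat_lit 15) (.e (nat_lit 81956) (nat_lit 23) (.e (nat_lit 98384) (nat_lit 32) (.e (nat_lit 475197) (nat_lit 40) (.e (nat_lit 704589) (nat_lit 3) .nil)))))) (.g (nat_lit 1) (.e (nat_lit 175345) (nat_lit 0) .nil) .nil)))) (.nd (nat_lit 9) 
(.lf (nat_lit 503197) (.g (nat_lit 3196) (.e (nat_lit 163979) (nat_lit 30) (.e (nat_lit 573491) (nat_lit 15) (.e (nat_lit 81951) (nat_lit 22) (.e (nat_lit 90170) (nat_lit 13) (.e (nat_lit 172043) (nat_lit 0) .nil))))) (.g (nat_lit 0) (.e (nat_lit 174668) (nat_lit 0) .nil) .nil))) 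
(.lf (nat_lit 503709) (.g (nat_lit 3132) (.e (nat_lit 163979) (nat_lit 30) (.e (nat_lit 573493) (nat_lit 15) (.e (nat_lit 81956) (nat_lit 23) (.e (nat_lit 98359) (nat_lit 26) (.e (nat_lit 426410) (nat_lit 15) (.e (nat_lit 2056) (nat_lit 142) (.e (nat_lit 704589) (nat_lit 3) .nil))))))) (.g (nat_lit 1) (.e (nat_lit 176101) (nat_lit 0) .nil) .nil)))))) 
(.nd (nat_lit 7) (.nd (nat_lit 8) (.nd (nat_lit 9) 
(.lf (nat_lit 502877) (.g (nat_lit 3141) (.e (nat_lit 163979) (nat_lit 30) (.e (nat_lit 573489) (nat_lit 14) (.e (nat_lit 73754) (nat_lit 8) (.e (nat_lit 557101) (nat_lit 13) (.e (nat_lit 172065) (nat_lit 3) (.e (nat_lit 204817) (nat_lit 17) (.e (nat_lit 7936) (nat_lit 149) (.e (nat_lit 761899) (nat_lit 15) .nil)))))))) (.g (nat_lit 1) (.e (nat_lit 174023) (nat_lit 0) .nil) .nil))) 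
(.lf (nat_lit 503389) (.g (nat_lit 1758) (.e (nat_lit 163979) (nat_lit 30) (.e (nat_lit 573492) (nat_lit 15) (.e (nat_lit 81956) (nat_lit 23) (.e (nat_lit 98355) (nat_lit 26) (.e (nat_lit 425992) (nat_lit 0) .nil))))) (.g (nat_lit 0) (.e (nat_lit 175154) (nat_lit 0) .nil) .nil)))) (.nd (nat_lit 9) 
(.lf (nat_lit 503133) (.g (nat_lit 3036) (.e (nat_lit 163979) (nat_lit 30) (.e (nat_lit 573489) (nat_lit 14) (.e (nat_lit 73755) (nat_lit 8) (.e (nat_lit 557105) (nat_lit 14) (.e (nat_lit 180250) (nat_lit 10) (.e (nat_lit 573473) (nat_lit 12) (.e (nat_lit 57503) (nat_lit 38) (.e (nat_lit 638995) (nat_lit 7) .nil)))))))) (.g (nat_lit 1) (.e (nat_lit 174549) (nat_lit 0) .nil) .nil))) 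
(.lf (nat_lit 503645) (.g (nat_lit 3662) (.e (nat_lit 163979) (nat_lit 30) (.e (nat_lit 573493) (nat_lit 15) (.e (nat_lit 81956) (nat_lit 23) (.e (nat_lit 98356) (nat_lit 26) (.e (nat_lit 426360) (nat_lit 15) (.e (nat_lit 2045) (nat_lit 142) (.e (nat_lit 704589) (nat_lit 3) .nil))))))) (.g (nat_lit 1) (.e (nat_lit 175976) (nat_lit 0) .nil) .nil))))) (.nd (nat_lit 8) (.nd (nat_lit 9) 
(.lf (nat_lit 503005) (.g (nat_lit 2619) (.e (nat_lit 163979) (nat_lit 30) (.e (nat_lit 573489) (nat_lit 14) (.e (nat_lit 73755) (nat_lit 8) (.e (nat_lit 557100) (nat_lit 13) .nil)))) (.g (nat_lit 0) (.e (nat_lit 174257) (nat_lit 0) .nil) .nil))) 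
(.lf (nat_lit 503517) (.g (nat_lit 2675) (.e (nat_lit 163979) (nat_lit 30) (.e (nat_lit 573493) (nat_lit 15) (.e (nat_lit 81953) (nat_lit 22) (.e (nat_lit 90170) (nat_lit 13) (.e (nat_lit 172046) (nat_lit 0) .nil))))) (.g (nat_lit 0) (.e (nat_lit 175668) (nat_lit 0) .nil) .nil)))) (.nd (nat_lit 9) 
(.lf (nat_lit 503261) (.g (nat_lit 2831) (.e (nat_lit 163979) (nat_lit 30) (.e (nat_lit 573491) (nat_lit 15) (.e (nat_lit 81954) (nat_lit 23) (.e (nat_lit 98356) (nat_lit 26) (.e (nat_lit 426442) (nat_lit 19) (.e (nat_lit 114432) (nat_lit 3) .nil)))))) (.g (nat_lit 1) (.e (nat_lit 174802) (nat_lit 0) .nil) .nil))) 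
(.lf (nat_lit 503773) (.g (nat_lit 1739) (.e (nat_lit 163979) (nat_lit 30) (.e (nat_lit 573493) (nat_lit 15) (.e (nat_lit 81956) (nat_lit 23) (.e (nat_lit 98368) (nat_lit 27) .nil)))) (.g (nat_lit 0) (.e (nat_lit 176248) (nat_lit 0) .nil) .nil))))))) (.nd (nat_lit 6) (.nd (nat_lit 7) (.nd (nat_lit 8) (.nd (nat_lit 9) 
(.lf (nat_lit 502845) (.g (nat_lit 2947) (.e (nat_lit 163979) (nat_lit 30) (.e (nat_lit 573489) (nat_lit 14) (.e (nat_lit 73753) (nat_lit 8) (.e (nat_lit 557103) (nat_lit 14) (.e (nat_lit 180250) (nat_lit 10) (.e (nat_lit 573473) (nat_lit 12) (.e (nat_lit 57503) (nat_lit 38) (.e (nat_lit 638995) (nat_lit 7) .nil)))))))) (.g (nat_lit 1) (.e (nat_lit 173976) (nat_lit 0) .nil) .nil))) 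
(.lf (nat_lit 503357) (.g (nat_lit 3579) (.e (nat_lit 163979) (nat_lit 30) (.e (nat_lit 573492) (nat_lit 15) (.e (nat_lit 81951) (nat_lit 22) (.e (nat_lit 90170) (nat_lit 13) (.e (nat_lit 172046) (nat_lit 0) .nil))))) (.g (nat_lit 0) (.e (nat_lit 175019) (nat_lit 0) .nil) .nil)))) (.nd (nat_lit 9) 
(.lf (nat_lit 503101) (.g (nat_lit 2369) (.e (nat_lit 163979) (nat_lit 30) (.e (nat_lit 573489) (nat_lit 14) (.e (nat_lit 73755) (nat_lit 8) (.e (nat_lit 557104) (nat_lit 14) (.e (nat_lit 180250) (nat_lit 10) (.e (nat_lit 573477) (nat_lit 12) (.e (nat_lit 57502) (nat_lit 38) (.e (nat_lit 638996) (nat_lit 7) .nil)))))))) (.g (nat_lit 1) (.e (nat_lit 174515) (nat_lit 0) .nil) .nil))) 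
(.lf (nat_lit 503613) (.g (nat_lit 4262) (.e (nat_lit 163979) (nat_lit 30) (.e (nat_lit 573493) (nat_lit 15) (.e (nat_lit 81954) (nat_lit 23) (.e (nat_lit 98383) (nat_lit 32) (.e (nat_lit 475197) (nat_lit 40) (.e (nat_lit 704589) (nat_lit 3) .nil)))))) (.g (nat_lit 1) (.e (nat_lit 175887) (nat_lit 0) .nil) .nil))))) (.nd (nat_lit 8) (.nd (nat_lit 9) 
(.lf (nat_lit 502973) (.g (nat_lit 3525) (.e (nat_lit 163979) (nat_lit 30) (.e (nat_lit 573489) (nat_lit 14) (.e (nat_lit 73755) (nat_lit 8) (.e (nat_lit 557098) (nat_lit 13) (.e (nat_lit 172065) (nat_lit 3) (.e (nat_lit 204817) (nat_lit 17) (.e (nat_lit 7936) (nat_lit 149) (.e (nat_lit 761893) (nat_lit 15) .nil)))))))) (.g (nat_lit 1) (.e (nat_lit 174202) (nat_lit 0) .nil) .nil))) 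
(.lf (nat_lit 503485) (.g (nat_lit 3783) (.e (nat_lit 163979) (nat_lit 30) (.e (nat_lit 573493) (nat_lit 15) (.e (nat_lit 81951) (nat_lit 22) (.e (nat_lit 90170) (nat_lit 13) (.e (nat_lit 172136) (nat_lit 15) .nil))))) (.g (nat_lit 0) (.e (nat_lit 175560) (nat_lit 0) .nil) .nil)))) (.nd (nat_lit 9) 
(.lf (nat_lit 503229) (.g (nat_lit 2694) (.e (nat_lit 163979) (nat_lit 30) (.e (nat_lit 573491) (nat_lit 15) (.e (nat_lit 81954) (nat_lit 23) (.e (nat_lit 98356) (nat_lit 26) (.e (nat_lit 426354) (nat_lit 15) (.e (nat_lit 2064) (nat_lit 142) (.e (nat_lit 704589) (nat_lit 3) .nil))))))) (.g (nat_lit 1) (.e (nat_lit 174770) (nat_lit 0) .nil) .nil))) 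
(.lf (nat_lit 503741) (.g (nat_lit 5099) (.e (nat_lit 163979) (nat_lit 30) (.e (nat_lit 573493) (nat_lit 15) (.e (nat_lit 81956) (nat_lit 23) (.e (nat_lit 98365) (nat_lit 26) (.e (nat_lit 426106) (nat_lit 1) .nil))))) (.g (nat_lit 0) (.e (nat_lit 176154) (nat_lit 0) .nil) .nil)))))) (.nd (nat_lit 7) (.nd (nat_lit 8) (.nd (nat_lit 9) 
(.lf (nat_lit 502909) (.g (nat_lit 4273) (.e (nat_lit 163979) (nat_lit 30) (.e (nat_lit 573489) (nat_lit 14) (.e (nat_lit 73754) (nat_lit 8) (.e (nat_lit 557105) (nat_lit 14) (.e (nat_lit 180252) (nat_lit 10) (.e (nat_lit 573473) (nat_lit 12) (.e (nat_lit 57504) (nat_lit 38) (.e (nat_lit 638996) (nat_lit 7) .nil)))))))) (.g (nat_lit 1) (.e (nat_lit 174062) (nat_lit 0) .nil) .nil))) 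
(.lf (nat_lit 503421) (.g (nat_lit 3143) (.e (nat_lit 163979) (nat_lit 30) (.e (nat_lit 573492) (nat_lit 15) (.e (nat_lit 81956) (nat_lit 23) (.e (nat_lit 98358) (nat_lit 26) .nil)))) (.g (nat_lit 0) (.e (nat_lit 175234) (nat_lit 0) .nil) .nil)))) (.nd (nat_lit 9) 
(.lf (nat_lit 503165) (.g (nat_lit 5509) (.e (nat_lit 163979) (nat_lit 30) (.e (nat_lit 573489) (nat_lit 14) (.e (nat_lit 73755) (nat_lit 8) (.e (nat_lit 557105) (nat_lit 14) (.e (nat_lit 180252) (nat_lit 10) (.e (nat_lit 573474) (nat_lit 12) (.e (nat_lit 57503) (nat_lit 38) (.e (nat_lit 638996) (nat_lit 7) .nil)))))))) (.g (nat_lit 1) (.e (nat_lit 174590) (nat_lit 0) .nil) .nil))) 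
(.lf (nat_lit 503677) (.g (nat_lit 3694) (.e (nat_lit 163979) (nat_lit 30) (.e (nat_lit 573493) (nat_lit 15) (.e (nat_lit 81956) (nat_lit 23) (.e (nat_lit 98356) (nat_lit 26) (.e (nat_lit 426404) (nat_lit 15) (.e (nat_lit 2056) (nat_lit 142) (.e (nat_lit 704589) (nat_lit 3) .nil))))))) (.g (nat_lit 1) (.e (nat_lit 176015) (nat_lit 0) .nil) .nil))))) (.nd (nat_lit 8) (.nd (nat_lit 9) 
(.lf (nat_lit 503037) (.g (nat_lit 4134) (.e (nat_lit 163979) (nat_lit 30) (.e (nat_lit 573489) (nat_lit 14) (.e (nat_lit 73755) (nat_lit 8) (.e (nat_lit 557103) (nat_lit 14) (.e (nat_lit 180250) (nat_lit 10) (.e (nat_lit 573475) (nat_lit 12) (.e (nat_lit 57500) (nat_lit 37) (.e (nat_lit 630799) (nat_lit 7) .nil)))))))) (.g (nat_lit 1) (.e (nat_lit 174334) (nat_lit 0) .nil) .nil))) 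
(.lf (nat_lit 503549) (.g (nat_lit 5501) (.e (nat_lit 163979) (nat_lit 30) (.e (nat_lit 573493) (nat_lit 15) (.e (nat_lit 81953) (nat_lit 22) (.e (nat_lit 90185) (nat_lit 17) (.e (nat_lit 237581) (nat_lit 1) .nil))))) (.g (nat_lit 0) (.e (nat_lit 175767) (nat_lit 0) .nil) .nil)))) (.nd (nat_lit 9) 
(.lf (nat_lit 503293) (.g (nat_lit 1373) (.e (nat_lit 163979) (nat_lit 30) (.e (nat_lit 573491) (nat_lit 15) (.e (nat_lit 81954) (nat_lit 23) (.e (nat_lit 98362) (nat_lit 26) .nil)))) (.g (nat_lit 0) (.e (nat_lit 174862) (nat_lit 0) .nil) .nil))) 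
(.lf (nat_lit 503805) (.g (nat_lit 4324) (.e (nat_lit 163999) (nat_lit 38) (.e (nat_lit 639020) (nat_lit 16) (.e (nat_lit 65571) (nat_lit 3) (.e (nat_lit 98359) (nat_lit 26) (.e (nat_lit 426211) (nat_lit 9) (.e (nat_lit 426125) (nat_lit 2) (.e (nat_lit 204544) (nat_lit 3) .nil))))))) (.g (nat_lit 1) (.e (nat_lit 176403) (nat_lit 0) .nil) .nil))))))))))) 
(.nd (nat_lit 2) (.nd (nat_lit 3) (.nd (nat_lit 4) (.nd (nat_lit 5) (.nd (nat_lit 6) 
(.nd (nat_lit 7) (.nd (nat_lit 8) (.nd (nat_lit 9) 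
(.lf (nat_lit 502787) (.g (nat_lit 3950) (.e (nat_lit 163979) (nat_lit 30) (.e (nat_lit 573488) (nat_lit 14) (.e (nat_lit 73754) (nat_lit 8) (.e (nat_lit 557105) (nat_lit 14) (.e (nat_lit 180252) (nat_lit 10) (.e (nat_lit 573473) (nat_lit 12) (.e (nat_lit 57504) (nat_lit 38) (.e (nat_lit 638995) (nat_lit 7) .nil)))))))) (.g (nat_lit 1) (.e (nat_lit 173912) (nat_lit 0) .nil) .nil))) 
(.lf (nat_lit 503299) (.g (nat_lit 2193) (.e (nat_lit 163979) (nat_lit 30) (.e (nat_lit 573491) (nat_lit 15) (.e (nat_lit 81954) (nat_lit 23) (.e (nat_lit 98366) (nat_lit 27) (.e (nat_lit 434271) (nat_lit 38) (.e (nat_lit 655374) (nat_lit 3) .nil)))))) (.g (nat_lit 1) (.e (nat_lit 174881) (nat_lit 0) .nil) .nil)))) (.nd (nat_lit 9) 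
(.lf (nat_lit 503043) (.g (nat_lit 4205) (.e (nat_lit 163979) (nat_lit 30) (.e (nat_lit 573489) (nat_lit 14) (.e (nat_lit 73755) (nat_lit 8) (.e (nat_lit 557103) (nat_lit 14) (.e (nat_lit 180250) (nat_lit 10) (.e (nat_lit 573475) (nat_lit 12) (.e (nat_lit 57503) (nat_lit 38) (.e (nat_lit 638994) (nat_lit 7) .nil)))))))) (.g (nat_lit 1) (.e (nat_lit 174340) (nat_lit 0) .nil) .nil))) 
(.lf (nat_lit 503555) (.g (nat_lit 2148) (.e (nat_lit 163979) (nat_lit 30) (.e (nat_lit 573493) (nat_lit 15) (.e (nat_lit 81954) (nat_lit 23) (.e (nat_lit 98354) (nat_lit 26) .nil)))) (.g (nat_lit 0) (.e (nat_lit 175784) (nat_lit 0) .nil) .nil))))) (.nd (nat_lit 8) (.nd (nat_lit 9) 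
(.lf (nat_lit 502915) (.g (nat_lit 3070) (.e (nat_lit 163979) (nat_lit 30) (.e (nat_lit 573489) (nat_lit 14) (.e (nat_lit 73754) (nat_lit 8) (.e (nat_lit 557105) (nat_lit 14) (.e (nat_lit 180252) (nat_lit 10) (.e (nat_lit 573475) (nat_lit 12) (.e (nat_lit 57502) (nat_lit 38) (.e (nat_lit 638994) (nat_lit 7) .nil)))))))) (.g (nat_lit 1) (.e (nat_lit 174068) (nat_lit 0) .nil) .nil))) 
(.lf (nat_lit 503427) (.g (nat_lit 3214) (.e (nat_lit 163979) (nat_lit 30) (.e (nat_lit 573492) (nat_lit 15) (.e (nat_lit 81956) (nat_lit 23) (.e (nat_lit 98360) (nat_lit 26) (.e (nat_lit 426109) (nat_lit 1) .nil))))) (.g (nat_lit 0) (.e (nat_lit 175240) (nat_lit 0) .nil) .nil)))) (.nd (nat_lit 9) 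
(.lf (nat_lit 503171) (.g (nat_lit 4787) (.e (nat_lit 163979) (nat_lit 30) (.e (nat_lit 573489) (nat_lit 14) (.e (nat_lit 73755) (nat_lit 8) (.e (nat_lit 557105) (nat_lit 14) (.e (nat_lit 180252) (nat_lit 10) (.e (nat_lit 573475) (nat_lit 12) (.e (nat_lit 57501) (nat_lit 37) (.e (nat_lit 630800) (nat_lit 7) .nil)))))))) (.g (nat_lit 1) (.e (nat_lit 174596) (nat_lit 0) .nil) .nil))) 
(.lf (nat_lit 503683) (.g (nat_lit 1821) (.e (nat_lit 163979) (nat_lit 30) (.e (nat_lit 573493) (nat_lit 15) (.e (nat_lit 81956) (nat_lit 23) (.e (nat_lit 98357) (nat_lit 26) .nil)))) (.g (nat_lit 0) (.e (nat_lit 176026) (nat_lit 0) .nil) .nil)))))) (.nd (nat_lit 7) (.nd (nat_lit 8) (.nd (nat_lit 9) 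
(.lf (nat_lit 502851) (.g (nat_lit 2947) (.e (nat_lit 163979) (nat_lit 30) (.e (nat_lit 573489) (nat_lit 14) (.e (nat_lit 73753) (nat_lit 8) (.e (nat_lit 557105) (nat_lit 14) (.e (nat_lit 180252) (nat_lit 10) (.e (nat_lit 573473) (nat_lit 12) (.e (nat_lit 57504) (nat_lit 38) (.e (nat_lit 638995) (nat_lit 7) .nil)))))))) (.g (nat_lit 1) (.e (nat_lit 173982) (nat_lit 0) .nil) .nil))) 
(.lf (nat_lit 503363) (.g (nat_lit 5364) (.e (nat_lit 163979) (nat_lit 30) (.e (nat_lit 573492) (nat_lit 15) (.e (nat_lit 81953) (nat_lit 22) (.e (nat_lit 90167) (nat_lit 13) .nil)))) (.g (nat_lit 0) (.e (nat_lit 175042) (nat_lit 0) .nil) .nil)))) (.nd (nat_lit 9) 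
(.lf (nat_lit 503107) (.g (nat_lit 2965) (.e (nat_lit 163979) (nat_lit 30) (.e (nat_lit 573489) (nat_lit 14) (.e (nat_lit 73755) (nat_lit 8) (.e (nat_lit 557104) (nat_lit 14) (.e (nat_lit 180251) (nat_lit 10) (.e (nat_lit 573478) (nat_lit 12) (.e (nat_lit 57500) (nat_lit 37) (.e (nat_lit 630799) (nat_lit 7) .nil)))))))) (.g (nat_lit 1) (.e (nat_lit 174521) (nat_lit 0) .nil) .nil))) 
(.lf (nat_lit 503619) (.g (nat_lit 4940) (.e (nat_lit 163979) (nat_lit 30) (.e (nat_lit 573493) (nat_lit 15) (.e (nat_lit 81954) (nat_lit 23) (.e (nat_lit 98384) (nat_lit 32) (.e (nat_lit 475199) (nat_lit 40) (.e (nat_lit 704589) (nat_lit 3) .nil)))))) (.g (nat_lit 1) (.e (nat_lit 175893) (nat_lit 0) .nil) .nil))))) (.nd (nat_lit 8) (.nd (nat_lit 9) 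
(.lf (nat_lit 502979) (.g (nat_lit 3278) (.e (nat_lit 163979) (nat_lit 30) (.e (nat_lit 573489) (nat_lit 14) (.e (nat_lit 73755) (nat_lit 8) (.e (nat_lit 557098) (nat_lit 13) (.e (nat_lit 172065) (nat_lit 3) (.e (nat_lit 204821) (nat_lit 17) (.e (nat_lit 7936) (nat_lit 149) (.e (nat_lit 761898) (nat_lit 15) .nil)))))))) (.g (nat_lit 1) (.e (nat_lit 174208) (nat_lit 0) .nil) .nil))) 
(.lf (nat_lit 503491) (.g (nat_lit 1748) (.e (nat_lit 163979) (nat_lit 30) (.e (nat_lit 573493) (nat_lit 15) (.e (nat_lit 81951) (nat_lit 22) (.e (nat_lit 90172) (nat_lit 14) .nil)))) (.g (nat_lit 0) (.e (nat_lit 175566) (nat_lit 0) .nil) .nil)))) (.nd (nat_lit 9) 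
(.lf (nat_lit 503235) (.g (nat_lit 2568) (.e (nat_lit 163979) (nat_lit 30) (.e (nat_lit 573491) (nat_lit 15) (.e (nat_lit 81954) (nat_lit 23) (.e (nat_lit 98356) (nat_lit 26) (.e (nat_lit 426360) (nat_lit 15) (.e (nat_lit 2097) (nat_lit 142) (.e (nat_lit 704589) (nat_lit 3) .nil))))))) (.g (nat_lit 1) (.e (nat_lit 174776) (nat_lit 0) .nil) .nil))) 
(.lf (nat_lit 503747) (.g (nat_lit 5091) (.e (nat_lit 163979) (nat_lit 30) (.e (nat_lit 573493) (nat_lit 15) (.e (nat_lit 81956) (nat_lit 23) (.e (nat_lit 98366) (nat_lit 27) (.e (nat_lit 434209) (nat_lit 18) (.e (nat_lit 5547) (nat_lit 306) (.e (nat_lit 2610) (nat_lit 163) .nil))))))) (.g (nat_lit 1) (.e (nat_lit 176175) (nat_lit 0) .nil) .nil))))))) 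
(.nd (nat_lit 6) (.nd (nat_lit 7) (.nd (nat_lit 8) (.nd (nat_lit 9) 
(.lf (nat_lit 502819) (.g (nat_lit 4962) (.e (nat_lit 163979) (nat_lit 30) (.e (nat_lit 573488) (nat_lit 14) (.e (nat_lit 73755) (nat_lit 8) (.e (nat_lit 557104) (nat_lit 14) (.e (nat_lit 180252) (nat_lit 10) (.e (nat_lit 573473) (nat_lit 12) (.e (nat_lit 57503) (nat_lit 38) (.e (nat_lit 638995) (nat_lit 7) .nil)))))))) (.g (nat_lit 1) (.e (nat_lit 173946) (nat_lit 0) .nil) .nil))) 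
(.lf (nat_lit 503331) (.g (nat_lit 1985) (.e (nat_lit 163979) (nat_lit 30) (.e (nat_lit 573491) (nat_lit 15) (.e (nat_lit 81955) (nat_lit 23) (.e (nat_lit 98383) (nat_lit 32) (.e (nat_lit 475199) (nat_lit 40) (.e (nat_lit 704589) (nat_lit 3) .nil)))))) (.g (nat_lit 1) (.e (nat_lit 174937) (nat_lit 0) .nil) .nil)))) (.nd (nat_lit 9) 
(.lf (nat_lit 503075) (.g (nat_lit 3250) (.e (nat_lit 163979) (nat_lit 30) (.e (nat_lit 573489) (nat_lit 14) (.e (nat_lit 73755) (nat_lit 8) (.e (nat_lit 557104) (nat_lit 14) (.e (nat_lit 180244) (nat_lit 5) (.e (nat_lit 532484) (nat_lit 0) (.e (nat_lit 7936) (nat_lit 149) (.e (nat_lit 761893) (nat_lit 15) .nil)))))))) (.g (nat_lit 1) (.e (nat_lit 174399) (nat_lit 0) .nil) .nil))) 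
(.lf (nat_lit 503587) (.g (nat_lit 4571) (.e (nat_lit 163979) (nat_lit 30) (.e (nat_lit 573493) (nat_lit 15) (.e (nat_lit 81954) (nat_lit 23) (.e (nat_lit 98359) (nat_lit 26) (.e (nat_lit 426025) (nat_lit 0) (.e (nat_lit 3397) (nat_lit 211) (.e (nat_lit 647181) (nat_lit 3) .nil))))))) (.g (nat_lit 1) (.e (nat_lit 175823) (nat_lit 0) .nil) .nil))))) (.nd (nat_lit 8) (.nd (nat_lit 9) 
(.lf (nat_lit 502947) (.g (nat_lit 3502) (.e (nat_lit 163979) (nat_lit 30) (.e (nat_lit 573489) (nat_lit 14) (.e (nat_lit 73755) (nat_lit 8) (.e (nat_lit 557097) (nat_lit 13) (.e (nat_lit 172066) (nat_lit 3) (.e (nat_lit 204817) (nat_lit 17) (.e (nat_lit 7936) (nat_lit 149) (.e (nat_lit 761897) (nat_lit 15) .nil)))))))) (.g (nat_lit 1) (.e (nat_lit 174135) (nat_lit 0) .nil) .nil))) 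
(.lf (nat_lit 503459) (.g (nat_lit 3119) (.e (nat_lit 163979) (nat_lit 30) (.e (nat_lit 573492) (nat_lit 15) (.e (nat_lit 81956) (nat_lit 23) (.e (nat_lit 98385) (nat_lit 32) (.e (nat_lit 475201) (nat_lit 40) (.e (nat_lit 712448) (nat_lit 3) .nil)))))) (.g (nat_lit 1) (.e (nat_lit 175351) (nat_lit 0) .nil) .nil)))) (.nd (nat_lit 9) 
(.lf (nat_lit 503203) (.g (nat_lit 3196) (.e (nat_lit 163979) (nat_lit 30) (.e (nat_lit 573491) (nat_lit 15) (.e (nat_lit 81951) (nat_lit 22) (.e (nat_lit 90170) (nat_lit 13) (.e (nat_lit 172051) (nat_lit 0) .nil))))) (.g (nat_lit 0) (.e (nat_lit 174685) (nat_lit 0) .nil) .nil))) 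
(.lf (nat_lit 503715) (.g (nat_lit 2325) (.e (nat_lit 163979) (nat_lit 30) (.e (nat_lit 573493) (nat_lit 15) (.e (nat_lit 81956) (nat_lit 23) (.e (nat_lit 98360) (nat_lit 26) .nil)))) (.g (nat_lit 0) (.e (nat_lit 176109) (nat_lit 0) .nil) .nil)))))) (.nd (nat_lit 7) (.nd (nat_lit 8) (.nd (nat_lit 9) 
(.lf (nat_lit 502883) (.g (nat_lit 2823) (.e (nat_lit 163979) (nat_lit 30) (.e (nat_lit 573489) (nat_lit 14) (.e (nat_lit 73754) (nat_lit 8) (.e (nat_lit 557103) (nat_lit 14) (.e (nat_lit 180243) (nat_lit 5) .nil))))) (.g (nat_lit 0) (.e (nat_lit 174034) (nat_lit 0) .nil) .nil))) 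
(.lf (nat_lit 503395) (.g (nat_lit 3234) (.e (nat_lit 163979) (nat_lit 30) (.e (nat_lit 573492) (nat_lit 15) (.e (nat_lit 81956) (nat_lit 23) (.e (nat_lit 98356) (nat_lit 26) (.e (nat_lit 425985) (nat_lit 0) .nil))))) (.g (nat_lit 0) (.e (nat_lit 175162) (nat_lit 0) .nil) .nil)))) (.nd (nat_lit 9) 
(.lf (nat_lit 503139) (.g (nat_lit 3958) (.e (nat_lit 163979) (nat_lit 30) (.e (nat_lit 573489) (nat_lit 14) (.e (nat_lit 73755) (nat_lit 8) (.e (nat_lit 557105) (nat_lit 14) (.e (nat_lit 180251) (nat_lit 10) (.e (nat_lit 573475) (nat_lit 12) (.e (nat_lit 57503) (nat_lit 38) (.e (nat_lit 638994) (nat_lit 7) .nil)))))))) (.g (nat_lit 1) (.e (nat_lit 174555) (nat_lit 0) .nil) .nil))) 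
(.lf (nat_lit 503651) (.g (nat_lit 3902) (.e (nat_lit 163979) (nat_lit 30) (.e (nat_lit 573493) (nat_lit 15) (.e (nat_lit 81956) (nat_lit 23) (.e (nat_lit 98356) (nat_lit 26) (.e (nat_lit 426360) (nat_lit 15) (.e (nat_lit 2060) (nat_lit 142) (.e (nat_lit 704589) (nat_lit 3) .nil))))))) (.g (nat_lit 1) (.e (nat_lit 175982) (nat_lit 0) .nil) .nil))))) (.nd (nat_lit 8) (.nd (nat_lit 9) 
(.lf (nat_lit 503011) (.g (nat_lit 3823) (.e (nat_lit 163979) (nat_lit 30) (.e (nat_lit 573489) (nat_lit 14) (.e (nat_lit 73755) (nat_lit 8) (.e (nat_lit 557103) (nat_lit 14) (.e (nat_lit 180243) (nat_lit 5) (.e (nat_lit 532484) (nat_lit 0) (.e (nat_lit 7936) (nat_lit 149) (.e (nat_lit 761898) (nat_lit 15) .nil)))))))) (.g (nat_lit 1) (.e (nat_lit 174267) (nat_lit 0) .nil) .nil))) 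
(.lf (nat_lit 503523) (.g (nat_lit 4423) (.e (nat_lit 163979) (nat_lit 30) (.e (nat_lit 573493) (nat_lit 15) (.e (nat_lit 81953) (nat_lit 22) (.e (nat_lit 90170) (nat_lit 13) (.e (nat_lit 172049) (nat_lit 0) (.e (nat_lit 3409) (nat_lit 212) (.e (nat_lit 655375) (nat_lit 3) .nil))))))) (.g (nat_lit 1) (.e (nat_lit 175687) (nat_lit 0) .nil) .nil)))) (.nd (nat_lit 9) 
(.lf (nat_lit 503267) (.g (nat_lit 2312) (.e (nat_lit 163979) (nat_lit 30) (.e (nat_lit 573491) (nat_lit 15) (.e (nat_lit 81954) (nat_lit 23) (.e (nat_lit 98358) (nat_lit 26) (.e (nat_lit 426402) (nat_lit 15) .nil))))) (.g (nat_lit 0) (.e (nat_lit 174813) (nat_lit 0) .nil) .nil))) 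
(.lf (nat_lit 503779) (.g (nat_lit 2947) (.e (nat_lit 163979) (nat_lit 30) (.e (nat_lit 573493) (nat_lit 15) (.e (nat_lit 81956) (nat_lit 23) (.e (nat_lit 98368) (nat_lit 27) (.e (nat_lit 434271) (nat_lit 38) (.e (nat_lit 655373) (nat_lit 3) .nil)))))) (.g (nat_lit 1) (.e (nat_lit 176310) (nat_lit 0) .nil) .nil)))))))) 
(.nd (nat_lit 5) (.nd (nat_lit 6) (.nd (nat_lit 7) (.nd (nat_lit 8) (.nd (nat_lit 9) 
(.lf (nat_lit 502803) (.g (nat_lit 4237) (.e (nat_lit 163979) (nat_lit 30) (.e (nat_lit 573488) (nat_lit 14) (.e (nat_lit 73755) (nat_lit 8) (.e (nat_lit 557103) (nat_lit 14) (.e (nat_lit 180250) (nat_lit 10) (.e (nat_lit 573477) (nat_lit 12) (.e (nat_lit 57502) (nat_lit 38) (.e (nat_lit 638995) (nat_lit 7) .nil)))))))) (.g (nat_lit 1) (.e (nat_lit 173930) (nat_lit 0) .nil) .nil))) 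
(.lf (nat_lit 503315) (.g (nat_lit 3034) (.e (nat_lit 163979) (nat_lit 30) (.e (nat_lit 573491) (nat_lit 15) (.e (nat_lit 81954) (nat_lit 23) (.e (nat_lit 98384) (nat_lit 32) (.e (nat_lit 475201) (nat_lit 40) (.e (nat_lit 712448) (nat_lit 3) .nil)))))) (.g (nat_lit 1) (.e (nat_lit 174921) (nat_lit 0) .nil) .nil)))) (.nd (nat_lit 9) 
(.lf (nat_lit 503059) (.g (nat_lit 2728) (.e (nat_lit 163979) (nat_lit 30) (.e (nat_lit 573489) (nat_lit 14) (.e (nat_lit 73755) (nat_lit 8) (.e (nat_lit 557103) (nat_lit 14) (.e (nat_lit 180252) (nat_lit 10) (.e (nat_lit 573475) (nat_lit 12) (.e (nat_lit 57504) (nat_lit 38) (.e (nat_lit 638995) (nat_lit 7) .nil)))))))) (.g (nat_lit 1) (.e (nat_lit 174356) (nat_lit 0) .nil) .nil))) 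
(.lf (nat_lit 503571) (.g (nat_lit 3907) (.e (nat_lit 163979) (nat_lit 30) (.e (nat_lit 573493) (nat_lit 15) (.e (nat_lit 81954) (nat_lit 23) (.e (nat_lit 98356) (nat_lit 26) (.e (nat_lit 426393) (nat_lit 15) (.e (nat_lit 2058) (nat_lit 142) (.e (nat_lit 704589) (nat_lit 3) .nil))))))) (.g (nat_lit 1) (.e (nat_lit 175804) (nat_lit 0) .nil) .nil))))) (.nd (nat_lit 8) (.nd (nat_lit 9) 
(.lf (nat_lit 502931) (.g (nat_lit 1646) (.e (nat_lit 163979) (nat_lit 30) (.e (nat_lit 573489) (nat_lit 14) (.e (nat_lit 73755) (nat_lit 8) (.e (nat_lit 557097) (nat_lit 13) (.e (nat_lit 172065) (nat_lit 3) .nil))))) (.g (nat_lit 0) (.e (nat_lit 174114) (nat_lit 0) .nil) .nil))) 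
(.lf (nat_lit 503443) (.g (nat_lit 4986) (.e (nat_lit 163979) (nat_lit 30) (.e (nat_lit 573492) (nat_lit 15) (.e (nat_lit 81956) (nat_lit 23) (.e (nat_lit 98365) (nat_lit 26) (.e (nat_lit 426100) (nat_lit 1) .nil))))) (.g (nat_lit 0) (.e (nat_lit 175257) (nat_lit 0) .nil) .nil)))) (.nd (nat_lit 9) 
(.lf (nat_lit 503187) (.g (nat_lit 5821) (.e (nat_lit 163979) (nat_lit 30) (.e (nat_lit 573491) (nat_lit 15) (.e (nat_lit 81951) (nat_lit 22) (.e (nat_lit 90169) (nat_lit 13) (.e (nat_lit 172133) (nat_lit 15) (.e (nat_lit 2059) (nat_lit 142) (.e (nat_lit 704589) (nat_lit 3) .nil))))))) (.g (nat_lit 1) (.e (nat_lit 174641) (nat_lit 0) .nil) .nil))) 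
(.lf (nat_lit 503699) (.g (nat_lit 3562) (.e (nat_lit 163979) (nat_lit 30) (.e (nat_lit 573493) (nat_lit 15) (.e (nat_lit 81956) (nat_lit 23) (.e (nat_lit 98359) (nat_lit 26) (.e (nat_lit 426023) (nat_lit 0) (.e (nat_lit 3402) (nat_lit 211) (.e (nat_lit 647180) (nat_lit 3) .nil))))))) (.g (nat_lit 1) (.e (nat_lit 176048) (nat_lit 0) .nil) .nil)))))) 
(.nd (nat_lit 7) (.nd (nat_lit 8) (.nd (nat_lit 9) 
(.lf (nat_lit 502867) (.g (nat_lit 3002) (.e (nat_lit 163979) (nat_lit 30) (.e (nat_lit 573489) (nat_lit 14) (.e (nat_lit 73754) (nat_lit 8) (.e (nat_lit 557100) (nat_lit 13) (.e (nat_lit 172067) (nat_lit 3) (.e (nat_lit 204817) (nat_lit 17) (.e (nat_lit 2272) (nat_lit 149) (.e (nat_lit 761897) (nat_lit 15) .nil)))))))) (.g (nat_lit 1) (.e (nat_lit 174003) (nat_lit 0) .nil) .nil))) 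
(.lf (nat_lit 503379) (.g (nat_lit 3440) (.e (nat_lit 163979) (nat_lit 30) (.e (nat_lit 573492) (nat_lit 15) (.e (nat_lit 81954) (nat_lit 23) (.e (nat_lit 98359) (nat_lit 26) (.e (nat_lit 426043) (nat_lit 0) (.e (nat_lit 3409) (nat_lit 212) (.e (nat_lit 655375) (nat_lit 3) .nil))))))) (.g (nat_lit 1) (.e (nat_lit 175061) (nat_lit 0) .nil) .nil)))) (.nd (nat_lit 9) 
(.lf (nat_lit 503123) (.g (nat_lit 4349) (.e (nat_lit 163979) (nat_lit 30) (.e (nat_lit 573489) (nat_lit 14) (.e (nat_lit 73755) (nat_lit 8) (.e (nat_lit 557104) (nat_lit 14) (.e (nat_lit 180252) (nat_lit 10) (.e (nat_lit 573475) (nat_lit 12) (.e (nat_lit 57500) (nat_lit 37) (.e (nat_lit 630800) (nat_lit 7) .nil)))))))) (.g (nat_lit 1) (.e (nat_lit 174538) (nat_lit 0) .nil) .nil))) 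
(.lf (nat_lit 503635) (.g (nat_lit 3313) (.e (nat_lit 163979) (nat_lit 30) (.e (nat_lit 573493) (nat_lit 15) (.e (nat_lit 81956) (nat_lit 23) (.e (nat_lit 98355) (nat_lit 26) (.e (nat_lit 426442) (nat_lit 19) (.e (nat_lit 114432) (nat_lit 3) .nil)))))) (.g (nat_lit 1) (.e (nat_lit 175952) (nat_lit 0) .nil) .nil))))) (.nd (nat_lit 8) (.nd (nat_lit 9) 
(.lf (nat_lit 502995) (.g (nat_lit 4447) (.e (nat_lit 163979) (nat_lit 30) (.e (nat_lit 573489) (nat_lit 14) (.e (nat_lit 73755) (nat_lit 8) (.e (nat_lit 557098) (nat_lit 13) (.e (nat_lit 172067) (nat_lit 3) (.e (nat_lit 204817) (nat_lit 17) (.e (nat_lit 2272) (nat_lit 149) (.e (nat_lit 761899) (nat_lit 15) .nil)))))))) (.g (nat_lit 1) (.e (nat_lit 174231) (nat_lit 0) .nil) .nil))) 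
(.lf (nat_lit 503507) (.g (nat_lit 3253) (.e (nat_lit 163979) (nat_lit 30) (.e (nat_lit 573493) (nat_lit 15) (.e (nat_lit 81953) (nat_lit 22) (.e (nat_lit 90170) (nat_lit 13) (.e (nat_lit 172038) (nat_lit 0) (.e (nat_lit 3397) (nat_lit 211) (.e (nat_lit 647181) (nat_lit 3) .nil))))))) (.g (nat_lit 1) (.e (nat_lit 175653) (nat_lit 0) .nil) .nil)))) (.nd (nat_lit 9) 
(.lf (nat_lit 503251) (.g (nat_lit 2501) (.e (nat_lit 163979) (nat_lit 30) (.e (nat_lit 573491) (nat_lit 15) (.e (nat_lit 81954) (nat_lit 23) (.e (nat_lit 98356) (nat_lit 26) (.e (nat_lit 426399) (nat_lit 15) .nil))))) (.g (nat_lit 0) (.e (nat_lit 174792) (nat_lit 0) .nil) .nil))) 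
(.lf (nat_lit 503763) (.g (nat_lit 2760) (.e (nat_lit 163979) (nat_lit 30) (.e (nat_lit 573493) (nat_lit 15) (.e (nat_lit 81956) (nat_lit 23) (.e (nat_lit 98367) (nat_lit 27) (.e (nat_lit 434213) (nat_lit 18) .nil))))) (.g (nat_lit 0) (.e (nat_lit 176232) (nat_lit 0) .nil) .nil))))))) (.nd (nat_lit 6) (.nd (nat_lit 7) (.nd (nat_lit 8) (.nd (nat_lit 9) 
(.lf (nat_lit 502835) (.g (nat_lit 2416) (.e (nat_lit 163979) (nat_lit 30) (.e (nat_lit 573488) (nat_lit 14) (.e (nat_lit 73755) (nat_lit 8) (.e (nat_lit 557105) (nat_lit 14) (.e (nat_lit 180252) (nat_lit 10) (.e (nat_lit 573474) (nat_lit 12) (.e (nat_lit 57500) (nat_lit 37) (.e (nat_lit 630800) (nat_lit 7) .nil)))))))) (.g (nat_lit 1) (.e (nat_lit 173962) (nat_lit 0) .nil) .nil))) 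
(.lf (nat_lit 503347) (.g (nat_lit 2737) (.e (nat_lit 163979) (nat_lit 30) (.e (nat_lit 573491) (nat_lit 15) (.e (nat_lit 81956) (nat_lit 23) (.e (nat_lit 98367) (nat_lit 27) (.e (nat_lit 434271) (nat_lit 38) (.e (nat_lit 655375) (nat_lit 3) .nil)))))) (.g (nat_lit 1) (.e (nat_lit 174953) (nat_lit 0) .nil) .nil)))) (.nd (nat_lit 9) 
(.lf (nat_lit 503091) (.g (nat_lit 2504) (.e (nat_lit 163979) (nat_lit 30) (.e (nat_lit 573489) (nat_lit 14) (.e (nat_lit 73755) (nat_lit 8) (.e (nat_lit 557104) (nat_lit 14) (.e (nat_lit 180250) (nat_lit 10) (.e (nat_lit 573473) (nat_lit 12) (.e (nat_lit 57503) (nat_lit 38) (.e (nat_lit 638994) (nat_lit 7) .nil)))))))) (.g (nat_lit 1) (.e (nat_lit 174505) (nat_lit 0) .nil) .nil))) 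
(.lf (nat_lit 503603) (.g (nat_lit 4240) (.e (nat_lit 163979) (nat_lit 30) (.e (nat_lit 573493) (nat_lit 15) (.e (nat_lit 81954) (nat_lit 23) (.e (nat_lit 98366) (nat_lit 27) (.e (nat_lit 434272) (nat_lit 38) (.e (nat_lit 655375) (nat_lit 3) .nil)))))) (.g (nat_lit 1) (.e (nat_lit 175868) (nat_lit 0) .nil) .nil))))) (.nd (nat_lit 8) (.nd (nat_lit 9) 
(.lf (nat_lit 502963) (.g (nat_lit 3751) (.e (nat_lit 163979) (nat_lit 30) (.e (nat_lit 573489) (nat_lit 14) (.e (nat_lit 73755) (nat_lit 8) (.e (nat_lit 557097) (nat_lit 13) (.e (nat_lit 172067) (nat_lit 3) (.e (nat_lit 204817) (nat_lit 17) (.e (nat_lit 7936) (nat_lit 149) (.e (nat_lit 761894) (nat_lit 15) .nil)))))))) (.g (nat_lit 1) (.e (nat_lit 174166) (nat_lit 0) .nil) .nil))) 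
(.lf (nat_lit 503475) (.g (nat_lit 3516) (.e (nat_lit 163979) (nat_lit 30) (.e (nat_lit 573493) (nat_lit 15) (.e (nat_lit 81951) (nat_lit 22) (.e (nat_lit 90170) (nat_lit 13) (.e (nat_lit 172049) (nat_lit 0) (.e (nat_lit 3406) (nat_lit 212) (.e (nat_lit 655373) (nat_lit 3) .nil))))))) (.g (nat_lit 1) (.e (nat_lit 175528) (nat_lit 0) .nil) .nil)))) (.nd (nat_lit 9) 
(.lf (nat_lit 503219) (.g (nat_lit 2646) (.e (nat_lit 163979) (nat_lit 30) (.e (nat_lit 573491) (nat_lit 15) (.e (nat_lit 81951) (nat_lit 22) (.e (nat_lit 90185) (nat_lit 17) (.e (nat_lit 237582) (nat_lit 1) .nil))))) (.g (nat_lit 0) (.e (nat_lit 174743) (nat_lit 0) .nil) .nil))) 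
(.lf (nat_lit 503731) (.g (nat_lit 3385) (.e (nat_lit 163979) (nat_lit 30) (.e (nat_lit 573493) (nat_lit 15) (.e (nat_lit 81956) (nat_lit 23) (.e (nat_lit 98363) (nat_lit 26) (.e (nat_lit 426441) (nat_lit 19) (.e (nat_lit 114432) (nat_lit 3) .nil)))))) (.g (nat_lit 1) (.e (nat_lit 176137) (nat_lit 0) .nil) .nil)))))) (.nd (nat_lit 7) (.nd (nat_lit 8) (.nd (nat_lit 9) 
(.lf (nat_lit 502899) (.g (nat_lit 3037) (.e (nat_lit 163979) (nat_lit 30) (.e (nat_lit 573489) (nat_lit 14) (.e (nat_lit 73754) (nat_lit 8) (.e (nat_lit 557105) (nat_lit 14) (.e (nat_lit 180251) (nat_lit 10) (.e (nat_lit 573478) (nat_lit 12) (.e (nat_lit 57502) (nat_lit 38) (.e (nat_lit 638995) (nat_lit 7) .nil)))))))) (.g (nat_lit 1) (.e (nat_lit 174052) (nat_lit 0) .nil) .nil))) 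
(.lf (nat_lit 503411) (.g (nat_lit 3938) (.e (nat_lit 163979) (nat_lit 30) (.e (nat_lit 573492) (nat_lit 15) (.e (nat_lit 81956) (nat_lit 23) (.e (nat_lit 98356) (nat_lit 26) (.e (nat_lit 426393) (nat_lit 15) (.e (nat_lit 2056) (nat_lit 142) (.e (nat_lit 704589) (nat_lit 3) .nil))))))) (.g (nat_lit 1) (.e (nat_lit 175214) (nat_lit 0) .nil) .nil)))) (.nd (nat_lit 9) 
(.lf (nat_lit 503155) (.g (nat_lit 5059) (.e (nat_lit 163979) (nat_lit 30) (.e (nat_lit 573489) (nat_lit 14) (.e (nat_lit 73755) (nat_lit 8) (.e (nat_lit 557105) (nat_lit 14) (.e (nat_lit 180252) (nat_lit 10) (.e (nat_lit 573473) (nat_lit 12) (.e (nat_lit 57503) (nat_lit 38) (.e (nat_lit 638996) (nat_lit 7) .nil)))))))) (.g (nat_lit 1) (.e (nat_lit 174580) (nat_lit 0) .nil) .nil))) 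
(.lf (nat_lit 503667) (.g (nat_lit 3319) (.e (nat_lit 163979) (nat_lit 30) (.e (nat_lit 573493) (nat_lit 15) (.e (nat_lit 81956) (nat_lit 23) (.e (nat_lit 98356) (nat_lit 26) (.e (nat_lit 426397) (nat_lit 15) .nil))))) (.g (nat_lit 0) (.e (nat_lit 176003) (nat_lit 0) .nil) .nil))))) (.nd (nat_lit 8) (.nd (nat_lit 9) 
(.lf (nat_lit 503027) (.g (nat_lit 4643) (.e (nat_lit 163979) (nat_lit 30) (.e (nat_lit 573489) (nat_lit 14) (.e (nat_lit 73755) (nat_lit 8) (.e (nat_lit 557103) (nat_lit 14) (.e (nat_lit 180250) (nat_lit 10) (.e (nat_lit 573473) (nat_lit 12) (.e (nat_lit 57504) (nat_lit 38) (.e (nat_lit 638996) (nat_lit 7) .nil)))))))) (.g (nat_lit 1) (.e (nat_lit 174324) (nat_lit 0) .nil) .nil))) 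
(.lf (nat_lit 503539) (.g (nat_lit 4906) (.e (nat_lit 163979) (nat_lit 30) (.e (nat_lit 573493) (nat_lit 15) (.e (nat_lit 81953) (nat_lit 22) (.e (nat_lit 90170) (nat_lit 13) (.e (nat_lit 172138) (nat_lit 15) (.e (nat_lit 2058) (nat_lit 142) (.e (nat_lit 704589) (nat_lit 3) .nil))))))) (.g (nat_lit 1) (.e (nat_lit 175730) (nat_lit 0) .nil) .nil)))) (.nd (nat_lit 9) 
(.lf (nat_lit 503283) (.g (nat_lit 1535) (.e (nat_lit 163979) (nat_lit 30) (.e (nat_lit 573491) (nat_lit 15) (.e (nat_lit 81954) (nat_lit 23) (.e (nat_lit 98359) (nat_lit 26) (.e (nat_lit 426043) (nat_lit 0) .nil))))) (.g (nat_lit 0) (.e (nat_lit 174836) (nat_lit 0) .nil) .nil))) 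
(.lf (nat_lit 503795) (.g (nat_lit 4929) (.e (nat_lit 163979) (nat_lit 30) (.e (nat_lit 573493) (nat_lit 15) (.e (nat_lit 81956) (nat_lit 23) (.e (nat_lit 98386) (nat_lit 32) (.e (nat_lit 475197) (nat_lit 40) (.e (nat_lit 704589) (nat_lit 3) .nil)))))) (.g (nat_lit 1) (.e (nat_lit 176346) (nat_lit 0) .nil) .nil))))))))) 
(.nd (nat_lit 4) (.nd (nat_lit 5) (.nd (nat_lit 6) (.nd (nat_lit 7) (.nd (nat_lit 8) 
(.nd (nat_lit 9) 
(.lf (nat_lit 502795) (.g (nat_lit 2453) (.e (nat_lit 163979) (nat_lit 30) (.e (nat_lit 573488) (nat_lit 14) (.e (nat_lit 73755) (nat_lit 8) (.e (nat_lit 557103) (nat_lit 14) (.e (nat_lit 180244) (nat_lit 5) .nil))))) (.g (nat_lit 0) (.e (nat_lit 173922) (nat_lit 0) .nil) .nil))) 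
(.lf (nat_lit 503307) (.g (nat_lit 3032) (.e (nat_lit 163979) (nat_lit 30) (.e (nat_lit 573491) (nat_lit 15) (.e (nat_lit 81954) (nat_lit 23) (.e (nat_lit 98367) (nat_lit 27) (.e (nat_lit 434271) (nat_lit 38) (.e (nat_lit 655374) (nat_lit 3) .nil)))))) (.g (nat_lit 1) (.e (nat_lit 174907) (nat_lit 0) .nil) .nil)))) (.nd (nat_lit 9) 
(.lf (nat_lit 503051) (.g (nat_lit 4159) (.e (nat_lit 163979) (nat_lit 30) (.e (nat_lit 573489) (nat_lit 14) (.e (nat_lit 73755) (nat_lit 8) (.e (nat_lit 557103) (nat_lit 14) (.e (nat_lit 180250) (nat_lit 10) (.e (nat_lit 573478) (nat_lit 12) (.e (nat_lit 57500) (nat_lit 37) (.e (nat_lit 630799) (nat_lit 7) .nil)))))))) (.g (nat_lit 1) (.e (nat_lit 174348) (nat_lit 0) .nil) .nil))) 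
(.lf (nat_lit 503563) (.g (nat_lit 3753) (.e (nat_lit 163979) (nat_lit 30) (.e (nat_lit 573493) (nat_lit 15) (.e (nat_lit 81954) (nat_lit 23) (.e (nat_lit 98356) (nat_lit 26) (.e (nat_lit 426374) (nat_lit 15) .nil))))) (.g (nat_lit 0) (.e (nat_lit 175796) (nat_lit 0) .nil) .nil))))) (.nd (nat_lit 8) (.nd (nat_lit 9) 
(.lf (nat_lit 502923) (.g (nat_lit 2076) (.e (nat_lit 163979) (nat_lit 30) (.e (nat_lit 573489) (nat_lit 14) (.e (nat_lit 73755) (nat_lit 8) (.e (nat_lit 557096) (nat_lit 13) (.e (nat_lit 172067) (nat_lit 3) .nil))))) (.g (nat_lit 0) (.e (nat_lit 174092) (nat_lit 0) .nil) .nil))) 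
(.lf (nat_lit 503435) (.g (nat_lit 4410) (.e (nat_lit 163979) (nat_lit 30) (.e (nat_lit 573492) (nat_lit 15) (.e (nat_lit 81956) (nat_lit 23) (.e (nat_lit 98363) (nat_lit 26) (.e (nat_lit 426147) (nat_lit 4) .nil))))) (.g (nat_lit 0) (.e (nat_lit 175248) (nat_lit 0) .nil) .nil)))) (.nd (nat_lit 9) 
(.lf (nat_lit 503179) (.g (nat_lit 3704) (.e (nat_lit 163979) (nat_lit 30) (.e (nat_lit 573489) (nat_lit 14) (.e (nat_lit 73755) (nat_lit 8) (.e (nat_lit 557105) (nat_lit 14) (.e (nat_lit 180252) (nat_lit 10) (.e (nat_lit 573478) (nat_lit 12) (.e (nat_lit 57500) (nat_lit 37) (.e (nat_lit 630799) (nat_lit 7) .nil)))))))) (.g (nat_lit 1) (.e (nat_lit 174604) (nat_lit 0) .nil) .nil))) 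
(.lf (nat_lit 503691) (.g (nat_lit 3213) (.e (nat_lit 163979) (nat_lit 30) (.e (nat_lit 573493) (nat_lit 15) (.e (nat_lit 81956) (nat_lit 23) (.e (nat_lit 98359) (nat_lit 26) (.e (nat_lit 426003) (nat_lit 0) (.e (nat_lit 3397) (nat_lit 211) (.e (nat_lit 647180) (nat_lit 3) .nil))))))) (.g (nat_lit 1) (.e (nat_lit 176035) (nat_lit 0) .nil) .nil)))))) 
(.nd (nat_lit 7) (.nd (nat_lit 8) (.nd (nat_lit 9) 
(.lf (nat_lit 502859) (.g (nat_lit 3051) (.e (nat_lit 163979) (nat_lit 30) (.e (nat_lit 573489) (nat_lit 14) (.e (nat_lit 73754) (nat_lit 8) (.e (nat_lit 557100) (nat_lit 13) (.e (nat_lit 172065) (nat_lit 3) (.e (nat_lit 204817) (nat_lit 17) (.e (nat_lit 7936) (nat_lit 149) (.e (nat_lit 761893) (nat_lit 15) .nil)))))))) (.g (nat_lit 1) (.e (nat_lit 173992) (nat_lit 0) .nil) .nil))) 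
(.lf (nat_lit 503371) (.g (nat_lit 5357) (.e (nat_lit 163979) (nat_lit 30) (.e (nat_lit 573492) (nat_lit 15) (.e (nat_lit 81953) (nat_lit 22) (.e (nat_lit 90171) (nat_lit 14) .nil)))) (.g (nat_lit 0) (.e (nat_lit 175050) (nat_lit 0) .nil) .nil)))) (.nd (nat_lit 9) 
(.lf (nat_lit 503115) (.g (nat_lit 4677) (.e (nat_lit 163979) (nat_lit 30) (.e (nat_lit 573489) (nat_lit 14) (.e (nat_lit 73755) (nat_lit 8) (.e (nat_lit 557104) (nat_lit 14) (.e (nat_lit 180252) (nat_lit 10) (.e (nat_lit 573473) (nat_lit 12) (.e (nat_lit 57503) (nat_lit 38) (.e (nat_lit 638996) (nat_lit 7) .nil)))))))) (.g (nat_lit 1) (.e (nat_lit 174530) (nat_lit 0) .nil) .nil))) 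
(.lf (nat_lit 503627) (.g (nat_lit 320) (.e (nat_lit 163979) (nat_lit 30) (.e (nat_lit 573493) (nat_lit 15) (.e (nat_lit 81956) (nat_lit 23) .nil))) (.g (nat_lit 0) (.e (nat_lit 175901) (nat_lit 0) .nil) .nil))))) (.nd (nat_lit 8) (.nd (nat_lit 9) 
(.lf (nat_lit 502987) (.g (nat_lit 3513) (.e (nat_lit 163979) (nat_lit 30) (.e (nat_lit 573489) (nat_lit 14) (.e (nat_lit 73755) (nat_lit 8) (.e (nat_lit 557098) (nat_lit 13) (.e (nat_lit 172066) (nat_lit 3) (.e (nat_lit 204821) (nat_lit 17) (.e (nat_lit 2270) (nat_lit 149) (.e (nat_lit 761899) (nat_lit 15) .nil)))))))) (.g (nat_lit 1) (.e (nat_lit 174219) (nat_lit 0) .nil) .nil))) 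
(.lf (nat_lit 503499) (.g (nat_lit 1217) (.e (nat_lit 163979) (nat_lit 30) (.e (nat_lit 573493) (nat_lit 15) (.e (nat_lit 81953) (nat_lit 22) (.e (nat_lit 90170) (nat_lit 13) .nil)))) (.g (nat_lit 0) (.e (nat_lit 175634) (nat_lit 0) .nil) .nil)))) (.nd (nat_lit 9) 
(.lf (nat_lit 503243) (.g (nat_lit 2589) (.e (nat_lit 163979) (nat_lit 30) (.e (nat_lit 573491) (nat_lit 15) (.e (nat_lit 81954) (nat_lit 23) (.e (nat_lit 98356) (nat_lit 26) (.e (nat_lit 426363) (nat_lit 15) (.e (nat_lit 2062) (nat_lit 142) (.e (nat_lit 704589) (nat_lit 3) .nil))))))) (.g (nat_lit 1) (.e (nat_lit 174784) (nat_lit 0) .nil) .nil))) 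
(.lf (nat_lit 503755) (.g (nat_lit 3532) (.e (nat_lit 163979) (nat_lit 30) (.e (nat_lit 573493) (nat_lit 15) (.e (nat_lit 81956) (nat_lit 23) (.e (nat_lit 98367) (nat_lit 27) (.e (nat_lit 434200) (nat_lit 18) (.e (nat_lit 5537) (nat_lit 306) (.e (nat_lit 2610) (nat_lit 163) .nil))))))) (.g (nat_lit 1) (.e (nat_lit 176186) (nat_lit 0) .nil) .nil))))))) 
(.nd (nat_lit 6) (.nd (nat_lit 7) (.nd (nat_lit 8) (.nd (nat_lit 9) 
(.lf (nat_lit 502827) (.g (nat_lit 2528) (.e (nat_lit 163979) (nat_lit 30) (.e (nat_lit 573488) (nat_lit 14) (.e (nat_lit 73755) (nat_lit 8) (.e (nat_lit 557105) (nat_lit 14) (.e (nat_lit 180251) (nat_lit 10) (.e (nat_lit 573475) (nat_lit 12) (.e (nat_lit 57503) (nat_lit 38) (.e (nat_lit 638996) (nat_lit 7) .nil)))))))) (.g (nat_lit 1) (.e (nat_lit 173954) (nat_lit 0) .nil) .nil))) 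
(.lf (nat_lit 503339) (.g (nat_lit 2555) (.e (nat_lit 163979) (nat_lit 30) (.e (nat_lit 573491) (nat_lit 15) (.e (nat_lit 81956) (nat_lit 23) (.e (nat_lit 98356) (nat_lit 26) (.e (nat_lit 426375) (nat_lit 15) .nil))))) (.g (nat_lit 0) (.e (nat_lit 174945) (nat_lit 0) .nil) .nil)))) (.nd (nat_lit 9) 
(.lf (nat_lit 503083) (.g (nat_lit 3105) (.e (nat_lit 163979) (nat_lit 30) (.e (nat_lit 573489) (nat_lit 14) (.e (nat_lit 73755) (nat_lit 8) (.e (nat_lit 557104) (nat_lit 14) (.e (nat_lit 180244) (nat_lit 5) (.e (nat_lit 532501) (nat_lit 1) (.e (nat_lit 57663) (nat_lit 152) (.e (nat_lit 2606) (nat_lit 163) .nil)))))))) (.g (nat_lit 1) (.e (nat_lit 174432) (nat_lit 0) .nil) .nil))) 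
(.lf (nat_lit 503595) (.g (nat_lit 2268) (.e (nat_lit 163979) (nat_lit 30) (.e (nat_lit 573493) (nat_lit 15) (.e (nat_lit 81954) (nat_lit 23) (.e (nat_lit 98361) (nat_lit 26) .nil)))) (.g (nat_lit 0) (.e (nat_lit 175851) (nat_lit 0) .nil) .nil))))) (.nd (nat_lit 8) (.nd (nat_lit 9) 
(.lf (nat_lit 502955) (.g (nat_lit 3476) (.e (nat_lit 163979) (nat_lit 30) (.e (nat_lit 573489) (nat_lit 14) (.e (nat_lit 73755) (nat_lit 8) (.e (nat_lit 557097) (nat_lit 13) (.e (nat_lit 172067) (nat_lit 3) (.e (nat_lit 204814) (nat_lit 17) (.e (nat_lit 2270) (nat_lit 149) (.e (nat_lit 761898) (nat_lit 15) .nil)))))))) (.g (nat_lit 1) (.e (nat_lit 174158) (nat_lit 0) .nil) .nil))) 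
(.lf (nat_lit 503467) (.g (nat_lit 1992) (.e (nat_lit 163979) (nat_lit 30) (.e (nat_lit 573493) (nat_lit 15) (.e (nat_lit 81951) (nat_lit 22) (.e (nat_lit 90170) (nat_lit 13) .nil)))) (.g (nat_lit 0) (.e (nat_lit 175510) (nat_lit 0) .nil) .nil)))) (.nd (nat_lit 9) 
(.lf (nat_lit 503211) (.g (nat_lit 2334) (.e (nat_lit 163979) (nat_lit 30) (.e (nat_lit 573491) (nat_lit 15) (.e (nat_lit 81951) (nat_lit 22) (.e (nat_lit 90170) (nat_lit 13) (.e (nat_lit 172136) (nat_lit 15) .nil))))) (.g (nat_lit 0) (.e (nat_lit 174720) (nat_lit 0) .nil) .nil))) 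
(.lf (nat_lit 503723) (.g (nat_lit 4653) (.e (nat_lit 163979) (nat_lit 30) (.e (nat_lit 573493) (nat_lit 15) (.e (nat_lit 81956) (nat_lit 23) (.e (nat_lit 98361) (nat_lit 26) (.e (nat_lit 426025) (nat_lit 0) (.e (nat_lit 3397) (nat_lit 211) (.e (nat_lit 647180) (nat_lit 3) .nil))))))) (.g (nat_lit 1) (.e (nat_lit 176123) (nat_lit 0) .nil) .nil)))))) 
(.nd (nat_lit 7) (.nd (nat_lit 8) (.nd (nat_lit 9) 
(.lf (nat_lit 502891) (.g (nat_lit 3196) (.e (nat_lit 163979) (nat_lit 30) (.e (nat_lit 573489) (nat_lit 14) (.e (nat_lit 73754) (nat_lit 8) (.e (nat_lit 557103) (nat_lit 14) (.e (nat_lit 180250) (nat_lit 10) (.e (nat_lit 573475) (nat_lit 12) (.e (nat_lit 57504) (nat_lit 38) (.e (nat_lit 638995) (nat_lit 7) .nil)))))))) (.g (nat_lit 1) (.e (nat_lit 174044) (nat_lit 0) .nil) .nil))) 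
(.lf (nat_lit 503403) (.g (nat_lit 3994) (.e (nat_lit 163979) (nat_lit 30) (.e (nat_lit 573492) (nat_lit 15) (.e (nat_lit 81956) (nat_lit 23) (.e (nat_lit 98356) (nat_lit 26) (.e (nat_lit 426360) (nat_lit 15) (.e (nat_lit 2056) (nat_lit 142) (.e (nat_lit 704589) (nat_lit 3) .nil))))))) (.g (nat_lit 1) (.e (nat_lit 175196) (nat_lit 0) .nil) .nil)))) (.nd (nat_lit 9) 
(.lf (nat_lit 503147) (.g (nat_lit 3614) (.e (nat_lit 163979) (nat_lit 30) (.e (nat_lit 573489) (nat_lit 14) (.e (nat_lit 73755) (nat_lit 8) (.e (nat_lit 557105) (nat_lit 14) (.e (nat_lit 180251) (nat_lit 10) (.e (nat_lit 573478) (nat_lit 12) (.e (nat_lit 57500) (nat_lit 37) (.e (nat_lit 630800) (nat_lit 7) .nil)))))))) (.g (nat_lit 1) (.e (nat_lit 174563) (nat_lit 0) .nil) .nil))) 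
(.lf (nat_lit 503659) (.g (nat_lit 3697) (.e (nat_lit 163979) (nat_lit 30) (.e (nat_lit 573493) (nat_lit 15) (.e (nat_lit 81956) (nat_lit 23) (.e (nat_lit 98356) (nat_lit 26) (.e (nat_lit 426362) (nat_lit 15) (.e (nat_lit 2056) (nat_lit 142) (.e (nat_lit 704589) (nat_lit 3) .nil))))))) (.g (nat_lit 1) (.e (nat_lit 175995) (nat_lit 0) .nil) .nil))))) (.nd (nat_lit 8) (.nd (nat_lit 9) 
(.lf (nat_lit 503019) (.g (nat_lit 3914) (.e (nat_lit 163979) (nat_lit 30) (.e (nat_lit 573489) (nat_lit 14) (.e (nat_lit 73755) (nat_lit 8) (.e (nat_lit 557103) (nat_lit 14) (.e (nat_lit 180244) (nat_lit 5) (.e (nat_lit 532484) (nat_lit 0) (.e (nat_lit 7936) (nat_lit 149) (.e (nat_lit 761894) (nat_lit 15) .nil)))))))) (.g (nat_lit 1) (.e (nat_lit 174277) (nat_lit 0) .nil) .nil))) 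
(.lf (nat_lit 503531) (.g (nat_lit 3934) (.e (nat_lit 163979) (nat_lit 30) (.e (nat_lit 573493) (nat_lit 15) (.e (nat_lit 81953) (nat_lit 22) (.e (nat_lit 90170) (nat_lit 13) (.e (nat_lit 172060) (nat_lit 1) (.e (nat_lit 164347) (nat_lit 240) (.e (nat_lit 2610) (nat_lit 163) .nil))))))) (.g (nat_lit 1) (.e (nat_lit 175701) (nat_lit 0) .nil) .nil)))) (.nd (nat_lit 9) 
(.lf (nat_lit 503275) (.g (nat_lit 1824) (.e (nat_lit 163979) (nat_lit 30) (.e (nat_lit 573491) (nat_lit 15) (.e (nat_lit 81954) (nat_lit 23) (.e (nat_lit 98359) (nat_lit 26) (.e (nat_lit 426022) (nat_lit 0) (.e (nat_lit 3401) (nat_lit 211) (.e (nat_lit 647180) (nat_lit 3) .nil))))))) (.g (nat_lit 1) (.e (nat_lit 174822) (nat_lit 0) .nil) .nil))) 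
(.lf (nat_lit 503787) (.g (nat_lit 5365) (.e (nat_lit 163979) (nat_lit 30) (.e (nat_lit 573493) (nat_lit 15) (.e (nat_lit 81956) (nat_lit 23) (.e (nat_lit 98384) (nat_lit 32) (.e (nat_lit 475199) (nat_lit 40) (.e (nat_lit 704589) (nat_lit 3) .nil)))))) (.g (nat_lit 1) (.e (nat_lit 176337) (nat_lit 0) .nil) .nil)))))))) 
(.nd (nat_lit 5) (.nd (nat_lit 6) (.nd (nat_lit 7) (.nd (nat_lit 8) (.nd (nat_lit 9) 
(.lf (nat_lit 502811) (.g (nat_lit 3988) (.e (nat_lit 163979) (nat_lit 30) (.e (nat_lit 573488) (nat_lit 14) (.e (nat_lit 73755) (nat_lit 8) (.e (nat_lit 557104) (nat_lit 14) (.e (nat_lit 180250) (nat_lit 10) (.e (nat_lit 573473) (nat_lit 12) (.e (nat_lit 57503) (nat_lit 38) (.e (nat_lit 638995) (nat_lit 7) .nil)))))))) (.g (nat_lit 1) (.e (nat_lit 173938) (nat_lit 0) .nil) .nil))) 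
(.lf (nat_lit 503323) (.g (nat_lit 1893) (.e (nat_lit 163979) (nat_lit 30) (.e (nat_lit 573491) (nat_lit 15) (.e (nat_lit 81954) (nat_lit 23) (.e (nat_lit 98385) (nat_lit 32) (.e (nat_lit 483072) (nat_lit 40) (.e (nat_lit 704589) (nat_lit 3) .nil)))))) (.g (nat_lit 1) (.e (nat_lit 174929) (nat_lit 0) .nil) .nil)))) (.nd (nat_lit 9) 
(.lf (nat_lit 503067) (.g (nat_lit 2689) (.e (nat_lit 163979) (nat_lit 30) (.e (nat_lit 573489) (nat_lit 14) (.e (nat_lit 73755) (nat_lit 8) (.e (nat_lit 557104) (nat_lit 14) (.e (nat_lit 180243) (nat_lit 5) (.e (nat_lit 532484) (nat_lit 0) (.e (nat_lit 7936) (nat_lit 149) (.e (nat_lit 761894) (nat_lit 15) .nil)))))))) (.g (nat_lit 1) (.e (nat_lit 174379) (nat_lit 0) .nil) .nil))) 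
(.lf (nat_lit 503579) (.g (nat_lit 2270) (.e (nat_lit 163979) (nat_lit 30) (.e (nat_lit 573493) (nat_lit 15) (.e (nat_lit 81954) (nat_lit 23) (.e (nat_lit 98357) (nat_lit 26) .nil)))) (.g (nat_lit 0) (.e (nat_lit 175814) (nat_lit 0) .nil) .nil))))) (.nd (nat_lit 8) (.nd (nat_lit 9) 
(.lf (nat_lit 502939) (.g (nat_lit 3206) (.e (nat_lit 163979) (nat_lit 30) (.e (nat_lit 573489) (nat_lit 14) (.e (nat_lit 73755) (nat_lit 8) (.e (nat_lit 557097) (nat_lit 13) (.e (nat_lit 172065) (nat_lit 3) (.e (nat_lit 204821) (nat_lit 17) (.e (nat_lit 2270) (nat_lit 149) (.e (nat_lit 761899) (nat_lit 15) .nil)))))))) (.g (nat_lit 1) (.e (nat_lit 174122) (nat_lit 0) .nil) .nil))) 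
(.lf (nat_lit 503451) (.g (nat_lit 2592) (.e (nat_lit 163979) (nat_lit 30) (.e (nat_lit 573492) (nat_lit 15) (.e (nat_lit 81956) (nat_lit 23) (.e (nat_lit 106240) (nat_lit 27) .nil)))) (.g (nat_lit 0) (.e (nat_lit 175266) (nat_lit 0) .nil) .nil)))) (.nd (nat_lit 9) 
(.lf (nat_lit 503195) (.g (nat_lit 2544) (.e (nat_lit 163979) (nat_lit 30) (.e (nat_lit 573491) (nat_lit 15) (.e (nat_lit 81951) (nat_lit 22) (.e (nat_lit 90170) (nat_lit 13) (.e (nat_lit 172038) (nat_lit 0) .nil))))) (.g (nat_lit 0) (.e (nat_lit 174660) (nat_lit 0) .nil) .nil))) 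
(.lf (nat_lit 503707) (.g (nat_lit 2492) (.e (nat_lit 163979) (nat_lit 30) (.e (nat_lit 573493) (nat_lit 15) (.e (nat_lit 81956) (nat_lit 23) (.e (nat_lit 98359) (nat_lit 26) (.e (nat_lit 426104) (nat_lit 1) .nil))))) (.g (nat_lit 0) (.e (nat_lit 176087) (nat_lit 0) .nil) .nil)))))) (.nd (nat_lit 7) (.nd (nat_lit 8) (.nd (nat_lit 9) 
(.lf (nat_lit 502875) (.g (nat_lit 3165) (.e (nat_lit 163979) (nat_lit 30) (.e (nat_lit 573489) (nat_lit 14) (.e (nat_lit 73754) (nat_lit 8) (.e (nat_lit 557101) (nat_lit 13) (.e (nat_lit 172065) (nat_lit 3) (.e (nat_lit 204817) (nat_lit 17) (.e (nat_lit 7936) (nat_lit 149) (.e (nat_lit 761894) (nat_lit 15) .nil)))))))) (.g (nat_lit 1) (.e (nat_lit 174021) (nat_lit 0) .nil) .nil))) 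
(.lf (nat_lit 503387) (.g (nat_lit 2457) (.e (nat_lit 163979) (nat_lit 30) (.e (nat_lit 573492) (nat_lit 15) (.e (nat_lit 81956) (nat_lit 23) (.e (nat_lit 98354) (nat_lit 26) (.e (nat_lit 426042) (nat_lit 0) .nil))))) (.g (nat_lit 0) (.e (nat_lit 175151) (nat_lit 0) .nil) .nil)))) (.nd (nat_lit 9) 
(.lf (nat_lit 503131) (.g (nat_lit 4869) (.e (nat_lit 163979) (nat_lit 30) (.e (nat_lit 573489) (nat_lit 14) (.e (nat_lit 73755) (nat_lit 8) (.e (nat_lit 557104) (nat_lit 14) (.e (nat_lit 180252) (nat_lit 10) (.e (nat_lit 573475) (nat_lit 12) (.e (nat_lit 57504) (nat_lit 38) (.e (nat_lit 638996) (nat_lit 7) .nil)))))))) (.g (nat_lit 1) (.e (nat_lit 174546) (nat_lit 0) .nil) .nil))) 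
(.lf (nat_lit 503643) (.g (nat_lit 3083) (.e (nat_lit 163979) (nat_lit 30) (.e (nat_lit 573493) (nat_lit 15) (.e (nat_lit 81956) (nat_lit 23) (.e (nat_lit 98356) (nat_lit 26) (.e (nat_lit 426352) (nat_lit 15) .nil))))) (.g (nat_lit 0) (.e (nat_lit 175974) (nat_lit 0) .nil) .nil))))) (.nd (nat_lit 8) (.nd (nat_lit 9) 
(.lf (nat_lit 503003) (.g (nat_lit 3661) (.e (nat_lit 163979) (nat_lit 30) (.e (nat_lit 573489) (nat_lit 14) (.e (nat_lit 73755) (nat_lit 8) (.e (nat_lit 557098) (nat_lit 13) (.e (nat_lit 172067) (nat_lit 3) (.e (nat_lit 204821) (nat_lit 17) (.e (nat_lit 7936) (nat_lit 149) (.e (nat_lit 761898) (nat_lit 15) .nil)))))))) (.g (nat_lit 1) (.e (nat_lit 174239) (nat_lit 0) .nil) .nil))) 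
(.lf (nat_lit 503515) (.g (nat_lit 3763) (.e (nat_lit 163979) (nat_lit 30) (.e (nat_lit 573493) (nat_lit 15) (.e (nat_lit 81953) (nat_lit 22) (.e (nat_lit 90170) (nat_lit 13) (.e (nat_lit 172043) (nat_lit 0) (.e (nat_lit 3409) (nat_lit 212) (.e (nat_lit 655375) (nat_lit 3) .nil))))))) (.g (nat_lit 1) (.e (nat_lit 175666) (nat_lit 0) .nil) .nil)))) (.nd (nat_lit 9) 
(.lf (nat_lit 503259) (.g (nat_lit 2690) (.e (nat_lit 163979) (nat_lit 30) (.e (nat_lit 573491) (nat_lit 15) (.e (nat_lit 81954) (nat_lit 23) (.e (nat_lit 98356) (nat_lit 26) (.e (nat_lit 426439) (nat_lit 19) (.e (nat_lit 114432) (nat_lit 3) .nil)))))) (.g (nat_lit 1) (.e (nat_lit 174800) (nat_lit 0) .nil) .nil))) 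
(.lf (nat_lit 503771) (.g (nat_lit 4261) (.e (nat_lit 163979) (nat_lit 30) (.e (nat_lit 573493) (nat_lit 15) (.e (nat_lit 81956) (nat_lit 23) (.e (nat_lit 98367) (nat_lit 27) (.e (nat_lit 434272) (nat_lit 38) (.e (nat_lit 655373) (nat_lit 3) .nil)))))) (.g (nat_lit 1) (.e (nat_lit 176246) (nat_lit 0) .nil) .nil))))))) (.nd (nat_lit 6) (.nd (nat_lit 7) (.nd (nat_lit 8) (.nd (nat_lit 9) 
(.lf (nat_lit 502843) (.g (nat_lit 2612) (.e (nat_lit 163979) (nat_lit 30) (.e (nat_lit 573488) (nat_lit 14) (.e (nat_lit 73755) (nat_lit 8) (.e (nat_lit 557105) (nat_lit 14) (.e (nat_lit 180252) (nat_lit 10) (.e (nat_lit 573475) (nat_lit 12) (.e (nat_lit 57504) (nat_lit 38) (.e (nat_lit 638996) (nat_lit 7) .nil)))))))) (.g (nat_lit 1) (.e (nat_lit 173970) (nat_lit 0) .nil) .nil))) 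
(.lf (nat_lit 503355) (.g (nat_lit 3526) (.e (nat_lit 163979) (nat_lit 30) (.e (nat_lit 573492) (nat_lit 15) (.e (nat_lit 81951) (nat_lit 22) (.e (nat_lit 90170) (nat_lit 13) (.e (nat_lit 172042) (nat_lit 0) (.e (nat_lit 3409) (nat_lit 212) (.e (nat_lit 655375) (nat_lit 3) .nil))))))) (.g (nat_lit 1) (.e (nat_lit 175017) (nat_lit 0) .nil) .nil)))) (.nd (nat_lit 9) 
(.lf (nat_lit 503099) (.g (nat_lit 4489) (.e (nat_lit 163979) (nat_lit 30) (.e (nat_lit 573489) (nat_lit 14) (.e (nat_lit 73755) (nat_lit 8) (.e (nat_lit 557104) (nat_lit 14) (.e (nat_lit 180250) (nat_lit 10) (.e (nat_lit 573475) (nat_lit 12) (.e (nat_lit 57503) (nat_lit 38) (.e (nat_lit 638996) (nat_lit 7) .nil)))))))) (.g (nat_lit 1) (.e (nat_lit 174513) (nat_lit 0) .nil) .nil))) 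
(.lf (nat_lit 503611) (.g (nat_lit 4769) (.e (nat_lit 163979) (nat_lit 30) (.e (nat_lit 573493) (nat_lit 15) (.e (nat_lit 81954) (nat_lit 23) (.e (nat_lit 98367) (nat_lit 27) (.e (nat_lit 434272) (nat_lit 38) (.e (nat_lit 655375) (nat_lit 3) .nil)))))) (.g (nat_lit 1) (.e (nat_lit 175882) (nat_lit 0) .nil) .nil))))) (.nd (nat_lit 8) (.nd (nat_lit 9) 
(.lf (nat_lit 502971) (.g (nat_lit 3971) (.e (nat_lit 163979) (nat_lit 30) (.e (nat_lit 573489) (nat_lit 14) (.e (nat_lit 73755) (nat_lit 8) (.e (nat_lit 557098) (nat_lit 13) (.e (nat_lit 172065) (nat_lit 3) (.e (nat_lit 204817) (nat_lit 17) (.e (nat_lit 2272) (nat_lit 149) (.e (nat_lit 761897) (nat_lit 15) .nil)))))))) (.g (nat_lit 1) (.e (nat_lit 174200) (nat_lit 0) .nil) .nil))) 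
(.lf (nat_lit 503483) (.g (nat_lit 4608) (.e (nat_lit 163979) (nat_lit 30) (.e (nat_lit 573493) (nat_lit 15) (.e (nat_lit 81951) (nat_lit 22) (.e (nat_lit 90170) (nat_lit 13) (.e (nat_lit 172068) (nat_lit 4) (.e (nat_lit 229666) (nat_lit 240) (.e (nat_lit 2612) (nat_lit 163) .nil))))))) (.g (nat_lit 1) (.e (nat_lit 175551) (nat_lit 0) .nil) .nil)))) (.nd (nat_lit 9) 
(.lf (nat_lit 503227) (.g (nat_lit 3418) (.e (nat_lit 163979) (nat_lit 30) (.e (nat_lit 573491) (nat_lit 15) (.e (nat_lit 81954) (nat_lit 23) (.e (nat_lit 98356) (nat_lit 26) (.e (nat_lit 426148) (nat_lit 4) (.e (nat_lit 229663) (nat_lit 240) (.e (nat_lit 2612) (nat_lit 163) .nil))))))) (.g (nat_lit 1) (.e (nat_lit 174768) (nat_lit 0) .nil) .nil))) 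
(.lf (nat_lit 503739) (.g (nat_lit 5335) (.e (nat_lit 163979) (nat_lit 30) (.e (nat_lit 573493) (nat_lit 15) (.e (nat_lit 81956) (nat_lit 23) (.e (nat_lit 98365) (nat_lit 26) (.e (nat_lit 426105) (nat_lit 1) (.e (nat_lit 164345) (nat_lit 240) (.e (nat_lit 2610) (nat_lit 163) .nil))))))) (.g (nat_lit 1) (.e (nat_lit 176152) (nat_lit 0) .nil) .nil)))))) 
(.nd (nat_lit 7) (.nd (nat_lit 8) (.nd (nat_lit 9) 
(.lf (nat_lit 502907) (.g (nat_lit 3329) (.e (nat_lit 163979) (nat_lit 30) (.e (nat_lit 573489) (nat_lit 14) (.e (nat_lit 73754) (nat_lit 8) (.e (nat_lit 557105) (nat_lit 14) (.e (nat_lit 180252) (nat_lit 10) (.e (nat_lit 573473) (nat_lit 12) (.e (nat_lit 57504) (nat_lit 38) (.e (nat_lit 638994) (nat_lit 7) .nil)))))))) (.g (nat_lit 1) (.e (nat_lit 174060) (nat_lit 0) .nil) .nil))) 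
(.lf (nat_lit 503419) (.g (nat_lit 3104) (.e (nat_lit 163979) (nat_lit 30) (.e (nat_lit 573492) (nat_lit 15) (.e (nat_lit 81956) (nat_lit 23) (.e (nat_lit 98357) (nat_lit 26) (.e (nat_lit 426442) (nat_lit 19) (.e (nat_lit 114432) (nat_lit 3) .nil)))))) (.g (nat_lit 1) (.e (nat_lit 175231) (nat_lit 0) .nil) .nil)))) (.nd (nat_lit 9) 
(.lf (nat_lit 503163) (.g (nat_lit 3669) (.e (nat_lit 163979) (nat_lit 30) (.e (nat_lit 573489) (nat_lit 14) (.e (nat_lit 73755) (nat_lit 8) (.e (nat_lit 557105) (nat_lit 14) (.e (nat_lit 180252) (nat_lit 10) (.e (nat_lit 573474) (nat_lit 12) (.e (nat_lit 57502) (nat_lit 38) (.e (nat_lit 638994) (nat_lit 7) .nil)))))))) (.g (nat_lit 1) (.e (nat_lit 174588) (nat_lit 0) .nil) .nil))) 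
(.lf (nat_lit 503675) (.g (nat_lit 3427) (.e (nat_lit 163979) (nat_lit 30) (.e (nat_lit 573493) (nat_lit 15) (.e (nat_lit 81956) (nat_lit 23) (.e (nat_lit 98356) (nat_lit 26) (.e (nat_lit 426402) (nat_lit 15) (.e (nat_lit 2046) (nat_lit 142) (.e (nat_lit 704589) (nat_lit 3) .nil))))))) (.g (nat_lit 1) (.e (nat_lit 176013) (nat_lit 0) .nil) .nil))))) (.nd (nat_lit 8) (.nd (nat_lit 9) 
(.lf (nat_lit 503035) (.g (nat_lit 2990) (.e (nat_lit 163979) (nat_lit 30) (.e (nat_lit 573489) (nat_lit 14) (.e (nat_lit 73755) (nat_lit 8) (.e (nat_lit 557103) (nat_lit 14) (.e (nat_lit 180250) (nat_lit 10) (.e (nat_lit 573474) (nat_lit 12) (.e (nat_lit 57504) (nat_lit 38) (.e (nat_lit 638994) (nat_lit 7) .nil)))))))) (.g (nat_lit 1) (.e (nat_lit 174332) (nat_lit 0) .nil) .nil))) 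
(.lf (nat_lit 503547) (.g (nat_lit 4071) (.e (nat_lit 163979) (nat_lit 30) (.e (nat_lit 573493) (nat_lit 15) (.e (nat_lit 81953) (nat_lit 22) (.e (nat_lit 90183) (nat_lit 17) .nil)))) (.g (nat_lit 0) (.e (nat_lit 175763) (nat_lit 0) .nil) .nil)))) (.nd (nat_lit 9) 
(.lf (nat_lit 503291) (.g (nat_lit 2545) (.e (nat_lit 163979) (nat_lit 30) (.e (nat_lit 573491) (nat_lit 15) (.e (nat_lit 81954) (nat_lit 23) (.e (nat_lit 98361) (nat_lit 26) (.e (nat_lit 426025) (nat_lit 0) (.e (nat_lit 3397) (nat_lit 211) (.e (nat_lit 647180) (nat_lit 3) .nil))))))) (.g (nat_lit 1) (.e (nat_lit 174860) (nat_lit 0) .nil) .nil))) 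
(.lf (nat_lit 503803) (.g (nat_lit 3259) (.e (nat_lit 163998) (nat_lit 38) (.e (nat_lit 639020) (nat_lit 16) (.e (nat_lit 65627) (nat_lit 13) (.e (nat_lit 393284) (nat_lit 24) (.e (nat_lit 434276) (nat_lit 39) (.e (nat_lit 663585) (nat_lit 12) .nil)))))) (.g (nat_lit 1) (.e (nat_lit 176398) (nat_lit 0) .nil) .nil)))))))))) 
(.nd (nat_lit 3) (.nd (nat_lit 4) (.nd (nat_lit 5) (.nd (nat_lit 6) (.nd (nat_lit 7) 
(.nd (nat_lit 8) (.nd (nat_lit 9) 
(.lf (nat_lit 502791) (.g (nat_lit 3036) (.e (nat_lit 163979) (nat_lit 30) (.e (nat_lit 573488) (nat_lit 14) (.e (nat_lit 73755) (nat_lit 8) (.e (nat_lit 557098) (nat_lit 13) (.e (nat_lit 172065) (nat_lit 3) .nil))))) (.g (nat_lit 0) (.e (nat_lit 173918) (nat_lit 0) .nil) .nil))) 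
(.lf (nat_lit 503303) (.g (nat_lit 3120) (.e (nat_lit 163979) (nat_lit 30) (.e (nat_lit 573491) (nat_lit 15) (.e (nat_lit 81954) (nat_lit 23) (.e (nat_lit 98367) (nat_lit 27) (.e (nat_lit 434213) (nat_lit 18) (.e (nat_lit 5548) (nat_lit 306) (.e (nat_lit 2610) (nat_lit 163) .nil))))))) (.g (nat_lit 1) (.e (nat_lit 174902) (nat_lit 0) .nil) .nil)))) (.nd (nat_lit 9) 
(.lf (nat_lit 503047) (.g (nat_lit 4434) (.e (nat_lit 163979) (nat_lit 30) (.e (nat_lit 573489) (nat_lit 14) (.e (nat_lit 73755) (nat_lit 8) (.e (nat_lit 557103) (nat_lit 14) (.e (nat_lit 180250) (nat_lit 10) (.e (nat_lit 573475) (nat_lit 12) (.e (nat_lit 57504) (nat_lit 38) (.e (nat_lit 638996) (nat_lit 7) .nil)))))))) (.g (nat_lit 1) (.e (nat_lit 174344) (nat_lit 0) .nil) .nil))) 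
(.lf (nat_lit 503559) (.g (nat_lit 3704) (.e (nat_lit 163979) (nat_lit 30) (.e (nat_lit 573493) (nat_lit 15) (.e (nat_lit 81954) (nat_lit 23) (.e (nat_lit 98356) (nat_lit 26) (.e (nat_lit 426352) (nat_lit 15) .nil))))) (.g (nat_lit 0) (.e (nat_lit 175792) (nat_lit 0) .nil) .nil))))) (.nd (nat_lit 8) (.nd (nat_lit 9) 
(.lf (nat_lit 502919) (.g (nat_lit 3789) (.e (nat_lit 163979) (nat_lit 30) (.e (nat_lit 573489) (nat_lit 14) (.e (nat_lit 73754) (nat_lit 8) (.e (nat_lit 557105) (nat_lit 14) (.e (nat_lit 180252) (nat_lit 10) (.e (nat_lit 573475) (nat_lit 12) (.e (nat_lit 57504) (nat_lit 38) (.e (nat_lit 638994) (nat_lit 7) .nil)))))))) (.g (nat_lit 1) (.e (nat_lit 174072) (nat_lit 0) .nil) .nil))) 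
(.lf (nat_lit 503431) (.g (nat_lit 4256) (.e (nat_lit 163979) (nat_lit 30) (.e (nat_lit 573492) (nat_lit 15) (.e (nat_lit 81956) (nat_lit 23) (.e (nat_lit 98362) (nat_lit 26) .nil)))) (.g (nat_lit 0) (.e (nat_lit 175244) (nat_lit 0) .nil) .nil)))) (.nd (nat_lit 9) 
(.lf (nat_lit 503175) (.g (nat_lit 4930) (.e (nat_lit 163979) (nat_lit 30) (.e (nat_lit 573489) (nat_lit 14) (.e (nat_lit 73755) (nat_lit 8) (.e (nat_lit 557105) (nat_lit 14) (.e (nat_lit 180252) (nat_lit 10) (.e (nat_lit 573475) (nat_lit 12) (.e (nat_lit 57503) (nat_lit 38) (.e (nat_lit 638994) (nat_lit 7) .nil)))))))) (.g (nat_lit 1) (.e (nat_lit 174600) (nat_lit 0) .nil) .nil))) 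
(.lf (nat_lit 503687) (.g (nat_lit 4054) (.e (nat_lit 163979) (nat_lit 30) (.e (nat_lit 573493) (nat_lit 15) (.e (nat_lit 81956) (nat_lit 23) (.e (nat_lit 98358) (nat_lit 26) (.e (nat_lit 426112) (nat_lit 1) .nil))))) (.g (nat_lit 0) (.e (nat_lit 176031) (nat_lit 0) .nil) .nil)))))) (.nd (nat_lit 7) (.nd (nat_lit 8) (.nd (nat_lit 9) 
(.lf (nat_lit 502855) (.g (nat_lit 1424) (.e (nat_lit 163979) (nat_lit 30) (.e (nat_lit 573489) (nat_lit 14) (.e (nat_lit 73754) (nat_lit 8) (.e (nat_lit 557095) (nat_lit 13) .nil)))) (.g (nat_lit 0) (.e (nat_lit 173986) (nat_lit 0) .nil) .nil))) 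
(.lf (nat_lit 503367) (.g (nat_lit 4641) (.e (nat_lit 163979) (nat_lit 30) (.e (nat_lit 573492) (nat_lit 15) (.e (nat_lit 81953) (nat_lit 22) (.e (nat_lit 90170) (nat_lit 13) (.e (nat_lit 172043) (nat_lit 0) .nil))))) (.g (nat_lit 0) (.e (nat_lit 175046) (nat_lit 0) .nil) .nil)))) (.nd (nat_lit 9) 
(.lf (nat_lit 503111) (.g (nat_lit 3714) (.e (nat_lit 163979) (nat_lit 30) (.e (nat_lit 573489) (nat_lit 14) (.e (nat_lit 73755) (nat_lit 8) (.e (nat_lit 557104) (nat_lit 14) (.e (nat_lit 180252) (nat_lit 10) (.e (nat_lit 573473) (nat_lit 12) (.e (nat_lit 57500) (nat_lit 37) (.e (nat_lit 630800) (nat_lit 7) .nil)))))))) (.g (nat_lit 1) (.e (nat_lit 174526) (nat_lit 0) .nil) .nil))) 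
(.lf (nat_lit 503623) (.g (nat_lit 2313) (.e (nat_lit 163979) (nat_lit 30) (.e (nat_lit 573493) (nat_lit 15) (.e (nat_lit 81954) (nat_lit 23) (.e (nat_lit 98385) (nat_lit 32) .nil)))) (.g (nat_lit 0) (.e (nat_lit 175897) (nat_lit 0) .nil) .nil))))) (.nd (nat_lit 8) (.nd (nat_lit 9) 
(.lf (nat_lit 502983) (.g (nat_lit 3137) (.e (nat_lit 163979) (nat_lit 30) (.e (nat_lit 573489) (nat_lit 14) (.e (nat_lit 73755) (nat_lit 8) (.e (nat_lit 557098) (nat_lit 13) (.e (nat_lit 172066) (nat_lit 3) (.e (nat_lit 204817) (nat_lit 17) (.e (nat_lit 7936) (nat_lit 149) (.e (nat_lit 761894) (nat_lit 15) .nil)))))))) (.g (nat_lit 1) (.e (nat_lit 174215) (nat_lit 0) .nil) .nil))) 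
(.lf (nat_lit 503495) (.g (nat_lit 3717) (.e (nat_lit 163979) (nat_lit 30) (.e (nat_lit 573493) (nat_lit 15) (.e (nat_lit 81953) (nat_lit 22) (.e (nat_lit 90167) (nat_lit 13) .nil)))) (.g (nat_lit 0) (.e (nat_lit 175627) (nat_lit 0) .nil) .nil)))) (.nd (nat_lit 9) 
(.lf (nat_lit 503239) (.g (nat_lit 2002) (.e (nat_lit 163979) (nat_lit 30) (.e (nat_lit 573491) (nat_lit 15) (.e (nat_lit 81954) (nat_lit 23) (.e (nat_lit 98356) (nat_lit 26) (.e (nat_lit 426362) (nat_lit 15) .nil))))) (.g (nat_lit 0) (.e (nat_lit 174780) (nat_lit 0) .nil) .nil))) 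
(.lf (nat_lit 503751) (.g (nat_lit 3351) (.e (nat_lit 163979) (nat_lit 30) (.e (nat_lit 573493) (nat_lit 15) (.e (nat_lit 81956) (nat_lit 23) (.e (nat_lit 98366) (nat_lit 27) (.e (nat_lit 434271) (nat_lit 38) (.e (nat_lit 655374) (nat_lit 3) .nil)))))) (.g (nat_lit 1) (.e (nat_lit 176180) (nat_lit 0) .nil) .nil))))))) (.nd (nat_lit 6) (.nd (nat_lit 7) (.nd (nat_lit 8) (.nd (nat_lit 9) 
(.lf (nat_lit 502823) (.g (nat_lit 4660) (.e (nat_lit 163979) (nat_lit 30) (.e (nat_lit 573488) (nat_lit 14) (.e (nat_lit 73755) (nat_lit 8) (.e (nat_lit 557104) (nat_lit 14) (.e (nat_lit 180252) (nat_lit 10) (.e (nat_lit 573475) (nat_lit 12) (.e (nat_lit 57504) (nat_lit 38) (.e (nat_lit 638995) (nat_lit 7) .nil)))))))) (.g (nat_lit 1) (.e (nat_lit 173950) (nat_lit 0) .nil) .nil))) 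
(.lf (nat_lit 503335) (.g (nat_lit 2202) (.e (nat_lit 163979) (nat_lit 30) (.e (nat_lit 573491) (nat_lit 15) (.e (nat_lit 81955) (nat_lit 23) (.e (nat_lit 98386) (nat_lit 32) (.e (nat_lit 475196) (nat_lit 40) (.e (nat_lit 704589) (nat_lit 3) .nil)))))) (.g (nat_lit 1) (.e (nat_lit 174941) (nat_lit 0) .nil) .nil)))) (.nd (nat_lit 9) 
(.lf (nat_lit 503079) (.g (nat_lit 2787) (.e (nat_lit 163979) (nat_lit 30) (.e (nat_lit 573489) (nat_lit 14) (.e (nat_lit 73755) (nat_lit 8) (.e (nat_lit 557104) (nat_lit 14) (.e (nat_lit 180244) (nat_lit 5) (.e (nat_lit 532489) (nat_lit 0) (.e (nat_lit 7936) (nat_lit 149) (.e (nat_lit 761894) (nat_lit 15) .nil)))))))) (.g (nat_lit 1) (.e (nat_lit 174405) (nat_lit 0) .nil) .nil))) 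
(.lf (nat_lit 503591) (.g (nat_lit 4167) (.e (nat_lit 163979) (nat_lit 30) (.e (nat_lit 573493) (nat_lit 15) (.e (nat_lit 81954) (nat_lit 23) (.e (nat_lit 98359) (nat_lit 26) (.e (nat_lit 426043) (nat_lit 0) (.e (nat_lit 3406) (nat_lit 212) (.e (nat_lit 655375) (nat_lit 3) .nil))))))) (.g (nat_lit 1) (.e (nat_lit 175830) (nat_lit 0) .nil) .nil))))) (.nd (nat_lit 8) (.nd (nat_lit 9) 
(.lf (nat_lit 502951) (.g (nat_lit 2512) (.e (nat_lit 163979) (nat_lit 30) (.e (nat_lit 573489) (nat_lit 14) (.e (nat_lit 73755) (nat_lit 8) (.e (nat_lit 557097) (nat_lit 13) (.e (nat_lit 172066) (nat_lit 3) (.e (nat_lit 204821) (nat_lit 17) (.e (nat_lit 7936) (nat_lit 149) (.e (nat_lit 761899) (nat_lit 15) .nil)))))))) (.g (nat_lit 1) (.e (nat_lit 174139) (nat_lit 0) .nil) .nil))) 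
(.lf (nat_lit 503463) (.g (nat_lit 645) (.e (nat_lit 163979) (nat_lit 30) (.e (nat_lit 573493) (nat_lit 15) (.e (nat_lit 81951) (nat_lit 22) .nil))) (.g (nat_lit 0) (.e (nat_lit 175500) (nat_lit 0) .nil) .nil)))) (.nd (nat_lit 9) 
(.lf (nat_lit 503207) (.g (nat_lit 3705) (.e (nat_lit 163979) (nat_lit 30) (.e (nat_lit 573491) (nat_lit 15) (.e (nat_lit 81951) (nat_lit 22) (.e (nat_lit 90170) (nat_lit 13) (.e (nat_lit 172060) (nat_lit 1) (.e (nat_lit 164345) (nat_lit 240) (.e (nat_lit 2610) (nat_lit 163) .nil))))))) (.g (nat_lit 1) (.e (nat_lit 174697) (nat_lit 0) .nil) .nil))) 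
(.lf (nat_lit 503719) (.g (nat_lit 6124) (.e (nat_lit 163979) (nat_lit 30) (.e (nat_lit 573493) (nat_lit 15) (.e (nat_lit 81956) (nat_lit 23) (.e (nat_lit 98360) (nat_lit 26) (.e (nat_lit 426396) (nat_lit 15) (.e (nat_lit 2059) (nat_lit 142) (.e (nat_lit 704589) (nat_lit 3) .nil))))))) (.g (nat_lit 1) (.e (nat_lit 176118) (nat_lit 0) .nil) .nil)))))) 
(.nd (nat_lit 7) (.nd (nat_lit 8) (.nd (nat_lit 9) 
(.lf (nat_lit 502887) (.g (nat_lit 4269) (.e (nat_lit 163979) (nat_lit 30) (.e (nat_lit 573489) (nat_lit 14) (.e (nat_lit 73754) (nat_lit 8) (.e (nat_lit 557103) (nat_lit 14) (.e (nat_lit 180250) (nat_lit 10) (.e (nat_lit 573474) (nat_lit 12) (.e (nat_lit 57503) (nat_lit 38) (.e (nat_lit 638995) (nat_lit 7) .nil)))))))) (.g (nat_lit 1) (.e (nat_lit 174040) (nat_lit 0) .nil) .nil))) 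
(.lf (nat_lit 503399) (.g (nat_lit 3234) (.e (nat_lit 163979) (nat_lit 30) (.e (nat_lit 573492) (nat_lit 15) (.e (nat_lit 81956) (nat_lit 23) (.e (nat_lit 98356) (nat_lit 26) (.e (nat_lit 426067) (nat_lit 0) .nil))))) (.g (nat_lit 0) (.e (nat_lit 175172) (nat_lit 0) .nil) .nil)))) (.nd (nat_lit 9) 
(.lf (nat_lit 503143) (.g (nat_lit 2417) (.e (nat_lit 163979) (nat_lit 30) (.e (nat_lit 573489) (nat_lit 14) (.e (nat_lit 73755) (nat_lit 8) (.e (nat_lit 557105) (nat_lit 14) (.e (nat_lit 180251) (nat_lit 10) (.e (nat_lit 573477) (nat_lit 12) (.e (nat_lit 57500) (nat_lit 37) (.e (nat_lit 630799) (nat_lit 7) .nil)))))))) (.g (nat_lit 1) (.e (nat_lit 174559) (nat_lit 0) .nil) .nil))) 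
(.lf (nat_lit 503655) (.g (nat_lit 3834) (.e (nat_lit 163979) (nat_lit 30) (.e (nat_lit 573493) (nat_lit 15) (.e (nat_lit 81956) (nat_lit 23) (.e (nat_lit 98356) (nat_lit 26) (.e (nat_lit 426360) (nat_lit 15) (.e (nat_lit 7936) (nat_lit 142) (.e (nat_lit 704589) (nat_lit 3) .nil))))))) (.g (nat_lit 1) (.e (nat_lit 175991) (nat_lit 0) .nil) .nil))))) (.nd (nat_lit 8) (.nd (nat_lit 9) 
(.lf (nat_lit 503015) (.g (nat_lit 2966) (.e (nat_lit 163979) (nat_lit 30) (.e (nat_lit 573489) (nat_lit 14) (.e (nat_lit 73755) (nat_lit 8) (.e (nat_lit 557103) (nat_lit 14) (.e (nat_lit 180244) (nat_lit 5) (.e (nat_lit 532481) (nat_lit 0) (.e (nat_lit 2272) (nat_lit 149) (.e (nat_lit 761899) (nat_lit 15) .nil)))))))) (.g (nat_lit 1) (.e (nat_lit 174271) (nat_lit 0) .nil) .nil))) 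
(.lf (nat_lit 503527) (.g (nat_lit 3469) (.e (nat_lit 163979) (nat_lit 30) (.e (nat_lit 573493) (nat_lit 15) (.e (nat_lit 81953) (nat_lit 22) (.e (nat_lit 90170) (nat_lit 13) (.e (nat_lit 172052) (nat_lit 0) .nil))))) (.g (nat_lit 0) (.e (nat_lit 175691) (nat_lit 0) .nil) .nil)))) (.nd (nat_lit 9) 
(.lf (nat_lit 503271) (.g (nat_lit 2835) (.e (nat_lit 163979) (nat_lit 30) (.e (nat_lit 573491) (nat_lit 15) (.e (nat_lit 81954) (nat_lit 23) (.e (nat_lit 98359) (nat_lit 26) (.e (nat_lit 426003) (nat_lit 0) (.e (nat_lit 3397) (nat_lit 211) (.e (nat_lit 647181) (nat_lit 3) .nil))))))) (.g (nat_lit 1) (.e (nat_lit 174817) (nat_lit 0) .nil) .nil))) 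
(.lf (nat_lit 503783) (.g (nat_lit 4111) (.e (nat_lit 163979) (nat_lit 30) (.e (nat_lit 573493) (nat_lit 15) (.e (nat_lit 81956) (nat_lit 23) (.e (nat_lit 98383) (nat_lit 32) (.e (nat_lit 475197) (nat_lit 40) (.e (nat_lit 704589) (nat_lit 3) .nil)))))) (.g (nat_lit 1) (.e (nat_lit 176332) (nat_lit 0) .nil) .nil)))))))) 
(.nd (nat_lit 5) (.nd (nat_lit 6) (.nd (nat_lit 7) (.nd (nat_lit 8) (.nd (nat_lit 9) 
(.lf (nat_lit 502807) (.g (nat_lit 1248) (.e (nat_lit 163979) (nat_lit 30) (.e (nat_lit 573488) (nat_lit 14) (.e (nat_lit 73755) (nat_lit 8) (.e (nat_lit 557104) (nat_lit 14) .nil)))) (.g (nat_lit 0) (.e (nat_lit 173934) (nat_lit 0) .nil) .nil))) 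
(.lf (nat_lit 503319) (.g (nat_lit 2174) (.e (nat_lit 163979) (nat_lit 30) (.e (nat_lit 573491) (nat_lit 15) (.e (nat_lit 81954) (nat_lit 23) (.e (nat_lit 98385) (nat_lit 32) (.e (nat_lit 475195) (nat_lit 40) (.e (nat_lit 704589) (nat_lit 3) .nil)))))) (.g (nat_lit 1) (.e (nat_lit 174925) (nat_lit 0) .nil) .nil)))) (.nd (nat_lit 9) 
(.lf (nat_lit 503063) (.g (nat_lit 2614) (.e (nat_lit 163979) (nat_lit 30) (.e (nat_lit 573489) (nat_lit 14) (.e (nat_lit 73755) (nat_lit 8) (.e (nat_lit 557104) (nat_lit 14) (.e (nat_lit 180242) (nat_lit 5) (.e (nat_lit 532484) (nat_lit 0) (.e (nat_lit 7936) (nat_lit 149) (.e (nat_lit 761894) (nat_lit 15) .nil)))))))) (.g (nat_lit 1) (.e (nat_lit 174370) (nat_lit 0) .nil) .nil))) 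
(.lf (nat_lit 503575) (.g (nat_lit 3997) (.e (nat_lit 163979) (nat_lit 30) (.e (nat_lit 573493) (nat_lit 15) (.e (nat_lit 81954) (nat_lit 23) (.e (nat_lit 98356) (nat_lit 26) (.e (nat_lit 426416) (nat_lit 15) (.e (nat_lit 2059) (nat_lit 142) (.e (nat_lit 704589) (nat_lit 3) .nil))))))) (.g (nat_lit 1) (.e (nat_lit 175808) (nat_lit 0) .nil) .nil))))) (.nd (nat_lit 8) (.nd (nat_lit 9) 
(.lf (nat_lit 502935) (.g (nat_lit 3827) (.e (nat_lit 163979) (nat_lit 30) (.e (nat_lit 573489) (nat_lit 14) (.e (nat_lit 73755) (nat_lit 8) (.e (nat_lit 557097) (nat_lit 13) (.e (nat_lit 172065) (nat_lit 3) (.e (nat_lit 204817) (nat_lit 17) (.e (nat_lit 7936) (nat_lit 149) (.e (nat_lit 761897) (nat_lit 15) .nil)))))))) (.g (nat_lit 1) (.e (nat_lit 174118) (nat_lit 0) .nil) .nil))) 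
(.lf (nat_lit 503447) (.g (nat_lit 5605) (.e (nat_lit 163979) (nat_lit 30) (.e (nat_lit 573492) (nat_lit 15) (.e (nat_lit 81956) (nat_lit 23) (.e (nat_lit 98366) (nat_lit 27) (.e (nat_lit 434272) (nat_lit 38) (.e (nat_lit 655375) (nat_lit 3) .nil)))))) (.g (nat_lit 1) (.e (nat_lit 175262) (nat_lit 0) .nil) .nil)))) (.nd (nat_lit 9) 
(.lf (nat_lit 503191) (.g (nat_lit 3253) (.e (nat_lit 163979) (nat_lit 30) (.e (nat_lit 573491) (nat_lit 15) (.e (nat_lit 81951) (nat_lit 22) (.e (nat_lit 90170) (nat_lit 13) (.e (nat_lit 172033) (nat_lit 0) (.e (nat_lit 3397) (nat_lit 211) (.e (nat_lit 647181) (nat_lit 3) .nil))))))) (.g (nat_lit 1) (.e (nat_lit 174649) (nat_lit 0) .nil) .nil))) 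
(.lf (nat_lit 503703) (.g (nat_lit 2827) (.e (nat_lit 163979) (nat_lit 30) (.e (nat_lit 573493) (nat_lit 15) (.e (nat_lit 81956) (nat_lit 23) (.e (nat_lit 98359) (nat_lit 26) (.e (nat_lit 426045) (nat_lit 0) .nil))))) (.g (nat_lit 0) (.e (nat_lit 176074) (nat_lit 0) .nil) .nil)))))) (.nd (nat_lit 7) (.nd (nat_lit 8) (.nd (nat_lit 9) 
(.lf (nat_lit 502871) (.g (nat_lit 3237) (.e (nat_lit 163979) (nat_lit 30) (.e (nat_lit 573489) (nat_lit 14) (.e (nat_lit 73754) (nat_lit 8) (.e (nat_lit 557100) (nat_lit 13) (.e (nat_lit 172067) (nat_lit 3) (.e (nat_lit 204817) (nat_lit 17) (.e (nat_lit 7936) (nat_lit 149) (.e (nat_lit 761899) (nat_lit 15) .nil)))))))) (.g (nat_lit 1) (.e (nat_lit 174007) (nat_lit 0) .nil) .nil))) 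
(.lf (nat_lit 503383) (.g (nat_lit 4101) (.e (nat_lit 163979) (nat_lit 30) (.e (nat_lit 573492) (nat_lit 15) (.e (nat_lit 81954) (nat_lit 23) (.e (nat_lit 98367) (nat_lit 27) (.e (nat_lit 434272) (nat_lit 38) (.e (nat_lit 655375) (nat_lit 3) .nil)))))) (.g (nat_lit 1) (.e (nat_lit 175065) (nat_lit 0) .nil) .nil)))) (.nd (nat_lit 9) 
(.lf (nat_lit 503127) (.g (nat_lit 3789) (.e (nat_lit 163979) (nat_lit 30) (.e (nat_lit 573489) (nat_lit 14) (.e (nat_lit 73755) (nat_lit 8) (.e (nat_lit 557104) (nat_lit 14) (.e (nat_lit 180252) (nat_lit 10) (.e (nat_lit 573475) (nat_lit 12) (.e (nat_lit 57502) (nat_lit 38) (.e (nat_lit 638996) (nat_lit 7) .nil)))))))) (.g (nat_lit 1) (.e (nat_lit 174542) (nat_lit 0) .nil) .nil))) 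
(.lf (nat_lit 503639) (.g (nat_lit 2529) (.e (nat_lit 163979) (nat_lit 30) (.e (nat_lit 573493) (nat_lit 15) (.e (nat_lit 81956) (nat_lit 23) (.e (nat_lit 98356) (nat_lit 26) (.e (nat_lit 433920) (nat_lit 4) .nil))))) (.g (nat_lit 0) (.e (nat_lit 175970) (nat_lit 0) .nil) .nil))))) (.nd (nat_lit 8) (.nd (nat_lit 9) 
(.lf (nat_lit 502999) (.g (nat_lit 3963) (.e (nat_lit 163979) (nat_lit 30) (.e (nat_lit 573489) (nat_lit 14) (.e (nat_lit 73755) (nat_lit 8) (.e (nat_lit 557098) (nat_lit 13) (.e (nat_lit 172067) (nat_lit 3) (.e (nat_lit 204821) (nat_lit 17) (.e (nat_lit 2264) (nat_lit 149) (.e (nat_lit 761899) (nat_lit 15) .nil)))))))) (.g (nat_lit 1) (.e (nat_lit 174235) (nat_lit 0) .nil) .nil))) 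
(.lf (nat_lit 503511) (.g (nat_lit 3931) (.e (nat_lit 163979) (nat_lit 30) (.e (nat_lit 573493) (nat_lit 15) (.e (nat_lit 81953) (nat_lit 22) (.e (nat_lit 90170) (nat_lit 13) (.e (nat_lit 172042) (nat_lit 0) (.e (nat_lit 3406) (nat_lit 212) (.e (nat_lit 655373) (nat_lit 3) .nil))))))) (.g (nat_lit 1) (.e (nat_lit 175662) (nat_lit 0) .nil) .nil)))) (.nd (nat_lit 9) 
(.lf (nat_lit 503255) (.g (nat_lit 2226) (.e (nat_lit 163979) (nat_lit 30) (.e (nat_lit 573491) (nat_lit 15) (.e (nat_lit 81954) (nat_lit 23) (.e (nat_lit 98356) (nat_lit 26) (.e (nat_lit 426402) (nat_lit 15) .nil))))) (.g (nat_lit 0) (.e (nat_lit 174796) (nat_lit 0) .nil) .nil))) 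
(.lf (nat_lit 503767) (.g (nat_lit 3461) (.e (nat_lit 163979) (nat_lit 30) (.e (nat_lit 573493) (nat_lit 15) (.e (nat_lit 81956) (nat_lit 23) (.e (nat_lit 98367) (nat_lit 27) (.e (nat_lit 434270) (nat_lit 38) (.e (nat_lit 655374) (nat_lit 3) .nil)))))) (.g (nat_lit 1) (.e (nat_lit 176242) (nat_lit 0) .nil) .nil))))))) (.nd (nat_lit 6) (.nd (nat_lit 7) (.nd (nat_lit 8) (.nd (nat_lit 9) 
(.lf (nat_lit 502839) (.g (nat_lit 2845) (.e (nat_lit 163979) (nat_lit 30) (.e (nat_lit 573488) (nat_lit 14) (.e (nat_lit 73755) (nat_lit 8) (.e (nat_lit 557105) (nat_lit 14) (.e (nat_lit 180252) (nat_lit 10) (.e (nat_lit 573474) (nat_lit 12) (.e (nat_lit 57504) (nat_lit 38) (.e (nat_lit 638996) (nat_lit 7) .nil)))))))) (.g (nat_lit 1) (.e (nat_lit 173966) (nat_lit 0) .nil) .nil))) 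
(.lf (nat_lit 503351) (.g (nat_lit 1508) (.e (nat_lit 163979) (nat_lit 30) (.e (nat_lit 573491) (nat_lit 15) (.e (nat_lit 81956) (nat_lit 23) (.e (nat_lit 98385) (nat_lit 32) .nil)))) (.g (nat_lit 0) (.e (nat_lit 174958) (nat_lit 0) .nil) .nil)))) (.nd (nat_lit 9) 
(.lf (nat_lit 503095) (.g (nat_lit 3342) (.e (nat_lit 163979) (nat_lit 30) (.e (nat_lit 573489) (nat_lit 14) (.e (nat_lit 73755) (nat_lit 8) (.e (nat_lit 557104) (nat_lit 14) (.e (nat_lit 180250) (nat_lit 10) (.e (nat_lit 573475) (nat_lit 12) (.e (nat_lit 57500) (nat_lit 37) (.e (nat_lit 630800) (nat_lit 7) .nil)))))))) (.g (nat_lit 1) (.e (nat_lit 174509) (nat_lit 0) .nil) .nil))) 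
(.lf (nat_lit 503607) (.g (nat_lit 4711) (.e (nat_lit 163979) (nat_lit 30) (.e (nat_lit 573493) (nat_lit 15) (.e (nat_lit 81954) (nat_lit 23) (.e (nat_lit 98367) (nat_lit 27) (.e (nat_lit 434271) (nat_lit 38) (.e (nat_lit 655373) (nat_lit 3) .nil)))))) (.g (nat_lit 1) (.e (nat_lit 175878) (nat_lit 0) .nil) .nil))))) (.nd (nat_lit 8) (.nd (nat_lit 9) 
(.lf (nat_lit 502967) (.g (nat_lit 3008) (.e (nat_lit 163979) (nat_lit 30) (.e (nat_lit 573489) (nat_lit 14) (.e (nat_lit 73755) (nat_lit 8) (.e (nat_lit 557097) (nat_lit 13) (.e (nat_lit 172067) (nat_lit 3) (.e (nat_lit 204821) (nat_lit 17) (.e (nat_lit 7936) (nat_lit 149) (.e (nat_lit 761899) (nat_lit 15) .nil)))))))) (.g (nat_lit 1) (.e (nat_lit 174170) (nat_lit 0) .nil) .nil))) 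
(.lf (nat_lit 503479) (.g (nat_lit 4379) (.e (nat_lit 163979) (nat_lit 30) (.e (nat_lit 573493) (nat_lit 15) (.e (nat_lit 81951) (nat_lit 22) (.e (nat_lit 90170) (nat_lit 13) (.e (nat_lit 172059) (nat_lit 1) (.e (nat_lit 164347) (nat_lit 240) (.e (nat_lit 2610) (nat_lit 163) .nil))))))) (.g (nat_lit 1) (.e (nat_lit 175535) (nat_lit 0) .nil) .nil)))) (.nd (nat_lit 9) 
(.lf (nat_lit 503223) (.g (nat_lit 2055) (.e (nat_lit 163979) (nat_lit 30) (.e (nat_lit 573491) (nat_lit 15) (.e (nat_lit 81954) (nat_lit 23) (.e (nat_lit 98354) (nat_lit 26) (.e (nat_lit 426025) (nat_lit 0) (.e (nat_lit 3397) (nat_lit 211) (.e (nat_lit 647180) (nat_lit 3) .nil))))))) (.g (nat_lit 1) (.e (nat_lit 174755) (nat_lit 0) .nil) .nil))) 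
(.lf (nat_lit 503735) (.g (nat_lit 4847) (.e (nat_lit 163979) (nat_lit 30) (.e (nat_lit 573493) (nat_lit 15) (.e (nat_lit 81956) (nat_lit 23) (.e (nat_lit 98365) (nat_lit 26) (.e (nat_lit 426098) (nat_lit 1) .nil))))) (.g (nat_lit 0) (.e (nat_lit 176144) (nat_lit 0) .nil) .nil)))))) (.nd (nat_lit 7) (.nd (nat_lit 8) (.nd (nat_lit 9) 
(.lf (nat_lit 502903) (.g (nat_lit 3700) (.e (nat_lit 163979) (nat_lit 30) (.e (nat_lit 573489) (nat_lit 14) (.e (nat_lit 73754) (nat_lit 8) (.e (nat_lit 557105) (nat_lit 14) (.e (nat_lit 180252) (nat_lit 10) (.e (nat_lit 573473) (nat_lit 12) (.e (nat_lit 57501) (nat_lit 37) (.e (nat_lit 630800) (nat_lit 7) .nil)))))))) (.g (nat_lit 1) (.e (nat_lit 174056) (nat_lit 0) .nil) .nil))) 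
(.lf (nat_lit 503415) (.g (nat_lit 3125) (.e (nat_lit 163979) (nat_lit 30) (.e (nat_lit 573492) (nat_lit 15) (.e (nat_lit 81956) (nat_lit 23) (.e (nat_lit 98356) (nat_lit 26) (.e (nat_lit 426442) (nat_lit 19) (.e (nat_lit 114432) (nat_lit 3) .nil)))))) (.g (nat_lit 1) (.e (nat_lit 175224) (nat_lit 0) .nil) .nil)))) (.nd (nat_lit 9) 
(.lf (nat_lit 503159) (.g (nat_lit 4961) (.e (nat_lit 163979) (nat_lit 30) (.e (nat_lit 573489) (nat_lit 14) (.e (nat_lit 73755) (nat_lit 8) (.e (nat_lit 557105) (nat_lit 14) (.e (nat_lit 180252) (nat_lit 10) (.e (nat_lit 573474) (nat_lit 12) (.e (nat_lit 57500) (nat_lit 37) (.e (nat_lit 630800) (nat_lit 7) .nil)))))))) (.g (nat_lit 1) (.e (nat_lit 174584) (nat_lit 0) .nil) .nil))) 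
(.lf (nat_lit 503671) (.g (nat_lit 3319) (.e (nat_lit 163979) (nat_lit 30) (.e (nat_lit 573493) (nat_lit 15) (.e (nat_lit 81956) (nat_lit 23) (.e (nat_lit 98356) (nat_lit 26) (.e (nat_lit 426400) (nat_lit 15) .nil))))) (.g (nat_lit 0) (.e (nat_lit 176009) (nat_lit 0) .nil) .nil))))) (.nd (nat_lit 8) (.nd (nat_lit 9) 
(.lf (nat_lit 503031) (.g (nat_lit 2556) (.e (nat_lit 163979) (nat_lit 30) (.e (nat_lit 573489) (nat_lit 14) (.e (nat_lit 73755) (nat_lit 8) (.e (nat_lit 557103) (nat_lit 14) (.e (nat_lit 180250) (nat_lit 10) (.e (nat_lit 573474) (nat_lit 12) (.e (nat_lit 57501) (nat_lit 37) (.e (nat_lit 630800) (nat_lit 7) .nil)))))))) (.g (nat_lit 1) (.e (nat_lit 174328) (nat_lit 0) .nil) .nil))) 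
(.lf (nat_lit 503543) (.g (nat_lit 3719) (.e (nat_lit 163979) (nat_lit 30) (.e (nat_lit 573493) (nat_lit 15) (.e (nat_lit 81953) (nat_lit 22) (.e (nat_lit 90173) (nat_lit 14) .nil)))) (.g (nat_lit 0) (.e (nat_lit 175743) (nat_lit 0) .nil) .nil)))) (.nd (nat_lit 9) 
(.lf (nat_lit 503287) (.g (nat_lit 3692) (.e (nat_lit 163979) (nat_lit 30) (.e (nat_lit 573491) (nat_lit 15) (.e (nat_lit 81954) (nat_lit 23) (.e (nat_lit 98359) (nat_lit 26) (.e (nat_lit 426412) (nat_lit 15) (.e (nat_lit 2056) (nat_lit 142) (.e (nat_lit 704589) (nat_lit 3) .nil))))))) (.g (nat_lit 1) (.e (nat_lit 174853) (nat_lit 0) .nil) .nil))) 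
(.lf (nat_lit 503799) (.g (nat_lit 3071) (.e (nat_lit 163998) (nat_lit 38) (.e (nat_lit 639020) (nat_lit 16) (.e (nat_lit 65571) (nat_lit 3) (.e (nat_lit 98372) (nat_lit 29) (.e (nat_lit 458496) (nat_lit 1) .nil))))) (.g (nat_lit 0) (.e (nat_lit 176394) (nat_lit 0) .nil) .nil))))))))) (.nd (nat_lit 4) (.nd (nat_lit 5) (.nd (nat_lit 6) (.nd (nat_lit 7) (.nd (nat_lit 8) (.nd (nat_lit 9) 
(.lf (nat_lit 502799) (.g (nat_lit 2909) (.e (nat_lit 163979) (nat_lit 30) (.e (nat_lit 573488) (nat_lit 14) (.e (nat_lit 73755) (nat_lit 8) (.e (nat_lit 557103) (nat_lit 14) (.e (nat_lit 180250) (nat_lit 10) (.e (nat_lit 573474) (nat_lit 12) (.e (nat_lit 57503) (nat_lit 38) (.e (nat_lit 638996) (nat_lit 7) .nil)))))))) (.g (nat_lit 1) (.e (nat_lit 173926) (nat_lit 0) .nil) .nil))) 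
(.lf (nat_lit 503311) (.g (nat_lit 3372) (.e (nat_lit 163979) (nat_lit 30) (.e (nat_lit 573491) (nat_lit 15) (.e (nat_lit 81954) (nat_lit 23) (.e (nat_lit 98383) (nat_lit 32) (.e (nat_lit 475199) (nat_lit 40) (.e (nat_lit 704589) (nat_lit 3) .nil)))))) (.g (nat_lit 1) (.e (nat_lit 174917) (nat_lit 0) .nil) .nil)))) (.nd (nat_lit 9) 
(.lf (nat_lit 503055) (.g (nat_lit 3554) (.e (nat_lit 163979) (nat_lit 30) (.e (nat_lit 573489) (nat_lit 14) (.e (nat_lit 73755) (nat_lit 8) (.e (nat_lit 557103) (nat_lit 14) (.e (nat_lit 180251) (nat_lit 10) (.e (nat_lit 573475) (nat_lit 12) (.e (nat_lit 57503) (nat_lit 38) (.e (nat_lit 638994) (nat_lit 7) .nil)))))))) (.g (nat_lit 1) (.e (nat_lit 174352) (nat_lit 0) .nil) .nil))) 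
(.lf (nat_lit 503567) (.g (nat_lit 4154) (.e (nat_lit 163979) (nat_lit 30) (.e (nat_lit 573493) (nat_lit 15) (.e (nat_lit 81954) (nat_lit 23) (.e (nat_lit 98356) (nat_lit 26) (.e (nat_lit 426375) (nat_lit 15) (.e (nat_lit 2059) (nat_lit 142) (.e (nat_lit 704589) (nat_lit 3) .nil))))))) (.g (nat_lit 1) (.e (nat_lit 175800) (nat_lit 0) .nil) .nil))))) (.nd (nat_lit 8) (.nd (nat_lit 9) 
(.lf (nat_lit 502927) (.g (nat_lit 3362) (.e (nat_lit 163979) (nat_lit 30) (.e (nat_lit 573489) (nat_lit 14) (.e (nat_lit 73755) (nat_lit 8) (.e (nat_lit 557096) (nat_lit 13) (.e (nat_lit 172067) (nat_lit 3) (.e (nat_lit 204817) (nat_lit 17) (.e (nat_lit 7936) (nat_lit 149) (.e (nat_lit 761894) (nat_lit 15) .nil)))))))) (.g (nat_lit 1) (.e (nat_lit 174096) (nat_lit 0) .nil) .nil))) 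
(.lf (nat_lit 503439) (.g (nat_lit 5115) (.e (nat_lit 163979) (nat_lit 30) (.e (nat_lit 573492) (nat_lit 15) (.e (nat_lit 81956) (nat_lit 23) (.e (nat_lit 98365) (nat_lit 26) (.e (nat_lit 426031) (nat_lit 0) .nil))))) (.g (nat_lit 0) (.e (nat_lit 175253) (nat_lit 0) .nil) .nil)))) (.nd (nat_lit 9) 
(.lf (nat_lit 503183) (.g (nat_lit 1302) (.e (nat_lit 163979) (nat_lit 30) (.e (nat_lit 573489) (nat_lit 14) (.e (nat_lit 73768) (nat_lit 19) (.e (nat_lit 647171) (nat_lit 0) .nil)))) (.g (nat_lit 0) (.e (nat_lit 174611) (nat_lit 0) .nil) .nil))) 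
(.lf (nat_lit 503695) (.g (nat_lit 3520) (.e (nat_lit 163979) (nat_lit 30) (.e (nat_lit 573493) (nat_lit 15) (.e (nat_lit 81956) (nat_lit 23) (.e (nat_lit 98359) (nat_lit 26) (.e (nat_lit 426022) (nat_lit 0) (.e (nat_lit 3399) (nat_lit 211) (.e (nat_lit 647180) (nat_lit 3) .nil))))))) (.g (nat_lit 1) (.e (nat_lit 176044) (nat_lit 0) .nil) .nil)))))) 
(.nd (nat_lit 7) (.nd (nat_lit 8) (.nd (nat_lit 9) 
(.lf (nat_lit 502863) (.g (nat_lit 3116) (.e (nat_lit 163979) (nat_lit 30) (.e (nat_lit 573489) (nat_lit 14) (.e (nat_lit 73754) (nat_lit 8) (.e (nat_lit 557100) (nat_lit 13) (.e (nat_lit 172065) (nat_lit 3) (.e (nat_lit 204821) (nat_lit 17) (.e (nat_lit 2270) (nat_lit 149) (.e (nat_lit 761898) (nat_lit 15) .nil)))))))) (.g (nat_lit 1) (.e (nat_lit 173996) (nat_lit 0) .nil) .nil))) 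
(.lf (nat_lit 503375) (.g (nat_lit 5069) (.e (nat_lit 163979) (nat_lit 30) (.e (nat_lit 573492) (nat_lit 15) (.e (nat_lit 81953) (nat_lit 22) (.e (nat_lit 90184) (nat_lit 17) .nil)))) (.g (nat_lit 0) (.e (nat_lit 175057) (nat_lit 0) .nil) .nil)))) (.nd (nat_lit 9) 
(.lf (nat_lit 503119) (.g (nat_lit 2533) (.e (nat_lit 163979) (nat_lit 30) (.e (nat_lit 573489) (nat_lit 14) (.e (nat_lit 73755) (nat_lit 8) (.e (nat_lit 557104) (nat_lit 14) (.e (nat_lit 180252) (nat_lit 10) (.e (nat_lit 573474) (nat_lit 12) (.e (nat_lit 57501) (nat_lit 37) (.e (nat_lit 630799) (nat_lit 7) .nil)))))))) (.g (nat_lit 1) (.e (nat_lit 174534) (nat_lit 0) .nil) .nil))) 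
(.lf (nat_lit 503631) (.g (nat_lit 4618) (.e (nat_lit 163979) (nat_lit 30) (.e (nat_lit 573493) (nat_lit 15) (.e (nat_lit 81956) (nat_lit 23) (.e (nat_lit 98354) (nat_lit 26) (.e (nat_lit 426109) (nat_lit 1) (.e (nat_lit 164347) (nat_lit 240) (.e (nat_lit 2610) (nat_lit 163) .nil))))))) (.g (nat_lit 1) (.e (nat_lit 175948) (nat_lit 0) .nil) .nil))))) (.nd (nat_lit 8) (.nd (nat_lit 9) 
(.lf (nat_lit 502991) (.g (nat_lit 4976) (.e (nat_lit 163979) (nat_lit 30) (.e (nat_lit 573489) (nat_lit 14) (.e (nat_lit 73755) (nat_lit 8) (.e (nat_lit 557098) (nat_lit 13) (.e (nat_lit 172067) (nat_lit 3) (.e (nat_lit 204815) (nat_lit 17) (.e (nat_lit 2271) (nat_lit 149) (.e (nat_lit 761898) (nat_lit 15) .nil)))))))) (.g (nat_lit 1) (.e (nat_lit 174227) (nat_lit 0) .nil) .nil))) 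
(.lf (nat_lit 503503) (.g (nat_lit 3507) (.e (nat_lit 163979) (nat_lit 30) (.e (nat_lit 573493) (nat_lit 15) (.e (nat_lit 81953) (nat_lit 22) (.e (nat_lit 90170) (nat_lit 13) (.e (nat_lit 172033) (nat_lit 0) (.e (nat_lit 3399) (nat_lit 211) (.e (nat_lit 647181) (nat_lit 3) .nil))))))) (.g (nat_lit 1) (.e (nat_lit 175642) (nat_lit 0) .nil) .nil)))) (.nd (nat_lit 9) 
(.lf (nat_lit 503247) (.g (nat_lit 2501) (.e (nat_lit 163979) (nat_lit 30) (.e (nat_lit 573491) (nat_lit 15) (.e (nat_lit 81954) (nat_lit 23) (.e (nat_lit 98356) (nat_lit 26) (.e (nat_lit 426397) (nat_lit 15) .nil))))) (.g (nat_lit 0) (.e (nat_lit 174788) (nat_lit 0) .nil) .nil))) 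
(.lf (nat_lit 503759) (.g (nat_lit 5259) (.e (nat_lit 163979) (nat_lit 30) (.e (nat_lit 573493) (nat_lit 15) (.e (nat_lit 81956) (nat_lit 23) (.e (nat_lit 98367) (nat_lit 27) (.e (nat_lit 434209) (nat_lit 18) (.e (nat_lit 5547) (nat_lit 306) (.e (nat_lit 2610) (nat_lit 163) .nil))))))) (.g (nat_lit 1) (.e (nat_lit 176223) (nat_lit 0) .nil) .nil))))))) 
(.nd (nat_lit 6) (.nd (nat_lit 7) (.nd (nat_lit 8) (.nd (nat_lit 9) 
(.lf (nat_lit 502831) (.g (nat_lit 1861) (.e (nat_lit 163979) (nat_lit 30) (.e (nat_lit 573488) (nat_lit 14) (.e (nat_lit 73755) (nat_lit 8) (.e (nat_lit 557105) (nat_lit 14) (.e (nat_lit 180252) (nat_lit 10) .nil))))) (.g (nat_lit 0) (.e (nat_lit 173958) (nat_lit 0) .nil) .nil))) 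
(.lf (nat_lit 503343) (.g (nat_lit 2310) (.e (nat_lit 163979) (nat_lit 30) (.e (nat_lit 573491) (nat_lit 15) (.e (nat_lit 81956) (nat_lit 23) (.e (nat_lit 98359) (nat_lit 26) (.e (nat_lit 426396) (nat_lit 15) .nil))))) (.g (nat_lit 0) (.e (nat_lit 174949) (nat_lit 0) .nil) .nil)))) (.nd (nat_lit 9) 
(.lf (nat_lit 503087) (.g (nat_lit 3108) (.e (nat_lit 163979) (nat_lit 30) (.e (nat_lit 573489) (nat_lit 14) (.e (nat_lit 73755) (nat_lit 8) (.e (nat_lit 557104) (nat_lit 14) (.e (nat_lit 180244) (nat_lit 5) (.e (nat_lit 532504) (nat_lit 1) (.e (nat_lit 57663) (nat_lit 152) (.e (nat_lit 2606) (nat_lit 163) .nil)))))))) (.g (nat_lit 1) (.e (nat_lit 174471) (nat_lit 0) .nil) .nil))) 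
(.lf (nat_lit 503599) (.g (nat_lit 2174) (.e (nat_lit 163979) (nat_lit 30) (.e (nat_lit 573493) (nat_lit 15) (.e (nat_lit 81954) (nat_lit 23) (.e (nat_lit 106240) (nat_lit 26) .nil)))) (.g (nat_lit 0) (.e (nat_lit 175859) (nat_lit 0) .nil) .nil))))) (.nd (nat_lit 8) (.nd (nat_lit 9) 
(.lf (nat_lit 502959) (.g (nat_lit 3379) (.e (nat_lit 163979) (nat_lit 30) (.e (nat_lit 573489) (nat_lit 14) (.e (nat_lit 73755) (nat_lit 8) (.e (nat_lit 557097) (nat_lit 13) (.e (nat_lit 172067) (nat_lit 3) (.e (nat_lit 204816) (nat_lit 17) (.e (nat_lit 2273) (nat_lit 149) (.e (nat_lit 761899) (nat_lit 15) .nil)))))))) (.g (nat_lit 1) (.e (nat_lit 174162) (nat_lit 0) .nil) .nil))) 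
(.lf (nat_lit 503471) (.g (nat_lit 3559) (.e (nat_lit 163979) (nat_lit 30) (.e (nat_lit 573493) (nat_lit 15) (.e (nat_lit 81951) (nat_lit 22) (.e (nat_lit 90170) (nat_lit 13) (.e (nat_lit 172042) (nat_lit 0) (.e (nat_lit 3406) (nat_lit 212) (.e (nat_lit 655373) (nat_lit 3) .nil))))))) (.g (nat_lit 1) (.e (nat_lit 175522) (nat_lit 0) .nil) .nil)))) (.nd (nat_lit 9) 
(.lf (nat_lit 503215) (.g (nat_lit 4048) (.e (nat_lit 163979) (nat_lit 30) (.e (nat_lit 573491) (nat_lit 15) (.e (nat_lit 81951) (nat_lit 22) (.e (nat_lit 90170) (nat_lit 13) (.e (nat_lit 172138) (nat_lit 15) (.e (nat_lit 2056) (nat_lit 142) (.e (nat_lit 704589) (nat_lit 3) .nil))))))) (.g (nat_lit 1) (.e (nat_lit 174724) (nat_lit 0) .nil) .nil))) 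
(.lf (nat_lit 503727) (.g (nat_lit 5166) (.e (nat_lit 163979) (nat_lit 30) (.e (nat_lit 573493) (nat_lit 15) (.e (nat_lit 81956) (nat_lit 23) (.e (nat_lit 98362) (nat_lit 26) (.e (nat_lit 426025) (nat_lit 0) (.e (nat_lit 3399) (nat_lit 211) (.e (nat_lit 647180) (nat_lit 3) .nil))))))) (.g (nat_lit 1) (.e (nat_lit 176129) (nat_lit 0) .nil) .nil)))))) 
(.nd (nat_lit 7) (.nd (nat_lit 8) (.nd (nat_lit 9) 
(.lf (nat_lit 502895) (.g (nat_lit 3517) (.e (nat_lit 163979) (nat_lit 30) (.e (nat_lit 573489) (nat_lit 14) (.e (nat_lit 73754) (nat_lit 8) (.e (nat_lit 557105) (nat_lit 14) (.e (nat_lit 180251) (nat_lit 10) (.e (nat_lit 573475) (nat_lit 12) (.e (nat_lit 57503) (nat_lit 38) (.e (nat_lit 638994) (nat_lit 7) .nil)))))))) (.g (nat_lit 1) (.e (nat_lit 174048) (nat_lit 0) .nil) .nil))) 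
(.lf (nat_lit 503407) (.g (nat_lit 3926) (.e (nat_lit 163979) (nat_lit 30) (.e (nat_lit 573492) (nat_lit 15) (.e (nat_lit 81956) (nat_lit 23) (.e (nat_lit 98356) (nat_lit 26) (.e (nat_lit 426376) (nat_lit 15) (.e (nat_lit 2056) (nat_lit 142) (.e (nat_lit 704589) (nat_lit 3) .nil))))))) (.g (nat_lit 1) (.e (nat_lit 175210) (nat_lit 0) .nil) .nil)))) (.nd (nat_lit 9) 
(.lf (nat_lit 503151) (.g (nat_lit 4238) (.e (nat_lit 163979) (nat_lit 30) (.e (nat_lit 573489) (nat_lit 14) (.e (nat_lit 73755) (nat_lit 8) (.e (nat_lit 557105) (nat_lit 14) (.e (nat_lit 180252) (nat_lit 10) (.e (nat_lit 573473) (nat_lit 12) (.e (nat_lit 57500) (nat_lit 37) (.e (nat_lit 630800) (nat_lit 7) .nil)))))))) (.g (nat_lit 1) (.e (nat_lit 174576) (nat_lit 0) .nil) .nil))) 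
(.lf (nat_lit 503663) (.g (nat_lit 3529) (.e (nat_lit 163979) (nat_lit 30) (.e (nat_lit 573493) (nat_lit 15) (.e (nat_lit 81956) (nat_lit 23) (.e (nat_lit 98356) (nat_lit 26) (.e (nat_lit 426363) (nat_lit 15) (.e (nat_lit 7936) (nat_lit 142) (.e (nat_lit 704589) (nat_lit 3) .nil))))))) (.g (nat_lit 1) (.e (nat_lit 175999) (nat_lit 0) .nil) .nil))))) (.nd (nat_lit 8) (.nd (nat_lit 9) 
(.lf (nat_lit 503023) (.g (nat_lit 3485) (.e (nat_lit 163979) (nat_lit 30) (.e (nat_lit 573489) (nat_lit 14) (.e (nat_lit 73755) (nat_lit 8) (.e (nat_lit 557103) (nat_lit 14) (.e (nat_lit 180250) (nat_lit 10) (.e (nat_lit 573473) (nat_lit 12) (.e (nat_lit 57503) (nat_lit 38) (.e (nat_lit 638994) (nat_lit 7) .nil)))))))) (.g (nat_lit 1) (.e (nat_lit 174320) (nat_lit 0) .nil) .nil))) 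
(.lf (nat_lit 503535) (.g (nat_lit 3472) (.e (nat_lit 163979) (nat_lit 30) (.e (nat_lit 573493) (nat_lit 15) (.e (nat_lit 81953) (nat_lit 22) (.e (nat_lit 90170) (nat_lit 13) (.e (nat_lit 172134) (nat_lit 15) .nil))))) (.g (nat_lit 0) (.e (nat_lit 175726) (nat_lit 0) .nil) .nil)))) (.nd (nat_lit 9) 
(.lf (nat_lit 503279) (.g (nat_lit 3316) (.e (nat_lit 163979) (nat_lit 30) (.e (nat_lit 573491) (nat_lit 15) (.e (nat_lit 81954) (nat_lit 23) (.e (nat_lit 98359) (nat_lit 26) (.e (nat_lit 426025) (nat_lit 0) (.e (nat_lit 3397) (nat_lit 211) (.e (nat_lit 647180) (nat_lit 3) .nil))))))) (.g (nat_lit 1) (.e (nat_lit 174826) (nat_lit 0) .nil) .nil))) 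
(.lf (nat_lit 503791) (.g (nat_lit 4267) (.e (nat_lit 163979) (nat_lit 30) (.e (nat_lit 573493) (nat_lit 15) (.e (nat_lit 81956) (nat_lit 23) (.e (nat_lit 98384) (nat_lit 32) (.e (nat_lit 475204) (nat_lit 40) .nil))))) (.g (nat_lit 0) (.e (nat_lit 176341) (nat_lit 0) .nil) .nil)))))))) (.nd (nat_lit 5) (.nd (nat_lit 6) (.nd (nat_lit 7) (.nd (nat_lit 8) (.nd (nat_lit 9) 
(.lf (nat_lit 502815) (.g (nat_lit 2127) (.e (nat_lit 163979) (nat_lit 30) (.e (nat_lit 573488) (nat_lit 14) (.e (nat_lit 73755) (nat_lit 8) (.e (nat_lit 557104) (nat_lit 14) (.e (nat_lit 180251) (nat_lit 10) .nil))))) (.g (nat_lit 0) (.e (nat_lit 173942) (nat_lit 0) .nil) .nil))) 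
(.lf (nat_lit 503327) (.g (nat_lit 3972) (.e (nat_lit 163979) (nat_lit 30) (.e (nat_lit 573491) (nat_lit 15) (.e (nat_lit 81954) (nat_lit 23) (.e (nat_lit 98386) (nat_lit 32) (.e (nat_lit 475199) (nat_lit 40) (.e (nat_lit 704589) (nat_lit 3) .nil)))))) (.g (nat_lit 1) (.e (nat_lit 174933) (nat_lit 0) .nil) .nil)))) (.nd (nat_lit 9) 
(.lf (nat_lit 503071) (.g (nat_lit 2557) (.e (nat_lit 163979) (nat_lit 30) (.e (nat_lit 573489) (nat_lit 14) (.e (nat_lit 73755) (nat_lit 8) (.e (nat_lit 557104) (nat_lit 14) (.e (nat_lit 180244) (nat_lit 5) (.e (nat_lit 532481) (nat_lit 0) (.e (nat_lit 2264) (nat_lit 149) (.e (nat_lit 761899) (nat_lit 15) .nil)))))))) (.g (nat_lit 1) (.e (nat_lit 174392) (nat_lit 0) .nil) .nil))) 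
(.lf (nat_lit 503583) (.g (nat_lit 3331) (.e (nat_lit 163979) (nat_lit 30) (.e (nat_lit 573493) (nat_lit 15) (.e (nat_lit 81954) (nat_lit 23) (.e (nat_lit 98359) (nat_lit 26) (.e (nat_lit 426022) (nat_lit 0) (.e (nat_lit 3397) (nat_lit 211) (.e (nat_lit 647180) (nat_lit 3) .nil))))))) (.g (nat_lit 1) (.e (nat_lit 175819) (nat_lit 0) .nil) .nil))))) (.nd (nat_lit 8) (.nd (nat_lit 9) 
(.lf (nat_lit 502943) (.g (nat_lit 2621) (.e (nat_lit 163979) (nat_lit 30) (.e (nat_lit 573489) (nat_lit 14) (.e (nat_lit 73755) (nat_lit 8) (.e (nat_lit 557097) (nat_lit 13) (.e (nat_lit 172066) (nat_lit 3) (.e (nat_lit 204814) (nat_lit 17) (.e (nat_lit 2270) (nat_lit 149) (.e (nat_lit 761899) (nat_lit 15) .nil)))))))) (.g (nat_lit 1) (.e (nat_lit 174131) (nat_lit 0) .nil) .nil))) 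
(.lf (nat_lit 503455) (.g (nat_lit 4802) (.e (nat_lit 163979) (nat_lit 30) (.e (nat_lit 573492) (nat_lit 15) (.e (nat_lit 81956) (nat_lit 23) (.e (nat_lit 98384) (nat_lit 32) (.e (nat_lit 475199) (nat_lit 40) (.e (nat_lit 704589) (nat_lit 3) .nil)))))) (.g (nat_lit 1) (.e (nat_lit 175347) (nat_lit 0) .nil) .nil)))) (.nd (nat_lit 9) 
(.lf (nat_lit 503199) (.g (nat_lit 2347) (.e (nat_lit 163979) (nat_lit 30) (.e (nat_lit 573491) (nat_lit 15) (.e (nat_lit 81951) (nat_lit 22) (.e (nat_lit 90170) (nat_lit 13) (.e (nat_lit 172046) (nat_lit 0) .nil))))) (.g (nat_lit 0) (.e (nat_lit 174670) (nat_lit 0) .nil) .nil))) 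
(.lf (nat_lit 503711) (.g (nat_lit 3076) (.e (nat_lit 163979) (nat_lit 30) (.e (nat_lit 573493) (nat_lit 15) (.e (nat_lit 81956) (nat_lit 23) (.e (nat_lit 98359) (nat_lit 26) (.e (nat_lit 426414) (nat_lit 15) (.e (nat_lit 2057) (nat_lit 142) (.e (nat_lit 704589) (nat_lit 3) .nil))))))) (.g (nat_lit 1) (.e (nat_lit 176103) (nat_lit 0) .nil) .nil)))))) 
(.nd (nat_lit 7) (.nd (nat_lit 8) (.nd (nat_lit 9) 
(.lf (nat_lit 502879) (.g (nat_lit 2357) (.e (nat_lit 163979) (nat_lit 30) (.e (nat_lit 573489) (nat_lit 14) (.e (nat_lit 73754) (nat_lit 8) (.e (nat_lit 557101) (nat_lit 13) (.e (nat_lit 172066) (nat_lit 3) (.e (nat_lit 204817) (nat_lit 17) (.e (nat_lit 7936) (nat_lit 149) (.e (nat_lit 761894) (nat_lit 15) .nil)))))))) (.g (nat_lit 1) (.e (nat_lit 174026) (nat_lit 0) .nil) .nil))) 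
(.lf (nat_lit 503391) (.g (nat_lit 1758) (.e (nat_lit 163979) (nat_lit 30) (.e (nat_lit 573492) (nat_lit 15) (.e (nat_lit 81956) (nat_lit 23) (.e (nat_lit 98355) (nat_lit 26) (.e (nat_lit 425994) (nat_lit 0) .nil))))) (.g (nat_lit 0) (.e (nat_lit 175156) (nat_lit 0) .nil) .nil)))) (.nd (nat_lit 9) 
(.lf (nat_lit 503135) (.g (nat_lit 3358) (.e (nat_lit 163979) (nat_lit 30) (.e (nat_lit 573489) (nat_lit 14) (.e (nat_lit 73755) (nat_lit 8) (.e (nat_lit 557105) (nat_lit 14) (.e (nat_lit 180250) (nat_lit 10) (.e (nat_lit 573475) (nat_lit 12) (.e (nat_lit 57503) (nat_lit 38) (.e (nat_lit 638996) (nat_lit 7) .nil)))))))) (.g (nat_lit 1) (.e (nat_lit 174551) (nat_lit 0) .nil) .nil))) 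
(.lf (nat_lit 503647) (.g (nat_lit 3515) (.e (nat_lit 163979) (nat_lit 30) (.e (nat_lit 573493) (nat_lit 15) (.e (nat_lit 81956) (nat_lit 23) (.e (nat_lit 98356) (nat_lit 26) (.e (nat_lit 426360) (nat_lit 15) (.e (nat_lit 2049) (nat_lit 142) (.e (nat_lit 704589) (nat_lit 3) .nil))))))) (.g (nat_lit 1) (.e (nat_lit 175978) (nat_lit 0) .nil) .nil))))) (.nd (nat_lit 8) (.nd (nat_lit 9) 
(.lf (nat_lit 503007) (.g (nat_lit 2619) (.e (nat_lit 163979) (nat_lit 30) (.e (nat_lit 573489) (nat_lit 14) (.e (nat_lit 73755) (nat_lit 8) (.e (nat_lit 557101) (nat_lit 13) .nil)))) (.g (nat_lit 0) (.e (nat_lit 174260) (nat_lit 0) .nil) .nil))) 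
(.lf (nat_lit 503519) (.g (nat_lit 3026) (.e (nat_lit 163979) (nat_lit 30) (.e (nat_lit 573493) (nat_lit 15) (.e (nat_lit 81953) (nat_lit 22) (.e (nat_lit 90170) (nat_lit 13) (.e (nat_lit 172046) (nat_lit 0) (.e (nat_lit 3407) (nat_lit 212) (.e (nat_lit 655375) (nat_lit 3) .nil))))))) (.g (nat_lit 1) (.e (nat_lit 175680) (nat_lit 0) .nil) .nil)))) (.nd (nat_lit 9) 
(.lf (nat_lit 503263) (.g (nat_lit 2474) (.e (nat_lit 163979) (nat_lit 30) (.e (nat_lit 573491) (nat_lit 15) (.e (nat_lit 81954) (nat_lit 23) (.e (nat_lit 98356) (nat_lit 26) (.e (nat_lit 433920) (nat_lit 19) (.e (nat_lit 114432) (nat_lit 3) .nil)))))) (.g (nat_lit 1) (.e (nat_lit 174804) (nat_lit 0) .nil) .nil))) 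
(.lf (nat_lit 503775) (.g (nat_lit 3545) (.e (nat_lit 163979) (nat_lit 30) (.e (nat_lit 573493) (nat_lit 15) (.e (nat_lit 81956) (nat_lit 23) (.e (nat_lit 98368) (nat_lit 27) (.e (nat_lit 434210) (nat_lit 18) (.e (nat_lit 5543) (nat_lit 306) (.e (nat_lit 2610) (nat_lit 163) .nil))))))) (.g (nat_lit 1) (.e (nat_lit 176293) (nat_lit 0) .nil) .nil))))))) 
(.nd (nat_lit 6) (.nd (nat_lit 7) (.nd (nat_lit 8) (.nd (nat_lit 9) 
(.lf (nat_lit 502847) (.g (nat_lit 3193) (.e (nat_lit 163979) (nat_lit 30) (.e (nat_lit 573489) (nat_lit 14) (.e (nat_lit 73753) (nat_lit 8) (.e (nat_lit 557103) (nat_lit 14) (.e (nat_lit 180250) (nat_lit 10) (.e (nat_lit 573475) (nat_lit 12) (.e (nat_lit 57503) (nat_lit 38) (.e (nat_lit 638995) (nat_lit 7) .nil)))))))) (.g (nat_lit 1) (.e (nat_lit 173978) (nat_lit 0) .nil) .nil))) 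
(.lf (nat_lit 503359) (.g (nat_lit 4422) (.e (nat_lit 163979) (nat_lit 30) (.e (nat_lit 573492) (nat_lit 15) (.e (nat_lit 81951) (nat_lit 22) (.e (nat_lit 90170) (nat_lit 13) (.e (nat_lit 172052) (nat_lit 0) .nil))))) (.g (nat_lit 0) (.e (nat_lit 175021) (nat_lit 0) .nil) .nil)))) (.nd (nat_lit 9) 
(.lf (nat_lit 503103) (.g (nat_lit 2778) (.e (nat_lit 163979) (nat_lit 30) (.e (nat_lit 573489) (nat_lit 14) (.e (nat_lit 73755) (nat_lit 8) (.e (nat_lit 557104) (nat_lit 14) (.e (nat_lit 180250) (nat_lit 10) (.e (nat_lit 573478) (nat_lit 12) (.e (nat_lit 57500) (nat_lit 37) (.e (nat_lit 630800) (nat_lit 7) .nil)))))))) (.g (nat_lit 1) (.e (nat_lit 174517) (nat_lit 0) .nil) .nil))) 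
(.lf (nat_lit 503615) (.g (nat_lit 3331) (.e (nat_lit 163979) (nat_lit 30) (.e (nat_lit 573493) (nat_lit 15) (.e (nat_lit 81954) (nat_lit 23) (.e (nat_lit 98384) (nat_lit 32) (.e (nat_lit 475195) (nat_lit 40) .nil))))) (.g (nat_lit 0) (.e (nat_lit 175889) (nat_lit 0) .nil) .nil))))) (.nd (nat_lit 8) (.nd (nat_lit 9) 
(.lf (nat_lit 502975) (.g (nat_lit 4549) (.e (nat_lit 163979) (nat_lit 30) (.e (nat_lit 573489) (nat_lit 14) (.e (nat_lit 73755) (nat_lit 8) (.e (nat_lit 557098) (nat_lit 13) (.e (nat_lit 172065) (nat_lit 3) (.e (nat_lit 204817) (nat_lit 17) (.e (nat_lit 7936) (nat_lit 149) (.e (nat_lit 761897) (nat_lit 15) .nil)))))))) (.g (nat_lit 1) (.e (nat_lit 174204) (nat_lit 0) .nil) .nil))) 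
(.lf (nat_lit 503487) (.g (nat_lit 4565) (.e (nat_lit 163979) (nat_lit 30) (.e (nat_lit 573493) (nat_lit 15) (.e (nat_lit 81951) (nat_lit 22) (.e (nat_lit 90170) (nat_lit 13) (.e (nat_lit 172136) (nat_lit 15) (.e (nat_lit 2059) (nat_lit 142) (.e (nat_lit 704589) (nat_lit 3) .nil))))))) (.g (nat_lit 1) (.e (nat_lit 175562) (nat_lit 0) .nil) .nil)))) (.nd (nat_lit 9) 
(.lf (nat_lit 503231) (.g (nat_lit 2171) (.e (nat_lit 163979) (nat_lit 30) (.e (nat_lit 573491) (nat_lit 15) (.e (nat_lit 81954) (nat_lit 23) (.e (nat_lit 98356) (nat_lit 26) (.e (nat_lit 426360) (nat_lit 15) .nil))))) (.g (nat_lit 0) (.e (nat_lit 174772) (nat_lit 0) .nil) .nil))) 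
(.lf (nat_lit 503743) (.g (nat_lit 5099) (.e (nat_lit 163979) (nat_lit 30) (.e (nat_lit 573493) (nat_lit 15) (.e (nat_lit 81956) (nat_lit 23) (.e (nat_lit 98365) (nat_lit 26) (.e (nat_lit 426387) (nat_lit 15) .nil))))) (.g (nat_lit 0) (.e (nat_lit 176164) (nat_lit 0) .nil) .nil)))))) (.nd (nat_lit 7) (.nd (nat_lit 8) (.nd (nat_lit 9) 
(.lf (nat_lit 502911) (.g (nat_lit 4260) (.e (nat_lit 163979) (nat_lit 30) (.e (nat_lit 573489) (nat_lit 14) (.e (nat_lit 73754) (nat_lit 8) (.e (nat_lit 557105) (nat_lit 14) (.e (nat_lit 180252) (nat_lit 10) (.e (nat_lit 573475) (nat_lit 12) (.e (nat_lit 57500) (nat_lit 37) (.e (nat_lit 630799) (nat_lit 7) .nil)))))))) (.g (nat_lit 1) (.e (nat_lit 174064) (nat_lit 0) .nil) .nil))) 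
(.lf (nat_lit 503423) (.g (nat_lit 3043) (.e (nat_lit 163979) (nat_lit 30) (.e (nat_lit 573492) (nat_lit 15) (.e (nat_lit 81956) (nat_lit 23) (.e (nat_lit 98359) (nat_lit 26) .nil)))) (.g (nat_lit 0) (.e (nat_lit 175236) (nat_lit 0) .nil) .nil)))) (.nd (nat_lit 9) 
(.lf (nat_lit 503167) (.g (nat_lit 2446) (.e (nat_lit 163979) (nat_lit 30) (.e (nat_lit 573489) (nat_lit 14) (.e (nat_lit 73755) (nat_lit 8) (.e (nat_lit 557105) (nat_lit 14) (.e (nat_lit 180252) (nat_lit 10) (.e (nat_lit 573474) (nat_lit 12) (.e (nat_lit 65280) (nat_lit 38) (.e (nat_lit 638995) (nat_lit 7) .nil)))))))) (.g (nat_lit 1) (.e (nat_lit 174592) (nat_lit 0) .nil) .nil))) 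
(.lf (nat_lit 503679) (.g (nat_lit 3480) (.e (nat_lit 163979) (nat_lit 30) (.e (nat_lit 573493) (nat_lit 15) (.e (nat_lit 81956) (nat_lit 23) (.e (nat_lit 98356) (nat_lit 26) (.e (nat_lit 426440) (nat_lit 19) (.e (nat_lit 114432) (nat_lit 3) .nil)))))) (.g (nat_lit 1) (.e (nat_lit 176018) (nat_lit 0) .nil) .nil))))) (.nd (nat_lit 8) (.nd (nat_lit 9) 
(.lf (nat_lit 503039) (.g (nat_lit 4197) (.e (nat_lit 163979) (nat_lit 30) (.e (nat_lit 573489) (nat_lit 14) (.e (nat_lit 73755) (nat_lit 8) (.e (nat_lit 557103) (nat_lit 14) (.e (nat_lit 180250) (nat_lit 10) (.e (nat_lit 573475) (nat_lit 12) (.e (nat_lit 57501) (nat_lit 37) (.e (nat_lit 630800) (nat_lit 7) .nil)))))))) (.g (nat_lit 1) (.e (nat_lit 174336) (nat_lit 0) .nil) .nil))) 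
(.lf (nat_lit 503551) (.g (nat_lit 5501) (.e (nat_lit 163979) (nat_lit 30) (.e (nat_lit 573493) (nat_lit 15) (.e (nat_lit 81953) (nat_lit 22) (.e (nat_lit 90185) (nat_lit 17) (.e (nat_lit 237583) (nat_lit 1) .nil))))) (.g (nat_lit 0) (.e (nat_lit 175774) (nat_lit 0) .nil) .nil)))) (.nd (nat_lit 9) 
(.lf (nat_lit 503295) (.g (nat_lit 2584) (.e (nat_lit 163979) (nat_lit 30) (.e (nat_lit 573491) (nat_lit 15) (.e (nat_lit 81954) (nat_lit 23) (.e (nat_lit 98362) (nat_lit 26) (.e (nat_lit 426025) (nat_lit 0) (.e (nat_lit 3399) (nat_lit 211) (.e (nat_lit 647180) (nat_lit 3) .nil))))))) (.g (nat_lit 1) (.e (nat_lit 174864) (nat_lit 0) .nil) .nil))) 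
(.lf (nat_lit 503807) (.g (nat_lit 3802) (.e (nat_lit 163999) (nat_lit 38) (.e (nat_lit 639020) (nat_lit 16) (.e (nat_lit 65571) (nat_lit 3) (.e (nat_lit 98370) (nat_lit 28) (.e (nat_lit 442433) (nat_lit 25) (.e (nat_lit 245773) (nat_lit 3) .nil)))))) (.g (nat_lit 1) (.e (nat_lit 176405) (nat_lit 0) .nil) .nil)))))))))))))

noncomputable def tv5552 : DT := (.nd (nat_lit 0) (.nd (nat_lit 1) (.nd (nat_lit 2) (.nd (nat_lit 3) (.nd (nat_lit 4) (.nd (nat_lit 5) (.nd (nat_lit 6) (.nd (nat_lit 7) (.nd (nat_lit 8) (.nd (nat_lit 9) 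
(.lf (nat_lit 503808) (.g (nat_lit 2818) (.e (nat_lit 163999) (nat_lit 38) (.e (nat_lit 639020) (nat_lit 16) (.e (nat_lit 65627) (nat_lit 13) (.e (nat_lit 393283) (nat_lit 24) (.e (nat_lit 434275) (nat_lit 39) (.e (nat_lit 663584) (nat_lit 12) .nil)))))) (.g (nat_lit 1) (.e (nat_lit 176406) (nat_lit 0) .nil) .nil))) 
(.lf (nat_lit 504320) (.g (nat_lit 2364) (.e (nat_lit 164176) (nat_lit 154) (.e (nat_lit 57409) (nat_lit 12) (.e (nat_lit 336454) (nat_lit 34) (.e (nat_lit 483384) (nat_lit 23) .nil)))) (.g (nat_lit 0) (.e (nat_lit 178551) (nat_lit 0) .nil) .nil)))) (.nd (nat_lit 9) 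
(.lf (nat_lit 504064) (.g (nat_lit 1560) (.e (nat_lit 164023) (nat_lit 46) (.e (nat_lit 704737) (nat_lit 11) (.e (nat_lit 16416) (nat_lit 3) (.e (nat_lit 204861) (nat_lit 26) (.e (nat_lit 336186) (nat_lit 11) .nil))))) (.g (nat_lit 0) (.e (nat_lit 177390) (nat_lit 0) .nil) .nil))) 
(.lf (nat_lit 504576) (.g (nat_lit 2259) (.e (nat_lit 164182) (nat_lit 154) (.e (nat_lit 57409) (nat_lit 12) (.e (nat_lit 336454) (nat_lit 34) (.e (nat_lit 483396) (nat_lit 24) .nil)))) (.g (nat_lit 0) (.e (nat_lit 178869) (nat_lit 0) .nil) .nil))))) (.nd (nat_lit 8) (.nd (nat_lit 9) 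
(.lf (nat_lit 503936) (.g (nat_lit 4944) (.e (nat_lit 164019) (nat_lit 45) (.e (nat_lit 696344) (nat_lit 8) (.e (nat_lit 172067) (nat_lit 3) (.e (nat_lit 204855) (nat_lit 26) (.e (nat_lit 336176) (nat_lit 10) (.e (nat_lit 344130) (nat_lit 26) (.e (nat_lit 557090) (nat_lit 12) .nil))))))) (.g (nat_lit 1) (.e (nat_lit 177221) (nat_lit 0) .nil) .nil))) 
(.lf (nat_lit 504448) (.g (nat_lit 2237) (.e (nat_lit 164179) (nat_lit 154) (.e (nat_lit 57379) (nat_lit 3) (.e (nat_lit 98342) (nat_lit 20) (.e (nat_lit 221212) (nat_lit 22) (.e (nat_lit 196669) (nat_lit 14) .nil))))) (.g (nat_lit 0) (.e (nat_lit 178704) (nat_lit 0) .nil) .nil)))) (.nd (nat_lit 9) 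
(.lf (nat_lit 504192) (.g (nat_lit 2061) (.e (nat_lit 164096) (nat_lit 86) (.e (nat_lit 532583) (nat_lit 26) (.e (nat_lit 426197) (nat_lit 9) (.e (nat_lit 426562) (nat_lit 33) (.e (nat_lit 385041) (nat_lit 19) (.e (nat_lit 164289) (nat_lit 224) .nil)))))) (.g (nat_lit 1) (.e (nat_lit 177590) (nat_lit 0) .nil) .nil))) 
(.lf (nat_lit 504704) (.g (nat_lit 2960) (.e (nat_lit 171776) (nat_lit 160) (.e (nat_lit 57372) (nat_lit 2) (.e (nat_lit 90174) (nat_lit 14) (.e (nat_lit 180250) (nat_lit 10) (.e (nat_lit 573482) (nat_lit 13) .nil))))) (.g (nat_lit 0) (.e (nat_lit 179062) (nat_lit 0) .nil) .nil)))))) (.nd (nat_lit 7) (.nd (nat_lit 8) (.nd (nat_lit 9) 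
(.lf (nat_lit 503872) (.g (nat_lit 2805) (.e (nat_lit 164017) (nat_lit 44) (.e (nat_lit 688138) (nat_lit 5) (.e (nat_lit 3062) (nat_lit 190) (.e (nat_lit 475179) (nat_lit 24) (.e (nat_lit 516149) (nat_lit 9) (.e (nat_lit 426320) (nat_lit 12) (.e (nat_lit 483072) (nat_lit 3) .nil))))))) (.g (nat_lit 1) (.e (nat_lit 177125) (nat_lit 0) .nil) .nil))) 
(.lf (nat_lit 504384) (.g (nat_lit 2819) (.e (nat_lit 164178) (nat_lit 154) (.e (nat_lit 57379) (nat_lit 3) (.e (nat_lit 98341) (nat_lit 20) (.e (nat_lit 221210) (nat_lit 22) (.e (nat_lit 196668) (nat_lit 14) .nil))))) (.g (nat_lit 0) (.e (nat_lit 178629) (nat_lit 0) .nil) .nil)))) (.nd (nat_lit 9) 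
(.lf (nat_lit 504128) (.g (nat_lit 1614) (.e (nat_lit 164092) (nat_lit 82) (.e (nat_lit 500046) (nat_lit 16) (.e (nat_lit 16463) (nat_lit 13) (.e (nat_lit 483332) (nat_lit 0) .nil)))) (.g (nat_lit 0) (.e (nat_lit 177474) (nat_lit 0) .nil) .nil))) 
(.lf (nat_lit 504640) (.g (nat_lit 1405) (.e (nat_lit 164183) (nat_lit 154) (.e (nat_lit 57379) (nat_lit 3) (.e (nat_lit 98342) (nat_lit 20) (.e (nat_lit 221210) (nat_lit 22) .nil)))) (.g (nat_lit 0) (.e (nat_lit 178957) (nat_lit 0) .nil) .nil))))) (.nd (nat_lit 8) (.nd (nat_lit 9) 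
(.lf (nat_lit 504000) (.g (nat_lit 4390) (.e (nat_lit 164020) (nat_lit 45) (.e (nat_lit 696344) (nat_lit 8) (.e (nat_lit 172067) (nat_lit 3) (.e (nat_lit 204868) (nat_lit 29) (.e (nat_lit 360473) (nat_lit 8) (.e (nat_lit 557090) (nat_lit 12) .nil)))))) (.g (nat_lit 1) (.e (nat_lit 177297) (nat_lit 0) .nil) .nil))) 
(.lf (nat_lit 504512) (.g (nat_lit 1588) (.e (nat_lit 164179) (nat_lit 154) (.e (nat_lit 57412) (nat_lit 12) (.e (nat_lit 336295) (nat_lit 15) (.e (nat_lit 3253) (nat_lit 197) .nil)))) (.g (nat_lit 0) (.e (nat_lit 178787) (nat_lit 0) .nil) .nil)))) (.nd (nat_lit 9) 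
(.lf (nat_lit 504256) (.g (nat_lit 1682) (.e (nat_lit 164112) (nat_lit 118) (.e (nat_lit 794637) (nat_lit 11) (.e (nat_lit 336077) (nat_lit 9) (.e (nat_lit 336438) (nat_lit 31) (.e (nat_lit 458769) (nat_lit 16) (.e (nat_lit 164291) (nat_lit 224) .nil)))))) (.g (nat_lit 1) (.e (nat_lit 177773) (nat_lit 0) .nil) .nil))) 
(.lf (nat_lit 504768) (.g (nat_lit 2378) (.e (nat_lit 164207) (nat_lit 176) (.e (nat_lit 2817) (nat_lit 181) (.e (nat_lit 311312) (nat_lit 2) (.e (nat_lit 196674) (nat_lit 15) (.e (nat_lit 81953) (nat_lit 22) .nil))))) (.g (nat_lit 0) (.e (nat_lit 179167) (nat_lit 0) .nil) .nil))))))) (.nd (nat_lit 6) (.nd (nat_lit 7) (.nd (nat_lit 8) (.nd (nat_lit 9) 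
(.lf (nat_lit 503840) (.g (nat_lit 2613) (.e (nat_lit 164047) (nat_lit 55) (.e (nat_lit 778462) (nat_lit 11) (.e (nat_lit 24604) (nat_lit 2) (.e (nat_lit 90185) (nat_lit 17) (.e (nat_lit 237605) (nat_lit 9) (.e (nat_lit 426428) (nat_lit 17) (.e (nat_lit 90165) (nat_lit 12) .nil))))))) (.g (nat_lit 1) (.e (nat_lit 176958) (nat_lit 0) .nil) .nil))) 
(.lf (nat_lit 504352) (.g (nat_lit 1620) (.e (nat_lit 164177) (nat_lit 154) (.e (nat_lit 57406) (nat_lit 12) (.e (nat_lit 336322) (nat_lit 18) (.e (nat_lit 204866) (nat_lit 28) (.e (nat_lit 352277) (nat_lit 11) .nil))))) (.g (nat_lit 0) (.e (nat_lit 178592) (nat_lit 0) .nil) .nil)))) (.nd (nat_lit 9) 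
(.lf (nat_lit 504096) (.g (nat_lit 2365) (.e (nat_lit 171776) (nat_lit 64) (.e (nat_lit 98372) (nat_lit 29) (.e (nat_lit 450579) (nat_lit 5) (.e (nat_lit 532530) (nat_lit 9) (.e (nat_lit 335999) (nat_lit 1) .nil))))) (.g (nat_lit 0) (.e (nat_lit 177434) (nat_lit 0) .nil) .nil))) 
(.lf (nat_lit 504608) (.g (nat_lit 1279) (.e (nat_lit 164183) (nat_lit 154) (.e (nat_lit 57373) (nat_lit 2) (.e (nat_lit 90165) (nat_lit 12) (.e (nat_lit 164042) (nat_lit 55) .nil)))) (.g (nat_lit 0) (.e (nat_lit 178911) (nat_lit 0) .nil) .nil))))) (.nd (nat_lit 8) (.nd (nat_lit 9) 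
(.lf (nat_lit 503968) (.g (nat_lit 4594) (.e (nat_lit 164020) (nat_lit 45) (.e (nat_lit 696343) (nat_lit 8) (.e (nat_lit 172065) (nat_lit 3) (.e (nat_lit 204869) (nat_lit 29) (.e (nat_lit 360474) (nat_lit 8) (.e (nat_lit 557091) (nat_lit 12) .nil)))))) (.g (nat_lit 1) (.e (nat_lit 177265) (nat_lit 0) .nil) .nil))) 
(.lf (nat_lit 504480) (.g (nat_lit 1390) (.e (nat_lit 164179) (nat_lit 154) (.e (nat_lit 57407) (nat_lit 12) (.e (nat_lit 336454) (nat_lit 34) (.e (nat_lit 483390) (nat_lit 23) .nil)))) (.g (nat_lit 0) (.e (nat_lit 178747) (nat_lit 0) .nil) .nil)))) (.nd (nat_lit 9) 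
(.lf (nat_lit 504224) (.g (nat_lit 1667) (.e (nat_lit 164108) (nat_lit 116) (.e (nat_lit 778325) (nat_lit 6) (.e (nat_lit 81953) (nat_lit 22) (.e (nat_lit 98048) (nat_lit 2) .nil)))) (.g (nat_lit 0) (.e (nat_lit 177715) (nat_lit 0) .nil) .nil))) 
(.lf (nat_lit 504736) (.g (nat_lit 2551) (.e (nat_lit 164207) (nat_lit 176) (.e (nat_lit 2797) (nat_lit 180) (.e (nat_lit 303119) (nat_lit 3) (.e (nat_lit 204878) (nat_lit 31) (.e (nat_lit 376865) (nat_lit 22) .nil))))) (.g (nat_lit 0) (.e (nat_lit 179113) (nat_lit 0) .nil) .nil)))))) (.nd (nat_lit 7) (.nd (nat_lit 8) (.nd (nat_lit 9) 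
(.lf (nat_lit 503904) (.g (nat_lit 4257) (.e (nat_lit 164018) (nat_lit 45) (.e (nat_lit 696344) (nat_lit 8) (.e (nat_lit 172064) (nat_lit 2) (.e (nat_lit 196666) (nat_lit 13) (.e (nat_lit 65617) (nat_lit 10) (.e (nat_lit 344132) (nat_lit 26) (.e (nat_lit 557094) (nat_lit 12) .nil))))))) (.g (nat_lit 1) (.e (nat_lit 177187) (nat_lit 0) .nil) .nil))) 
(.lf (nat_lit 504416) (.g (nat_lit 1798) (.e (nat_lit 164178) (nat_lit 154) (.e (nat_lit 57411) (nat_lit 12) (.e (nat_lit 336456) (nat_lit 34) (.e (nat_lit 483399) (nat_lit 25) .nil)))) (.g (nat_lit 0) (.e (nat_lit 178665) (nat_lit 0) .nil) .nil)))) (.nd (nat_lit 9) 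
(.lf (nat_lit 504160) (.g (nat_lit 1596) (.e (nat_lit 164096) (nat_lit 86) (.e (nat_lit 532583) (nat_lit 26) (.e (nat_lit 426186) (nat_lit 9) (.e (nat_lit 426562) (nat_lit 33) (.e (nat_lit 385041) (nat_lit 19) (.e (nat_lit 164286) (nat_lit 224) .nil)))))) (.g (nat_lit 1) (.e (nat_lit 177558) (nat_lit 0) .nil) .nil))) 
(.lf (nat_lit 504672) (.g (nat_lit 3463) (.e (nat_lit 164183) (nat_lit 154) (.e (nat_lit 57411) (nat_lit 12) (.e (nat_lit 336019) (nat_lit 3) (.e (nat_lit 98381) (nat_lit 31) (.e (nat_lit 466967) (nat_lit 20) (.e (nat_lit 3304) (nat_lit 202) (.e (nat_lit 581376) (nat_lit 0) (.e (nat_lit 2611) (nat_lit 163) .nil)))))))) (.g (nat_lit 1) (.e (nat_lit 178998) (nat_lit 0) .nil) .nil))))) 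
(.nd (nat_lit 8) (.nd (nat_lit 9) 
(.lf (nat_lit 504032) (.g (nat_lit 4629) (.e (nat_lit 164022) (nat_lit 46) (.e (nat_lit 704629) (nat_lit 9) (.e (nat_lit 375) (nat_lit 32) (.e (nat_lit 426140) (nat_lit 3) (.e (nat_lit 204869) (nat_lit 29) (.e (nat_lit 360474) (nat_lit 8) (.e (nat_lit 557094) (nat_lit 12) .nil))))))) (.g (nat_lit 1) (.e (nat_lit 177338) (nat_lit 0) .nil) .nil))) 
(.lf (nat_lit 504544) (.g (nat_lit 1673) (.e (nat_lit 164182) (nat_lit 154) (.e (nat_lit 57375) (nat_lit 2) (.e (nat_lit 90128) (nat_lit 9) (.e (nat_lit 2705) (nat_lit 170) .nil)))) (.g (nat_lit 0) (.e (nat_lit 178827) (nat_lit 0) .nil) .nil)))) (.nd (nat_lit 9) 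
(.lf (nat_lit 504288) (.g (nat_lit 1157) (.e (nat_lit 164159) (nat_lit 152) (.e (nat_lit 1201) (nat_lit 88) (.e (nat_lit 65642) (nat_lit 15) (.e (nat_lit 3253) (nat_lit 197) .nil)))) (.g (nat_lit 0) (.e (nat_lit 177955) (nat_lit 0) .nil) .nil))) 
(.lf (nat_lit 504800) (.g (nat_lit 3322) (.e (nat_lit 164209) (nat_lit 176) (.e (nat_lit 2797) (nat_lit 180) (.e (nat_lit 303119) (nat_lit 3) (.e (nat_lit 204855) (nat_lit 26) (.e (nat_lit 336111) (nat_lit 9) .nil))))) (.g (nat_lit 0) (.e (nat_lit 179229) (nat_lit 0) .nil) .nil)))))))) (.nd (nat_lit 5) (.nd (nat_lit 6) (.nd (nat_lit 7) (.nd (nat_lit 8) (.nd (nat_lit 9) 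
(.lf (nat_lit 503824) (.g (nat_lit 1513) (.e (nat_lit 164010) (nat_lit 41) (.e (nat_lit 663583) (nat_lit 11) (.e (nat_lit 24584) (nat_lit 0) (.e (nat_lit 2355) (nat_lit 152) .nil)))) (.g (nat_lit 0) (.e (nat_lit 176461) (nat_lit 0) .nil) .nil))) 
(.lf (nat_lit 504336) (.g (nat_lit 2504) (.e (nat_lit 164177) (nat_lit 154) (.e (nat_lit 57378) (nat_lit 3) (.e (nat_lit 98341) (nat_lit 20) (.e (nat_lit 221210) (nat_lit 22) (.e (nat_lit 196668) (nat_lit 14) .nil))))) (.g (nat_lit 0) (.e (nat_lit 178573) (nat_lit 0) .nil) .nil)))) (.nd (nat_lit 9) 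
(.lf (nat_lit 504080) (.g (nat_lit 1783) (.e (nat_lit 171776) (nat_lit 62) (.e (nat_lit 57927) (nat_lit 282) (.e (nat_lit 163931) (nat_lit 17) (.e (nat_lit 466977) (nat_lit 22) (.e (nat_lit 196656) (nat_lit 11) .nil))))) (.g (nat_lit 0) (.e (nat_lit 177418) (nat_lit 0) .nil) .nil))) 
(.lf (nat_lit 504592) (.g (nat_lit 620) (.e (nat_lit 164182) (nat_lit 154) (.e (nat_lit 57411) (nat_lit 12) (.e (nat_lit 343808) (nat_lit 18) .nil))) (.g (nat_lit 0) (.e (nat_lit 178890) (nat_lit 0) .nil) .nil))))) (.nd (nat_lit 8) (.nd (nat_lit 9) 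
(.lf (nat_lit 503952) (.g (nat_lit 3916) (.e (nat_lit 164020) (nat_lit 45) (.e (nat_lit 696329) (nat_lit 5) (.e (nat_lit 2879) (nat_lit 184) (.e (nat_lit 426136) (nat_lit 3) (.e (nat_lit 204869) (nat_lit 29) (.e (nat_lit 360474) (nat_lit 8) (.e (nat_lit 557091) (nat_lit 12) .nil))))))) (.g (nat_lit 1) (.e (nat_lit 177237) (nat_lit 0) .nil) .nil))) 
(.lf (nat_lit 504464) (.g (nat_lit 1377) (.e (nat_lit 164179) (nat_lit 154) (.e (nat_lit 57406) (nat_lit 12) (.e (nat_lit 336454) (nat_lit 34) (.e (nat_lit 483401) (nat_lit 25) .nil)))) (.g (nat_lit 0) (.e (nat_lit 178724) (nat_lit 0) .nil) .nil)))) (.nd (nat_lit 9) 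
(.lf (nat_lit 504208) (.g (nat_lit 2334) (.e (nat_lit 164096) (nat_lit 86) (.e (nat_lit 532583) (nat_lit 26) (.e (nat_lit 426200) (nat_lit 9) (.e (nat_lit 426562) (nat_lit 33) (.e (nat_lit 385041) (nat_lit 19) (.e (nat_lit 164289) (nat_lit 224) .nil)))))) (.g (nat_lit 1) (.e (nat_lit 177612) (nat_lit 0) .nil) .nil))) 
(.lf (nat_lit 504720) (.g (nat_lit 2120) (.e (nat_lit 164207) (nat_lit 176) (.e (nat_lit 2795) (nat_lit 180) (.e (nat_lit 303117) (nat_lit 2) (.e (nat_lit 196672) (nat_lit 15) (.e (nat_lit 81951) (nat_lit 22) .nil))))) (.g (nat_lit 0) (.e (nat_lit 179084) (nat_lit 0) .nil) .nil)))))) (.nd (nat_lit 7) (.nd (nat_lit 8) (.nd (nat_lit 9) 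
(.lf (nat_lit 503888) (.g (nat_lit 4867) (.e (nat_lit 164018) (nat_lit 45) (.e (nat_lit 696330) (nat_lit 5) (.e (nat_lit 2878) (nat_lit 184) (.e (nat_lit 426125) (nat_lit 2) (.e (nat_lit 196666) (nat_lit 13) (.e (nat_lit 65617) (nat_lit 10) (.e (nat_lit 344132) (nat_lit 26) (.e (nat_lit 557094) (nat_lit 12) .nil)))))))) (.g (nat_lit 1) (.e (nat_lit 177142) (nat_lit 0) .nil) .nil))) 
(.lf (nat_lit 504400) (.g (nat_lit 1520) (.e (nat_lit 164178) (nat_lit 154) (.e (nat_lit 57407) (nat_lit 12) (.e (nat_lit 336454) (nat_lit 34) (.e (nat_lit 483396) (nat_lit 24) .nil)))) (.g (nat_lit 0) (.e (nat_lit 178649) (nat_lit 0) .nil) .nil)))) (.nd (nat_lit 9) 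
(.lf (nat_lit 504144) (.g (nat_lit 1716) (.e (nat_lit 164092) (nat_lit 82) (.e (nat_lit 500046) (nat_lit 16) (.e (nat_lit 16466) (nat_lit 13) (.e (nat_lit 483333) (nat_lit 0) (.e (nat_lit 7098) (nat_lit 380) .nil))))) (.g (nat_lit 0) (.e (nat_lit 177491) (nat_lit 0) .nil) .nil))) 
(.lf (nat_lit 504656) (.g (nat_lit 1256) (.e (nat_lit 164183) (nat_lit 154) (.e (nat_lit 57409) (nat_lit 12) (.e (nat_lit 336325) (nat_lit 18) (.e (nat_lit 204876) (nat_lit 31) (.e (nat_lit 376842) (nat_lit 11) .nil))))) (.g (nat_lit 0) (.e (nat_lit 178974) (nat_lit 0) .nil) .nil))))) (.nd (nat_lit 8) (.nd (nat_lit 9) 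
(.lf (nat_lit 504016) (.g (nat_lit 2067) (.e (nat_lit 164020) (nat_lit 45) (.e (nat_lit 696344) (nat_lit 8) (.e (nat_lit 172082) (nat_lit 7) (.e (nat_lit 409646) (nat_lit 18) (.e (nat_lit 303135) (nat_lit 10) (.e (nat_lit 434276) (nat_lit 39) (.e (nat_lit 663584) (nat_lit 12) .nil))))))) (.g (nat_lit 1) (.e (nat_lit 177313) (nat_lit 0) .nil) .nil))) 
(.lf (nat_lit 504528) (.g (nat_lit 2077) (.e (nat_lit 164180) (nat_lit 154) (.e (nat_lit 57411) (nat_lit 12) (.e (nat_lit 336454) (nat_lit 34) (.e (nat_lit 483385) (nat_lit 23) (.e (nat_lit 336019) (nat_lit 3) .nil))))) (.g (nat_lit 0) (.e (nat_lit 178806) (nat_lit 0) .nil) .nil)))) (.nd (nat_lit 9) 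
(.lf (nat_lit 504272) (.g (nat_lit 1998) (.e (nat_lit 164112) (nat_lit 118) (.e (nat_lit 794637) (nat_lit 11) (.e (nat_lit 336087) (nat_lit 9) (.e (nat_lit 336438) (nat_lit 31) (.e (nat_lit 458769) (nat_lit 16) (.e (nat_lit 164293) (nat_lit 224) .nil)))))) (.g (nat_lit 1) (.e (nat_lit 177789) (nat_lit 0) .nil) .nil))) 
(.lf (nat_lit 504784) (.g (nat_lit 2444) (.e (nat_lit 164208) (nat_lit 176) (.e (nat_lit 2819) (nat_lit 181) (.e (nat_lit 311315) (nat_lit 3) (.e (nat_lit 204854) (nat_lit 26) (.e (nat_lit 336138) (nat_lit 9) .nil))))) (.g (nat_lit 0) (.e (nat_lit 179194) (nat_lit 0) .nil) .nil))))))) (.nd (nat_lit 6) (.nd (nat_lit 7) (.nd (nat_lit 8) (.nd (nat_lit 9) 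
(.lf (nat_lit 503856) (.g (nat_lit 901) (.e (nat_lit 164058) (nat_lit 56) (.e (nat_lit 786457) (nat_lit 18) (.e (nat_lit 98380) (nat_lit 31) (.e (nat_lit 466954) (nat_lit 11) (.e (nat_lit 336049) (nat_lit 6) (.e (nat_lit 147498) (nat_lit 12) .nil)))))) (.g (nat_lit 1) (.e (nat_lit 177015) (nat_lit 0) .nil) .nil))) 
(.lf (nat_lit 504368) (.g (nat_lit 2052) (.e (nat_lit 164177) (nat_lit 154) (.e (nat_lit 57409) (nat_lit 12) (.e (nat_lit 336316) (nat_lit 17) (.e (nat_lit 196674) (nat_lit 15) (.e (nat_lit 81925) (nat_lit 11) .nil))))) (.g (nat_lit 0) (.e (nat_lit 178610) (nat_lit 0) .nil) .nil)))) (.nd (nat_lit 9) 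
(.lf (nat_lit 504112) (.g (nat_lit 1395) (.e (nat_lit 171776) (nat_lit 64) (.e (nat_lit 98381) (nat_lit 31) (.e (nat_lit 466977) (nat_lit 22) (.e (nat_lit 196670) (nat_lit 14) .nil)))) (.g (nat_lit 0) (.e (nat_lit 177450) (nat_lit 0) .nil) .nil))) 
(.lf (nat_lit 504624) (.g (nat_lit 2207) (.e (nat_lit 164183) (nat_lit 154) (.e (nat_lit 57378) (nat_lit 3) (.e (nat_lit 98341) (nat_lit 20) (.e (nat_lit 221210) (nat_lit 22) (.e (nat_lit 196665) (nat_lit 13) .nil))))) (.g (nat_lit 0) (.e (nat_lit 178938) (nat_lit 0) .nil) .nil))))) (.nd (nat_lit 8) (.nd (nat_lit 9) 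
(.lf (nat_lit 503984) (.g (nat_lit 4940) (.e (nat_lit 164020) (nat_lit 45) (.e (nat_lit 696344) (nat_lit 8) (.e (nat_lit 172062) (nat_lit 2) (.e (nat_lit 196666) (nat_lit 13) (.e (nat_lit 65617) (nat_lit 10) (.e (nat_lit 344133) (nat_lit 26) (.e (nat_lit 557090) (nat_lit 12) .nil))))))) (.g (nat_lit 1) (.e (nat_lit 177281) (nat_lit 0) .nil) .nil))) 
(.lf (nat_lit 504496) (.g (nat_lit 1959) (.e (nat_lit 164179) (nat_lit 154) (.e (nat_lit 57409) (nat_lit 12) (.e (nat_lit 336016) (nat_lit 2) (.e (nat_lit 90176) (nat_lit 15) (.e (nat_lit 188450) (nat_lit 23) .nil))))) (.g (nat_lit 0) (.e (nat_lit 178764) (nat_lit 0) .nil) .nil)))) (.nd (nat_lit 9) 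
(.lf (nat_lit 504240) (.g (nat_lit 1052) (.e (nat_lit 164112) (nat_lit 118) (.e (nat_lit 794635) (nat_lit 11) (.e (nat_lit 336153) (nat_lit 9) (.e (nat_lit 336437) (nat_lit 31) (.e (nat_lit 458769) (nat_lit 16) (.e (nat_lit 164293) (nat_lit 224) .nil)))))) (.g (nat_lit 1) (.e (nat_lit 177757) (nat_lit 0) .nil) .nil))) 
(.lf (nat_lit 504752) (.g (nat_lit 1131) (.e (nat_lit 164207) (nat_lit 176) (.e (nat_lit 2808) (nat_lit 180) (.e (nat_lit 303118) (nat_lit 3) (.e (nat_lit 204877) (nat_lit 31) (.e (nat_lit 376865) (nat_lit 22) .nil))))) (.g (nat_lit 0) (.e (nat_lit 179144) (nat_lit 0) .nil) .nil)))))) (.nd (nat_lit 7) (.nd (nat_lit 8) (.nd (nat_lit 9) 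
(.lf (nat_lit 503920) (.g (nat_lit 4245) (.e (nat_lit 164018) (nat_lit 45) (.e (nat_lit 696344) (nat_lit 8) (.e (nat_lit 172079) (nat_lit 7) (.e (nat_lit 409649) (nat_lit 18) (.e (nat_lit 303140) (nat_lit 10) (.e (nat_lit 434275) (nat_lit 39) (.e (nat_lit 663585) (nat_lit 12) .nil))))))) (.g (nat_lit 1) (.e (nat_lit 177203) (nat_lit 0) .nil) .nil))) 
(.lf (nat_lit 504432) (.g (nat_lit 2051) (.e (nat_lit 164179) (nat_lit 154) (.e (nat_lit 57377) (nat_lit 3) (.e (nat_lit 98342) (nat_lit 20) (.e (nat_lit 221212) (nat_lit 22) (.e (nat_lit 196669) (nat_lit 14) .nil))))) (.g (nat_lit 0) (.e (nat_lit 178686) (nat_lit 0) .nil) .nil)))) (.nd (nat_lit 9) 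
(.lf (nat_lit 504176) (.g (nat_lit 1952) (.e (nat_lit 164096) (nat_lit 86) (.e (nat_lit 532583) (nat_lit 26) (.e (nat_lit 426189) (nat_lit 9) (.e (nat_lit 426562) (nat_lit 33) (.e (nat_lit 385041) (nat_lit 19) (.e (nat_lit 164291) (nat_lit 224) .nil)))))) (.g (nat_lit 1) (.e (nat_lit 177574) (nat_lit 0) .nil) .nil))) 
(.lf (nat_lit 504688) (.g (nat_lit 1658) (.e (nat_lit 164183) (nat_lit 154) (.e (nat_lit 57411) (nat_lit 12) (.e (nat_lit 336454) (nat_lit 34) (.e (nat_lit 483385) (nat_lit 23) (.e (nat_lit 343808) (nat_lit 3) .nil))))) (.g (nat_lit 0) (.e (nat_lit 179024) (nat_lit 0) .nil) .nil))))) (.nd (nat_lit 8) (.nd (nat_lit 9) 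
(.lf (nat_lit 504048) (.g (nat_lit 3611) (.e (nat_lit 164022) (nat_lit 46) (.e (nat_lit 704738) (nat_lit 11) (.e (nat_lit 16396) (nat_lit 0) (.e (nat_lit 3238) (nat_lit 197) (.e (nat_lit 532549) (nat_lit 12) (.e (nat_lit 360473) (nat_lit 8) (.e (nat_lit 557094) (nat_lit 12) .nil))))))) (.g (nat_lit 1) (.e (nat_lit 177362) (nat_lit 0) .nil) .nil))) 
(.lf (nat_lit 504560) (.g (nat_lit 4822) (.e (nat_lit 164182) (nat_lit 154) (.e (nat_lit 57379) (nat_lit 3) (.e (nat_lit 98333) (nat_lit 18) (.e (nat_lit 164325) (nat_lit 230) (.e (nat_lit 163907) (nat_lit 12) (.e (nat_lit 426131) (nat_lit 3) (.e (nat_lit 204852) (nat_lit 26) (.e (nat_lit 336310) (nat_lit 16) .nil)))))))) (.g (nat_lit 1) (.e (nat_lit 178849) (nat_lit 0) .nil) .nil)))) 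
(.nd (nat_lit 9) 
(.lf (nat_lit 504304) (.g (nat_lit 1991) (.e (nat_lit 164176) (nat_lit 154) (.e (nat_lit 57377) (nat_lit 3) (.e (nat_lit 98342) (nat_lit 20) (.e (nat_lit 221212) (nat_lit 22) (.e (nat_lit 196681) (nat_lit 17) .nil))))) (.g (nat_lit 0) (.e (nat_lit 178534) (nat_lit 0) .nil) .nil))) 
(.lf (nat_lit 504816) (.g (nat_lit 2172) (.e (nat_lit 164210) (nat_lit 176) (.e (nat_lit 2797) (nat_lit 180) (.e (nat_lit 303117) (nat_lit 2) (.e (nat_lit 196673) (nat_lit 15) (.e (nat_lit 81951) (nat_lit 22) .nil))))) (.g (nat_lit 0) (.e (nat_lit 179271) (nat_lit 0) .nil) .nil))))))))) (.nd (nat_lit 4) (.nd (nat_lit 5) (.nd (nat_lit 6) (.nd (nat_lit 7) (.nd (nat_lit 8) (.nd (nat_lit 9) 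
(.lf (nat_lit 503816) (.g (nat_lit 1913) (.e (nat_lit 164000) (nat_lit 38) (.e (nat_lit 639020) (nat_lit 16) (.e (nat_lit 65627) (nat_lit 13) (.e (nat_lit 393282) (nat_lit 24) (.e (nat_lit 434276) (nat_lit 39) (.e (nat_lit 663584) (nat_lit 12) .nil)))))) (.g (nat_lit 1) (.e (nat_lit 176415) (nat_lit 0) .nil) .nil))) 
(.lf (nat_lit 504328) (.g (nat_lit 2000) (.e (nat_lit 164176) (nat_lit 154) (.e (nat_lit 57411) (nat_lit 12) (.e (nat_lit 336456) (nat_lit 34) (.e (nat_lit 483395) (nat_lit 24) (.e (nat_lit 344118) (nat_lit 21) .nil))))) (.g (nat_lit 0) (.e (nat_lit 178559) (nat_lit 0) .nil) .nil)))) (.nd (nat_lit 9) 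
(.lf (nat_lit 504072) (.g (nat_lit 1434) (.e (nat_lit 171776) (nat_lit 46) (.e (nat_lit 704732) (nat_lit 11) (.e (nat_lit 16416) (nat_lit 3) (.e (nat_lit 204869) (nat_lit 29) (.e (nat_lit 360474) (nat_lit 8) .nil))))) (.g (nat_lit 0) (.e (nat_lit 177404) (nat_lit 0) .nil) .nil))) 
(.lf (nat_lit 504584) (.g (nat_lit 1505) (.e (nat_lit 164182) (nat_lit 154) (.e (nat_lit 57411) (nat_lit 12) (.e (nat_lit 336320) (nat_lit 17) (.e (nat_lit 196672) (nat_lit 15) .nil)))) (.g (nat_lit 0) (.e (nat_lit 178882) (nat_lit 0) .nil) .nil))))) (.nd (nat_lit 8) (.nd (nat_lit 9) 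
(.lf (nat_lit 503944) (.g (nat_lit 2388) (.e (nat_lit 164019) (nat_lit 45) (.e (nat_lit 696344) (nat_lit 8) (.e (nat_lit 172079) (nat_lit 7) (.e (nat_lit 409648) (nat_lit 18) (.e (nat_lit 303137) (nat_lit 10) .nil))))) (.g (nat_lit 0) (.e (nat_lit 177229) (nat_lit 0) .nil) .nil))) 
(.lf (nat_lit 504456) (.g (nat_lit 1749) (.e (nat_lit 164179) (nat_lit 154) (.e (nat_lit 57406) (nat_lit 12) (.e (nat_lit 336454) (nat_lit 34) (.e (nat_lit 483388) (nat_lit 23) .nil)))) (.g (nat_lit 0) (.e (nat_lit 178716) (nat_lit 0) .nil) .nil)))) (.nd (nat_lit 9) 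
(.lf (nat_lit 504200) (.g (nat_lit 2394) (.e (nat_lit 164096) (nat_lit 86) (.e (nat_lit 532583) (nat_lit 26) (.e (nat_lit 426199) (nat_lit 9) (.e (nat_lit 426562) (nat_lit 33) (.e (nat_lit 385041) (nat_lit 19) (.e (nat_lit 164287) (nat_lit 224) .nil)))))) (.g (nat_lit 1) (.e (nat_lit 177598) (nat_lit 0) .nil) .nil))) 
(.lf (nat_lit 504712) (.g (nat_lit 2877) (.e (nat_lit 171776) (nat_lit 160) (.e (nat_lit 57375) (nat_lit 2) (.e (nat_lit 90174) (nat_lit 14) (.e (nat_lit 180252) (nat_lit 10) (.e (nat_lit 573488) (nat_lit 14) .nil))))) (.g (nat_lit 0) (.e (nat_lit 179070) (nat_lit 0) .nil) .nil)))))) (.nd (nat_lit 7) (.nd (nat_lit 8) (.nd (nat_lit 9) 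
(.lf (nat_lit 503880) (.g (nat_lit 3234) (.e (nat_lit 164017) (nat_lit 44) (.e (nat_lit 688139) (nat_lit 5) (.e (nat_lit 3062) (nat_lit 190) (.e (nat_lit 475179) (nat_lit 24) (.e (nat_lit 516150) (nat_lit 9) (.e (nat_lit 426320) (nat_lit 12) (.e (nat_lit 483072) (nat_lit 3) .nil))))))) (.g (nat_lit 1) (.e (nat_lit 177133) (nat_lit 0) .nil) .nil))) 
(.lf (nat_lit 504392) (.g (nat_lit 1815) (.e (nat_lit 164178) (nat_lit 154) (.e (nat_lit 57406) (nat_lit 12) (.e (nat_lit 336456) (nat_lit 34) (.e (nat_lit 483395) (nat_lit 24) (.e (nat_lit 344120) (nat_lit 21) .nil))))) (.g (nat_lit 0) (.e (nat_lit 178638) (nat_lit 0) .nil) .nil)))) (.nd (nat_lit 9) 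
(.lf (nat_lit 504136) (.g (nat_lit 1936) (.e (nat_lit 164092) (nat_lit 82) (.e (nat_lit 500046) (nat_lit 16) (.e (nat_lit 16463) (nat_lit 13) (.e (nat_lit 483333) (nat_lit 0) (.e (nat_lit 7106) (nat_lit 380) (.e (nat_lit 164292) (nat_lit 224) .nil)))))) (.g (nat_lit 1) (.e (nat_lit 177482) (nat_lit 0) .nil) .nil))) 
(.lf (nat_lit 504648) (.g (nat_lit 944) (.e (nat_lit 164183) (nat_lit 154) (.e (nat_lit 57409) (nat_lit 12) (.e (nat_lit 336306) (nat_lit 15) (.e (nat_lit 3238) (nat_lit 197) .nil)))) (.g (nat_lit 0) (.e (nat_lit 178965) (nat_lit 0) .nil) .nil))))) (.nd (nat_lit 8) (.nd (nat_lit 9) 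
(.lf (nat_lit 504008) (.g (nat_lit 1602) (.e (nat_lit 164020) (nat_lit 45) (.e (nat_lit 696344) (nat_lit 8) (.e (nat_lit 172067) (nat_lit 3) (.e (nat_lit 204877) (nat_lit 31) .nil)))) (.g (nat_lit 0) (.e (nat_lit 177305) (nat_lit 0) .nil) .nil))) 
(.lf (nat_lit 504520) (.g (nat_lit 2701) (.e (nat_lit 164179) (nat_lit 154) (.e (nat_lit 57442) (nat_lit 18) (.e (nat_lit 385068) (nat_lit 26) (.e (nat_lit 532535) (nat_lit 9) (.e (nat_lit 336219) (nat_lit 13) .nil))))) (.g (nat_lit 0) (.e (nat_lit 178797) (nat_lit 0) .nil) .nil)))) (.nd (nat_lit 9) 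
(.lf (nat_lit 504264) (.g (nat_lit 1642) (.e (nat_lit 164112) (nat_lit 118) (.e (nat_lit 794637) (nat_lit 11) (.e (nat_lit 336086) (nat_lit 9) (.e (nat_lit 336421) (nat_lit 28) (.e (nat_lit 434197) (nat_lit 16) (.e (nat_lit 164293) (nat_lit 224) .nil)))))) (.g (nat_lit 1) (.e (nat_lit 177781) (nat_lit 0) .nil) .nil))) 
(.lf (nat_lit 504776) (.g (nat_lit 2400) (.e (nat_lit 164208) (nat_lit 176) (.e (nat_lit 2810) (nat_lit 180) (.e (nat_lit 303117) (nat_lit 2) (.e (nat_lit 196672) (nat_lit 15) (.e (nat_lit 81953) (nat_lit 22) .nil))))) (.g (nat_lit 0) (.e (nat_lit 179182) (nat_lit 0) .nil) .nil))))))) (.nd (nat_lit 6) (.nd (nat_lit 7) (.nd (nat_lit 8) (.nd (nat_lit 9) 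
(.lf (nat_lit 503848) (.g (nat_lit 3785) (.e (nat_lit 164050) (nat_lit 55) (.e (nat_lit 778464) (nat_lit 11) (.e (nat_lit 24617) (nat_lit 7) (.e (nat_lit 319533) (nat_lit 16) (.e (nat_lit 286753) (nat_lit 10) (.e (nat_lit 344169) (nat_lit 40) (.e (nat_lit 671780) (nat_lit 12) .nil))))))) (.g (nat_lit 1) (.e (nat_lit 176969) (nat_lit 0) .nil) .nil))) 
(.lf (nat_lit 504360) (.g (nat_lit 485) (.e (nat_lit 164177) (nat_lit 154) (.e (nat_lit 57407) (nat_lit 12) (.e (nat_lit 336316) (nat_lit 17) .nil))) (.g (nat_lit 0) (.e (nat_lit 178600) (nat_lit 0) .nil) .nil)))) (.nd (nat_lit 9) 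
(.lf (nat_lit 504104) (.g (nat_lit 2137) (.e (nat_lit 171776) (nat_lit 64) (.e (nat_lit 98372) (nat_lit 29) (.e (nat_lit 450579) (nat_lit 5) (.e (nat_lit 532542) (nat_lit 9) (.e (nat_lit 335987) (nat_lit 1) .nil))))) (.g (nat_lit 0) (.e (nat_lit 177442) (nat_lit 0) .nil) .nil))) 
(.lf (nat_lit 504616) (.g (nat_lit 3575) (.e (nat_lit 164183) (nat_lit 154) (.e (nat_lit 57375) (nat_lit 2) (.e (nat_lit 90160) (nat_lit 11) (.e (nat_lit 24665) (nat_lit 14) (.e (nat_lit 401472) (nat_lit 28) .nil))))) (.g (nat_lit 0) (.e (nat_lit 178921) (nat_lit 0) .nil) .nil))))) (.nd (nat_lit 8) (.nd (nat_lit 9) 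
(.lf (nat_lit 503976) (.g (nat_lit 2747) (.e (nat_lit 164020) (nat_lit 45) (.e (nat_lit 696343) (nat_lit 8) (.e (nat_lit 172079) (nat_lit 7) (.e (nat_lit 409645) (nat_lit 18) (.e (nat_lit 303137) (nat_lit 10) (.e (nat_lit 434275) (nat_lit 39) (.e (nat_lit 663584) (nat_lit 12) .nil))))))) (.g (nat_lit 1) (.e (nat_lit 177273) (nat_lit 0) .nil) .nil))) 
(.lf (nat_lit 504488) (.g (nat_lit 1683) (.e (nat_lit 164179) (nat_lit 154) (.e (nat_lit 57407) (nat_lit 12) (.e (nat_lit 336456) (nat_lit 34) (.e (nat_lit 483395) (nat_lit 24) (.e (nat_lit 344116) (nat_lit 21) .nil))))) (.g (nat_lit 0) (.e (nat_lit 178755) (nat_lit 0) .nil) .nil)))) (.nd (nat_lit 9) 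
(.lf (nat_lit 504232) (.g (nat_lit 1018) (.e (nat_lit 164112) (nat_lit 118) (.e (nat_lit 794635) (nat_lit 11) (.e (nat_lit 336152) (nat_lit 9) (.e (nat_lit 336437) (nat_lit 31) (.e (nat_lit 458769) (nat_lit 16) (.e (nat_lit 164286) (nat_lit 224) .nil)))))) (.g (nat_lit 1) (.e (nat_lit 177749) (nat_lit 0) .nil) .nil))) 
(.lf (nat_lit 504744) (.g (nat_lit 2387) (.e (nat_lit 164207) (nat_lit 176) (.e (nat_lit 2798) (nat_lit 180) (.e (nat_lit 303119) (nat_lit 3) (.e (nat_lit 204877) (nat_lit 31) (.e (nat_lit 376865) (nat_lit 22) .nil))))) (.g (nat_lit 0) (.e (nat_lit 179134) (nat_lit 0) .nil) .nil)))))) (.nd (nat_lit 7) (.nd (nat_lit 8) (.nd (nat_lit 9) 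
(.lf (nat_lit 503912) (.g (nat_lit 4420) (.e (nat_lit 164018) (nat_lit 45) (.e (nat_lit 696344) (nat_lit 8) (.e (nat_lit 172067) (nat_lit 3) (.e (nat_lit 204855) (nat_lit 26) (.e (nat_lit 336176) (nat_lit 10) (.e (nat_lit 344133) (nat_lit 26) (.e (nat_lit 557091) (nat_lit 12) .nil))))))) (.g (nat_lit 1) (.e (nat_lit 177195) (nat_lit 0) .nil) .nil))) 
(.lf (nat_lit 504424) (.g (nat_lit 1719) (.e (nat_lit 164179) (nat_lit 154) (.e (nat_lit 57375) (nat_lit 2) (.e (nat_lit 90128) (nat_lit 9) (.e (nat_lit 2705) (nat_lit 170) .nil)))) (.g (nat_lit 0) (.e (nat_lit 178678) (nat_lit 0) .nil) .nil)))) (.nd (nat_lit 9) 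
(.lf (nat_lit 504168) (.g (nat_lit 2290) (.e (nat_lit 164096) (nat_lit 86) (.e (nat_lit 532583) (nat_lit 26) (.e (nat_lit 426188) (nat_lit 9) (.e (nat_lit 426562) (nat_lit 33) (.e (nat_lit 385041) (nat_lit 19) (.e (nat_lit 164287) (nat_lit 224) .nil)))))) (.g (nat_lit 1) (.e (nat_lit 177566) (nat_lit 0) .nil) .nil))) 
(.lf (nat_lit 504680) (.g (nat_lit 1420) (.e (nat_lit 164183) (nat_lit 154) (.e (nat_lit 57411) (nat_lit 12) (.e (nat_lit 336322) (nat_lit 18) (.e (nat_lit 204865) (nat_lit 28) (.e (nat_lit 352277) (nat_lit 11) .nil))))) (.g (nat_lit 0) (.e (nat_lit 179010) (nat_lit 0) .nil) .nil))))) (.nd (nat_lit 8) (.nd (nat_lit 9) 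
(.lf (nat_lit 504040) (.g (nat_lit 1676) (.e (nat_lit 164022) (nat_lit 46) (.e (nat_lit 704735) (nat_lit 11) (.e (nat_lit 16415) (nat_lit 3) (.e (nat_lit 204870) (nat_lit 29) (.e (nat_lit 360473) (nat_lit 8) .nil))))) (.g (nat_lit 0) (.e (nat_lit 177349) (nat_lit 0) .nil) .nil))) 
(.lf (nat_lit 504552) (.g (nat_lit 2096) (.e (nat_lit 164182) (nat_lit 154) (.e (nat_lit 57378) (nat_lit 3) (.e (nat_lit 98341) (nat_lit 20) (.e (nat_lit 221212) (nat_lit 22) (.e (nat_lit 196664) (nat_lit 13) .nil))))) (.g (nat_lit 0) (.e (nat_lit 178839) (nat_lit 0) .nil) .nil)))) (.nd (nat_lit 9) 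
(.lf (nat_lit 504296) (.g (nat_lit 3429) (.e (nat_lit 164189) (nat_lit 157) (.e (nat_lit 229399) (nat_lit 12) (.e (nat_lit 426125) (nat_lit 2) (.e (nat_lit 196666) (nat_lit 13) (.e (nat_lit 65610) (nat_lit 10) (.e (nat_lit 344129) (nat_lit 26) (.e (nat_lit 557067) (nat_lit 9) (.e (nat_lit 2606) (nat_lit 163) .nil)))))))) (.g (nat_lit 1) (.e (nat_lit 178261) (nat_lit 0) .nil) .nil))) 
(.lf (nat_lit 504808) (.g (nat_lit 3322) (.e (nat_lit 164209) (nat_lit 176) (.e (nat_lit 2797) (nat_lit 180) (.e (nat_lit 303119) (nat_lit 3) (.e (nat_lit 204869) (nat_lit 29) (.e (nat_lit 368384) (nat_lit 1) .nil))))) (.g (nat_lit 0) (.e (nat_lit 179244) (nat_lit 0) .nil) .nil)))))))) (.nd (nat_lit 5) (.nd (nat_lit 6) (.nd (nat_lit 7) (.nd (nat_lit 8) (.nd (nat_lit 9) 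
(.lf (nat_lit 503832) (.g (nat_lit 1660) (.e (nat_lit 164043) (nat_lit 55) (.e (nat_lit 778460) (nat_lit 11) (.e (nat_lit 24617) (nat_lit 7) (.e (nat_lit 319528) (nat_lit 16) (.e (nat_lit 286759) (nat_lit 12) .nil))))) (.g (nat_lit 0) (.e (nat_lit 176946) (nat_lit 0) .nil) .nil))) 
(.lf (nat_lit 504344) (.g (nat_lit 2422) (.e (nat_lit 164177) (nat_lit 154) (.e (nat_lit 57379) (nat_lit 3) (.e (nat_lit 98341) (nat_lit 20) (.e (nat_lit 221215) (nat_lit 23) (.e (nat_lit 204859) (nat_lit 26) .nil))))) (.g (nat_lit 0) (.e (nat_lit 178583) (nat_lit 0) .nil) .nil)))) (.nd (nat_lit 9) 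
(.lf (nat_lit 504088) (.g (nat_lit 1577) (.e (nat_lit 171776) (nat_lit 63) (.e (nat_lit 90176) (nat_lit 15) (.e (nat_lit 188450) (nat_lit 23) (.e (nat_lit 204858) (nat_lit 26) .nil)))) (.g (nat_lit 0) (.e (nat_lit 177426) (nat_lit 0) .nil) .nil))) 
(.lf (nat_lit 504600) (.g (nat_lit 814) (.e (nat_lit 164182) (nat_lit 154) (.e (nat_lit 57417) (nat_lit 12) (.e (nat_lit 336323) (nat_lit 18) .nil))) (.g (nat_lit 0) (.e (nat_lit 178901) (nat_lit 0) .nil) .nil))))) (.nd (nat_lit 8) (.nd (nat_lit 9) 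
(.lf (nat_lit 503960) (.g (nat_lit 4082) (.e (nat_lit 164020) (nat_lit 45) (.e (nat_lit 696329) (nat_lit 5) (.e (nat_lit 2980) (nat_lit 185) (.e (nat_lit 434231) (nat_lit 23) (.e (nat_lit 532550) (nat_lit 12) (.e (nat_lit 360475) (nat_lit 8) (.e (nat_lit 557090) (nat_lit 12) .nil))))))) (.g (nat_lit 1) (.e (nat_lit 177245) (nat_lit 0) .nil) .nil))) 
(.lf (nat_lit 504472) (.g (nat_lit 1485) (.e (nat_lit 164179) (nat_lit 154) (.e (nat_lit 57407) (nat_lit 12) (.e (nat_lit 336316) (nat_lit 17) (.e (nat_lit 196672) (nat_lit 15) (.e (nat_lit 81927) (nat_lit 11) .nil))))) (.g (nat_lit 0) (.e (nat_lit 178736) (nat_lit 0) .nil) .nil)))) (.nd (nat_lit 9) 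
(.lf (nat_lit 504216) (.g (nat_lit 3847) (.e (nat_lit 171776) (nat_lit 84) (.e (nat_lit 516166) (nat_lit 12) (.e (nat_lit 450587) (nat_lit 10) (.e (nat_lit 573471) (nat_lit 11) .nil)))) (.g (nat_lit 0) (.e (nat_lit 177661) (nat_lit 0) .nil) .nil))) 
(.lf (nat_lit 504728) (.g (nat_lit 2721) (.e (nat_lit 164207) (nat_lit 176) (.e (nat_lit 2797) (nat_lit 180) (.e (nat_lit 303119) (nat_lit 3) (.e (nat_lit 204858) (nat_lit 26) (.e (nat_lit 336096) (nat_lit 9) .nil))))) (.g (nat_lit 0) (.e (nat_lit 179102) (nat_lit 0) .nil) .nil)))))) (.nd (nat_lit 7) (.nd (nat_lit 8) (.nd (nat_lit 9) 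
(.lf (nat_lit 503896) (.g (nat_lit 4685) (.e (nat_lit 164018) (nat_lit 45) (.e (nat_lit 696343) (nat_lit 8) (.e (nat_lit 172067) (nat_lit 3) (.e (nat_lit 204869) (nat_lit 29) (.e (nat_lit 360474) (nat_lit 8) (.e (nat_lit 557088) (nat_lit 12) .nil)))))) (.g (nat_lit 1) (.e (nat_lit 177172) (nat_lit 0) .nil) .nil))) 
(.lf (nat_lit 504408) (.g (nat_lit 1921) (.e (nat_lit 164178) (nat_lit 154) (.e (nat_lit 57409) (nat_lit 12) (.e (nat_lit 336456) (nat_lit 34) (.e (nat_lit 483396) (nat_lit 24) .nil)))) (.g (nat_lit 0) (.e (nat_lit 178657) (nat_lit 0) .nil) .nil)))) (.nd (nat_lit 9) 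
(.lf (nat_lit 504152) (.g (nat_lit 2362) (.e (nat_lit 164092) (nat_lit 82) (.e (nat_lit 500046) (nat_lit 16) (.e (nat_lit 16466) (nat_lit 13) (.e (nat_lit 483333) (nat_lit 0) (.e (nat_lit 7106) (nat_lit 380) (.e (nat_lit 164292) (nat_lit 224) .nil)))))) (.g (nat_lit 1) (.e (nat_lit 177499) (nat_lit 0) .nil) .nil))) 
(.lf (nat_lit 504664) (.g (nat_lit 1071) (.e (nat_lit 164183) (nat_lit 154) (.e (nat_lit 57409) (nat_lit 12) (.e (nat_lit 336454) (nat_lit 34) (.e (nat_lit 483390) (nat_lit 23) (.e (nat_lit 336028) (nat_lit 3) .nil))))) (.g (nat_lit 0) (.e (nat_lit 178985) (nat_lit 0) .nil) .nil))))) (.nd (nat_lit 8) (.nd (nat_lit 9) 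
(.lf (nat_lit 504024) (.g (nat_lit 1680) (.e (nat_lit 164022) (nat_lit 46) (.e (nat_lit 704628) (nat_lit 9) (.e (nat_lit 452) (nat_lit 33) (.e (nat_lit 434219) (nat_lit 19) (.e (nat_lit 500059) (nat_lit 18) .nil))))) (.g (nat_lit 0) (.e (nat_lit 177329) (nat_lit 0) .nil) .nil))) 
(.lf (nat_lit 504536) (.g (nat_lit 1062) (.e (nat_lit 164181) (nat_lit 154) (.e (nat_lit 57411) (nat_lit 12) (.e (nat_lit 336326) (nat_lit 18) .nil))) (.g (nat_lit 0) (.e (nat_lit 178817) (nat_lit 0) .nil) .nil)))) (.nd (nat_lit 9) 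
(.lf (nat_lit 504280) (.g (nat_lit 1456) (.e (nat_lit 171776) (nat_lit 136) (.e (nat_lit 57407) (nat_lit 12) (.e (nat_lit 336326) (nat_lit 18) (.e (nat_lit 204854) (nat_lit 26) (.e (nat_lit 336019) (nat_lit 3) .nil))))) (.g (nat_lit 0) (.e (nat_lit 177867) (nat_lit 0) .nil) .nil))) 
(.lf (nat_lit 504792) (.g (nat_lit 1864) (.e (nat_lit 164209) (nat_lit 176) (.e (nat_lit 2797) (nat_lit 180) (.e (nat_lit 303117) (nat_lit 2) (.e (nat_lit 196665) (nat_lit 13) (.e (nat_lit 65608) (nat_lit 9) .nil))))) (.g (nat_lit 0) (.e (nat_lit 179214) (nat_lit 0) .nil) .nil))))))) (.nd (nat_lit 6) (.nd (nat_lit 7) (.nd (nat_lit 8) (.nd (nat_lit 9) 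
(.lf (nat_lit 503864) (.g (nat_lit 3275) (.e (nat_lit 164016) (nat_lit 44) (.e (nat_lit 688138) (nat_lit 5) (.e (nat_lit 2887) (nat_lit 184) (.e (nat_lit 426140) (nat_lit 3) (.e (nat_lit 204869) (nat_lit 29) (.e (nat_lit 360474) (nat_lit 8) (.e (nat_lit 557094) (nat_lit 12) .nil))))))) (.g (nat_lit 1) (.e (nat_lit 177095) (nat_lit 0) .nil) .nil))) 
(.lf (nat_lit 504376) (.g (nat_lit 2201) (.e (nat_lit 164178) (nat_lit 154) (.e (nat_lit 57377) (nat_lit 3) (.e (nat_lit 98341) (nat_lit 20) (.e (nat_lit 221210) (nat_lit 22) (.e (nat_lit 196670) (nat_lit 14) .nil))))) (.g (nat_lit 0) (.e (nat_lit 178620) (nat_lit 0) .nil) .nil)))) (.nd (nat_lit 9) 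
(.lf (nat_lit 504120) (.g (nat_lit 1578) (.e (nat_lit 171776) (nat_lit 66) (.e (nat_lit 114698) (nat_lit 11) (.e (nat_lit 426316) (nat_lit 12) (.e (nat_lit 475214) (nat_lit 42) .nil)))) (.g (nat_lit 0) (.e (nat_lit 177458) (nat_lit 0) .nil) .nil))) 
(.lf (nat_lit 504632) (.g (nat_lit 5697) (.e (nat_lit 164183) (nat_lit 154) (.e (nat_lit 57379) (nat_lit 3) (.e (nat_lit 98333) (nat_lit 18) (.e (nat_lit 164325) (nat_lit 230) (.e (nat_lit 163907) (nat_lit 12) (.e (nat_lit 426131) (nat_lit 3) (.e (nat_lit 204852) (nat_lit 26) (.e (nat_lit 336310) (nat_lit 16) .nil)))))))) (.g (nat_lit 1) (.e (nat_lit 178947) (nat_lit 0) .nil) .nil))))) 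
(.nd (nat_lit 8) (.nd (nat_lit 9) 
(.lf (nat_lit 503992) (.g (nat_lit 4839) (.e (nat_lit 164020) (nat_lit 45) (.e (nat_lit 696344) (nat_lit 8) (.e (nat_lit 172065) (nat_lit 3) (.e (nat_lit 204869) (nat_lit 29) (.e (nat_lit 360475) (nat_lit 8) (.e (nat_lit 557090) (nat_lit 12) .nil)))))) (.g (nat_lit 1) (.e (nat_lit 177289) (nat_lit 0) .nil) .nil))) 
(.lf (nat_lit 504504) (.g (nat_lit 2387) (.e (nat_lit 164179) (nat_lit 154) (.e (nat_lit 57409) (nat_lit 12) (.e (nat_lit 336454) (nat_lit 34) (.e (nat_lit 483401) (nat_lit 25) (.e (nat_lit 368676) (nat_lit 21) .nil))))) (.g (nat_lit 0) (.e (nat_lit 178775) (nat_lit 0) .nil) .nil)))) (.nd (nat_lit 9) 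
(.lf (nat_lit 504248) (.g (nat_lit 1045) (.e (nat_lit 164112) (nat_lit 118) (.e (nat_lit 794637) (nat_lit 11) (.e (nat_lit 336074) (nat_lit 9) (.e (nat_lit 336438) (nat_lit 31) (.e (nat_lit 458769) (nat_lit 16) (.e (nat_lit 164289) (nat_lit 224) .nil)))))) (.g (nat_lit 1) (.e (nat_lit 177765) (nat_lit 0) .nil) .nil))) 
(.lf (nat_lit 504760) (.g (nat_lit 1557) (.e (nat_lit 164207) (nat_lit 176) (.e (nat_lit 2810) (nat_lit 180) (.e (nat_lit 303119) (nat_lit 3) (.e (nat_lit 204852) (nat_lit 26) .nil)))) (.g (nat_lit 0) (.e (nat_lit 179157) (nat_lit 0) .nil) .nil)))))) (.nd (nat_lit 7) (.nd (nat_lit 8) (.nd (nat_lit 9) 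
(.lf (nat_lit 503928) (.g (nat_lit 3721) (.e (nat_lit 164018) (nat_lit 45) (.e (nat_lit 696345) (nat_lit 9) (.e (nat_lit 180244) (nat_lit 5) (.e (nat_lit 532550) (nat_lit 12) (.e (nat_lit 360474) (nat_lit 8) (.e (nat_lit 557093) (nat_lit 12) .nil)))))) (.g (nat_lit 1) (.e (nat_lit 177211) (nat_lit 0) .nil) .nil))) 
(.lf (nat_lit 504440) (.g (nat_lit 3111) (.e (nat_lit 164179) (nat_lit 154) (.e (nat_lit 57378) (nat_lit 3) (.e (nat_lit 98335) (nat_lit 18) (.e (nat_lit 164332) (nat_lit 230) (.e (nat_lit 163926) (nat_lit 16) .nil))))) (.g (nat_lit 0) (.e (nat_lit 178696) (nat_lit 0) .nil) .nil)))) (.nd (nat_lit 9) 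
(.lf (nat_lit 504184) (.g (nat_lit 1554) (.e (nat_lit 164096) (nat_lit 86) (.e (nat_lit 532583) (nat_lit 26) (.e (nat_lit 426196) (nat_lit 9) (.e (nat_lit 426562) (nat_lit 33) (.e (nat_lit 385041) (nat_lit 19) (.e (nat_lit 164288) (nat_lit 224) .nil)))))) (.g (nat_lit 1) (.e (nat_lit 177582) (nat_lit 0) .nil) .nil))) 
(.lf (nat_lit 504696) (.g (nat_lit 763) (.e (nat_lit 164183) (nat_lit 154) (.e (nat_lit 57417) (nat_lit 12) (.e (nat_lit 336371) (nat_lit 27) .nil))) (.g (nat_lit 0) (.e (nat_lit 179033) (nat_lit 0) .nil) .nil))))) (.nd (nat_lit 8) (.nd (nat_lit 9) 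
(.lf (nat_lit 504056) (.g (nat_lit 2078) (.e (nat_lit 164023) (nat_lit 46) (.e (nat_lit 704629) (nat_lit 9) (.e (nat_lit 375) (nat_lit 32) (.e (nat_lit 426135) (nat_lit 3) .nil)))) (.g (nat_lit 0) (.e (nat_lit 177376) (nat_lit 0) .nil) .nil))) 
(.lf (nat_lit 504568) (.g (nat_lit 4874) (.e (nat_lit 164182) (nat_lit 154) (.e (nat_lit 57379) (nat_lit 3) (.e (nat_lit 98342) (nat_lit 20) (.e (nat_lit 221212) (nat_lit 22) (.e (nat_lit 196668) (nat_lit 14) (.e (nat_lit 73747) (nat_lit 3) (.e (nat_lit 516115) (nat_lit 1) .nil))))))) (.g (nat_lit 1) (.e (nat_lit 178858) (nat_lit 0) .nil) .nil)))) (.nd (nat_lit 9) 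
(.lf (nat_lit 504312) (.g (nat_lit 2210) (.e (nat_lit 164176) (nat_lit 154) (.e (nat_lit 57379) (nat_lit 3) (.e (nat_lit 98342) (nat_lit 20) (.e (nat_lit 221212) (nat_lit 22) (.e (nat_lit 196669) (nat_lit 14) .nil))))) (.g (nat_lit 0) (.e (nat_lit 178542) (nat_lit 0) .nil) .nil))) 
(.lf (nat_lit 504824) (.g (nat_lit 2369) (.e (nat_lit 164210) (nat_lit 176) (.e (nat_lit 2797) (nat_lit 180) (.e (nat_lit 303119) (nat_lit 3) (.e (nat_lit 204878) (nat_lit 31) (.e (nat_lit 376865) (nat_lit 22) .nil))))) (.g (nat_lit 0) (.e (nat_lit 179290) (nat_lit 0) .nil) .nil)))))))))) 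
(.nd (nat_lit 3) (.nd (nat_lit 4) (.nd (nat_lit 5) (.nd (nat_lit 6) (.nd (nat_lit 7) 
(.nd (nat_lit 8) (.nd (nat_lit 9) 
(.lf (nat_lit 503812) (.g (nat_lit 4790) (.e (nat_lit 164000) (nat_lit 38) (.e (nat_lit 639020) (nat_lit 16) (.e (nat_lit 65571) (nat_lit 3) (.e (nat_lit 98359) (nat_lit 26) (.e (nat_lit 426211) (nat_lit 9) (.e (nat_lit 426125) (nat_lit 2) (.e (nat_lit 204544) (nat_lit 3) .nil))))))) (.g (nat_lit 1) (.e (nat_lit 176411) (nat_lit 0) .nil) .nil))) 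
(.lf (nat_lit 504324) (.g (nat_lit 1164) (.e (nat_lit 164176) (nat_lit 154) (.e (nat_lit 57411) (nat_lit 12) (.e (nat_lit 336316) (nat_lit 17) .nil))) (.g (nat_lit 0) (.e (nat_lit 178555) (nat_lit 0) .nil) .nil)))) (.nd (nat_lit 9) 
(.lf (nat_lit 504068) (.g (nat_lit 3360) (.e (nat_lit 164023) (nat_lit 46) (.e (nat_lit 704738) (nat_lit 11) (.e (nat_lit 16396) (nat_lit 0) (.e (nat_lit 3238) (nat_lit 197) (.e (nat_lit 532549) (nat_lit 12) (.e (nat_lit 360473) (nat_lit 8) (.e (nat_lit 557093) (nat_lit 12) .nil))))))) (.g (nat_lit 1) (.e (nat_lit 177394) (nat_lit 0) .nil) .nil))) 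
(.lf (nat_lit 504580) (.g (nat_lit 846) (.e (nat_lit 164182) (nat_lit 154) (.e (nat_lit 57411) (nat_lit 12) (.e (nat_lit 336240) (nat_lit 15) .nil))) (.g (nat_lit 0) (.e (nat_lit 178874) (nat_lit 0) .nil) .nil))))) (.nd (nat_lit 8) (.nd (nat_lit 9) 
(.lf (nat_lit 503940) (.g (nat_lit 4566) (.e (nat_lit 164019) (nat_lit 45) (.e (nat_lit 696344) (nat_lit 8) (.e (nat_lit 172067) (nat_lit 3) (.e (nat_lit 204869) (nat_lit 29) (.e (nat_lit 360475) (nat_lit 8) (.e (nat_lit 557091) (nat_lit 12) .nil)))))) (.g (nat_lit 1) (.e (nat_lit 177225) (nat_lit 0) .nil) .nil))) 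
(.lf (nat_lit 504452) (.g (nat_lit 2438) (.e (nat_lit 164179) (nat_lit 154) (.e (nat_lit 57406) (nat_lit 12) (.e (nat_lit 336454) (nat_lit 34) (.e (nat_lit 483379) (nat_lit 23) .nil)))) (.g (nat_lit 0) (.e (nat_lit 178712) (nat_lit 0) .nil) .nil)))) (.nd (nat_lit 9) 
(.lf (nat_lit 504196) (.g (nat_lit 2025) (.e (nat_lit 164096) (nat_lit 86) (.e (nat_lit 532583) (nat_lit 26) (.e (nat_lit 426197) (nat_lit 9) (.e (nat_lit 426562) (nat_lit 33) (.e (nat_lit 385041) (nat_lit 19) (.e (nat_lit 164294) (nat_lit 224) .nil)))))) (.g (nat_lit 1) (.e (nat_lit 177594) (nat_lit 0) .nil) .nil))) 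
(.lf (nat_lit 504708) (.g (nat_lit 2450) (.e (nat_lit 171776) (nat_lit 160) (.e (nat_lit 57373) (nat_lit 2) (.e (nat_lit 90174) (nat_lit 14) (.e (nat_lit 180250) (nat_lit 10) (.e (nat_lit 573487) (nat_lit 14) .nil))))) (.g (nat_lit 0) (.e (nat_lit 179066) (nat_lit 0) .nil) .nil)))))) (.nd (nat_lit 7) (.nd (nat_lit 8) (.nd (nat_lit 9) 
(.lf (nat_lit 503876) (.g (nat_lit 2560) (.e (nat_lit 164017) (nat_lit 44) (.e (nat_lit 688138) (nat_lit 5) (.e (nat_lit 3062) (nat_lit 190) (.e (nat_lit 475179) (nat_lit 24) (.e (nat_lit 516176) (nat_lit 14) (.e (nat_lit 466948) (nat_lit 0) (.e (nat_lit 7936) (nat_lit 360) .nil))))))) (.g (nat_lit 1) (.e (nat_lit 177129) (nat_lit 0) .nil) .nil))) 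
(.lf (nat_lit 504388) (.g (nat_lit 2882) (.e (nat_lit 164178) (nat_lit 154) (.e (nat_lit 57406) (nat_lit 12) (.e (nat_lit 336454) (nat_lit 34) (.e (nat_lit 483383) (nat_lit 23) .nil)))) (.g (nat_lit 0) (.e (nat_lit 178634) (nat_lit 0) .nil) .nil)))) (.nd (nat_lit 9) 
(.lf (nat_lit 504132) (.g (nat_lit 2105) (.e (nat_lit 164092) (nat_lit 82) (.e (nat_lit 500046) (nat_lit 16) (.e (nat_lit 16463) (nat_lit 13) (.e (nat_lit 483333) (nat_lit 0) (.e (nat_lit 7098) (nat_lit 380) (.e (nat_lit 164294) (nat_lit 224) .nil)))))) (.g (nat_lit 1) (.e (nat_lit 177478) (nat_lit 0) .nil) .nil))) 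
(.lf (nat_lit 504644) (.g (nat_lit 3601) (.e (nat_lit 164183) (nat_lit 154) (.e (nat_lit 57379) (nat_lit 3) (.e (nat_lit 98342) (nat_lit 20) (.e (nat_lit 221212) (nat_lit 22) (.e (nat_lit 196670) (nat_lit 14) (.e (nat_lit 73746) (nat_lit 3) (.e (nat_lit 516118) (nat_lit 1) .nil))))))) (.g (nat_lit 1) (.e (nat_lit 178961) (nat_lit 0) .nil) .nil))))) (.nd (nat_lit 8) (.nd (nat_lit 9) 
(.lf (nat_lit 504004) (.g (nat_lit 5881) (.e (nat_lit 164020) (nat_lit 45) (.e (nat_lit 696344) (nat_lit 8) (.e (nat_lit 172067) (nat_lit 3) (.e (nat_lit 204869) (nat_lit 29) (.e (nat_lit 360474) (nat_lit 8) (.e (nat_lit 557091) (nat_lit 12) .nil)))))) (.g (nat_lit 1) (.e (nat_lit 177301) (nat_lit 0) .nil) .nil))) 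
(.lf (nat_lit 504516) (.g (nat_lit 814) (.e (nat_lit 164179) (nat_lit 154) (.e (nat_lit 57417) (nat_lit 12) (.e (nat_lit 336323) (nat_lit 18) .nil))) (.g (nat_lit 0) (.e (nat_lit 178791) (nat_lit 0) .nil) .nil)))) (.nd (nat_lit 9) 
(.lf (nat_lit 504260) (.g (nat_lit 1763) (.e (nat_lit 164112) (nat_lit 118) (.e (nat_lit 794637) (nat_lit 11) (.e (nat_lit 336078) (nat_lit 9) (.e (nat_lit 336438) (nat_lit 31) (.e (nat_lit 458769) (nat_lit 16) (.e (nat_lit 164286) (nat_lit 224) .nil)))))) (.g (nat_lit 1) (.e (nat_lit 177777) (nat_lit 0) .nil) .nil))) 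
(.lf (nat_lit 504772) (.g (nat_lit 2087) (.e (nat_lit 164207) (nat_lit 176) (.e (nat_lit 2777) (nat_lit 178) (.e (nat_lit 286765) (nat_lit 15) (.e (nat_lit 3304) (nat_lit 202) (.e (nat_lit 573485) (nat_lit 13) .nil))))) (.g (nat_lit 0) (.e (nat_lit 179176) (nat_lit 0) .nil) .nil))))))) (.nd (nat_lit 6) (.nd (nat_lit 7) (.nd (nat_lit 8) (.nd (nat_lit 9) 
(.lf (nat_lit 503844) (.g (nat_lit 2679) (.e (nat_lit 164049) (nat_lit 55) (.e (nat_lit 778466) (nat_lit 11) (.e (nat_lit 24617) (nat_lit 7) (.e (nat_lit 319534) (nat_lit 16) (.e (nat_lit 286756) (nat_lit 10) (.e (nat_lit 344168) (nat_lit 40) (.e (nat_lit 671781) (nat_lit 12) .nil))))))) (.g (nat_lit 1) (.e (nat_lit 176965) (nat_lit 0) .nil) .nil))) 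
(.lf (nat_lit 504356) (.g (nat_lit 2468) (.e (nat_lit 164177) (nat_lit 154) (.e (nat_lit 57406) (nat_lit 12) (.e (nat_lit 336454) (nat_lit 34) (.e (nat_lit 483399) (nat_lit 25) .nil)))) (.g (nat_lit 0) (.e (nat_lit 178596) (nat_lit 0) .nil) .nil)))) (.nd (nat_lit 9) 
(.lf (nat_lit 504100) (.g (nat_lit 2421) (.e (nat_lit 171776) (nat_lit 64) (.e (nat_lit 98372) (nat_lit 29) (.e (nat_lit 450579) (nat_lit 5) (.e (nat_lit 532534) (nat_lit 9) (.e (nat_lit 335999) (nat_lit 1) .nil))))) (.g (nat_lit 0) (.e (nat_lit 177438) (nat_lit 0) .nil) .nil))) 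
(.lf (nat_lit 504612) (.g (nat_lit 1673) (.e (nat_lit 164183) (nat_lit 154) (.e (nat_lit 57375) (nat_lit 2) (.e (nat_lit 90128) (nat_lit 9) (.e (nat_lit 2705) (nat_lit 170) .nil)))) (.g (nat_lit 0) (.e (nat_lit 178916) (nat_lit 0) .nil) .nil))))) (.nd (nat_lit 8) (.nd (nat_lit 9) 
(.lf (nat_lit 503972) (.g (nat_lit 3614) (.e (nat_lit 164020) (nat_lit 45) (.e (nat_lit 696343) (nat_lit 8) (.e (nat_lit 172067) (nat_lit 3) (.e (nat_lit 204868) (nat_lit 29) (.e (nat_lit 360474) (nat_lit 8) (.e (nat_lit 557091) (nat_lit 12) .nil)))))) (.g (nat_lit 1) (.e (nat_lit 177269) (nat_lit 0) .nil) .nil))) 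
(.lf (nat_lit 504484) (.g (nat_lit 1754) (.e (nat_lit 164179) (nat_lit 154) (.e (nat_lit 57407) (nat_lit 12) (.e (nat_lit 336454) (nat_lit 34) (.e (nat_lit 483400) (nat_lit 25) .nil)))) (.g (nat_lit 0) (.e (nat_lit 178751) (nat_lit 0) .nil) .nil)))) (.nd (nat_lit 9) 
(.lf (nat_lit 504228) (.g (nat_lit 1045) (.e (nat_lit 164112) (nat_lit 118) (.e (nat_lit 794635) (nat_lit 11) (.e (nat_lit 336121) (nat_lit 9) (.e (nat_lit 336437) (nat_lit 31) (.e (nat_lit 458769) (nat_lit 16) (.e (nat_lit 164286) (nat_lit 224) .nil)))))) (.g (nat_lit 1) (.e (nat_lit 177745) (nat_lit 0) .nil) .nil))) 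
(.lf (nat_lit 504740) (.g (nat_lit 2602) (.e (nat_lit 164207) (nat_lit 176) (.e (nat_lit 2798) (nat_lit 180) (.e (nat_lit 303117) (nat_lit 2) (.e (nat_lit 196673) (nat_lit 15) (.e (nat_lit 81953) (nat_lit 22) .nil))))) (.g (nat_lit 0) (.e (nat_lit 179118) (nat_lit 0) .nil) .nil)))))) (.nd (nat_lit 7) (.nd (nat_lit 8) (.nd (nat_lit 9) 
(.lf (nat_lit 503908) (.g (nat_lit 2783) (.e (nat_lit 164018) (nat_lit 45) (.e (nat_lit 696344) (nat_lit 8) (.e (nat_lit 172065) (nat_lit 3) (.e (nat_lit 204868) (nat_lit 29) (.e (nat_lit 360473) (nat_lit 8) (.e (nat_lit 557094) (nat_lit 12) .nil)))))) (.g (nat_lit 1) (.e (nat_lit 177191) (nat_lit 0) .nil) .nil))) 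
(.lf (nat_lit 504420) (.g (nat_lit 1754) (.e (nat_lit 164179) (nat_lit 154) (.e (nat_lit 57373) (nat_lit 2) (.e (nat_lit 90128) (nat_lit 9) (.e (nat_lit 2705) (nat_lit 170) .nil)))) (.g (nat_lit 0) (.e (nat_lit 178673) (nat_lit 0) .nil) .nil)))) (.nd (nat_lit 9) 
(.lf (nat_lit 504164) (.g (nat_lit 1607) (.e (nat_lit 164096) (nat_lit 86) (.e (nat_lit 532583) (nat_lit 26) (.e (nat_lit 426186) (nat_lit 9) (.e (nat_lit 426562) (nat_lit 33) (.e (nat_lit 385041) (nat_lit 19) (.e (nat_lit 164291) (nat_lit 224) .nil)))))) (.g (nat_lit 1) (.e (nat_lit 177562) (nat_lit 0) .nil) .nil))) 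
(.lf (nat_lit 504676) (.g (nat_lit 1024) (.e (nat_lit 164183) (nat_lit 154) (.e (nat_lit 57411) (nat_lit 12) (.e (nat_lit 336316) (nat_lit 17) (.e (nat_lit 196672) (nat_lit 15) .nil)))) (.g (nat_lit 0) (.e (nat_lit 179005) (nat_lit 0) .nil) .nil))))) (.nd (nat_lit 8) (.nd (nat_lit 9) 
(.lf (nat_lit 504036) (.g (nat_lit 5470) (.e (nat_lit 164022) (nat_lit 46) (.e (nat_lit 704629) (nat_lit 9) (.e (nat_lit 442) (nat_lit 33) (.e (nat_lit 434234) (nat_lit 23) (.e (nat_lit 532535) (nat_lit 9) (.e (nat_lit 336176) (nat_lit 10) (.e (nat_lit 344132) (nat_lit 26) (.e (nat_lit 557094) (nat_lit 12) .nil)))))))) (.g (nat_lit 1) (.e (nat_lit 177342) (nat_lit 0) .nil) .nil))) 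
(.lf (nat_lit 504548) (.g (nat_lit 635) (.e (nat_lit 164182) (nat_lit 154) (.e (nat_lit 57378) (nat_lit 3) (.e (nat_lit 98341) (nat_lit 20) .nil))) (.g (nat_lit 0) (.e (nat_lit 178835) (nat_lit 0) .nil) .nil)))) (.nd (nat_lit 9) 
(.lf (nat_lit 504292) (.g (nat_lit 3349) (.e (nat_lit 164187) (nat_lit 157) (.e (nat_lit 229399) (nat_lit 12) (.e (nat_lit 426125) (nat_lit 2) (.e (nat_lit 196666) (nat_lit 13) (.e (nat_lit 65610) (nat_lit 10) (.e (nat_lit 344129) (nat_lit 26) (.e (nat_lit 557074) (nat_lit 9) (.e (nat_lit 2607) (nat_lit 163) .nil)))))))) (.g (nat_lit 1) (.e (nat_lit 178053) (nat_lit 0) .nil) .nil))) 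
(.lf (nat_lit 504804) (.g (nat_lit 3881) (.e (nat_lit 164209) (nat_lit 176) (.e (nat_lit 2797) (nat_lit 180) (.e (nat_lit 303119) (nat_lit 3) (.e (nat_lit 204868) (nat_lit 29) (.e (nat_lit 360459) (nat_lit 1) .nil))))) (.g (nat_lit 0) (.e (nat_lit 179238) (nat_lit 0) .nil) .nil)))))))) (.nd (nat_lit 5) (.nd (nat_lit 6) (.nd (nat_lit 7) (.nd (nat_lit 8) (.nd (nat_lit 9) 
(.lf (nat_lit 503828) (.g (nat_lit 3331) (.e (nat_lit 164035) (nat_lit 55) (.e (nat_lit 778462) (nat_lit 11) (.e (nat_lit 24608) (nat_lit 3) (.e (nat_lit 98365) (nat_lit 26) (.e (nat_lit 426187) (nat_lit 9) (.e (nat_lit 426428) (nat_lit 17) (.e (nat_lit 90165) (nat_lit 12) .nil))))))) (.g (nat_lit 1) (.e (nat_lit 176937) (nat_lit 0) .nil) .nil))) 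
(.lf (nat_lit 504340) (.g (nat_lit 2516) (.e (nat_lit 164177) (nat_lit 154) (.e (nat_lit 57379) (nat_lit 3) (.e (nat_lit 98333) (nat_lit 18) (.e (nat_lit 164325) (nat_lit 230) (.e (nat_lit 163928) (nat_lit 16) .nil))))) (.g (nat_lit 0) (.e (nat_lit 178577) (nat_lit 0) .nil) .nil)))) (.nd (nat_lit 9) 
(.lf (nat_lit 504084) (.g (nat_lit 2798) (.e (nat_lit 171776) (nat_lit 63) (.e (nat_lit 90170) (nat_lit 13) (.e (nat_lit 172106) (nat_lit 10) (.e (nat_lit 434231) (nat_lit 23) (.e (nat_lit 532527) (nat_lit 9) .nil))))) (.g (nat_lit 0) (.e (nat_lit 177422) (nat_lit 0) .nil) .nil))) 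
(.lf (nat_lit 504596) (.g (nat_lit 734) (.e (nat_lit 164182) (nat_lit 154) (.e (nat_lit 57411) (nat_lit 12) (.e (nat_lit 336455) (nat_lit 34) .nil))) (.g (nat_lit 0) (.e (nat_lit 178896) (nat_lit 0) .nil) .nil))))) (.nd (nat_lit 8) (.nd (nat_lit 9) 
(.lf (nat_lit 503956) (.g (nat_lit 4257) (.e (nat_lit 164020) (nat_lit 45) (.e (nat_lit 696329) (nat_lit 5) (.e (nat_lit 2884) (nat_lit 184) (.e (nat_lit 426140) (nat_lit 3) (.e (nat_lit 204869) (nat_lit 29) (.e (nat_lit 360475) (nat_lit 8) (.e (nat_lit 557090) (nat_lit 12) .nil))))))) (.g (nat_lit 1) (.e (nat_lit 177241) (nat_lit 0) .nil) .nil))) 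
(.lf (nat_lit 504468) (.g (nat_lit 1370) (.e (nat_lit 164179) (nat_lit 154) (.e (nat_lit 57406) (nat_lit 12) (.e (nat_lit 336456) (nat_lit 34) (.e (nat_lit 483394) (nat_lit 24) .nil)))) (.g (nat_lit 0) (.e (nat_lit 178728) (nat_lit 0) .nil) .nil)))) (.nd (nat_lit 9) 
(.lf (nat_lit 504212) (.g (nat_lit 2202) (.e (nat_lit 171776) (nat_lit 86) (.e (nat_lit 532513) (nat_lit 3) (.e (nat_lit 114719) (nat_lit 23) (.e (nat_lit 98365) (nat_lit 26) (.e (nat_lit 426133) (nat_lit 3) .nil))))) (.g (nat_lit 0) (.e (nat_lit 177650) (nat_lit 0) .nil) .nil))) 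
(.lf (nat_lit 504724) (.g (nat_lit 2198) (.e (nat_lit 164207) (nat_lit 176) (.e (nat_lit 2797) (nat_lit 180) (.e (nat_lit 303117) (nat_lit 2) (.e (nat_lit 196673) (nat_lit 15) (.e (nat_lit 81951) (nat_lit 22) .nil))))) (.g (nat_lit 0) (.e (nat_lit 179088) (nat_lit 0) .nil) .nil)))))) (.nd (nat_lit 7) (.nd (nat_lit 8) (.nd (nat_lit 9) 
(.lf (nat_lit 503892) (.g (nat_lit 4632) (.e (nat_lit 164018) (nat_lit 45) (.e (nat_lit 696343) (nat_lit 8) (.e (nat_lit 172064) (nat_lit 2) (.e (nat_lit 196666) (nat_lit 13) (.e (nat_lit 65617) (nat_lit 10) (.e (nat_lit 344133) (nat_lit 26) (.e (nat_lit 557091) (nat_lit 12) .nil))))))) (.g (nat_lit 1) (.e (nat_lit 177168) (nat_lit 0) .nil) .nil))) 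
(.lf (nat_lit 504404) (.g (nat_lit 1593) (.e (nat_lit 164178) (nat_lit 154) (.e (nat_lit 57409) (nat_lit 12) (.e (nat_lit 336316) (nat_lit 17) (.e (nat_lit 196672) (nat_lit 15) .nil)))) (.g (nat_lit 0) (.e (nat_lit 178653) (nat_lit 0) .nil) .nil)))) (.nd (nat_lit 9) 
(.lf (nat_lit 504148) (.g (nat_lit 1719) (.e (nat_lit 164092) (nat_lit 82) (.e (nat_lit 500046) (nat_lit 16) (.e (nat_lit 16466) (nat_lit 13) (.e (nat_lit 483333) (nat_lit 0) (.e (nat_lit 7105) (nat_lit 380) .nil))))) (.g (nat_lit 0) (.e (nat_lit 177495) (nat_lit 0) .nil) .nil))) 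
(.lf (nat_lit 504660) (.g (nat_lit 282) (.e (nat_lit 164183) (nat_lit 154) (.e (nat_lit 57409) (nat_lit 12) (.e (nat_lit 336454) (nat_lit 34) .nil))) (.g (nat_lit 0) (.e (nat_lit 178981) (nat_lit 0) .nil) .nil))))) (.nd (nat_lit 8) (.nd (nat_lit 9) 
(.lf (nat_lit 504020) (.g (nat_lit 561) (.e (nat_lit 164020) (nat_lit 45) (.e (nat_lit 696344) (nat_lit 8) (.e (nat_lit 172138) (nat_lit 15) .nil))) (.g (nat_lit 0) (.e (nat_lit 177317) (nat_lit 0) .nil) .nil))) 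
(.lf (nat_lit 504532) (.g (nat_lit 1944) (.e (nat_lit 164181) (nat_lit 154) (.e (nat_lit 57379) (nat_lit 3) (.e (nat_lit 98342) (nat_lit 20) (.e (nat_lit 221212) (nat_lit 22) (.e (nat_lit 196681) (nat_lit 17) .nil))))) (.g (nat_lit 0) (.e (nat_lit 178813) (nat_lit 0) .nil) .nil)))) (.nd (nat_lit 9) 
(.lf (nat_lit 504276) (.g (nat_lit 3330) (.e (nat_lit 164102) (nat_lit 107) (.e (nat_lit 704738) (nat_lit 11) (.e (nat_lit 16425) (nat_lit 7) (.e (nat_lit 409648) (nat_lit 18) (.e (nat_lit 303137) (nat_lit 10) .nil))))) (.g (nat_lit 0) (.e (nat_lit 177803) (nat_lit 0) .nil) .nil))) 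
(.lf (nat_lit 504788) (.g (nat_lit 1220) (.e (nat_lit 164208) (nat_lit 176) (.e (nat_lit 1374) (nat_lit 104) (.e (nat_lit 303119) (nat_lit 3) (.e (nat_lit 204846) (nat_lit 24) .nil)))) (.g (nat_lit 0) (.e (nat_lit 179202) (nat_lit 0) .nil) .nil))))))) (.nd (nat_lit 6) (.nd (nat_lit 7) (.nd (nat_lit 8) (.nd (nat_lit 9) 
(.lf (nat_lit 503860) (.g (nat_lit 1992) (.e (nat_lit 164061) (nat_lit 57) (.e (nat_lit 794673) (nat_lit 23) (.e (nat_lit 204883) (nat_lit 33) (.e (nat_lit 401459) (nat_lit 13) (.e (nat_lit 483370) (nat_lit 20) (.e (nat_lit 147500) (nat_lit 12) .nil)))))) (.g (nat_lit 1) (.e (nat_lit 177088) (nat_lit 0) .nil) .nil))) 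
(.lf (nat_lit 504372) (.g (nat_lit 2183) (.e (nat_lit 164177) (nat_lit 154) (.e (nat_lit 57436) (nat_lit 17) (.e (nat_lit 376860) (nat_lit 21) (.e (nat_lit 57692) (nat_lit 156) (.e (nat_lit 171776) (nat_lit 65) .nil))))) (.g (nat_lit 0) (.e (nat_lit 178615) (nat_lit 0) .nil) .nil)))) (.nd (nat_lit 9) 
(.lf (nat_lit 504116) (.g (nat_lit 1813) (.e (nat_lit 171776) (nat_lit 64) (.e (nat_lit 98382) (nat_lit 31) (.e (nat_lit 466977) (nat_lit 22) (.e (nat_lit 196681) (nat_lit 17) (.e (nat_lit 131088) (nat_lit 1) .nil))))) (.g (nat_lit 0) (.e (nat_lit 177454) (nat_lit 0) .nil) .nil))) 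
(.lf (nat_lit 504628) (.g (nat_lit 2180) (.e (nat_lit 164183) (nat_lit 154) (.e (nat_lit 57378) (nat_lit 3) (.e (nat_lit 98341) (nat_lit 20) (.e (nat_lit 221215) (nat_lit 23) (.e (nat_lit 204872) (nat_lit 30) .nil))))) (.g (nat_lit 0) (.e (nat_lit 178942) (nat_lit 0) .nil) .nil))))) (.nd (nat_lit 8) (.nd (nat_lit 9) 
(.lf (nat_lit 503988) (.g (nat_lit 4599) (.e (nat_lit 164020) (nat_lit 45) (.e (nat_lit 696344) (nat_lit 8) (.e (nat_lit 172065) (nat_lit 3) (.e (nat_lit 204868) (nat_lit 29) (.e (nat_lit 360475) (nat_lit 8) (.e (nat_lit 557090) (nat_lit 12) .nil)))))) (.g (nat_lit 1) (.e (nat_lit 177285) (nat_lit 0) .nil) .nil))) 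
(.lf (nat_lit 504500) (.g (nat_lit 1535) (.e (nat_lit 164179) (nat_lit 154) (.e (nat_lit 57409) (nat_lit 12) (.e (nat_lit 336325) (nat_lit 18) (.e (nat_lit 204877) (nat_lit 31) (.e (nat_lit 376842) (nat_lit 11) .nil))))) (.g (nat_lit 0) (.e (nat_lit 178771) (nat_lit 0) .nil) .nil)))) (.nd (nat_lit 9) 
(.lf (nat_lit 504244) (.g (nat_lit 1074) (.e (nat_lit 164112) (nat_lit 118) (.e (nat_lit 794635) (nat_lit 11) (.e (nat_lit 336154) (nat_lit 9) (.e (nat_lit 336437) (nat_lit 31) (.e (nat_lit 458769) (nat_lit 16) (.e (nat_lit 164294) (nat_lit 224) .nil)))))) (.g (nat_lit 1) (.e (nat_lit 177761) (nat_lit 0) .nil) .nil))) 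
(.lf (nat_lit 504756) (.g (nat_lit 3431) (.e (nat_lit 164207) (nat_lit 176) (.e (nat_lit 2809) (nat_lit 180) (.e (nat_lit 303117) (nat_lit 2) (.e (nat_lit 196674) (nat_lit 15) (.e (nat_lit 81953) (nat_lit 22) .nil))))) (.g (nat_lit 0) (.e (nat_lit 179149) (nat_lit 0) .nil) .nil)))))) (.nd (nat_lit 7) (.nd (nat_lit 8) (.nd (nat_lit 9) 
(.lf (nat_lit 503924) (.g (nat_lit 2220) (.e (nat_lit 164018) (nat_lit 45) (.e (nat_lit 696344) (nat_lit 8) (.e (nat_lit 172082) (nat_lit 7) (.e (nat_lit 409646) (nat_lit 18) (.e (nat_lit 303139) (nat_lit 10) .nil))))) (.g (nat_lit 0) (.e (nat_lit 177207) (nat_lit 0) .nil) .nil))) 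
(.lf (nat_lit 504436) (.g (nat_lit 1355) (.e (nat_lit 164179) (nat_lit 154) (.e (nat_lit 57378) (nat_lit 3) (.e (nat_lit 98321) (nat_lit 17) (.e (nat_lit 3771) (nat_lit 229) .nil)))) (.g (nat_lit 0) (.e (nat_lit 178690) (nat_lit 0) .nil) .nil)))) (.nd (nat_lit 9) 
(.lf (nat_lit 504180) (.g (nat_lit 2287) (.e (nat_lit 164096) (nat_lit 86) (.e (nat_lit 532583) (nat_lit 26) (.e (nat_lit 426190) (nat_lit 9) (.e (nat_lit 426562) (nat_lit 33) (.e (nat_lit 385041) (nat_lit 19) (.e (nat_lit 164287) (nat_lit 224) .nil)))))) (.g (nat_lit 1) (.e (nat_lit 177578) (nat_lit 0) .nil) .nil))) 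
(.lf (nat_lit 504692) (.g (nat_lit 615) (.e (nat_lit 164183) (nat_lit 154) (.e (nat_lit 57411) (nat_lit 12) (.e (nat_lit 336455) (nat_lit 34) .nil))) (.g (nat_lit 0) (.e (nat_lit 179028) (nat_lit 0) .nil) .nil))))) (.nd (nat_lit 8) (.nd (nat_lit 9) 
(.lf (nat_lit 504052) (.g (nat_lit 4591) (.e (nat_lit 164023) (nat_lit 46) (.e (nat_lit 704628) (nat_lit 9) (.e (nat_lit 375) (nat_lit 32) (.e (nat_lit 426125) (nat_lit 2) (.e (nat_lit 196666) (nat_lit 13) (.e (nat_lit 65610) (nat_lit 10) (.e (nat_lit 344127) (nat_lit 26) (.e (nat_lit 557093) (nat_lit 12) .nil)))))))) (.g (nat_lit 1) (.e (nat_lit 177371) (nat_lit 0) .nil) .nil))) 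
(.lf (nat_lit 504564) (.g (nat_lit 4113) (.e (nat_lit 164182) (nat_lit 154) (.e (nat_lit 57379) (nat_lit 3) (.e (nat_lit 98341) (nat_lit 20) (.e (nat_lit 221210) (nat_lit 22) (.e (nat_lit 196668) (nat_lit 14) (.e (nat_lit 73746) (nat_lit 3) (.e (nat_lit 516117) (nat_lit 1) .nil))))))) (.g (nat_lit 1) (.e (nat_lit 178854) (nat_lit 0) .nil) .nil)))) (.nd (nat_lit 9) 
(.lf (nat_lit 504308) (.g (nat_lit 2109) (.e (nat_lit 164176) (nat_lit 154) (.e (nat_lit 57378) (nat_lit 3) (.e (nat_lit 98342) (nat_lit 20) (.e (nat_lit 221212) (nat_lit 22) (.e (nat_lit 196668) (nat_lit 14) .nil))))) (.g (nat_lit 0) (.e (nat_lit 178538) (nat_lit 0) .nil) .nil))) 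
(.lf (nat_lit 504820) (.g (nat_lit 3342) (.e (nat_lit 164210) (nat_lit 176) (.e (nat_lit 2797) (nat_lit 180) (.e (nat_lit 303119) (nat_lit 3) (.e (nat_lit 204869) (nat_lit 29) (.e (nat_lit 368384) (nat_lit 1) .nil))))) (.g (nat_lit 0) (.e (nat_lit 179285) (nat_lit 0) .nil) .nil))))))))) (.nd (nat_lit 4) (.nd (nat_lit 5) (.nd (nat_lit 6) (.nd (nat_lit 7) (.nd (nat_lit 8) (.nd (nat_lit 9) 
(.lf (nat_lit 503820) (.g (nat_lit 1301) (.e (nat_lit 164006) (nat_lit 41) (.e (nat_lit 663567) (nat_lit 4) (.e (nat_lit 65651) (nat_lit 27) (.e (nat_lit 426308) (nat_lit 12) (.e (nat_lit 475174) (nat_lit 23) .nil))))) (.g (nat_lit 0) (.e (nat_lit 176420) (nat_lit 0) .nil) .nil))) 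
(.lf (nat_lit 504332) (.g (nat_lit 1594) (.e (nat_lit 164177) (nat_lit 154) (.e (nat_lit 57372) (nat_lit 2) (.e (nat_lit 90128) (nat_lit 9) (.e (nat_lit 2706) (nat_lit 170) .nil)))) (.g (nat_lit 0) (.e (nat_lit 178565) (nat_lit 0) .nil) .nil)))) (.nd (nat_lit 9) 
(.lf (nat_lit 504076) (.g (nat_lit 2118) (.e (nat_lit 171776) (nat_lit 48) (.e (nat_lit 720909) (nat_lit 11) (.e (nat_lit 426139) (nat_lit 3) (.e (nat_lit 204869) (nat_lit 29) (.e (nat_lit 360473) (nat_lit 8) .nil))))) (.g (nat_lit 0) (.e (nat_lit 177409) (nat_lit 0) .nil) .nil))) 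
(.lf (nat_lit 504588) (.g (nat_lit 1020) (.e (nat_lit 164182) (nat_lit 154) (.e (nat_lit 57411) (nat_lit 12) (.e (nat_lit 336324) (nat_lit 18) (.e (nat_lit 204877) (nat_lit 31) .nil)))) (.g (nat_lit 0) (.e (nat_lit 178886) (nat_lit 0) .nil) .nil))))) (.nd (nat_lit 8) (.nd (nat_lit 9) 
(.lf (nat_lit 503948) (.g (nat_lit 3301) (.e (nat_lit 164019) (nat_lit 45) (.e (nat_lit 696348) (nat_lit 12) (.e (nat_lit 237593) (nat_lit 3) (.e (nat_lit 204869) (nat_lit 29) (.e (nat_lit 360474) (nat_lit 8) (.e (nat_lit 557091) (nat_lit 12) .nil)))))) (.g (nat_lit 1) (.e (nat_lit 177233) (nat_lit 0) .nil) .nil))) 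
(.lf (nat_lit 504460) (.g (nat_lit 3010) (.e (nat_lit 164179) (nat_lit 154) (.e (nat_lit 57406) (nat_lit 12) (.e (nat_lit 336454) (nat_lit 34) (.e (nat_lit 483395) (nat_lit 24) (.e (nat_lit 344117) (nat_lit 21) .nil))))) (.g (nat_lit 0) (.e (nat_lit 178720) (nat_lit 0) .nil) .nil)))) (.nd (nat_lit 9) 
(.lf (nat_lit 504204) (.g (nat_lit 2436) (.e (nat_lit 164096) (nat_lit 86) (.e (nat_lit 532583) (nat_lit 26) (.e (nat_lit 426199) (nat_lit 9) (.e (nat_lit 426562) (nat_lit 33) (.e (nat_lit 385041) (nat_lit 19) (.e (nat_lit 164292) (nat_lit 224) .nil)))))) (.g (nat_lit 1) (.e (nat_lit 177602) (nat_lit 0) .nil) .nil))) 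
(.lf (nat_lit 504716) (.g (nat_lit 1858) (.e (nat_lit 171776) (nat_lit 160) (.e (nat_lit 57379) (nat_lit 3) (.e (nat_lit 98366) (nat_lit 27) (.e (nat_lit 434247) (nat_lit 28) (.e (nat_lit 573485) (nat_lit 13) .nil))))) (.g (nat_lit 0) (.e (nat_lit 179076) (nat_lit 0) .nil) .nil)))))) (.nd (nat_lit 7) (.nd (nat_lit 8) (.nd (nat_lit 9) 
(.lf (nat_lit 503884) (.g (nat_lit 3758) (.e (nat_lit 164018) (nat_lit 45) (.e (nat_lit 696327) (nat_lit 5) (.e (nat_lit 2980) (nat_lit 185) (.e (nat_lit 434231) (nat_lit 23) (.e (nat_lit 532550) (nat_lit 12) (.e (nat_lit 360474) (nat_lit 8) (.e (nat_lit 557088) (nat_lit 12) .nil))))))) (.g (nat_lit 1) (.e (nat_lit 177138) (nat_lit 0) .nil) .nil))) 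
(.lf (nat_lit 504396) (.g (nat_lit 1933) (.e (nat_lit 164178) (nat_lit 154) (.e (nat_lit 57407) (nat_lit 12) (.e (nat_lit 336320) (nat_lit 17) (.e (nat_lit 196674) (nat_lit 15) (.e (nat_lit 81925) (nat_lit 11) .nil))))) (.g (nat_lit 0) (.e (nat_lit 178645) (nat_lit 0) .nil) .nil)))) (.nd (nat_lit 9) 
(.lf (nat_lit 504140) (.g (nat_lit 860) (.e (nat_lit 164092) (nat_lit 82) (.e (nat_lit 500046) (nat_lit 16) (.e (nat_lit 16465) (nat_lit 13) (.e (nat_lit 491264) (nat_lit 0) .nil)))) (.g (nat_lit 0) (.e (nat_lit 177487) (nat_lit 0) .nil) .nil))) 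
(.lf (nat_lit 504652) (.g (nat_lit 1329) (.e (nat_lit 164183) (nat_lit 154) (.e (nat_lit 57409) (nat_lit 12) (.e (nat_lit 336324) (nat_lit 18) (.e (nat_lit 204867) (nat_lit 28) .nil)))) (.g (nat_lit 0) (.e (nat_lit 178969) (nat_lit 0) .nil) .nil))))) (.nd (nat_lit 8) (.nd (nat_lit 9) 
(.lf (nat_lit 504012) (.g (nat_lit 1974) (.e (nat_lit 164020) (nat_lit 45) (.e (nat_lit 696344) (nat_lit 8) (.e (nat_lit 172079) (nat_lit 7) (.e (nat_lit 409645) (nat_lit 18) (.e (nat_lit 303139) (nat_lit 10) (.e (nat_lit 434276) (nat_lit 39) (.e (nat_lit 663584) (nat_lit 12) .nil))))))) (.g (nat_lit 1) (.e (nat_lit 177309) (nat_lit 0) .nil) .nil))) 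
(.lf (nat_lit 504524) (.g (nat_lit 1962) (.e (nat_lit 164180) (nat_lit 154) (.e (nat_lit 57409) (nat_lit 12) (.e (nat_lit 336326) (nat_lit 18) (.e (nat_lit 204854) (nat_lit 26) (.e (nat_lit 336211) (nat_lit 13) .nil))))) (.g (nat_lit 0) (.e (nat_lit 178801) (nat_lit 0) .nil) .nil)))) (.nd (nat_lit 9) 
(.lf (nat_lit 504268) (.g (nat_lit 1967) (.e (nat_lit 164112) (nat_lit 118) (.e (nat_lit 794637) (nat_lit 11) (.e (nat_lit 336087) (nat_lit 9) (.e (nat_lit 336438) (nat_lit 31) (.e (nat_lit 458769) (nat_lit 16) (.e (nat_lit 164288) (nat_lit 224) .nil)))))) (.g (nat_lit 1) (.e (nat_lit 177785) (nat_lit 0) .nil) .nil))) 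
(.lf (nat_lit 504780) (.g (nat_lit 1865) (.e (nat_lit 164208) (nat_lit 176) (.e (nat_lit 2810) (nat_lit 180) (.e (nat_lit 303119) (nat_lit 3) (.e (nat_lit 204877) (nat_lit 31) (.e (nat_lit 376865) (nat_lit 22) .nil))))) (.g (nat_lit 0) (.e (nat_lit 179187) (nat_lit 0) .nil) .nil))))))) (.nd (nat_lit 6) (.nd (nat_lit 7) (.nd (nat_lit 8) (.nd (nat_lit 9) 
(.lf (nat_lit 503852) (.g (nat_lit 3024) (.e (nat_lit 164050) (nat_lit 55) (.e (nat_lit 778466) (nat_lit 11) (.e (nat_lit 24617) (nat_lit 7) (.e (nat_lit 319534) (nat_lit 16) (.e (nat_lit 286756) (nat_lit 10) (.e (nat_lit 344168) (nat_lit 40) (.e (nat_lit 671780) (nat_lit 12) .nil))))))) (.g (nat_lit 1) (.e (nat_lit 176974) (nat_lit 0) .nil) .nil))) 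
(.lf (nat_lit 504364) (.g (nat_lit 1555) (.e (nat_lit 164177) (nat_lit 154) (.e (nat_lit 57407) (nat_lit 12) (.e (nat_lit 336456) (nat_lit 34) (.e (nat_lit 483394) (nat_lit 24) (.e (nat_lit 344119) (nat_lit 21) .nil))))) (.g (nat_lit 0) (.e (nat_lit 178606) (nat_lit 0) .nil) .nil)))) (.nd (nat_lit 9) 
(.lf (nat_lit 504108) (.g (nat_lit 1629) (.e (nat_lit 171776) (nat_lit 64) (.e (nat_lit 98381) (nat_lit 31) (.e (nat_lit 466974) (nat_lit 22) (.e (nat_lit 196681) (nat_lit 17) (.e (nat_lit 131088) (nat_lit 1) .nil))))) (.g (nat_lit 0) (.e (nat_lit 177446) (nat_lit 0) .nil) .nil))) 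
(.lf (nat_lit 504620) (.g (nat_lit 740) (.e (nat_lit 164183) (nat_lit 154) (.e (nat_lit 57378) (nat_lit 3) (.e (nat_lit 98322) (nat_lit 17) .nil))) (.g (nat_lit 0) (.e (nat_lit 178928) (nat_lit 0) .nil) .nil))))) (.nd (nat_lit 8) (.nd (nat_lit 9) 
(.lf (nat_lit 503980) (.g (nat_lit 2994) (.e (nat_lit 164020) (nat_lit 45) (.e (nat_lit 696343) (nat_lit 8) (.e (nat_lit 172082) (nat_lit 7) (.e (nat_lit 409646) (nat_lit 18) (.e (nat_lit 303140) (nat_lit 10) (.e (nat_lit 434275) (nat_lit 39) (.e (nat_lit 663584) (nat_lit 12) .nil))))))) (.g (nat_lit 1) (.e (nat_lit 177277) (nat_lit 0) .nil) .nil))) 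
(.lf (nat_lit 504492) (.g (nat_lit 1738) (.e (nat_lit 164179) (nat_lit 154) (.e (nat_lit 57408) (nat_lit 12) (.e (nat_lit 336454) (nat_lit 34) (.e (nat_lit 483394) (nat_lit 24) .nil)))) (.g (nat_lit 0) (.e (nat_lit 178760) (nat_lit 0) .nil) .nil)))) (.nd (nat_lit 9) 
(.lf (nat_lit 504236) (.g (nat_lit 1038) (.e (nat_lit 164112) (nat_lit 118) (.e (nat_lit 794635) (nat_lit 11) (.e (nat_lit 336153) (nat_lit 9) (.e (nat_lit 336437) (nat_lit 31) (.e (nat_lit 458769) (nat_lit 16) (.e (nat_lit 164288) (nat_lit 224) .nil)))))) (.g (nat_lit 1) (.e (nat_lit 177753) (nat_lit 0) .nil) .nil))) 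
(.lf (nat_lit 504748) (.g (nat_lit 2215) (.e (nat_lit 164207) (nat_lit 176) (.e (nat_lit 2808) (nat_lit 180) (.e (nat_lit 303116) (nat_lit 2) (.e (nat_lit 196666) (nat_lit 13) (.e (nat_lit 65604) (nat_lit 9) .nil))))) (.g (nat_lit 0) (.e (nat_lit 179139) (nat_lit 0) .nil) .nil)))))) (.nd (nat_lit 7) (.nd (nat_lit 8) (.nd (nat_lit 9) 
(.lf (nat_lit 503916) (.g (nat_lit 3424) (.e (nat_lit 164018) (nat_lit 45) (.e (nat_lit 696344) (nat_lit 8) (.e (nat_lit 172078) (nat_lit 7) (.e (nat_lit 409646) (nat_lit 18) (.e (nat_lit 303140) (nat_lit 10) (.e (nat_lit 434275) (nat_lit 39) (.e (nat_lit 663585) (nat_lit 12) .nil))))))) (.g (nat_lit 1) (.e (nat_lit 177199) (nat_lit 0) .nil) .nil))) 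
(.lf (nat_lit 504428) (.g (nat_lit 2305) (.e (nat_lit 164179) (nat_lit 154) (.e (nat_lit 57377) (nat_lit 3) (.e (nat_lit 98341) (nat_lit 20) (.e (nat_lit 221210) (nat_lit 22) (.e (nat_lit 196664) (nat_lit 13) .nil))))) (.g (nat_lit 0) (.e (nat_lit 178682) (nat_lit 0) .nil) .nil)))) (.nd (nat_lit 9) 
(.lf (nat_lit 504172) (.g (nat_lit 1941) (.e (nat_lit 164096) (nat_lit 86) (.e (nat_lit 532583) (nat_lit 26) (.e (nat_lit 426189) (nat_lit 9) (.e (nat_lit 426562) (nat_lit 33) (.e (nat_lit 385041) (nat_lit 19) (.e (nat_lit 164286) (nat_lit 224) .nil)))))) (.g (nat_lit 1) (.e (nat_lit 177570) (nat_lit 0) .nil) .nil))) 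
(.lf (nat_lit 504684) (.g (nat_lit 1977) (.e (nat_lit 164183) (nat_lit 154) (.e (nat_lit 57411) (nat_lit 12) (.e (nat_lit 336325) (nat_lit 18) (.e (nat_lit 204855) (nat_lit 26) (.e (nat_lit 336217) (nat_lit 13) .nil))))) (.g (nat_lit 0) (.e (nat_lit 179014) (nat_lit 0) .nil) .nil))))) (.nd (nat_lit 8) (.nd (nat_lit 9) 
(.lf (nat_lit 504044) (.g (nat_lit 1356) (.e (nat_lit 164022) (nat_lit 46) (.e (nat_lit 704737) (nat_lit 11) (.e (nat_lit 16392) (nat_lit 0) (.e (nat_lit 7936) (nat_lit 197) .nil)))) (.g (nat_lit 0) (.e (nat_lit 177353) (nat_lit 0) .nil) .nil))) 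
(.lf (nat_lit 504556) (.g (nat_lit 1265) (.e (nat_lit 164182) (nat_lit 154) (.e (nat_lit 57378) (nat_lit 3) (.e (nat_lit 98342) (nat_lit 20) (.e (nat_lit 221212) (nat_lit 22) .nil)))) (.g (nat_lit 0) (.e (nat_lit 178843) (nat_lit 0) .nil) .nil)))) (.nd (nat_lit 9) 
(.lf (nat_lit 504300) (.g (nat_lit 1573) (.e (nat_lit 164176) (nat_lit 154) (.e (nat_lit 57371) (nat_lit 2) (.e (nat_lit 90128) (nat_lit 9) (.e (nat_lit 2706) (nat_lit 170) .nil)))) (.g (nat_lit 0) (.e (nat_lit 178529) (nat_lit 0) .nil) .nil))) 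
(.lf (nat_lit 504812) (.g (nat_lit 2643) (.e (nat_lit 164209) (nat_lit 176) (.e (nat_lit 2797) (nat_lit 180) (.e (nat_lit 303119) (nat_lit 3) (.e (nat_lit 204877) (nat_lit 31) (.e (nat_lit 376865) (nat_lit 22) .nil))))) (.g (nat_lit 0) (.e (nat_lit 179248) (nat_lit 0) .nil) .nil)))))))) (.nd (nat_lit 5) (.nd (nat_lit 6) (.nd (nat_lit 7) (.nd (nat_lit 8) (.nd (nat_lit 9) 
(.lf (nat_lit 503836) (.g (nat_lit 1391) (.e (nat_lit 164046) (nat_lit 55) (.e (nat_lit 778462) (nat_lit 11) (.e (nat_lit 24604) (nat_lit 2) (.e (nat_lit 90178) (nat_lit 15) (.e (nat_lit 196352) (nat_lit 2) (.e (nat_lit 90165) (nat_lit 12) .nil)))))) (.g (nat_lit 1) (.e (nat_lit 176950) (nat_lit 0) .nil) .nil))) 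
(.lf (nat_lit 504348) (.g (nat_lit 1292) (.e (nat_lit 164177) (nat_lit 154) (.e (nat_lit 57405) (nat_lit 12) (.e (nat_lit 336316) (nat_lit 17) (.e (nat_lit 196666) (nat_lit 13) (.e (nat_lit 65625) (nat_lit 13) .nil))))) (.g (nat_lit 0) (.e (nat_lit 178587) (nat_lit 0) .nil) .nil)))) (.nd (nat_lit 9) 
(.lf (nat_lit 504092) (.g (nat_lit 1408) (.e (nat_lit 171776) (nat_lit 64) (.e (nat_lit 98365) (nat_lit 26) (.e (nat_lit 426298) (nat_lit 11) (.e (nat_lit 458789) (nat_lit 23) (.e (nat_lit 532553) (nat_lit 13) .nil))))) (.g (nat_lit 0) (.e (nat_lit 177430) (nat_lit 0) .nil) .nil))) 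
(.lf (nat_lit 504604) (.g (nat_lit 1276) (.e (nat_lit 164183) (nat_lit 154) (.e (nat_lit 57373) (nat_lit 2) (.e (nat_lit 90128) (nat_lit 9) (.e (nat_lit 2706) (nat_lit 170) .nil)))) (.g (nat_lit 0) (.e (nat_lit 178907) (nat_lit 0) .nil) .nil))))) (.nd (nat_lit 8) (.nd (nat_lit 9) 
(.lf (nat_lit 503964) (.g (nat_lit 4423) (.e (nat_lit 164020) (nat_lit 45) (.e (nat_lit 696330) (nat_lit 5) (.e (nat_lit 2980) (nat_lit 185) (.e (nat_lit 434231) (nat_lit 23) (.e (nat_lit 532550) (nat_lit 12) (.e (nat_lit 360475) (nat_lit 8) (.e (nat_lit 557091) (nat_lit 12) .nil))))))) (.g (nat_lit 1) (.e (nat_lit 177253) (nat_lit 0) .nil) .nil))) 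
(.lf (nat_lit 504476) (.g (nat_lit 1880) (.e (nat_lit 164179) (nat_lit 154) (.e (nat_lit 57407) (nat_lit 12) (.e (nat_lit 336454) (nat_lit 34) (.e (nat_lit 483378) (nat_lit 23) (.e (nat_lit 336028) (nat_lit 3) .nil))))) (.g (nat_lit 0) (.e (nat_lit 178743) (nat_lit 0) .nil) .nil)))) (.nd (nat_lit 9) 
(.lf (nat_lit 504220) (.g (nat_lit 1552) (.e (nat_lit 164104) (nat_lit 116) (.e (nat_lit 778462) (nat_lit 11) (.e (nat_lit 24628) (nat_lit 9) (.e (nat_lit 336438) (nat_lit 31) (.e (nat_lit 458769) (nat_lit 16) .nil))))) (.g (nat_lit 0) (.e (nat_lit 177701) (nat_lit 0) .nil) .nil))) 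
(.lf (nat_lit 504732) (.g (nat_lit 3387) (.e (nat_lit 164207) (nat_lit 176) (.e (nat_lit 2797) (nat_lit 180) (.e (nat_lit 303119) (nat_lit 3) (.e (nat_lit 204869) (nat_lit 29) (.e (nat_lit 368384) (nat_lit 1) .nil))))) (.g (nat_lit 0) (.e (nat_lit 179109) (nat_lit 0) .nil) .nil)))))) (.nd (nat_lit 7) (.nd (nat_lit 8) (.nd (nat_lit 9) 
(.lf (nat_lit 503900) (.g (nat_lit 4311) (.e (nat_lit 164018) (nat_lit 45) (.e (nat_lit 696344) (nat_lit 8) (.e (nat_lit 172062) (nat_lit 2) (.e (nat_lit 196666) (nat_lit 13) (.e (nat_lit 65617) (nat_lit 10) (.e (nat_lit 344133) (nat_lit 26) (.e (nat_lit 557091) (nat_lit 12) .nil))))))) (.g (nat_lit 1) (.e (nat_lit 177183) (nat_lit 0) .nil) .nil))) 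
(.lf (nat_lit 504412) (.g (nat_lit 1984) (.e (nat_lit 164178) (nat_lit 154) (.e (nat_lit 57411) (nat_lit 12) (.e (nat_lit 336326) (nat_lit 18) (.e (nat_lit 204876) (nat_lit 31) (.e (nat_lit 376842) (nat_lit 11) .nil))))) (.g (nat_lit 0) (.e (nat_lit 178661) (nat_lit 0) .nil) .nil)))) (.nd (nat_lit 9) 
(.lf (nat_lit 504156) (.g (nat_lit 1216) (.e (nat_lit 164092) (nat_lit 82) (.e (nat_lit 500046) (nat_lit 16) (.e (nat_lit 16466) (nat_lit 13) (.e (nat_lit 491264) (nat_lit 7) .nil)))) (.g (nat_lit 0) (.e (nat_lit 177503) (nat_lit 0) .nil) .nil))) 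
(.lf (nat_lit 504668) (.g (nat_lit 868) (.e (nat_lit 164183) (nat_lit 154) (.e (nat_lit 57410) (nat_lit 12) (.e (nat_lit 336456) (nat_lit 34) (.e (nat_lit 483394) (nat_lit 24) .nil)))) (.g (nat_lit 0) (.e (nat_lit 178994) (nat_lit 0) .nil) .nil))))) (.nd (nat_lit 8) (.nd (nat_lit 9) 
(.lf (nat_lit 504028) (.g (nat_lit 4606) (.e (nat_lit 164022) (nat_lit 46) (.e (nat_lit 704629) (nat_lit 9) (.e (nat_lit 375) (nat_lit 32) (.e (nat_lit 426125) (nat_lit 2) (.e (nat_lit 196666) (nat_lit 13) (.e (nat_lit 65610) (nat_lit 10) (.e (nat_lit 344128) (nat_lit 26) (.e (nat_lit 557094) (nat_lit 12) .nil)))))))) (.g (nat_lit 1) (.e (nat_lit 177334) (nat_lit 0) .nil) .nil))) 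
(.lf (nat_lit 504540) (.g (nat_lit 3009) (.e (nat_lit 164182) (nat_lit 154) (.e (nat_lit 57368) (nat_lit 1) (.e (nat_lit 57854) (nat_lit 252) (.e (nat_lit 57409) (nat_lit 12) (.e (nat_lit 336000) (nat_lit 1) (.e (nat_lit 57687) (nat_lit 156) (.e (nat_lit 163933) (nat_lit 17) (.e (nat_lit 466971) (nat_lit 21) .nil)))))))) (.g (nat_lit 1) (.e (nat_lit 178821) (nat_lit 0) .nil) .nil)))) 
(.nd (nat_lit 9) 
(.lf (nat_lit 504284) (.g (nat_lit 3095) (.e (nat_lit 164151) (nat_lit 152) (.e (nat_lit 2635) (nat_lit 165) (.e (nat_lit 180252) (nat_lit 10) (.e (nat_lit 573474) (nat_lit 12) (.e (nat_lit 57491) (nat_lit 33) .nil))))) (.g (nat_lit 0) (.e (nat_lit 177891) (nat_lit 0) .nil) .nil))) 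
(.lf (nat_lit 504796) (.g (nat_lit 2197) (.e (nat_lit 164209) (nat_lit 176) (.e (nat_lit 2797) (nat_lit 180) (.e (nat_lit 303117) (nat_lit 2) (.e (nat_lit 196673) (nat_lit 15) (.e (nat_lit 81951) (nat_lit 22) .nil))))) (.g (nat_lit 0) (.e (nat_lit 179218) (nat_lit 0) .nil) .nil))))))) (.nd (nat_lit 6) (.nd (nat_lit 7) (.nd (nat_lit 8) (.nd (nat_lit 9) 
(.lf (nat_lit 503868) (.g (nat_lit 3919) (.e (nat_lit 164016) (nat_lit 44) (.e (nat_lit 688139) (nat_lit 5) (.e (nat_lit 2887) (nat_lit 184) (.e (nat_lit 426140) (nat_lit 3) (.e (nat_lit 204869) (nat_lit 29) (.e (nat_lit 360475) (nat_lit 8) (.e (nat_lit 557091) (nat_lit 12) .nil))))))) (.g (nat_lit 1) (.e (nat_lit 177103) (nat_lit 0) .nil) .nil))) 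
(.lf (nat_lit 504380) (.g (nat_lit 2748) (.e (nat_lit 164178) (nat_lit 154) (.e (nat_lit 57378) (nat_lit 3) (.e (nat_lit 98333) (nat_lit 18) (.e (nat_lit 164325) (nat_lit 230) (.e (nat_lit 163926) (nat_lit 16) .nil))))) (.g (nat_lit 0) (.e (nat_lit 178624) (nat_lit 0) .nil) .nil)))) (.nd (nat_lit 9) 
(.lf (nat_lit 504124) (.g (nat_lit 2684) (.e (nat_lit 171776) (nat_lit 81) (.e (nat_lit 401457) (nat_lit 13) (.e (nat_lit 483413) (nat_lit 27) (.e (nat_lit 401448) (nat_lit 10) (.e (nat_lit 434201) (nat_lit 18) .nil))))) (.g (nat_lit 0) (.e (nat_lit 177469) (nat_lit 0) .nil) .nil))) 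
(.lf (nat_lit 504636) (.g (nat_lit 534) (.e (nat_lit 164183) (nat_lit 154) (.e (nat_lit 57379) (nat_lit 3) (.e (nat_lit 98341) (nat_lit 20) .nil))) (.g (nat_lit 0) (.e (nat_lit 178953) (nat_lit 0) .nil) .nil))))) (.nd (nat_lit 8) (.nd (nat_lit 9) 
(.lf (nat_lit 503996) (.g (nat_lit 2304) (.e (nat_lit 164020) (nat_lit 45) (.e (nat_lit 696344) (nat_lit 8) (.e (nat_lit 172067) (nat_lit 3) (.e (nat_lit 204855) (nat_lit 26) (.e (nat_lit 336163) (nat_lit 10) .nil))))) (.g (nat_lit 0) (.e (nat_lit 177293) (nat_lit 0) .nil) .nil))) 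
(.lf (nat_lit 504508) (.g (nat_lit 854) (.e (nat_lit 164179) (nat_lit 154) (.e (nat_lit 57411) (nat_lit 12) (.e (nat_lit 336368) (nat_lit 27) .nil))) (.g (nat_lit 0) (.e (nat_lit 178780) (nat_lit 0) .nil) .nil)))) (.nd (nat_lit 9) 
(.lf (nat_lit 504252) (.g (nat_lit 1019) (.e (nat_lit 164112) (nat_lit 118) (.e (nat_lit 794637) (nat_lit 11) (.e (nat_lit 336074) (nat_lit 9) (.e (nat_lit 336438) (nat_lit 31) (.e (nat_lit 458769) (nat_lit 16) (.e (nat_lit 164294) (nat_lit 224) .nil)))))) (.g (nat_lit 1) (.e (nat_lit 177769) (nat_lit 0) .nil) .nil))) 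
(.lf (nat_lit 504764) (.g (nat_lit 2439) (.e (nat_lit 164207) (nat_lit 176) (.e (nat_lit 2810) (nat_lit 180) (.e (nat_lit 303119) (nat_lit 3) (.e (nat_lit 204866) (nat_lit 28) (.e (nat_lit 352312) (nat_lit 22) .nil))))) (.g (nat_lit 0) (.e (nat_lit 179161) (nat_lit 0) .nil) .nil)))))) (.nd (nat_lit 7) (.nd (nat_lit 8) (.nd (nat_lit 9) 
(.lf (nat_lit 503932) (.g (nat_lit 5335) (.e (nat_lit 164019) (nat_lit 45) (.e (nat_lit 696344) (nat_lit 8) (.e (nat_lit 172064) (nat_lit 2) (.e (nat_lit 196666) (nat_lit 13) (.e (nat_lit 65610) (nat_lit 10) (.e (nat_lit 344129) (nat_lit 26) (.e (nat_lit 557090) (nat_lit 12) .nil))))))) (.g (nat_lit 1) (.e (nat_lit 177217) (nat_lit 0) .nil) .nil))) 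
(.lf (nat_lit 504444) (.g (nat_lit 2583) (.e (nat_lit 164179) (nat_lit 154) (.e (nat_lit 57378) (nat_lit 3) (.e (nat_lit 98342) (nat_lit 20) (.e (nat_lit 221212) (nat_lit 22) (.e (nat_lit 196668) (nat_lit 14) (.e (nat_lit 73747) (nat_lit 3) (.e (nat_lit 516118) (nat_lit 1) .nil))))))) (.g (nat_lit 1) (.e (nat_lit 178700) (nat_lit 0) .nil) .nil)))) (.nd (nat_lit 9) 
(.lf (nat_lit 504188) (.g (nat_lit 1569) (.e (nat_lit 164096) (nat_lit 86) (.e (nat_lit 532583) (nat_lit 26) (.e (nat_lit 426196) (nat_lit 9) (.e (nat_lit 426562) (nat_lit 33) (.e (nat_lit 385041) (nat_lit 19) (.e (nat_lit 164294) (nat_lit 224) .nil)))))) (.g (nat_lit 1) (.e (nat_lit 177586) (nat_lit 0) .nil) .nil))) 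
(.lf (nat_lit 504700) (.g (nat_lit 2192) (.e (nat_lit 171776) (nat_lit 160) (.e (nat_lit 57371) (nat_lit 2) (.e (nat_lit 90172) (nat_lit 14) (.e (nat_lit 180250) (nat_lit 10) (.e (nat_lit 573488) (nat_lit 14) .nil))))) (.g (nat_lit 0) (.e (nat_lit 179058) (nat_lit 0) .nil) .nil))))) (.nd (nat_lit 8) (.nd (nat_lit 9) 
(.lf (nat_lit 504060) (.g (nat_lit 1912) (.e (nat_lit 164023) (nat_lit 46) (.e (nat_lit 704735) (nat_lit 11) (.e (nat_lit 16468) (nat_lit 13) (.e (nat_lit 483372) (nat_lit 21) (.e (nat_lit 319511) (nat_lit 10) (.e (nat_lit 5761) (nat_lit 315) .nil)))))) (.g (nat_lit 1) (.e (nat_lit 177386) (nat_lit 0) .nil) .nil))) 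
(.lf (nat_lit 504572) (.g (nat_lit 2361) (.e (nat_lit 164182) (nat_lit 154) (.e (nat_lit 57409) (nat_lit 12) (.e (nat_lit 336454) (nat_lit 34) (.e (nat_lit 483378) (nat_lit 23) (.e (nat_lit 336028) (nat_lit 3) .nil))))) (.g (nat_lit 0) (.e (nat_lit 178865) (nat_lit 0) .nil) .nil)))) (.nd (nat_lit 9) 
(.lf (nat_lit 504316) (.g (nat_lit 2829) (.e (nat_lit 164176) (nat_lit 154) (.e (nat_lit 57406) (nat_lit 12) (.e (nat_lit 336454) (nat_lit 34) (.e (nat_lit 483398) (nat_lit 25) .nil)))) (.g (nat_lit 0) (.e (nat_lit 178547) (nat_lit 0) .nil) .nil))) 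
(.lf (nat_lit 504828) (.g (nat_lit 2325) (.e (nat_lit 164210) (nat_lit 176) (.e (nat_lit 2798) (nat_lit 180) (.e (nat_lit 303117) (nat_lit 2) (.e (nat_lit 196673) (nat_lit 15) (.e (nat_lit 81953) (nat_lit 22) .nil))))) (.g (nat_lit 0) (.e (nat_lit 179295) (nat_lit 0) .nil) .nil))))))))))) 
(.nd (nat_lit 2) (.nd (nat_lit 3) (.nd (nat_lit 4) (.nd (nat_lit 5) (.nd (nat_lit 6) 
(.nd (nat_lit 7) (.nd (nat_lit 8) (.nd (nat_lit 9) 
(.lf (nat_lit 503810) (.g (nat_lit 1974) (.e (nat_lit 163999) (nat_lit 38) (.e (nat_lit 639020) (nat_lit 16) (.e (nat_lit 65627) (nat_lit 13) (.e (nat_lit 393284) (nat_lit 24) (.e (nat_lit 434278) (nat_lit 39) (.e (nat_lit 663584) (nat_lit 12) .nil)))))) (.g (nat_lit 1) (.e (nat_lit 176408) (nat_lit 0) .nil) .nil))) 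
(.lf (nat_lit 504322) (.g (nat_lit 1351) (.e (nat_lit 164176) (nat_lit 154) (.e (nat_lit 57409) (nat_lit 12) (.e (nat_lit 336456) (nat_lit 34) (.e (nat_lit 483391) (nat_lit 23) (.e (nat_lit 336017) (nat_lit 3) .nil))))) (.g (nat_lit 0) (.e (nat_lit 178553) (nat_lit 0) .nil) .nil)))) (.nd (nat_lit 9) 
(.lf (nat_lit 504066) (.g (nat_lit 1710) (.e (nat_lit 164023) (nat_lit 46) (.e (nat_lit 704737) (nat_lit 11) (.e (nat_lit 16468) (nat_lit 13) (.e (nat_lit 483372) (nat_lit 21) (.e (nat_lit 319511) (nat_lit 10) .nil))))) (.g (nat_lit 0) (.e (nat_lit 177392) (nat_lit 0) .nil) .nil))) 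
(.lf (nat_lit 504578) (.g (nat_lit 1393) (.e (nat_lit 164182) (nat_lit 154) (.e (nat_lit 57409) (nat_lit 12) (.e (nat_lit 336456) (nat_lit 34) (.e (nat_lit 483395) (nat_lit 24) (.e (nat_lit 344120) (nat_lit 21) .nil))))) (.g (nat_lit 0) (.e (nat_lit 178871) (nat_lit 0) .nil) .nil))))) (.nd (nat_lit 8) (.nd (nat_lit 9) 
(.lf (nat_lit 503938) (.g (nat_lit 4930) (.e (nat_lit 164019) (nat_lit 45) (.e (nat_lit 696344) (nat_lit 8) (.e (nat_lit 172067) (nat_lit 3) (.e (nat_lit 204855) (nat_lit 26) (.e (nat_lit 336176) (nat_lit 10) (.e (nat_lit 344133) (nat_lit 26) (.e (nat_lit 557091) (nat_lit 12) .nil))))))) (.g (nat_lit 1) (.e (nat_lit 177223) (nat_lit 0) .nil) .nil))) 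
(.lf (nat_lit 504450) (.g (nat_lit 1596) (.e (nat_lit 164179) (nat_lit 154) (.e (nat_lit 57406) (nat_lit 12) (.e (nat_lit 336316) (nat_lit 17) (.e (nat_lit 196674) (nat_lit 15) (.e (nat_lit 81926) (nat_lit 11) .nil))))) (.g (nat_lit 0) (.e (nat_lit 178707) (nat_lit 0) .nil) .nil)))) (.nd (nat_lit 9) 
(.lf (nat_lit 504194) (.g (nat_lit 2089) (.e (nat_lit 164096) (nat_lit 86) (.e (nat_lit 532583) (nat_lit 26) (.e (nat_lit 426197) (nat_lit 9) (.e (nat_lit 426562) (nat_lit 33) (.e (nat_lit 385041) (nat_lit 19) (.e (nat_lit 164292) (nat_lit 224) .nil)))))) (.g (nat_lit 1) (.e (nat_lit 177592) (nat_lit 0) .nil) .nil))) 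
(.lf (nat_lit 504706) (.g (nat_lit 1956) (.e (nat_lit 171776) (nat_lit 160) (.e (nat_lit 57372) (nat_lit 2) (.e (nat_lit 90174) (nat_lit 14) (.e (nat_lit 180251) (nat_lit 10) .nil)))) (.g (nat_lit 0) (.e (nat_lit 179064) (nat_lit 0) .nil) .nil)))))) (.nd (nat_lit 7) (.nd (nat_lit 8) (.nd (nat_lit 9) 
(.lf (nat_lit 503874) (.g (nat_lit 3117) (.e (nat_lit 164017) (nat_lit 44) (.e (nat_lit 688138) (nat_lit 5) (.e (nat_lit 3062) (nat_lit 190) (.e (nat_lit 475179) (nat_lit 24) (.e (nat_lit 516176) (nat_lit 14) (.e (nat_lit 466945) (nat_lit 0) (.e (nat_lit 7936) (nat_lit 360) .nil))))))) (.g (nat_lit 1) (.e (nat_lit 177127) (nat_lit 0) .nil) .nil))) 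
(.lf (nat_lit 504386) (.g (nat_lit 1895) (.e (nat_lit 164178) (nat_lit 154) (.e (nat_lit 57379) (nat_lit 3) (.e (nat_lit 98342) (nat_lit 20) (.e (nat_lit 221212) (nat_lit 22) .nil)))) (.g (nat_lit 0) (.e (nat_lit 178631) (nat_lit 0) .nil) .nil)))) (.nd (nat_lit 9) 
(.lf (nat_lit 504130) (.g (nat_lit 989) (.e (nat_lit 164092) (nat_lit 82) (.e (nat_lit 500046) (nat_lit 16) (.e (nat_lit 16463) (nat_lit 13) (.e (nat_lit 483333) (nat_lit 0) .nil)))) (.g (nat_lit 0) (.e (nat_lit 177476) (nat_lit 0) .nil) .nil))) 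
(.lf (nat_lit 504642) (.g (nat_lit 2080) (.e (nat_lit 164183) (nat_lit 154) (.e (nat_lit 57379) (nat_lit 3) (.e (nat_lit 98342) (nat_lit 20) (.e (nat_lit 221212) (nat_lit 22) (.e (nat_lit 196665) (nat_lit 13) .nil))))) (.g (nat_lit 0) (.e (nat_lit 178959) (nat_lit 0) .nil) .nil))))) (.nd (nat_lit 8) (.nd (nat_lit 9) 
(.lf (nat_lit 504002) (.g (nat_lit 4529) (.e (nat_lit 164020) (nat_lit 45) (.e (nat_lit 696344) (nat_lit 8) (.e (nat_lit 172067) (nat_lit 3) (.e (nat_lit 204869) (nat_lit 29) (.e (nat_lit 360473) (nat_lit 8) (.e (nat_lit 557090) (nat_lit 12) .nil)))))) (.g (nat_lit 1) (.e (nat_lit 177299) (nat_lit 0) .nil) .nil))) 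
(.lf (nat_lit 504514) (.g (nat_lit 662) (.e (nat_lit 164179) (nat_lit 154) (.e (nat_lit 57412) (nat_lit 12) (.e (nat_lit 336412) (nat_lit 27) .nil))) (.g (nat_lit 0) (.e (nat_lit 178789) (nat_lit 0) .nil) .nil)))) (.nd (nat_lit 9) 
(.lf (nat_lit 504258) (.g (nat_lit 1666) (.e (nat_lit 164112) (nat_lit 118) (.e (nat_lit 794637) (nat_lit 11) (.e (nat_lit 336077) (nat_lit 9) (.e (nat_lit 336438) (nat_lit 31) (.e (nat_lit 458769) (nat_lit 16) (.e (nat_lit 164293) (nat_lit 224) .nil)))))) (.g (nat_lit 1) (.e (nat_lit 177775) (nat_lit 0) .nil) .nil))) 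
(.lf (nat_lit 504770) (.g (nat_lit 867) (.e (nat_lit 164207) (nat_lit 176) (.e (nat_lit 2819) (nat_lit 181) (.e (nat_lit 311315) (nat_lit 3) (.e (nat_lit 204868) (nat_lit 29) .nil)))) (.g (nat_lit 0) (.e (nat_lit 179171) (nat_lit 0) .nil) .nil))))))) (.nd (nat_lit 6) (.nd (nat_lit 7) (.nd (nat_lit 8) (.nd (nat_lit 9) 
(.lf (nat_lit 503842) (.g (nat_lit 2727) (.e (nat_lit 164049) (nat_lit 55) (.e (nat_lit 778464) (nat_lit 11) (.e (nat_lit 24617) (nat_lit 7) (.e (nat_lit 319533) (nat_lit 16) (.e (nat_lit 286753) (nat_lit 10) (.e (nat_lit 344168) (nat_lit 40) (.e (nat_lit 671782) (nat_lit 12) .nil))))))) (.g (nat_lit 1) (.e (nat_lit 176962) (nat_lit 0) .nil) .nil))) 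
(.lf (nat_lit 504354) (.g (nat_lit 3120) (.e (nat_lit 164177) (nat_lit 154) (.e (nat_lit 57406) (nat_lit 12) (.e (nat_lit 336454) (nat_lit 34) (.e (nat_lit 483394) (nat_lit 24) .nil)))) (.g (nat_lit 0) (.e (nat_lit 178594) (nat_lit 0) .nil) .nil)))) (.nd (nat_lit 9) 
(.lf (nat_lit 504098) (.g (nat_lit 2007) (.e (nat_lit 171776) (nat_lit 64) (.e (nat_lit 98372) (nat_lit 29) (.e (nat_lit 450579) (nat_lit 5) (.e (nat_lit 532530) (nat_lit 9) (.e (nat_lit 343808) (nat_lit 1) .nil))))) (.g (nat_lit 0) (.e (nat_lit 177436) (nat_lit 0) .nil) .nil))) 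
(.lf (nat_lit 504610) (.g (nat_lit 555) (.e (nat_lit 164183) (nat_lit 154) (.e (nat_lit 57374) (nat_lit 2) (.e (nat_lit 90165) (nat_lit 12) .nil))) (.g (nat_lit 0) (.e (nat_lit 178914) (nat_lit 0) .nil) .nil))))) (.nd (nat_lit 8) (.nd (nat_lit 9) 
(.lf (nat_lit 503970) (.g (nat_lit 2214) (.e (nat_lit 164020) (nat_lit 45) (.e (nat_lit 696343) (nat_lit 8) (.e (nat_lit 172067) (nat_lit 3) (.e (nat_lit 204866) (nat_lit 28) (.e (nat_lit 352299) (nat_lit 20) .nil))))) (.g (nat_lit 0) (.e (nat_lit 177267) (nat_lit 0) .nil) .nil))) 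
(.lf (nat_lit 504482) (.g (nat_lit 1514) (.e (nat_lit 164179) (nat_lit 154) (.e (nat_lit 57407) (nat_lit 12) (.e (nat_lit 336454) (nat_lit 34) (.e (nat_lit 483397) (nat_lit 25) .nil)))) (.g (nat_lit 0) (.e (nat_lit 178749) (nat_lit 0) .nil) .nil)))) (.nd (nat_lit 9) 
(.lf (nat_lit 504226) (.g (nat_lit 453) (.e (nat_lit 164110) (nat_lit 116) (.e (nat_lit 778466) (nat_lit 11) (.e (nat_lit 24584) (nat_lit 0) .nil))) (.g (nat_lit 0) (.e (nat_lit 177726) (nat_lit 0) .nil) .nil))) 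
(.lf (nat_lit 504738) (.g (nat_lit 3802) (.e (nat_lit 164207) (nat_lit 176) (.e (nat_lit 2798) (nat_lit 180) (.e (nat_lit 303117) (nat_lit 2) (.e (nat_lit 196666) (nat_lit 13) (.e (nat_lit 65598) (nat_lit 9) .nil))))) (.g (nat_lit 0) (.e (nat_lit 179116) (nat_lit 0) .nil) .nil)))))) (.nd (nat_lit 7) (.nd (nat_lit 8) (.nd (nat_lit 9) 
(.lf (nat_lit 503906) (.g (nat_lit 3475) (.e (nat_lit 164018) (nat_lit 45) (.e (nat_lit 696344) (nat_lit 8) (.e (nat_lit 172065) (nat_lit 3) (.e (nat_lit 204855) (nat_lit 26) (.e (nat_lit 336176) (nat_lit 10) (.e (nat_lit 344132) (nat_lit 26) (.e (nat_lit 557094) (nat_lit 12) .nil))))))) (.g (nat_lit 1) (.e (nat_lit 177189) (nat_lit 0) .nil) .nil))) 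
(.lf (nat_lit 504418) (.g (nat_lit 1811) (.e (nat_lit 164179) (nat_lit 154) (.e (nat_lit 57372) (nat_lit 2) (.e (nat_lit 90128) (nat_lit 9) (.e (nat_lit 2705) (nat_lit 170) .nil)))) (.g (nat_lit 0) (.e (nat_lit 178669) (nat_lit 0) .nil) .nil)))) (.nd (nat_lit 9) 
(.lf (nat_lit 504162) (.g (nat_lit 1553) (.e (nat_lit 164096) (nat_lit 86) (.e (nat_lit 532583) (nat_lit 26) (.e (nat_lit 426186) (nat_lit 9) (.e (nat_lit 426562) (nat_lit 33) (.e (nat_lit 385041) (nat_lit 19) (.e (nat_lit 164288) (nat_lit 224) .nil)))))) (.g (nat_lit 1) (.e (nat_lit 177560) (nat_lit 0) .nil) .nil))) 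
(.lf (nat_lit 504674) (.g (nat_lit 918) (.e (nat_lit 164183) (nat_lit 154) (.e (nat_lit 57411) (nat_lit 12) (.e (nat_lit 336306) (nat_lit 15) .nil))) (.g (nat_lit 0) (.e (nat_lit 179002) (nat_lit 0) .nil) .nil))))) (.nd (nat_lit 8) (.nd (nat_lit 9) 
(.lf (nat_lit 504034) (.g (nat_lit 4555) (.e (nat_lit 164022) (nat_lit 46) (.e (nat_lit 704629) (nat_lit 9) (.e (nat_lit 442) (nat_lit 33) (.e (nat_lit 434233) (nat_lit 23) (.e (nat_lit 532535) (nat_lit 9) (.e (nat_lit 336173) (nat_lit 10) (.e (nat_lit 344132) (nat_lit 26) (.e (nat_lit 557094) (nat_lit 12) .nil)))))))) (.g (nat_lit 1) (.e (nat_lit 177340) (nat_lit 0) .nil) .nil))) 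
(.lf (nat_lit 504546) (.g (nat_lit 870) (.e (nat_lit 164182) (nat_lit 154) (.e (nat_lit 57378) (nat_lit 3) (.e (nat_lit 98335) (nat_lit 18) .nil))) (.g (nat_lit 0) (.e (nat_lit 178833) (nat_lit 0) .nil) .nil)))) (.nd (nat_lit 9) 
(.lf (nat_lit 504290) (.g (nat_lit 3157) (.e (nat_lit 164187) (nat_lit 157) (.e (nat_lit 229399) (nat_lit 12) (.e (nat_lit 426125) (nat_lit 2) (.e (nat_lit 196666) (nat_lit 13) (.e (nat_lit 65610) (nat_lit 10) (.e (nat_lit 344129) (nat_lit 26) (.e (nat_lit 557067) (nat_lit 9) (.e (nat_lit 2598) (nat_lit 163) .nil)))))))) (.g (nat_lit 1) (.e (nat_lit 178051) (nat_lit 0) .nil) .nil))) 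
(.lf (nat_lit 504802) (.g (nat_lit 1440) (.e (nat_lit 164209) (nat_lit 176) (.e (nat_lit 2797) (nat_lit 180) (.e (nat_lit 303119) (nat_lit 3) (.e (nat_lit 212736) (nat_lit 26) .nil)))) (.g (nat_lit 0) (.e (nat_lit 179233) (nat_lit 0) .nil) .nil)))))))) (.nd (nat_lit 5) (.nd (nat_lit 6) (.nd (nat_lit 7) (.nd (nat_lit 8) (.nd (nat_lit 9) 
(.lf (nat_lit 503826) (.g (nat_lit 3229) (.e (nat_lit 164031) (nat_lit 53) (.e (nat_lit 761903) (nat_lit 16) (.e (nat_lit 172150) (nat_lit 27) (.e (nat_lit 336387) (nat_lit 27) (.e (nat_lit 426316) (nat_lit 12) (.e (nat_lit 475185) (nat_lit 29) (.e (nat_lit 557091) (nat_lit 12) .nil))))))) (.g (nat_lit 1) (.e (nat_lit 176723) (nat_lit 0) .nil) .nil))) 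
(.lf (nat_lit 504338) (.g (nat_lit 2366) (.e (nat_lit 164177) (nat_lit 154) (.e (nat_lit 57379) (nat_lit 3) (.e (nat_lit 98333) (nat_lit 18) (.e (nat_lit 164325) (nat_lit 230) (.e (nat_lit 163906) (nat_lit 12) .nil))))) (.g (nat_lit 0) (.e (nat_lit 178575) (nat_lit 0) .nil) .nil)))) (.nd (nat_lit 9) 
(.lf (nat_lit 504082) (.g (nat_lit 1250) (.e (nat_lit 171776) (nat_lit 62) (.e (nat_lit 57927) (nat_lit 282) (.e (nat_lit 163933) (nat_lit 17) (.e (nat_lit 466981) (nat_lit 23) .nil)))) (.g (nat_lit 0) (.e (nat_lit 177420) (nat_lit 0) .nil) .nil))) 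
(.lf (nat_lit 504594) (.g (nat_lit 846) (.e (nat_lit 164182) (nat_lit 154) (.e (nat_lit 57411) (nat_lit 12) (.e (nat_lit 336377) (nat_lit 27) .nil))) (.g (nat_lit 0) (.e (nat_lit 178893) (nat_lit 0) .nil) .nil))))) (.nd (nat_lit 8) (.nd (nat_lit 9) 
(.lf (nat_lit 503954) (.g (nat_lit 4964) (.e (nat_lit 164020) (nat_lit 45) (.e (nat_lit 696329) (nat_lit 5) (.e (nat_lit 2884) (nat_lit 184) (.e (nat_lit 426135) (nat_lit 3) (.e (nat_lit 204869) (nat_lit 29) (.e (nat_lit 360474) (nat_lit 8) (.e (nat_lit 557091) (nat_lit 12) .nil))))))) (.g (nat_lit 1) (.e (nat_lit 177239) (nat_lit 0) .nil) .nil))) 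
(.lf (nat_lit 504466) (.g (nat_lit 2337) (.e (nat_lit 164179) (nat_lit 154) (.e (nat_lit 57406) (nat_lit 12) (.e (nat_lit 336456) (nat_lit 34) (.e (nat_lit 483350) (nat_lit 17) (.e (nat_lit 6490) (nat_lit 343) .nil))))) (.g (nat_lit 0) (.e (nat_lit 178726) (nat_lit 0) .nil) .nil)))) (.nd (nat_lit 9) 
(.lf (nat_lit 504210) (.g (nat_lit 2297) (.e (nat_lit 164096) (nat_lit 86) (.e (nat_lit 532583) (nat_lit 26) (.e (nat_lit 426200) (nat_lit 9) (.e (nat_lit 426562) (nat_lit 33) (.e (nat_lit 385041) (nat_lit 19) (.e (nat_lit 164294) (nat_lit 224) .nil)))))) (.g (nat_lit 1) (.e (nat_lit 177614) (nat_lit 0) .nil) .nil))) 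
(.lf (nat_lit 504722) (.g (nat_lit 2916) (.e (nat_lit 164207) (nat_lit 176) (.e (nat_lit 2797) (nat_lit 180) (.e (nat_lit 303117) (nat_lit 2) (.e (nat_lit 196666) (nat_lit 13) (.e (nat_lit 65599) (nat_lit 9) .nil))))) (.g (nat_lit 0) (.e (nat_lit 179086) (nat_lit 0) .nil) .nil)))))) (.nd (nat_lit 7) (.nd (nat_lit 8) (.nd (nat_lit 9) 
(.lf (nat_lit 503890) (.g (nat_lit 3073) (.e (nat_lit 164018) (nat_lit 45) (.e (nat_lit 696343) (nat_lit 8) (.e (nat_lit 172064) (nat_lit 2) (.e (nat_lit 196666) (nat_lit 13) (.e (nat_lit 65610) (nat_lit 10) (.e (nat_lit 344129) (nat_lit 26) (.e (nat_lit 557088) (nat_lit 12) .nil))))))) (.g (nat_lit 1) (.e (nat_lit 177166) (nat_lit 0) .nil) .nil))) 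
(.lf (nat_lit 504402) (.g (nat_lit 1602) (.e (nat_lit 164178) (nat_lit 154) (.e (nat_lit 57407) (nat_lit 12) (.e (nat_lit 336456) (nat_lit 34) (.e (nat_lit 483394) (nat_lit 24) .nil)))) (.g (nat_lit 0) (.e (nat_lit 178651) (nat_lit 0) .nil) .nil)))) (.nd (nat_lit 9) 
(.lf (nat_lit 504146) (.g (nat_lit 2545) (.e (nat_lit 164092) (nat_lit 82) (.e (nat_lit 500046) (nat_lit 16) (.e (nat_lit 16466) (nat_lit 13) (.e (nat_lit 483333) (nat_lit 0) (.e (nat_lit 7098) (nat_lit 380) (.e (nat_lit 164292) (nat_lit 224) .nil)))))) (.g (nat_lit 1) (.e (nat_lit 177493) (nat_lit 0) .nil) .nil))) 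
(.lf (nat_lit 504658) (.g (nat_lit 1003) (.e (nat_lit 164183) (nat_lit 154) (.e (nat_lit 57409) (nat_lit 12) (.e (nat_lit 336368) (nat_lit 27) .nil))) (.g (nat_lit 0) (.e (nat_lit 178977) (nat_lit 0) .nil) .nil))))) (.nd (nat_lit 8) (.nd (nat_lit 9) 
(.lf (nat_lit 504018) (.g (nat_lit 3836) (.e (nat_lit 164020) (nat_lit 45) (.e (nat_lit 696344) (nat_lit 8) (.e (nat_lit 172082) (nat_lit 7) (.e (nat_lit 409646) (nat_lit 18) (.e (nat_lit 303140) (nat_lit 10) (.e (nat_lit 434275) (nat_lit 39) (.e (nat_lit 663584) (nat_lit 12) .nil))))))) (.g (nat_lit 1) (.e (nat_lit 177315) (nat_lit 0) .nil) .nil))) 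
(.lf (nat_lit 504530) (.g (nat_lit 2006) (.e (nat_lit 164181) (nat_lit 154) (.e (nat_lit 57378) (nat_lit 3) (.e (nat_lit 98342) (nat_lit 20) (.e (nat_lit 221212) (nat_lit 22) (.e (nat_lit 196681) (nat_lit 17) .nil))))) (.g (nat_lit 0) (.e (nat_lit 178811) (nat_lit 0) .nil) .nil)))) (.nd (nat_lit 9) 
(.lf (nat_lit 504274) (.g (nat_lit 1434) (.e (nat_lit 164112) (nat_lit 118) (.e (nat_lit 794637) (nat_lit 11) (.e (nat_lit 336088) (nat_lit 9) (.e (nat_lit 336421) (nat_lit 28) (.e (nat_lit 434197) (nat_lit 16) .nil))))) (.g (nat_lit 0) (.e (nat_lit 177791) (nat_lit 0) .nil) .nil))) 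
(.lf (nat_lit 504786) (.g (nat_lit 1766) (.e (nat_lit 164208) (nat_lit 176) (.e (nat_lit 2819) (nat_lit 181) (.e (nat_lit 311315) (nat_lit 3) (.e (nat_lit 204866) (nat_lit 28) (.e (nat_lit 352310) (nat_lit 22) .nil))))) (.g (nat_lit 0) (.e (nat_lit 179196) (nat_lit 0) .nil) .nil))))))) (.nd (nat_lit 6) (.nd (nat_lit 7) (.nd (nat_lit 8) (.nd (nat_lit 9) 
(.lf (nat_lit 503858) (.g (nat_lit 3481) (.e (nat_lit 164061) (nat_lit 57) (.e (nat_lit 794673) (nat_lit 23) (.e (nat_lit 204862) (nat_lit 27) (.e (nat_lit 344117) (nat_lit 21) (.e (nat_lit 516115) (nat_lit 1) (.e (nat_lit 164183) (nat_lit 154) (.e (nat_lit 57373) (nat_lit 2) (.e (nat_lit 90162) (nat_lit 12) .nil)))))))) (.g (nat_lit 1) (.e (nat_lit 177085) (nat_lit 0) .nil) .nil))) 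
(.lf (nat_lit 504370) (.g (nat_lit 1974) (.e (nat_lit 164177) (nat_lit 154) (.e (nat_lit 57411) (nat_lit 12) (.e (nat_lit 336316) (nat_lit 17) (.e (nat_lit 196672) (nat_lit 15) .nil)))) (.g (nat_lit 0) (.e (nat_lit 178612) (nat_lit 0) .nil) .nil)))) (.nd (nat_lit 9) 
(.lf (nat_lit 504114) (.g (nat_lit 2193) (.e (nat_lit 171776) (nat_lit 64) (.e (nat_lit 98381) (nat_lit 31) (.e (nat_lit 466977) (nat_lit 22) (.e (nat_lit 196681) (nat_lit 17) (.e (nat_lit 131089) (nat_lit 1) .nil))))) (.g (nat_lit 0) (.e (nat_lit 177452) (nat_lit 0) .nil) .nil))) 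
(.lf (nat_lit 504626) (.g (nat_lit 2047) (.e (nat_lit 164183) (nat_lit 154) (.e (nat_lit 57378) (nat_lit 3) (.e (nat_lit 98341) (nat_lit 20) (.e (nat_lit 221210) (nat_lit 22) (.e (nat_lit 196668) (nat_lit 14) .nil))))) (.g (nat_lit 0) (.e (nat_lit 178940) (nat_lit 0) .nil) .nil))))) (.nd (nat_lit 8) (.nd (nat_lit 9) 
(.lf (nat_lit 503986) (.g (nat_lit 1545) (.e (nat_lit 164020) (nat_lit 45) (.e (nat_lit 696344) (nat_lit 8) (.e (nat_lit 172064) (nat_lit 2) (.e (nat_lit 196674) (nat_lit 15) .nil)))) (.g (nat_lit 0) (.e (nat_lit 177283) (nat_lit 0) .nil) .nil))) 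
(.lf (nat_lit 504498) (.g (nat_lit 1859) (.e (nat_lit 164179) (nat_lit 154) (.e (nat_lit 57409) (nat_lit 12) (.e (nat_lit 336324) (nat_lit 18) (.e (nat_lit 204866) (nat_lit 28) .nil)))) (.g (nat_lit 0) (.e (nat_lit 178769) (nat_lit 0) .nil) .nil)))) (.nd (nat_lit 9) 
(.lf (nat_lit 504242) (.g (nat_lit 942) (.e (nat_lit 164112) (nat_lit 118) (.e (nat_lit 794635) (nat_lit 11) (.e (nat_lit 336154) (nat_lit 9) (.e (nat_lit 336420) (nat_lit 28) (.e (nat_lit 434197) (nat_lit 16) (.e (nat_lit 164288) (nat_lit 224) .nil)))))) (.g (nat_lit 1) (.e (nat_lit 177759) (nat_lit 0) .nil) .nil))) 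
(.lf (nat_lit 504754) (.g (nat_lit 1972) (.e (nat_lit 164207) (nat_lit 176) (.e (nat_lit 2809) (nat_lit 180) (.e (nat_lit 303117) (nat_lit 2) (.e (nat_lit 196673) (nat_lit 15) .nil)))) (.g (nat_lit 0) (.e (nat_lit 179147) (nat_lit 0) .nil) .nil)))))) (.nd (nat_lit 7) (.nd (nat_lit 8) (.nd (nat_lit 9) 
(.lf (nat_lit 503922) (.g (nat_lit 3640) (.e (nat_lit 164018) (nat_lit 45) (.e (nat_lit 696344) (nat_lit 8) (.e (nat_lit 172081) (nat_lit 7) (.e (nat_lit 409649) (nat_lit 18) (.e (nat_lit 303140) (nat_lit 10) (.e (nat_lit 434275) (nat_lit 39) (.e (nat_lit 663585) (nat_lit 12) .nil))))))) (.g (nat_lit 1) (.e (nat_lit 177205) (nat_lit 0) .nil) .nil))) 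
(.lf (nat_lit 504434) (.g (nat_lit 2358) (.e (nat_lit 164179) (nat_lit 154) (.e (nat_lit 57377) (nat_lit 3) (.e (nat_lit 98342) (nat_lit 20) (.e (nat_lit 221215) (nat_lit 23) (.e (nat_lit 204872) (nat_lit 30) .nil))))) (.g (nat_lit 0) (.e (nat_lit 178688) (nat_lit 0) .nil) .nil)))) (.nd (nat_lit 9) 
(.lf (nat_lit 504178) (.g (nat_lit 1906) (.e (nat_lit 164096) (nat_lit 86) (.e (nat_lit 532583) (nat_lit 26) (.e (nat_lit 426189) (nat_lit 9) (.e (nat_lit 426562) (nat_lit 33) (.e (nat_lit 385041) (nat_lit 19) (.e (nat_lit 164293) (nat_lit 224) .nil)))))) (.g (nat_lit 1) (.e (nat_lit 177576) (nat_lit 0) .nil) .nil))) 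
(.lf (nat_lit 504690) (.g (nat_lit 1071) (.e (nat_lit 164183) (nat_lit 154) (.e (nat_lit 57411) (nat_lit 12) (.e (nat_lit 336454) (nat_lit 34) (.e (nat_lit 483390) (nat_lit 23) .nil)))) (.g (nat_lit 0) (.e (nat_lit 179026) (nat_lit 0) .nil) .nil))))) (.nd (nat_lit 8) (.nd (nat_lit 9) 
(.lf (nat_lit 504050) (.g (nat_lit 3746) (.e (nat_lit 164022) (nat_lit 46) (.e (nat_lit 704738) (nat_lit 11) (.e (nat_lit 16416) (nat_lit 3) (.e (nat_lit 204852) (nat_lit 26) (.e (nat_lit 336162) (nat_lit 10) .nil))))) (.g (nat_lit 0) (.e (nat_lit 177365) (nat_lit 0) .nil) .nil))) 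
(.lf (nat_lit 504562) (.g (nat_lit 1290) (.e (nat_lit 164182) (nat_lit 154) (.e (nat_lit 57379) (nat_lit 3) (.e (nat_lit 98338) (nat_lit 19) (.e (nat_lit 213013) (nat_lit 9) .nil)))) (.g (nat_lit 0) (.e (nat_lit 178852) (nat_lit 0) .nil) .nil)))) (.nd (nat_lit 9) 
(.lf (nat_lit 504306) (.g (nat_lit 2504) (.e (nat_lit 164176) (nat_lit 154) (.e (nat_lit 57378) (nat_lit 3) (.e (nat_lit 98341) (nat_lit 20) (.e (nat_lit 221210) (nat_lit 22) (.e (nat_lit 196668) (nat_lit 14) .nil))))) (.g (nat_lit 0) (.e (nat_lit 178536) (nat_lit 0) .nil) .nil))) 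
(.lf (nat_lit 504818) (.g (nat_lit 3336) (.e (nat_lit 164210) (nat_lit 176) (.e (nat_lit 2797) (nat_lit 180) (.e (nat_lit 303119) (nat_lit 3) (.e (nat_lit 204855) (nat_lit 26) (.e (nat_lit 336111) (nat_lit 9) .nil))))) (.g (nat_lit 0) (.e (nat_lit 179280) (nat_lit 0) .nil) .nil))))))))) (.nd (nat_lit 4) (.nd (nat_lit 5) (.nd (nat_lit 6) (.nd (nat_lit 7) (.nd (nat_lit 8) (.nd (nat_lit 9) 
(.lf (nat_lit 503818) (.g (nat_lit 2199) (.e (nat_lit 164000) (nat_lit 38) (.e (nat_lit 638998) (nat_lit 8) (.e (nat_lit 172123) (nat_lit 13) (.e (nat_lit 483385) (nat_lit 23) (.e (nat_lit 336260) (nat_lit 15) (.e (nat_lit 3721) (nat_lit 227) (.e (nat_lit 778474) (nat_lit 12) .nil))))))) (.g (nat_lit 1) (.e (nat_lit 176417) (nat_lit 0) .nil) .nil))) 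
(.lf (nat_lit 504330) (.g (nat_lit 2118) (.e (nat_lit 164176) (nat_lit 154) (.e (nat_lit 57440) (nat_lit 18) (.e (nat_lit 385068) (nat_lit 26) (.e (nat_lit 532530) (nat_lit 9) (.e (nat_lit 336211) (nat_lit 13) .nil))))) (.g (nat_lit 0) (.e (nat_lit 178561) (nat_lit 0) .nil) .nil)))) (.nd (nat_lit 9) 
(.lf (nat_lit 504074) (.g (nat_lit 1815) (.e (nat_lit 171776) (nat_lit 48) (.e (nat_lit 720909) (nat_lit 11) (.e (nat_lit 426124) (nat_lit 2) (.e (nat_lit 196674) (nat_lit 15) (.e (nat_lit 81946) (nat_lit 20) .nil))))) (.g (nat_lit 0) (.e (nat_lit 177407) (nat_lit 0) .nil) .nil))) 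
(.lf (nat_lit 504586) (.g (nat_lit 2599) (.e (nat_lit 164182) (nat_lit 154) (.e (nat_lit 57411) (nat_lit 12) (.e (nat_lit 336324) (nat_lit 18) (.e (nat_lit 204855) (nat_lit 26) (.e (nat_lit 336219) (nat_lit 13) .nil))))) (.g (nat_lit 0) (.e (nat_lit 178884) (nat_lit 0) .nil) .nil))))) (.nd (nat_lit 8) (.nd (nat_lit 9) 
(.lf (nat_lit 503946) (.g (nat_lit 1826) (.e (nat_lit 164019) (nat_lit 45) (.e (nat_lit 696344) (nat_lit 8) (.e (nat_lit 172082) (nat_lit 7) (.e (nat_lit 409648) (nat_lit 18) (.e (nat_lit 303137) (nat_lit 10) .nil))))) (.g (nat_lit 0) (.e (nat_lit 177231) (nat_lit 0) .nil) .nil))) 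
(.lf (nat_lit 504458) (.g (nat_lit 1911) (.e (nat_lit 164179) (nat_lit 154) (.e (nat_lit 57406) (nat_lit 12) (.e (nat_lit 336454) (nat_lit 34) (.e (nat_lit 483392) (nat_lit 23) .nil)))) (.g (nat_lit 0) (.e (nat_lit 178718) (nat_lit 0) .nil) .nil)))) (.nd (nat_lit 9) 
(.lf (nat_lit 504202) (.g (nat_lit 2408) (.e (nat_lit 164096) (nat_lit 86) (.e (nat_lit 532583) (nat_lit 26) (.e (nat_lit 426199) (nat_lit 9) (.e (nat_lit 426562) (nat_lit 33) (.e (nat_lit 385041) (nat_lit 19) (.e (nat_lit 164289) (nat_lit 224) .nil)))))) (.g (nat_lit 1) (.e (nat_lit 177600) (nat_lit 0) .nil) .nil))) 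
(.lf (nat_lit 504714) (.g (nat_lit 2538) (.e (nat_lit 171776) (nat_lit 160) (.e (nat_lit 57378) (nat_lit 3) (.e (nat_lit 98367) (nat_lit 27) (.e (nat_lit 434245) (nat_lit 28) (.e (nat_lit 573487) (nat_lit 14) .nil))))) (.g (nat_lit 0) (.e (nat_lit 179074) (nat_lit 0) .nil) .nil)))))) (.nd (nat_lit 7) (.nd (nat_lit 8) (.nd (nat_lit 9) 
(.lf (nat_lit 503882) (.g (nat_lit 2262) (.e (nat_lit 164017) (nat_lit 44) (.e (nat_lit 688139) (nat_lit 5) (.e (nat_lit 3062) (nat_lit 190) (.e (nat_lit 475179) (nat_lit 24) (.e (nat_lit 516176) (nat_lit 14) (.e (nat_lit 466947) (nat_lit 0) (.e (nat_lit 7936) (nat_lit 360) .nil))))))) (.g (nat_lit 1) (.e (nat_lit 177135) (nat_lit 0) .nil) .nil))) 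
(.lf (nat_lit 504394) (.g (nat_lit 702) (.e (nat_lit 164178) (nat_lit 154) (.e (nat_lit 57407) (nat_lit 12) (.e (nat_lit 336316) (nat_lit 17) .nil))) (.g (nat_lit 0) (.e (nat_lit 178640) (nat_lit 0) .nil) .nil)))) (.nd (nat_lit 9) 
(.lf (nat_lit 504138) (.g (nat_lit 1960) (.e (nat_lit 164092) (nat_lit 82) (.e (nat_lit 500046) (nat_lit 16) (.e (nat_lit 16463) (nat_lit 13) (.e (nat_lit 483333) (nat_lit 0) (.e (nat_lit 7106) (nat_lit 380) (.e (nat_lit 164294) (nat_lit 224) .nil)))))) (.g (nat_lit 1) (.e (nat_lit 177484) (nat_lit 0) .nil) .nil))) 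
(.lf (nat_lit 504650) (.g (nat_lit 1066) (.e (nat_lit 164183) (nat_lit 154) (.e (nat_lit 57409) (nat_lit 12) (.e (nat_lit 336324) (nat_lit 18) (.e (nat_lit 204852) (nat_lit 26) .nil)))) (.g (nat_lit 0) (.e (nat_lit 178967) (nat_lit 0) .nil) .nil))))) (.nd (nat_lit 8) (.nd (nat_lit 9) 
(.lf (nat_lit 504010) (.g (nat_lit 3121) (.e (nat_lit 164020) (nat_lit 45) (.e (nat_lit 696344) (nat_lit 8) (.e (nat_lit 172078) (nat_lit 7) (.e (nat_lit 409646) (nat_lit 18) (.e (nat_lit 303140) (nat_lit 10) (.e (nat_lit 434275) (nat_lit 39) (.e (nat_lit 663584) (nat_lit 12) .nil))))))) (.g (nat_lit 1) (.e (nat_lit 177307) (nat_lit 0) .nil) .nil))) 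
(.lf (nat_lit 504522) (.g (nat_lit 975) (.e (nat_lit 164180) (nat_lit 154) (.e (nat_lit 57379) (nat_lit 3) (.e (nat_lit 98338) (nat_lit 19) .nil))) (.g (nat_lit 0) (.e (nat_lit 178799) (nat_lit 0) .nil) .nil)))) (.nd (nat_lit 9) 
(.lf (nat_lit 504266) (.g (nat_lit 2019) (.e (nat_lit 164112) (nat_lit 118) (.e (nat_lit 794637) (nat_lit 11) (.e (nat_lit 336087) (nat_lit 9) (.e (nat_lit 336438) (nat_lit 31) (.e (nat_lit 458769) (nat_lit 16) (.e (nat_lit 164286) (nat_lit 224) .nil)))))) (.g (nat_lit 1) (.e (nat_lit 177783) (nat_lit 0) .nil) .nil))) 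
(.lf (nat_lit 504778) (.g (nat_lit 1330) (.e (nat_lit 164208) (nat_lit 176) (.e (nat_lit 2810) (nat_lit 180) (.e (nat_lit 303119) (nat_lit 3) (.e (nat_lit 204863) (nat_lit 27) .nil)))) (.g (nat_lit 0) (.e (nat_lit 179185) (nat_lit 0) .nil) .nil))))))) (.nd (nat_lit 6) (.nd (nat_lit 7) (.nd (nat_lit 8) (.nd (nat_lit 9) 
(.lf (nat_lit 503850) (.g (nat_lit 1702) (.e (nat_lit 164050) (nat_lit 55) (.e (nat_lit 778466) (nat_lit 11) (.e (nat_lit 24617) (nat_lit 7) (.e (nat_lit 319533) (nat_lit 16) .nil)))) (.g (nat_lit 0) (.e (nat_lit 176972) (nat_lit 0) .nil) .nil))) 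
(.lf (nat_lit 504362) (.g (nat_lit 1879) (.e (nat_lit 164177) (nat_lit 154) (.e (nat_lit 57407) (nat_lit 12) (.e (nat_lit 336454) (nat_lit 34) (.e (nat_lit 483383) (nat_lit 23) .nil)))) (.g (nat_lit 0) (.e (nat_lit 178604) (nat_lit 0) .nil) .nil)))) (.nd (nat_lit 9) 
(.lf (nat_lit 504106) (.g (nat_lit 1551) (.e (nat_lit 171776) (nat_lit 64) (.e (nat_lit 98380) (nat_lit 31) (.e (nat_lit 466974) (nat_lit 22) (.e (nat_lit 196681) (nat_lit 17) (.e (nat_lit 131086) (nat_lit 1) .nil))))) (.g (nat_lit 0) (.e (nat_lit 177444) (nat_lit 0) .nil) .nil))) 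
(.lf (nat_lit 504618) (.g (nat_lit 1202) (.e (nat_lit 164183) (nat_lit 154) (.e (nat_lit 57375) (nat_lit 2) (.e (nat_lit 90181) (nat_lit 16) (.e (nat_lit 229472) (nat_lit 57) .nil)))) (.g (nat_lit 0) (.e (nat_lit 178925) (nat_lit 0) .nil) .nil))))) (.nd (nat_lit 8) (.nd (nat_lit 9) 
(.lf (nat_lit 503978) (.g (nat_lit 2600) (.e (nat_lit 164020) (nat_lit 45) (.e (nat_lit 696343) (nat_lit 8) (.e (nat_lit 172079) (nat_lit 7) (.e (nat_lit 409648) (nat_lit 18) (.e (nat_lit 303137) (nat_lit 10) (.e (nat_lit 434275) (nat_lit 39) (.e (nat_lit 663584) (nat_lit 12) .nil))))))) (.g (nat_lit 1) (.e (nat_lit 177275) (nat_lit 0) .nil) .nil))) 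
(.lf (nat_lit 504490) (.g (nat_lit 1727) (.e (nat_lit 164179) (nat_lit 154) (.e (nat_lit 57408) (nat_lit 12) (.e (nat_lit 336454) (nat_lit 34) (.e (nat_lit 483378) (nat_lit 23) .nil)))) (.g (nat_lit 0) (.e (nat_lit 178758) (nat_lit 0) .nil) .nil)))) (.nd (nat_lit 9) 
(.lf (nat_lit 504234) (.g (nat_lit 1013) (.e (nat_lit 164112) (nat_lit 118) (.e (nat_lit 794635) (nat_lit 11) (.e (nat_lit 336152) (nat_lit 9) (.e (nat_lit 336437) (nat_lit 31) (.e (nat_lit 458769) (nat_lit 16) (.e (nat_lit 164294) (nat_lit 224) .nil)))))) (.g (nat_lit 1) (.e (nat_lit 177751) (nat_lit 0) .nil) .nil))) 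
(.lf (nat_lit 504746) (.g (nat_lit 1868) (.e (nat_lit 164207) (nat_lit 176) (.e (nat_lit 2798) (nat_lit 180) (.e (nat_lit 303119) (nat_lit 3) (.e (nat_lit 204878) (nat_lit 31) (.e (nat_lit 376865) (nat_lit 22) .nil))))) (.g (nat_lit 0) (.e (nat_lit 179136) (nat_lit 0) .nil) .nil)))))) (.nd (nat_lit 7) (.nd (nat_lit 8) (.nd (nat_lit 9) 
(.lf (nat_lit 503914) (.g (nat_lit 3542) (.e (nat_lit 164018) (nat_lit 45) (.e (nat_lit 696344) (nat_lit 8) (.e (nat_lit 172067) (nat_lit 3) (.e (nat_lit 204869) (nat_lit 29) (.e (nat_lit 360474) (nat_lit 8) (.e (nat_lit 557094) (nat_lit 12) .nil)))))) (.g (nat_lit 1) (.e (nat_lit 177197) (nat_lit 0) .nil) .nil))) 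
(.lf (nat_lit 504426) (.g (nat_lit 5706) (.e (nat_lit 164179) (nat_lit 154) (.e (nat_lit 57377) (nat_lit 3) (.e (nat_lit 98333) (nat_lit 18) (.e (nat_lit 164325) (nat_lit 230) (.e (nat_lit 163907) (nat_lit 12) (.e (nat_lit 426131) (nat_lit 3) (.e (nat_lit 204852) (nat_lit 26) (.e (nat_lit 336310) (nat_lit 16) .nil)))))))) (.g (nat_lit 1) (.e (nat_lit 178680) (nat_lit 0) .nil) .nil)))) 
(.nd (nat_lit 9) 
(.lf (nat_lit 504170) (.g (nat_lit 2262) (.e (nat_lit 164096) (nat_lit 86) (.e (nat_lit 532583) (nat_lit 26) (.e (nat_lit 426188) (nat_lit 9) (.e (nat_lit 426562) (nat_lit 33) (.e (nat_lit 385041) (nat_lit 19) (.e (nat_lit 164293) (nat_lit 224) .nil)))))) (.g (nat_lit 1) (.e (nat_lit 177568) (nat_lit 0) .nil) .nil))) 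
(.lf (nat_lit 504682) (.g (nat_lit 1400) (.e (nat_lit 164183) (nat_lit 154) (.e (nat_lit 57411) (nat_lit 12) (.e (nat_lit 336324) (nat_lit 18) (.e (nat_lit 204867) (nat_lit 28) .nil)))) (.g (nat_lit 0) (.e (nat_lit 179012) (nat_lit 0) .nil) .nil))))) (.nd (nat_lit 8) (.nd (nat_lit 9) 
(.lf (nat_lit 504042) (.g (nat_lit 1728) (.e (nat_lit 164022) (nat_lit 46) (.e (nat_lit 704736) (nat_lit 11) (.e (nat_lit 16412) (nat_lit 2) (.e (nat_lit 196674) (nat_lit 15) (.e (nat_lit 81944) (nat_lit 20) .nil))))) (.g (nat_lit 0) (.e (nat_lit 177351) (nat_lit 0) .nil) .nil))) 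
(.lf (nat_lit 504554) (.g (nat_lit 632) (.e (nat_lit 164182) (nat_lit 154) (.e (nat_lit 57378) (nat_lit 3) (.e (nat_lit 98342) (nat_lit 20) .nil))) (.g (nat_lit 0) (.e (nat_lit 178841) (nat_lit 0) .nil) .nil)))) (.nd (nat_lit 9) 
(.lf (nat_lit 504298) (.g (nat_lit 2172) (.e (nat_lit 164190) (nat_lit 157) (.e (nat_lit 229399) (nat_lit 12) (.e (nat_lit 426125) (nat_lit 2) (.e (nat_lit 196666) (nat_lit 13) (.e (nat_lit 65610) (nat_lit 10) (.e (nat_lit 344129) (nat_lit 26) (.e (nat_lit 557067) (nat_lit 9) (.e (nat_lit 7936) (nat_lit 163) .nil)))))))) (.g (nat_lit 1) (.e (nat_lit 178386) (nat_lit 0) .nil) .nil))) 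
(.lf (nat_lit 504810) (.g (nat_lit 2687) (.e (nat_lit 164209) (nat_lit 176) (.e (nat_lit 2797) (nat_lit 180) (.e (nat_lit 303119) (nat_lit 3) (.e (nat_lit 204870) (nat_lit 29) (.e (nat_lit 360463) (nat_lit 1) .nil))))) (.g (nat_lit 0) (.e (nat_lit 179246) (nat_lit 0) .nil) .nil)))))))) (.nd (nat_lit 5) (.nd (nat_lit 6) (.nd (nat_lit 7) (.nd (nat_lit 8) (.nd (nat_lit 9) 
(.lf (nat_lit 503834) (.g (nat_lit 1397) (.e (nat_lit 164045) (nat_lit 55) (.e (nat_lit 778462) (nat_lit 11) (.e (nat_lit 24604) (nat_lit 2) (.e (nat_lit 90176) (nat_lit 15) (.e (nat_lit 196352) (nat_lit 2) .nil))))) (.g (nat_lit 0) (.e (nat_lit 176948) (nat_lit 0) .nil) .nil))) 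
(.lf (nat_lit 504346) (.g (nat_lit 2514) (.e (nat_lit 164177) (nat_lit 154) (.e (nat_lit 57379) (nat_lit 3) (.e (nat_lit 98342) (nat_lit 20) (.e (nat_lit 221215) (nat_lit 23) (.e (nat_lit 204859) (nat_lit 26) .nil))))) (.g (nat_lit 0) (.e (nat_lit 178585) (nat_lit 0) .nil) .nil)))) (.nd (nat_lit 9) 
(.lf (nat_lit 504090) (.g (nat_lit 1509) (.e (nat_lit 171776) (nat_lit 64) (.e (nat_lit 98365) (nat_lit 26) (.e (nat_lit 426116) (nat_lit 2) (.e (nat_lit 196654) (nat_lit 11) .nil)))) (.g (nat_lit 0) (.e (nat_lit 177428) (nat_lit 0) .nil) .nil))) 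
(.lf (nat_lit 504602) (.g (nat_lit 2576) (.e (nat_lit 164183) (nat_lit 154) (.e (nat_lit 57368) (nat_lit 1) (.e (nat_lit 57854) (nat_lit 252) (.e (nat_lit 57409) (nat_lit 12) (.e (nat_lit 336000) (nat_lit 1) .nil))))) (.g (nat_lit 0) (.e (nat_lit 178904) (nat_lit 0) .nil) .nil))))) (.nd (nat_lit 8) (.nd (nat_lit 9) 
(.lf (nat_lit 503962) (.g (nat_lit 4477) (.e (nat_lit 164020) (nat_lit 45) (.e (nat_lit 696330) (nat_lit 5) (.e (nat_lit 2884) (nat_lit 184) (.e (nat_lit 426140) (nat_lit 3) (.e (nat_lit 204869) (nat_lit 29) (.e (nat_lit 360475) (nat_lit 8) (.e (nat_lit 557091) (nat_lit 12) .nil))))))) (.g (nat_lit 1) (.e (nat_lit 177249) (nat_lit 0) .nil) .nil))) 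
(.lf (nat_lit 504474) (.g (nat_lit 1274) (.e (nat_lit 164179) (nat_lit 154) (.e (nat_lit 57407) (nat_lit 12) (.e (nat_lit 336320) (nat_lit 17) (.e (nat_lit 196672) (nat_lit 15) .nil)))) (.g (nat_lit 0) (.e (nat_lit 178739) (nat_lit 0) .nil) .nil)))) (.nd (nat_lit 9) 
(.lf (nat_lit 504218) (.g (nat_lit 1781) (.e (nat_lit 164103) (nat_lit 116) (.e (nat_lit 778462) (nat_lit 11) (.e (nat_lit 24630) (nat_lit 9) (.e (nat_lit 336369) (nat_lit 27) (.e (nat_lit 426173) (nat_lit 7) .nil))))) (.g (nat_lit 0) (.e (nat_lit 177691) (nat_lit 0) .nil) .nil))) 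
(.lf (nat_lit 504730) (.g (nat_lit 3204) (.e (nat_lit 164207) (nat_lit 176) (.e (nat_lit 2797) (nat_lit 180) (.e (nat_lit 303119) (nat_lit 3) (.e (nat_lit 204861) (nat_lit 26) (.e (nat_lit 336073) (nat_lit 9) .nil))))) (.g (nat_lit 0) (.e (nat_lit 179104) (nat_lit 0) .nil) .nil)))))) (.nd (nat_lit 7) (.nd (nat_lit 8) (.nd (nat_lit 9) 
(.lf (nat_lit 503898) (.g (nat_lit 3720) (.e (nat_lit 164018) (nat_lit 45) (.e (nat_lit 696343) (nat_lit 8) (.e (nat_lit 172067) (nat_lit 3) (.e (nat_lit 204869) (nat_lit 29) (.e (nat_lit 360474) (nat_lit 8) (.e (nat_lit 557094) (nat_lit 12) .nil)))))) (.g (nat_lit 1) (.e (nat_lit 177174) (nat_lit 0) .nil) .nil))) 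
(.lf (nat_lit 504410) (.g (nat_lit 2422) (.e (nat_lit 164178) (nat_lit 154) (.e (nat_lit 57411) (nat_lit 12) (.e (nat_lit 336316) (nat_lit 17) (.e (nat_lit 196674) (nat_lit 15) (.e (nat_lit 81925) (nat_lit 11) .nil))))) (.g (nat_lit 0) (.e (nat_lit 178659) (nat_lit 0) .nil) .nil)))) (.nd (nat_lit 9) 
(.lf (nat_lit 504154) (.g (nat_lit 2384) (.e (nat_lit 164092) (nat_lit 82) (.e (nat_lit 500046) (nat_lit 16) (.e (nat_lit 16466) (nat_lit 13) (.e (nat_lit 483333) (nat_lit 0) (.e (nat_lit 7106) (nat_lit 380) (.e (nat_lit 164294) (nat_lit 224) .nil)))))) (.g (nat_lit 1) (.e (nat_lit 177501) (nat_lit 0) .nil) .nil))) 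
(.lf (nat_lit 504666) (.g (nat_lit 1899) (.e (nat_lit 164183) (nat_lit 154) (.e (nat_lit 57409) (nat_lit 12) (.e (nat_lit 336456) (nat_lit 34) (.e (nat_lit 483396) (nat_lit 24) (.e (nat_lit 344119) (nat_lit 21) .nil))))) (.g (nat_lit 0) (.e (nat_lit 178989) (nat_lit 0) .nil) .nil))))) (.nd (nat_lit 8) (.nd (nat_lit 9) 
(.lf (nat_lit 504026) (.g (nat_lit 4100) (.e (nat_lit 164022) (nat_lit 46) (.e (nat_lit 704629) (nat_lit 9) (.e (nat_lit 375) (nat_lit 32) (.e (nat_lit 426113) (nat_lit 2) (.e (nat_lit 196666) (nat_lit 13) (.e (nat_lit 65617) (nat_lit 10) (.e (nat_lit 344133) (nat_lit 26) (.e (nat_lit 557091) (nat_lit 12) .nil)))))))) (.g (nat_lit 1) (.e (nat_lit 177332) (nat_lit 0) .nil) .nil))) 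
(.lf (nat_lit 504538) (.g (nat_lit 1261) (.e (nat_lit 164181) (nat_lit 154) (.e (nat_lit 57411) (nat_lit 12) (.e (nat_lit 336456) (nat_lit 34) (.e (nat_lit 483383) (nat_lit 23) .nil)))) (.g (nat_lit 0) (.e (nat_lit 178819) (nat_lit 0) .nil) .nil)))) (.nd (nat_lit 9) 
(.lf (nat_lit 504282) (.g (nat_lit 541) (.e (nat_lit 164147) (nat_lit 152) (.e (nat_lit 1199) (nat_lit 88) (.e (nat_lit 65553) (nat_lit 0) (.e (nat_lit 7936) (nat_lit 152) .nil)))) (.g (nat_lit 0) (.e (nat_lit 177870) (nat_lit 0) .nil) .nil))) 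
(.lf (nat_lit 504794) (.g (nat_lit 3254) (.e (nat_lit 164209) (nat_lit 176) (.e (nat_lit 2797) (nat_lit 180) (.e (nat_lit 303117) (nat_lit 2) (.e (nat_lit 196666) (nat_lit 13) (.e (nat_lit 65604) (nat_lit 9) .nil))))) (.g (nat_lit 0) (.e (nat_lit 179216) (nat_lit 0) .nil) .nil))))))) (.nd (nat_lit 6) (.nd (nat_lit 7) (.nd (nat_lit 8) (.nd (nat_lit 9) 
(.lf (nat_lit 503866) (.g (nat_lit 4418) (.e (nat_lit 164016) (nat_lit 44) (.e (nat_lit 688139) (nat_lit 5) (.e (nat_lit 2887) (nat_lit 184) (.e (nat_lit 426125) (nat_lit 2) (.e (nat_lit 196666) (nat_lit 13) (.e (nat_lit 65610) (nat_lit 10) (.e (nat_lit 344129) (nat_lit 26) (.e (nat_lit 557090) (nat_lit 12) .nil)))))))) (.g (nat_lit 1) (.e (nat_lit 177101) (nat_lit 0) .nil) .nil))) 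
(.lf (nat_lit 504378) (.g (nat_lit 2317) (.e (nat_lit 164178) (nat_lit 154) (.e (nat_lit 57377) (nat_lit 3) (.e (nat_lit 98342) (nat_lit 20) (.e (nat_lit 221210) (nat_lit 22) (.e (nat_lit 196670) (nat_lit 14) .nil))))) (.g (nat_lit 0) (.e (nat_lit 178622) (nat_lit 0) .nil) .nil)))) (.nd (nat_lit 9) 
(.lf (nat_lit 504122) (.g (nat_lit 1510) (.e (nat_lit 171776) (nat_lit 66) (.e (nat_lit 114714) (nat_lit 22) (.e (nat_lit 90185) (nat_lit 17) (.e (nat_lit 237582) (nat_lit 1) .nil)))) (.g (nat_lit 0) (.e (nat_lit 177460) (nat_lit 0) .nil) .nil))) 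
(.lf (nat_lit 504634) (.g (nat_lit 3045) (.e (nat_lit 164183) (nat_lit 154) (.e (nat_lit 57379) (nat_lit 3) (.e (nat_lit 98334) (nat_lit 18) (.e (nat_lit 164330) (nat_lit 230) (.e (nat_lit 163927) (nat_lit 16) .nil))))) (.g (nat_lit 0) (.e (nat_lit 178951) (nat_lit 0) .nil) .nil))))) (.nd (nat_lit 8) (.nd (nat_lit 9) 
(.lf (nat_lit 503994) (.g (nat_lit 3091) (.e (nat_lit 164020) (nat_lit 45) (.e (nat_lit 696344) (nat_lit 8) (.e (nat_lit 172067) (nat_lit 3) (.e (nat_lit 204852) (nat_lit 26) (.e (nat_lit 336161) (nat_lit 10) .nil))))) (.g (nat_lit 0) (.e (nat_lit 177291) (nat_lit 0) .nil) .nil))) 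
(.lf (nat_lit 504506) (.g (nat_lit 2223) (.e (nat_lit 164179) (nat_lit 154) (.e (nat_lit 57411) (nat_lit 12) (.e (nat_lit 336316) (nat_lit 17) (.e (nat_lit 196672) (nat_lit 15) (.e (nat_lit 81925) (nat_lit 11) .nil))))) (.g (nat_lit 0) (.e (nat_lit 178778) (nat_lit 0) .nil) .nil)))) (.nd (nat_lit 9) 
(.lf (nat_lit 504250) (.g (nat_lit 998) (.e (nat_lit 164112) (nat_lit 118) (.e (nat_lit 794637) (nat_lit 11) (.e (nat_lit 336074) (nat_lit 9) (.e (nat_lit 336438) (nat_lit 31) (.e (nat_lit 458769) (nat_lit 16) (.e (nat_lit 164292) (nat_lit 224) .nil)))))) (.g (nat_lit 1) (.e (nat_lit 177767) (nat_lit 0) .nil) .nil))) 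
(.lf (nat_lit 504762) (.g (nat_lit 2625) (.e (nat_lit 164207) (nat_lit 176) (.e (nat_lit 2810) (nat_lit 180) (.e (nat_lit 303119) (nat_lit 3) (.e (nat_lit 204855) (nat_lit 26) (.e (nat_lit 336102) (nat_lit 9) .nil))))) (.g (nat_lit 0) (.e (nat_lit 179159) (nat_lit 0) .nil) .nil)))))) (.nd (nat_lit 7) (.nd (nat_lit 8) (.nd (nat_lit 9) 
(.lf (nat_lit 503930) (.g (nat_lit 2032) (.e (nat_lit 164018) (nat_lit 45) (.e (nat_lit 696348) (nat_lit 12) (.e (nat_lit 237587) (nat_lit 2) (.e (nat_lit 196666) (nat_lit 13) (.e (nat_lit 65617) (nat_lit 10) .nil))))) (.g (nat_lit 0) (.e (nat_lit 177213) (nat_lit 0) .nil) .nil))) 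
(.lf (nat_lit 504442) (.g (nat_lit 2101) (.e (nat_lit 164179) (nat_lit 154) (.e (nat_lit 57378) (nat_lit 3) (.e (nat_lit 98341) (nat_lit 20) (.e (nat_lit 221212) (nat_lit 22) (.e (nat_lit 196669) (nat_lit 14) .nil))))) (.g (nat_lit 0) (.e (nat_lit 178698) (nat_lit 0) .nil) .nil)))) (.nd (nat_lit 9) 
(.lf (nat_lit 504186) (.g (nat_lit 1608) (.e (nat_lit 164096) (nat_lit 86) (.e (nat_lit 532583) (nat_lit 26) (.e (nat_lit 426196) (nat_lit 9) (.e (nat_lit 426562) (nat_lit 33) (.e (nat_lit 385041) (nat_lit 19) (.e (nat_lit 164291) (nat_lit 224) .nil)))))) (.g (nat_lit 1) (.e (nat_lit 177584) (nat_lit 0) .nil) .nil))) 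
(.lf (nat_lit 504698) (.g (nat_lit 1488) (.e (nat_lit 171776) (nat_lit 154) (.e (nat_lit 57406) (nat_lit 12) (.e (nat_lit 336456) (nat_lit 34) (.e (nat_lit 483383) (nat_lit 23) .nil)))) (.g (nat_lit 0) (.e (nat_lit 179038) (nat_lit 0) .nil) .nil))))) (.nd (nat_lit 8) (.nd (nat_lit 9) 
(.lf (nat_lit 504058) (.g (nat_lit 2330) (.e (nat_lit 164023) (nat_lit 46) (.e (nat_lit 704732) (nat_lit 11) (.e (nat_lit 16416) (nat_lit 3) (.e (nat_lit 204869) (nat_lit 29) (.e (nat_lit 360473) (nat_lit 8) .nil))))) (.g (nat_lit 0) (.e (nat_lit 177384) (nat_lit 0) .nil) .nil))) 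
(.lf (nat_lit 504570) (.g (nat_lit 1777) (.e (nat_lit 164182) (nat_lit 154) (.e (nat_lit 57409) (nat_lit 12) (.e (nat_lit 336324) (nat_lit 18) (.e (nat_lit 204855) (nat_lit 26) .nil)))) (.g (nat_lit 0) (.e (nat_lit 178861) (nat_lit 0) .nil) .nil)))) (.nd (nat_lit 9) 
(.lf (nat_lit 504314) (.g (nat_lit 292) (.e (nat_lit 164176) (nat_lit 154) (.e (nat_lit 57388) (nat_lit 5) (.e (nat_lit 122624) (nat_lit 17) .nil))) (.g (nat_lit 0) (.e (nat_lit 178544) (nat_lit 0) .nil) .nil))) 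
(.lf (nat_lit 504826) (.g (nat_lit 2582) (.e (nat_lit 164210) (nat_lit 176) (.e (nat_lit 2798) (nat_lit 180) (.e (nat_lit 303117) (nat_lit 2) (.e (nat_lit 196672) (nat_lit 15) (.e (nat_lit 81953) (nat_lit 22) .nil))))) (.g (nat_lit 0) (.e (nat_lit 179293) (nat_lit 0) .nil) .nil)))))))))) 
(.nd (nat_lit 3) (.nd (nat_lit 4) (.nd (nat_lit 5) (.nd (nat_lit 6) (.nd (nat_lit 7) 
(.nd (nat_lit 8) (.nd (nat_lit 9) 
(.lf (nat_lit 503814) (.g (nat_lit 2865) (.e (nat_lit 164000) (nat_lit 38) (.e (nat_lit 639020) (nat_lit 16) (.e (nat_lit 65571) (nat_lit 3) (.e (nat_lit 98370) (nat_lit 28) (.e (nat_lit 442433) (nat_lit 25) (.e (nat_lit 245773) (nat_lit 3) .nil)))))) (.g (nat_lit 1) (.e (nat_lit 176413) (nat_lit 0) .nil) .nil))) 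
(.lf (nat_lit 504326) (.g (nat_lit 1735) (.e (nat_lit 164176) (nat_lit 154) (.e (nat_lit 57411) (nat_lit 12) (.e (nat_lit 336326) (nat_lit 18) (.e (nat_lit 204877) (nat_lit 31) .nil)))) (.g (nat_lit 0) (.e (nat_lit 178557) (nat_lit 0) .nil) .nil)))) (.nd (nat_lit 9) 
(.lf (nat_lit 504070) (.g (nat_lit 2453) (.e (nat_lit 164023) (nat_lit 46) (.e (nat_lit 704738) (nat_lit 11) (.e (nat_lit 16416) (nat_lit 3) (.e (nat_lit 204858) (nat_lit 26) .nil)))) (.g (nat_lit 0) (.e (nat_lit 177396) (nat_lit 0) .nil) .nil))) 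
(.lf (nat_lit 504582) (.g (nat_lit 1633) (.e (nat_lit 164182) (nat_lit 154) (.e (nat_lit 57411) (nat_lit 12) (.e (nat_lit 336318) (nat_lit 17) (.e (nat_lit 196672) (nat_lit 15) (.e (nat_lit 81927) (nat_lit 11) .nil))))) (.g (nat_lit 0) (.e (nat_lit 178879) (nat_lit 0) .nil) .nil))))) (.nd (nat_lit 8) (.nd (nat_lit 9) 
(.lf (nat_lit 503942) (.g (nat_lit 2631) (.e (nat_lit 164019) (nat_lit 45) (.e (nat_lit 696344) (nat_lit 8) (.e (nat_lit 172079) (nat_lit 7) (.e (nat_lit 409645) (nat_lit 18) (.e (nat_lit 303137) (nat_lit 10) .nil))))) (.g (nat_lit 0) (.e (nat_lit 177227) (nat_lit 0) .nil) .nil))) 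
(.lf (nat_lit 504454) (.g (nat_lit 2098) (.e (nat_lit 164179) (nat_lit 154) (.e (nat_lit 57406) (nat_lit 12) (.e (nat_lit 336454) (nat_lit 34) (.e (nat_lit 483386) (nat_lit 23) .nil)))) (.g (nat_lit 0) (.e (nat_lit 178714) (nat_lit 0) .nil) .nil)))) (.nd (nat_lit 9) 
(.lf (nat_lit 504198) (.g (nat_lit 2042) (.e (nat_lit 164096) (nat_lit 86) (.e (nat_lit 532583) (nat_lit 26) (.e (nat_lit 426198) (nat_lit 9) (.e (nat_lit 426562) (nat_lit 33) (.e (nat_lit 385041) (nat_lit 19) (.e (nat_lit 164289) (nat_lit 224) .nil)))))) (.g (nat_lit 1) (.e (nat_lit 177596) (nat_lit 0) .nil) .nil))) 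
(.lf (nat_lit 504710) (.g (nat_lit 2636) (.e (nat_lit 171776) (nat_lit 160) (.e (nat_lit 57375) (nat_lit 2) (.e (nat_lit 90174) (nat_lit 14) (.e (nat_lit 180250) (nat_lit 10) (.e (nat_lit 573489) (nat_lit 14) .nil))))) (.g (nat_lit 0) (.e (nat_lit 179068) (nat_lit 0) .nil) .nil)))))) (.nd (nat_lit 7) (.nd (nat_lit 8) (.nd (nat_lit 9) 
(.lf (nat_lit 503878) (.g (nat_lit 3326) (.e (nat_lit 164017) (nat_lit 44) (.e (nat_lit 688138) (nat_lit 5) (.e (nat_lit 3085) (nat_lit 191) (.e (nat_lit 483337) (nat_lit 9) (.e (nat_lit 426213) (nat_lit 9) (.e (nat_lit 426125) (nat_lit 2) (.e (nat_lit 204544) (nat_lit 3) .nil))))))) (.g (nat_lit 1) (.e (nat_lit 177131) (nat_lit 0) .nil) .nil))) 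
(.lf (nat_lit 504390) (.g (nat_lit 3012) (.e (nat_lit 164178) (nat_lit 154) (.e (nat_lit 57406) (nat_lit 12) (.e (nat_lit 336454) (nat_lit 34) (.e (nat_lit 483399) (nat_lit 25) .nil)))) (.g (nat_lit 0) (.e (nat_lit 178636) (nat_lit 0) .nil) .nil)))) (.nd (nat_lit 9) 
(.lf (nat_lit 504134) (.g (nat_lit 2095) (.e (nat_lit 164092) (nat_lit 82) (.e (nat_lit 500046) (nat_lit 16) (.e (nat_lit 16463) (nat_lit 13) (.e (nat_lit 483333) (nat_lit 0) (.e (nat_lit 7105) (nat_lit 380) (.e (nat_lit 164287) (nat_lit 224) .nil)))))) (.g (nat_lit 1) (.e (nat_lit 177480) (nat_lit 0) .nil) .nil))) 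
(.lf (nat_lit 504646) (.g (nat_lit 2302) (.e (nat_lit 164183) (nat_lit 154) (.e (nat_lit 57379) (nat_lit 3) (.e (nat_lit 98342) (nat_lit 20) (.e (nat_lit 221215) (nat_lit 23) (.e (nat_lit 204872) (nat_lit 30) .nil))))) (.g (nat_lit 0) (.e (nat_lit 178963) (nat_lit 0) .nil) .nil))))) (.nd (nat_lit 8) (.nd (nat_lit 9) 
(.lf (nat_lit 504006) (.g (nat_lit 4707) (.e (nat_lit 164020) (nat_lit 45) (.e (nat_lit 696344) (nat_lit 8) (.e (nat_lit 172067) (nat_lit 3) (.e (nat_lit 204869) (nat_lit 29) (.e (nat_lit 360475) (nat_lit 8) (.e (nat_lit 557090) (nat_lit 12) .nil)))))) (.g (nat_lit 1) (.e (nat_lit 177303) (nat_lit 0) .nil) .nil))) 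
(.lf (nat_lit 504518) (.g (nat_lit 635) (.e (nat_lit 164179) (nat_lit 154) (.e (nat_lit 57427) (nat_lit 15) (.e (nat_lit 360451) (nat_lit 0) .nil))) (.g (nat_lit 0) (.e (nat_lit 178794) (nat_lit 0) .nil) .nil)))) (.nd (nat_lit 9) 
(.lf (nat_lit 504262) (.g (nat_lit 1740) (.e (nat_lit 164112) (nat_lit 118) (.e (nat_lit 794637) (nat_lit 11) (.e (nat_lit 336078) (nat_lit 9) (.e (nat_lit 336438) (nat_lit 31) (.e (nat_lit 458769) (nat_lit 16) (.e (nat_lit 164293) (nat_lit 224) .nil)))))) (.g (nat_lit 1) (.e (nat_lit 177779) (nat_lit 0) .nil) .nil))) 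
(.lf (nat_lit 504774) (.g (nat_lit 1288) (.e (nat_lit 164208) (nat_lit 176) (.e (nat_lit 2810) (nat_lit 180) (.e (nat_lit 303117) (nat_lit 2) (.e (nat_lit 196665) (nat_lit 13) .nil)))) (.g (nat_lit 0) (.e (nat_lit 179180) (nat_lit 0) .nil) .nil))))))) (.nd (nat_lit 6) (.nd (nat_lit 7) (.nd (nat_lit 8) (.nd (nat_lit 9) 
(.lf (nat_lit 503846) (.g (nat_lit 2617) (.e (nat_lit 164049) (nat_lit 55) (.e (nat_lit 778466) (nat_lit 11) (.e (nat_lit 24617) (nat_lit 7) (.e (nat_lit 319534) (nat_lit 16) (.e (nat_lit 286756) (nat_lit 10) (.e (nat_lit 344169) (nat_lit 40) (.e (nat_lit 671782) (nat_lit 12) .nil))))))) (.g (nat_lit 1) (.e (nat_lit 176967) (nat_lit 0) .nil) .nil))) 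
(.lf (nat_lit 504358) (.g (nat_lit 1281) (.e (nat_lit 164177) (nat_lit 154) (.e (nat_lit 57406) (nat_lit 12) (.e (nat_lit 336456) (nat_lit 34) (.e (nat_lit 483395) (nat_lit 24) .nil)))) (.g (nat_lit 0) (.e (nat_lit 178598) (nat_lit 0) .nil) .nil)))) (.nd (nat_lit 9) 
(.lf (nat_lit 504102) (.g (nat_lit 1835) (.e (nat_lit 171776) (nat_lit 64) (.e (nat_lit 98372) (nat_lit 29) (.e (nat_lit 450579) (nat_lit 5) (.e (nat_lit 532534) (nat_lit 9) (.e (nat_lit 343808) (nat_lit 1) .nil))))) (.g (nat_lit 0) (.e (nat_lit 177440) (nat_lit 0) .nil) .nil))) 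
(.lf (nat_lit 504614) (.g (nat_lit 2404) (.e (nat_lit 164183) (nat_lit 154) (.e (nat_lit 57375) (nat_lit 2) (.e (nat_lit 90160) (nat_lit 11) (.e (nat_lit 24650) (nat_lit 12) .nil)))) (.g (nat_lit 0) (.e (nat_lit 178919) (nat_lit 0) .nil) .nil))))) (.nd (nat_lit 8) (.nd (nat_lit 9) 
(.lf (nat_lit 503974) (.g (nat_lit 4563) (.e (nat_lit 164020) (nat_lit 45) (.e (nat_lit 696343) (nat_lit 8) (.e (nat_lit 172067) (nat_lit 3) (.e (nat_lit 204869) (nat_lit 29) (.e (nat_lit 360475) (nat_lit 8) (.e (nat_lit 557089) (nat_lit 12) .nil)))))) (.g (nat_lit 1) (.e (nat_lit 177271) (nat_lit 0) .nil) .nil))) 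
(.lf (nat_lit 504486) (.g (nat_lit 1528) (.e (nat_lit 164179) (nat_lit 154) (.e (nat_lit 57407) (nat_lit 12) (.e (nat_lit 336454) (nat_lit 34) (.e (nat_lit 483401) (nat_lit 25) (.e (nat_lit 368675) (nat_lit 21) .nil))))) (.g (nat_lit 0) (.e (nat_lit 178753) (nat_lit 0) .nil) .nil)))) (.nd (nat_lit 9) 
(.lf (nat_lit 504230) (.g (nat_lit 1040) (.e (nat_lit 164112) (nat_lit 118) (.e (nat_lit 794635) (nat_lit 11) (.e (nat_lit 336121) (nat_lit 9) (.e (nat_lit 336437) (nat_lit 31) (.e (nat_lit 458769) (nat_lit 16) (.e (nat_lit 164294) (nat_lit 224) .nil)))))) (.g (nat_lit 1) (.e (nat_lit 177747) (nat_lit 0) .nil) .nil))) 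
(.lf (nat_lit 504742) (.g (nat_lit 3005) (.e (nat_lit 164207) (nat_lit 176) (.e (nat_lit 2798) (nat_lit 180) (.e (nat_lit 303119) (nat_lit 3) (.e (nat_lit 204868) (nat_lit 29) (.e (nat_lit 368384) (nat_lit 1) .nil))))) (.g (nat_lit 0) (.e (nat_lit 179130) (nat_lit 0) .nil) .nil)))))) (.nd (nat_lit 7) (.nd (nat_lit 8) (.nd (nat_lit 9) 
(.lf (nat_lit 503910) (.g (nat_lit 3258) (.e (nat_lit 164018) (nat_lit 45) (.e (nat_lit 696344) (nat_lit 8) (.e (nat_lit 172065) (nat_lit 3) (.e (nat_lit 204869) (nat_lit 29) (.e (nat_lit 360474) (nat_lit 8) (.e (nat_lit 557094) (nat_lit 12) .nil)))))) (.g (nat_lit 1) (.e (nat_lit 177193) (nat_lit 0) .nil) .nil))) 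
(.lf (nat_lit 504422) (.g (nat_lit 2194) (.e (nat_lit 164179) (nat_lit 154) (.e (nat_lit 57373) (nat_lit 2) (.e (nat_lit 90158) (nat_lit 11) (.e (nat_lit 24628) (nat_lit 9) .nil)))) (.g (nat_lit 0) (.e (nat_lit 178675) (nat_lit 0) .nil) .nil)))) (.nd (nat_lit 9) 
(.lf (nat_lit 504166) (.g (nat_lit 1568) (.e (nat_lit 164096) (nat_lit 86) (.e (nat_lit 532583) (nat_lit 26) (.e (nat_lit 426186) (nat_lit 9) (.e (nat_lit 426562) (nat_lit 33) (.e (nat_lit 385041) (nat_lit 19) (.e (nat_lit 164294) (nat_lit 224) .nil)))))) (.g (nat_lit 1) (.e (nat_lit 177564) (nat_lit 0) .nil) .nil))) 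
(.lf (nat_lit 504678) (.g (nat_lit 1428) (.e (nat_lit 164183) (nat_lit 154) (.e (nat_lit 57411) (nat_lit 12) (.e (nat_lit 336320) (nat_lit 17) (.e (nat_lit 196672) (nat_lit 15) .nil)))) (.g (nat_lit 0) (.e (nat_lit 179007) (nat_lit 0) .nil) .nil))))) (.nd (nat_lit 8) (.nd (nat_lit 9) 
(.lf (nat_lit 504038) (.g (nat_lit 2619) (.e (nat_lit 164022) (nat_lit 46) (.e (nat_lit 704629) (nat_lit 9) (.e (nat_lit 452) (nat_lit 33) (.e (nat_lit 434219) (nat_lit 19) (.e (nat_lit 500059) (nat_lit 18) (.e (nat_lit 65617) (nat_lit 10) (.e (nat_lit 344132) (nat_lit 26) (.e (nat_lit 557093) (nat_lit 12) .nil)))))))) (.g (nat_lit 1) (.e (nat_lit 177344) (nat_lit 0) .nil) .nil))) 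
(.lf (nat_lit 504550) (.g (nat_lit 2304) (.e (nat_lit 164182) (nat_lit 154) (.e (nat_lit 57378) (nat_lit 3) (.e (nat_lit 98341) (nat_lit 20) (.e (nat_lit 221210) (nat_lit 22) (.e (nat_lit 196681) (nat_lit 17) .nil))))) (.g (nat_lit 0) (.e (nat_lit 178837) (nat_lit 0) .nil) .nil)))) (.nd (nat_lit 9) 
(.lf (nat_lit 504294) (.g (nat_lit 3353) (.e (nat_lit 164187) (nat_lit 157) (.e (nat_lit 229399) (nat_lit 12) (.e (nat_lit 426125) (nat_lit 2) (.e (nat_lit 196666) (nat_lit 13) (.e (nat_lit 65617) (nat_lit 10) (.e (nat_lit 344130) (nat_lit 26) (.e (nat_lit 557069) (nat_lit 9) (.e (nat_lit 2612) (nat_lit 163) .nil)))))))) (.g (nat_lit 1) (.e (nat_lit 178055) (nat_lit 0) .nil) .nil))) 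
(.lf (nat_lit 504806) (.g (nat_lit 3366) (.e (nat_lit 164209) (nat_lit 176) (.e (nat_lit 2797) (nat_lit 180) (.e (nat_lit 303119) (nat_lit 3) (.e (nat_lit 204869) (nat_lit 29) (.e (nat_lit 360458) (nat_lit 1) .nil))))) (.g (nat_lit 0) (.e (nat_lit 179240) (nat_lit 0) .nil) .nil)))))))) (.nd (nat_lit 5) (.nd (nat_lit 6) (.nd (nat_lit 7) (.nd (nat_lit 8) (.nd (nat_lit 9) 
(.lf (nat_lit 503830) (.g (nat_lit 2078) (.e (nat_lit 164043) (nat_lit 55) (.e (nat_lit 778460) (nat_lit 11) (.e (nat_lit 24604) (nat_lit 2) (.e (nat_lit 90185) (nat_lit 17) (.e (nat_lit 237601) (nat_lit 9) .nil))))) (.g (nat_lit 0) (.e (nat_lit 176944) (nat_lit 0) .nil) .nil))) 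
(.lf (nat_lit 504342) (.g (nat_lit 2235) (.e (nat_lit 164177) (nat_lit 154) (.e (nat_lit 57379) (nat_lit 3) (.e (nat_lit 98341) (nat_lit 20) (.e (nat_lit 221210) (nat_lit 22) (.e (nat_lit 196668) (nat_lit 14) .nil))))) (.g (nat_lit 0) (.e (nat_lit 178581) (nat_lit 0) .nil) .nil)))) (.nd (nat_lit 9) 
(.lf (nat_lit 504086) (.g (nat_lit 2690) (.e (nat_lit 171776) (nat_lit 63) (.e (nat_lit 90170) (nat_lit 13) (.e (nat_lit 172106) (nat_lit 10) (.e (nat_lit 434231) (nat_lit 23) (.e (nat_lit 532529) (nat_lit 9) .nil))))) (.g (nat_lit 0) (.e (nat_lit 177424) (nat_lit 0) .nil) .nil))) 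
(.lf (nat_lit 504598) (.g (nat_lit 1403) (.e (nat_lit 164182) (nat_lit 154) (.e (nat_lit 57411) (nat_lit 12) (.e (nat_lit 336456) (nat_lit 34) (.e (nat_lit 483396) (nat_lit 24) .nil)))) (.g (nat_lit 0) (.e (nat_lit 178898) (nat_lit 0) .nil) .nil))))) (.nd (nat_lit 8) (.nd (nat_lit 9) 
(.lf (nat_lit 503958) (.g (nat_lit 4403) (.e (nat_lit 164020) (nat_lit 45) (.e (nat_lit 696329) (nat_lit 5) (.e (nat_lit 2964) (nat_lit 185) (.e (nat_lit 434231) (nat_lit 23) (.e (nat_lit 532549) (nat_lit 12) (.e (nat_lit 360474) (nat_lit 8) (.e (nat_lit 557091) (nat_lit 12) .nil))))))) (.g (nat_lit 1) (.e (nat_lit 177243) (nat_lit 0) .nil) .nil))) 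
(.lf (nat_lit 504470) (.g (nat_lit 2085) (.e (nat_lit 164179) (nat_lit 154) (.e (nat_lit 57406) (nat_lit 12) (.e (nat_lit 336456) (nat_lit 34) (.e (nat_lit 483397) (nat_lit 25) .nil)))) (.g (nat_lit 0) (.e (nat_lit 178730) (nat_lit 0) .nil) .nil)))) (.nd (nat_lit 9) 
(.lf (nat_lit 504214) (.g (nat_lit 1978) (.e (nat_lit 171776) (nat_lit 86) (.e (nat_lit 532563) (nat_lit 15) (.e (nat_lit 385068) (nat_lit 26) (.e (nat_lit 532553) (nat_lit 13) .nil)))) (.g (nat_lit 0) (.e (nat_lit 177656) (nat_lit 0) .nil) .nil))) 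
(.lf (nat_lit 504726) (.g (nat_lit 3675) (.e (nat_lit 164207) (nat_lit 176) (.e (nat_lit 2797) (nat_lit 180) (.e (nat_lit 303119) (nat_lit 3) (.e (nat_lit 204855) (nat_lit 26) (.e (nat_lit 336110) (nat_lit 9) .nil))))) (.g (nat_lit 0) (.e (nat_lit 179099) (nat_lit 0) .nil) .nil)))))) (.nd (nat_lit 7) (.nd (nat_lit 8) (.nd (nat_lit 9) 
(.lf (nat_lit 503894) (.g (nat_lit 3401) (.e (nat_lit 164018) (nat_lit 45) (.e (nat_lit 696343) (nat_lit 8) (.e (nat_lit 172065) (nat_lit 3) (.e (nat_lit 204869) (nat_lit 29) (.e (nat_lit 360474) (nat_lit 8) (.e (nat_lit 557093) (nat_lit 12) .nil)))))) (.g (nat_lit 1) (.e (nat_lit 177170) (nat_lit 0) .nil) .nil))) 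
(.lf (nat_lit 504406) (.g (nat_lit 722) (.e (nat_lit 164178) (nat_lit 154) (.e (nat_lit 57409) (nat_lit 12) (.e (nat_lit 336456) (nat_lit 34) .nil))) (.g (nat_lit 0) (.e (nat_lit 178655) (nat_lit 0) .nil) .nil)))) (.nd (nat_lit 9) 
(.lf (nat_lit 504150) (.g (nat_lit 2522) (.e (nat_lit 164092) (nat_lit 82) (.e (nat_lit 500046) (nat_lit 16) (.e (nat_lit 16466) (nat_lit 13) (.e (nat_lit 483333) (nat_lit 0) (.e (nat_lit 7105) (nat_lit 380) (.e (nat_lit 164287) (nat_lit 224) .nil)))))) (.g (nat_lit 1) (.e (nat_lit 177497) (nat_lit 0) .nil) .nil))) 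
(.lf (nat_lit 504662) (.g (nat_lit 1007) (.e (nat_lit 164183) (nat_lit 154) (.e (nat_lit 57409) (nat_lit 12) (.e (nat_lit 336454) (nat_lit 34) (.e (nat_lit 483384) (nat_lit 23) (.e (nat_lit 343808) (nat_lit 3) .nil))))) (.g (nat_lit 0) (.e (nat_lit 178983) (nat_lit 0) .nil) .nil))))) (.nd (nat_lit 8) (.nd (nat_lit 9) 
(.lf (nat_lit 504022) (.g (nat_lit 5258) (.e (nat_lit 164022) (nat_lit 46) (.e (nat_lit 704628) (nat_lit 9) (.e (nat_lit 375) (nat_lit 32) (.e (nat_lit 426125) (nat_lit 2) (.e (nat_lit 196666) (nat_lit 13) (.e (nat_lit 65610) (nat_lit 10) (.e (nat_lit 344132) (nat_lit 26) (.e (nat_lit 557093) (nat_lit 12) .nil)))))))) (.g (nat_lit 1) (.e (nat_lit 177322) (nat_lit 0) .nil) .nil))) 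
(.lf (nat_lit 504534) (.g (nat_lit 1489) (.e (nat_lit 164181) (nat_lit 154) (.e (nat_lit 57409) (nat_lit 12) (.e (nat_lit 336456) (nat_lit 34) (.e (nat_lit 483399) (nat_lit 25) (.e (nat_lit 368676) (nat_lit 21) .nil))))) (.g (nat_lit 0) (.e (nat_lit 178815) (nat_lit 0) .nil) .nil)))) (.nd (nat_lit 9) 
(.lf (nat_lit 504278) (.g (nat_lit 557) (.e (nat_lit 164119) (nat_lit 128) (.e (nat_lit 1209) (nat_lit 89) (.e (nat_lit 73780) (nat_lit 32) .nil))) (.g (nat_lit 0) (.e (nat_lit 177808) (nat_lit 0) .nil) .nil))) 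
(.lf (nat_lit 504790) (.g (nat_lit 1439) (.e (nat_lit 164209) (nat_lit 176) (.e (nat_lit 2797) (nat_lit 180) (.e (nat_lit 303117) (nat_lit 2) (.e (nat_lit 196665) (nat_lit 13) .nil)))) (.g (nat_lit 0) (.e (nat_lit 179212) (nat_lit 0) .nil) .nil))))))) (.nd (nat_lit 6) (.nd (nat_lit 7) (.nd (nat_lit 8) (.nd (nat_lit 9) 
(.lf (nat_lit 503862) (.g (nat_lit 4558) (.e (nat_lit 164016) (nat_lit 44) (.e (nat_lit 688138) (nat_lit 5) (.e (nat_lit 2887) (nat_lit 184) (.e (nat_lit 426136) (nat_lit 3) (.e (nat_lit 204869) (nat_lit 29) (.e (nat_lit 360475) (nat_lit 8) (.e (nat_lit 557091) (nat_lit 12) .nil))))))) (.g (nat_lit 1) (.e (nat_lit 177093) (nat_lit 0) .nil) .nil))) 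
(.lf (nat_lit 504374) (.g (nat_lit 2916) (.e (nat_lit 164178) (nat_lit 154) (.e (nat_lit 57377) (nat_lit 3) (.e (nat_lit 98333) (nat_lit 18) (.e (nat_lit 164325) (nat_lit 230) (.e (nat_lit 163926) (nat_lit 16) .nil))))) (.g (nat_lit 0) (.e (nat_lit 178618) (nat_lit 0) .nil) .nil)))) (.nd (nat_lit 9) 
(.lf (nat_lit 504118) (.g (nat_lit 3628) (.e (nat_lit 171776) (nat_lit 66) (.e (nat_lit 114698) (nat_lit 11) (.e (nat_lit 426306) (nat_lit 12) (.e (nat_lit 475214) (nat_lit 42) (.e (nat_lit 720956) (nat_lit 25) .nil))))) (.g (nat_lit 0) (.e (nat_lit 177456) (nat_lit 0) .nil) .nil))) 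
(.lf (nat_lit 504630) (.g (nat_lit 1787) (.e (nat_lit 164183) (nat_lit 154) (.e (nat_lit 57378) (nat_lit 3) (.e (nat_lit 98342) (nat_lit 20) (.e (nat_lit 221210) (nat_lit 22) (.e (nat_lit 196665) (nat_lit 13) .nil))))) (.g (nat_lit 0) (.e (nat_lit 178944) (nat_lit 0) .nil) .nil))))) (.nd (nat_lit 8) (.nd (nat_lit 9) 
(.lf (nat_lit 503990) (.g (nat_lit 4422) (.e (nat_lit 164020) (nat_lit 45) (.e (nat_lit 696344) (nat_lit 8) (.e (nat_lit 172065) (nat_lit 3) (.e (nat_lit 204869) (nat_lit 29) (.e (nat_lit 360473) (nat_lit 8) (.e (nat_lit 557090) (nat_lit 12) .nil)))))) (.g (nat_lit 1) (.e (nat_lit 177287) (nat_lit 0) .nil) .nil))) 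
(.lf (nat_lit 504502) (.g (nat_lit 2075) (.e (nat_lit 164179) (nat_lit 154) (.e (nat_lit 57409) (nat_lit 12) (.e (nat_lit 336454) (nat_lit 34) (.e (nat_lit 483385) (nat_lit 23) .nil)))) (.g (nat_lit 0) (.e (nat_lit 178773) (nat_lit 0) .nil) .nil)))) (.nd (nat_lit 9) 
(.lf (nat_lit 504246) (.g (nat_lit 1048) (.e (nat_lit 164112) (nat_lit 118) (.e (nat_lit 794637) (nat_lit 11) (.e (nat_lit 336074) (nat_lit 9) (.e (nat_lit 336438) (nat_lit 31) (.e (nat_lit 458769) (nat_lit 16) (.e (nat_lit 164286) (nat_lit 224) .nil)))))) (.g (nat_lit 1) (.e (nat_lit 177763) (nat_lit 0) .nil) .nil))) 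
(.lf (nat_lit 504758) (.g (nat_lit 1720) (.e (nat_lit 164207) (nat_lit 176) (.e (nat_lit 2810) (nat_lit 180) (.e (nat_lit 303117) (nat_lit 2) (.e (nat_lit 196673) (nat_lit 15) (.e (nat_lit 81953) (nat_lit 22) .nil))))) (.g (nat_lit 0) (.e (nat_lit 179155) (nat_lit 0) .nil) .nil)))))) (.nd (nat_lit 7) (.nd (nat_lit 8) (.nd (nat_lit 9) 
(.lf (nat_lit 503926) (.g (nat_lit 3294) (.e (nat_lit 164018) (nat_lit 45) (.e (nat_lit 696344) (nat_lit 8) (.e (nat_lit 172082) (nat_lit 7) (.e (nat_lit 409648) (nat_lit 18) (.e (nat_lit 303137) (nat_lit 10) (.e (nat_lit 434275) (nat_lit 39) (.e (nat_lit 663585) (nat_lit 12) .nil))))))) (.g (nat_lit 1) (.e (nat_lit 177209) (nat_lit 0) .nil) .nil))) 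
(.lf (nat_lit 504438) (.g (nat_lit 2409) (.e (nat_lit 164179) (nat_lit 154) (.e (nat_lit 57378) (nat_lit 3) (.e (nat_lit 98334) (nat_lit 18) (.e (nat_lit 164305) (nat_lit 226) (.e (nat_lit 2725) (nat_lit 172) .nil))))) (.g (nat_lit 0) (.e (nat_lit 178692) (nat_lit 0) .nil) .nil)))) (.nd (nat_lit 9) 
(.lf (nat_lit 504182) (.g (nat_lit 1597) (.e (nat_lit 164096) (nat_lit 86) (.e (nat_lit 532583) (nat_lit 26) (.e (nat_lit 426196) (nat_lit 9) (.e (nat_lit 426562) (nat_lit 33) (.e (nat_lit 385041) (nat_lit 19) (.e (nat_lit 164286) (nat_lit 224) .nil)))))) (.g (nat_lit 1) (.e (nat_lit 177580) (nat_lit 0) .nil) .nil))) 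
(.lf (nat_lit 504694) (.g (nat_lit 1856) (.e (nat_lit 164183) (nat_lit 154) (.e (nat_lit 57411) (nat_lit 12) (.e (nat_lit 336456) (nat_lit 34) (.e (nat_lit 483397) (nat_lit 25) .nil)))) (.g (nat_lit 0) (.e (nat_lit 179030) (nat_lit 0) .nil) .nil))))) (.nd (nat_lit 8) (.nd (nat_lit 9) 
(.lf (nat_lit 504054) (.g (nat_lit 4570) (.e (nat_lit 164023) (nat_lit 46) (.e (nat_lit 704629) (nat_lit 9) (.e (nat_lit 375) (nat_lit 32) (.e (nat_lit 426125) (nat_lit 2) (.e (nat_lit 196666) (nat_lit 13) (.e (nat_lit 65610) (nat_lit 10) (.e (nat_lit 344127) (nat_lit 26) (.e (nat_lit 557093) (nat_lit 12) .nil)))))))) (.g (nat_lit 1) (.e (nat_lit 177374) (nat_lit 0) .nil) .nil))) 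
(.lf (nat_lit 504566) (.g (nat_lit 1199) (.e (nat_lit 164182) (nat_lit 154) (.e (nat_lit 57379) (nat_lit 3) (.e (nat_lit 98342) (nat_lit 20) (.e (nat_lit 221210) (nat_lit 22) .nil)))) (.g (nat_lit 0) (.e (nat_lit 178856) (nat_lit 0) .nil) .nil)))) (.nd (nat_lit 9) 
(.lf (nat_lit 504310) (.g (nat_lit 2065) (.e (nat_lit 164176) (nat_lit 154) (.e (nat_lit 57379) (nat_lit 3) (.e (nat_lit 98341) (nat_lit 20) (.e (nat_lit 221212) (nat_lit 22) (.e (nat_lit 196669) (nat_lit 14) .nil))))) (.g (nat_lit 0) (.e (nat_lit 178540) (nat_lit 0) .nil) .nil))) 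
(.lf (nat_lit 504822) (.g (nat_lit 1752) (.e (nat_lit 164210) (nat_lit 176) (.e (nat_lit 2797) (nat_lit 180) (.e (nat_lit 303119) (nat_lit 3) (.e (nat_lit 204877) (nat_lit 31) .nil)))) (.g (nat_lit 0) (.e (nat_lit 179288) (nat_lit 0) .nil) .nil))))))))) (.nd (nat_lit 4) (.nd (nat_lit 5) (.nd (nat_lit 6) (.nd (nat_lit 7) (.nd (nat_lit 8) (.nd (nat_lit 9) 
(.lf (nat_lit 503822) (.g (nat_lit 2083) (.e (nat_lit 164006) (nat_lit 41) (.e (nat_lit 663580) (nat_lit 9) (.e (nat_lit 284) (nat_lit 21) (.e (nat_lit 335894) (nat_lit 0) (.e (nat_lit 2360) (nat_lit 152) .nil))))) (.g (nat_lit 0) (.e (nat_lit 176423) (nat_lit 0) .nil) .nil))) 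
(.lf (nat_lit 504334) (.g (nat_lit 2275) (.e (nat_lit 164177) (nat_lit 154) (.e (nat_lit 57377) (nat_lit 3) (.e (nat_lit 98341) (nat_lit 20) (.e (nat_lit 221210) (nat_lit 22) (.e (nat_lit 196668) (nat_lit 14) .nil))))) (.g (nat_lit 0) (.e (nat_lit 178571) (nat_lit 0) .nil) .nil)))) (.nd (nat_lit 9) 
(.lf (nat_lit 504078) (.g (nat_lit 3323) (.e (nat_lit 171776) (nat_lit 62) (.e (nat_lit 57849) (nat_lit 252) (.e (nat_lit 57407) (nat_lit 12) (.e (nat_lit 336316) (nat_lit 17) (.e (nat_lit 196672) (nat_lit 15) .nil))))) (.g (nat_lit 0) (.e (nat_lit 177416) (nat_lit 0) .nil) .nil))) 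
(.lf (nat_lit 504590) (.g (nat_lit 2015) (.e (nat_lit 164182) (nat_lit 154) (.e (nat_lit 57411) (nat_lit 12) (.e (nat_lit 336325) (nat_lit 18) (.e (nat_lit 204855) (nat_lit 26) (.e (nat_lit 336217) (nat_lit 13) .nil))))) (.g (nat_lit 0) (.e (nat_lit 178888) (nat_lit 0) .nil) .nil))))) (.nd (nat_lit 8) (.nd (nat_lit 9) 
(.lf (nat_lit 503950) (.g (nat_lit 4054) (.e (nat_lit 164020) (nat_lit 45) (.e (nat_lit 696329) (nat_lit 5) (.e (nat_lit 2842) (nat_lit 184) (.e (nat_lit 426136) (nat_lit 3) (.e (nat_lit 204869) (nat_lit 29) (.e (nat_lit 360474) (nat_lit 8) (.e (nat_lit 557091) (nat_lit 12) .nil))))))) (.g (nat_lit 1) (.e (nat_lit 177235) (nat_lit 0) .nil) .nil))) 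
(.lf (nat_lit 504462) (.g (nat_lit 2127) (.e (nat_lit 164179) (nat_lit 154) (.e (nat_lit 57406) (nat_lit 12) (.e (nat_lit 336454) (nat_lit 34) (.e (nat_lit 483400) (nat_lit 25) .nil)))) (.g (nat_lit 0) (.e (nat_lit 178722) (nat_lit 0) .nil) .nil)))) (.nd (nat_lit 9) 
(.lf (nat_lit 504206) (.g (nat_lit 2372) (.e (nat_lit 164096) (nat_lit 86) (.e (nat_lit 532583) (nat_lit 26) (.e (nat_lit 426199) (nat_lit 9) (.e (nat_lit 426562) (nat_lit 33) (.e (nat_lit 385041) (nat_lit 19) (.e (nat_lit 164294) (nat_lit 224) .nil)))))) (.g (nat_lit 1) (.e (nat_lit 177604) (nat_lit 0) .nil) .nil))) 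
(.lf (nat_lit 504718) (.g (nat_lit 2198) (.e (nat_lit 171776) (nat_lit 160) (.e (nat_lit 57379) (nat_lit 3) (.e (nat_lit 98367) (nat_lit 27) (.e (nat_lit 434246) (nat_lit 28) (.e (nat_lit 573487) (nat_lit 14) .nil))))) (.g (nat_lit 0) (.e (nat_lit 179078) (nat_lit 0) .nil) .nil)))))) (.nd (nat_lit 7) (.nd (nat_lit 8) (.nd (nat_lit 9) 
(.lf (nat_lit 503886) (.g (nat_lit 3714) (.e (nat_lit 164018) (nat_lit 45) (.e (nat_lit 696329) (nat_lit 5) (.e (nat_lit 2964) (nat_lit 185) (.e (nat_lit 434231) (nat_lit 23) (.e (nat_lit 532550) (nat_lit 12) (.e (nat_lit 360474) (nat_lit 8) (.e (nat_lit 557088) (nat_lit 12) .nil))))))) (.g (nat_lit 1) (.e (nat_lit 177140) (nat_lit 0) .nil) .nil))) 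
(.lf (nat_lit 504398) (.g (nat_lit 660) (.e (nat_lit 164178) (nat_lit 154) (.e (nat_lit 57407) (nat_lit 12) (.e (nat_lit 336325) (nat_lit 18) .nil))) (.g (nat_lit 0) (.e (nat_lit 178647) (nat_lit 0) .nil) .nil)))) (.nd (nat_lit 9) 
(.lf (nat_lit 504142) (.g (nat_lit 1747) (.e (nat_lit 164092) (nat_lit 82) (.e (nat_lit 500046) (nat_lit 16) (.e (nat_lit 16466) (nat_lit 13) (.e (nat_lit 483331) (nat_lit 0) .nil)))) (.g (nat_lit 0) (.e (nat_lit 177489) (nat_lit 0) .nil) .nil))) 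
(.lf (nat_lit 504654) (.g (nat_lit 937) (.e (nat_lit 164183) (nat_lit 154) (.e (nat_lit 57409) (nat_lit 12) (.e (nat_lit 336324) (nat_lit 18) (.e (nat_lit 204878) (nat_lit 31) .nil)))) (.g (nat_lit 0) (.e (nat_lit 178971) (nat_lit 0) .nil) .nil))))) (.nd (nat_lit 8) (.nd (nat_lit 9) 
(.lf (nat_lit 504014) (.g (nat_lit 3466) (.e (nat_lit 164020) (nat_lit 45) (.e (nat_lit 696344) (nat_lit 8) (.e (nat_lit 172079) (nat_lit 7) (.e (nat_lit 409649) (nat_lit 18) (.e (nat_lit 303140) (nat_lit 10) (.e (nat_lit 434275) (nat_lit 39) (.e (nat_lit 663584) (nat_lit 12) .nil))))))) (.g (nat_lit 1) (.e (nat_lit 177311) (nat_lit 0) .nil) .nil))) 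
(.lf (nat_lit 504526) (.g (nat_lit 960) (.e (nat_lit 164180) (nat_lit 154) (.e (nat_lit 57410) (nat_lit 12) (.e (nat_lit 336367) (nat_lit 27) (.e (nat_lit 426542) (nat_lit 29) (.e (nat_lit 352313) (nat_lit 23) .nil))))) (.g (nat_lit 0) (.e (nat_lit 178803) (nat_lit 0) .nil) .nil)))) (.nd (nat_lit 9) 
(.lf (nat_lit 504270) (.g (nat_lit 2012) (.e (nat_lit 164112) (nat_lit 118) (.e (nat_lit 794637) (nat_lit 11) (.e (nat_lit 336087) (nat_lit 9) (.e (nat_lit 336438) (nat_lit 31) (.e (nat_lit 458769) (nat_lit 16) (.e (nat_lit 164291) (nat_lit 224) .nil)))))) (.g (nat_lit 1) (.e (nat_lit 177787) (nat_lit 0) .nil) .nil))) 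
(.lf (nat_lit 504782) (.g (nat_lit 947) (.e (nat_lit 164208) (nat_lit 176) (.e (nat_lit 2819) (nat_lit 181) (.e (nat_lit 311313) (nat_lit 3) (.e (nat_lit 204877) (nat_lit 31) (.e (nat_lit 376864) (nat_lit 22) .nil))))) (.g (nat_lit 0) (.e (nat_lit 179192) (nat_lit 0) .nil) .nil))))))) (.nd (nat_lit 6) (.nd (nat_lit 7) (.nd (nat_lit 8) (.nd (nat_lit 9) 
(.lf (nat_lit 503854) (.g (nat_lit 954) (.e (nat_lit 164056) (nat_lit 56) (.e (nat_lit 786457) (nat_lit 18) (.e (nat_lit 98381) (nat_lit 31) (.e (nat_lit 466954) (nat_lit 11) (.e (nat_lit 336049) (nat_lit 6) (.e (nat_lit 147500) (nat_lit 12) .nil)))))) (.g (nat_lit 1) (.e (nat_lit 176988) (nat_lit 0) .nil) .nil))) 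
(.lf (nat_lit 504366) (.g (nat_lit 1582) (.e (nat_lit 164177) (nat_lit 154) (.e (nat_lit 57407) (nat_lit 12) (.e (nat_lit 336456) (nat_lit 34) (.e (nat_lit 483397) (nat_lit 25) .nil)))) (.g (nat_lit 0) (.e (nat_lit 178608) (nat_lit 0) .nil) .nil)))) (.nd (nat_lit 9) 
(.lf (nat_lit 504110) (.g (nat_lit 1122) (.e (nat_lit 171776) (nat_lit 64) (.e (nat_lit 98381) (nat_lit 31) (.e (nat_lit 466977) (nat_lit 22) (.e (nat_lit 196668) (nat_lit 14) .nil)))) (.g (nat_lit 0) (.e (nat_lit 177448) (nat_lit 0) .nil) .nil))) 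
(.lf (nat_lit 504622) (.g (nat_lit 488) (.e (nat_lit 164183) (nat_lit 154) (.e (nat_lit 57378) (nat_lit 3) (.e (nat_lit 98340) (nat_lit 20) .nil))) (.g (nat_lit 0) (.e (nat_lit 178936) (nat_lit 0) .nil) .nil))))) (.nd (nat_lit 8) (.nd (nat_lit 9) 
(.lf (nat_lit 503982) (.g (nat_lit 5463) (.e (nat_lit 164020) (nat_lit 45) (.e (nat_lit 696344) (nat_lit 8) (.e (nat_lit 172062) (nat_lit 2) (.e (nat_lit 196666) (nat_lit 13) (.e (nat_lit 65617) (nat_lit 10) (.e (nat_lit 344127) (nat_lit 26) (.e (nat_lit 557090) (nat_lit 12) .nil))))))) (.g (nat_lit 1) (.e (nat_lit 177279) (nat_lit 0) .nil) .nil))) 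
(.lf (nat_lit 504494) (.g (nat_lit 1722) (.e (nat_lit 164179) (nat_lit 154) (.e (nat_lit 57408) (nat_lit 12) (.e (nat_lit 336454) (nat_lit 34) (.e (nat_lit 483401) (nat_lit 25) .nil)))) (.g (nat_lit 0) (.e (nat_lit 178762) (nat_lit 0) .nil) .nil)))) (.nd (nat_lit 9) 
(.lf (nat_lit 504238) (.g (nat_lit 1065) (.e (nat_lit 164112) (nat_lit 118) (.e (nat_lit 794635) (nat_lit 11) (.e (nat_lit 336153) (nat_lit 9) (.e (nat_lit 336437) (nat_lit 31) (.e (nat_lit 458769) (nat_lit 16) (.e (nat_lit 164291) (nat_lit 224) .nil)))))) (.g (nat_lit 1) (.e (nat_lit 177755) (nat_lit 0) .nil) .nil))) 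
(.lf (nat_lit 504750) (.g (nat_lit 1282) (.e (nat_lit 164207) (nat_lit 176) (.e (nat_lit 2808) (nat_lit 180) (.e (nat_lit 303117) (nat_lit 2) (.e (nat_lit 196674) (nat_lit 15) .nil)))) (.g (nat_lit 0) (.e (nat_lit 179141) (nat_lit 0) .nil) .nil)))))) (.nd (nat_lit 7) (.nd (nat_lit 8) (.nd (nat_lit 9) 
(.lf (nat_lit 503918) (.g (nat_lit 3576) (.e (nat_lit 164018) (nat_lit 45) (.e (nat_lit 696344) (nat_lit 8) (.e (nat_lit 172079) (nat_lit 7) (.e (nat_lit 409645) (nat_lit 18) (.e (nat_lit 303139) (nat_lit 10) (.e (nat_lit 434276) (nat_lit 39) (.e (nat_lit 663585) (nat_lit 12) .nil))))))) (.g (nat_lit 1) (.e (nat_lit 177201) (nat_lit 0) .nil) .nil))) 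
(.lf (nat_lit 504430) (.g (nat_lit 2169) (.e (nat_lit 164179) (nat_lit 154) (.e (nat_lit 57377) (nat_lit 3) (.e (nat_lit 98341) (nat_lit 20) (.e (nat_lit 221212) (nat_lit 22) (.e (nat_lit 196669) (nat_lit 14) .nil))))) (.g (nat_lit 0) (.e (nat_lit 178684) (nat_lit 0) .nil) .nil)))) (.nd (nat_lit 9) 
(.lf (nat_lit 504174) (.g (nat_lit 1895) (.e (nat_lit 164096) (nat_lit 86) (.e (nat_lit 532583) (nat_lit 26) (.e (nat_lit 426189) (nat_lit 9) (.e (nat_lit 426562) (nat_lit 33) (.e (nat_lit 385041) (nat_lit 19) (.e (nat_lit 164288) (nat_lit 224) .nil)))))) (.g (nat_lit 1) (.e (nat_lit 177572) (nat_lit 0) .nil) .nil))) 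
(.lf (nat_lit 504686) (.g (nat_lit 1477) (.e (nat_lit 164183) (nat_lit 154) (.e (nat_lit 57411) (nat_lit 12) (.e (nat_lit 336454) (nat_lit 34) (.e (nat_lit 483379) (nat_lit 23) .nil)))) (.g (nat_lit 0) (.e (nat_lit 179022) (nat_lit 0) .nil) .nil))))) (.nd (nat_lit 8) (.nd (nat_lit 9) 
(.lf (nat_lit 504046) (.g (nat_lit 1008) (.e (nat_lit 164022) (nat_lit 46) (.e (nat_lit 704738) (nat_lit 11) (.e (nat_lit 16392) (nat_lit 0) (.e (nat_lit 7936) (nat_lit 197) .nil)))) (.g (nat_lit 0) (.e (nat_lit 177358) (nat_lit 0) .nil) .nil))) 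
(.lf (nat_lit 504558) (.g (nat_lit 3508) (.e (nat_lit 164182) (nat_lit 154) (.e (nat_lit 57378) (nat_lit 3) (.e (nat_lit 98342) (nat_lit 20) (.e (nat_lit 221215) (nat_lit 23) (.e (nat_lit 204861) (nat_lit 26) (.e (nat_lit 336021) (nat_lit 3) (.e (nat_lit 98333) (nat_lit 18) .nil))))))) (.g (nat_lit 1) (.e (nat_lit 178845) (nat_lit 0) .nil) .nil)))) (.nd (nat_lit 9) 
(.lf (nat_lit 504302) (.g (nat_lit 1448) (.e (nat_lit 164176) (nat_lit 154) (.e (nat_lit 57375) (nat_lit 2) (.e (nat_lit 90128) (nat_lit 9) (.e (nat_lit 2706) (nat_lit 170) .nil)))) (.g (nat_lit 0) (.e (nat_lit 178532) (nat_lit 0) .nil) .nil))) 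
(.lf (nat_lit 504814) (.g (nat_lit 2423) (.e (nat_lit 164209) (nat_lit 176) (.e (nat_lit 2797) (nat_lit 180) (.e (nat_lit 303119) (nat_lit 3) (.e (nat_lit 204878) (nat_lit 31) (.e (nat_lit 376865) (nat_lit 22) .nil))))) (.g (nat_lit 0) (.e (nat_lit 179250) (nat_lit 0) .nil) .nil)))))))) (.nd (nat_lit 5) (.nd (nat_lit 6) (.nd (nat_lit 7) (.nd (nat_lit 8) (.nd (nat_lit 9) 
(.lf (nat_lit 503838) (.g (nat_lit 1390) (.e (nat_lit 164047) (nat_lit 55) (.e (nat_lit 778462) (nat_lit 11) (.e (nat_lit 24604) (nat_lit 2) (.e (nat_lit 90176) (nat_lit 15) (.e (nat_lit 196352) (nat_lit 2) .nil))))) (.g (nat_lit 0) (.e (nat_lit 176956) (nat_lit 0) .nil) .nil))) 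
(.lf (nat_lit 504350) (.g (nat_lit 1429) (.e (nat_lit 164177) (nat_lit 154) (.e (nat_lit 57406) (nat_lit 12) (.e (nat_lit 336320) (nat_lit 17) (.e (nat_lit 196672) (nat_lit 15) .nil)))) (.g (nat_lit 0) (.e (nat_lit 178590) (nat_lit 0) .nil) .nil)))) (.nd (nat_lit 9) 
(.lf (nat_lit 504094) (.g (nat_lit 2670) (.e (nat_lit 171776) (nat_lit 64) (.e (nat_lit 98367) (nat_lit 27) (.e (nat_lit 434231) (nat_lit 23) (.e (nat_lit 532579) (nat_lit 26) (.e (nat_lit 426139) (nat_lit 3) .nil))))) (.g (nat_lit 0) (.e (nat_lit 177432) (nat_lit 0) .nil) .nil))) 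
(.lf (nat_lit 504606) (.g (nat_lit 665) (.e (nat_lit 164183) (nat_lit 154) (.e (nat_lit 57373) (nat_lit 2) (.e (nat_lit 90162) (nat_lit 12) .nil))) (.g (nat_lit 0) (.e (nat_lit 178909) (nat_lit 0) .nil) .nil))))) (.nd (nat_lit 8) (.nd (nat_lit 9) 
(.lf (nat_lit 503966) (.g (nat_lit 3085) (.e (nat_lit 164020) (nat_lit 45) (.e (nat_lit 696342) (nat_lit 8) (.e (nat_lit 172066) (nat_lit 3) (.e (nat_lit 204869) (nat_lit 29) (.e (nat_lit 360474) (nat_lit 8) (.e (nat_lit 557091) (nat_lit 12) .nil)))))) (.g (nat_lit 1) (.e (nat_lit 177263) (nat_lit 0) .nil) .nil))) 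
(.lf (nat_lit 504478) (.g (nat_lit 2334) (.e (nat_lit 164179) (nat_lit 154) (.e (nat_lit 57407) (nat_lit 12) (.e (nat_lit 336454) (nat_lit 34) (.e (nat_lit 483383) (nat_lit 23) (.e (nat_lit 335878) (nat_lit 0) .nil))))) (.g (nat_lit 0) (.e (nat_lit 178745) (nat_lit 0) .nil) .nil)))) (.nd (nat_lit 9) 
(.lf (nat_lit 504222) (.g (nat_lit 2400) (.e (nat_lit 164104) (nat_lit 116) (.e (nat_lit 778462) (nat_lit 11) (.e (nat_lit 24660) (nat_lit 13) (.e (nat_lit 393259) (nat_lit 21) (.e (nat_lit 409618) (nat_lit 10) (.e (nat_lit 5023) (nat_lit 290) .nil)))))) (.g (nat_lit 1) (.e (nat_lit 177713) (nat_lit 0) .nil) .nil))) 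
(.lf (nat_lit 504734) (.g (nat_lit 2759) (.e (nat_lit 164207) (nat_lit 176) (.e (nat_lit 2797) (nat_lit 180) (.e (nat_lit 303119) (nat_lit 3) (.e (nat_lit 204875) (nat_lit 31) (.e (nat_lit 376864) (nat_lit 22) .nil))))) (.g (nat_lit 0) (.e (nat_lit 179111) (nat_lit 0) .nil) .nil)))))) (.nd (nat_lit 7) (.nd (nat_lit 8) (.nd (nat_lit 9) 
(.lf (nat_lit 503902) (.g (nat_lit 3462) (.e (nat_lit 164018) (nat_lit 45) (.e (nat_lit 696344) (nat_lit 8) (.e (nat_lit 172064) (nat_lit 2) (.e (nat_lit 196666) (nat_lit 13) (.e (nat_lit 65617) (nat_lit 10) (.e (nat_lit 344127) (nat_lit 26) (.e (nat_lit 557088) (nat_lit 12) .nil))))))) (.g (nat_lit 1) (.e (nat_lit 177185) (nat_lit 0) .nil) .nil))) 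
(.lf (nat_lit 504414) (.g (nat_lit 2468) (.e (nat_lit 164178) (nat_lit 154) (.e (nat_lit 57411) (nat_lit 12) (.e (nat_lit 336456) (nat_lit 34) (.e (nat_lit 483383) (nat_lit 23) (.e (nat_lit 336019) (nat_lit 3) .nil))))) (.g (nat_lit 0) (.e (nat_lit 178663) (nat_lit 0) .nil) .nil)))) (.nd (nat_lit 9) 
(.lf (nat_lit 504158) (.g (nat_lit 2437) (.e (nat_lit 164095) (nat_lit 86) (.e (nat_lit 532535) (nat_lit 9) (.e (nat_lit 336295) (nat_lit 15) (.e (nat_lit 3253) (nat_lit 197) .nil)))) (.g (nat_lit 0) (.e (nat_lit 177527) (nat_lit 0) .nil) .nil))) 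
(.lf (nat_lit 504670) (.g (nat_lit 2661) (.e (nat_lit 164183) (nat_lit 154) (.e (nat_lit 57411) (nat_lit 12) (.e (nat_lit 336019) (nat_lit 3) (.e (nat_lit 98342) (nat_lit 20) (.e (nat_lit 221207) (nat_lit 21) (.e (nat_lit 164242) (nat_lit 195) (.e (nat_lit 2723) (nat_lit 172) (.e (nat_lit 237585) (nat_lit 1) .nil)))))))) (.g (nat_lit 1) (.e (nat_lit 178996) (nat_lit 0) .nil) .nil))))) 
(.nd (nat_lit 8) (.nd (nat_lit 9) 
(.lf (nat_lit 504030) (.g (nat_lit 5227) (.e (nat_lit 164022) (nat_lit 46) (.e (nat_lit 704629) (nat_lit 9) (.e (nat_lit 375) (nat_lit 32) (.e (nat_lit 426125) (nat_lit 2) (.e (nat_lit 196666) (nat_lit 13) (.e (nat_lit 65614) (nat_lit 10) (.e (nat_lit 344132) (nat_lit 26) (.e (nat_lit 557094) (nat_lit 12) .nil)))))))) (.g (nat_lit 1) (.e (nat_lit 177336) (nat_lit 0) .nil) .nil))) 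
(.lf (nat_lit 504542) (.g (nat_lit 1754) (.e (nat_lit 164182) (nat_lit 154) (.e (nat_lit 57373) (nat_lit 2) (.e (nat_lit 90128) (nat_lit 9) (.e (nat_lit 2705) (nat_lit 170) .nil)))) (.g (nat_lit 0) (.e (nat_lit 178823) (nat_lit 0) .nil) .nil)))) (.nd (nat_lit 9) 
(.lf (nat_lit 504286) (.g (nat_lit 743) (.e (nat_lit 164155) (nat_lit 152) (.e (nat_lit 1201) (nat_lit 88) (.e (nat_lit 65642) (nat_lit 15) .nil))) (.g (nat_lit 0) (.e (nat_lit 177950) (nat_lit 0) .nil) .nil))) 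
(.lf (nat_lit 504798) (.g (nat_lit 3971) (.e (nat_lit 164209) (nat_lit 176) (.e (nat_lit 2797) (nat_lit 180) (.e (nat_lit 303117) (nat_lit 2) (.e (nat_lit 196674) (nat_lit 15) (.e (nat_lit 81953) (nat_lit 22) (.e (nat_lit 90165) (nat_lit 12) .nil)))))) (.g (nat_lit 1) (.e (nat_lit 179220) (nat_lit 0) .nil) .nil))))))) (.nd (nat_lit 6) (.nd (nat_lit 7) (.nd (nat_lit 8) (.nd (nat_lit 9) 
(.lf (nat_lit 503870) (.g (nat_lit 4987) (.e (nat_lit 164017) (nat_lit 44) (.e (nat_lit 688138) (nat_lit 5) (.e (nat_lit 2887) (nat_lit 184) (.e (nat_lit 426140) (nat_lit 3) (.e (nat_lit 204869) (nat_lit 29) (.e (nat_lit 360475) (nat_lit 8) (.e (nat_lit 557089) (nat_lit 12) .nil))))))) (.g (nat_lit 1) (.e (nat_lit 177123) (nat_lit 0) .nil) .nil))) 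
(.lf (nat_lit 504382) (.g (nat_lit 2119) (.e (nat_lit 164178) (nat_lit 154) (.e (nat_lit 57378) (nat_lit 3) (.e (nat_lit 98334) (nat_lit 18) (.e (nat_lit 164330) (nat_lit 230) .nil)))) (.g (nat_lit 0) (.e (nat_lit 178627) (nat_lit 0) .nil) .nil)))) (.nd (nat_lit 9) 
(.lf (nat_lit 504126) (.g (nat_lit 315) (.e (nat_lit 164092) (nat_lit 82) (.e (nat_lit 500046) (nat_lit 16) (.e (nat_lit 16463) (nat_lit 13) .nil))) (.g (nat_lit 0) (.e (nat_lit 177472) (nat_lit 0) .nil) .nil))) 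
(.lf (nat_lit 504638) (.g (nat_lit 2105) (.e (nat_lit 164183) (nat_lit 154) (.e (nat_lit 57379) (nat_lit 3) (.e (nat_lit 98341) (nat_lit 20) (.e (nat_lit 221212) (nat_lit 22) (.e (nat_lit 196669) (nat_lit 14) .nil))))) (.g (nat_lit 0) (.e (nat_lit 178955) (nat_lit 0) .nil) .nil))))) (.nd (nat_lit 8) (.nd (nat_lit 9) 
(.lf (nat_lit 503998) (.g (nat_lit 1722) (.e (nat_lit 164020) (nat_lit 45) (.e (nat_lit 696344) (nat_lit 8) (.e (nat_lit 172067) (nat_lit 3) (.e (nat_lit 204866) (nat_lit 28) .nil)))) (.g (nat_lit 0) (.e (nat_lit 177295) (nat_lit 0) .nil) .nil))) 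
(.lf (nat_lit 504510) (.g (nat_lit 1979) (.e (nat_lit 164179) (nat_lit 154) (.e (nat_lit 57411) (nat_lit 12) (.e (nat_lit 336456) (nat_lit 34) (.e (nat_lit 483397) (nat_lit 25) .nil)))) (.g (nat_lit 0) (.e (nat_lit 178785) (nat_lit 0) .nil) .nil)))) (.nd (nat_lit 9) 
(.lf (nat_lit 504254) (.g (nat_lit 1639) (.e (nat_lit 164112) (nat_lit 118) (.e (nat_lit 794637) (nat_lit 11) (.e (nat_lit 336077) (nat_lit 9) (.e (nat_lit 336438) (nat_lit 31) (.e (nat_lit 458769) (nat_lit 16) (.e (nat_lit 164288) (nat_lit 224) .nil)))))) (.g (nat_lit 1) (.e (nat_lit 177771) (nat_lit 0) .nil) .nil))) 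
(.lf (nat_lit 504766) (.g (nat_lit 1294) (.e (nat_lit 164207) (nat_lit 176) (.e (nat_lit 2810) (nat_lit 180) (.e (nat_lit 303119) (nat_lit 3) (.e (nat_lit 204877) (nat_lit 31) .nil)))) (.g (nat_lit 0) (.e (nat_lit 179163) (nat_lit 0) .nil) .nil)))))) (.nd (nat_lit 7) (.nd (nat_lit 8) (.nd (nat_lit 9) 
(.lf (nat_lit 503934) (.g (nat_lit 2408) (.e (nat_lit 164019) (nat_lit 45) (.e (nat_lit 696344) (nat_lit 8) (.e (nat_lit 172065) (nat_lit 3) (.e (nat_lit 204868) (nat_lit 29) (.e (nat_lit 360473) (nat_lit 8) (.e (nat_lit 557089) (nat_lit 12) .nil)))))) (.g (nat_lit 1) (.e (nat_lit 177219) (nat_lit 0) .nil) .nil))) 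
(.lf (nat_lit 504446) (.g (nat_lit 4047) (.e (nat_lit 164179) (nat_lit 154) (.e (nat_lit 57379) (nat_lit 3) (.e (nat_lit 98333) (nat_lit 18) (.e (nat_lit 164325) (nat_lit 230) (.e (nat_lit 163907) (nat_lit 12) (.e (nat_lit 426131) (nat_lit 3) (.e (nat_lit 204852) (nat_lit 26) (.e (nat_lit 336310) (nat_lit 16) .nil)))))))) (.g (nat_lit 1) (.e (nat_lit 178702) (nat_lit 0) .nil) .nil)))) 
(.nd (nat_lit 9) 
(.lf (nat_lit 504190) (.g (nat_lit 2047) (.e (nat_lit 164096) (nat_lit 86) (.e (nat_lit 532583) (nat_lit 26) (.e (nat_lit 426197) (nat_lit 9) (.e (nat_lit 426562) (nat_lit 33) (.e (nat_lit 385041) (nat_lit 19) (.e (nat_lit 164287) (nat_lit 224) .nil)))))) (.g (nat_lit 1) (.e (nat_lit 177588) (nat_lit 0) .nil) .nil))) 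
(.lf (nat_lit 504702) (.g (nat_lit 2299) (.e (nat_lit 171776) (nat_lit 160) (.e (nat_lit 57372) (nat_lit 2) (.e (nat_lit 90172) (nat_lit 14) (.e (nat_lit 180250) (nat_lit 10) (.e (nat_lit 573488) (nat_lit 14) .nil))))) (.g (nat_lit 0) (.e (nat_lit 179060) (nat_lit 0) .nil) .nil))))) (.nd (nat_lit 8) (.nd (nat_lit 9) 
(.lf (nat_lit 504062) (.g (nat_lit 2032) (.e (nat_lit 164023) (nat_lit 46) (.e (nat_lit 704737) (nat_lit 11) (.e (nat_lit 16416) (nat_lit 3) (.e (nat_lit 204852) (nat_lit 26) .nil)))) (.g (nat_lit 0) (.e (nat_lit 177388) (nat_lit 0) .nil) .nil))) 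
(.lf (nat_lit 504574) (.g (nat_lit 2219) (.e (nat_lit 164182) (nat_lit 154) (.e (nat_lit 57409) (nat_lit 12) (.e (nat_lit 336454) (nat_lit 34) (.e (nat_lit 483386) (nat_lit 23) .nil)))) (.g (nat_lit 0) (.e (nat_lit 178867) (nat_lit 0) .nil) .nil)))) (.nd (nat_lit 9) 
(.lf (nat_lit 504318) (.g (nat_lit 1326) (.e (nat_lit 164176) (nat_lit 154) (.e (nat_lit 57407) (nat_lit 12) (.e (nat_lit 336456) (nat_lit 34) (.e (nat_lit 483391) (nat_lit 23) .nil)))) (.g (nat_lit 0) (.e (nat_lit 178549) (nat_lit 0) .nil) .nil))) 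
(.lf (nat_lit 504830) (.g (nat_lit 1265) (.e (nat_lit 164210) (nat_lit 176) (.e (nat_lit 2808) (nat_lit 180) (.e (nat_lit 303117) (nat_lit 2) (.e (nat_lit 196674) (nat_lit 15) .nil)))) (.g (nat_lit 0) (.e (nat_lit 179314) (nat_lit 0) .nil) .nil)))))))))))) 
(.nd (nat_lit 1) (.nd (nat_lit 2) (.nd (nat_lit 3) (.nd (nat_lit 4) (.nd (nat_lit 5) 
(.nd (nat_lit 6) (.nd (nat_lit 7) (.nd (nat_lit 8) (.nd (nat_lit 9) 
(.lf (nat_lit 503809) (.g (nat_lit 3472) (.e (nat_lit 163999) (nat_lit 38) (.e (nat_lit 639020) (nat_lit 16) (.e (nat_lit 65627) (nat_lit 13) (.e (nat_lit 393284) (nat_lit 24) (.e (nat_lit 434276) (nat_lit 39) (.e (nat_lit 663584) (nat_lit 12) .nil)))))) (.g (nat_lit 1) (.e (nat_lit 176407) (nat_lit 0) .nil) .nil))) 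
(.lf (nat_lit 504321) (.g (nat_lit 2385) (.e (nat_lit 164176) (nat_lit 154) (.e (nat_lit 57409) (nat_lit 12) (.e (nat_lit 336454) (nat_lit 34) (.e (nat_lit 483385) (nat_lit 23) .nil)))) (.g (nat_lit 0) (.e (nat_lit 178552) (nat_lit 0) .nil) .nil)))) (.nd (nat_lit 9) 
(.lf (nat_lit 504065) (.g (nat_lit 2355) (.e (nat_lit 164023) (nat_lit 46) (.e (nat_lit 704737) (nat_lit 11) (.e (nat_lit 16417) (nat_lit 3) (.e (nat_lit 204869) (nat_lit 29) (.e (nat_lit 360473) (nat_lit 8) .nil))))) (.g (nat_lit 0) (.e (nat_lit 177391) (nat_lit 0) .nil) .nil))) 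
(.lf (nat_lit 504577) (.g (nat_lit 305) (.e (nat_lit 164182) (nat_lit 154) (.e (nat_lit 57409) (nat_lit 12) (.e (nat_lit 336456) (nat_lit 34) .nil))) (.g (nat_lit 0) (.e (nat_lit 178870) (nat_lit 0) .nil) .nil))))) (.nd (nat_lit 8) (.nd (nat_lit 9) 
(.lf (nat_lit 503937) (.g (nat_lit 3877) (.e (nat_lit 164019) (nat_lit 45) (.e (nat_lit 696344) (nat_lit 8) (.e (nat_lit 172067) (nat_lit 3) (.e (nat_lit 204855) (nat_lit 26) (.e (nat_lit 336176) (nat_lit 10) (.e (nat_lit 344133) (nat_lit 26) (.e (nat_lit 557089) (nat_lit 12) .nil))))))) (.g (nat_lit 1) (.e (nat_lit 177222) (nat_lit 0) .nil) .nil))) 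
(.lf (nat_lit 504449) (.g (nat_lit 957) (.e (nat_lit 164179) (nat_lit 154) (.e (nat_lit 57406) (nat_lit 12) (.e (nat_lit 336315) (nat_lit 17) .nil))) (.g (nat_lit 0) (.e (nat_lit 178705) (nat_lit 0) .nil) .nil)))) (.nd (nat_lit 9) 
(.lf (nat_lit 504193) (.g (nat_lit 2064) (.e (nat_lit 164096) (nat_lit 86) (.e (nat_lit 532583) (nat_lit 26) (.e (nat_lit 426197) (nat_lit 9) (.e (nat_lit 426562) (nat_lit 33) (.e (nat_lit 385041) (nat_lit 19) (.e (nat_lit 164291) (nat_lit 224) .nil)))))) (.g (nat_lit 1) (.e (nat_lit 177591) (nat_lit 0) .nil) .nil))) 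
(.lf (nat_lit 504705) (.g (nat_lit 2871) (.e (nat_lit 171776) (nat_lit 160) (.e (nat_lit 57372) (nat_lit 2) (.e (nat_lit 90174) (nat_lit 14) (.e (nat_lit 180250) (nat_lit 10) (.e (nat_lit 573487) (nat_lit 14) .nil))))) (.g (nat_lit 0) (.e (nat_lit 179063) (nat_lit 0) .nil) .nil)))))) (.nd (nat_lit 7) (.nd (nat_lit 8) (.nd (nat_lit 9) 
(.lf (nat_lit 503873) (.g (nat_lit 3602) (.e (nat_lit 164017) (nat_lit 44) (.e (nat_lit 688138) (nat_lit 5) (.e (nat_lit 3062) (nat_lit 190) (.e (nat_lit 475179) (nat_lit 24) (.e (nat_lit 516150) (nat_lit 9) (.e (nat_lit 426320) (nat_lit 12) (.e (nat_lit 483072) (nat_lit 3) .nil))))))) (.g (nat_lit 1) (.e (nat_lit 177126) (nat_lit 0) .nil) .nil))) 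
(.lf (nat_lit 504385) (.g (nat_lit 2613) (.e (nat_lit 164178) (nat_lit 154) (.e (nat_lit 57379) (nat_lit 3) (.e (nat_lit 98342) (nat_lit 20) (.e (nat_lit 221210) (nat_lit 22) (.e (nat_lit 196668) (nat_lit 14) .nil))))) (.g (nat_lit 0) (.e (nat_lit 178630) (nat_lit 0) .nil) .nil)))) (.nd (nat_lit 9) 
(.lf (nat_lit 504129) (.g (nat_lit 1747) (.e (nat_lit 164092) (nat_lit 82) (.e (nat_lit 500046) (nat_lit 16) (.e (nat_lit 16463) (nat_lit 13) (.e (nat_lit 483332) (nat_lit 0) (.e (nat_lit 7098) (nat_lit 380) .nil))))) (.g (nat_lit 0) (.e (nat_lit 177475) (nat_lit 0) .nil) .nil))) 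
(.lf (nat_lit 504641) (.g (nat_lit 4092) (.e (nat_lit 164183) (nat_lit 154) (.e (nat_lit 57379) (nat_lit 3) (.e (nat_lit 98342) (nat_lit 20) (.e (nat_lit 221210) (nat_lit 22) (.e (nat_lit 196670) (nat_lit 14) (.e (nat_lit 73746) (nat_lit 3) (.e (nat_lit 516118) (nat_lit 1) .nil))))))) (.g (nat_lit 1) (.e (nat_lit 178958) (nat_lit 0) .nil) .nil))))) (.nd (nat_lit 8) (.nd (nat_lit 9) 
(.lf (nat_lit 504001) (.g (nat_lit 4955) (.e (nat_lit 164020) (nat_lit 45) (.e (nat_lit 696344) (nat_lit 8) (.e (nat_lit 172067) (nat_lit 3) (.e (nat_lit 204868) (nat_lit 29) (.e (nat_lit 360475) (nat_lit 8) (.e (nat_lit 557090) (nat_lit 12) .nil)))))) (.g (nat_lit 1) (.e (nat_lit 177298) (nat_lit 0) .nil) .nil))) 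
(.lf (nat_lit 504513) (.g (nat_lit 3005) (.e (nat_lit 164179) (nat_lit 154) (.e (nat_lit 57412) (nat_lit 12) (.e (nat_lit 336295) (nat_lit 15) (.e (nat_lit 3253) (nat_lit 197) (.e (nat_lit 532558) (nat_lit 14) (.e (nat_lit 376842) (nat_lit 11) (.e (nat_lit 426098) (nat_lit 1) .nil))))))) (.g (nat_lit 1) (.e (nat_lit 178788) (nat_lit 0) .nil) .nil)))) (.nd (nat_lit 9) 
(.lf (nat_lit 504257) (.g (nat_lit 1638) (.e (nat_lit 164112) (nat_lit 118) (.e (nat_lit 794637) (nat_lit 11) (.e (nat_lit 336077) (nat_lit 9) (.e (nat_lit 336438) (nat_lit 31) (.e (nat_lit 458769) (nat_lit 16) (.e (nat_lit 164292) (nat_lit 224) .nil)))))) (.g (nat_lit 1) (.e (nat_lit 177774) (nat_lit 0) .nil) .nil))) 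
(.lf (nat_lit 504769) (.g (nat_lit 1969) (.e (nat_lit 164207) (nat_lit 176) (.e (nat_lit 2819) (nat_lit 181) (.e (nat_lit 311315) (nat_lit 3) (.e (nat_lit 204854) (nat_lit 26) (.e (nat_lit 336182) (nat_lit 11) .nil))))) (.g (nat_lit 0) (.e (nat_lit 179170) (nat_lit 0) .nil) .nil))))))) (.nd (nat_lit 6) (.nd (nat_lit 7) (.nd (nat_lit 8) (.nd (nat_lit 9) 
(.lf (nat_lit 503841) (.g (nat_lit 1568) (.e (nat_lit 164048) (nat_lit 55) (.e (nat_lit 778469) (nat_lit 11) (.e (nat_lit 24604) (nat_lit 2) (.e (nat_lit 90178) (nat_lit 15) (.e (nat_lit 196352) (nat_lit 2) .nil))))) (.g (nat_lit 0) (.e (nat_lit 176961) (nat_lit 0) .nil) .nil))) 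
(.lf (nat_lit 504353) (.g (nat_lit 2337) (.e (nat_lit 164177) (nat_lit 154) (.e (nat_lit 57406) (nat_lit 12) (.e (nat_lit 336454) (nat_lit 34) (.e (nat_lit 483383) (nat_lit 23) .nil)))) (.g (nat_lit 0) (.e (nat_lit 178593) (nat_lit 0) .nil) .nil)))) (.nd (nat_lit 9) 
(.lf (nat_lit 504097) (.g (nat_lit 2028) (.e (nat_lit 171776) (nat_lit 64) (.e (nat_lit 98372) (nat_lit 29) (.e (nat_lit 450579) (nat_lit 5) (.e (nat_lit 532530) (nat_lit 9) (.e (nat_lit 336000) (nat_lit 1) .nil))))) (.g (nat_lit 0) (.e (nat_lit 177435) (nat_lit 0) .nil) .nil))) 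
(.lf (nat_lit 504609) (.g (nat_lit 646) (.e (nat_lit 164183) (nat_lit 154) (.e (nat_lit 57373) (nat_lit 2) (.e (nat_lit 90181) (nat_lit 16) .nil))) (.g (nat_lit 0) (.e (nat_lit 178912) (nat_lit 0) .nil) .nil))))) (.nd (nat_lit 8) (.nd (nat_lit 9) 
(.lf (nat_lit 503969) (.g (nat_lit 1334) (.e (nat_lit 164020) (nat_lit 45) (.e (nat_lit 696343) (nat_lit 8) (.e (nat_lit 172067) (nat_lit 3) (.e (nat_lit 204866) (nat_lit 28) .nil)))) (.g (nat_lit 0) (.e (nat_lit 177266) (nat_lit 0) .nil) .nil))) 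
(.lf (nat_lit 504481) (.g (nat_lit 1731) (.e (nat_lit 164179) (nat_lit 154) (.e (nat_lit 57407) (nat_lit 12) (.e (nat_lit 336454) (nat_lit 34) (.e (nat_lit 483394) (nat_lit 24) (.e (nat_lit 344119) (nat_lit 21) .nil))))) (.g (nat_lit 0) (.e (nat_lit 178748) (nat_lit 0) .nil) .nil)))) (.nd (nat_lit 9) 
(.lf (nat_lit 504225) (.g (nat_lit 667) (.e (nat_lit 164110) (nat_lit 116) (.e (nat_lit 778362) (nat_lit 9) (.e (nat_lit 297) (nat_lit 22) .nil))) (.g (nat_lit 0) (.e (nat_lit 177722) (nat_lit 0) .nil) .nil))) 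
(.lf (nat_lit 504737) (.g (nat_lit 1547) (.e (nat_lit 164207) (nat_lit 176) (.e (nat_lit 2798) (nat_lit 180) (.e (nat_lit 303117) (nat_lit 2) (.e (nat_lit 196665) (nat_lit 13) .nil)))) (.g (nat_lit 0) (.e (nat_lit 179115) (nat_lit 0) .nil) .nil)))))) (.nd (nat_lit 7) (.nd (nat_lit 8) (.nd (nat_lit 9) 
(.lf (nat_lit 503905) (.g (nat_lit 2129) (.e (nat_lit 164018) (nat_lit 45) (.e (nat_lit 696344) (nat_lit 8) (.e (nat_lit 172064) (nat_lit 2) (.e (nat_lit 196666) (nat_lit 13) (.e (nat_lit 65617) (nat_lit 10) (.e (nat_lit 344133) (nat_lit 26) (.e (nat_lit 557089) (nat_lit 12) .nil))))))) (.g (nat_lit 1) (.e (nat_lit 177188) (nat_lit 0) .nil) .nil))) 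
(.lf (nat_lit 504417) (.g (nat_lit 1194) (.e (nat_lit 164179) (nat_lit 154) (.e (nat_lit 57371) (nat_lit 2) (.e (nat_lit 90128) (nat_lit 9) (.e (nat_lit 2706) (nat_lit 170) .nil)))) (.g (nat_lit 0) (.e (nat_lit 178666) (nat_lit 0) .nil) .nil)))) (.nd (nat_lit 9) 
(.lf (nat_lit 504161) (.g (nat_lit 1590) (.e (nat_lit 164096) (nat_lit 86) (.e (nat_lit 532583) (nat_lit 26) (.e (nat_lit 426186) (nat_lit 9) (.e (nat_lit 426562) (nat_lit 33) (.e (nat_lit 385041) (nat_lit 19) (.e (nat_lit 164287) (nat_lit 224) .nil)))))) (.g (nat_lit 1) (.e (nat_lit 177559) (nat_lit 0) .nil) .nil))) 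
(.lf (nat_lit 504673) (.g (nat_lit 870) (.e (nat_lit 164183) (nat_lit 154) (.e (nat_lit 57411) (nat_lit 12) (.e (nat_lit 336257) (nat_lit 15) .nil))) (.g (nat_lit 0) (.e (nat_lit 179000) (nat_lit 0) .nil) .nil))))) (.nd (nat_lit 8) (.nd (nat_lit 9) 
(.lf (nat_lit 504033) (.g (nat_lit 4355) (.e (nat_lit 164022) (nat_lit 46) (.e (nat_lit 704629) (nat_lit 9) (.e (nat_lit 411) (nat_lit 32) (.e (nat_lit 426113) (nat_lit 2) (.e (nat_lit 196666) (nat_lit 13) (.e (nat_lit 65617) (nat_lit 10) (.e (nat_lit 344132) (nat_lit 26) (.e (nat_lit 557094) (nat_lit 12) .nil)))))))) (.g (nat_lit 1) (.e (nat_lit 177339) (nat_lit 0) .nil) .nil))) 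
(.lf (nat_lit 504545) (.g (nat_lit 1233) (.e (nat_lit 164182) (nat_lit 154) (.e (nat_lit 57375) (nat_lit 2) (.e (nat_lit 90128) (nat_lit 9) (.e (nat_lit 2706) (nat_lit 170) .nil)))) (.g (nat_lit 0) (.e (nat_lit 178828) (nat_lit 0) .nil) .nil)))) (.nd (nat_lit 9) 
(.lf (nat_lit 504289) (.g (nat_lit 2270) (.e (nat_lit 171776) (nat_lit 152) (.e (nat_lit 1183) (nat_lit 87) (.e (nat_lit 57479) (nat_lit 28) (.e (nat_lit 557105) (nat_lit 14) (.e (nat_lit 180252) (nat_lit 10) .nil))))) (.g (nat_lit 0) (.e (nat_lit 177974) (nat_lit 0) .nil) .nil))) 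
(.lf (nat_lit 504801) (.g (nat_lit 3160) (.e (nat_lit 164209) (nat_lit 176) (.e (nat_lit 2797) (nat_lit 180) (.e (nat_lit 303119) (nat_lit 3) (.e (nat_lit 204861) (nat_lit 26) (.e (nat_lit 336073) (nat_lit 9) .nil))))) (.g (nat_lit 0) (.e (nat_lit 179231) (nat_lit 0) .nil) .nil)))))))) (.nd (nat_lit 5) (.nd (nat_lit 6) (.nd (nat_lit 7) (.nd (nat_lit 8) (.nd (nat_lit 9) 
(.lf (nat_lit 503825) (.g (nat_lit 1459) (.e (nat_lit 164003) (nat_lit 40) (.e (nat_lit 655380) (nat_lit 6) (.e (nat_lit 188452) (nat_lit 23) (.e (nat_lit 212736) (nat_lit 10) .nil)))) (.g (nat_lit 0) (.e (nat_lit 176501) (nat_lit 0) .nil) .nil))) 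
(.lf (nat_lit 504337) (.g (nat_lit 2408) (.e (nat_lit 164177) (nat_lit 154) (.e (nat_lit 57378) (nat_lit 3) (.e (nat_lit 98341) (nat_lit 20) (.e (nat_lit 221210) (nat_lit 22) (.e (nat_lit 196670) (nat_lit 14) .nil))))) (.g (nat_lit 0) (.e (nat_lit 178574) (nat_lit 0) .nil) .nil)))) (.nd (nat_lit 9) 
(.lf (nat_lit 504081) (.g (nat_lit 1719) (.e (nat_lit 171776) (nat_lit 62) (.e (nat_lit 57927) (nat_lit 282) (.e (nat_lit 163933) (nat_lit 17) (.e (nat_lit 466977) (nat_lit 22) (.e (nat_lit 196656) (nat_lit 11) .nil))))) (.g (nat_lit 0) (.e (nat_lit 177419) (nat_lit 0) .nil) .nil))) 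
(.lf (nat_lit 504593) (.g (nat_lit 847) (.e (nat_lit 164182) (nat_lit 154) (.e (nat_lit 57411) (nat_lit 12) (.e (nat_lit 336368) (nat_lit 27) .nil))) (.g (nat_lit 0) (.e (nat_lit 178892) (nat_lit 0) .nil) .nil))))) (.nd (nat_lit 8) (.nd (nat_lit 9) 
(.lf (nat_lit 503953) (.g (nat_lit 4172) (.e (nat_lit 164020) (nat_lit 45) (.e (nat_lit 696329) (nat_lit 5) (.e (nat_lit 2884) (nat_lit 184) (.e (nat_lit 426125) (nat_lit 2) (.e (nat_lit 196666) (nat_lit 13) (.e (nat_lit 65617) (nat_lit 10) (.e (nat_lit 344130) (nat_lit 26) (.e (nat_lit 557089) (nat_lit 12) .nil)))))))) (.g (nat_lit 1) (.e (nat_lit 177238) (nat_lit 0) .nil) .nil))) 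
(.lf (nat_lit 504465) (.g (nat_lit 1192) (.e (nat_lit 164179) (nat_lit 154) (.e (nat_lit 57406) (nat_lit 12) (.e (nat_lit 336455) (nat_lit 34) .nil))) (.g (nat_lit 0) (.e (nat_lit 178725) (nat_lit 0) .nil) .nil)))) (.nd (nat_lit 9) 
(.lf (nat_lit 504209) (.g (nat_lit 2290) (.e (nat_lit 164096) (nat_lit 86) (.e (nat_lit 532583) (nat_lit 26) (.e (nat_lit 426200) (nat_lit 9) (.e (nat_lit 426562) (nat_lit 33) (.e (nat_lit 385041) (nat_lit 19) (.e (nat_lit 164293) (nat_lit 224) .nil)))))) (.g (nat_lit 1) (.e (nat_lit 177613) (nat_lit 0) .nil) .nil))) 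
(.lf (nat_lit 504721) (.g (nat_lit 2857) (.e (nat_lit 164207) (nat_lit 176) (.e (nat_lit 2797) (nat_lit 180) (.e (nat_lit 303117) (nat_lit 2) (.e (nat_lit 196666) (nat_lit 13) (.e (nat_lit 65596) (nat_lit 9) .nil))))) (.g (nat_lit 0) (.e (nat_lit 179085) (nat_lit 0) .nil) .nil)))))) (.nd (nat_lit 7) (.nd (nat_lit 8) (.nd (nat_lit 9) 
(.lf (nat_lit 503889) (.g (nat_lit 2595) (.e (nat_lit 164018) (nat_lit 45) (.e (nat_lit 696343) (nat_lit 8) (.e (nat_lit 172062) (nat_lit 2) (.e (nat_lit 196666) (nat_lit 13) (.e (nat_lit 65617) (nat_lit 10) (.e (nat_lit 344127) (nat_lit 26) (.e (nat_lit 557088) (nat_lit 12) .nil))))))) (.g (nat_lit 1) (.e (nat_lit 177165) (nat_lit 0) .nil) .nil))) 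
(.lf (nat_lit 504401) (.g (nat_lit 1590) (.e (nat_lit 164178) (nat_lit 154) (.e (nat_lit 57407) (nat_lit 12) (.e (nat_lit 336456) (nat_lit 34) (.e (nat_lit 483389) (nat_lit 23) .nil)))) (.g (nat_lit 0) (.e (nat_lit 178650) (nat_lit 0) .nil) .nil)))) (.nd (nat_lit 9) 
(.lf (nat_lit 504145) (.g (nat_lit 2390) (.e (nat_lit 164092) (nat_lit 82) (.e (nat_lit 500046) (nat_lit 16) (.e (nat_lit 16466) (nat_lit 13) (.e (nat_lit 483333) (nat_lit 0) (.e (nat_lit 7098) (nat_lit 380) (.e (nat_lit 164291) (nat_lit 224) .nil)))))) (.g (nat_lit 1) (.e (nat_lit 177492) (nat_lit 0) .nil) .nil))) 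
(.lf (nat_lit 504657) (.g (nat_lit 809) (.e (nat_lit 164183) (nat_lit 154) (.e (nat_lit 57409) (nat_lit 12) (.e (nat_lit 336326) (nat_lit 18) (.e (nat_lit 204877) (nat_lit 31) .nil)))) (.g (nat_lit 0) (.e (nat_lit 178975) (nat_lit 0) .nil) .nil))))) (.nd (nat_lit 8) (.nd (nat_lit 9) 
(.lf (nat_lit 504017) (.g (nat_lit 2161) (.e (nat_lit 164020) (nat_lit 45) (.e (nat_lit 696344) (nat_lit 8) (.e (nat_lit 172082) (nat_lit 7) (.e (nat_lit 409646) (nat_lit 18) (.e (nat_lit 303139) (nat_lit 10) .nil))))) (.g (nat_lit 0) (.e (nat_lit 177314) (nat_lit 0) .nil) .nil))) 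
(.lf (nat_lit 504529) (.g (nat_lit 1384) (.e (nat_lit 164180) (nat_lit 154) (.e (nat_lit 57411) (nat_lit 12) (.e (nat_lit 336456) (nat_lit 34) (.e (nat_lit 483391) (nat_lit 23) (.e (nat_lit 336017) (nat_lit 3) .nil))))) (.g (nat_lit 0) (.e (nat_lit 178807) (nat_lit 0) .nil) .nil)))) (.nd (nat_lit 9) 
(.lf (nat_lit 504273) (.g (nat_lit 1991) (.e (nat_lit 164112) (nat_lit 118) (.e (nat_lit 794637) (nat_lit 11) (.e (nat_lit 336087) (nat_lit 9) (.e (nat_lit 336438) (nat_lit 31) (.e (nat_lit 458769) (nat_lit 16) (.e (nat_lit 164294) (nat_lit 224) .nil)))))) (.g (nat_lit 1) (.e (nat_lit 177790) (nat_lit 0) .nil) .nil))) 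
(.lf (nat_lit 504785) (.g (nat_lit 2350) (.e (nat_lit 164208) (nat_lit 176) (.e (nat_lit 2819) (nat_lit 181) (.e (nat_lit 311315) (nat_lit 3) (.e (nat_lit 204854) (nat_lit 26) (.e (nat_lit 336182) (nat_lit 11) (.e (nat_lit 376576) (nat_lit 19) (.e (nat_lit 499910) (nat_lit 8) .nil))))))) (.g (nat_lit 1) (.e (nat_lit 179195) (nat_lit 0) .nil) .nil))))))) 
(.nd (nat_lit 6) (.nd (nat_lit 7) (.nd (nat_lit 8) (.nd (nat_lit 9) 
(.lf (nat_lit 503857) (.g (nat_lit 951) (.e (nat_lit 164058) (nat_lit 56) (.e (nat_lit 786457) (nat_lit 18) (.e (nat_lit 98381) (nat_lit 31) (.e (nat_lit 466954) (nat_lit 11) (.e (nat_lit 336049) (nat_lit 6) (.e (nat_lit 147498) (nat_lit 12) .nil)))))) (.g (nat_lit 1) (.e (nat_lit 177016) (nat_lit 0) .nil) .nil))) 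
(.lf (nat_lit 504369) (.g (nat_lit 3084) (.e (nat_lit 164177) (nat_lit 154) (.e (nat_lit 57411) (nat_lit 12) (.e (nat_lit 336316) (nat_lit 17) (.e (nat_lit 196666) (nat_lit 13) (.e (nat_lit 65626) (nat_lit 13) .nil))))) (.g (nat_lit 0) (.e (nat_lit 178611) (nat_lit 0) .nil) .nil)))) (.nd (nat_lit 9) 
(.lf (nat_lit 504113) (.g (nat_lit 2384) (.e (nat_lit 171776) (nat_lit 64) (.e (nat_lit 98381) (nat_lit 31) (.e (nat_lit 466977) (nat_lit 22) (.e (nat_lit 196681) (nat_lit 17) (.e (nat_lit 131088) (nat_lit 1) .nil))))) (.g (nat_lit 0) (.e (nat_lit 177451) (nat_lit 0) .nil) .nil))) 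
(.lf (nat_lit 504625) (.g (nat_lit 3789) (.e (nat_lit 164183) (nat_lit 154) (.e (nat_lit 57378) (nat_lit 3) (.e (nat_lit 98341) (nat_lit 20) (.e (nat_lit 221210) (nat_lit 22) (.e (nat_lit 196666) (nat_lit 13) (.e (nat_lit 65569) (nat_lit 3) (.e (nat_lit 98334) (nat_lit 18) .nil))))))) (.g (nat_lit 1) (.e (nat_lit 178939) (nat_lit 0) .nil) .nil))))) (.nd (nat_lit 8) (.nd (nat_lit 9) 
(.lf (nat_lit 503985) (.g (nat_lit 3112) (.e (nat_lit 164020) (nat_lit 45) (.e (nat_lit 696344) (nat_lit 8) (.e (nat_lit 172064) (nat_lit 2) (.e (nat_lit 196666) (nat_lit 13) (.e (nat_lit 65614) (nat_lit 10) (.e (nat_lit 344131) (nat_lit 26) (.e (nat_lit 557090) (nat_lit 12) .nil))))))) (.g (nat_lit 1) (.e (nat_lit 177282) (nat_lit 0) .nil) .nil))) 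
(.lf (nat_lit 504497) (.g (nat_lit 1987) (.e (nat_lit 164179) (nat_lit 154) (.e (nat_lit 57409) (nat_lit 12) (.e (nat_lit 336324) (nat_lit 18) (.e (nat_lit 204865) (nat_lit 28) (.e (nat_lit 352277) (nat_lit 11) .nil))))) (.g (nat_lit 0) (.e (nat_lit 178768) (nat_lit 0) .nil) .nil)))) (.nd (nat_lit 9) 
(.lf (nat_lit 504241) (.g (nat_lit 1065) (.e (nat_lit 164112) (nat_lit 118) (.e (nat_lit 794635) (nat_lit 11) (.e (nat_lit 336153) (nat_lit 9) (.e (nat_lit 336437) (nat_lit 31) (.e (nat_lit 458769) (nat_lit 16) (.e (nat_lit 164294) (nat_lit 224) .nil)))))) (.g (nat_lit 1) (.e (nat_lit 177758) (nat_lit 0) .nil) .nil))) 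
(.lf (nat_lit 504753) (.g (nat_lit 3216) (.e (nat_lit 164207) (nat_lit 176) (.e (nat_lit 2809) (nat_lit 180) (.e (nat_lit 303117) (nat_lit 2) (.e (nat_lit 196672) (nat_lit 15) (.e (nat_lit 81951) (nat_lit 22) .nil))))) (.g (nat_lit 0) (.e (nat_lit 179146) (nat_lit 0) .nil) .nil)))))) (.nd (nat_lit 7) (.nd (nat_lit 8) (.nd (nat_lit 9) 
(.lf (nat_lit 503921) (.g (nat_lit 3536) (.e (nat_lit 164018) (nat_lit 45) (.e (nat_lit 696344) (nat_lit 8) (.e (nat_lit 172081) (nat_lit 7) (.e (nat_lit 409648) (nat_lit 18) (.e (nat_lit 303137) (nat_lit 10) (.e (nat_lit 434275) (nat_lit 39) (.e (nat_lit 663585) (nat_lit 12) .nil))))))) (.g (nat_lit 1) (.e (nat_lit 177204) (nat_lit 0) .nil) .nil))) 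
(.lf (nat_lit 504433) (.g (nat_lit 3651) (.e (nat_lit 164179) (nat_lit 154) (.e (nat_lit 57377) (nat_lit 3) (.e (nat_lit 98342) (nat_lit 20) (.e (nat_lit 221212) (nat_lit 22) (.e (nat_lit 196670) (nat_lit 14) (.e (nat_lit 73746) (nat_lit 3) (.e (nat_lit 516118) (nat_lit 1) .nil))))))) (.g (nat_lit 1) (.e (nat_lit 178687) (nat_lit 0) .nil) .nil)))) (.nd (nat_lit 9) 
(.lf (nat_lit 504177) (.g (nat_lit 1977) (.e (nat_lit 164096) (nat_lit 86) (.e (nat_lit 532583) (nat_lit 26) (.e (nat_lit 426189) (nat_lit 9) (.e (nat_lit 426562) (nat_lit 33) (.e (nat_lit 385041) (nat_lit 19) (.e (nat_lit 164292) (nat_lit 224) .nil)))))) (.g (nat_lit 1) (.e (nat_lit 177575) (nat_lit 0) .nil) .nil))) 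
(.lf (nat_lit 504689) (.g (nat_lit 1316) (.e (nat_lit 164183) (nat_lit 154) (.e (nat_lit 57411) (nat_lit 12) (.e (nat_lit 336454) (nat_lit 34) (.e (nat_lit 483388) (nat_lit 23) (.e (nat_lit 336023) (nat_lit 3) .nil))))) (.g (nat_lit 0) (.e (nat_lit 179025) (nat_lit 0) .nil) .nil))))) (.nd (nat_lit 8) (.nd (nat_lit 9) 
(.lf (nat_lit 504049) (.g (nat_lit 3742) (.e (nat_lit 164022) (nat_lit 46) (.e (nat_lit 704738) (nat_lit 11) (.e (nat_lit 16416) (nat_lit 3) (.e (nat_lit 204852) (nat_lit 26) (.e (nat_lit 336161) (nat_lit 10) .nil))))) (.g (nat_lit 0) (.e (nat_lit 177364) (nat_lit 0) .nil) .nil))) 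
(.lf (nat_lit 504561) (.g (nat_lit 1695) (.e (nat_lit 164182) (nat_lit 154) (.e (nat_lit 57379) (nat_lit 3) (.e (nat_lit 98334) (nat_lit 18) (.e (nat_lit 164305) (nat_lit 226) .nil)))) (.g (nat_lit 0) (.e (nat_lit 178850) (nat_lit 0) .nil) .nil)))) (.nd (nat_lit 9) 
(.lf (nat_lit 504305) (.g (nat_lit 2451) (.e (nat_lit 164176) (nat_lit 154) (.e (nat_lit 57378) (nat_lit 3) (.e (nat_lit 98341) (nat_lit 20) (.e (nat_lit 221210) (nat_lit 22) (.e (nat_lit 196666) (nat_lit 13) .nil))))) (.g (nat_lit 0) (.e (nat_lit 178535) (nat_lit 0) .nil) .nil))) 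
(.lf (nat_lit 504817) (.g (nat_lit 400) (.e (nat_lit 164210) (nat_lit 176) (.e (nat_lit 2797) (nat_lit 180) (.e (nat_lit 303119) (nat_lit 3) .nil))) (.g (nat_lit 0) (.e (nat_lit 179272) (nat_lit 0) .nil) .nil))))))))) (.nd (nat_lit 4) (.nd (nat_lit 5) (.nd (nat_lit 6) (.nd (nat_lit 7) (.nd (nat_lit 8) (.nd (nat_lit 9) 
(.lf (nat_lit 503817) (.g (nat_lit 3821) (.e (nat_lit 164000) (nat_lit 38) (.e (nat_lit 639020) (nat_lit 16) (.e (nat_lit 65627) (nat_lit 13) (.e (nat_lit 393284) (nat_lit 24) (.e (nat_lit 434276) (nat_lit 39) (.e (nat_lit 663584) (nat_lit 12) .nil)))))) (.g (nat_lit 1) (.e (nat_lit 176416) (nat_lit 0) .nil) .nil))) 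
(.lf (nat_lit 504329) (.g (nat_lit 1915) (.e (nat_lit 164176) (nat_lit 154) (.e (nat_lit 57411) (nat_lit 12) (.e (nat_lit 336456) (nat_lit 34) (.e (nat_lit 483396) (nat_lit 24) .nil)))) (.g (nat_lit 0) (.e (nat_lit 178560) (nat_lit 0) .nil) .nil)))) (.nd (nat_lit 9) 
(.lf (nat_lit 504073) (.g (nat_lit 2302) (.e (nat_lit 171776) (nat_lit 46) (.e (nat_lit 704733) (nat_lit 11) (.e (nat_lit 16416) (nat_lit 3) (.e (nat_lit 204869) (nat_lit 29) (.e (nat_lit 360474) (nat_lit 8) .nil))))) (.g (nat_lit 0) (.e (nat_lit 177405) (nat_lit 0) .nil) .nil))) 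
(.lf (nat_lit 504585) (.g (nat_lit 2067) (.e (nat_lit 164182) (nat_lit 154) (.e (nat_lit 57411) (nat_lit 12) (.e (nat_lit 336324) (nat_lit 18) (.e (nat_lit 204854) (nat_lit 26) (.e (nat_lit 343808) (nat_lit 13) .nil))))) (.g (nat_lit 0) (.e (nat_lit 178883) (nat_lit 0) .nil) .nil))))) (.nd (nat_lit 8) (.nd (nat_lit 9) 
(.lf (nat_lit 503945) (.g (nat_lit 3038) (.e (nat_lit 164019) (nat_lit 45) (.e (nat_lit 696344) (nat_lit 8) (.e (nat_lit 172082) (nat_lit 7) (.e (nat_lit 409646) (nat_lit 18) (.e (nat_lit 303140) (nat_lit 10) (.e (nat_lit 434275) (nat_lit 39) (.e (nat_lit 663584) (nat_lit 12) .nil))))))) (.g (nat_lit 1) (.e (nat_lit 177230) (nat_lit 0) .nil) .nil))) 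
(.lf (nat_lit 504457) (.g (nat_lit 1313) (.e (nat_lit 164179) (nat_lit 154) (.e (nat_lit 57406) (nat_lit 12) (.e (nat_lit 336454) (nat_lit 34) (.e (nat_lit 483390) (nat_lit 23) .nil)))) (.g (nat_lit 0) (.e (nat_lit 178717) (nat_lit 0) .nil) .nil)))) (.nd (nat_lit 9) 
(.lf (nat_lit 504201) (.g (nat_lit 2357) (.e (nat_lit 164096) (nat_lit 86) (.e (nat_lit 532583) (nat_lit 26) (.e (nat_lit 426199) (nat_lit 9) (.e (nat_lit 426562) (nat_lit 33) (.e (nat_lit 385041) (nat_lit 19) (.e (nat_lit 164288) (nat_lit 224) .nil)))))) (.g (nat_lit 1) (.e (nat_lit 177599) (nat_lit 0) .nil) .nil))) 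
(.lf (nat_lit 504713) (.g (nat_lit 2377) (.e (nat_lit 171776) (nat_lit 160) (.e (nat_lit 57378) (nat_lit 3) (.e (nat_lit 98367) (nat_lit 27) (.e (nat_lit 434244) (nat_lit 28) (.e (nat_lit 573487) (nat_lit 14) .nil))))) (.g (nat_lit 0) (.e (nat_lit 179073) (nat_lit 0) .nil) .nil)))))) (.nd (nat_lit 7) (.nd (nat_lit 8) (.nd (nat_lit 9) 
(.lf (nat_lit 503881) (.g (nat_lit 2770) (.e (nat_lit 164017) (nat_lit 44) (.e (nat_lit 688139) (nat_lit 5) (.e (nat_lit 3062) (nat_lit 190) (.e (nat_lit 475179) (nat_lit 24) (.e (nat_lit 516176) (nat_lit 14) (.e (nat_lit 466945) (nat_lit 0) (.e (nat_lit 7936) (nat_lit 360) .nil))))))) (.g (nat_lit 1) (.e (nat_lit 177134) (nat_lit 0) .nil) .nil))) 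
(.lf (nat_lit 504393) (.g (nat_lit 2168) (.e (nat_lit 164178) (nat_lit 154) (.e (nat_lit 57406) (nat_lit 12) (.e (nat_lit 336456) (nat_lit 34) (.e (nat_lit 483396) (nat_lit 24) (.e (nat_lit 344119) (nat_lit 21) .nil))))) (.g (nat_lit 0) (.e (nat_lit 178639) (nat_lit 0) .nil) .nil)))) (.nd (nat_lit 9) 
(.lf (nat_lit 504137) (.g (nat_lit 1921) (.e (nat_lit 164092) (nat_lit 82) (.e (nat_lit 500046) (nat_lit 16) (.e (nat_lit 16463) (nat_lit 13) (.e (nat_lit 483333) (nat_lit 0) (.e (nat_lit 7106) (nat_lit 380) (.e (nat_lit 164293) (nat_lit 224) .nil)))))) (.g (nat_lit 1) (.e (nat_lit 177483) (nat_lit 0) .nil) .nil))) 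
(.lf (nat_lit 504649) (.g (nat_lit 565) (.e (nat_lit 164183) (nat_lit 154) (.e (nat_lit 57409) (nat_lit 12) (.e (nat_lit 336315) (nat_lit 17) .nil))) (.g (nat_lit 0) (.e (nat_lit 178966) (nat_lit 0) .nil) .nil))))) (.nd (nat_lit 8) (.nd (nat_lit 9) 
(.lf (nat_lit 504009) (.g (nat_lit 1709) (.e (nat_lit 164020) (nat_lit 45) (.e (nat_lit 696344) (nat_lit 8) (.e (nat_lit 172067) (nat_lit 3) (.e (nat_lit 204878) (nat_lit 31) .nil)))) (.g (nat_lit 0) (.e (nat_lit 177306) (nat_lit 0) .nil) .nil))) 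
(.lf (nat_lit 504521) (.g (nat_lit 2002) (.e (nat_lit 164180) (nat_lit 154) (.e (nat_lit 57378) (nat_lit 3) (.e (nat_lit 98342) (nat_lit 20) (.e (nat_lit 221212) (nat_lit 22) (.e (nat_lit 196681) (nat_lit 17) .nil))))) (.g (nat_lit 0) (.e (nat_lit 178798) (nat_lit 0) .nil) .nil)))) (.nd (nat_lit 9) 
(.lf (nat_lit 504265) (.g (nat_lit 1254) (.e (nat_lit 164112) (nat_lit 118) (.e (nat_lit 794637) (nat_lit 11) (.e (nat_lit 336087) (nat_lit 9) (.e (nat_lit 336421) (nat_lit 28) (.e (nat_lit 434197) (nat_lit 16) .nil))))) (.g (nat_lit 0) (.e (nat_lit 177782) (nat_lit 0) .nil) .nil))) 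
(.lf (nat_lit 504777) (.g (nat_lit 2806) (.e (nat_lit 164208) (nat_lit 176) (.e (nat_lit 2810) (nat_lit 180) (.e (nat_lit 303117) (nat_lit 2) (.e (nat_lit 196673) (nat_lit 15) (.e (nat_lit 81953) (nat_lit 22) (.e (nat_lit 90165) (nat_lit 12) .nil)))))) (.g (nat_lit 1) (.e (nat_lit 179183) (nat_lit 0) .nil) .nil))))))) (.nd (nat_lit 6) (.nd (nat_lit 7) (.nd (nat_lit 8) (.nd (nat_lit 9) 
(.lf (nat_lit 503849) (.g (nat_lit 1512) (.e (nat_lit 164050) (nat_lit 55) (.e (nat_lit 778464) (nat_lit 11) (.e (nat_lit 24625) (nat_lit 9) (.e (nat_lit 336443) (nat_lit 32) .nil)))) (.g (nat_lit 0) (.e (nat_lit 176971) (nat_lit 0) .nil) .nil))) 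
(.lf (nat_lit 504361) (.g (nat_lit 2538) (.e (nat_lit 164177) (nat_lit 154) (.e (nat_lit 57407) (nat_lit 12) (.e (nat_lit 336454) (nat_lit 34) (.e (nat_lit 483378) (nat_lit 23) .nil)))) (.g (nat_lit 0) (.e (nat_lit 178603) (nat_lit 0) .nil) .nil)))) (.nd (nat_lit 9) 
(.lf (nat_lit 504105) (.g (nat_lit 1463) (.e (nat_lit 171776) (nat_lit 64) (.e (nat_lit 98379) (nat_lit 31) (.e (nat_lit 466974) (nat_lit 22) (.e (nat_lit 196681) (nat_lit 17) (.e (nat_lit 131086) (nat_lit 1) .nil))))) (.g (nat_lit 0) (.e (nat_lit 177443) (nat_lit 0) .nil) .nil))) 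
(.lf (nat_lit 504617) (.g (nat_lit 734) (.e (nat_lit 164183) (nat_lit 154) (.e (nat_lit 57375) (nat_lit 2) (.e (nat_lit 90181) (nat_lit 16) .nil))) (.g (nat_lit 0) (.e (nat_lit 178924) (nat_lit 0) .nil) .nil))))) (.nd (nat_lit 8) (.nd (nat_lit 9) 
(.lf (nat_lit 503977) (.g (nat_lit 1747) (.e (nat_lit 164020) (nat_lit 45) (.e (nat_lit 696343) (nat_lit 8) (.e (nat_lit 172079) (nat_lit 7) (.e (nat_lit 409645) (nat_lit 18) (.e (nat_lit 303140) (nat_lit 10) (.e (nat_lit 434275) (nat_lit 39) (.e (nat_lit 663584) (nat_lit 12) .nil))))))) (.g (nat_lit 1) (.e (nat_lit 177274) (nat_lit 0) .nil) .nil))) 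
(.lf (nat_lit 504489) (.g (nat_lit 1847) (.e (nat_lit 164179) (nat_lit 154) (.e (nat_lit 57407) (nat_lit 12) (.e (nat_lit 336456) (nat_lit 34) (.e (nat_lit 483397) (nat_lit 25) .nil)))) (.g (nat_lit 0) (.e (nat_lit 178756) (nat_lit 0) .nil) .nil)))) (.nd (nat_lit 9) 
(.lf (nat_lit 504233) (.g (nat_lit 985) (.e (nat_lit 164112) (nat_lit 118) (.e (nat_lit 794635) (nat_lit 11) (.e (nat_lit 336152) (nat_lit 9) (.e (nat_lit 336437) (nat_lit 31) (.e (nat_lit 458769) (nat_lit 16) (.e (nat_lit 164288) (nat_lit 224) .nil)))))) (.g (nat_lit 1) (.e (nat_lit 177750) (nat_lit 0) .nil) .nil))) 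
(.lf (nat_lit 504745) (.g (nat_lit 1886) (.e (nat_lit 164207) (nat_lit 176) (.e (nat_lit 2798) (nat_lit 180) (.e (nat_lit 303119) (nat_lit 3) (.e (nat_lit 204878) (nat_lit 31) (.e (nat_lit 376864) (nat_lit 22) .nil))))) (.g (nat_lit 0) (.e (nat_lit 179135) (nat_lit 0) .nil) .nil)))))) (.nd (nat_lit 7) (.nd (nat_lit 8) (.nd (nat_lit 9) 
(.lf (nat_lit 503913) (.g (nat_lit 4426) (.e (nat_lit 164018) (nat_lit 45) (.e (nat_lit 696344) (nat_lit 8) (.e (nat_lit 172067) (nat_lit 3) (.e (nat_lit 204869) (nat_lit 29) (.e (nat_lit 360474) (nat_lit 8) (.e (nat_lit 557088) (nat_lit 12) .nil)))))) (.g (nat_lit 1) (.e (nat_lit 177196) (nat_lit 0) .nil) .nil))) 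
(.lf (nat_lit 504425) (.g (nat_lit 1376) (.e (nat_lit 164179) (nat_lit 154) (.e (nat_lit 57375) (nat_lit 2) (.e (nat_lit 90128) (nat_lit 9) (.e (nat_lit 2706) (nat_lit 170) .nil)))) (.g (nat_lit 0) (.e (nat_lit 178679) (nat_lit 0) .nil) .nil)))) (.nd (nat_lit 9) 
(.lf (nat_lit 504169) (.g (nat_lit 2302) (.e (nat_lit 164096) (nat_lit 86) (.e (nat_lit 532583) (nat_lit 26) (.e (nat_lit 426188) (nat_lit 9) (.e (nat_lit 426562) (nat_lit 33) (.e (nat_lit 385041) (nat_lit 19) (.e (nat_lit 164289) (nat_lit 224) .nil)))))) (.g (nat_lit 1) (.e (nat_lit 177567) (nat_lit 0) .nil) .nil))) 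
(.lf (nat_lit 504681) (.g (nat_lit 1381) (.e (nat_lit 164183) (nat_lit 154) (.e (nat_lit 57411) (nat_lit 12) (.e (nat_lit 336324) (nat_lit 18) (.e (nat_lit 204855) (nat_lit 26) .nil)))) (.g (nat_lit 0) (.e (nat_lit 179011) (nat_lit 0) .nil) .nil))))) (.nd (nat_lit 8) (.nd (nat_lit 9) 
(.lf (nat_lit 504041) (.g (nat_lit 1872) (.e (nat_lit 164022) (nat_lit 46) (.e (nat_lit 704736) (nat_lit 11) (.e (nat_lit 16412) (nat_lit 2) (.e (nat_lit 196672) (nat_lit 15) (.e (nat_lit 81942) (nat_lit 20) .nil))))) (.g (nat_lit 0) (.e (nat_lit 177350) (nat_lit 0) .nil) .nil))) 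
(.lf (nat_lit 504553) (.g (nat_lit 3588) (.e (nat_lit 164182) (nat_lit 154) (.e (nat_lit 57378) (nat_lit 3) (.e (nat_lit 98341) (nat_lit 20) (.e (nat_lit 221215) (nat_lit 23) (.e (nat_lit 204861) (nat_lit 26) (.e (nat_lit 336021) (nat_lit 3) (.e (nat_lit 98333) (nat_lit 18) .nil))))))) (.g (nat_lit 1) (.e (nat_lit 178840) (nat_lit 0) .nil) .nil)))) (.nd (nat_lit 9) 
(.lf (nat_lit 504297) (.g (nat_lit 3199) (.e (nat_lit 164190) (nat_lit 157) (.e (nat_lit 229399) (nat_lit 12) (.e (nat_lit 426125) (nat_lit 2) (.e (nat_lit 196666) (nat_lit 13) (.e (nat_lit 65610) (nat_lit 10) (.e (nat_lit 344129) (nat_lit 26) (.e (nat_lit 557067) (nat_lit 9) (.e (nat_lit 2606) (nat_lit 163) .nil)))))))) (.g (nat_lit 1) (.e (nat_lit 178385) (nat_lit 0) .nil) .nil))) 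
(.lf (nat_lit 504809) (.g (nat_lit 1672) (.e (nat_lit 164209) (nat_lit 176) (.e (nat_lit 2797) (nat_lit 180) (.e (nat_lit 303119) (nat_lit 3) (.e (nat_lit 204870) (nat_lit 29) .nil)))) (.g (nat_lit 0) (.e (nat_lit 179245) (nat_lit 0) .nil) .nil)))))))) (.nd (nat_lit 5) (.nd (nat_lit 6) (.nd (nat_lit 7) (.nd (nat_lit 8) (.nd (nat_lit 9) 
(.lf (nat_lit 503833) (.g (nat_lit 2309) (.e (nat_lit 164043) (nat_lit 55) (.e (nat_lit 778460) (nat_lit 11) (.e (nat_lit 24617) (nat_lit 7) (.e (nat_lit 319533) (nat_lit 16) (.e (nat_lit 286753) (nat_lit 10) .nil))))) (.g (nat_lit 0) (.e (nat_lit 176947) (nat_lit 0) .nil) .nil))) 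
(.lf (nat_lit 504345) (.g (nat_lit 1921) (.e (nat_lit 164177) (nat_lit 154) (.e (nat_lit 57379) (nat_lit 3) (.e (nat_lit 98342) (nat_lit 20) (.e (nat_lit 221212) (nat_lit 22) (.e (nat_lit 196681) (nat_lit 17) .nil))))) (.g (nat_lit 0) (.e (nat_lit 178584) (nat_lit 0) .nil) .nil)))) (.nd (nat_lit 9) 
(.lf (nat_lit 504089) (.g (nat_lit 2140) (.e (nat_lit 171776) (nat_lit 63) (.e (nat_lit 90176) (nat_lit 15) (.e (nat_lit 188450) (nat_lit 23) (.e (nat_lit 204861) (nat_lit 26) (.e (nat_lit 335987) (nat_lit 1) .nil))))) (.g (nat_lit 0) (.e (nat_lit 177427) (nat_lit 0) .nil) .nil))) 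
(.lf (nat_lit 504601) (.g (nat_lit 1582) (.e (nat_lit 164182) (nat_lit 154) (.e (nat_lit 57417) (nat_lit 12) (.e (nat_lit 336323) (nat_lit 18) (.e (nat_lit 204854) (nat_lit 26) (.e (nat_lit 336211) (nat_lit 13) .nil))))) (.g (nat_lit 0) (.e (nat_lit 178902) (nat_lit 0) .nil) .nil))))) (.nd (nat_lit 8) (.nd (nat_lit 9) 
(.lf (nat_lit 503961) (.g (nat_lit 5052) (.e (nat_lit 164020) (nat_lit 45) (.e (nat_lit 696330) (nat_lit 5) (.e (nat_lit 2884) (nat_lit 184) (.e (nat_lit 426125) (nat_lit 2) (.e (nat_lit 196666) (nat_lit 13) (.e (nat_lit 65617) (nat_lit 10) (.e (nat_lit 344130) (nat_lit 26) (.e (nat_lit 557090) (nat_lit 12) .nil)))))))) (.g (nat_lit 1) (.e (nat_lit 177246) (nat_lit 0) .nil) .nil))) 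
(.lf (nat_lit 504473) (.g (nat_lit 1734) (.e (nat_lit 164179) (nat_lit 154) (.e (nat_lit 57407) (nat_lit 12) (.e (nat_lit 336316) (nat_lit 17) (.e (nat_lit 196674) (nat_lit 15) (.e (nat_lit 81926) (nat_lit 11) .nil))))) (.g (nat_lit 0) (.e (nat_lit 178737) (nat_lit 0) .nil) .nil)))) (.nd (nat_lit 9) 
(.lf (nat_lit 504217) (.g (nat_lit 1888) (.e (nat_lit 171776) (nat_lit 85) (.e (nat_lit 524322) (nat_lit 12) (.e (nat_lit 450588) (nat_lit 10) (.e (nat_lit 573470) (nat_lit 11) (.e (nat_lit 16396) (nat_lit 0) .nil))))) (.g (nat_lit 0) (.e (nat_lit 177662) (nat_lit 0) .nil) .nil))) 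
(.lf (nat_lit 504729) (.g (nat_lit 2721) (.e (nat_lit 164207) (nat_lit 176) (.e (nat_lit 2797) (nat_lit 180) (.e (nat_lit 303119) (nat_lit 3) (.e (nat_lit 204858) (nat_lit 26) (.e (nat_lit 336101) (nat_lit 9) .nil))))) (.g (nat_lit 0) (.e (nat_lit 179103) (nat_lit 0) .nil) .nil)))))) (.nd (nat_lit 7) (.nd (nat_lit 8) (.nd (nat_lit 9) 
(.lf (nat_lit 503897) (.g (nat_lit 3905) (.e (nat_lit 164018) (nat_lit 45) (.e (nat_lit 696343) (nat_lit 8) (.e (nat_lit 172067) (nat_lit 3) (.e (nat_lit 204869) (nat_lit 29) (.e (nat_lit 360474) (nat_lit 8) (.e (nat_lit 557093) (nat_lit 12) .nil)))))) (.g (nat_lit 1) (.e (nat_lit 177173) (nat_lit 0) .nil) .nil))) 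
(.lf (nat_lit 504409) (.g (nat_lit 1164) (.e (nat_lit 164178) (nat_lit 154) (.e (nat_lit 57411) (nat_lit 12) (.e (nat_lit 336316) (nat_lit 17) .nil))) (.g (nat_lit 0) (.e (nat_lit 178658) (nat_lit 0) .nil) .nil)))) (.nd (nat_lit 9) 
(.lf (nat_lit 504153) (.g (nat_lit 2345) (.e (nat_lit 164092) (nat_lit 82) (.e (nat_lit 500046) (nat_lit 16) (.e (nat_lit 16466) (nat_lit 13) (.e (nat_lit 483333) (nat_lit 0) (.e (nat_lit 7106) (nat_lit 380) (.e (nat_lit 164293) (nat_lit 224) .nil)))))) (.g (nat_lit 1) (.e (nat_lit 177500) (nat_lit 0) .nil) .nil))) 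
(.lf (nat_lit 504665) (.g (nat_lit 1796) (.e (nat_lit 164183) (nat_lit 154) (.e (nat_lit 57409) (nat_lit 12) (.e (nat_lit 336454) (nat_lit 34) (.e (nat_lit 483396) (nat_lit 24) (.e (nat_lit 344119) (nat_lit 21) .nil))))) (.g (nat_lit 0) (.e (nat_lit 178986) (nat_lit 0) .nil) .nil))))) (.nd (nat_lit 8) (.nd (nat_lit 9) 
(.lf (nat_lit 504025) (.g (nat_lit 3981) (.e (nat_lit 164022) (nat_lit 46) (.e (nat_lit 704629) (nat_lit 9) (.e (nat_lit 375) (nat_lit 32) (.e (nat_lit 426113) (nat_lit 2) (.e (nat_lit 196666) (nat_lit 13) (.e (nat_lit 65617) (nat_lit 10) (.e (nat_lit 344130) (nat_lit 26) (.e (nat_lit 557090) (nat_lit 12) .nil)))))))) (.g (nat_lit 1) (.e (nat_lit 177331) (nat_lit 0) .nil) .nil))) 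
(.lf (nat_lit 504537) (.g (nat_lit 513) (.e (nat_lit 164181) (nat_lit 154) (.e (nat_lit 57411) (nat_lit 12) (.e (nat_lit 336456) (nat_lit 34) .nil))) (.g (nat_lit 0) (.e (nat_lit 178818) (nat_lit 0) .nil) .nil)))) (.nd (nat_lit 9) 
(.lf (nat_lit 504281) (.g (nat_lit 483) (.e (nat_lit 164147) (nat_lit 152) (.e (nat_lit 1190) (nat_lit 88) (.e (nat_lit 73472) (nat_lit 34) .nil))) (.g (nat_lit 0) (.e (nat_lit 177869) (nat_lit 0) .nil) .nil))) 
(.lf (nat_lit 504793) (.g (nat_lit 2903) (.e (nat_lit 164209) (nat_lit 176) (.e (nat_lit 2797) (nat_lit 180) (.e (nat_lit 303117) (nat_lit 2) (.e (nat_lit 196666) (nat_lit 13) (.e (nat_lit 65599) (nat_lit 9) .nil))))) (.g (nat_lit 0) (.e (nat_lit 179215) (nat_lit 0) .nil) .nil))))))) (.nd (nat_lit 6) (.nd (nat_lit 7) (.nd (nat_lit 8) (.nd (nat_lit 9) 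
(.lf (nat_lit 503865) (.g (nat_lit 4030) (.e (nat_lit 164016) (nat_lit 44) (.e (nat_lit 688138) (nat_lit 5) (.e (nat_lit 2887) (nat_lit 184) (.e (nat_lit 426140) (nat_lit 3) (.e (nat_lit 204869) (nat_lit 29) (.e (nat_lit 360475) (nat_lit 8) (.e (nat_lit 557091) (nat_lit 12) .nil))))))) (.g (nat_lit 1) (.e (nat_lit 177096) (nat_lit 0) .nil) .nil))) 
(.lf (nat_lit 504377) (.g (nat_lit 2460) (.e (nat_lit 164178) (nat_lit 154) (.e (nat_lit 57377) (nat_lit 3) (.e (nat_lit 98342) (nat_lit 20) (.e (nat_lit 221210) (nat_lit 22) (.e (nat_lit 196668) (nat_lit 14) .nil))))) (.g (nat_lit 0) (.e (nat_lit 178621) (nat_lit 0) .nil) .nil)))) (.nd (nat_lit 9) 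
(.lf (nat_lit 504121) (.g (nat_lit 2976) (.e (nat_lit 171776) (nat_lit 66) (.e (nat_lit 114698) (nat_lit 11) (.e (nat_lit 426316) (nat_lit 12) (.e (nat_lit 475214) (nat_lit 42) (.e (nat_lit 720955) (nat_lit 25) .nil))))) (.g (nat_lit 0) (.e (nat_lit 177459) (nat_lit 0) .nil) .nil))) 
(.lf (nat_lit 504633) (.g (nat_lit 2760) (.e (nat_lit 164183) (nat_lit 154) (.e (nat_lit 57379) (nat_lit 3) (.e (nat_lit 98334) (nat_lit 18) (.e (nat_lit 164305) (nat_lit 226) (.e (nat_lit 2725) (nat_lit 172) (.e (nat_lit 237594) (nat_lit 3) (.e (nat_lit 204852) (nat_lit 26) (.e (nat_lit 336310) (nat_lit 16) .nil)))))))) (.g (nat_lit 1) (.e (nat_lit 178949) (nat_lit 0) .nil) .nil))))) 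
(.nd (nat_lit 8) (.nd (nat_lit 9) 
(.lf (nat_lit 503993) (.g (nat_lit 3691) (.e (nat_lit 164020) (nat_lit 45) (.e (nat_lit 696344) (nat_lit 8) (.e (nat_lit 172065) (nat_lit 3) (.e (nat_lit 204870) (nat_lit 29) (.e (nat_lit 360473) (nat_lit 8) (.e (nat_lit 557090) (nat_lit 12) .nil)))))) (.g (nat_lit 1) (.e (nat_lit 177290) (nat_lit 0) .nil) .nil))) 
(.lf (nat_lit 504505) (.g (nat_lit 2394) (.e (nat_lit 164179) (nat_lit 154) (.e (nat_lit 57411) (nat_lit 12) (.e (nat_lit 336316) (nat_lit 17) (.e (nat_lit 196666) (nat_lit 13) (.e (nat_lit 65626) (nat_lit 13) .nil))))) (.g (nat_lit 0) (.e (nat_lit 178777) (nat_lit 0) .nil) .nil)))) (.nd (nat_lit 9) 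
(.lf (nat_lit 504249) (.g (nat_lit 1042) (.e (nat_lit 164112) (nat_lit 118) (.e (nat_lit 794637) (nat_lit 11) (.e (nat_lit 336074) (nat_lit 9) (.e (nat_lit 336438) (nat_lit 31) (.e (nat_lit 458769) (nat_lit 16) (.e (nat_lit 164291) (nat_lit 224) .nil)))))) (.g (nat_lit 1) (.e (nat_lit 177766) (nat_lit 0) .nil) .nil))) 
(.lf (nat_lit 504761) (.g (nat_lit 2685) (.e (nat_lit 164207) (nat_lit 176) (.e (nat_lit 2810) (nat_lit 180) (.e (nat_lit 303119) (nat_lit 3) (.e (nat_lit 204855) (nat_lit 26) (.e (nat_lit 336073) (nat_lit 9) .nil))))) (.g (nat_lit 0) (.e (nat_lit 179158) (nat_lit 0) .nil) .nil)))))) (.nd (nat_lit 7) (.nd (nat_lit 8) (.nd (nat_lit 9) 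
(.lf (nat_lit 503929) (.g (nat_lit 3378) (.e (nat_lit 164018) (nat_lit 45) (.e (nat_lit 696345) (nat_lit 9) (.e (nat_lit 180244) (nat_lit 5) (.e (nat_lit 532550) (nat_lit 12) (.e (nat_lit 360474) (nat_lit 8) (.e (nat_lit 557094) (nat_lit 12) .nil)))))) (.g (nat_lit 1) (.e (nat_lit 177212) (nat_lit 0) .nil) .nil))) 
(.lf (nat_lit 504441) (.g (nat_lit 637) (.e (nat_lit 164179) (nat_lit 154) (.e (nat_lit 57378) (nat_lit 3) (.e (nat_lit 98341) (nat_lit 20) .nil))) (.g (nat_lit 0) (.e (nat_lit 178697) (nat_lit 0) .nil) .nil)))) (.nd (nat_lit 9) 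
(.lf (nat_lit 504185) (.g (nat_lit 1605) (.e (nat_lit 164096) (nat_lit 86) (.e (nat_lit 532583) (nat_lit 26) (.e (nat_lit 426196) (nat_lit 9) (.e (nat_lit 426562) (nat_lit 33) (.e (nat_lit 385041) (nat_lit 19) (.e (nat_lit 164289) (nat_lit 224) .nil)))))) (.g (nat_lit 1) (.e (nat_lit 177583) (nat_lit 0) .nil) .nil))) 
(.lf (nat_lit 504697) (.g (nat_lit 1428) (.e (nat_lit 171776) (nat_lit 154) (.e (nat_lit 57406) (nat_lit 12) (.e (nat_lit 336367) (nat_lit 27) (.e (nat_lit 426542) (nat_lit 29) (.e (nat_lit 352313) (nat_lit 23) .nil))))) (.g (nat_lit 0) (.e (nat_lit 179037) (nat_lit 0) .nil) .nil))))) (.nd (nat_lit 8) (.nd (nat_lit 9) 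
(.lf (nat_lit 504057) (.g (nat_lit 1806) (.e (nat_lit 164023) (nat_lit 46) (.e (nat_lit 704629) (nat_lit 9) (.e (nat_lit 452) (nat_lit 33) (.e (nat_lit 434219) (nat_lit 19) (.e (nat_lit 499981) (nat_lit 14) .nil))))) (.g (nat_lit 0) (.e (nat_lit 177378) (nat_lit 0) .nil) .nil))) 
(.lf (nat_lit 504569) (.g (nat_lit 2030) (.e (nat_lit 164182) (nat_lit 154) (.e (nat_lit 57379) (nat_lit 3) (.e (nat_lit 98342) (nat_lit 20) (.e (nat_lit 221212) (nat_lit 22) (.e (nat_lit 196669) (nat_lit 14) .nil))))) (.g (nat_lit 0) (.e (nat_lit 178859) (nat_lit 0) .nil) .nil)))) (.nd (nat_lit 9) 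
(.lf (nat_lit 504313) (.g (nat_lit 1944) (.e (nat_lit 164176) (nat_lit 154) (.e (nat_lit 57379) (nat_lit 3) (.e (nat_lit 98342) (nat_lit 20) (.e (nat_lit 221212) (nat_lit 22) (.e (nat_lit 196681) (nat_lit 17) .nil))))) (.g (nat_lit 0) (.e (nat_lit 178543) (nat_lit 0) .nil) .nil))) 
(.lf (nat_lit 504825) (.g (nat_lit 1413) (.e (nat_lit 164210) (nat_lit 176) (.e (nat_lit 2798) (nat_lit 180) (.e (nat_lit 303117) (nat_lit 2) (.e (nat_lit 196665) (nat_lit 13) .nil)))) (.g (nat_lit 0) (.e (nat_lit 179292) (nat_lit 0) .nil) .nil)))))))))) (.nd (nat_lit 3) (.nd (nat_lit 4) (.nd (nat_lit 5) (.nd (nat_lit 6) (.nd (nat_lit 7) (.nd (nat_lit 8) (.nd (nat_lit 9) 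
(.lf (nat_lit 503813) (.g (nat_lit 3779) (.e (nat_lit 164000) (nat_lit 38) (.e (nat_lit 639020) (nat_lit 16) (.e (nat_lit 65571) (nat_lit 3) (.e (nat_lit 98370) (nat_lit 28) (.e (nat_lit 442424) (nat_lit 22) (.e (nat_lit 204544) (nat_lit 3) .nil)))))) (.g (nat_lit 1) (.e (nat_lit 176412) (nat_lit 0) .nil) .nil))) 
(.lf (nat_lit 504325) (.g (nat_lit 1739) (.e (nat_lit 164176) (nat_lit 154) (.e (nat_lit 57411) (nat_lit 12) (.e (nat_lit 336326) (nat_lit 18) (.e (nat_lit 204876) (nat_lit 31) .nil)))) (.g (nat_lit 0) (.e (nat_lit 178556) (nat_lit 0) .nil) .nil)))) (.nd (nat_lit 9) 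
(.lf (nat_lit 504069) (.g (nat_lit 2790) (.e (nat_lit 164023) (nat_lit 46) (.e (nat_lit 704738) (nat_lit 11) (.e (nat_lit 16412) (nat_lit 2) (.e (nat_lit 196681) (nat_lit 17) (.e (nat_lit 131117) (nat_lit 10) .nil))))) (.g (nat_lit 0) (.e (nat_lit 177395) (nat_lit 0) .nil) .nil))) 
(.lf (nat_lit 504581) (.g (nat_lit 1939) (.e (nat_lit 164182) (nat_lit 154) (.e (nat_lit 57411) (nat_lit 12) (.e (nat_lit 336316) (nat_lit 17) (.e (nat_lit 196672) (nat_lit 15) (.e (nat_lit 81925) (nat_lit 11) .nil))))) (.g (nat_lit 0) (.e (nat_lit 178878) (nat_lit 0) .nil) .nil))))) (.nd (nat_lit 8) (.nd (nat_lit 9) 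
(.lf (nat_lit 503941) (.g (nat_lit 2110) (.e (nat_lit 164019) (nat_lit 45) (.e (nat_lit 696344) (nat_lit 8) (.e (nat_lit 172067) (nat_lit 3) (.e (nat_lit 204870) (nat_lit 29) .nil)))) (.g (nat_lit 0) (.e (nat_lit 177226) (nat_lit 0) .nil) .nil))) 
(.lf (nat_lit 504453) (.g (nat_lit 2704) (.e (nat_lit 164179) (nat_lit 154) (.e (nat_lit 57406) (nat_lit 12) (.e (nat_lit 336454) (nat_lit 34) (.e (nat_lit 483380) (nat_lit 23) (.e (nat_lit 336019) (nat_lit 3) .nil))))) (.g (nat_lit 0) (.e (nat_lit 178713) (nat_lit 0) .nil) .nil)))) (.nd (nat_lit 9) 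
(.lf (nat_lit 504197) (.g (nat_lit 2028) (.e (nat_lit 164096) (nat_lit 86) (.e (nat_lit 532583) (nat_lit 26) (.e (nat_lit 426198) (nat_lit 9) (.e (nat_lit 426562) (nat_lit 33) (.e (nat_lit 385041) (nat_lit 19) (.e (nat_lit 164287) (nat_lit 224) .nil)))))) (.g (nat_lit 1) (.e (nat_lit 177595) (nat_lit 0) .nil) .nil))) 
(.lf (nat_lit 504709) (.g (nat_lit 2673) (.e (nat_lit 171776) (nat_lit 160) (.e (nat_lit 57375) (nat_lit 2) (.e (nat_lit 90174) (nat_lit 14) (.e (nat_lit 180250) (nat_lit 10) (.e (nat_lit 573487) (nat_lit 14) .nil))))) (.g (nat_lit 0) (.e (nat_lit 179067) (nat_lit 0) .nil) .nil)))))) (.nd (nat_lit 7) (.nd (nat_lit 8) (.nd (nat_lit 9) 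
(.lf (nat_lit 503877) (.g (nat_lit 182) (.e (nat_lit 164017) (nat_lit 44) (.e (nat_lit 688138) (nat_lit 5) (.e (nat_lit 3085) (nat_lit 191) .nil))) (.g (nat_lit 0) (.e (nat_lit 177130) (nat_lit 0) .nil) .nil))) 
(.lf (nat_lit 504389) (.g (nat_lit 3012) (.e (nat_lit 164178) (nat_lit 154) (.e (nat_lit 57406) (nat_lit 12) (.e (nat_lit 336454) (nat_lit 34) (.e (nat_lit 483398) (nat_lit 25) .nil)))) (.g (nat_lit 0) (.e (nat_lit 178635) (nat_lit 0) .nil) .nil)))) (.nd (nat_lit 9) 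
(.lf (nat_lit 504133) (.g (nat_lit 1462) (.e (nat_lit 164092) (nat_lit 82) (.e (nat_lit 500046) (nat_lit 16) (.e (nat_lit 16463) (nat_lit 13) (.e (nat_lit 483333) (nat_lit 0) (.e (nat_lit 7105) (nat_lit 380) (.e (nat_lit 164284) (nat_lit 224) .nil)))))) (.g (nat_lit 1) (.e (nat_lit 177479) (nat_lit 0) .nil) .nil))) 
(.lf (nat_lit 504645) (.g (nat_lit 1996) (.e (nat_lit 164183) (nat_lit 154) (.e (nat_lit 57379) (nat_lit 3) (.e (nat_lit 98342) (nat_lit 20) (.e (nat_lit 221214) (nat_lit 23) (.e (nat_lit 204859) (nat_lit 26) .nil))))) (.g (nat_lit 0) (.e (nat_lit 178962) (nat_lit 0) .nil) .nil))))) (.nd (nat_lit 8) (.nd (nat_lit 9) 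
(.lf (nat_lit 504005) (.g (nat_lit 4542) (.e (nat_lit 164020) (nat_lit 45) (.e (nat_lit 696344) (nat_lit 8) (.e (nat_lit 172067) (nat_lit 3) (.e (nat_lit 204869) (nat_lit 29) (.e (nat_lit 360475) (nat_lit 8) (.e (nat_lit 557089) (nat_lit 12) .nil)))))) (.g (nat_lit 1) (.e (nat_lit 177302) (nat_lit 0) .nil) .nil))) 
(.lf (nat_lit 504517) (.g (nat_lit 628) (.e (nat_lit 164179) (nat_lit 154) (.e (nat_lit 57427) (nat_lit 15) (.e (nat_lit 360450) (nat_lit 0) .nil))) (.g (nat_lit 0) (.e (nat_lit 178793) (nat_lit 0) .nil) .nil)))) (.nd (nat_lit 9) 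
(.lf (nat_lit 504261) (.g (nat_lit 1715) (.e (nat_lit 164112) (nat_lit 118) (.e (nat_lit 794637) (nat_lit 11) (.e (nat_lit 336078) (nat_lit 9) (.e (nat_lit 336438) (nat_lit 31) (.e (nat_lit 458769) (nat_lit 16) (.e (nat_lit 164288) (nat_lit 224) .nil)))))) (.g (nat_lit 1) (.e (nat_lit 177778) (nat_lit 0) .nil) .nil))) 
(.lf (nat_lit 504773) (.g (nat_lit 2074) (.e (nat_lit 164207) (nat_lit 176) (.e (nat_lit 1374) (nat_lit 104) (.e (nat_lit 303119) (nat_lit 3) (.e (nat_lit 204846) (nat_lit 24) (.e (nat_lit 319532) (nat_lit 16) .nil))))) (.g (nat_lit 0) (.e (nat_lit 179178) (nat_lit 0) .nil) .nil))))))) (.nd (nat_lit 6) (.nd (nat_lit 7) (.nd (nat_lit 8) (.nd (nat_lit 9) 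
(.lf (nat_lit 503845) (.g (nat_lit 3649) (.e (nat_lit 164049) (nat_lit 55) (.e (nat_lit 778466) (nat_lit 11) (.e (nat_lit 24617) (nat_lit 7) (.e (nat_lit 319534) (nat_lit 16) (.e (nat_lit 286756) (nat_lit 10) (.e (nat_lit 344168) (nat_lit 40) (.e (nat_lit 671782) (nat_lit 12) .nil))))))) (.g (nat_lit 1) (.e (nat_lit 176966) (nat_lit 0) .nil) .nil))) 
(.lf (nat_lit 504357) (.g (nat_lit 1812) (.e (nat_lit 164177) (nat_lit 154) (.e (nat_lit 57406) (nat_lit 12) (.e (nat_lit 336456) (nat_lit 34) (.e (nat_lit 483394) (nat_lit 24) (.e (nat_lit 344119) (nat_lit 21) .nil))))) (.g (nat_lit 0) (.e (nat_lit 178597) (nat_lit 0) .nil) .nil)))) (.nd (nat_lit 9) 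
(.lf (nat_lit 504101) (.g (nat_lit 2222) (.e (nat_lit 171776) (nat_lit 64) (.e (nat_lit 98372) (nat_lit 29) (.e (nat_lit 450579) (nat_lit 5) (.e (nat_lit 532534) (nat_lit 9) (.e (nat_lit 336000) (nat_lit 1) .nil))))) (.g (nat_lit 0) (.e (nat_lit 177439) (nat_lit 0) .nil) .nil))) 
(.lf (nat_lit 504613) (.g (nat_lit 1232) (.e (nat_lit 164183) (nat_lit 154) (.e (nat_lit 57375) (nat_lit 2) (.e (nat_lit 90128) (nat_lit 9) (.e (nat_lit 2706) (nat_lit 170) .nil)))) (.g (nat_lit 0) (.e (nat_lit 178917) (nat_lit 0) .nil) .nil))))) (.nd (nat_lit 8) (.nd (nat_lit 9) 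
(.lf (nat_lit 503973) (.g (nat_lit 5201) (.e (nat_lit 164020) (nat_lit 45) (.e (nat_lit 696343) (nat_lit 8) (.e (nat_lit 172067) (nat_lit 3) (.e (nat_lit 204869) (nat_lit 29) (.e (nat_lit 360474) (nat_lit 8) (.e (nat_lit 557091) (nat_lit 12) .nil)))))) (.g (nat_lit 1) (.e (nat_lit 177270) (nat_lit 0) .nil) .nil))) 
(.lf (nat_lit 504485) (.g (nat_lit 1915) (.e (nat_lit 164179) (nat_lit 154) (.e (nat_lit 57407) (nat_lit 12) (.e (nat_lit 336454) (nat_lit 34) (.e (nat_lit 483400) (nat_lit 25) (.e (nat_lit 368676) (nat_lit 21) .nil))))) (.g (nat_lit 0) (.e (nat_lit 178752) (nat_lit 0) .nil) .nil)))) (.nd (nat_lit 9) 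
(.lf (nat_lit 504229) (.g (nat_lit 1011) (.e (nat_lit 164112) (nat_lit 118) (.e (nat_lit 794635) (nat_lit 11) (.e (nat_lit 336121) (nat_lit 9) (.e (nat_lit 336437) (nat_lit 31) (.e (nat_lit 458769) (nat_lit 16) (.e (nat_lit 164288) (nat_lit 224) .nil)))))) (.g (nat_lit 1) (.e (nat_lit 177746) (nat_lit 0) .nil) .nil))) 
(.lf (nat_lit 504741) (.g (nat_lit 1583) (.e (nat_lit 164207) (nat_lit 176) (.e (nat_lit 2798) (nat_lit 180) (.e (nat_lit 303119) (nat_lit 3) (.e (nat_lit 204867) (nat_lit 28) .nil)))) (.g (nat_lit 0) (.e (nat_lit 179129) (nat_lit 0) .nil) .nil)))))) (.nd (nat_lit 7) (.nd (nat_lit 8) (.nd (nat_lit 9) 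
(.lf (nat_lit 503909) (.g (nat_lit 4089) (.e (nat_lit 164018) (nat_lit 45) (.e (nat_lit 696344) (nat_lit 8) (.e (nat_lit 172065) (nat_lit 3) (.e (nat_lit 204869) (nat_lit 29) (.e (nat_lit 360474) (nat_lit 8) (.e (nat_lit 557088) (nat_lit 12) .nil)))))) (.g (nat_lit 1) (.e (nat_lit 177192) (nat_lit 0) .nil) .nil))) 
(.lf (nat_lit 504421) (.g (nat_lit 1423) (.e (nat_lit 164179) (nat_lit 154) (.e (nat_lit 57373) (nat_lit 2) (.e (nat_lit 90128) (nat_lit 9) (.e (nat_lit 2706) (nat_lit 170) .nil)))) (.g (nat_lit 0) (.e (nat_lit 178674) (nat_lit 0) .nil) .nil)))) (.nd (nat_lit 9) 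
(.lf (nat_lit 504165) (.g (nat_lit 1561) (.e (nat_lit 164096) (nat_lit 86) (.e (nat_lit 532583) (nat_lit 26) (.e (nat_lit 426186) (nat_lit 9) (.e (nat_lit 426562) (nat_lit 33) (.e (nat_lit 385041) (nat_lit 19) (.e (nat_lit 164293) (nat_lit 224) .nil)))))) (.g (nat_lit 1) (.e (nat_lit 177563) (nat_lit 0) .nil) .nil))) 
(.lf (nat_lit 504677) (.g (nat_lit 1952) (.e (nat_lit 164183) (nat_lit 154) (.e (nat_lit 57411) (nat_lit 12) (.e (nat_lit 336316) (nat_lit 17) (.e (nat_lit 196672) (nat_lit 15) (.e (nat_lit 81925) (nat_lit 11) .nil))))) (.g (nat_lit 0) (.e (nat_lit 179006) (nat_lit 0) .nil) .nil))))) (.nd (nat_lit 8) (.nd (nat_lit 9) 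
(.lf (nat_lit 504037) (.g (nat_lit 2673) (.e (nat_lit 164022) (nat_lit 46) (.e (nat_lit 704629) (nat_lit 9) (.e (nat_lit 452) (nat_lit 33) (.e (nat_lit 434219) (nat_lit 19) (.e (nat_lit 500059) (nat_lit 18) (.e (nat_lit 65615) (nat_lit 10) (.e (nat_lit 344132) (nat_lit 26) (.e (nat_lit 557093) (nat_lit 12) .nil)))))))) (.g (nat_lit 1) (.e (nat_lit 177343) (nat_lit 0) .nil) .nil))) 
(.lf (nat_lit 504549) (.g (nat_lit 3992) (.e (nat_lit 164182) (nat_lit 154) (.e (nat_lit 57378) (nat_lit 3) (.e (nat_lit 98341) (nat_lit 20) (.e (nat_lit 221210) (nat_lit 22) (.e (nat_lit 196666) (nat_lit 13) (.e (nat_lit 65569) (nat_lit 3) (.e (nat_lit 98334) (nat_lit 18) .nil))))))) (.g (nat_lit 1) (.e (nat_lit 178836) (nat_lit 0) .nil) .nil)))) (.nd (nat_lit 9) 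
(.lf (nat_lit 504293) (.g (nat_lit 3294) (.e (nat_lit 164187) (nat_lit 157) (.e (nat_lit 229399) (nat_lit 12) (.e (nat_lit 426125) (nat_lit 2) (.e (nat_lit 196666) (nat_lit 13) (.e (nat_lit 65610) (nat_lit 10) (.e (nat_lit 344129) (nat_lit 26) (.e (nat_lit 557074) (nat_lit 9) (.e (nat_lit 2609) (nat_lit 163) .nil)))))))) (.g (nat_lit 1) (.e (nat_lit 178054) (nat_lit 0) .nil) .nil))) 
(.lf (nat_lit 504805) (.g (nat_lit 3454) (.e (nat_lit 164209) (nat_lit 176) (.e (nat_lit 2797) (nat_lit 180) (.e (nat_lit 303119) (nat_lit 3) (.e (nat_lit 204868) (nat_lit 29) (.e (nat_lit 368384) (nat_lit 1) .nil))))) (.g (nat_lit 0) (.e (nat_lit 179239) (nat_lit 0) .nil) .nil)))))))) (.nd (nat_lit 5) (.nd (nat_lit 6) (.nd (nat_lit 7) (.nd (nat_lit 8) (.nd (nat_lit 9) 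
(.lf (nat_lit 503829) (.g (nat_lit 3688) (.e (nat_lit 164035) (nat_lit 55) (.e (nat_lit 778462) (nat_lit 11) (.e (nat_lit 24608) (nat_lit 3) (.e (nat_lit 98365) (nat_lit 26) (.e (nat_lit 426188) (nat_lit 9) (.e (nat_lit 426428) (nat_lit 17) (.e (nat_lit 90165) (nat_lit 12) .nil))))))) (.g (nat_lit 1) (.e (nat_lit 176938) (nat_lit 0) .nil) .nil))) 
(.lf (nat_lit 504341) (.g (nat_lit 1804) (.e (nat_lit 164177) (nat_lit 154) (.e (nat_lit 57379) (nat_lit 3) (.e (nat_lit 98334) (nat_lit 18) (.e (nat_lit 164305) (nat_lit 226) .nil)))) (.g (nat_lit 0) (.e (nat_lit 178578) (nat_lit 0) .nil) .nil)))) (.nd (nat_lit 9) 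
(.lf (nat_lit 504085) (.g (nat_lit 3461) (.e (nat_lit 171776) (nat_lit 63) (.e (nat_lit 90170) (nat_lit 13) (.e (nat_lit 172106) (nat_lit 10) (.e (nat_lit 434231) (nat_lit 23) (.e (nat_lit 532528) (nat_lit 9) .nil))))) (.g (nat_lit 0) (.e (nat_lit 177423) (nat_lit 0) .nil) .nil))) 
(.lf (nat_lit 504597) (.g (nat_lit 1594) (.e (nat_lit 164182) (nat_lit 154) (.e (nat_lit 57411) (nat_lit 12) (.e (nat_lit 336456) (nat_lit 34) (.e (nat_lit 483387) (nat_lit 23) .nil)))) (.g (nat_lit 0) (.e (nat_lit 178897) (nat_lit 0) .nil) .nil))))) (.nd (nat_lit 8) (.nd (nat_lit 9) 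
(.lf (nat_lit 503957) (.g (nat_lit 956) (.e (nat_lit 164020) (nat_lit 45) (.e (nat_lit 696329) (nat_lit 5) (.e (nat_lit 2884) (nat_lit 184) (.e (nat_lit 426140) (nat_lit 3) (.e (nat_lit 212736) (nat_lit 29) .nil))))) (.g (nat_lit 0) (.e (nat_lit 177242) (nat_lit 0) .nil) .nil))) 
(.lf (nat_lit 504469) (.g (nat_lit 1786) (.e (nat_lit 164179) (nat_lit 154) (.e (nat_lit 57406) (nat_lit 12) (.e (nat_lit 336456) (nat_lit 34) (.e (nat_lit 483394) (nat_lit 24) (.e (nat_lit 344119) (nat_lit 21) .nil))))) (.g (nat_lit 0) (.e (nat_lit 178729) (nat_lit 0) .nil) .nil)))) (.nd (nat_lit 9) 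
(.lf (nat_lit 504213) (.g (nat_lit 1383) (.e (nat_lit 171776) (nat_lit 86) (.e (nat_lit 532563) (nat_lit 15) (.e (nat_lit 385066) (nat_lit 26) (.e (nat_lit 532555) (nat_lit 13) .nil)))) (.g (nat_lit 0) (.e (nat_lit 177655) (nat_lit 0) .nil) .nil))) 
(.lf (nat_lit 504725) (.g (nat_lit 514) (.e (nat_lit 164207) (nat_lit 176) (.e (nat_lit 2797) (nat_lit 180) (.e (nat_lit 303119) (nat_lit 3) .nil))) (.g (nat_lit 0) (.e (nat_lit 179089) (nat_lit 0) .nil) .nil)))))) (.nd (nat_lit 7) (.nd (nat_lit 8) (.nd (nat_lit 9) 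
(.lf (nat_lit 503893) (.g (nat_lit 4146) (.e (nat_lit 164018) (nat_lit 45) (.e (nat_lit 696343) (nat_lit 8) (.e (nat_lit 172065) (nat_lit 3) (.e (nat_lit 204869) (nat_lit 29) (.e (nat_lit 360474) (nat_lit 8) (.e (nat_lit 557088) (nat_lit 12) .nil)))))) (.g (nat_lit 1) (.e (nat_lit 177169) (nat_lit 0) .nil) .nil))) 
(.lf (nat_lit 504405) (.g (nat_lit 996) (.e (nat_lit 164178) (nat_lit 154) (.e (nat_lit 57409) (nat_lit 12) (.e (nat_lit 336454) (nat_lit 34) .nil))) (.g (nat_lit 0) (.e (nat_lit 178654) (nat_lit 0) .nil) .nil)))) (.nd (nat_lit 9) 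
(.lf (nat_lit 504149) (.g (nat_lit 1912) (.e (nat_lit 164092) (nat_lit 82) (.e (nat_lit 500046) (nat_lit 16) (.e (nat_lit 16466) (nat_lit 13) (.e (nat_lit 483333) (nat_lit 0) (.e (nat_lit 7105) (nat_lit 380) (.e (nat_lit 164284) (nat_lit 224) .nil)))))) (.g (nat_lit 1) (.e (nat_lit 177496) (nat_lit 0) .nil) .nil))) 
(.lf (nat_lit 504661) (.g (nat_lit 1826) (.e (nat_lit 164183) (nat_lit 154) (.e (nat_lit 57409) (nat_lit 12) (.e (nat_lit 336454) (nat_lit 34) (.e (nat_lit 483379) (nat_lit 23) (.e (nat_lit 336019) (nat_lit 3) .nil))))) (.g (nat_lit 0) (.e (nat_lit 178982) (nat_lit 0) .nil) .nil))))) (.nd (nat_lit 8) (.nd (nat_lit 9) 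
(.lf (nat_lit 504021) (.g (nat_lit 2247) (.e (nat_lit 164022) (nat_lit 46) (.e (nat_lit 704628) (nat_lit 9) (.e (nat_lit 375) (nat_lit 32) (.e (nat_lit 426025) (nat_lit 0) (.e (nat_lit 7936) (nat_lit 197) .nil))))) (.g (nat_lit 0) (.e (nat_lit 177321) (nat_lit 0) .nil) .nil))) 
(.lf (nat_lit 504533) (.g (nat_lit 1008) (.e (nat_lit 164181) (nat_lit 154) (.e (nat_lit 57409) (nat_lit 12) (.e (nat_lit 336454) (nat_lit 34) .nil))) (.g (nat_lit 0) (.e (nat_lit 178814) (nat_lit 0) .nil) .nil)))) (.nd (nat_lit 9) 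
(.lf (nat_lit 504277) (.g (nat_lit 2143) (.e (nat_lit 164119) (nat_lit 128) (.e (nat_lit 1189) (nat_lit 88) (.e (nat_lit 65630) (nat_lit 14) (.e (nat_lit 401428) (nat_lit 3) (.e (nat_lit 204861) (nat_lit 26) .nil))))) (.g (nat_lit 0) (.e (nat_lit 177807) (nat_lit 0) .nil) .nil))) 
(.lf (nat_lit 504789) (.g (nat_lit 408) (.e (nat_lit 164209) (nat_lit 176) (.e (nat_lit 2797) (nat_lit 180) (.e (nat_lit 303117) (nat_lit 2) .nil))) (.g (nat_lit 0) (.e (nat_lit 179211) (nat_lit 0) .nil) .nil))))))) (.nd (nat_lit 6) (.nd (nat_lit 7) (.nd (nat_lit 8) (.nd (nat_lit 9) 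
(.lf (nat_lit 503861) (.g (nat_lit 4580) (.e (nat_lit 164016) (nat_lit 44) (.e (nat_lit 688138) (nat_lit 5) (.e (nat_lit 2887) (nat_lit 184) (.e (nat_lit 426125) (nat_lit 2) (.e (nat_lit 196666) (nat_lit 13) (.e (nat_lit 65610) (nat_lit 10) (.e (nat_lit 344129) (nat_lit 26) (.e (nat_lit 557090) (nat_lit 12) .nil)))))))) (.g (nat_lit 1) (.e (nat_lit 177092) (nat_lit 0) .nil) .nil))) 
(.lf (nat_lit 504373) (.g (nat_lit 1571) (.e (nat_lit 164178) (nat_lit 154) (.e (nat_lit 57371) (nat_lit 2) (.e (nat_lit 90128) (nat_lit 9) (.e (nat_lit 2706) (nat_lit 170) .nil)))) (.g (nat_lit 0) (.e (nat_lit 178616) (nat_lit 0) .nil) .nil)))) (.nd (nat_lit 9) 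
(.lf (nat_lit 504117) (.g (nat_lit 1947) (.e (nat_lit 171776) (nat_lit 66) (.e (nat_lit 114698) (nat_lit 11) (.e (nat_lit 426139) (nat_lit 3) (.e (nat_lit 204868) (nat_lit 29) (.e (nat_lit 360449) (nat_lit 0) .nil))))) (.g (nat_lit 0) (.e (nat_lit 177455) (nat_lit 0) .nil) .nil))) 
(.lf (nat_lit 504629) (.g (nat_lit 343) (.e (nat_lit 164183) (nat_lit 154) (.e (nat_lit 57378) (nat_lit 3) (.e (nat_lit 98342) (nat_lit 20) .nil))) (.g (nat_lit 0) (.e (nat_lit 178943) (nat_lit 0) .nil) .nil))))) (.nd (nat_lit 8) (.nd (nat_lit 9) 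
(.lf (nat_lit 503989) (.g (nat_lit 5079) (.e (nat_lit 164020) (nat_lit 45) (.e (nat_lit 696344) (nat_lit 8) (.e (nat_lit 172065) (nat_lit 3) (.e (nat_lit 204869) (nat_lit 29) (.e (nat_lit 360472) (nat_lit 8) (.e (nat_lit 557090) (nat_lit 12) .nil)))))) (.g (nat_lit 1) (.e (nat_lit 177286) (nat_lit 0) .nil) .nil))) 
(.lf (nat_lit 504501) (.g (nat_lit 2103) (.e (nat_lit 164179) (nat_lit 154) (.e (nat_lit 57409) (nat_lit 12) (.e (nat_lit 336454) (nat_lit 34) (.e (nat_lit 483378) (nat_lit 23) .nil)))) (.g (nat_lit 0) (.e (nat_lit 178772) (nat_lit 0) .nil) .nil)))) (.nd (nat_lit 9) 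
(.lf (nat_lit 504245) (.g (nat_lit 993) (.e (nat_lit 164112) (nat_lit 118) (.e (nat_lit 794637) (nat_lit 11) (.e (nat_lit 336074) (nat_lit 9) (.e (nat_lit 336438) (nat_lit 31) (.e (nat_lit 458769) (nat_lit 16) .nil))))) (.g (nat_lit 0) (.e (nat_lit 177762) (nat_lit 0) .nil) .nil))) 
(.lf (nat_lit 504757) (.g (nat_lit 1054) (.e (nat_lit 164207) (nat_lit 176) (.e (nat_lit 2810) (nat_lit 180) (.e (nat_lit 303117) (nat_lit 2) (.e (nat_lit 196673) (nat_lit 15) .nil)))) (.g (nat_lit 0) (.e (nat_lit 179154) (nat_lit 0) .nil) .nil)))))) (.nd (nat_lit 7) (.nd (nat_lit 8) (.nd (nat_lit 9) 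
(.lf (nat_lit 503925) (.g (nat_lit 3842) (.e (nat_lit 164018) (nat_lit 45) (.e (nat_lit 696344) (nat_lit 8) (.e (nat_lit 172082) (nat_lit 7) (.e (nat_lit 409646) (nat_lit 18) (.e (nat_lit 303140) (nat_lit 10) (.e (nat_lit 434275) (nat_lit 39) (.e (nat_lit 663585) (nat_lit 12) .nil))))))) (.g (nat_lit 1) (.e (nat_lit 177208) (nat_lit 0) .nil) .nil))) 
(.lf (nat_lit 504437) (.g (nat_lit 5269) (.e (nat_lit 164179) (nat_lit 154) (.e (nat_lit 57378) (nat_lit 3) (.e (nat_lit 98333) (nat_lit 18) (.e (nat_lit 164325) (nat_lit 230) (.e (nat_lit 163907) (nat_lit 12) (.e (nat_lit 426131) (nat_lit 3) (.e (nat_lit 204852) (nat_lit 26) (.e (nat_lit 336310) (nat_lit 16) .nil)))))))) (.g (nat_lit 1) (.e (nat_lit 178691) (nat_lit 0) .nil) .nil)))) 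
(.nd (nat_lit 9) 
(.lf (nat_lit 504181) (.g (nat_lit 2302) (.e (nat_lit 164096) (nat_lit 86) (.e (nat_lit 532583) (nat_lit 26) (.e (nat_lit 426190) (nat_lit 9) (.e (nat_lit 426562) (nat_lit 33) (.e (nat_lit 385041) (nat_lit 19) (.e (nat_lit 164289) (nat_lit 224) .nil)))))) (.g (nat_lit 1) (.e (nat_lit 177579) (nat_lit 0) .nil) .nil))) 
(.lf (nat_lit 504693) (.g (nat_lit 1876) (.e (nat_lit 164183) (nat_lit 154) (.e (nat_lit 57411) (nat_lit 12) (.e (nat_lit 336456) (nat_lit 34) (.e (nat_lit 483396) (nat_lit 24) (.e (nat_lit 344119) (nat_lit 21) .nil))))) (.g (nat_lit 0) (.e (nat_lit 179029) (nat_lit 0) .nil) .nil))))) (.nd (nat_lit 8) (.nd (nat_lit 9) 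
(.lf (nat_lit 504053) (.g (nat_lit 2622) (.e (nat_lit 164023) (nat_lit 46) (.e (nat_lit 704629) (nat_lit 9) (.e (nat_lit 375) (nat_lit 32) (.e (nat_lit 426025) (nat_lit 0) (.e (nat_lit 7936) (nat_lit 197) .nil))))) (.g (nat_lit 0) (.e (nat_lit 177372) (nat_lit 0) .nil) .nil))) 
(.lf (nat_lit 504565) (.g (nat_lit 1222) (.e (nat_lit 164182) (nat_lit 154) (.e (nat_lit 57379) (nat_lit 3) (.e (nat_lit 98341) (nat_lit 20) (.e (nat_lit 221212) (nat_lit 22) .nil)))) (.g (nat_lit 0) (.e (nat_lit 178855) (nat_lit 0) .nil) .nil)))) (.nd (nat_lit 9) 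
(.lf (nat_lit 504309) (.g (nat_lit 941) (.e (nat_lit 164176) (nat_lit 154) (.e (nat_lit 57379) (nat_lit 3) (.e (nat_lit 98321) (nat_lit 17) .nil))) (.g (nat_lit 0) (.e (nat_lit 178539) (nat_lit 0) .nil) .nil))) 
(.lf (nat_lit 504821) (.g (nat_lit 3066) (.e (nat_lit 164210) (nat_lit 176) (.e (nat_lit 2797) (nat_lit 180) (.e (nat_lit 303119) (nat_lit 3) (.e (nat_lit 204870) (nat_lit 29) (.e (nat_lit 368384) (nat_lit 1) (.e (nat_lit 499910) (nat_lit 8) .nil)))))) (.g (nat_lit 1) (.e (nat_lit 179286) (nat_lit 0) .nil) .nil))))))))) 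
(.nd (nat_lit 4) (.nd (nat_lit 5) (.nd (nat_lit 6) (.nd (nat_lit 7) (.nd (nat_lit 8) 
(.nd (nat_lit 9) 
(.lf (nat_lit 503821) (.g (nat_lit 1377) (.e (nat_lit 164006) (nat_lit 41) (.e (nat_lit 663567) (nat_lit 4) (.e (nat_lit 65651) (nat_lit 27) (.e (nat_lit 426308) (nat_lit 12) (.e (nat_lit 475174) (nat_lit 23) (.e (nat_lit 507929) (nat_lit 10) (.e (nat_lit 5762) (nat_lit 315) .nil))))))) (.g (nat_lit 1) (.e (nat_lit 176421) (nat_lit 0) .nil) .nil))) 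
(.lf (nat_lit 504333) (.g (nat_lit 2640) (.e (nat_lit 164177) (nat_lit 154) (.e (nat_lit 57377) (nat_lit 3) (.e (nat_lit 98333) (nat_lit 18) (.e (nat_lit 164325) (nat_lit 230) (.e (nat_lit 163907) (nat_lit 12) .nil))))) (.g (nat_lit 0) (.e (nat_lit 178570) (nat_lit 0) .nil) .nil)))) (.nd (nat_lit 9) 
(.lf (nat_lit 504077) (.g (nat_lit 1822) (.e (nat_lit 164024) (nat_lit 51) (.e (nat_lit 745476) (nat_lit 0) (.e (nat_lit 1256) (nat_lit 92) (.e (nat_lit 98367) (nat_lit 27) (.e (nat_lit 434245) (nat_lit 28) .nil))))) (.g (nat_lit 0) (.e (nat_lit 177411) (nat_lit 0) .nil) .nil))) 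
(.lf (nat_lit 504589) (.g (nat_lit 660) (.e (nat_lit 164182) (nat_lit 154) (.e (nat_lit 57411) (nat_lit 12) (.e (nat_lit 336325) (nat_lit 18) .nil))) (.g (nat_lit 0) (.e (nat_lit 178887) (nat_lit 0) .nil) .nil))))) (.nd (nat_lit 8) (.nd (nat_lit 9) 
(.lf (nat_lit 503949) (.g (nat_lit 3734) (.e (nat_lit 164019) (nat_lit 45) (.e (nat_lit 696348) (nat_lit 12) (.e (nat_lit 237594) (nat_lit 3) (.e (nat_lit 204869) (nat_lit 29) (.e (nat_lit 360474) (nat_lit 8) (.e (nat_lit 557091) (nat_lit 12) .nil)))))) (.g (nat_lit 1) (.e (nat_lit 177234) (nat_lit 0) .nil) .nil))) 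
(.lf (nat_lit 504461) (.g (nat_lit 2424) (.e (nat_lit 164179) (nat_lit 154) (.e (nat_lit 57406) (nat_lit 12) (.e (nat_lit 336454) (nat_lit 34) (.e (nat_lit 483396) (nat_lit 24) .nil)))) (.g (nat_lit 0) (.e (nat_lit 178721) (nat_lit 0) .nil) .nil)))) (.nd (nat_lit 9) 
(.lf (nat_lit 504205) (.g (nat_lit 2365) (.e (nat_lit 164096) (nat_lit 86) (.e (nat_lit 532583) (nat_lit 26) (.e (nat_lit 426199) (nat_lit 9) (.e (nat_lit 426562) (nat_lit 33) (.e (nat_lit 385041) (nat_lit 19) (.e (nat_lit 164293) (nat_lit 224) .nil)))))) (.g (nat_lit 1) (.e (nat_lit 177603) (nat_lit 0) .nil) .nil))) 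
(.lf (nat_lit 504717) (.g (nat_lit 1738) (.e (nat_lit 171776) (nat_lit 160) (.e (nat_lit 57379) (nat_lit 3) (.e (nat_lit 98367) (nat_lit 27) (.e (nat_lit 434245) (nat_lit 28) .nil)))) (.g (nat_lit 0) (.e (nat_lit 179077) (nat_lit 0) .nil) .nil)))))) (.nd (nat_lit 7) (.nd (nat_lit 8) (.nd (nat_lit 9) 
(.lf (nat_lit 503885) (.g (nat_lit 4377) (.e (nat_lit 164018) (nat_lit 45) (.e (nat_lit 696329) (nat_lit 5) (.e (nat_lit 2884) (nat_lit 184) (.e (nat_lit 426125) (nat_lit 2) (.e (nat_lit 196666) (nat_lit 13) (.e (nat_lit 65617) (nat_lit 10) (.e (nat_lit 344133) (nat_lit 26) (.e (nat_lit 557091) (nat_lit 12) .nil)))))))) (.g (nat_lit 1) (.e (nat_lit 177139) (nat_lit 0) .nil) .nil))) 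
(.lf (nat_lit 504397) (.g (nat_lit 660) (.e (nat_lit 164178) (nat_lit 154) (.e (nat_lit 57407) (nat_lit 12) (.e (nat_lit 336322) (nat_lit 18) .nil))) (.g (nat_lit 0) (.e (nat_lit 178646) (nat_lit 0) .nil) .nil)))) (.nd (nat_lit 9) 
(.lf (nat_lit 504141) (.g (nat_lit 1744) (.e (nat_lit 164092) (nat_lit 82) (.e (nat_lit 500046) (nat_lit 16) (.e (nat_lit 16466) (nat_lit 13) (.e (nat_lit 483330) (nat_lit 0) .nil)))) (.g (nat_lit 0) (.e (nat_lit 177488) (nat_lit 0) .nil) .nil))) 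
(.lf (nat_lit 504653) (.g (nat_lit 1589) (.e (nat_lit 164183) (nat_lit 154) (.e (nat_lit 57409) (nat_lit 12) (.e (nat_lit 336324) (nat_lit 18) (.e (nat_lit 204867) (nat_lit 28) (.e (nat_lit 352275) (nat_lit 11) .nil))))) (.g (nat_lit 0) (.e (nat_lit 178970) (nat_lit 0) .nil) .nil))))) (.nd (nat_lit 8) (.nd (nat_lit 9) 
(.lf (nat_lit 504013) (.g (nat_lit 3470) (.e (nat_lit 164020) (nat_lit 45) (.e (nat_lit 696344) (nat_lit 8) (.e (nat_lit 172079) (nat_lit 7) (.e (nat_lit 409648) (nat_lit 18) (.e (nat_lit 303137) (nat_lit 10) (.e (nat_lit 434275) (nat_lit 39) (.e (nat_lit 663584) (nat_lit 12) .nil))))))) (.g (nat_lit 1) (.e (nat_lit 177310) (nat_lit 0) .nil) .nil))) 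
(.lf (nat_lit 504525) (.g (nat_lit 1297) (.e (nat_lit 164180) (nat_lit 154) (.e (nat_lit 57409) (nat_lit 12) (.e (nat_lit 336456) (nat_lit 34) (.e (nat_lit 483391) (nat_lit 23) .nil)))) (.g (nat_lit 0) (.e (nat_lit 178802) (nat_lit 0) .nil) .nil)))) (.nd (nat_lit 9) 
(.lf (nat_lit 504269) (.g (nat_lit 2014) (.e (nat_lit 164112) (nat_lit 118) (.e (nat_lit 794637) (nat_lit 11) (.e (nat_lit 336087) (nat_lit 9) (.e (nat_lit 336438) (nat_lit 31) (.e (nat_lit 458769) (nat_lit 16) (.e (nat_lit 164289) (nat_lit 224) .nil)))))) (.g (nat_lit 1) (.e (nat_lit 177786) (nat_lit 0) .nil) .nil))) 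
(.lf (nat_lit 504781) (.g (nat_lit 2199) (.e (nat_lit 164208) (nat_lit 176) (.e (nat_lit 2819) (nat_lit 181) (.e (nat_lit 311312) (nat_lit 2) (.e (nat_lit 196674) (nat_lit 15) (.e (nat_lit 81953) (nat_lit 22) .nil))))) (.g (nat_lit 0) (.e (nat_lit 179191) (nat_lit 0) .nil) .nil))))))) (.nd (nat_lit 6) (.nd (nat_lit 7) (.nd (nat_lit 8) (.nd (nat_lit 9) 
(.lf (nat_lit 503853) (.g (nat_lit 902) (.e (nat_lit 164056) (nat_lit 56) (.e (nat_lit 786457) (nat_lit 18) (.e (nat_lit 98380) (nat_lit 31) (.e (nat_lit 466954) (nat_lit 11) (.e (nat_lit 336049) (nat_lit 6) (.e (nat_lit 147500) (nat_lit 12) .nil)))))) (.g (nat_lit 1) (.e (nat_lit 176987) (nat_lit 0) .nil) .nil))) 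
(.lf (nat_lit 504365) (.g (nat_lit 1079) (.e (nat_lit 164177) (nat_lit 154) (.e (nat_lit 57407) (nat_lit 12) (.e (nat_lit 336456) (nat_lit 34) (.e (nat_lit 483395) (nat_lit 24) .nil)))) (.g (nat_lit 0) (.e (nat_lit 178607) (nat_lit 0) .nil) .nil)))) (.nd (nat_lit 9) 
(.lf (nat_lit 504109) (.g (nat_lit 1532) (.e (nat_lit 171776) (nat_lit 64) (.e (nat_lit 98381) (nat_lit 31) (.e (nat_lit 466974) (nat_lit 22) (.e (nat_lit 196681) (nat_lit 17) (.e (nat_lit 131089) (nat_lit 1) .nil))))) (.g (nat_lit 0) (.e (nat_lit 177447) (nat_lit 0) .nil) .nil))) 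
(.lf (nat_lit 504621) (.g (nat_lit 934) (.e (nat_lit 164183) (nat_lit 154) (.e (nat_lit 57378) (nat_lit 3) (.e (nat_lit 98338) (nat_lit 19) .nil))) (.g (nat_lit 0) (.e (nat_lit 178934) (nat_lit 0) .nil) .nil))))) (.nd (nat_lit 8) (.nd (nat_lit 9) 
(.lf (nat_lit 503981) (.g (nat_lit 2375) (.e (nat_lit 164020) (nat_lit 45) (.e (nat_lit 696343) (nat_lit 8) (.e (nat_lit 172082) (nat_lit 7) (.e (nat_lit 409648) (nat_lit 18) (.e (nat_lit 303137) (nat_lit 10) (.e (nat_lit 434275) (nat_lit 39) (.e (nat_lit 663584) (nat_lit 12) .nil))))))) (.g (nat_lit 1) (.e (nat_lit 177278) (nat_lit 0) .nil) .nil))) 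
(.lf (nat_lit 504493) (.g (nat_lit 1722) (.e (nat_lit 164179) (nat_lit 154) (.e (nat_lit 57408) (nat_lit 12) (.e (nat_lit 336454) (nat_lit 34) (.e (nat_lit 483397) (nat_lit 25) .nil)))) (.g (nat_lit 0) (.e (nat_lit 178761) (nat_lit 0) .nil) .nil)))) (.nd (nat_lit 9) 
(.lf (nat_lit 504237) (.g (nat_lit 1076) (.e (nat_lit 164112) (nat_lit 118) (.e (nat_lit 794635) (nat_lit 11) (.e (nat_lit 336153) (nat_lit 9) (.e (nat_lit 336437) (nat_lit 31) (.e (nat_lit 458769) (nat_lit 16) (.e (nat_lit 164289) (nat_lit 224) .nil)))))) (.g (nat_lit 1) (.e (nat_lit 177754) (nat_lit 0) .nil) .nil))) 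
(.lf (nat_lit 504749) (.g (nat_lit 2777) (.e (nat_lit 164207) (nat_lit 176) (.e (nat_lit 2808) (nat_lit 180) (.e (nat_lit 303117) (nat_lit 2) (.e (nat_lit 196666) (nat_lit 13) (.e (nat_lit 65599) (nat_lit 9) .nil))))) (.g (nat_lit 0) (.e (nat_lit 179140) (nat_lit 0) .nil) .nil)))))) (.nd (nat_lit 7) (.nd (nat_lit 8) (.nd (nat_lit 9) 
(.lf (nat_lit 503917) (.g (nat_lit 4532) (.e (nat_lit 164018) (nat_lit 45) (.e (nat_lit 696344) (nat_lit 8) (.e (nat_lit 172079) (nat_lit 7) (.e (nat_lit 409645) (nat_lit 18) (.e (nat_lit 303137) (nat_lit 10) (.e (nat_lit 434275) (nat_lit 39) (.e (nat_lit 663585) (nat_lit 12) .nil))))))) (.g (nat_lit 1) (.e (nat_lit 177200) (nat_lit 0) .nil) .nil))) 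
(.lf (nat_lit 504429) (.g (nat_lit 2308) (.e (nat_lit 164179) (nat_lit 154) (.e (nat_lit 57377) (nat_lit 3) (.e (nat_lit 98341) (nat_lit 20) (.e (nat_lit 221210) (nat_lit 22) (.e (nat_lit 196669) (nat_lit 14) .nil))))) (.g (nat_lit 0) (.e (nat_lit 178683) (nat_lit 0) .nil) .nil)))) (.nd (nat_lit 9) 
(.lf (nat_lit 504173) (.g (nat_lit 1935) (.e (nat_lit 164096) (nat_lit 86) (.e (nat_lit 532583) (nat_lit 26) (.e (nat_lit 426189) (nat_lit 9) (.e (nat_lit 426562) (nat_lit 33) (.e (nat_lit 385041) (nat_lit 19) (.e (nat_lit 164287) (nat_lit 224) .nil)))))) (.g (nat_lit 1) (.e (nat_lit 177571) (nat_lit 0) .nil) .nil))) 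
(.lf (nat_lit 504685) (.g (nat_lit 762) (.e (nat_lit 164183) (nat_lit 154) (.e (nat_lit 57411) (nat_lit 12) (.e (nat_lit 336377) (nat_lit 27) .nil))) (.g (nat_lit 0) (.e (nat_lit 179017) (nat_lit 0) .nil) .nil))))) (.nd (nat_lit 8) (.nd (nat_lit 9) 
(.lf (nat_lit 504045) (.g (nat_lit 3145) (.e (nat_lit 164022) (nat_lit 46) (.e (nat_lit 704738) (nat_lit 11) (.e (nat_lit 16384) (nat_lit 0) (.e (nat_lit 3262) (nat_lit 198) (.e (nat_lit 540706) (nat_lit 12) (.e (nat_lit 360474) (nat_lit 8) (.e (nat_lit 557094) (nat_lit 12) .nil))))))) (.g (nat_lit 1) (.e (nat_lit 177357) (nat_lit 0) .nil) .nil))) 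
(.lf (nat_lit 504557) (.g (nat_lit 1977) (.e (nat_lit 164182) (nat_lit 154) (.e (nat_lit 57378) (nat_lit 3) (.e (nat_lit 98342) (nat_lit 20) (.e (nat_lit 221212) (nat_lit 22) (.e (nat_lit 196668) (nat_lit 14) .nil))))) (.g (nat_lit 0) (.e (nat_lit 178844) (nat_lit 0) .nil) .nil)))) (.nd (nat_lit 9) 
(.lf (nat_lit 504301) (.g (nat_lit 1734) (.e (nat_lit 164176) (nat_lit 154) (.e (nat_lit 57372) (nat_lit 2) (.e (nat_lit 90128) (nat_lit 9) (.e (nat_lit 2706) (nat_lit 170) .nil)))) (.g (nat_lit 0) (.e (nat_lit 178531) (nat_lit 0) .nil) .nil))) 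
(.lf (nat_lit 504813) (.g (nat_lit 2213) (.e (nat_lit 164209) (nat_lit 176) (.e (nat_lit 2797) (nat_lit 180) (.e (nat_lit 303119) (nat_lit 3) (.e (nat_lit 204878) (nat_lit 31) (.e (nat_lit 376862) (nat_lit 22) .nil))))) (.g (nat_lit 0) (.e (nat_lit 179249) (nat_lit 0) .nil) .nil)))))))) (.nd (nat_lit 5) (.nd (nat_lit 6) (.nd (nat_lit 7) (.nd (nat_lit 8) (.nd (nat_lit 9) 
(.lf (nat_lit 503837) (.g (nat_lit 2954) (.e (nat_lit 164046) (nat_lit 55) (.e (nat_lit 778462) (nat_lit 11) (.e (nat_lit 24608) (nat_lit 3) (.e (nat_lit 98365) (nat_lit 26) (.e (nat_lit 426187) (nat_lit 9) (.e (nat_lit 426428) (nat_lit 17) (.e (nat_lit 90165) (nat_lit 12) .nil))))))) (.g (nat_lit 1) (.e (nat_lit 176951) (nat_lit 0) .nil) .nil))) 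
(.lf (nat_lit 504349) (.g (nat_lit 1000) (.e (nat_lit 164177) (nat_lit 154) (.e (nat_lit 57406) (nat_lit 12) (.e (nat_lit 336316) (nat_lit 17) (.e (nat_lit 196672) (nat_lit 15) .nil)))) (.g (nat_lit 0) (.e (nat_lit 178589) (nat_lit 0) .nil) .nil)))) (.nd (nat_lit 9) 
(.lf (nat_lit 504093) (.g (nat_lit 1377) (.e (nat_lit 171776) (nat_lit 64) (.e (nat_lit 98365) (nat_lit 26) (.e (nat_lit 426298) (nat_lit 11) (.e (nat_lit 458789) (nat_lit 23) (.e (nat_lit 532555) (nat_lit 13) .nil))))) (.g (nat_lit 0) (.e (nat_lit 177431) (nat_lit 0) .nil) .nil))) 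
(.lf (nat_lit 504605) (.g (nat_lit 2217) (.e (nat_lit 164183) (nat_lit 154) (.e (nat_lit 57373) (nat_lit 2) (.e (nat_lit 90158) (nat_lit 11) (.e (nat_lit 24628) (nat_lit 9) .nil)))) (.g (nat_lit 0) (.e (nat_lit 178908) (nat_lit 0) .nil) .nil))))) (.nd (nat_lit 8) (.nd (nat_lit 9) 
(.lf (nat_lit 503965) (.g (nat_lit 1348) (.e (nat_lit 164020) (nat_lit 45) (.e (nat_lit 696330) (nat_lit 5) (.e (nat_lit 2980) (nat_lit 185) (.e (nat_lit 434231) (nat_lit 23) (.e (nat_lit 540416) (nat_lit 12) .nil))))) (.g (nat_lit 0) (.e (nat_lit 177254) (nat_lit 0) .nil) .nil))) 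
(.lf (nat_lit 504477) (.g (nat_lit 2347) (.e (nat_lit 164179) (nat_lit 154) (.e (nat_lit 57407) (nat_lit 12) (.e (nat_lit 336454) (nat_lit 34) (.e (nat_lit 483379) (nat_lit 23) (.e (nat_lit 336019) (nat_lit 3) .nil))))) (.g (nat_lit 0) (.e (nat_lit 178744) (nat_lit 0) .nil) .nil)))) (.nd (nat_lit 9) 
(.lf (nat_lit 504221) (.g (nat_lit 928) (.e (nat_lit 164104) (nat_lit 116) (.e (nat_lit 778462) (nat_lit 11) (.e (nat_lit 24629) (nat_lit 9) (.e (nat_lit 336438) (nat_lit 31) (.e (nat_lit 458769) (nat_lit 16) .nil))))) (.g (nat_lit 0) (.e (nat_lit 177702) (nat_lit 0) .nil) .nil))) 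
(.lf (nat_lit 504733) (.g (nat_lit 3153) (.e (nat_lit 164207) (nat_lit 176) (.e (nat_lit 2797) (nat_lit 180) (.e (nat_lit 303119) (nat_lit 3) (.e (nat_lit 204870) (nat_lit 29) (.e (nat_lit 368384) (nat_lit 1) .nil))))) (.g (nat_lit 0) (.e (nat_lit 179110) (nat_lit 0) .nil) .nil)))))) (.nd (nat_lit 7) (.nd (nat_lit 8) (.nd (nat_lit 9) 
(.lf (nat_lit 503901) (.g (nat_lit 3467) (.e (nat_lit 164018) (nat_lit 45) (.e (nat_lit 696344) (nat_lit 8) (.e (nat_lit 172064) (nat_lit 2) (.e (nat_lit 196666) (nat_lit 13) (.e (nat_lit 65610) (nat_lit 10) (.e (nat_lit 344129) (nat_lit 26) (.e (nat_lit 557088) (nat_lit 12) .nil))))))) (.g (nat_lit 1) (.e (nat_lit 177184) (nat_lit 0) .nil) .nil))) 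
(.lf (nat_lit 504413) (.g (nat_lit 2036) (.e (nat_lit 164178) (nat_lit 154) (.e (nat_lit 57411) (nat_lit 12) (.e (nat_lit 336326) (nat_lit 18) (.e (nat_lit 204877) (nat_lit 31) (.e (nat_lit 376842) (nat_lit 11) .nil))))) (.g (nat_lit 0) (.e (nat_lit 178662) (nat_lit 0) .nil) .nil)))) (.nd (nat_lit 9) 
(.lf (nat_lit 504157) (.g (nat_lit 1002) (.e (nat_lit 164095) (nat_lit 86) (.e (nat_lit 532535) (nat_lit 9) (.e (nat_lit 336295) (nat_lit 15) .nil))) (.g (nat_lit 0) (.e (nat_lit 177525) (nat_lit 0) .nil) .nil))) 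
(.lf (nat_lit 504669) (.g (nat_lit 1953) (.e (nat_lit 164183) (nat_lit 154) (.e (nat_lit 57411) (nat_lit 12) (.e (nat_lit 336019) (nat_lit 3) (.e (nat_lit 98342) (nat_lit 20) (.e (nat_lit 221206) (nat_lit 21) .nil))))) (.g (nat_lit 0) (.e (nat_lit 178995) (nat_lit 0) .nil) .nil))))) (.nd (nat_lit 8) (.nd (nat_lit 9) 
(.lf (nat_lit 504029) (.g (nat_lit 5346) (.e (nat_lit 164022) (nat_lit 46) (.e (nat_lit 704629) (nat_lit 9) (.e (nat_lit 375) (nat_lit 32) (.e (nat_lit 426125) (nat_lit 2) (.e (nat_lit 196666) (nat_lit 13) (.e (nat_lit 65610) (nat_lit 10) (.e (nat_lit 344132) (nat_lit 26) (.e (nat_lit 557094) (nat_lit 12) .nil)))))))) (.g (nat_lit 1) (.e (nat_lit 177335) (nat_lit 0) .nil) .nil))) 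
(.lf (nat_lit 504541) (.g (nat_lit 1492) (.e (nat_lit 164182) (nat_lit 154) (.e (nat_lit 57368) (nat_lit 1) (.e (nat_lit 57854) (nat_lit 252) (.e (nat_lit 57420) (nat_lit 13) .nil)))) (.g (nat_lit 0) (.e (nat_lit 178822) (nat_lit 0) .nil) .nil)))) (.nd (nat_lit 9) 
(.lf (nat_lit 504285) (.g (nat_lit 2356) (.e (nat_lit 164154) (nat_lit 152) (.e (nat_lit 1183) (nat_lit 87) (.e (nat_lit 57479) (nat_lit 28) (.e (nat_lit 557105) (nat_lit 14) (.e (nat_lit 180252) (nat_lit 10) .nil))))) (.g (nat_lit 0) (.e (nat_lit 177949) (nat_lit 0) .nil) .nil))) 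
(.lf (nat_lit 504797) (.g (nat_lit 1455) (.e (nat_lit 164209) (nat_lit 176) (.e (nat_lit 2797) (nat_lit 180) (.e (nat_lit 303117) (nat_lit 2) (.e (nat_lit 196674) (nat_lit 15) .nil)))) (.g (nat_lit 0) (.e (nat_lit 179219) (nat_lit 0) .nil) .nil))))))) (.nd (nat_lit 6) (.nd (nat_lit 7) (.nd (nat_lit 8) (.nd (nat_lit 9) 
(.lf (nat_lit 503869) (.g (nat_lit 1080) (.e (nat_lit 164017) (nat_lit 44) (.e (nat_lit 688138) (nat_lit 5) (.e (nat_lit 2887) (nat_lit 184) (.e (nat_lit 426043) (nat_lit 0) .nil)))) (.g (nat_lit 0) (.e (nat_lit 177122) (nat_lit 0) .nil) .nil))) 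
(.lf (nat_lit 504381) (.g (nat_lit 2749) (.e (nat_lit 164178) (nat_lit 154) (.e (nat_lit 57378) (nat_lit 3) (.e (nat_lit 98333) (nat_lit 18) (.e (nat_lit 164325) (nat_lit 230) (.e (nat_lit 163928) (nat_lit 16) .nil))))) (.g (nat_lit 0) (.e (nat_lit 178625) (nat_lit 0) .nil) .nil)))) (.nd (nat_lit 9) 
(.lf (nat_lit 504125) (.g (nat_lit 1875) (.e (nat_lit 164092) (nat_lit 82) (.e (nat_lit 500046) (nat_lit 16) (.e (nat_lit 16433) (nat_lit 9) (.e (nat_lit 426558) (nat_lit 33) (.e (nat_lit 385041) (nat_lit 19) .nil))))) (.g (nat_lit 0) (.e (nat_lit 177471) (nat_lit 0) .nil) .nil))) 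
(.lf (nat_lit 504637) (.g (nat_lit 2449) (.e (nat_lit 164183) (nat_lit 154) (.e (nat_lit 57379) (nat_lit 3) (.e (nat_lit 98341) (nat_lit 20) (.e (nat_lit 221210) (nat_lit 22) (.e (nat_lit 196665) (nat_lit 13) .nil))))) (.g (nat_lit 0) (.e (nat_lit 178954) (nat_lit 0) .nil) .nil))))) (.nd (nat_lit 8) (.nd (nat_lit 9) 
(.lf (nat_lit 503997) (.g (nat_lit 2847) (.e (nat_lit 164020) (nat_lit 45) (.e (nat_lit 696344) (nat_lit 8) (.e (nat_lit 172067) (nat_lit 3) (.e (nat_lit 204863) (nat_lit 27) .nil)))) (.g (nat_lit 0) (.e (nat_lit 177294) (nat_lit 0) .nil) .nil))) 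
(.lf (nat_lit 504509) (.g (nat_lit 854) (.e (nat_lit 164179) (nat_lit 154) (.e (nat_lit 57411) (nat_lit 12) (.e (nat_lit 336377) (nat_lit 27) .nil))) (.g (nat_lit 0) (.e (nat_lit 178781) (nat_lit 0) .nil) .nil)))) (.nd (nat_lit 9) 
(.lf (nat_lit 504253) (.g (nat_lit 1688) (.e (nat_lit 164112) (nat_lit 118) (.e (nat_lit 794637) (nat_lit 11) (.e (nat_lit 336077) (nat_lit 9) (.e (nat_lit 336438) (nat_lit 31) (.e (nat_lit 458769) (nat_lit 16) (.e (nat_lit 164286) (nat_lit 224) .nil)))))) (.g (nat_lit 1) (.e (nat_lit 177770) (nat_lit 0) .nil) .nil))) 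
(.lf (nat_lit 504765) (.g (nat_lit 1309) (.e (nat_lit 164207) (nat_lit 176) (.e (nat_lit 2810) (nat_lit 180) (.e (nat_lit 303119) (nat_lit 3) (.e (nat_lit 204867) (nat_lit 28) .nil)))) (.g (nat_lit 0) (.e (nat_lit 179162) (nat_lit 0) .nil) .nil)))))) (.nd (nat_lit 7) (.nd (nat_lit 8) (.nd (nat_lit 9) 
(.lf (nat_lit 503933) (.g (nat_lit 2816) (.e (nat_lit 164019) (nat_lit 45) (.e (nat_lit 696344) (nat_lit 8) (.e (nat_lit 172065) (nat_lit 3) (.e (nat_lit 204855) (nat_lit 26) (.e (nat_lit 336176) (nat_lit 10) (.e (nat_lit 344130) (nat_lit 26) (.e (nat_lit 557089) (nat_lit 12) .nil))))))) (.g (nat_lit 1) (.e (nat_lit 177218) (nat_lit 0) .nil) .nil))) 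
(.lf (nat_lit 504445) (.g (nat_lit 2317) (.e (nat_lit 164179) (nat_lit 154) (.e (nat_lit 57378) (nat_lit 3) (.e (nat_lit 98342) (nat_lit 20) (.e (nat_lit 221212) (nat_lit 22) (.e (nat_lit 196669) (nat_lit 14) .nil))))) (.g (nat_lit 0) (.e (nat_lit 178701) (nat_lit 0) .nil) .nil)))) (.nd (nat_lit 9) 
(.lf (nat_lit 504189) (.g (nat_lit 2053) (.e (nat_lit 164096) (nat_lit 86) (.e (nat_lit 532583) (nat_lit 26) (.e (nat_lit 426197) (nat_lit 9) (.e (nat_lit 426562) (nat_lit 33) (.e (nat_lit 385041) (nat_lit 19) (.e (nat_lit 164286) (nat_lit 224) .nil)))))) (.g (nat_lit 1) (.e (nat_lit 177587) (nat_lit 0) .nil) .nil))) 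
(.lf (nat_lit 504701) (.g (nat_lit 2695) (.e (nat_lit 171776) (nat_lit 160) (.e (nat_lit 57371) (nat_lit 2) (.e (nat_lit 90174) (nat_lit 14) (.e (nat_lit 180252) (nat_lit 10) (.e (nat_lit 573488) (nat_lit 14) .nil))))) (.g (nat_lit 0) (.e (nat_lit 179059) (nat_lit 0) .nil) .nil))))) (.nd (nat_lit 8) (.nd (nat_lit 9) 
(.lf (nat_lit 504061) (.g (nat_lit 1568) (.e (nat_lit 164023) (nat_lit 46) (.e (nat_lit 704737) (nat_lit 11) (.e (nat_lit 16392) (nat_lit 0) (.e (nat_lit 3545) (nat_lit 219) .nil)))) (.g (nat_lit 0) (.e (nat_lit 177387) (nat_lit 0) .nil) .nil))) 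
(.lf (nat_lit 504573) (.g (nat_lit 2322) (.e (nat_lit 164182) (nat_lit 154) (.e (nat_lit 57409) (nat_lit 12) (.e (nat_lit 336454) (nat_lit 34) (.e (nat_lit 483384) (nat_lit 23) .nil)))) (.g (nat_lit 0) (.e (nat_lit 178866) (nat_lit 0) .nil) .nil)))) (.nd (nat_lit 9) 
(.lf (nat_lit 504317) (.g (nat_lit 2826) (.e (nat_lit 164176) (nat_lit 154) (.e (nat_lit 57406) (nat_lit 12) (.e (nat_lit 336454) (nat_lit 34) (.e (nat_lit 483399) (nat_lit 25) .nil)))) (.g (nat_lit 0) (.e (nat_lit 178548) (nat_lit 0) .nil) .nil))) 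
(.lf (nat_lit 504829) (.g (nat_lit 415) (.e (nat_lit 164210) (nat_lit 176) (.e (nat_lit 2798) (nat_lit 180) (.e (nat_lit 303118) (nat_lit 3) .nil))) (.g (nat_lit 0) (.e (nat_lit 179296) (nat_lit 0) .nil) .nil))))))))))) (.nd (nat_lit 2) (.nd (nat_lit 3) (.nd (nat_lit 4) (.nd (nat_lit 5) (.nd (nat_lit 6) (.nd (nat_lit 7) (.nd (nat_lit 8) (.nd (nat_lit 9) 
(.lf (nat_lit 503811) (.g (nat_lit 2313) (.e (nat_lit 163999) (nat_lit 38) (.e (nat_lit 638998) (nat_lit 8) (.e (nat_lit 172123) (nat_lit 13) (.e (nat_lit 483408) (nat_lit 26) (.e (nat_lit 385091) (nat_lit 49) (.e (nat_lit 778486) (nat_lit 12) .nil)))))) (.g (nat_lit 1) (.e (nat_lit 176409) (nat_lit 0) .nil) .nil))) 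
(.lf (nat_lit 504323) (.g (nat_lit 2004) (.e (nat_lit 164176) (nat_lit 154) (.e (nat_lit 57409) (nat_lit 12) (.e (nat_lit 336456) (nat_lit 34) (.e (nat_lit 483396) (nat_lit 24) (.e (nat_lit 344119) (nat_lit 21) .nil))))) (.g (nat_lit 0) (.e (nat_lit 178554) (nat_lit 0) .nil) .nil)))) (.nd (nat_lit 9) 
(.lf (nat_lit 504067) (.g (nat_lit 730) (.e (nat_lit 164023) (nat_lit 46) (.e (nat_lit 704738) (nat_lit 11) (.e (nat_lit 16396) (nat_lit 0) .nil))) (.g (nat_lit 0) (.e (nat_lit 177393) (nat_lit 0) .nil) .nil))) 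
(.lf (nat_lit 504579) (.g (nat_lit 1834) (.e (nat_lit 164182) (nat_lit 154) (.e (nat_lit 57409) (nat_lit 12) (.e (nat_lit 336456) (nat_lit 34) (.e (nat_lit 483396) (nat_lit 24) (.e (nat_lit 344119) (nat_lit 21) .nil))))) (.g (nat_lit 0) (.e (nat_lit 178872) (nat_lit 0) .nil) .nil))))) (.nd (nat_lit 8) (.nd (nat_lit 9) 
(.lf (nat_lit 503939) (.g (nat_lit 4163) (.e (nat_lit 164019) (nat_lit 45) (.e (nat_lit 696344) (nat_lit 8) (.e (nat_lit 172067) (nat_lit 3) (.e (nat_lit 204868) (nat_lit 29) (.e (nat_lit 360473) (nat_lit 8) (.e (nat_lit 557091) (nat_lit 12) .nil)))))) (.g (nat_lit 1) (.e (nat_lit 177224) (nat_lit 0) .nil) .nil))) 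
(.lf (nat_lit 504451) (.g (nat_lit 1781) (.e (nat_lit 164179) (nat_lit 154) (.e (nat_lit 57406) (nat_lit 12) (.e (nat_lit 336454) (nat_lit 34) (.e (nat_lit 483378) (nat_lit 23) (.e (nat_lit 336028) (nat_lit 3) .nil))))) (.g (nat_lit 0) (.e (nat_lit 178711) (nat_lit 0) .nil) .nil)))) (.nd (nat_lit 9) 
(.lf (nat_lit 504195) (.g (nat_lit 2018) (.e (nat_lit 164096) (nat_lit 86) (.e (nat_lit 532583) (nat_lit 26) (.e (nat_lit 426197) (nat_lit 9) (.e (nat_lit 426562) (nat_lit 33) (.e (nat_lit 385041) (nat_lit 19) (.e (nat_lit 164293) (nat_lit 224) .nil)))))) (.g (nat_lit 1) (.e (nat_lit 177593) (nat_lit 0) .nil) .nil))) 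
(.lf (nat_lit 504707) (.g (nat_lit 1832) (.e (nat_lit 171776) (nat_lit 160) (.e (nat_lit 57372) (nat_lit 2) (.e (nat_lit 90174) (nat_lit 14) (.e (nat_lit 180252) (nat_lit 10) .nil)))) (.g (nat_lit 0) (.e (nat_lit 179065) (nat_lit 0) .nil) .nil)))))) (.nd (nat_lit 7) (.nd (nat_lit 8) (.nd (nat_lit 9) 
(.lf (nat_lit 503875) (.g (nat_lit 2609) (.e (nat_lit 164017) (nat_lit 44) (.e (nat_lit 688138) (nat_lit 5) (.e (nat_lit 3062) (nat_lit 190) (.e (nat_lit 475179) (nat_lit 24) (.e (nat_lit 516176) (nat_lit 14) (.e (nat_lit 466947) (nat_lit 0) (.e (nat_lit 7936) (nat_lit 360) .nil))))))) (.g (nat_lit 1) (.e (nat_lit 177128) (nat_lit 0) .nil) .nil))) 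
(.lf (nat_lit 504387) (.g (nat_lit 2343) (.e (nat_lit 164178) (nat_lit 154) (.e (nat_lit 57406) (nat_lit 12) (.e (nat_lit 336316) (nat_lit 17) (.e (nat_lit 196672) (nat_lit 15) (.e (nat_lit 81925) (nat_lit 11) .nil))))) (.g (nat_lit 0) (.e (nat_lit 178632) (nat_lit 0) .nil) .nil)))) (.nd (nat_lit 9) 
(.lf (nat_lit 504131) (.g (nat_lit 2124) (.e (nat_lit 164092) (nat_lit 82) (.e (nat_lit 500046) (nat_lit 16) (.e (nat_lit 16463) (nat_lit 13) (.e (nat_lit 483333) (nat_lit 0) (.e (nat_lit 7098) (nat_lit 380) (.e (nat_lit 164292) (nat_lit 224) .nil)))))) (.g (nat_lit 1) (.e (nat_lit 177477) (nat_lit 0) .nil) .nil))) 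
(.lf (nat_lit 504643) (.g (nat_lit 2262) (.e (nat_lit 164183) (nat_lit 154) (.e (nat_lit 57379) (nat_lit 3) (.e (nat_lit 98342) (nat_lit 20) (.e (nat_lit 221212) (nat_lit 22) (.e (nat_lit 196669) (nat_lit 14) .nil))))) (.g (nat_lit 0) (.e (nat_lit 178960) (nat_lit 0) .nil) .nil))))) (.nd (nat_lit 8) (.nd (nat_lit 9) 
(.lf (nat_lit 504003) (.g (nat_lit 4854) (.e (nat_lit 164020) (nat_lit 45) (.e (nat_lit 696344) (nat_lit 8) (.e (nat_lit 172067) (nat_lit 3) (.e (nat_lit 204869) (nat_lit 29) (.e (nat_lit 360474) (nat_lit 8) (.e (nat_lit 557088) (nat_lit 12) .nil)))))) (.g (nat_lit 1) (.e (nat_lit 177300) (nat_lit 0) .nil) .nil))) 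
(.lf (nat_lit 504515) (.g (nat_lit 807) (.e (nat_lit 164179) (nat_lit 154) (.e (nat_lit 57417) (nat_lit 12) (.e (nat_lit 336321) (nat_lit 18) .nil))) (.g (nat_lit 0) (.e (nat_lit 178790) (nat_lit 0) .nil) .nil)))) (.nd (nat_lit 9) 
(.lf (nat_lit 504259) (.g (nat_lit 1659) (.e (nat_lit 164112) (nat_lit 118) (.e (nat_lit 794637) (nat_lit 11) (.e (nat_lit 336077) (nat_lit 9) (.e (nat_lit 336438) (nat_lit 31) (.e (nat_lit 458769) (nat_lit 16) (.e (nat_lit 164294) (nat_lit 224) .nil)))))) (.g (nat_lit 1) (.e (nat_lit 177776) (nat_lit 0) .nil) .nil))) 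
(.lf (nat_lit 504771) (.g (nat_lit 1950) (.e (nat_lit 164207) (nat_lit 176) (.e (nat_lit 2819) (nat_lit 181) (.e (nat_lit 311315) (nat_lit 3) (.e (nat_lit 204868) (nat_lit 29) (.e (nat_lit 368384) (nat_lit 1) (.e (nat_lit 499910) (nat_lit 8) .nil)))))) (.g (nat_lit 1) (.e (nat_lit 179172) (nat_lit 0) .nil) .nil))))))) (.nd (nat_lit 6) (.nd (nat_lit 7) (.nd (nat_lit 8) (.nd (nat_lit 9) 
(.lf (nat_lit 503843) (.g (nat_lit 2140) (.e (nat_lit 164049) (nat_lit 55) (.e (nat_lit 778466) (nat_lit 11) (.e (nat_lit 24617) (nat_lit 7) (.e (nat_lit 319533) (nat_lit 16) .nil)))) (.g (nat_lit 0) (.e (nat_lit 176963) (nat_lit 0) .nil) .nil))) 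
(.lf (nat_lit 504355) (.g (nat_lit 2470) (.e (nat_lit 164177) (nat_lit 154) (.e (nat_lit 57406) (nat_lit 12) (.e (nat_lit 336454) (nat_lit 34) (.e (nat_lit 483398) (nat_lit 25) .nil)))) (.g (nat_lit 0) (.e (nat_lit 178595) (nat_lit 0) .nil) .nil)))) (.nd (nat_lit 9) 
(.lf (nat_lit 504099) (.g (nat_lit 1801) (.e (nat_lit 171776) (nat_lit 64) (.e (nat_lit 98372) (nat_lit 29) (.e (nat_lit 450579) (nat_lit 5) (.e (nat_lit 532533) (nat_lit 9) (.e (nat_lit 335999) (nat_lit 1) .nil))))) (.g (nat_lit 0) (.e (nat_lit 177437) (nat_lit 0) .nil) .nil))) 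
(.lf (nat_lit 504611) (.g (nat_lit 1128) (.e (nat_lit 164183) (nat_lit 154) (.e (nat_lit 57374) (nat_lit 2) (.e (nat_lit 90165) (nat_lit 12) (.e (nat_lit 164042) (nat_lit 55) .nil)))) (.g (nat_lit 0) (.e (nat_lit 178915) (nat_lit 0) .nil) .nil))))) (.nd (nat_lit 8) (.nd (nat_lit 9) 
(.lf (nat_lit 503971) (.g (nat_lit 4319) (.e (nat_lit 164020) (nat_lit 45) (.e (nat_lit 696343) (nat_lit 8) (.e (nat_lit 172067) (nat_lit 3) (.e (nat_lit 204868) (nat_lit 29) (.e (nat_lit 360473) (nat_lit 8) (.e (nat_lit 557091) (nat_lit 12) .nil)))))) (.g (nat_lit 1) (.e (nat_lit 177268) (nat_lit 0) .nil) .nil))) 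
(.lf (nat_lit 504483) (.g (nat_lit 1558) (.e (nat_lit 164179) (nat_lit 154) (.e (nat_lit 57407) (nat_lit 12) (.e (nat_lit 336454) (nat_lit 34) (.e (nat_lit 483399) (nat_lit 25) (.e (nat_lit 368677) (nat_lit 21) .nil))))) (.g (nat_lit 0) (.e (nat_lit 178750) (nat_lit 0) .nil) .nil)))) (.nd (nat_lit 9) 
(.lf (nat_lit 504227) (.g (nat_lit 1525) (.e (nat_lit 164110) (nat_lit 116) (.e (nat_lit 778466) (nat_lit 11) (.e (nat_lit 24628) (nat_lit 9) (.e (nat_lit 336438) (nat_lit 31) .nil)))) (.g (nat_lit 0) (.e (nat_lit 177735) (nat_lit 0) .nil) .nil))) 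
(.lf (nat_lit 504739) (.g (nat_lit 2727) (.e (nat_lit 164207) (nat_lit 176) (.e (nat_lit 2798) (nat_lit 180) (.e (nat_lit 303117) (nat_lit 2) (.e (nat_lit 196672) (nat_lit 15) (.e (nat_lit 81953) (nat_lit 22) .nil))))) (.g (nat_lit 0) (.e (nat_lit 179117) (nat_lit 0) .nil) .nil)))))) (.nd (nat_lit 7) (.nd (nat_lit 8) (.nd (nat_lit 9) 
(.lf (nat_lit 503907) (.g (nat_lit 4290) (.e (nat_lit 164018) (nat_lit 45) (.e (nat_lit 696344) (nat_lit 8) (.e (nat_lit 172065) (nat_lit 3) (.e (nat_lit 204855) (nat_lit 26) (.e (nat_lit 336176) (nat_lit 10) (.e (nat_lit 344133) (nat_lit 26) (.e (nat_lit 557091) (nat_lit 12) .nil))))))) (.g (nat_lit 1) (.e (nat_lit 177190) (nat_lit 0) .nil) .nil))) 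
(.lf (nat_lit 504419) (.g (nat_lit 1591) (.e (nat_lit 164179) (nat_lit 154) (.e (nat_lit 57372) (nat_lit 2) (.e (nat_lit 90128) (nat_lit 9) (.e (nat_lit 2706) (nat_lit 170) .nil)))) (.g (nat_lit 0) (.e (nat_lit 178670) (nat_lit 0) .nil) .nil)))) (.nd (nat_lit 9) 
(.lf (nat_lit 504163) (.g (nat_lit 1604) (.e (nat_lit 164096) (nat_lit 86) (.e (nat_lit 532583) (nat_lit 26) (.e (nat_lit 426186) (nat_lit 9) (.e (nat_lit 426562) (nat_lit 33) (.e (nat_lit 385041) (nat_lit 19) (.e (nat_lit 164289) (nat_lit 224) .nil)))))) (.g (nat_lit 1) (.e (nat_lit 177561) (nat_lit 0) .nil) .nil))) 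
(.lf (nat_lit 504675) (.g (nat_lit 962) (.e (nat_lit 164183) (nat_lit 154) (.e (nat_lit 57411) (nat_lit 12) (.e (nat_lit 336316) (nat_lit 17) (.e (nat_lit 196666) (nat_lit 13) .nil)))) (.g (nat_lit 0) (.e (nat_lit 179003) (nat_lit 0) .nil) .nil))))) (.nd (nat_lit 8) (.nd (nat_lit 9) 
(.lf (nat_lit 504035) (.g (nat_lit 7280) (.e (nat_lit 164022) (nat_lit 46) (.e (nat_lit 704629) (nat_lit 9) (.e (nat_lit 442) (nat_lit 33) (.e (nat_lit 434233) (nat_lit 23) (.e (nat_lit 532550) (nat_lit 12) (.e (nat_lit 360475) (nat_lit 8) (.e (nat_lit 557091) (nat_lit 12) .nil))))))) (.g (nat_lit 1) (.e (nat_lit 177341) (nat_lit 0) .nil) .nil))) 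
(.lf (nat_lit 504547) (.g (nat_lit 878) (.e (nat_lit 164182) (nat_lit 154) (.e (nat_lit 57378) (nat_lit 3) (.e (nat_lit 98340) (nat_lit 20) .nil))) (.g (nat_lit 0) (.e (nat_lit 178834) (nat_lit 0) .nil) .nil)))) (.nd (nat_lit 9) 
(.lf (nat_lit 504291) (.g (nat_lit 3738) (.e (nat_lit 164187) (nat_lit 157) (.e (nat_lit 229399) (nat_lit 12) (.e (nat_lit 426125) (nat_lit 2) (.e (nat_lit 196666) (nat_lit 13) (.e (nat_lit 65610) (nat_lit 10) (.e (nat_lit 344129) (nat_lit 26) (.e (nat_lit 557067) (nat_lit 9) (.e (nat_lit 2606) (nat_lit 163) .nil)))))))) (.g (nat_lit 1) (.e (nat_lit 178052) (nat_lit 0) .nil) .nil))) 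
(.lf (nat_lit 504803) (.g (nat_lit 2227) (.e (nat_lit 164209) (nat_lit 176) (.e (nat_lit 2797) (nat_lit 180) (.e (nat_lit 303119) (nat_lit 3) (.e (nat_lit 204867) (nat_lit 28) (.e (nat_lit 352310) (nat_lit 22) .nil))))) (.g (nat_lit 0) (.e (nat_lit 179237) (nat_lit 0) .nil) .nil)))))))) (.nd (nat_lit 5) (.nd (nat_lit 6) (.nd (nat_lit 7) (.nd (nat_lit 8) (.nd (nat_lit 9) 
(.lf (nat_lit 503827) (.g (nat_lit 1464) (.e (nat_lit 164035) (nat_lit 55) (.e (nat_lit 778462) (nat_lit 11) (.e (nat_lit 24604) (nat_lit 2) (.e (nat_lit 90178) (nat_lit 15) (.e (nat_lit 196352) (nat_lit 2) (.e (nat_lit 90165) (nat_lit 12) .nil)))))) (.g (nat_lit 1) (.e (nat_lit 176936) (nat_lit 0) .nil) .nil))) 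
(.lf (nat_lit 504339) (.g (nat_lit 2516) (.e (nat_lit 164177) (nat_lit 154) (.e (nat_lit 57379) (nat_lit 3) (.e (nat_lit 98333) (nat_lit 18) (.e (nat_lit 164325) (nat_lit 230) (.e (nat_lit 163926) (nat_lit 16) .nil))))) (.g (nat_lit 0) (.e (nat_lit 178576) (nat_lit 0) .nil) .nil)))) (.nd (nat_lit 9) 
(.lf (nat_lit 504083) (.g (nat_lit 1315) (.e (nat_lit 171776) (nat_lit 62) (.e (nat_lit 57927) (nat_lit 282) (.e (nat_lit 163941) (nat_lit 19) (.e (nat_lit 483408) (nat_lit 26) .nil)))) (.g (nat_lit 0) (.e (nat_lit 177421) (nat_lit 0) .nil) .nil))) 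
(.lf (nat_lit 504595) (.g (nat_lit 1436) (.e (nat_lit 164182) (nat_lit 154) (.e (nat_lit 57411) (nat_lit 12) (.e (nat_lit 336454) (nat_lit 34) (.e (nat_lit 483379) (nat_lit 23) .nil)))) (.g (nat_lit 0) (.e (nat_lit 178895) (nat_lit 0) .nil) .nil))))) (.nd (nat_lit 8) (.nd (nat_lit 9) 
(.lf (nat_lit 503955) (.g (nat_lit 4293) (.e (nat_lit 164020) (nat_lit 45) (.e (nat_lit 696329) (nat_lit 5) (.e (nat_lit 2884) (nat_lit 184) (.e (nat_lit 426140) (nat_lit 3) (.e (nat_lit 204868) (nat_lit 29) (.e (nat_lit 360474) (nat_lit 8) (.e (nat_lit 557091) (nat_lit 12) .nil))))))) (.g (nat_lit 1) (.e (nat_lit 177240) (nat_lit 0) .nil) .nil))) 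
(.lf (nat_lit 504467) (.g (nat_lit 1828) (.e (nat_lit 164179) (nat_lit 154) (.e (nat_lit 57406) (nat_lit 12) (.e (nat_lit 336456) (nat_lit 34) (.e (nat_lit 483386) (nat_lit 23) .nil)))) (.g (nat_lit 0) (.e (nat_lit 178727) (nat_lit 0) .nil) .nil)))) (.nd (nat_lit 9) 
(.lf (nat_lit 504211) (.g (nat_lit 2114) (.e (nat_lit 171776) (nat_lit 86) (.e (nat_lit 532513) (nat_lit 3) (.e (nat_lit 114714) (nat_lit 22) (.e (nat_lit 90170) (nat_lit 13) (.e (nat_lit 172067) (nat_lit 3) .nil))))) (.g (nat_lit 0) (.e (nat_lit 177649) (nat_lit 0) .nil) .nil))) 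
(.lf (nat_lit 504723) (.g (nat_lit 3268) (.e (nat_lit 164207) (nat_lit 176) (.e (nat_lit 2797) (nat_lit 180) (.e (nat_lit 303117) (nat_lit 2) (.e (nat_lit 196666) (nat_lit 13) (.e (nat_lit 65604) (nat_lit 9) .nil))))) (.g (nat_lit 0) (.e (nat_lit 179087) (nat_lit 0) .nil) .nil)))))) (.nd (nat_lit 7) (.nd (nat_lit 8) (.nd (nat_lit 9) 
(.lf (nat_lit 503891) (.g (nat_lit 3059) (.e (nat_lit 164018) (nat_lit 45) (.e (nat_lit 696343) (nat_lit 8) (.e (nat_lit 172064) (nat_lit 2) (.e (nat_lit 196666) (nat_lit 13) (.e (nat_lit 65617) (nat_lit 10) (.e (nat_lit 344127) (nat_lit 26) (.e (nat_lit 557088) (nat_lit 12) .nil))))))) (.g (nat_lit 1) (.e (nat_lit 177167) (nat_lit 0) .nil) .nil))) 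
(.lf (nat_lit 504403) (.g (nat_lit 1678) (.e (nat_lit 164178) (nat_lit 154) (.e (nat_lit 57407) (nat_lit 12) (.e (nat_lit 336456) (nat_lit 34) (.e (nat_lit 483396) (nat_lit 24) .nil)))) (.g (nat_lit 0) (.e (nat_lit 178652) (nat_lit 0) .nil) .nil)))) (.nd (nat_lit 9) 
(.lf (nat_lit 504147) (.g (nat_lit 2531) (.e (nat_lit 164092) (nat_lit 82) (.e (nat_lit 500046) (nat_lit 16) (.e (nat_lit 16466) (nat_lit 13) (.e (nat_lit 483333) (nat_lit 0) (.e (nat_lit 7098) (nat_lit 380) (.e (nat_lit 164294) (nat_lit 224) .nil)))))) (.g (nat_lit 1) (.e (nat_lit 177494) (nat_lit 0) .nil) .nil))) 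
(.lf (nat_lit 504659) (.g (nat_lit 985) (.e (nat_lit 164183) (nat_lit 154) (.e (nat_lit 57409) (nat_lit 12) (.e (nat_lit 336377) (nat_lit 27) .nil))) (.g (nat_lit 0) (.e (nat_lit 178978) (nat_lit 0) .nil) .nil))))) (.nd (nat_lit 8) (.nd (nat_lit 9) 
(.lf (nat_lit 504019) (.g (nat_lit 3841) (.e (nat_lit 164020) (nat_lit 45) (.e (nat_lit 696344) (nat_lit 8) (.e (nat_lit 172082) (nat_lit 7) (.e (nat_lit 409649) (nat_lit 18) (.e (nat_lit 303140) (nat_lit 10) (.e (nat_lit 434275) (nat_lit 39) (.e (nat_lit 663584) (nat_lit 12) .nil))))))) (.g (nat_lit 1) (.e (nat_lit 177316) (nat_lit 0) .nil) .nil))) 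
(.lf (nat_lit 504531) (.g (nat_lit 584) (.e (nat_lit 164181) (nat_lit 154) (.e (nat_lit 57379) (nat_lit 3) (.e (nat_lit 98341) (nat_lit 20) .nil))) (.g (nat_lit 0) (.e (nat_lit 178812) (nat_lit 0) .nil) .nil)))) (.nd (nat_lit 9) 
(.lf (nat_lit 504275) (.g (nat_lit 1460) (.e (nat_lit 164112) (nat_lit 118) (.e (nat_lit 794637) (nat_lit 11) (.e (nat_lit 336088) (nat_lit 9) (.e (nat_lit 336421) (nat_lit 28) (.e (nat_lit 434197) (nat_lit 16) (.e (nat_lit 164293) (nat_lit 224) .nil)))))) (.g (nat_lit 1) (.e (nat_lit 177792) (nat_lit 0) .nil) .nil))) 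
(.lf (nat_lit 504787) (.g (nat_lit 1972) (.e (nat_lit 164208) (nat_lit 176) (.e (nat_lit 2819) (nat_lit 181) (.e (nat_lit 311315) (nat_lit 3) (.e (nat_lit 204868) (nat_lit 29) (.e (nat_lit 360459) (nat_lit 1) (.e (nat_lit 499910) (nat_lit 8) .nil)))))) (.g (nat_lit 1) (.e (nat_lit 179197) (nat_lit 0) .nil) .nil))))))) (.nd (nat_lit 6) (.nd (nat_lit 7) (.nd (nat_lit 8) (.nd (nat_lit 9) 
(.lf (nat_lit 503859) (.g (nat_lit 1928) (.e (nat_lit 164061) (nat_lit 57) (.e (nat_lit 794673) (nat_lit 23) (.e (nat_lit 204883) (nat_lit 33) (.e (nat_lit 401459) (nat_lit 13) (.e (nat_lit 483370) (nat_lit 20) (.e (nat_lit 147498) (nat_lit 12) .nil)))))) (.g (nat_lit 1) (.e (nat_lit 177087) (nat_lit 0) .nil) .nil))) 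
(.lf (nat_lit 504371) (.g (nat_lit 2534) (.e (nat_lit 164177) (nat_lit 154) (.e (nat_lit 57411) (nat_lit 12) (.e (nat_lit 336456) (nat_lit 34) (.e (nat_lit 483383) (nat_lit 23) (.e (nat_lit 336019) (nat_lit 3) .nil))))) (.g (nat_lit 0) (.e (nat_lit 178614) (nat_lit 0) .nil) .nil)))) (.nd (nat_lit 9) 
(.lf (nat_lit 504115) (.g (nat_lit 1880) (.e (nat_lit 171776) (nat_lit 64) (.e (nat_lit 98382) (nat_lit 31) (.e (nat_lit 466974) (nat_lit 22) (.e (nat_lit 196681) (nat_lit 17) (.e (nat_lit 131088) (nat_lit 1) .nil))))) (.g (nat_lit 0) (.e (nat_lit 177453) (nat_lit 0) .nil) .nil))) 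
(.lf (nat_lit 504627) (.g (nat_lit 1919) (.e (nat_lit 164183) (nat_lit 154) (.e (nat_lit 57378) (nat_lit 3) (.e (nat_lit 98341) (nat_lit 20) (.e (nat_lit 221212) (nat_lit 22) (.e (nat_lit 196669) (nat_lit 14) .nil))))) (.g (nat_lit 0) (.e (nat_lit 178941) (nat_lit 0) .nil) .nil))))) (.nd (nat_lit 8) (.nd (nat_lit 9) 
(.lf (nat_lit 503987) (.g (nat_lit 4084) (.e (nat_lit 164020) (nat_lit 45) (.e (nat_lit 696344) (nat_lit 8) (.e (nat_lit 172065) (nat_lit 3) (.e (nat_lit 204868) (nat_lit 29) (.e (nat_lit 360473) (nat_lit 8) (.e (nat_lit 557090) (nat_lit 12) .nil)))))) (.g (nat_lit 1) (.e (nat_lit 177284) (nat_lit 0) .nil) .nil))) 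
(.lf (nat_lit 504499) (.g (nat_lit 1619) (.e (nat_lit 164179) (nat_lit 154) (.e (nat_lit 57409) (nat_lit 12) (.e (nat_lit 336325) (nat_lit 18) (.e (nat_lit 204865) (nat_lit 28) (.e (nat_lit 352277) (nat_lit 11) .nil))))) (.g (nat_lit 0) (.e (nat_lit 178770) (nat_lit 0) .nil) .nil)))) (.nd (nat_lit 9) 
(.lf (nat_lit 504243) (.g (nat_lit 1081) (.e (nat_lit 164112) (nat_lit 118) (.e (nat_lit 794635) (nat_lit 11) (.e (nat_lit 336154) (nat_lit 9) (.e (nat_lit 336437) (nat_lit 31) (.e (nat_lit 458769) (nat_lit 16) (.e (nat_lit 164286) (nat_lit 224) .nil)))))) (.g (nat_lit 1) (.e (nat_lit 177760) (nat_lit 0) .nil) .nil))) 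
(.lf (nat_lit 504755) (.g (nat_lit 2058) (.e (nat_lit 164207) (nat_lit 176) (.e (nat_lit 2809) (nat_lit 180) (.e (nat_lit 303117) (nat_lit 2) (.e (nat_lit 196674) (nat_lit 15) .nil)))) (.g (nat_lit 0) (.e (nat_lit 179148) (nat_lit 0) .nil) .nil)))))) (.nd (nat_lit 7) (.nd (nat_lit 8) (.nd (nat_lit 9) 
(.lf (nat_lit 503923) (.g (nat_lit 3840) (.e (nat_lit 164018) (nat_lit 45) (.e (nat_lit 696344) (nat_lit 8) (.e (nat_lit 172082) (nat_lit 7) (.e (nat_lit 409646) (nat_lit 18) (.e (nat_lit 303137) (nat_lit 10) (.e (nat_lit 434275) (nat_lit 39) (.e (nat_lit 663585) (nat_lit 12) .nil))))))) (.g (nat_lit 1) (.e (nat_lit 177206) (nat_lit 0) .nil) .nil))) 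
(.lf (nat_lit 504435) (.g (nat_lit 1000) (.e (nat_lit 164179) (nat_lit 154) (.e (nat_lit 57378) (nat_lit 3) (.e (nat_lit 98319) (nat_lit 17) .nil))) (.g (nat_lit 0) (.e (nat_lit 178689) (nat_lit 0) .nil) .nil)))) (.nd (nat_lit 9) 
(.lf (nat_lit 504179) (.g (nat_lit 1913) (.e (nat_lit 164096) (nat_lit 86) (.e (nat_lit 532583) (nat_lit 26) (.e (nat_lit 426189) (nat_lit 9) (.e (nat_lit 426562) (nat_lit 33) (.e (nat_lit 385041) (nat_lit 19) (.e (nat_lit 164294) (nat_lit 224) .nil)))))) (.g (nat_lit 1) (.e (nat_lit 177577) (nat_lit 0) .nil) .nil))) 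
(.lf (nat_lit 504691) (.g (nat_lit 1859) (.e (nat_lit 164183) (nat_lit 154) (.e (nat_lit 57411) (nat_lit 12) (.e (nat_lit 336454) (nat_lit 34) (.e (nat_lit 483396) (nat_lit 24) (.e (nat_lit 344119) (nat_lit 21) .nil))))) (.g (nat_lit 0) (.e (nat_lit 179027) (nat_lit 0) .nil) .nil))))) (.nd (nat_lit 8) (.nd (nat_lit 9) 
(.lf (nat_lit 504051) (.g (nat_lit 3843) (.e (nat_lit 164022) (nat_lit 46) (.e (nat_lit 704738) (nat_lit 11) (.e (nat_lit 16416) (nat_lit 3) (.e (nat_lit 204866) (nat_lit 28) (.e (nat_lit 352299) (nat_lit 20) .nil))))) (.g (nat_lit 0) (.e (nat_lit 177366) (nat_lit 0) .nil) .nil))) 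
(.lf (nat_lit 504563) (.g (nat_lit 662) (.e (nat_lit 164182) (nat_lit 154) (.e (nat_lit 57379) (nat_lit 3) (.e (nat_lit 98340) (nat_lit 20) .nil))) (.g (nat_lit 0) (.e (nat_lit 178853) (nat_lit 0) .nil) .nil)))) (.nd (nat_lit 9) 
(.lf (nat_lit 504307) (.g (nat_lit 2206) (.e (nat_lit 164176) (nat_lit 154) (.e (nat_lit 57378) (nat_lit 3) (.e (nat_lit 98342) (nat_lit 20) (.e (nat_lit 221210) (nat_lit 22) (.e (nat_lit 196666) (nat_lit 13) .nil))))) (.g (nat_lit 0) (.e (nat_lit 178537) (nat_lit 0) .nil) .nil))) 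
(.lf (nat_lit 504819) (.g (nat_lit 3512) (.e (nat_lit 164210) (nat_lit 176) (.e (nat_lit 2797) (nat_lit 180) (.e (nat_lit 303119) (nat_lit 3) (.e (nat_lit 204868) (nat_lit 29) (.e (nat_lit 368384) (nat_lit 1) .nil))))) (.g (nat_lit 0) (.e (nat_lit 179284) (nat_lit 0) .nil) .nil))))))))) (.nd (nat_lit 4) (.nd (nat_lit 5) (.nd (nat_lit 6) (.nd (nat_lit 7) (.nd (nat_lit 8) (.nd (nat_lit 9) 
(.lf (nat_lit 503819) (.g (nat_lit 896) (.e (nat_lit 164000) (nat_lit 38) (.e (nat_lit 638998) (nat_lit 8) (.e (nat_lit 172123) (nat_lit 13) (.e (nat_lit 483405) (nat_lit 26) .nil)))) (.g (nat_lit 0) (.e (nat_lit 176418) (nat_lit 0) .nil) .nil))) 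
(.lf (nat_lit 504331) (.g (nat_lit 1506) (.e (nat_lit 164177) (nat_lit 154) (.e (nat_lit 57371) (nat_lit 2) (.e (nat_lit 90128) (nat_lit 9) (.e (nat_lit 2706) (nat_lit 170) .nil)))) (.g (nat_lit 0) (.e (nat_lit 178563) (nat_lit 0) .nil) .nil)))) (.nd (nat_lit 9) 
(.lf (nat_lit 504075) (.g (nat_lit 1740) (.e (nat_lit 171776) (nat_lit 48) (.e (nat_lit 720909) (nat_lit 11) (.e (nat_lit 426124) (nat_lit 2) (.e (nat_lit 196674) (nat_lit 15) (.e (nat_lit 81944) (nat_lit 20) .nil))))) (.g (nat_lit 0) (.e (nat_lit 177408) (nat_lit 0) .nil) .nil))) 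
(.lf (nat_lit 504587) (.g (nat_lit 1545) (.e (nat_lit 164182) (nat_lit 154) (.e (nat_lit 57411) (nat_lit 12) (.e (nat_lit 336324) (nat_lit 18) (.e (nat_lit 204867) (nat_lit 28) .nil)))) (.g (nat_lit 0) (.e (nat_lit 178885) (nat_lit 0) .nil) .nil))))) (.nd (nat_lit 8) (.nd (nat_lit 9) 
(.lf (nat_lit 503947) (.g (nat_lit 3170) (.e (nat_lit 164019) (nat_lit 45) (.e (nat_lit 696348) (nat_lit 12) (.e (nat_lit 237592) (nat_lit 3) (.e (nat_lit 204869) (nat_lit 29) (.e (nat_lit 360474) (nat_lit 8) (.e (nat_lit 557091) (nat_lit 12) .nil)))))) (.g (nat_lit 1) (.e (nat_lit 177232) (nat_lit 0) .nil) .nil))) 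
(.lf (nat_lit 504459) (.g (nat_lit 2511) (.e (nat_lit 164179) (nat_lit 154) (.e (nat_lit 57406) (nat_lit 12) (.e (nat_lit 336454) (nat_lit 34) (.e (nat_lit 483395) (nat_lit 24) .nil)))) (.g (nat_lit 0) (.e (nat_lit 178719) (nat_lit 0) .nil) .nil)))) (.nd (nat_lit 9) 
(.lf (nat_lit 504203) (.g (nat_lit 2411) (.e (nat_lit 164096) (nat_lit 86) (.e (nat_lit 532583) (nat_lit 26) (.e (nat_lit 426199) (nat_lit 9) (.e (nat_lit 426562) (nat_lit 33) (.e (nat_lit 385041) (nat_lit 19) (.e (nat_lit 164291) (nat_lit 224) .nil)))))) (.g (nat_lit 1) (.e (nat_lit 177601) (nat_lit 0) .nil) .nil))) 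
(.lf (nat_lit 504715) (.g (nat_lit 1931) (.e (nat_lit 171776) (nat_lit 160) (.e (nat_lit 57379) (nat_lit 3) (.e (nat_lit 98366) (nat_lit 27) (.e (nat_lit 434245) (nat_lit 28) (.e (nat_lit 573481) (nat_lit 13) .nil))))) (.g (nat_lit 0) (.e (nat_lit 179075) (nat_lit 0) .nil) .nil)))))) (.nd (nat_lit 7) (.nd (nat_lit 8) (.nd (nat_lit 9) 
(.lf (nat_lit 503883) (.g (nat_lit 2947) (.e (nat_lit 164017) (nat_lit 44) (.e (nat_lit 688139) (nat_lit 5) (.e (nat_lit 3085) (nat_lit 191) (.e (nat_lit 483337) (nat_lit 9) (.e (nat_lit 426213) (nat_lit 9) (.e (nat_lit 426125) (nat_lit 2) (.e (nat_lit 204544) (nat_lit 3) .nil))))))) (.g (nat_lit 1) (.e (nat_lit 177136) (nat_lit 0) .nil) .nil))) 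
(.lf (nat_lit 504395) (.g (nat_lit 1685) (.e (nat_lit 164178) (nat_lit 154) (.e (nat_lit 57407) (nat_lit 12) (.e (nat_lit 336316) (nat_lit 17) (.e (nat_lit 196674) (nat_lit 15) .nil)))) (.g (nat_lit 0) (.e (nat_lit 178641) (nat_lit 0) .nil) .nil)))) (.nd (nat_lit 9) 
(.lf (nat_lit 504139) (.g (nat_lit 964) (.e (nat_lit 164092) (nat_lit 82) (.e (nat_lit 500046) (nat_lit 16) (.e (nat_lit 16463) (nat_lit 13) (.e (nat_lit 491264) (nat_lit 0) .nil)))) (.g (nat_lit 0) (.e (nat_lit 177485) (nat_lit 0) .nil) .nil))) 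
(.lf (nat_lit 504651) (.g (nat_lit 2178) (.e (nat_lit 164183) (nat_lit 154) (.e (nat_lit 57409) (nat_lit 12) (.e (nat_lit 336324) (nat_lit 18) (.e (nat_lit 204866) (nat_lit 28) (.e (nat_lit 352278) (nat_lit 11) .nil))))) (.g (nat_lit 0) (.e (nat_lit 178968) (nat_lit 0) .nil) .nil))))) (.nd (nat_lit 8) (.nd (nat_lit 9) 
(.lf (nat_lit 504011) (.g (nat_lit 3602) (.e (nat_lit 164020) (nat_lit 45) (.e (nat_lit 696344) (nat_lit 8) (.e (nat_lit 172078) (nat_lit 7) (.e (nat_lit 409649) (nat_lit 18) (.e (nat_lit 303140) (nat_lit 10) (.e (nat_lit 434275) (nat_lit 39) (.e (nat_lit 663584) (nat_lit 12) .nil))))))) (.g (nat_lit 1) (.e (nat_lit 177308) (nat_lit 0) .nil) .nil))) 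
(.lf (nat_lit 504523) (.g (nat_lit 1524) (.e (nat_lit 164180) (nat_lit 154) (.e (nat_lit 57379) (nat_lit 3) (.e (nat_lit 98342) (nat_lit 20) (.e (nat_lit 221210) (nat_lit 22) .nil)))) (.g (nat_lit 0) (.e (nat_lit 178800) (nat_lit 0) .nil) .nil)))) (.nd (nat_lit 9) 
(.lf (nat_lit 504267) (.g (nat_lit 1955) (.e (nat_lit 164112) (nat_lit 118) (.e (nat_lit 794637) (nat_lit 11) (.e (nat_lit 336087) (nat_lit 9) (.e (nat_lit 336438) (nat_lit 31) (.e (nat_lit 458769) (nat_lit 16) (.e (nat_lit 164287) (nat_lit 224) .nil)))))) (.g (nat_lit 1) (.e (nat_lit 177784) (nat_lit 0) .nil) .nil))) 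
(.lf (nat_lit 504779) (.g (nat_lit 2190) (.e (nat_lit 164208) (nat_lit 176) (.e (nat_lit 2810) (nat_lit 180) (.e (nat_lit 303119) (nat_lit 3) (.e (nat_lit 204868) (nat_lit 29) (.e (nat_lit 368384) (nat_lit 1) .nil))))) (.g (nat_lit 0) (.e (nat_lit 179186) (nat_lit 0) .nil) .nil))))))) (.nd (nat_lit 6) (.nd (nat_lit 7) (.nd (nat_lit 8) (.nd (nat_lit 9) 
(.lf (nat_lit 503851) (.g (nat_lit 2976) (.e (nat_lit 164050) (nat_lit 55) (.e (nat_lit 778466) (nat_lit 11) (.e (nat_lit 24617) (nat_lit 7) (.e (nat_lit 319533) (nat_lit 16) (.e (nat_lit 286753) (nat_lit 10) (.e (nat_lit 344168) (nat_lit 40) (.e (nat_lit 671782) (nat_lit 12) .nil))))))) (.g (nat_lit 1) (.e (nat_lit 176973) (nat_lit 0) .nil) .nil))) 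
(.lf (nat_lit 504363) (.g (nat_lit 2190) (.e (nat_lit 164177) (nat_lit 154) (.e (nat_lit 57407) (nat_lit 12) (.e (nat_lit 336454) (nat_lit 34) (.e (nat_lit 483394) (nat_lit 24) .nil)))) (.g (nat_lit 0) (.e (nat_lit 178605) (nat_lit 0) .nil) .nil)))) (.nd (nat_lit 9) 
(.lf (nat_lit 504107) (.g (nat_lit 1957) (.e (nat_lit 171776) (nat_lit 64) (.e (nat_lit 98380) (nat_lit 31) (.e (nat_lit 466977) (nat_lit 22) (.e (nat_lit 196681) (nat_lit 17) (.e (nat_lit 131086) (nat_lit 1) .nil))))) (.g (nat_lit 0) (.e (nat_lit 177445) (nat_lit 0) .nil) .nil))) 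
(.lf (nat_lit 504619) (.g (nat_lit 912) (.e (nat_lit 164183) (nat_lit 154) (.e (nat_lit 57378) (nat_lit 3) (.e (nat_lit 98318) (nat_lit 17) .nil))) (.g (nat_lit 0) (.e (nat_lit 178926) (nat_lit 0) .nil) .nil))))) (.nd (nat_lit 8) (.nd (nat_lit 9) 
(.lf (nat_lit 503979) (.g (nat_lit 2848) (.e (nat_lit 164020) (nat_lit 45) (.e (nat_lit 696343) (nat_lit 8) (.e (nat_lit 172082) (nat_lit 7) (.e (nat_lit 409646) (nat_lit 18) (.e (nat_lit 303137) (nat_lit 10) (.e (nat_lit 434275) (nat_lit 39) (.e (nat_lit 663584) (nat_lit 12) .nil))))))) (.g (nat_lit 1) (.e (nat_lit 177276) (nat_lit 0) .nil) .nil))) 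
(.lf (nat_lit 504491) (.g (nat_lit 1560) (.e (nat_lit 164179) (nat_lit 154) (.e (nat_lit 57408) (nat_lit 12) (.e (nat_lit 336454) (nat_lit 34) (.e (nat_lit 483382) (nat_lit 23) .nil)))) (.g (nat_lit 0) (.e (nat_lit 178759) (nat_lit 0) .nil) .nil)))) (.nd (nat_lit 9) 
(.lf (nat_lit 504235) (.g (nat_lit 1072) (.e (nat_lit 164112) (nat_lit 118) (.e (nat_lit 794635) (nat_lit 11) (.e (nat_lit 336153) (nat_lit 9) (.e (nat_lit 336437) (nat_lit 31) (.e (nat_lit 458769) (nat_lit 16) (.e (nat_lit 164286) (nat_lit 224) .nil)))))) (.g (nat_lit 1) (.e (nat_lit 177752) (nat_lit 0) .nil) .nil))) 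
(.lf (nat_lit 504747) (.g (nat_lit 1084) (.e (nat_lit 164207) (nat_lit 176) (.e (nat_lit 2804) (nat_lit 180) (.e (nat_lit 303119) (nat_lit 3) (.e (nat_lit 204877) (nat_lit 31) .nil)))) (.g (nat_lit 0) (.e (nat_lit 179138) (nat_lit 0) .nil) .nil)))))) (.nd (nat_lit 7) (.nd (nat_lit 8) (.nd (nat_lit 9) 
(.lf (nat_lit 503915) (.g (nat_lit 2321) (.e (nat_lit 164018) (nat_lit 45) (.e (nat_lit 696344) (nat_lit 8) (.e (nat_lit 172067) (nat_lit 3) (.e (nat_lit 204870) (nat_lit 29) (.e (nat_lit 360473) (nat_lit 8) .nil))))) (.g (nat_lit 0) (.e (nat_lit 177198) (nat_lit 0) .nil) .nil))) 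
(.lf (nat_lit 504427) (.g (nat_lit 710) (.e (nat_lit 164179) (nat_lit 154) (.e (nat_lit 57377) (nat_lit 3) (.e (nat_lit 98341) (nat_lit 20) .nil))) (.g (nat_lit 0) (.e (nat_lit 178681) (nat_lit 0) .nil) .nil)))) (.nd (nat_lit 9) 
(.lf (nat_lit 504171) (.g (nat_lit 2268) (.e (nat_lit 164096) (nat_lit 86) (.e (nat_lit 532583) (nat_lit 26) (.e (nat_lit 426188) (nat_lit 9) (.e (nat_lit 426562) (nat_lit 33) (.e (nat_lit 385041) (nat_lit 19) (.e (nat_lit 164294) (nat_lit 224) .nil)))))) (.g (nat_lit 1) (.e (nat_lit 177569) (nat_lit 0) .nil) .nil))) 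
(.lf (nat_lit 504683) (.g (nat_lit 572) (.e (nat_lit 164183) (nat_lit 154) (.e (nat_lit 57411) (nat_lit 12) (.e (nat_lit 336325) (nat_lit 18) .nil))) (.g (nat_lit 0) (.e (nat_lit 179013) (nat_lit 0) .nil) .nil))))) (.nd (nat_lit 8) (.nd (nat_lit 9) 
(.lf (nat_lit 504043) (.g (nat_lit 2534) (.e (nat_lit 164022) (nat_lit 46) (.e (nat_lit 704736) (nat_lit 11) (.e (nat_lit 16416) (nat_lit 3) (.e (nat_lit 204868) (nat_lit 29) (.e (nat_lit 360474) (nat_lit 8) .nil))))) (.g (nat_lit 0) (.e (nat_lit 177352) (nat_lit 0) .nil) .nil))) 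
(.lf (nat_lit 504555) (.g (nat_lit 2098) (.e (nat_lit 164182) (nat_lit 154) (.e (nat_lit 57378) (nat_lit 3) (.e (nat_lit 98342) (nat_lit 20) (.e (nat_lit 221210) (nat_lit 22) (.e (nat_lit 196681) (nat_lit 17) .nil))))) (.g (nat_lit 0) (.e (nat_lit 178842) (nat_lit 0) .nil) .nil)))) (.nd (nat_lit 9) 
(.lf (nat_lit 504299) (.g (nat_lit 1994) (.e (nat_lit 164190) (nat_lit 157) (.e (nat_lit 229409) (nat_lit 13) (.e (nat_lit 434245) (nat_lit 28) (.e (nat_lit 573451) (nat_lit 9) (.e (nat_lit 1401) (nat_lit 106) .nil))))) (.g (nat_lit 0) (.e (nat_lit 178391) (nat_lit 0) .nil) .nil))) 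
(.lf (nat_lit 504811) (.g (nat_lit 1705) (.e (nat_lit 164209) (nat_lit 176) (.e (nat_lit 2797) (nat_lit 180) (.e (nat_lit 303119) (nat_lit 3) (.e (nat_lit 204877) (nat_lit 31) .nil)))) (.g (nat_lit 0) (.e (nat_lit 179247) (nat_lit 0) .nil) .nil)))))))) (.nd (nat_lit 5) (.nd (nat_lit 6) (.nd (nat_lit 7) (.nd (nat_lit 8) (.nd (nat_lit 9) 
(.lf (nat_lit 503835) (.g (nat_lit 2188) (.e (nat_lit 164046) (nat_lit 55) (.e (nat_lit 778460) (nat_lit 11) (.e (nat_lit 24628) (nat_lit 9) (.e (nat_lit 336443) (nat_lit 32) (.e (nat_lit 466972) (nat_lit 21) .nil))))) (.g (nat_lit 0) (.e (nat_lit 176949) (nat_lit 0) .nil) .nil))) 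
(.lf (nat_lit 504347) (.g (nat_lit 488) (.e (nat_lit 164177) (nat_lit 154) (.e (nat_lit 57389) (nat_lit 5) (.e (nat_lit 122624) (nat_lit 17) .nil))) (.g (nat_lit 0) (.e (nat_lit 178586) (nat_lit 0) .nil) .nil)))) (.nd (nat_lit 9) 
(.lf (nat_lit 504091) (.g (nat_lit 3019) (.e (nat_lit 171776) (nat_lit 64) (.e (nat_lit 98365) (nat_lit 26) (.e (nat_lit 426116) (nat_lit 2) (.e (nat_lit 196654) (nat_lit 11) (.e (nat_lit 16417) (nat_lit 3) .nil))))) (.g (nat_lit 0) (.e (nat_lit 177429) (nat_lit 0) .nil) .nil))) 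
(.lf (nat_lit 504603) (.g (nat_lit 3090) (.e (nat_lit 164183) (nat_lit 154) (.e (nat_lit 57368) (nat_lit 1) (.e (nat_lit 57854) (nat_lit 252) (.e (nat_lit 57409) (nat_lit 12) (.e (nat_lit 336000) (nat_lit 1) (.e (nat_lit 57687) (nat_lit 156) (.e (nat_lit 163933) (nat_lit 17) (.e (nat_lit 466972) (nat_lit 21) .nil)))))))) (.g (nat_lit 1) (.e (nat_lit 178905) (nat_lit 0) .nil) .nil))))) 
(.nd (nat_lit 8) (.nd (nat_lit 9) 
(.lf (nat_lit 503963) (.g (nat_lit 4495) (.e (nat_lit 164020) (nat_lit 45) (.e (nat_lit 696330) (nat_lit 5) (.e (nat_lit 2964) (nat_lit 185) (.e (nat_lit 434231) (nat_lit 23) (.e (nat_lit 532550) (nat_lit 12) (.e (nat_lit 360475) (nat_lit 8) (.e (nat_lit 557091) (nat_lit 12) .nil))))))) (.g (nat_lit 1) (.e (nat_lit 177252) (nat_lit 0) .nil) .nil))) 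
(.lf (nat_lit 504475) (.g (nat_lit 1328) (.e (nat_lit 164179) (nat_lit 154) (.e (nat_lit 57407) (nat_lit 12) (.e (nat_lit 336325) (nat_lit 18) (.e (nat_lit 204876) (nat_lit 31) (.e (nat_lit 376842) (nat_lit 11) .nil))))) (.g (nat_lit 0) (.e (nat_lit 178741) (nat_lit 0) .nil) .nil)))) (.nd (nat_lit 9) 
(.lf (nat_lit 504219) (.g (nat_lit 1046) (.e (nat_lit 164104) (nat_lit 116) (.e (nat_lit 778462) (nat_lit 11) (.e (nat_lit 24604) (nat_lit 2) (.e (nat_lit 90178) (nat_lit 15) (.e (nat_lit 188442) (nat_lit 20) .nil))))) (.g (nat_lit 0) (.e (nat_lit 177699) (nat_lit 0) .nil) .nil))) 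
(.lf (nat_lit 504731) (.g (nat_lit 3498) (.e (nat_lit 164207) (nat_lit 176) (.e (nat_lit 2797) (nat_lit 180) (.e (nat_lit 303119) (nat_lit 3) (.e (nat_lit 204868) (nat_lit 29) (.e (nat_lit 368384) (nat_lit 1) .nil))))) (.g (nat_lit 0) (.e (nat_lit 179108) (nat_lit 0) .nil) .nil)))))) (.nd (nat_lit 7) (.nd (nat_lit 8) (.nd (nat_lit 9) 
(.lf (nat_lit 503899) (.g (nat_lit 3677) (.e (nat_lit 164018) (nat_lit 45) (.e (nat_lit 696344) (nat_lit 8) (.e (nat_lit 172062) (nat_lit 2) (.e (nat_lit 196666) (nat_lit 13) (.e (nat_lit 65617) (nat_lit 10) (.e (nat_lit 344132) (nat_lit 26) (.e (nat_lit 557094) (nat_lit 12) .nil))))))) (.g (nat_lit 1) (.e (nat_lit 177182) (nat_lit 0) .nil) .nil))) 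
(.lf (nat_lit 504411) (.g (nat_lit 2660) (.e (nat_lit 164178) (nat_lit 154) (.e (nat_lit 57411) (nat_lit 12) (.e (nat_lit 336316) (nat_lit 17) (.e (nat_lit 196681) (nat_lit 17) (.e (nat_lit 131127) (nat_lit 13) .nil))))) (.g (nat_lit 0) (.e (nat_lit 178660) (nat_lit 0) .nil) .nil)))) (.nd (nat_lit 9) 
(.lf (nat_lit 504155) (.g (nat_lit 1216) (.e (nat_lit 164092) (nat_lit 82) (.e (nat_lit 500046) (nat_lit 16) (.e (nat_lit 16466) (nat_lit 13) (.e (nat_lit 491264) (nat_lit 0) .nil)))) (.g (nat_lit 0) (.e (nat_lit 177502) (nat_lit 0) .nil) .nil))) 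
(.lf (nat_lit 504667) (.g (nat_lit 1757) (.e (nat_lit 164183) (nat_lit 154) (.e (nat_lit 57409) (nat_lit 12) (.e (nat_lit 336456) (nat_lit 34) (.e (nat_lit 483397) (nat_lit 25) .nil)))) (.g (nat_lit 0) (.e (nat_lit 178990) (nat_lit 0) .nil) .nil))))) (.nd (nat_lit 8) (.nd (nat_lit 9) 
(.lf (nat_lit 504027) (.g (nat_lit 2883) (.e (nat_lit 164022) (nat_lit 46) (.e (nat_lit 704629) (nat_lit 9) (.e (nat_lit 375) (nat_lit 32) (.e (nat_lit 426125) (nat_lit 2) (.e (nat_lit 196630) (nat_lit 9) (.e (nat_lit 1580) (nat_lit 111) (.e (nat_lit 360473) (nat_lit 8) (.e (nat_lit 557091) (nat_lit 12) .nil)))))))) (.g (nat_lit 1) (.e (nat_lit 177333) (nat_lit 0) .nil) .nil))) 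
(.lf (nat_lit 504539) (.g (nat_lit 2584) (.e (nat_lit 164182) (nat_lit 154) (.e (nat_lit 57368) (nat_lit 1) (.e (nat_lit 57854) (nat_lit 252) (.e (nat_lit 57409) (nat_lit 12) (.e (nat_lit 336000) (nat_lit 1) .nil))))) (.g (nat_lit 0) (.e (nat_lit 178820) (nat_lit 0) .nil) .nil)))) (.nd (nat_lit 9) 
(.lf (nat_lit 504283) (.g (nat_lit 2604) (.e (nat_lit 164147) (nat_lit 152) (.e (nat_lit 1211) (nat_lit 89) (.e (nat_lit 73755) (nat_lit 8) (.e (nat_lit 557067) (nat_lit 9) (.e (nat_lit 3096) (nat_lit 192) .nil))))) (.g (nat_lit 0) (.e (nat_lit 177871) (nat_lit 0) .nil) .nil))) 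
(.lf (nat_lit 504795) (.g (nat_lit 4051) (.e (nat_lit 164209) (nat_lit 176) (.e (nat_lit 2797) (nat_lit 180) (.e (nat_lit 303117) (nat_lit 2) (.e (nat_lit 196672) (nat_lit 15) (.e (nat_lit 81951) (nat_lit 22) (.e (nat_lit 90165) (nat_lit 12) .nil)))))) (.g (nat_lit 1) (.e (nat_lit 179217) (nat_lit 0) .nil) .nil))))))) (.nd (nat_lit 6) (.nd (nat_lit 7) (.nd (nat_lit 8) (.nd (nat_lit 9) 
(.lf (nat_lit 503867) (.g (nat_lit 3165) (.e (nat_lit 164016) (nat_lit 44) (.e (nat_lit 688139) (nat_lit 5) (.e (nat_lit 2887) (nat_lit 184) (.e (nat_lit 426140) (nat_lit 3) (.e (nat_lit 204869) (nat_lit 29) (.e (nat_lit 360474) (nat_lit 8) (.e (nat_lit 557094) (nat_lit 12) .nil))))))) (.g (nat_lit 1) (.e (nat_lit 177102) (nat_lit 0) .nil) .nil))) 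
(.lf (nat_lit 504379) (.g (nat_lit 2599) (.e (nat_lit 164178) (nat_lit 154) (.e (nat_lit 57378) (nat_lit 3) (.e (nat_lit 98333) (nat_lit 18) (.e (nat_lit 164325) (nat_lit 230) (.e (nat_lit 163906) (nat_lit 12) .nil))))) (.g (nat_lit 0) (.e (nat_lit 178623) (nat_lit 0) .nil) .nil)))) (.nd (nat_lit 9) 
(.lf (nat_lit 504123) (.g (nat_lit 3320) (.e (nat_lit 164083) (nat_lit 73) (.e (nat_lit 336204) (nat_lit 12) (.e (nat_lit 385074) (nat_lit 31) (.e (nat_lit 573484) (nat_lit 13) .nil)))) (.g (nat_lit 0) (.e (nat_lit 177461) (nat_lit 0) .nil) .nil))) 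
(.lf (nat_lit 504635) (.g (nat_lit 2556) (.e (nat_lit 164183) (nat_lit 154) (.e (nat_lit 57379) (nat_lit 3) (.e (nat_lit 98334) (nat_lit 18) (.e (nat_lit 164332) (nat_lit 230) (.e (nat_lit 163926) (nat_lit 16) .nil))))) (.g (nat_lit 0) (.e (nat_lit 178952) (nat_lit 0) .nil) .nil))))) (.nd (nat_lit 8) (.nd (nat_lit 9) 
(.lf (nat_lit 503995) (.g (nat_lit 3078) (.e (nat_lit 164020) (nat_lit 45) (.e (nat_lit 696344) (nat_lit 8) (.e (nat_lit 172067) (nat_lit 3) (.e (nat_lit 204852) (nat_lit 26) (.e (nat_lit 336162) (nat_lit 10) (.e (nat_lit 344131) (nat_lit 26) (.e (nat_lit 557090) (nat_lit 12) .nil))))))) (.g (nat_lit 1) (.e (nat_lit 177292) (nat_lit 0) .nil) .nil))) 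
(.lf (nat_lit 504507) (.g (nat_lit 849) (.e (nat_lit 164179) (nat_lit 154) (.e (nat_lit 57411) (nat_lit 12) (.e (nat_lit 343808) (nat_lit 17) .nil))) (.g (nat_lit 0) (.e (nat_lit 178779) (nat_lit 0) .nil) .nil)))) (.nd (nat_lit 9) 
(.lf (nat_lit 504251) (.g (nat_lit 1027) (.e (nat_lit 164112) (nat_lit 118) (.e (nat_lit 794637) (nat_lit 11) (.e (nat_lit 336074) (nat_lit 9) (.e (nat_lit 336438) (nat_lit 31) (.e (nat_lit 458769) (nat_lit 16) (.e (nat_lit 164293) (nat_lit 224) .nil)))))) (.g (nat_lit 1) (.e (nat_lit 177768) (nat_lit 0) .nil) .nil))) 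
(.lf (nat_lit 504763) (.g (nat_lit 1329) (.e (nat_lit 164207) (nat_lit 176) (.e (nat_lit 2810) (nat_lit 180) (.e (nat_lit 303119) (nat_lit 3) (.e (nat_lit 204865) (nat_lit 28) .nil)))) (.g (nat_lit 0) (.e (nat_lit 179160) (nat_lit 0) .nil) .nil)))))) (.nd (nat_lit 7) (.nd (nat_lit 8) (.nd (nat_lit 9) 
(.lf (nat_lit 503931) (.g (nat_lit 4596) (.e (nat_lit 164019) (nat_lit 45) (.e (nat_lit 696344) (nat_lit 8) (.e (nat_lit 172062) (nat_lit 2) (.e (nat_lit 196666) (nat_lit 13) (.e (nat_lit 65610) (nat_lit 10) (.e (nat_lit 344129) (nat_lit 26) (.e (nat_lit 557090) (nat_lit 12) .nil))))))) (.g (nat_lit 1) (.e (nat_lit 177216) (nat_lit 0) .nil) .nil))) 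
(.lf (nat_lit 504443) (.g (nat_lit 630) (.e (nat_lit 164179) (nat_lit 154) (.e (nat_lit 57378) (nat_lit 3) (.e (nat_lit 98342) (nat_lit 20) .nil))) (.g (nat_lit 0) (.e (nat_lit 178699) (nat_lit 0) .nil) .nil)))) (.nd (nat_lit 9) 
(.lf (nat_lit 504187) (.g (nat_lit 1562) (.e (nat_lit 164096) (nat_lit 86) (.e (nat_lit 532583) (nat_lit 26) (.e (nat_lit 426196) (nat_lit 9) (.e (nat_lit 426562) (nat_lit 33) (.e (nat_lit 385041) (nat_lit 19) (.e (nat_lit 164293) (nat_lit 224) .nil)))))) (.g (nat_lit 1) (.e (nat_lit 177585) (nat_lit 0) .nil) .nil))) 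
(.lf (nat_lit 504699) (.g (nat_lit 1214) (.e (nat_lit 164196) (nat_lit 158) (.e (nat_lit 1209) (nat_lit 89) (.e (nat_lit 73789) (nat_lit 45) (.e (nat_lit 1117) (nat_lit 82) .nil)))) (.g (nat_lit 0) (.e (nat_lit 179044) (nat_lit 0) .nil) .nil))))) (.nd (nat_lit 8) (.nd (nat_lit 9) 
(.lf (nat_lit 504059) (.g (nat_lit 2229) (.e (nat_lit 164023) (nat_lit 46) (.e (nat_lit 704735) (nat_lit 11) (.e (nat_lit 16468) (nat_lit 13) (.e (nat_lit 483372) (nat_lit 21) (.e (nat_lit 319504) (nat_lit 10) (.e (nat_lit 7936) (nat_lit 315) .nil)))))) (.g (nat_lit 1) (.e (nat_lit 177385) (nat_lit 0) .nil) .nil))) 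
(.lf (nat_lit 504571) (.g (nat_lit 1333) (.e (nat_lit 164182) (nat_lit 154) (.e (nat_lit 57409) (nat_lit 12) (.e (nat_lit 336325) (nat_lit 18) (.e (nat_lit 204877) (nat_lit 31) (.e (nat_lit 376842) (nat_lit 11) .nil))))) (.g (nat_lit 0) (.e (nat_lit 178862) (nat_lit 0) .nil) .nil)))) (.nd (nat_lit 9) 
(.lf (nat_lit 504315) (.g (nat_lit 181) (.e (nat_lit 164176) (nat_lit 154) (.e (nat_lit 57390) (nat_lit 5) (.e (nat_lit 122624) (nat_lit 17) .nil))) (.g (nat_lit 0) (.e (nat_lit 178545) (nat_lit 0) .nil) .nil))) 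
(.lf (nat_lit 504827) (.g (nat_lit 2385) (.e (nat_lit 164210) (nat_lit 176) (.e (nat_lit 2798) (nat_lit 180) (.e (nat_lit 303117) (nat_lit 2) (.e (nat_lit 196673) (nat_lit 15) (.e (nat_lit 81951) (nat_lit 22) .nil))))) (.g (nat_lit 0) (.e (nat_lit 179294) (nat_lit 0) .nil) .nil)))))))))) 
(.nd (nat_lit 3) (.nd (nat_lit 4) (.nd (nat_lit 5) (.nd (nat_lit 6) (.nd (nat_lit 7) 
(.nd (nat_lit 8) (.nd (nat_lit 9) 
(.lf (nat_lit 503815) (.g (nat_lit 3475) (.e (nat_lit 164000) (nat_lit 38) (.e (nat_lit 639020) (nat_lit 16) (.e (nat_lit 65627) (nat_lit 13) (.e (nat_lit 393282) (nat_lit 24) (.e (nat_lit 434275) (nat_lit 39) (.e (nat_lit 663584) (nat_lit 12) .nil)))))) (.g (nat_lit 1) (.e (nat_lit 176414) (nat_lit 0) .nil) .nil))) 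
(.lf (nat_lit 504327) (.g (nat_lit 1593) (.e (nat_lit 164176) (nat_lit 154) (.e (nat_lit 57411) (nat_lit 12) (.e (nat_lit 336456) (nat_lit 34) (.e (nat_lit 483391) (nat_lit 23) .nil)))) (.g (nat_lit 0) (.e (nat_lit 178558) (nat_lit 0) .nil) .nil)))) (.nd (nat_lit 9) 
(.lf (nat_lit 504071) (.g (nat_lit 1520) (.e (nat_lit 164023) (nat_lit 46) (.e (nat_lit 704738) (nat_lit 11) (.e (nat_lit 16425) (nat_lit 7) (.e (nat_lit 409649) (nat_lit 18) (.e (nat_lit 303140) (nat_lit 10) .nil))))) (.g (nat_lit 0) (.e (nat_lit 177398) (nat_lit 0) .nil) .nil))) 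
(.lf (nat_lit 504583) (.g (nat_lit 770) (.e (nat_lit 164182) (nat_lit 154) (.e (nat_lit 57411) (nat_lit 12) (.e (nat_lit 336320) (nat_lit 17) .nil))) (.g (nat_lit 0) (.e (nat_lit 178881) (nat_lit 0) .nil) .nil))))) (.nd (nat_lit 8) (.nd (nat_lit 9) 
(.lf (nat_lit 503943) (.g (nat_lit 2254) (.e (nat_lit 164019) (nat_lit 45) (.e (nat_lit 696344) (nat_lit 8) (.e (nat_lit 172079) (nat_lit 7) (.e (nat_lit 409645) (nat_lit 18) (.e (nat_lit 303140) (nat_lit 10) (.e (nat_lit 434275) (nat_lit 39) (.e (nat_lit 663584) (nat_lit 12) .nil))))))) (.g (nat_lit 1) (.e (nat_lit 177228) (nat_lit 0) .nil) .nil))) 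
(.lf (nat_lit 504455) (.g (nat_lit 2591) (.e (nat_lit 164179) (nat_lit 154) (.e (nat_lit 57406) (nat_lit 12) (.e (nat_lit 336454) (nat_lit 34) (.e (nat_lit 483387) (nat_lit 23) .nil)))) (.g (nat_lit 0) (.e (nat_lit 178715) (nat_lit 0) .nil) .nil)))) (.nd (nat_lit 9) 
(.lf (nat_lit 504199) (.g (nat_lit 2400) (.e (nat_lit 164096) (nat_lit 86) (.e (nat_lit 532583) (nat_lit 26) (.e (nat_lit 426199) (nat_lit 9) (.e (nat_lit 426562) (nat_lit 33) (.e (nat_lit 385041) (nat_lit 19) (.e (nat_lit 164286) (nat_lit 224) .nil)))))) (.g (nat_lit 1) (.e (nat_lit 177597) (nat_lit 0) .nil) .nil))) 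
(.lf (nat_lit 504711) (.g (nat_lit 2587) (.e (nat_lit 171776) (nat_lit 160) (.e (nat_lit 57375) (nat_lit 2) (.e (nat_lit 90174) (nat_lit 14) (.e (nat_lit 180251) (nat_lit 10) (.e (nat_lit 573487) (nat_lit 14) .nil))))) (.g (nat_lit 0) (.e (nat_lit 179069) (nat_lit 0) .nil) .nil)))))) (.nd (nat_lit 7) (.nd (nat_lit 8) (.nd (nat_lit 9) 
(.lf (nat_lit 503879) (.g (nat_lit 777) (.e (nat_lit 164017) (nat_lit 44) (.e (nat_lit 688138) (nat_lit 5) (.e (nat_lit 3085) (nat_lit 191) (.e (nat_lit 491264) (nat_lit 11) .nil)))) (.g (nat_lit 0) (.e (nat_lit 177132) (nat_lit 0) .nil) .nil))) 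
(.lf (nat_lit 504391) (.g (nat_lit 1730) (.e (nat_lit 164178) (nat_lit 154) (.e (nat_lit 57406) (nat_lit 12) (.e (nat_lit 336456) (nat_lit 34) (.e (nat_lit 483391) (nat_lit 23) (.e (nat_lit 336017) (nat_lit 3) .nil))))) (.g (nat_lit 0) (.e (nat_lit 178637) (nat_lit 0) .nil) .nil)))) (.nd (nat_lit 9) 
(.lf (nat_lit 504135) (.g (nat_lit 1951) (.e (nat_lit 164092) (nat_lit 82) (.e (nat_lit 500046) (nat_lit 16) (.e (nat_lit 16463) (nat_lit 13) (.e (nat_lit 483333) (nat_lit 0) (.e (nat_lit 7106) (nat_lit 380) (.e (nat_lit 164291) (nat_lit 224) .nil)))))) (.g (nat_lit 1) (.e (nat_lit 177481) (nat_lit 0) .nil) .nil))) 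
(.lf (nat_lit 504647) (.g (nat_lit 618) (.e (nat_lit 164183) (nat_lit 154) (.e (nat_lit 57409) (nat_lit 12) (.e (nat_lit 336240) (nat_lit 15) .nil))) (.g (nat_lit 0) (.e (nat_lit 178964) (nat_lit 0) .nil) .nil))))) (.nd (nat_lit 8) (.nd (nat_lit 9) 
(.lf (nat_lit 504007) (.g (nat_lit 1886) (.e (nat_lit 164020) (nat_lit 45) (.e (nat_lit 696344) (nat_lit 8) (.e (nat_lit 172067) (nat_lit 3) (.e (nat_lit 204876) (nat_lit 31) .nil)))) (.g (nat_lit 0) (.e (nat_lit 177304) (nat_lit 0) .nil) .nil))) 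
(.lf (nat_lit 504519) (.g (nat_lit 1692) (.e (nat_lit 164179) (nat_lit 154) (.e (nat_lit 57436) (nat_lit 17) (.e (nat_lit 376842) (nat_lit 11) (.e (nat_lit 426181) (nat_lit 8) .nil)))) (.g (nat_lit 0) (.e (nat_lit 178795) (nat_lit 0) .nil) .nil)))) (.nd (nat_lit 9) 
(.lf (nat_lit 504263) (.g (nat_lit 1586) (.e (nat_lit 164112) (nat_lit 118) (.e (nat_lit 794637) (nat_lit 11) (.e (nat_lit 336086) (nat_lit 9) (.e (nat_lit 336421) (nat_lit 28) (.e (nat_lit 434197) (nat_lit 16) (.e (nat_lit 164288) (nat_lit 224) .nil)))))) (.g (nat_lit 1) (.e (nat_lit 177780) (nat_lit 0) .nil) .nil))) 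
(.lf (nat_lit 504775) (.g (nat_lit 3693) (.e (nat_lit 164208) (nat_lit 176) (.e (nat_lit 2810) (nat_lit 180) (.e (nat_lit 303117) (nat_lit 2) (.e (nat_lit 196666) (nat_lit 13) (.e (nat_lit 65604) (nat_lit 9) .nil))))) (.g (nat_lit 0) (.e (nat_lit 179181) (nat_lit 0) .nil) .nil))))))) (.nd (nat_lit 6) (.nd (nat_lit 7) (.nd (nat_lit 8) (.nd (nat_lit 9) 
(.lf (nat_lit 503847) (.g (nat_lit 1934) (.e (nat_lit 164050) (nat_lit 55) (.e (nat_lit 778464) (nat_lit 11) (.e (nat_lit 24617) (nat_lit 7) (.e (nat_lit 319533) (nat_lit 16) (.e (nat_lit 286752) (nat_lit 10) .nil))))) (.g (nat_lit 0) (.e (nat_lit 176968) (nat_lit 0) .nil) .nil))) 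
(.lf (nat_lit 504359) (.g (nat_lit 1679) (.e (nat_lit 164177) (nat_lit 154) (.e (nat_lit 57406) (nat_lit 12) (.e (nat_lit 336456) (nat_lit 34) (.e (nat_lit 483395) (nat_lit 24) (.e (nat_lit 344120) (nat_lit 21) .nil))))) (.g (nat_lit 0) (.e (nat_lit 178599) (nat_lit 0) .nil) .nil)))) (.nd (nat_lit 9) 
(.lf (nat_lit 504103) (.g (nat_lit 1841) (.e (nat_lit 171776) (nat_lit 64) (.e (nat_lit 98372) (nat_lit 29) (.e (nat_lit 450579) (nat_lit 5) (.e (nat_lit 532542) (nat_lit 9) .nil)))) (.g (nat_lit 0) (.e (nat_lit 177441) (nat_lit 0) .nil) .nil))) 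
(.lf (nat_lit 504615) (.g (nat_lit 2443) (.e (nat_lit 164183) (nat_lit 154) (.e (nat_lit 57375) (nat_lit 2) (.e (nat_lit 90160) (nat_lit 11) (.e (nat_lit 24664) (nat_lit 14) .nil)))) (.g (nat_lit 0) (.e (nat_lit 178920) (nat_lit 0) .nil) .nil))))) (.nd (nat_lit 8) (.nd (nat_lit 9) 
(.lf (nat_lit 503975) (.g (nat_lit 4791) (.e (nat_lit 164020) (nat_lit 45) (.e (nat_lit 696343) (nat_lit 8) (.e (nat_lit 172067) (nat_lit 3) (.e (nat_lit 204869) (nat_lit 29) (.e (nat_lit 360475) (nat_lit 8) (.e (nat_lit 557091) (nat_lit 12) .nil)))))) (.g (nat_lit 1) (.e (nat_lit 177272) (nat_lit 0) .nil) .nil))) 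
(.lf (nat_lit 504487) (.g (nat_lit 2002) (.e (nat_lit 164179) (nat_lit 154) (.e (nat_lit 57407) (nat_lit 12) (.e (nat_lit 336456) (nat_lit 34) (.e (nat_lit 483350) (nat_lit 17) (.e (nat_lit 6490) (nat_lit 343) .nil))))) (.g (nat_lit 0) (.e (nat_lit 178754) (nat_lit 0) .nil) .nil)))) (.nd (nat_lit 9) 
(.lf (nat_lit 504231) (.g (nat_lit 648) (.e (nat_lit 164112) (nat_lit 118) (.e (nat_lit 794635) (nat_lit 11) (.e (nat_lit 336151) (nat_lit 9) (.e (nat_lit 336437) (nat_lit 31) (.e (nat_lit 458769) (nat_lit 16) (.e (nat_lit 164287) (nat_lit 224) .nil)))))) (.g (nat_lit 1) (.e (nat_lit 177748) (nat_lit 0) .nil) .nil))) 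
(.lf (nat_lit 504743) (.g (nat_lit 2407) (.e (nat_lit 164207) (nat_lit 176) (.e (nat_lit 2798) (nat_lit 180) (.e (nat_lit 303119) (nat_lit 3) (.e (nat_lit 204877) (nat_lit 31) (.e (nat_lit 376864) (nat_lit 22) .nil))))) (.g (nat_lit 0) (.e (nat_lit 179133) (nat_lit 0) .nil) .nil)))))) (.nd (nat_lit 7) (.nd (nat_lit 8) (.nd (nat_lit 9) 
(.lf (nat_lit 503911) (.g (nat_lit 3606) (.e (nat_lit 164018) (nat_lit 45) (.e (nat_lit 696344) (nat_lit 8) (.e (nat_lit 172067) (nat_lit 3) (.e (nat_lit 204855) (nat_lit 26) (.e (nat_lit 336176) (nat_lit 10) (.e (nat_lit 344132) (nat_lit 26) (.e (nat_lit 557094) (nat_lit 12) .nil))))))) (.g (nat_lit 1) (.e (nat_lit 177194) (nat_lit 0) .nil) .nil))) 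
(.lf (nat_lit 504423) (.g (nat_lit 712) (.e (nat_lit 164179) (nat_lit 154) (.e (nat_lit 57373) (nat_lit 2) (.e (nat_lit 90181) (nat_lit 16) .nil))) (.g (nat_lit 0) (.e (nat_lit 178677) (nat_lit 0) .nil) .nil)))) (.nd (nat_lit 9) 
(.lf (nat_lit 504167) (.g (nat_lit 1159) (.e (nat_lit 164096) (nat_lit 86) (.e (nat_lit 532583) (nat_lit 26) (.e (nat_lit 426187) (nat_lit 9) (.e (nat_lit 426562) (nat_lit 33) .nil)))) (.g (nat_lit 0) (.e (nat_lit 177565) (nat_lit 0) .nil) .nil))) 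
(.lf (nat_lit 504679) (.g (nat_lit 1461) (.e (nat_lit 164183) (nat_lit 154) (.e (nat_lit 57411) (nat_lit 12) (.e (nat_lit 336320) (nat_lit 17) (.e (nat_lit 196679) (nat_lit 17) .nil)))) (.g (nat_lit 0) (.e (nat_lit 179008) (nat_lit 0) .nil) .nil))))) (.nd (nat_lit 8) (.nd (nat_lit 9) 
(.lf (nat_lit 504039) (.g (nat_lit 4196) (.e (nat_lit 164022) (nat_lit 46) (.e (nat_lit 704629) (nat_lit 9) (.e (nat_lit 452) (nat_lit 33) (.e (nat_lit 434231) (nat_lit 23) (.e (nat_lit 532550) (nat_lit 12) (.e (nat_lit 360474) (nat_lit 8) (.e (nat_lit 557094) (nat_lit 12) .nil))))))) (.g (nat_lit 1) (.e (nat_lit 177345) (nat_lit 0) .nil) .nil))) 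
(.lf (nat_lit 504551) (.g (nat_lit 1401) (.e (nat_lit 164182) (nat_lit 154) (.e (nat_lit 57378) (nat_lit 3) (.e (nat_lit 98341) (nat_lit 20) (.e (nat_lit 221212) (nat_lit 22) .nil)))) (.g (nat_lit 0) (.e (nat_lit 178838) (nat_lit 0) .nil) .nil)))) (.nd (nat_lit 9) 
(.lf (nat_lit 504295) (.g (nat_lit 3357) (.e (nat_lit 164189) (nat_lit 157) (.e (nat_lit 229399) (nat_lit 12) (.e (nat_lit 426125) (nat_lit 2) (.e (nat_lit 196666) (nat_lit 13) (.e (nat_lit 65610) (nat_lit 10) (.e (nat_lit 344129) (nat_lit 26) (.e (nat_lit 557067) (nat_lit 9) (.e (nat_lit 2598) (nat_lit 163) .nil)))))))) (.g (nat_lit 1) (.e (nat_lit 178260) (nat_lit 0) .nil) .nil))) 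
(.lf (nat_lit 504807) (.g (nat_lit 3365) (.e (nat_lit 164209) (nat_lit 176) (.e (nat_lit 2797) (nat_lit 180) (.e (nat_lit 303119) (nat_lit 3) (.e (nat_lit 204869) (nat_lit 29) (.e (nat_lit 360461) (nat_lit 1) .nil))))) (.g (nat_lit 0) (.e (nat_lit 179241) (nat_lit 0) .nil) .nil)))))))) (.nd (nat_lit 5) (.nd (nat_lit 6) (.nd (nat_lit 7) (.nd (nat_lit 8) (.nd (nat_lit 9) 
(.lf (nat_lit 503831) (.g (nat_lit 1987) (.e (nat_lit 164043) (nat_lit 55) (.e (nat_lit 778460) (nat_lit 11) (.e (nat_lit 24604) (nat_lit 2) (.e (nat_lit 90185) (nat_lit 17) (.e (nat_lit 237605) (nat_lit 9) .nil))))) (.g (nat_lit 0) (.e (nat_lit 176945) (nat_lit 0) .nil) .nil))) 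
(.lf (nat_lit 504343) (.g (nat_lit 1337) (.e (nat_lit 164177) (nat_lit 154) (.e (nat_lit 57379) (nat_lit 3) (.e (nat_lit 98341) (nat_lit 20) (.e (nat_lit 221212) (nat_lit 22) .nil)))) (.g (nat_lit 0) (.e (nat_lit 178582) (nat_lit 0) .nil) .nil)))) (.nd (nat_lit 9) 
(.lf (nat_lit 504087) (.g (nat_lit 2321) (.e (nat_lit 171776) (nat_lit 63) (.e (nat_lit 90170) (nat_lit 13) (.e (nat_lit 172106) (nat_lit 10) (.e (nat_lit 434231) (nat_lit 23) (.e (nat_lit 532535) (nat_lit 9) .nil))))) (.g (nat_lit 0) (.e (nat_lit 177425) (nat_lit 0) .nil) .nil))) 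
(.lf (nat_lit 504599) (.g (nat_lit 807) (.e (nat_lit 164182) (nat_lit 154) (.e (nat_lit 57417) (nat_lit 12) (.e (nat_lit 336321) (nat_lit 18) .nil))) (.g (nat_lit 0) (.e (nat_lit 178900) (nat_lit 0) .nil) .nil))))) (.nd (nat_lit 8) (.nd (nat_lit 9) 
(.lf (nat_lit 503959) (.g (nat_lit 4170) (.e (nat_lit 164020) (nat_lit 45) (.e (nat_lit 696329) (nat_lit 5) (.e (nat_lit 2964) (nat_lit 185) (.e (nat_lit 434231) (nat_lit 23) (.e (nat_lit 532550) (nat_lit 12) (.e (nat_lit 360475) (nat_lit 8) (.e (nat_lit 557090) (nat_lit 12) .nil))))))) (.g (nat_lit 1) (.e (nat_lit 177244) (nat_lit 0) .nil) .nil))) 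
(.lf (nat_lit 504471) (.g (nat_lit 2046) (.e (nat_lit 164179) (nat_lit 154) (.e (nat_lit 57407) (nat_lit 12) (.e (nat_lit 336316) (nat_lit 17) (.e (nat_lit 196666) (nat_lit 13) (.e (nat_lit 65626) (nat_lit 13) .nil))))) (.g (nat_lit 0) (.e (nat_lit 178735) (nat_lit 0) .nil) .nil)))) (.nd (nat_lit 9) 
(.lf (nat_lit 504215) (.g (nat_lit 885) (.e (nat_lit 171776) (nat_lit 84) (.e (nat_lit 516166) (nat_lit 12) (.e (nat_lit 450587) (nat_lit 10) (.e (nat_lit 573469) (nat_lit 11) .nil)))) (.g (nat_lit 0) (.e (nat_lit 177660) (nat_lit 0) .nil) .nil))) 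
(.lf (nat_lit 504727) (.g (nat_lit 3371) (.e (nat_lit 164207) (nat_lit 176) (.e (nat_lit 2797) (nat_lit 180) (.e (nat_lit 303119) (nat_lit 3) (.e (nat_lit 204855) (nat_lit 26) (.e (nat_lit 336111) (nat_lit 9) .nil))))) (.g (nat_lit 0) (.e (nat_lit 179100) (nat_lit 0) .nil) .nil)))))) (.nd (nat_lit 7) (.nd (nat_lit 8) (.nd (nat_lit 9) 
(.lf (nat_lit 503895) (.g (nat_lit 4444) (.e (nat_lit 164018) (nat_lit 45) (.e (nat_lit 696343) (nat_lit 8) (.e (nat_lit 172067) (nat_lit 3) (.e (nat_lit 204855) (nat_lit 26) (.e (nat_lit 336176) (nat_lit 10) (.e (nat_lit 344133) (nat_lit 26) (.e (nat_lit 557091) (nat_lit 12) .nil))))))) (.g (nat_lit 1) (.e (nat_lit 177171) (nat_lit 0) .nil) .nil))) 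
(.lf (nat_lit 504407) (.g (nat_lit 2237) (.e (nat_lit 164178) (nat_lit 154) (.e (nat_lit 57409) (nat_lit 12) (.e (nat_lit 336456) (nat_lit 34) (.e (nat_lit 483383) (nat_lit 23) (.e (nat_lit 336019) (nat_lit 3) .nil))))) (.g (nat_lit 0) (.e (nat_lit 178656) (nat_lit 0) .nil) .nil)))) (.nd (nat_lit 9) 
(.lf (nat_lit 504151) (.g (nat_lit 2377) (.e (nat_lit 164092) (nat_lit 82) (.e (nat_lit 500046) (nat_lit 16) (.e (nat_lit 16466) (nat_lit 13) (.e (nat_lit 483333) (nat_lit 0) (.e (nat_lit 7106) (nat_lit 380) (.e (nat_lit 164291) (nat_lit 224) .nil)))))) (.g (nat_lit 1) (.e (nat_lit 177498) (nat_lit 0) .nil) .nil))) 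
(.lf (nat_lit 504663) (.g (nat_lit 1505) (.e (nat_lit 164183) (nat_lit 154) (.e (nat_lit 57409) (nat_lit 12) (.e (nat_lit 336454) (nat_lit 34) (.e (nat_lit 483385) (nat_lit 23) (.e (nat_lit 343808) (nat_lit 3) .nil))))) (.g (nat_lit 0) (.e (nat_lit 178984) (nat_lit 0) .nil) .nil))))) (.nd (nat_lit 8) (.nd (nat_lit 9) 
(.lf (nat_lit 504023) (.g (nat_lit 1086) (.e (nat_lit 164022) (nat_lit 46) (.e (nat_lit 704628) (nat_lit 9) (.e (nat_lit 442) (nat_lit 33) (.e (nat_lit 434233) (nat_lit 23) .nil)))) (.g (nat_lit 0) (.e (nat_lit 177328) (nat_lit 0) .nil) .nil))) 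
(.lf (nat_lit 504535) (.g (nat_lit 1856) (.e (nat_lit 164181) (nat_lit 154) (.e (nat_lit 57411) (nat_lit 12) (.e (nat_lit 336316) (nat_lit 17) (.e (nat_lit 196674) (nat_lit 15) .nil)))) (.g (nat_lit 0) (.e (nat_lit 178816) (nat_lit 0) .nil) .nil)))) (.nd (nat_lit 9) 
(.lf (nat_lit 504279) (.g (nat_lit 1160) (.e (nat_lit 171776) (nat_lit 136) (.e (nat_lit 57406) (nat_lit 12) (.e (nat_lit 336326) (nat_lit 18) (.e (nat_lit 204863) (nat_lit 27) .nil)))) (.g (nat_lit 0) (.e (nat_lit 177866) (nat_lit 0) .nil) .nil))) 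
(.lf (nat_lit 504791) (.g (nat_lit 1780) (.e (nat_lit 164209) (nat_lit 176) (.e (nat_lit 2797) (nat_lit 180) (.e (nat_lit 303117) (nat_lit 2) (.e (nat_lit 196665) (nat_lit 13) (.e (nat_lit 65598) (nat_lit 9) .nil))))) (.g (nat_lit 0) (.e (nat_lit 179213) (nat_lit 0) .nil) .nil))))))) (.nd (nat_lit 6) (.nd (nat_lit 7) (.nd (nat_lit 8) (.nd (nat_lit 9) 
(.lf (nat_lit 503863) (.g (nat_lit 4168) (.e (nat_lit 164016) (nat_lit 44) (.e (nat_lit 688138) (nat_lit 5) (.e (nat_lit 2887) (nat_lit 184) (.e (nat_lit 426140) (nat_lit 3) (.e (nat_lit 204855) (nat_lit 26) (.e (nat_lit 336176) (nat_lit 10) (.e (nat_lit 344130) (nat_lit 26) (.e (nat_lit 557090) (nat_lit 12) .nil)))))))) (.g (nat_lit 1) (.e (nat_lit 177094) (nat_lit 0) .nil) .nil))) 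
(.lf (nat_lit 504375) (.g (nat_lit 2917) (.e (nat_lit 164178) (nat_lit 154) (.e (nat_lit 57377) (nat_lit 3) (.e (nat_lit 98333) (nat_lit 18) (.e (nat_lit 164325) (nat_lit 230) (.e (nat_lit 163928) (nat_lit 16) .nil))))) (.g (nat_lit 0) (.e (nat_lit 178619) (nat_lit 0) .nil) .nil)))) (.nd (nat_lit 9) 
(.lf (nat_lit 504119) (.g (nat_lit 1406) (.e (nat_lit 171776) (nat_lit 66) (.e (nat_lit 114698) (nat_lit 11) (.e (nat_lit 426308) (nat_lit 12) (.e (nat_lit 475214) (nat_lit 42) .nil)))) (.g (nat_lit 0) (.e (nat_lit 177457) (nat_lit 0) .nil) .nil))) 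
(.lf (nat_lit 504631) (.g (nat_lit 1485) (.e (nat_lit 164183) (nat_lit 154) (.e (nat_lit 57379) (nat_lit 3) (.e (nat_lit 98321) (nat_lit 17) (.e (nat_lit 3771) (nat_lit 229) .nil)))) (.g (nat_lit 0) (.e (nat_lit 178945) (nat_lit 0) .nil) .nil))))) (.nd (nat_lit 8) (.nd (nat_lit 9) 
(.lf (nat_lit 503991) (.g (nat_lit 4591) (.e (nat_lit 164020) (nat_lit 45) (.e (nat_lit 696344) (nat_lit 8) (.e (nat_lit 172065) (nat_lit 3) (.e (nat_lit 204869) (nat_lit 29) (.e (nat_lit 360474) (nat_lit 8) (.e (nat_lit 557088) (nat_lit 12) .nil)))))) (.g (nat_lit 1) (.e (nat_lit 177288) (nat_lit 0) .nil) .nil))) 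
(.lf (nat_lit 504503) (.g (nat_lit 2093) (.e (nat_lit 164179) (nat_lit 154) (.e (nat_lit 57409) (nat_lit 12) (.e (nat_lit 336454) (nat_lit 34) (.e (nat_lit 483397) (nat_lit 25) .nil)))) (.g (nat_lit 0) (.e (nat_lit 178774) (nat_lit 0) .nil) .nil)))) (.nd (nat_lit 9) 
(.lf (nat_lit 504247) (.g (nat_lit 999) (.e (nat_lit 164112) (nat_lit 118) (.e (nat_lit 794637) (nat_lit 11) (.e (nat_lit 336074) (nat_lit 9) (.e (nat_lit 336438) (nat_lit 31) (.e (nat_lit 458769) (nat_lit 16) (.e (nat_lit 164288) (nat_lit 224) .nil)))))) (.g (nat_lit 1) (.e (nat_lit 177764) (nat_lit 0) .nil) .nil))) 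
(.lf (nat_lit 504759) (.g (nat_lit 1125) (.e (nat_lit 164207) (nat_lit 176) (.e (nat_lit 2810) (nat_lit 180) (.e (nat_lit 303117) (nat_lit 2) (.e (nat_lit 196674) (nat_lit 15) .nil)))) (.g (nat_lit 0) (.e (nat_lit 179156) (nat_lit 0) .nil) .nil)))))) (.nd (nat_lit 7) (.nd (nat_lit 8) (.nd (nat_lit 9) 
(.lf (nat_lit 503927) (.g (nat_lit 3856) (.e (nat_lit 164018) (nat_lit 45) (.e (nat_lit 696344) (nat_lit 8) (.e (nat_lit 172082) (nat_lit 7) (.e (nat_lit 409649) (nat_lit 18) (.e (nat_lit 303140) (nat_lit 10) (.e (nat_lit 434275) (nat_lit 39) (.e (nat_lit 663585) (nat_lit 12) .nil))))))) (.g (nat_lit 1) (.e (nat_lit 177210) (nat_lit 0) .nil) .nil))) 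
(.lf (nat_lit 504439) (.g (nat_lit 3632) (.e (nat_lit 164179) (nat_lit 154) (.e (nat_lit 57378) (nat_lit 3) (.e (nat_lit 98334) (nat_lit 18) (.e (nat_lit 164330) (nat_lit 230) (.e (nat_lit 163926) (nat_lit 16) (.e (nat_lit 458789) (nat_lit 23) (.e (nat_lit 532530) (nat_lit 9) (.e (nat_lit 336310) (nat_lit 16) .nil)))))))) (.g (nat_lit 1) (.e (nat_lit 178693) (nat_lit 0) .nil) .nil)))) 
(.nd (nat_lit 9) 
(.lf (nat_lit 504183) (.g (nat_lit 1591) (.e (nat_lit 164096) (nat_lit 86) (.e (nat_lit 532583) (nat_lit 26) (.e (nat_lit 426196) (nat_lit 9) (.e (nat_lit 426562) (nat_lit 33) (.e (nat_lit 385041) (nat_lit 19) (.e (nat_lit 164287) (nat_lit 224) .nil)))))) (.g (nat_lit 1) (.e (nat_lit 177581) (nat_lit 0) .nil) .nil))) 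
(.lf (nat_lit 504695) (.g (nat_lit 700) (.e (nat_lit 164183) (nat_lit 154) (.e (nat_lit 57417) (nat_lit 12) (.e (nat_lit 336323) (nat_lit 18) .nil))) (.g (nat_lit 0) (.e (nat_lit 179032) (nat_lit 0) .nil) .nil))))) (.nd (nat_lit 8) (.nd (nat_lit 9) 
(.lf (nat_lit 504055) (.g (nat_lit 4257) (.e (nat_lit 164023) (nat_lit 46) (.e (nat_lit 704629) (nat_lit 9) (.e (nat_lit 375) (nat_lit 32) (.e (nat_lit 426125) (nat_lit 2) (.e (nat_lit 196666) (nat_lit 13) (.e (nat_lit 65610) (nat_lit 10) (.e (nat_lit 344128) (nat_lit 26) (.e (nat_lit 557093) (nat_lit 12) .nil)))))))) (.g (nat_lit 1) (.e (nat_lit 177375) (nat_lit 0) .nil) .nil))) 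
(.lf (nat_lit 504567) (.g (nat_lit 2809) (.e (nat_lit 164182) (nat_lit 154) (.e (nat_lit 57379) (nat_lit 3) (.e (nat_lit 98342) (nat_lit 20) (.e (nat_lit 221210) (nat_lit 22) (.e (nat_lit 196681) (nat_lit 17) (.e (nat_lit 131098) (nat_lit 3) (.e (nat_lit 98334) (nat_lit 18) .nil))))))) (.g (nat_lit 1) (.e (nat_lit 178857) (nat_lit 0) .nil) .nil)))) (.nd (nat_lit 9) 
(.lf (nat_lit 504311) (.g (nat_lit 1651) (.e (nat_lit 164176) (nat_lit 154) (.e (nat_lit 57379) (nat_lit 3) (.e (nat_lit 98341) (nat_lit 20) (.e (nat_lit 221212) (nat_lit 22) (.e (nat_lit 196681) (nat_lit 17) .nil))))) (.g (nat_lit 0) (.e (nat_lit 178541) (nat_lit 0) .nil) .nil))) 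
(.lf (nat_lit 504823) (.g (nat_lit 2336) (.e (nat_lit 164210) (nat_lit 176) (.e (nat_lit 2797) (nat_lit 180) (.e (nat_lit 303119) (nat_lit 3) (.e (nat_lit 204878) (nat_lit 31) (.e (nat_lit 376864) (nat_lit 22) .nil))))) (.g (nat_lit 0) (.e (nat_lit 179289) (nat_lit 0) .nil) .nil))))))))) (.nd (nat_lit 4) (.nd (nat_lit 5) (.nd (nat_lit 6) (.nd (nat_lit 7) (.nd (nat_lit 8) (.nd (nat_lit 9) 
(.lf (nat_lit 503823) (.g (nat_lit 490) (.e (nat_lit 164007) (nat_lit 41) (.e (nat_lit 663567) (nat_lit 4) (.e (nat_lit 65651) (nat_lit 27) .nil))) (.g (nat_lit 0) (.e (nat_lit 176438) (nat_lit 0) .nil) .nil))) 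
(.lf (nat_lit 504335) (.g (nat_lit 1646) (.e (nat_lit 164177) (nat_lit 154) (.e (nat_lit 57377) (nat_lit 3) (.e (nat_lit 98342) (nat_lit 20) (.e (nat_lit 221210) (nat_lit 22) .nil)))) (.g (nat_lit 0) (.e (nat_lit 178572) (nat_lit 0) .nil) .nil)))) (.nd (nat_lit 9) 
(.lf (nat_lit 504079) (.g (nat_lit 844) (.e (nat_lit 171776) (nat_lit 62) (.e (nat_lit 57849) (nat_lit 252) (.e (nat_lit 57440) (nat_lit 18) .nil))) (.g (nat_lit 0) (.e (nat_lit 177417) (nat_lit 0) .nil) .nil))) 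
(.lf (nat_lit 504591) (.g (nat_lit 1912) (.e (nat_lit 164182) (nat_lit 154) (.e (nat_lit 57411) (nat_lit 12) (.e (nat_lit 336326) (nat_lit 18) (.e (nat_lit 204855) (nat_lit 26) (.e (nat_lit 336212) (nat_lit 13) .nil))))) (.g (nat_lit 0) (.e (nat_lit 178889) (nat_lit 0) .nil) .nil))))) (.nd (nat_lit 8) (.nd (nat_lit 9) 
(.lf (nat_lit 503951) (.g (nat_lit 4002) (.e (nat_lit 164020) (nat_lit 45) (.e (nat_lit 696329) (nat_lit 5) (.e (nat_lit 2869) (nat_lit 184) (.e (nat_lit 426136) (nat_lit 3) (.e (nat_lit 204869) (nat_lit 29) (.e (nat_lit 360474) (nat_lit 8) (.e (nat_lit 557091) (nat_lit 12) .nil))))))) (.g (nat_lit 1) (.e (nat_lit 177236) (nat_lit 0) .nil) .nil))) 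
(.lf (nat_lit 504463) (.g (nat_lit 2256) (.e (nat_lit 164179) (nat_lit 154) (.e (nat_lit 57406) (nat_lit 12) (.e (nat_lit 336454) (nat_lit 34) (.e (nat_lit 483400) (nat_lit 25) (.e (nat_lit 368676) (nat_lit 21) .nil))))) (.g (nat_lit 0) (.e (nat_lit 178723) (nat_lit 0) .nil) .nil)))) (.nd (nat_lit 9) 
(.lf (nat_lit 504207) (.g (nat_lit 2320) (.e (nat_lit 164096) (nat_lit 86) (.e (nat_lit 532583) (nat_lit 26) (.e (nat_lit 426200) (nat_lit 9) (.e (nat_lit 426562) (nat_lit 33) (.e (nat_lit 385041) (nat_lit 19) (.e (nat_lit 164287) (nat_lit 224) .nil)))))) (.g (nat_lit 1) (.e (nat_lit 177611) (nat_lit 0) .nil) .nil))) 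
(.lf (nat_lit 504719) (.g (nat_lit 2448) (.e (nat_lit 171776) (nat_lit 160) (.e (nat_lit 57379) (nat_lit 3) (.e (nat_lit 98367) (nat_lit 27) (.e (nat_lit 434248) (nat_lit 28) (.e (nat_lit 573487) (nat_lit 14) .nil))))) (.g (nat_lit 0) (.e (nat_lit 179079) (nat_lit 0) .nil) .nil)))))) (.nd (nat_lit 7) (.nd (nat_lit 8) (.nd (nat_lit 9) 
(.lf (nat_lit 503887) (.g (nat_lit 3621) (.e (nat_lit 164018) (nat_lit 45) (.e (nat_lit 696329) (nat_lit 5) (.e (nat_lit 2980) (nat_lit 185) (.e (nat_lit 434231) (nat_lit 23) (.e (nat_lit 532550) (nat_lit 12) (.e (nat_lit 360474) (nat_lit 8) (.e (nat_lit 557088) (nat_lit 12) .nil))))))) (.g (nat_lit 1) (.e (nat_lit 177141) (nat_lit 0) .nil) .nil))) 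
(.lf (nat_lit 504399) (.g (nat_lit 1385) (.e (nat_lit 164178) (nat_lit 154) (.e (nat_lit 57407) (nat_lit 12) (.e (nat_lit 336325) (nat_lit 18) (.e (nat_lit 204877) (nat_lit 31) (.e (nat_lit 376842) (nat_lit 11) .nil))))) (.g (nat_lit 0) (.e (nat_lit 178648) (nat_lit 0) .nil) .nil)))) (.nd (nat_lit 9) 
(.lf (nat_lit 504143) (.g (nat_lit 1734) (.e (nat_lit 164092) (nat_lit 82) (.e (nat_lit 500046) (nat_lit 16) (.e (nat_lit 16466) (nat_lit 13) (.e (nat_lit 483332) (nat_lit 0) .nil)))) (.g (nat_lit 0) (.e (nat_lit 177490) (nat_lit 0) .nil) .nil))) 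
(.lf (nat_lit 504655) (.g (nat_lit 483) (.e (nat_lit 164183) (nat_lit 154) (.e (nat_lit 57409) (nat_lit 12) (.e (nat_lit 336325) (nat_lit 18) .nil))) (.g (nat_lit 0) (.e (nat_lit 178972) (nat_lit 0) .nil) .nil))))) (.nd (nat_lit 8) (.nd (nat_lit 9) 
(.lf (nat_lit 504015) (.g (nat_lit 3601) (.e (nat_lit 164020) (nat_lit 45) (.e (nat_lit 696344) (nat_lit 8) (.e (nat_lit 172081) (nat_lit 7) (.e (nat_lit 409649) (nat_lit 18) (.e (nat_lit 303140) (nat_lit 10) (.e (nat_lit 434275) (nat_lit 39) (.e (nat_lit 663584) (nat_lit 12) .nil))))))) (.g (nat_lit 1) (.e (nat_lit 177312) (nat_lit 0) .nil) .nil))) 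
(.lf (nat_lit 504527) (.g (nat_lit 1853) (.e (nat_lit 164180) (nat_lit 154) (.e (nat_lit 57411) (nat_lit 12) (.e (nat_lit 336326) (nat_lit 18) (.e (nat_lit 204854) (nat_lit 26) (.e (nat_lit 336211) (nat_lit 13) .nil))))) (.g (nat_lit 0) (.e (nat_lit 178805) (nat_lit 0) .nil) .nil)))) (.nd (nat_lit 9) 
(.lf (nat_lit 504271) (.g (nat_lit 1967) (.e (nat_lit 164112) (nat_lit 118) (.e (nat_lit 794637) (nat_lit 11) (.e (nat_lit 336087) (nat_lit 9) (.e (nat_lit 336438) (nat_lit 31) (.e (nat_lit 458769) (nat_lit 16) (.e (nat_lit 164292) (nat_lit 224) .nil)))))) (.g (nat_lit 1) (.e (nat_lit 177788) (nat_lit 0) .nil) .nil))) 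
(.lf (nat_lit 504783) (.g (nat_lit 327) (.e (nat_lit 164208) (nat_lit 176) (.e (nat_lit 2819) (nat_lit 181) (.e (nat_lit 311315) (nat_lit 3) .nil))) (.g (nat_lit 0) (.e (nat_lit 179193) (nat_lit 0) .nil) .nil))))))) (.nd (nat_lit 6) (.nd (nat_lit 7) (.nd (nat_lit 8) (.nd (nat_lit 9) 
(.lf (nat_lit 503855) (.g (nat_lit 3647) (.e (nat_lit 164057) (nat_lit 56) (.e (nat_lit 786477) (nat_lit 28) (.e (nat_lit 344177) (nat_lit 43) (.e (nat_lit 770072) (nat_lit 8) (.e (nat_lit 65571) (nat_lit 3) (.e (nat_lit 98338) (nat_lit 19) (.e (nat_lit 213035) (nat_lit 12) .nil))))))) (.g (nat_lit 1) (.e (nat_lit 176996) (nat_lit 0) .nil) .nil))) 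
(.lf (nat_lit 504367) (.g (nat_lit 1593) (.e (nat_lit 164177) (nat_lit 154) (.e (nat_lit 57409) (nat_lit 12) (.e (nat_lit 336316) (nat_lit 17) (.e (nat_lit 196672) (nat_lit 15) .nil)))) (.g (nat_lit 0) (.e (nat_lit 178609) (nat_lit 0) .nil) .nil)))) (.nd (nat_lit 9) 
(.lf (nat_lit 504111) (.g (nat_lit 1973) (.e (nat_lit 171776) (nat_lit 64) (.e (nat_lit 98381) (nat_lit 31) (.e (nat_lit 466977) (nat_lit 22) (.e (nat_lit 196668) (nat_lit 14) (.e (nat_lit 73737) (nat_lit 0) .nil))))) (.g (nat_lit 0) (.e (nat_lit 177449) (nat_lit 0) .nil) .nil))) 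
(.lf (nat_lit 504623) (.g (nat_lit 430) (.e (nat_lit 164183) (nat_lit 154) (.e (nat_lit 57378) (nat_lit 3) (.e (nat_lit 98341) (nat_lit 20) .nil))) (.g (nat_lit 0) (.e (nat_lit 178937) (nat_lit 0) .nil) .nil))))) (.nd (nat_lit 8) (.nd (nat_lit 9) 
(.lf (nat_lit 503983) (.g (nat_lit 4789) (.e (nat_lit 164020) (nat_lit 45) (.e (nat_lit 696344) (nat_lit 8) (.e (nat_lit 172062) (nat_lit 2) (.e (nat_lit 196666) (nat_lit 13) (.e (nat_lit 65617) (nat_lit 10) (.e (nat_lit 344132) (nat_lit 26) (.e (nat_lit 557091) (nat_lit 12) .nil))))))) (.g (nat_lit 1) (.e (nat_lit 177280) (nat_lit 0) .nil) .nil))) 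
(.lf (nat_lit 504495) (.g (nat_lit 1021) (.e (nat_lit 164179) (nat_lit 154) (.e (nat_lit 57408) (nat_lit 12) (.e (nat_lit 336456) (nat_lit 34) (.e (nat_lit 483391) (nat_lit 23) .nil)))) (.g (nat_lit 0) (.e (nat_lit 178763) (nat_lit 0) .nil) .nil)))) (.nd (nat_lit 9) 
(.lf (nat_lit 504239) (.g (nat_lit 1062) (.e (nat_lit 164112) (nat_lit 118) (.e (nat_lit 794635) (nat_lit 11) (.e (nat_lit 336153) (nat_lit 9) (.e (nat_lit 336437) (nat_lit 31) (.e (nat_lit 458769) (nat_lit 16) (.e (nat_lit 164292) (nat_lit 224) .nil)))))) (.g (nat_lit 1) (.e (nat_lit 177756) (nat_lit 0) .nil) .nil))) 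
(.lf (nat_lit 504751) (.g (nat_lit 1193) (.e (nat_lit 164207) (nat_lit 176) (.e (nat_lit 2808) (nat_lit 180) (.e (nat_lit 303118) (nat_lit 3) (.e (nat_lit 204877) (nat_lit 31) (.e (nat_lit 376864) (nat_lit 22) .nil))))) (.g (nat_lit 0) (.e (nat_lit 179143) (nat_lit 0) .nil) .nil)))))) (.nd (nat_lit 7) (.nd (nat_lit 8) (.nd (nat_lit 9) 
(.lf (nat_lit 503919) (.g (nat_lit 4331) (.e (nat_lit 164018) (nat_lit 45) (.e (nat_lit 696344) (nat_lit 8) (.e (nat_lit 172079) (nat_lit 7) (.e (nat_lit 409648) (nat_lit 18) (.e (nat_lit 303137) (nat_lit 10) (.e (nat_lit 434275) (nat_lit 39) (.e (nat_lit 663585) (nat_lit 12) .nil))))))) (.g (nat_lit 1) (.e (nat_lit 177202) (nat_lit 0) .nil) .nil))) 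
(.lf (nat_lit 504431) (.g (nat_lit 569) (.e (nat_lit 164179) (nat_lit 154) (.e (nat_lit 57377) (nat_lit 3) (.e (nat_lit 98342) (nat_lit 20) .nil))) (.g (nat_lit 0) (.e (nat_lit 178685) (nat_lit 0) .nil) .nil)))) (.nd (nat_lit 9) 
(.lf (nat_lit 504175) (.g (nat_lit 1949) (.e (nat_lit 164096) (nat_lit 86) (.e (nat_lit 532583) (nat_lit 26) (.e (nat_lit 426189) (nat_lit 9) (.e (nat_lit 426562) (nat_lit 33) (.e (nat_lit 385041) (nat_lit 19) (.e (nat_lit 164289) (nat_lit 224) .nil)))))) (.g (nat_lit 1) (.e (nat_lit 177573) (nat_lit 0) .nil) .nil))) 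
(.lf (nat_lit 504687) (.g (nat_lit 1183) (.e (nat_lit 164183) (nat_lit 154) (.e (nat_lit 57411) (nat_lit 12) (.e (nat_lit 336454) (nat_lit 34) (.e (nat_lit 483384) (nat_lit 23) (.e (nat_lit 343808) (nat_lit 3) .nil))))) (.g (nat_lit 0) (.e (nat_lit 179023) (nat_lit 0) .nil) .nil))))) (.nd (nat_lit 8) (.nd (nat_lit 9) 
(.lf (nat_lit 504047) (.g (nat_lit 1285) (.e (nat_lit 164022) (nat_lit 46) (.e (nat_lit 704738) (nat_lit 11) (.e (nat_lit 16396) (nat_lit 0) (.e (nat_lit 3230) (nat_lit 197) .nil)))) (.g (nat_lit 0) (.e (nat_lit 177359) (nat_lit 0) .nil) .nil))) 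
(.lf (nat_lit 504559) (.g (nat_lit 778) (.e (nat_lit 164182) (nat_lit 154) (.e (nat_lit 57379) (nat_lit 3) (.e (nat_lit 98333) (nat_lit 18) .nil))) (.g (nat_lit 0) (.e (nat_lit 178848) (nat_lit 0) .nil) .nil)))) (.nd (nat_lit 9) 
(.lf (nat_lit 504303) (.g (nat_lit 2401) (.e (nat_lit 164176) (nat_lit 154) (.e (nat_lit 57377) (nat_lit 3) (.e (nat_lit 98342) (nat_lit 20) (.e (nat_lit 221210) (nat_lit 22) (.e (nat_lit 196666) (nat_lit 13) .nil))))) (.g (nat_lit 0) (.e (nat_lit 178533) (nat_lit 0) .nil) .nil))) 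
(.lf (nat_lit 504815) (.g (nat_lit 975) (.e (nat_lit 164210) (nat_lit 176) (.e (nat_lit 2796) (nat_lit 180) (.e (nat_lit 303119) (nat_lit 3) (.e (nat_lit 204877) (nat_lit 31) .nil)))) (.g (nat_lit 0) (.e (nat_lit 179269) (nat_lit 0) .nil) .nil)))))))) (.nd (nat_lit 5) (.nd (nat_lit 6) (.nd (nat_lit 7) (.nd (nat_lit 8) (.nd (nat_lit 9) 
(.lf (nat_lit 503839) (.g (nat_lit 1366) (.e (nat_lit 164047) (nat_lit 55) (.e (nat_lit 778462) (nat_lit 11) (.e (nat_lit 24604) (nat_lit 2) (.e (nat_lit 90178) (nat_lit 15) (.e (nat_lit 196352) (nat_lit 2) .nil))))) (.g (nat_lit 0) (.e (nat_lit 176957) (nat_lit 0) .nil) .nil))) 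
(.lf (nat_lit 504351) (.g (nat_lit 1430) (.e (nat_lit 164177) (nat_lit 154) (.e (nat_lit 57406) (nat_lit 12) (.e (nat_lit 336320) (nat_lit 17) (.e (nat_lit 196674) (nat_lit 15) .nil)))) (.g (nat_lit 0) (.e (nat_lit 178591) (nat_lit 0) .nil) .nil)))) (.nd (nat_lit 9) 
(.lf (nat_lit 504095) (.g (nat_lit 1633) (.e (nat_lit 171776) (nat_lit 64) (.e (nat_lit 98372) (nat_lit 29) (.e (nat_lit 450579) (nat_lit 5) (.e (nat_lit 532527) (nat_lit 9) .nil)))) (.g (nat_lit 0) (.e (nat_lit 177433) (nat_lit 0) .nil) .nil))) 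
(.lf (nat_lit 504607) (.g (nat_lit 736) (.e (nat_lit 164183) (nat_lit 154) (.e (nat_lit 57373) (nat_lit 2) (.e (nat_lit 90165) (nat_lit 12) .nil))) (.g (nat_lit 0) (.e (nat_lit 178910) (nat_lit 0) .nil) .nil))))) (.nd (nat_lit 8) (.nd (nat_lit 9) 
(.lf (nat_lit 503967) (.g (nat_lit 2072) (.e (nat_lit 164020) (nat_lit 45) (.e (nat_lit 696343) (nat_lit 8) (.e (nat_lit 172062) (nat_lit 2) (.e (nat_lit 196666) (nat_lit 13) (.e (nat_lit 65617) (nat_lit 10) (.e (nat_lit 344127) (nat_lit 26) (.e (nat_lit 557088) (nat_lit 12) .nil))))))) (.g (nat_lit 1) (.e (nat_lit 177264) (nat_lit 0) .nil) .nil))) 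
(.lf (nat_lit 504479) (.g (nat_lit 1465) (.e (nat_lit 164179) (nat_lit 154) (.e (nat_lit 57407) (nat_lit 12) (.e (nat_lit 336454) (nat_lit 34) (.e (nat_lit 483388) (nat_lit 23) .nil)))) (.g (nat_lit 0) (.e (nat_lit 178746) (nat_lit 0) .nil) .nil)))) (.nd (nat_lit 9) 
(.lf (nat_lit 504223) (.g (nat_lit 1667) (.e (nat_lit 164108) (nat_lit 116) (.e (nat_lit 778325) (nat_lit 6) (.e (nat_lit 81953) (nat_lit 22) (.e (nat_lit 98048) (nat_lit 0) .nil)))) (.g (nat_lit 0) (.e (nat_lit 177714) (nat_lit 0) .nil) .nil))) 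
(.lf (nat_lit 504735) (.g (nat_lit 2427) (.e (nat_lit 164207) (nat_lit 176) (.e (nat_lit 2797) (nat_lit 180) (.e (nat_lit 303119) (nat_lit 3) (.e (nat_lit 204878) (nat_lit 31) (.e (nat_lit 376864) (nat_lit 22) .nil))))) (.g (nat_lit 0) (.e (nat_lit 179112) (nat_lit 0) .nil) .nil)))))) (.nd (nat_lit 7) (.nd (nat_lit 8) (.nd (nat_lit 9) 
(.lf (nat_lit 503903) (.g (nat_lit 2046) (.e (nat_lit 164018) (nat_lit 45) (.e (nat_lit 696344) (nat_lit 8) (.e (nat_lit 172064) (nat_lit 2) (.e (nat_lit 196666) (nat_lit 13) (.e (nat_lit 65617) (nat_lit 10) (.e (nat_lit 344130) (nat_lit 26) (.e (nat_lit 557089) (nat_lit 12) .nil))))))) (.g (nat_lit 1) (.e (nat_lit 177186) (nat_lit 0) .nil) .nil))) 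
(.lf (nat_lit 504415) (.g (nat_lit 1794) (.e (nat_lit 164178) (nat_lit 154) (.e (nat_lit 57411) (nat_lit 12) (.e (nat_lit 336456) (nat_lit 34) (.e (nat_lit 483398) (nat_lit 25) .nil)))) (.g (nat_lit 0) (.e (nat_lit 178664) (nat_lit 0) .nil) .nil)))) (.nd (nat_lit 9) 
(.lf (nat_lit 504159) (.g (nat_lit 956) (.e (nat_lit 164095) (nat_lit 86) (.e (nat_lit 532535) (nat_lit 9) (.e (nat_lit 343808) (nat_lit 18) .nil))) (.g (nat_lit 0) (.e (nat_lit 177529) (nat_lit 0) .nil) .nil))) 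
(.lf (nat_lit 504671) (.g (nat_lit 2427) (.e (nat_lit 164183) (nat_lit 154) (.e (nat_lit 57411) (nat_lit 12) (.e (nat_lit 336019) (nat_lit 3) (.e (nat_lit 98342) (nat_lit 20) (.e (nat_lit 221208) (nat_lit 21) (.e (nat_lit 164242) (nat_lit 195) (.e (nat_lit 2723) (nat_lit 172) (.e (nat_lit 237585) (nat_lit 1) .nil)))))))) (.g (nat_lit 1) (.e (nat_lit 178997) (nat_lit 0) .nil) .nil))))) 
(.nd (nat_lit 8) (.nd (nat_lit 9) 
(.lf (nat_lit 504031) (.g (nat_lit 1942) (.e (nat_lit 164022) (nat_lit 46) (.e (nat_lit 704629) (nat_lit 9) (.e (nat_lit 375) (nat_lit 32) (.e (nat_lit 426132) (nat_lit 3) .nil)))) (.g (nat_lit 0) (.e (nat_lit 177337) (nat_lit 0) .nil) .nil))) 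
(.lf (nat_lit 504543) (.g (nat_lit 606) (.e (nat_lit 164182) (nat_lit 154) (.e (nat_lit 57374) (nat_lit 2) (.e (nat_lit 90165) (nat_lit 12) .nil))) (.g (nat_lit 0) (.e (nat_lit 178826) (nat_lit 0) .nil) .nil)))) (.nd (nat_lit 9) 
(.lf (nat_lit 504287) (.g (nat_lit 667) (.e (nat_lit 164159) (nat_lit 152) (.e (nat_lit 1201) (nat_lit 88) (.e (nat_lit 65543) (nat_lit 0) .nil))) (.g (nat_lit 0) (.e (nat_lit 177954) (nat_lit 0) .nil) .nil))) 
(.lf (nat_lit 504799) (.g (nat_lit 418) (.e (nat_lit 164209) (nat_lit 176) (.e (nat_lit 2797) (nat_lit 180) (.e (nat_lit 303119) (nat_lit 3) .nil))) (.g (nat_lit 0) (.e (nat_lit 179221) (nat_lit 0) .nil) .nil))))))) (.nd (nat_lit 6) (.nd (nat_lit 7) (.nd (nat_lit 8) (.nd (nat_lit 9) 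
(.lf (nat_lit 503871) (.g (nat_lit 4353) (.e (nat_lit 164017) (nat_lit 44) (.e (nat_lit 688138) (nat_lit 5) (.e (nat_lit 2887) (nat_lit 184) (.e (nat_lit 426173) (nat_lit 7) (.e (nat_lit 409649) (nat_lit 18) (.e (nat_lit 303140) (nat_lit 10) (.e (nat_lit 434275) (nat_lit 39) (.e (nat_lit 663584) (nat_lit 12) .nil)))))))) (.g (nat_lit 1) (.e (nat_lit 177124) (nat_lit 0) .nil) .nil))) 
(.lf (nat_lit 504383) (.g (nat_lit 1151) (.e (nat_lit 164178) (nat_lit 154) (.e (nat_lit 57378) (nat_lit 3) (.e (nat_lit 98335) (nat_lit 18) .nil))) (.g (nat_lit 0) (.e (nat_lit 178628) (nat_lit 0) .nil) .nil)))) (.nd (nat_lit 9) 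
(.lf (nat_lit 504127) (.g (nat_lit 1116) (.e (nat_lit 164092) (nat_lit 82) (.e (nat_lit 500046) (nat_lit 16) (.e (nat_lit 16463) (nat_lit 13) (.e (nat_lit 483331) (nat_lit 0) .nil)))) (.g (nat_lit 0) (.e (nat_lit 177473) (nat_lit 0) .nil) .nil))) 
(.lf (nat_lit 504639) (.g (nat_lit 2193) (.e (nat_lit 164183) (nat_lit 154) (.e (nat_lit 57379) (nat_lit 3) (.e (nat_lit 98341) (nat_lit 20) (.e (nat_lit 221214) (nat_lit 23) (.e (nat_lit 204859) (nat_lit 26) .nil))))) (.g (nat_lit 0) (.e (nat_lit 178956) (nat_lit 0) .nil) .nil))))) (.nd (nat_lit 8) (.nd (nat_lit 9) 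
(.lf (nat_lit 503999) (.g (nat_lit 2551) (.e (nat_lit 164020) (nat_lit 45) (.e (nat_lit 696344) (nat_lit 8) (.e (nat_lit 172067) (nat_lit 3) (.e (nat_lit 204866) (nat_lit 28) (.e (nat_lit 352302) (nat_lit 20) .nil))))) (.g (nat_lit 0) (.e (nat_lit 177296) (nat_lit 0) .nil) .nil))) 
(.lf (nat_lit 504511) (.g (nat_lit 562) (.e (nat_lit 164179) (nat_lit 154) (.e (nat_lit 57412) (nat_lit 12) (.e (nat_lit 336295) (nat_lit 15) .nil))) (.g (nat_lit 0) (.e (nat_lit 178786) (nat_lit 0) .nil) .nil)))) (.nd (nat_lit 9) 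
(.lf (nat_lit 504255) (.g (nat_lit 1685) (.e (nat_lit 164112) (nat_lit 118) (.e (nat_lit 794637) (nat_lit 11) (.e (nat_lit 336077) (nat_lit 9) (.e (nat_lit 336438) (nat_lit 31) (.e (nat_lit 458769) (nat_lit 16) (.e (nat_lit 164289) (nat_lit 224) .nil)))))) (.g (nat_lit 1) (.e (nat_lit 177772) (nat_lit 0) .nil) .nil))) 
(.lf (nat_lit 504767) (.g (nat_lit 1089) (.e (nat_lit 164207) (nat_lit 176) (.e (nat_lit 2810) (nat_lit 180) (.e (nat_lit 303119) (nat_lit 3) (.e (nat_lit 204878) (nat_lit 31) .nil)))) (.g (nat_lit 0) (.e (nat_lit 179164) (nat_lit 0) .nil) .nil)))))) (.nd (nat_lit 7) (.nd (nat_lit 8) (.nd (nat_lit 9) 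
(.lf (nat_lit 503935) (.g (nat_lit 3740) (.e (nat_lit 164019) (nat_lit 45) (.e (nat_lit 696344) (nat_lit 8) (.e (nat_lit 172067) (nat_lit 3) (.e (nat_lit 204855) (nat_lit 26) (.e (nat_lit 336176) (nat_lit 10) (.e (nat_lit 344130) (nat_lit 26) (.e (nat_lit 557089) (nat_lit 12) .nil))))))) (.g (nat_lit 1) (.e (nat_lit 177220) (nat_lit 0) .nil) .nil))) 
(.lf (nat_lit 504447) (.g (nat_lit 2282) (.e (nat_lit 164179) (nat_lit 154) (.e (nat_lit 57379) (nat_lit 3) (.e (nat_lit 98341) (nat_lit 20) (.e (nat_lit 221210) (nat_lit 22) (.e (nat_lit 196681) (nat_lit 17) .nil))))) (.g (nat_lit 0) (.e (nat_lit 178703) (nat_lit 0) .nil) .nil)))) (.nd (nat_lit 9) 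
(.lf (nat_lit 504191) (.g (nat_lit 2010) (.e (nat_lit 164096) (nat_lit 86) (.e (nat_lit 532583) (nat_lit 26) (.e (nat_lit 426197) (nat_lit 9) (.e (nat_lit 426562) (nat_lit 33) (.e (nat_lit 385041) (nat_lit 19) (.e (nat_lit 164288) (nat_lit 224) .nil)))))) (.g (nat_lit 1) (.e (nat_lit 177589) (nat_lit 0) .nil) .nil))) 
(.lf (nat_lit 504703) (.g (nat_lit 1894) (.e (nat_lit 171776) (nat_lit 160) (.e (nat_lit 57372) (nat_lit 2) (.e (nat_lit 90174) (nat_lit 14) (.e (nat_lit 180250) (nat_lit 10) .nil)))) (.g (nat_lit 0) (.e (nat_lit 179061) (nat_lit 0) .nil) .nil))))) (.nd (nat_lit 8) (.nd (nat_lit 9) 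
(.lf (nat_lit 504063) (.g (nat_lit 2979) (.e (nat_lit 164023) (nat_lit 46) (.e (nat_lit 704737) (nat_lit 11) (.e (nat_lit 16416) (nat_lit 3) (.e (nat_lit 204852) (nat_lit 26) (.e (nat_lit 336160) (nat_lit 10) .nil))))) (.g (nat_lit 0) (.e (nat_lit 177389) (nat_lit 0) .nil) .nil))) 
(.lf (nat_lit 504575) (.g (nat_lit 2251) (.e (nat_lit 164182) (nat_lit 154) (.e (nat_lit 57409) (nat_lit 12) (.e (nat_lit 336454) (nat_lit 34) (.e (nat_lit 483391) (nat_lit 23) (.e (nat_lit 336017) (nat_lit 3) .nil))))) (.g (nat_lit 0) (.e (nat_lit 178868) (nat_lit 0) .nil) .nil)))) (.nd (nat_lit 9) 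
(.lf (nat_lit 504319) (.g (nat_lit 1129) (.e (nat_lit 164176) (nat_lit 154) (.e (nat_lit 57409) (nat_lit 12) (.e (nat_lit 336326) (nat_lit 18) (.e (nat_lit 204877) (nat_lit 31) .nil)))) (.g (nat_lit 0) (.e (nat_lit 178550) (nat_lit 0) .nil) .nil))) 
(.lf (nat_lit 504831) (.g (nat_lit 1519) (.e (nat_lit 164210) (nat_lit 176) (.e (nat_lit 2817) (nat_lit 181) (.e (nat_lit 311311) (nat_lit 2) (.e (nat_lit 196672) (nat_lit 15) (.e (nat_lit 81951) (nat_lit 22) .nil))))) (.g (nat_lit 0) (.e (nat_lit 179317) (nat_lit 0) .nil) .nil)))))))))))))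

noncomputable def tv5553 : DT := (.nd (nat_lit 0) (.nd (nat_lit 1) (.nd (nat_lit 2) (.nd (nat_lit 3) (.nd (nat_lit 4) (.nd (nat_lit 5) (.nd (nat_lit 6) (.nd (nat_lit 7) (.nd (nat_lit 8) (.nd (nat_lit 9) 
(.lf (nat_lit 504832) (.g (nat_lit 1883) (.e (nat_lit 164211) (nat_lit 176) (.e (nat_lit 2797) (nat_lit 180) (.e (nat_lit 303117) (nat_lit 2) (.e (nat_lit 196664) (nat_lit 13) .nil)))) (.g (nat_lit 0) (.e (nat_lit 179321) (nat_lit 0) .nil) .nil))) 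
(.lf (nat_lit 505344) (.g (nat_lit 2103) (.e (nat_lit 164325) (nat_lit 230) (.e (nat_lit 163871) (nat_lit 2) (.e (nat_lit 196656) (nat_lit 11) (.e (nat_lit 16436) (nat_lit 9) (.e (nat_lit 426481) (nat_lit 27) .nil))))) (.g (nat_lit 0) (.e (nat_lit 181379) (nat_lit 0) .nil) .nil)))) (.nd (nat_lit 9) 
(.lf (nat_lit 505088) (.g (nat_lit 4355) (.e (nat_lit 164322) (nat_lit 230) (.e (nat_lit 163873) (nat_lit 3) (.e (nat_lit 204813) (nat_lit 9) (.e (nat_lit 426189) (nat_lit 9) .nil)))) (.g (nat_lit 0) (.e (nat_lit 180739) (nat_lit 0) .nil) .nil))) 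
(.lf (nat_lit 505600) (.g (nat_lit 650) (.e (nat_lit 164326) (nat_lit 230) (.e (nat_lit 163870) (nat_lit 2) (.e (nat_lit 196641) (nat_lit 9) .nil))) (.g (nat_lit 0) (.e (nat_lit 182130) (nat_lit 0) .nil) .nil))))) (.nd (nat_lit 8) (.nd (nat_lit 9) 
(.lf (nat_lit 504960) (.g (nat_lit 1590) (.e (nat_lit 171776) (nat_lit 192) (.e (nat_lit 73747) (nat_lit 3) (.e (nat_lit 516098) (nat_lit 0) (.e (nat_lit 7591) (nat_lit 407) (.e (nat_lit 81664) (nat_lit 1) .nil))))) (.g (nat_lit 0) (.e (nat_lit 179704) (nat_lit 0) .nil) .nil))) 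
(.lf (nat_lit 505472) (.g (nat_lit 1704) (.e (nat_lit 164325) (nat_lit 230) (.e (nat_lit 163905) (nat_lit 12) (.e (nat_lit 426568) (nat_lit 34) (.e (nat_lit 393291) (nat_lit 26) .nil)))) (.g (nat_lit 0) (.e (nat_lit 181609) (nat_lit 0) .nil) .nil)))) (.nd (nat_lit 9) 
(.lf (nat_lit 505216) (.g (nat_lit 1566) (.e (nat_lit 164324) (nat_lit 230) (.e (nat_lit 163901) (nat_lit 12) (.e (nat_lit 426566) (nat_lit 34) (.e (nat_lit 393294) (nat_lit 26) (.e (nat_lit 475177) (nat_lit 24) .nil))))) (.g (nat_lit 0) (.e (nat_lit 181001) (nat_lit 0) .nil) .nil))) 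
(.lf (nat_lit 505728) (.g (nat_lit 2440) (.e (nat_lit 164326) (nat_lit 230) (.e (nat_lit 163903) (nat_lit 12) (.e (nat_lit 426566) (nat_lit 34) (.e (nat_lit 393273) (nat_lit 23) (.e (nat_lit 426357) (nat_lit 15) .nil))))) (.g (nat_lit 0) (.e (nat_lit 182344) (nat_lit 0) .nil) .nil)))))) (.nd (nat_lit 7) (.nd (nat_lit 8) (.nd (nat_lit 9) 
(.lf (nat_lit 504896) (.g (nat_lit 2471) (.e (nat_lit 171776) (nat_lit 176) (.e (nat_lit 2798) (nat_lit 180) (.e (nat_lit 303117) (nat_lit 2) (.e (nat_lit 196673) (nat_lit 15) (.e (nat_lit 81953) (nat_lit 22) .nil))))) (.g (nat_lit 0) (.e (nat_lit 179415) (nat_lit 0) .nil) .nil))) 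
(.lf (nat_lit 505408) (.g (nat_lit 2927) (.e (nat_lit 164325) (nat_lit 230) (.e (nat_lit 163881) (nat_lit 4) (.e (nat_lit 213030) (nat_lit 11) (.e (nat_lit 24626) (nat_lit 9) (.e (nat_lit 336443) (nat_lit 32) (.e (nat_lit 466969) (nat_lit 21) .nil)))))) (.g (nat_lit 1) (.e (nat_lit 181496) (nat_lit 0) .nil) .nil)))) (.nd (nat_lit 9) 
(.lf (nat_lit 505152) (.g (nat_lit 1368) (.e (nat_lit 164323) (nat_lit 230) (.e (nat_lit 163871) (nat_lit 2) (.e (nat_lit 196654) (nat_lit 11) (.e (nat_lit 16466) (nat_lit 13) .nil)))) (.g (nat_lit 0) (.e (nat_lit 180909) (nat_lit 0) .nil) .nil))) 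
(.lf (nat_lit 505664) (.g (nat_lit 1288) (.e (nat_lit 164326) (nat_lit 230) (.e (nat_lit 163874) (nat_lit 3) (.e (nat_lit 204811) (nat_lit 9) (.e (nat_lit 426259) (nat_lit 9) .nil)))) (.g (nat_lit 0) (.e (nat_lit 182244) (nat_lit 0) .nil) .nil))))) (.nd (nat_lit 8) (.nd (nat_lit 9) 
(.lf (nat_lit 505024) (.g (nat_lit 1223) (.e (nat_lit 164281) (nat_lit 222) (.e (nat_lit 57884) (nat_lit 270) (.e (nat_lit 1463) (nat_lit 108) (.e (nat_lit 335997) (nat_lit 1) (.e (nat_lit 57857) (nat_lit 254) .nil))))) (.g (nat_lit 0) (.e (nat_lit 180330) (nat_lit 0) .nil) .nil))) 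
(.lf (nat_lit 505536) (.g (nat_lit 2818) (.e (nat_lit 164325) (nat_lit 230) (.e (nat_lit 163944) (nat_lit 19) (.e (nat_lit 483363) (nat_lit 18) (.e (nat_lit 57688) (nat_lit 156) (.e (nat_lit 163861) (nat_lit 1) .nil))))) (.g (nat_lit 0) (.e (nat_lit 182010) (nat_lit 0) .nil) .nil)))) (.nd (nat_lit 9) 
(.lf (nat_lit 505280) (.g (nat_lit 1859) (.e (nat_lit 164325) (nat_lit 230) (.e (nat_lit 163868) (nat_lit 2) (.e (nat_lit 196654) (nat_lit 11) (.e (nat_lit 16466) (nat_lit 13) (.e (nat_lit 483336) (nat_lit 9) .nil))))) (.g (nat_lit 0) (.e (nat_lit 181288) (nat_lit 0) .nil) .nil))) 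
(.lf (nat_lit 505792) (.g (nat_lit 1928) (.e (nat_lit 164327) (nat_lit 230) (.e (nat_lit 163868) (nat_lit 2) (.e (nat_lit 196654) (nat_lit 11) (.e (nat_lit 16436) (nat_lit 9) (.e (nat_lit 426478) (nat_lit 27) .nil))))) (.g (nat_lit 0) (.e (nat_lit 182525) (nat_lit 0) .nil) .nil))))))) (.nd (nat_lit 6) (.nd (nat_lit 7) (.nd (nat_lit 8) (.nd (nat_lit 9) 
(.lf (nat_lit 504864) (.g (nat_lit 1985) (.e (nat_lit 164213) (nat_lit 176) (.e (nat_lit 2797) (nat_lit 180) (.e (nat_lit 303119) (nat_lit 3) (.e (nat_lit 204867) (nat_lit 28) .nil)))) (.g (nat_lit 0) (.e (nat_lit 179364) (nat_lit 0) .nil) .nil))) 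
(.lf (nat_lit 505376) (.g (nat_lit 1294) (.e (nat_lit 164325) (nat_lit 230) (.e (nat_lit 163873) (nat_lit 3) (.e (nat_lit 204813) (nat_lit 9) (.e (nat_lit 426198) (nat_lit 9) .nil)))) (.g (nat_lit 0) (.e (nat_lit 181434) (nat_lit 0) .nil) .nil)))) (.nd (nat_lit 9) 
(.lf (nat_lit 505120) (.g (nat_lit 1743) (.e (nat_lit 164322) (nat_lit 230) (.e (nat_lit 163902) (nat_lit 12) (.e (nat_lit 426566) (nat_lit 34) (.e (nat_lit 393296) (nat_lit 26) .nil)))) (.g (nat_lit 0) (.e (nat_lit 180787) (nat_lit 0) .nil) .nil))) 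
(.lf (nat_lit 505632) (.g (nat_lit 2247) (.e (nat_lit 164326) (nat_lit 230) (.e (nat_lit 163871) (nat_lit 2) (.e (nat_lit 196656) (nat_lit 11) (.e (nat_lit 16416) (nat_lit 3) .nil)))) (.g (nat_lit 0) (.e (nat_lit 182183) (nat_lit 0) .nil) .nil))))) (.nd (nat_lit 8) (.nd (nat_lit 9) 
(.lf (nat_lit 504992) (.g (nat_lit 2145) (.e (nat_lit 164288) (nat_lit 224) (.e (nat_lit 164104) (nat_lit 116) (.e (nat_lit 778462) (nat_lit 11) (.e (nat_lit 24628) (nat_lit 9) (.e (nat_lit 336438) (nat_lit 31) (.e (nat_lit 458769) (nat_lit 16) .nil)))))) (.g (nat_lit 1) (.e (nat_lit 180125) (nat_lit 0) .nil) .nil))) 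
(.lf (nat_lit 505504) (.g (nat_lit 4101) (.e (nat_lit 164325) (nat_lit 230) (.e (nat_lit 163941) (nat_lit 19) (.e (nat_lit 483341) (nat_lit 9) (.e (nat_lit 426009) (nat_lit 0) .nil)))) (.g (nat_lit 0) (.e (nat_lit 181924) (nat_lit 0) .nil) .nil)))) (.nd (nat_lit 9) 
(.lf (nat_lit 505248) (.g (nat_lit 571) (.e (nat_lit 164324) (nat_lit 230) (.e (nat_lit 163943) (nat_lit 19) (.e (nat_lit 483341) (nat_lit 9) .nil))) (.g (nat_lit 0) (.e (nat_lit 181091) (nat_lit 0) .nil) .nil))) 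
(.lf (nat_lit 505760) (.g (nat_lit 3533) (.e (nat_lit 164326) (nat_lit 230) (.e (nat_lit 163941) (nat_lit 19) (.e (nat_lit 483341) (nat_lit 9) (.e (nat_lit 426204) (nat_lit 9) .nil)))) (.g (nat_lit 0) (.e (nat_lit 182454) (nat_lit 0) .nil) .nil)))))) (.nd (nat_lit 7) (.nd (nat_lit 8) (.nd (nat_lit 9) 
(.lf (nat_lit 504928) (.g (nat_lit 1667) (.e (nat_lit 164239) (nat_lit 187) (.e (nat_lit 1638) (nat_lit 114) (.e (nat_lit 385072) (nat_lit 31) (.e (nat_lit 573492) (nat_lit 15) (.e (nat_lit 81951) (nat_lit 22) .nil))))) (.g (nat_lit 0) (.e (nat_lit 179650) (nat_lit 0) .nil) .nil))) 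
(.lf (nat_lit 505440) (.g (nat_lit 1886) (.e (nat_lit 164325) (nat_lit 230) (.e (nat_lit 163903) (nat_lit 12) (.e (nat_lit 426566) (nat_lit 34) (.e (nat_lit 393273) (nat_lit 23) (.e (nat_lit 426434) (nat_lit 18) .nil))))) (.g (nat_lit 0) (.e (nat_lit 181564) (nat_lit 0) .nil) .nil)))) (.nd (nat_lit 9) 
(.lf (nat_lit 505184) (.g (nat_lit 3884) (.e (nat_lit 164324) (nat_lit 230) (.e (nat_lit 163868) (nat_lit 2) (.e (nat_lit 196656) (nat_lit 11) (.e (nat_lit 16463) (nat_lit 13) (.e (nat_lit 483341) (nat_lit 9) (.e (nat_lit 426107) (nat_lit 1) .nil)))))) (.g (nat_lit 1) (.e (nat_lit 180957) (nat_lit 0) .nil) .nil))) 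
(.lf (nat_lit 505696) (.g (nat_lit 3093) (.e (nat_lit 164326) (nat_lit 230) (.e (nat_lit 163882) (nat_lit 4) (.e (nat_lit 213032) (nat_lit 11) (.e (nat_lit 24630) (nat_lit 9) (.e (nat_lit 336443) (nat_lit 32) (.e (nat_lit 466969) (nat_lit 21) .nil)))))) (.g (nat_lit 1) (.e (nat_lit 182280) (nat_lit 0) .nil) .nil))))) (.nd (nat_lit 8) (.nd (nat_lit 9) 
(.lf (nat_lit 505056) (.g (nat_lit 587) (.e (nat_lit 164322) (nat_lit 230) (.e (nat_lit 163867) (nat_lit 2) (.e (nat_lit 196656) (nat_lit 11) .nil))) (.g (nat_lit 0) (.e (nat_lit 180690) (nat_lit 0) .nil) .nil))) 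
(.lf (nat_lit 505568) (.g (nat_lit 3543) (.e (nat_lit 164326) (nat_lit 230) (.e (nat_lit 163868) (nat_lit 2) (.e (nat_lit 196654) (nat_lit 11) (.e (nat_lit 16466) (nat_lit 13) (.e (nat_lit 483337) (nat_lit 9) (.e (nat_lit 426107) (nat_lit 1) .nil)))))) (.g (nat_lit 1) (.e (nat_lit 182078) (nat_lit 0) .nil) .nil)))) (.nd (nat_lit 9) 
(.lf (nat_lit 505312) (.g (nat_lit 2752) (.e (nat_lit 164325) (nat_lit 230) (.e (nat_lit 163869) (nat_lit 2) (.e (nat_lit 196654) (nat_lit 11) (.e (nat_lit 16416) (nat_lit 3) (.e (nat_lit 204838) (nat_lit 20) (.e (nat_lit 114719) (nat_lit 23) (.e (nat_lit 98333) (nat_lit 18) .nil))))))) (.g (nat_lit 1) (.e (nat_lit 181332) (nat_lit 0) .nil) .nil))) 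
(.lf (nat_lit 505824) (.g (nat_lit 2802) (.e (nat_lit 164327) (nat_lit 230) (.e (nat_lit 163869) (nat_lit 2) (.e (nat_lit 196656) (nat_lit 11) (.e (nat_lit 16435) (nat_lit 9) (.e (nat_lit 426566) (nat_lit 34) .nil))))) (.g (nat_lit 0) (.e (nat_lit 182580) (nat_lit 0) .nil) .nil)))))))) (.nd (nat_lit 5) (.nd (nat_lit 6) (.nd (nat_lit 7) (.nd (nat_lit 8) (.nd (nat_lit 9) 
(.lf (nat_lit 504848) (.g (nat_lit 3709) (.e (nat_lit 164211) (nat_lit 176) (.e (nat_lit 2798) (nat_lit 180) (.e (nat_lit 303117) (nat_lit 2) (.e (nat_lit 196666) (nat_lit 13) (.e (nat_lit 65604) (nat_lit 9) .nil))))) (.g (nat_lit 0) (.e (nat_lit 179339) (nat_lit 0) .nil) .nil))) 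
(.lf (nat_lit 505360) (.g (nat_lit 4020) (.e (nat_lit 164325) (nat_lit 230) (.e (nat_lit 163873) (nat_lit 3) (.e (nat_lit 204813) (nat_lit 9) (.e (nat_lit 426031) (nat_lit 0) .nil)))) (.g (nat_lit 0) (.e (nat_lit 181410) (nat_lit 0) .nil) .nil)))) (.nd (nat_lit 9) 
(.lf (nat_lit 505104) (.g (nat_lit 1905) (.e (nat_lit 164322) (nat_lit 230) (.e (nat_lit 163875) (nat_lit 3) (.e (nat_lit 204813) (nat_lit 9) (.e (nat_lit 426200) (nat_lit 9) (.e (nat_lit 426566) (nat_lit 34) .nil))))) (.g (nat_lit 0) (.e (nat_lit 180768) (nat_lit 0) .nil) .nil))) 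
(.lf (nat_lit 505616) (.g (nat_lit 1428) (.e (nat_lit 164326) (nat_lit 230) (.e (nat_lit 163871) (nat_lit 2) (.e (nat_lit 196631) (nat_lit 9) .nil))) (.g (nat_lit 0) (.e (nat_lit 182155) (nat_lit 0) .nil) .nil))))) (.nd (nat_lit 8) (.nd (nat_lit 9) 
(.lf (nat_lit 504976) (.g (nat_lit 2394) (.e (nat_lit 171776) (nat_lit 219) (.e (nat_lit 163875) (nat_lit 3) (.e (nat_lit 204877) (nat_lit 31) (.e (nat_lit 376865) (nat_lit 22) (.e (nat_lit 90185) (nat_lit 17) .nil))))) (.g (nat_lit 0) (.e (nat_lit 179978) (nat_lit 0) .nil) .nil))) 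
(.lf (nat_lit 505488) (.g (nat_lit 397) (.e (nat_lit 164325) (nat_lit 230) (.e (nat_lit 163907) (nat_lit 12) (.e (nat_lit 426566) (nat_lit 34) .nil))) (.g (nat_lit 0) (.e (nat_lit 181676) (nat_lit 0) .nil) .nil)))) (.nd (nat_lit 9) 
(.lf (nat_lit 505232) (.g (nat_lit 1595) (.e (nat_lit 164324) (nat_lit 230) (.e (nat_lit 163903) (nat_lit 12) (.e (nat_lit 426568) (nat_lit 34) (.e (nat_lit 393294) (nat_lit 26) (.e (nat_lit 475176) (nat_lit 24) .nil))))) (.g (nat_lit 0) (.e (nat_lit 181018) (nat_lit 0) .nil) .nil))) 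
(.lf (nat_lit 505744) (.g (nat_lit 3157) (.e (nat_lit 164326) (nat_lit 230) (.e (nat_lit 163903) (nat_lit 12) (.e (nat_lit 426568) (nat_lit 34) (.e (nat_lit 393291) (nat_lit 26) (.e (nat_lit 475177) (nat_lit 24) (.e (nat_lit 516118) (nat_lit 1) .nil)))))) (.g (nat_lit 1) (.e (nat_lit 182363) (nat_lit 0) .nil) .nil)))))) (.nd (nat_lit 7) (.nd (nat_lit 8) (.nd (nat_lit 9) 
(.lf (nat_lit 504912) (.g (nat_lit 1915) (.e (nat_lit 164248) (nat_lit 201) (.e (nat_lit 3067) (nat_lit 190) (.e (nat_lit 475178) (nat_lit 24) (.e (nat_lit 516129) (nat_lit 3) (.e (nat_lit 221193) (nat_lit 11) .nil))))) (.g (nat_lit 0) (.e (nat_lit 179562) (nat_lit 0) .nil) .nil))) 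
(.lf (nat_lit 505424) (.g (nat_lit 2831) (.e (nat_lit 164325) (nat_lit 230) (.e (nat_lit 163902) (nat_lit 12) (.e (nat_lit 426566) (nat_lit 34) (.e (nat_lit 393294) (nat_lit 26) (.e (nat_lit 475179) (nat_lit 24) .nil))))) (.g (nat_lit 0) (.e (nat_lit 181519) (nat_lit 0) .nil) .nil)))) (.nd (nat_lit 9) 
(.lf (nat_lit 505168) (.g (nat_lit 1517) (.e (nat_lit 164323) (nat_lit 230) (.e (nat_lit 163875) (nat_lit 3) (.e (nat_lit 204813) (nat_lit 9) (.e (nat_lit 426198) (nat_lit 9) .nil)))) (.g (nat_lit 0) (.e (nat_lit 180930) (nat_lit 0) .nil) .nil))) 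
(.lf (nat_lit 505680) (.g (nat_lit 1701) (.e (nat_lit 164326) (nat_lit 230) (.e (nat_lit 163875) (nat_lit 3) (.e (nat_lit 204812) (nat_lit 9) (.e (nat_lit 426188) (nat_lit 9) (.e (nat_lit 426566) (nat_lit 34) .nil))))) (.g (nat_lit 0) (.e (nat_lit 182263) (nat_lit 0) .nil) .nil))))) (.nd (nat_lit 8) (.nd (nat_lit 9) 
(.lf (nat_lit 505040) (.g (nat_lit 4184) (.e (nat_lit 164305) (nat_lit 226) (.e (nat_lit 2612) (nat_lit 163) (.e (nat_lit 163979) (nat_lit 30) (.e (nat_lit 573489) (nat_lit 14) (.e (nat_lit 73755) (nat_lit 8) (.e (nat_lit 557096) (nat_lit 13) (.e (nat_lit 179968) (nat_lit 18) (.e (nat_lit 98334) (nat_lit 18) .nil)))))))) (.g (nat_lit 1) (.e (nat_lit 180431) (nat_lit 0) .nil) .nil))) 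
(.lf (nat_lit 505552) (.g (nat_lit 743) (.e (nat_lit 164326) (nat_lit 230) (.e (nat_lit 163868) (nat_lit 2) (.e (nat_lit 196626) (nat_lit 9) .nil))) (.g (nat_lit 0) (.e (nat_lit 182060) (nat_lit 0) .nil) .nil)))) (.nd (nat_lit 9) 
(.lf (nat_lit 505296) (.g (nat_lit 2171) (.e (nat_lit 164325) (nat_lit 230) (.e (nat_lit 163868) (nat_lit 2) (.e (nat_lit 196656) (nat_lit 11) (.e (nat_lit 16439) (nat_lit 9) (.e (nat_lit 426513) (nat_lit 27) .nil))))) (.g (nat_lit 0) (.e (nat_lit 181310) (nat_lit 0) .nil) .nil))) 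
(.lf (nat_lit 505808) (.g (nat_lit 3438) (.e (nat_lit 164327) (nat_lit 230) (.e (nat_lit 163868) (nat_lit 2) (.e (nat_lit 196656) (nat_lit 11) (.e (nat_lit 16463) (nat_lit 13) (.e (nat_lit 483336) (nat_lit 9) (.e (nat_lit 426098) (nat_lit 1) .nil)))))) (.g (nat_lit 1) (.e (nat_lit 182561) (nat_lit 0) .nil) .nil))))))) (.nd (nat_lit 6) (.nd (nat_lit 7) (.nd (nat_lit 8) (.nd (nat_lit 9) 
(.lf (nat_lit 504880) (.g (nat_lit 2707) (.e (nat_lit 171776) (nat_lit 176) (.e (nat_lit 2797) (nat_lit 180) (.e (nat_lit 303119) (nat_lit 3) (.e (nat_lit 204855) (nat_lit 26) (.e (nat_lit 336099) (nat_lit 9) .nil))))) (.g (nat_lit 0) (.e (nat_lit 179394) (nat_lit 0) .nil) .nil))) 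
(.lf (nat_lit 505392) (.g (nat_lit 983) (.e (nat_lit 164325) (nat_lit 230) (.e (nat_lit 163874) (nat_lit 3) (.e (nat_lit 204812) (nat_lit 9) .nil))) (.g (nat_lit 0) (.e (nat_lit 181476) (nat_lit 0) .nil) .nil)))) (.nd (nat_lit 9) 
(.lf (nat_lit 505136) (.g (nat_lit 3999) (.e (nat_lit 164322) (nat_lit 230) (.e (nat_lit 163941) (nat_lit 19) (.e (nat_lit 483341) (nat_lit 9) (.e (nat_lit 426204) (nat_lit 9) .nil)))) (.g (nat_lit 0) (.e (nat_lit 180875) (nat_lit 0) .nil) .nil))) 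
(.lf (nat_lit 505648) (.g (nat_lit 931) (.e (nat_lit 164326) (nat_lit 230) (.e (nat_lit 163873) (nat_lit 3) (.e (nat_lit 204811) (nat_lit 9) (.e (nat_lit 426258) (nat_lit 9) (.e (nat_lit 426565) (nat_lit 34) .nil))))) (.g (nat_lit 0) (.e (nat_lit 182205) (nat_lit 0) .nil) .nil))))) (.nd (nat_lit 8) (.nd (nat_lit 9) 
(.lf (nat_lit 505008) (.g (nat_lit 1421) (.e (nat_lit 164293) (nat_lit 224) (.e (nat_lit 164092) (nat_lit 82) (.e (nat_lit 500046) (nat_lit 16) (.e (nat_lit 16466) (nat_lit 13) (.e (nat_lit 491264) (nat_lit 0) (.e (nat_lit 7106) (nat_lit 380) .nil)))))) (.g (nat_lit 1) (.e (nat_lit 180265) (nat_lit 0) .nil) .nil))) 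
(.lf (nat_lit 505520) (.g (nat_lit 3847) (.e (nat_lit 164325) (nat_lit 230) (.e (nat_lit 163941) (nat_lit 19) (.e (nat_lit 483341) (nat_lit 9) (.e (nat_lit 426258) (nat_lit 9) (.e (nat_lit 426435) (nat_lit 18) .nil))))) (.g (nat_lit 0) (.e (nat_lit 181947) (nat_lit 0) .nil) .nil)))) (.nd (nat_lit 9) 
(.lf (nat_lit 505264) (.g (nat_lit 770) (.e (nat_lit 164325) (nat_lit 230) (.e (nat_lit 163867) (nat_lit 2) (.e (nat_lit 196656) (nat_lit 11) .nil))) (.g (nat_lit 0) (.e (nat_lit 181259) (nat_lit 0) .nil) .nil))) 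
(.lf (nat_lit 505776) (.g (nat_lit 886) (.e (nat_lit 164327) (nat_lit 230) (.e (nat_lit 163867) (nat_lit 2) (.e (nat_lit 196630) (nat_lit 9) .nil))) (.g (nat_lit 0) (.e (nat_lit 182495) (nat_lit 0) .nil) .nil)))))) (.nd (nat_lit 7) (.nd (nat_lit 8) (.nd (nat_lit 9) 
(.lf (nat_lit 504944) (.g (nat_lit 3010) (.e (nat_lit 171776) (nat_lit 187) (.e (nat_lit 1644) (nat_lit 114) (.e (nat_lit 385074) (nat_lit 31) (.e (nat_lit 573491) (nat_lit 15) (.e (nat_lit 81951) (nat_lit 22) .nil))))) (.g (nat_lit 0) (.e (nat_lit 179680) (nat_lit 0) .nil) .nil))) 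
(.lf (nat_lit 505456) (.g (nat_lit 3982) (.e (nat_lit 164325) (nat_lit 230) (.e (nat_lit 163904) (nat_lit 12) (.e (nat_lit 426566) (nat_lit 34) (.e (nat_lit 393273) (nat_lit 23) (.e (nat_lit 426402) (nat_lit 15) .nil))))) (.g (nat_lit 0) (.e (nat_lit 181580) (nat_lit 0) .nil) .nil)))) (.nd (nat_lit 9) 
(.lf (nat_lit 505200) (.g (nat_lit 3640) (.e (nat_lit 164324) (nat_lit 230) (.e (nat_lit 163873) (nat_lit 3) (.e (nat_lit 204813) (nat_lit 9) (.e (nat_lit 426139) (nat_lit 3) .nil)))) (.g (nat_lit 0) (.e (nat_lit 180976) (nat_lit 0) .nil) .nil))) 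
(.lf (nat_lit 505712) (.g (nat_lit 551) (.e (nat_lit 164326) (nat_lit 230) (.e (nat_lit 163903) (nat_lit 12) (.e (nat_lit 426428) (nat_lit 17) .nil))) (.g (nat_lit 0) (.e (nat_lit 182321) (nat_lit 0) .nil) .nil))))) (.nd (nat_lit 8) (.nd (nat_lit 9) 
(.lf (nat_lit 505072) (.g (nat_lit 2241) (.e (nat_lit 164322) (nat_lit 230) (.e (nat_lit 163871) (nat_lit 2) (.e (nat_lit 196654) (nat_lit 11) (.e (nat_lit 16433) (nat_lit 9) (.e (nat_lit 426566) (nat_lit 34) (.e (nat_lit 393254) (nat_lit 18) .nil)))))) (.g (nat_lit 1) (.e (nat_lit 180715) (nat_lit 0) .nil) .nil))) 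
(.lf (nat_lit 505584) (.g (nat_lit 1054) (.e (nat_lit 164326) (nat_lit 230) (.e (nat_lit 163868) (nat_lit 2) (.e (nat_lit 204544) (nat_lit 11) .nil))) (.g (nat_lit 0) (.e (nat_lit 182107) (nat_lit 0) .nil) .nil)))) (.nd (nat_lit 9) 
(.lf (nat_lit 505328) (.g (nat_lit 352) (.e (nat_lit 164325) (nat_lit 230) (.e (nat_lit 163871) (nat_lit 2) (.e (nat_lit 196624) (nat_lit 9) .nil))) (.g (nat_lit 0) (.e (nat_lit 181354) (nat_lit 0) .nil) .nil))) 
(.lf (nat_lit 505840) (.g (nat_lit 3157) (.e (nat_lit 164327) (nat_lit 230) (.e (nat_lit 163871) (nat_lit 2) (.e (nat_lit 196654) (nat_lit 11) (.e (nat_lit 16416) (nat_lit 3) (.e (nat_lit 204834) (nat_lit 19) (.e (nat_lit 106517) (nat_lit 9) (.e (nat_lit 1255) (nat_lit 92) (.e (nat_lit 98333) (nat_lit 18) .nil)))))))) (.g (nat_lit 1) (.e (nat_lit 182603) (nat_lit 0) .nil) .nil))))))))) 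
(.nd (nat_lit 4) (.nd (nat_lit 5) (.nd (nat_lit 6) (.nd (nat_lit 7) (.nd (nat_lit 8) 
(.nd (nat_lit 9) 
(.lf (nat_lit 504840) (.g (nat_lit 812) (.e (nat_lit 164211) (nat_lit 176) (.e (nat_lit 2797) (nat_lit 180) (.e (nat_lit 303119) (nat_lit 3) .nil))) (.g (nat_lit 0) (.e (nat_lit 179329) (nat_lit 0) .nil) .nil))) 
(.lf (nat_lit 505352) (.g (nat_lit 4238) (.e (nat_lit 164325) (nat_lit 230) (.e (nat_lit 163871) (nat_lit 2) (.e (nat_lit 196656) (nat_lit 11) (.e (nat_lit 16463) (nat_lit 13) (.e (nat_lit 483337) (nat_lit 9) (.e (nat_lit 426107) (nat_lit 1) .nil)))))) (.g (nat_lit 1) (.e (nat_lit 181391) (nat_lit 0) .nil) .nil)))) (.nd (nat_lit 9) 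
(.lf (nat_lit 505096) (.g (nat_lit 4643) (.e (nat_lit 164322) (nat_lit 230) (.e (nat_lit 163873) (nat_lit 3) (.e (nat_lit 204813) (nat_lit 9) (.e (nat_lit 426204) (nat_lit 9) .nil)))) (.g (nat_lit 0) (.e (nat_lit 180748) (nat_lit 0) .nil) .nil))) 
(.lf (nat_lit 505608) (.g (nat_lit 1423) (.e (nat_lit 164326) (nat_lit 230) (.e (nat_lit 163871) (nat_lit 2) (.e (nat_lit 196621) (nat_lit 9) .nil))) (.g (nat_lit 0) (.e (nat_lit 182141) (nat_lit 0) .nil) .nil))))) (.nd (nat_lit 8) (.nd (nat_lit 9) 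
(.lf (nat_lit 504968) (.g (nat_lit 3051) (.e (nat_lit 171776) (nat_lit 278) (.e (nat_lit 1125) (nat_lit 83) (.e (nat_lit 16416) (nat_lit 3) (.e (nat_lit 204868) (nat_lit 29) (.e (nat_lit 360466) (nat_lit 3) .nil))))) (.g (nat_lit 0) (.e (nat_lit 179951) (nat_lit 0) .nil) .nil))) 
(.lf (nat_lit 505480) (.g (nat_lit 630) (.e (nat_lit 164325) (nat_lit 230) (.e (nat_lit 163907) (nat_lit 12) (.e (nat_lit 426481) (nat_lit 27) .nil))) (.g (nat_lit 0) (.e (nat_lit 181658) (nat_lit 0) .nil) .nil)))) (.nd (nat_lit 9) 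
(.lf (nat_lit 505224) (.g (nat_lit 868) (.e (nat_lit 164324) (nat_lit 230) (.e (nat_lit 163902) (nat_lit 12) (.e (nat_lit 426567) (nat_lit 34) .nil))) (.g (nat_lit 0) (.e (nat_lit 181009) (nat_lit 0) .nil) .nil))) 
(.lf (nat_lit 505736) (.g (nat_lit 274) (.e (nat_lit 164326) (nat_lit 230) (.e (nat_lit 163903) (nat_lit 12) (.e (nat_lit 426568) (nat_lit 34) .nil))) (.g (nat_lit 0) (.e (nat_lit 182354) (nat_lit 0) .nil) .nil)))))) (.nd (nat_lit 7) (.nd (nat_lit 8) (.nd (nat_lit 9) 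
(.lf (nat_lit 504904) (.g (nat_lit 1924) (.e (nat_lit 164226) (nat_lit 181) (.e (nat_lit 2515) (nat_lit 157) (.e (nat_lit 3090) (nat_lit 191) (.e (nat_lit 483363) (nat_lit 18) (.e (nat_lit 57655) (nat_lit 152) .nil))))) (.g (nat_lit 0) (.e (nat_lit 179487) (nat_lit 0) .nil) .nil))) 
(.lf (nat_lit 505416) (.g (nat_lit 3089) (.e (nat_lit 164325) (nat_lit 230) (.e (nat_lit 163902) (nat_lit 12) (.e (nat_lit 426566) (nat_lit 34) (.e (nat_lit 393270) (nat_lit 23) (.e (nat_lit 426436) (nat_lit 18) .nil))))) (.g (nat_lit 0) (.e (nat_lit 181511) (nat_lit 0) .nil) .nil)))) (.nd (nat_lit 9) 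
(.lf (nat_lit 505160) (.g (nat_lit 3654) (.e (nat_lit 164323) (nat_lit 230) (.e (nat_lit 163873) (nat_lit 3) (.e (nat_lit 204813) (nat_lit 9) (.e (nat_lit 426190) (nat_lit 9) .nil)))) (.g (nat_lit 0) (.e (nat_lit 180917) (nat_lit 0) .nil) .nil))) 
(.lf (nat_lit 505672) (.g (nat_lit 2779) (.e (nat_lit 164326) (nat_lit 230) (.e (nat_lit 163875) (nat_lit 3) (.e (nat_lit 204809) (nat_lit 9) (.e (nat_lit 426188) (nat_lit 9) (.e (nat_lit 426566) (nat_lit 34) (.e (nat_lit 393254) (nat_lit 18) .nil)))))) (.g (nat_lit 1) (.e (nat_lit 182254) (nat_lit 0) .nil) .nil))))) (.nd (nat_lit 8) (.nd (nat_lit 9) 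
(.lf (nat_lit 505032) (.g (nat_lit 1747) (.e (nat_lit 164305) (nat_lit 226) (.e (nat_lit 2433) (nat_lit 157) (.e (nat_lit 2668) (nat_lit 167) (.e (nat_lit 196653) (nat_lit 11) (.e (nat_lit 16435) (nat_lit 9) .nil))))) (.g (nat_lit 0) (.e (nat_lit 180417) (nat_lit 0) .nil) .nil))) 
(.lf (nat_lit 505544) (.g (nat_lit 2379) (.e (nat_lit 164326) (nat_lit 230) (.e (nat_lit 163867) (nat_lit 2) (.e (nat_lit 196656) (nat_lit 11) (.e (nat_lit 16463) (nat_lit 13) (.e (nat_lit 483341) (nat_lit 9) .nil))))) (.g (nat_lit 0) (.e (nat_lit 182042) (nat_lit 0) .nil) .nil)))) (.nd (nat_lit 9) 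
(.lf (nat_lit 505288) (.g (nat_lit 2021) (.e (nat_lit 164325) (nat_lit 230) (.e (nat_lit 163868) (nat_lit 2) (.e (nat_lit 196656) (nat_lit 11) (.e (nat_lit 16433) (nat_lit 9) (.e (nat_lit 426564) (nat_lit 34) .nil))))) (.g (nat_lit 0) (.e (nat_lit 181300) (nat_lit 0) .nil) .nil))) 
(.lf (nat_lit 505800) (.g (nat_lit 1869) (.e (nat_lit 164327) (nat_lit 230) (.e (nat_lit 163868) (nat_lit 2) (.e (nat_lit 196654) (nat_lit 11) (.e (nat_lit 16466) (nat_lit 13) (.e (nat_lit 483340) (nat_lit 9) .nil))))) (.g (nat_lit 0) (.e (nat_lit 182538) (nat_lit 0) .nil) .nil))))))) (.nd (nat_lit 6) (.nd (nat_lit 7) (.nd (nat_lit 8) (.nd (nat_lit 9) 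
(.lf (nat_lit 504872) (.g (nat_lit 2020) (.e (nat_lit 164214) (nat_lit 176) (.e (nat_lit 2797) (nat_lit 180) (.e (nat_lit 303119) (nat_lit 3) (.e (nat_lit 204870) (nat_lit 29) .nil)))) (.g (nat_lit 0) (.e (nat_lit 179381) (nat_lit 0) .nil) .nil))) 
(.lf (nat_lit 505384) (.g (nat_lit 3707) (.e (nat_lit 164325) (nat_lit 230) (.e (nat_lit 163873) (nat_lit 3) (.e (nat_lit 204813) (nat_lit 9) (.e (nat_lit 426204) (nat_lit 9) .nil)))) (.g (nat_lit 0) (.e (nat_lit 181443) (nat_lit 0) .nil) .nil)))) (.nd (nat_lit 9) 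
(.lf (nat_lit 505128) (.g (nat_lit 2856) (.e (nat_lit 164322) (nat_lit 230) (.e (nat_lit 163904) (nat_lit 12) (.e (nat_lit 426566) (nat_lit 34) (.e (nat_lit 393296) (nat_lit 26) .nil)))) (.g (nat_lit 0) (.e (nat_lit 180795) (nat_lit 0) .nil) .nil))) 
(.lf (nat_lit 505640) (.g (nat_lit 2065) (.e (nat_lit 164326) (nat_lit 230) (.e (nat_lit 163871) (nat_lit 2) (.e (nat_lit 196656) (nat_lit 11) (.e (nat_lit 16442) (nat_lit 9) .nil)))) (.g (nat_lit 0) (.e (nat_lit 182192) (nat_lit 0) .nil) .nil))))) (.nd (nat_lit 8) (.nd (nat_lit 9) 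
(.lf (nat_lit 505000) (.g (nat_lit 1019) (.e (nat_lit 164291) (nat_lit 224) (.e (nat_lit 164092) (nat_lit 82) (.e (nat_lit 500046) (nat_lit 16) (.e (nat_lit 16465) (nat_lit 13) (.e (nat_lit 491264) (nat_lit 0) (.e (nat_lit 7098) (nat_lit 380) .nil)))))) (.g (nat_lit 1) (.e (nat_lit 180185) (nat_lit 0) .nil) .nil))) 
(.lf (nat_lit 505512) (.g (nat_lit 2540) (.e (nat_lit 164325) (nat_lit 230) (.e (nat_lit 163941) (nat_lit 19) (.e (nat_lit 483341) (nat_lit 9) (.e (nat_lit 426198) (nat_lit 9) (.e (nat_lit 433920) (nat_lit 18) (.e (nat_lit 98333) (nat_lit 18) .nil)))))) (.g (nat_lit 1) (.e (nat_lit 181939) (nat_lit 0) .nil) .nil)))) (.nd (nat_lit 9) 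
(.lf (nat_lit 505256) (.g (nat_lit 3402) (.e (nat_lit 164325) (nat_lit 230) (.e (nat_lit 163866) (nat_lit 2) (.e (nat_lit 196654) (nat_lit 11) (.e (nat_lit 16433) (nat_lit 9) (.e (nat_lit 426568) (nat_lit 34) (.e (nat_lit 393253) (nat_lit 18) .nil)))))) (.g (nat_lit 1) (.e (nat_lit 181246) (nat_lit 0) .nil) .nil))) 
(.lf (nat_lit 505768) (.g (nat_lit 2182) (.e (nat_lit 164326) (nat_lit 230) (.e (nat_lit 163943) (nat_lit 19) (.e (nat_lit 483341) (nat_lit 9) (.e (nat_lit 426198) (nat_lit 9) .nil)))) (.g (nat_lit 0) (.e (nat_lit 182470) (nat_lit 0) .nil) .nil)))))) (.nd (nat_lit 7) (.nd (nat_lit 8) (.nd (nat_lit 9) 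
(.lf (nat_lit 504936) (.g (nat_lit 2845) (.e (nat_lit 171776) (nat_lit 187) (.e (nat_lit 1634) (nat_lit 114) (.e (nat_lit 385074) (nat_lit 31) (.e (nat_lit 573491) (nat_lit 15) (.e (nat_lit 81951) (nat_lit 22) .nil))))) (.g (nat_lit 0) (.e (nat_lit 179668) (nat_lit 0) .nil) .nil))) 
(.lf (nat_lit 505448) (.g (nat_lit 4093) (.e (nat_lit 164325) (nat_lit 230) (.e (nat_lit 163903) (nat_lit 12) (.e (nat_lit 426568) (nat_lit 34) (.e (nat_lit 393294) (nat_lit 26) (.e (nat_lit 475179) (nat_lit 24) (.e (nat_lit 516119) (nat_lit 1) .nil)))))) (.g (nat_lit 1) (.e (nat_lit 181572) (nat_lit 0) .nil) .nil)))) (.nd (nat_lit 9) 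
(.lf (nat_lit 505192) (.g (nat_lit 1979) (.e (nat_lit 164324) (nat_lit 230) (.e (nat_lit 163871) (nat_lit 2) (.e (nat_lit 196654) (nat_lit 11) (.e (nat_lit 16435) (nat_lit 9) (.e (nat_lit 426566) (nat_lit 34) .nil))))) (.g (nat_lit 0) (.e (nat_lit 180968) (nat_lit 0) .nil) .nil))) 
(.lf (nat_lit 505704) (.g (nat_lit 3088) (.e (nat_lit 164326) (nat_lit 230) (.e (nat_lit 163902) (nat_lit 12) (.e (nat_lit 426566) (nat_lit 34) (.e (nat_lit 393290) (nat_lit 26) .nil)))) (.g (nat_lit 0) (.e (nat_lit 182296) (nat_lit 0) .nil) .nil))))) (.nd (nat_lit 8) (.nd (nat_lit 9) 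
(.lf (nat_lit 505064) (.g (nat_lit 2408) (.e (nat_lit 164322) (nat_lit 230) (.e (nat_lit 163868) (nat_lit 2) (.e (nat_lit 196656) (nat_lit 11) (.e (nat_lit 16433) (nat_lit 9) (.e (nat_lit 426566) (nat_lit 34) .nil))))) (.g (nat_lit 0) (.e (nat_lit 180705) (nat_lit 0) .nil) .nil))) 
(.lf (nat_lit 505576) (.g (nat_lit 1662) (.e (nat_lit 164326) (nat_lit 230) (.e (nat_lit 163868) (nat_lit 2) (.e (nat_lit 196656) (nat_lit 11) (.e (nat_lit 16432) (nat_lit 9) .nil)))) (.g (nat_lit 0) (.e (nat_lit 182095) (nat_lit 0) .nil) .nil)))) (.nd (nat_lit 9) 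
(.lf (nat_lit 505320) (.g (nat_lit 1507) (.e (nat_lit 164325) (nat_lit 230) (.e (nat_lit 163869) (nat_lit 2) (.e (nat_lit 196656) (nat_lit 11) (.e (nat_lit 16444) (nat_lit 9) .nil)))) (.g (nat_lit 0) (.e (nat_lit 181342) (nat_lit 0) .nil) .nil))) 
(.lf (nat_lit 505832) (.g (nat_lit 491) (.e (nat_lit 164327) (nat_lit 230) (.e (nat_lit 163871) (nat_lit 2) (.e (nat_lit 196624) (nat_lit 9) .nil))) (.g (nat_lit 0) (.e (nat_lit 182589) (nat_lit 0) .nil) .nil)))))))) (.nd (nat_lit 5) (.nd (nat_lit 6) (.nd (nat_lit 7) (.nd (nat_lit 8) (.nd (nat_lit 9) 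
(.lf (nat_lit 504856) (.g (nat_lit 1966) (.e (nat_lit 164212) (nat_lit 176) (.e (nat_lit 2797) (nat_lit 180) (.e (nat_lit 303119) (nat_lit 3) (.e (nat_lit 204858) (nat_lit 26) .nil)))) (.g (nat_lit 0) (.e (nat_lit 179351) (nat_lit 0) .nil) .nil))) 
(.lf (nat_lit 505368) (.g (nat_lit 3312) (.e (nat_lit 164325) (nat_lit 230) (.e (nat_lit 163873) (nat_lit 3) (.e (nat_lit 204813) (nat_lit 9) (.e (nat_lit 426185) (nat_lit 9) .nil)))) (.g (nat_lit 0) (.e (nat_lit 181426) (nat_lit 0) .nil) .nil)))) (.nd (nat_lit 9) 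
(.lf (nat_lit 505112) (.g (nat_lit 1900) (.e (nat_lit 164322) (nat_lit 230) (.e (nat_lit 163902) (nat_lit 12) (.e (nat_lit 426566) (nat_lit 34) (.e (nat_lit 393270) (nat_lit 23) .nil)))) (.g (nat_lit 0) (.e (nat_lit 180779) (nat_lit 0) .nil) .nil))) 
(.lf (nat_lit 505624) (.g (nat_lit 1013) (.e (nat_lit 164326) (nat_lit 230) (.e (nat_lit 163871) (nat_lit 2) (.e (nat_lit 196651) (nat_lit 10) .nil))) (.g (nat_lit 0) (.e (nat_lit 182166) (nat_lit 0) .nil) .nil))))) (.nd (nat_lit 8) (.nd (nat_lit 9) 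
(.lf (nat_lit 504984) (.g (nat_lit 1414) (.e (nat_lit 164284) (nat_lit 224) (.e (nat_lit 164092) (nat_lit 82) (.e (nat_lit 500046) (nat_lit 16) (.e (nat_lit 16466) (nat_lit 13) (.e (nat_lit 491264) (nat_lit 0) .nil))))) (.g (nat_lit 0) (.e (nat_lit 180036) (nat_lit 0) .nil) .nil))) 
(.lf (nat_lit 505496) (.g (nat_lit 2098) (.e (nat_lit 164325) (nat_lit 230) (.e (nat_lit 163907) (nat_lit 12) (.e (nat_lit 426568) (nat_lit 34) (.e (nat_lit 393271) (nat_lit 23) (.e (nat_lit 426434) (nat_lit 18) (.e (nat_lit 98333) (nat_lit 18) .nil)))))) (.g (nat_lit 1) (.e (nat_lit 181684) (nat_lit 0) .nil) .nil)))) (.nd (nat_lit 9) 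
(.lf (nat_lit 505240) (.g (nat_lit 789) (.e (nat_lit 164324) (nat_lit 230) (.e (nat_lit 163907) (nat_lit 12) (.e (nat_lit 426568) (nat_lit 34) .nil))) (.g (nat_lit 0) (.e (nat_lit 181028) (nat_lit 0) .nil) .nil))) 
(.lf (nat_lit 505752) (.g (nat_lit 2335) (.e (nat_lit 164326) (nat_lit 230) (.e (nat_lit 163905) (nat_lit 12) (.e (nat_lit 426566) (nat_lit 34) (.e (nat_lit 393296) (nat_lit 26) .nil)))) (.g (nat_lit 0) (.e (nat_lit 182373) (nat_lit 0) .nil) .nil)))))) (.nd (nat_lit 7) (.nd (nat_lit 8) (.nd (nat_lit 9) 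
(.lf (nat_lit 504920) (.g (nat_lit 1664) (.e (nat_lit 171776) (nat_lit 206) (.e (nat_lit 180244) (nat_lit 5) (.e (nat_lit 532523) (nat_lit 7) (.e (nat_lit 327424) (nat_lit 16) .nil)))) (.g (nat_lit 0) (.e (nat_lit 179640) (nat_lit 0) .nil) .nil))) 
(.lf (nat_lit 505432) (.g (nat_lit 3883) (.e (nat_lit 164325) (nat_lit 230) (.e (nat_lit 163903) (nat_lit 12) (.e (nat_lit 426438) (nat_lit 18) (.e (nat_lit 98373) (nat_lit 29) (.e (nat_lit 450563) (nat_lit 0) (.e (nat_lit 6841) (nat_lit 369) (.e (nat_lit 163862) (nat_lit 1) .nil))))))) (.g (nat_lit 1) (.e (nat_lit 181546) (nat_lit 0) .nil) .nil)))) (.nd (nat_lit 9) 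
(.lf (nat_lit 505176) (.g (nat_lit 1433) (.e (nat_lit 164324) (nat_lit 230) (.e (nat_lit 163868) (nat_lit 2) (.e (nat_lit 196624) (nat_lit 9) (.e (nat_lit 433) (nat_lit 32) .nil)))) (.g (nat_lit 0) (.e (nat_lit 180948) (nat_lit 0) .nil) .nil))) 
(.lf (nat_lit 505688) (.g (nat_lit 836) (.e (nat_lit 164326) (nat_lit 230) (.e (nat_lit 163881) (nat_lit 4) (.e (nat_lit 213030) (nat_lit 11) (.e (nat_lit 24660) (nat_lit 13) (.e (nat_lit 393277) (nat_lit 23) .nil))))) (.g (nat_lit 0) (.e (nat_lit 182272) (nat_lit 0) .nil) .nil))))) (.nd (nat_lit 8) (.nd (nat_lit 9) 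
(.lf (nat_lit 505048) (.g (nat_lit 692) (.e (nat_lit 164322) (nat_lit 230) (.e (nat_lit 163867) (nat_lit 2) (.e (nat_lit 196622) (nat_lit 9) .nil))) (.g (nat_lit 0) (.e (nat_lit 180679) (nat_lit 0) .nil) .nil))) 
(.lf (nat_lit 505560) (.g (nat_lit 1318) (.e (nat_lit 164326) (nat_lit 230) (.e (nat_lit 163868) (nat_lit 2) (.e (nat_lit 196643) (nat_lit 9) .nil))) (.g (nat_lit 0) (.e (nat_lit 182069) (nat_lit 0) .nil) .nil)))) (.nd (nat_lit 9) 
(.lf (nat_lit 505304) (.g (nat_lit 765) (.e (nat_lit 164325) (nat_lit 230) (.e (nat_lit 163869) (nat_lit 2) (.e (nat_lit 196622) (nat_lit 9) .nil))) (.g (nat_lit 0) (.e (nat_lit 181323) (nat_lit 0) .nil) .nil))) 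
(.lf (nat_lit 505816) (.g (nat_lit 3938) (.e (nat_lit 164327) (nat_lit 230) (.e (nat_lit 163868) (nat_lit 2) (.e (nat_lit 196656) (nat_lit 11) (.e (nat_lit 16466) (nat_lit 13) (.e (nat_lit 483341) (nat_lit 9) (.e (nat_lit 426107) (nat_lit 1) .nil)))))) (.g (nat_lit 1) (.e (nat_lit 182570) (nat_lit 0) .nil) .nil))))))) (.nd (nat_lit 6) (.nd (nat_lit 7) (.nd (nat_lit 8) (.nd (nat_lit 9) 
(.lf (nat_lit 504888) (.g (nat_lit 1442) (.e (nat_lit 171776) (nat_lit 176) (.e (nat_lit 2797) (nat_lit 180) (.e (nat_lit 303119) (nat_lit 3) (.e (nat_lit 204877) (nat_lit 31) .nil)))) (.g (nat_lit 0) (.e (nat_lit 179402) (nat_lit 0) .nil) .nil))) 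
(.lf (nat_lit 505400) (.g (nat_lit 1156) (.e (nat_lit 164325) (nat_lit 230) (.e (nat_lit 163875) (nat_lit 3) (.e (nat_lit 204813) (nat_lit 9) (.e (nat_lit 426198) (nat_lit 9) .nil)))) (.g (nat_lit 0) (.e (nat_lit 181486) (nat_lit 0) .nil) .nil)))) (.nd (nat_lit 9) 
(.lf (nat_lit 505144) (.g (nat_lit 2086) (.e (nat_lit 164323) (nat_lit 230) (.e (nat_lit 163867) (nat_lit 2) (.e (nat_lit 196656) (nat_lit 11) (.e (nat_lit 16435) (nat_lit 9) .nil)))) (.g (nat_lit 0) (.e (nat_lit 180900) (nat_lit 0) .nil) .nil))) 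
(.lf (nat_lit 505656) (.g (nat_lit 2285) (.e (nat_lit 164326) (nat_lit 230) (.e (nat_lit 163873) (nat_lit 3) (.e (nat_lit 204813) (nat_lit 9) (.e (nat_lit 426197) (nat_lit 9) .nil)))) (.g (nat_lit 0) (.e (nat_lit 182228) (nat_lit 0) .nil) .nil))))) (.nd (nat_lit 8) (.nd (nat_lit 9) 
(.lf (nat_lit 505016) (.g (nat_lit 1089) (.e (nat_lit 164294) (nat_lit 224) (.e (nat_lit 164092) (nat_lit 82) (.e (nat_lit 500046) (nat_lit 16) (.e (nat_lit 16463) (nat_lit 13) (.e (nat_lit 491264) (nat_lit 0) .nil))))) (.g (nat_lit 0) (.e (nat_lit 180295) (nat_lit 0) .nil) .nil))) 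
(.lf (nat_lit 505528) (.g (nat_lit 462) (.e (nat_lit 164325) (nat_lit 230) (.e (nat_lit 163943) (nat_lit 19) (.e (nat_lit 483341) (nat_lit 9) .nil))) (.g (nat_lit 0) (.e (nat_lit 181978) (nat_lit 0) .nil) .nil)))) (.nd (nat_lit 9) 
(.lf (nat_lit 505272) (.g (nat_lit 437) (.e (nat_lit 164325) (nat_lit 230) (.e (nat_lit 163868) (nat_lit 2) (.e (nat_lit 196624) (nat_lit 9) .nil))) (.g (nat_lit 0) (.e (nat_lit 181270) (nat_lit 0) .nil) .nil))) 
(.lf (nat_lit 505784) (.g (nat_lit 2517) (.e (nat_lit 164327) (nat_lit 230) (.e (nat_lit 163868) (nat_lit 2) (.e (nat_lit 196654) (nat_lit 11) (.e (nat_lit 16416) (nat_lit 3) (.e (nat_lit 204833) (nat_lit 19) (.e (nat_lit 106523) (nat_lit 9) (.e (nat_lit 1254) (nat_lit 92) (.e (nat_lit 98333) (nat_lit 18) .nil)))))))) (.g (nat_lit 1) (.e (nat_lit 182514) (nat_lit 0) .nil) .nil)))))) 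
(.nd (nat_lit 7) (.nd (nat_lit 8) (.nd (nat_lit 9) 
(.lf (nat_lit 504952) (.g (nat_lit 1620) (.e (nat_lit 171776) (nat_lit 192) (.e (nat_lit 73746) (nat_lit 3) (.e (nat_lit 516098) (nat_lit 0) (.e (nat_lit 7593) (nat_lit 407) (.e (nat_lit 73738) (nat_lit 1) .nil))))) (.g (nat_lit 0) (.e (nat_lit 179695) (nat_lit 0) .nil) .nil))) 
(.lf (nat_lit 505464) (.g (nat_lit 604) (.e (nat_lit 164325) (nat_lit 230) (.e (nat_lit 163905) (nat_lit 12) (.e (nat_lit 426131) (nat_lit 3) .nil))) (.g (nat_lit 0) (.e (nat_lit 181588) (nat_lit 0) .nil) .nil)))) (.nd (nat_lit 9) 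
(.lf (nat_lit 505208) (.g (nat_lit 4120) (.e (nat_lit 164324) (nat_lit 230) (.e (nat_lit 163873) (nat_lit 3) (.e (nat_lit 204813) (nat_lit 9) (.e (nat_lit 426258) (nat_lit 9) .nil)))) (.g (nat_lit 0) (.e (nat_lit 180984) (nat_lit 0) .nil) .nil))) 
(.lf (nat_lit 505720) (.g (nat_lit 1621) (.e (nat_lit 164326) (nat_lit 230) (.e (nat_lit 163903) (nat_lit 12) (.e (nat_lit 426479) (nat_lit 27) (.e (nat_lit 336428) (nat_lit 29) (.e (nat_lit 450304) (nat_lit 3) (.e (nat_lit 98332) (nat_lit 18) .nil)))))) (.g (nat_lit 1) (.e (nat_lit 182331) (nat_lit 0) .nil) .nil))))) (.nd (nat_lit 8) (.nd (nat_lit 9) 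
(.lf (nat_lit 505080) (.g (nat_lit 1848) (.e (nat_lit 164322) (nat_lit 230) (.e (nat_lit 163871) (nat_lit 2) (.e (nat_lit 196656) (nat_lit 11) (.e (nat_lit 16444) (nat_lit 9) (.e (nat_lit 426503) (nat_lit 27) .nil))))) (.g (nat_lit 0) (.e (nat_lit 180724) (nat_lit 0) .nil) .nil))) 
(.lf (nat_lit 505592) (.g (nat_lit 650) (.e (nat_lit 164326) (nat_lit 230) (.e (nat_lit 163870) (nat_lit 2) (.e (nat_lit 196620) (nat_lit 9) .nil))) (.g (nat_lit 0) (.e (nat_lit 182119) (nat_lit 0) .nil) .nil)))) (.nd (nat_lit 9) 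
(.lf (nat_lit 505336) (.g (nat_lit 1603) (.e (nat_lit 164325) (nat_lit 230) (.e (nat_lit 163871) (nat_lit 2) (.e (nat_lit 196656) (nat_lit 11) (.e (nat_lit 16388) (nat_lit 0) .nil)))) (.g (nat_lit 0) (.e (nat_lit 181367) (nat_lit 0) .nil) .nil))) 
(.lf (nat_lit 505848) (.g (nat_lit 1951) (.e (nat_lit 164327) (nat_lit 230) (.e (nat_lit 163871) (nat_lit 2) (.e (nat_lit 196654) (nat_lit 11) (.e (nat_lit 16436) (nat_lit 9) (.e (nat_lit 426478) (nat_lit 27) .nil))))) (.g (nat_lit 0) (.e (nat_lit 182614) (nat_lit 0) .nil) .nil)))))))))) 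
(.nd (nat_lit 3) (.nd (nat_lit 4) (.nd (nat_lit 5) (.nd (nat_lit 6) (.nd (nat_lit 7) 
(.nd (nat_lit 8) (.nd (nat_lit 9) 
(.lf (nat_lit 504836) (.g (nat_lit 2646) (.e (nat_lit 164211) (nat_lit 176) (.e (nat_lit 2797) (nat_lit 180) (.e (nat_lit 303117) (nat_lit 2) (.e (nat_lit 196672) (nat_lit 15) (.e (nat_lit 81953) (nat_lit 22) .nil))))) (.g (nat_lit 0) (.e (nat_lit 179325) (nat_lit 0) .nil) .nil))) 
(.lf (nat_lit 505348) (.g (nat_lit 1945) (.e (nat_lit 164325) (nat_lit 230) (.e (nat_lit 163871) (nat_lit 2) (.e (nat_lit 196656) (nat_lit 11) (.e (nat_lit 16438) (nat_lit 9) (.e (nat_lit 426567) (nat_lit 34) .nil))))) (.g (nat_lit 0) (.e (nat_lit 181383) (nat_lit 0) .nil) .nil)))) (.nd (nat_lit 9) 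
(.lf (nat_lit 505092) (.g (nat_lit 2407) (.e (nat_lit 164322) (nat_lit 230) (.e (nat_lit 163873) (nat_lit 3) (.e (nat_lit 204813) (nat_lit 9) (.e (nat_lit 426198) (nat_lit 9) .nil)))) (.g (nat_lit 0) (.e (nat_lit 180743) (nat_lit 0) .nil) .nil))) 
(.lf (nat_lit 505604) (.g (nat_lit 3004) (.e (nat_lit 164326) (nat_lit 230) (.e (nat_lit 163870) (nat_lit 2) (.e (nat_lit 196656) (nat_lit 11) (.e (nat_lit 16463) (nat_lit 13) (.e (nat_lit 483341) (nat_lit 9) .nil))))) (.g (nat_lit 0) (.e (nat_lit 182134) (nat_lit 0) .nil) .nil))))) (.nd (nat_lit 8) (.nd (nat_lit 9) 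
(.lf (nat_lit 504964) (.g (nat_lit 2955) (.e (nat_lit 171776) (nat_lit 192) (.e (nat_lit 73747) (nat_lit 3) (.e (nat_lit 516185) (nat_lit 16) (.e (nat_lit 491560) (nat_lit 10) (.e (nat_lit 344109) (nat_lit 19) .nil))))) (.g (nat_lit 0) (.e (nat_lit 179708) (nat_lit 0) .nil) .nil))) 
(.lf (nat_lit 505476) (.g (nat_lit 828) (.e (nat_lit 164325) (nat_lit 230) (.e (nat_lit 163907) (nat_lit 12) (.e (nat_lit 426422) (nat_lit 16) .nil))) (.g (nat_lit 0) (.e (nat_lit 181653) (nat_lit 0) .nil) .nil)))) (.nd (nat_lit 9) 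
(.lf (nat_lit 505220) (.g (nat_lit 3357) (.e (nat_lit 164324) (nat_lit 230) (.e (nat_lit 163902) (nat_lit 12) (.e (nat_lit 426566) (nat_lit 34) (.e (nat_lit 393291) (nat_lit 26) (.e (nat_lit 475177) (nat_lit 24) (.e (nat_lit 516118) (nat_lit 1) .nil)))))) (.g (nat_lit 1) (.e (nat_lit 181005) (nat_lit 0) .nil) .nil))) 
(.lf (nat_lit 505732) (.g (nat_lit 3419) (.e (nat_lit 164326) (nat_lit 230) (.e (nat_lit 163903) (nat_lit 12) (.e (nat_lit 426566) (nat_lit 34) (.e (nat_lit 393294) (nat_lit 26) (.e (nat_lit 475177) (nat_lit 24) (.e (nat_lit 516118) (nat_lit 1) .nil)))))) (.g (nat_lit 1) (.e (nat_lit 182350) (nat_lit 0) .nil) .nil)))))) (.nd (nat_lit 7) (.nd (nat_lit 8) (.nd (nat_lit 9) 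
(.lf (nat_lit 504900) (.g (nat_lit 1854) (.e (nat_lit 171776) (nat_lit 176) (.e (nat_lit 2798) (nat_lit 180) (.e (nat_lit 303119) (nat_lit 3) (.e (nat_lit 204878) (nat_lit 31) (.e (nat_lit 376865) (nat_lit 22) .nil))))) (.g (nat_lit 0) (.e (nat_lit 179429) (nat_lit 0) .nil) .nil))) 
(.lf (nat_lit 505412) (.g (nat_lit 2735) (.e (nat_lit 164325) (nat_lit 230) (.e (nat_lit 163882) (nat_lit 4) (.e (nat_lit 213031) (nat_lit 11) (.e (nat_lit 24627) (nat_lit 9) (.e (nat_lit 336443) (nat_lit 32) (.e (nat_lit 466971) (nat_lit 21) .nil)))))) (.g (nat_lit 1) (.e (nat_lit 181500) (nat_lit 0) .nil) .nil)))) (.nd (nat_lit 9) 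
(.lf (nat_lit 505156) (.g (nat_lit 1778) (.e (nat_lit 164323) (nat_lit 230) (.e (nat_lit 163871) (nat_lit 2) (.e (nat_lit 196656) (nat_lit 11) (.e (nat_lit 16463) (nat_lit 13) .nil)))) (.g (nat_lit 0) (.e (nat_lit 180913) (nat_lit 0) .nil) .nil))) 
(.lf (nat_lit 505668) (.g (nat_lit 2509) (.e (nat_lit 164326) (nat_lit 230) (.e (nat_lit 163874) (nat_lit 3) (.e (nat_lit 204813) (nat_lit 9) (.e (nat_lit 426200) (nat_lit 9) (.e (nat_lit 426566) (nat_lit 34) (.e (nat_lit 393254) (nat_lit 18) .nil)))))) (.g (nat_lit 1) (.e (nat_lit 182248) (nat_lit 0) .nil) .nil))))) (.nd (nat_lit 8) (.nd (nat_lit 9) 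
(.lf (nat_lit 505028) (.g (nat_lit 1274) (.e (nat_lit 164300) (nat_lit 226) (.e (nat_lit 2433) (nat_lit 157) (.e (nat_lit 2668) (nat_lit 167) (.e (nat_lit 196655) (nat_lit 11) .nil)))) (.g (nat_lit 0) (.e (nat_lit 180340) (nat_lit 0) .nil) .nil))) 
(.lf (nat_lit 505540) (.g (nat_lit 1878) (.e (nat_lit 164326) (nat_lit 230) (.e (nat_lit 163867) (nat_lit 2) (.e (nat_lit 196654) (nat_lit 11) (.e (nat_lit 16466) (nat_lit 13) (.e (nat_lit 483341) (nat_lit 9) .nil))))) (.g (nat_lit 0) (.e (nat_lit 182037) (nat_lit 0) .nil) .nil)))) (.nd (nat_lit 9) 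
(.lf (nat_lit 505284) (.g (nat_lit 360) (.e (nat_lit 164325) (nat_lit 230) (.e (nat_lit 163868) (nat_lit 2) (.e (nat_lit 196656) (nat_lit 11) .nil))) (.g (nat_lit 0) (.e (nat_lit 181293) (nat_lit 0) .nil) .nil))) 
(.lf (nat_lit 505796) (.g (nat_lit 2757) (.e (nat_lit 164327) (nat_lit 230) (.e (nat_lit 163868) (nat_lit 2) (.e (nat_lit 196654) (nat_lit 11) (.e (nat_lit 16463) (nat_lit 13) (.e (nat_lit 483336) (nat_lit 9) (.e (nat_lit 426107) (nat_lit 1) .nil)))))) (.g (nat_lit 1) (.e (nat_lit 182532) (nat_lit 0) .nil) .nil))))))) (.nd (nat_lit 6) (.nd (nat_lit 7) (.nd (nat_lit 8) (.nd (nat_lit 9) 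
(.lf (nat_lit 504868) (.g (nat_lit 2706) (.e (nat_lit 164214) (nat_lit 176) (.e (nat_lit 2797) (nat_lit 180) (.e (nat_lit 303117) (nat_lit 2) (.e (nat_lit 196674) (nat_lit 15) (.e (nat_lit 81953) (nat_lit 22) .nil))))) (.g (nat_lit 0) (.e (nat_lit 179375) (nat_lit 0) .nil) .nil))) 
(.lf (nat_lit 505380) (.g (nat_lit 2594) (.e (nat_lit 164325) (nat_lit 230) (.e (nat_lit 163873) (nat_lit 3) (.e (nat_lit 204813) (nat_lit 9) (.e (nat_lit 426199) (nat_lit 9) (.e (nat_lit 426566) (nat_lit 34) .nil))))) (.g (nat_lit 0) (.e (nat_lit 181439) (nat_lit 0) .nil) .nil)))) (.nd (nat_lit 9) 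
(.lf (nat_lit 505124) (.g (nat_lit 2477) (.e (nat_lit 164322) (nat_lit 230) (.e (nat_lit 163902) (nat_lit 12) (.e (nat_lit 426568) (nat_lit 34) (.e (nat_lit 393271) (nat_lit 23) (.e (nat_lit 426434) (nat_lit 18) .nil))))) (.g (nat_lit 0) (.e (nat_lit 180791) (nat_lit 0) .nil) .nil))) 
(.lf (nat_lit 505636) (.g (nat_lit 2418) (.e (nat_lit 164326) (nat_lit 230) (.e (nat_lit 163871) (nat_lit 2) (.e (nat_lit 196656) (nat_lit 11) (.e (nat_lit 16434) (nat_lit 9) .nil)))) (.g (nat_lit 0) (.e (nat_lit 182188) (nat_lit 0) .nil) .nil))))) (.nd (nat_lit 8) (.nd (nat_lit 9) 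
(.lf (nat_lit 504996) (.g (nat_lit 2086) (.e (nat_lit 164288) (nat_lit 224) (.e (nat_lit 164358) (nat_lit 246) (.e (nat_lit 351) (nat_lit 28) (.e (nat_lit 393271) (nat_lit 23) (.e (nat_lit 433920) (nat_lit 17) .nil))))) (.g (nat_lit 0) (.e (nat_lit 180131) (nat_lit 0) .nil) .nil))) 
(.lf (nat_lit 505508) (.g (nat_lit 3950) (.e (nat_lit 164325) (nat_lit 230) (.e (nat_lit 163941) (nat_lit 19) (.e (nat_lit 483341) (nat_lit 9) (.e (nat_lit 426031) (nat_lit 0) .nil)))) (.g (nat_lit 0) (.e (nat_lit 181928) (nat_lit 0) .nil) .nil)))) (.nd (nat_lit 9) 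
(.lf (nat_lit 505252) (.g (nat_lit 893) (.e (nat_lit 164325) (nat_lit 230) (.e (nat_lit 163850) (nat_lit 0) (.e (nat_lit 3252) (nat_lit 197) (.e (nat_lit 532579) (nat_lit 26) .nil)))) (.g (nat_lit 0) (.e (nat_lit 181117) (nat_lit 0) .nil) .nil))) 
(.lf (nat_lit 505764) (.g (nat_lit 2282) (.e (nat_lit 164326) (nat_lit 230) (.e (nat_lit 163941) (nat_lit 19) (.e (nat_lit 483341) (nat_lit 9) (.e (nat_lit 433920) (nat_lit 9) .nil)))) (.g (nat_lit 0) (.e (nat_lit 182458) (nat_lit 0) .nil) .nil)))))) (.nd (nat_lit 7) (.nd (nat_lit 8) (.nd (nat_lit 9) 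
(.lf (nat_lit 504932) (.g (nat_lit 3020) (.e (nat_lit 164239) (nat_lit 187) (.e (nat_lit 1638) (nat_lit 114) (.e (nat_lit 385074) (nat_lit 31) (.e (nat_lit 573482) (nat_lit 13) (.e (nat_lit 65603) (nat_lit 9) .nil))))) (.g (nat_lit 0) (.e (nat_lit 179654) (nat_lit 0) .nil) .nil))) 
(.lf (nat_lit 505444) (.g (nat_lit 3445) (.e (nat_lit 164325) (nat_lit 230) (.e (nat_lit 163903) (nat_lit 12) (.e (nat_lit 426566) (nat_lit 34) (.e (nat_lit 393296) (nat_lit 26) (.e (nat_lit 475177) (nat_lit 24) (.e (nat_lit 516118) (nat_lit 1) .nil)))))) (.g (nat_lit 1) (.e (nat_lit 181568) (nat_lit 0) .nil) .nil)))) (.nd (nat_lit 9) 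
(.lf (nat_lit 505188) (.g (nat_lit 734) (.e (nat_lit 164324) (nat_lit 230) (.e (nat_lit 163869) (nat_lit 2) (.e (nat_lit 196656) (nat_lit 11) .nil))) (.g (nat_lit 0) (.e (nat_lit 180963) (nat_lit 0) .nil) .nil))) 
(.lf (nat_lit 505700) (.g (nat_lit 1325) (.e (nat_lit 164326) (nat_lit 230) (.e (nat_lit 163884) (nat_lit 5) (.e (nat_lit 221194) (nat_lit 11) (.e (nat_lit 336084) (nat_lit 9) .nil)))) (.g (nat_lit 0) (.e (nat_lit 182287) (nat_lit 0) .nil) .nil))))) (.nd (nat_lit 8) (.nd (nat_lit 9) 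
(.lf (nat_lit 505060) (.g (nat_lit 1578) (.e (nat_lit 164322) (nat_lit 230) (.e (nat_lit 163867) (nat_lit 2) (.e (nat_lit 196656) (nat_lit 11) (.e (nat_lit 16446) (nat_lit 9) .nil)))) (.g (nat_lit 0) (.e (nat_lit 180697) (nat_lit 0) .nil) .nil))) 
(.lf (nat_lit 505572) (.g (nat_lit 3786) (.e (nat_lit 164326) (nat_lit 230) (.e (nat_lit 163868) (nat_lit 2) (.e (nat_lit 196655) (nat_lit 11) (.e (nat_lit 16465) (nat_lit 13) (.e (nat_lit 483337) (nat_lit 9) (.e (nat_lit 426107) (nat_lit 1) .nil)))))) (.g (nat_lit 1) (.e (nat_lit 182083) (nat_lit 0) .nil) .nil)))) (.nd (nat_lit 9) 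
(.lf (nat_lit 505316) (.g (nat_lit 716) (.e (nat_lit 164325) (nat_lit 230) (.e (nat_lit 163869) (nat_lit 2) (.e (nat_lit 196656) (nat_lit 11) .nil))) (.g (nat_lit 0) (.e (nat_lit 181337) (nat_lit 0) .nil) .nil))) 
(.lf (nat_lit 505828) (.g (nat_lit 2569) (.e (nat_lit 164327) (nat_lit 230) (.e (nat_lit 163870) (nat_lit 2) (.e (nat_lit 196654) (nat_lit 11) (.e (nat_lit 16433) (nat_lit 9) (.e (nat_lit 426568) (nat_lit 34) .nil))))) (.g (nat_lit 0) (.e (nat_lit 182584) (nat_lit 0) .nil) .nil)))))))) (.nd (nat_lit 5) (.nd (nat_lit 6) (.nd (nat_lit 7) (.nd (nat_lit 8) (.nd (nat_lit 9) 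
(.lf (nat_lit 504852) (.g (nat_lit 785) (.e (nat_lit 164212) (nat_lit 176) (.e (nat_lit 2797) (nat_lit 180) (.e (nat_lit 303117) (nat_lit 2) .nil))) (.g (nat_lit 0) (.e (nat_lit 179347) (nat_lit 0) .nil) .nil))) 
(.lf (nat_lit 505364) (.g (nat_lit 4535) (.e (nat_lit 164325) (nat_lit 230) (.e (nat_lit 163873) (nat_lit 3) (.e (nat_lit 204813) (nat_lit 9) (.e (nat_lit 426133) (nat_lit 3) .nil)))) (.g (nat_lit 0) (.e (nat_lit 181419) (nat_lit 0) .nil) .nil)))) (.nd (nat_lit 9) 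
(.lf (nat_lit 505108) (.g (nat_lit 1760) (.e (nat_lit 164322) (nat_lit 230) (.e (nat_lit 163885) (nat_lit 5) (.e (nat_lit 221194) (nat_lit 11) (.e (nat_lit 336074) (nat_lit 9) .nil)))) (.g (nat_lit 0) (.e (nat_lit 180774) (nat_lit 0) .nil) .nil))) 
(.lf (nat_lit 505620) (.g (nat_lit 1442) (.e (nat_lit 164326) (nat_lit 230) (.e (nat_lit 163871) (nat_lit 2) (.e (nat_lit 196638) (nat_lit 9) .nil))) (.g (nat_lit 0) (.e (nat_lit 182161) (nat_lit 0) .nil) .nil))))) (.nd (nat_lit 8) (.nd (nat_lit 9) 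
(.lf (nat_lit 504980) (.g (nat_lit 976) (.e (nat_lit 164269) (nat_lit 221) (.e (nat_lit 2576) (nat_lit 161) (.e (nat_lit 40996) (nat_lit 11) (.e (nat_lit 24657) (nat_lit 13) (.e (nat_lit 401152) (nat_lit 17) .nil))))) (.g (nat_lit 0) (.e (nat_lit 179996) (nat_lit 0) .nil) .nil))) 
(.lf (nat_lit 505492) (.g (nat_lit 3770) (.e (nat_lit 164325) (nat_lit 230) (.e (nat_lit 163907) (nat_lit 12) (.e (nat_lit 426566) (nat_lit 34) (.e (nat_lit 393296) (nat_lit 26) (.e (nat_lit 475179) (nat_lit 24) (.e (nat_lit 516119) (nat_lit 1) .nil)))))) (.g (nat_lit 1) (.e (nat_lit 181680) (nat_lit 0) .nil) .nil)))) (.nd (nat_lit 9) 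
(.lf (nat_lit 505236) (.g (nat_lit 2030) (.e (nat_lit 164324) (nat_lit 230) (.e (nat_lit 163905) (nat_lit 12) (.e (nat_lit 426566) (nat_lit 34) (.e (nat_lit 393296) (nat_lit 26) .nil)))) (.g (nat_lit 0) (.e (nat_lit 181022) (nat_lit 0) .nil) .nil))) 
(.lf (nat_lit 505748) (.g (nat_lit 1853) (.e (nat_lit 164326) (nat_lit 230) (.e (nat_lit 163904) (nat_lit 12) (.e (nat_lit 426566) (nat_lit 34) (.e (nat_lit 393270) (nat_lit 23) (.e (nat_lit 426436) (nat_lit 18) .nil))))) (.g (nat_lit 0) (.e (nat_lit 182368) (nat_lit 0) .nil) .nil)))))) (.nd (nat_lit 7) (.nd (nat_lit 8) (.nd (nat_lit 9) 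
(.lf (nat_lit 504916) (.g (nat_lit 1310) (.e (nat_lit 171776) (nat_lit 203) (.e (nat_lit 24662) (nat_lit 14) (.e (nat_lit 401459) (nat_lit 13) (.e (nat_lit 483343) (nat_lit 17) .nil)))) (.g (nat_lit 0) (.e (nat_lit 179630) (nat_lit 0) .nil) .nil))) 
(.lf (nat_lit 505428) (.g (nat_lit 2259) (.e (nat_lit 164325) (nat_lit 230) (.e (nat_lit 163903) (nat_lit 12) (.e (nat_lit 426438) (nat_lit 18) (.e (nat_lit 98372) (nat_lit 29) (.e (nat_lit 450561) (nat_lit 0) (.e (nat_lit 6839) (nat_lit 369) (.e (nat_lit 163863) (nat_lit 1) .nil))))))) (.g (nat_lit 1) (.e (nat_lit 181542) (nat_lit 0) .nil) .nil)))) (.nd (nat_lit 9) 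
(.lf (nat_lit 505172) (.g (nat_lit 778) (.e (nat_lit 164324) (nat_lit 230) (.e (nat_lit 163867) (nat_lit 2) (.e (nat_lit 196624) (nat_lit 9) .nil))) (.g (nat_lit 0) (.e (nat_lit 180943) (nat_lit 0) .nil) .nil))) 
(.lf (nat_lit 505684) (.g (nat_lit 1331) (.e (nat_lit 164326) (nat_lit 230) (.e (nat_lit 163875) (nat_lit 3) (.e (nat_lit 204813) (nat_lit 9) (.e (nat_lit 426200) (nat_lit 9) .nil)))) (.g (nat_lit 0) (.e (nat_lit 182267) (nat_lit 0) .nil) .nil))))) (.nd (nat_lit 8) (.nd (nat_lit 9) 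
(.lf (nat_lit 505044) (.g (nat_lit 1657) (.e (nat_lit 164305) (nat_lit 226) (.e (nat_lit 2630) (nat_lit 164) (.e (nat_lit 172067) (nat_lit 3) (.e (nat_lit 204880) (nat_lit 32) .nil)))) (.g (nat_lit 0) (.e (nat_lit 180451) (nat_lit 0) .nil) .nil))) 
(.lf (nat_lit 505556) (.g (nat_lit 1370) (.e (nat_lit 164326) (nat_lit 230) (.e (nat_lit 163868) (nat_lit 2) (.e (nat_lit 196632) (nat_lit 9) .nil))) (.g (nat_lit 0) (.e (nat_lit 182064) (nat_lit 0) .nil) .nil)))) (.nd (nat_lit 9) 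
(.lf (nat_lit 505300) (.g (nat_lit 2207) (.e (nat_lit 164325) (nat_lit 230) (.e (nat_lit 163868) (nat_lit 2) (.e (nat_lit 196656) (nat_lit 11) (.e (nat_lit 16463) (nat_lit 13) (.e (nat_lit 483341) (nat_lit 9) (.e (nat_lit 426105) (nat_lit 1) .nil)))))) (.g (nat_lit 1) (.e (nat_lit 181319) (nat_lit 0) .nil) .nil))) 
(.lf (nat_lit 505812) (.g (nat_lit 3612) (.e (nat_lit 164327) (nat_lit 230) (.e (nat_lit 163868) (nat_lit 2) (.e (nat_lit 196656) (nat_lit 11) (.e (nat_lit 16463) (nat_lit 13) (.e (nat_lit 483341) (nat_lit 9) (.e (nat_lit 426106) (nat_lit 1) .nil)))))) (.g (nat_lit 1) (.e (nat_lit 182565) (nat_lit 0) .nil) .nil))))))) (.nd (nat_lit 6) (.nd (nat_lit 7) (.nd (nat_lit 8) (.nd (nat_lit 9) 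
(.lf (nat_lit 504884) (.g (nat_lit 1346) (.e (nat_lit 171776) (nat_lit 176) (.e (nat_lit 2797) (nat_lit 180) (.e (nat_lit 303119) (nat_lit 3) (.e (nat_lit 204867) (nat_lit 28) .nil)))) (.g (nat_lit 0) (.e (nat_lit 179398) (nat_lit 0) .nil) .nil))) 
(.lf (nat_lit 505396) (.g (nat_lit 3275) (.e (nat_lit 164325) (nat_lit 230) (.e (nat_lit 163875) (nat_lit 3) (.e (nat_lit 204808) (nat_lit 9) (.e (nat_lit 426190) (nat_lit 9) (.e (nat_lit 426566) (nat_lit 34) (.e (nat_lit 393253) (nat_lit 18) .nil)))))) (.g (nat_lit 1) (.e (nat_lit 181481) (nat_lit 0) .nil) .nil)))) (.nd (nat_lit 9) 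
(.lf (nat_lit 505140) (.g (nat_lit 1738) (.e (nat_lit 164323) (nat_lit 230) (.e (nat_lit 163867) (nat_lit 2) (.e (nat_lit 196654) (nat_lit 11) (.e (nat_lit 16466) (nat_lit 13) (.e (nat_lit 483341) (nat_lit 9) .nil))))) (.g (nat_lit 0) (.e (nat_lit 180896) (nat_lit 0) .nil) .nil))) 
(.lf (nat_lit 505652) (.g (nat_lit 3659) (.e (nat_lit 164326) (nat_lit 230) (.e (nat_lit 163873) (nat_lit 3) (.e (nat_lit 204813) (nat_lit 9) (.e (nat_lit 426139) (nat_lit 3) .nil)))) (.g (nat_lit 0) (.e (nat_lit 182224) (nat_lit 0) .nil) .nil))))) (.nd (nat_lit 8) (.nd (nat_lit 9) 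
(.lf (nat_lit 505012) (.g (nat_lit 1262) (.e (nat_lit 164293) (nat_lit 224) (.e (nat_lit 164353) (nat_lit 246) (.e (nat_lit 226) (nat_lit 21) (.e (nat_lit 336443) (nat_lit 32) (.e (nat_lit 474880) (nat_lit 2) .nil))))) (.g (nat_lit 0) (.e (nat_lit 180274) (nat_lit 0) .nil) .nil))) 
(.lf (nat_lit 505524) (.g (nat_lit 1559) (.e (nat_lit 164325) (nat_lit 230) (.e (nat_lit 163942) (nat_lit 19) (.e (nat_lit 483341) (nat_lit 9) (.e (nat_lit 426200) (nat_lit 9) (.e (nat_lit 426399) (nat_lit 15) .nil))))) (.g (nat_lit 0) (.e (nat_lit 181961) (nat_lit 0) .nil) .nil)))) (.nd (nat_lit 9) 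
(.lf (nat_lit 505268) (.g (nat_lit 1695) (.e (nat_lit 164325) (nat_lit 230) (.e (nat_lit 163867) (nat_lit 2) (.e (nat_lit 196656) (nat_lit 11) (.e (nat_lit 16463) (nat_lit 13) .nil)))) (.g (nat_lit 0) (.e (nat_lit 181264) (nat_lit 0) .nil) .nil))) 
(.lf (nat_lit 505780) (.g (nat_lit 525) (.e (nat_lit 164327) (nat_lit 230) (.e (nat_lit 163868) (nat_lit 2) (.e (nat_lit 196628) (nat_lit 9) .nil))) (.g (nat_lit 0) (.e (nat_lit 182509) (nat_lit 0) .nil) .nil)))))) (.nd (nat_lit 7) (.nd (nat_lit 8) (.nd (nat_lit 9) 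
(.lf (nat_lit 504948) (.g (nat_lit 2238) (.e (nat_lit 171776) (nat_lit 192) (.e (nat_lit 73746) (nat_lit 3) (.e (nat_lit 516097) (nat_lit 0) (.e (nat_lit 7591) (nat_lit 407) (.e (nat_lit 73740) (nat_lit 1) .nil))))) (.g (nat_lit 0) (.e (nat_lit 179691) (nat_lit 0) .nil) .nil))) 
(.lf (nat_lit 505460) (.g (nat_lit 3430) (.e (nat_lit 164325) (nat_lit 230) (.e (nat_lit 163904) (nat_lit 12) (.e (nat_lit 426566) (nat_lit 34) (.e (nat_lit 393294) (nat_lit 26) (.e (nat_lit 475178) (nat_lit 24) (.e (nat_lit 516115) (nat_lit 1) .nil)))))) (.g (nat_lit 1) (.e (nat_lit 181584) (nat_lit 0) .nil) .nil)))) (.nd (nat_lit 9) 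
(.lf (nat_lit 505204) (.g (nat_lit 2409) (.e (nat_lit 164324) (nat_lit 230) (.e (nat_lit 163873) (nat_lit 3) (.e (nat_lit 204813) (nat_lit 9) (.e (nat_lit 426197) (nat_lit 9) .nil)))) (.g (nat_lit 0) (.e (nat_lit 180980) (nat_lit 0) .nil) .nil))) 
(.lf (nat_lit 505716) (.g (nat_lit 2212) (.e (nat_lit 164326) (nat_lit 230) (.e (nat_lit 163903) (nat_lit 12) (.e (nat_lit 426428) (nat_lit 17) (.e (nat_lit 90172) (nat_lit 14) (.e (nat_lit 180291) (nat_lit 48) .nil))))) (.g (nat_lit 0) (.e (nat_lit 182326) (nat_lit 0) .nil) .nil))))) (.nd (nat_lit 8) (.nd (nat_lit 9) 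
(.lf (nat_lit 505076) (.g (nat_lit 1662) (.e (nat_lit 164322) (nat_lit 230) (.e (nat_lit 163871) (nat_lit 2) (.e (nat_lit 196656) (nat_lit 11) (.e (nat_lit 16436) (nat_lit 9) .nil)))) (.g (nat_lit 0) (.e (nat_lit 180720) (nat_lit 0) .nil) .nil))) 
(.lf (nat_lit 505588) (.g (nat_lit 732) (.e (nat_lit 164326) (nat_lit 230) (.e (nat_lit 163869) (nat_lit 2) (.e (nat_lit 196656) (nat_lit 11) .nil))) (.g (nat_lit 0) (.e (nat_lit 182113) (nat_lit 0) .nil) .nil)))) (.nd (nat_lit 9) 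
(.lf (nat_lit 505332) (.g (nat_lit 2802) (.e (nat_lit 164325) (nat_lit 230) (.e (nat_lit 163871) (nat_lit 2) (.e (nat_lit 196654) (nat_lit 11) (.e (nat_lit 16416) (nat_lit 3) (.e (nat_lit 204838) (nat_lit 20) (.e (nat_lit 114718) (nat_lit 23) (.e (nat_lit 98333) (nat_lit 18) .nil))))))) (.g (nat_lit 1) (.e (nat_lit 181362) (nat_lit 0) .nil) .nil))) 
(.lf (nat_lit 505844) (.g (nat_lit 2477) (.e (nat_lit 164327) (nat_lit 230) (.e (nat_lit 163871) (nat_lit 2) (.e (nat_lit 196654) (nat_lit 11) (.e (nat_lit 16416) (nat_lit 3) (.e (nat_lit 204838) (nat_lit 20) (.e (nat_lit 114717) (nat_lit 23) (.e (nat_lit 98333) (nat_lit 18) .nil))))))) (.g (nat_lit 1) (.e (nat_lit 182609) (nat_lit 0) .nil) .nil))))))))) 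
(.nd (nat_lit 4) (.nd (nat_lit 5) (.nd (nat_lit 6) (.nd (nat_lit 7) (.nd (nat_lit 8) 
(.nd (nat_lit 9) 
(.lf (nat_lit 504844) (.g (nat_lit 1985) (.e (nat_lit 164211) (nat_lit 176) (.e (nat_lit 2797) (nat_lit 180) (.e (nat_lit 303119) (nat_lit 3) (.e (nat_lit 204867) (nat_lit 28) .nil)))) (.g (nat_lit 0) (.e (nat_lit 179335) (nat_lit 0) .nil) .nil))) 
(.lf (nat_lit 505356) (.g (nat_lit 1322) (.e (nat_lit 164325) (nat_lit 230) (.e (nat_lit 163873) (nat_lit 3) (.e (nat_lit 204811) (nat_lit 9) (.e (nat_lit 426262) (nat_lit 9) (.e (nat_lit 433920) (nat_lit 34) (.e (nat_lit 393254) (nat_lit 18) .nil)))))) (.g (nat_lit 1) (.e (nat_lit 181397) (nat_lit 0) .nil) .nil)))) (.nd (nat_lit 9) 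
(.lf (nat_lit 505100) (.g (nat_lit 1954) (.e (nat_lit 164322) (nat_lit 230) (.e (nat_lit 163875) (nat_lit 3) (.e (nat_lit 204809) (nat_lit 9) (.e (nat_lit 426188) (nat_lit 9) (.e (nat_lit 426566) (nat_lit 34) .nil))))) (.g (nat_lit 0) (.e (nat_lit 180762) (nat_lit 0) .nil) .nil))) 
(.lf (nat_lit 505612) (.g (nat_lit 472) (.e (nat_lit 164326) (nat_lit 230) (.e (nat_lit 163871) (nat_lit 2) (.e (nat_lit 196626) (nat_lit 9) .nil))) (.g (nat_lit 0) (.e (nat_lit 182149) (nat_lit 0) .nil) .nil))))) (.nd (nat_lit 8) (.nd (nat_lit 9) 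
(.lf (nat_lit 504972) (.g (nat_lit 1485) (.e (nat_lit 171776) (nat_lit 278) (.e (nat_lit 1129) (nat_lit 83) (.e (nat_lit 16412) (nat_lit 2) (.e (nat_lit 196672) (nat_lit 15) (.e (nat_lit 81954) (nat_lit 23) .nil))))) (.g (nat_lit 0) (.e (nat_lit 179956) (nat_lit 0) .nil) .nil))) 
(.lf (nat_lit 505484) (.g (nat_lit 828) (.e (nat_lit 164325) (nat_lit 230) (.e (nat_lit 163907) (nat_lit 12) (.e (nat_lit 426509) (nat_lit 27) .nil))) (.g (nat_lit 0) (.e (nat_lit 181662) (nat_lit 0) .nil) .nil)))) (.nd (nat_lit 9) 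
(.lf (nat_lit 505228) (.g (nat_lit 2121) (.e (nat_lit 164324) (nat_lit 230) (.e (nat_lit 163902) (nat_lit 12) (.e (nat_lit 426568) (nat_lit 34) (.e (nat_lit 393293) (nat_lit 26) .nil)))) (.g (nat_lit 0) (.e (nat_lit 181013) (nat_lit 0) .nil) .nil))) 
(.lf (nat_lit 505740) (.g (nat_lit 4133) (.e (nat_lit 164326) (nat_lit 230) (.e (nat_lit 163903) (nat_lit 12) (.e (nat_lit 426568) (nat_lit 34) (.e (nat_lit 393268) (nat_lit 23) (.e (nat_lit 426428) (nat_lit 17) (.e (nat_lit 90130) (nat_lit 9) (.e (nat_lit 2612) (nat_lit 163) .nil))))))) (.g (nat_lit 1) (.e (nat_lit 182358) (nat_lit 0) .nil) .nil)))))) 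
(.nd (nat_lit 7) (.nd (nat_lit 8) (.nd (nat_lit 9) 
(.lf (nat_lit 504908) (.g (nat_lit 1627) (.e (nat_lit 164232) (nat_lit 185) (.e (nat_lit 163944) (nat_lit 19) (.e (nat_lit 483346) (nat_lit 17) (.e (nat_lit 2310) (nat_lit 151) .nil)))) (.g (nat_lit 0) (.e (nat_lit 179552) (nat_lit 0) .nil) .nil))) 
(.lf (nat_lit 505420) (.g (nat_lit 2677) (.e (nat_lit 164325) (nat_lit 230) (.e (nat_lit 163902) (nat_lit 12) (.e (nat_lit 426566) (nat_lit 34) (.e (nat_lit 393293) (nat_lit 26) .nil)))) (.g (nat_lit 0) (.e (nat_lit 181515) (nat_lit 0) .nil) .nil)))) (.nd (nat_lit 9) 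
(.lf (nat_lit 505164) (.g (nat_lit 845) (.e (nat_lit 164323) (nat_lit 230) (.e (nat_lit 163875) (nat_lit 3) (.e (nat_lit 204809) (nat_lit 9) .nil))) (.g (nat_lit 0) (.e (nat_lit 180925) (nat_lit 0) .nil) .nil))) 
(.lf (nat_lit 505676) (.g (nat_lit 1671) (.e (nat_lit 164326) (nat_lit 230) (.e (nat_lit 163875) (nat_lit 3) (.e (nat_lit 204811) (nat_lit 9) (.e (nat_lit 426261) (nat_lit 9) (.e (nat_lit 426565) (nat_lit 34) (.e (nat_lit 393254) (nat_lit 18) .nil)))))) (.g (nat_lit 1) (.e (nat_lit 182259) (nat_lit 0) .nil) .nil))))) (.nd (nat_lit 8) (.nd (nat_lit 9) 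
(.lf (nat_lit 505036) (.g (nat_lit 3674) (.e (nat_lit 164305) (nat_lit 226) (.e (nat_lit 2612) (nat_lit 163) (.e (nat_lit 163978) (nat_lit 30) (.e (nat_lit 573487) (nat_lit 14) (.e (nat_lit 73753) (nat_lit 8) (.e (nat_lit 557097) (nat_lit 13) (.e (nat_lit 172133) (nat_lit 15) (.e (nat_lit 1800) (nat_lit 119) (.e (nat_lit 516117) (nat_lit 1) .nil))))))))) (.g (nat_lit 1) (.e (nat_lit 180422) (nat_lit 0) .nil) .nil))) 
(.lf (nat_lit 505548) (.g (nat_lit 1638) (.e (nat_lit 164326) (nat_lit 230) (.e (nat_lit 163868) (nat_lit 2) (.e (nat_lit 196624) (nat_lit 9) (.e (nat_lit 386) (nat_lit 32) .nil)))) (.g (nat_lit 0) (.e (nat_lit 182050) (nat_lit 0) .nil) .nil)))) (.nd (nat_lit 9) 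
(.lf (nat_lit 505292) (.g (nat_lit 2094) (.e (nat_lit 164325) (nat_lit 230) (.e (nat_lit 163868) (nat_lit 2) (.e (nat_lit 196656) (nat_lit 11) (.e (nat_lit 16436) (nat_lit 9) (.e (nat_lit 426509) (nat_lit 27) .nil))))) (.g (nat_lit 0) (.e (nat_lit 181304) (nat_lit 0) .nil) .nil))) 
(.lf (nat_lit 505804) (.g (nat_lit 5062) (.e (nat_lit 164327) (nat_lit 230) (.e (nat_lit 163868) (nat_lit 2) (.e (nat_lit 196656) (nat_lit 11) (.e (nat_lit 16416) (nat_lit 3) (.e (nat_lit 204838) (nat_lit 20) (.e (nat_lit 114719) (nat_lit 23) (.e (nat_lit 98332) (nat_lit 18) .nil))))))) (.g (nat_lit 1) (.e (nat_lit 182552) (nat_lit 0) .nil) .nil))))))) 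
(.nd (nat_lit 6) (.nd (nat_lit 7) (.nd (nat_lit 8) (.nd (nat_lit 9) 
(.lf (nat_lit 504876) (.g (nat_lit 1652) (.e (nat_lit 164214) (nat_lit 176) (.e (nat_lit 2798) (nat_lit 180) (.e (nat_lit 303119) (nat_lit 3) (.e (nat_lit 204867) (nat_lit 28) .nil)))) (.g (nat_lit 0) (.e (nat_lit 179388) (nat_lit 0) .nil) .nil))) 
(.lf (nat_lit 505388) (.g (nat_lit 2561) (.e (nat_lit 164325) (nat_lit 230) (.e (nat_lit 163873) (nat_lit 3) (.e (nat_lit 204813) (nat_lit 9) (.e (nat_lit 433920) (nat_lit 9) .nil)))) (.g (nat_lit 0) (.e (nat_lit 181447) (nat_lit 0) .nil) .nil)))) (.nd (nat_lit 9) 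
(.lf (nat_lit 505132) (.g (nat_lit 612) (.e (nat_lit 164322) (nat_lit 230) (.e (nat_lit 163933) (nat_lit 17) (.e (nat_lit 474880) (nat_lit 13) .nil))) (.g (nat_lit 0) (.e (nat_lit 180868) (nat_lit 0) .nil) .nil))) 
(.lf (nat_lit 505644) (.g (nat_lit 2627) (.e (nat_lit 164326) (nat_lit 230) (.e (nat_lit 163871) (nat_lit 2) (.e (nat_lit 196656) (nat_lit 11) (.e (nat_lit 16446) (nat_lit 9) (.e (nat_lit 433920) (nat_lit 34) .nil))))) (.g (nat_lit 0) (.e (nat_lit 182197) (nat_lit 0) .nil) .nil))))) (.nd (nat_lit 8) (.nd (nat_lit 9) 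
(.lf (nat_lit 505004) (.g (nat_lit 1381) (.e (nat_lit 164292) (nat_lit 224) (.e (nat_lit 164092) (nat_lit 82) (.e (nat_lit 500046) (nat_lit 16) (.e (nat_lit 16466) (nat_lit 13) (.e (nat_lit 491264) (nat_lit 0) (.e (nat_lit 7098) (nat_lit 380) .nil)))))) (.g (nat_lit 1) (.e (nat_lit 180223) (nat_lit 0) .nil) .nil))) 
(.lf (nat_lit 505516) (.g (nat_lit 3655) (.e (nat_lit 164325) (nat_lit 230) (.e (nat_lit 163941) (nat_lit 19) (.e (nat_lit 483341) (nat_lit 9) (.e (nat_lit 426213) (nat_lit 9) .nil)))) (.g (nat_lit 0) (.e (nat_lit 181943) (nat_lit 0) .nil) .nil)))) (.nd (nat_lit 9) 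
(.lf (nat_lit 505260) (.g (nat_lit 1729) (.e (nat_lit 164325) (nat_lit 230) (.e (nat_lit 163867) (nat_lit 2) (.e (nat_lit 196630) (nat_lit 9) (.e (nat_lit 430) (nat_lit 32) (.e (nat_lit 426190) (nat_lit 9) .nil))))) (.g (nat_lit 0) (.e (nat_lit 181252) (nat_lit 0) .nil) .nil))) 
(.lf (nat_lit 505772) (.g (nat_lit 3434) (.e (nat_lit 164327) (nat_lit 230) (.e (nat_lit 163851) (nat_lit 0) (.e (nat_lit 3307) (nat_lit 202) (.e (nat_lit 573489) (nat_lit 14) (.e (nat_lit 73755) (nat_lit 8) (.e (nat_lit 557097) (nat_lit 13) (.e (nat_lit 179968) (nat_lit 18) (.e (nat_lit 98335) (nat_lit 18) .nil)))))))) (.g (nat_lit 1) (.e (nat_lit 182478) (nat_lit 0) .nil) .nil)))))) 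
(.nd (nat_lit 7) (.nd (nat_lit 8) (.nd (nat_lit 9) 
(.lf (nat_lit 504940) (.g (nat_lit 1741) (.e (nat_lit 171776) (nat_lit 187) (.e (nat_lit 1636) (nat_lit 114) (.e (nat_lit 385074) (nat_lit 31) (.e (nat_lit 573482) (nat_lit 13) .nil)))) (.g (nat_lit 0) (.e (nat_lit 179672) (nat_lit 0) .nil) .nil))) 
(.lf (nat_lit 505452) (.g (nat_lit 1810) (.e (nat_lit 164325) (nat_lit 230) (.e (nat_lit 163904) (nat_lit 12) (.e (nat_lit 426566) (nat_lit 34) (.e (nat_lit 393271) (nat_lit 23) (.e (nat_lit 426437) (nat_lit 18) .nil))))) (.g (nat_lit 0) (.e (nat_lit 181576) (nat_lit 0) .nil) .nil)))) (.nd (nat_lit 9) 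
(.lf (nat_lit 505196) (.g (nat_lit 2452) (.e (nat_lit 164324) (nat_lit 230) (.e (nat_lit 163871) (nat_lit 2) (.e (nat_lit 196656) (nat_lit 11) (.e (nat_lit 16463) (nat_lit 13) (.e (nat_lit 483341) (nat_lit 9) .nil))))) (.g (nat_lit 0) (.e (nat_lit 180972) (nat_lit 0) .nil) .nil))) 
(.lf (nat_lit 505708) (.g (nat_lit 2395) (.e (nat_lit 164326) (nat_lit 230) (.e (nat_lit 163902) (nat_lit 12) (.e (nat_lit 426566) (nat_lit 34) (.e (nat_lit 393296) (nat_lit 26) .nil)))) (.g (nat_lit 0) (.e (nat_lit 182300) (nat_lit 0) .nil) .nil))))) (.nd (nat_lit 8) (.nd (nat_lit 9) 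
(.lf (nat_lit 505068) (.g (nat_lit 3329) (.e (nat_lit 164322) (nat_lit 230) (.e (nat_lit 163868) (nat_lit 2) (.e (nat_lit 196656) (nat_lit 11) (.e (nat_lit 16463) (nat_lit 13) (.e (nat_lit 483341) (nat_lit 9) (.e (nat_lit 426106) (nat_lit 1) .nil)))))) (.g (nat_lit 1) (.e (nat_lit 180709) (nat_lit 0) .nil) .nil))) 
(.lf (nat_lit 505580) (.g (nat_lit 3138) (.e (nat_lit 164326) (nat_lit 230) (.e (nat_lit 163868) (nat_lit 2) (.e (nat_lit 196656) (nat_lit 11) (.e (nat_lit 16439) (nat_lit 9) (.e (nat_lit 426513) (nat_lit 27) .nil))))) (.g (nat_lit 0) (.e (nat_lit 182099) (nat_lit 0) .nil) .nil)))) (.nd (nat_lit 9) 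
(.lf (nat_lit 505324) (.g (nat_lit 4233) (.e (nat_lit 164325) (nat_lit 230) (.e (nat_lit 163870) (nat_lit 2) (.e (nat_lit 196630) (nat_lit 9) (.e (nat_lit 430) (nat_lit 32) (.e (nat_lit 426190) (nat_lit 9) (.e (nat_lit 426566) (nat_lit 34) (.e (nat_lit 393253) (nat_lit 18) .nil))))))) (.g (nat_lit 1) (.e (nat_lit 181349) (nat_lit 0) .nil) .nil))) 
(.lf (nat_lit 505836) (.g (nat_lit 303) (.e (nat_lit 164327) (nat_lit 230) (.e (nat_lit 163871) (nat_lit 2) (.e (nat_lit 196654) (nat_lit 11) .nil))) (.g (nat_lit 0) (.e (nat_lit 182598) (nat_lit 0) .nil) .nil)))))))) (.nd (nat_lit 5) (.nd (nat_lit 6) (.nd (nat_lit 7) (.nd (nat_lit 8) (.nd (nat_lit 9) 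
(.lf (nat_lit 504860) (.g (nat_lit 1744) (.e (nat_lit 164213) (nat_lit 176) (.e (nat_lit 2797) (nat_lit 180) (.e (nat_lit 303117) (nat_lit 2) (.e (nat_lit 196665) (nat_lit 13) .nil)))) (.g (nat_lit 0) (.e (nat_lit 179359) (nat_lit 0) .nil) .nil))) 
(.lf (nat_lit 505372) (.g (nat_lit 2376) (.e (nat_lit 164325) (nat_lit 230) (.e (nat_lit 163873) (nat_lit 3) (.e (nat_lit 204813) (nat_lit 9) (.e (nat_lit 426188) (nat_lit 9) (.e (nat_lit 426564) (nat_lit 34) .nil))))) (.g (nat_lit 0) (.e (nat_lit 181430) (nat_lit 0) .nil) .nil)))) (.nd (nat_lit 9) 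
(.lf (nat_lit 505116) (.g (nat_lit 3888) (.e (nat_lit 164322) (nat_lit 230) (.e (nat_lit 163902) (nat_lit 12) (.e (nat_lit 426566) (nat_lit 34) (.e (nat_lit 393292) (nat_lit 26) .nil)))) (.g (nat_lit 0) (.e (nat_lit 180783) (nat_lit 0) .nil) .nil))) 
(.lf (nat_lit 505628) (.g (nat_lit 3060) (.e (nat_lit 164326) (nat_lit 230) (.e (nat_lit 163871) (nat_lit 2) (.e (nat_lit 196654) (nat_lit 11) (.e (nat_lit 16433) (nat_lit 9) (.e (nat_lit 426566) (nat_lit 34) (.e (nat_lit 393254) (nat_lit 18) .nil)))))) (.g (nat_lit 1) (.e (nat_lit 182170) (nat_lit 0) .nil) .nil))))) (.nd (nat_lit 8) (.nd (nat_lit 9) 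
(.lf (nat_lit 504988) (.g (nat_lit 1144) (.e (nat_lit 164287) (nat_lit 224) (.e (nat_lit 164092) (nat_lit 82) (.e (nat_lit 500046) (nat_lit 16) (.e (nat_lit 16465) (nat_lit 13) (.e (nat_lit 491264) (nat_lit 0) (.e (nat_lit 7105) (nat_lit 380) .nil)))))) (.g (nat_lit 1) (.e (nat_lit 180080) (nat_lit 0) .nil) .nil))) 
(.lf (nat_lit 505500) (.g (nat_lit 1655) (.e (nat_lit 164325) (nat_lit 230) (.e (nat_lit 163932) (nat_lit 17) (.e (nat_lit 466972) (nat_lit 21) (.e (nat_lit 164183) (nat_lit 154) .nil)))) (.g (nat_lit 0) (.e (nat_lit 181825) (nat_lit 0) .nil) .nil)))) (.nd (nat_lit 9) 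
(.lf (nat_lit 505244) (.g (nat_lit 3719) (.e (nat_lit 164324) (nat_lit 230) (.e (nat_lit 163941) (nat_lit 19) (.e (nat_lit 483341) (nat_lit 9) (.e (nat_lit 426204) (nat_lit 9) .nil)))) (.g (nat_lit 0) (.e (nat_lit 181074) (nat_lit 0) .nil) .nil))) 
(.lf (nat_lit 505756) (.g (nat_lit 1102) (.e (nat_lit 164326) (nat_lit 230) (.e (nat_lit 163941) (nat_lit 19) (.e (nat_lit 483341) (nat_lit 9) (.e (nat_lit 426198) (nat_lit 9) .nil)))) (.g (nat_lit 0) (.e (nat_lit 182447) (nat_lit 0) .nil) .nil)))))) (.nd (nat_lit 7) (.nd (nat_lit 8) (.nd (nat_lit 9) 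
(.lf (nat_lit 504924) (.g (nat_lit 1733) (.e (nat_lit 164238) (nat_lit 187) (.e (nat_lit 1636) (nat_lit 114) (.e (nat_lit 385074) (nat_lit 31) (.e (nat_lit 573482) (nat_lit 13) .nil)))) (.g (nat_lit 0) (.e (nat_lit 179645) (nat_lit 0) .nil) .nil))) 
(.lf (nat_lit 505436) (.g (nat_lit 998) (.e (nat_lit 164325) (nat_lit 230) (.e (nat_lit 163903) (nat_lit 12) (.e (nat_lit 426480) (nat_lit 27) .nil))) (.g (nat_lit 0) (.e (nat_lit 181550) (nat_lit 0) .nil) .nil)))) (.nd (nat_lit 9) 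
(.lf (nat_lit 505180) (.g (nat_lit 3697) (.e (nat_lit 164324) (nat_lit 230) (.e (nat_lit 163868) (nat_lit 2) (.e (nat_lit 196656) (nat_lit 11) (.e (nat_lit 16433) (nat_lit 9) (.e (nat_lit 426566) (nat_lit 34) (.e (nat_lit 393253) (nat_lit 18) .nil)))))) (.g (nat_lit 1) (.e (nat_lit 180953) (nat_lit 0) .nil) .nil))) 
(.lf (nat_lit 505692) (.g (nat_lit 1432) (.e (nat_lit 164326) (nat_lit 230) (.e (nat_lit 163882) (nat_lit 4) (.e (nat_lit 213030) (nat_lit 11) (.e (nat_lit 24660) (nat_lit 13) (.e (nat_lit 393274) (nat_lit 23) (.e (nat_lit 426097) (nat_lit 1) .nil)))))) (.g (nat_lit 1) (.e (nat_lit 182276) (nat_lit 0) .nil) .nil))))) (.nd (nat_lit 8) (.nd (nat_lit 9) 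
(.lf (nat_lit 505052) (.g (nat_lit 683) (.e (nat_lit 164322) (nat_lit 230) (.e (nat_lit 163867) (nat_lit 2) (.e (nat_lit 196628) (nat_lit 9) .nil))) (.g (nat_lit 0) (.e (nat_lit 180684) (nat_lit 0) .nil) .nil))) 
(.lf (nat_lit 505564) (.g (nat_lit 2556) (.e (nat_lit 164326) (nat_lit 230) (.e (nat_lit 163868) (nat_lit 2) (.e (nat_lit 196652) (nat_lit 11) (.e (nat_lit 16436) (nat_lit 9) (.e (nat_lit 426566) (nat_lit 34) (.e (nat_lit 393254) (nat_lit 18) .nil)))))) (.g (nat_lit 1) (.e (nat_lit 182073) (nat_lit 0) .nil) .nil)))) (.nd (nat_lit 9) 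
(.lf (nat_lit 505308) (.g (nat_lit 705) (.e (nat_lit 164325) (nat_lit 230) (.e (nat_lit 163869) (nat_lit 2) (.e (nat_lit 196653) (nat_lit 11) .nil))) (.g (nat_lit 0) (.e (nat_lit 181328) (nat_lit 0) .nil) .nil))) 
(.lf (nat_lit 505820) (.g (nat_lit 2303) (.e (nat_lit 164327) (nat_lit 230) (.e (nat_lit 163869) (nat_lit 2) (.e (nat_lit 196654) (nat_lit 11) (.e (nat_lit 16463) (nat_lit 13) (.e (nat_lit 483341) (nat_lit 9) .nil))))) (.g (nat_lit 0) (.e (nat_lit 182576) (nat_lit 0) .nil) .nil))))))) (.nd (nat_lit 6) (.nd (nat_lit 7) (.nd (nat_lit 8) (.nd (nat_lit 9) 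
(.lf (nat_lit 504892) (.g (nat_lit 1416) (.e (nat_lit 171776) (nat_lit 176) (.e (nat_lit 2798) (nat_lit 180) (.e (nat_lit 303117) (nat_lit 2) (.e (nat_lit 196665) (nat_lit 13) .nil)))) (.g (nat_lit 0) (.e (nat_lit 179411) (nat_lit 0) .nil) .nil))) 
(.lf (nat_lit 505404) (.g (nat_lit 1808) (.e (nat_lit 164325) (nat_lit 230) (.e (nat_lit 163875) (nat_lit 3) (.e (nat_lit 204813) (nat_lit 9) (.e (nat_lit 426200) (nat_lit 9) (.e (nat_lit 426494) (nat_lit 27) .nil))))) (.g (nat_lit 0) (.e (nat_lit 181490) (nat_lit 0) .nil) .nil)))) (.nd (nat_lit 9) 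
(.lf (nat_lit 505148) (.g (nat_lit 1213) (.e (nat_lit 164323) (nat_lit 230) (.e (nat_lit 163869) (nat_lit 2) (.e (nat_lit 196654) (nat_lit 11) .nil))) (.g (nat_lit 0) (.e (nat_lit 180905) (nat_lit 0) .nil) .nil))) 
(.lf (nat_lit 505660) (.g (nat_lit 4048) (.e (nat_lit 164326) (nat_lit 230) (.e (nat_lit 163873) (nat_lit 3) (.e (nat_lit 204813) (nat_lit 9) (.e (nat_lit 426258) (nat_lit 9) .nil)))) (.g (nat_lit 0) (.e (nat_lit 182232) (nat_lit 0) .nil) .nil))))) (.nd (nat_lit 8) (.nd (nat_lit 9) 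
(.lf (nat_lit 505020) (.g (nat_lit 1236) (.e (nat_lit 164281) (nat_lit 222) (.e (nat_lit 57884) (nat_lit 270) (.e (nat_lit 982) (nat_lit 81) (.e (nat_lit 6218) (nat_lit 333) (.e (nat_lit 57819) (nat_lit 248) .nil))))) (.g (nat_lit 0) (.e (nat_lit 180323) (nat_lit 0) .nil) .nil))) 
(.lf (nat_lit 505532) (.g (nat_lit 1213) (.e (nat_lit 164325) (nat_lit 230) (.e (nat_lit 163943) (nat_lit 19) (.e (nat_lit 483341) (nat_lit 9) (.e (nat_lit 426200) (nat_lit 9) .nil)))) (.g (nat_lit 0) (.e (nat_lit 181987) (nat_lit 0) .nil) .nil)))) (.nd (nat_lit 9) 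
(.lf (nat_lit 505276) (.g (nat_lit 786) (.e (nat_lit 164325) (nat_lit 230) (.e (nat_lit 163868) (nat_lit 2) (.e (nat_lit 196651) (nat_lit 10) .nil))) (.g (nat_lit 0) (.e (nat_lit 181284) (nat_lit 0) .nil) .nil))) 
(.lf (nat_lit 505788) (.g (nat_lit 2486) (.e (nat_lit 164327) (nat_lit 230) (.e (nat_lit 163868) (nat_lit 2) (.e (nat_lit 196654) (nat_lit 11) (.e (nat_lit 16416) (nat_lit 3) (.e (nat_lit 204838) (nat_lit 20) (.e (nat_lit 114718) (nat_lit 23) (.e (nat_lit 98332) (nat_lit 18) .nil))))))) (.g (nat_lit 1) (.e (nat_lit 182521) (nat_lit 0) .nil) .nil)))))) 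
(.nd (nat_lit 7) (.nd (nat_lit 8) (.nd (nat_lit 9) 
(.lf (nat_lit 504956) (.g (nat_lit 2491) (.e (nat_lit 171776) (nat_lit 192) (.e (nat_lit 73747) (nat_lit 3) (.e (nat_lit 516097) (nat_lit 0) (.e (nat_lit 7591) (nat_lit 407) (.e (nat_lit 73738) (nat_lit 1) .nil))))) (.g (nat_lit 0) (.e (nat_lit 179700) (nat_lit 0) .nil) .nil))) 
(.lf (nat_lit 505468) (.g (nat_lit 2231) (.e (nat_lit 164325) (nat_lit 230) (.e (nat_lit 163905) (nat_lit 12) (.e (nat_lit 426566) (nat_lit 34) (.e (nat_lit 393273) (nat_lit 23) (.e (nat_lit 426434) (nat_lit 18) .nil))))) (.g (nat_lit 0) (.e (nat_lit 181605) (nat_lit 0) .nil) .nil)))) (.nd (nat_lit 9) 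
(.lf (nat_lit 505212) (.g (nat_lit 2620) (.e (nat_lit 164324) (nat_lit 230) (.e (nat_lit 163875) (nat_lit 3) (.e (nat_lit 204809) (nat_lit 9) (.e (nat_lit 426198) (nat_lit 9) (.e (nat_lit 426566) (nat_lit 34) .nil))))) (.g (nat_lit 0) (.e (nat_lit 180996) (nat_lit 0) .nil) .nil))) 
(.lf (nat_lit 505724) (.g (nat_lit 344) (.e (nat_lit 164326) (nat_lit 230) (.e (nat_lit 163903) (nat_lit 12) (.e (nat_lit 426566) (nat_lit 34) .nil))) (.g (nat_lit 0) (.e (nat_lit 182340) (nat_lit 0) .nil) .nil))))) (.nd (nat_lit 8) (.nd (nat_lit 9) 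
(.lf (nat_lit 505084) (.g (nat_lit 4521) (.e (nat_lit 164322) (nat_lit 230) (.e (nat_lit 163873) (nat_lit 3) (.e (nat_lit 204813) (nat_lit 9) (.e (nat_lit 426185) (nat_lit 9) .nil)))) (.g (nat_lit 0) (.e (nat_lit 180735) (nat_lit 0) .nil) .nil))) 
(.lf (nat_lit 505596) (.g (nat_lit 1095) (.e (nat_lit 164326) (nat_lit 230) (.e (nat_lit 163870) (nat_lit 2) (.e (nat_lit 196630) (nat_lit 9) (.e (nat_lit 428) (nat_lit 32) .nil)))) (.g (nat_lit 0) (.e (nat_lit 182124) (nat_lit 0) .nil) .nil)))) (.nd (nat_lit 9) 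
(.lf (nat_lit 505340) (.g (nat_lit 2089) (.e (nat_lit 164325) (nat_lit 230) (.e (nat_lit 163871) (nat_lit 2) (.e (nat_lit 196656) (nat_lit 11) (.e (nat_lit 16433) (nat_lit 9) (.e (nat_lit 426564) (nat_lit 34) .nil))))) (.g (nat_lit 0) (.e (nat_lit 181375) (nat_lit 0) .nil) .nil))) 
(.lf (nat_lit 505852) (.g (nat_lit 2136) (.e (nat_lit 164327) (nat_lit 230) (.e (nat_lit 163871) (nat_lit 2) (.e (nat_lit 196654) (nat_lit 11) (.e (nat_lit 16436) (nat_lit 9) (.e (nat_lit 426564) (nat_lit 34) (.e (nat_lit 393251) (nat_lit 18) .nil)))))) (.g (nat_lit 1) (.e (nat_lit 182619) (nat_lit 0) .nil) .nil))))))))))) 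
(.nd (nat_lit 2) (.nd (nat_lit 3) (.nd (nat_lit 4) (.nd (nat_lit 5) (.nd (nat_lit 6) 
(.nd (nat_lit 7) (.nd (nat_lit 8) (.nd (nat_lit 9) 
(.lf (nat_lit 504834) (.g (nat_lit 2195) (.e (nat_lit 164211) (nat_lit 176) (.e (nat_lit 2797) (nat_lit 180) (.e (nat_lit 303117) (nat_lit 2) (.e (nat_lit 196665) (nat_lit 13) (.e (nat_lit 65604) (nat_lit 9) .nil))))) (.g (nat_lit 0) (.e (nat_lit 179323) (nat_lit 0) .nil) .nil))) 
(.lf (nat_lit 505346) (.g (nat_lit 2107) (.e (nat_lit 164325) (nat_lit 230) (.e (nat_lit 163871) (nat_lit 2) (.e (nat_lit 196656) (nat_lit 11) (.e (nat_lit 16436) (nat_lit 9) (.e (nat_lit 426487) (nat_lit 27) .nil))))) (.g (nat_lit 0) (.e (nat_lit 181381) (nat_lit 0) .nil) .nil)))) (.nd (nat_lit 9) 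
(.lf (nat_lit 505090) (.g (nat_lit 3986) (.e (nat_lit 164322) (nat_lit 230) (.e (nat_lit 163873) (nat_lit 3) (.e (nat_lit 204813) (nat_lit 9) (.e (nat_lit 426196) (nat_lit 9) .nil)))) (.g (nat_lit 0) (.e (nat_lit 180741) (nat_lit 0) .nil) .nil))) 
(.lf (nat_lit 505602) (.g (nat_lit 594) (.e (nat_lit 164326) (nat_lit 230) (.e (nat_lit 163870) (nat_lit 2) (.e (nat_lit 196656) (nat_lit 11) .nil))) (.g (nat_lit 0) (.e (nat_lit 182132) (nat_lit 0) .nil) .nil))))) (.nd (nat_lit 8) (.nd (nat_lit 9) 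
(.lf (nat_lit 504962) (.g (nat_lit 1993) (.e (nat_lit 171776) (nat_lit 192) (.e (nat_lit 73747) (nat_lit 3) (.e (nat_lit 516106) (nat_lit 0) (.e (nat_lit 6986) (nat_lit 377) .nil)))) (.g (nat_lit 0) (.e (nat_lit 179706) (nat_lit 0) .nil) .nil))) 
(.lf (nat_lit 505474) (.g (nat_lit 621) (.e (nat_lit 164325) (nat_lit 230) (.e (nat_lit 163907) (nat_lit 12) (.e (nat_lit 426131) (nat_lit 3) .nil))) (.g (nat_lit 0) (.e (nat_lit 181621) (nat_lit 0) .nil) .nil)))) (.nd (nat_lit 9) 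
(.lf (nat_lit 505218) (.g (nat_lit 413) (.e (nat_lit 164324) (nat_lit 230) (.e (nat_lit 163902) (nat_lit 12) (.e (nat_lit 426566) (nat_lit 34) .nil))) (.g (nat_lit 0) (.e (nat_lit 181003) (nat_lit 0) .nil) .nil))) 
(.lf (nat_lit 505730) (.g (nat_lit 2198) (.e (nat_lit 164326) (nat_lit 230) (.e (nat_lit 163903) (nat_lit 12) (.e (nat_lit 426566) (nat_lit 34) (.e (nat_lit 393273) (nat_lit 23) (.e (nat_lit 426438) (nat_lit 18) .nil))))) (.g (nat_lit 0) (.e (nat_lit 182346) (nat_lit 0) .nil) .nil)))))) (.nd (nat_lit 7) (.nd (nat_lit 8) (.nd (nat_lit 9) 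
(.lf (nat_lit 504898) (.g (nat_lit 2643) (.e (nat_lit 171776) (nat_lit 176) (.e (nat_lit 2798) (nat_lit 180) (.e (nat_lit 303119) (nat_lit 3) (.e (nat_lit 204868) (nat_lit 29) (.e (nat_lit 368384) (nat_lit 1) .nil))))) (.g (nat_lit 0) (.e (nat_lit 179426) (nat_lit 0) .nil) .nil))) 
(.lf (nat_lit 505410) (.g (nat_lit 3127) (.e (nat_lit 164325) (nat_lit 230) (.e (nat_lit 163882) (nat_lit 4) (.e (nat_lit 213030) (nat_lit 11) (.e (nat_lit 24630) (nat_lit 9) (.e (nat_lit 336443) (nat_lit 32) (.e (nat_lit 466969) (nat_lit 21) .nil)))))) (.g (nat_lit 1) (.e (nat_lit 181498) (nat_lit 0) .nil) .nil)))) (.nd (nat_lit 9) 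
(.lf (nat_lit 505154) (.g (nat_lit 1841) (.e (nat_lit 164323) (nat_lit 230) (.e (nat_lit 163871) (nat_lit 2) (.e (nat_lit 196656) (nat_lit 11) (.e (nat_lit 16433) (nat_lit 9) .nil)))) (.g (nat_lit 0) (.e (nat_lit 180911) (nat_lit 0) .nil) .nil))) 
(.lf (nat_lit 505666) (.g (nat_lit 2696) (.e (nat_lit 164326) (nat_lit 230) (.e (nat_lit 163874) (nat_lit 3) (.e (nat_lit 204813) (nat_lit 9) (.e (nat_lit 426188) (nat_lit 9) (.e (nat_lit 426566) (nat_lit 34) (.e (nat_lit 393254) (nat_lit 18) .nil)))))) (.g (nat_lit 1) (.e (nat_lit 182246) (nat_lit 0) .nil) .nil))))) (.nd (nat_lit 8) (.nd (nat_lit 9) 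
(.lf (nat_lit 505026) (.g (nat_lit 405) (.e (nat_lit 164281) (nat_lit 222) (.e (nat_lit 57884) (nat_lit 270) (.e (nat_lit 1544) (nat_lit 109) .nil))) (.g (nat_lit 0) (.e (nat_lit 180333) (nat_lit 0) .nil) .nil))) 
(.lf (nat_lit 505538) (.g (nat_lit 2523) (.e (nat_lit 164326) (nat_lit 230) (.e (nat_lit 163867) (nat_lit 2) (.e (nat_lit 196654) (nat_lit 11) (.e (nat_lit 16463) (nat_lit 13) (.e (nat_lit 483337) (nat_lit 9) (.e (nat_lit 426107) (nat_lit 1) .nil)))))) (.g (nat_lit 1) (.e (nat_lit 182035) (nat_lit 0) .nil) .nil)))) (.nd (nat_lit 9) 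
(.lf (nat_lit 505282) (.g (nat_lit 1862) (.e (nat_lit 164325) (nat_lit 230) (.e (nat_lit 163868) (nat_lit 2) (.e (nat_lit 196654) (nat_lit 11) (.e (nat_lit 16466) (nat_lit 13) (.e (nat_lit 483340) (nat_lit 9) .nil))))) (.g (nat_lit 0) (.e (nat_lit 181290) (nat_lit 0) .nil) .nil))) 
(.lf (nat_lit 505794) (.g (nat_lit 2088) (.e (nat_lit 164327) (nat_lit 230) (.e (nat_lit 163868) (nat_lit 2) (.e (nat_lit 196654) (nat_lit 11) (.e (nat_lit 16436) (nat_lit 9) (.e (nat_lit 426564) (nat_lit 34) (.e (nat_lit 393251) (nat_lit 18) .nil)))))) (.g (nat_lit 1) (.e (nat_lit 182527) (nat_lit 0) .nil) .nil))))))) (.nd (nat_lit 6) (.nd (nat_lit 7) (.nd (nat_lit 8) (.nd (nat_lit 9) 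
(.lf (nat_lit 504866) (.g (nat_lit 2048) (.e (nat_lit 164213) (nat_lit 176) (.e (nat_lit 2797) (nat_lit 180) (.e (nat_lit 303119) (nat_lit 3) (.e (nat_lit 204870) (nat_lit 29) .nil)))) (.g (nat_lit 0) (.e (nat_lit 179366) (nat_lit 0) .nil) .nil))) 
(.lf (nat_lit 505378) (.g (nat_lit 2205) (.e (nat_lit 164325) (nat_lit 230) (.e (nat_lit 163873) (nat_lit 3) (.e (nat_lit 204813) (nat_lit 9) (.e (nat_lit 426199) (nat_lit 9) .nil)))) (.g (nat_lit 0) (.e (nat_lit 181436) (nat_lit 0) .nil) .nil)))) (.nd (nat_lit 9) 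
(.lf (nat_lit 505122) (.g (nat_lit 1810) (.e (nat_lit 164322) (nat_lit 230) (.e (nat_lit 163902) (nat_lit 12) (.e (nat_lit 426568) (nat_lit 34) (.e (nat_lit 393234) (nat_lit 17) .nil)))) (.g (nat_lit 0) (.e (nat_lit 180789) (nat_lit 0) .nil) .nil))) 
(.lf (nat_lit 505634) (.g (nat_lit 1789) (.e (nat_lit 164326) (nat_lit 230) (.e (nat_lit 163871) (nat_lit 2) (.e (nat_lit 196656) (nat_lit 11) (.e (nat_lit 16432) (nat_lit 9) .nil)))) (.g (nat_lit 0) (.e (nat_lit 182186) (nat_lit 0) .nil) .nil))))) (.nd (nat_lit 8) (.nd (nat_lit 9) 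
(.lf (nat_lit 504994) (.g (nat_lit 422) (.e (nat_lit 164288) (nat_lit 224) (.e (nat_lit 164358) (nat_lit 246) (.e (nat_lit 351) (nat_lit 28) .nil))) (.g (nat_lit 0) (.e (nat_lit 180129) (nat_lit 0) .nil) .nil))) 
(.lf (nat_lit 505506) (.g (nat_lit 3954) (.e (nat_lit 164325) (nat_lit 230) (.e (nat_lit 163941) (nat_lit 19) (.e (nat_lit 483341) (nat_lit 9) (.e (nat_lit 426011) (nat_lit 0) .nil)))) (.g (nat_lit 0) (.e (nat_lit 181926) (nat_lit 0) .nil) .nil)))) (.nd (nat_lit 9) 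
(.lf (nat_lit 505250) (.g (nat_lit 2012) (.e (nat_lit 164324) (nat_lit 230) (.e (nat_lit 163943) (nat_lit 19) (.e (nat_lit 483341) (nat_lit 9) (.e (nat_lit 433920) (nat_lit 9) .nil)))) (.g (nat_lit 0) (.e (nat_lit 181093) (nat_lit 0) .nil) .nil))) 
(.lf (nat_lit 505762) (.g (nat_lit 3626) (.e (nat_lit 164326) (nat_lit 230) (.e (nat_lit 163941) (nat_lit 19) (.e (nat_lit 483341) (nat_lit 9) (.e (nat_lit 426213) (nat_lit 9) .nil)))) (.g (nat_lit 0) (.e (nat_lit 182456) (nat_lit 0) .nil) .nil)))))) (.nd (nat_lit 7) (.nd (nat_lit 8) (.nd (nat_lit 9) 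
(.lf (nat_lit 504930) (.g (nat_lit 2843) (.e (nat_lit 164239) (nat_lit 187) (.e (nat_lit 1638) (nat_lit 114) (.e (nat_lit 385074) (nat_lit 31) (.e (nat_lit 573482) (nat_lit 13) (.e (nat_lit 65589) (nat_lit 9) .nil))))) (.g (nat_lit 0) (.e (nat_lit 179652) (nat_lit 0) .nil) .nil))) 
(.lf (nat_lit 505442) (.g (nat_lit 4546) (.e (nat_lit 164325) (nat_lit 230) (.e (nat_lit 163903) (nat_lit 12) (.e (nat_lit 426566) (nat_lit 34) (.e (nat_lit 393294) (nat_lit 26) (.e (nat_lit 475177) (nat_lit 24) (.e (nat_lit 516115) (nat_lit 1) .nil)))))) (.g (nat_lit 1) (.e (nat_lit 181566) (nat_lit 0) .nil) .nil)))) (.nd (nat_lit 9) 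
(.lf (nat_lit 505186) (.g (nat_lit 3641) (.e (nat_lit 164324) (nat_lit 230) (.e (nat_lit 163868) (nat_lit 2) (.e (nat_lit 196656) (nat_lit 11) (.e (nat_lit 16466) (nat_lit 13) (.e (nat_lit 483341) (nat_lit 9) (.e (nat_lit 426107) (nat_lit 1) .nil)))))) (.g (nat_lit 1) (.e (nat_lit 180959) (nat_lit 0) .nil) .nil))) 
(.lf (nat_lit 505698) (.g (nat_lit 2998) (.e (nat_lit 164326) (nat_lit 230) (.e (nat_lit 163882) (nat_lit 4) (.e (nat_lit 213032) (nat_lit 11) (.e (nat_lit 24657) (nat_lit 13) (.e (nat_lit 393271) (nat_lit 23) (.e (nat_lit 426112) (nat_lit 1) .nil)))))) (.g (nat_lit 1) (.e (nat_lit 182282) (nat_lit 0) .nil) .nil))))) (.nd (nat_lit 8) (.nd (nat_lit 9) 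
(.lf (nat_lit 505058) (.g (nat_lit 1746) (.e (nat_lit 164322) (nat_lit 230) (.e (nat_lit 163867) (nat_lit 2) (.e (nat_lit 196656) (nat_lit 11) (.e (nat_lit 16435) (nat_lit 9) .nil)))) (.g (nat_lit 0) (.e (nat_lit 180694) (nat_lit 0) .nil) .nil))) 
(.lf (nat_lit 505570) (.g (nat_lit 1211) (.e (nat_lit 164326) (nat_lit 230) (.e (nat_lit 163868) (nat_lit 2) (.e (nat_lit 196655) (nat_lit 11) (.e (nat_lit 16435) (nat_lit 9) (.e (nat_lit 426495) (nat_lit 27) .nil))))) (.g (nat_lit 0) (.e (nat_lit 182080) (nat_lit 0) .nil) .nil)))) (.nd (nat_lit 9) 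
(.lf (nat_lit 505314) (.g (nat_lit 2190) (.e (nat_lit 164325) (nat_lit 230) (.e (nat_lit 163869) (nat_lit 2) (.e (nat_lit 196654) (nat_lit 11) (.e (nat_lit 16466) (nat_lit 13) (.e (nat_lit 483340) (nat_lit 9) .nil))))) (.g (nat_lit 0) (.e (nat_lit 181334) (nat_lit 0) .nil) .nil))) 
(.lf (nat_lit 505826) (.g (nat_lit 954) (.e (nat_lit 164327) (nat_lit 230) (.e (nat_lit 163870) (nat_lit 2) (.e (nat_lit 196622) (nat_lit 9) (.e (nat_lit 478) (nat_lit 37) .nil)))) (.g (nat_lit 0) (.e (nat_lit 182582) (nat_lit 0) .nil) .nil)))))))) (.nd (nat_lit 5) (.nd (nat_lit 6) (.nd (nat_lit 7) (.nd (nat_lit 8) (.nd (nat_lit 9) 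
(.lf (nat_lit 504850) (.g (nat_lit 1660) (.e (nat_lit 164211) (nat_lit 176) (.e (nat_lit 2798) (nat_lit 180) (.e (nat_lit 303119) (nat_lit 3) (.e (nat_lit 204867) (nat_lit 28) .nil)))) (.g (nat_lit 0) (.e (nat_lit 179345) (nat_lit 0) .nil) .nil))) 
(.lf (nat_lit 505362) (.g (nat_lit 4639) (.e (nat_lit 164325) (nat_lit 230) (.e (nat_lit 163873) (nat_lit 3) (.e (nat_lit 204813) (nat_lit 9) (.e (nat_lit 426123) (nat_lit 2) (.e (nat_lit 196661) (nat_lit 12) .nil))))) (.g (nat_lit 0) (.e (nat_lit 181417) (nat_lit 0) .nil) .nil)))) (.nd (nat_lit 9) 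
(.lf (nat_lit 505106) (.g (nat_lit 1073) (.e (nat_lit 164322) (nat_lit 230) (.e (nat_lit 163884) (nat_lit 5) (.e (nat_lit 221193) (nat_lit 11) (.e (nat_lit 336087) (nat_lit 9) .nil)))) (.g (nat_lit 0) (.e (nat_lit 180771) (nat_lit 0) .nil) .nil))) 
(.lf (nat_lit 505618) (.g (nat_lit 1371) (.e (nat_lit 164326) (nat_lit 230) (.e (nat_lit 163871) (nat_lit 2) (.e (nat_lit 196632) (nat_lit 9) .nil))) (.g (nat_lit 0) (.e (nat_lit 182157) (nat_lit 0) .nil) .nil))))) (.nd (nat_lit 8) (.nd (nat_lit 9) 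
(.lf (nat_lit 504978) (.g (nat_lit 3313) (.e (nat_lit 164262) (nat_lit 221) (.e (nat_lit 2576) (nat_lit 161) (.e (nat_lit 40996) (nat_lit 11) (.e (nat_lit 24658) (nat_lit 13) (.e (nat_lit 393238) (nat_lit 17) (.e (nat_lit 7107) (nat_lit 380) .nil)))))) (.g (nat_lit 1) (.e (nat_lit 179982) (nat_lit 0) .nil) .nil))) 
(.lf (nat_lit 505490) (.g (nat_lit 2710) (.e (nat_lit 164325) (nat_lit 230) (.e (nat_lit 163907) (nat_lit 12) (.e (nat_lit 426566) (nat_lit 34) (.e (nat_lit 393294) (nat_lit 26) (.e (nat_lit 475176) (nat_lit 24) .nil))))) (.g (nat_lit 0) (.e (nat_lit 181678) (nat_lit 0) .nil) .nil)))) (.nd (nat_lit 9) 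
(.lf (nat_lit 505234) (.g (nat_lit 2857) (.e (nat_lit 164324) (nat_lit 230) (.e (nat_lit 163905) (nat_lit 12) (.e (nat_lit 426566) (nat_lit 34) (.e (nat_lit 393291) (nat_lit 26) (.e (nat_lit 475177) (nat_lit 24) (.e (nat_lit 516118) (nat_lit 1) .nil)))))) (.g (nat_lit 1) (.e (nat_lit 181020) (nat_lit 0) .nil) .nil))) 
(.lf (nat_lit 505746) (.g (nat_lit 3567) (.e (nat_lit 164326) (nat_lit 230) (.e (nat_lit 163903) (nat_lit 12) (.e (nat_lit 426568) (nat_lit 34) (.e (nat_lit 393294) (nat_lit 26) (.e (nat_lit 475177) (nat_lit 24) (.e (nat_lit 516118) (nat_lit 1) .nil)))))) (.g (nat_lit 1) (.e (nat_lit 182366) (nat_lit 0) .nil) .nil)))))) (.nd (nat_lit 7) (.nd (nat_lit 8) (.nd (nat_lit 9) 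
(.lf (nat_lit 504914) (.g (nat_lit 659) (.e (nat_lit 164248) (nat_lit 201) (.e (nat_lit 3090) (nat_lit 191) (.e (nat_lit 483363) (nat_lit 18) .nil))) (.g (nat_lit 0) (.e (nat_lit 179575) (nat_lit 0) .nil) .nil))) 
(.lf (nat_lit 505426) (.g (nat_lit 1910) (.e (nat_lit 164325) (nat_lit 230) (.e (nat_lit 163902) (nat_lit 12) (.e (nat_lit 426568) (nat_lit 34) (.e (nat_lit 393271) (nat_lit 23) .nil)))) (.g (nat_lit 0) (.e (nat_lit 181521) (nat_lit 0) .nil) .nil)))) (.nd (nat_lit 9) 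
(.lf (nat_lit 505170) (.g (nat_lit 913) (.e (nat_lit 164323) (nat_lit 230) (.e (nat_lit 163875) (nat_lit 3) (.e (nat_lit 204837) (nat_lit 20) .nil))) (.g (nat_lit 0) (.e (nat_lit 180933) (nat_lit 0) .nil) .nil))) 
(.lf (nat_lit 505682) (.g (nat_lit 1558) (.e (nat_lit 164326) (nat_lit 230) (.e (nat_lit 163875) (nat_lit 3) (.e (nat_lit 204813) (nat_lit 9) (.e (nat_lit 426197) (nat_lit 9) .nil)))) (.g (nat_lit 0) (.e (nat_lit 182265) (nat_lit 0) .nil) .nil))))) (.nd (nat_lit 8) (.nd (nat_lit 9) 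
(.lf (nat_lit 505042) (.g (nat_lit 2234) (.e (nat_lit 164305) (nat_lit 226) (.e (nat_lit 2630) (nat_lit 164) (.e (nat_lit 172065) (nat_lit 3) (.e (nat_lit 204852) (nat_lit 26) (.e (nat_lit 336310) (nat_lit 16) .nil))))) (.g (nat_lit 0) (.e (nat_lit 180441) (nat_lit 0) .nil) .nil))) 
(.lf (nat_lit 505554) (.g (nat_lit 436) (.e (nat_lit 164326) (nat_lit 230) (.e (nat_lit 163868) (nat_lit 2) (.e (nat_lit 196628) (nat_lit 9) .nil))) (.g (nat_lit 0) (.e (nat_lit 182062) (nat_lit 0) .nil) .nil)))) (.nd (nat_lit 9) 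
(.lf (nat_lit 505298) (.g (nat_lit 2588) (.e (nat_lit 164325) (nat_lit 230) (.e (nat_lit 163868) (nat_lit 2) (.e (nat_lit 196656) (nat_lit 11) (.e (nat_lit 16463) (nat_lit 13) (.e (nat_lit 483336) (nat_lit 9) (.e (nat_lit 426107) (nat_lit 1) .nil)))))) (.g (nat_lit 1) (.e (nat_lit 181317) (nat_lit 0) .nil) .nil))) 
(.lf (nat_lit 505810) (.g (nat_lit 2948) (.e (nat_lit 164327) (nat_lit 230) (.e (nat_lit 163868) (nat_lit 2) (.e (nat_lit 196656) (nat_lit 11) (.e (nat_lit 16463) (nat_lit 13) (.e (nat_lit 483341) (nat_lit 9) (.e (nat_lit 426097) (nat_lit 1) .nil)))))) (.g (nat_lit 1) (.e (nat_lit 182563) (nat_lit 0) .nil) .nil))))))) (.nd (nat_lit 6) (.nd (nat_lit 7) (.nd (nat_lit 8) (.nd (nat_lit 9) 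
(.lf (nat_lit 504882) (.g (nat_lit 2740) (.e (nat_lit 171776) (nat_lit 176) (.e (nat_lit 2797) (nat_lit 180) (.e (nat_lit 303119) (nat_lit 3) (.e (nat_lit 204865) (nat_lit 28) (.e (nat_lit 352310) (nat_lit 22) .nil))))) (.g (nat_lit 0) (.e (nat_lit 179396) (nat_lit 0) .nil) .nil))) 
(.lf (nat_lit 505394) (.g (nat_lit 1586) (.e (nat_lit 164325) (nat_lit 230) (.e (nat_lit 163874) (nat_lit 3) (.e (nat_lit 204813) (nat_lit 9) (.e (nat_lit 426200) (nat_lit 9) (.e (nat_lit 426494) (nat_lit 27) .nil))))) (.g (nat_lit 0) (.e (nat_lit 181478) (nat_lit 0) .nil) .nil)))) (.nd (nat_lit 9) 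
(.lf (nat_lit 505138) (.g (nat_lit 1789) (.e (nat_lit 164323) (nat_lit 230) (.e (nat_lit 163867) (nat_lit 2) (.e (nat_lit 196654) (nat_lit 11) (.e (nat_lit 16433) (nat_lit 9) (.e (nat_lit 426566) (nat_lit 34) .nil))))) (.g (nat_lit 0) (.e (nat_lit 180894) (nat_lit 0) .nil) .nil))) 
(.lf (nat_lit 505650) (.g (nat_lit 1553) (.e (nat_lit 164326) (nat_lit 230) (.e (nat_lit 163873) (nat_lit 3) (.e (nat_lit 204811) (nat_lit 9) (.e (nat_lit 426261) (nat_lit 9) (.e (nat_lit 426565) (nat_lit 34) (.e (nat_lit 393254) (nat_lit 18) .nil)))))) (.g (nat_lit 1) (.e (nat_lit 182207) (nat_lit 0) .nil) .nil))))) (.nd (nat_lit 8) (.nd (nat_lit 9) 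
(.lf (nat_lit 505010) (.g (nat_lit 1240) (.e (nat_lit 164293) (nat_lit 224) (.e (nat_lit 164353) (nat_lit 246) (.e (nat_lit 226) (nat_lit 21) (.e (nat_lit 336428) (nat_lit 29) (.e (nat_lit 450304) (nat_lit 2) .nil))))) (.g (nat_lit 0) (.e (nat_lit 180272) (nat_lit 0) .nil) .nil))) 
(.lf (nat_lit 505522) (.g (nat_lit 1489) (.e (nat_lit 164325) (nat_lit 230) (.e (nat_lit 163942) (nat_lit 19) (.e (nat_lit 483341) (nat_lit 9) (.e (nat_lit 426197) (nat_lit 9) .nil)))) (.g (nat_lit 0) (.e (nat_lit 181956) (nat_lit 0) .nil) .nil)))) (.nd (nat_lit 9) 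
(.lf (nat_lit 505266) (.g (nat_lit 1740) (.e (nat_lit 164325) (nat_lit 230) (.e (nat_lit 163867) (nat_lit 2) (.e (nat_lit 196656) (nat_lit 11) (.e (nat_lit 16433) (nat_lit 9) .nil)))) (.g (nat_lit 0) (.e (nat_lit 181261) (nat_lit 0) .nil) .nil))) 
(.lf (nat_lit 505778) (.g (nat_lit 536) (.e (nat_lit 164327) (nat_lit 230) (.e (nat_lit 163868) (nat_lit 2) (.e (nat_lit 196618) (nat_lit 9) .nil))) (.g (nat_lit 0) (.e (nat_lit 182498) (nat_lit 0) .nil) .nil)))))) (.nd (nat_lit 7) (.nd (nat_lit 8) (.nd (nat_lit 9) 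
(.lf (nat_lit 504946) (.g (nat_lit 2238) (.e (nat_lit 171776) (nat_lit 192) (.e (nat_lit 73746) (nat_lit 3) (.e (nat_lit 516097) (nat_lit 0) (.e (nat_lit 7591) (nat_lit 407) (.e (nat_lit 73738) (nat_lit 1) .nil))))) (.g (nat_lit 0) (.e (nat_lit 179689) (nat_lit 0) .nil) .nil))) 
(.lf (nat_lit 505458) (.g (nat_lit 2130) (.e (nat_lit 164325) (nat_lit 230) (.e (nat_lit 163904) (nat_lit 12) (.e (nat_lit 426566) (nat_lit 34) (.e (nat_lit 393292) (nat_lit 26) (.e (nat_lit 475178) (nat_lit 24) .nil))))) (.g (nat_lit 0) (.e (nat_lit 181582) (nat_lit 0) .nil) .nil)))) (.nd (nat_lit 9) 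
(.lf (nat_lit 505202) (.g (nat_lit 2672) (.e (nat_lit 164324) (nat_lit 230) (.e (nat_lit 163873) (nat_lit 3) (.e (nat_lit 204813) (nat_lit 9) (.e (nat_lit 426187) (nat_lit 9) .nil)))) (.g (nat_lit 0) (.e (nat_lit 180978) (nat_lit 0) .nil) .nil))) 
(.lf (nat_lit 505714) (.g (nat_lit 2358) (.e (nat_lit 164326) (nat_lit 230) (.e (nat_lit 163903) (nat_lit 12) (.e (nat_lit 426428) (nat_lit 17) (.e (nat_lit 90170) (nat_lit 13) (.e (nat_lit 172082) (nat_lit 7) .nil))))) (.g (nat_lit 0) (.e (nat_lit 182324) (nat_lit 0) .nil) .nil))))) (.nd (nat_lit 8) (.nd (nat_lit 9) 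
(.lf (nat_lit 505074) (.g (nat_lit 1857) (.e (nat_lit 164322) (nat_lit 230) (.e (nat_lit 163871) (nat_lit 2) (.e (nat_lit 196656) (nat_lit 11) (.e (nat_lit 16416) (nat_lit 3) .nil)))) (.g (nat_lit 0) (.e (nat_lit 180717) (nat_lit 0) .nil) .nil))) 
(.lf (nat_lit 505586) (.g (nat_lit 2709) (.e (nat_lit 164326) (nat_lit 230) (.e (nat_lit 163869) (nat_lit 2) (.e (nat_lit 196654) (nat_lit 11) (.e (nat_lit 16463) (nat_lit 13) (.e (nat_lit 483341) (nat_lit 9) (.e (nat_lit 426106) (nat_lit 1) .nil)))))) (.g (nat_lit 1) (.e (nat_lit 182110) (nat_lit 0) .nil) .nil)))) (.nd (nat_lit 9) 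
(.lf (nat_lit 505330) (.g (nat_lit 1315) (.e (nat_lit 164325) (nat_lit 230) (.e (nat_lit 163871) (nat_lit 2) (.e (nat_lit 196653) (nat_lit 11) (.e (nat_lit 16468) (nat_lit 13) .nil)))) (.g (nat_lit 0) (.e (nat_lit 181360) (nat_lit 0) .nil) .nil))) 
(.lf (nat_lit 505842) (.g (nat_lit 2630) (.e (nat_lit 164327) (nat_lit 230) (.e (nat_lit 163871) (nat_lit 2) (.e (nat_lit 196654) (nat_lit 11) (.e (nat_lit 16416) (nat_lit 3) (.e (nat_lit 204836) (nat_lit 20) .nil))))) (.g (nat_lit 0) (.e (nat_lit 182605) (nat_lit 0) .nil) .nil))))))))) (.nd (nat_lit 4) (.nd (nat_lit 5) (.nd (nat_lit 6) (.nd (nat_lit 7) (.nd (nat_lit 8) (.nd (nat_lit 9) 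
(.lf (nat_lit 504842) (.g (nat_lit 3373) (.e (nat_lit 164211) (nat_lit 176) (.e (nat_lit 2797) (nat_lit 180) (.e (nat_lit 303119) (nat_lit 3) (.e (nat_lit 204865) (nat_lit 28) (.e (nat_lit 352310) (nat_lit 22) .nil))))) (.g (nat_lit 0) (.e (nat_lit 179333) (nat_lit 0) .nil) .nil))) 
(.lf (nat_lit 505354) (.g (nat_lit 3954) (.e (nat_lit 164325) (nat_lit 230) (.e (nat_lit 163871) (nat_lit 2) (.e (nat_lit 196656) (nat_lit 11) (.e (nat_lit 16466) (nat_lit 13) (.e (nat_lit 483337) (nat_lit 9) (.e (nat_lit 426107) (nat_lit 1) .nil)))))) (.g (nat_lit 1) (.e (nat_lit 181393) (nat_lit 0) .nil) .nil)))) (.nd (nat_lit 9) 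
(.lf (nat_lit 505098) (.g (nat_lit 4696) (.e (nat_lit 164322) (nat_lit 230) (.e (nat_lit 163873) (nat_lit 3) (.e (nat_lit 204813) (nat_lit 9) (.e (nat_lit 426258) (nat_lit 9) .nil)))) (.g (nat_lit 0) (.e (nat_lit 180750) (nat_lit 0) .nil) .nil))) 
(.lf (nat_lit 505610) (.g (nat_lit 1796) (.e (nat_lit 164326) (nat_lit 230) (.e (nat_lit 163871) (nat_lit 2) (.e (nat_lit 196624) (nat_lit 9) (.e (nat_lit 433) (nat_lit 32) (.e (nat_lit 426232) (nat_lit 9) .nil))))) (.g (nat_lit 0) (.e (nat_lit 182145) (nat_lit 0) .nil) .nil))))) (.nd (nat_lit 8) (.nd (nat_lit 9) 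
(.lf (nat_lit 504970) (.g (nat_lit 1891) (.e (nat_lit 171776) (nat_lit 278) (.e (nat_lit 1127) (nat_lit 83) (.e (nat_lit 16416) (nat_lit 3) (.e (nat_lit 204861) (nat_lit 26) (.e (nat_lit 336186) (nat_lit 11) .nil))))) (.g (nat_lit 0) (.e (nat_lit 179953) (nat_lit 0) .nil) .nil))) 
(.lf (nat_lit 505482) (.g (nat_lit 828) (.e (nat_lit 164325) (nat_lit 230) (.e (nat_lit 163907) (nat_lit 12) (.e (nat_lit 426491) (nat_lit 27) .nil))) (.g (nat_lit 0) (.e (nat_lit 181660) (nat_lit 0) .nil) .nil)))) (.nd (nat_lit 9) 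
(.lf (nat_lit 505226) (.g (nat_lit 2083) (.e (nat_lit 164324) (nat_lit 230) (.e (nat_lit 163902) (nat_lit 12) (.e (nat_lit 426568) (nat_lit 34) (.e (nat_lit 393270) (nat_lit 23) .nil)))) (.g (nat_lit 0) (.e (nat_lit 181011) (nat_lit 0) .nil) .nil))) 
(.lf (nat_lit 505738) (.g (nat_lit 2286) (.e (nat_lit 164326) (nat_lit 230) (.e (nat_lit 163903) (nat_lit 12) (.e (nat_lit 426568) (nat_lit 34) (.e (nat_lit 393234) (nat_lit 17) (.e (nat_lit 7374) (nat_lit 389) .nil))))) (.g (nat_lit 0) (.e (nat_lit 182356) (nat_lit 0) .nil) .nil)))))) (.nd (nat_lit 7) (.nd (nat_lit 8) (.nd (nat_lit 9) 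
(.lf (nat_lit 504906) (.g (nat_lit 1174) (.e (nat_lit 164232) (nat_lit 185) (.e (nat_lit 163943) (nat_lit 19) (.e (nat_lit 483350) (nat_lit 17) .nil))) (.g (nat_lit 0) (.e (nat_lit 179549) (nat_lit 0) .nil) .nil))) 
(.lf (nat_lit 505418) (.g (nat_lit 2884) (.e (nat_lit 164325) (nat_lit 230) (.e (nat_lit 163902) (nat_lit 12) (.e (nat_lit 426566) (nat_lit 34) (.e (nat_lit 393290) (nat_lit 26) .nil)))) (.g (nat_lit 0) (.e (nat_lit 181513) (nat_lit 0) .nil) .nil)))) (.nd (nat_lit 9) 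
(.lf (nat_lit 505162) (.g (nat_lit 3891) (.e (nat_lit 164323) (nat_lit 230) (.e (nat_lit 163873) (nat_lit 3) (.e (nat_lit 204813) (nat_lit 9) (.e (nat_lit 426198) (nat_lit 9) .nil)))) (.g (nat_lit 0) (.e (nat_lit 180919) (nat_lit 0) .nil) .nil))) 
(.lf (nat_lit 505674) (.g (nat_lit 1860) (.e (nat_lit 164326) (nat_lit 230) (.e (nat_lit 163875) (nat_lit 3) (.e (nat_lit 204811) (nat_lit 9) (.e (nat_lit 426230) (nat_lit 9) (.e (nat_lit 426565) (nat_lit 34) (.e (nat_lit 393254) (nat_lit 18) .nil)))))) (.g (nat_lit 1) (.e (nat_lit 182257) (nat_lit 0) .nil) .nil))))) (.nd (nat_lit 8) (.nd (nat_lit 9) 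
(.lf (nat_lit 505034) (.g (nat_lit 2248) (.e (nat_lit 164305) (nat_lit 226) (.e (nat_lit 2612) (nat_lit 163) (.e (nat_lit 163978) (nat_lit 30) (.e (nat_lit 573487) (nat_lit 14) .nil)))) (.g (nat_lit 0) (.e (nat_lit 180420) (nat_lit 0) .nil) .nil))) 
(.lf (nat_lit 505546) (.g (nat_lit 1833) (.e (nat_lit 164326) (nat_lit 230) (.e (nat_lit 163868) (nat_lit 2) (.e (nat_lit 196618) (nat_lit 9) (.e (nat_lit 457) (nat_lit 34) (.e (nat_lit 450304) (nat_lit 18) (.e (nat_lit 393254) (nat_lit 18) .nil)))))) (.g (nat_lit 1) (.e (nat_lit 182046) (nat_lit 0) .nil) .nil)))) (.nd (nat_lit 9) 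
(.lf (nat_lit 505290) (.g (nat_lit 1809) (.e (nat_lit 164325) (nat_lit 230) (.e (nat_lit 163868) (nat_lit 2) (.e (nat_lit 196656) (nat_lit 11) (.e (nat_lit 16436) (nat_lit 9) (.e (nat_lit 426486) (nat_lit 27) .nil))))) (.g (nat_lit 0) (.e (nat_lit 181302) (nat_lit 0) .nil) .nil))) 
(.lf (nat_lit 505802) (.g (nat_lit 366) (.e (nat_lit 164327) (nat_lit 230) (.e (nat_lit 163868) (nat_lit 2) (.e (nat_lit 196656) (nat_lit 11) .nil))) (.g (nat_lit 0) (.e (nat_lit 182544) (nat_lit 0) .nil) .nil))))))) (.nd (nat_lit 6) (.nd (nat_lit 7) (.nd (nat_lit 8) (.nd (nat_lit 9) 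
(.lf (nat_lit 504874) (.g (nat_lit 1853) (.e (nat_lit 164214) (nat_lit 176) (.e (nat_lit 2797) (nat_lit 180) (.e (nat_lit 303119) (nat_lit 3) (.e (nat_lit 204878) (nat_lit 31) .nil)))) (.g (nat_lit 0) (.e (nat_lit 179383) (nat_lit 0) .nil) .nil))) 
(.lf (nat_lit 505386) (.g (nat_lit 4133) (.e (nat_lit 164325) (nat_lit 230) (.e (nat_lit 163873) (nat_lit 3) (.e (nat_lit 204813) (nat_lit 9) (.e (nat_lit 426213) (nat_lit 9) .nil)))) (.g (nat_lit 0) (.e (nat_lit 181445) (nat_lit 0) .nil) .nil)))) (.nd (nat_lit 9) 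
(.lf (nat_lit 505130) (.g (nat_lit 3597) (.e (nat_lit 164322) (nat_lit 230) (.e (nat_lit 163905) (nat_lit 12) (.e (nat_lit 426566) (nat_lit 34) (.e (nat_lit 393296) (nat_lit 26) (.e (nat_lit 475178) (nat_lit 24) (.e (nat_lit 516119) (nat_lit 1) .nil)))))) (.g (nat_lit 1) (.e (nat_lit 180798) (nat_lit 0) .nil) .nil))) 
(.lf (nat_lit 505642) (.g (nat_lit 1804) (.e (nat_lit 164326) (nat_lit 230) (.e (nat_lit 163871) (nat_lit 2) (.e (nat_lit 196656) (nat_lit 11) (.e (nat_lit 16444) (nat_lit 9) (.e (nat_lit 433920) (nat_lit 34) .nil))))) (.g (nat_lit 0) (.e (nat_lit 182194) (nat_lit 0) .nil) .nil))))) (.nd (nat_lit 8) (.nd (nat_lit 9) 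
(.lf (nat_lit 505002) (.g (nat_lit 2331) (.e (nat_lit 164291) (nat_lit 224) (.e (nat_lit 164096) (nat_lit 86) (.e (nat_lit 532583) (nat_lit 26) (.e (nat_lit 426200) (nat_lit 9) (.e (nat_lit 426562) (nat_lit 33) (.e (nat_lit 385041) (nat_lit 19) .nil)))))) (.g (nat_lit 1) (.e (nat_lit 180187) (nat_lit 0) .nil) .nil))) 
(.lf (nat_lit 505514) (.g (nat_lit 2543) (.e (nat_lit 164325) (nat_lit 230) (.e (nat_lit 163941) (nat_lit 19) (.e (nat_lit 483341) (nat_lit 9) (.e (nat_lit 426199) (nat_lit 9) .nil)))) (.g (nat_lit 0) (.e (nat_lit 181941) (nat_lit 0) .nil) .nil)))) (.nd (nat_lit 9) 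
(.lf (nat_lit 505258) (.g (nat_lit 4119) (.e (nat_lit 164325) (nat_lit 230) (.e (nat_lit 163866) (nat_lit 2) (.e (nat_lit 196654) (nat_lit 11) (.e (nat_lit 16463) (nat_lit 13) (.e (nat_lit 483337) (nat_lit 9) (.e (nat_lit 426107) (nat_lit 1) .nil)))))) (.g (nat_lit 1) (.e (nat_lit 181248) (nat_lit 0) .nil) .nil))) 
(.lf (nat_lit 505770) (.g (nat_lit 946) (.e (nat_lit 164327) (nat_lit 230) (.e (nat_lit 163843) (nat_lit 0) (.e (nat_lit 3651) (nat_lit 227) (.e (nat_lit 778462) (nat_lit 11) .nil)))) (.g (nat_lit 0) (.e (nat_lit 182475) (nat_lit 0) .nil) .nil)))))) (.nd (nat_lit 7) (.nd (nat_lit 8) (.nd (nat_lit 9) 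
(.lf (nat_lit 504938) (.g (nat_lit 1934) (.e (nat_lit 171776) (nat_lit 187) (.e (nat_lit 1635) (nat_lit 114) (.e (nat_lit 385074) (nat_lit 31) (.e (nat_lit 573491) (nat_lit 15) (.e (nat_lit 81951) (nat_lit 22) .nil))))) (.g (nat_lit 0) (.e (nat_lit 179670) (nat_lit 0) .nil) .nil))) 
(.lf (nat_lit 505450) (.g (nat_lit 1469) (.e (nat_lit 164325) (nat_lit 230) (.e (nat_lit 163904) (nat_lit 12) (.e (nat_lit 426566) (nat_lit 34) (.e (nat_lit 393270) (nat_lit 23) .nil)))) (.g (nat_lit 0) (.e (nat_lit 181574) (nat_lit 0) .nil) .nil)))) (.nd (nat_lit 9) 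
(.lf (nat_lit 505194) (.g (nat_lit 2505) (.e (nat_lit 164324) (nat_lit 230) (.e (nat_lit 163871) (nat_lit 2) (.e (nat_lit 196654) (nat_lit 11) (.e (nat_lit 16463) (nat_lit 13) (.e (nat_lit 483341) (nat_lit 9) (.e (nat_lit 426106) (nat_lit 1) .nil)))))) (.g (nat_lit 1) (.e (nat_lit 180970) (nat_lit 0) .nil) .nil))) 
(.lf (nat_lit 505706) (.g (nat_lit 2840) (.e (nat_lit 164326) (nat_lit 230) (.e (nat_lit 163902) (nat_lit 12) (.e (nat_lit 426566) (nat_lit 34) (.e (nat_lit 393293) (nat_lit 26) .nil)))) (.g (nat_lit 0) (.e (nat_lit 182298) (nat_lit 0) .nil) .nil))))) (.nd (nat_lit 8) (.nd (nat_lit 9) 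
(.lf (nat_lit 505066) (.g (nat_lit 2012) (.e (nat_lit 164322) (nat_lit 230) (.e (nat_lit 163868) (nat_lit 2) (.e (nat_lit 196656) (nat_lit 11) (.e (nat_lit 16438) (nat_lit 9) .nil)))) (.g (nat_lit 0) (.e (nat_lit 180707) (nat_lit 0) .nil) .nil))) 
(.lf (nat_lit 505578) (.g (nat_lit 2073) (.e (nat_lit 164326) (nat_lit 230) (.e (nat_lit 163868) (nat_lit 2) (.e (nat_lit 196656) (nat_lit 11) (.e (nat_lit 16434) (nat_lit 9) .nil)))) (.g (nat_lit 0) (.e (nat_lit 182097) (nat_lit 0) .nil) .nil)))) (.nd (nat_lit 9) 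
(.lf (nat_lit 505322) (.g (nat_lit 2184) (.e (nat_lit 164325) (nat_lit 230) (.e (nat_lit 163869) (nat_lit 2) (.e (nat_lit 196656) (nat_lit 11) (.e (nat_lit 16466) (nat_lit 13) (.e (nat_lit 483341) (nat_lit 9) .nil))))) (.g (nat_lit 0) (.e (nat_lit 181345) (nat_lit 0) .nil) .nil))) 
(.lf (nat_lit 505834) (.g (nat_lit 2141) (.e (nat_lit 164327) (nat_lit 230) (.e (nat_lit 163871) (nat_lit 2) (.e (nat_lit 196653) (nat_lit 11) (.e (nat_lit 16463) (nat_lit 13) (.e (nat_lit 483341) (nat_lit 9) .nil))))) (.g (nat_lit 0) (.e (nat_lit 182596) (nat_lit 0) .nil) .nil)))))))) (.nd (nat_lit 5) (.nd (nat_lit 6) (.nd (nat_lit 7) (.nd (nat_lit 8) (.nd (nat_lit 9) 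
(.lf (nat_lit 504858) (.g (nat_lit 2777) (.e (nat_lit 164212) (nat_lit 176) (.e (nat_lit 2797) (nat_lit 180) (.e (nat_lit 303119) (nat_lit 3) (.e (nat_lit 204870) (nat_lit 29) (.e (nat_lit 360463) (nat_lit 1) .nil))))) (.g (nat_lit 0) (.e (nat_lit 179356) (nat_lit 0) .nil) .nil))) 
(.lf (nat_lit 505370) (.g (nat_lit 2631) (.e (nat_lit 164325) (nat_lit 230) (.e (nat_lit 163873) (nat_lit 3) (.e (nat_lit 204813) (nat_lit 9) (.e (nat_lit 426187) (nat_lit 9) .nil)))) (.g (nat_lit 0) (.e (nat_lit 181428) (nat_lit 0) .nil) .nil)))) (.nd (nat_lit 9) 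
(.lf (nat_lit 505114) (.g (nat_lit 3579) (.e (nat_lit 164322) (nat_lit 230) (.e (nat_lit 163902) (nat_lit 12) (.e (nat_lit 426566) (nat_lit 34) (.e (nat_lit 393290) (nat_lit 26) .nil)))) (.g (nat_lit 0) (.e (nat_lit 180781) (nat_lit 0) .nil) .nil))) 
(.lf (nat_lit 505626) (.g (nat_lit 1623) (.e (nat_lit 164326) (nat_lit 230) (.e (nat_lit 163871) (nat_lit 2) (.e (nat_lit 196652) (nat_lit 11) (.e (nat_lit 16436) (nat_lit 9) (.e (nat_lit 426566) (nat_lit 34) .nil))))) (.g (nat_lit 0) (.e (nat_lit 182168) (nat_lit 0) .nil) .nil))))) (.nd (nat_lit 8) (.nd (nat_lit 9) 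
(.lf (nat_lit 504986) (.g (nat_lit 1158) (.e (nat_lit 164284) (nat_lit 224) (.e (nat_lit 164353) (nat_lit 246) (.e (nat_lit 351) (nat_lit 28) (.e (nat_lit 393293) (nat_lit 26) (.e (nat_lit 475169) (nat_lit 22) .nil))))) (.g (nat_lit 0) (.e (nat_lit 180038) (nat_lit 0) .nil) .nil))) 
(.lf (nat_lit 505498) (.g (nat_lit 926) (.e (nat_lit 164325) (nat_lit 230) (.e (nat_lit 163907) (nat_lit 12) (.e (nat_lit 426568) (nat_lit 34) (.e (nat_lit 401152) (nat_lit 23) .nil)))) (.g (nat_lit 0) (.e (nat_lit 181686) (nat_lit 0) .nil) .nil)))) (.nd (nat_lit 9) 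
(.lf (nat_lit 505242) (.g (nat_lit 1592) (.e (nat_lit 164324) (nat_lit 230) (.e (nat_lit 163941) (nat_lit 19) (.e (nat_lit 483341) (nat_lit 9) (.e (nat_lit 426197) (nat_lit 9) .nil)))) (.g (nat_lit 0) (.e (nat_lit 181072) (nat_lit 0) .nil) .nil))) 
(.lf (nat_lit 505754) (.g (nat_lit 2155) (.e (nat_lit 164326) (nat_lit 230) (.e (nat_lit 163941) (nat_lit 19) (.e (nat_lit 483341) (nat_lit 9) (.e (nat_lit 426185) (nat_lit 9) .nil)))) (.g (nat_lit 0) (.e (nat_lit 182442) (nat_lit 0) .nil) .nil)))))) (.nd (nat_lit 7) (.nd (nat_lit 8) (.nd (nat_lit 9) 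
(.lf (nat_lit 504922) (.g (nat_lit 4124) (.e (nat_lit 164238) (nat_lit 187) (.e (nat_lit 1179) (nat_lit 87) (.e (nat_lit 57931) (nat_lit 282) (.e (nat_lit 163943) (nat_lit 19) (.e (nat_lit 483372) (nat_lit 21) (.e (nat_lit 319504) (nat_lit 10) (.e (nat_lit 618) (nat_lit 48) (.e (nat_lit 557093) (nat_lit 12) .nil)))))))) (.g (nat_lit 1) (.e (nat_lit 179642) (nat_lit 0) .nil) .nil))) 
(.lf (nat_lit 505434) (.g (nat_lit 2833) (.e (nat_lit 164325) (nat_lit 230) (.e (nat_lit 163903) (nat_lit 12) (.e (nat_lit 426472) (nat_lit 25) (.e (nat_lit 319534) (nat_lit 16) (.e (nat_lit 286756) (nat_lit 10) (.e (nat_lit 344097) (nat_lit 18) (.e (nat_lit 7280) (nat_lit 386) (.e (nat_lit 163859) (nat_lit 1) .nil)))))))) (.g (nat_lit 1) (.e (nat_lit 181548) (nat_lit 0) .nil) .nil)))) 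
(.nd (nat_lit 9) 
(.lf (nat_lit 505178) (.g (nat_lit 427) (.e (nat_lit 164324) (nat_lit 230) (.e (nat_lit 163868) (nat_lit 2) (.e (nat_lit 196656) (nat_lit 11) .nil))) (.g (nat_lit 0) (.e (nat_lit 180951) (nat_lit 0) .nil) .nil))) 
(.lf (nat_lit 505690) (.g (nat_lit 1069) (.e (nat_lit 164326) (nat_lit 230) (.e (nat_lit 163881) (nat_lit 4) (.e (nat_lit 213032) (nat_lit 11) (.e (nat_lit 24660) (nat_lit 13) (.e (nat_lit 393277) (nat_lit 23) (.e (nat_lit 426103) (nat_lit 1) .nil)))))) (.g (nat_lit 1) (.e (nat_lit 182274) (nat_lit 0) .nil) .nil))))) (.nd (nat_lit 8) (.nd (nat_lit 9) 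
(.lf (nat_lit 505050) (.g (nat_lit 450) (.e (nat_lit 164322) (nat_lit 230) (.e (nat_lit 163867) (nat_lit 2) (.e (nat_lit 196624) (nat_lit 9) .nil))) (.g (nat_lit 0) (.e (nat_lit 180681) (nat_lit 0) .nil) .nil))) 
(.lf (nat_lit 505562) (.g (nat_lit 907) (.e (nat_lit 164326) (nat_lit 230) (.e (nat_lit 163868) (nat_lit 2) (.e (nat_lit 196650) (nat_lit 10) .nil))) (.g (nat_lit 0) (.e (nat_lit 182071) (nat_lit 0) .nil) .nil)))) (.nd (nat_lit 9) 
(.lf (nat_lit 505306) (.g (nat_lit 699) (.e (nat_lit 164325) (nat_lit 230) (.e (nat_lit 163869) (nat_lit 2) (.e (nat_lit 196624) (nat_lit 9) .nil))) (.g (nat_lit 0) (.e (nat_lit 181325) (nat_lit 0) .nil) .nil))) 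
(.lf (nat_lit 505818) (.g (nat_lit 1788) (.e (nat_lit 164327) (nat_lit 230) (.e (nat_lit 163869) (nat_lit 2) (.e (nat_lit 196630) (nat_lit 9) (.e (nat_lit 430) (nat_lit 32) .nil)))) (.g (nat_lit 0) (.e (nat_lit 182574) (nat_lit 0) .nil) .nil))))))) (.nd (nat_lit 6) (.nd (nat_lit 7) (.nd (nat_lit 8) (.nd (nat_lit 9) 
(.lf (nat_lit 504890) (.g (nat_lit 2183) (.e (nat_lit 171776) (nat_lit 176) (.e (nat_lit 2797) (nat_lit 180) (.e (nat_lit 303119) (nat_lit 3) (.e (nat_lit 204878) (nat_lit 31) (.e (nat_lit 376864) (nat_lit 22) .nil))))) (.g (nat_lit 0) (.e (nat_lit 179404) (nat_lit 0) .nil) .nil))) 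
(.lf (nat_lit 505402) (.g (nat_lit 1743) (.e (nat_lit 164325) (nat_lit 230) (.e (nat_lit 163875) (nat_lit 3) (.e (nat_lit 204813) (nat_lit 9) (.e (nat_lit 426200) (nat_lit 9) (.e (nat_lit 426478) (nat_lit 27) .nil))))) (.g (nat_lit 0) (.e (nat_lit 181488) (nat_lit 0) .nil) .nil)))) (.nd (nat_lit 9) 
(.lf (nat_lit 505146) (.g (nat_lit 1709) (.e (nat_lit 164323) (nat_lit 230) (.e (nat_lit 163867) (nat_lit 2) (.e (nat_lit 196656) (nat_lit 11) (.e (nat_lit 16466) (nat_lit 13) .nil)))) (.g (nat_lit 0) (.e (nat_lit 180903) (nat_lit 0) .nil) .nil))) 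
(.lf (nat_lit 505658) (.g (nat_lit 3941) (.e (nat_lit 164326) (nat_lit 230) (.e (nat_lit 163873) (nat_lit 3) (.e (nat_lit 204813) (nat_lit 9) (.e (nat_lit 426204) (nat_lit 9) .nil)))) (.g (nat_lit 0) (.e (nat_lit 182230) (nat_lit 0) .nil) .nil))))) (.nd (nat_lit 8) (.nd (nat_lit 9) 
(.lf (nat_lit 505018) (.g (nat_lit 1364) (.e (nat_lit 164294) (nat_lit 224) (.e (nat_lit 164092) (nat_lit 82) (.e (nat_lit 500046) (nat_lit 16) (.e (nat_lit 16466) (nat_lit 13) (.e (nat_lit 491264) (nat_lit 0) .nil))))) (.g (nat_lit 0) (.e (nat_lit 180297) (nat_lit 0) .nil) .nil))) 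
(.lf (nat_lit 505530) (.g (nat_lit 1445) (.e (nat_lit 164325) (nat_lit 230) (.e (nat_lit 163943) (nat_lit 19) (.e (nat_lit 483341) (nat_lit 9) (.e (nat_lit 426198) (nat_lit 9) .nil)))) (.g (nat_lit 0) (.e (nat_lit 181983) (nat_lit 0) .nil) .nil)))) (.nd (nat_lit 9) 
(.lf (nat_lit 505274) (.g (nat_lit 1087) (.e (nat_lit 164325) (nat_lit 230) (.e (nat_lit 163868) (nat_lit 2) (.e (nat_lit 196628) (nat_lit 9) .nil))) (.g (nat_lit 0) (.e (nat_lit 181279) (nat_lit 0) .nil) .nil))) 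
(.lf (nat_lit 505786) (.g (nat_lit 2511) (.e (nat_lit 164327) (nat_lit 230) (.e (nat_lit 163868) (nat_lit 2) (.e (nat_lit 196654) (nat_lit 11) (.e (nat_lit 16416) (nat_lit 3) (.e (nat_lit 204836) (nat_lit 20) (.e (nat_lit 114717) (nat_lit 23) (.e (nat_lit 98333) (nat_lit 18) .nil))))))) (.g (nat_lit 1) (.e (nat_lit 182517) (nat_lit 0) .nil) .nil)))))) 
(.nd (nat_lit 7) (.nd (nat_lit 8) (.nd (nat_lit 9) 
(.lf (nat_lit 504954) (.g (nat_lit 2468) (.e (nat_lit 171776) (nat_lit 192) (.e (nat_lit 73746) (nat_lit 3) (.e (nat_lit 516185) (nat_lit 16) (.e (nat_lit 491560) (nat_lit 10) (.e (nat_lit 352000) (nat_lit 19) .nil))))) (.g (nat_lit 0) (.e (nat_lit 179698) (nat_lit 0) .nil) .nil))) 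
(.lf (nat_lit 505466) (.g (nat_lit 1418) (.e (nat_lit 164325) (nat_lit 230) (.e (nat_lit 163905) (nat_lit 12) (.e (nat_lit 426566) (nat_lit 34) (.e (nat_lit 393272) (nat_lit 23) .nil)))) (.g (nat_lit 0) (.e (nat_lit 181603) (nat_lit 0) .nil) .nil)))) (.nd (nat_lit 9) 
(.lf (nat_lit 505210) (.g (nat_lit 1022) (.e (nat_lit 164324) (nat_lit 230) (.e (nat_lit 163874) (nat_lit 3) (.e (nat_lit 204812) (nat_lit 9) .nil))) (.g (nat_lit 0) (.e (nat_lit 180994) (nat_lit 0) .nil) .nil))) 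
(.lf (nat_lit 505722) (.g (nat_lit 3301) (.e (nat_lit 164326) (nat_lit 230) (.e (nat_lit 163903) (nat_lit 12) (.e (nat_lit 426481) (nat_lit 27) (.e (nat_lit 336389) (nat_lit 27) (.e (nat_lit 426308) (nat_lit 12) (.e (nat_lit 475175) (nat_lit 24) (.e (nat_lit 516119) (nat_lit 1) .nil))))))) (.g (nat_lit 1) (.e (nat_lit 182335) (nat_lit 0) .nil) .nil))))) (.nd (nat_lit 8) (.nd (nat_lit 9) 
(.lf (nat_lit 505082) (.g (nat_lit 1744) (.e (nat_lit 164322) (nat_lit 230) (.e (nat_lit 163871) (nat_lit 2) (.e (nat_lit 196656) (nat_lit 11) (.e (nat_lit 16466) (nat_lit 13) .nil)))) (.g (nat_lit 0) (.e (nat_lit 180726) (nat_lit 0) .nil) .nil))) 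
(.lf (nat_lit 505594) (.g (nat_lit 650) (.e (nat_lit 164326) (nat_lit 230) (.e (nat_lit 163870) (nat_lit 2) (.e (nat_lit 196624) (nat_lit 9) .nil))) (.g (nat_lit 0) (.e (nat_lit 182121) (nat_lit 0) .nil) .nil)))) (.nd (nat_lit 9) 
(.lf (nat_lit 505338) (.g (nat_lit 1384) (.e (nat_lit 164325) (nat_lit 230) (.e (nat_lit 163871) (nat_lit 2) (.e (nat_lit 196656) (nat_lit 11) (.e (nat_lit 16432) (nat_lit 9) (.e (nat_lit 426512) (nat_lit 27) .nil))))) (.g (nat_lit 0) (.e (nat_lit 181373) (nat_lit 0) .nil) .nil))) 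
(.lf (nat_lit 505850) (.g (nat_lit 1524) (.e (nat_lit 164327) (nat_lit 230) (.e (nat_lit 163871) (nat_lit 2) (.e (nat_lit 196654) (nat_lit 11) (.e (nat_lit 16436) (nat_lit 9) (.e (nat_lit 426486) (nat_lit 27) .nil))))) (.g (nat_lit 0) (.e (nat_lit 182616) (nat_lit 0) .nil) .nil)))))))))) 
(.nd (nat_lit 3) (.nd (nat_lit 4) (.nd (nat_lit 5) (.nd (nat_lit 6) (.nd (nat_lit 7) 
(.nd (nat_lit 8) (.nd (nat_lit 9) 
(.lf (nat_lit 504838) (.g (nat_lit 2642) (.e (nat_lit 164211) (nat_lit 176) (.e (nat_lit 2797) (nat_lit 180) (.e (nat_lit 303117) (nat_lit 2) (.e (nat_lit 196674) (nat_lit 15) (.e (nat_lit 81951) (nat_lit 22) .nil))))) (.g (nat_lit 0) (.e (nat_lit 179327) (nat_lit 0) .nil) .nil))) 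
(.lf (nat_lit 505350) (.g (nat_lit 1559) (.e (nat_lit 164325) (nat_lit 230) (.e (nat_lit 163871) (nat_lit 2) (.e (nat_lit 196656) (nat_lit 11) (.e (nat_lit 16446) (nat_lit 9) (.e (nat_lit 433920) (nat_lit 34) .nil))))) (.g (nat_lit 0) (.e (nat_lit 181386) (nat_lit 0) .nil) .nil)))) (.nd (nat_lit 9) 
(.lf (nat_lit 505094) (.g (nat_lit 3400) (.e (nat_lit 164322) (nat_lit 230) (.e (nat_lit 163873) (nat_lit 3) (.e (nat_lit 204813) (nat_lit 9) (.e (nat_lit 426199) (nat_lit 9) .nil)))) (.g (nat_lit 0) (.e (nat_lit 180745) (nat_lit 0) .nil) .nil))) 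
(.lf (nat_lit 505606) (.g (nat_lit 1966) (.e (nat_lit 164326) (nat_lit 230) (.e (nat_lit 163871) (nat_lit 2) (.e (nat_lit 196617) (nat_lit 9) (.e (nat_lit 426) (nat_lit 32) (.e (nat_lit 426188) (nat_lit 9) .nil))))) (.g (nat_lit 0) (.e (nat_lit 182138) (nat_lit 0) .nil) .nil))))) (.nd (nat_lit 8) (.nd (nat_lit 9) 
(.lf (nat_lit 504966) (.g (nat_lit 2665) (.e (nat_lit 171776) (nat_lit 192) (.e (nat_lit 73755) (nat_lit 8) (.e (nat_lit 557087) (nat_lit 11) (.e (nat_lit 24641) (nat_lit 10) (.e (nat_lit 344110) (nat_lit 19) .nil))))) (.g (nat_lit 0) (.e (nat_lit 179716) (nat_lit 0) .nil) .nil))) 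
(.lf (nat_lit 505478) (.g (nat_lit 2053) (.e (nat_lit 164325) (nat_lit 230) (.e (nat_lit 163907) (nat_lit 12) (.e (nat_lit 426478) (nat_lit 27) (.e (nat_lit 336389) (nat_lit 27) (.e (nat_lit 426190) (nat_lit 9) .nil))))) (.g (nat_lit 0) (.e (nat_lit 181655) (nat_lit 0) .nil) .nil)))) (.nd (nat_lit 9) 
(.lf (nat_lit 505222) (.g (nat_lit 2442) (.e (nat_lit 164324) (nat_lit 230) (.e (nat_lit 163902) (nat_lit 12) (.e (nat_lit 426566) (nat_lit 34) (.e (nat_lit 393293) (nat_lit 26) .nil)))) (.g (nat_lit 0) (.e (nat_lit 181007) (nat_lit 0) .nil) .nil))) 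
(.lf (nat_lit 505734) (.g (nat_lit 1803) (.e (nat_lit 164326) (nat_lit 230) (.e (nat_lit 163903) (nat_lit 12) (.e (nat_lit 426566) (nat_lit 34) (.e (nat_lit 393295) (nat_lit 26) (.e (nat_lit 475176) (nat_lit 24) .nil))))) (.g (nat_lit 0) (.e (nat_lit 182352) (nat_lit 0) .nil) .nil)))))) (.nd (nat_lit 7) (.nd (nat_lit 8) (.nd (nat_lit 9) 
(.lf (nat_lit 504902) (.g (nat_lit 578) (.e (nat_lit 164218) (nat_lit 179) (.e (nat_lit 164359) (nat_lit 246) (.e (nat_lit 2661) (nat_lit 167) .nil))) (.g (nat_lit 0) (.e (nat_lit 179436) (nat_lit 0) .nil) .nil))) 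
(.lf (nat_lit 505414) (.g (nat_lit 843) (.e (nat_lit 164325) (nat_lit 230) (.e (nat_lit 163884) (nat_lit 5) (.e (nat_lit 221190) (nat_lit 11) (.e (nat_lit 336077) (nat_lit 9) .nil)))) (.g (nat_lit 0) (.e (nat_lit 181503) (nat_lit 0) .nil) .nil)))) (.nd (nat_lit 9) 
(.lf (nat_lit 505158) (.g (nat_lit 3262) (.e (nat_lit 164323) (nat_lit 230) (.e (nat_lit 163873) (nat_lit 3) (.e (nat_lit 204813) (nat_lit 9) (.e (nat_lit 426188) (nat_lit 9) .nil)))) (.g (nat_lit 0) (.e (nat_lit 180915) (nat_lit 0) .nil) .nil))) 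
(.lf (nat_lit 505670) (.g (nat_lit 1524) (.e (nat_lit 164326) (nat_lit 230) (.e (nat_lit 163875) (nat_lit 3) (.e (nat_lit 204808) (nat_lit 9) (.e (nat_lit 426188) (nat_lit 9) (.e (nat_lit 426566) (nat_lit 34) .nil))))) (.g (nat_lit 0) (.e (nat_lit 182252) (nat_lit 0) .nil) .nil))))) (.nd (nat_lit 8) (.nd (nat_lit 9) 
(.lf (nat_lit 505030) (.g (nat_lit 2756) (.e (nat_lit 164304) (nat_lit 226) (.e (nat_lit 2612) (nat_lit 163) (.e (nat_lit 163978) (nat_lit 30) (.e (nat_lit 573487) (nat_lit 14) (.e (nat_lit 73753) (nat_lit 8) .nil))))) (.g (nat_lit 0) (.e (nat_lit 180354) (nat_lit 0) .nil) .nil))) 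
(.lf (nat_lit 505542) (.g (nat_lit 1747) (.e (nat_lit 164326) (nat_lit 230) (.e (nat_lit 163867) (nat_lit 2) (.e (nat_lit 196656) (nat_lit 11) (.e (nat_lit 16433) (nat_lit 9) .nil)))) (.g (nat_lit 0) (.e (nat_lit 182039) (nat_lit 0) .nil) .nil)))) (.nd (nat_lit 9) 
(.lf (nat_lit 505286) (.g (nat_lit 1685) (.e (nat_lit 164325) (nat_lit 230) (.e (nat_lit 163868) (nat_lit 2) (.e (nat_lit 196656) (nat_lit 11) (.e (nat_lit 16417) (nat_lit 3) .nil)))) (.g (nat_lit 0) (.e (nat_lit 181297) (nat_lit 0) .nil) .nil))) 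
(.lf (nat_lit 505798) (.g (nat_lit 2295) (.e (nat_lit 164327) (nat_lit 230) (.e (nat_lit 163868) (nat_lit 2) (.e (nat_lit 196654) (nat_lit 11) (.e (nat_lit 16463) (nat_lit 13) (.e (nat_lit 483341) (nat_lit 9) (.e (nat_lit 433920) (nat_lit 1) .nil)))))) (.g (nat_lit 1) (.e (nat_lit 182534) (nat_lit 0) .nil) .nil))))))) (.nd (nat_lit 6) (.nd (nat_lit 7) (.nd (nat_lit 8) (.nd (nat_lit 9) 
(.lf (nat_lit 504870) (.g (nat_lit 1957) (.e (nat_lit 164214) (nat_lit 176) (.e (nat_lit 2797) (nat_lit 180) (.e (nat_lit 303119) (nat_lit 3) (.e (nat_lit 204867) (nat_lit 28) .nil)))) (.g (nat_lit 0) (.e (nat_lit 179379) (nat_lit 0) .nil) .nil))) 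
(.lf (nat_lit 505382) (.g (nat_lit 1062) (.e (nat_lit 164325) (nat_lit 230) (.e (nat_lit 163873) (nat_lit 3) (.e (nat_lit 204813) (nat_lit 9) (.e (nat_lit 426200) (nat_lit 9) .nil)))) (.g (nat_lit 0) (.e (nat_lit 181441) (nat_lit 0) .nil) .nil)))) (.nd (nat_lit 9) 
(.lf (nat_lit 505126) (.g (nat_lit 1488) (.e (nat_lit 164322) (nat_lit 230) (.e (nat_lit 163904) (nat_lit 12) (.e (nat_lit 426566) (nat_lit 34) (.e (nat_lit 393268) (nat_lit 23) (.e (nat_lit 426437) (nat_lit 18) .nil))))) (.g (nat_lit 0) (.e (nat_lit 180793) (nat_lit 0) .nil) .nil))) 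
(.lf (nat_lit 505638) (.g (nat_lit 2642) (.e (nat_lit 164326) (nat_lit 230) (.e (nat_lit 163871) (nat_lit 2) (.e (nat_lit 196656) (nat_lit 11) (.e (nat_lit 16437) (nat_lit 9) .nil)))) (.g (nat_lit 0) (.e (nat_lit 182190) (nat_lit 0) .nil) .nil))))) (.nd (nat_lit 8) (.nd (nat_lit 9) 
(.lf (nat_lit 504998) (.g (nat_lit 1833) (.e (nat_lit 164289) (nat_lit 224) (.e (nat_lit 164358) (nat_lit 246) (.e (nat_lit 351) (nat_lit 28) (.e (nat_lit 393271) (nat_lit 23) (.e (nat_lit 433920) (nat_lit 17) .nil))))) (.g (nat_lit 0) (.e (nat_lit 180164) (nat_lit 0) .nil) .nil))) 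
(.lf (nat_lit 505510) (.g (nat_lit 1585) (.e (nat_lit 164325) (nat_lit 230) (.e (nat_lit 163941) (nat_lit 19) (.e (nat_lit 483341) (nat_lit 9) (.e (nat_lit 426197) (nat_lit 9) .nil)))) (.g (nat_lit 0) (.e (nat_lit 181935) (nat_lit 0) .nil) .nil)))) (.nd (nat_lit 9) 
(.lf (nat_lit 505254) (.g (nat_lit 1039) (.e (nat_lit 164325) (nat_lit 230) (.e (nat_lit 163863) (nat_lit 1) (.e (nat_lit 164326) (nat_lit 230) (.e (nat_lit 163886) (nat_lit 5) (.e (nat_lit 221218) (nat_lit 24) .nil))))) (.g (nat_lit 0) (.e (nat_lit 181203) (nat_lit 0) .nil) .nil))) 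
(.lf (nat_lit 505766) (.g (nat_lit 2734) (.e (nat_lit 164326) (nat_lit 230) (.e (nat_lit 163942) (nat_lit 19) (.e (nat_lit 483341) (nat_lit 9) (.e (nat_lit 426190) (nat_lit 9) (.e (nat_lit 426436) (nat_lit 18) .nil))))) (.g (nat_lit 0) (.e (nat_lit 182464) (nat_lit 0) .nil) .nil)))))) (.nd (nat_lit 7) (.nd (nat_lit 8) (.nd (nat_lit 9) 
(.lf (nat_lit 504934) (.g (nat_lit 2778) (.e (nat_lit 171776) (nat_lit 187) (.e (nat_lit 1631) (nat_lit 114) (.e (nat_lit 385074) (nat_lit 31) (.e (nat_lit 573482) (nat_lit 13) (.e (nat_lit 65604) (nat_lit 9) .nil))))) (.g (nat_lit 0) (.e (nat_lit 179664) (nat_lit 0) .nil) .nil))) 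
(.lf (nat_lit 505446) (.g (nat_lit 305) (.e (nat_lit 164325) (nat_lit 230) (.e (nat_lit 163903) (nat_lit 12) (.e (nat_lit 426568) (nat_lit 34) .nil))) (.g (nat_lit 0) (.e (nat_lit 181570) (nat_lit 0) .nil) .nil)))) (.nd (nat_lit 9) 
(.lf (nat_lit 505190) (.g (nat_lit 2255) (.e (nat_lit 164324) (nat_lit 230) (.e (nat_lit 163869) (nat_lit 2) (.e (nat_lit 196656) (nat_lit 11) (.e (nat_lit 16463) (nat_lit 13) (.e (nat_lit 483341) (nat_lit 9) .nil))))) (.g (nat_lit 0) (.e (nat_lit 180965) (nat_lit 0) .nil) .nil))) 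
(.lf (nat_lit 505702) (.g (nat_lit 2770) (.e (nat_lit 164326) (nat_lit 230) (.e (nat_lit 163902) (nat_lit 12) (.e (nat_lit 426566) (nat_lit 34) (.e (nat_lit 393270) (nat_lit 23) .nil)))) (.g (nat_lit 0) (.e (nat_lit 182294) (nat_lit 0) .nil) .nil))))) (.nd (nat_lit 8) (.nd (nat_lit 9) 
(.lf (nat_lit 505062) (.g (nat_lit 2305) (.e (nat_lit 164322) (nat_lit 230) (.e (nat_lit 163868) (nat_lit 2) (.e (nat_lit 196654) (nat_lit 11) (.e (nat_lit 16433) (nat_lit 9) (.e (nat_lit 426566) (nat_lit 34) (.e (nat_lit 393254) (nat_lit 18) .nil)))))) (.g (nat_lit 1) (.e (nat_lit 180703) (nat_lit 0) .nil) .nil))) 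
(.lf (nat_lit 505574) (.g (nat_lit 2196) (.e (nat_lit 164326) (nat_lit 230) (.e (nat_lit 163868) (nat_lit 2) (.e (nat_lit 196656) (nat_lit 11) (.e (nat_lit 16416) (nat_lit 3) .nil)))) (.g (nat_lit 0) (.e (nat_lit 182093) (nat_lit 0) .nil) .nil)))) (.nd (nat_lit 9) 
(.lf (nat_lit 505318) (.g (nat_lit 2241) (.e (nat_lit 164325) (nat_lit 230) (.e (nat_lit 163869) (nat_lit 2) (.e (nat_lit 196656) (nat_lit 11) (.e (nat_lit 16431) (nat_lit 9) (.e (nat_lit 426568) (nat_lit 34) .nil))))) (.g (nat_lit 0) (.e (nat_lit 181340) (nat_lit 0) .nil) .nil))) 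
(.lf (nat_lit 505830) (.g (nat_lit 496) (.e (nat_lit 164327) (nat_lit 230) (.e (nat_lit 163871) (nat_lit 2) (.e (nat_lit 196619) (nat_lit 9) .nil))) (.g (nat_lit 0) (.e (nat_lit 182586) (nat_lit 0) .nil) .nil)))))))) (.nd (nat_lit 5) (.nd (nat_lit 6) (.nd (nat_lit 7) (.nd (nat_lit 8) (.nd (nat_lit 9) 
(.lf (nat_lit 504854) (.g (nat_lit 563) (.e (nat_lit 164212) (nat_lit 176) (.e (nat_lit 2797) (nat_lit 180) (.e (nat_lit 303119) (nat_lit 3) .nil))) (.g (nat_lit 0) (.e (nat_lit 179349) (nat_lit 0) .nil) .nil))) 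
(.lf (nat_lit 505366) (.g (nat_lit 3693) (.e (nat_lit 164325) (nat_lit 230) (.e (nat_lit 163873) (nat_lit 3) (.e (nat_lit 204813) (nat_lit 9) (.e (nat_lit 426138) (nat_lit 3) .nil)))) (.g (nat_lit 0) (.e (nat_lit 181421) (nat_lit 0) .nil) .nil)))) (.nd (nat_lit 9) 
(.lf (nat_lit 505110) (.g (nat_lit 1986) (.e (nat_lit 164322) (nat_lit 230) (.e (nat_lit 163902) (nat_lit 12) (.e (nat_lit 426428) (nat_lit 17) (.e (nat_lit 90172) (nat_lit 14) (.e (nat_lit 180291) (nat_lit 48) .nil))))) (.g (nat_lit 0) (.e (nat_lit 180777) (nat_lit 0) .nil) .nil))) 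
(.lf (nat_lit 505622) (.g (nat_lit 1527) (.e (nat_lit 164326) (nat_lit 230) (.e (nat_lit 163871) (nat_lit 2) (.e (nat_lit 196643) (nat_lit 9) (.e (nat_lit 426) (nat_lit 32) .nil)))) (.g (nat_lit 0) (.e (nat_lit 182163) (nat_lit 0) .nil) .nil))))) (.nd (nat_lit 8) (.nd (nat_lit 9) 
(.lf (nat_lit 504982) (.g (nat_lit 995) (.e (nat_lit 164270) (nat_lit 221) (.e (nat_lit 2576) (nat_lit 161) (.e (nat_lit 40996) (nat_lit 11) (.e (nat_lit 24657) (nat_lit 13) (.e (nat_lit 401152) (nat_lit 17) .nil))))) (.g (nat_lit 0) (.e (nat_lit 180027) (nat_lit 0) .nil) .nil))) 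
(.lf (nat_lit 505494) (.g (nat_lit 2371) (.e (nat_lit 164325) (nat_lit 230) (.e (nat_lit 163907) (nat_lit 12) (.e (nat_lit 426568) (nat_lit 34) (.e (nat_lit 393234) (nat_lit 17) (.e (nat_lit 7309) (nat_lit 388) .nil))))) (.g (nat_lit 0) (.e (nat_lit 181682) (nat_lit 0) .nil) .nil)))) (.nd (nat_lit 9) 
(.lf (nat_lit 505238) (.g (nat_lit 2842) (.e (nat_lit 164324) (nat_lit 230) (.e (nat_lit 163905) (nat_lit 12) (.e (nat_lit 426566) (nat_lit 34) (.e (nat_lit 393296) (nat_lit 26) (.e (nat_lit 475177) (nat_lit 24) .nil))))) (.g (nat_lit 0) (.e (nat_lit 181024) (nat_lit 0) .nil) .nil))) 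
(.lf (nat_lit 505750) (.g (nat_lit 1709) (.e (nat_lit 164326) (nat_lit 230) (.e (nat_lit 163904) (nat_lit 12) (.e (nat_lit 426566) (nat_lit 34) (.e (nat_lit 393294) (nat_lit 26) (.e (nat_lit 475175) (nat_lit 24) .nil))))) (.g (nat_lit 0) (.e (nat_lit 182370) (nat_lit 0) .nil) .nil)))))) (.nd (nat_lit 7) (.nd (nat_lit 8) (.nd (nat_lit 9) 
(.lf (nat_lit 504918) (.g (nat_lit 1796) (.e (nat_lit 171776) (nat_lit 205) (.e (nat_lit 172067) (nat_lit 3) (.e (nat_lit 204846) (nat_lit 24) (.e (nat_lit 319504) (nat_lit 10) .nil)))) (.g (nat_lit 0) (.e (nat_lit 179633) (nat_lit 0) .nil) .nil))) 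
(.lf (nat_lit 505430) (.g (nat_lit 4026) (.e (nat_lit 164325) (nat_lit 230) (.e (nat_lit 163903) (nat_lit 12) (.e (nat_lit 426438) (nat_lit 18) (.e (nat_lit 98373) (nat_lit 29) (.e (nat_lit 450562) (nat_lit 0) (.e (nat_lit 6841) (nat_lit 369) (.e (nat_lit 163862) (nat_lit 1) .nil))))))) (.g (nat_lit 1) (.e (nat_lit 181544) (nat_lit 0) .nil) .nil)))) (.nd (nat_lit 9) 
(.lf (nat_lit 505174) (.g (nat_lit 1637) (.e (nat_lit 164324) (nat_lit 230) (.e (nat_lit 163867) (nat_lit 2) (.e (nat_lit 196656) (nat_lit 11) (.e (nat_lit 16444) (nat_lit 9) .nil)))) (.g (nat_lit 0) (.e (nat_lit 180946) (nat_lit 0) .nil) .nil))) 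
(.lf (nat_lit 505686) (.g (nat_lit 2023) (.e (nat_lit 164326) (nat_lit 230) (.e (nat_lit 163879) (nat_lit 4) (.e (nat_lit 213030) (nat_lit 11) (.e (nat_lit 24660) (nat_lit 13) (.e (nat_lit 393266) (nat_lit 23) (.e (nat_lit 426109) (nat_lit 1) .nil)))))) (.g (nat_lit 1) (.e (nat_lit 182270) (nat_lit 0) .nil) .nil))))) (.nd (nat_lit 8) (.nd (nat_lit 9) 
(.lf (nat_lit 505046) (.g (nat_lit 255) (.e (nat_lit 164305) (nat_lit 226) (.e (nat_lit 2725) (nat_lit 172) (.e (nat_lit 237590) (nat_lit 2) .nil))) (.g (nat_lit 0) (.e (nat_lit 180629) (nat_lit 0) .nil) .nil))) 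
(.lf (nat_lit 505558) (.g (nat_lit 1304) (.e (nat_lit 164326) (nat_lit 230) (.e (nat_lit 163868) (nat_lit 2) (.e (nat_lit 196639) (nat_lit 9) .nil))) (.g (nat_lit 0) (.e (nat_lit 182067) (nat_lit 0) .nil) .nil)))) (.nd (nat_lit 9) 
(.lf (nat_lit 505302) (.g (nat_lit 3979) (.e (nat_lit 164325) (nat_lit 230) (.e (nat_lit 163868) (nat_lit 2) (.e (nat_lit 196656) (nat_lit 11) (.e (nat_lit 16466) (nat_lit 13) (.e (nat_lit 483337) (nat_lit 9) (.e (nat_lit 426107) (nat_lit 1) .nil)))))) (.g (nat_lit 1) (.e (nat_lit 181321) (nat_lit 0) .nil) .nil))) 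
(.lf (nat_lit 505814) (.g (nat_lit 2564) (.e (nat_lit 164327) (nat_lit 230) (.e (nat_lit 163868) (nat_lit 2) (.e (nat_lit 196656) (nat_lit 11) (.e (nat_lit 16463) (nat_lit 13) (.e (nat_lit 483341) (nat_lit 9) (.e (nat_lit 433920) (nat_lit 1) .nil)))))) (.g (nat_lit 1) (.e (nat_lit 182567) (nat_lit 0) .nil) .nil))))))) (.nd (nat_lit 6) (.nd (nat_lit 7) (.nd (nat_lit 8) (.nd (nat_lit 9) 
(.lf (nat_lit 504886) (.g (nat_lit 2902) (.e (nat_lit 171776) (nat_lit 176) (.e (nat_lit 2797) (nat_lit 180) (.e (nat_lit 303119) (nat_lit 3) (.e (nat_lit 204868) (nat_lit 29) (.e (nat_lit 368384) (nat_lit 1) .nil))))) (.g (nat_lit 0) (.e (nat_lit 179400) (nat_lit 0) .nil) .nil))) 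
(.lf (nat_lit 505398) (.g (nat_lit 1263) (.e (nat_lit 164325) (nat_lit 230) (.e (nat_lit 163875) (nat_lit 3) (.e (nat_lit 204811) (nat_lit 9) (.e (nat_lit 426262) (nat_lit 9) (.e (nat_lit 433920) (nat_lit 34) (.e (nat_lit 393254) (nat_lit 18) .nil)))))) (.g (nat_lit 1) (.e (nat_lit 181484) (nat_lit 0) .nil) .nil)))) (.nd (nat_lit 9) 
(.lf (nat_lit 505142) (.g (nat_lit 1671) (.e (nat_lit 164323) (nat_lit 230) (.e (nat_lit 163867) (nat_lit 2) (.e (nat_lit 196656) (nat_lit 11) (.e (nat_lit 16432) (nat_lit 9) .nil)))) (.g (nat_lit 0) (.e (nat_lit 180898) (nat_lit 0) .nil) .nil))) 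
(.lf (nat_lit 505654) (.g (nat_lit 3360) (.e (nat_lit 164326) (nat_lit 230) (.e (nat_lit 163873) (nat_lit 3) (.e (nat_lit 204813) (nat_lit 9) (.e (nat_lit 426189) (nat_lit 9) .nil)))) (.g (nat_lit 0) (.e (nat_lit 182226) (nat_lit 0) .nil) .nil))))) (.nd (nat_lit 8) (.nd (nat_lit 9) 
(.lf (nat_lit 505014) (.g (nat_lit 761) (.e (nat_lit 164293) (nat_lit 224) (.e (nat_lit 164353) (nat_lit 246) (.e (nat_lit 351) (nat_lit 28) (.e (nat_lit 393270) (nat_lit 23) .nil)))) (.g (nat_lit 0) (.e (nat_lit 180276) (nat_lit 0) .nil) .nil))) 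
(.lf (nat_lit 505526) (.g (nat_lit 2445) (.e (nat_lit 164325) (nat_lit 230) (.e (nat_lit 163943) (nat_lit 19) (.e (nat_lit 483336) (nat_lit 9) (.e (nat_lit 426188) (nat_lit 9) (.e (nat_lit 426436) (nat_lit 18) .nil))))) (.g (nat_lit 0) (.e (nat_lit 181969) (nat_lit 0) .nil) .nil)))) (.nd (nat_lit 9) 
(.lf (nat_lit 505270) (.g (nat_lit 1076) (.e (nat_lit 164325) (nat_lit 230) (.e (nat_lit 163868) (nat_lit 2) (.e (nat_lit 196618) (nat_lit 9) .nil))) (.g (nat_lit 0) (.e (nat_lit 181268) (nat_lit 0) .nil) .nil))) 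
(.lf (nat_lit 505782) (.g (nat_lit 314) (.e (nat_lit 164327) (nat_lit 230) (.e (nat_lit 163868) (nat_lit 2) (.e (nat_lit 196654) (nat_lit 11) .nil))) (.g (nat_lit 0) (.e (nat_lit 182512) (nat_lit 0) .nil) .nil)))))) (.nd (nat_lit 7) (.nd (nat_lit 8) (.nd (nat_lit 9) 
(.lf (nat_lit 504950) (.g (nat_lit 2559) (.e (nat_lit 171776) (nat_lit 192) (.e (nat_lit 73746) (nat_lit 3) (.e (nat_lit 516097) (nat_lit 0) (.e (nat_lit 7593) (nat_lit 407) (.e (nat_lit 73739) (nat_lit 1) .nil))))) (.g (nat_lit 0) (.e (nat_lit 179693) (nat_lit 0) .nil) .nil))) 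
(.lf (nat_lit 505462) (.g (nat_lit 2724) (.e (nat_lit 164325) (nat_lit 230) (.e (nat_lit 163904) (nat_lit 12) (.e (nat_lit 426566) (nat_lit 34) (.e (nat_lit 393295) (nat_lit 26) (.e (nat_lit 475178) (nat_lit 24) (.e (nat_lit 516115) (nat_lit 1) .nil)))))) (.g (nat_lit 1) (.e (nat_lit 181586) (nat_lit 0) .nil) .nil)))) (.nd (nat_lit 9) 
(.lf (nat_lit 505206) (.g (nat_lit 4067) (.e (nat_lit 164324) (nat_lit 230) (.e (nat_lit 163873) (nat_lit 3) (.e (nat_lit 204813) (nat_lit 9) (.e (nat_lit 426204) (nat_lit 9) .nil)))) (.g (nat_lit 0) (.e (nat_lit 180982) (nat_lit 0) .nil) .nil))) 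
(.lf (nat_lit 505718) (.g (nat_lit 3947) (.e (nat_lit 164326) (nat_lit 230) (.e (nat_lit 163903) (nat_lit 12) (.e (nat_lit 426438) (nat_lit 18) (.e (nat_lit 98373) (nat_lit 29) (.e (nat_lit 450563) (nat_lit 0) (.e (nat_lit 6839) (nat_lit 369) (.e (nat_lit 163863) (nat_lit 1) .nil))))))) (.g (nat_lit 1) (.e (nat_lit 182329) (nat_lit 0) .nil) .nil))))) (.nd (nat_lit 8) (.nd (nat_lit 9) 
(.lf (nat_lit 505078) (.g (nat_lit 2568) (.e (nat_lit 164322) (nat_lit 230) (.e (nat_lit 163871) (nat_lit 2) (.e (nat_lit 196656) (nat_lit 11) (.e (nat_lit 16438) (nat_lit 9) (.e (nat_lit 426482) (nat_lit 27) .nil))))) (.g (nat_lit 0) (.e (nat_lit 180722) (nat_lit 0) .nil) .nil))) 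
(.lf (nat_lit 505590) (.g (nat_lit 650) (.e (nat_lit 164326) (nat_lit 230) (.e (nat_lit 163870) (nat_lit 2) (.e (nat_lit 196619) (nat_lit 9) .nil))) (.g (nat_lit 0) (.e (nat_lit 182117) (nat_lit 0) .nil) .nil)))) (.nd (nat_lit 9) 
(.lf (nat_lit 505334) (.g (nat_lit 1826) (.e (nat_lit 164325) (nat_lit 230) (.e (nat_lit 163871) (nat_lit 2) (.e (nat_lit 196654) (nat_lit 11) (.e (nat_lit 16466) (nat_lit 13) (.e (nat_lit 483340) (nat_lit 9) .nil))))) (.g (nat_lit 0) (.e (nat_lit 181365) (nat_lit 0) .nil) .nil))) 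
(.lf (nat_lit 505846) (.g (nat_lit 4373) (.e (nat_lit 164327) (nat_lit 230) (.e (nat_lit 163871) (nat_lit 2) (.e (nat_lit 196654) (nat_lit 11) (.e (nat_lit 16416) (nat_lit 3) (.e (nat_lit 204838) (nat_lit 20) (.e (nat_lit 114719) (nat_lit 23) (.e (nat_lit 98332) (nat_lit 18) .nil))))))) (.g (nat_lit 1) (.e (nat_lit 182611) (nat_lit 0) .nil) .nil))))))))) 
(.nd (nat_lit 4) (.nd (nat_lit 5) (.nd (nat_lit 6) (.nd (nat_lit 7) (.nd (nat_lit 8) 
(.nd (nat_lit 9) 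
(.lf (nat_lit 504846) (.g (nat_lit 2583) (.e (nat_lit 164211) (nat_lit 176) (.e (nat_lit 2797) (nat_lit 180) (.e (nat_lit 303119) (nat_lit 3) (.e (nat_lit 204878) (nat_lit 31) (.e (nat_lit 376862) (nat_lit 22) .nil))))) (.g (nat_lit 0) (.e (nat_lit 179337) (nat_lit 0) .nil) .nil))) 
(.lf (nat_lit 505358) (.g (nat_lit 4146) (.e (nat_lit 164325) (nat_lit 230) (.e (nat_lit 163873) (nat_lit 3) (.e (nat_lit 204813) (nat_lit 9) (.e (nat_lit 426011) (nat_lit 0) .nil)))) (.g (nat_lit 0) (.e (nat_lit 181402) (nat_lit 0) .nil) .nil)))) (.nd (nat_lit 9) 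
(.lf (nat_lit 505102) (.g (nat_lit 2735) (.e (nat_lit 164322) (nat_lit 230) (.e (nat_lit 163875) (nat_lit 3) (.e (nat_lit 204813) (nat_lit 9) (.e (nat_lit 426188) (nat_lit 9) (.e (nat_lit 426566) (nat_lit 34) (.e (nat_lit 393254) (nat_lit 18) .nil)))))) (.g (nat_lit 1) (.e (nat_lit 180765) (nat_lit 0) .nil) .nil))) 
(.lf (nat_lit 505614) (.g (nat_lit 1394) (.e (nat_lit 164326) (nat_lit 230) (.e (nat_lit 163871) (nat_lit 2) (.e (nat_lit 196627) (nat_lit 9) .nil))) (.g (nat_lit 0) (.e (nat_lit 182151) (nat_lit 0) .nil) .nil))))) (.nd (nat_lit 8) (.nd (nat_lit 9) 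
(.lf (nat_lit 504974) (.g (nat_lit 2879) (.e (nat_lit 171776) (nat_lit 278) (.e (nat_lit 1131) (nat_lit 83) (.e (nat_lit 16416) (nat_lit 3) (.e (nat_lit 204868) (nat_lit 29) (.e (nat_lit 360466) (nat_lit 3) .nil))))) (.g (nat_lit 0) (.e (nat_lit 179958) (nat_lit 0) .nil) .nil))) 
(.lf (nat_lit 505486) (.g (nat_lit 1531) (.e (nat_lit 164325) (nat_lit 230) (.e (nat_lit 163907) (nat_lit 12) (.e (nat_lit 426530) (nat_lit 27) (.e (nat_lit 336390) (nat_lit 27) .nil)))) (.g (nat_lit 0) (.e (nat_lit 181664) (nat_lit 0) .nil) .nil)))) (.nd (nat_lit 9) 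
(.lf (nat_lit 505230) (.g (nat_lit 1950) (.e (nat_lit 164324) (nat_lit 230) (.e (nat_lit 163903) (nat_lit 12) (.e (nat_lit 426566) (nat_lit 34) (.e (nat_lit 393296) (nat_lit 26) (.e (nat_lit 475176) (nat_lit 24) .nil))))) (.g (nat_lit 0) (.e (nat_lit 181016) (nat_lit 0) .nil) .nil))) 
(.lf (nat_lit 505742) (.g (nat_lit 4125) (.e (nat_lit 164326) (nat_lit 230) (.e (nat_lit 163903) (nat_lit 12) (.e (nat_lit 426568) (nat_lit 34) (.e (nat_lit 393271) (nat_lit 23) (.e (nat_lit 426428) (nat_lit 17) (.e (nat_lit 90130) (nat_lit 9) (.e (nat_lit 2612) (nat_lit 163) .nil))))))) (.g (nat_lit 1) (.e (nat_lit 182360) (nat_lit 0) .nil) .nil)))))) 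
(.nd (nat_lit 7) (.nd (nat_lit 8) (.nd (nat_lit 9) 
(.lf (nat_lit 504910) (.g (nat_lit 549) (.e (nat_lit 164248) (nat_lit 201) (.e (nat_lit 3067) (nat_lit 190) (.e (nat_lit 475176) (nat_lit 24) .nil))) (.g (nat_lit 0) (.e (nat_lit 179560) (nat_lit 0) .nil) .nil))) 
(.lf (nat_lit 505422) (.g (nat_lit 3484) (.e (nat_lit 164325) (nat_lit 230) (.e (nat_lit 163902) (nat_lit 12) (.e (nat_lit 426566) (nat_lit 34) (.e (nat_lit 393294) (nat_lit 26) (.e (nat_lit 475176) (nat_lit 24) .nil))))) (.g (nat_lit 0) (.e (nat_lit 181517) (nat_lit 0) .nil) .nil)))) (.nd (nat_lit 9) 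
(.lf (nat_lit 505166) (.g (nat_lit 2271) (.e (nat_lit 164323) (nat_lit 230) (.e (nat_lit 163875) (nat_lit 3) (.e (nat_lit 204813) (nat_lit 9) (.e (nat_lit 426188) (nat_lit 9) (.e (nat_lit 426566) (nat_lit 34) .nil))))) (.g (nat_lit 0) (.e (nat_lit 180928) (nat_lit 0) .nil) .nil))) 
(.lf (nat_lit 505678) (.g (nat_lit 1288) (.e (nat_lit 164326) (nat_lit 230) (.e (nat_lit 163875) (nat_lit 3) (.e (nat_lit 204811) (nat_lit 9) (.e (nat_lit 426262) (nat_lit 9) (.e (nat_lit 433920) (nat_lit 34) .nil))))) (.g (nat_lit 0) (.e (nat_lit 182261) (nat_lit 0) .nil) .nil))))) (.nd (nat_lit 8) (.nd (nat_lit 9) 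
(.lf (nat_lit 505038) (.g (nat_lit 1593) (.e (nat_lit 164305) (nat_lit 226) (.e (nat_lit 2612) (nat_lit 163) (.e (nat_lit 163979) (nat_lit 30) (.e (nat_lit 573488) (nat_lit 14) .nil)))) (.g (nat_lit 0) (.e (nat_lit 180429) (nat_lit 0) .nil) .nil))) 
(.lf (nat_lit 505550) (.g (nat_lit 1615) (.e (nat_lit 164326) (nat_lit 230) (.e (nat_lit 163868) (nat_lit 2) (.e (nat_lit 196624) (nat_lit 9) (.e (nat_lit 433) (nat_lit 32) (.e (nat_lit 426232) (nat_lit 9) .nil))))) (.g (nat_lit 0) (.e (nat_lit 182053) (nat_lit 0) .nil) .nil)))) (.nd (nat_lit 9) 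
(.lf (nat_lit 505294) (.g (nat_lit 1321) (.e (nat_lit 164325) (nat_lit 230) (.e (nat_lit 163868) (nat_lit 2) (.e (nat_lit 196656) (nat_lit 11) (.e (nat_lit 16439) (nat_lit 9) .nil)))) (.g (nat_lit 0) (.e (nat_lit 181306) (nat_lit 0) .nil) .nil))) 
(.lf (nat_lit 505806) (.g (nat_lit 3400) (.e (nat_lit 164327) (nat_lit 230) (.e (nat_lit 163868) (nat_lit 2) (.e (nat_lit 196656) (nat_lit 11) (.e (nat_lit 16433) (nat_lit 9) (.e (nat_lit 426566) (nat_lit 34) (.e (nat_lit 393254) (nat_lit 18) .nil)))))) (.g (nat_lit 1) (.e (nat_lit 182554) (nat_lit 0) .nil) .nil))))))) (.nd (nat_lit 6) (.nd (nat_lit 7) (.nd (nat_lit 8) (.nd (nat_lit 9) 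
(.lf (nat_lit 504878) (.g (nat_lit 2918) (.e (nat_lit 164214) (nat_lit 176) (.e (nat_lit 2817) (nat_lit 181) (.e (nat_lit 311312) (nat_lit 2) (.e (nat_lit 196672) (nat_lit 15) (.e (nat_lit 81951) (nat_lit 22) (.e (nat_lit 90165) (nat_lit 12) .nil)))))) (.g (nat_lit 1) (.e (nat_lit 179391) (nat_lit 0) .nil) .nil))) 
(.lf (nat_lit 505390) (.g (nat_lit 2738) (.e (nat_lit 164325) (nat_lit 230) (.e (nat_lit 163874) (nat_lit 3) (.e (nat_lit 204809) (nat_lit 9) (.e (nat_lit 426198) (nat_lit 9) (.e (nat_lit 426566) (nat_lit 34) .nil))))) (.g (nat_lit 0) (.e (nat_lit 181473) (nat_lit 0) .nil) .nil)))) (.nd (nat_lit 9) 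
(.lf (nat_lit 505134) (.g (nat_lit 3620) (.e (nat_lit 164322) (nat_lit 230) (.e (nat_lit 163941) (nat_lit 19) (.e (nat_lit 483341) (nat_lit 9) (.e (nat_lit 426197) (nat_lit 9) .nil)))) (.g (nat_lit 0) (.e (nat_lit 180872) (nat_lit 0) .nil) .nil))) 
(.lf (nat_lit 505646) (.g (nat_lit 2767) (.e (nat_lit 164326) (nat_lit 230) (.e (nat_lit 163873) (nat_lit 3) (.e (nat_lit 204809) (nat_lit 9) (.e (nat_lit 426200) (nat_lit 9) (.e (nat_lit 426566) (nat_lit 34) (.e (nat_lit 393254) (nat_lit 18) .nil)))))) (.g (nat_lit 1) (.e (nat_lit 182203) (nat_lit 0) .nil) .nil))))) (.nd (nat_lit 8) (.nd (nat_lit 9) 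
(.lf (nat_lit 505006) (.g (nat_lit 1131) (.e (nat_lit 164293) (nat_lit 224) (.e (nat_lit 164092) (nat_lit 82) (.e (nat_lit 500046) (nat_lit 16) (.e (nat_lit 16463) (nat_lit 13) (.e (nat_lit 491264) (nat_lit 0) (.e (nat_lit 7106) (nat_lit 380) .nil)))))) (.g (nat_lit 1) (.e (nat_lit 180263) (nat_lit 0) .nil) .nil))) 
(.lf (nat_lit 505518) (.g (nat_lit 3676) (.e (nat_lit 164325) (nat_lit 230) (.e (nat_lit 163941) (nat_lit 19) (.e (nat_lit 483341) (nat_lit 9) (.e (nat_lit 426222) (nat_lit 9) .nil)))) (.g (nat_lit 0) (.e (nat_lit 181945) (nat_lit 0) .nil) .nil)))) (.nd (nat_lit 9) 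
(.lf (nat_lit 505262) (.g (nat_lit 873) (.e (nat_lit 164325) (nat_lit 230) (.e (nat_lit 163867) (nat_lit 2) (.e (nat_lit 196653) (nat_lit 11) .nil))) (.g (nat_lit 0) (.e (nat_lit 181255) (nat_lit 0) .nil) .nil))) 
(.lf (nat_lit 505774) (.g (nat_lit 1902) (.e (nat_lit 164327) (nat_lit 230) (.e (nat_lit 163866) (nat_lit 2) (.e (nat_lit 196654) (nat_lit 11) (.e (nat_lit 16466) (nat_lit 13) (.e (nat_lit 483340) (nat_lit 9) .nil))))) (.g (nat_lit 0) (.e (nat_lit 182493) (nat_lit 0) .nil) .nil)))))) (.nd (nat_lit 7) (.nd (nat_lit 8) (.nd (nat_lit 9) 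
(.lf (nat_lit 504942) (.g (nat_lit 2301) (.e (nat_lit 171776) (nat_lit 187) (.e (nat_lit 1641) (nat_lit 114) (.e (nat_lit 385074) (nat_lit 31) (.e (nat_lit 573493) (nat_lit 15) (.e (nat_lit 81953) (nat_lit 22) .nil))))) (.g (nat_lit 0) (.e (nat_lit 179676) (nat_lit 0) .nil) .nil))) 
(.lf (nat_lit 505454) (.g (nat_lit 3997) (.e (nat_lit 164325) (nat_lit 230) (.e (nat_lit 163904) (nat_lit 12) (.e (nat_lit 426566) (nat_lit 34) (.e (nat_lit 393273) (nat_lit 23) (.e (nat_lit 426364) (nat_lit 15) .nil))))) (.g (nat_lit 0) (.e (nat_lit 181578) (nat_lit 0) .nil) .nil)))) (.nd (nat_lit 9) 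
(.lf (nat_lit 505198) (.g (nat_lit 1777) (.e (nat_lit 164324) (nat_lit 230) (.e (nat_lit 163872) (nat_lit 3) (.e (nat_lit 204813) (nat_lit 9) (.e (nat_lit 426188) (nat_lit 9) (.e (nat_lit 426568) (nat_lit 34) .nil))))) (.g (nat_lit 0) (.e (nat_lit 180974) (nat_lit 0) .nil) .nil))) 
(.lf (nat_lit 505710) (.g (nat_lit 676) (.e (nat_lit 164326) (nat_lit 230) (.e (nat_lit 163903) (nat_lit 12) (.e (nat_lit 426229) (nat_lit 9) .nil))) (.g (nat_lit 0) (.e (nat_lit 182309) (nat_lit 0) .nil) .nil))))) (.nd (nat_lit 8) (.nd (nat_lit 9) 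
(.lf (nat_lit 505070) (.g (nat_lit 2848) (.e (nat_lit 164322) (nat_lit 230) (.e (nat_lit 163869) (nat_lit 2) (.e (nat_lit 196654) (nat_lit 11) (.e (nat_lit 16466) (nat_lit 13) (.e (nat_lit 483341) (nat_lit 9) .nil))))) (.g (nat_lit 0) (.e (nat_lit 180712) (nat_lit 0) .nil) .nil))) 
(.lf (nat_lit 505582) (.g (nat_lit 1479) (.e (nat_lit 164326) (nat_lit 230) (.e (nat_lit 163868) (nat_lit 2) (.e (nat_lit 196656) (nat_lit 11) (.e (nat_lit 16444) (nat_lit 9) (.e (nat_lit 433920) (nat_lit 34) .nil))))) (.g (nat_lit 0) (.e (nat_lit 182101) (nat_lit 0) .nil) .nil)))) (.nd (nat_lit 9) 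
(.lf (nat_lit 505326) (.g (nat_lit 918) (.e (nat_lit 164325) (nat_lit 230) (.e (nat_lit 163871) (nat_lit 2) (.e (nat_lit 196619) (nat_lit 9) (.e (nat_lit 457) (nat_lit 34) .nil)))) (.g (nat_lit 0) (.e (nat_lit 181351) (nat_lit 0) .nil) .nil))) 
(.lf (nat_lit 505838) (.g (nat_lit 2565) (.e (nat_lit 164327) (nat_lit 230) (.e (nat_lit 163871) (nat_lit 2) (.e (nat_lit 196654) (nat_lit 11) (.e (nat_lit 16416) (nat_lit 3) (.e (nat_lit 204833) (nat_lit 19) (.e (nat_lit 106523) (nat_lit 9) (.e (nat_lit 1254) (nat_lit 92) (.e (nat_lit 98333) (nat_lit 18) .nil)))))))) (.g (nat_lit 1) (.e (nat_lit 182600) (nat_lit 0) .nil) .nil)))))))) 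
(.nd (nat_lit 5) (.nd (nat_lit 6) (.nd (nat_lit 7) (.nd (nat_lit 8) (.nd (nat_lit 9) 
(.lf (nat_lit 504862) (.g (nat_lit 1769) (.e (nat_lit 164213) (nat_lit 176) (.e (nat_lit 2797) (nat_lit 180) (.e (nat_lit 303117) (nat_lit 2) (.e (nat_lit 196674) (nat_lit 15) .nil)))) (.g (nat_lit 0) (.e (nat_lit 179361) (nat_lit 0) .nil) .nil))) 
(.lf (nat_lit 505374) (.g (nat_lit 2984) (.e (nat_lit 164325) (nat_lit 230) (.e (nat_lit 163873) (nat_lit 3) (.e (nat_lit 204813) (nat_lit 9) (.e (nat_lit 426196) (nat_lit 9) .nil)))) (.g (nat_lit 0) (.e (nat_lit 181432) (nat_lit 0) .nil) .nil)))) (.nd (nat_lit 9) 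
(.lf (nat_lit 505118) (.g (nat_lit 2241) (.e (nat_lit 164322) (nat_lit 230) (.e (nat_lit 163902) (nat_lit 12) (.e (nat_lit 426566) (nat_lit 34) (.e (nat_lit 393294) (nat_lit 26) (.e (nat_lit 475177) (nat_lit 24) .nil))))) (.g (nat_lit 0) (.e (nat_lit 180785) (nat_lit 0) .nil) .nil))) 
(.lf (nat_lit 505630) (.g (nat_lit 3690) (.e (nat_lit 164326) (nat_lit 230) (.e (nat_lit 163871) (nat_lit 2) (.e (nat_lit 196655) (nat_lit 11) (.e (nat_lit 16465) (nat_lit 13) (.e (nat_lit 483337) (nat_lit 9) (.e (nat_lit 426107) (nat_lit 1) .nil)))))) (.g (nat_lit 1) (.e (nat_lit 182173) (nat_lit 0) .nil) .nil))))) (.nd (nat_lit 8) (.nd (nat_lit 9) 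
(.lf (nat_lit 504990) (.g (nat_lit 853) (.e (nat_lit 164287) (nat_lit 224) (.e (nat_lit 164358) (nat_lit 246) (.e (nat_lit 351) (nat_lit 28) (.e (nat_lit 393279) (nat_lit 23) (.e (nat_lit 426429) (nat_lit 17) .nil))))) (.g (nat_lit 0) (.e (nat_lit 180104) (nat_lit 0) .nil) .nil))) 
(.lf (nat_lit 505502) (.g (nat_lit 3740) (.e (nat_lit 164325) (nat_lit 230) (.e (nat_lit 163936) (nat_lit 18) (.e (nat_lit 475179) (nat_lit 24) (.e (nat_lit 516176) (nat_lit 14) (.e (nat_lit 466972) (nat_lit 21) (.e (nat_lit 164183) (nat_lit 154) (.e (nat_lit 65280) (nat_lit 62) .nil))))))) (.g (nat_lit 1) (.e (nat_lit 181912) (nat_lit 0) .nil) .nil)))) (.nd (nat_lit 9) 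
(.lf (nat_lit 505246) (.g (nat_lit 3650) (.e (nat_lit 164324) (nat_lit 230) (.e (nat_lit 163941) (nat_lit 19) (.e (nat_lit 483341) (nat_lit 9) (.e (nat_lit 426222) (nat_lit 9) .nil)))) (.g (nat_lit 0) (.e (nat_lit 181076) (nat_lit 0) .nil) .nil))) 
(.lf (nat_lit 505758) (.g (nat_lit 2115) (.e (nat_lit 164326) (nat_lit 230) (.e (nat_lit 163941) (nat_lit 19) (.e (nat_lit 483341) (nat_lit 9) (.e (nat_lit 426199) (nat_lit 9) .nil)))) (.g (nat_lit 0) (.e (nat_lit 182450) (nat_lit 0) .nil) .nil)))))) (.nd (nat_lit 7) (.nd (nat_lit 8) (.nd (nat_lit 9) 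
(.lf (nat_lit 504926) (.g (nat_lit 3053) (.e (nat_lit 164238) (nat_lit 187) (.e (nat_lit 1638) (nat_lit 114) (.e (nat_lit 385074) (nat_lit 31) (.e (nat_lit 573482) (nat_lit 13) (.e (nat_lit 65597) (nat_lit 9) .nil))))) (.g (nat_lit 0) (.e (nat_lit 179647) (nat_lit 0) .nil) .nil))) 
(.lf (nat_lit 505438) (.g (nat_lit 998) (.e (nat_lit 164325) (nat_lit 230) (.e (nat_lit 163903) (nat_lit 12) (.e (nat_lit 426486) (nat_lit 27) .nil))) (.g (nat_lit 0) (.e (nat_lit 181553) (nat_lit 0) .nil) .nil)))) (.nd (nat_lit 9) 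
(.lf (nat_lit 505182) (.g (nat_lit 1872) (.e (nat_lit 164324) (nat_lit 230) (.e (nat_lit 163868) (nat_lit 2) (.e (nat_lit 196656) (nat_lit 11) (.e (nat_lit 16446) (nat_lit 9) (.e (nat_lit 433920) (nat_lit 34) .nil))))) (.g (nat_lit 0) (.e (nat_lit 180955) (nat_lit 0) .nil) .nil))) 
(.lf (nat_lit 505694) (.g (nat_lit 2794) (.e (nat_lit 164326) (nat_lit 230) (.e (nat_lit 163882) (nat_lit 4) (.e (nat_lit 213031) (nat_lit 11) (.e (nat_lit 24657) (nat_lit 13) (.e (nat_lit 393271) (nat_lit 23) (.e (nat_lit 426112) (nat_lit 1) .nil)))))) (.g (nat_lit 1) (.e (nat_lit 182278) (nat_lit 0) .nil) .nil))))) (.nd (nat_lit 8) (.nd (nat_lit 9) 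
(.lf (nat_lit 505054) (.g (nat_lit 699) (.e (nat_lit 164322) (nat_lit 230) (.e (nat_lit 163867) (nat_lit 2) (.e (nat_lit 196653) (nat_lit 11) .nil))) (.g (nat_lit 0) (.e (nat_lit 180688) (nat_lit 0) .nil) .nil))) 
(.lf (nat_lit 505566) (.g (nat_lit 2321) (.e (nat_lit 164326) (nat_lit 230) (.e (nat_lit 163868) (nat_lit 2) (.e (nat_lit 196652) (nat_lit 11) (.e (nat_lit 16466) (nat_lit 13) (.e (nat_lit 483341) (nat_lit 9) (.e (nat_lit 426107) (nat_lit 1) .nil)))))) (.g (nat_lit 1) (.e (nat_lit 182076) (nat_lit 0) .nil) .nil)))) (.nd (nat_lit 9) 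
(.lf (nat_lit 505310) (.g (nat_lit 1282) (.e (nat_lit 164325) (nat_lit 230) (.e (nat_lit 163869) (nat_lit 2) (.e (nat_lit 196653) (nat_lit 11) (.e (nat_lit 16464) (nat_lit 13) .nil)))) (.g (nat_lit 0) (.e (nat_lit 181330) (nat_lit 0) .nil) .nil))) 
(.lf (nat_lit 505822) (.g (nat_lit 2254) (.e (nat_lit 164327) (nat_lit 230) (.e (nat_lit 163869) (nat_lit 2) (.e (nat_lit 196655) (nat_lit 11) (.e (nat_lit 16465) (nat_lit 13) (.e (nat_lit 483341) (nat_lit 9) .nil))))) (.g (nat_lit 0) (.e (nat_lit 182578) (nat_lit 0) .nil) .nil))))))) (.nd (nat_lit 6) (.nd (nat_lit 7) (.nd (nat_lit 8) (.nd (nat_lit 9) 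
(.lf (nat_lit 504894) (.g (nat_lit 3390) (.e (nat_lit 171776) (nat_lit 176) (.e (nat_lit 2798) (nat_lit 180) (.e (nat_lit 303117) (nat_lit 2) (.e (nat_lit 196666) (nat_lit 13) (.e (nat_lit 65604) (nat_lit 9) .nil))))) (.g (nat_lit 0) (.e (nat_lit 179413) (nat_lit 0) .nil) .nil))) 
(.lf (nat_lit 505406) (.g (nat_lit 1495) (.e (nat_lit 164325) (nat_lit 230) (.e (nat_lit 163875) (nat_lit 3) (.e (nat_lit 204830) (nat_lit 18) (.e (nat_lit 65280) (nat_lit 150) .nil)))) (.g (nat_lit 0) (.e (nat_lit 181494) (nat_lit 0) .nil) .nil)))) (.nd (nat_lit 9) 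
(.lf (nat_lit 505150) (.g (nat_lit 2107) (.e (nat_lit 164323) (nat_lit 230) (.e (nat_lit 163869) (nat_lit 2) (.e (nat_lit 196654) (nat_lit 11) (.e (nat_lit 16466) (nat_lit 13) .nil)))) (.g (nat_lit 0) (.e (nat_lit 180907) (nat_lit 0) .nil) .nil))) 
(.lf (nat_lit 505662) (.g (nat_lit 362) (.e (nat_lit 164326) (nat_lit 230) (.e (nat_lit 163873) (nat_lit 3) (.e (nat_lit 212736) (nat_lit 9) .nil))) (.g (nat_lit 0) (.e (nat_lit 182241) (nat_lit 0) .nil) .nil))))) (.nd (nat_lit 8) (.nd (nat_lit 9) 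
(.lf (nat_lit 505022) (.g (nat_lit 999) (.e (nat_lit 164281) (nat_lit 222) (.e (nat_lit 57884) (nat_lit 270) (.e (nat_lit 1250) (nat_lit 92) (.e (nat_lit 98354) (nat_lit 26) .nil)))) (.g (nat_lit 0) (.e (nat_lit 180327) (nat_lit 0) .nil) .nil))) 
(.lf (nat_lit 505534) (.g (nat_lit 1756) (.e (nat_lit 164325) (nat_lit 230) (.e (nat_lit 163944) (nat_lit 19) (.e (nat_lit 483341) (nat_lit 9) (.e (nat_lit 426198) (nat_lit 9) (.e (nat_lit 433920) (nat_lit 18) .nil))))) (.g (nat_lit 0) (.e (nat_lit 182004) (nat_lit 0) .nil) .nil)))) (.nd (nat_lit 9) 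
(.lf (nat_lit 505278) (.g (nat_lit 3425) (.e (nat_lit 164325) (nat_lit 230) (.e (nat_lit 163868) (nat_lit 2) (.e (nat_lit 196654) (nat_lit 11) (.e (nat_lit 16433) (nat_lit 9) (.e (nat_lit 426568) (nat_lit 34) (.e (nat_lit 393253) (nat_lit 18) .nil)))))) (.g (nat_lit 1) (.e (nat_lit 181286) (nat_lit 0) .nil) .nil))) 
(.lf (nat_lit 505790) (.g (nat_lit 3621) (.e (nat_lit 164327) (nat_lit 230) (.e (nat_lit 163868) (nat_lit 2) (.e (nat_lit 196654) (nat_lit 11) (.e (nat_lit 16433) (nat_lit 9) (.e (nat_lit 426568) (nat_lit 34) (.e (nat_lit 393251) (nat_lit 18) .nil)))))) (.g (nat_lit 1) (.e (nat_lit 182523) (nat_lit 0) .nil) .nil)))))) (.nd (nat_lit 7) (.nd (nat_lit 8) (.nd (nat_lit 9) 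
(.lf (nat_lit 504958) (.g (nat_lit 2491) (.e (nat_lit 171776) (nat_lit 192) (.e (nat_lit 73747) (nat_lit 3) (.e (nat_lit 516097) (nat_lit 0) (.e (nat_lit 7591) (nat_lit 407) (.e (nat_lit 73740) (nat_lit 1) .nil))))) (.g (nat_lit 0) (.e (nat_lit 179702) (nat_lit 0) .nil) .nil))) 
(.lf (nat_lit 505470) (.g (nat_lit 2105) (.e (nat_lit 164325) (nat_lit 230) (.e (nat_lit 163905) (nat_lit 12) (.e (nat_lit 426566) (nat_lit 34) (.e (nat_lit 393296) (nat_lit 26) (.e (nat_lit 475177) (nat_lit 24) .nil))))) (.g (nat_lit 0) (.e (nat_lit 181607) (nat_lit 0) .nil) .nil)))) (.nd (nat_lit 9) 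
(.lf (nat_lit 505214) (.g (nat_lit 777) (.e (nat_lit 164324) (nat_lit 230) (.e (nat_lit 163875) (nat_lit 3) (.e (nat_lit 212736) (nat_lit 9) .nil))) (.g (nat_lit 0) (.e (nat_lit 180998) (nat_lit 0) .nil) .nil))) 
(.lf (nat_lit 505726) (.g (nat_lit 3902) (.e (nat_lit 164326) (nat_lit 230) (.e (nat_lit 163903) (nat_lit 12) (.e (nat_lit 426566) (nat_lit 34) (.e (nat_lit 393271) (nat_lit 23) (.e (nat_lit 426436) (nat_lit 18) (.e (nat_lit 98335) (nat_lit 18) .nil)))))) (.g (nat_lit 1) (.e (nat_lit 182342) (nat_lit 0) .nil) .nil))))) (.nd (nat_lit 8) (.nd (nat_lit 9) 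
(.lf (nat_lit 505086) (.g (nat_lit 4256) (.e (nat_lit 164322) (nat_lit 230) (.e (nat_lit 163873) (nat_lit 3) (.e (nat_lit 204813) (nat_lit 9) (.e (nat_lit 426187) (nat_lit 9) .nil)))) (.g (nat_lit 0) (.e (nat_lit 180737) (nat_lit 0) .nil) .nil))) 
(.lf (nat_lit 505598) (.g (nat_lit 4659) (.e (nat_lit 164326) (nat_lit 230) (.e (nat_lit 163870) (nat_lit 2) (.e (nat_lit 196630) (nat_lit 9) (.e (nat_lit 430) (nat_lit 32) (.e (nat_lit 426189) (nat_lit 9) (.e (nat_lit 426566) (nat_lit 34) (.e (nat_lit 393254) (nat_lit 18) .nil))))))) (.g (nat_lit 1) (.e (nat_lit 182126) (nat_lit 0) .nil) .nil)))) (.nd (nat_lit 9) 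
(.lf (nat_lit 505342) (.g (nat_lit 2132) (.e (nat_lit 164325) (nat_lit 230) (.e (nat_lit 163871) (nat_lit 2) (.e (nat_lit 196656) (nat_lit 11) (.e (nat_lit 16436) (nat_lit 9) (.e (nat_lit 426478) (nat_lit 27) .nil))))) (.g (nat_lit 0) (.e (nat_lit 181377) (nat_lit 0) .nil) .nil))) 
(.lf (nat_lit 505854) (.g (nat_lit 2282) (.e (nat_lit 164327) (nat_lit 230) (.e (nat_lit 163871) (nat_lit 2) (.e (nat_lit 196654) (nat_lit 11) (.e (nat_lit 16438) (nat_lit 9) (.e (nat_lit 426482) (nat_lit 27) (.e (nat_lit 336388) (nat_lit 27) (.e (nat_lit 426105) (nat_lit 1) .nil))))))) (.g (nat_lit 1) (.e (nat_lit 182621) (nat_lit 0) .nil) .nil)))))))))))) 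
(.nd (nat_lit 1) (.nd (nat_lit 2) (.nd (nat_lit 3) (.nd (nat_lit 4) (.nd (nat_lit 5) 
(.nd (nat_lit 6) (.nd (nat_lit 7) (.nd (nat_lit 8) (.nd (nat_lit 9) 
(.lf (nat_lit 504833) (.g (nat_lit 1744) (.e (nat_lit 164211) (nat_lit 176) (.e (nat_lit 2797) (nat_lit 180) (.e (nat_lit 303117) (nat_lit 2) (.e (nat_lit 196665) (nat_lit 13) .nil)))) (.g (nat_lit 0) (.e (nat_lit 179322) (nat_lit 0) .nil) .nil))) 
(.lf (nat_lit 505345) (.g (nat_lit 1970) (.e (nat_lit 164325) (nat_lit 230) (.e (nat_lit 163871) (nat_lit 2) (.e (nat_lit 196656) (nat_lit 11) (.e (nat_lit 16436) (nat_lit 9) (.e (nat_lit 426486) (nat_lit 27) .nil))))) (.g (nat_lit 0) (.e (nat_lit 181380) (nat_lit 0) .nil) .nil)))) (.nd (nat_lit 9) 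
(.lf (nat_lit 505089) (.g (nat_lit 2100) (.e (nat_lit 164322) (nat_lit 230) (.e (nat_lit 163873) (nat_lit 3) (.e (nat_lit 204813) (nat_lit 9) (.e (nat_lit 426190) (nat_lit 9) (.e (nat_lit 426566) (nat_lit 34) .nil))))) (.g (nat_lit 0) (.e (nat_lit 180740) (nat_lit 0) .nil) .nil))) 
(.lf (nat_lit 505601) (.g (nat_lit 2924) (.e (nat_lit 164326) (nat_lit 230) (.e (nat_lit 163870) (nat_lit 2) (.e (nat_lit 196653) (nat_lit 11) (.e (nat_lit 16463) (nat_lit 13) (.e (nat_lit 483341) (nat_lit 9) (.e (nat_lit 426107) (nat_lit 1) .nil)))))) (.g (nat_lit 1) (.e (nat_lit 182131) (nat_lit 0) .nil) .nil))))) (.nd (nat_lit 8) (.nd (nat_lit 9) 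
(.lf (nat_lit 504961) (.g (nat_lit 729) (.e (nat_lit 171776) (nat_lit 192) (.e (nat_lit 73747) (nat_lit 3) (.e (nat_lit 516102) (nat_lit 0) .nil))) (.g (nat_lit 0) (.e (nat_lit 179705) (nat_lit 0) .nil) .nil))) 
(.lf (nat_lit 505473) (.g (nat_lit 1680) (.e (nat_lit 164325) (nat_lit 230) (.e (nat_lit 163905) (nat_lit 12) (.e (nat_lit 426568) (nat_lit 34) (.e (nat_lit 393294) (nat_lit 26) .nil)))) (.g (nat_lit 0) (.e (nat_lit 181610) (nat_lit 0) .nil) .nil)))) (.nd (nat_lit 9) 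
(.lf (nat_lit 505217) (.g (nat_lit 797) (.e (nat_lit 164324) (nat_lit 230) (.e (nat_lit 163902) (nat_lit 12) (.e (nat_lit 426479) (nat_lit 27) .nil))) (.g (nat_lit 0) (.e (nat_lit 181002) (nat_lit 0) .nil) .nil))) 
(.lf (nat_lit 505729) (.g (nat_lit 2477) (.e (nat_lit 164326) (nat_lit 230) (.e (nat_lit 163903) (nat_lit 12) (.e (nat_lit 426566) (nat_lit 34) (.e (nat_lit 393273) (nat_lit 23) (.e (nat_lit 426428) (nat_lit 17) .nil))))) (.g (nat_lit 0) (.e (nat_lit 182345) (nat_lit 0) .nil) .nil)))))) (.nd (nat_lit 7) (.nd (nat_lit 8) (.nd (nat_lit 9) 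
(.lf (nat_lit 504897) (.g (nat_lit 1923) (.e (nat_lit 171776) (nat_lit 176) (.e (nat_lit 2798) (nat_lit 180) (.e (nat_lit 303119) (nat_lit 3) (.e (nat_lit 204867) (nat_lit 28) (.e (nat_lit 352310) (nat_lit 22) .nil))))) (.g (nat_lit 0) (.e (nat_lit 179425) (nat_lit 0) .nil) .nil))) 
(.lf (nat_lit 505409) (.g (nat_lit 2767) (.e (nat_lit 164325) (nat_lit 230) (.e (nat_lit 163882) (nat_lit 4) (.e (nat_lit 213030) (nat_lit 11) (.e (nat_lit 24626) (nat_lit 9) (.e (nat_lit 336443) (nat_lit 32) (.e (nat_lit 466971) (nat_lit 21) .nil)))))) (.g (nat_lit 1) (.e (nat_lit 181497) (nat_lit 0) .nil) .nil)))) (.nd (nat_lit 9) 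
(.lf (nat_lit 505153) (.g (nat_lit 576) (.e (nat_lit 164323) (nat_lit 230) (.e (nat_lit 163871) (nat_lit 2) (.e (nat_lit 196656) (nat_lit 11) .nil))) (.g (nat_lit 0) (.e (nat_lit 180910) (nat_lit 0) .nil) .nil))) 
(.lf (nat_lit 505665) (.g (nat_lit 711) (.e (nat_lit 164326) (nat_lit 230) (.e (nat_lit 163874) (nat_lit 3) (.e (nat_lit 204813) (nat_lit 9) .nil))) (.g (nat_lit 0) (.e (nat_lit 182245) (nat_lit 0) .nil) .nil))))) (.nd (nat_lit 8) (.nd (nat_lit 9) 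
(.lf (nat_lit 505025) (.g (nat_lit 1661) (.e (nat_lit 164281) (nat_lit 222) (.e (nat_lit 57884) (nat_lit 270) (.e (nat_lit 1454) (nat_lit 108) (.e (nat_lit 335997) (nat_lit 1) (.e (nat_lit 57857) (nat_lit 254) .nil))))) (.g (nat_lit 0) (.e (nat_lit 180331) (nat_lit 0) .nil) .nil))) 
(.lf (nat_lit 505537) (.g (nat_lit 3536) (.e (nat_lit 164326) (nat_lit 230) (.e (nat_lit 163866) (nat_lit 2) (.e (nat_lit 196654) (nat_lit 11) (.e (nat_lit 16463) (nat_lit 13) (.e (nat_lit 483337) (nat_lit 9) (.e (nat_lit 426107) (nat_lit 1) .nil)))))) (.g (nat_lit 1) (.e (nat_lit 182033) (nat_lit 0) .nil) .nil)))) (.nd (nat_lit 9) 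
(.lf (nat_lit 505281) (.g (nat_lit 3763) (.e (nat_lit 164325) (nat_lit 230) (.e (nat_lit 163868) (nat_lit 2) (.e (nat_lit 196654) (nat_lit 11) (.e (nat_lit 16466) (nat_lit 13) (.e (nat_lit 483337) (nat_lit 9) (.e (nat_lit 426107) (nat_lit 1) .nil)))))) (.g (nat_lit 1) (.e (nat_lit 181289) (nat_lit 0) .nil) .nil))) 
(.lf (nat_lit 505793) (.g (nat_lit 1505) (.e (nat_lit 164327) (nat_lit 230) (.e (nat_lit 163868) (nat_lit 2) (.e (nat_lit 196654) (nat_lit 11) (.e (nat_lit 16436) (nat_lit 9) (.e (nat_lit 426486) (nat_lit 27) .nil))))) (.g (nat_lit 0) (.e (nat_lit 182526) (nat_lit 0) .nil) .nil))))))) (.nd (nat_lit 6) (.nd (nat_lit 7) (.nd (nat_lit 8) (.nd (nat_lit 9) 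
(.lf (nat_lit 504865) (.g (nat_lit 2278) (.e (nat_lit 164213) (nat_lit 176) (.e (nat_lit 2797) (nat_lit 180) (.e (nat_lit 303119) (nat_lit 3) (.e (nat_lit 204868) (nat_lit 29) .nil)))) (.g (nat_lit 0) (.e (nat_lit 179365) (nat_lit 0) .nil) .nil))) 
(.lf (nat_lit 505377) (.g (nat_lit 2038) (.e (nat_lit 164325) (nat_lit 230) (.e (nat_lit 163873) (nat_lit 3) (.e (nat_lit 204813) (nat_lit 9) (.e (nat_lit 426198) (nat_lit 9) (.e (nat_lit 426480) (nat_lit 27) .nil))))) (.g (nat_lit 0) (.e (nat_lit 181435) (nat_lit 0) .nil) .nil)))) (.nd (nat_lit 9) 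
(.lf (nat_lit 505121) (.g (nat_lit 1957) (.e (nat_lit 164322) (nat_lit 230) (.e (nat_lit 163902) (nat_lit 12) (.e (nat_lit 426568) (nat_lit 34) (.e (nat_lit 393233) (nat_lit 17) .nil)))) (.g (nat_lit 0) (.e (nat_lit 180788) (nat_lit 0) .nil) .nil))) 
(.lf (nat_lit 505633) (.g (nat_lit 2852) (.e (nat_lit 164326) (nat_lit 230) (.e (nat_lit 163871) (nat_lit 2) (.e (nat_lit 196656) (nat_lit 11) (.e (nat_lit 16431) (nat_lit 9) (.e (nat_lit 426568) (nat_lit 34) (.e (nat_lit 393253) (nat_lit 18) .nil)))))) (.g (nat_lit 1) (.e (nat_lit 182185) (nat_lit 0) .nil) .nil))))) (.nd (nat_lit 8) (.nd (nat_lit 9) 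
(.lf (nat_lit 504993) (.g (nat_lit 2239) (.e (nat_lit 164288) (nat_lit 224) (.e (nat_lit 164104) (nat_lit 116) (.e (nat_lit 778462) (nat_lit 11) (.e (nat_lit 24660) (nat_lit 13) (.e (nat_lit 393238) (nat_lit 17) (.e (nat_lit 7107) (nat_lit 380) .nil)))))) (.g (nat_lit 1) (.e (nat_lit 180128) (nat_lit 0) .nil) .nil))) 
(.lf (nat_lit 505505) (.g (nat_lit 4091) (.e (nat_lit 164325) (nat_lit 230) (.e (nat_lit 163941) (nat_lit 19) (.e (nat_lit 483341) (nat_lit 9) (.e (nat_lit 426010) (nat_lit 0) .nil)))) (.g (nat_lit 0) (.e (nat_lit 181925) (nat_lit 0) .nil) .nil)))) (.nd (nat_lit 9) 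
(.lf (nat_lit 505249) (.g (nat_lit 1849) (.e (nat_lit 164324) (nat_lit 230) (.e (nat_lit 163943) (nat_lit 19) (.e (nat_lit 483341) (nat_lit 9) (.e (nat_lit 426198) (nat_lit 9) .nil)))) (.g (nat_lit 0) (.e (nat_lit 181092) (nat_lit 0) .nil) .nil))) 
(.lf (nat_lit 505761) (.g (nat_lit 3693) (.e (nat_lit 164326) (nat_lit 230) (.e (nat_lit 163941) (nat_lit 19) (.e (nat_lit 483341) (nat_lit 9) (.e (nat_lit 426204) (nat_lit 9) (.e (nat_lit 426396) (nat_lit 15) .nil))))) (.g (nat_lit 0) (.e (nat_lit 182455) (nat_lit 0) .nil) .nil)))))) (.nd (nat_lit 7) (.nd (nat_lit 8) (.nd (nat_lit 9) 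
(.lf (nat_lit 504929) (.g (nat_lit 2624) (.e (nat_lit 164239) (nat_lit 187) (.e (nat_lit 1638) (nat_lit 114) (.e (nat_lit 385074) (nat_lit 31) (.e (nat_lit 573481) (nat_lit 13) (.e (nat_lit 65604) (nat_lit 9) .nil))))) (.g (nat_lit 0) (.e (nat_lit 179651) (nat_lit 0) .nil) .nil))) 
(.lf (nat_lit 505441) (.g (nat_lit 2033) (.e (nat_lit 164325) (nat_lit 230) (.e (nat_lit 163903) (nat_lit 12) (.e (nat_lit 426566) (nat_lit 34) (.e (nat_lit 393292) (nat_lit 26) .nil)))) (.g (nat_lit 0) (.e (nat_lit 181565) (nat_lit 0) .nil) .nil)))) (.nd (nat_lit 9) 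
(.lf (nat_lit 505185) (.g (nat_lit 3171) (.e (nat_lit 164324) (nat_lit 230) (.e (nat_lit 163868) (nat_lit 2) (.e (nat_lit 196656) (nat_lit 11) (.e (nat_lit 16466) (nat_lit 13) (.e (nat_lit 483341) (nat_lit 9) (.e (nat_lit 426106) (nat_lit 1) .nil)))))) (.g (nat_lit 1) (.e (nat_lit 180958) (nat_lit 0) .nil) .nil))) 
(.lf (nat_lit 505697) (.g (nat_lit 2999) (.e (nat_lit 164326) (nat_lit 230) (.e (nat_lit 163882) (nat_lit 4) (.e (nat_lit 213032) (nat_lit 11) (.e (nat_lit 24630) (nat_lit 9) (.e (nat_lit 336443) (nat_lit 32) (.e (nat_lit 466971) (nat_lit 21) .nil)))))) (.g (nat_lit 1) (.e (nat_lit 182281) (nat_lit 0) .nil) .nil))))) (.nd (nat_lit 8) (.nd (nat_lit 9) 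
(.lf (nat_lit 505057) (.g (nat_lit 2802) (.e (nat_lit 164322) (nat_lit 230) (.e (nat_lit 163867) (nat_lit 2) (.e (nat_lit 196656) (nat_lit 11) (.e (nat_lit 16416) (nat_lit 3) (.e (nat_lit 204837) (nat_lit 20) .nil))))) (.g (nat_lit 0) (.e (nat_lit 180693) (nat_lit 0) .nil) .nil))) 
(.lf (nat_lit 505569) (.g (nat_lit 251) (.e (nat_lit 164326) (nat_lit 230) (.e (nat_lit 163868) (nat_lit 2) (.e (nat_lit 196655) (nat_lit 11) .nil))) (.g (nat_lit 0) (.e (nat_lit 182079) (nat_lit 0) .nil) .nil)))) (.nd (nat_lit 9) 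
(.lf (nat_lit 505313) (.g (nat_lit 2274) (.e (nat_lit 164325) (nat_lit 230) (.e (nat_lit 163869) (nat_lit 2) (.e (nat_lit 196654) (nat_lit 11) (.e (nat_lit 16466) (nat_lit 13) (.e (nat_lit 483336) (nat_lit 9) .nil))))) (.g (nat_lit 0) (.e (nat_lit 181333) (nat_lit 0) .nil) .nil))) 
(.lf (nat_lit 505825) (.g (nat_lit 2086) (.e (nat_lit 164327) (nat_lit 230) (.e (nat_lit 163869) (nat_lit 2) (.e (nat_lit 196656) (nat_lit 11) (.e (nat_lit 16465) (nat_lit 13) .nil)))) (.g (nat_lit 0) (.e (nat_lit 182581) (nat_lit 0) .nil) .nil)))))))) (.nd (nat_lit 5) (.nd (nat_lit 6) (.nd (nat_lit 7) (.nd (nat_lit 8) (.nd (nat_lit 9) 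
(.lf (nat_lit 504849) (.g (nat_lit 2283) (.e (nat_lit 164211) (nat_lit 176) (.e (nat_lit 2798) (nat_lit 180) (.e (nat_lit 303117) (nat_lit 2) (.e (nat_lit 196674) (nat_lit 15) (.e (nat_lit 81951) (nat_lit 22) .nil))))) (.g (nat_lit 0) (.e (nat_lit 179340) (nat_lit 0) .nil) .nil))) 
(.lf (nat_lit 505361) (.g (nat_lit 4055) (.e (nat_lit 164325) (nat_lit 230) (.e (nat_lit 163873) (nat_lit 3) (.e (nat_lit 204813) (nat_lit 9) (.e (nat_lit 426122) (nat_lit 2) .nil)))) (.g (nat_lit 0) (.e (nat_lit 181416) (nat_lit 0) .nil) .nil)))) (.nd (nat_lit 9) 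
(.lf (nat_lit 505105) (.g (nat_lit 260) (.e (nat_lit 164322) (nat_lit 230) (.e (nat_lit 163878) (nat_lit 4) (.e (nat_lit 213032) (nat_lit 11) .nil))) (.g (nat_lit 0) (.e (nat_lit 180770) (nat_lit 0) .nil) .nil))) 
(.lf (nat_lit 505617) (.g (nat_lit 1466) (.e (nat_lit 164326) (nat_lit 230) (.e (nat_lit 163871) (nat_lit 2) (.e (nat_lit 196631) (nat_lit 9) (.e (nat_lit 426) (nat_lit 32) .nil)))) (.g (nat_lit 0) (.e (nat_lit 182156) (nat_lit 0) .nil) .nil))))) (.nd (nat_lit 8) (.nd (nat_lit 9) 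
(.lf (nat_lit 504977) (.g (nat_lit 1288) (.e (nat_lit 164261) (nat_lit 221) (.e (nat_lit 1360) (nat_lit 102) (.e (nat_lit 286753) (nat_lit 10) (.e (nat_lit 344156) (nat_lit 36) .nil)))) (.g (nat_lit 0) (.e (nat_lit 179981) (nat_lit 0) .nil) .nil))) 
(.lf (nat_lit 505489) (.g (nat_lit 3314) (.e (nat_lit 164325) (nat_lit 230) (.e (nat_lit 163907) (nat_lit 12) (.e (nat_lit 426566) (nat_lit 34) (.e (nat_lit 393290) (nat_lit 26) (.e (nat_lit 475179) (nat_lit 24) (.e (nat_lit 516119) (nat_lit 1) .nil)))))) (.g (nat_lit 1) (.e (nat_lit 181677) (nat_lit 0) .nil) .nil)))) (.nd (nat_lit 9) 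
(.lf (nat_lit 505233) (.g (nat_lit 422) (.e (nat_lit 164324) (nat_lit 230) (.e (nat_lit 163905) (nat_lit 12) (.e (nat_lit 426566) (nat_lit 34) .nil))) (.g (nat_lit 0) (.e (nat_lit 181019) (nat_lit 0) .nil) .nil))) 
(.lf (nat_lit 505745) (.g (nat_lit 968) (.e (nat_lit 164326) (nat_lit 230) (.e (nat_lit 163903) (nat_lit 12) (.e (nat_lit 426568) (nat_lit 34) (.e (nat_lit 393294) (nat_lit 26) .nil)))) (.g (nat_lit 0) (.e (nat_lit 182364) (nat_lit 0) .nil) .nil)))))) (.nd (nat_lit 7) (.nd (nat_lit 8) (.nd (nat_lit 9) 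
(.lf (nat_lit 504913) (.g (nat_lit 1814) (.e (nat_lit 164248) (nat_lit 201) (.e (nat_lit 3067) (nat_lit 190) (.e (nat_lit 475185) (nat_lit 29) (.e (nat_lit 557096) (nat_lit 13) .nil)))) (.g (nat_lit 0) (.e (nat_lit 179564) (nat_lit 0) .nil) .nil))) 
(.lf (nat_lit 505425) (.g (nat_lit 2253) (.e (nat_lit 164325) (nat_lit 230) (.e (nat_lit 163902) (nat_lit 12) (.e (nat_lit 426566) (nat_lit 34) (.e (nat_lit 393295) (nat_lit 26) .nil)))) (.g (nat_lit 0) (.e (nat_lit 181520) (nat_lit 0) .nil) .nil)))) (.nd (nat_lit 9) 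
(.lf (nat_lit 505169) (.g (nat_lit 1951) (.e (nat_lit 164323) (nat_lit 230) (.e (nat_lit 163875) (nat_lit 3) (.e (nat_lit 204813) (nat_lit 9) (.e (nat_lit 426200) (nat_lit 9) (.e (nat_lit 426566) (nat_lit 34) .nil))))) (.g (nat_lit 0) (.e (nat_lit 180931) (nat_lit 0) .nil) .nil))) 
(.lf (nat_lit 505681) (.g (nat_lit 3372) (.e (nat_lit 164326) (nat_lit 230) (.e (nat_lit 163875) (nat_lit 3) (.e (nat_lit 204813) (nat_lit 9) (.e (nat_lit 426188) (nat_lit 9) (.e (nat_lit 426566) (nat_lit 34) (.e (nat_lit 393254) (nat_lit 18) .nil)))))) (.g (nat_lit 1) (.e (nat_lit 182264) (nat_lit 0) .nil) .nil))))) (.nd (nat_lit 8) (.nd (nat_lit 9) 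
(.lf (nat_lit 505041) (.g (nat_lit 837) (.e (nat_lit 164305) (nat_lit 226) (.e (nat_lit 2630) (nat_lit 164) (.e (nat_lit 172035) (nat_lit 0) (.e (nat_lit 3547) (nat_lit 219) .nil)))) (.g (nat_lit 0) (.e (nat_lit 180434) (nat_lit 0) .nil) .nil))) 
(.lf (nat_lit 505553) (.g (nat_lit 976) (.e (nat_lit 164326) (nat_lit 230) (.e (nat_lit 163868) (nat_lit 2) (.e (nat_lit 196627) (nat_lit 9) .nil))) (.g (nat_lit 0) (.e (nat_lit 182061) (nat_lit 0) .nil) .nil)))) (.nd (nat_lit 9) 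
(.lf (nat_lit 505297) (.g (nat_lit 1544) (.e (nat_lit 164325) (nat_lit 230) (.e (nat_lit 163868) (nat_lit 2) (.e (nat_lit 196656) (nat_lit 11) (.e (nat_lit 16446) (nat_lit 9) (.e (nat_lit 433920) (nat_lit 34) .nil))))) (.g (nat_lit 0) (.e (nat_lit 181312) (nat_lit 0) .nil) .nil))) 
(.lf (nat_lit 505809) (.g (nat_lit 3419) (.e (nat_lit 164327) (nat_lit 230) (.e (nat_lit 163868) (nat_lit 2) (.e (nat_lit 196656) (nat_lit 11) (.e (nat_lit 16463) (nat_lit 13) (.e (nat_lit 483338) (nat_lit 9) (.e (nat_lit 426110) (nat_lit 1) .nil)))))) (.g (nat_lit 1) (.e (nat_lit 182562) (nat_lit 0) .nil) .nil))))))) (.nd (nat_lit 6) (.nd (nat_lit 7) (.nd (nat_lit 8) (.nd (nat_lit 9) 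
(.lf (nat_lit 504881) (.g (nat_lit 1624) (.e (nat_lit 171776) (nat_lit 176) (.e (nat_lit 2797) (nat_lit 180) (.e (nat_lit 303119) (nat_lit 3) (.e (nat_lit 204858) (nat_lit 26) .nil)))) (.g (nat_lit 0) (.e (nat_lit 179395) (nat_lit 0) .nil) .nil))) 
(.lf (nat_lit 505393) (.g (nat_lit 379) (.e (nat_lit 164325) (nat_lit 230) (.e (nat_lit 163874) (nat_lit 3) (.e (nat_lit 204813) (nat_lit 9) .nil))) (.g (nat_lit 0) (.e (nat_lit 181477) (nat_lit 0) .nil) .nil)))) (.nd (nat_lit 9) 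
(.lf (nat_lit 505137) (.g (nat_lit 3906) (.e (nat_lit 164322) (nat_lit 230) (.e (nat_lit 163941) (nat_lit 19) (.e (nat_lit 483341) (nat_lit 9) (.e (nat_lit 433920) (nat_lit 9) .nil)))) (.g (nat_lit 0) (.e (nat_lit 180877) (nat_lit 0) .nil) .nil))) 
(.lf (nat_lit 505649) (.g (nat_lit 1374) (.e (nat_lit 164326) (nat_lit 230) (.e (nat_lit 163873) (nat_lit 3) (.e (nat_lit 204811) (nat_lit 9) (.e (nat_lit 426259) (nat_lit 9) (.e (nat_lit 426565) (nat_lit 34) (.e (nat_lit 393254) (nat_lit 18) .nil)))))) (.g (nat_lit 1) (.e (nat_lit 182206) (nat_lit 0) .nil) .nil))))) (.nd (nat_lit 8) (.nd (nat_lit 9) 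
(.lf (nat_lit 505009) (.g (nat_lit 2263) (.e (nat_lit 164293) (nat_lit 224) (.e (nat_lit 164104) (nat_lit 116) (.e (nat_lit 778462) (nat_lit 11) (.e (nat_lit 24628) (nat_lit 9) (.e (nat_lit 336438) (nat_lit 31) (.e (nat_lit 458769) (nat_lit 16) .nil)))))) (.g (nat_lit 1) (.e (nat_lit 180270) (nat_lit 0) .nil) .nil))) 
(.lf (nat_lit 505521) (.g (nat_lit 4089) (.e (nat_lit 164325) (nat_lit 230) (.e (nat_lit 163941) (nat_lit 19) (.e (nat_lit 483341) (nat_lit 9) (.e (nat_lit 426263) (nat_lit 9) .nil)))) (.g (nat_lit 0) (.e (nat_lit 181948) (nat_lit 0) .nil) .nil)))) (.nd (nat_lit 9) 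
(.lf (nat_lit 505265) (.g (nat_lit 1670) (.e (nat_lit 164325) (nat_lit 230) (.e (nat_lit 163867) (nat_lit 2) (.e (nat_lit 196656) (nat_lit 11) (.e (nat_lit 16432) (nat_lit 9) .nil)))) (.g (nat_lit 0) (.e (nat_lit 181260) (nat_lit 0) .nil) .nil))) 
(.lf (nat_lit 505777) (.g (nat_lit 2893) (.e (nat_lit 164327) (nat_lit 230) (.e (nat_lit 163867) (nat_lit 2) (.e (nat_lit 196656) (nat_lit 11) (.e (nat_lit 16465) (nat_lit 13) (.e (nat_lit 483341) (nat_lit 9) .nil))))) (.g (nat_lit 0) (.e (nat_lit 182496) (nat_lit 0) .nil) .nil)))))) (.nd (nat_lit 7) (.nd (nat_lit 8) (.nd (nat_lit 9) 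
(.lf (nat_lit 504945) (.g (nat_lit 2696) (.e (nat_lit 171776) (nat_lit 187) (.e (nat_lit 1645) (nat_lit 114) (.e (nat_lit 385074) (nat_lit 31) (.e (nat_lit 573482) (nat_lit 13) (.e (nat_lit 65604) (nat_lit 9) .nil))))) (.g (nat_lit 0) (.e (nat_lit 179681) (nat_lit 0) .nil) .nil))) 
(.lf (nat_lit 505457) (.g (nat_lit 3007) (.e (nat_lit 164325) (nat_lit 230) (.e (nat_lit 163904) (nat_lit 12) (.e (nat_lit 426566) (nat_lit 34) (.e (nat_lit 393291) (nat_lit 26) (.e (nat_lit 475178) (nat_lit 24) (.e (nat_lit 516115) (nat_lit 1) .nil)))))) (.g (nat_lit 1) (.e (nat_lit 181581) (nat_lit 0) .nil) .nil)))) (.nd (nat_lit 9) 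
(.lf (nat_lit 505201) (.g (nat_lit 3596) (.e (nat_lit 164324) (nat_lit 230) (.e (nat_lit 163873) (nat_lit 3) (.e (nat_lit 204813) (nat_lit 9) (.e (nat_lit 426185) (nat_lit 9) .nil)))) (.g (nat_lit 0) (.e (nat_lit 180977) (nat_lit 0) .nil) .nil))) 
(.lf (nat_lit 505713) (.g (nat_lit 2283) (.e (nat_lit 164326) (nat_lit 230) (.e (nat_lit 163903) (nat_lit 12) (.e (nat_lit 426428) (nat_lit 17) (.e (nat_lit 90170) (nat_lit 13) (.e (nat_lit 172079) (nat_lit 7) .nil))))) (.g (nat_lit 0) (.e (nat_lit 182322) (nat_lit 0) .nil) .nil))))) (.nd (nat_lit 8) (.nd (nat_lit 9) 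
(.lf (nat_lit 505073) (.g (nat_lit 526) (.e (nat_lit 164322) (nat_lit 230) (.e (nat_lit 163871) (nat_lit 2) (.e (nat_lit 196656) (nat_lit 11) .nil))) (.g (nat_lit 0) (.e (nat_lit 180716) (nat_lit 0) .nil) .nil))) 
(.lf (nat_lit 505585) (.g (nat_lit 2527) (.e (nat_lit 164326) (nat_lit 230) (.e (nat_lit 163869) (nat_lit 2) (.e (nat_lit 196654) (nat_lit 11) (.e (nat_lit 16433) (nat_lit 9) (.e (nat_lit 426566) (nat_lit 34) (.e (nat_lit 393254) (nat_lit 18) .nil)))))) (.g (nat_lit 1) (.e (nat_lit 182109) (nat_lit 0) .nil) .nil)))) (.nd (nat_lit 9) 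
(.lf (nat_lit 505329) (.g (nat_lit 1198) (.e (nat_lit 164325) (nat_lit 230) (.e (nat_lit 163871) (nat_lit 2) (.e (nat_lit 196624) (nat_lit 9) (.e (nat_lit 433) (nat_lit 32) .nil)))) (.g (nat_lit 0) (.e (nat_lit 181356) (nat_lit 0) .nil) .nil))) 
(.lf (nat_lit 505841) (.g (nat_lit 3199) (.e (nat_lit 164327) (nat_lit 230) (.e (nat_lit 163871) (nat_lit 2) (.e (nat_lit 196654) (nat_lit 11) (.e (nat_lit 16416) (nat_lit 3) (.e (nat_lit 204834) (nat_lit 19) (.e (nat_lit 106517) (nat_lit 9) (.e (nat_lit 1255) (nat_lit 92) (.e (nat_lit 98335) (nat_lit 18) .nil)))))))) (.g (nat_lit 1) (.e (nat_lit 182604) (nat_lit 0) .nil) .nil))))))))) 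
(.nd (nat_lit 4) (.nd (nat_lit 5) (.nd (nat_lit 6) (.nd (nat_lit 7) (.nd (nat_lit 8) 
(.nd (nat_lit 9) 
(.lf (nat_lit 504841) (.g (nat_lit 2116) (.e (nat_lit 164211) (nat_lit 176) (.e (nat_lit 2797) (nat_lit 180) (.e (nat_lit 303119) (nat_lit 3) (.e (nat_lit 204861) (nat_lit 26) .nil)))) (.g (nat_lit 0) (.e (nat_lit 179332) (nat_lit 0) .nil) .nil))) 
(.lf (nat_lit 505353) (.g (nat_lit 2284) (.e (nat_lit 164325) (nat_lit 230) (.e (nat_lit 163871) (nat_lit 2) (.e (nat_lit 196656) (nat_lit 11) (.e (nat_lit 16466) (nat_lit 13) (.e (nat_lit 483336) (nat_lit 9) .nil))))) (.g (nat_lit 0) (.e (nat_lit 181392) (nat_lit 0) .nil) .nil)))) (.nd (nat_lit 9) 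
(.lf (nat_lit 505097) (.g (nat_lit 4718) (.e (nat_lit 164322) (nat_lit 230) (.e (nat_lit 163873) (nat_lit 3) (.e (nat_lit 204813) (nat_lit 9) (.e (nat_lit 426213) (nat_lit 9) .nil)))) (.g (nat_lit 0) (.e (nat_lit 180749) (nat_lit 0) .nil) .nil))) 
(.lf (nat_lit 505609) (.g (nat_lit 1579) (.e (nat_lit 164326) (nat_lit 230) (.e (nat_lit 163871) (nat_lit 2) (.e (nat_lit 196624) (nat_lit 9) (.e (nat_lit 433) (nat_lit 32) .nil)))) (.g (nat_lit 0) (.e (nat_lit 182144) (nat_lit 0) .nil) .nil))))) (.nd (nat_lit 8) (.nd (nat_lit 9) 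
(.lf (nat_lit 504969) (.g (nat_lit 3071) (.e (nat_lit 171776) (nat_lit 278) (.e (nat_lit 1126) (nat_lit 83) (.e (nat_lit 16416) (nat_lit 3) (.e (nat_lit 204868) (nat_lit 29) (.e (nat_lit 360466) (nat_lit 3) .nil))))) (.g (nat_lit 0) (.e (nat_lit 179952) (nat_lit 0) .nil) .nil))) 
(.lf (nat_lit 505481) (.g (nat_lit 3667) (.e (nat_lit 164325) (nat_lit 230) (.e (nat_lit 163907) (nat_lit 12) (.e (nat_lit 426481) (nat_lit 27) (.e (nat_lit 336389) (nat_lit 27) (.e (nat_lit 426308) (nat_lit 12) (.e (nat_lit 475177) (nat_lit 24) (.e (nat_lit 516115) (nat_lit 1) .nil))))))) (.g (nat_lit 1) (.e (nat_lit 181659) (nat_lit 0) .nil) .nil)))) (.nd (nat_lit 9) 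
(.lf (nat_lit 505225) (.g (nat_lit 2198) (.e (nat_lit 164324) (nat_lit 230) (.e (nat_lit 163902) (nat_lit 12) (.e (nat_lit 426568) (nat_lit 34) (.e (nat_lit 393266) (nat_lit 23) (.e (nat_lit 426438) (nat_lit 18) .nil))))) (.g (nat_lit 0) (.e (nat_lit 181010) (nat_lit 0) .nil) .nil))) 
(.lf (nat_lit 505737) (.g (nat_lit 2202) (.e (nat_lit 164326) (nat_lit 230) (.e (nat_lit 163903) (nat_lit 12) (.e (nat_lit 426568) (nat_lit 34) (.e (nat_lit 393233) (nat_lit 17) (.e (nat_lit 7376) (nat_lit 389) .nil))))) (.g (nat_lit 0) (.e (nat_lit 182355) (nat_lit 0) .nil) .nil)))))) (.nd (nat_lit 7) (.nd (nat_lit 8) (.nd (nat_lit 9) 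
(.lf (nat_lit 504905) (.g (nat_lit 953) (.e (nat_lit 164232) (nat_lit 185) (.e (nat_lit 163907) (nat_lit 12) (.e (nat_lit 426568) (nat_lit 34) .nil))) (.g (nat_lit 0) (.e (nat_lit 179543) (nat_lit 0) .nil) .nil))) 
(.lf (nat_lit 505417) (.g (nat_lit 3034) (.e (nat_lit 164325) (nat_lit 230) (.e (nat_lit 163902) (nat_lit 12) (.e (nat_lit 426566) (nat_lit 34) (.e (nat_lit 393273) (nat_lit 23) (.e (nat_lit 426364) (nat_lit 15) .nil))))) (.g (nat_lit 0) (.e (nat_lit 181512) (nat_lit 0) .nil) .nil)))) (.nd (nat_lit 9) 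
(.lf (nat_lit 505161) (.g (nat_lit 4094) (.e (nat_lit 164323) (nat_lit 230) (.e (nat_lit 163873) (nat_lit 3) (.e (nat_lit 204813) (nat_lit 9) (.e (nat_lit 426197) (nat_lit 9) .nil)))) (.g (nat_lit 0) (.e (nat_lit 180918) (nat_lit 0) .nil) .nil))) 
(.lf (nat_lit 505673) (.g (nat_lit 1362) (.e (nat_lit 164326) (nat_lit 230) (.e (nat_lit 163875) (nat_lit 3) (.e (nat_lit 204809) (nat_lit 9) (.e (nat_lit 426198) (nat_lit 9) .nil)))) (.g (nat_lit 0) (.e (nat_lit 182255) (nat_lit 0) .nil) .nil))))) (.nd (nat_lit 8) (.nd (nat_lit 9) 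
(.lf (nat_lit 505033) (.g (nat_lit 408) (.e (nat_lit 164305) (nat_lit 226) (.e (nat_lit 2612) (nat_lit 163) (.e (nat_lit 163964) (nat_lit 25) .nil))) (.g (nat_lit 0) (.e (nat_lit 180418) (nat_lit 0) .nil) .nil))) 
(.lf (nat_lit 505545) (.g (nat_lit 1748) (.e (nat_lit 164326) (nat_lit 230) (.e (nat_lit 163868) (nat_lit 2) (.e (nat_lit 196618) (nat_lit 9) (.e (nat_lit 457) (nat_lit 34) (.e (nat_lit 450304) (nat_lit 18) (.e (nat_lit 393253) (nat_lit 18) .nil)))))) (.g (nat_lit 1) (.e (nat_lit 182045) (nat_lit 0) .nil) .nil)))) (.nd (nat_lit 9) 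
(.lf (nat_lit 505289) (.g (nat_lit 1880) (.e (nat_lit 164325) (nat_lit 230) (.e (nat_lit 163868) (nat_lit 2) (.e (nat_lit 196656) (nat_lit 11) (.e (nat_lit 16436) (nat_lit 9) (.e (nat_lit 426481) (nat_lit 27) .nil))))) (.g (nat_lit 0) (.e (nat_lit 181301) (nat_lit 0) .nil) .nil))) 
(.lf (nat_lit 505801) (.g (nat_lit 2193) (.e (nat_lit 164327) (nat_lit 230) (.e (nat_lit 163868) (nat_lit 2) (.e (nat_lit 196654) (nat_lit 11) (.e (nat_lit 16466) (nat_lit 13) (.e (nat_lit 483341) (nat_lit 9) (.e (nat_lit 433920) (nat_lit 1) .nil)))))) (.g (nat_lit 1) (.e (nat_lit 182539) (nat_lit 0) .nil) .nil))))))) (.nd (nat_lit 6) (.nd (nat_lit 7) (.nd (nat_lit 8) (.nd (nat_lit 9) 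
(.lf (nat_lit 504873) (.g (nat_lit 3364) (.e (nat_lit 164214) (nat_lit 176) (.e (nat_lit 2797) (nat_lit 180) (.e (nat_lit 303119) (nat_lit 3) (.e (nat_lit 204870) (nat_lit 29) (.e (nat_lit 368384) (nat_lit 1) .nil))))) (.g (nat_lit 0) (.e (nat_lit 179382) (nat_lit 0) .nil) .nil))) 
(.lf (nat_lit 505385) (.g (nat_lit 3932) (.e (nat_lit 164325) (nat_lit 230) (.e (nat_lit 163873) (nat_lit 3) (.e (nat_lit 204813) (nat_lit 9) (.e (nat_lit 426204) (nat_lit 9) (.e (nat_lit 426526) (nat_lit 27) .nil))))) (.g (nat_lit 0) (.e (nat_lit 181444) (nat_lit 0) .nil) .nil)))) (.nd (nat_lit 9) 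
(.lf (nat_lit 505129) (.g (nat_lit 4182) (.e (nat_lit 164322) (nat_lit 230) (.e (nat_lit 163904) (nat_lit 12) (.e (nat_lit 426566) (nat_lit 34) (.e (nat_lit 393296) (nat_lit 26) (.e (nat_lit 475178) (nat_lit 24) .nil))))) (.g (nat_lit 0) (.e (nat_lit 180796) (nat_lit 0) .nil) .nil))) 
(.lf (nat_lit 505641) (.g (nat_lit 1398) (.e (nat_lit 164326) (nat_lit 230) (.e (nat_lit 163871) (nat_lit 2) (.e (nat_lit 196656) (nat_lit 11) (.e (nat_lit 16444) (nat_lit 9) .nil)))) (.g (nat_lit 0) (.e (nat_lit 182193) (nat_lit 0) .nil) .nil))))) (.nd (nat_lit 8) (.nd (nat_lit 9) 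
(.lf (nat_lit 505001) (.g (nat_lit 2303) (.e (nat_lit 164291) (nat_lit 224) (.e (nat_lit 164096) (nat_lit 86) (.e (nat_lit 532583) (nat_lit 26) (.e (nat_lit 426188) (nat_lit 9) (.e (nat_lit 426562) (nat_lit 33) (.e (nat_lit 385041) (nat_lit 19) .nil)))))) (.g (nat_lit 1) (.e (nat_lit 180186) (nat_lit 0) .nil) .nil))) 
(.lf (nat_lit 505513) (.g (nat_lit 2138) (.e (nat_lit 164325) (nat_lit 230) (.e (nat_lit 163941) (nat_lit 19) (.e (nat_lit 483341) (nat_lit 9) (.e (nat_lit 426198) (nat_lit 9) (.e (nat_lit 433920) (nat_lit 18) (.e (nat_lit 98335) (nat_lit 18) .nil)))))) (.g (nat_lit 1) (.e (nat_lit 181940) (nat_lit 0) .nil) .nil)))) (.nd (nat_lit 9) 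
(.lf (nat_lit 505257) (.g (nat_lit 2932) (.e (nat_lit 164325) (nat_lit 230) (.e (nat_lit 163866) (nat_lit 2) (.e (nat_lit 196654) (nat_lit 11) (.e (nat_lit 16463) (nat_lit 13) (.e (nat_lit 483336) (nat_lit 9) (.e (nat_lit 426098) (nat_lit 1) .nil)))))) (.g (nat_lit 1) (.e (nat_lit 181247) (nat_lit 0) .nil) .nil))) 
(.lf (nat_lit 505769) (.g (nat_lit 598) (.e (nat_lit 164326) (nat_lit 230) (.e (nat_lit 163944) (nat_lit 19) (.e (nat_lit 483341) (nat_lit 9) .nil))) (.g (nat_lit 0) (.e (nat_lit 182473) (nat_lit 0) .nil) .nil)))))) (.nd (nat_lit 7) (.nd (nat_lit 8) (.nd (nat_lit 9) 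
(.lf (nat_lit 504937) (.g (nat_lit 3198) (.e (nat_lit 171776) (nat_lit 187) (.e (nat_lit 1635) (nat_lit 114) (.e (nat_lit 385074) (nat_lit 31) (.e (nat_lit 573482) (nat_lit 13) (.e (nat_lit 65604) (nat_lit 9) .nil))))) (.g (nat_lit 0) (.e (nat_lit 179669) (nat_lit 0) .nil) .nil))) 
(.lf (nat_lit 505449) (.g (nat_lit 2175) (.e (nat_lit 164325) (nat_lit 230) (.e (nat_lit 163904) (nat_lit 12) (.e (nat_lit 426566) (nat_lit 34) (.e (nat_lit 393233) (nat_lit 17) (.e (nat_lit 7376) (nat_lit 389) .nil))))) (.g (nat_lit 0) (.e (nat_lit 181573) (nat_lit 0) .nil) .nil)))) (.nd (nat_lit 9) 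
(.lf (nat_lit 505193) (.g (nat_lit 2257) (.e (nat_lit 164324) (nat_lit 230) (.e (nat_lit 163871) (nat_lit 2) (.e (nat_lit 196654) (nat_lit 11) (.e (nat_lit 16463) (nat_lit 13) (.e (nat_lit 483337) (nat_lit 9) .nil))))) (.g (nat_lit 0) (.e (nat_lit 180969) (nat_lit 0) .nil) .nil))) 
(.lf (nat_lit 505705) (.g (nat_lit 2493) (.e (nat_lit 164326) (nat_lit 230) (.e (nat_lit 163902) (nat_lit 12) (.e (nat_lit 426566) (nat_lit 34) (.e (nat_lit 393291) (nat_lit 26) .nil)))) (.g (nat_lit 0) (.e (nat_lit 182297) (nat_lit 0) .nil) .nil))))) (.nd (nat_lit 8) (.nd (nat_lit 9) 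
(.lf (nat_lit 505065) (.g (nat_lit 2307) (.e (nat_lit 164322) (nat_lit 230) (.e (nat_lit 163868) (nat_lit 2) (.e (nat_lit 196656) (nat_lit 11) (.e (nat_lit 16436) (nat_lit 9) (.e (nat_lit 426566) (nat_lit 34) .nil))))) (.g (nat_lit 0) (.e (nat_lit 180706) (nat_lit 0) .nil) .nil))) 
(.lf (nat_lit 505577) (.g (nat_lit 1861) (.e (nat_lit 164326) (nat_lit 230) (.e (nat_lit 163868) (nat_lit 2) (.e (nat_lit 196656) (nat_lit 11) (.e (nat_lit 16433) (nat_lit 9) (.e (nat_lit 426568) (nat_lit 34) .nil))))) (.g (nat_lit 0) (.e (nat_lit 182096) (nat_lit 0) .nil) .nil)))) (.nd (nat_lit 9) 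
(.lf (nat_lit 505321) (.g (nat_lit 2179) (.e (nat_lit 164325) (nat_lit 230) (.e (nat_lit 163869) (nat_lit 2) (.e (nat_lit 196656) (nat_lit 11) (.e (nat_lit 16466) (nat_lit 13) (.e (nat_lit 483337) (nat_lit 9) .nil))))) (.g (nat_lit 0) (.e (nat_lit 181344) (nat_lit 0) .nil) .nil))) 
(.lf (nat_lit 505833) (.g (nat_lit 365) (.e (nat_lit 164327) (nat_lit 230) (.e (nat_lit 163871) (nat_lit 2) (.e (nat_lit 196653) (nat_lit 11) .nil))) (.g (nat_lit 0) (.e (nat_lit 182595) (nat_lit 0) .nil) .nil)))))))) (.nd (nat_lit 5) (.nd (nat_lit 6) (.nd (nat_lit 7) (.nd (nat_lit 8) (.nd (nat_lit 9) 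
(.lf (nat_lit 504857) (.g (nat_lit 3972) (.e (nat_lit 164212) (nat_lit 176) (.e (nat_lit 2797) (nat_lit 180) (.e (nat_lit 303119) (nat_lit 3) (.e (nat_lit 204868) (nat_lit 29) (.e (nat_lit 360459) (nat_lit 1) .nil))))) (.g (nat_lit 0) (.e (nat_lit 179353) (nat_lit 0) .nil) .nil))) 
(.lf (nat_lit 505369) (.g (nat_lit 3198) (.e (nat_lit 164325) (nat_lit 230) (.e (nat_lit 163873) (nat_lit 3) (.e (nat_lit 204813) (nat_lit 9) (.e (nat_lit 426186) (nat_lit 9) .nil)))) (.g (nat_lit 0) (.e (nat_lit 181427) (nat_lit 0) .nil) .nil)))) (.nd (nat_lit 9) 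
(.lf (nat_lit 505113) (.g (nat_lit 2069) (.e (nat_lit 164322) (nat_lit 230) (.e (nat_lit 163902) (nat_lit 12) (.e (nat_lit 426566) (nat_lit 34) (.e (nat_lit 393271) (nat_lit 23) (.e (nat_lit 426438) (nat_lit 18) .nil))))) (.g (nat_lit 0) (.e (nat_lit 180780) (nat_lit 0) .nil) .nil))) 
(.lf (nat_lit 505625) (.g (nat_lit 1709) (.e (nat_lit 164326) (nat_lit 230) (.e (nat_lit 163871) (nat_lit 2) (.e (nat_lit 196652) (nat_lit 11) (.e (nat_lit 16433) (nat_lit 9) (.e (nat_lit 426566) (nat_lit 34) .nil))))) (.g (nat_lit 0) (.e (nat_lit 182167) (nat_lit 0) .nil) .nil))))) (.nd (nat_lit 8) (.nd (nat_lit 9) 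
(.lf (nat_lit 504985) (.g (nat_lit 155) (.e (nat_lit 164284) (nat_lit 224) (.e (nat_lit 164112) (nat_lit 118) (.e (nat_lit 794635) (nat_lit 11) .nil))) (.g (nat_lit 0) (.e (nat_lit 180037) (nat_lit 0) .nil) .nil))) 
(.lf (nat_lit 505497) (.g (nat_lit 1828) (.e (nat_lit 164325) (nat_lit 230) (.e (nat_lit 163907) (nat_lit 12) (.e (nat_lit 426568) (nat_lit 34) (.e (nat_lit 393272) (nat_lit 23) (.e (nat_lit 426438) (nat_lit 18) .nil))))) (.g (nat_lit 0) (.e (nat_lit 181685) (nat_lit 0) .nil) .nil)))) (.nd (nat_lit 9) 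
(.lf (nat_lit 505241) (.g (nat_lit 275) (.e (nat_lit 164324) (nat_lit 230) (.e (nat_lit 163941) (nat_lit 19) (.e (nat_lit 483341) (nat_lit 9) .nil))) (.g (nat_lit 0) (.e (nat_lit 181067) (nat_lit 0) .nil) .nil))) 
(.lf (nat_lit 505753) (.g (nat_lit 3744) (.e (nat_lit 164326) (nat_lit 230) (.e (nat_lit 163941) (nat_lit 19) (.e (nat_lit 483341) (nat_lit 9) (.e (nat_lit 426009) (nat_lit 0) .nil)))) (.g (nat_lit 0) (.e (nat_lit 182441) (nat_lit 0) .nil) .nil)))))) (.nd (nat_lit 7) (.nd (nat_lit 8) (.nd (nat_lit 9) 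
(.lf (nat_lit 504921) (.g (nat_lit 1117) (.e (nat_lit 164252) (nat_lit 209) (.e (nat_lit 2551) (nat_lit 159) (.e (nat_lit 24604) (nat_lit 2) (.e (nat_lit 90185) (nat_lit 17) .nil)))) (.g (nat_lit 0) (.e (nat_lit 179641) (nat_lit 0) .nil) .nil))) 
(.lf (nat_lit 505433) (.g (nat_lit 2784) (.e (nat_lit 164325) (nat_lit 230) (.e (nat_lit 163903) (nat_lit 12) (.e (nat_lit 426472) (nat_lit 25) (.e (nat_lit 319534) (nat_lit 16) (.e (nat_lit 286749) (nat_lit 9) (.e (nat_lit 335997) (nat_lit 1) (.e (nat_lit 57691) (nat_lit 156) (.e (nat_lit 163863) (nat_lit 1) .nil)))))))) (.g (nat_lit 1) (.e (nat_lit 181547) (nat_lit 0) .nil) .nil)))) 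
(.nd (nat_lit 9) 
(.lf (nat_lit 505177) (.g (nat_lit 3399) (.e (nat_lit 164324) (nat_lit 230) (.e (nat_lit 163868) (nat_lit 2) (.e (nat_lit 196654) (nat_lit 11) (.e (nat_lit 16466) (nat_lit 13) (.e (nat_lit 483341) (nat_lit 9) (.e (nat_lit 426107) (nat_lit 1) .nil)))))) (.g (nat_lit 1) (.e (nat_lit 180950) (nat_lit 0) .nil) .nil))) 
(.lf (nat_lit 505689) (.g (nat_lit 2827) (.e (nat_lit 164326) (nat_lit 230) (.e (nat_lit 163881) (nat_lit 4) (.e (nat_lit 213032) (nat_lit 11) (.e (nat_lit 24657) (nat_lit 13) (.e (nat_lit 393271) (nat_lit 23) (.e (nat_lit 426112) (nat_lit 1) .nil)))))) (.g (nat_lit 1) (.e (nat_lit 182273) (nat_lit 0) .nil) .nil))))) (.nd (nat_lit 8) (.nd (nat_lit 9) 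
(.lf (nat_lit 505049) (.g (nat_lit 777) (.e (nat_lit 164322) (nat_lit 230) (.e (nat_lit 163867) (nat_lit 2) (.e (nat_lit 196622) (nat_lit 9) (.e (nat_lit 478) (nat_lit 37) .nil)))) (.g (nat_lit 0) (.e (nat_lit 180680) (nat_lit 0) .nil) .nil))) 
(.lf (nat_lit 505561) (.g (nat_lit 1287) (.e (nat_lit 164326) (nat_lit 230) (.e (nat_lit 163868) (nat_lit 2) (.e (nat_lit 196641) (nat_lit 9) .nil))) (.g (nat_lit 0) (.e (nat_lit 182070) (nat_lit 0) .nil) .nil)))) (.nd (nat_lit 9) 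
(.lf (nat_lit 505305) (.g (nat_lit 1422) (.e (nat_lit 164325) (nat_lit 230) (.e (nat_lit 163869) (nat_lit 2) (.e (nat_lit 196622) (nat_lit 9) (.e (nat_lit 478) (nat_lit 37) .nil)))) (.g (nat_lit 0) (.e (nat_lit 181324) (nat_lit 0) .nil) .nil))) 
(.lf (nat_lit 505817) (.g (nat_lit 2545) (.e (nat_lit 164327) (nat_lit 230) (.e (nat_lit 163868) (nat_lit 2) (.e (nat_lit 196656) (nat_lit 11) (.e (nat_lit 16466) (nat_lit 13) (.e (nat_lit 491264) (nat_lit 9) (.e (nat_lit 426112) (nat_lit 1) .nil)))))) (.g (nat_lit 1) (.e (nat_lit 182571) (nat_lit 0) .nil) .nil))))))) (.nd (nat_lit 6) (.nd (nat_lit 7) (.nd (nat_lit 8) (.nd (nat_lit 9) 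
(.lf (nat_lit 504889) (.g (nat_lit 2033) (.e (nat_lit 171776) (nat_lit 176) (.e (nat_lit 2797) (nat_lit 180) (.e (nat_lit 303119) (nat_lit 3) (.e (nat_lit 204878) (nat_lit 31) (.e (nat_lit 376862) (nat_lit 22) .nil))))) (.g (nat_lit 0) (.e (nat_lit 179403) (nat_lit 0) .nil) .nil))) 
(.lf (nat_lit 505401) (.g (nat_lit 983) (.e (nat_lit 164325) (nat_lit 230) (.e (nat_lit 163875) (nat_lit 3) (.e (nat_lit 204813) (nat_lit 9) (.e (nat_lit 426200) (nat_lit 9) .nil)))) (.g (nat_lit 0) (.e (nat_lit 181487) (nat_lit 0) .nil) .nil)))) (.nd (nat_lit 9) 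
(.lf (nat_lit 505145) (.g (nat_lit 1696) (.e (nat_lit 164323) (nat_lit 230) (.e (nat_lit 163867) (nat_lit 2) (.e (nat_lit 196656) (nat_lit 11) (.e (nat_lit 16463) (nat_lit 13) .nil)))) (.g (nat_lit 0) (.e (nat_lit 180902) (nat_lit 0) .nil) .nil))) 
(.lf (nat_lit 505657) (.g (nat_lit 2912) (.e (nat_lit 164326) (nat_lit 230) (.e (nat_lit 163873) (nat_lit 3) (.e (nat_lit 204813) (nat_lit 9) (.e (nat_lit 426199) (nat_lit 9) .nil)))) (.g (nat_lit 0) (.e (nat_lit 182229) (nat_lit 0) .nil) .nil))))) (.nd (nat_lit 8) (.nd (nat_lit 9) 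
(.lf (nat_lit 505017) (.g (nat_lit 1003) (.e (nat_lit 164294) (nat_lit 224) (.e (nat_lit 164092) (nat_lit 82) (.e (nat_lit 500046) (nat_lit 16) (.e (nat_lit 16465) (nat_lit 13) (.e (nat_lit 491264) (nat_lit 0) .nil))))) (.g (nat_lit 0) (.e (nat_lit 180296) (nat_lit 0) .nil) .nil))) 
(.lf (nat_lit 505529) (.g (nat_lit 1808) (.e (nat_lit 164325) (nat_lit 230) (.e (nat_lit 163943) (nat_lit 19) (.e (nat_lit 483341) (nat_lit 9) (.e (nat_lit 426197) (nat_lit 9) .nil)))) (.g (nat_lit 0) (.e (nat_lit 181982) (nat_lit 0) .nil) .nil)))) (.nd (nat_lit 9) 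
(.lf (nat_lit 505273) (.g (nat_lit 1239) (.e (nat_lit 164325) (nat_lit 230) (.e (nat_lit 163868) (nat_lit 2) (.e (nat_lit 196624) (nat_lit 9) (.e (nat_lit 433) (nat_lit 32) .nil)))) (.g (nat_lit 0) (.e (nat_lit 181273) (nat_lit 0) .nil) .nil))) 
(.lf (nat_lit 505785) (.g (nat_lit 2515) (.e (nat_lit 164327) (nat_lit 230) (.e (nat_lit 163868) (nat_lit 2) (.e (nat_lit 196654) (nat_lit 11) (.e (nat_lit 16416) (nat_lit 3) (.e (nat_lit 204834) (nat_lit 19) (.e (nat_lit 106517) (nat_lit 9) (.e (nat_lit 1252) (nat_lit 92) (.e (nat_lit 98333) (nat_lit 18) .nil)))))))) (.g (nat_lit 1) (.e (nat_lit 182515) (nat_lit 0) .nil) .nil)))))) 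
(.nd (nat_lit 7) (.nd (nat_lit 8) (.nd (nat_lit 9) 
(.lf (nat_lit 504953) (.g (nat_lit 1414) (.e (nat_lit 171776) (nat_lit 192) (.e (nat_lit 73746) (nat_lit 3) (.e (nat_lit 516138) (nat_lit 7) (.e (nat_lit 409641) (nat_lit 17) .nil)))) (.g (nat_lit 0) (.e (nat_lit 179696) (nat_lit 0) .nil) .nil))) 
(.lf (nat_lit 505465) (.g (nat_lit 2049) (.e (nat_lit 164325) (nat_lit 230) (.e (nat_lit 163905) (nat_lit 12) (.e (nat_lit 426530) (nat_lit 27) (.e (nat_lit 336390) (nat_lit 27) (.e (nat_lit 426308) (nat_lit 12) .nil))))) (.g (nat_lit 0) (.e (nat_lit 181602) (nat_lit 0) .nil) .nil)))) (.nd (nat_lit 9) 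
(.lf (nat_lit 505209) (.g (nat_lit 2679) (.e (nat_lit 164324) (nat_lit 230) (.e (nat_lit 163873) (nat_lit 3) (.e (nat_lit 204813) (nat_lit 9) (.e (nat_lit 433920) (nat_lit 9) .nil)))) (.g (nat_lit 0) (.e (nat_lit 180985) (nat_lit 0) .nil) .nil))) 
(.lf (nat_lit 505721) (.g (nat_lit 2022) (.e (nat_lit 164326) (nat_lit 230) (.e (nat_lit 163903) (nat_lit 12) (.e (nat_lit 426479) (nat_lit 27) (.e (nat_lit 336443) (nat_lit 32) (.e (nat_lit 466946) (nat_lit 0) .nil))))) (.g (nat_lit 0) (.e (nat_lit 182333) (nat_lit 0) .nil) .nil))))) (.nd (nat_lit 8) (.nd (nat_lit 9) 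
(.lf (nat_lit 505081) (.g (nat_lit 3710) (.e (nat_lit 164322) (nat_lit 230) (.e (nat_lit 163871) (nat_lit 2) (.e (nat_lit 196656) (nat_lit 11) (.e (nat_lit 16463) (nat_lit 13) (.e (nat_lit 483341) (nat_lit 9) (.e (nat_lit 426106) (nat_lit 1) .nil)))))) (.g (nat_lit 1) (.e (nat_lit 180725) (nat_lit 0) .nil) .nil))) 
(.lf (nat_lit 505593) (.g (nat_lit 650) (.e (nat_lit 164326) (nat_lit 230) (.e (nat_lit 163870) (nat_lit 2) (.e (nat_lit 196623) (nat_lit 9) .nil))) (.g (nat_lit 0) (.e (nat_lit 182120) (nat_lit 0) .nil) .nil)))) (.nd (nat_lit 9) 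
(.lf (nat_lit 505337) (.g (nat_lit 1340) (.e (nat_lit 164325) (nat_lit 230) (.e (nat_lit 163871) (nat_lit 2) (.e (nat_lit 196656) (nat_lit 11) (.e (nat_lit 16392) (nat_lit 0) .nil)))) (.g (nat_lit 0) (.e (nat_lit 181369) (nat_lit 0) .nil) .nil))) 
(.lf (nat_lit 505849) (.g (nat_lit 2023) (.e (nat_lit 164327) (nat_lit 230) (.e (nat_lit 163871) (nat_lit 2) (.e (nat_lit 196654) (nat_lit 11) (.e (nat_lit 16436) (nat_lit 9) (.e (nat_lit 426484) (nat_lit 27) .nil))))) (.g (nat_lit 0) (.e (nat_lit 182615) (nat_lit 0) .nil) .nil)))))))))) 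
(.nd (nat_lit 3) (.nd (nat_lit 4) (.nd (nat_lit 5) (.nd (nat_lit 6) (.nd (nat_lit 7) 
(.nd (nat_lit 8) (.nd (nat_lit 9) 
(.lf (nat_lit 504837) (.g (nat_lit 1746) (.e (nat_lit 164211) (nat_lit 176) (.e (nat_lit 2797) (nat_lit 180) (.e (nat_lit 303117) (nat_lit 2) (.e (nat_lit 196673) (nat_lit 15) .nil)))) (.g (nat_lit 0) (.e (nat_lit 179326) (nat_lit 0) .nil) .nil))) 
(.lf (nat_lit 505349) (.g (nat_lit 1769) (.e (nat_lit 164325) (nat_lit 230) (.e (nat_lit 163871) (nat_lit 2) (.e (nat_lit 196656) (nat_lit 11) (.e (nat_lit 16439) (nat_lit 9) .nil)))) (.g (nat_lit 0) (.e (nat_lit 181384) (nat_lit 0) .nil) .nil)))) (.nd (nat_lit 9) 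
(.lf (nat_lit 505093) (.g (nat_lit 3052) (.e (nat_lit 164322) (nat_lit 230) (.e (nat_lit 163873) (nat_lit 3) (.e (nat_lit 204813) (nat_lit 9) (.e (nat_lit 426198) (nat_lit 9) (.e (nat_lit 426568) (nat_lit 34) .nil))))) (.g (nat_lit 0) (.e (nat_lit 180744) (nat_lit 0) .nil) .nil))) 
(.lf (nat_lit 505605) (.g (nat_lit 989) (.e (nat_lit 164326) (nat_lit 230) (.e (nat_lit 163871) (nat_lit 2) (.e (nat_lit 196617) (nat_lit 9) .nil))) (.g (nat_lit 0) (.e (nat_lit 182137) (nat_lit 0) .nil) .nil))))) (.nd (nat_lit 8) (.nd (nat_lit 9) 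
(.lf (nat_lit 504965) (.g (nat_lit 2816) (.e (nat_lit 171776) (nat_lit 192) (.e (nat_lit 73753) (nat_lit 8) (.e (nat_lit 557087) (nat_lit 11) (.e (nat_lit 24641) (nat_lit 10) (.e (nat_lit 344110) (nat_lit 19) .nil))))) (.g (nat_lit 0) (.e (nat_lit 179709) (nat_lit 0) .nil) .nil))) 
(.lf (nat_lit 505477) (.g (nat_lit 1497) (.e (nat_lit 164325) (nat_lit 230) (.e (nat_lit 163907) (nat_lit 12) (.e (nat_lit 426428) (nat_lit 17) (.e (nat_lit 90170) (nat_lit 13) (.e (nat_lit 172113) (nat_lit 10) .nil))))) (.g (nat_lit 0) (.e (nat_lit 181654) (nat_lit 0) .nil) .nil)))) (.nd (nat_lit 9) 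
(.lf (nat_lit 505221) (.g (nat_lit 3527) (.e (nat_lit 164324) (nat_lit 230) (.e (nat_lit 163902) (nat_lit 12) (.e (nat_lit 426566) (nat_lit 34) (.e (nat_lit 393291) (nat_lit 26) (.e (nat_lit 475177) (nat_lit 24) (.e (nat_lit 516119) (nat_lit 1) .nil)))))) (.g (nat_lit 1) (.e (nat_lit 181006) (nat_lit 0) .nil) .nil))) 
(.lf (nat_lit 505733) (.g (nat_lit 4125) (.e (nat_lit 164326) (nat_lit 230) (.e (nat_lit 163903) (nat_lit 12) (.e (nat_lit 426566) (nat_lit 34) (.e (nat_lit 393294) (nat_lit 26) (.e (nat_lit 475179) (nat_lit 24) (.e (nat_lit 516119) (nat_lit 1) .nil)))))) (.g (nat_lit 1) (.e (nat_lit 182351) (nat_lit 0) .nil) .nil)))))) (.nd (nat_lit 7) (.nd (nat_lit 8) (.nd (nat_lit 9) 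
(.lf (nat_lit 504901) (.g (nat_lit 2225) (.e (nat_lit 171776) (nat_lit 176) (.e (nat_lit 2802) (nat_lit 180) (.e (nat_lit 303117) (nat_lit 2) (.e (nat_lit 196672) (nat_lit 15) (.e (nat_lit 81951) (nat_lit 22) .nil))))) (.g (nat_lit 0) (.e (nat_lit 179433) (nat_lit 0) .nil) .nil))) 
(.lf (nat_lit 505413) (.g (nat_lit 3086) (.e (nat_lit 164325) (nat_lit 230) (.e (nat_lit 163882) (nat_lit 4) (.e (nat_lit 213031) (nat_lit 11) (.e (nat_lit 24628) (nat_lit 9) (.e (nat_lit 336443) (nat_lit 32) (.e (nat_lit 466971) (nat_lit 21) .nil)))))) (.g (nat_lit 1) (.e (nat_lit 181501) (nat_lit 0) .nil) .nil)))) (.nd (nat_lit 9) 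
(.lf (nat_lit 505157) (.g (nat_lit 1779) (.e (nat_lit 164323) (nat_lit 230) (.e (nat_lit 163871) (nat_lit 2) (.e (nat_lit 196656) (nat_lit 11) (.e (nat_lit 16466) (nat_lit 13) .nil)))) (.g (nat_lit 0) (.e (nat_lit 180914) (nat_lit 0) .nil) .nil))) 
(.lf (nat_lit 505669) (.g (nat_lit 660) (.e (nat_lit 164326) (nat_lit 230) (.e (nat_lit 163874) (nat_lit 3) (.e (nat_lit 212736) (nat_lit 11) .nil))) (.g (nat_lit 0) (.e (nat_lit 182251) (nat_lit 0) .nil) .nil))))) (.nd (nat_lit 8) (.nd (nat_lit 9) 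
(.lf (nat_lit 505029) (.g (nat_lit 333) (.e (nat_lit 164304) (nat_lit 226) (.e (nat_lit 2612) (nat_lit 163) (.e (nat_lit 163964) (nat_lit 25) .nil))) (.g (nat_lit 0) (.e (nat_lit 180353) (nat_lit 0) .nil) .nil))) 
(.lf (nat_lit 505541) (.g (nat_lit 776) (.e (nat_lit 164326) (nat_lit 230) (.e (nat_lit 163867) (nat_lit 2) (.e (nat_lit 196656) (nat_lit 11) .nil))) (.g (nat_lit 0) (.e (nat_lit 182038) (nat_lit 0) .nil) .nil)))) (.nd (nat_lit 9) 
(.lf (nat_lit 505285) (.g (nat_lit 1619) (.e (nat_lit 164325) (nat_lit 230) (.e (nat_lit 163868) (nat_lit 2) (.e (nat_lit 196656) (nat_lit 11) (.e (nat_lit 16388) (nat_lit 0) .nil)))) (.g (nat_lit 0) (.e (nat_lit 181294) (nat_lit 0) .nil) .nil))) 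
(.lf (nat_lit 505797) (.g (nat_lit 1653) (.e (nat_lit 164327) (nat_lit 230) (.e (nat_lit 163868) (nat_lit 2) (.e (nat_lit 196654) (nat_lit 11) (.e (nat_lit 16463) (nat_lit 13) (.e (nat_lit 483339) (nat_lit 9) .nil))))) (.g (nat_lit 0) (.e (nat_lit 182533) (nat_lit 0) .nil) .nil))))))) (.nd (nat_lit 6) (.nd (nat_lit 7) (.nd (nat_lit 8) (.nd (nat_lit 9) 
(.lf (nat_lit 504869) (.g (nat_lit 2956) (.e (nat_lit 164214) (nat_lit 176) (.e (nat_lit 2797) (nat_lit 180) (.e (nat_lit 303119) (nat_lit 3) (.e (nat_lit 204855) (nat_lit 26) (.e (nat_lit 336073) (nat_lit 9) .nil))))) (.g (nat_lit 0) (.e (nat_lit 179376) (nat_lit 0) .nil) .nil))) 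
(.lf (nat_lit 505381) (.g (nat_lit 2702) (.e (nat_lit 164325) (nat_lit 230) (.e (nat_lit 163873) (nat_lit 3) (.e (nat_lit 204813) (nat_lit 9) (.e (nat_lit 426199) (nat_lit 9) (.e (nat_lit 426568) (nat_lit 34) .nil))))) (.g (nat_lit 0) (.e (nat_lit 181440) (nat_lit 0) .nil) .nil)))) (.nd (nat_lit 9) 
(.lf (nat_lit 505125) (.g (nat_lit 2664) (.e (nat_lit 164322) (nat_lit 230) (.e (nat_lit 163902) (nat_lit 12) (.e (nat_lit 426568) (nat_lit 34) (.e (nat_lit 393291) (nat_lit 26) (.e (nat_lit 475177) (nat_lit 24) (.e (nat_lit 516118) (nat_lit 1) .nil)))))) (.g (nat_lit 1) (.e (nat_lit 180792) (nat_lit 0) .nil) .nil))) 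
(.lf (nat_lit 505637) (.g (nat_lit 2025) (.e (nat_lit 164326) (nat_lit 230) (.e (nat_lit 163871) (nat_lit 2) (.e (nat_lit 196656) (nat_lit 11) (.e (nat_lit 16436) (nat_lit 9) (.e (nat_lit 426568) (nat_lit 34) .nil))))) (.g (nat_lit 0) (.e (nat_lit 182189) (nat_lit 0) .nil) .nil))))) (.nd (nat_lit 8) (.nd (nat_lit 9) 
(.lf (nat_lit 504997) (.g (nat_lit 1836) (.e (nat_lit 164289) (nat_lit 224) (.e (nat_lit 164104) (nat_lit 116) (.e (nat_lit 778462) (nat_lit 11) (.e (nat_lit 24628) (nat_lit 9) (.e (nat_lit 336438) (nat_lit 31) (.e (nat_lit 458769) (nat_lit 16) .nil)))))) (.g (nat_lit 1) (.e (nat_lit 180149) (nat_lit 0) .nil) .nil))) 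
(.lf (nat_lit 505509) (.g (nat_lit 1945) (.e (nat_lit 164325) (nat_lit 230) (.e (nat_lit 163941) (nat_lit 19) (.e (nat_lit 483341) (nat_lit 9) (.e (nat_lit 426185) (nat_lit 9) .nil)))) (.g (nat_lit 0) (.e (nat_lit 181931) (nat_lit 0) .nil) .nil)))) (.nd (nat_lit 9) 
(.lf (nat_lit 505253) (.g (nat_lit 194) (.e (nat_lit 164325) (nat_lit 230) (.e (nat_lit 163861) (nat_lit 1) (.e (nat_lit 164332) (nat_lit 230) .nil))) (.g (nat_lit 0) (.e (nat_lit 181172) (nat_lit 0) .nil) .nil))) 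
(.lf (nat_lit 505765) (.g (nat_lit 1747) (.e (nat_lit 164326) (nat_lit 230) (.e (nat_lit 163941) (nat_lit 19) (.e (nat_lit 483341) (nat_lit 9) (.e (nat_lit 426314) (nat_lit 12) .nil)))) (.g (nat_lit 0) (.e (nat_lit 182461) (nat_lit 0) .nil) .nil)))))) (.nd (nat_lit 7) (.nd (nat_lit 8) (.nd (nat_lit 9) 
(.lf (nat_lit 504933) (.g (nat_lit 2808) (.e (nat_lit 171776) (nat_lit 187) (.e (nat_lit 1454) (nat_lit 108) (.e (nat_lit 336295) (nat_lit 15) (.e (nat_lit 3305) (nat_lit 202) (.e (nat_lit 573482) (nat_lit 13) .nil))))) (.g (nat_lit 0) (.e (nat_lit 179660) (nat_lit 0) .nil) .nil))) 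
(.lf (nat_lit 505445) (.g (nat_lit 4230) (.e (nat_lit 164325) (nat_lit 230) (.e (nat_lit 163903) (nat_lit 12) (.e (nat_lit 426566) (nat_lit 34) (.e (nat_lit 393296) (nat_lit 26) (.e (nat_lit 475179) (nat_lit 24) (.e (nat_lit 516119) (nat_lit 1) .nil)))))) (.g (nat_lit 1) (.e (nat_lit 181569) (nat_lit 0) .nil) .nil)))) (.nd (nat_lit 9) 
(.lf (nat_lit 505189) (.g (nat_lit 2310) (.e (nat_lit 164324) (nat_lit 230) (.e (nat_lit 163869) (nat_lit 2) (.e (nat_lit 196656) (nat_lit 11) (.e (nat_lit 16434) (nat_lit 9) (.e (nat_lit 426566) (nat_lit 34) .nil))))) (.g (nat_lit 0) (.e (nat_lit 180964) (nat_lit 0) .nil) .nil))) 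
(.lf (nat_lit 505701) (.g (nat_lit 2663) (.e (nat_lit 164326) (nat_lit 230) (.e (nat_lit 163902) (nat_lit 12) (.e (nat_lit 426566) (nat_lit 34) (.e (nat_lit 393268) (nat_lit 23) .nil)))) (.g (nat_lit 0) (.e (nat_lit 182293) (nat_lit 0) .nil) .nil))))) (.nd (nat_lit 8) (.nd (nat_lit 9) 
(.lf (nat_lit 505061) (.g (nat_lit 2191) (.e (nat_lit 164322) (nat_lit 230) (.e (nat_lit 163867) (nat_lit 2) (.e (nat_lit 196656) (nat_lit 11) (.e (nat_lit 16466) (nat_lit 13) (.e (nat_lit 483340) (nat_lit 9) .nil))))) (.g (nat_lit 0) (.e (nat_lit 180699) (nat_lit 0) .nil) .nil))) 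
(.lf (nat_lit 505573) (.g (nat_lit 1888) (.e (nat_lit 164326) (nat_lit 230) (.e (nat_lit 163868) (nat_lit 2) (.e (nat_lit 196656) (nat_lit 11) (.e (nat_lit 16392) (nat_lit 0) .nil)))) (.g (nat_lit 0) (.e (nat_lit 182088) (nat_lit 0) .nil) .nil)))) (.nd (nat_lit 9) 
(.lf (nat_lit 505317) (.g (nat_lit 2280) (.e (nat_lit 164325) (nat_lit 230) (.e (nat_lit 163869) (nat_lit 2) (.e (nat_lit 196656) (nat_lit 11) (.e (nat_lit 16431) (nat_lit 9) (.e (nat_lit 426566) (nat_lit 34) .nil))))) (.g (nat_lit 0) (.e (nat_lit 181339) (nat_lit 0) .nil) .nil))) 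
(.lf (nat_lit 505829) (.g (nat_lit 664) (.e (nat_lit 164327) (nat_lit 230) (.e (nat_lit 163871) (nat_lit 2) (.e (nat_lit 196618) (nat_lit 9) .nil))) (.g (nat_lit 0) (.e (nat_lit 182585) (nat_lit 0) .nil) .nil)))))))) (.nd (nat_lit 5) (.nd (nat_lit 6) (.nd (nat_lit 7) (.nd (nat_lit 8) (.nd (nat_lit 9) 
(.lf (nat_lit 504853) (.g (nat_lit 1771) (.e (nat_lit 164212) (nat_lit 176) (.e (nat_lit 2797) (nat_lit 180) (.e (nat_lit 303117) (nat_lit 2) (.e (nat_lit 196674) (nat_lit 15) .nil)))) (.g (nat_lit 0) (.e (nat_lit 179348) (nat_lit 0) .nil) .nil))) 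
(.lf (nat_lit 505365) (.g (nat_lit 4037) (.e (nat_lit 164325) (nat_lit 230) (.e (nat_lit 163873) (nat_lit 3) (.e (nat_lit 204813) (nat_lit 9) (.e (nat_lit 426137) (nat_lit 3) .nil)))) (.g (nat_lit 0) (.e (nat_lit 181420) (nat_lit 0) .nil) .nil)))) (.nd (nat_lit 9) 
(.lf (nat_lit 505109) (.g (nat_lit 1571) (.e (nat_lit 164322) (nat_lit 230) (.e (nat_lit 163885) (nat_lit 5) (.e (nat_lit 221194) (nat_lit 11) (.e (nat_lit 336087) (nat_lit 9) .nil)))) (.g (nat_lit 0) (.e (nat_lit 180775) (nat_lit 0) .nil) .nil))) 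
(.lf (nat_lit 505621) (.g (nat_lit 1416) (.e (nat_lit 164326) (nat_lit 230) (.e (nat_lit 163871) (nat_lit 2) (.e (nat_lit 196643) (nat_lit 9) .nil))) (.g (nat_lit 0) (.e (nat_lit 182162) (nat_lit 0) .nil) .nil))))) (.nd (nat_lit 8) (.nd (nat_lit 9) 
(.lf (nat_lit 504981) (.g (nat_lit 2723) (.e (nat_lit 164269) (nat_lit 221) (.e (nat_lit 2576) (nat_lit 161) (.e (nat_lit 40996) (nat_lit 11) (.e (nat_lit 24658) (nat_lit 13) (.e (nat_lit 393238) (nat_lit 17) (.e (nat_lit 7101) (nat_lit 380) .nil)))))) (.g (nat_lit 1) (.e (nat_lit 179997) (nat_lit 0) .nil) .nil))) 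
(.lf (nat_lit 505493) (.g (nat_lit 1317) (.e (nat_lit 164325) (nat_lit 230) (.e (nat_lit 163907) (nat_lit 12) (.e (nat_lit 426568) (nat_lit 34) (.e (nat_lit 393234) (nat_lit 17) .nil)))) (.g (nat_lit 0) (.e (nat_lit 181681) (nat_lit 0) .nil) .nil)))) (.nd (nat_lit 9) 
(.lf (nat_lit 505237) (.g (nat_lit 2995) (.e (nat_lit 164324) (nat_lit 230) (.e (nat_lit 163905) (nat_lit 12) (.e (nat_lit 426566) (nat_lit 34) (.e (nat_lit 393296) (nat_lit 26) (.e (nat_lit 475175) (nat_lit 24) .nil))))) (.g (nat_lit 0) (.e (nat_lit 181023) (nat_lit 0) .nil) .nil))) 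
(.lf (nat_lit 505749) (.g (nat_lit 3086) (.e (nat_lit 164326) (nat_lit 230) (.e (nat_lit 163904) (nat_lit 12) (.e (nat_lit 426566) (nat_lit 34) (.e (nat_lit 393273) (nat_lit 23) .nil)))) (.g (nat_lit 0) (.e (nat_lit 182369) (nat_lit 0) .nil) .nil)))))) (.nd (nat_lit 7) (.nd (nat_lit 8) (.nd (nat_lit 9) 
(.lf (nat_lit 504917) (.g (nat_lit 1435) (.e (nat_lit 171776) (nat_lit 203) (.e (nat_lit 24662) (nat_lit 14) (.e (nat_lit 401459) (nat_lit 13) (.e (nat_lit 483344) (nat_lit 17) .nil)))) (.g (nat_lit 0) (.e (nat_lit 179631) (nat_lit 0) .nil) .nil))) 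
(.lf (nat_lit 505429) (.g (nat_lit 4080) (.e (nat_lit 164325) (nat_lit 230) (.e (nat_lit 163903) (nat_lit 12) (.e (nat_lit 426438) (nat_lit 18) (.e (nat_lit 98373) (nat_lit 29) (.e (nat_lit 450562) (nat_lit 0) (.e (nat_lit 6839) (nat_lit 369) (.e (nat_lit 163862) (nat_lit 1) .nil))))))) (.g (nat_lit 1) (.e (nat_lit 181543) (nat_lit 0) .nil) .nil)))) (.nd (nat_lit 9) 
(.lf (nat_lit 505173) (.g (nat_lit 763) (.e (nat_lit 164324) (nat_lit 230) (.e (nat_lit 163867) (nat_lit 2) (.e (nat_lit 196656) (nat_lit 11) .nil))) (.g (nat_lit 0) (.e (nat_lit 180945) (nat_lit 0) .nil) .nil))) 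
(.lf (nat_lit 505685) (.g (nat_lit 468) (.e (nat_lit 164326) (nat_lit 230) (.e (nat_lit 163875) (nat_lit 3) (.e (nat_lit 212736) (nat_lit 9) .nil))) (.g (nat_lit 0) (.e (nat_lit 182269) (nat_lit 0) .nil) .nil))))) (.nd (nat_lit 8) (.nd (nat_lit 9) 
(.lf (nat_lit 505045) (.g (nat_lit 3138) (.e (nat_lit 164305) (nat_lit 226) (.e (nat_lit 2630) (nat_lit 164) (.e (nat_lit 172067) (nat_lit 3) (.e (nat_lit 204880) (nat_lit 32) (.e (nat_lit 385049) (nat_lit 21) .nil))))) (.g (nat_lit 0) (.e (nat_lit 180452) (nat_lit 0) .nil) .nil))) 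
(.lf (nat_lit 505557) (.g (nat_lit 861) (.e (nat_lit 164326) (nat_lit 230) (.e (nat_lit 163868) (nat_lit 2) (.e (nat_lit 196635) (nat_lit 9) .nil))) (.g (nat_lit 0) (.e (nat_lit 182066) (nat_lit 0) .nil) .nil)))) (.nd (nat_lit 9) 
(.lf (nat_lit 505301) (.g (nat_lit 2223) (.e (nat_lit 164325) (nat_lit 230) (.e (nat_lit 163868) (nat_lit 2) (.e (nat_lit 196656) (nat_lit 11) (.e (nat_lit 16466) (nat_lit 13) (.e (nat_lit 483336) (nat_lit 9) .nil))))) (.g (nat_lit 0) (.e (nat_lit 181320) (nat_lit 0) .nil) .nil))) 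
(.lf (nat_lit 505813) (.g (nat_lit 4219) (.e (nat_lit 164327) (nat_lit 230) (.e (nat_lit 163868) (nat_lit 2) (.e (nat_lit 196656) (nat_lit 11) (.e (nat_lit 16463) (nat_lit 13) (.e (nat_lit 483341) (nat_lit 9) (.e (nat_lit 426107) (nat_lit 1) .nil)))))) (.g (nat_lit 1) (.e (nat_lit 182566) (nat_lit 0) .nil) .nil))))))) (.nd (nat_lit 6) (.nd (nat_lit 7) (.nd (nat_lit 8) (.nd (nat_lit 9) 
(.lf (nat_lit 504885) (.g (nat_lit 1952) (.e (nat_lit 171776) (nat_lit 176) (.e (nat_lit 2797) (nat_lit 180) (.e (nat_lit 303119) (nat_lit 3) (.e (nat_lit 204867) (nat_lit 28) (.e (nat_lit 352312) (nat_lit 22) .nil))))) (.g (nat_lit 0) (.e (nat_lit 179399) (nat_lit 0) .nil) .nil))) 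
(.lf (nat_lit 505397) (.g (nat_lit 1829) (.e (nat_lit 164325) (nat_lit 230) (.e (nat_lit 163875) (nat_lit 3) (.e (nat_lit 204809) (nat_lit 9) (.e (nat_lit 426139) (nat_lit 3) (.e (nat_lit 204833) (nat_lit 19) .nil))))) (.g (nat_lit 0) (.e (nat_lit 181482) (nat_lit 0) .nil) .nil)))) (.nd (nat_lit 9) 
(.lf (nat_lit 505141) (.g (nat_lit 772) (.e (nat_lit 164323) (nat_lit 230) (.e (nat_lit 163867) (nat_lit 2) (.e (nat_lit 196656) (nat_lit 11) .nil))) (.g (nat_lit 0) (.e (nat_lit 180897) (nat_lit 0) .nil) .nil))) 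
(.lf (nat_lit 505653) (.g (nat_lit 3069) (.e (nat_lit 164326) (nat_lit 230) (.e (nat_lit 163873) (nat_lit 3) (.e (nat_lit 204813) (nat_lit 9) (.e (nat_lit 426185) (nat_lit 9) .nil)))) (.g (nat_lit 0) (.e (nat_lit 182225) (nat_lit 0) .nil) .nil))))) (.nd (nat_lit 8) (.nd (nat_lit 9) 
(.lf (nat_lit 505013) (.g (nat_lit 1130) (.e (nat_lit 164293) (nat_lit 224) (.e (nat_lit 164353) (nat_lit 246) (.e (nat_lit 351) (nat_lit 28) (.e (nat_lit 393269) (nat_lit 23) (.e (nat_lit 426432) (nat_lit 17) .nil))))) (.g (nat_lit 0) (.e (nat_lit 180275) (nat_lit 0) .nil) .nil))) 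
(.lf (nat_lit 505525) (.g (nat_lit 896) (.e (nat_lit 164325) (nat_lit 230) (.e (nat_lit 163943) (nat_lit 19) (.e (nat_lit 483333) (nat_lit 0) .nil))) (.g (nat_lit 0) (.e (nat_lit 181967) (nat_lit 0) .nil) .nil)))) (.nd (nat_lit 9) 
(.lf (nat_lit 505269) (.g (nat_lit 1708) (.e (nat_lit 164325) (nat_lit 230) (.e (nat_lit 163867) (nat_lit 2) (.e (nat_lit 196656) (nat_lit 11) (.e (nat_lit 16466) (nat_lit 13) .nil)))) (.g (nat_lit 0) (.e (nat_lit 181266) (nat_lit 0) .nil) .nil))) 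
(.lf (nat_lit 505781) (.g (nat_lit 1138) (.e (nat_lit 164327) (nat_lit 230) (.e (nat_lit 163868) (nat_lit 2) (.e (nat_lit 196630) (nat_lit 9) (.e (nat_lit 430) (nat_lit 32) .nil)))) (.g (nat_lit 0) (.e (nat_lit 182511) (nat_lit 0) .nil) .nil)))))) (.nd (nat_lit 7) (.nd (nat_lit 8) (.nd (nat_lit 9) 
(.lf (nat_lit 504949) (.g (nat_lit 2556) (.e (nat_lit 171776) (nat_lit 192) (.e (nat_lit 73746) (nat_lit 3) (.e (nat_lit 516097) (nat_lit 0) (.e (nat_lit 7593) (nat_lit 407) (.e (nat_lit 73738) (nat_lit 1) .nil))))) (.g (nat_lit 0) (.e (nat_lit 179692) (nat_lit 0) .nil) .nil))) 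
(.lf (nat_lit 505461) (.g (nat_lit 1141) (.e (nat_lit 164325) (nat_lit 230) (.e (nat_lit 163904) (nat_lit 12) (.e (nat_lit 426566) (nat_lit 34) (.e (nat_lit 393295) (nat_lit 26) .nil)))) (.g (nat_lit 0) (.e (nat_lit 181585) (nat_lit 0) .nil) .nil)))) (.nd (nat_lit 9) 
(.lf (nat_lit 505205) (.g (nat_lit 2277) (.e (nat_lit 164324) (nat_lit 230) (.e (nat_lit 163873) (nat_lit 3) (.e (nat_lit 204813) (nat_lit 9) (.e (nat_lit 426199) (nat_lit 9) .nil)))) (.g (nat_lit 0) (.e (nat_lit 180981) (nat_lit 0) .nil) .nil))) 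
(.lf (nat_lit 505717) (.g (nat_lit 4049) (.e (nat_lit 164326) (nat_lit 230) (.e (nat_lit 163903) (nat_lit 12) (.e (nat_lit 426438) (nat_lit 18) (.e (nat_lit 98373) (nat_lit 29) (.e (nat_lit 450562) (nat_lit 0) (.e (nat_lit 6839) (nat_lit 369) (.e (nat_lit 163863) (nat_lit 1) .nil))))))) (.g (nat_lit 1) (.e (nat_lit 182328) (nat_lit 0) .nil) .nil))))) (.nd (nat_lit 8) (.nd (nat_lit 9) 
(.lf (nat_lit 505077) (.g (nat_lit 2280) (.e (nat_lit 164322) (nat_lit 230) (.e (nat_lit 163871) (nat_lit 2) (.e (nat_lit 196656) (nat_lit 11) (.e (nat_lit 16436) (nat_lit 9) (.e (nat_lit 426566) (nat_lit 34) .nil))))) (.g (nat_lit 0) (.e (nat_lit 180721) (nat_lit 0) .nil) .nil))) 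
(.lf (nat_lit 505589) (.g (nat_lit 1568) (.e (nat_lit 164326) (nat_lit 230) (.e (nat_lit 163869) (nat_lit 2) (.e (nat_lit 196656) (nat_lit 11) (.e (nat_lit 16466) (nat_lit 13) .nil)))) (.g (nat_lit 0) (.e (nat_lit 182115) (nat_lit 0) .nil) .nil)))) (.nd (nat_lit 9) 
(.lf (nat_lit 505333) (.g (nat_lit 2733) (.e (nat_lit 164325) (nat_lit 230) (.e (nat_lit 163871) (nat_lit 2) (.e (nat_lit 196654) (nat_lit 11) (.e (nat_lit 16416) (nat_lit 3) (.e (nat_lit 204838) (nat_lit 20) (.e (nat_lit 114719) (nat_lit 23) (.e (nat_lit 98333) (nat_lit 18) .nil))))))) (.g (nat_lit 1) (.e (nat_lit 181363) (nat_lit 0) .nil) .nil))) 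
(.lf (nat_lit 505845) (.g (nat_lit 2996) (.e (nat_lit 164327) (nat_lit 230) (.e (nat_lit 163871) (nat_lit 2) (.e (nat_lit 196654) (nat_lit 11) (.e (nat_lit 16416) (nat_lit 3) (.e (nat_lit 204838) (nat_lit 20) (.e (nat_lit 114718) (nat_lit 23) (.e (nat_lit 98332) (nat_lit 18) .nil))))))) (.g (nat_lit 1) (.e (nat_lit 182610) (nat_lit 0) .nil) .nil))))))))) 
(.nd (nat_lit 4) (.nd (nat_lit 5) (.nd (nat_lit 6) (.nd (nat_lit 7) (.nd (nat_lit 8) 
(.nd (nat_lit 9) 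
(.lf (nat_lit 504845) (.g (nat_lit 2545) (.e (nat_lit 164211) (nat_lit 176) (.e (nat_lit 2797) (nat_lit 180) (.e (nat_lit 303119) (nat_lit 3) (.e (nat_lit 204867) (nat_lit 28) (.e (nat_lit 352312) (nat_lit 22) .nil))))) (.g (nat_lit 0) (.e (nat_lit 179336) (nat_lit 0) .nil) .nil))) 
(.lf (nat_lit 505357) (.g (nat_lit 259) (.e (nat_lit 164325) (nat_lit 230) (.e (nat_lit 163873) (nat_lit 3) (.e (nat_lit 204813) (nat_lit 9) .nil))) (.g (nat_lit 0) (.e (nat_lit 181398) (nat_lit 0) .nil) .nil)))) (.nd (nat_lit 9) 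
(.lf (nat_lit 505101) (.g (nat_lit 1913) (.e (nat_lit 164322) (nat_lit 230) (.e (nat_lit 163875) (nat_lit 3) (.e (nat_lit 204809) (nat_lit 9) (.e (nat_lit 426200) (nat_lit 9) (.e (nat_lit 426566) (nat_lit 34) .nil))))) (.g (nat_lit 0) (.e (nat_lit 180763) (nat_lit 0) .nil) .nil))) 
(.lf (nat_lit 505613) (.g (nat_lit 937) (.e (nat_lit 164326) (nat_lit 230) (.e (nat_lit 163871) (nat_lit 2) (.e (nat_lit 196626) (nat_lit 9) (.e (nat_lit 7936) (nat_lit 34) .nil)))) (.g (nat_lit 0) (.e (nat_lit 182150) (nat_lit 0) .nil) .nil))))) (.nd (nat_lit 8) (.nd (nat_lit 9) 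
(.lf (nat_lit 504973) (.g (nat_lit 2876) (.e (nat_lit 171776) (nat_lit 278) (.e (nat_lit 1130) (nat_lit 83) (.e (nat_lit 16416) (nat_lit 3) (.e (nat_lit 204868) (nat_lit 29) (.e (nat_lit 360466) (nat_lit 3) .nil))))) (.g (nat_lit 0) (.e (nat_lit 179957) (nat_lit 0) .nil) .nil))) 
(.lf (nat_lit 505485) (.g (nat_lit 828) (.e (nat_lit 164325) (nat_lit 230) (.e (nat_lit 163907) (nat_lit 12) (.e (nat_lit 426507) (nat_lit 27) .nil))) (.g (nat_lit 0) (.e (nat_lit 181663) (nat_lit 0) .nil) .nil)))) (.nd (nat_lit 9) 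
(.lf (nat_lit 505229) (.g (nat_lit 2057) (.e (nat_lit 164324) (nat_lit 230) (.e (nat_lit 163903) (nat_lit 12) (.e (nat_lit 426566) (nat_lit 34) (.e (nat_lit 393273) (nat_lit 23) (.e (nat_lit 426402) (nat_lit 15) .nil))))) (.g (nat_lit 0) (.e (nat_lit 181015) (nat_lit 0) .nil) .nil))) 
(.lf (nat_lit 505741) (.g (nat_lit 2381) (.e (nat_lit 164326) (nat_lit 230) (.e (nat_lit 163903) (nat_lit 12) (.e (nat_lit 426568) (nat_lit 34) (.e (nat_lit 393271) (nat_lit 23) (.e (nat_lit 426392) (nat_lit 15) .nil))))) (.g (nat_lit 0) (.e (nat_lit 182359) (nat_lit 0) .nil) .nil)))))) (.nd (nat_lit 7) (.nd (nat_lit 8) (.nd (nat_lit 9) 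
(.lf (nat_lit 504909) (.g (nat_lit 741) (.e (nat_lit 164248) (nat_lit 201) (.e (nat_lit 2856) (nat_lit 184) (.e (nat_lit 426436) (nat_lit 18) .nil))) (.g (nat_lit 0) (.e (nat_lit 179559) (nat_lit 0) .nil) .nil))) 
(.lf (nat_lit 505421) (.g (nat_lit 3397) (.e (nat_lit 164325) (nat_lit 230) (.e (nat_lit 163902) (nat_lit 12) (.e (nat_lit 426566) (nat_lit 34) (.e (nat_lit 393293) (nat_lit 26) (.e (nat_lit 475176) (nat_lit 24) .nil))))) (.g (nat_lit 0) (.e (nat_lit 181516) (nat_lit 0) .nil) .nil)))) (.nd (nat_lit 9) 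
(.lf (nat_lit 505165) (.g (nat_lit 1417) (.e (nat_lit 164323) (nat_lit 230) (.e (nat_lit 163875) (nat_lit 3) (.e (nat_lit 204809) (nat_lit 9) (.e (nat_lit 426200) (nat_lit 9) .nil)))) (.g (nat_lit 0) (.e (nat_lit 180926) (nat_lit 0) .nil) .nil))) 
(.lf (nat_lit 505677) (.g (nat_lit 1878) (.e (nat_lit 164326) (nat_lit 230) (.e (nat_lit 163875) (nat_lit 3) (.e (nat_lit 204811) (nat_lit 9) (.e (nat_lit 426262) (nat_lit 9) (.e (nat_lit 426565) (nat_lit 34) (.e (nat_lit 393254) (nat_lit 18) .nil)))))) (.g (nat_lit 1) (.e (nat_lit 182260) (nat_lit 0) .nil) .nil))))) (.nd (nat_lit 8) (.nd (nat_lit 9) 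
(.lf (nat_lit 505037) (.g (nat_lit 1495) (.e (nat_lit 164305) (nat_lit 226) (.e (nat_lit 2612) (nat_lit 163) (.e (nat_lit 163979) (nat_lit 30) (.e (nat_lit 573487) (nat_lit 14) .nil)))) (.g (nat_lit 0) (.e (nat_lit 180428) (nat_lit 0) .nil) .nil))) 
(.lf (nat_lit 505549) (.g (nat_lit 2345) (.e (nat_lit 164326) (nat_lit 230) (.e (nat_lit 163868) (nat_lit 2) (.e (nat_lit 196624) (nat_lit 9) (.e (nat_lit 433) (nat_lit 32) (.e (nat_lit 426228) (nat_lit 9) (.e (nat_lit 426565) (nat_lit 34) (.e (nat_lit 393253) (nat_lit 18) .nil))))))) (.g (nat_lit 1) (.e (nat_lit 182052) (nat_lit 0) .nil) .nil)))) (.nd (nat_lit 9) 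
(.lf (nat_lit 505293) (.g (nat_lit 1872) (.e (nat_lit 164325) (nat_lit 230) (.e (nat_lit 163868) (nat_lit 2) (.e (nat_lit 196656) (nat_lit 11) (.e (nat_lit 16438) (nat_lit 9) (.e (nat_lit 426567) (nat_lit 34) .nil))))) (.g (nat_lit 0) (.e (nat_lit 181305) (nat_lit 0) .nil) .nil))) 
(.lf (nat_lit 505805) (.g (nat_lit 2957) (.e (nat_lit 164327) (nat_lit 230) (.e (nat_lit 163868) (nat_lit 2) (.e (nat_lit 196656) (nat_lit 11) (.e (nat_lit 16433) (nat_lit 9) (.e (nat_lit 426481) (nat_lit 27) (.e (nat_lit 336389) (nat_lit 27) (.e (nat_lit 426098) (nat_lit 1) .nil))))))) (.g (nat_lit 1) (.e (nat_lit 182553) (nat_lit 0) .nil) .nil))))))) 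
(.nd (nat_lit 6) (.nd (nat_lit 7) (.nd (nat_lit 8) (.nd (nat_lit 9) 
(.lf (nat_lit 504877) (.g (nat_lit 1780) (.e (nat_lit 164214) (nat_lit 176) (.e (nat_lit 2798) (nat_lit 180) (.e (nat_lit 303119) (nat_lit 3) (.e (nat_lit 204868) (nat_lit 29) .nil)))) (.g (nat_lit 0) (.e (nat_lit 179389) (nat_lit 0) .nil) .nil))) 
(.lf (nat_lit 505389) (.g (nat_lit 1011) (.e (nat_lit 164325) (nat_lit 230) (.e (nat_lit 163874) (nat_lit 3) (.e (nat_lit 204809) (nat_lit 9) .nil))) (.g (nat_lit 0) (.e (nat_lit 181471) (nat_lit 0) .nil) .nil)))) (.nd (nat_lit 9) 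
(.lf (nat_lit 505133) (.g (nat_lit 612) (.e (nat_lit 164322) (nat_lit 230) (.e (nat_lit 163933) (nat_lit 17) (.e (nat_lit 474880) (nat_lit 16) .nil))) (.g (nat_lit 0) (.e (nat_lit 180869) (nat_lit 0) .nil) .nil))) 
(.lf (nat_lit 505645) (.g (nat_lit 3468) (.e (nat_lit 164326) (nat_lit 230) (.e (nat_lit 163871) (nat_lit 2) (.e (nat_lit 196656) (nat_lit 11) (.e (nat_lit 16465) (nat_lit 13) (.e (nat_lit 483337) (nat_lit 9) .nil))))) (.g (nat_lit 0) (.e (nat_lit 182199) (nat_lit 0) .nil) .nil))))) (.nd (nat_lit 8) (.nd (nat_lit 9) 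
(.lf (nat_lit 505005) (.g (nat_lit 1231) (.e (nat_lit 164293) (nat_lit 224) (.e (nat_lit 164092) (nat_lit 82) (.e (nat_lit 500046) (nat_lit 16) (.e (nat_lit 16463) (nat_lit 13) (.e (nat_lit 483331) (nat_lit 0) .nil))))) (.g (nat_lit 0) (.e (nat_lit 180262) (nat_lit 0) .nil) .nil))) 
(.lf (nat_lit 505517) (.g (nat_lit 4066) (.e (nat_lit 164325) (nat_lit 230) (.e (nat_lit 163941) (nat_lit 19) (.e (nat_lit 483341) (nat_lit 9) (.e (nat_lit 426220) (nat_lit 9) .nil)))) (.g (nat_lit 0) (.e (nat_lit 181944) (nat_lit 0) .nil) .nil)))) (.nd (nat_lit 9) 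
(.lf (nat_lit 505261) (.g (nat_lit 729) (.e (nat_lit 164325) (nat_lit 230) (.e (nat_lit 163867) (nat_lit 2) (.e (nat_lit 196652) (nat_lit 11) .nil))) (.g (nat_lit 0) (.e (nat_lit 181253) (nat_lit 0) .nil) .nil))) 
(.lf (nat_lit 505773) (.g (nat_lit 4072) (.e (nat_lit 164327) (nat_lit 230) (.e (nat_lit 163851) (nat_lit 0) (.e (nat_lit 3307) (nat_lit 202) (.e (nat_lit 573489) (nat_lit 14) (.e (nat_lit 73755) (nat_lit 8) (.e (nat_lit 557098) (nat_lit 13) (.e (nat_lit 179968) (nat_lit 18) (.e (nat_lit 98333) (nat_lit 18) .nil)))))))) (.g (nat_lit 1) (.e (nat_lit 182479) (nat_lit 0) .nil) .nil)))))) 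
(.nd (nat_lit 7) (.nd (nat_lit 8) (.nd (nat_lit 9) 
(.lf (nat_lit 504941) (.g (nat_lit 1637) (.e (nat_lit 171776) (nat_lit 187) (.e (nat_lit 1641) (nat_lit 114) (.e (nat_lit 385074) (nat_lit 31) (.e (nat_lit 573491) (nat_lit 15) (.e (nat_lit 81951) (nat_lit 22) .nil))))) (.g (nat_lit 0) (.e (nat_lit 179675) (nat_lit 0) .nil) .nil))) 
(.lf (nat_lit 505453) (.g (nat_lit 2697) (.e (nat_lit 164325) (nat_lit 230) (.e (nat_lit 163904) (nat_lit 12) (.e (nat_lit 426566) (nat_lit 34) (.e (nat_lit 393273) (nat_lit 23) .nil)))) (.g (nat_lit 0) (.e (nat_lit 181577) (nat_lit 0) .nil) .nil)))) (.nd (nat_lit 9) 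
(.lf (nat_lit 505197) (.g (nat_lit 2407) (.e (nat_lit 164324) (nat_lit 230) (.e (nat_lit 163871) (nat_lit 2) (.e (nat_lit 196656) (nat_lit 11) (.e (nat_lit 16466) (nat_lit 13) (.e (nat_lit 483341) (nat_lit 9) .nil))))) (.g (nat_lit 0) (.e (nat_lit 180973) (nat_lit 0) .nil) .nil))) 
(.lf (nat_lit 505709) (.g (nat_lit 668) (.e (nat_lit 164326) (nat_lit 230) (.e (nat_lit 163903) (nat_lit 12) (.e (nat_lit 426226) (nat_lit 9) .nil))) (.g (nat_lit 0) (.e (nat_lit 182307) (nat_lit 0) .nil) .nil))))) (.nd (nat_lit 8) (.nd (nat_lit 9) 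
(.lf (nat_lit 505069) (.g (nat_lit 2916) (.e (nat_lit 164322) (nat_lit 230) (.e (nat_lit 163869) (nat_lit 2) (.e (nat_lit 196654) (nat_lit 11) (.e (nat_lit 16463) (nat_lit 13) (.e (nat_lit 483341) (nat_lit 9) .nil))))) (.g (nat_lit 0) (.e (nat_lit 180711) (nat_lit 0) .nil) .nil))) 
(.lf (nat_lit 505581) (.g (nat_lit 1910) (.e (nat_lit 164326) (nat_lit 230) (.e (nat_lit 163868) (nat_lit 2) (.e (nat_lit 196656) (nat_lit 11) (.e (nat_lit 16442) (nat_lit 9) .nil)))) (.g (nat_lit 0) (.e (nat_lit 182100) (nat_lit 0) .nil) .nil)))) (.nd (nat_lit 9) 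
(.lf (nat_lit 505325) (.g (nat_lit 514) (.e (nat_lit 164325) (nat_lit 230) (.e (nat_lit 163871) (nat_lit 2) (.e (nat_lit 196619) (nat_lit 9) .nil))) (.g (nat_lit 0) (.e (nat_lit 181350) (nat_lit 0) .nil) .nil))) 
(.lf (nat_lit 505837) (.g (nat_lit 2201) (.e (nat_lit 164327) (nat_lit 230) (.e (nat_lit 163871) (nat_lit 2) (.e (nat_lit 196654) (nat_lit 11) (.e (nat_lit 16416) (nat_lit 3) (.e (nat_lit 204833) (nat_lit 19) .nil))))) (.g (nat_lit 0) (.e (nat_lit 182599) (nat_lit 0) .nil) .nil)))))))) (.nd (nat_lit 5) (.nd (nat_lit 6) (.nd (nat_lit 7) (.nd (nat_lit 8) (.nd (nat_lit 9) 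
(.lf (nat_lit 504861) (.g (nat_lit 2152) (.e (nat_lit 164213) (nat_lit 176) (.e (nat_lit 2797) (nat_lit 180) (.e (nat_lit 303117) (nat_lit 2) (.e (nat_lit 196672) (nat_lit 15) (.e (nat_lit 81951) (nat_lit 22) .nil))))) (.g (nat_lit 0) (.e (nat_lit 179360) (nat_lit 0) .nil) .nil))) 
(.lf (nat_lit 505373) (.g (nat_lit 2865) (.e (nat_lit 164325) (nat_lit 230) (.e (nat_lit 163873) (nat_lit 3) (.e (nat_lit 204813) (nat_lit 9) (.e (nat_lit 426188) (nat_lit 9) (.e (nat_lit 426564) (nat_lit 34) (.e (nat_lit 393251) (nat_lit 18) .nil)))))) (.g (nat_lit 1) (.e (nat_lit 181431) (nat_lit 0) .nil) .nil)))) (.nd (nat_lit 9) 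
(.lf (nat_lit 505117) (.g (nat_lit 2228) (.e (nat_lit 164322) (nat_lit 230) (.e (nat_lit 163902) (nat_lit 12) (.e (nat_lit 426566) (nat_lit 34) (.e (nat_lit 393293) (nat_lit 26) .nil)))) (.g (nat_lit 0) (.e (nat_lit 180784) (nat_lit 0) .nil) .nil))) 
(.lf (nat_lit 505629) (.g (nat_lit 223) (.e (nat_lit 164326) (nat_lit 230) (.e (nat_lit 163871) (nat_lit 2) (.e (nat_lit 196655) (nat_lit 11) .nil))) (.g (nat_lit 0) (.e (nat_lit 182171) (nat_lit 0) .nil) .nil))))) (.nd (nat_lit 8) (.nd (nat_lit 9) 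
(.lf (nat_lit 504989) (.g (nat_lit 755) (.e (nat_lit 164287) (nat_lit 224) (.e (nat_lit 164354) (nat_lit 246) (.e (nat_lit 351) (nat_lit 28) (.e (nat_lit 393279) (nat_lit 23) (.e (nat_lit 426429) (nat_lit 17) .nil))))) (.g (nat_lit 0) (.e (nat_lit 180096) (nat_lit 0) .nil) .nil))) 
(.lf (nat_lit 505501) (.g (nat_lit 3394) (.e (nat_lit 164325) (nat_lit 230) (.e (nat_lit 163936) (nat_lit 18) (.e (nat_lit 475177) (nat_lit 24) (.e (nat_lit 516176) (nat_lit 14) (.e (nat_lit 466972) (nat_lit 21) (.e (nat_lit 164183) (nat_lit 154) (.e (nat_lit 65280) (nat_lit 62) .nil))))))) (.g (nat_lit 1) (.e (nat_lit 181909) (nat_lit 0) .nil) .nil)))) (.nd (nat_lit 9) 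
(.lf (nat_lit 505245) (.g (nat_lit 3919) (.e (nat_lit 164324) (nat_lit 230) (.e (nat_lit 163941) (nat_lit 19) (.e (nat_lit 483341) (nat_lit 9) (.e (nat_lit 426213) (nat_lit 9) .nil)))) (.g (nat_lit 0) (.e (nat_lit 181075) (nat_lit 0) .nil) .nil))) 
(.lf (nat_lit 505757) (.g (nat_lit 2186) (.e (nat_lit 164326) (nat_lit 230) (.e (nat_lit 163941) (nat_lit 19) (.e (nat_lit 483341) (nat_lit 9) (.e (nat_lit 426198) (nat_lit 9) (.e (nat_lit 426382) (nat_lit 15) .nil))))) (.g (nat_lit 0) (.e (nat_lit 182448) (nat_lit 0) .nil) .nil)))))) (.nd (nat_lit 7) (.nd (nat_lit 8) (.nd (nat_lit 9) 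
(.lf (nat_lit 504925) (.g (nat_lit 1585) (.e (nat_lit 164238) (nat_lit 187) (.e (nat_lit 1638) (nat_lit 114) (.e (nat_lit 385074) (nat_lit 31) (.e (nat_lit 573480) (nat_lit 13) .nil)))) (.g (nat_lit 0) (.e (nat_lit 179646) (nat_lit 0) .nil) .nil))) 
(.lf (nat_lit 505437) (.g (nat_lit 492) (.e (nat_lit 164325) (nat_lit 230) (.e (nat_lit 163903) (nat_lit 12) (.e (nat_lit 426481) (nat_lit 27) .nil))) (.g (nat_lit 0) (.e (nat_lit 181552) (nat_lit 0) .nil) .nil)))) (.nd (nat_lit 9) 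
(.lf (nat_lit 505181) (.g (nat_lit 3213) (.e (nat_lit 164324) (nat_lit 230) (.e (nat_lit 163868) (nat_lit 2) (.e (nat_lit 196656) (nat_lit 11) (.e (nat_lit 16433) (nat_lit 9) (.e (nat_lit 426566) (nat_lit 34) (.e (nat_lit 393254) (nat_lit 18) .nil)))))) (.g (nat_lit 1) (.e (nat_lit 180954) (nat_lit 0) .nil) .nil))) 
(.lf (nat_lit 505693) (.g (nat_lit 1033) (.e (nat_lit 164326) (nat_lit 230) (.e (nat_lit 163882) (nat_lit 4) (.e (nat_lit 213030) (nat_lit 11) (.e (nat_lit 24660) (nat_lit 13) (.e (nat_lit 393277) (nat_lit 23) (.e (nat_lit 426103) (nat_lit 1) .nil)))))) (.g (nat_lit 1) (.e (nat_lit 182277) (nat_lit 0) .nil) .nil))))) (.nd (nat_lit 8) (.nd (nat_lit 9) 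
(.lf (nat_lit 505053) (.g (nat_lit 1183) (.e (nat_lit 164322) (nat_lit 230) (.e (nat_lit 163867) (nat_lit 2) (.e (nat_lit 196630) (nat_lit 9) (.e (nat_lit 430) (nat_lit 32) .nil)))) (.g (nat_lit 0) (.e (nat_lit 180685) (nat_lit 0) .nil) .nil))) 
(.lf (nat_lit 505565) (.g (nat_lit 2294) (.e (nat_lit 164326) (nat_lit 230) (.e (nat_lit 163868) (nat_lit 2) (.e (nat_lit 196652) (nat_lit 11) (.e (nat_lit 16466) (nat_lit 13) (.e (nat_lit 483341) (nat_lit 9) (.e (nat_lit 426106) (nat_lit 1) .nil)))))) (.g (nat_lit 1) (.e (nat_lit 182075) (nat_lit 0) .nil) .nil)))) (.nd (nat_lit 9) 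
(.lf (nat_lit 505309) (.g (nat_lit 1802) (.e (nat_lit 164325) (nat_lit 230) (.e (nat_lit 163869) (nat_lit 2) (.e (nat_lit 196653) (nat_lit 11) (.e (nat_lit 16434) (nat_lit 9) (.e (nat_lit 426566) (nat_lit 34) .nil))))) (.g (nat_lit 0) (.e (nat_lit 181329) (nat_lit 0) .nil) .nil))) 
(.lf (nat_lit 505821) (.g (nat_lit 2212) (.e (nat_lit 164327) (nat_lit 230) (.e (nat_lit 163869) (nat_lit 2) (.e (nat_lit 196654) (nat_lit 11) (.e (nat_lit 16466) (nat_lit 13) (.e (nat_lit 483341) (nat_lit 9) .nil))))) (.g (nat_lit 0) (.e (nat_lit 182577) (nat_lit 0) .nil) .nil))))))) (.nd (nat_lit 6) (.nd (nat_lit 7) (.nd (nat_lit 8) (.nd (nat_lit 9) 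
(.lf (nat_lit 504893) (.g (nat_lit 1794) (.e (nat_lit 171776) (nat_lit 176) (.e (nat_lit 2798) (nat_lit 180) (.e (nat_lit 303117) (nat_lit 2) (.e (nat_lit 196665) (nat_lit 13) (.e (nat_lit 65598) (nat_lit 9) .nil))))) (.g (nat_lit 0) (.e (nat_lit 179412) (nat_lit 0) .nil) .nil))) 
(.lf (nat_lit 505405) (.g (nat_lit 1786) (.e (nat_lit 164325) (nat_lit 230) (.e (nat_lit 163875) (nat_lit 3) (.e (nat_lit 204813) (nat_lit 9) (.e (nat_lit 426200) (nat_lit 9) (.e (nat_lit 426509) (nat_lit 27) .nil))))) (.g (nat_lit 0) (.e (nat_lit 181491) (nat_lit 0) .nil) .nil)))) (.nd (nat_lit 9) 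
(.lf (nat_lit 505149) (.g (nat_lit 2112) (.e (nat_lit 164323) (nat_lit 230) (.e (nat_lit 163869) (nat_lit 2) (.e (nat_lit 196654) (nat_lit 11) (.e (nat_lit 16463) (nat_lit 13) .nil)))) (.g (nat_lit 0) (.e (nat_lit 180906) (nat_lit 0) .nil) .nil))) 
(.lf (nat_lit 505661) (.g (nat_lit 2353) (.e (nat_lit 164326) (nat_lit 230) (.e (nat_lit 163873) (nat_lit 3) (.e (nat_lit 204813) (nat_lit 9) (.e (nat_lit 433920) (nat_lit 9) .nil)))) (.g (nat_lit 0) (.e (nat_lit 182233) (nat_lit 0) .nil) .nil))))) (.nd (nat_lit 8) (.nd (nat_lit 9) 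
(.lf (nat_lit 505021) (.g (nat_lit 1059) (.e (nat_lit 164281) (nat_lit 222) (.e (nat_lit 57884) (nat_lit 270) (.e (nat_lit 1232) (nat_lit 91) (.e (nat_lit 90177) (nat_lit 15) .nil)))) (.g (nat_lit 0) (.e (nat_lit 180326) (nat_lit 0) .nil) .nil))) 
(.lf (nat_lit 505533) (.g (nat_lit 1851) (.e (nat_lit 164325) (nat_lit 230) (.e (nat_lit 163943) (nat_lit 19) (.e (nat_lit 483341) (nat_lit 9) (.e (nat_lit 433920) (nat_lit 9) .nil)))) (.g (nat_lit 0) (.e (nat_lit 181988) (nat_lit 0) .nil) .nil)))) (.nd (nat_lit 9) 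
(.lf (nat_lit 505277) (.g (nat_lit 809) (.e (nat_lit 164325) (nat_lit 230) (.e (nat_lit 163868) (nat_lit 2) (.e (nat_lit 196652) (nat_lit 11) .nil))) (.g (nat_lit 0) (.e (nat_lit 181285) (nat_lit 0) .nil) .nil))) 
(.lf (nat_lit 505789) (.g (nat_lit 3804) (.e (nat_lit 164327) (nat_lit 230) (.e (nat_lit 163868) (nat_lit 2) (.e (nat_lit 196654) (nat_lit 11) (.e (nat_lit 16416) (nat_lit 3) (.e (nat_lit 204838) (nat_lit 20) (.e (nat_lit 114719) (nat_lit 23) (.e (nat_lit 98332) (nat_lit 18) .nil))))))) (.g (nat_lit 1) (.e (nat_lit 182522) (nat_lit 0) .nil) .nil)))))) 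
(.nd (nat_lit 7) (.nd (nat_lit 8) (.nd (nat_lit 9) 
(.lf (nat_lit 504957) (.g (nat_lit 2491) (.e (nat_lit 171776) (nat_lit 192) (.e (nat_lit 73747) (nat_lit 3) (.e (nat_lit 516097) (nat_lit 0) (.e (nat_lit 7591) (nat_lit 407) (.e (nat_lit 73739) (nat_lit 1) .nil))))) (.g (nat_lit 0) (.e (nat_lit 179701) (nat_lit 0) .nil) .nil))) 
(.lf (nat_lit 505469) (.g (nat_lit 2269) (.e (nat_lit 164325) (nat_lit 230) (.e (nat_lit 163905) (nat_lit 12) (.e (nat_lit 426566) (nat_lit 34) (.e (nat_lit 393273) (nat_lit 23) (.e (nat_lit 426438) (nat_lit 18) .nil))))) (.g (nat_lit 0) (.e (nat_lit 181606) (nat_lit 0) .nil) .nil)))) (.nd (nat_lit 9) 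
(.lf (nat_lit 505213) (.g (nat_lit 3147) (.e (nat_lit 164324) (nat_lit 230) (.e (nat_lit 163875) (nat_lit 3) (.e (nat_lit 204813) (nat_lit 9) (.e (nat_lit 426200) (nat_lit 9) (.e (nat_lit 426566) (nat_lit 34) (.e (nat_lit 393254) (nat_lit 18) .nil)))))) (.g (nat_lit 1) (.e (nat_lit 180997) (nat_lit 0) .nil) .nil))) 
(.lf (nat_lit 505725) (.g (nat_lit 1318) (.e (nat_lit 164326) (nat_lit 230) (.e (nat_lit 163903) (nat_lit 12) (.e (nat_lit 426566) (nat_lit 34) (.e (nat_lit 393270) (nat_lit 23) .nil)))) (.g (nat_lit 0) (.e (nat_lit 182341) (nat_lit 0) .nil) .nil))))) (.nd (nat_lit 8) (.nd (nat_lit 9) 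
(.lf (nat_lit 505085) (.g (nat_lit 4002) (.e (nat_lit 164322) (nat_lit 230) (.e (nat_lit 163873) (nat_lit 3) (.e (nat_lit 204813) (nat_lit 9) (.e (nat_lit 426186) (nat_lit 9) .nil)))) (.g (nat_lit 0) (.e (nat_lit 180736) (nat_lit 0) .nil) .nil))) 
(.lf (nat_lit 505597) (.g (nat_lit 2679) (.e (nat_lit 164326) (nat_lit 230) (.e (nat_lit 163870) (nat_lit 2) (.e (nat_lit 196630) (nat_lit 9) (.e (nat_lit 430) (nat_lit 32) (.e (nat_lit 426188) (nat_lit 9) (.e (nat_lit 426566) (nat_lit 34) (.e (nat_lit 393253) (nat_lit 18) .nil))))))) (.g (nat_lit 1) (.e (nat_lit 182125) (nat_lit 0) .nil) .nil)))) (.nd (nat_lit 9) 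
(.lf (nat_lit 505341) (.g (nat_lit 983) (.e (nat_lit 164325) (nat_lit 230) (.e (nat_lit 163871) (nat_lit 2) (.e (nat_lit 196656) (nat_lit 11) (.e (nat_lit 16436) (nat_lit 9) .nil)))) (.g (nat_lit 0) (.e (nat_lit 181376) (nat_lit 0) .nil) .nil))) 
(.lf (nat_lit 505853) (.g (nat_lit 912) (.e (nat_lit 164327) (nat_lit 230) (.e (nat_lit 163871) (nat_lit 2) (.e (nat_lit 196654) (nat_lit 11) (.e (nat_lit 16437) (nat_lit 9) .nil)))) (.g (nat_lit 0) (.e (nat_lit 182620) (nat_lit 0) .nil) .nil))))))))))) (.nd (nat_lit 2) (.nd (nat_lit 3) (.nd (nat_lit 4) (.nd (nat_lit 5) (.nd (nat_lit 6) (.nd (nat_lit 7) (.nd (nat_lit 8) (.nd (nat_lit 9) 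
(.lf (nat_lit 504835) (.g (nat_lit 2150) (.e (nat_lit 164211) (nat_lit 176) (.e (nat_lit 2797) (nat_lit 180) (.e (nat_lit 303117) (nat_lit 2) (.e (nat_lit 196666) (nat_lit 13) .nil)))) (.g (nat_lit 0) (.e (nat_lit 179324) (nat_lit 0) .nil) .nil))) 
(.lf (nat_lit 505347) (.g (nat_lit 1637) (.e (nat_lit 164325) (nat_lit 230) (.e (nat_lit 163871) (nat_lit 2) (.e (nat_lit 196656) (nat_lit 11) (.e (nat_lit 16437) (nat_lit 9) (.e (nat_lit 426568) (nat_lit 34) .nil))))) (.g (nat_lit 0) (.e (nat_lit 181382) (nat_lit 0) .nil) .nil)))) (.nd (nat_lit 9) 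
(.lf (nat_lit 505091) (.g (nat_lit 3459) (.e (nat_lit 164322) (nat_lit 230) (.e (nat_lit 163873) (nat_lit 3) (.e (nat_lit 204813) (nat_lit 9) (.e (nat_lit 426197) (nat_lit 9) .nil)))) (.g (nat_lit 0) (.e (nat_lit 180742) (nat_lit 0) .nil) .nil))) 
(.lf (nat_lit 505603) (.g (nat_lit 2059) (.e (nat_lit 164326) (nat_lit 230) (.e (nat_lit 163870) (nat_lit 2) (.e (nat_lit 196656) (nat_lit 11) (.e (nat_lit 16433) (nat_lit 9) .nil)))) (.g (nat_lit 0) (.e (nat_lit 182133) (nat_lit 0) .nil) .nil))))) (.nd (nat_lit 8) (.nd (nat_lit 9) 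
(.lf (nat_lit 504963) (.g (nat_lit 2921) (.e (nat_lit 171776) (nat_lit 192) (.e (nat_lit 73747) (nat_lit 3) (.e (nat_lit 516185) (nat_lit 16) (.e (nat_lit 491560) (nat_lit 10) (.e (nat_lit 344105) (nat_lit 19) .nil))))) (.g (nat_lit 0) (.e (nat_lit 179707) (nat_lit 0) .nil) .nil))) 
(.lf (nat_lit 505475) (.g (nat_lit 2549) (.e (nat_lit 164325) (nat_lit 230) (.e (nat_lit 163907) (nat_lit 12) (.e (nat_lit 426131) (nat_lit 3) (.e (nat_lit 204880) (nat_lit 32) (.e (nat_lit 385051) (nat_lit 21) .nil))))) (.g (nat_lit 0) (.e (nat_lit 181623) (nat_lit 0) .nil) .nil)))) (.nd (nat_lit 9) 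
(.lf (nat_lit 505219) (.g (nat_lit 2999) (.e (nat_lit 164324) (nat_lit 230) (.e (nat_lit 163902) (nat_lit 12) (.e (nat_lit 426566) (nat_lit 34) (.e (nat_lit 393290) (nat_lit 26) .nil)))) (.g (nat_lit 0) (.e (nat_lit 181004) (nat_lit 0) .nil) .nil))) 
(.lf (nat_lit 505731) (.g (nat_lit 3898) (.e (nat_lit 164326) (nat_lit 230) (.e (nat_lit 163903) (nat_lit 12) (.e (nat_lit 426566) (nat_lit 34) (.e (nat_lit 393291) (nat_lit 26) (.e (nat_lit 475179) (nat_lit 24) (.e (nat_lit 516119) (nat_lit 1) .nil)))))) (.g (nat_lit 1) (.e (nat_lit 182348) (nat_lit 0) .nil) .nil)))))) (.nd (nat_lit 7) (.nd (nat_lit 8) (.nd (nat_lit 9) 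
(.lf (nat_lit 504899) (.g (nat_lit 2364) (.e (nat_lit 171776) (nat_lit 176) (.e (nat_lit 2798) (nat_lit 180) (.e (nat_lit 303119) (nat_lit 3) (.e (nat_lit 204877) (nat_lit 31) (.e (nat_lit 376865) (nat_lit 22) .nil))))) (.g (nat_lit 0) (.e (nat_lit 179428) (nat_lit 0) .nil) .nil))) 
(.lf (nat_lit 505411) (.g (nat_lit 2535) (.e (nat_lit 164325) (nat_lit 230) (.e (nat_lit 163882) (nat_lit 4) (.e (nat_lit 213031) (nat_lit 11) (.e (nat_lit 24626) (nat_lit 9) (.e (nat_lit 336443) (nat_lit 32) (.e (nat_lit 466971) (nat_lit 21) .nil)))))) (.g (nat_lit 1) (.e (nat_lit 181499) (nat_lit 0) .nil) .nil)))) (.nd (nat_lit 9) 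
(.lf (nat_lit 505155) (.g (nat_lit 1696) (.e (nat_lit 164323) (nat_lit 230) (.e (nat_lit 163871) (nat_lit 2) (.e (nat_lit 196656) (nat_lit 11) (.e (nat_lit 16436) (nat_lit 9) .nil)))) (.g (nat_lit 0) (.e (nat_lit 180912) (nat_lit 0) .nil) .nil))) 
(.lf (nat_lit 505667) (.g (nat_lit 1867) (.e (nat_lit 164326) (nat_lit 230) (.e (nat_lit 163874) (nat_lit 3) (.e (nat_lit 204813) (nat_lit 9) (.e (nat_lit 426198) (nat_lit 9) (.e (nat_lit 426566) (nat_lit 34) .nil))))) (.g (nat_lit 0) (.e (nat_lit 182247) (nat_lit 0) .nil) .nil))))) (.nd (nat_lit 8) (.nd (nat_lit 9) 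
(.lf (nat_lit 505027) (.g (nat_lit 466) (.e (nat_lit 164281) (nat_lit 222) (.e (nat_lit 57884) (nat_lit 270) (.e (nat_lit 1550) (nat_lit 109) .nil))) (.g (nat_lit 0) (.e (nat_lit 180334) (nat_lit 0) .nil) .nil))) 
(.lf (nat_lit 505539) (.g (nat_lit 1898) (.e (nat_lit 164326) (nat_lit 230) (.e (nat_lit 163867) (nat_lit 2) (.e (nat_lit 196654) (nat_lit 11) (.e (nat_lit 16463) (nat_lit 13) (.e (nat_lit 483341) (nat_lit 9) .nil))))) (.g (nat_lit 0) (.e (nat_lit 182036) (nat_lit 0) .nil) .nil)))) (.nd (nat_lit 9) 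
(.lf (nat_lit 505283) (.g (nat_lit 1732) (.e (nat_lit 164325) (nat_lit 230) (.e (nat_lit 163868) (nat_lit 2) (.e (nat_lit 196654) (nat_lit 11) (.e (nat_lit 16466) (nat_lit 13) (.e (nat_lit 483341) (nat_lit 9) (.e (nat_lit 426105) (nat_lit 1) .nil)))))) (.g (nat_lit 1) (.e (nat_lit 181291) (nat_lit 0) .nil) .nil))) 
(.lf (nat_lit 505795) (.g (nat_lit 1085) (.e (nat_lit 164327) (nat_lit 230) (.e (nat_lit 163868) (nat_lit 2) (.e (nat_lit 196654) (nat_lit 11) (.e (nat_lit 16437) (nat_lit 9) .nil)))) (.g (nat_lit 0) (.e (nat_lit 182528) (nat_lit 0) .nil) .nil))))))) (.nd (nat_lit 6) (.nd (nat_lit 7) (.nd (nat_lit 8) (.nd (nat_lit 9) 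
(.lf (nat_lit 504867) (.g (nat_lit 2648) (.e (nat_lit 164214) (nat_lit 176) (.e (nat_lit 2797) (nat_lit 180) (.e (nat_lit 303117) (nat_lit 2) (.e (nat_lit 196672) (nat_lit 15) (.e (nat_lit 81953) (nat_lit 22) .nil))))) (.g (nat_lit 0) (.e (nat_lit 179374) (nat_lit 0) .nil) .nil))) 
(.lf (nat_lit 505379) (.g (nat_lit 2759) (.e (nat_lit 164325) (nat_lit 230) (.e (nat_lit 163873) (nat_lit 3) (.e (nat_lit 204813) (nat_lit 9) (.e (nat_lit 426199) (nat_lit 9) (.e (nat_lit 426489) (nat_lit 27) .nil))))) (.g (nat_lit 0) (.e (nat_lit 181438) (nat_lit 0) .nil) .nil)))) (.nd (nat_lit 9) 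
(.lf (nat_lit 505123) (.g (nat_lit 1476) (.e (nat_lit 164322) (nat_lit 230) (.e (nat_lit 163902) (nat_lit 12) (.e (nat_lit 426568) (nat_lit 34) (.e (nat_lit 393271) (nat_lit 23) .nil)))) (.g (nat_lit 0) (.e (nat_lit 180790) (nat_lit 0) .nil) .nil))) 
(.lf (nat_lit 505635) (.g (nat_lit 2094) (.e (nat_lit 164326) (nat_lit 230) (.e (nat_lit 163871) (nat_lit 2) (.e (nat_lit 196656) (nat_lit 11) (.e (nat_lit 16433) (nat_lit 9) (.e (nat_lit 426568) (nat_lit 34) .nil))))) (.g (nat_lit 0) (.e (nat_lit 182187) (nat_lit 0) .nil) .nil))))) (.nd (nat_lit 8) (.nd (nat_lit 9) 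
(.lf (nat_lit 504995) (.g (nat_lit 1115) (.e (nat_lit 164288) (nat_lit 224) (.e (nat_lit 164358) (nat_lit 246) (.e (nat_lit 351) (nat_lit 28) (.e (nat_lit 393270) (nat_lit 23) (.e (nat_lit 433920) (nat_lit 17) .nil))))) (.g (nat_lit 0) (.e (nat_lit 180130) (nat_lit 0) .nil) .nil))) 
(.lf (nat_lit 505507) (.g (nat_lit 4091) (.e (nat_lit 164325) (nat_lit 230) (.e (nat_lit 163941) (nat_lit 19) (.e (nat_lit 483341) (nat_lit 9) (.e (nat_lit 426012) (nat_lit 0) .nil)))) (.g (nat_lit 0) (.e (nat_lit 181927) (nat_lit 0) .nil) .nil)))) (.nd (nat_lit 9) 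
(.lf (nat_lit 505251) (.g (nat_lit 2325) (.e (nat_lit 164324) (nat_lit 230) (.e (nat_lit 163944) (nat_lit 19) (.e (nat_lit 483337) (nat_lit 9) (.e (nat_lit 426190) (nat_lit 9) (.e (nat_lit 426436) (nat_lit 18) .nil))))) (.g (nat_lit 0) (.e (nat_lit 181099) (nat_lit 0) .nil) .nil))) 
(.lf (nat_lit 505763) (.g (nat_lit 3555) (.e (nat_lit 164326) (nat_lit 230) (.e (nat_lit 163941) (nat_lit 19) (.e (nat_lit 483341) (nat_lit 9) (.e (nat_lit 426258) (nat_lit 9) .nil)))) (.g (nat_lit 0) (.e (nat_lit 182457) (nat_lit 0) .nil) .nil)))))) (.nd (nat_lit 7) (.nd (nat_lit 8) (.nd (nat_lit 9) 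
(.lf (nat_lit 504931) (.g (nat_lit 3098) (.e (nat_lit 164239) (nat_lit 187) (.e (nat_lit 1638) (nat_lit 114) (.e (nat_lit 385074) (nat_lit 31) (.e (nat_lit 573482) (nat_lit 13) (.e (nat_lit 65597) (nat_lit 9) .nil))))) (.g (nat_lit 0) (.e (nat_lit 179653) (nat_lit 0) .nil) .nil))) 
(.lf (nat_lit 505443) (.g (nat_lit 3722) (.e (nat_lit 164325) (nat_lit 230) (.e (nat_lit 163903) (nat_lit 12) (.e (nat_lit 426566) (nat_lit 34) (.e (nat_lit 393295) (nat_lit 26) (.e (nat_lit 475179) (nat_lit 24) (.e (nat_lit 516119) (nat_lit 1) .nil)))))) (.g (nat_lit 1) (.e (nat_lit 181567) (nat_lit 0) .nil) .nil)))) (.nd (nat_lit 9) 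
(.lf (nat_lit 505187) (.g (nat_lit 2119) (.e (nat_lit 164324) (nat_lit 230) (.e (nat_lit 163869) (nat_lit 2) (.e (nat_lit 196630) (nat_lit 9) (.e (nat_lit 430) (nat_lit 32) (.e (nat_lit 426190) (nat_lit 9) .nil))))) (.g (nat_lit 0) (.e (nat_lit 180962) (nat_lit 0) .nil) .nil))) 
(.lf (nat_lit 505699) (.g (nat_lit 1492) (.e (nat_lit 164326) (nat_lit 230) (.e (nat_lit 163882) (nat_lit 4) (.e (nat_lit 213032) (nat_lit 11) (.e (nat_lit 24660) (nat_lit 13) (.e (nat_lit 393274) (nat_lit 23) (.e (nat_lit 426097) (nat_lit 1) .nil)))))) (.g (nat_lit 1) (.e (nat_lit 182283) (nat_lit 0) .nil) .nil))))) (.nd (nat_lit 8) (.nd (nat_lit 9) 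
(.lf (nat_lit 505059) (.g (nat_lit 1874) (.e (nat_lit 164322) (nat_lit 230) (.e (nat_lit 163867) (nat_lit 2) (.e (nat_lit 196656) (nat_lit 11) (.e (nat_lit 16444) (nat_lit 9) (.e (nat_lit 433920) (nat_lit 34) .nil))))) (.g (nat_lit 0) (.e (nat_lit 180696) (nat_lit 0) .nil) .nil))) 
(.lf (nat_lit 505571) (.g (nat_lit 1211) (.e (nat_lit 164326) (nat_lit 230) (.e (nat_lit 163868) (nat_lit 2) (.e (nat_lit 196655) (nat_lit 11) (.e (nat_lit 16435) (nat_lit 9) (.e (nat_lit 426529) (nat_lit 27) .nil))))) (.g (nat_lit 0) (.e (nat_lit 182081) (nat_lit 0) .nil) .nil)))) (.nd (nat_lit 9) 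
(.lf (nat_lit 505315) (.g (nat_lit 3825) (.e (nat_lit 164325) (nat_lit 230) (.e (nat_lit 163869) (nat_lit 2) (.e (nat_lit 196655) (nat_lit 11) (.e (nat_lit 16465) (nat_lit 13) (.e (nat_lit 483341) (nat_lit 9) (.e (nat_lit 426107) (nat_lit 1) .nil)))))) (.g (nat_lit 1) (.e (nat_lit 181336) (nat_lit 0) .nil) .nil))) 
(.lf (nat_lit 505827) (.g (nat_lit 4961) (.e (nat_lit 164327) (nat_lit 230) (.e (nat_lit 163870) (nat_lit 2) (.e (nat_lit 196630) (nat_lit 9) (.e (nat_lit 430) (nat_lit 32) (.e (nat_lit 426190) (nat_lit 9) (.e (nat_lit 426566) (nat_lit 34) (.e (nat_lit 393253) (nat_lit 18) .nil))))))) (.g (nat_lit 1) (.e (nat_lit 182583) (nat_lit 0) .nil) .nil)))))))) 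
(.nd (nat_lit 5) (.nd (nat_lit 6) (.nd (nat_lit 7) (.nd (nat_lit 8) (.nd (nat_lit 9) 
(.lf (nat_lit 504851) (.g (nat_lit 1499) (.e (nat_lit 164211) (nat_lit 176) (.e (nat_lit 2798) (nat_lit 180) (.e (nat_lit 303119) (nat_lit 3) (.e (nat_lit 204878) (nat_lit 31) .nil)))) (.g (nat_lit 0) (.e (nat_lit 179346) (nat_lit 0) .nil) .nil))) 
(.lf (nat_lit 505363) (.g (nat_lit 3978) (.e (nat_lit 164325) (nat_lit 230) (.e (nat_lit 163873) (nat_lit 3) (.e (nat_lit 204813) (nat_lit 9) (.e (nat_lit 426132) (nat_lit 3) .nil)))) (.g (nat_lit 0) (.e (nat_lit 181418) (nat_lit 0) .nil) .nil)))) (.nd (nat_lit 9) 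
(.lf (nat_lit 505107) (.g (nat_lit 1795) (.e (nat_lit 164322) (nat_lit 230) (.e (nat_lit 163884) (nat_lit 5) (.e (nat_lit 221194) (nat_lit 11) (.e (nat_lit 336086) (nat_lit 9) (.e (nat_lit 336427) (nat_lit 29) .nil))))) (.g (nat_lit 0) (.e (nat_lit 180773) (nat_lit 0) .nil) .nil))) 
(.lf (nat_lit 505619) (.g (nat_lit 770) (.e (nat_lit 164326) (nat_lit 230) (.e (nat_lit 163871) (nat_lit 2) (.e (nat_lit 196635) (nat_lit 9) .nil))) (.g (nat_lit 0) (.e (nat_lit 182159) (nat_lit 0) .nil) .nil))))) (.nd (nat_lit 8) (.nd (nat_lit 9) 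
(.lf (nat_lit 504979) (.g (nat_lit 942) (.e (nat_lit 164269) (nat_lit 221) (.e (nat_lit 2542) (nat_lit 158) (.e (nat_lit 8446) (nat_lit 140) (.e (nat_lit 57423) (nat_lit 14) (.e (nat_lit 360192) (nat_lit 4) (.e (nat_lit 213053) (nat_lit 17) (.e (nat_lit 164294) (nat_lit 224) .nil))))))) (.g (nat_lit 1) (.e (nat_lit 179995) (nat_lit 0) .nil) .nil))) 
(.lf (nat_lit 505491) (.g (nat_lit 3324) (.e (nat_lit 164325) (nat_lit 230) (.e (nat_lit 163907) (nat_lit 12) (.e (nat_lit 426566) (nat_lit 34) (.e (nat_lit 393295) (nat_lit 26) (.e (nat_lit 475179) (nat_lit 24) (.e (nat_lit 516119) (nat_lit 1) .nil)))))) (.g (nat_lit 1) (.e (nat_lit 181679) (nat_lit 0) .nil) .nil)))) (.nd (nat_lit 9) 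
(.lf (nat_lit 505235) (.g (nat_lit 3134) (.e (nat_lit 164324) (nat_lit 230) (.e (nat_lit 163905) (nat_lit 12) (.e (nat_lit 426566) (nat_lit 34) (.e (nat_lit 393294) (nat_lit 26) (.e (nat_lit 475177) (nat_lit 24) (.e (nat_lit 516118) (nat_lit 1) .nil)))))) (.g (nat_lit 1) (.e (nat_lit 181021) (nat_lit 0) .nil) .nil))) 
(.lf (nat_lit 505747) (.g (nat_lit 1405) (.e (nat_lit 164326) (nat_lit 230) (.e (nat_lit 163903) (nat_lit 12) (.e (nat_lit 426568) (nat_lit 34) (.e (nat_lit 393296) (nat_lit 26) .nil)))) (.g (nat_lit 0) (.e (nat_lit 182367) (nat_lit 0) .nil) .nil)))))) (.nd (nat_lit 7) (.nd (nat_lit 8) (.nd (nat_lit 9) 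
(.lf (nat_lit 504915) (.g (nat_lit 536) (.e (nat_lit 164249) (nat_lit 201) (.e (nat_lit 3067) (nat_lit 190) (.e (nat_lit 475178) (nat_lit 24) .nil))) (.g (nat_lit 0) (.e (nat_lit 179578) (nat_lit 0) .nil) .nil))) 
(.lf (nat_lit 505427) (.g (nat_lit 3120) (.e (nat_lit 164325) (nat_lit 230) (.e (nat_lit 163903) (nat_lit 12) (.e (nat_lit 426422) (nat_lit 16) (.e (nat_lit 57688) (nat_lit 156) (.e (nat_lit 163933) (nat_lit 17) (.e (nat_lit 466972) (nat_lit 21) (.e (nat_lit 164332) (nat_lit 230) (.e (nat_lit 163862) (nat_lit 1) .nil)))))))) (.g (nat_lit 1) (.e (nat_lit 181537) (nat_lit 0) .nil) .nil)))) 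
(.nd (nat_lit 9) 
(.lf (nat_lit 505171) (.g (nat_lit 2794) (.e (nat_lit 164323) (nat_lit 230) (.e (nat_lit 163902) (nat_lit 12) (.e (nat_lit 426566) (nat_lit 34) (.e (nat_lit 393293) (nat_lit 26) .nil)))) (.g (nat_lit 0) (.e (nat_lit 180935) (nat_lit 0) .nil) .nil))) 
(.lf (nat_lit 505683) (.g (nat_lit 1490) (.e (nat_lit 164326) (nat_lit 230) (.e (nat_lit 163875) (nat_lit 3) (.e (nat_lit 204813) (nat_lit 9) (.e (nat_lit 426199) (nat_lit 9) .nil)))) (.g (nat_lit 0) (.e (nat_lit 182266) (nat_lit 0) .nil) .nil))))) (.nd (nat_lit 8) (.nd (nat_lit 9) 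
(.lf (nat_lit 505043) (.g (nat_lit 2705) (.e (nat_lit 164305) (nat_lit 226) (.e (nat_lit 2630) (nat_lit 164) (.e (nat_lit 172067) (nat_lit 3) (.e (nat_lit 204852) (nat_lit 26) (.e (nat_lit 336310) (nat_lit 16) .nil))))) (.g (nat_lit 0) (.e (nat_lit 180445) (nat_lit 0) .nil) .nil))) 
(.lf (nat_lit 505555) (.g (nat_lit 1306) (.e (nat_lit 164326) (nat_lit 230) (.e (nat_lit 163868) (nat_lit 2) (.e (nat_lit 196631) (nat_lit 9) .nil))) (.g (nat_lit 0) (.e (nat_lit 182063) (nat_lit 0) .nil) .nil)))) (.nd (nat_lit 9) 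
(.lf (nat_lit 505299) (.g (nat_lit 4233) (.e (nat_lit 164325) (nat_lit 230) (.e (nat_lit 163868) (nat_lit 2) (.e (nat_lit 196656) (nat_lit 11) (.e (nat_lit 16463) (nat_lit 13) (.e (nat_lit 483337) (nat_lit 9) (.e (nat_lit 426107) (nat_lit 1) .nil)))))) (.g (nat_lit 1) (.e (nat_lit 181318) (nat_lit 0) .nil) .nil))) 
(.lf (nat_lit 505811) (.g (nat_lit 2734) (.e (nat_lit 164327) (nat_lit 230) (.e (nat_lit 163868) (nat_lit 2) (.e (nat_lit 196656) (nat_lit 11) (.e (nat_lit 16463) (nat_lit 13) (.e (nat_lit 483341) (nat_lit 9) (.e (nat_lit 426105) (nat_lit 1) .nil)))))) (.g (nat_lit 1) (.e (nat_lit 182564) (nat_lit 0) .nil) .nil))))))) (.nd (nat_lit 6) (.nd (nat_lit 7) (.nd (nat_lit 8) (.nd (nat_lit 9) 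
(.lf (nat_lit 504883) (.g (nat_lit 2739) (.e (nat_lit 171776) (nat_lit 176) (.e (nat_lit 2797) (nat_lit 180) (.e (nat_lit 303119) (nat_lit 3) (.e (nat_lit 204865) (nat_lit 28) (.e (nat_lit 352312) (nat_lit 22) .nil))))) (.g (nat_lit 0) (.e (nat_lit 179397) (nat_lit 0) .nil) .nil))) 
(.lf (nat_lit 505395) (.g (nat_lit 1623) (.e (nat_lit 164325) (nat_lit 230) (.e (nat_lit 163874) (nat_lit 3) (.e (nat_lit 204837) (nat_lit 20) (.e (nat_lit 114719) (nat_lit 23) .nil)))) (.g (nat_lit 0) (.e (nat_lit 181480) (nat_lit 0) .nil) .nil)))) (.nd (nat_lit 9) 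
(.lf (nat_lit 505139) (.g (nat_lit 1796) (.e (nat_lit 164323) (nat_lit 230) (.e (nat_lit 163867) (nat_lit 2) (.e (nat_lit 196654) (nat_lit 11) (.e (nat_lit 16463) (nat_lit 13) (.e (nat_lit 483341) (nat_lit 9) (.e (nat_lit 426106) (nat_lit 1) .nil)))))) (.g (nat_lit 1) (.e (nat_lit 180895) (nat_lit 0) .nil) .nil))) 
(.lf (nat_lit 505651) (.g (nat_lit 242) (.e (nat_lit 164326) (nat_lit 230) (.e (nat_lit 163873) (nat_lit 3) (.e (nat_lit 204813) (nat_lit 9) .nil))) (.g (nat_lit 0) (.e (nat_lit 182208) (nat_lit 0) .nil) .nil))))) (.nd (nat_lit 8) (.nd (nat_lit 9) 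
(.lf (nat_lit 505011) (.g (nat_lit 1413) (.e (nat_lit 164293) (nat_lit 224) (.e (nat_lit 164353) (nat_lit 246) (.e (nat_lit 226) (nat_lit 21) (.e (nat_lit 336430) (nat_lit 29) (.e (nat_lit 450304) (nat_lit 2) .nil))))) (.g (nat_lit 0) (.e (nat_lit 180273) (nat_lit 0) .nil) .nil))) 
(.lf (nat_lit 505523) (.g (nat_lit 804) (.e (nat_lit 164325) (nat_lit 230) (.e (nat_lit 163942) (nat_lit 19) (.e (nat_lit 483341) (nat_lit 9) (.e (nat_lit 426200) (nat_lit 9) .nil)))) (.g (nat_lit 0) (.e (nat_lit 181960) (nat_lit 0) .nil) .nil)))) (.nd (nat_lit 9) 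
(.lf (nat_lit 505267) (.g (nat_lit 1646) (.e (nat_lit 164325) (nat_lit 230) (.e (nat_lit 163867) (nat_lit 2) (.e (nat_lit 196656) (nat_lit 11) (.e (nat_lit 16436) (nat_lit 9) .nil)))) (.g (nat_lit 0) (.e (nat_lit 181262) (nat_lit 0) .nil) .nil))) 
(.lf (nat_lit 505779) (.g (nat_lit 1337) (.e (nat_lit 164327) (nat_lit 230) (.e (nat_lit 163868) (nat_lit 2) (.e (nat_lit 196624) (nat_lit 9) (.e (nat_lit 433) (nat_lit 32) (.e (nat_lit 426232) (nat_lit 9) .nil))))) (.g (nat_lit 0) (.e (nat_lit 182500) (nat_lit 0) .nil) .nil)))))) (.nd (nat_lit 7) (.nd (nat_lit 8) (.nd (nat_lit 9) 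
(.lf (nat_lit 504947) (.g (nat_lit 2238) (.e (nat_lit 171776) (nat_lit 192) (.e (nat_lit 73746) (nat_lit 3) (.e (nat_lit 516097) (nat_lit 0) (.e (nat_lit 7591) (nat_lit 407) (.e (nat_lit 73739) (nat_lit 1) .nil))))) (.g (nat_lit 0) (.e (nat_lit 179690) (nat_lit 0) .nil) .nil))) 
(.lf (nat_lit 505459) (.g (nat_lit 1414) (.e (nat_lit 164325) (nat_lit 230) (.e (nat_lit 163904) (nat_lit 12) (.e (nat_lit 426566) (nat_lit 34) (.e (nat_lit 393293) (nat_lit 26) .nil)))) (.g (nat_lit 0) (.e (nat_lit 181583) (nat_lit 0) .nil) .nil)))) (.nd (nat_lit 9) 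
(.lf (nat_lit 505203) (.g (nat_lit 2948) (.e (nat_lit 164324) (nat_lit 230) (.e (nat_lit 163873) (nat_lit 3) (.e (nat_lit 204813) (nat_lit 9) (.e (nat_lit 426196) (nat_lit 9) .nil)))) (.g (nat_lit 0) (.e (nat_lit 180979) (nat_lit 0) .nil) .nil))) 
(.lf (nat_lit 505715) (.g (nat_lit 1910) (.e (nat_lit 164326) (nat_lit 230) (.e (nat_lit 163903) (nat_lit 12) (.e (nat_lit 426428) (nat_lit 17) (.e (nat_lit 90170) (nat_lit 13) (.e (nat_lit 172113) (nat_lit 10) .nil))))) (.g (nat_lit 0) (.e (nat_lit 182325) (nat_lit 0) .nil) .nil))))) (.nd (nat_lit 8) (.nd (nat_lit 9) 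
(.lf (nat_lit 505075) (.g (nat_lit 2387) (.e (nat_lit 164322) (nat_lit 230) (.e (nat_lit 163871) (nat_lit 2) (.e (nat_lit 196656) (nat_lit 11) (.e (nat_lit 16433) (nat_lit 9) (.e (nat_lit 426566) (nat_lit 34) .nil))))) (.g (nat_lit 0) (.e (nat_lit 180719) (nat_lit 0) .nil) .nil))) 
(.lf (nat_lit 505587) (.g (nat_lit 2436) (.e (nat_lit 164326) (nat_lit 230) (.e (nat_lit 163869) (nat_lit 2) (.e (nat_lit 196654) (nat_lit 11) (.e (nat_lit 16466) (nat_lit 13) (.e (nat_lit 483341) (nat_lit 9) (.e (nat_lit 426106) (nat_lit 1) .nil)))))) (.g (nat_lit 1) (.e (nat_lit 182111) (nat_lit 0) .nil) .nil)))) (.nd (nat_lit 9) 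
(.lf (nat_lit 505331) (.g (nat_lit 2734) (.e (nat_lit 164325) (nat_lit 230) (.e (nat_lit 163871) (nat_lit 2) (.e (nat_lit 196654) (nat_lit 11) (.e (nat_lit 16416) (nat_lit 3) (.e (nat_lit 204837) (nat_lit 20) (.e (nat_lit 114719) (nat_lit 23) (.e (nat_lit 98333) (nat_lit 18) .nil))))))) (.g (nat_lit 1) (.e (nat_lit 181361) (nat_lit 0) .nil) .nil))) 
(.lf (nat_lit 505843) (.g (nat_lit 3466) (.e (nat_lit 164327) (nat_lit 230) (.e (nat_lit 163871) (nat_lit 2) (.e (nat_lit 196654) (nat_lit 11) (.e (nat_lit 16416) (nat_lit 3) (.e (nat_lit 204837) (nat_lit 20) (.e (nat_lit 114718) (nat_lit 23) (.e (nat_lit 98332) (nat_lit 18) .nil))))))) (.g (nat_lit 1) (.e (nat_lit 182606) (nat_lit 0) .nil) .nil))))))))) 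
(.nd (nat_lit 4) (.nd (nat_lit 5) (.nd (nat_lit 6) (.nd (nat_lit 7) (.nd (nat_lit 8) 
(.nd (nat_lit 9) 
(.lf (nat_lit 504843) (.g (nat_lit 3372) (.e (nat_lit 164211) (nat_lit 176) (.e (nat_lit 2797) (nat_lit 180) (.e (nat_lit 303119) (nat_lit 3) (.e (nat_lit 204865) (nat_lit 28) (.e (nat_lit 352312) (nat_lit 22) .nil))))) (.g (nat_lit 0) (.e (nat_lit 179334) (nat_lit 0) .nil) .nil))) 
(.lf (nat_lit 505355) (.g (nat_lit 302) (.e (nat_lit 164325) (nat_lit 230) (.e (nat_lit 163873) (nat_lit 3) (.e (nat_lit 204809) (nat_lit 9) .nil))) (.g (nat_lit 0) (.e (nat_lit 181395) (nat_lit 0) .nil) .nil)))) (.nd (nat_lit 9) 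
(.lf (nat_lit 505099) (.g (nat_lit 858) (.e (nat_lit 164322) (nat_lit 230) (.e (nat_lit 163875) (nat_lit 3) (.e (nat_lit 204809) (nat_lit 9) .nil))) (.g (nat_lit 0) (.e (nat_lit 180761) (nat_lit 0) .nil) .nil))) 
(.lf (nat_lit 505611) (.g (nat_lit 1271) (.e (nat_lit 164326) (nat_lit 230) (.e (nat_lit 163871) (nat_lit 2) (.e (nat_lit 196625) (nat_lit 9) .nil))) (.g (nat_lit 0) (.e (nat_lit 182148) (nat_lit 0) .nil) .nil))))) (.nd (nat_lit 8) (.nd (nat_lit 9) 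
(.lf (nat_lit 504971) (.g (nat_lit 2834) (.e (nat_lit 171776) (nat_lit 278) (.e (nat_lit 1127) (nat_lit 83) (.e (nat_lit 16416) (nat_lit 3) (.e (nat_lit 204868) (nat_lit 29) (.e (nat_lit 360466) (nat_lit 3) .nil))))) (.g (nat_lit 0) (.e (nat_lit 179954) (nat_lit 0) .nil) .nil))) 
(.lf (nat_lit 505483) (.g (nat_lit 828) (.e (nat_lit 164325) (nat_lit 230) (.e (nat_lit 163907) (nat_lit 12) (.e (nat_lit 426494) (nat_lit 27) .nil))) (.g (nat_lit 0) (.e (nat_lit 181661) (nat_lit 0) .nil) .nil)))) (.nd (nat_lit 9) 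
(.lf (nat_lit 505227) (.g (nat_lit 3098) (.e (nat_lit 164324) (nat_lit 230) (.e (nat_lit 163902) (nat_lit 12) (.e (nat_lit 426568) (nat_lit 34) (.e (nat_lit 393291) (nat_lit 26) (.e (nat_lit 475177) (nat_lit 24) (.e (nat_lit 516119) (nat_lit 1) .nil)))))) (.g (nat_lit 1) (.e (nat_lit 181012) (nat_lit 0) .nil) .nil))) 
(.lf (nat_lit 505739) (.g (nat_lit 1474) (.e (nat_lit 164326) (nat_lit 230) (.e (nat_lit 163903) (nat_lit 12) (.e (nat_lit 426568) (nat_lit 34) (.e (nat_lit 393267) (nat_lit 23) (.e (nat_lit 426434) (nat_lit 18) .nil))))) (.g (nat_lit 0) (.e (nat_lit 182357) (nat_lit 0) .nil) .nil)))))) (.nd (nat_lit 7) (.nd (nat_lit 8) (.nd (nat_lit 9) 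
(.lf (nat_lit 504907) (.g (nat_lit 2200) (.e (nat_lit 164232) (nat_lit 185) (.e (nat_lit 163943) (nat_lit 19) (.e (nat_lit 483365) (nat_lit 18) (.e (nat_lit 57655) (nat_lit 152) .nil)))) (.g (nat_lit 0) (.e (nat_lit 179550) (nat_lit 0) .nil) .nil))) 
(.lf (nat_lit 505419) (.g (nat_lit 3465) (.e (nat_lit 164325) (nat_lit 230) (.e (nat_lit 163902) (nat_lit 12) (.e (nat_lit 426566) (nat_lit 34) (.e (nat_lit 393292) (nat_lit 26) .nil)))) (.g (nat_lit 0) (.e (nat_lit 181514) (nat_lit 0) .nil) .nil)))) (.nd (nat_lit 9) 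
(.lf (nat_lit 505163) (.g (nat_lit 3184) (.e (nat_lit 164323) (nat_lit 230) (.e (nat_lit 163873) (nat_lit 3) (.e (nat_lit 204813) (nat_lit 9) (.e (nat_lit 426200) (nat_lit 9) .nil)))) (.g (nat_lit 0) (.e (nat_lit 180920) (nat_lit 0) .nil) .nil))) 
(.lf (nat_lit 505675) (.g (nat_lit 1969) (.e (nat_lit 164326) (nat_lit 230) (.e (nat_lit 163875) (nat_lit 3) (.e (nat_lit 204811) (nat_lit 9) (.e (nat_lit 426234) (nat_lit 9) (.e (nat_lit 426565) (nat_lit 34) (.e (nat_lit 393254) (nat_lit 18) .nil)))))) (.g (nat_lit 1) (.e (nat_lit 182258) (nat_lit 0) .nil) .nil))))) (.nd (nat_lit 8) (.nd (nat_lit 9) 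
(.lf (nat_lit 505035) (.g (nat_lit 3083) (.e (nat_lit 164305) (nat_lit 226) (.e (nat_lit 2612) (nat_lit 163) (.e (nat_lit 163978) (nat_lit 30) (.e (nat_lit 573487) (nat_lit 14) (.e (nat_lit 73753) (nat_lit 8) .nil))))) (.g (nat_lit 0) (.e (nat_lit 180421) (nat_lit 0) .nil) .nil))) 
(.lf (nat_lit 505547) (.g (nat_lit 1344) (.e (nat_lit 164326) (nat_lit 230) (.e (nat_lit 163868) (nat_lit 2) (.e (nat_lit 196621) (nat_lit 9) .nil))) (.g (nat_lit 0) (.e (nat_lit 182047) (nat_lit 0) .nil) .nil)))) (.nd (nat_lit 9) 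
(.lf (nat_lit 505291) (.g (nat_lit 2014) (.e (nat_lit 164325) (nat_lit 230) (.e (nat_lit 163868) (nat_lit 2) (.e (nat_lit 196656) (nat_lit 11) (.e (nat_lit 16436) (nat_lit 9) (.e (nat_lit 426487) (nat_lit 27) .nil))))) (.g (nat_lit 0) (.e (nat_lit 181303) (nat_lit 0) .nil) .nil))) 
(.lf (nat_lit 505803) (.g (nat_lit 3386) (.e (nat_lit 164327) (nat_lit 230) (.e (nat_lit 163868) (nat_lit 2) (.e (nat_lit 196656) (nat_lit 11) (.e (nat_lit 16416) (nat_lit 3) (.e (nat_lit 204834) (nat_lit 19) (.e (nat_lit 106517) (nat_lit 9) (.e (nat_lit 1255) (nat_lit 92) (.e (nat_lit 98333) (nat_lit 18) .nil)))))))) (.g (nat_lit 1) (.e (nat_lit 182548) (nat_lit 0) .nil) .nil))))))) 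
(.nd (nat_lit 6) (.nd (nat_lit 7) (.nd (nat_lit 8) (.nd (nat_lit 9) 
(.lf (nat_lit 504875) (.g (nat_lit 431) (.e (nat_lit 164214) (nat_lit 176) (.e (nat_lit 2798) (nat_lit 180) (.e (nat_lit 303119) (nat_lit 3) .nil))) (.g (nat_lit 0) (.e (nat_lit 179384) (nat_lit 0) .nil) .nil))) 
(.lf (nat_lit 505387) (.g (nat_lit 4118) (.e (nat_lit 164325) (nat_lit 230) (.e (nat_lit 163873) (nat_lit 3) (.e (nat_lit 204813) (nat_lit 9) (.e (nat_lit 426258) (nat_lit 9) .nil)))) (.g (nat_lit 0) (.e (nat_lit 181446) (nat_lit 0) .nil) .nil)))) (.nd (nat_lit 9) 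
(.lf (nat_lit 505131) (.g (nat_lit 824) (.e (nat_lit 164322) (nat_lit 230) (.e (nat_lit 163907) (nat_lit 12) (.e (nat_lit 426227) (nat_lit 9) .nil))) (.g (nat_lit 0) (.e (nat_lit 180799) (nat_lit 0) .nil) .nil))) 
(.lf (nat_lit 505643) (.g (nat_lit 2022) (.e (nat_lit 164326) (nat_lit 230) (.e (nat_lit 163871) (nat_lit 2) (.e (nat_lit 196656) (nat_lit 11) (.e (nat_lit 16446) (nat_lit 9) .nil)))) (.g (nat_lit 0) (.e (nat_lit 182195) (nat_lit 0) .nil) .nil))))) (.nd (nat_lit 8) (.nd (nat_lit 9) 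
(.lf (nat_lit 505003) (.g (nat_lit 1119) (.e (nat_lit 164292) (nat_lit 224) (.e (nat_lit 164092) (nat_lit 82) (.e (nat_lit 500046) (nat_lit 16) (.e (nat_lit 16463) (nat_lit 13) (.e (nat_lit 491264) (nat_lit 0) (.e (nat_lit 7098) (nat_lit 380) .nil)))))) (.g (nat_lit 1) (.e (nat_lit 180222) (nat_lit 0) .nil) .nil))) 
(.lf (nat_lit 505515) (.g (nat_lit 3580) (.e (nat_lit 164325) (nat_lit 230) (.e (nat_lit 163941) (nat_lit 19) (.e (nat_lit 483341) (nat_lit 9) (.e (nat_lit 426204) (nat_lit 9) .nil)))) (.g (nat_lit 0) (.e (nat_lit 181942) (nat_lit 0) .nil) .nil)))) (.nd (nat_lit 9) 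
(.lf (nat_lit 505259) (.g (nat_lit 778) (.e (nat_lit 164325) (nat_lit 230) (.e (nat_lit 163867) (nat_lit 2) (.e (nat_lit 196624) (nat_lit 9) .nil))) (.g (nat_lit 0) (.e (nat_lit 181250) (nat_lit 0) .nil) .nil))) 
(.lf (nat_lit 505771) (.g (nat_lit 3919) (.e (nat_lit 164327) (nat_lit 230) (.e (nat_lit 163851) (nat_lit 0) (.e (nat_lit 3307) (nat_lit 202) (.e (nat_lit 573489) (nat_lit 14) (.e (nat_lit 73755) (nat_lit 8) (.e (nat_lit 557097) (nat_lit 13) (.e (nat_lit 179968) (nat_lit 18) (.e (nat_lit 98333) (nat_lit 18) .nil)))))))) (.g (nat_lit 1) (.e (nat_lit 182477) (nat_lit 0) .nil) .nil)))))) 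
(.nd (nat_lit 7) (.nd (nat_lit 8) (.nd (nat_lit 9) 
(.lf (nat_lit 504939) (.g (nat_lit 2233) (.e (nat_lit 171776) (nat_lit 187) (.e (nat_lit 1635) (nat_lit 114) (.e (nat_lit 385074) (nat_lit 31) (.e (nat_lit 573493) (nat_lit 15) (.e (nat_lit 81953) (nat_lit 22) .nil))))) (.g (nat_lit 0) (.e (nat_lit 179671) (nat_lit 0) .nil) .nil))) 
(.lf (nat_lit 505451) (.g (nat_lit 1809) (.e (nat_lit 164325) (nat_lit 230) (.e (nat_lit 163904) (nat_lit 12) (.e (nat_lit 426566) (nat_lit 34) (.e (nat_lit 393271) (nat_lit 23) (.e (nat_lit 426357) (nat_lit 15) .nil))))) (.g (nat_lit 0) (.e (nat_lit 181575) (nat_lit 0) .nil) .nil)))) (.nd (nat_lit 9) 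
(.lf (nat_lit 505195) (.g (nat_lit 1703) (.e (nat_lit 164324) (nat_lit 230) (.e (nat_lit 163871) (nat_lit 2) (.e (nat_lit 196656) (nat_lit 11) (.e (nat_lit 16444) (nat_lit 9) .nil)))) (.g (nat_lit 0) (.e (nat_lit 180971) (nat_lit 0) .nil) .nil))) 
(.lf (nat_lit 505707) (.g (nat_lit 2383) (.e (nat_lit 164326) (nat_lit 230) (.e (nat_lit 163902) (nat_lit 12) (.e (nat_lit 426566) (nat_lit 34) (.e (nat_lit 393294) (nat_lit 26) .nil)))) (.g (nat_lit 0) (.e (nat_lit 182299) (nat_lit 0) .nil) .nil))))) (.nd (nat_lit 8) (.nd (nat_lit 9) 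
(.lf (nat_lit 505067) (.g (nat_lit 1676) (.e (nat_lit 164322) (nat_lit 230) (.e (nat_lit 163868) (nat_lit 2) (.e (nat_lit 196656) (nat_lit 11) (.e (nat_lit 16444) (nat_lit 9) .nil)))) (.g (nat_lit 0) (.e (nat_lit 180708) (nat_lit 0) .nil) .nil))) 
(.lf (nat_lit 505579) (.g (nat_lit 3138) (.e (nat_lit 164326) (nat_lit 230) (.e (nat_lit 163868) (nat_lit 2) (.e (nat_lit 196656) (nat_lit 11) (.e (nat_lit 16439) (nat_lit 9) (.e (nat_lit 426501) (nat_lit 27) .nil))))) (.g (nat_lit 0) (.e (nat_lit 182098) (nat_lit 0) .nil) .nil)))) (.nd (nat_lit 9) 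
(.lf (nat_lit 505323) (.g (nat_lit 1100) (.e (nat_lit 164325) (nat_lit 230) (.e (nat_lit 163870) (nat_lit 2) (.e (nat_lit 196628) (nat_lit 9) (.e (nat_lit 478) (nat_lit 37) .nil)))) (.g (nat_lit 0) (.e (nat_lit 181348) (nat_lit 0) .nil) .nil))) 
(.lf (nat_lit 505835) (.g (nat_lit 1589) (.e (nat_lit 164327) (nat_lit 230) (.e (nat_lit 163871) (nat_lit 2) (.e (nat_lit 196653) (nat_lit 11) (.e (nat_lit 16468) (nat_lit 13) (.e (nat_lit 491264) (nat_lit 9) .nil))))) (.g (nat_lit 0) (.e (nat_lit 182597) (nat_lit 0) .nil) .nil)))))))) (.nd (nat_lit 5) (.nd (nat_lit 6) (.nd (nat_lit 7) (.nd (nat_lit 8) (.nd (nat_lit 9) 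
(.lf (nat_lit 504859) (.g (nat_lit 2590) (.e (nat_lit 164212) (nat_lit 176) (.e (nat_lit 2797) (nat_lit 180) (.e (nat_lit 303119) (nat_lit 3) (.e (nat_lit 204878) (nat_lit 31) (.e (nat_lit 376865) (nat_lit 22) .nil))))) (.g (nat_lit 0) (.e (nat_lit 179357) (nat_lit 0) .nil) .nil))) 
(.lf (nat_lit 505371) (.g (nat_lit 3020) (.e (nat_lit 164325) (nat_lit 230) (.e (nat_lit 163873) (nat_lit 3) (.e (nat_lit 204813) (nat_lit 9) (.e (nat_lit 426187) (nat_lit 9) (.e (nat_lit 426566) (nat_lit 34) .nil))))) (.g (nat_lit 0) (.e (nat_lit 181429) (nat_lit 0) .nil) .nil)))) (.nd (nat_lit 9) 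
(.lf (nat_lit 505115) (.g (nat_lit 2188) (.e (nat_lit 164322) (nat_lit 230) (.e (nat_lit 163902) (nat_lit 12) (.e (nat_lit 426566) (nat_lit 34) (.e (nat_lit 393291) (nat_lit 26) (.e (nat_lit 475177) (nat_lit 24) .nil))))) (.g (nat_lit 0) (.e (nat_lit 180782) (nat_lit 0) .nil) .nil))) 
(.lf (nat_lit 505627) (.g (nat_lit 2763) (.e (nat_lit 164326) (nat_lit 230) (.e (nat_lit 163871) (nat_lit 2) (.e (nat_lit 196653) (nat_lit 11) (.e (nat_lit 16463) (nat_lit 13) (.e (nat_lit 483341) (nat_lit 9) (.e (nat_lit 426107) (nat_lit 1) .nil)))))) (.g (nat_lit 1) (.e (nat_lit 182169) (nat_lit 0) .nil) .nil))))) (.nd (nat_lit 8) (.nd (nat_lit 9) 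
(.lf (nat_lit 504987) (.g (nat_lit 414) (.e (nat_lit 164286) (nat_lit 224) (.e (nat_lit 164358) (nat_lit 246) (.e (nat_lit 351) (nat_lit 28) .nil))) (.g (nat_lit 0) (.e (nat_lit 180056) (nat_lit 0) .nil) .nil))) 
(.lf (nat_lit 505499) (.g (nat_lit 3079) (.e (nat_lit 164325) (nat_lit 230) (.e (nat_lit 163907) (nat_lit 12) (.e (nat_lit 426568) (nat_lit 34) (.e (nat_lit 393293) (nat_lit 26) (.e (nat_lit 475179) (nat_lit 24) (.e (nat_lit 516119) (nat_lit 1) .nil)))))) (.g (nat_lit 1) (.e (nat_lit 181687) (nat_lit 0) .nil) .nil)))) (.nd (nat_lit 9) 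
(.lf (nat_lit 505243) (.g (nat_lit 2169) (.e (nat_lit 164324) (nat_lit 230) (.e (nat_lit 163941) (nat_lit 19) (.e (nat_lit 483341) (nat_lit 9) (.e (nat_lit 426198) (nat_lit 9) (.e (nat_lit 433920) (nat_lit 18) (.e (nat_lit 98335) (nat_lit 18) .nil)))))) (.g (nat_lit 1) (.e (nat_lit 181073) (nat_lit 0) .nil) .nil))) 
(.lf (nat_lit 505755) (.g (nat_lit 1966) (.e (nat_lit 164326) (nat_lit 230) (.e (nat_lit 163941) (nat_lit 19) (.e (nat_lit 483341) (nat_lit 9) (.e (nat_lit 426197) (nat_lit 9) .nil)))) (.g (nat_lit 0) (.e (nat_lit 182445) (nat_lit 0) .nil) .nil)))))) (.nd (nat_lit 7) (.nd (nat_lit 8) (.nd (nat_lit 9) 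
(.lf (nat_lit 504923) (.g (nat_lit 2082) (.e (nat_lit 164238) (nat_lit 187) (.e (nat_lit 1234) (nat_lit 91) (.e (nat_lit 90170) (nat_lit 13) (.e (nat_lit 172113) (nat_lit 10) (.e (nat_lit 434231) (nat_lit 23) .nil))))) (.g (nat_lit 0) (.e (nat_lit 179643) (nat_lit 0) .nil) .nil))) 
(.lf (nat_lit 505435) (.g (nat_lit 3122) (.e (nat_lit 164325) (nat_lit 230) (.e (nat_lit 163903) (nat_lit 12) (.e (nat_lit 426472) (nat_lit 25) (.e (nat_lit 319534) (nat_lit 16) (.e (nat_lit 286756) (nat_lit 10) (.e (nat_lit 344097) (nat_lit 18) (.e (nat_lit 7280) (nat_lit 386) (.e (nat_lit 163863) (nat_lit 1) .nil)))))))) (.g (nat_lit 1) (.e (nat_lit 181549) (nat_lit 0) .nil) .nil)))) 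
(.nd (nat_lit 9) 
(.lf (nat_lit 505179) (.g (nat_lit 1854) (.e (nat_lit 164324) (nat_lit 230) (.e (nat_lit 163868) (nat_lit 2) (.e (nat_lit 196656) (nat_lit 11) (.e (nat_lit 16388) (nat_lit 0) .nil)))) (.g (nat_lit 0) (.e (nat_lit 180952) (nat_lit 0) .nil) .nil))) 
(.lf (nat_lit 505691) (.g (nat_lit 2097) (.e (nat_lit 164326) (nat_lit 230) (.e (nat_lit 163882) (nat_lit 4) (.e (nat_lit 213030) (nat_lit 11) (.e (nat_lit 24660) (nat_lit 13) (.e (nat_lit 393266) (nat_lit 23) (.e (nat_lit 426109) (nat_lit 1) .nil)))))) (.g (nat_lit 1) (.e (nat_lit 182275) (nat_lit 0) .nil) .nil))))) (.nd (nat_lit 8) (.nd (nat_lit 9) 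
(.lf (nat_lit 505051) (.g (nat_lit 1485) (.e (nat_lit 164322) (nat_lit 230) (.e (nat_lit 163867) (nat_lit 2) (.e (nat_lit 196624) (nat_lit 9) (.e (nat_lit 433) (nat_lit 32) .nil)))) (.g (nat_lit 0) (.e (nat_lit 180682) (nat_lit 0) .nil) .nil))) 
(.lf (nat_lit 505563) (.g (nat_lit 2672) (.e (nat_lit 164326) (nat_lit 230) (.e (nat_lit 163868) (nat_lit 2) (.e (nat_lit 196652) (nat_lit 11) (.e (nat_lit 16433) (nat_lit 9) (.e (nat_lit 426566) (nat_lit 34) (.e (nat_lit 393254) (nat_lit 18) .nil)))))) (.g (nat_lit 1) (.e (nat_lit 182072) (nat_lit 0) .nil) .nil)))) (.nd (nat_lit 9) 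
(.lf (nat_lit 505307) (.g (nat_lit 1797) (.e (nat_lit 164325) (nat_lit 230) (.e (nat_lit 163869) (nat_lit 2) (.e (nat_lit 196630) (nat_lit 9) (.e (nat_lit 430) (nat_lit 32) .nil)))) (.g (nat_lit 0) (.e (nat_lit 181326) (nat_lit 0) .nil) .nil))) 
(.lf (nat_lit 505819) (.g (nat_lit 730) (.e (nat_lit 164327) (nat_lit 230) (.e (nat_lit 163869) (nat_lit 2) (.e (nat_lit 196653) (nat_lit 11) .nil))) (.g (nat_lit 0) (.e (nat_lit 182575) (nat_lit 0) .nil) .nil))))))) (.nd (nat_lit 6) (.nd (nat_lit 7) (.nd (nat_lit 8) (.nd (nat_lit 9) 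
(.lf (nat_lit 504891) (.g (nat_lit 2307) (.e (nat_lit 171776) (nat_lit 176) (.e (nat_lit 2797) (nat_lit 180) (.e (nat_lit 303119) (nat_lit 3) (.e (nat_lit 204878) (nat_lit 31) (.e (nat_lit 376865) (nat_lit 22) .nil))))) (.g (nat_lit 0) (.e (nat_lit 179405) (nat_lit 0) .nil) .nil))) 
(.lf (nat_lit 505403) (.g (nat_lit 1747) (.e (nat_lit 164325) (nat_lit 230) (.e (nat_lit 163875) (nat_lit 3) (.e (nat_lit 204813) (nat_lit 9) (.e (nat_lit 426200) (nat_lit 9) (.e (nat_lit 426481) (nat_lit 27) .nil))))) (.g (nat_lit 0) (.e (nat_lit 181489) (nat_lit 0) .nil) .nil)))) (.nd (nat_lit 9) 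
(.lf (nat_lit 505147) (.g (nat_lit 916) (.e (nat_lit 164323) (nat_lit 230) (.e (nat_lit 163868) (nat_lit 2) (.e (nat_lit 196654) (nat_lit 11) .nil))) (.g (nat_lit 0) (.e (nat_lit 180904) (nat_lit 0) .nil) .nil))) 
(.lf (nat_lit 505659) (.g (nat_lit 3630) (.e (nat_lit 164326) (nat_lit 230) (.e (nat_lit 163873) (nat_lit 3) (.e (nat_lit 204813) (nat_lit 9) (.e (nat_lit 426213) (nat_lit 9) .nil)))) (.g (nat_lit 0) (.e (nat_lit 182231) (nat_lit 0) .nil) .nil))))) (.nd (nat_lit 8) (.nd (nat_lit 9) 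
(.lf (nat_lit 505019) (.g (nat_lit 849) (.e (nat_lit 164294) (nat_lit 224) (.e (nat_lit 164356) (nat_lit 246) (.e (nat_lit 351) (nat_lit 28) (.e (nat_lit 393272) (nat_lit 23) .nil)))) (.g (nat_lit 0) (.e (nat_lit 180305) (nat_lit 0) .nil) .nil))) 
(.lf (nat_lit 505531) (.g (nat_lit 2439) (.e (nat_lit 164325) (nat_lit 230) (.e (nat_lit 163943) (nat_lit 19) (.e (nat_lit 483341) (nat_lit 9) (.e (nat_lit 426198) (nat_lit 9) (.e (nat_lit 426382) (nat_lit 15) .nil))))) (.g (nat_lit 0) (.e (nat_lit 181985) (nat_lit 0) .nil) .nil)))) (.nd (nat_lit 9) 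
(.lf (nat_lit 505275) (.g (nat_lit 1656) (.e (nat_lit 164325) (nat_lit 230) (.e (nat_lit 163868) (nat_lit 2) (.e (nat_lit 196630) (nat_lit 9) (.e (nat_lit 430) (nat_lit 32) .nil)))) (.g (nat_lit 0) (.e (nat_lit 181282) (nat_lit 0) .nil) .nil))) 
(.lf (nat_lit 505787) (.g (nat_lit 2421) (.e (nat_lit 164327) (nat_lit 230) (.e (nat_lit 163868) (nat_lit 2) (.e (nat_lit 196654) (nat_lit 11) (.e (nat_lit 16416) (nat_lit 3) (.e (nat_lit 204838) (nat_lit 20) (.e (nat_lit 114717) (nat_lit 23) (.e (nat_lit 98333) (nat_lit 18) .nil))))))) (.g (nat_lit 1) (.e (nat_lit 182520) (nat_lit 0) .nil) .nil)))))) 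
(.nd (nat_lit 7) (.nd (nat_lit 8) (.nd (nat_lit 9) 
(.lf (nat_lit 504955) (.g (nat_lit 737) (.e (nat_lit 171776) (nat_lit 192) (.e (nat_lit 73747) (nat_lit 3) (.e (nat_lit 516097) (nat_lit 0) .nil))) (.g (nat_lit 0) (.e (nat_lit 179699) (nat_lit 0) .nil) .nil))) 
(.lf (nat_lit 505467) (.g (nat_lit 2351) (.e (nat_lit 164325) (nat_lit 230) (.e (nat_lit 163905) (nat_lit 12) (.e (nat_lit 426566) (nat_lit 34) (.e (nat_lit 393273) (nat_lit 23) (.e (nat_lit 426382) (nat_lit 15) .nil))))) (.g (nat_lit 0) (.e (nat_lit 181604) (nat_lit 0) .nil) .nil)))) (.nd (nat_lit 9) 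
(.lf (nat_lit 505211) (.g (nat_lit 1431) (.e (nat_lit 164324) (nat_lit 230) (.e (nat_lit 163874) (nat_lit 3) (.e (nat_lit 204813) (nat_lit 9) (.e (nat_lit 426186) (nat_lit 9) .nil)))) (.g (nat_lit 0) (.e (nat_lit 180995) (nat_lit 0) .nil) .nil))) 
(.lf (nat_lit 505723) (.g (nat_lit 2814) (.e (nat_lit 164326) (nat_lit 230) (.e (nat_lit 163903) (nat_lit 12) (.e (nat_lit 426564) (nat_lit 34) (.e (nat_lit 393268) (nat_lit 23) (.e (nat_lit 426428) (nat_lit 17) (.e (nat_lit 90130) (nat_lit 9) (.e (nat_lit 2612) (nat_lit 163) .nil))))))) (.g (nat_lit 1) (.e (nat_lit 182339) (nat_lit 0) .nil) .nil))))) (.nd (nat_lit 8) (.nd (nat_lit 9) 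
(.lf (nat_lit 505083) (.g (nat_lit 3910) (.e (nat_lit 164322) (nat_lit 230) (.e (nat_lit 163873) (nat_lit 3) (.e (nat_lit 204813) (nat_lit 9) (.e (nat_lit 426139) (nat_lit 3) .nil)))) (.g (nat_lit 0) (.e (nat_lit 180734) (nat_lit 0) .nil) .nil))) 
(.lf (nat_lit 505595) (.g (nat_lit 1687) (.e (nat_lit 164326) (nat_lit 230) (.e (nat_lit 163870) (nat_lit 2) (.e (nat_lit 196624) (nat_lit 9) (.e (nat_lit 457) (nat_lit 34) .nil)))) (.g (nat_lit 0) (.e (nat_lit 182122) (nat_lit 0) .nil) .nil)))) (.nd (nat_lit 9) 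
(.lf (nat_lit 505339) (.g (nat_lit 1076) (.e (nat_lit 164325) (nat_lit 230) (.e (nat_lit 163871) (nat_lit 2) (.e (nat_lit 196656) (nat_lit 11) (.e (nat_lit 16433) (nat_lit 9) .nil)))) (.g (nat_lit 0) (.e (nat_lit 181374) (nat_lit 0) .nil) .nil))) 
(.lf (nat_lit 505851) (.g (nat_lit 2352) (.e (nat_lit 164327) (nat_lit 230) (.e (nat_lit 163871) (nat_lit 2) (.e (nat_lit 196654) (nat_lit 11) (.e (nat_lit 16436) (nat_lit 9) (.e (nat_lit 426491) (nat_lit 27) (.e (nat_lit 336409) (nat_lit 27) (.e (nat_lit 426098) (nat_lit 1) .nil))))))) (.g (nat_lit 1) (.e (nat_lit 182618) (nat_lit 0) .nil) .nil)))))))))) 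
(.nd (nat_lit 3) (.nd (nat_lit 4) (.nd (nat_lit 5) (.nd (nat_lit 6) (.nd (nat_lit 7) 
(.nd (nat_lit 8) (.nd (nat_lit 9) 
(.lf (nat_lit 504839) (.g (nat_lit 2659) (.e (nat_lit 164211) (nat_lit 176) (.e (nat_lit 2797) (nat_lit 180) (.e (nat_lit 303117) (nat_lit 2) (.e (nat_lit 196674) (nat_lit 15) (.e (nat_lit 81952) (nat_lit 22) .nil))))) (.g (nat_lit 0) (.e (nat_lit 179328) (nat_lit 0) .nil) .nil))) 
(.lf (nat_lit 505351) (.g (nat_lit 2565) (.e (nat_lit 164325) (nat_lit 230) (.e (nat_lit 163871) (nat_lit 2) (.e (nat_lit 196656) (nat_lit 11) (.e (nat_lit 16463) (nat_lit 13) (.e (nat_lit 483336) (nat_lit 9) (.e (nat_lit 426107) (nat_lit 1) .nil)))))) (.g (nat_lit 1) (.e (nat_lit 181390) (nat_lit 0) .nil) .nil)))) (.nd (nat_lit 9) 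
(.lf (nat_lit 505095) (.g (nat_lit 1570) (.e (nat_lit 164322) (nat_lit 230) (.e (nat_lit 163873) (nat_lit 3) (.e (nat_lit 204813) (nat_lit 9) (.e (nat_lit 426200) (nat_lit 9) .nil)))) (.g (nat_lit 0) (.e (nat_lit 180746) (nat_lit 0) .nil) .nil))) 
(.lf (nat_lit 505607) (.g (nat_lit 524) (.e (nat_lit 164326) (nat_lit 230) (.e (nat_lit 163871) (nat_lit 2) (.e (nat_lit 196619) (nat_lit 9) .nil))) (.g (nat_lit 0) (.e (nat_lit 182140) (nat_lit 0) .nil) .nil))))) (.nd (nat_lit 8) (.nd (nat_lit 9) 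
(.lf (nat_lit 504967) (.g (nat_lit 1622) (.e (nat_lit 164411) (nat_lit 260) (.e (nat_lit 2640) (nat_lit 165) (.e (nat_lit 180252) (nat_lit 10) (.e (nat_lit 573474) (nat_lit 12) (.e (nat_lit 57572) (nat_lit 54) .nil))))) (.g (nat_lit 0) (.e (nat_lit 179897) (nat_lit 0) .nil) .nil))) 
(.lf (nat_lit 505479) (.g (nat_lit 2186) (.e (nat_lit 164325) (nat_lit 230) (.e (nat_lit 163907) (nat_lit 12) (.e (nat_lit 426480) (nat_lit 27) (.e (nat_lit 336389) (nat_lit 27) (.e (nat_lit 426308) (nat_lit 12) .nil))))) (.g (nat_lit 0) (.e (nat_lit 181656) (nat_lit 0) .nil) .nil)))) (.nd (nat_lit 9) 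
(.lf (nat_lit 505223) (.g (nat_lit 2306) (.e (nat_lit 164324) (nat_lit 230) (.e (nat_lit 163902) (nat_lit 12) (.e (nat_lit 426566) (nat_lit 34) (.e (nat_lit 393296) (nat_lit 26) .nil)))) (.g (nat_lit 0) (.e (nat_lit 181008) (nat_lit 0) .nil) .nil))) 
(.lf (nat_lit 505735) (.g (nat_lit 608) (.e (nat_lit 164326) (nat_lit 230) (.e (nat_lit 163903) (nat_lit 12) (.e (nat_lit 426567) (nat_lit 34) .nil))) (.g (nat_lit 0) (.e (nat_lit 182353) (nat_lit 0) .nil) .nil)))))) (.nd (nat_lit 7) (.nd (nat_lit 8) (.nd (nat_lit 9) 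
(.lf (nat_lit 504903) (.g (nat_lit 2948) (.e (nat_lit 164218) (nat_lit 179) (.e (nat_lit 164362) (nat_lit 246) (.e (nat_lit 2661) (nat_lit 167) (.e (nat_lit 196672) (nat_lit 15) (.e (nat_lit 81951) (nat_lit 22) (.e (nat_lit 90165) (nat_lit 12) .nil)))))) (.g (nat_lit 1) (.e (nat_lit 179441) (nat_lit 0) .nil) .nil))) 
(.lf (nat_lit 505415) (.g (nat_lit 2512) (.e (nat_lit 164325) (nat_lit 230) (.e (nat_lit 163886) (nat_lit 5) (.e (nat_lit 221194) (nat_lit 11) (.e (nat_lit 336077) (nat_lit 9) (.e (nat_lit 336443) (nat_lit 32) (.e (nat_lit 466971) (nat_lit 21) .nil)))))) (.g (nat_lit 1) (.e (nat_lit 181504) (nat_lit 0) .nil) .nil)))) (.nd (nat_lit 9) 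
(.lf (nat_lit 505159) (.g (nat_lit 4077) (.e (nat_lit 164323) (nat_lit 230) (.e (nat_lit 163873) (nat_lit 3) (.e (nat_lit 204813) (nat_lit 9) (.e (nat_lit 426189) (nat_lit 9) .nil)))) (.g (nat_lit 0) (.e (nat_lit 180916) (nat_lit 0) .nil) .nil))) 
(.lf (nat_lit 505671) (.g (nat_lit 564) (.e (nat_lit 164326) (nat_lit 230) (.e (nat_lit 163875) (nat_lit 3) (.e (nat_lit 204809) (nat_lit 9) .nil))) (.g (nat_lit 0) (.e (nat_lit 182253) (nat_lit 0) .nil) .nil))))) (.nd (nat_lit 8) (.nd (nat_lit 9) 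
(.lf (nat_lit 505031) (.g (nat_lit 2505) (.e (nat_lit 164304) (nat_lit 226) (.e (nat_lit 2612) (nat_lit 163) (.e (nat_lit 163979) (nat_lit 30) (.e (nat_lit 573488) (nat_lit 14) (.e (nat_lit 73755) (nat_lit 8) .nil))))) (.g (nat_lit 0) (.e (nat_lit 180357) (nat_lit 0) .nil) .nil))) 
(.lf (nat_lit 505543) (.g (nat_lit 2467) (.e (nat_lit 164326) (nat_lit 230) (.e (nat_lit 163867) (nat_lit 2) (.e (nat_lit 196656) (nat_lit 11) (.e (nat_lit 16463) (nat_lit 13) (.e (nat_lit 483337) (nat_lit 9) .nil))))) (.g (nat_lit 0) (.e (nat_lit 182041) (nat_lit 0) .nil) .nil)))) (.nd (nat_lit 9) 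
(.lf (nat_lit 505287) (.g (nat_lit 978) (.e (nat_lit 164325) (nat_lit 230) (.e (nat_lit 163868) (nat_lit 2) (.e (nat_lit 196656) (nat_lit 11) (.e (nat_lit 16432) (nat_lit 9) .nil)))) (.g (nat_lit 0) (.e (nat_lit 181299) (nat_lit 0) .nil) .nil))) 
(.lf (nat_lit 505799) (.g (nat_lit 1481) (.e (nat_lit 164327) (nat_lit 230) (.e (nat_lit 163868) (nat_lit 2) (.e (nat_lit 196654) (nat_lit 11) (.e (nat_lit 16466) (nat_lit 13) (.e (nat_lit 483339) (nat_lit 9) .nil))))) (.g (nat_lit 0) (.e (nat_lit 182537) (nat_lit 0) .nil) .nil))))))) (.nd (nat_lit 6) (.nd (nat_lit 7) (.nd (nat_lit 8) (.nd (nat_lit 9) 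
(.lf (nat_lit 504871) (.g (nat_lit 3764) (.e (nat_lit 164214) (nat_lit 176) (.e (nat_lit 2797) (nat_lit 180) (.e (nat_lit 303119) (nat_lit 3) (.e (nat_lit 204868) (nat_lit 29) (.e (nat_lit 368384) (nat_lit 1) .nil))))) (.g (nat_lit 0) (.e (nat_lit 179380) (nat_lit 0) .nil) .nil))) 
(.lf (nat_lit 505383) (.g (nat_lit 3684) (.e (nat_lit 164325) (nat_lit 230) (.e (nat_lit 163873) (nat_lit 3) (.e (nat_lit 204813) (nat_lit 9) (.e (nat_lit 426200) (nat_lit 9) (.e (nat_lit 426568) (nat_lit 34) (.e (nat_lit 393253) (nat_lit 18) .nil)))))) (.g (nat_lit 1) (.e (nat_lit 181442) (nat_lit 0) .nil) .nil)))) (.nd (nat_lit 9) 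
(.lf (nat_lit 505127) (.g (nat_lit 3012) (.e (nat_lit 164322) (nat_lit 230) (.e (nat_lit 163904) (nat_lit 12) (.e (nat_lit 426566) (nat_lit 34) (.e (nat_lit 393273) (nat_lit 23) .nil)))) (.g (nat_lit 0) (.e (nat_lit 180794) (nat_lit 0) .nil) .nil))) 
(.lf (nat_lit 505639) (.g (nat_lit 2801) (.e (nat_lit 164326) (nat_lit 230) (.e (nat_lit 163871) (nat_lit 2) (.e (nat_lit 196656) (nat_lit 11) (.e (nat_lit 16439) (nat_lit 9) .nil)))) (.g (nat_lit 0) (.e (nat_lit 182191) (nat_lit 0) .nil) .nil))))) (.nd (nat_lit 8) (.nd (nat_lit 9) 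
(.lf (nat_lit 504999) (.g (nat_lit 1010) (.e (nat_lit 164289) (nat_lit 224) (.e (nat_lit 164358) (nat_lit 246) (.e (nat_lit 351) (nat_lit 28) (.e (nat_lit 393279) (nat_lit 23) (.e (nat_lit 426429) (nat_lit 17) .nil))))) (.g (nat_lit 0) (.e (nat_lit 180165) (nat_lit 0) .nil) .nil))) 
(.lf (nat_lit 505511) (.g (nat_lit 1828) (.e (nat_lit 164325) (nat_lit 230) (.e (nat_lit 163941) (nat_lit 19) (.e (nat_lit 483341) (nat_lit 9) (.e (nat_lit 426198) (nat_lit 9) (.e (nat_lit 426357) (nat_lit 15) .nil))))) (.g (nat_lit 0) (.e (nat_lit 181937) (nat_lit 0) .nil) .nil)))) (.nd (nat_lit 9) 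
(.lf (nat_lit 505255) (.g (nat_lit 194) (.e (nat_lit 164325) (nat_lit 230) (.e (nat_lit 163864) (nat_lit 1) (.e (nat_lit 164332) (nat_lit 230) .nil))) (.g (nat_lit 0) (.e (nat_lit 181218) (nat_lit 0) .nil) .nil))) 
(.lf (nat_lit 505767) (.g (nat_lit 942) (.e (nat_lit 164326) (nat_lit 230) (.e (nat_lit 163943) (nat_lit 19) (.e (nat_lit 483341) (nat_lit 9) .nil))) (.g (nat_lit 0) (.e (nat_lit 182469) (nat_lit 0) .nil) .nil)))))) (.nd (nat_lit 7) (.nd (nat_lit 8) (.nd (nat_lit 9) 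
(.lf (nat_lit 504935) (.g (nat_lit 2644) (.e (nat_lit 171776) (nat_lit 187) (.e (nat_lit 1631) (nat_lit 114) (.e (nat_lit 385074) (nat_lit 31) (.e (nat_lit 573493) (nat_lit 15) (.e (nat_lit 81951) (nat_lit 22) .nil))))) (.g (nat_lit 0) (.e (nat_lit 179666) (nat_lit 0) .nil) .nil))) 
(.lf (nat_lit 505447) (.g (nat_lit 2135) (.e (nat_lit 164325) (nat_lit 230) (.e (nat_lit 163903) (nat_lit 12) (.e (nat_lit 426568) (nat_lit 34) (.e (nat_lit 393234) (nat_lit 17) (.e (nat_lit 7305) (nat_lit 388) .nil))))) (.g (nat_lit 0) (.e (nat_lit 181571) (nat_lit 0) .nil) .nil)))) (.nd (nat_lit 9) 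
(.lf (nat_lit 505191) (.g (nat_lit 2202) (.e (nat_lit 164324) (nat_lit 230) (.e (nat_lit 163869) (nat_lit 2) (.e (nat_lit 196656) (nat_lit 11) (.e (nat_lit 16466) (nat_lit 13) (.e (nat_lit 483341) (nat_lit 9) .nil))))) (.g (nat_lit 0) (.e (nat_lit 180966) (nat_lit 0) .nil) .nil))) 
(.lf (nat_lit 505703) (.g (nat_lit 2695) (.e (nat_lit 164326) (nat_lit 230) (.e (nat_lit 163902) (nat_lit 12) (.e (nat_lit 426566) (nat_lit 34) (.e (nat_lit 393271) (nat_lit 23) .nil)))) (.g (nat_lit 0) (.e (nat_lit 182295) (nat_lit 0) .nil) .nil))))) (.nd (nat_lit 8) (.nd (nat_lit 9) 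
(.lf (nat_lit 505063) (.g (nat_lit 746) (.e (nat_lit 164322) (nat_lit 230) (.e (nat_lit 163868) (nat_lit 2) (.e (nat_lit 196656) (nat_lit 11) .nil))) (.g (nat_lit 0) (.e (nat_lit 180704) (nat_lit 0) .nil) .nil))) 
(.lf (nat_lit 505575) (.g (nat_lit 3164) (.e (nat_lit 164326) (nat_lit 230) (.e (nat_lit 163868) (nat_lit 2) (.e (nat_lit 196656) (nat_lit 11) (.e (nat_lit 16416) (nat_lit 3) (.e (nat_lit 204838) (nat_lit 20) .nil))))) (.g (nat_lit 0) (.e (nat_lit 182094) (nat_lit 0) .nil) .nil)))) (.nd (nat_lit 9) 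
(.lf (nat_lit 505319) (.g (nat_lit 2062) (.e (nat_lit 164325) (nat_lit 230) (.e (nat_lit 163869) (nat_lit 2) (.e (nat_lit 196656) (nat_lit 11) (.e (nat_lit 16437) (nat_lit 9) .nil)))) (.g (nat_lit 0) (.e (nat_lit 181341) (nat_lit 0) .nil) .nil))) 
(.lf (nat_lit 505831) (.g (nat_lit 745) (.e (nat_lit 164327) (nat_lit 230) (.e (nat_lit 163871) (nat_lit 2) (.e (nat_lit 196622) (nat_lit 9) (.e (nat_lit 478) (nat_lit 37) .nil)))) (.g (nat_lit 0) (.e (nat_lit 182587) (nat_lit 0) .nil) .nil)))))))) (.nd (nat_lit 5) (.nd (nat_lit 6) (.nd (nat_lit 7) (.nd (nat_lit 8) (.nd (nat_lit 9) 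
(.lf (nat_lit 504855) (.g (nat_lit 1970) (.e (nat_lit 164212) (nat_lit 176) (.e (nat_lit 2797) (nat_lit 180) (.e (nat_lit 303119) (nat_lit 3) (.e (nat_lit 204850) (nat_lit 26) .nil)))) (.g (nat_lit 0) (.e (nat_lit 179350) (nat_lit 0) .nil) .nil))) 
(.lf (nat_lit 505367) (.g (nat_lit 2287) (.e (nat_lit 164325) (nat_lit 230) (.e (nat_lit 163873) (nat_lit 3) (.e (nat_lit 204813) (nat_lit 9) (.e (nat_lit 426139) (nat_lit 3) .nil)))) (.g (nat_lit 0) (.e (nat_lit 181422) (nat_lit 0) .nil) .nil)))) (.nd (nat_lit 9) 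
(.lf (nat_lit 505111) (.g (nat_lit 379) (.e (nat_lit 164322) (nat_lit 230) (.e (nat_lit 163902) (nat_lit 12) (.e (nat_lit 426479) (nat_lit 27) .nil))) (.g (nat_lit 0) (.e (nat_lit 180778) (nat_lit 0) .nil) .nil))) 
(.lf (nat_lit 505623) (.g (nat_lit 1449) (.e (nat_lit 164326) (nat_lit 230) (.e (nat_lit 163871) (nat_lit 2) (.e (nat_lit 196641) (nat_lit 9) .nil))) (.g (nat_lit 0) (.e (nat_lit 182164) (nat_lit 0) .nil) .nil))))) (.nd (nat_lit 8) (.nd (nat_lit 9) 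
(.lf (nat_lit 504983) (.g (nat_lit 1129) (.e (nat_lit 164284) (nat_lit 224) (.e (nat_lit 164092) (nat_lit 82) (.e (nat_lit 500046) (nat_lit 16) (.e (nat_lit 16463) (nat_lit 13) (.e (nat_lit 491264) (nat_lit 0) .nil))))) (.g (nat_lit 0) (.e (nat_lit 180035) (nat_lit 0) .nil) .nil))) 
(.lf (nat_lit 505495) (.g (nat_lit 2356) (.e (nat_lit 164325) (nat_lit 230) (.e (nat_lit 163907) (nat_lit 12) (.e (nat_lit 426568) (nat_lit 34) (.e (nat_lit 393234) (nat_lit 17) (.e (nat_lit 7374) (nat_lit 389) .nil))))) (.g (nat_lit 0) (.e (nat_lit 181683) (nat_lit 0) .nil) .nil)))) (.nd (nat_lit 9) 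
(.lf (nat_lit 505239) (.g (nat_lit 726) (.e (nat_lit 164324) (nat_lit 230) (.e (nat_lit 163905) (nat_lit 12) (.e (nat_lit 426568) (nat_lit 34) .nil))) (.g (nat_lit 0) (.e (nat_lit 181025) (nat_lit 0) .nil) .nil))) 
(.lf (nat_lit 505751) (.g (nat_lit 3107) (.e (nat_lit 164326) (nat_lit 230) (.e (nat_lit 163904) (nat_lit 12) (.e (nat_lit 426566) (nat_lit 34) (.e (nat_lit 393296) (nat_lit 26) .nil)))) (.g (nat_lit 0) (.e (nat_lit 182371) (nat_lit 0) .nil) .nil)))))) (.nd (nat_lit 7) (.nd (nat_lit 8) (.nd (nat_lit 9) 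
(.lf (nat_lit 504919) (.g (nat_lit 751) (.e (nat_lit 171776) (nat_lit 206) (.e (nat_lit 180243) (nat_lit 5) (.e (nat_lit 532486) (nat_lit 0) .nil))) (.g (nat_lit 0) (.e (nat_lit 179639) (nat_lit 0) .nil) .nil))) 
(.lf (nat_lit 505431) (.g (nat_lit 3985) (.e (nat_lit 164325) (nat_lit 230) (.e (nat_lit 163903) (nat_lit 12) (.e (nat_lit 426438) (nat_lit 18) (.e (nat_lit 98373) (nat_lit 29) (.e (nat_lit 450563) (nat_lit 0) (.e (nat_lit 6839) (nat_lit 369) (.e (nat_lit 163862) (nat_lit 1) .nil))))))) (.g (nat_lit 1) (.e (nat_lit 181545) (nat_lit 0) .nil) .nil)))) (.nd (nat_lit 9) 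
(.lf (nat_lit 505175) (.g (nat_lit 2339) (.e (nat_lit 164324) (nat_lit 230) (.e (nat_lit 163867) (nat_lit 2) (.e (nat_lit 196656) (nat_lit 11) (.e (nat_lit 16466) (nat_lit 13) (.e (nat_lit 483341) (nat_lit 9) .nil))))) (.g (nat_lit 0) (.e (nat_lit 180947) (nat_lit 0) .nil) .nil))) 
(.lf (nat_lit 505687) (.g (nat_lit 1004) (.e (nat_lit 164326) (nat_lit 230) (.e (nat_lit 163879) (nat_lit 4) (.e (nat_lit 213030) (nat_lit 11) (.e (nat_lit 24660) (nat_lit 13) (.e (nat_lit 393277) (nat_lit 23) (.e (nat_lit 426103) (nat_lit 1) .nil)))))) (.g (nat_lit 1) (.e (nat_lit 182271) (nat_lit 0) .nil) .nil))))) (.nd (nat_lit 8) (.nd (nat_lit 9) 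
(.lf (nat_lit 505047) (.g (nat_lit 582) (.e (nat_lit 164322) (nat_lit 230) (.e (nat_lit 163867) (nat_lit 2) (.e (nat_lit 196617) (nat_lit 9) .nil))) (.g (nat_lit 0) (.e (nat_lit 180677) (nat_lit 0) .nil) .nil))) 
(.lf (nat_lit 505559) (.g (nat_lit 1308) (.e (nat_lit 164326) (nat_lit 230) (.e (nat_lit 163868) (nat_lit 2) (.e (nat_lit 196638) (nat_lit 9) .nil))) (.g (nat_lit 0) (.e (nat_lit 182068) (nat_lit 0) .nil) .nil)))) (.nd (nat_lit 9) 
(.lf (nat_lit 505303) (.g (nat_lit 1959) (.e (nat_lit 164325) (nat_lit 230) (.e (nat_lit 163868) (nat_lit 2) (.e (nat_lit 196656) (nat_lit 11) (.e (nat_lit 16466) (nat_lit 13) (.e (nat_lit 483341) (nat_lit 9) (.e (nat_lit 426105) (nat_lit 1) .nil)))))) (.g (nat_lit 1) (.e (nat_lit 181322) (nat_lit 0) .nil) .nil))) 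
(.lf (nat_lit 505815) (.g (nat_lit 2884) (.e (nat_lit 164327) (nat_lit 230) (.e (nat_lit 163868) (nat_lit 2) (.e (nat_lit 196656) (nat_lit 11) (.e (nat_lit 16465) (nat_lit 13) (.e (nat_lit 483341) (nat_lit 9) (.e (nat_lit 426098) (nat_lit 1) .nil)))))) (.g (nat_lit 1) (.e (nat_lit 182569) (nat_lit 0) .nil) .nil))))))) (.nd (nat_lit 6) (.nd (nat_lit 7) (.nd (nat_lit 8) (.nd (nat_lit 9) 
(.lf (nat_lit 504887) (.g (nat_lit 2533) (.e (nat_lit 171776) (nat_lit 176) (.e (nat_lit 2797) (nat_lit 180) (.e (nat_lit 303119) (nat_lit 3) (.e (nat_lit 204870) (nat_lit 29) (.e (nat_lit 360463) (nat_lit 1) .nil))))) (.g (nat_lit 0) (.e (nat_lit 179401) (nat_lit 0) .nil) .nil))) 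
(.lf (nat_lit 505399) (.g (nat_lit 470) (.e (nat_lit 164325) (nat_lit 230) (.e (nat_lit 163875) (nat_lit 3) (.e (nat_lit 204812) (nat_lit 9) .nil))) (.g (nat_lit 0) (.e (nat_lit 181485) (nat_lit 0) .nil) .nil)))) (.nd (nat_lit 9) 
(.lf (nat_lit 505143) (.g (nat_lit 1742) (.e (nat_lit 164323) (nat_lit 230) (.e (nat_lit 163867) (nat_lit 2) (.e (nat_lit 196656) (nat_lit 11) (.e (nat_lit 16433) (nat_lit 9) .nil)))) (.g (nat_lit 0) (.e (nat_lit 180899) (nat_lit 0) .nil) .nil))) 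
(.lf (nat_lit 505655) (.g (nat_lit 2775) (.e (nat_lit 164326) (nat_lit 230) (.e (nat_lit 163873) (nat_lit 3) (.e (nat_lit 204813) (nat_lit 9) (.e (nat_lit 426196) (nat_lit 9) .nil)))) (.g (nat_lit 0) (.e (nat_lit 182227) (nat_lit 0) .nil) .nil))))) (.nd (nat_lit 8) (.nd (nat_lit 9) 
(.lf (nat_lit 505015) (.g (nat_lit 886) (.e (nat_lit 164293) (nat_lit 224) (.e (nat_lit 164353) (nat_lit 246) (.e (nat_lit 351) (nat_lit 28) (.e (nat_lit 393279) (nat_lit 23) (.e (nat_lit 426431) (nat_lit 17) .nil))))) (.g (nat_lit 0) (.e (nat_lit 180277) (nat_lit 0) .nil) .nil))) 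
(.lf (nat_lit 505527) (.g (nat_lit 1388) (.e (nat_lit 164325) (nat_lit 230) (.e (nat_lit 163943) (nat_lit 19) (.e (nat_lit 483336) (nat_lit 9) (.e (nat_lit 426190) (nat_lit 9) .nil)))) (.g (nat_lit 0) (.e (nat_lit 181970) (nat_lit 0) .nil) .nil)))) (.nd (nat_lit 9) 
(.lf (nat_lit 505271) (.g (nat_lit 1076) (.e (nat_lit 164325) (nat_lit 230) (.e (nat_lit 163868) (nat_lit 2) (.e (nat_lit 196622) (nat_lit 9) .nil))) (.g (nat_lit 0) (.e (nat_lit 181269) (nat_lit 0) .nil) .nil))) 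
(.lf (nat_lit 505783) (.g (nat_lit 2026) (.e (nat_lit 164327) (nat_lit 230) (.e (nat_lit 163868) (nat_lit 2) (.e (nat_lit 196654) (nat_lit 11) (.e (nat_lit 16416) (nat_lit 3) (.e (nat_lit 204833) (nat_lit 19) .nil))))) (.g (nat_lit 0) (.e (nat_lit 182513) (nat_lit 0) .nil) .nil)))))) (.nd (nat_lit 7) (.nd (nat_lit 8) (.nd (nat_lit 9) 
(.lf (nat_lit 504951) (.g (nat_lit 1571) (.e (nat_lit 171776) (nat_lit 192) (.e (nat_lit 73746) (nat_lit 3) (.e (nat_lit 516098) (nat_lit 0) (.e (nat_lit 7591) (nat_lit 407) (.e (nat_lit 73738) (nat_lit 1) .nil))))) (.g (nat_lit 0) (.e (nat_lit 179694) (nat_lit 0) .nil) .nil))) 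
(.lf (nat_lit 505463) (.g (nat_lit 3907) (.e (nat_lit 164325) (nat_lit 230) (.e (nat_lit 163904) (nat_lit 12) (.e (nat_lit 426566) (nat_lit 34) (.e (nat_lit 393296) (nat_lit 26) (.e (nat_lit 475178) (nat_lit 24) (.e (nat_lit 516115) (nat_lit 1) .nil)))))) (.g (nat_lit 1) (.e (nat_lit 181587) (nat_lit 0) .nil) .nil)))) (.nd (nat_lit 9) 
(.lf (nat_lit 505207) (.g (nat_lit 4142) (.e (nat_lit 164324) (nat_lit 230) (.e (nat_lit 163873) (nat_lit 3) (.e (nat_lit 204813) (nat_lit 9) (.e (nat_lit 426213) (nat_lit 9) .nil)))) (.g (nat_lit 0) (.e (nat_lit 180983) (nat_lit 0) .nil) .nil))) 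
(.lf (nat_lit 505719) (.g (nat_lit 709) (.e (nat_lit 164326) (nat_lit 230) (.e (nat_lit 163903) (nat_lit 12) (.e (nat_lit 426478) (nat_lit 27) .nil))) (.g (nat_lit 0) (.e (nat_lit 182330) (nat_lit 0) .nil) .nil))))) (.nd (nat_lit 8) (.nd (nat_lit 9) 
(.lf (nat_lit 505079) (.g (nat_lit 1688) (.e (nat_lit 164322) (nat_lit 230) (.e (nat_lit 163871) (nat_lit 2) (.e (nat_lit 196656) (nat_lit 11) (.e (nat_lit 16444) (nat_lit 9) .nil)))) (.g (nat_lit 0) (.e (nat_lit 180723) (nat_lit 0) .nil) .nil))) 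
(.lf (nat_lit 505591) (.g (nat_lit 1363) (.e (nat_lit 164326) (nat_lit 230) (.e (nat_lit 163870) (nat_lit 2) (.e (nat_lit 196619) (nat_lit 9) (.e (nat_lit 457) (nat_lit 34) (.e (nat_lit 450304) (nat_lit 18) .nil))))) (.g (nat_lit 0) (.e (nat_lit 182118) (nat_lit 0) .nil) .nil)))) (.nd (nat_lit 9) 
(.lf (nat_lit 505335) (.g (nat_lit 350) (.e (nat_lit 164325) (nat_lit 230) (.e (nat_lit 163871) (nat_lit 2) (.e (nat_lit 196656) (nat_lit 11) .nil))) (.g (nat_lit 0) (.e (nat_lit 181366) (nat_lit 0) .nil) .nil))) 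
(.lf (nat_lit 505847) (.g (nat_lit 3646) (.e (nat_lit 164327) (nat_lit 230) (.e (nat_lit 163871) (nat_lit 2) (.e (nat_lit 196654) (nat_lit 11) (.e (nat_lit 16433) (nat_lit 9) (.e (nat_lit 426568) (nat_lit 34) (.e (nat_lit 393251) (nat_lit 18) .nil)))))) (.g (nat_lit 1) (.e (nat_lit 182613) (nat_lit 0) .nil) .nil))))))))) 
(.nd (nat_lit 4) (.nd (nat_lit 5) (.nd (nat_lit 6) (.nd (nat_lit 7) (.nd (nat_lit 8) 
(.nd (nat_lit 9) 
(.lf (nat_lit 504847) (.g (nat_lit 3225) (.e (nat_lit 164211) (nat_lit 176) (.e (nat_lit 2798) (nat_lit 180) (.e (nat_lit 303117) (nat_lit 2) (.e (nat_lit 196666) (nat_lit 13) (.e (nat_lit 65599) (nat_lit 9) .nil))))) (.g (nat_lit 0) (.e (nat_lit 179338) (nat_lit 0) .nil) .nil))) 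
(.lf (nat_lit 505359) (.g (nat_lit 4140) (.e (nat_lit 164325) (nat_lit 230) (.e (nat_lit 163873) (nat_lit 3) (.e (nat_lit 204813) (nat_lit 9) (.e (nat_lit 426012) (nat_lit 0) .nil)))) (.g (nat_lit 0) (.e (nat_lit 181403) (nat_lit 0) .nil) .nil)))) (.nd (nat_lit 9) 
(.lf (nat_lit 505103) (.g (nat_lit 2151) (.e (nat_lit 164322) (nat_lit 230) (.e (nat_lit 163875) (nat_lit 3) (.e (nat_lit 204813) (nat_lit 9) (.e (nat_lit 426188) (nat_lit 9) (.e (nat_lit 426568) (nat_lit 34) .nil))))) (.g (nat_lit 0) (.e (nat_lit 180766) (nat_lit 0) .nil) .nil))) 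
(.lf (nat_lit 505615) (.g (nat_lit 1144) (.e (nat_lit 164326) (nat_lit 230) (.e (nat_lit 163871) (nat_lit 2) (.e (nat_lit 196628) (nat_lit 9) .nil))) (.g (nat_lit 0) (.e (nat_lit 182152) (nat_lit 0) .nil) .nil))))) (.nd (nat_lit 8) (.nd (nat_lit 9) 
(.lf (nat_lit 504975) (.g (nat_lit 812) (.e (nat_lit 171776) (nat_lit 219) (.e (nat_lit 163875) (nat_lit 3) (.e (nat_lit 204877) (nat_lit 31) .nil))) (.g (nat_lit 0) (.e (nat_lit 179977) (nat_lit 0) .nil) .nil))) 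
(.lf (nat_lit 505487) (.g (nat_lit 3617) (.e (nat_lit 164325) (nat_lit 230) (.e (nat_lit 163907) (nat_lit 12) (.e (nat_lit 426564) (nat_lit 34) (.e (nat_lit 393291) (nat_lit 26) (.e (nat_lit 475179) (nat_lit 24) (.e (nat_lit 516119) (nat_lit 1) .nil)))))) (.g (nat_lit 1) (.e (nat_lit 181675) (nat_lit 0) .nil) .nil)))) (.nd (nat_lit 9) 
(.lf (nat_lit 505231) (.g (nat_lit 1813) (.e (nat_lit 164324) (nat_lit 230) (.e (nat_lit 163903) (nat_lit 12) (.e (nat_lit 426566) (nat_lit 34) (.e (nat_lit 393296) (nat_lit 26) (.e (nat_lit 475178) (nat_lit 24) .nil))))) (.g (nat_lit 0) (.e (nat_lit 181017) (nat_lit 0) .nil) .nil))) 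
(.lf (nat_lit 505743) (.g (nat_lit 955) (.e (nat_lit 164326) (nat_lit 230) (.e (nat_lit 163903) (nat_lit 12) (.e (nat_lit 426568) (nat_lit 34) (.e (nat_lit 401152) (nat_lit 23) .nil)))) (.g (nat_lit 0) (.e (nat_lit 182361) (nat_lit 0) .nil) .nil)))))) (.nd (nat_lit 7) (.nd (nat_lit 8) (.nd (nat_lit 9) 
(.lf (nat_lit 504911) (.g (nat_lit 1462) (.e (nat_lit 164248) (nat_lit 201) (.e (nat_lit 3067) (nat_lit 190) (.e (nat_lit 475178) (nat_lit 24) (.e (nat_lit 516126) (nat_lit 2) (.e (nat_lit 213030) (nat_lit 11) .nil))))) (.g (nat_lit 0) (.e (nat_lit 179561) (nat_lit 0) .nil) .nil))) 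
(.lf (nat_lit 505423) (.g (nat_lit 2899) (.e (nat_lit 164325) (nat_lit 230) (.e (nat_lit 163902) (nat_lit 12) (.e (nat_lit 426566) (nat_lit 34) (.e (nat_lit 393294) (nat_lit 26) (.e (nat_lit 475177) (nat_lit 24) .nil))))) (.g (nat_lit 0) (.e (nat_lit 181518) (nat_lit 0) .nil) .nil)))) (.nd (nat_lit 9) 
(.lf (nat_lit 505167) (.g (nat_lit 2149) (.e (nat_lit 164323) (nat_lit 230) (.e (nat_lit 163875) (nat_lit 3) (.e (nat_lit 204813) (nat_lit 9) (.e (nat_lit 426188) (nat_lit 9) (.e (nat_lit 426568) (nat_lit 34) .nil))))) (.g (nat_lit 0) (.e (nat_lit 180929) (nat_lit 0) .nil) .nil))) 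
(.lf (nat_lit 505679) (.g (nat_lit 636) (.e (nat_lit 164326) (nat_lit 230) (.e (nat_lit 163875) (nat_lit 3) (.e (nat_lit 204812) (nat_lit 9) .nil))) (.g (nat_lit 0) (.e (nat_lit 182262) (nat_lit 0) .nil) .nil))))) (.nd (nat_lit 8) (.nd (nat_lit 9) 
(.lf (nat_lit 505039) (.g (nat_lit 2367) (.e (nat_lit 164305) (nat_lit 226) (.e (nat_lit 2612) (nat_lit 163) (.e (nat_lit 163979) (nat_lit 30) (.e (nat_lit 573488) (nat_lit 14) (.e (nat_lit 73755) (nat_lit 8) .nil))))) (.g (nat_lit 0) (.e (nat_lit 180430) (nat_lit 0) .nil) .nil))) 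
(.lf (nat_lit 505551) (.g (nat_lit 1317) (.e (nat_lit 164326) (nat_lit 230) (.e (nat_lit 163868) (nat_lit 2) (.e (nat_lit 196625) (nat_lit 9) .nil))) (.g (nat_lit 0) (.e (nat_lit 182059) (nat_lit 0) .nil) .nil)))) (.nd (nat_lit 9) 
(.lf (nat_lit 505295) (.g (nat_lit 2059) (.e (nat_lit 164325) (nat_lit 230) (.e (nat_lit 163868) (nat_lit 2) (.e (nat_lit 196656) (nat_lit 11) (.e (nat_lit 16439) (nat_lit 9) (.e (nat_lit 426528) (nat_lit 27) .nil))))) (.g (nat_lit 0) (.e (nat_lit 181309) (nat_lit 0) .nil) .nil))) 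
(.lf (nat_lit 505807) (.g (nat_lit 3958) (.e (nat_lit 164327) (nat_lit 230) (.e (nat_lit 163868) (nat_lit 2) (.e (nat_lit 196656) (nat_lit 11) (.e (nat_lit 16436) (nat_lit 9) (.e (nat_lit 426566) (nat_lit 34) (.e (nat_lit 393253) (nat_lit 18) .nil)))))) (.g (nat_lit 1) (.e (nat_lit 182555) (nat_lit 0) .nil) .nil))))))) (.nd (nat_lit 6) (.nd (nat_lit 7) (.nd (nat_lit 8) (.nd (nat_lit 9) 
(.lf (nat_lit 504879) (.g (nat_lit 351) (.e (nat_lit 171776) (nat_lit 176) (.e (nat_lit 2797) (nat_lit 180) (.e (nat_lit 303119) (nat_lit 3) .nil))) (.g (nat_lit 0) (.e (nat_lit 179393) (nat_lit 0) .nil) .nil))) 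
(.lf (nat_lit 505391) (.g (nat_lit 786) (.e (nat_lit 164325) (nat_lit 230) (.e (nat_lit 163874) (nat_lit 3) (.e (nat_lit 204811) (nat_lit 9) .nil))) (.g (nat_lit 0) (.e (nat_lit 181475) (nat_lit 0) .nil) .nil)))) (.nd (nat_lit 9) 
(.lf (nat_lit 505135) (.g (nat_lit 3245) (.e (nat_lit 164322) (nat_lit 230) (.e (nat_lit 163941) (nat_lit 19) (.e (nat_lit 483341) (nat_lit 9) (.e (nat_lit 426199) (nat_lit 9) .nil)))) (.g (nat_lit 0) (.e (nat_lit 180873) (nat_lit 0) .nil) .nil))) 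
(.lf (nat_lit 505647) (.g (nat_lit 1109) (.e (nat_lit 164326) (nat_lit 230) (.e (nat_lit 163873) (nat_lit 3) (.e (nat_lit 204809) (nat_lit 9) (.e (nat_lit 426213) (nat_lit 9) .nil)))) (.g (nat_lit 0) (.e (nat_lit 182204) (nat_lit 0) .nil) .nil))))) (.nd (nat_lit 8) (.nd (nat_lit 9) 
(.lf (nat_lit 505007) (.g (nat_lit 1877) (.e (nat_lit 164293) (nat_lit 224) (.e (nat_lit 164092) (nat_lit 82) (.e (nat_lit 500046) (nat_lit 16) (.e (nat_lit 16466) (nat_lit 13) (.e (nat_lit 483331) (nat_lit 0) .nil))))) (.g (nat_lit 0) (.e (nat_lit 180264) (nat_lit 0) .nil) .nil))) 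
(.lf (nat_lit 505519) (.g (nat_lit 3678) (.e (nat_lit 164325) (nat_lit 230) (.e (nat_lit 163941) (nat_lit 19) (.e (nat_lit 483341) (nat_lit 9) (.e (nat_lit 426258) (nat_lit 9) .nil)))) (.g (nat_lit 0) (.e (nat_lit 181946) (nat_lit 0) .nil) .nil)))) (.nd (nat_lit 9) 
(.lf (nat_lit 505263) (.g (nat_lit 641) (.e (nat_lit 164325) (nat_lit 230) (.e (nat_lit 163867) (nat_lit 2) (.e (nat_lit 196654) (nat_lit 11) .nil))) (.g (nat_lit 0) (.e (nat_lit 181256) (nat_lit 0) .nil) .nil))) 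
(.lf (nat_lit 505775) (.g (nat_lit 2061) (.e (nat_lit 164327) (nat_lit 230) (.e (nat_lit 163866) (nat_lit 2) (.e (nat_lit 196656) (nat_lit 11) (.e (nat_lit 16435) (nat_lit 9) (.e (nat_lit 426566) (nat_lit 34) .nil))))) (.g (nat_lit 0) (.e (nat_lit 182494) (nat_lit 0) .nil) .nil)))))) (.nd (nat_lit 7) (.nd (nat_lit 8) (.nd (nat_lit 9) 
(.lf (nat_lit 504943) (.g (nat_lit 2859) (.e (nat_lit 171776) (nat_lit 187) (.e (nat_lit 1643) (nat_lit 114) (.e (nat_lit 385074) (nat_lit 31) (.e (nat_lit 573482) (nat_lit 13) (.e (nat_lit 65604) (nat_lit 9) .nil))))) (.g (nat_lit 0) (.e (nat_lit 179677) (nat_lit 0) .nil) .nil))) 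
(.lf (nat_lit 505455) (.g (nat_lit 4102) (.e (nat_lit 164325) (nat_lit 230) (.e (nat_lit 163904) (nat_lit 12) (.e (nat_lit 426566) (nat_lit 34) (.e (nat_lit 393273) (nat_lit 23) (.e (nat_lit 426392) (nat_lit 15) .nil))))) (.g (nat_lit 0) (.e (nat_lit 181579) (nat_lit 0) .nil) .nil)))) (.nd (nat_lit 9) 
(.lf (nat_lit 505199) (.g (nat_lit 871) (.e (nat_lit 164324) (nat_lit 230) (.e (nat_lit 163872) (nat_lit 3) (.e (nat_lit 204813) (nat_lit 9) (.e (nat_lit 426198) (nat_lit 9) .nil)))) (.g (nat_lit 0) (.e (nat_lit 180975) (nat_lit 0) .nil) .nil))) 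
(.lf (nat_lit 505711) (.g (nat_lit 746) (.e (nat_lit 164326) (nat_lit 230) (.e (nat_lit 163903) (nat_lit 12) (.e (nat_lit 426254) (nat_lit 9) .nil))) (.g (nat_lit 0) (.e (nat_lit 182310) (nat_lit 0) .nil) .nil))))) (.nd (nat_lit 8) (.nd (nat_lit 9) 
(.lf (nat_lit 505071) (.g (nat_lit 1487) (.e (nat_lit 164322) (nat_lit 230) (.e (nat_lit 163870) (nat_lit 2) (.e (nat_lit 196653) (nat_lit 11) (.e (nat_lit 16463) (nat_lit 13) .nil)))) (.g (nat_lit 0) (.e (nat_lit 180713) (nat_lit 0) .nil) .nil))) 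
(.lf (nat_lit 505583) (.g (nat_lit 1510) (.e (nat_lit 164326) (nat_lit 230) (.e (nat_lit 163868) (nat_lit 2) (.e (nat_lit 196656) (nat_lit 11) (.e (nat_lit 16465) (nat_lit 13) .nil)))) (.g (nat_lit 0) (.e (nat_lit 182105) (nat_lit 0) .nil) .nil)))) (.nd (nat_lit 9) 
(.lf (nat_lit 505327) (.g (nat_lit 695) (.e (nat_lit 164325) (nat_lit 230) (.e (nat_lit 163871) (nat_lit 2) (.e (nat_lit 196622) (nat_lit 9) .nil))) (.g (nat_lit 0) (.e (nat_lit 181353) (nat_lit 0) .nil) .nil))) 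
(.lf (nat_lit 505839) (.g (nat_lit 2563) (.e (nat_lit 164327) (nat_lit 230) (.e (nat_lit 163871) (nat_lit 2) (.e (nat_lit 196654) (nat_lit 11) (.e (nat_lit 16416) (nat_lit 3) (.e (nat_lit 204834) (nat_lit 19) (.e (nat_lit 106517) (nat_lit 9) (.e (nat_lit 1252) (nat_lit 92) (.e (nat_lit 98333) (nat_lit 18) .nil)))))))) (.g (nat_lit 1) (.e (nat_lit 182601) (nat_lit 0) .nil) .nil)))))))) 
(.nd (nat_lit 5) (.nd (nat_lit 6) (.nd (nat_lit 7) (.nd (nat_lit 8) (.nd (nat_lit 9) 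
(.lf (nat_lit 504863) (.g (nat_lit 812) (.e (nat_lit 164213) (nat_lit 176) (.e (nat_lit 2797) (nat_lit 180) (.e (nat_lit 303119) (nat_lit 3) .nil))) (.g (nat_lit 0) (.e (nat_lit 179362) (nat_lit 0) .nil) .nil))) 
(.lf (nat_lit 505375) (.g (nat_lit 2560) (.e (nat_lit 164325) (nat_lit 230) (.e (nat_lit 163873) (nat_lit 3) (.e (nat_lit 204813) (nat_lit 9) (.e (nat_lit 426197) (nat_lit 9) .nil)))) (.g (nat_lit 0) (.e (nat_lit 181433) (nat_lit 0) .nil) .nil)))) (.nd (nat_lit 9) 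
(.lf (nat_lit 505119) (.g (nat_lit 3098) (.e (nat_lit 164322) (nat_lit 230) (.e (nat_lit 163902) (nat_lit 12) (.e (nat_lit 426566) (nat_lit 34) (.e (nat_lit 393295) (nat_lit 26) .nil)))) (.g (nat_lit 0) (.e (nat_lit 180786) (nat_lit 0) .nil) .nil))) 
(.lf (nat_lit 505631) (.g (nat_lit 2372) (.e (nat_lit 164326) (nat_lit 230) (.e (nat_lit 163871) (nat_lit 2) (.e (nat_lit 196656) (nat_lit 11) (.e (nat_lit 16392) (nat_lit 0) .nil)))) (.g (nat_lit 0) (.e (nat_lit 182177) (nat_lit 0) .nil) .nil))))) (.nd (nat_lit 8) (.nd (nat_lit 9) 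
(.lf (nat_lit 504991) (.g (nat_lit 1176) (.e (nat_lit 164288) (nat_lit 224) (.e (nat_lit 164092) (nat_lit 82) (.e (nat_lit 500046) (nat_lit 16) (.e (nat_lit 16465) (nat_lit 13) (.e (nat_lit 491264) (nat_lit 0) (.e (nat_lit 7105) (nat_lit 380) .nil)))))) (.g (nat_lit 1) (.e (nat_lit 180121) (nat_lit 0) .nil) .nil))) 
(.lf (nat_lit 505503) (.g (nat_lit 320) (.e (nat_lit 164325) (nat_lit 230) (.e (nat_lit 163941) (nat_lit 19) (.e (nat_lit 483341) (nat_lit 9) .nil))) (.g (nat_lit 0) (.e (nat_lit 181923) (nat_lit 0) .nil) .nil)))) (.nd (nat_lit 9) 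
(.lf (nat_lit 505247) (.g (nat_lit 3646) (.e (nat_lit 164324) (nat_lit 230) (.e (nat_lit 163941) (nat_lit 19) (.e (nat_lit 483341) (nat_lit 9) (.e (nat_lit 426258) (nat_lit 9) .nil)))) (.g (nat_lit 0) (.e (nat_lit 181077) (nat_lit 0) .nil) .nil))) 
(.lf (nat_lit 505759) (.g (nat_lit 1069) (.e (nat_lit 164326) (nat_lit 230) (.e (nat_lit 163941) (nat_lit 19) (.e (nat_lit 483341) (nat_lit 9) (.e (nat_lit 426200) (nat_lit 9) .nil)))) (.g (nat_lit 0) (.e (nat_lit 182453) (nat_lit 0) .nil) .nil)))))) (.nd (nat_lit 7) (.nd (nat_lit 8) (.nd (nat_lit 9) 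
(.lf (nat_lit 504927) (.g (nat_lit 1913) (.e (nat_lit 164239) (nat_lit 187) (.e (nat_lit 1234) (nat_lit 91) (.e (nat_lit 90170) (nat_lit 13) (.e (nat_lit 172115) (nat_lit 10) .nil)))) (.g (nat_lit 0) (.e (nat_lit 179649) (nat_lit 0) .nil) .nil))) 
(.lf (nat_lit 505439) (.g (nat_lit 397) (.e (nat_lit 164325) (nat_lit 230) (.e (nat_lit 163903) (nat_lit 12) (.e (nat_lit 426566) (nat_lit 34) .nil))) (.g (nat_lit 0) (.e (nat_lit 181563) (nat_lit 0) .nil) .nil)))) (.nd (nat_lit 9) 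
(.lf (nat_lit 505183) (.g (nat_lit 3426) (.e (nat_lit 164324) (nat_lit 230) (.e (nat_lit 163868) (nat_lit 2) (.e (nat_lit 196656) (nat_lit 11) (.e (nat_lit 16463) (nat_lit 13) (.e (nat_lit 483341) (nat_lit 9) (.e (nat_lit 426106) (nat_lit 1) .nil)))))) (.g (nat_lit 1) (.e (nat_lit 180956) (nat_lit 0) .nil) .nil))) 
(.lf (nat_lit 505695) (.g (nat_lit 1307) (.e (nat_lit 164326) (nat_lit 230) (.e (nat_lit 163882) (nat_lit 4) (.e (nat_lit 213032) (nat_lit 11) (.e (nat_lit 24624) (nat_lit 9) .nil)))) (.g (nat_lit 0) (.e (nat_lit 182279) (nat_lit 0) .nil) .nil))))) (.nd (nat_lit 8) (.nd (nat_lit 9) 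
(.lf (nat_lit 505055) (.g (nat_lit 2744) (.e (nat_lit 164322) (nat_lit 230) (.e (nat_lit 163867) (nat_lit 2) (.e (nat_lit 196653) (nat_lit 11) (.e (nat_lit 16463) (nat_lit 13) (.e (nat_lit 483341) (nat_lit 9) (.e (nat_lit 426106) (nat_lit 1) .nil)))))) (.g (nat_lit 1) (.e (nat_lit 180689) (nat_lit 0) .nil) .nil))) 
(.lf (nat_lit 505567) (.g (nat_lit 3999) (.e (nat_lit 164326) (nat_lit 230) (.e (nat_lit 163868) (nat_lit 2) (.e (nat_lit 196654) (nat_lit 11) (.e (nat_lit 16463) (nat_lit 13) (.e (nat_lit 483337) (nat_lit 9) (.e (nat_lit 426107) (nat_lit 1) .nil)))))) (.g (nat_lit 1) (.e (nat_lit 182077) (nat_lit 0) .nil) .nil)))) (.nd (nat_lit 9) 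
(.lf (nat_lit 505311) (.g (nat_lit 365) (.e (nat_lit 164325) (nat_lit 230) (.e (nat_lit 163869) (nat_lit 2) (.e (nat_lit 196654) (nat_lit 11) .nil))) (.g (nat_lit 0) (.e (nat_lit 181331) (nat_lit 0) .nil) .nil))) 
(.lf (nat_lit 505823) (.g (nat_lit 732) (.e (nat_lit 164327) (nat_lit 230) (.e (nat_lit 163869) (nat_lit 2) (.e (nat_lit 196656) (nat_lit 11) .nil))) (.g (nat_lit 0) (.e (nat_lit 182579) (nat_lit 0) .nil) .nil))))))) (.nd (nat_lit 6) (.nd (nat_lit 7) (.nd (nat_lit 8) (.nd (nat_lit 9) 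
(.lf (nat_lit 504895) (.g (nat_lit 2596) (.e (nat_lit 171776) (nat_lit 176) (.e (nat_lit 2798) (nat_lit 180) (.e (nat_lit 303117) (nat_lit 2) (.e (nat_lit 196672) (nat_lit 15) (.e (nat_lit 81953) (nat_lit 22) .nil))))) (.g (nat_lit 0) (.e (nat_lit 179414) (nat_lit 0) .nil) .nil))) 
(.lf (nat_lit 505407) (.g (nat_lit 2372) (.e (nat_lit 164325) (nat_lit 230) (.e (nat_lit 163877) (nat_lit 4) (.e (nat_lit 213032) (nat_lit 11) (.e (nat_lit 24627) (nat_lit 9) (.e (nat_lit 336443) (nat_lit 32) (.e (nat_lit 466971) (nat_lit 21) .nil)))))) (.g (nat_lit 1) (.e (nat_lit 181495) (nat_lit 0) .nil) .nil)))) (.nd (nat_lit 9) 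
(.lf (nat_lit 505151) (.g (nat_lit 1324) (.e (nat_lit 164323) (nat_lit 230) (.e (nat_lit 163871) (nat_lit 2) (.e (nat_lit 196654) (nat_lit 11) (.e (nat_lit 16433) (nat_lit 9) .nil)))) (.g (nat_lit 0) (.e (nat_lit 180908) (nat_lit 0) .nil) .nil))) 
(.lf (nat_lit 505663) (.g (nat_lit 1044) (.e (nat_lit 164326) (nat_lit 230) (.e (nat_lit 163874) (nat_lit 3) (.e (nat_lit 204811) (nat_lit 9) .nil))) (.g (nat_lit 0) (.e (nat_lit 182243) (nat_lit 0) .nil) .nil))))) (.nd (nat_lit 8) (.nd (nat_lit 9) 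
(.lf (nat_lit 505023) (.g (nat_lit 991) (.e (nat_lit 164281) (nat_lit 222) (.e (nat_lit 57884) (nat_lit 270) (.e (nat_lit 1250) (nat_lit 92) (.e (nat_lit 98362) (nat_lit 26) .nil)))) (.g (nat_lit 0) (.e (nat_lit 180328) (nat_lit 0) .nil) .nil))) 
(.lf (nat_lit 505535) (.g (nat_lit 1707) (.e (nat_lit 164325) (nat_lit 230) (.e (nat_lit 163944) (nat_lit 19) (.e (nat_lit 483346) (nat_lit 17) (.e (nat_lit 974) (nat_lit 81) .nil)))) (.g (nat_lit 0) (.e (nat_lit 182008) (nat_lit 0) .nil) .nil)))) (.nd (nat_lit 9) 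
(.lf (nat_lit 505279) (.g (nat_lit 4210) (.e (nat_lit 164325) (nat_lit 230) (.e (nat_lit 163868) (nat_lit 2) (.e (nat_lit 196654) (nat_lit 11) (.e (nat_lit 16463) (nat_lit 13) (.e (nat_lit 483337) (nat_lit 9) (.e (nat_lit 426107) (nat_lit 1) .nil)))))) (.g (nat_lit 1) (.e (nat_lit 181287) (nat_lit 0) .nil) .nil))) 
(.lf (nat_lit 505791) (.g (nat_lit 821) (.e (nat_lit 164327) (nat_lit 230) (.e (nat_lit 163868) (nat_lit 2) (.e (nat_lit 196654) (nat_lit 11) (.e (nat_lit 16436) (nat_lit 9) .nil)))) (.g (nat_lit 0) (.e (nat_lit 182524) (nat_lit 0) .nil) .nil)))))) (.nd (nat_lit 7) (.nd (nat_lit 8) (.nd (nat_lit 9) 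
(.lf (nat_lit 504959) (.g (nat_lit 1760) (.e (nat_lit 171776) (nat_lit 192) (.e (nat_lit 73747) (nat_lit 3) (.e (nat_lit 516097) (nat_lit 0) (.e (nat_lit 7593) (nat_lit 407) .nil)))) (.g (nat_lit 0) (.e (nat_lit 179703) (nat_lit 0) .nil) .nil))) 
(.lf (nat_lit 505471) (.g (nat_lit 729) (.e (nat_lit 164325) (nat_lit 230) (.e (nat_lit 163905) (nat_lit 12) (.e (nat_lit 426568) (nat_lit 34) .nil))) (.g (nat_lit 0) (.e (nat_lit 181608) (nat_lit 0) .nil) .nil)))) (.nd (nat_lit 9) 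
(.lf (nat_lit 505215) (.g (nat_lit 1725) (.e (nat_lit 164324) (nat_lit 230) (.e (nat_lit 163884) (nat_lit 5) (.e (nat_lit 221194) (nat_lit 11) (.e (nat_lit 336086) (nat_lit 9) (.e (nat_lit 336427) (nat_lit 29) .nil))))) (.g (nat_lit 0) (.e (nat_lit 180999) (nat_lit 0) .nil) .nil))) 
(.lf (nat_lit 505727) (.g (nat_lit 1897) (.e (nat_lit 164326) (nat_lit 230) (.e (nat_lit 163903) (nat_lit 12) (.e (nat_lit 426566) (nat_lit 34) (.e (nat_lit 393272) (nat_lit 23) (.e (nat_lit 426438) (nat_lit 18) .nil))))) (.g (nat_lit 0) (.e (nat_lit 182343) (nat_lit 0) .nil) .nil))))) (.nd (nat_lit 8) (.nd (nat_lit 9) 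
(.lf (nat_lit 505087) (.g (nat_lit 2338) (.e (nat_lit 164322) (nat_lit 230) (.e (nat_lit 163873) (nat_lit 3) (.e (nat_lit 204813) (nat_lit 9) (.e (nat_lit 426188) (nat_lit 9) (.e (nat_lit 426568) (nat_lit 34) .nil))))) (.g (nat_lit 0) (.e (nat_lit 180738) (nat_lit 0) .nil) .nil))) 
(.lf (nat_lit 505599) (.g (nat_lit 649) (.e (nat_lit 164326) (nat_lit 230) (.e (nat_lit 163870) (nat_lit 2) (.e (nat_lit 196634) (nat_lit 9) .nil))) (.g (nat_lit 0) (.e (nat_lit 182128) (nat_lit 0) .nil) .nil)))) (.nd (nat_lit 9) 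
(.lf (nat_lit 505343) (.g (nat_lit 2119) (.e (nat_lit 164325) (nat_lit 230) (.e (nat_lit 163871) (nat_lit 2) (.e (nat_lit 196656) (nat_lit 11) (.e (nat_lit 16436) (nat_lit 9) (.e (nat_lit 426480) (nat_lit 27) .nil))))) (.g (nat_lit 0) (.e (nat_lit 181378) (nat_lit 0) .nil) .nil))) 
(.lf (nat_lit 505855) (.g (nat_lit 1614) (.e (nat_lit 164327) (nat_lit 230) (.e (nat_lit 163871) (nat_lit 2) (.e (nat_lit 196654) (nat_lit 11) (.e (nat_lit 16438) (nat_lit 9) (.e (nat_lit 426487) (nat_lit 27) .nil))))) (.g (nat_lit 0) (.e (nat_lit 182622) (nat_lit 0) .nil) .nil)))))))))))))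

noncomputable def tv5554 : DT := (.nd (nat_lit 0) (.nd (nat_lit 1) (.nd (nat_lit 2) (.nd (nat_lit 3) (.nd (nat_lit 4) (.nd (nat_lit 5) (.nd (nat_lit 6) (.nd (nat_lit 7) (.nd (nat_lit 8) (.nd (nat_lit 9) 
(.lf (nat_lit 505856) (.g (nat_lit 1655) (.e (nat_lit 164327) (nat_lit 230) (.e (nat_lit 163871) (nat_lit 2) (.e (nat_lit 196654) (nat_lit 11) (.e (nat_lit 16463) (nat_lit 13) (.e (nat_lit 483339) (nat_lit 9) .nil))))) (.g (nat_lit 0) (.e (nat_lit 182626) (nat_lit 0) .nil) .nil))) 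
(.lf (nat_lit 506368) (.g (nat_lit 4767) (.e (nat_lit 164330) (nat_lit 230) (.e (nat_lit 163873) (nat_lit 3) (.e (nat_lit 204813) (nat_lit 9) (.e (nat_lit 426258) (nat_lit 9) .nil)))) (.g (nat_lit 0) (.e (nat_lit 183875) (nat_lit 0) .nil) .nil)))) (.nd (nat_lit 9) 
(.lf (nat_lit 506112) (.g (nat_lit 3430) (.e (nat_lit 164329) (nat_lit 230) (.e (nat_lit 163867) (nat_lit 2) (.e (nat_lit 196656) (nat_lit 11) (.e (nat_lit 16463) (nat_lit 13) (.e (nat_lit 483341) (nat_lit 9) (.e (nat_lit 426106) (nat_lit 1) .nil)))))) (.g (nat_lit 1) (.e (nat_lit 183314) (nat_lit 0) .nil) .nil))) 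
(.lf (nat_lit 506624) (.g (nat_lit 3902) (.e (nat_lit 164332) (nat_lit 230) (.e (nat_lit 163869) (nat_lit 2) (.e (nat_lit 196653) (nat_lit 11) (.e (nat_lit 16463) (nat_lit 13) (.e (nat_lit 483341) (nat_lit 9) (.e (nat_lit 426106) (nat_lit 1) .nil)))))) (.g (nat_lit 1) (.e (nat_lit 184570) (nat_lit 0) .nil) .nil))))) (.nd (nat_lit 8) (.nd (nat_lit 9) 
(.lf (nat_lit 505984) (.g (nat_lit 2026) (.e (nat_lit 164327) (nat_lit 230) (.e (nat_lit 163882) (nat_lit 4) (.e (nat_lit 213030) (nat_lit 11) (.e (nat_lit 24657) (nat_lit 13) (.e (nat_lit 393281) (nat_lit 23) (.e (nat_lit 426098) (nat_lit 1) .nil)))))) (.g (nat_lit 1) (.e (nat_lit 182901) (nat_lit 0) .nil) .nil))) 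
(.lf (nat_lit 506496) (.g (nat_lit 2196) (.e (nat_lit 164331) (nat_lit 230) (.e (nat_lit 163867) (nat_lit 2) (.e (nat_lit 196656) (nat_lit 11) (.e (nat_lit 16433) (nat_lit 9) (.e (nat_lit 426568) (nat_lit 34) .nil))))) (.g (nat_lit 0) (.e (nat_lit 184264) (nat_lit 0) .nil) .nil)))) (.nd (nat_lit 9) 
(.lf (nat_lit 506240) (.g (nat_lit 3690) (.e (nat_lit 164329) (nat_lit 230) (.e (nat_lit 163902) (nat_lit 12) (.e (nat_lit 426568) (nat_lit 34) (.e (nat_lit 393296) (nat_lit 26) (.e (nat_lit 475178) (nat_lit 24) (.e (nat_lit 516117) (nat_lit 1) .nil)))))) (.g (nat_lit 1) (.e (nat_lit 183500) (nat_lit 0) .nil) .nil))) 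
(.lf (nat_lit 506752) (.g (nat_lit 3501) (.e (nat_lit 164332) (nat_lit 230) (.e (nat_lit 163902) (nat_lit 12) (.e (nat_lit 426472) (nat_lit 25) (.e (nat_lit 319534) (nat_lit 16) (.e (nat_lit 286756) (nat_lit 10) (.e (nat_lit 344099) (nat_lit 18) (.e (nat_lit 7290) (nat_lit 386) (.e (nat_lit 163864) (nat_lit 1) .nil)))))))) (.g (nat_lit 1) (.e (nat_lit 184810) (nat_lit 0) .nil) .nil)))))) 
(.nd (nat_lit 7) (.nd (nat_lit 8) (.nd (nat_lit 9) 
(.lf (nat_lit 505920) (.g (nat_lit 2243) (.e (nat_lit 164327) (nat_lit 230) (.e (nat_lit 163873) (nat_lit 3) (.e (nat_lit 204813) (nat_lit 9) (.e (nat_lit 426199) (nat_lit 9) .nil)))) (.g (nat_lit 0) (.e (nat_lit 182750) (nat_lit 0) .nil) .nil))) 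
(.lf (nat_lit 506432) (.g (nat_lit 2919) (.e (nat_lit 164330) (nat_lit 230) (.e (nat_lit 163902) (nat_lit 12) (.e (nat_lit 426566) (nat_lit 34) (.e (nat_lit 393292) (nat_lit 26) .nil)))) (.g (nat_lit 0) (.e (nat_lit 183993) (nat_lit 0) .nil) .nil)))) (.nd (nat_lit 9) 
(.lf (nat_lit 506176) (.g (nat_lit 2188) (.e (nat_lit 164329) (nat_lit 230) (.e (nat_lit 163902) (nat_lit 12) (.e (nat_lit 426428) (nat_lit 17) (.e (nat_lit 90170) (nat_lit 13) (.e (nat_lit 172079) (nat_lit 7) (.e (nat_lit 409611) (nat_lit 10) (.e (nat_lit 946) (nat_lit 77) (.e (nat_lit 794658) (nat_lit 21) .nil)))))))) (.g (nat_lit 1) (.e (nat_lit 183415) (nat_lit 0) .nil) .nil))) 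
(.lf (nat_lit 506688) (.g (nat_lit 2568) (.e (nat_lit 164332) (nat_lit 230) (.e (nat_lit 163873) (nat_lit 3) (.e (nat_lit 204813) (nat_lit 9) (.e (nat_lit 433920) (nat_lit 9) .nil)))) (.g (nat_lit 0) (.e (nat_lit 184660) (nat_lit 0) .nil) .nil))))) (.nd (nat_lit 8) (.nd (nat_lit 9) 
(.lf (nat_lit 506048) (.g (nat_lit 3689) (.e (nat_lit 164327) (nat_lit 230) (.e (nat_lit 163936) (nat_lit 18) (.e (nat_lit 475177) (nat_lit 24) (.e (nat_lit 516176) (nat_lit 14) (.e (nat_lit 466972) (nat_lit 21) (.e (nat_lit 164183) (nat_lit 154) (.e (nat_lit 65280) (nat_lit 62) .nil))))))) (.g (nat_lit 1) (.e (nat_lit 183130) (nat_lit 0) .nil) .nil))) 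
(.lf (nat_lit 506560) (.g (nat_lit 1254) (.e (nat_lit 164331) (nat_lit 230) (.e (nat_lit 163941) (nat_lit 19) (.e (nat_lit 483341) (nat_lit 9) (.e (nat_lit 426198) (nat_lit 9) .nil)))) (.g (nat_lit 0) (.e (nat_lit 184435) (nat_lit 0) .nil) .nil)))) (.nd (nat_lit 9) 
(.lf (nat_lit 506304) (.g (nat_lit 1636) (.e (nat_lit 164330) (nat_lit 230) (.e (nat_lit 163867) (nat_lit 2) (.e (nat_lit 196656) (nat_lit 11) (.e (nat_lit 16463) (nat_lit 13) .nil)))) (.g (nat_lit 0) (.e (nat_lit 183781) (nat_lit 0) .nil) .nil))) 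
(.lf (nat_lit 506816) (.g (nat_lit 4573) (.e (nat_lit 164332) (nat_lit 230) (.e (nat_lit 163905) (nat_lit 12) (.e (nat_lit 426482) (nat_lit 27) (.e (nat_lit 336389) (nat_lit 27) (.e (nat_lit 426190) (nat_lit 9) (.e (nat_lit 426436) (nat_lit 18) (.e (nat_lit 98335) (nat_lit 18) .nil))))))) (.g (nat_lit 1) (.e (nat_lit 184955) (nat_lit 0) .nil) .nil))))))) 
(.nd (nat_lit 6) (.nd (nat_lit 7) (.nd (nat_lit 8) (.nd (nat_lit 9) 
(.lf (nat_lit 505888) (.g (nat_lit 1979) (.e (nat_lit 164327) (nat_lit 230) (.e (nat_lit 163871) (nat_lit 2) (.e (nat_lit 196656) (nat_lit 11) (.e (nat_lit 16465) (nat_lit 13) (.e (nat_lit 491264) (nat_lit 9) .nil))))) (.g (nat_lit 0) (.e (nat_lit 182678) (nat_lit 0) .nil) .nil))) 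
(.lf (nat_lit 506400) (.g (nat_lit 659) (.e (nat_lit 164330) (nat_lit 230) (.e (nat_lit 163902) (nat_lit 12) (.e (nat_lit 426436) (nat_lit 18) .nil))) (.g (nat_lit 0) (.e (nat_lit 183949) (nat_lit 0) .nil) .nil)))) (.nd (nat_lit 9) 
(.lf (nat_lit 506144) (.g (nat_lit 3014) (.e (nat_lit 164329) (nat_lit 230) (.e (nat_lit 163873) (nat_lit 3) (.e (nat_lit 204813) (nat_lit 9) (.e (nat_lit 426199) (nat_lit 9) .nil)))) (.g (nat_lit 0) (.e (nat_lit 183353) (nat_lit 0) .nil) .nil))) 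
(.lf (nat_lit 506656) (.g (nat_lit 2029) (.e (nat_lit 164332) (nat_lit 230) (.e (nat_lit 163869) (nat_lit 2) (.e (nat_lit 196656) (nat_lit 11) (.e (nat_lit 16465) (nat_lit 13) (.e (nat_lit 483337) (nat_lit 9) .nil))))) (.g (nat_lit 0) (.e (nat_lit 184611) (nat_lit 0) .nil) .nil))))) (.nd (nat_lit 8) (.nd (nat_lit 9) 
(.lf (nat_lit 506016) (.g (nat_lit 1956) (.e (nat_lit 164327) (nat_lit 230) (.e (nat_lit 163903) (nat_lit 12) (.e (nat_lit 426566) (nat_lit 34) (.e (nat_lit 393269) (nat_lit 23) .nil)))) (.g (nat_lit 0) (.e (nat_lit 182970) (nat_lit 0) .nil) .nil))) 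
(.lf (nat_lit 506528) (.g (nat_lit 721) (.e (nat_lit 164331) (nat_lit 230) (.e (nat_lit 163874) (nat_lit 3) (.e (nat_lit 204813) (nat_lit 9) .nil))) (.g (nat_lit 0) (.e (nat_lit 184318) (nat_lit 0) .nil) .nil)))) (.nd (nat_lit 9) 
(.lf (nat_lit 506272) (.g (nat_lit 3472) (.e (nat_lit 164329) (nat_lit 230) (.e (nat_lit 163941) (nat_lit 19) (.e (nat_lit 483341) (nat_lit 9) (.e (nat_lit 426306) (nat_lit 12) (.e (nat_lit 475179) (nat_lit 24) (.e (nat_lit 516117) (nat_lit 1) .nil)))))) (.g (nat_lit 1) (.e (nat_lit 183730) (nat_lit 0) .nil) .nil))) 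
(.lf (nat_lit 506784) (.g (nat_lit 2357) (.e (nat_lit 164332) (nat_lit 230) (.e (nat_lit 163902) (nat_lit 12) (.e (nat_lit 426568) (nat_lit 34) (.e (nat_lit 393271) (nat_lit 23) (.e (nat_lit 426434) (nat_lit 18) .nil))))) (.g (nat_lit 0) (.e (nat_lit 184861) (nat_lit 0) .nil) .nil)))))) (.nd (nat_lit 7) (.nd (nat_lit 8) (.nd (nat_lit 9) 
(.lf (nat_lit 505952) (.g (nat_lit 881) (.e (nat_lit 164327) (nat_lit 230) (.e (nat_lit 163875) (nat_lit 3) (.e (nat_lit 204813) (nat_lit 9) (.e (nat_lit 426200) (nat_lit 9) .nil)))) (.g (nat_lit 0) (.e (nat_lit 182839) (nat_lit 0) .nil) .nil))) 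
(.lf (nat_lit 506464) (.g (nat_lit 3978) (.e (nat_lit 164330) (nat_lit 230) (.e (nat_lit 163941) (nat_lit 19) (.e (nat_lit 483341) (nat_lit 9) (.e (nat_lit 426031) (nat_lit 0) .nil)))) (.g (nat_lit 0) (.e (nat_lit 184216) (nat_lit 0) .nil) .nil)))) (.nd (nat_lit 9) 
(.lf (nat_lit 506208) (.g (nat_lit 1809) (.e (nat_lit 164329) (nat_lit 230) (.e (nat_lit 163902) (nat_lit 12) (.e (nat_lit 426566) (nat_lit 34) (.e (nat_lit 393293) (nat_lit 26) (.e (nat_lit 475176) (nat_lit 24) .nil))))) (.g (nat_lit 0) (.e (nat_lit 183464) (nat_lit 0) .nil) .nil))) 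
(.lf (nat_lit 506720) (.g (nat_lit 2336) (.e (nat_lit 164332) (nat_lit 230) (.e (nat_lit 163885) (nat_lit 5) (.e (nat_lit 221206) (nat_lit 21) (.e (nat_lit 164325) (nat_lit 230) (.e (nat_lit 171776) (nat_lit 66) (.e (nat_lit 114714) (nat_lit 22) (.e (nat_lit 90185) (nat_lit 17) (.e (nat_lit 237582) (nat_lit 1) .nil)))))))) (.g (nat_lit 1) (.e (nat_lit 184730) (nat_lit 0) .nil) .nil))))) 
(.nd (nat_lit 8) (.nd (nat_lit 9) 
(.lf (nat_lit 506080) (.g (nat_lit 451) (.e (nat_lit 164329) (nat_lit 230) (.e (nat_lit 163850) (nat_lit 0) (.e (nat_lit 3306) (nat_lit 202) .nil))) (.g (nat_lit 0) (.e (nat_lit 183261) (nat_lit 0) .nil) .nil))) 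
(.lf (nat_lit 506592) (.g (nat_lit 1526) (.e (nat_lit 164332) (nat_lit 230) (.e (nat_lit 163867) (nat_lit 2) (.e (nat_lit 196653) (nat_lit 11) (.e (nat_lit 16464) (nat_lit 13) .nil)))) (.g (nat_lit 0) (.e (nat_lit 184504) (nat_lit 0) .nil) .nil)))) (.nd (nat_lit 9) 
(.lf (nat_lit 506336) (.g (nat_lit 2659) (.e (nat_lit 164330) (nat_lit 230) (.e (nat_lit 163873) (nat_lit 3) (.e (nat_lit 204809) (nat_lit 9) (.e (nat_lit 426190) (nat_lit 9) (.e (nat_lit 426566) (nat_lit 34) (.e (nat_lit 393253) (nat_lit 18) .nil)))))) (.g (nat_lit 1) (.e (nat_lit 183824) (nat_lit 0) .nil) .nil))) 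
(.lf (nat_lit 506848) (.g (nat_lit 2012) (.e (nat_lit 164332) (nat_lit 230) (.e (nat_lit 163941) (nat_lit 19) (.e (nat_lit 483341) (nat_lit 9) (.e (nat_lit 426185) (nat_lit 9) .nil)))) (.g (nat_lit 0) (.e (nat_lit 185151) (nat_lit 0) .nil) .nil)))))))) (.nd (nat_lit 5) (.nd (nat_lit 6) (.nd (nat_lit 7) (.nd (nat_lit 8) (.nd (nat_lit 9) 
(.lf (nat_lit 505872) (.g (nat_lit 2330) (.e (nat_lit 164327) (nat_lit 230) (.e (nat_lit 163871) (nat_lit 2) (.e (nat_lit 196656) (nat_lit 11) (.e (nat_lit 16417) (nat_lit 3) .nil)))) (.g (nat_lit 0) (.e (nat_lit 182652) (nat_lit 0) .nil) .nil))) 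
(.lf (nat_lit 506384) (.g (nat_lit 1731) (.e (nat_lit 164330) (nat_lit 230) (.e (nat_lit 163878) (nat_lit 4) (.e (nat_lit 213030) (nat_lit 11) (.e (nat_lit 24655) (nat_lit 13) (.e (nat_lit 393281) (nat_lit 23) .nil))))) (.g (nat_lit 0) (.e (nat_lit 183913) (nat_lit 0) .nil) .nil)))) (.nd (nat_lit 9) 
(.lf (nat_lit 506128) (.g (nat_lit 1061) (.e (nat_lit 164329) (nat_lit 230) (.e (nat_lit 163873) (nat_lit 3) (.e (nat_lit 204809) (nat_lit 9) (.e (nat_lit 426213) (nat_lit 9) .nil)))) (.g (nat_lit 0) (.e (nat_lit 183331) (nat_lit 0) .nil) .nil))) 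
(.lf (nat_lit 506640) (.g (nat_lit 3305) (.e (nat_lit 164332) (nat_lit 230) (.e (nat_lit 163869) (nat_lit 2) (.e (nat_lit 196655) (nat_lit 11) (.e (nat_lit 16436) (nat_lit 9) (.e (nat_lit 426566) (nat_lit 34) (.e (nat_lit 393254) (nat_lit 18) .nil)))))) (.g (nat_lit 1) (.e (nat_lit 184589) (nat_lit 0) .nil) .nil))))) (.nd (nat_lit 8) (.nd (nat_lit 9) 
(.lf (nat_lit 506000) (.g (nat_lit 2669) (.e (nat_lit 164327) (nat_lit 230) (.e (nat_lit 163902) (nat_lit 12) (.e (nat_lit 426566) (nat_lit 34) (.e (nat_lit 393291) (nat_lit 26) .nil)))) (.g (nat_lit 0) (.e (nat_lit 182943) (nat_lit 0) .nil) .nil))) 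
(.lf (nat_lit 506512) (.g (nat_lit 3171) (.e (nat_lit 164331) (nat_lit 230) (.e (nat_lit 163873) (nat_lit 3) (.e (nat_lit 204813) (nat_lit 9) (.e (nat_lit 426187) (nat_lit 9) (.e (nat_lit 426566) (nat_lit 34) .nil))))) (.g (nat_lit 0) (.e (nat_lit 184287) (nat_lit 0) .nil) .nil)))) (.nd (nat_lit 9) 
(.lf (nat_lit 506256) (.g (nat_lit 3907) (.e (nat_lit 164329) (nat_lit 230) (.e (nat_lit 163941) (nat_lit 19) (.e (nat_lit 483341) (nat_lit 9) (.e (nat_lit 426011) (nat_lit 0) .nil)))) (.g (nat_lit 0) (.e (nat_lit 183710) (nat_lit 0) .nil) .nil))) 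
(.lf (nat_lit 506768) (.g (nat_lit 3456) (.e (nat_lit 164332) (nat_lit 230) (.e (nat_lit 163902) (nat_lit 12) (.e (nat_lit 426566) (nat_lit 34) (.e (nat_lit 393291) (nat_lit 26) (.e (nat_lit 475177) (nat_lit 24) (.e (nat_lit 516120) (nat_lit 1) .nil)))))) (.g (nat_lit 1) (.e (nat_lit 184844) (nat_lit 0) .nil) .nil)))))) (.nd (nat_lit 7) (.nd (nat_lit 8) (.nd (nat_lit 9) 
(.lf (nat_lit 505936) (.g (nat_lit 2008) (.e (nat_lit 164327) (nat_lit 230) (.e (nat_lit 163875) (nat_lit 3) (.e (nat_lit 204809) (nat_lit 9) (.e (nat_lit 426188) (nat_lit 9) (.e (nat_lit 426564) (nat_lit 34) .nil))))) (.g (nat_lit 0) (.e (nat_lit 182810) (nat_lit 0) .nil) .nil))) 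
(.lf (nat_lit 506448) (.g (nat_lit 1844) (.e (nat_lit 164330) (nat_lit 230) (.e (nat_lit 163905) (nat_lit 12) (.e (nat_lit 426566) (nat_lit 34) (.e (nat_lit 393269) (nat_lit 23) .nil)))) (.g (nat_lit 0) (.e (nat_lit 184035) (nat_lit 0) .nil) .nil)))) (.nd (nat_lit 9) 
(.lf (nat_lit 506192) (.g (nat_lit 1754) (.e (nat_lit 164329) (nat_lit 230) (.e (nat_lit 163902) (nat_lit 12) (.e (nat_lit 426472) (nat_lit 25) (.e (nat_lit 319533) (nat_lit 16) (.e (nat_lit 286753) (nat_lit 10) (.e (nat_lit 344087) (nat_lit 18) (.e (nat_lit 7289) (nat_lit 386) (.e (nat_lit 163864) (nat_lit 1) .nil)))))))) (.g (nat_lit 1) (.e (nat_lit 183436) (nat_lit 0) .nil) .nil))) 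
(.lf (nat_lit 506704) (.g (nat_lit 5287) (.e (nat_lit 164332) (nat_lit 230) (.e (nat_lit 163874) (nat_lit 3) (.e (nat_lit 204838) (nat_lit 20) (.e (nat_lit 114719) (nat_lit 23) (.e (nat_lit 98384) (nat_lit 32) (.e (nat_lit 475177) (nat_lit 24) (.e (nat_lit 516118) (nat_lit 1) .nil))))))) (.g (nat_lit 1) (.e (nat_lit 184708) (nat_lit 0) .nil) .nil))))) (.nd (nat_lit 8) (.nd (nat_lit 9) 
(.lf (nat_lit 506064) (.g (nat_lit 3370) (.e (nat_lit 164328) (nat_lit 230) (.e (nat_lit 163873) (nat_lit 3) (.e (nat_lit 204813) (nat_lit 9) (.e (nat_lit 426188) (nat_lit 9) .nil)))) (.g (nat_lit 0) (.e (nat_lit 183175) (nat_lit 0) .nil) .nil))) 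
(.lf (nat_lit 506576) (.g (nat_lit 3411) (.e (nat_lit 164332) (nat_lit 230) (.e (nat_lit 163866) (nat_lit 2) (.e (nat_lit 196654) (nat_lit 11) (.e (nat_lit 16433) (nat_lit 9) (.e (nat_lit 426568) (nat_lit 34) (.e (nat_lit 393253) (nat_lit 18) .nil)))))) (.g (nat_lit 1) (.e (nat_lit 184478) (nat_lit 0) .nil) .nil)))) (.nd (nat_lit 9) 
(.lf (nat_lit 506320) (.g (nat_lit 2889) (.e (nat_lit 164330) (nat_lit 230) (.e (nat_lit 163869) (nat_lit 2) (.e (nat_lit 196654) (nat_lit 11) (.e (nat_lit 16463) (nat_lit 13) (.e (nat_lit 483341) (nat_lit 9) (.e (nat_lit 426106) (nat_lit 1) .nil)))))) (.g (nat_lit 1) (.e (nat_lit 183802) (nat_lit 0) .nil) .nil))) 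
(.lf (nat_lit 506832) (.g (nat_lit 1577) (.e (nat_lit 164332) (nat_lit 230) (.e (nat_lit 163905) (nat_lit 12) (.e (nat_lit 426566) (nat_lit 34) (.e (nat_lit 393269) (nat_lit 23) .nil)))) (.g (nat_lit 0) (.e (nat_lit 185001) (nat_lit 0) .nil) .nil))))))) (.nd (nat_lit 6) (.nd (nat_lit 7) (.nd (nat_lit 8) (.nd (nat_lit 9) 
(.lf (nat_lit 505904) (.g (nat_lit 3801) (.e (nat_lit 164327) (nat_lit 230) (.e (nat_lit 163873) (nat_lit 3) (.e (nat_lit 204813) (nat_lit 9) (.e (nat_lit 426123) (nat_lit 2) .nil)))) (.g (nat_lit 0) (.e (nat_lit 182722) (nat_lit 0) .nil) .nil))) 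
(.lf (nat_lit 506416) (.g (nat_lit 2217) (.e (nat_lit 164330) (nat_lit 230) (.e (nat_lit 163902) (nat_lit 12) (.e (nat_lit 426472) (nat_lit 25) (.e (nat_lit 319533) (nat_lit 16) (.e (nat_lit 286753) (nat_lit 10) (.e (nat_lit 344087) (nat_lit 18) (.e (nat_lit 7289) (nat_lit 386) (.e (nat_lit 163864) (nat_lit 1) .nil)))))))) (.g (nat_lit 1) (.e (nat_lit 183966) (nat_lit 0) .nil) .nil)))) 
(.nd (nat_lit 9) 
(.lf (nat_lit 506160) (.g (nat_lit 1841) (.e (nat_lit 164329) (nat_lit 230) (.e (nat_lit 163874) (nat_lit 3) (.e (nat_lit 204813) (nat_lit 9) (.e (nat_lit 426200) (nat_lit 9) (.e (nat_lit 426566) (nat_lit 34) .nil))))) (.g (nat_lit 0) (.e (nat_lit 183379) (nat_lit 0) .nil) .nil))) 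
(.lf (nat_lit 506672) (.g (nat_lit 3987) (.e (nat_lit 164332) (nat_lit 230) (.e (nat_lit 163873) (nat_lit 3) (.e (nat_lit 204813) (nat_lit 9) (.e (nat_lit 426138) (nat_lit 3) .nil)))) (.g (nat_lit 0) (.e (nat_lit 184640) (nat_lit 0) .nil) .nil))))) (.nd (nat_lit 8) (.nd (nat_lit 9) 
(.lf (nat_lit 506032) (.g (nat_lit 3489) (.e (nat_lit 164327) (nat_lit 230) (.e (nat_lit 163903) (nat_lit 12) (.e (nat_lit 426568) (nat_lit 34) (.e (nat_lit 393291) (nat_lit 26) (.e (nat_lit 475177) (nat_lit 24) (.e (nat_lit 516118) (nat_lit 1) .nil)))))) (.g (nat_lit 1) (.e (nat_lit 182987) (nat_lit 0) .nil) .nil))) 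
(.lf (nat_lit 506544) (.g (nat_lit 2253) (.e (nat_lit 164331) (nat_lit 230) (.e (nat_lit 163902) (nat_lit 12) (.e (nat_lit 426568) (nat_lit 34) (.e (nat_lit 393268) (nat_lit 23) (.e (nat_lit 426438) (nat_lit 18) .nil))))) (.g (nat_lit 0) (.e (nat_lit 184339) (nat_lit 0) .nil) .nil)))) (.nd (nat_lit 9) 
(.lf (nat_lit 506288) (.g (nat_lit 3898) (.e (nat_lit 164330) (nat_lit 230) (.e (nat_lit 163866) (nat_lit 2) (.e (nat_lit 196654) (nat_lit 11) (.e (nat_lit 16463) (nat_lit 13) (.e (nat_lit 483337) (nat_lit 9) (.e (nat_lit 426108) (nat_lit 1) .nil)))))) (.g (nat_lit 1) (.e (nat_lit 183758) (nat_lit 0) .nil) .nil))) 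
(.lf (nat_lit 506800) (.g (nat_lit 948) (.e (nat_lit 164332) (nat_lit 230) (.e (nat_lit 163905) (nat_lit 12) (.e (nat_lit 426254) (nat_lit 9) .nil))) (.g (nat_lit 0) (.e (nat_lit 184897) (nat_lit 0) .nil) .nil)))))) (.nd (nat_lit 7) (.nd (nat_lit 8) (.nd (nat_lit 9) 
(.lf (nat_lit 505968) (.g (nat_lit 3593) (.e (nat_lit 164327) (nat_lit 230) (.e (nat_lit 163875) (nat_lit 3) (.e (nat_lit 204838) (nat_lit 20) (.e (nat_lit 114719) (nat_lit 23) (.e (nat_lit 98384) (nat_lit 32) (.e (nat_lit 475177) (nat_lit 24) (.e (nat_lit 516119) (nat_lit 1) .nil))))))) (.g (nat_lit 1) (.e (nat_lit 182881) (nat_lit 0) .nil) .nil))) 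
(.lf (nat_lit 506480) (.g (nat_lit 4073) (.e (nat_lit 164330) (nat_lit 230) (.e (nat_lit 163941) (nat_lit 19) (.e (nat_lit 483341) (nat_lit 9) (.e (nat_lit 426263) (nat_lit 9) .nil)))) (.g (nat_lit 0) (.e (nat_lit 184237) (nat_lit 0) .nil) .nil)))) (.nd (nat_lit 9) 
(.lf (nat_lit 506224) (.g (nat_lit 1124) (.e (nat_lit 164329) (nat_lit 230) (.e (nat_lit 163902) (nat_lit 12) (.e (nat_lit 426568) (nat_lit 34) (.e (nat_lit 401152) (nat_lit 23) .nil)))) (.g (nat_lit 0) (.e (nat_lit 183484) (nat_lit 0) .nil) .nil))) 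
(.lf (nat_lit 506736) (.g (nat_lit 4824) (.e (nat_lit 164332) (nat_lit 230) (.e (nat_lit 163902) (nat_lit 12) (.e (nat_lit 426438) (nat_lit 18) (.e (nat_lit 98373) (nat_lit 29) (.e (nat_lit 450562) (nat_lit 0) (.e (nat_lit 6841) (nat_lit 369) (.e (nat_lit 163862) (nat_lit 1) .nil))))))) (.g (nat_lit 1) (.e (nat_lit 184792) (nat_lit 0) .nil) .nil))))) (.nd (nat_lit 8) (.nd (nat_lit 9) 
(.lf (nat_lit 506096) (.g (nat_lit 3257) (.e (nat_lit 164329) (nat_lit 230) (.e (nat_lit 163867) (nat_lit 2) (.e (nat_lit 196654) (nat_lit 11) (.e (nat_lit 16463) (nat_lit 13) (.e (nat_lit 483341) (nat_lit 9) (.e (nat_lit 426106) (nat_lit 1) .nil)))))) (.g (nat_lit 1) (.e (nat_lit 183294) (nat_lit 0) .nil) .nil))) 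
(.lf (nat_lit 506608) (.g (nat_lit 1361) (.e (nat_lit 164332) (nat_lit 230) (.e (nat_lit 163867) (nat_lit 2) (.e (nat_lit 196656) (nat_lit 11) (.e (nat_lit 16439) (nat_lit 9) .nil)))) (.g (nat_lit 0) (.e (nat_lit 184538) (nat_lit 0) .nil) .nil)))) (.nd (nat_lit 9) 
(.lf (nat_lit 506352) (.g (nat_lit 3265) (.e (nat_lit 164330) (nat_lit 230) (.e (nat_lit 163873) (nat_lit 3) (.e (nat_lit 204813) (nat_lit 9) (.e (nat_lit 426196) (nat_lit 9) .nil)))) (.g (nat_lit 0) (.e (nat_lit 183857) (nat_lit 0) .nil) .nil))) 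
(.lf (nat_lit 506864) (.g (nat_lit 3633) (.e (nat_lit 164332) (nat_lit 230) (.e (nat_lit 163941) (nat_lit 19) (.e (nat_lit 483341) (nat_lit 9) (.e (nat_lit 426258) (nat_lit 9) .nil)))) (.g (nat_lit 0) (.e (nat_lit 185171) (nat_lit 0) .nil) .nil))))))))) (.nd (nat_lit 4) (.nd (nat_lit 5) (.nd (nat_lit 6) (.nd (nat_lit 7) (.nd (nat_lit 8) (.nd (nat_lit 9) 
(.lf (nat_lit 505864) (.g (nat_lit 425) (.e (nat_lit 164327) (nat_lit 230) (.e (nat_lit 163871) (nat_lit 2) (.e (nat_lit 196656) (nat_lit 11) .nil))) (.g (nat_lit 0) (.e (nat_lit 182639) (nat_lit 0) .nil) .nil))) 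
(.lf (nat_lit 506376) (.g (nat_lit 2568) (.e (nat_lit 164330) (nat_lit 230) (.e (nat_lit 163874) (nat_lit 3) (.e (nat_lit 204809) (nat_lit 9) (.e (nat_lit 426190) (nat_lit 9) (.e (nat_lit 426566) (nat_lit 34) (.e (nat_lit 393253) (nat_lit 18) .nil)))))) (.g (nat_lit 1) (.e (nat_lit 183905) (nat_lit 0) .nil) .nil)))) (.nd (nat_lit 9) 
(.lf (nat_lit 506120) (.g (nat_lit 732) (.e (nat_lit 164329) (nat_lit 230) (.e (nat_lit 163869) (nat_lit 2) (.e (nat_lit 196656) (nat_lit 11) .nil))) (.g (nat_lit 0) (.e (nat_lit 183323) (nat_lit 0) .nil) .nil))) 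
(.lf (nat_lit 506632) (.g (nat_lit 1391) (.e (nat_lit 164332) (nat_lit 230) (.e (nat_lit 163869) (nat_lit 2) (.e (nat_lit 196654) (nat_lit 11) (.e (nat_lit 16437) (nat_lit 9) .nil)))) (.g (nat_lit 0) (.e (nat_lit 184578) (nat_lit 0) .nil) .nil))))) (.nd (nat_lit 8) (.nd (nat_lit 9) 
(.lf (nat_lit 505992) (.g (nat_lit 3107) (.e (nat_lit 164327) (nat_lit 230) (.e (nat_lit 163882) (nat_lit 4) (.e (nat_lit 213032) (nat_lit 11) (.e (nat_lit 24660) (nat_lit 13) (.e (nat_lit 393271) (nat_lit 23) (.e (nat_lit 426112) (nat_lit 1) .nil)))))) (.g (nat_lit 1) (.e (nat_lit 182910) (nat_lit 0) .nil) .nil))) 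
(.lf (nat_lit 506504) (.g (nat_lit 1914) (.e (nat_lit 164331) (nat_lit 230) (.e (nat_lit 163869) (nat_lit 2) (.e (nat_lit 196654) (nat_lit 11) (.e (nat_lit 16463) (nat_lit 13) .nil)))) (.g (nat_lit 0) (.e (nat_lit 184273) (nat_lit 0) .nil) .nil)))) (.nd (nat_lit 9) 
(.lf (nat_lit 506248) (.g (nat_lit 341) (.e (nat_lit 164329) (nat_lit 230) (.e (nat_lit 163941) (nat_lit 19) (.e (nat_lit 483337) (nat_lit 9) .nil))) (.g (nat_lit 0) (.e (nat_lit 183696) (nat_lit 0) .nil) .nil))) 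
(.lf (nat_lit 506760) (.g (nat_lit 2907) (.e (nat_lit 164332) (nat_lit 230) (.e (nat_lit 163902) (nat_lit 12) (.e (nat_lit 426564) (nat_lit 34) (.e (nat_lit 393291) (nat_lit 26) (.e (nat_lit 475177) (nat_lit 24) (.e (nat_lit 516118) (nat_lit 1) .nil)))))) (.g (nat_lit 1) (.e (nat_lit 184836) (nat_lit 0) .nil) .nil)))))) (.nd (nat_lit 7) (.nd (nat_lit 8) (.nd (nat_lit 9) 
(.lf (nat_lit 505928) (.g (nat_lit 1044) (.e (nat_lit 164327) (nat_lit 230) (.e (nat_lit 163874) (nat_lit 3) (.e (nat_lit 204811) (nat_lit 9) .nil))) (.g (nat_lit 0) (.e (nat_lit 182798) (nat_lit 0) .nil) .nil))) 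
(.lf (nat_lit 506440) (.g (nat_lit 1691) (.e (nat_lit 164330) (nat_lit 230) (.e (nat_lit 163902) (nat_lit 12) (.e (nat_lit 426568) (nat_lit 34) (.e (nat_lit 401152) (nat_lit 26) .nil)))) (.g (nat_lit 0) (.e (nat_lit 184001) (nat_lit 0) .nil) .nil)))) (.nd (nat_lit 9) 
(.lf (nat_lit 506184) (.g (nat_lit 4430) (.e (nat_lit 164329) (nat_lit 230) (.e (nat_lit 163902) (nat_lit 12) (.e (nat_lit 426438) (nat_lit 18) (.e (nat_lit 98373) (nat_lit 29) (.e (nat_lit 450562) (nat_lit 0) (.e (nat_lit 6839) (nat_lit 369) (.e (nat_lit 163861) (nat_lit 1) .nil))))))) (.g (nat_lit 1) (.e (nat_lit 183428) (nat_lit 0) .nil) .nil))) 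
(.lf (nat_lit 506696) (.g (nat_lit 3028) (.e (nat_lit 164332) (nat_lit 230) (.e (nat_lit 163874) (nat_lit 3) (.e (nat_lit 204829) (nat_lit 18) (.e (nat_lit 57688) (nat_lit 156) (.e (nat_lit 163860) (nat_lit 1) .nil))))) (.g (nat_lit 0) (.e (nat_lit 184700) (nat_lit 0) .nil) .nil))))) (.nd (nat_lit 8) (.nd (nat_lit 9) 
(.lf (nat_lit 506056) (.g (nat_lit 1857) (.e (nat_lit 164327) (nat_lit 230) (.e (nat_lit 163944) (nat_lit 19) (.e (nat_lit 483340) (nat_lit 9) (.e (nat_lit 426188) (nat_lit 9) (.e (nat_lit 426436) (nat_lit 18) .nil))))) (.g (nat_lit 0) (.e (nat_lit 183158) (nat_lit 0) .nil) .nil))) 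
(.lf (nat_lit 506568) (.g (nat_lit 3845) (.e (nat_lit 164331) (nat_lit 230) (.e (nat_lit 163941) (nat_lit 19) (.e (nat_lit 483341) (nat_lit 9) (.e (nat_lit 426258) (nat_lit 9) .nil)))) (.g (nat_lit 0) (.e (nat_lit 184445) (nat_lit 0) .nil) .nil)))) (.nd (nat_lit 9) 
(.lf (nat_lit 506312) (.g (nat_lit 3426) (.e (nat_lit 164330) (nat_lit 230) (.e (nat_lit 163869) (nat_lit 2) (.e (nat_lit 196653) (nat_lit 11) (.e (nat_lit 16435) (nat_lit 9) (.e (nat_lit 426566) (nat_lit 34) (.e (nat_lit 393252) (nat_lit 18) .nil)))))) (.g (nat_lit 1) (.e (nat_lit 183793) (nat_lit 0) .nil) .nil))) 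
(.lf (nat_lit 506824) (.g (nat_lit 948) (.e (nat_lit 164332) (nat_lit 230) (.e (nat_lit 163905) (nat_lit 12) (.e (nat_lit 426516) (nat_lit 27) .nil))) (.g (nat_lit 0) (.e (nat_lit 184973) (nat_lit 0) .nil) .nil))))))) (.nd (nat_lit 6) (.nd (nat_lit 7) (.nd (nat_lit 8) (.nd (nat_lit 9) 
(.lf (nat_lit 505896) (.g (nat_lit 372) (.e (nat_lit 164327) (nat_lit 230) (.e (nat_lit 163873) (nat_lit 3) (.e (nat_lit 204811) (nat_lit 9) .nil))) (.g (nat_lit 0) (.e (nat_lit 182699) (nat_lit 0) .nil) .nil))) 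
(.lf (nat_lit 506408) (.g (nat_lit 3572) (.e (nat_lit 164330) (nat_lit 230) (.e (nat_lit 163902) (nat_lit 12) (.e (nat_lit 426438) (nat_lit 18) (.e (nat_lit 98373) (nat_lit 29) (.e (nat_lit 450563) (nat_lit 0) (.e (nat_lit 6839) (nat_lit 369) (.e (nat_lit 163861) (nat_lit 1) .nil))))))) (.g (nat_lit 1) (.e (nat_lit 183958) (nat_lit 0) .nil) .nil)))) (.nd (nat_lit 9) 
(.lf (nat_lit 506152) (.g (nat_lit 4696) (.e (nat_lit 164329) (nat_lit 230) (.e (nat_lit 163873) (nat_lit 3) (.e (nat_lit 204813) (nat_lit 9) (.e (nat_lit 426222) (nat_lit 9) .nil)))) (.g (nat_lit 0) (.e (nat_lit 183361) (nat_lit 0) .nil) .nil))) 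
(.lf (nat_lit 506664) (.g (nat_lit 2161) (.e (nat_lit 164332) (nat_lit 230) (.e (nat_lit 163873) (nat_lit 3) (.e (nat_lit 204811) (nat_lit 9) (.e (nat_lit 426230) (nat_lit 9) (.e (nat_lit 426565) (nat_lit 34) (.e (nat_lit 393253) (nat_lit 18) .nil)))))) (.g (nat_lit 1) (.e (nat_lit 184624) (nat_lit 0) .nil) .nil))))) (.nd (nat_lit 8) (.nd (nat_lit 9) 
(.lf (nat_lit 506024) (.g (nat_lit 3879) (.e (nat_lit 164327) (nat_lit 230) (.e (nat_lit 163903) (nat_lit 12) (.e (nat_lit 426566) (nat_lit 34) (.e (nat_lit 393294) (nat_lit 26) (.e (nat_lit 475177) (nat_lit 24) (.e (nat_lit 516118) (nat_lit 1) .nil)))))) (.g (nat_lit 1) (.e (nat_lit 182978) (nat_lit 0) .nil) .nil))) 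
(.lf (nat_lit 506536) (.g (nat_lit 3073) (.e (nat_lit 164331) (nat_lit 230) (.e (nat_lit 163902) (nat_lit 12) (.e (nat_lit 426566) (nat_lit 34) (.e (nat_lit 393267) (nat_lit 23) .nil)))) (.g (nat_lit 0) (.e (nat_lit 184331) (nat_lit 0) .nil) .nil)))) (.nd (nat_lit 9) 
(.lf (nat_lit 506280) (.g (nat_lit 1344) (.e (nat_lit 164329) (nat_lit 230) (.e (nat_lit 163942) (nat_lit 19) (.e (nat_lit 483341) (nat_lit 9) (.e (nat_lit 426200) (nat_lit 9) (.e (nat_lit 426359) (nat_lit 15) .nil))))) (.g (nat_lit 0) (.e (nat_lit 183743) (nat_lit 0) .nil) .nil))) 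
(.lf (nat_lit 506792) (.g (nat_lit 1813) (.e (nat_lit 164332) (nat_lit 230) (.e (nat_lit 163902) (nat_lit 12) (.e (nat_lit 426568) (nat_lit 34) (.e (nat_lit 393294) (nat_lit 26) (.e (nat_lit 475176) (nat_lit 24) .nil))))) (.g (nat_lit 0) (.e (nat_lit 184870) (nat_lit 0) .nil) .nil)))))) (.nd (nat_lit 7) (.nd (nat_lit 8) (.nd (nat_lit 9) 
(.lf (nat_lit 505960) (.g (nat_lit 484) (.e (nat_lit 164327) (nat_lit 230) (.e (nat_lit 163875) (nat_lit 3) (.e (nat_lit 204837) (nat_lit 20) .nil))) (.g (nat_lit 0) (.e (nat_lit 182873) (nat_lit 0) .nil) .nil))) 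
(.lf (nat_lit 506472) (.g (nat_lit 2498) (.e (nat_lit 164330) (nat_lit 230) (.e (nat_lit 163941) (nat_lit 19) (.e (nat_lit 483341) (nat_lit 9) (.e (nat_lit 426199) (nat_lit 9) .nil)))) (.g (nat_lit 0) (.e (nat_lit 184229) (nat_lit 0) .nil) .nil)))) (.nd (nat_lit 9) 
(.lf (nat_lit 506216) (.g (nat_lit 2853) (.e (nat_lit 164329) (nat_lit 230) (.e (nat_lit 163902) (nat_lit 12) (.e (nat_lit 426568) (nat_lit 34) (.e (nat_lit 393268) (nat_lit 23) (.e (nat_lit 426437) (nat_lit 18) (.e (nat_lit 98334) (nat_lit 18) .nil)))))) (.g (nat_lit 1) (.e (nat_lit 183476) (nat_lit 0) .nil) .nil))) 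
(.lf (nat_lit 506728) (.g (nat_lit 2285) (.e (nat_lit 164332) (nat_lit 230) (.e (nat_lit 163902) (nat_lit 12) (.e (nat_lit 426438) (nat_lit 18) (.e (nat_lit 98372) (nat_lit 29) (.e (nat_lit 450561) (nat_lit 0) (.e (nat_lit 6839) (nat_lit 369) (.e (nat_lit 163861) (nat_lit 1) .nil))))))) (.g (nat_lit 1) (.e (nat_lit 184784) (nat_lit 0) .nil) .nil))))) (.nd (nat_lit 8) (.nd (nat_lit 9) 
(.lf (nat_lit 506088) (.g (nat_lit 1586) (.e (nat_lit 164329) (nat_lit 230) (.e (nat_lit 163867) (nat_lit 2) (.e (nat_lit 196624) (nat_lit 9) (.e (nat_lit 433) (nat_lit 32) (.e (nat_lit 426232) (nat_lit 9) .nil))))) (.g (nat_lit 0) (.e (nat_lit 183281) (nat_lit 0) .nil) .nil))) 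
(.lf (nat_lit 506600) (.g (nat_lit 3701) (.e (nat_lit 164332) (nat_lit 230) (.e (nat_lit 163867) (nat_lit 2) (.e (nat_lit 196654) (nat_lit 11) (.e (nat_lit 16466) (nat_lit 13) (.e (nat_lit 483337) (nat_lit 9) (.e (nat_lit 426108) (nat_lit 1) .nil)))))) (.g (nat_lit 1) (.e (nat_lit 184515) (nat_lit 0) .nil) .nil)))) (.nd (nat_lit 9) 
(.lf (nat_lit 506344) (.g (nat_lit 4656) (.e (nat_lit 164330) (nat_lit 230) (.e (nat_lit 163873) (nat_lit 3) (.e (nat_lit 204813) (nat_lit 9) (.e (nat_lit 426133) (nat_lit 3) .nil)))) (.g (nat_lit 0) (.e (nat_lit 183847) (nat_lit 0) .nil) .nil))) 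
(.lf (nat_lit 506856) (.g (nat_lit 4233) (.e (nat_lit 164332) (nat_lit 230) (.e (nat_lit 163941) (nat_lit 19) (.e (nat_lit 483341) (nat_lit 9) (.e (nat_lit 426198) (nat_lit 9) (.e (nat_lit 426402) (nat_lit 15) (.e (nat_lit 1788) (nat_lit 119) (.e (nat_lit 516116) (nat_lit 1) .nil))))))) (.g (nat_lit 1) (.e (nat_lit 185163) (nat_lit 0) .nil) .nil)))))))) 
(.nd (nat_lit 5) (.nd (nat_lit 6) (.nd (nat_lit 7) (.nd (nat_lit 8) (.nd (nat_lit 9) 
(.lf (nat_lit 505880) (.g (nat_lit 2478) (.e (nat_lit 164327) (nat_lit 230) (.e (nat_lit 163871) (nat_lit 2) (.e (nat_lit 196656) (nat_lit 11) (.e (nat_lit 16438) (nat_lit 9) (.e (nat_lit 426482) (nat_lit 27) .nil))))) (.g (nat_lit 0) (.e (nat_lit 182664) (nat_lit 0) .nil) .nil))) 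
(.lf (nat_lit 506392) (.g (nat_lit 2629) (.e (nat_lit 164330) (nat_lit 230) (.e (nat_lit 163901) (nat_lit 12) (.e (nat_lit 426566) (nat_lit 34) (.e (nat_lit 393296) (nat_lit 26) (.e (nat_lit 475179) (nat_lit 24) .nil))))) (.g (nat_lit 0) (.e (nat_lit 183938) (nat_lit 0) .nil) .nil)))) (.nd (nat_lit 9) 
(.lf (nat_lit 506136) (.g (nat_lit 4052) (.e (nat_lit 164329) (nat_lit 230) (.e (nat_lit 163873) (nat_lit 3) (.e (nat_lit 204813) (nat_lit 9) (.e (nat_lit 426138) (nat_lit 3) .nil)))) (.g (nat_lit 0) (.e (nat_lit 183345) (nat_lit 0) .nil) .nil))) 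
(.lf (nat_lit 506648) (.g (nat_lit 2139) (.e (nat_lit 164332) (nat_lit 230) (.e (nat_lit 163869) (nat_lit 2) (.e (nat_lit 196656) (nat_lit 11) (.e (nat_lit 16436) (nat_lit 9) (.e (nat_lit 426478) (nat_lit 27) .nil))))) (.g (nat_lit 0) (.e (nat_lit 184601) (nat_lit 0) .nil) .nil))))) (.nd (nat_lit 8) (.nd (nat_lit 9) 
(.lf (nat_lit 506008) (.g (nat_lit 4120) (.e (nat_lit 164327) (nat_lit 230) (.e (nat_lit 163903) (nat_lit 12) (.e (nat_lit 426481) (nat_lit 27) (.e (nat_lit 336389) (nat_lit 27) (.e (nat_lit 426308) (nat_lit 12) (.e (nat_lit 475177) (nat_lit 24) (.e (nat_lit 516115) (nat_lit 1) .nil))))))) (.g (nat_lit 1) (.e (nat_lit 182962) (nat_lit 0) .nil) .nil))) 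
(.lf (nat_lit 506520) (.g (nat_lit 1083) (.e (nat_lit 164331) (nat_lit 230) (.e (nat_lit 163873) (nat_lit 3) (.e (nat_lit 204813) (nat_lit 9) (.e (nat_lit 426200) (nat_lit 9) .nil)))) (.g (nat_lit 0) (.e (nat_lit 184295) (nat_lit 0) .nil) .nil)))) (.nd (nat_lit 9) 
(.lf (nat_lit 506264) (.g (nat_lit 3825) (.e (nat_lit 164329) (nat_lit 230) (.e (nat_lit 163941) (nat_lit 19) (.e (nat_lit 483341) (nat_lit 9) (.e (nat_lit 426204) (nat_lit 9) .nil)))) (.g (nat_lit 0) (.e (nat_lit 183722) (nat_lit 0) .nil) .nil))) 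
(.lf (nat_lit 506776) (.g (nat_lit 3751) (.e (nat_lit 164332) (nat_lit 230) (.e (nat_lit 163902) (nat_lit 12) (.e (nat_lit 426566) (nat_lit 34) (.e (nat_lit 393296) (nat_lit 26) (.e (nat_lit 475179) (nat_lit 24) (.e (nat_lit 516120) (nat_lit 1) .nil)))))) (.g (nat_lit 1) (.e (nat_lit 184852) (nat_lit 0) .nil) .nil)))))) (.nd (nat_lit 7) (.nd (nat_lit 8) (.nd (nat_lit 9) 
(.lf (nat_lit 505944) (.g (nat_lit 1102) (.e (nat_lit 164327) (nat_lit 230) (.e (nat_lit 163875) (nat_lit 3) (.e (nat_lit 204813) (nat_lit 9) (.e (nat_lit 426139) (nat_lit 3) .nil)))) (.g (nat_lit 0) (.e (nat_lit 182828) (nat_lit 0) .nil) .nil))) 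
(.lf (nat_lit 506456) (.g (nat_lit 1952) (.e (nat_lit 164330) (nat_lit 230) (.e (nat_lit 163905) (nat_lit 12) (.e (nat_lit 426568) (nat_lit 34) (.e (nat_lit 393292) (nat_lit 26) (.e (nat_lit 475177) (nat_lit 24) .nil))))) (.g (nat_lit 0) (.e (nat_lit 184043) (nat_lit 0) .nil) .nil)))) (.nd (nat_lit 9) 
(.lf (nat_lit 506200) (.g (nat_lit 881) (.e (nat_lit 164329) (nat_lit 230) (.e (nat_lit 163902) (nat_lit 12) (.e (nat_lit 426482) (nat_lit 27) .nil))) (.g (nat_lit 0) (.e (nat_lit 183446) (nat_lit 0) .nil) .nil))) 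
(.lf (nat_lit 506712) (.g (nat_lit 2242) (.e (nat_lit 164332) (nat_lit 230) (.e (nat_lit 163880) (nat_lit 4) (.e (nat_lit 213031) (nat_lit 11) (.e (nat_lit 24655) (nat_lit 13) (.e (nat_lit 393281) (nat_lit 23) (.e (nat_lit 426099) (nat_lit 1) .nil)))))) (.g (nat_lit 1) (.e (nat_lit 184717) (nat_lit 0) .nil) .nil))))) (.nd (nat_lit 8) (.nd (nat_lit 9) 
(.lf (nat_lit 506072) (.g (nat_lit 2011) (.e (nat_lit 164328) (nat_lit 230) (.e (nat_lit 163902) (nat_lit 12) (.e (nat_lit 426566) (nat_lit 34) (.e (nat_lit 393296) (nat_lit 26) .nil)))) (.g (nat_lit 0) (.e (nat_lit 183189) (nat_lit 0) .nil) .nil))) 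
(.lf (nat_lit 506584) (.g (nat_lit 978) (.e (nat_lit 164332) (nat_lit 230) (.e (nat_lit 163867) (nat_lit 2) (.e (nat_lit 196624) (nat_lit 9) (.e (nat_lit 411) (nat_lit 32) .nil)))) (.g (nat_lit 0) (.e (nat_lit 184486) (nat_lit 0) .nil) .nil)))) (.nd (nat_lit 9) 
(.lf (nat_lit 506328) (.g (nat_lit 1416) (.e (nat_lit 164330) (nat_lit 230) (.e (nat_lit 163869) (nat_lit 2) (.e (nat_lit 196656) (nat_lit 11) (.e (nat_lit 16466) (nat_lit 13) .nil)))) (.g (nat_lit 0) (.e (nat_lit 183815) (nat_lit 0) .nil) .nil))) 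
(.lf (nat_lit 506840) (.g (nat_lit 933) (.e (nat_lit 164332) (nat_lit 230) (.e (nat_lit 163905) (nat_lit 12) (.e (nat_lit 426568) (nat_lit 34) (.e (nat_lit 393290) (nat_lit 26) .nil)))) (.g (nat_lit 0) (.e (nat_lit 185010) (nat_lit 0) .nil) .nil))))))) (.nd (nat_lit 6) (.nd (nat_lit 7) (.nd (nat_lit 8) (.nd (nat_lit 9) 
(.lf (nat_lit 505912) (.g (nat_lit 3178) (.e (nat_lit 164327) (nat_lit 230) (.e (nat_lit 163873) (nat_lit 3) (.e (nat_lit 204813) (nat_lit 9) (.e (nat_lit 426186) (nat_lit 9) .nil)))) (.g (nat_lit 0) (.e (nat_lit 182741) (nat_lit 0) .nil) .nil))) 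
(.lf (nat_lit 506424) (.g (nat_lit 2845) (.e (nat_lit 164330) (nat_lit 230) (.e (nat_lit 163902) (nat_lit 12) (.e (nat_lit 426472) (nat_lit 25) (.e (nat_lit 319534) (nat_lit 16) (.e (nat_lit 286756) (nat_lit 10) (.e (nat_lit 344097) (nat_lit 18) (.e (nat_lit 7280) (nat_lit 386) (.e (nat_lit 163864) (nat_lit 1) .nil)))))))) (.g (nat_lit 1) (.e (nat_lit 183974) (nat_lit 0) .nil) .nil)))) 
(.nd (nat_lit 9) 
(.lf (nat_lit 506168) (.g (nat_lit 2579) (.e (nat_lit 164329) (nat_lit 230) (.e (nat_lit 163902) (nat_lit 12) (.e (nat_lit 426422) (nat_lit 16) (.e (nat_lit 57687) (nat_lit 156) (.e (nat_lit 163933) (nat_lit 17) (.e (nat_lit 466972) (nat_lit 21) (.e (nat_lit 164332) (nat_lit 230) (.e (nat_lit 163860) (nat_lit 1) .nil)))))))) (.g (nat_lit 1) (.e (nat_lit 183407) (nat_lit 0) .nil) .nil))) 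
(.lf (nat_lit 506680) (.g (nat_lit 2400) (.e (nat_lit 164332) (nat_lit 230) (.e (nat_lit 163873) (nat_lit 3) (.e (nat_lit 204813) (nat_lit 9) (.e (nat_lit 426199) (nat_lit 9) .nil)))) (.g (nat_lit 0) (.e (nat_lit 184652) (nat_lit 0) .nil) .nil))))) (.nd (nat_lit 8) (.nd (nat_lit 9) 
(.lf (nat_lit 506040) (.g (nat_lit 2504) (.e (nat_lit 164327) (nat_lit 230) (.e (nat_lit 163907) (nat_lit 12) (.e (nat_lit 426131) (nat_lit 3) (.e (nat_lit 204852) (nat_lit 26) (.e (nat_lit 336310) (nat_lit 16) .nil))))) (.g (nat_lit 0) (.e (nat_lit 183001) (nat_lit 0) .nil) .nil))) 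
(.lf (nat_lit 506552) (.g (nat_lit 1747) (.e (nat_lit 164331) (nat_lit 230) (.e (nat_lit 163902) (nat_lit 12) (.e (nat_lit 426568) (nat_lit 34) (.e (nat_lit 393294) (nat_lit 26) .nil)))) (.g (nat_lit 0) (.e (nat_lit 184347) (nat_lit 0) .nil) .nil)))) (.nd (nat_lit 9) 
(.lf (nat_lit 506296) (.g (nat_lit 3692) (.e (nat_lit 164330) (nat_lit 230) (.e (nat_lit 163867) (nat_lit 2) (.e (nat_lit 196654) (nat_lit 11) (.e (nat_lit 16466) (nat_lit 13) (.e (nat_lit 483337) (nat_lit 9) (.e (nat_lit 426108) (nat_lit 1) .nil)))))) (.g (nat_lit 1) (.e (nat_lit 183770) (nat_lit 0) .nil) .nil))) 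
(.lf (nat_lit 506808) (.g (nat_lit 3857) (.e (nat_lit 164332) (nat_lit 230) (.e (nat_lit 163905) (nat_lit 12) (.e (nat_lit 426422) (nat_lit 16) (.e (nat_lit 57688) (nat_lit 156) (.e (nat_lit 163933) (nat_lit 17) (.e (nat_lit 466972) (nat_lit 21) (.e (nat_lit 164332) (nat_lit 230) (.e (nat_lit 163862) (nat_lit 1) .nil)))))))) (.g (nat_lit 1) (.e (nat_lit 184931) (nat_lit 0) .nil) .nil)))))) 
(.nd (nat_lit 7) (.nd (nat_lit 8) (.nd (nat_lit 9) 
(.lf (nat_lit 505976) (.g (nat_lit 2709) (.e (nat_lit 164327) (nat_lit 230) (.e (nat_lit 163881) (nat_lit 4) (.e (nat_lit 213030) (nat_lit 11) (.e (nat_lit 24660) (nat_lit 13) (.e (nat_lit 393271) (nat_lit 23) (.e (nat_lit 426112) (nat_lit 1) .nil)))))) (.g (nat_lit 1) (.e (nat_lit 182890) (nat_lit 0) .nil) .nil))) 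
(.lf (nat_lit 506488) (.g (nat_lit 1625) (.e (nat_lit 164331) (nat_lit 230) (.e (nat_lit 163867) (nat_lit 2) (.e (nat_lit 196624) (nat_lit 9) (.e (nat_lit 433) (nat_lit 32) .nil)))) (.g (nat_lit 0) (.e (nat_lit 184255) (nat_lit 0) .nil) .nil)))) (.nd (nat_lit 9) 
(.lf (nat_lit 506232) (.g (nat_lit 3090) (.e (nat_lit 164329) (nat_lit 230) (.e (nat_lit 163902) (nat_lit 12) (.e (nat_lit 426568) (nat_lit 34) (.e (nat_lit 393291) (nat_lit 26) (.e (nat_lit 475178) (nat_lit 24) (.e (nat_lit 516117) (nat_lit 1) .nil)))))) (.g (nat_lit 1) (.e (nat_lit 183492) (nat_lit 0) .nil) .nil))) 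
(.lf (nat_lit 506744) (.g (nat_lit 2151) (.e (nat_lit 164332) (nat_lit 230) (.e (nat_lit 163902) (nat_lit 12) (.e (nat_lit 426438) (nat_lit 18) (.e (nat_lit 98373) (nat_lit 29) (.e (nat_lit 458496) (nat_lit 0) .nil))))) (.g (nat_lit 0) (.e (nat_lit 184800) (nat_lit 0) .nil) .nil))))) (.nd (nat_lit 8) (.nd (nat_lit 9) 
(.lf (nat_lit 506104) (.g (nat_lit 1745) (.e (nat_lit 164329) (nat_lit 230) (.e (nat_lit 163867) (nat_lit 2) (.e (nat_lit 196656) (nat_lit 11) (.e (nat_lit 16415) (nat_lit 3) .nil)))) (.g (nat_lit 0) (.e (nat_lit 183303) (nat_lit 0) .nil) .nil))) 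
(.lf (nat_lit 506616) (.g (nat_lit 2294) (.e (nat_lit 164332) (nat_lit 230) (.e (nat_lit 163869) (nat_lit 2) (.e (nat_lit 196618) (nat_lit 9) (.e (nat_lit 457) (nat_lit 34) (.e (nat_lit 450304) (nat_lit 18) (.e (nat_lit 393254) (nat_lit 18) .nil)))))) (.g (nat_lit 1) (.e (nat_lit 184556) (nat_lit 0) .nil) .nil)))) (.nd (nat_lit 9) 
(.lf (nat_lit 506360) (.g (nat_lit 3109) (.e (nat_lit 164330) (nat_lit 230) (.e (nat_lit 163873) (nat_lit 3) (.e (nat_lit 204813) (nat_lit 9) (.e (nat_lit 426199) (nat_lit 9) (.e (nat_lit 426481) (nat_lit 27) .nil))))) (.g (nat_lit 0) (.e (nat_lit 183866) (nat_lit 0) .nil) .nil))) 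
(.lf (nat_lit 506872) (.g (nat_lit 2057) (.e (nat_lit 164332) (nat_lit 230) (.e (nat_lit 163943) (nat_lit 19) (.e (nat_lit 483341) (nat_lit 9) (.e (nat_lit 426198) (nat_lit 9) (.e (nat_lit 426375) (nat_lit 15) .nil))))) (.g (nat_lit 0) (.e (nat_lit 185200) (nat_lit 0) .nil) .nil)))))))))) 
(.nd (nat_lit 3) (.nd (nat_lit 4) (.nd (nat_lit 5) (.nd (nat_lit 6) (.nd (nat_lit 7) 
(.nd (nat_lit 8) (.nd (nat_lit 9) 
(.lf (nat_lit 505860) (.g (nat_lit 1859) (.e (nat_lit 164327) (nat_lit 230) (.e (nat_lit 163871) (nat_lit 2) (.e (nat_lit 196654) (nat_lit 11) (.e (nat_lit 16466) (nat_lit 13) (.e (nat_lit 483340) (nat_lit 9) .nil))))) (.g (nat_lit 0) (.e (nat_lit 182632) (nat_lit 0) .nil) .nil))) 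
(.lf (nat_lit 506372) (.g (nat_lit 2783) (.e (nat_lit 164330) (nat_lit 230) (.e (nat_lit 163874) (nat_lit 3) (.e (nat_lit 204808) (nat_lit 9) (.e (nat_lit 426190) (nat_lit 9) (.e (nat_lit 426566) (nat_lit 34) (.e (nat_lit 393252) (nat_lit 18) .nil)))))) (.g (nat_lit 1) (.e (nat_lit 183900) (nat_lit 0) .nil) .nil)))) (.nd (nat_lit 9) 
(.lf (nat_lit 506116) (.g (nat_lit 2533) (.e (nat_lit 164329) (nat_lit 230) (.e (nat_lit 163869) (nat_lit 2) (.e (nat_lit 196654) (nat_lit 11) (.e (nat_lit 16433) (nat_lit 9) (.e (nat_lit 426566) (nat_lit 34) .nil))))) (.g (nat_lit 0) (.e (nat_lit 183318) (nat_lit 0) .nil) .nil))) 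
(.lf (nat_lit 506628) (.g (nat_lit 4401) (.e (nat_lit 164332) (nat_lit 230) (.e (nat_lit 163869) (nat_lit 2) (.e (nat_lit 196654) (nat_lit 11) (.e (nat_lit 16416) (nat_lit 3) (.e (nat_lit 204838) (nat_lit 20) (.e (nat_lit 114718) (nat_lit 23) (.e (nat_lit 98334) (nat_lit 18) .nil))))))) (.g (nat_lit 1) (.e (nat_lit 184574) (nat_lit 0) .nil) .nil))))) (.nd (nat_lit 8) (.nd (nat_lit 9) 
(.lf (nat_lit 505988) (.g (nat_lit 3183) (.e (nat_lit 164327) (nat_lit 230) (.e (nat_lit 163882) (nat_lit 4) (.e (nat_lit 213031) (nat_lit 11) (.e (nat_lit 24657) (nat_lit 13) (.e (nat_lit 393271) (nat_lit 23) (.e (nat_lit 426112) (nat_lit 1) .nil)))))) (.g (nat_lit 1) (.e (nat_lit 182905) (nat_lit 0) .nil) .nil))) 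
(.lf (nat_lit 506500) (.g (nat_lit 2239) (.e (nat_lit 164331) (nat_lit 230) (.e (nat_lit 163867) (nat_lit 2) (.e (nat_lit 196656) (nat_lit 11) (.e (nat_lit 16463) (nat_lit 13) (.e (nat_lit 483341) (nat_lit 9) .nil))))) (.g (nat_lit 0) (.e (nat_lit 184269) (nat_lit 0) .nil) .nil)))) (.nd (nat_lit 9) 
(.lf (nat_lit 506244) (.g (nat_lit 646) (.e (nat_lit 164329) (nat_lit 230) (.e (nat_lit 163941) (nat_lit 19) (.e (nat_lit 483333) (nat_lit 0) .nil))) (.g (nat_lit 0) (.e (nat_lit 183691) (nat_lit 0) .nil) .nil))) 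
(.lf (nat_lit 506756) (.g (nat_lit 3581) (.e (nat_lit 164332) (nat_lit 230) (.e (nat_lit 163902) (nat_lit 12) (.e (nat_lit 426481) (nat_lit 27) (.e (nat_lit 336389) (nat_lit 27) (.e (nat_lit 426308) (nat_lit 12) (.e (nat_lit 475177) (nat_lit 24) (.e (nat_lit 516118) (nat_lit 1) .nil))))))) (.g (nat_lit 1) (.e (nat_lit 184816) (nat_lit 0) .nil) .nil)))))) 
(.nd (nat_lit 7) (.nd (nat_lit 8) (.nd (nat_lit 9) 
(.lf (nat_lit 505924) (.g (nat_lit 4108) (.e (nat_lit 164327) (nat_lit 230) (.e (nat_lit 163873) (nat_lit 3) (.e (nat_lit 204813) (nat_lit 9) (.e (nat_lit 426213) (nat_lit 9) .nil)))) (.g (nat_lit 0) (.e (nat_lit 182759) (nat_lit 0) .nil) .nil))) 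
(.lf (nat_lit 506436) (.g (nat_lit 2149) (.e (nat_lit 164330) (nat_lit 230) (.e (nat_lit 163902) (nat_lit 12) (.e (nat_lit 426568) (nat_lit 34) (.e (nat_lit 393290) (nat_lit 26) (.e (nat_lit 475177) (nat_lit 24) .nil))))) (.g (nat_lit 0) (.e (nat_lit 183997) (nat_lit 0) .nil) .nil)))) (.nd (nat_lit 9) 
(.lf (nat_lit 506180) (.g (nat_lit 1927) (.e (nat_lit 164329) (nat_lit 230) (.e (nat_lit 163902) (nat_lit 12) (.e (nat_lit 426428) (nat_lit 17) (.e (nat_lit 90172) (nat_lit 14) (.e (nat_lit 180291) (nat_lit 48) .nil))))) (.g (nat_lit 0) (.e (nat_lit 183419) (nat_lit 0) .nil) .nil))) 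
(.lf (nat_lit 506692) (.g (nat_lit 893) (.e (nat_lit 164332) (nat_lit 230) (.e (nat_lit 163874) (nat_lit 3) (.e (nat_lit 204803) (nat_lit 0) .nil))) (.g (nat_lit 0) (.e (nat_lit 184680) (nat_lit 0) .nil) .nil))))) (.nd (nat_lit 8) (.nd (nat_lit 9) 
(.lf (nat_lit 506052) (.g (nat_lit 3173) (.e (nat_lit 164327) (nat_lit 230) (.e (nat_lit 163941) (nat_lit 19) (.e (nat_lit 483341) (nat_lit 9) (.e (nat_lit 426204) (nat_lit 9) .nil)))) (.g (nat_lit 0) (.e (nat_lit 183145) (nat_lit 0) .nil) .nil))) 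
(.lf (nat_lit 506564) (.g (nat_lit 3916) (.e (nat_lit 164331) (nat_lit 230) (.e (nat_lit 163941) (nat_lit 19) (.e (nat_lit 483341) (nat_lit 9) (.e (nat_lit 426204) (nat_lit 9) .nil)))) (.g (nat_lit 0) (.e (nat_lit 184441) (nat_lit 0) .nil) .nil)))) (.nd (nat_lit 9) 
(.lf (nat_lit 506308) (.g (nat_lit 664) (.e (nat_lit 164330) (nat_lit 230) (.e (nat_lit 163869) (nat_lit 2) (.e (nat_lit 196624) (nat_lit 9) .nil))) (.g (nat_lit 0) (.e (nat_lit 183788) (nat_lit 0) .nil) .nil))) 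
(.lf (nat_lit 506820) (.g (nat_lit 880) (.e (nat_lit 164332) (nat_lit 230) (.e (nat_lit 163905) (nat_lit 12) (.e (nat_lit 426489) (nat_lit 27) .nil))) (.g (nat_lit 0) (.e (nat_lit 184969) (nat_lit 0) .nil) .nil))))))) (.nd (nat_lit 6) (.nd (nat_lit 7) (.nd (nat_lit 8) (.nd (nat_lit 9) 
(.lf (nat_lit 505892) (.g (nat_lit 2044) (.e (nat_lit 164327) (nat_lit 230) (.e (nat_lit 163871) (nat_lit 2) (.e (nat_lit 196656) (nat_lit 11) (.e (nat_lit 16466) (nat_lit 13) (.e (nat_lit 483341) (nat_lit 9) .nil))))) (.g (nat_lit 0) (.e (nat_lit 182682) (nat_lit 0) .nil) .nil))) 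
(.lf (nat_lit 506404) (.g (nat_lit 2795) (.e (nat_lit 164330) (nat_lit 230) (.e (nat_lit 163902) (nat_lit 12) (.e (nat_lit 426438) (nat_lit 18) (.e (nat_lit 98373) (nat_lit 29) (.e (nat_lit 450560) (nat_lit 0) (.e (nat_lit 6839) (nat_lit 369) (.e (nat_lit 163864) (nat_lit 1) .nil))))))) (.g (nat_lit 1) (.e (nat_lit 183954) (nat_lit 0) .nil) .nil)))) (.nd (nat_lit 9) 
(.lf (nat_lit 506148) (.g (nat_lit 2027) (.e (nat_lit 164329) (nat_lit 230) (.e (nat_lit 163873) (nat_lit 3) (.e (nat_lit 204813) (nat_lit 9) (.e (nat_lit 426200) (nat_lit 9) (.e (nat_lit 426481) (nat_lit 27) .nil))))) (.g (nat_lit 0) (.e (nat_lit 183357) (nat_lit 0) .nil) .nil))) 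
(.lf (nat_lit 506660) (.g (nat_lit 3633) (.e (nat_lit 164332) (nat_lit 230) (.e (nat_lit 163869) (nat_lit 2) (.e (nat_lit 196656) (nat_lit 11) (.e (nat_lit 16466) (nat_lit 13) (.e (nat_lit 483341) (nat_lit 9) (.e (nat_lit 426105) (nat_lit 1) .nil)))))) (.g (nat_lit 1) (.e (nat_lit 184615) (nat_lit 0) .nil) .nil))))) (.nd (nat_lit 8) (.nd (nat_lit 9) 
(.lf (nat_lit 506020) (.g (nat_lit 3615) (.e (nat_lit 164327) (nat_lit 230) (.e (nat_lit 163903) (nat_lit 12) (.e (nat_lit 426566) (nat_lit 34) (.e (nat_lit 393291) (nat_lit 26) (.e (nat_lit 475177) (nat_lit 24) (.e (nat_lit 516118) (nat_lit 1) .nil)))))) (.g (nat_lit 1) (.e (nat_lit 182974) (nat_lit 0) .nil) .nil))) 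
(.lf (nat_lit 506532) (.g (nat_lit 1656) (.e (nat_lit 164331) (nat_lit 230) (.e (nat_lit 163885) (nat_lit 5) (.e (nat_lit 221194) (nat_lit 11) (.e (nat_lit 336087) (nat_lit 9) (.e (nat_lit 336444) (nat_lit 32) .nil))))) (.g (nat_lit 0) (.e (nat_lit 184322) (nat_lit 0) .nil) .nil)))) (.nd (nat_lit 9) 
(.lf (nat_lit 506276) (.g (nat_lit 2141) (.e (nat_lit 164329) (nat_lit 230) (.e (nat_lit 163941) (nat_lit 19) (.e (nat_lit 483341) (nat_lit 9) (.e (nat_lit 433920) (nat_lit 12) .nil)))) (.g (nat_lit 0) (.e (nat_lit 183738) (nat_lit 0) .nil) .nil))) 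
(.lf (nat_lit 506788) (.g (nat_lit 1450) (.e (nat_lit 164332) (nat_lit 230) (.e (nat_lit 163902) (nat_lit 12) (.e (nat_lit 426568) (nat_lit 34) (.e (nat_lit 393290) (nat_lit 26) .nil)))) (.g (nat_lit 0) (.e (nat_lit 184866) (nat_lit 0) .nil) .nil)))))) (.nd (nat_lit 7) (.nd (nat_lit 8) (.nd (nat_lit 9) 
(.lf (nat_lit 505956) (.g (nat_lit 2063) (.e (nat_lit 164327) (nat_lit 230) (.e (nat_lit 163875) (nat_lit 3) (.e (nat_lit 204830) (nat_lit 18) (.e (nat_lit 57904) (nat_lit 278) .nil)))) (.g (nat_lit 0) (.e (nat_lit 182868) (nat_lit 0) .nil) .nil))) 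
(.lf (nat_lit 506468) (.g (nat_lit 1803) (.e (nat_lit 164330) (nat_lit 230) (.e (nat_lit 163941) (nat_lit 19) (.e (nat_lit 483341) (nat_lit 9) (.e (nat_lit 426197) (nat_lit 9) (.e (nat_lit 433920) (nat_lit 18) .nil))))) (.g (nat_lit 0) (.e (nat_lit 184225) (nat_lit 0) .nil) .nil)))) (.nd (nat_lit 9) 
(.lf (nat_lit 506212) (.g (nat_lit 2392) (.e (nat_lit 164329) (nat_lit 230) (.e (nat_lit 163902) (nat_lit 12) (.e (nat_lit 426568) (nat_lit 34) (.e (nat_lit 393233) (nat_lit 17) (.e (nat_lit 7376) (nat_lit 389) .nil))))) (.g (nat_lit 0) (.e (nat_lit 183468) (nat_lit 0) .nil) .nil))) 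
(.lf (nat_lit 506724) (.g (nat_lit 2391) (.e (nat_lit 164332) (nat_lit 230) (.e (nat_lit 163902) (nat_lit 12) (.e (nat_lit 426422) (nat_lit 16) (.e (nat_lit 57688) (nat_lit 156) (.e (nat_lit 163932) (nat_lit 17) (.e (nat_lit 466972) (nat_lit 21) (.e (nat_lit 164332) (nat_lit 230) (.e (nat_lit 163862) (nat_lit 1) .nil)))))))) (.g (nat_lit 1) (.e (nat_lit 184778) (nat_lit 0) .nil) .nil))))) 
(.nd (nat_lit 8) (.nd (nat_lit 9) 
(.lf (nat_lit 506084) (.g (nat_lit 602) (.e (nat_lit 164329) (nat_lit 230) (.e (nat_lit 163867) (nat_lit 2) (.e (nat_lit 196618) (nat_lit 9) .nil))) (.g (nat_lit 0) (.e (nat_lit 183277) (nat_lit 0) .nil) .nil))) 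
(.lf (nat_lit 506596) (.g (nat_lit 3623) (.e (nat_lit 164332) (nat_lit 230) (.e (nat_lit 163867) (nat_lit 2) (.e (nat_lit 196654) (nat_lit 11) (.e (nat_lit 16433) (nat_lit 9) (.e (nat_lit 426568) (nat_lit 34) (.e (nat_lit 393253) (nat_lit 18) .nil)))))) (.g (nat_lit 1) (.e (nat_lit 184508) (nat_lit 0) .nil) .nil)))) (.nd (nat_lit 9) 
(.lf (nat_lit 506340) (.g (nat_lit 4810) (.e (nat_lit 164330) (nat_lit 230) (.e (nat_lit 163873) (nat_lit 3) (.e (nat_lit 204813) (nat_lit 9) (.e (nat_lit 426011) (nat_lit 0) .nil)))) (.g (nat_lit 0) (.e (nat_lit 183832) (nat_lit 0) .nil) .nil))) 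
(.lf (nat_lit 506852) (.g (nat_lit 1759) (.e (nat_lit 164332) (nat_lit 230) (.e (nat_lit 163941) (nat_lit 19) (.e (nat_lit 483341) (nat_lit 9) (.e (nat_lit 426198) (nat_lit 9) (.e (nat_lit 426364) (nat_lit 15) .nil))))) (.g (nat_lit 0) (.e (nat_lit 185159) (nat_lit 0) .nil) .nil)))))))) (.nd (nat_lit 5) (.nd (nat_lit 6) (.nd (nat_lit 7) (.nd (nat_lit 8) (.nd (nat_lit 9) 
(.lf (nat_lit 505876) (.g (nat_lit 3458) (.e (nat_lit 164327) (nat_lit 230) (.e (nat_lit 163871) (nat_lit 2) (.e (nat_lit 196656) (nat_lit 11) (.e (nat_lit 16436) (nat_lit 9) (.e (nat_lit 426481) (nat_lit 27) (.e (nat_lit 336389) (nat_lit 27) (.e (nat_lit 426098) (nat_lit 1) .nil))))))) (.g (nat_lit 1) (.e (nat_lit 182660) (nat_lit 0) .nil) .nil))) 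
(.lf (nat_lit 506388) (.g (nat_lit 1330) (.e (nat_lit 164330) (nat_lit 230) (.e (nat_lit 163896) (nat_lit 10) (.e (nat_lit 409602) (nat_lit 0) (.e (nat_lit 5629) (nat_lit 312) .nil)))) (.g (nat_lit 0) (.e (nat_lit 183917) (nat_lit 0) .nil) .nil)))) (.nd (nat_lit 9) 
(.lf (nat_lit 506132) (.g (nat_lit 348) (.e (nat_lit 164329) (nat_lit 230) (.e (nat_lit 163873) (nat_lit 3) (.e (nat_lit 204813) (nat_lit 9) .nil))) (.g (nat_lit 0) (.e (nat_lit 183336) (nat_lit 0) .nil) .nil))) 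
(.lf (nat_lit 506644) (.g (nat_lit 1499) (.e (nat_lit 164332) (nat_lit 230) (.e (nat_lit 163869) (nat_lit 2) (.e (nat_lit 196656) (nat_lit 11) (.e (nat_lit 16388) (nat_lit 0) .nil)))) (.g (nat_lit 0) (.e (nat_lit 184593) (nat_lit 0) .nil) .nil))))) (.nd (nat_lit 8) (.nd (nat_lit 9) 
(.lf (nat_lit 506004) (.g (nat_lit 2163) (.e (nat_lit 164327) (nat_lit 230) (.e (nat_lit 163903) (nat_lit 12) (.e (nat_lit 426479) (nat_lit 27) (.e (nat_lit 336414) (nat_lit 27) (.e (nat_lit 426232) (nat_lit 9) (.e (nat_lit 426435) (nat_lit 18) (.e (nat_lit 98335) (nat_lit 18) .nil))))))) (.g (nat_lit 1) (.e (nat_lit 182957) (nat_lit 0) .nil) .nil))) 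
(.lf (nat_lit 506516) (.g (nat_lit 1216) (.e (nat_lit 164331) (nat_lit 230) (.e (nat_lit 163873) (nat_lit 3) (.e (nat_lit 204813) (nat_lit 9) (.e (nat_lit 426198) (nat_lit 9) .nil)))) (.g (nat_lit 0) (.e (nat_lit 184291) (nat_lit 0) .nil) .nil)))) (.nd (nat_lit 9) 
(.lf (nat_lit 506260) (.g (nat_lit 2882) (.e (nat_lit 164329) (nat_lit 230) (.e (nat_lit 163941) (nat_lit 19) (.e (nat_lit 483341) (nat_lit 9) (.e (nat_lit 426186) (nat_lit 9) .nil)))) (.g (nat_lit 0) (.e (nat_lit 183714) (nat_lit 0) .nil) .nil))) 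
(.lf (nat_lit 506772) (.g (nat_lit 3740) (.e (nat_lit 164332) (nat_lit 230) (.e (nat_lit 163902) (nat_lit 12) (.e (nat_lit 426566) (nat_lit 34) (.e (nat_lit 393294) (nat_lit 26) (.e (nat_lit 475177) (nat_lit 24) (.e (nat_lit 516120) (nat_lit 1) .nil)))))) (.g (nat_lit 1) (.e (nat_lit 184848) (nat_lit 0) .nil) .nil)))))) (.nd (nat_lit 7) (.nd (nat_lit 8) (.nd (nat_lit 9) 
(.lf (nat_lit 505940) (.g (nat_lit 808) (.e (nat_lit 164327) (nat_lit 230) (.e (nat_lit 163875) (nat_lit 3) (.e (nat_lit 204810) (nat_lit 9) .nil))) (.g (nat_lit 0) (.e (nat_lit 182824) (nat_lit 0) .nil) .nil))) 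
(.lf (nat_lit 506452) (.g (nat_lit 1871) (.e (nat_lit 164330) (nat_lit 230) (.e (nat_lit 163905) (nat_lit 12) (.e (nat_lit 426568) (nat_lit 34) (.e (nat_lit 393268) (nat_lit 23) (.e (nat_lit 426438) (nat_lit 18) .nil))))) (.g (nat_lit 0) (.e (nat_lit 184039) (nat_lit 0) .nil) .nil)))) (.nd (nat_lit 9) 
(.lf (nat_lit 506196) (.g (nat_lit 3788) (.e (nat_lit 164329) (nat_lit 230) (.e (nat_lit 163902) (nat_lit 12) (.e (nat_lit 426472) (nat_lit 25) (.e (nat_lit 319534) (nat_lit 16) (.e (nat_lit 286756) (nat_lit 10) (.e (nat_lit 344097) (nat_lit 18) (.e (nat_lit 7280) (nat_lit 386) (.e (nat_lit 163861) (nat_lit 1) .nil)))))))) (.g (nat_lit 1) (.e (nat_lit 183440) (nat_lit 0) .nil) .nil))) 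
(.lf (nat_lit 506708) (.g (nat_lit 3467) (.e (nat_lit 164332) (nat_lit 230) (.e (nat_lit 163880) (nat_lit 4) (.e (nat_lit 213030) (nat_lit 11) (.e (nat_lit 24630) (nat_lit 9) (.e (nat_lit 336443) (nat_lit 32) (.e (nat_lit 466972) (nat_lit 21) .nil)))))) (.g (nat_lit 1) (.e (nat_lit 184713) (nat_lit 0) .nil) .nil))))) (.nd (nat_lit 8) (.nd (nat_lit 9) 
(.lf (nat_lit 506068) (.g (nat_lit 3641) (.e (nat_lit 164328) (nat_lit 230) (.e (nat_lit 163873) (nat_lit 3) (.e (nat_lit 204813) (nat_lit 9) (.e (nat_lit 426199) (nat_lit 9) .nil)))) (.g (nat_lit 0) (.e (nat_lit 183179) (nat_lit 0) .nil) .nil))) 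
(.lf (nat_lit 506580) (.g (nat_lit 553) (.e (nat_lit 164332) (nat_lit 230) (.e (nat_lit 163867) (nat_lit 2) (.e (nat_lit 196617) (nat_lit 9) .nil))) (.g (nat_lit 0) (.e (nat_lit 184482) (nat_lit 0) .nil) .nil)))) (.nd (nat_lit 9) 
(.lf (nat_lit 506324) (.g (nat_lit 1533) (.e (nat_lit 164330) (nat_lit 230) (.e (nat_lit 163869) (nat_lit 2) (.e (nat_lit 196656) (nat_lit 11) (.e (nat_lit 16416) (nat_lit 3) .nil)))) (.g (nat_lit 0) (.e (nat_lit 183808) (nat_lit 0) .nil) .nil))) 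
(.lf (nat_lit 506836) (.g (nat_lit 2627) (.e (nat_lit 164332) (nat_lit 230) (.e (nat_lit 163905) (nat_lit 12) (.e (nat_lit 426567) (nat_lit 34) (.e (nat_lit 393291) (nat_lit 26) (.e (nat_lit 475177) (nat_lit 24) (.e (nat_lit 516118) (nat_lit 1) .nil)))))) (.g (nat_lit 1) (.e (nat_lit 185005) (nat_lit 0) .nil) .nil))))))) (.nd (nat_lit 6) (.nd (nat_lit 7) (.nd (nat_lit 8) (.nd (nat_lit 9) 
(.lf (nat_lit 505908) (.g (nat_lit 3932) (.e (nat_lit 164327) (nat_lit 230) (.e (nat_lit 163873) (nat_lit 3) (.e (nat_lit 204813) (nat_lit 9) (.e (nat_lit 426137) (nat_lit 3) .nil)))) (.g (nat_lit 0) (.e (nat_lit 182728) (nat_lit 0) .nil) .nil))) 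
(.lf (nat_lit 506420) (.g (nat_lit 4100) (.e (nat_lit 164330) (nat_lit 230) (.e (nat_lit 163902) (nat_lit 12) (.e (nat_lit 426472) (nat_lit 25) (.e (nat_lit 319534) (nat_lit 16) (.e (nat_lit 286749) (nat_lit 9) (.e (nat_lit 335997) (nat_lit 1) (.e (nat_lit 57691) (nat_lit 156) (.e (nat_lit 163864) (nat_lit 1) .nil)))))))) (.g (nat_lit 1) (.e (nat_lit 183970) (nat_lit 0) .nil) .nil)))) 
(.nd (nat_lit 9) 
(.lf (nat_lit 506164) (.g (nat_lit 1520) (.e (nat_lit 164329) (nat_lit 230) (.e (nat_lit 163885) (nat_lit 5) (.e (nat_lit 221194) (nat_lit 11) (.e (nat_lit 336087) (nat_lit 9) .nil)))) (.g (nat_lit 0) (.e (nat_lit 183387) (nat_lit 0) .nil) .nil))) 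
(.lf (nat_lit 506676) (.g (nat_lit 2656) (.e (nat_lit 164332) (nat_lit 230) (.e (nat_lit 163873) (nat_lit 3) (.e (nat_lit 204813) (nat_lit 9) (.e (nat_lit 426187) (nat_lit 9) .nil)))) (.g (nat_lit 0) (.e (nat_lit 184647) (nat_lit 0) .nil) .nil))))) (.nd (nat_lit 8) (.nd (nat_lit 9) 
(.lf (nat_lit 506036) (.g (nat_lit 4126) (.e (nat_lit 164327) (nat_lit 230) (.e (nat_lit 163903) (nat_lit 12) (.e (nat_lit 426568) (nat_lit 34) (.e (nat_lit 393294) (nat_lit 26) (.e (nat_lit 475177) (nat_lit 24) (.e (nat_lit 516119) (nat_lit 1) .nil)))))) (.g (nat_lit 1) (.e (nat_lit 182991) (nat_lit 0) .nil) .nil))) 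
(.lf (nat_lit 506548) (.g (nat_lit 1712) (.e (nat_lit 164331) (nat_lit 230) (.e (nat_lit 163902) (nat_lit 12) (.e (nat_lit 426568) (nat_lit 34) (.e (nat_lit 393291) (nat_lit 26) .nil)))) (.g (nat_lit 0) (.e (nat_lit 184343) (nat_lit 0) .nil) .nil)))) (.nd (nat_lit 9) 
(.lf (nat_lit 506292) (.g (nat_lit 1572) (.e (nat_lit 164330) (nat_lit 230) (.e (nat_lit 163867) (nat_lit 2) (.e (nat_lit 196624) (nat_lit 9) (.e (nat_lit 433) (nat_lit 32) .nil)))) (.g (nat_lit 0) (.e (nat_lit 183762) (nat_lit 0) .nil) .nil))) 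
(.lf (nat_lit 506804) (.g (nat_lit 2901) (.e (nat_lit 164332) (nat_lit 230) (.e (nat_lit 163905) (nat_lit 12) (.e (nat_lit 426422) (nat_lit 16) (.e (nat_lit 57687) (nat_lit 156) (.e (nat_lit 163933) (nat_lit 17) (.e (nat_lit 466972) (nat_lit 21) (.e (nat_lit 164332) (nat_lit 230) (.e (nat_lit 163860) (nat_lit 1) .nil)))))))) (.g (nat_lit 1) (.e (nat_lit 184927) (nat_lit 0) .nil) .nil)))))) 
(.nd (nat_lit 7) (.nd (nat_lit 8) (.nd (nat_lit 9) 
(.lf (nat_lit 505972) (.g (nat_lit 3057) (.e (nat_lit 164327) (nat_lit 230) (.e (nat_lit 163879) (nat_lit 4) (.e (nat_lit 213032) (nat_lit 11) (.e (nat_lit 24627) (nat_lit 9) (.e (nat_lit 336443) (nat_lit 32) (.e (nat_lit 466969) (nat_lit 21) .nil)))))) (.g (nat_lit 1) (.e (nat_lit 182885) (nat_lit 0) .nil) .nil))) 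
(.lf (nat_lit 506484) (.g (nat_lit 2311) (.e (nat_lit 164330) (nat_lit 230) (.e (nat_lit 171776) (nat_lit 66) (.e (nat_lit 114714) (nat_lit 22) (.e (nat_lit 90185) (nat_lit 17) (.e (nat_lit 237582) (nat_lit 1) (.e (nat_lit 164332) (nat_lit 230) (.e (nat_lit 163884) (nat_lit 5) (.e (nat_lit 221208) (nat_lit 21) .nil)))))))) (.g (nat_lit 1) (.e (nat_lit 184250) (nat_lit 0) .nil) .nil)))) 
(.nd (nat_lit 9) 
(.lf (nat_lit 506228) (.g (nat_lit 2470) (.e (nat_lit 164329) (nat_lit 230) (.e (nat_lit 163902) (nat_lit 12) (.e (nat_lit 426568) (nat_lit 34) (.e (nat_lit 393291) (nat_lit 26) (.e (nat_lit 475175) (nat_lit 24) (.e (nat_lit 516116) (nat_lit 1) .nil)))))) (.g (nat_lit 1) (.e (nat_lit 183488) (nat_lit 0) .nil) .nil))) 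
(.lf (nat_lit 506740) (.g (nat_lit 4209) (.e (nat_lit 164332) (nat_lit 230) (.e (nat_lit 163902) (nat_lit 12) (.e (nat_lit 426438) (nat_lit 18) (.e (nat_lit 98373) (nat_lit 29) (.e (nat_lit 450563) (nat_lit 0) (.e (nat_lit 6841) (nat_lit 369) (.e (nat_lit 163860) (nat_lit 1) .nil))))))) (.g (nat_lit 1) (.e (nat_lit 184796) (nat_lit 0) .nil) .nil))))) (.nd (nat_lit 8) (.nd (nat_lit 9) 
(.lf (nat_lit 506100) (.g (nat_lit 2980) (.e (nat_lit 164329) (nat_lit 230) (.e (nat_lit 163867) (nat_lit 2) (.e (nat_lit 196654) (nat_lit 11) (.e (nat_lit 16466) (nat_lit 13) (.e (nat_lit 483341) (nat_lit 9) (.e (nat_lit 426106) (nat_lit 1) .nil)))))) (.g (nat_lit 1) (.e (nat_lit 183298) (nat_lit 0) .nil) .nil))) 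
(.lf (nat_lit 506612) (.g (nat_lit 4230) (.e (nat_lit 164332) (nat_lit 230) (.e (nat_lit 163867) (nat_lit 2) (.e (nat_lit 196656) (nat_lit 11) (.e (nat_lit 16465) (nat_lit 13) (.e (nat_lit 483341) (nat_lit 9) (.e (nat_lit 426108) (nat_lit 1) .nil)))))) (.g (nat_lit 1) (.e (nat_lit 184551) (nat_lit 0) .nil) .nil)))) (.nd (nat_lit 9) 
(.lf (nat_lit 506356) (.g (nat_lit 2020) (.e (nat_lit 164330) (nat_lit 230) (.e (nat_lit 163873) (nat_lit 3) (.e (nat_lit 204813) (nat_lit 9) (.e (nat_lit 426198) (nat_lit 9) (.e (nat_lit 426480) (nat_lit 27) .nil))))) (.g (nat_lit 0) (.e (nat_lit 183861) (nat_lit 0) .nil) .nil))) 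
(.lf (nat_lit 506868) (.g (nat_lit 1388) (.e (nat_lit 164332) (nat_lit 230) (.e (nat_lit 163943) (nat_lit 19) (.e (nat_lit 483337) (nat_lit 9) (.e (nat_lit 426204) (nat_lit 9) .nil)))) (.g (nat_lit 0) (.e (nat_lit 185190) (nat_lit 0) .nil) .nil))))))))) (.nd (nat_lit 4) (.nd (nat_lit 5) (.nd (nat_lit 6) (.nd (nat_lit 7) (.nd (nat_lit 8) (.nd (nat_lit 9) 
(.lf (nat_lit 505868) (.g (nat_lit 4036) (.e (nat_lit 164327) (nat_lit 230) (.e (nat_lit 163871) (nat_lit 2) (.e (nat_lit 196656) (nat_lit 11) (.e (nat_lit 16416) (nat_lit 3) (.e (nat_lit 204837) (nat_lit 20) (.e (nat_lit 114718) (nat_lit 23) (.e (nat_lit 98332) (nat_lit 18) .nil))))))) (.g (nat_lit 1) (.e (nat_lit 182648) (nat_lit 0) .nil) .nil))) 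
(.lf (nat_lit 506380) (.g (nat_lit 407) (.e (nat_lit 164330) (nat_lit 230) (.e (nat_lit 163874) (nat_lit 3) (.e (nat_lit 204813) (nat_lit 9) .nil))) (.g (nat_lit 0) (.e (nat_lit 183909) (nat_lit 0) .nil) .nil)))) (.nd (nat_lit 9) 
(.lf (nat_lit 506124) (.g (nat_lit 2109) (.e (nat_lit 164329) (nat_lit 230) (.e (nat_lit 163873) (nat_lit 3) (.e (nat_lit 204809) (nat_lit 9) (.e (nat_lit 426139) (nat_lit 3) (.e (nat_lit 204834) (nat_lit 19) .nil))))) (.g (nat_lit 0) (.e (nat_lit 183327) (nat_lit 0) .nil) .nil))) 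
(.lf (nat_lit 506636) (.g (nat_lit 2749) (.e (nat_lit 164332) (nat_lit 230) (.e (nat_lit 163869) (nat_lit 2) (.e (nat_lit 196654) (nat_lit 11) (.e (nat_lit 16463) (nat_lit 13) (.e (nat_lit 483340) (nat_lit 9) .nil))))) (.g (nat_lit 0) (.e (nat_lit 184584) (nat_lit 0) .nil) .nil))))) (.nd (nat_lit 8) (.nd (nat_lit 9) 
(.lf (nat_lit 505996) (.g (nat_lit 1544) (.e (nat_lit 164327) (nat_lit 230) (.e (nat_lit 163884) (nat_lit 5) (.e (nat_lit 221194) (nat_lit 11) (.e (nat_lit 336084) (nat_lit 9) .nil)))) (.g (nat_lit 0) (.e (nat_lit 182914) (nat_lit 0) .nil) .nil))) 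
(.lf (nat_lit 506508) (.g (nat_lit 3638) (.e (nat_lit 164331) (nat_lit 230) (.e (nat_lit 163873) (nat_lit 3) (.e (nat_lit 204813) (nat_lit 9) (.e (nat_lit 426139) (nat_lit 3) .nil)))) (.g (nat_lit 0) (.e (nat_lit 184282) (nat_lit 0) .nil) .nil)))) (.nd (nat_lit 9) 
(.lf (nat_lit 506252) (.g (nat_lit 1398) (.e (nat_lit 164329) (nat_lit 230) (.e (nat_lit 163941) (nat_lit 19) (.e (nat_lit 483337) (nat_lit 9) (.e (nat_lit 433920) (nat_lit 12) .nil)))) (.g (nat_lit 0) (.e (nat_lit 183705) (nat_lit 0) .nil) .nil))) 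
(.lf (nat_lit 506764) (.g (nat_lit 2812) (.e (nat_lit 164332) (nat_lit 230) (.e (nat_lit 163902) (nat_lit 12) (.e (nat_lit 426566) (nat_lit 34) (.e (nat_lit 393269) (nat_lit 23) .nil)))) (.g (nat_lit 0) (.e (nat_lit 184840) (nat_lit 0) .nil) .nil)))))) (.nd (nat_lit 7) (.nd (nat_lit 8) (.nd (nat_lit 9) 
(.lf (nat_lit 505932) (.g (nat_lit 537) (.e (nat_lit 164327) (nat_lit 230) (.e (nat_lit 163875) (nat_lit 3) (.e (nat_lit 204809) (nat_lit 9) .nil))) (.g (nat_lit 0) (.e (nat_lit 182805) (nat_lit 0) .nil) .nil))) 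
(.lf (nat_lit 506444) (.g (nat_lit 2154) (.e (nat_lit 164330) (nat_lit 230) (.e (nat_lit 163905) (nat_lit 12) (.e (nat_lit 426506) (nat_lit 27) (.e (nat_lit 336389) (nat_lit 27) (.e (nat_lit 426190) (nat_lit 9) .nil))))) (.g (nat_lit 0) (.e (nat_lit 184031) (nat_lit 0) .nil) .nil)))) (.nd (nat_lit 9) 
(.lf (nat_lit 506188) (.g (nat_lit 3917) (.e (nat_lit 164329) (nat_lit 230) (.e (nat_lit 163902) (nat_lit 12) (.e (nat_lit 426438) (nat_lit 18) (.e (nat_lit 98373) (nat_lit 29) (.e (nat_lit 450563) (nat_lit 0) (.e (nat_lit 6839) (nat_lit 369) (.e (nat_lit 163862) (nat_lit 1) .nil))))))) (.g (nat_lit 1) (.e (nat_lit 183432) (nat_lit 0) .nil) .nil))) 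
(.lf (nat_lit 506700) (.g (nat_lit 1095) (.e (nat_lit 164332) (nat_lit 230) (.e (nat_lit 163874) (nat_lit 3) (.e (nat_lit 204833) (nat_lit 19) (.e (nat_lit 106517) (nat_lit 9) .nil)))) (.g (nat_lit 0) (.e (nat_lit 184704) (nat_lit 0) .nil) .nil))))) (.nd (nat_lit 8) (.nd (nat_lit 9) 
(.lf (nat_lit 506060) (.g (nat_lit 1123) (.e (nat_lit 164328) (nat_lit 230) (.e (nat_lit 163869) (nat_lit 2) (.e (nat_lit 196654) (nat_lit 11) .nil))) (.g (nat_lit 0) (.e (nat_lit 183170) (nat_lit 0) .nil) .nil))) 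
(.lf (nat_lit 506572) (.g (nat_lit 2628) (.e (nat_lit 164331) (nat_lit 230) (.e (nat_lit 163943) (nat_lit 19) (.e (nat_lit 483341) (nat_lit 9) (.e (nat_lit 426198) (nat_lit 9) (.e (nat_lit 426436) (nat_lit 18) .nil))))) (.g (nat_lit 0) (.e (nat_lit 184460) (nat_lit 0) .nil) .nil)))) (.nd (nat_lit 9) 
(.lf (nat_lit 506316) (.g (nat_lit 1139) (.e (nat_lit 164330) (nat_lit 230) (.e (nat_lit 163869) (nat_lit 2) (.e (nat_lit 196654) (nat_lit 11) (.e (nat_lit 16417) (nat_lit 3) .nil)))) (.g (nat_lit 0) (.e (nat_lit 183797) (nat_lit 0) .nil) .nil))) 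
(.lf (nat_lit 506828) (.g (nat_lit 3381) (.e (nat_lit 164332) (nat_lit 230) (.e (nat_lit 163905) (nat_lit 12) (.e (nat_lit 426530) (nat_lit 27) (.e (nat_lit 336390) (nat_lit 27) (.e (nat_lit 426306) (nat_lit 12) (.e (nat_lit 475177) (nat_lit 24) (.e (nat_lit 516118) (nat_lit 1) .nil))))))) (.g (nat_lit 1) (.e (nat_lit 184977) (nat_lit 0) .nil) .nil))))))) 
(.nd (nat_lit 6) (.nd (nat_lit 7) (.nd (nat_lit 8) (.nd (nat_lit 9) 
(.lf (nat_lit 505900) (.g (nat_lit 287) (.e (nat_lit 164327) (nat_lit 230) (.e (nat_lit 163873) (nat_lit 3) (.e (nat_lit 204813) (nat_lit 9) .nil))) (.g (nat_lit 0) (.e (nat_lit 182703) (nat_lit 0) .nil) .nil))) 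
(.lf (nat_lit 506412) (.g (nat_lit 3183) (.e (nat_lit 164330) (nat_lit 230) (.e (nat_lit 163902) (nat_lit 12) (.e (nat_lit 426438) (nat_lit 18) (.e (nat_lit 98373) (nat_lit 29) (.e (nat_lit 450568) (nat_lit 0) (.e (nat_lit 7936) (nat_lit 369) (.e (nat_lit 163860) (nat_lit 1) .nil))))))) (.g (nat_lit 1) (.e (nat_lit 183962) (nat_lit 0) .nil) .nil)))) (.nd (nat_lit 9) 
(.lf (nat_lit 506156) (.g (nat_lit 2337) (.e (nat_lit 164329) (nat_lit 230) (.e (nat_lit 163874) (nat_lit 3) (.e (nat_lit 204813) (nat_lit 9) (.e (nat_lit 426188) (nat_lit 9) (.e (nat_lit 426566) (nat_lit 34) .nil))))) (.g (nat_lit 0) (.e (nat_lit 183375) (nat_lit 0) .nil) .nil))) 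
(.lf (nat_lit 506668) (.g (nat_lit 4148) (.e (nat_lit 164332) (nat_lit 230) (.e (nat_lit 163873) (nat_lit 3) (.e (nat_lit 204813) (nat_lit 9) (.e (nat_lit 426012) (nat_lit 0) .nil)))) (.g (nat_lit 0) (.e (nat_lit 184631) (nat_lit 0) .nil) .nil))))) (.nd (nat_lit 8) (.nd (nat_lit 9) 
(.lf (nat_lit 506028) (.g (nat_lit 2479) (.e (nat_lit 164327) (nat_lit 230) (.e (nat_lit 163903) (nat_lit 12) (.e (nat_lit 426568) (nat_lit 34) (.e (nat_lit 393234) (nat_lit 17) (.e (nat_lit 7310) (nat_lit 388) .nil))))) (.g (nat_lit 0) (.e (nat_lit 182982) (nat_lit 0) .nil) .nil))) 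
(.lf (nat_lit 506540) (.g (nat_lit 2614) (.e (nat_lit 164331) (nat_lit 230) (.e (nat_lit 163902) (nat_lit 12) (.e (nat_lit 426566) (nat_lit 34) (.e (nat_lit 393296) (nat_lit 26) (.e (nat_lit 475177) (nat_lit 24) .nil))))) (.g (nat_lit 0) (.e (nat_lit 184335) (nat_lit 0) .nil) .nil)))) (.nd (nat_lit 9) 
(.lf (nat_lit 506284) (.g (nat_lit 3337) (.e (nat_lit 164330) (nat_lit 230) (.e (nat_lit 163841) (nat_lit 0) (.e (nat_lit 3309) (nat_lit 202) (.e (nat_lit 573489) (nat_lit 14) (.e (nat_lit 73755) (nat_lit 8) (.e (nat_lit 557097) (nat_lit 13) (.e (nat_lit 179968) (nat_lit 18) (.e (nat_lit 98335) (nat_lit 18) .nil)))))))) (.g (nat_lit 1) (.e (nat_lit 183753) (nat_lit 0) .nil) .nil))) 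
(.lf (nat_lit 506796) (.g (nat_lit 1060) (.e (nat_lit 164332) (nat_lit 230) (.e (nat_lit 163905) (nat_lit 12) (.e (nat_lit 426131) (nat_lit 3) .nil))) (.g (nat_lit 0) (.e (nat_lit 184875) (nat_lit 0) .nil) .nil)))))) (.nd (nat_lit 7) (.nd (nat_lit 8) (.nd (nat_lit 9) 
(.lf (nat_lit 505964) (.g (nat_lit 2680) (.e (nat_lit 164327) (nat_lit 230) (.e (nat_lit 163875) (nat_lit 3) (.e (nat_lit 204838) (nat_lit 20) (.e (nat_lit 114716) (nat_lit 22) (.e (nat_lit 90168) (nat_lit 13) (.e (nat_lit 179968) (nat_lit 18) (.e (nat_lit 98333) (nat_lit 18) .nil))))))) (.g (nat_lit 1) (.e (nat_lit 182877) (nat_lit 0) .nil) .nil))) 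
(.lf (nat_lit 506476) (.g (nat_lit 4051) (.e (nat_lit 164330) (nat_lit 230) (.e (nat_lit 163941) (nat_lit 19) (.e (nat_lit 483341) (nat_lit 9) (.e (nat_lit 426220) (nat_lit 9) .nil)))) (.g (nat_lit 0) (.e (nat_lit 184233) (nat_lit 0) .nil) .nil)))) (.nd (nat_lit 9) 
(.lf (nat_lit 506220) (.g (nat_lit 3285) (.e (nat_lit 164329) (nat_lit 230) (.e (nat_lit 163902) (nat_lit 12) (.e (nat_lit 426568) (nat_lit 34) (.e (nat_lit 393270) (nat_lit 23) (.e (nat_lit 426436) (nat_lit 18) (.e (nat_lit 98335) (nat_lit 18) .nil)))))) (.g (nat_lit 1) (.e (nat_lit 183480) (nat_lit 0) .nil) .nil))) 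
(.lf (nat_lit 506732) (.g (nat_lit 2906) (.e (nat_lit 164332) (nat_lit 230) (.e (nat_lit 163902) (nat_lit 12) (.e (nat_lit 426438) (nat_lit 18) (.e (nat_lit 98373) (nat_lit 29) (.e (nat_lit 450560) (nat_lit 0) (.e (nat_lit 6839) (nat_lit 369) (.e (nat_lit 163861) (nat_lit 1) .nil))))))) (.g (nat_lit 1) (.e (nat_lit 184788) (nat_lit 0) .nil) .nil))))) (.nd (nat_lit 8) (.nd (nat_lit 9) 
(.lf (nat_lit 506092) (.g (nat_lit 3369) (.e (nat_lit 164329) (nat_lit 230) (.e (nat_lit 163867) (nat_lit 2) (.e (nat_lit 196652) (nat_lit 11) (.e (nat_lit 16435) (nat_lit 9) (.e (nat_lit 426566) (nat_lit 34) (.e (nat_lit 393253) (nat_lit 18) .nil)))))) (.g (nat_lit 1) (.e (nat_lit 183289) (nat_lit 0) .nil) .nil))) 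
(.lf (nat_lit 506604) (.g (nat_lit 4289) (.e (nat_lit 164332) (nat_lit 230) (.e (nat_lit 163867) (nat_lit 2) (.e (nat_lit 196656) (nat_lit 11) (.e (nat_lit 16416) (nat_lit 3) (.e (nat_lit 204838) (nat_lit 20) (.e (nat_lit 114719) (nat_lit 23) (.e (nat_lit 98334) (nat_lit 18) .nil))))))) (.g (nat_lit 1) (.e (nat_lit 184523) (nat_lit 0) .nil) .nil)))) (.nd (nat_lit 9) 
(.lf (nat_lit 506348) (.g (nat_lit 2849) (.e (nat_lit 164330) (nat_lit 230) (.e (nat_lit 163873) (nat_lit 3) (.e (nat_lit 204813) (nat_lit 9) (.e (nat_lit 426139) (nat_lit 3) (.e (nat_lit 204837) (nat_lit 20) .nil))))) (.g (nat_lit 0) (.e (nat_lit 183853) (nat_lit 0) .nil) .nil))) 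
(.lf (nat_lit 506860) (.g (nat_lit 2562) (.e (nat_lit 164332) (nat_lit 230) (.e (nat_lit 163941) (nat_lit 19) (.e (nat_lit 483341) (nat_lit 9) (.e (nat_lit 426199) (nat_lit 9) .nil)))) (.g (nat_lit 0) (.e (nat_lit 185167) (nat_lit 0) .nil) .nil)))))))) (.nd (nat_lit 5) (.nd (nat_lit 6) (.nd (nat_lit 7) (.nd (nat_lit 8) (.nd (nat_lit 9) 
(.lf (nat_lit 505884) (.g (nat_lit 1544) (.e (nat_lit 164327) (nat_lit 230) (.e (nat_lit 163871) (nat_lit 2) (.e (nat_lit 196656) (nat_lit 11) (.e (nat_lit 24320) (nat_lit 9) .nil)))) (.g (nat_lit 0) (.e (nat_lit 182669) (nat_lit 0) .nil) .nil))) 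
(.lf (nat_lit 506396) (.g (nat_lit 2325) (.e (nat_lit 164330) (nat_lit 230) (.e (nat_lit 163902) (nat_lit 12) (.e (nat_lit 426422) (nat_lit 16) (.e (nat_lit 57688) (nat_lit 156) (.e (nat_lit 163932) (nat_lit 17) (.e (nat_lit 466972) (nat_lit 21) (.e (nat_lit 164332) (nat_lit 230) (.e (nat_lit 163860) (nat_lit 1) .nil)))))))) (.g (nat_lit 1) (.e (nat_lit 183945) (nat_lit 0) .nil) .nil)))) 
(.nd (nat_lit 9) 
(.lf (nat_lit 506140) (.g (nat_lit 3143) (.e (nat_lit 164329) (nat_lit 230) (.e (nat_lit 163873) (nat_lit 3) (.e (nat_lit 204813) (nat_lit 9) (.e (nat_lit 426187) (nat_lit 9) .nil)))) (.g (nat_lit 0) (.e (nat_lit 183349) (nat_lit 0) .nil) .nil))) 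
(.lf (nat_lit 506652) (.g (nat_lit 1775) (.e (nat_lit 164332) (nat_lit 230) (.e (nat_lit 163869) (nat_lit 2) (.e (nat_lit 196656) (nat_lit 11) (.e (nat_lit 16439) (nat_lit 9) .nil)))) (.g (nat_lit 0) (.e (nat_lit 184605) (nat_lit 0) .nil) .nil))))) (.nd (nat_lit 8) (.nd (nat_lit 9) 
(.lf (nat_lit 506012) (.g (nat_lit 1088) (.e (nat_lit 164327) (nat_lit 230) (.e (nat_lit 163903) (nat_lit 12) (.e (nat_lit 426502) (nat_lit 27) (.e (nat_lit 336387) (nat_lit 27) .nil)))) (.g (nat_lit 0) (.e (nat_lit 182966) (nat_lit 0) .nil) .nil))) 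
(.lf (nat_lit 506524) (.g (nat_lit 4288) (.e (nat_lit 164331) (nat_lit 230) (.e (nat_lit 163873) (nat_lit 3) (.e (nat_lit 204813) (nat_lit 9) (.e (nat_lit 426213) (nat_lit 9) (.e (nat_lit 426528) (nat_lit 27) .nil))))) (.g (nat_lit 0) (.e (nat_lit 184300) (nat_lit 0) .nil) .nil)))) (.nd (nat_lit 9) 
(.lf (nat_lit 506268) (.g (nat_lit 3890) (.e (nat_lit 164329) (nat_lit 230) (.e (nat_lit 163941) (nat_lit 19) (.e (nat_lit 483341) (nat_lit 9) (.e (nat_lit 426222) (nat_lit 9) .nil)))) (.g (nat_lit 0) (.e (nat_lit 183726) (nat_lit 0) .nil) .nil))) 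
(.lf (nat_lit 506780) (.g (nat_lit 2215) (.e (nat_lit 164332) (nat_lit 230) (.e (nat_lit 163902) (nat_lit 12) (.e (nat_lit 426568) (nat_lit 34) (.e (nat_lit 393268) (nat_lit 23) (.e (nat_lit 426428) (nat_lit 17) .nil))))) (.g (nat_lit 0) (.e (nat_lit 184857) (nat_lit 0) .nil) .nil)))))) (.nd (nat_lit 7) (.nd (nat_lit 8) (.nd (nat_lit 9) 
(.lf (nat_lit 505948) (.g (nat_lit 1223) (.e (nat_lit 164327) (nat_lit 230) (.e (nat_lit 163875) (nat_lit 3) (.e (nat_lit 204813) (nat_lit 9) (.e (nat_lit 426196) (nat_lit 9) .nil)))) (.g (nat_lit 0) (.e (nat_lit 182835) (nat_lit 0) .nil) .nil))) 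
(.lf (nat_lit 506460) (.g (nat_lit 1546) (.e (nat_lit 164330) (nat_lit 230) (.e (nat_lit 163915) (nat_lit 12) (.e (nat_lit 426187) (nat_lit 9) (.e (nat_lit 426542) (nat_lit 29) (.e (nat_lit 360192) (nat_lit 5) (.e (nat_lit 221206) (nat_lit 21) .nil)))))) (.g (nat_lit 1) (.e (nat_lit 184096) (nat_lit 0) .nil) .nil)))) (.nd (nat_lit 9) 
(.lf (nat_lit 506204) (.g (nat_lit 882) (.e (nat_lit 164329) (nat_lit 230) (.e (nat_lit 163902) (nat_lit 12) (.e (nat_lit 426489) (nat_lit 27) .nil))) (.g (nat_lit 0) (.e (nat_lit 183451) (nat_lit 0) .nil) .nil))) 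
(.lf (nat_lit 506716) (.g (nat_lit 1164) (.e (nat_lit 164332) (nat_lit 230) (.e (nat_lit 163884) (nat_lit 5) (.e (nat_lit 221194) (nat_lit 11) (.e (nat_lit 336087) (nat_lit 9) .nil)))) (.g (nat_lit 0) (.e (nat_lit 184722) (nat_lit 0) .nil) .nil))))) (.nd (nat_lit 8) (.nd (nat_lit 9) 
(.lf (nat_lit 506076) (.g (nat_lit 805) (.e (nat_lit 164329) (nat_lit 230) (.e (nat_lit 163850) (nat_lit 0) (.e (nat_lit 3252) (nat_lit 197) (.e (nat_lit 532515) (nat_lit 3) .nil)))) (.g (nat_lit 0) (.e (nat_lit 183242) (nat_lit 0) .nil) .nil))) 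
(.lf (nat_lit 506588) (.g (nat_lit 518) (.e (nat_lit 164332) (nat_lit 230) (.e (nat_lit 163867) (nat_lit 2) (.e (nat_lit 196652) (nat_lit 11) .nil))) (.g (nat_lit 0) (.e (nat_lit 184497) (nat_lit 0) .nil) .nil)))) (.nd (nat_lit 9) 
(.lf (nat_lit 506332) (.g (nat_lit 627) (.e (nat_lit 164330) (nat_lit 230) (.e (nat_lit 163873) (nat_lit 3) (.e (nat_lit 204805) (nat_lit 0) .nil))) (.g (nat_lit 0) (.e (nat_lit 183820) (nat_lit 0) .nil) .nil))) 
(.lf (nat_lit 506844) (.g (nat_lit 3636) (.e (nat_lit 164332) (nat_lit 230) (.e (nat_lit 163936) (nat_lit 18) (.e (nat_lit 475179) (nat_lit 24) (.e (nat_lit 516176) (nat_lit 14) (.e (nat_lit 466972) (nat_lit 21) (.e (nat_lit 164183) (nat_lit 154) (.e (nat_lit 65280) (nat_lit 62) .nil))))))) (.g (nat_lit 1) (.e (nat_lit 185137) (nat_lit 0) .nil) .nil))))))) 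
(.nd (nat_lit 6) (.nd (nat_lit 7) (.nd (nat_lit 8) (.nd (nat_lit 9) 
(.lf (nat_lit 505916) (.g (nat_lit 2927) (.e (nat_lit 164327) (nat_lit 230) (.e (nat_lit 163873) (nat_lit 3) (.e (nat_lit 204813) (nat_lit 9) (.e (nat_lit 426196) (nat_lit 9) .nil)))) (.g (nat_lit 0) (.e (nat_lit 182746) (nat_lit 0) .nil) .nil))) 
(.lf (nat_lit 506428) (.g (nat_lit 2452) (.e (nat_lit 164330) (nat_lit 230) (.e (nat_lit 163902) (nat_lit 12) (.e (nat_lit 426566) (nat_lit 34) (.e (nat_lit 393266) (nat_lit 23) .nil)))) (.g (nat_lit 0) (.e (nat_lit 183989) (nat_lit 0) .nil) .nil)))) (.nd (nat_lit 9) 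
(.lf (nat_lit 506172) (.g (nat_lit 1967) (.e (nat_lit 164329) (nat_lit 230) (.e (nat_lit 163902) (nat_lit 12) (.e (nat_lit 426428) (nat_lit 17) (.e (nat_lit 90170) (nat_lit 13) (.e (nat_lit 172079) (nat_lit 7) .nil))))) (.g (nat_lit 0) (.e (nat_lit 183411) (nat_lit 0) .nil) .nil))) 
(.lf (nat_lit 506684) (.g (nat_lit 3729) (.e (nat_lit 164332) (nat_lit 230) (.e (nat_lit 163873) (nat_lit 3) (.e (nat_lit 204813) (nat_lit 9) (.e (nat_lit 426200) (nat_lit 9) (.e (nat_lit 426568) (nat_lit 34) (.e (nat_lit 393253) (nat_lit 18) .nil)))))) (.g (nat_lit 1) (.e (nat_lit 184656) (nat_lit 0) .nil) .nil))))) (.nd (nat_lit 8) (.nd (nat_lit 9) 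
(.lf (nat_lit 506044) (.g (nat_lit 1081) (.e (nat_lit 164327) (nat_lit 230) (.e (nat_lit 163907) (nat_lit 12) (.e (nat_lit 426568) (nat_lit 34) .nil))) (.g (nat_lit 0) (.e (nat_lit 183028) (nat_lit 0) .nil) .nil))) 
(.lf (nat_lit 506556) (.g (nat_lit 1192) (.e (nat_lit 164331) (nat_lit 230) (.e (nat_lit 163941) (nat_lit 19) (.e (nat_lit 483333) (nat_lit 0) (.e (nat_lit 7335) (nat_lit 388) .nil)))) (.g (nat_lit 0) (.e (nat_lit 184421) (nat_lit 0) .nil) .nil)))) (.nd (nat_lit 9) 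
(.lf (nat_lit 506300) (.g (nat_lit 2277) (.e (nat_lit 164330) (nat_lit 230) (.e (nat_lit 163867) (nat_lit 2) (.e (nat_lit 196656) (nat_lit 11) (.e (nat_lit 16433) (nat_lit 9) (.e (nat_lit 426566) (nat_lit 34) .nil))))) (.g (nat_lit 0) (.e (nat_lit 183775) (nat_lit 0) .nil) .nil))) 
(.lf (nat_lit 506812) (.g (nat_lit 3564) (.e (nat_lit 164332) (nat_lit 230) (.e (nat_lit 163905) (nat_lit 12) (.e (nat_lit 426472) (nat_lit 25) (.e (nat_lit 319534) (nat_lit 16) (.e (nat_lit 286749) (nat_lit 9) (.e (nat_lit 335997) (nat_lit 1) (.e (nat_lit 57686) (nat_lit 156) (.e (nat_lit 163860) (nat_lit 1) .nil)))))))) (.g (nat_lit 1) (.e (nat_lit 184942) (nat_lit 0) .nil) .nil)))))) 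
(.nd (nat_lit 7) (.nd (nat_lit 8) (.nd (nat_lit 9) 
(.lf (nat_lit 505980) (.g (nat_lit 1589) (.e (nat_lit 164327) (nat_lit 230) (.e (nat_lit 163881) (nat_lit 4) (.e (nat_lit 213032) (nat_lit 11) (.e (nat_lit 24660) (nat_lit 13) (.e (nat_lit 393277) (nat_lit 23) (.e (nat_lit 426103) (nat_lit 1) .nil)))))) (.g (nat_lit 1) (.e (nat_lit 182896) (nat_lit 0) .nil) .nil))) 
(.lf (nat_lit 506492) (.g (nat_lit 2318) (.e (nat_lit 164331) (nat_lit 230) (.e (nat_lit 163867) (nat_lit 2) (.e (nat_lit 196654) (nat_lit 11) (.e (nat_lit 16466) (nat_lit 13) (.e (nat_lit 483336) (nat_lit 9) (.e (nat_lit 426108) (nat_lit 1) .nil)))))) (.g (nat_lit 1) (.e (nat_lit 184260) (nat_lit 0) .nil) .nil)))) (.nd (nat_lit 9) 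
(.lf (nat_lit 506236) (.g (nat_lit 1957) (.e (nat_lit 164329) (nat_lit 230) (.e (nat_lit 163902) (nat_lit 12) (.e (nat_lit 426568) (nat_lit 34) (.e (nat_lit 393293) (nat_lit 26) (.e (nat_lit 475176) (nat_lit 24) .nil))))) (.g (nat_lit 0) (.e (nat_lit 183496) (nat_lit 0) .nil) .nil))) 
(.lf (nat_lit 506748) (.g (nat_lit 3691) (.e (nat_lit 164332) (nat_lit 230) (.e (nat_lit 163902) (nat_lit 12) (.e (nat_lit 426472) (nat_lit 25) (.e (nat_lit 319534) (nat_lit 16) (.e (nat_lit 286756) (nat_lit 10) (.e (nat_lit 344087) (nat_lit 18) (.e (nat_lit 7290) (nat_lit 386) (.e (nat_lit 163864) (nat_lit 1) .nil)))))))) (.g (nat_lit 1) (.e (nat_lit 184806) (nat_lit 0) .nil) .nil))))) 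
(.nd (nat_lit 8) (.nd (nat_lit 9) 
(.lf (nat_lit 506108) (.g (nat_lit 3256) (.e (nat_lit 164329) (nat_lit 230) (.e (nat_lit 163867) (nat_lit 2) (.e (nat_lit 196656) (nat_lit 11) (.e (nat_lit 16433) (nat_lit 9) (.e (nat_lit 426566) (nat_lit 34) (.e (nat_lit 393254) (nat_lit 18) .nil)))))) (.g (nat_lit 1) (.e (nat_lit 183307) (nat_lit 0) .nil) .nil))) 
(.lf (nat_lit 506620) (.g (nat_lit 1552) (.e (nat_lit 164332) (nat_lit 230) (.e (nat_lit 163869) (nat_lit 2) (.e (nat_lit 196624) (nat_lit 9) (.e (nat_lit 433) (nat_lit 32) (.e (nat_lit 426232) (nat_lit 9) .nil))))) (.g (nat_lit 0) (.e (nat_lit 184560) (nat_lit 0) .nil) .nil)))) (.nd (nat_lit 9) 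
(.lf (nat_lit 506364) (.g (nat_lit 3969) (.e (nat_lit 164330) (nat_lit 230) (.e (nat_lit 163873) (nat_lit 3) (.e (nat_lit 204813) (nat_lit 9) (.e (nat_lit 426204) (nat_lit 9) .nil)))) (.g (nat_lit 0) (.e (nat_lit 183870) (nat_lit 0) .nil) .nil))) 
(.lf (nat_lit 506876) (.g (nat_lit 1563) (.e (nat_lit 164332) (nat_lit 230) (.e (nat_lit 163943) (nat_lit 19) (.e (nat_lit 483341) (nat_lit 9) (.e (nat_lit 433920) (nat_lit 9) .nil)))) (.g (nat_lit 0) (.e (nat_lit 185205) (nat_lit 0) .nil) .nil))))))))))) (.nd (nat_lit 2) (.nd (nat_lit 3) (.nd (nat_lit 4) (.nd (nat_lit 5) (.nd (nat_lit 6) (.nd (nat_lit 7) (.nd (nat_lit 8) (.nd (nat_lit 9) 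
(.lf (nat_lit 505858) (.g (nat_lit 2500) (.e (nat_lit 164327) (nat_lit 230) (.e (nat_lit 163871) (nat_lit 2) (.e (nat_lit 196654) (nat_lit 11) (.e (nat_lit 16463) (nat_lit 13) (.e (nat_lit 483341) (nat_lit 9) (.e (nat_lit 433920) (nat_lit 1) .nil)))))) (.g (nat_lit 1) (.e (nat_lit 182628) (nat_lit 0) .nil) .nil))) 
(.lf (nat_lit 506370) (.g (nat_lit 738) (.e (nat_lit 164330) (nat_lit 230) (.e (nat_lit 163874) (nat_lit 3) (.e (nat_lit 204805) (nat_lit 0) .nil))) (.g (nat_lit 0) (.e (nat_lit 183898) (nat_lit 0) .nil) .nil)))) (.nd (nat_lit 9) 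
(.lf (nat_lit 506114) (.g (nat_lit 3964) (.e (nat_lit 164329) (nat_lit 230) (.e (nat_lit 163867) (nat_lit 2) (.e (nat_lit 196656) (nat_lit 11) (.e (nat_lit 16466) (nat_lit 13) (.e (nat_lit 483337) (nat_lit 9) (.e (nat_lit 426108) (nat_lit 1) .nil)))))) (.g (nat_lit 1) (.e (nat_lit 183316) (nat_lit 0) .nil) .nil))) 
(.lf (nat_lit 506626) (.g (nat_lit 385) (.e (nat_lit 164332) (nat_lit 230) (.e (nat_lit 163869) (nat_lit 2) (.e (nat_lit 196654) (nat_lit 11) .nil))) (.g (nat_lit 0) (.e (nat_lit 184572) (nat_lit 0) .nil) .nil))))) (.nd (nat_lit 8) (.nd (nat_lit 9) 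
(.lf (nat_lit 505986) (.g (nat_lit 1954) (.e (nat_lit 164327) (nat_lit 230) (.e (nat_lit 163882) (nat_lit 4) (.e (nat_lit 213030) (nat_lit 11) (.e (nat_lit 24660) (nat_lit 13) (.e (nat_lit 393274) (nat_lit 23) (.e (nat_lit 426097) (nat_lit 1) .nil)))))) (.g (nat_lit 1) (.e (nat_lit 182903) (nat_lit 0) .nil) .nil))) 
(.lf (nat_lit 506498) (.g (nat_lit 2851) (.e (nat_lit 164331) (nat_lit 230) (.e (nat_lit 163867) (nat_lit 2) (.e (nat_lit 196656) (nat_lit 11) (.e (nat_lit 16463) (nat_lit 13) (.e (nat_lit 483336) (nat_lit 9) .nil))))) (.g (nat_lit 0) (.e (nat_lit 184267) (nat_lit 0) .nil) .nil)))) (.nd (nat_lit 9) 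
(.lf (nat_lit 506242) (.g (nat_lit 757) (.e (nat_lit 164329) (nat_lit 230) (.e (nat_lit 163908) (nat_lit 12) (.e (nat_lit 426528) (nat_lit 27) (.e (nat_lit 336387) (nat_lit 27) .nil)))) (.g (nat_lit 0) (.e (nat_lit 183560) (nat_lit 0) .nil) .nil))) 
(.lf (nat_lit 506754) (.g (nat_lit 3255) (.e (nat_lit 164332) (nat_lit 230) (.e (nat_lit 163902) (nat_lit 12) (.e (nat_lit 426478) (nat_lit 27) (.e (nat_lit 336389) (nat_lit 27) (.e (nat_lit 426308) (nat_lit 12) (.e (nat_lit 475177) (nat_lit 24) (.e (nat_lit 516118) (nat_lit 1) .nil))))))) (.g (nat_lit 1) (.e (nat_lit 184812) (nat_lit 0) .nil) .nil)))))) 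
(.nd (nat_lit 7) (.nd (nat_lit 8) (.nd (nat_lit 9) 
(.lf (nat_lit 505922) (.g (nat_lit 4403) (.e (nat_lit 164327) (nat_lit 230) (.e (nat_lit 163873) (nat_lit 3) (.e (nat_lit 204813) (nat_lit 9) (.e (nat_lit 426200) (nat_lit 9) (.e (nat_lit 426481) (nat_lit 27) (.e (nat_lit 336389) (nat_lit 27) (.e (nat_lit 426098) (nat_lit 1) .nil))))))) (.g (nat_lit 1) (.e (nat_lit 182754) (nat_lit 0) .nil) .nil))) 
(.lf (nat_lit 506434) (.g (nat_lit 2841) (.e (nat_lit 164330) (nat_lit 230) (.e (nat_lit 163902) (nat_lit 12) (.e (nat_lit 426568) (nat_lit 34) (.e (nat_lit 393234) (nat_lit 17) (.e (nat_lit 7376) (nat_lit 389) .nil))))) (.g (nat_lit 0) (.e (nat_lit 183995) (nat_lit 0) .nil) .nil)))) (.nd (nat_lit 9) 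
(.lf (nat_lit 506178) (.g (nat_lit 2264) (.e (nat_lit 164329) (nat_lit 230) (.e (nat_lit 163902) (nat_lit 12) (.e (nat_lit 426428) (nat_lit 17) (.e (nat_lit 90170) (nat_lit 13) (.e (nat_lit 172082) (nat_lit 7) (.e (nat_lit 409612) (nat_lit 10) (.e (nat_lit 943) (nat_lit 77) (.e (nat_lit 794662) (nat_lit 21) .nil)))))))) (.g (nat_lit 1) (.e (nat_lit 183417) (nat_lit 0) .nil) .nil))) 
(.lf (nat_lit 506690) (.g (nat_lit 1003) (.e (nat_lit 164332) (nat_lit 230) (.e (nat_lit 163874) (nat_lit 3) (.e (nat_lit 204801) (nat_lit 0) .nil))) (.g (nat_lit 0) (.e (nat_lit 184678) (nat_lit 0) .nil) .nil))))) (.nd (nat_lit 8) (.nd (nat_lit 9) 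
(.lf (nat_lit 506050) (.g (nat_lit 4154) (.e (nat_lit 164327) (nat_lit 230) (.e (nat_lit 163936) (nat_lit 18) (.e (nat_lit 475179) (nat_lit 24) (.e (nat_lit 516176) (nat_lit 14) (.e (nat_lit 466972) (nat_lit 21) (.e (nat_lit 164183) (nat_lit 154) (.e (nat_lit 65280) (nat_lit 62) .nil))))))) (.g (nat_lit 1) (.e (nat_lit 183133) (nat_lit 0) .nil) .nil))) 
(.lf (nat_lit 506562) (.g (nat_lit 2512) (.e (nat_lit 164331) (nat_lit 230) (.e (nat_lit 163941) (nat_lit 19) (.e (nat_lit 483341) (nat_lit 9) (.e (nat_lit 426199) (nat_lit 9) .nil)))) (.g (nat_lit 0) (.e (nat_lit 184439) (nat_lit 0) .nil) .nil)))) (.nd (nat_lit 9) 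
(.lf (nat_lit 506306) (.g (nat_lit 734) (.e (nat_lit 164330) (nat_lit 230) (.e (nat_lit 163869) (nat_lit 2) (.e (nat_lit 196619) (nat_lit 9) .nil))) (.g (nat_lit 0) (.e (nat_lit 183786) (nat_lit 0) .nil) .nil))) 
(.lf (nat_lit 506818) (.g (nat_lit 3447) (.e (nat_lit 164332) (nat_lit 230) (.e (nat_lit 163905) (nat_lit 12) (.e (nat_lit 426481) (nat_lit 27) (.e (nat_lit 336389) (nat_lit 27) (.e (nat_lit 426308) (nat_lit 12) (.e (nat_lit 475179) (nat_lit 24) (.e (nat_lit 516120) (nat_lit 1) .nil))))))) (.g (nat_lit 1) (.e (nat_lit 184967) (nat_lit 0) .nil) .nil))))))) 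
(.nd (nat_lit 6) (.nd (nat_lit 7) (.nd (nat_lit 8) (.nd (nat_lit 9) 
(.lf (nat_lit 505890) (.g (nat_lit 2673) (.e (nat_lit 164327) (nat_lit 230) (.e (nat_lit 163871) (nat_lit 2) (.e (nat_lit 196656) (nat_lit 11) (.e (nat_lit 16466) (nat_lit 13) (.e (nat_lit 483336) (nat_lit 9) .nil))))) (.g (nat_lit 0) (.e (nat_lit 182680) (nat_lit 0) .nil) .nil))) 
(.lf (nat_lit 506402) (.g (nat_lit 2732) (.e (nat_lit 164330) (nat_lit 230) (.e (nat_lit 163902) (nat_lit 12) (.e (nat_lit 426438) (nat_lit 18) (.e (nat_lit 98373) (nat_lit 29) (.e (nat_lit 450560) (nat_lit 0) .nil))))) (.g (nat_lit 0) (.e (nat_lit 183952) (nat_lit 0) .nil) .nil)))) (.nd (nat_lit 9) 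
(.lf (nat_lit 506146) (.g (nat_lit 3551) (.e (nat_lit 164329) (nat_lit 230) (.e (nat_lit 163873) (nat_lit 3) (.e (nat_lit 204813) (nat_lit 9) (.e (nat_lit 426199) (nat_lit 9) (.e (nat_lit 426480) (nat_lit 27) .nil))))) (.g (nat_lit 0) (.e (nat_lit 183355) (nat_lit 0) .nil) .nil))) 
(.lf (nat_lit 506658) (.g (nat_lit 3001) (.e (nat_lit 164332) (nat_lit 230) (.e (nat_lit 163869) (nat_lit 2) (.e (nat_lit 196656) (nat_lit 11) (.e (nat_lit 16465) (nat_lit 13) (.e (nat_lit 491264) (nat_lit 9) (.e (nat_lit 426100) (nat_lit 1) .nil)))))) (.g (nat_lit 1) (.e (nat_lit 184613) (nat_lit 0) .nil) .nil))))) (.nd (nat_lit 8) (.nd (nat_lit 9) 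
(.lf (nat_lit 506018) (.g (nat_lit 4153) (.e (nat_lit 164327) (nat_lit 230) (.e (nat_lit 163903) (nat_lit 12) (.e (nat_lit 426566) (nat_lit 34) (.e (nat_lit 393271) (nat_lit 23) (.e (nat_lit 426436) (nat_lit 18) (.e (nat_lit 98335) (nat_lit 18) .nil)))))) (.g (nat_lit 1) (.e (nat_lit 182972) (nat_lit 0) .nil) .nil))) 
(.lf (nat_lit 506530) (.g (nat_lit 1103) (.e (nat_lit 164331) (nat_lit 230) (.e (nat_lit 163884) (nat_lit 5) (.e (nat_lit 221193) (nat_lit 11) (.e (nat_lit 336150) (nat_lit 9) (.e (nat_lit 336442) (nat_lit 32) .nil))))) (.g (nat_lit 0) (.e (nat_lit 184320) (nat_lit 0) .nil) .nil)))) (.nd (nat_lit 9) 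
(.lf (nat_lit 506274) (.g (nat_lit 1381) (.e (nat_lit 164329) (nat_lit 230) (.e (nat_lit 163941) (nat_lit 19) (.e (nat_lit 483341) (nat_lit 9) (.e (nat_lit 426314) (nat_lit 12) .nil)))) (.g (nat_lit 0) (.e (nat_lit 183736) (nat_lit 0) .nil) .nil))) 
(.lf (nat_lit 506786) (.g (nat_lit 1183) (.e (nat_lit 164332) (nat_lit 230) (.e (nat_lit 163902) (nat_lit 12) (.e (nat_lit 426568) (nat_lit 34) (.e (nat_lit 393279) (nat_lit 23) .nil)))) (.g (nat_lit 0) (.e (nat_lit 184863) (nat_lit 0) .nil) .nil)))))) (.nd (nat_lit 7) (.nd (nat_lit 8) (.nd (nat_lit 9) 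
(.lf (nat_lit 505954) (.g (nat_lit 1645) (.e (nat_lit 164327) (nat_lit 230) (.e (nat_lit 163875) (nat_lit 3) (.e (nat_lit 204813) (nat_lit 9) (.e (nat_lit 426200) (nat_lit 9) (.e (nat_lit 426481) (nat_lit 27) .nil))))) (.g (nat_lit 0) (.e (nat_lit 182841) (nat_lit 0) .nil) .nil))) 
(.lf (nat_lit 506466) (.g (nat_lit 2934) (.e (nat_lit 164330) (nat_lit 230) (.e (nat_lit 163941) (nat_lit 19) (.e (nat_lit 483341) (nat_lit 9) (.e (nat_lit 426186) (nat_lit 9) .nil)))) (.g (nat_lit 0) (.e (nat_lit 184220) (nat_lit 0) .nil) .nil)))) (.nd (nat_lit 9) 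
(.lf (nat_lit 506210) (.g (nat_lit 754) (.e (nat_lit 164329) (nat_lit 230) (.e (nat_lit 163902) (nat_lit 12) (.e (nat_lit 426567) (nat_lit 34) (.e (nat_lit 393293) (nat_lit 26) .nil)))) (.g (nat_lit 0) (.e (nat_lit 183466) (nat_lit 0) .nil) .nil))) 
(.lf (nat_lit 506722) (.g (nat_lit 2128) (.e (nat_lit 164332) (nat_lit 230) (.e (nat_lit 163902) (nat_lit 12) (.e (nat_lit 426422) (nat_lit 16) (.e (nat_lit 57687) (nat_lit 156) (.e (nat_lit 163933) (nat_lit 17) (.e (nat_lit 466972) (nat_lit 21) (.e (nat_lit 164332) (nat_lit 230) (.e (nat_lit 163860) (nat_lit 1) .nil)))))))) (.g (nat_lit 1) (.e (nat_lit 184776) (nat_lit 0) .nil) .nil))))) 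
(.nd (nat_lit 8) (.nd (nat_lit 9) 
(.lf (nat_lit 506082) (.g (nat_lit 3157) (.e (nat_lit 164329) (nat_lit 230) (.e (nat_lit 163866) (nat_lit 2) (.e (nat_lit 196654) (nat_lit 11) (.e (nat_lit 16466) (nat_lit 13) (.e (nat_lit 483337) (nat_lit 9) (.e (nat_lit 426108) (nat_lit 1) .nil)))))) (.g (nat_lit 1) (.e (nat_lit 183273) (nat_lit 0) .nil) .nil))) 
(.lf (nat_lit 506594) (.g (nat_lit 3247) (.e (nat_lit 164332) (nat_lit 230) (.e (nat_lit 163867) (nat_lit 2) (.e (nat_lit 196654) (nat_lit 11) (.e (nat_lit 16416) (nat_lit 3) (.e (nat_lit 204837) (nat_lit 20) (.e (nat_lit 114718) (nat_lit 23) (.e (nat_lit 98334) (nat_lit 18) .nil))))))) (.g (nat_lit 1) (.e (nat_lit 184506) (nat_lit 0) .nil) .nil)))) (.nd (nat_lit 9) 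
(.lf (nat_lit 506338) (.g (nat_lit 4793) (.e (nat_lit 164330) (nat_lit 230) (.e (nat_lit 163873) (nat_lit 3) (.e (nat_lit 204813) (nat_lit 9) (.e (nat_lit 426009) (nat_lit 0) .nil)))) (.g (nat_lit 0) (.e (nat_lit 183830) (nat_lit 0) .nil) .nil))) 
(.lf (nat_lit 506850) (.g (nat_lit 1770) (.e (nat_lit 164332) (nat_lit 230) (.e (nat_lit 163941) (nat_lit 19) (.e (nat_lit 483341) (nat_lit 9) (.e (nat_lit 426197) (nat_lit 9) (.e (nat_lit 426382) (nat_lit 15) .nil))))) (.g (nat_lit 0) (.e (nat_lit 185157) (nat_lit 0) .nil) .nil)))))))) (.nd (nat_lit 5) (.nd (nat_lit 6) (.nd (nat_lit 7) (.nd (nat_lit 8) (.nd (nat_lit 9) 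
(.lf (nat_lit 505874) (.g (nat_lit 1466) (.e (nat_lit 164327) (nat_lit 230) (.e (nat_lit 163871) (nat_lit 2) (.e (nat_lit 196656) (nat_lit 11) (.e (nat_lit 16436) (nat_lit 9) .nil)))) (.g (nat_lit 0) (.e (nat_lit 182658) (nat_lit 0) .nil) .nil))) 
(.lf (nat_lit 506386) (.g (nat_lit 2288) (.e (nat_lit 164330) (nat_lit 230) (.e (nat_lit 163878) (nat_lit 4) (.e (nat_lit 213032) (nat_lit 11) (.e (nat_lit 24658) (nat_lit 13) (.e (nat_lit 393281) (nat_lit 23) (.e (nat_lit 426099) (nat_lit 1) .nil)))))) (.g (nat_lit 1) (.e (nat_lit 183915) (nat_lit 0) .nil) .nil)))) (.nd (nat_lit 9) 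
(.lf (nat_lit 506130) (.g (nat_lit 1531) (.e (nat_lit 164329) (nat_lit 230) (.e (nat_lit 163873) (nat_lit 3) (.e (nat_lit 204811) (nat_lit 9) (.e (nat_lit 426261) (nat_lit 9) (.e (nat_lit 426565) (nat_lit 34) (.e (nat_lit 393254) (nat_lit 18) .nil)))))) (.g (nat_lit 1) (.e (nat_lit 183333) (nat_lit 0) .nil) .nil))) 
(.lf (nat_lit 506642) (.g (nat_lit 1615) (.e (nat_lit 164332) (nat_lit 230) (.e (nat_lit 163869) (nat_lit 2) (.e (nat_lit 196655) (nat_lit 11) (.e (nat_lit 16465) (nat_lit 13) (.e (nat_lit 483340) (nat_lit 9) .nil))))) (.g (nat_lit 0) (.e (nat_lit 184591) (nat_lit 0) .nil) .nil))))) (.nd (nat_lit 8) (.nd (nat_lit 9) 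
(.lf (nat_lit 506002) (.g (nat_lit 4502) (.e (nat_lit 164327) (nat_lit 230) (.e (nat_lit 163903) (nat_lit 12) (.e (nat_lit 426438) (nat_lit 18) (.e (nat_lit 98381) (nat_lit 31) (.e (nat_lit 466972) (nat_lit 21) (.e (nat_lit 164183) (nat_lit 154) (.e (nat_lit 65280) (nat_lit 62) .nil))))))) (.g (nat_lit 1) (.e (nat_lit 182955) (nat_lit 0) .nil) .nil))) 
(.lf (nat_lit 506514) (.g (nat_lit 3094) (.e (nat_lit 164331) (nat_lit 230) (.e (nat_lit 163873) (nat_lit 3) (.e (nat_lit 204813) (nat_lit 9) (.e (nat_lit 426196) (nat_lit 9) (.e (nat_lit 426566) (nat_lit 34) .nil))))) (.g (nat_lit 0) (.e (nat_lit 184289) (nat_lit 0) .nil) .nil)))) (.nd (nat_lit 9) 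
(.lf (nat_lit 506258) (.g (nat_lit 3328) (.e (nat_lit 164329) (nat_lit 230) (.e (nat_lit 163941) (nat_lit 19) (.e (nat_lit 483341) (nat_lit 9) (.e (nat_lit 426031) (nat_lit 0) .nil)))) (.g (nat_lit 0) (.e (nat_lit 183712) (nat_lit 0) .nil) .nil))) 
(.lf (nat_lit 506770) (.g (nat_lit 3265) (.e (nat_lit 164332) (nat_lit 230) (.e (nat_lit 163902) (nat_lit 12) (.e (nat_lit 426566) (nat_lit 34) (.e (nat_lit 393292) (nat_lit 26) (.e (nat_lit 475177) (nat_lit 24) .nil))))) (.g (nat_lit 0) (.e (nat_lit 184846) (nat_lit 0) .nil) .nil)))))) (.nd (nat_lit 7) (.nd (nat_lit 8) (.nd (nat_lit 9) 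
(.lf (nat_lit 505938) (.g (nat_lit 1142) (.e (nat_lit 164327) (nat_lit 230) (.e (nat_lit 163875) (nat_lit 3) (.e (nat_lit 204809) (nat_lit 9) (.e (nat_lit 426200) (nat_lit 9) .nil)))) (.g (nat_lit 0) (.e (nat_lit 182812) (nat_lit 0) .nil) .nil))) 
(.lf (nat_lit 506450) (.g (nat_lit 1926) (.e (nat_lit 164330) (nat_lit 230) (.e (nat_lit 163905) (nat_lit 12) (.e (nat_lit 426566) (nat_lit 34) (.e (nat_lit 393290) (nat_lit 26) (.e (nat_lit 475177) (nat_lit 24) .nil))))) (.g (nat_lit 0) (.e (nat_lit 184037) (nat_lit 0) .nil) .nil)))) (.nd (nat_lit 9) 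
(.lf (nat_lit 506194) (.g (nat_lit 3954) (.e (nat_lit 164329) (nat_lit 230) (.e (nat_lit 163902) (nat_lit 12) (.e (nat_lit 426472) (nat_lit 25) (.e (nat_lit 319534) (nat_lit 16) (.e (nat_lit 286749) (nat_lit 9) (.e (nat_lit 335997) (nat_lit 1) (.e (nat_lit 57686) (nat_lit 156) (.e (nat_lit 163861) (nat_lit 1) .nil)))))))) (.g (nat_lit 1) (.e (nat_lit 183438) (nat_lit 0) .nil) .nil))) 
(.lf (nat_lit 506706) (.g (nat_lit 1635) (.e (nat_lit 164332) (nat_lit 230) (.e (nat_lit 163878) (nat_lit 4) (.e (nat_lit 213032) (nat_lit 11) (.e (nat_lit 24655) (nat_lit 13) (.e (nat_lit 393281) (nat_lit 23) .nil))))) (.g (nat_lit 0) (.e (nat_lit 184711) (nat_lit 0) .nil) .nil))))) (.nd (nat_lit 8) (.nd (nat_lit 9) 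
(.lf (nat_lit 506066) (.g (nat_lit 4166) (.e (nat_lit 164328) (nat_lit 230) (.e (nat_lit 163873) (nat_lit 3) (.e (nat_lit 204813) (nat_lit 9) (.e (nat_lit 426190) (nat_lit 9) .nil)))) (.g (nat_lit 0) (.e (nat_lit 183177) (nat_lit 0) .nil) .nil))) 
(.lf (nat_lit 506578) (.g (nat_lit 2993) (.e (nat_lit 164332) (nat_lit 230) (.e (nat_lit 163866) (nat_lit 2) (.e (nat_lit 196654) (nat_lit 11) (.e (nat_lit 16463) (nat_lit 13) (.e (nat_lit 483341) (nat_lit 9) (.e (nat_lit 426099) (nat_lit 1) .nil)))))) (.g (nat_lit 1) (.e (nat_lit 184480) (nat_lit 0) .nil) .nil)))) (.nd (nat_lit 9) 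
(.lf (nat_lit 506322) (.g (nat_lit 1910) (.e (nat_lit 164330) (nat_lit 230) (.e (nat_lit 163869) (nat_lit 2) (.e (nat_lit 196656) (nat_lit 11) (.e (nat_lit 16388) (nat_lit 0) .nil)))) (.g (nat_lit 0) (.e (nat_lit 183805) (nat_lit 0) .nil) .nil))) 
(.lf (nat_lit 506834) (.g (nat_lit 1898) (.e (nat_lit 164332) (nat_lit 230) (.e (nat_lit 163905) (nat_lit 12) (.e (nat_lit 426566) (nat_lit 34) (.e (nat_lit 393292) (nat_lit 26) (.e (nat_lit 475177) (nat_lit 24) .nil))))) (.g (nat_lit 0) (.e (nat_lit 185003) (nat_lit 0) .nil) .nil))))))) (.nd (nat_lit 6) (.nd (nat_lit 7) (.nd (nat_lit 8) (.nd (nat_lit 9) 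
(.lf (nat_lit 505906) (.g (nat_lit 4008) (.e (nat_lit 164327) (nat_lit 230) (.e (nat_lit 163873) (nat_lit 3) (.e (nat_lit 204813) (nat_lit 9) (.e (nat_lit 426132) (nat_lit 3) .nil)))) (.g (nat_lit 0) (.e (nat_lit 182724) (nat_lit 0) .nil) .nil))) 
(.lf (nat_lit 506418) (.g (nat_lit 2970) (.e (nat_lit 164330) (nat_lit 230) (.e (nat_lit 163902) (nat_lit 12) (.e (nat_lit 426472) (nat_lit 25) (.e (nat_lit 319534) (nat_lit 16) (.e (nat_lit 286749) (nat_lit 9) (.e (nat_lit 335997) (nat_lit 1) (.e (nat_lit 57688) (nat_lit 156) (.e (nat_lit 163860) (nat_lit 1) .nil)))))))) (.g (nat_lit 1) (.e (nat_lit 183968) (nat_lit 0) .nil) .nil)))) 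
(.nd (nat_lit 9) 
(.lf (nat_lit 506162) (.g (nat_lit 1704) (.e (nat_lit 164329) (nat_lit 230) (.e (nat_lit 163884) (nat_lit 5) (.e (nat_lit 221194) (nat_lit 11) (.e (nat_lit 336087) (nat_lit 9) (.e (nat_lit 336444) (nat_lit 32) .nil))))) (.g (nat_lit 0) (.e (nat_lit 183385) (nat_lit 0) .nil) .nil))) 
(.lf (nat_lit 506674) (.g (nat_lit 3402) (.e (nat_lit 164332) (nat_lit 230) (.e (nat_lit 163873) (nat_lit 3) (.e (nat_lit 204813) (nat_lit 9) (.e (nat_lit 426185) (nat_lit 9) .nil)))) (.g (nat_lit 0) (.e (nat_lit 184645) (nat_lit 0) .nil) .nil))))) (.nd (nat_lit 8) (.nd (nat_lit 9) 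
(.lf (nat_lit 506034) (.g (nat_lit 1651) (.e (nat_lit 164327) (nat_lit 230) (.e (nat_lit 163903) (nat_lit 12) (.e (nat_lit 426568) (nat_lit 34) (.e (nat_lit 393294) (nat_lit 26) (.e (nat_lit 475176) (nat_lit 24) .nil))))) (.g (nat_lit 0) (.e (nat_lit 182989) (nat_lit 0) .nil) .nil))) 
(.lf (nat_lit 506546) (.g (nat_lit 2576) (.e (nat_lit 164331) (nat_lit 230) (.e (nat_lit 163902) (nat_lit 12) (.e (nat_lit 426568) (nat_lit 34) (.e (nat_lit 393271) (nat_lit 23) (.e (nat_lit 426438) (nat_lit 18) .nil))))) (.g (nat_lit 0) (.e (nat_lit 184341) (nat_lit 0) .nil) .nil)))) (.nd (nat_lit 9) 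
(.lf (nat_lit 506290) (.g (nat_lit 529) (.e (nat_lit 164330) (nat_lit 230) (.e (nat_lit 163867) (nat_lit 2) (.e (nat_lit 196624) (nat_lit 9) .nil))) (.g (nat_lit 0) (.e (nat_lit 183760) (nat_lit 0) .nil) .nil))) 
(.lf (nat_lit 506802) (.g (nat_lit 869) (.e (nat_lit 164332) (nat_lit 230) (.e (nat_lit 163905) (nat_lit 12) (.e (nat_lit 426361) (nat_lit 15) .nil))) (.g (nat_lit 0) (.e (nat_lit 184925) (nat_lit 0) .nil) .nil)))))) (.nd (nat_lit 7) (.nd (nat_lit 8) (.nd (nat_lit 9) 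
(.lf (nat_lit 505970) (.g (nat_lit 2639) (.e (nat_lit 164327) (nat_lit 230) (.e (nat_lit 163877) (nat_lit 4) (.e (nat_lit 213032) (nat_lit 11) (.e (nat_lit 24627) (nat_lit 9) (.e (nat_lit 336443) (nat_lit 32) (.e (nat_lit 466971) (nat_lit 21) .nil)))))) (.g (nat_lit 1) (.e (nat_lit 182883) (nat_lit 0) .nil) .nil))) 
(.lf (nat_lit 506482) (.g (nat_lit 1202) (.e (nat_lit 164330) (nat_lit 230) (.e (nat_lit 163943) (nat_lit 19) (.e (nat_lit 483333) (nat_lit 0) (.e (nat_lit 6988) (nat_lit 377) .nil)))) (.g (nat_lit 0) (.e (nat_lit 184243) (nat_lit 0) .nil) .nil)))) (.nd (nat_lit 9) 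
(.lf (nat_lit 506226) (.g (nat_lit 1799) (.e (nat_lit 164329) (nat_lit 230) (.e (nat_lit 163902) (nat_lit 12) (.e (nat_lit 426568) (nat_lit 34) (.e (nat_lit 393290) (nat_lit 26) (.e (nat_lit 475178) (nat_lit 24) (.e (nat_lit 516120) (nat_lit 1) .nil)))))) (.g (nat_lit 1) (.e (nat_lit 183486) (nat_lit 0) .nil) .nil))) 
(.lf (nat_lit 506738) (.g (nat_lit 4718) (.e (nat_lit 164332) (nat_lit 230) (.e (nat_lit 163902) (nat_lit 12) (.e (nat_lit 426438) (nat_lit 18) (.e (nat_lit 98373) (nat_lit 29) (.e (nat_lit 450563) (nat_lit 0) (.e (nat_lit 6839) (nat_lit 369) (.e (nat_lit 163861) (nat_lit 1) .nil))))))) (.g (nat_lit 1) (.e (nat_lit 184794) (nat_lit 0) .nil) .nil))))) (.nd (nat_lit 8) (.nd (nat_lit 9) 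
(.lf (nat_lit 506098) (.g (nat_lit 3747) (.e (nat_lit 164329) (nat_lit 230) (.e (nat_lit 163867) (nat_lit 2) (.e (nat_lit 196654) (nat_lit 11) (.e (nat_lit 16466) (nat_lit 13) (.e (nat_lit 483337) (nat_lit 9) (.e (nat_lit 426108) (nat_lit 1) .nil)))))) (.g (nat_lit 1) (.e (nat_lit 183296) (nat_lit 0) .nil) .nil))) 
(.lf (nat_lit 506610) (.g (nat_lit 3285) (.e (nat_lit 164332) (nat_lit 230) (.e (nat_lit 163867) (nat_lit 2) (.e (nat_lit 196656) (nat_lit 11) (.e (nat_lit 16463) (nat_lit 13) (.e (nat_lit 483341) (nat_lit 9) (.e (nat_lit 426099) (nat_lit 1) .nil)))))) (.g (nat_lit 1) (.e (nat_lit 184548) (nat_lit 0) .nil) .nil)))) (.nd (nat_lit 9) 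
(.lf (nat_lit 506354) (.g (nat_lit 2945) (.e (nat_lit 164330) (nat_lit 230) (.e (nat_lit 163873) (nat_lit 3) (.e (nat_lit 204813) (nat_lit 9) (.e (nat_lit 426197) (nat_lit 9) (.e (nat_lit 426478) (nat_lit 27) .nil))))) (.g (nat_lit 0) (.e (nat_lit 183859) (nat_lit 0) .nil) .nil))) 
(.lf (nat_lit 506866) (.g (nat_lit 3674) (.e (nat_lit 164332) (nat_lit 230) (.e (nat_lit 163941) (nat_lit 19) (.e (nat_lit 483341) (nat_lit 9) (.e (nat_lit 426313) (nat_lit 12) (.e (nat_lit 475179) (nat_lit 24) (.e (nat_lit 516120) (nat_lit 1) .nil)))))) (.g (nat_lit 1) (.e (nat_lit 185175) (nat_lit 0) .nil) .nil))))))))) 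
(.nd (nat_lit 4) (.nd (nat_lit 5) (.nd (nat_lit 6) (.nd (nat_lit 7) (.nd (nat_lit 8) 
(.nd (nat_lit 9) 
(.lf (nat_lit 505866) (.g (nat_lit 1721) (.e (nat_lit 164327) (nat_lit 230) (.e (nat_lit 163871) (nat_lit 2) (.e (nat_lit 196656) (nat_lit 11) (.e (nat_lit 16416) (nat_lit 3) .nil)))) (.g (nat_lit 0) (.e (nat_lit 182646) (nat_lit 0) .nil) .nil))) 
(.lf (nat_lit 506378) (.g (nat_lit 428) (.e (nat_lit 164330) (nat_lit 230) (.e (nat_lit 163874) (nat_lit 3) (.e (nat_lit 204811) (nat_lit 9) .nil))) (.g (nat_lit 0) (.e (nat_lit 183907) (nat_lit 0) .nil) .nil)))) (.nd (nat_lit 9) 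
(.lf (nat_lit 506122) (.g (nat_lit 1830) (.e (nat_lit 164329) (nat_lit 230) (.e (nat_lit 163873) (nat_lit 3) (.e (nat_lit 204809) (nat_lit 9) (.e (nat_lit 426139) (nat_lit 3) (.e (nat_lit 204833) (nat_lit 19) .nil))))) (.g (nat_lit 0) (.e (nat_lit 183325) (nat_lit 0) .nil) .nil))) 
(.lf (nat_lit 506634) (.g (nat_lit 3164) (.e (nat_lit 164332) (nat_lit 230) (.e (nat_lit 163869) (nat_lit 2) (.e (nat_lit 196654) (nat_lit 11) (.e (nat_lit 16463) (nat_lit 13) (.e (nat_lit 483336) (nat_lit 9) (.e (nat_lit 426100) (nat_lit 1) .nil)))))) (.g (nat_lit 1) (.e (nat_lit 184582) (nat_lit 0) .nil) .nil))))) (.nd (nat_lit 8) (.nd (nat_lit 9) 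
(.lf (nat_lit 505994) (.g (nat_lit 1889) (.e (nat_lit 164327) (nat_lit 230) (.e (nat_lit 163882) (nat_lit 4) (.e (nat_lit 213032) (nat_lit 11) (.e (nat_lit 24660) (nat_lit 13) (.e (nat_lit 393277) (nat_lit 23) (.e (nat_lit 426103) (nat_lit 1) .nil)))))) (.g (nat_lit 1) (.e (nat_lit 182912) (nat_lit 0) .nil) .nil))) 
(.lf (nat_lit 506506) (.g (nat_lit 4171) (.e (nat_lit 164331) (nat_lit 230) (.e (nat_lit 163873) (nat_lit 3) (.e (nat_lit 204813) (nat_lit 9) (.e (nat_lit 426012) (nat_lit 0) .nil)))) (.g (nat_lit 0) (.e (nat_lit 184278) (nat_lit 0) .nil) .nil)))) (.nd (nat_lit 9) 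
(.lf (nat_lit 506250) (.g (nat_lit 1948) (.e (nat_lit 164329) (nat_lit 230) (.e (nat_lit 163941) (nat_lit 19) (.e (nat_lit 483337) (nat_lit 9) (.e (nat_lit 426306) (nat_lit 12) (.e (nat_lit 475178) (nat_lit 24) .nil))))) (.g (nat_lit 0) (.e (nat_lit 183702) (nat_lit 0) .nil) .nil))) 
(.lf (nat_lit 506762) (.g (nat_lit 2328) (.e (nat_lit 164332) (nat_lit 230) (.e (nat_lit 163902) (nat_lit 12) (.e (nat_lit 426566) (nat_lit 34) (.e (nat_lit 393266) (nat_lit 23) .nil)))) (.g (nat_lit 0) (.e (nat_lit 184838) (nat_lit 0) .nil) .nil)))))) (.nd (nat_lit 7) (.nd (nat_lit 8) (.nd (nat_lit 9) 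
(.lf (nat_lit 505930) (.g (nat_lit 826) (.e (nat_lit 164327) (nat_lit 230) (.e (nat_lit 163875) (nat_lit 3) (.e (nat_lit 204804) (nat_lit 0) .nil))) (.g (nat_lit 0) (.e (nat_lit 182801) (nat_lit 0) .nil) .nil))) 
(.lf (nat_lit 506442) (.g (nat_lit 1547) (.e (nat_lit 164330) (nat_lit 230) (.e (nat_lit 163905) (nat_lit 12) (.e (nat_lit 426479) (nat_lit 27) (.e (nat_lit 336414) (nat_lit 27) (.e (nat_lit 426228) (nat_lit 9) .nil))))) (.g (nat_lit 0) (.e (nat_lit 184018) (nat_lit 0) .nil) .nil)))) (.nd (nat_lit 9) 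
(.lf (nat_lit 506186) (.g (nat_lit 3957) (.e (nat_lit 164329) (nat_lit 230) (.e (nat_lit 163902) (nat_lit 12) (.e (nat_lit 426438) (nat_lit 18) (.e (nat_lit 98373) (nat_lit 29) (.e (nat_lit 450562) (nat_lit 0) (.e (nat_lit 6841) (nat_lit 369) (.e (nat_lit 163862) (nat_lit 1) .nil))))))) (.g (nat_lit 1) (.e (nat_lit 183430) (nat_lit 0) .nil) .nil))) 
(.lf (nat_lit 506698) (.g (nat_lit 2118) (.e (nat_lit 164332) (nat_lit 230) (.e (nat_lit 163874) (nat_lit 3) (.e (nat_lit 204829) (nat_lit 18) (.e (nat_lit 57927) (nat_lit 282) (.e (nat_lit 164084) (nat_lit 73) .nil))))) (.g (nat_lit 0) (.e (nat_lit 184702) (nat_lit 0) .nil) .nil))))) (.nd (nat_lit 8) (.nd (nat_lit 9) 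
(.lf (nat_lit 506058) (.g (nat_lit 1537) (.e (nat_lit 164327) (nat_lit 230) (.e (nat_lit 163944) (nat_lit 19) (.e (nat_lit 483346) (nat_lit 17) (.e (nat_lit 2291) (nat_lit 151) .nil)))) (.g (nat_lit 0) (.e (nat_lit 183166) (nat_lit 0) .nil) .nil))) 
(.lf (nat_lit 506570) (.g (nat_lit 3687) (.e (nat_lit 164331) (nat_lit 230) (.e (nat_lit 163942) (nat_lit 19) (.e (nat_lit 483341) (nat_lit 9) (.e (nat_lit 426188) (nat_lit 9) (.e (nat_lit 426436) (nat_lit 18) (.e (nat_lit 98335) (nat_lit 18) .nil)))))) (.g (nat_lit 1) (.e (nat_lit 184456) (nat_lit 0) .nil) .nil)))) (.nd (nat_lit 9) 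
(.lf (nat_lit 506314) (.g (nat_lit 2964) (.e (nat_lit 164330) (nat_lit 230) (.e (nat_lit 163869) (nat_lit 2) (.e (nat_lit 196654) (nat_lit 11) (.e (nat_lit 16416) (nat_lit 3) (.e (nat_lit 204817) (nat_lit 17) .nil))))) (.g (nat_lit 0) (.e (nat_lit 183795) (nat_lit 0) .nil) .nil))) 
(.lf (nat_lit 506826) (.g (nat_lit 1392) (.e (nat_lit 164332) (nat_lit 230) (.e (nat_lit 163905) (nat_lit 12) (.e (nat_lit 426530) (nat_lit 27) (.e (nat_lit 336390) (nat_lit 27) .nil)))) (.g (nat_lit 0) (.e (nat_lit 184975) (nat_lit 0) .nil) .nil))))))) (.nd (nat_lit 6) (.nd (nat_lit 7) (.nd (nat_lit 8) (.nd (nat_lit 9) 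
(.lf (nat_lit 505898) (.g (nat_lit 1632) (.e (nat_lit 164327) (nat_lit 230) (.e (nat_lit 163873) (nat_lit 3) (.e (nat_lit 204811) (nat_lit 9) (.e (nat_lit 426260) (nat_lit 9) (.e (nat_lit 433920) (nat_lit 34) (.e (nat_lit 393253) (nat_lit 18) .nil)))))) (.g (nat_lit 1) (.e (nat_lit 182701) (nat_lit 0) .nil) .nil))) 
(.lf (nat_lit 506410) (.g (nat_lit 4552) (.e (nat_lit 164330) (nat_lit 230) (.e (nat_lit 163902) (nat_lit 12) (.e (nat_lit 426438) (nat_lit 18) (.e (nat_lit 98373) (nat_lit 29) (.e (nat_lit 450563) (nat_lit 0) (.e (nat_lit 6839) (nat_lit 369) (.e (nat_lit 163864) (nat_lit 1) .nil))))))) (.g (nat_lit 1) (.e (nat_lit 183960) (nat_lit 0) .nil) .nil)))) (.nd (nat_lit 9) 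
(.lf (nat_lit 506154) (.g (nat_lit 2637) (.e (nat_lit 164329) (nat_lit 230) (.e (nat_lit 163873) (nat_lit 3) (.e (nat_lit 204813) (nat_lit 9) (.e (nat_lit 433920) (nat_lit 9) .nil)))) (.g (nat_lit 0) (.e (nat_lit 183363) (nat_lit 0) .nil) .nil))) 
(.lf (nat_lit 506666) (.g (nat_lit 625) (.e (nat_lit 164332) (nat_lit 230) (.e (nat_lit 163873) (nat_lit 3) (.e (nat_lit 204812) (nat_lit 9) .nil))) (.g (nat_lit 0) (.e (nat_lit 184626) (nat_lit 0) .nil) .nil))))) (.nd (nat_lit 8) (.nd (nat_lit 9) 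
(.lf (nat_lit 506026) (.g (nat_lit 4034) (.e (nat_lit 164327) (nat_lit 230) (.e (nat_lit 163903) (nat_lit 12) (.e (nat_lit 426566) (nat_lit 34) (.e (nat_lit 393296) (nat_lit 26) (.e (nat_lit 475179) (nat_lit 24) (.e (nat_lit 516115) (nat_lit 1) .nil)))))) (.g (nat_lit 1) (.e (nat_lit 182980) (nat_lit 0) .nil) .nil))) 
(.lf (nat_lit 506538) (.g (nat_lit 2619) (.e (nat_lit 164331) (nat_lit 230) (.e (nat_lit 163902) (nat_lit 12) (.e (nat_lit 426566) (nat_lit 34) (.e (nat_lit 393295) (nat_lit 26) (.e (nat_lit 475179) (nat_lit 24) .nil))))) (.g (nat_lit 0) (.e (nat_lit 184333) (nat_lit 0) .nil) .nil)))) (.nd (nat_lit 9) 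
(.lf (nat_lit 506282) (.g (nat_lit 1341) (.e (nat_lit 164329) (nat_lit 230) (.e (nat_lit 163942) (nat_lit 19) (.e (nat_lit 483341) (nat_lit 9) (.e (nat_lit 426200) (nat_lit 9) (.e (nat_lit 426362) (nat_lit 15) .nil))))) (.g (nat_lit 0) (.e (nat_lit 183745) (nat_lit 0) .nil) .nil))) 
(.lf (nat_lit 506794) (.g (nat_lit 1700) (.e (nat_lit 164332) (nat_lit 230) (.e (nat_lit 163902) (nat_lit 12) (.e (nat_lit 426568) (nat_lit 34) (.e (nat_lit 393295) (nat_lit 26) .nil)))) (.g (nat_lit 0) (.e (nat_lit 184872) (nat_lit 0) .nil) .nil)))))) (.nd (nat_lit 7) (.nd (nat_lit 8) (.nd (nat_lit 9) 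
(.lf (nat_lit 505962) (.g (nat_lit 4259) (.e (nat_lit 164327) (nat_lit 230) (.e (nat_lit 163875) (nat_lit 3) (.e (nat_lit 204837) (nat_lit 20) (.e (nat_lit 114718) (nat_lit 23) (.e (nat_lit 98384) (nat_lit 32) (.e (nat_lit 475177) (nat_lit 24) (.e (nat_lit 516119) (nat_lit 1) .nil))))))) (.g (nat_lit 1) (.e (nat_lit 182875) (nat_lit 0) .nil) .nil))) 
(.lf (nat_lit 506474) (.g (nat_lit 3213) (.e (nat_lit 164330) (nat_lit 230) (.e (nat_lit 163941) (nat_lit 19) (.e (nat_lit 483341) (nat_lit 9) (.e (nat_lit 426204) (nat_lit 9) .nil)))) (.g (nat_lit 0) (.e (nat_lit 184231) (nat_lit 0) .nil) .nil)))) (.nd (nat_lit 9) 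
(.lf (nat_lit 506218) (.g (nat_lit 3979) (.e (nat_lit 164329) (nat_lit 230) (.e (nat_lit 163902) (nat_lit 12) (.e (nat_lit 426568) (nat_lit 34) (.e (nat_lit 393269) (nat_lit 23) (.e (nat_lit 426436) (nat_lit 18) (.e (nat_lit 98335) (nat_lit 18) .nil)))))) (.g (nat_lit 1) (.e (nat_lit 183478) (nat_lit 0) .nil) .nil))) 
(.lf (nat_lit 506730) (.g (nat_lit 1962) (.e (nat_lit 164332) (nat_lit 230) (.e (nat_lit 163902) (nat_lit 12) (.e (nat_lit 426438) (nat_lit 18) (.e (nat_lit 98372) (nat_lit 29) (.e (nat_lit 450568) (nat_lit 0) .nil))))) (.g (nat_lit 0) (.e (nat_lit 184786) (nat_lit 0) .nil) .nil))))) (.nd (nat_lit 8) (.nd (nat_lit 9) 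
(.lf (nat_lit 506090) (.g (nat_lit 940) (.e (nat_lit 164329) (nat_lit 230) (.e (nat_lit 163867) (nat_lit 2) (.e (nat_lit 196628) (nat_lit 9) (.e (nat_lit 458) (nat_lit 34) .nil)))) (.g (nat_lit 0) (.e (nat_lit 183286) (nat_lit 0) .nil) .nil))) 
(.lf (nat_lit 506602) (.g (nat_lit 327) (.e (nat_lit 164332) (nat_lit 230) (.e (nat_lit 163867) (nat_lit 2) (.e (nat_lit 196656) (nat_lit 11) .nil))) (.g (nat_lit 0) (.e (nat_lit 184517) (nat_lit 0) .nil) .nil)))) (.nd (nat_lit 9) 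
(.lf (nat_lit 506346) (.g (nat_lit 3842) (.e (nat_lit 164330) (nat_lit 230) (.e (nat_lit 163873) (nat_lit 3) (.e (nat_lit 204813) (nat_lit 9) (.e (nat_lit 426138) (nat_lit 3) .nil)))) (.g (nat_lit 0) (.e (nat_lit 183849) (nat_lit 0) .nil) .nil))) 
(.lf (nat_lit 506858) (.g (nat_lit 1955) (.e (nat_lit 164332) (nat_lit 230) (.e (nat_lit 163941) (nat_lit 19) (.e (nat_lit 483341) (nat_lit 9) (.e (nat_lit 426198) (nat_lit 9) (.e (nat_lit 433920) (nat_lit 18) (.e (nat_lit 98334) (nat_lit 18) .nil)))))) (.g (nat_lit 1) (.e (nat_lit 185165) (nat_lit 0) .nil) .nil)))))))) 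
(.nd (nat_lit 5) (.nd (nat_lit 6) (.nd (nat_lit 7) (.nd (nat_lit 8) (.nd (nat_lit 9) 
(.lf (nat_lit 505882) (.g (nat_lit 2330) (.e (nat_lit 164327) (nat_lit 230) (.e (nat_lit 163871) (nat_lit 2) (.e (nat_lit 196656) (nat_lit 11) (.e (nat_lit 16439) (nat_lit 9) .nil)))) (.g (nat_lit 0) (.e (nat_lit 182666) (nat_lit 0) .nil) .nil))) 
(.lf (nat_lit 506394) (.g (nat_lit 690) (.e (nat_lit 164330) (nat_lit 230) (.e (nat_lit 163902) (nat_lit 12) (.e (nat_lit 426254) (nat_lit 9) .nil))) (.g (nat_lit 0) (.e (nat_lit 183940) (nat_lit 0) .nil) .nil)))) (.nd (nat_lit 9) 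
(.lf (nat_lit 506138) (.g (nat_lit 3979) (.e (nat_lit 164329) (nat_lit 230) (.e (nat_lit 163873) (nat_lit 3) (.e (nat_lit 204813) (nat_lit 9) (.e (nat_lit 426185) (nat_lit 9) .nil)))) (.g (nat_lit 0) (.e (nat_lit 183347) (nat_lit 0) .nil) .nil))) 
(.lf (nat_lit 506650) (.g (nat_lit 3252) (.e (nat_lit 164332) (nat_lit 230) (.e (nat_lit 163869) (nat_lit 2) (.e (nat_lit 196656) (nat_lit 11) (.e (nat_lit 16438) (nat_lit 9) (.e (nat_lit 426482) (nat_lit 27) (.e (nat_lit 336389) (nat_lit 27) (.e (nat_lit 426105) (nat_lit 1) .nil))))))) (.g (nat_lit 1) (.e (nat_lit 184603) (nat_lit 0) .nil) .nil))))) (.nd (nat_lit 8) (.nd (nat_lit 9) 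
(.lf (nat_lit 506010) (.g (nat_lit 746) (.e (nat_lit 164327) (nat_lit 230) (.e (nat_lit 163903) (nat_lit 12) (.e (nat_lit 426486) (nat_lit 27) .nil))) (.g (nat_lit 0) (.e (nat_lit 182964) (nat_lit 0) .nil) .nil))) 
(.lf (nat_lit 506522) (.g (nat_lit 3720) (.e (nat_lit 164331) (nat_lit 230) (.e (nat_lit 163873) (nat_lit 3) (.e (nat_lit 204813) (nat_lit 9) (.e (nat_lit 426204) (nat_lit 9) .nil)))) (.g (nat_lit 0) (.e (nat_lit 184298) (nat_lit 0) .nil) .nil)))) (.nd (nat_lit 9) 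
(.lf (nat_lit 506266) (.g (nat_lit 4094) (.e (nat_lit 164329) (nat_lit 230) (.e (nat_lit 163941) (nat_lit 19) (.e (nat_lit 483341) (nat_lit 9) (.e (nat_lit 426213) (nat_lit 9) (.e (nat_lit 426396) (nat_lit 15) .nil))))) (.g (nat_lit 0) (.e (nat_lit 183724) (nat_lit 0) .nil) .nil))) 
(.lf (nat_lit 506778) (.g (nat_lit 1366) (.e (nat_lit 164332) (nat_lit 230) (.e (nat_lit 163902) (nat_lit 12) (.e (nat_lit 426568) (nat_lit 34) (.e (nat_lit 393267) (nat_lit 23) .nil)))) (.g (nat_lit 0) (.e (nat_lit 184854) (nat_lit 0) .nil) .nil)))))) (.nd (nat_lit 7) (.nd (nat_lit 8) (.nd (nat_lit 9) 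
(.lf (nat_lit 505946) (.g (nat_lit 2214) (.e (nat_lit 164327) (nat_lit 230) (.e (nat_lit 163875) (nat_lit 3) (.e (nat_lit 204813) (nat_lit 9) (.e (nat_lit 426188) (nat_lit 9) (.e (nat_lit 426567) (nat_lit 34) .nil))))) (.g (nat_lit 0) (.e (nat_lit 182833) (nat_lit 0) .nil) .nil))) 
(.lf (nat_lit 506458) (.g (nat_lit 1125) (.e (nat_lit 164330) (nat_lit 230) (.e (nat_lit 163913) (nat_lit 12) (.e (nat_lit 426503) (nat_lit 27) (.e (nat_lit 336387) (nat_lit 27) .nil)))) (.g (nat_lit 0) (.e (nat_lit 184089) (nat_lit 0) .nil) .nil)))) (.nd (nat_lit 9) 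
(.lf (nat_lit 506202) (.g (nat_lit 886) (.e (nat_lit 164329) (nat_lit 230) (.e (nat_lit 163902) (nat_lit 12) (.e (nat_lit 426484) (nat_lit 27) .nil))) (.g (nat_lit 0) (.e (nat_lit 183449) (nat_lit 0) .nil) .nil))) 
(.lf (nat_lit 506714) (.g (nat_lit 2199) (.e (nat_lit 164332) (nat_lit 230) (.e (nat_lit 163880) (nat_lit 4) (.e (nat_lit 213032) (nat_lit 11) (.e (nat_lit 24656) (nat_lit 13) (.e (nat_lit 393281) (nat_lit 23) (.e (nat_lit 426099) (nat_lit 1) .nil)))))) (.g (nat_lit 1) (.e (nat_lit 184719) (nat_lit 0) .nil) .nil))))) (.nd (nat_lit 8) (.nd (nat_lit 9) 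
(.lf (nat_lit 506074) (.g (nat_lit 2785) (.e (nat_lit 164329) (nat_lit 230) (.e (nat_lit 163850) (nat_lit 0) (.e (nat_lit 3238) (nat_lit 197) (.e (nat_lit 532579) (nat_lit 26) (.e (nat_lit 426188) (nat_lit 9) (.e (nat_lit 426566) (nat_lit 34) (.e (nat_lit 393254) (nat_lit 18) .nil))))))) (.g (nat_lit 1) (.e (nat_lit 183239) (nat_lit 0) .nil) .nil))) 
(.lf (nat_lit 506586) (.g (nat_lit 554) (.e (nat_lit 164332) (nat_lit 230) (.e (nat_lit 163867) (nat_lit 2) (.e (nat_lit 196628) (nat_lit 9) .nil))) (.g (nat_lit 0) (.e (nat_lit 184493) (nat_lit 0) .nil) .nil)))) (.nd (nat_lit 9) 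
(.lf (nat_lit 506330) (.g (nat_lit 2743) (.e (nat_lit 164330) (nat_lit 230) (.e (nat_lit 163869) (nat_lit 2) (.e (nat_lit 196656) (nat_lit 11) (.e (nat_lit 16466) (nat_lit 13) (.e (nat_lit 483341) (nat_lit 9) (.e (nat_lit 426100) (nat_lit 1) .nil)))))) (.g (nat_lit 1) (.e (nat_lit 183817) (nat_lit 0) .nil) .nil))) 
(.lf (nat_lit 506842) (.g (nat_lit 1366) (.e (nat_lit 164332) (nat_lit 230) (.e (nat_lit 163905) (nat_lit 12) (.e (nat_lit 426568) (nat_lit 34) (.e (nat_lit 393295) (nat_lit 26) .nil)))) (.g (nat_lit 0) (.e (nat_lit 185012) (nat_lit 0) .nil) .nil))))))) (.nd (nat_lit 6) (.nd (nat_lit 7) (.nd (nat_lit 8) (.nd (nat_lit 9) 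
(.lf (nat_lit 505914) (.g (nat_lit 2256) (.e (nat_lit 164327) (nat_lit 230) (.e (nat_lit 163873) (nat_lit 3) (.e (nat_lit 204813) (nat_lit 9) (.e (nat_lit 426188) (nat_lit 9) (.e (nat_lit 426491) (nat_lit 27) .nil))))) (.g (nat_lit 0) (.e (nat_lit 182744) (nat_lit 0) .nil) .nil))) 
(.lf (nat_lit 506426) (.g (nat_lit 3745) (.e (nat_lit 164330) (nat_lit 230) (.e (nat_lit 163902) (nat_lit 12) (.e (nat_lit 426481) (nat_lit 27) (.e (nat_lit 336389) (nat_lit 27) (.e (nat_lit 426308) (nat_lit 12) (.e (nat_lit 475177) (nat_lit 24) (.e (nat_lit 516120) (nat_lit 1) .nil))))))) (.g (nat_lit 1) (.e (nat_lit 183976) (nat_lit 0) .nil) .nil)))) (.nd (nat_lit 9) 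
(.lf (nat_lit 506170) (.g (nat_lit 3162) (.e (nat_lit 164329) (nat_lit 230) (.e (nat_lit 163902) (nat_lit 12) (.e (nat_lit 426422) (nat_lit 16) (.e (nat_lit 57688) (nat_lit 156) (.e (nat_lit 163933) (nat_lit 17) (.e (nat_lit 466972) (nat_lit 21) (.e (nat_lit 164332) (nat_lit 230) (.e (nat_lit 163860) (nat_lit 1) .nil)))))))) (.g (nat_lit 1) (.e (nat_lit 183409) (nat_lit 0) .nil) .nil))) 
(.lf (nat_lit 506682) (.g (nat_lit 1016) (.e (nat_lit 164332) (nat_lit 230) (.e (nat_lit 163873) (nat_lit 3) (.e (nat_lit 204813) (nat_lit 9) (.e (nat_lit 426200) (nat_lit 9) .nil)))) (.g (nat_lit 0) (.e (nat_lit 184654) (nat_lit 0) .nil) .nil))))) (.nd (nat_lit 8) (.nd (nat_lit 9) 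
(.lf (nat_lit 506042) (.g (nat_lit 1657) (.e (nat_lit 164327) (nat_lit 230) (.e (nat_lit 163907) (nat_lit 12) (.e (nat_lit 426566) (nat_lit 34) (.e (nat_lit 393293) (nat_lit 26) (.e (nat_lit 475176) (nat_lit 24) .nil))))) (.g (nat_lit 0) (.e (nat_lit 183026) (nat_lit 0) .nil) .nil))) 
(.lf (nat_lit 506554) (.g (nat_lit 1982) (.e (nat_lit 164331) (nat_lit 230) (.e (nat_lit 163905) (nat_lit 12) (.e (nat_lit 426566) (nat_lit 34) (.e (nat_lit 393296) (nat_lit 26) .nil)))) (.g (nat_lit 0) (.e (nat_lit 184354) (nat_lit 0) .nil) .nil)))) (.nd (nat_lit 9) 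
(.lf (nat_lit 506298) (.g (nat_lit 2236) (.e (nat_lit 164330) (nat_lit 230) (.e (nat_lit 163867) (nat_lit 2) (.e (nat_lit 196656) (nat_lit 11) (.e (nat_lit 16431) (nat_lit 9) (.e (nat_lit 426566) (nat_lit 34) .nil))))) (.g (nat_lit 0) (.e (nat_lit 183773) (nat_lit 0) .nil) .nil))) 
(.lf (nat_lit 506810) (.g (nat_lit 1736) (.e (nat_lit 164332) (nat_lit 230) (.e (nat_lit 163905) (nat_lit 12) (.e (nat_lit 426472) (nat_lit 25) (.e (nat_lit 319533) (nat_lit 16) (.e (nat_lit 286753) (nat_lit 10) (.e (nat_lit 344088) (nat_lit 18) (.e (nat_lit 7292) (nat_lit 386) (.e (nat_lit 163861) (nat_lit 1) .nil)))))))) (.g (nat_lit 1) (.e (nat_lit 184940) (nat_lit 0) .nil) .nil)))))) 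
(.nd (nat_lit 7) (.nd (nat_lit 8) (.nd (nat_lit 9) 
(.lf (nat_lit 505978) (.g (nat_lit 3054) (.e (nat_lit 164327) (nat_lit 230) (.e (nat_lit 163881) (nat_lit 4) (.e (nat_lit 213032) (nat_lit 11) (.e (nat_lit 24630) (nat_lit 9) (.e (nat_lit 336443) (nat_lit 32) (.e (nat_lit 466971) (nat_lit 21) .nil)))))) (.g (nat_lit 1) (.e (nat_lit 182893) (nat_lit 0) .nil) .nil))) 
(.lf (nat_lit 506490) (.g (nat_lit 2634) (.e (nat_lit 164331) (nat_lit 230) (.e (nat_lit 163867) (nat_lit 2) (.e (nat_lit 196654) (nat_lit 11) (.e (nat_lit 16463) (nat_lit 13) (.e (nat_lit 483336) (nat_lit 9) (.e (nat_lit 426108) (nat_lit 1) .nil)))))) (.g (nat_lit 1) (.e (nat_lit 184258) (nat_lit 0) .nil) .nil)))) (.nd (nat_lit 9) 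
(.lf (nat_lit 506234) (.g (nat_lit 2763) (.e (nat_lit 164329) (nat_lit 230) (.e (nat_lit 163902) (nat_lit 12) (.e (nat_lit 426568) (nat_lit 34) (.e (nat_lit 393292) (nat_lit 26) (.e (nat_lit 475178) (nat_lit 24) (.e (nat_lit 516117) (nat_lit 1) .nil)))))) (.g (nat_lit 1) (.e (nat_lit 183494) (nat_lit 0) .nil) .nil))) 
(.lf (nat_lit 506746) (.g (nat_lit 2586) (.e (nat_lit 164332) (nat_lit 230) (.e (nat_lit 163902) (nat_lit 12) (.e (nat_lit 426472) (nat_lit 25) (.e (nat_lit 319534) (nat_lit 16) (.e (nat_lit 286749) (nat_lit 9) (.e (nat_lit 335997) (nat_lit 1) (.e (nat_lit 57691) (nat_lit 156) (.e (nat_lit 163862) (nat_lit 1) .nil)))))))) (.g (nat_lit 1) (.e (nat_lit 184804) (nat_lit 0) .nil) .nil))))) 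
(.nd (nat_lit 8) (.nd (nat_lit 9) 
(.lf (nat_lit 506106) (.g (nat_lit 2698) (.e (nat_lit 164329) (nat_lit 230) (.e (nat_lit 163867) (nat_lit 2) (.e (nat_lit 196656) (nat_lit 11) (.e (nat_lit 16417) (nat_lit 3) (.e (nat_lit 204835) (nat_lit 19) .nil))))) (.g (nat_lit 0) (.e (nat_lit 183305) (nat_lit 0) .nil) .nil))) 
(.lf (nat_lit 506618) (.g (nat_lit 1076) (.e (nat_lit 164332) (nat_lit 230) (.e (nat_lit 163869) (nat_lit 2) (.e (nat_lit 196624) (nat_lit 9) (.e (nat_lit 411) (nat_lit 32) .nil)))) (.g (nat_lit 0) (.e (nat_lit 184558) (nat_lit 0) .nil) .nil)))) (.nd (nat_lit 9) 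
(.lf (nat_lit 506362) (.g (nat_lit 1053) (.e (nat_lit 164330) (nat_lit 230) (.e (nat_lit 163873) (nat_lit 3) (.e (nat_lit 204813) (nat_lit 9) (.e (nat_lit 426200) (nat_lit 9) .nil)))) (.g (nat_lit 0) (.e (nat_lit 183868) (nat_lit 0) .nil) .nil))) 
(.lf (nat_lit 506874) (.g (nat_lit 4463) (.e (nat_lit 164332) (nat_lit 230) (.e (nat_lit 163943) (nat_lit 19) (.e (nat_lit 483341) (nat_lit 9) (.e (nat_lit 426198) (nat_lit 9) (.e (nat_lit 426402) (nat_lit 15) (.e (nat_lit 1788) (nat_lit 119) (.e (nat_lit 516116) (nat_lit 1) .nil))))))) (.g (nat_lit 1) (.e (nat_lit 185202) (nat_lit 0) .nil) .nil)))))))))) 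
(.nd (nat_lit 3) (.nd (nat_lit 4) (.nd (nat_lit 5) (.nd (nat_lit 6) (.nd (nat_lit 7) 
(.nd (nat_lit 8) (.nd (nat_lit 9) 
(.lf (nat_lit 505862) (.g (nat_lit 1591) (.e (nat_lit 164327) (nat_lit 230) (.e (nat_lit 163871) (nat_lit 2) (.e (nat_lit 196655) (nat_lit 11) (.e (nat_lit 16465) (nat_lit 13) (.e (nat_lit 483339) (nat_lit 9) .nil))))) (.g (nat_lit 0) (.e (nat_lit 182637) (nat_lit 0) .nil) .nil))) 
(.lf (nat_lit 506374) (.g (nat_lit 2016) (.e (nat_lit 164330) (nat_lit 230) (.e (nat_lit 163874) (nat_lit 3) (.e (nat_lit 204809) (nat_lit 9) (.e (nat_lit 426139) (nat_lit 3) (.e (nat_lit 204833) (nat_lit 19) .nil))))) (.g (nat_lit 0) (.e (nat_lit 183903) (nat_lit 0) .nil) .nil)))) (.nd (nat_lit 9) 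
(.lf (nat_lit 506118) (.g (nat_lit 2707) (.e (nat_lit 164329) (nat_lit 230) (.e (nat_lit 163869) (nat_lit 2) (.e (nat_lit 196654) (nat_lit 11) (.e (nat_lit 16466) (nat_lit 13) (.e (nat_lit 483337) (nat_lit 9) (.e (nat_lit 426108) (nat_lit 1) .nil)))))) (.g (nat_lit 1) (.e (nat_lit 183321) (nat_lit 0) .nil) .nil))) 
(.lf (nat_lit 506630) (.g (nat_lit 938) (.e (nat_lit 164332) (nat_lit 230) (.e (nat_lit 163869) (nat_lit 2) (.e (nat_lit 196654) (nat_lit 11) (.e (nat_lit 16436) (nat_lit 9) .nil)))) (.g (nat_lit 0) (.e (nat_lit 184576) (nat_lit 0) .nil) .nil))))) (.nd (nat_lit 8) (.nd (nat_lit 9) 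
(.lf (nat_lit 505990) (.g (nat_lit 3488) (.e (nat_lit 164327) (nat_lit 230) (.e (nat_lit 163882) (nat_lit 4) (.e (nat_lit 213032) (nat_lit 11) (.e (nat_lit 24657) (nat_lit 13) (.e (nat_lit 393271) (nat_lit 23) (.e (nat_lit 426112) (nat_lit 1) .nil)))))) (.g (nat_lit 1) (.e (nat_lit 182908) (nat_lit 0) .nil) .nil))) 
(.lf (nat_lit 506502) (.g (nat_lit 2213) (.e (nat_lit 164331) (nat_lit 230) (.e (nat_lit 163867) (nat_lit 2) (.e (nat_lit 196656) (nat_lit 11) (.e (nat_lit 16466) (nat_lit 13) (.e (nat_lit 483341) (nat_lit 9) .nil))))) (.g (nat_lit 0) (.e (nat_lit 184271) (nat_lit 0) .nil) .nil)))) (.nd (nat_lit 9) 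
(.lf (nat_lit 506246) (.g (nat_lit 721) (.e (nat_lit 164329) (nat_lit 230) (.e (nat_lit 163941) (nat_lit 19) (.e (nat_lit 483335) (nat_lit 0) .nil))) (.g (nat_lit 0) (.e (nat_lit 183693) (nat_lit 0) .nil) .nil))) 
(.lf (nat_lit 506758) (.g (nat_lit 655) (.e (nat_lit 164332) (nat_lit 230) (.e (nat_lit 163902) (nat_lit 12) (.e (nat_lit 426486) (nat_lit 27) .nil))) (.g (nat_lit 0) (.e (nat_lit 184818) (nat_lit 0) .nil) .nil)))))) (.nd (nat_lit 7) (.nd (nat_lit 8) (.nd (nat_lit 9) 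
(.lf (nat_lit 505926) (.g (nat_lit 4086) (.e (nat_lit 164327) (nat_lit 230) (.e (nat_lit 163873) (nat_lit 3) (.e (nat_lit 204813) (nat_lit 9) (.e (nat_lit 426258) (nat_lit 9) .nil)))) (.g (nat_lit 0) (.e (nat_lit 182761) (nat_lit 0) .nil) .nil))) 
(.lf (nat_lit 506438) (.g (nat_lit 1519) (.e (nat_lit 164330) (nat_lit 230) (.e (nat_lit 163902) (nat_lit 12) (.e (nat_lit 426568) (nat_lit 34) (.e (nat_lit 393294) (nat_lit 26) .nil)))) (.g (nat_lit 0) (.e (nat_lit 183999) (nat_lit 0) .nil) .nil)))) (.nd (nat_lit 9) 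
(.lf (nat_lit 506182) (.g (nat_lit 1781) (.e (nat_lit 164329) (nat_lit 230) (.e (nat_lit 163902) (nat_lit 12) (.e (nat_lit 426438) (nat_lit 18) (.e (nat_lit 98372) (nat_lit 29) (.e (nat_lit 450568) (nat_lit 0) (.e (nat_lit 7936) (nat_lit 369) (.e (nat_lit 163864) (nat_lit 1) .nil))))))) (.g (nat_lit 1) (.e (nat_lit 183426) (nat_lit 0) .nil) .nil))) 
(.lf (nat_lit 506694) (.g (nat_lit 330) (.e (nat_lit 164332) (nat_lit 230) (.e (nat_lit 163874) (nat_lit 3) (.e (nat_lit 204813) (nat_lit 9) .nil))) (.g (nat_lit 0) (.e (nat_lit 184687) (nat_lit 0) .nil) .nil))))) (.nd (nat_lit 8) (.nd (nat_lit 9) 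
(.lf (nat_lit 506054) (.g (nat_lit 3196) (.e (nat_lit 164327) (nat_lit 230) (.e (nat_lit 163941) (nat_lit 19) (.e (nat_lit 483341) (nat_lit 9) (.e (nat_lit 426258) (nat_lit 9) .nil)))) (.g (nat_lit 0) (.e (nat_lit 183147) (nat_lit 0) .nil) .nil))) 
(.lf (nat_lit 506566) (.g (nat_lit 4210) (.e (nat_lit 164331) (nat_lit 230) (.e (nat_lit 163941) (nat_lit 19) (.e (nat_lit 483341) (nat_lit 9) (.e (nat_lit 426220) (nat_lit 9) .nil)))) (.g (nat_lit 0) (.e (nat_lit 184443) (nat_lit 0) .nil) .nil)))) (.nd (nat_lit 9) 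
(.lf (nat_lit 506310) (.g (nat_lit 1018) (.e (nat_lit 164330) (nat_lit 230) (.e (nat_lit 163869) (nat_lit 2) (.e (nat_lit 196628) (nat_lit 9) (.e (nat_lit 423) (nat_lit 32) .nil)))) (.g (nat_lit 0) (.e (nat_lit 183790) (nat_lit 0) .nil) .nil))) 
(.lf (nat_lit 506822) (.g (nat_lit 1094) (.e (nat_lit 164332) (nat_lit 230) (.e (nat_lit 163905) (nat_lit 12) (.e (nat_lit 426509) (nat_lit 27) (.e (nat_lit 336412) (nat_lit 27) .nil)))) (.g (nat_lit 0) (.e (nat_lit 184971) (nat_lit 0) .nil) .nil))))))) (.nd (nat_lit 6) (.nd (nat_lit 7) (.nd (nat_lit 8) (.nd (nat_lit 9) 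
(.lf (nat_lit 505894) (.g (nat_lit 291) (.e (nat_lit 164327) (nat_lit 230) (.e (nat_lit 163873) (nat_lit 3) (.e (nat_lit 204809) (nat_lit 9) .nil))) (.g (nat_lit 0) (.e (nat_lit 182690) (nat_lit 0) .nil) .nil))) 
(.lf (nat_lit 506406) (.g (nat_lit 4640) (.e (nat_lit 164330) (nat_lit 230) (.e (nat_lit 163902) (nat_lit 12) (.e (nat_lit 426438) (nat_lit 18) (.e (nat_lit 98373) (nat_lit 29) (.e (nat_lit 450562) (nat_lit 0) (.e (nat_lit 6839) (nat_lit 369) (.e (nat_lit 163864) (nat_lit 1) .nil))))))) (.g (nat_lit 1) (.e (nat_lit 183956) (nat_lit 0) .nil) .nil)))) (.nd (nat_lit 9) 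
(.lf (nat_lit 506150) (.g (nat_lit 4395) (.e (nat_lit 164329) (nat_lit 230) (.e (nat_lit 163873) (nat_lit 3) (.e (nat_lit 204813) (nat_lit 9) (.e (nat_lit 426213) (nat_lit 9) .nil)))) (.g (nat_lit 0) (.e (nat_lit 183359) (nat_lit 0) .nil) .nil))) 
(.lf (nat_lit 506662) (.g (nat_lit 313) (.e (nat_lit 164332) (nat_lit 230) (.e (nat_lit 163873) (nat_lit 3) (.e (nat_lit 204809) (nat_lit 9) .nil))) (.g (nat_lit 0) (.e (nat_lit 184620) (nat_lit 0) .nil) .nil))))) (.nd (nat_lit 8) (.nd (nat_lit 9) 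
(.lf (nat_lit 506022) (.g (nat_lit 1915) (.e (nat_lit 164327) (nat_lit 230) (.e (nat_lit 163903) (nat_lit 12) (.e (nat_lit 426566) (nat_lit 34) (.e (nat_lit 393293) (nat_lit 26) (.e (nat_lit 475176) (nat_lit 24) .nil))))) (.g (nat_lit 0) (.e (nat_lit 182976) (nat_lit 0) .nil) .nil))) 
(.lf (nat_lit 506534) (.g (nat_lit 1255) (.e (nat_lit 164331) (nat_lit 230) (.e (nat_lit 163902) (nat_lit 12) (.e (nat_lit 426479) (nat_lit 27) (.e (nat_lit 336414) (nat_lit 27) .nil)))) (.g (nat_lit 0) (.e (nat_lit 184326) (nat_lit 0) .nil) .nil)))) (.nd (nat_lit 9) 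
(.lf (nat_lit 506278) (.g (nat_lit 6125) (.e (nat_lit 164329) (nat_lit 230) (.e (nat_lit 163942) (nat_lit 19) (.e (nat_lit 483341) (nat_lit 9) (.e (nat_lit 426197) (nat_lit 9) (.e (nat_lit 426436) (nat_lit 18) (.e (nat_lit 98335) (nat_lit 18) .nil)))))) (.g (nat_lit 1) (.e (nat_lit 183741) (nat_lit 0) .nil) .nil))) 
(.lf (nat_lit 506790) (.g (nat_lit 3763) (.e (nat_lit 164332) (nat_lit 230) (.e (nat_lit 163902) (nat_lit 12) (.e (nat_lit 426568) (nat_lit 34) (.e (nat_lit 393291) (nat_lit 26) (.e (nat_lit 475177) (nat_lit 24) (.e (nat_lit 516120) (nat_lit 1) .nil)))))) (.g (nat_lit 1) (.e (nat_lit 184868) (nat_lit 0) .nil) .nil)))))) (.nd (nat_lit 7) (.nd (nat_lit 8) (.nd (nat_lit 9) 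
(.lf (nat_lit 505958) (.g (nat_lit 2915) (.e (nat_lit 164327) (nat_lit 230) (.e (nat_lit 163875) (nat_lit 3) (.e (nat_lit 204830) (nat_lit 18) (.e (nat_lit 57926) (nat_lit 282) (.e (nat_lit 164084) (nat_lit 73) .nil))))) (.g (nat_lit 0) (.e (nat_lit 182871) (nat_lit 0) .nil) .nil))) 
(.lf (nat_lit 506470) (.g (nat_lit 1814) (.e (nat_lit 164330) (nat_lit 230) (.e (nat_lit 163941) (nat_lit 19) (.e (nat_lit 483341) (nat_lit 9) (.e (nat_lit 426198) (nat_lit 9) (.e (nat_lit 426398) (nat_lit 15) .nil))))) (.g (nat_lit 0) (.e (nat_lit 184227) (nat_lit 0) .nil) .nil)))) (.nd (nat_lit 9) 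
(.lf (nat_lit 506214) (.g (nat_lit 2849) (.e (nat_lit 164329) (nat_lit 230) (.e (nat_lit 163902) (nat_lit 12) (.e (nat_lit 426568) (nat_lit 34) (.e (nat_lit 393267) (nat_lit 23) (.e (nat_lit 426437) (nat_lit 18) (.e (nat_lit 98334) (nat_lit 18) .nil)))))) (.g (nat_lit 1) (.e (nat_lit 183473) (nat_lit 0) .nil) .nil))) 
(.lf (nat_lit 506726) (.g (nat_lit 3196) (.e (nat_lit 164332) (nat_lit 230) (.e (nat_lit 163902) (nat_lit 12) (.e (nat_lit 426422) (nat_lit 16) (.e (nat_lit 57688) (nat_lit 156) (.e (nat_lit 163933) (nat_lit 17) (.e (nat_lit 466972) (nat_lit 21) (.e (nat_lit 164332) (nat_lit 230) (.e (nat_lit 163862) (nat_lit 1) .nil)))))))) (.g (nat_lit 1) (.e (nat_lit 184780) (nat_lit 0) .nil) .nil))))) 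
(.nd (nat_lit 8) (.nd (nat_lit 9) 
(.lf (nat_lit 506086) (.g (nat_lit 602) (.e (nat_lit 164329) (nat_lit 230) (.e (nat_lit 163867) (nat_lit 2) (.e (nat_lit 196622) (nat_lit 9) .nil))) (.g (nat_lit 0) (.e (nat_lit 183279) (nat_lit 0) .nil) .nil))) 
(.lf (nat_lit 506598) (.g (nat_lit 4135) (.e (nat_lit 164332) (nat_lit 230) (.e (nat_lit 163867) (nat_lit 2) (.e (nat_lit 196654) (nat_lit 11) (.e (nat_lit 16463) (nat_lit 13) (.e (nat_lit 483337) (nat_lit 9) (.e (nat_lit 426108) (nat_lit 1) .nil)))))) (.g (nat_lit 1) (.e (nat_lit 184513) (nat_lit 0) .nil) .nil)))) (.nd (nat_lit 9) 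
(.lf (nat_lit 506342) (.g (nat_lit 4677) (.e (nat_lit 164330) (nat_lit 230) (.e (nat_lit 163873) (nat_lit 3) (.e (nat_lit 204813) (nat_lit 9) (.e (nat_lit 426031) (nat_lit 0) .nil)))) (.g (nat_lit 0) (.e (nat_lit 183841) (nat_lit 0) .nil) .nil))) 
(.lf (nat_lit 506854) (.g (nat_lit 1708) (.e (nat_lit 164332) (nat_lit 230) (.e (nat_lit 163941) (nat_lit 19) (.e (nat_lit 483341) (nat_lit 9) (.e (nat_lit 426198) (nat_lit 9) (.e (nat_lit 426376) (nat_lit 15) .nil))))) (.g (nat_lit 0) (.e (nat_lit 185161) (nat_lit 0) .nil) .nil)))))))) (.nd (nat_lit 5) (.nd (nat_lit 6) (.nd (nat_lit 7) (.nd (nat_lit 8) (.nd (nat_lit 9) 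
(.lf (nat_lit 505878) (.g (nat_lit 2391) (.e (nat_lit 164327) (nat_lit 230) (.e (nat_lit 163871) (nat_lit 2) (.e (nat_lit 196656) (nat_lit 11) (.e (nat_lit 16437) (nat_lit 9) (.e (nat_lit 426566) (nat_lit 34) .nil))))) (.g (nat_lit 0) (.e (nat_lit 182662) (nat_lit 0) .nil) .nil))) 
(.lf (nat_lit 506390) (.g (nat_lit 2524) (.e (nat_lit 164330) (nat_lit 230) (.e (nat_lit 163896) (nat_lit 10) (.e (nat_lit 409602) (nat_lit 0) (.e (nat_lit 5629) (nat_lit 312) (.e (nat_lit 311) (nat_lit 23) (.e (nat_lit 360192) (nat_lit 5) (.e (nat_lit 221208) (nat_lit 21) .nil))))))) (.g (nat_lit 1) (.e (nat_lit 183919) (nat_lit 0) .nil) .nil)))) (.nd (nat_lit 9) 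
(.lf (nat_lit 506134) (.g (nat_lit 4643) (.e (nat_lit 164329) (nat_lit 230) (.e (nat_lit 163873) (nat_lit 3) (.e (nat_lit 204813) (nat_lit 9) (.e (nat_lit 426132) (nat_lit 3) .nil)))) (.g (nat_lit 0) (.e (nat_lit 183343) (nat_lit 0) .nil) .nil))) 
(.lf (nat_lit 506646) (.g (nat_lit 2118) (.e (nat_lit 164332) (nat_lit 230) (.e (nat_lit 163869) (nat_lit 2) (.e (nat_lit 196656) (nat_lit 11) (.e (nat_lit 16433) (nat_lit 9) (.e (nat_lit 426564) (nat_lit 34) .nil))))) (.g (nat_lit 0) (.e (nat_lit 184599) (nat_lit 0) .nil) .nil))))) (.nd (nat_lit 8) (.nd (nat_lit 9) 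
(.lf (nat_lit 506006) (.g (nat_lit 2069) (.e (nat_lit 164327) (nat_lit 230) (.e (nat_lit 163903) (nat_lit 12) (.e (nat_lit 426480) (nat_lit 27) (.e (nat_lit 336389) (nat_lit 27) (.e (nat_lit 426190) (nat_lit 9) .nil))))) (.g (nat_lit 0) (.e (nat_lit 182959) (nat_lit 0) .nil) .nil))) 
(.lf (nat_lit 506518) (.g (nat_lit 2405) (.e (nat_lit 164331) (nat_lit 230) (.e (nat_lit 163873) (nat_lit 3) (.e (nat_lit 204813) (nat_lit 9) (.e (nat_lit 426199) (nat_lit 9) .nil)))) (.g (nat_lit 0) (.e (nat_lit 184293) (nat_lit 0) .nil) .nil)))) (.nd (nat_lit 9) 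
(.lf (nat_lit 506262) (.g (nat_lit 2487) (.e (nat_lit 164329) (nat_lit 230) (.e (nat_lit 163941) (nat_lit 19) (.e (nat_lit 483341) (nat_lit 9) (.e (nat_lit 426196) (nat_lit 9) .nil)))) (.g (nat_lit 0) (.e (nat_lit 183719) (nat_lit 0) .nil) .nil))) 
(.lf (nat_lit 506774) (.g (nat_lit 1957) (.e (nat_lit 164332) (nat_lit 230) (.e (nat_lit 163902) (nat_lit 12) (.e (nat_lit 426566) (nat_lit 34) (.e (nat_lit 393296) (nat_lit 26) (.e (nat_lit 475175) (nat_lit 24) .nil))))) (.g (nat_lit 0) (.e (nat_lit 184850) (nat_lit 0) .nil) .nil)))))) (.nd (nat_lit 7) (.nd (nat_lit 8) (.nd (nat_lit 9) 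
(.lf (nat_lit 505942) (.g (nat_lit 653) (.e (nat_lit 164327) (nat_lit 230) (.e (nat_lit 163875) (nat_lit 3) (.e (nat_lit 204812) (nat_lit 9) .nil))) (.g (nat_lit 0) (.e (nat_lit 182826) (nat_lit 0) .nil) .nil))) 
(.lf (nat_lit 506454) (.g (nat_lit 2177) (.e (nat_lit 164330) (nat_lit 230) (.e (nat_lit 163905) (nat_lit 12) (.e (nat_lit 426568) (nat_lit 34) (.e (nat_lit 393271) (nat_lit 23) (.e (nat_lit 426438) (nat_lit 18) .nil))))) (.g (nat_lit 0) (.e (nat_lit 184041) (nat_lit 0) .nil) .nil)))) (.nd (nat_lit 9) 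
(.lf (nat_lit 506198) (.g (nat_lit 1829) (.e (nat_lit 164329) (nat_lit 230) (.e (nat_lit 163902) (nat_lit 12) (.e (nat_lit 426479) (nat_lit 27) (.e (nat_lit 336443) (nat_lit 32) (.e (nat_lit 466949) (nat_lit 0) .nil))))) (.g (nat_lit 0) (.e (nat_lit 183444) (nat_lit 0) .nil) .nil))) 
(.lf (nat_lit 506710) (.g (nat_lit 2225) (.e (nat_lit 164332) (nat_lit 230) (.e (nat_lit 163880) (nat_lit 4) (.e (nat_lit 213030) (nat_lit 11) (.e (nat_lit 24656) (nat_lit 13) (.e (nat_lit 393281) (nat_lit 23) (.e (nat_lit 426099) (nat_lit 1) .nil)))))) (.g (nat_lit 1) (.e (nat_lit 184715) (nat_lit 0) .nil) .nil))))) (.nd (nat_lit 8) (.nd (nat_lit 9) 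
(.lf (nat_lit 506070) (.g (nat_lit 692) (.e (nat_lit 164328) (nat_lit 230) (.e (nat_lit 163874) (nat_lit 3) (.e (nat_lit 204813) (nat_lit 9) .nil))) (.g (nat_lit 0) (.e (nat_lit 183186) (nat_lit 0) .nil) .nil))) 
(.lf (nat_lit 506582) (.g (nat_lit 373) (.e (nat_lit 164332) (nat_lit 230) (.e (nat_lit 163867) (nat_lit 2) (.e (nat_lit 196624) (nat_lit 9) .nil))) (.g (nat_lit 0) (.e (nat_lit 184484) (nat_lit 0) .nil) .nil)))) (.nd (nat_lit 9) 
(.lf (nat_lit 506326) (.g (nat_lit 2096) (.e (nat_lit 164330) (nat_lit 230) (.e (nat_lit 163869) (nat_lit 2) (.e (nat_lit 196656) (nat_lit 11) (.e (nat_lit 16417) (nat_lit 3) .nil)))) (.g (nat_lit 0) (.e (nat_lit 183810) (nat_lit 0) .nil) .nil))) 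
(.lf (nat_lit 506838) (.g (nat_lit 1283) (.e (nat_lit 164332) (nat_lit 230) (.e (nat_lit 163905) (nat_lit 12) (.e (nat_lit 426568) (nat_lit 34) (.e (nat_lit 393234) (nat_lit 17) .nil)))) (.g (nat_lit 0) (.e (nat_lit 185007) (nat_lit 0) .nil) .nil))))))) (.nd (nat_lit 6) (.nd (nat_lit 7) (.nd (nat_lit 8) (.nd (nat_lit 9) 
(.lf (nat_lit 505910) (.g (nat_lit 2166) (.e (nat_lit 164327) (nat_lit 230) (.e (nat_lit 163873) (nat_lit 3) (.e (nat_lit 204813) (nat_lit 9) (.e (nat_lit 426139) (nat_lit 3) .nil)))) (.g (nat_lit 0) (.e (nat_lit 182731) (nat_lit 0) .nil) .nil))) 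
(.lf (nat_lit 506422) (.g (nat_lit 2735) (.e (nat_lit 164330) (nat_lit 230) (.e (nat_lit 163902) (nat_lit 12) (.e (nat_lit 426472) (nat_lit 25) (.e (nat_lit 319534) (nat_lit 16) (.e (nat_lit 286756) (nat_lit 10) (.e (nat_lit 344087) (nat_lit 18) (.e (nat_lit 7290) (nat_lit 386) (.e (nat_lit 163864) (nat_lit 1) .nil)))))))) (.g (nat_lit 1) (.e (nat_lit 183972) (nat_lit 0) .nil) .nil)))) 
(.nd (nat_lit 9) 
(.lf (nat_lit 506166) (.g (nat_lit 2747) (.e (nat_lit 164329) (nat_lit 230) (.e (nat_lit 163901) (nat_lit 12) (.e (nat_lit 426566) (nat_lit 34) (.e (nat_lit 393296) (nat_lit 26) (.e (nat_lit 475178) (nat_lit 24) (.e (nat_lit 516117) (nat_lit 1) .nil)))))) (.g (nat_lit 1) (.e (nat_lit 183399) (nat_lit 0) .nil) .nil))) 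
(.lf (nat_lit 506678) (.g (nat_lit 2532) (.e (nat_lit 164332) (nat_lit 230) (.e (nat_lit 163873) (nat_lit 3) (.e (nat_lit 204813) (nat_lit 9) (.e (nat_lit 426197) (nat_lit 9) .nil)))) (.g (nat_lit 0) (.e (nat_lit 184649) (nat_lit 0) .nil) .nil))))) (.nd (nat_lit 8) (.nd (nat_lit 9) 
(.lf (nat_lit 506038) (.g (nat_lit 2352) (.e (nat_lit 164327) (nat_lit 230) (.e (nat_lit 163905) (nat_lit 12) (.e (nat_lit 426566) (nat_lit 34) (.e (nat_lit 393296) (nat_lit 26) .nil)))) (.g (nat_lit 0) (.e (nat_lit 182993) (nat_lit 0) .nil) .nil))) 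
(.lf (nat_lit 506550) (.g (nat_lit 1969) (.e (nat_lit 164331) (nat_lit 230) (.e (nat_lit 163902) (nat_lit 12) (.e (nat_lit 426568) (nat_lit 34) (.e (nat_lit 393292) (nat_lit 26) .nil)))) (.g (nat_lit 0) (.e (nat_lit 184345) (nat_lit 0) .nil) .nil)))) (.nd (nat_lit 9) 
(.lf (nat_lit 506294) (.g (nat_lit 2010) (.e (nat_lit 164330) (nat_lit 230) (.e (nat_lit 163867) (nat_lit 2) (.e (nat_lit 196654) (nat_lit 11) (.e (nat_lit 16416) (nat_lit 3) (.e (nat_lit 204833) (nat_lit 19) .nil))))) (.g (nat_lit 0) (.e (nat_lit 183766) (nat_lit 0) .nil) .nil))) 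
(.lf (nat_lit 506806) (.g (nat_lit 3052) (.e (nat_lit 164332) (nat_lit 230) (.e (nat_lit 163905) (nat_lit 12) (.e (nat_lit 426422) (nat_lit 16) (.e (nat_lit 57688) (nat_lit 156) (.e (nat_lit 163932) (nat_lit 17) (.e (nat_lit 466972) (nat_lit 21) (.e (nat_lit 164332) (nat_lit 230) (.e (nat_lit 163862) (nat_lit 1) .nil)))))))) (.g (nat_lit 1) (.e (nat_lit 184929) (nat_lit 0) .nil) .nil)))))) 
(.nd (nat_lit 7) (.nd (nat_lit 8) (.nd (nat_lit 9) 
(.lf (nat_lit 505974) (.g (nat_lit 2779) (.e (nat_lit 164327) (nat_lit 230) (.e (nat_lit 163881) (nat_lit 4) (.e (nat_lit 213030) (nat_lit 11) (.e (nat_lit 24626) (nat_lit 9) (.e (nat_lit 336443) (nat_lit 32) (.e (nat_lit 466971) (nat_lit 21) .nil)))))) (.g (nat_lit 1) (.e (nat_lit 182887) (nat_lit 0) .nil) .nil))) 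
(.lf (nat_lit 506486) (.g (nat_lit 3268) (.e (nat_lit 164331) (nat_lit 230) (.e (nat_lit 163866) (nat_lit 2) (.e (nat_lit 196654) (nat_lit 11) (.e (nat_lit 16466) (nat_lit 13) (.e (nat_lit 483337) (nat_lit 9) (.e (nat_lit 426108) (nat_lit 1) .nil)))))) (.g (nat_lit 1) (.e (nat_lit 184252) (nat_lit 0) .nil) .nil)))) (.nd (nat_lit 9) 
(.lf (nat_lit 506230) (.g (nat_lit 2702) (.e (nat_lit 164329) (nat_lit 230) (.e (nat_lit 163902) (nat_lit 12) (.e (nat_lit 426568) (nat_lit 34) (.e (nat_lit 393291) (nat_lit 26) (.e (nat_lit 475177) (nat_lit 24) (.e (nat_lit 516114) (nat_lit 1) .nil)))))) (.g (nat_lit 1) (.e (nat_lit 183490) (nat_lit 0) .nil) .nil))) 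
(.lf (nat_lit 506742) (.g (nat_lit 3052) (.e (nat_lit 164332) (nat_lit 230) (.e (nat_lit 163902) (nat_lit 12) (.e (nat_lit 426438) (nat_lit 18) (.e (nat_lit 98373) (nat_lit 29) (.e (nat_lit 450568) (nat_lit 0) (.e (nat_lit 7936) (nat_lit 369) (.e (nat_lit 163860) (nat_lit 1) .nil))))))) (.g (nat_lit 1) (.e (nat_lit 184798) (nat_lit 0) .nil) .nil))))) (.nd (nat_lit 8) (.nd (nat_lit 9) 
(.lf (nat_lit 506102) (.g (nat_lit 2523) (.e (nat_lit 164329) (nat_lit 230) (.e (nat_lit 163867) (nat_lit 2) (.e (nat_lit 196656) (nat_lit 11) (.e (nat_lit 16388) (nat_lit 0) (.e (nat_lit 7309) (nat_lit 388) .nil))))) (.g (nat_lit 0) (.e (nat_lit 183300) (nat_lit 0) .nil) .nil))) 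
(.lf (nat_lit 506614) (.g (nat_lit 1729) (.e (nat_lit 164332) (nat_lit 230) (.e (nat_lit 163867) (nat_lit 2) (.e (nat_lit 196656) (nat_lit 11) (.e (nat_lit 16466) (nat_lit 13) (.e (nat_lit 483340) (nat_lit 9) .nil))))) (.g (nat_lit 0) (.e (nat_lit 184553) (nat_lit 0) .nil) .nil)))) (.nd (nat_lit 9) 
(.lf (nat_lit 506358) (.g (nat_lit 2593) (.e (nat_lit 164330) (nat_lit 230) (.e (nat_lit 163873) (nat_lit 3) (.e (nat_lit 204813) (nat_lit 9) (.e (nat_lit 426199) (nat_lit 9) .nil)))) (.g (nat_lit 0) (.e (nat_lit 183863) (nat_lit 0) .nil) .nil))) 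
(.lf (nat_lit 506870) (.g (nat_lit 1275) (.e (nat_lit 164332) (nat_lit 230) (.e (nat_lit 163943) (nat_lit 19) (.e (nat_lit 483341) (nat_lit 9) (.e (nat_lit 426197) (nat_lit 9) .nil)))) (.g (nat_lit 0) (.e (nat_lit 185198) (nat_lit 0) .nil) .nil))))))))) (.nd (nat_lit 4) (.nd (nat_lit 5) (.nd (nat_lit 6) (.nd (nat_lit 7) (.nd (nat_lit 8) (.nd (nat_lit 9) 
(.lf (nat_lit 505870) (.g (nat_lit 3850) (.e (nat_lit 164327) (nat_lit 230) (.e (nat_lit 163871) (nat_lit 2) (.e (nat_lit 196656) (nat_lit 11) (.e (nat_lit 16416) (nat_lit 3) (.e (nat_lit 204838) (nat_lit 20) (.e (nat_lit 114718) (nat_lit 23) (.e (nat_lit 98332) (nat_lit 18) .nil))))))) (.g (nat_lit 1) (.e (nat_lit 182650) (nat_lit 0) .nil) .nil))) 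
(.lf (nat_lit 506382) (.g (nat_lit 1201) (.e (nat_lit 164330) (nat_lit 230) (.e (nat_lit 163874) (nat_lit 3) (.e (nat_lit 204837) (nat_lit 20) (.e (nat_lit 114718) (nat_lit 23) .nil)))) (.g (nat_lit 0) (.e (nat_lit 183911) (nat_lit 0) .nil) .nil)))) (.nd (nat_lit 9) 
(.lf (nat_lit 506126) (.g (nat_lit 1114) (.e (nat_lit 164329) (nat_lit 230) (.e (nat_lit 163873) (nat_lit 3) (.e (nat_lit 204809) (nat_lit 9) (.e (nat_lit 426197) (nat_lit 9) .nil)))) (.g (nat_lit 0) (.e (nat_lit 183329) (nat_lit 0) .nil) .nil))) 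
(.lf (nat_lit 506638) (.g (nat_lit 4185) (.e (nat_lit 164332) (nat_lit 230) (.e (nat_lit 163869) (nat_lit 2) (.e (nat_lit 196654) (nat_lit 11) (.e (nat_lit 16466) (nat_lit 13) (.e (nat_lit 483337) (nat_lit 9) (.e (nat_lit 426108) (nat_lit 1) .nil)))))) (.g (nat_lit 1) (.e (nat_lit 184586) (nat_lit 0) .nil) .nil))))) (.nd (nat_lit 8) (.nd (nat_lit 9) 
(.lf (nat_lit 505998) (.g (nat_lit 2809) (.e (nat_lit 164327) (nat_lit 230) (.e (nat_lit 163902) (nat_lit 12) (.e (nat_lit 426566) (nat_lit 34) (.e (nat_lit 393270) (nat_lit 23) .nil)))) (.g (nat_lit 0) (.e (nat_lit 182941) (nat_lit 0) .nil) .nil))) 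
(.lf (nat_lit 506510) (.g (nat_lit 3228) (.e (nat_lit 164331) (nat_lit 230) (.e (nat_lit 163873) (nat_lit 3) (.e (nat_lit 204813) (nat_lit 9) (.e (nat_lit 426186) (nat_lit 9) .nil)))) (.g (nat_lit 0) (.e (nat_lit 184285) (nat_lit 0) .nil) .nil)))) (.nd (nat_lit 9) 
(.lf (nat_lit 506254) (.g (nat_lit 656) (.e (nat_lit 164329) (nat_lit 230) (.e (nat_lit 163941) (nat_lit 19) (.e (nat_lit 483339) (nat_lit 9) (.e (nat_lit 426318) (nat_lit 12) (.e (nat_lit 475178) (nat_lit 24) .nil))))) (.g (nat_lit 0) (.e (nat_lit 183708) (nat_lit 0) .nil) .nil))) 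
(.lf (nat_lit 506766) (.g (nat_lit 3741) (.e (nat_lit 164332) (nat_lit 230) (.e (nat_lit 163902) (nat_lit 12) (.e (nat_lit 426566) (nat_lit 34) (.e (nat_lit 393290) (nat_lit 26) (.e (nat_lit 475179) (nat_lit 24) (.e (nat_lit 516117) (nat_lit 1) .nil)))))) (.g (nat_lit 1) (.e (nat_lit 184842) (nat_lit 0) .nil) .nil)))))) (.nd (nat_lit 7) (.nd (nat_lit 8) (.nd (nat_lit 9) 
(.lf (nat_lit 505934) (.g (nat_lit 3064) (.e (nat_lit 164327) (nat_lit 230) (.e (nat_lit 163875) (nat_lit 3) (.e (nat_lit 204809) (nat_lit 9) (.e (nat_lit 426139) (nat_lit 3) (.e (nat_lit 204833) (nat_lit 19) (.e (nat_lit 106523) (nat_lit 9) (.e (nat_lit 1254) (nat_lit 92) (.e (nat_lit 98333) (nat_lit 18) .nil)))))))) (.g (nat_lit 1) (.e (nat_lit 182807) (nat_lit 0) .nil) .nil))) 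
(.lf (nat_lit 506446) (.g (nat_lit 1741) (.e (nat_lit 164330) (nat_lit 230) (.e (nat_lit 163905) (nat_lit 12) (.e (nat_lit 426530) (nat_lit 27) (.e (nat_lit 336390) (nat_lit 27) (.e (nat_lit 426307) (nat_lit 12) .nil))))) (.g (nat_lit 0) (.e (nat_lit 184033) (nat_lit 0) .nil) .nil)))) (.nd (nat_lit 9) 
(.lf (nat_lit 506190) (.g (nat_lit 2218) (.e (nat_lit 164329) (nat_lit 230) (.e (nat_lit 163902) (nat_lit 12) (.e (nat_lit 426438) (nat_lit 18) (.e (nat_lit 98374) (nat_lit 29) (.e (nat_lit 450565) (nat_lit 0) (.e (nat_lit 7936) (nat_lit 369) (.e (nat_lit 163860) (nat_lit 1) .nil))))))) (.g (nat_lit 1) (.e (nat_lit 183434) (nat_lit 0) .nil) .nil))) 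
(.lf (nat_lit 506702) (.g (nat_lit 1776) (.e (nat_lit 164332) (nat_lit 230) (.e (nat_lit 163874) (nat_lit 3) (.e (nat_lit 204836) (nat_lit 20) (.e (nat_lit 114718) (nat_lit 23) (.e (nat_lit 98384) (nat_lit 32) .nil))))) (.g (nat_lit 0) (.e (nat_lit 184706) (nat_lit 0) .nil) .nil))))) (.nd (nat_lit 8) (.nd (nat_lit 9) 
(.lf (nat_lit 506062) (.g (nat_lit 2706) (.e (nat_lit 164328) (nat_lit 230) (.e (nat_lit 163869) (nat_lit 2) (.e (nat_lit 196654) (nat_lit 11) (.e (nat_lit 16463) (nat_lit 13) (.e (nat_lit 483341) (nat_lit 9) .nil))))) (.g (nat_lit 0) (.e (nat_lit 183172) (nat_lit 0) .nil) .nil))) 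
(.lf (nat_lit 506574) (.g (nat_lit 688) (.e (nat_lit 164332) (nat_lit 230) (.e (nat_lit 163843) (nat_lit 0) (.e (nat_lit 3616) (nat_lit 226) (.e (nat_lit 770074) (nat_lit 10) .nil)))) (.g (nat_lit 0) (.e (nat_lit 184463) (nat_lit 0) .nil) .nil)))) (.nd (nat_lit 9) 
(.lf (nat_lit 506318) (.g (nat_lit 2188) (.e (nat_lit 164330) (nat_lit 230) (.e (nat_lit 163869) (nat_lit 2) (.e (nat_lit 196654) (nat_lit 11) (.e (nat_lit 16436) (nat_lit 9) (.e (nat_lit 426480) (nat_lit 27) .nil))))) (.g (nat_lit 0) (.e (nat_lit 183799) (nat_lit 0) .nil) .nil))) 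
(.lf (nat_lit 506830) (.g (nat_lit 3591) (.e (nat_lit 164332) (nat_lit 230) (.e (nat_lit 163905) (nat_lit 12) (.e (nat_lit 426530) (nat_lit 27) (.e (nat_lit 336390) (nat_lit 27) (.e (nat_lit 426308) (nat_lit 12) (.e (nat_lit 475179) (nat_lit 24) (.e (nat_lit 516117) (nat_lit 1) .nil))))))) (.g (nat_lit 1) (.e (nat_lit 184979) (nat_lit 0) .nil) .nil))))))) 
(.nd (nat_lit 6) (.nd (nat_lit 7) (.nd (nat_lit 8) (.nd (nat_lit 9) 
(.lf (nat_lit 505902) (.g (nat_lit 3916) (.e (nat_lit 164327) (nat_lit 230) (.e (nat_lit 163873) (nat_lit 3) (.e (nat_lit 204813) (nat_lit 9) (.e (nat_lit 426031) (nat_lit 0) .nil)))) (.g (nat_lit 0) (.e (nat_lit 182715) (nat_lit 0) .nil) .nil))) 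
(.lf (nat_lit 506414) (.g (nat_lit 1968) (.e (nat_lit 164330) (nat_lit 230) (.e (nat_lit 163902) (nat_lit 12) (.e (nat_lit 426438) (nat_lit 18) (.e (nat_lit 98374) (nat_lit 29) (.e (nat_lit 450565) (nat_lit 0) .nil))))) (.g (nat_lit 0) (.e (nat_lit 183964) (nat_lit 0) .nil) .nil)))) (.nd (nat_lit 9) 
(.lf (nat_lit 506158) (.g (nat_lit 1405) (.e (nat_lit 164329) (nat_lit 230) (.e (nat_lit 163874) (nat_lit 3) (.e (nat_lit 204813) (nat_lit 9) (.e (nat_lit 426198) (nat_lit 9) .nil)))) (.g (nat_lit 0) (.e (nat_lit 183377) (nat_lit 0) .nil) .nil))) 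
(.lf (nat_lit 506670) (.g (nat_lit 4106) (.e (nat_lit 164332) (nat_lit 230) (.e (nat_lit 163873) (nat_lit 3) (.e (nat_lit 204813) (nat_lit 9) (.e (nat_lit 426132) (nat_lit 3) .nil)))) (.g (nat_lit 0) (.e (nat_lit 184637) (nat_lit 0) .nil) .nil))))) (.nd (nat_lit 8) (.nd (nat_lit 9) 
(.lf (nat_lit 506030) (.g (nat_lit 3088) (.e (nat_lit 164327) (nat_lit 230) (.e (nat_lit 163903) (nat_lit 12) (.e (nat_lit 426568) (nat_lit 34) (.e (nat_lit 393271) (nat_lit 23) (.e (nat_lit 426438) (nat_lit 18) (.e (nat_lit 98333) (nat_lit 18) .nil)))))) (.g (nat_lit 1) (.e (nat_lit 182985) (nat_lit 0) .nil) .nil))) 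
(.lf (nat_lit 506542) (.g (nat_lit 1772) (.e (nat_lit 164331) (nat_lit 230) (.e (nat_lit 163902) (nat_lit 12) (.e (nat_lit 426568) (nat_lit 34) (.e (nat_lit 393266) (nat_lit 23) .nil)))) (.g (nat_lit 0) (.e (nat_lit 184337) (nat_lit 0) .nil) .nil)))) (.nd (nat_lit 9) 
(.lf (nat_lit 506286) (.g (nat_lit 3765) (.e (nat_lit 164330) (nat_lit 230) (.e (nat_lit 163851) (nat_lit 0) (.e (nat_lit 3307) (nat_lit 202) (.e (nat_lit 573489) (nat_lit 14) (.e (nat_lit 73755) (nat_lit 8) (.e (nat_lit 557096) (nat_lit 13) (.e (nat_lit 179968) (nat_lit 18) (.e (nat_lit 98334) (nat_lit 18) .nil)))))))) (.g (nat_lit 1) (.e (nat_lit 183756) (nat_lit 0) .nil) .nil))) 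
(.lf (nat_lit 506798) (.g (nat_lit 799) (.e (nat_lit 164332) (nat_lit 230) (.e (nat_lit 163905) (nat_lit 12) (.e (nat_lit 426226) (nat_lit 9) .nil))) (.g (nat_lit 0) (.e (nat_lit 184890) (nat_lit 0) .nil) .nil)))))) (.nd (nat_lit 7) (.nd (nat_lit 8) (.nd (nat_lit 9) 
(.lf (nat_lit 505966) (.g (nat_lit 1850) (.e (nat_lit 164327) (nat_lit 230) (.e (nat_lit 163875) (nat_lit 3) (.e (nat_lit 204838) (nat_lit 20) (.e (nat_lit 114717) (nat_lit 23) (.e (nat_lit 98356) (nat_lit 26) .nil))))) (.g (nat_lit 0) (.e (nat_lit 182879) (nat_lit 0) .nil) .nil))) 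
(.lf (nat_lit 506478) (.g (nat_lit 3371) (.e (nat_lit 164330) (nat_lit 230) (.e (nat_lit 163941) (nat_lit 19) (.e (nat_lit 483341) (nat_lit 9) (.e (nat_lit 426258) (nat_lit 9) .nil)))) (.g (nat_lit 0) (.e (nat_lit 184235) (nat_lit 0) .nil) .nil)))) (.nd (nat_lit 9) 
(.lf (nat_lit 506222) (.g (nat_lit 4285) (.e (nat_lit 164329) (nat_lit 230) (.e (nat_lit 163902) (nat_lit 12) (.e (nat_lit 426568) (nat_lit 34) (.e (nat_lit 393271) (nat_lit 23) (.e (nat_lit 426436) (nat_lit 18) (.e (nat_lit 98335) (nat_lit 18) .nil)))))) (.g (nat_lit 1) (.e (nat_lit 183482) (nat_lit 0) .nil) .nil))) 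
(.lf (nat_lit 506734) (.g (nat_lit 4071) (.e (nat_lit 164332) (nat_lit 230) (.e (nat_lit 163902) (nat_lit 12) (.e (nat_lit 426438) (nat_lit 18) (.e (nat_lit 98373) (nat_lit 29) (.e (nat_lit 450562) (nat_lit 0) (.e (nat_lit 6839) (nat_lit 369) (.e (nat_lit 163860) (nat_lit 1) .nil))))))) (.g (nat_lit 1) (.e (nat_lit 184790) (nat_lit 0) .nil) .nil))))) (.nd (nat_lit 8) (.nd (nat_lit 9) 
(.lf (nat_lit 506094) (.g (nat_lit 3145) (.e (nat_lit 164329) (nat_lit 230) (.e (nat_lit 163867) (nat_lit 2) (.e (nat_lit 196654) (nat_lit 11) (.e (nat_lit 16433) (nat_lit 9) (.e (nat_lit 426566) (nat_lit 34) (.e (nat_lit 393254) (nat_lit 18) .nil)))))) (.g (nat_lit 1) (.e (nat_lit 183291) (nat_lit 0) .nil) .nil))) 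
(.lf (nat_lit 506606) (.g (nat_lit 3670) (.e (nat_lit 164332) (nat_lit 230) (.e (nat_lit 163867) (nat_lit 2) (.e (nat_lit 196656) (nat_lit 11) (.e (nat_lit 16433) (nat_lit 9) (.e (nat_lit 426568) (nat_lit 34) (.e (nat_lit 393253) (nat_lit 18) .nil)))))) (.g (nat_lit 1) (.e (nat_lit 184532) (nat_lit 0) .nil) .nil)))) (.nd (nat_lit 9) 
(.lf (nat_lit 506350) (.g (nat_lit 3571) (.e (nat_lit 164330) (nat_lit 230) (.e (nat_lit 163873) (nat_lit 3) (.e (nat_lit 204813) (nat_lit 9) (.e (nat_lit 426186) (nat_lit 9) .nil)))) (.g (nat_lit 0) (.e (nat_lit 183855) (nat_lit 0) .nil) .nil))) 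
(.lf (nat_lit 506862) (.g (nat_lit 3841) (.e (nat_lit 164332) (nat_lit 230) (.e (nat_lit 163941) (nat_lit 19) (.e (nat_lit 483341) (nat_lit 9) (.e (nat_lit 426213) (nat_lit 9) .nil)))) (.g (nat_lit 0) (.e (nat_lit 185169) (nat_lit 0) .nil) .nil)))))))) (.nd (nat_lit 5) (.nd (nat_lit 6) (.nd (nat_lit 7) (.nd (nat_lit 8) (.nd (nat_lit 9) 
(.lf (nat_lit 505886) (.g (nat_lit 3600) (.e (nat_lit 164327) (nat_lit 230) (.e (nat_lit 163871) (nat_lit 2) (.e (nat_lit 196656) (nat_lit 11) (.e (nat_lit 16465) (nat_lit 13) (.e (nat_lit 483338) (nat_lit 9) .nil))))) (.g (nat_lit 0) (.e (nat_lit 182676) (nat_lit 0) .nil) .nil))) 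
(.lf (nat_lit 506398) (.g (nat_lit 3426) (.e (nat_lit 164330) (nat_lit 230) (.e (nat_lit 163902) (nat_lit 12) (.e (nat_lit 426422) (nat_lit 16) (.e (nat_lit 57688) (nat_lit 156) (.e (nat_lit 163933) (nat_lit 17) (.e (nat_lit 466972) (nat_lit 21) (.e (nat_lit 164332) (nat_lit 230) (.e (nat_lit 163862) (nat_lit 1) .nil)))))))) (.g (nat_lit 1) (.e (nat_lit 183947) (nat_lit 0) .nil) .nil)))) 
(.nd (nat_lit 9) 
(.lf (nat_lit 506142) (.g (nat_lit 3579) (.e (nat_lit 164329) (nat_lit 230) (.e (nat_lit 163873) (nat_lit 3) (.e (nat_lit 204813) (nat_lit 9) (.e (nat_lit 426196) (nat_lit 9) .nil)))) (.g (nat_lit 0) (.e (nat_lit 183351) (nat_lit 0) .nil) .nil))) 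
(.lf (nat_lit 506654) (.g (nat_lit 2356) (.e (nat_lit 164332) (nat_lit 230) (.e (nat_lit 163869) (nat_lit 2) (.e (nat_lit 196656) (nat_lit 11) (.e (nat_lit 16463) (nat_lit 13) (.e (nat_lit 483340) (nat_lit 9) .nil))))) (.g (nat_lit 0) (.e (nat_lit 184609) (nat_lit 0) .nil) .nil))))) (.nd (nat_lit 8) (.nd (nat_lit 9) 
(.lf (nat_lit 506014) (.g (nat_lit 1002) (.e (nat_lit 164327) (nat_lit 230) (.e (nat_lit 163903) (nat_lit 12) (.e (nat_lit 426507) (nat_lit 27) (.e (nat_lit 336408) (nat_lit 27) .nil)))) (.g (nat_lit 0) (.e (nat_lit 182968) (nat_lit 0) .nil) .nil))) 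
(.lf (nat_lit 506526) (.g (nat_lit 2498) (.e (nat_lit 164331) (nat_lit 230) (.e (nat_lit 163873) (nat_lit 3) (.e (nat_lit 204813) (nat_lit 9) (.e (nat_lit 433920) (nat_lit 9) .nil)))) (.g (nat_lit 0) (.e (nat_lit 184302) (nat_lit 0) .nil) .nil)))) (.nd (nat_lit 9) 
(.lf (nat_lit 506270) (.g (nat_lit 2565) (.e (nat_lit 164329) (nat_lit 230) (.e (nat_lit 163941) (nat_lit 19) (.e (nat_lit 483341) (nat_lit 9) (.e (nat_lit 426305) (nat_lit 12) .nil)))) (.g (nat_lit 0) (.e (nat_lit 183728) (nat_lit 0) .nil) .nil))) 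
(.lf (nat_lit 506782) (.g (nat_lit 1242) (.e (nat_lit 164332) (nat_lit 230) (.e (nat_lit 163902) (nat_lit 12) (.e (nat_lit 426568) (nat_lit 34) (.e (nat_lit 393271) (nat_lit 23) .nil)))) (.g (nat_lit 0) (.e (nat_lit 184859) (nat_lit 0) .nil) .nil)))))) (.nd (nat_lit 7) (.nd (nat_lit 8) (.nd (nat_lit 9) 
(.lf (nat_lit 505950) (.g (nat_lit 1048) (.e (nat_lit 164327) (nat_lit 230) (.e (nat_lit 163875) (nat_lit 3) (.e (nat_lit 204813) (nat_lit 9) (.e (nat_lit 426199) (nat_lit 9) .nil)))) (.g (nat_lit 0) (.e (nat_lit 182837) (nat_lit 0) .nil) .nil))) 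
(.lf (nat_lit 506462) (.g (nat_lit 1612) (.e (nat_lit 164330) (nat_lit 230) (.e (nat_lit 163915) (nat_lit 12) (.e (nat_lit 426188) (nat_lit 9) (.e (nat_lit 426542) (nat_lit 29) (.e (nat_lit 360192) (nat_lit 5) .nil))))) (.g (nat_lit 0) (.e (nat_lit 184100) (nat_lit 0) .nil) .nil)))) (.nd (nat_lit 9) 
(.lf (nat_lit 506206) (.g (nat_lit 2982) (.e (nat_lit 164329) (nat_lit 230) (.e (nat_lit 163902) (nat_lit 12) (.e (nat_lit 426564) (nat_lit 34) (.e (nat_lit 393296) (nat_lit 26) (.e (nat_lit 475178) (nat_lit 24) (.e (nat_lit 516117) (nat_lit 1) .nil)))))) (.g (nat_lit 1) (.e (nat_lit 183462) (nat_lit 0) .nil) .nil))) 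
(.lf (nat_lit 506718) (.g (nat_lit 2608) (.e (nat_lit 164332) (nat_lit 230) (.e (nat_lit 163885) (nat_lit 5) (.e (nat_lit 221194) (nat_lit 11) (.e (nat_lit 336203) (nat_lit 12) (.e (nat_lit 392960) (nat_lit 15) (.e (nat_lit 237582) (nat_lit 1) .nil)))))) (.g (nat_lit 1) (.e (nat_lit 184726) (nat_lit 0) .nil) .nil))))) (.nd (nat_lit 8) (.nd (nat_lit 9) 
(.lf (nat_lit 506078) (.g (nat_lit 455) (.e (nat_lit 164329) (nat_lit 230) (.e (nat_lit 163850) (nat_lit 0) (.e (nat_lit 3304) (nat_lit 202) .nil))) (.g (nat_lit 0) (.e (nat_lit 183244) (nat_lit 0) .nil) .nil))) 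
(.lf (nat_lit 506590) (.g (nat_lit 1527) (.e (nat_lit 164332) (nat_lit 230) (.e (nat_lit 163867) (nat_lit 2) (.e (nat_lit 196653) (nat_lit 11) (.e (nat_lit 16434) (nat_lit 9) .nil)))) (.g (nat_lit 0) (.e (nat_lit 184502) (nat_lit 0) .nil) .nil)))) (.nd (nat_lit 9) 
(.lf (nat_lit 506334) (.g (nat_lit 1054) (.e (nat_lit 164330) (nat_lit 230) (.e (nat_lit 163873) (nat_lit 3) (.e (nat_lit 204809) (nat_lit 9) (.e (nat_lit 426187) (nat_lit 9) .nil)))) (.g (nat_lit 0) (.e (nat_lit 183822) (nat_lit 0) .nil) .nil))) 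
(.lf (nat_lit 506846) (.g (nat_lit 316) (.e (nat_lit 164332) (nat_lit 230) (.e (nat_lit 163941) (nat_lit 19) (.e (nat_lit 483341) (nat_lit 9) .nil))) (.g (nat_lit 0) (.e (nat_lit 185147) (nat_lit 0) .nil) .nil))))))) (.nd (nat_lit 6) (.nd (nat_lit 7) (.nd (nat_lit 8) (.nd (nat_lit 9) 
(.lf (nat_lit 505918) (.g (nat_lit 1210) (.e (nat_lit 164327) (nat_lit 230) (.e (nat_lit 163873) (nat_lit 3) (.e (nat_lit 204813) (nat_lit 9) (.e (nat_lit 426198) (nat_lit 9) .nil)))) (.g (nat_lit 0) (.e (nat_lit 182748) (nat_lit 0) .nil) .nil))) 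
(.lf (nat_lit 506430) (.g (nat_lit 3005) (.e (nat_lit 164330) (nat_lit 230) (.e (nat_lit 163902) (nat_lit 12) (.e (nat_lit 426566) (nat_lit 34) (.e (nat_lit 393269) (nat_lit 23) .nil)))) (.g (nat_lit 0) (.e (nat_lit 183991) (nat_lit 0) .nil) .nil)))) (.nd (nat_lit 9) 
(.lf (nat_lit 506174) (.g (nat_lit 2609) (.e (nat_lit 164329) (nat_lit 230) (.e (nat_lit 163902) (nat_lit 12) (.e (nat_lit 426428) (nat_lit 17) (.e (nat_lit 90170) (nat_lit 13) (.e (nat_lit 172079) (nat_lit 7) (.e (nat_lit 409611) (nat_lit 10) (.e (nat_lit 942) (nat_lit 77) (.e (nat_lit 794662) (nat_lit 21) .nil)))))))) (.g (nat_lit 1) (.e (nat_lit 183413) (nat_lit 0) .nil) .nil))) 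
(.lf (nat_lit 506686) (.g (nat_lit 4149) (.e (nat_lit 164332) (nat_lit 230) (.e (nat_lit 163873) (nat_lit 3) (.e (nat_lit 204813) (nat_lit 9) (.e (nat_lit 426213) (nat_lit 9) .nil)))) (.g (nat_lit 0) (.e (nat_lit 184658) (nat_lit 0) .nil) .nil))))) (.nd (nat_lit 8) (.nd (nat_lit 9) 
(.lf (nat_lit 506046) (.g (nat_lit 1992) (.e (nat_lit 164327) (nat_lit 230) (.e (nat_lit 163907) (nat_lit 12) (.e (nat_lit 426568) (nat_lit 34) (.e (nat_lit 393291) (nat_lit 26) .nil)))) (.g (nat_lit 0) (.e (nat_lit 183030) (nat_lit 0) .nil) .nil))) 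
(.lf (nat_lit 506558) (.g (nat_lit 4133) (.e (nat_lit 164331) (nat_lit 230) (.e (nat_lit 163941) (nat_lit 19) (.e (nat_lit 483341) (nat_lit 9) (.e (nat_lit 426188) (nat_lit 9) (.e (nat_lit 426436) (nat_lit 18) (.e (nat_lit 98335) (nat_lit 18) .nil)))))) (.g (nat_lit 1) (.e (nat_lit 184430) (nat_lit 0) .nil) .nil)))) (.nd (nat_lit 9) 
(.lf (nat_lit 506302) (.g (nat_lit 2817) (.e (nat_lit 164330) (nat_lit 230) (.e (nat_lit 163867) (nat_lit 2) (.e (nat_lit 196656) (nat_lit 11) (.e (nat_lit 16434) (nat_lit 9) (.e (nat_lit 426566) (nat_lit 34) (.e (nat_lit 393253) (nat_lit 18) .nil)))))) (.g (nat_lit 1) (.e (nat_lit 183777) (nat_lit 0) .nil) .nil))) 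
(.lf (nat_lit 506814) (.g (nat_lit 3472) (.e (nat_lit 164332) (nat_lit 230) (.e (nat_lit 163905) (nat_lit 12) (.e (nat_lit 426472) (nat_lit 25) (.e (nat_lit 319534) (nat_lit 16) (.e (nat_lit 286756) (nat_lit 10) (.e (nat_lit 344099) (nat_lit 18) (.e (nat_lit 7289) (nat_lit 386) (.e (nat_lit 163864) (nat_lit 1) .nil)))))))) (.g (nat_lit 1) (.e (nat_lit 184944) (nat_lit 0) .nil) .nil)))))) 
(.nd (nat_lit 7) (.nd (nat_lit 8) (.nd (nat_lit 9) 
(.lf (nat_lit 505982) (.g (nat_lit 2314) (.e (nat_lit 164327) (nat_lit 230) (.e (nat_lit 163882) (nat_lit 4) (.e (nat_lit 213030) (nat_lit 11) (.e (nat_lit 24655) (nat_lit 13) (.e (nat_lit 393281) (nat_lit 23) (.e (nat_lit 426098) (nat_lit 1) .nil)))))) (.g (nat_lit 1) (.e (nat_lit 182899) (nat_lit 0) .nil) .nil))) 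
(.lf (nat_lit 506494) (.g (nat_lit 424) (.e (nat_lit 164331) (nat_lit 230) (.e (nat_lit 163867) (nat_lit 2) (.e (nat_lit 196656) (nat_lit 11) .nil))) (.g (nat_lit 0) (.e (nat_lit 184262) (nat_lit 0) .nil) .nil)))) (.nd (nat_lit 9) 
(.lf (nat_lit 506238) (.g (nat_lit 3536) (.e (nat_lit 164329) (nat_lit 230) (.e (nat_lit 163902) (nat_lit 12) (.e (nat_lit 426568) (nat_lit 34) (.e (nat_lit 393294) (nat_lit 26) (.e (nat_lit 475177) (nat_lit 24) (.e (nat_lit 516118) (nat_lit 1) .nil)))))) (.g (nat_lit 1) (.e (nat_lit 183498) (nat_lit 0) .nil) .nil))) 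
(.lf (nat_lit 506750) (.g (nat_lit 3352) (.e (nat_lit 164332) (nat_lit 230) (.e (nat_lit 163902) (nat_lit 12) (.e (nat_lit 426472) (nat_lit 25) (.e (nat_lit 319534) (nat_lit 16) (.e (nat_lit 286756) (nat_lit 10) (.e (nat_lit 344097) (nat_lit 18) (.e (nat_lit 7287) (nat_lit 386) (.e (nat_lit 163864) (nat_lit 1) .nil)))))))) (.g (nat_lit 1) (.e (nat_lit 184808) (nat_lit 0) .nil) .nil))))) 
(.nd (nat_lit 8) (.nd (nat_lit 9) 
(.lf (nat_lit 506110) (.g (nat_lit 2092) (.e (nat_lit 164329) (nat_lit 230) (.e (nat_lit 163867) (nat_lit 2) (.e (nat_lit 196656) (nat_lit 11) (.e (nat_lit 16446) (nat_lit 9) (.e (nat_lit 433920) (nat_lit 34) .nil))))) (.g (nat_lit 0) (.e (nat_lit 183312) (nat_lit 0) .nil) .nil))) 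
(.lf (nat_lit 506622) (.g (nat_lit 588) (.e (nat_lit 164332) (nat_lit 230) (.e (nat_lit 163869) (nat_lit 2) (.e (nat_lit 196649) (nat_lit 10) .nil))) (.g (nat_lit 0) (.e (nat_lit 184567) (nat_lit 0) .nil) .nil)))) (.nd (nat_lit 9) 
(.lf (nat_lit 506366) (.g (nat_lit 4534) (.e (nat_lit 164330) (nat_lit 230) (.e (nat_lit 163873) (nat_lit 3) (.e (nat_lit 204813) (nat_lit 9) (.e (nat_lit 426213) (nat_lit 9) (.e (nat_lit 426528) (nat_lit 27) .nil))))) (.g (nat_lit 0) (.e (nat_lit 183872) (nat_lit 0) .nil) .nil))) 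
(.lf (nat_lit 506878) (.g (nat_lit 1570) (.e (nat_lit 164332) (nat_lit 230) (.e (nat_lit 163943) (nat_lit 19) (.e (nat_lit 483350) (nat_lit 17) (.e (nat_lit 2355) (nat_lit 152) .nil)))) (.g (nat_lit 0) (.e (nat_lit 185218) (nat_lit 0) .nil) .nil)))))))))))) 
(.nd (nat_lit 1) (.nd (nat_lit 2) (.nd (nat_lit 3) (.nd (nat_lit 4) (.nd (nat_lit 5) 
(.nd (nat_lit 6) (.nd (nat_lit 7) (.nd (nat_lit 8) (.nd (nat_lit 9) 
(.lf (nat_lit 505857) (.g (nat_lit 2491) (.e (nat_lit 164327) (nat_lit 230) (.e (nat_lit 163871) (nat_lit 2) (.e (nat_lit 196654) (nat_lit 11) (.e (nat_lit 16463) (nat_lit 13) (.e (nat_lit 483340) (nat_lit 9) .nil))))) (.g (nat_lit 0) (.e (nat_lit 182627) (nat_lit 0) .nil) .nil))) 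
(.lf (nat_lit 506369) (.g (nat_lit 2398) (.e (nat_lit 164330) (nat_lit 230) (.e (nat_lit 163873) (nat_lit 3) (.e (nat_lit 204813) (nat_lit 9) (.e (nat_lit 433920) (nat_lit 9) .nil)))) (.g (nat_lit 0) (.e (nat_lit 183876) (nat_lit 0) .nil) .nil)))) (.nd (nat_lit 9) 
(.lf (nat_lit 506113) (.g (nat_lit 2426) (.e (nat_lit 164329) (nat_lit 230) (.e (nat_lit 163867) (nat_lit 2) (.e (nat_lit 196656) (nat_lit 11) (.e (nat_lit 16466) (nat_lit 13) (.e (nat_lit 483336) (nat_lit 9) .nil))))) (.g (nat_lit 0) (.e (nat_lit 183315) (nat_lit 0) .nil) .nil))) 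
(.lf (nat_lit 506625) (.g (nat_lit 1504) (.e (nat_lit 164332) (nat_lit 230) (.e (nat_lit 163869) (nat_lit 2) (.e (nat_lit 196653) (nat_lit 11) (.e (nat_lit 16468) (nat_lit 13) (.e (nat_lit 483337) (nat_lit 9) .nil))))) (.g (nat_lit 0) (.e (nat_lit 184571) (nat_lit 0) .nil) .nil))))) (.nd (nat_lit 8) (.nd (nat_lit 9) 
(.lf (nat_lit 505985) (.g (nat_lit 2910) (.e (nat_lit 164327) (nat_lit 230) (.e (nat_lit 163882) (nat_lit 4) (.e (nat_lit 213030) (nat_lit 11) (.e (nat_lit 24660) (nat_lit 13) (.e (nat_lit 393271) (nat_lit 23) (.e (nat_lit 426112) (nat_lit 1) .nil)))))) (.g (nat_lit 1) (.e (nat_lit 182902) (nat_lit 0) .nil) .nil))) 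
(.lf (nat_lit 506497) (.g (nat_lit 1510) (.e (nat_lit 164331) (nat_lit 230) (.e (nat_lit 163867) (nat_lit 2) (.e (nat_lit 196656) (nat_lit 11) (.e (nat_lit 16444) (nat_lit 9) .nil)))) (.g (nat_lit 0) (.e (nat_lit 184265) (nat_lit 0) .nil) .nil)))) (.nd (nat_lit 9) 
(.lf (nat_lit 506241) (.g (nat_lit 1102) (.e (nat_lit 164329) (nat_lit 230) (.e (nat_lit 163904) (nat_lit 12) (.e (nat_lit 426564) (nat_lit 34) (.e (nat_lit 393296) (nat_lit 26) (.e (nat_lit 475178) (nat_lit 24) .nil))))) (.g (nat_lit 0) (.e (nat_lit 183501) (nat_lit 0) .nil) .nil))) 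
(.lf (nat_lit 506753) (.g (nat_lit 2780) (.e (nat_lit 164332) (nat_lit 230) (.e (nat_lit 163902) (nat_lit 12) (.e (nat_lit 426472) (nat_lit 25) (.e (nat_lit 319534) (nat_lit 16) (.e (nat_lit 286756) (nat_lit 10) (.e (nat_lit 344174) (nat_lit 42) (.e (nat_lit 761885) (nat_lit 13) (.e (nat_lit 2607) (nat_lit 163) .nil)))))))) (.g (nat_lit 1) (.e (nat_lit 184811) (nat_lit 0) .nil) .nil)))))) 
(.nd (nat_lit 7) (.nd (nat_lit 8) (.nd (nat_lit 9) 
(.lf (nat_lit 505921) (.g (nat_lit 977) (.e (nat_lit 164327) (nat_lit 230) (.e (nat_lit 163873) (nat_lit 3) (.e (nat_lit 204813) (nat_lit 9) (.e (nat_lit 426200) (nat_lit 9) .nil)))) (.g (nat_lit 0) (.e (nat_lit 182751) (nat_lit 0) .nil) .nil))) 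
(.lf (nat_lit 506433) (.g (nat_lit 1245) (.e (nat_lit 164330) (nat_lit 230) (.e (nat_lit 163902) (nat_lit 12) (.e (nat_lit 426566) (nat_lit 34) (.e (nat_lit 393295) (nat_lit 26) .nil)))) (.g (nat_lit 0) (.e (nat_lit 183994) (nat_lit 0) .nil) .nil)))) (.nd (nat_lit 9) 
(.lf (nat_lit 506177) (.g (nat_lit 2260) (.e (nat_lit 164329) (nat_lit 230) (.e (nat_lit 163902) (nat_lit 12) (.e (nat_lit 426428) (nat_lit 17) (.e (nat_lit 90170) (nat_lit 13) (.e (nat_lit 172082) (nat_lit 7) (.e (nat_lit 409612) (nat_lit 10) (.e (nat_lit 942) (nat_lit 77) (.e (nat_lit 794662) (nat_lit 21) .nil)))))))) (.g (nat_lit 1) (.e (nat_lit 183416) (nat_lit 0) .nil) .nil))) 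
(.lf (nat_lit 506689) (.g (nat_lit 346) (.e (nat_lit 164332) (nat_lit 230) (.e (nat_lit 163873) (nat_lit 3) (.e (nat_lit 212736) (nat_lit 9) .nil))) (.g (nat_lit 0) (.e (nat_lit 184677) (nat_lit 0) .nil) .nil))))) (.nd (nat_lit 8) (.nd (nat_lit 9) 
(.lf (nat_lit 506049) (.g (nat_lit 2103) (.e (nat_lit 164327) (nat_lit 230) (.e (nat_lit 163936) (nat_lit 18) (.e (nat_lit 475179) (nat_lit 24) (.e (nat_lit 516176) (nat_lit 14) (.e (nat_lit 466969) (nat_lit 21) .nil))))) (.g (nat_lit 0) (.e (nat_lit 183132) (nat_lit 0) .nil) .nil))) 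
(.lf (nat_lit 506561) (.g (nat_lit 2339) (.e (nat_lit 164331) (nat_lit 230) (.e (nat_lit 163941) (nat_lit 19) (.e (nat_lit 483341) (nat_lit 9) (.e (nat_lit 426198) (nat_lit 9) (.e (nat_lit 426382) (nat_lit 15) .nil))))) (.g (nat_lit 0) (.e (nat_lit 184436) (nat_lit 0) .nil) .nil)))) (.nd (nat_lit 9) 
(.lf (nat_lit 506305) (.g (nat_lit 2129) (.e (nat_lit 164330) (nat_lit 230) (.e (nat_lit 163867) (nat_lit 2) (.e (nat_lit 196656) (nat_lit 11) (.e (nat_lit 16466) (nat_lit 13) (.e (nat_lit 483341) (nat_lit 9) .nil))))) (.g (nat_lit 0) (.e (nat_lit 183782) (nat_lit 0) .nil) .nil))) 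
(.lf (nat_lit 506817) (.g (nat_lit 4017) (.e (nat_lit 164332) (nat_lit 230) (.e (nat_lit 163905) (nat_lit 12) (.e (nat_lit 426481) (nat_lit 27) (.e (nat_lit 336389) (nat_lit 27) (.e (nat_lit 426308) (nat_lit 12) (.e (nat_lit 475177) (nat_lit 24) (.e (nat_lit 516118) (nat_lit 1) .nil))))))) (.g (nat_lit 1) (.e (nat_lit 184966) (nat_lit 0) .nil) .nil))))))) 
(.nd (nat_lit 6) (.nd (nat_lit 7) (.nd (nat_lit 8) (.nd (nat_lit 9) 
(.lf (nat_lit 505889) (.g (nat_lit 1396) (.e (nat_lit 164327) (nat_lit 230) (.e (nat_lit 163871) (nat_lit 2) (.e (nat_lit 196656) (nat_lit 11) (.e (nat_lit 16466) (nat_lit 13) .nil)))) (.g (nat_lit 0) (.e (nat_lit 182679) (nat_lit 0) .nil) .nil))) 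
(.lf (nat_lit 506401) (.g (nat_lit 661) (.e (nat_lit 164330) (nat_lit 230) (.e (nat_lit 163902) (nat_lit 12) (.e (nat_lit 426438) (nat_lit 18) .nil))) (.g (nat_lit 0) (.e (nat_lit 183951) (nat_lit 0) .nil) .nil)))) (.nd (nat_lit 9) 
(.lf (nat_lit 506145) (.g (nat_lit 3576) (.e (nat_lit 164329) (nat_lit 230) (.e (nat_lit 163873) (nat_lit 3) (.e (nat_lit 204813) (nat_lit 9) (.e (nat_lit 426199) (nat_lit 9) (.e (nat_lit 426478) (nat_lit 27) .nil))))) (.g (nat_lit 0) (.e (nat_lit 183354) (nat_lit 0) .nil) .nil))) 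
(.lf (nat_lit 506657) (.g (nat_lit 2784) (.e (nat_lit 164332) (nat_lit 230) (.e (nat_lit 163869) (nat_lit 2) (.e (nat_lit 196656) (nat_lit 11) (.e (nat_lit 16465) (nat_lit 13) (.e (nat_lit 483341) (nat_lit 9) (.e (nat_lit 426098) (nat_lit 1) .nil)))))) (.g (nat_lit 1) (.e (nat_lit 184612) (nat_lit 0) .nil) .nil))))) (.nd (nat_lit 8) (.nd (nat_lit 9) 
(.lf (nat_lit 506017) (.g (nat_lit 1216) (.e (nat_lit 164327) (nat_lit 230) (.e (nat_lit 163903) (nat_lit 12) (.e (nat_lit 426566) (nat_lit 34) (.e (nat_lit 393271) (nat_lit 23) .nil)))) (.g (nat_lit 0) (.e (nat_lit 182971) (nat_lit 0) .nil) .nil))) 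
(.lf (nat_lit 506529) (.g (nat_lit 1502) (.e (nat_lit 164331) (nat_lit 230) (.e (nat_lit 163874) (nat_lit 3) (.e (nat_lit 204813) (nat_lit 9) (.e (nat_lit 426188) (nat_lit 9) .nil)))) (.g (nat_lit 0) (.e (nat_lit 184319) (nat_lit 0) .nil) .nil)))) (.nd (nat_lit 9) 
(.lf (nat_lit 506273) (.g (nat_lit 3223) (.e (nat_lit 164329) (nat_lit 230) (.e (nat_lit 163941) (nat_lit 19) (.e (nat_lit 483341) (nat_lit 9) (.e (nat_lit 426306) (nat_lit 12) (.e (nat_lit 475179) (nat_lit 24) (.e (nat_lit 516120) (nat_lit 1) .nil)))))) (.g (nat_lit 1) (.e (nat_lit 183731) (nat_lit 0) .nil) .nil))) 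
(.lf (nat_lit 506785) (.g (nat_lit 1754) (.e (nat_lit 164332) (nat_lit 230) (.e (nat_lit 163902) (nat_lit 12) (.e (nat_lit 426568) (nat_lit 34) (.e (nat_lit 393272) (nat_lit 23) .nil)))) (.g (nat_lit 0) (.e (nat_lit 184862) (nat_lit 0) .nil) .nil)))))) (.nd (nat_lit 7) (.nd (nat_lit 8) (.nd (nat_lit 9) 
(.lf (nat_lit 505953) (.g (nat_lit 1640) (.e (nat_lit 164327) (nat_lit 230) (.e (nat_lit 163875) (nat_lit 3) (.e (nat_lit 204813) (nat_lit 9) (.e (nat_lit 426200) (nat_lit 9) (.e (nat_lit 426478) (nat_lit 27) .nil))))) (.g (nat_lit 0) (.e (nat_lit 182840) (nat_lit 0) .nil) .nil))) 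
(.lf (nat_lit 506465) (.g (nat_lit 1952) (.e (nat_lit 164330) (nat_lit 230) (.e (nat_lit 163941) (nat_lit 19) (.e (nat_lit 483341) (nat_lit 9) (.e (nat_lit 426185) (nat_lit 9) .nil)))) (.g (nat_lit 0) (.e (nat_lit 184219) (nat_lit 0) .nil) .nil)))) (.nd (nat_lit 9) 
(.lf (nat_lit 506209) (.g (nat_lit 2765) (.e (nat_lit 164329) (nat_lit 230) (.e (nat_lit 163902) (nat_lit 12) (.e (nat_lit 426566) (nat_lit 34) (.e (nat_lit 393295) (nat_lit 26) (.e (nat_lit 475178) (nat_lit 24) (.e (nat_lit 516117) (nat_lit 1) .nil)))))) (.g (nat_lit 1) (.e (nat_lit 183465) (nat_lit 0) .nil) .nil))) 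
(.lf (nat_lit 506721) (.g (nat_lit 2441) (.e (nat_lit 164332) (nat_lit 230) (.e (nat_lit 163885) (nat_lit 5) (.e (nat_lit 221206) (nat_lit 21) (.e (nat_lit 164330) (nat_lit 230) (.e (nat_lit 171776) (nat_lit 66) (.e (nat_lit 114716) (nat_lit 22) (.e (nat_lit 90185) (nat_lit 17) (.e (nat_lit 237582) (nat_lit 1) .nil)))))))) (.g (nat_lit 1) (.e (nat_lit 184731) (nat_lit 0) .nil) .nil))))) 
(.nd (nat_lit 8) (.nd (nat_lit 9) 
(.lf (nat_lit 506081) (.g (nat_lit 3567) (.e (nat_lit 164329) (nat_lit 230) (.e (nat_lit 163866) (nat_lit 2) (.e (nat_lit 196654) (nat_lit 11) (.e (nat_lit 16463) (nat_lit 13) (.e (nat_lit 483337) (nat_lit 9) (.e (nat_lit 426108) (nat_lit 1) .nil)))))) (.g (nat_lit 1) (.e (nat_lit 183272) (nat_lit 0) .nil) .nil))) 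
(.lf (nat_lit 506593) (.g (nat_lit 307) (.e (nat_lit 164332) (nat_lit 230) (.e (nat_lit 163867) (nat_lit 2) (.e (nat_lit 196654) (nat_lit 11) .nil))) (.g (nat_lit 0) (.e (nat_lit 184505) (nat_lit 0) .nil) .nil)))) (.nd (nat_lit 9) 
(.lf (nat_lit 506337) (.g (nat_lit 319) (.e (nat_lit 164330) (nat_lit 230) (.e (nat_lit 163873) (nat_lit 3) (.e (nat_lit 204813) (nat_lit 9) .nil))) (.g (nat_lit 0) (.e (nat_lit 183828) (nat_lit 0) .nil) .nil))) 
(.lf (nat_lit 506849) (.g (nat_lit 1536) (.e (nat_lit 164332) (nat_lit 230) (.e (nat_lit 163941) (nat_lit 19) (.e (nat_lit 483341) (nat_lit 9) (.e (nat_lit 426197) (nat_lit 9) .nil)))) (.g (nat_lit 0) (.e (nat_lit 185156) (nat_lit 0) .nil) .nil)))))))) (.nd (nat_lit 5) (.nd (nat_lit 6) (.nd (nat_lit 7) (.nd (nat_lit 8) (.nd (nat_lit 9) 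
(.lf (nat_lit 505873) (.g (nat_lit 1648) (.e (nat_lit 164327) (nat_lit 230) (.e (nat_lit 163871) (nat_lit 2) (.e (nat_lit 196656) (nat_lit 11) (.e (nat_lit 16432) (nat_lit 9) .nil)))) (.g (nat_lit 0) (.e (nat_lit 182655) (nat_lit 0) .nil) .nil))) 
(.lf (nat_lit 506385) (.g (nat_lit 1551) (.e (nat_lit 164330) (nat_lit 230) (.e (nat_lit 163878) (nat_lit 4) (.e (nat_lit 213030) (nat_lit 11) (.e (nat_lit 24657) (nat_lit 13) (.e (nat_lit 393281) (nat_lit 23) .nil))))) (.g (nat_lit 0) (.e (nat_lit 183914) (nat_lit 0) .nil) .nil)))) (.nd (nat_lit 9) 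
(.lf (nat_lit 506129) (.g (nat_lit 356) (.e (nat_lit 164329) (nat_lit 230) (.e (nat_lit 163873) (nat_lit 3) (.e (nat_lit 204811) (nat_lit 9) .nil))) (.g (nat_lit 0) (.e (nat_lit 183332) (nat_lit 0) .nil) .nil))) 
(.lf (nat_lit 506641) (.g (nat_lit 1015) (.e (nat_lit 164332) (nat_lit 230) (.e (nat_lit 163869) (nat_lit 2) (.e (nat_lit 196655) (nat_lit 11) (.e (nat_lit 16444) (nat_lit 9) .nil)))) (.g (nat_lit 0) (.e (nat_lit 184590) (nat_lit 0) .nil) .nil))))) (.nd (nat_lit 8) (.nd (nat_lit 9) 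
(.lf (nat_lit 506001) (.g (nat_lit 2478) (.e (nat_lit 164327) (nat_lit 230) (.e (nat_lit 163902) (nat_lit 12) (.e (nat_lit 426566) (nat_lit 34) (.e (nat_lit 393294) (nat_lit 26) .nil)))) (.g (nat_lit 0) (.e (nat_lit 182944) (nat_lit 0) .nil) .nil))) 
(.lf (nat_lit 506513) (.g (nat_lit 2970) (.e (nat_lit 164331) (nat_lit 230) (.e (nat_lit 163873) (nat_lit 3) (.e (nat_lit 204813) (nat_lit 9) (.e (nat_lit 426196) (nat_lit 9) .nil)))) (.g (nat_lit 0) (.e (nat_lit 184288) (nat_lit 0) .nil) .nil)))) (.nd (nat_lit 9) 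
(.lf (nat_lit 506257) (.g (nat_lit 4090) (.e (nat_lit 164329) (nat_lit 230) (.e (nat_lit 163941) (nat_lit 19) (.e (nat_lit 483341) (nat_lit 9) (.e (nat_lit 426012) (nat_lit 0) .nil)))) (.g (nat_lit 0) (.e (nat_lit 183711) (nat_lit 0) .nil) .nil))) 
(.lf (nat_lit 506769) (.g (nat_lit 2926) (.e (nat_lit 164332) (nat_lit 230) (.e (nat_lit 163902) (nat_lit 12) (.e (nat_lit 426566) (nat_lit 34) (.e (nat_lit 393292) (nat_lit 26) .nil)))) (.g (nat_lit 0) (.e (nat_lit 184845) (nat_lit 0) .nil) .nil)))))) (.nd (nat_lit 7) (.nd (nat_lit 8) (.nd (nat_lit 9) 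
(.lf (nat_lit 505937) (.g (nat_lit 3405) (.e (nat_lit 164327) (nat_lit 230) (.e (nat_lit 163875) (nat_lit 3) (.e (nat_lit 204809) (nat_lit 9) (.e (nat_lit 426198) (nat_lit 9) (.e (nat_lit 426566) (nat_lit 34) (.e (nat_lit 393253) (nat_lit 18) .nil)))))) (.g (nat_lit 1) (.e (nat_lit 182811) (nat_lit 0) .nil) .nil))) 
(.lf (nat_lit 506449) (.g (nat_lit 1402) (.e (nat_lit 164330) (nat_lit 230) (.e (nat_lit 163905) (nat_lit 12) (.e (nat_lit 426566) (nat_lit 34) (.e (nat_lit 393272) (nat_lit 23) (.e (nat_lit 426437) (nat_lit 18) .nil))))) (.g (nat_lit 0) (.e (nat_lit 184036) (nat_lit 0) .nil) .nil)))) (.nd (nat_lit 9) 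
(.lf (nat_lit 506193) (.g (nat_lit 2370) (.e (nat_lit 164329) (nat_lit 230) (.e (nat_lit 163902) (nat_lit 12) (.e (nat_lit 426472) (nat_lit 25) (.e (nat_lit 319533) (nat_lit 16) (.e (nat_lit 286753) (nat_lit 10) (.e (nat_lit 344097) (nat_lit 18) (.e (nat_lit 7280) (nat_lit 386) (.e (nat_lit 163861) (nat_lit 1) .nil)))))))) (.g (nat_lit 1) (.e (nat_lit 183437) (nat_lit 0) .nil) .nil))) 
(.lf (nat_lit 506705) (.g (nat_lit 3247) (.e (nat_lit 164332) (nat_lit 230) (.e (nat_lit 163878) (nat_lit 4) (.e (nat_lit 213030) (nat_lit 11) (.e (nat_lit 24658) (nat_lit 13) (.e (nat_lit 393281) (nat_lit 23) (.e (nat_lit 426100) (nat_lit 1) .nil)))))) (.g (nat_lit 1) (.e (nat_lit 184710) (nat_lit 0) .nil) .nil))))) (.nd (nat_lit 8) (.nd (nat_lit 9) 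
(.lf (nat_lit 506065) (.g (nat_lit 4085) (.e (nat_lit 164328) (nat_lit 230) (.e (nat_lit 163873) (nat_lit 3) (.e (nat_lit 204813) (nat_lit 9) (.e (nat_lit 426189) (nat_lit 9) .nil)))) (.g (nat_lit 0) (.e (nat_lit 183176) (nat_lit 0) .nil) .nil))) 
(.lf (nat_lit 506577) (.g (nat_lit 3849) (.e (nat_lit 164332) (nat_lit 230) (.e (nat_lit 163866) (nat_lit 2) (.e (nat_lit 196654) (nat_lit 11) (.e (nat_lit 16463) (nat_lit 13) (.e (nat_lit 483337) (nat_lit 9) (.e (nat_lit 426108) (nat_lit 1) .nil)))))) (.g (nat_lit 1) (.e (nat_lit 184479) (nat_lit 0) .nil) .nil)))) (.nd (nat_lit 9) 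
(.lf (nat_lit 506321) (.g (nat_lit 494) (.e (nat_lit 164330) (nat_lit 230) (.e (nat_lit 163869) (nat_lit 2) (.e (nat_lit 196656) (nat_lit 11) .nil))) (.g (nat_lit 0) (.e (nat_lit 183804) (nat_lit 0) .nil) .nil))) 
(.lf (nat_lit 506833) (.g (nat_lit 1121) (.e (nat_lit 164332) (nat_lit 230) (.e (nat_lit 163905) (nat_lit 12) (.e (nat_lit 426566) (nat_lit 34) (.e (nat_lit 393290) (nat_lit 26) .nil)))) (.g (nat_lit 0) (.e (nat_lit 185002) (nat_lit 0) .nil) .nil))))))) (.nd (nat_lit 6) (.nd (nat_lit 7) (.nd (nat_lit 8) (.nd (nat_lit 9) 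
(.lf (nat_lit 505905) (.g (nat_lit 3737) (.e (nat_lit 164327) (nat_lit 230) (.e (nat_lit 163873) (nat_lit 3) (.e (nat_lit 204813) (nat_lit 9) (.e (nat_lit 426124) (nat_lit 2) .nil)))) (.g (nat_lit 0) (.e (nat_lit 182723) (nat_lit 0) .nil) .nil))) 
(.lf (nat_lit 506417) (.g (nat_lit 2532) (.e (nat_lit 164330) (nat_lit 230) (.e (nat_lit 163902) (nat_lit 12) (.e (nat_lit 426472) (nat_lit 25) (.e (nat_lit 319534) (nat_lit 16) (.e (nat_lit 286749) (nat_lit 9) (.e (nat_lit 335997) (nat_lit 1) (.e (nat_lit 57686) (nat_lit 156) (.e (nat_lit 163864) (nat_lit 1) .nil)))))))) (.g (nat_lit 1) (.e (nat_lit 183967) (nat_lit 0) .nil) .nil)))) 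
(.nd (nat_lit 9) 
(.lf (nat_lit 506161) (.g (nat_lit 995) (.e (nat_lit 164329) (nat_lit 230) (.e (nat_lit 163884) (nat_lit 5) (.e (nat_lit 221193) (nat_lit 11) (.e (nat_lit 336077) (nat_lit 9) .nil)))) (.g (nat_lit 0) (.e (nat_lit 183383) (nat_lit 0) .nil) .nil))) 
(.lf (nat_lit 506673) (.g (nat_lit 2586) (.e (nat_lit 164332) (nat_lit 230) (.e (nat_lit 163873) (nat_lit 3) (.e (nat_lit 204813) (nat_lit 9) (.e (nat_lit 426139) (nat_lit 3) .nil)))) (.g (nat_lit 0) (.e (nat_lit 184642) (nat_lit 0) .nil) .nil))))) (.nd (nat_lit 8) (.nd (nat_lit 9) 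
(.lf (nat_lit 506033) (.g (nat_lit 3692) (.e (nat_lit 164327) (nat_lit 230) (.e (nat_lit 163903) (nat_lit 12) (.e (nat_lit 426568) (nat_lit 34) (.e (nat_lit 393291) (nat_lit 26) (.e (nat_lit 475177) (nat_lit 24) (.e (nat_lit 516119) (nat_lit 1) .nil)))))) (.g (nat_lit 1) (.e (nat_lit 182988) (nat_lit 0) .nil) .nil))) 
(.lf (nat_lit 506545) (.g (nat_lit 1902) (.e (nat_lit 164331) (nat_lit 230) (.e (nat_lit 163902) (nat_lit 12) (.e (nat_lit 426568) (nat_lit 34) (.e (nat_lit 393270) (nat_lit 23) .nil)))) (.g (nat_lit 0) (.e (nat_lit 184340) (nat_lit 0) .nil) .nil)))) (.nd (nat_lit 9) 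
(.lf (nat_lit 506289) (.g (nat_lit 3489) (.e (nat_lit 164330) (nat_lit 230) (.e (nat_lit 163866) (nat_lit 2) (.e (nat_lit 196654) (nat_lit 11) (.e (nat_lit 16466) (nat_lit 13) (.e (nat_lit 483337) (nat_lit 9) (.e (nat_lit 426108) (nat_lit 1) .nil)))))) (.g (nat_lit 1) (.e (nat_lit 183759) (nat_lit 0) .nil) .nil))) 
(.lf (nat_lit 506801) (.g (nat_lit 866) (.e (nat_lit 164332) (nat_lit 230) (.e (nat_lit 163905) (nat_lit 12) (.e (nat_lit 426256) (nat_lit 9) .nil))) (.g (nat_lit 0) (.e (nat_lit 184898) (nat_lit 0) .nil) .nil)))))) (.nd (nat_lit 7) (.nd (nat_lit 8) (.nd (nat_lit 9) 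
(.lf (nat_lit 505969) (.g (nat_lit 659) (.e (nat_lit 164327) (nat_lit 230) (.e (nat_lit 163877) (nat_lit 4) (.e (nat_lit 213030) (nat_lit 11) (.e (nat_lit 24628) (nat_lit 9) .nil)))) (.g (nat_lit 0) (.e (nat_lit 182882) (nat_lit 0) .nil) .nil))) 
(.lf (nat_lit 506481) (.g (nat_lit 2791) (.e (nat_lit 164330) (nat_lit 230) (.e (nat_lit 163942) (nat_lit 19) (.e (nat_lit 483341) (nat_lit 9) (.e (nat_lit 426190) (nat_lit 9) (.e (nat_lit 426436) (nat_lit 18) .nil))))) (.g (nat_lit 0) (.e (nat_lit 184240) (nat_lit 0) .nil) .nil)))) (.nd (nat_lit 9) 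
(.lf (nat_lit 506225) (.g (nat_lit 1426) (.e (nat_lit 164329) (nat_lit 230) (.e (nat_lit 163902) (nat_lit 12) (.e (nat_lit 426568) (nat_lit 34) (.e (nat_lit 393290) (nat_lit 26) (.e (nat_lit 475177) (nat_lit 24) .nil))))) (.g (nat_lit 0) (.e (nat_lit 183485) (nat_lit 0) .nil) .nil))) 
(.lf (nat_lit 506737) (.g (nat_lit 4211) (.e (nat_lit 164332) (nat_lit 230) (.e (nat_lit 163902) (nat_lit 12) (.e (nat_lit 426438) (nat_lit 18) (.e (nat_lit 98373) (nat_lit 29) (.e (nat_lit 450562) (nat_lit 0) (.e (nat_lit 7936) (nat_lit 369) (.e (nat_lit 163864) (nat_lit 1) .nil))))))) (.g (nat_lit 1) (.e (nat_lit 184793) (nat_lit 0) .nil) .nil))))) (.nd (nat_lit 8) (.nd (nat_lit 9) 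
(.lf (nat_lit 506097) (.g (nat_lit 2049) (.e (nat_lit 164329) (nat_lit 230) (.e (nat_lit 163867) (nat_lit 2) (.e (nat_lit 196654) (nat_lit 11) (.e (nat_lit 16466) (nat_lit 13) (.e (nat_lit 483336) (nat_lit 9) .nil))))) (.g (nat_lit 0) (.e (nat_lit 183295) (nat_lit 0) .nil) .nil))) 
(.lf (nat_lit 506609) (.g (nat_lit 1594) (.e (nat_lit 164332) (nat_lit 230) (.e (nat_lit 163867) (nat_lit 2) (.e (nat_lit 196656) (nat_lit 11) (.e (nat_lit 16446) (nat_lit 9) (.e (nat_lit 433920) (nat_lit 34) .nil))))) (.g (nat_lit 0) (.e (nat_lit 184543) (nat_lit 0) .nil) .nil)))) (.nd (nat_lit 9) 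
(.lf (nat_lit 506353) (.g (nat_lit 2703) (.e (nat_lit 164330) (nat_lit 230) (.e (nat_lit 163873) (nat_lit 3) (.e (nat_lit 204813) (nat_lit 9) (.e (nat_lit 426197) (nat_lit 9) .nil)))) (.g (nat_lit 0) (.e (nat_lit 183858) (nat_lit 0) .nil) .nil))) 
(.lf (nat_lit 506865) (.g (nat_lit 3682) (.e (nat_lit 164332) (nat_lit 230) (.e (nat_lit 163941) (nat_lit 19) (.e (nat_lit 483341) (nat_lit 9) (.e (nat_lit 426313) (nat_lit 12) (.e (nat_lit 475179) (nat_lit 24) (.e (nat_lit 516117) (nat_lit 1) .nil)))))) (.g (nat_lit 1) (.e (nat_lit 185174) (nat_lit 0) .nil) .nil))))))))) 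
(.nd (nat_lit 4) (.nd (nat_lit 5) (.nd (nat_lit 6) (.nd (nat_lit 7) (.nd (nat_lit 8) 
(.nd (nat_lit 9) 
(.lf (nat_lit 505865) (.g (nat_lit 2268) (.e (nat_lit 164327) (nat_lit 230) (.e (nat_lit 163871) (nat_lit 2) (.e (nat_lit 196656) (nat_lit 11) (.e (nat_lit 16415) (nat_lit 3) .nil)))) (.g (nat_lit 0) (.e (nat_lit 182644) (nat_lit 0) .nil) .nil))) 
(.lf (nat_lit 506377) (.g (nat_lit 2663) (.e (nat_lit 164330) (nat_lit 230) (.e (nat_lit 163874) (nat_lit 3) (.e (nat_lit 204809) (nat_lit 9) (.e (nat_lit 426200) (nat_lit 9) (.e (nat_lit 426566) (nat_lit 34) (.e (nat_lit 393252) (nat_lit 18) .nil)))))) (.g (nat_lit 1) (.e (nat_lit 183906) (nat_lit 0) .nil) .nil)))) (.nd (nat_lit 9) 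
(.lf (nat_lit 506121) (.g (nat_lit 1786) (.e (nat_lit 164329) (nat_lit 230) (.e (nat_lit 163873) (nat_lit 3) (.e (nat_lit 204809) (nat_lit 9) (.e (nat_lit 426139) (nat_lit 3) (.e (nat_lit 204832) (nat_lit 19) .nil))))) (.g (nat_lit 0) (.e (nat_lit 183324) (nat_lit 0) .nil) .nil))) 
(.lf (nat_lit 506633) (.g (nat_lit 1791) (.e (nat_lit 164332) (nat_lit 230) (.e (nat_lit 163869) (nat_lit 2) (.e (nat_lit 196654) (nat_lit 11) (.e (nat_lit 16438) (nat_lit 9) (.e (nat_lit 426530) (nat_lit 27) .nil))))) (.g (nat_lit 0) (.e (nat_lit 184579) (nat_lit 0) .nil) .nil))))) (.nd (nat_lit 8) (.nd (nat_lit 9) 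
(.lf (nat_lit 505993) (.g (nat_lit 2091) (.e (nat_lit 164327) (nat_lit 230) (.e (nat_lit 163882) (nat_lit 4) (.e (nat_lit 213032) (nat_lit 11) (.e (nat_lit 24660) (nat_lit 13) (.e (nat_lit 393274) (nat_lit 23) (.e (nat_lit 426097) (nat_lit 1) .nil)))))) (.g (nat_lit 1) (.e (nat_lit 182911) (nat_lit 0) .nil) .nil))) 
(.lf (nat_lit 506505) (.g (nat_lit 1988) (.e (nat_lit 164331) (nat_lit 230) (.e (nat_lit 163869) (nat_lit 2) (.e (nat_lit 196654) (nat_lit 11) (.e (nat_lit 16466) (nat_lit 13) .nil)))) (.g (nat_lit 0) (.e (nat_lit 184274) (nat_lit 0) .nil) .nil)))) (.nd (nat_lit 9) 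
(.lf (nat_lit 506249) (.g (nat_lit 1752) (.e (nat_lit 164329) (nat_lit 230) (.e (nat_lit 163941) (nat_lit 19) (.e (nat_lit 483337) (nat_lit 9) (.e (nat_lit 426196) (nat_lit 9) .nil)))) (.g (nat_lit 0) (.e (nat_lit 183699) (nat_lit 0) .nil) .nil))) 
(.lf (nat_lit 506761) (.g (nat_lit 367) (.e (nat_lit 164332) (nat_lit 230) (.e (nat_lit 163902) (nat_lit 12) (.e (nat_lit 426566) (nat_lit 34) .nil))) (.g (nat_lit 0) (.e (nat_lit 184837) (nat_lit 0) .nil) .nil)))))) (.nd (nat_lit 7) (.nd (nat_lit 8) (.nd (nat_lit 9) 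
(.lf (nat_lit 505929) (.g (nat_lit 660) (.e (nat_lit 164327) (nat_lit 230) (.e (nat_lit 163874) (nat_lit 3) (.e (nat_lit 212736) (nat_lit 9) .nil))) (.g (nat_lit 0) (.e (nat_lit 182800) (nat_lit 0) .nil) .nil))) 
(.lf (nat_lit 506441) (.g (nat_lit 1513) (.e (nat_lit 164330) (nat_lit 230) (.e (nat_lit 163904) (nat_lit 12) (.e (nat_lit 426566) (nat_lit 34) (.e (nat_lit 393270) (nat_lit 23) .nil)))) (.g (nat_lit 0) (.e (nat_lit 184002) (nat_lit 0) .nil) .nil)))) (.nd (nat_lit 9) 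
(.lf (nat_lit 506185) (.g (nat_lit 4008) (.e (nat_lit 164329) (nat_lit 230) (.e (nat_lit 163902) (nat_lit 12) (.e (nat_lit 426438) (nat_lit 18) (.e (nat_lit 98373) (nat_lit 29) (.e (nat_lit 450562) (nat_lit 0) (.e (nat_lit 6839) (nat_lit 369) (.e (nat_lit 163862) (nat_lit 1) .nil))))))) (.g (nat_lit 1) (.e (nat_lit 183429) (nat_lit 0) .nil) .nil))) 
(.lf (nat_lit 506697) (.g (nat_lit 1806) (.e (nat_lit 164332) (nat_lit 230) (.e (nat_lit 163874) (nat_lit 3) (.e (nat_lit 204829) (nat_lit 18) (.e (nat_lit 57908) (nat_lit 278) .nil)))) (.g (nat_lit 0) (.e (nat_lit 184701) (nat_lit 0) .nil) .nil))))) (.nd (nat_lit 8) (.nd (nat_lit 9) 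
(.lf (nat_lit 506057) (.g (nat_lit 1177) (.e (nat_lit 164327) (nat_lit 230) (.e (nat_lit 163944) (nat_lit 19) (.e (nat_lit 483341) (nat_lit 9) (.e (nat_lit 433920) (nat_lit 9) .nil)))) (.g (nat_lit 0) (.e (nat_lit 183162) (nat_lit 0) .nil) .nil))) 
(.lf (nat_lit 506569) (.g (nat_lit 4233) (.e (nat_lit 164331) (nat_lit 230) (.e (nat_lit 163941) (nat_lit 19) (.e (nat_lit 483341) (nat_lit 9) (.e (nat_lit 426263) (nat_lit 9) .nil)))) (.g (nat_lit 0) (.e (nat_lit 184446) (nat_lit 0) .nil) .nil)))) (.nd (nat_lit 9) 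
(.lf (nat_lit 506313) (.g (nat_lit 3867) (.e (nat_lit 164330) (nat_lit 230) (.e (nat_lit 163869) (nat_lit 2) (.e (nat_lit 196653) (nat_lit 11) (.e (nat_lit 16465) (nat_lit 13) (.e (nat_lit 483341) (nat_lit 9) (.e (nat_lit 426108) (nat_lit 1) .nil)))))) (.g (nat_lit 1) (.e (nat_lit 183794) (nat_lit 0) .nil) .nil))) 
(.lf (nat_lit 506825) (.g (nat_lit 750) (.e (nat_lit 164332) (nat_lit 230) (.e (nat_lit 163905) (nat_lit 12) (.e (nat_lit 426530) (nat_lit 27) .nil))) (.g (nat_lit 0) (.e (nat_lit 184974) (nat_lit 0) .nil) .nil))))))) (.nd (nat_lit 6) (.nd (nat_lit 7) (.nd (nat_lit 8) (.nd (nat_lit 9) 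
(.lf (nat_lit 505897) (.g (nat_lit 1436) (.e (nat_lit 164327) (nat_lit 230) (.e (nat_lit 163873) (nat_lit 3) (.e (nat_lit 204811) (nat_lit 9) (.e (nat_lit 426259) (nat_lit 9) (.e (nat_lit 433920) (nat_lit 34) (.e (nat_lit 393253) (nat_lit 18) .nil)))))) (.g (nat_lit 1) (.e (nat_lit 182700) (nat_lit 0) .nil) .nil))) 
(.lf (nat_lit 506409) (.g (nat_lit 4801) (.e (nat_lit 164330) (nat_lit 230) (.e (nat_lit 163902) (nat_lit 12) (.e (nat_lit 426438) (nat_lit 18) (.e (nat_lit 98373) (nat_lit 29) (.e (nat_lit 450563) (nat_lit 0) (.e (nat_lit 6839) (nat_lit 369) (.e (nat_lit 163862) (nat_lit 1) .nil))))))) (.g (nat_lit 1) (.e (nat_lit 183959) (nat_lit 0) .nil) .nil)))) (.nd (nat_lit 9) 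
(.lf (nat_lit 506153) (.g (nat_lit 4652) (.e (nat_lit 164329) (nat_lit 230) (.e (nat_lit 163873) (nat_lit 3) (.e (nat_lit 204813) (nat_lit 9) (.e (nat_lit 426258) (nat_lit 9) .nil)))) (.g (nat_lit 0) (.e (nat_lit 183362) (nat_lit 0) .nil) .nil))) 
(.lf (nat_lit 506665) (.g (nat_lit 1165) (.e (nat_lit 164332) (nat_lit 230) (.e (nat_lit 163873) (nat_lit 3) (.e (nat_lit 204811) (nat_lit 9) (.e (nat_lit 426260) (nat_lit 9) (.e (nat_lit 433920) (nat_lit 34) (.e (nat_lit 393252) (nat_lit 18) .nil)))))) (.g (nat_lit 1) (.e (nat_lit 184625) (nat_lit 0) .nil) .nil))))) (.nd (nat_lit 8) (.nd (nat_lit 9) 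
(.lf (nat_lit 506025) (.g (nat_lit 3579) (.e (nat_lit 164327) (nat_lit 230) (.e (nat_lit 163903) (nat_lit 12) (.e (nat_lit 426566) (nat_lit 34) (.e (nat_lit 393296) (nat_lit 26) (.e (nat_lit 475177) (nat_lit 24) (.e (nat_lit 516118) (nat_lit 1) .nil)))))) (.g (nat_lit 1) (.e (nat_lit 182979) (nat_lit 0) .nil) .nil))) 
(.lf (nat_lit 506537) (.g (nat_lit 3039) (.e (nat_lit 164331) (nat_lit 230) (.e (nat_lit 163902) (nat_lit 12) (.e (nat_lit 426566) (nat_lit 34) (.e (nat_lit 393290) (nat_lit 26) (.e (nat_lit 475179) (nat_lit 24) .nil))))) (.g (nat_lit 0) (.e (nat_lit 184332) (nat_lit 0) .nil) .nil)))) (.nd (nat_lit 9) 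
(.lf (nat_lit 506281) (.g (nat_lit 1334) (.e (nat_lit 164329) (nat_lit 230) (.e (nat_lit 163942) (nat_lit 19) (.e (nat_lit 483341) (nat_lit 9) (.e (nat_lit 426200) (nat_lit 9) (.e (nat_lit 426360) (nat_lit 15) .nil))))) (.g (nat_lit 0) (.e (nat_lit 183744) (nat_lit 0) .nil) .nil))) 
(.lf (nat_lit 506793) (.g (nat_lit 4210) (.e (nat_lit 164332) (nat_lit 230) (.e (nat_lit 163902) (nat_lit 12) (.e (nat_lit 426568) (nat_lit 34) (.e (nat_lit 393294) (nat_lit 26) (.e (nat_lit 475177) (nat_lit 24) (.e (nat_lit 516120) (nat_lit 1) .nil)))))) (.g (nat_lit 1) (.e (nat_lit 184871) (nat_lit 0) .nil) .nil)))))) (.nd (nat_lit 7) (.nd (nat_lit 8) (.nd (nat_lit 9) 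
(.lf (nat_lit 505961) (.g (nat_lit 1985) (.e (nat_lit 164327) (nat_lit 230) (.e (nat_lit 163875) (nat_lit 3) (.e (nat_lit 204837) (nat_lit 20) (.e (nat_lit 114716) (nat_lit 22) (.e (nat_lit 90137) (nat_lit 9) .nil))))) (.g (nat_lit 0) (.e (nat_lit 182874) (nat_lit 0) .nil) .nil))) 
(.lf (nat_lit 506473) (.g (nat_lit 1278) (.e (nat_lit 164330) (nat_lit 230) (.e (nat_lit 163941) (nat_lit 19) (.e (nat_lit 483341) (nat_lit 9) (.e (nat_lit 426200) (nat_lit 9) .nil)))) (.g (nat_lit 0) (.e (nat_lit 184230) (nat_lit 0) .nil) .nil)))) (.nd (nat_lit 9) 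
(.lf (nat_lit 506217) (.g (nat_lit 1348) (.e (nat_lit 164329) (nat_lit 230) (.e (nat_lit 163902) (nat_lit 12) (.e (nat_lit 426568) (nat_lit 34) (.e (nat_lit 393269) (nat_lit 23) .nil)))) (.g (nat_lit 0) (.e (nat_lit 183477) (nat_lit 0) .nil) .nil))) 
(.lf (nat_lit 506729) (.g (nat_lit 2426) (.e (nat_lit 164332) (nat_lit 230) (.e (nat_lit 163902) (nat_lit 12) (.e (nat_lit 426438) (nat_lit 18) (.e (nat_lit 98372) (nat_lit 29) (.e (nat_lit 450561) (nat_lit 0) (.e (nat_lit 6839) (nat_lit 369) (.e (nat_lit 163862) (nat_lit 1) .nil))))))) (.g (nat_lit 1) (.e (nat_lit 184785) (nat_lit 0) .nil) .nil))))) (.nd (nat_lit 8) (.nd (nat_lit 9) 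
(.lf (nat_lit 506089) (.g (nat_lit 602) (.e (nat_lit 164329) (nat_lit 230) (.e (nat_lit 163867) (nat_lit 2) (.e (nat_lit 196628) (nat_lit 9) .nil))) (.g (nat_lit 0) (.e (nat_lit 183285) (nat_lit 0) .nil) .nil))) 
(.lf (nat_lit 506601) (.g (nat_lit 1614) (.e (nat_lit 164332) (nat_lit 230) (.e (nat_lit 163867) (nat_lit 2) (.e (nat_lit 196654) (nat_lit 11) (.e (nat_lit 16466) (nat_lit 13) (.e (nat_lit 491264) (nat_lit 9) .nil))))) (.g (nat_lit 0) (.e (nat_lit 184516) (nat_lit 0) .nil) .nil)))) (.nd (nat_lit 9) 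
(.lf (nat_lit 506345) (.g (nat_lit 4569) (.e (nat_lit 164330) (nat_lit 230) (.e (nat_lit 163873) (nat_lit 3) (.e (nat_lit 204813) (nat_lit 9) (.e (nat_lit 426137) (nat_lit 3) .nil)))) (.g (nat_lit 0) (.e (nat_lit 183848) (nat_lit 0) .nil) .nil))) 
(.lf (nat_lit 506857) (.g (nat_lit 2188) (.e (nat_lit 164332) (nat_lit 230) (.e (nat_lit 163941) (nat_lit 19) (.e (nat_lit 483341) (nat_lit 9) (.e (nat_lit 426198) (nat_lit 9) (.e (nat_lit 433920) (nat_lit 18) (.e (nat_lit 98333) (nat_lit 18) .nil)))))) (.g (nat_lit 1) (.e (nat_lit 185164) (nat_lit 0) .nil) .nil)))))))) 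
(.nd (nat_lit 5) (.nd (nat_lit 6) (.nd (nat_lit 7) (.nd (nat_lit 8) (.nd (nat_lit 9) 
(.lf (nat_lit 505881) (.g (nat_lit 2670) (.e (nat_lit 164327) (nat_lit 230) (.e (nat_lit 163871) (nat_lit 2) (.e (nat_lit 196656) (nat_lit 11) (.e (nat_lit 16438) (nat_lit 9) (.e (nat_lit 426568) (nat_lit 34) .nil))))) (.g (nat_lit 0) (.e (nat_lit 182665) (nat_lit 0) .nil) .nil))) 
(.lf (nat_lit 506393) (.g (nat_lit 700) (.e (nat_lit 164330) (nat_lit 230) (.e (nat_lit 163902) (nat_lit 12) (.e (nat_lit 426233) (nat_lit 9) .nil))) (.g (nat_lit 0) (.e (nat_lit 183939) (nat_lit 0) .nil) .nil)))) (.nd (nat_lit 9) 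
(.lf (nat_lit 506137) (.g (nat_lit 3635) (.e (nat_lit 164329) (nat_lit 230) (.e (nat_lit 163873) (nat_lit 3) (.e (nat_lit 204813) (nat_lit 9) (.e (nat_lit 426139) (nat_lit 3) .nil)))) (.g (nat_lit 0) (.e (nat_lit 183346) (nat_lit 0) .nil) .nil))) 
(.lf (nat_lit 506649) (.g (nat_lit 2108) (.e (nat_lit 164332) (nat_lit 230) (.e (nat_lit 163869) (nat_lit 2) (.e (nat_lit 196656) (nat_lit 11) (.e (nat_lit 16436) (nat_lit 9) (.e (nat_lit 426481) (nat_lit 27) .nil))))) (.g (nat_lit 0) (.e (nat_lit 184602) (nat_lit 0) .nil) .nil))))) (.nd (nat_lit 8) (.nd (nat_lit 9) 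
(.lf (nat_lit 506009) (.g (nat_lit 746) (.e (nat_lit 164327) (nat_lit 230) (.e (nat_lit 163903) (nat_lit 12) (.e (nat_lit 426484) (nat_lit 27) .nil))) (.g (nat_lit 0) (.e (nat_lit 182963) (nat_lit 0) .nil) .nil))) 
(.lf (nat_lit 506521) (.g (nat_lit 3996) (.e (nat_lit 164331) (nat_lit 230) (.e (nat_lit 163873) (nat_lit 3) (.e (nat_lit 204813) (nat_lit 9) (.e (nat_lit 426200) (nat_lit 9) (.e (nat_lit 426566) (nat_lit 34) (.e (nat_lit 393253) (nat_lit 18) .nil)))))) (.g (nat_lit 1) (.e (nat_lit 184297) (nat_lit 0) .nil) .nil)))) (.nd (nat_lit 9) 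
(.lf (nat_lit 506265) (.g (nat_lit 3957) (.e (nat_lit 164329) (nat_lit 230) (.e (nat_lit 163941) (nat_lit 19) (.e (nat_lit 483341) (nat_lit 9) (.e (nat_lit 426213) (nat_lit 9) .nil)))) (.g (nat_lit 0) (.e (nat_lit 183723) (nat_lit 0) .nil) .nil))) 
(.lf (nat_lit 506777) (.g (nat_lit 429) (.e (nat_lit 164332) (nat_lit 230) (.e (nat_lit 163902) (nat_lit 12) (.e (nat_lit 426568) (nat_lit 34) .nil))) (.g (nat_lit 0) (.e (nat_lit 184853) (nat_lit 0) .nil) .nil)))))) (.nd (nat_lit 7) (.nd (nat_lit 8) (.nd (nat_lit 9) 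
(.lf (nat_lit 505945) (.g (nat_lit 1998) (.e (nat_lit 164327) (nat_lit 230) (.e (nat_lit 163875) (nat_lit 3) (.e (nat_lit 204813) (nat_lit 9) (.e (nat_lit 426188) (nat_lit 9) (.e (nat_lit 426481) (nat_lit 27) .nil))))) (.g (nat_lit 0) (.e (nat_lit 182831) (nat_lit 0) .nil) .nil))) 
(.lf (nat_lit 506457) (.g (nat_lit 1768) (.e (nat_lit 164330) (nat_lit 230) (.e (nat_lit 163905) (nat_lit 12) (.e (nat_lit 426568) (nat_lit 34) (.e (nat_lit 393294) (nat_lit 26) (.e (nat_lit 475176) (nat_lit 24) .nil))))) (.g (nat_lit 0) (.e (nat_lit 184044) (nat_lit 0) .nil) .nil)))) (.nd (nat_lit 9) 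
(.lf (nat_lit 506201) (.g (nat_lit 3208) (.e (nat_lit 164329) (nat_lit 230) (.e (nat_lit 163902) (nat_lit 12) (.e (nat_lit 426481) (nat_lit 27) (.e (nat_lit 336389) (nat_lit 27) (.e (nat_lit 426308) (nat_lit 12) (.e (nat_lit 475175) (nat_lit 24) (.e (nat_lit 516120) (nat_lit 1) .nil))))))) (.g (nat_lit 1) (.e (nat_lit 183448) (nat_lit 0) .nil) .nil))) 
(.lf (nat_lit 506713) (.g (nat_lit 3580) (.e (nat_lit 164332) (nat_lit 230) (.e (nat_lit 163880) (nat_lit 4) (.e (nat_lit 213032) (nat_lit 11) (.e (nat_lit 24630) (nat_lit 9) (.e (nat_lit 336443) (nat_lit 32) (.e (nat_lit 466972) (nat_lit 21) .nil)))))) (.g (nat_lit 1) (.e (nat_lit 184718) (nat_lit 0) .nil) .nil))))) (.nd (nat_lit 8) (.nd (nat_lit 9) 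
(.lf (nat_lit 506073) (.g (nat_lit 1687) (.e (nat_lit 164328) (nat_lit 230) (.e (nat_lit 163905) (nat_lit 12) (.e (nat_lit 426566) (nat_lit 34) (.e (nat_lit 393296) (nat_lit 26) .nil)))) (.g (nat_lit 0) (.e (nat_lit 183190) (nat_lit 0) .nil) .nil))) 
(.lf (nat_lit 506585) (.g (nat_lit 1974) (.e (nat_lit 164332) (nat_lit 230) (.e (nat_lit 163867) (nat_lit 2) (.e (nat_lit 196624) (nat_lit 9) (.e (nat_lit 455) (nat_lit 34) (.e (nat_lit 450304) (nat_lit 18) (.e (nat_lit 393252) (nat_lit 18) .nil)))))) (.g (nat_lit 1) (.e (nat_lit 184490) (nat_lit 0) .nil) .nil)))) (.nd (nat_lit 9) 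
(.lf (nat_lit 506329) (.g (nat_lit 2685) (.e (nat_lit 164330) (nat_lit 230) (.e (nat_lit 163869) (nat_lit 2) (.e (nat_lit 196656) (nat_lit 11) (.e (nat_lit 16466) (nat_lit 13) (.e (nat_lit 483336) (nat_lit 9) .nil))))) (.g (nat_lit 0) (.e (nat_lit 183816) (nat_lit 0) .nil) .nil))) 
(.lf (nat_lit 506841) (.g (nat_lit 3194) (.e (nat_lit 164332) (nat_lit 230) (.e (nat_lit 163905) (nat_lit 12) (.e (nat_lit 426568) (nat_lit 34) (.e (nat_lit 393293) (nat_lit 26) (.e (nat_lit 475179) (nat_lit 24) (.e (nat_lit 516117) (nat_lit 1) .nil)))))) (.g (nat_lit 1) (.e (nat_lit 185011) (nat_lit 0) .nil) .nil))))))) (.nd (nat_lit 6) (.nd (nat_lit 7) (.nd (nat_lit 8) (.nd (nat_lit 9) 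
(.lf (nat_lit 505913) (.g (nat_lit 2678) (.e (nat_lit 164327) (nat_lit 230) (.e (nat_lit 163873) (nat_lit 3) (.e (nat_lit 204813) (nat_lit 9) (.e (nat_lit 426187) (nat_lit 9) .nil)))) (.g (nat_lit 0) (.e (nat_lit 182742) (nat_lit 0) .nil) .nil))) 
(.lf (nat_lit 506425) (.g (nat_lit 2545) (.e (nat_lit 164330) (nat_lit 230) (.e (nat_lit 163902) (nat_lit 12) (.e (nat_lit 426472) (nat_lit 25) (.e (nat_lit 319534) (nat_lit 16) (.e (nat_lit 286756) (nat_lit 10) (.e (nat_lit 344099) (nat_lit 18) (.e (nat_lit 7290) (nat_lit 386) (.e (nat_lit 163864) (nat_lit 1) .nil)))))))) (.g (nat_lit 1) (.e (nat_lit 183975) (nat_lit 0) .nil) .nil)))) 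
(.nd (nat_lit 9) 
(.lf (nat_lit 506169) (.g (nat_lit 2357) (.e (nat_lit 164329) (nat_lit 230) (.e (nat_lit 163902) (nat_lit 12) (.e (nat_lit 426422) (nat_lit 16) (.e (nat_lit 57688) (nat_lit 156) (.e (nat_lit 163932) (nat_lit 17) (.e (nat_lit 466972) (nat_lit 21) (.e (nat_lit 164332) (nat_lit 230) (.e (nat_lit 163860) (nat_lit 1) .nil)))))))) (.g (nat_lit 1) (.e (nat_lit 183408) (nat_lit 0) .nil) .nil))) 
(.lf (nat_lit 506681) (.g (nat_lit 2883) (.e (nat_lit 164332) (nat_lit 230) (.e (nat_lit 163873) (nat_lit 3) (.e (nat_lit 204813) (nat_lit 9) (.e (nat_lit 426199) (nat_lit 9) (.e (nat_lit 426567) (nat_lit 34) .nil))))) (.g (nat_lit 0) (.e (nat_lit 184653) (nat_lit 0) .nil) .nil))))) (.nd (nat_lit 8) (.nd (nat_lit 9) 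
(.lf (nat_lit 506041) (.g (nat_lit 1120) (.e (nat_lit 164327) (nat_lit 230) (.e (nat_lit 163907) (nat_lit 12) (.e (nat_lit 426479) (nat_lit 27) .nil))) (.g (nat_lit 0) (.e (nat_lit 183025) (nat_lit 0) .nil) .nil))) 
(.lf (nat_lit 506553) (.g (nat_lit 1001) (.e (nat_lit 164331) (nat_lit 230) (.e (nat_lit 163905) (nat_lit 12) (.e (nat_lit 426566) (nat_lit 34) .nil))) (.g (nat_lit 0) (.e (nat_lit 184353) (nat_lit 0) .nil) .nil)))) (.nd (nat_lit 9) 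
(.lf (nat_lit 506297) (.g (nat_lit 525) (.e (nat_lit 164330) (nat_lit 230) (.e (nat_lit 163867) (nat_lit 2) (.e (nat_lit 196656) (nat_lit 11) .nil))) (.g (nat_lit 0) (.e (nat_lit 183771) (nat_lit 0) .nil) .nil))) 
(.lf (nat_lit 506809) (.g (nat_lit 1717) (.e (nat_lit 164332) (nat_lit 230) (.e (nat_lit 163905) (nat_lit 12) (.e (nat_lit 426438) (nat_lit 18) (.e (nat_lit 98373) (nat_lit 29) (.e (nat_lit 458496) (nat_lit 0) .nil))))) (.g (nat_lit 0) (.e (nat_lit 184939) (nat_lit 0) .nil) .nil)))))) (.nd (nat_lit 7) (.nd (nat_lit 8) (.nd (nat_lit 9) 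
(.lf (nat_lit 505977) (.g (nat_lit 1494) (.e (nat_lit 164327) (nat_lit 230) (.e (nat_lit 163881) (nat_lit 4) (.e (nat_lit 213030) (nat_lit 11) (.e (nat_lit 24660) (nat_lit 13) (.e (nat_lit 393277) (nat_lit 23) (.e (nat_lit 426103) (nat_lit 1) .nil)))))) (.g (nat_lit 1) (.e (nat_lit 182891) (nat_lit 0) .nil) .nil))) 
(.lf (nat_lit 506489) (.g (nat_lit 3520) (.e (nat_lit 164331) (nat_lit 230) (.e (nat_lit 163867) (nat_lit 2) (.e (nat_lit 196654) (nat_lit 11) (.e (nat_lit 16433) (nat_lit 9) (.e (nat_lit 426568) (nat_lit 34) (.e (nat_lit 393253) (nat_lit 18) .nil)))))) (.g (nat_lit 1) (.e (nat_lit 184256) (nat_lit 0) .nil) .nil)))) (.nd (nat_lit 9) 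
(.lf (nat_lit 506233) (.g (nat_lit 1253) (.e (nat_lit 164329) (nat_lit 230) (.e (nat_lit 163902) (nat_lit 12) (.e (nat_lit 426568) (nat_lit 34) (.e (nat_lit 393292) (nat_lit 26) .nil)))) (.g (nat_lit 0) (.e (nat_lit 183493) (nat_lit 0) .nil) .nil))) 
(.lf (nat_lit 506745) (.g (nat_lit 2699) (.e (nat_lit 164332) (nat_lit 230) (.e (nat_lit 163902) (nat_lit 12) (.e (nat_lit 426472) (nat_lit 25) (.e (nat_lit 319534) (nat_lit 16) (.e (nat_lit 286749) (nat_lit 9) (.e (nat_lit 335997) (nat_lit 1) (.e (nat_lit 57688) (nat_lit 156) (.e (nat_lit 163860) (nat_lit 1) .nil)))))))) (.g (nat_lit 1) (.e (nat_lit 184803) (nat_lit 0) .nil) .nil))))) 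
(.nd (nat_lit 8) (.nd (nat_lit 9) 
(.lf (nat_lit 506105) (.g (nat_lit 3000) (.e (nat_lit 164329) (nat_lit 230) (.e (nat_lit 163867) (nat_lit 2) (.e (nat_lit 196656) (nat_lit 11) (.e (nat_lit 16416) (nat_lit 3) (.e (nat_lit 204821) (nat_lit 17) .nil))))) (.g (nat_lit 0) (.e (nat_lit 183304) (nat_lit 0) .nil) .nil))) 
(.lf (nat_lit 506617) (.g (nat_lit 323) (.e (nat_lit 164332) (nat_lit 230) (.e (nat_lit 163869) (nat_lit 2) (.e (nat_lit 196624) (nat_lit 9) .nil))) (.g (nat_lit 0) (.e (nat_lit 184557) (nat_lit 0) .nil) .nil)))) (.nd (nat_lit 9) 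
(.lf (nat_lit 506361) (.g (nat_lit 3076) (.e (nat_lit 164330) (nat_lit 230) (.e (nat_lit 163873) (nat_lit 3) (.e (nat_lit 204813) (nat_lit 9) (.e (nat_lit 426199) (nat_lit 9) (.e (nat_lit 426567) (nat_lit 34) .nil))))) (.g (nat_lit 0) (.e (nat_lit 183867) (nat_lit 0) .nil) .nil))) 
(.lf (nat_lit 506873) (.g (nat_lit 2055) (.e (nat_lit 164332) (nat_lit 230) (.e (nat_lit 163943) (nat_lit 19) (.e (nat_lit 483341) (nat_lit 9) (.e (nat_lit 426198) (nat_lit 9) (.e (nat_lit 426376) (nat_lit 15) .nil))))) (.g (nat_lit 0) (.e (nat_lit 185201) (nat_lit 0) .nil) .nil)))))))))) 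
(.nd (nat_lit 3) (.nd (nat_lit 4) (.nd (nat_lit 5) (.nd (nat_lit 6) (.nd (nat_lit 7) 
(.nd (nat_lit 8) (.nd (nat_lit 9) 
(.lf (nat_lit 505861) (.g (nat_lit 2392) (.e (nat_lit 164327) (nat_lit 230) (.e (nat_lit 163871) (nat_lit 2) (.e (nat_lit 196654) (nat_lit 11) (.e (nat_lit 16466) (nat_lit 13) (.e (nat_lit 483341) (nat_lit 9) (.e (nat_lit 433920) (nat_lit 1) .nil)))))) (.g (nat_lit 1) (.e (nat_lit 182633) (nat_lit 0) .nil) .nil))) 
(.lf (nat_lit 506373) (.g (nat_lit 473) (.e (nat_lit 164330) (nat_lit 230) (.e (nat_lit 163874) (nat_lit 3) (.e (nat_lit 204809) (nat_lit 9) .nil))) (.g (nat_lit 0) (.e (nat_lit 183901) (nat_lit 0) .nil) .nil)))) (.nd (nat_lit 9) 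
(.lf (nat_lit 506117) (.g (nat_lit 2485) (.e (nat_lit 164329) (nat_lit 230) (.e (nat_lit 163869) (nat_lit 2) (.e (nat_lit 196654) (nat_lit 11) (.e (nat_lit 16463) (nat_lit 13) (.e (nat_lit 483341) (nat_lit 9) .nil))))) (.g (nat_lit 0) (.e (nat_lit 183319) (nat_lit 0) .nil) .nil))) 
(.lf (nat_lit 506629) (.g (nat_lit 4583) (.e (nat_lit 164332) (nat_lit 230) (.e (nat_lit 163869) (nat_lit 2) (.e (nat_lit 196654) (nat_lit 11) (.e (nat_lit 16416) (nat_lit 3) (.e (nat_lit 204838) (nat_lit 20) (.e (nat_lit 114719) (nat_lit 23) (.e (nat_lit 98334) (nat_lit 18) .nil))))))) (.g (nat_lit 1) (.e (nat_lit 184575) (nat_lit 0) .nil) .nil))))) (.nd (nat_lit 8) (.nd (nat_lit 9) 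
(.lf (nat_lit 505989) (.g (nat_lit 3354) (.e (nat_lit 164327) (nat_lit 230) (.e (nat_lit 163882) (nat_lit 4) (.e (nat_lit 213032) (nat_lit 11) (.e (nat_lit 24630) (nat_lit 9) (.e (nat_lit 336443) (nat_lit 32) (.e (nat_lit 466971) (nat_lit 21) .nil)))))) (.g (nat_lit 1) (.e (nat_lit 182907) (nat_lit 0) .nil) .nil))) 
(.lf (nat_lit 506501) (.g (nat_lit 2221) (.e (nat_lit 164331) (nat_lit 230) (.e (nat_lit 163867) (nat_lit 2) (.e (nat_lit 196656) (nat_lit 11) (.e (nat_lit 16466) (nat_lit 13) (.e (nat_lit 483337) (nat_lit 9) .nil))))) (.g (nat_lit 0) (.e (nat_lit 184270) (nat_lit 0) .nil) .nil)))) (.nd (nat_lit 9) 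
(.lf (nat_lit 506245) (.g (nat_lit 3065) (.e (nat_lit 164329) (nat_lit 230) (.e (nat_lit 163941) (nat_lit 19) (.e (nat_lit 483333) (nat_lit 0) (.e (nat_lit 7348) (nat_lit 388) (.e (nat_lit 3067) (nat_lit 190) (.e (nat_lit 475178) (nat_lit 24) (.e (nat_lit 516117) (nat_lit 1) .nil))))))) (.g (nat_lit 1) (.e (nat_lit 183692) (nat_lit 0) .nil) .nil))) 
(.lf (nat_lit 506757) (.g (nat_lit 660) (.e (nat_lit 164332) (nat_lit 230) (.e (nat_lit 163902) (nat_lit 12) (.e (nat_lit 426484) (nat_lit 27) .nil))) (.g (nat_lit 0) (.e (nat_lit 184817) (nat_lit 0) .nil) .nil)))))) (.nd (nat_lit 7) (.nd (nat_lit 8) (.nd (nat_lit 9) 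
(.lf (nat_lit 505925) (.g (nat_lit 4268) (.e (nat_lit 164327) (nat_lit 230) (.e (nat_lit 163873) (nat_lit 3) (.e (nat_lit 204813) (nat_lit 9) (.e (nat_lit 426213) (nat_lit 9) (.e (nat_lit 426528) (nat_lit 27) .nil))))) (.g (nat_lit 0) (.e (nat_lit 182760) (nat_lit 0) .nil) .nil))) 
(.lf (nat_lit 506437) (.g (nat_lit 1608) (.e (nat_lit 164330) (nat_lit 230) (.e (nat_lit 163902) (nat_lit 12) (.e (nat_lit 426568) (nat_lit 34) (.e (nat_lit 393291) (nat_lit 26) .nil)))) (.g (nat_lit 0) (.e (nat_lit 183998) (nat_lit 0) .nil) .nil)))) (.nd (nat_lit 9) 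
(.lf (nat_lit 506181) (.g (nat_lit 2585) (.e (nat_lit 164329) (nat_lit 230) (.e (nat_lit 163902) (nat_lit 12) (.e (nat_lit 426438) (nat_lit 18) (.e (nat_lit 98372) (nat_lit 29) (.e (nat_lit 450564) (nat_lit 0) (.e (nat_lit 7936) (nat_lit 369) (.e (nat_lit 163860) (nat_lit 1) .nil))))))) (.g (nat_lit 1) (.e (nat_lit 183425) (nat_lit 0) .nil) .nil))) 
(.lf (nat_lit 506693) (.g (nat_lit 361) (.e (nat_lit 164332) (nat_lit 230) (.e (nat_lit 163874) (nat_lit 3) (.e (nat_lit 204809) (nat_lit 9) .nil))) (.g (nat_lit 0) (.e (nat_lit 184683) (nat_lit 0) .nil) .nil))))) (.nd (nat_lit 8) (.nd (nat_lit 9) 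
(.lf (nat_lit 506053) (.g (nat_lit 3266) (.e (nat_lit 164327) (nat_lit 230) (.e (nat_lit 163941) (nat_lit 19) (.e (nat_lit 483341) (nat_lit 9) (.e (nat_lit 426213) (nat_lit 9) .nil)))) (.g (nat_lit 0) (.e (nat_lit 183146) (nat_lit 0) .nil) .nil))) 
(.lf (nat_lit 506565) (.g (nat_lit 4067) (.e (nat_lit 164331) (nat_lit 230) (.e (nat_lit 163941) (nat_lit 19) (.e (nat_lit 483341) (nat_lit 9) (.e (nat_lit 426213) (nat_lit 9) .nil)))) (.g (nat_lit 0) (.e (nat_lit 184442) (nat_lit 0) .nil) .nil)))) (.nd (nat_lit 9) 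
(.lf (nat_lit 506309) (.g (nat_lit 1675) (.e (nat_lit 164330) (nat_lit 230) (.e (nat_lit 163869) (nat_lit 2) (.e (nat_lit 196624) (nat_lit 9) (.e (nat_lit 389) (nat_lit 32) .nil)))) (.g (nat_lit 0) (.e (nat_lit 183789) (nat_lit 0) .nil) .nil))) 
(.lf (nat_lit 506821) (.g (nat_lit 948) (.e (nat_lit 164332) (nat_lit 230) (.e (nat_lit 163905) (nat_lit 12) (.e (nat_lit 426494) (nat_lit 27) .nil))) (.g (nat_lit 0) (.e (nat_lit 184970) (nat_lit 0) .nil) .nil))))))) (.nd (nat_lit 6) (.nd (nat_lit 7) (.nd (nat_lit 8) (.nd (nat_lit 9) 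
(.lf (nat_lit 505893) (.g (nat_lit 495) (.e (nat_lit 164327) (nat_lit 230) (.e (nat_lit 163873) (nat_lit 3) (.e (nat_lit 204805) (nat_lit 0) .nil))) (.g (nat_lit 0) (.e (nat_lit 182689) (nat_lit 0) .nil) .nil))) 
(.lf (nat_lit 506405) (.g (nat_lit 4892) (.e (nat_lit 164330) (nat_lit 230) (.e (nat_lit 163902) (nat_lit 12) (.e (nat_lit 426438) (nat_lit 18) (.e (nat_lit 98373) (nat_lit 29) (.e (nat_lit 450562) (nat_lit 0) (.e (nat_lit 6839) (nat_lit 369) (.e (nat_lit 163862) (nat_lit 1) .nil))))))) (.g (nat_lit 1) (.e (nat_lit 183955) (nat_lit 0) .nil) .nil)))) (.nd (nat_lit 9) 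
(.lf (nat_lit 506149) (.g (nat_lit 3890) (.e (nat_lit 164329) (nat_lit 230) (.e (nat_lit 163873) (nat_lit 3) (.e (nat_lit 204813) (nat_lit 9) (.e (nat_lit 426204) (nat_lit 9) .nil)))) (.g (nat_lit 0) (.e (nat_lit 183358) (nat_lit 0) .nil) .nil))) 
(.lf (nat_lit 506661) (.g (nat_lit 630) (.e (nat_lit 164332) (nat_lit 230) (.e (nat_lit 163873) (nat_lit 3) (.e (nat_lit 204803) (nat_lit 0) .nil))) (.g (nat_lit 0) (.e (nat_lit 184619) (nat_lit 0) .nil) .nil))))) (.nd (nat_lit 8) (.nd (nat_lit 9) 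
(.lf (nat_lit 506021) (.g (nat_lit 2411) (.e (nat_lit 164327) (nat_lit 230) (.e (nat_lit 163903) (nat_lit 12) (.e (nat_lit 426566) (nat_lit 34) (.e (nat_lit 393292) (nat_lit 26) (.e (nat_lit 475177) (nat_lit 24) .nil))))) (.g (nat_lit 0) (.e (nat_lit 182975) (nat_lit 0) .nil) .nil))) 
(.lf (nat_lit 506533) (.g (nat_lit 746) (.e (nat_lit 164331) (nat_lit 230) (.e (nat_lit 163902) (nat_lit 12) (.e (nat_lit 426479) (nat_lit 27) .nil))) (.g (nat_lit 0) (.e (nat_lit 184325) (nat_lit 0) .nil) .nil)))) (.nd (nat_lit 9) 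
(.lf (nat_lit 506277) (.g (nat_lit 1333) (.e (nat_lit 164329) (nat_lit 230) (.e (nat_lit 163942) (nat_lit 19) (.e (nat_lit 483341) (nat_lit 9) (.e (nat_lit 426197) (nat_lit 9) .nil)))) (.g (nat_lit 0) (.e (nat_lit 183740) (nat_lit 0) .nil) .nil))) 
(.lf (nat_lit 506789) (.g (nat_lit 1396) (.e (nat_lit 164332) (nat_lit 230) (.e (nat_lit 163902) (nat_lit 12) (.e (nat_lit 426568) (nat_lit 34) (.e (nat_lit 393291) (nat_lit 26) .nil)))) (.g (nat_lit 0) (.e (nat_lit 184867) (nat_lit 0) .nil) .nil)))))) (.nd (nat_lit 7) (.nd (nat_lit 8) (.nd (nat_lit 9) 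
(.lf (nat_lit 505957) (.g (nat_lit 2063) (.e (nat_lit 164327) (nat_lit 230) (.e (nat_lit 163875) (nat_lit 3) (.e (nat_lit 204830) (nat_lit 18) (.e (nat_lit 57909) (nat_lit 278) .nil)))) (.g (nat_lit 0) (.e (nat_lit 182870) (nat_lit 0) .nil) .nil))) 
(.lf (nat_lit 506469) (.g (nat_lit 2435) (.e (nat_lit 164330) (nat_lit 230) (.e (nat_lit 163941) (nat_lit 19) (.e (nat_lit 483341) (nat_lit 9) (.e (nat_lit 426198) (nat_lit 9) (.e (nat_lit 426357) (nat_lit 15) (.e (nat_lit 1796) (nat_lit 119) (.e (nat_lit 516120) (nat_lit 1) .nil))))))) (.g (nat_lit 1) (.e (nat_lit 184226) (nat_lit 0) .nil) .nil)))) (.nd (nat_lit 9) 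
(.lf (nat_lit 506213) (.g (nat_lit 1512) (.e (nat_lit 164329) (nat_lit 230) (.e (nat_lit 163902) (nat_lit 12) (.e (nat_lit 426568) (nat_lit 34) (.e (nat_lit 393267) (nat_lit 23) (.e (nat_lit 426378) (nat_lit 15) .nil))))) (.g (nat_lit 0) (.e (nat_lit 183472) (nat_lit 0) .nil) .nil))) 
(.lf (nat_lit 506725) (.g (nat_lit 2659) (.e (nat_lit 164332) (nat_lit 230) (.e (nat_lit 163902) (nat_lit 12) (.e (nat_lit 426422) (nat_lit 16) (.e (nat_lit 57688) (nat_lit 156) (.e (nat_lit 163933) (nat_lit 17) (.e (nat_lit 466972) (nat_lit 21) (.e (nat_lit 164332) (nat_lit 230) (.e (nat_lit 163860) (nat_lit 1) .nil)))))))) (.g (nat_lit 1) (.e (nat_lit 184779) (nat_lit 0) .nil) .nil))))) 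
(.nd (nat_lit 8) (.nd (nat_lit 9) 
(.lf (nat_lit 506085) (.g (nat_lit 602) (.e (nat_lit 164329) (nat_lit 230) (.e (nat_lit 163867) (nat_lit 2) (.e (nat_lit 196619) (nat_lit 9) .nil))) (.g (nat_lit 0) (.e (nat_lit 183278) (nat_lit 0) .nil) .nil))) 
(.lf (nat_lit 506597) (.g (nat_lit 2706) (.e (nat_lit 164332) (nat_lit 230) (.e (nat_lit 163867) (nat_lit 2) (.e (nat_lit 196654) (nat_lit 11) (.e (nat_lit 16463) (nat_lit 13) (.e (nat_lit 483336) (nat_lit 9) (.e (nat_lit 426100) (nat_lit 1) .nil)))))) (.g (nat_lit 1) (.e (nat_lit 184512) (nat_lit 0) .nil) .nil)))) (.nd (nat_lit 9) 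
(.lf (nat_lit 506341) (.g (nat_lit 4456) (.e (nat_lit 164330) (nat_lit 230) (.e (nat_lit 163873) (nat_lit 3) (.e (nat_lit 204813) (nat_lit 9) (.e (nat_lit 426012) (nat_lit 0) .nil)))) (.g (nat_lit 0) (.e (nat_lit 183833) (nat_lit 0) .nil) .nil))) 
(.lf (nat_lit 506853) (.g (nat_lit 1711) (.e (nat_lit 164332) (nat_lit 230) (.e (nat_lit 163941) (nat_lit 19) (.e (nat_lit 483341) (nat_lit 9) (.e (nat_lit 426198) (nat_lit 9) (.e (nat_lit 426375) (nat_lit 15) .nil))))) (.g (nat_lit 0) (.e (nat_lit 185160) (nat_lit 0) .nil) .nil)))))))) (.nd (nat_lit 5) (.nd (nat_lit 6) (.nd (nat_lit 7) (.nd (nat_lit 8) (.nd (nat_lit 9) 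
(.lf (nat_lit 505877) (.g (nat_lit 2171) (.e (nat_lit 164327) (nat_lit 230) (.e (nat_lit 163871) (nat_lit 2) (.e (nat_lit 196656) (nat_lit 11) (.e (nat_lit 16437) (nat_lit 9) .nil)))) (.g (nat_lit 0) (.e (nat_lit 182661) (nat_lit 0) .nil) .nil))) 
(.lf (nat_lit 506389) (.g (nat_lit 2542) (.e (nat_lit 164330) (nat_lit 230) (.e (nat_lit 163896) (nat_lit 10) (.e (nat_lit 409602) (nat_lit 0) (.e (nat_lit 5629) (nat_lit 312) (.e (nat_lit 311) (nat_lit 23) (.e (nat_lit 360192) (nat_lit 5) (.e (nat_lit 221206) (nat_lit 21) .nil))))))) (.g (nat_lit 1) (.e (nat_lit 183918) (nat_lit 0) .nil) .nil)))) (.nd (nat_lit 9) 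
(.lf (nat_lit 506133) (.g (nat_lit 4655) (.e (nat_lit 164329) (nat_lit 230) (.e (nat_lit 163873) (nat_lit 3) (.e (nat_lit 204813) (nat_lit 9) (.e (nat_lit 426031) (nat_lit 0) .nil)))) (.g (nat_lit 0) (.e (nat_lit 183342) (nat_lit 0) .nil) .nil))) 
(.lf (nat_lit 506645) (.g (nat_lit 2193) (.e (nat_lit 164332) (nat_lit 230) (.e (nat_lit 163869) (nat_lit 2) (.e (nat_lit 196656) (nat_lit 11) (.e (nat_lit 16416) (nat_lit 3) (.e (nat_lit 204838) (nat_lit 20) .nil))))) (.g (nat_lit 0) (.e (nat_lit 184598) (nat_lit 0) .nil) .nil))))) (.nd (nat_lit 8) (.nd (nat_lit 9) 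
(.lf (nat_lit 506005) (.g (nat_lit 746) (.e (nat_lit 164327) (nat_lit 230) (.e (nat_lit 163903) (nat_lit 12) (.e (nat_lit 426480) (nat_lit 27) .nil))) (.g (nat_lit 0) (.e (nat_lit 182958) (nat_lit 0) .nil) .nil))) 
(.lf (nat_lit 506517) (.g (nat_lit 3884) (.e (nat_lit 164331) (nat_lit 230) (.e (nat_lit 163873) (nat_lit 3) (.e (nat_lit 204813) (nat_lit 9) (.e (nat_lit 426198) (nat_lit 9) (.e (nat_lit 426566) (nat_lit 34) (.e (nat_lit 393253) (nat_lit 18) .nil)))))) (.g (nat_lit 1) (.e (nat_lit 184292) (nat_lit 0) .nil) .nil)))) (.nd (nat_lit 9) 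
(.lf (nat_lit 506261) (.g (nat_lit 3436) (.e (nat_lit 164329) (nat_lit 230) (.e (nat_lit 163941) (nat_lit 19) (.e (nat_lit 483341) (nat_lit 9) (.e (nat_lit 426190) (nat_lit 9) (.e (nat_lit 426436) (nat_lit 18) (.e (nat_lit 98335) (nat_lit 18) .nil)))))) (.g (nat_lit 1) (.e (nat_lit 183718) (nat_lit 0) .nil) .nil))) 
(.lf (nat_lit 506773) (.g (nat_lit 3564) (.e (nat_lit 164332) (nat_lit 230) (.e (nat_lit 163902) (nat_lit 12) (.e (nat_lit 426566) (nat_lit 34) (.e (nat_lit 393295) (nat_lit 26) (.e (nat_lit 475179) (nat_lit 24) (.e (nat_lit 516117) (nat_lit 1) .nil)))))) (.g (nat_lit 1) (.e (nat_lit 184849) (nat_lit 0) .nil) .nil)))))) (.nd (nat_lit 7) (.nd (nat_lit 8) (.nd (nat_lit 9) 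
(.lf (nat_lit 505941) (.g (nat_lit 515) (.e (nat_lit 164327) (nat_lit 230) (.e (nat_lit 163875) (nat_lit 3) (.e (nat_lit 204811) (nat_lit 9) .nil))) (.g (nat_lit 0) (.e (nat_lit 182825) (nat_lit 0) .nil) .nil))) 
(.lf (nat_lit 506453) (.g (nat_lit 3416) (.e (nat_lit 164330) (nat_lit 230) (.e (nat_lit 163905) (nat_lit 12) (.e (nat_lit 426568) (nat_lit 34) (.e (nat_lit 393271) (nat_lit 23) (.e (nat_lit 426436) (nat_lit 18) (.e (nat_lit 98334) (nat_lit 18) .nil)))))) (.g (nat_lit 1) (.e (nat_lit 184040) (nat_lit 0) .nil) .nil)))) (.nd (nat_lit 9) 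
(.lf (nat_lit 506197) (.g (nat_lit 1829) (.e (nat_lit 164329) (nat_lit 230) (.e (nat_lit 163902) (nat_lit 12) (.e (nat_lit 426479) (nat_lit 27) (.e (nat_lit 336443) (nat_lit 32) (.e (nat_lit 466946) (nat_lit 0) .nil))))) (.g (nat_lit 0) (.e (nat_lit 183443) (nat_lit 0) .nil) .nil))) 
(.lf (nat_lit 506709) (.g (nat_lit 2304) (.e (nat_lit 164332) (nat_lit 230) (.e (nat_lit 163880) (nat_lit 4) (.e (nat_lit 213030) (nat_lit 11) (.e (nat_lit 24655) (nat_lit 13) (.e (nat_lit 393281) (nat_lit 23) (.e (nat_lit 426099) (nat_lit 1) .nil)))))) (.g (nat_lit 1) (.e (nat_lit 184714) (nat_lit 0) .nil) .nil))))) (.nd (nat_lit 8) (.nd (nat_lit 9) 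
(.lf (nat_lit 506069) (.g (nat_lit 3184) (.e (nat_lit 164328) (nat_lit 230) (.e (nat_lit 163873) (nat_lit 3) (.e (nat_lit 204813) (nat_lit 9) (.e (nat_lit 426200) (nat_lit 9) .nil)))) (.g (nat_lit 0) (.e (nat_lit 183180) (nat_lit 0) .nil) .nil))) 
(.lf (nat_lit 506581) (.g (nat_lit 1070) (.e (nat_lit 164332) (nat_lit 230) (.e (nat_lit 163867) (nat_lit 2) (.e (nat_lit 196622) (nat_lit 9) (.e (nat_lit 478) (nat_lit 37) (.e (nat_lit 474880) (nat_lit 18) .nil))))) (.g (nat_lit 0) (.e (nat_lit 184483) (nat_lit 0) .nil) .nil)))) (.nd (nat_lit 9) 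
(.lf (nat_lit 506325) (.g (nat_lit 3024) (.e (nat_lit 164330) (nat_lit 230) (.e (nat_lit 163869) (nat_lit 2) (.e (nat_lit 196656) (nat_lit 11) (.e (nat_lit 16416) (nat_lit 3) (.e (nat_lit 204817) (nat_lit 17) .nil))))) (.g (nat_lit 0) (.e (nat_lit 183809) (nat_lit 0) .nil) .nil))) 
(.lf (nat_lit 506837) (.g (nat_lit 260) (.e (nat_lit 164332) (nat_lit 230) (.e (nat_lit 163905) (nat_lit 12) (.e (nat_lit 426568) (nat_lit 34) .nil))) (.g (nat_lit 0) (.e (nat_lit 185006) (nat_lit 0) .nil) .nil))))))) (.nd (nat_lit 6) (.nd (nat_lit 7) (.nd (nat_lit 8) (.nd (nat_lit 9) 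
(.lf (nat_lit 505909) (.g (nat_lit 3536) (.e (nat_lit 164327) (nat_lit 230) (.e (nat_lit 163873) (nat_lit 3) (.e (nat_lit 204813) (nat_lit 9) (.e (nat_lit 426138) (nat_lit 3) .nil)))) (.g (nat_lit 0) (.e (nat_lit 182729) (nat_lit 0) .nil) .nil))) 
(.lf (nat_lit 506421) (.g (nat_lit 2591) (.e (nat_lit 164330) (nat_lit 230) (.e (nat_lit 163902) (nat_lit 12) (.e (nat_lit 426472) (nat_lit 25) (.e (nat_lit 319534) (nat_lit 16) (.e (nat_lit 286749) (nat_lit 9) (.e (nat_lit 335997) (nat_lit 1) (.e (nat_lit 57692) (nat_lit 156) (.e (nat_lit 163862) (nat_lit 1) .nil)))))))) (.g (nat_lit 1) (.e (nat_lit 183971) (nat_lit 0) .nil) .nil)))) 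
(.nd (nat_lit 9) 
(.lf (nat_lit 506165) (.g (nat_lit 1020) (.e (nat_lit 164329) (nat_lit 230) (.e (nat_lit 163900) (nat_lit 12) (.e (nat_lit 426566) (nat_lit 34) (.e (nat_lit 393296) (nat_lit 26) .nil)))) (.g (nat_lit 0) (.e (nat_lit 183398) (nat_lit 0) .nil) .nil))) 
(.lf (nat_lit 506677) (.g (nat_lit 2987) (.e (nat_lit 164332) (nat_lit 230) (.e (nat_lit 163873) (nat_lit 3) (.e (nat_lit 204813) (nat_lit 9) (.e (nat_lit 426196) (nat_lit 9) .nil)))) (.g (nat_lit 0) (.e (nat_lit 184648) (nat_lit 0) .nil) .nil))))) (.nd (nat_lit 8) (.nd (nat_lit 9) 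
(.lf (nat_lit 506037) (.g (nat_lit 1861) (.e (nat_lit 164327) (nat_lit 230) (.e (nat_lit 163903) (nat_lit 12) (.e (nat_lit 426568) (nat_lit 34) (.e (nat_lit 393295) (nat_lit 26) .nil)))) (.g (nat_lit 0) (.e (nat_lit 182992) (nat_lit 0) .nil) .nil))) 
(.lf (nat_lit 506549) (.g (nat_lit 2356) (.e (nat_lit 164331) (nat_lit 230) (.e (nat_lit 163902) (nat_lit 12) (.e (nat_lit 426568) (nat_lit 34) (.e (nat_lit 393291) (nat_lit 26) (.e (nat_lit 475177) (nat_lit 24) .nil))))) (.g (nat_lit 0) (.e (nat_lit 184344) (nat_lit 0) .nil) .nil)))) (.nd (nat_lit 9) 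
(.lf (nat_lit 506293) (.g (nat_lit 606) (.e (nat_lit 164330) (nat_lit 230) (.e (nat_lit 163867) (nat_lit 2) (.e (nat_lit 196652) (nat_lit 11) .nil))) (.g (nat_lit 0) (.e (nat_lit 183764) (nat_lit 0) .nil) .nil))) 
(.lf (nat_lit 506805) (.g (nat_lit 2580) (.e (nat_lit 164332) (nat_lit 230) (.e (nat_lit 163905) (nat_lit 12) (.e (nat_lit 426422) (nat_lit 16) (.e (nat_lit 57688) (nat_lit 156) (.e (nat_lit 163932) (nat_lit 17) (.e (nat_lit 466972) (nat_lit 21) (.e (nat_lit 164332) (nat_lit 230) (.e (nat_lit 163860) (nat_lit 1) .nil)))))))) (.g (nat_lit 1) (.e (nat_lit 184928) (nat_lit 0) .nil) .nil)))))) 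
(.nd (nat_lit 7) (.nd (nat_lit 8) (.nd (nat_lit 9) 
(.lf (nat_lit 505973) (.g (nat_lit 2875) (.e (nat_lit 164327) (nat_lit 230) (.e (nat_lit 163881) (nat_lit 4) (.e (nat_lit 213030) (nat_lit 11) (.e (nat_lit 24626) (nat_lit 9) (.e (nat_lit 336443) (nat_lit 32) (.e (nat_lit 466969) (nat_lit 21) .nil)))))) (.g (nat_lit 1) (.e (nat_lit 182886) (nat_lit 0) .nil) .nil))) 
(.lf (nat_lit 506485) (.g (nat_lit 3673) (.e (nat_lit 164331) (nat_lit 230) (.e (nat_lit 163866) (nat_lit 2) (.e (nat_lit 196654) (nat_lit 11) (.e (nat_lit 16463) (nat_lit 13) (.e (nat_lit 483337) (nat_lit 9) (.e (nat_lit 426108) (nat_lit 1) .nil)))))) (.g (nat_lit 1) (.e (nat_lit 184251) (nat_lit 0) .nil) .nil)))) (.nd (nat_lit 9) 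
(.lf (nat_lit 506229) (.g (nat_lit 1989) (.e (nat_lit 164329) (nat_lit 230) (.e (nat_lit 163902) (nat_lit 12) (.e (nat_lit 426568) (nat_lit 34) (.e (nat_lit 393291) (nat_lit 26) (.e (nat_lit 475176) (nat_lit 24) .nil))))) (.g (nat_lit 0) (.e (nat_lit 183489) (nat_lit 0) .nil) .nil))) 
(.lf (nat_lit 506741) (.g (nat_lit 4691) (.e (nat_lit 164332) (nat_lit 230) (.e (nat_lit 163902) (nat_lit 12) (.e (nat_lit 426438) (nat_lit 18) (.e (nat_lit 98373) (nat_lit 29) (.e (nat_lit 450563) (nat_lit 0) (.e (nat_lit 6841) (nat_lit 369) (.e (nat_lit 163862) (nat_lit 1) .nil))))))) (.g (nat_lit 1) (.e (nat_lit 184797) (nat_lit 0) .nil) .nil))))) (.nd (nat_lit 8) (.nd (nat_lit 9) 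
(.lf (nat_lit 506101) (.g (nat_lit 416) (.e (nat_lit 164329) (nat_lit 230) (.e (nat_lit 163867) (nat_lit 2) (.e (nat_lit 196656) (nat_lit 11) .nil))) (.g (nat_lit 0) (.e (nat_lit 183299) (nat_lit 0) .nil) .nil))) 
(.lf (nat_lit 506613) (.g (nat_lit 3852) (.e (nat_lit 164332) (nat_lit 230) (.e (nat_lit 163867) (nat_lit 2) (.e (nat_lit 196656) (nat_lit 11) (.e (nat_lit 16466) (nat_lit 13) (.e (nat_lit 483337) (nat_lit 9) (.e (nat_lit 426108) (nat_lit 1) .nil)))))) (.g (nat_lit 1) (.e (nat_lit 184552) (nat_lit 0) .nil) .nil)))) (.nd (nat_lit 9) 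
(.lf (nat_lit 506357) (.g (nat_lit 2020) (.e (nat_lit 164330) (nat_lit 230) (.e (nat_lit 163873) (nat_lit 3) (.e (nat_lit 204813) (nat_lit 9) (.e (nat_lit 426198) (nat_lit 9) (.e (nat_lit 426481) (nat_lit 27) .nil))))) (.g (nat_lit 0) (.e (nat_lit 183862) (nat_lit 0) .nil) .nil))) 
(.lf (nat_lit 506869) (.g (nat_lit 385) (.e (nat_lit 164332) (nat_lit 230) (.e (nat_lit 163943) (nat_lit 19) (.e (nat_lit 483341) (nat_lit 9) .nil))) (.g (nat_lit 0) (.e (nat_lit 185196) (nat_lit 0) .nil) .nil))))))))) (.nd (nat_lit 4) (.nd (nat_lit 5) (.nd (nat_lit 6) (.nd (nat_lit 7) (.nd (nat_lit 8) (.nd (nat_lit 9) 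
(.lf (nat_lit 505869) (.g (nat_lit 4667) (.e (nat_lit 164327) (nat_lit 230) (.e (nat_lit 163871) (nat_lit 2) (.e (nat_lit 196656) (nat_lit 11) (.e (nat_lit 16416) (nat_lit 3) (.e (nat_lit 204837) (nat_lit 20) (.e (nat_lit 114718) (nat_lit 23) (.e (nat_lit 98333) (nat_lit 18) .nil))))))) (.g (nat_lit 1) (.e (nat_lit 182649) (nat_lit 0) .nil) .nil))) 
(.lf (nat_lit 506381) (.g (nat_lit 1922) (.e (nat_lit 164330) (nat_lit 230) (.e (nat_lit 163874) (nat_lit 3) (.e (nat_lit 204830) (nat_lit 18) (.e (nat_lit 57908) (nat_lit 278) .nil)))) (.g (nat_lit 0) (.e (nat_lit 183910) (nat_lit 0) .nil) .nil)))) (.nd (nat_lit 9) 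
(.lf (nat_lit 506125) (.g (nat_lit 2135) (.e (nat_lit 164329) (nat_lit 230) (.e (nat_lit 163873) (nat_lit 3) (.e (nat_lit 204809) (nat_lit 9) (.e (nat_lit 426139) (nat_lit 3) (.e (nat_lit 204835) (nat_lit 19) .nil))))) (.g (nat_lit 0) (.e (nat_lit 183328) (nat_lit 0) .nil) .nil))) 
(.lf (nat_lit 506637) (.g (nat_lit 3857) (.e (nat_lit 164332) (nat_lit 230) (.e (nat_lit 163869) (nat_lit 2) (.e (nat_lit 196654) (nat_lit 11) (.e (nat_lit 16463) (nat_lit 13) (.e (nat_lit 483341) (nat_lit 9) (.e (nat_lit 426105) (nat_lit 1) .nil)))))) (.g (nat_lit 1) (.e (nat_lit 184585) (nat_lit 0) .nil) .nil))))) (.nd (nat_lit 8) (.nd (nat_lit 9) 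
(.lf (nat_lit 505997) (.g (nat_lit 1852) (.e (nat_lit 164327) (nat_lit 230) (.e (nat_lit 163884) (nat_lit 5) (.e (nat_lit 221194) (nat_lit 11) (.e (nat_lit 336087) (nat_lit 9) (.e (nat_lit 336444) (nat_lit 32) .nil))))) (.g (nat_lit 0) (.e (nat_lit 182915) (nat_lit 0) .nil) .nil))) 
(.lf (nat_lit 506509) (.g (nat_lit 3455) (.e (nat_lit 164331) (nat_lit 230) (.e (nat_lit 163873) (nat_lit 3) (.e (nat_lit 204813) (nat_lit 9) (.e (nat_lit 426185) (nat_lit 9) .nil)))) (.g (nat_lit 0) (.e (nat_lit 184284) (nat_lit 0) .nil) .nil)))) (.nd (nat_lit 9) 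
(.lf (nat_lit 506253) (.g (nat_lit 721) (.e (nat_lit 164329) (nat_lit 230) (.e (nat_lit 163941) (nat_lit 19) (.e (nat_lit 483338) (nat_lit 9) .nil))) (.g (nat_lit 0) (.e (nat_lit 183706) (nat_lit 0) .nil) .nil))) 
(.lf (nat_lit 506765) (.g (nat_lit 1520) (.e (nat_lit 164332) (nat_lit 230) (.e (nat_lit 163902) (nat_lit 12) (.e (nat_lit 426566) (nat_lit 34) (.e (nat_lit 393290) (nat_lit 26) .nil)))) (.g (nat_lit 0) (.e (nat_lit 184841) (nat_lit 0) .nil) .nil)))))) (.nd (nat_lit 7) (.nd (nat_lit 8) (.nd (nat_lit 9) 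
(.lf (nat_lit 505933) (.g (nat_lit 1110) (.e (nat_lit 164327) (nat_lit 230) (.e (nat_lit 163875) (nat_lit 3) (.e (nat_lit 204809) (nat_lit 9) (.e (nat_lit 426139) (nat_lit 3) .nil)))) (.g (nat_lit 0) (.e (nat_lit 182806) (nat_lit 0) .nil) .nil))) 
(.lf (nat_lit 506445) (.g (nat_lit 3321) (.e (nat_lit 164330) (nat_lit 230) (.e (nat_lit 163905) (nat_lit 12) (.e (nat_lit 426530) (nat_lit 27) (.e (nat_lit 336390) (nat_lit 27) (.e (nat_lit 426188) (nat_lit 9) (.e (nat_lit 426436) (nat_lit 18) (.e (nat_lit 98334) (nat_lit 18) .nil))))))) (.g (nat_lit 1) (.e (nat_lit 184032) (nat_lit 0) .nil) .nil)))) (.nd (nat_lit 9) 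
(.lf (nat_lit 506189) (.g (nat_lit 3822) (.e (nat_lit 164329) (nat_lit 230) (.e (nat_lit 163902) (nat_lit 12) (.e (nat_lit 426438) (nat_lit 18) (.e (nat_lit 98373) (nat_lit 29) (.e (nat_lit 450563) (nat_lit 0) (.e (nat_lit 6841) (nat_lit 369) (.e (nat_lit 163862) (nat_lit 1) .nil))))))) (.g (nat_lit 1) (.e (nat_lit 183433) (nat_lit 0) .nil) .nil))) 
(.lf (nat_lit 506701) (.g (nat_lit 1044) (.e (nat_lit 164332) (nat_lit 230) (.e (nat_lit 163874) (nat_lit 3) (.e (nat_lit 204836) (nat_lit 20) .nil))) (.g (nat_lit 0) (.e (nat_lit 184705) (nat_lit 0) .nil) .nil))))) (.nd (nat_lit 8) (.nd (nat_lit 9) 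
(.lf (nat_lit 506061) (.g (nat_lit 2715) (.e (nat_lit 164328) (nat_lit 230) (.e (nat_lit 163869) (nat_lit 2) (.e (nat_lit 196654) (nat_lit 11) (.e (nat_lit 16433) (nat_lit 9) (.e (nat_lit 426566) (nat_lit 34) .nil))))) (.g (nat_lit 0) (.e (nat_lit 183171) (nat_lit 0) .nil) .nil))) 
(.lf (nat_lit 506573) (.g (nat_lit 1900) (.e (nat_lit 164331) (nat_lit 230) (.e (nat_lit 171776) (nat_lit 66) (.e (nat_lit 114714) (nat_lit 22) (.e (nat_lit 90185) (nat_lit 17) (.e (nat_lit 237582) (nat_lit 1) (.e (nat_lit 164332) (nat_lit 230) (.e (nat_lit 163885) (nat_lit 5) (.e (nat_lit 221208) (nat_lit 21) .nil)))))))) (.g (nat_lit 1) (.e (nat_lit 184462) (nat_lit 0) .nil) .nil)))) 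
(.nd (nat_lit 9) 
(.lf (nat_lit 506317) (.g (nat_lit 3663) (.e (nat_lit 164330) (nat_lit 230) (.e (nat_lit 163869) (nat_lit 2) (.e (nat_lit 196654) (nat_lit 11) (.e (nat_lit 16433) (nat_lit 9) (.e (nat_lit 426568) (nat_lit 34) (.e (nat_lit 393252) (nat_lit 18) .nil)))))) (.g (nat_lit 1) (.e (nat_lit 183798) (nat_lit 0) .nil) .nil))) 
(.lf (nat_lit 506829) (.g (nat_lit 4271) (.e (nat_lit 164332) (nat_lit 230) (.e (nat_lit 163905) (nat_lit 12) (.e (nat_lit 426530) (nat_lit 27) (.e (nat_lit 336390) (nat_lit 27) (.e (nat_lit 426308) (nat_lit 12) (.e (nat_lit 475177) (nat_lit 24) (.e (nat_lit 516118) (nat_lit 1) .nil))))))) (.g (nat_lit 1) (.e (nat_lit 184978) (nat_lit 0) .nil) .nil))))))) 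
(.nd (nat_lit 6) (.nd (nat_lit 7) (.nd (nat_lit 8) (.nd (nat_lit 9) 
(.lf (nat_lit 505901) (.g (nat_lit 4107) (.e (nat_lit 164327) (nat_lit 230) (.e (nat_lit 163873) (nat_lit 3) (.e (nat_lit 204813) (nat_lit 9) (.e (nat_lit 426012) (nat_lit 0) .nil)))) (.g (nat_lit 0) (.e (nat_lit 182708) (nat_lit 0) .nil) .nil))) 
(.lf (nat_lit 506413) (.g (nat_lit 2857) (.e (nat_lit 164330) (nat_lit 230) (.e (nat_lit 163902) (nat_lit 12) (.e (nat_lit 426438) (nat_lit 18) (.e (nat_lit 98373) (nat_lit 29) (.e (nat_lit 450568) (nat_lit 0) (.e (nat_lit 7936) (nat_lit 369) (.e (nat_lit 163864) (nat_lit 1) .nil))))))) (.g (nat_lit 1) (.e (nat_lit 183963) (nat_lit 0) .nil) .nil)))) (.nd (nat_lit 9) 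
(.lf (nat_lit 506157) (.g (nat_lit 2216) (.e (nat_lit 164329) (nat_lit 230) (.e (nat_lit 163874) (nat_lit 3) (.e (nat_lit 204813) (nat_lit 9) (.e (nat_lit 426188) (nat_lit 9) (.e (nat_lit 426568) (nat_lit 34) .nil))))) (.g (nat_lit 0) (.e (nat_lit 183376) (nat_lit 0) .nil) .nil))) 
(.lf (nat_lit 506669) (.g (nat_lit 4057) (.e (nat_lit 164332) (nat_lit 230) (.e (nat_lit 163873) (nat_lit 3) (.e (nat_lit 204813) (nat_lit 9) (.e (nat_lit 426031) (nat_lit 0) .nil)))) (.g (nat_lit 0) (.e (nat_lit 184633) (nat_lit 0) .nil) .nil))))) (.nd (nat_lit 8) (.nd (nat_lit 9) 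
(.lf (nat_lit 506029) (.g (nat_lit 3984) (.e (nat_lit 164327) (nat_lit 230) (.e (nat_lit 163903) (nat_lit 12) (.e (nat_lit 426568) (nat_lit 34) (.e (nat_lit 393271) (nat_lit 23) (.e (nat_lit 426436) (nat_lit 18) (.e (nat_lit 98333) (nat_lit 18) .nil)))))) (.g (nat_lit 1) (.e (nat_lit 182984) (nat_lit 0) .nil) .nil))) 
(.lf (nat_lit 506541) (.g (nat_lit 997) (.e (nat_lit 164331) (nat_lit 230) (.e (nat_lit 163902) (nat_lit 12) (.e (nat_lit 426567) (nat_lit 34) (.e (nat_lit 393270) (nat_lit 23) .nil)))) (.g (nat_lit 0) (.e (nat_lit 184336) (nat_lit 0) .nil) .nil)))) (.nd (nat_lit 9) 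
(.lf (nat_lit 506285) (.g (nat_lit 3861) (.e (nat_lit 164330) (nat_lit 230) (.e (nat_lit 163850) (nat_lit 0) (.e (nat_lit 3304) (nat_lit 202) (.e (nat_lit 573489) (nat_lit 14) (.e (nat_lit 73755) (nat_lit 8) (.e (nat_lit 557096) (nat_lit 13) (.e (nat_lit 179968) (nat_lit 18) (.e (nat_lit 98335) (nat_lit 18) .nil)))))))) (.g (nat_lit 1) (.e (nat_lit 183754) (nat_lit 0) .nil) .nil))) 
(.lf (nat_lit 506797) (.g (nat_lit 2842) (.e (nat_lit 164332) (nat_lit 230) (.e (nat_lit 163905) (nat_lit 12) (.e (nat_lit 426131) (nat_lit 3) (.e (nat_lit 204852) (nat_lit 26) (.e (nat_lit 336310) (nat_lit 16) .nil))))) (.g (nat_lit 0) (.e (nat_lit 184879) (nat_lit 0) .nil) .nil)))))) (.nd (nat_lit 7) (.nd (nat_lit 8) (.nd (nat_lit 9) 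
(.lf (nat_lit 505965) (.g (nat_lit 2669) (.e (nat_lit 164327) (nat_lit 230) (.e (nat_lit 163875) (nat_lit 3) (.e (nat_lit 204838) (nat_lit 20) (.e (nat_lit 114716) (nat_lit 22) (.e (nat_lit 90169) (nat_lit 13) (.e (nat_lit 179968) (nat_lit 18) (.e (nat_lit 98333) (nat_lit 18) .nil))))))) (.g (nat_lit 1) (.e (nat_lit 182878) (nat_lit 0) .nil) .nil))) 
(.lf (nat_lit 506477) (.g (nat_lit 3679) (.e (nat_lit 164330) (nat_lit 230) (.e (nat_lit 163941) (nat_lit 19) (.e (nat_lit 483341) (nat_lit 9) (.e (nat_lit 426222) (nat_lit 9) .nil)))) (.g (nat_lit 0) (.e (nat_lit 184234) (nat_lit 0) .nil) .nil)))) (.nd (nat_lit 9) 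
(.lf (nat_lit 506221) (.g (nat_lit 1961) (.e (nat_lit 164329) (nat_lit 230) (.e (nat_lit 163902) (nat_lit 12) (.e (nat_lit 426568) (nat_lit 34) (.e (nat_lit 393271) (nat_lit 23) (.e (nat_lit 426428) (nat_lit 17) .nil))))) (.g (nat_lit 0) (.e (nat_lit 183481) (nat_lit 0) .nil) .nil))) 
(.lf (nat_lit 506733) (.g (nat_lit 3079) (.e (nat_lit 164332) (nat_lit 230) (.e (nat_lit 163902) (nat_lit 12) (.e (nat_lit 426438) (nat_lit 18) (.e (nat_lit 98373) (nat_lit 29) (.e (nat_lit 450560) (nat_lit 0) (.e (nat_lit 6839) (nat_lit 369) (.e (nat_lit 163862) (nat_lit 1) .nil))))))) (.g (nat_lit 1) (.e (nat_lit 184789) (nat_lit 0) .nil) .nil))))) (.nd (nat_lit 8) (.nd (nat_lit 9) 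
(.lf (nat_lit 506093) (.g (nat_lit 429) (.e (nat_lit 164329) (nat_lit 230) (.e (nat_lit 163867) (nat_lit 2) (.e (nat_lit 196654) (nat_lit 11) .nil))) (.g (nat_lit 0) (.e (nat_lit 183290) (nat_lit 0) .nil) .nil))) 
(.lf (nat_lit 506605) (.g (nat_lit 3769) (.e (nat_lit 164332) (nat_lit 230) (.e (nat_lit 163867) (nat_lit 2) (.e (nat_lit 196656) (nat_lit 11) (.e (nat_lit 16433) (nat_lit 9) (.e (nat_lit 426566) (nat_lit 34) (.e (nat_lit 393253) (nat_lit 18) .nil)))))) (.g (nat_lit 1) (.e (nat_lit 184531) (nat_lit 0) .nil) .nil)))) (.nd (nat_lit 9) 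
(.lf (nat_lit 506349) (.g (nat_lit 3830) (.e (nat_lit 164330) (nat_lit 230) (.e (nat_lit 163873) (nat_lit 3) (.e (nat_lit 204813) (nat_lit 9) (.e (nat_lit 426185) (nat_lit 9) .nil)))) (.g (nat_lit 0) (.e (nat_lit 183854) (nat_lit 0) .nil) .nil))) 
(.lf (nat_lit 506861) (.g (nat_lit 3710) (.e (nat_lit 164332) (nat_lit 230) (.e (nat_lit 163941) (nat_lit 19) (.e (nat_lit 483341) (nat_lit 9) (.e (nat_lit 426204) (nat_lit 9) .nil)))) (.g (nat_lit 0) (.e (nat_lit 185168) (nat_lit 0) .nil) .nil)))))))) (.nd (nat_lit 5) (.nd (nat_lit 6) (.nd (nat_lit 7) (.nd (nat_lit 8) (.nd (nat_lit 9) 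
(.lf (nat_lit 505885) (.g (nat_lit 1394) (.e (nat_lit 164327) (nat_lit 230) (.e (nat_lit 163871) (nat_lit 2) (.e (nat_lit 196656) (nat_lit 11) (.e (nat_lit 16463) (nat_lit 13) .nil)))) (.g (nat_lit 0) (.e (nat_lit 182673) (nat_lit 0) .nil) .nil))) 
(.lf (nat_lit 506397) (.g (nat_lit 2621) (.e (nat_lit 164330) (nat_lit 230) (.e (nat_lit 163902) (nat_lit 12) (.e (nat_lit 426422) (nat_lit 16) (.e (nat_lit 57688) (nat_lit 156) (.e (nat_lit 163932) (nat_lit 17) (.e (nat_lit 466972) (nat_lit 21) (.e (nat_lit 164332) (nat_lit 230) (.e (nat_lit 163862) (nat_lit 1) .nil)))))))) (.g (nat_lit 1) (.e (nat_lit 183946) (nat_lit 0) .nil) .nil)))) 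
(.nd (nat_lit 9) 
(.lf (nat_lit 506141) (.g (nat_lit 2017) (.e (nat_lit 164329) (nat_lit 230) (.e (nat_lit 163873) (nat_lit 3) (.e (nat_lit 204813) (nat_lit 9) (.e (nat_lit 426188) (nat_lit 9) (.e (nat_lit 426568) (nat_lit 34) .nil))))) (.g (nat_lit 0) (.e (nat_lit 183350) (nat_lit 0) .nil) .nil))) 
(.lf (nat_lit 506653) (.g (nat_lit 2356) (.e (nat_lit 164332) (nat_lit 230) (.e (nat_lit 163869) (nat_lit 2) (.e (nat_lit 196656) (nat_lit 11) (.e (nat_lit 16463) (nat_lit 13) (.e (nat_lit 483336) (nat_lit 9) .nil))))) (.g (nat_lit 0) (.e (nat_lit 184608) (nat_lit 0) .nil) .nil))))) (.nd (nat_lit 8) (.nd (nat_lit 9) 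
(.lf (nat_lit 506013) (.g (nat_lit 1088) (.e (nat_lit 164327) (nat_lit 230) (.e (nat_lit 163903) (nat_lit 12) (.e (nat_lit 426502) (nat_lit 27) (.e (nat_lit 336408) (nat_lit 27) .nil)))) (.g (nat_lit 0) (.e (nat_lit 182967) (nat_lit 0) .nil) .nil))) 
(.lf (nat_lit 506525) (.g (nat_lit 4149) (.e (nat_lit 164331) (nat_lit 230) (.e (nat_lit 163873) (nat_lit 3) (.e (nat_lit 204813) (nat_lit 9) (.e (nat_lit 426258) (nat_lit 9) .nil)))) (.g (nat_lit 0) (.e (nat_lit 184301) (nat_lit 0) .nil) .nil)))) (.nd (nat_lit 9) 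
(.lf (nat_lit 506269) (.g (nat_lit 3899) (.e (nat_lit 164329) (nat_lit 230) (.e (nat_lit 163941) (nat_lit 19) (.e (nat_lit 483341) (nat_lit 9) (.e (nat_lit 426258) (nat_lit 9) .nil)))) (.g (nat_lit 0) (.e (nat_lit 183727) (nat_lit 0) .nil) .nil))) 
(.lf (nat_lit 506781) (.g (nat_lit 1971) (.e (nat_lit 164332) (nat_lit 230) (.e (nat_lit 163902) (nat_lit 12) (.e (nat_lit 426568) (nat_lit 34) (.e (nat_lit 393270) (nat_lit 23) (.e (nat_lit 426434) (nat_lit 18) .nil))))) (.g (nat_lit 0) (.e (nat_lit 184858) (nat_lit 0) .nil) .nil)))))) (.nd (nat_lit 7) (.nd (nat_lit 8) (.nd (nat_lit 9) 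
(.lf (nat_lit 505949) (.g (nat_lit 1050) (.e (nat_lit 164327) (nat_lit 230) (.e (nat_lit 163875) (nat_lit 3) (.e (nat_lit 204813) (nat_lit 9) (.e (nat_lit 426198) (nat_lit 9) .nil)))) (.g (nat_lit 0) (.e (nat_lit 182836) (nat_lit 0) .nil) .nil))) 
(.lf (nat_lit 506461) (.g (nat_lit 1669) (.e (nat_lit 164330) (nat_lit 230) (.e (nat_lit 163915) (nat_lit 12) (.e (nat_lit 426187) (nat_lit 9) (.e (nat_lit 426542) (nat_lit 29) (.e (nat_lit 360192) (nat_lit 5) (.e (nat_lit 221208) (nat_lit 21) .nil)))))) (.g (nat_lit 1) (.e (nat_lit 184097) (nat_lit 0) .nil) .nil)))) (.nd (nat_lit 9) 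
(.lf (nat_lit 506205) (.g (nat_lit 881) (.e (nat_lit 164329) (nat_lit 230) (.e (nat_lit 163902) (nat_lit 12) (.e (nat_lit 426507) (nat_lit 27) .nil))) (.g (nat_lit 0) (.e (nat_lit 183452) (nat_lit 0) .nil) .nil))) 
(.lf (nat_lit 506717) (.g (nat_lit 2511) (.e (nat_lit 164332) (nat_lit 230) (.e (nat_lit 163884) (nat_lit 5) (.e (nat_lit 221207) (nat_lit 21) (.e (nat_lit 164325) (nat_lit 230) (.e (nat_lit 171776) (nat_lit 66) (.e (nat_lit 114714) (nat_lit 22) (.e (nat_lit 90185) (nat_lit 17) (.e (nat_lit 237582) (nat_lit 1) .nil)))))))) (.g (nat_lit 1) (.e (nat_lit 184724) (nat_lit 0) .nil) .nil))))) 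
(.nd (nat_lit 8) (.nd (nat_lit 9) 
(.lf (nat_lit 506077) (.g (nat_lit 2601) (.e (nat_lit 164329) (nat_lit 230) (.e (nat_lit 163850) (nat_lit 0) (.e (nat_lit 3252) (nat_lit 197) (.e (nat_lit 532579) (nat_lit 26) (.e (nat_lit 426188) (nat_lit 9) (.e (nat_lit 426566) (nat_lit 34) (.e (nat_lit 393254) (nat_lit 18) .nil))))))) (.g (nat_lit 1) (.e (nat_lit 183243) (nat_lit 0) .nil) .nil))) 
(.lf (nat_lit 506589) (.g (nat_lit 561) (.e (nat_lit 164332) (nat_lit 230) (.e (nat_lit 163867) (nat_lit 2) (.e (nat_lit 196653) (nat_lit 11) .nil))) (.g (nat_lit 0) (.e (nat_lit 184501) (nat_lit 0) .nil) .nil)))) (.nd (nat_lit 9) 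
(.lf (nat_lit 506333) (.g (nat_lit 1795) (.e (nat_lit 164330) (nat_lit 230) (.e (nat_lit 163873) (nat_lit 3) (.e (nat_lit 204809) (nat_lit 9) (.e (nat_lit 426139) (nat_lit 3) (.e (nat_lit 204833) (nat_lit 19) .nil))))) (.g (nat_lit 0) (.e (nat_lit 183821) (nat_lit 0) .nil) .nil))) 
(.lf (nat_lit 506845) (.g (nat_lit 3874) (.e (nat_lit 164332) (nat_lit 230) (.e (nat_lit 163941) (nat_lit 19) (.e (nat_lit 483337) (nat_lit 9) (.e (nat_lit 426308) (nat_lit 12) (.e (nat_lit 475179) (nat_lit 24) (.e (nat_lit 516117) (nat_lit 1) .nil)))))) (.g (nat_lit 1) (.e (nat_lit 185145) (nat_lit 0) .nil) .nil))))))) (.nd (nat_lit 6) (.nd (nat_lit 7) (.nd (nat_lit 8) (.nd (nat_lit 9) 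
(.lf (nat_lit 505917) (.g (nat_lit 2533) (.e (nat_lit 164327) (nat_lit 230) (.e (nat_lit 163873) (nat_lit 3) (.e (nat_lit 204813) (nat_lit 9) (.e (nat_lit 426197) (nat_lit 9) .nil)))) (.g (nat_lit 0) (.e (nat_lit 182747) (nat_lit 0) .nil) .nil))) 
(.lf (nat_lit 506429) (.g (nat_lit 2813) (.e (nat_lit 164330) (nat_lit 230) (.e (nat_lit 163902) (nat_lit 12) (.e (nat_lit 426566) (nat_lit 34) (.e (nat_lit 393267) (nat_lit 23) .nil)))) (.g (nat_lit 0) (.e (nat_lit 183990) (nat_lit 0) .nil) .nil)))) (.nd (nat_lit 9) 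
(.lf (nat_lit 506173) (.g (nat_lit 2355) (.e (nat_lit 164329) (nat_lit 230) (.e (nat_lit 163902) (nat_lit 12) (.e (nat_lit 426428) (nat_lit 17) (.e (nat_lit 90170) (nat_lit 13) (.e (nat_lit 172079) (nat_lit 7) (.e (nat_lit 409611) (nat_lit 10) (.e (nat_lit 939) (nat_lit 77) (.e (nat_lit 794662) (nat_lit 21) .nil)))))))) (.g (nat_lit 1) (.e (nat_lit 183412) (nat_lit 0) .nil) .nil))) 
(.lf (nat_lit 506685) (.g (nat_lit 3682) (.e (nat_lit 164332) (nat_lit 230) (.e (nat_lit 163873) (nat_lit 3) (.e (nat_lit 204813) (nat_lit 9) (.e (nat_lit 426204) (nat_lit 9) .nil)))) (.g (nat_lit 0) (.e (nat_lit 184657) (nat_lit 0) .nil) .nil))))) (.nd (nat_lit 8) (.nd (nat_lit 9) 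
(.lf (nat_lit 506045) (.g (nat_lit 2843) (.e (nat_lit 164327) (nat_lit 230) (.e (nat_lit 163907) (nat_lit 12) (.e (nat_lit 426568) (nat_lit 34) (.e (nat_lit 393271) (nat_lit 23) (.e (nat_lit 426436) (nat_lit 18) .nil))))) (.g (nat_lit 0) (.e (nat_lit 183029) (nat_lit 0) .nil) .nil))) 
(.lf (nat_lit 506557) (.g (nat_lit 2246) (.e (nat_lit 164331) (nat_lit 230) (.e (nat_lit 163941) (nat_lit 19) (.e (nat_lit 483341) (nat_lit 9) (.e (nat_lit 426185) (nat_lit 9) .nil)))) (.g (nat_lit 0) (.e (nat_lit 184427) (nat_lit 0) .nil) .nil)))) (.nd (nat_lit 9) 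
(.lf (nat_lit 506301) (.g (nat_lit 2271) (.e (nat_lit 164330) (nat_lit 230) (.e (nat_lit 163867) (nat_lit 2) (.e (nat_lit 196656) (nat_lit 11) (.e (nat_lit 16433) (nat_lit 9) (.e (nat_lit 426568) (nat_lit 34) .nil))))) (.g (nat_lit 0) (.e (nat_lit 183776) (nat_lit 0) .nil) .nil))) 
(.lf (nat_lit 506813) (.g (nat_lit 3297) (.e (nat_lit 164332) (nat_lit 230) (.e (nat_lit 163905) (nat_lit 12) (.e (nat_lit 426472) (nat_lit 25) (.e (nat_lit 319534) (nat_lit 16) (.e (nat_lit 286756) (nat_lit 10) (.e (nat_lit 344093) (nat_lit 18) (.e (nat_lit 7291) (nat_lit 386) (.e (nat_lit 163864) (nat_lit 1) .nil)))))))) (.g (nat_lit 1) (.e (nat_lit 184943) (nat_lit 0) .nil) .nil)))))) 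
(.nd (nat_lit 7) (.nd (nat_lit 8) (.nd (nat_lit 9) 
(.lf (nat_lit 505981) (.g (nat_lit 2970) (.e (nat_lit 164327) (nat_lit 230) (.e (nat_lit 163882) (nat_lit 4) (.e (nat_lit 213030) (nat_lit 11) (.e (nat_lit 24626) (nat_lit 9) (.e (nat_lit 336443) (nat_lit 32) (.e (nat_lit 466971) (nat_lit 21) .nil)))))) (.g (nat_lit 1) (.e (nat_lit 182897) (nat_lit 0) .nil) .nil))) 
(.lf (nat_lit 506493) (.g (nat_lit 3583) (.e (nat_lit 164331) (nat_lit 230) (.e (nat_lit 163867) (nat_lit 2) (.e (nat_lit 196654) (nat_lit 11) (.e (nat_lit 16466) (nat_lit 13) (.e (nat_lit 483337) (nat_lit 9) (.e (nat_lit 426108) (nat_lit 1) .nil)))))) (.g (nat_lit 1) (.e (nat_lit 184261) (nat_lit 0) .nil) .nil)))) (.nd (nat_lit 9) 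
(.lf (nat_lit 506237) (.g (nat_lit 1279) (.e (nat_lit 164329) (nat_lit 230) (.e (nat_lit 163902) (nat_lit 12) (.e (nat_lit 426568) (nat_lit 34) (.e (nat_lit 393294) (nat_lit 26) (.e (nat_lit 475176) (nat_lit 24) .nil))))) (.g (nat_lit 0) (.e (nat_lit 183497) (nat_lit 0) .nil) .nil))) 
(.lf (nat_lit 506749) (.g (nat_lit 4305) (.e (nat_lit 164332) (nat_lit 230) (.e (nat_lit 163902) (nat_lit 12) (.e (nat_lit 426472) (nat_lit 25) (.e (nat_lit 319534) (nat_lit 16) (.e (nat_lit 286756) (nat_lit 10) (.e (nat_lit 344097) (nat_lit 18) (.e (nat_lit 7280) (nat_lit 386) (.e (nat_lit 163861) (nat_lit 1) .nil)))))))) (.g (nat_lit 1) (.e (nat_lit 184807) (nat_lit 0) .nil) .nil))))) 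
(.nd (nat_lit 8) (.nd (nat_lit 9) 
(.lf (nat_lit 506109) (.g (nat_lit 1449) (.e (nat_lit 164329) (nat_lit 230) (.e (nat_lit 163867) (nat_lit 2) (.e (nat_lit 196656) (nat_lit 11) (.e (nat_lit 16444) (nat_lit 9) (.e (nat_lit 433920) (nat_lit 34) .nil))))) (.g (nat_lit 0) (.e (nat_lit 183310) (nat_lit 0) .nil) .nil))) 
(.lf (nat_lit 506621) (.g (nat_lit 419) (.e (nat_lit 164332) (nat_lit 230) (.e (nat_lit 163869) (nat_lit 2) (.e (nat_lit 196628) (nat_lit 9) .nil))) (.g (nat_lit 0) (.e (nat_lit 184566) (nat_lit 0) .nil) .nil)))) (.nd (nat_lit 9) 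
(.lf (nat_lit 506365) (.g (nat_lit 4417) (.e (nat_lit 164330) (nat_lit 230) (.e (nat_lit 163873) (nat_lit 3) (.e (nat_lit 204813) (nat_lit 9) (.e (nat_lit 426213) (nat_lit 9) .nil)))) (.g (nat_lit 0) (.e (nat_lit 183871) (nat_lit 0) .nil) .nil))) 
(.lf (nat_lit 506877) (.g (nat_lit 786) (.e (nat_lit 164332) (nat_lit 230) (.e (nat_lit 163943) (nat_lit 19) (.e (nat_lit 483350) (nat_lit 17) .nil))) (.g (nat_lit 0) (.e (nat_lit 185217) (nat_lit 0) .nil) .nil))))))))))) (.nd (nat_lit 2) (.nd (nat_lit 3) (.nd (nat_lit 4) (.nd (nat_lit 5) (.nd (nat_lit 6) (.nd (nat_lit 7) (.nd (nat_lit 8) (.nd (nat_lit 9) 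
(.lf (nat_lit 505859) (.g (nat_lit 1453) (.e (nat_lit 164327) (nat_lit 230) (.e (nat_lit 163871) (nat_lit 2) (.e (nat_lit 196654) (nat_lit 11) (.e (nat_lit 16466) (nat_lit 13) (.e (nat_lit 483339) (nat_lit 9) .nil))))) (.g (nat_lit 0) (.e (nat_lit 182631) (nat_lit 0) .nil) .nil))) 
(.lf (nat_lit 506371) (.g (nat_lit 790) (.e (nat_lit 164330) (nat_lit 230) (.e (nat_lit 163874) (nat_lit 3) (.e (nat_lit 204808) (nat_lit 9) (.e (nat_lit 426189) (nat_lit 9) .nil)))) (.g (nat_lit 0) (.e (nat_lit 183899) (nat_lit 0) .nil) .nil)))) (.nd (nat_lit 9) 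
(.lf (nat_lit 506115) (.g (nat_lit 931) (.e (nat_lit 164329) (nat_lit 230) (.e (nat_lit 163869) (nat_lit 2) (.e (nat_lit 196654) (nat_lit 11) .nil))) (.g (nat_lit 0) (.e (nat_lit 183317) (nat_lit 0) .nil) .nil))) 
(.lf (nat_lit 506627) (.g (nat_lit 1204) (.e (nat_lit 164332) (nat_lit 230) (.e (nat_lit 163869) (nat_lit 2) (.e (nat_lit 196654) (nat_lit 11) (.e (nat_lit 16416) (nat_lit 3) .nil)))) (.g (nat_lit 0) (.e (nat_lit 184573) (nat_lit 0) .nil) .nil))))) (.nd (nat_lit 8) (.nd (nat_lit 9) 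
(.lf (nat_lit 505987) (.g (nat_lit 1701) (.e (nat_lit 164327) (nat_lit 230) (.e (nat_lit 163882) (nat_lit 4) (.e (nat_lit 213030) (nat_lit 11) (.e (nat_lit 24660) (nat_lit 13) (.e (nat_lit 393277) (nat_lit 23) (.e (nat_lit 426103) (nat_lit 1) .nil)))))) (.g (nat_lit 1) (.e (nat_lit 182904) (nat_lit 0) .nil) .nil))) 
(.lf (nat_lit 506499) (.g (nat_lit 2328) (.e (nat_lit 164331) (nat_lit 230) (.e (nat_lit 163867) (nat_lit 2) (.e (nat_lit 196656) (nat_lit 11) (.e (nat_lit 16463) (nat_lit 13) (.e (nat_lit 483337) (nat_lit 9) .nil))))) (.g (nat_lit 0) (.e (nat_lit 184268) (nat_lit 0) .nil) .nil)))) (.nd (nat_lit 9) 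
(.lf (nat_lit 506243) (.g (nat_lit 76) (.e (nat_lit 164329) (nat_lit 230) (.e (nat_lit 163934) (nat_lit 17) (.e (nat_lit 474880) (nat_lit 13) .nil))) (.g (nat_lit 0) (.e (nat_lit 183690) (nat_lit 0) .nil) .nil))) 
(.lf (nat_lit 506755) (.g (nat_lit 2905) (.e (nat_lit 164332) (nat_lit 230) (.e (nat_lit 163902) (nat_lit 12) (.e (nat_lit 426479) (nat_lit 27) (.e (nat_lit 336414) (nat_lit 27) (.e (nat_lit 426318) (nat_lit 12) (.e (nat_lit 475179) (nat_lit 24) (.e (nat_lit 516117) (nat_lit 1) .nil))))))) (.g (nat_lit 1) (.e (nat_lit 184813) (nat_lit 0) .nil) .nil)))))) 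
(.nd (nat_lit 7) (.nd (nat_lit 8) (.nd (nat_lit 9) 
(.lf (nat_lit 505923) (.g (nat_lit 3975) (.e (nat_lit 164327) (nat_lit 230) (.e (nat_lit 163873) (nat_lit 3) (.e (nat_lit 204813) (nat_lit 9) (.e (nat_lit 426204) (nat_lit 9) .nil)))) (.g (nat_lit 0) (.e (nat_lit 182758) (nat_lit 0) .nil) .nil))) 
(.lf (nat_lit 506435) (.g (nat_lit 1691) (.e (nat_lit 164330) (nat_lit 230) (.e (nat_lit 163902) (nat_lit 12) (.e (nat_lit 426568) (nat_lit 34) (.e (nat_lit 401152) (nat_lit 23) .nil)))) (.g (nat_lit 0) (.e (nat_lit 183996) (nat_lit 0) .nil) .nil)))) (.nd (nat_lit 9) 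
(.lf (nat_lit 506179) (.g (nat_lit 2066) (.e (nat_lit 164329) (nat_lit 230) (.e (nat_lit 163902) (nat_lit 12) (.e (nat_lit 426428) (nat_lit 17) (.e (nat_lit 90170) (nat_lit 13) (.e (nat_lit 172082) (nat_lit 7) (.e (nat_lit 409612) (nat_lit 10) (.e (nat_lit 946) (nat_lit 77) (.e (nat_lit 794658) (nat_lit 21) .nil)))))))) (.g (nat_lit 1) (.e (nat_lit 183418) (nat_lit 0) .nil) .nil))) 
(.lf (nat_lit 506691) (.g (nat_lit 1217) (.e (nat_lit 164332) (nat_lit 230) (.e (nat_lit 163874) (nat_lit 3) (.e (nat_lit 204802) (nat_lit 0) .nil))) (.g (nat_lit 0) (.e (nat_lit 184679) (nat_lit 0) .nil) .nil))))) (.nd (nat_lit 8) (.nd (nat_lit 9) 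
(.lf (nat_lit 506051) (.g (nat_lit 3881) (.e (nat_lit 164327) (nat_lit 230) (.e (nat_lit 163939) (nat_lit 18) (.e (nat_lit 475179) (nat_lit 24) (.e (nat_lit 516176) (nat_lit 14) (.e (nat_lit 466972) (nat_lit 21) (.e (nat_lit 164183) (nat_lit 154) (.e (nat_lit 65280) (nat_lit 62) .nil))))))) (.g (nat_lit 1) (.e (nat_lit 183134) (nat_lit 0) .nil) .nil))) 
(.lf (nat_lit 506563) (.g (nat_lit 4250) (.e (nat_lit 164331) (nat_lit 230) (.e (nat_lit 163941) (nat_lit 19) (.e (nat_lit 483341) (nat_lit 9) (.e (nat_lit 426200) (nat_lit 9) (.e (nat_lit 426436) (nat_lit 18) (.e (nat_lit 98335) (nat_lit 18) .nil)))))) (.g (nat_lit 1) (.e (nat_lit 184440) (nat_lit 0) .nil) .nil)))) (.nd (nat_lit 9) 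
(.lf (nat_lit 506307) (.g (nat_lit 616) (.e (nat_lit 164330) (nat_lit 230) (.e (nat_lit 163869) (nat_lit 2) (.e (nat_lit 196622) (nat_lit 9) .nil))) (.g (nat_lit 0) (.e (nat_lit 183787) (nat_lit 0) .nil) .nil))) 
(.lf (nat_lit 506819) (.g (nat_lit 874) (.e (nat_lit 164332) (nat_lit 230) (.e (nat_lit 163905) (nat_lit 12) (.e (nat_lit 426487) (nat_lit 27) .nil))) (.g (nat_lit 0) (.e (nat_lit 184968) (nat_lit 0) .nil) .nil))))))) (.nd (nat_lit 6) (.nd (nat_lit 7) (.nd (nat_lit 8) (.nd (nat_lit 9) 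
(.lf (nat_lit 505891) (.g (nat_lit 2171) (.e (nat_lit 164327) (nat_lit 230) (.e (nat_lit 163871) (nat_lit 2) (.e (nat_lit 196656) (nat_lit 11) (.e (nat_lit 16466) (nat_lit 13) (.e (nat_lit 483340) (nat_lit 9) .nil))))) (.g (nat_lit 0) (.e (nat_lit 182681) (nat_lit 0) .nil) .nil))) 
(.lf (nat_lit 506403) (.g (nat_lit 3032) (.e (nat_lit 164330) (nat_lit 230) (.e (nat_lit 163902) (nat_lit 12) (.e (nat_lit 426438) (nat_lit 18) (.e (nat_lit 98373) (nat_lit 29) (.e (nat_lit 450560) (nat_lit 0) (.e (nat_lit 6839) (nat_lit 369) (.e (nat_lit 163862) (nat_lit 1) .nil))))))) (.g (nat_lit 1) (.e (nat_lit 183953) (nat_lit 0) .nil) .nil)))) (.nd (nat_lit 9) 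
(.lf (nat_lit 506147) (.g (nat_lit 3544) (.e (nat_lit 164329) (nat_lit 230) (.e (nat_lit 163873) (nat_lit 3) (.e (nat_lit 204813) (nat_lit 9) (.e (nat_lit 426199) (nat_lit 9) (.e (nat_lit 426481) (nat_lit 27) .nil))))) (.g (nat_lit 0) (.e (nat_lit 183356) (nat_lit 0) .nil) .nil))) 
(.lf (nat_lit 506659) (.g (nat_lit 2790) (.e (nat_lit 164332) (nat_lit 230) (.e (nat_lit 163869) (nat_lit 2) (.e (nat_lit 196656) (nat_lit 11) (.e (nat_lit 16466) (nat_lit 13) (.e (nat_lit 483340) (nat_lit 9) (.e (nat_lit 426099) (nat_lit 1) .nil)))))) (.g (nat_lit 1) (.e (nat_lit 184614) (nat_lit 0) .nil) .nil))))) (.nd (nat_lit 8) (.nd (nat_lit 9) 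
(.lf (nat_lit 506019) (.g (nat_lit 2189) (.e (nat_lit 164327) (nat_lit 230) (.e (nat_lit 163903) (nat_lit 12) (.e (nat_lit 426566) (nat_lit 34) (.e (nat_lit 393290) (nat_lit 26) (.e (nat_lit 475177) (nat_lit 24) .nil))))) (.g (nat_lit 0) (.e (nat_lit 182973) (nat_lit 0) .nil) .nil))) 
(.lf (nat_lit 506531) (.g (nat_lit 1722) (.e (nat_lit 164331) (nat_lit 230) (.e (nat_lit 163884) (nat_lit 5) (.e (nat_lit 221194) (nat_lit 11) (.e (nat_lit 336086) (nat_lit 9) (.e (nat_lit 336444) (nat_lit 32) .nil))))) (.g (nat_lit 0) (.e (nat_lit 184321) (nat_lit 0) .nil) .nil)))) (.nd (nat_lit 9) 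
(.lf (nat_lit 506275) (.g (nat_lit 3186) (.e (nat_lit 164329) (nat_lit 230) (.e (nat_lit 163941) (nat_lit 19) (.e (nat_lit 483341) (nat_lit 9) (.e (nat_lit 426316) (nat_lit 12) (.e (nat_lit 475179) (nat_lit 24) (.e (nat_lit 516120) (nat_lit 1) .nil)))))) (.g (nat_lit 1) (.e (nat_lit 183737) (nat_lit 0) .nil) .nil))) 
(.lf (nat_lit 506787) (.g (nat_lit 1421) (.e (nat_lit 164332) (nat_lit 230) (.e (nat_lit 163902) (nat_lit 12) (.e (nat_lit 426568) (nat_lit 34) (.e (nat_lit 401152) (nat_lit 23) .nil)))) (.g (nat_lit 0) (.e (nat_lit 184864) (nat_lit 0) .nil) .nil)))))) (.nd (nat_lit 7) (.nd (nat_lit 8) (.nd (nat_lit 9) 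
(.lf (nat_lit 505955) (.g (nat_lit 1699) (.e (nat_lit 164327) (nat_lit 230) (.e (nat_lit 163875) (nat_lit 3) (.e (nat_lit 204813) (nat_lit 9) (.e (nat_lit 426200) (nat_lit 9) (.e (nat_lit 426484) (nat_lit 27) .nil))))) (.g (nat_lit 0) (.e (nat_lit 182842) (nat_lit 0) .nil) .nil))) 
(.lf (nat_lit 506467) (.g (nat_lit 1481) (.e (nat_lit 164330) (nat_lit 230) (.e (nat_lit 163941) (nat_lit 19) (.e (nat_lit 483341) (nat_lit 9) (.e (nat_lit 426197) (nat_lit 9) .nil)))) (.g (nat_lit 0) (.e (nat_lit 184224) (nat_lit 0) .nil) .nil)))) (.nd (nat_lit 9) 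
(.lf (nat_lit 506211) (.g (nat_lit 2884) (.e (nat_lit 164329) (nat_lit 230) (.e (nat_lit 163902) (nat_lit 12) (.e (nat_lit 426567) (nat_lit 34) (.e (nat_lit 393296) (nat_lit 26) (.e (nat_lit 475178) (nat_lit 24) (.e (nat_lit 516117) (nat_lit 1) .nil)))))) (.g (nat_lit 1) (.e (nat_lit 183467) (nat_lit 0) .nil) .nil))) 
(.lf (nat_lit 506723) (.g (nat_lit 2665) (.e (nat_lit 164332) (nat_lit 230) (.e (nat_lit 163902) (nat_lit 12) (.e (nat_lit 426422) (nat_lit 16) (.e (nat_lit 57687) (nat_lit 156) (.e (nat_lit 163933) (nat_lit 17) (.e (nat_lit 466972) (nat_lit 21) (.e (nat_lit 164332) (nat_lit 230) (.e (nat_lit 163862) (nat_lit 1) .nil)))))))) (.g (nat_lit 1) (.e (nat_lit 184777) (nat_lit 0) .nil) .nil))))) 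
(.nd (nat_lit 8) (.nd (nat_lit 9) 
(.lf (nat_lit 506083) (.g (nat_lit 588) (.e (nat_lit 164329) (nat_lit 230) (.e (nat_lit 163867) (nat_lit 2) (.e (nat_lit 196617) (nat_lit 9) .nil))) (.g (nat_lit 0) (.e (nat_lit 183275) (nat_lit 0) .nil) .nil))) 
(.lf (nat_lit 506595) (.g (nat_lit 2741) (.e (nat_lit 164332) (nat_lit 230) (.e (nat_lit 163867) (nat_lit 2) (.e (nat_lit 196654) (nat_lit 11) (.e (nat_lit 16416) (nat_lit 3) (.e (nat_lit 204838) (nat_lit 20) (.e (nat_lit 114718) (nat_lit 23) (.e (nat_lit 98334) (nat_lit 18) .nil))))))) (.g (nat_lit 1) (.e (nat_lit 184507) (nat_lit 0) .nil) .nil)))) (.nd (nat_lit 9) 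
(.lf (nat_lit 506339) (.g (nat_lit 4810) (.e (nat_lit 164330) (nat_lit 230) (.e (nat_lit 163873) (nat_lit 3) (.e (nat_lit 204813) (nat_lit 9) (.e (nat_lit 426010) (nat_lit 0) .nil)))) (.g (nat_lit 0) (.e (nat_lit 183831) (nat_lit 0) .nil) .nil))) 
(.lf (nat_lit 506851) (.g (nat_lit 808) (.e (nat_lit 164332) (nat_lit 230) (.e (nat_lit 163941) (nat_lit 19) (.e (nat_lit 483341) (nat_lit 9) (.e (nat_lit 426198) (nat_lit 9) .nil)))) (.g (nat_lit 0) (.e (nat_lit 185158) (nat_lit 0) .nil) .nil)))))))) (.nd (nat_lit 5) (.nd (nat_lit 6) (.nd (nat_lit 7) (.nd (nat_lit 8) (.nd (nat_lit 9) 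
(.lf (nat_lit 505875) (.g (nat_lit 3582) (.e (nat_lit 164327) (nat_lit 230) (.e (nat_lit 163871) (nat_lit 2) (.e (nat_lit 196656) (nat_lit 11) (.e (nat_lit 16436) (nat_lit 9) (.e (nat_lit 426478) (nat_lit 27) (.e (nat_lit 336389) (nat_lit 27) (.e (nat_lit 426098) (nat_lit 1) .nil))))))) (.g (nat_lit 1) (.e (nat_lit 182659) (nat_lit 0) .nil) .nil))) 
(.lf (nat_lit 506387) (.g (nat_lit 1135) (.e (nat_lit 164330) (nat_lit 230) (.e (nat_lit 163885) (nat_lit 5) (.e (nat_lit 221193) (nat_lit 11) (.e (nat_lit 336150) (nat_lit 9) (.e (nat_lit 336442) (nat_lit 32) .nil))))) (.g (nat_lit 0) (.e (nat_lit 183916) (nat_lit 0) .nil) .nil)))) (.nd (nat_lit 9) 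
(.lf (nat_lit 506131) (.g (nat_lit 891) (.e (nat_lit 164329) (nat_lit 230) (.e (nat_lit 163873) (nat_lit 3) (.e (nat_lit 204811) (nat_lit 9) (.e (nat_lit 426261) (nat_lit 9) (.e (nat_lit 433920) (nat_lit 34) .nil))))) (.g (nat_lit 0) (.e (nat_lit 183334) (nat_lit 0) .nil) .nil))) 
(.lf (nat_lit 506643) (.g (nat_lit 278) (.e (nat_lit 164332) (nat_lit 230) (.e (nat_lit 163869) (nat_lit 2) (.e (nat_lit 196656) (nat_lit 11) .nil))) (.g (nat_lit 0) (.e (nat_lit 184592) (nat_lit 0) .nil) .nil))))) (.nd (nat_lit 8) (.nd (nat_lit 9) 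
(.lf (nat_lit 506003) (.g (nat_lit 3301) (.e (nat_lit 164327) (nat_lit 230) (.e (nat_lit 163903) (nat_lit 12) (.e (nat_lit 426478) (nat_lit 27) (.e (nat_lit 336389) (nat_lit 27) (.e (nat_lit 426308) (nat_lit 12) (.e (nat_lit 475177) (nat_lit 24) (.e (nat_lit 516115) (nat_lit 1) .nil))))))) (.g (nat_lit 1) (.e (nat_lit 182956) (nat_lit 0) .nil) .nil))) 
(.lf (nat_lit 506515) (.g (nat_lit 2519) (.e (nat_lit 164331) (nat_lit 230) (.e (nat_lit 163873) (nat_lit 3) (.e (nat_lit 204813) (nat_lit 9) (.e (nat_lit 426197) (nat_lit 9) .nil)))) (.g (nat_lit 0) (.e (nat_lit 184290) (nat_lit 0) .nil) .nil)))) (.nd (nat_lit 9) 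
(.lf (nat_lit 506259) (.g (nat_lit 3090) (.e (nat_lit 164329) (nat_lit 230) (.e (nat_lit 163941) (nat_lit 19) (.e (nat_lit 483341) (nat_lit 9) (.e (nat_lit 426185) (nat_lit 9) .nil)))) (.g (nat_lit 0) (.e (nat_lit 183713) (nat_lit 0) .nil) .nil))) 
(.lf (nat_lit 506771) (.g (nat_lit 3454) (.e (nat_lit 164332) (nat_lit 230) (.e (nat_lit 163902) (nat_lit 12) (.e (nat_lit 426566) (nat_lit 34) (.e (nat_lit 393293) (nat_lit 26) (.e (nat_lit 475179) (nat_lit 24) (.e (nat_lit 516117) (nat_lit 1) .nil)))))) (.g (nat_lit 1) (.e (nat_lit 184847) (nat_lit 0) .nil) .nil)))))) (.nd (nat_lit 7) (.nd (nat_lit 8) (.nd (nat_lit 9) 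
(.lf (nat_lit 505939) (.g (nat_lit 1926) (.e (nat_lit 164327) (nat_lit 230) (.e (nat_lit 163875) (nat_lit 3) (.e (nat_lit 204809) (nat_lit 9) (.e (nat_lit 426200) (nat_lit 9) (.e (nat_lit 426568) (nat_lit 34) .nil))))) (.g (nat_lit 0) (.e (nat_lit 182813) (nat_lit 0) .nil) .nil))) 
(.lf (nat_lit 506451) (.g (nat_lit 1800) (.e (nat_lit 164330) (nat_lit 230) (.e (nat_lit 163905) (nat_lit 12) (.e (nat_lit 426566) (nat_lit 34) (.e (nat_lit 393296) (nat_lit 26) (.e (nat_lit 475175) (nat_lit 24) .nil))))) (.g (nat_lit 0) (.e (nat_lit 184038) (nat_lit 0) .nil) .nil)))) (.nd (nat_lit 9) 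
(.lf (nat_lit 506195) (.g (nat_lit 3637) (.e (nat_lit 164329) (nat_lit 230) (.e (nat_lit 163902) (nat_lit 12) (.e (nat_lit 426472) (nat_lit 25) (.e (nat_lit 319534) (nat_lit 16) (.e (nat_lit 286749) (nat_lit 9) (.e (nat_lit 335997) (nat_lit 1) (.e (nat_lit 57691) (nat_lit 156) (.e (nat_lit 163864) (nat_lit 1) .nil)))))))) (.g (nat_lit 1) (.e (nat_lit 183439) (nat_lit 0) .nil) .nil))) 
(.lf (nat_lit 506707) (.g (nat_lit 3148) (.e (nat_lit 164332) (nat_lit 230) (.e (nat_lit 163880) (nat_lit 4) (.e (nat_lit 213030) (nat_lit 11) (.e (nat_lit 24625) (nat_lit 9) (.e (nat_lit 336443) (nat_lit 32) (.e (nat_lit 466972) (nat_lit 21) .nil)))))) (.g (nat_lit 1) (.e (nat_lit 184712) (nat_lit 0) .nil) .nil))))) (.nd (nat_lit 8) (.nd (nat_lit 9) 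
(.lf (nat_lit 506067) (.g (nat_lit 3857) (.e (nat_lit 164328) (nat_lit 230) (.e (nat_lit 163873) (nat_lit 3) (.e (nat_lit 204813) (nat_lit 9) (.e (nat_lit 426198) (nat_lit 9) .nil)))) (.g (nat_lit 0) (.e (nat_lit 183178) (nat_lit 0) .nil) .nil))) 
(.lf (nat_lit 506579) (.g (nat_lit 3447) (.e (nat_lit 164332) (nat_lit 230) (.e (nat_lit 163866) (nat_lit 2) (.e (nat_lit 196654) (nat_lit 11) (.e (nat_lit 16466) (nat_lit 13) (.e (nat_lit 483337) (nat_lit 9) (.e (nat_lit 426108) (nat_lit 1) .nil)))))) (.g (nat_lit 1) (.e (nat_lit 184481) (nat_lit 0) .nil) .nil)))) (.nd (nat_lit 9) 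
(.lf (nat_lit 506323) (.g (nat_lit 1998) (.e (nat_lit 164330) (nat_lit 230) (.e (nat_lit 163869) (nat_lit 2) (.e (nat_lit 196656) (nat_lit 11) (.e (nat_lit 16415) (nat_lit 3) .nil)))) (.g (nat_lit 0) (.e (nat_lit 183807) (nat_lit 0) .nil) .nil))) 
(.lf (nat_lit 506835) (.g (nat_lit 3309) (.e (nat_lit 164332) (nat_lit 230) (.e (nat_lit 163905) (nat_lit 12) (.e (nat_lit 426566) (nat_lit 34) (.e (nat_lit 393296) (nat_lit 26) (.e (nat_lit 475177) (nat_lit 24) (.e (nat_lit 516115) (nat_lit 1) .nil)))))) (.g (nat_lit 1) (.e (nat_lit 185004) (nat_lit 0) .nil) .nil))))))) (.nd (nat_lit 6) (.nd (nat_lit 7) (.nd (nat_lit 8) (.nd (nat_lit 9) 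
(.lf (nat_lit 505907) (.g (nat_lit 4553) (.e (nat_lit 164327) (nat_lit 230) (.e (nat_lit 163873) (nat_lit 3) (.e (nat_lit 204813) (nat_lit 9) (.e (nat_lit 426133) (nat_lit 3) .nil)))) (.g (nat_lit 0) (.e (nat_lit 182725) (nat_lit 0) .nil) .nil))) 
(.lf (nat_lit 506419) (.g (nat_lit 2629) (.e (nat_lit 164330) (nat_lit 230) (.e (nat_lit 163902) (nat_lit 12) (.e (nat_lit 426472) (nat_lit 25) (.e (nat_lit 319534) (nat_lit 16) (.e (nat_lit 286749) (nat_lit 9) (.e (nat_lit 335997) (nat_lit 1) (.e (nat_lit 57691) (nat_lit 156) (.e (nat_lit 163862) (nat_lit 1) .nil)))))))) (.g (nat_lit 1) (.e (nat_lit 183969) (nat_lit 0) .nil) .nil)))) 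
(.nd (nat_lit 9) 
(.lf (nat_lit 506163) (.g (nat_lit 371) (.e (nat_lit 164329) (nat_lit 230) (.e (nat_lit 163885) (nat_lit 5) (.e (nat_lit 221191) (nat_lit 11) .nil))) (.g (nat_lit 0) (.e (nat_lit 183386) (nat_lit 0) .nil) .nil))) 
(.lf (nat_lit 506675) (.g (nat_lit 3201) (.e (nat_lit 164332) (nat_lit 230) (.e (nat_lit 163873) (nat_lit 3) (.e (nat_lit 204813) (nat_lit 9) (.e (nat_lit 426186) (nat_lit 9) .nil)))) (.g (nat_lit 0) (.e (nat_lit 184646) (nat_lit 0) .nil) .nil))))) (.nd (nat_lit 8) (.nd (nat_lit 9) 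
(.lf (nat_lit 506035) (.g (nat_lit 3898) (.e (nat_lit 164327) (nat_lit 230) (.e (nat_lit 163903) (nat_lit 12) (.e (nat_lit 426568) (nat_lit 34) (.e (nat_lit 393294) (nat_lit 26) (.e (nat_lit 475177) (nat_lit 24) (.e (nat_lit 516118) (nat_lit 1) .nil)))))) (.g (nat_lit 1) (.e (nat_lit 182990) (nat_lit 0) .nil) .nil))) 
(.lf (nat_lit 506547) (.g (nat_lit 1818) (.e (nat_lit 164331) (nat_lit 230) (.e (nat_lit 163902) (nat_lit 12) (.e (nat_lit 426568) (nat_lit 34) (.e (nat_lit 393290) (nat_lit 26) .nil)))) (.g (nat_lit 0) (.e (nat_lit 184342) (nat_lit 0) .nil) .nil)))) (.nd (nat_lit 9) 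
(.lf (nat_lit 506291) (.g (nat_lit 1578) (.e (nat_lit 164330) (nat_lit 230) (.e (nat_lit 163867) (nat_lit 2) (.e (nat_lit 196624) (nat_lit 9) (.e (nat_lit 389) (nat_lit 32) .nil)))) (.g (nat_lit 0) (.e (nat_lit 183761) (nat_lit 0) .nil) .nil))) 
(.lf (nat_lit 506803) (.g (nat_lit 737) (.e (nat_lit 164332) (nat_lit 230) (.e (nat_lit 163905) (nat_lit 12) (.e (nat_lit 426422) (nat_lit 16) .nil))) (.g (nat_lit 0) (.e (nat_lit 184926) (nat_lit 0) .nil) .nil)))))) (.nd (nat_lit 7) (.nd (nat_lit 8) (.nd (nat_lit 9) 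
(.lf (nat_lit 505971) (.g (nat_lit 2931) (.e (nat_lit 164327) (nat_lit 230) (.e (nat_lit 163879) (nat_lit 4) (.e (nat_lit 213030) (nat_lit 11) (.e (nat_lit 24660) (nat_lit 13) (.e (nat_lit 393271) (nat_lit 23) (.e (nat_lit 426112) (nat_lit 1) .nil)))))) (.g (nat_lit 1) (.e (nat_lit 182884) (nat_lit 0) .nil) .nil))) 
(.lf (nat_lit 506483) (.g (nat_lit 1614) (.e (nat_lit 164330) (nat_lit 230) (.e (nat_lit 163943) (nat_lit 19) (.e (nat_lit 483341) (nat_lit 9) (.e (nat_lit 433920) (nat_lit 9) .nil)))) (.g (nat_lit 0) (.e (nat_lit 184249) (nat_lit 0) .nil) .nil)))) (.nd (nat_lit 9) 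
(.lf (nat_lit 506227) (.g (nat_lit 1828) (.e (nat_lit 164329) (nat_lit 230) (.e (nat_lit 163902) (nat_lit 12) (.e (nat_lit 426568) (nat_lit 34) (.e (nat_lit 393291) (nat_lit 26) (.e (nat_lit 475175) (nat_lit 24) .nil))))) (.g (nat_lit 0) (.e (nat_lit 183487) (nat_lit 0) .nil) .nil))) 
(.lf (nat_lit 506739) (.g (nat_lit 4848) (.e (nat_lit 164332) (nat_lit 230) (.e (nat_lit 163902) (nat_lit 12) (.e (nat_lit 426438) (nat_lit 18) (.e (nat_lit 98373) (nat_lit 29) (.e (nat_lit 450563) (nat_lit 0) (.e (nat_lit 6839) (nat_lit 369) (.e (nat_lit 163862) (nat_lit 1) .nil))))))) (.g (nat_lit 1) (.e (nat_lit 184795) (nat_lit 0) .nil) .nil))))) (.nd (nat_lit 8) (.nd (nat_lit 9) 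
(.lf (nat_lit 506099) (.g (nat_lit 2058) (.e (nat_lit 164329) (nat_lit 230) (.e (nat_lit 163867) (nat_lit 2) (.e (nat_lit 196654) (nat_lit 11) (.e (nat_lit 16466) (nat_lit 13) (.e (nat_lit 483340) (nat_lit 9) .nil))))) (.g (nat_lit 0) (.e (nat_lit 183297) (nat_lit 0) .nil) .nil))) 
(.lf (nat_lit 506611) (.g (nat_lit 4153) (.e (nat_lit 164332) (nat_lit 230) (.e (nat_lit 163867) (nat_lit 2) (.e (nat_lit 196656) (nat_lit 11) (.e (nat_lit 16463) (nat_lit 13) (.e (nat_lit 483341) (nat_lit 9) (.e (nat_lit 426108) (nat_lit 1) .nil)))))) (.g (nat_lit 1) (.e (nat_lit 184549) (nat_lit 0) .nil) .nil)))) (.nd (nat_lit 9) 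
(.lf (nat_lit 506355) (.g (nat_lit 1277) (.e (nat_lit 164330) (nat_lit 230) (.e (nat_lit 163873) (nat_lit 3) (.e (nat_lit 204813) (nat_lit 9) (.e (nat_lit 426198) (nat_lit 9) .nil)))) (.g (nat_lit 0) (.e (nat_lit 183860) (nat_lit 0) .nil) .nil))) 
(.lf (nat_lit 506867) (.g (nat_lit 3853) (.e (nat_lit 164332) (nat_lit 230) (.e (nat_lit 163941) (nat_lit 19) (.e (nat_lit 483341) (nat_lit 9) (.e (nat_lit 426314) (nat_lit 12) (.e (nat_lit 475179) (nat_lit 24) (.e (nat_lit 516117) (nat_lit 1) .nil)))))) (.g (nat_lit 1) (.e (nat_lit 185178) (nat_lit 0) .nil) .nil))))))))) 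
(.nd (nat_lit 4) (.nd (nat_lit 5) (.nd (nat_lit 6) (.nd (nat_lit 7) (.nd (nat_lit 8) 
(.nd (nat_lit 9) 
(.lf (nat_lit 505867) (.g (nat_lit 2623) (.e (nat_lit 164327) (nat_lit 230) (.e (nat_lit 163871) (nat_lit 2) (.e (nat_lit 196656) (nat_lit 11) (.e (nat_lit 16416) (nat_lit 3) (.e (nat_lit 204837) (nat_lit 20) .nil))))) (.g (nat_lit 0) (.e (nat_lit 182647) (nat_lit 0) .nil) .nil))) 
(.lf (nat_lit 506379) (.g (nat_lit 500) (.e (nat_lit 164330) (nat_lit 230) (.e (nat_lit 163874) (nat_lit 3) (.e (nat_lit 204812) (nat_lit 9) .nil))) (.g (nat_lit 0) (.e (nat_lit 183908) (nat_lit 0) .nil) .nil)))) (.nd (nat_lit 9) 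
(.lf (nat_lit 506123) (.g (nat_lit 2338) (.e (nat_lit 164329) (nat_lit 230) (.e (nat_lit 163873) (nat_lit 3) (.e (nat_lit 204809) (nat_lit 9) (.e (nat_lit 426139) (nat_lit 3) (.e (nat_lit 204833) (nat_lit 19) (.e (nat_lit 106538) (nat_lit 12) (.e (nat_lit 57465) (nat_lit 23) (.e (nat_lit 516120) (nat_lit 1) .nil)))))))) (.g (nat_lit 1) (.e (nat_lit 183326) (nat_lit 0) .nil) .nil))) 
(.lf (nat_lit 506635) (.g (nat_lit 4633) (.e (nat_lit 164332) (nat_lit 230) (.e (nat_lit 163869) (nat_lit 2) (.e (nat_lit 196654) (nat_lit 11) (.e (nat_lit 16463) (nat_lit 13) (.e (nat_lit 483337) (nat_lit 9) (.e (nat_lit 426108) (nat_lit 1) .nil)))))) (.g (nat_lit 1) (.e (nat_lit 184583) (nat_lit 0) .nil) .nil))))) (.nd (nat_lit 8) (.nd (nat_lit 9) 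
(.lf (nat_lit 505995) (.g (nat_lit 1582) (.e (nat_lit 164327) (nat_lit 230) (.e (nat_lit 163884) (nat_lit 5) (.e (nat_lit 221194) (nat_lit 11) (.e (nat_lit 336074) (nat_lit 9) .nil)))) (.g (nat_lit 0) (.e (nat_lit 182913) (nat_lit 0) .nil) .nil))) 
(.lf (nat_lit 506507) (.g (nat_lit 4007) (.e (nat_lit 164331) (nat_lit 230) (.e (nat_lit 163873) (nat_lit 3) (.e (nat_lit 204813) (nat_lit 9) (.e (nat_lit 426031) (nat_lit 0) .nil)))) (.g (nat_lit 0) (.e (nat_lit 184279) (nat_lit 0) .nil) .nil)))) (.nd (nat_lit 9) 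
(.lf (nat_lit 506251) (.g (nat_lit 1946) (.e (nat_lit 164329) (nat_lit 230) (.e (nat_lit 163941) (nat_lit 19) (.e (nat_lit 483337) (nat_lit 9) (.e (nat_lit 426313) (nat_lit 12) (.e (nat_lit 475178) (nat_lit 24) .nil))))) (.g (nat_lit 0) (.e (nat_lit 183703) (nat_lit 0) .nil) .nil))) 
(.lf (nat_lit 506763) (.g (nat_lit 2952) (.e (nat_lit 164332) (nat_lit 230) (.e (nat_lit 163902) (nat_lit 12) (.e (nat_lit 426566) (nat_lit 34) (.e (nat_lit 393267) (nat_lit 23) .nil)))) (.g (nat_lit 0) (.e (nat_lit 184839) (nat_lit 0) .nil) .nil)))))) (.nd (nat_lit 7) (.nd (nat_lit 8) (.nd (nat_lit 9) 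
(.lf (nat_lit 505931) (.g (nat_lit 852) (.e (nat_lit 164327) (nat_lit 230) (.e (nat_lit 163875) (nat_lit 3) (.e (nat_lit 204805) (nat_lit 0) .nil))) (.g (nat_lit 0) (.e (nat_lit 182802) (nat_lit 0) .nil) .nil))) 
(.lf (nat_lit 506443) (.g (nat_lit 568) (.e (nat_lit 164330) (nat_lit 230) (.e (nat_lit 163905) (nat_lit 12) (.e (nat_lit 426487) (nat_lit 27) .nil))) (.g (nat_lit 0) (.e (nat_lit 184030) (nat_lit 0) .nil) .nil)))) (.nd (nat_lit 9) 
(.lf (nat_lit 506187) (.g (nat_lit 3739) (.e (nat_lit 164329) (nat_lit 230) (.e (nat_lit 163902) (nat_lit 12) (.e (nat_lit 426438) (nat_lit 18) (.e (nat_lit 98373) (nat_lit 29) (.e (nat_lit 450562) (nat_lit 0) (.e (nat_lit 7936) (nat_lit 369) (.e (nat_lit 163860) (nat_lit 1) .nil))))))) (.g (nat_lit 1) (.e (nat_lit 183431) (nat_lit 0) .nil) .nil))) 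
(.lf (nat_lit 506699) (.g (nat_lit 1927) (.e (nat_lit 164332) (nat_lit 230) (.e (nat_lit 163874) (nat_lit 3) (.e (nat_lit 204830) (nat_lit 18) (.e (nat_lit 57908) (nat_lit 278) (.e (nat_lit 2553) (nat_lit 159) .nil))))) (.g (nat_lit 0) (.e (nat_lit 184703) (nat_lit 0) .nil) .nil))))) (.nd (nat_lit 8) (.nd (nat_lit 9) 
(.lf (nat_lit 506059) (.g (nat_lit 716) (.e (nat_lit 164328) (nat_lit 230) (.e (nat_lit 163867) (nat_lit 2) (.e (nat_lit 196654) (nat_lit 11) .nil))) (.g (nat_lit 0) (.e (nat_lit 183169) (nat_lit 0) .nil) .nil))) 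
(.lf (nat_lit 506571) (.g (nat_lit 2769) (.e (nat_lit 164331) (nat_lit 230) (.e (nat_lit 163942) (nat_lit 19) (.e (nat_lit 483341) (nat_lit 9) (.e (nat_lit 426190) (nat_lit 9) (.e (nat_lit 426436) (nat_lit 18) .nil))))) (.g (nat_lit 0) (.e (nat_lit 184457) (nat_lit 0) .nil) .nil)))) (.nd (nat_lit 9) 
(.lf (nat_lit 506315) (.g (nat_lit 2964) (.e (nat_lit 164330) (nat_lit 230) (.e (nat_lit 163869) (nat_lit 2) (.e (nat_lit 196654) (nat_lit 11) (.e (nat_lit 16416) (nat_lit 3) (.e (nat_lit 204836) (nat_lit 20) .nil))))) (.g (nat_lit 0) (.e (nat_lit 183796) (nat_lit 0) .nil) .nil))) 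
(.lf (nat_lit 506827) (.g (nat_lit 2070) (.e (nat_lit 164332) (nat_lit 230) (.e (nat_lit 163905) (nat_lit 12) (.e (nat_lit 426530) (nat_lit 27) (.e (nat_lit 336390) (nat_lit 27) (.e (nat_lit 426188) (nat_lit 9) .nil))))) (.g (nat_lit 0) (.e (nat_lit 184976) (nat_lit 0) .nil) .nil))))))) (.nd (nat_lit 6) (.nd (nat_lit 7) (.nd (nat_lit 8) (.nd (nat_lit 9) 
(.lf (nat_lit 505899) (.g (nat_lit 2616) (.e (nat_lit 164327) (nat_lit 230) (.e (nat_lit 163873) (nat_lit 3) (.e (nat_lit 204811) (nat_lit 9) (.e (nat_lit 426262) (nat_lit 9) (.e (nat_lit 426565) (nat_lit 34) (.e (nat_lit 393253) (nat_lit 18) .nil)))))) (.g (nat_lit 1) (.e (nat_lit 182702) (nat_lit 0) .nil) .nil))) 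
(.lf (nat_lit 506411) (.g (nat_lit 4706) (.e (nat_lit 164330) (nat_lit 230) (.e (nat_lit 163902) (nat_lit 12) (.e (nat_lit 426438) (nat_lit 18) (.e (nat_lit 98373) (nat_lit 29) (.e (nat_lit 450563) (nat_lit 0) (.e (nat_lit 6841) (nat_lit 369) (.e (nat_lit 163862) (nat_lit 1) .nil))))))) (.g (nat_lit 1) (.e (nat_lit 183961) (nat_lit 0) .nil) .nil)))) (.nd (nat_lit 9) 
(.lf (nat_lit 506155) (.g (nat_lit 1060) (.e (nat_lit 164329) (nat_lit 230) (.e (nat_lit 163874) (nat_lit 3) (.e (nat_lit 204809) (nat_lit 9) .nil))) (.g (nat_lit 0) (.e (nat_lit 183373) (nat_lit 0) .nil) .nil))) 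
(.lf (nat_lit 506667) (.g (nat_lit 267) (.e (nat_lit 164332) (nat_lit 230) (.e (nat_lit 163873) (nat_lit 3) (.e (nat_lit 204813) (nat_lit 9) .nil))) (.g (nat_lit 0) (.e (nat_lit 184627) (nat_lit 0) .nil) .nil))))) (.nd (nat_lit 8) (.nd (nat_lit 9) 
(.lf (nat_lit 506027) (.g (nat_lit 444) (.e (nat_lit 164327) (nat_lit 230) (.e (nat_lit 163903) (nat_lit 12) (.e (nat_lit 426568) (nat_lit 34) .nil))) (.g (nat_lit 0) (.e (nat_lit 182981) (nat_lit 0) .nil) .nil))) 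
(.lf (nat_lit 506539) (.g (nat_lit 1815) (.e (nat_lit 164331) (nat_lit 230) (.e (nat_lit 163902) (nat_lit 12) (.e (nat_lit 426566) (nat_lit 34) (.e (nat_lit 393296) (nat_lit 26) .nil)))) (.g (nat_lit 0) (.e (nat_lit 184334) (nat_lit 0) .nil) .nil)))) (.nd (nat_lit 9) 
(.lf (nat_lit 506283) (.g (nat_lit 1338) (.e (nat_lit 164329) (nat_lit 230) (.e (nat_lit 163942) (nat_lit 19) (.e (nat_lit 483341) (nat_lit 9) (.e (nat_lit 426200) (nat_lit 9) (.e (nat_lit 426363) (nat_lit 15) .nil))))) (.g (nat_lit 0) (.e (nat_lit 183746) (nat_lit 0) .nil) .nil))) 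
(.lf (nat_lit 506795) (.g (nat_lit 3091) (.e (nat_lit 164332) (nat_lit 230) (.e (nat_lit 163904) (nat_lit 12) (.e (nat_lit 426566) (nat_lit 34) (.e (nat_lit 393273) (nat_lit 23) .nil)))) (.g (nat_lit 0) (.e (nat_lit 184873) (nat_lit 0) .nil) .nil)))))) (.nd (nat_lit 7) (.nd (nat_lit 8) (.nd (nat_lit 9) 
(.lf (nat_lit 505963) (.g (nat_lit 3755) (.e (nat_lit 164327) (nat_lit 230) (.e (nat_lit 163875) (nat_lit 3) (.e (nat_lit 204837) (nat_lit 20) (.e (nat_lit 114719) (nat_lit 23) (.e (nat_lit 98384) (nat_lit 32) (.e (nat_lit 475177) (nat_lit 24) (.e (nat_lit 516119) (nat_lit 1) .nil))))))) (.g (nat_lit 1) (.e (nat_lit 182876) (nat_lit 0) .nil) .nil))) 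
(.lf (nat_lit 506475) (.g (nat_lit 3340) (.e (nat_lit 164330) (nat_lit 230) (.e (nat_lit 163941) (nat_lit 19) (.e (nat_lit 483341) (nat_lit 9) (.e (nat_lit 426213) (nat_lit 9) .nil)))) (.g (nat_lit 0) (.e (nat_lit 184232) (nat_lit 0) .nil) .nil)))) (.nd (nat_lit 9) 
(.lf (nat_lit 506219) (.g (nat_lit 1192) (.e (nat_lit 164329) (nat_lit 230) (.e (nat_lit 163902) (nat_lit 12) (.e (nat_lit 426568) (nat_lit 34) (.e (nat_lit 393270) (nat_lit 23) .nil)))) (.g (nat_lit 0) (.e (nat_lit 183479) (nat_lit 0) .nil) .nil))) 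
(.lf (nat_lit 506731) (.g (nat_lit 978) (.e (nat_lit 164332) (nat_lit 230) (.e (nat_lit 163902) (nat_lit 12) (.e (nat_lit 426438) (nat_lit 18) (.e (nat_lit 98373) (nat_lit 29) .nil)))) (.g (nat_lit 0) (.e (nat_lit 184787) (nat_lit 0) .nil) .nil))))) (.nd (nat_lit 8) (.nd (nat_lit 9) 
(.lf (nat_lit 506091) (.g (nat_lit 1084) (.e (nat_lit 164329) (nat_lit 230) (.e (nat_lit 163867) (nat_lit 2) (.e (nat_lit 196630) (nat_lit 9) (.e (nat_lit 430) (nat_lit 32) .nil)))) (.g (nat_lit 0) (.e (nat_lit 183287) (nat_lit 0) .nil) .nil))) 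
(.lf (nat_lit 506603) (.g (nat_lit 1607) (.e (nat_lit 164332) (nat_lit 230) (.e (nat_lit 163867) (nat_lit 2) (.e (nat_lit 196656) (nat_lit 11) (.e (nat_lit 16388) (nat_lit 0) .nil)))) (.g (nat_lit 0) (.e (nat_lit 184518) (nat_lit 0) .nil) .nil)))) (.nd (nat_lit 9) 
(.lf (nat_lit 506347) (.g (nat_lit 2174) (.e (nat_lit 164330) (nat_lit 230) (.e (nat_lit 163873) (nat_lit 3) (.e (nat_lit 204813) (nat_lit 9) (.e (nat_lit 426139) (nat_lit 3) .nil)))) (.g (nat_lit 0) (.e (nat_lit 183850) (nat_lit 0) .nil) .nil))) 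
(.lf (nat_lit 506859) (.g (nat_lit 2227) (.e (nat_lit 164332) (nat_lit 230) (.e (nat_lit 163941) (nat_lit 19) (.e (nat_lit 483341) (nat_lit 9) (.e (nat_lit 426198) (nat_lit 9) (.e (nat_lit 433920) (nat_lit 18) (.e (nat_lit 98335) (nat_lit 18) .nil)))))) (.g (nat_lit 1) (.e (nat_lit 185166) (nat_lit 0) .nil) .nil)))))))) 
(.nd (nat_lit 5) (.nd (nat_lit 6) (.nd (nat_lit 7) (.nd (nat_lit 8) (.nd (nat_lit 9) 
(.lf (nat_lit 505883) (.g (nat_lit 1342) (.e (nat_lit 164327) (nat_lit 230) (.e (nat_lit 163871) (nat_lit 2) (.e (nat_lit 196656) (nat_lit 11) (.e (nat_lit 16444) (nat_lit 9) .nil)))) (.g (nat_lit 0) (.e (nat_lit 182667) (nat_lit 0) .nil) .nil))) 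
(.lf (nat_lit 506395) (.g (nat_lit 2843) (.e (nat_lit 164330) (nat_lit 230) (.e (nat_lit 163902) (nat_lit 12) (.e (nat_lit 426422) (nat_lit 16) (.e (nat_lit 57687) (nat_lit 156) (.e (nat_lit 163933) (nat_lit 17) (.e (nat_lit 466972) (nat_lit 21) (.e (nat_lit 164332) (nat_lit 230) (.e (nat_lit 163862) (nat_lit 1) .nil)))))))) (.g (nat_lit 1) (.e (nat_lit 183944) (nat_lit 0) .nil) .nil)))) 
(.nd (nat_lit 9) 
(.lf (nat_lit 506139) (.g (nat_lit 3852) (.e (nat_lit 164329) (nat_lit 230) (.e (nat_lit 163873) (nat_lit 3) (.e (nat_lit 204813) (nat_lit 9) (.e (nat_lit 426186) (nat_lit 9) .nil)))) (.g (nat_lit 0) (.e (nat_lit 183348) (nat_lit 0) .nil) .nil))) 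
(.lf (nat_lit 506651) (.g (nat_lit 3148) (.e (nat_lit 164332) (nat_lit 230) (.e (nat_lit 163869) (nat_lit 2) (.e (nat_lit 196656) (nat_lit 11) (.e (nat_lit 16438) (nat_lit 9) (.e (nat_lit 426482) (nat_lit 27) (.e (nat_lit 336388) (nat_lit 27) (.e (nat_lit 426105) (nat_lit 1) .nil))))))) (.g (nat_lit 1) (.e (nat_lit 184604) (nat_lit 0) .nil) .nil))))) (.nd (nat_lit 8) (.nd (nat_lit 9) 
(.lf (nat_lit 506011) (.g (nat_lit 746) (.e (nat_lit 164327) (nat_lit 230) (.e (nat_lit 163903) (nat_lit 12) (.e (nat_lit 426487) (nat_lit 27) .nil))) (.g (nat_lit 0) (.e (nat_lit 182965) (nat_lit 0) .nil) .nil))) 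
(.lf (nat_lit 506523) (.g (nat_lit 4171) (.e (nat_lit 164331) (nat_lit 230) (.e (nat_lit 163873) (nat_lit 3) (.e (nat_lit 204813) (nat_lit 9) (.e (nat_lit 426213) (nat_lit 9) .nil)))) (.g (nat_lit 0) (.e (nat_lit 184299) (nat_lit 0) .nil) .nil)))) (.nd (nat_lit 9) 
(.lf (nat_lit 506267) (.g (nat_lit 4065) (.e (nat_lit 164329) (nat_lit 230) (.e (nat_lit 163941) (nat_lit 19) (.e (nat_lit 483341) (nat_lit 9) (.e (nat_lit 426220) (nat_lit 9) .nil)))) (.g (nat_lit 0) (.e (nat_lit 183725) (nat_lit 0) .nil) .nil))) 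
(.lf (nat_lit 506779) (.g (nat_lit 1809) (.e (nat_lit 164332) (nat_lit 230) (.e (nat_lit 163902) (nat_lit 12) (.e (nat_lit 426568) (nat_lit 34) (.e (nat_lit 393267) (nat_lit 23) (.e (nat_lit 426437) (nat_lit 18) .nil))))) (.g (nat_lit 0) (.e (nat_lit 184855) (nat_lit 0) .nil) .nil)))))) (.nd (nat_lit 7) (.nd (nat_lit 8) (.nd (nat_lit 9) 
(.lf (nat_lit 505947) (.g (nat_lit 2747) (.e (nat_lit 164327) (nat_lit 230) (.e (nat_lit 163875) (nat_lit 3) (.e (nat_lit 204813) (nat_lit 9) (.e (nat_lit 426188) (nat_lit 9) (.e (nat_lit 426568) (nat_lit 34) (.e (nat_lit 393250) (nat_lit 18) .nil)))))) (.g (nat_lit 1) (.e (nat_lit 182834) (nat_lit 0) .nil) .nil))) 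
(.lf (nat_lit 506459) (.g (nat_lit 747) (.e (nat_lit 164330) (nat_lit 230) (.e (nat_lit 163913) (nat_lit 12) (.e (nat_lit 426510) (nat_lit 27) .nil))) (.g (nat_lit 0) (.e (nat_lit 184090) (nat_lit 0) .nil) .nil)))) (.nd (nat_lit 9) 
(.lf (nat_lit 506203) (.g (nat_lit 881) (.e (nat_lit 164329) (nat_lit 230) (.e (nat_lit 163902) (nat_lit 12) (.e (nat_lit 426486) (nat_lit 27) .nil))) (.g (nat_lit 0) (.e (nat_lit 183450) (nat_lit 0) .nil) .nil))) 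
(.lf (nat_lit 506715) (.g (nat_lit 3280) (.e (nat_lit 164332) (nat_lit 230) (.e (nat_lit 163880) (nat_lit 4) (.e (nat_lit 213032) (nat_lit 11) (.e (nat_lit 24658) (nat_lit 13) (.e (nat_lit 393281) (nat_lit 23) (.e (nat_lit 426100) (nat_lit 1) .nil)))))) (.g (nat_lit 1) (.e (nat_lit 184720) (nat_lit 0) .nil) .nil))))) (.nd (nat_lit 8) (.nd (nat_lit 9) 
(.lf (nat_lit 506075) (.g (nat_lit 417) (.e (nat_lit 164329) (nat_lit 230) (.e (nat_lit 163850) (nat_lit 0) (.e (nat_lit 3252) (nat_lit 197) .nil))) (.g (nat_lit 0) (.e (nat_lit 183241) (nat_lit 0) .nil) .nil))) 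
(.lf (nat_lit 506587) (.g (nat_lit 1372) (.e (nat_lit 164332) (nat_lit 230) (.e (nat_lit 163867) (nat_lit 2) (.e (nat_lit 196630) (nat_lit 9) (.e (nat_lit 430) (nat_lit 32) .nil)))) (.g (nat_lit 0) (.e (nat_lit 184495) (nat_lit 0) .nil) .nil)))) (.nd (nat_lit 9) 
(.lf (nat_lit 506331) (.g (nat_lit 1484) (.e (nat_lit 164330) (nat_lit 230) (.e (nat_lit 163872) (nat_lit 3) (.e (nat_lit 204813) (nat_lit 9) (.e (nat_lit 426190) (nat_lit 9) (.e (nat_lit 426566) (nat_lit 34) .nil))))) (.g (nat_lit 0) (.e (nat_lit 183818) (nat_lit 0) .nil) .nil))) 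
(.lf (nat_lit 506843) (.g (nat_lit 3348) (.e (nat_lit 164332) (nat_lit 230) (.e (nat_lit 163936) (nat_lit 18) (.e (nat_lit 475177) (nat_lit 24) (.e (nat_lit 516176) (nat_lit 14) (.e (nat_lit 466972) (nat_lit 21) (.e (nat_lit 164183) (nat_lit 154) (.e (nat_lit 65280) (nat_lit 62) .nil))))))) (.g (nat_lit 1) (.e (nat_lit 185134) (nat_lit 0) .nil) .nil))))))) 
(.nd (nat_lit 6) (.nd (nat_lit 7) (.nd (nat_lit 8) (.nd (nat_lit 9) 
(.lf (nat_lit 505915) (.g (nat_lit 2851) (.e (nat_lit 164327) (nat_lit 230) (.e (nat_lit 163873) (nat_lit 3) (.e (nat_lit 204813) (nat_lit 9) (.e (nat_lit 426188) (nat_lit 9) (.e (nat_lit 426568) (nat_lit 34) (.e (nat_lit 393250) (nat_lit 18) .nil)))))) (.g (nat_lit 1) (.e (nat_lit 182745) (nat_lit 0) .nil) .nil))) 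
(.lf (nat_lit 506427) (.g (nat_lit 690) (.e (nat_lit 164330) (nat_lit 230) (.e (nat_lit 163902) (nat_lit 12) (.e (nat_lit 426502) (nat_lit 27) .nil))) (.g (nat_lit 0) (.e (nat_lit 183977) (nat_lit 0) .nil) .nil)))) (.nd (nat_lit 9) 
(.lf (nat_lit 506171) (.g (nat_lit 2314) (.e (nat_lit 164329) (nat_lit 230) (.e (nat_lit 163902) (nat_lit 12) (.e (nat_lit 426422) (nat_lit 16) (.e (nat_lit 57688) (nat_lit 156) (.e (nat_lit 163933) (nat_lit 17) (.e (nat_lit 466972) (nat_lit 21) (.e (nat_lit 164332) (nat_lit 230) (.e (nat_lit 163862) (nat_lit 1) .nil)))))))) (.g (nat_lit 1) (.e (nat_lit 183410) (nat_lit 0) .nil) .nil))) 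
(.lf (nat_lit 506683) (.g (nat_lit 3974) (.e (nat_lit 164332) (nat_lit 230) (.e (nat_lit 163873) (nat_lit 3) (.e (nat_lit 204813) (nat_lit 9) (.e (nat_lit 426200) (nat_lit 9) (.e (nat_lit 426566) (nat_lit 34) (.e (nat_lit 393253) (nat_lit 18) .nil)))))) (.g (nat_lit 1) (.e (nat_lit 184655) (nat_lit 0) .nil) .nil))))) (.nd (nat_lit 8) (.nd (nat_lit 9) 
(.lf (nat_lit 506043) (.g (nat_lit 2582) (.e (nat_lit 164327) (nat_lit 230) (.e (nat_lit 163907) (nat_lit 12) (.e (nat_lit 426566) (nat_lit 34) (.e (nat_lit 393294) (nat_lit 26) (.e (nat_lit 475176) (nat_lit 24) .nil))))) (.g (nat_lit 0) (.e (nat_lit 183027) (nat_lit 0) .nil) .nil))) 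
(.lf (nat_lit 506555) (.g (nat_lit 1795) (.e (nat_lit 164331) (nat_lit 230) (.e (nat_lit 163936) (nat_lit 18) (.e (nat_lit 475177) (nat_lit 24) (.e (nat_lit 516176) (nat_lit 14) (.e (nat_lit 466972) (nat_lit 21) .nil))))) (.g (nat_lit 0) (.e (nat_lit 184419) (nat_lit 0) .nil) .nil)))) (.nd (nat_lit 9) 
(.lf (nat_lit 506299) (.g (nat_lit 2204) (.e (nat_lit 164330) (nat_lit 230) (.e (nat_lit 163867) (nat_lit 2) (.e (nat_lit 196656) (nat_lit 11) (.e (nat_lit 16431) (nat_lit 9) (.e (nat_lit 426568) (nat_lit 34) .nil))))) (.g (nat_lit 0) (.e (nat_lit 183774) (nat_lit 0) .nil) .nil))) 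
(.lf (nat_lit 506811) (.g (nat_lit 3140) (.e (nat_lit 164332) (nat_lit 230) (.e (nat_lit 163905) (nat_lit 12) (.e (nat_lit 426472) (nat_lit 25) (.e (nat_lit 319533) (nat_lit 16) (.e (nat_lit 286753) (nat_lit 10) (.e (nat_lit 344097) (nat_lit 18) (.e (nat_lit 7280) (nat_lit 386) (.e (nat_lit 163861) (nat_lit 1) .nil)))))))) (.g (nat_lit 1) (.e (nat_lit 184941) (nat_lit 0) .nil) .nil)))))) 
(.nd (nat_lit 7) (.nd (nat_lit 8) (.nd (nat_lit 9) 
(.lf (nat_lit 505979) (.g (nat_lit 2816) (.e (nat_lit 164327) (nat_lit 230) (.e (nat_lit 163881) (nat_lit 4) (.e (nat_lit 213032) (nat_lit 11) (.e (nat_lit 24660) (nat_lit 13) (.e (nat_lit 393271) (nat_lit 23) (.e (nat_lit 426112) (nat_lit 1) .nil)))))) (.g (nat_lit 1) (.e (nat_lit 182895) (nat_lit 0) .nil) .nil))) 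
(.lf (nat_lit 506491) (.g (nat_lit 4016) (.e (nat_lit 164331) (nat_lit 230) (.e (nat_lit 163867) (nat_lit 2) (.e (nat_lit 196654) (nat_lit 11) (.e (nat_lit 16463) (nat_lit 13) (.e (nat_lit 483337) (nat_lit 9) (.e (nat_lit 426108) (nat_lit 1) .nil)))))) (.g (nat_lit 1) (.e (nat_lit 184259) (nat_lit 0) .nil) .nil)))) (.nd (nat_lit 9) 
(.lf (nat_lit 506235) (.g (nat_lit 1221) (.e (nat_lit 164329) (nat_lit 230) (.e (nat_lit 163902) (nat_lit 12) (.e (nat_lit 426568) (nat_lit 34) (.e (nat_lit 393293) (nat_lit 26) .nil)))) (.g (nat_lit 0) (.e (nat_lit 183495) (nat_lit 0) .nil) .nil))) 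
(.lf (nat_lit 506747) (.g (nat_lit 2548) (.e (nat_lit 164332) (nat_lit 230) (.e (nat_lit 163902) (nat_lit 12) (.e (nat_lit 426472) (nat_lit 25) (.e (nat_lit 319534) (nat_lit 16) (.e (nat_lit 286749) (nat_lit 9) (.e (nat_lit 335997) (nat_lit 1) (.e (nat_lit 57692) (nat_lit 156) (.e (nat_lit 163862) (nat_lit 1) .nil)))))))) (.g (nat_lit 1) (.e (nat_lit 184805) (nat_lit 0) .nil) .nil))))) 
(.nd (nat_lit 8) (.nd (nat_lit 9) 
(.lf (nat_lit 506107) (.g (nat_lit 3640) (.e (nat_lit 164329) (nat_lit 230) (.e (nat_lit 163867) (nat_lit 2) (.e (nat_lit 196656) (nat_lit 11) (.e (nat_lit 16433) (nat_lit 9) (.e (nat_lit 426566) (nat_lit 34) (.e (nat_lit 393253) (nat_lit 18) .nil)))))) (.g (nat_lit 1) (.e (nat_lit 183306) (nat_lit 0) .nil) .nil))) 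
(.lf (nat_lit 506619) (.g (nat_lit 1348) (.e (nat_lit 164332) (nat_lit 230) (.e (nat_lit 163869) (nat_lit 2) (.e (nat_lit 196624) (nat_lit 9) (.e (nat_lit 433) (nat_lit 32) .nil)))) (.g (nat_lit 0) (.e (nat_lit 184559) (nat_lit 0) .nil) .nil)))) (.nd (nat_lit 9) 
(.lf (nat_lit 506363) (.g (nat_lit 1919) (.e (nat_lit 164330) (nat_lit 230) (.e (nat_lit 163873) (nat_lit 3) (.e (nat_lit 204813) (nat_lit 9) (.e (nat_lit 426200) (nat_lit 9) (.e (nat_lit 426491) (nat_lit 27) .nil))))) (.g (nat_lit 0) (.e (nat_lit 183869) (nat_lit 0) .nil) .nil))) 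
(.lf (nat_lit 506875) (.g (nat_lit 2062) (.e (nat_lit 164332) (nat_lit 230) (.e (nat_lit 163943) (nat_lit 19) (.e (nat_lit 483341) (nat_lit 9) (.e (nat_lit 426198) (nat_lit 9) (.e (nat_lit 433920) (nat_lit 18) .nil))))) (.g (nat_lit 0) (.e (nat_lit 185203) (nat_lit 0) .nil) .nil)))))))))) 
(.nd (nat_lit 3) (.nd (nat_lit 4) (.nd (nat_lit 5) (.nd (nat_lit 6) (.nd (nat_lit 7) 
(.nd (nat_lit 8) (.nd (nat_lit 9) 
(.lf (nat_lit 505863) (.g (nat_lit 1502) (.e (nat_lit 164327) (nat_lit 230) (.e (nat_lit 163871) (nat_lit 2) (.e (nat_lit 196655) (nat_lit 11) (.e (nat_lit 16465) (nat_lit 13) (.e (nat_lit 491264) (nat_lit 9) .nil))))) (.g (nat_lit 0) (.e (nat_lit 182638) (nat_lit 0) .nil) .nil))) 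
(.lf (nat_lit 506375) (.g (nat_lit 2188) (.e (nat_lit 164330) (nat_lit 230) (.e (nat_lit 163874) (nat_lit 3) (.e (nat_lit 204809) (nat_lit 9) (.e (nat_lit 426139) (nat_lit 3) (.e (nat_lit 204835) (nat_lit 19) .nil))))) (.g (nat_lit 0) (.e (nat_lit 183904) (nat_lit 0) .nil) .nil)))) (.nd (nat_lit 9) 
(.lf (nat_lit 506119) (.g (nat_lit 2425) (.e (nat_lit 164329) (nat_lit 230) (.e (nat_lit 163869) (nat_lit 2) (.e (nat_lit 196654) (nat_lit 11) (.e (nat_lit 16466) (nat_lit 13) (.e (nat_lit 483341) (nat_lit 9) .nil))))) (.g (nat_lit 0) (.e (nat_lit 183322) (nat_lit 0) .nil) .nil))) 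
(.lf (nat_lit 506631) (.g (nat_lit 1731) (.e (nat_lit 164332) (nat_lit 230) (.e (nat_lit 163869) (nat_lit 2) (.e (nat_lit 196654) (nat_lit 11) (.e (nat_lit 16436) (nat_lit 9) (.e (nat_lit 426486) (nat_lit 27) .nil))))) (.g (nat_lit 0) (.e (nat_lit 184577) (nat_lit 0) .nil) .nil))))) (.nd (nat_lit 8) (.nd (nat_lit 9) 
(.lf (nat_lit 505991) (.g (nat_lit 1616) (.e (nat_lit 164327) (nat_lit 230) (.e (nat_lit 163882) (nat_lit 4) (.e (nat_lit 213032) (nat_lit 11) (.e (nat_lit 24657) (nat_lit 13) (.e (nat_lit 393274) (nat_lit 23) .nil))))) (.g (nat_lit 0) (.e (nat_lit 182909) (nat_lit 0) .nil) .nil))) 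
(.lf (nat_lit 506503) (.g (nat_lit 1065) (.e (nat_lit 164331) (nat_lit 230) (.e (nat_lit 163869) (nat_lit 2) (.e (nat_lit 196654) (nat_lit 11) .nil))) (.g (nat_lit 0) (.e (nat_lit 184272) (nat_lit 0) .nil) .nil)))) (.nd (nat_lit 9) 
(.lf (nat_lit 506247) (.g (nat_lit 2206) (.e (nat_lit 164329) (nat_lit 230) (.e (nat_lit 163941) (nat_lit 19) (.e (nat_lit 483336) (nat_lit 9) (.e (nat_lit 426315) (nat_lit 12) (.e (nat_lit 475178) (nat_lit 24) (.e (nat_lit 516117) (nat_lit 1) .nil)))))) (.g (nat_lit 1) (.e (nat_lit 183694) (nat_lit 0) .nil) .nil))) 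
(.lf (nat_lit 506759) (.g (nat_lit 660) (.e (nat_lit 164332) (nat_lit 230) (.e (nat_lit 163902) (nat_lit 12) (.e (nat_lit 426489) (nat_lit 27) .nil))) (.g (nat_lit 0) (.e (nat_lit 184819) (nat_lit 0) .nil) .nil)))))) (.nd (nat_lit 7) (.nd (nat_lit 8) (.nd (nat_lit 9) 
(.lf (nat_lit 505927) (.g (nat_lit 2646) (.e (nat_lit 164327) (nat_lit 230) (.e (nat_lit 163873) (nat_lit 3) (.e (nat_lit 204813) (nat_lit 9) (.e (nat_lit 433920) (nat_lit 9) .nil)))) (.g (nat_lit 0) (.e (nat_lit 182762) (nat_lit 0) .nil) .nil))) 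
(.lf (nat_lit 506439) (.g (nat_lit 1985) (.e (nat_lit 164330) (nat_lit 230) (.e (nat_lit 163902) (nat_lit 12) (.e (nat_lit 426568) (nat_lit 34) (.e (nat_lit 393294) (nat_lit 26) (.e (nat_lit 475177) (nat_lit 24) .nil))))) (.g (nat_lit 0) (.e (nat_lit 184000) (nat_lit 0) .nil) .nil)))) (.nd (nat_lit 9) 
(.lf (nat_lit 506183) (.g (nat_lit 4475) (.e (nat_lit 164329) (nat_lit 230) (.e (nat_lit 163902) (nat_lit 12) (.e (nat_lit 426438) (nat_lit 18) (.e (nat_lit 98373) (nat_lit 29) (.e (nat_lit 450562) (nat_lit 0) (.e (nat_lit 6839) (nat_lit 369) (.e (nat_lit 163860) (nat_lit 1) .nil))))))) (.g (nat_lit 1) (.e (nat_lit 183427) (nat_lit 0) .nil) .nil))) 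
(.lf (nat_lit 506695) (.g (nat_lit 842) (.e (nat_lit 164332) (nat_lit 230) (.e (nat_lit 163874) (nat_lit 3) (.e (nat_lit 204813) (nat_lit 9) (.e (nat_lit 426200) (nat_lit 9) .nil)))) (.g (nat_lit 0) (.e (nat_lit 184689) (nat_lit 0) .nil) .nil))))) (.nd (nat_lit 8) (.nd (nat_lit 9) 
(.lf (nat_lit 506055) (.g (nat_lit 1257) (.e (nat_lit 164327) (nat_lit 230) (.e (nat_lit 163943) (nat_lit 19) (.e (nat_lit 483338) (nat_lit 9) .nil))) (.g (nat_lit 0) (.e (nat_lit 183152) (nat_lit 0) .nil) .nil))) 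
(.lf (nat_lit 506567) (.g (nat_lit 4028) (.e (nat_lit 164331) (nat_lit 230) (.e (nat_lit 163941) (nat_lit 19) (.e (nat_lit 483341) (nat_lit 9) (.e (nat_lit 426222) (nat_lit 9) .nil)))) (.g (nat_lit 0) (.e (nat_lit 184444) (nat_lit 0) .nil) .nil)))) (.nd (nat_lit 9) 
(.lf (nat_lit 506311) (.g (nat_lit 1792) (.e (nat_lit 164330) (nat_lit 230) (.e (nat_lit 163869) (nat_lit 2) (.e (nat_lit 196630) (nat_lit 9) (.e (nat_lit 430) (nat_lit 32) (.e (nat_lit 426189) (nat_lit 9) .nil))))) (.g (nat_lit 0) (.e (nat_lit 183792) (nat_lit 0) .nil) .nil))) 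
(.lf (nat_lit 506823) (.g (nat_lit 1201) (.e (nat_lit 164332) (nat_lit 230) (.e (nat_lit 163905) (nat_lit 12) (.e (nat_lit 426507) (nat_lit 27) (.e (nat_lit 336408) (nat_lit 27) .nil)))) (.g (nat_lit 0) (.e (nat_lit 184972) (nat_lit 0) .nil) .nil))))))) (.nd (nat_lit 6) (.nd (nat_lit 7) (.nd (nat_lit 8) (.nd (nat_lit 9) 
(.lf (nat_lit 505895) (.g (nat_lit 2921) (.e (nat_lit 164327) (nat_lit 230) (.e (nat_lit 163873) (nat_lit 3) (.e (nat_lit 204809) (nat_lit 9) (.e (nat_lit 426139) (nat_lit 3) (.e (nat_lit 204833) (nat_lit 19) (.e (nat_lit 106523) (nat_lit 9) (.e (nat_lit 1254) (nat_lit 92) (.e (nat_lit 98333) (nat_lit 18) .nil)))))))) (.g (nat_lit 1) (.e (nat_lit 182691) (nat_lit 0) .nil) .nil))) 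
(.lf (nat_lit 506407) (.g (nat_lit 4841) (.e (nat_lit 164330) (nat_lit 230) (.e (nat_lit 163902) (nat_lit 12) (.e (nat_lit 426438) (nat_lit 18) (.e (nat_lit 98373) (nat_lit 29) (.e (nat_lit 450562) (nat_lit 0) (.e (nat_lit 6841) (nat_lit 369) (.e (nat_lit 163862) (nat_lit 1) .nil))))))) (.g (nat_lit 1) (.e (nat_lit 183957) (nat_lit 0) .nil) .nil)))) (.nd (nat_lit 9) 
(.lf (nat_lit 506151) (.g (nat_lit 4694) (.e (nat_lit 164329) (nat_lit 230) (.e (nat_lit 163873) (nat_lit 3) (.e (nat_lit 204813) (nat_lit 9) (.e (nat_lit 426220) (nat_lit 9) .nil)))) (.g (nat_lit 0) (.e (nat_lit 183360) (nat_lit 0) .nil) .nil))) 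
(.lf (nat_lit 506663) (.g (nat_lit 1157) (.e (nat_lit 164332) (nat_lit 230) (.e (nat_lit 163873) (nat_lit 3) (.e (nat_lit 204809) (nat_lit 9) (.e (nat_lit 426204) (nat_lit 9) (.e (nat_lit 426528) (nat_lit 27) .nil))))) (.g (nat_lit 0) (.e (nat_lit 184622) (nat_lit 0) .nil) .nil))))) (.nd (nat_lit 8) (.nd (nat_lit 9) 
(.lf (nat_lit 506023) (.g (nat_lit 2827) (.e (nat_lit 164327) (nat_lit 230) (.e (nat_lit 163903) (nat_lit 12) (.e (nat_lit 426566) (nat_lit 34) (.e (nat_lit 393294) (nat_lit 26) (.e (nat_lit 475176) (nat_lit 24) .nil))))) (.g (nat_lit 0) (.e (nat_lit 182977) (nat_lit 0) .nil) .nil))) 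
(.lf (nat_lit 506535) (.g (nat_lit 276) (.e (nat_lit 164331) (nat_lit 230) (.e (nat_lit 163902) (nat_lit 12) (.e (nat_lit 426566) (nat_lit 34) .nil))) (.g (nat_lit 0) (.e (nat_lit 184330) (nat_lit 0) .nil) .nil)))) (.nd (nat_lit 9) 
(.lf (nat_lit 506279) (.g (nat_lit 1345) (.e (nat_lit 164329) (nat_lit 230) (.e (nat_lit 163942) (nat_lit 19) (.e (nat_lit 483341) (nat_lit 9) (.e (nat_lit 426200) (nat_lit 9) (.e (nat_lit 426355) (nat_lit 15) .nil))))) (.g (nat_lit 0) (.e (nat_lit 183742) (nat_lit 0) .nil) .nil))) 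
(.lf (nat_lit 506791) (.g (nat_lit 1353) (.e (nat_lit 164332) (nat_lit 230) (.e (nat_lit 163902) (nat_lit 12) (.e (nat_lit 426568) (nat_lit 34) (.e (nat_lit 393294) (nat_lit 26) .nil)))) (.g (nat_lit 0) (.e (nat_lit 184869) (nat_lit 0) .nil) .nil)))))) (.nd (nat_lit 7) (.nd (nat_lit 8) (.nd (nat_lit 9) 
(.lf (nat_lit 505959) (.g (nat_lit 706) (.e (nat_lit 164327) (nat_lit 230) (.e (nat_lit 163875) (nat_lit 3) (.e (nat_lit 204834) (nat_lit 19) .nil))) (.g (nat_lit 0) (.e (nat_lit 182872) (nat_lit 0) .nil) .nil))) 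
(.lf (nat_lit 506471) (.g (nat_lit 1834) (.e (nat_lit 164330) (nat_lit 230) (.e (nat_lit 163941) (nat_lit 19) (.e (nat_lit 483341) (nat_lit 9) (.e (nat_lit 426198) (nat_lit 9) (.e (nat_lit 433920) (nat_lit 18) .nil))))) (.g (nat_lit 0) (.e (nat_lit 184228) (nat_lit 0) .nil) .nil)))) (.nd (nat_lit 9) 
(.lf (nat_lit 506215) (.g (nat_lit 1779) (.e (nat_lit 164329) (nat_lit 230) (.e (nat_lit 163902) (nat_lit 12) (.e (nat_lit 426568) (nat_lit 34) (.e (nat_lit 393268) (nat_lit 23) (.e (nat_lit 426434) (nat_lit 18) .nil))))) (.g (nat_lit 0) (.e (nat_lit 183475) (nat_lit 0) .nil) .nil))) 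
(.lf (nat_lit 506727) (.g (nat_lit 1066) (.e (nat_lit 164332) (nat_lit 230) (.e (nat_lit 163902) (nat_lit 12) (.e (nat_lit 426438) (nat_lit 18) (.e (nat_lit 98372) (nat_lit 29) .nil)))) (.g (nat_lit 0) (.e (nat_lit 184783) (nat_lit 0) .nil) .nil))))) (.nd (nat_lit 8) (.nd (nat_lit 9) 
(.lf (nat_lit 506087) (.g (nat_lit 344) (.e (nat_lit 164329) (nat_lit 230) (.e (nat_lit 163867) (nat_lit 2) (.e (nat_lit 196624) (nat_lit 9) .nil))) (.g (nat_lit 0) (.e (nat_lit 183280) (nat_lit 0) .nil) .nil))) 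
(.lf (nat_lit 506599) (.g (nat_lit 3097) (.e (nat_lit 164332) (nat_lit 230) (.e (nat_lit 163867) (nat_lit 2) (.e (nat_lit 196654) (nat_lit 11) (.e (nat_lit 16463) (nat_lit 13) (.e (nat_lit 483341) (nat_lit 9) (.e (nat_lit 426099) (nat_lit 1) .nil)))))) (.g (nat_lit 1) (.e (nat_lit 184514) (nat_lit 0) .nil) .nil)))) (.nd (nat_lit 9) 
(.lf (nat_lit 506343) (.g (nat_lit 4279) (.e (nat_lit 164330) (nat_lit 230) (.e (nat_lit 163873) (nat_lit 3) (.e (nat_lit 204813) (nat_lit 9) (.e (nat_lit 426132) (nat_lit 3) .nil)))) (.g (nat_lit 0) (.e (nat_lit 183846) (nat_lit 0) .nil) .nil))) 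
(.lf (nat_lit 506855) (.g (nat_lit 1909) (.e (nat_lit 164332) (nat_lit 230) (.e (nat_lit 163941) (nat_lit 19) (.e (nat_lit 483341) (nat_lit 9) (.e (nat_lit 426198) (nat_lit 9) (.e (nat_lit 426405) (nat_lit 15) .nil))))) (.g (nat_lit 0) (.e (nat_lit 185162) (nat_lit 0) .nil) .nil)))))))) (.nd (nat_lit 5) (.nd (nat_lit 6) (.nd (nat_lit 7) (.nd (nat_lit 8) (.nd (nat_lit 9) 
(.lf (nat_lit 505879) (.g (nat_lit 1967) (.e (nat_lit 164327) (nat_lit 230) (.e (nat_lit 163871) (nat_lit 2) (.e (nat_lit 196656) (nat_lit 11) (.e (nat_lit 16438) (nat_lit 9) .nil)))) (.g (nat_lit 0) (.e (nat_lit 182663) (nat_lit 0) .nil) .nil))) 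
(.lf (nat_lit 506391) (.g (nat_lit 2631) (.e (nat_lit 164330) (nat_lit 230) (.e (nat_lit 163900) (nat_lit 12) (.e (nat_lit 426566) (nat_lit 34) (.e (nat_lit 393296) (nat_lit 26) (.e (nat_lit 475179) (nat_lit 24) .nil))))) (.g (nat_lit 0) (.e (nat_lit 183937) (nat_lit 0) .nil) .nil)))) (.nd (nat_lit 9) 
(.lf (nat_lit 506135) (.g (nat_lit 5155) (.e (nat_lit 164329) (nat_lit 230) (.e (nat_lit 163873) (nat_lit 3) (.e (nat_lit 204813) (nat_lit 9) (.e (nat_lit 426133) (nat_lit 3) .nil)))) (.g (nat_lit 0) (.e (nat_lit 183344) (nat_lit 0) .nil) .nil))) 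
(.lf (nat_lit 506647) (.g (nat_lit 2127) (.e (nat_lit 164332) (nat_lit 230) (.e (nat_lit 163869) (nat_lit 2) (.e (nat_lit 196656) (nat_lit 11) (.e (nat_lit 16433) (nat_lit 9) (.e (nat_lit 426567) (nat_lit 34) .nil))))) (.g (nat_lit 0) (.e (nat_lit 184600) (nat_lit 0) .nil) .nil))))) (.nd (nat_lit 8) (.nd (nat_lit 9) 
(.lf (nat_lit 506007) (.g (nat_lit 2871) (.e (nat_lit 164327) (nat_lit 230) (.e (nat_lit 163903) (nat_lit 12) (.e (nat_lit 426482) (nat_lit 27) (.e (nat_lit 336389) (nat_lit 27) (.e (nat_lit 426190) (nat_lit 9) .nil))))) (.g (nat_lit 0) (.e (nat_lit 182961) (nat_lit 0) .nil) .nil))) 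
(.lf (nat_lit 506519) (.g (nat_lit 2795) (.e (nat_lit 164331) (nat_lit 230) (.e (nat_lit 163873) (nat_lit 3) (.e (nat_lit 204813) (nat_lit 9) (.e (nat_lit 426199) (nat_lit 9) (.e (nat_lit 426566) (nat_lit 34) .nil))))) (.g (nat_lit 0) (.e (nat_lit 184294) (nat_lit 0) .nil) .nil)))) (.nd (nat_lit 9) 
(.lf (nat_lit 506263) (.g (nat_lit 1921) (.e (nat_lit 164329) (nat_lit 230) (.e (nat_lit 163941) (nat_lit 19) (.e (nat_lit 483341) (nat_lit 9) (.e (nat_lit 426199) (nat_lit 9) .nil)))) (.g (nat_lit 0) (.e (nat_lit 183720) (nat_lit 0) .nil) .nil))) 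
(.lf (nat_lit 506775) (.g (nat_lit 3344) (.e (nat_lit 164332) (nat_lit 230) (.e (nat_lit 163902) (nat_lit 12) (.e (nat_lit 426566) (nat_lit 34) (.e (nat_lit 393296) (nat_lit 26) (.e (nat_lit 475177) (nat_lit 24) (.e (nat_lit 516115) (nat_lit 1) .nil)))))) (.g (nat_lit 1) (.e (nat_lit 184851) (nat_lit 0) .nil) .nil)))))) (.nd (nat_lit 7) (.nd (nat_lit 8) (.nd (nat_lit 9) 
(.lf (nat_lit 505943) (.g (nat_lit 329) (.e (nat_lit 164327) (nat_lit 230) (.e (nat_lit 163875) (nat_lit 3) (.e (nat_lit 204813) (nat_lit 9) .nil))) (.g (nat_lit 0) (.e (nat_lit 182827) (nat_lit 0) .nil) .nil))) 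
(.lf (nat_lit 506455) (.g (nat_lit 1293) (.e (nat_lit 164330) (nat_lit 230) (.e (nat_lit 163905) (nat_lit 12) (.e (nat_lit 426568) (nat_lit 34) (.e (nat_lit 393279) (nat_lit 23) .nil)))) (.g (nat_lit 0) (.e (nat_lit 184042) (nat_lit 0) .nil) .nil)))) (.nd (nat_lit 9) 
(.lf (nat_lit 506199) (.g (nat_lit 881) (.e (nat_lit 164329) (nat_lit 230) (.e (nat_lit 163902) (nat_lit 12) (.e (nat_lit 426480) (nat_lit 27) .nil))) (.g (nat_lit 0) (.e (nat_lit 183445) (nat_lit 0) .nil) .nil))) 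
(.lf (nat_lit 506711) (.g (nat_lit 2121) (.e (nat_lit 164332) (nat_lit 230) (.e (nat_lit 163880) (nat_lit 4) (.e (nat_lit 213030) (nat_lit 11) (.e (nat_lit 24657) (nat_lit 13) (.e (nat_lit 393281) (nat_lit 23) (.e (nat_lit 426099) (nat_lit 1) .nil)))))) (.g (nat_lit 1) (.e (nat_lit 184716) (nat_lit 0) .nil) .nil))))) (.nd (nat_lit 8) (.nd (nat_lit 9) 
(.lf (nat_lit 506071) (.g (nat_lit 2477) (.e (nat_lit 164328) (nat_lit 230) (.e (nat_lit 163902) (nat_lit 12) (.e (nat_lit 426566) (nat_lit 34) (.e (nat_lit 393268) (nat_lit 23) .nil)))) (.g (nat_lit 0) (.e (nat_lit 183188) (nat_lit 0) .nil) .nil))) 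
(.lf (nat_lit 506583) (.g (nat_lit 1212) (.e (nat_lit 164332) (nat_lit 230) (.e (nat_lit 163867) (nat_lit 2) (.e (nat_lit 196624) (nat_lit 9) (.e (nat_lit 389) (nat_lit 32) .nil)))) (.g (nat_lit 0) (.e (nat_lit 184485) (nat_lit 0) .nil) .nil)))) (.nd (nat_lit 9) 
(.lf (nat_lit 506327) (.g (nat_lit 2158) (.e (nat_lit 164330) (nat_lit 230) (.e (nat_lit 163869) (nat_lit 2) (.e (nat_lit 196656) (nat_lit 11) (.e (nat_lit 16437) (nat_lit 9) (.e (nat_lit 426566) (nat_lit 34) .nil))))) (.g (nat_lit 0) (.e (nat_lit 183812) (nat_lit 0) .nil) .nil))) 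
(.lf (nat_lit 506839) (.g (nat_lit 1355) (.e (nat_lit 164332) (nat_lit 230) (.e (nat_lit 163905) (nat_lit 12) (.e (nat_lit 426568) (nat_lit 34) (.e (nat_lit 393272) (nat_lit 23) .nil)))) (.g (nat_lit 0) (.e (nat_lit 185009) (nat_lit 0) .nil) .nil))))))) (.nd (nat_lit 6) (.nd (nat_lit 7) (.nd (nat_lit 8) (.nd (nat_lit 9) 
(.lf (nat_lit 505911) (.g (nat_lit 3364) (.e (nat_lit 164327) (nat_lit 230) (.e (nat_lit 163873) (nat_lit 3) (.e (nat_lit 204813) (nat_lit 9) (.e (nat_lit 426185) (nat_lit 9) .nil)))) (.g (nat_lit 0) (.e (nat_lit 182740) (nat_lit 0) .nil) .nil))) 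
(.lf (nat_lit 506423) (.g (nat_lit 3299) (.e (nat_lit 164330) (nat_lit 230) (.e (nat_lit 163902) (nat_lit 12) (.e (nat_lit 426472) (nat_lit 25) (.e (nat_lit 319534) (nat_lit 16) (.e (nat_lit 286756) (nat_lit 10) (.e (nat_lit 344097) (nat_lit 18) (.e (nat_lit 7280) (nat_lit 386) (.e (nat_lit 163861) (nat_lit 1) .nil)))))))) (.g (nat_lit 1) (.e (nat_lit 183973) (nat_lit 0) .nil) .nil)))) 
(.nd (nat_lit 9) 
(.lf (nat_lit 506167) (.g (nat_lit 2799) (.e (nat_lit 164329) (nat_lit 230) (.e (nat_lit 163901) (nat_lit 12) (.e (nat_lit 426566) (nat_lit 34) (.e (nat_lit 393296) (nat_lit 26) (.e (nat_lit 475178) (nat_lit 24) (.e (nat_lit 516120) (nat_lit 1) .nil)))))) (.g (nat_lit 1) (.e (nat_lit 183400) (nat_lit 0) .nil) .nil))) 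
(.lf (nat_lit 506679) (.g (nat_lit 1246) (.e (nat_lit 164332) (nat_lit 230) (.e (nat_lit 163873) (nat_lit 3) (.e (nat_lit 204813) (nat_lit 9) (.e (nat_lit 426198) (nat_lit 9) .nil)))) (.g (nat_lit 0) (.e (nat_lit 184650) (nat_lit 0) .nil) .nil))))) (.nd (nat_lit 8) (.nd (nat_lit 9) 
(.lf (nat_lit 506039) (.g (nat_lit 788) (.e (nat_lit 164327) (nat_lit 230) (.e (nat_lit 163907) (nat_lit 12) (.e (nat_lit 426131) (nat_lit 3) .nil))) (.g (nat_lit 0) (.e (nat_lit 183000) (nat_lit 0) .nil) .nil))) 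
(.lf (nat_lit 506551) (.g (nat_lit 1940) (.e (nat_lit 164331) (nat_lit 230) (.e (nat_lit 163902) (nat_lit 12) (.e (nat_lit 426568) (nat_lit 34) (.e (nat_lit 393293) (nat_lit 26) .nil)))) (.g (nat_lit 0) (.e (nat_lit 184346) (nat_lit 0) .nil) .nil)))) (.nd (nat_lit 9) 
(.lf (nat_lit 506295) (.g (nat_lit 4126) (.e (nat_lit 164330) (nat_lit 230) (.e (nat_lit 163867) (nat_lit 2) (.e (nat_lit 196654) (nat_lit 11) (.e (nat_lit 16463) (nat_lit 13) (.e (nat_lit 483337) (nat_lit 9) (.e (nat_lit 426108) (nat_lit 1) .nil)))))) (.g (nat_lit 1) (.e (nat_lit 183769) (nat_lit 0) .nil) .nil))) 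
(.lf (nat_lit 506807) (.g (nat_lit 3385) (.e (nat_lit 164332) (nat_lit 230) (.e (nat_lit 163905) (nat_lit 12) (.e (nat_lit 426422) (nat_lit 16) (.e (nat_lit 57688) (nat_lit 156) (.e (nat_lit 163933) (nat_lit 17) (.e (nat_lit 466972) (nat_lit 21) (.e (nat_lit 164332) (nat_lit 230) (.e (nat_lit 163860) (nat_lit 1) .nil)))))))) (.g (nat_lit 1) (.e (nat_lit 184930) (nat_lit 0) .nil) .nil)))))) 
(.nd (nat_lit 7) (.nd (nat_lit 8) (.nd (nat_lit 9) 
(.lf (nat_lit 505975) (.g (nat_lit 1958) (.e (nat_lit 164327) (nat_lit 230) (.e (nat_lit 163881) (nat_lit 4) (.e (nat_lit 213030) (nat_lit 11) (.e (nat_lit 24656) (nat_lit 13) (.e (nat_lit 393281) (nat_lit 23) (.e (nat_lit 426098) (nat_lit 1) .nil)))))) (.g (nat_lit 1) (.e (nat_lit 182889) (nat_lit 0) .nil) .nil))) 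
(.lf (nat_lit 506487) (.g (nat_lit 563) (.e (nat_lit 164331) (nat_lit 230) (.e (nat_lit 163867) (nat_lit 2) (.e (nat_lit 196624) (nat_lit 9) .nil))) (.g (nat_lit 0) (.e (nat_lit 184253) (nat_lit 0) .nil) .nil)))) (.nd (nat_lit 9) 
(.lf (nat_lit 506231) (.g (nat_lit 3129) (.e (nat_lit 164329) (nat_lit 230) (.e (nat_lit 163902) (nat_lit 12) (.e (nat_lit 426568) (nat_lit 34) (.e (nat_lit 393291) (nat_lit 26) (.e (nat_lit 475177) (nat_lit 24) (.e (nat_lit 516118) (nat_lit 1) .nil)))))) (.g (nat_lit 1) (.e (nat_lit 183491) (nat_lit 0) .nil) .nil))) 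
(.lf (nat_lit 506743) (.g (nat_lit 2795) (.e (nat_lit 164332) (nat_lit 230) (.e (nat_lit 163902) (nat_lit 12) (.e (nat_lit 426438) (nat_lit 18) (.e (nat_lit 98373) (nat_lit 29) (.e (nat_lit 450568) (nat_lit 0) (.e (nat_lit 7936) (nat_lit 369) (.e (nat_lit 163861) (nat_lit 1) .nil))))))) (.g (nat_lit 1) (.e (nat_lit 184799) (nat_lit 0) .nil) .nil))))) (.nd (nat_lit 8) (.nd (nat_lit 9) 
(.lf (nat_lit 506103) (.g (nat_lit 2864) (.e (nat_lit 164329) (nat_lit 230) (.e (nat_lit 163867) (nat_lit 2) (.e (nat_lit 196656) (nat_lit 11) (.e (nat_lit 16412) (nat_lit 2) (.e (nat_lit 196661) (nat_lit 12) .nil))))) (.g (nat_lit 0) (.e (nat_lit 183302) (nat_lit 0) .nil) .nil))) 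
(.lf (nat_lit 506615) (.g (nat_lit 3911) (.e (nat_lit 164332) (nat_lit 230) (.e (nat_lit 163867) (nat_lit 2) (.e (nat_lit 196656) (nat_lit 11) (.e (nat_lit 16466) (nat_lit 13) (.e (nat_lit 483341) (nat_lit 9) (.e (nat_lit 426108) (nat_lit 1) .nil)))))) (.g (nat_lit 1) (.e (nat_lit 184554) (nat_lit 0) .nil) .nil)))) (.nd (nat_lit 9) 
(.lf (nat_lit 506359) (.g (nat_lit 3141) (.e (nat_lit 164330) (nat_lit 230) (.e (nat_lit 163873) (nat_lit 3) (.e (nat_lit 204813) (nat_lit 9) (.e (nat_lit 426199) (nat_lit 9) (.e (nat_lit 426478) (nat_lit 27) .nil))))) (.g (nat_lit 0) (.e (nat_lit 183864) (nat_lit 0) .nil) .nil))) 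
(.lf (nat_lit 506871) (.g (nat_lit 1095) (.e (nat_lit 164332) (nat_lit 230) (.e (nat_lit 163943) (nat_lit 19) (.e (nat_lit 483341) (nat_lit 9) (.e (nat_lit 426198) (nat_lit 9) .nil)))) (.g (nat_lit 0) (.e (nat_lit 185199) (nat_lit 0) .nil) .nil))))))))) (.nd (nat_lit 4) (.nd (nat_lit 5) (.nd (nat_lit 6) (.nd (nat_lit 7) (.nd (nat_lit 8) (.nd (nat_lit 9) 
(.lf (nat_lit 505871) (.g (nat_lit 5222) (.e (nat_lit 164327) (nat_lit 230) (.e (nat_lit 163871) (nat_lit 2) (.e (nat_lit 196656) (nat_lit 11) (.e (nat_lit 16416) (nat_lit 3) (.e (nat_lit 204838) (nat_lit 20) (.e (nat_lit 114719) (nat_lit 23) (.e (nat_lit 98332) (nat_lit 18) .nil))))))) (.g (nat_lit 1) (.e (nat_lit 182651) (nat_lit 0) .nil) .nil))) 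
(.lf (nat_lit 506383) (.g (nat_lit 4027) (.e (nat_lit 164330) (nat_lit 230) (.e (nat_lit 163874) (nat_lit 3) (.e (nat_lit 204837) (nat_lit 20) (.e (nat_lit 114718) (nat_lit 23) (.e (nat_lit 98384) (nat_lit 32) (.e (nat_lit 475177) (nat_lit 24) (.e (nat_lit 516117) (nat_lit 1) .nil))))))) (.g (nat_lit 1) (.e (nat_lit 183912) (nat_lit 0) .nil) .nil)))) (.nd (nat_lit 9) 
(.lf (nat_lit 506127) (.g (nat_lit 2067) (.e (nat_lit 164329) (nat_lit 230) (.e (nat_lit 163873) (nat_lit 3) (.e (nat_lit 204809) (nat_lit 9) (.e (nat_lit 426198) (nat_lit 9) (.e (nat_lit 426566) (nat_lit 34) .nil))))) (.g (nat_lit 0) (.e (nat_lit 183330) (nat_lit 0) .nil) .nil))) 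
(.lf (nat_lit 506639) (.g (nat_lit 3522) (.e (nat_lit 164332) (nat_lit 230) (.e (nat_lit 163869) (nat_lit 2) (.e (nat_lit 196654) (nat_lit 11) (.e (nat_lit 16466) (nat_lit 13) (.e (nat_lit 483341) (nat_lit 9) (.e (nat_lit 426105) (nat_lit 1) .nil)))))) (.g (nat_lit 1) (.e (nat_lit 184587) (nat_lit 0) .nil) .nil))))) (.nd (nat_lit 8) (.nd (nat_lit 9) 
(.lf (nat_lit 505999) (.g (nat_lit 2443) (.e (nat_lit 164327) (nat_lit 230) (.e (nat_lit 163902) (nat_lit 12) (.e (nat_lit 426566) (nat_lit 34) (.e (nat_lit 393271) (nat_lit 23) .nil)))) (.g (nat_lit 0) (.e (nat_lit 182942) (nat_lit 0) .nil) .nil))) 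
(.lf (nat_lit 506511) (.g (nat_lit 2782) (.e (nat_lit 164331) (nat_lit 230) (.e (nat_lit 163873) (nat_lit 3) (.e (nat_lit 204813) (nat_lit 9) (.e (nat_lit 426187) (nat_lit 9) .nil)))) (.g (nat_lit 0) (.e (nat_lit 184286) (nat_lit 0) .nil) .nil)))) (.nd (nat_lit 9) 
(.lf (nat_lit 506255) (.g (nat_lit 3741) (.e (nat_lit 164329) (nat_lit 230) (.e (nat_lit 163941) (nat_lit 19) (.e (nat_lit 483341) (nat_lit 9) (.e (nat_lit 426009) (nat_lit 0) .nil)))) (.g (nat_lit 0) (.e (nat_lit 183709) (nat_lit 0) .nil) .nil))) 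
(.lf (nat_lit 506767) (.g (nat_lit 3693) (.e (nat_lit 164332) (nat_lit 230) (.e (nat_lit 163902) (nat_lit 12) (.e (nat_lit 426566) (nat_lit 34) (.e (nat_lit 393290) (nat_lit 26) (.e (nat_lit 475179) (nat_lit 24) (.e (nat_lit 516120) (nat_lit 1) .nil)))))) (.g (nat_lit 1) (.e (nat_lit 184843) (nat_lit 0) .nil) .nil)))))) (.nd (nat_lit 7) (.nd (nat_lit 8) (.nd (nat_lit 9) 
(.lf (nat_lit 505935) (.g (nat_lit 2366) (.e (nat_lit 164327) (nat_lit 230) (.e (nat_lit 163875) (nat_lit 3) (.e (nat_lit 204809) (nat_lit 9) (.e (nat_lit 426139) (nat_lit 3) (.e (nat_lit 204834) (nat_lit 19) .nil))))) (.g (nat_lit 0) (.e (nat_lit 182808) (nat_lit 0) .nil) .nil))) 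
(.lf (nat_lit 506447) (.g (nat_lit 1702) (.e (nat_lit 164330) (nat_lit 230) (.e (nat_lit 163905) (nat_lit 12) (.e (nat_lit 426530) (nat_lit 27) (.e (nat_lit 336390) (nat_lit 27) (.e (nat_lit 426308) (nat_lit 12) .nil))))) (.g (nat_lit 0) (.e (nat_lit 184034) (nat_lit 0) .nil) .nil)))) (.nd (nat_lit 9) 
(.lf (nat_lit 506191) (.g (nat_lit 1923) (.e (nat_lit 164329) (nat_lit 230) (.e (nat_lit 163902) (nat_lit 12) (.e (nat_lit 426438) (nat_lit 18) (.e (nat_lit 98374) (nat_lit 29) (.e (nat_lit 450569) (nat_lit 0) (.e (nat_lit 7936) (nat_lit 369) (.e (nat_lit 163860) (nat_lit 1) .nil))))))) (.g (nat_lit 1) (.e (nat_lit 183435) (nat_lit 0) .nil) .nil))) 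
(.lf (nat_lit 506703) (.g (nat_lit 743) (.e (nat_lit 164332) (nat_lit 230) (.e (nat_lit 163874) (nat_lit 3) (.e (nat_lit 204838) (nat_lit 20) (.e (nat_lit 114716) (nat_lit 22) .nil)))) (.g (nat_lit 0) (.e (nat_lit 184707) (nat_lit 0) .nil) .nil))))) (.nd (nat_lit 8) (.nd (nat_lit 9) 
(.lf (nat_lit 506063) (.g (nat_lit 2633) (.e (nat_lit 164328) (nat_lit 230) (.e (nat_lit 163869) (nat_lit 2) (.e (nat_lit 196654) (nat_lit 11) (.e (nat_lit 16466) (nat_lit 13) (.e (nat_lit 483341) (nat_lit 9) .nil))))) (.g (nat_lit 0) (.e (nat_lit 183173) (nat_lit 0) .nil) .nil))) 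
(.lf (nat_lit 506575) (.g (nat_lit 2537) (.e (nat_lit 164332) (nat_lit 230) (.e (nat_lit 163862) (nat_lit 1) (.e (nat_lit 164325) (nat_lit 230) (.e (nat_lit 163903) (nat_lit 12) (.e (nat_lit 426422) (nat_lit 16) (.e (nat_lit 57687) (nat_lit 156) (.e (nat_lit 163933) (nat_lit 17) (.e (nat_lit 466972) (nat_lit 21) .nil)))))))) (.g (nat_lit 1) (.e (nat_lit 184477) (nat_lit 0) .nil) .nil)))) 
(.nd (nat_lit 9) 
(.lf (nat_lit 506319) (.g (nat_lit 3238) (.e (nat_lit 164330) (nat_lit 230) (.e (nat_lit 163869) (nat_lit 2) (.e (nat_lit 196654) (nat_lit 11) (.e (nat_lit 16463) (nat_lit 13) (.e (nat_lit 483336) (nat_lit 9) (.e (nat_lit 426108) (nat_lit 1) .nil)))))) (.g (nat_lit 1) (.e (nat_lit 183801) (nat_lit 0) .nil) .nil))) 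
(.lf (nat_lit 506831) (.g (nat_lit 755) (.e (nat_lit 164332) (nat_lit 230) (.e (nat_lit 163905) (nat_lit 12) (.e (nat_lit 426562) (nat_lit 33) .nil))) (.g (nat_lit 0) (.e (nat_lit 184997) (nat_lit 0) .nil) .nil))))))) (.nd (nat_lit 6) (.nd (nat_lit 7) (.nd (nat_lit 8) (.nd (nat_lit 9) 
(.lf (nat_lit 505903) (.g (nat_lit 3945) (.e (nat_lit 164327) (nat_lit 230) (.e (nat_lit 163873) (nat_lit 3) (.e (nat_lit 204813) (nat_lit 9) (.e (nat_lit 426122) (nat_lit 2) .nil)))) (.g (nat_lit 0) (.e (nat_lit 182721) (nat_lit 0) .nil) .nil))) 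
(.lf (nat_lit 506415) (.g (nat_lit 2711) (.e (nat_lit 164330) (nat_lit 230) (.e (nat_lit 163902) (nat_lit 12) (.e (nat_lit 426438) (nat_lit 18) (.e (nat_lit 98381) (nat_lit 31) (.e (nat_lit 466972) (nat_lit 21) (.e (nat_lit 164183) (nat_lit 154) (.e (nat_lit 65280) (nat_lit 62) .nil))))))) (.g (nat_lit 1) (.e (nat_lit 183965) (nat_lit 0) .nil) .nil)))) (.nd (nat_lit 9) 
(.lf (nat_lit 506159) (.g (nat_lit 1263) (.e (nat_lit 164329) (nat_lit 230) (.e (nat_lit 163874) (nat_lit 3) (.e (nat_lit 204813) (nat_lit 9) (.e (nat_lit 426200) (nat_lit 9) .nil)))) (.g (nat_lit 0) (.e (nat_lit 183378) (nat_lit 0) .nil) .nil))) 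
(.lf (nat_lit 506671) (.g (nat_lit 4611) (.e (nat_lit 164332) (nat_lit 230) (.e (nat_lit 163873) (nat_lit 3) (.e (nat_lit 204813) (nat_lit 9) (.e (nat_lit 426133) (nat_lit 3) .nil)))) (.g (nat_lit 0) (.e (nat_lit 184638) (nat_lit 0) .nil) .nil))))) (.nd (nat_lit 8) (.nd (nat_lit 9) 
(.lf (nat_lit 506031) (.g (nat_lit 1204) (.e (nat_lit 164327) (nat_lit 230) (.e (nat_lit 163903) (nat_lit 12) (.e (nat_lit 426568) (nat_lit 34) (.e (nat_lit 401152) (nat_lit 23) .nil)))) (.g (nat_lit 0) (.e (nat_lit 182986) (nat_lit 0) .nil) .nil))) 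
(.lf (nat_lit 506543) (.g (nat_lit 2313) (.e (nat_lit 164331) (nat_lit 230) (.e (nat_lit 163902) (nat_lit 12) (.e (nat_lit 426568) (nat_lit 34) (.e (nat_lit 393268) (nat_lit 23) (.e (nat_lit 426436) (nat_lit 18) .nil))))) (.g (nat_lit 0) (.e (nat_lit 184338) (nat_lit 0) .nil) .nil)))) (.nd (nat_lit 9) 
(.lf (nat_lit 506287) (.g (nat_lit 3227) (.e (nat_lit 164330) (nat_lit 230) (.e (nat_lit 163857) (nat_lit 0) (.e (nat_lit 3304) (nat_lit 202) (.e (nat_lit 573489) (nat_lit 14) (.e (nat_lit 73755) (nat_lit 8) (.e (nat_lit 557097) (nat_lit 13) (.e (nat_lit 179968) (nat_lit 18) (.e (nat_lit 98335) (nat_lit 18) .nil)))))))) (.g (nat_lit 1) (.e (nat_lit 183757) (nat_lit 0) .nil) .nil))) 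
(.lf (nat_lit 506799) (.g (nat_lit 805) (.e (nat_lit 164332) (nat_lit 230) (.e (nat_lit 163905) (nat_lit 12) (.e (nat_lit 426233) (nat_lit 9) .nil))) (.g (nat_lit 0) (.e (nat_lit 184894) (nat_lit 0) .nil) .nil)))))) (.nd (nat_lit 7) (.nd (nat_lit 8) (.nd (nat_lit 9) 
(.lf (nat_lit 505967) (.g (nat_lit 3810) (.e (nat_lit 164327) (nat_lit 230) (.e (nat_lit 163875) (nat_lit 3) (.e (nat_lit 204838) (nat_lit 20) (.e (nat_lit 114718) (nat_lit 23) (.e (nat_lit 98384) (nat_lit 32) (.e (nat_lit 475177) (nat_lit 24) (.e (nat_lit 516118) (nat_lit 1) .nil))))))) (.g (nat_lit 1) (.e (nat_lit 182880) (nat_lit 0) .nil) .nil))) 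
(.lf (nat_lit 506479) (.g (nat_lit 3541) (.e (nat_lit 164330) (nat_lit 230) (.e (nat_lit 163941) (nat_lit 19) (.e (nat_lit 483341) (nat_lit 9) (.e (nat_lit 426258) (nat_lit 9) (.e (nat_lit 426435) (nat_lit 18) .nil))))) (.g (nat_lit 0) (.e (nat_lit 184236) (nat_lit 0) .nil) .nil)))) (.nd (nat_lit 9) 
(.lf (nat_lit 506223) (.g (nat_lit 2147) (.e (nat_lit 164329) (nat_lit 230) (.e (nat_lit 163902) (nat_lit 12) (.e (nat_lit 426568) (nat_lit 34) (.e (nat_lit 393271) (nat_lit 23) (.e (nat_lit 433920) (nat_lit 18) .nil))))) (.g (nat_lit 0) (.e (nat_lit 183483) (nat_lit 0) .nil) .nil))) 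
(.lf (nat_lit 506735) (.g (nat_lit 4213) (.e (nat_lit 164332) (nat_lit 230) (.e (nat_lit 163902) (nat_lit 12) (.e (nat_lit 426438) (nat_lit 18) (.e (nat_lit 98373) (nat_lit 29) (.e (nat_lit 450562) (nat_lit 0) (.e (nat_lit 6841) (nat_lit 369) (.e (nat_lit 163860) (nat_lit 1) .nil))))))) (.g (nat_lit 1) (.e (nat_lit 184791) (nat_lit 0) .nil) .nil))))) (.nd (nat_lit 8) (.nd (nat_lit 9) 
(.lf (nat_lit 506095) (.g (nat_lit 4192) (.e (nat_lit 164329) (nat_lit 230) (.e (nat_lit 163867) (nat_lit 2) (.e (nat_lit 196654) (nat_lit 11) (.e (nat_lit 16463) (nat_lit 13) (.e (nat_lit 483337) (nat_lit 9) (.e (nat_lit 426108) (nat_lit 1) .nil)))))) (.g (nat_lit 1) (.e (nat_lit 183293) (nat_lit 0) .nil) .nil))) 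
(.lf (nat_lit 506607) (.g (nat_lit 908) (.e (nat_lit 164332) (nat_lit 230) (.e (nat_lit 163867) (nat_lit 2) (.e (nat_lit 196656) (nat_lit 11) (.e (nat_lit 16436) (nat_lit 9) .nil)))) (.g (nat_lit 0) (.e (nat_lit 184533) (nat_lit 0) .nil) .nil)))) (.nd (nat_lit 9) 
(.lf (nat_lit 506351) (.g (nat_lit 2846) (.e (nat_lit 164330) (nat_lit 230) (.e (nat_lit 163873) (nat_lit 3) (.e (nat_lit 204813) (nat_lit 9) (.e (nat_lit 426187) (nat_lit 9) .nil)))) (.g (nat_lit 0) (.e (nat_lit 183856) (nat_lit 0) .nil) .nil))) 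
(.lf (nat_lit 506863) (.g (nat_lit 3654) (.e (nat_lit 164332) (nat_lit 230) (.e (nat_lit 163941) (nat_lit 19) (.e (nat_lit 483341) (nat_lit 9) (.e (nat_lit 426222) (nat_lit 9) .nil)))) (.g (nat_lit 0) (.e (nat_lit 185170) (nat_lit 0) .nil) .nil)))))))) (.nd (nat_lit 5) (.nd (nat_lit 6) (.nd (nat_lit 7) (.nd (nat_lit 8) (.nd (nat_lit 9) 
(.lf (nat_lit 505887) (.g (nat_lit 2051) (.e (nat_lit 164327) (nat_lit 230) (.e (nat_lit 163871) (nat_lit 2) (.e (nat_lit 196656) (nat_lit 11) (.e (nat_lit 16465) (nat_lit 13) (.e (nat_lit 483339) (nat_lit 9) .nil))))) (.g (nat_lit 0) (.e (nat_lit 182677) (nat_lit 0) .nil) .nil))) 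
(.lf (nat_lit 506399) (.g (nat_lit 676) (.e (nat_lit 164330) (nat_lit 230) (.e (nat_lit 163902) (nat_lit 12) (.e (nat_lit 426428) (nat_lit 17) .nil))) (.g (nat_lit 0) (.e (nat_lit 183948) (nat_lit 0) .nil) .nil)))) (.nd (nat_lit 9) 
(.lf (nat_lit 506143) (.g (nat_lit 2774) (.e (nat_lit 164329) (nat_lit 230) (.e (nat_lit 163873) (nat_lit 3) (.e (nat_lit 204813) (nat_lit 9) (.e (nat_lit 426197) (nat_lit 9) .nil)))) (.g (nat_lit 0) (.e (nat_lit 183352) (nat_lit 0) .nil) .nil))) 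
(.lf (nat_lit 506655) (.g (nat_lit 3827) (.e (nat_lit 164332) (nat_lit 230) (.e (nat_lit 163869) (nat_lit 2) (.e (nat_lit 196656) (nat_lit 11) (.e (nat_lit 16463) (nat_lit 13) (.e (nat_lit 483341) (nat_lit 9) (.e (nat_lit 426105) (nat_lit 1) .nil)))))) (.g (nat_lit 1) (.e (nat_lit 184610) (nat_lit 0) .nil) .nil))))) (.nd (nat_lit 8) (.nd (nat_lit 9) 
(.lf (nat_lit 506015) (.g (nat_lit 1975) (.e (nat_lit 164327) (nat_lit 230) (.e (nat_lit 163903) (nat_lit 12) (.e (nat_lit 426530) (nat_lit 27) (.e (nat_lit 336390) (nat_lit 27) (.e (nat_lit 426190) (nat_lit 9) .nil))))) (.g (nat_lit 0) (.e (nat_lit 182969) (nat_lit 0) .nil) .nil))) 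
(.lf (nat_lit 506527) (.g (nat_lit 1060) (.e (nat_lit 164331) (nat_lit 230) (.e (nat_lit 163874) (nat_lit 3) (.e (nat_lit 204809) (nat_lit 9) .nil))) (.g (nat_lit 0) (.e (nat_lit 184316) (nat_lit 0) .nil) .nil)))) (.nd (nat_lit 9) 
(.lf (nat_lit 506271) (.g (nat_lit 3386) (.e (nat_lit 164329) (nat_lit 230) (.e (nat_lit 163941) (nat_lit 19) (.e (nat_lit 483341) (nat_lit 9) (.e (nat_lit 426305) (nat_lit 12) (.e (nat_lit 475179) (nat_lit 24) .nil))))) (.g (nat_lit 0) (.e (nat_lit 183729) (nat_lit 0) .nil) .nil))) 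
(.lf (nat_lit 506783) (.g (nat_lit 2499) (.e (nat_lit 164332) (nat_lit 230) (.e (nat_lit 163902) (nat_lit 12) (.e (nat_lit 426568) (nat_lit 34) (.e (nat_lit 393271) (nat_lit 23) (.e (nat_lit 426428) (nat_lit 17) .nil))))) (.g (nat_lit 0) (.e (nat_lit 184860) (nat_lit 0) .nil) .nil)))))) (.nd (nat_lit 7) (.nd (nat_lit 8) (.nd (nat_lit 9) 
(.lf (nat_lit 505951) (.g (nat_lit 1619) (.e (nat_lit 164327) (nat_lit 230) (.e (nat_lit 163875) (nat_lit 3) (.e (nat_lit 204813) (nat_lit 9) (.e (nat_lit 426199) (nat_lit 9) (.e (nat_lit 426564) (nat_lit 34) .nil))))) (.g (nat_lit 0) (.e (nat_lit 182838) (nat_lit 0) .nil) .nil))) 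
(.lf (nat_lit 506463) (.g (nat_lit 452) (.e (nat_lit 164330) (nat_lit 230) (.e (nat_lit 163941) (nat_lit 19) (.e (nat_lit 483337) (nat_lit 9) .nil))) (.g (nat_lit 0) (.e (nat_lit 184210) (nat_lit 0) .nil) .nil)))) (.nd (nat_lit 9) 
(.lf (nat_lit 506207) (.g (nat_lit 2168) (.e (nat_lit 164329) (nat_lit 230) (.e (nat_lit 163902) (nat_lit 12) (.e (nat_lit 426566) (nat_lit 34) (.e (nat_lit 393292) (nat_lit 26) .nil)))) (.g (nat_lit 0) (.e (nat_lit 183463) (nat_lit 0) .nil) .nil))) 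
(.lf (nat_lit 506719) (.g (nat_lit 2701) (.e (nat_lit 164332) (nat_lit 230) (.e (nat_lit 163885) (nat_lit 5) (.e (nat_lit 221194) (nat_lit 11) (.e (nat_lit 336203) (nat_lit 12) (.e (nat_lit 392960) (nat_lit 15) (.e (nat_lit 237585) (nat_lit 1) .nil)))))) (.g (nat_lit 1) (.e (nat_lit 184727) (nat_lit 0) .nil) .nil))))) (.nd (nat_lit 8) (.nd (nat_lit 9) 
(.lf (nat_lit 506079) (.g (nat_lit 1258) (.e (nat_lit 164329) (nat_lit 230) (.e (nat_lit 163850) (nat_lit 0) (.e (nat_lit 3304) (nat_lit 202) (.e (nat_lit 573489) (nat_lit 14) .nil)))) (.g (nat_lit 0) (.e (nat_lit 183245) (nat_lit 0) .nil) .nil))) 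
(.lf (nat_lit 506591) (.g (nat_lit 2679) (.e (nat_lit 164332) (nat_lit 230) (.e (nat_lit 163867) (nat_lit 2) (.e (nat_lit 196653) (nat_lit 11) (.e (nat_lit 16435) (nat_lit 9) (.e (nat_lit 426566) (nat_lit 34) (.e (nat_lit 393252) (nat_lit 18) .nil)))))) (.g (nat_lit 1) (.e (nat_lit 184503) (nat_lit 0) .nil) .nil)))) (.nd (nat_lit 9) 
(.lf (nat_lit 506335) (.g (nat_lit 2653) (.e (nat_lit 164330) (nat_lit 230) (.e (nat_lit 163873) (nat_lit 3) (.e (nat_lit 204809) (nat_lit 9) (.e (nat_lit 426190) (nat_lit 9) (.e (nat_lit 426566) (nat_lit 34) (.e (nat_lit 393252) (nat_lit 18) .nil)))))) (.g (nat_lit 1) (.e (nat_lit 183823) (nat_lit 0) .nil) .nil))) 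
(.lf (nat_lit 506847) (.g (nat_lit 3961) (.e (nat_lit 164332) (nat_lit 230) (.e (nat_lit 163941) (nat_lit 19) (.e (nat_lit 483341) (nat_lit 9) (.e (nat_lit 426031) (nat_lit 0) .nil)))) (.g (nat_lit 0) (.e (nat_lit 185148) (nat_lit 0) .nil) .nil))))))) (.nd (nat_lit 6) (.nd (nat_lit 7) (.nd (nat_lit 8) (.nd (nat_lit 9) 
(.lf (nat_lit 505919) (.g (nat_lit 1953) (.e (nat_lit 164327) (nat_lit 230) (.e (nat_lit 163873) (nat_lit 3) (.e (nat_lit 204813) (nat_lit 9) (.e (nat_lit 426198) (nat_lit 9) (.e (nat_lit 426487) (nat_lit 27) .nil))))) (.g (nat_lit 0) (.e (nat_lit 182749) (nat_lit 0) .nil) .nil))) 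
(.lf (nat_lit 506431) (.g (nat_lit 1950) (.e (nat_lit 164330) (nat_lit 230) (.e (nat_lit 163902) (nat_lit 12) (.e (nat_lit 426566) (nat_lit 34) (.e (nat_lit 393290) (nat_lit 26) (.e (nat_lit 475177) (nat_lit 24) .nil))))) (.g (nat_lit 0) (.e (nat_lit 183992) (nat_lit 0) .nil) .nil)))) (.nd (nat_lit 9) 
(.lf (nat_lit 506175) (.g (nat_lit 2565) (.e (nat_lit 164329) (nat_lit 230) (.e (nat_lit 163902) (nat_lit 12) (.e (nat_lit 426428) (nat_lit 17) (.e (nat_lit 90170) (nat_lit 13) (.e (nat_lit 172079) (nat_lit 7) (.e (nat_lit 409611) (nat_lit 10) (.e (nat_lit 943) (nat_lit 77) (.e (nat_lit 794662) (nat_lit 21) .nil)))))))) (.g (nat_lit 1) (.e (nat_lit 183414) (nat_lit 0) .nil) .nil))) 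
(.lf (nat_lit 506687) (.g (nat_lit 4127) (.e (nat_lit 164332) (nat_lit 230) (.e (nat_lit 163873) (nat_lit 3) (.e (nat_lit 204813) (nat_lit 9) (.e (nat_lit 426258) (nat_lit 9) .nil)))) (.g (nat_lit 0) (.e (nat_lit 184659) (nat_lit 0) .nil) .nil))))) (.nd (nat_lit 8) (.nd (nat_lit 9) 
(.lf (nat_lit 506047) (.g (nat_lit 1955) (.e (nat_lit 164327) (nat_lit 230) (.e (nat_lit 163907) (nat_lit 12) (.e (nat_lit 426568) (nat_lit 34) (.e (nat_lit 393294) (nat_lit 26) .nil)))) (.g (nat_lit 0) (.e (nat_lit 183031) (nat_lit 0) .nil) .nil))) 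
(.lf (nat_lit 506559) (.g (nat_lit 1885) (.e (nat_lit 164331) (nat_lit 230) (.e (nat_lit 163941) (nat_lit 19) (.e (nat_lit 483341) (nat_lit 9) (.e (nat_lit 426197) (nat_lit 9) .nil)))) (.g (nat_lit 0) (.e (nat_lit 184434) (nat_lit 0) .nil) .nil)))) (.nd (nat_lit 9) 
(.lf (nat_lit 506303) (.g (nat_lit 1954) (.e (nat_lit 164330) (nat_lit 230) (.e (nat_lit 163867) (nat_lit 2) (.e (nat_lit 196656) (nat_lit 11) (.e (nat_lit 16444) (nat_lit 9) (.e (nat_lit 426565) (nat_lit 34) .nil))))) (.g (nat_lit 0) (.e (nat_lit 183779) (nat_lit 0) .nil) .nil))) 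
(.lf (nat_lit 506815) (.g (nat_lit 2220) (.e (nat_lit 164332) (nat_lit 230) (.e (nat_lit 163905) (nat_lit 12) (.e (nat_lit 426480) (nat_lit 27) (.e (nat_lit 336389) (nat_lit 27) (.e (nat_lit 426308) (nat_lit 12) .nil))))) (.g (nat_lit 0) (.e (nat_lit 184945) (nat_lit 0) .nil) .nil)))))) (.nd (nat_lit 7) (.nd (nat_lit 8) (.nd (nat_lit 9) 
(.lf (nat_lit 505983) (.g (nat_lit 2048) (.e (nat_lit 164327) (nat_lit 230) (.e (nat_lit 163882) (nat_lit 4) (.e (nat_lit 213030) (nat_lit 11) (.e (nat_lit 24656) (nat_lit 13) (.e (nat_lit 393281) (nat_lit 23) (.e (nat_lit 426098) (nat_lit 1) .nil)))))) (.g (nat_lit 1) (.e (nat_lit 182900) (nat_lit 0) .nil) .nil))) 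
(.lf (nat_lit 506495) (.g (nat_lit 2202) (.e (nat_lit 164331) (nat_lit 230) (.e (nat_lit 163867) (nat_lit 2) (.e (nat_lit 196656) (nat_lit 11) (.e (nat_lit 16433) (nat_lit 9) (.e (nat_lit 426566) (nat_lit 34) .nil))))) (.g (nat_lit 0) (.e (nat_lit 184263) (nat_lit 0) .nil) .nil)))) (.nd (nat_lit 9) 
(.lf (nat_lit 506239) (.g (nat_lit 2773) (.e (nat_lit 164329) (nat_lit 230) (.e (nat_lit 163902) (nat_lit 12) (.e (nat_lit 426568) (nat_lit 34) (.e (nat_lit 393295) (nat_lit 26) (.e (nat_lit 475178) (nat_lit 24) (.e (nat_lit 516117) (nat_lit 1) .nil)))))) (.g (nat_lit 1) (.e (nat_lit 183499) (nat_lit 0) .nil) .nil))) 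
(.lf (nat_lit 506751) (.g (nat_lit 2535) (.e (nat_lit 164332) (nat_lit 230) (.e (nat_lit 163902) (nat_lit 12) (.e (nat_lit 426472) (nat_lit 25) (.e (nat_lit 319534) (nat_lit 16) (.e (nat_lit 286756) (nat_lit 10) (.e (nat_lit 344099) (nat_lit 18) (.e (nat_lit 7287) (nat_lit 386) (.e (nat_lit 163864) (nat_lit 1) .nil)))))))) (.g (nat_lit 1) (.e (nat_lit 184809) (nat_lit 0) .nil) .nil))))) 
(.nd (nat_lit 8) (.nd (nat_lit 9) 
(.lf (nat_lit 506111) (.g (nat_lit 1229) (.e (nat_lit 164329) (nat_lit 230) (.e (nat_lit 163867) (nat_lit 2) (.e (nat_lit 196656) (nat_lit 11) (.e (nat_lit 24320) (nat_lit 9) .nil)))) (.g (nat_lit 0) (.e (nat_lit 183313) (nat_lit 0) .nil) .nil))) 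
(.lf (nat_lit 506623) (.g (nat_lit 501) (.e (nat_lit 164332) (nat_lit 230) (.e (nat_lit 163869) (nat_lit 2) (.e (nat_lit 196652) (nat_lit 11) .nil))) (.g (nat_lit 0) (.e (nat_lit 184569) (nat_lit 0) .nil) .nil)))) (.nd (nat_lit 9) 
(.lf (nat_lit 506367) (.g (nat_lit 4812) (.e (nat_lit 164330) (nat_lit 230) (.e (nat_lit 163873) (nat_lit 3) (.e (nat_lit 204813) (nat_lit 9) (.e (nat_lit 426222) (nat_lit 9) .nil)))) (.g (nat_lit 0) (.e (nat_lit 183874) (nat_lit 0) .nil) .nil))) 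
(.lf (nat_lit 506879) (.g (nat_lit 1570) (.e (nat_lit 164332) (nat_lit 230) (.e (nat_lit 163943) (nat_lit 19) (.e (nat_lit 483350) (nat_lit 17) (.e (nat_lit 2357) (nat_lit 152) .nil)))) (.g (nat_lit 0) (.e (nat_lit 185219) (nat_lit 0) .nil) .nil)))))))))))))


end

end Pool.Agent.Lib.MP_5854e1_co.Cz
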