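import Pool.Agent.Lib.MP_5854e1_co.DtD

/-!
# Windows and cells of the rings
-/

set_option autoImplicit false
set_option maxRecDepth 100000
set_option deprecated.oldSectionVars true

namespace Pool.Agent.Lib.MP_5854e1_co.Cz

open Pool.Agent.Lib.MP_5854e1_co

noncomputable section

noncomputable def tv5555 : DT := (.nd (nat_lit 0) (.nd (nat_lit 1) (.nd (nat_lit 2) (.nd (nat_lit 3) (.nd (nat_lit 4) (.nd (nat_lit 5) (.nd (nat_lit 6) (.nd (nat_lit 7) (.nd (nat_lit 8) (.nd (nat_lit 9) 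
(.lf (nat_lit 506880) (.g (nat_lit 2794) (.e (nat_lit 171776) (nat_lit 230) (.e (nat_lit 163902) (nat_lit 12) (.e (nat_lit 426566) (nat_lit 34) (.e (nat_lit 393271) (nat_lit 23) .nil)))) (.g (nat_lit 0) (.e (nat_lit 185229) (nat_lit 0) .nil) .nil))) 
(.lf (nat_lit 507392) (.g (nat_lit 1676) (.e (nat_lit 164398) (nat_lit 256) (.e (nat_lit 57370) (nat_lit 2) (.e (nat_lit 90174) (nat_lit 14) (.e (nat_lit 180243) (nat_lit 5) (.e (nat_lit 532508) (nat_lit 2) .nil))))) (.g (nat_lit 0) (.e (nat_lit 187589) (nat_lit 0) .nil) .nil)))) (.nd (nat_lit 9) 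
(.lf (nat_lit 507136) (.g (nat_lit 1410) (.e (nat_lit 164354) (nat_lit 246) (.e (nat_lit 351) (nat_lit 28) (.e (nat_lit 393266) (nat_lit 23) (.e (nat_lit 426432) (nat_lit 17) (.e (nat_lit 90203) (nat_lit 21) .nil))))) (.g (nat_lit 0) (.e (nat_lit 186657) (nat_lit 0) .nil) .nil))) 
(.lf (nat_lit 507648) (.g (nat_lit 2540) (.e (nat_lit 164399) (nat_lit 256) (.e (nat_lit 57379) (nat_lit 3) (.e (nat_lit 98365) (nat_lit 26) (.e (nat_lit 426188) (nat_lit 9) (.e (nat_lit 426566) (nat_lit 34) (.e (nat_lit 393250) (nat_lit 18) .nil)))))) (.g (nat_lit 1) (.e (nat_lit 187881) (nat_lit 0) .nil) .nil))))) (.nd (nat_lit 8) (.nd (nat_lit 9) 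
(.lf (nat_lit 507008) (.g (nat_lit 1718) (.e (nat_lit 164347) (nat_lit 240) (.e (nat_lit 2619) (nat_lit 164) (.e (nat_lit 172119) (nat_lit 12) (.e (nat_lit 475198) (nat_lit 40) (.e (nat_lit 704598) (nat_lit 6) .nil))))) (.g (nat_lit 0) (.e (nat_lit 186033) (nat_lit 0) .nil) .nil))) 
(.lf (nat_lit 507520) (.g (nat_lit 814) (.e (nat_lit 164399) (nat_lit 256) (.e (nat_lit 57371) (nat_lit 2) (.e (nat_lit 90167) (nat_lit 13) .nil))) (.g (nat_lit 0) (.e (nat_lit 187728) (nat_lit 0) .nil) .nil)))) (.nd (nat_lit 9) 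
(.lf (nat_lit 507264) (.g (nat_lit 4921) (.e (nat_lit 164396) (nat_lit 256) (.e (nat_lit 57371) (nat_lit 2) (.e (nat_lit 90174) (nat_lit 14) (.e (nat_lit 180250) (nat_lit 10) (.e (nat_lit 573489) (nat_lit 14) (.e (nat_lit 73755) (nat_lit 8) (.e (nat_lit 557067) (nat_lit 9) (.e (nat_lit 2606) (nat_lit 163) .nil)))))))) (.g (nat_lit 1) (.e (nat_lit 187459) (nat_lit 0) .nil) .nil))) 
(.lf (nat_lit 507776) (.g (nat_lit 959) (.e (nat_lit 164400) (nat_lit 256) (.e (nat_lit 57379) (nat_lit 3) (.e (nat_lit 98369) (nat_lit 28) (.e (nat_lit 450304) (nat_lit 18) .nil)))) (.g (nat_lit 0) (.e (nat_lit 188019) (nat_lit 0) .nil) .nil)))))) (.nd (nat_lit 7) (.nd (nat_lit 8) (.nd (nat_lit 9) 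
(.lf (nat_lit 506944) (.g (nat_lit 2007) (.e (nat_lit 164345) (nat_lit 240) (.e (nat_lit 2638) (nat_lit 165) (.e (nat_lit 180278) (nat_lit 32) (.e (nat_lit 1659) (nat_lit 115) (.e (nat_lit 393277) (nat_lit 23) (.e (nat_lit 426109) (nat_lit 1) .nil)))))) (.g (nat_lit 1) (.e (nat_lit 185534) (nat_lit 0) .nil) .nil))) 
(.lf (nat_lit 507456) (.g (nat_lit 4590) (.e (nat_lit 164398) (nat_lit 256) (.e (nat_lit 57378) (nat_lit 3) (.e (nat_lit 98368) (nat_lit 27) (.e (nat_lit 434247) (nat_lit 28) (.e (nat_lit 573489) (nat_lit 14) (.e (nat_lit 73755) (nat_lit 8) (.e (nat_lit 557067) (nat_lit 9) (.e (nat_lit 2598) (nat_lit 163) .nil)))))))) (.g (nat_lit 1) (.e (nat_lit 187660) (nat_lit 0) .nil) .nil)))) 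
(.nd (nat_lit 9) 
(.lf (nat_lit 507200) (.g (nat_lit 2271) (.e (nat_lit 164359) (nat_lit 246) (.e (nat_lit 3062) (nat_lit 190) (.e (nat_lit 475207) (nat_lit 41) (.e (nat_lit 712755) (nat_lit 30) (.e (nat_lit 450597) (nat_lit 17) (.e (nat_lit 671488) (nat_lit 17) .nil)))))) (.g (nat_lit 1) (.e (nat_lit 186757) (nat_lit 0) .nil) .nil))) 
(.lf (nat_lit 507712) (.g (nat_lit 988) (.e (nat_lit 164399) (nat_lit 256) (.e (nat_lit 57437) (nat_lit 17) (.e (nat_lit 376869) (nat_lit 23) (.e (nat_lit 106240) (nat_lit 15) .nil)))) (.g (nat_lit 0) (.e (nat_lit 187953) (nat_lit 0) .nil) .nil))))) (.nd (nat_lit 8) (.nd (nat_lit 9) 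
(.lf (nat_lit 507072) (.g (nat_lit 4334) (.e (nat_lit 164348) (nat_lit 240) (.e (nat_lit 2610) (nat_lit 163) (.e (nat_lit 163979) (nat_lit 30) (.e (nat_lit 573491) (nat_lit 15) (.e (nat_lit 81951) (nat_lit 22) (.e (nat_lit 90185) (nat_lit 17) (.e (nat_lit 237584) (nat_lit 1) .nil))))))) (.g (nat_lit 1) (.e (nat_lit 186398) (nat_lit 0) .nil) .nil))) 
(.lf (nat_lit 507584) (.g (nat_lit 1729) (.e (nat_lit 164399) (nat_lit 256) (.e (nat_lit 57377) (nat_lit 3) (.e (nat_lit 98365) (nat_lit 26) (.e (nat_lit 426188) (nat_lit 9) (.e (nat_lit 426486) (nat_lit 27) .nil))))) (.g (nat_lit 0) (.e (nat_lit 187803) (nat_lit 0) .nil) .nil)))) (.nd (nat_lit 9) 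
(.lf (nat_lit 507328) (.g (nat_lit 3780) (.e (nat_lit 164396) (nat_lit 256) (.e (nat_lit 57427) (nat_lit 15) (.e (nat_lit 360474) (nat_lit 8) (.e (nat_lit 557091) (nat_lit 12) (.e (nat_lit 163855) (nat_lit 0) .nil))))) (.g (nat_lit 0) (.e (nat_lit 187524) (nat_lit 0) .nil) .nil))) 
(.lf (nat_lit 507840) (.g (nat_lit 999) (.e (nat_lit 164401) (nat_lit 256) (.e (nat_lit 57378) (nat_lit 3) (.e (nat_lit 98379) (nat_lit 31) (.e (nat_lit 474880) (nat_lit 18) .nil)))) (.g (nat_lit 0) (.e (nat_lit 188086) (nat_lit 0) .nil) .nil))))))) (.nd (nat_lit 6) (.nd (nat_lit 7) (.nd (nat_lit 8) (.nd (nat_lit 9) 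
(.lf (nat_lit 506912) (.g (nat_lit 2648) (.e (nat_lit 164345) (nat_lit 240) (.e (nat_lit 2610) (nat_lit 163) (.e (nat_lit 163978) (nat_lit 30) (.e (nat_lit 573479) (nat_lit 13) (.e (nat_lit 65619) (nat_lit 10) .nil))))) (.g (nat_lit 0) (.e (nat_lit 185326) (nat_lit 0) .nil) .nil))) 
(.lf (nat_lit 507424) (.g (nat_lit 4784) (.e (nat_lit 164398) (nat_lit 256) (.e (nat_lit 57373) (nat_lit 2) (.e (nat_lit 90174) (nat_lit 14) (.e (nat_lit 180251) (nat_lit 10) (.e (nat_lit 573489) (nat_lit 14) (.e (nat_lit 73755) (nat_lit 8) (.e (nat_lit 557067) (nat_lit 9) (.e (nat_lit 2598) (nat_lit 163) .nil)))))))) (.g (nat_lit 1) (.e (nat_lit 187622) (nat_lit 0) .nil) .nil)))) 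
(.nd (nat_lit 9) 
(.lf (nat_lit 507168) (.g (nat_lit 1266) (.e (nat_lit 164358) (nat_lit 246) (.e (nat_lit 351) (nat_lit 28) (.e (nat_lit 393268) (nat_lit 23) (.e (nat_lit 426432) (nat_lit 17) (.e (nat_lit 90203) (nat_lit 21) .nil))))) (.g (nat_lit 0) (.e (nat_lit 186696) (nat_lit 0) .nil) .nil))) 
(.lf (nat_lit 507680) (.g (nat_lit 2380) (.e (nat_lit 164399) (nat_lit 256) (.e (nat_lit 57390) (nat_lit 5) (.e (nat_lit 114716) (nat_lit 22) (.e (nat_lit 90158) (nat_lit 11) (.e (nat_lit 24653) (nat_lit 12) (.e (nat_lit 385066) (nat_lit 26) (.e (nat_lit 540416) (nat_lit 18) .nil))))))) (.g (nat_lit 1) (.e (nat_lit 187914) (nat_lit 0) .nil) .nil))))) (.nd (nat_lit 8) (.nd (nat_lit 9) 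
(.lf (nat_lit 507040) (.g (nat_lit 2155) (.e (nat_lit 164347) (nat_lit 240) (.e (nat_lit 2640) (nat_lit 165) (.e (nat_lit 180277) (nat_lit 32) (.e (nat_lit 1660) (nat_lit 115) (.e (nat_lit 393266) (nat_lit 23) (.e (nat_lit 426109) (nat_lit 1) .nil)))))) (.g (nat_lit 1) (.e (nat_lit 186239) (nat_lit 0) .nil) .nil))) 
(.lf (nat_lit 507552) (.g (nat_lit 1831) (.e (nat_lit 164399) (nat_lit 256) (.e (nat_lit 57373) (nat_lit 2) (.e (nat_lit 90174) (nat_lit 14) (.e (nat_lit 180243) (nat_lit 5) (.e (nat_lit 532515) (nat_lit 3) .nil))))) (.g (nat_lit 0) (.e (nat_lit 187770) (nat_lit 0) .nil) .nil)))) (.nd (nat_lit 9) 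
(.lf (nat_lit 507296) (.g (nat_lit 1921) (.e (nat_lit 164396) (nat_lit 256) (.e (nat_lit 57377) (nat_lit 3) (.e (nat_lit 98365) (nat_lit 26) (.e (nat_lit 426188) (nat_lit 9) (.e (nat_lit 426486) (nat_lit 27) .nil))))) (.g (nat_lit 0) (.e (nat_lit 187491) (nat_lit 0) .nil) .nil))) 
(.lf (nat_lit 507808) (.g (nat_lit 3633) (.e (nat_lit 164401) (nat_lit 256) (.e (nat_lit 57373) (nat_lit 2) (.e (nat_lit 90174) (nat_lit 14) (.e (nat_lit 180243) (nat_lit 5) (.e (nat_lit 532515) (nat_lit 3) (.e (nat_lit 114716) (nat_lit 22) (.e (nat_lit 90140) (nat_lit 9) (.e (nat_lit 2610) (nat_lit 163) .nil)))))))) (.g (nat_lit 1) (.e (nat_lit 188051) (nat_lit 0) .nil) .nil)))))) 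
(.nd (nat_lit 7) (.nd (nat_lit 8) (.nd (nat_lit 9) 
(.lf (nat_lit 506976) (.g (nat_lit 2018) (.e (nat_lit 164346) (nat_lit 240) (.e (nat_lit 2638) (nat_lit 165) (.e (nat_lit 180277) (nat_lit 32) (.e (nat_lit 1660) (nat_lit 115) (.e (nat_lit 393275) (nat_lit 23) (.e (nat_lit 426109) (nat_lit 1) .nil)))))) (.g (nat_lit 1) (.e (nat_lit 185835) (nat_lit 0) .nil) .nil))) 
(.lf (nat_lit 507488) (.g (nat_lit 1283) (.e (nat_lit 164398) (nat_lit 256) (.e (nat_lit 57407) (nat_lit 12) (.e (nat_lit 336434) (nat_lit 30) (.e (nat_lit 450579) (nat_lit 5) .nil)))) (.g (nat_lit 0) (.e (nat_lit 187692) (nat_lit 0) .nil) .nil)))) (.nd (nat_lit 9) 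
(.lf (nat_lit 507232) (.g (nat_lit 852) (.e (nat_lit 164370) (nat_lit 248) (.e (nat_lit 24599) (nat_lit 1) (.e (nat_lit 57847) (nat_lit 252) (.e (nat_lit 57365) (nat_lit 1) .nil)))) (.g (nat_lit 0) (.e (nat_lit 187006) (nat_lit 0) .nil) .nil))) 
(.lf (nat_lit 507744) (.g (nat_lit 1832) (.e (nat_lit 164400) (nat_lit 256) (.e (nat_lit 57373) (nat_lit 2) (.e (nat_lit 90174) (nat_lit 14) (.e (nat_lit 180243) (nat_lit 5) .nil)))) (.g (nat_lit 0) (.e (nat_lit 187987) (nat_lit 0) .nil) .nil))))) (.nd (nat_lit 8) (.nd (nat_lit 9) 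
(.lf (nat_lit 507104) (.g (nat_lit 1881) (.e (nat_lit 164348) (nat_lit 240) (.e (nat_lit 2640) (nat_lit 165) (.e (nat_lit 180278) (nat_lit 32) (.e (nat_lit 1661) (nat_lit 115) (.e (nat_lit 393277) (nat_lit 23) (.e (nat_lit 426103) (nat_lit 1) .nil)))))) (.g (nat_lit 1) (.e (nat_lit 186502) (nat_lit 0) .nil) .nil))) 
(.lf (nat_lit 507616) (.g (nat_lit 3530) (.e (nat_lit 164399) (nat_lit 256) (.e (nat_lit 57378) (nat_lit 3) (.e (nat_lit 98365) (nat_lit 26) (.e (nat_lit 426325) (nat_lit 13) (.e (nat_lit 483336) (nat_lit 9) (.e (nat_lit 426100) (nat_lit 1) .nil)))))) (.g (nat_lit 1) (.e (nat_lit 187849) (nat_lit 0) .nil) .nil)))) (.nd (nat_lit 9) 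
(.lf (nat_lit 507360) (.g (nat_lit 2539) (.e (nat_lit 164397) (nat_lit 256) (.e (nat_lit 57374) (nat_lit 2) (.e (nat_lit 90170) (nat_lit 13) (.e (nat_lit 172067) (nat_lit 3) (.e (nat_lit 204837) (nat_lit 20) .nil))))) (.g (nat_lit 0) (.e (nat_lit 187556) (nat_lit 0) .nil) .nil))) 
(.lf (nat_lit 507872) (.g (nat_lit 1548) (.e (nat_lit 164402) (nat_lit 256) (.e (nat_lit 57373) (nat_lit 2) (.e (nat_lit 90169) (nat_lit 13) (.e (nat_lit 172121) (nat_lit 13) .nil)))) (.g (nat_lit 0) (.e (nat_lit 188120) (nat_lit 0) .nil) .nil)))))))) (.nd (nat_lit 5) (.nd (nat_lit 6) (.nd (nat_lit 7) (.nd (nat_lit 8) (.nd (nat_lit 9) 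
(.lf (nat_lit 506896) (.g (nat_lit 922) (.e (nat_lit 164319) (nat_lit 228) (.e (nat_lit 57412) (nat_lit 12) (.e (nat_lit 336178) (nat_lit 10) (.e (nat_lit 344157) (nat_lit 36) .nil)))) (.g (nat_lit 0) (.e (nat_lit 185264) (nat_lit 0) .nil) .nil))) 
(.lf (nat_lit 507408) (.g (nat_lit 868) (.e (nat_lit 164398) (nat_lit 256) (.e (nat_lit 57372) (nat_lit 2) (.e (nat_lit 90177) (nat_lit 15) (.e (nat_lit 196352) (nat_lit 18) .nil)))) (.g (nat_lit 0) (.e (nat_lit 187605) (nat_lit 0) .nil) .nil)))) (.nd (nat_lit 9) 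
(.lf (nat_lit 507152) (.g (nat_lit 767) (.e (nat_lit 164357) (nat_lit 246) (.e (nat_lit 226) (nat_lit 21) (.e (nat_lit 336430) (nat_lit 29) .nil))) (.g (nat_lit 0) (.e (nat_lit 186675) (nat_lit 0) .nil) .nil))) 
(.lf (nat_lit 507664) (.g (nat_lit 861) (.e (nat_lit 164399) (nat_lit 256) (.e (nat_lit 57379) (nat_lit 3) (.e (nat_lit 98379) (nat_lit 31) .nil))) (.g (nat_lit 0) (.e (nat_lit 187897) (nat_lit 0) .nil) .nil))))) (.nd (nat_lit 8) (.nd (nat_lit 9) 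
(.lf (nat_lit 507024) (.g (nat_lit 962) (.e (nat_lit 164347) (nat_lit 240) (.e (nat_lit 2638) (nat_lit 165) (.e (nat_lit 180277) (nat_lit 32) (.e (nat_lit 1658) (nat_lit 115) .nil)))) (.g (nat_lit 0) (.e (nat_lit 186211) (nat_lit 0) .nil) .nil))) 
(.lf (nat_lit 507536) (.g (nat_lit 2680) (.e (nat_lit 164399) (nat_lit 256) (.e (nat_lit 57372) (nat_lit 2) (.e (nat_lit 90173) (nat_lit 14) (.e (nat_lit 180252) (nat_lit 10) (.e (nat_lit 573489) (nat_lit 14) (.e (nat_lit 73755) (nat_lit 8) (.e (nat_lit 557067) (nat_lit 9) (.e (nat_lit 2603) (nat_lit 163) .nil)))))))) (.g (nat_lit 1) (.e (nat_lit 187753) (nat_lit 0) .nil) .nil)))) 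
(.nd (nat_lit 9) 
(.lf (nat_lit 507280) (.g (nat_lit 1485) (.e (nat_lit 164396) (nat_lit 256) (.e (nat_lit 57372) (nat_lit 2) (.e (nat_lit 90185) (nat_lit 17) (.e (nat_lit 237605) (nat_lit 9) .nil)))) (.g (nat_lit 0) (.e (nat_lit 187475) (nat_lit 0) .nil) .nil))) 
(.lf (nat_lit 507792) (.g (nat_lit 2062) (.e (nat_lit 164401) (nat_lit 256) (.e (nat_lit 57371) (nat_lit 2) (.e (nat_lit 90174) (nat_lit 14) (.e (nat_lit 180243) (nat_lit 5) (.e (nat_lit 532515) (nat_lit 3) .nil))))) (.g (nat_lit 0) (.e (nat_lit 188035) (nat_lit 0) .nil) .nil)))))) (.nd (nat_lit 7) (.nd (nat_lit 8) (.nd (nat_lit 9) 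
(.lf (nat_lit 506960) (.g (nat_lit 3461) (.e (nat_lit 164346) (nat_lit 240) (.e (nat_lit 2617) (nat_lit 164) (.e (nat_lit 172126) (nat_lit 14) (.e (nat_lit 491550) (nat_lit 9) (.e (nat_lit 336430) (nat_lit 29) (.e (nat_lit 442419) (nat_lit 21) .nil)))))) (.g (nat_lit 1) (.e (nat_lit 185739) (nat_lit 0) .nil) .nil))) 
(.lf (nat_lit 507472) (.g (nat_lit 3572) (.e (nat_lit 164398) (nat_lit 256) (.e (nat_lit 57379) (nat_lit 3) (.e (nat_lit 98365) (nat_lit 26) (.e (nat_lit 426325) (nat_lit 13) (.e (nat_lit 483336) (nat_lit 9) (.e (nat_lit 426100) (nat_lit 1) .nil)))))) (.g (nat_lit 1) (.e (nat_lit 187676) (nat_lit 0) .nil) .nil)))) (.nd (nat_lit 9) 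
(.lf (nat_lit 507216) (.g (nat_lit 2243) (.e (nat_lit 164362) (nat_lit 246) (.e (nat_lit 3062) (nat_lit 190) (.e (nat_lit 475185) (nat_lit 29) (.e (nat_lit 557109) (nat_lit 15) .nil)))) (.g (nat_lit 0) (.e (nat_lit 186833) (nat_lit 0) .nil) .nil))) 
(.lf (nat_lit 507728) (.g (nat_lit 1127) (.e (nat_lit 164399) (nat_lit 256) (.e (nat_lit 57448) (nat_lit 19) (.e (nat_lit 393282) (nat_lit 24) (.e (nat_lit 434231) (nat_lit 23) .nil)))) (.g (nat_lit 0) (.e (nat_lit 187970) (nat_lit 0) .nil) .nil))))) (.nd (nat_lit 8) (.nd (nat_lit 9) 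
(.lf (nat_lit 507088) (.g (nat_lit 1991) (.e (nat_lit 164348) (nat_lit 240) (.e (nat_lit 2619) (nat_lit 164) (.e (nat_lit 172126) (nat_lit 14) (.e (nat_lit 491568) (nat_lit 13) (.e (nat_lit 393279) (nat_lit 23) .nil))))) (.g (nat_lit 0) (.e (nat_lit 186434) (nat_lit 0) .nil) .nil))) 
(.lf (nat_lit 507600) (.g (nat_lit 1722) (.e (nat_lit 164399) (nat_lit 256) (.e (nat_lit 57378) (nat_lit 3) (.e (nat_lit 98356) (nat_lit 26) (.e (nat_lit 426323) (nat_lit 13) .nil)))) (.g (nat_lit 0) (.e (nat_lit 187833) (nat_lit 0) .nil) .nil)))) (.nd (nat_lit 9) 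
(.lf (nat_lit 507344) (.g (nat_lit 2199) (.e (nat_lit 164397) (nat_lit 256) (.e (nat_lit 57372) (nat_lit 2) (.e (nat_lit 90172) (nat_lit 14) (.e (nat_lit 180243) (nat_lit 5) (.e (nat_lit 532513) (nat_lit 3) .nil))))) (.g (nat_lit 0) (.e (nat_lit 187540) (nat_lit 0) .nil) .nil))) 
(.lf (nat_lit 507856) (.g (nat_lit 2926) (.e (nat_lit 164401) (nat_lit 256) (.e (nat_lit 57588) (nat_lit 73) (.e (nat_lit 426139) (nat_lit 3) (.e (nat_lit 204854) (nat_lit 26) (.e (nat_lit 336000) (nat_lit 1) .nil))))) (.g (nat_lit 0) (.e (nat_lit 188102) (nat_lit 0) .nil) .nil))))))) (.nd (nat_lit 6) (.nd (nat_lit 7) (.nd (nat_lit 8) (.nd (nat_lit 9) 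
(.lf (nat_lit 506928) (.g (nat_lit 2099) (.e (nat_lit 164345) (nat_lit 240) (.e (nat_lit 2619) (nat_lit 164) (.e (nat_lit 172126) (nat_lit 14) (.e (nat_lit 491568) (nat_lit 13) (.e (nat_lit 393266) (nat_lit 23) .nil))))) (.g (nat_lit 0) (.e (nat_lit 185416) (nat_lit 0) .nil) .nil))) 
(.lf (nat_lit 507440) (.g (nat_lit 2721) (.e (nat_lit 164398) (nat_lit 256) (.e (nat_lit 57377) (nat_lit 3) (.e (nat_lit 98365) (nat_lit 26) (.e (nat_lit 426188) (nat_lit 9) (.e (nat_lit 426568) (nat_lit 34) (.e (nat_lit 393252) (nat_lit 18) .nil)))))) (.g (nat_lit 1) (.e (nat_lit 187639) (nat_lit 0) .nil) .nil)))) (.nd (nat_lit 9) 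
(.lf (nat_lit 507184) (.g (nat_lit 2319) (.e (nat_lit 164359) (nat_lit 246) (.e (nat_lit 2661) (nat_lit 167) (.e (nat_lit 196666) (nat_lit 13) (.e (nat_lit 65617) (nat_lit 10) (.e (nat_lit 344132) (nat_lit 26) (.e (nat_lit 557073) (nat_lit 9) (.e (nat_lit 22) (nat_lit 0) (.e (nat_lit 6234) (nat_lit 335) .nil)))))))) (.g (nat_lit 1) (.e (nat_lit 186715) (nat_lit 0) .nil) .nil))) 
(.lf (nat_lit 507696) (.g (nat_lit 1569) (.e (nat_lit 164399) (nat_lit 256) (.e (nat_lit 57409) (nat_lit 12) (.e (nat_lit 336428) (nat_lit 29) (.e (nat_lit 442426) (nat_lit 23) (.e (nat_lit 204813) (nat_lit 9) .nil))))) (.g (nat_lit 0) (.e (nat_lit 187935) (nat_lit 0) .nil) .nil))))) (.nd (nat_lit 8) (.nd (nat_lit 9) 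
(.lf (nat_lit 507056) (.g (nat_lit 4518) (.e (nat_lit 164348) (nat_lit 240) (.e (nat_lit 2610) (nat_lit 163) (.e (nat_lit 163977) (nat_lit 30) (.e (nat_lit 573485) (nat_lit 13) (.e (nat_lit 65604) (nat_lit 9) (.e (nat_lit 336013) (nat_lit 2) (.e (nat_lit 90170) (nat_lit 13) (.e (nat_lit 172061) (nat_lit 1) .nil)))))))) (.g (nat_lit 1) (.e (nat_lit 186382) (nat_lit 0) .nil) .nil))) 
(.lf (nat_lit 507568) (.g (nat_lit 1954) (.e (nat_lit 164399) (nat_lit 256) (.e (nat_lit 57374) (nat_lit 2) (.e (nat_lit 90178) (nat_lit 15) (.e (nat_lit 188421) (nat_lit 11) (.e (nat_lit 336387) (nat_lit 27) .nil))))) (.g (nat_lit 0) (.e (nat_lit 187787) (nat_lit 0) .nil) .nil)))) (.nd (nat_lit 9) 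
(.lf (nat_lit 507312) (.g (nat_lit 2506) (.e (nat_lit 164396) (nat_lit 256) (.e (nat_lit 57379) (nat_lit 3) (.e (nat_lit 98366) (nat_lit 27) (.e (nat_lit 434231) (nat_lit 23) (.e (nat_lit 532506) (nat_lit 2) .nil))))) (.g (nat_lit 0) (.e (nat_lit 187508) (nat_lit 0) .nil) .nil))) 
(.lf (nat_lit 507824) (.g (nat_lit 1054) (.e (nat_lit 164401) (nat_lit 256) (.e (nat_lit 57378) (nat_lit 3) (.e (nat_lit 98360) (nat_lit 26) .nil))) (.g (nat_lit 0) (.e (nat_lit 188070) (nat_lit 0) .nil) .nil)))))) (.nd (nat_lit 7) (.nd (nat_lit 8) (.nd (nat_lit 9) 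
(.lf (nat_lit 506992) (.g (nat_lit 543) (.e (nat_lit 164346) (nat_lit 240) (.e (nat_lit 2650) (nat_lit 166) (.e (nat_lit 188416) (nat_lit 0) .nil))) (.g (nat_lit 0) (.e (nat_lit 185919) (nat_lit 0) .nil) .nil))) 
(.lf (nat_lit 507504) (.g (nat_lit 1539) (.e (nat_lit 164398) (nat_lit 256) (.e (nat_lit 57445) (nat_lit 19) (.e (nat_lit 393296) (nat_lit 26) (.e (nat_lit 483072) (nat_lit 26) .nil)))) (.g (nat_lit 0) (.e (nat_lit 187709) (nat_lit 0) .nil) .nil)))) (.nd (nat_lit 9) 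
(.lf (nat_lit 507248) (.g (nat_lit 2384) (.e (nat_lit 164406) (nat_lit 258) (.e (nat_lit 163875) (nat_lit 3) (.e (nat_lit 204880) (nat_lit 32) (.e (nat_lit 385096) (nat_lit 49) (.e (nat_lit 778275) (nat_lit 0) .nil))))) (.g (nat_lit 0) (.e (nat_lit 187442) (nat_lit 0) .nil) .nil))) 
(.lf (nat_lit 507760) (.g (nat_lit 1616) (.e (nat_lit 164400) (nat_lit 256) (.e (nat_lit 57375) (nat_lit 2) (.e (nat_lit 90176) (nat_lit 15) (.e (nat_lit 188421) (nat_lit 11) (.e (nat_lit 336387) (nat_lit 27) .nil))))) (.g (nat_lit 0) (.e (nat_lit 188003) (nat_lit 0) .nil) .nil))))) (.nd (nat_lit 8) (.nd (nat_lit 9) 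
(.lf (nat_lit 507120) (.g (nat_lit 729) (.e (nat_lit 164353) (nat_lit 246) (.e (nat_lit 226) (nat_lit 21) (.e (nat_lit 336443) (nat_lit 32) (.e (nat_lit 474880) (nat_lit 2) .nil)))) (.g (nat_lit 0) (.e (nat_lit 186637) (nat_lit 0) .nil) .nil))) 
(.lf (nat_lit 507632) (.g (nat_lit 1379) (.e (nat_lit 164399) (nat_lit 256) (.e (nat_lit 57378) (nat_lit 3) (.e (nat_lit 98371) (nat_lit 28) (.e (nat_lit 442390) (nat_lit 11) .nil)))) (.g (nat_lit 0) (.e (nat_lit 187865) (nat_lit 0) .nil) .nil)))) (.nd (nat_lit 9) 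
(.lf (nat_lit 507376) (.g (nat_lit 1989) (.e (nat_lit 164397) (nat_lit 256) (.e (nat_lit 57379) (nat_lit 3) (.e (nat_lit 98367) (nat_lit 27) (.e (nat_lit 434231) (nat_lit 23) (.e (nat_lit 532514) (nat_lit 3) .nil))))) (.g (nat_lit 0) (.e (nat_lit 187572) (nat_lit 0) .nil) .nil))) 
(.lf (nat_lit 507888) (.g (nat_lit 1767) (.e (nat_lit 164402) (nat_lit 256) (.e (nat_lit 57373) (nat_lit 2) (.e (nat_lit 90185) (nat_lit 17) (.e (nat_lit 237620) (nat_lit 13) .nil)))) (.g (nat_lit 0) (.e (nat_lit 188136) (nat_lit 0) .nil) .nil))))))))) (.nd (nat_lit 4) (.nd (nat_lit 5) (.nd (nat_lit 6) (.nd (nat_lit 7) (.nd (nat_lit 8) (.nd (nat_lit 9) 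
(.lf (nat_lit 506888) (.g (nat_lit 401) (.e (nat_lit 164319) (nat_lit 228) (.e (nat_lit 57412) (nat_lit 12) (.e (nat_lit 336176) (nat_lit 10) .nil))) (.g (nat_lit 0) (.e (nat_lit 185256) (nat_lit 0) .nil) .nil))) 
(.lf (nat_lit 507400) (.g (nat_lit 2148) (.e (nat_lit 164398) (nat_lit 256) (.e (nat_lit 57372) (nat_lit 2) (.e (nat_lit 90174) (nat_lit 14) (.e (nat_lit 180243) (nat_lit 5) (.e (nat_lit 532510) (nat_lit 2) .nil))))) (.g (nat_lit 0) (.e (nat_lit 187597) (nat_lit 0) .nil) .nil)))) (.nd (nat_lit 9) 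
(.lf (nat_lit 507144) (.g (nat_lit 1076) (.e (nat_lit 164356) (nat_lit 246) (.e (nat_lit 226) (nat_lit 21) (.e (nat_lit 336434) (nat_lit 30) (.e (nat_lit 450579) (nat_lit 5) (.e (nat_lit 532574) (nat_lit 17) .nil))))) (.g (nat_lit 0) (.e (nat_lit 186666) (nat_lit 0) .nil) .nil))) 
(.lf (nat_lit 507656) (.g (nat_lit 1391) (.e (nat_lit 164399) (nat_lit 256) (.e (nat_lit 57379) (nat_lit 3) (.e (nat_lit 98365) (nat_lit 26) (.e (nat_lit 426332) (nat_lit 13) .nil)))) (.g (nat_lit 0) (.e (nat_lit 187889) (nat_lit 0) .nil) .nil))))) (.nd (nat_lit 8) (.nd (nat_lit 9) 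
(.lf (nat_lit 507016) (.g (nat_lit 2091) (.e (nat_lit 164347) (nat_lit 240) (.e (nat_lit 2619) (nat_lit 164) (.e (nat_lit 172126) (nat_lit 14) (.e (nat_lit 491568) (nat_lit 13) (.e (nat_lit 393266) (nat_lit 23) .nil))))) (.g (nat_lit 0) (.e (nat_lit 186077) (nat_lit 0) .nil) .nil))) 
(.lf (nat_lit 507528) (.g (nat_lit 1454) (.e (nat_lit 164399) (nat_lit 256) (.e (nat_lit 57372) (nat_lit 2) (.e (nat_lit 90167) (nat_lit 13) (.e (nat_lit 172121) (nat_lit 13) (.e (nat_lit 483341) (nat_lit 9) .nil))))) (.g (nat_lit 0) (.e (nat_lit 187745) (nat_lit 0) .nil) .nil)))) (.nd (nat_lit 9) 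
(.lf (nat_lit 507272) (.g (nat_lit 2349) (.e (nat_lit 164396) (nat_lit 256) (.e (nat_lit 57372) (nat_lit 2) (.e (nat_lit 90167) (nat_lit 13) (.e (nat_lit 172067) (nat_lit 3) (.e (nat_lit 204837) (nat_lit 20) .nil))))) (.g (nat_lit 0) (.e (nat_lit 187467) (nat_lit 0) .nil) .nil))) 
(.lf (nat_lit 507784) (.g (nat_lit 2141) (.e (nat_lit 164400) (nat_lit 256) (.e (nat_lit 57411) (nat_lit 12) (.e (nat_lit 336443) (nat_lit 32) (.e (nat_lit 466974) (nat_lit 22) (.e (nat_lit 196656) (nat_lit 11) .nil))))) (.g (nat_lit 0) (.e (nat_lit 188027) (nat_lit 0) .nil) .nil)))))) (.nd (nat_lit 7) (.nd (nat_lit 8) (.nd (nat_lit 9) 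
(.lf (nat_lit 506952) (.g (nat_lit 1230) (.e (nat_lit 164345) (nat_lit 240) (.e (nat_lit 2640) (nat_lit 165) (.e (nat_lit 180278) (nat_lit 32) (.e (nat_lit 1660) (nat_lit 115) (.e (nat_lit 393277) (nat_lit 23) .nil))))) (.g (nat_lit 0) (.e (nat_lit 185554) (nat_lit 0) .nil) .nil))) 
(.lf (nat_lit 507464) (.g (nat_lit 1566) (.e (nat_lit 164398) (nat_lit 256) (.e (nat_lit 57379) (nat_lit 3) (.e (nat_lit 98359) (nat_lit 26) (.e (nat_lit 426324) (nat_lit 13) .nil)))) (.g (nat_lit 0) (.e (nat_lit 187668) (nat_lit 0) .nil) .nil)))) (.nd (nat_lit 9) 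
(.lf (nat_lit 507208) (.g (nat_lit 1660) (.e (nat_lit 164359) (nat_lit 246) (.e (nat_lit 3085) (nat_lit 191) (.e (nat_lit 483396) (nat_lit 24) (.e (nat_lit 344161) (nat_lit 37) (.e (nat_lit 655104) (nat_lit 15) (.e (nat_lit 57819) (nat_lit 248) .nil)))))) (.g (nat_lit 1) (.e (nat_lit 186772) (nat_lit 0) .nil) .nil))) 
(.lf (nat_lit 507720) (.g (nat_lit 2272) (.e (nat_lit 164399) (nat_lit 256) (.e (nat_lit 57447) (nat_lit 19) (.e (nat_lit 393281) (nat_lit 23) (.e (nat_lit 426139) (nat_lit 3) (.e (nat_lit 204813) (nat_lit 9) .nil))))) (.g (nat_lit 0) (.e (nat_lit 187962) (nat_lit 0) .nil) .nil))))) (.nd (nat_lit 8) (.nd (nat_lit 9) 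
(.lf (nat_lit 507080) (.g (nat_lit 4897) (.e (nat_lit 164348) (nat_lit 240) (.e (nat_lit 2611) (nat_lit 163) (.e (nat_lit 163978) (nat_lit 30) (.e (nat_lit 573479) (nat_lit 13) (.e (nat_lit 65619) (nat_lit 10) (.e (nat_lit 344117) (nat_lit 21) (.e (nat_lit 516151) (nat_lit 9) (.e (nat_lit 426097) (nat_lit 1) .nil)))))))) (.g (nat_lit 1) (.e (nat_lit 186409) (nat_lit 0) .nil) .nil))) 
(.lf (nat_lit 507592) (.g (nat_lit 1749) (.e (nat_lit 164399) (nat_lit 256) (.e (nat_lit 57377) (nat_lit 3) (.e (nat_lit 98380) (nat_lit 31) (.e (nat_lit 466954) (nat_lit 11) (.e (nat_lit 336387) (nat_lit 27) .nil))))) (.g (nat_lit 0) (.e (nat_lit 187824) (nat_lit 0) .nil) .nil)))) (.nd (nat_lit 9) 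
(.lf (nat_lit 507336) (.g (nat_lit 2487) (.e (nat_lit 164397) (nat_lit 256) (.e (nat_lit 57371) (nat_lit 2) (.e (nat_lit 90174) (nat_lit 14) (.e (nat_lit 180243) (nat_lit 5) (.e (nat_lit 532515) (nat_lit 3) (.e (nat_lit 114716) (nat_lit 22) (.e (nat_lit 90128) (nat_lit 9) (.e (nat_lit 2615) (nat_lit 163) .nil)))))))) (.g (nat_lit 1) (.e (nat_lit 187532) (nat_lit 0) .nil) .nil))) 
(.lf (nat_lit 507848) (.g (nat_lit 1601) (.e (nat_lit 164401) (nat_lit 256) (.e (nat_lit 57409) (nat_lit 12) (.e (nat_lit 336430) (nat_lit 29) (.e (nat_lit 442427) (nat_lit 23) (.e (nat_lit 204812) (nat_lit 9) .nil))))) (.g (nat_lit 0) (.e (nat_lit 188094) (nat_lit 0) .nil) .nil))))))) (.nd (nat_lit 6) (.nd (nat_lit 7) (.nd (nat_lit 8) (.nd (nat_lit 9) 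
(.lf (nat_lit 506920) (.g (nat_lit 1799) (.e (nat_lit 164345) (nat_lit 240) (.e (nat_lit 2618) (nat_lit 164) (.e (nat_lit 172120) (nat_lit 12) (.e (nat_lit 475198) (nat_lit 40) (.e (nat_lit 704599) (nat_lit 6) .nil))))) (.g (nat_lit 0) (.e (nat_lit 185354) (nat_lit 0) .nil) .nil))) 
(.lf (nat_lit 507432) (.g (nat_lit 1346) (.e (nat_lit 164398) (nat_lit 256) (.e (nat_lit 57374) (nat_lit 2) (.e (nat_lit 90176) (nat_lit 15) (.e (nat_lit 188423) (nat_lit 11) (.e (nat_lit 336387) (nat_lit 27) .nil))))) (.g (nat_lit 0) (.e (nat_lit 187631) (nat_lit 0) .nil) .nil)))) (.nd (nat_lit 9) 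
(.lf (nat_lit 507176) (.g (nat_lit 3298) (.e (nat_lit 164359) (nat_lit 246) (.e (nat_lit 2661) (nat_lit 167) (.e (nat_lit 196666) (nat_lit 13) (.e (nat_lit 65610) (nat_lit 10) (.e (nat_lit 344117) (nat_lit 21) (.e (nat_lit 516102) (nat_lit 0) (.e (nat_lit 7099) (nat_lit 380) .nil))))))) (.g (nat_lit 1) (.e (nat_lit 186707) (nat_lit 0) .nil) .nil))) 
(.lf (nat_lit 507688) (.g (nat_lit 1975) (.e (nat_lit 164399) (nat_lit 256) (.e (nat_lit 57407) (nat_lit 12) (.e (nat_lit 336434) (nat_lit 30) (.e (nat_lit 450579) (nat_lit 5) (.e (nat_lit 532582) (nat_lit 26) .nil))))) (.g (nat_lit 0) (.e (nat_lit 187927) (nat_lit 0) .nil) .nil))))) (.nd (nat_lit 8) (.nd (nat_lit 9) 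
(.lf (nat_lit 507048) (.g (nat_lit 1388) (.e (nat_lit 164347) (nat_lit 240) (.e (nat_lit 2649) (nat_lit 166) (.e (nat_lit 188434) (nat_lit 20) (.e (nat_lit 3409) (nat_lit 212) .nil)))) (.g (nat_lit 0) (.e (nat_lit 186273) (nat_lit 0) .nil) .nil))) 
(.lf (nat_lit 507560) (.g (nat_lit 2889) (.e (nat_lit 164399) (nat_lit 256) (.e (nat_lit 57373) (nat_lit 2) (.e (nat_lit 90174) (nat_lit 14) (.e (nat_lit 180252) (nat_lit 10) (.e (nat_lit 573489) (nat_lit 14) (.e (nat_lit 73755) (nat_lit 8) (.e (nat_lit 557067) (nat_lit 9) (.e (nat_lit 2598) (nat_lit 163) .nil)))))))) (.g (nat_lit 1) (.e (nat_lit 187778) (nat_lit 0) .nil) .nil)))) 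
(.nd (nat_lit 9) 
(.lf (nat_lit 507304) (.g (nat_lit 2557) (.e (nat_lit 164396) (nat_lit 256) (.e (nat_lit 57378) (nat_lit 3) (.e (nat_lit 98365) (nat_lit 26) (.e (nat_lit 426325) (nat_lit 13) (.e (nat_lit 483337) (nat_lit 9) .nil))))) (.g (nat_lit 0) (.e (nat_lit 187500) (nat_lit 0) .nil) .nil))) 
(.lf (nat_lit 507816) (.g (nat_lit 1591) (.e (nat_lit 164401) (nat_lit 256) (.e (nat_lit 57377) (nat_lit 3) (.e (nat_lit 98370) (nat_lit 28) (.e (nat_lit 450304) (nat_lit 18) .nil)))) (.g (nat_lit 0) (.e (nat_lit 188061) (nat_lit 0) .nil) .nil)))))) (.nd (nat_lit 7) (.nd (nat_lit 8) (.nd (nat_lit 9) 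
(.lf (nat_lit 506984) (.g (nat_lit 1655) (.e (nat_lit 164346) (nat_lit 240) (.e (nat_lit 2638) (nat_lit 165) (.e (nat_lit 180278) (nat_lit 32) (.e (nat_lit 1659) (nat_lit 115) (.e (nat_lit 393278) (nat_lit 23) .nil))))) (.g (nat_lit 0) (.e (nat_lit 185845) (nat_lit 0) .nil) .nil))) 
(.lf (nat_lit 507496) (.g (nat_lit 1859) (.e (nat_lit 164398) (nat_lit 256) (.e (nat_lit 57411) (nat_lit 12) (.e (nat_lit 336432) (nat_lit 30) (.e (nat_lit 450579) (nat_lit 5) (.e (nat_lit 532579) (nat_lit 26) .nil))))) (.g (nat_lit 0) (.e (nat_lit 187700) (nat_lit 0) .nil) .nil)))) (.nd (nat_lit 9) 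
(.lf (nat_lit 507240) (.g (nat_lit 873) (.e (nat_lit 164377) (nat_lit 253) (.e (nat_lit 245504) (nat_lit 27) (.e (nat_lit 336228) (nat_lit 14) (.e (nat_lit 401454) (nat_lit 12) (.e (nat_lit 483072) (nat_lit 19) .nil))))) (.g (nat_lit 1) (.e (nat_lit 187427) (nat_lit 0) .nil) .nil))) 
(.lf (nat_lit 507752) (.g (nat_lit 2072) (.e (nat_lit 164400) (nat_lit 256) (.e (nat_lit 57374) (nat_lit 2) (.e (nat_lit 90170) (nat_lit 13) (.e (nat_lit 172123) (nat_lit 13) (.e (nat_lit 483337) (nat_lit 9) .nil))))) (.g (nat_lit 0) (.e (nat_lit 187995) (nat_lit 0) .nil) .nil))))) (.nd (nat_lit 8) (.nd (nat_lit 9) 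
(.lf (nat_lit 507112) (.g (nat_lit 699) (.e (nat_lit 164351) (nat_lit 246) (.e (nat_lit 226) (nat_lit 21) (.e (nat_lit 336434) (nat_lit 30) .nil))) (.g (nat_lit 0) (.e (nat_lit 186576) (nat_lit 0) .nil) .nil))) 
(.lf (nat_lit 507624) (.g (nat_lit 977) (.e (nat_lit 164399) (nat_lit 256) (.e (nat_lit 57378) (nat_lit 3) (.e (nat_lit 98368) (nat_lit 27) .nil))) (.g (nat_lit 0) (.e (nat_lit 187857) (nat_lit 0) .nil) .nil)))) (.nd (nat_lit 9) 
(.lf (nat_lit 507368) (.g (nat_lit 651) (.e (nat_lit 164397) (nat_lit 256) (.e (nat_lit 57375) (nat_lit 2) (.e (nat_lit 90178) (nat_lit 15) .nil))) (.g (nat_lit 0) (.e (nat_lit 187564) (nat_lit 0) .nil) .nil))) 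
(.lf (nat_lit 507880) (.g (nat_lit 2227) (.e (nat_lit 164402) (nat_lit 256) (.e (nat_lit 57373) (nat_lit 2) (.e (nat_lit 90174) (nat_lit 14) (.e (nat_lit 180243) (nat_lit 5) (.e (nat_lit 532513) (nat_lit 3) .nil))))) (.g (nat_lit 0) (.e (nat_lit 188128) (nat_lit 0) .nil) .nil)))))))) (.nd (nat_lit 5) (.nd (nat_lit 6) (.nd (nat_lit 7) (.nd (nat_lit 8) (.nd (nat_lit 9) 
(.lf (nat_lit 506904) (.g (nat_lit 1847) (.e (nat_lit 164338) (nat_lit 232) (.e (nat_lit 403) (nat_lit 32) (.e (nat_lit 426340) (nat_lit 14) (.e (nat_lit 491571) (nat_lit 13) (.e (nat_lit 393242) (nat_lit 17) (.e (nat_lit 7095) (nat_lit 380) .nil)))))) (.g (nat_lit 1) (.e (nat_lit 185293) (nat_lit 0) .nil) .nil))) 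
(.lf (nat_lit 507416) (.g (nat_lit 1991) (.e (nat_lit 164398) (nat_lit 256) (.e (nat_lit 57373) (nat_lit 2) (.e (nat_lit 90174) (nat_lit 14) (.e (nat_lit 180243) (nat_lit 5) (.e (nat_lit 532514) (nat_lit 3) .nil))))) (.g (nat_lit 0) (.e (nat_lit 187614) (nat_lit 0) .nil) .nil)))) (.nd (nat_lit 9) 
(.lf (nat_lit 507160) (.g (nat_lit 924) (.e (nat_lit 164358) (nat_lit 246) (.e (nat_lit 226) (nat_lit 21) (.e (nat_lit 336430) (nat_lit 29) (.e (nat_lit 442427) (nat_lit 23) .nil)))) (.g (nat_lit 0) (.e (nat_lit 186684) (nat_lit 0) .nil) .nil))) 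
(.lf (nat_lit 507672) (.g (nat_lit 2284) (.e (nat_lit 164399) (nat_lit 256) (.e (nat_lit 57388) (nat_lit 5) (.e (nat_lit 114714) (nat_lit 22) (.e (nat_lit 90159) (nat_lit 11) (.e (nat_lit 24650) (nat_lit 12) (.e (nat_lit 385066) (nat_lit 26) (.e (nat_lit 540416) (nat_lit 18) .nil))))))) (.g (nat_lit 1) (.e (nat_lit 187905) (nat_lit 0) .nil) .nil))))) (.nd (nat_lit 8) (.nd (nat_lit 9) 
(.lf (nat_lit 507032) (.g (nat_lit 1630) (.e (nat_lit 164347) (nat_lit 240) (.e (nat_lit 2638) (nat_lit 165) (.e (nat_lit 180278) (nat_lit 32) (.e (nat_lit 1659) (nat_lit 115) (.e (nat_lit 393275) (nat_lit 23) .nil))))) (.g (nat_lit 0) (.e (nat_lit 186222) (nat_lit 0) .nil) .nil))) 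
(.lf (nat_lit 507544) (.g (nat_lit 1660) (.e (nat_lit 164399) (nat_lit 256) (.e (nat_lit 57372) (nat_lit 2) (.e (nat_lit 90178) (nat_lit 15) (.e (nat_lit 188421) (nat_lit 11) (.e (nat_lit 336387) (nat_lit 27) .nil))))) (.g (nat_lit 0) (.e (nat_lit 187761) (nat_lit 0) .nil) .nil)))) (.nd (nat_lit 9) 
(.lf (nat_lit 507288) (.g (nat_lit 2110) (.e (nat_lit 164396) (nat_lit 256) (.e (nat_lit 57375) (nat_lit 2) (.e (nat_lit 90174) (nat_lit 14) (.e (nat_lit 180243) (nat_lit 5) (.e (nat_lit 532508) (nat_lit 2) .nil))))) (.g (nat_lit 0) (.e (nat_lit 187483) (nat_lit 0) .nil) .nil))) 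
(.lf (nat_lit 507800) (.g (nat_lit 1976) (.e (nat_lit 164401) (nat_lit 256) (.e (nat_lit 57373) (nat_lit 2) (.e (nat_lit 90174) (nat_lit 14) (.e (nat_lit 180243) (nat_lit 5) (.e (nat_lit 532510) (nat_lit 2) .nil))))) (.g (nat_lit 0) (.e (nat_lit 188043) (nat_lit 0) .nil) .nil)))))) (.nd (nat_lit 7) (.nd (nat_lit 8) (.nd (nat_lit 9) 
(.lf (nat_lit 506968) (.g (nat_lit 2239) (.e (nat_lit 164346) (nat_lit 240) (.e (nat_lit 2619) (nat_lit 164) (.e (nat_lit 172120) (nat_lit 12) (.e (nat_lit 475198) (nat_lit 40) (.e (nat_lit 704599) (nat_lit 6) .nil))))) (.g (nat_lit 0) (.e (nat_lit 185765) (nat_lit 0) .nil) .nil))) 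
(.lf (nat_lit 507480) (.g (nat_lit 1365) (.e (nat_lit 164398) (nat_lit 256) (.e (nat_lit 57404) (nat_lit 12) (.e (nat_lit 336443) (nat_lit 32) (.e (nat_lit 466979) (nat_lit 23) (.e (nat_lit 204809) (nat_lit 9) .nil))))) (.g (nat_lit 0) (.e (nat_lit 187684) (nat_lit 0) .nil) .nil)))) (.nd (nat_lit 9) 
(.lf (nat_lit 507224) (.g (nat_lit 1163) (.e (nat_lit 164366) (nat_lit 246) (.e (nat_lit 2682) (nat_lit 168) (.e (nat_lit 204877) (nat_lit 31) (.e (nat_lit 376862) (nat_lit 22) (.e (nat_lit 90181) (nat_lit 16) .nil))))) (.g (nat_lit 0) (.e (nat_lit 186935) (nat_lit 0) .nil) .nil))) 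
(.lf (nat_lit 507736) (.g (nat_lit 2511) (.e (nat_lit 164400) (nat_lit 256) (.e (nat_lit 57372) (nat_lit 2) (.e (nat_lit 90174) (nat_lit 14) (.e (nat_lit 180243) (nat_lit 5) (.e (nat_lit 532513) (nat_lit 3) .nil))))) (.g (nat_lit 0) (.e (nat_lit 187979) (nat_lit 0) .nil) .nil))))) (.nd (nat_lit 8) (.nd (nat_lit 9) 
(.lf (nat_lit 507096) (.g (nat_lit 1996) (.e (nat_lit 164348) (nat_lit 240) (.e (nat_lit 2640) (nat_lit 165) (.e (nat_lit 180277) (nat_lit 32) (.e (nat_lit 1659) (nat_lit 115) (.e (nat_lit 393277) (nat_lit 23) (.e (nat_lit 426103) (nat_lit 1) .nil)))))) (.g (nat_lit 1) (.e (nat_lit 186494) (nat_lit 0) .nil) .nil))) 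
(.lf (nat_lit 507608) (.g (nat_lit 1027) (.e (nat_lit 164399) (nat_lit 256) (.e (nat_lit 57378) (nat_lit 3) (.e (nat_lit 98360) (nat_lit 26) .nil))) (.g (nat_lit 0) (.e (nat_lit 187841) (nat_lit 0) .nil) .nil)))) (.nd (nat_lit 9) 
(.lf (nat_lit 507352) (.g (nat_lit 902) (.e (nat_lit 164397) (nat_lit 256) (.e (nat_lit 57373) (nat_lit 2) (.e (nat_lit 90172) (nat_lit 14) .nil))) (.g (nat_lit 0) (.e (nat_lit 187548) (nat_lit 0) .nil) .nil))) 
(.lf (nat_lit 507864) (.g (nat_lit 3411) (.e (nat_lit 164402) (nat_lit 256) (.e (nat_lit 57371) (nat_lit 2) (.e (nat_lit 90174) (nat_lit 14) (.e (nat_lit 180243) (nat_lit 5) (.e (nat_lit 532515) (nat_lit 3) (.e (nat_lit 114716) (nat_lit 22) (.e (nat_lit 90129) (nat_lit 9) (.e (nat_lit 2606) (nat_lit 163) .nil)))))))) (.g (nat_lit 1) (.e (nat_lit 188112) (nat_lit 0) .nil) .nil))))))) 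
(.nd (nat_lit 6) (.nd (nat_lit 7) (.nd (nat_lit 8) (.nd (nat_lit 9) 
(.lf (nat_lit 506936) (.g (nat_lit 1562) (.e (nat_lit 164345) (nat_lit 240) (.e (nat_lit 2638) (nat_lit 165) (.e (nat_lit 180277) (nat_lit 32) (.e (nat_lit 1659) (nat_lit 115) (.e (nat_lit 393278) (nat_lit 23) .nil))))) (.g (nat_lit 0) (.e (nat_lit 185520) (nat_lit 0) .nil) .nil))) 
(.lf (nat_lit 507448) (.g (nat_lit 1041) (.e (nat_lit 164398) (nat_lit 256) (.e (nat_lit 57378) (nat_lit 3) (.e (nat_lit 98360) (nat_lit 26) .nil))) (.g (nat_lit 0) (.e (nat_lit 187650) (nat_lit 0) .nil) .nil)))) (.nd (nat_lit 9) 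
(.lf (nat_lit 507192) (.g (nat_lit 2394) (.e (nat_lit 164359) (nat_lit 246) (.e (nat_lit 2679) (nat_lit 168) (.e (nat_lit 204868) (nat_lit 29) (.e (nat_lit 360466) (nat_lit 3) (.e (nat_lit 516102) (nat_lit 0) (.e (nat_lit 7101) (nat_lit 380) .nil)))))) (.g (nat_lit 1) (.e (nat_lit 186723) (nat_lit 0) .nil) .nil))) 
(.lf (nat_lit 507704) (.g (nat_lit 820) (.e (nat_lit 164399) (nat_lit 256) (.e (nat_lit 57411) (nat_lit 12) (.e (nat_lit 336434) (nat_lit 30) .nil))) (.g (nat_lit 0) (.e (nat_lit 187943) (nat_lit 0) .nil) .nil))))) (.nd (nat_lit 8) (.nd (nat_lit 9) 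
(.lf (nat_lit 507064) (.g (nat_lit 4502) (.e (nat_lit 164348) (nat_lit 240) (.e (nat_lit 2610) (nat_lit 163) (.e (nat_lit 163977) (nat_lit 30) (.e (nat_lit 573493) (nat_lit 15) (.e (nat_lit 81953) (nat_lit 22) (.e (nat_lit 90170) (nat_lit 13) (.e (nat_lit 172061) (nat_lit 1) .nil))))))) (.g (nat_lit 1) (.e (nat_lit 186390) (nat_lit 0) .nil) .nil))) 
(.lf (nat_lit 507576) (.g (nat_lit 759) (.e (nat_lit 164399) (nat_lit 256) (.e (nat_lit 57377) (nat_lit 3) (.e (nat_lit 98357) (nat_lit 26) .nil))) (.g (nat_lit 0) (.e (nat_lit 187795) (nat_lit 0) .nil) .nil)))) (.nd (nat_lit 9) 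
(.lf (nat_lit 507320) (.g (nat_lit 2083) (.e (nat_lit 164396) (nat_lit 256) (.e (nat_lit 57407) (nat_lit 12) (.e (nat_lit 336443) (nat_lit 32) (.e (nat_lit 466974) (nat_lit 22) (.e (nat_lit 196656) (nat_lit 11) .nil))))) (.g (nat_lit 0) (.e (nat_lit 187516) (nat_lit 0) .nil) .nil))) 
(.lf (nat_lit 507832) (.g (nat_lit 922) (.e (nat_lit 164401) (nat_lit 256) (.e (nat_lit 57378) (nat_lit 3) (.e (nat_lit 98366) (nat_lit 27) .nil))) (.g (nat_lit 0) (.e (nat_lit 188078) (nat_lit 0) .nil) .nil)))))) (.nd (nat_lit 7) (.nd (nat_lit 8) (.nd (nat_lit 9) 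
(.lf (nat_lit 507000) (.g (nat_lit 2829) (.e (nat_lit 164347) (nat_lit 240) (.e (nat_lit 2610) (nat_lit 163) (.e (nat_lit 163979) (nat_lit 30) (.e (nat_lit 573493) (nat_lit 15) (.e (nat_lit 81954) (nat_lit 23) .nil))))) (.g (nat_lit 0) (.e (nat_lit 185980) (nat_lit 0) .nil) .nil))) 
(.lf (nat_lit 507512) (.g (nat_lit 2386) (.e (nat_lit 164399) (nat_lit 256) (.e (nat_lit 57370) (nat_lit 2) (.e (nat_lit 90170) (nat_lit 13) (.e (nat_lit 172067) (nat_lit 3) (.e (nat_lit 204837) (nat_lit 20) .nil))))) (.g (nat_lit 0) (.e (nat_lit 187720) (nat_lit 0) .nil) .nil)))) (.nd (nat_lit 9) 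
(.lf (nat_lit 507256) (.g (nat_lit 2167) (.e (nat_lit 164396) (nat_lit 256) (.e (nat_lit 57371) (nat_lit 2) (.e (nat_lit 90174) (nat_lit 14) (.e (nat_lit 180243) (nat_lit 5) (.e (nat_lit 532514) (nat_lit 3) .nil))))) (.g (nat_lit 0) (.e (nat_lit 187451) (nat_lit 0) .nil) .nil))) 
(.lf (nat_lit 507768) (.g (nat_lit 1914) (.e (nat_lit 164400) (nat_lit 256) (.e (nat_lit 57378) (nat_lit 3) (.e (nat_lit 98365) (nat_lit 26) (.e (nat_lit 426187) (nat_lit 9) .nil)))) (.g (nat_lit 0) (.e (nat_lit 188011) (nat_lit 0) .nil) .nil))))) (.nd (nat_lit 8) (.nd (nat_lit 9) 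
(.lf (nat_lit 507128) (.g (nat_lit 1284) (.e (nat_lit 164353) (nat_lit 246) (.e (nat_lit 351) (nat_lit 28) (.e (nat_lit 393271) (nat_lit 23) (.e (nat_lit 426432) (nat_lit 17) (.e (nat_lit 90203) (nat_lit 21) .nil))))) (.g (nat_lit 0) (.e (nat_lit 186645) (nat_lit 0) .nil) .nil))) 
(.lf (nat_lit 507640) (.g (nat_lit 781) (.e (nat_lit 164399) (nat_lit 256) (.e (nat_lit 57379) (nat_lit 3) (.e (nat_lit 98354) (nat_lit 26) .nil))) (.g (nat_lit 0) (.e (nat_lit 187873) (nat_lit 0) .nil) .nil)))) (.nd (nat_lit 9) 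
(.lf (nat_lit 507384) (.g (nat_lit 1690) (.e (nat_lit 164397) (nat_lit 256) (.e (nat_lit 57409) (nat_lit 12) (.e (nat_lit 336443) (nat_lit 32) (.e (nat_lit 466979) (nat_lit 23) .nil)))) (.g (nat_lit 0) (.e (nat_lit 187580) (nat_lit 0) .nil) .nil))) 
(.lf (nat_lit 507896) (.g (nat_lit 1464) (.e (nat_lit 164402) (nat_lit 256) (.e (nat_lit 57377) (nat_lit 3) (.e (nat_lit 98370) (nat_lit 28) (.e (nat_lit 450304) (nat_lit 18) .nil)))) (.g (nat_lit 0) (.e (nat_lit 188146) (nat_lit 0) .nil) .nil)))))))))) (.nd (nat_lit 3) (.nd (nat_lit 4) (.nd (nat_lit 5) (.nd (nat_lit 6) (.nd (nat_lit 7) (.nd (nat_lit 8) (.nd (nat_lit 9) 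
(.lf (nat_lit 506884) (.g (nat_lit 343) (.e (nat_lit 164319) (nat_lit 228) (.e (nat_lit 57412) (nat_lit 12) (.e (nat_lit 336173) (nat_lit 10) .nil))) (.g (nat_lit 0) (.e (nat_lit 185250) (nat_lit 0) .nil) .nil))) 
(.lf (nat_lit 507396) (.g (nat_lit 1419) (.e (nat_lit 164398) (nat_lit 256) (.e (nat_lit 57371) (nat_lit 2) (.e (nat_lit 90178) (nat_lit 15) (.e (nat_lit 196352) (nat_lit 11) .nil)))) (.g (nat_lit 0) (.e (nat_lit 187593) (nat_lit 0) .nil) .nil)))) (.nd (nat_lit 9) 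
(.lf (nat_lit 507140) (.g (nat_lit 1995) (.e (nat_lit 164354) (nat_lit 246) (.e (nat_lit 351) (nat_lit 28) (.e (nat_lit 393271) (nat_lit 23) (.e (nat_lit 426428) (nat_lit 17) (.e (nat_lit 90203) (nat_lit 21) .nil))))) (.g (nat_lit 0) (.e (nat_lit 186661) (nat_lit 0) .nil) .nil))) 
(.lf (nat_lit 507652) (.g (nat_lit 2546) (.e (nat_lit 164399) (nat_lit 256) (.e (nat_lit 57379) (nat_lit 3) (.e (nat_lit 98365) (nat_lit 26) (.e (nat_lit 426325) (nat_lit 13) (.e (nat_lit 483337) (nat_lit 9) (.e (nat_lit 433920) (nat_lit 1) .nil)))))) (.g (nat_lit 1) (.e (nat_lit 187885) (nat_lit 0) .nil) .nil))))) (.nd (nat_lit 8) (.nd (nat_lit 9) 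
(.lf (nat_lit 507012) (.g (nat_lit 1011) (.e (nat_lit 164347) (nat_lit 240) (.e (nat_lit 2619) (nat_lit 164) (.e (nat_lit 172124) (nat_lit 14) (.e (nat_lit 491549) (nat_lit 9) .nil)))) (.g (nat_lit 0) (.e (nat_lit 186043) (nat_lit 0) .nil) .nil))) 
(.lf (nat_lit 507524) (.g (nat_lit 1397) (.e (nat_lit 164399) (nat_lit 256) (.e (nat_lit 57371) (nat_lit 2) (.e (nat_lit 90178) (nat_lit 15) (.e (nat_lit 188421) (nat_lit 11) .nil)))) (.g (nat_lit 0) (.e (nat_lit 187732) (nat_lit 0) .nil) .nil)))) (.nd (nat_lit 9) 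
(.lf (nat_lit 507268) (.g (nat_lit 1221) (.e (nat_lit 164396) (nat_lit 256) (.e (nat_lit 57371) (nat_lit 2) (.e (nat_lit 90176) (nat_lit 15) (.e (nat_lit 188423) (nat_lit 11) (.e (nat_lit 336387) (nat_lit 27) .nil))))) (.g (nat_lit 0) (.e (nat_lit 187463) (nat_lit 0) .nil) .nil))) 
(.lf (nat_lit 507780) (.g (nat_lit 2330) (.e (nat_lit 164400) (nat_lit 256) (.e (nat_lit 57407) (nat_lit 12) (.e (nat_lit 336443) (nat_lit 32) (.e (nat_lit 466977) (nat_lit 22) (.e (nat_lit 196656) (nat_lit 11) .nil))))) (.g (nat_lit 0) (.e (nat_lit 188023) (nat_lit 0) .nil) .nil)))))) (.nd (nat_lit 7) (.nd (nat_lit 8) (.nd (nat_lit 9) 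
(.lf (nat_lit 506948) (.g (nat_lit 1257) (.e (nat_lit 164345) (nat_lit 240) (.e (nat_lit 2640) (nat_lit 165) (.e (nat_lit 180277) (nat_lit 32) (.e (nat_lit 1659) (nat_lit 115) (.e (nat_lit 393278) (nat_lit 23) .nil))))) (.g (nat_lit 0) (.e (nat_lit 185550) (nat_lit 0) .nil) .nil))) 
(.lf (nat_lit 507460) (.g (nat_lit 250) (.e (nat_lit 164398) (nat_lit 256) (.e (nat_lit 57378) (nat_lit 3) (.e (nat_lit 98381) (nat_lit 31) .nil))) (.g (nat_lit 0) (.e (nat_lit 187664) (nat_lit 0) .nil) .nil)))) (.nd (nat_lit 9) 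
(.lf (nat_lit 507204) (.g (nat_lit 2659) (.e (nat_lit 164359) (nat_lit 246) (.e (nat_lit 3062) (nat_lit 190) (.e (nat_lit 475211) (nat_lit 41) (.e (nat_lit 712753) (nat_lit 30) (.e (nat_lit 450595) (nat_lit 17) (.e (nat_lit 671488) (nat_lit 17) .nil)))))) (.g (nat_lit 1) (.e (nat_lit 186761) (nat_lit 0) .nil) .nil))) 
(.lf (nat_lit 507716) (.g (nat_lit 606) (.e (nat_lit 164399) (nat_lit 256) (.e (nat_lit 57445) (nat_lit 19) (.e (nat_lit 393296) (nat_lit 26) .nil))) (.g (nat_lit 0) (.e (nat_lit 187958) (nat_lit 0) .nil) .nil))))) (.nd (nat_lit 8) (.nd (nat_lit 9) 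
(.lf (nat_lit 507076) (.g (nat_lit 4657) (.e (nat_lit 164348) (nat_lit 240) (.e (nat_lit 2610) (nat_lit 163) (.e (nat_lit 163979) (nat_lit 30) (.e (nat_lit 573492) (nat_lit 15) (.e (nat_lit 81956) (nat_lit 23) (.e (nat_lit 98356) (nat_lit 26) (.e (nat_lit 433920) (nat_lit 1) .nil))))))) (.g (nat_lit 1) (.e (nat_lit 186402) (nat_lit 0) .nil) .nil))) 
(.lf (nat_lit 507588) (.g (nat_lit 1486) (.e (nat_lit 164399) (nat_lit 256) (.e (nat_lit 57377) (nat_lit 3) (.e (nat_lit 98369) (nat_lit 28) (.e (nat_lit 442390) (nat_lit 11) (.e (nat_lit 336387) (nat_lit 27) .nil))))) (.g (nat_lit 0) (.e (nat_lit 187819) (nat_lit 0) .nil) .nil)))) (.nd (nat_lit 9) 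
(.lf (nat_lit 507332) (.g (nat_lit 721) (.e (nat_lit 164397) (nat_lit 256) (.e (nat_lit 57371) (nat_lit 2) (.e (nat_lit 90167) (nat_lit 13) .nil))) (.g (nat_lit 0) (.e (nat_lit 187528) (nat_lit 0) .nil) .nil))) 
(.lf (nat_lit 507844) (.g (nat_lit 1480) (.e (nat_lit 164401) (nat_lit 256) (.e (nat_lit 57404) (nat_lit 12) (.e (nat_lit 336443) (nat_lit 32) (.e (nat_lit 466981) (nat_lit 23) (.e (nat_lit 204809) (nat_lit 9) .nil))))) (.g (nat_lit 0) (.e (nat_lit 188090) (nat_lit 0) .nil) .nil))))))) (.nd (nat_lit 6) (.nd (nat_lit 7) (.nd (nat_lit 8) (.nd (nat_lit 9) 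
(.lf (nat_lit 506916) (.g (nat_lit 2777) (.e (nat_lit 164345) (nat_lit 240) (.e (nat_lit 2611) (nat_lit 163) (.e (nat_lit 163978) (nat_lit 30) (.e (nat_lit 573479) (nat_lit 13) (.e (nat_lit 65619) (nat_lit 10) .nil))))) (.g (nat_lit 0) (.e (nat_lit 185331) (nat_lit 0) .nil) .nil))) 
(.lf (nat_lit 507428) (.g (nat_lit 1039) (.e (nat_lit 164398) (nat_lit 256) (.e (nat_lit 57373) (nat_lit 2) (.e (nat_lit 90178) (nat_lit 15) (.e (nat_lit 188421) (nat_lit 11) .nil)))) (.g (nat_lit 0) (.e (nat_lit 187626) (nat_lit 0) .nil) .nil)))) (.nd (nat_lit 9) 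
(.lf (nat_lit 507172) (.g (nat_lit 196) (.e (nat_lit 164358) (nat_lit 246) (.e (nat_lit 351) (nat_lit 28) (.e (nat_lit 393291) (nat_lit 26) .nil))) (.g (nat_lit 0) (.e (nat_lit 186700) (nat_lit 0) .nil) .nil))) 
(.lf (nat_lit 507684) (.g (nat_lit 1154) (.e (nat_lit 164399) (nat_lit 256) (.e (nat_lit 57407) (nat_lit 12) (.e (nat_lit 336427) (nat_lit 29) (.e (nat_lit 442427) (nat_lit 23) .nil)))) (.g (nat_lit 0) (.e (nat_lit 187922) (nat_lit 0) .nil) .nil))))) (.nd (nat_lit 8) (.nd (nat_lit 9) 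
(.lf (nat_lit 507044) (.g (nat_lit 1776) (.e (nat_lit 164347) (nat_lit 240) (.e (nat_lit 2640) (nat_lit 165) (.e (nat_lit 180278) (nat_lit 32) (.e (nat_lit 1661) (nat_lit 115) (.e (nat_lit 393280) (nat_lit 23) .nil))))) (.g (nat_lit 0) (.e (nat_lit 186243) (nat_lit 0) .nil) .nil))) 
(.lf (nat_lit 507556) (.g (nat_lit 2383) (.e (nat_lit 164399) (nat_lit 256) (.e (nat_lit 57373) (nat_lit 2) (.e (nat_lit 90174) (nat_lit 14) (.e (nat_lit 180243) (nat_lit 5) (.e (nat_lit 532515) (nat_lit 3) (.e (nat_lit 114716) (nat_lit 22) (.e (nat_lit 90137) (nat_lit 9) (.e (nat_lit 2600) (nat_lit 163) .nil)))))))) (.g (nat_lit 1) (.e (nat_lit 187774) (nat_lit 0) .nil) .nil)))) (.nd (nat_lit 9) 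
(.lf (nat_lit 507300) (.g (nat_lit 2410) (.e (nat_lit 164396) (nat_lit 256) (.e (nat_lit 57378) (nat_lit 3) (.e (nat_lit 98365) (nat_lit 26) (.e (nat_lit 426187) (nat_lit 9) (.e (nat_lit 426566) (nat_lit 34) .nil))))) (.g (nat_lit 0) (.e (nat_lit 187496) (nat_lit 0) .nil) .nil))) 
(.lf (nat_lit 507812) (.g (nat_lit 3244) (.e (nat_lit 164401) (nat_lit 256) (.e (nat_lit 57377) (nat_lit 3) (.e (nat_lit 98358) (nat_lit 26) (.e (nat_lit 426131) (nat_lit 3) (.e (nat_lit 204838) (nat_lit 20) .nil))))) (.g (nat_lit 0) (.e (nat_lit 188055) (nat_lit 0) .nil) .nil)))))) (.nd (nat_lit 7) (.nd (nat_lit 8) (.nd (nat_lit 9) 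
(.lf (nat_lit 506980) (.g (nat_lit 3375) (.e (nat_lit 164346) (nat_lit 240) (.e (nat_lit 2638) (nat_lit 165) (.e (nat_lit 180278) (nat_lit 32) (.e (nat_lit 1428) (nat_lit 108) (.e (nat_lit 336430) (nat_lit 29) (.e (nat_lit 442419) (nat_lit 21) .nil)))))) (.g (nat_lit 1) (.e (nat_lit 185841) (nat_lit 0) .nil) .nil))) 
(.lf (nat_lit 507492) (.g (nat_lit 955) (.e (nat_lit 164398) (nat_lit 256) (.e (nat_lit 57409) (nat_lit 12) (.e (nat_lit 336430) (nat_lit 29) (.e (nat_lit 442422) (nat_lit 22) .nil)))) (.g (nat_lit 0) (.e (nat_lit 187696) (nat_lit 0) .nil) .nil)))) (.nd (nat_lit 9) 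
(.lf (nat_lit 507236) (.g (nat_lit 4765) (.e (nat_lit 164375) (nat_lit 252) (.e (nat_lit 229433) (nat_lit 25) (.e (nat_lit 532550) (nat_lit 12) (.e (nat_lit 360475) (nat_lit 8) (.e (nat_lit 557068) (nat_lit 9) (.e (nat_lit 22) (nat_lit 0) (.e (nat_lit 6236) (nat_lit 335) .nil))))))) (.g (nat_lit 1) (.e (nat_lit 187287) (nat_lit 0) .nil) .nil))) 
(.lf (nat_lit 507748) (.g (nat_lit 2542) (.e (nat_lit 164400) (nat_lit 256) (.e (nat_lit 57373) (nat_lit 2) (.e (nat_lit 90174) (nat_lit 14) (.e (nat_lit 180243) (nat_lit 5) (.e (nat_lit 532513) (nat_lit 3) .nil))))) (.g (nat_lit 0) (.e (nat_lit 187991) (nat_lit 0) .nil) .nil))))) (.nd (nat_lit 8) (.nd (nat_lit 9) 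
(.lf (nat_lit 507108) (.g (nat_lit 1319) (.e (nat_lit 171776) (nat_lit 244) (.e (nat_lit 163875) (nat_lit 3) (.e (nat_lit 204862) (nat_lit 27) (.e (nat_lit 344129) (nat_lit 26) .nil)))) (.g (nat_lit 0) (.e (nat_lit 186559) (nat_lit 0) .nil) .nil))) 
(.lf (nat_lit 507620) (.g (nat_lit 3225) (.e (nat_lit 164399) (nat_lit 256) (.e (nat_lit 57378) (nat_lit 3) (.e (nat_lit 98366) (nat_lit 27) (.e (nat_lit 434231) (nat_lit 23) (.e (nat_lit 532483) (nat_lit 0) .nil))))) (.g (nat_lit 0) (.e (nat_lit 187853) (nat_lit 0) .nil) .nil)))) (.nd (nat_lit 9) 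
(.lf (nat_lit 507364) (.g (nat_lit 2095) (.e (nat_lit 164397) (nat_lit 256) (.e (nat_lit 57374) (nat_lit 2) (.e (nat_lit 90174) (nat_lit 14) (.e (nat_lit 180243) (nat_lit 5) (.e (nat_lit 532513) (nat_lit 3) .nil))))) (.g (nat_lit 0) (.e (nat_lit 187560) (nat_lit 0) .nil) .nil))) 
(.lf (nat_lit 507876) (.g (nat_lit 1565) (.e (nat_lit 164402) (nat_lit 256) (.e (nat_lit 57373) (nat_lit 2) (.e (nat_lit 90170) (nat_lit 13) (.e (nat_lit 172123) (nat_lit 13) .nil)))) (.g (nat_lit 0) (.e (nat_lit 188124) (nat_lit 0) .nil) .nil)))))))) (.nd (nat_lit 5) (.nd (nat_lit 6) (.nd (nat_lit 7) (.nd (nat_lit 8) (.nd (nat_lit 9) 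
(.lf (nat_lit 506900) (.g (nat_lit 3147) (.e (nat_lit 164319) (nat_lit 228) (.e (nat_lit 57424) (nat_lit 14) (.e (nat_lit 352318) (nat_lit 24) (.e (nat_lit 123160) (nat_lit 254) (.e (nat_lit 163920) (nat_lit 14) (.e (nat_lit 442421) (nat_lit 21) .nil)))))) (.g (nat_lit 1) (.e (nat_lit 185279) (nat_lit 0) .nil) .nil))) 
(.lf (nat_lit 507412) (.g (nat_lit 1682) (.e (nat_lit 164398) (nat_lit 256) (.e (nat_lit 57372) (nat_lit 2) (.e (nat_lit 90185) (nat_lit 17) (.e (nat_lit 237624) (nat_lit 13) (.e (nat_lit 483336) (nat_lit 9) .nil))))) (.g (nat_lit 0) (.e (nat_lit 187609) (nat_lit 0) .nil) .nil)))) (.nd (nat_lit 9) 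
(.lf (nat_lit 507156) (.g (nat_lit 478) (.e (nat_lit 164358) (nat_lit 246) (.e (nat_lit 112) (nat_lit 3) (.e (nat_lit 98380) (nat_lit 31) (.e (nat_lit 466952) (nat_lit 11) .nil)))) (.g (nat_lit 0) (.e (nat_lit 186679) (nat_lit 0) .nil) .nil))) 
(.lf (nat_lit 507668) (.g (nat_lit 3920) (.e (nat_lit 164399) (nat_lit 256) (.e (nat_lit 57388) (nat_lit 5) (.e (nat_lit 114714) (nat_lit 22) (.e (nat_lit 90158) (nat_lit 11) (.e (nat_lit 24648) (nat_lit 12) (.e (nat_lit 385066) (nat_lit 26) (.e (nat_lit 540416) (nat_lit 18) .nil))))))) (.g (nat_lit 1) (.e (nat_lit 187901) (nat_lit 0) .nil) .nil))))) (.nd (nat_lit 8) (.nd (nat_lit 9) 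
(.lf (nat_lit 507028) (.g (nat_lit 808) (.e (nat_lit 164347) (nat_lit 240) (.e (nat_lit 2638) (nat_lit 165) (.e (nat_lit 180278) (nat_lit 32) (.e (nat_lit 1427) (nat_lit 108) .nil)))) (.g (nat_lit 0) (.e (nat_lit 186216) (nat_lit 0) .nil) .nil))) 
(.lf (nat_lit 507540) (.g (nat_lit 1448) (.e (nat_lit 164399) (nat_lit 256) (.e (nat_lit 57372) (nat_lit 2) (.e (nat_lit 90174) (nat_lit 14) (.e (nat_lit 180245) (nat_lit 5) .nil)))) (.g (nat_lit 0) (.e (nat_lit 187757) (nat_lit 0) .nil) .nil)))) (.nd (nat_lit 9) 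
(.lf (nat_lit 507284) (.g (nat_lit 2660) (.e (nat_lit 164396) (nat_lit 256) (.e (nat_lit 57374) (nat_lit 2) (.e (nat_lit 90170) (nat_lit 13) (.e (nat_lit 172065) (nat_lit 3) (.e (nat_lit 204838) (nat_lit 20) .nil))))) (.g (nat_lit 0) (.e (nat_lit 187479) (nat_lit 0) .nil) .nil))) 
(.lf (nat_lit 507796) (.g (nat_lit 2422) (.e (nat_lit 164401) (nat_lit 256) (.e (nat_lit 57373) (nat_lit 2) (.e (nat_lit 90170) (nat_lit 13) (.e (nat_lit 172122) (nat_lit 13) (.e (nat_lit 483337) (nat_lit 9) .nil))))) (.g (nat_lit 0) (.e (nat_lit 188039) (nat_lit 0) .nil) .nil)))))) (.nd (nat_lit 7) (.nd (nat_lit 8) (.nd (nat_lit 9) 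
(.lf (nat_lit 506964) (.g (nat_lit 963) (.e (nat_lit 164346) (nat_lit 240) (.e (nat_lit 2619) (nat_lit 164) (.e (nat_lit 172118) (nat_lit 12) (.e (nat_lit 475198) (nat_lit 40) .nil)))) (.g (nat_lit 0) (.e (nat_lit 185755) (nat_lit 0) .nil) .nil))) 
(.lf (nat_lit 507476) (.g (nat_lit 1647) (.e (nat_lit 164398) (nat_lit 256) (.e (nat_lit 57379) (nat_lit 3) (.e (nat_lit 98367) (nat_lit 27) (.e (nat_lit 434234) (nat_lit 23) .nil)))) (.g (nat_lit 0) (.e (nat_lit 187680) (nat_lit 0) .nil) .nil)))) (.nd (nat_lit 9) 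
(.lf (nat_lit 507220) (.g (nat_lit 1457) (.e (nat_lit 164363) (nat_lit 246) (.e (nat_lit 2654) (nat_lit 167) (.e (nat_lit 196672) (nat_lit 15) (.e (nat_lit 81954) (nat_lit 23) (.e (nat_lit 98325) (nat_lit 17) .nil))))) (.g (nat_lit 0) (.e (nat_lit 186883) (nat_lit 0) .nil) .nil))) 
(.lf (nat_lit 507732) (.g (nat_lit 1994) (.e (nat_lit 164400) (nat_lit 256) (.e (nat_lit 57372) (nat_lit 2) (.e (nat_lit 90172) (nat_lit 14) (.e (nat_lit 180244) (nat_lit 5) (.e (nat_lit 532515) (nat_lit 3) .nil))))) (.g (nat_lit 0) (.e (nat_lit 187975) (nat_lit 0) .nil) .nil))))) (.nd (nat_lit 8) (.nd (nat_lit 9) 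
(.lf (nat_lit 507092) (.g (nat_lit 2061) (.e (nat_lit 164348) (nat_lit 240) (.e (nat_lit 2629) (nat_lit 164) (.e (nat_lit 172120) (nat_lit 12) (.e (nat_lit 475209) (nat_lit 41) (.e (nat_lit 712752) (nat_lit 29) .nil))))) (.g (nat_lit 0) (.e (nat_lit 186475) (nat_lit 0) .nil) .nil))) 
(.lf (nat_lit 507604) (.g (nat_lit 1708) (.e (nat_lit 164399) (nat_lit 256) (.e (nat_lit 57378) (nat_lit 3) (.e (nat_lit 98358) (nat_lit 26) (.e (nat_lit 426322) (nat_lit 13) .nil)))) (.g (nat_lit 0) (.e (nat_lit 187837) (nat_lit 0) .nil) .nil)))) (.nd (nat_lit 9) 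
(.lf (nat_lit 507348) (.g (nat_lit 1100) (.e (nat_lit 164397) (nat_lit 256) (.e (nat_lit 57372) (nat_lit 2) (.e (nat_lit 90176) (nat_lit 15) (.e (nat_lit 188421) (nat_lit 11) .nil)))) (.g (nat_lit 0) (.e (nat_lit 187544) (nat_lit 0) .nil) .nil))) 
(.lf (nat_lit 507860) (.g (nat_lit 2490) (.e (nat_lit 164402) (nat_lit 256) (.e (nat_lit 57371) (nat_lit 2) (.e (nat_lit 90174) (nat_lit 14) (.e (nat_lit 180243) (nat_lit 5) (.e (nat_lit 532513) (nat_lit 3) (.e (nat_lit 114714) (nat_lit 22) (.e (nat_lit 90137) (nat_lit 9) (.e (nat_lit 2607) (nat_lit 163) .nil)))))))) (.g (nat_lit 1) (.e (nat_lit 188108) (nat_lit 0) .nil) .nil))))))) 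
(.nd (nat_lit 6) (.nd (nat_lit 7) (.nd (nat_lit 8) (.nd (nat_lit 9) 
(.lf (nat_lit 506932) (.g (nat_lit 1960) (.e (nat_lit 164345) (nat_lit 240) (.e (nat_lit 2629) (nat_lit 164) (.e (nat_lit 172120) (nat_lit 12) (.e (nat_lit 475198) (nat_lit 40) (.e (nat_lit 704598) (nat_lit 6) (.e (nat_lit 188444) (nat_lit 21) .nil)))))) (.g (nat_lit 1) (.e (nat_lit 185485) (nat_lit 0) .nil) .nil))) 
(.lf (nat_lit 507444) (.g (nat_lit 674) (.e (nat_lit 164398) (nat_lit 256) (.e (nat_lit 57377) (nat_lit 3) (.e (nat_lit 98382) (nat_lit 31) .nil))) (.g (nat_lit 0) (.e (nat_lit 187645) (nat_lit 0) .nil) .nil)))) (.nd (nat_lit 9) 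
(.lf (nat_lit 507188) (.g (nat_lit 2308) (.e (nat_lit 164359) (nat_lit 246) (.e (nat_lit 2661) (nat_lit 167) (.e (nat_lit 196672) (nat_lit 15) (.e (nat_lit 81951) (nat_lit 22) (.e (nat_lit 90165) (nat_lit 12) (.e (nat_lit 164218) (nat_lit 179) .nil)))))) (.g (nat_lit 1) (.e (nat_lit 186719) (nat_lit 0) .nil) .nil))) 
(.lf (nat_lit 507700) (.g (nat_lit 1519) (.e (nat_lit 164399) (nat_lit 256) (.e (nat_lit 57409) (nat_lit 12) (.e (nat_lit 336434) (nat_lit 30) (.e (nat_lit 450579) (nat_lit 5) (.e (nat_lit 532582) (nat_lit 26) .nil))))) (.g (nat_lit 0) (.e (nat_lit 187939) (nat_lit 0) .nil) .nil))))) (.nd (nat_lit 8) (.nd (nat_lit 9) 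
(.lf (nat_lit 507060) (.g (nat_lit 3865) (.e (nat_lit 164348) (nat_lit 240) (.e (nat_lit 2610) (nat_lit 163) (.e (nat_lit 163977) (nat_lit 30) (.e (nat_lit 573491) (nat_lit 15) (.e (nat_lit 81951) (nat_lit 22) (.e (nat_lit 90185) (nat_lit 17) (.e (nat_lit 237584) (nat_lit 1) .nil))))))) (.g (nat_lit 1) (.e (nat_lit 186386) (nat_lit 0) .nil) .nil))) 
(.lf (nat_lit 507572) (.g (nat_lit 1799) (.e (nat_lit 164399) (nat_lit 256) (.e (nat_lit 57375) (nat_lit 2) (.e (nat_lit 90176) (nat_lit 15) (.e (nat_lit 188421) (nat_lit 11) (.e (nat_lit 336387) (nat_lit 27) .nil))))) (.g (nat_lit 0) (.e (nat_lit 187791) (nat_lit 0) .nil) .nil)))) (.nd (nat_lit 9) 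
(.lf (nat_lit 507316) (.g (nat_lit 990) (.e (nat_lit 164396) (nat_lit 256) (.e (nat_lit 57379) (nat_lit 3) (.e (nat_lit 98377) (nat_lit 30) .nil))) (.g (nat_lit 0) (.e (nat_lit 187512) (nat_lit 0) .nil) .nil))) 
(.lf (nat_lit 507828) (.g (nat_lit 1147) (.e (nat_lit 164401) (nat_lit 256) (.e (nat_lit 57378) (nat_lit 3) (.e (nat_lit 98365) (nat_lit 26) (.e (nat_lit 426187) (nat_lit 9) .nil)))) (.g (nat_lit 0) (.e (nat_lit 188074) (nat_lit 0) .nil) .nil)))))) (.nd (nat_lit 7) (.nd (nat_lit 8) (.nd (nat_lit 9) 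
(.lf (nat_lit 506996) (.g (nat_lit 2392) (.e (nat_lit 164347) (nat_lit 240) (.e (nat_lit 2610) (nat_lit 163) (.e (nat_lit 163979) (nat_lit 30) (.e (nat_lit 573491) (nat_lit 15) (.e (nat_lit 81951) (nat_lit 22) .nil))))) (.g (nat_lit 0) (.e (nat_lit 185976) (nat_lit 0) .nil) .nil))) 
(.lf (nat_lit 507508) (.g (nat_lit 2447) (.e (nat_lit 164398) (nat_lit 256) (.e (nat_lit 57447) (nat_lit 19) (.e (nat_lit 393301) (nat_lit 27) (.e (nat_lit 491525) (nat_lit 0) (.e (nat_lit 1855) (nat_lit 124) .nil))))) (.g (nat_lit 0) (.e (nat_lit 187713) (nat_lit 0) .nil) .nil)))) (.nd (nat_lit 9) 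
(.lf (nat_lit 507252) (.g (nat_lit 1541) (.e (nat_lit 164396) (nat_lit 256) (.e (nat_lit 57371) (nat_lit 2) (.e (nat_lit 90169) (nat_lit 13) (.e (nat_lit 172121) (nat_lit 13) (.e (nat_lit 483337) (nat_lit 9) .nil))))) (.g (nat_lit 0) (.e (nat_lit 187447) (nat_lit 0) .nil) .nil))) 
(.lf (nat_lit 507764) (.g (nat_lit 1425) (.e (nat_lit 164400) (nat_lit 256) (.e (nat_lit 57375) (nat_lit 2) (.e (nat_lit 90178) (nat_lit 15) (.e (nat_lit 196352) (nat_lit 18) .nil)))) (.g (nat_lit 0) (.e (nat_lit 188007) (nat_lit 0) .nil) .nil))))) (.nd (nat_lit 8) (.nd (nat_lit 9) 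
(.lf (nat_lit 507124) (.g (nat_lit 1291) (.e (nat_lit 164353) (nat_lit 246) (.e (nat_lit 351) (nat_lit 28) (.e (nat_lit 393268) (nat_lit 23) (.e (nat_lit 426432) (nat_lit 17) (.e (nat_lit 90203) (nat_lit 21) .nil))))) (.g (nat_lit 0) (.e (nat_lit 186641) (nat_lit 0) .nil) .nil))) 
(.lf (nat_lit 507636) (.g (nat_lit 1077) (.e (nat_lit 164399) (nat_lit 256) (.e (nat_lit 57378) (nat_lit 3) (.e (nat_lit 98381) (nat_lit 31) (.e (nat_lit 466951) (nat_lit 11) .nil)))) (.g (nat_lit 0) (.e (nat_lit 187869) (nat_lit 0) .nil) .nil)))) (.nd (nat_lit 9) 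
(.lf (nat_lit 507380) (.g (nat_lit 887) (.e (nat_lit 164397) (nat_lit 256) (.e (nat_lit 57379) (nat_lit 3) (.e (nat_lit 98377) (nat_lit 30) .nil))) (.g (nat_lit 0) (.e (nat_lit 187576) (nat_lit 0) .nil) .nil))) 
(.lf (nat_lit 507892) (.g (nat_lit 723) (.e (nat_lit 164402) (nat_lit 256) (.e (nat_lit 57377) (nat_lit 3) (.e (nat_lit 98357) (nat_lit 26) .nil))) (.g (nat_lit 0) (.e (nat_lit 188140) (nat_lit 0) .nil) .nil))))))))) (.nd (nat_lit 4) (.nd (nat_lit 5) (.nd (nat_lit 6) (.nd (nat_lit 7) (.nd (nat_lit 8) (.nd (nat_lit 9) 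
(.lf (nat_lit 506892) (.g (nat_lit 1640) (.e (nat_lit 164319) (nat_lit 228) (.e (nat_lit 57412) (nat_lit 12) (.e (nat_lit 336176) (nat_lit 10) (.e (nat_lit 344156) (nat_lit 36) (.e (nat_lit 639001) (nat_lit 10) .nil))))) (.g (nat_lit 0) (.e (nat_lit 185260) (nat_lit 0) .nil) .nil))) 
(.lf (nat_lit 507404) (.g (nat_lit 1546) (.e (nat_lit 164398) (nat_lit 256) (.e (nat_lit 57372) (nat_lit 2) (.e (nat_lit 90174) (nat_lit 14) (.e (nat_lit 180245) (nat_lit 5) .nil)))) (.g (nat_lit 0) (.e (nat_lit 187601) (nat_lit 0) .nil) .nil)))) (.nd (nat_lit 9) 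
(.lf (nat_lit 507148) (.g (nat_lit 699) (.e (nat_lit 164356) (nat_lit 246) (.e (nat_lit 351) (nat_lit 28) (.e (nat_lit 393279) (nat_lit 23) (.e (nat_lit 426429) (nat_lit 17) (.e (nat_lit 90203) (nat_lit 21) .nil))))) (.g (nat_lit 0) (.e (nat_lit 186670) (nat_lit 0) .nil) .nil))) 
(.lf (nat_lit 507660) (.g (nat_lit 2179) (.e (nat_lit 164399) (nat_lit 256) (.e (nat_lit 57379) (nat_lit 3) (.e (nat_lit 98367) (nat_lit 27) (.e (nat_lit 434231) (nat_lit 23) (.e (nat_lit 532513) (nat_lit 3) .nil))))) (.g (nat_lit 0) (.e (nat_lit 187893) (nat_lit 0) .nil) .nil))))) (.nd (nat_lit 8) (.nd (nat_lit 9) 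
(.lf (nat_lit 507020) (.g (nat_lit 2053) (.e (nat_lit 164347) (nat_lit 240) (.e (nat_lit 2629) (nat_lit 164) (.e (nat_lit 172124) (nat_lit 14) (.e (nat_lit 491547) (nat_lit 9) (.e (nat_lit 336443) (nat_lit 32) .nil))))) (.g (nat_lit 0) (.e (nat_lit 186169) (nat_lit 0) .nil) .nil))) 
(.lf (nat_lit 507532) (.g (nat_lit 2323) (.e (nat_lit 164399) (nat_lit 256) (.e (nat_lit 57372) (nat_lit 2) (.e (nat_lit 90170) (nat_lit 13) (.e (nat_lit 172121) (nat_lit 13) .nil)))) (.g (nat_lit 0) (.e (nat_lit 187749) (nat_lit 0) .nil) .nil)))) (.nd (nat_lit 9) 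
(.lf (nat_lit 507276) (.g (nat_lit 2449) (.e (nat_lit 164396) (nat_lit 256) (.e (nat_lit 57372) (nat_lit 2) (.e (nat_lit 90174) (nat_lit 14) (.e (nat_lit 180243) (nat_lit 5) (.e (nat_lit 532515) (nat_lit 3) .nil))))) (.g (nat_lit 0) (.e (nat_lit 187471) (nat_lit 0) .nil) .nil))) 
(.lf (nat_lit 507788) (.g (nat_lit 1350) (.e (nat_lit 164401) (nat_lit 256) (.e (nat_lit 57370) (nat_lit 2) (.e (nat_lit 90176) (nat_lit 15) (.e (nat_lit 188423) (nat_lit 11) (.e (nat_lit 336387) (nat_lit 27) .nil))))) (.g (nat_lit 0) (.e (nat_lit 188031) (nat_lit 0) .nil) .nil)))))) (.nd (nat_lit 7) (.nd (nat_lit 8) (.nd (nat_lit 9) 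
(.lf (nat_lit 506956) (.g (nat_lit 2882) (.e (nat_lit 164346) (nat_lit 240) (.e (nat_lit 2610) (nat_lit 163) (.e (nat_lit 163978) (nat_lit 30) (.e (nat_lit 573479) (nat_lit 13) (.e (nat_lit 65604) (nat_lit 9) .nil))))) (.g (nat_lit 0) (.e (nat_lit 185732) (nat_lit 0) .nil) .nil))) 
(.lf (nat_lit 507468) (.g (nat_lit 2805) (.e (nat_lit 164398) (nat_lit 256) (.e (nat_lit 57379) (nat_lit 3) (.e (nat_lit 98365) (nat_lit 26) (.e (nat_lit 426188) (nat_lit 9) (.e (nat_lit 426566) (nat_lit 34) (.e (nat_lit 393250) (nat_lit 18) .nil)))))) (.g (nat_lit 1) (.e (nat_lit 187672) (nat_lit 0) .nil) .nil)))) (.nd (nat_lit 9) 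
(.lf (nat_lit 507212) (.g (nat_lit 1120) (.e (nat_lit 164362) (nat_lit 246) (.e (nat_lit 2661) (nat_lit 167) (.e (nat_lit 196673) (nat_lit 15) (.e (nat_lit 81951) (nat_lit 22) (.e (nat_lit 90165) (nat_lit 12) .nil))))) (.g (nat_lit 0) (.e (nat_lit 186826) (nat_lit 0) .nil) .nil))) 
(.lf (nat_lit 507724) (.g (nat_lit 3401) (.e (nat_lit 164399) (nat_lit 256) (.e (nat_lit 57447) (nat_lit 19) (.e (nat_lit 393294) (nat_lit 26) (.e (nat_lit 475177) (nat_lit 24) (.e (nat_lit 516115) (nat_lit 1) .nil))))) (.g (nat_lit 0) (.e (nat_lit 187966) (nat_lit 0) .nil) .nil))))) (.nd (nat_lit 8) (.nd (nat_lit 9) 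
(.lf (nat_lit 507084) (.g (nat_lit 2002) (.e (nat_lit 164348) (nat_lit 240) (.e (nat_lit 2618) (nat_lit 164) (.e (nat_lit 172126) (nat_lit 14) (.e (nat_lit 491549) (nat_lit 9) (.e (nat_lit 336430) (nat_lit 29) .nil))))) (.g (nat_lit 0) (.e (nat_lit 186421) (nat_lit 0) .nil) .nil))) 
(.lf (nat_lit 507596) (.g (nat_lit 943) (.e (nat_lit 164399) (nat_lit 256) (.e (nat_lit 57378) (nat_lit 3) (.e (nat_lit 98354) (nat_lit 26) .nil))) (.g (nat_lit 0) (.e (nat_lit 187829) (nat_lit 0) .nil) .nil)))) (.nd (nat_lit 9) 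
(.lf (nat_lit 507340) (.g (nat_lit 2781) (.e (nat_lit 164397) (nat_lit 256) (.e (nat_lit 57371) (nat_lit 2) (.e (nat_lit 90174) (nat_lit 14) (.e (nat_lit 180252) (nat_lit 10) (.e (nat_lit 573489) (nat_lit 14) (.e (nat_lit 73755) (nat_lit 8) (.e (nat_lit 557067) (nat_lit 9) (.e (nat_lit 2603) (nat_lit 163) .nil)))))))) (.g (nat_lit 1) (.e (nat_lit 187536) (nat_lit 0) .nil) .nil))) 
(.lf (nat_lit 507852) (.g (nat_lit 2419) (.e (nat_lit 164401) (nat_lit 256) (.e (nat_lit 57424) (nat_lit 14) (.e (nat_lit 352315) (nat_lit 23) (.e (nat_lit 98313) (nat_lit 9) (.e (nat_lit 343808) (nat_lit 20) .nil))))) (.g (nat_lit 0) (.e (nat_lit 188098) (nat_lit 0) .nil) .nil))))))) (.nd (nat_lit 6) (.nd (nat_lit 7) (.nd (nat_lit 8) (.nd (nat_lit 9) 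
(.lf (nat_lit 506924) (.g (nat_lit 1527) (.e (nat_lit 164345) (nat_lit 240) (.e (nat_lit 2619) (nat_lit 164) (.e (nat_lit 172118) (nat_lit 12) (.e (nat_lit 475209) (nat_lit 41) (.e (nat_lit 712752) (nat_lit 29) .nil))))) (.g (nat_lit 0) (.e (nat_lit 185391) (nat_lit 0) .nil) .nil))) 
(.lf (nat_lit 507436) (.g (nat_lit 872) (.e (nat_lit 164398) (nat_lit 256) (.e (nat_lit 57375) (nat_lit 2) (.e (nat_lit 90178) (nat_lit 15) (.e (nat_lit 196352) (nat_lit 11) .nil)))) (.g (nat_lit 0) (.e (nat_lit 187635) (nat_lit 0) .nil) .nil)))) (.nd (nat_lit 9) 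
(.lf (nat_lit 507180) (.g (nat_lit 2331) (.e (nat_lit 164359) (nat_lit 246) (.e (nat_lit 2661) (nat_lit 167) (.e (nat_lit 196666) (nat_lit 13) (.e (nat_lit 65610) (nat_lit 10) (.e (nat_lit 344129) (nat_lit 26) (.e (nat_lit 557067) (nat_lit 9) (.e (nat_lit 22) (nat_lit 0) (.e (nat_lit 6237) (nat_lit 335) .nil)))))))) (.g (nat_lit 1) (.e (nat_lit 186711) (nat_lit 0) .nil) .nil))) 
(.lf (nat_lit 507692) (.g (nat_lit 2081) (.e (nat_lit 164399) (nat_lit 256) (.e (nat_lit 57407) (nat_lit 12) (.e (nat_lit 336443) (nat_lit 32) (.e (nat_lit 466980) (nat_lit 23) (.e (nat_lit 204813) (nat_lit 9) .nil))))) (.g (nat_lit 0) (.e (nat_lit 187931) (nat_lit 0) .nil) .nil))))) (.nd (nat_lit 8) (.nd (nat_lit 9) 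
(.lf (nat_lit 507052) (.g (nat_lit 4706) (.e (nat_lit 164348) (nat_lit 240) (.e (nat_lit 2610) (nat_lit 163) (.e (nat_lit 163977) (nat_lit 30) (.e (nat_lit 573482) (nat_lit 13) (.e (nat_lit 65604) (nat_lit 9) (.e (nat_lit 336013) (nat_lit 2) (.e (nat_lit 90170) (nat_lit 13) (.e (nat_lit 172059) (nat_lit 1) .nil)))))))) (.g (nat_lit 1) (.e (nat_lit 186378) (nat_lit 0) .nil) .nil))) 
(.lf (nat_lit 507564) (.g (nat_lit 1953) (.e (nat_lit 164399) (nat_lit 256) (.e (nat_lit 57374) (nat_lit 2) (.e (nat_lit 90170) (nat_lit 13) (.e (nat_lit 172123) (nat_lit 13) (.e (nat_lit 483336) (nat_lit 9) .nil))))) (.g (nat_lit 0) (.e (nat_lit 187783) (nat_lit 0) .nil) .nil)))) (.nd (nat_lit 9) 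
(.lf (nat_lit 507308) (.g (nat_lit 2257) (.e (nat_lit 164396) (nat_lit 256) (.e (nat_lit 57379) (nat_lit 3) (.e (nat_lit 98365) (nat_lit 26) (.e (nat_lit 426188) (nat_lit 9) (.e (nat_lit 426484) (nat_lit 27) .nil))))) (.g (nat_lit 0) (.e (nat_lit 187504) (nat_lit 0) .nil) .nil))) 
(.lf (nat_lit 507820) (.g (nat_lit 1127) (.e (nat_lit 164401) (nat_lit 256) (.e (nat_lit 57377) (nat_lit 3) (.e (nat_lit 98382) (nat_lit 31) (.e (nat_lit 474880) (nat_lit 18) .nil)))) (.g (nat_lit 0) (.e (nat_lit 188065) (nat_lit 0) .nil) .nil)))))) (.nd (nat_lit 7) (.nd (nat_lit 8) (.nd (nat_lit 9) 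
(.lf (nat_lit 506988) (.g (nat_lit 2058) (.e (nat_lit 164346) (nat_lit 240) (.e (nat_lit 2639) (nat_lit 165) (.e (nat_lit 180277) (nat_lit 32) (.e (nat_lit 1660) (nat_lit 115) (.e (nat_lit 393266) (nat_lit 23) (.e (nat_lit 426109) (nat_lit 1) .nil)))))) (.g (nat_lit 1) (.e (nat_lit 185861) (nat_lit 0) .nil) .nil))) 
(.lf (nat_lit 507500) (.g (nat_lit 489) (.e (nat_lit 164398) (nat_lit 256) (.e (nat_lit 57436) (nat_lit 17) (.e (nat_lit 376865) (nat_lit 22) .nil))) (.g (nat_lit 0) (.e (nat_lit 187704) (nat_lit 0) .nil) .nil)))) (.nd (nat_lit 9) 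
(.lf (nat_lit 507244) (.g (nat_lit 1341) (.e (nat_lit 164406) (nat_lit 258) (.e (nat_lit 163873) (nat_lit 3) (.e (nat_lit 204884) (nat_lit 33) (.e (nat_lit 401458) (nat_lit 13) .nil)))) (.g (nat_lit 0) (.e (nat_lit 187435) (nat_lit 0) .nil) .nil))) 
(.lf (nat_lit 507756) (.g (nat_lit 2035) (.e (nat_lit 164400) (nat_lit 256) (.e (nat_lit 57375) (nat_lit 2) (.e (nat_lit 90174) (nat_lit 14) (.e (nat_lit 180243) (nat_lit 5) (.e (nat_lit 532506) (nat_lit 2) .nil))))) (.g (nat_lit 0) (.e (nat_lit 187999) (nat_lit 0) .nil) .nil))))) (.nd (nat_lit 8) (.nd (nat_lit 9) 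
(.lf (nat_lit 507116) (.g (nat_lit 1587) (.e (nat_lit 164351) (nat_lit 246) (.e (nat_lit 2668) (nat_lit 167) (.e (nat_lit 196672) (nat_lit 15) (.e (nat_lit 81954) (nat_lit 23) .nil)))) (.g (nat_lit 0) (.e (nat_lit 186597) (nat_lit 0) .nil) .nil))) 
(.lf (nat_lit 507628) (.g (nat_lit 2798) (.e (nat_lit 164399) (nat_lit 256) (.e (nat_lit 57378) (nat_lit 3) (.e (nat_lit 98368) (nat_lit 27) (.e (nat_lit 434245) (nat_lit 28) (.e (nat_lit 573488) (nat_lit 14) (.e (nat_lit 73755) (nat_lit 8) (.e (nat_lit 557067) (nat_lit 9) (.e (nat_lit 2603) (nat_lit 163) .nil)))))))) (.g (nat_lit 1) (.e (nat_lit 187861) (nat_lit 0) .nil) .nil)))) 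
(.nd (nat_lit 9) 
(.lf (nat_lit 507372) (.g (nat_lit 928) (.e (nat_lit 164397) (nat_lit 256) (.e (nat_lit 57379) (nat_lit 3) (.e (nat_lit 98363) (nat_lit 26) (.e (nat_lit 426321) (nat_lit 13) .nil)))) (.g (nat_lit 0) (.e (nat_lit 187568) (nat_lit 0) .nil) .nil))) 
(.lf (nat_lit 507884) (.g (nat_lit 4339) (.e (nat_lit 164402) (nat_lit 256) (.e (nat_lit 57373) (nat_lit 2) (.e (nat_lit 90174) (nat_lit 14) (.e (nat_lit 180250) (nat_lit 10) (.e (nat_lit 573489) (nat_lit 14) (.e (nat_lit 73755) (nat_lit 8) (.e (nat_lit 557067) (nat_lit 9) (.e (nat_lit 2606) (nat_lit 163) .nil)))))))) (.g (nat_lit 1) (.e (nat_lit 188132) (nat_lit 0) .nil) .nil)))))))) 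
(.nd (nat_lit 5) (.nd (nat_lit 6) (.nd (nat_lit 7) (.nd (nat_lit 8) (.nd (nat_lit 9) 
(.lf (nat_lit 506908) (.g (nat_lit 2119) (.e (nat_lit 171776) (nat_lit 234) (.e (nat_lit 16470) (nat_lit 14) (.e (nat_lit 491550) (nat_lit 9) (.e (nat_lit 336438) (nat_lit 31) (.e (nat_lit 458769) (nat_lit 16) .nil))))) (.g (nat_lit 0) (.e (nat_lit 185313) (nat_lit 0) .nil) .nil))) 
(.lf (nat_lit 507420) (.g (nat_lit 2940) (.e (nat_lit 164398) (nat_lit 256) (.e (nat_lit 57373) (nat_lit 2) (.e (nat_lit 90174) (nat_lit 14) (.e (nat_lit 180243) (nat_lit 5) (.e (nat_lit 532515) (nat_lit 3) (.e (nat_lit 114716) (nat_lit 22) (.e (nat_lit 90133) (nat_lit 9) (.e (nat_lit 2613) (nat_lit 163) .nil)))))))) (.g (nat_lit 1) (.e (nat_lit 187618) (nat_lit 0) .nil) .nil)))) (.nd (nat_lit 9) 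
(.lf (nat_lit 507164) (.g (nat_lit 655) (.e (nat_lit 164358) (nat_lit 246) (.e (nat_lit 351) (nat_lit 28) (.e (nat_lit 393267) (nat_lit 23) (.e (nat_lit 426427) (nat_lit 17) .nil)))) (.g (nat_lit 0) (.e (nat_lit 186692) (nat_lit 0) .nil) .nil))) 
(.lf (nat_lit 507676) (.g (nat_lit 3000) (.e (nat_lit 164399) (nat_lit 256) (.e (nat_lit 57390) (nat_lit 5) (.e (nat_lit 114716) (nat_lit 22) (.e (nat_lit 90157) (nat_lit 11) (.e (nat_lit 24650) (nat_lit 12) (.e (nat_lit 385066) (nat_lit 26) (.e (nat_lit 540416) (nat_lit 18) .nil))))))) (.g (nat_lit 1) (.e (nat_lit 187910) (nat_lit 0) .nil) .nil))))) (.nd (nat_lit 8) (.nd (nat_lit 9) 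
(.lf (nat_lit 507036) (.g (nat_lit 503) (.e (nat_lit 164347) (nat_lit 240) (.e (nat_lit 2638) (nat_lit 165) (.e (nat_lit 188160) (nat_lit 32) .nil))) (.g (nat_lit 0) (.e (nat_lit 186228) (nat_lit 0) .nil) .nil))) 
(.lf (nat_lit 507548) (.g (nat_lit 1552) (.e (nat_lit 164399) (nat_lit 256) (.e (nat_lit 57373) (nat_lit 2) (.e (nat_lit 90169) (nat_lit 13) (.e (nat_lit 172121) (nat_lit 13) (.e (nat_lit 483341) (nat_lit 9) .nil))))) (.g (nat_lit 0) (.e (nat_lit 187766) (nat_lit 0) .nil) .nil)))) (.nd (nat_lit 9) 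
(.lf (nat_lit 507292) (.g (nat_lit 2048) (.e (nat_lit 164396) (nat_lit 256) (.e (nat_lit 57375) (nat_lit 2) (.e (nat_lit 90178) (nat_lit 15) (.e (nat_lit 188421) (nat_lit 11) (.e (nat_lit 336387) (nat_lit 27) .nil))))) (.g (nat_lit 0) (.e (nat_lit 187487) (nat_lit 0) .nil) .nil))) 
(.lf (nat_lit 507804) (.g (nat_lit 1716) (.e (nat_lit 164401) (nat_lit 256) (.e (nat_lit 57373) (nat_lit 2) (.e (nat_lit 90174) (nat_lit 14) (.e (nat_lit 180243) (nat_lit 5) (.e (nat_lit 532515) (nat_lit 3) .nil))))) (.g (nat_lit 0) (.e (nat_lit 188047) (nat_lit 0) .nil) .nil)))))) (.nd (nat_lit 7) (.nd (nat_lit 8) (.nd (nat_lit 9) 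
(.lf (nat_lit 506972) (.g (nat_lit 1908) (.e (nat_lit 164346) (nat_lit 240) (.e (nat_lit 2629) (nat_lit 164) (.e (nat_lit 172120) (nat_lit 12) (.e (nat_lit 475198) (nat_lit 40) (.e (nat_lit 704598) (nat_lit 6) .nil))))) (.g (nat_lit 0) (.e (nat_lit 185818) (nat_lit 0) .nil) .nil))) 
(.lf (nat_lit 507484) (.g (nat_lit 755) (.e (nat_lit 164398) (nat_lit 256) (.e (nat_lit 57406) (nat_lit 12) (.e (nat_lit 336434) (nat_lit 30) .nil))) (.g (nat_lit 0) (.e (nat_lit 187688) (nat_lit 0) .nil) .nil)))) (.nd (nat_lit 9) 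
(.lf (nat_lit 507228) (.g (nat_lit 1676) (.e (nat_lit 164368) (nat_lit 247) (.e (nat_lit 8318) (nat_lit 64) (.e (nat_lit 516150) (nat_lit 9) (.e (nat_lit 426323) (nat_lit 13) (.e (nat_lit 483332) (nat_lit 0) (.e (nat_lit 7098) (nat_lit 380) .nil)))))) (.g (nat_lit 1) (.e (nat_lit 186990) (nat_lit 0) .nil) .nil))) 
(.lf (nat_lit 507740) (.g (nat_lit 1016) (.e (nat_lit 164400) (nat_lit 256) (.e (nat_lit 57372) (nat_lit 2) (.e (nat_lit 90176) (nat_lit 15) (.e (nat_lit 188423) (nat_lit 11) (.e (nat_lit 336387) (nat_lit 27) .nil))))) (.g (nat_lit 0) (.e (nat_lit 187983) (nat_lit 0) .nil) .nil))))) (.nd (nat_lit 8) (.nd (nat_lit 9) 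
(.lf (nat_lit 507100) (.g (nat_lit 2101) (.e (nat_lit 164348) (nat_lit 240) (.e (nat_lit 2640) (nat_lit 165) (.e (nat_lit 180277) (nat_lit 32) (.e (nat_lit 1661) (nat_lit 115) (.e (nat_lit 393277) (nat_lit 23) (.e (nat_lit 426103) (nat_lit 1) .nil)))))) (.g (nat_lit 1) (.e (nat_lit 186498) (nat_lit 0) .nil) .nil))) 
(.lf (nat_lit 507612) (.g (nat_lit 2183) (.e (nat_lit 164399) (nat_lit 256) (.e (nat_lit 57378) (nat_lit 3) (.e (nat_lit 98365) (nat_lit 26) (.e (nat_lit 426188) (nat_lit 9) (.e (nat_lit 426480) (nat_lit 27) .nil))))) (.g (nat_lit 0) (.e (nat_lit 187845) (nat_lit 0) .nil) .nil)))) (.nd (nat_lit 9) 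
(.lf (nat_lit 507356) (.g (nat_lit 2634) (.e (nat_lit 164397) (nat_lit 256) (.e (nat_lit 57373) (nat_lit 2) (.e (nat_lit 90174) (nat_lit 14) (.e (nat_lit 180243) (nat_lit 5) (.e (nat_lit 532508) (nat_lit 2) .nil))))) (.g (nat_lit 0) (.e (nat_lit 187552) (nat_lit 0) .nil) .nil))) 
(.lf (nat_lit 507868) (.g (nat_lit 2778) (.e (nat_lit 164402) (nat_lit 256) (.e (nat_lit 57371) (nat_lit 2) (.e (nat_lit 90174) (nat_lit 14) (.e (nat_lit 180252) (nat_lit 10) (.e (nat_lit 573489) (nat_lit 14) (.e (nat_lit 73755) (nat_lit 8) (.e (nat_lit 557067) (nat_lit 9) (.e (nat_lit 2603) (nat_lit 163) .nil)))))))) (.g (nat_lit 1) (.e (nat_lit 188116) (nat_lit 0) .nil) .nil))))))) 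
(.nd (nat_lit 6) (.nd (nat_lit 7) (.nd (nat_lit 8) (.nd (nat_lit 9) 
(.lf (nat_lit 506940) (.g (nat_lit 2315) (.e (nat_lit 164345) (nat_lit 240) (.e (nat_lit 2638) (nat_lit 165) (.e (nat_lit 180277) (nat_lit 32) (.e (nat_lit 1660) (nat_lit 115) (.e (nat_lit 393281) (nat_lit 23) (.e (nat_lit 426099) (nat_lit 1) .nil)))))) (.g (nat_lit 1) (.e (nat_lit 185524) (nat_lit 0) .nil) .nil))) 
(.lf (nat_lit 507452) (.g (nat_lit 2573) (.e (nat_lit 164398) (nat_lit 256) (.e (nat_lit 57378) (nat_lit 3) (.e (nat_lit 98365) (nat_lit 26) (.e (nat_lit 426188) (nat_lit 9) (.e (nat_lit 426566) (nat_lit 34) (.e (nat_lit 393250) (nat_lit 18) .nil)))))) (.g (nat_lit 1) (.e (nat_lit 187656) (nat_lit 0) .nil) .nil)))) (.nd (nat_lit 9) 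
(.lf (nat_lit 507196) (.g (nat_lit 3448) (.e (nat_lit 164359) (nat_lit 246) (.e (nat_lit 2679) (nat_lit 168) (.e (nat_lit 204869) (nat_lit 29) (.e (nat_lit 360475) (nat_lit 8) (.e (nat_lit 557068) (nat_lit 9) (.e (nat_lit 20) (nat_lit 0) (.e (nat_lit 6232) (nat_lit 335) .nil))))))) (.g (nat_lit 1) (.e (nat_lit 186730) (nat_lit 0) .nil) .nil))) 
(.lf (nat_lit 507708) (.g (nat_lit 1441) (.e (nat_lit 164399) (nat_lit 256) (.e (nat_lit 57411) (nat_lit 12) (.e (nat_lit 336443) (nat_lit 32) (.e (nat_lit 466979) (nat_lit 23) (.e (nat_lit 204812) (nat_lit 9) .nil))))) (.g (nat_lit 0) (.e (nat_lit 187947) (nat_lit 0) .nil) .nil))))) (.nd (nat_lit 8) (.nd (nat_lit 9) 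
(.lf (nat_lit 507068) (.g (nat_lit 5078) (.e (nat_lit 164348) (nat_lit 240) (.e (nat_lit 2610) (nat_lit 163) (.e (nat_lit 163978) (nat_lit 30) (.e (nat_lit 573479) (nat_lit 13) (.e (nat_lit 65619) (nat_lit 10) (.e (nat_lit 344117) (nat_lit 21) (.e (nat_lit 516151) (nat_lit 9) (.e (nat_lit 426097) (nat_lit 1) .nil)))))))) (.g (nat_lit 1) (.e (nat_lit 186394) (nat_lit 0) .nil) .nil))) 
(.lf (nat_lit 507580) (.g (nat_lit 977) (.e (nat_lit 164399) (nat_lit 256) (.e (nat_lit 57377) (nat_lit 3) (.e (nat_lit 98363) (nat_lit 26) (.e (nat_lit 426321) (nat_lit 13) .nil)))) (.g (nat_lit 0) (.e (nat_lit 187799) (nat_lit 0) .nil) .nil)))) (.nd (nat_lit 9) 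
(.lf (nat_lit 507324) (.g (nat_lit 1227) (.e (nat_lit 164396) (nat_lit 256) (.e (nat_lit 57411) (nat_lit 12) (.e (nat_lit 336432) (nat_lit 30) .nil))) (.g (nat_lit 0) (.e (nat_lit 187520) (nat_lit 0) .nil) .nil))) 
(.lf (nat_lit 507836) (.g (nat_lit 2767) (.e (nat_lit 164401) (nat_lit 256) (.e (nat_lit 57378) (nat_lit 3) (.e (nat_lit 98368) (nat_lit 27) (.e (nat_lit 434247) (nat_lit 28) (.e (nat_lit 573489) (nat_lit 14) (.e (nat_lit 73755) (nat_lit 8) (.e (nat_lit 557074) (nat_lit 9) (.e (nat_lit 2607) (nat_lit 163) .nil)))))))) (.g (nat_lit 1) (.e (nat_lit 188082) (nat_lit 0) .nil) .nil)))))) 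
(.nd (nat_lit 7) (.nd (nat_lit 8) (.nd (nat_lit 9) 
(.lf (nat_lit 507004) (.g (nat_lit 4708) (.e (nat_lit 164347) (nat_lit 240) (.e (nat_lit 2611) (nat_lit 163) (.e (nat_lit 163978) (nat_lit 30) (.e (nat_lit 573485) (nat_lit 13) (.e (nat_lit 65619) (nat_lit 10) (.e (nat_lit 344117) (nat_lit 21) (.e (nat_lit 516151) (nat_lit 9) (.e (nat_lit 426097) (nat_lit 1) .nil)))))))) (.g (nat_lit 1) (.e (nat_lit 185992) (nat_lit 0) .nil) .nil))) 
(.lf (nat_lit 507516) (.g (nat_lit 1675) (.e (nat_lit 164399) (nat_lit 256) (.e (nat_lit 57370) (nat_lit 2) (.e (nat_lit 90174) (nat_lit 14) (.e (nat_lit 180243) (nat_lit 5) (.e (nat_lit 532510) (nat_lit 2) .nil))))) (.g (nat_lit 0) (.e (nat_lit 187724) (nat_lit 0) .nil) .nil)))) (.nd (nat_lit 9) 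
(.lf (nat_lit 507260) (.g (nat_lit 2798) (.e (nat_lit 164396) (nat_lit 256) (.e (nat_lit 57371) (nat_lit 2) (.e (nat_lit 90174) (nat_lit 14) (.e (nat_lit 180243) (nat_lit 5) (.e (nat_lit 532515) (nat_lit 3) (.e (nat_lit 114716) (nat_lit 22) (.e (nat_lit 90133) (nat_lit 9) (.e (nat_lit 2613) (nat_lit 163) .nil)))))))) (.g (nat_lit 1) (.e (nat_lit 187455) (nat_lit 0) .nil) .nil))) 
(.lf (nat_lit 507772) (.g (nat_lit 1335) (.e (nat_lit 164400) (nat_lit 256) (.e (nat_lit 57379) (nat_lit 3) (.e (nat_lit 98365) (nat_lit 26) (.e (nat_lit 426188) (nat_lit 9) .nil)))) (.g (nat_lit 0) (.e (nat_lit 188015) (nat_lit 0) .nil) .nil))))) (.nd (nat_lit 8) (.nd (nat_lit 9) 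
(.lf (nat_lit 507132) (.g (nat_lit 1719) (.e (nat_lit 164353) (nat_lit 246) (.e (nat_lit 351) (nat_lit 28) (.e (nat_lit 393291) (nat_lit 26) (.e (nat_lit 475169) (nat_lit 22) (.e (nat_lit 499791) (nat_lit 3) .nil))))) (.g (nat_lit 0) (.e (nat_lit 186649) (nat_lit 0) .nil) .nil))) 
(.lf (nat_lit 507644) (.g (nat_lit 861) (.e (nat_lit 164399) (nat_lit 256) (.e (nat_lit 57379) (nat_lit 3) (.e (nat_lit 98362) (nat_lit 26) .nil))) (.g (nat_lit 0) (.e (nat_lit 187877) (nat_lit 0) .nil) .nil)))) (.nd (nat_lit 9) 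
(.lf (nat_lit 507388) (.g (nat_lit 1575) (.e (nat_lit 164397) (nat_lit 256) (.e (nat_lit 57411) (nat_lit 12) (.e (nat_lit 336443) (nat_lit 32) (.e (nat_lit 466979) (nat_lit 23) (.e (nat_lit 204809) (nat_lit 9) .nil))))) (.g (nat_lit 0) (.e (nat_lit 187584) (nat_lit 0) .nil) .nil))) 
(.lf (nat_lit 507900) (.g (nat_lit 2396) (.e (nat_lit 164402) (nat_lit 256) (.e (nat_lit 57378) (nat_lit 3) (.e (nat_lit 98358) (nat_lit 26) (.e (nat_lit 426131) (nat_lit 3) (.e (nat_lit 204838) (nat_lit 20) .nil))))) (.g (nat_lit 0) (.e (nat_lit 188150) (nat_lit 0) .nil) .nil))))))))))) 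
(.nd (nat_lit 2) (.nd (nat_lit 3) (.nd (nat_lit 4) (.nd (nat_lit 5) (.nd (nat_lit 6) 
(.nd (nat_lit 7) (.nd (nat_lit 8) (.nd (nat_lit 9) 
(.lf (nat_lit 506882) (.g (nat_lit 2590) (.e (nat_lit 164319) (nat_lit 228) (.e (nat_lit 57406) (nat_lit 12) (.e (nat_lit 336326) (nat_lit 18) (.e (nat_lit 204869) (nat_lit 29) (.e (nat_lit 368384) (nat_lit 24) .nil))))) (.g (nat_lit 0) (.e (nat_lit 185244) (nat_lit 0) .nil) .nil))) 
(.lf (nat_lit 507394) (.g (nat_lit 2186) (.e (nat_lit 164398) (nat_lit 256) (.e (nat_lit 57371) (nat_lit 2) (.e (nat_lit 90174) (nat_lit 14) (.e (nat_lit 180243) (nat_lit 5) (.e (nat_lit 532515) (nat_lit 3) .nil))))) (.g (nat_lit 0) (.e (nat_lit 187591) (nat_lit 0) .nil) .nil)))) (.nd (nat_lit 9) 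
(.lf (nat_lit 507138) (.g (nat_lit 664) (.e (nat_lit 164354) (nat_lit 246) (.e (nat_lit 351) (nat_lit 28) (.e (nat_lit 393267) (nat_lit 23) (.e (nat_lit 433920) (nat_lit 17) .nil)))) (.g (nat_lit 0) (.e (nat_lit 186659) (nat_lit 0) .nil) .nil))) 
(.lf (nat_lit 507650) (.g (nat_lit 2994) (.e (nat_lit 164399) (nat_lit 256) (.e (nat_lit 57379) (nat_lit 3) (.e (nat_lit 98365) (nat_lit 26) (.e (nat_lit 426325) (nat_lit 13) (.e (nat_lit 483336) (nat_lit 9) .nil))))) (.g (nat_lit 0) (.e (nat_lit 187883) (nat_lit 0) .nil) .nil))))) (.nd (nat_lit 8) (.nd (nat_lit 9) 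
(.lf (nat_lit 507010) (.g (nat_lit 2073) (.e (nat_lit 164347) (nat_lit 240) (.e (nat_lit 2619) (nat_lit 164) (.e (nat_lit 172120) (nat_lit 12) (.e (nat_lit 475198) (nat_lit 40) (.e (nat_lit 704599) (nat_lit 6) .nil))))) (.g (nat_lit 0) (.e (nat_lit 186039) (nat_lit 0) .nil) .nil))) 
(.lf (nat_lit 507522) (.g (nat_lit 2278) (.e (nat_lit 164399) (nat_lit 256) (.e (nat_lit 57371) (nat_lit 2) (.e (nat_lit 90174) (nat_lit 14) (.e (nat_lit 180243) (nat_lit 5) (.e (nat_lit 532515) (nat_lit 3) .nil))))) (.g (nat_lit 0) (.e (nat_lit 187730) (nat_lit 0) .nil) .nil)))) (.nd (nat_lit 9) 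
(.lf (nat_lit 507266) (.g (nat_lit 3624) (.e (nat_lit 164396) (nat_lit 256) (.e (nat_lit 57371) (nat_lit 2) (.e (nat_lit 90174) (nat_lit 14) (.e (nat_lit 180252) (nat_lit 10) (.e (nat_lit 573489) (nat_lit 14) (.e (nat_lit 73755) (nat_lit 8) (.e (nat_lit 557067) (nat_lit 9) (.e (nat_lit 2606) (nat_lit 163) .nil)))))))) (.g (nat_lit 1) (.e (nat_lit 187461) (nat_lit 0) .nil) .nil))) 
(.lf (nat_lit 507778) (.g (nat_lit 826) (.e (nat_lit 164400) (nat_lit 256) (.e (nat_lit 57407) (nat_lit 12) (.e (nat_lit 336443) (nat_lit 32) .nil))) (.g (nat_lit 0) (.e (nat_lit 188021) (nat_lit 0) .nil) .nil)))))) (.nd (nat_lit 7) (.nd (nat_lit 8) (.nd (nat_lit 9) 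
(.lf (nat_lit 506946) (.g (nat_lit 1023) (.e (nat_lit 164345) (nat_lit 240) (.e (nat_lit 2639) (nat_lit 165) (.e (nat_lit 180277) (nat_lit 32) (.e (nat_lit 1659) (nat_lit 115) (.e (nat_lit 401152) (nat_lit 23) .nil))))) (.g (nat_lit 0) (.e (nat_lit 185545) (nat_lit 0) .nil) .nil))) 
(.lf (nat_lit 507458) (.g (nat_lit 4552) (.e (nat_lit 164398) (nat_lit 256) (.e (nat_lit 57378) (nat_lit 3) (.e (nat_lit 98368) (nat_lit 27) (.e (nat_lit 434247) (nat_lit 28) (.e (nat_lit 573489) (nat_lit 14) (.e (nat_lit 73755) (nat_lit 8) (.e (nat_lit 557067) (nat_lit 9) (.e (nat_lit 2604) (nat_lit 163) .nil)))))))) (.g (nat_lit 1) (.e (nat_lit 187662) (nat_lit 0) .nil) .nil)))) 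
(.nd (nat_lit 9) 
(.lf (nat_lit 507202) (.g (nat_lit 853) (.e (nat_lit 164359) (nat_lit 246) (.e (nat_lit 3062) (nat_lit 190) (.e (nat_lit 475210) (nat_lit 41) (.e (nat_lit 712755) (nat_lit 30) .nil)))) (.g (nat_lit 0) (.e (nat_lit 186759) (nat_lit 0) .nil) .nil))) 
(.lf (nat_lit 507714) (.g (nat_lit 1670) (.e (nat_lit 164399) (nat_lit 256) (.e (nat_lit 57445) (nat_lit 19) (.e (nat_lit 393291) (nat_lit 26) (.e (nat_lit 475177) (nat_lit 24) .nil)))) (.g (nat_lit 0) (.e (nat_lit 187955) (nat_lit 0) .nil) .nil))))) (.nd (nat_lit 8) (.nd (nat_lit 9) 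
(.lf (nat_lit 507074) (.g (nat_lit 3988) (.e (nat_lit 164348) (nat_lit 240) (.e (nat_lit 2610) (nat_lit 163) (.e (nat_lit 163979) (nat_lit 30) (.e (nat_lit 573491) (nat_lit 15) (.e (nat_lit 81954) (nat_lit 23) (.e (nat_lit 98359) (nat_lit 26) (.e (nat_lit 426097) (nat_lit 1) .nil))))))) (.g (nat_lit 1) (.e (nat_lit 186400) (nat_lit 0) .nil) .nil))) 
(.lf (nat_lit 507586) (.g (nat_lit 2274) (.e (nat_lit 164399) (nat_lit 256) (.e (nat_lit 57377) (nat_lit 3) (.e (nat_lit 98365) (nat_lit 26) (.e (nat_lit 426325) (nat_lit 13) (.e (nat_lit 483339) (nat_lit 9) .nil))))) (.g (nat_lit 0) (.e (nat_lit 187805) (nat_lit 0) .nil) .nil)))) (.nd (nat_lit 9) 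
(.lf (nat_lit 507330) (.g (nat_lit 2795) (.e (nat_lit 164396) (nat_lit 256) (.e (nat_lit 57427) (nat_lit 15) (.e (nat_lit 360474) (nat_lit 8) (.e (nat_lit 557091) (nat_lit 12) (.e (nat_lit 164003) (nat_lit 40) (.e (nat_lit 655364) (nat_lit 0) (.e (nat_lit 2707) (nat_lit 170) (.e (nat_lit 221208) (nat_lit 21) .nil)))))))) (.g (nat_lit 1) (.e (nat_lit 187526) (nat_lit 0) .nil) .nil))) 
(.lf (nat_lit 507842) (.g (nat_lit 356) (.e (nat_lit 164401) (nat_lit 256) (.e (nat_lit 57378) (nat_lit 3) (.e (nat_lit 98381) (nat_lit 31) .nil))) (.g (nat_lit 0) (.e (nat_lit 188088) (nat_lit 0) .nil) .nil))))))) (.nd (nat_lit 6) (.nd (nat_lit 7) (.nd (nat_lit 8) (.nd (nat_lit 9) 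
(.lf (nat_lit 506914) (.g (nat_lit 3415) (.e (nat_lit 164345) (nat_lit 240) (.e (nat_lit 2610) (nat_lit 163) (.e (nat_lit 163978) (nat_lit 30) (.e (nat_lit 573493) (nat_lit 15) (.e (nat_lit 81956) (nat_lit 23) .nil))))) (.g (nat_lit 0) (.e (nat_lit 185328) (nat_lit 0) .nil) .nil))) 
(.lf (nat_lit 507426) (.g (nat_lit 2628) (.e (nat_lit 164398) (nat_lit 256) (.e (nat_lit 57373) (nat_lit 2) (.e (nat_lit 90174) (nat_lit 14) (.e (nat_lit 180251) (nat_lit 10) (.e (nat_lit 573489) (nat_lit 14) (.e (nat_lit 73755) (nat_lit 8) (.e (nat_lit 557068) (nat_lit 9) (.e (nat_lit 2604) (nat_lit 163) .nil)))))))) (.g (nat_lit 1) (.e (nat_lit 187624) (nat_lit 0) .nil) .nil)))) 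
(.nd (nat_lit 9) 
(.lf (nat_lit 507170) (.g (nat_lit 1981) (.e (nat_lit 164358) (nat_lit 246) (.e (nat_lit 351) (nat_lit 28) (.e (nat_lit 393271) (nat_lit 23) (.e (nat_lit 426428) (nat_lit 17) (.e (nat_lit 90203) (nat_lit 21) .nil))))) (.g (nat_lit 0) (.e (nat_lit 186698) (nat_lit 0) .nil) .nil))) 
(.lf (nat_lit 507682) (.g (nat_lit 2042) (.e (nat_lit 164399) (nat_lit 256) (.e (nat_lit 57406) (nat_lit 12) (.e (nat_lit 336432) (nat_lit 30) (.e (nat_lit 450580) (nat_lit 5) (.e (nat_lit 532579) (nat_lit 26) .nil))))) (.g (nat_lit 0) (.e (nat_lit 187916) (nat_lit 0) .nil) .nil))))) (.nd (nat_lit 8) (.nd (nat_lit 9) 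
(.lf (nat_lit 507042) (.g (nat_lit 1386) (.e (nat_lit 164347) (nat_lit 240) (.e (nat_lit 2640) (nat_lit 165) (.e (nat_lit 180278) (nat_lit 32) (.e (nat_lit 1659) (nat_lit 115) (.e (nat_lit 393271) (nat_lit 23) .nil))))) (.g (nat_lit 0) (.e (nat_lit 186241) (nat_lit 0) .nil) .nil))) 
(.lf (nat_lit 507554) (.g (nat_lit 2373) (.e (nat_lit 164399) (nat_lit 256) (.e (nat_lit 57373) (nat_lit 2) (.e (nat_lit 90174) (nat_lit 14) (.e (nat_lit 180243) (nat_lit 5) (.e (nat_lit 532515) (nat_lit 3) (.e (nat_lit 114716) (nat_lit 22) (.e (nat_lit 90129) (nat_lit 9) (.e (nat_lit 2603) (nat_lit 163) .nil)))))))) (.g (nat_lit 1) (.e (nat_lit 187772) (nat_lit 0) .nil) .nil)))) (.nd (nat_lit 9) 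
(.lf (nat_lit 507298) (.g (nat_lit 1218) (.e (nat_lit 164396) (nat_lit 256) (.e (nat_lit 57377) (nat_lit 3) (.e (nat_lit 98369) (nat_lit 28) (.e (nat_lit 442390) (nat_lit 11) .nil)))) (.g (nat_lit 0) (.e (nat_lit 187494) (nat_lit 0) .nil) .nil))) 
(.lf (nat_lit 507810) (.g (nat_lit 1811) (.e (nat_lit 164401) (nat_lit 256) (.e (nat_lit 57373) (nat_lit 2) (.e (nat_lit 90174) (nat_lit 14) (.e (nat_lit 180245) (nat_lit 5) .nil)))) (.g (nat_lit 0) (.e (nat_lit 188053) (nat_lit 0) .nil) .nil)))))) (.nd (nat_lit 7) (.nd (nat_lit 8) (.nd (nat_lit 9) 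
(.lf (nat_lit 506978) (.g (nat_lit 2685) (.e (nat_lit 164346) (nat_lit 240) (.e (nat_lit 2638) (nat_lit 165) (.e (nat_lit 180278) (nat_lit 32) (.e (nat_lit 1425) (nat_lit 108) (.e (nat_lit 336430) (nat_lit 29) (.e (nat_lit 442421) (nat_lit 21) .nil)))))) (.g (nat_lit 1) (.e (nat_lit 185839) (nat_lit 0) .nil) .nil))) 
(.lf (nat_lit 507490) (.g (nat_lit 1020) (.e (nat_lit 164398) (nat_lit 256) (.e (nat_lit 57407) (nat_lit 12) (.e (nat_lit 336443) (nat_lit 32) (.e (nat_lit 466981) (nat_lit 23) .nil)))) (.g (nat_lit 0) (.e (nat_lit 187694) (nat_lit 0) .nil) .nil)))) (.nd (nat_lit 9) 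
(.lf (nat_lit 507234) (.g (nat_lit 1871) (.e (nat_lit 164372) (nat_lit 250) (.e (nat_lit 172150) (nat_lit 27) (.e (nat_lit 336231) (nat_lit 14) (.e (nat_lit 401444) (nat_lit 9) (.e (nat_lit 433920) (nat_lit 15) .nil))))) (.g (nat_lit 0) (.e (nat_lit 187185) (nat_lit 0) .nil) .nil))) 
(.lf (nat_lit 507746) (.g (nat_lit 2603) (.e (nat_lit 164400) (nat_lit 256) (.e (nat_lit 57373) (nat_lit 2) (.e (nat_lit 90174) (nat_lit 14) (.e (nat_lit 180243) (nat_lit 5) (.e (nat_lit 532510) (nat_lit 2) .nil))))) (.g (nat_lit 0) (.e (nat_lit 187989) (nat_lit 0) .nil) .nil))))) (.nd (nat_lit 8) (.nd (nat_lit 9) 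
(.lf (nat_lit 507106) (.g (nat_lit 780) (.e (nat_lit 164348) (nat_lit 240) (.e (nat_lit 2650) (nat_lit 166) (.e (nat_lit 188427) (nat_lit 20) (.e (nat_lit 3399) (nat_lit 211) (.e (nat_lit 647185) (nat_lit 6) .nil))))) (.g (nat_lit 0) (.e (nat_lit 186521) (nat_lit 0) .nil) .nil))) 
(.lf (nat_lit 507618) (.g (nat_lit 3405) (.e (nat_lit 164399) (nat_lit 256) (.e (nat_lit 57378) (nat_lit 3) (.e (nat_lit 98365) (nat_lit 26) (.e (nat_lit 426325) (nat_lit 13) (.e (nat_lit 483341) (nat_lit 9) (.e (nat_lit 426098) (nat_lit 1) .nil)))))) (.g (nat_lit 1) (.e (nat_lit 187851) (nat_lit 0) .nil) .nil)))) (.nd (nat_lit 9) 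
(.lf (nat_lit 507362) (.g (nat_lit 2489) (.e (nat_lit 164397) (nat_lit 256) (.e (nat_lit 57374) (nat_lit 2) (.e (nat_lit 90170) (nat_lit 13) (.e (nat_lit 172121) (nat_lit 13) (.e (nat_lit 483337) (nat_lit 9) .nil))))) (.g (nat_lit 0) (.e (nat_lit 187558) (nat_lit 0) .nil) .nil))) 
(.lf (nat_lit 507874) (.g (nat_lit 2267) (.e (nat_lit 164402) (nat_lit 256) (.e (nat_lit 57373) (nat_lit 2) (.e (nat_lit 90170) (nat_lit 13) (.e (nat_lit 172121) (nat_lit 13) .nil)))) (.g (nat_lit 0) (.e (nat_lit 188122) (nat_lit 0) .nil) .nil)))))))) (.nd (nat_lit 5) (.nd (nat_lit 6) (.nd (nat_lit 7) (.nd (nat_lit 8) (.nd (nat_lit 9) 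
(.lf (nat_lit 506898) (.g (nat_lit 850) (.e (nat_lit 164319) (nat_lit 228) (.e (nat_lit 57424) (nat_lit 14) (.e (nat_lit 352299) (nat_lit 20) (.e (nat_lit 1958) (nat_lit 134) .nil)))) (.g (nat_lit 0) (.e (nat_lit 185272) (nat_lit 0) .nil) .nil))) 
(.lf (nat_lit 507410) (.g (nat_lit 1240) (.e (nat_lit 164398) (nat_lit 256) (.e (nat_lit 57372) (nat_lit 2) (.e (nat_lit 90178) (nat_lit 15) (.e (nat_lit 196352) (nat_lit 18) .nil)))) (.g (nat_lit 0) (.e (nat_lit 187607) (nat_lit 0) .nil) .nil)))) (.nd (nat_lit 9) 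
(.lf (nat_lit 507154) (.g (nat_lit 1993) (.e (nat_lit 164358) (nat_lit 246) (.e (nat_lit 112) (nat_lit 3) (.e (nat_lit 98365) (nat_lit 26) (.e (nat_lit 426325) (nat_lit 13) (.e (nat_lit 483335) (nat_lit 0) .nil))))) (.g (nat_lit 0) (.e (nat_lit 186677) (nat_lit 0) .nil) .nil))) 
(.lf (nat_lit 507666) (.g (nat_lit 2400) (.e (nat_lit 164399) (nat_lit 256) (.e (nat_lit 57388) (nat_lit 5) (.e (nat_lit 114714) (nat_lit 22) (.e (nat_lit 90157) (nat_lit 11) (.e (nat_lit 24648) (nat_lit 12) (.e (nat_lit 385066) (nat_lit 26) (.e (nat_lit 540416) (nat_lit 18) .nil))))))) (.g (nat_lit 1) (.e (nat_lit 187899) (nat_lit 0) .nil) .nil))))) (.nd (nat_lit 8) (.nd (nat_lit 9) 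
(.lf (nat_lit 507026) (.g (nat_lit 1609) (.e (nat_lit 164347) (nat_lit 240) (.e (nat_lit 2638) (nat_lit 165) (.e (nat_lit 180277) (nat_lit 32) (.e (nat_lit 1659) (nat_lit 115) (.e (nat_lit 393280) (nat_lit 23) .nil))))) (.g (nat_lit 0) (.e (nat_lit 186213) (nat_lit 0) .nil) .nil))) 
(.lf (nat_lit 507538) (.g (nat_lit 1914) (.e (nat_lit 164399) (nat_lit 256) (.e (nat_lit 57372) (nat_lit 2) (.e (nat_lit 90174) (nat_lit 14) (.e (nat_lit 180243) (nat_lit 5) (.e (nat_lit 532510) (nat_lit 2) .nil))))) (.g (nat_lit 0) (.e (nat_lit 187755) (nat_lit 0) .nil) .nil)))) (.nd (nat_lit 9) 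
(.lf (nat_lit 507282) (.g (nat_lit 2542) (.e (nat_lit 164396) (nat_lit 256) (.e (nat_lit 57373) (nat_lit 2) (.e (nat_lit 90174) (nat_lit 14) (.e (nat_lit 180243) (nat_lit 5) (.e (nat_lit 532513) (nat_lit 3) .nil))))) (.g (nat_lit 0) (.e (nat_lit 187477) (nat_lit 0) .nil) .nil))) 
(.lf (nat_lit 507794) (.g (nat_lit 1865) (.e (nat_lit 164401) (nat_lit 256) (.e (nat_lit 57373) (nat_lit 2) (.e (nat_lit 90170) (nat_lit 13) (.e (nat_lit 172065) (nat_lit 3) (.e (nat_lit 204838) (nat_lit 20) .nil))))) (.g (nat_lit 0) (.e (nat_lit 188037) (nat_lit 0) .nil) .nil)))))) (.nd (nat_lit 7) (.nd (nat_lit 8) (.nd (nat_lit 9) 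
(.lf (nat_lit 506962) (.g (nat_lit 1794) (.e (nat_lit 164346) (nat_lit 240) (.e (nat_lit 2618) (nat_lit 164) (.e (nat_lit 172120) (nat_lit 12) (.e (nat_lit 475198) (nat_lit 40) (.e (nat_lit 704599) (nat_lit 6) .nil))))) (.g (nat_lit 0) (.e (nat_lit 185743) (nat_lit 0) .nil) .nil))) 
(.lf (nat_lit 507474) (.g (nat_lit 3030) (.e (nat_lit 164398) (nat_lit 256) (.e (nat_lit 57379) (nat_lit 3) (.e (nat_lit 98367) (nat_lit 27) (.e (nat_lit 434231) (nat_lit 23) (.e (nat_lit 532483) (nat_lit 0) .nil))))) (.g (nat_lit 0) (.e (nat_lit 187678) (nat_lit 0) .nil) .nil)))) (.nd (nat_lit 9) 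
(.lf (nat_lit 507218) (.g (nat_lit 1871) (.e (nat_lit 164362) (nat_lit 246) (.e (nat_lit 3062) (nat_lit 190) (.e (nat_lit 475211) (nat_lit 41) (.e (nat_lit 712755) (nat_lit 30) (.e (nat_lit 450596) (nat_lit 17) .nil))))) (.g (nat_lit 0) (.e (nat_lit 186842) (nat_lit 0) .nil) .nil))) 
(.lf (nat_lit 507730) (.g (nat_lit 738) (.e (nat_lit 164399) (nat_lit 256) (.e (nat_lit 57448) (nat_lit 19) (.e (nat_lit 393293) (nat_lit 26) .nil))) (.g (nat_lit 0) (.e (nat_lit 187972) (nat_lit 0) .nil) .nil))))) (.nd (nat_lit 8) (.nd (nat_lit 9) 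
(.lf (nat_lit 507090) (.g (nat_lit 2059) (.e (nat_lit 164348) (nat_lit 240) (.e (nat_lit 2628) (nat_lit 164) (.e (nat_lit 172126) (nat_lit 14) (.e (nat_lit 491547) (nat_lit 9) (.e (nat_lit 336430) (nat_lit 29) .nil))))) (.g (nat_lit 0) (.e (nat_lit 186462) (nat_lit 0) .nil) .nil))) 
(.lf (nat_lit 507602) (.g (nat_lit 1294) (.e (nat_lit 164399) (nat_lit 256) (.e (nat_lit 57378) (nat_lit 3) (.e (nat_lit 98357) (nat_lit 26) (.e (nat_lit 426323) (nat_lit 13) .nil)))) (.g (nat_lit 0) (.e (nat_lit 187835) (nat_lit 0) .nil) .nil)))) (.nd (nat_lit 9) 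
(.lf (nat_lit 507346) (.g (nat_lit 2435) (.e (nat_lit 164397) (nat_lit 256) (.e (nat_lit 57372) (nat_lit 2) (.e (nat_lit 90172) (nat_lit 14) (.e (nat_lit 180244) (nat_lit 5) (.e (nat_lit 532514) (nat_lit 3) .nil))))) (.g (nat_lit 0) (.e (nat_lit 187542) (nat_lit 0) .nil) .nil))) 
(.lf (nat_lit 507858) (.g (nat_lit 2082) (.e (nat_lit 164402) (nat_lit 256) (.e (nat_lit 57371) (nat_lit 2) (.e (nat_lit 90172) (nat_lit 14) (.e (nat_lit 180244) (nat_lit 5) (.e (nat_lit 532514) (nat_lit 3) .nil))))) (.g (nat_lit 0) (.e (nat_lit 188106) (nat_lit 0) .nil) .nil))))))) (.nd (nat_lit 6) (.nd (nat_lit 7) (.nd (nat_lit 8) (.nd (nat_lit 9) 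
(.lf (nat_lit 506930) (.g (nat_lit 3486) (.e (nat_lit 164345) (nat_lit 240) (.e (nat_lit 2628) (nat_lit 164) (.e (nat_lit 172126) (nat_lit 14) (.e (nat_lit 491549) (nat_lit 9) (.e (nat_lit 336443) (nat_lit 32) (.e (nat_lit 466972) (nat_lit 21) .nil)))))) (.g (nat_lit 1) (.e (nat_lit 185452) (nat_lit 0) .nil) .nil))) 
(.lf (nat_lit 507442) (.g (nat_lit 2019) (.e (nat_lit 164398) (nat_lit 256) (.e (nat_lit 57377) (nat_lit 3) (.e (nat_lit 98370) (nat_lit 28) (.e (nat_lit 442390) (nat_lit 11) (.e (nat_lit 336387) (nat_lit 27) .nil))))) (.g (nat_lit 0) (.e (nat_lit 187643) (nat_lit 0) .nil) .nil)))) (.nd (nat_lit 9) 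
(.lf (nat_lit 507186) (.g (nat_lit 2327) (.e (nat_lit 164359) (nat_lit 246) (.e (nat_lit 2661) (nat_lit 167) (.e (nat_lit 196666) (nat_lit 13) (.e (nat_lit 65617) (nat_lit 10) (.e (nat_lit 344133) (nat_lit 26) (.e (nat_lit 557068) (nat_lit 9) (.e (nat_lit 20) (nat_lit 0) (.e (nat_lit 6232) (nat_lit 335) .nil)))))))) (.g (nat_lit 1) (.e (nat_lit 186717) (nat_lit 0) .nil) .nil))) 
(.lf (nat_lit 507698) (.g (nat_lit 2028) (.e (nat_lit 164399) (nat_lit 256) (.e (nat_lit 57409) (nat_lit 12) (.e (nat_lit 336433) (nat_lit 30) (.e (nat_lit 450588) (nat_lit 10) (.e (nat_lit 581376) (nat_lit 0) .nil))))) (.g (nat_lit 0) (.e (nat_lit 187937) (nat_lit 0) .nil) .nil))))) (.nd (nat_lit 8) (.nd (nat_lit 9) 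
(.lf (nat_lit 507058) (.g (nat_lit 4596) (.e (nat_lit 164348) (nat_lit 240) (.e (nat_lit 2610) (nat_lit 163) (.e (nat_lit 163977) (nat_lit 30) (.e (nat_lit 573485) (nat_lit 13) (.e (nat_lit 65619) (nat_lit 10) (.e (nat_lit 344117) (nat_lit 21) (.e (nat_lit 516151) (nat_lit 9) (.e (nat_lit 426097) (nat_lit 1) .nil)))))))) (.g (nat_lit 1) (.e (nat_lit 186384) (nat_lit 0) .nil) .nil))) 
(.lf (nat_lit 507570) (.g (nat_lit 1396) (.e (nat_lit 164399) (nat_lit 256) (.e (nat_lit 57375) (nat_lit 2) (.e (nat_lit 90168) (nat_lit 13) (.e (nat_lit 172123) (nat_lit 13) (.e (nat_lit 483337) (nat_lit 9) .nil))))) (.g (nat_lit 0) (.e (nat_lit 187789) (nat_lit 0) .nil) .nil)))) (.nd (nat_lit 9) 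
(.lf (nat_lit 507314) (.g (nat_lit 713) (.e (nat_lit 164396) (nat_lit 256) (.e (nat_lit 57379) (nat_lit 3) (.e (nat_lit 98369) (nat_lit 28) (.e (nat_lit 442390) (nat_lit 11) .nil)))) (.g (nat_lit 0) (.e (nat_lit 187510) (nat_lit 0) .nil) .nil))) 
(.lf (nat_lit 507826) (.g (nat_lit 2884) (.e (nat_lit 164401) (nat_lit 256) (.e (nat_lit 57378) (nat_lit 3) (.e (nat_lit 98363) (nat_lit 26) (.e (nat_lit 426321) (nat_lit 13) (.e (nat_lit 483337) (nat_lit 9) (.e (nat_lit 426107) (nat_lit 1) .nil)))))) (.g (nat_lit 1) (.e (nat_lit 188072) (nat_lit 0) .nil) .nil)))))) (.nd (nat_lit 7) (.nd (nat_lit 8) (.nd (nat_lit 9) 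
(.lf (nat_lit 506994) (.g (nat_lit 2114) (.e (nat_lit 164347) (nat_lit 240) (.e (nat_lit 2610) (nat_lit 163) (.e (nat_lit 163978) (nat_lit 30) (.e (nat_lit 573484) (nat_lit 13) (.e (nat_lit 65610) (nat_lit 10) .nil))))) (.g (nat_lit 0) (.e (nat_lit 185974) (nat_lit 0) .nil) .nil))) 
(.lf (nat_lit 507506) (.g (nat_lit 1855) (.e (nat_lit 164398) (nat_lit 256) (.e (nat_lit 57447) (nat_lit 19) (.e (nat_lit 393238) (nat_lit 17) (.e (nat_lit 3397) (nat_lit 211) .nil)))) (.g (nat_lit 0) (.e (nat_lit 187711) (nat_lit 0) .nil) .nil)))) (.nd (nat_lit 9) 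
(.lf (nat_lit 507250) (.g (nat_lit 831) (.e (nat_lit 164396) (nat_lit 256) (.e (nat_lit 57371) (nat_lit 2) (.e (nat_lit 90166) (nat_lit 13) .nil))) (.g (nat_lit 0) (.e (nat_lit 187445) (nat_lit 0) .nil) .nil))) 
(.lf (nat_lit 507762) (.g (nat_lit 1150) (.e (nat_lit 164400) (nat_lit 256) (.e (nat_lit 57375) (nat_lit 2) (.e (nat_lit 90176) (nat_lit 15) (.e (nat_lit 196352) (nat_lit 11) .nil)))) (.g (nat_lit 0) (.e (nat_lit 188005) (nat_lit 0) .nil) .nil))))) (.nd (nat_lit 8) (.nd (nat_lit 9) 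
(.lf (nat_lit 507122) (.g (nat_lit 1173) (.e (nat_lit 164353) (nat_lit 246) (.e (nat_lit 351) (nat_lit 28) (.e (nat_lit 393267) (nat_lit 23) (.e (nat_lit 426432) (nat_lit 17) (.e (nat_lit 90203) (nat_lit 21) .nil))))) (.g (nat_lit 0) (.e (nat_lit 186639) (nat_lit 0) .nil) .nil))) 
(.lf (nat_lit 507634) (.g (nat_lit 772) (.e (nat_lit 164399) (nat_lit 256) (.e (nat_lit 57378) (nat_lit 3) (.e (nat_lit 98380) (nat_lit 31) (.e (nat_lit 466952) (nat_lit 11) .nil)))) (.g (nat_lit 0) (.e (nat_lit 187867) (nat_lit 0) .nil) .nil)))) (.nd (nat_lit 9) 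
(.lf (nat_lit 507378) (.g (nat_lit 1354) (.e (nat_lit 164397) (nat_lit 256) (.e (nat_lit 57379) (nat_lit 3) (.e (nat_lit 98370) (nat_lit 28) (.e (nat_lit 450304) (nat_lit 18) .nil)))) (.g (nat_lit 0) (.e (nat_lit 187574) (nat_lit 0) .nil) .nil))) 
(.lf (nat_lit 507890) (.g (nat_lit 1454) (.e (nat_lit 164402) (nat_lit 256) (.e (nat_lit 57373) (nat_lit 2) (.e (nat_lit 90185) (nat_lit 17) (.e (nat_lit 237624) (nat_lit 13) (.e (nat_lit 483341) (nat_lit 9) .nil))))) (.g (nat_lit 0) (.e (nat_lit 188138) (nat_lit 0) .nil) .nil))))))))) (.nd (nat_lit 4) (.nd (nat_lit 5) (.nd (nat_lit 6) (.nd (nat_lit 7) (.nd (nat_lit 8) (.nd (nat_lit 9) 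
(.lf (nat_lit 506890) (.g (nat_lit 985) (.e (nat_lit 164319) (nat_lit 228) (.e (nat_lit 57412) (nat_lit 12) (.e (nat_lit 336176) (nat_lit 10) (.e (nat_lit 344154) (nat_lit 35) .nil)))) (.g (nat_lit 0) (.e (nat_lit 185258) (nat_lit 0) .nil) .nil))) 
(.lf (nat_lit 507402) (.g (nat_lit 2594) (.e (nat_lit 164398) (nat_lit 256) (.e (nat_lit 57372) (nat_lit 2) (.e (nat_lit 90174) (nat_lit 14) (.e (nat_lit 180243) (nat_lit 5) (.e (nat_lit 532515) (nat_lit 3) (.e (nat_lit 114716) (nat_lit 22) (.e (nat_lit 90128) (nat_lit 9) (.e (nat_lit 2615) (nat_lit 163) .nil)))))))) (.g (nat_lit 1) (.e (nat_lit 187599) (nat_lit 0) .nil) .nil)))) (.nd (nat_lit 9) 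
(.lf (nat_lit 507146) (.g (nat_lit 646) (.e (nat_lit 164356) (nat_lit 246) (.e (nat_lit 351) (nat_lit 28) (.e (nat_lit 393267) (nat_lit 23) (.e (nat_lit 433920) (nat_lit 17) .nil)))) (.g (nat_lit 0) (.e (nat_lit 186668) (nat_lit 0) .nil) .nil))) 
(.lf (nat_lit 507658) (.g (nat_lit 2197) (.e (nat_lit 164399) (nat_lit 256) (.e (nat_lit 57379) (nat_lit 3) (.e (nat_lit 98367) (nat_lit 27) (.e (nat_lit 434231) (nat_lit 23) (.e (nat_lit 532506) (nat_lit 2) .nil))))) (.g (nat_lit 0) (.e (nat_lit 187891) (nat_lit 0) .nil) .nil))))) (.nd (nat_lit 8) (.nd (nat_lit 9) 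
(.lf (nat_lit 507018) (.g (nat_lit 1609) (.e (nat_lit 164347) (nat_lit 240) (.e (nat_lit 2629) (nat_lit 164) (.e (nat_lit 172119) (nat_lit 12) (.e (nat_lit 475198) (nat_lit 40) (.e (nat_lit 704598) (nat_lit 6) .nil))))) (.g (nat_lit 0) (.e (nat_lit 186162) (nat_lit 0) .nil) .nil))) 
(.lf (nat_lit 507530) (.g (nat_lit 2260) (.e (nat_lit 164399) (nat_lit 256) (.e (nat_lit 57372) (nat_lit 2) (.e (nat_lit 90168) (nat_lit 13) (.e (nat_lit 172067) (nat_lit 3) (.e (nat_lit 204834) (nat_lit 19) .nil))))) (.g (nat_lit 0) (.e (nat_lit 187747) (nat_lit 0) .nil) .nil)))) (.nd (nat_lit 9) 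
(.lf (nat_lit 507274) (.g (nat_lit 1643) (.e (nat_lit 164396) (nat_lit 256) (.e (nat_lit 57372) (nat_lit 2) (.e (nat_lit 90174) (nat_lit 14) (.e (nat_lit 180243) (nat_lit 5) .nil)))) (.g (nat_lit 0) (.e (nat_lit 187469) (nat_lit 0) .nil) .nil))) 
(.lf (nat_lit 507786) (.g (nat_lit 2125) (.e (nat_lit 164400) (nat_lit 256) (.e (nat_lit 57411) (nat_lit 12) (.e (nat_lit 336443) (nat_lit 32) (.e (nat_lit 466977) (nat_lit 22) (.e (nat_lit 196656) (nat_lit 11) .nil))))) (.g (nat_lit 0) (.e (nat_lit 188029) (nat_lit 0) .nil) .nil)))))) (.nd (nat_lit 7) (.nd (nat_lit 8) (.nd (nat_lit 9) 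
(.lf (nat_lit 506954) (.g (nat_lit 587) (.e (nat_lit 164345) (nat_lit 240) (.e (nat_lit 2650) (nat_lit 166) (.e (nat_lit 188417) (nat_lit 0) .nil))) (.g (nat_lit 0) (.e (nat_lit 185636) (nat_lit 0) .nil) .nil))) 
(.lf (nat_lit 507466) (.g (nat_lit 1397) (.e (nat_lit 164398) (nat_lit 256) (.e (nat_lit 57379) (nat_lit 3) (.e (nat_lit 98365) (nat_lit 26) (.e (nat_lit 426187) (nat_lit 9) .nil)))) (.g (nat_lit 0) (.e (nat_lit 187670) (nat_lit 0) .nil) .nil)))) (.nd (nat_lit 9) 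
(.lf (nat_lit 507210) (.g (nat_lit 1376) (.e (nat_lit 164361) (nat_lit 246) (.e (nat_lit 2679) (nat_lit 168) (.e (nat_lit 204878) (nat_lit 31) (.e (nat_lit 376862) (nat_lit 22) (.e (nat_lit 90181) (nat_lit 16) .nil))))) (.g (nat_lit 0) (.e (nat_lit 186810) (nat_lit 0) .nil) .nil))) 
(.lf (nat_lit 507722) (.g (nat_lit 1805) (.e (nat_lit 164399) (nat_lit 256) (.e (nat_lit 57447) (nat_lit 19) (.e (nat_lit 393285) (nat_lit 25) (.e (nat_lit 458789) (nat_lit 23) (.e (nat_lit 532579) (nat_lit 26) .nil))))) (.g (nat_lit 0) (.e (nat_lit 187964) (nat_lit 0) .nil) .nil))))) (.nd (nat_lit 8) (.nd (nat_lit 9) 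
(.lf (nat_lit 507082) (.g (nat_lit 1610) (.e (nat_lit 164348) (nat_lit 240) (.e (nat_lit 2618) (nat_lit 164) (.e (nat_lit 172120) (nat_lit 12) (.e (nat_lit 475198) (nat_lit 40) (.e (nat_lit 704598) (nat_lit 6) .nil))))) (.g (nat_lit 0) (.e (nat_lit 186417) (nat_lit 0) .nil) .nil))) 
(.lf (nat_lit 507594) (.g (nat_lit 1303) (.e (nat_lit 164399) (nat_lit 256) (.e (nat_lit 57377) (nat_lit 3) (.e (nat_lit 98381) (nat_lit 31) (.e (nat_lit 474880) (nat_lit 18) .nil)))) (.g (nat_lit 0) (.e (nat_lit 187826) (nat_lit 0) .nil) .nil)))) (.nd (nat_lit 9) 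
(.lf (nat_lit 507338) (.g (nat_lit 2805) (.e (nat_lit 164397) (nat_lit 256) (.e (nat_lit 57371) (nat_lit 2) (.e (nat_lit 90174) (nat_lit 14) (.e (nat_lit 180243) (nat_lit 5) (.e (nat_lit 532515) (nat_lit 3) (.e (nat_lit 114716) (nat_lit 22) (.e (nat_lit 90129) (nat_lit 9) (.e (nat_lit 2604) (nat_lit 163) .nil)))))))) (.g (nat_lit 1) (.e (nat_lit 187534) (nat_lit 0) .nil) .nil))) 
(.lf (nat_lit 507850) (.g (nat_lit 807) (.e (nat_lit 164401) (nat_lit 256) (.e (nat_lit 57417) (nat_lit 12) (.e (nat_lit 336442) (nat_lit 32) .nil))) (.g (nat_lit 0) (.e (nat_lit 188096) (nat_lit 0) .nil) .nil))))))) (.nd (nat_lit 6) (.nd (nat_lit 7) (.nd (nat_lit 8) (.nd (nat_lit 9) 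
(.lf (nat_lit 506922) (.g (nat_lit 2893) (.e (nat_lit 164345) (nat_lit 240) (.e (nat_lit 2618) (nat_lit 164) (.e (nat_lit 172124) (nat_lit 14) (.e (nat_lit 491550) (nat_lit 9) (.e (nat_lit 336430) (nat_lit 29) (.e (nat_lit 442421) (nat_lit 21) .nil)))))) (.g (nat_lit 1) (.e (nat_lit 185358) (nat_lit 0) .nil) .nil))) 
(.lf (nat_lit 507434) (.g (nat_lit 683) (.e (nat_lit 164398) (nat_lit 256) (.e (nat_lit 57375) (nat_lit 2) (.e (nat_lit 90170) (nat_lit 13) .nil))) (.g (nat_lit 0) (.e (nat_lit 187633) (nat_lit 0) .nil) .nil)))) (.nd (nat_lit 9) 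
(.lf (nat_lit 507178) (.g (nat_lit 3504) (.e (nat_lit 164359) (nat_lit 246) (.e (nat_lit 2661) (nat_lit 167) (.e (nat_lit 196666) (nat_lit 13) (.e (nat_lit 65610) (nat_lit 10) (.e (nat_lit 344117) (nat_lit 21) (.e (nat_lit 524032) (nat_lit 0) (.e (nat_lit 7096) (nat_lit 380) .nil))))))) (.g (nat_lit 1) (.e (nat_lit 186709) (nat_lit 0) .nil) .nil))) 
(.lf (nat_lit 507690) (.g (nat_lit 1992) (.e (nat_lit 164399) (nat_lit 256) (.e (nat_lit 57407) (nat_lit 12) (.e (nat_lit 336443) (nat_lit 32) (.e (nat_lit 466977) (nat_lit 22) (.e (nat_lit 196653) (nat_lit 11) .nil))))) (.g (nat_lit 0) (.e (nat_lit 187929) (nat_lit 0) .nil) .nil))))) (.nd (nat_lit 8) (.nd (nat_lit 9) 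
(.lf (nat_lit 507050) (.g (nat_lit 542) (.e (nat_lit 164347) (nat_lit 240) (.e (nat_lit 2650) (nat_lit 166) (.e (nat_lit 188439) (nat_lit 20) .nil))) (.g (nat_lit 0) (.e (nat_lit 186301) (nat_lit 0) .nil) .nil))) 
(.lf (nat_lit 507562) (.g (nat_lit 1091) (.e (nat_lit 164399) (nat_lit 256) (.e (nat_lit 57373) (nat_lit 2) (.e (nat_lit 90178) (nat_lit 15) (.e (nat_lit 196352) (nat_lit 18) .nil)))) (.g (nat_lit 0) (.e (nat_lit 187780) (nat_lit 0) .nil) .nil)))) (.nd (nat_lit 9) 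
(.lf (nat_lit 507306) (.g (nat_lit 388) (.e (nat_lit 164396) (nat_lit 256) (.e (nat_lit 57379) (nat_lit 3) (.e (nat_lit 98365) (nat_lit 26) .nil))) (.g (nat_lit 0) (.e (nat_lit 187502) (nat_lit 0) .nil) .nil))) 
(.lf (nat_lit 507818) (.g (nat_lit 781) (.e (nat_lit 164401) (nat_lit 256) (.e (nat_lit 57377) (nat_lit 3) (.e (nat_lit 98380) (nat_lit 31) .nil))) (.g (nat_lit 0) (.e (nat_lit 188063) (nat_lit 0) .nil) .nil)))))) (.nd (nat_lit 7) (.nd (nat_lit 8) (.nd (nat_lit 9) 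
(.lf (nat_lit 506986) (.g (nat_lit 548) (.e (nat_lit 164346) (nat_lit 240) (.e (nat_lit 2638) (nat_lit 165) (.e (nat_lit 188160) (nat_lit 32) .nil))) (.g (nat_lit 0) (.e (nat_lit 185851) (nat_lit 0) .nil) .nil))) 
(.lf (nat_lit 507498) (.g (nat_lit 2149) (.e (nat_lit 164398) (nat_lit 256) (.e (nat_lit 57411) (nat_lit 12) (.e (nat_lit 336443) (nat_lit 32) (.e (nat_lit 466980) (nat_lit 23) .nil)))) (.g (nat_lit 0) (.e (nat_lit 187702) (nat_lit 0) .nil) .nil)))) (.nd (nat_lit 9) 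
(.lf (nat_lit 507242) (.g (nat_lit 1740) (.e (nat_lit 164406) (nat_lit 258) (.e (nat_lit 163871) (nat_lit 2) (.e (nat_lit 196668) (nat_lit 14) (.e (nat_lit 73736) (nat_lit 0) .nil)))) (.g (nat_lit 0) (.e (nat_lit 187432) (nat_lit 0) .nil) .nil))) 
(.lf (nat_lit 507754) (.g (nat_lit 2124) (.e (nat_lit 164400) (nat_lit 256) (.e (nat_lit 57375) (nat_lit 2) (.e (nat_lit 90167) (nat_lit 13) (.e (nat_lit 172067) (nat_lit 3) (.e (nat_lit 204838) (nat_lit 20) .nil))))) (.g (nat_lit 0) (.e (nat_lit 187997) (nat_lit 0) .nil) .nil))))) (.nd (nat_lit 8) (.nd (nat_lit 9) 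
(.lf (nat_lit 507114) (.g (nat_lit 3660) (.e (nat_lit 164351) (nat_lit 246) (.e (nat_lit 2668) (nat_lit 167) (.e (nat_lit 196666) (nat_lit 13) (.e (nat_lit 65610) (nat_lit 10) (.e (nat_lit 344117) (nat_lit 21) (.e (nat_lit 516106) (nat_lit 0) (.e (nat_lit 7936) (nat_lit 380) .nil))))))) (.g (nat_lit 1) (.e (nat_lit 186579) (nat_lit 0) .nil) .nil))) 
(.lf (nat_lit 507626) (.g (nat_lit 3377) (.e (nat_lit 164399) (nat_lit 256) (.e (nat_lit 57378) (nat_lit 3) (.e (nat_lit 98368) (nat_lit 27) (.e (nat_lit 434245) (nat_lit 28) (.e (nat_lit 573488) (nat_lit 14) (.e (nat_lit 73755) (nat_lit 8) (.e (nat_lit 557067) (nat_lit 9) (.e (nat_lit 2598) (nat_lit 163) .nil)))))))) (.g (nat_lit 1) (.e (nat_lit 187859) (nat_lit 0) .nil) .nil)))) 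
(.nd (nat_lit 9) 
(.lf (nat_lit 507370) (.g (nat_lit 872) (.e (nat_lit 164397) (nat_lit 256) (.e (nat_lit 57378) (nat_lit 3) (.e (nat_lit 98365) (nat_lit 26) .nil))) (.g (nat_lit 0) (.e (nat_lit 187566) (nat_lit 0) .nil) .nil))) 
(.lf (nat_lit 507882) (.g (nat_lit 2027) (.e (nat_lit 164402) (nat_lit 256) (.e (nat_lit 57373) (nat_lit 2) (.e (nat_lit 90174) (nat_lit 14) (.e (nat_lit 180243) (nat_lit 5) (.e (nat_lit 532515) (nat_lit 3) .nil))))) (.g (nat_lit 0) (.e (nat_lit 188130) (nat_lit 0) .nil) .nil)))))))) (.nd (nat_lit 5) (.nd (nat_lit 6) (.nd (nat_lit 7) (.nd (nat_lit 8) (.nd (nat_lit 9) 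
(.lf (nat_lit 506906) (.g (nat_lit 2712) (.e (nat_lit 171776) (nat_lit 233) (.e (nat_lit 8234) (nat_lit 20) (.e (nat_lit 573482) (nat_lit 13) (.e (nat_lit 65619) (nat_lit 10) (.e (nat_lit 344117) (nat_lit 21) .nil))))) (.g (nat_lit 0) (.e (nat_lit 185310) (nat_lit 0) .nil) .nil))) 
(.lf (nat_lit 507418) (.g (nat_lit 2358) (.e (nat_lit 164398) (nat_lit 256) (.e (nat_lit 57373) (nat_lit 2) (.e (nat_lit 90174) (nat_lit 14) (.e (nat_lit 180243) (nat_lit 5) (.e (nat_lit 532515) (nat_lit 3) (.e (nat_lit 114716) (nat_lit 22) (.e (nat_lit 90129) (nat_lit 9) (.e (nat_lit 2598) (nat_lit 163) .nil)))))))) (.g (nat_lit 1) (.e (nat_lit 187616) (nat_lit 0) .nil) .nil)))) (.nd (nat_lit 9) 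
(.lf (nat_lit 507162) (.g (nat_lit 749) (.e (nat_lit 164358) (nat_lit 246) (.e (nat_lit 226) (nat_lit 21) (.e (nat_lit 336443) (nat_lit 32) (.e (nat_lit 474880) (nat_lit 2) .nil)))) (.g (nat_lit 0) (.e (nat_lit 186688) (nat_lit 0) .nil) .nil))) 
(.lf (nat_lit 507674) (.g (nat_lit 1912) (.e (nat_lit 164399) (nat_lit 256) (.e (nat_lit 57389) (nat_lit 5) (.e (nat_lit 114716) (nat_lit 22) (.e (nat_lit 90160) (nat_lit 11) (.e (nat_lit 24617) (nat_lit 7) .nil))))) (.g (nat_lit 0) (.e (nat_lit 187908) (nat_lit 0) .nil) .nil))))) (.nd (nat_lit 8) (.nd (nat_lit 9) 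
(.lf (nat_lit 507034) (.g (nat_lit 1826) (.e (nat_lit 164347) (nat_lit 240) (.e (nat_lit 2638) (nat_lit 165) (.e (nat_lit 180278) (nat_lit 32) (.e (nat_lit 1660) (nat_lit 115) (.e (nat_lit 393277) (nat_lit 23) (.e (nat_lit 426103) (nat_lit 1) .nil)))))) (.g (nat_lit 1) (.e (nat_lit 186224) (nat_lit 0) .nil) .nil))) 
(.lf (nat_lit 507546) (.g (nat_lit 680) (.e (nat_lit 164399) (nat_lit 256) (.e (nat_lit 57372) (nat_lit 2) (.e (nat_lit 90186) (nat_lit 17) .nil))) (.g (nat_lit 0) (.e (nat_lit 187763) (nat_lit 0) .nil) .nil)))) (.nd (nat_lit 9) 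
(.lf (nat_lit 507290) (.g (nat_lit 1660) (.e (nat_lit 164396) (nat_lit 256) (.e (nat_lit 57375) (nat_lit 2) (.e (nat_lit 90176) (nat_lit 15) (.e (nat_lit 188421) (nat_lit 11) (.e (nat_lit 336387) (nat_lit 27) .nil))))) (.g (nat_lit 0) (.e (nat_lit 187485) (nat_lit 0) .nil) .nil))) 
(.lf (nat_lit 507802) (.g (nat_lit 1916) (.e (nat_lit 164401) (nat_lit 256) (.e (nat_lit 57373) (nat_lit 2) (.e (nat_lit 90174) (nat_lit 14) (.e (nat_lit 180243) (nat_lit 5) (.e (nat_lit 532513) (nat_lit 3) .nil))))) (.g (nat_lit 0) (.e (nat_lit 188045) (nat_lit 0) .nil) .nil)))))) (.nd (nat_lit 7) (.nd (nat_lit 8) (.nd (nat_lit 9) 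
(.lf (nat_lit 506970) (.g (nat_lit 2186) (.e (nat_lit 164346) (nat_lit 240) (.e (nat_lit 2619) (nat_lit 164) (.e (nat_lit 172126) (nat_lit 14) (.e (nat_lit 491568) (nat_lit 13) (.e (nat_lit 393266) (nat_lit 23) .nil))))) (.g (nat_lit 0) (.e (nat_lit 185776) (nat_lit 0) .nil) .nil))) 
(.lf (nat_lit 507482) (.g (nat_lit 820) (.e (nat_lit 164398) (nat_lit 256) (.e (nat_lit 57406) (nat_lit 12) (.e (nat_lit 336426) (nat_lit 29) .nil))) (.g (nat_lit 0) (.e (nat_lit 187686) (nat_lit 0) .nil) .nil)))) (.nd (nat_lit 9) 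
(.lf (nat_lit 507226) (.g (nat_lit 2100) (.e (nat_lit 164366) (nat_lit 246) (.e (nat_lit 3090) (nat_lit 191) (.e (nat_lit 483372) (nat_lit 21) (.e (nat_lit 319505) (nat_lit 10) .nil)))) (.g (nat_lit 0) (.e (nat_lit 186962) (nat_lit 0) .nil) .nil))) 
(.lf (nat_lit 507738) (.g (nat_lit 2638) (.e (nat_lit 164400) (nat_lit 256) (.e (nat_lit 57372) (nat_lit 2) (.e (nat_lit 90174) (nat_lit 14) (.e (nat_lit 180243) (nat_lit 5) (.e (nat_lit 532515) (nat_lit 3) (.e (nat_lit 114716) (nat_lit 22) (.e (nat_lit 90128) (nat_lit 9) (.e (nat_lit 2615) (nat_lit 163) .nil)))))))) (.g (nat_lit 1) (.e (nat_lit 187981) (nat_lit 0) .nil) .nil))))) 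
(.nd (nat_lit 8) (.nd (nat_lit 9) 
(.lf (nat_lit 507098) (.g (nat_lit 1999) (.e (nat_lit 164348) (nat_lit 240) (.e (nat_lit 2640) (nat_lit 165) (.e (nat_lit 180277) (nat_lit 32) (.e (nat_lit 1660) (nat_lit 115) (.e (nat_lit 393277) (nat_lit 23) (.e (nat_lit 426103) (nat_lit 1) .nil)))))) (.g (nat_lit 1) (.e (nat_lit 186496) (nat_lit 0) .nil) .nil))) 
(.lf (nat_lit 507610) (.g (nat_lit 3314) (.e (nat_lit 164399) (nat_lit 256) (.e (nat_lit 57378) (nat_lit 3) (.e (nat_lit 98365) (nat_lit 26) (.e (nat_lit 426187) (nat_lit 9) (.e (nat_lit 426568) (nat_lit 34) (.e (nat_lit 393252) (nat_lit 18) .nil)))))) (.g (nat_lit 1) (.e (nat_lit 187843) (nat_lit 0) .nil) .nil)))) (.nd (nat_lit 9) 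
(.lf (nat_lit 507354) (.g (nat_lit 2322) (.e (nat_lit 164397) (nat_lit 256) (.e (nat_lit 57373) (nat_lit 2) (.e (nat_lit 90172) (nat_lit 14) (.e (nat_lit 180244) (nat_lit 5) (.e (nat_lit 532515) (nat_lit 3) .nil))))) (.g (nat_lit 0) (.e (nat_lit 187550) (nat_lit 0) .nil) .nil))) 
(.lf (nat_lit 507866) (.g (nat_lit 4891) (.e (nat_lit 164402) (nat_lit 256) (.e (nat_lit 57371) (nat_lit 2) (.e (nat_lit 90174) (nat_lit 14) (.e (nat_lit 180251) (nat_lit 10) (.e (nat_lit 573489) (nat_lit 14) (.e (nat_lit 73755) (nat_lit 8) (.e (nat_lit 557067) (nat_lit 9) (.e (nat_lit 2606) (nat_lit 163) .nil)))))))) (.g (nat_lit 1) (.e (nat_lit 188114) (nat_lit 0) .nil) .nil))))))) 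
(.nd (nat_lit 6) (.nd (nat_lit 7) (.nd (nat_lit 8) (.nd (nat_lit 9) 
(.lf (nat_lit 506938) (.g (nat_lit 1377) (.e (nat_lit 164345) (nat_lit 240) (.e (nat_lit 2638) (nat_lit 165) (.e (nat_lit 180277) (nat_lit 32) (.e (nat_lit 1659) (nat_lit 115) (.e (nat_lit 401152) (nat_lit 23) .nil))))) (.g (nat_lit 0) (.e (nat_lit 185522) (nat_lit 0) .nil) .nil))) 
(.lf (nat_lit 507450) (.g (nat_lit 1261) (.e (nat_lit 164398) (nat_lit 256) (.e (nat_lit 57378) (nat_lit 3) (.e (nat_lit 98365) (nat_lit 26) (.e (nat_lit 426188) (nat_lit 9) .nil)))) (.g (nat_lit 0) (.e (nat_lit 187654) (nat_lit 0) .nil) .nil)))) (.nd (nat_lit 9) 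
(.lf (nat_lit 507194) (.g (nat_lit 1943) (.e (nat_lit 164359) (nat_lit 246) (.e (nat_lit 2679) (nat_lit 168) (.e (nat_lit 204868) (nat_lit 29) (.e (nat_lit 360466) (nat_lit 3) (.e (nat_lit 516105) (nat_lit 0) (.e (nat_lit 7936) (nat_lit 380) .nil)))))) (.g (nat_lit 1) (.e (nat_lit 186725) (nat_lit 0) .nil) .nil))) 
(.lf (nat_lit 507706) (.g (nat_lit 964) (.e (nat_lit 164399) (nat_lit 256) (.e (nat_lit 57411) (nat_lit 12) (.e (nat_lit 336443) (nat_lit 32) (.e (nat_lit 466979) (nat_lit 23) .nil)))) (.g (nat_lit 0) (.e (nat_lit 187945) (nat_lit 0) .nil) .nil))))) (.nd (nat_lit 8) (.nd (nat_lit 9) 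
(.lf (nat_lit 507066) (.g (nat_lit 4424) (.e (nat_lit 164348) (nat_lit 240) (.e (nat_lit 2610) (nat_lit 163) (.e (nat_lit 163977) (nat_lit 30) (.e (nat_lit 573493) (nat_lit 15) (.e (nat_lit 81956) (nat_lit 23) (.e (nat_lit 98359) (nat_lit 26) (.e (nat_lit 426097) (nat_lit 1) .nil))))))) (.g (nat_lit 1) (.e (nat_lit 186392) (nat_lit 0) .nil) .nil))) 
(.lf (nat_lit 507578) (.g (nat_lit 2595) (.e (nat_lit 164399) (nat_lit 256) (.e (nat_lit 57377) (nat_lit 3) (.e (nat_lit 98358) (nat_lit 26) (.e (nat_lit 426323) (nat_lit 13) (.e (nat_lit 483337) (nat_lit 9) .nil))))) (.g (nat_lit 0) (.e (nat_lit 187797) (nat_lit 0) .nil) .nil)))) (.nd (nat_lit 9) 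
(.lf (nat_lit 507322) (.g (nat_lit 2151) (.e (nat_lit 164396) (nat_lit 256) (.e (nat_lit 57407) (nat_lit 12) (.e (nat_lit 336443) (nat_lit 32) (.e (nat_lit 466977) (nat_lit 22) (.e (nat_lit 196656) (nat_lit 11) .nil))))) (.g (nat_lit 0) (.e (nat_lit 187518) (nat_lit 0) .nil) .nil))) 
(.lf (nat_lit 507834) (.g (nat_lit 2766) (.e (nat_lit 164401) (nat_lit 256) (.e (nat_lit 57378) (nat_lit 3) (.e (nat_lit 98368) (nat_lit 27) (.e (nat_lit 434231) (nat_lit 23) (.e (nat_lit 532514) (nat_lit 3) .nil))))) (.g (nat_lit 0) (.e (nat_lit 188080) (nat_lit 0) .nil) .nil)))))) (.nd (nat_lit 7) (.nd (nat_lit 8) (.nd (nat_lit 9) 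
(.lf (nat_lit 507002) (.g (nat_lit 5033) (.e (nat_lit 164347) (nat_lit 240) (.e (nat_lit 2610) (nat_lit 163) (.e (nat_lit 163979) (nat_lit 30) (.e (nat_lit 573493) (nat_lit 15) (.e (nat_lit 81956) (nat_lit 23) (.e (nat_lit 98361) (nat_lit 26) (.e (nat_lit 426109) (nat_lit 1) .nil))))))) (.g (nat_lit 1) (.e (nat_lit 185982) (nat_lit 0) .nil) .nil))) 
(.lf (nat_lit 507514) (.g (nat_lit 2315) (.e (nat_lit 164399) (nat_lit 256) (.e (nat_lit 57370) (nat_lit 2) (.e (nat_lit 90170) (nat_lit 13) (.e (nat_lit 172121) (nat_lit 13) (.e (nat_lit 483341) (nat_lit 9) .nil))))) (.g (nat_lit 0) (.e (nat_lit 187722) (nat_lit 0) .nil) .nil)))) (.nd (nat_lit 9) 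
(.lf (nat_lit 507258) (.g (nat_lit 2636) (.e (nat_lit 164396) (nat_lit 256) (.e (nat_lit 57371) (nat_lit 2) (.e (nat_lit 90174) (nat_lit 14) (.e (nat_lit 180243) (nat_lit 5) (.e (nat_lit 532515) (nat_lit 3) (.e (nat_lit 114716) (nat_lit 22) (.e (nat_lit 90129) (nat_lit 9) (.e (nat_lit 2603) (nat_lit 163) .nil)))))))) (.g (nat_lit 1) (.e (nat_lit 187453) (nat_lit 0) .nil) .nil))) 
(.lf (nat_lit 507770) (.g (nat_lit 1474) (.e (nat_lit 164400) (nat_lit 256) (.e (nat_lit 57379) (nat_lit 3) (.e (nat_lit 98365) (nat_lit 26) (.e (nat_lit 426187) (nat_lit 9) .nil)))) (.g (nat_lit 0) (.e (nat_lit 188013) (nat_lit 0) .nil) .nil))))) (.nd (nat_lit 8) (.nd (nat_lit 9) 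
(.lf (nat_lit 507130) (.g (nat_lit 233) (.e (nat_lit 164353) (nat_lit 246) (.e (nat_lit 351) (nat_lit 28) (.e (nat_lit 393279) (nat_lit 23) .nil))) (.g (nat_lit 0) (.e (nat_lit 186647) (nat_lit 0) .nil) .nil))) 
(.lf (nat_lit 507642) (.g (nat_lit 1327) (.e (nat_lit 164399) (nat_lit 256) (.e (nat_lit 57379) (nat_lit 3) (.e (nat_lit 98356) (nat_lit 26) (.e (nat_lit 426323) (nat_lit 13) .nil)))) (.g (nat_lit 0) (.e (nat_lit 187875) (nat_lit 0) .nil) .nil)))) (.nd (nat_lit 9) 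
(.lf (nat_lit 507386) (.g (nat_lit 1227) (.e (nat_lit 164397) (nat_lit 256) (.e (nat_lit 57411) (nat_lit 12) (.e (nat_lit 336432) (nat_lit 30) .nil))) (.g (nat_lit 0) (.e (nat_lit 187582) (nat_lit 0) .nil) .nil))) 
(.lf (nat_lit 507898) (.g (nat_lit 725) (.e (nat_lit 164402) (nat_lit 256) (.e (nat_lit 57377) (nat_lit 3) (.e (nat_lit 98380) (nat_lit 31) .nil))) (.g (nat_lit 0) (.e (nat_lit 188148) (nat_lit 0) .nil) .nil)))))))))) (.nd (nat_lit 3) (.nd (nat_lit 4) (.nd (nat_lit 5) (.nd (nat_lit 6) (.nd (nat_lit 7) (.nd (nat_lit 8) (.nd (nat_lit 9) 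
(.lf (nat_lit 506886) (.g (nat_lit 1619) (.e (nat_lit 164319) (nat_lit 228) (.e (nat_lit 57412) (nat_lit 12) (.e (nat_lit 336173) (nat_lit 10) (.e (nat_lit 344156) (nat_lit 36) (.e (nat_lit 638999) (nat_lit 8) .nil))))) (.g (nat_lit 0) (.e (nat_lit 185254) (nat_lit 0) .nil) .nil))) 
(.lf (nat_lit 507398) (.g (nat_lit 1430) (.e (nat_lit 164398) (nat_lit 256) (.e (nat_lit 57371) (nat_lit 2) (.e (nat_lit 90185) (nat_lit 17) (.e (nat_lit 237601) (nat_lit 9) .nil)))) (.g (nat_lit 0) (.e (nat_lit 187595) (nat_lit 0) .nil) .nil)))) (.nd (nat_lit 9) 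
(.lf (nat_lit 507142) (.g (nat_lit 602) (.e (nat_lit 164355) (nat_lit 246) (.e (nat_lit 112) (nat_lit 3) (.e (nat_lit 98381) (nat_lit 31) (.e (nat_lit 466954) (nat_lit 11) .nil)))) (.g (nat_lit 0) (.e (nat_lit 186663) (nat_lit 0) .nil) .nil))) 
(.lf (nat_lit 507654) (.g (nat_lit 2752) (.e (nat_lit 164399) (nat_lit 256) (.e (nat_lit 57379) (nat_lit 3) (.e (nat_lit 98365) (nat_lit 26) (.e (nat_lit 426325) (nat_lit 13) (.e (nat_lit 483339) (nat_lit 9) (.e (nat_lit 433920) (nat_lit 1) .nil)))))) (.g (nat_lit 1) (.e (nat_lit 187887) (nat_lit 0) .nil) .nil))))) (.nd (nat_lit 8) (.nd (nat_lit 9) 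
(.lf (nat_lit 507014) (.g (nat_lit 2168) (.e (nat_lit 164347) (nat_lit 240) (.e (nat_lit 2619) (nat_lit 164) (.e (nat_lit 172124) (nat_lit 14) (.e (nat_lit 491569) (nat_lit 13) (.e (nat_lit 393277) (nat_lit 23) (.e (nat_lit 426109) (nat_lit 1) .nil)))))) (.g (nat_lit 1) (.e (nat_lit 186051) (nat_lit 0) .nil) .nil))) 
(.lf (nat_lit 507526) (.g (nat_lit 833) (.e (nat_lit 164399) (nat_lit 256) (.e (nat_lit 57372) (nat_lit 2) (.e (nat_lit 90167) (nat_lit 13) (.e (nat_lit 172088) (nat_lit 9) .nil)))) (.g (nat_lit 0) (.e (nat_lit 187743) (nat_lit 0) .nil) .nil)))) (.nd (nat_lit 9) 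
(.lf (nat_lit 507270) (.g (nat_lit 1744) (.e (nat_lit 164396) (nat_lit 256) (.e (nat_lit 57371) (nat_lit 2) (.e (nat_lit 90185) (nat_lit 17) (.e (nat_lit 237605) (nat_lit 9) (.e (nat_lit 426566) (nat_lit 34) .nil))))) (.g (nat_lit 0) (.e (nat_lit 187465) (nat_lit 0) .nil) .nil))) 
(.lf (nat_lit 507782) (.g (nat_lit 1949) (.e (nat_lit 164400) (nat_lit 256) (.e (nat_lit 57409) (nat_lit 12) (.e (nat_lit 336443) (nat_lit 32) (.e (nat_lit 466977) (nat_lit 22) .nil)))) (.g (nat_lit 0) (.e (nat_lit 188025) (nat_lit 0) .nil) .nil)))))) (.nd (nat_lit 7) (.nd (nat_lit 8) (.nd (nat_lit 9) 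
(.lf (nat_lit 506950) (.g (nat_lit 1361) (.e (nat_lit 164345) (nat_lit 240) (.e (nat_lit 2640) (nat_lit 165) (.e (nat_lit 180278) (nat_lit 32) (.e (nat_lit 1659) (nat_lit 115) (.e (nat_lit 393281) (nat_lit 23) .nil))))) (.g (nat_lit 0) (.e (nat_lit 185552) (nat_lit 0) .nil) .nil))) 
(.lf (nat_lit 507462) (.g (nat_lit 737) (.e (nat_lit 164398) (nat_lit 256) (.e (nat_lit 57379) (nat_lit 3) (.e (nat_lit 98354) (nat_lit 26) .nil))) (.g (nat_lit 0) (.e (nat_lit 187666) (nat_lit 0) .nil) .nil)))) (.nd (nat_lit 9) 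
(.lf (nat_lit 507206) (.g (nat_lit 1434) (.e (nat_lit 164359) (nat_lit 246) (.e (nat_lit 3085) (nat_lit 191) (.e (nat_lit 483394) (nat_lit 24) (.e (nat_lit 344160) (nat_lit 37) (.e (nat_lit 655104) (nat_lit 15) .nil))))) (.g (nat_lit 0) (.e (nat_lit 186770) (nat_lit 0) .nil) .nil))) 
(.lf (nat_lit 507718) (.g (nat_lit 819) (.e (nat_lit 164399) (nat_lit 256) (.e (nat_lit 57447) (nat_lit 19) (.e (nat_lit 393238) (nat_lit 17) .nil))) (.g (nat_lit 0) (.e (nat_lit 187960) (nat_lit 0) .nil) .nil))))) (.nd (nat_lit 8) (.nd (nat_lit 9) 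
(.lf (nat_lit 507078) (.g (nat_lit 4701) (.e (nat_lit 164348) (nat_lit 240) (.e (nat_lit 2610) (nat_lit 163) (.e (nat_lit 163979) (nat_lit 30) (.e (nat_lit 573493) (nat_lit 15) (.e (nat_lit 81956) (nat_lit 23) (.e (nat_lit 98356) (nat_lit 26) (.e (nat_lit 433920) (nat_lit 1) .nil))))))) (.g (nat_lit 1) (.e (nat_lit 186404) (nat_lit 0) .nil) .nil))) 
(.lf (nat_lit 507590) (.g (nat_lit 1906) (.e (nat_lit 164399) (nat_lit 256) (.e (nat_lit 57377) (nat_lit 3) (.e (nat_lit 98377) (nat_lit 30) (.e (nat_lit 458789) (nat_lit 23) (.e (nat_lit 532513) (nat_lit 3) .nil))))) (.g (nat_lit 0) (.e (nat_lit 187821) (nat_lit 0) .nil) .nil)))) (.nd (nat_lit 9) 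
(.lf (nat_lit 507334) (.g (nat_lit 2308) (.e (nat_lit 164397) (nat_lit 256) (.e (nat_lit 57371) (nat_lit 2) (.e (nat_lit 90174) (nat_lit 14) (.e (nat_lit 180243) (nat_lit 5) (.e (nat_lit 532508) (nat_lit 2) .nil))))) (.g (nat_lit 0) (.e (nat_lit 187530) (nat_lit 0) .nil) .nil))) 
(.lf (nat_lit 507846) (.g (nat_lit 837) (.e (nat_lit 164401) (nat_lit 256) (.e (nat_lit 57406) (nat_lit 12) (.e (nat_lit 336444) (nat_lit 32) .nil))) (.g (nat_lit 0) (.e (nat_lit 188092) (nat_lit 0) .nil) .nil))))))) (.nd (nat_lit 6) (.nd (nat_lit 7) (.nd (nat_lit 8) (.nd (nat_lit 9) 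
(.lf (nat_lit 506918) (.g (nat_lit 5666) (.e (nat_lit 164345) (nat_lit 240) (.e (nat_lit 2611) (nat_lit 163) (.e (nat_lit 163978) (nat_lit 30) (.e (nat_lit 573485) (nat_lit 13) (.e (nat_lit 65619) (nat_lit 10) (.e (nat_lit 344117) (nat_lit 21) (.e (nat_lit 516151) (nat_lit 9) (.e (nat_lit 426104) (nat_lit 1) .nil)))))))) (.g (nat_lit 1) (.e (nat_lit 185334) (nat_lit 0) .nil) .nil))) 
(.lf (nat_lit 507430) (.g (nat_lit 2577) (.e (nat_lit 164398) (nat_lit 256) (.e (nat_lit 57374) (nat_lit 2) (.e (nat_lit 90170) (nat_lit 13) (.e (nat_lit 172121) (nat_lit 13) (.e (nat_lit 483341) (nat_lit 9) .nil))))) (.g (nat_lit 0) (.e (nat_lit 187629) (nat_lit 0) .nil) .nil)))) (.nd (nat_lit 9) 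
(.lf (nat_lit 507174) (.g (nat_lit 1324) (.e (nat_lit 164358) (nat_lit 246) (.e (nat_lit 351) (nat_lit 28) (.e (nat_lit 393294) (nat_lit 26) (.e (nat_lit 475169) (nat_lit 22) (.e (nat_lit 499791) (nat_lit 3) .nil))))) (.g (nat_lit 0) (.e (nat_lit 186702) (nat_lit 0) .nil) .nil))) 
(.lf (nat_lit 507686) (.g (nat_lit 962) (.e (nat_lit 164399) (nat_lit 256) (.e (nat_lit 57407) (nat_lit 12) (.e (nat_lit 336433) (nat_lit 30) .nil))) (.g (nat_lit 0) (.e (nat_lit 187925) (nat_lit 0) .nil) .nil))))) (.nd (nat_lit 8) (.nd (nat_lit 9) 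
(.lf (nat_lit 507046) (.g (nat_lit 352) (.e (nat_lit 164347) (nat_lit 240) (.e (nat_lit 2648) (nat_lit 166) (.e (nat_lit 188418) (nat_lit 0) .nil))) (.g (nat_lit 0) (.e (nat_lit 186245) (nat_lit 0) .nil) .nil))) 
(.lf (nat_lit 507558) (.g (nat_lit 4310) (.e (nat_lit 164399) (nat_lit 256) (.e (nat_lit 57373) (nat_lit 2) (.e (nat_lit 90174) (nat_lit 14) (.e (nat_lit 180250) (nat_lit 10) (.e (nat_lit 573489) (nat_lit 14) (.e (nat_lit 73755) (nat_lit 8) (.e (nat_lit 557067) (nat_lit 9) (.e (nat_lit 2598) (nat_lit 163) .nil)))))))) (.g (nat_lit 1) (.e (nat_lit 187776) (nat_lit 0) .nil) .nil)))) 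
(.nd (nat_lit 9) 
(.lf (nat_lit 507302) (.g (nat_lit 2717) (.e (nat_lit 164396) (nat_lit 256) (.e (nat_lit 57378) (nat_lit 3) (.e (nat_lit 98365) (nat_lit 26) (.e (nat_lit 426188) (nat_lit 9) (.e (nat_lit 426566) (nat_lit 34) .nil))))) (.g (nat_lit 0) (.e (nat_lit 187498) (nat_lit 0) .nil) .nil))) 
(.lf (nat_lit 507814) (.g (nat_lit 1114) (.e (nat_lit 164401) (nat_lit 256) (.e (nat_lit 57377) (nat_lit 3) (.e (nat_lit 98363) (nat_lit 26) (.e (nat_lit 426230) (nat_lit 9) .nil)))) (.g (nat_lit 0) (.e (nat_lit 188057) (nat_lit 0) .nil) .nil)))))) (.nd (nat_lit 7) (.nd (nat_lit 8) (.nd (nat_lit 9) 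
(.lf (nat_lit 506982) (.g (nat_lit 2437) (.e (nat_lit 164346) (nat_lit 240) (.e (nat_lit 2638) (nat_lit 165) (.e (nat_lit 180278) (nat_lit 32) (.e (nat_lit 1658) (nat_lit 115) (.e (nat_lit 393266) (nat_lit 23) (.e (nat_lit 426109) (nat_lit 1) .nil)))))) (.g (nat_lit 1) (.e (nat_lit 185843) (nat_lit 0) .nil) .nil))) 
(.lf (nat_lit 507494) (.g (nat_lit 569) (.e (nat_lit 164398) (nat_lit 256) (.e (nat_lit 57409) (nat_lit 12) (.e (nat_lit 336444) (nat_lit 32) .nil))) (.g (nat_lit 0) (.e (nat_lit 187698) (nat_lit 0) .nil) .nil)))) (.nd (nat_lit 9) 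
(.lf (nat_lit 507238) (.g (nat_lit 383) (.e (nat_lit 164377) (nat_lit 253) (.e (nat_lit 237636) (nat_lit 27) (.e (nat_lit 336229) (nat_lit 14) .nil))) (.g (nat_lit 0) (.e (nat_lit 187422) (nat_lit 0) .nil) .nil))) 
(.lf (nat_lit 507750) (.g (nat_lit 2805) (.e (nat_lit 164400) (nat_lit 256) (.e (nat_lit 57374) (nat_lit 2) (.e (nat_lit 90170) (nat_lit 13) (.e (nat_lit 172067) (nat_lit 3) (.e (nat_lit 204837) (nat_lit 20) .nil))))) (.g (nat_lit 0) (.e (nat_lit 187993) (nat_lit 0) .nil) .nil))))) (.nd (nat_lit 8) (.nd (nat_lit 9) 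
(.lf (nat_lit 507110) (.g (nat_lit 808) (.e (nat_lit 164351) (nat_lit 246) (.e (nat_lit 226) (nat_lit 21) (.e (nat_lit 336432) (nat_lit 30) .nil))) (.g (nat_lit 0) (.e (nat_lit 186574) (nat_lit 0) .nil) .nil))) 
(.lf (nat_lit 507622) (.g (nat_lit 2301) (.e (nat_lit 164399) (nat_lit 256) (.e (nat_lit 57378) (nat_lit 3) (.e (nat_lit 98367) (nat_lit 27) (.e (nat_lit 434231) (nat_lit 23) (.e (nat_lit 532507) (nat_lit 2) .nil))))) (.g (nat_lit 0) (.e (nat_lit 187855) (nat_lit 0) .nil) .nil)))) (.nd (nat_lit 9) 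
(.lf (nat_lit 507366) (.g (nat_lit 1073) (.e (nat_lit 164397) (nat_lit 256) (.e (nat_lit 57375) (nat_lit 2) (.e (nat_lit 90176) (nat_lit 15) (.e (nat_lit 188423) (nat_lit 11) (.e (nat_lit 336387) (nat_lit 27) .nil))))) (.g (nat_lit 0) (.e (nat_lit 187562) (nat_lit 0) .nil) .nil))) 
(.lf (nat_lit 507878) (.g (nat_lit 739) (.e (nat_lit 164402) (nat_lit 256) (.e (nat_lit 57373) (nat_lit 2) (.e (nat_lit 90174) (nat_lit 14) .nil))) (.g (nat_lit 0) (.e (nat_lit 188126) (nat_lit 0) .nil) .nil)))))))) (.nd (nat_lit 5) (.nd (nat_lit 6) (.nd (nat_lit 7) (.nd (nat_lit 8) (.nd (nat_lit 9) 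
(.lf (nat_lit 506902) (.g (nat_lit 1532) (.e (nat_lit 164319) (nat_lit 228) (.e (nat_lit 57437) (nat_lit 17) (.e (nat_lit 376859) (nat_lit 21) (.e (nat_lit 57833) (nat_lit 250) .nil)))) (.g (nat_lit 0) (.e (nat_lit 185286) (nat_lit 0) .nil) .nil))) 
(.lf (nat_lit 507414) (.g (nat_lit 1729) (.e (nat_lit 164398) (nat_lit 256) (.e (nat_lit 57373) (nat_lit 2) (.e (nat_lit 90174) (nat_lit 14) (.e (nat_lit 180243) (nat_lit 5) (.e (nat_lit 532513) (nat_lit 3) .nil))))) (.g (nat_lit 0) (.e (nat_lit 187612) (nat_lit 0) .nil) .nil)))) (.nd (nat_lit 9) 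
(.lf (nat_lit 507158) (.g (nat_lit 768) (.e (nat_lit 164358) (nat_lit 246) (.e (nat_lit 226) (nat_lit 21) (.e (nat_lit 336428) (nat_lit 29) (.e (nat_lit 450304) (nat_lit 2) .nil)))) (.g (nat_lit 0) (.e (nat_lit 186682) (nat_lit 0) .nil) .nil))) 
(.lf (nat_lit 507670) (.g (nat_lit 3845) (.e (nat_lit 164399) (nat_lit 256) (.e (nat_lit 57388) (nat_lit 5) (.e (nat_lit 114714) (nat_lit 22) (.e (nat_lit 90158) (nat_lit 11) (.e (nat_lit 24651) (nat_lit 12) (.e (nat_lit 385066) (nat_lit 26) (.e (nat_lit 540416) (nat_lit 18) .nil))))))) (.g (nat_lit 1) (.e (nat_lit 187903) (nat_lit 0) .nil) .nil))))) (.nd (nat_lit 8) (.nd (nat_lit 9) 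
(.lf (nat_lit 507030) (.g (nat_lit 3585) (.e (nat_lit 164347) (nat_lit 240) (.e (nat_lit 2638) (nat_lit 165) (.e (nat_lit 180278) (nat_lit 32) (.e (nat_lit 1428) (nat_lit 108) (.e (nat_lit 336430) (nat_lit 29) (.e (nat_lit 442421) (nat_lit 21) .nil)))))) (.g (nat_lit 1) (.e (nat_lit 186220) (nat_lit 0) .nil) .nil))) 
(.lf (nat_lit 507542) (.g (nat_lit 1849) (.e (nat_lit 164399) (nat_lit 256) (.e (nat_lit 57372) (nat_lit 2) (.e (nat_lit 90176) (nat_lit 15) (.e (nat_lit 188421) (nat_lit 11) .nil)))) (.g (nat_lit 0) (.e (nat_lit 187759) (nat_lit 0) .nil) .nil)))) (.nd (nat_lit 9) 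
(.lf (nat_lit 507286) (.g (nat_lit 1526) (.e (nat_lit 164396) (nat_lit 256) (.e (nat_lit 57374) (nat_lit 2) (.e (nat_lit 90170) (nat_lit 13) (.e (nat_lit 172123) (nat_lit 13) .nil)))) (.g (nat_lit 0) (.e (nat_lit 187481) (nat_lit 0) .nil) .nil))) 
(.lf (nat_lit 507798) (.g (nat_lit 1914) (.e (nat_lit 164401) (nat_lit 256) (.e (nat_lit 57373) (nat_lit 2) (.e (nat_lit 90174) (nat_lit 14) (.e (nat_lit 180243) (nat_lit 5) (.e (nat_lit 532506) (nat_lit 2) .nil))))) (.g (nat_lit 0) (.e (nat_lit 188041) (nat_lit 0) .nil) .nil)))))) (.nd (nat_lit 7) (.nd (nat_lit 8) (.nd (nat_lit 9) 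
(.lf (nat_lit 506966) (.g (nat_lit 1519) (.e (nat_lit 164346) (nat_lit 240) (.e (nat_lit 2619) (nat_lit 164) (.e (nat_lit 172118) (nat_lit 12) (.e (nat_lit 475209) (nat_lit 41) (.e (nat_lit 712752) (nat_lit 29) .nil))))) (.g (nat_lit 0) (.e (nat_lit 185758) (nat_lit 0) .nil) .nil))) 
(.lf (nat_lit 507478) (.g (nat_lit 819) (.e (nat_lit 164398) (nat_lit 256) (.e (nat_lit 57379) (nat_lit 3) (.e (nat_lit 98379) (nat_lit 31) .nil))) (.g (nat_lit 0) (.e (nat_lit 187682) (nat_lit 0) .nil) .nil)))) (.nd (nat_lit 9) 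
(.lf (nat_lit 507222) (.g (nat_lit 752) (.e (nat_lit 164365) (nat_lit 246) (.e (nat_lit 2682) (nat_lit 168) (.e (nat_lit 204877) (nat_lit 31) (.e (nat_lit 376862) (nat_lit 22) .nil)))) (.g (nat_lit 0) (.e (nat_lit 186897) (nat_lit 0) .nil) .nil))) 
(.lf (nat_lit 507734) (.g (nat_lit 2654) (.e (nat_lit 164400) (nat_lit 256) (.e (nat_lit 57372) (nat_lit 2) (.e (nat_lit 90174) (nat_lit 14) (.e (nat_lit 180243) (nat_lit 5) (.e (nat_lit 532508) (nat_lit 2) .nil))))) (.g (nat_lit 0) (.e (nat_lit 187977) (nat_lit 0) .nil) .nil))))) (.nd (nat_lit 8) (.nd (nat_lit 9) 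
(.lf (nat_lit 507094) (.g (nat_lit 3182) (.e (nat_lit 164348) (nat_lit 240) (.e (nat_lit 2638) (nat_lit 165) (.e (nat_lit 180278) (nat_lit 32) (.e (nat_lit 1661) (nat_lit 115) (.e (nat_lit 393268) (nat_lit 23) (.e (nat_lit 433920) (nat_lit 1) .nil)))))) (.g (nat_lit 1) (.e (nat_lit 186490) (nat_lit 0) .nil) .nil))) 
(.lf (nat_lit 507606) (.g (nat_lit 1593) (.e (nat_lit 164399) (nat_lit 256) (.e (nat_lit 57378) (nat_lit 3) (.e (nat_lit 98358) (nat_lit 26) (.e (nat_lit 426323) (nat_lit 13) (.e (nat_lit 483338) (nat_lit 9) .nil))))) (.g (nat_lit 0) (.e (nat_lit 187839) (nat_lit 0) .nil) .nil)))) (.nd (nat_lit 9) 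
(.lf (nat_lit 507350) (.g (nat_lit 2479) (.e (nat_lit 164397) (nat_lit 256) (.e (nat_lit 57373) (nat_lit 2) (.e (nat_lit 90170) (nat_lit 13) (.e (nat_lit 172065) (nat_lit 3) .nil)))) (.g (nat_lit 0) (.e (nat_lit 187546) (nat_lit 0) .nil) .nil))) 
(.lf (nat_lit 507862) (.g (nat_lit 1945) (.e (nat_lit 164402) (nat_lit 256) (.e (nat_lit 57371) (nat_lit 2) (.e (nat_lit 90174) (nat_lit 14) (.e (nat_lit 180243) (nat_lit 5) (.e (nat_lit 532515) (nat_lit 3) .nil))))) (.g (nat_lit 0) (.e (nat_lit 188110) (nat_lit 0) .nil) .nil))))))) (.nd (nat_lit 6) (.nd (nat_lit 7) (.nd (nat_lit 8) (.nd (nat_lit 9) 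
(.lf (nat_lit 506934) (.g (nat_lit 2064) (.e (nat_lit 164345) (nat_lit 240) (.e (nat_lit 2629) (nat_lit 164) (.e (nat_lit 172124) (nat_lit 14) (.e (nat_lit 491547) (nat_lit 9) (.e (nat_lit 336443) (nat_lit 32) .nil))))) (.g (nat_lit 0) (.e (nat_lit 185487) (nat_lit 0) .nil) .nil))) 
(.lf (nat_lit 507446) (.g (nat_lit 2490) (.e (nat_lit 164398) (nat_lit 256) (.e (nat_lit 57378) (nat_lit 3) (.e (nat_lit 98356) (nat_lit 26) (.e (nat_lit 426323) (nat_lit 13) (.e (nat_lit 483340) (nat_lit 9) .nil))))) (.g (nat_lit 0) (.e (nat_lit 187648) (nat_lit 0) .nil) .nil)))) (.nd (nat_lit 9) 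
(.lf (nat_lit 507190) (.g (nat_lit 1885) (.e (nat_lit 164359) (nat_lit 246) (.e (nat_lit 2679) (nat_lit 168) (.e (nat_lit 204868) (nat_lit 29) (.e (nat_lit 360466) (nat_lit 3) (.e (nat_lit 516096) (nat_lit 0) (.e (nat_lit 7100) (nat_lit 380) .nil)))))) (.g (nat_lit 1) (.e (nat_lit 186721) (nat_lit 0) .nil) .nil))) 
(.lf (nat_lit 507702) (.g (nat_lit 695) (.e (nat_lit 164399) (nat_lit 256) (.e (nat_lit 57409) (nat_lit 12) (.e (nat_lit 336444) (nat_lit 32) (.e (nat_lit 466980) (nat_lit 23) .nil)))) (.g (nat_lit 0) (.e (nat_lit 187941) (nat_lit 0) .nil) .nil))))) (.nd (nat_lit 8) (.nd (nat_lit 9) 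
(.lf (nat_lit 507062) (.g (nat_lit 5051) (.e (nat_lit 164348) (nat_lit 240) (.e (nat_lit 2610) (nat_lit 163) (.e (nat_lit 163977) (nat_lit 30) (.e (nat_lit 573492) (nat_lit 15) (.e (nat_lit 81956) (nat_lit 23) (.e (nat_lit 98356) (nat_lit 26) (.e (nat_lit 433920) (nat_lit 1) .nil))))))) (.g (nat_lit 1) (.e (nat_lit 186388) (nat_lit 0) .nil) .nil))) 
(.lf (nat_lit 507574) (.g (nat_lit 1375) (.e (nat_lit 164399) (nat_lit 256) (.e (nat_lit 57377) (nat_lit 3) (.e (nat_lit 98320) (nat_lit 17) (.e (nat_lit 7306) (nat_lit 388) .nil)))) (.g (nat_lit 0) (.e (nat_lit 187793) (nat_lit 0) .nil) .nil)))) (.nd (nat_lit 9) 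
(.lf (nat_lit 507318) (.g (nat_lit 2349) (.e (nat_lit 164396) (nat_lit 256) (.e (nat_lit 57407) (nat_lit 12) (.e (nat_lit 336432) (nat_lit 30) (.e (nat_lit 450580) (nat_lit 5) (.e (nat_lit 532579) (nat_lit 26) .nil))))) (.g (nat_lit 0) (.e (nat_lit 187514) (nat_lit 0) .nil) .nil))) 
(.lf (nat_lit 507830) (.g (nat_lit 1654) (.e (nat_lit 164401) (nat_lit 256) (.e (nat_lit 57378) (nat_lit 3) (.e (nat_lit 98365) (nat_lit 26) (.e (nat_lit 426325) (nat_lit 13) (.e (nat_lit 483337) (nat_lit 9) .nil))))) (.g (nat_lit 0) (.e (nat_lit 188076) (nat_lit 0) .nil) .nil)))))) (.nd (nat_lit 7) (.nd (nat_lit 8) (.nd (nat_lit 9) 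
(.lf (nat_lit 506998) (.g (nat_lit 2463) (.e (nat_lit 164347) (nat_lit 240) (.e (nat_lit 2610) (nat_lit 163) (.e (nat_lit 163979) (nat_lit 30) (.e (nat_lit 573492) (nat_lit 15) (.e (nat_lit 81956) (nat_lit 23) .nil))))) (.g (nat_lit 0) (.e (nat_lit 185978) (nat_lit 0) .nil) .nil))) 
(.lf (nat_lit 507510) (.g (nat_lit 1250) (.e (nat_lit 164399) (nat_lit 256) (.e (nat_lit 57370) (nat_lit 2) (.e (nat_lit 90169) (nat_lit 13) (.e (nat_lit 172121) (nat_lit 13) (.e (nat_lit 483341) (nat_lit 9) .nil))))) (.g (nat_lit 0) (.e (nat_lit 187718) (nat_lit 0) .nil) .nil)))) (.nd (nat_lit 9) 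
(.lf (nat_lit 507254) (.g (nat_lit 2052) (.e (nat_lit 164396) (nat_lit 256) (.e (nat_lit 57371) (nat_lit 2) (.e (nat_lit 90174) (nat_lit 14) (.e (nat_lit 180243) (nat_lit 5) (.e (nat_lit 532513) (nat_lit 3) (.e (nat_lit 114714) (nat_lit 22) (.e (nat_lit 90129) (nat_lit 9) (.e (nat_lit 2606) (nat_lit 163) .nil)))))))) (.g (nat_lit 1) (.e (nat_lit 187449) (nat_lit 0) .nil) .nil))) 
(.lf (nat_lit 507766) (.g (nat_lit 1247) (.e (nat_lit 164400) (nat_lit 256) (.e (nat_lit 57377) (nat_lit 3) (.e (nat_lit 98365) (nat_lit 26) (.e (nat_lit 426187) (nat_lit 9) .nil)))) (.g (nat_lit 0) (.e (nat_lit 188009) (nat_lit 0) .nil) .nil))))) (.nd (nat_lit 8) (.nd (nat_lit 9) 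
(.lf (nat_lit 507126) (.g (nat_lit 1082) (.e (nat_lit 164353) (nat_lit 246) (.e (nat_lit 351) (nat_lit 28) (.e (nat_lit 393270) (nat_lit 23) (.e (nat_lit 426432) (nat_lit 17) (.e (nat_lit 90203) (nat_lit 21) .nil))))) (.g (nat_lit 0) (.e (nat_lit 186643) (nat_lit 0) .nil) .nil))) 
(.lf (nat_lit 507638) (.g (nat_lit 1723) (.e (nat_lit 164399) (nat_lit 256) (.e (nat_lit 57378) (nat_lit 3) (.e (nat_lit 98381) (nat_lit 31) (.e (nat_lit 466954) (nat_lit 11) (.e (nat_lit 336401) (nat_lit 27) .nil))))) (.g (nat_lit 0) (.e (nat_lit 187871) (nat_lit 0) .nil) .nil)))) (.nd (nat_lit 9) 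
(.lf (nat_lit 507382) (.g (nat_lit 1835) (.e (nat_lit 164397) (nat_lit 256) (.e (nat_lit 57409) (nat_lit 12) (.e (nat_lit 336443) (nat_lit 32) (.e (nat_lit 466974) (nat_lit 22) .nil)))) (.g (nat_lit 0) (.e (nat_lit 187578) (nat_lit 0) .nil) .nil))) 
(.lf (nat_lit 507894) (.g (nat_lit 2214) (.e (nat_lit 164402) (nat_lit 256) (.e (nat_lit 57377) (nat_lit 3) (.e (nat_lit 98365) (nat_lit 26) (.e (nat_lit 426327) (nat_lit 13) (.e (nat_lit 483341) (nat_lit 9) (.e (nat_lit 426108) (nat_lit 1) .nil)))))) (.g (nat_lit 1) (.e (nat_lit 188142) (nat_lit 0) .nil) .nil))))))))) 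
(.nd (nat_lit 4) (.nd (nat_lit 5) (.nd (nat_lit 6) (.nd (nat_lit 7) (.nd (nat_lit 8) 
(.nd (nat_lit 9) 
(.lf (nat_lit 506894) (.g (nat_lit 1068) (.e (nat_lit 164319) (nat_lit 228) (.e (nat_lit 57412) (nat_lit 12) (.e (nat_lit 336176) (nat_lit 10) (.e (nat_lit 344164) (nat_lit 37) .nil)))) (.g (nat_lit 0) (.e (nat_lit 185262) (nat_lit 0) .nil) .nil))) 
(.lf (nat_lit 507406) (.g (nat_lit 2943) (.e (nat_lit 164398) (nat_lit 256) (.e (nat_lit 57372) (nat_lit 2) (.e (nat_lit 90174) (nat_lit 14) (.e (nat_lit 180250) (nat_lit 10) (.e (nat_lit 573489) (nat_lit 14) (.e (nat_lit 73755) (nat_lit 8) (.e (nat_lit 557067) (nat_lit 9) (.e (nat_lit 2604) (nat_lit 163) .nil)))))))) (.g (nat_lit 1) (.e (nat_lit 187603) (nat_lit 0) .nil) .nil)))) 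
(.nd (nat_lit 9) 
(.lf (nat_lit 507150) (.g (nat_lit 794) (.e (nat_lit 164356) (nat_lit 246) (.e (nat_lit 351) (nat_lit 28) (.e (nat_lit 393293) (nat_lit 26) (.e (nat_lit 475168) (nat_lit 22) .nil)))) (.g (nat_lit 0) (.e (nat_lit 186672) (nat_lit 0) .nil) .nil))) 
(.lf (nat_lit 507662) (.g (nat_lit 1795) (.e (nat_lit 164399) (nat_lit 256) (.e (nat_lit 57379) (nat_lit 3) (.e (nat_lit 98367) (nat_lit 27) (.e (nat_lit 434232) (nat_lit 23) .nil)))) (.g (nat_lit 0) (.e (nat_lit 187895) (nat_lit 0) .nil) .nil))))) (.nd (nat_lit 8) (.nd (nat_lit 9) 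
(.lf (nat_lit 507022) (.g (nat_lit 508) (.e (nat_lit 164347) (nat_lit 240) (.e (nat_lit 2638) (nat_lit 165) (.e (nat_lit 180277) (nat_lit 32) .nil))) (.g (nat_lit 0) (.e (nat_lit 186206) (nat_lit 0) .nil) .nil))) 
(.lf (nat_lit 507534) (.g (nat_lit 1584) (.e (nat_lit 164399) (nat_lit 256) (.e (nat_lit 57372) (nat_lit 2) (.e (nat_lit 90172) (nat_lit 14) (.e (nat_lit 180245) (nat_lit 5) .nil)))) (.g (nat_lit 0) (.e (nat_lit 187751) (nat_lit 0) .nil) .nil)))) (.nd (nat_lit 9) 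
(.lf (nat_lit 507278) (.g (nat_lit 906) (.e (nat_lit 164396) (nat_lit 256) (.e (nat_lit 57372) (nat_lit 2) (.e (nat_lit 90176) (nat_lit 15) (.e (nat_lit 188423) (nat_lit 11) .nil)))) (.g (nat_lit 0) (.e (nat_lit 187473) (nat_lit 0) .nil) .nil))) 
(.lf (nat_lit 507790) (.g (nat_lit 2034) (.e (nat_lit 164401) (nat_lit 256) (.e (nat_lit 57371) (nat_lit 2) (.e (nat_lit 90172) (nat_lit 14) (.e (nat_lit 180243) (nat_lit 5) (.e (nat_lit 532515) (nat_lit 3) .nil))))) (.g (nat_lit 0) (.e (nat_lit 188033) (nat_lit 0) .nil) .nil)))))) (.nd (nat_lit 7) (.nd (nat_lit 8) (.nd (nat_lit 9) 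
(.lf (nat_lit 506958) (.g (nat_lit 2492) (.e (nat_lit 164346) (nat_lit 240) (.e (nat_lit 2610) (nat_lit 163) (.e (nat_lit 163979) (nat_lit 30) (.e (nat_lit 573491) (nat_lit 15) (.e (nat_lit 81954) (nat_lit 23) .nil))))) (.g (nat_lit 0) (.e (nat_lit 185735) (nat_lit 0) .nil) .nil))) 
(.lf (nat_lit 507470) (.g (nat_lit 3964) (.e (nat_lit 164398) (nat_lit 256) (.e (nat_lit 57379) (nat_lit 3) (.e (nat_lit 98365) (nat_lit 26) (.e (nat_lit 426188) (nat_lit 9) (.e (nat_lit 426566) (nat_lit 34) (.e (nat_lit 393252) (nat_lit 18) .nil)))))) (.g (nat_lit 1) (.e (nat_lit 187674) (nat_lit 0) .nil) .nil)))) (.nd (nat_lit 9) 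
(.lf (nat_lit 507214) (.g (nat_lit 925) (.e (nat_lit 164362) (nat_lit 246) (.e (nat_lit 2679) (nat_lit 168) (.e (nat_lit 204877) (nat_lit 31) (.e (nat_lit 376862) (nat_lit 22) .nil)))) (.g (nat_lit 0) (.e (nat_lit 186831) (nat_lit 0) .nil) .nil))) 
(.lf (nat_lit 507726) (.g (nat_lit 966) (.e (nat_lit 164399) (nat_lit 256) (.e (nat_lit 57447) (nat_lit 19) (.e (nat_lit 393300) (nat_lit 27) .nil))) (.g (nat_lit 0) (.e (nat_lit 187968) (nat_lit 0) .nil) .nil))))) (.nd (nat_lit 8) (.nd (nat_lit 9) 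
(.lf (nat_lit 507086) (.g (nat_lit 1690) (.e (nat_lit 164348) (nat_lit 240) (.e (nat_lit 2619) (nat_lit 164) (.e (nat_lit 172119) (nat_lit 12) (.e (nat_lit 475198) (nat_lit 40) (.e (nat_lit 704598) (nat_lit 6) .nil))))) (.g (nat_lit 0) (.e (nat_lit 186424) (nat_lit 0) .nil) .nil))) 
(.lf (nat_lit 507598) (.g (nat_lit 1031) (.e (nat_lit 164399) (nat_lit 256) (.e (nat_lit 57378) (nat_lit 3) (.e (nat_lit 98355) (nat_lit 26) .nil))) (.g (nat_lit 0) (.e (nat_lit 187831) (nat_lit 0) .nil) .nil)))) (.nd (nat_lit 9) 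
(.lf (nat_lit 507342) (.g (nat_lit 1300) (.e (nat_lit 164397) (nat_lit 256) (.e (nat_lit 57371) (nat_lit 2) (.e (nat_lit 90176) (nat_lit 15) (.e (nat_lit 196352) (nat_lit 18) .nil)))) (.g (nat_lit 0) (.e (nat_lit 187538) (nat_lit 0) .nil) .nil))) 
(.lf (nat_lit 507854) (.g (nat_lit 743) (.e (nat_lit 164401) (nat_lit 256) (.e (nat_lit 57427) (nat_lit 15) (.e (nat_lit 360461) (nat_lit 1) .nil))) (.g (nat_lit 0) (.e (nat_lit 188100) (nat_lit 0) .nil) .nil))))))) (.nd (nat_lit 6) (.nd (nat_lit 7) (.nd (nat_lit 8) (.nd (nat_lit 9) 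
(.lf (nat_lit 506926) (.g (nat_lit 2059) (.e (nat_lit 164345) (nat_lit 240) (.e (nat_lit 2619) (nat_lit 164) (.e (nat_lit 172120) (nat_lit 12) (.e (nat_lit 475198) (nat_lit 40) (.e (nat_lit 704599) (nat_lit 6) .nil))))) (.g (nat_lit 0) (.e (nat_lit 185396) (nat_lit 0) .nil) .nil))) 
(.lf (nat_lit 507438) (.g (nat_lit 747) (.e (nat_lit 164398) (nat_lit 256) (.e (nat_lit 57377) (nat_lit 3) (.e (nat_lit 98355) (nat_lit 26) .nil))) (.g (nat_lit 0) (.e (nat_lit 187637) (nat_lit 0) .nil) .nil)))) (.nd (nat_lit 9) 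
(.lf (nat_lit 507182) (.g (nat_lit 2961) (.e (nat_lit 164359) (nat_lit 246) (.e (nat_lit 2661) (nat_lit 167) (.e (nat_lit 196666) (nat_lit 13) (.e (nat_lit 65617) (nat_lit 10) (.e (nat_lit 344130) (nat_lit 26) (.e (nat_lit 557067) (nat_lit 9) (.e (nat_lit 22) (nat_lit 0) (.e (nat_lit 6236) (nat_lit 335) .nil)))))))) (.g (nat_lit 1) (.e (nat_lit 186713) (nat_lit 0) .nil) .nil))) 
(.lf (nat_lit 507694) (.g (nat_lit 832) (.e (nat_lit 164399) (nat_lit 256) (.e (nat_lit 57407) (nat_lit 12) (.e (nat_lit 336444) (nat_lit 32) (.e (nat_lit 466981) (nat_lit 23) .nil)))) (.g (nat_lit 0) (.e (nat_lit 187933) (nat_lit 0) .nil) .nil))))) (.nd (nat_lit 8) (.nd (nat_lit 9) 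
(.lf (nat_lit 507054) (.g (nat_lit 4301) (.e (nat_lit 164348) (nat_lit 240) (.e (nat_lit 2610) (nat_lit 163) (.e (nat_lit 163977) (nat_lit 30) (.e (nat_lit 573482) (nat_lit 13) (.e (nat_lit 65604) (nat_lit 9) (.e (nat_lit 336028) (nat_lit 3) (.e (nat_lit 98359) (nat_lit 26) (.e (nat_lit 426097) (nat_lit 1) .nil)))))))) (.g (nat_lit 1) (.e (nat_lit 186380) (nat_lit 0) .nil) .nil))) 
(.lf (nat_lit 507566) (.g (nat_lit 1953) (.e (nat_lit 164399) (nat_lit 256) (.e (nat_lit 57374) (nat_lit 2) (.e (nat_lit 90170) (nat_lit 13) (.e (nat_lit 172123) (nat_lit 13) (.e (nat_lit 483340) (nat_lit 9) .nil))))) (.g (nat_lit 0) (.e (nat_lit 187785) (nat_lit 0) .nil) .nil)))) (.nd (nat_lit 9) 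
(.lf (nat_lit 507310) (.g (nat_lit 1865) (.e (nat_lit 164396) (nat_lit 256) (.e (nat_lit 57379) (nat_lit 3) (.e (nat_lit 98365) (nat_lit 26) (.e (nat_lit 426325) (nat_lit 13) (.e (nat_lit 483341) (nat_lit 9) .nil))))) (.g (nat_lit 0) (.e (nat_lit 187506) (nat_lit 0) .nil) .nil))) 
(.lf (nat_lit 507822) (.g (nat_lit 1566) (.e (nat_lit 164401) (nat_lit 256) (.e (nat_lit 57378) (nat_lit 3) (.e (nat_lit 98354) (nat_lit 26) (.e (nat_lit 426336) (nat_lit 13) (.e (nat_lit 483337) (nat_lit 9) .nil))))) (.g (nat_lit 0) (.e (nat_lit 188068) (nat_lit 0) .nil) .nil)))))) (.nd (nat_lit 7) (.nd (nat_lit 8) (.nd (nat_lit 9) 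
(.lf (nat_lit 506990) (.g (nat_lit 1386) (.e (nat_lit 164346) (nat_lit 240) (.e (nat_lit 2640) (nat_lit 165) (.e (nat_lit 180278) (nat_lit 32) (.e (nat_lit 1428) (nat_lit 108) (.e (nat_lit 336430) (nat_lit 29) .nil))))) (.g (nat_lit 0) (.e (nat_lit 185863) (nat_lit 0) .nil) .nil))) 
(.lf (nat_lit 507502) (.g (nat_lit 2210) (.e (nat_lit 164398) (nat_lit 256) (.e (nat_lit 57436) (nat_lit 17) (.e (nat_lit 376865) (nat_lit 22) (.e (nat_lit 90128) (nat_lit 9) (.e (nat_lit 344) (nat_lit 27) .nil))))) (.g (nat_lit 0) (.e (nat_lit 187706) (nat_lit 0) .nil) .nil)))) (.nd (nat_lit 9) 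
(.lf (nat_lit 507246) (.g (nat_lit 2623) (.e (nat_lit 164406) (nat_lit 258) (.e (nat_lit 163874) (nat_lit 3) (.e (nat_lit 204880) (nat_lit 32) (.e (nat_lit 385096) (nat_lit 49) (.e (nat_lit 778275) (nat_lit 0) .nil))))) (.g (nat_lit 0) (.e (nat_lit 187438) (nat_lit 0) .nil) .nil))) 
(.lf (nat_lit 507758) (.g (nat_lit 2104) (.e (nat_lit 164400) (nat_lit 256) (.e (nat_lit 57375) (nat_lit 2) (.e (nat_lit 90174) (nat_lit 14) (.e (nat_lit 180243) (nat_lit 5) (.e (nat_lit 532510) (nat_lit 2) .nil))))) (.g (nat_lit 0) (.e (nat_lit 188001) (nat_lit 0) .nil) .nil))))) (.nd (nat_lit 8) (.nd (nat_lit 9) 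
(.lf (nat_lit 507118) (.g (nat_lit 405) (.e (nat_lit 164353) (nat_lit 246) (.e (nat_lit 226) (nat_lit 21) (.e (nat_lit 336428) (nat_lit 29) .nil))) (.g (nat_lit 0) (.e (nat_lit 186635) (nat_lit 0) .nil) .nil))) 
(.lf (nat_lit 507630) (.g (nat_lit 2757) (.e (nat_lit 164399) (nat_lit 256) (.e (nat_lit 57378) (nat_lit 3) (.e (nat_lit 98368) (nat_lit 27) (.e (nat_lit 434247) (nat_lit 28) (.e (nat_lit 573489) (nat_lit 14) (.e (nat_lit 73755) (nat_lit 8) (.e (nat_lit 557067) (nat_lit 9) (.e (nat_lit 7936) (nat_lit 163) .nil)))))))) (.g (nat_lit 1) (.e (nat_lit 187863) (nat_lit 0) .nil) .nil)))) 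
(.nd (nat_lit 9) 
(.lf (nat_lit 507374) (.g (nat_lit 2304) (.e (nat_lit 164397) (nat_lit 256) (.e (nat_lit 57379) (nat_lit 3) (.e (nat_lit 98366) (nat_lit 27) (.e (nat_lit 434231) (nat_lit 23) (.e (nat_lit 532506) (nat_lit 2) .nil))))) (.g (nat_lit 0) (.e (nat_lit 187570) (nat_lit 0) .nil) .nil))) 
(.lf (nat_lit 507886) (.g (nat_lit 2985) (.e (nat_lit 164402) (nat_lit 256) (.e (nat_lit 57373) (nat_lit 2) (.e (nat_lit 90174) (nat_lit 14) (.e (nat_lit 180252) (nat_lit 10) (.e (nat_lit 573489) (nat_lit 14) .nil))))) (.g (nat_lit 0) (.e (nat_lit 188134) (nat_lit 0) .nil) .nil)))))))) (.nd (nat_lit 5) (.nd (nat_lit 6) (.nd (nat_lit 7) (.nd (nat_lit 8) (.nd (nat_lit 9) 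
(.lf (nat_lit 506910) (.g (nat_lit 1429) (.e (nat_lit 171776) (nat_lit 234) (.e (nat_lit 16470) (nat_lit 14) (.e (nat_lit 491571) (nat_lit 13) (.e (nat_lit 401152) (nat_lit 17) .nil)))) (.g (nat_lit 0) (.e (nat_lit 185315) (nat_lit 0) .nil) .nil))) 
(.lf (nat_lit 507422) (.g (nat_lit 4756) (.e (nat_lit 164398) (nat_lit 256) (.e (nat_lit 57373) (nat_lit 2) (.e (nat_lit 90174) (nat_lit 14) (.e (nat_lit 180250) (nat_lit 10) (.e (nat_lit 573489) (nat_lit 14) (.e (nat_lit 73755) (nat_lit 8) (.e (nat_lit 557067) (nat_lit 9) (.e (nat_lit 2598) (nat_lit 163) .nil)))))))) (.g (nat_lit 1) (.e (nat_lit 187620) (nat_lit 0) .nil) .nil)))) 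
(.nd (nat_lit 9) 
(.lf (nat_lit 507166) (.g (nat_lit 1347) (.e (nat_lit 164358) (nat_lit 246) (.e (nat_lit 351) (nat_lit 28) (.e (nat_lit 393268) (nat_lit 23) (.e (nat_lit 426427) (nat_lit 17) .nil)))) (.g (nat_lit 0) (.e (nat_lit 186694) (nat_lit 0) .nil) .nil))) 
(.lf (nat_lit 507678) (.g (nat_lit 2199) (.e (nat_lit 164399) (nat_lit 256) (.e (nat_lit 57390) (nat_lit 5) (.e (nat_lit 114716) (nat_lit 22) (.e (nat_lit 90158) (nat_lit 11) (.e (nat_lit 24650) (nat_lit 12) (.e (nat_lit 385066) (nat_lit 26) (.e (nat_lit 540416) (nat_lit 18) .nil))))))) (.g (nat_lit 1) (.e (nat_lit 187912) (nat_lit 0) .nil) .nil))))) (.nd (nat_lit 8) (.nd (nat_lit 9) 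
(.lf (nat_lit 507038) (.g (nat_lit 3240) (.e (nat_lit 164347) (nat_lit 240) (.e (nat_lit 2640) (nat_lit 165) (.e (nat_lit 180277) (nat_lit 32) (.e (nat_lit 1427) (nat_lit 108) (.e (nat_lit 336430) (nat_lit 29) (.e (nat_lit 442421) (nat_lit 21) .nil)))))) (.g (nat_lit 1) (.e (nat_lit 186236) (nat_lit 0) .nil) .nil))) 
(.lf (nat_lit 507550) (.g (nat_lit 1884) (.e (nat_lit 164399) (nat_lit 256) (.e (nat_lit 57373) (nat_lit 2) (.e (nat_lit 90170) (nat_lit 13) (.e (nat_lit 172123) (nat_lit 13) (.e (nat_lit 483340) (nat_lit 9) .nil))))) (.g (nat_lit 0) (.e (nat_lit 187768) (nat_lit 0) .nil) .nil)))) (.nd (nat_lit 9) 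
(.lf (nat_lit 507294) (.g (nat_lit 824) (.e (nat_lit 164396) (nat_lit 256) (.e (nat_lit 57377) (nat_lit 3) (.e (nat_lit 98357) (nat_lit 26) .nil))) (.g (nat_lit 0) (.e (nat_lit 187489) (nat_lit 0) .nil) .nil))) 
(.lf (nat_lit 507806) (.g (nat_lit 2491) (.e (nat_lit 164401) (nat_lit 256) (.e (nat_lit 57373) (nat_lit 2) (.e (nat_lit 90174) (nat_lit 14) (.e (nat_lit 180243) (nat_lit 5) (.e (nat_lit 532515) (nat_lit 3) (.e (nat_lit 114716) (nat_lit 22) (.e (nat_lit 90137) (nat_lit 9) (.e (nat_lit 2607) (nat_lit 163) .nil)))))))) (.g (nat_lit 1) (.e (nat_lit 188049) (nat_lit 0) .nil) .nil)))))) 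
(.nd (nat_lit 7) (.nd (nat_lit 8) (.nd (nat_lit 9) 
(.lf (nat_lit 506974) (.g (nat_lit 1557) (.e (nat_lit 164346) (nat_lit 240) (.e (nat_lit 2638) (nat_lit 165) (.e (nat_lit 180277) (nat_lit 32) (.e (nat_lit 1659) (nat_lit 115) (.e (nat_lit 393277) (nat_lit 23) .nil))))) (.g (nat_lit 0) (.e (nat_lit 185833) (nat_lit 0) .nil) .nil))) 
(.lf (nat_lit 507486) (.g (nat_lit 828) (.e (nat_lit 164398) (nat_lit 256) (.e (nat_lit 57406) (nat_lit 12) (.e (nat_lit 336444) (nat_lit 32) .nil))) (.g (nat_lit 0) (.e (nat_lit 187690) (nat_lit 0) .nil) .nil)))) (.nd (nat_lit 9) 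
(.lf (nat_lit 507230) (.g (nat_lit 2181) (.e (nat_lit 164368) (nat_lit 247) (.e (nat_lit 8326) (nat_lit 69) (.e (nat_lit 557100) (nat_lit 13) (.e (nat_lit 172113) (nat_lit 10) .nil)))) (.g (nat_lit 0) (.e (nat_lit 186992) (nat_lit 0) .nil) .nil))) 
(.lf (nat_lit 507742) (.g (nat_lit 1946) (.e (nat_lit 164400) (nat_lit 256) (.e (nat_lit 57373) (nat_lit 2) (.e (nat_lit 90170) (nat_lit 13) (.e (nat_lit 172067) (nat_lit 3) .nil)))) (.g (nat_lit 0) (.e (nat_lit 187985) (nat_lit 0) .nil) .nil))))) (.nd (nat_lit 8) (.nd (nat_lit 9) 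
(.lf (nat_lit 507102) (.g (nat_lit 1977) (.e (nat_lit 164348) (nat_lit 240) (.e (nat_lit 2640) (nat_lit 165) (.e (nat_lit 180278) (nat_lit 32) (.e (nat_lit 1660) (nat_lit 115) (.e (nat_lit 393277) (nat_lit 23) (.e (nat_lit 426103) (nat_lit 1) .nil)))))) (.g (nat_lit 1) (.e (nat_lit 186500) (nat_lit 0) .nil) .nil))) 
(.lf (nat_lit 507614) (.g (nat_lit 1930) (.e (nat_lit 164399) (nat_lit 256) (.e (nat_lit 57378) (nat_lit 3) (.e (nat_lit 98365) (nat_lit 26) (.e (nat_lit 426188) (nat_lit 9) (.e (nat_lit 426491) (nat_lit 27) .nil))))) (.g (nat_lit 0) (.e (nat_lit 187847) (nat_lit 0) .nil) .nil)))) (.nd (nat_lit 9) 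
(.lf (nat_lit 507358) (.g (nat_lit 905) (.e (nat_lit 164397) (nat_lit 256) (.e (nat_lit 57373) (nat_lit 2) (.e (nat_lit 90176) (nat_lit 15) .nil))) (.g (nat_lit 0) (.e (nat_lit 187554) (nat_lit 0) .nil) .nil))) 
(.lf (nat_lit 507870) (.g (nat_lit 926) (.e (nat_lit 164402) (nat_lit 256) (.e (nat_lit 57371) (nat_lit 2) (.e (nat_lit 90185) (nat_lit 17) (.e (nat_lit 237605) (nat_lit 9) .nil)))) (.g (nat_lit 0) (.e (nat_lit 188118) (nat_lit 0) .nil) .nil))))))) (.nd (nat_lit 6) (.nd (nat_lit 7) (.nd (nat_lit 8) (.nd (nat_lit 9) 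
(.lf (nat_lit 506942) (.g (nat_lit 3127) (.e (nat_lit 164345) (nat_lit 240) (.e (nat_lit 2638) (nat_lit 165) (.e (nat_lit 180278) (nat_lit 32) (.e (nat_lit 1428) (nat_lit 108) (.e (nat_lit 336430) (nat_lit 29) (.e (nat_lit 442419) (nat_lit 21) .nil)))))) (.g (nat_lit 1) (.e (nat_lit 185532) (nat_lit 0) .nil) .nil))) 
(.lf (nat_lit 507454) (.g (nat_lit 1014) (.e (nat_lit 164398) (nat_lit 256) (.e (nat_lit 57378) (nat_lit 3) (.e (nat_lit 98368) (nat_lit 27) .nil))) (.g (nat_lit 0) (.e (nat_lit 187658) (nat_lit 0) .nil) .nil)))) (.nd (nat_lit 9) 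
(.lf (nat_lit 507198) (.g (nat_lit 1744) (.e (nat_lit 164359) (nat_lit 246) (.e (nat_lit 3062) (nat_lit 190) (.e (nat_lit 475185) (nat_lit 29) (.e (nat_lit 557107) (nat_lit 15) .nil)))) (.g (nat_lit 0) (.e (nat_lit 186755) (nat_lit 0) .nil) .nil))) 
(.lf (nat_lit 507710) (.g (nat_lit 1494) (.e (nat_lit 164399) (nat_lit 256) (.e (nat_lit 57411) (nat_lit 12) (.e (nat_lit 336443) (nat_lit 32) (.e (nat_lit 466981) (nat_lit 23) (.e (nat_lit 204808) (nat_lit 9) .nil))))) (.g (nat_lit 0) (.e (nat_lit 187949) (nat_lit 0) .nil) .nil))))) (.nd (nat_lit 8) (.nd (nat_lit 9) 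
(.lf (nat_lit 507070) (.g (nat_lit 4433) (.e (nat_lit 164348) (nat_lit 240) (.e (nat_lit 2610) (nat_lit 163) (.e (nat_lit 163979) (nat_lit 30) (.e (nat_lit 573491) (nat_lit 15) (.e (nat_lit 81951) (nat_lit 22) (.e (nat_lit 90170) (nat_lit 13) (.e (nat_lit 172059) (nat_lit 1) .nil))))))) (.g (nat_lit 1) (.e (nat_lit 186396) (nat_lit 0) .nil) .nil))) 
(.lf (nat_lit 507582) (.g (nat_lit 1897) (.e (nat_lit 164399) (nat_lit 256) (.e (nat_lit 57377) (nat_lit 3) (.e (nat_lit 98365) (nat_lit 26) (.e (nat_lit 426188) (nat_lit 9) (.e (nat_lit 426478) (nat_lit 27) .nil))))) (.g (nat_lit 0) (.e (nat_lit 187801) (nat_lit 0) .nil) .nil)))) (.nd (nat_lit 9) 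
(.lf (nat_lit 507326) (.g (nat_lit 2145) (.e (nat_lit 164396) (nat_lit 256) (.e (nat_lit 57411) (nat_lit 12) (.e (nat_lit 336443) (nat_lit 32) (.e (nat_lit 466977) (nat_lit 22) (.e (nat_lit 196656) (nat_lit 11) .nil))))) (.g (nat_lit 0) (.e (nat_lit 187522) (nat_lit 0) .nil) .nil))) 
(.lf (nat_lit 507838) (.g (nat_lit 637) (.e (nat_lit 164401) (nat_lit 256) (.e (nat_lit 57378) (nat_lit 3) (.e (nat_lit 98376) (nat_lit 30) .nil))) (.g (nat_lit 0) (.e (nat_lit 188084) (nat_lit 0) .nil) .nil)))))) (.nd (nat_lit 7) (.nd (nat_lit 8) (.nd (nat_lit 9) 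
(.lf (nat_lit 507006) (.g (nat_lit 1321) (.e (nat_lit 164347) (nat_lit 240) (.e (nat_lit 2617) (nat_lit 164) (.e (nat_lit 172118) (nat_lit 12) (.e (nat_lit 475210) (nat_lit 41) (.e (nat_lit 712752) (nat_lit 29) .nil))))) (.g (nat_lit 0) (.e (nat_lit 186002) (nat_lit 0) .nil) .nil))) 
(.lf (nat_lit 507518) (.g (nat_lit 1414) (.e (nat_lit 164399) (nat_lit 256) (.e (nat_lit 57370) (nat_lit 2) (.e (nat_lit 90176) (nat_lit 15) (.e (nat_lit 188423) (nat_lit 11) (.e (nat_lit 336385) (nat_lit 27) .nil))))) (.g (nat_lit 0) (.e (nat_lit 187726) (nat_lit 0) .nil) .nil)))) (.nd (nat_lit 9) 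
(.lf (nat_lit 507262) (.g (nat_lit 1416) (.e (nat_lit 164396) (nat_lit 256) (.e (nat_lit 57371) (nat_lit 2) (.e (nat_lit 90174) (nat_lit 14) (.e (nat_lit 180245) (nat_lit 5) .nil)))) (.g (nat_lit 0) (.e (nat_lit 187457) (nat_lit 0) .nil) .nil))) 
(.lf (nat_lit 507774) (.g (nat_lit 858) (.e (nat_lit 164400) (nat_lit 256) (.e (nat_lit 57379) (nat_lit 3) (.e (nat_lit 98369) (nat_lit 28) (.e (nat_lit 442389) (nat_lit 11) .nil)))) (.g (nat_lit 0) (.e (nat_lit 188017) (nat_lit 0) .nil) .nil))))) (.nd (nat_lit 8) (.nd (nat_lit 9) 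
(.lf (nat_lit 507134) (.g (nat_lit 986) (.e (nat_lit 164354) (nat_lit 246) (.e (nat_lit 112) (nat_lit 3) (.e (nat_lit 98373) (nat_lit 29) (.e (nat_lit 450563) (nat_lit 0) .nil)))) (.g (nat_lit 0) (.e (nat_lit 186652) (nat_lit 0) .nil) .nil))) 
(.lf (nat_lit 507646) (.g (nat_lit 1175) (.e (nat_lit 164399) (nat_lit 256) (.e (nat_lit 57379) (nat_lit 3) (.e (nat_lit 98365) (nat_lit 26) (.e (nat_lit 426187) (nat_lit 9) .nil)))) (.g (nat_lit 0) (.e (nat_lit 187879) (nat_lit 0) .nil) .nil)))) (.nd (nat_lit 9) 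
(.lf (nat_lit 507390) (.g (nat_lit 1810) (.e (nat_lit 164398) (nat_lit 256) (.e (nat_lit 57369) (nat_lit 2) (.e (nat_lit 90170) (nat_lit 13) (.e (nat_lit 172121) (nat_lit 13) (.e (nat_lit 483337) (nat_lit 9) .nil))))) (.g (nat_lit 0) (.e (nat_lit 187586) (nat_lit 0) .nil) .nil))) 
(.lf (nat_lit 507902) (.g (nat_lit 602) (.e (nat_lit 164402) (nat_lit 256) (.e (nat_lit 57378) (nat_lit 3) (.e (nat_lit 98363) (nat_lit 26) .nil))) (.g (nat_lit 0) (.e (nat_lit 188152) (nat_lit 0) .nil) .nil)))))))))))) (.nd (nat_lit 1) (.nd (nat_lit 2) (.nd (nat_lit 3) (.nd (nat_lit 4) (.nd (nat_lit 5) (.nd (nat_lit 6) (.nd (nat_lit 7) (.nd (nat_lit 8) (.nd (nat_lit 9) 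
(.lf (nat_lit 506881) (.g (nat_lit 752) (.e (nat_lit 164319) (nat_lit 228) (.e (nat_lit 57406) (nat_lit 12) (.e (nat_lit 336326) (nat_lit 18) .nil))) (.g (nat_lit 0) (.e (nat_lit 185243) (nat_lit 0) .nil) .nil))) 
(.lf (nat_lit 507393) (.g (nat_lit 1747) (.e (nat_lit 164398) (nat_lit 256) (.e (nat_lit 57371) (nat_lit 2) (.e (nat_lit 90169) (nat_lit 13) (.e (nat_lit 172121) (nat_lit 13) (.e (nat_lit 483337) (nat_lit 9) .nil))))) (.g (nat_lit 0) (.e (nat_lit 187590) (nat_lit 0) .nil) .nil)))) (.nd (nat_lit 9) 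
(.lf (nat_lit 507137) (.g (nat_lit 664) (.e (nat_lit 164354) (nat_lit 246) (.e (nat_lit 351) (nat_lit 28) (.e (nat_lit 393267) (nat_lit 23) (.e (nat_lit 426427) (nat_lit 17) .nil)))) (.g (nat_lit 0) (.e (nat_lit 186658) (nat_lit 0) .nil) .nil))) 
(.lf (nat_lit 507649) (.g (nat_lit 1626) (.e (nat_lit 164399) (nat_lit 256) (.e (nat_lit 57379) (nat_lit 3) (.e (nat_lit 98365) (nat_lit 26) (.e (nat_lit 426189) (nat_lit 9) (.e (nat_lit 426566) (nat_lit 34) .nil))))) (.g (nat_lit 0) (.e (nat_lit 187882) (nat_lit 0) .nil) .nil))))) (.nd (nat_lit 8) (.nd (nat_lit 9) 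
(.lf (nat_lit 507009) (.g (nat_lit 474) (.e (nat_lit 164347) (nat_lit 240) (.e (nat_lit 2619) (nat_lit 164) (.e (nat_lit 172120) (nat_lit 12) .nil))) (.g (nat_lit 0) (.e (nat_lit 186035) (nat_lit 0) .nil) .nil))) 
(.lf (nat_lit 507521) (.g (nat_lit 2110) (.e (nat_lit 164399) (nat_lit 256) (.e (nat_lit 57371) (nat_lit 2) (.e (nat_lit 90172) (nat_lit 14) (.e (nat_lit 180244) (nat_lit 5) (.e (nat_lit 532515) (nat_lit 3) .nil))))) (.g (nat_lit 0) (.e (nat_lit 187729) (nat_lit 0) .nil) .nil)))) (.nd (nat_lit 9) 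
(.lf (nat_lit 507265) (.g (nat_lit 4705) (.e (nat_lit 164396) (nat_lit 256) (.e (nat_lit 57371) (nat_lit 2) (.e (nat_lit 90174) (nat_lit 14) (.e (nat_lit 180251) (nat_lit 10) (.e (nat_lit 573489) (nat_lit 14) (.e (nat_lit 73755) (nat_lit 8) (.e (nat_lit 557067) (nat_lit 9) (.e (nat_lit 2604) (nat_lit 163) .nil)))))))) (.g (nat_lit 1) (.e (nat_lit 187460) (nat_lit 0) .nil) .nil))) 
(.lf (nat_lit 507777) (.g (nat_lit 1682) (.e (nat_lit 164400) (nat_lit 256) (.e (nat_lit 57379) (nat_lit 3) (.e (nat_lit 98376) (nat_lit 30) (.e (nat_lit 458789) (nat_lit 23) (.e (nat_lit 532515) (nat_lit 3) .nil))))) (.g (nat_lit 0) (.e (nat_lit 188020) (nat_lit 0) .nil) .nil)))))) (.nd (nat_lit 7) (.nd (nat_lit 8) (.nd (nat_lit 9) 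
(.lf (nat_lit 506945) (.g (nat_lit 1605) (.e (nat_lit 164345) (nat_lit 240) (.e (nat_lit 2638) (nat_lit 165) (.e (nat_lit 180278) (nat_lit 32) (.e (nat_lit 1660) (nat_lit 115) (.e (nat_lit 401152) (nat_lit 23) .nil))))) (.g (nat_lit 0) (.e (nat_lit 185535) (nat_lit 0) .nil) .nil))) 
(.lf (nat_lit 507457) (.g (nat_lit 4609) (.e (nat_lit 164398) (nat_lit 256) (.e (nat_lit 57378) (nat_lit 3) (.e (nat_lit 98368) (nat_lit 27) (.e (nat_lit 434247) (nat_lit 28) (.e (nat_lit 573489) (nat_lit 14) (.e (nat_lit 73755) (nat_lit 8) (.e (nat_lit 557067) (nat_lit 9) (.e (nat_lit 2603) (nat_lit 163) .nil)))))))) (.g (nat_lit 1) (.e (nat_lit 187661) (nat_lit 0) .nil) .nil)))) 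
(.nd (nat_lit 9) 
(.lf (nat_lit 507201) (.g (nat_lit 1732) (.e (nat_lit 164359) (nat_lit 246) (.e (nat_lit 3062) (nat_lit 190) (.e (nat_lit 475210) (nat_lit 41) (.e (nat_lit 712753) (nat_lit 30) (.e (nat_lit 450595) (nat_lit 17) .nil))))) (.g (nat_lit 0) (.e (nat_lit 186758) (nat_lit 0) .nil) .nil))) 
(.lf (nat_lit 507713) (.g (nat_lit 629) (.e (nat_lit 164399) (nat_lit 256) (.e (nat_lit 57445) (nat_lit 19) (.e (nat_lit 393287) (nat_lit 25) .nil))) (.g (nat_lit 0) (.e (nat_lit 187954) (nat_lit 0) .nil) .nil))))) (.nd (nat_lit 8) (.nd (nat_lit 9) 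
(.lf (nat_lit 507073) (.g (nat_lit 3573) (.e (nat_lit 164348) (nat_lit 240) (.e (nat_lit 2610) (nat_lit 163) (.e (nat_lit 163979) (nat_lit 30) (.e (nat_lit 573491) (nat_lit 15) (.e (nat_lit 81954) (nat_lit 23) (.e (nat_lit 98356) (nat_lit 26) (.e (nat_lit 433920) (nat_lit 1) .nil))))))) (.g (nat_lit 1) (.e (nat_lit 186399) (nat_lit 0) .nil) .nil))) 
(.lf (nat_lit 507585) (.g (nat_lit 2776) (.e (nat_lit 164399) (nat_lit 256) (.e (nat_lit 57377) (nat_lit 3) (.e (nat_lit 98365) (nat_lit 26) (.e (nat_lit 426325) (nat_lit 13) (.e (nat_lit 483336) (nat_lit 9) .nil))))) (.g (nat_lit 0) (.e (nat_lit 187804) (nat_lit 0) .nil) .nil)))) (.nd (nat_lit 9) 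
(.lf (nat_lit 507329) (.g (nat_lit 2754) (.e (nat_lit 164396) (nat_lit 256) (.e (nat_lit 57427) (nat_lit 15) (.e (nat_lit 360474) (nat_lit 8) (.e (nat_lit 557091) (nat_lit 12) (.e (nat_lit 164002) (nat_lit 40) .nil))))) (.g (nat_lit 0) (.e (nat_lit 187525) (nat_lit 0) .nil) .nil))) 
(.lf (nat_lit 507841) (.g (nat_lit 357) (.e (nat_lit 164401) (nat_lit 256) (.e (nat_lit 57378) (nat_lit 3) (.e (nat_lit 98380) (nat_lit 31) .nil))) (.g (nat_lit 0) (.e (nat_lit 188087) (nat_lit 0) .nil) .nil))))))) (.nd (nat_lit 6) (.nd (nat_lit 7) (.nd (nat_lit 8) (.nd (nat_lit 9) 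
(.lf (nat_lit 506913) (.g (nat_lit 2168) (.e (nat_lit 164345) (nat_lit 240) (.e (nat_lit 2610) (nat_lit 163) (.e (nat_lit 163978) (nat_lit 30) (.e (nat_lit 573484) (nat_lit 13) (.e (nat_lit 65610) (nat_lit 10) .nil))))) (.g (nat_lit 0) (.e (nat_lit 185327) (nat_lit 0) .nil) .nil))) 
(.lf (nat_lit 507425) (.g (nat_lit 4755) (.e (nat_lit 164398) (nat_lit 256) (.e (nat_lit 57373) (nat_lit 2) (.e (nat_lit 90174) (nat_lit 14) (.e (nat_lit 180251) (nat_lit 10) (.e (nat_lit 573489) (nat_lit 14) (.e (nat_lit 73755) (nat_lit 8) (.e (nat_lit 557067) (nat_lit 9) (.e (nat_lit 2604) (nat_lit 163) .nil)))))))) (.g (nat_lit 1) (.e (nat_lit 187623) (nat_lit 0) .nil) .nil)))) 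
(.nd (nat_lit 9) 
(.lf (nat_lit 507169) (.g (nat_lit 1218) (.e (nat_lit 164358) (nat_lit 246) (.e (nat_lit 351) (nat_lit 28) (.e (nat_lit 393270) (nat_lit 23) (.e (nat_lit 426428) (nat_lit 17) (.e (nat_lit 90203) (nat_lit 21) .nil))))) (.g (nat_lit 0) (.e (nat_lit 186697) (nat_lit 0) .nil) .nil))) 
(.lf (nat_lit 507681) (.g (nat_lit 2789) (.e (nat_lit 164399) (nat_lit 256) (.e (nat_lit 57390) (nat_lit 5) (.e (nat_lit 114716) (nat_lit 22) (.e (nat_lit 90159) (nat_lit 11) (.e (nat_lit 24650) (nat_lit 12) (.e (nat_lit 385066) (nat_lit 26) (.e (nat_lit 540416) (nat_lit 18) .nil))))))) (.g (nat_lit 1) (.e (nat_lit 187915) (nat_lit 0) .nil) .nil))))) (.nd (nat_lit 8) (.nd (nat_lit 9) 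
(.lf (nat_lit 507041) (.g (nat_lit 1063) (.e (nat_lit 164347) (nat_lit 240) (.e (nat_lit 2640) (nat_lit 165) (.e (nat_lit 180277) (nat_lit 32) (.e (nat_lit 1660) (nat_lit 115) (.e (nat_lit 393277) (nat_lit 23) .nil))))) (.g (nat_lit 0) (.e (nat_lit 186240) (nat_lit 0) .nil) .nil))) 
(.lf (nat_lit 507553) (.g (nat_lit 2726) (.e (nat_lit 164399) (nat_lit 256) (.e (nat_lit 57373) (nat_lit 2) (.e (nat_lit 90174) (nat_lit 14) (.e (nat_lit 180243) (nat_lit 5) (.e (nat_lit 532515) (nat_lit 3) (.e (nat_lit 114716) (nat_lit 22) (.e (nat_lit 90129) (nat_lit 9) (.e (nat_lit 2602) (nat_lit 163) .nil)))))))) (.g (nat_lit 1) (.e (nat_lit 187771) (nat_lit 0) .nil) .nil)))) (.nd (nat_lit 9) 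
(.lf (nat_lit 507297) (.g (nat_lit 766) (.e (nat_lit 164396) (nat_lit 256) (.e (nat_lit 57377) (nat_lit 3) (.e (nat_lit 98369) (nat_lit 28) .nil))) (.g (nat_lit 0) (.e (nat_lit 187493) (nat_lit 0) .nil) .nil))) 
(.lf (nat_lit 507809) (.g (nat_lit 3302) (.e (nat_lit 164401) (nat_lit 256) (.e (nat_lit 57373) (nat_lit 2) (.e (nat_lit 90174) (nat_lit 14) (.e (nat_lit 180243) (nat_lit 5) (.e (nat_lit 532515) (nat_lit 3) (.e (nat_lit 114716) (nat_lit 22) (.e (nat_lit 90140) (nat_lit 9) (.e (nat_lit 2611) (nat_lit 163) .nil)))))))) (.g (nat_lit 1) (.e (nat_lit 188052) (nat_lit 0) .nil) .nil)))))) 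
(.nd (nat_lit 7) (.nd (nat_lit 8) (.nd (nat_lit 9) 
(.lf (nat_lit 506977) (.g (nat_lit 2792) (.e (nat_lit 164346) (nat_lit 240) (.e (nat_lit 2638) (nat_lit 165) (.e (nat_lit 180278) (nat_lit 32) (.e (nat_lit 1425) (nat_lit 108) (.e (nat_lit 336430) (nat_lit 29) (.e (nat_lit 442419) (nat_lit 21) .nil)))))) (.g (nat_lit 1) (.e (nat_lit 185838) (nat_lit 0) .nil) .nil))) 
(.lf (nat_lit 507489) (.g (nat_lit 1773) (.e (nat_lit 164398) (nat_lit 256) (.e (nat_lit 57407) (nat_lit 12) (.e (nat_lit 336443) (nat_lit 32) (.e (nat_lit 466980) (nat_lit 23) .nil)))) (.g (nat_lit 0) (.e (nat_lit 187693) (nat_lit 0) .nil) .nil)))) (.nd (nat_lit 9) 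
(.lf (nat_lit 507233) (.g (nat_lit 1097) (.e (nat_lit 164372) (nat_lit 250) (.e (nat_lit 172150) (nat_lit 27) (.e (nat_lit 336231) (nat_lit 14) (.e (nat_lit 401434) (nat_lit 9) .nil)))) (.g (nat_lit 0) (.e (nat_lit 187182) (nat_lit 0) .nil) .nil))) 
(.lf (nat_lit 507745) (.g (nat_lit 2634) (.e (nat_lit 164400) (nat_lit 256) (.e (nat_lit 57373) (nat_lit 2) (.e (nat_lit 90174) (nat_lit 14) (.e (nat_lit 180243) (nat_lit 5) (.e (nat_lit 532508) (nat_lit 2) .nil))))) (.g (nat_lit 0) (.e (nat_lit 187988) (nat_lit 0) .nil) .nil))))) (.nd (nat_lit 8) (.nd (nat_lit 9) 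
(.lf (nat_lit 507105) (.g (nat_lit 651) (.e (nat_lit 164348) (nat_lit 240) (.e (nat_lit 2650) (nat_lit 166) (.e (nat_lit 188418) (nat_lit 0) .nil))) (.g (nat_lit 0) (.e (nat_lit 186520) (nat_lit 0) .nil) .nil))) 
(.lf (nat_lit 507617) (.g (nat_lit 2604) (.e (nat_lit 164399) (nat_lit 256) (.e (nat_lit 57378) (nat_lit 3) (.e (nat_lit 98365) (nat_lit 26) (.e (nat_lit 426325) (nat_lit 13) (.e (nat_lit 483339) (nat_lit 9) .nil))))) (.g (nat_lit 0) (.e (nat_lit 187850) (nat_lit 0) .nil) .nil)))) (.nd (nat_lit 9) 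
(.lf (nat_lit 507361) (.g (nat_lit 1983) (.e (nat_lit 164397) (nat_lit 256) (.e (nat_lit 57374) (nat_lit 2) (.e (nat_lit 90170) (nat_lit 13) (.e (nat_lit 172121) (nat_lit 13) .nil)))) (.g (nat_lit 0) (.e (nat_lit 187557) (nat_lit 0) .nil) .nil))) 
(.lf (nat_lit 507873) (.g (nat_lit 3003) (.e (nat_lit 164402) (nat_lit 256) (.e (nat_lit 57373) (nat_lit 2) (.e (nat_lit 90170) (nat_lit 13) (.e (nat_lit 172065) (nat_lit 3) (.e (nat_lit 204837) (nat_lit 20) .nil))))) (.g (nat_lit 0) (.e (nat_lit 188121) (nat_lit 0) .nil) .nil)))))))) (.nd (nat_lit 5) (.nd (nat_lit 6) (.nd (nat_lit 7) (.nd (nat_lit 8) (.nd (nat_lit 9) 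
(.lf (nat_lit 506897) (.g (nat_lit 752) (.e (nat_lit 164319) (nat_lit 228) (.e (nat_lit 57424) (nat_lit 14) (.e (nat_lit 352295) (nat_lit 20) .nil))) (.g (nat_lit 0) (.e (nat_lit 185271) (nat_lit 0) .nil) .nil))) 
(.lf (nat_lit 507409) (.g (nat_lit 1256) (.e (nat_lit 164398) (nat_lit 256) (.e (nat_lit 57372) (nat_lit 2) (.e (nat_lit 90178) (nat_lit 15) (.e (nat_lit 188421) (nat_lit 11) .nil)))) (.g (nat_lit 0) (.e (nat_lit 187606) (nat_lit 0) .nil) .nil)))) (.nd (nat_lit 9) 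
(.lf (nat_lit 507153) (.g (nat_lit 1538) (.e (nat_lit 164358) (nat_lit 246) (.e (nat_lit 100) (nat_lit 2) (.e (nat_lit 90174) (nat_lit 14) (.e (nat_lit 180251) (nat_lit 10) (.e (nat_lit 573489) (nat_lit 14) .nil))))) (.g (nat_lit 0) (.e (nat_lit 186676) (nat_lit 0) .nil) .nil))) 
(.lf (nat_lit 507665) (.g (nat_lit 701) (.e (nat_lit 164399) (nat_lit 256) (.e (nat_lit 57388) (nat_lit 5) (.e (nat_lit 114712) (nat_lit 21) .nil))) (.g (nat_lit 0) (.e (nat_lit 187898) (nat_lit 0) .nil) .nil))))) (.nd (nat_lit 8) (.nd (nat_lit 9) 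
(.lf (nat_lit 507025) (.g (nat_lit 1609) (.e (nat_lit 164347) (nat_lit 240) (.e (nat_lit 2638) (nat_lit 165) (.e (nat_lit 180277) (nat_lit 32) (.e (nat_lit 1659) (nat_lit 115) (.e (nat_lit 393278) (nat_lit 23) .nil))))) (.g (nat_lit 0) (.e (nat_lit 186212) (nat_lit 0) .nil) .nil))) 
(.lf (nat_lit 507537) (.g (nat_lit 1881) (.e (nat_lit 164399) (nat_lit 256) (.e (nat_lit 57372) (nat_lit 2) (.e (nat_lit 90174) (nat_lit 14) (.e (nat_lit 180243) (nat_lit 5) (.e (nat_lit 532506) (nat_lit 2) .nil))))) (.g (nat_lit 0) (.e (nat_lit 187754) (nat_lit 0) .nil) .nil)))) (.nd (nat_lit 9) 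
(.lf (nat_lit 507281) (.g (nat_lit 1832) (.e (nat_lit 164396) (nat_lit 256) (.e (nat_lit 57373) (nat_lit 2) (.e (nat_lit 90174) (nat_lit 14) (.e (nat_lit 180243) (nat_lit 5) .nil)))) (.g (nat_lit 0) (.e (nat_lit 187476) (nat_lit 0) .nil) .nil))) 
(.lf (nat_lit 507793) (.g (nat_lit 1295) (.e (nat_lit 164401) (nat_lit 256) (.e (nat_lit 57371) (nat_lit 2) (.e (nat_lit 90178) (nat_lit 15) (.e (nat_lit 196352) (nat_lit 18) .nil)))) (.g (nat_lit 0) (.e (nat_lit 188036) (nat_lit 0) .nil) .nil)))))) (.nd (nat_lit 7) (.nd (nat_lit 8) (.nd (nat_lit 9) 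
(.lf (nat_lit 506961) (.g (nat_lit 1356) (.e (nat_lit 164346) (nat_lit 240) (.e (nat_lit 2618) (nat_lit 164) (.e (nat_lit 172119) (nat_lit 12) (.e (nat_lit 475198) (nat_lit 40) (.e (nat_lit 704598) (nat_lit 6) .nil))))) (.g (nat_lit 0) (.e (nat_lit 185741) (nat_lit 0) .nil) .nil))) 
(.lf (nat_lit 507473) (.g (nat_lit 1221) (.e (nat_lit 164398) (nat_lit 256) (.e (nat_lit 57379) (nat_lit 3) (.e (nat_lit 98366) (nat_lit 27) (.e (nat_lit 434230) (nat_lit 23) .nil)))) (.g (nat_lit 0) (.e (nat_lit 187677) (nat_lit 0) .nil) .nil)))) (.nd (nat_lit 9) 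
(.lf (nat_lit 507217) (.g (nat_lit 2087) (.e (nat_lit 164362) (nat_lit 246) (.e (nat_lit 3062) (nat_lit 190) (.e (nat_lit 475211) (nat_lit 41) (.e (nat_lit 712753) (nat_lit 30) (.e (nat_lit 450595) (nat_lit 17) .nil))))) (.g (nat_lit 0) (.e (nat_lit 186834) (nat_lit 0) .nil) .nil))) 
(.lf (nat_lit 507729) (.g (nat_lit 1601) (.e (nat_lit 164399) (nat_lit 256) (.e (nat_lit 57448) (nat_lit 19) (.e (nat_lit 393287) (nat_lit 25) (.e (nat_lit 458789) (nat_lit 23) (.e (nat_lit 532579) (nat_lit 26) .nil))))) (.g (nat_lit 0) (.e (nat_lit 187971) (nat_lit 0) .nil) .nil))))) (.nd (nat_lit 8) (.nd (nat_lit 9) 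
(.lf (nat_lit 507089) (.g (nat_lit 2057) (.e (nat_lit 164348) (nat_lit 240) (.e (nat_lit 2628) (nat_lit 164) (.e (nat_lit 172124) (nat_lit 14) (.e (nat_lit 491547) (nat_lit 9) (.e (nat_lit 336443) (nat_lit 32) .nil))))) (.g (nat_lit 0) (.e (nat_lit 186454) (nat_lit 0) .nil) .nil))) 
(.lf (nat_lit 507601) (.g (nat_lit 1613) (.e (nat_lit 164399) (nat_lit 256) (.e (nat_lit 57378) (nat_lit 3) (.e (nat_lit 98356) (nat_lit 26) (.e (nat_lit 433920) (nat_lit 13) .nil)))) (.g (nat_lit 0) (.e (nat_lit 187834) (nat_lit 0) .nil) .nil)))) (.nd (nat_lit 9) 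
(.lf (nat_lit 507345) (.g (nat_lit 2232) (.e (nat_lit 164397) (nat_lit 256) (.e (nat_lit 57372) (nat_lit 2) (.e (nat_lit 90172) (nat_lit 14) (.e (nat_lit 180243) (nat_lit 5) (.e (nat_lit 532515) (nat_lit 3) .nil))))) (.g (nat_lit 0) (.e (nat_lit 187541) (nat_lit 0) .nil) .nil))) 
(.lf (nat_lit 507857) (.g (nat_lit 1592) (.e (nat_lit 164402) (nat_lit 256) (.e (nat_lit 57371) (nat_lit 2) (.e (nat_lit 90169) (nat_lit 13) (.e (nat_lit 172121) (nat_lit 13) (.e (nat_lit 483341) (nat_lit 9) .nil))))) (.g (nat_lit 0) (.e (nat_lit 188105) (nat_lit 0) .nil) .nil))))))) (.nd (nat_lit 6) (.nd (nat_lit 7) (.nd (nat_lit 8) (.nd (nat_lit 9) 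
(.lf (nat_lit 506929) (.g (nat_lit 3632) (.e (nat_lit 164345) (nat_lit 240) (.e (nat_lit 2628) (nat_lit 164) (.e (nat_lit 172126) (nat_lit 14) (.e (nat_lit 491549) (nat_lit 9) (.e (nat_lit 336443) (nat_lit 32) (.e (nat_lit 466969) (nat_lit 21) .nil)))))) (.g (nat_lit 1) (.e (nat_lit 185451) (nat_lit 0) .nil) .nil))) 
(.lf (nat_lit 507441) (.g (nat_lit 753) (.e (nat_lit 164398) (nat_lit 256) (.e (nat_lit 57377) (nat_lit 3) (.e (nat_lit 98369) (nat_lit 28) .nil))) (.g (nat_lit 0) (.e (nat_lit 187642) (nat_lit 0) .nil) .nil)))) (.nd (nat_lit 9) 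
(.lf (nat_lit 507185) (.g (nat_lit 2471) (.e (nat_lit 164359) (nat_lit 246) (.e (nat_lit 2661) (nat_lit 167) (.e (nat_lit 196666) (nat_lit 13) (.e (nat_lit 65617) (nat_lit 10) (.e (nat_lit 344132) (nat_lit 26) (.e (nat_lit 557073) (nat_lit 9) (.e (nat_lit 22) (nat_lit 0) (.e (nat_lit 6236) (nat_lit 335) .nil)))))))) (.g (nat_lit 1) (.e (nat_lit 186716) (nat_lit 0) .nil) .nil))) 
(.lf (nat_lit 507697) (.g (nat_lit 1471) (.e (nat_lit 164399) (nat_lit 256) (.e (nat_lit 57409) (nat_lit 12) (.e (nat_lit 336430) (nat_lit 29) (.e (nat_lit 442427) (nat_lit 23) (.e (nat_lit 212736) (nat_lit 9) .nil))))) (.g (nat_lit 0) (.e (nat_lit 187936) (nat_lit 0) .nil) .nil))))) (.nd (nat_lit 8) (.nd (nat_lit 9) 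
(.lf (nat_lit 507057) (.g (nat_lit 4172) (.e (nat_lit 164348) (nat_lit 240) (.e (nat_lit 2610) (nat_lit 163) (.e (nat_lit 163977) (nat_lit 30) (.e (nat_lit 573485) (nat_lit 13) (.e (nat_lit 65604) (nat_lit 9) (.e (nat_lit 336028) (nat_lit 3) (.e (nat_lit 98359) (nat_lit 26) (.e (nat_lit 426097) (nat_lit 1) .nil)))))))) (.g (nat_lit 1) (.e (nat_lit 186383) (nat_lit 0) .nil) .nil))) 
(.lf (nat_lit 507569) (.g (nat_lit 1282) (.e (nat_lit 164399) (nat_lit 256) (.e (nat_lit 57375) (nat_lit 2) (.e (nat_lit 90167) (nat_lit 13) (.e (nat_lit 172123) (nat_lit 13) .nil)))) (.g (nat_lit 0) (.e (nat_lit 187788) (nat_lit 0) .nil) .nil)))) (.nd (nat_lit 9) 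
(.lf (nat_lit 507313) (.g (nat_lit 2218) (.e (nat_lit 164396) (nat_lit 256) (.e (nat_lit 57379) (nat_lit 3) (.e (nat_lit 98367) (nat_lit 27) (.e (nat_lit 434231) (nat_lit 23) (.e (nat_lit 532514) (nat_lit 3) .nil))))) (.g (nat_lit 0) (.e (nat_lit 187509) (nat_lit 0) .nil) .nil))) 
(.lf (nat_lit 507825) (.g (nat_lit 991) (.e (nat_lit 164401) (nat_lit 256) (.e (nat_lit 57378) (nat_lit 3) (.e (nat_lit 98363) (nat_lit 26) (.e (nat_lit 426225) (nat_lit 9) .nil)))) (.g (nat_lit 0) (.e (nat_lit 188071) (nat_lit 0) .nil) .nil)))))) (.nd (nat_lit 7) (.nd (nat_lit 8) (.nd (nat_lit 9) 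
(.lf (nat_lit 506993) (.g (nat_lit 2602) (.e (nat_lit 164347) (nat_lit 240) (.e (nat_lit 2610) (nat_lit 163) (.e (nat_lit 163978) (nat_lit 30) (.e (nat_lit 573479) (nat_lit 13) (.e (nat_lit 65619) (nat_lit 10) .nil))))) (.g (nat_lit 0) (.e (nat_lit 185973) (nat_lit 0) .nil) .nil))) 
(.lf (nat_lit 507505) (.g (nat_lit 1876) (.e (nat_lit 164398) (nat_lit 256) (.e (nat_lit 57447) (nat_lit 19) (.e (nat_lit 393232) (nat_lit 17) (.e (nat_lit 7583) (nat_lit 405) .nil)))) (.g (nat_lit 0) (.e (nat_lit 187710) (nat_lit 0) .nil) .nil)))) (.nd (nat_lit 9) 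
(.lf (nat_lit 507249) (.g (nat_lit 2708) (.e (nat_lit 164406) (nat_lit 258) (.e (nat_lit 163875) (nat_lit 3) (.e (nat_lit 204883) (nat_lit 33) (.e (nat_lit 401459) (nat_lit 13) (.e (nat_lit 483337) (nat_lit 9) .nil))))) (.g (nat_lit 0) (.e (nat_lit 187443) (nat_lit 0) .nil) .nil))) 
(.lf (nat_lit 507761) (.g (nat_lit 959) (.e (nat_lit 164400) (nat_lit 256) (.e (nat_lit 57375) (nat_lit 2) (.e (nat_lit 90176) (nat_lit 15) (.e (nat_lit 188423) (nat_lit 11) .nil)))) (.g (nat_lit 0) (.e (nat_lit 188004) (nat_lit 0) .nil) .nil))))) (.nd (nat_lit 8) (.nd (nat_lit 9) 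
(.lf (nat_lit 507121) (.g (nat_lit 1412) (.e (nat_lit 164353) (nat_lit 246) (.e (nat_lit 351) (nat_lit 28) (.e (nat_lit 393266) (nat_lit 23) (.e (nat_lit 426432) (nat_lit 17) (.e (nat_lit 90203) (nat_lit 21) .nil))))) (.g (nat_lit 0) (.e (nat_lit 186638) (nat_lit 0) .nil) .nil))) 
(.lf (nat_lit 507633) (.g (nat_lit 2671) (.e (nat_lit 164399) (nat_lit 256) (.e (nat_lit 57378) (nat_lit 3) (.e (nat_lit 98378) (nat_lit 30) (.e (nat_lit 458789) (nat_lit 23) (.e (nat_lit 532484) (nat_lit 0) .nil))))) (.g (nat_lit 0) (.e (nat_lit 187866) (nat_lit 0) .nil) .nil)))) (.nd (nat_lit 9) 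
(.lf (nat_lit 507377) (.g (nat_lit 1875) (.e (nat_lit 164397) (nat_lit 256) (.e (nat_lit 57379) (nat_lit 3) (.e (nat_lit 98367) (nat_lit 27) (.e (nat_lit 434234) (nat_lit 23) .nil)))) (.g (nat_lit 0) (.e (nat_lit 187573) (nat_lit 0) .nil) .nil))) 
(.lf (nat_lit 507889) (.g (nat_lit 1458) (.e (nat_lit 164402) (nat_lit 256) (.e (nat_lit 57373) (nat_lit 2) (.e (nat_lit 90185) (nat_lit 17) (.e (nat_lit 237621) (nat_lit 13) (.e (nat_lit 483341) (nat_lit 9) .nil))))) (.g (nat_lit 0) (.e (nat_lit 188137) (nat_lit 0) .nil) .nil))))))))) (.nd (nat_lit 4) (.nd (nat_lit 5) (.nd (nat_lit 6) (.nd (nat_lit 7) (.nd (nat_lit 8) (.nd (nat_lit 9) 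
(.lf (nat_lit 506889) (.g (nat_lit 1091) (.e (nat_lit 164319) (nat_lit 228) (.e (nat_lit 57412) (nat_lit 12) (.e (nat_lit 336176) (nat_lit 10) (.e (nat_lit 344153) (nat_lit 35) .nil)))) (.g (nat_lit 0) (.e (nat_lit 185257) (nat_lit 0) .nil) .nil))) 
(.lf (nat_lit 507401) (.g (nat_lit 2175) (.e (nat_lit 164398) (nat_lit 256) (.e (nat_lit 57372) (nat_lit 2) (.e (nat_lit 90174) (nat_lit 14) (.e (nat_lit 180243) (nat_lit 5) (.e (nat_lit 532511) (nat_lit 2) .nil))))) (.g (nat_lit 0) (.e (nat_lit 187598) (nat_lit 0) .nil) .nil)))) (.nd (nat_lit 9) 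
(.lf (nat_lit 507145) (.g (nat_lit 1405) (.e (nat_lit 164356) (nat_lit 246) (.e (nat_lit 351) (nat_lit 28) (.e (nat_lit 393266) (nat_lit 23) (.e (nat_lit 426432) (nat_lit 17) (.e (nat_lit 90203) (nat_lit 21) .nil))))) (.g (nat_lit 0) (.e (nat_lit 186667) (nat_lit 0) .nil) .nil))) 
(.lf (nat_lit 507657) (.g (nat_lit 2065) (.e (nat_lit 164399) (nat_lit 256) (.e (nat_lit 57379) (nat_lit 3) (.e (nat_lit 98366) (nat_lit 27) (.e (nat_lit 434231) (nat_lit 23) (.e (nat_lit 532506) (nat_lit 2) .nil))))) (.g (nat_lit 0) (.e (nat_lit 187890) (nat_lit 0) .nil) .nil))))) (.nd (nat_lit 8) (.nd (nat_lit 9) 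
(.lf (nat_lit 507017) (.g (nat_lit 1682) (.e (nat_lit 164347) (nat_lit 240) (.e (nat_lit 2629) (nat_lit 164) (.e (nat_lit 172118) (nat_lit 12) (.e (nat_lit 475198) (nat_lit 40) (.e (nat_lit 704598) (nat_lit 6) .nil))))) (.g (nat_lit 0) (.e (nat_lit 186161) (nat_lit 0) .nil) .nil))) 
(.lf (nat_lit 507529) (.g (nat_lit 800) (.e (nat_lit 164399) (nat_lit 256) (.e (nat_lit 57372) (nat_lit 2) (.e (nat_lit 90168) (nat_lit 13) .nil))) (.g (nat_lit 0) (.e (nat_lit 187746) (nat_lit 0) .nil) .nil)))) (.nd (nat_lit 9) 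
(.lf (nat_lit 507273) (.g (nat_lit 2308) (.e (nat_lit 164396) (nat_lit 256) (.e (nat_lit 57372) (nat_lit 2) (.e (nat_lit 90172) (nat_lit 14) (.e (nat_lit 180244) (nat_lit 5) (.e (nat_lit 532514) (nat_lit 3) .nil))))) (.g (nat_lit 0) (.e (nat_lit 187468) (nat_lit 0) .nil) .nil))) 
(.lf (nat_lit 507785) (.g (nat_lit 2068) (.e (nat_lit 164400) (nat_lit 256) (.e (nat_lit 57411) (nat_lit 12) (.e (nat_lit 336443) (nat_lit 32) (.e (nat_lit 466977) (nat_lit 22) (.e (nat_lit 196654) (nat_lit 11) .nil))))) (.g (nat_lit 0) (.e (nat_lit 188028) (nat_lit 0) .nil) .nil)))))) (.nd (nat_lit 7) (.nd (nat_lit 8) (.nd (nat_lit 9) 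
(.lf (nat_lit 506953) (.g (nat_lit 1188) (.e (nat_lit 164345) (nat_lit 240) (.e (nat_lit 2640) (nat_lit 165) (.e (nat_lit 180278) (nat_lit 32) (.e (nat_lit 1660) (nat_lit 115) (.e (nat_lit 393281) (nat_lit 23) .nil))))) (.g (nat_lit 0) (.e (nat_lit 185555) (nat_lit 0) .nil) .nil))) 
(.lf (nat_lit 507465) (.g (nat_lit 1784) (.e (nat_lit 164398) (nat_lit 256) (.e (nat_lit 57379) (nat_lit 3) (.e (nat_lit 98359) (nat_lit 26) (.e (nat_lit 426329) (nat_lit 13) .nil)))) (.g (nat_lit 0) (.e (nat_lit 187669) (nat_lit 0) .nil) .nil)))) (.nd (nat_lit 9) 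
(.lf (nat_lit 507209) (.g (nat_lit 1565) (.e (nat_lit 164361) (nat_lit 246) (.e (nat_lit 2679) (nat_lit 168) (.e (nat_lit 204868) (nat_lit 29) (.e (nat_lit 360466) (nat_lit 3) (.e (nat_lit 524032) (nat_lit 0) (.e (nat_lit 7106) (nat_lit 380) .nil)))))) (.g (nat_lit 1) (.e (nat_lit 186808) (nat_lit 0) .nil) .nil))) 
(.lf (nat_lit 507721) (.g (nat_lit 1688) (.e (nat_lit 164399) (nat_lit 256) (.e (nat_lit 57447) (nat_lit 19) (.e (nat_lit 393282) (nat_lit 24) (.e (nat_lit 434231) (nat_lit 23) (.e (nat_lit 532578) (nat_lit 26) .nil))))) (.g (nat_lit 0) (.e (nat_lit 187963) (nat_lit 0) .nil) .nil))))) (.nd (nat_lit 8) (.nd (nat_lit 9) 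
(.lf (nat_lit 507081) (.g (nat_lit 5121) (.e (nat_lit 164348) (nat_lit 240) (.e (nat_lit 2611) (nat_lit 163) (.e (nat_lit 163978) (nat_lit 30) (.e (nat_lit 573485) (nat_lit 13) (.e (nat_lit 65604) (nat_lit 9) (.e (nat_lit 336013) (nat_lit 2) (.e (nat_lit 90170) (nat_lit 13) (.e (nat_lit 172061) (nat_lit 1) .nil)))))))) (.g (nat_lit 1) (.e (nat_lit 186411) (nat_lit 0) .nil) .nil))) 
(.lf (nat_lit 507593) (.g (nat_lit 1938) (.e (nat_lit 164399) (nat_lit 256) (.e (nat_lit 57377) (nat_lit 3) (.e (nat_lit 98381) (nat_lit 31) (.e (nat_lit 466954) (nat_lit 11) (.e (nat_lit 336387) (nat_lit 27) .nil))))) (.g (nat_lit 0) (.e (nat_lit 187825) (nat_lit 0) .nil) .nil)))) (.nd (nat_lit 9) 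
(.lf (nat_lit 507337) (.g (nat_lit 2809) (.e (nat_lit 164397) (nat_lit 256) (.e (nat_lit 57371) (nat_lit 2) (.e (nat_lit 90174) (nat_lit 14) (.e (nat_lit 180243) (nat_lit 5) (.e (nat_lit 532515) (nat_lit 3) (.e (nat_lit 114716) (nat_lit 22) (.e (nat_lit 90129) (nat_lit 9) (.e (nat_lit 2603) (nat_lit 163) .nil)))))))) (.g (nat_lit 1) (.e (nat_lit 187533) (nat_lit 0) .nil) .nil))) 
(.lf (nat_lit 507849) (.g (nat_lit 529) (.e (nat_lit 164401) (nat_lit 256) (.e (nat_lit 57409) (nat_lit 12) (.e (nat_lit 336444) (nat_lit 32) .nil))) (.g (nat_lit 0) (.e (nat_lit 188095) (nat_lit 0) .nil) .nil))))))) (.nd (nat_lit 6) (.nd (nat_lit 7) (.nd (nat_lit 8) (.nd (nat_lit 9) 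
(.lf (nat_lit 506921) (.g (nat_lit 1740) (.e (nat_lit 164345) (nat_lit 240) (.e (nat_lit 2618) (nat_lit 164) (.e (nat_lit 172124) (nat_lit 14) (.e (nat_lit 491547) (nat_lit 9) (.e (nat_lit 336443) (nat_lit 32) .nil))))) (.g (nat_lit 0) (.e (nat_lit 185357) (nat_lit 0) .nil) .nil))) 
(.lf (nat_lit 507433) (.g (nat_lit 1583) (.e (nat_lit 164398) (nat_lit 256) (.e (nat_lit 57375) (nat_lit 2) (.e (nat_lit 90169) (nat_lit 13) (.e (nat_lit 172121) (nat_lit 13) (.e (nat_lit 483337) (nat_lit 9) .nil))))) (.g (nat_lit 0) (.e (nat_lit 187632) (nat_lit 0) .nil) .nil)))) (.nd (nat_lit 9) 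
(.lf (nat_lit 507177) (.g (nat_lit 3867) (.e (nat_lit 164359) (nat_lit 246) (.e (nat_lit 2661) (nat_lit 167) (.e (nat_lit 196666) (nat_lit 13) (.e (nat_lit 65610) (nat_lit 10) (.e (nat_lit 344117) (nat_lit 21) (.e (nat_lit 516106) (nat_lit 0) (.e (nat_lit 7936) (nat_lit 380) .nil))))))) (.g (nat_lit 1) (.e (nat_lit 186708) (nat_lit 0) .nil) .nil))) 
(.lf (nat_lit 507689) (.g (nat_lit 1328) (.e (nat_lit 164399) (nat_lit 256) (.e (nat_lit 57407) (nat_lit 12) (.e (nat_lit 336441) (nat_lit 32) (.e (nat_lit 466980) (nat_lit 23) (.e (nat_lit 204813) (nat_lit 9) .nil))))) (.g (nat_lit 0) (.e (nat_lit 187928) (nat_lit 0) .nil) .nil))))) (.nd (nat_lit 8) (.nd (nat_lit 9) 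
(.lf (nat_lit 507049) (.g (nat_lit 544) (.e (nat_lit 164347) (nat_lit 240) (.e (nat_lit 2650) (nat_lit 166) (.e (nat_lit 188425) (nat_lit 20) .nil))) (.g (nat_lit 0) (.e (nat_lit 186292) (nat_lit 0) .nil) .nil))) 
(.lf (nat_lit 507561) (.g (nat_lit 994) (.e (nat_lit 164399) (nat_lit 256) (.e (nat_lit 57373) (nat_lit 2) (.e (nat_lit 90176) (nat_lit 15) (.e (nat_lit 188423) (nat_lit 11) .nil)))) (.g (nat_lit 0) (.e (nat_lit 187779) (nat_lit 0) .nil) .nil)))) (.nd (nat_lit 9) 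
(.lf (nat_lit 507305) (.g (nat_lit 536) (.e (nat_lit 164396) (nat_lit 256) (.e (nat_lit 57379) (nat_lit 3) (.e (nat_lit 98363) (nat_lit 26) .nil))) (.g (nat_lit 0) (.e (nat_lit 187501) (nat_lit 0) .nil) .nil))) 
(.lf (nat_lit 507817) (.g (nat_lit 832) (.e (nat_lit 164401) (nat_lit 256) (.e (nat_lit 57377) (nat_lit 3) (.e (nat_lit 98376) (nat_lit 30) .nil))) (.g (nat_lit 0) (.e (nat_lit 188062) (nat_lit 0) .nil) .nil)))))) (.nd (nat_lit 7) (.nd (nat_lit 8) (.nd (nat_lit 9) 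
(.lf (nat_lit 506985) (.g (nat_lit 2683) (.e (nat_lit 164346) (nat_lit 240) (.e (nat_lit 2638) (nat_lit 165) (.e (nat_lit 180278) (nat_lit 32) (.e (nat_lit 1660) (nat_lit 115) (.e (nat_lit 393266) (nat_lit 23) (.e (nat_lit 426109) (nat_lit 1) .nil)))))) (.g (nat_lit 1) (.e (nat_lit 185846) (nat_lit 0) .nil) .nil))) 
(.lf (nat_lit 507497) (.g (nat_lit 1717) (.e (nat_lit 164398) (nat_lit 256) (.e (nat_lit 57411) (nat_lit 12) (.e (nat_lit 336434) (nat_lit 30) (.e (nat_lit 450579) (nat_lit 5) (.e (nat_lit 532579) (nat_lit 26) .nil))))) (.g (nat_lit 0) (.e (nat_lit 187701) (nat_lit 0) .nil) .nil)))) (.nd (nat_lit 9) 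
(.lf (nat_lit 507241) (.g (nat_lit 764) (.e (nat_lit 164406) (nat_lit 258) (.e (nat_lit 163871) (nat_lit 2) (.e (nat_lit 196668) (nat_lit 14) .nil))) (.g (nat_lit 0) (.e (nat_lit 187431) (nat_lit 0) .nil) .nil))) 
(.lf (nat_lit 507753) (.g (nat_lit 2397) (.e (nat_lit 164400) (nat_lit 256) (.e (nat_lit 57375) (nat_lit 2) (.e (nat_lit 90167) (nat_lit 13) (.e (nat_lit 172067) (nat_lit 3) (.e (nat_lit 204837) (nat_lit 20) .nil))))) (.g (nat_lit 0) (.e (nat_lit 187996) (nat_lit 0) .nil) .nil))))) (.nd (nat_lit 8) (.nd (nat_lit 9) 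
(.lf (nat_lit 507113) (.g (nat_lit 3946) (.e (nat_lit 164351) (nat_lit 246) (.e (nat_lit 2668) (nat_lit 167) (.e (nat_lit 196666) (nat_lit 13) (.e (nat_lit 65610) (nat_lit 10) (.e (nat_lit 344117) (nat_lit 21) (.e (nat_lit 516106) (nat_lit 0) (.e (nat_lit 7095) (nat_lit 380) .nil))))))) (.g (nat_lit 1) (.e (nat_lit 186578) (nat_lit 0) .nil) .nil))) 
(.lf (nat_lit 507625) (.g (nat_lit 2578) (.e (nat_lit 164399) (nat_lit 256) (.e (nat_lit 57378) (nat_lit 3) (.e (nat_lit 98368) (nat_lit 27) (.e (nat_lit 434231) (nat_lit 23) (.e (nat_lit 532514) (nat_lit 3) .nil))))) (.g (nat_lit 0) (.e (nat_lit 187858) (nat_lit 0) .nil) .nil)))) (.nd (nat_lit 9) 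
(.lf (nat_lit 507369) (.g (nat_lit 2072) (.e (nat_lit 164397) (nat_lit 256) (.e (nat_lit 57375) (nat_lit 2) (.e (nat_lit 90178) (nat_lit 15) (.e (nat_lit 188421) (nat_lit 11) (.e (nat_lit 336387) (nat_lit 27) .nil))))) (.g (nat_lit 0) (.e (nat_lit 187565) (nat_lit 0) .nil) .nil))) 
(.lf (nat_lit 507881) (.g (nat_lit 3124) (.e (nat_lit 164402) (nat_lit 256) (.e (nat_lit 57373) (nat_lit 2) (.e (nat_lit 90174) (nat_lit 14) (.e (nat_lit 180243) (nat_lit 5) (.e (nat_lit 532513) (nat_lit 3) (.e (nat_lit 114714) (nat_lit 22) (.e (nat_lit 90140) (nat_lit 9) (.e (nat_lit 2611) (nat_lit 163) .nil)))))))) (.g (nat_lit 1) (.e (nat_lit 188129) (nat_lit 0) .nil) .nil)))))))) 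
(.nd (nat_lit 5) (.nd (nat_lit 6) (.nd (nat_lit 7) (.nd (nat_lit 8) (.nd (nat_lit 9) 
(.lf (nat_lit 506905) (.g (nat_lit 648) (.e (nat_lit 164340) (nat_lit 232) (.e (nat_lit 461) (nat_lit 34) (.e (nat_lit 442379) (nat_lit 0) (.e (nat_lit 2059) (nat_lit 142) .nil)))) (.g (nat_lit 0) (.e (nat_lit 185309) (nat_lit 0) .nil) .nil))) 
(.lf (nat_lit 507417) (.g (nat_lit 1794) (.e (nat_lit 164398) (nat_lit 256) (.e (nat_lit 57373) (nat_lit 2) (.e (nat_lit 90174) (nat_lit 14) (.e (nat_lit 180243) (nat_lit 5) (.e (nat_lit 532515) (nat_lit 3) .nil))))) (.g (nat_lit 0) (.e (nat_lit 187615) (nat_lit 0) .nil) .nil)))) (.nd (nat_lit 9) 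
(.lf (nat_lit 507161) (.g (nat_lit 361) (.e (nat_lit 164358) (nat_lit 246) (.e (nat_lit 226) (nat_lit 21) (.e (nat_lit 336432) (nat_lit 30) .nil))) (.g (nat_lit 0) (.e (nat_lit 186685) (nat_lit 0) .nil) .nil))) 
(.lf (nat_lit 507673) (.g (nat_lit 1337) (.e (nat_lit 164399) (nat_lit 256) (.e (nat_lit 57389) (nat_lit 5) (.e (nat_lit 114716) (nat_lit 22) (.e (nat_lit 90159) (nat_lit 11) .nil)))) (.g (nat_lit 0) (.e (nat_lit 187907) (nat_lit 0) .nil) .nil))))) (.nd (nat_lit 8) (.nd (nat_lit 9) 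
(.lf (nat_lit 507033) (.g (nat_lit 1906) (.e (nat_lit 164347) (nat_lit 240) (.e (nat_lit 2638) (nat_lit 165) (.e (nat_lit 180278) (nat_lit 32) (.e (nat_lit 1659) (nat_lit 115) (.e (nat_lit 393277) (nat_lit 23) (.e (nat_lit 426103) (nat_lit 1) .nil)))))) (.g (nat_lit 1) (.e (nat_lit 186223) (nat_lit 0) .nil) .nil))) 
(.lf (nat_lit 507545) (.g (nat_lit 818) (.e (nat_lit 164399) (nat_lit 256) (.e (nat_lit 57372) (nat_lit 2) (.e (nat_lit 90183) (nat_lit 17) .nil))) (.g (nat_lit 0) (.e (nat_lit 187762) (nat_lit 0) .nil) .nil)))) (.nd (nat_lit 9) 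
(.lf (nat_lit 507289) (.g (nat_lit 2132) (.e (nat_lit 164396) (nat_lit 256) (.e (nat_lit 57375) (nat_lit 2) (.e (nat_lit 90174) (nat_lit 14) (.e (nat_lit 180243) (nat_lit 5) (.e (nat_lit 532511) (nat_lit 2) .nil))))) (.g (nat_lit 0) (.e (nat_lit 187484) (nat_lit 0) .nil) .nil))) 
(.lf (nat_lit 507801) (.g (nat_lit 2004) (.e (nat_lit 164401) (nat_lit 256) (.e (nat_lit 57373) (nat_lit 2) (.e (nat_lit 90174) (nat_lit 14) (.e (nat_lit 180243) (nat_lit 5) (.e (nat_lit 532511) (nat_lit 2) .nil))))) (.g (nat_lit 0) (.e (nat_lit 188044) (nat_lit 0) .nil) .nil)))))) (.nd (nat_lit 7) (.nd (nat_lit 8) (.nd (nat_lit 9) 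
(.lf (nat_lit 506969) (.g (nat_lit 2294) (.e (nat_lit 164346) (nat_lit 240) (.e (nat_lit 2619) (nat_lit 164) (.e (nat_lit 172126) (nat_lit 14) (.e (nat_lit 491550) (nat_lit 9) (.e (nat_lit 336443) (nat_lit 32) .nil))))) (.g (nat_lit 0) (.e (nat_lit 185775) (nat_lit 0) .nil) .nil))) 
(.lf (nat_lit 507481) (.g (nat_lit 1477) (.e (nat_lit 164398) (nat_lit 256) (.e (nat_lit 57404) (nat_lit 12) (.e (nat_lit 336443) (nat_lit 32) (.e (nat_lit 466981) (nat_lit 23) (.e (nat_lit 204809) (nat_lit 9) .nil))))) (.g (nat_lit 0) (.e (nat_lit 187685) (nat_lit 0) .nil) .nil)))) (.nd (nat_lit 9) 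
(.lf (nat_lit 507225) (.g (nat_lit 2355) (.e (nat_lit 164366) (nat_lit 246) (.e (nat_lit 3067) (nat_lit 190) (.e (nat_lit 475207) (nat_lit 41) (.e (nat_lit 712755) (nat_lit 30) (.e (nat_lit 450597) (nat_lit 17) (.e (nat_lit 671488) (nat_lit 17) .nil)))))) (.g (nat_lit 1) (.e (nat_lit 186942) (nat_lit 0) .nil) .nil))) 
(.lf (nat_lit 507737) (.g (nat_lit 2514) (.e (nat_lit 164400) (nat_lit 256) (.e (nat_lit 57372) (nat_lit 2) (.e (nat_lit 90174) (nat_lit 14) (.e (nat_lit 180243) (nat_lit 5) (.e (nat_lit 532515) (nat_lit 3) .nil))))) (.g (nat_lit 0) (.e (nat_lit 187980) (nat_lit 0) .nil) .nil))))) (.nd (nat_lit 8) (.nd (nat_lit 9) 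
(.lf (nat_lit 507097) (.g (nat_lit 2948) (.e (nat_lit 164348) (nat_lit 240) (.e (nat_lit 2640) (nat_lit 165) (.e (nat_lit 180277) (nat_lit 32) (.e (nat_lit 1659) (nat_lit 115) (.e (nat_lit 393281) (nat_lit 23) (.e (nat_lit 426098) (nat_lit 1) .nil)))))) (.g (nat_lit 1) (.e (nat_lit 186495) (nat_lit 0) .nil) .nil))) 
(.lf (nat_lit 507609) (.g (nat_lit 1072) (.e (nat_lit 164399) (nat_lit 256) (.e (nat_lit 57378) (nat_lit 3) (.e (nat_lit 98365) (nat_lit 26) (.e (nat_lit 426187) (nat_lit 9) .nil)))) (.g (nat_lit 0) (.e (nat_lit 187842) (nat_lit 0) .nil) .nil)))) (.nd (nat_lit 9) 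
(.lf (nat_lit 507353) (.g (nat_lit 2476) (.e (nat_lit 164397) (nat_lit 256) (.e (nat_lit 57373) (nat_lit 2) (.e (nat_lit 90172) (nat_lit 14) (.e (nat_lit 180244) (nat_lit 5) (.e (nat_lit 532513) (nat_lit 3) .nil))))) (.g (nat_lit 0) (.e (nat_lit 187549) (nat_lit 0) .nil) .nil))) 
(.lf (nat_lit 507865) (.g (nat_lit 4774) (.e (nat_lit 164402) (nat_lit 256) (.e (nat_lit 57371) (nat_lit 2) (.e (nat_lit 90174) (nat_lit 14) (.e (nat_lit 180250) (nat_lit 10) (.e (nat_lit 573489) (nat_lit 14) (.e (nat_lit 73755) (nat_lit 8) (.e (nat_lit 557067) (nat_lit 9) (.e (nat_lit 2606) (nat_lit 163) .nil)))))))) (.g (nat_lit 1) (.e (nat_lit 188113) (nat_lit 0) .nil) .nil))))))) 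
(.nd (nat_lit 6) (.nd (nat_lit 7) (.nd (nat_lit 8) (.nd (nat_lit 9) 
(.lf (nat_lit 506937) (.g (nat_lit 2392) (.e (nat_lit 164345) (nat_lit 240) (.e (nat_lit 2638) (nat_lit 165) (.e (nat_lit 180277) (nat_lit 32) (.e (nat_lit 1659) (nat_lit 115) (.e (nat_lit 393281) (nat_lit 23) (.e (nat_lit 426099) (nat_lit 1) .nil)))))) (.g (nat_lit 1) (.e (nat_lit 185521) (nat_lit 0) .nil) .nil))) 
(.lf (nat_lit 507449) (.g (nat_lit 2415) (.e (nat_lit 164398) (nat_lit 256) (.e (nat_lit 57378) (nat_lit 3) (.e (nat_lit 98365) (nat_lit 26) (.e (nat_lit 426187) (nat_lit 9) (.e (nat_lit 426566) (nat_lit 34) (.e (nat_lit 393250) (nat_lit 18) .nil)))))) (.g (nat_lit 1) (.e (nat_lit 187653) (nat_lit 0) .nil) .nil)))) (.nd (nat_lit 9) 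
(.lf (nat_lit 507193) (.g (nat_lit 1892) (.e (nat_lit 164359) (nat_lit 246) (.e (nat_lit 2679) (nat_lit 168) (.e (nat_lit 204868) (nat_lit 29) (.e (nat_lit 360466) (nat_lit 3) (.e (nat_lit 516104) (nat_lit 0) (.e (nat_lit 7936) (nat_lit 380) .nil)))))) (.g (nat_lit 1) (.e (nat_lit 186724) (nat_lit 0) .nil) .nil))) 
(.lf (nat_lit 507705) (.g (nat_lit 2283) (.e (nat_lit 164399) (nat_lit 256) (.e (nat_lit 57411) (nat_lit 12) (.e (nat_lit 336443) (nat_lit 32) (.e (nat_lit 466978) (nat_lit 23) (.e (nat_lit 204813) (nat_lit 9) .nil))))) (.g (nat_lit 0) (.e (nat_lit 187944) (nat_lit 0) .nil) .nil))))) (.nd (nat_lit 8) (.nd (nat_lit 9) 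
(.lf (nat_lit 507065) (.g (nat_lit 6705) (.e (nat_lit 164348) (nat_lit 240) (.e (nat_lit 2610) (nat_lit 163) (.e (nat_lit 163977) (nat_lit 30) (.e (nat_lit 573493) (nat_lit 15) (.e (nat_lit 81953) (nat_lit 22) (.e (nat_lit 90185) (nat_lit 17) (.e (nat_lit 237582) (nat_lit 1) .nil))))))) (.g (nat_lit 1) (.e (nat_lit 186391) (nat_lit 0) .nil) .nil))) 
(.lf (nat_lit 507577) (.g (nat_lit 3120) (.e (nat_lit 164399) (nat_lit 256) (.e (nat_lit 57377) (nat_lit 3) (.e (nat_lit 98358) (nat_lit 26) (.e (nat_lit 426131) (nat_lit 3) (.e (nat_lit 204837) (nat_lit 20) .nil))))) (.g (nat_lit 0) (.e (nat_lit 187796) (nat_lit 0) .nil) .nil)))) (.nd (nat_lit 9) 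
(.lf (nat_lit 507321) (.g (nat_lit 2048) (.e (nat_lit 164396) (nat_lit 256) (.e (nat_lit 57407) (nat_lit 12) (.e (nat_lit 336443) (nat_lit 32) (.e (nat_lit 466977) (nat_lit 22) (.e (nat_lit 196654) (nat_lit 11) .nil))))) (.g (nat_lit 0) (.e (nat_lit 187517) (nat_lit 0) .nil) .nil))) 
(.lf (nat_lit 507833) (.g (nat_lit 3490) (.e (nat_lit 164401) (nat_lit 256) (.e (nat_lit 57378) (nat_lit 3) (.e (nat_lit 98366) (nat_lit 27) (.e (nat_lit 434231) (nat_lit 23) (.e (nat_lit 532483) (nat_lit 0) .nil))))) (.g (nat_lit 0) (.e (nat_lit 188079) (nat_lit 0) .nil) .nil)))))) (.nd (nat_lit 7) (.nd (nat_lit 8) (.nd (nat_lit 9) 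
(.lf (nat_lit 507001) (.g (nat_lit 4495) (.e (nat_lit 164347) (nat_lit 240) (.e (nat_lit 2610) (nat_lit 163) (.e (nat_lit 163979) (nat_lit 30) (.e (nat_lit 573493) (nat_lit 15) (.e (nat_lit 81956) (nat_lit 23) (.e (nat_lit 98356) (nat_lit 26) (.e (nat_lit 433920) (nat_lit 1) .nil))))))) (.g (nat_lit 1) (.e (nat_lit 185981) (nat_lit 0) .nil) .nil))) 
(.lf (nat_lit 507513) (.g (nat_lit 1709) (.e (nat_lit 164399) (nat_lit 256) (.e (nat_lit 57370) (nat_lit 2) (.e (nat_lit 90170) (nat_lit 13) (.e (nat_lit 172121) (nat_lit 13) .nil)))) (.g (nat_lit 0) (.e (nat_lit 187721) (nat_lit 0) .nil) .nil)))) (.nd (nat_lit 9) 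
(.lf (nat_lit 507257) (.g (nat_lit 1971) (.e (nat_lit 164396) (nat_lit 256) (.e (nat_lit 57371) (nat_lit 2) (.e (nat_lit 90174) (nat_lit 14) (.e (nat_lit 180243) (nat_lit 5) (.e (nat_lit 532515) (nat_lit 3) .nil))))) (.g (nat_lit 0) (.e (nat_lit 187452) (nat_lit 0) .nil) .nil))) 
(.lf (nat_lit 507769) (.g (nat_lit 1975) (.e (nat_lit 164400) (nat_lit 256) (.e (nat_lit 57378) (nat_lit 3) (.e (nat_lit 98365) (nat_lit 26) (.e (nat_lit 426188) (nat_lit 9) .nil)))) (.g (nat_lit 0) (.e (nat_lit 188012) (nat_lit 0) .nil) .nil))))) (.nd (nat_lit 8) (.nd (nat_lit 9) 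
(.lf (nat_lit 507129) (.g (nat_lit 1437) (.e (nat_lit 164353) (nat_lit 246) (.e (nat_lit 351) (nat_lit 28) (.e (nat_lit 393271) (nat_lit 23) (.e (nat_lit 433920) (nat_lit 17) .nil)))) (.g (nat_lit 0) (.e (nat_lit 186646) (nat_lit 0) .nil) .nil))) 
(.lf (nat_lit 507641) (.g (nat_lit 982) (.e (nat_lit 164399) (nat_lit 256) (.e (nat_lit 57379) (nat_lit 3) (.e (nat_lit 98355) (nat_lit 26) (.e (nat_lit 426323) (nat_lit 13) .nil)))) (.g (nat_lit 0) (.e (nat_lit 187874) (nat_lit 0) .nil) .nil)))) (.nd (nat_lit 9) 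
(.lf (nat_lit 507385) (.g (nat_lit 1713) (.e (nat_lit 164397) (nat_lit 256) (.e (nat_lit 57409) (nat_lit 12) (.e (nat_lit 336443) (nat_lit 32) (.e (nat_lit 466981) (nat_lit 23) .nil)))) (.g (nat_lit 0) (.e (nat_lit 187581) (nat_lit 0) .nil) .nil))) 
(.lf (nat_lit 507897) (.g (nat_lit 1508) (.e (nat_lit 164402) (nat_lit 256) (.e (nat_lit 57377) (nat_lit 3) (.e (nat_lit 98376) (nat_lit 30) (.e (nat_lit 458789) (nat_lit 23) (.e (nat_lit 532515) (nat_lit 3) .nil))))) (.g (nat_lit 0) (.e (nat_lit 188147) (nat_lit 0) .nil) .nil)))))))))) 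
(.nd (nat_lit 3) (.nd (nat_lit 4) (.nd (nat_lit 5) (.nd (nat_lit 6) (.nd (nat_lit 7) 
(.nd (nat_lit 8) (.nd (nat_lit 9) 
(.lf (nat_lit 506885) (.g (nat_lit 962) (.e (nat_lit 164319) (nat_lit 228) (.e (nat_lit 57412) (nat_lit 12) (.e (nat_lit 336173) (nat_lit 10) (.e (nat_lit 344154) (nat_lit 35) .nil)))) (.g (nat_lit 0) (.e (nat_lit 185252) (nat_lit 0) .nil) .nil))) 
(.lf (nat_lit 507397) (.g (nat_lit 1419) (.e (nat_lit 164398) (nat_lit 256) (.e (nat_lit 57371) (nat_lit 2) (.e (nat_lit 90178) (nat_lit 15) (.e (nat_lit 196352) (nat_lit 18) .nil)))) (.g (nat_lit 0) (.e (nat_lit 187594) (nat_lit 0) .nil) .nil)))) (.nd (nat_lit 9) 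
(.lf (nat_lit 507141) (.g (nat_lit 619) (.e (nat_lit 164354) (nat_lit 246) (.e (nat_lit 351) (nat_lit 28) (.e (nat_lit 393279) (nat_lit 23) (.e (nat_lit 426429) (nat_lit 17) .nil)))) (.g (nat_lit 0) (.e (nat_lit 186662) (nat_lit 0) .nil) .nil))) 
(.lf (nat_lit 507653) (.g (nat_lit 2987) (.e (nat_lit 164399) (nat_lit 256) (.e (nat_lit 57379) (nat_lit 3) (.e (nat_lit 98365) (nat_lit 26) (.e (nat_lit 426325) (nat_lit 13) (.e (nat_lit 483338) (nat_lit 9) .nil))))) (.g (nat_lit 0) (.e (nat_lit 187886) (nat_lit 0) .nil) .nil))))) (.nd (nat_lit 8) (.nd (nat_lit 9) 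
(.lf (nat_lit 507013) (.g (nat_lit 1051) (.e (nat_lit 164347) (nat_lit 240) (.e (nat_lit 2619) (nat_lit 164) (.e (nat_lit 172124) (nat_lit 14) (.e (nat_lit 491569) (nat_lit 13) .nil)))) (.g (nat_lit 0) (.e (nat_lit 186050) (nat_lit 0) .nil) .nil))) 
(.lf (nat_lit 507525) (.g (nat_lit 961) (.e (nat_lit 164399) (nat_lit 256) (.e (nat_lit 57372) (nat_lit 2) (.e (nat_lit 90162) (nat_lit 12) .nil))) (.g (nat_lit 0) (.e (nat_lit 187742) (nat_lit 0) .nil) .nil)))) (.nd (nat_lit 9) 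
(.lf (nat_lit 507269) (.g (nat_lit 1420) (.e (nat_lit 164396) (nat_lit 256) (.e (nat_lit 57371) (nat_lit 2) (.e (nat_lit 90176) (nat_lit 15) (.e (nat_lit 196352) (nat_lit 11) .nil)))) (.g (nat_lit 0) (.e (nat_lit 187464) (nat_lit 0) .nil) .nil))) 
(.lf (nat_lit 507781) (.g (nat_lit 1960) (.e (nat_lit 164400) (nat_lit 256) (.e (nat_lit 57409) (nat_lit 12) (.e (nat_lit 336443) (nat_lit 32) (.e (nat_lit 466974) (nat_lit 22) .nil)))) (.g (nat_lit 0) (.e (nat_lit 188024) (nat_lit 0) .nil) .nil)))))) (.nd (nat_lit 7) (.nd (nat_lit 8) (.nd (nat_lit 9) 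
(.lf (nat_lit 506949) (.g (nat_lit 1094) (.e (nat_lit 164345) (nat_lit 240) (.e (nat_lit 2640) (nat_lit 165) (.e (nat_lit 180277) (nat_lit 32) (.e (nat_lit 1659) (nat_lit 115) (.e (nat_lit 401152) (nat_lit 23) .nil))))) (.g (nat_lit 0) (.e (nat_lit 185551) (nat_lit 0) .nil) .nil))) 
(.lf (nat_lit 507461) (.g (nat_lit 876) (.e (nat_lit 164398) (nat_lit 256) (.e (nat_lit 57378) (nat_lit 3) (.e (nat_lit 98381) (nat_lit 31) (.e (nat_lit 466952) (nat_lit 11) (.e (nat_lit 336406) (nat_lit 27) .nil))))) (.g (nat_lit 0) (.e (nat_lit 187665) (nat_lit 0) .nil) .nil)))) (.nd (nat_lit 9) 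
(.lf (nat_lit 507205) (.g (nat_lit 3138) (.e (nat_lit 164359) (nat_lit 246) (.e (nat_lit 3062) (nat_lit 190) (.e (nat_lit 475211) (nat_lit 41) (.e (nat_lit 712755) (nat_lit 30) (.e (nat_lit 450597) (nat_lit 17) (.e (nat_lit 671488) (nat_lit 17) .nil)))))) (.g (nat_lit 1) (.e (nat_lit 186762) (nat_lit 0) .nil) .nil))) 
(.lf (nat_lit 507717) (.g (nat_lit 1887) (.e (nat_lit 164399) (nat_lit 256) (.e (nat_lit 57447) (nat_lit 19) (.e (nat_lit 393232) (nat_lit 17) (.e (nat_lit 7583) (nat_lit 405) .nil)))) (.g (nat_lit 0) (.e (nat_lit 187959) (nat_lit 0) .nil) .nil))))) (.nd (nat_lit 8) (.nd (nat_lit 9) 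
(.lf (nat_lit 507077) (.g (nat_lit 6817) (.e (nat_lit 164348) (nat_lit 240) (.e (nat_lit 2610) (nat_lit 163) (.e (nat_lit 163979) (nat_lit 30) (.e (nat_lit 573493) (nat_lit 15) (.e (nat_lit 81953) (nat_lit 22) (.e (nat_lit 90185) (nat_lit 17) (.e (nat_lit 237584) (nat_lit 1) .nil))))))) (.g (nat_lit 1) (.e (nat_lit 186403) (nat_lit 0) .nil) .nil))) 
(.lf (nat_lit 507589) (.g (nat_lit 1056) (.e (nat_lit 164399) (nat_lit 256) (.e (nat_lit 57377) (nat_lit 3) (.e (nat_lit 98371) (nat_lit 28) (.e (nat_lit 450304) (nat_lit 18) .nil)))) (.g (nat_lit 0) (.e (nat_lit 187820) (nat_lit 0) .nil) .nil)))) (.nd (nat_lit 9) 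
(.lf (nat_lit 507333) (.g (nat_lit 2185) (.e (nat_lit 164397) (nat_lit 256) (.e (nat_lit 57371) (nat_lit 2) (.e (nat_lit 90167) (nat_lit 13) (.e (nat_lit 172067) (nat_lit 3) (.e (nat_lit 204837) (nat_lit 20) .nil))))) (.g (nat_lit 0) (.e (nat_lit 187529) (nat_lit 0) .nil) .nil))) 
(.lf (nat_lit 507845) (.g (nat_lit 1179) (.e (nat_lit 164401) (nat_lit 256) (.e (nat_lit 57406) (nat_lit 12) (.e (nat_lit 336426) (nat_lit 29) (.e (nat_lit 442427) (nat_lit 23) .nil)))) (.g (nat_lit 0) (.e (nat_lit 188091) (nat_lit 0) .nil) .nil))))))) (.nd (nat_lit 6) (.nd (nat_lit 7) (.nd (nat_lit 8) (.nd (nat_lit 9) 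
(.lf (nat_lit 506917) (.g (nat_lit 4643) (.e (nat_lit 164345) (nat_lit 240) (.e (nat_lit 2611) (nat_lit 163) (.e (nat_lit 163978) (nat_lit 30) (.e (nat_lit 573485) (nat_lit 13) (.e (nat_lit 65619) (nat_lit 10) (.e (nat_lit 344117) (nat_lit 21) (.e (nat_lit 516151) (nat_lit 9) (.e (nat_lit 426097) (nat_lit 1) .nil)))))))) (.g (nat_lit 1) (.e (nat_lit 185333) (nat_lit 0) .nil) .nil))) 
(.lf (nat_lit 507429) (.g (nat_lit 1469) (.e (nat_lit 164398) (nat_lit 256) (.e (nat_lit 57373) (nat_lit 2) (.e (nat_lit 90185) (nat_lit 17) (.e (nat_lit 237620) (nat_lit 13) .nil)))) (.g (nat_lit 0) (.e (nat_lit 187627) (nat_lit 0) .nil) .nil)))) (.nd (nat_lit 9) 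
(.lf (nat_lit 507173) (.g (nat_lit 1716) (.e (nat_lit 164358) (nat_lit 246) (.e (nat_lit 351) (nat_lit 28) (.e (nat_lit 393291) (nat_lit 26) (.e (nat_lit 475169) (nat_lit 22) (.e (nat_lit 499791) (nat_lit 3) .nil))))) (.g (nat_lit 0) (.e (nat_lit 186701) (nat_lit 0) .nil) .nil))) 
(.lf (nat_lit 507685) (.g (nat_lit 979) (.e (nat_lit 164399) (nat_lit 256) (.e (nat_lit 57407) (nat_lit 12) (.e (nat_lit 336432) (nat_lit 30) (.e (nat_lit 450579) (nat_lit 5) .nil)))) (.g (nat_lit 0) (.e (nat_lit 187924) (nat_lit 0) .nil) .nil))))) (.nd (nat_lit 8) (.nd (nat_lit 9) 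
(.lf (nat_lit 507045) (.g (nat_lit 159) (.e (nat_lit 164347) (nat_lit 240) (.e (nat_lit 2640) (nat_lit 165) (.e (nat_lit 188160) (nat_lit 32) .nil))) (.g (nat_lit 0) (.e (nat_lit 186244) (nat_lit 0) .nil) .nil))) 
(.lf (nat_lit 507557) (.g (nat_lit 1858) (.e (nat_lit 164399) (nat_lit 256) (.e (nat_lit 57373) (nat_lit 2) (.e (nat_lit 90174) (nat_lit 14) (.e (nat_lit 180245) (nat_lit 5) .nil)))) (.g (nat_lit 0) (.e (nat_lit 187775) (nat_lit 0) .nil) .nil)))) (.nd (nat_lit 9) 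
(.lf (nat_lit 507301) (.g (nat_lit 2099) (.e (nat_lit 164396) (nat_lit 256) (.e (nat_lit 57378) (nat_lit 3) (.e (nat_lit 98365) (nat_lit 26) (.e (nat_lit 426188) (nat_lit 9) .nil)))) (.g (nat_lit 0) (.e (nat_lit 187497) (nat_lit 0) .nil) .nil))) 
(.lf (nat_lit 507813) (.g (nat_lit 1112) (.e (nat_lit 164401) (nat_lit 256) (.e (nat_lit 57377) (nat_lit 3) (.e (nat_lit 98363) (nat_lit 26) (.e (nat_lit 426228) (nat_lit 9) .nil)))) (.g (nat_lit 0) (.e (nat_lit 188056) (nat_lit 0) .nil) .nil)))))) (.nd (nat_lit 7) (.nd (nat_lit 8) (.nd (nat_lit 9) 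
(.lf (nat_lit 506981) (.g (nat_lit 3293) (.e (nat_lit 164346) (nat_lit 240) (.e (nat_lit 2638) (nat_lit 165) (.e (nat_lit 180278) (nat_lit 32) (.e (nat_lit 1428) (nat_lit 108) (.e (nat_lit 336430) (nat_lit 29) (.e (nat_lit 442421) (nat_lit 21) .nil)))))) (.g (nat_lit 1) (.e (nat_lit 185842) (nat_lit 0) .nil) .nil))) 
(.lf (nat_lit 507493) (.g (nat_lit 1550) (.e (nat_lit 164398) (nat_lit 256) (.e (nat_lit 57409) (nat_lit 12) (.e (nat_lit 336443) (nat_lit 32) (.e (nat_lit 466978) (nat_lit 23) .nil)))) (.g (nat_lit 0) (.e (nat_lit 187697) (nat_lit 0) .nil) .nil)))) (.nd (nat_lit 9) 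
(.lf (nat_lit 507237) (.g (nat_lit 1127) (.e (nat_lit 164377) (nat_lit 253) (.e (nat_lit 237636) (nat_lit 27) (.e (nat_lit 335892) (nat_lit 0) (.e (nat_lit 6718) (nat_lit 361) (.e (nat_lit 172128) (nat_lit 15) .nil))))) (.g (nat_lit 0) (.e (nat_lit 187330) (nat_lit 0) .nil) .nil))) 
(.lf (nat_lit 507749) (.g (nat_lit 2342) (.e (nat_lit 164400) (nat_lit 256) (.e (nat_lit 57373) (nat_lit 2) (.e (nat_lit 90174) (nat_lit 14) (.e (nat_lit 180243) (nat_lit 5) (.e (nat_lit 532515) (nat_lit 3) .nil))))) (.g (nat_lit 0) (.e (nat_lit 187992) (nat_lit 0) .nil) .nil))))) (.nd (nat_lit 8) (.nd (nat_lit 9) 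
(.lf (nat_lit 507109) (.g (nat_lit 952) (.e (nat_lit 171776) (nat_lit 244) (.e (nat_lit 163933) (nat_lit 17) (.e (nat_lit 466947) (nat_lit 0) (.e (nat_lit 2172) (nat_lit 143) .nil)))) (.g (nat_lit 0) (.e (nat_lit 186564) (nat_lit 0) .nil) .nil))) 
(.lf (nat_lit 507621) (.g (nat_lit 3139) (.e (nat_lit 164399) (nat_lit 256) (.e (nat_lit 57378) (nat_lit 3) (.e (nat_lit 98367) (nat_lit 27) (.e (nat_lit 434231) (nat_lit 23) (.e (nat_lit 532483) (nat_lit 0) .nil))))) (.g (nat_lit 0) (.e (nat_lit 187854) (nat_lit 0) .nil) .nil)))) (.nd (nat_lit 9) 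
(.lf (nat_lit 507365) (.g (nat_lit 2101) (.e (nat_lit 164397) (nat_lit 256) (.e (nat_lit 57375) (nat_lit 2) (.e (nat_lit 90174) (nat_lit 14) (.e (nat_lit 180243) (nat_lit 5) (.e (nat_lit 532510) (nat_lit 2) .nil))))) (.g (nat_lit 0) (.e (nat_lit 187561) (nat_lit 0) .nil) .nil))) 
(.lf (nat_lit 507877) (.g (nat_lit 2393) (.e (nat_lit 164402) (nat_lit 256) (.e (nat_lit 57373) (nat_lit 2) (.e (nat_lit 90172) (nat_lit 14) (.e (nat_lit 180244) (nat_lit 5) (.e (nat_lit 532514) (nat_lit 3) .nil))))) (.g (nat_lit 0) (.e (nat_lit 188125) (nat_lit 0) .nil) .nil)))))))) (.nd (nat_lit 5) (.nd (nat_lit 6) (.nd (nat_lit 7) (.nd (nat_lit 8) (.nd (nat_lit 9) 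
(.lf (nat_lit 506901) (.g (nat_lit 1295) (.e (nat_lit 164319) (nat_lit 228) (.e (nat_lit 57424) (nat_lit 14) (.e (nat_lit 352318) (nat_lit 24) (.e (nat_lit 130816) (nat_lit 255) .nil)))) (.g (nat_lit 0) (.e (nat_lit 185280) (nat_lit 0) .nil) .nil))) 
(.lf (nat_lit 507413) (.g (nat_lit 2059) (.e (nat_lit 164398) (nat_lit 256) (.e (nat_lit 57373) (nat_lit 2) (.e (nat_lit 90170) (nat_lit 13) (.e (nat_lit 172122) (nat_lit 13) .nil)))) (.g (nat_lit 0) (.e (nat_lit 187611) (nat_lit 0) .nil) .nil)))) (.nd (nat_lit 9) 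
(.lf (nat_lit 507157) (.g (nat_lit 779) (.e (nat_lit 164358) (nat_lit 246) (.e (nat_lit 112) (nat_lit 3) (.e (nat_lit 98381) (nat_lit 31) (.e (nat_lit 466952) (nat_lit 11) (.e (nat_lit 336298) (nat_lit 15) .nil))))) (.g (nat_lit 0) (.e (nat_lit 186680) (nat_lit 0) .nil) .nil))) 
(.lf (nat_lit 507669) (.g (nat_lit 2122) (.e (nat_lit 164399) (nat_lit 256) (.e (nat_lit 57388) (nat_lit 5) (.e (nat_lit 114714) (nat_lit 22) (.e (nat_lit 90158) (nat_lit 11) (.e (nat_lit 24650) (nat_lit 12) .nil))))) (.g (nat_lit 0) (.e (nat_lit 187902) (nat_lit 0) .nil) .nil))))) (.nd (nat_lit 8) (.nd (nat_lit 9) 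
(.lf (nat_lit 507029) (.g (nat_lit 3980) (.e (nat_lit 164347) (nat_lit 240) (.e (nat_lit 2638) (nat_lit 165) (.e (nat_lit 180278) (nat_lit 32) (.e (nat_lit 1427) (nat_lit 108) (.e (nat_lit 336430) (nat_lit 29) (.e (nat_lit 442419) (nat_lit 21) .nil)))))) (.g (nat_lit 1) (.e (nat_lit 186219) (nat_lit 0) .nil) .nil))) 
(.lf (nat_lit 507541) (.g (nat_lit 2999) (.e (nat_lit 164399) (nat_lit 256) (.e (nat_lit 57372) (nat_lit 2) (.e (nat_lit 90174) (nat_lit 14) (.e (nat_lit 180250) (nat_lit 10) (.e (nat_lit 573489) (nat_lit 14) (.e (nat_lit 73755) (nat_lit 8) (.e (nat_lit 557067) (nat_lit 9) (.e (nat_lit 2598) (nat_lit 163) .nil)))))))) (.g (nat_lit 1) (.e (nat_lit 187758) (nat_lit 0) .nil) .nil)))) 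
(.nd (nat_lit 9) 
(.lf (nat_lit 507285) (.g (nat_lit 2718) (.e (nat_lit 164396) (nat_lit 256) (.e (nat_lit 57374) (nat_lit 2) (.e (nat_lit 90170) (nat_lit 13) (.e (nat_lit 172121) (nat_lit 13) (.e (nat_lit 483337) (nat_lit 9) .nil))))) (.g (nat_lit 0) (.e (nat_lit 187480) (nat_lit 0) .nil) .nil))) 
(.lf (nat_lit 507797) (.g (nat_lit 1205) (.e (nat_lit 164401) (nat_lit 256) (.e (nat_lit 57373) (nat_lit 2) (.e (nat_lit 90174) (nat_lit 14) (.e (nat_lit 180243) (nat_lit 5) .nil)))) (.g (nat_lit 0) (.e (nat_lit 188040) (nat_lit 0) .nil) .nil)))))) (.nd (nat_lit 7) (.nd (nat_lit 8) (.nd (nat_lit 9) 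
(.lf (nat_lit 506965) (.g (nat_lit 1689) (.e (nat_lit 164346) (nat_lit 240) (.e (nat_lit 2619) (nat_lit 164) (.e (nat_lit 172118) (nat_lit 12) (.e (nat_lit 475198) (nat_lit 40) (.e (nat_lit 704598) (nat_lit 6) .nil))))) (.g (nat_lit 0) (.e (nat_lit 185756) (nat_lit 0) .nil) .nil))) 
(.lf (nat_lit 507477) (.g (nat_lit 819) (.e (nat_lit 164398) (nat_lit 256) (.e (nat_lit 57379) (nat_lit 3) (.e (nat_lit 98371) (nat_lit 28) .nil))) (.g (nat_lit 0) (.e (nat_lit 187681) (nat_lit 0) .nil) .nil)))) (.nd (nat_lit 9) 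
(.lf (nat_lit 507221) (.g (nat_lit 1563) (.e (nat_lit 164365) (nat_lit 246) (.e (nat_lit 2664) (nat_lit 167) (.e (nat_lit 196666) (nat_lit 13) (.e (nat_lit 65619) (nat_lit 10) .nil)))) (.g (nat_lit 0) (.e (nat_lit 186887) (nat_lit 0) .nil) .nil))) 
(.lf (nat_lit 507733) (.g (nat_lit 1709) (.e (nat_lit 164400) (nat_lit 256) (.e (nat_lit 57372) (nat_lit 2) (.e (nat_lit 90174) (nat_lit 14) (.e (nat_lit 180243) (nat_lit 5) .nil)))) (.g (nat_lit 0) (.e (nat_lit 187976) (nat_lit 0) .nil) .nil))))) (.nd (nat_lit 8) (.nd (nat_lit 9) 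
(.lf (nat_lit 507093) (.g (nat_lit 2119) (.e (nat_lit 164348) (nat_lit 240) (.e (nat_lit 2629) (nat_lit 164) (.e (nat_lit 172124) (nat_lit 14) (.e (nat_lit 491547) (nat_lit 9) (.e (nat_lit 336443) (nat_lit 32) .nil))))) (.g (nat_lit 0) (.e (nat_lit 186476) (nat_lit 0) .nil) .nil))) 
(.lf (nat_lit 507605) (.g (nat_lit 2990) (.e (nat_lit 164399) (nat_lit 256) (.e (nat_lit 57378) (nat_lit 3) (.e (nat_lit 98358) (nat_lit 26) (.e (nat_lit 426323) (nat_lit 13) (.e (nat_lit 483337) (nat_lit 9) (.e (nat_lit 426099) (nat_lit 1) .nil)))))) (.g (nat_lit 1) (.e (nat_lit 187838) (nat_lit 0) .nil) .nil)))) (.nd (nat_lit 9) 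
(.lf (nat_lit 507349) (.g (nat_lit 1196) (.e (nat_lit 164397) (nat_lit 256) (.e (nat_lit 57372) (nat_lit 2) (.e (nat_lit 90176) (nat_lit 15) (.e (nat_lit 196352) (nat_lit 18) .nil)))) (.g (nat_lit 0) (.e (nat_lit 187545) (nat_lit 0) .nil) .nil))) 
(.lf (nat_lit 507861) (.g (nat_lit 2311) (.e (nat_lit 164402) (nat_lit 256) (.e (nat_lit 57371) (nat_lit 2) (.e (nat_lit 90174) (nat_lit 14) (.e (nat_lit 180243) (nat_lit 5) (.e (nat_lit 532513) (nat_lit 3) (.e (nat_lit 114714) (nat_lit 22) (.e (nat_lit 90137) (nat_lit 9) (.e (nat_lit 2609) (nat_lit 163) .nil)))))))) (.g (nat_lit 1) (.e (nat_lit 188109) (nat_lit 0) .nil) .nil))))))) 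
(.nd (nat_lit 6) (.nd (nat_lit 7) (.nd (nat_lit 8) (.nd (nat_lit 9) 
(.lf (nat_lit 506933) (.g (nat_lit 2046) (.e (nat_lit 164345) (nat_lit 240) (.e (nat_lit 2629) (nat_lit 164) (.e (nat_lit 172120) (nat_lit 12) (.e (nat_lit 475198) (nat_lit 40) (.e (nat_lit 704598) (nat_lit 6) (.e (nat_lit 188446) (nat_lit 21) .nil)))))) (.g (nat_lit 1) (.e (nat_lit 185486) (nat_lit 0) .nil) .nil))) 
(.lf (nat_lit 507445) (.g (nat_lit 873) (.e (nat_lit 164398) (nat_lit 256) (.e (nat_lit 57378) (nat_lit 3) (.e (nat_lit 98354) (nat_lit 26) .nil))) (.g (nat_lit 0) (.e (nat_lit 187647) (nat_lit 0) .nil) .nil)))) (.nd (nat_lit 9) 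
(.lf (nat_lit 507189) (.g (nat_lit 2068) (.e (nat_lit 164359) (nat_lit 246) (.e (nat_lit 2679) (nat_lit 168) (.e (nat_lit 204868) (nat_lit 29) (.e (nat_lit 360466) (nat_lit 3) (.e (nat_lit 516096) (nat_lit 0) (.e (nat_lit 7099) (nat_lit 380) .nil)))))) (.g (nat_lit 1) (.e (nat_lit 186720) (nat_lit 0) .nil) .nil))) 
(.lf (nat_lit 507701) (.g (nat_lit 555) (.e (nat_lit 164399) (nat_lit 256) (.e (nat_lit 57409) (nat_lit 12) (.e (nat_lit 336444) (nat_lit 32) .nil))) (.g (nat_lit 0) (.e (nat_lit 187940) (nat_lit 0) .nil) .nil))))) (.nd (nat_lit 8) (.nd (nat_lit 9) 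
(.lf (nat_lit 507061) (.g (nat_lit 3590) (.e (nat_lit 164348) (nat_lit 240) (.e (nat_lit 2610) (nat_lit 163) (.e (nat_lit 163977) (nat_lit 30) (.e (nat_lit 573491) (nat_lit 15) (.e (nat_lit 81954) (nat_lit 23) (.e (nat_lit 98359) (nat_lit 26) (.e (nat_lit 426097) (nat_lit 1) .nil))))))) (.g (nat_lit 1) (.e (nat_lit 186387) (nat_lit 0) .nil) .nil))) 
(.lf (nat_lit 507573) (.g (nat_lit 1036) (.e (nat_lit 164399) (nat_lit 256) (.e (nat_lit 57375) (nat_lit 2) (.e (nat_lit 90178) (nat_lit 15) (.e (nat_lit 196352) (nat_lit 11) .nil)))) (.g (nat_lit 0) (.e (nat_lit 187792) (nat_lit 0) .nil) .nil)))) (.nd (nat_lit 9) 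
(.lf (nat_lit 507317) (.g (nat_lit 2208) (.e (nat_lit 164396) (nat_lit 256) (.e (nat_lit 57406) (nat_lit 12) (.e (nat_lit 336443) (nat_lit 32) (.e (nat_lit 466977) (nat_lit 22) (.e (nat_lit 196654) (nat_lit 11) .nil))))) (.g (nat_lit 0) (.e (nat_lit 187513) (nat_lit 0) .nil) .nil))) 
(.lf (nat_lit 507829) (.g (nat_lit 2442) (.e (nat_lit 164401) (nat_lit 256) (.e (nat_lit 57378) (nat_lit 3) (.e (nat_lit 98365) (nat_lit 26) (.e (nat_lit 426190) (nat_lit 9) (.e (nat_lit 426566) (nat_lit 34) .nil))))) (.g (nat_lit 0) (.e (nat_lit 188075) (nat_lit 0) .nil) .nil)))))) (.nd (nat_lit 7) (.nd (nat_lit 8) (.nd (nat_lit 9) 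
(.lf (nat_lit 506997) (.g (nat_lit 2358) (.e (nat_lit 164347) (nat_lit 240) (.e (nat_lit 2610) (nat_lit 163) (.e (nat_lit 163979) (nat_lit 30) (.e (nat_lit 573491) (nat_lit 15) (.e (nat_lit 81954) (nat_lit 23) .nil))))) (.g (nat_lit 0) (.e (nat_lit 185977) (nat_lit 0) .nil) .nil))) 
(.lf (nat_lit 507509) (.g (nat_lit 2358) (.e (nat_lit 164398) (nat_lit 256) (.e (nat_lit 57447) (nat_lit 19) (.e (nat_lit 393301) (nat_lit 27) (.e (nat_lit 491530) (nat_lit 0) .nil)))) (.g (nat_lit 0) (.e (nat_lit 187714) (nat_lit 0) .nil) .nil)))) (.nd (nat_lit 9) 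
(.lf (nat_lit 507253) (.g (nat_lit 1915) (.e (nat_lit 164396) (nat_lit 256) (.e (nat_lit 57371) (nat_lit 2) (.e (nat_lit 90174) (nat_lit 14) (.e (nat_lit 180243) (nat_lit 5) (.e (nat_lit 532513) (nat_lit 3) .nil))))) (.g (nat_lit 0) (.e (nat_lit 187448) (nat_lit 0) .nil) .nil))) 
(.lf (nat_lit 507765) (.g (nat_lit 589) (.e (nat_lit 164400) (nat_lit 256) (.e (nat_lit 57377) (nat_lit 3) (.e (nat_lit 98365) (nat_lit 26) .nil))) (.g (nat_lit 0) (.e (nat_lit 188008) (nat_lit 0) .nil) .nil))))) (.nd (nat_lit 8) (.nd (nat_lit 9) 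
(.lf (nat_lit 507125) (.g (nat_lit 1275) (.e (nat_lit 164353) (nat_lit 246) (.e (nat_lit 351) (nat_lit 28) (.e (nat_lit 393270) (nat_lit 23) (.e (nat_lit 426428) (nat_lit 17) (.e (nat_lit 90203) (nat_lit 21) .nil))))) (.g (nat_lit 0) (.e (nat_lit 186642) (nat_lit 0) .nil) .nil))) 
(.lf (nat_lit 507637) (.g (nat_lit 997) (.e (nat_lit 164399) (nat_lit 256) (.e (nat_lit 57378) (nat_lit 3) (.e (nat_lit 98381) (nat_lit 31) (.e (nat_lit 466952) (nat_lit 11) .nil)))) (.g (nat_lit 0) (.e (nat_lit 187870) (nat_lit 0) .nil) .nil)))) (.nd (nat_lit 9) 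
(.lf (nat_lit 507381) (.g (nat_lit 2013) (.e (nat_lit 164397) (nat_lit 256) (.e (nat_lit 57379) (nat_lit 3) (.e (nat_lit 98377) (nat_lit 30) (.e (nat_lit 458789) (nat_lit 23) (.e (nat_lit 532515) (nat_lit 3) .nil))))) (.g (nat_lit 0) (.e (nat_lit 187577) (nat_lit 0) .nil) .nil))) 
(.lf (nat_lit 507893) (.g (nat_lit 725) (.e (nat_lit 164402) (nat_lit 256) (.e (nat_lit 57377) (nat_lit 3) (.e (nat_lit 98363) (nat_lit 26) .nil))) (.g (nat_lit 0) (.e (nat_lit 188141) (nat_lit 0) .nil) .nil))))))))) (.nd (nat_lit 4) (.nd (nat_lit 5) (.nd (nat_lit 6) (.nd (nat_lit 7) (.nd (nat_lit 8) (.nd (nat_lit 9) 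
(.lf (nat_lit 506893) (.g (nat_lit 930) (.e (nat_lit 164319) (nat_lit 228) (.e (nat_lit 57412) (nat_lit 12) (.e (nat_lit 336176) (nat_lit 10) (.e (nat_lit 344161) (nat_lit 37) .nil)))) (.g (nat_lit 0) (.e (nat_lit 185261) (nat_lit 0) .nil) .nil))) 
(.lf (nat_lit 507405) (.g (nat_lit 2981) (.e (nat_lit 164398) (nat_lit 256) (.e (nat_lit 57372) (nat_lit 2) (.e (nat_lit 90174) (nat_lit 14) (.e (nat_lit 180250) (nat_lit 10) (.e (nat_lit 573489) (nat_lit 14) (.e (nat_lit 73755) (nat_lit 8) (.e (nat_lit 557067) (nat_lit 9) (.e (nat_lit 2598) (nat_lit 163) .nil)))))))) (.g (nat_lit 1) (.e (nat_lit 187602) (nat_lit 0) .nil) .nil)))) 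
(.nd (nat_lit 9) 
(.lf (nat_lit 507149) (.g (nat_lit 722) (.e (nat_lit 164356) (nat_lit 246) (.e (nat_lit 351) (nat_lit 28) (.e (nat_lit 393292) (nat_lit 26) (.e (nat_lit 475169) (nat_lit 22) .nil)))) (.g (nat_lit 0) (.e (nat_lit 186671) (nat_lit 0) .nil) .nil))) 
(.lf (nat_lit 507661) (.g (nat_lit 1983) (.e (nat_lit 164399) (nat_lit 256) (.e (nat_lit 57379) (nat_lit 3) (.e (nat_lit 98367) (nat_lit 27) (.e (nat_lit 434231) (nat_lit 23) (.e (nat_lit 532514) (nat_lit 3) .nil))))) (.g (nat_lit 0) (.e (nat_lit 187894) (nat_lit 0) .nil) .nil))))) (.nd (nat_lit 8) (.nd (nat_lit 9) 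
(.lf (nat_lit 507021) (.g (nat_lit 1027) (.e (nat_lit 164347) (nat_lit 240) (.e (nat_lit 2629) (nat_lit 164) (.e (nat_lit 172124) (nat_lit 14) (.e (nat_lit 491549) (nat_lit 9) .nil)))) (.g (nat_lit 0) (.e (nat_lit 186170) (nat_lit 0) .nil) .nil))) 
(.lf (nat_lit 507533) (.g (nat_lit 2171) (.e (nat_lit 164399) (nat_lit 256) (.e (nat_lit 57372) (nat_lit 2) (.e (nat_lit 90170) (nat_lit 13) (.e (nat_lit 172123) (nat_lit 13) .nil)))) (.g (nat_lit 0) (.e (nat_lit 187750) (nat_lit 0) .nil) .nil)))) (.nd (nat_lit 9) 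
(.lf (nat_lit 507277) (.g (nat_lit 1535) (.e (nat_lit 164396) (nat_lit 256) (.e (nat_lit 57372) (nat_lit 2) (.e (nat_lit 90176) (nat_lit 15) (.e (nat_lit 188421) (nat_lit 11) (.e (nat_lit 336387) (nat_lit 27) .nil))))) (.g (nat_lit 0) (.e (nat_lit 187472) (nat_lit 0) .nil) .nil))) 
(.lf (nat_lit 507789) (.g (nat_lit 2016) (.e (nat_lit 164401) (nat_lit 256) (.e (nat_lit 57371) (nat_lit 2) (.e (nat_lit 90167) (nat_lit 13) (.e (nat_lit 172067) (nat_lit 3) (.e (nat_lit 204837) (nat_lit 20) .nil))))) (.g (nat_lit 0) (.e (nat_lit 188032) (nat_lit 0) .nil) .nil)))))) (.nd (nat_lit 7) (.nd (nat_lit 8) (.nd (nat_lit 9) 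
(.lf (nat_lit 506957) (.g (nat_lit 2720) (.e (nat_lit 164346) (nat_lit 240) (.e (nat_lit 2610) (nat_lit 163) (.e (nat_lit 163978) (nat_lit 30) (.e (nat_lit 573479) (nat_lit 13) (.e (nat_lit 65619) (nat_lit 10) .nil))))) (.g (nat_lit 0) (.e (nat_lit 185733) (nat_lit 0) .nil) .nil))) 
(.lf (nat_lit 507469) (.g (nat_lit 4349) (.e (nat_lit 164398) (nat_lit 256) (.e (nat_lit 57379) (nat_lit 3) (.e (nat_lit 98365) (nat_lit 26) (.e (nat_lit 426188) (nat_lit 9) (.e (nat_lit 426566) (nat_lit 34) (.e (nat_lit 393251) (nat_lit 18) .nil)))))) (.g (nat_lit 1) (.e (nat_lit 187673) (nat_lit 0) .nil) .nil)))) (.nd (nat_lit 9) 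
(.lf (nat_lit 507213) (.g (nat_lit 923) (.e (nat_lit 164362) (nat_lit 246) (.e (nat_lit 2661) (nat_lit 167) (.e (nat_lit 196674) (nat_lit 15) (.e (nat_lit 81952) (nat_lit 22) .nil)))) (.g (nat_lit 0) (.e (nat_lit 186827) (nat_lit 0) .nil) .nil))) 
(.lf (nat_lit 507725) (.g (nat_lit 1100) (.e (nat_lit 164399) (nat_lit 256) (.e (nat_lit 57447) (nat_lit 19) (.e (nat_lit 393299) (nat_lit 27) .nil))) (.g (nat_lit 0) (.e (nat_lit 187967) (nat_lit 0) .nil) .nil))))) (.nd (nat_lit 8) (.nd (nat_lit 9) 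
(.lf (nat_lit 507085) (.g (nat_lit 2052) (.e (nat_lit 164348) (nat_lit 240) (.e (nat_lit 2618) (nat_lit 164) (.e (nat_lit 172126) (nat_lit 14) (.e (nat_lit 491549) (nat_lit 9) (.e (nat_lit 336443) (nat_lit 32) .nil))))) (.g (nat_lit 0) (.e (nat_lit 186422) (nat_lit 0) .nil) .nil))) 
(.lf (nat_lit 507597) (.g (nat_lit 1172) (.e (nat_lit 164399) (nat_lit 256) (.e (nat_lit 57378) (nat_lit 3) (.e (nat_lit 98354) (nat_lit 26) (.e (nat_lit 426336) (nat_lit 13) .nil)))) (.g (nat_lit 0) (.e (nat_lit 187830) (nat_lit 0) .nil) .nil)))) (.nd (nat_lit 9) 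
(.lf (nat_lit 507341) (.g (nat_lit 1477) (.e (nat_lit 164397) (nat_lit 256) (.e (nat_lit 57371) (nat_lit 2) (.e (nat_lit 90176) (nat_lit 15) (.e (nat_lit 188421) (nat_lit 11) (.e (nat_lit 336387) (nat_lit 27) .nil))))) (.g (nat_lit 0) (.e (nat_lit 187537) (nat_lit 0) .nil) .nil))) 
(.lf (nat_lit 507853) (.g (nat_lit 1406) (.e (nat_lit 164401) (nat_lit 256) (.e (nat_lit 57424) (nat_lit 14) (.e (nat_lit 352321) (nat_lit 25) (.e (nat_lit 139292) (nat_lit 11) .nil)))) (.g (nat_lit 0) (.e (nat_lit 188099) (nat_lit 0) .nil) .nil))))))) (.nd (nat_lit 6) (.nd (nat_lit 7) (.nd (nat_lit 8) (.nd (nat_lit 9) 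
(.lf (nat_lit 506925) (.g (nat_lit 1757) (.e (nat_lit 164345) (nat_lit 240) (.e (nat_lit 2619) (nat_lit 164) (.e (nat_lit 172119) (nat_lit 12) (.e (nat_lit 475198) (nat_lit 40) (.e (nat_lit 704598) (nat_lit 6) .nil))))) (.g (nat_lit 0) (.e (nat_lit 185393) (nat_lit 0) .nil) .nil))) 
(.lf (nat_lit 507437) (.g (nat_lit 2336) (.e (nat_lit 164398) (nat_lit 256) (.e (nat_lit 57376) (nat_lit 3) (.e (nat_lit 98367) (nat_lit 27) (.e (nat_lit 434231) (nat_lit 23) (.e (nat_lit 532513) (nat_lit 3) .nil))))) (.g (nat_lit 0) (.e (nat_lit 187636) (nat_lit 0) .nil) .nil)))) (.nd (nat_lit 9) 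
(.lf (nat_lit 507181) (.g (nat_lit 2984) (.e (nat_lit 164359) (nat_lit 246) (.e (nat_lit 2661) (nat_lit 167) (.e (nat_lit 196666) (nat_lit 13) (.e (nat_lit 65610) (nat_lit 10) (.e (nat_lit 344129) (nat_lit 26) (.e (nat_lit 557084) (nat_lit 10) (.e (nat_lit 16128) (nat_lit 228) .nil))))))) (.g (nat_lit 1) (.e (nat_lit 186712) (nat_lit 0) .nil) .nil))) 
(.lf (nat_lit 507693) (.g (nat_lit 668) (.e (nat_lit 164399) (nat_lit 256) (.e (nat_lit 57407) (nat_lit 12) (.e (nat_lit 336444) (nat_lit 32) .nil))) (.g (nat_lit 0) (.e (nat_lit 187932) (nat_lit 0) .nil) .nil))))) (.nd (nat_lit 8) (.nd (nat_lit 9) 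
(.lf (nat_lit 507053) (.g (nat_lit 4654) (.e (nat_lit 164348) (nat_lit 240) (.e (nat_lit 2610) (nat_lit 163) (.e (nat_lit 163977) (nat_lit 30) (.e (nat_lit 573482) (nat_lit 13) (.e (nat_lit 65604) (nat_lit 9) (.e (nat_lit 336013) (nat_lit 2) (.e (nat_lit 90170) (nat_lit 13) (.e (nat_lit 172061) (nat_lit 1) .nil)))))))) (.g (nat_lit 1) (.e (nat_lit 186379) (nat_lit 0) .nil) .nil))) 
(.lf (nat_lit 507565) (.g (nat_lit 1698) (.e (nat_lit 164399) (nat_lit 256) (.e (nat_lit 57374) (nat_lit 2) (.e (nat_lit 90170) (nat_lit 13) (.e (nat_lit 172123) (nat_lit 13) (.e (nat_lit 483337) (nat_lit 9) .nil))))) (.g (nat_lit 0) (.e (nat_lit 187784) (nat_lit 0) .nil) .nil)))) (.nd (nat_lit 9) 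
(.lf (nat_lit 507309) (.g (nat_lit 1628) (.e (nat_lit 164396) (nat_lit 256) (.e (nat_lit 57379) (nat_lit 3) (.e (nat_lit 98365) (nat_lit 26) (.e (nat_lit 426190) (nat_lit 9) .nil)))) (.g (nat_lit 0) (.e (nat_lit 187505) (nat_lit 0) .nil) .nil))) 
(.lf (nat_lit 507821) (.g (nat_lit 941) (.e (nat_lit 164401) (nat_lit 256) (.e (nat_lit 57378) (nat_lit 3) (.e (nat_lit 98354) (nat_lit 26) .nil))) (.g (nat_lit 0) (.e (nat_lit 188067) (nat_lit 0) .nil) .nil)))))) (.nd (nat_lit 7) (.nd (nat_lit 8) (.nd (nat_lit 9) 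
(.lf (nat_lit 506989) (.g (nat_lit 1254) (.e (nat_lit 164346) (nat_lit 240) (.e (nat_lit 2640) (nat_lit 165) (.e (nat_lit 180277) (nat_lit 32) (.e (nat_lit 1660) (nat_lit 115) (.e (nat_lit 393281) (nat_lit 23) .nil))))) (.g (nat_lit 0) (.e (nat_lit 185862) (nat_lit 0) .nil) .nil))) 
(.lf (nat_lit 507501) (.g (nat_lit 1393) (.e (nat_lit 164398) (nat_lit 256) (.e (nat_lit 57436) (nat_lit 17) (.e (nat_lit 376865) (nat_lit 22) (.e (nat_lit 90128) (nat_lit 9) .nil)))) (.g (nat_lit 0) (.e (nat_lit 187705) (nat_lit 0) .nil) .nil)))) (.nd (nat_lit 9) 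
(.lf (nat_lit 507245) (.g (nat_lit 2508) (.e (nat_lit 164406) (nat_lit 258) (.e (nat_lit 163873) (nat_lit 3) (.e (nat_lit 204884) (nat_lit 33) (.e (nat_lit 401459) (nat_lit 13) (.e (nat_lit 483337) (nat_lit 9) .nil))))) (.g (nat_lit 0) (.e (nat_lit 187436) (nat_lit 0) .nil) .nil))) 
(.lf (nat_lit 507757) (.g (nat_lit 2107) (.e (nat_lit 164400) (nat_lit 256) (.e (nat_lit 57375) (nat_lit 2) (.e (nat_lit 90174) (nat_lit 14) (.e (nat_lit 180243) (nat_lit 5) (.e (nat_lit 532508) (nat_lit 2) .nil))))) (.g (nat_lit 0) (.e (nat_lit 188000) (nat_lit 0) .nil) .nil))))) (.nd (nat_lit 8) (.nd (nat_lit 9) 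
(.lf (nat_lit 507117) (.g (nat_lit 2165) (.e (nat_lit 164351) (nat_lit 246) (.e (nat_lit 3071) (nat_lit 190) (.e (nat_lit 475184) (nat_lit 29) (.e (nat_lit 557109) (nat_lit 15) (.e (nat_lit 188449) (nat_lit 22) (.e (nat_lit 204544) (nat_lit 21) .nil)))))) (.g (nat_lit 1) (.e (nat_lit 186626) (nat_lit 0) .nil) .nil))) 
(.lf (nat_lit 507629) (.g (nat_lit 4223) (.e (nat_lit 164399) (nat_lit 256) (.e (nat_lit 57378) (nat_lit 3) (.e (nat_lit 98368) (nat_lit 27) (.e (nat_lit 434247) (nat_lit 28) (.e (nat_lit 573489) (nat_lit 14) (.e (nat_lit 73755) (nat_lit 8) (.e (nat_lit 557067) (nat_lit 9) (.e (nat_lit 2598) (nat_lit 163) .nil)))))))) (.g (nat_lit 1) (.e (nat_lit 187862) (nat_lit 0) .nil) .nil)))) 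
(.nd (nat_lit 9) 
(.lf (nat_lit 507373) (.g (nat_lit 1397) (.e (nat_lit 164397) (nat_lit 256) (.e (nat_lit 57379) (nat_lit 3) (.e (nat_lit 98365) (nat_lit 26) (.e (nat_lit 426188) (nat_lit 9) .nil)))) (.g (nat_lit 0) (.e (nat_lit 187569) (nat_lit 0) .nil) .nil))) 
(.lf (nat_lit 507885) (.g (nat_lit 2758) (.e (nat_lit 164402) (nat_lit 256) (.e (nat_lit 57373) (nat_lit 2) (.e (nat_lit 90174) (nat_lit 14) (.e (nat_lit 180250) (nat_lit 10) (.e (nat_lit 573489) (nat_lit 14) (.e (nat_lit 73755) (nat_lit 8) (.e (nat_lit 557074) (nat_lit 9) (.e (nat_lit 2607) (nat_lit 163) .nil)))))))) (.g (nat_lit 1) (.e (nat_lit 188133) (nat_lit 0) .nil) .nil)))))))) 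
(.nd (nat_lit 5) (.nd (nat_lit 6) (.nd (nat_lit 7) (.nd (nat_lit 8) (.nd (nat_lit 9) 
(.lf (nat_lit 506909) (.g (nat_lit 2147) (.e (nat_lit 171776) (nat_lit 234) (.e (nat_lit 16470) (nat_lit 14) (.e (nat_lit 491571) (nat_lit 13) (.e (nat_lit 393238) (nat_lit 17) (.e (nat_lit 7099) (nat_lit 380) .nil))))) (.g (nat_lit 0) (.e (nat_lit 185314) (nat_lit 0) .nil) .nil))) 
(.lf (nat_lit 507421) (.g (nat_lit 1653) (.e (nat_lit 164398) (nat_lit 256) (.e (nat_lit 57373) (nat_lit 2) (.e (nat_lit 90174) (nat_lit 14) (.e (nat_lit 180245) (nat_lit 5) .nil)))) (.g (nat_lit 0) (.e (nat_lit 187619) (nat_lit 0) .nil) .nil)))) (.nd (nat_lit 9) 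
(.lf (nat_lit 507165) (.g (nat_lit 1165) (.e (nat_lit 164358) (nat_lit 246) (.e (nat_lit 351) (nat_lit 28) (.e (nat_lit 393267) (nat_lit 23) (.e (nat_lit 426432) (nat_lit 17) (.e (nat_lit 90203) (nat_lit 21) .nil))))) (.g (nat_lit 0) (.e (nat_lit 186693) (nat_lit 0) .nil) .nil))) 
(.lf (nat_lit 507677) (.g (nat_lit 3743) (.e (nat_lit 164399) (nat_lit 256) (.e (nat_lit 57390) (nat_lit 5) (.e (nat_lit 114716) (nat_lit 22) (.e (nat_lit 90158) (nat_lit 11) (.e (nat_lit 24648) (nat_lit 12) (.e (nat_lit 385066) (nat_lit 26) (.e (nat_lit 540416) (nat_lit 18) .nil))))))) (.g (nat_lit 1) (.e (nat_lit 187911) (nat_lit 0) .nil) .nil))))) (.nd (nat_lit 8) (.nd (nat_lit 9) 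
(.lf (nat_lit 507037) (.g (nat_lit 2195) (.e (nat_lit 164347) (nat_lit 240) (.e (nat_lit 2640) (nat_lit 165) (.e (nat_lit 180277) (nat_lit 32) (.e (nat_lit 1425) (nat_lit 108) (.e (nat_lit 336430) (nat_lit 29) (.e (nat_lit 442421) (nat_lit 21) .nil)))))) (.g (nat_lit 1) (.e (nat_lit 186234) (nat_lit 0) .nil) .nil))) 
(.lf (nat_lit 507549) (.g (nat_lit 1884) (.e (nat_lit 164399) (nat_lit 256) (.e (nat_lit 57373) (nat_lit 2) (.e (nat_lit 90170) (nat_lit 13) (.e (nat_lit 172123) (nat_lit 13) (.e (nat_lit 483336) (nat_lit 9) .nil))))) (.g (nat_lit 0) (.e (nat_lit 187767) (nat_lit 0) .nil) .nil)))) (.nd (nat_lit 9) 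
(.lf (nat_lit 507293) (.g (nat_lit 1418) (.e (nat_lit 164396) (nat_lit 256) (.e (nat_lit 57375) (nat_lit 2) (.e (nat_lit 90178) (nat_lit 15) (.e (nat_lit 196352) (nat_lit 18) .nil)))) (.g (nat_lit 0) (.e (nat_lit 187488) (nat_lit 0) .nil) .nil))) 
(.lf (nat_lit 507805) (.g (nat_lit 2152) (.e (nat_lit 164401) (nat_lit 256) (.e (nat_lit 57373) (nat_lit 2) (.e (nat_lit 90174) (nat_lit 14) (.e (nat_lit 180243) (nat_lit 5) (.e (nat_lit 532515) (nat_lit 3) (.e (nat_lit 114716) (nat_lit 22) (.e (nat_lit 90121) (nat_lit 9) (.e (nat_lit 2611) (nat_lit 163) .nil)))))))) (.g (nat_lit 1) (.e (nat_lit 188048) (nat_lit 0) .nil) .nil)))))) 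
(.nd (nat_lit 7) (.nd (nat_lit 8) (.nd (nat_lit 9) 
(.lf (nat_lit 506973) (.g (nat_lit 448) (.e (nat_lit 164346) (nat_lit 240) (.e (nat_lit 2638) (nat_lit 165) (.e (nat_lit 180275) (nat_lit 32) .nil))) (.g (nat_lit 0) (.e (nat_lit 185829) (nat_lit 0) .nil) .nil))) 
(.lf (nat_lit 507485) (.g (nat_lit 908) (.e (nat_lit 164398) (nat_lit 256) (.e (nat_lit 57406) (nat_lit 12) (.e (nat_lit 336441) (nat_lit 32) .nil))) (.g (nat_lit 0) (.e (nat_lit 187689) (nat_lit 0) .nil) .nil)))) (.nd (nat_lit 9) 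
(.lf (nat_lit 507229) (.g (nat_lit 1063) (.e (nat_lit 164368) (nat_lit 247) (.e (nat_lit 8318) (nat_lit 64) (.e (nat_lit 516176) (nat_lit 14) (.e (nat_lit 466952) (nat_lit 11) .nil)))) (.g (nat_lit 0) (.e (nat_lit 186991) (nat_lit 0) .nil) .nil))) 
(.lf (nat_lit 507741) (.g (nat_lit 1082) (.e (nat_lit 164400) (nat_lit 256) (.e (nat_lit 57372) (nat_lit 2) (.e (nat_lit 90176) (nat_lit 15) (.e (nat_lit 196352) (nat_lit 11) .nil)))) (.g (nat_lit 0) (.e (nat_lit 187984) (nat_lit 0) .nil) .nil))))) (.nd (nat_lit 8) (.nd (nat_lit 9) 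
(.lf (nat_lit 507101) (.g (nat_lit 2052) (.e (nat_lit 164348) (nat_lit 240) (.e (nat_lit 2640) (nat_lit 165) (.e (nat_lit 180278) (nat_lit 32) (.e (nat_lit 1659) (nat_lit 115) (.e (nat_lit 393277) (nat_lit 23) (.e (nat_lit 426103) (nat_lit 1) .nil)))))) (.g (nat_lit 1) (.e (nat_lit 186499) (nat_lit 0) .nil) .nil))) 
(.lf (nat_lit 507613) (.g (nat_lit 1957) (.e (nat_lit 164399) (nat_lit 256) (.e (nat_lit 57378) (nat_lit 3) (.e (nat_lit 98365) (nat_lit 26) (.e (nat_lit 426188) (nat_lit 9) (.e (nat_lit 426486) (nat_lit 27) .nil))))) (.g (nat_lit 0) (.e (nat_lit 187846) (nat_lit 0) .nil) .nil)))) (.nd (nat_lit 9) 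
(.lf (nat_lit 507357) (.g (nat_lit 2342) (.e (nat_lit 164397) (nat_lit 256) (.e (nat_lit 57373) (nat_lit 2) (.e (nat_lit 90174) (nat_lit 14) (.e (nat_lit 180243) (nat_lit 5) (.e (nat_lit 532515) (nat_lit 3) .nil))))) (.g (nat_lit 0) (.e (nat_lit 187553) (nat_lit 0) .nil) .nil))) 
(.lf (nat_lit 507869) (.g (nat_lit 520) (.e (nat_lit 164402) (nat_lit 256) (.e (nat_lit 57371) (nat_lit 2) (.e (nat_lit 90177) (nat_lit 15) .nil))) (.g (nat_lit 0) (.e (nat_lit 188117) (nat_lit 0) .nil) .nil))))))) (.nd (nat_lit 6) (.nd (nat_lit 7) (.nd (nat_lit 8) (.nd (nat_lit 9) 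
(.lf (nat_lit 506941) (.g (nat_lit 408) (.e (nat_lit 164345) (nat_lit 240) (.e (nat_lit 2638) (nat_lit 165) (.e (nat_lit 180278) (nat_lit 32) .nil))) (.g (nat_lit 0) (.e (nat_lit 185530) (nat_lit 0) .nil) .nil))) 
(.lf (nat_lit 507453) (.g (nat_lit 1812) (.e (nat_lit 164398) (nat_lit 256) (.e (nat_lit 57378) (nat_lit 3) (.e (nat_lit 98365) (nat_lit 26) (.e (nat_lit 426189) (nat_lit 9) .nil)))) (.g (nat_lit 0) (.e (nat_lit 187657) (nat_lit 0) .nil) .nil)))) (.nd (nat_lit 9) 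
(.lf (nat_lit 507197) (.g (nat_lit 1224) (.e (nat_lit 164359) (nat_lit 246) (.e (nat_lit 2959) (nat_lit 185) (.e (nat_lit 434268) (nat_lit 36) (.e (nat_lit 639020) (nat_lit 16) (.e (nat_lit 65540) (nat_lit 0) .nil))))) (.g (nat_lit 0) (.e (nat_lit 186747) (nat_lit 0) .nil) .nil))) 
(.lf (nat_lit 507709) (.g (nat_lit 2114) (.e (nat_lit 164399) (nat_lit 256) (.e (nat_lit 57411) (nat_lit 12) (.e (nat_lit 336443) (nat_lit 32) (.e (nat_lit 466980) (nat_lit 23) .nil)))) (.g (nat_lit 0) (.e (nat_lit 187948) (nat_lit 0) .nil) .nil))))) (.nd (nat_lit 8) (.nd (nat_lit 9) 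
(.lf (nat_lit 507069) (.g (nat_lit 2680) (.e (nat_lit 164348) (nat_lit 240) (.e (nat_lit 2610) (nat_lit 163) (.e (nat_lit 163979) (nat_lit 30) (.e (nat_lit 573481) (nat_lit 13) (.e (nat_lit 65604) (nat_lit 9) .nil))))) (.g (nat_lit 0) (.e (nat_lit 186395) (nat_lit 0) .nil) .nil))) 
(.lf (nat_lit 507581) (.g (nat_lit 1342) (.e (nat_lit 164399) (nat_lit 256) (.e (nat_lit 57377) (nat_lit 3) (.e (nat_lit 98365) (nat_lit 26) (.e (nat_lit 426187) (nat_lit 9) (.e (nat_lit 426491) (nat_lit 27) .nil))))) (.g (nat_lit 0) (.e (nat_lit 187800) (nat_lit 0) .nil) .nil)))) (.nd (nat_lit 9) 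
(.lf (nat_lit 507325) (.g (nat_lit 2079) (.e (nat_lit 164396) (nat_lit 256) (.e (nat_lit 57411) (nat_lit 12) (.e (nat_lit 336443) (nat_lit 32) (.e (nat_lit 466974) (nat_lit 22) (.e (nat_lit 196656) (nat_lit 11) .nil))))) (.g (nat_lit 0) (.e (nat_lit 187521) (nat_lit 0) .nil) .nil))) 
(.lf (nat_lit 507837) (.g (nat_lit 1203) (.e (nat_lit 164401) (nat_lit 256) (.e (nat_lit 57378) (nat_lit 3) (.e (nat_lit 98371) (nat_lit 28) .nil))) (.g (nat_lit 0) (.e (nat_lit 188083) (nat_lit 0) .nil) .nil)))))) (.nd (nat_lit 7) (.nd (nat_lit 8) (.nd (nat_lit 9) 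
(.lf (nat_lit 507005) (.g (nat_lit 4422) (.e (nat_lit 164347) (nat_lit 240) (.e (nat_lit 2611) (nat_lit 163) (.e (nat_lit 163979) (nat_lit 30) (.e (nat_lit 573482) (nat_lit 13) (.e (nat_lit 65604) (nat_lit 9) (.e (nat_lit 336013) (nat_lit 2) (.e (nat_lit 90170) (nat_lit 13) (.e (nat_lit 172059) (nat_lit 1) .nil)))))))) (.g (nat_lit 1) (.e (nat_lit 185993) (nat_lit 0) .nil) .nil))) 
(.lf (nat_lit 507517) (.g (nat_lit 1144) (.e (nat_lit 164399) (nat_lit 256) (.e (nat_lit 57370) (nat_lit 2) (.e (nat_lit 90176) (nat_lit 15) (.e (nat_lit 188421) (nat_lit 11) .nil)))) (.g (nat_lit 0) (.e (nat_lit 187725) (nat_lit 0) .nil) .nil)))) (.nd (nat_lit 9) 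
(.lf (nat_lit 507261) (.g (nat_lit 3373) (.e (nat_lit 164396) (nat_lit 256) (.e (nat_lit 57371) (nat_lit 2) (.e (nat_lit 90174) (nat_lit 14) (.e (nat_lit 180243) (nat_lit 5) (.e (nat_lit 532515) (nat_lit 3) (.e (nat_lit 114716) (nat_lit 22) (.e (nat_lit 90137) (nat_lit 9) (.e (nat_lit 2609) (nat_lit 163) .nil)))))))) (.g (nat_lit 1) (.e (nat_lit 187456) (nat_lit 0) .nil) .nil))) 
(.lf (nat_lit 507773) (.g (nat_lit 2078) (.e (nat_lit 164400) (nat_lit 256) (.e (nat_lit 57379) (nat_lit 3) (.e (nat_lit 98365) (nat_lit 26) (.e (nat_lit 426188) (nat_lit 9) (.e (nat_lit 426568) (nat_lit 34) .nil))))) (.g (nat_lit 0) (.e (nat_lit 188016) (nat_lit 0) .nil) .nil))))) (.nd (nat_lit 8) (.nd (nat_lit 9) 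
(.lf (nat_lit 507133) (.g (nat_lit 805) (.e (nat_lit 164353) (nat_lit 246) (.e (nat_lit 351) (nat_lit 28) (.e (nat_lit 393293) (nat_lit 26) (.e (nat_lit 475168) (nat_lit 22) .nil)))) (.g (nat_lit 0) (.e (nat_lit 186650) (nat_lit 0) .nil) .nil))) 
(.lf (nat_lit 507645) (.g (nat_lit 1077) (.e (nat_lit 164399) (nat_lit 256) (.e (nat_lit 57379) (nat_lit 3) (.e (nat_lit 98363) (nat_lit 26) (.e (nat_lit 426321) (nat_lit 13) (.e (nat_lit 483339) (nat_lit 9) (.e (nat_lit 433920) (nat_lit 1) .nil)))))) (.g (nat_lit 1) (.e (nat_lit 187878) (nat_lit 0) .nil) .nil)))) (.nd (nat_lit 9) 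
(.lf (nat_lit 507389) (.g (nat_lit 1601) (.e (nat_lit 164397) (nat_lit 256) (.e (nat_lit 57411) (nat_lit 12) (.e (nat_lit 336443) (nat_lit 32) (.e (nat_lit 466981) (nat_lit 23) (.e (nat_lit 204809) (nat_lit 9) .nil))))) (.g (nat_lit 0) (.e (nat_lit 187585) (nat_lit 0) .nil) .nil))) 
(.lf (nat_lit 507901) (.g (nat_lit 2432) (.e (nat_lit 164402) (nat_lit 256) (.e (nat_lit 57378) (nat_lit 3) (.e (nat_lit 98358) (nat_lit 26) (.e (nat_lit 426323) (nat_lit 13) (.e (nat_lit 483337) (nat_lit 9) .nil))))) (.g (nat_lit 0) (.e (nat_lit 188151) (nat_lit 0) .nil) .nil))))))))))) 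
(.nd (nat_lit 2) (.nd (nat_lit 3) (.nd (nat_lit 4) (.nd (nat_lit 5) (.nd (nat_lit 6) 
(.nd (nat_lit 7) (.nd (nat_lit 8) (.nd (nat_lit 9) 
(.lf (nat_lit 506883) (.g (nat_lit 548) (.e (nat_lit 164319) (nat_lit 228) (.e (nat_lit 57412) (nat_lit 12) (.e (nat_lit 336054) (nat_lit 7) .nil))) (.g (nat_lit 0) (.e (nat_lit 185249) (nat_lit 0) .nil) .nil))) 
(.lf (nat_lit 507395) (.g (nat_lit 2017) (.e (nat_lit 164398) (nat_lit 256) (.e (nat_lit 57371) (nat_lit 2) (.e (nat_lit 90178) (nat_lit 15) (.e (nat_lit 188421) (nat_lit 11) (.e (nat_lit 336387) (nat_lit 27) .nil))))) (.g (nat_lit 0) (.e (nat_lit 187592) (nat_lit 0) .nil) .nil)))) (.nd (nat_lit 9) 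
(.lf (nat_lit 507139) (.g (nat_lit 1824) (.e (nat_lit 164354) (nat_lit 246) (.e (nat_lit 351) (nat_lit 28) (.e (nat_lit 393268) (nat_lit 23) (.e (nat_lit 426428) (nat_lit 17) (.e (nat_lit 90203) (nat_lit 21) .nil))))) (.g (nat_lit 0) (.e (nat_lit 186660) (nat_lit 0) .nil) .nil))) 
(.lf (nat_lit 507651) (.g (nat_lit 3439) (.e (nat_lit 164399) (nat_lit 256) (.e (nat_lit 57379) (nat_lit 3) (.e (nat_lit 98365) (nat_lit 26) (.e (nat_lit 426325) (nat_lit 13) (.e (nat_lit 483336) (nat_lit 9) (.e (nat_lit 426100) (nat_lit 1) .nil)))))) (.g (nat_lit 1) (.e (nat_lit 187884) (nat_lit 0) .nil) .nil))))) (.nd (nat_lit 8) (.nd (nat_lit 9) 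
(.lf (nat_lit 507011) (.g (nat_lit 2015) (.e (nat_lit 164347) (nat_lit 240) (.e (nat_lit 2619) (nat_lit 164) (.e (nat_lit 172124) (nat_lit 14) (.e (nat_lit 491547) (nat_lit 9) (.e (nat_lit 336443) (nat_lit 32) .nil))))) (.g (nat_lit 0) (.e (nat_lit 186042) (nat_lit 0) .nil) .nil))) 
(.lf (nat_lit 507523) (.g (nat_lit 759) (.e (nat_lit 164399) (nat_lit 256) (.e (nat_lit 57371) (nat_lit 2) (.e (nat_lit 90178) (nat_lit 15) .nil))) (.g (nat_lit 0) (.e (nat_lit 187731) (nat_lit 0) .nil) .nil)))) (.nd (nat_lit 9) 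
(.lf (nat_lit 507267) (.g (nat_lit 959) (.e (nat_lit 164396) (nat_lit 256) (.e (nat_lit 57371) (nat_lit 2) (.e (nat_lit 90176) (nat_lit 15) (.e (nat_lit 188423) (nat_lit 11) .nil)))) (.g (nat_lit 0) (.e (nat_lit 187462) (nat_lit 0) .nil) .nil))) 
(.lf (nat_lit 507779) (.g (nat_lit 2218) (.e (nat_lit 164400) (nat_lit 256) (.e (nat_lit 57407) (nat_lit 12) (.e (nat_lit 336443) (nat_lit 32) (.e (nat_lit 466977) (nat_lit 22) (.e (nat_lit 196654) (nat_lit 11) .nil))))) (.g (nat_lit 0) (.e (nat_lit 188022) (nat_lit 0) .nil) .nil)))))) (.nd (nat_lit 7) (.nd (nat_lit 8) (.nd (nat_lit 9) 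
(.lf (nat_lit 506947) (.g (nat_lit 1454) (.e (nat_lit 164345) (nat_lit 240) (.e (nat_lit 2639) (nat_lit 165) (.e (nat_lit 180278) (nat_lit 32) (.e (nat_lit 1659) (nat_lit 115) (.e (nat_lit 393277) (nat_lit 23) .nil))))) (.g (nat_lit 0) (.e (nat_lit 185547) (nat_lit 0) .nil) .nil))) 
(.lf (nat_lit 507459) (.g (nat_lit 1135) (.e (nat_lit 164398) (nat_lit 256) (.e (nat_lit 57378) (nat_lit 3) (.e (nat_lit 98371) (nat_lit 28) .nil))) (.g (nat_lit 0) (.e (nat_lit 187663) (nat_lit 0) .nil) .nil)))) (.nd (nat_lit 9) 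
(.lf (nat_lit 507203) (.g (nat_lit 2673) (.e (nat_lit 164359) (nat_lit 246) (.e (nat_lit 3062) (nat_lit 190) (.e (nat_lit 475210) (nat_lit 41) (.e (nat_lit 712755) (nat_lit 30) (.e (nat_lit 450597) (nat_lit 17) (.e (nat_lit 671488) (nat_lit 17) .nil)))))) (.g (nat_lit 1) (.e (nat_lit 186760) (nat_lit 0) .nil) .nil))) 
(.lf (nat_lit 507715) (.g (nat_lit 2624) (.e (nat_lit 164399) (nat_lit 256) (.e (nat_lit 57445) (nat_lit 19) (.e (nat_lit 393291) (nat_lit 26) (.e (nat_lit 475177) (nat_lit 24) (.e (nat_lit 516115) (nat_lit 1) .nil))))) (.g (nat_lit 0) (.e (nat_lit 187956) (nat_lit 0) .nil) .nil))))) (.nd (nat_lit 8) (.nd (nat_lit 9) 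
(.lf (nat_lit 507075) (.g (nat_lit 3141) (.e (nat_lit 164348) (nat_lit 240) (.e (nat_lit 2610) (nat_lit 163) (.e (nat_lit 163979) (nat_lit 30) (.e (nat_lit 573491) (nat_lit 15) (.e (nat_lit 81954) (nat_lit 23) (.e (nat_lit 98359) (nat_lit 26) (.e (nat_lit 426104) (nat_lit 1) .nil))))))) (.g (nat_lit 1) (.e (nat_lit 186401) (nat_lit 0) .nil) .nil))) 
(.lf (nat_lit 507587) (.g (nat_lit 2734) (.e (nat_lit 164399) (nat_lit 256) (.e (nat_lit 57377) (nat_lit 3) (.e (nat_lit 98367) (nat_lit 27) (.e (nat_lit 434231) (nat_lit 23) (.e (nat_lit 532514) (nat_lit 3) .nil))))) (.g (nat_lit 0) (.e (nat_lit 187813) (nat_lit 0) .nil) .nil)))) (.nd (nat_lit 9) 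
(.lf (nat_lit 507331) (.g (nat_lit 701) (.e (nat_lit 164396) (nat_lit 256) (.e (nat_lit 57435) (nat_lit 17) (.e (nat_lit 376863) (nat_lit 22) .nil))) (.g (nat_lit 0) (.e (nat_lit 187527) (nat_lit 0) .nil) .nil))) 
(.lf (nat_lit 507843) (.g (nat_lit 1197) (.e (nat_lit 164401) (nat_lit 256) (.e (nat_lit 57378) (nat_lit 3) (.e (nat_lit 98382) (nat_lit 31) .nil))) (.g (nat_lit 0) (.e (nat_lit 188089) (nat_lit 0) .nil) .nil))))))) (.nd (nat_lit 6) (.nd (nat_lit 7) (.nd (nat_lit 8) (.nd (nat_lit 9) 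
(.lf (nat_lit 506915) (.g (nat_lit 2359) (.e (nat_lit 164345) (nat_lit 240) (.e (nat_lit 2610) (nat_lit 163) (.e (nat_lit 163979) (nat_lit 30) (.e (nat_lit 573491) (nat_lit 15) (.e (nat_lit 81954) (nat_lit 23) .nil))))) (.g (nat_lit 0) (.e (nat_lit 185329) (nat_lit 0) .nil) .nil))) 
(.lf (nat_lit 507427) (.g (nat_lit 622) (.e (nat_lit 164398) (nat_lit 256) (.e (nat_lit 57373) (nat_lit 2) (.e (nat_lit 90177) (nat_lit 15) .nil))) (.g (nat_lit 0) (.e (nat_lit 187625) (nat_lit 0) .nil) .nil)))) (.nd (nat_lit 9) 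
(.lf (nat_lit 507171) (.g (nat_lit 1296) (.e (nat_lit 164358) (nat_lit 246) (.e (nat_lit 351) (nat_lit 28) (.e (nat_lit 393271) (nat_lit 23) (.e (nat_lit 426432) (nat_lit 17) (.e (nat_lit 90203) (nat_lit 21) .nil))))) (.g (nat_lit 0) (.e (nat_lit 186699) (nat_lit 0) .nil) .nil))) 
(.lf (nat_lit 507683) (.g (nat_lit 1447) (.e (nat_lit 164399) (nat_lit 256) (.e (nat_lit 57407) (nat_lit 12) (.e (nat_lit 336426) (nat_lit 29) (.e (nat_lit 442425) (nat_lit 23) (.e (nat_lit 204813) (nat_lit 9) .nil))))) (.g (nat_lit 0) (.e (nat_lit 187921) (nat_lit 0) .nil) .nil))))) (.nd (nat_lit 8) (.nd (nat_lit 9) 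
(.lf (nat_lit 507043) (.g (nat_lit 1221) (.e (nat_lit 164347) (nat_lit 240) (.e (nat_lit 2640) (nat_lit 165) (.e (nat_lit 180278) (nat_lit 32) (.e (nat_lit 1660) (nat_lit 115) (.e (nat_lit 393277) (nat_lit 23) .nil))))) (.g (nat_lit 0) (.e (nat_lit 186242) (nat_lit 0) .nil) .nil))) 
(.lf (nat_lit 507555) (.g (nat_lit 2314) (.e (nat_lit 164399) (nat_lit 256) (.e (nat_lit 57373) (nat_lit 2) (.e (nat_lit 90174) (nat_lit 14) (.e (nat_lit 180243) (nat_lit 5) (.e (nat_lit 532515) (nat_lit 3) (.e (nat_lit 114716) (nat_lit 22) (.e (nat_lit 90133) (nat_lit 9) (.e (nat_lit 2613) (nat_lit 163) .nil)))))))) (.g (nat_lit 1) (.e (nat_lit 187773) (nat_lit 0) .nil) .nil)))) (.nd (nat_lit 9) 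
(.lf (nat_lit 507299) (.g (nat_lit 753) (.e (nat_lit 164396) (nat_lit 256) (.e (nat_lit 57377) (nat_lit 3) (.e (nat_lit 98382) (nat_lit 31) .nil))) (.g (nat_lit 0) (.e (nat_lit 187495) (nat_lit 0) .nil) .nil))) 
(.lf (nat_lit 507811) (.g (nat_lit 1766) (.e (nat_lit 164401) (nat_lit 256) (.e (nat_lit 57373) (nat_lit 2) (.e (nat_lit 90178) (nat_lit 15) (.e (nat_lit 188421) (nat_lit 11) (.e (nat_lit 336387) (nat_lit 27) .nil))))) (.g (nat_lit 0) (.e (nat_lit 188054) (nat_lit 0) .nil) .nil)))))) (.nd (nat_lit 7) (.nd (nat_lit 8) (.nd (nat_lit 9) 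
(.lf (nat_lit 506979) (.g (nat_lit 2947) (.e (nat_lit 164346) (nat_lit 240) (.e (nat_lit 2638) (nat_lit 165) (.e (nat_lit 180278) (nat_lit 32) (.e (nat_lit 1426) (nat_lit 108) (.e (nat_lit 336430) (nat_lit 29) (.e (nat_lit 442419) (nat_lit 21) .nil)))))) (.g (nat_lit 1) (.e (nat_lit 185840) (nat_lit 0) .nil) .nil))) 
(.lf (nat_lit 507491) (.g (nat_lit 969) (.e (nat_lit 164398) (nat_lit 256) (.e (nat_lit 57407) (nat_lit 12) (.e (nat_lit 336444) (nat_lit 32) .nil))) (.g (nat_lit 0) (.e (nat_lit 187695) (nat_lit 0) .nil) .nil)))) (.nd (nat_lit 9) 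
(.lf (nat_lit 507235) (.g (nat_lit 697) (.e (nat_lit 164375) (nat_lit 252) (.e (nat_lit 229433) (nat_lit 25) (.e (nat_lit 532549) (nat_lit 12) (.e (nat_lit 360466) (nat_lit 3) .nil)))) (.g (nat_lit 0) (.e (nat_lit 187286) (nat_lit 0) .nil) .nil))) 
(.lf (nat_lit 507747) (.g (nat_lit 2630) (.e (nat_lit 164400) (nat_lit 256) (.e (nat_lit 57373) (nat_lit 2) (.e (nat_lit 90174) (nat_lit 14) (.e (nat_lit 180243) (nat_lit 5) (.e (nat_lit 532511) (nat_lit 2) .nil))))) (.g (nat_lit 0) (.e (nat_lit 187990) (nat_lit 0) .nil) .nil))))) (.nd (nat_lit 8) (.nd (nat_lit 9) 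
(.lf (nat_lit 507107) (.g (nat_lit 672) (.e (nat_lit 164348) (nat_lit 240) (.e (nat_lit 2650) (nat_lit 166) (.e (nat_lit 188431) (nat_lit 20) .nil))) (.g (nat_lit 0) (.e (nat_lit 186522) (nat_lit 0) .nil) .nil))) 
(.lf (nat_lit 507619) (.g (nat_lit 2011) (.e (nat_lit 164399) (nat_lit 256) (.e (nat_lit 57378) (nat_lit 3) (.e (nat_lit 98365) (nat_lit 26) (.e (nat_lit 426332) (nat_lit 13) (.e (nat_lit 483341) (nat_lit 9) .nil))))) (.g (nat_lit 0) (.e (nat_lit 187852) (nat_lit 0) .nil) .nil)))) (.nd (nat_lit 9) 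
(.lf (nat_lit 507363) (.g (nat_lit 1412) (.e (nat_lit 164397) (nat_lit 256) (.e (nat_lit 57374) (nat_lit 2) (.e (nat_lit 90170) (nat_lit 13) (.e (nat_lit 172123) (nat_lit 13) .nil)))) (.g (nat_lit 0) (.e (nat_lit 187559) (nat_lit 0) .nil) .nil))) 
(.lf (nat_lit 507875) (.g (nat_lit 2839) (.e (nat_lit 164402) (nat_lit 256) (.e (nat_lit 57373) (nat_lit 2) (.e (nat_lit 90170) (nat_lit 13) (.e (nat_lit 172122) (nat_lit 13) .nil)))) (.g (nat_lit 0) (.e (nat_lit 188123) (nat_lit 0) .nil) .nil)))))))) (.nd (nat_lit 5) (.nd (nat_lit 6) (.nd (nat_lit 7) (.nd (nat_lit 8) (.nd (nat_lit 9) 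
(.lf (nat_lit 506899) (.g (nat_lit 1229) (.e (nat_lit 164319) (nat_lit 228) (.e (nat_lit 57424) (nat_lit 14) (.e (nat_lit 352318) (nat_lit 24) (.e (nat_lit 123147) (nat_lit 250) .nil)))) (.g (nat_lit 0) (.e (nat_lit 185276) (nat_lit 0) .nil) .nil))) 
(.lf (nat_lit 507411) (.g (nat_lit 2062) (.e (nat_lit 164398) (nat_lit 256) (.e (nat_lit 57372) (nat_lit 2) (.e (nat_lit 90185) (nat_lit 17) (.e (nat_lit 237620) (nat_lit 13) .nil)))) (.g (nat_lit 0) (.e (nat_lit 187608) (nat_lit 0) .nil) .nil)))) (.nd (nat_lit 9) 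
(.lf (nat_lit 507155) (.g (nat_lit 1271) (.e (nat_lit 164358) (nat_lit 246) (.e (nat_lit 112) (nat_lit 3) (.e (nat_lit 98367) (nat_lit 27) (.e (nat_lit 434245) (nat_lit 28) .nil)))) (.g (nat_lit 0) (.e (nat_lit 186678) (nat_lit 0) .nil) .nil))) 
(.lf (nat_lit 507667) (.g (nat_lit 2557) (.e (nat_lit 164399) (nat_lit 256) (.e (nat_lit 57388) (nat_lit 5) (.e (nat_lit 114714) (nat_lit 22) (.e (nat_lit 90157) (nat_lit 11) (.e (nat_lit 24650) (nat_lit 12) (.e (nat_lit 385066) (nat_lit 26) (.e (nat_lit 540416) (nat_lit 18) .nil))))))) (.g (nat_lit 1) (.e (nat_lit 187900) (nat_lit 0) .nil) .nil))))) (.nd (nat_lit 8) (.nd (nat_lit 9) 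
(.lf (nat_lit 507027) (.g (nat_lit 365) (.e (nat_lit 164347) (nat_lit 240) (.e (nat_lit 2638) (nat_lit 165) (.e (nat_lit 180278) (nat_lit 32) .nil))) (.g (nat_lit 0) (.e (nat_lit 186215) (nat_lit 0) .nil) .nil))) 
(.lf (nat_lit 507539) (.g (nat_lit 2592) (.e (nat_lit 164399) (nat_lit 256) (.e (nat_lit 57372) (nat_lit 2) (.e (nat_lit 90174) (nat_lit 14) (.e (nat_lit 180243) (nat_lit 5) (.e (nat_lit 532515) (nat_lit 3) (.e (nat_lit 114716) (nat_lit 22) (.e (nat_lit 90137) (nat_lit 9) (.e (nat_lit 2599) (nat_lit 163) .nil)))))))) (.g (nat_lit 1) (.e (nat_lit 187756) (nat_lit 0) .nil) .nil)))) (.nd (nat_lit 9) 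
(.lf (nat_lit 507283) (.g (nat_lit 925) (.e (nat_lit 164396) (nat_lit 256) (.e (nat_lit 57373) (nat_lit 2) (.e (nat_lit 90176) (nat_lit 15) .nil))) (.g (nat_lit 0) (.e (nat_lit 187478) (nat_lit 0) .nil) .nil))) 
(.lf (nat_lit 507795) (.g (nat_lit 1694) (.e (nat_lit 164401) (nat_lit 256) (.e (nat_lit 57373) (nat_lit 2) (.e (nat_lit 90170) (nat_lit 13) (.e (nat_lit 172087) (nat_lit 9) .nil)))) (.g (nat_lit 0) (.e (nat_lit 188038) (nat_lit 0) .nil) .nil)))))) (.nd (nat_lit 7) (.nd (nat_lit 8) (.nd (nat_lit 9) 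
(.lf (nat_lit 506963) (.g (nat_lit 3114) (.e (nat_lit 164346) (nat_lit 240) (.e (nat_lit 2618) (nat_lit 164) (.e (nat_lit 172124) (nat_lit 14) (.e (nat_lit 491550) (nat_lit 9) (.e (nat_lit 336430) (nat_lit 29) (.e (nat_lit 442419) (nat_lit 21) .nil)))))) (.g (nat_lit 1) (.e (nat_lit 185745) (nat_lit 0) .nil) .nil))) 
(.lf (nat_lit 507475) (.g (nat_lit 2200) (.e (nat_lit 164398) (nat_lit 256) (.e (nat_lit 57379) (nat_lit 3) (.e (nat_lit 98367) (nat_lit 27) (.e (nat_lit 434231) (nat_lit 23) (.e (nat_lit 532507) (nat_lit 2) .nil))))) (.g (nat_lit 0) (.e (nat_lit 187679) (nat_lit 0) .nil) .nil)))) (.nd (nat_lit 9) 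
(.lf (nat_lit 507219) (.g (nat_lit 2959) (.e (nat_lit 164362) (nat_lit 246) (.e (nat_lit 3062) (nat_lit 190) (.e (nat_lit 475211) (nat_lit 41) (.e (nat_lit 712755) (nat_lit 30) (.e (nat_lit 450597) (nat_lit 17) (.e (nat_lit 671488) (nat_lit 17) .nil)))))) (.g (nat_lit 1) (.e (nat_lit 186843) (nat_lit 0) .nil) .nil))) 
(.lf (nat_lit 507731) (.g (nat_lit 530) (.e (nat_lit 164400) (nat_lit 256) (.e (nat_lit 57372) (nat_lit 2) (.e (nat_lit 90172) (nat_lit 14) .nil))) (.g (nat_lit 0) (.e (nat_lit 187974) (nat_lit 0) .nil) .nil))))) (.nd (nat_lit 8) (.nd (nat_lit 9) 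
(.lf (nat_lit 507091) (.g (nat_lit 1496) (.e (nat_lit 164348) (nat_lit 240) (.e (nat_lit 2629) (nat_lit 164) (.e (nat_lit 172119) (nat_lit 12) (.e (nat_lit 475198) (nat_lit 40) (.e (nat_lit 704598) (nat_lit 6) .nil))))) (.g (nat_lit 0) (.e (nat_lit 186473) (nat_lit 0) .nil) .nil))) 
(.lf (nat_lit 507603) (.g (nat_lit 1842) (.e (nat_lit 164399) (nat_lit 256) (.e (nat_lit 57378) (nat_lit 3) (.e (nat_lit 98357) (nat_lit 26) (.e (nat_lit 426323) (nat_lit 13) (.e (nat_lit 483337) (nat_lit 9) .nil))))) (.g (nat_lit 0) (.e (nat_lit 187836) (nat_lit 0) .nil) .nil)))) (.nd (nat_lit 9) 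
(.lf (nat_lit 507347) (.g (nat_lit 1881) (.e (nat_lit 164397) (nat_lit 256) (.e (nat_lit 57372) (nat_lit 2) (.e (nat_lit 90174) (nat_lit 14) (.e (nat_lit 180243) (nat_lit 5) .nil)))) (.g (nat_lit 0) (.e (nat_lit 187543) (nat_lit 0) .nil) .nil))) 
(.lf (nat_lit 507859) (.g (nat_lit 2094) (.e (nat_lit 164402) (nat_lit 256) (.e (nat_lit 57371) (nat_lit 2) (.e (nat_lit 90174) (nat_lit 14) (.e (nat_lit 180243) (nat_lit 5) (.e (nat_lit 532508) (nat_lit 2) .nil))))) (.g (nat_lit 0) (.e (nat_lit 188107) (nat_lit 0) .nil) .nil))))))) (.nd (nat_lit 6) (.nd (nat_lit 7) (.nd (nat_lit 8) (.nd (nat_lit 9) 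
(.lf (nat_lit 506931) (.g (nat_lit 1694) (.e (nat_lit 164345) (nat_lit 240) (.e (nat_lit 2629) (nat_lit 164) (.e (nat_lit 172118) (nat_lit 12) (.e (nat_lit 475198) (nat_lit 40) (.e (nat_lit 704598) (nat_lit 6) .nil))))) (.g (nat_lit 0) (.e (nat_lit 185481) (nat_lit 0) .nil) .nil))) 
(.lf (nat_lit 507443) (.g (nat_lit 1545) (.e (nat_lit 164398) (nat_lit 256) (.e (nat_lit 57377) (nat_lit 3) (.e (nat_lit 98370) (nat_lit 28) (.e (nat_lit 450304) (nat_lit 18) .nil)))) (.g (nat_lit 0) (.e (nat_lit 187644) (nat_lit 0) .nil) .nil)))) (.nd (nat_lit 9) 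
(.lf (nat_lit 507187) (.g (nat_lit 2572) (.e (nat_lit 164359) (nat_lit 246) (.e (nat_lit 2661) (nat_lit 167) (.e (nat_lit 196666) (nat_lit 13) (.e (nat_lit 65617) (nat_lit 10) (.e (nat_lit 344133) (nat_lit 26) (.e (nat_lit 557068) (nat_lit 9) (.e (nat_lit 20) (nat_lit 0) (.e (nat_lit 6236) (nat_lit 335) .nil)))))))) (.g (nat_lit 1) (.e (nat_lit 186718) (nat_lit 0) .nil) .nil))) 
(.lf (nat_lit 507699) (.g (nat_lit 387) (.e (nat_lit 164399) (nat_lit 256) (.e (nat_lit 57409) (nat_lit 12) (.e (nat_lit 336434) (nat_lit 30) .nil))) (.g (nat_lit 0) (.e (nat_lit 187938) (nat_lit 0) .nil) .nil))))) (.nd (nat_lit 8) (.nd (nat_lit 9) 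
(.lf (nat_lit 507059) (.g (nat_lit 4090) (.e (nat_lit 164348) (nat_lit 240) (.e (nat_lit 2610) (nat_lit 163) (.e (nat_lit 163977) (nat_lit 30) (.e (nat_lit 573491) (nat_lit 15) (.e (nat_lit 81951) (nat_lit 22) (.e (nat_lit 90170) (nat_lit 13) (.e (nat_lit 172061) (nat_lit 1) .nil))))))) (.g (nat_lit 1) (.e (nat_lit 186385) (nat_lit 0) .nil) .nil))) 
(.lf (nat_lit 507571) (.g (nat_lit 2074) (.e (nat_lit 164399) (nat_lit 256) (.e (nat_lit 57375) (nat_lit 2) (.e (nat_lit 90172) (nat_lit 14) (.e (nat_lit 180244) (nat_lit 5) (.e (nat_lit 532514) (nat_lit 3) .nil))))) (.g (nat_lit 0) (.e (nat_lit 187790) (nat_lit 0) .nil) .nil)))) (.nd (nat_lit 9) 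
(.lf (nat_lit 507315) (.g (nat_lit 978) (.e (nat_lit 164396) (nat_lit 256) (.e (nat_lit 57379) (nat_lit 3) (.e (nat_lit 98376) (nat_lit 30) .nil))) (.g (nat_lit 0) (.e (nat_lit 187511) (nat_lit 0) .nil) .nil))) 
(.lf (nat_lit 507827) (.g (nat_lit 3009) (.e (nat_lit 164401) (nat_lit 256) (.e (nat_lit 57378) (nat_lit 3) (.e (nat_lit 98363) (nat_lit 26) (.e (nat_lit 426321) (nat_lit 13) (.e (nat_lit 483337) (nat_lit 9) (.e (nat_lit 426108) (nat_lit 1) .nil)))))) (.g (nat_lit 1) (.e (nat_lit 188073) (nat_lit 0) .nil) .nil)))))) (.nd (nat_lit 7) (.nd (nat_lit 8) (.nd (nat_lit 9) 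
(.lf (nat_lit 506995) (.g (nat_lit 3417) (.e (nat_lit 164347) (nat_lit 240) (.e (nat_lit 2610) (nat_lit 163) (.e (nat_lit 163978) (nat_lit 30) (.e (nat_lit 573493) (nat_lit 15) (.e (nat_lit 81956) (nat_lit 23) .nil))))) (.g (nat_lit 0) (.e (nat_lit 185975) (nat_lit 0) .nil) .nil))) 
(.lf (nat_lit 507507) (.g (nat_lit 1092) (.e (nat_lit 164398) (nat_lit 256) (.e (nat_lit 57447) (nat_lit 19) (.e (nat_lit 393300) (nat_lit 27) .nil))) (.g (nat_lit 0) (.e (nat_lit 187712) (nat_lit 0) .nil) .nil)))) (.nd (nat_lit 9) 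
(.lf (nat_lit 507251) (.g (nat_lit 1358) (.e (nat_lit 164396) (nat_lit 256) (.e (nat_lit 57371) (nat_lit 2) (.e (nat_lit 90168) (nat_lit 13) (.e (nat_lit 172123) (nat_lit 13) (.e (nat_lit 483337) (nat_lit 9) .nil))))) (.g (nat_lit 0) (.e (nat_lit 187446) (nat_lit 0) .nil) .nil))) 
(.lf (nat_lit 507763) (.g (nat_lit 2055) (.e (nat_lit 164400) (nat_lit 256) (.e (nat_lit 57375) (nat_lit 2) (.e (nat_lit 90178) (nat_lit 15) (.e (nat_lit 188421) (nat_lit 11) (.e (nat_lit 336387) (nat_lit 27) .nil))))) (.g (nat_lit 0) (.e (nat_lit 188006) (nat_lit 0) .nil) .nil))))) (.nd (nat_lit 8) (.nd (nat_lit 9) 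
(.lf (nat_lit 507123) (.g (nat_lit 671) (.e (nat_lit 164353) (nat_lit 246) (.e (nat_lit 351) (nat_lit 28) (.e (nat_lit 393267) (nat_lit 23) (.e (nat_lit 433920) (nat_lit 17) .nil)))) (.g (nat_lit 0) (.e (nat_lit 186640) (nat_lit 0) .nil) .nil))) 
(.lf (nat_lit 507635) (.g (nat_lit 1082) (.e (nat_lit 164399) (nat_lit 256) (.e (nat_lit 57378) (nat_lit 3) (.e (nat_lit 98381) (nat_lit 31) (.e (nat_lit 466950) (nat_lit 11) .nil)))) (.g (nat_lit 0) (.e (nat_lit 187868) (nat_lit 0) .nil) .nil)))) (.nd (nat_lit 9) 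
(.lf (nat_lit 507379) (.g (nat_lit 1699) (.e (nat_lit 164397) (nat_lit 256) (.e (nat_lit 57379) (nat_lit 3) (.e (nat_lit 98376) (nat_lit 30) (.e (nat_lit 458789) (nat_lit 23) (.e (nat_lit 532515) (nat_lit 3) .nil))))) (.g (nat_lit 0) (.e (nat_lit 187575) (nat_lit 0) .nil) .nil))) 
(.lf (nat_lit 507891) (.g (nat_lit 723) (.e (nat_lit 164402) (nat_lit 256) (.e (nat_lit 57377) (nat_lit 3) (.e (nat_lit 98355) (nat_lit 26) .nil))) (.g (nat_lit 0) (.e (nat_lit 188139) (nat_lit 0) .nil) .nil))))))))) (.nd (nat_lit 4) (.nd (nat_lit 5) (.nd (nat_lit 6) (.nd (nat_lit 7) (.nd (nat_lit 8) (.nd (nat_lit 9) 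
(.lf (nat_lit 506891) (.g (nat_lit 1595) (.e (nat_lit 164319) (nat_lit 228) (.e (nat_lit 57412) (nat_lit 12) (.e (nat_lit 336176) (nat_lit 10) (.e (nat_lit 344156) (nat_lit 36) (.e (nat_lit 638999) (nat_lit 8) .nil))))) (.g (nat_lit 0) (.e (nat_lit 185259) (nat_lit 0) .nil) .nil))) 
(.lf (nat_lit 507403) (.g (nat_lit 2816) (.e (nat_lit 164398) (nat_lit 256) (.e (nat_lit 57372) (nat_lit 2) (.e (nat_lit 90174) (nat_lit 14) (.e (nat_lit 180243) (nat_lit 5) (.e (nat_lit 532515) (nat_lit 3) (.e (nat_lit 114716) (nat_lit 22) (.e (nat_lit 90137) (nat_lit 9) (.e (nat_lit 2599) (nat_lit 163) .nil)))))))) (.g (nat_lit 1) (.e (nat_lit 187600) (nat_lit 0) .nil) .nil)))) (.nd (nat_lit 9) 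
(.lf (nat_lit 507147) (.g (nat_lit 1205) (.e (nat_lit 164356) (nat_lit 246) (.e (nat_lit 351) (nat_lit 28) (.e (nat_lit 393270) (nat_lit 23) (.e (nat_lit 426428) (nat_lit 17) (.e (nat_lit 90203) (nat_lit 21) .nil))))) (.g (nat_lit 0) (.e (nat_lit 186669) (nat_lit 0) .nil) .nil))) 
(.lf (nat_lit 507659) (.g (nat_lit 2285) (.e (nat_lit 164399) (nat_lit 256) (.e (nat_lit 57379) (nat_lit 3) (.e (nat_lit 98367) (nat_lit 27) (.e (nat_lit 434231) (nat_lit 23) (.e (nat_lit 532507) (nat_lit 2) .nil))))) (.g (nat_lit 0) (.e (nat_lit 187892) (nat_lit 0) .nil) .nil))))) (.nd (nat_lit 8) (.nd (nat_lit 9) 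
(.lf (nat_lit 507019) (.g (nat_lit 2160) (.e (nat_lit 164347) (nat_lit 240) (.e (nat_lit 2629) (nat_lit 164) (.e (nat_lit 172120) (nat_lit 12) (.e (nat_lit 475198) (nat_lit 40) (.e (nat_lit 704599) (nat_lit 6) .nil))))) (.g (nat_lit 0) (.e (nat_lit 186167) (nat_lit 0) .nil) .nil))) 
(.lf (nat_lit 507531) (.g (nat_lit 3001) (.e (nat_lit 164399) (nat_lit 256) (.e (nat_lit 57372) (nat_lit 2) (.e (nat_lit 90170) (nat_lit 13) (.e (nat_lit 172065) (nat_lit 3) (.e (nat_lit 204837) (nat_lit 20) .nil))))) (.g (nat_lit 0) (.e (nat_lit 187748) (nat_lit 0) .nil) .nil)))) (.nd (nat_lit 9) 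
(.lf (nat_lit 507275) (.g (nat_lit 2445) (.e (nat_lit 164396) (nat_lit 256) (.e (nat_lit 57372) (nat_lit 2) (.e (nat_lit 90174) (nat_lit 14) (.e (nat_lit 180243) (nat_lit 5) (.e (nat_lit 532513) (nat_lit 3) .nil))))) (.g (nat_lit 0) (.e (nat_lit 187470) (nat_lit 0) .nil) .nil))) 
(.lf (nat_lit 507787) (.g (nat_lit 980) (.e (nat_lit 164401) (nat_lit 256) (.e (nat_lit 57346) (nat_lit 0) (.e (nat_lit 6724) (nat_lit 362) (.e (nat_lit 180232) (nat_lit 0) .nil)))) (.g (nat_lit 0) (.e (nat_lit 188030) (nat_lit 0) .nil) .nil)))))) (.nd (nat_lit 7) (.nd (nat_lit 8) (.nd (nat_lit 9) 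
(.lf (nat_lit 506955) (.g (nat_lit 2213) (.e (nat_lit 164346) (nat_lit 240) (.e (nat_lit 2610) (nat_lit 163) (.e (nat_lit 163977) (nat_lit 30) (.e (nat_lit 573491) (nat_lit 15) (.e (nat_lit 81951) (nat_lit 22) .nil))))) (.g (nat_lit 0) (.e (nat_lit 185731) (nat_lit 0) .nil) .nil))) 
(.lf (nat_lit 507467) (.g (nat_lit 1388) (.e (nat_lit 164398) (nat_lit 256) (.e (nat_lit 57379) (nat_lit 3) (.e (nat_lit 98365) (nat_lit 26) (.e (nat_lit 426188) (nat_lit 9) .nil)))) (.g (nat_lit 0) (.e (nat_lit 187671) (nat_lit 0) .nil) .nil)))) (.nd (nat_lit 9) 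
(.lf (nat_lit 507211) (.g (nat_lit 1369) (.e (nat_lit 164361) (nat_lit 246) (.e (nat_lit 2679) (nat_lit 168) (.e (nat_lit 204878) (nat_lit 31) (.e (nat_lit 376865) (nat_lit 22) (.e (nat_lit 90181) (nat_lit 16) .nil))))) (.g (nat_lit 0) (.e (nat_lit 186811) (nat_lit 0) .nil) .nil))) 
(.lf (nat_lit 507723) (.g (nat_lit 2206) (.e (nat_lit 164399) (nat_lit 256) (.e (nat_lit 57447) (nat_lit 19) (.e (nat_lit 393291) (nat_lit 26) (.e (nat_lit 475177) (nat_lit 24) .nil)))) (.g (nat_lit 0) (.e (nat_lit 187965) (nat_lit 0) .nil) .nil))))) (.nd (nat_lit 8) (.nd (nat_lit 9) 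
(.lf (nat_lit 507083) (.g (nat_lit 1003) (.e (nat_lit 164348) (nat_lit 240) (.e (nat_lit 2618) (nat_lit 164) (.e (nat_lit 172124) (nat_lit 14) (.e (nat_lit 491547) (nat_lit 9) .nil)))) (.g (nat_lit 0) (.e (nat_lit 186419) (nat_lit 0) .nil) .nil))) 
(.lf (nat_lit 507595) (.g (nat_lit 810) (.e (nat_lit 164399) (nat_lit 256) (.e (nat_lit 57377) (nat_lit 3) (.e (nat_lit 98382) (nat_lit 31) (.e (nat_lit 466951) (nat_lit 11) .nil)))) (.g (nat_lit 0) (.e (nat_lit 187827) (nat_lit 0) .nil) .nil)))) (.nd (nat_lit 9) 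
(.lf (nat_lit 507339) (.g (nat_lit 1615) (.e (nat_lit 164397) (nat_lit 256) (.e (nat_lit 57371) (nat_lit 2) (.e (nat_lit 90174) (nat_lit 14) (.e (nat_lit 180245) (nat_lit 5) .nil)))) (.g (nat_lit 0) (.e (nat_lit 187535) (nat_lit 0) .nil) .nil))) 
(.lf (nat_lit 507851) (.g (nat_lit 2627) (.e (nat_lit 164401) (nat_lit 256) (.e (nat_lit 57424) (nat_lit 14) (.e (nat_lit 352312) (nat_lit 22) (.e (nat_lit 90157) (nat_lit 11) (.e (nat_lit 32512) (nat_lit 20) .nil))))) (.g (nat_lit 0) (.e (nat_lit 188097) (nat_lit 0) .nil) .nil))))))) (.nd (nat_lit 6) (.nd (nat_lit 7) (.nd (nat_lit 8) (.nd (nat_lit 9) 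
(.lf (nat_lit 506923) (.g (nat_lit 1962) (.e (nat_lit 164345) (nat_lit 240) (.e (nat_lit 2619) (nat_lit 164) (.e (nat_lit 172118) (nat_lit 12) (.e (nat_lit 475198) (nat_lit 40) (.e (nat_lit 704599) (nat_lit 6) .nil))))) (.g (nat_lit 0) (.e (nat_lit 185389) (nat_lit 0) .nil) .nil))) 
(.lf (nat_lit 507435) (.g (nat_lit 751) (.e (nat_lit 164398) (nat_lit 256) (.e (nat_lit 57375) (nat_lit 2) (.e (nat_lit 90177) (nat_lit 15) .nil))) (.g (nat_lit 0) (.e (nat_lit 187634) (nat_lit 0) .nil) .nil)))) (.nd (nat_lit 9) 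
(.lf (nat_lit 507179) (.g (nat_lit 2279) (.e (nat_lit 164359) (nat_lit 246) (.e (nat_lit 2661) (nat_lit 167) (.e (nat_lit 196666) (nat_lit 13) (.e (nat_lit 65610) (nat_lit 10) (.e (nat_lit 344129) (nat_lit 26) (.e (nat_lit 557067) (nat_lit 9) (.e (nat_lit 20) (nat_lit 0) (.e (nat_lit 6237) (nat_lit 335) .nil)))))))) (.g (nat_lit 1) (.e (nat_lit 186710) (nat_lit 0) .nil) .nil))) 
(.lf (nat_lit 507691) (.g (nat_lit 968) (.e (nat_lit 164399) (nat_lit 256) (.e (nat_lit 57407) (nat_lit 12) (.e (nat_lit 336443) (nat_lit 32) (.e (nat_lit 466979) (nat_lit 23) .nil)))) (.g (nat_lit 0) (.e (nat_lit 187930) (nat_lit 0) .nil) .nil))))) (.nd (nat_lit 8) (.nd (nat_lit 9) 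
(.lf (nat_lit 507051) (.g (nat_lit 2107) (.e (nat_lit 164348) (nat_lit 240) (.e (nat_lit 2610) (nat_lit 163) (.e (nat_lit 163977) (nat_lit 30) (.e (nat_lit 573481) (nat_lit 13) (.e (nat_lit 65604) (nat_lit 9) .nil))))) (.g (nat_lit 0) (.e (nat_lit 186377) (nat_lit 0) .nil) .nil))) 
(.lf (nat_lit 507563) (.g (nat_lit 1063) (.e (nat_lit 164399) (nat_lit 256) (.e (nat_lit 57373) (nat_lit 2) (.e (nat_lit 90185) (nat_lit 17) (.e (nat_lit 237620) (nat_lit 13) .nil)))) (.g (nat_lit 0) (.e (nat_lit 187781) (nat_lit 0) .nil) .nil)))) (.nd (nat_lit 9) 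
(.lf (nat_lit 507307) (.g (nat_lit 2232) (.e (nat_lit 164396) (nat_lit 256) (.e (nat_lit 57379) (nat_lit 3) (.e (nat_lit 98365) (nat_lit 26) (.e (nat_lit 426188) (nat_lit 9) (.e (nat_lit 426479) (nat_lit 27) .nil))))) (.g (nat_lit 0) (.e (nat_lit 187503) (nat_lit 0) .nil) .nil))) 
(.lf (nat_lit 507819) (.g (nat_lit 832) (.e (nat_lit 164401) (nat_lit 256) (.e (nat_lit 57377) (nat_lit 3) (.e (nat_lit 98381) (nat_lit 31) .nil))) (.g (nat_lit 0) (.e (nat_lit 188064) (nat_lit 0) .nil) .nil)))))) (.nd (nat_lit 7) (.nd (nat_lit 8) (.nd (nat_lit 9) 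
(.lf (nat_lit 506987) (.g (nat_lit 1740) (.e (nat_lit 164346) (nat_lit 240) (.e (nat_lit 2639) (nat_lit 165) (.e (nat_lit 180277) (nat_lit 32) (.e (nat_lit 1658) (nat_lit 115) (.e (nat_lit 393266) (nat_lit 23) (.e (nat_lit 426109) (nat_lit 1) .nil)))))) (.g (nat_lit 1) (.e (nat_lit 185860) (nat_lit 0) .nil) .nil))) 
(.lf (nat_lit 507499) (.g (nat_lit 680) (.e (nat_lit 164398) (nat_lit 256) (.e (nat_lit 57435) (nat_lit 17) (.e (nat_lit 376868) (nat_lit 23) .nil))) (.g (nat_lit 0) (.e (nat_lit 187703) (nat_lit 0) .nil) .nil)))) (.nd (nat_lit 9) 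
(.lf (nat_lit 507243) (.g (nat_lit 1763) (.e (nat_lit 164406) (nat_lit 258) (.e (nat_lit 163871) (nat_lit 2) (.e (nat_lit 196668) (nat_lit 14) (.e (nat_lit 73737) (nat_lit 0) .nil)))) (.g (nat_lit 0) (.e (nat_lit 187433) (nat_lit 0) .nil) .nil))) 
(.lf (nat_lit 507755) (.g (nat_lit 1929) (.e (nat_lit 164400) (nat_lit 256) (.e (nat_lit 57375) (nat_lit 2) (.e (nat_lit 90172) (nat_lit 14) (.e (nat_lit 180243) (nat_lit 5) (.e (nat_lit 532508) (nat_lit 2) .nil))))) (.g (nat_lit 0) (.e (nat_lit 187998) (nat_lit 0) .nil) .nil))))) (.nd (nat_lit 8) (.nd (nat_lit 9) 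
(.lf (nat_lit 507115) (.g (nat_lit 2539) (.e (nat_lit 164351) (nat_lit 246) (.e (nat_lit 2668) (nat_lit 167) (.e (nat_lit 196666) (nat_lit 13) (.e (nat_lit 65619) (nat_lit 10) (.e (nat_lit 344117) (nat_lit 21) .nil))))) (.g (nat_lit 0) (.e (nat_lit 186595) (nat_lit 0) .nil) .nil))) 
(.lf (nat_lit 507627) (.g (nat_lit 2705) (.e (nat_lit 164399) (nat_lit 256) (.e (nat_lit 57378) (nat_lit 3) (.e (nat_lit 98368) (nat_lit 27) (.e (nat_lit 434245) (nat_lit 28) (.e (nat_lit 573488) (nat_lit 14) (.e (nat_lit 73755) (nat_lit 8) (.e (nat_lit 557067) (nat_lit 9) (.e (nat_lit 2602) (nat_lit 163) .nil)))))))) (.g (nat_lit 1) (.e (nat_lit 187860) (nat_lit 0) .nil) .nil)))) 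
(.nd (nat_lit 9) 
(.lf (nat_lit 507371) (.g (nat_lit 1974) (.e (nat_lit 164397) (nat_lit 256) (.e (nat_lit 57378) (nat_lit 3) (.e (nat_lit 98365) (nat_lit 26) (.e (nat_lit 426325) (nat_lit 13) .nil)))) (.g (nat_lit 0) (.e (nat_lit 187567) (nat_lit 0) .nil) .nil))) 
(.lf (nat_lit 507883) (.g (nat_lit 3112) (.e (nat_lit 164402) (nat_lit 256) (.e (nat_lit 57373) (nat_lit 2) (.e (nat_lit 90174) (nat_lit 14) (.e (nat_lit 180243) (nat_lit 5) (.e (nat_lit 532515) (nat_lit 3) (.e (nat_lit 114716) (nat_lit 22) (.e (nat_lit 90129) (nat_lit 9) (.e (nat_lit 2606) (nat_lit 163) .nil)))))))) (.g (nat_lit 1) (.e (nat_lit 188131) (nat_lit 0) .nil) .nil)))))))) 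
(.nd (nat_lit 5) (.nd (nat_lit 6) (.nd (nat_lit 7) (.nd (nat_lit 8) (.nd (nat_lit 9) 
(.lf (nat_lit 506907) (.g (nat_lit 1802) (.e (nat_lit 171776) (nat_lit 234) (.e (nat_lit 16459) (nat_lit 12) (.e (nat_lit 475199) (nat_lit 40) (.e (nat_lit 704595) (nat_lit 5) (.e (nat_lit 180291) (nat_lit 48) .nil))))) (.g (nat_lit 0) (.e (nat_lit 185312) (nat_lit 0) .nil) .nil))) 
(.lf (nat_lit 507419) (.g (nat_lit 3353) (.e (nat_lit 164398) (nat_lit 256) (.e (nat_lit 57373) (nat_lit 2) (.e (nat_lit 90174) (nat_lit 14) (.e (nat_lit 180243) (nat_lit 5) (.e (nat_lit 532515) (nat_lit 3) (.e (nat_lit 114716) (nat_lit 22) (.e (nat_lit 90129) (nat_lit 9) (.e (nat_lit 2603) (nat_lit 163) .nil)))))))) (.g (nat_lit 1) (.e (nat_lit 187617) (nat_lit 0) .nil) .nil)))) (.nd (nat_lit 9) 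
(.lf (nat_lit 507163) (.g (nat_lit 1405) (.e (nat_lit 164358) (nat_lit 246) (.e (nat_lit 351) (nat_lit 28) (.e (nat_lit 393266) (nat_lit 23) (.e (nat_lit 426432) (nat_lit 17) (.e (nat_lit 90203) (nat_lit 21) .nil))))) (.g (nat_lit 0) (.e (nat_lit 186691) (nat_lit 0) .nil) .nil))) 
(.lf (nat_lit 507675) (.g (nat_lit 1544) (.e (nat_lit 164399) (nat_lit 256) (.e (nat_lit 57389) (nat_lit 5) (.e (nat_lit 114719) (nat_lit 23) (.e (nat_lit 98317) (nat_lit 9) .nil)))) (.g (nat_lit 0) (.e (nat_lit 187909) (nat_lit 0) .nil) .nil))))) (.nd (nat_lit 8) (.nd (nat_lit 9) 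
(.lf (nat_lit 507035) (.g (nat_lit 2509) (.e (nat_lit 164347) (nat_lit 240) (.e (nat_lit 2638) (nat_lit 165) (.e (nat_lit 180278) (nat_lit 32) (.e (nat_lit 1661) (nat_lit 115) (.e (nat_lit 393268) (nat_lit 23) (.e (nat_lit 433920) (nat_lit 1) .nil)))))) (.g (nat_lit 1) (.e (nat_lit 186227) (nat_lit 0) .nil) .nil))) 
(.lf (nat_lit 507547) (.g (nat_lit 1469) (.e (nat_lit 164399) (nat_lit 256) (.e (nat_lit 57373) (nat_lit 2) (.e (nat_lit 90169) (nat_lit 13) (.e (nat_lit 172121) (nat_lit 13) (.e (nat_lit 483337) (nat_lit 9) .nil))))) (.g (nat_lit 0) (.e (nat_lit 187765) (nat_lit 0) .nil) .nil)))) (.nd (nat_lit 9) 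
(.lf (nat_lit 507291) (.g (nat_lit 915) (.e (nat_lit 164396) (nat_lit 256) (.e (nat_lit 57375) (nat_lit 2) (.e (nat_lit 90176) (nat_lit 15) (.e (nat_lit 188423) (nat_lit 11) .nil)))) (.g (nat_lit 0) (.e (nat_lit 187486) (nat_lit 0) .nil) .nil))) 
(.lf (nat_lit 507803) (.g (nat_lit 2021) (.e (nat_lit 164401) (nat_lit 256) (.e (nat_lit 57373) (nat_lit 2) (.e (nat_lit 90174) (nat_lit 14) (.e (nat_lit 180243) (nat_lit 5) (.e (nat_lit 532514) (nat_lit 3) .nil))))) (.g (nat_lit 0) (.e (nat_lit 188046) (nat_lit 0) .nil) .nil)))))) (.nd (nat_lit 7) (.nd (nat_lit 8) (.nd (nat_lit 9) 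
(.lf (nat_lit 506971) (.g (nat_lit 1746) (.e (nat_lit 164346) (nat_lit 240) (.e (nat_lit 2628) (nat_lit 164) (.e (nat_lit 172120) (nat_lit 12) (.e (nat_lit 475198) (nat_lit 40) (.e (nat_lit 704599) (nat_lit 6) .nil))))) (.g (nat_lit 0) (.e (nat_lit 185797) (nat_lit 0) .nil) .nil))) 
(.lf (nat_lit 507483) (.g (nat_lit 2190) (.e (nat_lit 164398) (nat_lit 256) (.e (nat_lit 57406) (nat_lit 12) (.e (nat_lit 336426) (nat_lit 29) (.e (nat_lit 442427) (nat_lit 23) (.e (nat_lit 204809) (nat_lit 9) .nil))))) (.g (nat_lit 0) (.e (nat_lit 187687) (nat_lit 0) .nil) .nil)))) (.nd (nat_lit 9) 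
(.lf (nat_lit 507227) (.g (nat_lit 1673) (.e (nat_lit 164368) (nat_lit 247) (.e (nat_lit 8318) (nat_lit 64) (.e (nat_lit 516150) (nat_lit 9) (.e (nat_lit 426323) (nat_lit 13) (.e (nat_lit 483332) (nat_lit 0) .nil))))) (.g (nat_lit 0) (.e (nat_lit 186989) (nat_lit 0) .nil) .nil))) 
(.lf (nat_lit 507739) (.g (nat_lit 803) (.e (nat_lit 164400) (nat_lit 256) (.e (nat_lit 57372) (nat_lit 2) (.e (nat_lit 90176) (nat_lit 15) (.e (nat_lit 188423) (nat_lit 11) .nil)))) (.g (nat_lit 0) (.e (nat_lit 187982) (nat_lit 0) .nil) .nil))))) (.nd (nat_lit 8) (.nd (nat_lit 9) 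
(.lf (nat_lit 507099) (.g (nat_lit 2780) (.e (nat_lit 164348) (nat_lit 240) (.e (nat_lit 2640) (nat_lit 165) (.e (nat_lit 180277) (nat_lit 32) (.e (nat_lit 1661) (nat_lit 115) (.e (nat_lit 393268) (nat_lit 23) (.e (nat_lit 433920) (nat_lit 1) .nil)))))) (.g (nat_lit 1) (.e (nat_lit 186497) (nat_lit 0) .nil) .nil))) 
(.lf (nat_lit 507611) (.g (nat_lit 1078) (.e (nat_lit 164399) (nat_lit 256) (.e (nat_lit 57378) (nat_lit 3) (.e (nat_lit 98365) (nat_lit 26) (.e (nat_lit 426188) (nat_lit 9) .nil)))) (.g (nat_lit 0) (.e (nat_lit 187844) (nat_lit 0) .nil) .nil)))) (.nd (nat_lit 9) 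
(.lf (nat_lit 507355) (.g (nat_lit 1832) (.e (nat_lit 164397) (nat_lit 256) (.e (nat_lit 57373) (nat_lit 2) (.e (nat_lit 90174) (nat_lit 14) (.e (nat_lit 180243) (nat_lit 5) .nil)))) (.g (nat_lit 0) (.e (nat_lit 187551) (nat_lit 0) .nil) .nil))) 
(.lf (nat_lit 507867) (.g (nat_lit 3824) (.e (nat_lit 164402) (nat_lit 256) (.e (nat_lit 57371) (nat_lit 2) (.e (nat_lit 90174) (nat_lit 14) (.e (nat_lit 180251) (nat_lit 10) (.e (nat_lit 573489) (nat_lit 14) (.e (nat_lit 73755) (nat_lit 8) (.e (nat_lit 557074) (nat_lit 9) (.e (nat_lit 2607) (nat_lit 163) .nil)))))))) (.g (nat_lit 1) (.e (nat_lit 188115) (nat_lit 0) .nil) .nil))))))) 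
(.nd (nat_lit 6) (.nd (nat_lit 7) (.nd (nat_lit 8) (.nd (nat_lit 9) 
(.lf (nat_lit 506939) (.g (nat_lit 2018) (.e (nat_lit 164345) (nat_lit 240) (.e (nat_lit 2638) (nat_lit 165) (.e (nat_lit 180277) (nat_lit 32) (.e (nat_lit 1660) (nat_lit 115) (.e (nat_lit 393275) (nat_lit 23) (.e (nat_lit 426109) (nat_lit 1) .nil)))))) (.g (nat_lit 1) (.e (nat_lit 185523) (nat_lit 0) .nil) .nil))) 
(.lf (nat_lit 507451) (.g (nat_lit 2113) (.e (nat_lit 164398) (nat_lit 256) (.e (nat_lit 57378) (nat_lit 3) (.e (nat_lit 98365) (nat_lit 26) (.e (nat_lit 426188) (nat_lit 9) (.e (nat_lit 426491) (nat_lit 27) .nil))))) (.g (nat_lit 0) (.e (nat_lit 187655) (nat_lit 0) .nil) .nil)))) (.nd (nat_lit 9) 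
(.lf (nat_lit 507195) (.g (nat_lit 1685) (.e (nat_lit 164359) (nat_lit 246) (.e (nat_lit 2679) (nat_lit 168) (.e (nat_lit 204868) (nat_lit 29) (.e (nat_lit 360466) (nat_lit 3) (.e (nat_lit 524032) (nat_lit 0) (.e (nat_lit 7108) (nat_lit 380) .nil)))))) (.g (nat_lit 1) (.e (nat_lit 186726) (nat_lit 0) .nil) .nil))) 
(.lf (nat_lit 507707) (.g (nat_lit 1505) (.e (nat_lit 164399) (nat_lit 256) (.e (nat_lit 57411) (nat_lit 12) (.e (nat_lit 336443) (nat_lit 32) (.e (nat_lit 466979) (nat_lit 23) (.e (nat_lit 204810) (nat_lit 9) .nil))))) (.g (nat_lit 0) (.e (nat_lit 187946) (nat_lit 0) .nil) .nil))))) (.nd (nat_lit 8) (.nd (nat_lit 9) 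
(.lf (nat_lit 507067) (.g (nat_lit 2482) (.e (nat_lit 164348) (nat_lit 240) (.e (nat_lit 2610) (nat_lit 163) (.e (nat_lit 163978) (nat_lit 30) (.e (nat_lit 573479) (nat_lit 13) (.e (nat_lit 65619) (nat_lit 10) .nil))))) (.g (nat_lit 0) (.e (nat_lit 186393) (nat_lit 0) .nil) .nil))) 
(.lf (nat_lit 507579) (.g (nat_lit 2191) (.e (nat_lit 164399) (nat_lit 256) (.e (nat_lit 57377) (nat_lit 3) (.e (nat_lit 98359) (nat_lit 26) (.e (nat_lit 426324) (nat_lit 13) (.e (nat_lit 483341) (nat_lit 9) .nil))))) (.g (nat_lit 0) (.e (nat_lit 187798) (nat_lit 0) .nil) .nil)))) (.nd (nat_lit 9) 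
(.lf (nat_lit 507323) (.g (nat_lit 1997) (.e (nat_lit 164396) (nat_lit 256) (.e (nat_lit 57409) (nat_lit 12) (.e (nat_lit 336443) (nat_lit 32) (.e (nat_lit 466974) (nat_lit 22) .nil)))) (.g (nat_lit 0) (.e (nat_lit 187519) (nat_lit 0) .nil) .nil))) 
(.lf (nat_lit 507835) (.g (nat_lit 2704) (.e (nat_lit 164401) (nat_lit 256) (.e (nat_lit 57378) (nat_lit 3) (.e (nat_lit 98368) (nat_lit 27) (.e (nat_lit 434245) (nat_lit 28) (.e (nat_lit 573488) (nat_lit 14) (.e (nat_lit 73755) (nat_lit 8) (.e (nat_lit 557067) (nat_lit 9) (.e (nat_lit 2604) (nat_lit 163) .nil)))))))) (.g (nat_lit 1) (.e (nat_lit 188081) (nat_lit 0) .nil) .nil)))))) 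
(.nd (nat_lit 7) (.nd (nat_lit 8) (.nd (nat_lit 9) 
(.lf (nat_lit 507003) (.g (nat_lit 2773) (.e (nat_lit 164347) (nat_lit 240) (.e (nat_lit 2611) (nat_lit 163) (.e (nat_lit 163978) (nat_lit 30) (.e (nat_lit 573479) (nat_lit 13) (.e (nat_lit 65619) (nat_lit 10) .nil))))) (.g (nat_lit 0) (.e (nat_lit 185988) (nat_lit 0) .nil) .nil))) 
(.lf (nat_lit 507515) (.g (nat_lit 1758) (.e (nat_lit 164399) (nat_lit 256) (.e (nat_lit 57370) (nat_lit 2) (.e (nat_lit 90172) (nat_lit 14) (.e (nat_lit 180244) (nat_lit 5) (.e (nat_lit 532514) (nat_lit 3) .nil))))) (.g (nat_lit 0) (.e (nat_lit 187723) (nat_lit 0) .nil) .nil)))) (.nd (nat_lit 9) 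
(.lf (nat_lit 507259) (.g (nat_lit 2999) (.e (nat_lit 164396) (nat_lit 256) (.e (nat_lit 57371) (nat_lit 2) (.e (nat_lit 90174) (nat_lit 14) (.e (nat_lit 180243) (nat_lit 5) (.e (nat_lit 532515) (nat_lit 3) (.e (nat_lit 114716) (nat_lit 22) (.e (nat_lit 90129) (nat_lit 9) (.e (nat_lit 2604) (nat_lit 163) .nil)))))))) (.g (nat_lit 1) (.e (nat_lit 187454) (nat_lit 0) .nil) .nil))) 
(.lf (nat_lit 507771) (.g (nat_lit 1829) (.e (nat_lit 164400) (nat_lit 256) (.e (nat_lit 57379) (nat_lit 3) (.e (nat_lit 98365) (nat_lit 26) (.e (nat_lit 426187) (nat_lit 9) (.e (nat_lit 426568) (nat_lit 34) .nil))))) (.g (nat_lit 0) (.e (nat_lit 188014) (nat_lit 0) .nil) .nil))))) (.nd (nat_lit 8) (.nd (nat_lit 9) 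
(.lf (nat_lit 507131) (.g (nat_lit 634) (.e (nat_lit 164353) (nat_lit 246) (.e (nat_lit 351) (nat_lit 28) (.e (nat_lit 393279) (nat_lit 23) (.e (nat_lit 426429) (nat_lit 17) .nil)))) (.g (nat_lit 0) (.e (nat_lit 186648) (nat_lit 0) .nil) .nil))) 
(.lf (nat_lit 507643) (.g (nat_lit 2200) (.e (nat_lit 164399) (nat_lit 256) (.e (nat_lit 57379) (nat_lit 3) (.e (nat_lit 98359) (nat_lit 26) (.e (nat_lit 426324) (nat_lit 13) (.e (nat_lit 483341) (nat_lit 9) .nil))))) (.g (nat_lit 0) (.e (nat_lit 187876) (nat_lit 0) .nil) .nil)))) (.nd (nat_lit 9) 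
(.lf (nat_lit 507387) (.g (nat_lit 1439) (.e (nat_lit 164397) (nat_lit 256) (.e (nat_lit 57411) (nat_lit 12) (.e (nat_lit 336443) (nat_lit 32) (.e (nat_lit 466974) (nat_lit 22) .nil)))) (.g (nat_lit 0) (.e (nat_lit 187583) (nat_lit 0) .nil) .nil))) 
(.lf (nat_lit 507899) (.g (nat_lit 2205) (.e (nat_lit 164402) (nat_lit 256) (.e (nat_lit 57378) (nat_lit 3) (.e (nat_lit 98358) (nat_lit 26) (.e (nat_lit 426131) (nat_lit 3) (.e (nat_lit 204837) (nat_lit 20) .nil))))) (.g (nat_lit 0) (.e (nat_lit 188149) (nat_lit 0) .nil) .nil)))))))))) 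
(.nd (nat_lit 3) (.nd (nat_lit 4) (.nd (nat_lit 5) (.nd (nat_lit 6) (.nd (nat_lit 7) 
(.nd (nat_lit 8) (.nd (nat_lit 9) 
(.lf (nat_lit 506887) (.g (nat_lit 1675) (.e (nat_lit 164319) (nat_lit 228) (.e (nat_lit 57412) (nat_lit 12) (.e (nat_lit 336173) (nat_lit 10) (.e (nat_lit 344156) (nat_lit 36) (.e (nat_lit 639001) (nat_lit 10) .nil))))) (.g (nat_lit 0) (.e (nat_lit 185255) (nat_lit 0) .nil) .nil))) 
(.lf (nat_lit 507399) (.g (nat_lit 638) (.e (nat_lit 164398) (nat_lit 256) (.e (nat_lit 57372) (nat_lit 2) (.e (nat_lit 90170) (nat_lit 13) .nil))) (.g (nat_lit 0) (.e (nat_lit 187596) (nat_lit 0) .nil) .nil)))) (.nd (nat_lit 9) 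
(.lf (nat_lit 507143) (.g (nat_lit 1208) (.e (nat_lit 164356) (nat_lit 246) (.e (nat_lit 112) (nat_lit 3) (.e (nat_lit 98381) (nat_lit 31) (.e (nat_lit 466954) (nat_lit 11) (.e (nat_lit 336287) (nat_lit 15) .nil))))) (.g (nat_lit 0) (.e (nat_lit 186664) (nat_lit 0) .nil) .nil))) 
(.lf (nat_lit 507655) (.g (nat_lit 1343) (.e (nat_lit 164399) (nat_lit 256) (.e (nat_lit 57379) (nat_lit 3) (.e (nat_lit 98365) (nat_lit 26) (.e (nat_lit 426326) (nat_lit 13) .nil)))) (.g (nat_lit 0) (.e (nat_lit 187888) (nat_lit 0) .nil) .nil))))) (.nd (nat_lit 8) (.nd (nat_lit 9) 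
(.lf (nat_lit 507015) (.g (nat_lit 450) (.e (nat_lit 164347) (nat_lit 240) (.e (nat_lit 2619) (nat_lit 164) (.e (nat_lit 172126) (nat_lit 14) .nil))) (.g (nat_lit 0) (.e (nat_lit 186071) (nat_lit 0) .nil) .nil))) 
(.lf (nat_lit 507527) (.g (nat_lit 1323) (.e (nat_lit 164399) (nat_lit 256) (.e (nat_lit 57372) (nat_lit 2) (.e (nat_lit 90167) (nat_lit 13) (.e (nat_lit 172121) (nat_lit 13) (.e (nat_lit 483337) (nat_lit 9) .nil))))) (.g (nat_lit 0) (.e (nat_lit 187744) (nat_lit 0) .nil) .nil)))) (.nd (nat_lit 9) 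
(.lf (nat_lit 507271) (.g (nat_lit 916) (.e (nat_lit 164396) (nat_lit 256) (.e (nat_lit 57372) (nat_lit 2) (.e (nat_lit 90167) (nat_lit 13) .nil))) (.g (nat_lit 0) (.e (nat_lit 187466) (nat_lit 0) .nil) .nil))) 
(.lf (nat_lit 507783) (.g (nat_lit 2067) (.e (nat_lit 164400) (nat_lit 256) (.e (nat_lit 57411) (nat_lit 12) (.e (nat_lit 336443) (nat_lit 32) (.e (nat_lit 466974) (nat_lit 22) (.e (nat_lit 196654) (nat_lit 11) .nil))))) (.g (nat_lit 0) (.e (nat_lit 188026) (nat_lit 0) .nil) .nil)))))) (.nd (nat_lit 7) (.nd (nat_lit 8) (.nd (nat_lit 9) 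
(.lf (nat_lit 506951) (.g (nat_lit 1386) (.e (nat_lit 164345) (nat_lit 240) (.e (nat_lit 2640) (nat_lit 165) (.e (nat_lit 180278) (nat_lit 32) (.e (nat_lit 1660) (nat_lit 115) (.e (nat_lit 393275) (nat_lit 23) .nil))))) (.g (nat_lit 0) (.e (nat_lit 185553) (nat_lit 0) .nil) .nil))) 
(.lf (nat_lit 507463) (.g (nat_lit 819) (.e (nat_lit 164398) (nat_lit 256) (.e (nat_lit 57379) (nat_lit 3) (.e (nat_lit 98357) (nat_lit 26) .nil))) (.g (nat_lit 0) (.e (nat_lit 187667) (nat_lit 0) .nil) .nil)))) (.nd (nat_lit 9) 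
(.lf (nat_lit 507207) (.g (nat_lit 463) (.e (nat_lit 164359) (nat_lit 246) (.e (nat_lit 3085) (nat_lit 191) (.e (nat_lit 483395) (nat_lit 24) .nil))) (.g (nat_lit 0) (.e (nat_lit 186771) (nat_lit 0) .nil) .nil))) 
(.lf (nat_lit 507719) (.g (nat_lit 835) (.e (nat_lit 164399) (nat_lit 256) (.e (nat_lit 57447) (nat_lit 19) (.e (nat_lit 393268) (nat_lit 23) .nil))) (.g (nat_lit 0) (.e (nat_lit 187961) (nat_lit 0) .nil) .nil))))) (.nd (nat_lit 8) (.nd (nat_lit 9) 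
(.lf (nat_lit 507079) (.g (nat_lit 5755) (.e (nat_lit 164348) (nat_lit 240) (.e (nat_lit 2610) (nat_lit 163) (.e (nat_lit 163979) (nat_lit 30) (.e (nat_lit 573493) (nat_lit 15) (.e (nat_lit 81956) (nat_lit 23) (.e (nat_lit 98362) (nat_lit 26) (.e (nat_lit 426103) (nat_lit 1) .nil))))))) (.g (nat_lit 1) (.e (nat_lit 186405) (nat_lit 0) .nil) .nil))) 
(.lf (nat_lit 507591) (.g (nat_lit 758) (.e (nat_lit 164399) (nat_lit 256) (.e (nat_lit 57377) (nat_lit 3) (.e (nat_lit 98380) (nat_lit 31) .nil))) (.g (nat_lit 0) (.e (nat_lit 187823) (nat_lit 0) .nil) .nil)))) (.nd (nat_lit 9) 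
(.lf (nat_lit 507335) (.g (nat_lit 2160) (.e (nat_lit 164397) (nat_lit 256) (.e (nat_lit 57371) (nat_lit 2) (.e (nat_lit 90174) (nat_lit 14) (.e (nat_lit 180243) (nat_lit 5) (.e (nat_lit 532515) (nat_lit 3) .nil))))) (.g (nat_lit 0) (.e (nat_lit 187531) (nat_lit 0) .nil) .nil))) 
(.lf (nat_lit 507847) (.g (nat_lit 1762) (.e (nat_lit 164401) (nat_lit 256) (.e (nat_lit 57409) (nat_lit 12) (.e (nat_lit 336426) (nat_lit 29) (.e (nat_lit 442427) (nat_lit 23) (.e (nat_lit 204809) (nat_lit 9) .nil))))) (.g (nat_lit 0) (.e (nat_lit 188093) (nat_lit 0) .nil) .nil))))))) (.nd (nat_lit 6) (.nd (nat_lit 7) (.nd (nat_lit 8) (.nd (nat_lit 9) 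
(.lf (nat_lit 506919) (.g (nat_lit 1429) (.e (nat_lit 164345) (nat_lit 240) (.e (nat_lit 2618) (nat_lit 164) (.e (nat_lit 172118) (nat_lit 12) (.e (nat_lit 475198) (nat_lit 40) (.e (nat_lit 704599) (nat_lit 6) .nil))))) (.g (nat_lit 0) (.e (nat_lit 185351) (nat_lit 0) .nil) .nil))) 
(.lf (nat_lit 507431) (.g (nat_lit 1613) (.e (nat_lit 164398) (nat_lit 256) (.e (nat_lit 57374) (nat_lit 2) (.e (nat_lit 90170) (nat_lit 13) (.e (nat_lit 172123) (nat_lit 13) .nil)))) (.g (nat_lit 0) (.e (nat_lit 187630) (nat_lit 0) .nil) .nil)))) (.nd (nat_lit 9) 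
(.lf (nat_lit 507175) (.g (nat_lit 1243) (.e (nat_lit 164358) (nat_lit 246) (.e (nat_lit 355) (nat_lit 29) (.e (nat_lit 401454) (nat_lit 12) (.e (nat_lit 475209) (nat_lit 41) .nil)))) (.g (nat_lit 0) (.e (nat_lit 186703) (nat_lit 0) .nil) .nil))) 
(.lf (nat_lit 507687) (.g (nat_lit 2480) (.e (nat_lit 164399) (nat_lit 256) (.e (nat_lit 57407) (nat_lit 12) (.e (nat_lit 336433) (nat_lit 30) (.e (nat_lit 450588) (nat_lit 10) (.e (nat_lit 581376) (nat_lit 0) .nil))))) (.g (nat_lit 0) (.e (nat_lit 187926) (nat_lit 0) .nil) .nil))))) (.nd (nat_lit 8) (.nd (nat_lit 9) 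
(.lf (nat_lit 507047) (.g (nat_lit 553) (.e (nat_lit 164347) (nat_lit 240) (.e (nat_lit 2649) (nat_lit 166) (.e (nat_lit 188427) (nat_lit 20) .nil))) (.g (nat_lit 0) (.e (nat_lit 186268) (nat_lit 0) .nil) .nil))) 
(.lf (nat_lit 507559) (.g (nat_lit 2912) (.e (nat_lit 164399) (nat_lit 256) (.e (nat_lit 57373) (nat_lit 2) (.e (nat_lit 90174) (nat_lit 14) (.e (nat_lit 180251) (nat_lit 10) (.e (nat_lit 573489) (nat_lit 14) (.e (nat_lit 73755) (nat_lit 8) (.e (nat_lit 557067) (nat_lit 9) (.e (nat_lit 7936) (nat_lit 163) .nil)))))))) (.g (nat_lit 1) (.e (nat_lit 187777) (nat_lit 0) .nil) .nil)))) 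
(.nd (nat_lit 9) 
(.lf (nat_lit 507303) (.g (nat_lit 2088) (.e (nat_lit 164396) (nat_lit 256) (.e (nat_lit 57378) (nat_lit 3) (.e (nat_lit 98365) (nat_lit 26) (.e (nat_lit 426325) (nat_lit 13) .nil)))) (.g (nat_lit 0) (.e (nat_lit 187499) (nat_lit 0) .nil) .nil))) 
(.lf (nat_lit 507815) (.g (nat_lit 1002) (.e (nat_lit 164401) (nat_lit 256) (.e (nat_lit 57377) (nat_lit 3) (.e (nat_lit 98365) (nat_lit 26) (.e (nat_lit 426325) (nat_lit 13) .nil)))) (.g (nat_lit 0) (.e (nat_lit 188058) (nat_lit 0) .nil) .nil)))))) (.nd (nat_lit 7) (.nd (nat_lit 8) (.nd (nat_lit 9) 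
(.lf (nat_lit 506983) (.g (nat_lit 1929) (.e (nat_lit 164346) (nat_lit 240) (.e (nat_lit 2638) (nat_lit 165) (.e (nat_lit 180278) (nat_lit 32) (.e (nat_lit 1659) (nat_lit 115) (.e (nat_lit 393277) (nat_lit 23) (.e (nat_lit 426109) (nat_lit 1) .nil)))))) (.g (nat_lit 1) (.e (nat_lit 185844) (nat_lit 0) .nil) .nil))) 
(.lf (nat_lit 507495) (.g (nat_lit 1323) (.e (nat_lit 164398) (nat_lit 256) (.e (nat_lit 57411) (nat_lit 12) (.e (nat_lit 336426) (nat_lit 29) (.e (nat_lit 442427) (nat_lit 23) .nil)))) (.g (nat_lit 0) (.e (nat_lit 187699) (nat_lit 0) .nil) .nil)))) (.nd (nat_lit 9) 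
(.lf (nat_lit 507239) (.g (nat_lit 1911) (.e (nat_lit 164377) (nat_lit 253) (.e (nat_lit 237636) (nat_lit 27) (.e (nat_lit 336231) (nat_lit 14) (.e (nat_lit 401444) (nat_lit 9) (.e (nat_lit 433920) (nat_lit 15) .nil))))) (.g (nat_lit 0) (.e (nat_lit 187425) (nat_lit 0) .nil) .nil))) 
(.lf (nat_lit 507751) (.g (nat_lit 2259) (.e (nat_lit 164400) (nat_lit 256) (.e (nat_lit 57374) (nat_lit 2) (.e (nat_lit 90170) (nat_lit 13) (.e (nat_lit 172121) (nat_lit 13) .nil)))) (.g (nat_lit 0) (.e (nat_lit 187994) (nat_lit 0) .nil) .nil))))) (.nd (nat_lit 8) (.nd (nat_lit 9) 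
(.lf (nat_lit 507111) (.g (nat_lit 1240) (.e (nat_lit 164351) (nat_lit 246) (.e (nat_lit 226) (nat_lit 21) (.e (nat_lit 336432) (nat_lit 30) (.e (nat_lit 450580) (nat_lit 5) .nil)))) (.g (nat_lit 0) (.e (nat_lit 186575) (nat_lit 0) .nil) .nil))) 
(.lf (nat_lit 507623) (.g (nat_lit 3039) (.e (nat_lit 164399) (nat_lit 256) (.e (nat_lit 57378) (nat_lit 3) (.e (nat_lit 98367) (nat_lit 27) (.e (nat_lit 434231) (nat_lit 23) (.e (nat_lit 532513) (nat_lit 3) (.e (nat_lit 114708) (nat_lit 20) (.e (nat_lit 1800) (nat_lit 119) (.e (nat_lit 516117) (nat_lit 1) .nil)))))))) (.g (nat_lit 1) (.e (nat_lit 187856) (nat_lit 0) .nil) .nil)))) 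
(.nd (nat_lit 9) 
(.lf (nat_lit 507367) (.g (nat_lit 1081) (.e (nat_lit 164397) (nat_lit 256) (.e (nat_lit 57375) (nat_lit 2) (.e (nat_lit 90176) (nat_lit 15) (.e (nat_lit 196352) (nat_lit 11) .nil)))) (.g (nat_lit 0) (.e (nat_lit 187563) (nat_lit 0) .nil) .nil))) 
(.lf (nat_lit 507879) (.g (nat_lit 2319) (.e (nat_lit 164402) (nat_lit 256) (.e (nat_lit 57373) (nat_lit 2) (.e (nat_lit 90174) (nat_lit 14) (.e (nat_lit 180243) (nat_lit 5) (.e (nat_lit 532508) (nat_lit 2) .nil))))) (.g (nat_lit 0) (.e (nat_lit 188127) (nat_lit 0) .nil) .nil)))))))) (.nd (nat_lit 5) (.nd (nat_lit 6) (.nd (nat_lit 7) (.nd (nat_lit 8) (.nd (nat_lit 9) 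
(.lf (nat_lit 506903) (.g (nat_lit 2018) (.e (nat_lit 164321) (nat_lit 229) (.e (nat_lit 122916) (nat_lit 14) (.e (nat_lit 352309) (nat_lit 21) (.e (nat_lit 57858) (nat_lit 255) .nil)))) (.g (nat_lit 0) (.e (nat_lit 185288) (nat_lit 0) .nil) .nil))) 
(.lf (nat_lit 507415) (.g (nat_lit 2027) (.e (nat_lit 164398) (nat_lit 256) (.e (nat_lit 57373) (nat_lit 2) (.e (nat_lit 90174) (nat_lit 14) (.e (nat_lit 180243) (nat_lit 5) (.e (nat_lit 532513) (nat_lit 3) (.e (nat_lit 114714) (nat_lit 22) (.e (nat_lit 90133) (nat_lit 9) (.e (nat_lit 2613) (nat_lit 163) .nil)))))))) (.g (nat_lit 1) (.e (nat_lit 187613) (nat_lit 0) .nil) .nil)))) (.nd (nat_lit 9) 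
(.lf (nat_lit 507159) (.g (nat_lit 928) (.e (nat_lit 164358) (nat_lit 246) (.e (nat_lit 226) (nat_lit 21) (.e (nat_lit 336430) (nat_lit 29) (.e (nat_lit 450304) (nat_lit 2) .nil)))) (.g (nat_lit 0) (.e (nat_lit 186683) (nat_lit 0) .nil) .nil))) 
(.lf (nat_lit 507671) (.g (nat_lit 2261) (.e (nat_lit 164399) (nat_lit 256) (.e (nat_lit 57388) (nat_lit 5) (.e (nat_lit 114714) (nat_lit 22) (.e (nat_lit 90158) (nat_lit 11) (.e (nat_lit 24653) (nat_lit 12) (.e (nat_lit 385066) (nat_lit 26) (.e (nat_lit 540416) (nat_lit 18) .nil))))))) (.g (nat_lit 1) (.e (nat_lit 187904) (nat_lit 0) .nil) .nil))))) (.nd (nat_lit 8) (.nd (nat_lit 9) 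
(.lf (nat_lit 507031) (.g (nat_lit 1136) (.e (nat_lit 164347) (nat_lit 240) (.e (nat_lit 2638) (nat_lit 165) (.e (nat_lit 180278) (nat_lit 32) (.e (nat_lit 1658) (nat_lit 115) (.e (nat_lit 393277) (nat_lit 23) .nil))))) (.g (nat_lit 0) (.e (nat_lit 186221) (nat_lit 0) .nil) .nil))) 
(.lf (nat_lit 507543) (.g (nat_lit 925) (.e (nat_lit 164399) (nat_lit 256) (.e (nat_lit 57372) (nat_lit 2) (.e (nat_lit 90176) (nat_lit 15) (.e (nat_lit 188423) (nat_lit 11) .nil)))) (.g (nat_lit 0) (.e (nat_lit 187760) (nat_lit 0) .nil) .nil)))) (.nd (nat_lit 9) 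
(.lf (nat_lit 507287) (.g (nat_lit 927) (.e (nat_lit 164396) (nat_lit 256) (.e (nat_lit 57375) (nat_lit 2) (.e (nat_lit 90169) (nat_lit 13) .nil))) (.g (nat_lit 0) (.e (nat_lit 187482) (nat_lit 0) .nil) .nil))) 
(.lf (nat_lit 507799) (.g (nat_lit 2008) (.e (nat_lit 164401) (nat_lit 256) (.e (nat_lit 57373) (nat_lit 2) (.e (nat_lit 90174) (nat_lit 14) (.e (nat_lit 180243) (nat_lit 5) (.e (nat_lit 532508) (nat_lit 2) .nil))))) (.g (nat_lit 0) (.e (nat_lit 188042) (nat_lit 0) .nil) .nil)))))) (.nd (nat_lit 7) (.nd (nat_lit 8) (.nd (nat_lit 9) 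
(.lf (nat_lit 506967) (.g (nat_lit 1127) (.e (nat_lit 164346) (nat_lit 240) (.e (nat_lit 2619) (nat_lit 164) (.e (nat_lit 172119) (nat_lit 12) (.e (nat_lit 475198) (nat_lit 40) .nil)))) (.g (nat_lit 0) (.e (nat_lit 185761) (nat_lit 0) .nil) .nil))) 
(.lf (nat_lit 507479) (.g (nat_lit 819) (.e (nat_lit 164398) (nat_lit 256) (.e (nat_lit 57379) (nat_lit 3) (.e (nat_lit 98382) (nat_lit 31) .nil))) (.g (nat_lit 0) (.e (nat_lit 187683) (nat_lit 0) .nil) .nil)))) (.nd (nat_lit 9) 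
(.lf (nat_lit 507223) (.g (nat_lit 2088) (.e (nat_lit 164365) (nat_lit 246) (.e (nat_lit 3067) (nat_lit 190) (.e (nat_lit 475207) (nat_lit 41) (.e (nat_lit 712755) (nat_lit 30) (.e (nat_lit 450597) (nat_lit 17) (.e (nat_lit 671488) (nat_lit 17) .nil)))))) (.g (nat_lit 1) (.e (nat_lit 186900) (nat_lit 0) .nil) .nil))) 
(.lf (nat_lit 507735) (.g (nat_lit 2679) (.e (nat_lit 164400) (nat_lit 256) (.e (nat_lit 57372) (nat_lit 2) (.e (nat_lit 90174) (nat_lit 14) (.e (nat_lit 180243) (nat_lit 5) (.e (nat_lit 532511) (nat_lit 2) .nil))))) (.g (nat_lit 0) (.e (nat_lit 187978) (nat_lit 0) .nil) .nil))))) (.nd (nat_lit 8) (.nd (nat_lit 9) 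
(.lf (nat_lit 507095) (.g (nat_lit 2226) (.e (nat_lit 164348) (nat_lit 240) (.e (nat_lit 2638) (nat_lit 165) (.e (nat_lit 180278) (nat_lit 32) (.e (nat_lit 1661) (nat_lit 115) (.e (nat_lit 393277) (nat_lit 23) (.e (nat_lit 426103) (nat_lit 1) .nil)))))) (.g (nat_lit 1) (.e (nat_lit 186491) (nat_lit 0) .nil) .nil))) 
(.lf (nat_lit 507607) (.g (nat_lit 1676) (.e (nat_lit 164399) (nat_lit 256) (.e (nat_lit 57378) (nat_lit 3) (.e (nat_lit 98359) (nat_lit 26) (.e (nat_lit 426330) (nat_lit 13) (.e (nat_lit 483341) (nat_lit 9) .nil))))) (.g (nat_lit 0) (.e (nat_lit 187840) (nat_lit 0) .nil) .nil)))) (.nd (nat_lit 9) 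
(.lf (nat_lit 507351) (.g (nat_lit 1946) (.e (nat_lit 164397) (nat_lit 256) (.e (nat_lit 57373) (nat_lit 2) (.e (nat_lit 90170) (nat_lit 13) (.e (nat_lit 172067) (nat_lit 3) .nil)))) (.g (nat_lit 0) (.e (nat_lit 187547) (nat_lit 0) .nil) .nil))) 
(.lf (nat_lit 507863) (.g (nat_lit 2806) (.e (nat_lit 164402) (nat_lit 256) (.e (nat_lit 57371) (nat_lit 2) (.e (nat_lit 90174) (nat_lit 14) (.e (nat_lit 180243) (nat_lit 5) (.e (nat_lit 532515) (nat_lit 3) (.e (nat_lit 114716) (nat_lit 22) (.e (nat_lit 90129) (nat_lit 9) (.e (nat_lit 2603) (nat_lit 163) .nil)))))))) (.g (nat_lit 1) (.e (nat_lit 188111) (nat_lit 0) .nil) .nil))))))) 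
(.nd (nat_lit 6) (.nd (nat_lit 7) (.nd (nat_lit 8) (.nd (nat_lit 9) 
(.lf (nat_lit 506935) (.g (nat_lit 462) (.e (nat_lit 164345) (nat_lit 240) (.e (nat_lit 2638) (nat_lit 165) (.e (nat_lit 180277) (nat_lit 32) .nil))) (.g (nat_lit 0) (.e (nat_lit 185518) (nat_lit 0) .nil) .nil))) 
(.lf (nat_lit 507447) (.g (nat_lit 1751) (.e (nat_lit 164398) (nat_lit 256) (.e (nat_lit 57378) (nat_lit 3) (.e (nat_lit 98359) (nat_lit 26) (.e (nat_lit 426329) (nat_lit 13) .nil)))) (.g (nat_lit 0) (.e (nat_lit 187649) (nat_lit 0) .nil) .nil)))) (.nd (nat_lit 9) 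
(.lf (nat_lit 507191) (.g (nat_lit 2004) (.e (nat_lit 164359) (nat_lit 246) (.e (nat_lit 2679) (nat_lit 168) (.e (nat_lit 204868) (nat_lit 29) (.e (nat_lit 360466) (nat_lit 3) (.e (nat_lit 516100) (nat_lit 0) (.e (nat_lit 7936) (nat_lit 380) .nil)))))) (.g (nat_lit 1) (.e (nat_lit 186722) (nat_lit 0) .nil) .nil))) 
(.lf (nat_lit 507703) (.g (nat_lit 1585) (.e (nat_lit 164399) (nat_lit 256) (.e (nat_lit 57410) (nat_lit 12) (.e (nat_lit 336443) (nat_lit 32) (.e (nat_lit 466981) (nat_lit 23) (.e (nat_lit 204812) (nat_lit 9) .nil))))) (.g (nat_lit 0) (.e (nat_lit 187942) (nat_lit 0) .nil) .nil))))) (.nd (nat_lit 8) (.nd (nat_lit 9) 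
(.lf (nat_lit 507063) (.g (nat_lit 4478) (.e (nat_lit 164348) (nat_lit 240) (.e (nat_lit 2610) (nat_lit 163) (.e (nat_lit 163977) (nat_lit 30) (.e (nat_lit 573493) (nat_lit 15) (.e (nat_lit 81953) (nat_lit 22) (.e (nat_lit 90170) (nat_lit 13) (.e (nat_lit 172059) (nat_lit 1) .nil))))))) (.g (nat_lit 1) (.e (nat_lit 186389) (nat_lit 0) .nil) .nil))) 
(.lf (nat_lit 507575) (.g (nat_lit 901) (.e (nat_lit 164399) (nat_lit 256) (.e (nat_lit 57377) (nat_lit 3) (.e (nat_lit 98354) (nat_lit 26) .nil))) (.g (nat_lit 0) (.e (nat_lit 187794) (nat_lit 0) .nil) .nil)))) (.nd (nat_lit 9) 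
(.lf (nat_lit 507319) (.g (nat_lit 1153) (.e (nat_lit 164396) (nat_lit 256) (.e (nat_lit 57407) (nat_lit 12) (.e (nat_lit 336434) (nat_lit 30) .nil))) (.g (nat_lit 0) (.e (nat_lit 187515) (nat_lit 0) .nil) .nil))) 
(.lf (nat_lit 507831) (.g (nat_lit 1805) (.e (nat_lit 164401) (nat_lit 256) (.e (nat_lit 57378) (nat_lit 3) (.e (nat_lit 98365) (nat_lit 26) (.e (nat_lit 426325) (nat_lit 13) (.e (nat_lit 483341) (nat_lit 9) .nil))))) (.g (nat_lit 0) (.e (nat_lit 188077) (nat_lit 0) .nil) .nil)))))) (.nd (nat_lit 7) (.nd (nat_lit 8) (.nd (nat_lit 9) 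
(.lf (nat_lit 506999) (.g (nat_lit 2872) (.e (nat_lit 164347) (nat_lit 240) (.e (nat_lit 2610) (nat_lit 163) (.e (nat_lit 163979) (nat_lit 30) (.e (nat_lit 573493) (nat_lit 15) (.e (nat_lit 81951) (nat_lit 22) .nil))))) (.g (nat_lit 0) (.e (nat_lit 185979) (nat_lit 0) .nil) .nil))) 
(.lf (nat_lit 507511) (.g (nat_lit 2285) (.e (nat_lit 164399) (nat_lit 256) (.e (nat_lit 57370) (nat_lit 2) (.e (nat_lit 90170) (nat_lit 13) (.e (nat_lit 172065) (nat_lit 3) (.e (nat_lit 204838) (nat_lit 20) .nil))))) (.g (nat_lit 0) (.e (nat_lit 187719) (nat_lit 0) .nil) .nil)))) (.nd (nat_lit 9) 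
(.lf (nat_lit 507255) (.g (nat_lit 2030) (.e (nat_lit 164396) (nat_lit 256) (.e (nat_lit 57371) (nat_lit 2) (.e (nat_lit 90174) (nat_lit 14) (.e (nat_lit 180243) (nat_lit 5) (.e (nat_lit 532513) (nat_lit 3) (.e (nat_lit 114714) (nat_lit 22) (.e (nat_lit 90137) (nat_lit 9) (.e (nat_lit 2607) (nat_lit 163) .nil)))))))) (.g (nat_lit 1) (.e (nat_lit 187450) (nat_lit 0) .nil) .nil))) 
(.lf (nat_lit 507767) (.g (nat_lit 862) (.e (nat_lit 164400) (nat_lit 256) (.e (nat_lit 57378) (nat_lit 3) (.e (nat_lit 98365) (nat_lit 26) .nil))) (.g (nat_lit 0) (.e (nat_lit 188010) (nat_lit 0) .nil) .nil))))) (.nd (nat_lit 8) (.nd (nat_lit 9) 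
(.lf (nat_lit 507127) (.g (nat_lit 2005) (.e (nat_lit 164353) (nat_lit 246) (.e (nat_lit 351) (nat_lit 28) (.e (nat_lit 393271) (nat_lit 23) (.e (nat_lit 426428) (nat_lit 17) (.e (nat_lit 90203) (nat_lit 21) .nil))))) (.g (nat_lit 0) (.e (nat_lit 186644) (nat_lit 0) .nil) .nil))) 
(.lf (nat_lit 507639) (.g (nat_lit 1202) (.e (nat_lit 164399) (nat_lit 256) (.e (nat_lit 57378) (nat_lit 3) (.e (nat_lit 98382) (nat_lit 31) .nil))) (.g (nat_lit 0) (.e (nat_lit 187872) (nat_lit 0) .nil) .nil)))) (.nd (nat_lit 9) 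
(.lf (nat_lit 507383) (.g (nat_lit 1824) (.e (nat_lit 164397) (nat_lit 256) (.e (nat_lit 57409) (nat_lit 12) (.e (nat_lit 336443) (nat_lit 32) (.e (nat_lit 466977) (nat_lit 22) .nil)))) (.g (nat_lit 0) (.e (nat_lit 187579) (nat_lit 0) .nil) .nil))) 
(.lf (nat_lit 507895) (.g (nat_lit 1310) (.e (nat_lit 164402) (nat_lit 256) (.e (nat_lit 57377) (nat_lit 3) (.e (nat_lit 98365) (nat_lit 26) (.e (nat_lit 426334) (nat_lit 13) (.e (nat_lit 483341) (nat_lit 9) .nil))))) (.g (nat_lit 0) (.e (nat_lit 188143) (nat_lit 0) .nil) .nil))))))))) (.nd (nat_lit 4) (.nd (nat_lit 5) (.nd (nat_lit 6) (.nd (nat_lit 7) (.nd (nat_lit 8) (.nd (nat_lit 9) 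
(.lf (nat_lit 506895) (.g (nat_lit 1512) (.e (nat_lit 164319) (nat_lit 228) (.e (nat_lit 57412) (nat_lit 12) (.e (nat_lit 336176) (nat_lit 10) (.e (nat_lit 344164) (nat_lit 37) (.e (nat_lit 647195) (nat_lit 9) .nil))))) (.g (nat_lit 0) (.e (nat_lit 185263) (nat_lit 0) .nil) .nil))) 
(.lf (nat_lit 507407) (.g (nat_lit 1150) (.e (nat_lit 164398) (nat_lit 256) (.e (nat_lit 57372) (nat_lit 2) (.e (nat_lit 90176) (nat_lit 15) (.e (nat_lit 188423) (nat_lit 11) .nil)))) (.g (nat_lit 0) (.e (nat_lit 187604) (nat_lit 0) .nil) .nil)))) (.nd (nat_lit 9) 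
(.lf (nat_lit 507151) (.g (nat_lit 335) (.e (nat_lit 164356) (nat_lit 246) (.e (nat_lit 351) (nat_lit 28) (.e (nat_lit 393295) (nat_lit 26) .nil))) (.g (nat_lit 0) (.e (nat_lit 186673) (nat_lit 0) .nil) .nil))) 
(.lf (nat_lit 507663) (.g (nat_lit 1972) (.e (nat_lit 164399) (nat_lit 256) (.e (nat_lit 57379) (nat_lit 3) (.e (nat_lit 98367) (nat_lit 27) (.e (nat_lit 434234) (nat_lit 23) (.e (nat_lit 532515) (nat_lit 3) .nil))))) (.g (nat_lit 0) (.e (nat_lit 187896) (nat_lit 0) .nil) .nil))))) (.nd (nat_lit 8) (.nd (nat_lit 9) 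
(.lf (nat_lit 507023) (.g (nat_lit 1696) (.e (nat_lit 164347) (nat_lit 240) (.e (nat_lit 2638) (nat_lit 165) (.e (nat_lit 180277) (nat_lit 32) (.e (nat_lit 1428) (nat_lit 108) (.e (nat_lit 336426) (nat_lit 29) .nil))))) (.g (nat_lit 0) (.e (nat_lit 186210) (nat_lit 0) .nil) .nil))) 
(.lf (nat_lit 507535) (.g (nat_lit 2674) (.e (nat_lit 164399) (nat_lit 256) (.e (nat_lit 57372) (nat_lit 2) (.e (nat_lit 90173) (nat_lit 14) (.e (nat_lit 180252) (nat_lit 10) (.e (nat_lit 573489) (nat_lit 14) (.e (nat_lit 73755) (nat_lit 8) (.e (nat_lit 557067) (nat_lit 9) (.e (nat_lit 2602) (nat_lit 163) .nil)))))))) (.g (nat_lit 1) (.e (nat_lit 187752) (nat_lit 0) .nil) .nil)))) 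
(.nd (nat_lit 9) 
(.lf (nat_lit 507279) (.g (nat_lit 1483) (.e (nat_lit 164396) (nat_lit 256) (.e (nat_lit 57372) (nat_lit 2) (.e (nat_lit 90185) (nat_lit 17) (.e (nat_lit 237601) (nat_lit 9) .nil)))) (.g (nat_lit 0) (.e (nat_lit 187474) (nat_lit 0) .nil) .nil))) 
(.lf (nat_lit 507791) (.g (nat_lit 2024) (.e (nat_lit 164401) (nat_lit 256) (.e (nat_lit 57371) (nat_lit 2) (.e (nat_lit 90174) (nat_lit 14) (.e (nat_lit 180243) (nat_lit 5) (.e (nat_lit 532513) (nat_lit 3) .nil))))) (.g (nat_lit 0) (.e (nat_lit 188034) (nat_lit 0) .nil) .nil)))))) (.nd (nat_lit 7) (.nd (nat_lit 8) (.nd (nat_lit 9) 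
(.lf (nat_lit 506959) (.g (nat_lit 2768) (.e (nat_lit 164346) (nat_lit 240) (.e (nat_lit 2611) (nat_lit 163) (.e (nat_lit 163978) (nat_lit 30) (.e (nat_lit 573479) (nat_lit 13) (.e (nat_lit 65619) (nat_lit 10) .nil))))) (.g (nat_lit 0) (.e (nat_lit 185737) (nat_lit 0) .nil) .nil))) 
(.lf (nat_lit 507471) (.g (nat_lit 1409) (.e (nat_lit 164398) (nat_lit 256) (.e (nat_lit 57379) (nat_lit 3) (.e (nat_lit 98365) (nat_lit 26) (.e (nat_lit 426325) (nat_lit 13) .nil)))) (.g (nat_lit 0) (.e (nat_lit 187675) (nat_lit 0) .nil) .nil)))) (.nd (nat_lit 9) 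
(.lf (nat_lit 507215) (.g (nat_lit 2360) (.e (nat_lit 164362) (nat_lit 246) (.e (nat_lit 2679) (nat_lit 168) (.e (nat_lit 204878) (nat_lit 31) (.e (nat_lit 376865) (nat_lit 22) (.e (nat_lit 90181) (nat_lit 16) (.e (nat_lit 229577) (nat_lit 179) .nil)))))) (.g (nat_lit 1) (.e (nat_lit 186832) (nat_lit 0) .nil) .nil))) 
(.lf (nat_lit 507727) (.g (nat_lit 2327) (.e (nat_lit 164399) (nat_lit 256) (.e (nat_lit 57447) (nat_lit 19) (.e (nat_lit 393301) (nat_lit 27) (.e (nat_lit 491525) (nat_lit 0) (.e (nat_lit 1855) (nat_lit 124) .nil))))) (.g (nat_lit 0) (.e (nat_lit 187969) (nat_lit 0) .nil) .nil))))) (.nd (nat_lit 8) (.nd (nat_lit 9) 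
(.lf (nat_lit 507087) (.g (nat_lit 2112) (.e (nat_lit 164348) (nat_lit 240) (.e (nat_lit 2619) (nat_lit 164) (.e (nat_lit 172124) (nat_lit 14) (.e (nat_lit 491547) (nat_lit 9) (.e (nat_lit 336443) (nat_lit 32) .nil))))) (.g (nat_lit 0) (.e (nat_lit 186428) (nat_lit 0) .nil) .nil))) 
(.lf (nat_lit 507599) (.g (nat_lit 1477) (.e (nat_lit 164399) (nat_lit 256) (.e (nat_lit 57378) (nat_lit 3) (.e (nat_lit 98355) (nat_lit 26) (.e (nat_lit 426323) (nat_lit 13) .nil)))) (.g (nat_lit 0) (.e (nat_lit 187832) (nat_lit 0) .nil) .nil)))) (.nd (nat_lit 9) 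
(.lf (nat_lit 507343) (.g (nat_lit 1279) (.e (nat_lit 164397) (nat_lit 256) (.e (nat_lit 57371) (nat_lit 2) (.e (nat_lit 90178) (nat_lit 15) (.e (nat_lit 188421) (nat_lit 11) .nil)))) (.g (nat_lit 0) (.e (nat_lit 187539) (nat_lit 0) .nil) .nil))) 
(.lf (nat_lit 507855) (.g (nat_lit 715) (.e (nat_lit 164401) (nat_lit 256) (.e (nat_lit 57445) (nat_lit 19) (.e (nat_lit 393282) (nat_lit 24) .nil))) (.g (nat_lit 0) (.e (nat_lit 188101) (nat_lit 0) .nil) .nil))))))) (.nd (nat_lit 6) (.nd (nat_lit 7) (.nd (nat_lit 8) (.nd (nat_lit 9) 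
(.lf (nat_lit 506927) (.g (nat_lit 2026) (.e (nat_lit 164345) (nat_lit 240) (.e (nat_lit 2619) (nat_lit 164) (.e (nat_lit 172124) (nat_lit 14) (.e (nat_lit 491547) (nat_lit 9) (.e (nat_lit 336443) (nat_lit 32) .nil))))) (.g (nat_lit 0) (.e (nat_lit 185400) (nat_lit 0) .nil) .nil))) 
(.lf (nat_lit 507439) (.g (nat_lit 1966) (.e (nat_lit 164398) (nat_lit 256) (.e (nat_lit 57377) (nat_lit 3) (.e (nat_lit 98358) (nat_lit 26) (.e (nat_lit 426323) (nat_lit 13) .nil)))) (.g (nat_lit 0) (.e (nat_lit 187638) (nat_lit 0) .nil) .nil)))) (.nd (nat_lit 9) 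
(.lf (nat_lit 507183) (.g (nat_lit 2313) (.e (nat_lit 164359) (nat_lit 246) (.e (nat_lit 2661) (nat_lit 167) (.e (nat_lit 196666) (nat_lit 13) (.e (nat_lit 65617) (nat_lit 10) (.e (nat_lit 344132) (nat_lit 26) (.e (nat_lit 557073) (nat_lit 9) (.e (nat_lit 22) (nat_lit 0) (.e (nat_lit 6232) (nat_lit 335) .nil)))))))) (.g (nat_lit 1) (.e (nat_lit 186714) (nat_lit 0) .nil) .nil))) 
(.lf (nat_lit 507695) (.g (nat_lit 1488) (.e (nat_lit 164399) (nat_lit 256) (.e (nat_lit 57408) (nat_lit 12) (.e (nat_lit 336443) (nat_lit 32) (.e (nat_lit 466980) (nat_lit 23) (.e (nat_lit 204813) (nat_lit 9) .nil))))) (.g (nat_lit 0) (.e (nat_lit 187934) (nat_lit 0) .nil) .nil))))) (.nd (nat_lit 8) (.nd (nat_lit 9) 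
(.lf (nat_lit 507055) (.g (nat_lit 4683) (.e (nat_lit 164348) (nat_lit 240) (.e (nat_lit 2610) (nat_lit 163) (.e (nat_lit 163977) (nat_lit 30) (.e (nat_lit 573482) (nat_lit 13) (.e (nat_lit 65619) (nat_lit 10) (.e (nat_lit 344117) (nat_lit 21) (.e (nat_lit 516151) (nat_lit 9) (.e (nat_lit 426097) (nat_lit 1) .nil)))))))) (.g (nat_lit 1) (.e (nat_lit 186381) (nat_lit 0) .nil) .nil))) 
(.lf (nat_lit 507567) (.g (nat_lit 1257) (.e (nat_lit 164399) (nat_lit 256) (.e (nat_lit 57374) (nat_lit 2) (.e (nat_lit 90176) (nat_lit 15) (.e (nat_lit 188423) (nat_lit 11) .nil)))) (.g (nat_lit 0) (.e (nat_lit 187786) (nat_lit 0) .nil) .nil)))) (.nd (nat_lit 9) 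
(.lf (nat_lit 507311) (.g (nat_lit 1716) (.e (nat_lit 164396) (nat_lit 256) (.e (nat_lit 57379) (nat_lit 3) (.e (nat_lit 98365) (nat_lit 26) (.e (nat_lit 426326) (nat_lit 13) .nil)))) (.g (nat_lit 0) (.e (nat_lit 187507) (nat_lit 0) .nil) .nil))) 
(.lf (nat_lit 507823) (.g (nat_lit 1847) (.e (nat_lit 164401) (nat_lit 256) (.e (nat_lit 57378) (nat_lit 3) (.e (nat_lit 98359) (nat_lit 26) (.e (nat_lit 426329) (nat_lit 13) .nil)))) (.g (nat_lit 0) (.e (nat_lit 188069) (nat_lit 0) .nil) .nil)))))) (.nd (nat_lit 7) (.nd (nat_lit 8) (.nd (nat_lit 9) 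
(.lf (nat_lit 506991) (.g (nat_lit 356) (.e (nat_lit 164346) (nat_lit 240) (.e (nat_lit 2648) (nat_lit 166) (.e (nat_lit 196352) (nat_lit 0) .nil))) (.g (nat_lit 0) (.e (nat_lit 185869) (nat_lit 0) .nil) .nil))) 
(.lf (nat_lit 507503) (.g (nat_lit 2080) (.e (nat_lit 164398) (nat_lit 256) (.e (nat_lit 57436) (nat_lit 17) (.e (nat_lit 376865) (nat_lit 22) (.e (nat_lit 90160) (nat_lit 11) (.e (nat_lit 32512) (nat_lit 15) .nil))))) (.g (nat_lit 0) (.e (nat_lit 187707) (nat_lit 0) .nil) .nil)))) (.nd (nat_lit 9) 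
(.lf (nat_lit 507247) (.g (nat_lit 2935) (.e (nat_lit 164406) (nat_lit 258) (.e (nat_lit 163874) (nat_lit 3) (.e (nat_lit 204884) (nat_lit 33) (.e (nat_lit 401459) (nat_lit 13) (.e (nat_lit 483337) (nat_lit 9) .nil))))) (.g (nat_lit 0) (.e (nat_lit 187440) (nat_lit 0) .nil) .nil))) 
(.lf (nat_lit 507759) (.g (nat_lit 2129) (.e (nat_lit 164400) (nat_lit 256) (.e (nat_lit 57375) (nat_lit 2) (.e (nat_lit 90174) (nat_lit 14) (.e (nat_lit 180243) (nat_lit 5) (.e (nat_lit 532511) (nat_lit 2) .nil))))) (.g (nat_lit 0) (.e (nat_lit 188002) (nat_lit 0) .nil) .nil))))) (.nd (nat_lit 8) (.nd (nat_lit 9) 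
(.lf (nat_lit 507119) (.g (nat_lit 903) (.e (nat_lit 164353) (nat_lit 246) (.e (nat_lit 226) (nat_lit 21) (.e (nat_lit 336430) (nat_lit 29) (.e (nat_lit 450304) (nat_lit 2) .nil)))) (.g (nat_lit 0) (.e (nat_lit 186636) (nat_lit 0) .nil) .nil))) 
(.lf (nat_lit 507631) (.g (nat_lit 1223) (.e (nat_lit 164399) (nat_lit 256) (.e (nat_lit 57378) (nat_lit 3) (.e (nat_lit 98371) (nat_lit 28) .nil))) (.g (nat_lit 0) (.e (nat_lit 187864) (nat_lit 0) .nil) .nil)))) (.nd (nat_lit 9) 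
(.lf (nat_lit 507375) (.g (nat_lit 3121) (.e (nat_lit 164397) (nat_lit 256) (.e (nat_lit 57379) (nat_lit 3) (.e (nat_lit 98367) (nat_lit 27) (.e (nat_lit 434231) (nat_lit 23) (.e (nat_lit 532483) (nat_lit 0) .nil))))) (.g (nat_lit 0) (.e (nat_lit 187571) (nat_lit 0) .nil) .nil))) 
(.lf (nat_lit 507887) (.g (nat_lit 873) (.e (nat_lit 164402) (nat_lit 256) (.e (nat_lit 57373) (nat_lit 2) (.e (nat_lit 90177) (nat_lit 15) .nil))) (.g (nat_lit 0) (.e (nat_lit 188135) (nat_lit 0) .nil) .nil)))))))) (.nd (nat_lit 5) (.nd (nat_lit 6) (.nd (nat_lit 7) (.nd (nat_lit 8) (.nd (nat_lit 9) 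
(.lf (nat_lit 506911) (.g (nat_lit 1249) (.e (nat_lit 171776) (nat_lit 234) (.e (nat_lit 16473) (nat_lit 14) (.e (nat_lit 491546) (nat_lit 9) (.e (nat_lit 336438) (nat_lit 31) .nil)))) (.g (nat_lit 0) (.e (nat_lit 185316) (nat_lit 0) .nil) .nil))) 
(.lf (nat_lit 507423) (.g (nat_lit 4727) (.e (nat_lit 164398) (nat_lit 256) (.e (nat_lit 57373) (nat_lit 2) (.e (nat_lit 90174) (nat_lit 14) (.e (nat_lit 180250) (nat_lit 10) (.e (nat_lit 573489) (nat_lit 14) (.e (nat_lit 73755) (nat_lit 8) (.e (nat_lit 557067) (nat_lit 9) (.e (nat_lit 2604) (nat_lit 163) .nil)))))))) (.g (nat_lit 1) (.e (nat_lit 187621) (nat_lit 0) .nil) .nil)))) 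
(.nd (nat_lit 9) 
(.lf (nat_lit 507167) (.g (nat_lit 1814) (.e (nat_lit 164358) (nat_lit 246) (.e (nat_lit 351) (nat_lit 28) (.e (nat_lit 393268) (nat_lit 23) (.e (nat_lit 426428) (nat_lit 17) (.e (nat_lit 90203) (nat_lit 21) .nil))))) (.g (nat_lit 0) (.e (nat_lit 186695) (nat_lit 0) .nil) .nil))) 
(.lf (nat_lit 507679) (.g (nat_lit 3720) (.e (nat_lit 164399) (nat_lit 256) (.e (nat_lit 57390) (nat_lit 5) (.e (nat_lit 114716) (nat_lit 22) (.e (nat_lit 90158) (nat_lit 11) (.e (nat_lit 24651) (nat_lit 12) (.e (nat_lit 385066) (nat_lit 26) (.e (nat_lit 540416) (nat_lit 18) .nil))))))) (.g (nat_lit 1) (.e (nat_lit 187913) (nat_lit 0) .nil) .nil))))) (.nd (nat_lit 8) (.nd (nat_lit 9) 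
(.lf (nat_lit 507039) (.g (nat_lit 1829) (.e (nat_lit 164347) (nat_lit 240) (.e (nat_lit 2640) (nat_lit 165) (.e (nat_lit 180277) (nat_lit 32) (.e (nat_lit 1658) (nat_lit 115) (.e (nat_lit 393266) (nat_lit 23) (.e (nat_lit 426109) (nat_lit 1) .nil)))))) (.g (nat_lit 1) (.e (nat_lit 186238) (nat_lit 0) .nil) .nil))) 
(.lf (nat_lit 507551) (.g (nat_lit 2067) (.e (nat_lit 164399) (nat_lit 256) (.e (nat_lit 57373) (nat_lit 2) (.e (nat_lit 90172) (nat_lit 14) (.e (nat_lit 180244) (nat_lit 5) (.e (nat_lit 532514) (nat_lit 3) .nil))))) (.g (nat_lit 0) (.e (nat_lit 187769) (nat_lit 0) .nil) .nil)))) (.nd (nat_lit 9) 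
(.lf (nat_lit 507295) (.g (nat_lit 781) (.e (nat_lit 164396) (nat_lit 256) (.e (nat_lit 57377) (nat_lit 3) (.e (nat_lit 98363) (nat_lit 26) .nil))) (.g (nat_lit 0) (.e (nat_lit 187490) (nat_lit 0) .nil) .nil))) 
(.lf (nat_lit 507807) (.g (nat_lit 2392) (.e (nat_lit 164401) (nat_lit 256) (.e (nat_lit 57373) (nat_lit 2) (.e (nat_lit 90174) (nat_lit 14) (.e (nat_lit 180243) (nat_lit 5) (.e (nat_lit 532515) (nat_lit 3) (.e (nat_lit 114716) (nat_lit 22) (.e (nat_lit 90137) (nat_lit 9) (.e (nat_lit 2609) (nat_lit 163) .nil)))))))) (.g (nat_lit 1) (.e (nat_lit 188050) (nat_lit 0) .nil) .nil)))))) 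
(.nd (nat_lit 7) (.nd (nat_lit 8) (.nd (nat_lit 9) 
(.lf (nat_lit 506975) (.g (nat_lit 1550) (.e (nat_lit 164346) (nat_lit 240) (.e (nat_lit 2638) (nat_lit 165) (.e (nat_lit 180277) (nat_lit 32) (.e (nat_lit 1659) (nat_lit 115) (.e (nat_lit 393278) (nat_lit 23) .nil))))) (.g (nat_lit 0) (.e (nat_lit 185834) (nat_lit 0) .nil) .nil))) 
(.lf (nat_lit 507487) (.g (nat_lit 1041) (.e (nat_lit 164398) (nat_lit 256) (.e (nat_lit 57406) (nat_lit 12) (.e (nat_lit 336444) (nat_lit 32) (.e (nat_lit 466981) (nat_lit 23) .nil)))) (.g (nat_lit 0) (.e (nat_lit 187691) (nat_lit 0) .nil) .nil)))) (.nd (nat_lit 9) 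
(.lf (nat_lit 507231) (.g (nat_lit 1381) (.e (nat_lit 171776) (nat_lit 247) (.e (nat_lit 8318) (nat_lit 64) (.e (nat_lit 516174) (nat_lit 14) (.e (nat_lit 466954) (nat_lit 11) (.e (nat_lit 336288) (nat_lit 15) .nil))))) (.g (nat_lit 0) (.e (nat_lit 186993) (nat_lit 0) .nil) .nil))) 
(.lf (nat_lit 507743) (.g (nat_lit 2476) (.e (nat_lit 164400) (nat_lit 256) (.e (nat_lit 57373) (nat_lit 2) (.e (nat_lit 90172) (nat_lit 14) (.e (nat_lit 180244) (nat_lit 5) (.e (nat_lit 532513) (nat_lit 3) .nil))))) (.g (nat_lit 0) (.e (nat_lit 187986) (nat_lit 0) .nil) .nil))))) (.nd (nat_lit 8) (.nd (nat_lit 9) 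
(.lf (nat_lit 507103) (.g (nat_lit 2650) (.e (nat_lit 164348) (nat_lit 240) (.e (nat_lit 2640) (nat_lit 165) (.e (nat_lit 180278) (nat_lit 32) (.e (nat_lit 1661) (nat_lit 115) (.e (nat_lit 393268) (nat_lit 23) (.e (nat_lit 433920) (nat_lit 1) .nil)))))) (.g (nat_lit 1) (.e (nat_lit 186501) (nat_lit 0) .nil) .nil))) 
(.lf (nat_lit 507615) (.g (nat_lit 3105) (.e (nat_lit 164399) (nat_lit 256) (.e (nat_lit 57378) (nat_lit 3) (.e (nat_lit 98365) (nat_lit 26) (.e (nat_lit 426325) (nat_lit 13) (.e (nat_lit 483336) (nat_lit 9) .nil))))) (.g (nat_lit 0) (.e (nat_lit 187848) (nat_lit 0) .nil) .nil)))) (.nd (nat_lit 9) 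
(.lf (nat_lit 507359) (.g (nat_lit 2732) (.e (nat_lit 164397) (nat_lit 256) (.e (nat_lit 57374) (nat_lit 2) (.e (nat_lit 90170) (nat_lit 13) (.e (nat_lit 172065) (nat_lit 3) (.e (nat_lit 204837) (nat_lit 20) .nil))))) (.g (nat_lit 0) (.e (nat_lit 187555) (nat_lit 0) .nil) .nil))) 
(.lf (nat_lit 507871) (.g (nat_lit 918) (.e (nat_lit 164402) (nat_lit 256) (.e (nat_lit 57373) (nat_lit 2) (.e (nat_lit 90167) (nat_lit 13) .nil))) (.g (nat_lit 0) (.e (nat_lit 188119) (nat_lit 0) .nil) .nil))))))) (.nd (nat_lit 6) (.nd (nat_lit 7) (.nd (nat_lit 8) (.nd (nat_lit 9) 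
(.lf (nat_lit 506943) (.g (nat_lit 3090) (.e (nat_lit 164345) (nat_lit 240) (.e (nat_lit 2638) (nat_lit 165) (.e (nat_lit 180278) (nat_lit 32) (.e (nat_lit 1428) (nat_lit 108) (.e (nat_lit 336430) (nat_lit 29) (.e (nat_lit 442421) (nat_lit 21) .nil)))))) (.g (nat_lit 1) (.e (nat_lit 185533) (nat_lit 0) .nil) .nil))) 
(.lf (nat_lit 507455) (.g (nat_lit 2627) (.e (nat_lit 164398) (nat_lit 256) (.e (nat_lit 57378) (nat_lit 3) (.e (nat_lit 98368) (nat_lit 27) (.e (nat_lit 434231) (nat_lit 23) (.e (nat_lit 532514) (nat_lit 3) .nil))))) (.g (nat_lit 0) (.e (nat_lit 187659) (nat_lit 0) .nil) .nil)))) (.nd (nat_lit 9) 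
(.lf (nat_lit 507199) (.g (nat_lit 4100) (.e (nat_lit 164359) (nat_lit 246) (.e (nat_lit 3062) (nat_lit 190) (.e (nat_lit 475185) (nat_lit 29) (.e (nat_lit 557109) (nat_lit 15) (.e (nat_lit 188458) (nat_lit 25) (.e (nat_lit 253696) (nat_lit 21) .nil)))))) (.g (nat_lit 1) (.e (nat_lit 186756) (nat_lit 0) .nil) .nil))) 
(.lf (nat_lit 507711) (.g (nat_lit 1560) (.e (nat_lit 164399) (nat_lit 256) (.e (nat_lit 57411) (nat_lit 12) (.e (nat_lit 336443) (nat_lit 32) (.e (nat_lit 466981) (nat_lit 23) (.e (nat_lit 204810) (nat_lit 9) .nil))))) (.g (nat_lit 0) (.e (nat_lit 187950) (nat_lit 0) .nil) .nil))))) (.nd (nat_lit 8) (.nd (nat_lit 9) 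
(.lf (nat_lit 507071) (.g (nat_lit 4699) (.e (nat_lit 164348) (nat_lit 240) (.e (nat_lit 2610) (nat_lit 163) (.e (nat_lit 163979) (nat_lit 30) (.e (nat_lit 573491) (nat_lit 15) (.e (nat_lit 81951) (nat_lit 22) (.e (nat_lit 90185) (nat_lit 17) (.e (nat_lit 237582) (nat_lit 1) .nil))))))) (.g (nat_lit 1) (.e (nat_lit 186397) (nat_lit 0) .nil) .nil))) 
(.lf (nat_lit 507583) (.g (nat_lit 1778) (.e (nat_lit 164399) (nat_lit 256) (.e (nat_lit 57377) (nat_lit 3) (.e (nat_lit 98365) (nat_lit 26) (.e (nat_lit 426188) (nat_lit 9) (.e (nat_lit 426484) (nat_lit 27) .nil))))) (.g (nat_lit 0) (.e (nat_lit 187802) (nat_lit 0) .nil) .nil)))) (.nd (nat_lit 9) 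
(.lf (nat_lit 507327) (.g (nat_lit 2901) (.e (nat_lit 164396) (nat_lit 256) (.e (nat_lit 57427) (nat_lit 15) (.e (nat_lit 360474) (nat_lit 8) (.e (nat_lit 557072) (nat_lit 9) (.e (nat_lit 2717) (nat_lit 171) .nil))))) (.g (nat_lit 0) (.e (nat_lit 187523) (nat_lit 0) .nil) .nil))) 
(.lf (nat_lit 507839) (.g (nat_lit 1401) (.e (nat_lit 164401) (nat_lit 256) (.e (nat_lit 57378) (nat_lit 3) (.e (nat_lit 98376) (nat_lit 30) (.e (nat_lit 458789) (nat_lit 23) (.e (nat_lit 532515) (nat_lit 3) .nil))))) (.g (nat_lit 0) (.e (nat_lit 188085) (nat_lit 0) .nil) .nil)))))) (.nd (nat_lit 7) (.nd (nat_lit 8) (.nd (nat_lit 9) 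
(.lf (nat_lit 507007) (.g (nat_lit 1395) (.e (nat_lit 164347) (nat_lit 240) (.e (nat_lit 2619) (nat_lit 164) (.e (nat_lit 172118) (nat_lit 12) (.e (nat_lit 475197) (nat_lit 40) (.e (nat_lit 704598) (nat_lit 6) .nil))))) (.g (nat_lit 0) (.e (nat_lit 186031) (nat_lit 0) .nil) .nil))) 
(.lf (nat_lit 507519) (.g (nat_lit 1663) (.e (nat_lit 164399) (nat_lit 256) (.e (nat_lit 57370) (nat_lit 2) (.e (nat_lit 90178) (nat_lit 15) (.e (nat_lit 188421) (nat_lit 11) (.e (nat_lit 336387) (nat_lit 27) .nil))))) (.g (nat_lit 0) (.e (nat_lit 187727) (nat_lit 0) .nil) .nil)))) (.nd (nat_lit 9) 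
(.lf (nat_lit 507263) (.g (nat_lit 1790) (.e (nat_lit 164396) (nat_lit 256) (.e (nat_lit 57371) (nat_lit 2) (.e (nat_lit 90174) (nat_lit 14) (.e (nat_lit 180245) (nat_lit 5) (.e (nat_lit 532515) (nat_lit 3) .nil))))) (.g (nat_lit 0) (.e (nat_lit 187458) (nat_lit 0) .nil) .nil))) 
(.lf (nat_lit 507775) (.g (nat_lit 1203) (.e (nat_lit 164400) (nat_lit 256) (.e (nat_lit 57379) (nat_lit 3) (.e (nat_lit 98369) (nat_lit 28) (.e (nat_lit 442390) (nat_lit 11) (.e (nat_lit 336387) (nat_lit 27) .nil))))) (.g (nat_lit 0) (.e (nat_lit 188018) (nat_lit 0) .nil) .nil))))) (.nd (nat_lit 8) (.nd (nat_lit 9) 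
(.lf (nat_lit 507135) (.g (nat_lit 423) (.e (nat_lit 164354) (nat_lit 246) (.e (nat_lit 226) (nat_lit 21) (.e (nat_lit 336443) (nat_lit 32) .nil))) (.g (nat_lit 0) (.e (nat_lit 186655) (nat_lit 0) .nil) .nil))) 
(.lf (nat_lit 507647) (.g (nat_lit 1210) (.e (nat_lit 164399) (nat_lit 256) (.e (nat_lit 57379) (nat_lit 3) (.e (nat_lit 98365) (nat_lit 26) (.e (nat_lit 426188) (nat_lit 9) .nil)))) (.g (nat_lit 0) (.e (nat_lit 187880) (nat_lit 0) .nil) .nil)))) (.nd (nat_lit 9) 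
(.lf (nat_lit 507391) (.g (nat_lit 2201) (.e (nat_lit 164398) (nat_lit 256) (.e (nat_lit 57370) (nat_lit 2) (.e (nat_lit 90170) (nat_lit 13) (.e (nat_lit 172121) (nat_lit 13) (.e (nat_lit 483337) (nat_lit 9) .nil))))) (.g (nat_lit 0) (.e (nat_lit 187588) (nat_lit 0) .nil) .nil))) 
(.lf (nat_lit 507903) (.g (nat_lit 1359) (.e (nat_lit 164402) (nat_lit 256) (.e (nat_lit 57378) (nat_lit 3) (.e (nat_lit 98365) (nat_lit 26) (.e (nat_lit 426187) (nat_lit 9) .nil)))) (.g (nat_lit 0) (.e (nat_lit 188153) (nat_lit 0) .nil) .nil)))))))))))))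

noncomputable def tv5556 : DT := (.nd (nat_lit 0) (.nd (nat_lit 1) (.nd (nat_lit 2) (.nd (nat_lit 3) (.nd (nat_lit 4) (.nd (nat_lit 5) (.nd (nat_lit 6) (.nd (nat_lit 7) (.nd (nat_lit 8) (.nd (nat_lit 9) 
(.lf (nat_lit 507904) (.g (nat_lit 1876) (.e (nat_lit 164402) (nat_lit 256) (.e (nat_lit 57378) (nat_lit 3) (.e (nat_lit 98365) (nat_lit 26) (.e (nat_lit 426325) (nat_lit 13) (.e (nat_lit 483341) (nat_lit 9) .nil))))) (.g (nat_lit 0) (.e (nat_lit 188154) (nat_lit 0) .nil) .nil))) 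
(.lf (nat_lit 508416) (.g (nat_lit 626) (.e (nat_lit 172065) (nat_lit 3) (.e (nat_lit 204855) (nat_lit 26) (.e (nat_lit 336173) (nat_lit 10) .nil))) (.g (nat_lit 0) (.e (nat_lit 189071) (nat_lit 0) .nil) .nil)))) (.nd (nat_lit 9) 
(.lf (nat_lit 508160) (.g (nat_lit 2470) (.e (nat_lit 172062) (nat_lit 2) (.e (nat_lit 196666) (nat_lit 13) (.e (nat_lit 65610) (nat_lit 10) (.e (nat_lit 344117) (nat_lit 21) (.e (nat_lit 516099) (nat_lit 0) (.e (nat_lit 2474) (nat_lit 157) (.e (nat_lit 4495) (nat_lit 263) (.e (nat_lit 2625) (nat_lit 164) .nil)))))))) (.g (nat_lit 1) (.e (nat_lit 188598) (nat_lit 0) .nil) .nil))) 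
(.lf (nat_lit 508672) (.g (nat_lit 780) (.e (nat_lit 172067) (nat_lit 3) (.e (nat_lit 204869) (nat_lit 29) (.e (nat_lit 360463) (nat_lit 1) .nil))) (.g (nat_lit 0) (.e (nat_lit 189718) (nat_lit 0) .nil) .nil))))) (.nd (nat_lit 8) (.nd (nat_lit 9) 
(.lf (nat_lit 508032) (.g (nat_lit 3788) (.e (nat_lit 164403) (nat_lit 256) (.e (nat_lit 57378) (nat_lit 3) (.e (nat_lit 98365) (nat_lit 26) (.e (nat_lit 426325) (nat_lit 13) (.e (nat_lit 483336) (nat_lit 9) (.e (nat_lit 426100) (nat_lit 1) .nil)))))) (.g (nat_lit 1) (.e (nat_lit 188308) (nat_lit 0) .nil) .nil))) 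
(.lf (nat_lit 508544) (.g (nat_lit 3167) (.e (nat_lit 172066) (nat_lit 3) (.e (nat_lit 204869) (nat_lit 29) (.e (nat_lit 360475) (nat_lit 8) (.e (nat_lit 557091) (nat_lit 12) (.e (nat_lit 163843) (nat_lit 0) (.e (nat_lit 6250) (nat_lit 337) (.e (nat_lit 2620) (nat_lit 164) .nil))))))) (.g (nat_lit 1) (.e (nat_lit 189363) (nat_lit 0) .nil) .nil)))) (.nd (nat_lit 9) 
(.lf (nat_lit 508288) (.g (nat_lit 2929) (.e (nat_lit 172064) (nat_lit 2) (.e (nat_lit 196666) (nat_lit 13) (.e (nat_lit 65610) (nat_lit 10) (.e (nat_lit 344117) (nat_lit 21) (.e (nat_lit 516106) (nat_lit 0) (.e (nat_lit 3339) (nat_lit 205) (.e (nat_lit 598060) (nat_lit 16) .nil))))))) (.g (nat_lit 1) (.e (nat_lit 188838) (nat_lit 0) .nil) .nil))) 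
(.lf (nat_lit 508800) (.g (nat_lit 2408) (.e (nat_lit 172074) (nat_lit 6) (.e (nat_lit 253991) (nat_lit 11) (.e (nat_lit 16466) (nat_lit 13) (.e (nat_lit 483350) (nat_lit 17) (.e (nat_lit 7936) (nat_lit 361) .nil))))) (.g (nat_lit 0) (.e (nat_lit 189989) (nat_lit 0) .nil) .nil)))))) (.nd (nat_lit 7) (.nd (nat_lit 8) (.nd (nat_lit 9) 
(.lf (nat_lit 507968) (.g (nat_lit 4574) (.e (nat_lit 164403) (nat_lit 256) (.e (nat_lit 57371) (nat_lit 2) (.e (nat_lit 90174) (nat_lit 14) (.e (nat_lit 180251) (nat_lit 10) (.e (nat_lit 573489) (nat_lit 14) (.e (nat_lit 73755) (nat_lit 8) (.e (nat_lit 557067) (nat_lit 9) (.e (nat_lit 2603) (nat_lit 163) .nil)))))))) (.g (nat_lit 1) (.e (nat_lit 188229) (nat_lit 0) .nil) .nil))) 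
(.lf (nat_lit 508480) (.g (nat_lit 687) (.e (nat_lit 172066) (nat_lit 3) (.e (nat_lit 204829) (nat_lit 18) (.e (nat_lit 57655) (nat_lit 152) .nil))) (.g (nat_lit 0) (.e (nat_lit 189238) (nat_lit 0) .nil) .nil)))) (.nd (nat_lit 9) 
(.lf (nat_lit 508224) (.g (nat_lit 3705) (.e (nat_lit 172062) (nat_lit 2) (.e (nat_lit 196666) (nat_lit 13) (.e (nat_lit 65617) (nat_lit 10) (.e (nat_lit 344133) (nat_lit 26) (.e (nat_lit 557091) (nat_lit 12) (.e (nat_lit 163841) (nat_lit 0) (.e (nat_lit 6374) (nat_lit 337) (.e (nat_lit 2628) (nat_lit 164) .nil)))))))) (.g (nat_lit 1) (.e (nat_lit 188719) (nat_lit 0) .nil) .nil))) 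
(.lf (nat_lit 508736) (.g (nat_lit 3199) (.e (nat_lit 172067) (nat_lit 3) (.e (nat_lit 204869) (nat_lit 29) (.e (nat_lit 360475) (nat_lit 8) (.e (nat_lit 557091) (nat_lit 12) (.e (nat_lit 163849) (nat_lit 0) (.e (nat_lit 6252) (nat_lit 337) (.e (nat_lit 2630) (nat_lit 164) .nil))))))) (.g (nat_lit 1) (.e (nat_lit 189822) (nat_lit 0) .nil) .nil))))) (.nd (nat_lit 8) (.nd (nat_lit 9) 
(.lf (nat_lit 508096) (.g (nat_lit 2127) (.e (nat_lit 172037) (nat_lit 0) (.e (nat_lit 6989) (nat_lit 377) (.e (nat_lit 2777) (nat_lit 178) (.e (nat_lit 286771) (nat_lit 29) .nil)))) (.g (nat_lit 0) (.e (nat_lit 188388) (nat_lit 0) .nil) .nil))) 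
(.lf (nat_lit 508608) (.g (nat_lit 3436) (.e (nat_lit 172067) (nat_lit 3) (.e (nat_lit 204846) (nat_lit 24) (.e (nat_lit 319533) (nat_lit 16) (.e (nat_lit 286734) (nat_lit 3) (.e (nat_lit 98323) (nat_lit 17) (.e (nat_lit 7936) (nat_lit 392) .nil)))))) (.g (nat_lit 1) (.e (nat_lit 189483) (nat_lit 0) .nil) .nil)))) (.nd (nat_lit 9) 
(.lf (nat_lit 508352) (.g (nat_lit 2716) (.e (nat_lit 172064) (nat_lit 2) (.e (nat_lit 196666) (nat_lit 13) (.e (nat_lit 65617) (nat_lit 10) (.e (nat_lit 344130) (nat_lit 26) (.e (nat_lit 557090) (nat_lit 12) (.e (nat_lit 164019) (nat_lit 45) (.e (nat_lit 696342) (nat_lit 8) .nil))))))) (.g (nat_lit 1) (.e (nat_lit 188986) (nat_lit 0) .nil) .nil))) 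
(.lf (nat_lit 508864) (.g (nat_lit 1608) (.e (nat_lit 172077) (nat_lit 7) (.e (nat_lit 409616) (nat_lit 10) (.e (nat_lit 632) (nat_lit 50) (.e (nat_lit 573491) (nat_lit 15) .nil)))) (.g (nat_lit 0) (.e (nat_lit 190146) (nat_lit 0) .nil) .nil))))))) (.nd (nat_lit 6) (.nd (nat_lit 7) (.nd (nat_lit 8) (.nd (nat_lit 9) 
(.lf (nat_lit 507936) (.g (nat_lit 1679) (.e (nat_lit 164402) (nat_lit 256) (.e (nat_lit 57427) (nat_lit 15) (.e (nat_lit 360475) (nat_lit 8) (.e (nat_lit 564992) (nat_lit 4) .nil)))) (.g (nat_lit 0) (.e (nat_lit 188186) (nat_lit 0) .nil) .nil))) 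
(.lf (nat_lit 508448) (.g (nat_lit 3743) (.e (nat_lit 172065) (nat_lit 3) (.e (nat_lit 204868) (nat_lit 29) (.e (nat_lit 360475) (nat_lit 8) (.e (nat_lit 557091) (nat_lit 12) (.e (nat_lit 163847) (nat_lit 0) (.e (nat_lit 6254) (nat_lit 337) (.e (nat_lit 2630) (nat_lit 164) .nil))))))) (.g (nat_lit 1) (.e (nat_lit 189161) (nat_lit 0) .nil) .nil)))) (.nd (nat_lit 9) 
(.lf (nat_lit 508192) (.g (nat_lit 1993) (.e (nat_lit 172062) (nat_lit 2) (.e (nat_lit 196666) (nat_lit 13) (.e (nat_lit 65610) (nat_lit 10) (.e (nat_lit 344129) (nat_lit 26) (.e (nat_lit 557090) (nat_lit 12) (.e (nat_lit 171776) (nat_lit 0) (.e (nat_lit 6374) (nat_lit 337) (.e (nat_lit 2628) (nat_lit 164) .nil)))))))) (.g (nat_lit 1) (.e (nat_lit 188684) (nat_lit 0) .nil) .nil))) 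
(.lf (nat_lit 508704) (.g (nat_lit 2847) (.e (nat_lit 172067) (nat_lit 3) (.e (nat_lit 204869) (nat_lit 29) (.e (nat_lit 360475) (nat_lit 8) (.e (nat_lit 557089) (nat_lit 12) (.e (nat_lit 163844) (nat_lit 0) (.e (nat_lit 6252) (nat_lit 337) (.e (nat_lit 2620) (nat_lit 164) .nil))))))) (.g (nat_lit 1) (.e (nat_lit 189775) (nat_lit 0) .nil) .nil))))) (.nd (nat_lit 8) (.nd (nat_lit 9) 
(.lf (nat_lit 508064) (.g (nat_lit 1859) (.e (nat_lit 164403) (nat_lit 256) (.e (nat_lit 57400) (nat_lit 10) (.e (nat_lit 319534) (nat_lit 16) (.e (nat_lit 286749) (nat_lit 9) (.e (nat_lit 343808) (nat_lit 32) .nil))))) (.g (nat_lit 0) (.e (nat_lit 188340) (nat_lit 0) .nil) .nil))) 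
(.lf (nat_lit 508576) (.g (nat_lit 2592) (.e (nat_lit 172067) (nat_lit 3) (.e (nat_lit 204845) (nat_lit 24) (.e (nat_lit 319529) (nat_lit 16) (.e (nat_lit 286735) (nat_lit 3) (.e (nat_lit 98323) (nat_lit 17) (.e (nat_lit 7936) (nat_lit 392) .nil)))))) (.g (nat_lit 1) (.e (nat_lit 189431) (nat_lit 0) .nil) .nil)))) (.nd (nat_lit 9) 
(.lf (nat_lit 508320) (.g (nat_lit 3274) (.e (nat_lit 172064) (nat_lit 2) (.e (nat_lit 196666) (nat_lit 13) (.e (nat_lit 65610) (nat_lit 10) (.e (nat_lit 344129) (nat_lit 26) (.e (nat_lit 557090) (nat_lit 12) (.e (nat_lit 163852) (nat_lit 0) (.e (nat_lit 6273) (nat_lit 337) (.e (nat_lit 2632) (nat_lit 164) .nil)))))))) (.g (nat_lit 1) (.e (nat_lit 188953) (nat_lit 0) .nil) .nil))) 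
(.lf (nat_lit 508832) (.g (nat_lit 478) (.e (nat_lit 172076) (nat_lit 6) (.e (nat_lit 253991) (nat_lit 11) (.e (nat_lit 16462) (nat_lit 13) .nil))) (.g (nat_lit 0) (.e (nat_lit 190088) (nat_lit 0) .nil) .nil)))))) (.nd (nat_lit 7) (.nd (nat_lit 8) (.nd (nat_lit 9) 
(.lf (nat_lit 508000) (.g (nat_lit 3639) (.e (nat_lit 164403) (nat_lit 256) (.e (nat_lit 57373) (nat_lit 2) (.e (nat_lit 90174) (nat_lit 14) (.e (nat_lit 180252) (nat_lit 10) (.e (nat_lit 573489) (nat_lit 14) (.e (nat_lit 73755) (nat_lit 8) (.e (nat_lit 557067) (nat_lit 9) (.e (nat_lit 2606) (nat_lit 163) .nil)))))))) (.g (nat_lit 1) (.e (nat_lit 188266) (nat_lit 0) .nil) .nil))) 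
(.lf (nat_lit 508512) (.g (nat_lit 3487) (.e (nat_lit 172066) (nat_lit 3) (.e (nat_lit 204846) (nat_lit 24) (.e (nat_lit 319534) (nat_lit 16) (.e (nat_lit 286735) (nat_lit 3) (.e (nat_lit 98325) (nat_lit 17) (.e (nat_lit 7936) (nat_lit 392) .nil)))))) (.g (nat_lit 1) (.e (nat_lit 189291) (nat_lit 0) .nil) .nil)))) (.nd (nat_lit 9) 
(.lf (nat_lit 508256) (.g (nat_lit 3831) (.e (nat_lit 172064) (nat_lit 2) (.e (nat_lit 196666) (nat_lit 13) (.e (nat_lit 65610) (nat_lit 10) (.e (nat_lit 344117) (nat_lit 21) (.e (nat_lit 516097) (nat_lit 0) (.e (nat_lit 2418) (nat_lit 157) (.e (nat_lit 4516) (nat_lit 263) (.e (nat_lit 2629) (nat_lit 164) .nil)))))))) (.g (nat_lit 1) (.e (nat_lit 188800) (nat_lit 0) .nil) .nil))) 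
(.lf (nat_lit 508768) (.g (nat_lit 1387) (.e (nat_lit 172068) (nat_lit 4) (.e (nat_lit 229680) (nat_lit 244) (.e (nat_lit 163941) (nat_lit 19) (.e (nat_lit 483349) (nat_lit 17) .nil)))) (.g (nat_lit 0) (.e (nat_lit 189890) (nat_lit 0) .nil) .nil))))) (.nd (nat_lit 8) (.nd (nat_lit 9) 
(.lf (nat_lit 508128) (.g (nat_lit 3797) (.e (nat_lit 172048) (nat_lit 0) (.e (nat_lit 3258) (nat_lit 198) (.e (nat_lit 540706) (nat_lit 12) (.e (nat_lit 360475) (nat_lit 8) (.e (nat_lit 557090) (nat_lit 12) (.e (nat_lit 164020) (nat_lit 45) (.e (nat_lit 696344) (nat_lit 8) .nil))))))) (.g (nat_lit 1) (.e (nat_lit 188478) (nat_lit 0) .nil) .nil))) 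
(.lf (nat_lit 508640) (.g (nat_lit 1916) (.e (nat_lit 172067) (nat_lit 3) (.e (nat_lit 204855) (nat_lit 26) (.e (nat_lit 336176) (nat_lit 10) (.e (nat_lit 344133) (nat_lit 26) (.e (nat_lit 557089) (nat_lit 12) .nil))))) (.g (nat_lit 0) (.e (nat_lit 189572) (nat_lit 0) .nil) .nil)))) (.nd (nat_lit 9) 
(.lf (nat_lit 508384) (.g (nat_lit 3091) (.e (nat_lit 172065) (nat_lit 3) (.e (nat_lit 204829) (nat_lit 18) (.e (nat_lit 57691) (nat_lit 156) (.e (nat_lit 163874) (nat_lit 3) (.e (nat_lit 204836) (nat_lit 20) (.e (nat_lit 114715) (nat_lit 22) (.e (nat_lit 90170) (nat_lit 13) .nil))))))) (.g (nat_lit 1) (.e (nat_lit 189024) (nat_lit 0) .nil) .nil))) 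
(.lf (nat_lit 508896) (.g (nat_lit 779) (.e (nat_lit 172078) (nat_lit 7) (.e (nat_lit 409646) (nat_lit 18) (.e (nat_lit 303146) (nat_lit 14) .nil))) (.g (nat_lit 0) (.e (nat_lit 190280) (nat_lit 0) .nil) .nil)))))))) (.nd (nat_lit 5) (.nd (nat_lit 6) (.nd (nat_lit 7) (.nd (nat_lit 8) (.nd (nat_lit 9) 
(.lf (nat_lit 507920) (.g (nat_lit 1857) (.e (nat_lit 164402) (nat_lit 256) (.e (nat_lit 57406) (nat_lit 12) (.e (nat_lit 336443) (nat_lit 32) (.e (nat_lit 466974) (nat_lit 22) (.e (nat_lit 196656) (nat_lit 11) .nil))))) (.g (nat_lit 0) (.e (nat_lit 188170) (nat_lit 0) .nil) .nil))) 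
(.lf (nat_lit 508432) (.g (nat_lit 2011) (.e (nat_lit 172065) (nat_lit 3) (.e (nat_lit 204868) (nat_lit 29) (.e (nat_lit 360473) (nat_lit 8) (.e (nat_lit 557091) (nat_lit 12) (.e (nat_lit 163840) (nat_lit 0) .nil))))) (.g (nat_lit 0) (.e (nat_lit 189135) (nat_lit 0) .nil) .nil)))) (.nd (nat_lit 9) 
(.lf (nat_lit 508176) (.g (nat_lit 2947) (.e (nat_lit 172062) (nat_lit 2) (.e (nat_lit 196666) (nat_lit 13) (.e (nat_lit 65610) (nat_lit 10) (.e (nat_lit 344129) (nat_lit 26) (.e (nat_lit 557090) (nat_lit 12) (.e (nat_lit 163840) (nat_lit 0) (.e (nat_lit 6254) (nat_lit 337) (.e (nat_lit 2630) (nat_lit 164) .nil)))))))) (.g (nat_lit 1) (.e (nat_lit 188668) (nat_lit 0) .nil) .nil))) 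
(.lf (nat_lit 508688) (.g (nat_lit 1345) (.e (nat_lit 172067) (nat_lit 3) (.e (nat_lit 204869) (nat_lit 29) (.e (nat_lit 360474) (nat_lit 8) (.e (nat_lit 557094) (nat_lit 12) .nil)))) (.g (nat_lit 0) (.e (nat_lit 189745) (nat_lit 0) .nil) .nil))))) (.nd (nat_lit 8) (.nd (nat_lit 9) 
(.lf (nat_lit 508048) (.g (nat_lit 4976) (.e (nat_lit 164403) (nat_lit 256) (.e (nat_lit 57378) (nat_lit 3) (.e (nat_lit 98368) (nat_lit 27) (.e (nat_lit 434247) (nat_lit 28) (.e (nat_lit 573489) (nat_lit 14) (.e (nat_lit 73755) (nat_lit 8) (.e (nat_lit 557067) (nat_lit 9) (.e (nat_lit 2603) (nat_lit 163) .nil)))))))) (.g (nat_lit 1) (.e (nat_lit 188324) (nat_lit 0) .nil) .nil))) 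
(.lf (nat_lit 508560) (.g (nat_lit 2164) (.e (nat_lit 172066) (nat_lit 3) (.e (nat_lit 204885) (nat_lit 33) (.e (nat_lit 401448) (nat_lit 10) (.e (nat_lit 434231) (nat_lit 23) (.e (nat_lit 532482) (nat_lit 0) (.e (nat_lit 6720) (nat_lit 361) .nil)))))) (.g (nat_lit 1) (.e (nat_lit 189398) (nat_lit 0) .nil) .nil)))) (.nd (nat_lit 9) 
(.lf (nat_lit 508304) (.g (nat_lit 5600) (.e (nat_lit 172064) (nat_lit 2) (.e (nat_lit 196666) (nat_lit 13) (.e (nat_lit 65610) (nat_lit 10) (.e (nat_lit 344129) (nat_lit 26) (.e (nat_lit 557089) (nat_lit 12) (.e (nat_lit 164020) (nat_lit 45) (.e (nat_lit 696344) (nat_lit 8) .nil))))))) (.g (nat_lit 1) (.e (nat_lit 188936) (nat_lit 0) .nil) .nil))) 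
(.lf (nat_lit 508816) (.g (nat_lit 906) (.e (nat_lit 172076) (nat_lit 6) (.e (nat_lit 253963) (nat_lit 9) (.e (nat_lit 433) (nat_lit 32) (.e (nat_lit 426232) (nat_lit 9) (.e (nat_lit 426549) (nat_lit 31) .nil))))) (.g (nat_lit 0) (.e (nat_lit 190031) (nat_lit 0) .nil) .nil)))))) (.nd (nat_lit 7) (.nd (nat_lit 8) (.nd (nat_lit 9) 
(.lf (nat_lit 507984) (.g (nat_lit 3402) (.e (nat_lit 164403) (nat_lit 256) (.e (nat_lit 57373) (nat_lit 2) (.e (nat_lit 90174) (nat_lit 14) (.e (nat_lit 180243) (nat_lit 5) (.e (nat_lit 532515) (nat_lit 3) (.e (nat_lit 114716) (nat_lit 22) (.e (nat_lit 90129) (nat_lit 9) (.e (nat_lit 2603) (nat_lit 163) .nil)))))))) (.g (nat_lit 1) (.e (nat_lit 188250) (nat_lit 0) .nil) .nil))) 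
(.lf (nat_lit 508496) (.g (nat_lit 2431) (.e (nat_lit 172066) (nat_lit 3) (.e (nat_lit 204846) (nat_lit 24) (.e (nat_lit 319529) (nat_lit 16) (.e (nat_lit 286735) (nat_lit 3) (.e (nat_lit 98325) (nat_lit 17) .nil))))) (.g (nat_lit 0) (.e (nat_lit 189272) (nat_lit 0) .nil) .nil)))) (.nd (nat_lit 9) 
(.lf (nat_lit 508240) (.g (nat_lit 3791) (.e (nat_lit 172063) (nat_lit 2) (.e (nat_lit 196666) (nat_lit 13) (.e (nat_lit 65617) (nat_lit 10) (.e (nat_lit 344130) (nat_lit 26) (.e (nat_lit 557090) (nat_lit 12) (.e (nat_lit 163843) (nat_lit 0) (.e (nat_lit 6255) (nat_lit 337) (.e (nat_lit 2630) (nat_lit 164) .nil)))))))) (.g (nat_lit 1) (.e (nat_lit 188751) (nat_lit 0) .nil) .nil))) 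
(.lf (nat_lit 508752) (.g (nat_lit 2818) (.e (nat_lit 172067) (nat_lit 3) (.e (nat_lit 204885) (nat_lit 33) (.e (nat_lit 401448) (nat_lit 10) (.e (nat_lit 434231) (nat_lit 23) (.e (nat_lit 532482) (nat_lit 0) (.e (nat_lit 6716) (nat_lit 361) .nil)))))) (.g (nat_lit 1) (.e (nat_lit 189869) (nat_lit 0) .nil) .nil))))) (.nd (nat_lit 8) (.nd (nat_lit 9) 
(.lf (nat_lit 508112) (.g (nat_lit 1271) (.e (nat_lit 172039) (nat_lit 0) (.e (nat_lit 6989) (nat_lit 377) (.e (nat_lit 2779) (nat_lit 178) (.e (nat_lit 286771) (nat_lit 29) .nil)))) (.g (nat_lit 0) (.e (nat_lit 188415) (nat_lit 0) .nil) .nil))) 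
(.lf (nat_lit 508624) (.g (nat_lit 1462) (.e (nat_lit 172067) (nat_lit 3) (.e (nat_lit 204855) (nat_lit 26) (.e (nat_lit 336099) (nat_lit 9) (.e (nat_lit 336013) (nat_lit 2) .nil)))) (.g (nat_lit 0) (.e (nat_lit 189522) (nat_lit 0) .nil) .nil)))) (.nd (nat_lit 9) 
(.lf (nat_lit 508368) (.g (nat_lit 3383) (.e (nat_lit 172064) (nat_lit 2) (.e (nat_lit 196666) (nat_lit 13) (.e (nat_lit 65617) (nat_lit 10) (.e (nat_lit 344133) (nat_lit 26) (.e (nat_lit 557091) (nat_lit 12) (.e (nat_lit 163840) (nat_lit 0) (.e (nat_lit 6374) (nat_lit 337) (.e (nat_lit 2628) (nat_lit 164) .nil)))))))) (.g (nat_lit 1) (.e (nat_lit 189002) (nat_lit 0) .nil) .nil))) 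
(.lf (nat_lit 508880) (.g (nat_lit 1347) (.e (nat_lit 172078) (nat_lit 7) (.e (nat_lit 409645) (nat_lit 18) (.e (nat_lit 303143) (nat_lit 12) (.e (nat_lit 475211) (nat_lit 41) .nil)))) (.g (nat_lit 0) (.e (nat_lit 190256) (nat_lit 0) .nil) .nil))))))) (.nd (nat_lit 6) (.nd (nat_lit 7) (.nd (nat_lit 8) (.nd (nat_lit 9) 
(.lf (nat_lit 507952) (.g (nat_lit 1768) (.e (nat_lit 164403) (nat_lit 256) (.e (nat_lit 57371) (nat_lit 2) (.e (nat_lit 90172) (nat_lit 14) (.e (nat_lit 180244) (nat_lit 5) (.e (nat_lit 532515) (nat_lit 3) .nil))))) (.g (nat_lit 0) (.e (nat_lit 188213) (nat_lit 0) .nil) .nil))) 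
(.lf (nat_lit 508464) (.g (nat_lit 1466) (.e (nat_lit 172065) (nat_lit 3) (.e (nat_lit 204869) (nat_lit 29) (.e (nat_lit 360475) (nat_lit 8) (.e (nat_lit 557089) (nat_lit 12) .nil)))) (.g (nat_lit 0) (.e (nat_lit 189180) (nat_lit 0) .nil) .nil)))) (.nd (nat_lit 9) 
(.lf (nat_lit 508208) (.g (nat_lit 2717) (.e (nat_lit 172062) (nat_lit 2) (.e (nat_lit 196666) (nat_lit 13) (.e (nat_lit 65617) (nat_lit 10) (.e (nat_lit 344130) (nat_lit 26) (.e (nat_lit 557090) (nat_lit 12) (.e (nat_lit 164019) (nat_lit 45) (.e (nat_lit 696342) (nat_lit 8) .nil))))))) (.g (nat_lit 1) (.e (nat_lit 188703) (nat_lit 0) .nil) .nil))) 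
(.lf (nat_lit 508720) (.g (nat_lit 1436) (.e (nat_lit 172067) (nat_lit 3) (.e (nat_lit 204869) (nat_lit 29) (.e (nat_lit 360475) (nat_lit 8) (.e (nat_lit 557091) (nat_lit 12) .nil)))) (.g (nat_lit 0) (.e (nat_lit 189795) (nat_lit 0) .nil) .nil))))) (.nd (nat_lit 8) (.nd (nat_lit 9) 
(.lf (nat_lit 508080) (.g (nat_lit 834) (.e (nat_lit 164403) (nat_lit 256) (.e (nat_lit 57409) (nat_lit 12) (.e (nat_lit 336443) (nat_lit 32) (.e (nat_lit 466979) (nat_lit 23) .nil)))) (.g (nat_lit 0) (.e (nat_lit 188357) (nat_lit 0) .nil) .nil))) 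
(.lf (nat_lit 508592) (.g (nat_lit 3664) (.e (nat_lit 172067) (nat_lit 3) (.e (nat_lit 204846) (nat_lit 24) (.e (nat_lit 319529) (nat_lit 16) (.e (nat_lit 286735) (nat_lit 3) (.e (nat_lit 98323) (nat_lit 17) (.e (nat_lit 7936) (nat_lit 392) .nil)))))) (.g (nat_lit 1) (.e (nat_lit 189457) (nat_lit 0) .nil) .nil)))) (.nd (nat_lit 9) 
(.lf (nat_lit 508336) (.g (nat_lit 3819) (.e (nat_lit 172064) (nat_lit 2) (.e (nat_lit 196666) (nat_lit 13) (.e (nat_lit 65617) (nat_lit 10) (.e (nat_lit 344127) (nat_lit 26) (.e (nat_lit 557090) (nat_lit 12) (.e (nat_lit 164018) (nat_lit 45) (.e (nat_lit 696344) (nat_lit 8) .nil))))))) (.g (nat_lit 1) (.e (nat_lit 188970) (nat_lit 0) .nil) .nil))) 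
(.lf (nat_lit 508848) (.g (nat_lit 1692) (.e (nat_lit 172076) (nat_lit 6) (.e (nat_lit 253992) (nat_lit 11) (.e (nat_lit 16463) (nat_lit 13) (.e (nat_lit 483343) (nat_lit 17) .nil)))) (.g (nat_lit 0) (.e (nat_lit 190128) (nat_lit 0) .nil) .nil)))))) (.nd (nat_lit 7) (.nd (nat_lit 8) (.nd (nat_lit 9) 
(.lf (nat_lit 508016) (.g (nat_lit 1128) (.e (nat_lit 164403) (nat_lit 256) (.e (nat_lit 57377) (nat_lit 3) (.e (nat_lit 98380) (nat_lit 31) (.e (nat_lit 474880) (nat_lit 18) .nil)))) (.g (nat_lit 0) (.e (nat_lit 188289) (nat_lit 0) .nil) .nil))) 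
(.lf (nat_lit 508528) (.g (nat_lit 1728) (.e (nat_lit 172066) (nat_lit 3) (.e (nat_lit 204869) (nat_lit 29) (.e (nat_lit 360475) (nat_lit 8) (.e (nat_lit 557089) (nat_lit 12) .nil)))) (.g (nat_lit 0) (.e (nat_lit 189333) (nat_lit 0) .nil) .nil)))) (.nd (nat_lit 9) 
(.lf (nat_lit 508272) (.g (nat_lit 2821) (.e (nat_lit 172064) (nat_lit 2) (.e (nat_lit 196666) (nat_lit 13) (.e (nat_lit 65610) (nat_lit 10) (.e (nat_lit 344117) (nat_lit 21) (.e (nat_lit 516099) (nat_lit 0) (.e (nat_lit 2416) (nat_lit 157) (.e (nat_lit 4439) (nat_lit 263) (.e (nat_lit 2631) (nat_lit 164) .nil)))))))) (.g (nat_lit 1) (.e (nat_lit 188816) (nat_lit 0) .nil) .nil))) 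
(.lf (nat_lit 508784) (.g (nat_lit 1399) (.e (nat_lit 172074) (nat_lit 6) (.e (nat_lit 253988) (nat_lit 11) (.e (nat_lit 16465) (nat_lit 13) (.e (nat_lit 483344) (nat_lit 17) (.e (nat_lit 7936) (nat_lit 361) .nil))))) (.g (nat_lit 0) (.e (nat_lit 189959) (nat_lit 0) .nil) .nil))))) (.nd (nat_lit 8) (.nd (nat_lit 9) 
(.lf (nat_lit 508144) (.g (nat_lit 1931) (.e (nat_lit 172059) (nat_lit 1) (.e (nat_lit 164398) (nat_lit 256) (.e (nat_lit 57447) (nat_lit 19) (.e (nat_lit 393298) (nat_lit 27) .nil)))) (.g (nat_lit 0) (.e (nat_lit 188535) (nat_lit 0) .nil) .nil))) 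
(.lf (nat_lit 508656) (.g (nat_lit 2478) (.e (nat_lit 172067) (nat_lit 3) (.e (nat_lit 204868) (nat_lit 29) (.e (nat_lit 360475) (nat_lit 8) (.e (nat_lit 557065) (nat_lit 9) .nil)))) (.g (nat_lit 0) (.e (nat_lit 189684) (nat_lit 0) .nil) .nil)))) (.nd (nat_lit 9) 
(.lf (nat_lit 508400) (.g (nat_lit 3077) (.e (nat_lit 172065) (nat_lit 3) (.e (nat_lit 204845) (nat_lit 24) (.e (nat_lit 319531) (nat_lit 16) (.e (nat_lit 286735) (nat_lit 3) (.e (nat_lit 98325) (nat_lit 17) (.e (nat_lit 7936) (nat_lit 392) .nil)))))) (.g (nat_lit 1) (.e (nat_lit 189043) (nat_lit 0) .nil) .nil))) 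
(.lf (nat_lit 508912) (.g (nat_lit 2706) (.e (nat_lit 172079) (nat_lit 7) (.e (nat_lit 409611) (nat_lit 10) (.e (nat_lit 932) (nat_lit 76) (.e (nat_lit 786481) (nat_lit 30) (.e (nat_lit 360477) (nat_lit 11) (.e (nat_lit 581651) (nat_lit 4) .nil)))))) (.g (nat_lit 1) (.e (nat_lit 190318) (nat_lit 0) .nil) .nil))))))))) 
(.nd (nat_lit 4) (.nd (nat_lit 5) (.nd (nat_lit 6) (.nd (nat_lit 7) (.nd (nat_lit 8) 
(.nd (nat_lit 9) 
(.lf (nat_lit 507912) (.g (nat_lit 1600) (.e (nat_lit 164402) (nat_lit 256) (.e (nat_lit 57400) (nat_lit 10) (.e (nat_lit 319504) (nat_lit 10) (.e (nat_lit 5425) (nat_lit 305) .nil)))) (.g (nat_lit 0) (.e (nat_lit 188162) (nat_lit 0) .nil) .nil))) 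
(.lf (nat_lit 508424) (.g (nat_lit 775) (.e (nat_lit 172065) (nat_lit 3) (.e (nat_lit 204866) (nat_lit 28) (.e (nat_lit 352299) (nat_lit 20) .nil))) (.g (nat_lit 0) (.e (nat_lit 189104) (nat_lit 0) .nil) .nil)))) (.nd (nat_lit 9) 
(.lf (nat_lit 508168) (.g (nat_lit 2356) (.e (nat_lit 172062) (nat_lit 2) (.e (nat_lit 196666) (nat_lit 13) (.e (nat_lit 65610) (nat_lit 10) (.e (nat_lit 344129) (nat_lit 26) (.e (nat_lit 557089) (nat_lit 12) (.e (nat_lit 163844) (nat_lit 0) (.e (nat_lit 6255) (nat_lit 337) (.e (nat_lit 2622) (nat_lit 164) .nil)))))))) (.g (nat_lit 1) (.e (nat_lit 188660) (nat_lit 0) .nil) .nil))) 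
(.lf (nat_lit 508680) (.g (nat_lit 4512) (.e (nat_lit 172067) (nat_lit 3) (.e (nat_lit 204869) (nat_lit 29) (.e (nat_lit 360474) (nat_lit 8) (.e (nat_lit 557089) (nat_lit 12) (.e (nat_lit 164020) (nat_lit 45) .nil))))) (.g (nat_lit 0) (.e (nat_lit 189737) (nat_lit 0) .nil) .nil))))) (.nd (nat_lit 8) (.nd (nat_lit 9) 
(.lf (nat_lit 508040) (.g (nat_lit 2936) (.e (nat_lit 164403) (nat_lit 256) (.e (nat_lit 57378) (nat_lit 3) (.e (nat_lit 98367) (nat_lit 27) (.e (nat_lit 434231) (nat_lit 23) (.e (nat_lit 532514) (nat_lit 3) (.e (nat_lit 114716) (nat_lit 22) (.e (nat_lit 90140) (nat_lit 9) (.e (nat_lit 2611) (nat_lit 163) .nil)))))))) (.g (nat_lit 1) (.e (nat_lit 188316) (nat_lit 0) .nil) .nil))) 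
(.lf (nat_lit 508552) (.g (nat_lit 4022) (.e (nat_lit 172066) (nat_lit 3) (.e (nat_lit 204869) (nat_lit 29) (.e (nat_lit 360475) (nat_lit 8) (.e (nat_lit 557091) (nat_lit 12) (.e (nat_lit 163847) (nat_lit 0) (.e (nat_lit 6255) (nat_lit 337) (.e (nat_lit 2622) (nat_lit 164) .nil))))))) (.g (nat_lit 1) (.e (nat_lit 189377) (nat_lit 0) .nil) .nil)))) (.nd (nat_lit 9) 
(.lf (nat_lit 508296) (.g (nat_lit 2604) (.e (nat_lit 172064) (nat_lit 2) (.e (nat_lit 196666) (nat_lit 13) (.e (nat_lit 65610) (nat_lit 10) (.e (nat_lit 344129) (nat_lit 26) (.e (nat_lit 557067) (nat_lit 9) (.e (nat_lit 2466) (nat_lit 157) (.e (nat_lit 3467) (nat_lit 217) (.e (nat_lit 696343) (nat_lit 8) .nil)))))))) (.g (nat_lit 1) (.e (nat_lit 188901) (nat_lit 0) .nil) .nil))) 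
(.lf (nat_lit 508808) (.g (nat_lit 534) (.e (nat_lit 172074) (nat_lit 6) (.e (nat_lit 253992) (nat_lit 11) (.e (nat_lit 16464) (nat_lit 13) .nil))) (.g (nat_lit 0) (.e (nat_lit 190009) (nat_lit 0) .nil) .nil)))))) (.nd (nat_lit 7) (.nd (nat_lit 8) (.nd (nat_lit 9) 
(.lf (nat_lit 507976) (.g (nat_lit 1847) (.e (nat_lit 164403) (nat_lit 256) (.e (nat_lit 57373) (nat_lit 2) (.e (nat_lit 90170) (nat_lit 13) (.e (nat_lit 172123) (nat_lit 13) (.e (nat_lit 483341) (nat_lit 9) .nil))))) (.g (nat_lit 0) (.e (nat_lit 188242) (nat_lit 0) .nil) .nil))) 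
(.lf (nat_lit 508488) (.g (nat_lit 3375) (.e (nat_lit 172066) (nat_lit 3) (.e (nat_lit 204845) (nat_lit 24) (.e (nat_lit 319530) (nat_lit 16) (.e (nat_lit 286735) (nat_lit 3) (.e (nat_lit 98325) (nat_lit 17) (.e (nat_lit 7936) (nat_lit 392) .nil)))))) (.g (nat_lit 1) (.e (nat_lit 189260) (nat_lit 0) .nil) .nil)))) (.nd (nat_lit 9) 
(.lf (nat_lit 508232) (.g (nat_lit 3380) (.e (nat_lit 172062) (nat_lit 2) (.e (nat_lit 196666) (nat_lit 13) (.e (nat_lit 65617) (nat_lit 10) (.e (nat_lit 344133) (nat_lit 26) (.e (nat_lit 557091) (nat_lit 12) (.e (nat_lit 164019) (nat_lit 45) (.e (nat_lit 696343) (nat_lit 8) .nil))))))) (.g (nat_lit 1) (.e (nat_lit 188727) (nat_lit 0) .nil) .nil))) 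
(.lf (nat_lit 508744) (.g (nat_lit 3170) (.e (nat_lit 172067) (nat_lit 3) (.e (nat_lit 204869) (nat_lit 29) (.e (nat_lit 360475) (nat_lit 8) (.e (nat_lit 557091) (nat_lit 12) (.e (nat_lit 164020) (nat_lit 45) (.e (nat_lit 696342) (nat_lit 8) .nil)))))) (.g (nat_lit 1) (.e (nat_lit 189830) (nat_lit 0) .nil) .nil))))) (.nd (nat_lit 8) (.nd (nat_lit 9) 
(.lf (nat_lit 508104) (.g (nat_lit 1111) (.e (nat_lit 172038) (nat_lit 0) (.e (nat_lit 7107) (nat_lit 380) (.e (nat_lit 164281) (nat_lit 222) (.e (nat_lit 57884) (nat_lit 270) (.e (nat_lit 1544) (nat_lit 109) .nil))))) (.g (nat_lit 0) (.e (nat_lit 188404) (nat_lit 0) .nil) .nil))) 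
(.lf (nat_lit 508616) (.g (nat_lit 3632) (.e (nat_lit 172067) (nat_lit 3) (.e (nat_lit 204846) (nat_lit 24) (.e (nat_lit 319534) (nat_lit 16) (.e (nat_lit 286734) (nat_lit 3) (.e (nat_lit 98321) (nat_lit 17) (.e (nat_lit 7936) (nat_lit 392) .nil)))))) (.g (nat_lit 1) (.e (nat_lit 189494) (nat_lit 0) .nil) .nil)))) (.nd (nat_lit 9) 
(.lf (nat_lit 508360) (.g (nat_lit 4471) (.e (nat_lit 172064) (nat_lit 2) (.e (nat_lit 196666) (nat_lit 13) (.e (nat_lit 65617) (nat_lit 10) (.e (nat_lit 344132) (nat_lit 26) (.e (nat_lit 557094) (nat_lit 12) (.e (nat_lit 163849) (nat_lit 0) (.e (nat_lit 6255) (nat_lit 337) (.e (nat_lit 2630) (nat_lit 164) .nil)))))))) (.g (nat_lit 1) (.e (nat_lit 188994) (nat_lit 0) .nil) .nil))) 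
(.lf (nat_lit 508872) (.g (nat_lit 521) (.e (nat_lit 172078) (nat_lit 7) (.e (nat_lit 409618) (nat_lit 10) (.e (nat_lit 5362) (nat_lit 298) .nil))) (.g (nat_lit 0) (.e (nat_lit 190244) (nat_lit 0) .nil) .nil))))))) (.nd (nat_lit 6) (.nd (nat_lit 7) (.nd (nat_lit 8) (.nd (nat_lit 9) 
(.lf (nat_lit 507944) (.g (nat_lit 1313) (.e (nat_lit 164402) (nat_lit 256) (.e (nat_lit 57435) (nat_lit 17) (.e (nat_lit 376863) (nat_lit 22) (.e (nat_lit 90158) (nat_lit 11) (.e (nat_lit 32512) (nat_lit 20) .nil))))) (.g (nat_lit 0) (.e (nat_lit 188194) (nat_lit 0) .nil) .nil))) 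
(.lf (nat_lit 508456) (.g (nat_lit 4449) (.e (nat_lit 172065) (nat_lit 3) (.e (nat_lit 204869) (nat_lit 29) (.e (nat_lit 360474) (nat_lit 8) (.e (nat_lit 557090) (nat_lit 12) .nil)))) (.g (nat_lit 0) (.e (nat_lit 189172) (nat_lit 0) .nil) .nil)))) (.nd (nat_lit 9) 
(.lf (nat_lit 508200) (.g (nat_lit 4210) (.e (nat_lit 172062) (nat_lit 2) (.e (nat_lit 196666) (nat_lit 13) (.e (nat_lit 65617) (nat_lit 10) (.e (nat_lit 344130) (nat_lit 26) (.e (nat_lit 557090) (nat_lit 12) (.e (nat_lit 163843) (nat_lit 0) (.e (nat_lit 6252) (nat_lit 337) (.e (nat_lit 2630) (nat_lit 164) .nil)))))))) (.g (nat_lit 1) (.e (nat_lit 188695) (nat_lit 0) .nil) .nil))) 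
(.lf (nat_lit 508712) (.g (nat_lit 3651) (.e (nat_lit 172067) (nat_lit 3) (.e (nat_lit 204869) (nat_lit 29) (.e (nat_lit 360475) (nat_lit 8) (.e (nat_lit 557089) (nat_lit 12) (.e (nat_lit 163850) (nat_lit 0) (.e (nat_lit 6273) (nat_lit 337) (.e (nat_lit 2632) (nat_lit 164) .nil))))))) (.g (nat_lit 1) (.e (nat_lit 189787) (nat_lit 0) .nil) .nil))))) (.nd (nat_lit 8) (.nd (nat_lit 9) 
(.lf (nat_lit 508072) (.g (nat_lit 1856) (.e (nat_lit 164403) (nat_lit 256) (.e (nat_lit 57406) (nat_lit 12) (.e (nat_lit 336443) (nat_lit 32) (.e (nat_lit 466980) (nat_lit 23) .nil)))) (.g (nat_lit 0) (.e (nat_lit 188348) (nat_lit 0) .nil) .nil))) 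
(.lf (nat_lit 508584) (.g (nat_lit 2885) (.e (nat_lit 172067) (nat_lit 3) (.e (nat_lit 204845) (nat_lit 24) (.e (nat_lit 319531) (nat_lit 16) (.e (nat_lit 286735) (nat_lit 3) (.e (nat_lit 98325) (nat_lit 17) (.e (nat_lit 7936) (nat_lit 392) .nil)))))) (.g (nat_lit 1) (.e (nat_lit 189439) (nat_lit 0) .nil) .nil)))) (.nd (nat_lit 9) 
(.lf (nat_lit 508328) (.g (nat_lit 442) (.e (nat_lit 172064) (nat_lit 2) (.e (nat_lit 196666) (nat_lit 13) (.e (nat_lit 65617) (nat_lit 10) .nil))) (.g (nat_lit 0) (.e (nat_lit 188962) (nat_lit 0) .nil) .nil))) 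
(.lf (nat_lit 508840) (.g (nat_lit 1141) (.e (nat_lit 172076) (nat_lit 6) (.e (nat_lit 253991) (nat_lit 11) (.e (nat_lit 16466) (nat_lit 13) (.e (nat_lit 483345) (nat_lit 17) .nil)))) (.g (nat_lit 0) (.e (nat_lit 190100) (nat_lit 0) .nil) .nil)))))) (.nd (nat_lit 7) (.nd (nat_lit 8) (.nd (nat_lit 9) 
(.lf (nat_lit 508008) (.g (nat_lit 3174) (.e (nat_lit 164403) (nat_lit 256) (.e (nat_lit 57377) (nat_lit 3) (.e (nat_lit 98358) (nat_lit 26) (.e (nat_lit 426131) (nat_lit 3) (.e (nat_lit 204838) (nat_lit 20) .nil))))) (.g (nat_lit 0) (.e (nat_lit 188274) (nat_lit 0) .nil) .nil))) 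
(.lf (nat_lit 508520) (.g (nat_lit 1418) (.e (nat_lit 172066) (nat_lit 3) (.e (nat_lit 204868) (nat_lit 29) (.e (nat_lit 360473) (nat_lit 8) (.e (nat_lit 557093) (nat_lit 12) .nil)))) (.g (nat_lit 0) (.e (nat_lit 189318) (nat_lit 0) .nil) .nil)))) (.nd (nat_lit 9) 
(.lf (nat_lit 508264) (.g (nat_lit 4684) (.e (nat_lit 172064) (nat_lit 2) (.e (nat_lit 196666) (nat_lit 13) (.e (nat_lit 65610) (nat_lit 10) (.e (nat_lit 344117) (nat_lit 21) (.e (nat_lit 516097) (nat_lit 0) (.e (nat_lit 3341) (nat_lit 205) (.e (nat_lit 598061) (nat_lit 16) .nil))))))) (.g (nat_lit 1) (.e (nat_lit 188808) (nat_lit 0) .nil) .nil))) 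
(.lf (nat_lit 508776) (.g (nat_lit 385) (.e (nat_lit 172070) (nat_lit 4) (.e (nat_lit 229678) (nat_lit 244) (.e (nat_lit 163850) (nat_lit 0) .nil))) (.g (nat_lit 0) (.e (nat_lit 189910) (nat_lit 0) .nil) .nil))))) (.nd (nat_lit 8) (.nd (nat_lit 9) 
(.lf (nat_lit 508136) (.g (nat_lit 1607) (.e (nat_lit 172057) (nat_lit 0) (.e (nat_lit 3253) (nat_lit 197) (.e (nat_lit 532504) (nat_lit 1) (.e (nat_lit 57692) (nat_lit 156) (.e (nat_lit 163875) (nat_lit 3) .nil))))) (.g (nat_lit 0) (.e (nat_lit 188514) (nat_lit 0) .nil) .nil))) 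
(.lf (nat_lit 508648) (.g (nat_lit 2174) (.e (nat_lit 172067) (nat_lit 3) (.e (nat_lit 204868) (nat_lit 29) (.e (nat_lit 360473) (nat_lit 8) (.e (nat_lit 557089) (nat_lit 12) (.e (nat_lit 164020) (nat_lit 45) (.e (nat_lit 696342) (nat_lit 8) .nil)))))) (.g (nat_lit 1) (.e (nat_lit 189660) (nat_lit 0) .nil) .nil)))) (.nd (nat_lit 9) 
(.lf (nat_lit 508392) (.g (nat_lit 2216) (.e (nat_lit 172065) (nat_lit 3) (.e (nat_lit 204838) (nat_lit 20) (.e (nat_lit 114718) (nat_lit 23) (.e (nat_lit 98334) (nat_lit 18) (.e (nat_lit 164399) (nat_lit 256) .nil))))) (.g (nat_lit 0) (.e (nat_lit 189034) (nat_lit 0) .nil) .nil))) 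
(.lf (nat_lit 508904) (.g (nat_lit 2348) (.e (nat_lit 172078) (nat_lit 7) (.e (nat_lit 409649) (nat_lit 18) (.e (nat_lit 303140) (nat_lit 10) (.e (nat_lit 434275) (nat_lit 39) (.e (nat_lit 663580) (nat_lit 9) .nil))))) (.g (nat_lit 0) (.e (nat_lit 190296) (nat_lit 0) .nil) .nil)))))))) (.nd (nat_lit 5) (.nd (nat_lit 6) (.nd (nat_lit 7) (.nd (nat_lit 8) (.nd (nat_lit 9) 
(.lf (nat_lit 507928) (.g (nat_lit 2772) (.e (nat_lit 164402) (nat_lit 256) (.e (nat_lit 57424) (nat_lit 14) (.e (nat_lit 352312) (nat_lit 22) (.e (nat_lit 90159) (nat_lit 11) (.e (nat_lit 32512) (nat_lit 20) .nil))))) (.g (nat_lit 0) (.e (nat_lit 188178) (nat_lit 0) .nil) .nil))) 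
(.lf (nat_lit 508440) (.g (nat_lit 3744) (.e (nat_lit 172065) (nat_lit 3) (.e (nat_lit 204868) (nat_lit 29) (.e (nat_lit 360475) (nat_lit 8) (.e (nat_lit 557089) (nat_lit 12) (.e (nat_lit 163849) (nat_lit 0) (.e (nat_lit 6254) (nat_lit 337) (.e (nat_lit 2630) (nat_lit 164) .nil))))))) (.g (nat_lit 1) (.e (nat_lit 189151) (nat_lit 0) .nil) .nil)))) (.nd (nat_lit 9) 
(.lf (nat_lit 508184) (.g (nat_lit 1958) (.e (nat_lit 172062) (nat_lit 2) (.e (nat_lit 196666) (nat_lit 13) (.e (nat_lit 65610) (nat_lit 10) (.e (nat_lit 344129) (nat_lit 26) (.e (nat_lit 557090) (nat_lit 12) (.e (nat_lit 163847) (nat_lit 0) (.e (nat_lit 6252) (nat_lit 337) (.e (nat_lit 2620) (nat_lit 164) .nil)))))))) (.g (nat_lit 1) (.e (nat_lit 188676) (nat_lit 0) .nil) .nil))) 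
(.lf (nat_lit 508696) (.g (nat_lit 2647) (.e (nat_lit 172067) (nat_lit 3) (.e (nat_lit 204869) (nat_lit 29) (.e (nat_lit 360475) (nat_lit 8) (.e (nat_lit 557067) (nat_lit 9) .nil)))) (.g (nat_lit 0) (.e (nat_lit 189757) (nat_lit 0) .nil) .nil))))) (.nd (nat_lit 8) (.nd (nat_lit 9) 
(.lf (nat_lit 508056) (.g (nat_lit 1977) (.e (nat_lit 164403) (nat_lit 256) (.e (nat_lit 57378) (nat_lit 3) (.e (nat_lit 98371) (nat_lit 28) (.e (nat_lit 442390) (nat_lit 11) (.e (nat_lit 336387) (nat_lit 27) .nil))))) (.g (nat_lit 0) (.e (nat_lit 188332) (nat_lit 0) .nil) .nil))) 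
(.lf (nat_lit 508568) (.g (nat_lit 2296) (.e (nat_lit 172067) (nat_lit 3) (.e (nat_lit 204838) (nat_lit 20) (.e (nat_lit 114718) (nat_lit 23) (.e (nat_lit 98333) (nat_lit 18) (.e (nat_lit 164397) (nat_lit 256) .nil))))) (.g (nat_lit 0) (.e (nat_lit 189422) (nat_lit 0) .nil) .nil)))) (.nd (nat_lit 9) 
(.lf (nat_lit 508312) (.g (nat_lit 2348) (.e (nat_lit 172064) (nat_lit 2) (.e (nat_lit 196666) (nat_lit 13) (.e (nat_lit 65610) (nat_lit 10) (.e (nat_lit 344129) (nat_lit 26) (.e (nat_lit 557090) (nat_lit 12) (.e (nat_lit 163843) (nat_lit 0) (.e (nat_lit 6255) (nat_lit 337) (.e (nat_lit 2621) (nat_lit 164) .nil)))))))) (.g (nat_lit 1) (.e (nat_lit 188945) (nat_lit 0) .nil) .nil))) 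
(.lf (nat_lit 508824) (.g (nat_lit 2661) (.e (nat_lit 172076) (nat_lit 6) (.e (nat_lit 253988) (nat_lit 11) (.e (nat_lit 16466) (nat_lit 13) (.e (nat_lit 483346) (nat_lit 17) (.e (nat_lit 6718) (nat_lit 361) .nil))))) (.g (nat_lit 1) (.e (nat_lit 190063) (nat_lit 0) .nil) .nil)))))) (.nd (nat_lit 7) (.nd (nat_lit 8) (.nd (nat_lit 9) 
(.lf (nat_lit 507992) (.g (nat_lit 2536) (.e (nat_lit 164403) (nat_lit 256) (.e (nat_lit 57373) (nat_lit 2) (.e (nat_lit 90174) (nat_lit 14) (.e (nat_lit 180250) (nat_lit 10) (.e (nat_lit 573489) (nat_lit 14) (.e (nat_lit 73755) (nat_lit 8) (.e (nat_lit 557074) (nat_lit 9) (.e (nat_lit 2609) (nat_lit 163) .nil)))))))) (.g (nat_lit 1) (.e (nat_lit 188258) (nat_lit 0) .nil) .nil))) 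
(.lf (nat_lit 508504) (.g (nat_lit 3059) (.e (nat_lit 172066) (nat_lit 3) (.e (nat_lit 204846) (nat_lit 24) (.e (nat_lit 319533) (nat_lit 16) (.e (nat_lit 286733) (nat_lit 2) (.e (nat_lit 90165) (nat_lit 12) .nil))))) (.g (nat_lit 0) (.e (nat_lit 189283) (nat_lit 0) .nil) .nil)))) (.nd (nat_lit 9) 
(.lf (nat_lit 508248) (.g (nat_lit 2682) (.e (nat_lit 172063) (nat_lit 2) (.e (nat_lit 196666) (nat_lit 13) (.e (nat_lit 65617) (nat_lit 10) (.e (nat_lit 344133) (nat_lit 26) (.e (nat_lit 557090) (nat_lit 12) (.e (nat_lit 164020) (nat_lit 45) (.e (nat_lit 696344) (nat_lit 8) .nil))))))) (.g (nat_lit 1) (.e (nat_lit 188759) (nat_lit 0) .nil) .nil))) 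
(.lf (nat_lit 508760) (.g (nat_lit 5165) (.e (nat_lit 172068) (nat_lit 4) (.e (nat_lit 229663) (nat_lit 240) (.e (nat_lit 2612) (nat_lit 163) (.e (nat_lit 163977) (nat_lit 30) (.e (nat_lit 573485) (nat_lit 13) (.e (nat_lit 65604) (nat_lit 9) (.e (nat_lit 336013) (nat_lit 2) (.e (nat_lit 90170) (nat_lit 13) .nil)))))))) (.g (nat_lit 1) (.e (nat_lit 189880) (nat_lit 0) .nil) .nil))))) 
(.nd (nat_lit 8) (.nd (nat_lit 9) 
(.lf (nat_lit 508120) (.g (nat_lit 2870) (.e (nat_lit 172045) (nat_lit 0) (.e (nat_lit 3307) (nat_lit 202) (.e (nat_lit 573489) (nat_lit 14) (.e (nat_lit 73755) (nat_lit 8) (.e (nat_lit 557089) (nat_lit 12) .nil))))) (.g (nat_lit 0) (.e (nat_lit 188453) (nat_lit 0) .nil) .nil))) 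
(.lf (nat_lit 508632) (.g (nat_lit 374) (.e (nat_lit 172067) (nat_lit 3) (.e (nat_lit 204855) (nat_lit 26) (.e (nat_lit 336176) (nat_lit 10) .nil))) (.g (nat_lit 0) (.e (nat_lit 189545) (nat_lit 0) .nil) .nil)))) (.nd (nat_lit 9) 
(.lf (nat_lit 508376) (.g (nat_lit 2676) (.e (nat_lit 172064) (nat_lit 2) (.e (nat_lit 196666) (nat_lit 13) (.e (nat_lit 65617) (nat_lit 10) (.e (nat_lit 344133) (nat_lit 26) (.e (nat_lit 557091) (nat_lit 12) (.e (nat_lit 164018) (nat_lit 45) (.e (nat_lit 696342) (nat_lit 8) .nil))))))) (.g (nat_lit 1) (.e (nat_lit 189010) (nat_lit 0) .nil) .nil))) 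
(.lf (nat_lit 508888) (.g (nat_lit 1894) (.e (nat_lit 172078) (nat_lit 7) (.e (nat_lit 409646) (nat_lit 18) (.e (nat_lit 303140) (nat_lit 10) (.e (nat_lit 434202) (nat_lit 18) .nil)))) (.g (nat_lit 0) (.e (nat_lit 190269) (nat_lit 0) .nil) .nil))))))) (.nd (nat_lit 6) (.nd (nat_lit 7) (.nd (nat_lit 8) (.nd (nat_lit 9) 
(.lf (nat_lit 507960) (.g (nat_lit 3387) (.e (nat_lit 164403) (nat_lit 256) (.e (nat_lit 57371) (nat_lit 2) (.e (nat_lit 90174) (nat_lit 14) (.e (nat_lit 180243) (nat_lit 5) (.e (nat_lit 532515) (nat_lit 3) (.e (nat_lit 114716) (nat_lit 22) (.e (nat_lit 90137) (nat_lit 9) (.e (nat_lit 2607) (nat_lit 163) .nil)))))))) (.g (nat_lit 1) (.e (nat_lit 188221) (nat_lit 0) .nil) .nil))) 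
(.lf (nat_lit 508472) (.g (nat_lit 3351) (.e (nat_lit 172065) (nat_lit 3) (.e (nat_lit 204869) (nat_lit 29) (.e (nat_lit 360475) (nat_lit 8) (.e (nat_lit 557091) (nat_lit 12) (.e (nat_lit 164019) (nat_lit 45) (.e (nat_lit 696343) (nat_lit 8) .nil)))))) (.g (nat_lit 1) (.e (nat_lit 189188) (nat_lit 0) .nil) .nil)))) (.nd (nat_lit 9) 
(.lf (nat_lit 508216) (.g (nat_lit 4179) (.e (nat_lit 172062) (nat_lit 2) (.e (nat_lit 196666) (nat_lit 13) (.e (nat_lit 65617) (nat_lit 10) (.e (nat_lit 344132) (nat_lit 26) (.e (nat_lit 557094) (nat_lit 12) (.e (nat_lit 163849) (nat_lit 0) (.e (nat_lit 6255) (nat_lit 337) (.e (nat_lit 2630) (nat_lit 164) .nil)))))))) (.g (nat_lit 1) (.e (nat_lit 188711) (nat_lit 0) .nil) .nil))) 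
(.lf (nat_lit 508728) (.g (nat_lit 3270) (.e (nat_lit 172067) (nat_lit 3) (.e (nat_lit 204869) (nat_lit 29) (.e (nat_lit 360475) (nat_lit 8) (.e (nat_lit 557091) (nat_lit 12) (.e (nat_lit 163843) (nat_lit 0) (.e (nat_lit 6254) (nat_lit 337) (.e (nat_lit 2621) (nat_lit 164) .nil))))))) (.g (nat_lit 1) (.e (nat_lit 189808) (nat_lit 0) .nil) .nil))))) (.nd (nat_lit 8) (.nd (nat_lit 9) 
(.lf (nat_lit 508088) (.g (nat_lit 2167) (.e (nat_lit 172033) (nat_lit 0) (.e (nat_lit 6989) (nat_lit 377) (.e (nat_lit 2777) (nat_lit 178) (.e (nat_lit 286771) (nat_lit 29) .nil)))) (.g (nat_lit 0) (.e (nat_lit 188378) (nat_lit 0) .nil) .nil))) 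
(.lf (nat_lit 508600) (.g (nat_lit 3814) (.e (nat_lit 172067) (nat_lit 3) (.e (nat_lit 204846) (nat_lit 24) (.e (nat_lit 319531) (nat_lit 16) (.e (nat_lit 286735) (nat_lit 3) (.e (nat_lit 98320) (nat_lit 17) (.e (nat_lit 7386) (nat_lit 392) .nil)))))) (.g (nat_lit 1) (.e (nat_lit 189467) (nat_lit 0) .nil) .nil)))) (.nd (nat_lit 9) 
(.lf (nat_lit 508344) (.g (nat_lit 4079) (.e (nat_lit 172064) (nat_lit 2) (.e (nat_lit 196666) (nat_lit 13) (.e (nat_lit 65617) (nat_lit 10) (.e (nat_lit 344130) (nat_lit 26) (.e (nat_lit 557090) (nat_lit 12) (.e (nat_lit 163843) (nat_lit 0) (.e (nat_lit 6374) (nat_lit 337) (.e (nat_lit 2628) (nat_lit 164) .nil)))))))) (.g (nat_lit 1) (.e (nat_lit 188978) (nat_lit 0) .nil) .nil))) 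
(.lf (nat_lit 508856) (.g (nat_lit 520) (.e (nat_lit 172076) (nat_lit 6) (.e (nat_lit 253992) (nat_lit 11) (.e (nat_lit 16464) (nat_lit 13) .nil))) (.g (nat_lit 0) (.e (nat_lit 190136) (nat_lit 0) .nil) .nil)))))) (.nd (nat_lit 7) (.nd (nat_lit 8) (.nd (nat_lit 9) 
(.lf (nat_lit 508024) (.g (nat_lit 1435) (.e (nat_lit 164403) (nat_lit 256) (.e (nat_lit 57378) (nat_lit 3) (.e (nat_lit 98358) (nat_lit 26) (.e (nat_lit 426323) (nat_lit 13) (.e (nat_lit 483337) (nat_lit 9) .nil))))) (.g (nat_lit 0) (.e (nat_lit 188299) (nat_lit 0) .nil) .nil))) 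
(.lf (nat_lit 508536) (.g (nat_lit 4315) (.e (nat_lit 172066) (nat_lit 3) (.e (nat_lit 204869) (nat_lit 29) (.e (nat_lit 360475) (nat_lit 8) (.e (nat_lit 557089) (nat_lit 12) (.e (nat_lit 163849) (nat_lit 0) (.e (nat_lit 6255) (nat_lit 337) (.e (nat_lit 2622) (nat_lit 164) .nil))))))) (.g (nat_lit 1) (.e (nat_lit 189343) (nat_lit 0) .nil) .nil)))) (.nd (nat_lit 9) 
(.lf (nat_lit 508280) (.g (nat_lit 3026) (.e (nat_lit 172064) (nat_lit 2) (.e (nat_lit 196666) (nat_lit 13) (.e (nat_lit 65610) (nat_lit 10) (.e (nat_lit 344117) (nat_lit 21) (.e (nat_lit 516106) (nat_lit 0) (.e (nat_lit 2423) (nat_lit 157) (.e (nat_lit 4516) (nat_lit 263) (.e (nat_lit 2619) (nat_lit 164) .nil)))))))) (.g (nat_lit 1) (.e (nat_lit 188827) (nat_lit 0) .nil) .nil))) 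
(.lf (nat_lit 508792) (.g (nat_lit 1016) (.e (nat_lit 172074) (nat_lit 6) (.e (nat_lit 253991) (nat_lit 11) (.e (nat_lit 16462) (nat_lit 13) (.e (nat_lit 483345) (nat_lit 17) .nil)))) (.g (nat_lit 0) (.e (nat_lit 189977) (nat_lit 0) .nil) .nil))))) (.nd (nat_lit 8) (.nd (nat_lit 9) 
(.lf (nat_lit 508152) (.g (nat_lit 2100) (.e (nat_lit 172059) (nat_lit 1) (.e (nat_lit 164403) (nat_lit 256) (.e (nat_lit 57445) (nat_lit 19) (.e (nat_lit 393233) (nat_lit 17) (.e (nat_lit 7583) (nat_lit 405) .nil))))) (.g (nat_lit 0) (.e (nat_lit 188543) (nat_lit 0) .nil) .nil))) 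
(.lf (nat_lit 508664) (.g (nat_lit 3463) (.e (nat_lit 172067) (nat_lit 3) (.e (nat_lit 204868) (nat_lit 29) (.e (nat_lit 360475) (nat_lit 8) (.e (nat_lit 557091) (nat_lit 12) (.e (nat_lit 163843) (nat_lit 0) .nil))))) (.g (nat_lit 0) (.e (nat_lit 189701) (nat_lit 0) .nil) .nil)))) (.nd (nat_lit 9) 
(.lf (nat_lit 508408) (.g (nat_lit 706) (.e (nat_lit 172065) (nat_lit 3) (.e (nat_lit 204846) (nat_lit 24) (.e (nat_lit 319533) (nat_lit 16) .nil))) (.g (nat_lit 0) (.e (nat_lit 189051) (nat_lit 0) .nil) .nil))) 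
(.lf (nat_lit 508920) (.g (nat_lit 728) (.e (nat_lit 172079) (nat_lit 7) (.e (nat_lit 409636) (nat_lit 14) (.e (nat_lit 270373) (nat_lit 16) (.e (nat_lit 286755) (nat_lit 10) (.e (nat_lit 344154) (nat_lit 35) (.e (nat_lit 630802) (nat_lit 8) .nil)))))) (.g (nat_lit 1) (.e (nat_lit 190338) (nat_lit 0) .nil) .nil)))))))))) 
(.nd (nat_lit 3) (.nd (nat_lit 4) (.nd (nat_lit 5) (.nd (nat_lit 6) (.nd (nat_lit 7) 
(.nd (nat_lit 8) (.nd (nat_lit 9) 
(.lf (nat_lit 507908) (.g (nat_lit 2251) (.e (nat_lit 164402) (nat_lit 256) (.e (nat_lit 57378) (nat_lit 3) (.e (nat_lit 98367) (nat_lit 27) (.e (nat_lit 434231) (nat_lit 23) (.e (nat_lit 532514) (nat_lit 3) .nil))))) (.g (nat_lit 0) (.e (nat_lit 188158) (nat_lit 0) .nil) .nil))) 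
(.lf (nat_lit 508420) (.g (nat_lit 2054) (.e (nat_lit 172065) (nat_lit 3) (.e (nat_lit 204855) (nat_lit 26) (.e (nat_lit 336176) (nat_lit 10) (.e (nat_lit 344132) (nat_lit 26) (.e (nat_lit 557088) (nat_lit 12) .nil))))) (.g (nat_lit 0) (.e (nat_lit 189088) (nat_lit 0) .nil) .nil)))) (.nd (nat_lit 9) 
(.lf (nat_lit 508164) (.g (nat_lit 3013) (.e (nat_lit 172062) (nat_lit 2) (.e (nat_lit 196666) (nat_lit 13) (.e (nat_lit 65610) (nat_lit 10) (.e (nat_lit 344117) (nat_lit 21) (.e (nat_lit 516106) (nat_lit 0) (.e (nat_lit 2425) (nat_lit 157) (.e (nat_lit 4516) (nat_lit 263) (.e (nat_lit 2618) (nat_lit 164) .nil)))))))) (.g (nat_lit 1) (.e (nat_lit 188607) (nat_lit 0) .nil) .nil))) 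
(.lf (nat_lit 508676) (.g (nat_lit 1999) (.e (nat_lit 172067) (nat_lit 3) (.e (nat_lit 204869) (nat_lit 29) (.e (nat_lit 360474) (nat_lit 8) (.e (nat_lit 557070) (nat_lit 9) (.e (nat_lit 2397) (nat_lit 157) .nil))))) (.g (nat_lit 0) (.e (nat_lit 189733) (nat_lit 0) .nil) .nil))))) (.nd (nat_lit 8) (.nd (nat_lit 9) 
(.lf (nat_lit 508036) (.g (nat_lit 2032) (.e (nat_lit 164403) (nat_lit 256) (.e (nat_lit 57378) (nat_lit 3) (.e (nat_lit 98365) (nat_lit 26) (.e (nat_lit 426332) (nat_lit 13) (.e (nat_lit 483341) (nat_lit 9) .nil))))) (.g (nat_lit 0) (.e (nat_lit 188312) (nat_lit 0) .nil) .nil))) 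
(.lf (nat_lit 508548) (.g (nat_lit 3910) (.e (nat_lit 172066) (nat_lit 3) (.e (nat_lit 204869) (nat_lit 29) (.e (nat_lit 360475) (nat_lit 8) (.e (nat_lit 557091) (nat_lit 12) (.e (nat_lit 163843) (nat_lit 0) (.e (nat_lit 6255) (nat_lit 337) (.e (nat_lit 2620) (nat_lit 164) .nil))))))) (.g (nat_lit 1) (.e (nat_lit 189368) (nat_lit 0) .nil) .nil)))) (.nd (nat_lit 9) 
(.lf (nat_lit 508292) (.g (nat_lit 2836) (.e (nat_lit 172064) (nat_lit 2) (.e (nat_lit 196666) (nat_lit 13) (.e (nat_lit 65610) (nat_lit 10) (.e (nat_lit 344117) (nat_lit 21) (.e (nat_lit 516107) (nat_lit 0) (.e (nat_lit 3338) (nat_lit 205) (.e (nat_lit 598061) (nat_lit 16) .nil))))))) (.g (nat_lit 1) (.e (nat_lit 188842) (nat_lit 0) .nil) .nil))) 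
(.lf (nat_lit 508804) (.g (nat_lit 1489) (.e (nat_lit 172074) (nat_lit 6) (.e (nat_lit 253992) (nat_lit 11) (.e (nat_lit 16463) (nat_lit 13) (.e (nat_lit 483344) (nat_lit 17) .nil)))) (.g (nat_lit 0) (.e (nat_lit 190005) (nat_lit 0) .nil) .nil)))))) (.nd (nat_lit 7) (.nd (nat_lit 8) (.nd (nat_lit 9) 
(.lf (nat_lit 507972) (.g (nat_lit 531) (.e (nat_lit 164403) (nat_lit 256) (.e (nat_lit 57373) (nat_lit 2) (.e (nat_lit 90168) (nat_lit 13) .nil))) (.g (nat_lit 0) (.e (nat_lit 188238) (nat_lit 0) .nil) .nil))) 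
(.lf (nat_lit 508484) (.g (nat_lit 992) (.e (nat_lit 172066) (nat_lit 3) (.e (nat_lit 204838) (nat_lit 20) (.e (nat_lit 114716) (nat_lit 22) .nil))) (.g (nat_lit 0) (.e (nat_lit 189255) (nat_lit 0) .nil) .nil)))) (.nd (nat_lit 9) 
(.lf (nat_lit 508228) (.g (nat_lit 4812) (.e (nat_lit 172062) (nat_lit 2) (.e (nat_lit 196666) (nat_lit 13) (.e (nat_lit 65617) (nat_lit 10) (.e (nat_lit 344133) (nat_lit 26) (.e (nat_lit 557091) (nat_lit 12) (.e (nat_lit 163844) (nat_lit 0) (.e (nat_lit 6255) (nat_lit 337) (.e (nat_lit 2630) (nat_lit 164) .nil)))))))) (.g (nat_lit 1) (.e (nat_lit 188723) (nat_lit 0) .nil) .nil))) 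
(.lf (nat_lit 508740) (.g (nat_lit 2735) (.e (nat_lit 172067) (nat_lit 3) (.e (nat_lit 204869) (nat_lit 29) (.e (nat_lit 360475) (nat_lit 8) (.e (nat_lit 557091) (nat_lit 12) (.e (nat_lit 164016) (nat_lit 44) (.e (nat_lit 696064) (nat_lit 8) .nil)))))) (.g (nat_lit 1) (.e (nat_lit 189826) (nat_lit 0) .nil) .nil))))) (.nd (nat_lit 8) (.nd (nat_lit 9) 
(.lf (nat_lit 508100) (.g (nat_lit 1913) (.e (nat_lit 172036) (nat_lit 0) (.e (nat_lit 6989) (nat_lit 377) (.e (nat_lit 2777) (nat_lit 178) (.e (nat_lit 286771) (nat_lit 29) .nil)))) (.g (nat_lit 0) (.e (nat_lit 188396) (nat_lit 0) .nil) .nil))) 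
(.lf (nat_lit 508612) (.g (nat_lit 3883) (.e (nat_lit 172067) (nat_lit 3) (.e (nat_lit 204846) (nat_lit 24) (.e (nat_lit 319533) (nat_lit 16) (.e (nat_lit 286735) (nat_lit 3) (.e (nat_lit 98325) (nat_lit 17) (.e (nat_lit 7936) (nat_lit 392) .nil)))))) (.g (nat_lit 1) (.e (nat_lit 189489) (nat_lit 0) .nil) .nil)))) (.nd (nat_lit 9) 
(.lf (nat_lit 508356) (.g (nat_lit 3620) (.e (nat_lit 172064) (nat_lit 2) (.e (nat_lit 196666) (nat_lit 13) (.e (nat_lit 65617) (nat_lit 10) (.e (nat_lit 344132) (nat_lit 26) (.e (nat_lit 557093) (nat_lit 12) (.e (nat_lit 163847) (nat_lit 0) (.e (nat_lit 6252) (nat_lit 337) (.e (nat_lit 2630) (nat_lit 164) .nil)))))))) (.g (nat_lit 1) (.e (nat_lit 188990) (nat_lit 0) .nil) .nil))) 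
(.lf (nat_lit 508868) (.g (nat_lit 843) (.e (nat_lit 172077) (nat_lit 7) (.e (nat_lit 409648) (nat_lit 18) (.e (nat_lit 303137) (nat_lit 10) (.e (nat_lit 434275) (nat_lit 39) .nil)))) (.g (nat_lit 0) (.e (nat_lit 190187) (nat_lit 0) .nil) .nil))))))) (.nd (nat_lit 6) (.nd (nat_lit 7) (.nd (nat_lit 8) (.nd (nat_lit 9) 
(.lf (nat_lit 507940) (.g (nat_lit 4100) (.e (nat_lit 164402) (nat_lit 256) (.e (nat_lit 57427) (nat_lit 15) (.e (nat_lit 360475) (nat_lit 8) (.e (nat_lit 557090) (nat_lit 12) (.e (nat_lit 163856) (nat_lit 0) .nil))))) (.g (nat_lit 0) (.e (nat_lit 188190) (nat_lit 0) .nil) .nil))) 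
(.lf (nat_lit 508452) (.g (nat_lit 3807) (.e (nat_lit 172065) (nat_lit 3) (.e (nat_lit 204868) (nat_lit 29) (.e (nat_lit 360475) (nat_lit 8) (.e (nat_lit 557091) (nat_lit 12) (.e (nat_lit 164019) (nat_lit 45) .nil))))) (.g (nat_lit 0) (.e (nat_lit 189165) (nat_lit 0) .nil) .nil)))) (.nd (nat_lit 9) 
(.lf (nat_lit 508196) (.g (nat_lit 3617) (.e (nat_lit 172062) (nat_lit 2) (.e (nat_lit 196666) (nat_lit 13) (.e (nat_lit 65617) (nat_lit 10) (.e (nat_lit 344127) (nat_lit 26) (.e (nat_lit 557090) (nat_lit 12) (.e (nat_lit 163843) (nat_lit 0) (.e (nat_lit 6374) (nat_lit 337) (.e (nat_lit 2628) (nat_lit 164) .nil)))))))) (.g (nat_lit 1) (.e (nat_lit 188689) (nat_lit 0) .nil) .nil))) 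
(.lf (nat_lit 508708) (.g (nat_lit 3227) (.e (nat_lit 172067) (nat_lit 3) (.e (nat_lit 204869) (nat_lit 29) (.e (nat_lit 360475) (nat_lit 8) (.e (nat_lit 557089) (nat_lit 12) (.e (nat_lit 163848) (nat_lit 0) (.e (nat_lit 6252) (nat_lit 337) (.e (nat_lit 2620) (nat_lit 164) .nil))))))) (.g (nat_lit 1) (.e (nat_lit 189782) (nat_lit 0) .nil) .nil))))) (.nd (nat_lit 8) (.nd (nat_lit 9) 
(.lf (nat_lit 508068) (.g (nat_lit 1718) (.e (nat_lit 164403) (nat_lit 256) (.e (nat_lit 57406) (nat_lit 12) (.e (nat_lit 336432) (nat_lit 30) (.e (nat_lit 450579) (nat_lit 5) (.e (nat_lit 532579) (nat_lit 26) .nil))))) (.g (nat_lit 0) (.e (nat_lit 188344) (nat_lit 0) .nil) .nil))) 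
(.lf (nat_lit 508580) (.g (nat_lit 3094) (.e (nat_lit 172067) (nat_lit 3) (.e (nat_lit 204845) (nat_lit 24) (.e (nat_lit 319530) (nat_lit 16) (.e (nat_lit 286735) (nat_lit 3) (.e (nat_lit 98325) (nat_lit 17) (.e (nat_lit 7936) (nat_lit 392) .nil)))))) (.g (nat_lit 1) (.e (nat_lit 189435) (nat_lit 0) .nil) .nil)))) (.nd (nat_lit 9) 
(.lf (nat_lit 508324) (.g (nat_lit 2810) (.e (nat_lit 172064) (nat_lit 2) (.e (nat_lit 196666) (nat_lit 13) (.e (nat_lit 65610) (nat_lit 10) (.e (nat_lit 344129) (nat_lit 26) (.e (nat_lit 557090) (nat_lit 12) (.e (nat_lit 164018) (nat_lit 45) (.e (nat_lit 696342) (nat_lit 8) .nil))))))) (.g (nat_lit 1) (.e (nat_lit 188957) (nat_lit 0) .nil) .nil))) 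
(.lf (nat_lit 508836) (.g (nat_lit 1631) (.e (nat_lit 172076) (nat_lit 6) (.e (nat_lit 253991) (nat_lit 11) (.e (nat_lit 16465) (nat_lit 13) (.e (nat_lit 483361) (nat_lit 17) .nil)))) (.g (nat_lit 0) (.e (nat_lit 190096) (nat_lit 0) .nil) .nil)))))) (.nd (nat_lit 7) (.nd (nat_lit 8) (.nd (nat_lit 9) 
(.lf (nat_lit 508004) (.g (nat_lit 1830) (.e (nat_lit 164403) (nat_lit 256) (.e (nat_lit 57377) (nat_lit 3) (.e (nat_lit 98355) (nat_lit 26) (.e (nat_lit 426323) (nat_lit 13) (.e (nat_lit 483337) (nat_lit 9) .nil))))) (.g (nat_lit 0) (.e (nat_lit 188270) (nat_lit 0) .nil) .nil))) 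
(.lf (nat_lit 508516) (.g (nat_lit 2157) (.e (nat_lit 172066) (nat_lit 3) (.e (nat_lit 204868) (nat_lit 29) (.e (nat_lit 360473) (nat_lit 8) (.e (nat_lit 557089) (nat_lit 12) (.e (nat_lit 163843) (nat_lit 0) .nil))))) (.g (nat_lit 0) (.e (nat_lit 189314) (nat_lit 0) .nil) .nil)))) (.nd (nat_lit 9) 
(.lf (nat_lit 508260) (.g (nat_lit 3972) (.e (nat_lit 172064) (nat_lit 2) (.e (nat_lit 196666) (nat_lit 13) (.e (nat_lit 65610) (nat_lit 10) (.e (nat_lit 344117) (nat_lit 21) (.e (nat_lit 516097) (nat_lit 0) (.e (nat_lit 2430) (nat_lit 157) (.e (nat_lit 4516) (nat_lit 263) (.e (nat_lit 2629) (nat_lit 164) .nil)))))))) (.g (nat_lit 1) (.e (nat_lit 188804) (nat_lit 0) .nil) .nil))) 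
(.lf (nat_lit 508772) (.g (nat_lit 530) (.e (nat_lit 172070) (nat_lit 4) (.e (nat_lit 229663) (nat_lit 240) (.e (nat_lit 2612) (nat_lit 163) .nil))) (.g (nat_lit 0) (.e (nat_lit 189894) (nat_lit 0) .nil) .nil))))) (.nd (nat_lit 8) (.nd (nat_lit 9) 
(.lf (nat_lit 508132) (.g (nat_lit 1795) (.e (nat_lit 172051) (nat_lit 0) (.e (nat_lit 3307) (nat_lit 202) (.e (nat_lit 573477) (nat_lit 12) (.e (nat_lit 57751) (nat_lit 201) .nil)))) (.g (nat_lit 0) (.e (nat_lit 188504) (nat_lit 0) .nil) .nil))) 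
(.lf (nat_lit 508644) (.g (nat_lit 483) (.e (nat_lit 172067) (nat_lit 3) (.e (nat_lit 204868) (nat_lit 29) (.e (nat_lit 368384) (nat_lit 1) .nil))) (.g (nat_lit 0) (.e (nat_lit 189623) (nat_lit 0) .nil) .nil)))) (.nd (nat_lit 9) 
(.lf (nat_lit 508388) (.g (nat_lit 3838) (.e (nat_lit 172065) (nat_lit 3) (.e (nat_lit 204831) (nat_lit 18) (.e (nat_lit 57692) (nat_lit 156) (.e (nat_lit 163874) (nat_lit 3) (.e (nat_lit 204837) (nat_lit 20) (.e (nat_lit 114715) (nat_lit 22) (.e (nat_lit 90170) (nat_lit 13) .nil))))))) (.g (nat_lit 1) (.e (nat_lit 189028) (nat_lit 0) .nil) .nil))) 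
(.lf (nat_lit 508900) (.g (nat_lit 928) (.e (nat_lit 172078) (nat_lit 7) (.e (nat_lit 409649) (nat_lit 18) (.e (nat_lit 303140) (nat_lit 10) .nil))) (.g (nat_lit 0) (.e (nat_lit 190291) (nat_lit 0) .nil) .nil)))))))) (.nd (nat_lit 5) (.nd (nat_lit 6) (.nd (nat_lit 7) (.nd (nat_lit 8) (.nd (nat_lit 9) 
(.lf (nat_lit 507924) (.g (nat_lit 1891) (.e (nat_lit 164402) (nat_lit 256) (.e (nat_lit 57409) (nat_lit 12) (.e (nat_lit 336443) (nat_lit 32) (.e (nat_lit 466977) (nat_lit 22) (.e (nat_lit 196654) (nat_lit 11) .nil))))) (.g (nat_lit 0) (.e (nat_lit 188174) (nat_lit 0) .nil) .nil))) 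
(.lf (nat_lit 508436) (.g (nat_lit 3510) (.e (nat_lit 172065) (nat_lit 3) (.e (nat_lit 204868) (nat_lit 29) (.e (nat_lit 360475) (nat_lit 8) (.e (nat_lit 557089) (nat_lit 12) (.e (nat_lit 163843) (nat_lit 0) .nil))))) (.g (nat_lit 0) (.e (nat_lit 189144) (nat_lit 0) .nil) .nil)))) (.nd (nat_lit 9) 
(.lf (nat_lit 508180) (.g (nat_lit 3977) (.e (nat_lit 172062) (nat_lit 2) (.e (nat_lit 196666) (nat_lit 13) (.e (nat_lit 65610) (nat_lit 10) (.e (nat_lit 344129) (nat_lit 26) (.e (nat_lit 557090) (nat_lit 12) (.e (nat_lit 163844) (nat_lit 0) (.e (nat_lit 6252) (nat_lit 337) (.e (nat_lit 2630) (nat_lit 164) .nil)))))))) (.g (nat_lit 1) (.e (nat_lit 188672) (nat_lit 0) .nil) .nil))) 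
(.lf (nat_lit 508692) (.g (nat_lit 2146) (.e (nat_lit 172067) (nat_lit 3) (.e (nat_lit 204869) (nat_lit 29) (.e (nat_lit 360474) (nat_lit 8) (.e (nat_lit 557094) (nat_lit 12) (.e (nat_lit 164016) (nat_lit 44) (.e (nat_lit 696064) (nat_lit 8) .nil)))))) (.g (nat_lit 1) (.e (nat_lit 189749) (nat_lit 0) .nil) .nil))))) (.nd (nat_lit 8) (.nd (nat_lit 9) 
(.lf (nat_lit 508052) (.g (nat_lit 4877) (.e (nat_lit 164403) (nat_lit 256) (.e (nat_lit 57378) (nat_lit 3) (.e (nat_lit 98368) (nat_lit 27) (.e (nat_lit 434248) (nat_lit 28) (.e (nat_lit 573489) (nat_lit 14) (.e (nat_lit 73755) (nat_lit 8) (.e (nat_lit 557067) (nat_lit 9) (.e (nat_lit 2603) (nat_lit 163) .nil)))))))) (.g (nat_lit 1) (.e (nat_lit 188328) (nat_lit 0) .nil) .nil))) 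
(.lf (nat_lit 508564) (.g (nat_lit 2547) (.e (nat_lit 172067) (nat_lit 3) (.e (nat_lit 204829) (nat_lit 18) (.e (nat_lit 57688) (nat_lit 156) (.e (nat_lit 163875) (nat_lit 3) (.e (nat_lit 204836) (nat_lit 20) .nil))))) (.g (nat_lit 0) (.e (nat_lit 189414) (nat_lit 0) .nil) .nil)))) (.nd (nat_lit 9) 
(.lf (nat_lit 508308) (.g (nat_lit 2494) (.e (nat_lit 172064) (nat_lit 2) (.e (nat_lit 196666) (nat_lit 13) (.e (nat_lit 65610) (nat_lit 10) (.e (nat_lit 344129) (nat_lit 26) (.e (nat_lit 557090) (nat_lit 12) (.e (nat_lit 163841) (nat_lit 0) (.e (nat_lit 6374) (nat_lit 337) (.e (nat_lit 2628) (nat_lit 164) .nil)))))))) (.g (nat_lit 1) (.e (nat_lit 188940) (nat_lit 0) .nil) .nil))) 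
(.lf (nat_lit 508820) (.g (nat_lit 1356) (.e (nat_lit 172076) (nat_lit 6) (.e (nat_lit 253988) (nat_lit 11) (.e (nat_lit 16465) (nat_lit 13) (.e (nat_lit 483344) (nat_lit 17) (.e (nat_lit 7936) (nat_lit 361) .nil))))) (.g (nat_lit 0) (.e (nat_lit 190059) (nat_lit 0) .nil) .nil)))))) (.nd (nat_lit 7) (.nd (nat_lit 8) (.nd (nat_lit 9) 
(.lf (nat_lit 507988) (.g (nat_lit 2371) (.e (nat_lit 164403) (nat_lit 256) (.e (nat_lit 57373) (nat_lit 2) (.e (nat_lit 90174) (nat_lit 14) (.e (nat_lit 180245) (nat_lit 5) (.e (nat_lit 532515) (nat_lit 3) .nil))))) (.g (nat_lit 0) (.e (nat_lit 188254) (nat_lit 0) .nil) .nil))) 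
(.lf (nat_lit 508500) (.g (nat_lit 3115) (.e (nat_lit 172066) (nat_lit 3) (.e (nat_lit 204846) (nat_lit 24) (.e (nat_lit 319530) (nat_lit 16) (.e (nat_lit 286735) (nat_lit 3) (.e (nat_lit 98325) (nat_lit 17) (.e (nat_lit 7936) (nat_lit 392) .nil)))))) (.g (nat_lit 1) (.e (nat_lit 189276) (nat_lit 0) .nil) .nil)))) (.nd (nat_lit 9) 
(.lf (nat_lit 508244) (.g (nat_lit 2758) (.e (nat_lit 172063) (nat_lit 2) (.e (nat_lit 196666) (nat_lit 13) (.e (nat_lit 65617) (nat_lit 10) (.e (nat_lit 344132) (nat_lit 26) (.e (nat_lit 557091) (nat_lit 12) (.e (nat_lit 164020) (nat_lit 45) (.e (nat_lit 696344) (nat_lit 8) .nil))))))) (.g (nat_lit 1) (.e (nat_lit 188755) (nat_lit 0) .nil) .nil))) 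
(.lf (nat_lit 508756) (.g (nat_lit 2592) (.e (nat_lit 179968) (nat_lit 3) (.e (nat_lit 204869) (nat_lit 29) (.e (nat_lit 360474) (nat_lit 8) (.e (nat_lit 557091) (nat_lit 12) .nil)))) (.g (nat_lit 0) (.e (nat_lit 189875) (nat_lit 0) .nil) .nil))))) (.nd (nat_lit 8) (.nd (nat_lit 9) 
(.lf (nat_lit 508116) (.g (nat_lit 433) (.e (nat_lit 172039) (nat_lit 0) (.e (nat_lit 7107) (nat_lit 380) (.e (nat_lit 164339) (nat_lit 232) .nil))) (.g (nat_lit 0) (.e (nat_lit 188421) (nat_lit 0) .nil) .nil))) 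
(.lf (nat_lit 508628) (.g (nat_lit 3745) (.e (nat_lit 172067) (nat_lit 3) (.e (nat_lit 204855) (nat_lit 26) (.e (nat_lit 336099) (nat_lit 9) (.e (nat_lit 336013) (nat_lit 2) (.e (nat_lit 90204) (nat_lit 22) .nil))))) (.g (nat_lit 0) (.e (nat_lit 189540) (nat_lit 0) .nil) .nil)))) (.nd (nat_lit 9) 
(.lf (nat_lit 508372) (.g (nat_lit 4167) (.e (nat_lit 172064) (nat_lit 2) (.e (nat_lit 196666) (nat_lit 13) (.e (nat_lit 65617) (nat_lit 10) (.e (nat_lit 344133) (nat_lit 26) (.e (nat_lit 557091) (nat_lit 12) (.e (nat_lit 163843) (nat_lit 0) (.e (nat_lit 6374) (nat_lit 337) (.e (nat_lit 2628) (nat_lit 164) .nil)))))))) (.g (nat_lit 1) (.e (nat_lit 189006) (nat_lit 0) .nil) .nil))) 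
(.lf (nat_lit 508884) (.g (nat_lit 2198) (.e (nat_lit 172078) (nat_lit 7) (.e (nat_lit 409645) (nat_lit 18) (.e (nat_lit 303143) (nat_lit 12) (.e (nat_lit 475220) (nat_lit 44) (.e (nat_lit 737303) (nat_lit 11) .nil))))) (.g (nat_lit 0) (.e (nat_lit 190263) (nat_lit 0) .nil) .nil))))))) (.nd (nat_lit 6) (.nd (nat_lit 7) (.nd (nat_lit 8) (.nd (nat_lit 9) 
(.lf (nat_lit 507956) (.g (nat_lit 2775) (.e (nat_lit 164403) (nat_lit 256) (.e (nat_lit 57371) (nat_lit 2) (.e (nat_lit 90174) (nat_lit 14) (.e (nat_lit 180243) (nat_lit 5) (.e (nat_lit 532515) (nat_lit 3) (.e (nat_lit 114716) (nat_lit 22) (.e (nat_lit 90129) (nat_lit 9) (.e (nat_lit 2603) (nat_lit 163) .nil)))))))) (.g (nat_lit 1) (.e (nat_lit 188217) (nat_lit 0) .nil) .nil))) 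
(.lf (nat_lit 508468) (.g (nat_lit 2601) (.e (nat_lit 172065) (nat_lit 3) (.e (nat_lit 204869) (nat_lit 29) (.e (nat_lit 360475) (nat_lit 8) (.e (nat_lit 557089) (nat_lit 12) (.e (nat_lit 164018) (nat_lit 45) .nil))))) (.g (nat_lit 0) (.e (nat_lit 189184) (nat_lit 0) .nil) .nil)))) (.nd (nat_lit 9) 
(.lf (nat_lit 508212) (.g (nat_lit 2804) (.e (nat_lit 172062) (nat_lit 2) (.e (nat_lit 196666) (nat_lit 13) (.e (nat_lit 65617) (nat_lit 10) (.e (nat_lit 344132) (nat_lit 26) (.e (nat_lit 557091) (nat_lit 12) (.e (nat_lit 163843) (nat_lit 0) (.e (nat_lit 6255) (nat_lit 337) (.e (nat_lit 2630) (nat_lit 164) .nil)))))))) (.g (nat_lit 1) (.e (nat_lit 188707) (nat_lit 0) .nil) .nil))) 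
(.lf (nat_lit 508724) (.g (nat_lit 3215) (.e (nat_lit 172067) (nat_lit 3) (.e (nat_lit 204869) (nat_lit 29) (.e (nat_lit 360475) (nat_lit 8) (.e (nat_lit 557091) (nat_lit 12) (.e (nat_lit 163843) (nat_lit 0) (.e (nat_lit 6250) (nat_lit 337) (.e (nat_lit 2620) (nat_lit 164) .nil))))))) (.g (nat_lit 1) (.e (nat_lit 189804) (nat_lit 0) .nil) .nil))))) (.nd (nat_lit 8) (.nd (nat_lit 9) 
(.lf (nat_lit 508084) (.g (nat_lit 1079) (.e (nat_lit 164403) (nat_lit 256) (.e (nat_lit 57588) (nat_lit 73) (.e (nat_lit 426139) (nat_lit 3) (.e (nat_lit 204880) (nat_lit 32) .nil)))) (.g (nat_lit 0) (.e (nat_lit 188369) (nat_lit 0) .nil) .nil))) 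
(.lf (nat_lit 508596) (.g (nat_lit 3432) (.e (nat_lit 172067) (nat_lit 3) (.e (nat_lit 204846) (nat_lit 24) (.e (nat_lit 319530) (nat_lit 16) (.e (nat_lit 286735) (nat_lit 3) (.e (nat_lit 98321) (nat_lit 17) (.e (nat_lit 7936) (nat_lit 392) .nil)))))) (.g (nat_lit 1) (.e (nat_lit 189461) (nat_lit 0) .nil) .nil)))) (.nd (nat_lit 9) 
(.lf (nat_lit 508340) (.g (nat_lit 2762) (.e (nat_lit 172064) (nat_lit 2) (.e (nat_lit 196666) (nat_lit 13) (.e (nat_lit 65617) (nat_lit 10) (.e (nat_lit 344130) (nat_lit 26) (.e (nat_lit 557089) (nat_lit 12) (.e (nat_lit 163843) (nat_lit 0) (.e (nat_lit 6252) (nat_lit 337) (.e (nat_lit 2630) (nat_lit 164) .nil)))))))) (.g (nat_lit 1) (.e (nat_lit 188974) (nat_lit 0) .nil) .nil))) 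
(.lf (nat_lit 508852) (.g (nat_lit 2430) (.e (nat_lit 172076) (nat_lit 6) (.e (nat_lit 253992) (nat_lit 11) (.e (nat_lit 16463) (nat_lit 13) (.e (nat_lit 483346) (nat_lit 17) (.e (nat_lit 6718) (nat_lit 361) .nil))))) (.g (nat_lit 1) (.e (nat_lit 190132) (nat_lit 0) .nil) .nil)))))) (.nd (nat_lit 7) (.nd (nat_lit 8) (.nd (nat_lit 9) 
(.lf (nat_lit 508020) (.g (nat_lit 2066) (.e (nat_lit 164403) (nat_lit 256) (.e (nat_lit 57378) (nat_lit 3) (.e (nat_lit 98355) (nat_lit 26) (.e (nat_lit 426323) (nat_lit 13) (.e (nat_lit 483336) (nat_lit 9) .nil))))) (.g (nat_lit 0) (.e (nat_lit 188295) (nat_lit 0) .nil) .nil))) 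
(.lf (nat_lit 508532) (.g (nat_lit 5500) (.e (nat_lit 172066) (nat_lit 3) (.e (nat_lit 204869) (nat_lit 29) (.e (nat_lit 360475) (nat_lit 8) (.e (nat_lit 557089) (nat_lit 12) (.e (nat_lit 163844) (nat_lit 0) (.e (nat_lit 6255) (nat_lit 337) (.e (nat_lit 2630) (nat_lit 164) .nil))))))) (.g (nat_lit 1) (.e (nat_lit 189338) (nat_lit 0) .nil) .nil)))) (.nd (nat_lit 9) 
(.lf (nat_lit 508276) (.g (nat_lit 2574) (.e (nat_lit 172064) (nat_lit 2) (.e (nat_lit 196666) (nat_lit 13) (.e (nat_lit 65610) (nat_lit 10) (.e (nat_lit 344117) (nat_lit 21) (.e (nat_lit 516099) (nat_lit 0) (.e (nat_lit 3341) (nat_lit 205) (.e (nat_lit 598061) (nat_lit 16) .nil))))))) (.g (nat_lit 1) (.e (nat_lit 188823) (nat_lit 0) .nil) .nil))) 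
(.lf (nat_lit 508788) (.g (nat_lit 1034) (.e (nat_lit 172074) (nat_lit 6) (.e (nat_lit 253989) (nat_lit 11) (.e (nat_lit 16435) (nat_lit 9) (.e (nat_lit 426550) (nat_lit 31) (.e (nat_lit 376576) (nat_lit 4) .nil))))) (.g (nat_lit 0) (.e (nat_lit 189963) (nat_lit 0) .nil) .nil))))) (.nd (nat_lit 8) (.nd (nat_lit 9) 
(.lf (nat_lit 508148) (.g (nat_lit 1893) (.e (nat_lit 172059) (nat_lit 1) (.e (nat_lit 164399) (nat_lit 256) (.e (nat_lit 57447) (nat_lit 19) (.e (nat_lit 393233) (nat_lit 17) .nil)))) (.g (nat_lit 0) (.e (nat_lit 188539) (nat_lit 0) .nil) .nil))) 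
(.lf (nat_lit 508660) (.g (nat_lit 4351) (.e (nat_lit 172067) (nat_lit 3) (.e (nat_lit 204868) (nat_lit 29) (.e (nat_lit 360475) (nat_lit 8) (.e (nat_lit 557089) (nat_lit 12) (.e (nat_lit 163843) (nat_lit 0) (.e (nat_lit 6254) (nat_lit 337) (.e (nat_lit 2630) (nat_lit 164) .nil))))))) (.g (nat_lit 1) (.e (nat_lit 189690) (nat_lit 0) .nil) .nil)))) (.nd (nat_lit 9) 
(.lf (nat_lit 508404) (.g (nat_lit 2745) (.e (nat_lit 172065) (nat_lit 3) (.e (nat_lit 204846) (nat_lit 24) (.e (nat_lit 319530) (nat_lit 16) (.e (nat_lit 286735) (nat_lit 3) (.e (nat_lit 98325) (nat_lit 17) (.e (nat_lit 7936) (nat_lit 392) .nil)))))) (.g (nat_lit 1) (.e (nat_lit 189047) (nat_lit 0) .nil) .nil))) 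
(.lf (nat_lit 508916) (.g (nat_lit 506) (.e (nat_lit 172079) (nat_lit 7) (.e (nat_lit 409618) (nat_lit 10) (.e (nat_lit 5012) (nat_lit 289) .nil))) (.g (nat_lit 0) (.e (nat_lit 190325) (nat_lit 0) .nil) .nil))))))))) (.nd (nat_lit 4) (.nd (nat_lit 5) (.nd (nat_lit 6) (.nd (nat_lit 7) (.nd (nat_lit 8) (.nd (nat_lit 9) 
(.lf (nat_lit 507916) (.g (nat_lit 2342) (.e (nat_lit 164402) (nat_lit 256) (.e (nat_lit 57400) (nat_lit 10) (.e (nat_lit 319534) (nat_lit 16) (.e (nat_lit 286748) (nat_lit 9) (.e (nat_lit 343808) (nat_lit 32) .nil))))) (.g (nat_lit 0) (.e (nat_lit 188166) (nat_lit 0) .nil) .nil))) 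
(.lf (nat_lit 508428) (.g (nat_lit 2305) (.e (nat_lit 172065) (nat_lit 3) (.e (nat_lit 204868) (nat_lit 29) (.e (nat_lit 360473) (nat_lit 8) (.e (nat_lit 557067) (nat_lit 9) (.e (nat_lit 2467) (nat_lit 157) .nil))))) (.g (nat_lit 0) (.e (nat_lit 189131) (nat_lit 0) .nil) .nil)))) (.nd (nat_lit 9) 
(.lf (nat_lit 508172) (.g (nat_lit 2378) (.e (nat_lit 172062) (nat_lit 2) (.e (nat_lit 196666) (nat_lit 13) (.e (nat_lit 65610) (nat_lit 10) (.e (nat_lit 344129) (nat_lit 26) (.e (nat_lit 557089) (nat_lit 12) (.e (nat_lit 163850) (nat_lit 0) (.e (nat_lit 6273) (nat_lit 337) (.e (nat_lit 2632) (nat_lit 164) .nil)))))))) (.g (nat_lit 1) (.e (nat_lit 188664) (nat_lit 0) .nil) .nil))) 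
(.lf (nat_lit 508684) (.g (nat_lit 1390) (.e (nat_lit 172067) (nat_lit 3) (.e (nat_lit 204869) (nat_lit 29) (.e (nat_lit 360474) (nat_lit 8) (.e (nat_lit 557093) (nat_lit 12) .nil)))) (.g (nat_lit 0) (.e (nat_lit 189741) (nat_lit 0) .nil) .nil))))) (.nd (nat_lit 8) (.nd (nat_lit 9) 
(.lf (nat_lit 508044) (.g (nat_lit 2717) (.e (nat_lit 164403) (nat_lit 256) (.e (nat_lit 57378) (nat_lit 3) (.e (nat_lit 98368) (nat_lit 27) (.e (nat_lit 434231) (nat_lit 23) (.e (nat_lit 532514) (nat_lit 3) .nil))))) (.g (nat_lit 0) (.e (nat_lit 188320) (nat_lit 0) .nil) .nil))) 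
(.lf (nat_lit 508556) (.g (nat_lit 3008) (.e (nat_lit 172066) (nat_lit 3) (.e (nat_lit 204869) (nat_lit 29) (.e (nat_lit 360475) (nat_lit 8) (.e (nat_lit 557091) (nat_lit 12) (.e (nat_lit 164017) (nat_lit 44) (.e (nat_lit 696064) (nat_lit 8) .nil)))))) (.g (nat_lit 1) (.e (nat_lit 189382) (nat_lit 0) .nil) .nil)))) (.nd (nat_lit 9) 
(.lf (nat_lit 508300) (.g (nat_lit 2840) (.e (nat_lit 172064) (nat_lit 2) (.e (nat_lit 196666) (nat_lit 13) (.e (nat_lit 65610) (nat_lit 10) (.e (nat_lit 344129) (nat_lit 26) (.e (nat_lit 557089) (nat_lit 12) (.e (nat_lit 163848) (nat_lit 0) (.e (nat_lit 6254) (nat_lit 337) (.e (nat_lit 2630) (nat_lit 164) .nil)))))))) (.g (nat_lit 1) (.e (nat_lit 188932) (nat_lit 0) .nil) .nil))) 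
(.lf (nat_lit 508812) (.g (nat_lit 1637) (.e (nat_lit 172074) (nat_lit 6) (.e (nat_lit 253992) (nat_lit 11) (.e (nat_lit 16466) (nat_lit 13) (.e (nat_lit 483361) (nat_lit 17) (.e (nat_lit 7936) (nat_lit 361) .nil))))) (.g (nat_lit 1) (.e (nat_lit 190014) (nat_lit 0) .nil) .nil)))))) (.nd (nat_lit 7) (.nd (nat_lit 8) (.nd (nat_lit 9) 
(.lf (nat_lit 507980) (.g (nat_lit 2505) (.e (nat_lit 164403) (nat_lit 256) (.e (nat_lit 57373) (nat_lit 2) (.e (nat_lit 90173) (nat_lit 14) (.e (nat_lit 180252) (nat_lit 10) (.e (nat_lit 573489) (nat_lit 14) (.e (nat_lit 73755) (nat_lit 8) (.e (nat_lit 557074) (nat_lit 9) (.e (nat_lit 2609) (nat_lit 163) .nil)))))))) (.g (nat_lit 1) (.e (nat_lit 188246) (nat_lit 0) .nil) .nil))) 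
(.lf (nat_lit 508492) (.g (nat_lit 1383) (.e (nat_lit 172066) (nat_lit 3) (.e (nat_lit 204846) (nat_lit 24) (.e (nat_lit 319511) (nat_lit 10) (.e (nat_lit 5293) (nat_lit 298) (.e (nat_lit 1250) (nat_lit 92) .nil))))) (.g (nat_lit 0) (.e (nat_lit 189265) (nat_lit 0) .nil) .nil)))) (.nd (nat_lit 9) 
(.lf (nat_lit 508236) (.g (nat_lit 2240) (.e (nat_lit 172063) (nat_lit 2) (.e (nat_lit 196666) (nat_lit 13) (.e (nat_lit 65610) (nat_lit 10) (.e (nat_lit 344117) (nat_lit 21) .nil)))) (.g (nat_lit 0) (.e (nat_lit 188746) (nat_lit 0) .nil) .nil))) 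
(.lf (nat_lit 508748) (.g (nat_lit 1883) (.e (nat_lit 172067) (nat_lit 3) (.e (nat_lit 204885) (nat_lit 33) (.e (nat_lit 401446) (nat_lit 10) (.e (nat_lit 434219) (nat_lit 19) (.e (nat_lit 499965) (nat_lit 14) .nil))))) (.g (nat_lit 0) (.e (nat_lit 189852) (nat_lit 0) .nil) .nil))))) (.nd (nat_lit 8) (.nd (nat_lit 9) 
(.lf (nat_lit 508108) (.g (nat_lit 3748) (.e (nat_lit 172039) (nat_lit 0) (.e (nat_lit 3401) (nat_lit 211) (.e (nat_lit 647181) (nat_lit 3) (.e (nat_lit 163977) (nat_lit 30) (.e (nat_lit 573491) (nat_lit 15) (.e (nat_lit 81951) (nat_lit 22) (.e (nat_lit 90170) (nat_lit 13) .nil))))))) (.g (nat_lit 1) (.e (nat_lit 188409) (nat_lit 0) .nil) .nil))) 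
(.lf (nat_lit 508620) (.g (nat_lit 4089) (.e (nat_lit 172067) (nat_lit 3) (.e (nat_lit 204846) (nat_lit 24) (.e (nat_lit 319534) (nat_lit 16) (.e (nat_lit 286735) (nat_lit 3) (.e (nat_lit 98325) (nat_lit 17) (.e (nat_lit 7936) (nat_lit 392) .nil)))))) (.g (nat_lit 1) (.e (nat_lit 189501) (nat_lit 0) .nil) .nil)))) (.nd (nat_lit 9) 
(.lf (nat_lit 508364) (.g (nat_lit 2792) (.e (nat_lit 172064) (nat_lit 2) (.e (nat_lit 196666) (nat_lit 13) (.e (nat_lit 65617) (nat_lit 10) (.e (nat_lit 344133) (nat_lit 26) (.e (nat_lit 557089) (nat_lit 12) (.e (nat_lit 164019) (nat_lit 45) (.e (nat_lit 696343) (nat_lit 8) .nil))))))) (.g (nat_lit 1) (.e (nat_lit 188998) (nat_lit 0) .nil) .nil))) 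
(.lf (nat_lit 508876) (.g (nat_lit 1264) (.e (nat_lit 172078) (nat_lit 7) (.e (nat_lit 409645) (nat_lit 18) (.e (nat_lit 303143) (nat_lit 12) (.e (nat_lit 475199) (nat_lit 40) .nil)))) (.g (nat_lit 0) (.e (nat_lit 190250) (nat_lit 0) .nil) .nil))))))) (.nd (nat_lit 6) (.nd (nat_lit 7) (.nd (nat_lit 8) (.nd (nat_lit 9) 
(.lf (nat_lit 507948) (.g (nat_lit 1685) (.e (nat_lit 164403) (nat_lit 256) (.e (nat_lit 57371) (nat_lit 2) (.e (nat_lit 90167) (nat_lit 13) (.e (nat_lit 172065) (nat_lit 3) (.e (nat_lit 204837) (nat_lit 20) .nil))))) (.g (nat_lit 0) (.e (nat_lit 188209) (nat_lit 0) .nil) .nil))) 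
(.lf (nat_lit 508460) (.g (nat_lit 1840) (.e (nat_lit 172065) (nat_lit 3) (.e (nat_lit 204869) (nat_lit 29) (.e (nat_lit 360475) (nat_lit 8) (.e (nat_lit 557065) (nat_lit 9) .nil)))) (.g (nat_lit 0) (.e (nat_lit 189176) (nat_lit 0) .nil) .nil)))) (.nd (nat_lit 9) 
(.lf (nat_lit 508204) (.g (nat_lit 5218) (.e (nat_lit 172062) (nat_lit 2) (.e (nat_lit 196666) (nat_lit 13) (.e (nat_lit 65617) (nat_lit 10) (.e (nat_lit 344130) (nat_lit 26) (.e (nat_lit 557090) (nat_lit 12) (.e (nat_lit 163844) (nat_lit 0) (.e (nat_lit 6255) (nat_lit 337) (.e (nat_lit 2630) (nat_lit 164) .nil)))))))) (.g (nat_lit 1) (.e (nat_lit 188699) (nat_lit 0) .nil) .nil))) 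
(.lf (nat_lit 508716) (.g (nat_lit 2545) (.e (nat_lit 172067) (nat_lit 3) (.e (nat_lit 204869) (nat_lit 29) (.e (nat_lit 360475) (nat_lit 8) (.e (nat_lit 557089) (nat_lit 12) (.e (nat_lit 164018) (nat_lit 45) .nil))))) (.g (nat_lit 0) (.e (nat_lit 189791) (nat_lit 0) .nil) .nil))))) (.nd (nat_lit 8) (.nd (nat_lit 9) 
(.lf (nat_lit 508076) (.g (nat_lit 1652) (.e (nat_lit 164403) (nat_lit 256) (.e (nat_lit 57409) (nat_lit 12) (.e (nat_lit 336432) (nat_lit 30) (.e (nat_lit 450579) (nat_lit 5) (.e (nat_lit 532579) (nat_lit 26) .nil))))) (.g (nat_lit 0) (.e (nat_lit 188353) (nat_lit 0) .nil) .nil))) 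
(.lf (nat_lit 508588) (.g (nat_lit 3051) (.e (nat_lit 172067) (nat_lit 3) (.e (nat_lit 204846) (nat_lit 24) (.e (nat_lit 319528) (nat_lit 16) (.e (nat_lit 286735) (nat_lit 3) (.e (nat_lit 98320) (nat_lit 17) (.e (nat_lit 7386) (nat_lit 392) .nil)))))) (.g (nat_lit 1) (.e (nat_lit 189451) (nat_lit 0) .nil) .nil)))) (.nd (nat_lit 9) 
(.lf (nat_lit 508332) (.g (nat_lit 3202) (.e (nat_lit 172064) (nat_lit 2) (.e (nat_lit 196666) (nat_lit 13) (.e (nat_lit 65617) (nat_lit 10) (.e (nat_lit 344127) (nat_lit 26) (.e (nat_lit 557090) (nat_lit 12) (.e (nat_lit 163847) (nat_lit 0) (.e (nat_lit 6252) (nat_lit 337) (.e (nat_lit 2630) (nat_lit 164) .nil)))))))) (.g (nat_lit 1) (.e (nat_lit 188966) (nat_lit 0) .nil) .nil))) 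
(.lf (nat_lit 508844) (.g (nat_lit 1695) (.e (nat_lit 172076) (nat_lit 6) (.e (nat_lit 253991) (nat_lit 11) (.e (nat_lit 16466) (nat_lit 13) (.e (nat_lit 483352) (nat_lit 17) .nil)))) (.g (nat_lit 0) (.e (nat_lit 190104) (nat_lit 0) .nil) .nil)))))) (.nd (nat_lit 7) (.nd (nat_lit 8) (.nd (nat_lit 9) 
(.lf (nat_lit 508012) (.g (nat_lit 3324) (.e (nat_lit 164403) (nat_lit 256) (.e (nat_lit 57377) (nat_lit 3) (.e (nat_lit 98365) (nat_lit 26) (.e (nat_lit 426325) (nat_lit 13) (.e (nat_lit 483341) (nat_lit 9) (.e (nat_lit 426108) (nat_lit 1) .nil)))))) (.g (nat_lit 1) (.e (nat_lit 188279) (nat_lit 0) .nil) .nil))) 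
(.lf (nat_lit 508524) (.g (nat_lit 2888) (.e (nat_lit 172066) (nat_lit 3) (.e (nat_lit 204869) (nat_lit 29) (.e (nat_lit 360474) (nat_lit 8) (.e (nat_lit 557089) (nat_lit 12) .nil)))) (.g (nat_lit 0) (.e (nat_lit 189323) (nat_lit 0) .nil) .nil)))) (.nd (nat_lit 9) 
(.lf (nat_lit 508268) (.g (nat_lit 2579) (.e (nat_lit 172064) (nat_lit 2) (.e (nat_lit 196666) (nat_lit 13) (.e (nat_lit 65610) (nat_lit 10) (.e (nat_lit 344117) (nat_lit 21) (.e (nat_lit 516098) (nat_lit 0) (.e (nat_lit 2414) (nat_lit 157) (.e (nat_lit 4506) (nat_lit 263) (.e (nat_lit 2619) (nat_lit 164) .nil)))))))) (.g (nat_lit 1) (.e (nat_lit 188812) (nat_lit 0) .nil) .nil))) 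
(.lf (nat_lit 508780) (.g (nat_lit 1214) (.e (nat_lit 172074) (nat_lit 6) (.e (nat_lit 253963) (nat_lit 9) (.e (nat_lit 433) (nat_lit 32) (.e (nat_lit 426228) (nat_lit 9) (.e (nat_lit 426549) (nat_lit 31) (.e (nat_lit 376576) (nat_lit 4) .nil)))))) (.g (nat_lit 1) (.e (nat_lit 189942) (nat_lit 0) .nil) .nil))))) (.nd (nat_lit 8) (.nd (nat_lit 9) 
(.lf (nat_lit 508140) (.g (nat_lit 5181) (.e (nat_lit 172059) (nat_lit 1) (.e (nat_lit 164348) (nat_lit 240) (.e (nat_lit 2611) (nat_lit 163) (.e (nat_lit 163978) (nat_lit 30) (.e (nat_lit 573485) (nat_lit 13) (.e (nat_lit 65604) (nat_lit 9) (.e (nat_lit 336013) (nat_lit 2) (.e (nat_lit 90170) (nat_lit 13) .nil)))))))) (.g (nat_lit 1) (.e (nat_lit 188531) (nat_lit 0) .nil) .nil))) 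
(.lf (nat_lit 508652) (.g (nat_lit 2432) (.e (nat_lit 172067) (nat_lit 3) (.e (nat_lit 204868) (nat_lit 29) (.e (nat_lit 360473) (nat_lit 8) (.e (nat_lit 557091) (nat_lit 12) (.e (nat_lit 164020) (nat_lit 45) (.e (nat_lit 696342) (nat_lit 8) .nil)))))) (.g (nat_lit 1) (.e (nat_lit 189676) (nat_lit 0) .nil) .nil)))) (.nd (nat_lit 9) 
(.lf (nat_lit 508396) (.g (nat_lit 1603) (.e (nat_lit 172065) (nat_lit 3) (.e (nat_lit 204845) (nat_lit 24) (.e (nat_lit 319530) (nat_lit 16) (.e (nat_lit 286733) (nat_lit 2) .nil)))) (.g (nat_lit 0) (.e (nat_lit 189039) (nat_lit 0) .nil) .nil))) 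
(.lf (nat_lit 508908) (.g (nat_lit 1874) (.e (nat_lit 172079) (nat_lit 7) (.e (nat_lit 409611) (nat_lit 10) (.e (nat_lit 632) (nat_lit 50) (.e (nat_lit 573482) (nat_lit 13) (.e (nat_lit 65619) (nat_lit 10) .nil))))) (.g (nat_lit 0) (.e (nat_lit 190304) (nat_lit 0) .nil) .nil)))))))) (.nd (nat_lit 5) (.nd (nat_lit 6) (.nd (nat_lit 7) (.nd (nat_lit 8) (.nd (nat_lit 9) 
(.lf (nat_lit 507932) (.g (nat_lit 1949) (.e (nat_lit 164402) (nat_lit 256) (.e (nat_lit 57427) (nat_lit 15) (.e (nat_lit 360474) (nat_lit 8) (.e (nat_lit 564992) (nat_lit 0) .nil)))) (.g (nat_lit 0) (.e (nat_lit 188182) (nat_lit 0) .nil) .nil))) 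
(.lf (nat_lit 508444) (.g (nat_lit 2011) (.e (nat_lit 172065) (nat_lit 3) (.e (nat_lit 204868) (nat_lit 29) (.e (nat_lit 360475) (nat_lit 8) (.e (nat_lit 557091) (nat_lit 12) .nil)))) (.g (nat_lit 0) (.e (nat_lit 189155) (nat_lit 0) .nil) .nil)))) (.nd (nat_lit 9) 
(.lf (nat_lit 508188) (.g (nat_lit 4390) (.e (nat_lit 172062) (nat_lit 2) (.e (nat_lit 196666) (nat_lit 13) (.e (nat_lit 65610) (nat_lit 10) (.e (nat_lit 344129) (nat_lit 26) (.e (nat_lit 557090) (nat_lit 12) (.e (nat_lit 163850) (nat_lit 0) (.e (nat_lit 6273) (nat_lit 337) (.e (nat_lit 2632) (nat_lit 164) .nil)))))))) (.g (nat_lit 1) (.e (nat_lit 188680) (nat_lit 0) .nil) .nil))) 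
(.lf (nat_lit 508700) (.g (nat_lit 4006) (.e (nat_lit 172067) (nat_lit 3) (.e (nat_lit 204869) (nat_lit 29) (.e (nat_lit 360475) (nat_lit 8) (.e (nat_lit 557089) (nat_lit 12) (.e (nat_lit 163843) (nat_lit 0) (.e (nat_lit 6254) (nat_lit 337) (.e (nat_lit 2630) (nat_lit 164) .nil))))))) (.g (nat_lit 1) (.e (nat_lit 189770) (nat_lit 0) .nil) .nil))))) (.nd (nat_lit 8) (.nd (nat_lit 9) 
(.lf (nat_lit 508060) (.g (nat_lit 1084) (.e (nat_lit 164403) (nat_lit 256) (.e (nat_lit 57378) (nat_lit 3) (.e (nat_lit 98381) (nat_lit 31) (.e (nat_lit 466950) (nat_lit 11) .nil)))) (.g (nat_lit 0) (.e (nat_lit 188336) (nat_lit 0) .nil) .nil))) 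
(.lf (nat_lit 508572) (.g (nat_lit 2251) (.e (nat_lit 172067) (nat_lit 3) (.e (nat_lit 204838) (nat_lit 20) (.e (nat_lit 114718) (nat_lit 23) (.e (nat_lit 98335) (nat_lit 18) (.e (nat_lit 164403) (nat_lit 256) .nil))))) (.g (nat_lit 0) (.e (nat_lit 189426) (nat_lit 0) .nil) .nil)))) (.nd (nat_lit 9) 
(.lf (nat_lit 508316) (.g (nat_lit 2239) (.e (nat_lit 172064) (nat_lit 2) (.e (nat_lit 196666) (nat_lit 13) (.e (nat_lit 65610) (nat_lit 10) (.e (nat_lit 344129) (nat_lit 26) (.e (nat_lit 557090) (nat_lit 12) (.e (nat_lit 163847) (nat_lit 0) (.e (nat_lit 6252) (nat_lit 337) (.e (nat_lit 2620) (nat_lit 164) .nil)))))))) (.g (nat_lit 1) (.e (nat_lit 188949) (nat_lit 0) .nil) .nil))) 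
(.lf (nat_lit 508828) (.g (nat_lit 1348) (.e (nat_lit 172076) (nat_lit 6) (.e (nat_lit 253990) (nat_lit 11) (.e (nat_lit 16465) (nat_lit 13) (.e (nat_lit 483342) (nat_lit 17) .nil)))) (.g (nat_lit 0) (.e (nat_lit 190076) (nat_lit 0) .nil) .nil)))))) (.nd (nat_lit 7) (.nd (nat_lit 8) (.nd (nat_lit 9) 
(.lf (nat_lit 507996) (.g (nat_lit 3965) (.e (nat_lit 164403) (nat_lit 256) (.e (nat_lit 57373) (nat_lit 2) (.e (nat_lit 90174) (nat_lit 14) (.e (nat_lit 180251) (nat_lit 10) (.e (nat_lit 573489) (nat_lit 14) (.e (nat_lit 73755) (nat_lit 8) (.e (nat_lit 557074) (nat_lit 9) (.e (nat_lit 2607) (nat_lit 163) .nil)))))))) (.g (nat_lit 1) (.e (nat_lit 188262) (nat_lit 0) .nil) .nil))) 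
(.lf (nat_lit 508508) (.g (nat_lit 2967) (.e (nat_lit 172066) (nat_lit 3) (.e (nat_lit 204846) (nat_lit 24) (.e (nat_lit 319534) (nat_lit 16) (.e (nat_lit 286734) (nat_lit 3) (.e (nat_lit 98321) (nat_lit 17) .nil))))) (.g (nat_lit 0) (.e (nat_lit 189287) (nat_lit 0) .nil) .nil)))) (.nd (nat_lit 9) 
(.lf (nat_lit 508252) (.g (nat_lit 2508) (.e (nat_lit 172063) (nat_lit 2) (.e (nat_lit 196666) (nat_lit 13) (.e (nat_lit 65617) (nat_lit 10) (.e (nat_lit 344133) (nat_lit 26) (.e (nat_lit 557091) (nat_lit 12) (.e (nat_lit 163850) (nat_lit 0) (.e (nat_lit 6273) (nat_lit 337) (.e (nat_lit 2632) (nat_lit 164) .nil)))))))) (.g (nat_lit 1) (.e (nat_lit 188763) (nat_lit 0) .nil) .nil))) 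
(.lf (nat_lit 508764) (.g (nat_lit 3969) (.e (nat_lit 172068) (nat_lit 4) (.e (nat_lit 229666) (nat_lit 240) (.e (nat_lit 2602) (nat_lit 163) (.e (nat_lit 163978) (nat_lit 30) (.e (nat_lit 573485) (nat_lit 13) (.e (nat_lit 65604) (nat_lit 9) (.e (nat_lit 336013) (nat_lit 2) (.e (nat_lit 90170) (nat_lit 13) .nil)))))))) (.g (nat_lit 1) (.e (nat_lit 189885) (nat_lit 0) .nil) .nil))))) 
(.nd (nat_lit 8) (.nd (nat_lit 9) 
(.lf (nat_lit 508124) (.g (nat_lit 2438) (.e (nat_lit 172046) (nat_lit 0) (.e (nat_lit 3238) (nat_lit 197) (.e (nat_lit 532550) (nat_lit 12) (.e (nat_lit 360474) (nat_lit 8) (.e (nat_lit 557093) (nat_lit 12) .nil))))) (.g (nat_lit 0) (.e (nat_lit 188469) (nat_lit 0) .nil) .nil))) 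
(.lf (nat_lit 508636) (.g (nat_lit 1820) (.e (nat_lit 172067) (nat_lit 3) (.e (nat_lit 204855) (nat_lit 26) (.e (nat_lit 336176) (nat_lit 10) (.e (nat_lit 344130) (nat_lit 26) (.e (nat_lit 557089) (nat_lit 12) .nil))))) (.g (nat_lit 0) (.e (nat_lit 189550) (nat_lit 0) .nil) .nil)))) (.nd (nat_lit 9) 
(.lf (nat_lit 508380) (.g (nat_lit 661) (.e (nat_lit 172064) (nat_lit 2) (.e (nat_lit 196666) (nat_lit 13) (.e (nat_lit 65619) (nat_lit 10) .nil))) (.g (nat_lit 0) (.e (nat_lit 189014) (nat_lit 0) .nil) .nil))) 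
(.lf (nat_lit 508892) (.g (nat_lit 812) (.e (nat_lit 172078) (nat_lit 7) (.e (nat_lit 409646) (nat_lit 18) (.e (nat_lit 303143) (nat_lit 12) .nil))) (.g (nat_lit 0) (.e (nat_lit 190276) (nat_lit 0) .nil) .nil))))))) (.nd (nat_lit 6) (.nd (nat_lit 7) (.nd (nat_lit 8) (.nd (nat_lit 9) 
(.lf (nat_lit 507964) (.g (nat_lit 4457) (.e (nat_lit 164403) (nat_lit 256) (.e (nat_lit 57371) (nat_lit 2) (.e (nat_lit 90174) (nat_lit 14) (.e (nat_lit 180250) (nat_lit 10) (.e (nat_lit 573489) (nat_lit 14) (.e (nat_lit 73755) (nat_lit 8) (.e (nat_lit 557067) (nat_lit 9) (.e (nat_lit 2603) (nat_lit 163) .nil)))))))) (.g (nat_lit 1) (.e (nat_lit 188225) (nat_lit 0) .nil) .nil))) 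
(.lf (nat_lit 508476) (.g (nat_lit 2640) (.e (nat_lit 172065) (nat_lit 3) (.e (nat_lit 204885) (nat_lit 33) (.e (nat_lit 401448) (nat_lit 10) (.e (nat_lit 434231) (nat_lit 23) (.e (nat_lit 532481) (nat_lit 0) (.e (nat_lit 6718) (nat_lit 361) .nil)))))) (.g (nat_lit 1) (.e (nat_lit 189227) (nat_lit 0) .nil) .nil)))) (.nd (nat_lit 9) 
(.lf (nat_lit 508220) (.g (nat_lit 2143) (.e (nat_lit 172062) (nat_lit 2) (.e (nat_lit 196666) (nat_lit 13) (.e (nat_lit 65617) (nat_lit 10) (.e (nat_lit 344133) (nat_lit 26) (.e (nat_lit 557091) (nat_lit 12) .nil))))) (.g (nat_lit 0) (.e (nat_lit 188715) (nat_lit 0) .nil) .nil))) 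
(.lf (nat_lit 508732) (.g (nat_lit 2931) (.e (nat_lit 172067) (nat_lit 3) (.e (nat_lit 204869) (nat_lit 29) (.e (nat_lit 360475) (nat_lit 8) (.e (nat_lit 557091) (nat_lit 12) (.e (nat_lit 163844) (nat_lit 0) (.e (nat_lit 6250) (nat_lit 337) (.e (nat_lit 2621) (nat_lit 164) .nil))))))) (.g (nat_lit 1) (.e (nat_lit 189815) (nat_lit 0) .nil) .nil))))) (.nd (nat_lit 8) (.nd (nat_lit 9) 
(.lf (nat_lit 508092) (.g (nat_lit 693) (.e (nat_lit 172034) (nat_lit 0) (.e (nat_lit 7379) (nat_lit 390) (.e (nat_lit 24663) (nat_lit 14) (.e (nat_lit 401448) (nat_lit 10) .nil)))) (.g (nat_lit 0) (.e (nat_lit 188383) (nat_lit 0) .nil) .nil))) 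
(.lf (nat_lit 508604) (.g (nat_lit 3112) (.e (nat_lit 172067) (nat_lit 3) (.e (nat_lit 204846) (nat_lit 24) (.e (nat_lit 319533) (nat_lit 16) (.e (nat_lit 286732) (nat_lit 2) (.e (nat_lit 90165) (nat_lit 12) (.e (nat_lit 171776) (nat_lit 205) .nil)))))) (.g (nat_lit 1) (.e (nat_lit 189477) (nat_lit 0) .nil) .nil)))) (.nd (nat_lit 9) 
(.lf (nat_lit 508348) (.g (nat_lit 3953) (.e (nat_lit 172064) (nat_lit 2) (.e (nat_lit 196666) (nat_lit 13) (.e (nat_lit 65617) (nat_lit 10) (.e (nat_lit 344130) (nat_lit 26) (.e (nat_lit 557090) (nat_lit 12) (.e (nat_lit 163848) (nat_lit 0) (.e (nat_lit 6252) (nat_lit 337) (.e (nat_lit 2630) (nat_lit 164) .nil)))))))) (.g (nat_lit 1) (.e (nat_lit 188982) (nat_lit 0) .nil) .nil))) 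
(.lf (nat_lit 508860) (.g (nat_lit 1552) (.e (nat_lit 172076) (nat_lit 6) (.e (nat_lit 253992) (nat_lit 11) (.e (nat_lit 16466) (nat_lit 13) (.e (nat_lit 483349) (nat_lit 17) .nil)))) (.g (nat_lit 0) (.e (nat_lit 190140) (nat_lit 0) .nil) .nil)))))) (.nd (nat_lit 7) (.nd (nat_lit 8) (.nd (nat_lit 9) 
(.lf (nat_lit 508028) (.g (nat_lit 363) (.e (nat_lit 164403) (nat_lit 256) (.e (nat_lit 57378) (nat_lit 3) (.e (nat_lit 98363) (nat_lit 26) .nil))) (.g (nat_lit 0) (.e (nat_lit 188303) (nat_lit 0) .nil) .nil))) 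
(.lf (nat_lit 508540) (.g (nat_lit 1739) (.e (nat_lit 172066) (nat_lit 3) (.e (nat_lit 204869) (nat_lit 29) (.e (nat_lit 360475) (nat_lit 8) (.e (nat_lit 557091) (nat_lit 12) .nil)))) (.g (nat_lit 0) (.e (nat_lit 189347) (nat_lit 0) .nil) .nil)))) (.nd (nat_lit 9) 
(.lf (nat_lit 508284) (.g (nat_lit 3675) (.e (nat_lit 172064) (nat_lit 2) (.e (nat_lit 196666) (nat_lit 13) (.e (nat_lit 65610) (nat_lit 10) (.e (nat_lit 344117) (nat_lit 21) (.e (nat_lit 516106) (nat_lit 0) (.e (nat_lit 2505) (nat_lit 157) (.e (nat_lit 4506) (nat_lit 263) (.e (nat_lit 2619) (nat_lit 164) .nil)))))))) (.g (nat_lit 1) (.e (nat_lit 188833) (nat_lit 0) .nil) .nil))) 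
(.lf (nat_lit 508796) (.g (nat_lit 1515) (.e (nat_lit 172074) (nat_lit 6) (.e (nat_lit 253991) (nat_lit 11) (.e (nat_lit 16465) (nat_lit 13) (.e (nat_lit 483361) (nat_lit 17) .nil)))) (.g (nat_lit 0) (.e (nat_lit 189985) (nat_lit 0) .nil) .nil))))) (.nd (nat_lit 8) (.nd (nat_lit 9) 
(.lf (nat_lit 508156) (.g (nat_lit 3912) (.e (nat_lit 172062) (nat_lit 2) (.e (nat_lit 196666) (nat_lit 13) (.e (nat_lit 65610) (nat_lit 10) (.e (nat_lit 344117) (nat_lit 21) (.e (nat_lit 516097) (nat_lit 0) (.e (nat_lit 2409) (nat_lit 157) (.e (nat_lit 4506) (nat_lit 263) (.e (nat_lit 2619) (nat_lit 164) .nil)))))))) (.g (nat_lit 1) (.e (nat_lit 188591) (nat_lit 0) .nil) .nil))) 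
(.lf (nat_lit 508668) (.g (nat_lit 4527) (.e (nat_lit 172067) (nat_lit 3) (.e (nat_lit 204868) (nat_lit 29) (.e (nat_lit 360475) (nat_lit 8) (.e (nat_lit 557091) (nat_lit 12) (.e (nat_lit 163849) (nat_lit 0) (.e (nat_lit 6255) (nat_lit 337) (.e (nat_lit 2630) (nat_lit 164) .nil))))))) (.g (nat_lit 1) (.e (nat_lit 189710) (nat_lit 0) .nil) .nil)))) (.nd (nat_lit 9) 
(.lf (nat_lit 508412) (.g (nat_lit 3077) (.e (nat_lit 172065) (nat_lit 3) (.e (nat_lit 204846) (nat_lit 24) (.e (nat_lit 319534) (nat_lit 16) (.e (nat_lit 286735) (nat_lit 3) (.e (nat_lit 98325) (nat_lit 17) .nil))))) (.g (nat_lit 0) (.e (nat_lit 189055) (nat_lit 0) .nil) .nil))) 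
(.lf (nat_lit 508924) (.g (nat_lit 1022) (.e (nat_lit 172079) (nat_lit 7) (.e (nat_lit 409639) (nat_lit 15) (.e (nat_lit 278566) (nat_lit 16) (.e (nat_lit 286754) (nat_lit 10) (.e (nat_lit 344157) (nat_lit 36) (.e (nat_lit 638999) (nat_lit 8) .nil)))))) (.g (nat_lit 1) (.e (nat_lit 190343) (nat_lit 0) .nil) .nil))))))))))) 
(.nd (nat_lit 2) (.nd (nat_lit 3) (.nd (nat_lit 4) (.nd (nat_lit 5) (.nd (nat_lit 6) 
(.nd (nat_lit 7) (.nd (nat_lit 8) (.nd (nat_lit 9) 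
(.lf (nat_lit 507906) (.g (nat_lit 2123) (.e (nat_lit 164402) (nat_lit 256) (.e (nat_lit 57378) (nat_lit 3) (.e (nat_lit 98365) (nat_lit 26) (.e (nat_lit 426327) (nat_lit 13) (.e (nat_lit 483341) (nat_lit 9) .nil))))) (.g (nat_lit 0) (.e (nat_lit 188156) (nat_lit 0) .nil) .nil))) 
(.lf (nat_lit 508418) (.g (nat_lit 1827) (.e (nat_lit 172065) (nat_lit 3) (.e (nat_lit 204855) (nat_lit 26) (.e (nat_lit 336176) (nat_lit 10) (.e (nat_lit 344130) (nat_lit 26) (.e (nat_lit 557089) (nat_lit 12) .nil))))) (.g (nat_lit 0) (.e (nat_lit 189078) (nat_lit 0) .nil) .nil)))) (.nd (nat_lit 9) 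
(.lf (nat_lit 508162) (.g (nat_lit 2955) (.e (nat_lit 172062) (nat_lit 2) (.e (nat_lit 196666) (nat_lit 13) (.e (nat_lit 65610) (nat_lit 10) (.e (nat_lit 344117) (nat_lit 21) (.e (nat_lit 516106) (nat_lit 0) (.e (nat_lit 2424) (nat_lit 157) (.e (nat_lit 4516) (nat_lit 263) (.e (nat_lit 2619) (nat_lit 164) .nil)))))))) (.g (nat_lit 1) (.e (nat_lit 188603) (nat_lit 0) .nil) .nil))) 
(.lf (nat_lit 508674) (.g (nat_lit 5145) (.e (nat_lit 172067) (nat_lit 3) (.e (nat_lit 204869) (nat_lit 29) (.e (nat_lit 360472) (nat_lit 8) (.e (nat_lit 557090) (nat_lit 12) (.e (nat_lit 164020) (nat_lit 45) (.e (nat_lit 696343) (nat_lit 8) .nil)))))) (.g (nat_lit 1) (.e (nat_lit 189728) (nat_lit 0) .nil) .nil))))) (.nd (nat_lit 8) (.nd (nat_lit 9) 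
(.lf (nat_lit 508034) (.g (nat_lit 3388) (.e (nat_lit 164403) (nat_lit 256) (.e (nat_lit 57378) (nat_lit 3) (.e (nat_lit 98365) (nat_lit 26) (.e (nat_lit 426325) (nat_lit 13) (.e (nat_lit 483337) (nat_lit 9) (.e (nat_lit 426105) (nat_lit 1) .nil)))))) (.g (nat_lit 1) (.e (nat_lit 188310) (nat_lit 0) .nil) .nil))) 
(.lf (nat_lit 508546) (.g (nat_lit 3125) (.e (nat_lit 172066) (nat_lit 3) (.e (nat_lit 204869) (nat_lit 29) (.e (nat_lit 360475) (nat_lit 8) (.e (nat_lit 557091) (nat_lit 12) (.e (nat_lit 163843) (nat_lit 0) (.e (nat_lit 6252) (nat_lit 337) (.e (nat_lit 2620) (nat_lit 164) .nil))))))) (.g (nat_lit 1) (.e (nat_lit 189366) (nat_lit 0) .nil) .nil)))) (.nd (nat_lit 9) 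
(.lf (nat_lit 508290) (.g (nat_lit 2676) (.e (nat_lit 172064) (nat_lit 2) (.e (nat_lit 196666) (nat_lit 13) (.e (nat_lit 65610) (nat_lit 10) (.e (nat_lit 344117) (nat_lit 21) (.e (nat_lit 516106) (nat_lit 0) (.e (nat_lit 3340) (nat_lit 205) (.e (nat_lit 598060) (nat_lit 16) .nil))))))) (.g (nat_lit 1) (.e (nat_lit 188840) (nat_lit 0) .nil) .nil))) 
(.lf (nat_lit 508802) (.g (nat_lit 1299) (.e (nat_lit 172074) (nat_lit 6) (.e (nat_lit 253992) (nat_lit 11) (.e (nat_lit 16433) (nat_lit 9) (.e (nat_lit 426535) (nat_lit 28) .nil)))) (.g (nat_lit 0) (.e (nat_lit 189999) (nat_lit 0) .nil) .nil)))))) (.nd (nat_lit 7) (.nd (nat_lit 8) (.nd (nat_lit 9) 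
(.lf (nat_lit 507970) (.g (nat_lit 3160) (.e (nat_lit 164403) (nat_lit 256) (.e (nat_lit 57371) (nat_lit 2) (.e (nat_lit 90174) (nat_lit 14) (.e (nat_lit 180252) (nat_lit 10) (.e (nat_lit 573489) (nat_lit 14) (.e (nat_lit 73755) (nat_lit 8) (.e (nat_lit 557067) (nat_lit 9) (.e (nat_lit 2603) (nat_lit 163) .nil)))))))) (.g (nat_lit 1) (.e (nat_lit 188231) (nat_lit 0) .nil) .nil))) 
(.lf (nat_lit 508482) (.g (nat_lit 2679) (.e (nat_lit 172066) (nat_lit 3) (.e (nat_lit 204829) (nat_lit 18) (.e (nat_lit 57691) (nat_lit 156) (.e (nat_lit 163875) (nat_lit 3) (.e (nat_lit 204838) (nat_lit 20) .nil))))) (.g (nat_lit 0) (.e (nat_lit 189247) (nat_lit 0) .nil) .nil)))) (.nd (nat_lit 9) 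
(.lf (nat_lit 508226) (.g (nat_lit 3443) (.e (nat_lit 172062) (nat_lit 2) (.e (nat_lit 196666) (nat_lit 13) (.e (nat_lit 65617) (nat_lit 10) (.e (nat_lit 344133) (nat_lit 26) (.e (nat_lit 557091) (nat_lit 12) (.e (nat_lit 163843) (nat_lit 0) (.e (nat_lit 6255) (nat_lit 337) (.e (nat_lit 2622) (nat_lit 164) .nil)))))))) (.g (nat_lit 1) (.e (nat_lit 188721) (nat_lit 0) .nil) .nil))) 
(.lf (nat_lit 508738) (.g (nat_lit 3136) (.e (nat_lit 172067) (nat_lit 3) (.e (nat_lit 204869) (nat_lit 29) (.e (nat_lit 360475) (nat_lit 8) (.e (nat_lit 557091) (nat_lit 12) (.e (nat_lit 163852) (nat_lit 0) (.e (nat_lit 6273) (nat_lit 337) (.e (nat_lit 2632) (nat_lit 164) .nil))))))) (.g (nat_lit 1) (.e (nat_lit 189824) (nat_lit 0) .nil) .nil))))) (.nd (nat_lit 8) (.nd (nat_lit 9) 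
(.lf (nat_lit 508098) (.g (nat_lit 760) (.e (nat_lit 172037) (nat_lit 0) (.e (nat_lit 7107) (nat_lit 380) (.e (nat_lit 164281) (nat_lit 222) (.e (nat_lit 57884) (nat_lit 270) .nil)))) (.g (nat_lit 0) (.e (nat_lit 188391) (nat_lit 0) .nil) .nil))) 
(.lf (nat_lit 508610) (.g (nat_lit 4480) (.e (nat_lit 172067) (nat_lit 3) (.e (nat_lit 204846) (nat_lit 24) (.e (nat_lit 319533) (nat_lit 16) (.e (nat_lit 286735) (nat_lit 3) (.e (nat_lit 98321) (nat_lit 17) (.e (nat_lit 7936) (nat_lit 392) .nil)))))) (.g (nat_lit 1) (.e (nat_lit 189487) (nat_lit 0) .nil) .nil)))) (.nd (nat_lit 9) 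
(.lf (nat_lit 508354) (.g (nat_lit 2774) (.e (nat_lit 172064) (nat_lit 2) (.e (nat_lit 196666) (nat_lit 13) (.e (nat_lit 65617) (nat_lit 10) (.e (nat_lit 344130) (nat_lit 26) (.e (nat_lit 557090) (nat_lit 12) (.e (nat_lit 164020) (nat_lit 45) (.e (nat_lit 696342) (nat_lit 8) .nil))))))) (.g (nat_lit 1) (.e (nat_lit 188988) (nat_lit 0) .nil) .nil))) 
(.lf (nat_lit 508866) (.g (nat_lit 2324) (.e (nat_lit 172077) (nat_lit 7) (.e (nat_lit 409646) (nat_lit 18) (.e (nat_lit 303140) (nat_lit 10) (.e (nat_lit 434275) (nat_lit 39) .nil)))) (.g (nat_lit 0) (.e (nat_lit 190168) (nat_lit 0) .nil) .nil))))))) (.nd (nat_lit 6) (.nd (nat_lit 7) (.nd (nat_lit 8) (.nd (nat_lit 9) 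
(.lf (nat_lit 507938) (.g (nat_lit 3148) (.e (nat_lit 164402) (nat_lit 256) (.e (nat_lit 57427) (nat_lit 15) (.e (nat_lit 360475) (nat_lit 8) (.e (nat_lit 557067) (nat_lit 9) (.e (nat_lit 2715) (nat_lit 171) .nil))))) (.g (nat_lit 0) (.e (nat_lit 188188) (nat_lit 0) .nil) .nil))) 
(.lf (nat_lit 508450) (.g (nat_lit 3541) (.e (nat_lit 172065) (nat_lit 3) (.e (nat_lit 204868) (nat_lit 29) (.e (nat_lit 360475) (nat_lit 8) (.e (nat_lit 557091) (nat_lit 12) (.e (nat_lit 164018) (nat_lit 45) (.e (nat_lit 696343) (nat_lit 8) .nil)))))) (.g (nat_lit 1) (.e (nat_lit 189163) (nat_lit 0) .nil) .nil)))) (.nd (nat_lit 9) 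
(.lf (nat_lit 508194) (.g (nat_lit 468) (.e (nat_lit 172062) (nat_lit 2) (.e (nat_lit 196666) (nat_lit 13) (.e (nat_lit 65617) (nat_lit 10) .nil))) (.g (nat_lit 0) (.e (nat_lit 188687) (nat_lit 0) .nil) .nil))) 
(.lf (nat_lit 508706) (.g (nat_lit 3083) (.e (nat_lit 172067) (nat_lit 3) (.e (nat_lit 204869) (nat_lit 29) (.e (nat_lit 360475) (nat_lit 8) (.e (nat_lit 557089) (nat_lit 12) (.e (nat_lit 163844) (nat_lit 0) (.e (nat_lit 6255) (nat_lit 337) (.e (nat_lit 2621) (nat_lit 164) .nil))))))) (.g (nat_lit 1) (.e (nat_lit 189777) (nat_lit 0) .nil) .nil))))) (.nd (nat_lit 8) (.nd (nat_lit 9) 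
(.lf (nat_lit 508066) (.g (nat_lit 1764) (.e (nat_lit 164403) (nat_lit 256) (.e (nat_lit 57406) (nat_lit 12) (.e (nat_lit 336426) (nat_lit 29) (.e (nat_lit 442427) (nat_lit 23) (.e (nat_lit 204808) (nat_lit 9) .nil))))) (.g (nat_lit 0) (.e (nat_lit 188342) (nat_lit 0) .nil) .nil))) 
(.lf (nat_lit 508578) (.g (nat_lit 3079) (.e (nat_lit 172067) (nat_lit 3) (.e (nat_lit 204845) (nat_lit 24) (.e (nat_lit 319530) (nat_lit 16) (.e (nat_lit 286735) (nat_lit 3) (.e (nat_lit 98321) (nat_lit 17) .nil))))) (.g (nat_lit 0) (.e (nat_lit 189433) (nat_lit 0) .nil) .nil)))) (.nd (nat_lit 9) 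
(.lf (nat_lit 508322) (.g (nat_lit 2080) (.e (nat_lit 172064) (nat_lit 2) (.e (nat_lit 196666) (nat_lit 13) (.e (nat_lit 65610) (nat_lit 10) (.e (nat_lit 344129) (nat_lit 26) (.e (nat_lit 557090) (nat_lit 12) (.e (nat_lit 171776) (nat_lit 0) (.e (nat_lit 6255) (nat_lit 337) (.e (nat_lit 2630) (nat_lit 164) .nil)))))))) (.g (nat_lit 1) (.e (nat_lit 188955) (nat_lit 0) .nil) .nil))) 
(.lf (nat_lit 508834) (.g (nat_lit 1003) (.e (nat_lit 172076) (nat_lit 6) (.e (nat_lit 253991) (nat_lit 11) (.e (nat_lit 16462) (nat_lit 13) (.e (nat_lit 483361) (nat_lit 17) .nil)))) (.g (nat_lit 0) (.e (nat_lit 190090) (nat_lit 0) .nil) .nil)))))) (.nd (nat_lit 7) (.nd (nat_lit 8) (.nd (nat_lit 9) 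
(.lf (nat_lit 508002) (.g (nat_lit 887) (.e (nat_lit 164403) (nat_lit 256) (.e (nat_lit 57377) (nat_lit 3) (.e (nat_lit 98354) (nat_lit 26) .nil))) (.g (nat_lit 0) (.e (nat_lit 188268) (nat_lit 0) .nil) .nil))) 
(.lf (nat_lit 508514) (.g (nat_lit 640) (.e (nat_lit 172066) (nat_lit 3) (.e (nat_lit 204868) (nat_lit 29) (.e (nat_lit 360473) (nat_lit 8) .nil))) (.g (nat_lit 0) (.e (nat_lit 189312) (nat_lit 0) .nil) .nil)))) (.nd (nat_lit 9) 
(.lf (nat_lit 508258) (.g (nat_lit 4045) (.e (nat_lit 172064) (nat_lit 2) (.e (nat_lit 196666) (nat_lit 13) (.e (nat_lit 65610) (nat_lit 10) (.e (nat_lit 344117) (nat_lit 21) (.e (nat_lit 516097) (nat_lit 0) (.e (nat_lit 2430) (nat_lit 157) (.e (nat_lit 4480) (nat_lit 263) (.e (nat_lit 2625) (nat_lit 164) .nil)))))))) (.g (nat_lit 1) (.e (nat_lit 188802) (nat_lit 0) .nil) .nil))) 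
(.lf (nat_lit 508770) (.g (nat_lit 6222) (.e (nat_lit 172069) (nat_lit 4) (.e (nat_lit 229663) (nat_lit 240) (.e (nat_lit 2612) (nat_lit 163) (.e (nat_lit 163979) (nat_lit 30) (.e (nat_lit 573482) (nat_lit 13) (.e (nat_lit 65604) (nat_lit 9) (.e (nat_lit 336013) (nat_lit 2) (.e (nat_lit 90170) (nat_lit 13) .nil)))))))) (.g (nat_lit 1) (.e (nat_lit 189892) (nat_lit 0) .nil) .nil))))) 
(.nd (nat_lit 8) (.nd (nat_lit 9) 
(.lf (nat_lit 508130) (.g (nat_lit 3879) (.e (nat_lit 172049) (nat_lit 0) (.e (nat_lit 3258) (nat_lit 198) (.e (nat_lit 540706) (nat_lit 12) (.e (nat_lit 360475) (nat_lit 8) (.e (nat_lit 557090) (nat_lit 12) (.e (nat_lit 164020) (nat_lit 45) (.e (nat_lit 696344) (nat_lit 8) .nil))))))) (.g (nat_lit 1) (.e (nat_lit 188486) (nat_lit 0) .nil) .nil))) 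
(.lf (nat_lit 508642) (.g (nat_lit 805) (.e (nat_lit 172067) (nat_lit 3) (.e (nat_lit 204863) (nat_lit 27) (.e (nat_lit 344144) (nat_lit 31) .nil))) (.g (nat_lit 0) (.e (nat_lit 189598) (nat_lit 0) .nil) .nil)))) (.nd (nat_lit 9) 
(.lf (nat_lit 508386) (.g (nat_lit 4692) (.e (nat_lit 172065) (nat_lit 3) (.e (nat_lit 204830) (nat_lit 18) (.e (nat_lit 57689) (nat_lit 156) (.e (nat_lit 163875) (nat_lit 3) (.e (nat_lit 204838) (nat_lit 20) (.e (nat_lit 114715) (nat_lit 22) (.e (nat_lit 90170) (nat_lit 13) .nil))))))) (.g (nat_lit 1) (.e (nat_lit 189026) (nat_lit 0) .nil) .nil))) 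
(.lf (nat_lit 508898) (.g (nat_lit 2307) (.e (nat_lit 172078) (nat_lit 7) (.e (nat_lit 409648) (nat_lit 18) (.e (nat_lit 303137) (nat_lit 10) (.e (nat_lit 434275) (nat_lit 39) (.e (nat_lit 663580) (nat_lit 9) .nil))))) (.g (nat_lit 0) (.e (nat_lit 190284) (nat_lit 0) .nil) .nil)))))))) (.nd (nat_lit 5) (.nd (nat_lit 6) (.nd (nat_lit 7) (.nd (nat_lit 8) (.nd (nat_lit 9) 
(.lf (nat_lit 507922) (.g (nat_lit 1861) (.e (nat_lit 164402) (nat_lit 256) (.e (nat_lit 57409) (nat_lit 12) (.e (nat_lit 336443) (nat_lit 32) (.e (nat_lit 466974) (nat_lit 22) (.e (nat_lit 196654) (nat_lit 11) .nil))))) (.g (nat_lit 0) (.e (nat_lit 188172) (nat_lit 0) .nil) .nil))) 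
(.lf (nat_lit 508434) (.g (nat_lit 2926) (.e (nat_lit 172065) (nat_lit 3) (.e (nat_lit 204868) (nat_lit 29) (.e (nat_lit 360475) (nat_lit 8) (.e (nat_lit 557067) (nat_lit 9) .nil)))) (.g (nat_lit 0) (.e (nat_lit 189142) (nat_lit 0) .nil) .nil)))) (.nd (nat_lit 9) 
(.lf (nat_lit 508178) (.g (nat_lit 3139) (.e (nat_lit 172062) (nat_lit 2) (.e (nat_lit 196666) (nat_lit 13) (.e (nat_lit 65610) (nat_lit 10) (.e (nat_lit 344129) (nat_lit 26) (.e (nat_lit 557090) (nat_lit 12) (.e (nat_lit 163843) (nat_lit 0) (.e (nat_lit 6255) (nat_lit 337) (.e (nat_lit 2622) (nat_lit 164) .nil)))))))) (.g (nat_lit 1) (.e (nat_lit 188670) (nat_lit 0) .nil) .nil))) 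
(.lf (nat_lit 508690) (.g (nat_lit 2636) (.e (nat_lit 172067) (nat_lit 3) (.e (nat_lit 204869) (nat_lit 29) (.e (nat_lit 360474) (nat_lit 8) (.e (nat_lit 557094) (nat_lit 12) (.e (nat_lit 163847) (nat_lit 0) (.e (nat_lit 6252) (nat_lit 337) (.e (nat_lit 2620) (nat_lit 164) .nil))))))) (.g (nat_lit 1) (.e (nat_lit 189747) (nat_lit 0) .nil) .nil))))) (.nd (nat_lit 8) (.nd (nat_lit 9) 
(.lf (nat_lit 508050) (.g (nat_lit 4230) (.e (nat_lit 164403) (nat_lit 256) (.e (nat_lit 57378) (nat_lit 3) (.e (nat_lit 98368) (nat_lit 27) (.e (nat_lit 434248) (nat_lit 28) (.e (nat_lit 573489) (nat_lit 14) (.e (nat_lit 73755) (nat_lit 8) (.e (nat_lit 557065) (nat_lit 9) (.e (nat_lit 2612) (nat_lit 163) .nil)))))))) (.g (nat_lit 1) (.e (nat_lit 188326) (nat_lit 0) .nil) .nil))) 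
(.lf (nat_lit 508562) (.g (nat_lit 1313) (.e (nat_lit 172066) (nat_lit 3) (.e (nat_lit 204885) (nat_lit 33) (.e (nat_lit 401448) (nat_lit 10) (.e (nat_lit 434232) (nat_lit 23) .nil)))) (.g (nat_lit 0) (.e (nat_lit 189400) (nat_lit 0) .nil) .nil)))) (.nd (nat_lit 9) 
(.lf (nat_lit 508306) (.g (nat_lit 3417) (.e (nat_lit 172064) (nat_lit 2) (.e (nat_lit 196666) (nat_lit 13) (.e (nat_lit 65610) (nat_lit 10) (.e (nat_lit 344129) (nat_lit 26) (.e (nat_lit 557090) (nat_lit 12) (.e (nat_lit 163840) (nat_lit 0) (.e (nat_lit 6254) (nat_lit 337) (.e (nat_lit 2630) (nat_lit 164) .nil)))))))) (.g (nat_lit 1) (.e (nat_lit 188938) (nat_lit 0) .nil) .nil))) 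
(.lf (nat_lit 508818) (.g (nat_lit 1195) (.e (nat_lit 172076) (nat_lit 6) (.e (nat_lit 253988) (nat_lit 11) (.e (nat_lit 16463) (nat_lit 13) (.e (nat_lit 483345) (nat_lit 17) .nil)))) (.g (nat_lit 0) (.e (nat_lit 190057) (nat_lit 0) .nil) .nil)))))) (.nd (nat_lit 7) (.nd (nat_lit 8) (.nd (nat_lit 9) 
(.lf (nat_lit 507986) (.g (nat_lit 3898) (.e (nat_lit 164403) (nat_lit 256) (.e (nat_lit 57373) (nat_lit 2) (.e (nat_lit 90174) (nat_lit 14) (.e (nat_lit 180243) (nat_lit 5) (.e (nat_lit 532515) (nat_lit 3) (.e (nat_lit 114716) (nat_lit 22) (.e (nat_lit 90137) (nat_lit 9) (.e (nat_lit 2609) (nat_lit 163) .nil)))))))) (.g (nat_lit 1) (.e (nat_lit 188252) (nat_lit 0) .nil) .nil))) 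
(.lf (nat_lit 508498) (.g (nat_lit 2989) (.e (nat_lit 172066) (nat_lit 3) (.e (nat_lit 204846) (nat_lit 24) (.e (nat_lit 319530) (nat_lit 16) (.e (nat_lit 286735) (nat_lit 3) (.e (nat_lit 98321) (nat_lit 17) .nil))))) (.g (nat_lit 0) (.e (nat_lit 189274) (nat_lit 0) .nil) .nil)))) (.nd (nat_lit 9) 
(.lf (nat_lit 508242) (.g (nat_lit 2679) (.e (nat_lit 172063) (nat_lit 2) (.e (nat_lit 196666) (nat_lit 13) (.e (nat_lit 65617) (nat_lit 10) (.e (nat_lit 344130) (nat_lit 26) (.e (nat_lit 557090) (nat_lit 12) (.e (nat_lit 164018) (nat_lit 45) (.e (nat_lit 696344) (nat_lit 8) .nil))))))) (.g (nat_lit 1) (.e (nat_lit 188753) (nat_lit 0) .nil) .nil))) 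
(.lf (nat_lit 508754) (.g (nat_lit 3878) (.e (nat_lit 172067) (nat_lit 3) (.e (nat_lit 204885) (nat_lit 33) (.e (nat_lit 401448) (nat_lit 10) (.e (nat_lit 434231) (nat_lit 23) (.e (nat_lit 532490) (nat_lit 0) (.e (nat_lit 7936) (nat_lit 361) .nil)))))) (.g (nat_lit 1) (.e (nat_lit 189871) (nat_lit 0) .nil) .nil))))) (.nd (nat_lit 8) (.nd (nat_lit 9) 
(.lf (nat_lit 508114) (.g (nat_lit 1378) (.e (nat_lit 172039) (nat_lit 0) (.e (nat_lit 7107) (nat_lit 380) (.e (nat_lit 164281) (nat_lit 222) (.e (nat_lit 57884) (nat_lit 270) (.e (nat_lit 1530) (nat_lit 109) .nil))))) (.g (nat_lit 0) (.e (nat_lit 188417) (nat_lit 0) .nil) .nil))) 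
(.lf (nat_lit 508626) (.g (nat_lit 3242) (.e (nat_lit 172067) (nat_lit 3) (.e (nat_lit 204855) (nat_lit 26) (.e (nat_lit 336099) (nat_lit 9) (.e (nat_lit 336013) (nat_lit 2) (.e (nat_lit 90189) (nat_lit 18) .nil))))) (.g (nat_lit 0) (.e (nat_lit 189536) (nat_lit 0) .nil) .nil)))) (.nd (nat_lit 9) 
(.lf (nat_lit 508370) (.g (nat_lit 4654) (.e (nat_lit 172064) (nat_lit 2) (.e (nat_lit 196666) (nat_lit 13) (.e (nat_lit 65617) (nat_lit 10) (.e (nat_lit 344133) (nat_lit 26) (.e (nat_lit 557091) (nat_lit 12) (.e (nat_lit 163843) (nat_lit 0) (.e (nat_lit 6252) (nat_lit 337) (.e (nat_lit 2630) (nat_lit 164) .nil)))))))) (.g (nat_lit 1) (.e (nat_lit 189004) (nat_lit 0) .nil) .nil))) 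
(.lf (nat_lit 508882) (.g (nat_lit 2669) (.e (nat_lit 172078) (nat_lit 7) (.e (nat_lit 409645) (nat_lit 18) (.e (nat_lit 303143) (nat_lit 12) (.e (nat_lit 475212) (nat_lit 42) (.e (nat_lit 720920) (nat_lit 20) .nil))))) (.g (nat_lit 0) (.e (nat_lit 190260) (nat_lit 0) .nil) .nil))))))) (.nd (nat_lit 6) (.nd (nat_lit 7) (.nd (nat_lit 8) (.nd (nat_lit 9) 
(.lf (nat_lit 507954) (.g (nat_lit 2449) (.e (nat_lit 164403) (nat_lit 256) (.e (nat_lit 57371) (nat_lit 2) (.e (nat_lit 90173) (nat_lit 14) (.e (nat_lit 180252) (nat_lit 10) (.e (nat_lit 573489) (nat_lit 14) (.e (nat_lit 73755) (nat_lit 8) (.e (nat_lit 557074) (nat_lit 9) (.e (nat_lit 2607) (nat_lit 163) .nil)))))))) (.g (nat_lit 1) (.e (nat_lit 188215) (nat_lit 0) .nil) .nil))) 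
(.lf (nat_lit 508466) (.g (nat_lit 4725) (.e (nat_lit 172065) (nat_lit 3) (.e (nat_lit 204869) (nat_lit 29) (.e (nat_lit 360475) (nat_lit 8) (.e (nat_lit 557089) (nat_lit 12) (.e (nat_lit 163849) (nat_lit 0) (.e (nat_lit 6255) (nat_lit 337) (.e (nat_lit 2630) (nat_lit 164) .nil))))))) (.g (nat_lit 1) (.e (nat_lit 189182) (nat_lit 0) .nil) .nil)))) (.nd (nat_lit 9) 
(.lf (nat_lit 508210) (.g (nat_lit 2778) (.e (nat_lit 172062) (nat_lit 2) (.e (nat_lit 196666) (nat_lit 13) (.e (nat_lit 65617) (nat_lit 10) (.e (nat_lit 344130) (nat_lit 26) (.e (nat_lit 557090) (nat_lit 12) (.e (nat_lit 164020) (nat_lit 45) (.e (nat_lit 696342) (nat_lit 8) .nil))))))) (.g (nat_lit 1) (.e (nat_lit 188705) (nat_lit 0) .nil) .nil))) 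
(.lf (nat_lit 508722) (.g (nat_lit 3152) (.e (nat_lit 172067) (nat_lit 3) (.e (nat_lit 204869) (nat_lit 29) (.e (nat_lit 360475) (nat_lit 8) (.e (nat_lit 557091) (nat_lit 12) (.e (nat_lit 163840) (nat_lit 0) (.e (nat_lit 6252) (nat_lit 337) (.e (nat_lit 2630) (nat_lit 164) .nil))))))) (.g (nat_lit 1) (.e (nat_lit 189797) (nat_lit 0) .nil) .nil))))) (.nd (nat_lit 8) (.nd (nat_lit 9) 
(.lf (nat_lit 508082) (.g (nat_lit 1141) (.e (nat_lit 164403) (nat_lit 256) (.e (nat_lit 57447) (nat_lit 19) (.e (nat_lit 393294) (nat_lit 26) .nil))) (.g (nat_lit 0) (.e (nat_lit 188360) (nat_lit 0) .nil) .nil))) 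
(.lf (nat_lit 508594) (.g (nat_lit 3674) (.e (nat_lit 172067) (nat_lit 3) (.e (nat_lit 204846) (nat_lit 24) (.e (nat_lit 319530) (nat_lit 16) (.e (nat_lit 286733) (nat_lit 2) (.e (nat_lit 90165) (nat_lit 12) (.e (nat_lit 171776) (nat_lit 205) .nil)))))) (.g (nat_lit 1) (.e (nat_lit 189459) (nat_lit 0) .nil) .nil)))) (.nd (nat_lit 9) 
(.lf (nat_lit 508338) (.g (nat_lit 1255) (.e (nat_lit 172064) (nat_lit 2) (.e (nat_lit 196666) (nat_lit 13) (.e (nat_lit 65617) (nat_lit 10) (.e (nat_lit 344130) (nat_lit 26) .nil)))) (.g (nat_lit 0) (.e (nat_lit 188972) (nat_lit 0) .nil) .nil))) 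
(.lf (nat_lit 508850) (.g (nat_lit 2841) (.e (nat_lit 172076) (nat_lit 6) (.e (nat_lit 253992) (nat_lit 11) (.e (nat_lit 16463) (nat_lit 13) (.e (nat_lit 483344) (nat_lit 17) (.e (nat_lit 6718) (nat_lit 361) .nil))))) (.g (nat_lit 1) (.e (nat_lit 190130) (nat_lit 0) .nil) .nil)))))) (.nd (nat_lit 7) (.nd (nat_lit 8) (.nd (nat_lit 9) 
(.lf (nat_lit 508018) (.g (nat_lit 855) (.e (nat_lit 164403) (nat_lit 256) (.e (nat_lit 57378) (nat_lit 3) (.e (nat_lit 98354) (nat_lit 26) .nil))) (.g (nat_lit 0) (.e (nat_lit 188293) (nat_lit 0) .nil) .nil))) 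
(.lf (nat_lit 508530) (.g (nat_lit 2354) (.e (nat_lit 172066) (nat_lit 3) (.e (nat_lit 204869) (nat_lit 29) (.e (nat_lit 360475) (nat_lit 8) (.e (nat_lit 557089) (nat_lit 12) (.e (nat_lit 163844) (nat_lit 0) .nil))))) (.g (nat_lit 0) (.e (nat_lit 189335) (nat_lit 0) .nil) .nil)))) (.nd (nat_lit 9) 
(.lf (nat_lit 508274) (.g (nat_lit 2465) (.e (nat_lit 172064) (nat_lit 2) (.e (nat_lit 196666) (nat_lit 13) (.e (nat_lit 65610) (nat_lit 10) (.e (nat_lit 344117) (nat_lit 21) (.e (nat_lit 516099) (nat_lit 0) (.e (nat_lit 2474) (nat_lit 157) (.e (nat_lit 4495) (nat_lit 263) (.e (nat_lit 2626) (nat_lit 164) .nil)))))))) (.g (nat_lit 1) (.e (nat_lit 188821) (nat_lit 0) .nil) .nil))) 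
(.lf (nat_lit 508786) (.g (nat_lit 1392) (.e (nat_lit 172074) (nat_lit 6) (.e (nat_lit 253988) (nat_lit 11) (.e (nat_lit 16465) (nat_lit 13) (.e (nat_lit 483360) (nat_lit 17) .nil)))) (.g (nat_lit 0) (.e (nat_lit 189961) (nat_lit 0) .nil) .nil))))) (.nd (nat_lit 8) (.nd (nat_lit 9) 
(.lf (nat_lit 508146) (.g (nat_lit 1819) (.e (nat_lit 172059) (nat_lit 1) (.e (nat_lit 164399) (nat_lit 256) (.e (nat_lit 57445) (nat_lit 19) (.e (nat_lit 393233) (nat_lit 17) (.e (nat_lit 7583) (nat_lit 405) .nil))))) (.g (nat_lit 0) (.e (nat_lit 188537) (nat_lit 0) .nil) .nil))) 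
(.lf (nat_lit 508658) (.g (nat_lit 2209) (.e (nat_lit 172067) (nat_lit 3) (.e (nat_lit 204868) (nat_lit 29) (.e (nat_lit 360475) (nat_lit 8) (.e (nat_lit 557068) (nat_lit 9) .nil)))) (.g (nat_lit 0) (.e (nat_lit 189686) (nat_lit 0) .nil) .nil)))) (.nd (nat_lit 9) 
(.lf (nat_lit 508402) (.g (nat_lit 1688) (.e (nat_lit 172065) (nat_lit 3) (.e (nat_lit 204846) (nat_lit 24) (.e (nat_lit 319505) (nat_lit 10) (.e (nat_lit 5714) (nat_lit 312) .nil)))) (.g (nat_lit 0) (.e (nat_lit 189045) (nat_lit 0) .nil) .nil))) 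
(.lf (nat_lit 508914) (.g (nat_lit 832) (.e (nat_lit 172079) (nat_lit 7) (.e (nat_lit 409616) (nat_lit 10) (.e (nat_lit 632) (nat_lit 50) .nil))) (.g (nat_lit 0) (.e (nat_lit 190322) (nat_lit 0) .nil) .nil))))))))) (.nd (nat_lit 4) (.nd (nat_lit 5) (.nd (nat_lit 6) (.nd (nat_lit 7) (.nd (nat_lit 8) (.nd (nat_lit 9) 
(.lf (nat_lit 507914) (.g (nat_lit 2326) (.e (nat_lit 164402) (nat_lit 256) (.e (nat_lit 57400) (nat_lit 10) (.e (nat_lit 319533) (nat_lit 16) (.e (nat_lit 286748) (nat_lit 9) (.e (nat_lit 343808) (nat_lit 32) .nil))))) (.g (nat_lit 0) (.e (nat_lit 188164) (nat_lit 0) .nil) .nil))) 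
(.lf (nat_lit 508426) (.g (nat_lit 3205) (.e (nat_lit 172065) (nat_lit 3) (.e (nat_lit 204868) (nat_lit 29) (.e (nat_lit 360472) (nat_lit 8) (.e (nat_lit 557090) (nat_lit 12) (.e (nat_lit 164020) (nat_lit 45) (.e (nat_lit 696343) (nat_lit 8) .nil)))))) (.g (nat_lit 1) (.e (nat_lit 189129) (nat_lit 0) .nil) .nil)))) (.nd (nat_lit 9) 
(.lf (nat_lit 508170) (.g (nat_lit 3600) (.e (nat_lit 172062) (nat_lit 2) (.e (nat_lit 196666) (nat_lit 13) (.e (nat_lit 65610) (nat_lit 10) (.e (nat_lit 344129) (nat_lit 26) (.e (nat_lit 557089) (nat_lit 12) (.e (nat_lit 163848) (nat_lit 0) (.e (nat_lit 6255) (nat_lit 337) (.e (nat_lit 2630) (nat_lit 164) .nil)))))))) (.g (nat_lit 1) (.e (nat_lit 188662) (nat_lit 0) .nil) .nil))) 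
(.lf (nat_lit 508682) (.g (nat_lit 3218) (.e (nat_lit 172067) (nat_lit 3) (.e (nat_lit 204869) (nat_lit 29) (.e (nat_lit 360474) (nat_lit 8) (.e (nat_lit 557091) (nat_lit 12) .nil)))) (.g (nat_lit 0) (.e (nat_lit 189739) (nat_lit 0) .nil) .nil))))) (.nd (nat_lit 8) (.nd (nat_lit 9) 
(.lf (nat_lit 508042) (.g (nat_lit 3167) (.e (nat_lit 164403) (nat_lit 256) (.e (nat_lit 57378) (nat_lit 3) (.e (nat_lit 98367) (nat_lit 27) (.e (nat_lit 434248) (nat_lit 28) (.e (nat_lit 573489) (nat_lit 14) (.e (nat_lit 73755) (nat_lit 8) (.e (nat_lit 557067) (nat_lit 9) (.e (nat_lit 2606) (nat_lit 163) .nil)))))))) (.g (nat_lit 1) (.e (nat_lit 188318) (nat_lit 0) .nil) .nil))) 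
(.lf (nat_lit 508554) (.g (nat_lit 3866) (.e (nat_lit 172066) (nat_lit 3) (.e (nat_lit 204869) (nat_lit 29) (.e (nat_lit 360475) (nat_lit 8) (.e (nat_lit 557091) (nat_lit 12) (.e (nat_lit 163852) (nat_lit 0) (.e (nat_lit 6273) (nat_lit 337) (.e (nat_lit 2633) (nat_lit 164) .nil))))))) (.g (nat_lit 1) (.e (nat_lit 189380) (nat_lit 0) .nil) .nil)))) (.nd (nat_lit 9) 
(.lf (nat_lit 508298) (.g (nat_lit 2550) (.e (nat_lit 172064) (nat_lit 2) (.e (nat_lit 196666) (nat_lit 13) (.e (nat_lit 65610) (nat_lit 10) (.e (nat_lit 344129) (nat_lit 26) (.e (nat_lit 557089) (nat_lit 12) .nil))))) (.g (nat_lit 0) (.e (nat_lit 188930) (nat_lit 0) .nil) .nil))) 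
(.lf (nat_lit 508810) (.g (nat_lit 1139) (.e (nat_lit 172074) (nat_lit 6) (.e (nat_lit 253992) (nat_lit 11) (.e (nat_lit 16466) (nat_lit 13) (.e (nat_lit 483345) (nat_lit 17) .nil)))) (.g (nat_lit 0) (.e (nat_lit 190012) (nat_lit 0) .nil) .nil)))))) (.nd (nat_lit 7) (.nd (nat_lit 8) (.nd (nat_lit 9) 
(.lf (nat_lit 507978) (.g (nat_lit 4600) (.e (nat_lit 164403) (nat_lit 256) (.e (nat_lit 57373) (nat_lit 2) (.e (nat_lit 90173) (nat_lit 14) (.e (nat_lit 180252) (nat_lit 10) (.e (nat_lit 573489) (nat_lit 14) (.e (nat_lit 73755) (nat_lit 8) (.e (nat_lit 557067) (nat_lit 9) (.e (nat_lit 2603) (nat_lit 163) .nil)))))))) (.g (nat_lit 1) (.e (nat_lit 188244) (nat_lit 0) .nil) .nil))) 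
(.lf (nat_lit 508490) (.g (nat_lit 2601) (.e (nat_lit 172066) (nat_lit 3) (.e (nat_lit 204845) (nat_lit 24) (.e (nat_lit 319531) (nat_lit 16) (.e (nat_lit 286735) (nat_lit 3) (.e (nat_lit 98323) (nat_lit 17) (.e (nat_lit 7936) (nat_lit 392) .nil)))))) (.g (nat_lit 1) (.e (nat_lit 189262) (nat_lit 0) .nil) .nil)))) (.nd (nat_lit 9) 
(.lf (nat_lit 508234) (.g (nat_lit 4949) (.e (nat_lit 172062) (nat_lit 2) (.e (nat_lit 196666) (nat_lit 13) (.e (nat_lit 65617) (nat_lit 10) (.e (nat_lit 344133) (nat_lit 26) (.e (nat_lit 557091) (nat_lit 12) (.e (nat_lit 164020) (nat_lit 45) (.e (nat_lit 696344) (nat_lit 8) .nil))))))) (.g (nat_lit 1) (.e (nat_lit 188729) (nat_lit 0) .nil) .nil))) 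
(.lf (nat_lit 508746) (.g (nat_lit 2560) (.e (nat_lit 172067) (nat_lit 3) (.e (nat_lit 204869) (nat_lit 29) (.e (nat_lit 360475) (nat_lit 8) (.e (nat_lit 557094) (nat_lit 12) .nil)))) (.g (nat_lit 0) (.e (nat_lit 189832) (nat_lit 0) .nil) .nil))))) (.nd (nat_lit 8) (.nd (nat_lit 9) 
(.lf (nat_lit 508106) (.g (nat_lit 430) (.e (nat_lit 172038) (nat_lit 0) (.e (nat_lit 7107) (nat_lit 380) (.e (nat_lit 164339) (nat_lit 232) .nil))) (.g (nat_lit 0) (.e (nat_lit 188407) (nat_lit 0) .nil) .nil))) 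
(.lf (nat_lit 508618) (.g (nat_lit 3898) (.e (nat_lit 172067) (nat_lit 3) (.e (nat_lit 204846) (nat_lit 24) (.e (nat_lit 319534) (nat_lit 16) (.e (nat_lit 286735) (nat_lit 3) (.e (nat_lit 98321) (nat_lit 17) (.e (nat_lit 7936) (nat_lit 392) .nil)))))) (.g (nat_lit 1) (.e (nat_lit 189499) (nat_lit 0) .nil) .nil)))) (.nd (nat_lit 9) 
(.lf (nat_lit 508362) (.g (nat_lit 2071) (.e (nat_lit 172064) (nat_lit 2) (.e (nat_lit 196666) (nat_lit 13) (.e (nat_lit 65617) (nat_lit 10) (.e (nat_lit 344133) (nat_lit 26) (.e (nat_lit 557089) (nat_lit 12) .nil))))) (.g (nat_lit 0) (.e (nat_lit 188996) (nat_lit 0) .nil) .nil))) 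
(.lf (nat_lit 508874) (.g (nat_lit 392) (.e (nat_lit 172078) (nat_lit 7) (.e (nat_lit 409645) (nat_lit 18) (.e (nat_lit 303143) (nat_lit 12) .nil))) (.g (nat_lit 0) (.e (nat_lit 190247) (nat_lit 0) .nil) .nil))))))) (.nd (nat_lit 6) (.nd (nat_lit 7) (.nd (nat_lit 8) (.nd (nat_lit 9) 
(.lf (nat_lit 507946) (.g (nat_lit 2444) (.e (nat_lit 164403) (nat_lit 256) (.e (nat_lit 57370) (nat_lit 2) (.e (nat_lit 90174) (nat_lit 14) (.e (nat_lit 180243) (nat_lit 5) (.e (nat_lit 532515) (nat_lit 3) (.e (nat_lit 114716) (nat_lit 22) (.e (nat_lit 90140) (nat_lit 9) (.e (nat_lit 2611) (nat_lit 163) .nil)))))))) (.g (nat_lit 1) (.e (nat_lit 188200) (nat_lit 0) .nil) .nil))) 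
(.lf (nat_lit 508458) (.g (nat_lit 1359) (.e (nat_lit 172065) (nat_lit 3) (.e (nat_lit 204869) (nat_lit 29) (.e (nat_lit 360474) (nat_lit 8) (.e (nat_lit 557093) (nat_lit 12) .nil)))) (.g (nat_lit 0) (.e (nat_lit 189174) (nat_lit 0) .nil) .nil)))) (.nd (nat_lit 9) 
(.lf (nat_lit 508202) (.g (nat_lit 3342) (.e (nat_lit 172062) (nat_lit 2) (.e (nat_lit 196666) (nat_lit 13) (.e (nat_lit 65617) (nat_lit 10) (.e (nat_lit 344130) (nat_lit 26) (.e (nat_lit 557090) (nat_lit 12) (.e (nat_lit 163843) (nat_lit 0) (.e (nat_lit 6255) (nat_lit 337) (.e (nat_lit 2622) (nat_lit 164) .nil)))))))) (.g (nat_lit 1) (.e (nat_lit 188697) (nat_lit 0) .nil) .nil))) 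
(.lf (nat_lit 508714) (.g (nat_lit 3251) (.e (nat_lit 172067) (nat_lit 3) (.e (nat_lit 204869) (nat_lit 29) (.e (nat_lit 360475) (nat_lit 8) (.e (nat_lit 557089) (nat_lit 12) (.e (nat_lit 171776) (nat_lit 0) (.e (nat_lit 6374) (nat_lit 337) (.e (nat_lit 2628) (nat_lit 164) .nil))))))) (.g (nat_lit 1) (.e (nat_lit 189789) (nat_lit 0) .nil) .nil))))) (.nd (nat_lit 8) (.nd (nat_lit 9) 
(.lf (nat_lit 508074) (.g (nat_lit 1218) (.e (nat_lit 164403) (nat_lit 256) (.e (nat_lit 57408) (nat_lit 12) (.e (nat_lit 336443) (nat_lit 32) (.e (nat_lit 466980) (nat_lit 23) .nil)))) (.g (nat_lit 0) (.e (nat_lit 188350) (nat_lit 0) .nil) .nil))) 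
(.lf (nat_lit 508586) (.g (nat_lit 1985) (.e (nat_lit 172067) (nat_lit 3) (.e (nat_lit 204846) (nat_lit 24) (.e (nat_lit 319539) (nat_lit 19) (.e (nat_lit 311312) (nat_lit 2) .nil)))) (.g (nat_lit 0) (.e (nat_lit 189449) (nat_lit 0) .nil) .nil)))) (.nd (nat_lit 9) 
(.lf (nat_lit 508330) (.g (nat_lit 3665) (.e (nat_lit 172064) (nat_lit 2) (.e (nat_lit 196666) (nat_lit 13) (.e (nat_lit 65617) (nat_lit 10) (.e (nat_lit 344127) (nat_lit 26) (.e (nat_lit 557090) (nat_lit 12) (.e (nat_lit 163843) (nat_lit 0) (.e (nat_lit 6374) (nat_lit 337) (.e (nat_lit 2628) (nat_lit 164) .nil)))))))) (.g (nat_lit 1) (.e (nat_lit 188964) (nat_lit 0) .nil) .nil))) 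
(.lf (nat_lit 508842) (.g (nat_lit 1699) (.e (nat_lit 172076) (nat_lit 6) (.e (nat_lit 253991) (nat_lit 11) (.e (nat_lit 16466) (nat_lit 13) (.e (nat_lit 483349) (nat_lit 17) .nil)))) (.g (nat_lit 0) (.e (nat_lit 190102) (nat_lit 0) .nil) .nil)))))) (.nd (nat_lit 7) (.nd (nat_lit 8) (.nd (nat_lit 9) 
(.lf (nat_lit 508010) (.g (nat_lit 597) (.e (nat_lit 164403) (nat_lit 256) (.e (nat_lit 57377) (nat_lit 3) (.e (nat_lit 98363) (nat_lit 26) .nil))) (.g (nat_lit 0) (.e (nat_lit 188276) (nat_lit 0) .nil) .nil))) 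
(.lf (nat_lit 508522) (.g (nat_lit 2272) (.e (nat_lit 172066) (nat_lit 3) (.e (nat_lit 204869) (nat_lit 29) (.e (nat_lit 360472) (nat_lit 8) (.e (nat_lit 557090) (nat_lit 12) .nil)))) (.g (nat_lit 0) (.e (nat_lit 189321) (nat_lit 0) .nil) .nil)))) (.nd (nat_lit 9) 
(.lf (nat_lit 508266) (.g (nat_lit 2595) (.e (nat_lit 172064) (nat_lit 2) (.e (nat_lit 196666) (nat_lit 13) (.e (nat_lit 65610) (nat_lit 10) (.e (nat_lit 344117) (nat_lit 21) (.e (nat_lit 516098) (nat_lit 0) (.e (nat_lit 2398) (nat_lit 157) (.e (nat_lit 4506) (nat_lit 263) (.e (nat_lit 2619) (nat_lit 164) .nil)))))))) (.g (nat_lit 1) (.e (nat_lit 188810) (nat_lit 0) .nil) .nil))) 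
(.lf (nat_lit 508778) (.g (nat_lit 1356) (.e (nat_lit 172070) (nat_lit 4) (.e (nat_lit 229680) (nat_lit 244) (.e (nat_lit 163941) (nat_lit 19) (.e (nat_lit 483349) (nat_lit 17) .nil)))) (.g (nat_lit 0) (.e (nat_lit 189919) (nat_lit 0) .nil) .nil))))) (.nd (nat_lit 8) (.nd (nat_lit 9) 
(.lf (nat_lit 508138) (.g (nat_lit 4570) (.e (nat_lit 172059) (nat_lit 1) (.e (nat_lit 164348) (nat_lit 240) (.e (nat_lit 2610) (nat_lit 163) (.e (nat_lit 163977) (nat_lit 30) (.e (nat_lit 573485) (nat_lit 13) (.e (nat_lit 65604) (nat_lit 9) (.e (nat_lit 336013) (nat_lit 2) (.e (nat_lit 90170) (nat_lit 13) .nil)))))))) (.g (nat_lit 1) (.e (nat_lit 188528) (nat_lit 0) .nil) .nil))) 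
(.lf (nat_lit 508650) (.g (nat_lit 2805) (.e (nat_lit 172067) (nat_lit 3) (.e (nat_lit 204868) (nat_lit 29) (.e (nat_lit 360473) (nat_lit 8) (.e (nat_lit 557091) (nat_lit 12) (.e (nat_lit 164018) (nat_lit 45) (.e (nat_lit 696342) (nat_lit 8) .nil)))))) (.g (nat_lit 1) (.e (nat_lit 189674) (nat_lit 0) .nil) .nil)))) (.nd (nat_lit 9) 
(.lf (nat_lit 508394) (.g (nat_lit 1942) (.e (nat_lit 172065) (nat_lit 3) (.e (nat_lit 204838) (nat_lit 20) (.e (nat_lit 114719) (nat_lit 23) (.e (nat_lit 98333) (nat_lit 18) (.e (nat_lit 164400) (nat_lit 256) .nil))))) (.g (nat_lit 0) (.e (nat_lit 189037) (nat_lit 0) .nil) .nil))) 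
(.lf (nat_lit 508906) (.g (nat_lit 3959) (.e (nat_lit 172078) (nat_lit 7) (.e (nat_lit 409649) (nat_lit 18) (.e (nat_lit 303140) (nat_lit 10) (.e (nat_lit 434275) (nat_lit 39) (.e (nat_lit 663585) (nat_lit 12) (.e (nat_lit 164018) (nat_lit 45) (.e (nat_lit 696344) (nat_lit 8) .nil))))))) (.g (nat_lit 1) (.e (nat_lit 190298) (nat_lit 0) .nil) .nil)))))))) 
(.nd (nat_lit 5) (.nd (nat_lit 6) (.nd (nat_lit 7) (.nd (nat_lit 8) (.nd (nat_lit 9) 
(.lf (nat_lit 507930) (.g (nat_lit 783) (.e (nat_lit 164402) (nat_lit 256) (.e (nat_lit 57427) (nat_lit 15) (.e (nat_lit 360458) (nat_lit 1) .nil))) (.g (nat_lit 0) (.e (nat_lit 188180) (nat_lit 0) .nil) .nil))) 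
(.lf (nat_lit 508442) (.g (nat_lit 3818) (.e (nat_lit 172065) (nat_lit 3) (.e (nat_lit 204868) (nat_lit 29) (.e (nat_lit 360475) (nat_lit 8) (.e (nat_lit 557089) (nat_lit 12) (.e (nat_lit 164020) (nat_lit 45) (.e (nat_lit 696343) (nat_lit 8) .nil)))))) (.g (nat_lit 1) (.e (nat_lit 189153) (nat_lit 0) .nil) .nil)))) (.nd (nat_lit 9) 
(.lf (nat_lit 508186) (.g (nat_lit 2059) (.e (nat_lit 172062) (nat_lit 2) (.e (nat_lit 196666) (nat_lit 13) (.e (nat_lit 65610) (nat_lit 10) (.e (nat_lit 344129) (nat_lit 26) (.e (nat_lit 557090) (nat_lit 12) (.e (nat_lit 163847) (nat_lit 0) (.e (nat_lit 6374) (nat_lit 337) (.e (nat_lit 2628) (nat_lit 164) .nil)))))))) (.g (nat_lit 1) (.e (nat_lit 188678) (nat_lit 0) .nil) .nil))) 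
(.lf (nat_lit 508698) (.g (nat_lit 3134) (.e (nat_lit 172067) (nat_lit 3) (.e (nat_lit 204869) (nat_lit 29) (.e (nat_lit 360475) (nat_lit 8) (.e (nat_lit 557088) (nat_lit 12) .nil)))) (.g (nat_lit 0) (.e (nat_lit 189766) (nat_lit 0) .nil) .nil))))) (.nd (nat_lit 8) (.nd (nat_lit 9) 
(.lf (nat_lit 508058) (.g (nat_lit 2559) (.e (nat_lit 164403) (nat_lit 256) (.e (nat_lit 57378) (nat_lit 3) (.e (nat_lit 98376) (nat_lit 30) (.e (nat_lit 458789) (nat_lit 23) (.e (nat_lit 532515) (nat_lit 3) (.e (nat_lit 114716) (nat_lit 22) (.e (nat_lit 90137) (nat_lit 9) (.e (nat_lit 2609) (nat_lit 163) .nil)))))))) (.g (nat_lit 1) (.e (nat_lit 188334) (nat_lit 0) .nil) .nil))) 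
(.lf (nat_lit 508570) (.g (nat_lit 2690) (.e (nat_lit 172067) (nat_lit 3) (.e (nat_lit 204838) (nat_lit 20) (.e (nat_lit 114718) (nat_lit 23) (.e (nat_lit 98334) (nat_lit 18) (.e (nat_lit 164402) (nat_lit 256) .nil))))) (.g (nat_lit 0) (.e (nat_lit 189424) (nat_lit 0) .nil) .nil)))) (.nd (nat_lit 9) 
(.lf (nat_lit 508314) (.g (nat_lit 4340) (.e (nat_lit 172064) (nat_lit 2) (.e (nat_lit 196666) (nat_lit 13) (.e (nat_lit 65610) (nat_lit 10) (.e (nat_lit 344129) (nat_lit 26) (.e (nat_lit 557090) (nat_lit 12) (.e (nat_lit 163844) (nat_lit 0) (.e (nat_lit 6252) (nat_lit 337) (.e (nat_lit 2630) (nat_lit 164) .nil)))))))) (.g (nat_lit 1) (.e (nat_lit 188947) (nat_lit 0) .nil) .nil))) 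
(.lf (nat_lit 508826) (.g (nat_lit 749) (.e (nat_lit 172076) (nat_lit 6) (.e (nat_lit 253989) (nat_lit 11) (.e (nat_lit 16465) (nat_lit 13) (.e (nat_lit 483354) (nat_lit 17) .nil)))) (.g (nat_lit 0) (.e (nat_lit 190067) (nat_lit 0) .nil) .nil)))))) (.nd (nat_lit 7) (.nd (nat_lit 8) (.nd (nat_lit 9) 
(.lf (nat_lit 507994) (.g (nat_lit 5097) (.e (nat_lit 164403) (nat_lit 256) (.e (nat_lit 57373) (nat_lit 2) (.e (nat_lit 90174) (nat_lit 14) (.e (nat_lit 180251) (nat_lit 10) (.e (nat_lit 573489) (nat_lit 14) (.e (nat_lit 73755) (nat_lit 8) (.e (nat_lit 557067) (nat_lit 9) (.e (nat_lit 2603) (nat_lit 163) .nil)))))))) (.g (nat_lit 1) (.e (nat_lit 188260) (nat_lit 0) .nil) .nil))) 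
(.lf (nat_lit 508506) (.g (nat_lit 3103) (.e (nat_lit 172066) (nat_lit 3) (.e (nat_lit 204846) (nat_lit 24) (.e (nat_lit 319533) (nat_lit 16) (.e (nat_lit 286735) (nat_lit 3) (.e (nat_lit 98325) (nat_lit 17) (.e (nat_lit 7936) (nat_lit 392) .nil)))))) (.g (nat_lit 1) (.e (nat_lit 189285) (nat_lit 0) .nil) .nil)))) (.nd (nat_lit 9) 
(.lf (nat_lit 508250) (.g (nat_lit 3045) (.e (nat_lit 172063) (nat_lit 2) (.e (nat_lit 196666) (nat_lit 13) (.e (nat_lit 65617) (nat_lit 10) (.e (nat_lit 344133) (nat_lit 26) (.e (nat_lit 557091) (nat_lit 12) (.e (nat_lit 163844) (nat_lit 0) (.e (nat_lit 6255) (nat_lit 337) (.e (nat_lit 2630) (nat_lit 164) .nil)))))))) (.g (nat_lit 1) (.e (nat_lit 188761) (nat_lit 0) .nil) .nil))) 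
(.lf (nat_lit 508762) (.g (nat_lit 5003) (.e (nat_lit 172068) (nat_lit 4) (.e (nat_lit 229663) (nat_lit 240) (.e (nat_lit 2612) (nat_lit 163) (.e (nat_lit 163977) (nat_lit 30) (.e (nat_lit 573493) (nat_lit 15) (.e (nat_lit 81953) (nat_lit 22) (.e (nat_lit 90170) (nat_lit 13) .nil))))))) (.g (nat_lit 1) (.e (nat_lit 189882) (nat_lit 0) .nil) .nil))))) (.nd (nat_lit 8) (.nd (nat_lit 9) 
(.lf (nat_lit 508122) (.g (nat_lit 1914) (.e (nat_lit 172046) (nat_lit 0) (.e (nat_lit 3238) (nat_lit 197) (.e (nat_lit 532535) (nat_lit 9) (.e (nat_lit 336176) (nat_lit 10) (.e (nat_lit 344130) (nat_lit 26) .nil))))) (.g (nat_lit 0) (.e (nat_lit 188466) (nat_lit 0) .nil) .nil))) 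
(.lf (nat_lit 508634) (.g (nat_lit 1107) (.e (nat_lit 172067) (nat_lit 3) (.e (nat_lit 204855) (nat_lit 26) (.e (nat_lit 336176) (nat_lit 10) (.e (nat_lit 344130) (nat_lit 26) .nil)))) (.g (nat_lit 0) (.e (nat_lit 189548) (nat_lit 0) .nil) .nil)))) (.nd (nat_lit 9) 
(.lf (nat_lit 508378) (.g (nat_lit 2342) (.e (nat_lit 172064) (nat_lit 2) (.e (nat_lit 196666) (nat_lit 13) (.e (nat_lit 65617) (nat_lit 10) (.e (nat_lit 344133) (nat_lit 26) (.e (nat_lit 557091) (nat_lit 12) (.e (nat_lit 164020) (nat_lit 45) (.e (nat_lit 696342) (nat_lit 8) .nil))))))) (.g (nat_lit 1) (.e (nat_lit 189012) (nat_lit 0) .nil) .nil))) 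
(.lf (nat_lit 508890) (.g (nat_lit 1844) (.e (nat_lit 172078) (nat_lit 7) (.e (nat_lit 409646) (nat_lit 18) (.e (nat_lit 303140) (nat_lit 10) (.e (nat_lit 434275) (nat_lit 39) .nil)))) (.g (nat_lit 0) (.e (nat_lit 190272) (nat_lit 0) .nil) .nil))))))) (.nd (nat_lit 6) (.nd (nat_lit 7) (.nd (nat_lit 8) (.nd (nat_lit 9) 
(.lf (nat_lit 507962) (.g (nat_lit 1665) (.e (nat_lit 164403) (nat_lit 256) (.e (nat_lit 57371) (nat_lit 2) (.e (nat_lit 90174) (nat_lit 14) (.e (nat_lit 180245) (nat_lit 5) .nil)))) (.g (nat_lit 0) (.e (nat_lit 188223) (nat_lit 0) .nil) .nil))) 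
(.lf (nat_lit 508474) (.g (nat_lit 2946) (.e (nat_lit 172065) (nat_lit 3) (.e (nat_lit 204870) (nat_lit 29) (.e (nat_lit 360472) (nat_lit 8) (.e (nat_lit 557090) (nat_lit 12) (.e (nat_lit 164020) (nat_lit 45) (.e (nat_lit 696344) (nat_lit 8) .nil)))))) (.g (nat_lit 1) (.e (nat_lit 189194) (nat_lit 0) .nil) .nil)))) (.nd (nat_lit 9) 
(.lf (nat_lit 508218) (.g (nat_lit 4297) (.e (nat_lit 172062) (nat_lit 2) (.e (nat_lit 196666) (nat_lit 13) (.e (nat_lit 65617) (nat_lit 10) (.e (nat_lit 344133) (nat_lit 26) (.e (nat_lit 557089) (nat_lit 12) (.e (nat_lit 163844) (nat_lit 0) (.e (nat_lit 6254) (nat_lit 337) (.e (nat_lit 2630) (nat_lit 164) .nil)))))))) (.g (nat_lit 1) (.e (nat_lit 188713) (nat_lit 0) .nil) .nil))) 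
(.lf (nat_lit 508730) (.g (nat_lit 3926) (.e (nat_lit 172067) (nat_lit 3) (.e (nat_lit 204869) (nat_lit 29) (.e (nat_lit 360475) (nat_lit 8) (.e (nat_lit 557091) (nat_lit 12) (.e (nat_lit 163843) (nat_lit 0) (.e (nat_lit 6255) (nat_lit 337) (.e (nat_lit 2621) (nat_lit 164) .nil))))))) (.g (nat_lit 1) (.e (nat_lit 189810) (nat_lit 0) .nil) .nil))))) (.nd (nat_lit 8) (.nd (nat_lit 9) 
(.lf (nat_lit 508090) (.g (nat_lit 1378) (.e (nat_lit 172033) (nat_lit 0) (.e (nat_lit 7107) (nat_lit 380) (.e (nat_lit 164281) (nat_lit 222) (.e (nat_lit 57884) (nat_lit 270) (.e (nat_lit 1550) (nat_lit 109) .nil))))) (.g (nat_lit 0) (.e (nat_lit 188381) (nat_lit 0) .nil) .nil))) 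
(.lf (nat_lit 508602) (.g (nat_lit 3738) (.e (nat_lit 172067) (nat_lit 3) (.e (nat_lit 204846) (nat_lit 24) (.e (nat_lit 319531) (nat_lit 16) (.e (nat_lit 286735) (nat_lit 3) (.e (nat_lit 98323) (nat_lit 17) (.e (nat_lit 7936) (nat_lit 392) .nil)))))) (.g (nat_lit 1) (.e (nat_lit 189469) (nat_lit 0) .nil) .nil)))) (.nd (nat_lit 9) 
(.lf (nat_lit 508346) (.g (nat_lit 5498) (.e (nat_lit 172064) (nat_lit 2) (.e (nat_lit 196666) (nat_lit 13) (.e (nat_lit 65617) (nat_lit 10) (.e (nat_lit 344130) (nat_lit 26) (.e (nat_lit 557090) (nat_lit 12) (.e (nat_lit 163844) (nat_lit 0) (.e (nat_lit 6255) (nat_lit 337) (.e (nat_lit 2630) (nat_lit 164) .nil)))))))) (.g (nat_lit 1) (.e (nat_lit 188980) (nat_lit 0) .nil) .nil))) 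
(.lf (nat_lit 508858) (.g (nat_lit 1155) (.e (nat_lit 172076) (nat_lit 6) (.e (nat_lit 253992) (nat_lit 11) (.e (nat_lit 16466) (nat_lit 13) (.e (nat_lit 483345) (nat_lit 17) .nil)))) (.g (nat_lit 0) (.e (nat_lit 190138) (nat_lit 0) .nil) .nil)))))) (.nd (nat_lit 7) (.nd (nat_lit 8) (.nd (nat_lit 9) 
(.lf (nat_lit 508026) (.g (nat_lit 1019) (.e (nat_lit 164403) (nat_lit 256) (.e (nat_lit 57378) (nat_lit 3) (.e (nat_lit 98360) (nat_lit 26) .nil))) (.g (nat_lit 0) (.e (nat_lit 188301) (nat_lit 0) .nil) .nil))) 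
(.lf (nat_lit 508538) (.g (nat_lit 3556) (.e (nat_lit 172066) (nat_lit 3) (.e (nat_lit 204869) (nat_lit 29) (.e (nat_lit 360475) (nat_lit 8) (.e (nat_lit 557089) (nat_lit 12) (.e (nat_lit 164017) (nat_lit 44) (.e (nat_lit 696064) (nat_lit 8) .nil)))))) (.g (nat_lit 1) (.e (nat_lit 189345) (nat_lit 0) .nil) .nil)))) (.nd (nat_lit 9) 
(.lf (nat_lit 508282) (.g (nat_lit 2686) (.e (nat_lit 172064) (nat_lit 2) (.e (nat_lit 196666) (nat_lit 13) (.e (nat_lit 65610) (nat_lit 10) (.e (nat_lit 344117) (nat_lit 21) (.e (nat_lit 516106) (nat_lit 0) (.e (nat_lit 2478) (nat_lit 157) (.e (nat_lit 4495) (nat_lit 263) (.e (nat_lit 2625) (nat_lit 164) .nil)))))))) (.g (nat_lit 1) (.e (nat_lit 188831) (nat_lit 0) .nil) .nil))) 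
(.lf (nat_lit 508794) (.g (nat_lit 1717) (.e (nat_lit 172074) (nat_lit 6) (.e (nat_lit 253991) (nat_lit 11) (.e (nat_lit 16462) (nat_lit 13) (.e (nat_lit 483346) (nat_lit 17) (.e (nat_lit 7936) (nat_lit 361) .nil))))) (.g (nat_lit 0) (.e (nat_lit 189979) (nat_lit 0) .nil) .nil))))) (.nd (nat_lit 8) (.nd (nat_lit 9) 
(.lf (nat_lit 508154) (.g (nat_lit 2941) (.e (nat_lit 172061) (nat_lit 1) (.e (nat_lit 164327) (nat_lit 230) (.e (nat_lit 163875) (nat_lit 3) (.e (nat_lit 204830) (nat_lit 18) (.e (nat_lit 57927) (nat_lit 282) .nil))))) (.g (nat_lit 0) (.e (nat_lit 188573) (nat_lit 0) .nil) .nil))) 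
(.lf (nat_lit 508666) (.g (nat_lit 4925) (.e (nat_lit 172067) (nat_lit 3) (.e (nat_lit 204868) (nat_lit 29) (.e (nat_lit 360475) (nat_lit 8) (.e (nat_lit 557091) (nat_lit 12) (.e (nat_lit 163844) (nat_lit 0) (.e (nat_lit 6254) (nat_lit 337) (.e (nat_lit 2630) (nat_lit 164) .nil))))))) (.g (nat_lit 1) (.e (nat_lit 189706) (nat_lit 0) .nil) .nil)))) (.nd (nat_lit 9) 
(.lf (nat_lit 508410) (.g (nat_lit 3009) (.e (nat_lit 172065) (nat_lit 3) (.e (nat_lit 204846) (nat_lit 24) (.e (nat_lit 319533) (nat_lit 16) (.e (nat_lit 286735) (nat_lit 3) (.e (nat_lit 98325) (nat_lit 17) .nil))))) (.g (nat_lit 0) (.e (nat_lit 189053) (nat_lit 0) .nil) .nil))) 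
(.lf (nat_lit 508922) (.g (nat_lit 1092) (.e (nat_lit 172079) (nat_lit 7) (.e (nat_lit 409638) (nat_lit 15) (.e (nat_lit 278567) (nat_lit 16) (.e (nat_lit 286754) (nat_lit 10) (.e (nat_lit 344157) (nat_lit 36) (.e (nat_lit 638999) (nat_lit 8) .nil)))))) (.g (nat_lit 1) (.e (nat_lit 190341) (nat_lit 0) .nil) .nil)))))))))) 
(.nd (nat_lit 3) (.nd (nat_lit 4) (.nd (nat_lit 5) (.nd (nat_lit 6) (.nd (nat_lit 7) 
(.nd (nat_lit 8) (.nd (nat_lit 9) 
(.lf (nat_lit 507910) (.g (nat_lit 1181) (.e (nat_lit 164402) (nat_lit 256) (.e (nat_lit 57378) (nat_lit 3) (.e (nat_lit 98370) (nat_lit 28) (.e (nat_lit 450304) (nat_lit 18) .nil)))) (.g (nat_lit 0) (.e (nat_lit 188160) (nat_lit 0) .nil) .nil))) 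
(.lf (nat_lit 508422) (.g (nat_lit 1923) (.e (nat_lit 172065) (nat_lit 3) (.e (nat_lit 204855) (nat_lit 26) (.e (nat_lit 336176) (nat_lit 10) (.e (nat_lit 344133) (nat_lit 26) (.e (nat_lit 557089) (nat_lit 12) .nil))))) (.g (nat_lit 0) (.e (nat_lit 189091) (nat_lit 0) .nil) .nil)))) (.nd (nat_lit 9) 
(.lf (nat_lit 508166) (.g (nat_lit 2259) (.e (nat_lit 172062) (nat_lit 2) (.e (nat_lit 196666) (nat_lit 13) (.e (nat_lit 65610) (nat_lit 10) (.e (nat_lit 344129) (nat_lit 26) (.e (nat_lit 557089) (nat_lit 12) .nil))))) (.g (nat_lit 0) (.e (nat_lit 188658) (nat_lit 0) .nil) .nil))) 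
(.lf (nat_lit 508678) (.g (nat_lit 3767) (.e (nat_lit 172067) (nat_lit 3) (.e (nat_lit 204869) (nat_lit 29) (.e (nat_lit 360474) (nat_lit 8) (.e (nat_lit 557088) (nat_lit 12) (.e (nat_lit 164018) (nat_lit 45) (.e (nat_lit 696342) (nat_lit 8) .nil)))))) (.g (nat_lit 1) (.e (nat_lit 189735) (nat_lit 0) .nil) .nil))))) (.nd (nat_lit 8) (.nd (nat_lit 9) 
(.lf (nat_lit 508038) (.g (nat_lit 3083) (.e (nat_lit 164403) (nat_lit 256) (.e (nat_lit 57378) (nat_lit 3) (.e (nat_lit 98366) (nat_lit 27) (.e (nat_lit 434231) (nat_lit 23) (.e (nat_lit 532514) (nat_lit 3) (.e (nat_lit 114716) (nat_lit 22) (.e (nat_lit 90140) (nat_lit 9) (.e (nat_lit 2611) (nat_lit 163) .nil)))))))) (.g (nat_lit 1) (.e (nat_lit 188314) (nat_lit 0) .nil) .nil))) 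
(.lf (nat_lit 508550) (.g (nat_lit 3253) (.e (nat_lit 172066) (nat_lit 3) (.e (nat_lit 204869) (nat_lit 29) (.e (nat_lit 360475) (nat_lit 8) (.e (nat_lit 557091) (nat_lit 12) (.e (nat_lit 163847) (nat_lit 0) (.e (nat_lit 6252) (nat_lit 337) (.e (nat_lit 2620) (nat_lit 164) .nil))))))) (.g (nat_lit 1) (.e (nat_lit 189375) (nat_lit 0) .nil) .nil)))) (.nd (nat_lit 9) 
(.lf (nat_lit 508294) (.g (nat_lit 2681) (.e (nat_lit 172064) (nat_lit 2) (.e (nat_lit 196666) (nat_lit 13) (.e (nat_lit 65610) (nat_lit 10) (.e (nat_lit 344129) (nat_lit 26) (.e (nat_lit 557067) (nat_lit 9) (.e (nat_lit 2416) (nat_lit 157) (.e (nat_lit 3471) (nat_lit 217) (.e (nat_lit 696343) (nat_lit 8) .nil)))))))) (.g (nat_lit 1) (.e (nat_lit 188899) (nat_lit 0) .nil) .nil))) 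
(.lf (nat_lit 508806) (.g (nat_lit 1501) (.e (nat_lit 172074) (nat_lit 6) (.e (nat_lit 253992) (nat_lit 11) (.e (nat_lit 16463) (nat_lit 13) (.e (nat_lit 483353) (nat_lit 17) .nil)))) (.g (nat_lit 0) (.e (nat_lit 190007) (nat_lit 0) .nil) .nil)))))) (.nd (nat_lit 7) (.nd (nat_lit 8) (.nd (nat_lit 9) 
(.lf (nat_lit 507974) (.g (nat_lit 574) (.e (nat_lit 164403) (nat_lit 256) (.e (nat_lit 57373) (nat_lit 2) (.e (nat_lit 90169) (nat_lit 13) .nil))) (.g (nat_lit 0) (.e (nat_lit 188240) (nat_lit 0) .nil) .nil))) 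
(.lf (nat_lit 508486) (.g (nat_lit 2852) (.e (nat_lit 172066) (nat_lit 3) (.e (nat_lit 204845) (nat_lit 24) (.e (nat_lit 319530) (nat_lit 16) (.e (nat_lit 286733) (nat_lit 2) (.e (nat_lit 90165) (nat_lit 12) .nil))))) (.g (nat_lit 0) (.e (nat_lit 189258) (nat_lit 0) .nil) .nil)))) (.nd (nat_lit 9) 
(.lf (nat_lit 508230) (.g (nat_lit 2678) (.e (nat_lit 172062) (nat_lit 2) (.e (nat_lit 196666) (nat_lit 13) (.e (nat_lit 65617) (nat_lit 10) (.e (nat_lit 344133) (nat_lit 26) (.e (nat_lit 557091) (nat_lit 12) (.e (nat_lit 164018) (nat_lit 45) (.e (nat_lit 696342) (nat_lit 8) .nil))))))) (.g (nat_lit 1) (.e (nat_lit 188725) (nat_lit 0) .nil) .nil))) 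
(.lf (nat_lit 508742) (.g (nat_lit 3525) (.e (nat_lit 172067) (nat_lit 3) (.e (nat_lit 204869) (nat_lit 29) (.e (nat_lit 360475) (nat_lit 8) (.e (nat_lit 557091) (nat_lit 12) (.e (nat_lit 164018) (nat_lit 45) (.e (nat_lit 696342) (nat_lit 8) .nil)))))) (.g (nat_lit 1) (.e (nat_lit 189828) (nat_lit 0) .nil) .nil))))) (.nd (nat_lit 8) (.nd (nat_lit 9) 
(.lf (nat_lit 508102) (.g (nat_lit 560) (.e (nat_lit 172038) (nat_lit 0) (.e (nat_lit 7107) (nat_lit 380) (.e (nat_lit 164108) (nat_lit 116) .nil))) (.g (nat_lit 0) (.e (nat_lit 188401) (nat_lit 0) .nil) .nil))) 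
(.lf (nat_lit 508614) (.g (nat_lit 4135) (.e (nat_lit 172067) (nat_lit 3) (.e (nat_lit 204846) (nat_lit 24) (.e (nat_lit 319534) (nat_lit 16) (.e (nat_lit 286733) (nat_lit 2) (.e (nat_lit 90165) (nat_lit 12) (.e (nat_lit 171776) (nat_lit 205) .nil)))))) (.g (nat_lit 1) (.e (nat_lit 189492) (nat_lit 0) .nil) .nil)))) (.nd (nat_lit 9) 
(.lf (nat_lit 508358) (.g (nat_lit 2083) (.e (nat_lit 172064) (nat_lit 2) (.e (nat_lit 196666) (nat_lit 13) (.e (nat_lit 65617) (nat_lit 10) (.e (nat_lit 344132) (nat_lit 26) (.e (nat_lit 557094) (nat_lit 12) .nil))))) (.g (nat_lit 0) (.e (nat_lit 188992) (nat_lit 0) .nil) .nil))) 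
(.lf (nat_lit 508870) (.g (nat_lit 1799) (.e (nat_lit 172077) (nat_lit 7) (.e (nat_lit 409649) (nat_lit 18) (.e (nat_lit 303140) (nat_lit 10) (.e (nat_lit 434275) (nat_lit 39) .nil)))) (.g (nat_lit 0) (.e (nat_lit 190226) (nat_lit 0) .nil) .nil))))))) (.nd (nat_lit 6) (.nd (nat_lit 7) (.nd (nat_lit 8) (.nd (nat_lit 9) 
(.lf (nat_lit 507942) (.g (nat_lit 2986) (.e (nat_lit 164402) (nat_lit 256) (.e (nat_lit 57427) (nat_lit 15) (.e (nat_lit 360475) (nat_lit 8) (.e (nat_lit 557091) (nat_lit 12) (.e (nat_lit 163856) (nat_lit 0) .nil))))) (.g (nat_lit 0) (.e (nat_lit 188192) (nat_lit 0) .nil) .nil))) 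
(.lf (nat_lit 508454) (.g (nat_lit 2510) (.e (nat_lit 172065) (nat_lit 3) (.e (nat_lit 204869) (nat_lit 29) (.e (nat_lit 360474) (nat_lit 8) (.e (nat_lit 557088) (nat_lit 12) .nil)))) (.g (nat_lit 0) (.e (nat_lit 189170) (nat_lit 0) .nil) .nil)))) (.nd (nat_lit 9) 
(.lf (nat_lit 508198) (.g (nat_lit 2002) (.e (nat_lit 172062) (nat_lit 2) (.e (nat_lit 196666) (nat_lit 13) (.e (nat_lit 65617) (nat_lit 10) (.e (nat_lit 344130) (nat_lit 26) (.e (nat_lit 557089) (nat_lit 12) .nil))))) (.g (nat_lit 0) (.e (nat_lit 188693) (nat_lit 0) .nil) .nil))) 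
(.lf (nat_lit 508710) (.g (nat_lit 2941) (.e (nat_lit 172067) (nat_lit 3) (.e (nat_lit 204869) (nat_lit 29) (.e (nat_lit 360475) (nat_lit 8) (.e (nat_lit 557089) (nat_lit 12) (.e (nat_lit 163849) (nat_lit 0) (.e (nat_lit 6255) (nat_lit 337) (.e (nat_lit 2621) (nat_lit 164) .nil))))))) (.g (nat_lit 1) (.e (nat_lit 189785) (nat_lit 0) .nil) .nil))))) (.nd (nat_lit 8) (.nd (nat_lit 9) 
(.lf (nat_lit 508070) (.g (nat_lit 3230) (.e (nat_lit 164403) (nat_lit 256) (.e (nat_lit 57406) (nat_lit 12) (.e (nat_lit 336433) (nat_lit 30) (.e (nat_lit 450588) (nat_lit 10) (.e (nat_lit 573503) (nat_lit 18) (.e (nat_lit 1380) (nat_lit 105) (.e (nat_lit 311309) (nat_lit 1) .nil))))))) (.g (nat_lit 1) (.e (nat_lit 188346) (nat_lit 0) .nil) .nil))) 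
(.lf (nat_lit 508582) (.g (nat_lit 3062) (.e (nat_lit 172067) (nat_lit 3) (.e (nat_lit 204845) (nat_lit 24) (.e (nat_lit 319531) (nat_lit 16) (.e (nat_lit 286735) (nat_lit 3) (.e (nat_lit 98321) (nat_lit 17) .nil))))) (.g (nat_lit 0) (.e (nat_lit 189437) (nat_lit 0) .nil) .nil)))) (.nd (nat_lit 9) 
(.lf (nat_lit 508326) (.g (nat_lit 2915) (.e (nat_lit 172064) (nat_lit 2) (.e (nat_lit 196666) (nat_lit 13) (.e (nat_lit 65610) (nat_lit 10) (.e (nat_lit 344129) (nat_lit 26) (.e (nat_lit 557092) (nat_lit 12) (.e (nat_lit 163849) (nat_lit 0) (.e (nat_lit 6255) (nat_lit 337) (.e (nat_lit 2630) (nat_lit 164) .nil)))))))) (.g (nat_lit 1) (.e (nat_lit 188959) (nat_lit 0) .nil) .nil))) 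
(.lf (nat_lit 508838) (.g (nat_lit 1724) (.e (nat_lit 172076) (nat_lit 6) (.e (nat_lit 253991) (nat_lit 11) (.e (nat_lit 16466) (nat_lit 13) (.e (nat_lit 483343) (nat_lit 17) .nil)))) (.g (nat_lit 0) (.e (nat_lit 190098) (nat_lit 0) .nil) .nil)))))) (.nd (nat_lit 7) (.nd (nat_lit 8) (.nd (nat_lit 9) 
(.lf (nat_lit 508006) (.g (nat_lit 746) (.e (nat_lit 164403) (nat_lit 256) (.e (nat_lit 57377) (nat_lit 3) (.e (nat_lit 98357) (nat_lit 26) .nil))) (.g (nat_lit 0) (.e (nat_lit 188272) (nat_lit 0) .nil) .nil))) 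
(.lf (nat_lit 508518) (.g (nat_lit 2532) (.e (nat_lit 172066) (nat_lit 3) (.e (nat_lit 204868) (nat_lit 29) (.e (nat_lit 360473) (nat_lit 8) (.e (nat_lit 557090) (nat_lit 12) .nil)))) (.g (nat_lit 0) (.e (nat_lit 189316) (nat_lit 0) .nil) .nil)))) (.nd (nat_lit 9) 
(.lf (nat_lit 508262) (.g (nat_lit 3455) (.e (nat_lit 172064) (nat_lit 2) (.e (nat_lit 196666) (nat_lit 13) (.e (nat_lit 65610) (nat_lit 10) (.e (nat_lit 344117) (nat_lit 21) (.e (nat_lit 516097) (nat_lit 0) (.e (nat_lit 2412) (nat_lit 157) (.e (nat_lit 4506) (nat_lit 263) (.e (nat_lit 2619) (nat_lit 164) .nil)))))))) (.g (nat_lit 1) (.e (nat_lit 188806) (nat_lit 0) .nil) .nil))) 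
(.lf (nat_lit 508774) (.g (nat_lit 2779) (.e (nat_lit 172070) (nat_lit 4) (.e (nat_lit 229663) (nat_lit 240) (.e (nat_lit 2612) (nat_lit 163) (.e (nat_lit 163979) (nat_lit 30) (.e (nat_lit 573481) (nat_lit 13) .nil))))) (.g (nat_lit 0) (.e (nat_lit 189896) (nat_lit 0) .nil) .nil))))) (.nd (nat_lit 8) (.nd (nat_lit 9) 
(.lf (nat_lit 508134) (.g (nat_lit 2624) (.e (nat_lit 172051) (nat_lit 0) (.e (nat_lit 3307) (nat_lit 202) (.e (nat_lit 573489) (nat_lit 14) (.e (nat_lit 73755) (nat_lit 8) (.e (nat_lit 557091) (nat_lit 12) .nil))))) (.g (nat_lit 0) (.e (nat_lit 188509) (nat_lit 0) .nil) .nil))) 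
(.lf (nat_lit 508646) (.g (nat_lit 1321) (.e (nat_lit 172067) (nat_lit 3) (.e (nat_lit 204868) (nat_lit 29) (.e (nat_lit 360473) (nat_lit 8) (.e (nat_lit 557088) (nat_lit 12) .nil)))) (.g (nat_lit 0) (.e (nat_lit 189651) (nat_lit 0) .nil) .nil)))) (.nd (nat_lit 9) 
(.lf (nat_lit 508390) (.g (nat_lit 2083) (.e (nat_lit 172065) (nat_lit 3) (.e (nat_lit 204838) (nat_lit 20) (.e (nat_lit 114718) (nat_lit 23) (.e (nat_lit 98333) (nat_lit 18) (.e (nat_lit 164399) (nat_lit 256) .nil))))) (.g (nat_lit 0) (.e (nat_lit 189032) (nat_lit 0) .nil) .nil))) 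
(.lf (nat_lit 508902) (.g (nat_lit 2822) (.e (nat_lit 172078) (nat_lit 7) (.e (nat_lit 409649) (nat_lit 18) (.e (nat_lit 303140) (nat_lit 10) (.e (nat_lit 434275) (nat_lit 39) (.e (nat_lit 663572) (nat_lit 9) (.e (nat_lit 2467) (nat_lit 157) (.e (nat_lit 3469) (nat_lit 217) (.e (nat_lit 696344) (nat_lit 8) .nil)))))))) (.g (nat_lit 1) (.e (nat_lit 190294) (nat_lit 0) .nil) .nil)))))))) 
(.nd (nat_lit 5) (.nd (nat_lit 6) (.nd (nat_lit 7) (.nd (nat_lit 8) (.nd (nat_lit 9) 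
(.lf (nat_lit 507926) (.g (nat_lit 2377) (.e (nat_lit 164402) (nat_lit 256) (.e (nat_lit 57424) (nat_lit 14) (.e (nat_lit 352312) (nat_lit 22) (.e (nat_lit 90156) (nat_lit 11) (.e (nat_lit 32512) (nat_lit 20) .nil))))) (.g (nat_lit 0) (.e (nat_lit 188176) (nat_lit 0) .nil) .nil))) 
(.lf (nat_lit 508438) (.g (nat_lit 3798) (.e (nat_lit 172065) (nat_lit 3) (.e (nat_lit 204868) (nat_lit 29) (.e (nat_lit 360475) (nat_lit 8) (.e (nat_lit 557089) (nat_lit 12) (.e (nat_lit 163844) (nat_lit 0) (.e (nat_lit 6254) (nat_lit 337) (.e (nat_lit 2630) (nat_lit 164) .nil))))))) (.g (nat_lit 1) (.e (nat_lit 189147) (nat_lit 0) .nil) .nil)))) (.nd (nat_lit 9) 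
(.lf (nat_lit 508182) (.g (nat_lit 5037) (.e (nat_lit 172062) (nat_lit 2) (.e (nat_lit 196666) (nat_lit 13) (.e (nat_lit 65610) (nat_lit 10) (.e (nat_lit 344129) (nat_lit 26) (.e (nat_lit 557090) (nat_lit 12) (.e (nat_lit 163844) (nat_lit 0) (.e (nat_lit 6255) (nat_lit 337) (.e (nat_lit 2630) (nat_lit 164) .nil)))))))) (.g (nat_lit 1) (.e (nat_lit 188674) (nat_lit 0) .nil) .nil))) 
(.lf (nat_lit 508694) (.g (nat_lit 1818) (.e (nat_lit 172067) (nat_lit 3) (.e (nat_lit 204869) (nat_lit 29) (.e (nat_lit 360475) (nat_lit 8) (.e (nat_lit 557065) (nat_lit 9) .nil)))) (.g (nat_lit 0) (.e (nat_lit 189755) (nat_lit 0) .nil) .nil))))) (.nd (nat_lit 8) (.nd (nat_lit 9) 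
(.lf (nat_lit 508054) (.g (nat_lit 3807) (.e (nat_lit 164403) (nat_lit 256) (.e (nat_lit 57378) (nat_lit 3) (.e (nat_lit 98368) (nat_lit 27) (.e (nat_lit 434248) (nat_lit 28) (.e (nat_lit 573489) (nat_lit 14) (.e (nat_lit 73755) (nat_lit 8) (.e (nat_lit 557074) (nat_lit 9) (.e (nat_lit 2607) (nat_lit 163) .nil)))))))) (.g (nat_lit 1) (.e (nat_lit 188330) (nat_lit 0) .nil) .nil))) 
(.lf (nat_lit 508566) (.g (nat_lit 683) (.e (nat_lit 172067) (nat_lit 3) (.e (nat_lit 204830) (nat_lit 18) (.e (nat_lit 57703) (nat_lit 164) .nil))) (.g (nat_lit 0) (.e (nat_lit 189416) (nat_lit 0) .nil) .nil)))) (.nd (nat_lit 9) 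
(.lf (nat_lit 508310) (.g (nat_lit 4953) (.e (nat_lit 172064) (nat_lit 2) (.e (nat_lit 196666) (nat_lit 13) (.e (nat_lit 65610) (nat_lit 10) (.e (nat_lit 344129) (nat_lit 26) (.e (nat_lit 557090) (nat_lit 12) (.e (nat_lit 163843) (nat_lit 0) (.e (nat_lit 6252) (nat_lit 337) (.e (nat_lit 2630) (nat_lit 164) .nil)))))))) (.g (nat_lit 1) (.e (nat_lit 188943) (nat_lit 0) .nil) .nil))) 
(.lf (nat_lit 508822) (.g (nat_lit 1396) (.e (nat_lit 172076) (nat_lit 6) (.e (nat_lit 253988) (nat_lit 11) (.e (nat_lit 16465) (nat_lit 13) (.e (nat_lit 483359) (nat_lit 17) .nil)))) (.g (nat_lit 0) (.e (nat_lit 190061) (nat_lit 0) .nil) .nil)))))) (.nd (nat_lit 7) (.nd (nat_lit 8) (.nd (nat_lit 9) 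
(.lf (nat_lit 507990) (.g (nat_lit 4757) (.e (nat_lit 164403) (nat_lit 256) (.e (nat_lit 57373) (nat_lit 2) (.e (nat_lit 90174) (nat_lit 14) (.e (nat_lit 180250) (nat_lit 10) (.e (nat_lit 573489) (nat_lit 14) (.e (nat_lit 73755) (nat_lit 8) (.e (nat_lit 557067) (nat_lit 9) (.e (nat_lit 2606) (nat_lit 163) .nil)))))))) (.g (nat_lit 1) (.e (nat_lit 188256) (nat_lit 0) .nil) .nil))) 
(.lf (nat_lit 508502) (.g (nat_lit 3035) (.e (nat_lit 172066) (nat_lit 3) (.e (nat_lit 204846) (nat_lit 24) (.e (nat_lit 319531) (nat_lit 16) (.e (nat_lit 286735) (nat_lit 3) (.e (nat_lit 98323) (nat_lit 17) (.e (nat_lit 7936) (nat_lit 392) .nil)))))) (.g (nat_lit 1) (.e (nat_lit 189278) (nat_lit 0) .nil) .nil)))) (.nd (nat_lit 9) 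
(.lf (nat_lit 508246) (.g (nat_lit 2429) (.e (nat_lit 172063) (nat_lit 2) (.e (nat_lit 196666) (nat_lit 13) (.e (nat_lit 65617) (nat_lit 10) (.e (nat_lit 344132) (nat_lit 26) (.e (nat_lit 557094) (nat_lit 12) .nil))))) (.g (nat_lit 0) (.e (nat_lit 188757) (nat_lit 0) .nil) .nil))) 
(.lf (nat_lit 508758) (.g (nat_lit 4272) (.e (nat_lit 172068) (nat_lit 4) (.e (nat_lit 229663) (nat_lit 240) (.e (nat_lit 2604) (nat_lit 163) (.e (nat_lit 163975) (nat_lit 30) (.e (nat_lit 573481) (nat_lit 13) (.e (nat_lit 65604) (nat_lit 9) (.e (nat_lit 336013) (nat_lit 2) (.e (nat_lit 90170) (nat_lit 13) .nil)))))))) (.g (nat_lit 1) (.e (nat_lit 189877) (nat_lit 0) .nil) .nil))))) 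
(.nd (nat_lit 8) (.nd (nat_lit 9) 
(.lf (nat_lit 508118) (.g (nat_lit 3748) (.e (nat_lit 172043) (nat_lit 0) (.e (nat_lit 3258) (nat_lit 198) (.e (nat_lit 540706) (nat_lit 12) (.e (nat_lit 360475) (nat_lit 8) (.e (nat_lit 557090) (nat_lit 12) (.e (nat_lit 164020) (nat_lit 45) (.e (nat_lit 696344) (nat_lit 8) .nil))))))) (.g (nat_lit 1) (.e (nat_lit 188446) (nat_lit 0) .nil) .nil))) 
(.lf (nat_lit 508630) (.g (nat_lit 638) (.e (nat_lit 172067) (nat_lit 3) (.e (nat_lit 204855) (nat_lit 26) (.e (nat_lit 336173) (nat_lit 10) .nil))) (.g (nat_lit 0) (.e (nat_lit 189543) (nat_lit 0) .nil) .nil)))) (.nd (nat_lit 9) 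
(.lf (nat_lit 508374) (.g (nat_lit 4701) (.e (nat_lit 172064) (nat_lit 2) (.e (nat_lit 196666) (nat_lit 13) (.e (nat_lit 65617) (nat_lit 10) (.e (nat_lit 344133) (nat_lit 26) (.e (nat_lit 557091) (nat_lit 12) (.e (nat_lit 163849) (nat_lit 0) (.e (nat_lit 6255) (nat_lit 337) (.e (nat_lit 2630) (nat_lit 164) .nil)))))))) (.g (nat_lit 1) (.e (nat_lit 189008) (nat_lit 0) .nil) .nil))) 
(.lf (nat_lit 508886) (.g (nat_lit 2235) (.e (nat_lit 172078) (nat_lit 7) (.e (nat_lit 409645) (nat_lit 18) (.e (nat_lit 303143) (nat_lit 12) (.e (nat_lit 475220) (nat_lit 44) (.e (nat_lit 737306) (nat_lit 11) .nil))))) (.g (nat_lit 0) (.e (nat_lit 190265) (nat_lit 0) .nil) .nil))))))) (.nd (nat_lit 6) (.nd (nat_lit 7) (.nd (nat_lit 8) (.nd (nat_lit 9) 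
(.lf (nat_lit 507958) (.g (nat_lit 2297) (.e (nat_lit 164403) (nat_lit 256) (.e (nat_lit 57371) (nat_lit 2) (.e (nat_lit 90174) (nat_lit 14) (.e (nat_lit 180243) (nat_lit 5) (.e (nat_lit 532515) (nat_lit 3) (.e (nat_lit 114716) (nat_lit 22) (.e (nat_lit 90133) (nat_lit 9) (.e (nat_lit 2613) (nat_lit 163) .nil)))))))) (.g (nat_lit 1) (.e (nat_lit 188219) (nat_lit 0) .nil) .nil))) 
(.lf (nat_lit 508470) (.g (nat_lit 1578) (.e (nat_lit 172065) (nat_lit 3) (.e (nat_lit 204869) (nat_lit 29) (.e (nat_lit 360475) (nat_lit 8) (.e (nat_lit 557091) (nat_lit 12) .nil)))) (.g (nat_lit 0) (.e (nat_lit 189186) (nat_lit 0) .nil) .nil)))) (.nd (nat_lit 9) 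
(.lf (nat_lit 508214) (.g (nat_lit 2129) (.e (nat_lit 172062) (nat_lit 2) (.e (nat_lit 196666) (nat_lit 13) (.e (nat_lit 65617) (nat_lit 10) (.e (nat_lit 344132) (nat_lit 26) (.e (nat_lit 557094) (nat_lit 12) .nil))))) (.g (nat_lit 0) (.e (nat_lit 188709) (nat_lit 0) .nil) .nil))) 
(.lf (nat_lit 508726) (.g (nat_lit 3173) (.e (nat_lit 172067) (nat_lit 3) (.e (nat_lit 204869) (nat_lit 29) (.e (nat_lit 360475) (nat_lit 8) (.e (nat_lit 557091) (nat_lit 12) (.e (nat_lit 163843) (nat_lit 0) (.e (nat_lit 6252) (nat_lit 337) (.e (nat_lit 2620) (nat_lit 164) .nil))))))) (.g (nat_lit 1) (.e (nat_lit 189806) (nat_lit 0) .nil) .nil))))) (.nd (nat_lit 8) (.nd (nat_lit 9) 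
(.lf (nat_lit 508086) (.g (nat_lit 2249) (.e (nat_lit 172032) (nat_lit 0) (.e (nat_lit 6989) (nat_lit 377) (.e (nat_lit 2777) (nat_lit 178) (.e (nat_lit 286771) (nat_lit 29) .nil)))) (.g (nat_lit 0) (.e (nat_lit 188376) (nat_lit 0) .nil) .nil))) 
(.lf (nat_lit 508598) (.g (nat_lit 3708) (.e (nat_lit 172067) (nat_lit 3) (.e (nat_lit 204846) (nat_lit 24) (.e (nat_lit 319530) (nat_lit 16) (.e (nat_lit 286735) (nat_lit 3) (.e (nat_lit 98325) (nat_lit 17) (.e (nat_lit 7936) (nat_lit 392) .nil)))))) (.g (nat_lit 1) (.e (nat_lit 189463) (nat_lit 0) .nil) .nil)))) (.nd (nat_lit 9) 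
(.lf (nat_lit 508342) (.g (nat_lit 4444) (.e (nat_lit 172064) (nat_lit 2) (.e (nat_lit 196666) (nat_lit 13) (.e (nat_lit 65617) (nat_lit 10) (.e (nat_lit 344130) (nat_lit 26) (.e (nat_lit 557090) (nat_lit 12) (.e (nat_lit 163843) (nat_lit 0) (.e (nat_lit 6252) (nat_lit 337) (.e (nat_lit 2630) (nat_lit 164) .nil)))))))) (.g (nat_lit 1) (.e (nat_lit 188976) (nat_lit 0) .nil) .nil))) 
(.lf (nat_lit 508854) (.g (nat_lit 1488) (.e (nat_lit 172076) (nat_lit 6) (.e (nat_lit 253992) (nat_lit 11) (.e (nat_lit 16463) (nat_lit 13) (.e (nat_lit 483353) (nat_lit 17) .nil)))) (.g (nat_lit 0) (.e (nat_lit 190134) (nat_lit 0) .nil) .nil)))))) (.nd (nat_lit 7) (.nd (nat_lit 8) (.nd (nat_lit 9) 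
(.lf (nat_lit 508022) (.g (nat_lit 3346) (.e (nat_lit 164403) (nat_lit 256) (.e (nat_lit 57378) (nat_lit 3) (.e (nat_lit 98358) (nat_lit 26) (.e (nat_lit 426131) (nat_lit 3) (.e (nat_lit 204838) (nat_lit 20) (.e (nat_lit 114716) (nat_lit 22) (.e (nat_lit 90140) (nat_lit 9) (.e (nat_lit 2611) (nat_lit 163) .nil)))))))) (.g (nat_lit 1) (.e (nat_lit 188297) (nat_lit 0) .nil) .nil))) 
(.lf (nat_lit 508534) (.g (nat_lit 3412) (.e (nat_lit 172066) (nat_lit 3) (.e (nat_lit 204869) (nat_lit 29) (.e (nat_lit 360475) (nat_lit 8) (.e (nat_lit 557089) (nat_lit 12) (.e (nat_lit 163849) (nat_lit 0) (.e (nat_lit 6254) (nat_lit 337) (.e (nat_lit 2622) (nat_lit 164) .nil))))))) (.g (nat_lit 1) (.e (nat_lit 189341) (nat_lit 0) .nil) .nil)))) (.nd (nat_lit 9) 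
(.lf (nat_lit 508278) (.g (nat_lit 2986) (.e (nat_lit 172064) (nat_lit 2) (.e (nat_lit 196666) (nat_lit 13) (.e (nat_lit 65610) (nat_lit 10) (.e (nat_lit 344117) (nat_lit 21) (.e (nat_lit 516099) (nat_lit 0) (.e (nat_lit 7936) (nat_lit 205) (.e (nat_lit 598060) (nat_lit 16) .nil))))))) (.g (nat_lit 1) (.e (nat_lit 188825) (nat_lit 0) .nil) .nil))) 
(.lf (nat_lit 508790) (.g (nat_lit 545) (.e (nat_lit 172074) (nat_lit 6) (.e (nat_lit 253991) (nat_lit 11) (.e (nat_lit 16432) (nat_lit 9) .nil))) (.g (nat_lit 0) (.e (nat_lit 189975) (nat_lit 0) .nil) .nil))))) (.nd (nat_lit 8) (.nd (nat_lit 9) 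
(.lf (nat_lit 508150) (.g (nat_lit 1717) (.e (nat_lit 172059) (nat_lit 1) (.e (nat_lit 164403) (nat_lit 256) (.e (nat_lit 57445) (nat_lit 19) (.e (nat_lit 393232) (nat_lit 17) .nil)))) (.g (nat_lit 0) (.e (nat_lit 188541) (nat_lit 0) .nil) .nil))) 
(.lf (nat_lit 508662) (.g (nat_lit 3376) (.e (nat_lit 172067) (nat_lit 3) (.e (nat_lit 204868) (nat_lit 29) (.e (nat_lit 360475) (nat_lit 8) (.e (nat_lit 557091) (nat_lit 12) (.e (nat_lit 163840) (nat_lit 0) .nil))))) (.g (nat_lit 0) (.e (nat_lit 189698) (nat_lit 0) .nil) .nil)))) (.nd (nat_lit 9) 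
(.lf (nat_lit 508406) (.g (nat_lit 2308) (.e (nat_lit 172065) (nat_lit 3) (.e (nat_lit 204846) (nat_lit 24) (.e (nat_lit 319531) (nat_lit 16) (.e (nat_lit 286735) (nat_lit 3) (.e (nat_lit 98323) (nat_lit 17) (.e (nat_lit 7936) (nat_lit 392) .nil)))))) (.g (nat_lit 1) (.e (nat_lit 189049) (nat_lit 0) .nil) .nil))) 
(.lf (nat_lit 508918) (.g (nat_lit 3899) (.e (nat_lit 172079) (nat_lit 7) (.e (nat_lit 409631) (nat_lit 12) (.e (nat_lit 32807) (nat_lit 18) (.e (nat_lit 172124) (nat_lit 14) (.e (nat_lit 491537) (nat_lit 2) (.e (nat_lit 90170) (nat_lit 13) .nil)))))) (.g (nat_lit 1) (.e (nat_lit 190334) (nat_lit 0) .nil) .nil))))))))) 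
(.nd (nat_lit 4) (.nd (nat_lit 5) (.nd (nat_lit 6) (.nd (nat_lit 7) (.nd (nat_lit 8) 
(.nd (nat_lit 9) 
(.lf (nat_lit 507918) (.g (nat_lit 2230) (.e (nat_lit 164402) (nat_lit 256) (.e (nat_lit 57406) (nat_lit 12) (.e (nat_lit 336432) (nat_lit 30) (.e (nat_lit 450580) (nat_lit 5) (.e (nat_lit 532583) (nat_lit 26) .nil))))) (.g (nat_lit 0) (.e (nat_lit 188168) (nat_lit 0) .nil) .nil))) 
(.lf (nat_lit 508430) (.g (nat_lit 3837) (.e (nat_lit 172065) (nat_lit 3) (.e (nat_lit 204868) (nat_lit 29) (.e (nat_lit 360473) (nat_lit 8) (.e (nat_lit 557089) (nat_lit 12) (.e (nat_lit 163849) (nat_lit 0) (.e (nat_lit 6255) (nat_lit 337) (.e (nat_lit 2630) (nat_lit 164) .nil))))))) (.g (nat_lit 1) (.e (nat_lit 189133) (nat_lit 0) .nil) .nil)))) (.nd (nat_lit 9) 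
(.lf (nat_lit 508174) (.g (nat_lit 3583) (.e (nat_lit 172062) (nat_lit 2) (.e (nat_lit 196666) (nat_lit 13) (.e (nat_lit 65610) (nat_lit 10) (.e (nat_lit 344129) (nat_lit 26) (.e (nat_lit 557089) (nat_lit 12) (.e (nat_lit 164019) (nat_lit 45) (.e (nat_lit 696344) (nat_lit 8) .nil))))))) (.g (nat_lit 1) (.e (nat_lit 188666) (nat_lit 0) .nil) .nil))) 
(.lf (nat_lit 508686) (.g (nat_lit 2709) (.e (nat_lit 172067) (nat_lit 3) (.e (nat_lit 204869) (nat_lit 29) (.e (nat_lit 360474) (nat_lit 8) (.e (nat_lit 557093) (nat_lit 12) (.e (nat_lit 163848) (nat_lit 0) (.e (nat_lit 6252) (nat_lit 337) (.e (nat_lit 2620) (nat_lit 164) .nil))))))) (.g (nat_lit 1) (.e (nat_lit 189743) (nat_lit 0) .nil) .nil))))) (.nd (nat_lit 8) (.nd (nat_lit 9) 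
(.lf (nat_lit 508046) (.g (nat_lit 4329) (.e (nat_lit 164403) (nat_lit 256) (.e (nat_lit 57378) (nat_lit 3) (.e (nat_lit 98368) (nat_lit 27) (.e (nat_lit 434245) (nat_lit 28) (.e (nat_lit 573488) (nat_lit 14) (.e (nat_lit 73755) (nat_lit 8) (.e (nat_lit 557067) (nat_lit 9) (.e (nat_lit 2606) (nat_lit 163) .nil)))))))) (.g (nat_lit 1) (.e (nat_lit 188322) (nat_lit 0) .nil) .nil))) 
(.lf (nat_lit 508558) (.g (nat_lit 3403) (.e (nat_lit 172066) (nat_lit 3) (.e (nat_lit 204869) (nat_lit 29) (.e (nat_lit 360475) (nat_lit 8) (.e (nat_lit 557091) (nat_lit 12) (.e (nat_lit 164020) (nat_lit 45) (.e (nat_lit 696343) (nat_lit 8) .nil)))))) (.g (nat_lit 1) (.e (nat_lit 189384) (nat_lit 0) .nil) .nil)))) (.nd (nat_lit 9) 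
(.lf (nat_lit 508302) (.g (nat_lit 2553) (.e (nat_lit 172064) (nat_lit 2) (.e (nat_lit 196666) (nat_lit 13) (.e (nat_lit 65610) (nat_lit 10) (.e (nat_lit 344129) (nat_lit 26) (.e (nat_lit 557089) (nat_lit 12) (.e (nat_lit 163850) (nat_lit 0) (.e (nat_lit 6273) (nat_lit 337) (.e (nat_lit 2632) (nat_lit 164) .nil)))))))) (.g (nat_lit 1) (.e (nat_lit 188934) (nat_lit 0) .nil) .nil))) 
(.lf (nat_lit 508814) (.g (nat_lit 1619) (.e (nat_lit 172075) (nat_lit 6) (.e (nat_lit 253991) (nat_lit 11) (.e (nat_lit 16466) (nat_lit 13) (.e (nat_lit 483346) (nat_lit 17) .nil)))) (.g (nat_lit 0) (.e (nat_lit 190017) (nat_lit 0) .nil) .nil)))))) (.nd (nat_lit 7) (.nd (nat_lit 8) (.nd (nat_lit 9) 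
(.lf (nat_lit 507982) (.g (nat_lit 3468) (.e (nat_lit 164403) (nat_lit 256) (.e (nat_lit 57373) (nat_lit 2) (.e (nat_lit 90174) (nat_lit 14) (.e (nat_lit 180243) (nat_lit 5) (.e (nat_lit 532513) (nat_lit 3) (.e (nat_lit 114714) (nat_lit 22) (.e (nat_lit 90140) (nat_lit 9) (.e (nat_lit 2611) (nat_lit 163) .nil)))))))) (.g (nat_lit 1) (.e (nat_lit 188248) (nat_lit 0) .nil) .nil))) 
(.lf (nat_lit 508494) (.g (nat_lit 2348) (.e (nat_lit 172066) (nat_lit 3) (.e (nat_lit 204846) (nat_lit 24) (.e (nat_lit 319528) (nat_lit 16) (.e (nat_lit 286735) (nat_lit 3) (.e (nat_lit 98325) (nat_lit 17) (.e (nat_lit 7936) (nat_lit 392) .nil)))))) (.g (nat_lit 1) (.e (nat_lit 189270) (nat_lit 0) .nil) .nil)))) (.nd (nat_lit 9) 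
(.lf (nat_lit 508238) (.g (nat_lit 2344) (.e (nat_lit 172063) (nat_lit 2) (.e (nat_lit 196666) (nat_lit 13) (.e (nat_lit 65617) (nat_lit 10) (.e (nat_lit 344130) (nat_lit 26) (.e (nat_lit 557089) (nat_lit 12) .nil))))) (.g (nat_lit 0) (.e (nat_lit 188749) (nat_lit 0) .nil) .nil))) 
(.lf (nat_lit 508750) (.g (nat_lit 2607) (.e (nat_lit 172067) (nat_lit 3) (.e (nat_lit 204885) (nat_lit 33) (.e (nat_lit 401448) (nat_lit 10) (.e (nat_lit 434230) (nat_lit 23) (.e (nat_lit 532490) (nat_lit 0) (.e (nat_lit 7936) (nat_lit 361) .nil)))))) (.g (nat_lit 1) (.e (nat_lit 189867) (nat_lit 0) .nil) .nil))))) (.nd (nat_lit 8) (.nd (nat_lit 9) 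
(.lf (nat_lit 508110) (.g (nat_lit 4087) (.e (nat_lit 172039) (nat_lit 0) (.e (nat_lit 3402) (nat_lit 211) (.e (nat_lit 647181) (nat_lit 3) (.e (nat_lit 163977) (nat_lit 30) (.e (nat_lit 573493) (nat_lit 15) (.e (nat_lit 81953) (nat_lit 22) (.e (nat_lit 90170) (nat_lit 13) .nil))))))) (.g (nat_lit 1) (.e (nat_lit 188411) (nat_lit 0) .nil) .nil))) 
(.lf (nat_lit 508622) (.g (nat_lit 2548) (.e (nat_lit 172067) (nat_lit 3) (.e (nat_lit 204846) (nat_lit 24) (.e (nat_lit 327424) (nat_lit 16) (.e (nat_lit 286735) (nat_lit 3) (.e (nat_lit 98325) (nat_lit 17) (.e (nat_lit 7936) (nat_lit 392) .nil)))))) (.g (nat_lit 1) (.e (nat_lit 189512) (nat_lit 0) .nil) .nil)))) (.nd (nat_lit 9) 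
(.lf (nat_lit 508366) (.g (nat_lit 3426) (.e (nat_lit 172064) (nat_lit 2) (.e (nat_lit 196666) (nat_lit 13) (.e (nat_lit 65617) (nat_lit 10) (.e (nat_lit 344133) (nat_lit 26) (.e (nat_lit 557091) (nat_lit 12) (.e (nat_lit 163840) (nat_lit 0) (.e (nat_lit 6252) (nat_lit 337) (.e (nat_lit 2630) (nat_lit 164) .nil)))))))) (.g (nat_lit 1) (.e (nat_lit 189000) (nat_lit 0) .nil) .nil))) 
(.lf (nat_lit 508878) (.g (nat_lit 3119) (.e (nat_lit 172078) (nat_lit 7) (.e (nat_lit 409645) (nat_lit 18) (.e (nat_lit 303143) (nat_lit 12) (.e (nat_lit 475199) (nat_lit 40) (.e (nat_lit 704855) (nat_lit 17) .nil))))) (.g (nat_lit 0) (.e (nat_lit 190253) (nat_lit 0) .nil) .nil))))))) (.nd (nat_lit 6) (.nd (nat_lit 7) (.nd (nat_lit 8) (.nd (nat_lit 9) 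
(.lf (nat_lit 507950) (.g (nat_lit 2039) (.e (nat_lit 164403) (nat_lit 256) (.e (nat_lit 57371) (nat_lit 2) (.e (nat_lit 90170) (nat_lit 13) (.e (nat_lit 172123) (nat_lit 13) .nil)))) (.g (nat_lit 0) (.e (nat_lit 188211) (nat_lit 0) .nil) .nil))) 
(.lf (nat_lit 508462) (.g (nat_lit 3537) (.e (nat_lit 172065) (nat_lit 3) (.e (nat_lit 204869) (nat_lit 29) (.e (nat_lit 360475) (nat_lit 8) (.e (nat_lit 557068) (nat_lit 9) (.e (nat_lit 2430) (nat_lit 157) .nil))))) (.g (nat_lit 0) (.e (nat_lit 189178) (nat_lit 0) .nil) .nil)))) (.nd (nat_lit 9) 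
(.lf (nat_lit 508206) (.g (nat_lit 3590) (.e (nat_lit 172062) (nat_lit 2) (.e (nat_lit 196666) (nat_lit 13) (.e (nat_lit 65617) (nat_lit 10) (.e (nat_lit 344130) (nat_lit 26) (.e (nat_lit 557090) (nat_lit 12) (.e (nat_lit 163849) (nat_lit 0) (.e (nat_lit 6254) (nat_lit 337) (.e (nat_lit 2630) (nat_lit 164) .nil)))))))) (.g (nat_lit 1) (.e (nat_lit 188701) (nat_lit 0) .nil) .nil))) 
(.lf (nat_lit 508718) (.g (nat_lit 2953) (.e (nat_lit 172067) (nat_lit 3) (.e (nat_lit 204869) (nat_lit 29) (.e (nat_lit 360475) (nat_lit 8) (.e (nat_lit 557089) (nat_lit 12) (.e (nat_lit 164020) (nat_lit 45) (.e (nat_lit 696342) (nat_lit 8) .nil)))))) (.g (nat_lit 1) (.e (nat_lit 189793) (nat_lit 0) .nil) .nil))))) (.nd (nat_lit 8) (.nd (nat_lit 9) 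
(.lf (nat_lit 508078) (.g (nat_lit 2624) (.e (nat_lit 164403) (nat_lit 256) (.e (nat_lit 57409) (nat_lit 12) (.e (nat_lit 336433) (nat_lit 30) (.e (nat_lit 450588) (nat_lit 10) (.e (nat_lit 573503) (nat_lit 18) (.e (nat_lit 1380) (nat_lit 105) (.e (nat_lit 311309) (nat_lit 1) .nil))))))) (.g (nat_lit 1) (.e (nat_lit 188355) (nat_lit 0) .nil) .nil))) 
(.lf (nat_lit 508590) (.g (nat_lit 3436) (.e (nat_lit 172067) (nat_lit 3) (.e (nat_lit 204846) (nat_lit 24) (.e (nat_lit 319528) (nat_lit 16) (.e (nat_lit 286735) (nat_lit 3) (.e (nat_lit 98323) (nat_lit 17) (.e (nat_lit 7936) (nat_lit 392) .nil)))))) (.g (nat_lit 1) (.e (nat_lit 189453) (nat_lit 0) .nil) .nil)))) (.nd (nat_lit 9) 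
(.lf (nat_lit 508334) (.g (nat_lit 3282) (.e (nat_lit 172064) (nat_lit 2) (.e (nat_lit 196666) (nat_lit 13) (.e (nat_lit 65617) (nat_lit 10) (.e (nat_lit 344127) (nat_lit 26) (.e (nat_lit 557090) (nat_lit 12) (.e (nat_lit 163847) (nat_lit 0) (.e (nat_lit 6255) (nat_lit 337) (.e (nat_lit 2630) (nat_lit 164) .nil)))))))) (.g (nat_lit 1) (.e (nat_lit 188968) (nat_lit 0) .nil) .nil))) 
(.lf (nat_lit 508846) (.g (nat_lit 2171) (.e (nat_lit 172076) (nat_lit 6) (.e (nat_lit 253992) (nat_lit 11) (.e (nat_lit 16436) (nat_lit 9) (.e (nat_lit 426550) (nat_lit 31) (.e (nat_lit 376576) (nat_lit 4) .nil))))) (.g (nat_lit 1) (.e (nat_lit 190117) (nat_lit 0) .nil) .nil)))))) (.nd (nat_lit 7) (.nd (nat_lit 8) (.nd (nat_lit 9) 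
(.lf (nat_lit 508014) (.g (nat_lit 887) (.e (nat_lit 164403) (nat_lit 256) (.e (nat_lit 57377) (nat_lit 3) (.e (nat_lit 98371) (nat_lit 28) .nil))) (.g (nat_lit 0) (.e (nat_lit 188286) (nat_lit 0) .nil) .nil))) 
(.lf (nat_lit 508526) (.g (nat_lit 1265) (.e (nat_lit 172066) (nat_lit 3) (.e (nat_lit 204869) (nat_lit 29) (.e (nat_lit 360474) (nat_lit 8) (.e (nat_lit 557093) (nat_lit 12) .nil)))) (.g (nat_lit 0) (.e (nat_lit 189327) (nat_lit 0) .nil) .nil)))) (.nd (nat_lit 9) 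
(.lf (nat_lit 508270) (.g (nat_lit 2453) (.e (nat_lit 172064) (nat_lit 2) (.e (nat_lit 196666) (nat_lit 13) (.e (nat_lit 65610) (nat_lit 10) (.e (nat_lit 344117) (nat_lit 21) (.e (nat_lit 516098) (nat_lit 0) (.e (nat_lit 3334) (nat_lit 205) (.e (nat_lit 598061) (nat_lit 16) .nil))))))) (.g (nat_lit 1) (.e (nat_lit 188814) (nat_lit 0) .nil) .nil))) 
(.lf (nat_lit 508782) (.g (nat_lit 1017) (.e (nat_lit 172074) (nat_lit 6) (.e (nat_lit 253988) (nat_lit 11) (.e (nat_lit 16436) (nat_lit 9) (.e (nat_lit 426550) (nat_lit 31) (.e (nat_lit 376576) (nat_lit 4) .nil))))) (.g (nat_lit 1) (.e (nat_lit 189957) (nat_lit 0) .nil) .nil))))) (.nd (nat_lit 8) (.nd (nat_lit 9) 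
(.lf (nat_lit 508142) (.g (nat_lit 488) (.e (nat_lit 172059) (nat_lit 1) (.e (nat_lit 164398) (nat_lit 256) (.e (nat_lit 57447) (nat_lit 19) .nil))) (.g (nat_lit 0) (.e (nat_lit 188533) (nat_lit 0) .nil) .nil))) 
(.lf (nat_lit 508654) (.g (nat_lit 1538) (.e (nat_lit 172067) (nat_lit 3) (.e (nat_lit 204868) (nat_lit 29) (.e (nat_lit 360474) (nat_lit 8) (.e (nat_lit 557091) (nat_lit 12) .nil)))) (.g (nat_lit 0) (.e (nat_lit 189680) (nat_lit 0) .nil) .nil)))) (.nd (nat_lit 9) 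
(.lf (nat_lit 508398) (.g (nat_lit 1702) (.e (nat_lit 172065) (nat_lit 3) (.e (nat_lit 204845) (nat_lit 24) (.e (nat_lit 319531) (nat_lit 16) (.e (nat_lit 286733) (nat_lit 2) .nil)))) (.g (nat_lit 0) (.e (nat_lit 189041) (nat_lit 0) .nil) .nil))) 
(.lf (nat_lit 508910) (.g (nat_lit 3417) (.e (nat_lit 172079) (nat_lit 7) (.e (nat_lit 409611) (nat_lit 10) (.e (nat_lit 632) (nat_lit 50) (.e (nat_lit 573485) (nat_lit 13) (.e (nat_lit 65619) (nat_lit 10) (.e (nat_lit 344183) (nat_lit 49) (.e (nat_lit 819219) (nat_lit 4) .nil))))))) (.g (nat_lit 1) (.e (nat_lit 190307) (nat_lit 0) .nil) .nil)))))))) 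
(.nd (nat_lit 5) (.nd (nat_lit 6) (.nd (nat_lit 7) (.nd (nat_lit 8) (.nd (nat_lit 9) 
(.lf (nat_lit 507934) (.g (nat_lit 1496) (.e (nat_lit 164402) (nat_lit 256) (.e (nat_lit 57427) (nat_lit 15) (.e (nat_lit 360474) (nat_lit 8) (.e (nat_lit 557070) (nat_lit 9) .nil)))) (.g (nat_lit 0) (.e (nat_lit 188184) (nat_lit 0) .nil) .nil))) 
(.lf (nat_lit 508446) (.g (nat_lit 3803) (.e (nat_lit 172065) (nat_lit 3) (.e (nat_lit 204868) (nat_lit 29) (.e (nat_lit 360475) (nat_lit 8) (.e (nat_lit 557091) (nat_lit 12) (.e (nat_lit 163844) (nat_lit 0) (.e (nat_lit 6254) (nat_lit 337) (.e (nat_lit 2630) (nat_lit 164) .nil))))))) (.g (nat_lit 1) (.e (nat_lit 189159) (nat_lit 0) .nil) .nil)))) (.nd (nat_lit 9) 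
(.lf (nat_lit 508190) (.g (nat_lit 3099) (.e (nat_lit 172062) (nat_lit 2) (.e (nat_lit 196666) (nat_lit 13) (.e (nat_lit 65610) (nat_lit 10) (.e (nat_lit 344129) (nat_lit 26) (.e (nat_lit 557090) (nat_lit 12) (.e (nat_lit 163852) (nat_lit 0) (.e (nat_lit 6273) (nat_lit 337) (.e (nat_lit 2632) (nat_lit 164) .nil)))))))) (.g (nat_lit 1) (.e (nat_lit 188682) (nat_lit 0) .nil) .nil))) 
(.lf (nat_lit 508702) (.g (nat_lit 3070) (.e (nat_lit 172067) (nat_lit 3) (.e (nat_lit 204869) (nat_lit 29) (.e (nat_lit 360475) (nat_lit 8) (.e (nat_lit 557089) (nat_lit 12) (.e (nat_lit 163844) (nat_lit 0) (.e (nat_lit 6250) (nat_lit 337) (.e (nat_lit 2620) (nat_lit 164) .nil))))))) (.g (nat_lit 1) (.e (nat_lit 189773) (nat_lit 0) .nil) .nil))))) (.nd (nat_lit 8) (.nd (nat_lit 9) 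
(.lf (nat_lit 508062) (.g (nat_lit 1406) (.e (nat_lit 164403) (nat_lit 256) (.e (nat_lit 57400) (nat_lit 10) (.e (nat_lit 319533) (nat_lit 16) (.e (nat_lit 286745) (nat_lit 9) .nil)))) (.g (nat_lit 0) (.e (nat_lit 188338) (nat_lit 0) .nil) .nil))) 
(.lf (nat_lit 508574) (.g (nat_lit 2010) (.e (nat_lit 172067) (nat_lit 3) (.e (nat_lit 204838) (nat_lit 20) (.e (nat_lit 114719) (nat_lit 23) (.e (nat_lit 98335) (nat_lit 18) (.e (nat_lit 164403) (nat_lit 256) .nil))))) (.g (nat_lit 0) (.e (nat_lit 189428) (nat_lit 0) .nil) .nil)))) (.nd (nat_lit 9) 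
(.lf (nat_lit 508318) (.g (nat_lit 3656) (.e (nat_lit 172064) (nat_lit 2) (.e (nat_lit 196666) (nat_lit 13) (.e (nat_lit 65610) (nat_lit 10) (.e (nat_lit 344129) (nat_lit 26) (.e (nat_lit 557090) (nat_lit 12) (.e (nat_lit 163849) (nat_lit 0) (.e (nat_lit 6252) (nat_lit 337) (.e (nat_lit 2630) (nat_lit 164) .nil)))))))) (.g (nat_lit 1) (.e (nat_lit 188951) (nat_lit 0) .nil) .nil))) 
(.lf (nat_lit 508830) (.g (nat_lit 638) (.e (nat_lit 172076) (nat_lit 6) (.e (nat_lit 253991) (nat_lit 11) (.e (nat_lit 16434) (nat_lit 9) .nil))) (.g (nat_lit 0) (.e (nat_lit 190085) (nat_lit 0) .nil) .nil)))))) (.nd (nat_lit 7) (.nd (nat_lit 8) (.nd (nat_lit 9) 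
(.lf (nat_lit 507998) (.g (nat_lit 3554) (.e (nat_lit 164403) (nat_lit 256) (.e (nat_lit 57373) (nat_lit 2) (.e (nat_lit 90174) (nat_lit 14) (.e (nat_lit 180252) (nat_lit 10) (.e (nat_lit 573489) (nat_lit 14) (.e (nat_lit 73755) (nat_lit 8) (.e (nat_lit 557067) (nat_lit 9) (.e (nat_lit 2598) (nat_lit 163) .nil)))))))) (.g (nat_lit 1) (.e (nat_lit 188264) (nat_lit 0) .nil) .nil))) 
(.lf (nat_lit 508510) (.g (nat_lit 2551) (.e (nat_lit 172066) (nat_lit 3) (.e (nat_lit 204846) (nat_lit 24) (.e (nat_lit 319534) (nat_lit 16) (.e (nat_lit 286735) (nat_lit 3) (.e (nat_lit 98321) (nat_lit 17) .nil))))) (.g (nat_lit 0) (.e (nat_lit 189289) (nat_lit 0) .nil) .nil)))) (.nd (nat_lit 9) 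
(.lf (nat_lit 508254) (.g (nat_lit 1713) (.e (nat_lit 172064) (nat_lit 2) (.e (nat_lit 196666) (nat_lit 13) (.e (nat_lit 65610) (nat_lit 10) (.e (nat_lit 344117) (nat_lit 21) (.e (nat_lit 516096) (nat_lit 0) (.e (nat_lit 3338) (nat_lit 205) (.e (nat_lit 598061) (nat_lit 16) .nil))))))) (.g (nat_lit 1) (.e (nat_lit 188798) (nat_lit 0) .nil) .nil))) 
(.lf (nat_lit 508766) (.g (nat_lit 5109) (.e (nat_lit 172068) (nat_lit 4) (.e (nat_lit 229666) (nat_lit 240) (.e (nat_lit 2612) (nat_lit 163) (.e (nat_lit 163978) (nat_lit 30) (.e (nat_lit 573485) (nat_lit 13) (.e (nat_lit 65604) (nat_lit 9) (.e (nat_lit 336013) (nat_lit 2) (.e (nat_lit 90170) (nat_lit 13) .nil)))))))) (.g (nat_lit 1) (.e (nat_lit 189888) (nat_lit 0) .nil) .nil))))) 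
(.nd (nat_lit 8) (.nd (nat_lit 9) 
(.lf (nat_lit 508126) (.g (nat_lit 2125) (.e (nat_lit 172046) (nat_lit 0) (.e (nat_lit 3238) (nat_lit 197) (.e (nat_lit 532550) (nat_lit 12) (.e (nat_lit 360475) (nat_lit 8) (.e (nat_lit 557091) (nat_lit 12) .nil))))) (.g (nat_lit 0) (.e (nat_lit 188471) (nat_lit 0) .nil) .nil))) 
(.lf (nat_lit 508638) (.g (nat_lit 2624) (.e (nat_lit 172067) (nat_lit 3) (.e (nat_lit 204855) (nat_lit 26) (.e (nat_lit 336176) (nat_lit 10) (.e (nat_lit 344130) (nat_lit 26) (.e (nat_lit 557090) (nat_lit 12) (.e (nat_lit 164020) (nat_lit 45) (.e (nat_lit 696342) (nat_lit 8) .nil))))))) (.g (nat_lit 1) (.e (nat_lit 189564) (nat_lit 0) .nil) .nil)))) (.nd (nat_lit 9) 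
(.lf (nat_lit 508382) (.g (nat_lit 2627) (.e (nat_lit 172065) (nat_lit 3) (.e (nat_lit 204829) (nat_lit 18) (.e (nat_lit 57688) (nat_lit 156) (.e (nat_lit 163850) (nat_lit 0) (.e (nat_lit 3252) (nat_lit 197) .nil))))) (.g (nat_lit 0) (.e (nat_lit 189022) (nat_lit 0) .nil) .nil))) 
(.lf (nat_lit 508894) (.g (nat_lit 3654) (.e (nat_lit 172078) (nat_lit 7) (.e (nat_lit 409646) (nat_lit 18) (.e (nat_lit 303143) (nat_lit 12) (.e (nat_lit 475199) (nat_lit 40) (.e (nat_lit 704855) (nat_lit 17) .nil))))) (.g (nat_lit 0) (.e (nat_lit 190278) (nat_lit 0) .nil) .nil))))))) (.nd (nat_lit 6) (.nd (nat_lit 7) (.nd (nat_lit 8) (.nd (nat_lit 9) 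
(.lf (nat_lit 507966) (.g (nat_lit 2999) (.e (nat_lit 164403) (nat_lit 256) (.e (nat_lit 57371) (nat_lit 2) (.e (nat_lit 90174) (nat_lit 14) (.e (nat_lit 180250) (nat_lit 10) (.e (nat_lit 573489) (nat_lit 14) (.e (nat_lit 73755) (nat_lit 8) (.e (nat_lit 557074) (nat_lit 9) (.e (nat_lit 2607) (nat_lit 163) .nil)))))))) (.g (nat_lit 1) (.e (nat_lit 188227) (nat_lit 0) .nil) .nil))) 
(.lf (nat_lit 508478) (.g (nat_lit 2596) (.e (nat_lit 172065) (nat_lit 3) (.e (nat_lit 204885) (nat_lit 33) (.e (nat_lit 401448) (nat_lit 10) (.e (nat_lit 434231) (nat_lit 23) (.e (nat_lit 532483) (nat_lit 0) .nil))))) (.g (nat_lit 0) (.e (nat_lit 189229) (nat_lit 0) .nil) .nil)))) (.nd (nat_lit 9) 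
(.lf (nat_lit 508222) (.g (nat_lit 2334) (.e (nat_lit 172062) (nat_lit 2) (.e (nat_lit 196666) (nat_lit 13) (.e (nat_lit 65617) (nat_lit 10) (.e (nat_lit 344133) (nat_lit 26) (.e (nat_lit 557091) (nat_lit 12) (.e (nat_lit 163840) (nat_lit 0) (.e (nat_lit 6254) (nat_lit 337) (.e (nat_lit 2630) (nat_lit 164) .nil)))))))) (.g (nat_lit 1) (.e (nat_lit 188717) (nat_lit 0) .nil) .nil))) 
(.lf (nat_lit 508734) (.g (nat_lit 2972) (.e (nat_lit 172067) (nat_lit 3) (.e (nat_lit 204869) (nat_lit 29) (.e (nat_lit 360475) (nat_lit 8) (.e (nat_lit 557091) (nat_lit 12) (.e (nat_lit 163844) (nat_lit 0) (.e (nat_lit 6255) (nat_lit 337) (.e (nat_lit 2621) (nat_lit 164) .nil))))))) (.g (nat_lit 1) (.e (nat_lit 189817) (nat_lit 0) .nil) .nil))))) (.nd (nat_lit 8) (.nd (nat_lit 9) 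
(.lf (nat_lit 508094) (.g (nat_lit 1620) (.e (nat_lit 172035) (nat_lit 0) (.e (nat_lit 6989) (nat_lit 377) (.e (nat_lit 2777) (nat_lit 178) (.e (nat_lit 286771) (nat_lit 29) .nil)))) (.g (nat_lit 0) (.e (nat_lit 188385) (nat_lit 0) .nil) .nil))) 
(.lf (nat_lit 508606) (.g (nat_lit 4617) (.e (nat_lit 172067) (nat_lit 3) (.e (nat_lit 204846) (nat_lit 24) (.e (nat_lit 319533) (nat_lit 16) (.e (nat_lit 286734) (nat_lit 3) (.e (nat_lit 98320) (nat_lit 17) (.e (nat_lit 7386) (nat_lit 392) .nil)))))) (.g (nat_lit 1) (.e (nat_lit 189481) (nat_lit 0) .nil) .nil)))) (.nd (nat_lit 9) 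
(.lf (nat_lit 508350) (.g (nat_lit 3635) (.e (nat_lit 172064) (nat_lit 2) (.e (nat_lit 196666) (nat_lit 13) (.e (nat_lit 65617) (nat_lit 10) (.e (nat_lit 344130) (nat_lit 26) (.e (nat_lit 557090) (nat_lit 12) (.e (nat_lit 163850) (nat_lit 0) (.e (nat_lit 6273) (nat_lit 337) (.e (nat_lit 2632) (nat_lit 164) .nil)))))))) (.g (nat_lit 1) (.e (nat_lit 188984) (nat_lit 0) .nil) .nil))) 
(.lf (nat_lit 508862) (.g (nat_lit 1784) (.e (nat_lit 172076) (nat_lit 6) (.e (nat_lit 253992) (nat_lit 11) (.e (nat_lit 16466) (nat_lit 13) (.e (nat_lit 483361) (nat_lit 17) (.e (nat_lit 7936) (nat_lit 361) .nil))))) (.g (nat_lit 1) (.e (nat_lit 190142) (nat_lit 0) .nil) .nil)))))) (.nd (nat_lit 7) (.nd (nat_lit 8) (.nd (nat_lit 9) 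
(.lf (nat_lit 508030) (.g (nat_lit 1007) (.e (nat_lit 164403) (nat_lit 256) (.e (nat_lit 57378) (nat_lit 3) (.e (nat_lit 98365) (nat_lit 26) (.e (nat_lit 426187) (nat_lit 9) .nil)))) (.g (nat_lit 0) (.e (nat_lit 188306) (nat_lit 0) .nil) .nil))) 
(.lf (nat_lit 508542) (.g (nat_lit 3319) (.e (nat_lit 172066) (nat_lit 3) (.e (nat_lit 204869) (nat_lit 29) (.e (nat_lit 360475) (nat_lit 8) (.e (nat_lit 557091) (nat_lit 12) (.e (nat_lit 163840) (nat_lit 0) (.e (nat_lit 6273) (nat_lit 337) (.e (nat_lit 2633) (nat_lit 164) .nil))))))) (.g (nat_lit 1) (.e (nat_lit 189351) (nat_lit 0) .nil) .nil)))) (.nd (nat_lit 9) 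
(.lf (nat_lit 508286) (.g (nat_lit 3254) (.e (nat_lit 172064) (nat_lit 2) (.e (nat_lit 196666) (nat_lit 13) (.e (nat_lit 65610) (nat_lit 10) (.e (nat_lit 344117) (nat_lit 21) (.e (nat_lit 516106) (nat_lit 0) (.e (nat_lit 3335) (nat_lit 205) (.e (nat_lit 598061) (nat_lit 16) .nil))))))) (.g (nat_lit 1) (.e (nat_lit 188836) (nat_lit 0) .nil) .nil))) 
(.lf (nat_lit 508798) (.g (nat_lit 1241) (.e (nat_lit 172074) (nat_lit 6) (.e (nat_lit 253991) (nat_lit 11) (.e (nat_lit 16466) (nat_lit 13) (.e (nat_lit 483345) (nat_lit 17) .nil)))) (.g (nat_lit 0) (.e (nat_lit 189987) (nat_lit 0) .nil) .nil))))) (.nd (nat_lit 8) (.nd (nat_lit 9) 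
(.lf (nat_lit 508158) (.g (nat_lit 2945) (.e (nat_lit 172062) (nat_lit 2) (.e (nat_lit 196666) (nat_lit 13) (.e (nat_lit 65610) (nat_lit 10) (.e (nat_lit 344117) (nat_lit 21) (.e (nat_lit 516098) (nat_lit 0) (.e (nat_lit 2398) (nat_lit 157) (.e (nat_lit 4507) (nat_lit 263) (.e (nat_lit 2619) (nat_lit 164) .nil)))))))) (.g (nat_lit 1) (.e (nat_lit 188594) (nat_lit 0) .nil) .nil))) 
(.lf (nat_lit 508670) (.g (nat_lit 5199) (.e (nat_lit 172067) (nat_lit 3) (.e (nat_lit 204868) (nat_lit 29) (.e (nat_lit 360475) (nat_lit 8) (.e (nat_lit 557091) (nat_lit 12) (.e (nat_lit 164020) (nat_lit 45) (.e (nat_lit 696343) (nat_lit 8) .nil)))))) (.g (nat_lit 1) (.e (nat_lit 189713) (nat_lit 0) .nil) .nil)))) (.nd (nat_lit 9) 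
(.lf (nat_lit 508414) (.g (nat_lit 2813) (.e (nat_lit 172065) (nat_lit 3) (.e (nat_lit 204852) (nat_lit 26) (.e (nat_lit 336310) (nat_lit 16) (.e (nat_lit 164179) (nat_lit 154) (.e (nat_lit 57378) (nat_lit 3) (.e (nat_lit 98335) (nat_lit 18) (.e (nat_lit 164305) (nat_lit 226) (.e (nat_lit 2630) (nat_lit 164) .nil)))))))) (.g (nat_lit 1) (.e (nat_lit 189057) (nat_lit 0) .nil) .nil))) 
(.lf (nat_lit 508926) (.g (nat_lit 1110) (.e (nat_lit 172079) (nat_lit 7) (.e (nat_lit 409639) (nat_lit 15) (.e (nat_lit 278566) (nat_lit 16) (.e (nat_lit 286756) (nat_lit 10) (.e (nat_lit 344154) (nat_lit 35) (.e (nat_lit 630802) (nat_lit 8) .nil)))))) (.g (nat_lit 1) (.e (nat_lit 190345) (nat_lit 0) .nil) .nil)))))))))))) 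
(.nd (nat_lit 1) (.nd (nat_lit 2) (.nd (nat_lit 3) (.nd (nat_lit 4) (.nd (nat_lit 5) 
(.nd (nat_lit 6) (.nd (nat_lit 7) (.nd (nat_lit 8) (.nd (nat_lit 9) 
(.lf (nat_lit 507905) (.g (nat_lit 1579) (.e (nat_lit 164402) (nat_lit 256) (.e (nat_lit 57378) (nat_lit 3) (.e (nat_lit 98365) (nat_lit 26) (.e (nat_lit 426326) (nat_lit 13) .nil)))) (.g (nat_lit 0) (.e (nat_lit 188155) (nat_lit 0) .nil) .nil))) 
(.lf (nat_lit 508417) (.g (nat_lit 1176) (.e (nat_lit 172065) (nat_lit 3) (.e (nat_lit 204855) (nat_lit 26) (.e (nat_lit 336176) (nat_lit 10) (.e (nat_lit 344127) (nat_lit 26) .nil)))) (.g (nat_lit 0) (.e (nat_lit 189074) (nat_lit 0) .nil) .nil)))) (.nd (nat_lit 9) 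
(.lf (nat_lit 508161) (.g (nat_lit 2615) (.e (nat_lit 172062) (nat_lit 2) (.e (nat_lit 196666) (nat_lit 13) (.e (nat_lit 65610) (nat_lit 10) (.e (nat_lit 344117) (nat_lit 21) (.e (nat_lit 516099) (nat_lit 0) (.e (nat_lit 2497) (nat_lit 157) (.e (nat_lit 4506) (nat_lit 263) (.e (nat_lit 2619) (nat_lit 164) .nil)))))))) (.g (nat_lit 1) (.e (nat_lit 188599) (nat_lit 0) .nil) .nil))) 
(.lf (nat_lit 508673) (.g (nat_lit 2886) (.e (nat_lit 172067) (nat_lit 3) (.e (nat_lit 204869) (nat_lit 29) (.e (nat_lit 360472) (nat_lit 8) (.e (nat_lit 557090) (nat_lit 12) (.e (nat_lit 164020) (nat_lit 45) (.e (nat_lit 696342) (nat_lit 8) .nil)))))) (.g (nat_lit 1) (.e (nat_lit 189727) (nat_lit 0) .nil) .nil))))) (.nd (nat_lit 8) (.nd (nat_lit 9) 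
(.lf (nat_lit 508033) (.g (nat_lit 4702) (.e (nat_lit 164403) (nat_lit 256) (.e (nat_lit 57378) (nat_lit 3) (.e (nat_lit 98365) (nat_lit 26) (.e (nat_lit 426325) (nat_lit 13) (.e (nat_lit 483337) (nat_lit 9) (.e (nat_lit 426100) (nat_lit 1) .nil)))))) (.g (nat_lit 1) (.e (nat_lit 188309) (nat_lit 0) .nil) .nil))) 
(.lf (nat_lit 508545) (.g (nat_lit 3268) (.e (nat_lit 172066) (nat_lit 3) (.e (nat_lit 204869) (nat_lit 29) (.e (nat_lit 360475) (nat_lit 8) (.e (nat_lit 557091) (nat_lit 12) (.e (nat_lit 163843) (nat_lit 0) (.e (nat_lit 6250) (nat_lit 337) (.e (nat_lit 2622) (nat_lit 164) .nil))))))) (.g (nat_lit 1) (.e (nat_lit 189364) (nat_lit 0) .nil) .nil)))) (.nd (nat_lit 9) 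
(.lf (nat_lit 508289) (.g (nat_lit 2543) (.e (nat_lit 172064) (nat_lit 2) (.e (nat_lit 196666) (nat_lit 13) (.e (nat_lit 65610) (nat_lit 10) (.e (nat_lit 344117) (nat_lit 21) (.e (nat_lit 516106) (nat_lit 0) (.e (nat_lit 3339) (nat_lit 205) (.e (nat_lit 598061) (nat_lit 16) .nil))))))) (.g (nat_lit 1) (.e (nat_lit 188839) (nat_lit 0) .nil) .nil))) 
(.lf (nat_lit 508801) (.g (nat_lit 1795) (.e (nat_lit 172074) (nat_lit 6) (.e (nat_lit 253991) (nat_lit 11) (.e (nat_lit 16466) (nat_lit 13) (.e (nat_lit 483352) (nat_lit 17) .nil)))) (.g (nat_lit 0) (.e (nat_lit 189990) (nat_lit 0) .nil) .nil)))))) (.nd (nat_lit 7) (.nd (nat_lit 8) (.nd (nat_lit 9) 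
(.lf (nat_lit 507969) (.g (nat_lit 2809) (.e (nat_lit 164403) (nat_lit 256) (.e (nat_lit 57371) (nat_lit 2) (.e (nat_lit 90174) (nat_lit 14) (.e (nat_lit 180252) (nat_lit 10) (.e (nat_lit 573489) (nat_lit 14) (.e (nat_lit 73755) (nat_lit 8) (.e (nat_lit 557067) (nat_lit 9) (.e (nat_lit 2598) (nat_lit 163) .nil)))))))) (.g (nat_lit 1) (.e (nat_lit 188230) (nat_lit 0) .nil) .nil))) 
(.lf (nat_lit 508481) (.g (nat_lit 2899) (.e (nat_lit 172066) (nat_lit 3) (.e (nat_lit 204829) (nat_lit 18) (.e (nat_lit 57688) (nat_lit 156) (.e (nat_lit 163875) (nat_lit 3) (.e (nat_lit 204837) (nat_lit 20) .nil))))) (.g (nat_lit 0) (.e (nat_lit 189246) (nat_lit 0) .nil) .nil)))) (.nd (nat_lit 9) 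
(.lf (nat_lit 508225) (.g (nat_lit 2864) (.e (nat_lit 172062) (nat_lit 2) (.e (nat_lit 196666) (nat_lit 13) (.e (nat_lit 65617) (nat_lit 10) (.e (nat_lit 344133) (nat_lit 26) (.e (nat_lit 557091) (nat_lit 12) (.e (nat_lit 163843) (nat_lit 0) (.e (nat_lit 6255) (nat_lit 337) (.e (nat_lit 2620) (nat_lit 164) .nil)))))))) (.g (nat_lit 1) (.e (nat_lit 188720) (nat_lit 0) .nil) .nil))) 
(.lf (nat_lit 508737) (.g (nat_lit 4389) (.e (nat_lit 172067) (nat_lit 3) (.e (nat_lit 204869) (nat_lit 29) (.e (nat_lit 360475) (nat_lit 8) (.e (nat_lit 557091) (nat_lit 12) (.e (nat_lit 163850) (nat_lit 0) (.e (nat_lit 6273) (nat_lit 337) (.e (nat_lit 2632) (nat_lit 164) .nil))))))) (.g (nat_lit 1) (.e (nat_lit 189823) (nat_lit 0) .nil) .nil))))) (.nd (nat_lit 8) (.nd (nat_lit 9) 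
(.lf (nat_lit 508097) (.g (nat_lit 1787) (.e (nat_lit 172037) (nat_lit 0) (.e (nat_lit 6989) (nat_lit 377) (.e (nat_lit 2779) (nat_lit 178) (.e (nat_lit 286771) (nat_lit 29) .nil)))) (.g (nat_lit 0) (.e (nat_lit 188389) (nat_lit 0) .nil) .nil))) 
(.lf (nat_lit 508609) (.g (nat_lit 4523) (.e (nat_lit 172067) (nat_lit 3) (.e (nat_lit 204846) (nat_lit 24) (.e (nat_lit 319533) (nat_lit 16) (.e (nat_lit 286735) (nat_lit 3) (.e (nat_lit 98320) (nat_lit 17) (.e (nat_lit 7386) (nat_lit 392) .nil)))))) (.g (nat_lit 1) (.e (nat_lit 189486) (nat_lit 0) .nil) .nil)))) (.nd (nat_lit 9) 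
(.lf (nat_lit 508353) (.g (nat_lit 3988) (.e (nat_lit 172064) (nat_lit 2) (.e (nat_lit 196666) (nat_lit 13) (.e (nat_lit 65617) (nat_lit 10) (.e (nat_lit 344130) (nat_lit 26) (.e (nat_lit 557090) (nat_lit 12) (.e (nat_lit 164019) (nat_lit 45) (.e (nat_lit 696343) (nat_lit 8) .nil))))))) (.g (nat_lit 1) (.e (nat_lit 188987) (nat_lit 0) .nil) .nil))) 
(.lf (nat_lit 508865) (.g (nat_lit 549) (.e (nat_lit 172077) (nat_lit 7) (.e (nat_lit 409616) (nat_lit 10) (.e (nat_lit 7936) (nat_lit 300) .nil))) (.g (nat_lit 0) (.e (nat_lit 190150) (nat_lit 0) .nil) .nil))))))) (.nd (nat_lit 6) (.nd (nat_lit 7) (.nd (nat_lit 8) (.nd (nat_lit 9) 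
(.lf (nat_lit 507937) (.g (nat_lit 2846) (.e (nat_lit 164402) (nat_lit 256) (.e (nat_lit 57427) (nat_lit 15) (.e (nat_lit 360475) (nat_lit 8) (.e (nat_lit 557065) (nat_lit 9) (.e (nat_lit 2717) (nat_lit 171) .nil))))) (.g (nat_lit 0) (.e (nat_lit 188187) (nat_lit 0) .nil) .nil))) 
(.lf (nat_lit 508449) (.g (nat_lit 3735) (.e (nat_lit 172065) (nat_lit 3) (.e (nat_lit 204868) (nat_lit 29) (.e (nat_lit 360475) (nat_lit 8) (.e (nat_lit 557091) (nat_lit 12) (.e (nat_lit 163849) (nat_lit 0) .nil))))) (.g (nat_lit 0) (.e (nat_lit 189162) (nat_lit 0) .nil) .nil)))) (.nd (nat_lit 9) 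
(.lf (nat_lit 508193) (.g (nat_lit 2309) (.e (nat_lit 172062) (nat_lit 2) (.e (nat_lit 196666) (nat_lit 13) (.e (nat_lit 65610) (nat_lit 10) (.e (nat_lit 344129) (nat_lit 26) (.e (nat_lit 557090) (nat_lit 12) (.e (nat_lit 164018) (nat_lit 45) (.e (nat_lit 696342) (nat_lit 8) .nil))))))) (.g (nat_lit 1) (.e (nat_lit 188685) (nat_lit 0) .nil) .nil))) 
(.lf (nat_lit 508705) (.g (nat_lit 3036) (.e (nat_lit 172067) (nat_lit 3) (.e (nat_lit 204869) (nat_lit 29) (.e (nat_lit 360475) (nat_lit 8) (.e (nat_lit 557089) (nat_lit 12) (.e (nat_lit 163844) (nat_lit 0) (.e (nat_lit 6255) (nat_lit 337) (.e (nat_lit 2620) (nat_lit 164) .nil))))))) (.g (nat_lit 1) (.e (nat_lit 189776) (nat_lit 0) .nil) .nil))))) (.nd (nat_lit 8) (.nd (nat_lit 9) 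
(.lf (nat_lit 508065) (.g (nat_lit 1009) (.e (nat_lit 164403) (nat_lit 256) (.e (nat_lit 57406) (nat_lit 12) (.e (nat_lit 336392) (nat_lit 27) (.e (nat_lit 426298) (nat_lit 11) .nil)))) (.g (nat_lit 0) (.e (nat_lit 188341) (nat_lit 0) .nil) .nil))) 
(.lf (nat_lit 508577) (.g (nat_lit 2786) (.e (nat_lit 172067) (nat_lit 3) (.e (nat_lit 204845) (nat_lit 24) (.e (nat_lit 319530) (nat_lit 16) (.e (nat_lit 286733) (nat_lit 2) (.e (nat_lit 90165) (nat_lit 12) .nil))))) (.g (nat_lit 0) (.e (nat_lit 189432) (nat_lit 0) .nil) .nil)))) (.nd (nat_lit 9) 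
(.lf (nat_lit 508321) (.g (nat_lit 2036) (.e (nat_lit 172064) (nat_lit 2) (.e (nat_lit 196666) (nat_lit 13) (.e (nat_lit 65610) (nat_lit 10) (.e (nat_lit 344129) (nat_lit 26) (.e (nat_lit 557090) (nat_lit 12) (.e (nat_lit 171776) (nat_lit 0) (.e (nat_lit 6254) (nat_lit 337) (.e (nat_lit 2630) (nat_lit 164) .nil)))))))) (.g (nat_lit 1) (.e (nat_lit 188954) (nat_lit 0) .nil) .nil))) 
(.lf (nat_lit 508833) (.g (nat_lit 1674) (.e (nat_lit 172076) (nat_lit 6) (.e (nat_lit 253991) (nat_lit 11) (.e (nat_lit 16462) (nat_lit 13) (.e (nat_lit 483350) (nat_lit 17) (.e (nat_lit 7936) (nat_lit 361) .nil))))) (.g (nat_lit 0) (.e (nat_lit 190089) (nat_lit 0) .nil) .nil)))))) (.nd (nat_lit 7) (.nd (nat_lit 8) (.nd (nat_lit 9) 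
(.lf (nat_lit 508001) (.g (nat_lit 667) (.e (nat_lit 164403) (nat_lit 256) (.e (nat_lit 57373) (nat_lit 2) (.e (nat_lit 90185) (nat_lit 17) (.e (nat_lit 237621) (nat_lit 13) .nil)))) (.g (nat_lit 0) (.e (nat_lit 188267) (nat_lit 0) .nil) .nil))) 
(.lf (nat_lit 508513) (.g (nat_lit 1812) (.e (nat_lit 172066) (nat_lit 3) (.e (nat_lit 204846) (nat_lit 24) (.e (nat_lit 327424) (nat_lit 16) (.e (nat_lit 286735) (nat_lit 3) (.e (nat_lit 98325) (nat_lit 17) (.e (nat_lit 7936) (nat_lit 392) .nil)))))) (.g (nat_lit 1) (.e (nat_lit 189292) (nat_lit 0) .nil) .nil)))) (.nd (nat_lit 9) 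
(.lf (nat_lit 508257) (.g (nat_lit 3857) (.e (nat_lit 172064) (nat_lit 2) (.e (nat_lit 196666) (nat_lit 13) (.e (nat_lit 65610) (nat_lit 10) (.e (nat_lit 344117) (nat_lit 21) (.e (nat_lit 516097) (nat_lit 0) (.e (nat_lit 2430) (nat_lit 157) (.e (nat_lit 4439) (nat_lit 263) (.e (nat_lit 2631) (nat_lit 164) .nil)))))))) (.g (nat_lit 1) (.e (nat_lit 188801) (nat_lit 0) .nil) .nil))) 
(.lf (nat_lit 508769) (.g (nat_lit 2950) (.e (nat_lit 172069) (nat_lit 4) (.e (nat_lit 229663) (nat_lit 240) (.e (nat_lit 2612) (nat_lit 163) (.e (nat_lit 163979) (nat_lit 30) (.e (nat_lit 573481) (nat_lit 13) .nil))))) (.g (nat_lit 0) (.e (nat_lit 189891) (nat_lit 0) .nil) .nil))))) (.nd (nat_lit 8) (.nd (nat_lit 9) 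
(.lf (nat_lit 508129) (.g (nat_lit 2732) (.e (nat_lit 172048) (nat_lit 0) (.e (nat_lit 3307) (nat_lit 202) (.e (nat_lit 573484) (nat_lit 13) (.e (nat_lit 65642) (nat_lit 15) .nil)))) (.g (nat_lit 0) (.e (nat_lit 188480) (nat_lit 0) .nil) .nil))) 
(.lf (nat_lit 508641) (.g (nat_lit 2479) (.e (nat_lit 172067) (nat_lit 3) (.e (nat_lit 204855) (nat_lit 26) (.e (nat_lit 336176) (nat_lit 10) (.e (nat_lit 344133) (nat_lit 26) (.e (nat_lit 557091) (nat_lit 12) (.e (nat_lit 164018) (nat_lit 45) (.e (nat_lit 696342) (nat_lit 8) .nil))))))) (.g (nat_lit 1) (.e (nat_lit 189584) (nat_lit 0) .nil) .nil)))) (.nd (nat_lit 9) 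
(.lf (nat_lit 508385) (.g (nat_lit 2957) (.e (nat_lit 172065) (nat_lit 3) (.e (nat_lit 204830) (nat_lit 18) (.e (nat_lit 57689) (nat_lit 156) (.e (nat_lit 163874) (nat_lit 3) (.e (nat_lit 204836) (nat_lit 20) (.e (nat_lit 114715) (nat_lit 22) (.e (nat_lit 90170) (nat_lit 13) .nil))))))) (.g (nat_lit 1) (.e (nat_lit 189025) (nat_lit 0) .nil) .nil))) 
(.lf (nat_lit 508897) (.g (nat_lit 3511) (.e (nat_lit 172078) (nat_lit 7) (.e (nat_lit 409648) (nat_lit 18) (.e (nat_lit 303137) (nat_lit 10) (.e (nat_lit 434275) (nat_lit 39) (.e (nat_lit 663574) (nat_lit 9) (.e (nat_lit 2467) (nat_lit 157) (.e (nat_lit 3469) (nat_lit 217) (.e (nat_lit 696344) (nat_lit 8) .nil)))))))) (.g (nat_lit 1) (.e (nat_lit 190283) (nat_lit 0) .nil) .nil)))))))) 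
(.nd (nat_lit 5) (.nd (nat_lit 6) (.nd (nat_lit 7) (.nd (nat_lit 8) (.nd (nat_lit 9) 
(.lf (nat_lit 507921) (.g (nat_lit 1392) (.e (nat_lit 164402) (nat_lit 256) (.e (nat_lit 57409) (nat_lit 12) (.e (nat_lit 336430) (nat_lit 29) (.e (nat_lit 442427) (nat_lit 23) .nil)))) (.g (nat_lit 0) (.e (nat_lit 188171) (nat_lit 0) .nil) .nil))) 
(.lf (nat_lit 508433) (.g (nat_lit 1085) (.e (nat_lit 172065) (nat_lit 3) (.e (nat_lit 204868) (nat_lit 29) (.e (nat_lit 360474) (nat_lit 8) (.e (nat_lit 557093) (nat_lit 12) .nil)))) (.g (nat_lit 0) (.e (nat_lit 189140) (nat_lit 0) .nil) .nil)))) (.nd (nat_lit 9) 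
(.lf (nat_lit 508177) (.g (nat_lit 3158) (.e (nat_lit 172062) (nat_lit 2) (.e (nat_lit 196666) (nat_lit 13) (.e (nat_lit 65610) (nat_lit 10) (.e (nat_lit 344129) (nat_lit 26) (.e (nat_lit 557090) (nat_lit 12) (.e (nat_lit 163840) (nat_lit 0) (.e (nat_lit 6374) (nat_lit 337) (.e (nat_lit 2628) (nat_lit 164) .nil)))))))) (.g (nat_lit 1) (.e (nat_lit 188669) (nat_lit 0) .nil) .nil))) 
(.lf (nat_lit 508689) (.g (nat_lit 1622) (.e (nat_lit 172067) (nat_lit 3) (.e (nat_lit 204869) (nat_lit 29) (.e (nat_lit 360474) (nat_lit 8) (.e (nat_lit 557094) (nat_lit 12) (.e (nat_lit 163840) (nat_lit 0) .nil))))) (.g (nat_lit 0) (.e (nat_lit 189746) (nat_lit 0) .nil) .nil))))) (.nd (nat_lit 8) (.nd (nat_lit 9) 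
(.lf (nat_lit 508049) (.g (nat_lit 3557) (.e (nat_lit 164403) (nat_lit 256) (.e (nat_lit 57378) (nat_lit 3) (.e (nat_lit 98368) (nat_lit 27) (.e (nat_lit 434247) (nat_lit 28) (.e (nat_lit 573489) (nat_lit 14) (.e (nat_lit 73755) (nat_lit 8) (.e (nat_lit 557074) (nat_lit 9) (.e (nat_lit 2609) (nat_lit 163) .nil)))))))) (.g (nat_lit 1) (.e (nat_lit 188325) (nat_lit 0) .nil) .nil))) 
(.lf (nat_lit 508561) (.g (nat_lit 2948) (.e (nat_lit 172066) (nat_lit 3) (.e (nat_lit 204885) (nat_lit 33) (.e (nat_lit 401448) (nat_lit 10) (.e (nat_lit 434231) (nat_lit 23) (.e (nat_lit 532483) (nat_lit 0) (.e (nat_lit 7936) (nat_lit 361) .nil)))))) (.g (nat_lit 1) (.e (nat_lit 189399) (nat_lit 0) .nil) .nil)))) (.nd (nat_lit 9) 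
(.lf (nat_lit 508305) (.g (nat_lit 2032) (.e (nat_lit 172064) (nat_lit 2) (.e (nat_lit 196666) (nat_lit 13) (.e (nat_lit 65610) (nat_lit 10) (.e (nat_lit 344129) (nat_lit 26) (.e (nat_lit 557090) (nat_lit 12) .nil))))) (.g (nat_lit 0) (.e (nat_lit 188937) (nat_lit 0) .nil) .nil))) 
(.lf (nat_lit 508817) (.g (nat_lit 1113) (.e (nat_lit 172076) (nat_lit 6) (.e (nat_lit 253988) (nat_lit 11) (.e (nat_lit 16436) (nat_lit 9) (.e (nat_lit 426550) (nat_lit 31) (.e (nat_lit 376576) (nat_lit 4) .nil))))) (.g (nat_lit 1) (.e (nat_lit 190055) (nat_lit 0) .nil) .nil)))))) (.nd (nat_lit 7) (.nd (nat_lit 8) (.nd (nat_lit 9) 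
(.lf (nat_lit 507985) (.g (nat_lit 3388) (.e (nat_lit 164403) (nat_lit 256) (.e (nat_lit 57373) (nat_lit 2) (.e (nat_lit 90174) (nat_lit 14) (.e (nat_lit 180243) (nat_lit 5) (.e (nat_lit 532515) (nat_lit 3) (.e (nat_lit 114716) (nat_lit 22) (.e (nat_lit 90133) (nat_lit 9) (.e (nat_lit 2613) (nat_lit 163) .nil)))))))) (.g (nat_lit 1) (.e (nat_lit 188251) (nat_lit 0) .nil) .nil))) 
(.lf (nat_lit 508497) (.g (nat_lit 3106) (.e (nat_lit 172066) (nat_lit 3) (.e (nat_lit 204846) (nat_lit 24) (.e (nat_lit 319530) (nat_lit 16) (.e (nat_lit 286733) (nat_lit 2) (.e (nat_lit 90165) (nat_lit 12) .nil))))) (.g (nat_lit 0) (.e (nat_lit 189273) (nat_lit 0) .nil) .nil)))) (.nd (nat_lit 9) 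
(.lf (nat_lit 508241) (.g (nat_lit 2703) (.e (nat_lit 172063) (nat_lit 2) (.e (nat_lit 196666) (nat_lit 13) (.e (nat_lit 65617) (nat_lit 10) (.e (nat_lit 344130) (nat_lit 26) (.e (nat_lit 557090) (nat_lit 12) (.e (nat_lit 163850) (nat_lit 0) (.e (nat_lit 6273) (nat_lit 337) (.e (nat_lit 2633) (nat_lit 164) .nil)))))))) (.g (nat_lit 1) (.e (nat_lit 188752) (nat_lit 0) .nil) .nil))) 
(.lf (nat_lit 508753) (.g (nat_lit 3832) (.e (nat_lit 172067) (nat_lit 3) (.e (nat_lit 204885) (nat_lit 33) (.e (nat_lit 401448) (nat_lit 10) (.e (nat_lit 434231) (nat_lit 23) (.e (nat_lit 532483) (nat_lit 0) (.e (nat_lit 7936) (nat_lit 361) .nil)))))) (.g (nat_lit 1) (.e (nat_lit 189870) (nat_lit 0) .nil) .nil))))) (.nd (nat_lit 8) (.nd (nat_lit 9) 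
(.lf (nat_lit 508113) (.g (nat_lit 466) (.e (nat_lit 172039) (nat_lit 0) (.e (nat_lit 7107) (nat_lit 380) (.e (nat_lit 164281) (nat_lit 222) .nil))) (.g (nat_lit 0) (.e (nat_lit 188416) (nat_lit 0) .nil) .nil))) 
(.lf (nat_lit 508625) (.g (nat_lit 3468) (.e (nat_lit 172067) (nat_lit 3) (.e (nat_lit 204855) (nat_lit 26) (.e (nat_lit 336099) (nat_lit 9) (.e (nat_lit 336013) (nat_lit 2) (.e (nat_lit 90187) (nat_lit 18) .nil))))) (.g (nat_lit 0) (.e (nat_lit 189535) (nat_lit 0) .nil) .nil)))) (.nd (nat_lit 9) 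
(.lf (nat_lit 508369) (.g (nat_lit 2935) (.e (nat_lit 172064) (nat_lit 2) (.e (nat_lit 196666) (nat_lit 13) (.e (nat_lit 65617) (nat_lit 10) (.e (nat_lit 344133) (nat_lit 26) (.e (nat_lit 557091) (nat_lit 12) (.e (nat_lit 163841) (nat_lit 0) (.e (nat_lit 6255) (nat_lit 337) (.e (nat_lit 2630) (nat_lit 164) .nil)))))))) (.g (nat_lit 1) (.e (nat_lit 189003) (nat_lit 0) .nil) .nil))) 
(.lf (nat_lit 508881) (.g (nat_lit 3205) (.e (nat_lit 172078) (nat_lit 7) (.e (nat_lit 409645) (nat_lit 18) (.e (nat_lit 303143) (nat_lit 12) (.e (nat_lit 475212) (nat_lit 42) (.e (nat_lit 720910) (nat_lit 20) .nil))))) (.g (nat_lit 0) (.e (nat_lit 190258) (nat_lit 0) .nil) .nil))))))) (.nd (nat_lit 6) (.nd (nat_lit 7) (.nd (nat_lit 8) (.nd (nat_lit 9) 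
(.lf (nat_lit 507953) (.g (nat_lit 4118) (.e (nat_lit 164403) (nat_lit 256) (.e (nat_lit 57371) (nat_lit 2) (.e (nat_lit 90173) (nat_lit 14) (.e (nat_lit 180252) (nat_lit 10) (.e (nat_lit 573489) (nat_lit 14) (.e (nat_lit 73755) (nat_lit 8) (.e (nat_lit 557067) (nat_lit 9) (.e (nat_lit 2606) (nat_lit 163) .nil)))))))) (.g (nat_lit 1) (.e (nat_lit 188214) (nat_lit 0) .nil) .nil))) 
(.lf (nat_lit 508465) (.g (nat_lit 4471) (.e (nat_lit 172065) (nat_lit 3) (.e (nat_lit 204869) (nat_lit 29) (.e (nat_lit 360475) (nat_lit 8) (.e (nat_lit 557089) (nat_lit 12) (.e (nat_lit 163843) (nat_lit 0) (.e (nat_lit 6255) (nat_lit 337) (.e (nat_lit 2630) (nat_lit 164) .nil))))))) (.g (nat_lit 1) (.e (nat_lit 189181) (nat_lit 0) .nil) .nil)))) (.nd (nat_lit 9) 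
(.lf (nat_lit 508209) (.g (nat_lit 3480) (.e (nat_lit 172062) (nat_lit 2) (.e (nat_lit 196666) (nat_lit 13) (.e (nat_lit 65617) (nat_lit 10) (.e (nat_lit 344130) (nat_lit 26) (.e (nat_lit 557090) (nat_lit 12) (.e (nat_lit 164019) (nat_lit 45) (.e (nat_lit 696343) (nat_lit 8) .nil))))))) (.g (nat_lit 1) (.e (nat_lit 188704) (nat_lit 0) .nil) .nil))) 
(.lf (nat_lit 508721) (.g (nat_lit 2421) (.e (nat_lit 172067) (nat_lit 3) (.e (nat_lit 204869) (nat_lit 29) (.e (nat_lit 360475) (nat_lit 8) (.e (nat_lit 557091) (nat_lit 12) (.e (nat_lit 163840) (nat_lit 0) .nil))))) (.g (nat_lit 0) (.e (nat_lit 189796) (nat_lit 0) .nil) .nil))))) (.nd (nat_lit 8) (.nd (nat_lit 9) 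
(.lf (nat_lit 508081) (.g (nat_lit 627) (.e (nat_lit 164403) (nat_lit 256) (.e (nat_lit 57445) (nat_lit 19) (.e (nat_lit 393282) (nat_lit 24) .nil))) (.g (nat_lit 0) (.e (nat_lit 188358) (nat_lit 0) .nil) .nil))) 
(.lf (nat_lit 508593) (.g (nat_lit 2504) (.e (nat_lit 172067) (nat_lit 3) (.e (nat_lit 204846) (nat_lit 24) (.e (nat_lit 319529) (nat_lit 16) (.e (nat_lit 286735) (nat_lit 3) (.e (nat_lit 98325) (nat_lit 17) (.e (nat_lit 7936) (nat_lit 392) .nil)))))) (.g (nat_lit 1) (.e (nat_lit 189458) (nat_lit 0) .nil) .nil)))) (.nd (nat_lit 9) 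
(.lf (nat_lit 508337) (.g (nat_lit 3629) (.e (nat_lit 172064) (nat_lit 2) (.e (nat_lit 196666) (nat_lit 13) (.e (nat_lit 65617) (nat_lit 10) (.e (nat_lit 344127) (nat_lit 26) (.e (nat_lit 557090) (nat_lit 12) (.e (nat_lit 164019) (nat_lit 45) (.e (nat_lit 696344) (nat_lit 8) .nil))))))) (.g (nat_lit 1) (.e (nat_lit 188971) (nat_lit 0) .nil) .nil))) 
(.lf (nat_lit 508849) (.g (nat_lit 1482) (.e (nat_lit 172076) (nat_lit 6) (.e (nat_lit 253992) (nat_lit 11) (.e (nat_lit 16463) (nat_lit 13) (.e (nat_lit 483344) (nat_lit 17) .nil)))) (.g (nat_lit 0) (.e (nat_lit 190129) (nat_lit 0) .nil) .nil)))))) (.nd (nat_lit 7) (.nd (nat_lit 8) (.nd (nat_lit 9) 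
(.lf (nat_lit 508017) (.g (nat_lit 798) (.e (nat_lit 164403) (nat_lit 256) (.e (nat_lit 57377) (nat_lit 3) (.e (nat_lit 98381) (nat_lit 31) .nil))) (.g (nat_lit 0) (.e (nat_lit 188290) (nat_lit 0) .nil) .nil))) 
(.lf (nat_lit 508529) (.g (nat_lit 4082) (.e (nat_lit 172066) (nat_lit 3) (.e (nat_lit 204869) (nat_lit 29) (.e (nat_lit 360475) (nat_lit 8) (.e (nat_lit 557089) (nat_lit 12) (.e (nat_lit 163843) (nat_lit 0) (.e (nat_lit 6255) (nat_lit 337) (.e (nat_lit 2622) (nat_lit 164) .nil))))))) (.g (nat_lit 1) (.e (nat_lit 189334) (nat_lit 0) .nil) .nil)))) (.nd (nat_lit 9) 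
(.lf (nat_lit 508273) (.g (nat_lit 2431) (.e (nat_lit 172064) (nat_lit 2) (.e (nat_lit 196666) (nat_lit 13) (.e (nat_lit 65610) (nat_lit 10) (.e (nat_lit 344117) (nat_lit 21) (.e (nat_lit 516099) (nat_lit 0) (.e (nat_lit 2430) (nat_lit 157) (.e (nat_lit 4516) (nat_lit 263) (.e (nat_lit 2619) (nat_lit 164) .nil)))))))) (.g (nat_lit 1) (.e (nat_lit 188817) (nat_lit 0) .nil) .nil))) 
(.lf (nat_lit 508785) (.g (nat_lit 1493) (.e (nat_lit 172074) (nat_lit 6) (.e (nat_lit 253988) (nat_lit 11) (.e (nat_lit 16465) (nat_lit 13) (.e (nat_lit 483359) (nat_lit 17) .nil)))) (.g (nat_lit 0) (.e (nat_lit 189960) (nat_lit 0) .nil) .nil))))) (.nd (nat_lit 8) (.nd (nat_lit 9) 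
(.lf (nat_lit 508145) (.g (nat_lit 2797) (.e (nat_lit 172059) (nat_lit 1) (.e (nat_lit 164398) (nat_lit 256) (.e (nat_lit 57447) (nat_lit 19) (.e (nat_lit 393301) (nat_lit 27) (.e (nat_lit 491520) (nat_lit 0) .nil))))) (.g (nat_lit 0) (.e (nat_lit 188536) (nat_lit 0) .nil) .nil))) 
(.lf (nat_lit 508657) (.g (nat_lit 2964) (.e (nat_lit 172067) (nat_lit 3) (.e (nat_lit 204868) (nat_lit 29) (.e (nat_lit 360475) (nat_lit 8) (.e (nat_lit 557067) (nat_lit 9) .nil)))) (.g (nat_lit 0) (.e (nat_lit 189685) (nat_lit 0) .nil) .nil)))) (.nd (nat_lit 9) 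
(.lf (nat_lit 508401) (.g (nat_lit 1886) (.e (nat_lit 172065) (nat_lit 3) (.e (nat_lit 204846) (nat_lit 24) (.e (nat_lit 319504) (nat_lit 10) (.e (nat_lit 5714) (nat_lit 312) .nil)))) (.g (nat_lit 0) (.e (nat_lit 189044) (nat_lit 0) .nil) .nil))) 
(.lf (nat_lit 508913) (.g (nat_lit 2670) (.e (nat_lit 172079) (nat_lit 7) (.e (nat_lit 409611) (nat_lit 10) (.e (nat_lit 934) (nat_lit 76) (.e (nat_lit 786481) (nat_lit 30) (.e (nat_lit 360477) (nat_lit 11) (.e (nat_lit 581651) (nat_lit 4) .nil)))))) (.g (nat_lit 1) (.e (nat_lit 190321) (nat_lit 0) .nil) .nil))))))))) 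
(.nd (nat_lit 4) (.nd (nat_lit 5) (.nd (nat_lit 6) (.nd (nat_lit 7) (.nd (nat_lit 8) 
(.nd (nat_lit 9) 
(.lf (nat_lit 507913) (.g (nat_lit 1264) (.e (nat_lit 164402) (nat_lit 256) (.e (nat_lit 57400) (nat_lit 10) (.e (nat_lit 319506) (nat_lit 10) (.e (nat_lit 5399) (nat_lit 302) .nil)))) (.g (nat_lit 0) (.e (nat_lit 188163) (nat_lit 0) .nil) .nil))) 
(.lf (nat_lit 508425) (.g (nat_lit 482) (.e (nat_lit 172065) (nat_lit 3) (.e (nat_lit 204866) (nat_lit 28) (.e (nat_lit 352312) (nat_lit 22) .nil))) (.g (nat_lit 0) (.e (nat_lit 189105) (nat_lit 0) .nil) .nil)))) (.nd (nat_lit 9) 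
(.lf (nat_lit 508169) (.g (nat_lit 3651) (.e (nat_lit 172062) (nat_lit 2) (.e (nat_lit 196666) (nat_lit 13) (.e (nat_lit 65610) (nat_lit 10) (.e (nat_lit 344129) (nat_lit 26) (.e (nat_lit 557089) (nat_lit 12) (.e (nat_lit 163844) (nat_lit 0) (.e (nat_lit 6374) (nat_lit 337) (.e (nat_lit 2628) (nat_lit 164) .nil)))))))) (.g (nat_lit 1) (.e (nat_lit 188661) (nat_lit 0) .nil) .nil))) 
(.lf (nat_lit 508681) (.g (nat_lit 4512) (.e (nat_lit 172067) (nat_lit 3) (.e (nat_lit 204869) (nat_lit 29) (.e (nat_lit 360474) (nat_lit 8) (.e (nat_lit 557090) (nat_lit 12) .nil)))) (.g (nat_lit 0) (.e (nat_lit 189738) (nat_lit 0) .nil) .nil))))) (.nd (nat_lit 8) (.nd (nat_lit 9) 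
(.lf (nat_lit 508041) (.g (nat_lit 2985) (.e (nat_lit 164403) (nat_lit 256) (.e (nat_lit 57378) (nat_lit 3) (.e (nat_lit 98367) (nat_lit 27) (.e (nat_lit 434247) (nat_lit 28) (.e (nat_lit 573489) (nat_lit 14) (.e (nat_lit 73755) (nat_lit 8) (.e (nat_lit 557067) (nat_lit 9) (.e (nat_lit 2606) (nat_lit 163) .nil)))))))) (.g (nat_lit 1) (.e (nat_lit 188317) (nat_lit 0) .nil) .nil))) 
(.lf (nat_lit 508553) (.g (nat_lit 3639) (.e (nat_lit 172066) (nat_lit 3) (.e (nat_lit 204869) (nat_lit 29) (.e (nat_lit 360475) (nat_lit 8) (.e (nat_lit 557091) (nat_lit 12) (.e (nat_lit 163849) (nat_lit 0) (.e (nat_lit 6255) (nat_lit 337) (.e (nat_lit 2622) (nat_lit 164) .nil))))))) (.g (nat_lit 1) (.e (nat_lit 189379) (nat_lit 0) .nil) .nil)))) (.nd (nat_lit 9) 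
(.lf (nat_lit 508297) (.g (nat_lit 1032) (.e (nat_lit 172064) (nat_lit 2) (.e (nat_lit 196666) (nat_lit 13) (.e (nat_lit 65610) (nat_lit 10) (.e (nat_lit 344129) (nat_lit 26) (.e (nat_lit 557074) (nat_lit 9) .nil))))) (.g (nat_lit 0) (.e (nat_lit 188902) (nat_lit 0) .nil) .nil))) 
(.lf (nat_lit 508809) (.g (nat_lit 1423) (.e (nat_lit 172074) (nat_lit 6) (.e (nat_lit 253992) (nat_lit 11) (.e (nat_lit 16464) (nat_lit 13) (.e (nat_lit 483361) (nat_lit 17) (.e (nat_lit 7936) (nat_lit 361) .nil))))) (.g (nat_lit 1) (.e (nat_lit 190010) (nat_lit 0) .nil) .nil)))))) (.nd (nat_lit 7) (.nd (nat_lit 8) (.nd (nat_lit 9) 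
(.lf (nat_lit 507977) (.g (nat_lit 4291) (.e (nat_lit 164403) (nat_lit 256) (.e (nat_lit 57373) (nat_lit 2) (.e (nat_lit 90173) (nat_lit 14) (.e (nat_lit 180252) (nat_lit 10) (.e (nat_lit 573489) (nat_lit 14) (.e (nat_lit 73755) (nat_lit 8) (.e (nat_lit 557067) (nat_lit 9) (.e (nat_lit 2598) (nat_lit 163) .nil)))))))) (.g (nat_lit 1) (.e (nat_lit 188243) (nat_lit 0) .nil) .nil))) 
(.lf (nat_lit 508489) (.g (nat_lit 2717) (.e (nat_lit 172066) (nat_lit 3) (.e (nat_lit 204845) (nat_lit 24) (.e (nat_lit 319531) (nat_lit 16) (.e (nat_lit 286733) (nat_lit 2) (.e (nat_lit 90165) (nat_lit 12) .nil))))) (.g (nat_lit 0) (.e (nat_lit 189261) (nat_lit 0) .nil) .nil)))) (.nd (nat_lit 9) 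
(.lf (nat_lit 508233) (.g (nat_lit 2344) (.e (nat_lit 172062) (nat_lit 2) (.e (nat_lit 196666) (nat_lit 13) (.e (nat_lit 65617) (nat_lit 10) (.e (nat_lit 344133) (nat_lit 26) (.e (nat_lit 557091) (nat_lit 12) (.e (nat_lit 164020) (nat_lit 45) (.e (nat_lit 696342) (nat_lit 8) .nil))))))) (.g (nat_lit 1) (.e (nat_lit 188728) (nat_lit 0) .nil) .nil))) 
(.lf (nat_lit 508745) (.g (nat_lit 3122) (.e (nat_lit 172067) (nat_lit 3) (.e (nat_lit 204869) (nat_lit 29) (.e (nat_lit 360475) (nat_lit 8) (.e (nat_lit 557093) (nat_lit 12) .nil)))) (.g (nat_lit 0) (.e (nat_lit 189831) (nat_lit 0) .nil) .nil))))) (.nd (nat_lit 8) (.nd (nat_lit 9) 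
(.lf (nat_lit 508105) (.g (nat_lit 419) (.e (nat_lit 172038) (nat_lit 0) (.e (nat_lit 7107) (nat_lit 380) (.e (nat_lit 164338) (nat_lit 232) .nil))) (.g (nat_lit 0) (.e (nat_lit 188406) (nat_lit 0) .nil) .nil))) 
(.lf (nat_lit 508617) (.g (nat_lit 3233) (.e (nat_lit 172067) (nat_lit 3) (.e (nat_lit 204846) (nat_lit 24) (.e (nat_lit 319534) (nat_lit 16) (.e (nat_lit 286734) (nat_lit 3) (.e (nat_lit 98323) (nat_lit 17) (.e (nat_lit 7936) (nat_lit 392) .nil)))))) (.g (nat_lit 1) (.e (nat_lit 189495) (nat_lit 0) .nil) .nil)))) (.nd (nat_lit 9) 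
(.lf (nat_lit 508361) (.g (nat_lit 2164) (.e (nat_lit 172064) (nat_lit 2) (.e (nat_lit 196666) (nat_lit 13) (.e (nat_lit 65617) (nat_lit 10) (.e (nat_lit 344133) (nat_lit 26) (.e (nat_lit 557068) (nat_lit 9) .nil))))) (.g (nat_lit 0) (.e (nat_lit 188995) (nat_lit 0) .nil) .nil))) 
(.lf (nat_lit 508873) (.g (nat_lit 531) (.e (nat_lit 172078) (nat_lit 7) (.e (nat_lit 409618) (nat_lit 10) (.e (nat_lit 5363) (nat_lit 298) .nil))) (.g (nat_lit 0) (.e (nat_lit 190245) (nat_lit 0) .nil) .nil))))))) (.nd (nat_lit 6) (.nd (nat_lit 7) (.nd (nat_lit 8) (.nd (nat_lit 9) 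
(.lf (nat_lit 507945) (.g (nat_lit 1587) (.e (nat_lit 164402) (nat_lit 256) (.e (nat_lit 57435) (nat_lit 17) (.e (nat_lit 376865) (nat_lit 22) (.e (nat_lit 90158) (nat_lit 11) .nil)))) (.g (nat_lit 0) (.e (nat_lit 188195) (nat_lit 0) .nil) .nil))) 
(.lf (nat_lit 508457) (.g (nat_lit 3167) (.e (nat_lit 172065) (nat_lit 3) (.e (nat_lit 204869) (nat_lit 29) (.e (nat_lit 360474) (nat_lit 8) (.e (nat_lit 557091) (nat_lit 12) .nil)))) (.g (nat_lit 0) (.e (nat_lit 189173) (nat_lit 0) .nil) .nil)))) (.nd (nat_lit 9) 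
(.lf (nat_lit 508201) (.g (nat_lit 2760) (.e (nat_lit 172062) (nat_lit 2) (.e (nat_lit 196666) (nat_lit 13) (.e (nat_lit 65617) (nat_lit 10) (.e (nat_lit 344130) (nat_lit 26) (.e (nat_lit 557090) (nat_lit 12) (.e (nat_lit 163843) (nat_lit 0) (.e (nat_lit 6255) (nat_lit 337) (.e (nat_lit 2620) (nat_lit 164) .nil)))))))) (.g (nat_lit 1) (.e (nat_lit 188696) (nat_lit 0) .nil) .nil))) 
(.lf (nat_lit 508713) (.g (nat_lit 2468) (.e (nat_lit 172067) (nat_lit 3) (.e (nat_lit 204869) (nat_lit 29) (.e (nat_lit 360475) (nat_lit 8) (.e (nat_lit 557089) (nat_lit 12) (.e (nat_lit 163853) (nat_lit 0) .nil))))) (.g (nat_lit 0) (.e (nat_lit 189788) (nat_lit 0) .nil) .nil))))) (.nd (nat_lit 8) (.nd (nat_lit 9) 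
(.lf (nat_lit 508073) (.g (nat_lit 1413) (.e (nat_lit 164403) (nat_lit 256) (.e (nat_lit 57406) (nat_lit 12) (.e (nat_lit 336444) (nat_lit 32) (.e (nat_lit 466974) (nat_lit 22) (.e (nat_lit 196654) (nat_lit 11) .nil))))) (.g (nat_lit 0) (.e (nat_lit 188349) (nat_lit 0) .nil) .nil))) 
(.lf (nat_lit 508585) (.g (nat_lit 1192) (.e (nat_lit 172067) (nat_lit 3) (.e (nat_lit 204846) (nat_lit 24) (.e (nat_lit 319505) (nat_lit 10) (.e (nat_lit 5395) (nat_lit 301) .nil)))) (.g (nat_lit 0) (.e (nat_lit 189444) (nat_lit 0) .nil) .nil)))) (.nd (nat_lit 9) 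
(.lf (nat_lit 508329) (.g (nat_lit 1083) (.e (nat_lit 172064) (nat_lit 2) (.e (nat_lit 196666) (nat_lit 13) (.e (nat_lit 65617) (nat_lit 10) (.e (nat_lit 344127) (nat_lit 26) .nil)))) (.g (nat_lit 0) (.e (nat_lit 188963) (nat_lit 0) .nil) .nil))) 
(.lf (nat_lit 508841) (.g (nat_lit 2345) (.e (nat_lit 172076) (nat_lit 6) (.e (nat_lit 253991) (nat_lit 11) (.e (nat_lit 16466) (nat_lit 13) (.e (nat_lit 483346) (nat_lit 17) (.e (nat_lit 7936) (nat_lit 361) .nil))))) (.g (nat_lit 0) (.e (nat_lit 190101) (nat_lit 0) .nil) .nil)))))) (.nd (nat_lit 7) (.nd (nat_lit 8) (.nd (nat_lit 9) 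
(.lf (nat_lit 508009) (.g (nat_lit 2620) (.e (nat_lit 164403) (nat_lit 256) (.e (nat_lit 57377) (nat_lit 3) (.e (nat_lit 98358) (nat_lit 26) (.e (nat_lit 426323) (nat_lit 13) (.e (nat_lit 483337) (nat_lit 9) .nil))))) (.g (nat_lit 0) (.e (nat_lit 188275) (nat_lit 0) .nil) .nil))) 
(.lf (nat_lit 508521) (.g (nat_lit 2153) (.e (nat_lit 172066) (nat_lit 3) (.e (nat_lit 204868) (nat_lit 29) (.e (nat_lit 360475) (nat_lit 8) (.e (nat_lit 557091) (nat_lit 12) .nil)))) (.g (nat_lit 0) (.e (nat_lit 189319) (nat_lit 0) .nil) .nil)))) (.nd (nat_lit 9) 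
(.lf (nat_lit 508265) (.g (nat_lit 3438) (.e (nat_lit 172064) (nat_lit 2) (.e (nat_lit 196666) (nat_lit 13) (.e (nat_lit 65610) (nat_lit 10) (.e (nat_lit 344117) (nat_lit 21) (.e (nat_lit 516097) (nat_lit 0) (.e (nat_lit 3342) (nat_lit 205) (.e (nat_lit 598059) (nat_lit 16) .nil))))))) (.g (nat_lit 1) (.e (nat_lit 188809) (nat_lit 0) .nil) .nil))) 
(.lf (nat_lit 508777) (.g (nat_lit 5321) (.e (nat_lit 172070) (nat_lit 4) (.e (nat_lit 229678) (nat_lit 244) (.e (nat_lit 163850) (nat_lit 0) (.e (nat_lit 3304) (nat_lit 202) (.e (nat_lit 573493) (nat_lit 15) (.e (nat_lit 81953) (nat_lit 22) (.e (nat_lit 90170) (nat_lit 13) .nil))))))) (.g (nat_lit 1) (.e (nat_lit 189911) (nat_lit 0) .nil) .nil))))) (.nd (nat_lit 8) (.nd (nat_lit 9) 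
(.lf (nat_lit 508137) (.g (nat_lit 1492) (.e (nat_lit 172059) (nat_lit 1) (.e (nat_lit 164325) (nat_lit 230) (.e (nat_lit 163861) (nat_lit 1) (.e (nat_lit 164398) (nat_lit 256) .nil)))) (.g (nat_lit 0) (.e (nat_lit 188523) (nat_lit 0) .nil) .nil))) 
(.lf (nat_lit 508649) (.g (nat_lit 3459) (.e (nat_lit 172067) (nat_lit 3) (.e (nat_lit 204868) (nat_lit 29) (.e (nat_lit 360473) (nat_lit 8) (.e (nat_lit 557090) (nat_lit 12) (.e (nat_lit 164020) (nat_lit 45) (.e (nat_lit 696343) (nat_lit 8) .nil)))))) (.g (nat_lit 1) (.e (nat_lit 189661) (nat_lit 0) .nil) .nil)))) (.nd (nat_lit 9) 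
(.lf (nat_lit 508393) (.g (nat_lit 1541) (.e (nat_lit 172065) (nat_lit 3) (.e (nat_lit 204838) (nat_lit 20) (.e (nat_lit 114719) (nat_lit 23) (.e (nat_lit 98333) (nat_lit 18) (.e (nat_lit 164399) (nat_lit 256) .nil))))) (.g (nat_lit 0) (.e (nat_lit 189036) (nat_lit 0) .nil) .nil))) 
(.lf (nat_lit 508905) (.g (nat_lit 3739) (.e (nat_lit 172078) (nat_lit 7) (.e (nat_lit 409649) (nat_lit 18) (.e (nat_lit 303140) (nat_lit 10) (.e (nat_lit 434275) (nat_lit 39) (.e (nat_lit 663580) (nat_lit 9) (.e (nat_lit 2478) (nat_lit 157) (.e (nat_lit 3464) (nat_lit 217) (.e (nat_lit 696344) (nat_lit 8) .nil)))))))) (.g (nat_lit 1) (.e (nat_lit 190297) (nat_lit 0) .nil) .nil)))))))) 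
(.nd (nat_lit 5) (.nd (nat_lit 6) (.nd (nat_lit 7) (.nd (nat_lit 8) (.nd (nat_lit 9) 
(.lf (nat_lit 507929) (.g (nat_lit 912) (.e (nat_lit 164402) (nat_lit 256) (.e (nat_lit 57424) (nat_lit 14) (.e (nat_lit 352320) (nat_lit 25) .nil))) (.g (nat_lit 0) (.e (nat_lit 188179) (nat_lit 0) .nil) .nil))) 
(.lf (nat_lit 508441) (.g (nat_lit 4008) (.e (nat_lit 172065) (nat_lit 3) (.e (nat_lit 204868) (nat_lit 29) (.e (nat_lit 360475) (nat_lit 8) (.e (nat_lit 557089) (nat_lit 12) (.e (nat_lit 163849) (nat_lit 0) (.e (nat_lit 6255) (nat_lit 337) (.e (nat_lit 2630) (nat_lit 164) .nil))))))) (.g (nat_lit 1) (.e (nat_lit 189152) (nat_lit 0) .nil) .nil)))) (.nd (nat_lit 9) 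
(.lf (nat_lit 508185) (.g (nat_lit 2003) (.e (nat_lit 172062) (nat_lit 2) (.e (nat_lit 196666) (nat_lit 13) (.e (nat_lit 65610) (nat_lit 10) (.e (nat_lit 344129) (nat_lit 26) (.e (nat_lit 557090) (nat_lit 12) (.e (nat_lit 163847) (nat_lit 0) (.e (nat_lit 6255) (nat_lit 337) (.e (nat_lit 2622) (nat_lit 164) .nil)))))))) (.g (nat_lit 1) (.e (nat_lit 188677) (nat_lit 0) .nil) .nil))) 
(.lf (nat_lit 508697) (.g (nat_lit 2789) (.e (nat_lit 172067) (nat_lit 3) (.e (nat_lit 204869) (nat_lit 29) (.e (nat_lit 360475) (nat_lit 8) (.e (nat_lit 557068) (nat_lit 9) .nil)))) (.g (nat_lit 0) (.e (nat_lit 189758) (nat_lit 0) .nil) .nil))))) (.nd (nat_lit 8) (.nd (nat_lit 9) 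
(.lf (nat_lit 508057) (.g (nat_lit 2303) (.e (nat_lit 164403) (nat_lit 256) (.e (nat_lit 57378) (nat_lit 3) (.e (nat_lit 98376) (nat_lit 30) (.e (nat_lit 458789) (nat_lit 23) (.e (nat_lit 532515) (nat_lit 3) (.e (nat_lit 114716) (nat_lit 22) (.e (nat_lit 90137) (nat_lit 9) (.e (nat_lit 2607) (nat_lit 163) .nil)))))))) (.g (nat_lit 1) (.e (nat_lit 188333) (nat_lit 0) .nil) .nil))) 
(.lf (nat_lit 508569) (.g (nat_lit 2305) (.e (nat_lit 172067) (nat_lit 3) (.e (nat_lit 204838) (nat_lit 20) (.e (nat_lit 114718) (nat_lit 23) (.e (nat_lit 98333) (nat_lit 18) (.e (nat_lit 164403) (nat_lit 256) .nil))))) (.g (nat_lit 0) (.e (nat_lit 189423) (nat_lit 0) .nil) .nil)))) (.nd (nat_lit 9) 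
(.lf (nat_lit 508313) (.g (nat_lit 3337) (.e (nat_lit 172064) (nat_lit 2) (.e (nat_lit 196666) (nat_lit 13) (.e (nat_lit 65610) (nat_lit 10) (.e (nat_lit 344129) (nat_lit 26) (.e (nat_lit 557090) (nat_lit 12) (.e (nat_lit 163843) (nat_lit 0) (.e (nat_lit 6374) (nat_lit 337) (.e (nat_lit 2628) (nat_lit 164) .nil)))))))) (.g (nat_lit 1) (.e (nat_lit 188946) (nat_lit 0) .nil) .nil))) 
(.lf (nat_lit 508825) (.g (nat_lit 1035) (.e (nat_lit 172076) (nat_lit 6) (.e (nat_lit 253989) (nat_lit 11) (.e (nat_lit 16433) (nat_lit 9) (.e (nat_lit 426550) (nat_lit 31) .nil)))) (.g (nat_lit 0) (.e (nat_lit 190065) (nat_lit 0) .nil) .nil)))))) (.nd (nat_lit 7) (.nd (nat_lit 8) (.nd (nat_lit 9) 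
(.lf (nat_lit 507993) (.g (nat_lit 5040) (.e (nat_lit 164403) (nat_lit 256) (.e (nat_lit 57373) (nat_lit 2) (.e (nat_lit 90174) (nat_lit 14) (.e (nat_lit 180251) (nat_lit 10) (.e (nat_lit 573489) (nat_lit 14) (.e (nat_lit 73755) (nat_lit 8) (.e (nat_lit 557067) (nat_lit 9) (.e (nat_lit 2598) (nat_lit 163) .nil)))))))) (.g (nat_lit 1) (.e (nat_lit 188259) (nat_lit 0) .nil) .nil))) 
(.lf (nat_lit 508505) (.g (nat_lit 2796) (.e (nat_lit 172066) (nat_lit 3) (.e (nat_lit 204846) (nat_lit 24) (.e (nat_lit 319533) (nat_lit 16) (.e (nat_lit 286735) (nat_lit 3) (.e (nat_lit 98323) (nat_lit 17) (.e (nat_lit 7936) (nat_lit 392) .nil)))))) (.g (nat_lit 1) (.e (nat_lit 189284) (nat_lit 0) .nil) .nil)))) (.nd (nat_lit 9) 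
(.lf (nat_lit 508249) (.g (nat_lit 2461) (.e (nat_lit 172063) (nat_lit 2) (.e (nat_lit 196666) (nat_lit 13) (.e (nat_lit 65617) (nat_lit 10) (.e (nat_lit 344133) (nat_lit 26) (.e (nat_lit 557091) (nat_lit 12) .nil))))) (.g (nat_lit 0) (.e (nat_lit 188760) (nat_lit 0) .nil) .nil))) 
(.lf (nat_lit 508761) (.g (nat_lit 4572) (.e (nat_lit 172068) (nat_lit 4) (.e (nat_lit 229663) (nat_lit 240) (.e (nat_lit 2612) (nat_lit 163) (.e (nat_lit 163977) (nat_lit 30) (.e (nat_lit 573491) (nat_lit 15) (.e (nat_lit 81951) (nat_lit 22) (.e (nat_lit 90170) (nat_lit 13) .nil))))))) (.g (nat_lit 1) (.e (nat_lit 189881) (nat_lit 0) .nil) .nil))))) (.nd (nat_lit 8) (.nd (nat_lit 9) 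
(.lf (nat_lit 508121) (.g (nat_lit 2414) (.e (nat_lit 172046) (nat_lit 0) (.e (nat_lit 3238) (nat_lit 197) (.e (nat_lit 532490) (nat_lit 0) (.e (nat_lit 2391) (nat_lit 156) (.e (nat_lit 819204) (nat_lit 0) .nil))))) (.g (nat_lit 0) (.e (nat_lit 188456) (nat_lit 0) .nil) .nil))) 
(.lf (nat_lit 508633) (.g (nat_lit 1141) (.e (nat_lit 172067) (nat_lit 3) (.e (nat_lit 204855) (nat_lit 26) (.e (nat_lit 336176) (nat_lit 10) (.e (nat_lit 344127) (nat_lit 26) .nil)))) (.g (nat_lit 0) (.e (nat_lit 189546) (nat_lit 0) .nil) .nil)))) (.nd (nat_lit 9) 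
(.lf (nat_lit 508377) (.g (nat_lit 2618) (.e (nat_lit 172064) (nat_lit 2) (.e (nat_lit 196666) (nat_lit 13) (.e (nat_lit 65617) (nat_lit 10) (.e (nat_lit 344133) (nat_lit 26) (.e (nat_lit 557091) (nat_lit 12) (.e (nat_lit 164019) (nat_lit 45) (.e (nat_lit 696342) (nat_lit 8) .nil))))))) (.g (nat_lit 1) (.e (nat_lit 189011) (nat_lit 0) .nil) .nil))) 
(.lf (nat_lit 508889) (.g (nat_lit 2485) (.e (nat_lit 172078) (nat_lit 7) (.e (nat_lit 409646) (nat_lit 18) (.e (nat_lit 303140) (nat_lit 10) (.e (nat_lit 434202) (nat_lit 18) (.e (nat_lit 5968) (nat_lit 324) .nil))))) (.g (nat_lit 0) (.e (nat_lit 190270) (nat_lit 0) .nil) .nil))))))) (.nd (nat_lit 6) (.nd (nat_lit 7) (.nd (nat_lit 8) (.nd (nat_lit 9) 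
(.lf (nat_lit 507961) (.g (nat_lit 4318) (.e (nat_lit 164403) (nat_lit 256) (.e (nat_lit 57371) (nat_lit 2) (.e (nat_lit 90174) (nat_lit 14) (.e (nat_lit 180243) (nat_lit 5) (.e (nat_lit 532515) (nat_lit 3) (.e (nat_lit 114716) (nat_lit 22) (.e (nat_lit 90140) (nat_lit 9) (.e (nat_lit 2610) (nat_lit 163) .nil)))))))) (.g (nat_lit 1) (.e (nat_lit 188222) (nat_lit 0) .nil) .nil))) 
(.lf (nat_lit 508473) (.g (nat_lit 2673) (.e (nat_lit 172065) (nat_lit 3) (.e (nat_lit 204869) (nat_lit 29) (.e (nat_lit 360475) (nat_lit 8) (.e (nat_lit 557094) (nat_lit 12) .nil)))) (.g (nat_lit 0) (.e (nat_lit 189189) (nat_lit 0) .nil) .nil)))) (.nd (nat_lit 9) 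
(.lf (nat_lit 508217) (.g (nat_lit 2114) (.e (nat_lit 172062) (nat_lit 2) (.e (nat_lit 196666) (nat_lit 13) (.e (nat_lit 65617) (nat_lit 10) (.e (nat_lit 344133) (nat_lit 26) (.e (nat_lit 557089) (nat_lit 12) .nil))))) (.g (nat_lit 0) (.e (nat_lit 188712) (nat_lit 0) .nil) .nil))) 
(.lf (nat_lit 508729) (.g (nat_lit 3956) (.e (nat_lit 172067) (nat_lit 3) (.e (nat_lit 204869) (nat_lit 29) (.e (nat_lit 360475) (nat_lit 8) (.e (nat_lit 557091) (nat_lit 12) (.e (nat_lit 163843) (nat_lit 0) (.e (nat_lit 6255) (nat_lit 337) (.e (nat_lit 2620) (nat_lit 164) .nil))))))) (.g (nat_lit 1) (.e (nat_lit 189809) (nat_lit 0) .nil) .nil))))) (.nd (nat_lit 8) (.nd (nat_lit 9) 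
(.lf (nat_lit 508089) (.g (nat_lit 1691) (.e (nat_lit 172033) (nat_lit 0) (.e (nat_lit 6989) (nat_lit 377) (.e (nat_lit 2779) (nat_lit 178) (.e (nat_lit 286771) (nat_lit 29) .nil)))) (.g (nat_lit 0) (.e (nat_lit 188379) (nat_lit 0) .nil) .nil))) 
(.lf (nat_lit 508601) (.g (nat_lit 3164) (.e (nat_lit 172067) (nat_lit 3) (.e (nat_lit 204846) (nat_lit 24) (.e (nat_lit 319531) (nat_lit 16) (.e (nat_lit 286735) (nat_lit 3) (.e (nat_lit 98321) (nat_lit 17) (.e (nat_lit 7936) (nat_lit 392) .nil)))))) (.g (nat_lit 1) (.e (nat_lit 189468) (nat_lit 0) .nil) .nil)))) (.nd (nat_lit 9) 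
(.lf (nat_lit 508345) (.g (nat_lit 4393) (.e (nat_lit 172064) (nat_lit 2) (.e (nat_lit 196666) (nat_lit 13) (.e (nat_lit 65617) (nat_lit 10) (.e (nat_lit 344130) (nat_lit 26) (.e (nat_lit 557090) (nat_lit 12) (.e (nat_lit 163844) (nat_lit 0) (.e (nat_lit 6252) (nat_lit 337) (.e (nat_lit 2630) (nat_lit 164) .nil)))))))) (.g (nat_lit 1) (.e (nat_lit 188979) (nat_lit 0) .nil) .nil))) 
(.lf (nat_lit 508857) (.g (nat_lit 400) (.e (nat_lit 172076) (nat_lit 6) (.e (nat_lit 253992) (nat_lit 11) (.e (nat_lit 16466) (nat_lit 13) .nil))) (.g (nat_lit 0) (.e (nat_lit 190137) (nat_lit 0) .nil) .nil)))))) (.nd (nat_lit 7) (.nd (nat_lit 8) (.nd (nat_lit 9) 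
(.lf (nat_lit 508025) (.g (nat_lit 1797) (.e (nat_lit 164403) (nat_lit 256) (.e (nat_lit 57378) (nat_lit 3) (.e (nat_lit 98359) (nat_lit 26) (.e (nat_lit 426132) (nat_lit 3) .nil)))) (.g (nat_lit 0) (.e (nat_lit 188300) (nat_lit 0) .nil) .nil))) 
(.lf (nat_lit 508537) (.g (nat_lit 2592) (.e (nat_lit 172066) (nat_lit 3) (.e (nat_lit 204869) (nat_lit 29) (.e (nat_lit 360475) (nat_lit 8) (.e (nat_lit 557089) (nat_lit 12) (.e (nat_lit 163853) (nat_lit 0) .nil))))) (.g (nat_lit 0) (.e (nat_lit 189344) (nat_lit 0) .nil) .nil)))) (.nd (nat_lit 9) 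
(.lf (nat_lit 508281) (.g (nat_lit 3235) (.e (nat_lit 172064) (nat_lit 2) (.e (nat_lit 196666) (nat_lit 13) (.e (nat_lit 65610) (nat_lit 10) (.e (nat_lit 344117) (nat_lit 21) (.e (nat_lit 516106) (nat_lit 0) (.e (nat_lit 2425) (nat_lit 157) (.e (nat_lit 4516) (nat_lit 263) (.e (nat_lit 2618) (nat_lit 164) .nil)))))))) (.g (nat_lit 1) (.e (nat_lit 188829) (nat_lit 0) .nil) .nil))) 
(.lf (nat_lit 508793) (.g (nat_lit 1969) (.e (nat_lit 172074) (nat_lit 6) (.e (nat_lit 253991) (nat_lit 11) (.e (nat_lit 16462) (nat_lit 13) (.e (nat_lit 483346) (nat_lit 17) (.e (nat_lit 6718) (nat_lit 361) .nil))))) (.g (nat_lit 1) (.e (nat_lit 189978) (nat_lit 0) .nil) .nil))))) (.nd (nat_lit 8) (.nd (nat_lit 9) 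
(.lf (nat_lit 508153) (.g (nat_lit 2479) (.e (nat_lit 172059) (nat_lit 1) (.e (nat_lit 164403) (nat_lit 256) (.e (nat_lit 57445) (nat_lit 19) (.e (nat_lit 393234) (nat_lit 17) (.e (nat_lit 7581) (nat_lit 405) .nil))))) (.g (nat_lit 0) (.e (nat_lit 188544) (nat_lit 0) .nil) .nil))) 
(.lf (nat_lit 508665) (.g (nat_lit 5483) (.e (nat_lit 172067) (nat_lit 3) (.e (nat_lit 204868) (nat_lit 29) (.e (nat_lit 360475) (nat_lit 8) (.e (nat_lit 557091) (nat_lit 12) (.e (nat_lit 163843) (nat_lit 0) (.e (nat_lit 6254) (nat_lit 337) (.e (nat_lit 2630) (nat_lit 164) .nil))))))) (.g (nat_lit 1) (.e (nat_lit 189702) (nat_lit 0) .nil) .nil)))) (.nd (nat_lit 9) 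
(.lf (nat_lit 508409) (.g (nat_lit 2681) (.e (nat_lit 172065) (nat_lit 3) (.e (nat_lit 204846) (nat_lit 24) (.e (nat_lit 319533) (nat_lit 16) (.e (nat_lit 286735) (nat_lit 3) (.e (nat_lit 98323) (nat_lit 17) .nil))))) (.g (nat_lit 0) (.e (nat_lit 189052) (nat_lit 0) .nil) .nil))) 
(.lf (nat_lit 508921) (.g (nat_lit 2349) (.e (nat_lit 172079) (nat_lit 7) (.e (nat_lit 409638) (nat_lit 15) (.e (nat_lit 278566) (nat_lit 16) (.e (nat_lit 286754) (nat_lit 10) (.e (nat_lit 344156) (nat_lit 36) (.e (nat_lit 638998) (nat_lit 8) .nil)))))) (.g (nat_lit 1) (.e (nat_lit 190340) (nat_lit 0) .nil) .nil)))))))))) 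
(.nd (nat_lit 3) (.nd (nat_lit 4) (.nd (nat_lit 5) (.nd (nat_lit 6) (.nd (nat_lit 7) 
(.nd (nat_lit 8) (.nd (nat_lit 9) 
(.lf (nat_lit 507909) (.g (nat_lit 932) (.e (nat_lit 164402) (nat_lit 256) (.e (nat_lit 57378) (nat_lit 3) (.e (nat_lit 98369) (nat_lit 28) (.e (nat_lit 450304) (nat_lit 18) .nil)))) (.g (nat_lit 0) (.e (nat_lit 188159) (nat_lit 0) .nil) .nil))) 
(.lf (nat_lit 508421) (.g (nat_lit 2054) (.e (nat_lit 172065) (nat_lit 3) (.e (nat_lit 204855) (nat_lit 26) (.e (nat_lit 336176) (nat_lit 10) (.e (nat_lit 344132) (nat_lit 26) (.e (nat_lit 557089) (nat_lit 12) .nil))))) (.g (nat_lit 0) (.e (nat_lit 189089) (nat_lit 0) .nil) .nil)))) (.nd (nat_lit 9) 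
(.lf (nat_lit 508165) (.g (nat_lit 4449) (.e (nat_lit 172062) (nat_lit 2) (.e (nat_lit 196666) (nat_lit 13) (.e (nat_lit 65610) (nat_lit 10) (.e (nat_lit 344128) (nat_lit 26) (.e (nat_lit 557090) (nat_lit 12) (.e (nat_lit 164020) (nat_lit 45) (.e (nat_lit 696344) (nat_lit 8) .nil))))))) (.g (nat_lit 1) (.e (nat_lit 188649) (nat_lit 0) .nil) .nil))) 
(.lf (nat_lit 508677) (.g (nat_lit 2576) (.e (nat_lit 172067) (nat_lit 3) (.e (nat_lit 204869) (nat_lit 29) (.e (nat_lit 360474) (nat_lit 8) (.e (nat_lit 557088) (nat_lit 12) .nil)))) (.g (nat_lit 0) (.e (nat_lit 189734) (nat_lit 0) .nil) .nil))))) (.nd (nat_lit 8) (.nd (nat_lit 9) 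
(.lf (nat_lit 508037) (.g (nat_lit 3425) (.e (nat_lit 164403) (nat_lit 256) (.e (nat_lit 57378) (nat_lit 3) (.e (nat_lit 98366) (nat_lit 27) (.e (nat_lit 434231) (nat_lit 23) (.e (nat_lit 532483) (nat_lit 0) .nil))))) (.g (nat_lit 0) (.e (nat_lit 188313) (nat_lit 0) .nil) .nil))) 
(.lf (nat_lit 508549) (.g (nat_lit 3373) (.e (nat_lit 172066) (nat_lit 3) (.e (nat_lit 204869) (nat_lit 29) (.e (nat_lit 360475) (nat_lit 8) (.e (nat_lit 557091) (nat_lit 12) (.e (nat_lit 163844) (nat_lit 0) (.e (nat_lit 6254) (nat_lit 337) (.e (nat_lit 2622) (nat_lit 164) .nil))))))) (.g (nat_lit 1) (.e (nat_lit 189373) (nat_lit 0) .nil) .nil)))) (.nd (nat_lit 9) 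
(.lf (nat_lit 508293) (.g (nat_lit 4647) (.e (nat_lit 172064) (nat_lit 2) (.e (nat_lit 196666) (nat_lit 13) (.e (nat_lit 65610) (nat_lit 10) (.e (nat_lit 344127) (nat_lit 26) (.e (nat_lit 557090) (nat_lit 12) (.e (nat_lit 164020) (nat_lit 45) (.e (nat_lit 696344) (nat_lit 8) .nil))))))) (.g (nat_lit 1) (.e (nat_lit 188896) (nat_lit 0) .nil) .nil))) 
(.lf (nat_lit 508805) (.g (nat_lit 1081) (.e (nat_lit 172074) (nat_lit 6) (.e (nat_lit 253992) (nat_lit 11) (.e (nat_lit 16463) (nat_lit 13) (.e (nat_lit 483345) (nat_lit 17) .nil)))) (.g (nat_lit 0) (.e (nat_lit 190006) (nat_lit 0) .nil) .nil)))))) (.nd (nat_lit 7) (.nd (nat_lit 8) (.nd (nat_lit 9) 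
(.lf (nat_lit 507973) (.g (nat_lit 1082) (.e (nat_lit 164403) (nat_lit 256) (.e (nat_lit 57373) (nat_lit 2) (.e (nat_lit 90168) (nat_lit 13) (.e (nat_lit 172123) (nat_lit 13) (.e (nat_lit 483337) (nat_lit 9) .nil))))) (.g (nat_lit 0) (.e (nat_lit 188239) (nat_lit 0) .nil) .nil))) 
(.lf (nat_lit 508485) (.g (nat_lit 2568) (.e (nat_lit 172066) (nat_lit 3) (.e (nat_lit 204845) (nat_lit 24) (.e (nat_lit 319529) (nat_lit 16) (.e (nat_lit 286735) (nat_lit 3) (.e (nat_lit 98323) (nat_lit 17) (.e (nat_lit 7936) (nat_lit 392) .nil)))))) (.g (nat_lit 1) (.e (nat_lit 189257) (nat_lit 0) .nil) .nil)))) (.nd (nat_lit 9) 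
(.lf (nat_lit 508229) (.g (nat_lit 4406) (.e (nat_lit 172062) (nat_lit 2) (.e (nat_lit 196666) (nat_lit 13) (.e (nat_lit 65617) (nat_lit 10) (.e (nat_lit 344133) (nat_lit 26) (.e (nat_lit 557091) (nat_lit 12) (.e (nat_lit 163849) (nat_lit 0) (.e (nat_lit 6255) (nat_lit 337) (.e (nat_lit 2630) (nat_lit 164) .nil)))))))) (.g (nat_lit 1) (.e (nat_lit 188724) (nat_lit 0) .nil) .nil))) 
(.lf (nat_lit 508741) (.g (nat_lit 2497) (.e (nat_lit 172067) (nat_lit 3) (.e (nat_lit 204869) (nat_lit 29) (.e (nat_lit 360475) (nat_lit 8) (.e (nat_lit 557091) (nat_lit 12) (.e (nat_lit 164017) (nat_lit 44) .nil))))) (.g (nat_lit 0) (.e (nat_lit 189827) (nat_lit 0) .nil) .nil))))) (.nd (nat_lit 8) (.nd (nat_lit 9) 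
(.lf (nat_lit 508101) (.g (nat_lit 1506) (.e (nat_lit 172036) (nat_lit 0) (.e (nat_lit 6989) (nat_lit 377) (.e (nat_lit 2779) (nat_lit 178) (.e (nat_lit 286771) (nat_lit 29) .nil)))) (.g (nat_lit 0) (.e (nat_lit 188397) (nat_lit 0) .nil) .nil))) 
(.lf (nat_lit 508613) (.g (nat_lit 2843) (.e (nat_lit 172067) (nat_lit 3) (.e (nat_lit 204846) (nat_lit 24) (.e (nat_lit 319534) (nat_lit 16) (.e (nat_lit 286732) (nat_lit 2) (.e (nat_lit 90165) (nat_lit 12) (.e (nat_lit 171776) (nat_lit 205) .nil)))))) (.g (nat_lit 1) (.e (nat_lit 189490) (nat_lit 0) .nil) .nil)))) (.nd (nat_lit 9) 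
(.lf (nat_lit 508357) (.g (nat_lit 2413) (.e (nat_lit 172064) (nat_lit 2) (.e (nat_lit 196666) (nat_lit 13) (.e (nat_lit 65617) (nat_lit 10) (.e (nat_lit 344132) (nat_lit 26) (.e (nat_lit 557093) (nat_lit 12) (.e (nat_lit 164018) (nat_lit 45) (.e (nat_lit 696342) (nat_lit 8) .nil))))))) (.g (nat_lit 1) (.e (nat_lit 188991) (nat_lit 0) .nil) .nil))) 
(.lf (nat_lit 508869) (.g (nat_lit 732) (.e (nat_lit 172077) (nat_lit 7) (.e (nat_lit 409649) (nat_lit 18) (.e (nat_lit 303140) (nat_lit 10) .nil))) (.g (nat_lit 0) (.e (nat_lit 190211) (nat_lit 0) .nil) .nil))))))) (.nd (nat_lit 6) (.nd (nat_lit 7) (.nd (nat_lit 8) (.nd (nat_lit 9) 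
(.lf (nat_lit 507941) (.g (nat_lit 3760) (.e (nat_lit 164402) (nat_lit 256) (.e (nat_lit 57427) (nat_lit 15) (.e (nat_lit 360475) (nat_lit 8) (.e (nat_lit 557090) (nat_lit 12) (.e (nat_lit 164003) (nat_lit 40) .nil))))) (.g (nat_lit 0) (.e (nat_lit 188191) (nat_lit 0) .nil) .nil))) 
(.lf (nat_lit 508453) (.g (nat_lit 4594) (.e (nat_lit 172065) (nat_lit 3) (.e (nat_lit 204869) (nat_lit 29) (.e (nat_lit 360472) (nat_lit 8) (.e (nat_lit 557090) (nat_lit 12) (.e (nat_lit 164020) (nat_lit 45) (.e (nat_lit 696343) (nat_lit 8) .nil)))))) (.g (nat_lit 1) (.e (nat_lit 189169) (nat_lit 0) .nil) .nil)))) (.nd (nat_lit 9) 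
(.lf (nat_lit 508197) (.g (nat_lit 4095) (.e (nat_lit 172062) (nat_lit 2) (.e (nat_lit 196666) (nat_lit 13) (.e (nat_lit 65617) (nat_lit 10) (.e (nat_lit 344127) (nat_lit 26) (.e (nat_lit 557090) (nat_lit 12) (.e (nat_lit 163844) (nat_lit 0) (.e (nat_lit 6374) (nat_lit 337) (.e (nat_lit 2628) (nat_lit 164) .nil)))))))) (.g (nat_lit 1) (.e (nat_lit 188690) (nat_lit 0) .nil) .nil))) 
(.lf (nat_lit 508709) (.g (nat_lit 2921) (.e (nat_lit 172067) (nat_lit 3) (.e (nat_lit 204869) (nat_lit 29) (.e (nat_lit 360475) (nat_lit 8) (.e (nat_lit 557089) (nat_lit 12) (.e (nat_lit 163849) (nat_lit 0) (.e (nat_lit 6255) (nat_lit 337) (.e (nat_lit 2620) (nat_lit 164) .nil))))))) (.g (nat_lit 1) (.e (nat_lit 189784) (nat_lit 0) .nil) .nil))))) (.nd (nat_lit 8) (.nd (nat_lit 9) 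
(.lf (nat_lit 508069) (.g (nat_lit 2017) (.e (nat_lit 164403) (nat_lit 256) (.e (nat_lit 57406) (nat_lit 12) (.e (nat_lit 336433) (nat_lit 30) (.e (nat_lit 450588) (nat_lit 10) (.e (nat_lit 581376) (nat_lit 4) .nil))))) (.g (nat_lit 0) (.e (nat_lit 188345) (nat_lit 0) .nil) .nil))) 
(.lf (nat_lit 508581) (.g (nat_lit 2835) (.e (nat_lit 172067) (nat_lit 3) (.e (nat_lit 204845) (nat_lit 24) (.e (nat_lit 319531) (nat_lit 16) (.e (nat_lit 286733) (nat_lit 2) (.e (nat_lit 90165) (nat_lit 12) (.e (nat_lit 171776) (nat_lit 205) .nil)))))) (.g (nat_lit 1) (.e (nat_lit 189436) (nat_lit 0) .nil) .nil)))) (.nd (nat_lit 9) 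
(.lf (nat_lit 508325) (.g (nat_lit 2644) (.e (nat_lit 172064) (nat_lit 2) (.e (nat_lit 196666) (nat_lit 13) (.e (nat_lit 65610) (nat_lit 10) (.e (nat_lit 344129) (nat_lit 26) (.e (nat_lit 557090) (nat_lit 12) (.e (nat_lit 164020) (nat_lit 45) (.e (nat_lit 696342) (nat_lit 8) .nil))))))) (.g (nat_lit 1) (.e (nat_lit 188958) (nat_lit 0) .nil) .nil))) 
(.lf (nat_lit 508837) (.g (nat_lit 435) (.e (nat_lit 172076) (nat_lit 6) (.e (nat_lit 253991) (nat_lit 11) (.e (nat_lit 16466) (nat_lit 13) .nil))) (.g (nat_lit 0) (.e (nat_lit 190097) (nat_lit 0) .nil) .nil)))))) (.nd (nat_lit 7) (.nd (nat_lit 8) (.nd (nat_lit 9) 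
(.lf (nat_lit 508005) (.g (nat_lit 1923) (.e (nat_lit 164403) (nat_lit 256) (.e (nat_lit 57377) (nat_lit 3) (.e (nat_lit 98356) (nat_lit 26) (.e (nat_lit 426323) (nat_lit 13) .nil)))) (.g (nat_lit 0) (.e (nat_lit 188271) (nat_lit 0) .nil) .nil))) 
(.lf (nat_lit 508517) (.g (nat_lit 2040) (.e (nat_lit 172066) (nat_lit 3) (.e (nat_lit 204868) (nat_lit 29) (.e (nat_lit 360473) (nat_lit 8) (.e (nat_lit 557089) (nat_lit 12) (.e (nat_lit 163844) (nat_lit 0) .nil))))) (.g (nat_lit 0) (.e (nat_lit 189315) (nat_lit 0) .nil) .nil)))) (.nd (nat_lit 9) 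
(.lf (nat_lit 508261) (.g (nat_lit 4114) (.e (nat_lit 172064) (nat_lit 2) (.e (nat_lit 196666) (nat_lit 13) (.e (nat_lit 65610) (nat_lit 10) (.e (nat_lit 344117) (nat_lit 21) (.e (nat_lit 516097) (nat_lit 0) (.e (nat_lit 2431) (nat_lit 157) (.e (nat_lit 4516) (nat_lit 263) (.e (nat_lit 2619) (nat_lit 164) .nil)))))))) (.g (nat_lit 1) (.e (nat_lit 188805) (nat_lit 0) .nil) .nil))) 
(.lf (nat_lit 508773) (.g (nat_lit 4277) (.e (nat_lit 172070) (nat_lit 4) (.e (nat_lit 229663) (nat_lit 240) (.e (nat_lit 2612) (nat_lit 163) (.e (nat_lit 163978) (nat_lit 30) (.e (nat_lit 573479) (nat_lit 13) (.e (nat_lit 65604) (nat_lit 9) (.e (nat_lit 336013) (nat_lit 2) (.e (nat_lit 90170) (nat_lit 13) .nil)))))))) (.g (nat_lit 1) (.e (nat_lit 189895) (nat_lit 0) .nil) .nil))))) 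
(.nd (nat_lit 8) (.nd (nat_lit 9) 
(.lf (nat_lit 508133) (.g (nat_lit 2566) (.e (nat_lit 172051) (nat_lit 0) (.e (nat_lit 3307) (nat_lit 202) (.e (nat_lit 573484) (nat_lit 13) (.e (nat_lit 65642) (nat_lit 15) .nil)))) (.g (nat_lit 0) (.e (nat_lit 188507) (nat_lit 0) .nil) .nil))) 
(.lf (nat_lit 508645) (.g (nat_lit 4751) (.e (nat_lit 172067) (nat_lit 3) (.e (nat_lit 204868) (nat_lit 29) (.e (nat_lit 360472) (nat_lit 8) (.e (nat_lit 557090) (nat_lit 12) (.e (nat_lit 164020) (nat_lit 45) (.e (nat_lit 696343) (nat_lit 8) .nil)))))) (.g (nat_lit 1) (.e (nat_lit 189649) (nat_lit 0) .nil) .nil)))) (.nd (nat_lit 9) 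
(.lf (nat_lit 508389) (.g (nat_lit 758) (.e (nat_lit 172065) (nat_lit 3) (.e (nat_lit 204838) (nat_lit 20) (.e (nat_lit 114714) (nat_lit 22) .nil))) (.g (nat_lit 0) (.e (nat_lit 189031) (nat_lit 0) .nil) .nil))) 
(.lf (nat_lit 508901) (.g (nat_lit 2390) (.e (nat_lit 172078) (nat_lit 7) (.e (nat_lit 409649) (nat_lit 18) (.e (nat_lit 303140) (nat_lit 10) (.e (nat_lit 434200) (nat_lit 18) (.e (nat_lit 5965) (nat_lit 324) .nil))))) (.g (nat_lit 0) (.e (nat_lit 190292) (nat_lit 0) .nil) .nil)))))))) (.nd (nat_lit 5) (.nd (nat_lit 6) (.nd (nat_lit 7) (.nd (nat_lit 8) (.nd (nat_lit 9) 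
(.lf (nat_lit 507925) (.g (nat_lit 1938) (.e (nat_lit 164402) (nat_lit 256) (.e (nat_lit 57409) (nat_lit 12) (.e (nat_lit 336443) (nat_lit 32) (.e (nat_lit 466977) (nat_lit 22) (.e (nat_lit 196656) (nat_lit 11) .nil))))) (.g (nat_lit 0) (.e (nat_lit 188175) (nat_lit 0) .nil) .nil))) 
(.lf (nat_lit 508437) (.g (nat_lit 3860) (.e (nat_lit 172065) (nat_lit 3) (.e (nat_lit 204868) (nat_lit 29) (.e (nat_lit 360475) (nat_lit 8) (.e (nat_lit 557089) (nat_lit 12) (.e (nat_lit 163843) (nat_lit 0) (.e (nat_lit 6255) (nat_lit 337) (.e (nat_lit 2630) (nat_lit 164) .nil))))))) (.g (nat_lit 1) (.e (nat_lit 189145) (nat_lit 0) .nil) .nil)))) (.nd (nat_lit 9) 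
(.lf (nat_lit 508181) (.g (nat_lit 2209) (.e (nat_lit 172062) (nat_lit 2) (.e (nat_lit 196666) (nat_lit 13) (.e (nat_lit 65610) (nat_lit 10) (.e (nat_lit 344129) (nat_lit 26) (.e (nat_lit 557090) (nat_lit 12) (.e (nat_lit 163844) (nat_lit 0) (.e (nat_lit 6255) (nat_lit 337) (.e (nat_lit 2622) (nat_lit 164) .nil)))))))) (.g (nat_lit 1) (.e (nat_lit 188673) (nat_lit 0) .nil) .nil))) 
(.lf (nat_lit 508693) (.g (nat_lit 2925) (.e (nat_lit 172067) (nat_lit 3) (.e (nat_lit 204869) (nat_lit 29) (.e (nat_lit 360474) (nat_lit 8) (.e (nat_lit 557094) (nat_lit 12) (.e (nat_lit 164018) (nat_lit 45) (.e (nat_lit 696342) (nat_lit 8) .nil)))))) (.g (nat_lit 1) (.e (nat_lit 189750) (nat_lit 0) .nil) .nil))))) (.nd (nat_lit 8) (.nd (nat_lit 9) 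
(.lf (nat_lit 508053) (.g (nat_lit 5072) (.e (nat_lit 164403) (nat_lit 256) (.e (nat_lit 57378) (nat_lit 3) (.e (nat_lit 98368) (nat_lit 27) (.e (nat_lit 434248) (nat_lit 28) (.e (nat_lit 573489) (nat_lit 14) (.e (nat_lit 73755) (nat_lit 8) (.e (nat_lit 557067) (nat_lit 9) (.e (nat_lit 2606) (nat_lit 163) .nil)))))))) (.g (nat_lit 1) (.e (nat_lit 188329) (nat_lit 0) .nil) .nil))) 
(.lf (nat_lit 508565) (.g (nat_lit 1085) (.e (nat_lit 172067) (nat_lit 3) (.e (nat_lit 204830) (nat_lit 18) (.e (nat_lit 57665) (nat_lit 152) (.e (nat_lit 2715) (nat_lit 171) .nil)))) (.g (nat_lit 0) (.e (nat_lit 189415) (nat_lit 0) .nil) .nil)))) (.nd (nat_lit 9) 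
(.lf (nat_lit 508309) (.g (nat_lit 2669) (.e (nat_lit 172064) (nat_lit 2) (.e (nat_lit 196666) (nat_lit 13) (.e (nat_lit 65610) (nat_lit 10) (.e (nat_lit 344129) (nat_lit 26) (.e (nat_lit 557090) (nat_lit 12) (.e (nat_lit 163842) (nat_lit 0) (.e (nat_lit 6371) (nat_lit 337) (.e (nat_lit 2629) (nat_lit 164) .nil)))))))) (.g (nat_lit 1) (.e (nat_lit 188942) (nat_lit 0) .nil) .nil))) 
(.lf (nat_lit 508821) (.g (nat_lit 1314) (.e (nat_lit 172076) (nat_lit 6) (.e (nat_lit 253988) (nat_lit 11) (.e (nat_lit 16465) (nat_lit 13) (.e (nat_lit 483350) (nat_lit 17) .nil)))) (.g (nat_lit 0) (.e (nat_lit 190060) (nat_lit 0) .nil) .nil)))))) (.nd (nat_lit 7) (.nd (nat_lit 8) (.nd (nat_lit 9) 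
(.lf (nat_lit 507989) (.g (nat_lit 4672) (.e (nat_lit 164403) (nat_lit 256) (.e (nat_lit 57373) (nat_lit 2) (.e (nat_lit 90174) (nat_lit 14) (.e (nat_lit 180250) (nat_lit 10) (.e (nat_lit 573489) (nat_lit 14) (.e (nat_lit 73755) (nat_lit 8) (.e (nat_lit 557067) (nat_lit 9) (.e (nat_lit 2598) (nat_lit 163) .nil)))))))) (.g (nat_lit 1) (.e (nat_lit 188255) (nat_lit 0) .nil) .nil))) 
(.lf (nat_lit 508501) (.g (nat_lit 3094) (.e (nat_lit 172066) (nat_lit 3) (.e (nat_lit 204846) (nat_lit 24) (.e (nat_lit 319531) (nat_lit 16) (.e (nat_lit 286733) (nat_lit 2) (.e (nat_lit 90165) (nat_lit 12) .nil))))) (.g (nat_lit 0) (.e (nat_lit 189277) (nat_lit 0) .nil) .nil)))) (.nd (nat_lit 9) 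
(.lf (nat_lit 508245) (.g (nat_lit 2601) (.e (nat_lit 172063) (nat_lit 2) (.e (nat_lit 196666) (nat_lit 13) (.e (nat_lit 65617) (nat_lit 10) (.e (nat_lit 344132) (nat_lit 26) (.e (nat_lit 557093) (nat_lit 12) .nil))))) (.g (nat_lit 0) (.e (nat_lit 188756) (nat_lit 0) .nil) .nil))) 
(.lf (nat_lit 508757) (.g (nat_lit 3454) (.e (nat_lit 179968) (nat_lit 3) (.e (nat_lit 204869) (nat_lit 29) (.e (nat_lit 360475) (nat_lit 8) (.e (nat_lit 557090) (nat_lit 12) .nil)))) (.g (nat_lit 0) (.e (nat_lit 189876) (nat_lit 0) .nil) .nil))))) (.nd (nat_lit 8) (.nd (nat_lit 9) 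
(.lf (nat_lit 508117) (.g (nat_lit 2147) (.e (nat_lit 172042) (nat_lit 0) (.e (nat_lit 3407) (nat_lit 212) (.e (nat_lit 655375) (nat_lit 3) (.e (nat_lit 163979) (nat_lit 30) (.e (nat_lit 573485) (nat_lit 13) .nil))))) (.g (nat_lit 0) (.e (nat_lit 188430) (nat_lit 0) .nil) .nil))) 
(.lf (nat_lit 508629) (.g (nat_lit 836) (.e (nat_lit 172067) (nat_lit 3) (.e (nat_lit 204855) (nat_lit 26) (.e (nat_lit 336171) (nat_lit 10) .nil))) (.g (nat_lit 0) (.e (nat_lit 189542) (nat_lit 0) .nil) .nil)))) (.nd (nat_lit 9) 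
(.lf (nat_lit 508373) (.g (nat_lit 3530) (.e (nat_lit 172064) (nat_lit 2) (.e (nat_lit 196666) (nat_lit 13) (.e (nat_lit 65617) (nat_lit 10) (.e (nat_lit 344133) (nat_lit 26) (.e (nat_lit 557091) (nat_lit 12) (.e (nat_lit 163849) (nat_lit 0) (.e (nat_lit 6252) (nat_lit 337) (.e (nat_lit 2630) (nat_lit 164) .nil)))))))) (.g (nat_lit 1) (.e (nat_lit 189007) (nat_lit 0) .nil) .nil))) 
(.lf (nat_lit 508885) (.g (nat_lit 2243) (.e (nat_lit 172078) (nat_lit 7) (.e (nat_lit 409645) (nat_lit 18) (.e (nat_lit 303143) (nat_lit 12) (.e (nat_lit 475220) (nat_lit 44) (.e (nat_lit 737305) (nat_lit 11) .nil))))) (.g (nat_lit 0) (.e (nat_lit 190264) (nat_lit 0) .nil) .nil))))))) (.nd (nat_lit 6) (.nd (nat_lit 7) (.nd (nat_lit 8) (.nd (nat_lit 9) 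
(.lf (nat_lit 507957) (.g (nat_lit 2880) (.e (nat_lit 164403) (nat_lit 256) (.e (nat_lit 57371) (nat_lit 2) (.e (nat_lit 90174) (nat_lit 14) (.e (nat_lit 180243) (nat_lit 5) (.e (nat_lit 532515) (nat_lit 3) (.e (nat_lit 114716) (nat_lit 22) (.e (nat_lit 90129) (nat_lit 9) (.e (nat_lit 2606) (nat_lit 163) .nil)))))))) (.g (nat_lit 1) (.e (nat_lit 188218) (nat_lit 0) .nil) .nil))) 
(.lf (nat_lit 508469) (.g (nat_lit 3191) (.e (nat_lit 172065) (nat_lit 3) (.e (nat_lit 204869) (nat_lit 29) (.e (nat_lit 360475) (nat_lit 8) (.e (nat_lit 557090) (nat_lit 12) (.e (nat_lit 164020) (nat_lit 45) (.e (nat_lit 696343) (nat_lit 8) .nil)))))) (.g (nat_lit 1) (.e (nat_lit 189185) (nat_lit 0) .nil) .nil)))) (.nd (nat_lit 9) 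
(.lf (nat_lit 508213) (.g (nat_lit 2418) (.e (nat_lit 172062) (nat_lit 2) (.e (nat_lit 196666) (nat_lit 13) (.e (nat_lit 65617) (nat_lit 10) (.e (nat_lit 344132) (nat_lit 26) (.e (nat_lit 557093) (nat_lit 12) (.e (nat_lit 164018) (nat_lit 45) (.e (nat_lit 696342) (nat_lit 8) .nil))))))) (.g (nat_lit 1) (.e (nat_lit 188708) (nat_lit 0) .nil) .nil))) 
(.lf (nat_lit 508725) (.g (nat_lit 3301) (.e (nat_lit 172067) (nat_lit 3) (.e (nat_lit 204869) (nat_lit 29) (.e (nat_lit 360475) (nat_lit 8) (.e (nat_lit 557091) (nat_lit 12) (.e (nat_lit 163843) (nat_lit 0) (.e (nat_lit 6250) (nat_lit 337) (.e (nat_lit 2621) (nat_lit 164) .nil))))))) (.g (nat_lit 1) (.e (nat_lit 189805) (nat_lit 0) .nil) .nil))))) (.nd (nat_lit 8) (.nd (nat_lit 9) 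
(.lf (nat_lit 508085) (.g (nat_lit 2227) (.e (nat_lit 172032) (nat_lit 0) (.e (nat_lit 3238) (nat_lit 197) (.e (nat_lit 532579) (nat_lit 26) (.e (nat_lit 426408) (nat_lit 15) (.e (nat_lit 7936) (nat_lit 121) .nil))))) (.g (nat_lit 0) (.e (nat_lit 188374) (nat_lit 0) .nil) .nil))) 
(.lf (nat_lit 508597) (.g (nat_lit 4393) (.e (nat_lit 172067) (nat_lit 3) (.e (nat_lit 204846) (nat_lit 24) (.e (nat_lit 319530) (nat_lit 16) (.e (nat_lit 286735) (nat_lit 3) (.e (nat_lit 98323) (nat_lit 17) (.e (nat_lit 7936) (nat_lit 392) .nil)))))) (.g (nat_lit 1) (.e (nat_lit 189462) (nat_lit 0) .nil) .nil)))) (.nd (nat_lit 9) 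
(.lf (nat_lit 508341) (.g (nat_lit 1951) (.e (nat_lit 172064) (nat_lit 2) (.e (nat_lit 196666) (nat_lit 13) (.e (nat_lit 65617) (nat_lit 10) (.e (nat_lit 344130) (nat_lit 26) (.e (nat_lit 557090) (nat_lit 12) .nil))))) (.g (nat_lit 0) (.e (nat_lit 188975) (nat_lit 0) .nil) .nil))) 
(.lf (nat_lit 508853) (.g (nat_lit 1697) (.e (nat_lit 172076) (nat_lit 6) (.e (nat_lit 253992) (nat_lit 11) (.e (nat_lit 16463) (nat_lit 13) (.e (nat_lit 483349) (nat_lit 17) (.e (nat_lit 7936) (nat_lit 361) .nil))))) (.g (nat_lit 0) (.e (nat_lit 190133) (nat_lit 0) .nil) .nil)))))) (.nd (nat_lit 7) (.nd (nat_lit 8) (.nd (nat_lit 9) 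
(.lf (nat_lit 508021) (.g (nat_lit 1817) (.e (nat_lit 164403) (nat_lit 256) (.e (nat_lit 57378) (nat_lit 3) (.e (nat_lit 98357) (nat_lit 26) (.e (nat_lit 426323) (nat_lit 13) (.e (nat_lit 483337) (nat_lit 9) .nil))))) (.g (nat_lit 0) (.e (nat_lit 188296) (nat_lit 0) .nil) .nil))) 
(.lf (nat_lit 508533) (.g (nat_lit 3180) (.e (nat_lit 172066) (nat_lit 3) (.e (nat_lit 204869) (nat_lit 29) (.e (nat_lit 360475) (nat_lit 8) (.e (nat_lit 557089) (nat_lit 12) (.e (nat_lit 163848) (nat_lit 0) (.e (nat_lit 6252) (nat_lit 337) (.e (nat_lit 2620) (nat_lit 164) .nil))))))) (.g (nat_lit 1) (.e (nat_lit 189340) (nat_lit 0) .nil) .nil)))) (.nd (nat_lit 9) 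
(.lf (nat_lit 508277) (.g (nat_lit 2481) (.e (nat_lit 172064) (nat_lit 2) (.e (nat_lit 196666) (nat_lit 13) (.e (nat_lit 65610) (nat_lit 10) (.e (nat_lit 344117) (nat_lit 21) (.e (nat_lit 516099) (nat_lit 0) (.e (nat_lit 3342) (nat_lit 205) (.e (nat_lit 598059) (nat_lit 16) .nil))))))) (.g (nat_lit 1) (.e (nat_lit 188824) (nat_lit 0) .nil) .nil))) 
(.lf (nat_lit 508789) (.g (nat_lit 1376) (.e (nat_lit 172074) (nat_lit 6) (.e (nat_lit 253990) (nat_lit 11) (.e (nat_lit 16436) (nat_lit 9) (.e (nat_lit 426550) (nat_lit 31) (.e (nat_lit 376576) (nat_lit 4) .nil))))) (.g (nat_lit 0) (.e (nat_lit 189964) (nat_lit 0) .nil) .nil))))) (.nd (nat_lit 8) (.nd (nat_lit 9) 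
(.lf (nat_lit 508149) (.g (nat_lit 1872) (.e (nat_lit 172059) (nat_lit 1) (.e (nat_lit 164399) (nat_lit 256) (.e (nat_lit 57447) (nat_lit 19) (.e (nat_lit 393298) (nat_lit 27) .nil)))) (.g (nat_lit 0) (.e (nat_lit 188540) (nat_lit 0) .nil) .nil))) 
(.lf (nat_lit 508661) (.g (nat_lit 2014) (.e (nat_lit 172067) (nat_lit 3) (.e (nat_lit 204868) (nat_lit 29) (.e (nat_lit 360475) (nat_lit 8) (.e (nat_lit 557091) (nat_lit 12) .nil)))) (.g (nat_lit 0) (.e (nat_lit 189697) (nat_lit 0) .nil) .nil)))) (.nd (nat_lit 9) 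
(.lf (nat_lit 508405) (.g (nat_lit 3130) (.e (nat_lit 172065) (nat_lit 3) (.e (nat_lit 204846) (nat_lit 24) (.e (nat_lit 319531) (nat_lit 16) (.e (nat_lit 286733) (nat_lit 2) (.e (nat_lit 90165) (nat_lit 12) .nil))))) (.g (nat_lit 0) (.e (nat_lit 189048) (nat_lit 0) .nil) .nil))) 
(.lf (nat_lit 508917) (.g (nat_lit 2870) (.e (nat_lit 172079) (nat_lit 7) (.e (nat_lit 409631) (nat_lit 12) (.e (nat_lit 32807) (nat_lit 18) (.e (nat_lit 172118) (nat_lit 12) (.e (nat_lit 475185) (nat_lit 29) (.e (nat_lit 557100) (nat_lit 13) .nil)))))) (.g (nat_lit 1) (.e (nat_lit 190333) (nat_lit 0) .nil) .nil))))))))) 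
(.nd (nat_lit 4) (.nd (nat_lit 5) (.nd (nat_lit 6) (.nd (nat_lit 7) (.nd (nat_lit 8) 
(.nd (nat_lit 9) 
(.lf (nat_lit 507917) (.g (nat_lit 2154) (.e (nat_lit 164402) (nat_lit 256) (.e (nat_lit 57406) (nat_lit 12) (.e (nat_lit 336426) (nat_lit 29) (.e (nat_lit 442427) (nat_lit 23) (.e (nat_lit 204809) (nat_lit 9) .nil))))) (.g (nat_lit 0) (.e (nat_lit 188167) (nat_lit 0) .nil) .nil))) 
(.lf (nat_lit 508429) (.g (nat_lit 1303) (.e (nat_lit 172065) (nat_lit 3) (.e (nat_lit 204868) (nat_lit 29) (.e (nat_lit 360473) (nat_lit 8) (.e (nat_lit 557088) (nat_lit 12) .nil)))) (.g (nat_lit 0) (.e (nat_lit 189132) (nat_lit 0) .nil) .nil)))) (.nd (nat_lit 9) 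
(.lf (nat_lit 508173) (.g (nat_lit 2326) (.e (nat_lit 172062) (nat_lit 2) (.e (nat_lit 196666) (nat_lit 13) (.e (nat_lit 65610) (nat_lit 10) (.e (nat_lit 344129) (nat_lit 26) (.e (nat_lit 557089) (nat_lit 12) (.e (nat_lit 163850) (nat_lit 0) (.e (nat_lit 6273) (nat_lit 337) (.e (nat_lit 2633) (nat_lit 164) .nil)))))))) (.g (nat_lit 1) (.e (nat_lit 188665) (nat_lit 0) .nil) .nil))) 
(.lf (nat_lit 508685) (.g (nat_lit 1675) (.e (nat_lit 172067) (nat_lit 3) (.e (nat_lit 204869) (nat_lit 29) (.e (nat_lit 360474) (nat_lit 8) (.e (nat_lit 557093) (nat_lit 12) (.e (nat_lit 163848) (nat_lit 0) .nil))))) (.g (nat_lit 0) (.e (nat_lit 189742) (nat_lit 0) .nil) .nil))))) (.nd (nat_lit 8) (.nd (nat_lit 9) 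
(.lf (nat_lit 508045) (.g (nat_lit 3653) (.e (nat_lit 164403) (nat_lit 256) (.e (nat_lit 57378) (nat_lit 3) (.e (nat_lit 98368) (nat_lit 27) (.e (nat_lit 434231) (nat_lit 23) (.e (nat_lit 532514) (nat_lit 3) (.e (nat_lit 114708) (nat_lit 20) (.e (nat_lit 1800) (nat_lit 119) (.e (nat_lit 516119) (nat_lit 1) .nil)))))))) (.g (nat_lit 1) (.e (nat_lit 188321) (nat_lit 0) .nil) .nil))) 
(.lf (nat_lit 508557) (.g (nat_lit 2928) (.e (nat_lit 172066) (nat_lit 3) (.e (nat_lit 204869) (nat_lit 29) (.e (nat_lit 360475) (nat_lit 8) (.e (nat_lit 557091) (nat_lit 12) (.e (nat_lit 164019) (nat_lit 45) .nil))))) (.g (nat_lit 0) (.e (nat_lit 189383) (nat_lit 0) .nil) .nil)))) (.nd (nat_lit 9) 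
(.lf (nat_lit 508301) (.g (nat_lit 4049) (.e (nat_lit 172064) (nat_lit 2) (.e (nat_lit 196666) (nat_lit 13) (.e (nat_lit 65610) (nat_lit 10) (.e (nat_lit 344129) (nat_lit 26) (.e (nat_lit 557089) (nat_lit 12) (.e (nat_lit 163848) (nat_lit 0) (.e (nat_lit 6255) (nat_lit 337) (.e (nat_lit 2630) (nat_lit 164) .nil)))))))) (.g (nat_lit 1) (.e (nat_lit 188933) (nat_lit 0) .nil) .nil))) 
(.lf (nat_lit 508813) (.g (nat_lit 785) (.e (nat_lit 172075) (nat_lit 6) (.e (nat_lit 253988) (nat_lit 11) (.e (nat_lit 16465) (nat_lit 13) (.e (nat_lit 483354) (nat_lit 17) .nil)))) (.g (nat_lit 0) (.e (nat_lit 190016) (nat_lit 0) .nil) .nil)))))) (.nd (nat_lit 7) (.nd (nat_lit 8) (.nd (nat_lit 9) 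
(.lf (nat_lit 507981) (.g (nat_lit 1875) (.e (nat_lit 164403) (nat_lit 256) (.e (nat_lit 57373) (nat_lit 2) (.e (nat_lit 90174) (nat_lit 14) (.e (nat_lit 180243) (nat_lit 5) (.e (nat_lit 532513) (nat_lit 3) .nil))))) (.g (nat_lit 0) (.e (nat_lit 188247) (nat_lit 0) .nil) .nil))) 
(.lf (nat_lit 508493) (.g (nat_lit 2600) (.e (nat_lit 172066) (nat_lit 3) (.e (nat_lit 204846) (nat_lit 24) (.e (nat_lit 319528) (nat_lit 16) (.e (nat_lit 286735) (nat_lit 3) (.e (nat_lit 98323) (nat_lit 17) (.e (nat_lit 7936) (nat_lit 392) .nil)))))) (.g (nat_lit 1) (.e (nat_lit 189269) (nat_lit 0) .nil) .nil)))) (.nd (nat_lit 9) 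
(.lf (nat_lit 508237) (.g (nat_lit 1445) (.e (nat_lit 172063) (nat_lit 2) (.e (nat_lit 196666) (nat_lit 13) (.e (nat_lit 65617) (nat_lit 10) (.e (nat_lit 344127) (nat_lit 26) .nil)))) (.g (nat_lit 0) (.e (nat_lit 188748) (nat_lit 0) .nil) .nil))) 
(.lf (nat_lit 508749) (.g (nat_lit 1678) (.e (nat_lit 172067) (nat_lit 3) (.e (nat_lit 204885) (nat_lit 33) (.e (nat_lit 401448) (nat_lit 10) (.e (nat_lit 434230) (nat_lit 23) .nil)))) (.g (nat_lit 0) (.e (nat_lit 189866) (nat_lit 0) .nil) .nil))))) (.nd (nat_lit 8) (.nd (nat_lit 9) 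
(.lf (nat_lit 508109) (.g (nat_lit 3748) (.e (nat_lit 172039) (nat_lit 0) (.e (nat_lit 3402) (nat_lit 211) (.e (nat_lit 647181) (nat_lit 3) (.e (nat_lit 163977) (nat_lit 30) (.e (nat_lit 573491) (nat_lit 15) (.e (nat_lit 81951) (nat_lit 22) (.e (nat_lit 90170) (nat_lit 13) .nil))))))) (.g (nat_lit 1) (.e (nat_lit 188410) (nat_lit 0) .nil) .nil))) 
(.lf (nat_lit 508621) (.g (nat_lit 2958) (.e (nat_lit 172067) (nat_lit 3) (.e (nat_lit 204846) (nat_lit 24) (.e (nat_lit 327424) (nat_lit 16) (.e (nat_lit 286735) (nat_lit 3) (.e (nat_lit 98323) (nat_lit 17) (.e (nat_lit 7936) (nat_lit 392) .nil)))))) (.g (nat_lit 1) (.e (nat_lit 189511) (nat_lit 0) .nil) .nil)))) (.nd (nat_lit 9) 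
(.lf (nat_lit 508365) (.g (nat_lit 2100) (.e (nat_lit 172064) (nat_lit 2) (.e (nat_lit 196666) (nat_lit 13) (.e (nat_lit 65617) (nat_lit 10) (.e (nat_lit 344133) (nat_lit 26) (.e (nat_lit 557091) (nat_lit 12) .nil))))) (.g (nat_lit 0) (.e (nat_lit 188999) (nat_lit 0) .nil) .nil))) 
(.lf (nat_lit 508877) (.g (nat_lit 2999) (.e (nat_lit 172078) (nat_lit 7) (.e (nat_lit 409645) (nat_lit 18) (.e (nat_lit 303143) (nat_lit 12) (.e (nat_lit 475199) (nat_lit 40) (.e (nat_lit 704853) (nat_lit 17) .nil))))) (.g (nat_lit 0) (.e (nat_lit 190252) (nat_lit 0) .nil) .nil))))))) (.nd (nat_lit 6) (.nd (nat_lit 7) (.nd (nat_lit 8) (.nd (nat_lit 9) 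
(.lf (nat_lit 507949) (.g (nat_lit 2192) (.e (nat_lit 164403) (nat_lit 256) (.e (nat_lit 57371) (nat_lit 2) (.e (nat_lit 90170) (nat_lit 13) (.e (nat_lit 172121) (nat_lit 13) .nil)))) (.g (nat_lit 0) (.e (nat_lit 188210) (nat_lit 0) .nil) .nil))) 
(.lf (nat_lit 508461) (.g (nat_lit 2817) (.e (nat_lit 172065) (nat_lit 3) (.e (nat_lit 204869) (nat_lit 29) (.e (nat_lit 360475) (nat_lit 8) (.e (nat_lit 557068) (nat_lit 9) .nil)))) (.g (nat_lit 0) (.e (nat_lit 189177) (nat_lit 0) .nil) .nil)))) (.nd (nat_lit 9) 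
(.lf (nat_lit 508205) (.g (nat_lit 3709) (.e (nat_lit 172062) (nat_lit 2) (.e (nat_lit 196666) (nat_lit 13) (.e (nat_lit 65617) (nat_lit 10) (.e (nat_lit 344130) (nat_lit 26) (.e (nat_lit 557090) (nat_lit 12) (.e (nat_lit 163848) (nat_lit 0) (.e (nat_lit 6252) (nat_lit 337) (.e (nat_lit 2630) (nat_lit 164) .nil)))))))) (.g (nat_lit 1) (.e (nat_lit 188700) (nat_lit 0) .nil) .nil))) 
(.lf (nat_lit 508717) (.g (nat_lit 2672) (.e (nat_lit 172067) (nat_lit 3) (.e (nat_lit 204869) (nat_lit 29) (.e (nat_lit 360475) (nat_lit 8) (.e (nat_lit 557089) (nat_lit 12) (.e (nat_lit 164019) (nat_lit 45) (.e (nat_lit 696342) (nat_lit 8) .nil)))))) (.g (nat_lit 1) (.e (nat_lit 189792) (nat_lit 0) .nil) .nil))))) (.nd (nat_lit 8) (.nd (nat_lit 9) 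
(.lf (nat_lit 508077) (.g (nat_lit 1241) (.e (nat_lit 164403) (nat_lit 256) (.e (nat_lit 57409) (nat_lit 12) (.e (nat_lit 336433) (nat_lit 30) (.e (nat_lit 450580) (nat_lit 5) (.e (nat_lit 532579) (nat_lit 26) .nil))))) (.g (nat_lit 0) (.e (nat_lit 188354) (nat_lit 0) .nil) .nil))) 
(.lf (nat_lit 508589) (.g (nat_lit 2640) (.e (nat_lit 172067) (nat_lit 3) (.e (nat_lit 204846) (nat_lit 24) (.e (nat_lit 319528) (nat_lit 16) (.e (nat_lit 286735) (nat_lit 3) (.e (nat_lit 98321) (nat_lit 17) (.e (nat_lit 7936) (nat_lit 392) .nil)))))) (.g (nat_lit 1) (.e (nat_lit 189452) (nat_lit 0) .nil) .nil)))) (.nd (nat_lit 9) 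
(.lf (nat_lit 508333) (.g (nat_lit 3029) (.e (nat_lit 172064) (nat_lit 2) (.e (nat_lit 196666) (nat_lit 13) (.e (nat_lit 65617) (nat_lit 10) (.e (nat_lit 344127) (nat_lit 26) (.e (nat_lit 557090) (nat_lit 12) (.e (nat_lit 163847) (nat_lit 0) (.e (nat_lit 6254) (nat_lit 337) (.e (nat_lit 2630) (nat_lit 164) .nil)))))))) (.g (nat_lit 1) (.e (nat_lit 188967) (nat_lit 0) .nil) .nil))) 
(.lf (nat_lit 508845) (.g (nat_lit 1252) (.e (nat_lit 172076) (nat_lit 6) (.e (nat_lit 253992) (nat_lit 11) (.e (nat_lit 16433) (nat_lit 9) (.e (nat_lit 426535) (nat_lit 28) .nil)))) (.g (nat_lit 0) (.e (nat_lit 190113) (nat_lit 0) .nil) .nil)))))) (.nd (nat_lit 7) (.nd (nat_lit 8) (.nd (nat_lit 9) 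
(.lf (nat_lit 508013) (.g (nat_lit 1897) (.e (nat_lit 164403) (nat_lit 256) (.e (nat_lit 57377) (nat_lit 3) (.e (nat_lit 98370) (nat_lit 28) (.e (nat_lit 442389) (nat_lit 11) .nil)))) (.g (nat_lit 0) (.e (nat_lit 188285) (nat_lit 0) .nil) .nil))) 
(.lf (nat_lit 508525) (.g (nat_lit 2058) (.e (nat_lit 172066) (nat_lit 3) (.e (nat_lit 204869) (nat_lit 29) (.e (nat_lit 360474) (nat_lit 8) (.e (nat_lit 557091) (nat_lit 12) .nil)))) (.g (nat_lit 0) (.e (nat_lit 189324) (nat_lit 0) .nil) .nil)))) (.nd (nat_lit 9) 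
(.lf (nat_lit 508269) (.g (nat_lit 2806) (.e (nat_lit 172064) (nat_lit 2) (.e (nat_lit 196666) (nat_lit 13) (.e (nat_lit 65610) (nat_lit 10) (.e (nat_lit 344117) (nat_lit 21) (.e (nat_lit 516098) (nat_lit 0) (.e (nat_lit 3333) (nat_lit 205) (.e (nat_lit 598061) (nat_lit 16) .nil))))))) (.g (nat_lit 1) (.e (nat_lit 188813) (nat_lit 0) .nil) .nil))) 
(.lf (nat_lit 508781) (.g (nat_lit 907) (.e (nat_lit 172074) (nat_lit 6) (.e (nat_lit 253963) (nat_lit 9) (.e (nat_lit 433) (nat_lit 32) (.e (nat_lit 426232) (nat_lit 9) (.e (nat_lit 426549) (nat_lit 31) .nil))))) (.g (nat_lit 0) (.e (nat_lit 189943) (nat_lit 0) .nil) .nil))))) (.nd (nat_lit 8) (.nd (nat_lit 9) 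
(.lf (nat_lit 508141) (.g (nat_lit 1874) (.e (nat_lit 172059) (nat_lit 1) (.e (nat_lit 164398) (nat_lit 256) (.e (nat_lit 57445) (nat_lit 19) (.e (nat_lit 393233) (nat_lit 17) (.e (nat_lit 7583) (nat_lit 405) .nil))))) (.g (nat_lit 0) (.e (nat_lit 188532) (nat_lit 0) .nil) .nil))) 
(.lf (nat_lit 508653) (.g (nat_lit 2389) (.e (nat_lit 172067) (nat_lit 3) (.e (nat_lit 204868) (nat_lit 29) (.e (nat_lit 360473) (nat_lit 8) (.e (nat_lit 557093) (nat_lit 12) (.e (nat_lit 164018) (nat_lit 45) (.e (nat_lit 696342) (nat_lit 8) .nil)))))) (.g (nat_lit 1) (.e (nat_lit 189677) (nat_lit 0) .nil) .nil)))) (.nd (nat_lit 9) 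
(.lf (nat_lit 508397) (.g (nat_lit 3123) (.e (nat_lit 172065) (nat_lit 3) (.e (nat_lit 204845) (nat_lit 24) (.e (nat_lit 319530) (nat_lit 16) (.e (nat_lit 286735) (nat_lit 3) (.e (nat_lit 98325) (nat_lit 17) (.e (nat_lit 7936) (nat_lit 392) .nil)))))) (.g (nat_lit 1) (.e (nat_lit 189040) (nat_lit 0) .nil) .nil))) 
(.lf (nat_lit 508909) (.g (nat_lit 3756) (.e (nat_lit 172079) (nat_lit 7) (.e (nat_lit 409611) (nat_lit 10) (.e (nat_lit 632) (nat_lit 50) (.e (nat_lit 573482) (nat_lit 13) (.e (nat_lit 65619) (nat_lit 10) (.e (nat_lit 344183) (nat_lit 49) (.e (nat_lit 819219) (nat_lit 4) .nil))))))) (.g (nat_lit 1) (.e (nat_lit 190305) (nat_lit 0) .nil) .nil)))))))) 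
(.nd (nat_lit 5) (.nd (nat_lit 6) (.nd (nat_lit 7) (.nd (nat_lit 8) (.nd (nat_lit 9) 
(.lf (nat_lit 507933) (.g (nat_lit 1949) (.e (nat_lit 164402) (nat_lit 256) (.e (nat_lit 57427) (nat_lit 15) (.e (nat_lit 360474) (nat_lit 8) (.e (nat_lit 564992) (nat_lit 4) .nil)))) (.g (nat_lit 0) (.e (nat_lit 188183) (nat_lit 0) .nil) .nil))) 
(.lf (nat_lit 508445) (.g (nat_lit 4871) (.e (nat_lit 172065) (nat_lit 3) (.e (nat_lit 204868) (nat_lit 29) (.e (nat_lit 360475) (nat_lit 8) (.e (nat_lit 557091) (nat_lit 12) (.e (nat_lit 163843) (nat_lit 0) (.e (nat_lit 6255) (nat_lit 337) (.e (nat_lit 2630) (nat_lit 164) .nil))))))) (.g (nat_lit 1) (.e (nat_lit 189157) (nat_lit 0) .nil) .nil)))) (.nd (nat_lit 9) 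
(.lf (nat_lit 508189) (.g (nat_lit 4339) (.e (nat_lit 172062) (nat_lit 2) (.e (nat_lit 196666) (nat_lit 13) (.e (nat_lit 65610) (nat_lit 10) (.e (nat_lit 344129) (nat_lit 26) (.e (nat_lit 557090) (nat_lit 12) (.e (nat_lit 163850) (nat_lit 0) (.e (nat_lit 6273) (nat_lit 337) (.e (nat_lit 2633) (nat_lit 164) .nil)))))))) (.g (nat_lit 1) (.e (nat_lit 188681) (nat_lit 0) .nil) .nil))) 
(.lf (nat_lit 508701) (.g (nat_lit 2783) (.e (nat_lit 172067) (nat_lit 3) (.e (nat_lit 204869) (nat_lit 29) (.e (nat_lit 360475) (nat_lit 8) (.e (nat_lit 557089) (nat_lit 12) (.e (nat_lit 163843) (nat_lit 0) (.e (nat_lit 6255) (nat_lit 337) (.e (nat_lit 2620) (nat_lit 164) .nil))))))) (.g (nat_lit 1) (.e (nat_lit 189771) (nat_lit 0) .nil) .nil))))) (.nd (nat_lit 8) (.nd (nat_lit 9) 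
(.lf (nat_lit 508061) (.g (nat_lit 1658) (.e (nat_lit 164403) (nat_lit 256) (.e (nat_lit 57400) (nat_lit 10) (.e (nat_lit 319504) (nat_lit 10) (.e (nat_lit 5400) (nat_lit 302) .nil)))) (.g (nat_lit 0) (.e (nat_lit 188337) (nat_lit 0) .nil) .nil))) 
(.lf (nat_lit 508573) (.g (nat_lit 2499) (.e (nat_lit 172067) (nat_lit 3) (.e (nat_lit 204838) (nat_lit 20) (.e (nat_lit 114719) (nat_lit 23) (.e (nat_lit 98334) (nat_lit 18) (.e (nat_lit 164402) (nat_lit 256) .nil))))) (.g (nat_lit 0) (.e (nat_lit 189427) (nat_lit 0) .nil) .nil)))) (.nd (nat_lit 9) 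
(.lf (nat_lit 508317) (.g (nat_lit 4474) (.e (nat_lit 172064) (nat_lit 2) (.e (nat_lit 196666) (nat_lit 13) (.e (nat_lit 65610) (nat_lit 10) (.e (nat_lit 344129) (nat_lit 26) (.e (nat_lit 557090) (nat_lit 12) (.e (nat_lit 163848) (nat_lit 0) (.e (nat_lit 6252) (nat_lit 337) (.e (nat_lit 2630) (nat_lit 164) .nil)))))))) (.g (nat_lit 1) (.e (nat_lit 188950) (nat_lit 0) .nil) .nil))) 
(.lf (nat_lit 508829) (.g (nat_lit 1894) (.e (nat_lit 172076) (nat_lit 6) (.e (nat_lit 253991) (nat_lit 11) (.e (nat_lit 16433) (nat_lit 9) (.e (nat_lit 426550) (nat_lit 31) (.e (nat_lit 376576) (nat_lit 4) .nil))))) (.g (nat_lit 0) (.e (nat_lit 190084) (nat_lit 0) .nil) .nil)))))) (.nd (nat_lit 7) (.nd (nat_lit 8) (.nd (nat_lit 9) 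
(.lf (nat_lit 507997) (.g (nat_lit 3418) (.e (nat_lit 164403) (nat_lit 256) (.e (nat_lit 57373) (nat_lit 2) (.e (nat_lit 90174) (nat_lit 14) (.e (nat_lit 180251) (nat_lit 10) (.e (nat_lit 573489) (nat_lit 14) (.e (nat_lit 73755) (nat_lit 8) (.e (nat_lit 557074) (nat_lit 9) (.e (nat_lit 2609) (nat_lit 163) .nil)))))))) (.g (nat_lit 1) (.e (nat_lit 188263) (nat_lit 0) .nil) .nil))) 
(.lf (nat_lit 508509) (.g (nat_lit 2736) (.e (nat_lit 172066) (nat_lit 3) (.e (nat_lit 204846) (nat_lit 24) (.e (nat_lit 319534) (nat_lit 16) (.e (nat_lit 286734) (nat_lit 3) (.e (nat_lit 98323) (nat_lit 17) .nil))))) (.g (nat_lit 0) (.e (nat_lit 189288) (nat_lit 0) .nil) .nil)))) (.nd (nat_lit 9) 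
(.lf (nat_lit 508253) (.g (nat_lit 2783) (.e (nat_lit 172063) (nat_lit 2) (.e (nat_lit 196666) (nat_lit 13) (.e (nat_lit 65617) (nat_lit 10) (.e (nat_lit 344133) (nat_lit 26) (.e (nat_lit 557091) (nat_lit 12) (.e (nat_lit 164018) (nat_lit 45) (.e (nat_lit 696344) (nat_lit 8) .nil))))))) (.g (nat_lit 1) (.e (nat_lit 188764) (nat_lit 0) .nil) .nil))) 
(.lf (nat_lit 508765) (.g (nat_lit 3897) (.e (nat_lit 172068) (nat_lit 4) (.e (nat_lit 229666) (nat_lit 240) (.e (nat_lit 2602) (nat_lit 163) (.e (nat_lit 163979) (nat_lit 30) (.e (nat_lit 573482) (nat_lit 13) (.e (nat_lit 65604) (nat_lit 9) (.e (nat_lit 336013) (nat_lit 2) (.e (nat_lit 90170) (nat_lit 13) .nil)))))))) (.g (nat_lit 1) (.e (nat_lit 189886) (nat_lit 0) .nil) .nil))))) 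
(.nd (nat_lit 8) (.nd (nat_lit 9) 
(.lf (nat_lit 508125) (.g (nat_lit 3252) (.e (nat_lit 172046) (nat_lit 0) (.e (nat_lit 3238) (nat_lit 197) (.e (nat_lit 532550) (nat_lit 12) (.e (nat_lit 360475) (nat_lit 8) (.e (nat_lit 557089) (nat_lit 12) .nil))))) (.g (nat_lit 0) (.e (nat_lit 188470) (nat_lit 0) .nil) .nil))) 
(.lf (nat_lit 508637) (.g (nat_lit 2448) (.e (nat_lit 172067) (nat_lit 3) (.e (nat_lit 204855) (nat_lit 26) (.e (nat_lit 336176) (nat_lit 10) (.e (nat_lit 344130) (nat_lit 26) (.e (nat_lit 557090) (nat_lit 12) (.e (nat_lit 164018) (nat_lit 45) (.e (nat_lit 696342) (nat_lit 8) .nil))))))) (.g (nat_lit 1) (.e (nat_lit 189562) (nat_lit 0) .nil) .nil)))) (.nd (nat_lit 9) 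
(.lf (nat_lit 508381) (.g (nat_lit 2068) (.e (nat_lit 172064) (nat_lit 2) (.e (nat_lit 196674) (nat_lit 15) (.e (nat_lit 81946) (nat_lit 20) (.e (nat_lit 1858) (nat_lit 124) (.e (nat_lit 557088) (nat_lit 12) .nil))))) (.g (nat_lit 0) (.e (nat_lit 189021) (nat_lit 0) .nil) .nil))) 
(.lf (nat_lit 508893) (.g (nat_lit 1915) (.e (nat_lit 172078) (nat_lit 7) (.e (nat_lit 409646) (nat_lit 18) (.e (nat_lit 303143) (nat_lit 12) (.e (nat_lit 475199) (nat_lit 40) .nil)))) (.g (nat_lit 0) (.e (nat_lit 190277) (nat_lit 0) .nil) .nil))))))) (.nd (nat_lit 6) (.nd (nat_lit 7) (.nd (nat_lit 8) (.nd (nat_lit 9) 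
(.lf (nat_lit 507965) (.g (nat_lit 4652) (.e (nat_lit 164403) (nat_lit 256) (.e (nat_lit 57371) (nat_lit 2) (.e (nat_lit 90174) (nat_lit 14) (.e (nat_lit 180250) (nat_lit 10) (.e (nat_lit 573489) (nat_lit 14) (.e (nat_lit 73755) (nat_lit 8) (.e (nat_lit 557067) (nat_lit 9) (.e (nat_lit 2606) (nat_lit 163) .nil)))))))) (.g (nat_lit 1) (.e (nat_lit 188226) (nat_lit 0) .nil) .nil))) 
(.lf (nat_lit 508477) (.g (nat_lit 2239) (.e (nat_lit 172065) (nat_lit 3) (.e (nat_lit 204885) (nat_lit 33) (.e (nat_lit 401448) (nat_lit 10) (.e (nat_lit 434231) (nat_lit 23) (.e (nat_lit 532482) (nat_lit 0) (.e (nat_lit 6718) (nat_lit 361) .nil)))))) (.g (nat_lit 1) (.e (nat_lit 189228) (nat_lit 0) .nil) .nil)))) (.nd (nat_lit 9) 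
(.lf (nat_lit 508221) (.g (nat_lit 3193) (.e (nat_lit 172062) (nat_lit 2) (.e (nat_lit 196666) (nat_lit 13) (.e (nat_lit 65617) (nat_lit 10) (.e (nat_lit 344133) (nat_lit 26) (.e (nat_lit 557091) (nat_lit 12) (.e (nat_lit 163840) (nat_lit 0) (.e (nat_lit 6252) (nat_lit 337) (.e (nat_lit 2630) (nat_lit 164) .nil)))))))) (.g (nat_lit 1) (.e (nat_lit 188716) (nat_lit 0) .nil) .nil))) 
(.lf (nat_lit 508733) (.g (nat_lit 2900) (.e (nat_lit 172067) (nat_lit 3) (.e (nat_lit 204869) (nat_lit 29) (.e (nat_lit 360475) (nat_lit 8) (.e (nat_lit 557091) (nat_lit 12) (.e (nat_lit 163844) (nat_lit 0) (.e (nat_lit 6255) (nat_lit 337) (.e (nat_lit 2620) (nat_lit 164) .nil))))))) (.g (nat_lit 1) (.e (nat_lit 189816) (nat_lit 0) .nil) .nil))))) (.nd (nat_lit 8) (.nd (nat_lit 9) 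
(.lf (nat_lit 508093) (.g (nat_lit 2061) (.e (nat_lit 172035) (nat_lit 0) (.e (nat_lit 3281) (nat_lit 200) (.e (nat_lit 557104) (nat_lit 14) (.e (nat_lit 180252) (nat_lit 10) (.e (nat_lit 573482) (nat_lit 13) .nil))))) (.g (nat_lit 0) (.e (nat_lit 188384) (nat_lit 0) .nil) .nil))) 
(.lf (nat_lit 508605) (.g (nat_lit 4169) (.e (nat_lit 172067) (nat_lit 3) (.e (nat_lit 204846) (nat_lit 24) (.e (nat_lit 319533) (nat_lit 16) (.e (nat_lit 286733) (nat_lit 2) (.e (nat_lit 90165) (nat_lit 12) (.e (nat_lit 171776) (nat_lit 205) .nil)))))) (.g (nat_lit 1) (.e (nat_lit 189479) (nat_lit 0) .nil) .nil)))) (.nd (nat_lit 9) 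
(.lf (nat_lit 508349) (.g (nat_lit 3902) (.e (nat_lit 172064) (nat_lit 2) (.e (nat_lit 196666) (nat_lit 13) (.e (nat_lit 65617) (nat_lit 10) (.e (nat_lit 344130) (nat_lit 26) (.e (nat_lit 557090) (nat_lit 12) (.e (nat_lit 163849) (nat_lit 0) (.e (nat_lit 6254) (nat_lit 337) (.e (nat_lit 2630) (nat_lit 164) .nil)))))))) (.g (nat_lit 1) (.e (nat_lit 188983) (nat_lit 0) .nil) .nil))) 
(.lf (nat_lit 508861) (.g (nat_lit 2202) (.e (nat_lit 172076) (nat_lit 6) (.e (nat_lit 253992) (nat_lit 11) (.e (nat_lit 16466) (nat_lit 13) (.e (nat_lit 483350) (nat_lit 17) (.e (nat_lit 7936) (nat_lit 361) .nil))))) (.g (nat_lit 0) (.e (nat_lit 190141) (nat_lit 0) .nil) .nil)))))) (.nd (nat_lit 7) (.nd (nat_lit 8) (.nd (nat_lit 9) 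
(.lf (nat_lit 508029) (.g (nat_lit 3049) (.e (nat_lit 164403) (nat_lit 256) (.e (nat_lit 57378) (nat_lit 3) (.e (nat_lit 98363) (nat_lit 26) (.e (nat_lit 426321) (nat_lit 13) (.e (nat_lit 483337) (nat_lit 9) (.e (nat_lit 426108) (nat_lit 1) .nil)))))) (.g (nat_lit 1) (.e (nat_lit 188304) (nat_lit 0) .nil) .nil))) 
(.lf (nat_lit 508541) (.g (nat_lit 3150) (.e (nat_lit 172066) (nat_lit 3) (.e (nat_lit 204869) (nat_lit 29) (.e (nat_lit 360475) (nat_lit 8) (.e (nat_lit 557091) (nat_lit 12) (.e (nat_lit 163840) (nat_lit 0) (.e (nat_lit 6273) (nat_lit 337) (.e (nat_lit 2632) (nat_lit 164) .nil))))))) (.g (nat_lit 1) (.e (nat_lit 189350) (nat_lit 0) .nil) .nil)))) (.nd (nat_lit 9) 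
(.lf (nat_lit 508285) (.g (nat_lit 2706) (.e (nat_lit 172064) (nat_lit 2) (.e (nat_lit 196666) (nat_lit 13) (.e (nat_lit 65610) (nat_lit 10) (.e (nat_lit 344117) (nat_lit 21) (.e (nat_lit 516106) (nat_lit 0) (.e (nat_lit 2515) (nat_lit 157) (.e (nat_lit 4506) (nat_lit 263) (.e (nat_lit 2629) (nat_lit 164) .nil)))))))) (.g (nat_lit 1) (.e (nat_lit 188835) (nat_lit 0) .nil) .nil))) 
(.lf (nat_lit 508797) (.g (nat_lit 475) (.e (nat_lit 172074) (nat_lit 6) (.e (nat_lit 253991) (nat_lit 11) (.e (nat_lit 16466) (nat_lit 13) .nil))) (.g (nat_lit 0) (.e (nat_lit 189986) (nat_lit 0) .nil) .nil))))) (.nd (nat_lit 8) (.nd (nat_lit 9) 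
(.lf (nat_lit 508157) (.g (nat_lit 3982) (.e (nat_lit 172062) (nat_lit 2) (.e (nat_lit 196666) (nat_lit 13) (.e (nat_lit 65610) (nat_lit 10) (.e (nat_lit 344117) (nat_lit 21) (.e (nat_lit 516097) (nat_lit 0) (.e (nat_lit 2412) (nat_lit 157) (.e (nat_lit 4507) (nat_lit 263) (.e (nat_lit 2619) (nat_lit 164) .nil)))))))) (.g (nat_lit 1) (.e (nat_lit 188593) (nat_lit 0) .nil) .nil))) 
(.lf (nat_lit 508669) (.g (nat_lit 3421) (.e (nat_lit 172067) (nat_lit 3) (.e (nat_lit 204868) (nat_lit 29) (.e (nat_lit 360475) (nat_lit 8) (.e (nat_lit 557091) (nat_lit 12) (.e (nat_lit 164018) (nat_lit 45) (.e (nat_lit 696342) (nat_lit 8) .nil)))))) (.g (nat_lit 1) (.e (nat_lit 189712) (nat_lit 0) .nil) .nil)))) (.nd (nat_lit 9) 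
(.lf (nat_lit 508413) (.g (nat_lit 4099) (.e (nat_lit 172065) (nat_lit 3) (.e (nat_lit 204852) (nat_lit 26) (.e (nat_lit 336310) (nat_lit 16) (.e (nat_lit 164179) (nat_lit 154) (.e (nat_lit 57378) (nat_lit 3) (.e (nat_lit 98334) (nat_lit 18) (.e (nat_lit 164305) (nat_lit 226) (.e (nat_lit 2630) (nat_lit 164) .nil)))))))) (.g (nat_lit 1) (.e (nat_lit 189056) (nat_lit 0) .nil) .nil))) 
(.lf (nat_lit 508925) (.g (nat_lit 709) (.e (nat_lit 172079) (nat_lit 7) (.e (nat_lit 409639) (nat_lit 15) (.e (nat_lit 278566) (nat_lit 16) (.e (nat_lit 286755) (nat_lit 10) (.e (nat_lit 344154) (nat_lit 35) (.e (nat_lit 630802) (nat_lit 8) .nil)))))) (.g (nat_lit 1) (.e (nat_lit 190344) (nat_lit 0) .nil) .nil))))))))))) 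
(.nd (nat_lit 2) (.nd (nat_lit 3) (.nd (nat_lit 4) (.nd (nat_lit 5) (.nd (nat_lit 6) 
(.nd (nat_lit 7) (.nd (nat_lit 8) (.nd (nat_lit 9) 
(.lf (nat_lit 507907) (.g (nat_lit 1404) (.e (nat_lit 164402) (nat_lit 256) (.e (nat_lit 57378) (nat_lit 3) (.e (nat_lit 98366) (nat_lit 27) (.e (nat_lit 434231) (nat_lit 23) .nil)))) (.g (nat_lit 0) (.e (nat_lit 188157) (nat_lit 0) .nil) .nil))) 
(.lf (nat_lit 508419) (.g (nat_lit 1833) (.e (nat_lit 172065) (nat_lit 3) (.e (nat_lit 204855) (nat_lit 26) (.e (nat_lit 336176) (nat_lit 10) (.e (nat_lit 344130) (nat_lit 26) (.e (nat_lit 557090) (nat_lit 12) .nil))))) (.g (nat_lit 0) (.e (nat_lit 189080) (nat_lit 0) .nil) .nil)))) (.nd (nat_lit 9) 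
(.lf (nat_lit 508163) (.g (nat_lit 3039) (.e (nat_lit 172062) (nat_lit 2) (.e (nat_lit 196666) (nat_lit 13) (.e (nat_lit 65610) (nat_lit 10) (.e (nat_lit 344117) (nat_lit 21) (.e (nat_lit 516106) (nat_lit 0) (.e (nat_lit 2424) (nat_lit 157) (.e (nat_lit 4516) (nat_lit 263) (.e (nat_lit 2629) (nat_lit 164) .nil)))))))) (.g (nat_lit 1) (.e (nat_lit 188605) (nat_lit 0) .nil) .nil))) 
(.lf (nat_lit 508675) (.g (nat_lit 1036) (.e (nat_lit 172067) (nat_lit 3) (.e (nat_lit 204869) (nat_lit 29) (.e (nat_lit 360473) (nat_lit 8) (.e (nat_lit 557091) (nat_lit 12) .nil)))) (.g (nat_lit 0) (.e (nat_lit 189729) (nat_lit 0) .nil) .nil))))) (.nd (nat_lit 8) (.nd (nat_lit 9) 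
(.lf (nat_lit 508035) (.g (nat_lit 3750) (.e (nat_lit 164403) (nat_lit 256) (.e (nat_lit 57378) (nat_lit 3) (.e (nat_lit 98365) (nat_lit 26) (.e (nat_lit 426325) (nat_lit 13) (.e (nat_lit 483341) (nat_lit 9) (.e (nat_lit 426108) (nat_lit 1) .nil)))))) (.g (nat_lit 1) (.e (nat_lit 188311) (nat_lit 0) .nil) .nil))) 
(.lf (nat_lit 508547) (.g (nat_lit 4141) (.e (nat_lit 172066) (nat_lit 3) (.e (nat_lit 204869) (nat_lit 29) (.e (nat_lit 360475) (nat_lit 8) (.e (nat_lit 557091) (nat_lit 12) (.e (nat_lit 163843) (nat_lit 0) (.e (nat_lit 6254) (nat_lit 337) (.e (nat_lit 2622) (nat_lit 164) .nil))))))) (.g (nat_lit 1) (.e (nat_lit 189367) (nat_lit 0) .nil) .nil)))) (.nd (nat_lit 9) 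
(.lf (nat_lit 508291) (.g (nat_lit 3101) (.e (nat_lit 172064) (nat_lit 2) (.e (nat_lit 196666) (nat_lit 13) (.e (nat_lit 65610) (nat_lit 10) (.e (nat_lit 344117) (nat_lit 21) (.e (nat_lit 516106) (nat_lit 0) (.e (nat_lit 3340) (nat_lit 205) (.e (nat_lit 598061) (nat_lit 16) .nil))))))) (.g (nat_lit 1) (.e (nat_lit 188841) (nat_lit 0) .nil) .nil))) 
(.lf (nat_lit 508803) (.g (nat_lit 2032) (.e (nat_lit 172074) (nat_lit 6) (.e (nat_lit 253992) (nat_lit 11) (.e (nat_lit 16436) (nat_lit 9) (.e (nat_lit 426550) (nat_lit 31) (.e (nat_lit 376576) (nat_lit 4) .nil))))) (.g (nat_lit 1) (.e (nat_lit 190002) (nat_lit 0) .nil) .nil)))))) (.nd (nat_lit 7) (.nd (nat_lit 8) (.nd (nat_lit 9) 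
(.lf (nat_lit 507971) (.g (nat_lit 3355) (.e (nat_lit 164403) (nat_lit 256) (.e (nat_lit 57371) (nat_lit 2) (.e (nat_lit 90174) (nat_lit 14) (.e (nat_lit 180252) (nat_lit 10) (.e (nat_lit 573489) (nat_lit 14) (.e (nat_lit 73755) (nat_lit 8) (.e (nat_lit 557067) (nat_lit 9) (.e (nat_lit 2606) (nat_lit 163) .nil)))))))) (.g (nat_lit 1) (.e (nat_lit 188232) (nat_lit 0) .nil) .nil))) 
(.lf (nat_lit 508483) (.g (nat_lit 1810) (.e (nat_lit 172066) (nat_lit 3) (.e (nat_lit 204829) (nat_lit 18) (.e (nat_lit 57704) (nat_lit 164) (.e (nat_lit 2515) (nat_lit 157) .nil)))) (.g (nat_lit 0) (.e (nat_lit 189248) (nat_lit 0) .nil) .nil)))) (.nd (nat_lit 9) 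
(.lf (nat_lit 508227) (.g (nat_lit 2575) (.e (nat_lit 172062) (nat_lit 2) (.e (nat_lit 196666) (nat_lit 13) (.e (nat_lit 65617) (nat_lit 10) (.e (nat_lit 344133) (nat_lit 26) (.e (nat_lit 557091) (nat_lit 12) (.e (nat_lit 163844) (nat_lit 0) (.e (nat_lit 6255) (nat_lit 337) (.e (nat_lit 2622) (nat_lit 164) .nil)))))))) (.g (nat_lit 1) (.e (nat_lit 188722) (nat_lit 0) .nil) .nil))) 
(.lf (nat_lit 508739) (.g (nat_lit 3371) (.e (nat_lit 172067) (nat_lit 3) (.e (nat_lit 204869) (nat_lit 29) (.e (nat_lit 360475) (nat_lit 8) (.e (nat_lit 557091) (nat_lit 12) (.e (nat_lit 171776) (nat_lit 0) (.e (nat_lit 6374) (nat_lit 337) (.e (nat_lit 2628) (nat_lit 164) .nil))))))) (.g (nat_lit 1) (.e (nat_lit 189825) (nat_lit 0) .nil) .nil))))) (.nd (nat_lit 8) (.nd (nat_lit 9) 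
(.lf (nat_lit 508099) (.g (nat_lit 1275) (.e (nat_lit 172037) (nat_lit 0) (.e (nat_lit 7107) (nat_lit 380) (.e (nat_lit 164281) (nat_lit 222) (.e (nat_lit 57884) (nat_lit 270) (.e (nat_lit 1544) (nat_lit 109) .nil))))) (.g (nat_lit 0) (.e (nat_lit 188393) (nat_lit 0) .nil) .nil))) 
(.lf (nat_lit 508611) (.g (nat_lit 3978) (.e (nat_lit 172067) (nat_lit 3) (.e (nat_lit 204846) (nat_lit 24) (.e (nat_lit 319533) (nat_lit 16) (.e (nat_lit 286735) (nat_lit 3) (.e (nat_lit 98323) (nat_lit 17) (.e (nat_lit 7936) (nat_lit 392) .nil)))))) (.g (nat_lit 1) (.e (nat_lit 189488) (nat_lit 0) .nil) .nil)))) (.nd (nat_lit 9) 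
(.lf (nat_lit 508355) (.g (nat_lit 3090) (.e (nat_lit 172064) (nat_lit 2) (.e (nat_lit 196666) (nat_lit 13) (.e (nat_lit 65617) (nat_lit 10) (.e (nat_lit 344132) (nat_lit 26) (.e (nat_lit 557091) (nat_lit 12) (.e (nat_lit 163843) (nat_lit 0) (.e (nat_lit 6255) (nat_lit 337) (.e (nat_lit 2630) (nat_lit 164) .nil)))))))) (.g (nat_lit 1) (.e (nat_lit 188989) (nat_lit 0) .nil) .nil))) 
(.lf (nat_lit 508867) (.g (nat_lit 1001) (.e (nat_lit 172077) (nat_lit 7) (.e (nat_lit 409646) (nat_lit 18) (.e (nat_lit 303146) (nat_lit 14) .nil))) (.g (nat_lit 0) (.e (nat_lit 190174) (nat_lit 0) .nil) .nil))))))) (.nd (nat_lit 6) (.nd (nat_lit 7) (.nd (nat_lit 8) (.nd (nat_lit 9) 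
(.lf (nat_lit 507939) (.g (nat_lit 2137) (.e (nat_lit 164402) (nat_lit 256) (.e (nat_lit 57427) (nat_lit 15) (.e (nat_lit 360475) (nat_lit 8) (.e (nat_lit 557090) (nat_lit 12) .nil)))) (.g (nat_lit 0) (.e (nat_lit 188189) (nat_lit 0) .nil) .nil))) 
(.lf (nat_lit 508451) (.g (nat_lit 3674) (.e (nat_lit 172065) (nat_lit 3) (.e (nat_lit 204868) (nat_lit 29) (.e (nat_lit 360475) (nat_lit 8) (.e (nat_lit 557091) (nat_lit 12) (.e (nat_lit 164018) (nat_lit 45) (.e (nat_lit 696344) (nat_lit 8) .nil)))))) (.g (nat_lit 1) (.e (nat_lit 189164) (nat_lit 0) .nil) .nil)))) (.nd (nat_lit 9) 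
(.lf (nat_lit 508195) (.g (nat_lit 1129) (.e (nat_lit 172062) (nat_lit 2) (.e (nat_lit 196666) (nat_lit 13) (.e (nat_lit 65617) (nat_lit 10) (.e (nat_lit 344127) (nat_lit 26) .nil)))) (.g (nat_lit 0) (.e (nat_lit 188688) (nat_lit 0) .nil) .nil))) 
(.lf (nat_lit 508707) (.g (nat_lit 2545) (.e (nat_lit 172067) (nat_lit 3) (.e (nat_lit 204869) (nat_lit 29) (.e (nat_lit 360475) (nat_lit 8) (.e (nat_lit 557089) (nat_lit 12) (.e (nat_lit 163847) (nat_lit 0) .nil))))) (.g (nat_lit 0) (.e (nat_lit 189781) (nat_lit 0) .nil) .nil))))) (.nd (nat_lit 8) (.nd (nat_lit 9) 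
(.lf (nat_lit 508067) (.g (nat_lit 1724) (.e (nat_lit 164403) (nat_lit 256) (.e (nat_lit 57406) (nat_lit 12) (.e (nat_lit 336427) (nat_lit 29) (.e (nat_lit 442427) (nat_lit 23) (.e (nat_lit 204809) (nat_lit 9) .nil))))) (.g (nat_lit 0) (.e (nat_lit 188343) (nat_lit 0) .nil) .nil))) 
(.lf (nat_lit 508579) (.g (nat_lit 3424) (.e (nat_lit 172067) (nat_lit 3) (.e (nat_lit 204845) (nat_lit 24) (.e (nat_lit 319530) (nat_lit 16) (.e (nat_lit 286735) (nat_lit 3) (.e (nat_lit 98323) (nat_lit 17) (.e (nat_lit 7936) (nat_lit 392) .nil)))))) (.g (nat_lit 1) (.e (nat_lit 189434) (nat_lit 0) .nil) .nil)))) (.nd (nat_lit 9) 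
(.lf (nat_lit 508323) (.g (nat_lit 2365) (.e (nat_lit 172064) (nat_lit 2) (.e (nat_lit 196666) (nat_lit 13) (.e (nat_lit 65610) (nat_lit 10) (.e (nat_lit 344129) (nat_lit 26) (.e (nat_lit 557090) (nat_lit 12) (.e (nat_lit 164016) (nat_lit 44) (.e (nat_lit 696064) (nat_lit 8) .nil))))))) (.g (nat_lit 1) (.e (nat_lit 188956) (nat_lit 0) .nil) .nil))) 
(.lf (nat_lit 508835) (.g (nat_lit 644) (.e (nat_lit 172076) (nat_lit 6) (.e (nat_lit 253991) (nat_lit 11) (.e (nat_lit 16465) (nat_lit 13) .nil))) (.g (nat_lit 0) (.e (nat_lit 190095) (nat_lit 0) .nil) .nil)))))) (.nd (nat_lit 7) (.nd (nat_lit 8) (.nd (nat_lit 9) 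
(.lf (nat_lit 508003) (.g (nat_lit 1934) (.e (nat_lit 164403) (nat_lit 256) (.e (nat_lit 57377) (nat_lit 3) (.e (nat_lit 98355) (nat_lit 26) (.e (nat_lit 426131) (nat_lit 3) (.e (nat_lit 204838) (nat_lit 20) .nil))))) (.g (nat_lit 0) (.e (nat_lit 188269) (nat_lit 0) .nil) .nil))) 
(.lf (nat_lit 508515) (.g (nat_lit 1271) (.e (nat_lit 172066) (nat_lit 3) (.e (nat_lit 204868) (nat_lit 29) (.e (nat_lit 360473) (nat_lit 8) (.e (nat_lit 557089) (nat_lit 12) .nil)))) (.g (nat_lit 0) (.e (nat_lit 189313) (nat_lit 0) .nil) .nil)))) (.nd (nat_lit 9) 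
(.lf (nat_lit 508259) (.g (nat_lit 4442) (.e (nat_lit 172064) (nat_lit 2) (.e (nat_lit 196666) (nat_lit 13) (.e (nat_lit 65610) (nat_lit 10) (.e (nat_lit 344117) (nat_lit 21) (.e (nat_lit 516097) (nat_lit 0) (.e (nat_lit 2430) (nat_lit 157) (.e (nat_lit 4516) (nat_lit 263) (.e (nat_lit 2619) (nat_lit 164) .nil)))))))) (.g (nat_lit 1) (.e (nat_lit 188803) (nat_lit 0) .nil) .nil))) 
(.lf (nat_lit 508771) (.g (nat_lit 5401) (.e (nat_lit 172069) (nat_lit 4) (.e (nat_lit 229663) (nat_lit 240) (.e (nat_lit 2612) (nat_lit 163) (.e (nat_lit 163979) (nat_lit 30) (.e (nat_lit 573493) (nat_lit 15) (.e (nat_lit 81953) (nat_lit 22) (.e (nat_lit 90170) (nat_lit 13) .nil))))))) (.g (nat_lit 1) (.e (nat_lit 189893) (nat_lit 0) .nil) .nil))))) (.nd (nat_lit 8) (.nd (nat_lit 9) 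
(.lf (nat_lit 508131) (.g (nat_lit 3883) (.e (nat_lit 172051) (nat_lit 0) (.e (nat_lit 3258) (nat_lit 198) (.e (nat_lit 540706) (nat_lit 12) (.e (nat_lit 360475) (nat_lit 8) (.e (nat_lit 557090) (nat_lit 12) (.e (nat_lit 164020) (nat_lit 45) (.e (nat_lit 696344) (nat_lit 8) .nil))))))) (.g (nat_lit 1) (.e (nat_lit 188500) (nat_lit 0) .nil) .nil))) 
(.lf (nat_lit 508643) (.g (nat_lit 971) (.e (nat_lit 172067) (nat_lit 3) (.e (nat_lit 204866) (nat_lit 28) (.e (nat_lit 352285) (nat_lit 20) (.e (nat_lit 1814) (nat_lit 121) .nil)))) (.g (nat_lit 0) (.e (nat_lit 189611) (nat_lit 0) .nil) .nil)))) (.nd (nat_lit 9) 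
(.lf (nat_lit 508387) (.g (nat_lit 3271) (.e (nat_lit 172065) (nat_lit 3) (.e (nat_lit 204831) (nat_lit 18) (.e (nat_lit 57688) (nat_lit 156) (.e (nat_lit 163874) (nat_lit 3) (.e (nat_lit 204836) (nat_lit 20) .nil))))) (.g (nat_lit 0) (.e (nat_lit 189027) (nat_lit 0) .nil) .nil))) 
(.lf (nat_lit 508899) (.g (nat_lit 3169) (.e (nat_lit 172078) (nat_lit 7) (.e (nat_lit 409648) (nat_lit 18) (.e (nat_lit 303137) (nat_lit 10) (.e (nat_lit 434275) (nat_lit 39) (.e (nat_lit 663580) (nat_lit 9) (.e (nat_lit 2416) (nat_lit 157) (.e (nat_lit 3469) (nat_lit 217) (.e (nat_lit 696344) (nat_lit 8) .nil)))))))) (.g (nat_lit 1) (.e (nat_lit 190285) (nat_lit 0) .nil) .nil)))))))) 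
(.nd (nat_lit 5) (.nd (nat_lit 6) (.nd (nat_lit 7) (.nd (nat_lit 8) (.nd (nat_lit 9) 
(.lf (nat_lit 507923) (.g (nat_lit 1935) (.e (nat_lit 164402) (nat_lit 256) (.e (nat_lit 57409) (nat_lit 12) (.e (nat_lit 336443) (nat_lit 32) (.e (nat_lit 466974) (nat_lit 22) (.e (nat_lit 196656) (nat_lit 11) .nil))))) (.g (nat_lit 0) (.e (nat_lit 188173) (nat_lit 0) .nil) .nil))) 
(.lf (nat_lit 508435) (.g (nat_lit 2051) (.e (nat_lit 172065) (nat_lit 3) (.e (nat_lit 204868) (nat_lit 29) (.e (nat_lit 360475) (nat_lit 8) (.e (nat_lit 557089) (nat_lit 12) .nil)))) (.g (nat_lit 0) (.e (nat_lit 189143) (nat_lit 0) .nil) .nil)))) (.nd (nat_lit 9) 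
(.lf (nat_lit 508179) (.g (nat_lit 3603) (.e (nat_lit 172062) (nat_lit 2) (.e (nat_lit 196666) (nat_lit 13) (.e (nat_lit 65610) (nat_lit 10) (.e (nat_lit 344129) (nat_lit 26) (.e (nat_lit 557090) (nat_lit 12) (.e (nat_lit 163843) (nat_lit 0) (.e (nat_lit 6374) (nat_lit 337) (.e (nat_lit 2628) (nat_lit 164) .nil)))))))) (.g (nat_lit 1) (.e (nat_lit 188671) (nat_lit 0) .nil) .nil))) 
(.lf (nat_lit 508691) (.g (nat_lit 2516) (.e (nat_lit 172067) (nat_lit 3) (.e (nat_lit 204869) (nat_lit 29) (.e (nat_lit 360474) (nat_lit 8) (.e (nat_lit 557094) (nat_lit 12) (.e (nat_lit 163852) (nat_lit 0) (.e (nat_lit 6273) (nat_lit 337) (.e (nat_lit 2632) (nat_lit 164) .nil))))))) (.g (nat_lit 1) (.e (nat_lit 189748) (nat_lit 0) .nil) .nil))))) (.nd (nat_lit 8) (.nd (nat_lit 9) 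
(.lf (nat_lit 508051) (.g (nat_lit 4601) (.e (nat_lit 164403) (nat_lit 256) (.e (nat_lit 57378) (nat_lit 3) (.e (nat_lit 98368) (nat_lit 27) (.e (nat_lit 434248) (nat_lit 28) (.e (nat_lit 573489) (nat_lit 14) (.e (nat_lit 73755) (nat_lit 8) (.e (nat_lit 557067) (nat_lit 9) (.e (nat_lit 2598) (nat_lit 163) .nil)))))))) (.g (nat_lit 1) (.e (nat_lit 188327) (nat_lit 0) .nil) .nil))) 
(.lf (nat_lit 508563) (.g (nat_lit 1328) (.e (nat_lit 172067) (nat_lit 3) (.e (nat_lit 204809) (nat_lit 9) (.e (nat_lit 426408) (nat_lit 15) (.e (nat_lit 7936) (nat_lit 121) .nil)))) (.g (nat_lit 0) (.e (nat_lit 189402) (nat_lit 0) .nil) .nil)))) (.nd (nat_lit 9) 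
(.lf (nat_lit 508307) (.g (nat_lit 3227) (.e (nat_lit 172064) (nat_lit 2) (.e (nat_lit 196666) (nat_lit 13) (.e (nat_lit 65610) (nat_lit 10) (.e (nat_lit 344129) (nat_lit 26) (.e (nat_lit 557090) (nat_lit 12) (.e (nat_lit 163841) (nat_lit 0) (.e (nat_lit 6252) (nat_lit 337) (.e (nat_lit 2630) (nat_lit 164) .nil)))))))) (.g (nat_lit 1) (.e (nat_lit 188939) (nat_lit 0) .nil) .nil))) 
(.lf (nat_lit 508819) (.g (nat_lit 1213) (.e (nat_lit 172076) (nat_lit 6) (.e (nat_lit 253988) (nat_lit 11) (.e (nat_lit 16463) (nat_lit 13) (.e (nat_lit 483361) (nat_lit 17) (.e (nat_lit 7936) (nat_lit 361) .nil))))) (.g (nat_lit 0) (.e (nat_lit 190058) (nat_lit 0) .nil) .nil)))))) (.nd (nat_lit 7) (.nd (nat_lit 8) (.nd (nat_lit 9) 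
(.lf (nat_lit 507987) (.g (nat_lit 1881) (.e (nat_lit 164403) (nat_lit 256) (.e (nat_lit 57373) (nat_lit 2) (.e (nat_lit 90174) (nat_lit 14) (.e (nat_lit 180245) (nat_lit 5) .nil)))) (.g (nat_lit 0) (.e (nat_lit 188253) (nat_lit 0) .nil) .nil))) 
(.lf (nat_lit 508499) (.g (nat_lit 3398) (.e (nat_lit 172066) (nat_lit 3) (.e (nat_lit 204846) (nat_lit 24) (.e (nat_lit 319530) (nat_lit 16) (.e (nat_lit 286735) (nat_lit 3) (.e (nat_lit 98323) (nat_lit 17) (.e (nat_lit 7936) (nat_lit 392) .nil)))))) (.g (nat_lit 1) (.e (nat_lit 189275) (nat_lit 0) .nil) .nil)))) (.nd (nat_lit 9) 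
(.lf (nat_lit 508243) (.g (nat_lit 2749) (.e (nat_lit 172063) (nat_lit 2) (.e (nat_lit 196666) (nat_lit 13) (.e (nat_lit 65617) (nat_lit 10) (.e (nat_lit 344130) (nat_lit 26) (.e (nat_lit 557090) (nat_lit 12) (.e (nat_lit 164020) (nat_lit 45) (.e (nat_lit 696344) (nat_lit 8) .nil))))))) (.g (nat_lit 1) (.e (nat_lit 188754) (nat_lit 0) .nil) .nil))) 
(.lf (nat_lit 508755) (.g (nat_lit 2513) (.e (nat_lit 172067) (nat_lit 3) (.e (nat_lit 204885) (nat_lit 33) (.e (nat_lit 401448) (nat_lit 10) (.e (nat_lit 434232) (nat_lit 23) (.e (nat_lit 532490) (nat_lit 0) (.e (nat_lit 7936) (nat_lit 361) .nil)))))) (.g (nat_lit 1) (.e (nat_lit 189872) (nat_lit 0) .nil) .nil))))) (.nd (nat_lit 8) (.nd (nat_lit 9) 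
(.lf (nat_lit 508115) (.g (nat_lit 1304) (.e (nat_lit 172039) (nat_lit 0) (.e (nat_lit 7107) (nat_lit 380) (.e (nat_lit 164281) (nat_lit 222) (.e (nat_lit 57884) (nat_lit 270) (.e (nat_lit 1550) (nat_lit 109) .nil))))) (.g (nat_lit 0) (.e (nat_lit 188419) (nat_lit 0) .nil) .nil))) 
(.lf (nat_lit 508627) (.g (nat_lit 3618) (.e (nat_lit 172067) (nat_lit 3) (.e (nat_lit 204855) (nat_lit 26) (.e (nat_lit 336099) (nat_lit 9) (.e (nat_lit 336013) (nat_lit 2) (.e (nat_lit 90202) (nat_lit 21) .nil))))) (.g (nat_lit 0) (.e (nat_lit 189539) (nat_lit 0) .nil) .nil)))) (.nd (nat_lit 9) 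
(.lf (nat_lit 508371) (.g (nat_lit 3172) (.e (nat_lit 172064) (nat_lit 2) (.e (nat_lit 196666) (nat_lit 13) (.e (nat_lit 65617) (nat_lit 10) (.e (nat_lit 344133) (nat_lit 26) (.e (nat_lit 557091) (nat_lit 12) (.e (nat_lit 163843) (nat_lit 0) (.e (nat_lit 6255) (nat_lit 337) (.e (nat_lit 2620) (nat_lit 164) .nil)))))))) (.g (nat_lit 1) (.e (nat_lit 189005) (nat_lit 0) .nil) .nil))) 
(.lf (nat_lit 508883) (.g (nat_lit 1531) (.e (nat_lit 172078) (nat_lit 7) (.e (nat_lit 409645) (nat_lit 18) (.e (nat_lit 303143) (nat_lit 12) (.e (nat_lit 475220) (nat_lit 44) .nil)))) (.g (nat_lit 0) (.e (nat_lit 190262) (nat_lit 0) .nil) .nil))))))) (.nd (nat_lit 6) (.nd (nat_lit 7) (.nd (nat_lit 8) (.nd (nat_lit 9) 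
(.lf (nat_lit 507955) (.g (nat_lit 2746) (.e (nat_lit 164403) (nat_lit 256) (.e (nat_lit 57371) (nat_lit 2) (.e (nat_lit 90174) (nat_lit 14) (.e (nat_lit 180243) (nat_lit 5) (.e (nat_lit 532513) (nat_lit 3) (.e (nat_lit 114714) (nat_lit 22) (.e (nat_lit 90121) (nat_lit 9) (.e (nat_lit 2611) (nat_lit 163) .nil)))))))) (.g (nat_lit 1) (.e (nat_lit 188216) (nat_lit 0) .nil) .nil))) 
(.lf (nat_lit 508467) (.g (nat_lit 2385) (.e (nat_lit 172065) (nat_lit 3) (.e (nat_lit 204869) (nat_lit 29) (.e (nat_lit 360475) (nat_lit 8) (.e (nat_lit 557089) (nat_lit 12) (.e (nat_lit 163850) (nat_lit 0) .nil))))) (.g (nat_lit 0) (.e (nat_lit 189183) (nat_lit 0) .nil) .nil)))) (.nd (nat_lit 9) 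
(.lf (nat_lit 508211) (.g (nat_lit 4285) (.e (nat_lit 172062) (nat_lit 2) (.e (nat_lit 196666) (nat_lit 13) (.e (nat_lit 65617) (nat_lit 10) (.e (nat_lit 344132) (nat_lit 26) (.e (nat_lit 557090) (nat_lit 12) (.e (nat_lit 164020) (nat_lit 45) (.e (nat_lit 696344) (nat_lit 8) .nil))))))) (.g (nat_lit 1) (.e (nat_lit 188706) (nat_lit 0) .nil) .nil))) 
(.lf (nat_lit 508723) (.g (nat_lit 2547) (.e (nat_lit 172067) (nat_lit 3) (.e (nat_lit 204869) (nat_lit 29) (.e (nat_lit 360475) (nat_lit 8) (.e (nat_lit 557091) (nat_lit 12) (.e (nat_lit 163840) (nat_lit 0) (.e (nat_lit 6273) (nat_lit 337) (.e (nat_lit 2632) (nat_lit 164) .nil))))))) (.g (nat_lit 1) (.e (nat_lit 189798) (nat_lit 0) .nil) .nil))))) (.nd (nat_lit 8) (.nd (nat_lit 9) 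
(.lf (nat_lit 508083) (.g (nat_lit 4897) (.e (nat_lit 164403) (nat_lit 256) (.e (nat_lit 57588) (nat_lit 73) (.e (nat_lit 426124) (nat_lit 2) (.e (nat_lit 196681) (nat_lit 17) (.e (nat_lit 131086) (nat_lit 1) (.e (nat_lit 57854) (nat_lit 252) (.e (nat_lit 57378) (nat_lit 3) (.e (nat_lit 98335) (nat_lit 18) .nil)))))))) (.g (nat_lit 1) (.e (nat_lit 188365) (nat_lit 0) .nil) .nil))) 
(.lf (nat_lit 508595) (.g (nat_lit 4088) (.e (nat_lit 172067) (nat_lit 3) (.e (nat_lit 204846) (nat_lit 24) (.e (nat_lit 319530) (nat_lit 16) (.e (nat_lit 286735) (nat_lit 3) (.e (nat_lit 98320) (nat_lit 17) (.e (nat_lit 7386) (nat_lit 392) .nil)))))) (.g (nat_lit 1) (.e (nat_lit 189460) (nat_lit 0) .nil) .nil)))) (.nd (nat_lit 9) 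
(.lf (nat_lit 508339) (.g (nat_lit 1960) (.e (nat_lit 172064) (nat_lit 2) (.e (nat_lit 196666) (nat_lit 13) (.e (nat_lit 65617) (nat_lit 10) (.e (nat_lit 344130) (nat_lit 26) (.e (nat_lit 557089) (nat_lit 12) .nil))))) (.g (nat_lit 0) (.e (nat_lit 188973) (nat_lit 0) .nil) .nil))) 
(.lf (nat_lit 508851) (.g (nat_lit 1074) (.e (nat_lit 172076) (nat_lit 6) (.e (nat_lit 253992) (nat_lit 11) (.e (nat_lit 16463) (nat_lit 13) (.e (nat_lit 483345) (nat_lit 17) .nil)))) (.g (nat_lit 0) (.e (nat_lit 190131) (nat_lit 0) .nil) .nil)))))) (.nd (nat_lit 7) (.nd (nat_lit 8) (.nd (nat_lit 9) 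
(.lf (nat_lit 508019) (.g (nat_lit 1003) (.e (nat_lit 164403) (nat_lit 256) (.e (nat_lit 57378) (nat_lit 3) (.e (nat_lit 98355) (nat_lit 26) .nil))) (.g (nat_lit 0) (.e (nat_lit 188294) (nat_lit 0) .nil) .nil))) 
(.lf (nat_lit 508531) (.g (nat_lit 3124) (.e (nat_lit 172066) (nat_lit 3) (.e (nat_lit 204869) (nat_lit 29) (.e (nat_lit 360475) (nat_lit 8) (.e (nat_lit 557089) (nat_lit 12) (.e (nat_lit 163844) (nat_lit 0) (.e (nat_lit 6250) (nat_lit 337) (.e (nat_lit 2622) (nat_lit 164) .nil))))))) (.g (nat_lit 1) (.e (nat_lit 189336) (nat_lit 0) .nil) .nil)))) (.nd (nat_lit 9) 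
(.lf (nat_lit 508275) (.g (nat_lit 2416) (.e (nat_lit 172064) (nat_lit 2) (.e (nat_lit 196666) (nat_lit 13) (.e (nat_lit 65610) (nat_lit 10) (.e (nat_lit 344117) (nat_lit 21) (.e (nat_lit 516099) (nat_lit 0) (.e (nat_lit 3335) (nat_lit 205) (.e (nat_lit 598061) (nat_lit 16) .nil))))))) (.g (nat_lit 1) (.e (nat_lit 188822) (nat_lit 0) .nil) .nil))) 
(.lf (nat_lit 508787) (.g (nat_lit 869) (.e (nat_lit 172074) (nat_lit 6) (.e (nat_lit 253988) (nat_lit 11) (.e (nat_lit 16465) (nat_lit 13) (.e (nat_lit 491264) (nat_lit 17) .nil)))) (.g (nat_lit 0) (.e (nat_lit 189962) (nat_lit 0) .nil) .nil))))) (.nd (nat_lit 8) (.nd (nat_lit 9) 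
(.lf (nat_lit 508147) (.g (nat_lit 438) (.e (nat_lit 172059) (nat_lit 1) (.e (nat_lit 164399) (nat_lit 256) (.e (nat_lit 57447) (nat_lit 19) .nil))) (.g (nat_lit 0) (.e (nat_lit 188538) (nat_lit 0) .nil) .nil))) 
(.lf (nat_lit 508659) (.g (nat_lit 2053) (.e (nat_lit 172067) (nat_lit 3) (.e (nat_lit 204868) (nat_lit 29) (.e (nat_lit 360475) (nat_lit 8) (.e (nat_lit 557089) (nat_lit 12) .nil)))) (.g (nat_lit 0) (.e (nat_lit 189689) (nat_lit 0) .nil) .nil)))) (.nd (nat_lit 9) 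
(.lf (nat_lit 508403) (.g (nat_lit 2145) (.e (nat_lit 172065) (nat_lit 3) (.e (nat_lit 204846) (nat_lit 24) (.e (nat_lit 319529) (nat_lit 16) (.e (nat_lit 286735) (nat_lit 3) (.e (nat_lit 98323) (nat_lit 17) .nil))))) (.g (nat_lit 0) (.e (nat_lit 189046) (nat_lit 0) .nil) .nil))) 
(.lf (nat_lit 508915) (.g (nat_lit 533) (.e (nat_lit 172079) (nat_lit 7) (.e (nat_lit 409618) (nat_lit 10) (.e (nat_lit 4990) (nat_lit 288) .nil))) (.g (nat_lit 0) (.e (nat_lit 190324) (nat_lit 0) .nil) .nil))))))))) (.nd (nat_lit 4) (.nd (nat_lit 5) (.nd (nat_lit 6) (.nd (nat_lit 7) (.nd (nat_lit 8) (.nd (nat_lit 9) 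
(.lf (nat_lit 507915) (.g (nat_lit 1828) (.e (nat_lit 164402) (nat_lit 256) (.e (nat_lit 57400) (nat_lit 10) (.e (nat_lit 319534) (nat_lit 16) (.e (nat_lit 286744) (nat_lit 9) .nil)))) (.g (nat_lit 0) (.e (nat_lit 188165) (nat_lit 0) .nil) .nil))) 
(.lf (nat_lit 508427) (.g (nat_lit 4020) (.e (nat_lit 172065) (nat_lit 3) (.e (nat_lit 204868) (nat_lit 29) (.e (nat_lit 360472) (nat_lit 8) (.e (nat_lit 557090) (nat_lit 12) (.e (nat_lit 164020) (nat_lit 45) (.e (nat_lit 696344) (nat_lit 8) .nil)))))) (.g (nat_lit 1) (.e (nat_lit 189130) (nat_lit 0) .nil) .nil)))) (.nd (nat_lit 9) 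
(.lf (nat_lit 508171) (.g (nat_lit 4804) (.e (nat_lit 172062) (nat_lit 2) (.e (nat_lit 196666) (nat_lit 13) (.e (nat_lit 65610) (nat_lit 10) (.e (nat_lit 344129) (nat_lit 26) (.e (nat_lit 557089) (nat_lit 12) (.e (nat_lit 163849) (nat_lit 0) (.e (nat_lit 6254) (nat_lit 337) (.e (nat_lit 2630) (nat_lit 164) .nil)))))))) (.g (nat_lit 1) (.e (nat_lit 188663) (nat_lit 0) .nil) .nil))) 
(.lf (nat_lit 508683) (.g (nat_lit 3542) (.e (nat_lit 172067) (nat_lit 3) (.e (nat_lit 204869) (nat_lit 29) (.e (nat_lit 360474) (nat_lit 8) (.e (nat_lit 557091) (nat_lit 12) (.e (nat_lit 164020) (nat_lit 45) .nil))))) (.g (nat_lit 0) (.e (nat_lit 189740) (nat_lit 0) .nil) .nil))))) (.nd (nat_lit 8) (.nd (nat_lit 9) 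
(.lf (nat_lit 508043) (.g (nat_lit 1104) (.e (nat_lit 164403) (nat_lit 256) (.e (nat_lit 57378) (nat_lit 3) (.e (nat_lit 98368) (nat_lit 27) .nil))) (.g (nat_lit 0) (.e (nat_lit 188319) (nat_lit 0) .nil) .nil))) 
(.lf (nat_lit 508555) (.g (nat_lit 3548) (.e (nat_lit 172066) (nat_lit 3) (.e (nat_lit 204869) (nat_lit 29) (.e (nat_lit 360475) (nat_lit 8) (.e (nat_lit 557091) (nat_lit 12) (.e (nat_lit 164016) (nat_lit 44) (.e (nat_lit 696064) (nat_lit 8) .nil)))))) (.g (nat_lit 1) (.e (nat_lit 189381) (nat_lit 0) .nil) .nil)))) (.nd (nat_lit 9) 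
(.lf (nat_lit 508299) (.g (nat_lit 2592) (.e (nat_lit 172064) (nat_lit 2) (.e (nat_lit 196666) (nat_lit 13) (.e (nat_lit 65610) (nat_lit 10) (.e (nat_lit 344129) (nat_lit 26) (.e (nat_lit 557089) (nat_lit 12) (.e (nat_lit 163847) (nat_lit 0) (.e (nat_lit 6255) (nat_lit 337) (.e (nat_lit 2630) (nat_lit 164) .nil)))))))) (.g (nat_lit 1) (.e (nat_lit 188931) (nat_lit 0) .nil) .nil))) 
(.lf (nat_lit 508811) (.g (nat_lit 1596) (.e (nat_lit 172074) (nat_lit 6) (.e (nat_lit 253992) (nat_lit 11) (.e (nat_lit 16466) (nat_lit 13) (.e (nat_lit 483349) (nat_lit 17) .nil)))) (.g (nat_lit 0) (.e (nat_lit 190013) (nat_lit 0) .nil) .nil)))))) (.nd (nat_lit 7) (.nd (nat_lit 8) (.nd (nat_lit 9) 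
(.lf (nat_lit 507979) (.g (nat_lit 4614) (.e (nat_lit 164403) (nat_lit 256) (.e (nat_lit 57373) (nat_lit 2) (.e (nat_lit 90173) (nat_lit 14) (.e (nat_lit 180252) (nat_lit 10) (.e (nat_lit 573489) (nat_lit 14) (.e (nat_lit 73755) (nat_lit 8) (.e (nat_lit 557067) (nat_lit 9) (.e (nat_lit 2606) (nat_lit 163) .nil)))))))) (.g (nat_lit 1) (.e (nat_lit 188245) (nat_lit 0) .nil) .nil))) 
(.lf (nat_lit 508491) (.g (nat_lit 2815) (.e (nat_lit 172066) (nat_lit 3) (.e (nat_lit 204845) (nat_lit 24) (.e (nat_lit 319531) (nat_lit 16) (.e (nat_lit 286735) (nat_lit 3) (.e (nat_lit 98325) (nat_lit 17) (.e (nat_lit 7936) (nat_lit 392) .nil)))))) (.g (nat_lit 1) (.e (nat_lit 189263) (nat_lit 0) .nil) .nil)))) (.nd (nat_lit 9) 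
(.lf (nat_lit 508235) (.g (nat_lit 2421) (.e (nat_lit 172062) (nat_lit 2) (.e (nat_lit 196666) (nat_lit 13) (.e (nat_lit 65617) (nat_lit 10) (.e (nat_lit 344133) (nat_lit 26) (.e (nat_lit 557092) (nat_lit 12) (.e (nat_lit 163849) (nat_lit 0) (.e (nat_lit 6255) (nat_lit 337) (.e (nat_lit 2630) (nat_lit 164) .nil)))))))) (.g (nat_lit 1) (.e (nat_lit 188730) (nat_lit 0) .nil) .nil))) 
(.lf (nat_lit 508747) (.g (nat_lit 2835) (.e (nat_lit 172067) (nat_lit 3) (.e (nat_lit 204869) (nat_lit 29) (.e (nat_lit 360475) (nat_lit 8) (.e (nat_lit 557111) (nat_lit 16) .nil)))) (.g (nat_lit 0) (.e (nat_lit 189833) (nat_lit 0) .nil) .nil))))) (.nd (nat_lit 8) (.nd (nat_lit 9) 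
(.lf (nat_lit 508107) (.g (nat_lit 4474) (.e (nat_lit 172039) (nat_lit 0) (.e (nat_lit 3397) (nat_lit 211) (.e (nat_lit 647181) (nat_lit 3) (.e (nat_lit 163977) (nat_lit 30) (.e (nat_lit 573485) (nat_lit 13) (.e (nat_lit 65604) (nat_lit 9) (.e (nat_lit 336013) (nat_lit 2) (.e (nat_lit 90170) (nat_lit 13) .nil)))))))) (.g (nat_lit 1) (.e (nat_lit 188408) (nat_lit 0) .nil) .nil))) 
(.lf (nat_lit 508619) (.g (nat_lit 3492) (.e (nat_lit 172067) (nat_lit 3) (.e (nat_lit 204846) (nat_lit 24) (.e (nat_lit 319534) (nat_lit 16) (.e (nat_lit 286735) (nat_lit 3) (.e (nat_lit 98323) (nat_lit 17) (.e (nat_lit 7936) (nat_lit 392) .nil)))))) (.g (nat_lit 1) (.e (nat_lit 189500) (nat_lit 0) .nil) .nil)))) (.nd (nat_lit 9) 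
(.lf (nat_lit 508363) (.g (nat_lit 2827) (.e (nat_lit 172064) (nat_lit 2) (.e (nat_lit 196666) (nat_lit 13) (.e (nat_lit 65617) (nat_lit 10) (.e (nat_lit 344133) (nat_lit 26) (.e (nat_lit 557089) (nat_lit 12) (.e (nat_lit 163843) (nat_lit 0) (.e (nat_lit 6252) (nat_lit 337) (.e (nat_lit 2630) (nat_lit 164) .nil)))))))) (.g (nat_lit 1) (.e (nat_lit 188997) (nat_lit 0) .nil) .nil))) 
(.lf (nat_lit 508875) (.g (nat_lit 1469) (.e (nat_lit 172078) (nat_lit 7) (.e (nat_lit 409645) (nat_lit 18) (.e (nat_lit 303143) (nat_lit 12) (.e (nat_lit 475197) (nat_lit 40) .nil)))) (.g (nat_lit 0) (.e (nat_lit 190248) (nat_lit 0) .nil) .nil))))))) (.nd (nat_lit 6) (.nd (nat_lit 7) (.nd (nat_lit 8) (.nd (nat_lit 9) 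
(.lf (nat_lit 507947) (.g (nat_lit 1590) (.e (nat_lit 164403) (nat_lit 256) (.e (nat_lit 57371) (nat_lit 2) (.e (nat_lit 90166) (nat_lit 13) (.e (nat_lit 172121) (nat_lit 13) (.e (nat_lit 483341) (nat_lit 9) .nil))))) (.g (nat_lit 0) (.e (nat_lit 188208) (nat_lit 0) .nil) .nil))) 
(.lf (nat_lit 508459) (.g (nat_lit 1307) (.e (nat_lit 172065) (nat_lit 3) (.e (nat_lit 204869) (nat_lit 29) (.e (nat_lit 360474) (nat_lit 8) (.e (nat_lit 557094) (nat_lit 12) .nil)))) (.g (nat_lit 0) (.e (nat_lit 189175) (nat_lit 0) .nil) .nil)))) (.nd (nat_lit 9) 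
(.lf (nat_lit 508203) (.g (nat_lit 4158) (.e (nat_lit 172062) (nat_lit 2) (.e (nat_lit 196666) (nat_lit 13) (.e (nat_lit 65617) (nat_lit 10) (.e (nat_lit 344130) (nat_lit 26) (.e (nat_lit 557090) (nat_lit 12) (.e (nat_lit 163844) (nat_lit 0) (.e (nat_lit 6252) (nat_lit 337) (.e (nat_lit 2630) (nat_lit 164) .nil)))))))) (.g (nat_lit 1) (.e (nat_lit 188698) (nat_lit 0) .nil) .nil))) 
(.lf (nat_lit 508715) (.g (nat_lit 2989) (.e (nat_lit 172067) (nat_lit 3) (.e (nat_lit 204869) (nat_lit 29) (.e (nat_lit 360475) (nat_lit 8) (.e (nat_lit 557089) (nat_lit 12) (.e (nat_lit 164017) (nat_lit 44) (.e (nat_lit 696064) (nat_lit 8) .nil)))))) (.g (nat_lit 1) (.e (nat_lit 189790) (nat_lit 0) .nil) .nil))))) (.nd (nat_lit 8) (.nd (nat_lit 9) 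
(.lf (nat_lit 508075) (.g (nat_lit 1812) (.e (nat_lit 164403) (nat_lit 256) (.e (nat_lit 57409) (nat_lit 12) (.e (nat_lit 336426) (nat_lit 29) (.e (nat_lit 442427) (nat_lit 23) (.e (nat_lit 204809) (nat_lit 9) .nil))))) (.g (nat_lit 0) (.e (nat_lit 188352) (nat_lit 0) .nil) .nil))) 
(.lf (nat_lit 508587) (.g (nat_lit 2663) (.e (nat_lit 172067) (nat_lit 3) (.e (nat_lit 204846) (nat_lit 24) (.e (nat_lit 319528) (nat_lit 16) (.e (nat_lit 286733) (nat_lit 2) (.e (nat_lit 90165) (nat_lit 12) (.e (nat_lit 171776) (nat_lit 205) .nil)))))) (.g (nat_lit 1) (.e (nat_lit 189450) (nat_lit 0) .nil) .nil)))) (.nd (nat_lit 9) 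
(.lf (nat_lit 508331) (.g (nat_lit 4143) (.e (nat_lit 172064) (nat_lit 2) (.e (nat_lit 196666) (nat_lit 13) (.e (nat_lit 65617) (nat_lit 10) (.e (nat_lit 344127) (nat_lit 26) (.e (nat_lit 557090) (nat_lit 12) (.e (nat_lit 163844) (nat_lit 0) (.e (nat_lit 6374) (nat_lit 337) (.e (nat_lit 2628) (nat_lit 164) .nil)))))))) (.g (nat_lit 1) (.e (nat_lit 188965) (nat_lit 0) .nil) .nil))) 
(.lf (nat_lit 508843) (.g (nat_lit 2308) (.e (nat_lit 172076) (nat_lit 6) (.e (nat_lit 253991) (nat_lit 11) (.e (nat_lit 16466) (nat_lit 13) (.e (nat_lit 483350) (nat_lit 17) (.e (nat_lit 7936) (nat_lit 361) .nil))))) (.g (nat_lit 0) (.e (nat_lit 190103) (nat_lit 0) .nil) .nil)))))) (.nd (nat_lit 7) (.nd (nat_lit 8) (.nd (nat_lit 9) 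
(.lf (nat_lit 508011) (.g (nat_lit 2755) (.e (nat_lit 164403) (nat_lit 256) (.e (nat_lit 57377) (nat_lit 3) (.e (nat_lit 98365) (nat_lit 26) (.e (nat_lit 426325) (nat_lit 13) (.e (nat_lit 483336) (nat_lit 9) .nil))))) (.g (nat_lit 0) (.e (nat_lit 188278) (nat_lit 0) .nil) .nil))) 
(.lf (nat_lit 508523) (.g (nat_lit 2341) (.e (nat_lit 172066) (nat_lit 3) (.e (nat_lit 204869) (nat_lit 29) (.e (nat_lit 360474) (nat_lit 8) (.e (nat_lit 557088) (nat_lit 12) .nil)))) (.g (nat_lit 0) (.e (nat_lit 189322) (nat_lit 0) .nil) .nil)))) (.nd (nat_lit 9) 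
(.lf (nat_lit 508267) (.g (nat_lit 2448) (.e (nat_lit 172064) (nat_lit 2) (.e (nat_lit 196666) (nat_lit 13) (.e (nat_lit 65610) (nat_lit 10) (.e (nat_lit 344117) (nat_lit 21) (.e (nat_lit 516098) (nat_lit 0) (.e (nat_lit 2409) (nat_lit 157) (.e (nat_lit 4506) (nat_lit 263) (.e (nat_lit 2629) (nat_lit 164) .nil)))))))) (.g (nat_lit 1) (.e (nat_lit 188811) (nat_lit 0) .nil) .nil))) 
(.lf (nat_lit 508779) (.g (nat_lit 2156) (.e (nat_lit 179968) (nat_lit 4) (.e (nat_lit 229663) (nat_lit 240) (.e (nat_lit 2612) (nat_lit 163) (.e (nat_lit 163977) (nat_lit 30) (.e (nat_lit 573491) (nat_lit 15) .nil))))) (.g (nat_lit 0) (.e (nat_lit 189927) (nat_lit 0) .nil) .nil))))) (.nd (nat_lit 8) (.nd (nat_lit 9) 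
(.lf (nat_lit 508139) (.g (nat_lit 4050) (.e (nat_lit 172059) (nat_lit 1) (.e (nat_lit 164348) (nat_lit 240) (.e (nat_lit 2610) (nat_lit 163) (.e (nat_lit 163977) (nat_lit 30) (.e (nat_lit 573491) (nat_lit 15) (.e (nat_lit 81951) (nat_lit 22) (.e (nat_lit 90170) (nat_lit 13) .nil))))))) (.g (nat_lit 1) (.e (nat_lit 188529) (nat_lit 0) .nil) .nil))) 
(.lf (nat_lit 508651) (.g (nat_lit 2494) (.e (nat_lit 172067) (nat_lit 3) (.e (nat_lit 204868) (nat_lit 29) (.e (nat_lit 360473) (nat_lit 8) (.e (nat_lit 557091) (nat_lit 12) (.e (nat_lit 164019) (nat_lit 45) (.e (nat_lit 696342) (nat_lit 8) .nil)))))) (.g (nat_lit 1) (.e (nat_lit 189675) (nat_lit 0) .nil) .nil)))) (.nd (nat_lit 9) 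
(.lf (nat_lit 508395) (.g (nat_lit 2281) (.e (nat_lit 172065) (nat_lit 3) (.e (nat_lit 204845) (nat_lit 24) (.e (nat_lit 319529) (nat_lit 16) (.e (nat_lit 286735) (nat_lit 3) (.e (nat_lit 98323) (nat_lit 17) (.e (nat_lit 7936) (nat_lit 392) .nil)))))) (.g (nat_lit 1) (.e (nat_lit 189038) (nat_lit 0) .nil) .nil))) 
(.lf (nat_lit 508907) (.g (nat_lit 913) (.e (nat_lit 172078) (nat_lit 7) (.e (nat_lit 409649) (nat_lit 18) (.e (nat_lit 303146) (nat_lit 14) .nil))) (.g (nat_lit 0) (.e (nat_lit 190301) (nat_lit 0) .nil) .nil)))))))) (.nd (nat_lit 5) (.nd (nat_lit 6) (.nd (nat_lit 7) (.nd (nat_lit 8) (.nd (nat_lit 9) 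
(.lf (nat_lit 507931) (.g (nat_lit 783) (.e (nat_lit 164402) (nat_lit 256) (.e (nat_lit 57427) (nat_lit 15) (.e (nat_lit 360467) (nat_lit 3) .nil))) (.g (nat_lit 0) (.e (nat_lit 188181) (nat_lit 0) .nil) .nil))) 
(.lf (nat_lit 508443) (.g (nat_lit 4030) (.e (nat_lit 172065) (nat_lit 3) (.e (nat_lit 204868) (nat_lit 29) (.e (nat_lit 360475) (nat_lit 8) (.e (nat_lit 557089) (nat_lit 12) (.e (nat_lit 164020) (nat_lit 45) (.e (nat_lit 696344) (nat_lit 8) .nil)))))) (.g (nat_lit 1) (.e (nat_lit 189154) (nat_lit 0) .nil) .nil)))) (.nd (nat_lit 9) 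
(.lf (nat_lit 508187) (.g (nat_lit 3293) (.e (nat_lit 172062) (nat_lit 2) (.e (nat_lit 196666) (nat_lit 13) (.e (nat_lit 65610) (nat_lit 10) (.e (nat_lit 344129) (nat_lit 26) (.e (nat_lit 557090) (nat_lit 12) (.e (nat_lit 163849) (nat_lit 0) (.e (nat_lit 6252) (nat_lit 337) (.e (nat_lit 2630) (nat_lit 164) .nil)))))))) (.g (nat_lit 1) (.e (nat_lit 188679) (nat_lit 0) .nil) .nil))) 
(.lf (nat_lit 508699) (.g (nat_lit 1409) (.e (nat_lit 172067) (nat_lit 3) (.e (nat_lit 204869) (nat_lit 29) (.e (nat_lit 360475) (nat_lit 8) (.e (nat_lit 557089) (nat_lit 12) .nil)))) (.g (nat_lit 0) (.e (nat_lit 189767) (nat_lit 0) .nil) .nil))))) (.nd (nat_lit 8) (.nd (nat_lit 9) 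
(.lf (nat_lit 508059) (.g (nat_lit 3626) (.e (nat_lit 164403) (nat_lit 256) (.e (nat_lit 57378) (nat_lit 3) (.e (nat_lit 98376) (nat_lit 30) (.e (nat_lit 458789) (nat_lit 23) (.e (nat_lit 532515) (nat_lit 3) (.e (nat_lit 114716) (nat_lit 22) (.e (nat_lit 90140) (nat_lit 9) (.e (nat_lit 2611) (nat_lit 163) .nil)))))))) (.g (nat_lit 1) (.e (nat_lit 188335) (nat_lit 0) .nil) .nil))) 
(.lf (nat_lit 508571) (.g (nat_lit 2382) (.e (nat_lit 172067) (nat_lit 3) (.e (nat_lit 204838) (nat_lit 20) (.e (nat_lit 114718) (nat_lit 23) (.e (nat_lit 98335) (nat_lit 18) (.e (nat_lit 164396) (nat_lit 256) .nil))))) (.g (nat_lit 0) (.e (nat_lit 189425) (nat_lit 0) .nil) .nil)))) (.nd (nat_lit 9) 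
(.lf (nat_lit 508315) (.g (nat_lit 5445) (.e (nat_lit 172064) (nat_lit 2) (.e (nat_lit 196666) (nat_lit 13) (.e (nat_lit 65610) (nat_lit 10) (.e (nat_lit 344129) (nat_lit 26) (.e (nat_lit 557090) (nat_lit 12) (.e (nat_lit 163844) (nat_lit 0) (.e (nat_lit 6255) (nat_lit 337) (.e (nat_lit 2630) (nat_lit 164) .nil)))))))) (.g (nat_lit 1) (.e (nat_lit 188948) (nat_lit 0) .nil) .nil))) 
(.lf (nat_lit 508827) (.g (nat_lit 1212) (.e (nat_lit 172076) (nat_lit 6) (.e (nat_lit 253990) (nat_lit 11) (.e (nat_lit 16436) (nat_lit 9) (.e (nat_lit 426550) (nat_lit 31) (.e (nat_lit 376576) (nat_lit 4) .nil))))) (.g (nat_lit 0) (.e (nat_lit 190070) (nat_lit 0) .nil) .nil)))))) (.nd (nat_lit 7) (.nd (nat_lit 8) (.nd (nat_lit 9) 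
(.lf (nat_lit 507995) (.g (nat_lit 5125) (.e (nat_lit 164403) (nat_lit 256) (.e (nat_lit 57373) (nat_lit 2) (.e (nat_lit 90174) (nat_lit 14) (.e (nat_lit 180251) (nat_lit 10) (.e (nat_lit 573489) (nat_lit 14) (.e (nat_lit 73755) (nat_lit 8) (.e (nat_lit 557067) (nat_lit 9) (.e (nat_lit 2606) (nat_lit 163) .nil)))))))) (.g (nat_lit 1) (.e (nat_lit 188261) (nat_lit 0) .nil) .nil))) 
(.lf (nat_lit 508507) (.g (nat_lit 2628) (.e (nat_lit 172066) (nat_lit 3) (.e (nat_lit 204846) (nat_lit 24) (.e (nat_lit 319534) (nat_lit 16) (.e (nat_lit 286733) (nat_lit 2) (.e (nat_lit 90165) (nat_lit 12) .nil))))) (.g (nat_lit 0) (.e (nat_lit 189286) (nat_lit 0) .nil) .nil)))) (.nd (nat_lit 9) 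
(.lf (nat_lit 508251) (.g (nat_lit 2969) (.e (nat_lit 172063) (nat_lit 2) (.e (nat_lit 196666) (nat_lit 13) (.e (nat_lit 65617) (nat_lit 10) (.e (nat_lit 344133) (nat_lit 26) (.e (nat_lit 557091) (nat_lit 12) (.e (nat_lit 163847) (nat_lit 0) (.e (nat_lit 6255) (nat_lit 337) (.e (nat_lit 2630) (nat_lit 164) .nil)))))))) (.g (nat_lit 1) (.e (nat_lit 188762) (nat_lit 0) .nil) .nil))) 
(.lf (nat_lit 508763) (.g (nat_lit 2720) (.e (nat_lit 172068) (nat_lit 4) (.e (nat_lit 229663) (nat_lit 240) (.e (nat_lit 2612) (nat_lit 163) (.e (nat_lit 163979) (nat_lit 30) (.e (nat_lit 573481) (nat_lit 13) .nil))))) (.g (nat_lit 0) (.e (nat_lit 189883) (nat_lit 0) .nil) .nil))))) (.nd (nat_lit 8) (.nd (nat_lit 9) 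
(.lf (nat_lit 508123) (.g (nat_lit 4459) (.e (nat_lit 172046) (nat_lit 0) (.e (nat_lit 3238) (nat_lit 197) (.e (nat_lit 532550) (nat_lit 12) (.e (nat_lit 360474) (nat_lit 8) (.e (nat_lit 557091) (nat_lit 12) .nil))))) (.g (nat_lit 0) (.e (nat_lit 188468) (nat_lit 0) .nil) .nil))) 
(.lf (nat_lit 508635) (.g (nat_lit 1892) (.e (nat_lit 172067) (nat_lit 3) (.e (nat_lit 204855) (nat_lit 26) (.e (nat_lit 336176) (nat_lit 10) (.e (nat_lit 344130) (nat_lit 26) (.e (nat_lit 557067) (nat_lit 9) .nil))))) (.g (nat_lit 0) (.e (nat_lit 189549) (nat_lit 0) .nil) .nil)))) (.nd (nat_lit 9) 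
(.lf (nat_lit 508379) (.g (nat_lit 2716) (.e (nat_lit 172064) (nat_lit 2) (.e (nat_lit 196666) (nat_lit 13) (.e (nat_lit 65617) (nat_lit 10) (.e (nat_lit 344133) (nat_lit 26) (.e (nat_lit 557092) (nat_lit 12) (.e (nat_lit 163849) (nat_lit 0) (.e (nat_lit 6255) (nat_lit 337) (.e (nat_lit 2630) (nat_lit 164) .nil)))))))) (.g (nat_lit 1) (.e (nat_lit 189013) (nat_lit 0) .nil) .nil))) 
(.lf (nat_lit 508891) (.g (nat_lit 2347) (.e (nat_lit 172078) (nat_lit 7) (.e (nat_lit 409646) (nat_lit 18) (.e (nat_lit 303140) (nat_lit 10) (.e (nat_lit 434275) (nat_lit 39) (.e (nat_lit 663584) (nat_lit 12) .nil))))) (.g (nat_lit 0) (.e (nat_lit 190273) (nat_lit 0) .nil) .nil))))))) (.nd (nat_lit 6) (.nd (nat_lit 7) (.nd (nat_lit 8) (.nd (nat_lit 9) 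
(.lf (nat_lit 507963) (.g (nat_lit 2036) (.e (nat_lit 164403) (nat_lit 256) (.e (nat_lit 57371) (nat_lit 2) (.e (nat_lit 90174) (nat_lit 14) (.e (nat_lit 180245) (nat_lit 5) (.e (nat_lit 532515) (nat_lit 3) .nil))))) (.g (nat_lit 0) (.e (nat_lit 188224) (nat_lit 0) .nil) .nil))) 
(.lf (nat_lit 508475) (.g (nat_lit 1963) (.e (nat_lit 172065) (nat_lit 3) (.e (nat_lit 204885) (nat_lit 33) (.e (nat_lit 401446) (nat_lit 10) (.e (nat_lit 434219) (nat_lit 19) (.e (nat_lit 499965) (nat_lit 14) .nil))))) (.g (nat_lit 0) (.e (nat_lit 189207) (nat_lit 0) .nil) .nil)))) (.nd (nat_lit 9) 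
(.lf (nat_lit 508219) (.g (nat_lit 4217) (.e (nat_lit 172062) (nat_lit 2) (.e (nat_lit 196666) (nat_lit 13) (.e (nat_lit 65617) (nat_lit 10) (.e (nat_lit 344133) (nat_lit 26) (.e (nat_lit 557089) (nat_lit 12) (.e (nat_lit 163849) (nat_lit 0) (.e (nat_lit 6254) (nat_lit 337) (.e (nat_lit 2630) (nat_lit 164) .nil)))))))) (.g (nat_lit 1) (.e (nat_lit 188714) (nat_lit 0) .nil) .nil))) 
(.lf (nat_lit 508731) (.g (nat_lit 2845) (.e (nat_lit 172067) (nat_lit 3) (.e (nat_lit 204869) (nat_lit 29) (.e (nat_lit 360475) (nat_lit 8) (.e (nat_lit 557091) (nat_lit 12) (.e (nat_lit 163844) (nat_lit 0) (.e (nat_lit 6250) (nat_lit 337) (.e (nat_lit 2620) (nat_lit 164) .nil))))))) (.g (nat_lit 1) (.e (nat_lit 189814) (nat_lit 0) .nil) .nil))))) (.nd (nat_lit 8) (.nd (nat_lit 9) 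
(.lf (nat_lit 508091) (.g (nat_lit 1142) (.e (nat_lit 172033) (nat_lit 0) (.e (nat_lit 7557) (nat_lit 402) (.e (nat_lit 1235) (nat_lit 91) (.e (nat_lit 90176) (nat_lit 15) (.e (nat_lit 188439) (nat_lit 20) .nil))))) (.g (nat_lit 0) (.e (nat_lit 188382) (nat_lit 0) .nil) .nil))) 
(.lf (nat_lit 508603) (.g (nat_lit 3658) (.e (nat_lit 172067) (nat_lit 3) (.e (nat_lit 204846) (nat_lit 24) (.e (nat_lit 319531) (nat_lit 16) (.e (nat_lit 286735) (nat_lit 3) (.e (nat_lit 98325) (nat_lit 17) (.e (nat_lit 7936) (nat_lit 392) .nil)))))) (.g (nat_lit 1) (.e (nat_lit 189470) (nat_lit 0) .nil) .nil)))) (.nd (nat_lit 9) 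
(.lf (nat_lit 508347) (.g (nat_lit 4346) (.e (nat_lit 172064) (nat_lit 2) (.e (nat_lit 196666) (nat_lit 13) (.e (nat_lit 65617) (nat_lit 10) (.e (nat_lit 344130) (nat_lit 26) (.e (nat_lit 557090) (nat_lit 12) (.e (nat_lit 163844) (nat_lit 0) (.e (nat_lit 6374) (nat_lit 337) (.e (nat_lit 2628) (nat_lit 164) .nil)))))))) (.g (nat_lit 1) (.e (nat_lit 188981) (nat_lit 0) .nil) .nil))) 
(.lf (nat_lit 508859) (.g (nat_lit 3711) (.e (nat_lit 172076) (nat_lit 6) (.e (nat_lit 253992) (nat_lit 11) (.e (nat_lit 16466) (nat_lit 13) (.e (nat_lit 483346) (nat_lit 17) (.e (nat_lit 6718) (nat_lit 361) .nil))))) (.g (nat_lit 1) (.e (nat_lit 190139) (nat_lit 0) .nil) .nil)))))) (.nd (nat_lit 7) (.nd (nat_lit 8) (.nd (nat_lit 9) 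
(.lf (nat_lit 508027) (.g (nat_lit 365) (.e (nat_lit 164403) (nat_lit 256) (.e (nat_lit 57378) (nat_lit 3) (.e (nat_lit 98362) (nat_lit 26) .nil))) (.g (nat_lit 0) (.e (nat_lit 188302) (nat_lit 0) .nil) .nil))) 
(.lf (nat_lit 508539) (.g (nat_lit 3152) (.e (nat_lit 172066) (nat_lit 3) (.e (nat_lit 204869) (nat_lit 29) (.e (nat_lit 360475) (nat_lit 8) (.e (nat_lit 557090) (nat_lit 12) (.e (nat_lit 164020) (nat_lit 45) .nil))))) (.g (nat_lit 0) (.e (nat_lit 189346) (nat_lit 0) .nil) .nil)))) (.nd (nat_lit 9) 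
(.lf (nat_lit 508283) (.g (nat_lit 1868) (.e (nat_lit 172064) (nat_lit 2) (.e (nat_lit 196666) (nat_lit 13) (.e (nat_lit 65610) (nat_lit 10) (.e (nat_lit 344117) (nat_lit 21) (.e (nat_lit 516106) (nat_lit 0) (.e (nat_lit 2478) (nat_lit 157) (.e (nat_lit 4495) (nat_lit 263) (.e (nat_lit 2626) (nat_lit 164) .nil)))))))) (.g (nat_lit 1) (.e (nat_lit 188832) (nat_lit 0) .nil) .nil))) 
(.lf (nat_lit 508795) (.g (nat_lit 1041) (.e (nat_lit 172074) (nat_lit 6) (.e (nat_lit 253991) (nat_lit 11) (.e (nat_lit 16462) (nat_lit 13) (.e (nat_lit 483350) (nat_lit 17) .nil)))) (.g (nat_lit 0) (.e (nat_lit 189980) (nat_lit 0) .nil) .nil))))) (.nd (nat_lit 8) (.nd (nat_lit 9) 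
(.lf (nat_lit 508155) (.g (nat_lit 4472) (.e (nat_lit 172061) (nat_lit 1) (.e (nat_lit 164348) (nat_lit 240) (.e (nat_lit 2610) (nat_lit 163) (.e (nat_lit 163979) (nat_lit 30) (.e (nat_lit 573491) (nat_lit 15) (.e (nat_lit 81951) (nat_lit 22) (.e (nat_lit 90170) (nat_lit 13) .nil))))))) (.g (nat_lit 1) (.e (nat_lit 188577) (nat_lit 0) .nil) .nil))) 
(.lf (nat_lit 508667) (.g (nat_lit 4180) (.e (nat_lit 172067) (nat_lit 3) (.e (nat_lit 204868) (nat_lit 29) (.e (nat_lit 360475) (nat_lit 8) (.e (nat_lit 557091) (nat_lit 12) (.e (nat_lit 163849) (nat_lit 0) (.e (nat_lit 6254) (nat_lit 337) (.e (nat_lit 2630) (nat_lit 164) .nil))))))) (.g (nat_lit 1) (.e (nat_lit 189709) (nat_lit 0) .nil) .nil)))) (.nd (nat_lit 9) 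
(.lf (nat_lit 508411) (.g (nat_lit 1917) (.e (nat_lit 172065) (nat_lit 3) (.e (nat_lit 204846) (nat_lit 24) (.e (nat_lit 319534) (nat_lit 16) (.e (nat_lit 286735) (nat_lit 3) .nil)))) (.g (nat_lit 0) (.e (nat_lit 189054) (nat_lit 0) .nil) .nil))) 
(.lf (nat_lit 508923) (.g (nat_lit 700) (.e (nat_lit 172079) (nat_lit 7) (.e (nat_lit 409639) (nat_lit 15) (.e (nat_lit 278566) (nat_lit 16) (.e (nat_lit 286754) (nat_lit 10) (.e (nat_lit 344154) (nat_lit 35) (.e (nat_lit 630802) (nat_lit 8) .nil)))))) (.g (nat_lit 1) (.e (nat_lit 190342) (nat_lit 0) .nil) .nil)))))))))) 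
(.nd (nat_lit 3) (.nd (nat_lit 4) (.nd (nat_lit 5) (.nd (nat_lit 6) (.nd (nat_lit 7) 
(.nd (nat_lit 8) (.nd (nat_lit 9) 
(.lf (nat_lit 507911) (.g (nat_lit 767) (.e (nat_lit 164402) (nat_lit 256) (.e (nat_lit 57378) (nat_lit 3) (.e (nat_lit 98380) (nat_lit 31) .nil))) (.g (nat_lit 0) (.e (nat_lit 188161) (nat_lit 0) .nil) .nil))) 
(.lf (nat_lit 508423) (.g (nat_lit 1933) (.e (nat_lit 172065) (nat_lit 3) (.e (nat_lit 204855) (nat_lit 26) (.e (nat_lit 336176) (nat_lit 10) (.e (nat_lit 344133) (nat_lit 26) (.e (nat_lit 557091) (nat_lit 12) .nil))))) (.g (nat_lit 0) (.e (nat_lit 189093) (nat_lit 0) .nil) .nil)))) (.nd (nat_lit 9) 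
(.lf (nat_lit 508167) (.g (nat_lit 4872) (.e (nat_lit 172062) (nat_lit 2) (.e (nat_lit 196666) (nat_lit 13) (.e (nat_lit 65610) (nat_lit 10) (.e (nat_lit 344129) (nat_lit 26) (.e (nat_lit 557089) (nat_lit 12) (.e (nat_lit 163844) (nat_lit 0) (.e (nat_lit 6254) (nat_lit 337) (.e (nat_lit 2630) (nat_lit 164) .nil)))))))) (.g (nat_lit 1) (.e (nat_lit 188659) (nat_lit 0) .nil) .nil))) 
(.lf (nat_lit 508679) (.g (nat_lit 3882) (.e (nat_lit 172067) (nat_lit 3) (.e (nat_lit 204869) (nat_lit 29) (.e (nat_lit 360474) (nat_lit 8) (.e (nat_lit 557089) (nat_lit 12) .nil)))) (.g (nat_lit 0) (.e (nat_lit 189736) (nat_lit 0) .nil) .nil))))) (.nd (nat_lit 8) (.nd (nat_lit 9) 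
(.lf (nat_lit 508039) (.g (nat_lit 4032) (.e (nat_lit 164403) (nat_lit 256) (.e (nat_lit 57378) (nat_lit 3) (.e (nat_lit 98366) (nat_lit 27) (.e (nat_lit 434231) (nat_lit 23) (.e (nat_lit 532514) (nat_lit 3) (.e (nat_lit 114719) (nat_lit 23) (.e (nat_lit 98332) (nat_lit 18) .nil))))))) (.g (nat_lit 1) (.e (nat_lit 188315) (nat_lit 0) .nil) .nil))) 
(.lf (nat_lit 508551) (.g (nat_lit 3320) (.e (nat_lit 172066) (nat_lit 3) (.e (nat_lit 204869) (nat_lit 29) (.e (nat_lit 360475) (nat_lit 8) (.e (nat_lit 557091) (nat_lit 12) (.e (nat_lit 163847) (nat_lit 0) (.e (nat_lit 6254) (nat_lit 337) (.e (nat_lit 2622) (nat_lit 164) .nil))))))) (.g (nat_lit 1) (.e (nat_lit 189376) (nat_lit 0) .nil) .nil)))) (.nd (nat_lit 9) 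
(.lf (nat_lit 508295) (.g (nat_lit 2362) (.e (nat_lit 172064) (nat_lit 2) (.e (nat_lit 196666) (nat_lit 13) (.e (nat_lit 65610) (nat_lit 10) (.e (nat_lit 344129) (nat_lit 26) (.e (nat_lit 557067) (nat_lit 9) (.e (nat_lit 2464) (nat_lit 157) (.e (nat_lit 3467) (nat_lit 217) (.e (nat_lit 696343) (nat_lit 8) .nil)))))))) (.g (nat_lit 1) (.e (nat_lit 188900) (nat_lit 0) .nil) .nil))) 
(.lf (nat_lit 508807) (.g (nat_lit 1896) (.e (nat_lit 172074) (nat_lit 6) (.e (nat_lit 253992) (nat_lit 11) (.e (nat_lit 16463) (nat_lit 13) (.e (nat_lit 483361) (nat_lit 17) (.e (nat_lit 7936) (nat_lit 361) .nil))))) (.g (nat_lit 1) (.e (nat_lit 190008) (nat_lit 0) .nil) .nil)))))) (.nd (nat_lit 7) (.nd (nat_lit 8) (.nd (nat_lit 9) 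
(.lf (nat_lit 507975) (.g (nat_lit 2363) (.e (nat_lit 164403) (nat_lit 256) (.e (nat_lit 57373) (nat_lit 2) (.e (nat_lit 90170) (nat_lit 13) (.e (nat_lit 172122) (nat_lit 13) (.e (nat_lit 483337) (nat_lit 9) .nil))))) (.g (nat_lit 0) (.e (nat_lit 188241) (nat_lit 0) .nil) .nil))) 
(.lf (nat_lit 508487) (.g (nat_lit 3303) (.e (nat_lit 172066) (nat_lit 3) (.e (nat_lit 204845) (nat_lit 24) (.e (nat_lit 319530) (nat_lit 16) (.e (nat_lit 286735) (nat_lit 3) (.e (nat_lit 98323) (nat_lit 17) (.e (nat_lit 7936) (nat_lit 392) .nil)))))) (.g (nat_lit 1) (.e (nat_lit 189259) (nat_lit 0) .nil) .nil)))) (.nd (nat_lit 9) 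
(.lf (nat_lit 508231) (.g (nat_lit 2620) (.e (nat_lit 172062) (nat_lit 2) (.e (nat_lit 196666) (nat_lit 13) (.e (nat_lit 65617) (nat_lit 10) (.e (nat_lit 344133) (nat_lit 26) (.e (nat_lit 557091) (nat_lit 12) (.e (nat_lit 164019) (nat_lit 45) (.e (nat_lit 696342) (nat_lit 8) .nil))))))) (.g (nat_lit 1) (.e (nat_lit 188726) (nat_lit 0) .nil) .nil))) 
(.lf (nat_lit 508743) (.g (nat_lit 3461) (.e (nat_lit 172067) (nat_lit 3) (.e (nat_lit 204869) (nat_lit 29) (.e (nat_lit 360475) (nat_lit 8) (.e (nat_lit 557091) (nat_lit 12) (.e (nat_lit 164019) (nat_lit 45) (.e (nat_lit 696342) (nat_lit 8) .nil)))))) (.g (nat_lit 1) (.e (nat_lit 189829) (nat_lit 0) .nil) .nil))))) (.nd (nat_lit 8) (.nd (nat_lit 9) 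
(.lf (nat_lit 508103) (.g (nat_lit 1275) (.e (nat_lit 172038) (nat_lit 0) (.e (nat_lit 7107) (nat_lit 380) (.e (nat_lit 164281) (nat_lit 222) (.e (nat_lit 57884) (nat_lit 270) (.e (nat_lit 1533) (nat_lit 109) .nil))))) (.g (nat_lit 0) (.e (nat_lit 188403) (nat_lit 0) .nil) .nil))) 
(.lf (nat_lit 508615) (.g (nat_lit 4206) (.e (nat_lit 172067) (nat_lit 3) (.e (nat_lit 204846) (nat_lit 24) (.e (nat_lit 319534) (nat_lit 16) (.e (nat_lit 286734) (nat_lit 3) (.e (nat_lit 98320) (nat_lit 17) (.e (nat_lit 7386) (nat_lit 392) .nil)))))) (.g (nat_lit 1) (.e (nat_lit 189493) (nat_lit 0) .nil) .nil)))) (.nd (nat_lit 9) 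
(.lf (nat_lit 508359) (.g (nat_lit 2702) (.e (nat_lit 172064) (nat_lit 2) (.e (nat_lit 196666) (nat_lit 13) (.e (nat_lit 65617) (nat_lit 10) (.e (nat_lit 344132) (nat_lit 26) (.e (nat_lit 557094) (nat_lit 12) (.e (nat_lit 163848) (nat_lit 0) (.e (nat_lit 6255) (nat_lit 337) (.e (nat_lit 2630) (nat_lit 164) .nil)))))))) (.g (nat_lit 1) (.e (nat_lit 188993) (nat_lit 0) .nil) .nil))) 
(.lf (nat_lit 508871) (.g (nat_lit 810) (.e (nat_lit 172077) (nat_lit 7) (.e (nat_lit 409649) (nat_lit 18) (.e (nat_lit 303146) (nat_lit 14) .nil))) (.g (nat_lit 0) (.e (nat_lit 190242) (nat_lit 0) .nil) .nil))))))) (.nd (nat_lit 6) (.nd (nat_lit 7) (.nd (nat_lit 8) (.nd (nat_lit 9) 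
(.lf (nat_lit 507943) (.g (nat_lit 1319) (.e (nat_lit 164402) (nat_lit 256) (.e (nat_lit 57435) (nat_lit 17) (.e (nat_lit 376862) (nat_lit 22) (.e (nat_lit 90158) (nat_lit 11) .nil)))) (.g (nat_lit 0) (.e (nat_lit 188193) (nat_lit 0) .nil) .nil))) 
(.lf (nat_lit 508455) (.g (nat_lit 3888) (.e (nat_lit 172065) (nat_lit 3) (.e (nat_lit 204869) (nat_lit 29) (.e (nat_lit 360474) (nat_lit 8) (.e (nat_lit 557089) (nat_lit 12) .nil)))) (.g (nat_lit 0) (.e (nat_lit 189171) (nat_lit 0) .nil) .nil)))) (.nd (nat_lit 9) 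
(.lf (nat_lit 508199) (.g (nat_lit 1993) (.e (nat_lit 172062) (nat_lit 2) (.e (nat_lit 196666) (nat_lit 13) (.e (nat_lit 65617) (nat_lit 10) (.e (nat_lit 344130) (nat_lit 26) (.e (nat_lit 557090) (nat_lit 12) .nil))))) (.g (nat_lit 0) (.e (nat_lit 188694) (nat_lit 0) .nil) .nil))) 
(.lf (nat_lit 508711) (.g (nat_lit 3383) (.e (nat_lit 172067) (nat_lit 3) (.e (nat_lit 204869) (nat_lit 29) (.e (nat_lit 360475) (nat_lit 8) (.e (nat_lit 557089) (nat_lit 12) (.e (nat_lit 163849) (nat_lit 0) (.e (nat_lit 6374) (nat_lit 337) (.e (nat_lit 2628) (nat_lit 164) .nil))))))) (.g (nat_lit 1) (.e (nat_lit 189786) (nat_lit 0) .nil) .nil))))) (.nd (nat_lit 8) (.nd (nat_lit 9) 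
(.lf (nat_lit 508071) (.g (nat_lit 1913) (.e (nat_lit 164403) (nat_lit 256) (.e (nat_lit 57406) (nat_lit 12) (.e (nat_lit 336443) (nat_lit 32) (.e (nat_lit 466978) (nat_lit 23) (.e (nat_lit 204813) (nat_lit 9) .nil))))) (.g (nat_lit 0) (.e (nat_lit 188347) (nat_lit 0) .nil) .nil))) 
(.lf (nat_lit 508583) (.g (nat_lit 3073) (.e (nat_lit 172067) (nat_lit 3) (.e (nat_lit 204845) (nat_lit 24) (.e (nat_lit 319531) (nat_lit 16) (.e (nat_lit 286735) (nat_lit 3) (.e (nat_lit 98323) (nat_lit 17) (.e (nat_lit 7936) (nat_lit 392) .nil)))))) (.g (nat_lit 1) (.e (nat_lit 189438) (nat_lit 0) .nil) .nil)))) (.nd (nat_lit 9) 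
(.lf (nat_lit 508327) (.g (nat_lit 2071) (.e (nat_lit 172064) (nat_lit 2) (.e (nat_lit 196666) (nat_lit 13) (.e (nat_lit 65610) (nat_lit 10) (.e (nat_lit 344131) (nat_lit 26) .nil)))) (.g (nat_lit 0) (.e (nat_lit 188961) (nat_lit 0) .nil) .nil))) 
(.lf (nat_lit 508839) (.g (nat_lit 1695) (.e (nat_lit 172076) (nat_lit 6) (.e (nat_lit 253991) (nat_lit 11) (.e (nat_lit 16466) (nat_lit 13) (.e (nat_lit 483344) (nat_lit 17) .nil)))) (.g (nat_lit 0) (.e (nat_lit 190099) (nat_lit 0) .nil) .nil)))))) (.nd (nat_lit 7) (.nd (nat_lit 8) (.nd (nat_lit 9) 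
(.lf (nat_lit 508007) (.g (nat_lit 3144) (.e (nat_lit 164403) (nat_lit 256) (.e (nat_lit 57377) (nat_lit 3) (.e (nat_lit 98358) (nat_lit 26) (.e (nat_lit 426131) (nat_lit 3) (.e (nat_lit 204837) (nat_lit 20) .nil))))) (.g (nat_lit 0) (.e (nat_lit 188273) (nat_lit 0) .nil) .nil))) 
(.lf (nat_lit 508519) (.g (nat_lit 2439) (.e (nat_lit 172066) (nat_lit 3) (.e (nat_lit 204868) (nat_lit 29) (.e (nat_lit 360473) (nat_lit 8) (.e (nat_lit 557091) (nat_lit 12) (.e (nat_lit 163844) (nat_lit 0) .nil))))) (.g (nat_lit 0) (.e (nat_lit 189317) (nat_lit 0) .nil) .nil)))) (.nd (nat_lit 9) 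
(.lf (nat_lit 508263) (.g (nat_lit 4263) (.e (nat_lit 172064) (nat_lit 2) (.e (nat_lit 196666) (nat_lit 13) (.e (nat_lit 65610) (nat_lit 10) (.e (nat_lit 344117) (nat_lit 21) (.e (nat_lit 516097) (nat_lit 0) (.e (nat_lit 3336) (nat_lit 205) (.e (nat_lit 598060) (nat_lit 16) .nil))))))) (.g (nat_lit 1) (.e (nat_lit 188807) (nat_lit 0) .nil) .nil))) 
(.lf (nat_lit 508775) (.g (nat_lit 4704) (.e (nat_lit 172070) (nat_lit 4) (.e (nat_lit 229666) (nat_lit 240) (.e (nat_lit 2612) (nat_lit 163) (.e (nat_lit 163979) (nat_lit 30) (.e (nat_lit 573493) (nat_lit 15) (.e (nat_lit 81953) (nat_lit 22) (.e (nat_lit 90170) (nat_lit 13) .nil))))))) (.g (nat_lit 1) (.e (nat_lit 189906) (nat_lit 0) .nil) .nil))))) (.nd (nat_lit 8) (.nd (nat_lit 9) 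
(.lf (nat_lit 508135) (.g (nat_lit 656) (.e (nat_lit 172057) (nat_lit 0) (.e (nat_lit 3253) (nat_lit 197) (.e (nat_lit 532503) (nat_lit 1) .nil))) (.g (nat_lit 0) (.e (nat_lit 188513) (nat_lit 0) .nil) .nil))) 
(.lf (nat_lit 508647) (.g (nat_lit 1910) (.e (nat_lit 172067) (nat_lit 3) (.e (nat_lit 204868) (nat_lit 29) (.e (nat_lit 360473) (nat_lit 8) (.e (nat_lit 557089) (nat_lit 12) (.e (nat_lit 164018) (nat_lit 45) .nil))))) (.g (nat_lit 0) (.e (nat_lit 189659) (nat_lit 0) .nil) .nil)))) (.nd (nat_lit 9) 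
(.lf (nat_lit 508391) (.g (nat_lit 2365) (.e (nat_lit 172065) (nat_lit 3) (.e (nat_lit 204838) (nat_lit 20) (.e (nat_lit 114718) (nat_lit 23) (.e (nat_lit 98333) (nat_lit 18) (.e (nat_lit 164400) (nat_lit 256) .nil))))) (.g (nat_lit 0) (.e (nat_lit 189033) (nat_lit 0) .nil) .nil))) 
(.lf (nat_lit 508903) (.g (nat_lit 3842) (.e (nat_lit 172078) (nat_lit 7) (.e (nat_lit 409649) (nat_lit 18) (.e (nat_lit 303140) (nat_lit 10) (.e (nat_lit 434275) (nat_lit 39) (.e (nat_lit 663574) (nat_lit 9) (.e (nat_lit 2466) (nat_lit 157) (.e (nat_lit 3469) (nat_lit 217) (.e (nat_lit 696344) (nat_lit 8) .nil)))))))) (.g (nat_lit 1) (.e (nat_lit 190295) (nat_lit 0) .nil) .nil)))))))) 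
(.nd (nat_lit 5) (.nd (nat_lit 6) (.nd (nat_lit 7) (.nd (nat_lit 8) (.nd (nat_lit 9) 
(.lf (nat_lit 507927) (.g (nat_lit 2604) (.e (nat_lit 164402) (nat_lit 256) (.e (nat_lit 57424) (nat_lit 14) (.e (nat_lit 352312) (nat_lit 22) (.e (nat_lit 90158) (nat_lit 11) (.e (nat_lit 32512) (nat_lit 20) .nil))))) (.g (nat_lit 0) (.e (nat_lit 188177) (nat_lit 0) .nil) .nil))) 
(.lf (nat_lit 508439) (.g (nat_lit 3363) (.e (nat_lit 172065) (nat_lit 3) (.e (nat_lit 204868) (nat_lit 29) (.e (nat_lit 360475) (nat_lit 8) (.e (nat_lit 557089) (nat_lit 12) (.e (nat_lit 163848) (nat_lit 0) .nil))))) (.g (nat_lit 0) (.e (nat_lit 189148) (nat_lit 0) .nil) .nil)))) (.nd (nat_lit 9) 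
(.lf (nat_lit 508183) (.g (nat_lit 3308) (.e (nat_lit 172062) (nat_lit 2) (.e (nat_lit 196666) (nat_lit 13) (.e (nat_lit 65610) (nat_lit 10) (.e (nat_lit 344129) (nat_lit 26) (.e (nat_lit 557090) (nat_lit 12) (.e (nat_lit 163844) (nat_lit 0) (.e (nat_lit 6374) (nat_lit 337) (.e (nat_lit 2628) (nat_lit 164) .nil)))))))) (.g (nat_lit 1) (.e (nat_lit 188675) (nat_lit 0) .nil) .nil))) 
(.lf (nat_lit 508695) (.g (nat_lit 2736) (.e (nat_lit 172067) (nat_lit 3) (.e (nat_lit 204869) (nat_lit 29) (.e (nat_lit 360475) (nat_lit 8) (.e (nat_lit 557065) (nat_lit 9) (.e (nat_lit 2399) (nat_lit 157) .nil))))) (.g (nat_lit 0) (.e (nat_lit 189756) (nat_lit 0) .nil) .nil))))) (.nd (nat_lit 8) (.nd (nat_lit 9) 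
(.lf (nat_lit 508055) (.g (nat_lit 1264) (.e (nat_lit 164403) (nat_lit 256) (.e (nat_lit 57378) (nat_lit 3) (.e (nat_lit 98371) (nat_lit 28) .nil))) (.g (nat_lit 0) (.e (nat_lit 188331) (nat_lit 0) .nil) .nil))) 
(.lf (nat_lit 508567) (.g (nat_lit 2141) (.e (nat_lit 172067) (nat_lit 3) (.e (nat_lit 204838) (nat_lit 20) (.e (nat_lit 114717) (nat_lit 23) (.e (nat_lit 98333) (nat_lit 18) (.e (nat_lit 164400) (nat_lit 256) .nil))))) (.g (nat_lit 0) (.e (nat_lit 189420) (nat_lit 0) .nil) .nil)))) (.nd (nat_lit 9) 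
(.lf (nat_lit 508311) (.g (nat_lit 2785) (.e (nat_lit 172064) (nat_lit 2) (.e (nat_lit 196666) (nat_lit 13) (.e (nat_lit 65610) (nat_lit 10) (.e (nat_lit 344129) (nat_lit 26) (.e (nat_lit 557090) (nat_lit 12) (.e (nat_lit 163843) (nat_lit 0) (.e (nat_lit 6255) (nat_lit 337) (.e (nat_lit 2620) (nat_lit 164) .nil)))))))) (.g (nat_lit 1) (.e (nat_lit 188944) (nat_lit 0) .nil) .nil))) 
(.lf (nat_lit 508823) (.g (nat_lit 1310) (.e (nat_lit 172076) (nat_lit 6) (.e (nat_lit 253988) (nat_lit 11) (.e (nat_lit 16465) (nat_lit 13) (.e (nat_lit 483360) (nat_lit 17) .nil)))) (.g (nat_lit 0) (.e (nat_lit 190062) (nat_lit 0) .nil) .nil)))))) (.nd (nat_lit 7) (.nd (nat_lit 8) (.nd (nat_lit 9) 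
(.lf (nat_lit 507991) (.g (nat_lit 3083) (.e (nat_lit 164403) (nat_lit 256) (.e (nat_lit 57373) (nat_lit 2) (.e (nat_lit 90174) (nat_lit 14) (.e (nat_lit 180250) (nat_lit 10) (.e (nat_lit 573489) (nat_lit 14) (.e (nat_lit 73755) (nat_lit 8) (.e (nat_lit 557074) (nat_lit 9) (.e (nat_lit 2607) (nat_lit 163) .nil)))))))) (.g (nat_lit 1) (.e (nat_lit 188257) (nat_lit 0) .nil) .nil))) 
(.lf (nat_lit 508503) (.g (nat_lit 3357) (.e (nat_lit 172066) (nat_lit 3) (.e (nat_lit 204846) (nat_lit 24) (.e (nat_lit 319531) (nat_lit 16) (.e (nat_lit 286735) (nat_lit 3) (.e (nat_lit 98325) (nat_lit 17) (.e (nat_lit 7936) (nat_lit 392) .nil)))))) (.g (nat_lit 1) (.e (nat_lit 189279) (nat_lit 0) .nil) .nil)))) (.nd (nat_lit 9) 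
(.lf (nat_lit 508247) (.g (nat_lit 2433) (.e (nat_lit 172063) (nat_lit 2) (.e (nat_lit 196666) (nat_lit 13) (.e (nat_lit 65617) (nat_lit 10) (.e (nat_lit 344133) (nat_lit 26) (.e (nat_lit 557089) (nat_lit 12) .nil))))) (.g (nat_lit 0) (.e (nat_lit 188758) (nat_lit 0) .nil) .nil))) 
(.lf (nat_lit 508759) (.g (nat_lit 5388) (.e (nat_lit 172068) (nat_lit 4) (.e (nat_lit 229663) (nat_lit 240) (.e (nat_lit 2612) (nat_lit 163) (.e (nat_lit 163977) (nat_lit 30) (.e (nat_lit 573482) (nat_lit 13) (.e (nat_lit 65604) (nat_lit 9) (.e (nat_lit 336013) (nat_lit 2) (.e (nat_lit 90170) (nat_lit 13) .nil)))))))) (.g (nat_lit 1) (.e (nat_lit 189879) (nat_lit 0) .nil) .nil))))) 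
(.nd (nat_lit 8) (.nd (nat_lit 9) 
(.lf (nat_lit 508119) (.g (nat_lit 2498) (.e (nat_lit 172045) (nat_lit 0) (.e (nat_lit 3238) (nat_lit 197) (.e (nat_lit 532490) (nat_lit 0) (.e (nat_lit 2391) (nat_lit 156) (.e (nat_lit 819204) (nat_lit 0) .nil))))) (.g (nat_lit 0) (.e (nat_lit 188450) (nat_lit 0) .nil) .nil))) 
(.lf (nat_lit 508631) (.g (nat_lit 2499) (.e (nat_lit 172067) (nat_lit 3) (.e (nat_lit 204855) (nat_lit 26) (.e (nat_lit 336173) (nat_lit 10) (.e (nat_lit 344133) (nat_lit 26) (.e (nat_lit 557090) (nat_lit 12) .nil))))) (.g (nat_lit 0) (.e (nat_lit 189544) (nat_lit 0) .nil) .nil)))) (.nd (nat_lit 9) 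
(.lf (nat_lit 508375) (.g (nat_lit 3089) (.e (nat_lit 172064) (nat_lit 2) (.e (nat_lit 196666) (nat_lit 13) (.e (nat_lit 65617) (nat_lit 10) (.e (nat_lit 344133) (nat_lit 26) (.e (nat_lit 557091) (nat_lit 12) (.e (nat_lit 163850) (nat_lit 0) (.e (nat_lit 6273) (nat_lit 337) (.e (nat_lit 2632) (nat_lit 164) .nil)))))))) (.g (nat_lit 1) (.e (nat_lit 189009) (nat_lit 0) .nil) .nil))) 
(.lf (nat_lit 508887) (.g (nat_lit 1928) (.e (nat_lit 172078) (nat_lit 7) (.e (nat_lit 409646) (nat_lit 18) (.e (nat_lit 303140) (nat_lit 10) (.e (nat_lit 434200) (nat_lit 18) .nil)))) (.g (nat_lit 0) (.e (nat_lit 190268) (nat_lit 0) .nil) .nil))))))) (.nd (nat_lit 6) (.nd (nat_lit 7) (.nd (nat_lit 8) (.nd (nat_lit 9) 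
(.lf (nat_lit 507959) (.g (nat_lit 2439) (.e (nat_lit 164403) (nat_lit 256) (.e (nat_lit 57371) (nat_lit 2) (.e (nat_lit 90174) (nat_lit 14) (.e (nat_lit 180243) (nat_lit 5) (.e (nat_lit 532515) (nat_lit 3) (.e (nat_lit 114716) (nat_lit 22) (.e (nat_lit 90137) (nat_lit 9) (.e (nat_lit 2599) (nat_lit 163) .nil)))))))) (.g (nat_lit 1) (.e (nat_lit 188220) (nat_lit 0) .nil) .nil))) 
(.lf (nat_lit 508471) (.g (nat_lit 4129) (.e (nat_lit 172065) (nat_lit 3) (.e (nat_lit 204869) (nat_lit 29) (.e (nat_lit 360475) (nat_lit 8) (.e (nat_lit 557091) (nat_lit 12) (.e (nat_lit 163843) (nat_lit 0) (.e (nat_lit 6374) (nat_lit 337) (.e (nat_lit 2628) (nat_lit 164) .nil))))))) (.g (nat_lit 1) (.e (nat_lit 189187) (nat_lit 0) .nil) .nil)))) (.nd (nat_lit 9) 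
(.lf (nat_lit 508215) (.g (nat_lit 2385) (.e (nat_lit 172062) (nat_lit 2) (.e (nat_lit 196666) (nat_lit 13) (.e (nat_lit 65617) (nat_lit 10) (.e (nat_lit 344132) (nat_lit 26) (.e (nat_lit 557094) (nat_lit 12) (.e (nat_lit 163848) (nat_lit 0) (.e (nat_lit 6255) (nat_lit 337) (.e (nat_lit 2630) (nat_lit 164) .nil)))))))) (.g (nat_lit 1) (.e (nat_lit 188710) (nat_lit 0) .nil) .nil))) 
(.lf (nat_lit 508727) (.g (nat_lit 3053) (.e (nat_lit 172067) (nat_lit 3) (.e (nat_lit 204869) (nat_lit 29) (.e (nat_lit 360475) (nat_lit 8) (.e (nat_lit 557091) (nat_lit 12) (.e (nat_lit 163843) (nat_lit 0) (.e (nat_lit 6254) (nat_lit 337) (.e (nat_lit 2620) (nat_lit 164) .nil))))))) (.g (nat_lit 1) (.e (nat_lit 189807) (nat_lit 0) .nil) .nil))))) (.nd (nat_lit 8) (.nd (nat_lit 9) 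
(.lf (nat_lit 508087) (.g (nat_lit 1756) (.e (nat_lit 172033) (nat_lit 0) (.e (nat_lit 3276) (nat_lit 200) (.e (nat_lit 557105) (nat_lit 14) (.e (nat_lit 180252) (nat_lit 10) (.e (nat_lit 573482) (nat_lit 13) .nil))))) (.g (nat_lit 0) (.e (nat_lit 188377) (nat_lit 0) .nil) .nil))) 
(.lf (nat_lit 508599) (.g (nat_lit 4201) (.e (nat_lit 172067) (nat_lit 3) (.e (nat_lit 204846) (nat_lit 24) (.e (nat_lit 319531) (nat_lit 16) (.e (nat_lit 286733) (nat_lit 2) (.e (nat_lit 90165) (nat_lit 12) (.e (nat_lit 171776) (nat_lit 205) .nil)))))) (.g (nat_lit 1) (.e (nat_lit 189466) (nat_lit 0) .nil) .nil)))) (.nd (nat_lit 9) 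
(.lf (nat_lit 508343) (.g (nat_lit 3069) (.e (nat_lit 172064) (nat_lit 2) (.e (nat_lit 196666) (nat_lit 13) (.e (nat_lit 65617) (nat_lit 10) (.e (nat_lit 344130) (nat_lit 26) (.e (nat_lit 557090) (nat_lit 12) (.e (nat_lit 163843) (nat_lit 0) (.e (nat_lit 6255) (nat_lit 337) (.e (nat_lit 2620) (nat_lit 164) .nil)))))))) (.g (nat_lit 1) (.e (nat_lit 188977) (nat_lit 0) .nil) .nil))) 
(.lf (nat_lit 508855) (.g (nat_lit 2039) (.e (nat_lit 172076) (nat_lit 6) (.e (nat_lit 253992) (nat_lit 11) (.e (nat_lit 16463) (nat_lit 13) (.e (nat_lit 483361) (nat_lit 17) (.e (nat_lit 7936) (nat_lit 361) .nil))))) (.g (nat_lit 1) (.e (nat_lit 190135) (nat_lit 0) .nil) .nil)))))) (.nd (nat_lit 7) (.nd (nat_lit 8) (.nd (nat_lit 9) 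
(.lf (nat_lit 508023) (.g (nat_lit 2211) (.e (nat_lit 164403) (nat_lit 256) (.e (nat_lit 57378) (nat_lit 3) (.e (nat_lit 98358) (nat_lit 26) (.e (nat_lit 426322) (nat_lit 13) (.e (nat_lit 483341) (nat_lit 9) .nil))))) (.g (nat_lit 0) (.e (nat_lit 188298) (nat_lit 0) .nil) .nil))) 
(.lf (nat_lit 508535) (.g (nat_lit 5165) (.e (nat_lit 172066) (nat_lit 3) (.e (nat_lit 204869) (nat_lit 29) (.e (nat_lit 360475) (nat_lit 8) (.e (nat_lit 557089) (nat_lit 12) (.e (nat_lit 163849) (nat_lit 0) (.e (nat_lit 6254) (nat_lit 337) (.e (nat_lit 2630) (nat_lit 164) .nil))))))) (.g (nat_lit 1) (.e (nat_lit 189342) (nat_lit 0) .nil) .nil)))) (.nd (nat_lit 9) 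
(.lf (nat_lit 508279) (.g (nat_lit 2389) (.e (nat_lit 172064) (nat_lit 2) (.e (nat_lit 196666) (nat_lit 13) (.e (nat_lit 65610) (nat_lit 10) (.e (nat_lit 344117) (nat_lit 21) (.e (nat_lit 516101) (nat_lit 0) (.e (nat_lit 3336) (nat_lit 205) (.e (nat_lit 598061) (nat_lit 16) .nil))))))) (.g (nat_lit 1) (.e (nat_lit 188826) (nat_lit 0) .nil) .nil))) 
(.lf (nat_lit 508791) (.g (nat_lit 1121) (.e (nat_lit 172074) (nat_lit 6) (.e (nat_lit 253991) (nat_lit 11) (.e (nat_lit 16434) (nat_lit 9) (.e (nat_lit 426550) (nat_lit 31) .nil)))) (.g (nat_lit 0) (.e (nat_lit 189976) (nat_lit 0) .nil) .nil))))) (.nd (nat_lit 8) (.nd (nat_lit 9) 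
(.lf (nat_lit 508151) (.g (nat_lit 2061) (.e (nat_lit 172059) (nat_lit 1) (.e (nat_lit 164403) (nat_lit 256) (.e (nat_lit 57445) (nat_lit 19) (.e (nat_lit 393233) (nat_lit 17) (.e (nat_lit 7581) (nat_lit 405) .nil))))) (.g (nat_lit 0) (.e (nat_lit 188542) (nat_lit 0) .nil) .nil))) 
(.lf (nat_lit 508663) (.g (nat_lit 3737) (.e (nat_lit 172067) (nat_lit 3) (.e (nat_lit 204868) (nat_lit 29) (.e (nat_lit 360475) (nat_lit 8) (.e (nat_lit 557091) (nat_lit 12) (.e (nat_lit 163841) (nat_lit 0) .nil))))) (.g (nat_lit 0) (.e (nat_lit 189699) (nat_lit 0) .nil) .nil)))) (.nd (nat_lit 9) 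
(.lf (nat_lit 508407) (.g (nat_lit 3016) (.e (nat_lit 172065) (nat_lit 3) (.e (nat_lit 204846) (nat_lit 24) (.e (nat_lit 319531) (nat_lit 16) (.e (nat_lit 286735) (nat_lit 3) (.e (nat_lit 98325) (nat_lit 17) (.e (nat_lit 7936) (nat_lit 392) .nil)))))) (.g (nat_lit 1) (.e (nat_lit 189050) (nat_lit 0) .nil) .nil))) 
(.lf (nat_lit 508919) (.g (nat_lit 939) (.e (nat_lit 172079) (nat_lit 7) (.e (nat_lit 409636) (nat_lit 14) (.e (nat_lit 270373) (nat_lit 16) (.e (nat_lit 286753) (nat_lit 10) (.e (nat_lit 344154) (nat_lit 35) (.e (nat_lit 630802) (nat_lit 8) .nil)))))) (.g (nat_lit 1) (.e (nat_lit 190336) (nat_lit 0) .nil) .nil))))))))) 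
(.nd (nat_lit 4) (.nd (nat_lit 5) (.nd (nat_lit 6) (.nd (nat_lit 7) (.nd (nat_lit 8) 
(.nd (nat_lit 9) 
(.lf (nat_lit 507919) (.g (nat_lit 1042) (.e (nat_lit 164402) (nat_lit 256) (.e (nat_lit 57406) (nat_lit 12) (.e (nat_lit 336434) (nat_lit 30) (.e (nat_lit 450579) (nat_lit 5) .nil)))) (.g (nat_lit 0) (.e (nat_lit 188169) (nat_lit 0) .nil) .nil))) 
(.lf (nat_lit 508431) (.g (nat_lit 1892) (.e (nat_lit 172065) (nat_lit 3) (.e (nat_lit 204868) (nat_lit 29) (.e (nat_lit 360473) (nat_lit 8) (.e (nat_lit 557089) (nat_lit 12) (.e (nat_lit 164019) (nat_lit 45) .nil))))) (.g (nat_lit 0) (.e (nat_lit 189134) (nat_lit 0) .nil) .nil)))) (.nd (nat_lit 9) 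
(.lf (nat_lit 508175) (.g (nat_lit 4960) (.e (nat_lit 172062) (nat_lit 2) (.e (nat_lit 196666) (nat_lit 13) (.e (nat_lit 65610) (nat_lit 10) (.e (nat_lit 344129) (nat_lit 26) (.e (nat_lit 557089) (nat_lit 12) (.e (nat_lit 164020) (nat_lit 45) (.e (nat_lit 696344) (nat_lit 8) .nil))))))) (.g (nat_lit 1) (.e (nat_lit 188667) (nat_lit 0) .nil) .nil))) 
(.lf (nat_lit 508687) (.g (nat_lit 3116) (.e (nat_lit 172067) (nat_lit 3) (.e (nat_lit 204869) (nat_lit 29) (.e (nat_lit 360474) (nat_lit 8) (.e (nat_lit 557093) (nat_lit 12) (.e (nat_lit 164018) (nat_lit 45) (.e (nat_lit 696342) (nat_lit 8) .nil)))))) (.g (nat_lit 1) (.e (nat_lit 189744) (nat_lit 0) .nil) .nil))))) (.nd (nat_lit 8) (.nd (nat_lit 9) 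
(.lf (nat_lit 508047) (.g (nat_lit 4700) (.e (nat_lit 164403) (nat_lit 256) (.e (nat_lit 57378) (nat_lit 3) (.e (nat_lit 98368) (nat_lit 27) (.e (nat_lit 434247) (nat_lit 28) (.e (nat_lit 573489) (nat_lit 14) (.e (nat_lit 73755) (nat_lit 8) (.e (nat_lit 557067) (nat_lit 9) (.e (nat_lit 2598) (nat_lit 163) .nil)))))))) (.g (nat_lit 1) (.e (nat_lit 188323) (nat_lit 0) .nil) .nil))) 
(.lf (nat_lit 508559) (.g (nat_lit 1928) (.e (nat_lit 172066) (nat_lit 3) (.e (nat_lit 204885) (nat_lit 33) (.e (nat_lit 401448) (nat_lit 10) (.e (nat_lit 434230) (nat_lit 23) .nil)))) (.g (nat_lit 0) (.e (nat_lit 189397) (nat_lit 0) .nil) .nil)))) (.nd (nat_lit 9) 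
(.lf (nat_lit 508303) (.g (nat_lit 3497) (.e (nat_lit 172064) (nat_lit 2) (.e (nat_lit 196666) (nat_lit 13) (.e (nat_lit 65610) (nat_lit 10) (.e (nat_lit 344129) (nat_lit 26) (.e (nat_lit 557089) (nat_lit 12) (.e (nat_lit 164019) (nat_lit 45) (.e (nat_lit 696343) (nat_lit 8) .nil))))))) (.g (nat_lit 1) (.e (nat_lit 188935) (nat_lit 0) .nil) .nil))) 
(.lf (nat_lit 508815) (.g (nat_lit 1211) (.e (nat_lit 172076) (nat_lit 6) (.e (nat_lit 253963) (nat_lit 9) (.e (nat_lit 433) (nat_lit 32) (.e (nat_lit 426228) (nat_lit 9) (.e (nat_lit 426549) (nat_lit 31) (.e (nat_lit 376576) (nat_lit 4) .nil)))))) (.g (nat_lit 1) (.e (nat_lit 190030) (nat_lit 0) .nil) .nil)))))) (.nd (nat_lit 7) (.nd (nat_lit 8) (.nd (nat_lit 9) 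
(.lf (nat_lit 507983) (.g (nat_lit 1675) (.e (nat_lit 164403) (nat_lit 256) (.e (nat_lit 57373) (nat_lit 2) (.e (nat_lit 90174) (nat_lit 14) (.e (nat_lit 180243) (nat_lit 5) (.e (nat_lit 532515) (nat_lit 3) .nil))))) (.g (nat_lit 0) (.e (nat_lit 188249) (nat_lit 0) .nil) .nil))) 
(.lf (nat_lit 508495) (.g (nat_lit 3043) (.e (nat_lit 172066) (nat_lit 3) (.e (nat_lit 204846) (nat_lit 24) (.e (nat_lit 319529) (nat_lit 16) (.e (nat_lit 286735) (nat_lit 3) (.e (nat_lit 98323) (nat_lit 17) (.e (nat_lit 7936) (nat_lit 392) .nil)))))) (.g (nat_lit 1) (.e (nat_lit 189271) (nat_lit 0) .nil) .nil)))) (.nd (nat_lit 9) 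
(.lf (nat_lit 508239) (.g (nat_lit 2347) (.e (nat_lit 172063) (nat_lit 2) (.e (nat_lit 196666) (nat_lit 13) (.e (nat_lit 65617) (nat_lit 10) (.e (nat_lit 344130) (nat_lit 26) (.e (nat_lit 557090) (nat_lit 12) .nil))))) (.g (nat_lit 0) (.e (nat_lit 188750) (nat_lit 0) .nil) .nil))) 
(.lf (nat_lit 508751) (.g (nat_lit 3740) (.e (nat_lit 172067) (nat_lit 3) (.e (nat_lit 204885) (nat_lit 33) (.e (nat_lit 401448) (nat_lit 10) (.e (nat_lit 434231) (nat_lit 23) (.e (nat_lit 532481) (nat_lit 0) (.e (nat_lit 6716) (nat_lit 361) .nil)))))) (.g (nat_lit 1) (.e (nat_lit 189868) (nat_lit 0) .nil) .nil))))) (.nd (nat_lit 8) (.nd (nat_lit 9) 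
(.lf (nat_lit 508111) (.g (nat_lit 1934) (.e (nat_lit 172039) (nat_lit 0) (.e (nat_lit 6989) (nat_lit 377) (.e (nat_lit 2777) (nat_lit 178) (.e (nat_lit 286771) (nat_lit 29) (.e (nat_lit 442399) (nat_lit 20) .nil))))) (.g (nat_lit 0) (.e (nat_lit 188413) (nat_lit 0) .nil) .nil))) 
(.lf (nat_lit 508623) (.g (nat_lit 3464) (.e (nat_lit 172067) (nat_lit 3) (.e (nat_lit 204852) (nat_lit 26) (.e (nat_lit 336310) (nat_lit 16) (.e (nat_lit 164177) (nat_lit 154) (.e (nat_lit 57379) (nat_lit 3) (.e (nat_lit 98334) (nat_lit 18) (.e (nat_lit 164305) (nat_lit 226) (.e (nat_lit 2630) (nat_lit 164) .nil)))))))) (.g (nat_lit 1) (.e (nat_lit 189515) (nat_lit 0) .nil) .nil)))) 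
(.nd (nat_lit 9) 
(.lf (nat_lit 508367) (.g (nat_lit 2675) (.e (nat_lit 172064) (nat_lit 2) (.e (nat_lit 196666) (nat_lit 13) (.e (nat_lit 65617) (nat_lit 10) (.e (nat_lit 344133) (nat_lit 26) (.e (nat_lit 557091) (nat_lit 12) (.e (nat_lit 163840) (nat_lit 0) (.e (nat_lit 6254) (nat_lit 337) (.e (nat_lit 2630) (nat_lit 164) .nil)))))))) (.g (nat_lit 1) (.e (nat_lit 189001) (nat_lit 0) .nil) .nil))) 
(.lf (nat_lit 508879) (.g (nat_lit 3146) (.e (nat_lit 172078) (nat_lit 7) (.e (nat_lit 409645) (nat_lit 18) (.e (nat_lit 303143) (nat_lit 12) (.e (nat_lit 475199) (nat_lit 40) (.e (nat_lit 704862) (nat_lit 18) .nil))))) (.g (nat_lit 0) (.e (nat_lit 190254) (nat_lit 0) .nil) .nil))))))) (.nd (nat_lit 6) (.nd (nat_lit 7) (.nd (nat_lit 8) (.nd (nat_lit 9) 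
(.lf (nat_lit 507951) (.g (nat_lit 2038) (.e (nat_lit 164403) (nat_lit 256) (.e (nat_lit 57371) (nat_lit 2) (.e (nat_lit 90172) (nat_lit 14) (.e (nat_lit 180244) (nat_lit 5) (.e (nat_lit 532514) (nat_lit 3) .nil))))) (.g (nat_lit 0) (.e (nat_lit 188212) (nat_lit 0) .nil) .nil))) 
(.lf (nat_lit 508463) (.g (nat_lit 3161) (.e (nat_lit 172065) (nat_lit 3) (.e (nat_lit 204869) (nat_lit 29) (.e (nat_lit 360475) (nat_lit 8) (.e (nat_lit 557088) (nat_lit 12) .nil)))) (.g (nat_lit 0) (.e (nat_lit 189179) (nat_lit 0) .nil) .nil)))) (.nd (nat_lit 9) 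
(.lf (nat_lit 508207) (.g (nat_lit 2573) (.e (nat_lit 172062) (nat_lit 2) (.e (nat_lit 196666) (nat_lit 13) (.e (nat_lit 65617) (nat_lit 10) (.e (nat_lit 344130) (nat_lit 26) (.e (nat_lit 557090) (nat_lit 12) (.e (nat_lit 164018) (nat_lit 45) (.e (nat_lit 696342) (nat_lit 8) .nil))))))) (.g (nat_lit 1) (.e (nat_lit 188702) (nat_lit 0) .nil) .nil))) 
(.lf (nat_lit 508719) (.g (nat_lit 2310) (.e (nat_lit 172067) (nat_lit 3) (.e (nat_lit 204869) (nat_lit 29) (.e (nat_lit 360475) (nat_lit 8) (.e (nat_lit 557090) (nat_lit 12) (.e (nat_lit 164020) (nat_lit 45) .nil))))) (.g (nat_lit 0) (.e (nat_lit 189794) (nat_lit 0) .nil) .nil))))) (.nd (nat_lit 8) (.nd (nat_lit 9) 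
(.lf (nat_lit 508079) (.g (nat_lit 1277) (.e (nat_lit 164403) (nat_lit 256) (.e (nat_lit 57409) (nat_lit 12) (.e (nat_lit 336443) (nat_lit 32) (.e (nat_lit 466978) (nat_lit 23) .nil)))) (.g (nat_lit 0) (.e (nat_lit 188356) (nat_lit 0) .nil) .nil))) 
(.lf (nat_lit 508591) (.g (nat_lit 2782) (.e (nat_lit 172067) (nat_lit 3) (.e (nat_lit 204846) (nat_lit 24) (.e (nat_lit 319528) (nat_lit 16) (.e (nat_lit 286735) (nat_lit 3) (.e (nat_lit 98325) (nat_lit 17) (.e (nat_lit 7936) (nat_lit 392) .nil)))))) (.g (nat_lit 1) (.e (nat_lit 189454) (nat_lit 0) .nil) .nil)))) (.nd (nat_lit 9) 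
(.lf (nat_lit 508335) (.g (nat_lit 3550) (.e (nat_lit 172064) (nat_lit 2) (.e (nat_lit 196666) (nat_lit 13) (.e (nat_lit 65617) (nat_lit 10) (.e (nat_lit 344127) (nat_lit 26) (.e (nat_lit 557090) (nat_lit 12) (.e (nat_lit 164018) (nat_lit 45) (.e (nat_lit 696343) (nat_lit 8) .nil))))))) (.g (nat_lit 1) (.e (nat_lit 188969) (nat_lit 0) .nil) .nil))) 
(.lf (nat_lit 508847) (.g (nat_lit 1686) (.e (nat_lit 172076) (nat_lit 6) (.e (nat_lit 253992) (nat_lit 11) (.e (nat_lit 16436) (nat_lit 9) (.e (nat_lit 426551) (nat_lit 31) .nil)))) (.g (nat_lit 0) (.e (nat_lit 190118) (nat_lit 0) .nil) .nil)))))) (.nd (nat_lit 7) (.nd (nat_lit 8) (.nd (nat_lit 9) 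
(.lf (nat_lit 508015) (.g (nat_lit 1177) (.e (nat_lit 164403) (nat_lit 256) (.e (nat_lit 57377) (nat_lit 3) (.e (nat_lit 98380) (nat_lit 31) (.e (nat_lit 466954) (nat_lit 11) .nil)))) (.g (nat_lit 0) (.e (nat_lit 188288) (nat_lit 0) .nil) .nil))) 
(.lf (nat_lit 508527) (.g (nat_lit 1246) (.e (nat_lit 172066) (nat_lit 3) (.e (nat_lit 204869) (nat_lit 29) (.e (nat_lit 360474) (nat_lit 8) (.e (nat_lit 557094) (nat_lit 12) .nil)))) (.g (nat_lit 0) (.e (nat_lit 189328) (nat_lit 0) .nil) .nil)))) (.nd (nat_lit 9) 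
(.lf (nat_lit 508271) (.g (nat_lit 2130) (.e (nat_lit 172064) (nat_lit 2) (.e (nat_lit 196666) (nat_lit 13) (.e (nat_lit 65610) (nat_lit 10) (.e (nat_lit 344117) (nat_lit 21) (.e (nat_lit 516099) (nat_lit 0) .nil))))) (.g (nat_lit 0) (.e (nat_lit 188815) (nat_lit 0) .nil) .nil))) 
(.lf (nat_lit 508783) (.g (nat_lit 1261) (.e (nat_lit 172074) (nat_lit 6) (.e (nat_lit 253988) (nat_lit 11) (.e (nat_lit 16463) (nat_lit 13) (.e (nat_lit 483361) (nat_lit 17) (.e (nat_lit 7936) (nat_lit 361) .nil))))) (.g (nat_lit 0) (.e (nat_lit 189958) (nat_lit 0) .nil) .nil))))) (.nd (nat_lit 8) (.nd (nat_lit 9) 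
(.lf (nat_lit 508143) (.g (nat_lit 2465) (.e (nat_lit 172059) (nat_lit 1) (.e (nat_lit 164398) (nat_lit 256) (.e (nat_lit 57447) (nat_lit 19) (.e (nat_lit 393233) (nat_lit 17) (.e (nat_lit 7583) (nat_lit 405) .nil))))) (.g (nat_lit 0) (.e (nat_lit 188534) (nat_lit 0) .nil) .nil))) 
(.lf (nat_lit 508655) (.g (nat_lit 441) (.e (nat_lit 172067) (nat_lit 3) (.e (nat_lit 204868) (nat_lit 29) (.e (nat_lit 360475) (nat_lit 8) .nil))) (.g (nat_lit 0) (.e (nat_lit 189681) (nat_lit 0) .nil) .nil)))) (.nd (nat_lit 9) 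
(.lf (nat_lit 508399) (.g (nat_lit 2477) (.e (nat_lit 172065) (nat_lit 3) (.e (nat_lit 204845) (nat_lit 24) (.e (nat_lit 319531) (nat_lit 16) (.e (nat_lit 286735) (nat_lit 3) (.e (nat_lit 98323) (nat_lit 17) (.e (nat_lit 7936) (nat_lit 392) .nil)))))) (.g (nat_lit 1) (.e (nat_lit 189042) (nat_lit 0) .nil) .nil))) 
(.lf (nat_lit 508911) (.g (nat_lit 3545) (.e (nat_lit 172079) (nat_lit 7) (.e (nat_lit 409611) (nat_lit 10) (.e (nat_lit 632) (nat_lit 50) (.e (nat_lit 573491) (nat_lit 15) (.e (nat_lit 81943) (nat_lit 20) (.e (nat_lit 2391) (nat_lit 156) (.e (nat_lit 819219) (nat_lit 4) .nil))))))) (.g (nat_lit 1) (.e (nat_lit 190309) (nat_lit 0) .nil) .nil)))))))) 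
(.nd (nat_lit 5) (.nd (nat_lit 6) (.nd (nat_lit 7) (.nd (nat_lit 8) (.nd (nat_lit 9) 
(.lf (nat_lit 507935) (.g (nat_lit 2914) (.e (nat_lit 164402) (nat_lit 256) (.e (nat_lit 57427) (nat_lit 15) (.e (nat_lit 360474) (nat_lit 8) (.e (nat_lit 557091) (nat_lit 12) (.e (nat_lit 163842) (nat_lit 0) .nil))))) (.g (nat_lit 0) (.e (nat_lit 188185) (nat_lit 0) .nil) .nil))) 
(.lf (nat_lit 508447) (.g (nat_lit 4129) (.e (nat_lit 172065) (nat_lit 3) (.e (nat_lit 204868) (nat_lit 29) (.e (nat_lit 360475) (nat_lit 8) (.e (nat_lit 557091) (nat_lit 12) (.e (nat_lit 163844) (nat_lit 0) (.e (nat_lit 6255) (nat_lit 337) (.e (nat_lit 2630) (nat_lit 164) .nil))))))) (.g (nat_lit 1) (.e (nat_lit 189160) (nat_lit 0) .nil) .nil)))) (.nd (nat_lit 9) 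
(.lf (nat_lit 508191) (.g (nat_lit 3062) (.e (nat_lit 172062) (nat_lit 2) (.e (nat_lit 196666) (nat_lit 13) (.e (nat_lit 65610) (nat_lit 10) (.e (nat_lit 344129) (nat_lit 26) (.e (nat_lit 557090) (nat_lit 12) (.e (nat_lit 163852) (nat_lit 0) (.e (nat_lit 6273) (nat_lit 337) (.e (nat_lit 2633) (nat_lit 164) .nil)))))))) (.g (nat_lit 1) (.e (nat_lit 188683) (nat_lit 0) .nil) .nil))) 
(.lf (nat_lit 508703) (.g (nat_lit 3156) (.e (nat_lit 172067) (nat_lit 3) (.e (nat_lit 204869) (nat_lit 29) (.e (nat_lit 360475) (nat_lit 8) (.e (nat_lit 557089) (nat_lit 12) (.e (nat_lit 163844) (nat_lit 0) (.e (nat_lit 6250) (nat_lit 337) (.e (nat_lit 2621) (nat_lit 164) .nil))))))) (.g (nat_lit 1) (.e (nat_lit 189774) (nat_lit 0) .nil) .nil))))) (.nd (nat_lit 8) (.nd (nat_lit 9) 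
(.lf (nat_lit 508063) (.g (nat_lit 1963) (.e (nat_lit 164403) (nat_lit 256) (.e (nat_lit 57400) (nat_lit 10) (.e (nat_lit 319534) (nat_lit 16) (.e (nat_lit 286744) (nat_lit 9) .nil)))) (.g (nat_lit 0) (.e (nat_lit 188339) (nat_lit 0) .nil) .nil))) 
(.lf (nat_lit 508575) (.g (nat_lit 1320) (.e (nat_lit 172067) (nat_lit 3) (.e (nat_lit 204845) (nat_lit 24) (.e (nat_lit 319538) (nat_lit 19) (.e (nat_lit 311312) (nat_lit 2) .nil)))) (.g (nat_lit 0) (.e (nat_lit 189429) (nat_lit 0) .nil) .nil)))) (.nd (nat_lit 9) 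
(.lf (nat_lit 508319) (.g (nat_lit 4565) (.e (nat_lit 172064) (nat_lit 2) (.e (nat_lit 196666) (nat_lit 13) (.e (nat_lit 65610) (nat_lit 10) (.e (nat_lit 344129) (nat_lit 26) (.e (nat_lit 557090) (nat_lit 12) (.e (nat_lit 163850) (nat_lit 0) (.e (nat_lit 6273) (nat_lit 337) (.e (nat_lit 2632) (nat_lit 164) .nil)))))))) (.g (nat_lit 1) (.e (nat_lit 188952) (nat_lit 0) .nil) .nil))) 
(.lf (nat_lit 508831) (.g (nat_lit 1565) (.e (nat_lit 172076) (nat_lit 6) (.e (nat_lit 253991) (nat_lit 11) (.e (nat_lit 16438) (nat_lit 9) (.e (nat_lit 426550) (nat_lit 31) (.e (nat_lit 376576) (nat_lit 4) .nil))))) (.g (nat_lit 0) (.e (nat_lit 190086) (nat_lit 0) .nil) .nil)))))) (.nd (nat_lit 7) (.nd (nat_lit 8) (.nd (nat_lit 9) 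
(.lf (nat_lit 507999) (.g (nat_lit 3611) (.e (nat_lit 164403) (nat_lit 256) (.e (nat_lit 57373) (nat_lit 2) (.e (nat_lit 90174) (nat_lit 14) (.e (nat_lit 180252) (nat_lit 10) (.e (nat_lit 573489) (nat_lit 14) (.e (nat_lit 73755) (nat_lit 8) (.e (nat_lit 557067) (nat_lit 9) (.e (nat_lit 2603) (nat_lit 163) .nil)))))))) (.g (nat_lit 1) (.e (nat_lit 188265) (nat_lit 0) .nil) .nil))) 
(.lf (nat_lit 508511) (.g (nat_lit 2488) (.e (nat_lit 172066) (nat_lit 3) (.e (nat_lit 204846) (nat_lit 24) (.e (nat_lit 319534) (nat_lit 16) (.e (nat_lit 286735) (nat_lit 3) (.e (nat_lit 98323) (nat_lit 17) (.e (nat_lit 7936) (nat_lit 392) .nil)))))) (.g (nat_lit 1) (.e (nat_lit 189290) (nat_lit 0) .nil) .nil)))) (.nd (nat_lit 9) 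
(.lf (nat_lit 508255) (.g (nat_lit 4301) (.e (nat_lit 172064) (nat_lit 2) (.e (nat_lit 196666) (nat_lit 13) (.e (nat_lit 65610) (nat_lit 10) (.e (nat_lit 344117) (nat_lit 21) (.e (nat_lit 516097) (nat_lit 0) (.e (nat_lit 2418) (nat_lit 157) (.e (nat_lit 4516) (nat_lit 263) (.e (nat_lit 2619) (nat_lit 164) .nil)))))))) (.g (nat_lit 1) (.e (nat_lit 188799) (nat_lit 0) .nil) .nil))) 
(.lf (nat_lit 508767) (.g (nat_lit 4563) (.e (nat_lit 172068) (nat_lit 4) (.e (nat_lit 229666) (nat_lit 240) (.e (nat_lit 2612) (nat_lit 163) (.e (nat_lit 163979) (nat_lit 30) (.e (nat_lit 573493) (nat_lit 15) (.e (nat_lit 81953) (nat_lit 22) (.e (nat_lit 90170) (nat_lit 13) .nil))))))) (.g (nat_lit 1) (.e (nat_lit 189889) (nat_lit 0) .nil) .nil))))) (.nd (nat_lit 8) (.nd (nat_lit 9) 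
(.lf (nat_lit 508127) (.g (nat_lit 2368) (.e (nat_lit 172046) (nat_lit 0) (.e (nat_lit 3238) (nat_lit 197) (.e (nat_lit 532569) (nat_lit 16) (.e (nat_lit 401448) (nat_lit 10) (.e (nat_lit 434231) (nat_lit 23) .nil))))) (.g (nat_lit 0) (.e (nat_lit 188474) (nat_lit 0) .nil) .nil))) 
(.lf (nat_lit 508639) (.g (nat_lit 2047) (.e (nat_lit 172067) (nat_lit 3) (.e (nat_lit 204855) (nat_lit 26) (.e (nat_lit 336176) (nat_lit 10) (.e (nat_lit 344132) (nat_lit 26) (.e (nat_lit 557088) (nat_lit 12) .nil))))) (.g (nat_lit 0) (.e (nat_lit 189566) (nat_lit 0) .nil) .nil)))) (.nd (nat_lit 9) 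
(.lf (nat_lit 508383) (.g (nat_lit 2016) (.e (nat_lit 172065) (nat_lit 3) (.e (nat_lit 204829) (nat_lit 18) (.e (nat_lit 57688) (nat_lit 156) (.e (nat_lit 163872) (nat_lit 3) .nil)))) (.g (nat_lit 0) (.e (nat_lit 189023) (nat_lit 0) .nil) .nil))) 
(.lf (nat_lit 508895) (.g (nat_lit 1947) (.e (nat_lit 172078) (nat_lit 7) (.e (nat_lit 409646) (nat_lit 18) (.e (nat_lit 303143) (nat_lit 12) (.e (nat_lit 475212) (nat_lit 42) .nil)))) (.g (nat_lit 0) (.e (nat_lit 190279) (nat_lit 0) .nil) .nil))))))) (.nd (nat_lit 6) (.nd (nat_lit 7) (.nd (nat_lit 8) (.nd (nat_lit 9) 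
(.lf (nat_lit 507967) (.g (nat_lit 4223) (.e (nat_lit 164403) (nat_lit 256) (.e (nat_lit 57371) (nat_lit 2) (.e (nat_lit 90174) (nat_lit 14) (.e (nat_lit 180251) (nat_lit 10) (.e (nat_lit 573489) (nat_lit 14) (.e (nat_lit 73755) (nat_lit 8) (.e (nat_lit 557067) (nat_lit 9) (.e (nat_lit 2598) (nat_lit 163) .nil)))))))) (.g (nat_lit 1) (.e (nat_lit 188228) (nat_lit 0) .nil) .nil))) 
(.lf (nat_lit 508479) (.g (nat_lit 1087) (.e (nat_lit 172065) (nat_lit 3) (.e (nat_lit 204885) (nat_lit 33) (.e (nat_lit 401448) (nat_lit 10) (.e (nat_lit 434232) (nat_lit 23) .nil)))) (.g (nat_lit 0) (.e (nat_lit 189230) (nat_lit 0) .nil) .nil)))) (.nd (nat_lit 9) 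
(.lf (nat_lit 508223) (.g (nat_lit 2602) (.e (nat_lit 172062) (nat_lit 2) (.e (nat_lit 196666) (nat_lit 13) (.e (nat_lit 65617) (nat_lit 10) (.e (nat_lit 344133) (nat_lit 26) (.e (nat_lit 557091) (nat_lit 12) (.e (nat_lit 163841) (nat_lit 0) (.e (nat_lit 6255) (nat_lit 337) (.e (nat_lit 2630) (nat_lit 164) .nil)))))))) (.g (nat_lit 1) (.e (nat_lit 188718) (nat_lit 0) .nil) .nil))) 
(.lf (nat_lit 508735) (.g (nat_lit 3301) (.e (nat_lit 172067) (nat_lit 3) (.e (nat_lit 204869) (nat_lit 29) (.e (nat_lit 360475) (nat_lit 8) (.e (nat_lit 557091) (nat_lit 12) (.e (nat_lit 163847) (nat_lit 0) (.e (nat_lit 6252) (nat_lit 337) (.e (nat_lit 2620) (nat_lit 164) .nil))))))) (.g (nat_lit 1) (.e (nat_lit 189820) (nat_lit 0) .nil) .nil))))) (.nd (nat_lit 8) (.nd (nat_lit 9) 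
(.lf (nat_lit 508095) (.g (nat_lit 1136) (.e (nat_lit 172035) (nat_lit 0) (.e (nat_lit 6989) (nat_lit 377) (.e (nat_lit 2779) (nat_lit 178) (.e (nat_lit 286771) (nat_lit 29) .nil)))) (.g (nat_lit 0) (.e (nat_lit 188387) (nat_lit 0) .nil) .nil))) 
(.lf (nat_lit 508607) (.g (nat_lit 3978) (.e (nat_lit 172067) (nat_lit 3) (.e (nat_lit 204846) (nat_lit 24) (.e (nat_lit 319533) (nat_lit 16) (.e (nat_lit 286734) (nat_lit 3) (.e (nat_lit 98321) (nat_lit 17) (.e (nat_lit 7936) (nat_lit 392) .nil)))))) (.g (nat_lit 1) (.e (nat_lit 189482) (nat_lit 0) .nil) .nil)))) (.nd (nat_lit 9) 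
(.lf (nat_lit 508351) (.g (nat_lit 2572) (.e (nat_lit 172064) (nat_lit 2) (.e (nat_lit 196666) (nat_lit 13) (.e (nat_lit 65617) (nat_lit 10) (.e (nat_lit 344130) (nat_lit 26) (.e (nat_lit 557090) (nat_lit 12) (.e (nat_lit 164018) (nat_lit 45) (.e (nat_lit 696342) (nat_lit 8) .nil))))))) (.g (nat_lit 1) (.e (nat_lit 188985) (nat_lit 0) .nil) .nil))) 
(.lf (nat_lit 508863) (.g (nat_lit 818) (.e (nat_lit 172077) (nat_lit 7) (.e (nat_lit 409616) (nat_lit 10) (.e (nat_lit 632) (nat_lit 50) .nil))) (.g (nat_lit 0) (.e (nat_lit 190145) (nat_lit 0) .nil) .nil)))))) (.nd (nat_lit 7) (.nd (nat_lit 8) (.nd (nat_lit 9) 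
(.lf (nat_lit 508031) (.g (nat_lit 1022) (.e (nat_lit 164403) (nat_lit 256) (.e (nat_lit 57378) (nat_lit 3) (.e (nat_lit 98365) (nat_lit 26) (.e (nat_lit 426188) (nat_lit 9) .nil)))) (.g (nat_lit 0) (.e (nat_lit 188307) (nat_lit 0) .nil) .nil))) 
(.lf (nat_lit 508543) (.g (nat_lit 3831) (.e (nat_lit 172066) (nat_lit 3) (.e (nat_lit 204869) (nat_lit 29) (.e (nat_lit 360475) (nat_lit 8) (.e (nat_lit 557091) (nat_lit 12) (.e (nat_lit 163840) (nat_lit 0) (.e (nat_lit 6374) (nat_lit 337) (.e (nat_lit 2628) (nat_lit 164) .nil))))))) (.g (nat_lit 1) (.e (nat_lit 189353) (nat_lit 0) .nil) .nil)))) (.nd (nat_lit 9) 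
(.lf (nat_lit 508287) (.g (nat_lit 2774) (.e (nat_lit 172064) (nat_lit 2) (.e (nat_lit 196666) (nat_lit 13) (.e (nat_lit 65610) (nat_lit 10) (.e (nat_lit 344117) (nat_lit 21) (.e (nat_lit 516106) (nat_lit 0) (.e (nat_lit 3337) (nat_lit 205) (.e (nat_lit 598060) (nat_lit 16) .nil))))))) (.g (nat_lit 1) (.e (nat_lit 188837) (nat_lit 0) .nil) .nil))) 
(.lf (nat_lit 508799) (.g (nat_lit 3163) (.e (nat_lit 172074) (nat_lit 6) (.e (nat_lit 253991) (nat_lit 11) (.e (nat_lit 16466) (nat_lit 13) (.e (nat_lit 483346) (nat_lit 17) (.e (nat_lit 6720) (nat_lit 361) .nil))))) (.g (nat_lit 1) (.e (nat_lit 189988) (nat_lit 0) .nil) .nil))))) (.nd (nat_lit 8) (.nd (nat_lit 9) 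
(.lf (nat_lit 508159) (.g (nat_lit 2327) (.e (nat_lit 172062) (nat_lit 2) (.e (nat_lit 196666) (nat_lit 13) (.e (nat_lit 65610) (nat_lit 10) (.e (nat_lit 344117) (nat_lit 21) (.e (nat_lit 516098) (nat_lit 0) (.e (nat_lit 2407) (nat_lit 157) (.e (nat_lit 4506) (nat_lit 263) (.e (nat_lit 2619) (nat_lit 164) .nil)))))))) (.g (nat_lit 1) (.e (nat_lit 188596) (nat_lit 0) .nil) .nil))) 
(.lf (nat_lit 508671) (.g (nat_lit 1339) (.e (nat_lit 172067) (nat_lit 3) (.e (nat_lit 204869) (nat_lit 29) (.e (nat_lit 360462) (nat_lit 1) (.e (nat_lit 499991) (nat_lit 14) .nil)))) (.g (nat_lit 0) (.e (nat_lit 189717) (nat_lit 0) .nil) .nil)))) (.nd (nat_lit 9) 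
(.lf (nat_lit 508415) (.g (nat_lit 1390) (.e (nat_lit 172065) (nat_lit 3) (.e (nat_lit 204855) (nat_lit 26) (.e (nat_lit 336099) (nat_lit 9) (.e (nat_lit 336013) (nat_lit 2) .nil)))) (.g (nat_lit 0) (.e (nat_lit 189066) (nat_lit 0) .nil) .nil))) 
(.lf (nat_lit 508927) (.g (nat_lit 1402) (.e (nat_lit 172079) (nat_lit 7) (.e (nat_lit 409639) (nat_lit 15) (.e (nat_lit 278566) (nat_lit 16) (.e (nat_lit 286756) (nat_lit 10) (.e (nat_lit 344157) (nat_lit 36) (.e (nat_lit 638999) (nat_lit 8) .nil)))))) (.g (nat_lit 1) (.e (nat_lit 190346) (nat_lit 0) .nil) .nil)))))))))))))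

noncomputable def tv5557 : DT := (.nd (nat_lit 0) (.nd (nat_lit 1) (.nd (nat_lit 2) (.nd (nat_lit 3) (.nd (nat_lit 4) (.nd (nat_lit 5) (.nd (nat_lit 6) (.nd (nat_lit 7) (.nd (nat_lit 8) (.nd (nat_lit 9) 
(.lf (nat_lit 508928) (.g (nat_lit 609) (.e (nat_lit 172079) (nat_lit 7) (.e (nat_lit 409645) (nat_lit 18) (.e (nat_lit 303105) (nat_lit 0) .nil))) (.g (nat_lit 0) (.e (nat_lit 190350) (nat_lit 0) .nil) .nil))) 
(.lf (nat_lit 509440) (.g (nat_lit 1541) (.e (nat_lit 172105) (nat_lit 10) (.e (nat_lit 434289) (nat_lit 43) (.e (nat_lit 696344) (nat_lit 8) (.e (nat_lit 172113) (nat_lit 10) .nil)))) (.g (nat_lit 0) (.e (nat_lit 192382) (nat_lit 0) .nil) .nil)))) (.nd (nat_lit 9) 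
(.lf (nat_lit 509184) (.g (nat_lit 417) (.e (nat_lit 172082) (nat_lit 7) (.e (nat_lit 409649) (nat_lit 18) (.e (nat_lit 303146) (nat_lit 14) .nil))) (.g (nat_lit 0) (.e (nat_lit 191816) (nat_lit 0) .nil) .nil))) 
(.lf (nat_lit 509696) (.g (nat_lit 1451) (.e (nat_lit 172112) (nat_lit 10) (.e (nat_lit 434241) (nat_lit 27) (.e (nat_lit 565269) (nat_lit 6) (.e (nat_lit 81938) (nat_lit 20) (.e (nat_lit 2389) (nat_lit 156) .nil))))) (.g (nat_lit 0) (.e (nat_lit 193121) (nat_lit 0) .nil) .nil))))) (.nd (nat_lit 8) (.nd (nat_lit 9) 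
(.lf (nat_lit 509056) (.g (nat_lit 2169) (.e (nat_lit 172081) (nat_lit 7) (.e (nat_lit 409646) (nat_lit 18) (.e (nat_lit 303140) (nat_lit 10) (.e (nat_lit 434275) (nat_lit 39) .nil)))) (.g (nat_lit 0) (.e (nat_lit 190959) (nat_lit 0) .nil) .nil))) 
(.lf (nat_lit 509568) (.g (nat_lit 993) (.e (nat_lit 172106) (nat_lit 10) (.e (nat_lit 434275) (nat_lit 39) (.e (nat_lit 663565) (nat_lit 3) (.e (nat_lit 65280) (nat_lit 206) .nil)))) (.g (nat_lit 0) (.e (nat_lit 192803) (nat_lit 0) .nil) .nil)))) (.nd (nat_lit 9) 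
(.lf (nat_lit 509312) (.g (nat_lit 1676) (.e (nat_lit 172096) (nat_lit 9) (.e (nat_lit 426140) (nat_lit 3) (.e (nat_lit 204846) (nat_lit 24) (.e (nat_lit 319534) (nat_lit 16) (.e (nat_lit 286728) (nat_lit 0) .nil))))) (.g (nat_lit 0) (.e (nat_lit 192106) (nat_lit 0) .nil) .nil))) 
(.lf (nat_lit 509824) (.g (nat_lit 3401) (.e (nat_lit 172113) (nat_lit 10) (.e (nat_lit 434242) (nat_lit 28) (.e (nat_lit 573474) (nat_lit 12) (.e (nat_lit 57572) (nat_lit 54) (.e (nat_lit 770070) (nat_lit 8) .nil))))) (.g (nat_lit 0) (.e (nat_lit 193377) (nat_lit 0) .nil) .nil)))))) (.nd (nat_lit 7) (.nd (nat_lit 8) (.nd (nat_lit 9) 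
(.lf (nat_lit 508992) (.g (nat_lit 1393) (.e (nat_lit 172079) (nat_lit 7) (.e (nat_lit 409645) (nat_lit 18) (.e (nat_lit 311040) (nat_lit 35) (.e (nat_lit 401454) (nat_lit 12) (.e (nat_lit 475197) (nat_lit 40) (.e (nat_lit 712448) (nat_lit 4) .nil)))))) (.g (nat_lit 1) (.e (nat_lit 190821) (nat_lit 0) .nil) .nil))) 
(.lf (nat_lit 509504) (.g (nat_lit 1802) (.e (nat_lit 172106) (nat_lit 10) (.e (nat_lit 434231) (nat_lit 23) (.e (nat_lit 532563) (nat_lit 15) (.e (nat_lit 385113) (nat_lit 53) .nil)))) (.g (nat_lit 0) (.e (nat_lit 192559) (nat_lit 0) .nil) .nil)))) (.nd (nat_lit 9) 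
(.lf (nat_lit 509248) (.g (nat_lit 454) (.e (nat_lit 172094) (nat_lit 9) (.e (nat_lit 426025) (nat_lit 0) (.e (nat_lit 3399) (nat_lit 211) .nil))) (.g (nat_lit 0) (.e (nat_lit 191977) (nat_lit 0) .nil) .nil))) 
(.lf (nat_lit 509760) (.g (nat_lit 2066) (.e (nat_lit 172113) (nat_lit 10) (.e (nat_lit 434231) (nat_lit 23) (.e (nat_lit 532490) (nat_lit 0) (.e (nat_lit 6674) (nat_lit 357) .nil)))) (.g (nat_lit 0) (.e (nat_lit 193298) (nat_lit 0) .nil) .nil))))) (.nd (nat_lit 8) (.nd (nat_lit 9) 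
(.lf (nat_lit 509120) (.g (nat_lit 3268) (.e (nat_lit 172082) (nat_lit 7) (.e (nat_lit 409646) (nat_lit 18) (.e (nat_lit 303137) (nat_lit 10) (.e (nat_lit 434275) (nat_lit 39) (.e (nat_lit 663580) (nat_lit 9) (.e (nat_lit 2478) (nat_lit 157) (.e (nat_lit 3464) (nat_lit 217) (.e (nat_lit 696343) (nat_lit 8) .nil)))))))) (.g (nat_lit 1) (.e (nat_lit 191410) (nat_lit 0) .nil) .nil))) 
(.lf (nat_lit 509632) (.g (nat_lit 2840) (.e (nat_lit 172107) (nat_lit 10) (.e (nat_lit 434268) (nat_lit 36) (.e (nat_lit 639020) (nat_lit 16) (.e (nat_lit 65619) (nat_lit 10) (.e (nat_lit 344156) (nat_lit 36) (.e (nat_lit 638998) (nat_lit 8) .nil)))))) (.g (nat_lit 1) (.e (nat_lit 193009) (nat_lit 0) .nil) .nil)))) (.nd (nat_lit 9) 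
(.lf (nat_lit 509376) (.g (nat_lit 2922) (.e (nat_lit 172103) (nat_lit 9) (.e (nat_lit 426133) (nat_lit 3) (.e (nat_lit 204880) (nat_lit 32) (.e (nat_lit 385094) (nat_lit 49) .nil)))) (.g (nat_lit 0) (.e (nat_lit 192300) (nat_lit 0) .nil) .nil))) 
(.lf (nat_lit 509888) (.g (nat_lit 5156) (.e (nat_lit 172113) (nat_lit 10) (.e (nat_lit 434245) (nat_lit 28) (.e (nat_lit 573471) (nat_lit 11) (.e (nat_lit 16470) (nat_lit 14) (.e (nat_lit 491537) (nat_lit 2) (.e (nat_lit 90170) (nat_lit 13) .nil)))))) (.g (nat_lit 1) (.e (nat_lit 193491) (nat_lit 0) .nil) .nil))))))) (.nd (nat_lit 6) (.nd (nat_lit 7) (.nd (nat_lit 8) (.nd (nat_lit 9) 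
(.lf (nat_lit 508960) (.g (nat_lit 3265) (.e (nat_lit 172079) (nat_lit 7) (.e (nat_lit 409645) (nat_lit 18) (.e (nat_lit 303140) (nat_lit 10) (.e (nat_lit 434275) (nat_lit 39) (.e (nat_lit 663580) (nat_lit 9) (.e (nat_lit 2478) (nat_lit 157) (.e (nat_lit 3464) (nat_lit 217) (.e (nat_lit 696344) (nat_lit 8) .nil)))))))) (.g (nat_lit 1) (.e (nat_lit 190594) (nat_lit 0) .nil) .nil))) 
(.lf (nat_lit 509472) (.g (nat_lit 1519) (.e (nat_lit 172106) (nat_lit 10) (.e (nat_lit 434231) (nat_lit 23) (.e (nat_lit 532500) (nat_lit 1) (.e (nat_lit 65280) (nat_lit 215) .nil)))) (.g (nat_lit 0) (.e (nat_lit 192511) (nat_lit 0) .nil) .nil)))) (.nd (nat_lit 9) 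
(.lf (nat_lit 509216) (.g (nat_lit 2098) (.e (nat_lit 172086) (nat_lit 9) (.e (nat_lit 426482) (nat_lit 27) (.e (nat_lit 336060) (nat_lit 7) (.e (nat_lit 319534) (nat_lit 16) (.e (nat_lit 286723) (nat_lit 0) .nil))))) (.g (nat_lit 0) (.e (nat_lit 191924) (nat_lit 0) .nil) .nil))) 
(.lf (nat_lit 509728) (.g (nat_lit 1770) (.e (nat_lit 172112) (nat_lit 10) (.e (nat_lit 434289) (nat_lit 43) (.e (nat_lit 696346) (nat_lit 10) (.e (nat_lit 188440) (nat_lit 20) (.e (nat_lit 3467) (nat_lit 217) .nil))))) (.g (nat_lit 0) (.e (nat_lit 193189) (nat_lit 0) .nil) .nil))))) (.nd (nat_lit 8) (.nd (nat_lit 9) 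
(.lf (nat_lit 509088) (.g (nat_lit 1819) (.e (nat_lit 172082) (nat_lit 7) (.e (nat_lit 409617) (nat_lit 10) (.e (nat_lit 632) (nat_lit 50) (.e (nat_lit 573491) (nat_lit 15) (.e (nat_lit 81943) (nat_lit 20) .nil))))) (.g (nat_lit 0) (.e (nat_lit 191049) (nat_lit 0) .nil) .nil))) 
(.lf (nat_lit 509600) (.g (nat_lit 3468) (.e (nat_lit 172106) (nat_lit 10) (.e (nat_lit 434289) (nat_lit 43) (.e (nat_lit 696343) (nat_lit 8) (.e (nat_lit 172115) (nat_lit 10) (.e (nat_lit 434289) (nat_lit 43) (.e (nat_lit 696344) (nat_lit 8) .nil)))))) (.g (nat_lit 1) (.e (nat_lit 192953) (nat_lit 0) .nil) .nil)))) (.nd (nat_lit 9) 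
(.lf (nat_lit 509344) (.g (nat_lit 2806) (.e (nat_lit 172097) (nat_lit 9) (.e (nat_lit 426140) (nat_lit 3) (.e (nat_lit 204845) (nat_lit 24) (.e (nat_lit 319529) (nat_lit 16) (.e (nat_lit 286733) (nat_lit 2) (.e (nat_lit 90169) (nat_lit 13) .nil)))))) (.g (nat_lit 1) (.e (nat_lit 192254) (nat_lit 0) .nil) .nil))) 
(.lf (nat_lit 509856) (.g (nat_lit 3500) (.e (nat_lit 172113) (nat_lit 10) (.e (nat_lit 434245) (nat_lit 28) (.e (nat_lit 573470) (nat_lit 11) (.e (nat_lit 16473) (nat_lit 14) (.e (nat_lit 491536) (nat_lit 2) (.e (nat_lit 90170) (nat_lit 13) .nil)))))) (.g (nat_lit 1) (.e (nat_lit 193427) (nat_lit 0) .nil) .nil)))))) (.nd (nat_lit 7) (.nd (nat_lit 8) (.nd (nat_lit 9) 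
(.lf (nat_lit 509024) (.g (nat_lit 1621) (.e (nat_lit 172080) (nat_lit 7) (.e (nat_lit 409638) (nat_lit 15) (.e (nat_lit 278566) (nat_lit 16) (.e (nat_lit 286756) (nat_lit 10) (.e (nat_lit 344157) (nat_lit 36) (.e (nat_lit 638999) (nat_lit 8) .nil)))))) (.g (nat_lit 1) (.e (nat_lit 190884) (nat_lit 0) .nil) .nil))) 
(.lf (nat_lit 509536) (.g (nat_lit 2513) (.e (nat_lit 172106) (nat_lit 10) (.e (nat_lit 434244) (nat_lit 28) (.e (nat_lit 573471) (nat_lit 11) (.e (nat_lit 16400) (nat_lit 0) (.e (nat_lit 7936) (nat_lit 402) .nil))))) (.g (nat_lit 0) (.e (nat_lit 192740) (nat_lit 0) .nil) .nil)))) (.nd (nat_lit 9) 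
(.lf (nat_lit 509280) (.g (nat_lit 553) (.e (nat_lit 172095) (nat_lit 9) (.e (nat_lit 426025) (nat_lit 0) (.e (nat_lit 3399) (nat_lit 211) .nil))) (.g (nat_lit 0) (.e (nat_lit 192058) (nat_lit 0) .nil) .nil))) 
(.lf (nat_lit 509792) (.g (nat_lit 2336) (.e (nat_lit 172113) (nat_lit 10) (.e (nat_lit 434231) (nat_lit 23) (.e (nat_lit 532563) (nat_lit 15) (.e (nat_lit 385106) (nat_lit 50) .nil)))) (.g (nat_lit 0) (.e (nat_lit 193331) (nat_lit 0) .nil) .nil))))) (.nd (nat_lit 8) (.nd (nat_lit 9) 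
(.lf (nat_lit 509152) (.g (nat_lit 3381) (.e (nat_lit 172082) (nat_lit 7) (.e (nat_lit 409646) (nat_lit 18) (.e (nat_lit 303146) (nat_lit 14) (.e (nat_lit 491560) (nat_lit 10) (.e (nat_lit 344156) (nat_lit 36) (.e (nat_lit 638999) (nat_lit 8) .nil)))))) (.g (nat_lit 1) (.e (nat_lit 191676) (nat_lit 0) .nil) .nil))) 
(.lf (nat_lit 509664) (.g (nat_lit 2005) (.e (nat_lit 172111) (nat_lit 10) (.e (nat_lit 434247) (nat_lit 28) (.e (nat_lit 573477) (nat_lit 12) (.e (nat_lit 57574) (nat_lit 55) (.e (nat_lit 778465) (nat_lit 11) (.e (nat_lit 24603) (nat_lit 2) (.e (nat_lit 90167) (nat_lit 13) .nil))))))) (.g (nat_lit 1) (.e (nat_lit 193062) (nat_lit 0) .nil) .nil)))) (.nd (nat_lit 9) 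
(.lf (nat_lit 509408) (.g (nat_lit 2653) (.e (nat_lit 172105) (nat_lit 10) (.e (nat_lit 434248) (nat_lit 28) (.e (nat_lit 573469) (nat_lit 11) (.e (nat_lit 16438) (nat_lit 9) (.e (nat_lit 426402) (nat_lit 15) .nil))))) (.g (nat_lit 0) (.e (nat_lit 192345) (nat_lit 0) .nil) .nil))) 
(.lf (nat_lit 509920) (.g (nat_lit 1790) (.e (nat_lit 172113) (nat_lit 10) (.e (nat_lit 434248) (nat_lit 28) (.e (nat_lit 573450) (nat_lit 9) (.e (nat_lit 411) (nat_lit 32) (.e (nat_lit 426008) (nat_lit 0) .nil))))) (.g (nat_lit 0) (.e (nat_lit 193531) (nat_lit 0) .nil) .nil)))))))) (.nd (nat_lit 5) (.nd (nat_lit 6) (.nd (nat_lit 7) (.nd (nat_lit 8) (.nd (nat_lit 9) 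
(.lf (nat_lit 508944) (.g (nat_lit 2068) (.e (nat_lit 172079) (nat_lit 7) (.e (nat_lit 409645) (nat_lit 18) (.e (nat_lit 303133) (nat_lit 9) (.e (nat_lit 426412) (nat_lit 15) (.e (nat_lit 2230) (nat_lit 146) .nil))))) (.g (nat_lit 0) (.e (nat_lit 190532) (nat_lit 0) .nil) .nil))) 
(.lf (nat_lit 509456) (.g (nat_lit 1673) (.e (nat_lit 172106) (nat_lit 10) (.e (nat_lit 434209) (nat_lit 18) (.e (nat_lit 6428) (nat_lit 342) (.e (nat_lit 229412) (nat_lit 14) (.e (nat_lit 442392) (nat_lit 20) .nil))))) (.g (nat_lit 0) (.e (nat_lit 192486) (nat_lit 0) .nil) .nil)))) (.nd (nat_lit 9) 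
(.lf (nat_lit 509200) (.g (nat_lit 1625) (.e (nat_lit 172085) (nat_lit 9) (.e (nat_lit 426140) (nat_lit 3) (.e (nat_lit 204845) (nat_lit 24) (.e (nat_lit 327424) (nat_lit 16) .nil)))) (.g (nat_lit 0) (.e (nat_lit 191904) (nat_lit 0) .nil) .nil))) 
(.lf (nat_lit 509712) (.g (nat_lit 1778) (.e (nat_lit 172112) (nat_lit 10) (.e (nat_lit 434271) (nat_lit 38) (.e (nat_lit 655380) (nat_lit 6) (.e (nat_lit 188441) (nat_lit 20) (.e (nat_lit 3406) (nat_lit 212) (.e (nat_lit 655378) (nat_lit 4) .nil)))))) (.g (nat_lit 1) (.e (nat_lit 193150) (nat_lit 0) .nil) .nil))))) (.nd (nat_lit 8) (.nd (nat_lit 9) 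
(.lf (nat_lit 509072) (.g (nat_lit 2415) (.e (nat_lit 172081) (nat_lit 7) (.e (nat_lit 409649) (nat_lit 18) (.e (nat_lit 303140) (nat_lit 10) (.e (nat_lit 434275) (nat_lit 39) (.e (nat_lit 663579) (nat_lit 9) .nil))))) (.g (nat_lit 0) (.e (nat_lit 191003) (nat_lit 0) .nil) .nil))) 
(.lf (nat_lit 509584) (.g (nat_lit 3275) (.e (nat_lit 172106) (nat_lit 10) (.e (nat_lit 434272) (nat_lit 38) (.e (nat_lit 655380) (nat_lit 6) (.e (nat_lit 188455) (nat_lit 24) (.e (nat_lit 229666) (nat_lit 240) (.e (nat_lit 2630) (nat_lit 164) .nil)))))) (.g (nat_lit 1) (.e (nat_lit 192913) (nat_lit 0) .nil) .nil)))) (.nd (nat_lit 9) 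
(.lf (nat_lit 509328) (.g (nat_lit 3304) (.e (nat_lit 172097) (nat_lit 9) (.e (nat_lit 426125) (nat_lit 2) (.e (nat_lit 196661) (nat_lit 12) (.e (nat_lit 57749) (nat_lit 201) (.e (nat_lit 2940) (nat_lit 184) (.e (nat_lit 426401) (nat_lit 15) (.e (nat_lit 1859) (nat_lit 124) (.e (nat_lit 557098) (nat_lit 13) .nil)))))))) (.g (nat_lit 1) (.e (nat_lit 192230) (nat_lit 0) .nil) .nil))) 
(.lf (nat_lit 509840) (.g (nat_lit 3415) (.e (nat_lit 172113) (nat_lit 10) (.e (nat_lit 434244) (nat_lit 28) (.e (nat_lit 573471) (nat_lit 11) (.e (nat_lit 16470) (nat_lit 14) (.e (nat_lit 491537) (nat_lit 2) .nil))))) (.g (nat_lit 0) (.e (nat_lit 193396) (nat_lit 0) .nil) .nil)))))) (.nd (nat_lit 7) (.nd (nat_lit 8) (.nd (nat_lit 9) 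
(.lf (nat_lit 509008) (.g (nat_lit 413) (.e (nat_lit 172079) (nat_lit 7) (.e (nat_lit 409651) (nat_lit 19) (.e (nat_lit 311345) (nat_lit 14) .nil))) (.g (nat_lit 0) (.e (nat_lit 190856) (nat_lit 0) .nil) .nil))) 
(.lf (nat_lit 509520) (.g (nat_lit 4595) (.e (nat_lit 172106) (nat_lit 10) (.e (nat_lit 434244) (nat_lit 28) (.e (nat_lit 573450) (nat_lit 9) (.e (nat_lit 457) (nat_lit 34) (.e (nat_lit 442374) (nat_lit 0) (.e (nat_lit 1856) (nat_lit 124) (.e (nat_lit 557100) (nat_lit 13) .nil))))))) (.g (nat_lit 1) (.e (nat_lit 192705) (nat_lit 0) .nil) .nil)))) (.nd (nat_lit 9) 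
(.lf (nat_lit 509264) (.g (nat_lit 3334) (.e (nat_lit 172094) (nat_lit 9) (.e (nat_lit 426140) (nat_lit 3) (.e (nat_lit 204845) (nat_lit 24) (.e (nat_lit 319529) (nat_lit 16) (.e (nat_lit 286733) (nat_lit 2) (.e (nat_lit 90169) (nat_lit 13) .nil)))))) (.g (nat_lit 1) (.e (nat_lit 192023) (nat_lit 0) .nil) .nil))) 
(.lf (nat_lit 509776) (.g (nat_lit 2873) (.e (nat_lit 172113) (nat_lit 10) (.e (nat_lit 434231) (nat_lit 23) (.e (nat_lit 532523) (nat_lit 7) (.e (nat_lit 319506) (nat_lit 10) .nil)))) (.g (nat_lit 0) (.e (nat_lit 193315) (nat_lit 0) .nil) .nil))))) (.nd (nat_lit 8) (.nd (nat_lit 9) 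
(.lf (nat_lit 509136) (.g (nat_lit 2329) (.e (nat_lit 172082) (nat_lit 7) (.e (nat_lit 409646) (nat_lit 18) (.e (nat_lit 303143) (nat_lit 12) (.e (nat_lit 475199) (nat_lit 40) (.e (nat_lit 704607) (nat_lit 9) .nil))))) (.g (nat_lit 0) (.e (nat_lit 191560) (nat_lit 0) .nil) .nil))) 
(.lf (nat_lit 509648) (.g (nat_lit 3213) (.e (nat_lit 172107) (nat_lit 10) (.e (nat_lit 434289) (nat_lit 43) (.e (nat_lit 696344) (nat_lit 8) (.e (nat_lit 172115) (nat_lit 10) (.e (nat_lit 434289) (nat_lit 43) (.e (nat_lit 696343) (nat_lit 8) .nil)))))) (.g (nat_lit 1) (.e (nat_lit 193043) (nat_lit 0) .nil) .nil)))) (.nd (nat_lit 9) 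
(.lf (nat_lit 509392) (.g (nat_lit 2396) (.e (nat_lit 172105) (nat_lit 10) (.e (nat_lit 434244) (nat_lit 28) (.e (nat_lit 573471) (nat_lit 11) (.e (nat_lit 16425) (nat_lit 7) .nil)))) (.g (nat_lit 0) (.e (nat_lit 192326) (nat_lit 0) .nil) .nil))) 
(.lf (nat_lit 509904) (.g (nat_lit 2801) (.e (nat_lit 172113) (nat_lit 10) (.e (nat_lit 434247) (nat_lit 28) (.e (nat_lit 573471) (nat_lit 11) (.e (nat_lit 16455) (nat_lit 12) (.e (nat_lit 475185) (nat_lit 29) .nil))))) (.g (nat_lit 0) (.e (nat_lit 193514) (nat_lit 0) .nil) .nil))))))) (.nd (nat_lit 6) (.nd (nat_lit 7) (.nd (nat_lit 8) (.nd (nat_lit 9) 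
(.lf (nat_lit 508976) (.g (nat_lit 1159) (.e (nat_lit 172079) (nat_lit 7) (.e (nat_lit 409645) (nat_lit 18) (.e (nat_lit 303143) (nat_lit 12) (.e (nat_lit 475212) (nat_lit 42) .nil)))) (.g (nat_lit 0) (.e (nat_lit 190746) (nat_lit 0) .nil) .nil))) 
(.lf (nat_lit 509488) (.g (nat_lit 2483) (.e (nat_lit 172106) (nat_lit 10) (.e (nat_lit 434231) (nat_lit 23) (.e (nat_lit 532523) (nat_lit 7) (.e (nat_lit 319531) (nat_lit 16) (.e (nat_lit 286733) (nat_lit 2) (.e (nat_lit 90166) (nat_lit 13) .nil)))))) (.g (nat_lit 1) (.e (nat_lit 192530) (nat_lit 0) .nil) .nil)))) (.nd (nat_lit 9) 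
(.lf (nat_lit 509232) (.g (nat_lit 1213) (.e (nat_lit 172089) (nat_lit 9) (.e (nat_lit 426025) (nat_lit 0) (.e (nat_lit 3399) (nat_lit 211) (.e (nat_lit 647185) (nat_lit 6) (.e (nat_lit 188428) (nat_lit 20) .nil))))) (.g (nat_lit 0) (.e (nat_lit 191957) (nat_lit 0) .nil) .nil))) 
(.lf (nat_lit 509744) (.g (nat_lit 1716) (.e (nat_lit 172113) (nat_lit 10) (.e (nat_lit 434209) (nat_lit 18) (.e (nat_lit 5547) (nat_lit 306) (.e (nat_lit 2650) (nat_lit 166) (.e (nat_lit 188434) (nat_lit 20) .nil))))) (.g (nat_lit 0) (.e (nat_lit 193275) (nat_lit 0) .nil) .nil))))) (.nd (nat_lit 8) (.nd (nat_lit 9) 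
(.lf (nat_lit 509104) (.g (nat_lit 1596) (.e (nat_lit 172082) (nat_lit 7) (.e (nat_lit 409646) (nat_lit 18) (.e (nat_lit 303115) (nat_lit 1) (.e (nat_lit 164179) (nat_lit 154) .nil)))) (.g (nat_lit 0) (.e (nat_lit 191109) (nat_lit 0) .nil) .nil))) 
(.lf (nat_lit 509616) (.g (nat_lit 649) (.e (nat_lit 172107) (nat_lit 10) (.e (nat_lit 434209) (nat_lit 18) (.e (nat_lit 5547) (nat_lit 306) .nil))) (.g (nat_lit 0) (.e (nat_lit 192977) (nat_lit 0) .nil) .nil)))) (.nd (nat_lit 9) 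
(.lf (nat_lit 509360) (.g (nat_lit 1446) (.e (nat_lit 172097) (nat_lit 9) (.e (nat_lit 426140) (nat_lit 3) (.e (nat_lit 204846) (nat_lit 24) (.e (nat_lit 319504) (nat_lit 10) .nil)))) (.g (nat_lit 0) (.e (nat_lit 192270) (nat_lit 0) .nil) .nil))) 
(.lf (nat_lit 509872) (.g (nat_lit 3575) (.e (nat_lit 172113) (nat_lit 10) (.e (nat_lit 434245) (nat_lit 28) (.e (nat_lit 573471) (nat_lit 11) (.e (nat_lit 16433) (nat_lit 9) (.e (nat_lit 426397) (nat_lit 15) .nil))))) (.g (nat_lit 0) (.e (nat_lit 193472) (nat_lit 0) .nil) .nil)))))) (.nd (nat_lit 7) (.nd (nat_lit 8) (.nd (nat_lit 9) 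
(.lf (nat_lit 509040) (.g (nat_lit 351) (.e (nat_lit 172080) (nat_lit 7) (.e (nat_lit 409642) (nat_lit 17) (.e (nat_lit 302848) (nat_lit 29) .nil))) (.g (nat_lit 0) (.e (nat_lit 190921) (nat_lit 0) .nil) .nil))) 
(.lf (nat_lit 509552) (.g (nat_lit 4631) (.e (nat_lit 172106) (nat_lit 10) (.e (nat_lit 434248) (nat_lit 28) (.e (nat_lit 573471) (nat_lit 11) (.e (nat_lit 16433) (nat_lit 9) (.e (nat_lit 426364) (nat_lit 15) .nil))))) (.g (nat_lit 0) (.e (nat_lit 192773) (nat_lit 0) .nil) .nil)))) (.nd (nat_lit 9) 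
(.lf (nat_lit 509296) (.g (nat_lit 833) (.e (nat_lit 172100) (nat_lit 9) (.e (nat_lit 426025) (nat_lit 0) (.e (nat_lit 3399) (nat_lit 211) (.e (nat_lit 647185) (nat_lit 6) .nil)))) (.g (nat_lit 0) (.e (nat_lit 192079) (nat_lit 0) .nil) .nil))) 
(.lf (nat_lit 509808) (.g (nat_lit 1666) (.e (nat_lit 172113) (nat_lit 10) (.e (nat_lit 434242) (nat_lit 28) (.e (nat_lit 573474) (nat_lit 12) (.e (nat_lit 57347) (nat_lit 0) .nil)))) (.g (nat_lit 0) (.e (nat_lit 193359) (nat_lit 0) .nil) .nil))))) (.nd (nat_lit 8) (.nd (nat_lit 9) 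
(.lf (nat_lit 509168) (.g (nat_lit 273) (.e (nat_lit 172082) (nat_lit 7) (.e (nat_lit 409649) (nat_lit 18) (.e (nat_lit 303111) (nat_lit 0) .nil))) (.g (nat_lit 0) (.e (nat_lit 191754) (nat_lit 0) .nil) .nil))) 
(.lf (nat_lit 509680) (.g (nat_lit 2069) (.e (nat_lit 172112) (nat_lit 10) (.e (nat_lit 434208) (nat_lit 18) (.e (nat_lit 6252) (nat_lit 337) (.e (nat_lit 2651) (nat_lit 166) (.e (nat_lit 188439) (nat_lit 20) .nil))))) (.g (nat_lit 0) (.e (nat_lit 193078) (nat_lit 0) .nil) .nil)))) (.nd (nat_lit 9) 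
(.lf (nat_lit 509424) (.g (nat_lit 2070) (.e (nat_lit 172105) (nat_lit 10) (.e (nat_lit 434248) (nat_lit 28) (.e (nat_lit 573503) (nat_lit 18) (.e (nat_lit 1359) (nat_lit 102) .nil)))) (.g (nat_lit 0) (.e (nat_lit 192362) (nat_lit 0) .nil) .nil))) 
(.lf (nat_lit 509936) (.g (nat_lit 2492) (.e (nat_lit 172113) (nat_lit 10) (.e (nat_lit 434248) (nat_lit 28) (.e (nat_lit 573471) (nat_lit 11) (.e (nat_lit 16385) (nat_lit 0) (.e (nat_lit 7490) (nat_lit 402) .nil))))) (.g (nat_lit 0) (.e (nat_lit 193552) (nat_lit 0) .nil) .nil))))))))) (.nd (nat_lit 4) (.nd (nat_lit 5) (.nd (nat_lit 6) (.nd (nat_lit 7) (.nd (nat_lit 8) (.nd (nat_lit 9) 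
(.lf (nat_lit 508936) (.g (nat_lit 439) (.e (nat_lit 172079) (nat_lit 7) (.e (nat_lit 409645) (nat_lit 18) (.e (nat_lit 303124) (nat_lit 7) .nil))) (.g (nat_lit 0) (.e (nat_lit 190409) (nat_lit 0) .nil) .nil))) 
(.lf (nat_lit 509448) (.g (nat_lit 2563) (.e (nat_lit 172106) (nat_lit 10) (.e (nat_lit 434209) (nat_lit 18) (.e (nat_lit 5546) (nat_lit 306) (.e (nat_lit 2650) (nat_lit 166) (.e (nat_lit 188427) (nat_lit 20) (.e (nat_lit 3402) (nat_lit 211) (.e (nat_lit 647183) (nat_lit 4) .nil))))))) (.g (nat_lit 1) (.e (nat_lit 192418) (nat_lit 0) .nil) .nil)))) (.nd (nat_lit 9) 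
(.lf (nat_lit 509192) (.g (nat_lit 1937) (.e (nat_lit 172082) (nat_lit 7) (.e (nat_lit 409651) (nat_lit 19) (.e (nat_lit 311345) (nat_lit 14) (.e (nat_lit 491560) (nat_lit 10) (.e (nat_lit 344157) (nat_lit 36) .nil))))) (.g (nat_lit 0) (.e (nat_lit 191891) (nat_lit 0) .nil) .nil))) 
(.lf (nat_lit 509704) (.g (nat_lit 997) (.e (nat_lit 172112) (nat_lit 10) (.e (nat_lit 434268) (nat_lit 36) (.e (nat_lit 639020) (nat_lit 16) (.e (nat_lit 65616) (nat_lit 10) .nil)))) (.g (nat_lit 0) (.e (nat_lit 193131) (nat_lit 0) .nil) .nil))))) (.nd (nat_lit 8) (.nd (nat_lit 9) 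
(.lf (nat_lit 509064) (.g (nat_lit 1644) (.e (nat_lit 172081) (nat_lit 7) (.e (nat_lit 409648) (nat_lit 18) (.e (nat_lit 303137) (nat_lit 10) (.e (nat_lit 434275) (nat_lit 39) (.e (nat_lit 663584) (nat_lit 12) .nil))))) (.g (nat_lit 0) (.e (nat_lit 190971) (nat_lit 0) .nil) .nil))) 
(.lf (nat_lit 509576) (.g (nat_lit 1642) (.e (nat_lit 172106) (nat_lit 10) (.e (nat_lit 434275) (nat_lit 39) (.e (nat_lit 663583) (nat_lit 11) (.e (nat_lit 24641) (nat_lit 10) (.e (nat_lit 344154) (nat_lit 35) .nil))))) (.g (nat_lit 0) (.e (nat_lit 192815) (nat_lit 0) .nil) .nil)))) (.nd (nat_lit 9) 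
(.lf (nat_lit 509320) (.g (nat_lit 401) (.e (nat_lit 172097) (nat_lit 9) (.e (nat_lit 426109) (nat_lit 1) (.e (nat_lit 164319) (nat_lit 228) .nil))) (.g (nat_lit 0) (.e (nat_lit 192135) (nat_lit 0) .nil) .nil))) 
(.lf (nat_lit 509832) (.g (nat_lit 1795) (.e (nat_lit 172113) (nat_lit 10) (.e (nat_lit 434244) (nat_lit 28) (.e (nat_lit 573450) (nat_lit 9) (.e (nat_lit 442) (nat_lit 33) .nil)))) (.g (nat_lit 0) (.e (nat_lit 193386) (nat_lit 0) .nil) .nil)))))) (.nd (nat_lit 7) (.nd (nat_lit 8) (.nd (nat_lit 9) 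
(.lf (nat_lit 509000) (.g (nat_lit 972) (.e (nat_lit 172079) (nat_lit 7) (.e (nat_lit 409648) (nat_lit 18) (.e (nat_lit 303137) (nat_lit 10) .nil))) (.g (nat_lit 0) (.e (nat_lit 190837) (nat_lit 0) .nil) .nil))) 
(.lf (nat_lit 509512) (.g (nat_lit 3288) (.e (nat_lit 172106) (nat_lit 10) (.e (nat_lit 434237) (nat_lit 25) (.e (nat_lit 548913) (nat_lit 18) (.e (nat_lit 172120) (nat_lit 12) (.e (nat_lit 475185) (nat_lit 29) .nil))))) (.g (nat_lit 0) (.e (nat_lit 192680) (nat_lit 0) .nil) .nil)))) (.nd (nat_lit 9) 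
(.lf (nat_lit 509256) (.g (nat_lit 2200) (.e (nat_lit 172094) (nat_lit 9) (.e (nat_lit 426125) (nat_lit 2) (.e (nat_lit 196661) (nat_lit 12) (.e (nat_lit 57713) (nat_lit 176) .nil)))) (.g (nat_lit 0) (.e (nat_lit 192006) (nat_lit 0) .nil) .nil))) 
(.lf (nat_lit 509768) (.g (nat_lit 3258) (.e (nat_lit 172113) (nat_lit 10) (.e (nat_lit 434231) (nat_lit 23) (.e (nat_lit 532523) (nat_lit 7) (.e (nat_lit 319500) (nat_lit 10) .nil)))) (.g (nat_lit 0) (.e (nat_lit 193307) (nat_lit 0) .nil) .nil))))) (.nd (nat_lit 8) (.nd (nat_lit 9) 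
(.lf (nat_lit 509128) (.g (nat_lit 2198) (.e (nat_lit 172082) (nat_lit 7) (.e (nat_lit 409646) (nat_lit 18) (.e (nat_lit 303140) (nat_lit 10) (.e (nat_lit 434210) (nat_lit 18) .nil)))) (.g (nat_lit 0) (.e (nat_lit 191431) (nat_lit 0) .nil) .nil))) 
(.lf (nat_lit 509640) (.g (nat_lit 3020) (.e (nat_lit 172107) (nat_lit 10) (.e (nat_lit 434289) (nat_lit 43) (.e (nat_lit 696343) (nat_lit 8) (.e (nat_lit 172112) (nat_lit 10) (.e (nat_lit 434289) (nat_lit 43) (.e (nat_lit 696344) (nat_lit 8) .nil)))))) (.g (nat_lit 1) (.e (nat_lit 193030) (nat_lit 0) .nil) .nil)))) (.nd (nat_lit 9) 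
(.lf (nat_lit 509384) (.g (nat_lit 727) (.e (nat_lit 179968) (nat_lit 9) (.e (nat_lit 426124) (nat_lit 2) (.e (nat_lit 196677) (nat_lit 16) .nil))) (.g (nat_lit 0) (.e (nat_lit 192308) (nat_lit 0) .nil) .nil))) 
(.lf (nat_lit 509896) (.g (nat_lit 3299) (.e (nat_lit 172113) (nat_lit 10) (.e (nat_lit 434245) (nat_lit 28) (.e (nat_lit 573474) (nat_lit 12) (.e (nat_lit 57574) (nat_lit 55) (.e (nat_lit 778466) (nat_lit 11) (.e (nat_lit 32512) (nat_lit 2) (.e (nat_lit 90170) (nat_lit 13) .nil))))))) (.g (nat_lit 1) (.e (nat_lit 193500) (nat_lit 0) .nil) .nil))))))) 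
(.nd (nat_lit 6) (.nd (nat_lit 7) (.nd (nat_lit 8) (.nd (nat_lit 9) 
(.lf (nat_lit 508968) (.g (nat_lit 2433) (.e (nat_lit 172079) (nat_lit 7) (.e (nat_lit 409645) (nat_lit 18) (.e (nat_lit 303143) (nat_lit 12) (.e (nat_lit 475199) (nat_lit 40) (.e (nat_lit 704836) (nat_lit 14) .nil))))) (.g (nat_lit 0) (.e (nat_lit 190710) (nat_lit 0) .nil) .nil))) 
(.lf (nat_lit 509480) (.g (nat_lit 3025) (.e (nat_lit 172106) (nat_lit 10) (.e (nat_lit 434231) (nat_lit 23) (.e (nat_lit 532522) (nat_lit 7) (.e (nat_lit 319532) (nat_lit 16) (.e (nat_lit 286732) (nat_lit 2) (.e (nat_lit 90170) (nat_lit 13) .nil)))))) (.g (nat_lit 1) (.e (nat_lit 192520) (nat_lit 0) .nil) .nil)))) (.nd (nat_lit 9) 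
(.lf (nat_lit 509224) (.g (nat_lit 2593) (.e (nat_lit 172088) (nat_lit 9) (.e (nat_lit 426499) (nat_lit 27) (.e (nat_lit 336231) (nat_lit 14) (.e (nat_lit 401446) (nat_lit 10) (.e (nat_lit 434289) (nat_lit 43) .nil))))) (.g (nat_lit 0) (.e (nat_lit 191947) (nat_lit 0) .nil) .nil))) 
(.lf (nat_lit 509736) (.g (nat_lit 2874) (.e (nat_lit 172113) (nat_lit 10) (.e (nat_lit 434208) (nat_lit 18) (.e (nat_lit 6255) (nat_lit 337) (.e (nat_lit 2651) (nat_lit 166) (.e (nat_lit 188434) (nat_lit 20) (.e (nat_lit 3469) (nat_lit 217) (.e (nat_lit 696344) (nat_lit 8) .nil))))))) (.g (nat_lit 1) (.e (nat_lit 193238) (nat_lit 0) .nil) .nil))))) (.nd (nat_lit 8) (.nd (nat_lit 9) 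
(.lf (nat_lit 509096) (.g (nat_lit 707) (.e (nat_lit 172082) (nat_lit 7) (.e (nat_lit 409639) (nat_lit 15) (.e (nat_lit 278566) (nat_lit 16) (.e (nat_lit 286755) (nat_lit 10) (.e (nat_lit 344154) (nat_lit 35) (.e (nat_lit 630802) (nat_lit 8) .nil)))))) (.g (nat_lit 1) (.e (nat_lit 191071) (nat_lit 0) .nil) .nil))) 
(.lf (nat_lit 509608) (.g (nat_lit 1915) (.e (nat_lit 172106) (nat_lit 10) (.e (nat_lit 434289) (nat_lit 43) (.e (nat_lit 696344) (nat_lit 8) (.e (nat_lit 172113) (nat_lit 10) (.e (nat_lit 434287) (nat_lit 43) .nil))))) (.g (nat_lit 0) (.e (nat_lit 192967) (nat_lit 0) .nil) .nil)))) (.nd (nat_lit 9) 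
(.lf (nat_lit 509352) (.g (nat_lit 3261) (.e (nat_lit 172097) (nat_lit 9) (.e (nat_lit 426140) (nat_lit 3) (.e (nat_lit 204845) (nat_lit 24) (.e (nat_lit 319531) (nat_lit 16) (.e (nat_lit 286732) (nat_lit 2) (.e (nat_lit 90170) (nat_lit 13) .nil)))))) (.g (nat_lit 1) (.e (nat_lit 192262) (nat_lit 0) .nil) .nil))) 
(.lf (nat_lit 509864) (.g (nat_lit 5072) (.e (nat_lit 172113) (nat_lit 10) (.e (nat_lit 434245) (nat_lit 28) (.e (nat_lit 573471) (nat_lit 11) (.e (nat_lit 16433) (nat_lit 9) (.e (nat_lit 426354) (nat_lit 15) (.e (nat_lit 1860) (nat_lit 124) (.e (nat_lit 557100) (nat_lit 13) .nil))))))) (.g (nat_lit 1) (.e (nat_lit 193464) (nat_lit 0) .nil) .nil)))))) 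
(.nd (nat_lit 7) (.nd (nat_lit 8) (.nd (nat_lit 9) 
(.lf (nat_lit 509032) (.g (nat_lit 1531) (.e (nat_lit 172080) (nat_lit 7) (.e (nat_lit 409645) (nat_lit 18) (.e (nat_lit 303143) (nat_lit 12) (.e (nat_lit 475212) (nat_lit 42) .nil)))) (.g (nat_lit 0) (.e (nat_lit 190906) (nat_lit 0) .nil) .nil))) 
(.lf (nat_lit 509544) (.g (nat_lit 2168) (.e (nat_lit 172106) (nat_lit 10) (.e (nat_lit 434244) (nat_lit 28) (.e (nat_lit 573474) (nat_lit 12) (.e (nat_lit 57347) (nat_lit 0) (.e (nat_lit 7261) (nat_lit 384) .nil))))) (.g (nat_lit 0) (.e (nat_lit 192763) (nat_lit 0) .nil) .nil)))) (.nd (nat_lit 9) 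
(.lf (nat_lit 509288) (.g (nat_lit 3696) (.e (nat_lit 172095) (nat_lit 9) (.e (nat_lit 426140) (nat_lit 3) (.e (nat_lit 204846) (nat_lit 24) (.e (nat_lit 319534) (nat_lit 16) (.e (nat_lit 286732) (nat_lit 2) (.e (nat_lit 90170) (nat_lit 13) .nil)))))) (.g (nat_lit 1) (.e (nat_lit 192068) (nat_lit 0) .nil) .nil))) 
(.lf (nat_lit 509800) (.g (nat_lit 3466) (.e (nat_lit 172113) (nat_lit 10) (.e (nat_lit 434237) (nat_lit 25) (.e (nat_lit 548913) (nat_lit 18) (.e (nat_lit 172120) (nat_lit 12) (.e (nat_lit 475185) (nat_lit 29) (.e (nat_lit 557100) (nat_lit 13) .nil)))))) (.g (nat_lit 1) (.e (nat_lit 193343) (nat_lit 0) .nil) .nil))))) (.nd (nat_lit 8) (.nd (nat_lit 9) 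
(.lf (nat_lit 509160) (.g (nat_lit 1916) (.e (nat_lit 172082) (nat_lit 7) (.e (nat_lit 409646) (nat_lit 18) (.e (nat_lit 311040) (nat_lit 35) (.e (nat_lit 401454) (nat_lit 12) (.e (nat_lit 475200) (nat_lit 40) (.e (nat_lit 712448) (nat_lit 4) .nil)))))) (.g (nat_lit 1) (.e (nat_lit 191727) (nat_lit 0) .nil) .nil))) 
(.lf (nat_lit 509672) (.g (nat_lit 1406) (.e (nat_lit 172111) (nat_lit 10) (.e (nat_lit 434248) (nat_lit 28) (.e (nat_lit 573475) (nat_lit 12) (.e (nat_lit 57574) (nat_lit 55) .nil)))) (.g (nat_lit 0) (.e (nat_lit 193070) (nat_lit 0) .nil) .nil)))) (.nd (nat_lit 9) 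
(.lf (nat_lit 509416) (.g (nat_lit 3410) (.e (nat_lit 172105) (nat_lit 10) (.e (nat_lit 434248) (nat_lit 28) (.e (nat_lit 573471) (nat_lit 11) (.e (nat_lit 16456) (nat_lit 12) (.e (nat_lit 475183) (nat_lit 29) .nil))))) (.g (nat_lit 0) (.e (nat_lit 192353) (nat_lit 0) .nil) .nil))) 
(.lf (nat_lit 509928) (.g (nat_lit 4697) (.e (nat_lit 172113) (nat_lit 10) (.e (nat_lit 434248) (nat_lit 28) (.e (nat_lit 573469) (nat_lit 11) (.e (nat_lit 16459) (nat_lit 12) (.e (nat_lit 475185) (nat_lit 29) (.e (nat_lit 557100) (nat_lit 13) .nil)))))) (.g (nat_lit 1) (.e (nat_lit 193544) (nat_lit 0) .nil) .nil)))))))) 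
(.nd (nat_lit 5) (.nd (nat_lit 6) (.nd (nat_lit 7) (.nd (nat_lit 8) (.nd (nat_lit 9) 
(.lf (nat_lit 508952) (.g (nat_lit 2839) (.e (nat_lit 172079) (nat_lit 7) (.e (nat_lit 409645) (nat_lit 18) (.e (nat_lit 303137) (nat_lit 10) (.e (nat_lit 434275) (nat_lit 39) (.e (nat_lit 663584) (nat_lit 12) (.e (nat_lit 164018) (nat_lit 45) (.e (nat_lit 696344) (nat_lit 8) .nil))))))) (.g (nat_lit 1) (.e (nat_lit 190571) (nat_lit 0) .nil) .nil))) 
(.lf (nat_lit 509464) (.g (nat_lit 2001) (.e (nat_lit 172106) (nat_lit 10) (.e (nat_lit 434231) (nat_lit 23) (.e (nat_lit 532490) (nat_lit 0) (.e (nat_lit 6114) (nat_lit 332) (.e (nat_lit 975) (nat_lit 81) .nil))))) (.g (nat_lit 0) (.e (nat_lit 192503) (nat_lit 0) .nil) .nil)))) (.nd (nat_lit 9) 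
(.lf (nat_lit 509208) (.g (nat_lit 1946) (.e (nat_lit 172085) (nat_lit 9) (.e (nat_lit 426140) (nat_lit 3) (.e (nat_lit 204846) (nat_lit 24) (.e (nat_lit 327424) (nat_lit 16) .nil)))) (.g (nat_lit 0) (.e (nat_lit 191912) (nat_lit 0) .nil) .nil))) 
(.lf (nat_lit 509720) (.g (nat_lit 3308) (.e (nat_lit 172112) (nat_lit 10) (.e (nat_lit 434289) (nat_lit 43) (.e (nat_lit 696343) (nat_lit 8) (.e (nat_lit 172113) (nat_lit 10) (.e (nat_lit 434289) (nat_lit 43) (.e (nat_lit 696344) (nat_lit 8) .nil)))))) (.g (nat_lit 1) (.e (nat_lit 193180) (nat_lit 0) .nil) .nil))))) (.nd (nat_lit 8) (.nd (nat_lit 9) 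
(.lf (nat_lit 509080) (.g (nat_lit 1555) (.e (nat_lit 172082) (nat_lit 7) (.e (nat_lit 409612) (nat_lit 10) (.e (nat_lit 632) (nat_lit 50) (.e (nat_lit 573491) (nat_lit 15) (.e (nat_lit 81943) (nat_lit 20) .nil))))) (.g (nat_lit 0) (.e (nat_lit 191025) (nat_lit 0) .nil) .nil))) 
(.lf (nat_lit 509592) (.g (nat_lit 1015) (.e (nat_lit 172106) (nat_lit 10) (.e (nat_lit 434288) (nat_lit 43) (.e (nat_lit 696344) (nat_lit 8) (.e (nat_lit 172113) (nat_lit 10) .nil)))) (.g (nat_lit 0) (.e (nat_lit 192928) (nat_lit 0) .nil) .nil)))) (.nd (nat_lit 9) 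
(.lf (nat_lit 509336) (.g (nat_lit 1862) (.e (nat_lit 172097) (nat_lit 9) (.e (nat_lit 426125) (nat_lit 2) (.e (nat_lit 196690) (nat_lit 18) .nil))) (.g (nat_lit 0) (.e (nat_lit 192238) (nat_lit 0) .nil) .nil))) 
(.lf (nat_lit 509848) (.g (nat_lit 2549) (.e (nat_lit 172113) (nat_lit 10) (.e (nat_lit 434245) (nat_lit 28) (.e (nat_lit 573450) (nat_lit 9) (.e (nat_lit 459) (nat_lit 34) (.e (nat_lit 442377) (nat_lit 0) (.e (nat_lit 1856) (nat_lit 124) (.e (nat_lit 557100) (nat_lit 13) .nil))))))) (.g (nat_lit 1) (.e (nat_lit 193412) (nat_lit 0) .nil) .nil)))))) 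
(.nd (nat_lit 7) (.nd (nat_lit 8) (.nd (nat_lit 9) 
(.lf (nat_lit 509016) (.g (nat_lit 1121) (.e (nat_lit 172080) (nat_lit 7) (.e (nat_lit 409638) (nat_lit 15) (.e (nat_lit 278566) (nat_lit 16) (.e (nat_lit 286753) (nat_lit 10) (.e (nat_lit 344154) (nat_lit 35) (.e (nat_lit 630802) (nat_lit 8) .nil)))))) (.g (nat_lit 1) (.e (nat_lit 190876) (nat_lit 0) .nil) .nil))) 
(.lf (nat_lit 509528) (.g (nat_lit 2595) (.e (nat_lit 172106) (nat_lit 10) (.e (nat_lit 434244) (nat_lit 28) (.e (nat_lit 573470) (nat_lit 11) (.e (nat_lit 16470) (nat_lit 14) (.e (nat_lit 491536) (nat_lit 2) .nil))))) (.g (nat_lit 0) (.e (nat_lit 192716) (nat_lit 0) .nil) .nil)))) (.nd (nat_lit 9) 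
(.lf (nat_lit 509272) (.g (nat_lit 2741) (.e (nat_lit 172094) (nat_lit 9) (.e (nat_lit 426140) (nat_lit 3) (.e (nat_lit 204846) (nat_lit 24) (.e (nat_lit 319533) (nat_lit 16) (.e (nat_lit 286733) (nat_lit 2) (.e (nat_lit 90169) (nat_lit 13) .nil)))))) (.g (nat_lit 1) (.e (nat_lit 192034) (nat_lit 0) .nil) .nil))) 
(.lf (nat_lit 509784) (.g (nat_lit 2909) (.e (nat_lit 172113) (nat_lit 10) (.e (nat_lit 434231) (nat_lit 23) (.e (nat_lit 532523) (nat_lit 7) (.e (nat_lit 327424) (nat_lit 16) .nil)))) (.g (nat_lit 0) (.e (nat_lit 193323) (nat_lit 0) .nil) .nil))))) (.nd (nat_lit 8) (.nd (nat_lit 9) 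
(.lf (nat_lit 509144) (.g (nat_lit 2347) (.e (nat_lit 172082) (nat_lit 7) (.e (nat_lit 409646) (nat_lit 18) (.e (nat_lit 303143) (nat_lit 12) (.e (nat_lit 475211) (nat_lit 41) (.e (nat_lit 712706) (nat_lit 0) .nil))))) (.g (nat_lit 0) (.e (nat_lit 191617) (nat_lit 0) .nil) .nil))) 
(.lf (nat_lit 509656) (.g (nat_lit 2301) (.e (nat_lit 172110) (nat_lit 10) (.e (nat_lit 434246) (nat_lit 28) (.e (nat_lit 573474) (nat_lit 12) (.e (nat_lit 57572) (nat_lit 54) (.e (nat_lit 770072) (nat_lit 8) .nil))))) (.g (nat_lit 0) (.e (nat_lit 193052) (nat_lit 0) .nil) .nil)))) (.nd (nat_lit 9) 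
(.lf (nat_lit 509400) (.g (nat_lit 4079) (.e (nat_lit 172105) (nat_lit 10) (.e (nat_lit 434247) (nat_lit 28) (.e (nat_lit 573477) (nat_lit 12) (.e (nat_lit 57574) (nat_lit 55) (.e (nat_lit 778466) (nat_lit 11) (.e (nat_lit 24604) (nat_lit 2) (.e (nat_lit 90167) (nat_lit 13) .nil))))))) (.g (nat_lit 1) (.e (nat_lit 192337) (nat_lit 0) .nil) .nil))) 
(.lf (nat_lit 509912) (.g (nat_lit 3811) (.e (nat_lit 172113) (nat_lit 10) (.e (nat_lit 434247) (nat_lit 28) (.e (nat_lit 573477) (nat_lit 12) (.e (nat_lit 57575) (nat_lit 55) (.e (nat_lit 778466) (nat_lit 11) (.e (nat_lit 24601) (nat_lit 2) (.e (nat_lit 90170) (nat_lit 13) .nil))))))) (.g (nat_lit 1) (.e (nat_lit 193522) (nat_lit 0) .nil) .nil))))))) 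
(.nd (nat_lit 6) (.nd (nat_lit 7) (.nd (nat_lit 8) (.nd (nat_lit 9) 
(.lf (nat_lit 508984) (.g (nat_lit 487) (.e (nat_lit 172079) (nat_lit 7) (.e (nat_lit 409645) (nat_lit 18) (.e (nat_lit 303146) (nat_lit 14) .nil))) (.g (nat_lit 0) (.e (nat_lit 190769) (nat_lit 0) .nil) .nil))) 
(.lf (nat_lit 509496) (.g (nat_lit 3439) (.e (nat_lit 172106) (nat_lit 10) (.e (nat_lit 434231) (nat_lit 23) (.e (nat_lit 532535) (nat_lit 9) (.e (nat_lit 336295) (nat_lit 15) (.e (nat_lit 3630) (nat_lit 227) (.e (nat_lit 778317) (nat_lit 3) (.e (nat_lit 57477) (nat_lit 28) (.e (nat_lit 557099) (nat_lit 13) .nil)))))))) (.g (nat_lit 1) (.e (nat_lit 192542) (nat_lit 0) .nil) .nil)))) 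
(.nd (nat_lit 9) 
(.lf (nat_lit 509240) (.g (nat_lit 2657) (.e (nat_lit 172092) (nat_lit 9) (.e (nat_lit 426140) (nat_lit 3) (.e (nat_lit 204846) (nat_lit 24) (.e (nat_lit 319533) (nat_lit 16) (.e (nat_lit 286732) (nat_lit 2) .nil))))) (.g (nat_lit 0) (.e (nat_lit 191966) (nat_lit 0) .nil) .nil))) 
(.lf (nat_lit 509752) (.g (nat_lit 2336) (.e (nat_lit 172113) (nat_lit 10) (.e (nat_lit 434231) (nat_lit 23) (.e (nat_lit 532481) (nat_lit 0) (.e (nat_lit 6157) (nat_lit 332) (.e (nat_lit 1009) (nat_lit 81) .nil))))) (.g (nat_lit 0) (.e (nat_lit 193290) (nat_lit 0) .nil) .nil))))) (.nd (nat_lit 8) (.nd (nat_lit 9) 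
(.lf (nat_lit 509112) (.g (nat_lit 3421) (.e (nat_lit 172082) (nat_lit 7) (.e (nat_lit 409646) (nat_lit 18) (.e (nat_lit 303135) (nat_lit 10) (.e (nat_lit 434275) (nat_lit 39) (.e (nat_lit 663574) (nat_lit 9) (.e (nat_lit 2467) (nat_lit 157) (.e (nat_lit 3469) (nat_lit 217) (.e (nat_lit 696344) (nat_lit 8) .nil)))))))) (.g (nat_lit 1) (.e (nat_lit 191397) (nat_lit 0) .nil) .nil))) 
(.lf (nat_lit 509624) (.g (nat_lit 1835) (.e (nat_lit 172107) (nat_lit 10) (.e (nat_lit 434248) (nat_lit 28) (.e (nat_lit 573503) (nat_lit 18) (.e (nat_lit 1359) (nat_lit 102) .nil)))) (.g (nat_lit 0) (.e (nat_lit 192998) (nat_lit 0) .nil) .nil)))) (.nd (nat_lit 9) 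
(.lf (nat_lit 509368) (.g (nat_lit 1577) (.e (nat_lit 172097) (nat_lit 9) (.e (nat_lit 426140) (nat_lit 3) (.e (nat_lit 204880) (nat_lit 32) (.e (nat_lit 385096) (nat_lit 49) .nil)))) (.g (nat_lit 0) (.e (nat_lit 192279) (nat_lit 0) .nil) .nil))) 
(.lf (nat_lit 509880) (.g (nat_lit 2228) (.e (nat_lit 172113) (nat_lit 10) (.e (nat_lit 434245) (nat_lit 28) (.e (nat_lit 573471) (nat_lit 11) (.e (nat_lit 16437) (nat_lit 9) .nil)))) (.g (nat_lit 0) (.e (nat_lit 193480) (nat_lit 0) .nil) .nil)))))) (.nd (nat_lit 7) (.nd (nat_lit 8) (.nd (nat_lit 9) 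
(.lf (nat_lit 509048) (.g (nat_lit 836) (.e (nat_lit 172081) (nat_lit 7) (.e (nat_lit 409638) (nat_lit 15) (.e (nat_lit 278566) (nat_lit 16) (.e (nat_lit 286754) (nat_lit 10) (.e (nat_lit 344153) (nat_lit 35) (.e (nat_lit 630801) (nat_lit 8) .nil)))))) (.g (nat_lit 1) (.e (nat_lit 190948) (nat_lit 0) .nil) .nil))) 
(.lf (nat_lit 509560) (.g (nat_lit 1956) (.e (nat_lit 172106) (nat_lit 10) (.e (nat_lit 434266) (nat_lit 35) (.e (nat_lit 630821) (nat_lit 16) (.e (nat_lit 65616) (nat_lit 10) (.e (nat_lit 344156) (nat_lit 36) (.e (nat_lit 638998) (nat_lit 8) .nil)))))) (.g (nat_lit 1) (.e (nat_lit 192785) (nat_lit 0) .nil) .nil)))) (.nd (nat_lit 9) 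
(.lf (nat_lit 509304) (.g (nat_lit 2457) (.e (nat_lit 172096) (nat_lit 9) (.e (nat_lit 426140) (nat_lit 3) (.e (nat_lit 204845) (nat_lit 24) (.e (nat_lit 319530) (nat_lit 16) (.e (nat_lit 286733) (nat_lit 2) .nil))))) (.g (nat_lit 0) (.e (nat_lit 192093) (nat_lit 0) .nil) .nil))) 
(.lf (nat_lit 509816) (.g (nat_lit 2341) (.e (nat_lit 172113) (nat_lit 10) (.e (nat_lit 434242) (nat_lit 28) (.e (nat_lit 573474) (nat_lit 12) (.e (nat_lit 57568) (nat_lit 53) (.e (nat_lit 761867) (nat_lit 5) .nil))))) (.g (nat_lit 0) (.e (nat_lit 193369) (nat_lit 0) .nil) .nil))))) (.nd (nat_lit 8) (.nd (nat_lit 9) 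
(.lf (nat_lit 509176) (.g (nat_lit 2670) (.e (nat_lit 172082) (nat_lit 7) (.e (nat_lit 409649) (nat_lit 18) (.e (nat_lit 303140) (nat_lit 10) (.e (nat_lit 434275) (nat_lit 39) (.e (nat_lit 663574) (nat_lit 9) (.e (nat_lit 2464) (nat_lit 157) (.e (nat_lit 3467) (nat_lit 217) (.e (nat_lit 696344) (nat_lit 8) .nil)))))))) (.g (nat_lit 1) (.e (nat_lit 191792) (nat_lit 0) .nil) .nil))) 
(.lf (nat_lit 509688) (.g (nat_lit 2142) (.e (nat_lit 172112) (nat_lit 10) (.e (nat_lit 434248) (nat_lit 28) (.e (nat_lit 573470) (nat_lit 11) (.e (nat_lit 16435) (nat_lit 9) (.e (nat_lit 426402) (nat_lit 15) .nil))))) (.g (nat_lit 0) (.e (nat_lit 193111) (nat_lit 0) .nil) .nil)))) (.nd (nat_lit 9) 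
(.lf (nat_lit 509432) (.g (nat_lit 1668) (.e (nat_lit 172105) (nat_lit 10) (.e (nat_lit 434272) (nat_lit 38) (.e (nat_lit 655364) (nat_lit 0) (.e (nat_lit 3027) (nat_lit 187) (.e (nat_lit 458496) (nat_lit 15) .nil))))) (.g (nat_lit 0) (.e (nat_lit 192372) (nat_lit 0) .nil) .nil))) 
(.lf (nat_lit 509944) (.g (nat_lit 3740) (.e (nat_lit 172113) (nat_lit 10) (.e (nat_lit 434248) (nat_lit 28) (.e (nat_lit 573471) (nat_lit 11) (.e (nat_lit 16433) (nat_lit 9) (.e (nat_lit 426374) (nat_lit 15) .nil))))) (.g (nat_lit 0) (.e (nat_lit 193561) (nat_lit 0) .nil) .nil)))))))))) 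
(.nd (nat_lit 3) (.nd (nat_lit 4) (.nd (nat_lit 5) (.nd (nat_lit 6) (.nd (nat_lit 7) 
(.nd (nat_lit 8) (.nd (nat_lit 9) 
(.lf (nat_lit 508932) (.g (nat_lit 1319) (.e (nat_lit 172079) (nat_lit 7) (.e (nat_lit 409645) (nat_lit 18) (.e (nat_lit 303112) (nat_lit 0) (.e (nat_lit 7556) (nat_lit 402) .nil)))) (.g (nat_lit 0) (.e (nat_lit 190380) (nat_lit 0) .nil) .nil))) 
(.lf (nat_lit 509444) (.g (nat_lit 1319) (.e (nat_lit 172106) (nat_lit 10) (.e (nat_lit 434202) (nat_lit 18) (.e (nat_lit 6416) (nat_lit 341) (.e (nat_lit 163905) (nat_lit 12) (.e (nat_lit 426294) (nat_lit 11) .nil))))) (.g (nat_lit 0) (.e (nat_lit 192394) (nat_lit 0) .nil) .nil)))) (.nd (nat_lit 9) 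
(.lf (nat_lit 509188) (.g (nat_lit 2893) (.e (nat_lit 172082) (nat_lit 7) (.e (nat_lit 409649) (nat_lit 18) (.e (nat_lit 303146) (nat_lit 14) (.e (nat_lit 491560) (nat_lit 10) (.e (nat_lit 344156) (nat_lit 36) (.e (nat_lit 638999) (nat_lit 8) .nil)))))) (.g (nat_lit 1) (.e (nat_lit 191829) (nat_lit 0) .nil) .nil))) 
(.lf (nat_lit 509700) (.g (nat_lit 1695) (.e (nat_lit 172112) (nat_lit 10) (.e (nat_lit 434266) (nat_lit 35) (.e (nat_lit 630821) (nat_lit 16) (.e (nat_lit 65616) (nat_lit 10) (.e (nat_lit 344156) (nat_lit 36) (.e (nat_lit 638998) (nat_lit 8) .nil)))))) (.g (nat_lit 1) (.e (nat_lit 193127) (nat_lit 0) .nil) .nil))))) (.nd (nat_lit 8) (.nd (nat_lit 9) 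
(.lf (nat_lit 509060) (.g (nat_lit 1894) (.e (nat_lit 172081) (nat_lit 7) (.e (nat_lit 409648) (nat_lit 18) (.e (nat_lit 303137) (nat_lit 10) (.e (nat_lit 434275) (nat_lit 39) (.e (nat_lit 663574) (nat_lit 9) .nil))))) (.g (nat_lit 0) (.e (nat_lit 190966) (nat_lit 0) .nil) .nil))) 
(.lf (nat_lit 509572) (.g (nat_lit 1222) (.e (nat_lit 172106) (nat_lit 10) (.e (nat_lit 434275) (nat_lit 39) (.e (nat_lit 663574) (nat_lit 9) (.e (nat_lit 7936) (nat_lit 26) .nil)))) (.g (nat_lit 0) (.e (nat_lit 192807) (nat_lit 0) .nil) .nil)))) (.nd (nat_lit 9) 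
(.lf (nat_lit 509316) (.g (nat_lit 386) (.e (nat_lit 172097) (nat_lit 9) (.e (nat_lit 426025) (nat_lit 0) (.e (nat_lit 3397) (nat_lit 211) .nil))) (.g (nat_lit 0) (.e (nat_lit 192111) (nat_lit 0) .nil) .nil))) 
(.lf (nat_lit 509828) (.g (nat_lit 3075) (.e (nat_lit 172113) (nat_lit 10) (.e (nat_lit 434242) (nat_lit 28) (.e (nat_lit 573474) (nat_lit 12) (.e (nat_lit 57574) (nat_lit 55) (.e (nat_lit 778466) (nat_lit 11) .nil))))) (.g (nat_lit 0) (.e (nat_lit 193381) (nat_lit 0) .nil) .nil)))))) (.nd (nat_lit 7) (.nd (nat_lit 8) (.nd (nat_lit 9) 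
(.lf (nat_lit 508996) (.g (nat_lit 1826) (.e (nat_lit 172079) (nat_lit 7) (.e (nat_lit 409645) (nat_lit 18) (.e (nat_lit 311040) (nat_lit 35) (.e (nat_lit 401454) (nat_lit 12) (.e (nat_lit 475206) (nat_lit 40) .nil))))) (.g (nat_lit 0) (.e (nat_lit 190825) (nat_lit 0) .nil) .nil))) 
(.lf (nat_lit 509508) (.g (nat_lit 3058) (.e (nat_lit 172106) (nat_lit 10) (.e (nat_lit 434231) (nat_lit 23) (.e (nat_lit 532569) (nat_lit 16) (.e (nat_lit 401444) (nat_lit 9) (.e (nat_lit 426388) (nat_lit 15) .nil))))) (.g (nat_lit 0) (.e (nat_lit 192604) (nat_lit 0) .nil) .nil)))) (.nd (nat_lit 9) 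
(.lf (nat_lit 509252) (.g (nat_lit 806) (.e (nat_lit 172094) (nat_lit 9) (.e (nat_lit 426125) (nat_lit 2) (.e (nat_lit 196616) (nat_lit 0) .nil))) (.g (nat_lit 0) (.e (nat_lit 191992) (nat_lit 0) .nil) .nil))) 
(.lf (nat_lit 509764) (.g (nat_lit 3443) (.e (nat_lit 172113) (nat_lit 10) (.e (nat_lit 434231) (nat_lit 23) (.e (nat_lit 532523) (nat_lit 7) (.e (nat_lit 319497) (nat_lit 10) .nil)))) (.g (nat_lit 0) (.e (nat_lit 193303) (nat_lit 0) .nil) .nil))))) (.nd (nat_lit 8) (.nd (nat_lit 9) 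
(.lf (nat_lit 509124) (.g (nat_lit 2208) (.e (nat_lit 172082) (nat_lit 7) (.e (nat_lit 409646) (nat_lit 18) (.e (nat_lit 303140) (nat_lit 10) (.e (nat_lit 434200) (nat_lit 18) .nil)))) (.g (nat_lit 0) (.e (nat_lit 191423) (nat_lit 0) .nil) .nil))) 
(.lf (nat_lit 509636) (.g (nat_lit 1335) (.e (nat_lit 172107) (nat_lit 10) (.e (nat_lit 434272) (nat_lit 38) (.e (nat_lit 655364) (nat_lit 0) (.e (nat_lit 3021) (nat_lit 187) (.e (nat_lit 458496) (nat_lit 15) .nil))))) (.g (nat_lit 0) (.e (nat_lit 193016) (nat_lit 0) .nil) .nil)))) (.nd (nat_lit 9) 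
(.lf (nat_lit 509380) (.g (nat_lit 3957) (.e (nat_lit 172103) (nat_lit 9) (.e (nat_lit 426139) (nat_lit 3) (.e (nat_lit 204846) (nat_lit 24) (.e (nat_lit 319530) (nat_lit 16) (.e (nat_lit 286733) (nat_lit 2) (.e (nat_lit 90169) (nat_lit 13) .nil)))))) (.g (nat_lit 1) (.e (nat_lit 192304) (nat_lit 0) .nil) .nil))) 
(.lf (nat_lit 509892) (.g (nat_lit 4808) (.e (nat_lit 172113) (nat_lit 10) (.e (nat_lit 434245) (nat_lit 28) (.e (nat_lit 573471) (nat_lit 11) (.e (nat_lit 16472) (nat_lit 14) (.e (nat_lit 491537) (nat_lit 2) (.e (nat_lit 90170) (nat_lit 13) .nil)))))) (.g (nat_lit 1) (.e (nat_lit 193495) (nat_lit 0) .nil) .nil))))))) (.nd (nat_lit 6) (.nd (nat_lit 7) (.nd (nat_lit 8) (.nd (nat_lit 9) 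
(.lf (nat_lit 508964) (.g (nat_lit 1402) (.e (nat_lit 172079) (nat_lit 7) (.e (nat_lit 409645) (nat_lit 18) (.e (nat_lit 303143) (nat_lit 12) (.e (nat_lit 475199) (nat_lit 40) .nil)))) (.g (nat_lit 0) (.e (nat_lit 190628) (nat_lit 0) .nil) .nil))) 
(.lf (nat_lit 509476) (.g (nat_lit 4074) (.e (nat_lit 172106) (nat_lit 10) (.e (nat_lit 434231) (nat_lit 23) (.e (nat_lit 532522) (nat_lit 7) (.e (nat_lit 319530) (nat_lit 16) (.e (nat_lit 286733) (nat_lit 2) (.e (nat_lit 90166) (nat_lit 13) .nil)))))) (.g (nat_lit 1) (.e (nat_lit 192515) (nat_lit 0) .nil) .nil)))) (.nd (nat_lit 9) 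
(.lf (nat_lit 509220) (.g (nat_lit 963) (.e (nat_lit 172087) (nat_lit 9) (.e (nat_lit 426568) (nat_lit 34) (.e (nat_lit 393252) (nat_lit 18) (.e (nat_lit 164403) (nat_lit 256) .nil)))) (.g (nat_lit 0) (.e (nat_lit 191941) (nat_lit 0) .nil) .nil))) 
(.lf (nat_lit 509732) (.g (nat_lit 2387) (.e (nat_lit 172113) (nat_lit 10) (.e (nat_lit 434207) (nat_lit 18) (.e (nat_lit 6416) (nat_lit 341) (.e (nat_lit 163903) (nat_lit 12) (.e (nat_lit 426294) (nat_lit 11) (.e (nat_lit 458810) (nat_lit 43) (.e (nat_lit 696343) (nat_lit 8) .nil))))))) (.g (nat_lit 1) (.e (nat_lit 193217) (nat_lit 0) .nil) .nil))))) (.nd (nat_lit 8) (.nd (nat_lit 9) 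
(.lf (nat_lit 509092) (.g (nat_lit 1365) (.e (nat_lit 172082) (nat_lit 7) (.e (nat_lit 409638) (nat_lit 15) (.e (nat_lit 278566) (nat_lit 16) (.e (nat_lit 286754) (nat_lit 10) (.e (nat_lit 344154) (nat_lit 35) (.e (nat_lit 630802) (nat_lit 8) .nil)))))) (.g (nat_lit 1) (.e (nat_lit 191067) (nat_lit 0) .nil) .nil))) 
(.lf (nat_lit 509604) (.g (nat_lit 3776) (.e (nat_lit 172106) (nat_lit 10) (.e (nat_lit 434289) (nat_lit 43) (.e (nat_lit 696344) (nat_lit 8) (.e (nat_lit 172106) (nat_lit 10) (.e (nat_lit 434289) (nat_lit 43) (.e (nat_lit 696343) (nat_lit 8) .nil)))))) (.g (nat_lit 1) (.e (nat_lit 192962) (nat_lit 0) .nil) .nil)))) (.nd (nat_lit 9) 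
(.lf (nat_lit 509348) (.g (nat_lit 3827) (.e (nat_lit 172097) (nat_lit 9) (.e (nat_lit 426140) (nat_lit 3) (.e (nat_lit 204845) (nat_lit 24) (.e (nat_lit 319530) (nat_lit 16) (.e (nat_lit 286733) (nat_lit 2) (.e (nat_lit 90168) (nat_lit 13) .nil)))))) (.g (nat_lit 1) (.e (nat_lit 192258) (nat_lit 0) .nil) .nil))) 
(.lf (nat_lit 509860) (.g (nat_lit 2227) (.e (nat_lit 172113) (nat_lit 10) (.e (nat_lit 434245) (nat_lit 28) (.e (nat_lit 573471) (nat_lit 11) (.e (nat_lit 16400) (nat_lit 0) .nil)))) (.g (nat_lit 0) (.e (nat_lit 193449) (nat_lit 0) .nil) .nil)))))) (.nd (nat_lit 7) (.nd (nat_lit 8) (.nd (nat_lit 9) 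
(.lf (nat_lit 509028) (.g (nat_lit 1092) (.e (nat_lit 172080) (nat_lit 7) (.e (nat_lit 409639) (nat_lit 15) (.e (nat_lit 278566) (nat_lit 16) (.e (nat_lit 286753) (nat_lit 10) (.e (nat_lit 344157) (nat_lit 36) (.e (nat_lit 638999) (nat_lit 8) .nil)))))) (.g (nat_lit 1) (.e (nat_lit 190888) (nat_lit 0) .nil) .nil))) 
(.lf (nat_lit 509540) (.g (nat_lit 2542) (.e (nat_lit 172106) (nat_lit 10) (.e (nat_lit 434244) (nat_lit 28) (.e (nat_lit 573471) (nat_lit 11) (.e (nat_lit 16471) (nat_lit 14) (.e (nat_lit 499456) (nat_lit 2) .nil))))) (.g (nat_lit 0) (.e (nat_lit 192758) (nat_lit 0) .nil) .nil)))) (.nd (nat_lit 9) 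
(.lf (nat_lit 509284) (.g (nat_lit 4709) (.e (nat_lit 172095) (nat_lit 9) (.e (nat_lit 426140) (nat_lit 3) (.e (nat_lit 204845) (nat_lit 24) (.e (nat_lit 319531) (nat_lit 16) (.e (nat_lit 286733) (nat_lit 2) (.e (nat_lit 90170) (nat_lit 13) .nil)))))) (.g (nat_lit 1) (.e (nat_lit 192064) (nat_lit 0) .nil) .nil))) 
(.lf (nat_lit 509796) (.g (nat_lit 3401) (.e (nat_lit 172113) (nat_lit 10) (.e (nat_lit 434231) (nat_lit 23) (.e (nat_lit 532569) (nat_lit 16) (.e (nat_lit 401451) (nat_lit 12) (.e (nat_lit 475185) (nat_lit 29) (.e (nat_lit 557100) (nat_lit 13) .nil)))))) (.g (nat_lit 1) (.e (nat_lit 193339) (nat_lit 0) .nil) .nil))))) (.nd (nat_lit 8) (.nd (nat_lit 9) 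
(.lf (nat_lit 509156) (.g (nat_lit 2755) (.e (nat_lit 172082) (nat_lit 7) (.e (nat_lit 409646) (nat_lit 18) (.e (nat_lit 311040) (nat_lit 35) (.e (nat_lit 401454) (nat_lit 12) (.e (nat_lit 475195) (nat_lit 40) (.e (nat_lit 712448) (nat_lit 4) .nil)))))) (.g (nat_lit 1) (.e (nat_lit 191723) (nat_lit 0) .nil) .nil))) 
(.lf (nat_lit 509668) (.g (nat_lit 1019) (.e (nat_lit 172111) (nat_lit 10) (.e (nat_lit 434247) (nat_lit 28) (.e (nat_lit 573477) (nat_lit 12) (.e (nat_lit 57575) (nat_lit 55) .nil)))) (.g (nat_lit 0) (.e (nat_lit 193066) (nat_lit 0) .nil) .nil)))) (.nd (nat_lit 9) 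
(.lf (nat_lit 509412) (.g (nat_lit 2255) (.e (nat_lit 172105) (nat_lit 10) (.e (nat_lit 434248) (nat_lit 28) (.e (nat_lit 573470) (nat_lit 11) (.e (nat_lit 16438) (nat_lit 9) (.e (nat_lit 426402) (nat_lit 15) .nil))))) (.g (nat_lit 0) (.e (nat_lit 192349) (nat_lit 0) .nil) .nil))) 
(.lf (nat_lit 509924) (.g (nat_lit 2590) (.e (nat_lit 172113) (nat_lit 10) (.e (nat_lit 434248) (nat_lit 28) (.e (nat_lit 573452) (nat_lit 9) (.e (nat_lit 359) (nat_lit 30) (.e (nat_lit 409601) (nat_lit 0) .nil))))) (.g (nat_lit 0) (.e (nat_lit 193536) (nat_lit 0) .nil) .nil)))))))) (.nd (nat_lit 5) (.nd (nat_lit 6) (.nd (nat_lit 7) (.nd (nat_lit 8) (.nd (nat_lit 9) 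
(.lf (nat_lit 508948) (.g (nat_lit 837) (.e (nat_lit 172079) (nat_lit 7) (.e (nat_lit 409645) (nat_lit 18) (.e (nat_lit 303136) (nat_lit 10) .nil))) (.g (nat_lit 0) (.e (nat_lit 190566) (nat_lit 0) .nil) .nil))) 
(.lf (nat_lit 509460) (.g (nat_lit 322) (.e (nat_lit 172106) (nat_lit 10) (.e (nat_lit 434231) (nat_lit 23) (.e (nat_lit 532482) (nat_lit 0) .nil))) (.g (nat_lit 0) (.e (nat_lit 192498) (nat_lit 0) .nil) .nil)))) (.nd (nat_lit 9) 
(.lf (nat_lit 509204) (.g (nat_lit 2827) (.e (nat_lit 172085) (nat_lit 9) (.e (nat_lit 426140) (nat_lit 3) (.e (nat_lit 204846) (nat_lit 24) (.e (nat_lit 319532) (nat_lit 16) (.e (nat_lit 286733) (nat_lit 2) .nil))))) (.g (nat_lit 0) (.e (nat_lit 191908) (nat_lit 0) .nil) .nil))) 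
(.lf (nat_lit 509716) (.g (nat_lit 2018) (.e (nat_lit 172112) (nat_lit 10) (.e (nat_lit 434272) (nat_lit 38) (.e (nat_lit 655378) (nat_lit 4) (.e (nat_lit 172097) (nat_lit 9) (.e (nat_lit 426025) (nat_lit 0) .nil))))) (.g (nat_lit 0) (.e (nat_lit 193166) (nat_lit 0) .nil) .nil))))) (.nd (nat_lit 8) (.nd (nat_lit 9) 
(.lf (nat_lit 509076) (.g (nat_lit 1727) (.e (nat_lit 172081) (nat_lit 7) (.e (nat_lit 409642) (nat_lit 17) (.e (nat_lit 294974) (nat_lit 29) (.e (nat_lit 442402) (nat_lit 20) (.e (nat_lit 3409) (nat_lit 212) (.e (nat_lit 655378) (nat_lit 4) .nil)))))) (.g (nat_lit 1) (.e (nat_lit 191017) (nat_lit 0) .nil) .nil))) 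
(.lf (nat_lit 509588) (.g (nat_lit 778) (.e (nat_lit 172106) (nat_lit 10) (.e (nat_lit 434288) (nat_lit 43) (.e (nat_lit 696343) (nat_lit 8) (.e (nat_lit 172113) (nat_lit 10) .nil)))) (.g (nat_lit 0) (.e (nat_lit 192921) (nat_lit 0) .nil) .nil)))) (.nd (nat_lit 9) 
(.lf (nat_lit 509332) (.g (nat_lit 3999) (.e (nat_lit 172097) (nat_lit 9) (.e (nat_lit 426125) (nat_lit 2) (.e (nat_lit 196666) (nat_lit 13) (.e (nat_lit 65639) (nat_lit 15) (.e (nat_lit 3715) (nat_lit 227) (.e (nat_lit 778316) (nat_lit 3) (.e (nat_lit 57480) (nat_lit 28) (.e (nat_lit 557098) (nat_lit 13) .nil)))))))) (.g (nat_lit 1) (.e (nat_lit 192234) (nat_lit 0) .nil) .nil))) 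
(.lf (nat_lit 509844) (.g (nat_lit 3774) (.e (nat_lit 172113) (nat_lit 10) (.e (nat_lit 434245) (nat_lit 28) (.e (nat_lit 573450) (nat_lit 9) (.e (nat_lit 442) (nat_lit 33) (.e (nat_lit 434180) (nat_lit 0) (.e (nat_lit 1235) (nat_lit 91) (.e (nat_lit 90170) (nat_lit 13) .nil))))))) (.g (nat_lit 1) (.e (nat_lit 193401) (nat_lit 0) .nil) .nil)))))) (.nd (nat_lit 7) (.nd (nat_lit 8) (.nd (nat_lit 9) 
(.lf (nat_lit 509012) (.g (nat_lit 1997) (.e (nat_lit 172079) (nat_lit 7) (.e (nat_lit 409642) (nat_lit 17) (.e (nat_lit 294974) (nat_lit 29) (.e (nat_lit 442402) (nat_lit 20) (.e (nat_lit 3409) (nat_lit 212) (.e (nat_lit 655378) (nat_lit 4) .nil)))))) (.g (nat_lit 1) (.e (nat_lit 190864) (nat_lit 0) .nil) .nil))) 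
(.lf (nat_lit 509524) (.g (nat_lit 923) (.e (nat_lit 172106) (nat_lit 10) (.e (nat_lit 434244) (nat_lit 28) (.e (nat_lit 573457) (nat_lit 9) .nil))) (.g (nat_lit 0) (.e (nat_lit 192711) (nat_lit 0) .nil) .nil)))) (.nd (nat_lit 9) 
(.lf (nat_lit 509268) (.g (nat_lit 3591) (.e (nat_lit 172094) (nat_lit 9) (.e (nat_lit 426140) (nat_lit 3) (.e (nat_lit 204846) (nat_lit 24) (.e (nat_lit 319530) (nat_lit 16) (.e (nat_lit 286733) (nat_lit 2) (.e (nat_lit 90169) (nat_lit 13) .nil)))))) (.g (nat_lit 1) (.e (nat_lit 192029) (nat_lit 0) .nil) .nil))) 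
(.lf (nat_lit 509780) (.g (nat_lit 3346) (.e (nat_lit 172113) (nat_lit 10) (.e (nat_lit 434231) (nat_lit 23) (.e (nat_lit 532523) (nat_lit 7) (.e (nat_lit 319512) (nat_lit 10) .nil)))) (.g (nat_lit 0) (.e (nat_lit 193319) (nat_lit 0) .nil) .nil))))) (.nd (nat_lit 8) (.nd (nat_lit 9) 
(.lf (nat_lit 509140) (.g (nat_lit 2424) (.e (nat_lit 172082) (nat_lit 7) (.e (nat_lit 409646) (nat_lit 18) (.e (nat_lit 303143) (nat_lit 12) (.e (nat_lit 475199) (nat_lit 40) (.e (nat_lit 704703) (nat_lit 9) .nil))))) (.g (nat_lit 0) (.e (nat_lit 191571) (nat_lit 0) .nil) .nil))) 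
(.lf (nat_lit 509652) (.g (nat_lit 1442) (.e (nat_lit 172109) (nat_lit 10) (.e (nat_lit 434248) (nat_lit 28) (.e (nat_lit 573452) (nat_lit 9) (.e (nat_lit 430) (nat_lit 32) .nil)))) (.g (nat_lit 0) (.e (nat_lit 193048) (nat_lit 0) .nil) .nil)))) (.nd (nat_lit 9) 
(.lf (nat_lit 509396) (.g (nat_lit 2646) (.e (nat_lit 172105) (nat_lit 10) (.e (nat_lit 434247) (nat_lit 28) (.e (nat_lit 573475) (nat_lit 12) (.e (nat_lit 57574) (nat_lit 55) (.e (nat_lit 778466) (nat_lit 11) .nil))))) (.g (nat_lit 0) (.e (nat_lit 192333) (nat_lit 0) .nil) .nil))) 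
(.lf (nat_lit 509908) (.g (nat_lit 3061) (.e (nat_lit 172113) (nat_lit 10) (.e (nat_lit 434247) (nat_lit 28) (.e (nat_lit 573477) (nat_lit 12) (.e (nat_lit 57574) (nat_lit 55) (.e (nat_lit 778466) (nat_lit 11) (.e (nat_lit 24603) (nat_lit 2) (.e (nat_lit 90166) (nat_lit 13) .nil))))))) (.g (nat_lit 1) (.e (nat_lit 193518) (nat_lit 0) .nil) .nil))))))) 
(.nd (nat_lit 6) (.nd (nat_lit 7) (.nd (nat_lit 8) (.nd (nat_lit 9) 
(.lf (nat_lit 508980) (.g (nat_lit 2776) (.e (nat_lit 172079) (nat_lit 7) (.e (nat_lit 409645) (nat_lit 18) (.e (nat_lit 303143) (nat_lit 12) (.e (nat_lit 475212) (nat_lit 42) (.e (nat_lit 720921) (nat_lit 20) .nil))))) (.g (nat_lit 0) (.e (nat_lit 190756) (nat_lit 0) .nil) .nil))) 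
(.lf (nat_lit 509492) (.g (nat_lit 3192) (.e (nat_lit 172106) (nat_lit 10) (.e (nat_lit 434231) (nat_lit 23) (.e (nat_lit 532525) (nat_lit 8) (.e (nat_lit 327716) (nat_lit 16) (.e (nat_lit 286732) (nat_lit 2) (.e (nat_lit 90170) (nat_lit 13) .nil)))))) (.g (nat_lit 1) (.e (nat_lit 192535) (nat_lit 0) .nil) .nil)))) (.nd (nat_lit 9) 
(.lf (nat_lit 509236) (.g (nat_lit 1829) (.e (nat_lit 172091) (nat_lit 9) (.e (nat_lit 426412) (nat_lit 15) (.e (nat_lit 1856) (nat_lit 124) (.e (nat_lit 557101) (nat_lit 13) .nil)))) (.g (nat_lit 0) (.e (nat_lit 191962) (nat_lit 0) .nil) .nil))) 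
(.lf (nat_lit 509748) (.g (nat_lit 1948) (.e (nat_lit 172113) (nat_lit 10) (.e (nat_lit 434209) (nat_lit 18) (.e (nat_lit 6425) (nat_lit 342) (.e (nat_lit 229413) (nat_lit 15) .nil)))) (.g (nat_lit 0) (.e (nat_lit 193280) (nat_lit 0) .nil) .nil))))) (.nd (nat_lit 8) (.nd (nat_lit 9) 
(.lf (nat_lit 509108) (.g (nat_lit 1763) (.e (nat_lit 172082) (nat_lit 7) (.e (nat_lit 409646) (nat_lit 18) (.e (nat_lit 303133) (nat_lit 9) (.e (nat_lit 426412) (nat_lit 15) (.e (nat_lit 2057) (nat_lit 142) .nil))))) (.g (nat_lit 0) (.e (nat_lit 191240) (nat_lit 0) .nil) .nil))) 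
(.lf (nat_lit 509620) (.g (nat_lit 2982) (.e (nat_lit 172107) (nat_lit 10) (.e (nat_lit 434238) (nat_lit 25) (.e (nat_lit 548913) (nat_lit 18) (.e (nat_lit 172124) (nat_lit 14) (.e (nat_lit 491537) (nat_lit 2) (.e (nat_lit 90170) (nat_lit 13) .nil)))))) (.g (nat_lit 1) (.e (nat_lit 192992) (nat_lit 0) .nil) .nil)))) (.nd (nat_lit 9) 
(.lf (nat_lit 509364) (.g (nat_lit 3785) (.e (nat_lit 172097) (nat_lit 9) (.e (nat_lit 426140) (nat_lit 3) (.e (nat_lit 204855) (nat_lit 26) (.e (nat_lit 336290) (nat_lit 15) (.e (nat_lit 3711) (nat_lit 227) (.e (nat_lit 778316) (nat_lit 3) (.e (nat_lit 57480) (nat_lit 28) (.e (nat_lit 557098) (nat_lit 13) .nil)))))))) (.g (nat_lit 1) (.e (nat_lit 192274) (nat_lit 0) .nil) .nil))) 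
(.lf (nat_lit 509876) (.g (nat_lit 2642) (.e (nat_lit 172113) (nat_lit 10) (.e (nat_lit 434245) (nat_lit 28) (.e (nat_lit 573471) (nat_lit 11) (.e (nat_lit 16435) (nat_lit 9) (.e (nat_lit 426350) (nat_lit 15) .nil))))) (.g (nat_lit 0) (.e (nat_lit 193476) (nat_lit 0) .nil) .nil)))))) (.nd (nat_lit 7) (.nd (nat_lit 8) (.nd (nat_lit 9) 
(.lf (nat_lit 509044) (.g (nat_lit 427) (.e (nat_lit 172081) (nat_lit 7) (.e (nat_lit 409635) (nat_lit 14) (.e (nat_lit 270372) (nat_lit 16) (.e (nat_lit 286755) (nat_lit 10) (.e (nat_lit 344153) (nat_lit 35) (.e (nat_lit 630801) (nat_lit 8) .nil)))))) (.g (nat_lit 1) (.e (nat_lit 190943) (nat_lit 0) .nil) .nil))) 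
(.lf (nat_lit 509556) (.g (nat_lit 2871) (.e (nat_lit 172106) (nat_lit 10) (.e (nat_lit 434248) (nat_lit 28) (.e (nat_lit 573474) (nat_lit 12) (.e (nat_lit 57572) (nat_lit 54) (.e (nat_lit 770072) (nat_lit 8) .nil))))) (.g (nat_lit 0) (.e (nat_lit 192777) (nat_lit 0) .nil) .nil)))) (.nd (nat_lit 9) 
(.lf (nat_lit 509300) (.g (nat_lit 2194) (.e (nat_lit 172096) (nat_lit 9) (.e (nat_lit 426125) (nat_lit 2) (.e (nat_lit 196661) (nat_lit 12) (.e (nat_lit 57750) (nat_lit 201) .nil)))) (.g (nat_lit 0) (.e (nat_lit 192087) (nat_lit 0) .nil) .nil))) 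
(.lf (nat_lit 509812) (.g (nat_lit 2228) (.e (nat_lit 172113) (nat_lit 10) (.e (nat_lit 434242) (nat_lit 28) (.e (nat_lit 573474) (nat_lit 12) (.e (nat_lit 57354) (nat_lit 0) (.e (nat_lit 7147) (nat_lit 382) .nil))))) (.g (nat_lit 0) (.e (nat_lit 193365) (nat_lit 0) .nil) .nil))))) (.nd (nat_lit 8) (.nd (nat_lit 9) 
(.lf (nat_lit 509172) (.g (nat_lit 569) (.e (nat_lit 172082) (nat_lit 7) (.e (nat_lit 409649) (nat_lit 18) (.e (nat_lit 303140) (nat_lit 10) .nil))) (.g (nat_lit 0) (.e (nat_lit 191775) (nat_lit 0) .nil) .nil))) 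
(.lf (nat_lit 509684) (.g (nat_lit 527) (.e (nat_lit 172112) (nat_lit 10) (.e (nat_lit 434238) (nat_lit 25) (.e (nat_lit 548902) (nat_lit 14) .nil))) (.g (nat_lit 0) (.e (nat_lit 193087) (nat_lit 0) .nil) .nil)))) (.nd (nat_lit 9) 
(.lf (nat_lit 509428) (.g (nat_lit 610) (.e (nat_lit 172105) (nat_lit 10) (.e (nat_lit 434272) (nat_lit 38) (.e (nat_lit 655363) (nat_lit 0) .nil))) (.g (nat_lit 0) (.e (nat_lit 192367) (nat_lit 0) .nil) .nil))) 
(.lf (nat_lit 509940) (.g (nat_lit 2386) (.e (nat_lit 172113) (nat_lit 10) (.e (nat_lit 434248) (nat_lit 28) (.e (nat_lit 573471) (nat_lit 11) (.e (nat_lit 16389) (nat_lit 0) (.e (nat_lit 7517) (nat_lit 402) .nil))))) (.g (nat_lit 0) (.e (nat_lit 193556) (nat_lit 0) .nil) .nil))))))))) (.nd (nat_lit 4) (.nd (nat_lit 5) (.nd (nat_lit 6) (.nd (nat_lit 7) (.nd (nat_lit 8) (.nd (nat_lit 9) 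
(.lf (nat_lit 508940) (.g (nat_lit 1827) (.e (nat_lit 172079) (nat_lit 7) (.e (nat_lit 409645) (nat_lit 18) (.e (nat_lit 303133) (nat_lit 9) (.e (nat_lit 426412) (nat_lit 15) (.e (nat_lit 982) (nat_lit 81) .nil))))) (.g (nat_lit 0) (.e (nat_lit 190484) (nat_lit 0) .nil) .nil))) 
(.lf (nat_lit 509452) (.g (nat_lit 1152) (.e (nat_lit 172106) (nat_lit 10) (.e (nat_lit 434209) (nat_lit 18) (.e (nat_lit 6425) (nat_lit 342) (.e (nat_lit 229412) (nat_lit 14) .nil)))) (.g (nat_lit 0) (.e (nat_lit 192466) (nat_lit 0) .nil) .nil)))) (.nd (nat_lit 9) 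
(.lf (nat_lit 509196) (.g (nat_lit 2449) (.e (nat_lit 172085) (nat_lit 9) (.e (nat_lit 426140) (nat_lit 3) (.e (nat_lit 204845) (nat_lit 24) (.e (nat_lit 319530) (nat_lit 16) (.e (nat_lit 286733) (nat_lit 2) (.e (nat_lit 90170) (nat_lit 13) .nil)))))) (.g (nat_lit 1) (.e (nat_lit 191900) (nat_lit 0) .nil) .nil))) 
(.lf (nat_lit 509708) (.g (nat_lit 435) (.e (nat_lit 172112) (nat_lit 10) (.e (nat_lit 434268) (nat_lit 36) (.e (nat_lit 639021) (nat_lit 16) .nil))) (.g (nat_lit 0) (.e (nat_lit 193139) (nat_lit 0) .nil) .nil))))) (.nd (nat_lit 8) (.nd (nat_lit 9) 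
(.lf (nat_lit 509068) (.g (nat_lit 1875) (.e (nat_lit 172081) (nat_lit 7) (.e (nat_lit 409649) (nat_lit 18) (.e (nat_lit 303140) (nat_lit 10) (.e (nat_lit 434275) (nat_lit 39) .nil)))) (.g (nat_lit 0) (.e (nat_lit 190996) (nat_lit 0) .nil) .nil))) 
(.lf (nat_lit 509580) (.g (nat_lit 2120) (.e (nat_lit 172106) (nat_lit 10) (.e (nat_lit 434271) (nat_lit 38) (.e (nat_lit 655378) (nat_lit 4) (.e (nat_lit 172097) (nat_lit 9) (.e (nat_lit 426025) (nat_lit 0) (.e (nat_lit 3399) (nat_lit 211) (.e (nat_lit 647183) (nat_lit 4) .nil))))))) (.g (nat_lit 1) (.e (nat_lit 192832) (nat_lit 0) .nil) .nil)))) (.nd (nat_lit 9) 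
(.lf (nat_lit 509324) (.g (nat_lit 2152) (.e (nat_lit 172097) (nat_lit 9) (.e (nat_lit 426125) (nat_lit 2) (.e (nat_lit 196625) (nat_lit 9) .nil))) (.g (nat_lit 0) (.e (nat_lit 192208) (nat_lit 0) .nil) .nil))) 
(.lf (nat_lit 509836) (.g (nat_lit 2822) (.e (nat_lit 172113) (nat_lit 10) (.e (nat_lit 434244) (nat_lit 28) (.e (nat_lit 573471) (nat_lit 11) (.e (nat_lit 16425) (nat_lit 7) .nil)))) (.g (nat_lit 0) (.e (nat_lit 193391) (nat_lit 0) .nil) .nil)))))) (.nd (nat_lit 7) (.nd (nat_lit 8) (.nd (nat_lit 9) 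
(.lf (nat_lit 509004) (.g (nat_lit 2835) (.e (nat_lit 172079) (nat_lit 7) (.e (nat_lit 409648) (nat_lit 18) (.e (nat_lit 303137) (nat_lit 10) (.e (nat_lit 434275) (nat_lit 39) (.e (nat_lit 663580) (nat_lit 9) (.e (nat_lit 2478) (nat_lit 157) (.e (nat_lit 3464) (nat_lit 217) (.e (nat_lit 696343) (nat_lit 8) .nil)))))))) (.g (nat_lit 1) (.e (nat_lit 190841) (nat_lit 0) .nil) .nil))) 
(.lf (nat_lit 509516) (.g (nat_lit 3633) (.e (nat_lit 172106) (nat_lit 10) (.e (nat_lit 434238) (nat_lit 25) (.e (nat_lit 548913) (nat_lit 18) (.e (nat_lit 172124) (nat_lit 14) (.e (nat_lit 491536) (nat_lit 2) (.e (nat_lit 90170) (nat_lit 13) .nil)))))) (.g (nat_lit 1) (.e (nat_lit 192689) (nat_lit 0) .nil) .nil)))) (.nd (nat_lit 9) 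
(.lf (nat_lit 509260) (.g (nat_lit 1647) (.e (nat_lit 172094) (nat_lit 9) (.e (nat_lit 426125) (nat_lit 2) (.e (nat_lit 196677) (nat_lit 16) (.e (nat_lit 123080) (nat_lit 177) .nil)))) (.g (nat_lit 0) (.e (nat_lit 192017) (nat_lit 0) .nil) .nil))) 
(.lf (nat_lit 509772) (.g (nat_lit 3201) (.e (nat_lit 172113) (nat_lit 10) (.e (nat_lit 434231) (nat_lit 23) (.e (nat_lit 532523) (nat_lit 7) (.e (nat_lit 319504) (nat_lit 10) (.e (nat_lit 5245) (nat_lit 298) .nil))))) (.g (nat_lit 0) (.e (nat_lit 193311) (nat_lit 0) .nil) .nil))))) (.nd (nat_lit 8) (.nd (nat_lit 9) 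
(.lf (nat_lit 509132) (.g (nat_lit 1587) (.e (nat_lit 172082) (nat_lit 7) (.e (nat_lit 409646) (nat_lit 18) (.e (nat_lit 303143) (nat_lit 12) (.e (nat_lit 475157) (nat_lit 21) .nil)))) (.g (nat_lit 0) (.e (nat_lit 191451) (nat_lit 0) .nil) .nil))) 
(.lf (nat_lit 509644) (.g (nat_lit 1201) (.e (nat_lit 172107) (nat_lit 10) (.e (nat_lit 434289) (nat_lit 43) (.e (nat_lit 696344) (nat_lit 8) (.e (nat_lit 172106) (nat_lit 10) .nil)))) (.g (nat_lit 0) (.e (nat_lit 193038) (nat_lit 0) .nil) .nil)))) (.nd (nat_lit 9) 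
(.lf (nat_lit 509388) (.g (nat_lit 574) (.e (nat_lit 172105) (nat_lit 10) (.e (nat_lit 434231) (nat_lit 23) (.e (nat_lit 532563) (nat_lit 15) .nil))) (.g (nat_lit 0) (.e (nat_lit 192314) (nat_lit 0) .nil) .nil))) 
(.lf (nat_lit 509900) (.g (nat_lit 2476) (.e (nat_lit 172113) (nat_lit 10) (.e (nat_lit 434247) (nat_lit 28) (.e (nat_lit 573469) (nat_lit 11) (.e (nat_lit 16435) (nat_lit 9) (.e (nat_lit 426361) (nat_lit 15) .nil))))) (.g (nat_lit 0) (.e (nat_lit 193509) (nat_lit 0) .nil) .nil))))))) (.nd (nat_lit 6) (.nd (nat_lit 7) (.nd (nat_lit 8) (.nd (nat_lit 9) 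
(.lf (nat_lit 508972) (.g (nat_lit 3330) (.e (nat_lit 172079) (nat_lit 7) (.e (nat_lit 409645) (nat_lit 18) (.e (nat_lit 303143) (nat_lit 12) (.e (nat_lit 475199) (nat_lit 40) (.e (nat_lit 704857) (nat_lit 17) .nil))))) (.g (nat_lit 0) (.e (nat_lit 190715) (nat_lit 0) .nil) .nil))) 
(.lf (nat_lit 509484) (.g (nat_lit 2595) (.e (nat_lit 172106) (nat_lit 10) (.e (nat_lit 434231) (nat_lit 23) (.e (nat_lit 532523) (nat_lit 7) (.e (nat_lit 319514) (nat_lit 11) .nil)))) (.g (nat_lit 0) (.e (nat_lit 192524) (nat_lit 0) .nil) .nil)))) (.nd (nat_lit 9) 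
(.lf (nat_lit 509228) (.g (nat_lit 1562) (.e (nat_lit 172089) (nat_lit 9) (.e (nat_lit 426025) (nat_lit 0) (.e (nat_lit 3397) (nat_lit 211) (.e (nat_lit 647183) (nat_lit 4) (.e (nat_lit 172112) (nat_lit 10) .nil))))) (.g (nat_lit 0) (.e (nat_lit 191952) (nat_lit 0) .nil) .nil))) 
(.lf (nat_lit 509740) (.g (nat_lit 2677) (.e (nat_lit 172113) (nat_lit 10) (.e (nat_lit 434208) (nat_lit 18) (.e (nat_lit 6416) (nat_lit 341) (.e (nat_lit 163903) (nat_lit 12) (.e (nat_lit 426294) (nat_lit 11) (.e (nat_lit 458810) (nat_lit 43) (.e (nat_lit 696344) (nat_lit 8) .nil))))))) (.g (nat_lit 1) (.e (nat_lit 193243) (nat_lit 0) .nil) .nil))))) (.nd (nat_lit 8) (.nd (nat_lit 9) 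
(.lf (nat_lit 509100) (.g (nat_lit 1312) (.e (nat_lit 172082) (nat_lit 7) (.e (nat_lit 409646) (nat_lit 18) (.e (nat_lit 303112) (nat_lit 0) (.e (nat_lit 7515) (nat_lit 402) (.e (nat_lit 1529) (nat_lit 109) .nil))))) (.g (nat_lit 0) (.e (nat_lit 191094) (nat_lit 0) .nil) .nil))) 
(.lf (nat_lit 509612) (.g (nat_lit 3790) (.e (nat_lit 172106) (nat_lit 10) (.e (nat_lit 434289) (nat_lit 43) (.e (nat_lit 696344) (nat_lit 8) (.e (nat_lit 172115) (nat_lit 10) (.e (nat_lit 434289) (nat_lit 43) (.e (nat_lit 696343) (nat_lit 8) .nil)))))) (.g (nat_lit 1) (.e (nat_lit 192971) (nat_lit 0) .nil) .nil)))) (.nd (nat_lit 9) 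
(.lf (nat_lit 509356) (.g (nat_lit 3167) (.e (nat_lit 172097) (nat_lit 9) (.e (nat_lit 426140) (nat_lit 3) (.e (nat_lit 204845) (nat_lit 24) (.e (nat_lit 319533) (nat_lit 16) (.e (nat_lit 286732) (nat_lit 2) (.e (nat_lit 90170) (nat_lit 13) .nil)))))) (.g (nat_lit 1) (.e (nat_lit 192266) (nat_lit 0) .nil) .nil))) 
(.lf (nat_lit 509868) (.g (nat_lit 3423) (.e (nat_lit 172113) (nat_lit 10) (.e (nat_lit 434245) (nat_lit 28) (.e (nat_lit 573471) (nat_lit 11) (.e (nat_lit 16433) (nat_lit 9) (.e (nat_lit 426375) (nat_lit 15) .nil))))) (.g (nat_lit 0) (.e (nat_lit 193468) (nat_lit 0) .nil) .nil)))))) (.nd (nat_lit 7) (.nd (nat_lit 8) (.nd (nat_lit 9) 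
(.lf (nat_lit 509036) (.g (nat_lit 2061) (.e (nat_lit 172080) (nat_lit 7) (.e (nat_lit 409642) (nat_lit 17) (.e (nat_lit 294974) (nat_lit 29) (.e (nat_lit 442399) (nat_lit 20) (.e (nat_lit 3402) (nat_lit 211) (.e (nat_lit 647183) (nat_lit 4) .nil)))))) (.g (nat_lit 1) (.e (nat_lit 190916) (nat_lit 0) .nil) .nil))) 
(.lf (nat_lit 509548) (.g (nat_lit 891) (.e (nat_lit 172106) (nat_lit 10) (.e (nat_lit 434244) (nat_lit 28) (.e (nat_lit 573502) (nat_lit 18) .nil))) (.g (nat_lit 0) (.e (nat_lit 192768) (nat_lit 0) .nil) .nil)))) (.nd (nat_lit 9) 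
(.lf (nat_lit 509292) (.g (nat_lit 1089) (.e (nat_lit 172099) (nat_lit 9) (.e (nat_lit 426140) (nat_lit 3) (.e (nat_lit 204846) (nat_lit 24) .nil))) (.g (nat_lit 0) (.e (nat_lit 192075) (nat_lit 0) .nil) .nil))) 
(.lf (nat_lit 509804) (.g (nat_lit 5333) (.e (nat_lit 172113) (nat_lit 10) (.e (nat_lit 434242) (nat_lit 28) (.e (nat_lit 573471) (nat_lit 11) (.e (nat_lit 16433) (nat_lit 9) (.e (nat_lit 426354) (nat_lit 15) (.e (nat_lit 1860) (nat_lit 124) (.e (nat_lit 557100) (nat_lit 13) .nil))))))) (.g (nat_lit 1) (.e (nat_lit 193354) (nat_lit 0) .nil) .nil))))) (.nd (nat_lit 8) (.nd (nat_lit 9) 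
(.lf (nat_lit 509164) (.g (nat_lit 1792) (.e (nat_lit 172082) (nat_lit 7) (.e (nat_lit 409646) (nat_lit 18) (.e (nat_lit 311040) (nat_lit 35) (.e (nat_lit 401454) (nat_lit 12) (.e (nat_lit 475206) (nat_lit 40) (.e (nat_lit 712448) (nat_lit 4) .nil)))))) (.g (nat_lit 1) (.e (nat_lit 191731) (nat_lit 0) .nil) .nil))) 
(.lf (nat_lit 509676) (.g (nat_lit 1706) (.e (nat_lit 172111) (nat_lit 10) (.e (nat_lit 434248) (nat_lit 28) (.e (nat_lit 573503) (nat_lit 18) (.e (nat_lit 1358) (nat_lit 102) .nil)))) (.g (nat_lit 0) (.e (nat_lit 193074) (nat_lit 0) .nil) .nil)))) (.nd (nat_lit 9) 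
(.lf (nat_lit 509420) (.g (nat_lit 1954) (.e (nat_lit 172105) (nat_lit 10) (.e (nat_lit 434248) (nat_lit 28) (.e (nat_lit 573475) (nat_lit 12) (.e (nat_lit 57574) (nat_lit 55) (.e (nat_lit 778465) (nat_lit 11) .nil))))) (.g (nat_lit 0) (.e (nat_lit 192357) (nat_lit 0) .nil) .nil))) 
(.lf (nat_lit 509932) (.g (nat_lit 4328) (.e (nat_lit 172113) (nat_lit 10) (.e (nat_lit 434248) (nat_lit 28) (.e (nat_lit 573470) (nat_lit 11) (.e (nat_lit 16435) (nat_lit 9) (.e (nat_lit 426354) (nat_lit 15) (.e (nat_lit 1860) (nat_lit 124) (.e (nat_lit 557100) (nat_lit 13) .nil))))))) (.g (nat_lit 1) (.e (nat_lit 193548) (nat_lit 0) .nil) .nil)))))))) 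
(.nd (nat_lit 5) (.nd (nat_lit 6) (.nd (nat_lit 7) (.nd (nat_lit 8) (.nd (nat_lit 9) 
(.lf (nat_lit 508956) (.g (nat_lit 496) (.e (nat_lit 172079) (nat_lit 7) (.e (nat_lit 409645) (nat_lit 18) (.e (nat_lit 303140) (nat_lit 10) .nil))) (.g (nat_lit 0) (.e (nat_lit 190585) (nat_lit 0) .nil) .nil))) 
(.lf (nat_lit 509468) (.g (nat_lit 1868) (.e (nat_lit 172106) (nat_lit 10) (.e (nat_lit 434231) (nat_lit 23) (.e (nat_lit 532499) (nat_lit 1) (.e (nat_lit 65280) (nat_lit 215) .nil)))) (.g (nat_lit 0) (.e (nat_lit 192507) (nat_lit 0) .nil) .nil)))) (.nd (nat_lit 9) 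
(.lf (nat_lit 509212) (.g (nat_lit 3067) (.e (nat_lit 172085) (nat_lit 9) (.e (nat_lit 426482) (nat_lit 27) (.e (nat_lit 336060) (nat_lit 7) (.e (nat_lit 319534) (nat_lit 16) (.e (nat_lit 286728) (nat_lit 0) (.e (nat_lit 2270) (nat_lit 149) (.e (nat_lit 761904) (nat_lit 16) .nil))))))) (.g (nat_lit 1) (.e (nat_lit 191918) (nat_lit 0) .nil) .nil))) 
(.lf (nat_lit 509724) (.g (nat_lit 3295) (.e (nat_lit 172112) (nat_lit 10) (.e (nat_lit 434289) (nat_lit 43) (.e (nat_lit 696344) (nat_lit 8) (.e (nat_lit 172113) (nat_lit 10) (.e (nat_lit 434289) (nat_lit 43) (.e (nat_lit 696343) (nat_lit 8) .nil)))))) (.g (nat_lit 1) (.e (nat_lit 193185) (nat_lit 0) .nil) .nil))))) (.nd (nat_lit 8) (.nd (nat_lit 9) 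
(.lf (nat_lit 509084) (.g (nat_lit 2174) (.e (nat_lit 172082) (nat_lit 7) (.e (nat_lit 409616) (nat_lit 10) (.e (nat_lit 632) (nat_lit 50) (.e (nat_lit 573491) (nat_lit 15) (.e (nat_lit 81943) (nat_lit 20) .nil))))) (.g (nat_lit 0) (.e (nat_lit 191041) (nat_lit 0) .nil) .nil))) 
(.lf (nat_lit 509596) (.g (nat_lit 3472) (.e (nat_lit 172106) (nat_lit 10) (.e (nat_lit 434288) (nat_lit 43) (.e (nat_lit 696344) (nat_lit 8) (.e (nat_lit 172115) (nat_lit 10) (.e (nat_lit 434289) (nat_lit 43) (.e (nat_lit 696344) (nat_lit 8) .nil)))))) (.g (nat_lit 1) (.e (nat_lit 192932) (nat_lit 0) .nil) .nil)))) (.nd (nat_lit 9) 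
(.lf (nat_lit 509340) (.g (nat_lit 3156) (.e (nat_lit 172097) (nat_lit 9) (.e (nat_lit 426140) (nat_lit 3) (.e (nat_lit 204821) (nat_lit 17) (.e (nat_lit 6674) (nat_lit 357) (.e (nat_lit 2936) (nat_lit 184) (.e (nat_lit 426401) (nat_lit 15) (.e (nat_lit 1859) (nat_lit 124) (.e (nat_lit 557098) (nat_lit 13) .nil)))))))) (.g (nat_lit 1) (.e (nat_lit 192249) (nat_lit 0) .nil) .nil))) 
(.lf (nat_lit 509852) (.g (nat_lit 5036) (.e (nat_lit 172113) (nat_lit 10) (.e (nat_lit 434245) (nat_lit 28) (.e (nat_lit 573458) (nat_lit 9) (.e (nat_lit 426) (nat_lit 32) (.e (nat_lit 426316) (nat_lit 12) (.e (nat_lit 475185) (nat_lit 29) (.e (nat_lit 557100) (nat_lit 13) .nil))))))) (.g (nat_lit 1) (.e (nat_lit 193421) (nat_lit 0) .nil) .nil)))))) 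
(.nd (nat_lit 7) (.nd (nat_lit 8) (.nd (nat_lit 9) 
(.lf (nat_lit 509020) (.g (nat_lit 2070) (.e (nat_lit 172080) (nat_lit 7) (.e (nat_lit 409638) (nat_lit 15) (.e (nat_lit 278566) (nat_lit 16) (.e (nat_lit 286754) (nat_lit 10) (.e (nat_lit 344156) (nat_lit 36) (.e (nat_lit 638998) (nat_lit 8) .nil)))))) (.g (nat_lit 1) (.e (nat_lit 190880) (nat_lit 0) .nil) .nil))) 
(.lf (nat_lit 509532) (.g (nat_lit 3020) (.e (nat_lit 172106) (nat_lit 10) (.e (nat_lit 434244) (nat_lit 28) (.e (nat_lit 573471) (nat_lit 11) (.e (nat_lit 16388) (nat_lit 0) (.e (nat_lit 7486) (nat_lit 402) .nil))))) (.g (nat_lit 0) (.e (nat_lit 192721) (nat_lit 0) .nil) .nil)))) (.nd (nat_lit 9) 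
(.lf (nat_lit 509276) (.g (nat_lit 2712) (.e (nat_lit 172094) (nat_lit 9) (.e (nat_lit 426140) (nat_lit 3) (.e (nat_lit 204846) (nat_lit 24) (.e (nat_lit 319534) (nat_lit 16) (.e (nat_lit 286733) (nat_lit 2) (.e (nat_lit 90169) (nat_lit 13) .nil)))))) (.g (nat_lit 1) (.e (nat_lit 192039) (nat_lit 0) .nil) .nil))) 
(.lf (nat_lit 509788) (.g (nat_lit 1631) (.e (nat_lit 172113) (nat_lit 10) (.e (nat_lit 434231) (nat_lit 23) (.e (nat_lit 532526) (nat_lit 8) (.e (nat_lit 327703) (nat_lit 10) .nil)))) (.g (nat_lit 0) (.e (nat_lit 193327) (nat_lit 0) .nil) .nil))))) (.nd (nat_lit 8) (.nd (nat_lit 9) 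
(.lf (nat_lit 509148) (.g (nat_lit 3434) (.e (nat_lit 172082) (nat_lit 7) (.e (nat_lit 409646) (nat_lit 18) (.e (nat_lit 303146) (nat_lit 14) (.e (nat_lit 491558) (nat_lit 10) (.e (nat_lit 344154) (nat_lit 35) (.e (nat_lit 630802) (nat_lit 8) .nil)))))) (.g (nat_lit 1) (.e (nat_lit 191669) (nat_lit 0) .nil) .nil))) 
(.lf (nat_lit 509660) (.g (nat_lit 3515) (.e (nat_lit 172110) (nat_lit 10) (.e (nat_lit 434248) (nat_lit 28) (.e (nat_lit 573471) (nat_lit 11) (.e (nat_lit 16473) (nat_lit 14) (.e (nat_lit 491535) (nat_lit 2) .nil))))) (.g (nat_lit 0) (.e (nat_lit 193056) (nat_lit 0) .nil) .nil)))) (.nd (nat_lit 9) 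
(.lf (nat_lit 509404) (.g (nat_lit 3331) (.e (nat_lit 172105) (nat_lit 10) (.e (nat_lit 434247) (nat_lit 28) (.e (nat_lit 573478) (nat_lit 12) (.e (nat_lit 57574) (nat_lit 55) (.e (nat_lit 778466) (nat_lit 11) (.e (nat_lit 24604) (nat_lit 2) (.e (nat_lit 90168) (nat_lit 13) .nil))))))) (.g (nat_lit 1) (.e (nat_lit 192341) (nat_lit 0) .nil) .nil))) 
(.lf (nat_lit 509916) (.g (nat_lit 2673) (.e (nat_lit 172113) (nat_lit 10) (.e (nat_lit 434247) (nat_lit 28) (.e (nat_lit 573478) (nat_lit 12) (.e (nat_lit 57574) (nat_lit 55) (.e (nat_lit 778466) (nat_lit 11) (.e (nat_lit 32512) (nat_lit 2) (.e (nat_lit 90170) (nat_lit 13) .nil))))))) (.g (nat_lit 1) (.e (nat_lit 193526) (nat_lit 0) .nil) .nil))))))) 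
(.nd (nat_lit 6) (.nd (nat_lit 7) (.nd (nat_lit 8) (.nd (nat_lit 9) 
(.lf (nat_lit 508988) (.g (nat_lit 2628) (.e (nat_lit 172079) (nat_lit 7) (.e (nat_lit 409645) (nat_lit 18) (.e (nat_lit 303146) (nat_lit 14) (.e (nat_lit 491560) (nat_lit 10) (.e (nat_lit 344155) (nat_lit 36) .nil))))) (.g (nat_lit 0) (.e (nat_lit 190784) (nat_lit 0) .nil) .nil))) 
(.lf (nat_lit 509500) (.g (nat_lit 1955) (.e (nat_lit 172106) (nat_lit 10) (.e (nat_lit 434231) (nat_lit 23) (.e (nat_lit 532535) (nat_lit 9) (.e (nat_lit 336295) (nat_lit 15) (.e (nat_lit 3638) (nat_lit 227) .nil))))) (.g (nat_lit 0) (.e (nat_lit 192547) (nat_lit 0) .nil) .nil)))) (.nd (nat_lit 9) 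
(.lf (nat_lit 509244) (.g (nat_lit 2325) (.e (nat_lit 172093) (nat_lit 9) (.e (nat_lit 426140) (nat_lit 3) (.e (nat_lit 204846) (nat_lit 24) (.e (nat_lit 319532) (nat_lit 16) .nil)))) (.g (nat_lit 0) (.e (nat_lit 191973) (nat_lit 0) .nil) .nil))) 
(.lf (nat_lit 509756) (.g (nat_lit 662) (.e (nat_lit 172113) (nat_lit 10) (.e (nat_lit 434231) (nat_lit 23) (.e (nat_lit 532483) (nat_lit 0) .nil))) (.g (nat_lit 0) (.e (nat_lit 193294) (nat_lit 0) .nil) .nil))))) (.nd (nat_lit 8) (.nd (nat_lit 9) 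
(.lf (nat_lit 509116) (.g (nat_lit 1604) (.e (nat_lit 172082) (nat_lit 7) (.e (nat_lit 409646) (nat_lit 18) (.e (nat_lit 303137) (nat_lit 10) (.e (nat_lit 434275) (nat_lit 39) .nil)))) (.g (nat_lit 0) (.e (nat_lit 191406) (nat_lit 0) .nil) .nil))) 
(.lf (nat_lit 509628) (.g (nat_lit 1569) (.e (nat_lit 172107) (nat_lit 10) (.e (nat_lit 434268) (nat_lit 36) (.e (nat_lit 639020) (nat_lit 16) (.e (nat_lit 65610) (nat_lit 10) (.e (nat_lit 344154) (nat_lit 35) .nil))))) (.g (nat_lit 0) (.e (nat_lit 193002) (nat_lit 0) .nil) .nil)))) (.nd (nat_lit 9) 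
(.lf (nat_lit 509372) (.g (nat_lit 3520) (.e (nat_lit 172097) (nat_lit 9) (.e (nat_lit 426140) (nat_lit 3) (.e (nat_lit 204883) (nat_lit 33) (.e (nat_lit 401454) (nat_lit 12) (.e (nat_lit 475184) (nat_lit 29) (.e (nat_lit 557098) (nat_lit 13) .nil)))))) (.g (nat_lit 1) (.e (nat_lit 192284) (nat_lit 0) .nil) .nil))) 
(.lf (nat_lit 509884) (.g (nat_lit 2137) (.e (nat_lit 172113) (nat_lit 10) (.e (nat_lit 434245) (nat_lit 28) (.e (nat_lit 573471) (nat_lit 11) (.e (nat_lit 16458) (nat_lit 12) (.e (nat_lit 475184) (nat_lit 29) .nil))))) (.g (nat_lit 0) (.e (nat_lit 193487) (nat_lit 0) .nil) .nil)))))) (.nd (nat_lit 7) (.nd (nat_lit 8) (.nd (nat_lit 9) 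
(.lf (nat_lit 509052) (.g (nat_lit 267) (.e (nat_lit 172081) (nat_lit 7) (.e (nat_lit 409639) (nat_lit 15) (.e (nat_lit 278566) (nat_lit 16) (.e (nat_lit 286755) (nat_lit 10) .nil)))) (.g (nat_lit 0) (.e (nat_lit 190952) (nat_lit 0) .nil) .nil))) 
(.lf (nat_lit 509564) (.g (nat_lit 461) (.e (nat_lit 172106) (nat_lit 10) (.e (nat_lit 434268) (nat_lit 36) (.e (nat_lit 639005) (nat_lit 13) .nil))) (.g (nat_lit 0) (.e (nat_lit 192789) (nat_lit 0) .nil) .nil)))) (.nd (nat_lit 9) 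
(.lf (nat_lit 509308) (.g (nat_lit 3458) (.e (nat_lit 172096) (nat_lit 9) (.e (nat_lit 426140) (nat_lit 3) (.e (nat_lit 204846) (nat_lit 24) (.e (nat_lit 319530) (nat_lit 16) (.e (nat_lit 286733) (nat_lit 2) .nil))))) (.g (nat_lit 0) (.e (nat_lit 192099) (nat_lit 0) .nil) .nil))) 
(.lf (nat_lit 509820) (.g (nat_lit 2510) (.e (nat_lit 172113) (nat_lit 10) (.e (nat_lit 434242) (nat_lit 28) (.e (nat_lit 573474) (nat_lit 12) (.e (nat_lit 57570) (nat_lit 54) (.e (nat_lit 770076) (nat_lit 12) .nil))))) (.g (nat_lit 0) (.e (nat_lit 193373) (nat_lit 0) .nil) .nil))))) (.nd (nat_lit 8) (.nd (nat_lit 9) 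
(.lf (nat_lit 509180) (.g (nat_lit 2601) (.e (nat_lit 172082) (nat_lit 7) (.e (nat_lit 409649) (nat_lit 18) (.e (nat_lit 303140) (nat_lit 10) (.e (nat_lit 434275) (nat_lit 39) (.e (nat_lit 663580) (nat_lit 9) (.e (nat_lit 2416) (nat_lit 157) (.e (nat_lit 3467) (nat_lit 217) (.e (nat_lit 696343) (nat_lit 8) .nil)))))))) (.g (nat_lit 1) (.e (nat_lit 191797) (nat_lit 0) .nil) .nil))) 
(.lf (nat_lit 509692) (.g (nat_lit 1716) (.e (nat_lit 172112) (nat_lit 10) (.e (nat_lit 434248) (nat_lit 28) (.e (nat_lit 573471) (nat_lit 11) (.e (nat_lit 16461) (nat_lit 12) .nil)))) (.g (nat_lit 0) (.e (nat_lit 193117) (nat_lit 0) .nil) .nil)))) (.nd (nat_lit 9) 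
(.lf (nat_lit 509436) (.g (nat_lit 1105) (.e (nat_lit 172105) (nat_lit 10) (.e (nat_lit 434272) (nat_lit 38) (.e (nat_lit 655380) (nat_lit 6) (.e (nat_lit 188427) (nat_lit 20) (.e (nat_lit 3401) (nat_lit 211) .nil))))) (.g (nat_lit 0) (.e (nat_lit 192377) (nat_lit 0) .nil) .nil))) 
(.lf (nat_lit 509948) (.g (nat_lit 3582) (.e (nat_lit 172113) (nat_lit 10) (.e (nat_lit 434248) (nat_lit 28) (.e (nat_lit 573471) (nat_lit 11) (.e (nat_lit 16433) (nat_lit 9) (.e (nat_lit 426416) (nat_lit 15) .nil))))) (.g (nat_lit 0) (.e (nat_lit 193565) (nat_lit 0) .nil) .nil))))))))))) 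
(.nd (nat_lit 2) (.nd (nat_lit 3) (.nd (nat_lit 4) (.nd (nat_lit 5) (.nd (nat_lit 6) 
(.nd (nat_lit 7) (.nd (nat_lit 8) (.nd (nat_lit 9) 
(.lf (nat_lit 508930) (.g (nat_lit 1920) (.e (nat_lit 172079) (nat_lit 7) (.e (nat_lit 409645) (nat_lit 18) (.e (nat_lit 303112) (nat_lit 0) (.e (nat_lit 7549) (nat_lit 402) .nil)))) (.g (nat_lit 0) (.e (nat_lit 190373) (nat_lit 0) .nil) .nil))) 
(.lf (nat_lit 509442) (.g (nat_lit 1573) (.e (nat_lit 172106) (nat_lit 10) (.e (nat_lit 434202) (nat_lit 18) (.e (nat_lit 6252) (nat_lit 337) (.e (nat_lit 2725) (nat_lit 172) (.e (nat_lit 237605) (nat_lit 9) .nil))))) (.g (nat_lit 0) (.e (nat_lit 192387) (nat_lit 0) .nil) .nil)))) (.nd (nat_lit 9) 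
(.lf (nat_lit 509186) (.g (nat_lit 2850) (.e (nat_lit 172082) (nat_lit 7) (.e (nat_lit 409649) (nat_lit 18) (.e (nat_lit 303146) (nat_lit 14) (.e (nat_lit 491560) (nat_lit 10) (.e (nat_lit 344153) (nat_lit 35) (.e (nat_lit 630801) (nat_lit 8) .nil)))))) (.g (nat_lit 1) (.e (nat_lit 191827) (nat_lit 0) .nil) .nil))) 
(.lf (nat_lit 509698) (.g (nat_lit 1705) (.e (nat_lit 172112) (nat_lit 10) (.e (nat_lit 434265) (nat_lit 35) (.e (nat_lit 630820) (nat_lit 16) (.e (nat_lit 65616) (nat_lit 10) (.e (nat_lit 344156) (nat_lit 36) (.e (nat_lit 638998) (nat_lit 8) .nil)))))) (.g (nat_lit 1) (.e (nat_lit 193124) (nat_lit 0) .nil) .nil))))) (.nd (nat_lit 8) (.nd (nat_lit 9) 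
(.lf (nat_lit 509058) (.g (nat_lit 1729) (.e (nat_lit 172081) (nat_lit 7) (.e (nat_lit 409648) (nat_lit 18) (.e (nat_lit 303137) (nat_lit 10) (.e (nat_lit 434200) (nat_lit 18) (.e (nat_lit 5965) (nat_lit 324) .nil))))) (.g (nat_lit 0) (.e (nat_lit 190962) (nat_lit 0) .nil) .nil))) 
(.lf (nat_lit 509570) (.g (nat_lit 1222) (.e (nat_lit 172106) (nat_lit 10) (.e (nat_lit 434275) (nat_lit 39) (.e (nat_lit 663574) (nat_lit 9) (.e (nat_lit 7936) (nat_lit 21) .nil)))) (.g (nat_lit 0) (.e (nat_lit 192805) (nat_lit 0) .nil) .nil)))) (.nd (nat_lit 9) 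
(.lf (nat_lit 509314) (.g (nat_lit 779) (.e (nat_lit 172096) (nat_lit 9) (.e (nat_lit 426140) (nat_lit 3) (.e (nat_lit 204862) (nat_lit 27) .nil))) (.g (nat_lit 0) (.e (nat_lit 192109) (nat_lit 0) .nil) .nil))) 
(.lf (nat_lit 509826) (.g (nat_lit 5982) (.e (nat_lit 172113) (nat_lit 10) (.e (nat_lit 434242) (nat_lit 28) (.e (nat_lit 573474) (nat_lit 12) (.e (nat_lit 57572) (nat_lit 54) (.e (nat_lit 770072) (nat_lit 8) (.e (nat_lit 65568) (nat_lit 2) (.e (nat_lit 90170) (nat_lit 13) .nil))))))) (.g (nat_lit 1) (.e (nat_lit 193379) (nat_lit 0) .nil) .nil)))))) 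
(.nd (nat_lit 7) (.nd (nat_lit 8) (.nd (nat_lit 9) 
(.lf (nat_lit 508994) (.g (nat_lit 1826) (.e (nat_lit 172079) (nat_lit 7) (.e (nat_lit 409645) (nat_lit 18) (.e (nat_lit 311040) (nat_lit 35) (.e (nat_lit 401454) (nat_lit 12) (.e (nat_lit 475200) (nat_lit 40) .nil))))) (.g (nat_lit 0) (.e (nat_lit 190823) (nat_lit 0) .nil) .nil))) 
(.lf (nat_lit 509506) (.g (nat_lit 2260) (.e (nat_lit 172106) (nat_lit 10) (.e (nat_lit 434231) (nat_lit 23) (.e (nat_lit 532569) (nat_lit 16) (.e (nat_lit 401418) (nat_lit 0) .nil)))) (.g (nat_lit 0) (.e (nat_lit 192599) (nat_lit 0) .nil) .nil)))) (.nd (nat_lit 9) 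
(.lf (nat_lit 509250) (.g (nat_lit 2257) (.e (nat_lit 172094) (nat_lit 9) (.e (nat_lit 426109) (nat_lit 1) (.e (nat_lit 164347) (nat_lit 240) (.e (nat_lit 2650) (nat_lit 166) (.e (nat_lit 188435) (nat_lit 20) (.e (nat_lit 3409) (nat_lit 212) (.e (nat_lit 655378) (nat_lit 4) .nil))))))) (.g (nat_lit 1) (.e (nat_lit 191990) (nat_lit 0) .nil) .nil))) 
(.lf (nat_lit 509762) (.g (nat_lit 2341) (.e (nat_lit 172113) (nat_lit 10) (.e (nat_lit 434231) (nat_lit 23) (.e (nat_lit 532490) (nat_lit 0) (.e (nat_lit 7936) (nat_lit 364) .nil)))) (.g (nat_lit 0) (.e (nat_lit 193301) (nat_lit 0) .nil) .nil))))) (.nd (nat_lit 8) (.nd (nat_lit 9) 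
(.lf (nat_lit 509122) (.g (nat_lit 846) (.e (nat_lit 172082) (nat_lit 7) (.e (nat_lit 409646) (nat_lit 18) (.e (nat_lit 303139) (nat_lit 10) .nil))) (.g (nat_lit 0) (.e (nat_lit 191417) (nat_lit 0) .nil) .nil))) 
(.lf (nat_lit 509634) (.g (nat_lit 2596) (.e (nat_lit 172107) (nat_lit 10) (.e (nat_lit 434271) (nat_lit 38) (.e (nat_lit 655378) (nat_lit 4) (.e (nat_lit 172094) (nat_lit 9) (.e (nat_lit 426025) (nat_lit 0) (.e (nat_lit 3399) (nat_lit 211) (.e (nat_lit 647183) (nat_lit 4) .nil))))))) (.g (nat_lit 1) (.e (nat_lit 193011) (nat_lit 0) .nil) .nil)))) (.nd (nat_lit 9) 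
(.lf (nat_lit 509378) (.g (nat_lit 1499) (.e (nat_lit 172103) (nat_lit 9) (.e (nat_lit 426139) (nat_lit 3) (.e (nat_lit 204845) (nat_lit 24) (.e (nat_lit 327424) (nat_lit 16) .nil)))) (.g (nat_lit 0) (.e (nat_lit 192302) (nat_lit 0) .nil) .nil))) 
(.lf (nat_lit 509890) (.g (nat_lit 4430) (.e (nat_lit 172113) (nat_lit 10) (.e (nat_lit 434245) (nat_lit 28) (.e (nat_lit 573471) (nat_lit 11) (.e (nat_lit 16471) (nat_lit 14) (.e (nat_lit 491537) (nat_lit 2) (.e (nat_lit 90170) (nat_lit 13) .nil)))))) (.g (nat_lit 1) (.e (nat_lit 193493) (nat_lit 0) .nil) .nil))))))) (.nd (nat_lit 6) (.nd (nat_lit 7) (.nd (nat_lit 8) (.nd (nat_lit 9) 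
(.lf (nat_lit 508962) (.g (nat_lit 519) (.e (nat_lit 172079) (nat_lit 7) (.e (nat_lit 409645) (nat_lit 18) (.e (nat_lit 303142) (nat_lit 12) .nil))) (.g (nat_lit 0) (.e (nat_lit 190606) (nat_lit 0) .nil) .nil))) 
(.lf (nat_lit 509474) (.g (nat_lit 589) (.e (nat_lit 172106) (nat_lit 10) (.e (nat_lit 434231) (nat_lit 23) (.e (nat_lit 532516) (nat_lit 4) .nil))) (.g (nat_lit 0) (.e (nat_lit 192513) (nat_lit 0) .nil) .nil)))) (.nd (nat_lit 9) 
(.lf (nat_lit 509218) (.g (nat_lit 791) (.e (nat_lit 172086) (nat_lit 9) (.e (nat_lit 426568) (nat_lit 34) (.e (nat_lit 393251) (nat_lit 18) .nil))) (.g (nat_lit 0) (.e (nat_lit 191932) (nat_lit 0) .nil) .nil))) 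
(.lf (nat_lit 509730) (.g (nat_lit 2563) (.e (nat_lit 172113) (nat_lit 10) (.e (nat_lit 434203) (nat_lit 18) (.e (nat_lit 6416) (nat_lit 341) (.e (nat_lit 163903) (nat_lit 12) (.e (nat_lit 426294) (nat_lit 11) (.e (nat_lit 458810) (nat_lit 43) (.e (nat_lit 696343) (nat_lit 8) .nil))))))) (.g (nat_lit 1) (.e (nat_lit 193204) (nat_lit 0) .nil) .nil))))) (.nd (nat_lit 8) (.nd (nat_lit 9) 
(.lf (nat_lit 509090) (.g (nat_lit 3318) (.e (nat_lit 172082) (nat_lit 7) (.e (nat_lit 409631) (nat_lit 12) (.e (nat_lit 32807) (nat_lit 18) (.e (nat_lit 172124) (nat_lit 14) (.e (nat_lit 491537) (nat_lit 2) (.e (nat_lit 90170) (nat_lit 13) .nil)))))) (.g (nat_lit 1) (.e (nat_lit 191065) (nat_lit 0) .nil) .nil))) 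
(.lf (nat_lit 509602) (.g (nat_lit 409) (.e (nat_lit 172106) (nat_lit 10) (.e (nat_lit 434289) (nat_lit 43) (.e (nat_lit 696344) (nat_lit 8) .nil))) (.g (nat_lit 0) (.e (nat_lit 192956) (nat_lit 0) .nil) .nil)))) (.nd (nat_lit 9) 
(.lf (nat_lit 509346) (.g (nat_lit 2540) (.e (nat_lit 172097) (nat_lit 9) (.e (nat_lit 426140) (nat_lit 3) (.e (nat_lit 204845) (nat_lit 24) (.e (nat_lit 319530) (nat_lit 16) (.e (nat_lit 286727) (nat_lit 0) .nil))))) (.g (nat_lit 0) (.e (nat_lit 192256) (nat_lit 0) .nil) .nil))) 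
(.lf (nat_lit 509858) (.g (nat_lit 2315) (.e (nat_lit 172113) (nat_lit 10) (.e (nat_lit 434245) (nat_lit 28) (.e (nat_lit 573471) (nat_lit 11) (.e (nat_lit 16388) (nat_lit 0) (.e (nat_lit 7548) (nat_lit 402) .nil))))) (.g (nat_lit 0) (.e (nat_lit 193429) (nat_lit 0) .nil) .nil)))))) (.nd (nat_lit 7) (.nd (nat_lit 8) (.nd (nat_lit 9) 
(.lf (nat_lit 509026) (.g (nat_lit 957) (.e (nat_lit 172080) (nat_lit 7) (.e (nat_lit 409638) (nat_lit 15) (.e (nat_lit 278567) (nat_lit 16) (.e (nat_lit 286756) (nat_lit 10) (.e (nat_lit 344157) (nat_lit 36) (.e (nat_lit 638999) (nat_lit 8) .nil)))))) (.g (nat_lit 1) (.e (nat_lit 190886) (nat_lit 0) .nil) .nil))) 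
(.lf (nat_lit 509538) (.g (nat_lit 2347) (.e (nat_lit 172106) (nat_lit 10) (.e (nat_lit 434244) (nat_lit 28) (.e (nat_lit 573471) (nat_lit 11) (.e (nat_lit 16443) (nat_lit 9) .nil)))) (.g (nat_lit 0) (.e (nat_lit 192756) (nat_lit 0) .nil) .nil)))) (.nd (nat_lit 9) 
(.lf (nat_lit 509282) (.g (nat_lit 1016) (.e (nat_lit 172095) (nat_lit 9) (.e (nat_lit 426125) (nat_lit 2) (.e (nat_lit 196700) (nat_lit 22) .nil))) (.g (nat_lit 0) (.e (nat_lit 192062) (nat_lit 0) .nil) .nil))) 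
(.lf (nat_lit 509794) (.g (nat_lit 2120) (.e (nat_lit 172113) (nat_lit 10) (.e (nat_lit 434231) (nat_lit 23) (.e (nat_lit 532569) (nat_lit 16) (.e (nat_lit 401414) (nat_lit 0) .nil)))) (.g (nat_lit 0) (.e (nat_lit 193333) (nat_lit 0) .nil) .nil))))) (.nd (nat_lit 8) (.nd (nat_lit 9) 
(.lf (nat_lit 509154) (.g (nat_lit 986) (.e (nat_lit 172082) (nat_lit 7) (.e (nat_lit 409646) (nat_lit 18) (.e (nat_lit 303151) (nat_lit 27) .nil))) (.g (nat_lit 0) (.e (nat_lit 191704) (nat_lit 0) .nil) .nil))) 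
(.lf (nat_lit 509666) (.g (nat_lit 2754) (.e (nat_lit 172111) (nat_lit 10) (.e (nat_lit 434247) (nat_lit 28) (.e (nat_lit 573477) (nat_lit 12) (.e (nat_lit 57574) (nat_lit 55) (.e (nat_lit 778466) (nat_lit 11) (.e (nat_lit 24603) (nat_lit 2) (.e (nat_lit 90169) (nat_lit 13) .nil))))))) (.g (nat_lit 1) (.e (nat_lit 193064) (nat_lit 0) .nil) .nil)))) (.nd (nat_lit 9) 
(.lf (nat_lit 509410) (.g (nat_lit 2233) (.e (nat_lit 172105) (nat_lit 10) (.e (nat_lit 434248) (nat_lit 28) (.e (nat_lit 573469) (nat_lit 11) (.e (nat_lit 16461) (nat_lit 12) (.e (nat_lit 475185) (nat_lit 29) .nil))))) (.g (nat_lit 0) (.e (nat_lit 192347) (nat_lit 0) .nil) .nil))) 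
(.lf (nat_lit 509922) (.g (nat_lit 2269) (.e (nat_lit 172113) (nat_lit 10) (.e (nat_lit 434248) (nat_lit 28) (.e (nat_lit 573451) (nat_lit 9) (.e (nat_lit 359) (nat_lit 30) .nil)))) (.g (nat_lit 0) (.e (nat_lit 193534) (nat_lit 0) .nil) .nil)))))))) (.nd (nat_lit 5) (.nd (nat_lit 6) (.nd (nat_lit 7) (.nd (nat_lit 8) (.nd (nat_lit 9) 
(.lf (nat_lit 508946) (.g (nat_lit 1060) (.e (nat_lit 172079) (nat_lit 7) (.e (nat_lit 409645) (nat_lit 18) (.e (nat_lit 303135) (nat_lit 10) (.e (nat_lit 434276) (nat_lit 39) (.e (nat_lit 663580) (nat_lit 9) .nil))))) (.g (nat_lit 0) (.e (nat_lit 190563) (nat_lit 0) .nil) .nil))) 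
(.lf (nat_lit 509458) (.g (nat_lit 4408) (.e (nat_lit 172106) (nat_lit 10) (.e (nat_lit 434231) (nat_lit 23) (.e (nat_lit 532481) (nat_lit 0) (.e (nat_lit 6626) (nat_lit 357) (.e (nat_lit 2887) (nat_lit 184) (.e (nat_lit 426412) (nat_lit 15) (.e (nat_lit 1856) (nat_lit 124) (.e (nat_lit 557100) (nat_lit 13) .nil)))))))) (.g (nat_lit 1) (.e (nat_lit 192490) (nat_lit 0) .nil) .nil)))) 
(.nd (nat_lit 9) 
(.lf (nat_lit 509202) (.g (nat_lit 3471) (.e (nat_lit 172085) (nat_lit 9) (.e (nat_lit 426140) (nat_lit 3) (.e (nat_lit 204846) (nat_lit 24) (.e (nat_lit 319530) (nat_lit 16) (.e (nat_lit 286733) (nat_lit 2) .nil))))) (.g (nat_lit 0) (.e (nat_lit 191906) (nat_lit 0) .nil) .nil))) 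
(.lf (nat_lit 509714) (.g (nat_lit 1559) (.e (nat_lit 172112) (nat_lit 10) (.e (nat_lit 434272) (nat_lit 38) (.e (nat_lit 655378) (nat_lit 4) (.e (nat_lit 172088) (nat_lit 9) .nil)))) (.g (nat_lit 0) (.e (nat_lit 193162) (nat_lit 0) .nil) .nil))))) (.nd (nat_lit 8) (.nd (nat_lit 9) 
(.lf (nat_lit 509074) (.g (nat_lit 379) (.e (nat_lit 172081) (nat_lit 7) (.e (nat_lit 409642) (nat_lit 17) (.e (nat_lit 294974) (nat_lit 29) .nil))) (.g (nat_lit 0) (.e (nat_lit 191015) (nat_lit 0) .nil) .nil))) 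
(.lf (nat_lit 509586) (.g (nat_lit 1885) (.e (nat_lit 172106) (nat_lit 10) (.e (nat_lit 434288) (nat_lit 43) (.e (nat_lit 696343) (nat_lit 8) (.e (nat_lit 172106) (nat_lit 10) (.e (nat_lit 434288) (nat_lit 43) (.e (nat_lit 696344) (nat_lit 8) .nil)))))) (.g (nat_lit 1) (.e (nat_lit 192918) (nat_lit 0) .nil) .nil)))) (.nd (nat_lit 9) 
(.lf (nat_lit 509330) (.g (nat_lit 2614) (.e (nat_lit 172097) (nat_lit 9) (.e (nat_lit 426125) (nat_lit 2) (.e (nat_lit 196666) (nat_lit 13) (.e (nat_lit 65540) (nat_lit 0) .nil)))) (.g (nat_lit 0) (.e (nat_lit 192232) (nat_lit 0) .nil) .nil))) 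
(.lf (nat_lit 509842) (.g (nat_lit 3595) (.e (nat_lit 172113) (nat_lit 10) (.e (nat_lit 434245) (nat_lit 28) (.e (nat_lit 573450) (nat_lit 9) (.e (nat_lit 375) (nat_lit 32) (.e (nat_lit 426025) (nat_lit 0) (.e (nat_lit 7555) (nat_lit 402) (.e (nat_lit 1235) (nat_lit 91) (.e (nat_lit 90170) (nat_lit 13) .nil)))))))) (.g (nat_lit 1) (.e (nat_lit 193398) (nat_lit 0) .nil) .nil)))))) 
(.nd (nat_lit 7) (.nd (nat_lit 8) (.nd (nat_lit 9) 
(.lf (nat_lit 509010) (.g (nat_lit 2495) (.e (nat_lit 172079) (nat_lit 7) (.e (nat_lit 409651) (nat_lit 19) (.e (nat_lit 311345) (nat_lit 14) (.e (nat_lit 491560) (nat_lit 10) (.e (nat_lit 344157) (nat_lit 36) (.e (nat_lit 638999) (nat_lit 8) .nil)))))) (.g (nat_lit 1) (.e (nat_lit 190858) (nat_lit 0) .nil) .nil))) 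
(.lf (nat_lit 509522) (.g (nat_lit 1468) (.e (nat_lit 172106) (nat_lit 10) (.e (nat_lit 434244) (nat_lit 28) (.e (nat_lit 573450) (nat_lit 9) (.e (nat_lit 971) (nat_lit 81) .nil)))) (.g (nat_lit 0) (.e (nat_lit 192708) (nat_lit 0) .nil) .nil)))) (.nd (nat_lit 9) 
(.lf (nat_lit 509266) (.g (nat_lit 2227) (.e (nat_lit 172094) (nat_lit 9) (.e (nat_lit 426140) (nat_lit 3) (.e (nat_lit 204846) (nat_lit 24) (.e (nat_lit 319504) (nat_lit 10) .nil)))) (.g (nat_lit 0) (.e (nat_lit 192026) (nat_lit 0) .nil) .nil))) 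
(.lf (nat_lit 509778) (.g (nat_lit 3882) (.e (nat_lit 172113) (nat_lit 10) (.e (nat_lit 434231) (nat_lit 23) (.e (nat_lit 532523) (nat_lit 7) (.e (nat_lit 319506) (nat_lit 10) (.e (nat_lit 5371) (nat_lit 298) .nil))))) (.g (nat_lit 0) (.e (nat_lit 193317) (nat_lit 0) .nil) .nil))))) (.nd (nat_lit 8) (.nd (nat_lit 9) 
(.lf (nat_lit 509138) (.g (nat_lit 2859) (.e (nat_lit 172082) (nat_lit 7) (.e (nat_lit 409646) (nat_lit 18) (.e (nat_lit 303143) (nat_lit 12) (.e (nat_lit 475199) (nat_lit 40) (.e (nat_lit 704619) (nat_lit 9) .nil))))) (.g (nat_lit 0) (.e (nat_lit 191562) (nat_lit 0) .nil) .nil))) 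
(.lf (nat_lit 509650) (.g (nat_lit 1759) (.e (nat_lit 172107) (nat_lit 10) (.e (nat_lit 434289) (nat_lit 43) (.e (nat_lit 696346) (nat_lit 10) (.e (nat_lit 188440) (nat_lit 20) (.e (nat_lit 3467) (nat_lit 217) .nil))))) (.g (nat_lit 0) (.e (nat_lit 193046) (nat_lit 0) .nil) .nil)))) (.nd (nat_lit 9) 
(.lf (nat_lit 509394) (.g (nat_lit 2385) (.e (nat_lit 172105) (nat_lit 10) (.e (nat_lit 434247) (nat_lit 28) (.e (nat_lit 573469) (nat_lit 11) (.e (nat_lit 16438) (nat_lit 9) (.e (nat_lit 426402) (nat_lit 15) .nil))))) (.g (nat_lit 0) (.e (nat_lit 192331) (nat_lit 0) .nil) .nil))) 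
(.lf (nat_lit 509906) (.g (nat_lit 2002) (.e (nat_lit 172113) (nat_lit 10) (.e (nat_lit 434247) (nat_lit 28) (.e (nat_lit 573475) (nat_lit 12) (.e (nat_lit 57571) (nat_lit 54) (.e (nat_lit 770072) (nat_lit 8) .nil))))) (.g (nat_lit 0) (.e (nat_lit 193516) (nat_lit 0) .nil) .nil))))))) (.nd (nat_lit 6) (.nd (nat_lit 7) (.nd (nat_lit 8) (.nd (nat_lit 9) 
(.lf (nat_lit 508978) (.g (nat_lit 2311) (.e (nat_lit 172079) (nat_lit 7) (.e (nat_lit 409645) (nat_lit 18) (.e (nat_lit 303143) (nat_lit 12) (.e (nat_lit 475212) (nat_lit 42) (.e (nat_lit 720911) (nat_lit 20) .nil))))) (.g (nat_lit 0) (.e (nat_lit 190749) (nat_lit 0) .nil) .nil))) 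
(.lf (nat_lit 509490) (.g (nat_lit 2862) (.e (nat_lit 172106) (nat_lit 10) (.e (nat_lit 434231) (nat_lit 23) (.e (nat_lit 532523) (nat_lit 7) (.e (nat_lit 319534) (nat_lit 16) (.e (nat_lit 294656) (nat_lit 2) (.e (nat_lit 90170) (nat_lit 13) .nil)))))) (.g (nat_lit 1) (.e (nat_lit 192532) (nat_lit 0) .nil) .nil)))) (.nd (nat_lit 9) 
(.lf (nat_lit 509234) (.g (nat_lit 987) (.e (nat_lit 172090) (nat_lit 9) (.e (nat_lit 426140) (nat_lit 3) (.e (nat_lit 204846) (nat_lit 24) .nil))) (.g (nat_lit 0) (.e (nat_lit 191959) (nat_lit 0) .nil) .nil))) 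
(.lf (nat_lit 509746) (.g (nat_lit 1441) (.e (nat_lit 172113) (nat_lit 10) (.e (nat_lit 434209) (nat_lit 18) (.e (nat_lit 5548) (nat_lit 306) (.e (nat_lit 2650) (nat_lit 166) .nil)))) (.g (nat_lit 0) (.e (nat_lit 193277) (nat_lit 0) .nil) .nil))))) (.nd (nat_lit 8) (.nd (nat_lit 9) 
(.lf (nat_lit 509106) (.g (nat_lit 1367) (.e (nat_lit 172082) (nat_lit 7) (.e (nat_lit 409646) (nat_lit 18) (.e (nat_lit 303127) (nat_lit 9) (.e (nat_lit 426112) (nat_lit 1) .nil)))) (.g (nat_lit 0) (.e (nat_lit 191148) (nat_lit 0) .nil) .nil))) 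
(.lf (nat_lit 509618) (.g (nat_lit 1441) (.e (nat_lit 172107) (nat_lit 10) (.e (nat_lit 434209) (nat_lit 18) (.e (nat_lit 5548) (nat_lit 306) (.e (nat_lit 2650) (nat_lit 166) .nil)))) (.g (nat_lit 0) (.e (nat_lit 192982) (nat_lit 0) .nil) .nil)))) (.nd (nat_lit 9) 
(.lf (nat_lit 509362) (.g (nat_lit 3013) (.e (nat_lit 172097) (nat_lit 9) (.e (nat_lit 426140) (nat_lit 3) (.e (nat_lit 204846) (nat_lit 24) (.e (nat_lit 319533) (nat_lit 16) (.e (nat_lit 286732) (nat_lit 2) (.e (nat_lit 90170) (nat_lit 13) .nil)))))) (.g (nat_lit 1) (.e (nat_lit 192272) (nat_lit 0) .nil) .nil))) 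
(.lf (nat_lit 509874) (.g (nat_lit 3635) (.e (nat_lit 172113) (nat_lit 10) (.e (nat_lit 434245) (nat_lit 28) (.e (nat_lit 573471) (nat_lit 11) (.e (nat_lit 16433) (nat_lit 9) (.e (nat_lit 426420) (nat_lit 15) .nil))))) (.g (nat_lit 0) (.e (nat_lit 193474) (nat_lit 0) .nil) .nil)))))) (.nd (nat_lit 7) (.nd (nat_lit 8) (.nd (nat_lit 9) 
(.lf (nat_lit 509042) (.g (nat_lit 553) (.e (nat_lit 172081) (nat_lit 7) (.e (nat_lit 409617) (nat_lit 10) (.e (nat_lit 632) (nat_lit 50) .nil))) (.g (nat_lit 0) (.e (nat_lit 190924) (nat_lit 0) .nil) .nil))) 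
(.lf (nat_lit 509554) (.g (nat_lit 3582) (.e (nat_lit 172106) (nat_lit 10) (.e (nat_lit 434248) (nat_lit 28) (.e (nat_lit 573471) (nat_lit 11) (.e (nat_lit 16473) (nat_lit 14) (.e (nat_lit 491535) (nat_lit 2) .nil))))) (.g (nat_lit 0) (.e (nat_lit 192775) (nat_lit 0) .nil) .nil)))) (.nd (nat_lit 9) 
(.lf (nat_lit 509298) (.g (nat_lit 2160) (.e (nat_lit 172100) (nat_lit 9) (.e (nat_lit 426412) (nat_lit 15) (.e (nat_lit 1856) (nat_lit 124) (.e (nat_lit 557103) (nat_lit 14) .nil)))) (.g (nat_lit 0) (.e (nat_lit 192084) (nat_lit 0) .nil) .nil))) 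
(.lf (nat_lit 509810) (.g (nat_lit 2767) (.e (nat_lit 172113) (nat_lit 10) (.e (nat_lit 434242) (nat_lit 28) (.e (nat_lit 573474) (nat_lit 12) (.e (nat_lit 57348) (nat_lit 0) (.e (nat_lit 6850) (nat_lit 371) .nil))))) (.g (nat_lit 0) (.e (nat_lit 193362) (nat_lit 0) .nil) .nil))))) (.nd (nat_lit 8) (.nd (nat_lit 9) 
(.lf (nat_lit 509170) (.g (nat_lit 812) (.e (nat_lit 172082) (nat_lit 7) (.e (nat_lit 409649) (nat_lit 18) (.e (nat_lit 303135) (nat_lit 10) .nil))) (.g (nat_lit 0) (.e (nat_lit 191770) (nat_lit 0) .nil) .nil))) 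
(.lf (nat_lit 509682) (.g (nat_lit 638) (.e (nat_lit 172112) (nat_lit 10) (.e (nat_lit 434209) (nat_lit 18) (.e (nat_lit 5548) (nat_lit 306) .nil))) (.g (nat_lit 0) (.e (nat_lit 193082) (nat_lit 0) .nil) .nil)))) (.nd (nat_lit 9) 
(.lf (nat_lit 509426) (.g (nat_lit 754) (.e (nat_lit 172105) (nat_lit 10) (.e (nat_lit 434271) (nat_lit 38) (.e (nat_lit 655380) (nat_lit 6) (.e (nat_lit 188427) (nat_lit 20) .nil)))) (.g (nat_lit 0) (.e (nat_lit 192365) (nat_lit 0) .nil) .nil))) 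
(.lf (nat_lit 509938) (.g (nat_lit 2613) (.e (nat_lit 172113) (nat_lit 10) (.e (nat_lit 434248) (nat_lit 28) (.e (nat_lit 573471) (nat_lit 11) (.e (nat_lit 16386) (nat_lit 0) (.e (nat_lit 7490) (nat_lit 402) .nil))))) (.g (nat_lit 0) (.e (nat_lit 193554) (nat_lit 0) .nil) .nil))))))))) (.nd (nat_lit 4) (.nd (nat_lit 5) (.nd (nat_lit 6) (.nd (nat_lit 7) (.nd (nat_lit 8) (.nd (nat_lit 9) 
(.lf (nat_lit 508938) (.g (nat_lit 1060) (.e (nat_lit 172079) (nat_lit 7) (.e (nat_lit 409645) (nat_lit 18) (.e (nat_lit 303127) (nat_lit 9) (.e (nat_lit 426449) (nat_lit 20) .nil)))) (.g (nat_lit 0) (.e (nat_lit 190433) (nat_lit 0) .nil) .nil))) 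
(.lf (nat_lit 509450) (.g (nat_lit 587) (.e (nat_lit 172106) (nat_lit 10) (.e (nat_lit 434209) (nat_lit 18) (.e (nat_lit 6425) (nat_lit 342) .nil))) (.g (nat_lit 0) (.e (nat_lit 192463) (nat_lit 0) .nil) .nil)))) (.nd (nat_lit 9) 
(.lf (nat_lit 509194) (.g (nat_lit 952) (.e (nat_lit 172085) (nat_lit 9) (.e (nat_lit 426125) (nat_lit 2) (.e (nat_lit 196686) (nat_lit 18) .nil))) (.g (nat_lit 0) (.e (nat_lit 191898) (nat_lit 0) .nil) .nil))) 
(.lf (nat_lit 509706) (.g (nat_lit 1052) (.e (nat_lit 172112) (nat_lit 10) (.e (nat_lit 434268) (nat_lit 36) (.e (nat_lit 639020) (nat_lit 16) (.e (nat_lit 65620) (nat_lit 10) .nil)))) (.g (nat_lit 0) (.e (nat_lit 193136) (nat_lit 0) .nil) .nil))))) (.nd (nat_lit 8) (.nd (nat_lit 9) 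
(.lf (nat_lit 509066) (.g (nat_lit 1905) (.e (nat_lit 172081) (nat_lit 7) (.e (nat_lit 409649) (nat_lit 18) (.e (nat_lit 303140) (nat_lit 10) (.e (nat_lit 434200) (nat_lit 18) .nil)))) (.g (nat_lit 0) (.e (nat_lit 190989) (nat_lit 0) .nil) .nil))) 
(.lf (nat_lit 509578) (.g (nat_lit 1133) (.e (nat_lit 172106) (nat_lit 10) (.e (nat_lit 434271) (nat_lit 38) (.e (nat_lit 655378) (nat_lit 4) (.e (nat_lit 172095) (nat_lit 9) .nil)))) (.g (nat_lit 0) (.e (nat_lit 192829) (nat_lit 0) .nil) .nil)))) (.nd (nat_lit 9) 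
(.lf (nat_lit 509322) (.g (nat_lit 2035) (.e (nat_lit 172097) (nat_lit 9) (.e (nat_lit 426125) (nat_lit 2) (.e (nat_lit 196615) (nat_lit 0) .nil))) (.g (nat_lit 0) (.e (nat_lit 192206) (nat_lit 0) .nil) .nil))) 
(.lf (nat_lit 509834) (.g (nat_lit 660) (.e (nat_lit 172113) (nat_lit 10) (.e (nat_lit 434244) (nat_lit 28) (.e (nat_lit 573471) (nat_lit 11) .nil))) (.g (nat_lit 0) (.e (nat_lit 193388) (nat_lit 0) .nil) .nil)))))) (.nd (nat_lit 7) (.nd (nat_lit 8) (.nd (nat_lit 9) 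
(.lf (nat_lit 509002) (.g (nat_lit 2296) (.e (nat_lit 172079) (nat_lit 7) (.e (nat_lit 409648) (nat_lit 18) (.e (nat_lit 303137) (nat_lit 10) (.e (nat_lit 434275) (nat_lit 39) (.e (nat_lit 663572) (nat_lit 9) .nil))))) (.g (nat_lit 0) (.e (nat_lit 190839) (nat_lit 0) .nil) .nil))) 
(.lf (nat_lit 509514) (.g (nat_lit 2373) (.e (nat_lit 172106) (nat_lit 10) (.e (nat_lit 434238) (nat_lit 25) (.e (nat_lit 548913) (nat_lit 18) (.e (nat_lit 172048) (nat_lit 0) (.e (nat_lit 7554) (nat_lit 402) .nil))))) (.g (nat_lit 0) (.e (nat_lit 192686) (nat_lit 0) .nil) .nil)))) (.nd (nat_lit 9) 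
(.lf (nat_lit 509258) (.g (nat_lit 3860) (.e (nat_lit 172094) (nat_lit 9) (.e (nat_lit 426125) (nat_lit 2) (.e (nat_lit 196666) (nat_lit 13) (.e (nat_lit 65573) (nat_lit 4) .nil)))) (.g (nat_lit 0) (.e (nat_lit 192012) (nat_lit 0) .nil) .nil))) 
(.lf (nat_lit 509770) (.g (nat_lit 2915) (.e (nat_lit 172113) (nat_lit 10) (.e (nat_lit 434231) (nat_lit 23) (.e (nat_lit 532523) (nat_lit 7) (.e (nat_lit 319502) (nat_lit 10) .nil)))) (.g (nat_lit 0) (.e (nat_lit 193309) (nat_lit 0) .nil) .nil))))) (.nd (nat_lit 8) (.nd (nat_lit 9) 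
(.lf (nat_lit 509130) (.g (nat_lit 3847) (.e (nat_lit 172082) (nat_lit 7) (.e (nat_lit 409646) (nat_lit 18) (.e (nat_lit 303140) (nat_lit 10) (.e (nat_lit 434275) (nat_lit 39) (.e (nat_lit 663580) (nat_lit 9) (.e (nat_lit 2478) (nat_lit 157) (.e (nat_lit 3464) (nat_lit 217) (.e (nat_lit 696343) (nat_lit 8) .nil)))))))) (.g (nat_lit 1) (.e (nat_lit 191439) (nat_lit 0) .nil) .nil))) 
(.lf (nat_lit 509642) (.g (nat_lit 3340) (.e (nat_lit 172107) (nat_lit 10) (.e (nat_lit 434289) (nat_lit 43) (.e (nat_lit 696343) (nat_lit 8) (.e (nat_lit 172113) (nat_lit 10) (.e (nat_lit 434289) (nat_lit 43) (.e (nat_lit 696344) (nat_lit 8) .nil)))))) (.g (nat_lit 1) (.e (nat_lit 193034) (nat_lit 0) .nil) .nil)))) (.nd (nat_lit 9) 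
(.lf (nat_lit 509386) (.g (nat_lit 1275) (.e (nat_lit 179968) (nat_lit 9) (.e (nat_lit 426125) (nat_lit 2) (.e (nat_lit 204544) (nat_lit 18) .nil))) (.g (nat_lit 0) (.e (nat_lit 192310) (nat_lit 0) .nil) .nil))) 
(.lf (nat_lit 509898) (.g (nat_lit 4198) (.e (nat_lit 172113) (nat_lit 10) (.e (nat_lit 434247) (nat_lit 28) (.e (nat_lit 573457) (nat_lit 9) (.e (nat_lit 430) (nat_lit 32) (.e (nat_lit 426012) (nat_lit 0) (.e (nat_lit 7490) (nat_lit 402) (.e (nat_lit 1239) (nat_lit 91) (.e (nat_lit 90170) (nat_lit 13) .nil)))))))) (.g (nat_lit 1) (.e (nat_lit 193507) (nat_lit 0) .nil) .nil))))))) 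
(.nd (nat_lit 6) (.nd (nat_lit 7) (.nd (nat_lit 8) (.nd (nat_lit 9) 
(.lf (nat_lit 508970) (.g (nat_lit 3164) (.e (nat_lit 172079) (nat_lit 7) (.e (nat_lit 409645) (nat_lit 18) (.e (nat_lit 303143) (nat_lit 12) (.e (nat_lit 475199) (nat_lit 40) (.e (nat_lit 704853) (nat_lit 17) .nil))))) (.g (nat_lit 0) (.e (nat_lit 190712) (nat_lit 0) .nil) .nil))) 
(.lf (nat_lit 509482) (.g (nat_lit 3115) (.e (nat_lit 172106) (nat_lit 10) (.e (nat_lit 434231) (nat_lit 23) (.e (nat_lit 532523) (nat_lit 7) (.e (nat_lit 319504) (nat_lit 10) (.e (nat_lit 5294) (nat_lit 298) .nil))))) (.g (nat_lit 0) (.e (nat_lit 192522) (nat_lit 0) .nil) .nil)))) (.nd (nat_lit 9) 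
(.lf (nat_lit 509226) (.g (nat_lit 617) (.e (nat_lit 172089) (nat_lit 9) (.e (nat_lit 426025) (nat_lit 0) (.e (nat_lit 3397) (nat_lit 211) .nil))) (.g (nat_lit 0) (.e (nat_lit 191949) (nat_lit 0) .nil) .nil))) 
(.lf (nat_lit 509738) (.g (nat_lit 2533) (.e (nat_lit 172113) (nat_lit 10) (.e (nat_lit 434208) (nat_lit 18) (.e (nat_lit 6255) (nat_lit 337) (.e (nat_lit 2651) (nat_lit 166) (.e (nat_lit 188440) (nat_lit 20) (.e (nat_lit 3469) (nat_lit 217) (.e (nat_lit 696344) (nat_lit 8) .nil))))))) (.g (nat_lit 1) (.e (nat_lit 193240) (nat_lit 0) .nil) .nil))))) (.nd (nat_lit 8) (.nd (nat_lit 9) 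
(.lf (nat_lit 509098) (.g (nat_lit 890) (.e (nat_lit 172082) (nat_lit 7) (.e (nat_lit 409646) (nat_lit 18) (.e (nat_lit 303105) (nat_lit 0) .nil))) (.g (nat_lit 0) (.e (nat_lit 191076) (nat_lit 0) .nil) .nil))) 
(.lf (nat_lit 509610) (.g (nat_lit 2100) (.e (nat_lit 172106) (nat_lit 10) (.e (nat_lit 434289) (nat_lit 43) (.e (nat_lit 696344) (nat_lit 8) (.e (nat_lit 172113) (nat_lit 10) (.e (nat_lit 434288) (nat_lit 43) .nil))))) (.g (nat_lit 0) (.e (nat_lit 192969) (nat_lit 0) .nil) .nil)))) (.nd (nat_lit 9) 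
(.lf (nat_lit 509354) (.g (nat_lit 3947) (.e (nat_lit 172097) (nat_lit 9) (.e (nat_lit 426140) (nat_lit 3) (.e (nat_lit 204845) (nat_lit 24) (.e (nat_lit 319531) (nat_lit 16) (.e (nat_lit 286733) (nat_lit 2) (.e (nat_lit 90169) (nat_lit 13) .nil)))))) (.g (nat_lit 1) (.e (nat_lit 192264) (nat_lit 0) .nil) .nil))) 
(.lf (nat_lit 509866) (.g (nat_lit 3265) (.e (nat_lit 172113) (nat_lit 10) (.e (nat_lit 434245) (nat_lit 28) (.e (nat_lit 573471) (nat_lit 11) (.e (nat_lit 16433) (nat_lit 9) (.e (nat_lit 426357) (nat_lit 15) .nil))))) (.g (nat_lit 0) (.e (nat_lit 193466) (nat_lit 0) .nil) .nil)))))) (.nd (nat_lit 7) (.nd (nat_lit 8) (.nd (nat_lit 9) 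
(.lf (nat_lit 509034) (.g (nat_lit 368) (.e (nat_lit 172080) (nat_lit 7) (.e (nat_lit 409642) (nat_lit 17) (.e (nat_lit 294974) (nat_lit 29) .nil))) (.g (nat_lit 0) (.e (nat_lit 190913) (nat_lit 0) .nil) .nil))) 
(.lf (nat_lit 509546) (.g (nat_lit 3293) (.e (nat_lit 172106) (nat_lit 10) (.e (nat_lit 434244) (nat_lit 28) (.e (nat_lit 573477) (nat_lit 12) (.e (nat_lit 57574) (nat_lit 55) (.e (nat_lit 778465) (nat_lit 11) (.e (nat_lit 24604) (nat_lit 2) (.e (nat_lit 90170) (nat_lit 13) .nil))))))) (.g (nat_lit 1) (.e (nat_lit 192766) (nat_lit 0) .nil) .nil)))) (.nd (nat_lit 9) 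
(.lf (nat_lit 509290) (.g (nat_lit 100) (.e (nat_lit 172095) (nat_lit 9) (.e (nat_lit 426513) (nat_lit 27) (.e (nat_lit 336230) (nat_lit 14) .nil))) (.g (nat_lit 0) (.e (nat_lit 192072) (nat_lit 0) .nil) .nil))) 
(.lf (nat_lit 509802) (.g (nat_lit 2466) (.e (nat_lit 172113) (nat_lit 10) (.e (nat_lit 434242) (nat_lit 28) (.e (nat_lit 573471) (nat_lit 11) (.e (nat_lit 16388) (nat_lit 0) (.e (nat_lit 7545) (nat_lit 402) .nil))))) (.g (nat_lit 0) (.e (nat_lit 193351) (nat_lit 0) .nil) .nil))))) (.nd (nat_lit 8) (.nd (nat_lit 9) 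
(.lf (nat_lit 509162) (.g (nat_lit 2091) (.e (nat_lit 172082) (nat_lit 7) (.e (nat_lit 409646) (nat_lit 18) (.e (nat_lit 311040) (nat_lit 35) (.e (nat_lit 401454) (nat_lit 12) (.e (nat_lit 475203) (nat_lit 40) (.e (nat_lit 712448) (nat_lit 4) .nil)))))) (.g (nat_lit 1) (.e (nat_lit 191729) (nat_lit 0) .nil) .nil))) 
(.lf (nat_lit 509674) (.g (nat_lit 1877) (.e (nat_lit 172111) (nat_lit 10) (.e (nat_lit 434248) (nat_lit 28) (.e (nat_lit 573475) (nat_lit 12) (.e (nat_lit 57574) (nat_lit 55) (.e (nat_lit 778466) (nat_lit 11) .nil))))) (.g (nat_lit 0) (.e (nat_lit 193072) (nat_lit 0) .nil) .nil)))) (.nd (nat_lit 9) 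
(.lf (nat_lit 509418) (.g (nat_lit 1728) (.e (nat_lit 172105) (nat_lit 10) (.e (nat_lit 434248) (nat_lit 28) (.e (nat_lit 573471) (nat_lit 11) (.e (nat_lit 16461) (nat_lit 12) .nil)))) (.g (nat_lit 0) (.e (nat_lit 192355) (nat_lit 0) .nil) .nil))) 
(.lf (nat_lit 509930) (.g (nat_lit 3866) (.e (nat_lit 172113) (nat_lit 10) (.e (nat_lit 434248) (nat_lit 28) (.e (nat_lit 573469) (nat_lit 11) (.e (nat_lit 16473) (nat_lit 14) (.e (nat_lit 491535) (nat_lit 2) (.e (nat_lit 90170) (nat_lit 13) .nil)))))) (.g (nat_lit 1) (.e (nat_lit 193546) (nat_lit 0) .nil) .nil)))))))) 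
(.nd (nat_lit 5) (.nd (nat_lit 6) (.nd (nat_lit 7) (.nd (nat_lit 8) (.nd (nat_lit 9) 
(.lf (nat_lit 508954) (.g (nat_lit 722) (.e (nat_lit 172079) (nat_lit 7) (.e (nat_lit 409645) (nat_lit 18) (.e (nat_lit 303139) (nat_lit 10) .nil))) (.g (nat_lit 0) (.e (nat_lit 190578) (nat_lit 0) .nil) .nil))) 
(.lf (nat_lit 509466) (.g (nat_lit 1027) (.e (nat_lit 172106) (nat_lit 10) (.e (nat_lit 434231) (nat_lit 23) (.e (nat_lit 532494) (nat_lit 0) .nil))) (.g (nat_lit 0) (.e (nat_lit 192505) (nat_lit 0) .nil) .nil)))) (.nd (nat_lit 9) 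
(.lf (nat_lit 509210) (.g (nat_lit 2115) (.e (nat_lit 172085) (nat_lit 9) (.e (nat_lit 426482) (nat_lit 27) (.e (nat_lit 336060) (nat_lit 7) (.e (nat_lit 319534) (nat_lit 16) (.e (nat_lit 286723) (nat_lit 0) .nil))))) (.g (nat_lit 0) (.e (nat_lit 191916) (nat_lit 0) .nil) .nil))) 
(.lf (nat_lit 509722) (.g (nat_lit 2045) (.e (nat_lit 172112) (nat_lit 10) (.e (nat_lit 434289) (nat_lit 43) (.e (nat_lit 696344) (nat_lit 8) (.e (nat_lit 172106) (nat_lit 10) (.e (nat_lit 434287) (nat_lit 43) (.e (nat_lit 696344) (nat_lit 8) .nil)))))) (.g (nat_lit 1) (.e (nat_lit 193183) (nat_lit 0) .nil) .nil))))) (.nd (nat_lit 8) (.nd (nat_lit 9) 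
(.lf (nat_lit 509082) (.g (nat_lit 2118) (.e (nat_lit 172082) (nat_lit 7) (.e (nat_lit 409612) (nat_lit 10) (.e (nat_lit 934) (nat_lit 76) (.e (nat_lit 786480) (nat_lit 29) (.e (nat_lit 352269) (nat_lit 7) (.e (nat_lit 245776) (nat_lit 4) .nil)))))) (.g (nat_lit 1) (.e (nat_lit 191037) (nat_lit 0) .nil) .nil))) 
(.lf (nat_lit 509594) (.g (nat_lit 2715) (.e (nat_lit 172106) (nat_lit 10) (.e (nat_lit 434288) (nat_lit 43) (.e (nat_lit 696344) (nat_lit 8) (.e (nat_lit 172113) (nat_lit 10) (.e (nat_lit 434289) (nat_lit 43) (.e (nat_lit 696343) (nat_lit 8) .nil)))))) (.g (nat_lit 1) (.e (nat_lit 192930) (nat_lit 0) .nil) .nil)))) (.nd (nat_lit 9) 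
(.lf (nat_lit 509338) (.g (nat_lit 589) (.e (nat_lit 172097) (nat_lit 9) (.e (nat_lit 426125) (nat_lit 2) (.e (nat_lit 204544) (nat_lit 18) .nil))) (.g (nat_lit 0) (.e (nat_lit 192240) (nat_lit 0) .nil) .nil))) 
(.lf (nat_lit 509850) (.g (nat_lit 2378) (.e (nat_lit 172113) (nat_lit 10) (.e (nat_lit 434245) (nat_lit 28) (.e (nat_lit 573458) (nat_lit 9) (.e (nat_lit 426) (nat_lit 32) (.e (nat_lit 426027) (nat_lit 0) (.e (nat_lit 7562) (nat_lit 402) (.e (nat_lit 1235) (nat_lit 91) (.e (nat_lit 90170) (nat_lit 13) .nil)))))))) (.g (nat_lit 1) (.e (nat_lit 193417) (nat_lit 0) .nil) .nil)))))) 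
(.nd (nat_lit 7) (.nd (nat_lit 8) (.nd (nat_lit 9) 
(.lf (nat_lit 509018) (.g (nat_lit 930) (.e (nat_lit 172080) (nat_lit 7) (.e (nat_lit 409638) (nat_lit 15) (.e (nat_lit 278566) (nat_lit 16) (.e (nat_lit 286754) (nat_lit 10) (.e (nat_lit 344153) (nat_lit 35) (.e (nat_lit 630801) (nat_lit 8) .nil)))))) (.g (nat_lit 1) (.e (nat_lit 190878) (nat_lit 0) .nil) .nil))) 
(.lf (nat_lit 509530) (.g (nat_lit 1876) (.e (nat_lit 172106) (nat_lit 10) (.e (nat_lit 434244) (nat_lit 28) (.e (nat_lit 573470) (nat_lit 11) (.e (nat_lit 16473) (nat_lit 14) (.e (nat_lit 499456) (nat_lit 2) .nil))))) (.g (nat_lit 0) (.e (nat_lit 192718) (nat_lit 0) .nil) .nil)))) (.nd (nat_lit 9) 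
(.lf (nat_lit 509274) (.g (nat_lit 2006) (.e (nat_lit 172094) (nat_lit 9) (.e (nat_lit 426140) (nat_lit 3) (.e (nat_lit 204846) (nat_lit 24) (.e (nat_lit 319534) (nat_lit 16) (.e (nat_lit 286728) (nat_lit 0) .nil))))) (.g (nat_lit 0) (.e (nat_lit 192036) (nat_lit 0) .nil) .nil))) 
(.lf (nat_lit 509786) (.g (nat_lit 1417) (.e (nat_lit 172113) (nat_lit 10) (.e (nat_lit 434231) (nat_lit 23) (.e (nat_lit 532525) (nat_lit 8) (.e (nat_lit 327703) (nat_lit 10) .nil)))) (.g (nat_lit 0) (.e (nat_lit 193325) (nat_lit 0) .nil) .nil))))) (.nd (nat_lit 8) (.nd (nat_lit 9) 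
(.lf (nat_lit 509146) (.g (nat_lit 2207) (.e (nat_lit 172082) (nat_lit 7) (.e (nat_lit 409646) (nat_lit 18) (.e (nat_lit 303143) (nat_lit 12) (.e (nat_lit 475212) (nat_lit 42) (.e (nat_lit 720911) (nat_lit 20) .nil))))) (.g (nat_lit 0) (.e (nat_lit 191640) (nat_lit 0) .nil) .nil))) 
(.lf (nat_lit 509658) (.g (nat_lit 2353) (.e (nat_lit 172110) (nat_lit 10) (.e (nat_lit 434248) (nat_lit 28) (.e (nat_lit 573471) (nat_lit 11) (.e (nat_lit 16469) (nat_lit 14) .nil)))) (.g (nat_lit 0) (.e (nat_lit 193054) (nat_lit 0) .nil) .nil)))) (.nd (nat_lit 9) 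
(.lf (nat_lit 509402) (.g (nat_lit 1311) (.e (nat_lit 172105) (nat_lit 10) (.e (nat_lit 434247) (nat_lit 28) (.e (nat_lit 573478) (nat_lit 12) (.e (nat_lit 57574) (nat_lit 55) (.e (nat_lit 778465) (nat_lit 11) (.e (nat_lit 24603) (nat_lit 2) (.e (nat_lit 90167) (nat_lit 13) .nil))))))) (.g (nat_lit 1) (.e (nat_lit 192339) (nat_lit 0) .nil) .nil))) 
(.lf (nat_lit 509914) (.g (nat_lit 2370) (.e (nat_lit 172113) (nat_lit 10) (.e (nat_lit 434247) (nat_lit 28) (.e (nat_lit 573478) (nat_lit 12) (.e (nat_lit 57574) (nat_lit 55) (.e (nat_lit 778465) (nat_lit 11) (.e (nat_lit 24603) (nat_lit 2) (.e (nat_lit 90166) (nat_lit 13) .nil))))))) (.g (nat_lit 1) (.e (nat_lit 193524) (nat_lit 0) .nil) .nil))))))) 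
(.nd (nat_lit 6) (.nd (nat_lit 7) (.nd (nat_lit 8) (.nd (nat_lit 9) 
(.lf (nat_lit 508986) (.g (nat_lit 1596) (.e (nat_lit 172079) (nat_lit 7) (.e (nat_lit 409645) (nat_lit 18) (.e (nat_lit 303146) (nat_lit 14) (.e (nat_lit 491559) (nat_lit 10) .nil)))) (.g (nat_lit 0) (.e (nat_lit 190782) (nat_lit 0) .nil) .nil))) 
(.lf (nat_lit 509498) (.g (nat_lit 5599) (.e (nat_lit 172106) (nat_lit 10) (.e (nat_lit 434231) (nat_lit 23) (.e (nat_lit 532535) (nat_lit 9) (.e (nat_lit 336295) (nat_lit 15) (.e (nat_lit 3632) (nat_lit 227) (.e (nat_lit 778317) (nat_lit 3) (.e (nat_lit 57476) (nat_lit 28) (.e (nat_lit 557099) (nat_lit 13) .nil)))))))) (.g (nat_lit 1) (.e (nat_lit 192544) (nat_lit 0) .nil) .nil)))) 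
(.nd (nat_lit 9) 
(.lf (nat_lit 509242) (.g (nat_lit 3236) (.e (nat_lit 172093) (nat_lit 9) (.e (nat_lit 426125) (nat_lit 2) (.e (nat_lit 196666) (nat_lit 13) (.e (nat_lit 65553) (nat_lit 0) .nil)))) (.g (nat_lit 0) (.e (nat_lit 191971) (nat_lit 0) .nil) .nil))) 
(.lf (nat_lit 509754) (.g (nat_lit 1563) (.e (nat_lit 172113) (nat_lit 10) (.e (nat_lit 434231) (nat_lit 23) (.e (nat_lit 532482) (nat_lit 0) (.e (nat_lit 6220) (nat_lit 333) .nil)))) (.g (nat_lit 0) (.e (nat_lit 193292) (nat_lit 0) .nil) .nil))))) (.nd (nat_lit 8) (.nd (nat_lit 9) 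
(.lf (nat_lit 509114) (.g (nat_lit 928) (.e (nat_lit 172082) (nat_lit 7) (.e (nat_lit 409646) (nat_lit 18) (.e (nat_lit 303136) (nat_lit 10) .nil))) (.g (nat_lit 0) (.e (nat_lit 191401) (nat_lit 0) .nil) .nil))) 
(.lf (nat_lit 509626) (.g (nat_lit 2253) (.e (nat_lit 172107) (nat_lit 10) (.e (nat_lit 434266) (nat_lit 35) (.e (nat_lit 630821) (nat_lit 16) (.e (nat_lit 65617) (nat_lit 10) (.e (nat_lit 344156) (nat_lit 36) (.e (nat_lit 638998) (nat_lit 8) .nil)))))) (.g (nat_lit 1) (.e (nat_lit 193000) (nat_lit 0) .nil) .nil)))) (.nd (nat_lit 9) 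
(.lf (nat_lit 509370) (.g (nat_lit 3647) (.e (nat_lit 172097) (nat_lit 9) (.e (nat_lit 426140) (nat_lit 3) (.e (nat_lit 204883) (nat_lit 33) (.e (nat_lit 401453) (nat_lit 12) (.e (nat_lit 475183) (nat_lit 29) (.e (nat_lit 557097) (nat_lit 13) .nil)))))) (.g (nat_lit 1) (.e (nat_lit 192281) (nat_lit 0) .nil) .nil))) 
(.lf (nat_lit 509882) (.g (nat_lit 2510) (.e (nat_lit 172113) (nat_lit 10) (.e (nat_lit 434245) (nat_lit 28) (.e (nat_lit 573471) (nat_lit 11) (.e (nat_lit 16446) (nat_lit 9) (.e (nat_lit 433920) (nat_lit 15) (.e (nat_lit 1860) (nat_lit 124) (.e (nat_lit 557100) (nat_lit 13) .nil))))))) (.g (nat_lit 1) (.e (nat_lit 193484) (nat_lit 0) .nil) .nil)))))) 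
(.nd (nat_lit 7) (.nd (nat_lit 8) (.nd (nat_lit 9) 
(.lf (nat_lit 509050) (.g (nat_lit 721) (.e (nat_lit 172081) (nat_lit 7) (.e (nat_lit 409638) (nat_lit 15) (.e (nat_lit 278566) (nat_lit 16) (.e (nat_lit 286755) (nat_lit 10) (.e (nat_lit 344153) (nat_lit 35) (.e (nat_lit 630801) (nat_lit 8) .nil)))))) (.g (nat_lit 1) (.e (nat_lit 190950) (nat_lit 0) .nil) .nil))) 
(.lf (nat_lit 509562) (.g (nat_lit 1036) (.e (nat_lit 172106) (nat_lit 10) (.e (nat_lit 434266) (nat_lit 35) (.e (nat_lit 630821) (nat_lit 16) (.e (nat_lit 65619) (nat_lit 10) (.e (nat_lit 344154) (nat_lit 35) (.e (nat_lit 630802) (nat_lit 8) .nil)))))) (.g (nat_lit 1) (.e (nat_lit 192787) (nat_lit 0) .nil) .nil)))) (.nd (nat_lit 9) 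
(.lf (nat_lit 509306) (.g (nat_lit 1870) (.e (nat_lit 172096) (nat_lit 9) (.e (nat_lit 426140) (nat_lit 3) (.e (nat_lit 204846) (nat_lit 24) (.e (nat_lit 319511) (nat_lit 10) .nil)))) (.g (nat_lit 0) (.e (nat_lit 192095) (nat_lit 0) .nil) .nil))) 
(.lf (nat_lit 509818) (.g (nat_lit 2632) (.e (nat_lit 172113) (nat_lit 10) (.e (nat_lit 434242) (nat_lit 28) (.e (nat_lit 573474) (nat_lit 12) (.e (nat_lit 57569) (nat_lit 53) (.e (nat_lit 761867) (nat_lit 5) .nil))))) (.g (nat_lit 0) (.e (nat_lit 193371) (nat_lit 0) .nil) .nil))))) (.nd (nat_lit 8) (.nd (nat_lit 9) 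
(.lf (nat_lit 509178) (.g (nat_lit 2660) (.e (nat_lit 172082) (nat_lit 7) (.e (nat_lit 409649) (nat_lit 18) (.e (nat_lit 303140) (nat_lit 10) (.e (nat_lit 434275) (nat_lit 39) (.e (nat_lit 663574) (nat_lit 9) (.e (nat_lit 2472) (nat_lit 157) (.e (nat_lit 3467) (nat_lit 217) (.e (nat_lit 696344) (nat_lit 8) .nil)))))))) (.g (nat_lit 1) (.e (nat_lit 191794) (nat_lit 0) .nil) .nil))) 
(.lf (nat_lit 509690) (.g (nat_lit 3193) (.e (nat_lit 172112) (nat_lit 10) (.e (nat_lit 434248) (nat_lit 28) (.e (nat_lit 573471) (nat_lit 11) (.e (nat_lit 16433) (nat_lit 9) (.e (nat_lit 426360) (nat_lit 15) .nil))))) (.g (nat_lit 0) (.e (nat_lit 193113) (nat_lit 0) .nil) .nil)))) (.nd (nat_lit 9) 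
(.lf (nat_lit 509434) (.g (nat_lit 1743) (.e (nat_lit 172105) (nat_lit 10) (.e (nat_lit 434272) (nat_lit 38) (.e (nat_lit 655378) (nat_lit 4) (.e (nat_lit 172094) (nat_lit 9) .nil)))) (.g (nat_lit 0) (.e (nat_lit 192375) (nat_lit 0) .nil) .nil))) 
(.lf (nat_lit 509946) (.g (nat_lit 3793) (.e (nat_lit 172113) (nat_lit 10) (.e (nat_lit 434248) (nat_lit 28) (.e (nat_lit 573471) (nat_lit 11) (.e (nat_lit 16433) (nat_lit 9) (.e (nat_lit 426376) (nat_lit 15) .nil))))) (.g (nat_lit 0) (.e (nat_lit 193563) (nat_lit 0) .nil) .nil)))))))))) 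
(.nd (nat_lit 3) (.nd (nat_lit 4) (.nd (nat_lit 5) (.nd (nat_lit 6) (.nd (nat_lit 7) 
(.nd (nat_lit 8) (.nd (nat_lit 9) 
(.lf (nat_lit 508934) (.g (nat_lit 2092) (.e (nat_lit 172079) (nat_lit 7) (.e (nat_lit 409645) (nat_lit 18) (.e (nat_lit 303115) (nat_lit 1) (.e (nat_lit 164179) (nat_lit 154) (.e (nat_lit 57421) (nat_lit 13) .nil))))) (.g (nat_lit 0) (.e (nat_lit 190389) (nat_lit 0) .nil) .nil))) 
(.lf (nat_lit 509446) (.g (nat_lit 1602) (.e (nat_lit 172106) (nat_lit 10) (.e (nat_lit 434202) (nat_lit 18) (.e (nat_lit 6416) (nat_lit 341) (.e (nat_lit 163933) (nat_lit 17) (.e (nat_lit 466967) (nat_lit 20) (.e (nat_lit 3464) (nat_lit 217) (.e (nat_lit 696343) (nat_lit 8) .nil))))))) (.g (nat_lit 1) (.e (nat_lit 192400) (nat_lit 0) .nil) .nil)))) (.nd (nat_lit 9) 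
(.lf (nat_lit 509190) (.g (nat_lit 2098) (.e (nat_lit 172082) (nat_lit 7) (.e (nat_lit 409649) (nat_lit 18) (.e (nat_lit 311040) (nat_lit 35) (.e (nat_lit 401454) (nat_lit 12) (.e (nat_lit 475196) (nat_lit 40) (.e (nat_lit 704593) (nat_lit 4) .nil)))))) (.g (nat_lit 1) (.e (nat_lit 191889) (nat_lit 0) .nil) .nil))) 
(.lf (nat_lit 509702) (.g (nat_lit 954) (.e (nat_lit 172112) (nat_lit 10) (.e (nat_lit 434268) (nat_lit 36) (.e (nat_lit 639020) (nat_lit 16) (.e (nat_lit 65610) (nat_lit 10) .nil)))) (.g (nat_lit 0) (.e (nat_lit 193129) (nat_lit 0) .nil) .nil))))) (.nd (nat_lit 8) (.nd (nat_lit 9) 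
(.lf (nat_lit 509062) (.g (nat_lit 2811) (.e (nat_lit 172081) (nat_lit 7) (.e (nat_lit 409648) (nat_lit 18) (.e (nat_lit 303137) (nat_lit 10) (.e (nat_lit 434275) (nat_lit 39) (.e (nat_lit 663580) (nat_lit 9) (.e (nat_lit 2416) (nat_lit 157) (.e (nat_lit 3471) (nat_lit 217) (.e (nat_lit 696343) (nat_lit 8) .nil)))))))) (.g (nat_lit 1) (.e (nat_lit 190968) (nat_lit 0) .nil) .nil))) 
(.lf (nat_lit 509574) (.g (nat_lit 1308) (.e (nat_lit 172106) (nat_lit 10) (.e (nat_lit 434275) (nat_lit 39) (.e (nat_lit 663580) (nat_lit 9) (.e (nat_lit 282) (nat_lit 21) .nil)))) (.g (nat_lit 0) (.e (nat_lit 192809) (nat_lit 0) .nil) .nil)))) (.nd (nat_lit 9) 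
(.lf (nat_lit 509318) (.g (nat_lit 2992) (.e (nat_lit 172097) (nat_lit 9) (.e (nat_lit 426025) (nat_lit 0) (.e (nat_lit 3397) (nat_lit 211) (.e (nat_lit 647183) (nat_lit 4) (.e (nat_lit 172115) (nat_lit 10) (.e (nat_lit 434209) (nat_lit 18) (.e (nat_lit 5548) (nat_lit 306) (.e (nat_lit 2619) (nat_lit 164) .nil)))))))) (.g (nat_lit 1) (.e (nat_lit 192115) (nat_lit 0) .nil) .nil))) 
(.lf (nat_lit 509830) (.g (nat_lit 1756) (.e (nat_lit 172113) (nat_lit 10) (.e (nat_lit 434242) (nat_lit 28) (.e (nat_lit 573477) (nat_lit 12) (.e (nat_lit 57575) (nat_lit 55) (.e (nat_lit 778463) (nat_lit 11) .nil))))) (.g (nat_lit 0) (.e (nat_lit 193383) (nat_lit 0) .nil) .nil)))))) (.nd (nat_lit 7) (.nd (nat_lit 8) (.nd (nat_lit 9) 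
(.lf (nat_lit 508998) (.g (nat_lit 2155) (.e (nat_lit 172079) (nat_lit 7) (.e (nat_lit 409646) (nat_lit 18) (.e (nat_lit 303140) (nat_lit 10) (.e (nat_lit 434202) (nat_lit 18) .nil)))) (.g (nat_lit 0) (.e (nat_lit 190827) (nat_lit 0) .nil) .nil))) 
(.lf (nat_lit 509510) (.g (nat_lit 3898) (.e (nat_lit 172106) (nat_lit 10) (.e (nat_lit 434231) (nat_lit 23) (.e (nat_lit 532569) (nat_lit 16) (.e (nat_lit 401451) (nat_lit 12) (.e (nat_lit 475185) (nat_lit 29) (.e (nat_lit 557096) (nat_lit 13) .nil)))))) (.g (nat_lit 1) (.e (nat_lit 192653) (nat_lit 0) .nil) .nil)))) (.nd (nat_lit 9) 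
(.lf (nat_lit 509254) (.g (nat_lit 1071) (.e (nat_lit 172094) (nat_lit 9) (.e (nat_lit 426125) (nat_lit 2) (.e (nat_lit 196646) (nat_lit 9) .nil))) (.g (nat_lit 0) (.e (nat_lit 192000) (nat_lit 0) .nil) .nil))) 
(.lf (nat_lit 509766) (.g (nat_lit 3423) (.e (nat_lit 172113) (nat_lit 10) (.e (nat_lit 434231) (nat_lit 23) (.e (nat_lit 532523) (nat_lit 7) (.e (nat_lit 319498) (nat_lit 10) .nil)))) (.g (nat_lit 0) (.e (nat_lit 193305) (nat_lit 0) .nil) .nil))))) (.nd (nat_lit 8) (.nd (nat_lit 9) 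
(.lf (nat_lit 509126) (.g (nat_lit 1392) (.e (nat_lit 172082) (nat_lit 7) (.e (nat_lit 409646) (nat_lit 18) (.e (nat_lit 303140) (nat_lit 10) (.e (nat_lit 434209) (nat_lit 18) .nil)))) (.g (nat_lit 0) (.e (nat_lit 191426) (nat_lit 0) .nil) .nil))) 
(.lf (nat_lit 509638) (.g (nat_lit 2176) (.e (nat_lit 172107) (nat_lit 10) (.e (nat_lit 434272) (nat_lit 38) (.e (nat_lit 655378) (nat_lit 4) (.e (nat_lit 172097) (nat_lit 9) (.e (nat_lit 426025) (nat_lit 0) (.e (nat_lit 3399) (nat_lit 211) (.e (nat_lit 647183) (nat_lit 4) .nil))))))) (.g (nat_lit 1) (.e (nat_lit 193020) (nat_lit 0) .nil) .nil)))) (.nd (nat_lit 9) 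
(.lf (nat_lit 509382) (.g (nat_lit 4055) (.e (nat_lit 172103) (nat_lit 9) (.e (nat_lit 426139) (nat_lit 3) (.e (nat_lit 204846) (nat_lit 24) (.e (nat_lit 319533) (nat_lit 16) (.e (nat_lit 286733) (nat_lit 2) (.e (nat_lit 90169) (nat_lit 13) .nil)))))) (.g (nat_lit 1) (.e (nat_lit 192306) (nat_lit 0) .nil) .nil))) 
(.lf (nat_lit 509894) (.g (nat_lit 5511) (.e (nat_lit 172113) (nat_lit 10) (.e (nat_lit 434245) (nat_lit 28) (.e (nat_lit 573474) (nat_lit 12) (.e (nat_lit 57572) (nat_lit 54) (.e (nat_lit 770072) (nat_lit 8) (.e (nat_lit 65568) (nat_lit 2) (.e (nat_lit 90170) (nat_lit 13) .nil))))))) (.g (nat_lit 1) (.e (nat_lit 193498) (nat_lit 0) .nil) .nil))))))) 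
(.nd (nat_lit 6) (.nd (nat_lit 7) (.nd (nat_lit 8) (.nd (nat_lit 9) 
(.lf (nat_lit 508966) (.g (nat_lit 3559) (.e (nat_lit 172079) (nat_lit 7) (.e (nat_lit 409645) (nat_lit 18) (.e (nat_lit 303143) (nat_lit 12) (.e (nat_lit 475199) (nat_lit 40) (.e (nat_lit 704619) (nat_lit 9) .nil))))) (.g (nat_lit 0) (.e (nat_lit 190696) (nat_lit 0) .nil) .nil))) 
(.lf (nat_lit 509478) (.g (nat_lit 3244) (.e (nat_lit 172106) (nat_lit 10) (.e (nat_lit 434231) (nat_lit 23) (.e (nat_lit 532522) (nat_lit 7) (.e (nat_lit 319531) (nat_lit 16) (.e (nat_lit 286733) (nat_lit 2) (.e (nat_lit 90166) (nat_lit 13) .nil)))))) (.g (nat_lit 1) (.e (nat_lit 192517) (nat_lit 0) .nil) .nil)))) (.nd (nat_lit 9) 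
(.lf (nat_lit 509222) (.g (nat_lit 638) (.e (nat_lit 172088) (nat_lit 9) (.e (nat_lit 426025) (nat_lit 0) (.e (nat_lit 3399) (nat_lit 211) .nil))) (.g (nat_lit 0) (.e (nat_lit 191943) (nat_lit 0) .nil) .nil))) 
(.lf (nat_lit 509734) (.g (nat_lit 2231) (.e (nat_lit 172113) (nat_lit 10) (.e (nat_lit 434208) (nat_lit 18) (.e (nat_lit 6252) (nat_lit 337) (.e (nat_lit 2651) (nat_lit 166) (.e (nat_lit 188435) (nat_lit 20) .nil))))) (.g (nat_lit 0) (.e (nat_lit 193228) (nat_lit 0) .nil) .nil))))) (.nd (nat_lit 8) (.nd (nat_lit 9) 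
(.lf (nat_lit 509094) (.g (nat_lit 1082) (.e (nat_lit 172082) (nat_lit 7) (.e (nat_lit 409639) (nat_lit 15) (.e (nat_lit 278566) (nat_lit 16) (.e (nat_lit 286753) (nat_lit 10) (.e (nat_lit 344154) (nat_lit 35) (.e (nat_lit 630802) (nat_lit 8) .nil)))))) (.g (nat_lit 1) (.e (nat_lit 191069) (nat_lit 0) .nil) .nil))) 
(.lf (nat_lit 509606) (.g (nat_lit 3369) (.e (nat_lit 172106) (nat_lit 10) (.e (nat_lit 434289) (nat_lit 43) (.e (nat_lit 696344) (nat_lit 8) (.e (nat_lit 172107) (nat_lit 10) (.e (nat_lit 434289) (nat_lit 43) (.e (nat_lit 696343) (nat_lit 8) .nil)))))) (.g (nat_lit 1) (.e (nat_lit 192964) (nat_lit 0) .nil) .nil)))) (.nd (nat_lit 9) 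
(.lf (nat_lit 509350) (.g (nat_lit 4817) (.e (nat_lit 172097) (nat_lit 9) (.e (nat_lit 426140) (nat_lit 3) (.e (nat_lit 204845) (nat_lit 24) (.e (nat_lit 319530) (nat_lit 16) (.e (nat_lit 286733) (nat_lit 2) (.e (nat_lit 90170) (nat_lit 13) .nil)))))) (.g (nat_lit 1) (.e (nat_lit 192260) (nat_lit 0) .nil) .nil))) 
(.lf (nat_lit 509862) (.g (nat_lit 1960) (.e (nat_lit 172113) (nat_lit 10) (.e (nat_lit 434245) (nat_lit 28) (.e (nat_lit 573471) (nat_lit 11) (.e (nat_lit 16401) (nat_lit 0) .nil)))) (.g (nat_lit 0) (.e (nat_lit 193451) (nat_lit 0) .nil) .nil)))))) (.nd (nat_lit 7) (.nd (nat_lit 8) (.nd (nat_lit 9) 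
(.lf (nat_lit 509030) (.g (nat_lit 531) (.e (nat_lit 172080) (nat_lit 7) (.e (nat_lit 409645) (nat_lit 18) (.e (nat_lit 303143) (nat_lit 12) .nil))) (.g (nat_lit 0) (.e (nat_lit 190892) (nat_lit 0) .nil) .nil))) 
(.lf (nat_lit 509542) (.g (nat_lit 3998) (.e (nat_lit 172106) (nat_lit 10) (.e (nat_lit 434244) (nat_lit 28) (.e (nat_lit 573472) (nat_lit 12) (.e (nat_lit 57575) (nat_lit 55) (.e (nat_lit 778466) (nat_lit 11) (.e (nat_lit 24604) (nat_lit 2) (.e (nat_lit 90170) (nat_lit 13) .nil))))))) (.g (nat_lit 1) (.e (nat_lit 192761) (nat_lit 0) .nil) .nil)))) (.nd (nat_lit 9) 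
(.lf (nat_lit 509286) (.g (nat_lit 1920) (.e (nat_lit 172095) (nat_lit 9) (.e (nat_lit 426140) (nat_lit 3) (.e (nat_lit 204846) (nat_lit 24) (.e (nat_lit 319532) (nat_lit 16) .nil)))) (.g (nat_lit 0) (.e (nat_lit 192066) (nat_lit 0) .nil) .nil))) 
(.lf (nat_lit 509798) (.g (nat_lit 1688) (.e (nat_lit 172113) (nat_lit 10) (.e (nat_lit 434234) (nat_lit 23) (.e (nat_lit 532523) (nat_lit 7) (.e (nat_lit 319504) (nat_lit 10) (.e (nat_lit 5351) (nat_lit 298) .nil))))) (.g (nat_lit 0) (.e (nat_lit 193341) (nat_lit 0) .nil) .nil))))) (.nd (nat_lit 8) (.nd (nat_lit 9) 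
(.lf (nat_lit 509158) (.g (nat_lit 1575) (.e (nat_lit 172082) (nat_lit 7) (.e (nat_lit 409646) (nat_lit 18) (.e (nat_lit 311040) (nat_lit 35) (.e (nat_lit 401454) (nat_lit 12) (.e (nat_lit 475197) (nat_lit 40) (.e (nat_lit 712448) (nat_lit 4) .nil)))))) (.g (nat_lit 1) (.e (nat_lit 191725) (nat_lit 0) .nil) .nil))) 
(.lf (nat_lit 509670) (.g (nat_lit 2763) (.e (nat_lit 172111) (nat_lit 10) (.e (nat_lit 434247) (nat_lit 28) (.e (nat_lit 573478) (nat_lit 12) (.e (nat_lit 57574) (nat_lit 55) (.e (nat_lit 778466) (nat_lit 11) (.e (nat_lit 24604) (nat_lit 2) (.e (nat_lit 90168) (nat_lit 13) .nil))))))) (.g (nat_lit 1) (.e (nat_lit 193068) (nat_lit 0) .nil) .nil)))) (.nd (nat_lit 9) 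
(.lf (nat_lit 509414) (.g (nat_lit 3906) (.e (nat_lit 172105) (nat_lit 10) (.e (nat_lit 434248) (nat_lit 28) (.e (nat_lit 573471) (nat_lit 11) (.e (nat_lit 16433) (nat_lit 9) (.e (nat_lit 426364) (nat_lit 15) .nil))))) (.g (nat_lit 0) (.e (nat_lit 192351) (nat_lit 0) .nil) .nil))) 
(.lf (nat_lit 509926) (.g (nat_lit 4516) (.e (nat_lit 172113) (nat_lit 10) (.e (nat_lit 434248) (nat_lit 28) (.e (nat_lit 573452) (nat_lit 9) (.e (nat_lit 430) (nat_lit 32) (.e (nat_lit 426012) (nat_lit 0) (.e (nat_lit 7490) (nat_lit 402) (.e (nat_lit 1239) (nat_lit 91) (.e (nat_lit 90170) (nat_lit 13) .nil)))))))) (.g (nat_lit 1) (.e (nat_lit 193538) (nat_lit 0) .nil) .nil)))))))) 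
(.nd (nat_lit 5) (.nd (nat_lit 6) (.nd (nat_lit 7) (.nd (nat_lit 8) (.nd (nat_lit 9) 
(.lf (nat_lit 508950) (.g (nat_lit 3200) (.e (nat_lit 172079) (nat_lit 7) (.e (nat_lit 409645) (nat_lit 18) (.e (nat_lit 303137) (nat_lit 10) (.e (nat_lit 434275) (nat_lit 39) (.e (nat_lit 663580) (nat_lit 9) (.e (nat_lit 2416) (nat_lit 157) (.e (nat_lit 3471) (nat_lit 217) (.e (nat_lit 696343) (nat_lit 8) .nil)))))))) (.g (nat_lit 1) (.e (nat_lit 190568) (nat_lit 0) .nil) .nil))) 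
(.lf (nat_lit 509462) (.g (nat_lit 2325) (.e (nat_lit 172106) (nat_lit 10) (.e (nat_lit 434231) (nat_lit 23) (.e (nat_lit 532490) (nat_lit 0) (.e (nat_lit 1899) (nat_lit 128) (.e (nat_lit 589839) (nat_lit 5) .nil))))) (.g (nat_lit 0) (.e (nat_lit 192500) (nat_lit 0) .nil) .nil)))) (.nd (nat_lit 9) 
(.lf (nat_lit 509206) (.g (nat_lit 2872) (.e (nat_lit 172085) (nat_lit 9) (.e (nat_lit 426140) (nat_lit 3) (.e (nat_lit 204846) (nat_lit 24) (.e (nat_lit 319533) (nat_lit 16) (.e (nat_lit 286732) (nat_lit 2) (.e (nat_lit 90170) (nat_lit 13) .nil)))))) (.g (nat_lit 1) (.e (nat_lit 191910) (nat_lit 0) .nil) .nil))) 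
(.lf (nat_lit 509718) (.g (nat_lit 700) (.e (nat_lit 172112) (nat_lit 10) (.e (nat_lit 434272) (nat_lit 38) (.e (nat_lit 655380) (nat_lit 6) (.e (nat_lit 188435) (nat_lit 20) .nil)))) (.g (nat_lit 0) (.e (nat_lit 193171) (nat_lit 0) .nil) .nil))))) (.nd (nat_lit 8) (.nd (nat_lit 9) 
(.lf (nat_lit 509078) (.g (nat_lit 1723) (.e (nat_lit 172081) (nat_lit 7) (.e (nat_lit 409642) (nat_lit 17) (.e (nat_lit 294974) (nat_lit 29) (.e (nat_lit 442412) (nat_lit 20) (.e (nat_lit 3409) (nat_lit 212) (.e (nat_lit 655378) (nat_lit 4) .nil)))))) (.g (nat_lit 1) (.e (nat_lit 191019) (nat_lit 0) .nil) .nil))) 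
(.lf (nat_lit 509590) (.g (nat_lit 3025) (.e (nat_lit 172106) (nat_lit 10) (.e (nat_lit 434288) (nat_lit 43) (.e (nat_lit 696343) (nat_lit 8) (.e (nat_lit 172116) (nat_lit 10) (.e (nat_lit 434289) (nat_lit 43) (.e (nat_lit 696344) (nat_lit 8) .nil)))))) (.g (nat_lit 1) (.e (nat_lit 192925) (nat_lit 0) .nil) .nil)))) (.nd (nat_lit 9) 
(.lf (nat_lit 509334) (.g (nat_lit 1956) (.e (nat_lit 172097) (nat_lit 9) (.e (nat_lit 426125) (nat_lit 2) (.e (nat_lit 196677) (nat_lit 16) .nil))) (.g (nat_lit 0) (.e (nat_lit 192236) (nat_lit 0) .nil) .nil))) 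
(.lf (nat_lit 509846) (.g (nat_lit 2367) (.e (nat_lit 172113) (nat_lit 10) (.e (nat_lit 434245) (nat_lit 28) (.e (nat_lit 573450) (nat_lit 9) (.e (nat_lit 452) (nat_lit 33) (.e (nat_lit 434177) (nat_lit 0) (.e (nat_lit 1235) (nat_lit 91) (.e (nat_lit 90170) (nat_lit 13) .nil))))))) (.g (nat_lit 1) (.e (nat_lit 193407) (nat_lit 0) .nil) .nil)))))) (.nd (nat_lit 7) (.nd (nat_lit 8) (.nd (nat_lit 9) 
(.lf (nat_lit 509014) (.g (nat_lit 1978) (.e (nat_lit 172080) (nat_lit 7) (.e (nat_lit 409611) (nat_lit 10) (.e (nat_lit 632) (nat_lit 50) (.e (nat_lit 573491) (nat_lit 15) (.e (nat_lit 81946) (nat_lit 20) .nil))))) (.g (nat_lit 0) (.e (nat_lit 190869) (nat_lit 0) .nil) .nil))) 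
(.lf (nat_lit 509526) (.g (nat_lit 1595) (.e (nat_lit 172106) (nat_lit 10) (.e (nat_lit 434244) (nat_lit 28) (.e (nat_lit 573468) (nat_lit 10) (.e (nat_lit 8192) (nat_lit 0) .nil)))) (.g (nat_lit 0) (.e (nat_lit 192714) (nat_lit 0) .nil) .nil)))) (.nd (nat_lit 9) 
(.lf (nat_lit 509270) (.g (nat_lit 2838) (.e (nat_lit 172094) (nat_lit 9) (.e (nat_lit 426140) (nat_lit 3) (.e (nat_lit 204846) (nat_lit 24) (.e (nat_lit 319532) (nat_lit 16) (.e (nat_lit 286733) (nat_lit 2) (.e (nat_lit 90169) (nat_lit 13) .nil)))))) (.g (nat_lit 1) (.e (nat_lit 192031) (nat_lit 0) .nil) .nil))) 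
(.lf (nat_lit 509782) (.g (nat_lit 2538) (.e (nat_lit 172113) (nat_lit 10) (.e (nat_lit 434231) (nat_lit 23) (.e (nat_lit 532523) (nat_lit 7) (.e (nat_lit 319533) (nat_lit 16) (.e (nat_lit 294656) (nat_lit 2) .nil))))) (.g (nat_lit 0) (.e (nat_lit 193321) (nat_lit 0) .nil) .nil))))) (.nd (nat_lit 8) (.nd (nat_lit 9) 
(.lf (nat_lit 509142) (.g (nat_lit 3039) (.e (nat_lit 172082) (nat_lit 7) (.e (nat_lit 409646) (nat_lit 18) (.e (nat_lit 303143) (nat_lit 12) (.e (nat_lit 475199) (nat_lit 40) (.e (nat_lit 704860) (nat_lit 18) (.e (nat_lit 237312) (nat_lit 106) (.e (nat_lit 696344) (nat_lit 8) .nil))))))) (.g (nat_lit 1) (.e (nat_lit 191605) (nat_lit 0) .nil) .nil))) 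
(.lf (nat_lit 509654) (.g (nat_lit 732) (.e (nat_lit 172109) (nat_lit 10) (.e (nat_lit 434248) (nat_lit 28) (.e (nat_lit 573471) (nat_lit 11) .nil))) (.g (nat_lit 0) (.e (nat_lit 193050) (nat_lit 0) .nil) .nil)))) (.nd (nat_lit 9) 
(.lf (nat_lit 509398) (.g (nat_lit 2003) (.e (nat_lit 172105) (nat_lit 10) (.e (nat_lit 434247) (nat_lit 28) (.e (nat_lit 573477) (nat_lit 12) (.e (nat_lit 57574) (nat_lit 55) (.e (nat_lit 778465) (nat_lit 11) (.e (nat_lit 24603) (nat_lit 2) (.e (nat_lit 90167) (nat_lit 13) .nil))))))) (.g (nat_lit 1) (.e (nat_lit 192335) (nat_lit 0) .nil) .nil))) 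
(.lf (nat_lit 509910) (.g (nat_lit 2975) (.e (nat_lit 172113) (nat_lit 10) (.e (nat_lit 434247) (nat_lit 28) (.e (nat_lit 573477) (nat_lit 12) (.e (nat_lit 57574) (nat_lit 55) (.e (nat_lit 778466) (nat_lit 11) (.e (nat_lit 32512) (nat_lit 2) (.e (nat_lit 90170) (nat_lit 13) .nil))))))) (.g (nat_lit 1) (.e (nat_lit 193520) (nat_lit 0) .nil) .nil))))))) 
(.nd (nat_lit 6) (.nd (nat_lit 7) (.nd (nat_lit 8) (.nd (nat_lit 9) 
(.lf (nat_lit 508982) (.g (nat_lit 1792) (.e (nat_lit 172079) (nat_lit 7) (.e (nat_lit 409645) (nat_lit 18) (.e (nat_lit 303143) (nat_lit 12) (.e (nat_lit 475216) (nat_lit 44) .nil)))) (.g (nat_lit 0) (.e (nat_lit 190763) (nat_lit 0) .nil) .nil))) 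
(.lf (nat_lit 509494) (.g (nat_lit 2568) (.e (nat_lit 172106) (nat_lit 10) (.e (nat_lit 434231) (nat_lit 23) (.e (nat_lit 532535) (nat_lit 9) (.e (nat_lit 336280) (nat_lit 15) .nil)))) (.g (nat_lit 0) (.e (nat_lit 192540) (nat_lit 0) .nil) .nil)))) (.nd (nat_lit 9) 
(.lf (nat_lit 509238) (.g (nat_lit 2324) (.e (nat_lit 172092) (nat_lit 9) (.e (nat_lit 426136) (nat_lit 3) (.e (nat_lit 204846) (nat_lit 24) (.e (nat_lit 319504) (nat_lit 10) (.e (nat_lit 7936) (nat_lit 298) .nil))))) (.g (nat_lit 0) (.e (nat_lit 191964) (nat_lit 0) .nil) .nil))) 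
(.lf (nat_lit 509750) (.g (nat_lit 662) (.e (nat_lit 172113) (nat_lit 10) (.e (nat_lit 434231) (nat_lit 23) (.e (nat_lit 532481) (nat_lit 0) .nil))) (.g (nat_lit 0) (.e (nat_lit 193288) (nat_lit 0) .nil) .nil))))) (.nd (nat_lit 8) (.nd (nat_lit 9) 
(.lf (nat_lit 509110) (.g (nat_lit 732) (.e (nat_lit 172082) (nat_lit 7) (.e (nat_lit 409646) (nat_lit 18) (.e (nat_lit 303135) (nat_lit 10) .nil))) (.g (nat_lit 0) (.e (nat_lit 191387) (nat_lit 0) .nil) .nil))) 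
(.lf (nat_lit 509622) (.g (nat_lit 1917) (.e (nat_lit 172107) (nat_lit 10) (.e (nat_lit 434245) (nat_lit 28) (.e (nat_lit 573471) (nat_lit 11) (.e (nat_lit 16425) (nat_lit 7) .nil)))) (.g (nat_lit 0) (.e (nat_lit 192994) (nat_lit 0) .nil) .nil)))) (.nd (nat_lit 9) 
(.lf (nat_lit 509366) (.g (nat_lit 2579) (.e (nat_lit 172097) (nat_lit 9) (.e (nat_lit 426140) (nat_lit 3) (.e (nat_lit 204863) (nat_lit 27) (.e (nat_lit 344169) (nat_lit 40) (.e (nat_lit 671751) (nat_lit 0) .nil))))) (.g (nat_lit 0) (.e (nat_lit 192277) (nat_lit 0) .nil) .nil))) 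
(.lf (nat_lit 509878) (.g (nat_lit 2581) (.e (nat_lit 172113) (nat_lit 10) (.e (nat_lit 434245) (nat_lit 28) (.e (nat_lit 573471) (nat_lit 11) (.e (nat_lit 16436) (nat_lit 9) (.e (nat_lit 426382) (nat_lit 15) .nil))))) (.g (nat_lit 0) (.e (nat_lit 193478) (nat_lit 0) .nil) .nil)))))) (.nd (nat_lit 7) (.nd (nat_lit 8) (.nd (nat_lit 9) 
(.lf (nat_lit 509046) (.g (nat_lit 451) (.e (nat_lit 172081) (nat_lit 7) (.e (nat_lit 409636) (nat_lit 14) (.e (nat_lit 270373) (nat_lit 16) (.e (nat_lit 286755) (nat_lit 10) (.e (nat_lit 344153) (nat_lit 35) (.e (nat_lit 630801) (nat_lit 8) .nil)))))) (.g (nat_lit 1) (.e (nat_lit 190946) (nat_lit 0) .nil) .nil))) 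
(.lf (nat_lit 509558) (.g (nat_lit 2217) (.e (nat_lit 172106) (nat_lit 10) (.e (nat_lit 434266) (nat_lit 35) (.e (nat_lit 630821) (nat_lit 16) (.e (nat_lit 65610) (nat_lit 10) (.e (nat_lit 344156) (nat_lit 36) (.e (nat_lit 638998) (nat_lit 8) .nil)))))) (.g (nat_lit 1) (.e (nat_lit 192783) (nat_lit 0) .nil) .nil)))) (.nd (nat_lit 9) 
(.lf (nat_lit 509302) (.g (nat_lit 3165) (.e (nat_lit 172096) (nat_lit 9) (.e (nat_lit 426125) (nat_lit 2) (.e (nat_lit 196666) (nat_lit 13) (.e (nat_lit 65553) (nat_lit 0) .nil)))) (.g (nat_lit 0) (.e (nat_lit 192090) (nat_lit 0) .nil) .nil))) 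
(.lf (nat_lit 509814) (.g (nat_lit 1859) (.e (nat_lit 172113) (nat_lit 10) (.e (nat_lit 434242) (nat_lit 28) (.e (nat_lit 573474) (nat_lit 12) (.e (nat_lit 57356) (nat_lit 0) .nil)))) (.g (nat_lit 0) (.e (nat_lit 193367) (nat_lit 0) .nil) .nil))))) (.nd (nat_lit 8) (.nd (nat_lit 9) 
(.lf (nat_lit 509174) (.g (nat_lit 1293) (.e (nat_lit 172082) (nat_lit 7) (.e (nat_lit 409649) (nat_lit 18) (.e (nat_lit 303140) (nat_lit 10) (.e (nat_lit 434275) (nat_lit 39) .nil)))) (.g (nat_lit 0) (.e (nat_lit 191789) (nat_lit 0) .nil) .nil))) 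
(.lf (nat_lit 509686) (.g (nat_lit 1453) (.e (nat_lit 172112) (nat_lit 10) (.e (nat_lit 434247) (nat_lit 28) (.e (nat_lit 573477) (nat_lit 12) (.e (nat_lit 57574) (nat_lit 55) (.e (nat_lit 778465) (nat_lit 11) (.e (nat_lit 24603) (nat_lit 2) (.e (nat_lit 90166) (nat_lit 13) .nil))))))) (.g (nat_lit 1) (.e (nat_lit 193106) (nat_lit 0) .nil) .nil)))) (.nd (nat_lit 9) 
(.lf (nat_lit 509430) (.g (nat_lit 1979) (.e (nat_lit 172105) (nat_lit 10) (.e (nat_lit 434272) (nat_lit 38) (.e (nat_lit 655364) (nat_lit 0) (.e (nat_lit 3016) (nat_lit 187) (.e (nat_lit 458496) (nat_lit 15) .nil))))) (.g (nat_lit 0) (.e (nat_lit 192370) (nat_lit 0) .nil) .nil))) 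
(.lf (nat_lit 509942) (.g (nat_lit 2485) (.e (nat_lit 172113) (nat_lit 10) (.e (nat_lit 434248) (nat_lit 28) (.e (nat_lit 573471) (nat_lit 11) (.e (nat_lit 16396) (nat_lit 0) (.e (nat_lit 7556) (nat_lit 402) .nil))))) (.g (nat_lit 0) (.e (nat_lit 193558) (nat_lit 0) .nil) .nil))))))))) (.nd (nat_lit 4) (.nd (nat_lit 5) (.nd (nat_lit 6) (.nd (nat_lit 7) (.nd (nat_lit 8) (.nd (nat_lit 9) 
(.lf (nat_lit 508942) (.g (nat_lit 1651) (.e (nat_lit 172079) (nat_lit 7) (.e (nat_lit 409645) (nat_lit 18) (.e (nat_lit 303133) (nat_lit 9) (.e (nat_lit 426412) (nat_lit 15) (.e (nat_lit 2184) (nat_lit 144) .nil))))) (.g (nat_lit 0) (.e (nat_lit 190523) (nat_lit 0) .nil) .nil))) 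
(.lf (nat_lit 509454) (.g (nat_lit 369) (.e (nat_lit 172106) (nat_lit 10) (.e (nat_lit 434209) (nat_lit 18) (.e (nat_lit 6427) (nat_lit 342) .nil))) (.g (nat_lit 0) (.e (nat_lit 192483) (nat_lit 0) .nil) .nil)))) (.nd (nat_lit 9) 
(.lf (nat_lit 509198) (.g (nat_lit 3432) (.e (nat_lit 172085) (nat_lit 9) (.e (nat_lit 426140) (nat_lit 3) (.e (nat_lit 204845) (nat_lit 24) (.e (nat_lit 319531) (nat_lit 16) (.e (nat_lit 286733) (nat_lit 2) (.e (nat_lit 90170) (nat_lit 13) .nil)))))) (.g (nat_lit 1) (.e (nat_lit 191902) (nat_lit 0) .nil) .nil))) 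
(.lf (nat_lit 509710) (.g (nat_lit 1273) (.e (nat_lit 172112) (nat_lit 10) (.e (nat_lit 434271) (nat_lit 38) (.e (nat_lit 655378) (nat_lit 4) (.e (nat_lit 172088) (nat_lit 9) .nil)))) (.g (nat_lit 0) (.e (nat_lit 193144) (nat_lit 0) .nil) .nil))))) (.nd (nat_lit 8) (.nd (nat_lit 9) 
(.lf (nat_lit 509070) (.g (nat_lit 2393) (.e (nat_lit 172081) (nat_lit 7) (.e (nat_lit 409649) (nat_lit 18) (.e (nat_lit 303140) (nat_lit 10) (.e (nat_lit 434275) (nat_lit 39) (.e (nat_lit 663574) (nat_lit 9) .nil))))) (.g (nat_lit 0) (.e (nat_lit 190998) (nat_lit 0) .nil) .nil))) 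
(.lf (nat_lit 509582) (.g (nat_lit 2325) (.e (nat_lit 172106) (nat_lit 10) (.e (nat_lit 434272) (nat_lit 38) (.e (nat_lit 655378) (nat_lit 4) (.e (nat_lit 172097) (nat_lit 9) (.e (nat_lit 426025) (nat_lit 0) (.e (nat_lit 3399) (nat_lit 211) (.e (nat_lit 647183) (nat_lit 4) .nil))))))) (.g (nat_lit 1) (.e (nat_lit 192887) (nat_lit 0) .nil) .nil)))) (.nd (nat_lit 9) 
(.lf (nat_lit 509326) (.g (nat_lit 305) (.e (nat_lit 172097) (nat_lit 9) (.e (nat_lit 426125) (nat_lit 2) (.e (nat_lit 196661) (nat_lit 12) .nil))) (.g (nat_lit 0) (.e (nat_lit 192228) (nat_lit 0) .nil) .nil))) 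
(.lf (nat_lit 509838) (.g (nat_lit 2598) (.e (nat_lit 172113) (nat_lit 10) (.e (nat_lit 434244) (nat_lit 28) (.e (nat_lit 573471) (nat_lit 11) (.e (nat_lit 16439) (nat_lit 9) .nil)))) (.g (nat_lit 0) (.e (nat_lit 193393) (nat_lit 0) .nil) .nil)))))) (.nd (nat_lit 7) (.nd (nat_lit 8) (.nd (nat_lit 9) 
(.lf (nat_lit 509006) (.g (nat_lit 1997) (.e (nat_lit 172079) (nat_lit 7) (.e (nat_lit 409649) (nat_lit 18) (.e (nat_lit 303140) (nat_lit 10) (.e (nat_lit 434202) (nat_lit 18) .nil)))) (.g (nat_lit 0) (.e (nat_lit 190850) (nat_lit 0) .nil) .nil))) 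
(.lf (nat_lit 509518) (.g (nat_lit 2260) (.e (nat_lit 172106) (nat_lit 10) (.e (nat_lit 434242) (nat_lit 28) (.e (nat_lit 573474) (nat_lit 12) (.e (nat_lit 57574) (nat_lit 55) .nil)))) (.g (nat_lit 0) (.e (nat_lit 192691) (nat_lit 0) .nil) .nil)))) (.nd (nat_lit 9) 
(.lf (nat_lit 509262) (.g (nat_lit 818) (.e (nat_lit 172094) (nat_lit 9) (.e (nat_lit 426125) (nat_lit 2) (.e (nat_lit 196700) (nat_lit 22) .nil))) (.g (nat_lit 0) (.e (nat_lit 192019) (nat_lit 0) .nil) .nil))) 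
(.lf (nat_lit 509774) (.g (nat_lit 2348) (.e (nat_lit 172113) (nat_lit 10) (.e (nat_lit 434231) (nat_lit 23) (.e (nat_lit 532523) (nat_lit 7) (.e (nat_lit 319504) (nat_lit 10) (.e (nat_lit 7936) (nat_lit 298) .nil))))) (.g (nat_lit 0) (.e (nat_lit 193313) (nat_lit 0) .nil) .nil))))) (.nd (nat_lit 8) (.nd (nat_lit 9) 
(.lf (nat_lit 509134) (.g (nat_lit 2801) (.e (nat_lit 172082) (nat_lit 7) (.e (nat_lit 409646) (nat_lit 18) (.e (nat_lit 303143) (nat_lit 12) (.e (nat_lit 475199) (nat_lit 40) (.e (nat_lit 704572) (nat_lit 0) .nil))))) (.g (nat_lit 0) (.e (nat_lit 191499) (nat_lit 0) .nil) .nil))) 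
(.lf (nat_lit 509646) (.g (nat_lit 2246) (.e (nat_lit 172107) (nat_lit 10) (.e (nat_lit 434289) (nat_lit 43) (.e (nat_lit 696344) (nat_lit 8) (.e (nat_lit 172113) (nat_lit 10) (.e (nat_lit 434287) (nat_lit 43) (.e (nat_lit 696344) (nat_lit 8) .nil)))))) (.g (nat_lit 1) (.e (nat_lit 193041) (nat_lit 0) .nil) .nil)))) (.nd (nat_lit 9) 
(.lf (nat_lit 509390) (.g (nat_lit 3317) (.e (nat_lit 172105) (nat_lit 10) (.e (nat_lit 434238) (nat_lit 25) (.e (nat_lit 548913) (nat_lit 18) (.e (nat_lit 172120) (nat_lit 12) .nil)))) (.g (nat_lit 0) (.e (nat_lit 192320) (nat_lit 0) .nil) .nil))) 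
(.lf (nat_lit 509902) (.g (nat_lit 4955) (.e (nat_lit 172113) (nat_lit 10) (.e (nat_lit 434247) (nat_lit 28) (.e (nat_lit 573471) (nat_lit 11) (.e (nat_lit 16433) (nat_lit 9) (.e (nat_lit 426354) (nat_lit 15) .nil))))) (.g (nat_lit 0) (.e (nat_lit 193512) (nat_lit 0) .nil) .nil))))))) (.nd (nat_lit 6) (.nd (nat_lit 7) (.nd (nat_lit 8) (.nd (nat_lit 9) 
(.lf (nat_lit 508974) (.g (nat_lit 3354) (.e (nat_lit 172079) (nat_lit 7) (.e (nat_lit 409645) (nat_lit 18) (.e (nat_lit 303143) (nat_lit 12) (.e (nat_lit 475199) (nat_lit 40) (.e (nat_lit 704862) (nat_lit 18) (.e (nat_lit 237312) (nat_lit 106) (.e (nat_lit 696344) (nat_lit 8) .nil))))))) (.g (nat_lit 1) (.e (nat_lit 190718) (nat_lit 0) .nil) .nil))) 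
(.lf (nat_lit 509486) (.g (nat_lit 4482) (.e (nat_lit 172106) (nat_lit 10) (.e (nat_lit 434231) (nat_lit 23) (.e (nat_lit 532523) (nat_lit 7) (.e (nat_lit 319530) (nat_lit 16) (.e (nat_lit 286733) (nat_lit 2) (.e (nat_lit 90167) (nat_lit 13) .nil)))))) (.g (nat_lit 1) (.e (nat_lit 192528) (nat_lit 0) .nil) .nil)))) (.nd (nat_lit 9) 
(.lf (nat_lit 509230) (.g (nat_lit 1351) (.e (nat_lit 172089) (nat_lit 9) (.e (nat_lit 426025) (nat_lit 0) (.e (nat_lit 3397) (nat_lit 211) (.e (nat_lit 647185) (nat_lit 6) (.e (nat_lit 188428) (nat_lit 20) .nil))))) (.g (nat_lit 0) (.e (nat_lit 191954) (nat_lit 0) .nil) .nil))) 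
(.lf (nat_lit 509742) (.g (nat_lit 659) (.e (nat_lit 172113) (nat_lit 10) (.e (nat_lit 434209) (nat_lit 18) (.e (nat_lit 5546) (nat_lit 306) .nil))) (.g (nat_lit 0) (.e (nat_lit 193271) (nat_lit 0) .nil) .nil))))) (.nd (nat_lit 8) (.nd (nat_lit 9) 
(.lf (nat_lit 509102) (.g (nat_lit 1284) (.e (nat_lit 172082) (nat_lit 7) (.e (nat_lit 409646) (nat_lit 18) (.e (nat_lit 303111) (nat_lit 0) (.e (nat_lit 7515) (nat_lit 402) .nil)))) (.g (nat_lit 0) (.e (nat_lit 191104) (nat_lit 0) .nil) .nil))) 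
(.lf (nat_lit 509614) (.g (nat_lit 1780) (.e (nat_lit 172106) (nat_lit 10) (.e (nat_lit 434289) (nat_lit 43) (.e (nat_lit 696346) (nat_lit 10) (.e (nat_lit 188440) (nat_lit 20) (.e (nat_lit 3467) (nat_lit 217) .nil))))) (.g (nat_lit 0) (.e (nat_lit 192975) (nat_lit 0) .nil) .nil)))) (.nd (nat_lit 9) 
(.lf (nat_lit 509358) (.g (nat_lit 3275) (.e (nat_lit 172097) (nat_lit 9) (.e (nat_lit 426140) (nat_lit 3) (.e (nat_lit 204845) (nat_lit 24) (.e (nat_lit 319534) (nat_lit 16) (.e (nat_lit 286732) (nat_lit 2) (.e (nat_lit 90170) (nat_lit 13) .nil)))))) (.g (nat_lit 1) (.e (nat_lit 192268) (nat_lit 0) .nil) .nil))) 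
(.lf (nat_lit 509870) (.g (nat_lit 3759) (.e (nat_lit 172113) (nat_lit 10) (.e (nat_lit 434245) (nat_lit 28) (.e (nat_lit 573471) (nat_lit 11) (.e (nat_lit 16433) (nat_lit 9) (.e (nat_lit 426381) (nat_lit 15) .nil))))) (.g (nat_lit 0) (.e (nat_lit 193470) (nat_lit 0) .nil) .nil)))))) (.nd (nat_lit 7) (.nd (nat_lit 8) (.nd (nat_lit 9) 
(.lf (nat_lit 509038) (.g (nat_lit 1930) (.e (nat_lit 172080) (nat_lit 7) (.e (nat_lit 409642) (nat_lit 17) (.e (nat_lit 294974) (nat_lit 29) (.e (nat_lit 442409) (nat_lit 20) (.e (nat_lit 3409) (nat_lit 212) (.e (nat_lit 655378) (nat_lit 4) .nil)))))) (.g (nat_lit 1) (.e (nat_lit 190919) (nat_lit 0) .nil) .nil))) 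
(.lf (nat_lit 509550) (.g (nat_lit 2251) (.e (nat_lit 172106) (nat_lit 10) (.e (nat_lit 434248) (nat_lit 28) (.e (nat_lit 573471) (nat_lit 11) (.e (nat_lit 16433) (nat_lit 9) .nil)))) (.g (nat_lit 0) (.e (nat_lit 192771) (nat_lit 0) .nil) .nil)))) (.nd (nat_lit 9) 
(.lf (nat_lit 509294) (.g (nat_lit 1655) (.e (nat_lit 172100) (nat_lit 9) (.e (nat_lit 426025) (nat_lit 0) (.e (nat_lit 3397) (nat_lit 211) (.e (nat_lit 647183) (nat_lit 4) (.e (nat_lit 172094) (nat_lit 9) .nil))))) (.g (nat_lit 0) (.e (nat_lit 192077) (nat_lit 0) .nil) .nil))) 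
(.lf (nat_lit 509806) (.g (nat_lit 2627) (.e (nat_lit 172113) (nat_lit 10) (.e (nat_lit 434242) (nat_lit 28) (.e (nat_lit 573471) (nat_lit 11) (.e (nat_lit 16455) (nat_lit 12) (.e (nat_lit 475185) (nat_lit 29) .nil))))) (.g (nat_lit 0) (.e (nat_lit 193357) (nat_lit 0) .nil) .nil))))) (.nd (nat_lit 8) (.nd (nat_lit 9) 
(.lf (nat_lit 509166) (.g (nat_lit 719) (.e (nat_lit 172082) (nat_lit 7) (.e (nat_lit 409648) (nat_lit 18) (.e (nat_lit 303146) (nat_lit 14) .nil))) (.g (nat_lit 0) (.e (nat_lit 191747) (nat_lit 0) .nil) .nil))) 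
(.lf (nat_lit 509678) (.g (nat_lit 1225) (.e (nat_lit 172112) (nat_lit 10) (.e (nat_lit 434202) (nat_lit 18) (.e (nat_lit 6740) (nat_lit 365) (.e (nat_lit 1201) (nat_lit 88) (.e (nat_lit 65617) (nat_lit 10) .nil))))) (.g (nat_lit 0) (.e (nat_lit 193076) (nat_lit 0) .nil) .nil)))) (.nd (nat_lit 9) 
(.lf (nat_lit 509422) (.g (nat_lit 3633) (.e (nat_lit 172105) (nat_lit 10) (.e (nat_lit 434248) (nat_lit 28) (.e (nat_lit 573475) (nat_lit 12) (.e (nat_lit 57574) (nat_lit 55) (.e (nat_lit 778466) (nat_lit 11) (.e (nat_lit 24604) (nat_lit 2) (.e (nat_lit 90168) (nat_lit 13) .nil))))))) (.g (nat_lit 1) (.e (nat_lit 192359) (nat_lit 0) .nil) .nil))) 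
(.lf (nat_lit 509934) (.g (nat_lit 1681) (.e (nat_lit 172113) (nat_lit 10) (.e (nat_lit 434248) (nat_lit 28) (.e (nat_lit 573471) (nat_lit 11) (.e (nat_lit 16384) (nat_lit 0) .nil)))) (.g (nat_lit 0) (.e (nat_lit 193550) (nat_lit 0) .nil) .nil)))))))) (.nd (nat_lit 5) (.nd (nat_lit 6) (.nd (nat_lit 7) (.nd (nat_lit 8) (.nd (nat_lit 9) 
(.lf (nat_lit 508958) (.g (nat_lit 3408) (.e (nat_lit 172079) (nat_lit 7) (.e (nat_lit 409645) (nat_lit 18) (.e (nat_lit 303140) (nat_lit 10) (.e (nat_lit 434275) (nat_lit 39) (.e (nat_lit 663574) (nat_lit 9) (.e (nat_lit 2466) (nat_lit 157) (.e (nat_lit 3469) (nat_lit 217) (.e (nat_lit 696344) (nat_lit 8) .nil)))))))) (.g (nat_lit 1) (.e (nat_lit 190592) (nat_lit 0) .nil) .nil))) 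
(.lf (nat_lit 509470) (.g (nat_lit 482) (.e (nat_lit 172106) (nat_lit 10) (.e (nat_lit 434231) (nat_lit 23) (.e (nat_lit 532500) (nat_lit 1) .nil))) (.g (nat_lit 0) (.e (nat_lit 192509) (nat_lit 0) .nil) .nil)))) (.nd (nat_lit 9) 
(.lf (nat_lit 509214) (.g (nat_lit 1278) (.e (nat_lit 172085) (nat_lit 9) (.e (nat_lit 426568) (nat_lit 34) (.e (nat_lit 393238) (nat_lit 17) (.e (nat_lit 3399) (nat_lit 211) .nil)))) (.g (nat_lit 0) (.e (nat_lit 191922) (nat_lit 0) .nil) .nil))) 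
(.lf (nat_lit 509726) (.g (nat_lit 3034) (.e (nat_lit 172112) (nat_lit 10) (.e (nat_lit 434289) (nat_lit 43) (.e (nat_lit 696344) (nat_lit 8) (.e (nat_lit 172116) (nat_lit 10) (.e (nat_lit 434289) (nat_lit 43) (.e (nat_lit 696343) (nat_lit 8) .nil)))))) (.g (nat_lit 1) (.e (nat_lit 193187) (nat_lit 0) .nil) .nil))))) (.nd (nat_lit 8) (.nd (nat_lit 9) 
(.lf (nat_lit 509086) (.g (nat_lit 2312) (.e (nat_lit 172082) (nat_lit 7) (.e (nat_lit 409616) (nat_lit 10) (.e (nat_lit 632) (nat_lit 50) (.e (nat_lit 573491) (nat_lit 15) (.e (nat_lit 81947) (nat_lit 20) .nil))))) (.g (nat_lit 0) (.e (nat_lit 191043) (nat_lit 0) .nil) .nil))) 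
(.lf (nat_lit 509598) (.g (nat_lit 2153) (.e (nat_lit 172106) (nat_lit 10) (.e (nat_lit 434289) (nat_lit 43) (.e (nat_lit 696343) (nat_lit 8) (.e (nat_lit 172113) (nat_lit 10) (.e (nat_lit 434287) (nat_lit 43) (.e (nat_lit 696344) (nat_lit 8) .nil)))))) (.g (nat_lit 1) (.e (nat_lit 192949) (nat_lit 0) .nil) .nil)))) (.nd (nat_lit 9) 
(.lf (nat_lit 509342) (.g (nat_lit 3556) (.e (nat_lit 172097) (nat_lit 9) (.e (nat_lit 426140) (nat_lit 3) (.e (nat_lit 204821) (nat_lit 17) (.e (nat_lit 6680) (nat_lit 357) (.e (nat_lit 3067) (nat_lit 190) (.e (nat_lit 475184) (nat_lit 29) (.e (nat_lit 557098) (nat_lit 13) .nil))))))) (.g (nat_lit 1) (.e (nat_lit 192251) (nat_lit 0) .nil) .nil))) 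
(.lf (nat_lit 509854) (.g (nat_lit 3078) (.e (nat_lit 172113) (nat_lit 10) (.e (nat_lit 434245) (nat_lit 28) (.e (nat_lit 573469) (nat_lit 11) (.e (nat_lit 16433) (nat_lit 9) (.e (nat_lit 426361) (nat_lit 15) (.e (nat_lit 1860) (nat_lit 124) (.e (nat_lit 557100) (nat_lit 13) .nil))))))) (.g (nat_lit 1) (.e (nat_lit 193424) (nat_lit 0) .nil) .nil)))))) 
(.nd (nat_lit 7) (.nd (nat_lit 8) (.nd (nat_lit 9) 
(.lf (nat_lit 509022) (.g (nat_lit 888) (.e (nat_lit 172080) (nat_lit 7) (.e (nat_lit 409638) (nat_lit 15) (.e (nat_lit 278566) (nat_lit 16) (.e (nat_lit 286755) (nat_lit 10) (.e (nat_lit 344154) (nat_lit 35) (.e (nat_lit 630802) (nat_lit 8) .nil)))))) (.g (nat_lit 1) (.e (nat_lit 190882) (nat_lit 0) .nil) .nil))) 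
(.lf (nat_lit 509534) (.g (nat_lit 2009) (.e (nat_lit 172106) (nat_lit 10) (.e (nat_lit 434244) (nat_lit 28) (.e (nat_lit 573471) (nat_lit 11) (.e (nat_lit 16391) (nat_lit 0) .nil)))) (.g (nat_lit 0) (.e (nat_lit 192723) (nat_lit 0) .nil) .nil)))) (.nd (nat_lit 9) 
(.lf (nat_lit 509278) (.g (nat_lit 638) (.e (nat_lit 172094) (nat_lit 9) (.e (nat_lit 426140) (nat_lit 3) (.e (nat_lit 204863) (nat_lit 27) .nil))) (.g (nat_lit 0) (.e (nat_lit 192044) (nat_lit 0) .nil) .nil))) 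
(.lf (nat_lit 509790) (.g (nat_lit 2165) (.e (nat_lit 172113) (nat_lit 10) (.e (nat_lit 434231) (nat_lit 23) (.e (nat_lit 532526) (nat_lit 8) (.e (nat_lit 327705) (nat_lit 10) (.e (nat_lit 5371) (nat_lit 298) .nil))))) (.g (nat_lit 0) (.e (nat_lit 193329) (nat_lit 0) .nil) .nil))))) (.nd (nat_lit 8) (.nd (nat_lit 9) 
(.lf (nat_lit 509150) (.g (nat_lit 3304) (.e (nat_lit 172082) (nat_lit 7) (.e (nat_lit 409646) (nat_lit 18) (.e (nat_lit 303146) (nat_lit 14) (.e (nat_lit 491560) (nat_lit 10) (.e (nat_lit 344154) (nat_lit 35) (.e (nat_lit 630802) (nat_lit 8) .nil)))))) (.g (nat_lit 1) (.e (nat_lit 191674) (nat_lit 0) .nil) .nil))) 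
(.lf (nat_lit 509662) (.g (nat_lit 4335) (.e (nat_lit 172111) (nat_lit 10) (.e (nat_lit 434231) (nat_lit 23) (.e (nat_lit 532523) (nat_lit 7) (.e (nat_lit 319530) (nat_lit 16) (.e (nat_lit 286733) (nat_lit 2) (.e (nat_lit 90169) (nat_lit 13) .nil)))))) (.g (nat_lit 1) (.e (nat_lit 193058) (nat_lit 0) .nil) .nil)))) (.nd (nat_lit 9) 
(.lf (nat_lit 509406) (.g (nat_lit 1397) (.e (nat_lit 172105) (nat_lit 10) (.e (nat_lit 434248) (nat_lit 28) (.e (nat_lit 573452) (nat_lit 9) (.e (nat_lit 430) (nat_lit 32) .nil)))) (.g (nat_lit 0) (.e (nat_lit 192343) (nat_lit 0) .nil) .nil))) 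
(.lf (nat_lit 509918) (.g (nat_lit 2000) (.e (nat_lit 172113) (nat_lit 10) (.e (nat_lit 434248) (nat_lit 28) (.e (nat_lit 573449) (nat_lit 9) (.e (nat_lit 375) (nat_lit 32) (.e (nat_lit 426317) (nat_lit 12) .nil))))) (.g (nat_lit 0) (.e (nat_lit 193528) (nat_lit 0) .nil) .nil))))))) (.nd (nat_lit 6) (.nd (nat_lit 7) (.nd (nat_lit 8) (.nd (nat_lit 9) 
(.lf (nat_lit 508990) (.g (nat_lit 2573) (.e (nat_lit 172079) (nat_lit 7) (.e (nat_lit 409645) (nat_lit 18) (.e (nat_lit 311040) (nat_lit 35) (.e (nat_lit 401454) (nat_lit 12) (.e (nat_lit 475195) (nat_lit 40) (.e (nat_lit 712448) (nat_lit 4) .nil)))))) (.g (nat_lit 1) (.e (nat_lit 190819) (nat_lit 0) .nil) .nil))) 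
(.lf (nat_lit 509502) (.g (nat_lit 1994) (.e (nat_lit 172106) (nat_lit 10) (.e (nat_lit 434231) (nat_lit 23) (.e (nat_lit 532535) (nat_lit 9) (.e (nat_lit 336295) (nat_lit 15) (.e (nat_lit 3711) (nat_lit 227) .nil))))) (.g (nat_lit 0) (.e (nat_lit 192549) (nat_lit 0) .nil) .nil)))) (.nd (nat_lit 9) 
(.lf (nat_lit 509246) (.g (nat_lit 2321) (.e (nat_lit 172093) (nat_lit 9) (.e (nat_lit 426140) (nat_lit 3) (.e (nat_lit 204846) (nat_lit 24) (.e (nat_lit 327424) (nat_lit 16) .nil)))) (.g (nat_lit 0) (.e (nat_lit 191975) (nat_lit 0) .nil) .nil))) 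
(.lf (nat_lit 509758) (.g (nat_lit 3130) (.e (nat_lit 172113) (nat_lit 10) (.e (nat_lit 434231) (nat_lit 23) (.e (nat_lit 532490) (nat_lit 0) (.e (nat_lit 6114) (nat_lit 332) (.e (nat_lit 968) (nat_lit 81) .nil))))) (.g (nat_lit 0) (.e (nat_lit 193296) (nat_lit 0) .nil) .nil))))) (.nd (nat_lit 8) (.nd (nat_lit 9) 
(.lf (nat_lit 509118) (.g (nat_lit 3434) (.e (nat_lit 172082) (nat_lit 7) (.e (nat_lit 409646) (nat_lit 18) (.e (nat_lit 303137) (nat_lit 10) (.e (nat_lit 434275) (nat_lit 39) (.e (nat_lit 663580) (nat_lit 9) (.e (nat_lit 2416) (nat_lit 157) (.e (nat_lit 3471) (nat_lit 217) (.e (nat_lit 696343) (nat_lit 8) .nil)))))))) (.g (nat_lit 1) (.e (nat_lit 191408) (nat_lit 0) .nil) .nil))) 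
(.lf (nat_lit 509630) (.g (nat_lit 1052) (.e (nat_lit 172107) (nat_lit 10) (.e (nat_lit 434268) (nat_lit 36) (.e (nat_lit 639020) (nat_lit 16) (.e (nat_lit 65616) (nat_lit 10) .nil)))) (.g (nat_lit 0) (.e (nat_lit 193006) (nat_lit 0) .nil) .nil)))) (.nd (nat_lit 9) 
(.lf (nat_lit 509374) (.g (nat_lit 636) (.e (nat_lit 172098) (nat_lit 9) (.e (nat_lit 426025) (nat_lit 0) (.e (nat_lit 3397) (nat_lit 211) .nil))) (.g (nat_lit 0) (.e (nat_lit 192288) (nat_lit 0) .nil) .nil))) 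
(.lf (nat_lit 509886) (.g (nat_lit 3536) (.e (nat_lit 172113) (nat_lit 10) (.e (nat_lit 434245) (nat_lit 28) (.e (nat_lit 573471) (nat_lit 11) (.e (nat_lit 16470) (nat_lit 14) (.e (nat_lit 491535) (nat_lit 2) (.e (nat_lit 90170) (nat_lit 13) .nil)))))) (.g (nat_lit 1) (.e (nat_lit 193489) (nat_lit 0) .nil) .nil)))))) (.nd (nat_lit 7) (.nd (nat_lit 8) (.nd (nat_lit 9) 
(.lf (nat_lit 509054) (.g (nat_lit 683) (.e (nat_lit 172081) (nat_lit 7) (.e (nat_lit 409639) (nat_lit 15) (.e (nat_lit 278567) (nat_lit 16) (.e (nat_lit 286754) (nat_lit 10) (.e (nat_lit 344153) (nat_lit 35) (.e (nat_lit 630801) (nat_lit 8) .nil)))))) (.g (nat_lit 1) (.e (nat_lit 190954) (nat_lit 0) .nil) .nil))) 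
(.lf (nat_lit 509566) (.g (nat_lit 3158) (.e (nat_lit 172106) (nat_lit 10) (.e (nat_lit 434268) (nat_lit 36) (.e (nat_lit 639020) (nat_lit 16) (.e (nat_lit 65617) (nat_lit 10) (.e (nat_lit 344156) (nat_lit 36) (.e (nat_lit 638998) (nat_lit 8) .nil)))))) (.g (nat_lit 1) (.e (nat_lit 192792) (nat_lit 0) .nil) .nil)))) (.nd (nat_lit 9) 
(.lf (nat_lit 509310) (.g (nat_lit 2193) (.e (nat_lit 172096) (nat_lit 9) (.e (nat_lit 426140) (nat_lit 3) (.e (nat_lit 204846) (nat_lit 24) (.e (nat_lit 319533) (nat_lit 16) (.e (nat_lit 286732) (nat_lit 2) .nil))))) (.g (nat_lit 0) (.e (nat_lit 192104) (nat_lit 0) .nil) .nil))) 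
(.lf (nat_lit 509822) (.g (nat_lit 3408) (.e (nat_lit 172113) (nat_lit 10) (.e (nat_lit 434242) (nat_lit 28) (.e (nat_lit 573474) (nat_lit 12) (.e (nat_lit 57572) (nat_lit 54) (.e (nat_lit 770054) (nat_lit 5) .nil))))) (.g (nat_lit 0) (.e (nat_lit 193375) (nat_lit 0) .nil) .nil))))) (.nd (nat_lit 8) (.nd (nat_lit 9) 
(.lf (nat_lit 509182) (.g (nat_lit 3718) (.e (nat_lit 172082) (nat_lit 7) (.e (nat_lit 409649) (nat_lit 18) (.e (nat_lit 303140) (nat_lit 10) (.e (nat_lit 434275) (nat_lit 39) (.e (nat_lit 663580) (nat_lit 9) (.e (nat_lit 2478) (nat_lit 157) (.e (nat_lit 3464) (nat_lit 217) (.e (nat_lit 696344) (nat_lit 8) .nil)))))))) (.g (nat_lit 1) (.e (nat_lit 191799) (nat_lit 0) .nil) .nil))) 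
(.lf (nat_lit 509694) (.g (nat_lit 2860) (.e (nat_lit 172112) (nat_lit 10) (.e (nat_lit 434248) (nat_lit 28) (.e (nat_lit 573475) (nat_lit 12) (.e (nat_lit 57574) (nat_lit 55) (.e (nat_lit 778465) (nat_lit 11) (.e (nat_lit 24603) (nat_lit 2) (.e (nat_lit 90166) (nat_lit 13) .nil))))))) (.g (nat_lit 1) (.e (nat_lit 193119) (nat_lit 0) .nil) .nil)))) (.nd (nat_lit 9) 
(.lf (nat_lit 509438) (.g (nat_lit 1245) (.e (nat_lit 172105) (nat_lit 10) (.e (nat_lit 434289) (nat_lit 43) (.e (nat_lit 696343) (nat_lit 8) (.e (nat_lit 172113) (nat_lit 10) .nil)))) (.g (nat_lit 0) (.e (nat_lit 192380) (nat_lit 0) .nil) .nil))) 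
(.lf (nat_lit 509950) (.g (nat_lit 3813) (.e (nat_lit 172113) (nat_lit 10) (.e (nat_lit 434248) (nat_lit 28) (.e (nat_lit 573471) (nat_lit 11) (.e (nat_lit 16433) (nat_lit 9) (.e (nat_lit 426400) (nat_lit 15) .nil))))) (.g (nat_lit 0) (.e (nat_lit 193567) (nat_lit 0) .nil) .nil)))))))))))) 
(.nd (nat_lit 1) (.nd (nat_lit 2) (.nd (nat_lit 3) (.nd (nat_lit 4) (.nd (nat_lit 5) 
(.nd (nat_lit 6) (.nd (nat_lit 7) (.nd (nat_lit 8) (.nd (nat_lit 9) 
(.lf (nat_lit 508929) (.g (nat_lit 400) (.e (nat_lit 172079) (nat_lit 7) (.e (nat_lit 409645) (nat_lit 18) (.e (nat_lit 303112) (nat_lit 0) .nil))) (.g (nat_lit 0) (.e (nat_lit 190356) (nat_lit 0) .nil) .nil))) 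
(.lf (nat_lit 509441) (.g (nat_lit 305) (.e (nat_lit 172106) (nat_lit 10) (.e (nat_lit 434202) (nat_lit 18) (.e (nat_lit 3996) (nat_lit 240) .nil))) (.g (nat_lit 0) (.e (nat_lit 192383) (nat_lit 0) .nil) .nil)))) (.nd (nat_lit 9) 
(.lf (nat_lit 509185) (.g (nat_lit 2639) (.e (nat_lit 172082) (nat_lit 7) (.e (nat_lit 409649) (nat_lit 18) (.e (nat_lit 303146) (nat_lit 14) (.e (nat_lit 491558) (nat_lit 10) (.e (nat_lit 344154) (nat_lit 35) (.e (nat_lit 630802) (nat_lit 8) .nil)))))) (.g (nat_lit 1) (.e (nat_lit 191824) (nat_lit 0) .nil) .nil))) 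
(.lf (nat_lit 509697) (.g (nat_lit 730) (.e (nat_lit 172112) (nat_lit 10) (.e (nat_lit 434265) (nat_lit 35) (.e (nat_lit 630820) (nat_lit 16) (.e (nat_lit 65616) (nat_lit 10) (.e (nat_lit 344154) (nat_lit 35) (.e (nat_lit 630802) (nat_lit 8) .nil)))))) (.g (nat_lit 1) (.e (nat_lit 193123) (nat_lit 0) .nil) .nil))))) (.nd (nat_lit 8) (.nd (nat_lit 9) 
(.lf (nat_lit 509057) (.g (nat_lit 722) (.e (nat_lit 172081) (nat_lit 7) (.e (nat_lit 409648) (nat_lit 18) (.e (nat_lit 303137) (nat_lit 10) .nil))) (.g (nat_lit 0) (.e (nat_lit 190961) (nat_lit 0) .nil) .nil))) 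
(.lf (nat_lit 509569) (.g (nat_lit 1510) (.e (nat_lit 172106) (nat_lit 10) (.e (nat_lit 434275) (nat_lit 39) (.e (nat_lit 663574) (nat_lit 9) (.e (nat_lit 247) (nat_lit 21) .nil)))) (.g (nat_lit 0) (.e (nat_lit 192804) (nat_lit 0) .nil) .nil)))) (.nd (nat_lit 9) 
(.lf (nat_lit 509313) (.g (nat_lit 1776) (.e (nat_lit 172096) (nat_lit 9) (.e (nat_lit 426140) (nat_lit 3) (.e (nat_lit 204846) (nat_lit 24) (.e (nat_lit 319534) (nat_lit 16) (.e (nat_lit 286732) (nat_lit 2) .nil))))) (.g (nat_lit 0) (.e (nat_lit 192107) (nat_lit 0) .nil) .nil))) 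
(.lf (nat_lit 509825) (.g (nat_lit 3087) (.e (nat_lit 172113) (nat_lit 10) (.e (nat_lit 434242) (nat_lit 28) (.e (nat_lit 573474) (nat_lit 12) (.e (nat_lit 57572) (nat_lit 54) (.e (nat_lit 770071) (nat_lit 8) .nil))))) (.g (nat_lit 0) (.e (nat_lit 193378) (nat_lit 0) .nil) .nil)))))) (.nd (nat_lit 7) (.nd (nat_lit 8) (.nd (nat_lit 9) 
(.lf (nat_lit 508993) (.g (nat_lit 2366) (.e (nat_lit 172079) (nat_lit 7) (.e (nat_lit 409645) (nat_lit 18) (.e (nat_lit 311040) (nat_lit 35) (.e (nat_lit 401454) (nat_lit 12) (.e (nat_lit 475198) (nat_lit 40) (.e (nat_lit 712448) (nat_lit 4) .nil)))))) (.g (nat_lit 1) (.e (nat_lit 190822) (nat_lit 0) .nil) .nil))) 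
(.lf (nat_lit 509505) (.g (nat_lit 2296) (.e (nat_lit 172106) (nat_lit 10) (.e (nat_lit 434231) (nat_lit 23) (.e (nat_lit 532569) (nat_lit 16) (.e (nat_lit 401415) (nat_lit 0) .nil)))) (.g (nat_lit 0) (.e (nat_lit 192598) (nat_lit 0) .nil) .nil)))) (.nd (nat_lit 9) 
(.lf (nat_lit 509249) (.g (nat_lit 343) (.e (nat_lit 172094) (nat_lit 9) (.e (nat_lit 426109) (nat_lit 1) (.e (nat_lit 164319) (nat_lit 228) .nil))) (.g (nat_lit 0) (.e (nat_lit 191986) (nat_lit 0) .nil) .nil))) 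
(.lf (nat_lit 509761) (.g (nat_lit 2341) (.e (nat_lit 172113) (nat_lit 10) (.e (nat_lit 434231) (nat_lit 23) (.e (nat_lit 532490) (nat_lit 0) (.e (nat_lit 7936) (nat_lit 361) .nil)))) (.g (nat_lit 0) (.e (nat_lit 193299) (nat_lit 0) .nil) .nil))))) (.nd (nat_lit 8) (.nd (nat_lit 9) 
(.lf (nat_lit 509121) (.g (nat_lit 3695) (.e (nat_lit 172082) (nat_lit 7) (.e (nat_lit 409646) (nat_lit 18) (.e (nat_lit 303137) (nat_lit 10) (.e (nat_lit 434275) (nat_lit 39) (.e (nat_lit 663584) (nat_lit 12) (.e (nat_lit 164020) (nat_lit 45) (.e (nat_lit 696344) (nat_lit 8) .nil))))))) (.g (nat_lit 1) (.e (nat_lit 191413) (nat_lit 0) .nil) .nil))) 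
(.lf (nat_lit 509633) (.g (nat_lit 444) (.e (nat_lit 172107) (nat_lit 10) (.e (nat_lit 434268) (nat_lit 36) (.e (nat_lit 639021) (nat_lit 16) .nil))) (.g (nat_lit 0) (.e (nat_lit 193010) (nat_lit 0) .nil) .nil)))) (.nd (nat_lit 9) 
(.lf (nat_lit 509377) (.g (nat_lit 1245) (.e (nat_lit 172103) (nat_lit 9) (.e (nat_lit 426133) (nat_lit 3) (.e (nat_lit 204884) (nat_lit 33) .nil))) (.g (nat_lit 0) (.e (nat_lit 192301) (nat_lit 0) .nil) .nil))) 
(.lf (nat_lit 509889) (.g (nat_lit 3497) (.e (nat_lit 172113) (nat_lit 10) (.e (nat_lit 434245) (nat_lit 28) (.e (nat_lit 573471) (nat_lit 11) (.e (nat_lit 16470) (nat_lit 14) (.e (nat_lit 499456) (nat_lit 2) (.e (nat_lit 90170) (nat_lit 13) .nil)))))) (.g (nat_lit 1) (.e (nat_lit 193492) (nat_lit 0) .nil) .nil))))))) (.nd (nat_lit 6) (.nd (nat_lit 7) (.nd (nat_lit 8) (.nd (nat_lit 9) 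
(.lf (nat_lit 508961) (.g (nat_lit 2801) (.e (nat_lit 172079) (nat_lit 7) (.e (nat_lit 409645) (nat_lit 18) (.e (nat_lit 303140) (nat_lit 10) (.e (nat_lit 434275) (nat_lit 39) (.e (nat_lit 663584) (nat_lit 12) (.e (nat_lit 164020) (nat_lit 45) (.e (nat_lit 696344) (nat_lit 8) .nil))))))) (.g (nat_lit 1) (.e (nat_lit 190598) (nat_lit 0) .nil) .nil))) 
(.lf (nat_lit 509473) (.g (nat_lit 1036) (.e (nat_lit 172106) (nat_lit 10) (.e (nat_lit 434231) (nat_lit 23) (.e (nat_lit 532504) (nat_lit 1) .nil))) (.g (nat_lit 0) (.e (nat_lit 192512) (nat_lit 0) .nil) .nil)))) (.nd (nat_lit 9) 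
(.lf (nat_lit 509217) (.g (nat_lit 711) (.e (nat_lit 172086) (nat_lit 9) (.e (nat_lit 426537) (nat_lit 28) (.e (nat_lit 344174) (nat_lit 42) (.e (nat_lit 761906) (nat_lit 16) .nil)))) (.g (nat_lit 0) (.e (nat_lit 191926) (nat_lit 0) .nil) .nil))) 
(.lf (nat_lit 509729) (.g (nat_lit 1827) (.e (nat_lit 172112) (nat_lit 10) (.e (nat_lit 434289) (nat_lit 43) (.e (nat_lit 696346) (nat_lit 10) (.e (nat_lit 188441) (nat_lit 20) (.e (nat_lit 3468) (nat_lit 217) .nil))))) (.g (nat_lit 0) (.e (nat_lit 193190) (nat_lit 0) .nil) .nil))))) (.nd (nat_lit 8) (.nd (nat_lit 9) 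
(.lf (nat_lit 509089) (.g (nat_lit 1786) (.e (nat_lit 172082) (nat_lit 7) (.e (nat_lit 409617) (nat_lit 10) (.e (nat_lit 632) (nat_lit 50) (.e (nat_lit 573491) (nat_lit 15) (.e (nat_lit 81947) (nat_lit 20) .nil))))) (.g (nat_lit 0) (.e (nat_lit 191052) (nat_lit 0) .nil) .nil))) 
(.lf (nat_lit 509601) (.g (nat_lit 3491) (.e (nat_lit 172106) (nat_lit 10) (.e (nat_lit 434289) (nat_lit 43) (.e (nat_lit 696343) (nat_lit 8) (.e (nat_lit 172116) (nat_lit 10) (.e (nat_lit 434289) (nat_lit 43) (.e (nat_lit 696344) (nat_lit 8) .nil)))))) (.g (nat_lit 1) (.e (nat_lit 192955) (nat_lit 0) .nil) .nil)))) (.nd (nat_lit 9) 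
(.lf (nat_lit 509345) (.g (nat_lit 5724) (.e (nat_lit 172097) (nat_lit 9) (.e (nat_lit 426140) (nat_lit 3) (.e (nat_lit 204845) (nat_lit 24) (.e (nat_lit 319529) (nat_lit 16) (.e (nat_lit 286733) (nat_lit 2) (.e (nat_lit 90170) (nat_lit 13) .nil)))))) (.g (nat_lit 1) (.e (nat_lit 192255) (nat_lit 0) .nil) .nil))) 
(.lf (nat_lit 509857) (.g (nat_lit 2247) (.e (nat_lit 172113) (nat_lit 10) (.e (nat_lit 434245) (nat_lit 28) (.e (nat_lit 573471) (nat_lit 11) (.e (nat_lit 16387) (nat_lit 0) (.e (nat_lit 7545) (nat_lit 402) .nil))))) (.g (nat_lit 0) (.e (nat_lit 193428) (nat_lit 0) .nil) .nil)))))) (.nd (nat_lit 7) (.nd (nat_lit 8) (.nd (nat_lit 9) 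
(.lf (nat_lit 509025) (.g (nat_lit 1022) (.e (nat_lit 172080) (nat_lit 7) (.e (nat_lit 409638) (nat_lit 15) (.e (nat_lit 278567) (nat_lit 16) (.e (nat_lit 286753) (nat_lit 10) (.e (nat_lit 344157) (nat_lit 36) (.e (nat_lit 638999) (nat_lit 8) .nil)))))) (.g (nat_lit 1) (.e (nat_lit 190885) (nat_lit 0) .nil) .nil))) 
(.lf (nat_lit 509537) (.g (nat_lit 2440) (.e (nat_lit 172106) (nat_lit 10) (.e (nat_lit 434244) (nat_lit 28) (.e (nat_lit 573471) (nat_lit 11) (.e (nat_lit 16433) (nat_lit 9) (.e (nat_lit 426350) (nat_lit 15) .nil))))) (.g (nat_lit 0) (.e (nat_lit 192755) (nat_lit 0) .nil) .nil)))) (.nd (nat_lit 9) 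
(.lf (nat_lit 509281) (.g (nat_lit 3269) (.e (nat_lit 172095) (nat_lit 9) (.e (nat_lit 426125) (nat_lit 2) (.e (nat_lit 196666) (nat_lit 13) (.e (nat_lit 65553) (nat_lit 0) .nil)))) (.g (nat_lit 0) (.e (nat_lit 192061) (nat_lit 0) .nil) .nil))) 
(.lf (nat_lit 509793) (.g (nat_lit 578) (.e (nat_lit 172113) (nat_lit 10) (.e (nat_lit 434231) (nat_lit 23) (.e (nat_lit 532569) (nat_lit 16) .nil))) (.g (nat_lit 0) (.e (nat_lit 193332) (nat_lit 0) .nil) .nil))))) (.nd (nat_lit 8) (.nd (nat_lit 9) 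
(.lf (nat_lit 509153) (.g (nat_lit 3674) (.e (nat_lit 172082) (nat_lit 7) (.e (nat_lit 409646) (nat_lit 18) (.e (nat_lit 303146) (nat_lit 14) (.e (nat_lit 491560) (nat_lit 10) (.e (nat_lit 344157) (nat_lit 36) (.e (nat_lit 638999) (nat_lit 8) .nil)))))) (.g (nat_lit 1) (.e (nat_lit 191677) (nat_lit 0) .nil) .nil))) 
(.lf (nat_lit 509665) (.g (nat_lit 2748) (.e (nat_lit 172111) (nat_lit 10) (.e (nat_lit 434247) (nat_lit 28) (.e (nat_lit 573477) (nat_lit 12) (.e (nat_lit 57574) (nat_lit 55) (.e (nat_lit 778465) (nat_lit 11) (.e (nat_lit 24603) (nat_lit 2) (.e (nat_lit 90169) (nat_lit 13) .nil))))))) (.g (nat_lit 1) (.e (nat_lit 193063) (nat_lit 0) .nil) .nil)))) (.nd (nat_lit 9) 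
(.lf (nat_lit 509409) (.g (nat_lit 1984) (.e (nat_lit 172105) (nat_lit 10) (.e (nat_lit 434248) (nat_lit 28) (.e (nat_lit 573469) (nat_lit 11) (.e (nat_lit 16458) (nat_lit 12) .nil)))) (.g (nat_lit 0) (.e (nat_lit 192346) (nat_lit 0) .nil) .nil))) 
(.lf (nat_lit 509921) (.g (nat_lit 1952) (.e (nat_lit 172113) (nat_lit 10) (.e (nat_lit 434248) (nat_lit 28) (.e (nat_lit 573450) (nat_lit 9) (.e (nat_lit 459) (nat_lit 34) (.e (nat_lit 442378) (nat_lit 0) .nil))))) (.g (nat_lit 0) (.e (nat_lit 193533) (nat_lit 0) .nil) .nil)))))))) (.nd (nat_lit 5) (.nd (nat_lit 6) (.nd (nat_lit 7) (.nd (nat_lit 8) (.nd (nat_lit 9) 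
(.lf (nat_lit 508945) (.g (nat_lit 401) (.e (nat_lit 172079) (nat_lit 7) (.e (nat_lit 409645) (nat_lit 18) (.e (nat_lit 303135) (nat_lit 10) .nil))) (.g (nat_lit 0) (.e (nat_lit 190551) (nat_lit 0) .nil) .nil))) 
(.lf (nat_lit 509457) (.g (nat_lit 3677) (.e (nat_lit 172106) (nat_lit 10) (.e (nat_lit 434231) (nat_lit 23) (.e (nat_lit 532481) (nat_lit 0) (.e (nat_lit 6617) (nat_lit 357) (.e (nat_lit 2887) (nat_lit 184) (.e (nat_lit 426412) (nat_lit 15) (.e (nat_lit 1856) (nat_lit 124) (.e (nat_lit 557100) (nat_lit 13) .nil)))))))) (.g (nat_lit 1) (.e (nat_lit 192489) (nat_lit 0) .nil) .nil)))) 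
(.nd (nat_lit 9) 
(.lf (nat_lit 509201) (.g (nat_lit 2525) (.e (nat_lit 172085) (nat_lit 9) (.e (nat_lit 426140) (nat_lit 3) (.e (nat_lit 204846) (nat_lit 24) (.e (nat_lit 319528) (nat_lit 16) (.e (nat_lit 286733) (nat_lit 2) .nil))))) (.g (nat_lit 0) (.e (nat_lit 191905) (nat_lit 0) .nil) .nil))) 
(.lf (nat_lit 509713) (.g (nat_lit 1218) (.e (nat_lit 172112) (nat_lit 10) (.e (nat_lit 434272) (nat_lit 38) (.e (nat_lit 655364) (nat_lit 0) (.e (nat_lit 3021) (nat_lit 187) .nil)))) (.g (nat_lit 0) (.e (nat_lit 193156) (nat_lit 0) .nil) .nil))))) (.nd (nat_lit 8) (.nd (nat_lit 9) 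
(.lf (nat_lit 509073) (.g (nat_lit 913) (.e (nat_lit 172081) (nat_lit 7) (.e (nat_lit 409649) (nat_lit 18) (.e (nat_lit 303146) (nat_lit 14) .nil))) (.g (nat_lit 0) (.e (nat_lit 191013) (nat_lit 0) .nil) .nil))) 
(.lf (nat_lit 509585) (.g (nat_lit 2433) (.e (nat_lit 172106) (nat_lit 10) (.e (nat_lit 434287) (nat_lit 43) (.e (nat_lit 696344) (nat_lit 8) (.e (nat_lit 172113) (nat_lit 10) (.e (nat_lit 434289) (nat_lit 43) (.e (nat_lit 696344) (nat_lit 8) .nil)))))) (.g (nat_lit 1) (.e (nat_lit 192917) (nat_lit 0) .nil) .nil)))) (.nd (nat_lit 9) 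
(.lf (nat_lit 509329) (.g (nat_lit 3814) (.e (nat_lit 172097) (nat_lit 9) (.e (nat_lit 426125) (nat_lit 2) (.e (nat_lit 196661) (nat_lit 12) (.e (nat_lit 57751) (nat_lit 201) (.e (nat_lit 3067) (nat_lit 190) (.e (nat_lit 475184) (nat_lit 29) (.e (nat_lit 557098) (nat_lit 13) .nil))))))) (.g (nat_lit 1) (.e (nat_lit 192231) (nat_lit 0) .nil) .nil))) 
(.lf (nat_lit 509841) (.g (nat_lit 2518) (.e (nat_lit 172113) (nat_lit 10) (.e (nat_lit 434244) (nat_lit 28) (.e (nat_lit 573471) (nat_lit 11) (.e (nat_lit 16473) (nat_lit 14) .nil)))) (.g (nat_lit 0) (.e (nat_lit 193397) (nat_lit 0) .nil) .nil)))))) (.nd (nat_lit 7) (.nd (nat_lit 8) (.nd (nat_lit 9) 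
(.lf (nat_lit 509009) (.g (nat_lit 2018) (.e (nat_lit 172079) (nat_lit 7) (.e (nat_lit 409651) (nat_lit 19) (.e (nat_lit 311345) (nat_lit 14) (.e (nat_lit 491560) (nat_lit 10) (.e (nat_lit 344156) (nat_lit 36) (.e (nat_lit 638999) (nat_lit 8) .nil)))))) (.g (nat_lit 1) (.e (nat_lit 190857) (nat_lit 0) .nil) .nil))) 
(.lf (nat_lit 509521) (.g (nat_lit 4595) (.e (nat_lit 172106) (nat_lit 10) (.e (nat_lit 434244) (nat_lit 28) (.e (nat_lit 573450) (nat_lit 9) (.e (nat_lit 459) (nat_lit 34) (.e (nat_lit 442379) (nat_lit 0) (.e (nat_lit 1856) (nat_lit 124) (.e (nat_lit 557100) (nat_lit 13) .nil))))))) (.g (nat_lit 1) (.e (nat_lit 192707) (nat_lit 0) .nil) .nil)))) (.nd (nat_lit 9) 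
(.lf (nat_lit 509265) (.g (nat_lit 4441) (.e (nat_lit 172094) (nat_lit 9) (.e (nat_lit 426140) (nat_lit 3) (.e (nat_lit 204845) (nat_lit 24) (.e (nat_lit 319531) (nat_lit 16) (.e (nat_lit 286733) (nat_lit 2) (.e (nat_lit 90169) (nat_lit 13) .nil)))))) (.g (nat_lit 1) (.e (nat_lit 192025) (nat_lit 0) .nil) .nil))) 
(.lf (nat_lit 509777) (.g (nat_lit 3822) (.e (nat_lit 172113) (nat_lit 10) (.e (nat_lit 434231) (nat_lit 23) (.e (nat_lit 532523) (nat_lit 7) (.e (nat_lit 319506) (nat_lit 10) (.e (nat_lit 5245) (nat_lit 298) .nil))))) (.g (nat_lit 0) (.e (nat_lit 193316) (nat_lit 0) .nil) .nil))))) (.nd (nat_lit 8) (.nd (nat_lit 9) 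
(.lf (nat_lit 509137) (.g (nat_lit 2601) (.e (nat_lit 172082) (nat_lit 7) (.e (nat_lit 409646) (nat_lit 18) (.e (nat_lit 303143) (nat_lit 12) (.e (nat_lit 475199) (nat_lit 40) (.e (nat_lit 704614) (nat_lit 9) .nil))))) (.g (nat_lit 0) (.e (nat_lit 191561) (nat_lit 0) .nil) .nil))) 
(.lf (nat_lit 509649) (.g (nat_lit 1783) (.e (nat_lit 172107) (nat_lit 10) (.e (nat_lit 434289) (nat_lit 43) (.e (nat_lit 696346) (nat_lit 10) (.e (nat_lit 188434) (nat_lit 20) (.e (nat_lit 3467) (nat_lit 217) .nil))))) (.g (nat_lit 0) (.e (nat_lit 193045) (nat_lit 0) .nil) .nil)))) (.nd (nat_lit 9) 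
(.lf (nat_lit 509393) (.g (nat_lit 481) (.e (nat_lit 172105) (nat_lit 10) (.e (nat_lit 434247) (nat_lit 28) (.e (nat_lit 573469) (nat_lit 11) .nil))) (.g (nat_lit 0) (.e (nat_lit 192330) (nat_lit 0) .nil) .nil))) 
(.lf (nat_lit 509905) (.g (nat_lit 2607) (.e (nat_lit 172113) (nat_lit 10) (.e (nat_lit 434247) (nat_lit 28) (.e (nat_lit 573471) (nat_lit 11) (.e (nat_lit 16473) (nat_lit 14) (.e (nat_lit 491536) (nat_lit 2) .nil))))) (.g (nat_lit 0) (.e (nat_lit 193515) (nat_lit 0) .nil) .nil))))))) (.nd (nat_lit 6) (.nd (nat_lit 7) (.nd (nat_lit 8) (.nd (nat_lit 9) 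
(.lf (nat_lit 508977) (.g (nat_lit 2804) (.e (nat_lit 172079) (nat_lit 7) (.e (nat_lit 409645) (nat_lit 18) (.e (nat_lit 303143) (nat_lit 12) (.e (nat_lit 475212) (nat_lit 42) (.e (nat_lit 720910) (nat_lit 20) .nil))))) (.g (nat_lit 0) (.e (nat_lit 190748) (nat_lit 0) .nil) .nil))) 
(.lf (nat_lit 509489) (.g (nat_lit 3195) (.e (nat_lit 172106) (nat_lit 10) (.e (nat_lit 434231) (nat_lit 23) (.e (nat_lit 532523) (nat_lit 7) (.e (nat_lit 319531) (nat_lit 16) (.e (nat_lit 286733) (nat_lit 2) (.e (nat_lit 90167) (nat_lit 13) .nil)))))) (.g (nat_lit 1) (.e (nat_lit 192531) (nat_lit 0) .nil) .nil)))) (.nd (nat_lit 9) 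
(.lf (nat_lit 509233) (.g (nat_lit 3411) (.e (nat_lit 172089) (nat_lit 9) (.e (nat_lit 426499) (nat_lit 27) (.e (nat_lit 336231) (nat_lit 14) (.e (nat_lit 401448) (nat_lit 10) (.e (nat_lit 434289) (nat_lit 43) .nil))))) (.g (nat_lit 0) (.e (nat_lit 191958) (nat_lit 0) .nil) .nil))) 
(.lf (nat_lit 509745) (.g (nat_lit 1388) (.e (nat_lit 172113) (nat_lit 10) (.e (nat_lit 434209) (nat_lit 18) (.e (nat_lit 5548) (nat_lit 306) (.e (nat_lit 2648) (nat_lit 166) .nil)))) (.g (nat_lit 0) (.e (nat_lit 193276) (nat_lit 0) .nil) .nil))))) (.nd (nat_lit 8) (.nd (nat_lit 9) 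
(.lf (nat_lit 509105) (.g (nat_lit 982) (.e (nat_lit 172082) (nat_lit 7) (.e (nat_lit 409646) (nat_lit 18) (.e (nat_lit 303125) (nat_lit 8) .nil))) (.g (nat_lit 0) (.e (nat_lit 191128) (nat_lit 0) .nil) .nil))) 
(.lf (nat_lit 509617) (.g (nat_lit 662) (.e (nat_lit 172107) (nat_lit 10) (.e (nat_lit 434209) (nat_lit 18) (.e (nat_lit 5548) (nat_lit 306) .nil))) (.g (nat_lit 0) (.e (nat_lit 192978) (nat_lit 0) .nil) .nil)))) (.nd (nat_lit 9) 
(.lf (nat_lit 509361) (.g (nat_lit 3574) (.e (nat_lit 172097) (nat_lit 9) (.e (nat_lit 426140) (nat_lit 3) (.e (nat_lit 204846) (nat_lit 24) (.e (nat_lit 319532) (nat_lit 16) (.e (nat_lit 286733) (nat_lit 2) (.e (nat_lit 90170) (nat_lit 13) .nil)))))) (.g (nat_lit 1) (.e (nat_lit 192271) (nat_lit 0) .nil) .nil))) 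
(.lf (nat_lit 509873) (.g (nat_lit 3607) (.e (nat_lit 172113) (nat_lit 10) (.e (nat_lit 434245) (nat_lit 28) (.e (nat_lit 573471) (nat_lit 11) (.e (nat_lit 16433) (nat_lit 9) (.e (nat_lit 426393) (nat_lit 15) .nil))))) (.g (nat_lit 0) (.e (nat_lit 193473) (nat_lit 0) .nil) .nil)))))) (.nd (nat_lit 7) (.nd (nat_lit 8) (.nd (nat_lit 9) 
(.lf (nat_lit 509041) (.g (nat_lit 1660) (.e (nat_lit 172081) (nat_lit 7) (.e (nat_lit 409616) (nat_lit 10) (.e (nat_lit 632) (nat_lit 50) (.e (nat_lit 573491) (nat_lit 15) .nil)))) (.g (nat_lit 0) (.e (nat_lit 190923) (nat_lit 0) .nil) .nil))) 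
(.lf (nat_lit 509553) (.g (nat_lit 2040) (.e (nat_lit 172106) (nat_lit 10) (.e (nat_lit 434248) (nat_lit 28) (.e (nat_lit 573471) (nat_lit 11) (.e (nat_lit 16472) (nat_lit 14) .nil)))) (.g (nat_lit 0) (.e (nat_lit 192774) (nat_lit 0) .nil) .nil)))) (.nd (nat_lit 9) 
(.lf (nat_lit 509297) (.g (nat_lit 712) (.e (nat_lit 172100) (nat_lit 9) (.e (nat_lit 426109) (nat_lit 1) (.e (nat_lit 164319) (nat_lit 228) (.e (nat_lit 57412) (nat_lit 12) .nil)))) (.g (nat_lit 0) (.e (nat_lit 192080) (nat_lit 0) .nil) .nil))) 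
(.lf (nat_lit 509809) (.g (nat_lit 2072) (.e (nat_lit 172113) (nat_lit 10) (.e (nat_lit 434242) (nat_lit 28) (.e (nat_lit 573474) (nat_lit 12) (.e (nat_lit 57348) (nat_lit 0) .nil)))) (.g (nat_lit 0) (.e (nat_lit 193361) (nat_lit 0) .nil) .nil))))) (.nd (nat_lit 8) (.nd (nat_lit 9) 
(.lf (nat_lit 509169) (.g (nat_lit 703) (.e (nat_lit 172082) (nat_lit 7) (.e (nat_lit 409649) (nat_lit 18) (.e (nat_lit 303132) (nat_lit 9) .nil))) (.g (nat_lit 0) (.e (nat_lit 191760) (nat_lit 0) .nil) .nil))) 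
(.lf (nat_lit 509681) (.g (nat_lit 1371) (.e (nat_lit 172112) (nat_lit 10) (.e (nat_lit 434208) (nat_lit 18) (.e (nat_lit 6252) (nat_lit 337) (.e (nat_lit 7936) (nat_lit 166) .nil)))) (.g (nat_lit 0) (.e (nat_lit 193079) (nat_lit 0) .nil) .nil)))) (.nd (nat_lit 9) 
(.lf (nat_lit 509425) (.g (nat_lit 397) (.e (nat_lit 172105) (nat_lit 10) (.e (nat_lit 434271) (nat_lit 38) (.e (nat_lit 655380) (nat_lit 6) .nil))) (.g (nat_lit 0) (.e (nat_lit 192364) (nat_lit 0) .nil) .nil))) 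
(.lf (nat_lit 509937) (.g (nat_lit 2548) (.e (nat_lit 172113) (nat_lit 10) (.e (nat_lit 434248) (nat_lit 28) (.e (nat_lit 573471) (nat_lit 11) (.e (nat_lit 16385) (nat_lit 0) (.e (nat_lit 7541) (nat_lit 402) .nil))))) (.g (nat_lit 0) (.e (nat_lit 193553) (nat_lit 0) .nil) .nil))))))))) (.nd (nat_lit 4) (.nd (nat_lit 5) (.nd (nat_lit 6) (.nd (nat_lit 7) (.nd (nat_lit 8) (.nd (nat_lit 9) 
(.lf (nat_lit 508937) (.g (nat_lit 1138) (.e (nat_lit 172079) (nat_lit 7) (.e (nat_lit 409645) (nat_lit 18) (.e (nat_lit 303127) (nat_lit 9) (.e (nat_lit 426112) (nat_lit 1) .nil)))) (.g (nat_lit 0) (.e (nat_lit 190430) (nat_lit 0) .nil) .nil))) 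
(.lf (nat_lit 509449) (.g (nat_lit 2192) (.e (nat_lit 172106) (nat_lit 10) (.e (nat_lit 434209) (nat_lit 18) (.e (nat_lit 5547) (nat_lit 306) (.e (nat_lit 2650) (nat_lit 166) (.e (nat_lit 188435) (nat_lit 20) (.e (nat_lit 3409) (nat_lit 212) (.e (nat_lit 655378) (nat_lit 4) .nil))))))) (.g (nat_lit 1) (.e (nat_lit 192432) (nat_lit 0) .nil) .nil)))) (.nd (nat_lit 9) 
(.lf (nat_lit 509193) (.g (nat_lit 2221) (.e (nat_lit 172085) (nat_lit 9) (.e (nat_lit 426125) (nat_lit 2) (.e (nat_lit 196661) (nat_lit 12) (.e (nat_lit 57712) (nat_lit 176) .nil)))) (.g (nat_lit 0) (.e (nat_lit 191897) (nat_lit 0) .nil) .nil))) 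
(.lf (nat_lit 509705) (.g (nat_lit 1911) (.e (nat_lit 172112) (nat_lit 10) (.e (nat_lit 434268) (nat_lit 36) (.e (nat_lit 639020) (nat_lit 16) (.e (nat_lit 65619) (nat_lit 10) (.e (nat_lit 344153) (nat_lit 35) (.e (nat_lit 630801) (nat_lit 8) .nil)))))) (.g (nat_lit 1) (.e (nat_lit 193134) (nat_lit 0) .nil) .nil))))) (.nd (nat_lit 8) (.nd (nat_lit 9) 
(.lf (nat_lit 509065) (.g (nat_lit 846) (.e (nat_lit 172081) (nat_lit 7) (.e (nat_lit 409649) (nat_lit 18) (.e (nat_lit 303140) (nat_lit 10) .nil))) (.g (nat_lit 0) (.e (nat_lit 190988) (nat_lit 0) .nil) .nil))) 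
(.lf (nat_lit 509577) (.g (nat_lit 2801) (.e (nat_lit 172106) (nat_lit 10) (.e (nat_lit 434271) (nat_lit 38) (.e (nat_lit 655378) (nat_lit 4) (.e (nat_lit 172094) (nat_lit 9) (.e (nat_lit 426025) (nat_lit 0) (.e (nat_lit 3399) (nat_lit 211) (.e (nat_lit 647183) (nat_lit 4) .nil))))))) (.g (nat_lit 1) (.e (nat_lit 192828) (nat_lit 0) .nil) .nil)))) (.nd (nat_lit 9) 
(.lf (nat_lit 509321) (.g (nat_lit 1572) (.e (nat_lit 172097) (nat_lit 9) (.e (nat_lit 426109) (nat_lit 1) (.e (nat_lit 164347) (nat_lit 240) (.e (nat_lit 2648) (nat_lit 166) (.e (nat_lit 188438) (nat_lit 20) .nil))))) (.g (nat_lit 0) (.e (nat_lit 192183) (nat_lit 0) .nil) .nil))) 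
(.lf (nat_lit 509833) (.g (nat_lit 2600) (.e (nat_lit 172113) (nat_lit 10) (.e (nat_lit 434244) (nat_lit 28) (.e (nat_lit 573451) (nat_lit 9) (.e (nat_lit 359) (nat_lit 30) .nil)))) (.g (nat_lit 0) (.e (nat_lit 193387) (nat_lit 0) .nil) .nil)))))) (.nd (nat_lit 7) (.nd (nat_lit 8) (.nd (nat_lit 9) 
(.lf (nat_lit 509001) (.g (nat_lit 1649) (.e (nat_lit 172079) (nat_lit 7) (.e (nat_lit 409648) (nat_lit 18) (.e (nat_lit 303137) (nat_lit 10) (.e (nat_lit 434275) (nat_lit 39) .nil)))) (.g (nat_lit 0) (.e (nat_lit 190838) (nat_lit 0) .nil) .nil))) 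
(.lf (nat_lit 509513) (.g (nat_lit 2777) (.e (nat_lit 172106) (nat_lit 10) (.e (nat_lit 434238) (nat_lit 25) (.e (nat_lit 548913) (nat_lit 18) (.e (nat_lit 172042) (nat_lit 0) (.e (nat_lit 7554) (nat_lit 402) .nil))))) (.g (nat_lit 0) (.e (nat_lit 192685) (nat_lit 0) .nil) .nil)))) (.nd (nat_lit 9) 
(.lf (nat_lit 509257) (.g (nat_lit 3675) (.e (nat_lit 172094) (nat_lit 9) (.e (nat_lit 426125) (nat_lit 2) (.e (nat_lit 196666) (nat_lit 13) (.e (nat_lit 65543) (nat_lit 0) .nil)))) (.g (nat_lit 0) (.e (nat_lit 192010) (nat_lit 0) .nil) .nil))) 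
(.lf (nat_lit 509769) (.g (nat_lit 3600) (.e (nat_lit 172113) (nat_lit 10) (.e (nat_lit 434231) (nat_lit 23) (.e (nat_lit 532523) (nat_lit 7) (.e (nat_lit 319501) (nat_lit 10) .nil)))) (.g (nat_lit 0) (.e (nat_lit 193308) (nat_lit 0) .nil) .nil))))) (.nd (nat_lit 8) (.nd (nat_lit 9) 
(.lf (nat_lit 509129) (.g (nat_lit 3728) (.e (nat_lit 172082) (nat_lit 7) (.e (nat_lit 409646) (nat_lit 18) (.e (nat_lit 303140) (nat_lit 10) (.e (nat_lit 434275) (nat_lit 39) (.e (nat_lit 663574) (nat_lit 9) (.e (nat_lit 2466) (nat_lit 157) (.e (nat_lit 3469) (nat_lit 217) (.e (nat_lit 696344) (nat_lit 8) .nil)))))))) (.g (nat_lit 1) (.e (nat_lit 191437) (nat_lit 0) .nil) .nil))) 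
(.lf (nat_lit 509641) (.g (nat_lit 2072) (.e (nat_lit 172107) (nat_lit 10) (.e (nat_lit 434289) (nat_lit 43) (.e (nat_lit 696343) (nat_lit 8) (.e (nat_lit 172113) (nat_lit 10) (.e (nat_lit 434287) (nat_lit 43) (.e (nat_lit 696344) (nat_lit 8) .nil)))))) (.g (nat_lit 1) (.e (nat_lit 193032) (nat_lit 0) .nil) .nil)))) (.nd (nat_lit 9) 
(.lf (nat_lit 509385) (.g (nat_lit 864) (.e (nat_lit 179968) (nat_lit 9) (.e (nat_lit 426125) (nat_lit 2) (.e (nat_lit 196683) (nat_lit 18) .nil))) (.g (nat_lit 0) (.e (nat_lit 192309) (nat_lit 0) .nil) .nil))) 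
(.lf (nat_lit 509897) (.g (nat_lit 4444) (.e (nat_lit 172113) (nat_lit 10) (.e (nat_lit 434247) (nat_lit 28) (.e (nat_lit 573457) (nat_lit 9) (.e (nat_lit 430) (nat_lit 32) (.e (nat_lit 426011) (nat_lit 0) (.e (nat_lit 7490) (nat_lit 402) (.e (nat_lit 1239) (nat_lit 91) (.e (nat_lit 90170) (nat_lit 13) .nil)))))))) (.g (nat_lit 1) (.e (nat_lit 193506) (nat_lit 0) .nil) .nil))))))) 
(.nd (nat_lit 6) (.nd (nat_lit 7) (.nd (nat_lit 8) (.nd (nat_lit 9) 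
(.lf (nat_lit 508969) (.g (nat_lit 3239) (.e (nat_lit 172079) (nat_lit 7) (.e (nat_lit 409645) (nat_lit 18) (.e (nat_lit 303143) (nat_lit 12) (.e (nat_lit 475199) (nat_lit 40) (.e (nat_lit 704852) (nat_lit 17) .nil))))) (.g (nat_lit 0) (.e (nat_lit 190711) (nat_lit 0) .nil) .nil))) 
(.lf (nat_lit 509481) (.g (nat_lit 2623) (.e (nat_lit 172106) (nat_lit 10) (.e (nat_lit 434231) (nat_lit 23) (.e (nat_lit 532523) (nat_lit 7) (.e (nat_lit 319504) (nat_lit 10) (.e (nat_lit 5272) (nat_lit 298) .nil))))) (.g (nat_lit 0) (.e (nat_lit 192521) (nat_lit 0) .nil) .nil)))) (.nd (nat_lit 9) 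
(.lf (nat_lit 509225) (.g (nat_lit 1330) (.e (nat_lit 172088) (nat_lit 9) (.e (nat_lit 426499) (nat_lit 27) (.e (nat_lit 336231) (nat_lit 14) (.e (nat_lit 401448) (nat_lit 10) .nil)))) (.g (nat_lit 0) (.e (nat_lit 191948) (nat_lit 0) .nil) .nil))) 
(.lf (nat_lit 509737) (.g (nat_lit 2286) (.e (nat_lit 172113) (nat_lit 10) (.e (nat_lit 434208) (nat_lit 18) (.e (nat_lit 6255) (nat_lit 337) (.e (nat_lit 2651) (nat_lit 166) (.e (nat_lit 188435) (nat_lit 20) .nil))))) (.g (nat_lit 0) (.e (nat_lit 193239) (nat_lit 0) .nil) .nil))))) (.nd (nat_lit 8) (.nd (nat_lit 9) 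
(.lf (nat_lit 509097) (.g (nat_lit 1105) (.e (nat_lit 172082) (nat_lit 7) (.e (nat_lit 409639) (nat_lit 15) (.e (nat_lit 278566) (nat_lit 16) (.e (nat_lit 286756) (nat_lit 10) (.e (nat_lit 344154) (nat_lit 35) (.e (nat_lit 630802) (nat_lit 8) .nil)))))) (.g (nat_lit 1) (.e (nat_lit 191072) (nat_lit 0) .nil) .nil))) 
(.lf (nat_lit 509609) (.g (nat_lit 2332) (.e (nat_lit 172106) (nat_lit 10) (.e (nat_lit 434289) (nat_lit 43) (.e (nat_lit 696344) (nat_lit 8) (.e (nat_lit 172113) (nat_lit 10) (.e (nat_lit 434287) (nat_lit 43) (.e (nat_lit 696344) (nat_lit 8) .nil)))))) (.g (nat_lit 1) (.e (nat_lit 192968) (nat_lit 0) .nil) .nil)))) (.nd (nat_lit 9) 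
(.lf (nat_lit 509353) (.g (nat_lit 4103) (.e (nat_lit 172097) (nat_lit 9) (.e (nat_lit 426140) (nat_lit 3) (.e (nat_lit 204845) (nat_lit 24) (.e (nat_lit 319531) (nat_lit 16) (.e (nat_lit 286733) (nat_lit 2) (.e (nat_lit 90168) (nat_lit 13) .nil)))))) (.g (nat_lit 1) (.e (nat_lit 192263) (nat_lit 0) .nil) .nil))) 
(.lf (nat_lit 509865) (.g (nat_lit 3675) (.e (nat_lit 172113) (nat_lit 10) (.e (nat_lit 434245) (nat_lit 28) (.e (nat_lit 573471) (nat_lit 11) (.e (nat_lit 16433) (nat_lit 9) (.e (nat_lit 426355) (nat_lit 15) .nil))))) (.g (nat_lit 0) (.e (nat_lit 193465) (nat_lit 0) .nil) .nil)))))) (.nd (nat_lit 7) (.nd (nat_lit 8) (.nd (nat_lit 9) 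
(.lf (nat_lit 509033) (.g (nat_lit 1805) (.e (nat_lit 172080) (nat_lit 7) (.e (nat_lit 409645) (nat_lit 18) (.e (nat_lit 303143) (nat_lit 12) (.e (nat_lit 475215) (nat_lit 43) .nil)))) (.g (nat_lit 0) (.e (nat_lit 190910) (nat_lit 0) .nil) .nil))) 
(.lf (nat_lit 509545) (.g (nat_lit 2342) (.e (nat_lit 172106) (nat_lit 10) (.e (nat_lit 434244) (nat_lit 28) (.e (nat_lit 573474) (nat_lit 12) (.e (nat_lit 57572) (nat_lit 54) (.e (nat_lit 770070) (nat_lit 8) .nil))))) (.g (nat_lit 0) (.e (nat_lit 192765) (nat_lit 0) .nil) .nil)))) (.nd (nat_lit 9) 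
(.lf (nat_lit 509289) (.g (nat_lit 4328) (.e (nat_lit 172095) (nat_lit 9) (.e (nat_lit 426140) (nat_lit 3) (.e (nat_lit 204846) (nat_lit 24) (.e (nat_lit 319534) (nat_lit 16) (.e (nat_lit 286733) (nat_lit 2) (.e (nat_lit 90170) (nat_lit 13) .nil)))))) (.g (nat_lit 1) (.e (nat_lit 192069) (nat_lit 0) .nil) .nil))) 
(.lf (nat_lit 509801) (.g (nat_lit 2275) (.e (nat_lit 172113) (nat_lit 10) (.e (nat_lit 434242) (nat_lit 28) (.e (nat_lit 573451) (nat_lit 9) (.e (nat_lit 359) (nat_lit 30) (.e (nat_lit 409602) (nat_lit 0) .nil))))) (.g (nat_lit 0) (.e (nat_lit 193349) (nat_lit 0) .nil) .nil))))) (.nd (nat_lit 8) (.nd (nat_lit 9) 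
(.lf (nat_lit 509161) (.g (nat_lit 1749) (.e (nat_lit 172082) (nat_lit 7) (.e (nat_lit 409646) (nat_lit 18) (.e (nat_lit 311040) (nat_lit 35) (.e (nat_lit 401454) (nat_lit 12) (.e (nat_lit 475202) (nat_lit 40) .nil))))) (.g (nat_lit 0) (.e (nat_lit 191728) (nat_lit 0) .nil) .nil))) 
(.lf (nat_lit 509673) (.g (nat_lit 2287) (.e (nat_lit 172111) (nat_lit 10) (.e (nat_lit 434248) (nat_lit 28) (.e (nat_lit 573475) (nat_lit 12) (.e (nat_lit 57574) (nat_lit 55) (.e (nat_lit 778465) (nat_lit 11) (.e (nat_lit 24604) (nat_lit 2) (.e (nat_lit 90169) (nat_lit 13) .nil))))))) (.g (nat_lit 1) (.e (nat_lit 193071) (nat_lit 0) .nil) .nil)))) (.nd (nat_lit 9) 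
(.lf (nat_lit 509417) (.g (nat_lit 1829) (.e (nat_lit 172105) (nat_lit 10) (.e (nat_lit 434248) (nat_lit 28) (.e (nat_lit 573471) (nat_lit 11) (.e (nat_lit 16459) (nat_lit 12) .nil)))) (.g (nat_lit 0) (.e (nat_lit 192354) (nat_lit 0) .nil) .nil))) 
(.lf (nat_lit 509929) (.g (nat_lit 4242) (.e (nat_lit 172113) (nat_lit 10) (.e (nat_lit 434248) (nat_lit 28) (.e (nat_lit 573469) (nat_lit 11) (.e (nat_lit 16472) (nat_lit 14) (.e (nat_lit 491537) (nat_lit 2) (.e (nat_lit 90170) (nat_lit 13) .nil)))))) (.g (nat_lit 1) (.e (nat_lit 193545) (nat_lit 0) .nil) .nil)))))))) 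
(.nd (nat_lit 5) (.nd (nat_lit 6) (.nd (nat_lit 7) (.nd (nat_lit 8) (.nd (nat_lit 9) 
(.lf (nat_lit 508953) (.g (nat_lit 3748) (.e (nat_lit 172079) (nat_lit 7) (.e (nat_lit 409645) (nat_lit 18) (.e (nat_lit 303137) (nat_lit 10) (.e (nat_lit 434275) (nat_lit 39) (.e (nat_lit 663584) (nat_lit 12) (.e (nat_lit 164020) (nat_lit 45) (.e (nat_lit 696344) (nat_lit 8) .nil))))))) (.g (nat_lit 1) (.e (nat_lit 190572) (nat_lit 0) .nil) .nil))) 
(.lf (nat_lit 509465) (.g (nat_lit 2024) (.e (nat_lit 172106) (nat_lit 10) (.e (nat_lit 434231) (nat_lit 23) (.e (nat_lit 532490) (nat_lit 0) (.e (nat_lit 6674) (nat_lit 357) (.e (nat_lit 7936) (nat_lit 190) .nil))))) (.g (nat_lit 0) (.e (nat_lit 192504) (nat_lit 0) .nil) .nil)))) (.nd (nat_lit 9) 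
(.lf (nat_lit 509209) (.g (nat_lit 1160) (.e (nat_lit 172085) (nat_lit 9) (.e (nat_lit 426482) (nat_lit 27) (.e (nat_lit 336060) (nat_lit 7) (.e (nat_lit 319533) (nat_lit 16) .nil)))) (.g (nat_lit 0) (.e (nat_lit 191914) (nat_lit 0) .nil) .nil))) 
(.lf (nat_lit 509721) (.g (nat_lit 1882) (.e (nat_lit 172112) (nat_lit 10) (.e (nat_lit 434289) (nat_lit 43) (.e (nat_lit 696344) (nat_lit 8) (.e (nat_lit 172106) (nat_lit 10) (.e (nat_lit 434287) (nat_lit 43) .nil))))) (.g (nat_lit 0) (.e (nat_lit 193182) (nat_lit 0) .nil) .nil))))) (.nd (nat_lit 8) (.nd (nat_lit 9) 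
(.lf (nat_lit 509081) (.g (nat_lit 1861) (.e (nat_lit 172082) (nat_lit 7) (.e (nat_lit 409612) (nat_lit 10) (.e (nat_lit 632) (nat_lit 50) (.e (nat_lit 573491) (nat_lit 15) (.e (nat_lit 81946) (nat_lit 20) .nil))))) (.g (nat_lit 0) (.e (nat_lit 191027) (nat_lit 0) .nil) .nil))) 
(.lf (nat_lit 509593) (.g (nat_lit 1791) (.e (nat_lit 172106) (nat_lit 10) (.e (nat_lit 434288) (nat_lit 43) (.e (nat_lit 696344) (nat_lit 8) (.e (nat_lit 172113) (nat_lit 10) (.e (nat_lit 434287) (nat_lit 43) (.e (nat_lit 696344) (nat_lit 8) .nil)))))) (.g (nat_lit 1) (.e (nat_lit 192929) (nat_lit 0) .nil) .nil)))) (.nd (nat_lit 9) 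
(.lf (nat_lit 509337) (.g (nat_lit 2081) (.e (nat_lit 172097) (nat_lit 9) (.e (nat_lit 426125) (nat_lit 2) (.e (nat_lit 196695) (nat_lit 18) (.e (nat_lit 2795) (nat_lit 180) .nil)))) (.g (nat_lit 0) (.e (nat_lit 192239) (nat_lit 0) .nil) .nil))) 
(.lf (nat_lit 509849) (.g (nat_lit 4436) (.e (nat_lit 172113) (nat_lit 10) (.e (nat_lit 434245) (nat_lit 28) (.e (nat_lit 573450) (nat_lit 9) (.e (nat_lit 459) (nat_lit 34) (.e (nat_lit 442379) (nat_lit 0) (.e (nat_lit 1856) (nat_lit 124) (.e (nat_lit 557100) (nat_lit 13) .nil))))))) (.g (nat_lit 1) (.e (nat_lit 193413) (nat_lit 0) .nil) .nil)))))) 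
(.nd (nat_lit 7) (.nd (nat_lit 8) (.nd (nat_lit 9) 
(.lf (nat_lit 509017) (.g (nat_lit 1447) (.e (nat_lit 172080) (nat_lit 7) (.e (nat_lit 409638) (nat_lit 15) (.e (nat_lit 278566) (nat_lit 16) (.e (nat_lit 286753) (nat_lit 10) (.e (nat_lit 344157) (nat_lit 36) (.e (nat_lit 638999) (nat_lit 8) .nil)))))) (.g (nat_lit 1) (.e (nat_lit 190877) (nat_lit 0) .nil) .nil))) 
(.lf (nat_lit 509529) (.g (nat_lit 1738) (.e (nat_lit 172106) (nat_lit 10) (.e (nat_lit 434244) (nat_lit 28) (.e (nat_lit 573470) (nat_lit 11) (.e (nat_lit 16471) (nat_lit 14) (.e (nat_lit 491536) (nat_lit 2) .nil))))) (.g (nat_lit 0) (.e (nat_lit 192717) (nat_lit 0) .nil) .nil)))) (.nd (nat_lit 9) 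
(.lf (nat_lit 509273) (.g (nat_lit 4850) (.e (nat_lit 172094) (nat_lit 9) (.e (nat_lit 426140) (nat_lit 3) (.e (nat_lit 204846) (nat_lit 24) (.e (nat_lit 319533) (nat_lit 16) (.e (nat_lit 286733) (nat_lit 2) (.e (nat_lit 90170) (nat_lit 13) .nil)))))) (.g (nat_lit 1) (.e (nat_lit 192035) (nat_lit 0) .nil) .nil))) 
(.lf (nat_lit 509785) (.g (nat_lit 2909) (.e (nat_lit 172113) (nat_lit 10) (.e (nat_lit 434231) (nat_lit 23) (.e (nat_lit 532523) (nat_lit 7) (.e (nat_lit 327424) (nat_lit 17) .nil)))) (.g (nat_lit 0) (.e (nat_lit 193324) (nat_lit 0) .nil) .nil))))) (.nd (nat_lit 8) (.nd (nat_lit 9) 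
(.lf (nat_lit 509145) (.g (nat_lit 962) (.e (nat_lit 172082) (nat_lit 7) (.e (nat_lit 409646) (nat_lit 18) (.e (nat_lit 303143) (nat_lit 12) (.e (nat_lit 475212) (nat_lit 42) .nil)))) (.g (nat_lit 0) (.e (nat_lit 191634) (nat_lit 0) .nil) .nil))) 
(.lf (nat_lit 509657) (.g (nat_lit 860) (.e (nat_lit 172110) (nat_lit 10) (.e (nat_lit 434248) (nat_lit 28) (.e (nat_lit 573471) (nat_lit 11) .nil))) (.g (nat_lit 0) (.e (nat_lit 193053) (nat_lit 0) .nil) .nil)))) (.nd (nat_lit 9) 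
(.lf (nat_lit 509401) (.g (nat_lit 2042) (.e (nat_lit 172105) (nat_lit 10) (.e (nat_lit 434247) (nat_lit 28) (.e (nat_lit 573477) (nat_lit 12) (.e (nat_lit 57575) (nat_lit 55) (.e (nat_lit 778465) (nat_lit 11) (.e (nat_lit 24603) (nat_lit 2) (.e (nat_lit 90166) (nat_lit 13) .nil))))))) (.g (nat_lit 1) (.e (nat_lit 192338) (nat_lit 0) .nil) .nil))) 
(.lf (nat_lit 509913) (.g (nat_lit 3915) (.e (nat_lit 172113) (nat_lit 10) (.e (nat_lit 434247) (nat_lit 28) (.e (nat_lit 573477) (nat_lit 12) (.e (nat_lit 57575) (nat_lit 55) (.e (nat_lit 778466) (nat_lit 11) (.e (nat_lit 24602) (nat_lit 2) (.e (nat_lit 90170) (nat_lit 13) .nil))))))) (.g (nat_lit 1) (.e (nat_lit 193523) (nat_lit 0) .nil) .nil))))))) 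
(.nd (nat_lit 6) (.nd (nat_lit 7) (.nd (nat_lit 8) (.nd (nat_lit 9) 
(.lf (nat_lit 508985) (.g (nat_lit 2604) (.e (nat_lit 172079) (nat_lit 7) (.e (nat_lit 409645) (nat_lit 18) (.e (nat_lit 303146) (nat_lit 14) (.e (nat_lit 491558) (nat_lit 10) (.e (nat_lit 344154) (nat_lit 35) (.e (nat_lit 630802) (nat_lit 8) .nil)))))) (.g (nat_lit 1) (.e (nat_lit 190779) (nat_lit 0) .nil) .nil))) 
(.lf (nat_lit 509497) (.g (nat_lit 4022) (.e (nat_lit 172106) (nat_lit 10) (.e (nat_lit 434231) (nat_lit 23) (.e (nat_lit 532535) (nat_lit 9) (.e (nat_lit 336295) (nat_lit 15) (.e (nat_lit 3631) (nat_lit 227) (.e (nat_lit 778317) (nat_lit 3) (.e (nat_lit 57477) (nat_lit 28) (.e (nat_lit 557099) (nat_lit 13) .nil)))))))) (.g (nat_lit 1) (.e (nat_lit 192543) (nat_lit 0) .nil) .nil)))) 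
(.nd (nat_lit 9) 
(.lf (nat_lit 509241) (.g (nat_lit 768) (.e (nat_lit 172092) (nat_lit 9) (.e (nat_lit 426528) (nat_lit 27) (.e (nat_lit 335894) (nat_lit 0) (.e (nat_lit 6724) (nat_lit 362) .nil)))) (.g (nat_lit 0) (.e (nat_lit 191968) (nat_lit 0) .nil) .nil))) 
(.lf (nat_lit 509753) (.g (nat_lit 1913) (.e (nat_lit 172113) (nat_lit 10) (.e (nat_lit 434231) (nat_lit 23) (.e (nat_lit 532481) (nat_lit 0) (.e (nat_lit 6714) (nat_lit 360) .nil)))) (.g (nat_lit 0) (.e (nat_lit 193291) (nat_lit 0) .nil) .nil))))) (.nd (nat_lit 8) (.nd (nat_lit 9) 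
(.lf (nat_lit 509113) (.g (nat_lit 2592) (.e (nat_lit 172082) (nat_lit 7) (.e (nat_lit 409646) (nat_lit 18) (.e (nat_lit 303135) (nat_lit 10) (.e (nat_lit 434275) (nat_lit 39) (.e (nat_lit 663580) (nat_lit 9) (.e (nat_lit 2478) (nat_lit 157) (.e (nat_lit 3464) (nat_lit 217) (.e (nat_lit 696343) (nat_lit 8) .nil)))))))) (.g (nat_lit 1) (.e (nat_lit 191398) (nat_lit 0) .nil) .nil))) 
(.lf (nat_lit 509625) (.g (nat_lit 1432) (.e (nat_lit 172107) (nat_lit 10) (.e (nat_lit 434241) (nat_lit 27) (.e (nat_lit 565269) (nat_lit 6) (.e (nat_lit 81938) (nat_lit 20) (.e (nat_lit 2389) (nat_lit 156) .nil))))) (.g (nat_lit 0) (.e (nat_lit 192999) (nat_lit 0) .nil) .nil)))) (.nd (nat_lit 9) 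
(.lf (nat_lit 509369) (.g (nat_lit 3601) (.e (nat_lit 172097) (nat_lit 9) (.e (nat_lit 426140) (nat_lit 3) (.e (nat_lit 204883) (nat_lit 33) (.e (nat_lit 401452) (nat_lit 12) (.e (nat_lit 475185) (nat_lit 29) (.e (nat_lit 557101) (nat_lit 13) .nil)))))) (.g (nat_lit 1) (.e (nat_lit 192280) (nat_lit 0) .nil) .nil))) 
(.lf (nat_lit 509881) (.g (nat_lit 2416) (.e (nat_lit 172113) (nat_lit 10) (.e (nat_lit 434245) (nat_lit 28) (.e (nat_lit 573471) (nat_lit 11) (.e (nat_lit 16443) (nat_lit 9) (.e (nat_lit 426412) (nat_lit 15) .nil))))) (.g (nat_lit 0) (.e (nat_lit 193483) (nat_lit 0) .nil) .nil)))))) (.nd (nat_lit 7) (.nd (nat_lit 8) (.nd (nat_lit 9) 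
(.lf (nat_lit 509049) (.g (nat_lit 888) (.e (nat_lit 172081) (nat_lit 7) (.e (nat_lit 409638) (nat_lit 15) (.e (nat_lit 278566) (nat_lit 16) (.e (nat_lit 286754) (nat_lit 10) (.e (nat_lit 344154) (nat_lit 35) (.e (nat_lit 630802) (nat_lit 8) .nil)))))) (.g (nat_lit 1) (.e (nat_lit 190949) (nat_lit 0) .nil) .nil))) 
(.lf (nat_lit 509561) (.g (nat_lit 1036) (.e (nat_lit 172106) (nat_lit 10) (.e (nat_lit 434266) (nat_lit 35) (.e (nat_lit 630821) (nat_lit 16) (.e (nat_lit 65617) (nat_lit 10) (.e (nat_lit 344154) (nat_lit 35) (.e (nat_lit 630802) (nat_lit 8) .nil)))))) (.g (nat_lit 1) (.e (nat_lit 192786) (nat_lit 0) .nil) .nil)))) (.nd (nat_lit 9) 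
(.lf (nat_lit 509305) (.g (nat_lit 1726) (.e (nat_lit 172096) (nat_lit 9) (.e (nat_lit 426140) (nat_lit 3) (.e (nat_lit 204846) (nat_lit 24) (.e (nat_lit 319504) (nat_lit 10) .nil)))) (.g (nat_lit 0) (.e (nat_lit 192094) (nat_lit 0) .nil) .nil))) 
(.lf (nat_lit 509817) (.g (nat_lit 2606) (.e (nat_lit 172113) (nat_lit 10) (.e (nat_lit 434242) (nat_lit 28) (.e (nat_lit 573474) (nat_lit 12) (.e (nat_lit 57569) (nat_lit 53) (.e (nat_lit 761866) (nat_lit 5) .nil))))) (.g (nat_lit 0) (.e (nat_lit 193370) (nat_lit 0) .nil) .nil))))) (.nd (nat_lit 8) (.nd (nat_lit 9) 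
(.lf (nat_lit 509177) (.g (nat_lit 3711) (.e (nat_lit 172082) (nat_lit 7) (.e (nat_lit 409649) (nat_lit 18) (.e (nat_lit 303140) (nat_lit 10) (.e (nat_lit 434275) (nat_lit 39) (.e (nat_lit 663574) (nat_lit 9) (.e (nat_lit 2466) (nat_lit 157) (.e (nat_lit 3469) (nat_lit 217) (.e (nat_lit 696344) (nat_lit 8) .nil)))))))) (.g (nat_lit 1) (.e (nat_lit 191793) (nat_lit 0) .nil) .nil))) 
(.lf (nat_lit 509689) (.g (nat_lit 425) (.e (nat_lit 172112) (nat_lit 10) (.e (nat_lit 434248) (nat_lit 28) (.e (nat_lit 573471) (nat_lit 11) .nil))) (.g (nat_lit 0) (.e (nat_lit 193112) (nat_lit 0) .nil) .nil)))) (.nd (nat_lit 9) 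
(.lf (nat_lit 509433) (.g (nat_lit 1411) (.e (nat_lit 172105) (nat_lit 10) (.e (nat_lit 434272) (nat_lit 38) (.e (nat_lit 655364) (nat_lit 0) (.e (nat_lit 3028) (nat_lit 187) .nil)))) (.g (nat_lit 0) (.e (nat_lit 192373) (nat_lit 0) .nil) .nil))) 
(.lf (nat_lit 509945) (.g (nat_lit 3774) (.e (nat_lit 172113) (nat_lit 10) (.e (nat_lit 434248) (nat_lit 28) (.e (nat_lit 573471) (nat_lit 11) (.e (nat_lit 16433) (nat_lit 9) (.e (nat_lit 426377) (nat_lit 15) .nil))))) (.g (nat_lit 0) (.e (nat_lit 193562) (nat_lit 0) .nil) .nil)))))))))) 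
(.nd (nat_lit 3) (.nd (nat_lit 4) (.nd (nat_lit 5) (.nd (nat_lit 6) (.nd (nat_lit 7) 
(.nd (nat_lit 8) (.nd (nat_lit 9) 
(.lf (nat_lit 508933) (.g (nat_lit 460) (.e (nat_lit 172079) (nat_lit 7) (.e (nat_lit 409645) (nat_lit 18) (.e (nat_lit 303111) (nat_lit 0) .nil))) (.g (nat_lit 0) (.e (nat_lit 190383) (nat_lit 0) .nil) .nil))) 
(.lf (nat_lit 509445) (.g (nat_lit 1718) (.e (nat_lit 172106) (nat_lit 10) (.e (nat_lit 434202) (nat_lit 18) (.e (nat_lit 6416) (nat_lit 341) (.e (nat_lit 163932) (nat_lit 17) (.e (nat_lit 466967) (nat_lit 20) (.e (nat_lit 3464) (nat_lit 217) (.e (nat_lit 696343) (nat_lit 8) .nil))))))) (.g (nat_lit 1) (.e (nat_lit 192399) (nat_lit 0) .nil) .nil)))) (.nd (nat_lit 9) 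
(.lf (nat_lit 509189) (.g (nat_lit 3130) (.e (nat_lit 172082) (nat_lit 7) (.e (nat_lit 409649) (nat_lit 18) (.e (nat_lit 303146) (nat_lit 14) (.e (nat_lit 491560) (nat_lit 10) (.e (nat_lit 344157) (nat_lit 36) (.e (nat_lit 638999) (nat_lit 8) .nil)))))) (.g (nat_lit 1) (.e (nat_lit 191830) (nat_lit 0) .nil) .nil))) 
(.lf (nat_lit 509701) (.g (nat_lit 1698) (.e (nat_lit 172112) (nat_lit 10) (.e (nat_lit 434266) (nat_lit 35) (.e (nat_lit 630821) (nat_lit 16) (.e (nat_lit 65620) (nat_lit 10) (.e (nat_lit 344156) (nat_lit 36) (.e (nat_lit 638998) (nat_lit 8) .nil)))))) (.g (nat_lit 1) (.e (nat_lit 193128) (nat_lit 0) .nil) .nil))))) (.nd (nat_lit 8) (.nd (nat_lit 9) 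
(.lf (nat_lit 509061) (.g (nat_lit 1991) (.e (nat_lit 172081) (nat_lit 7) (.e (nat_lit 409648) (nat_lit 18) (.e (nat_lit 303137) (nat_lit 10) (.e (nat_lit 434275) (nat_lit 39) (.e (nat_lit 663580) (nat_lit 9) .nil))))) (.g (nat_lit 0) (.e (nat_lit 190967) (nat_lit 0) .nil) .nil))) 
(.lf (nat_lit 509573) (.g (nat_lit 371) (.e (nat_lit 172106) (nat_lit 10) (.e (nat_lit 434275) (nat_lit 39) (.e (nat_lit 663580) (nat_lit 9) .nil))) (.g (nat_lit 0) (.e (nat_lit 192808) (nat_lit 0) .nil) .nil)))) (.nd (nat_lit 9) 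
(.lf (nat_lit 509317) (.g (nat_lit 3041) (.e (nat_lit 172097) (nat_lit 9) (.e (nat_lit 426025) (nat_lit 0) (.e (nat_lit 3397) (nat_lit 211) (.e (nat_lit 647183) (nat_lit 4) (.e (nat_lit 172106) (nat_lit 10) (.e (nat_lit 434209) (nat_lit 18) (.e (nat_lit 5548) (nat_lit 306) (.e (nat_lit 2619) (nat_lit 164) .nil)))))))) (.g (nat_lit 1) (.e (nat_lit 192114) (nat_lit 0) .nil) .nil))) 
(.lf (nat_lit 509829) (.g (nat_lit 2753) (.e (nat_lit 172113) (nat_lit 10) (.e (nat_lit 434242) (nat_lit 28) (.e (nat_lit 573475) (nat_lit 12) (.e (nat_lit 57572) (nat_lit 54) (.e (nat_lit 770072) (nat_lit 8) .nil))))) (.g (nat_lit 0) (.e (nat_lit 193382) (nat_lit 0) .nil) .nil)))))) (.nd (nat_lit 7) (.nd (nat_lit 8) (.nd (nat_lit 9) 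
(.lf (nat_lit 508997) (.g (nat_lit 607) (.e (nat_lit 172079) (nat_lit 7) (.e (nat_lit 409646) (nat_lit 18) (.e (nat_lit 303140) (nat_lit 10) .nil))) (.g (nat_lit 0) (.e (nat_lit 190826) (nat_lit 0) .nil) .nil))) 
(.lf (nat_lit 509509) (.g (nat_lit 3058) (.e (nat_lit 172106) (nat_lit 10) (.e (nat_lit 434231) (nat_lit 23) (.e (nat_lit 532569) (nat_lit 16) (.e (nat_lit 401444) (nat_lit 9) (.e (nat_lit 426391) (nat_lit 15) .nil))))) (.g (nat_lit 0) (.e (nat_lit 192605) (nat_lit 0) .nil) .nil)))) (.nd (nat_lit 9) 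
(.lf (nat_lit 509253) (.g (nat_lit 884) (.e (nat_lit 172094) (nat_lit 9) (.e (nat_lit 426125) (nat_lit 2) (.e (nat_lit 196628) (nat_lit 9) .nil))) (.g (nat_lit 0) (.e (nat_lit 191996) (nat_lit 0) .nil) .nil))) 
(.lf (nat_lit 509765) (.g (nat_lit 3604) (.e (nat_lit 172113) (nat_lit 10) (.e (nat_lit 434231) (nat_lit 23) (.e (nat_lit 532523) (nat_lit 7) (.e (nat_lit 319497) (nat_lit 10) (.e (nat_lit 5258) (nat_lit 298) .nil))))) (.g (nat_lit 0) (.e (nat_lit 193304) (nat_lit 0) .nil) .nil))))) (.nd (nat_lit 8) (.nd (nat_lit 9) 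
(.lf (nat_lit 509125) (.g (nat_lit 1881) (.e (nat_lit 172082) (nat_lit 7) (.e (nat_lit 409646) (nat_lit 18) (.e (nat_lit 303140) (nat_lit 10) (.e (nat_lit 434202) (nat_lit 18) .nil)))) (.g (nat_lit 0) (.e (nat_lit 191425) (nat_lit 0) .nil) .nil))) 
(.lf (nat_lit 509637) (.g (nat_lit 2892) (.e (nat_lit 172107) (nat_lit 10) (.e (nat_lit 434272) (nat_lit 38) (.e (nat_lit 655378) (nat_lit 4) (.e (nat_lit 172094) (nat_lit 9) (.e (nat_lit 426025) (nat_lit 0) (.e (nat_lit 3399) (nat_lit 211) (.e (nat_lit 647183) (nat_lit 4) .nil))))))) (.g (nat_lit 1) (.e (nat_lit 193019) (nat_lit 0) .nil) .nil)))) (.nd (nat_lit 9) 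
(.lf (nat_lit 509381) (.g (nat_lit 3794) (.e (nat_lit 172103) (nat_lit 9) (.e (nat_lit 426139) (nat_lit 3) (.e (nat_lit 204846) (nat_lit 24) (.e (nat_lit 319531) (nat_lit 16) (.e (nat_lit 286733) (nat_lit 2) (.e (nat_lit 90169) (nat_lit 13) .nil)))))) (.g (nat_lit 1) (.e (nat_lit 192305) (nat_lit 0) .nil) .nil))) 
(.lf (nat_lit 509893) (.g (nat_lit 4767) (.e (nat_lit 172113) (nat_lit 10) (.e (nat_lit 434245) (nat_lit 28) (.e (nat_lit 573473) (nat_lit 12) (.e (nat_lit 57572) (nat_lit 54) (.e (nat_lit 770072) (nat_lit 8) (.e (nat_lit 65568) (nat_lit 2) (.e (nat_lit 90170) (nat_lit 13) .nil))))))) (.g (nat_lit 1) (.e (nat_lit 193496) (nat_lit 0) .nil) .nil))))))) 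
(.nd (nat_lit 6) (.nd (nat_lit 7) (.nd (nat_lit 8) (.nd (nat_lit 9) 
(.lf (nat_lit 508965) (.g (nat_lit 3300) (.e (nat_lit 172079) (nat_lit 7) (.e (nat_lit 409645) (nat_lit 18) (.e (nat_lit 303143) (nat_lit 12) (.e (nat_lit 475199) (nat_lit 40) (.e (nat_lit 704614) (nat_lit 9) .nil))))) (.g (nat_lit 0) (.e (nat_lit 190695) (nat_lit 0) .nil) .nil))) 
(.lf (nat_lit 509477) (.g (nat_lit 3272) (.e (nat_lit 172106) (nat_lit 10) (.e (nat_lit 434231) (nat_lit 23) (.e (nat_lit 532522) (nat_lit 7) (.e (nat_lit 319530) (nat_lit 16) (.e (nat_lit 286733) (nat_lit 2) (.e (nat_lit 90167) (nat_lit 13) .nil)))))) (.g (nat_lit 1) (.e (nat_lit 192516) (nat_lit 0) .nil) .nil)))) (.nd (nat_lit 9) 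
(.lf (nat_lit 509221) (.g (nat_lit 635) (.e (nat_lit 172088) (nat_lit 9) (.e (nat_lit 426025) (nat_lit 0) (.e (nat_lit 3397) (nat_lit 211) .nil))) (.g (nat_lit 0) (.e (nat_lit 191942) (nat_lit 0) .nil) .nil))) 
(.lf (nat_lit 509733) (.g (nat_lit 2325) (.e (nat_lit 172113) (nat_lit 10) (.e (nat_lit 434207) (nat_lit 18) (.e (nat_lit 6416) (nat_lit 341) (.e (nat_lit 163903) (nat_lit 12) (.e (nat_lit 426294) (nat_lit 11) (.e (nat_lit 458810) (nat_lit 43) (.e (nat_lit 696344) (nat_lit 8) .nil))))))) (.g (nat_lit 1) (.e (nat_lit 193218) (nat_lit 0) .nil) .nil))))) (.nd (nat_lit 8) (.nd (nat_lit 9) 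
(.lf (nat_lit 509093) (.g (nat_lit 1621) (.e (nat_lit 172082) (nat_lit 7) (.e (nat_lit 409638) (nat_lit 15) (.e (nat_lit 278566) (nat_lit 16) (.e (nat_lit 286754) (nat_lit 10) (.e (nat_lit 344157) (nat_lit 36) (.e (nat_lit 638999) (nat_lit 8) .nil)))))) (.g (nat_lit 1) (.e (nat_lit 191068) (nat_lit 0) .nil) .nil))) 
(.lf (nat_lit 509605) (.g (nat_lit 4198) (.e (nat_lit 172106) (nat_lit 10) (.e (nat_lit 434289) (nat_lit 43) (.e (nat_lit 696344) (nat_lit 8) (.e (nat_lit 172106) (nat_lit 10) (.e (nat_lit 434289) (nat_lit 43) (.e (nat_lit 696344) (nat_lit 8) .nil)))))) (.g (nat_lit 1) (.e (nat_lit 192963) (nat_lit 0) .nil) .nil)))) (.nd (nat_lit 9) 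
(.lf (nat_lit 509349) (.g (nat_lit 4087) (.e (nat_lit 172097) (nat_lit 9) (.e (nat_lit 426140) (nat_lit 3) (.e (nat_lit 204845) (nat_lit 24) (.e (nat_lit 319530) (nat_lit 16) (.e (nat_lit 286733) (nat_lit 2) (.e (nat_lit 90169) (nat_lit 13) .nil)))))) (.g (nat_lit 1) (.e (nat_lit 192259) (nat_lit 0) .nil) .nil))) 
(.lf (nat_lit 509861) (.g (nat_lit 2550) (.e (nat_lit 172113) (nat_lit 10) (.e (nat_lit 434245) (nat_lit 28) (.e (nat_lit 573471) (nat_lit 11) (.e (nat_lit 16400) (nat_lit 0) (.e (nat_lit 7936) (nat_lit 402) .nil))))) (.g (nat_lit 0) (.e (nat_lit 193450) (nat_lit 0) .nil) .nil)))))) (.nd (nat_lit 7) (.nd (nat_lit 8) (.nd (nat_lit 9) 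
(.lf (nat_lit 509029) (.g (nat_lit 1200) (.e (nat_lit 172080) (nat_lit 7) (.e (nat_lit 409639) (nat_lit 15) (.e (nat_lit 278567) (nat_lit 16) (.e (nat_lit 286753) (nat_lit 10) (.e (nat_lit 344157) (nat_lit 36) (.e (nat_lit 638999) (nat_lit 8) .nil)))))) (.g (nat_lit 1) (.e (nat_lit 190889) (nat_lit 0) .nil) .nil))) 
(.lf (nat_lit 509541) (.g (nat_lit 3653) (.e (nat_lit 172106) (nat_lit 10) (.e (nat_lit 434244) (nat_lit 28) (.e (nat_lit 573472) (nat_lit 12) (.e (nat_lit 57574) (nat_lit 55) (.e (nat_lit 778466) (nat_lit 11) (.e (nat_lit 24604) (nat_lit 2) (.e (nat_lit 90170) (nat_lit 13) .nil))))))) (.g (nat_lit 1) (.e (nat_lit 192760) (nat_lit 0) .nil) .nil)))) (.nd (nat_lit 9) 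
(.lf (nat_lit 509285) (.g (nat_lit 3130) (.e (nat_lit 172095) (nat_lit 9) (.e (nat_lit 426140) (nat_lit 3) (.e (nat_lit 204846) (nat_lit 24) (.e (nat_lit 319504) (nat_lit 10) (.e (nat_lit 5272) (nat_lit 298) .nil))))) (.g (nat_lit 0) (.e (nat_lit 192065) (nat_lit 0) .nil) .nil))) 
(.lf (nat_lit 509797) (.g (nat_lit 1787) (.e (nat_lit 172113) (nat_lit 10) (.e (nat_lit 434233) (nat_lit 23) (.e (nat_lit 532523) (nat_lit 7) (.e (nat_lit 319504) (nat_lit 10) (.e (nat_lit 5351) (nat_lit 298) .nil))))) (.g (nat_lit 0) (.e (nat_lit 193340) (nat_lit 0) .nil) .nil))))) (.nd (nat_lit 8) (.nd (nat_lit 9) 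
(.lf (nat_lit 509157) (.g (nat_lit 2712) (.e (nat_lit 172082) (nat_lit 7) (.e (nat_lit 409646) (nat_lit 18) (.e (nat_lit 311040) (nat_lit 35) (.e (nat_lit 401454) (nat_lit 12) (.e (nat_lit 475196) (nat_lit 40) (.e (nat_lit 712448) (nat_lit 4) .nil)))))) (.g (nat_lit 1) (.e (nat_lit 191724) (nat_lit 0) .nil) .nil))) 
(.lf (nat_lit 509669) (.g (nat_lit 1877) (.e (nat_lit 172111) (nat_lit 10) (.e (nat_lit 434247) (nat_lit 28) (.e (nat_lit 573478) (nat_lit 12) (.e (nat_lit 57574) (nat_lit 55) (.e (nat_lit 778466) (nat_lit 11) (.e (nat_lit 24603) (nat_lit 2) (.e (nat_lit 90166) (nat_lit 13) .nil))))))) (.g (nat_lit 1) (.e (nat_lit 193067) (nat_lit 0) .nil) .nil)))) (.nd (nat_lit 9) 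
(.lf (nat_lit 509413) (.g (nat_lit 421) (.e (nat_lit 172105) (nat_lit 10) (.e (nat_lit 434248) (nat_lit 28) (.e (nat_lit 573471) (nat_lit 11) .nil))) (.g (nat_lit 0) (.e (nat_lit 192350) (nat_lit 0) .nil) .nil))) 
(.lf (nat_lit 509925) (.g (nat_lit 4780) (.e (nat_lit 172113) (nat_lit 10) (.e (nat_lit 434248) (nat_lit 28) (.e (nat_lit 573452) (nat_lit 9) (.e (nat_lit 430) (nat_lit 32) (.e (nat_lit 426011) (nat_lit 0) (.e (nat_lit 7490) (nat_lit 402) (.e (nat_lit 1239) (nat_lit 91) (.e (nat_lit 90170) (nat_lit 13) .nil)))))))) (.g (nat_lit 1) (.e (nat_lit 193537) (nat_lit 0) .nil) .nil)))))))) 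
(.nd (nat_lit 5) (.nd (nat_lit 6) (.nd (nat_lit 7) (.nd (nat_lit 8) (.nd (nat_lit 9) 
(.lf (nat_lit 508949) (.g (nat_lit 972) (.e (nat_lit 172079) (nat_lit 7) (.e (nat_lit 409645) (nat_lit 18) (.e (nat_lit 303137) (nat_lit 10) .nil))) (.g (nat_lit 0) (.e (nat_lit 190567) (nat_lit 0) .nil) .nil))) 
(.lf (nat_lit 509461) (.g (nat_lit 1031) (.e (nat_lit 172106) (nat_lit 10) (.e (nat_lit 434231) (nat_lit 23) (.e (nat_lit 532487) (nat_lit 0) .nil))) (.g (nat_lit 0) (.e (nat_lit 192499) (nat_lit 0) .nil) .nil)))) (.nd (nat_lit 9) 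
(.lf (nat_lit 509205) (.g (nat_lit 3758) (.e (nat_lit 172085) (nat_lit 9) (.e (nat_lit 426140) (nat_lit 3) (.e (nat_lit 204846) (nat_lit 24) (.e (nat_lit 319532) (nat_lit 16) (.e (nat_lit 286733) (nat_lit 2) (.e (nat_lit 90170) (nat_lit 13) .nil)))))) (.g (nat_lit 1) (.e (nat_lit 191909) (nat_lit 0) .nil) .nil))) 
(.lf (nat_lit 509717) (.g (nat_lit 402) (.e (nat_lit 172112) (nat_lit 10) (.e (nat_lit 434272) (nat_lit 38) (.e (nat_lit 655380) (nat_lit 6) .nil))) (.g (nat_lit 0) (.e (nat_lit 193170) (nat_lit 0) .nil) .nil))))) (.nd (nat_lit 8) (.nd (nat_lit 9) 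
(.lf (nat_lit 509077) (.g (nat_lit 1764) (.e (nat_lit 172081) (nat_lit 7) (.e (nat_lit 409642) (nat_lit 17) (.e (nat_lit 294974) (nat_lit 29) (.e (nat_lit 442409) (nat_lit 20) (.e (nat_lit 3409) (nat_lit 212) (.e (nat_lit 655378) (nat_lit 4) .nil)))))) (.g (nat_lit 1) (.e (nat_lit 191018) (nat_lit 0) .nil) .nil))) 
(.lf (nat_lit 509589) (.g (nat_lit 3346) (.e (nat_lit 172106) (nat_lit 10) (.e (nat_lit 434288) (nat_lit 43) (.e (nat_lit 696343) (nat_lit 8) (.e (nat_lit 172113) (nat_lit 10) (.e (nat_lit 434289) (nat_lit 43) (.e (nat_lit 696344) (nat_lit 8) .nil)))))) (.g (nat_lit 1) (.e (nat_lit 192923) (nat_lit 0) .nil) .nil)))) (.nd (nat_lit 9) 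
(.lf (nat_lit 509333) (.g (nat_lit 2084) (.e (nat_lit 172097) (nat_lit 9) (.e (nat_lit 426125) (nat_lit 2) (.e (nat_lit 196675) (nat_lit 16) .nil))) (.g (nat_lit 0) (.e (nat_lit 192235) (nat_lit 0) .nil) .nil))) 
(.lf (nat_lit 509845) (.g (nat_lit 3852) (.e (nat_lit 172113) (nat_lit 10) (.e (nat_lit 434245) (nat_lit 28) (.e (nat_lit 573450) (nat_lit 9) (.e (nat_lit 442) (nat_lit 33) (.e (nat_lit 434181) (nat_lit 0) (.e (nat_lit 1235) (nat_lit 91) (.e (nat_lit 90170) (nat_lit 13) .nil))))))) (.g (nat_lit 1) (.e (nat_lit 193402) (nat_lit 0) .nil) .nil)))))) (.nd (nat_lit 7) (.nd (nat_lit 8) (.nd (nat_lit 9) 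
(.lf (nat_lit 509013) (.g (nat_lit 403) (.e (nat_lit 172079) (nat_lit 7) (.e (nat_lit 409642) (nat_lit 17) (.e (nat_lit 302848) (nat_lit 29) .nil))) (.g (nat_lit 0) (.e (nat_lit 190865) (nat_lit 0) .nil) .nil))) 
(.lf (nat_lit 509525) (.g (nat_lit 1038) (.e (nat_lit 172106) (nat_lit 10) (.e (nat_lit 434244) (nat_lit 28) (.e (nat_lit 573458) (nat_lit 9) (.e (nat_lit 426) (nat_lit 32) .nil)))) (.g (nat_lit 0) (.e (nat_lit 192712) (nat_lit 0) .nil) .nil)))) (.nd (nat_lit 9) 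
(.lf (nat_lit 509269) (.g (nat_lit 3537) (.e (nat_lit 172094) (nat_lit 9) (.e (nat_lit 426140) (nat_lit 3) (.e (nat_lit 204846) (nat_lit 24) (.e (nat_lit 319531) (nat_lit 16) (.e (nat_lit 286733) (nat_lit 2) (.e (nat_lit 90169) (nat_lit 13) .nil)))))) (.g (nat_lit 1) (.e (nat_lit 192030) (nat_lit 0) .nil) .nil))) 
(.lf (nat_lit 509781) (.g (nat_lit 3352) (.e (nat_lit 172113) (nat_lit 10) (.e (nat_lit 434231) (nat_lit 23) (.e (nat_lit 532523) (nat_lit 7) (.e (nat_lit 319513) (nat_lit 10) .nil)))) (.g (nat_lit 0) (.e (nat_lit 193320) (nat_lit 0) .nil) .nil))))) (.nd (nat_lit 8) (.nd (nat_lit 9) 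
(.lf (nat_lit 509141) (.g (nat_lit 2947) (.e (nat_lit 172082) (nat_lit 7) (.e (nat_lit 409646) (nat_lit 18) (.e (nat_lit 303143) (nat_lit 12) (.e (nat_lit 475199) (nat_lit 40) (.e (nat_lit 704857) (nat_lit 17) (.e (nat_lit 171776) (nat_lit 106) (.e (nat_lit 696344) (nat_lit 8) .nil))))))) (.g (nat_lit 1) (.e (nat_lit 191603) (nat_lit 0) .nil) .nil))) 
(.lf (nat_lit 509653) (.g (nat_lit 818) (.e (nat_lit 172109) (nat_lit 10) (.e (nat_lit 434248) (nat_lit 28) (.e (nat_lit 573470) (nat_lit 11) .nil))) (.g (nat_lit 0) (.e (nat_lit 193049) (nat_lit 0) .nil) .nil)))) (.nd (nat_lit 9) 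
(.lf (nat_lit 509397) (.g (nat_lit 2281) (.e (nat_lit 172105) (nat_lit 10) (.e (nat_lit 434247) (nat_lit 28) (.e (nat_lit 573477) (nat_lit 12) (.e (nat_lit 57574) (nat_lit 55) (.e (nat_lit 778465) (nat_lit 11) (.e (nat_lit 24603) (nat_lit 2) (.e (nat_lit 90166) (nat_lit 13) .nil))))))) (.g (nat_lit 1) (.e (nat_lit 192334) (nat_lit 0) .nil) .nil))) 
(.lf (nat_lit 509909) (.g (nat_lit 2852) (.e (nat_lit 172113) (nat_lit 10) (.e (nat_lit 434247) (nat_lit 28) (.e (nat_lit 573477) (nat_lit 12) (.e (nat_lit 57574) (nat_lit 55) (.e (nat_lit 778466) (nat_lit 11) (.e (nat_lit 24603) (nat_lit 2) (.e (nat_lit 90169) (nat_lit 13) .nil))))))) (.g (nat_lit 1) (.e (nat_lit 193519) (nat_lit 0) .nil) .nil))))))) 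
(.nd (nat_lit 6) (.nd (nat_lit 7) (.nd (nat_lit 8) (.nd (nat_lit 9) 
(.lf (nat_lit 508981) (.g (nat_lit 2045) (.e (nat_lit 172079) (nat_lit 7) (.e (nat_lit 409645) (nat_lit 18) (.e (nat_lit 303143) (nat_lit 12) (.e (nat_lit 475212) (nat_lit 42) (.e (nat_lit 728832) (nat_lit 20) .nil))))) (.g (nat_lit 0) (.e (nat_lit 190758) (nat_lit 0) .nil) .nil))) 
(.lf (nat_lit 509493) (.g (nat_lit 2689) (.e (nat_lit 172106) (nat_lit 10) (.e (nat_lit 434231) (nat_lit 23) (.e (nat_lit 532535) (nat_lit 9) (.e (nat_lit 336255) (nat_lit 15) .nil)))) (.g (nat_lit 0) (.e (nat_lit 192539) (nat_lit 0) .nil) .nil)))) (.nd (nat_lit 9) 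
(.lf (nat_lit 509237) (.g (nat_lit 801) (.e (nat_lit 172092) (nat_lit 9) (.e (nat_lit 426125) (nat_lit 2) (.e (nat_lit 204544) (nat_lit 18) .nil))) (.g (nat_lit 0) (.e (nat_lit 191963) (nat_lit 0) .nil) .nil))) 
(.lf (nat_lit 509749) (.g (nat_lit 3373) (.e (nat_lit 172113) (nat_lit 10) (.e (nat_lit 434209) (nat_lit 18) (.e (nat_lit 6425) (nat_lit 342) (.e (nat_lit 229415) (nat_lit 15) (.e (nat_lit 450601) (nat_lit 21) .nil))))) (.g (nat_lit 0) (.e (nat_lit 193285) (nat_lit 0) .nil) .nil))))) (.nd (nat_lit 8) (.nd (nat_lit 9) 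
(.lf (nat_lit 509109) (.g (nat_lit 2148) (.e (nat_lit 172082) (nat_lit 7) (.e (nat_lit 409646) (nat_lit 18) (.e (nat_lit 303133) (nat_lit 9) (.e (nat_lit 426412) (nat_lit 15) (.e (nat_lit 2143) (nat_lit 142) .nil))))) (.g (nat_lit 0) (.e (nat_lit 191324) (nat_lit 0) .nil) .nil))) 
(.lf (nat_lit 509621) (.g (nat_lit 2761) (.e (nat_lit 172107) (nat_lit 10) (.e (nat_lit 434244) (nat_lit 28) (.e (nat_lit 573471) (nat_lit 11) (.e (nat_lit 16425) (nat_lit 7) .nil)))) (.g (nat_lit 0) (.e (nat_lit 192993) (nat_lit 0) .nil) .nil)))) (.nd (nat_lit 9) 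
(.lf (nat_lit 509365) (.g (nat_lit 4195) (.e (nat_lit 172097) (nat_lit 9) (.e (nat_lit 426140) (nat_lit 3) (.e (nat_lit 204855) (nat_lit 26) (.e (nat_lit 336295) (nat_lit 15) (.e (nat_lit 3632) (nat_lit 227) (.e (nat_lit 778318) (nat_lit 3) (.e (nat_lit 57476) (nat_lit 28) (.e (nat_lit 557097) (nat_lit 13) .nil)))))))) (.g (nat_lit 1) (.e (nat_lit 192275) (nat_lit 0) .nil) .nil))) 
(.lf (nat_lit 509877) (.g (nat_lit 2642) (.e (nat_lit 172113) (nat_lit 10) (.e (nat_lit 434245) (nat_lit 28) (.e (nat_lit 573471) (nat_lit 11) (.e (nat_lit 16435) (nat_lit 9) (.e (nat_lit 433920) (nat_lit 15) .nil))))) (.g (nat_lit 0) (.e (nat_lit 193477) (nat_lit 0) .nil) .nil)))))) (.nd (nat_lit 7) (.nd (nat_lit 8) (.nd (nat_lit 9) 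
(.lf (nat_lit 509045) (.g (nat_lit 484) (.e (nat_lit 172081) (nat_lit 7) (.e (nat_lit 409635) (nat_lit 14) (.e (nat_lit 270372) (nat_lit 16) (.e (nat_lit 286755) (nat_lit 10) (.e (nat_lit 344154) (nat_lit 35) (.e (nat_lit 630802) (nat_lit 8) .nil)))))) (.g (nat_lit 1) (.e (nat_lit 190944) (nat_lit 0) .nil) .nil))) 
(.lf (nat_lit 509557) (.g (nat_lit 872) (.e (nat_lit 172106) (nat_lit 10) (.e (nat_lit 434241) (nat_lit 27) (.e (nat_lit 565269) (nat_lit 6) (.e (nat_lit 81942) (nat_lit 20) (.e (nat_lit 2389) (nat_lit 156) .nil))))) (.g (nat_lit 0) (.e (nat_lit 192780) (nat_lit 0) .nil) .nil)))) (.nd (nat_lit 9) 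
(.lf (nat_lit 509301) (.g (nat_lit 2236) (.e (nat_lit 172096) (nat_lit 9) (.e (nat_lit 426125) (nat_lit 2) (.e (nat_lit 196661) (nat_lit 12) (.e (nat_lit 57751) (nat_lit 201) .nil)))) (.g (nat_lit 0) (.e (nat_lit 192088) (nat_lit 0) .nil) .nil))) 
(.lf (nat_lit 509813) (.g (nat_lit 2299) (.e (nat_lit 172113) (nat_lit 10) (.e (nat_lit 434242) (nat_lit 28) (.e (nat_lit 573474) (nat_lit 12) (.e (nat_lit 57354) (nat_lit 0) (.e (nat_lit 7270) (nat_lit 385) .nil))))) (.g (nat_lit 0) (.e (nat_lit 193366) (nat_lit 0) .nil) .nil))))) (.nd (nat_lit 8) (.nd (nat_lit 9) 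
(.lf (nat_lit 509173) (.g (nat_lit 3044) (.e (nat_lit 172082) (nat_lit 7) (.e (nat_lit 409649) (nat_lit 18) (.e (nat_lit 303140) (nat_lit 10) (.e (nat_lit 434209) (nat_lit 18) (.e (nat_lit 5224) (nat_lit 296) (.e (nat_lit 163841) (nat_lit 0) (.e (nat_lit 3377) (nat_lit 209) (.e (nat_lit 630802) (nat_lit 8) .nil)))))))) (.g (nat_lit 1) (.e (nat_lit 191781) (nat_lit 0) .nil) .nil))) 
(.lf (nat_lit 509685) (.g (nat_lit 2655) (.e (nat_lit 172112) (nat_lit 10) (.e (nat_lit 434244) (nat_lit 28) (.e (nat_lit 573471) (nat_lit 11) (.e (nat_lit 16425) (nat_lit 7) .nil)))) (.g (nat_lit 0) (.e (nat_lit 193104) (nat_lit 0) .nil) .nil)))) (.nd (nat_lit 9) 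
(.lf (nat_lit 509429) (.g (nat_lit 1945) (.e (nat_lit 172105) (nat_lit 10) (.e (nat_lit 434272) (nat_lit 38) (.e (nat_lit 655364) (nat_lit 0) (.e (nat_lit 3015) (nat_lit 187) (.e (nat_lit 458496) (nat_lit 15) .nil))))) (.g (nat_lit 0) (.e (nat_lit 192368) (nat_lit 0) .nil) .nil))) 
(.lf (nat_lit 509941) (.g (nat_lit 1639) (.e (nat_lit 172113) (nat_lit 10) (.e (nat_lit 434248) (nat_lit 28) (.e (nat_lit 573471) (nat_lit 11) (.e (nat_lit 16392) (nat_lit 0) .nil)))) (.g (nat_lit 0) (.e (nat_lit 193557) (nat_lit 0) .nil) .nil))))))))) (.nd (nat_lit 4) (.nd (nat_lit 5) (.nd (nat_lit 6) (.nd (nat_lit 7) (.nd (nat_lit 8) (.nd (nat_lit 9) 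
(.lf (nat_lit 508941) (.g (nat_lit 2068) (.e (nat_lit 172079) (nat_lit 7) (.e (nat_lit 409645) (nat_lit 18) (.e (nat_lit 303133) (nat_lit 9) (.e (nat_lit 426412) (nat_lit 15) (.e (nat_lit 1008) (nat_lit 81) .nil))))) (.g (nat_lit 0) (.e (nat_lit 190485) (nat_lit 0) .nil) .nil))) 
(.lf (nat_lit 509453) (.g (nat_lit 2746) (.e (nat_lit 172106) (nat_lit 10) (.e (nat_lit 434209) (nat_lit 18) (.e (nat_lit 6426) (nat_lit 342) (.e (nat_lit 229412) (nat_lit 14) (.e (nat_lit 442411) (nat_lit 20) (.e (nat_lit 3468) (nat_lit 217) (.e (nat_lit 696343) (nat_lit 8) .nil))))))) (.g (nat_lit 1) (.e (nat_lit 192474) (nat_lit 0) .nil) .nil)))) (.nd (nat_lit 9) 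
(.lf (nat_lit 509197) (.g (nat_lit 4344) (.e (nat_lit 172085) (nat_lit 9) (.e (nat_lit 426140) (nat_lit 3) (.e (nat_lit 204845) (nat_lit 24) (.e (nat_lit 319531) (nat_lit 16) (.e (nat_lit 286733) (nat_lit 2) (.e (nat_lit 90169) (nat_lit 13) .nil)))))) (.g (nat_lit 1) (.e (nat_lit 191901) (nat_lit 0) .nil) .nil))) 
(.lf (nat_lit 509709) (.g (nat_lit 1170) (.e (nat_lit 172112) (nat_lit 10) (.e (nat_lit 434269) (nat_lit 36) (.e (nat_lit 639021) (nat_lit 16) (.e (nat_lit 65619) (nat_lit 10) (.e (nat_lit 344153) (nat_lit 35) (.e (nat_lit 630801) (nat_lit 8) .nil)))))) (.g (nat_lit 1) (.e (nat_lit 193141) (nat_lit 0) .nil) .nil))))) (.nd (nat_lit 8) (.nd (nat_lit 9) 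
(.lf (nat_lit 509069) (.g (nat_lit 2528) (.e (nat_lit 172081) (nat_lit 7) (.e (nat_lit 409649) (nat_lit 18) (.e (nat_lit 303140) (nat_lit 10) (.e (nat_lit 434275) (nat_lit 39) (.e (nat_lit 663572) (nat_lit 9) .nil))))) (.g (nat_lit 0) (.e (nat_lit 190997) (nat_lit 0) .nil) .nil))) 
(.lf (nat_lit 509581) (.g (nat_lit 340) (.e (nat_lit 172106) (nat_lit 10) (.e (nat_lit 434271) (nat_lit 38) (.e (nat_lit 655380) (nat_lit 6) .nil))) (.g (nat_lit 0) (.e (nat_lit 192848) (nat_lit 0) .nil) .nil)))) (.nd (nat_lit 9) 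
(.lf (nat_lit 509325) (.g (nat_lit 1147) (.e (nat_lit 172097) (nat_lit 9) (.e (nat_lit 426125) (nat_lit 2) (.e (nat_lit 196630) (nat_lit 9) (.e (nat_lit 1669) (nat_lit 116) .nil)))) (.g (nat_lit 0) (.e (nat_lit 192209) (nat_lit 0) .nil) .nil))) 
(.lf (nat_lit 509837) (.g (nat_lit 3024) (.e (nat_lit 172113) (nat_lit 10) (.e (nat_lit 434244) (nat_lit 28) (.e (nat_lit 573471) (nat_lit 11) (.e (nat_lit 16433) (nat_lit 9) .nil)))) (.g (nat_lit 0) (.e (nat_lit 193392) (nat_lit 0) .nil) .nil)))))) (.nd (nat_lit 7) (.nd (nat_lit 8) (.nd (nat_lit 9) 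
(.lf (nat_lit 509005) (.g (nat_lit 976) (.e (nat_lit 172079) (nat_lit 7) (.e (nat_lit 409649) (nat_lit 18) (.e (nat_lit 303140) (nat_lit 10) .nil))) (.g (nat_lit 0) (.e (nat_lit 190849) (nat_lit 0) .nil) .nil))) 
(.lf (nat_lit 509517) (.g (nat_lit 4042) (.e (nat_lit 172106) (nat_lit 10) (.e (nat_lit 434242) (nat_lit 28) (.e (nat_lit 573474) (nat_lit 12) (.e (nat_lit 57572) (nat_lit 54) (.e (nat_lit 770071) (nat_lit 8) .nil))))) (.g (nat_lit 0) (.e (nat_lit 192690) (nat_lit 0) .nil) .nil)))) (.nd (nat_lit 9) 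
(.lf (nat_lit 509261) (.g (nat_lit 715) (.e (nat_lit 172094) (nat_lit 9) (.e (nat_lit 426125) (nat_lit 2) (.e (nat_lit 196686) (nat_lit 18) .nil))) (.g (nat_lit 0) (.e (nat_lit 192018) (nat_lit 0) .nil) .nil))) 
(.lf (nat_lit 509773) (.g (nat_lit 3490) (.e (nat_lit 172113) (nat_lit 10) (.e (nat_lit 434231) (nat_lit 23) (.e (nat_lit 532523) (nat_lit 7) (.e (nat_lit 319504) (nat_lit 10) (.e (nat_lit 5257) (nat_lit 298) .nil))))) (.g (nat_lit 0) (.e (nat_lit 193312) (nat_lit 0) .nil) .nil))))) (.nd (nat_lit 8) (.nd (nat_lit 9) 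
(.lf (nat_lit 509133) (.g (nat_lit 829) (.e (nat_lit 172082) (nat_lit 7) (.e (nat_lit 409646) (nat_lit 18) (.e (nat_lit 303143) (nat_lit 12) (.e (nat_lit 475199) (nat_lit 40) .nil)))) (.g (nat_lit 0) (.e (nat_lit 191455) (nat_lit 0) .nil) .nil))) 
(.lf (nat_lit 509645) (.g (nat_lit 1242) (.e (nat_lit 172107) (nat_lit 10) (.e (nat_lit 434289) (nat_lit 43) (.e (nat_lit 696344) (nat_lit 8) (.e (nat_lit 172113) (nat_lit 10) .nil)))) (.g (nat_lit 0) (.e (nat_lit 193039) (nat_lit 0) .nil) .nil)))) (.nd (nat_lit 9) 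
(.lf (nat_lit 509389) (.g (nat_lit 674) (.e (nat_lit 172105) (nat_lit 10) (.e (nat_lit 434231) (nat_lit 23) (.e (nat_lit 532567) (nat_lit 16) .nil))) (.g (nat_lit 0) (.e (nat_lit 192315) (nat_lit 0) .nil) .nil))) 
(.lf (nat_lit 509901) (.g (nat_lit 2800) (.e (nat_lit 172113) (nat_lit 10) (.e (nat_lit 434247) (nat_lit 28) (.e (nat_lit 573469) (nat_lit 11) (.e (nat_lit 16436) (nat_lit 9) (.e (nat_lit 426361) (nat_lit 15) .nil))))) (.g (nat_lit 0) (.e (nat_lit 193511) (nat_lit 0) .nil) .nil))))))) (.nd (nat_lit 6) (.nd (nat_lit 7) (.nd (nat_lit 8) (.nd (nat_lit 9) 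
(.lf (nat_lit 508973) (.g (nat_lit 3391) (.e (nat_lit 172079) (nat_lit 7) (.e (nat_lit 409645) (nat_lit 18) (.e (nat_lit 303143) (nat_lit 12) (.e (nat_lit 475199) (nat_lit 40) (.e (nat_lit 704860) (nat_lit 18) .nil))))) (.g (nat_lit 0) (.e (nat_lit 190716) (nat_lit 0) .nil) .nil))) 
(.lf (nat_lit 509485) (.g (nat_lit 3996) (.e (nat_lit 172106) (nat_lit 10) (.e (nat_lit 434231) (nat_lit 23) (.e (nat_lit 532523) (nat_lit 7) (.e (nat_lit 319530) (nat_lit 16) (.e (nat_lit 286733) (nat_lit 2) (.e (nat_lit 90166) (nat_lit 13) .nil)))))) (.g (nat_lit 1) (.e (nat_lit 192527) (nat_lit 0) .nil) .nil)))) (.nd (nat_lit 9) 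
(.lf (nat_lit 509229) (.g (nat_lit 1566) (.e (nat_lit 172089) (nat_lit 9) (.e (nat_lit 426025) (nat_lit 0) (.e (nat_lit 3397) (nat_lit 211) (.e (nat_lit 647183) (nat_lit 4) (.e (nat_lit 172116) (nat_lit 10) .nil))))) (.g (nat_lit 0) (.e (nat_lit 191953) (nat_lit 0) .nil) .nil))) 
(.lf (nat_lit 509741) (.g (nat_lit 1195) (.e (nat_lit 172113) (nat_lit 10) (.e (nat_lit 434208) (nat_lit 18) (.e (nat_lit 6420) (nat_lit 341) (.e (nat_lit 163932) (nat_lit 17) (.e (nat_lit 466960) (nat_lit 20) .nil))))) (.g (nat_lit 0) (.e (nat_lit 193261) (nat_lit 0) .nil) .nil))))) (.nd (nat_lit 8) (.nd (nat_lit 9) 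
(.lf (nat_lit 509101) (.g (nat_lit 2264) (.e (nat_lit 172082) (nat_lit 7) (.e (nat_lit 409646) (nat_lit 18) (.e (nat_lit 303111) (nat_lit 0) (.e (nat_lit 3579) (nat_lit 223) (.e (nat_lit 745485) (nat_lit 2) .nil))))) (.g (nat_lit 0) (.e (nat_lit 191101) (nat_lit 0) .nil) .nil))) 
(.lf (nat_lit 509613) (.g (nat_lit 3409) (.e (nat_lit 172106) (nat_lit 10) (.e (nat_lit 434289) (nat_lit 43) (.e (nat_lit 696344) (nat_lit 8) (.e (nat_lit 172116) (nat_lit 10) (.e (nat_lit 434289) (nat_lit 43) (.e (nat_lit 696343) (nat_lit 8) .nil)))))) (.g (nat_lit 1) (.e (nat_lit 192972) (nat_lit 0) .nil) .nil)))) (.nd (nat_lit 9) 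
(.lf (nat_lit 509357) (.g (nat_lit 5108) (.e (nat_lit 172097) (nat_lit 9) (.e (nat_lit 426140) (nat_lit 3) (.e (nat_lit 204845) (nat_lit 24) (.e (nat_lit 319533) (nat_lit 16) (.e (nat_lit 286733) (nat_lit 2) (.e (nat_lit 90170) (nat_lit 13) .nil)))))) (.g (nat_lit 1) (.e (nat_lit 192267) (nat_lit 0) .nil) .nil))) 
(.lf (nat_lit 509869) (.g (nat_lit 3545) (.e (nat_lit 172113) (nat_lit 10) (.e (nat_lit 434245) (nat_lit 28) (.e (nat_lit 573471) (nat_lit 11) (.e (nat_lit 16433) (nat_lit 9) (.e (nat_lit 426377) (nat_lit 15) .nil))))) (.g (nat_lit 0) (.e (nat_lit 193469) (nat_lit 0) .nil) .nil)))))) (.nd (nat_lit 7) (.nd (nat_lit 8) (.nd (nat_lit 9) 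
(.lf (nat_lit 509037) (.g (nat_lit 1902) (.e (nat_lit 172080) (nat_lit 7) (.e (nat_lit 409642) (nat_lit 17) (.e (nat_lit 294974) (nat_lit 29) (.e (nat_lit 442402) (nat_lit 20) (.e (nat_lit 3409) (nat_lit 212) (.e (nat_lit 655378) (nat_lit 4) .nil)))))) (.g (nat_lit 1) (.e (nat_lit 190917) (nat_lit 0) .nil) .nil))) 
(.lf (nat_lit 509549) (.g (nat_lit 3031) (.e (nat_lit 172106) (nat_lit 10) (.e (nat_lit 434248) (nat_lit 28) (.e (nat_lit 573471) (nat_lit 11) (.e (nat_lit 16388) (nat_lit 0) (.e (nat_lit 7490) (nat_lit 402) .nil))))) (.g (nat_lit 0) (.e (nat_lit 192770) (nat_lit 0) .nil) .nil)))) (.nd (nat_lit 9) 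
(.lf (nat_lit 509293) (.g (nat_lit 2241) (.e (nat_lit 172099) (nat_lit 9) (.e (nat_lit 426140) (nat_lit 3) (.e (nat_lit 204846) (nat_lit 24) (.e (nat_lit 319531) (nat_lit 16) .nil)))) (.g (nat_lit 0) (.e (nat_lit 192076) (nat_lit 0) .nil) .nil))) 
(.lf (nat_lit 509805) (.g (nat_lit 5300) (.e (nat_lit 172113) (nat_lit 10) (.e (nat_lit 434242) (nat_lit 28) (.e (nat_lit 573471) (nat_lit 11) (.e (nat_lit 16433) (nat_lit 9) (.e (nat_lit 426361) (nat_lit 15) (.e (nat_lit 1860) (nat_lit 124) (.e (nat_lit 557100) (nat_lit 13) .nil))))))) (.g (nat_lit 1) (.e (nat_lit 193355) (nat_lit 0) .nil) .nil))))) (.nd (nat_lit 8) (.nd (nat_lit 9) 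
(.lf (nat_lit 509165) (.g (nat_lit 496) (.e (nat_lit 172082) (nat_lit 7) (.e (nat_lit 409648) (nat_lit 18) (.e (nat_lit 303137) (nat_lit 10) .nil))) (.g (nat_lit 0) (.e (nat_lit 191732) (nat_lit 0) .nil) .nil))) 
(.lf (nat_lit 509677) (.g (nat_lit 2070) (.e (nat_lit 172111) (nat_lit 10) (.e (nat_lit 434248) (nat_lit 28) (.e (nat_lit 573503) (nat_lit 18) (.e (nat_lit 1359) (nat_lit 102) .nil)))) (.g (nat_lit 0) (.e (nat_lit 193075) (nat_lit 0) .nil) .nil)))) (.nd (nat_lit 9) 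
(.lf (nat_lit 509421) (.g (nat_lit 2107) (.e (nat_lit 172105) (nat_lit 10) (.e (nat_lit 434248) (nat_lit 28) (.e (nat_lit 573475) (nat_lit 12) (.e (nat_lit 57574) (nat_lit 55) (.e (nat_lit 778466) (nat_lit 11) (.e (nat_lit 24603) (nat_lit 2) (.e (nat_lit 90167) (nat_lit 13) .nil))))))) (.g (nat_lit 1) (.e (nat_lit 192358) (nat_lit 0) .nil) .nil))) 
(.lf (nat_lit 509933) (.g (nat_lit 2190) (.e (nat_lit 172113) (nat_lit 10) (.e (nat_lit 434248) (nat_lit 28) (.e (nat_lit 573470) (nat_lit 11) (.e (nat_lit 16470) (nat_lit 14) (.e (nat_lit 491535) (nat_lit 2) .nil))))) (.g (nat_lit 0) (.e (nat_lit 193549) (nat_lit 0) .nil) .nil)))))))) (.nd (nat_lit 5) (.nd (nat_lit 6) (.nd (nat_lit 7) (.nd (nat_lit 8) (.nd (nat_lit 9) 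
(.lf (nat_lit 508957) (.g (nat_lit 1009) (.e (nat_lit 172079) (nat_lit 7) (.e (nat_lit 409645) (nat_lit 18) (.e (nat_lit 303140) (nat_lit 10) (.e (nat_lit 434275) (nat_lit 39) .nil)))) (.g (nat_lit 0) (.e (nat_lit 190591) (nat_lit 0) .nil) .nil))) 
(.lf (nat_lit 509469) (.g (nat_lit 1868) (.e (nat_lit 172106) (nat_lit 10) (.e (nat_lit 434231) (nat_lit 23) (.e (nat_lit 532499) (nat_lit 1) (.e (nat_lit 65280) (nat_lit 223) .nil)))) (.g (nat_lit 0) (.e (nat_lit 192508) (nat_lit 0) .nil) .nil)))) (.nd (nat_lit 9) 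
(.lf (nat_lit 509213) (.g (nat_lit 3821) (.e (nat_lit 172085) (nat_lit 9) (.e (nat_lit 426482) (nat_lit 27) (.e (nat_lit 336060) (nat_lit 7) (.e (nat_lit 319534) (nat_lit 16) (.e (nat_lit 286728) (nat_lit 0) (.e (nat_lit 2270) (nat_lit 149) (.e (nat_lit 761905) (nat_lit 16) .nil))))))) (.g (nat_lit 1) (.e (nat_lit 191919) (nat_lit 0) .nil) .nil))) 
(.lf (nat_lit 509725) (.g (nat_lit 3425) (.e (nat_lit 172112) (nat_lit 10) (.e (nat_lit 434289) (nat_lit 43) (.e (nat_lit 696344) (nat_lit 8) (.e (nat_lit 172115) (nat_lit 10) (.e (nat_lit 434289) (nat_lit 43) (.e (nat_lit 696343) (nat_lit 8) .nil)))))) (.g (nat_lit 1) (.e (nat_lit 193186) (nat_lit 0) .nil) .nil))))) (.nd (nat_lit 8) (.nd (nat_lit 9) 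
(.lf (nat_lit 509085) (.g (nat_lit 2544) (.e (nat_lit 172082) (nat_lit 7) (.e (nat_lit 409616) (nat_lit 10) (.e (nat_lit 632) (nat_lit 50) (.e (nat_lit 573491) (nat_lit 15) (.e (nat_lit 81946) (nat_lit 20) .nil))))) (.g (nat_lit 0) (.e (nat_lit 191042) (nat_lit 0) .nil) .nil))) 
(.lf (nat_lit 509597) (.g (nat_lit 3166) (.e (nat_lit 172106) (nat_lit 10) (.e (nat_lit 434289) (nat_lit 43) (.e (nat_lit 696343) (nat_lit 8) (.e (nat_lit 172107) (nat_lit 10) (.e (nat_lit 434289) (nat_lit 43) (.e (nat_lit 696344) (nat_lit 8) .nil)))))) (.g (nat_lit 1) (.e (nat_lit 192946) (nat_lit 0) .nil) .nil)))) (.nd (nat_lit 9) 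
(.lf (nat_lit 509341) (.g (nat_lit 3090) (.e (nat_lit 172097) (nat_lit 9) (.e (nat_lit 426140) (nat_lit 3) (.e (nat_lit 204821) (nat_lit 17) (.e (nat_lit 6674) (nat_lit 357) (.e (nat_lit 2940) (nat_lit 184) (.e (nat_lit 426401) (nat_lit 15) (.e (nat_lit 1859) (nat_lit 124) (.e (nat_lit 557098) (nat_lit 13) .nil)))))))) (.g (nat_lit 1) (.e (nat_lit 192250) (nat_lit 0) .nil) .nil))) 
(.lf (nat_lit 509853) (.g (nat_lit 5018) (.e (nat_lit 172113) (nat_lit 10) (.e (nat_lit 434245) (nat_lit 28) (.e (nat_lit 573469) (nat_lit 11) (.e (nat_lit 16433) (nat_lit 9) (.e (nat_lit 426354) (nat_lit 15) (.e (nat_lit 1860) (nat_lit 124) (.e (nat_lit 557100) (nat_lit 13) .nil))))))) (.g (nat_lit 1) (.e (nat_lit 193423) (nat_lit 0) .nil) .nil)))))) 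
(.nd (nat_lit 7) (.nd (nat_lit 8) (.nd (nat_lit 9) 
(.lf (nat_lit 509021) (.g (nat_lit 1260) (.e (nat_lit 172080) (nat_lit 7) (.e (nat_lit 409638) (nat_lit 15) (.e (nat_lit 278566) (nat_lit 16) (.e (nat_lit 286754) (nat_lit 10) (.e (nat_lit 344157) (nat_lit 36) (.e (nat_lit 638999) (nat_lit 8) .nil)))))) (.g (nat_lit 1) (.e (nat_lit 190881) (nat_lit 0) .nil) .nil))) 
(.lf (nat_lit 509533) (.g (nat_lit 2528) (.e (nat_lit 172106) (nat_lit 10) (.e (nat_lit 434244) (nat_lit 28) (.e (nat_lit 573471) (nat_lit 11) (.e (nat_lit 16388) (nat_lit 0) (.e (nat_lit 7495) (nat_lit 402) .nil))))) (.g (nat_lit 0) (.e (nat_lit 192722) (nat_lit 0) .nil) .nil)))) (.nd (nat_lit 9) 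
(.lf (nat_lit 509277) (.g (nat_lit 1921) (.e (nat_lit 172094) (nat_lit 9) (.e (nat_lit 426140) (nat_lit 3) (.e (nat_lit 204846) (nat_lit 24) (.e (nat_lit 327424) (nat_lit 16) .nil)))) (.g (nat_lit 0) (.e (nat_lit 192040) (nat_lit 0) .nil) .nil))) 
(.lf (nat_lit 509789) (.g (nat_lit 2568) (.e (nat_lit 172113) (nat_lit 10) (.e (nat_lit 434231) (nat_lit 23) (.e (nat_lit 532526) (nat_lit 8) (.e (nat_lit 327703) (nat_lit 10) (.e (nat_lit 5258) (nat_lit 298) .nil))))) (.g (nat_lit 0) (.e (nat_lit 193328) (nat_lit 0) .nil) .nil))))) (.nd (nat_lit 8) (.nd (nat_lit 9) 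
(.lf (nat_lit 509149) (.g (nat_lit 3106) (.e (nat_lit 172082) (nat_lit 7) (.e (nat_lit 409646) (nat_lit 18) (.e (nat_lit 303146) (nat_lit 14) (.e (nat_lit 491560) (nat_lit 10) (.e (nat_lit 344153) (nat_lit 35) (.e (nat_lit 630801) (nat_lit 8) .nil)))))) (.g (nat_lit 1) (.e (nat_lit 191673) (nat_lit 0) .nil) .nil))) 
(.lf (nat_lit 509661) (.g (nat_lit 2876) (.e (nat_lit 172110) (nat_lit 10) (.e (nat_lit 434248) (nat_lit 28) (.e (nat_lit 573474) (nat_lit 12) (.e (nat_lit 57572) (nat_lit 54) (.e (nat_lit 770072) (nat_lit 8) .nil))))) (.g (nat_lit 0) (.e (nat_lit 193057) (nat_lit 0) .nil) .nil)))) (.nd (nat_lit 9) 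
(.lf (nat_lit 509405) (.g (nat_lit 662) (.e (nat_lit 172105) (nat_lit 10) (.e (nat_lit 434248) (nat_lit 28) (.e (nat_lit 573452) (nat_lit 9) .nil))) (.g (nat_lit 0) (.e (nat_lit 192342) (nat_lit 0) .nil) .nil))) 
(.lf (nat_lit 509917) (.g (nat_lit 450) (.e (nat_lit 172113) (nat_lit 10) (.e (nat_lit 434247) (nat_lit 28) (.e (nat_lit 573502) (nat_lit 18) .nil))) (.g (nat_lit 0) (.e (nat_lit 193527) (nat_lit 0) .nil) .nil))))))) (.nd (nat_lit 6) (.nd (nat_lit 7) (.nd (nat_lit 8) (.nd (nat_lit 9) 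
(.lf (nat_lit 508989) (.g (nat_lit 2983) (.e (nat_lit 172079) (nat_lit 7) (.e (nat_lit 409645) (nat_lit 18) (.e (nat_lit 303146) (nat_lit 14) (.e (nat_lit 491560) (nat_lit 10) (.e (nat_lit 344157) (nat_lit 36) (.e (nat_lit 638999) (nat_lit 8) .nil)))))) (.g (nat_lit 1) (.e (nat_lit 190785) (nat_lit 0) .nil) .nil))) 
(.lf (nat_lit 509501) (.g (nat_lit 1959) (.e (nat_lit 172106) (nat_lit 10) (.e (nat_lit 434231) (nat_lit 23) (.e (nat_lit 532535) (nat_lit 9) (.e (nat_lit 336295) (nat_lit 15) (.e (nat_lit 3681) (nat_lit 227) .nil))))) (.g (nat_lit 0) (.e (nat_lit 192548) (nat_lit 0) .nil) .nil)))) (.nd (nat_lit 9) 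
(.lf (nat_lit 509245) (.g (nat_lit 2964) (.e (nat_lit 172093) (nat_lit 9) (.e (nat_lit 426140) (nat_lit 3) (.e (nat_lit 204846) (nat_lit 24) (.e (nat_lit 319534) (nat_lit 16) (.e (nat_lit 286733) (nat_lit 2) .nil))))) (.g (nat_lit 0) (.e (nat_lit 191974) (nat_lit 0) .nil) .nil))) 
(.lf (nat_lit 509757) (.g (nat_lit 1595) (.e (nat_lit 172113) (nat_lit 10) (.e (nat_lit 434231) (nat_lit 23) (.e (nat_lit 532486) (nat_lit 0) (.e (nat_lit 6122) (nat_lit 332) (.e (nat_lit 1367) (nat_lit 103) .nil))))) (.g (nat_lit 0) (.e (nat_lit 193295) (nat_lit 0) .nil) .nil))))) (.nd (nat_lit 8) (.nd (nat_lit 9) 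
(.lf (nat_lit 509117) (.g (nat_lit 4165) (.e (nat_lit 172082) (nat_lit 7) (.e (nat_lit 409646) (nat_lit 18) (.e (nat_lit 303137) (nat_lit 10) (.e (nat_lit 434275) (nat_lit 39) (.e (nat_lit 663574) (nat_lit 9) (.e (nat_lit 2467) (nat_lit 157) (.e (nat_lit 3469) (nat_lit 217) (.e (nat_lit 696344) (nat_lit 8) .nil)))))))) (.g (nat_lit 1) (.e (nat_lit 191407) (nat_lit 0) .nil) .nil))) 
(.lf (nat_lit 509629) (.g (nat_lit 908) (.e (nat_lit 172107) (nat_lit 10) (.e (nat_lit 434268) (nat_lit 36) (.e (nat_lit 639020) (nat_lit 16) (.e (nat_lit 65611) (nat_lit 10) .nil)))) (.g (nat_lit 0) (.e (nat_lit 193003) (nat_lit 0) .nil) .nil)))) (.nd (nat_lit 9) 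
(.lf (nat_lit 509373) (.g (nat_lit 746) (.e (nat_lit 172097) (nat_lit 9) (.e (nat_lit 426140) (nat_lit 3) (.e (nat_lit 204884) (nat_lit 33) .nil))) (.g (nat_lit 0) (.e (nat_lit 192285) (nat_lit 0) .nil) .nil))) 
(.lf (nat_lit 509885) (.g (nat_lit 4453) (.e (nat_lit 172113) (nat_lit 10) (.e (nat_lit 434245) (nat_lit 28) (.e (nat_lit 573471) (nat_lit 11) (.e (nat_lit 16469) (nat_lit 14) (.e (nat_lit 491537) (nat_lit 2) (.e (nat_lit 90170) (nat_lit 13) .nil)))))) (.g (nat_lit 1) (.e (nat_lit 193488) (nat_lit 0) .nil) .nil)))))) (.nd (nat_lit 7) (.nd (nat_lit 8) (.nd (nat_lit 9) 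
(.lf (nat_lit 509053) (.g (nat_lit 984) (.e (nat_lit 172081) (nat_lit 7) (.e (nat_lit 409639) (nat_lit 15) (.e (nat_lit 278567) (nat_lit 16) (.e (nat_lit 286753) (nat_lit 10) (.e (nat_lit 344157) (nat_lit 36) (.e (nat_lit 638999) (nat_lit 8) .nil)))))) (.g (nat_lit 1) (.e (nat_lit 190953) (nat_lit 0) .nil) .nil))) 
(.lf (nat_lit 509565) (.g (nat_lit 954) (.e (nat_lit 172106) (nat_lit 10) (.e (nat_lit 434268) (nat_lit 36) (.e (nat_lit 639020) (nat_lit 16) (.e (nat_lit 65616) (nat_lit 10) .nil)))) (.g (nat_lit 0) (.e (nat_lit 192791) (nat_lit 0) .nil) .nil)))) (.nd (nat_lit 9) 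
(.lf (nat_lit 509309) (.g (nat_lit 2214) (.e (nat_lit 172096) (nat_lit 9) (.e (nat_lit 426140) (nat_lit 3) (.e (nat_lit 204846) (nat_lit 24) (.e (nat_lit 319533) (nat_lit 16) (.e (nat_lit 286724) (nat_lit 0) .nil))))) (.g (nat_lit 0) (.e (nat_lit 192103) (nat_lit 0) .nil) .nil))) 
(.lf (nat_lit 509821) (.g (nat_lit 2009) (.e (nat_lit 172113) (nat_lit 10) (.e (nat_lit 434242) (nat_lit 28) (.e (nat_lit 573474) (nat_lit 12) (.e (nat_lit 57571) (nat_lit 54) .nil)))) (.g (nat_lit 0) (.e (nat_lit 193374) (nat_lit 0) .nil) .nil))))) (.nd (nat_lit 8) (.nd (nat_lit 9) 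
(.lf (nat_lit 509181) (.g (nat_lit 3292) (.e (nat_lit 172082) (nat_lit 7) (.e (nat_lit 409649) (nat_lit 18) (.e (nat_lit 303140) (nat_lit 10) (.e (nat_lit 434275) (nat_lit 39) (.e (nat_lit 663580) (nat_lit 9) (.e (nat_lit 2416) (nat_lit 157) (.e (nat_lit 3467) (nat_lit 217) (.e (nat_lit 696344) (nat_lit 8) .nil)))))))) (.g (nat_lit 1) (.e (nat_lit 191798) (nat_lit 0) .nil) .nil))) 
(.lf (nat_lit 509693) (.g (nat_lit 1928) (.e (nat_lit 172112) (nat_lit 10) (.e (nat_lit 434248) (nat_lit 28) (.e (nat_lit 573475) (nat_lit 12) (.e (nat_lit 57574) (nat_lit 55) (.e (nat_lit 778464) (nat_lit 11) .nil))))) (.g (nat_lit 0) (.e (nat_lit 193118) (nat_lit 0) .nil) .nil)))) (.nd (nat_lit 9) 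
(.lf (nat_lit 509437) (.g (nat_lit 1114) (.e (nat_lit 172105) (nat_lit 10) (.e (nat_lit 434289) (nat_lit 43) (.e (nat_lit 696343) (nat_lit 8) (.e (nat_lit 172106) (nat_lit 10) .nil)))) (.g (nat_lit 0) (.e (nat_lit 192379) (nat_lit 0) .nil) .nil))) 
(.lf (nat_lit 509949) (.g (nat_lit 3797) (.e (nat_lit 172113) (nat_lit 10) (.e (nat_lit 434248) (nat_lit 28) (.e (nat_lit 573471) (nat_lit 11) (.e (nat_lit 16433) (nat_lit 9) (.e (nat_lit 426420) (nat_lit 15) .nil))))) (.g (nat_lit 0) (.e (nat_lit 193566) (nat_lit 0) .nil) .nil))))))))))) 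
(.nd (nat_lit 2) (.nd (nat_lit 3) (.nd (nat_lit 4) (.nd (nat_lit 5) (.nd (nat_lit 6) 
(.nd (nat_lit 7) (.nd (nat_lit 8) (.nd (nat_lit 9) 
(.lf (nat_lit 508931) (.g (nat_lit 1379) (.e (nat_lit 172079) (nat_lit 7) (.e (nat_lit 409645) (nat_lit 18) (.e (nat_lit 303112) (nat_lit 0) (.e (nat_lit 7554) (nat_lit 402) .nil)))) (.g (nat_lit 0) (.e (nat_lit 190379) (nat_lit 0) .nil) .nil))) 
(.lf (nat_lit 509443) (.g (nat_lit 2458) (.e (nat_lit 172106) (nat_lit 10) (.e (nat_lit 434202) (nat_lit 18) (.e (nat_lit 6416) (nat_lit 341) (.e (nat_lit 163903) (nat_lit 12) (.e (nat_lit 426294) (nat_lit 11) (.e (nat_lit 458810) (nat_lit 43) (.e (nat_lit 696343) (nat_lit 8) .nil))))))) (.g (nat_lit 1) (.e (nat_lit 192393) (nat_lit 0) .nil) .nil)))) (.nd (nat_lit 9) 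
(.lf (nat_lit 509187) (.g (nat_lit 2509) (.e (nat_lit 172082) (nat_lit 7) (.e (nat_lit 409649) (nat_lit 18) (.e (nat_lit 303146) (nat_lit 14) (.e (nat_lit 491560) (nat_lit 10) (.e (nat_lit 344154) (nat_lit 35) (.e (nat_lit 630802) (nat_lit 8) .nil)))))) (.g (nat_lit 1) (.e (nat_lit 191828) (nat_lit 0) .nil) .nil))) 
(.lf (nat_lit 509699) (.g (nat_lit 1170) (.e (nat_lit 172112) (nat_lit 10) (.e (nat_lit 434265) (nat_lit 35) (.e (nat_lit 630820) (nat_lit 16) (.e (nat_lit 65617) (nat_lit 10) (.e (nat_lit 344157) (nat_lit 36) (.e (nat_lit 638999) (nat_lit 8) .nil)))))) (.g (nat_lit 1) (.e (nat_lit 193125) (nat_lit 0) .nil) .nil))))) (.nd (nat_lit 8) (.nd (nat_lit 9) 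
(.lf (nat_lit 509059) (.g (nat_lit 1220) (.e (nat_lit 172081) (nat_lit 7) (.e (nat_lit 409648) (nat_lit 18) (.e (nat_lit 303137) (nat_lit 10) (.e (nat_lit 434275) (nat_lit 39) .nil)))) (.g (nat_lit 0) (.e (nat_lit 190965) (nat_lit 0) .nil) .nil))) 
(.lf (nat_lit 509571) (.g (nat_lit 1222) (.e (nat_lit 172106) (nat_lit 10) (.e (nat_lit 434275) (nat_lit 39) (.e (nat_lit 663574) (nat_lit 9) (.e (nat_lit 7936) (nat_lit 24) .nil)))) (.g (nat_lit 0) (.e (nat_lit 192806) (nat_lit 0) .nil) .nil)))) (.nd (nat_lit 9) 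
(.lf (nat_lit 509315) (.g (nat_lit 836) (.e (nat_lit 172096) (nat_lit 9) (.e (nat_lit 426140) (nat_lit 3) (.e (nat_lit 204863) (nat_lit 27) .nil))) (.g (nat_lit 0) (.e (nat_lit 192110) (nat_lit 0) .nil) .nil))) 
(.lf (nat_lit 509827) (.g (nat_lit 2964) (.e (nat_lit 172113) (nat_lit 10) (.e (nat_lit 434242) (nat_lit 28) (.e (nat_lit 573474) (nat_lit 12) (.e (nat_lit 57574) (nat_lit 55) (.e (nat_lit 778465) (nat_lit 11) .nil))))) (.g (nat_lit 0) (.e (nat_lit 193380) (nat_lit 0) .nil) .nil)))))) (.nd (nat_lit 7) (.nd (nat_lit 8) (.nd (nat_lit 9) 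
(.lf (nat_lit 508995) (.g (nat_lit 1909) (.e (nat_lit 172079) (nat_lit 7) (.e (nat_lit 409645) (nat_lit 18) (.e (nat_lit 311040) (nat_lit 35) (.e (nat_lit 401454) (nat_lit 12) (.e (nat_lit 475203) (nat_lit 40) (.e (nat_lit 712448) (nat_lit 4) .nil)))))) (.g (nat_lit 1) (.e (nat_lit 190824) (nat_lit 0) .nil) .nil))) 
(.lf (nat_lit 509507) (.g (nat_lit 1655) (.e (nat_lit 172106) (nat_lit 10) (.e (nat_lit 434231) (nat_lit 23) (.e (nat_lit 532569) (nat_lit 16) (.e (nat_lit 401444) (nat_lit 9) .nil)))) (.g (nat_lit 0) (.e (nat_lit 192603) (nat_lit 0) .nil) .nil)))) (.nd (nat_lit 9) 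
(.lf (nat_lit 509251) (.g (nat_lit 847) (.e (nat_lit 172094) (nat_lit 9) (.e (nat_lit 426125) (nat_lit 2) (.e (nat_lit 196615) (nat_lit 0) .nil))) (.g (nat_lit 0) (.e (nat_lit 191991) (nat_lit 0) .nil) .nil))) 
(.lf (nat_lit 509763) (.g (nat_lit 3430) (.e (nat_lit 172113) (nat_lit 10) (.e (nat_lit 434231) (nat_lit 23) (.e (nat_lit 532523) (nat_lit 7) (.e (nat_lit 319496) (nat_lit 10) .nil)))) (.g (nat_lit 0) (.e (nat_lit 193302) (nat_lit 0) .nil) .nil))))) (.nd (nat_lit 8) (.nd (nat_lit 9) 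
(.lf (nat_lit 509123) (.g (nat_lit 569) (.e (nat_lit 172082) (nat_lit 7) (.e (nat_lit 409646) (nat_lit 18) (.e (nat_lit 303140) (nat_lit 10) .nil))) (.g (nat_lit 0) (.e (nat_lit 191422) (nat_lit 0) .nil) .nil))) 
(.lf (nat_lit 509635) (.g (nat_lit 1917) (.e (nat_lit 172107) (nat_lit 10) (.e (nat_lit 434271) (nat_lit 38) (.e (nat_lit 655378) (nat_lit 4) (.e (nat_lit 172097) (nat_lit 9) (.e (nat_lit 426025) (nat_lit 0) (.e (nat_lit 3399) (nat_lit 211) (.e (nat_lit 647183) (nat_lit 4) .nil))))))) (.g (nat_lit 1) (.e (nat_lit 193012) (nat_lit 0) .nil) .nil)))) (.nd (nat_lit 9) 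
(.lf (nat_lit 509379) (.g (nat_lit 2277) (.e (nat_lit 172103) (nat_lit 9) (.e (nat_lit 426139) (nat_lit 3) (.e (nat_lit 204846) (nat_lit 24) (.e (nat_lit 319511) (nat_lit 10) (.e (nat_lit 5293) (nat_lit 298) .nil))))) (.g (nat_lit 0) (.e (nat_lit 192303) (nat_lit 0) .nil) .nil))) 
(.lf (nat_lit 509891) (.g (nat_lit 1867) (.e (nat_lit 172113) (nat_lit 10) (.e (nat_lit 434245) (nat_lit 28) (.e (nat_lit 573471) (nat_lit 11) (.e (nat_lit 16471) (nat_lit 14) (.e (nat_lit 499456) (nat_lit 2) .nil))))) (.g (nat_lit 0) (.e (nat_lit 193494) (nat_lit 0) .nil) .nil))))))) (.nd (nat_lit 6) (.nd (nat_lit 7) (.nd (nat_lit 8) (.nd (nat_lit 9) 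
(.lf (nat_lit 508963) (.g (nat_lit 486) (.e (nat_lit 172079) (nat_lit 7) (.e (nat_lit 409645) (nat_lit 18) (.e (nat_lit 303143) (nat_lit 12) .nil))) (.g (nat_lit 0) (.e (nat_lit 190610) (nat_lit 0) .nil) .nil))) 
(.lf (nat_lit 509475) (.g (nat_lit 2053) (.e (nat_lit 172106) (nat_lit 10) (.e (nat_lit 434231) (nat_lit 23) (.e (nat_lit 532522) (nat_lit 7) (.e (nat_lit 319504) (nat_lit 10) (.e (nat_lit 5245) (nat_lit 298) .nil))))) (.g (nat_lit 0) (.e (nat_lit 192514) (nat_lit 0) .nil) .nil)))) (.nd (nat_lit 9) 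
(.lf (nat_lit 509219) (.g (nat_lit 625) (.e (nat_lit 172087) (nat_lit 9) (.e (nat_lit 426568) (nat_lit 34) (.e (nat_lit 393251) (nat_lit 18) .nil))) (.g (nat_lit 0) (.e (nat_lit 191940) (nat_lit 0) .nil) .nil))) 
(.lf (nat_lit 509731) (.g (nat_lit 2527) (.e (nat_lit 172113) (nat_lit 10) (.e (nat_lit 434203) (nat_lit 18) (.e (nat_lit 6416) (nat_lit 341) (.e (nat_lit 163903) (nat_lit 12) (.e (nat_lit 426294) (nat_lit 11) (.e (nat_lit 458810) (nat_lit 43) (.e (nat_lit 696344) (nat_lit 8) .nil))))))) (.g (nat_lit 1) (.e (nat_lit 193205) (nat_lit 0) .nil) .nil))))) (.nd (nat_lit 8) (.nd (nat_lit 9) 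
(.lf (nat_lit 509091) (.g (nat_lit 1804) (.e (nat_lit 172082) (nat_lit 7) (.e (nat_lit 409638) (nat_lit 15) (.e (nat_lit 278566) (nat_lit 16) (.e (nat_lit 286753) (nat_lit 10) (.e (nat_lit 344157) (nat_lit 36) (.e (nat_lit 638999) (nat_lit 8) .nil)))))) (.g (nat_lit 1) (.e (nat_lit 191066) (nat_lit 0) .nil) .nil))) 
(.lf (nat_lit 509603) (.g (nat_lit 2001) (.e (nat_lit 172106) (nat_lit 10) (.e (nat_lit 434289) (nat_lit 43) (.e (nat_lit 696344) (nat_lit 8) (.e (nat_lit 172106) (nat_lit 10) (.e (nat_lit 434287) (nat_lit 43) .nil))))) (.g (nat_lit 0) (.e (nat_lit 192961) (nat_lit 0) .nil) .nil)))) (.nd (nat_lit 9) 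
(.lf (nat_lit 509347) (.g (nat_lit 2858) (.e (nat_lit 172097) (nat_lit 9) (.e (nat_lit 426140) (nat_lit 3) (.e (nat_lit 204845) (nat_lit 24) (.e (nat_lit 319530) (nat_lit 16) (.e (nat_lit 286732) (nat_lit 2) (.e (nat_lit 90170) (nat_lit 13) .nil)))))) (.g (nat_lit 1) (.e (nat_lit 192257) (nat_lit 0) .nil) .nil))) 
(.lf (nat_lit 509859) (.g (nat_lit 2056) (.e (nat_lit 172113) (nat_lit 10) (.e (nat_lit 434245) (nat_lit 28) (.e (nat_lit 573471) (nat_lit 11) (.e (nat_lit 16393) (nat_lit 0) .nil)))) (.g (nat_lit 0) (.e (nat_lit 193443) (nat_lit 0) .nil) .nil)))))) (.nd (nat_lit 7) (.nd (nat_lit 8) (.nd (nat_lit 9) 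
(.lf (nat_lit 509027) (.g (nat_lit 785) (.e (nat_lit 172080) (nat_lit 7) (.e (nat_lit 409639) (nat_lit 15) (.e (nat_lit 278566) (nat_lit 16) (.e (nat_lit 286753) (nat_lit 10) (.e (nat_lit 344154) (nat_lit 35) (.e (nat_lit 630802) (nat_lit 8) .nil)))))) (.g (nat_lit 1) (.e (nat_lit 190887) (nat_lit 0) .nil) .nil))) 
(.lf (nat_lit 509539) (.g (nat_lit 4227) (.e (nat_lit 172106) (nat_lit 10) (.e (nat_lit 434244) (nat_lit 28) (.e (nat_lit 573471) (nat_lit 11) (.e (nat_lit 16470) (nat_lit 14) (.e (nat_lit 499456) (nat_lit 2) .nil))))) (.g (nat_lit 0) (.e (nat_lit 192757) (nat_lit 0) .nil) .nil)))) (.nd (nat_lit 9) 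
(.lf (nat_lit 509283) (.g (nat_lit 2272) (.e (nat_lit 172095) (nat_lit 9) (.e (nat_lit 426134) (nat_lit 3) (.e (nat_lit 204846) (nat_lit 24) (.e (nat_lit 319533) (nat_lit 16) (.e (nat_lit 286733) (nat_lit 2) (.e (nat_lit 90170) (nat_lit 13) .nil)))))) (.g (nat_lit 1) (.e (nat_lit 192063) (nat_lit 0) .nil) .nil))) 
(.lf (nat_lit 509795) (.g (nat_lit 4618) (.e (nat_lit 172113) (nat_lit 10) (.e (nat_lit 434231) (nat_lit 23) (.e (nat_lit 532569) (nat_lit 16) (.e (nat_lit 401448) (nat_lit 10) (.e (nat_lit 434238) (nat_lit 25) (.e (nat_lit 548913) (nat_lit 18) .nil)))))) (.g (nat_lit 1) (.e (nat_lit 193338) (nat_lit 0) .nil) .nil))))) (.nd (nat_lit 8) (.nd (nat_lit 9) 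
(.lf (nat_lit 509155) (.g (nat_lit 2337) (.e (nat_lit 172082) (nat_lit 7) (.e (nat_lit 409646) (nat_lit 18) (.e (nat_lit 311040) (nat_lit 35) (.e (nat_lit 401454) (nat_lit 12) (.e (nat_lit 475195) (nat_lit 40) (.e (nat_lit 704593) (nat_lit 4) .nil)))))) (.g (nat_lit 1) (.e (nat_lit 191722) (nat_lit 0) .nil) .nil))) 
(.lf (nat_lit 509667) (.g (nat_lit 3461) (.e (nat_lit 172111) (nat_lit 10) (.e (nat_lit 434247) (nat_lit 28) (.e (nat_lit 573477) (nat_lit 12) (.e (nat_lit 57574) (nat_lit 55) (.e (nat_lit 778466) (nat_lit 11) (.e (nat_lit 24604) (nat_lit 2) (.e (nat_lit 90169) (nat_lit 13) .nil))))))) (.g (nat_lit 1) (.e (nat_lit 193065) (nat_lit 0) .nil) .nil)))) (.nd (nat_lit 9) 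
(.lf (nat_lit 509411) (.g (nat_lit 2095) (.e (nat_lit 172105) (nat_lit 10) (.e (nat_lit 434248) (nat_lit 28) (.e (nat_lit 573470) (nat_lit 11) (.e (nat_lit 16435) (nat_lit 9) (.e (nat_lit 426402) (nat_lit 15) .nil))))) (.g (nat_lit 0) (.e (nat_lit 192348) (nat_lit 0) .nil) .nil))) 
(.lf (nat_lit 509923) (.g (nat_lit 3365) (.e (nat_lit 172113) (nat_lit 10) (.e (nat_lit 434248) (nat_lit 28) (.e (nat_lit 573451) (nat_lit 9) (.e (nat_lit 359) (nat_lit 30) (.e (nat_lit 409605) (nat_lit 0) .nil))))) (.g (nat_lit 0) (.e (nat_lit 193535) (nat_lit 0) .nil) .nil)))))))) (.nd (nat_lit 5) (.nd (nat_lit 6) (.nd (nat_lit 7) (.nd (nat_lit 8) (.nd (nat_lit 9) 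
(.lf (nat_lit 508947) (.g (nat_lit 3127) (.e (nat_lit 172079) (nat_lit 7) (.e (nat_lit 409645) (nat_lit 18) (.e (nat_lit 303135) (nat_lit 10) (.e (nat_lit 434276) (nat_lit 39) (.e (nat_lit 663585) (nat_lit 12) (.e (nat_lit 164018) (nat_lit 45) (.e (nat_lit 696344) (nat_lit 8) .nil))))))) (.g (nat_lit 1) (.e (nat_lit 190565) (nat_lit 0) .nil) .nil))) 
(.lf (nat_lit 509459) (.g (nat_lit 3772) (.e (nat_lit 172106) (nat_lit 10) (.e (nat_lit 434231) (nat_lit 23) (.e (nat_lit 532481) (nat_lit 0) (.e (nat_lit 6665) (nat_lit 357) (.e (nat_lit 3062) (nat_lit 190) (.e (nat_lit 475185) (nat_lit 29) (.e (nat_lit 557100) (nat_lit 13) .nil))))))) (.g (nat_lit 1) (.e (nat_lit 192491) (nat_lit 0) .nil) .nil)))) (.nd (nat_lit 9) 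
(.lf (nat_lit 509203) (.g (nat_lit 3573) (.e (nat_lit 172085) (nat_lit 9) (.e (nat_lit 426140) (nat_lit 3) (.e (nat_lit 204846) (nat_lit 24) (.e (nat_lit 319531) (nat_lit 16) (.e (nat_lit 286733) (nat_lit 2) (.e (nat_lit 90169) (nat_lit 13) .nil)))))) (.g (nat_lit 1) (.e (nat_lit 191907) (nat_lit 0) .nil) .nil))) 
(.lf (nat_lit 509715) (.g (nat_lit 1713) (.e (nat_lit 172112) (nat_lit 10) (.e (nat_lit 434272) (nat_lit 38) (.e (nat_lit 655378) (nat_lit 4) (.e (nat_lit 172089) (nat_lit 9) (.e (nat_lit 426025) (nat_lit 0) .nil))))) (.g (nat_lit 0) (.e (nat_lit 193163) (nat_lit 0) .nil) .nil))))) (.nd (nat_lit 8) (.nd (nat_lit 9) 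
(.lf (nat_lit 509075) (.g (nat_lit 1754) (.e (nat_lit 172081) (nat_lit 7) (.e (nat_lit 409642) (nat_lit 17) (.e (nat_lit 294974) (nat_lit 29) (.e (nat_lit 442395) (nat_lit 20) (.e (nat_lit 3402) (nat_lit 211) (.e (nat_lit 647183) (nat_lit 4) .nil)))))) (.g (nat_lit 1) (.e (nat_lit 191016) (nat_lit 0) .nil) .nil))) 
(.lf (nat_lit 509587) (.g (nat_lit 3406) (.e (nat_lit 172106) (nat_lit 10) (.e (nat_lit 434288) (nat_lit 43) (.e (nat_lit 696343) (nat_lit 8) (.e (nat_lit 172106) (nat_lit 10) (.e (nat_lit 434289) (nat_lit 43) (.e (nat_lit 696344) (nat_lit 8) .nil)))))) (.g (nat_lit 1) (.e (nat_lit 192920) (nat_lit 0) .nil) .nil)))) (.nd (nat_lit 9) 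
(.lf (nat_lit 509331) (.g (nat_lit 4063) (.e (nat_lit 172097) (nat_lit 9) (.e (nat_lit 426125) (nat_lit 2) (.e (nat_lit 196666) (nat_lit 13) (.e (nat_lit 65639) (nat_lit 15) (.e (nat_lit 3711) (nat_lit 227) (.e (nat_lit 778316) (nat_lit 3) (.e (nat_lit 57480) (nat_lit 28) (.e (nat_lit 557098) (nat_lit 13) .nil)))))))) (.g (nat_lit 1) (.e (nat_lit 192233) (nat_lit 0) .nil) .nil))) 
(.lf (nat_lit 509843) (.g (nat_lit 1999) (.e (nat_lit 172113) (nat_lit 10) (.e (nat_lit 434245) (nat_lit 28) (.e (nat_lit 573450) (nat_lit 9) (.e (nat_lit 411) (nat_lit 32) (.e (nat_lit 426008) (nat_lit 0) .nil))))) (.g (nat_lit 0) (.e (nat_lit 193400) (nat_lit 0) .nil) .nil)))))) (.nd (nat_lit 7) (.nd (nat_lit 8) (.nd (nat_lit 9) 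
(.lf (nat_lit 509011) (.g (nat_lit 346) (.e (nat_lit 172079) (nat_lit 7) (.e (nat_lit 409642) (nat_lit 17) (.e (nat_lit 294974) (nat_lit 29) .nil))) (.g (nat_lit 0) (.e (nat_lit 190860) (nat_lit 0) .nil) .nil))) 
(.lf (nat_lit 509523) (.g (nat_lit 1261) (.e (nat_lit 172106) (nat_lit 10) (.e (nat_lit 434244) (nat_lit 28) (.e (nat_lit 573454) (nat_lit 9) (.e (nat_lit 441) (nat_lit 33) .nil)))) (.g (nat_lit 0) (.e (nat_lit 192710) (nat_lit 0) .nil) .nil)))) (.nd (nat_lit 9) 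
(.lf (nat_lit 509267) (.g (nat_lit 2397) (.e (nat_lit 172094) (nat_lit 9) (.e (nat_lit 426140) (nat_lit 3) (.e (nat_lit 204846) (nat_lit 24) (.e (nat_lit 319530) (nat_lit 16) .nil)))) (.g (nat_lit 0) (.e (nat_lit 192028) (nat_lit 0) .nil) .nil))) 
(.lf (nat_lit 509779) (.g (nat_lit 3684) (.e (nat_lit 172113) (nat_lit 10) (.e (nat_lit 434231) (nat_lit 23) (.e (nat_lit 532523) (nat_lit 7) (.e (nat_lit 319507) (nat_lit 10) .nil)))) (.g (nat_lit 0) (.e (nat_lit 193318) (nat_lit 0) .nil) .nil))))) (.nd (nat_lit 8) (.nd (nat_lit 9) 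
(.lf (nat_lit 509139) (.g (nat_lit 2488) (.e (nat_lit 172082) (nat_lit 7) (.e (nat_lit 409646) (nat_lit 18) (.e (nat_lit 303143) (nat_lit 12) (.e (nat_lit 475199) (nat_lit 40) (.e (nat_lit 704673) (nat_lit 9) .nil))))) (.g (nat_lit 0) (.e (nat_lit 191566) (nat_lit 0) .nil) .nil))) 
(.lf (nat_lit 509651) (.g (nat_lit 1811) (.e (nat_lit 172107) (nat_lit 10) (.e (nat_lit 434289) (nat_lit 43) (.e (nat_lit 696346) (nat_lit 10) (.e (nat_lit 188441) (nat_lit 20) (.e (nat_lit 3468) (nat_lit 217) .nil))))) (.g (nat_lit 0) (.e (nat_lit 193047) (nat_lit 0) .nil) .nil)))) (.nd (nat_lit 9) 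
(.lf (nat_lit 509395) (.g (nat_lit 2048) (.e (nat_lit 172105) (nat_lit 10) (.e (nat_lit 434247) (nat_lit 28) (.e (nat_lit 573475) (nat_lit 12) (.e (nat_lit 57574) (nat_lit 55) .nil)))) (.g (nat_lit 0) (.e (nat_lit 192332) (nat_lit 0) .nil) .nil))) 
(.lf (nat_lit 509907) (.g (nat_lit 2836) (.e (nat_lit 172113) (nat_lit 10) (.e (nat_lit 434247) (nat_lit 28) (.e (nat_lit 573477) (nat_lit 12) (.e (nat_lit 57574) (nat_lit 55) (.e (nat_lit 778465) (nat_lit 11) (.e (nat_lit 24603) (nat_lit 2) (.e (nat_lit 90166) (nat_lit 13) .nil))))))) (.g (nat_lit 1) (.e (nat_lit 193517) (nat_lit 0) .nil) .nil))))))) 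
(.nd (nat_lit 6) (.nd (nat_lit 7) (.nd (nat_lit 8) (.nd (nat_lit 9) 
(.lf (nat_lit 508979) (.g (nat_lit 2205) (.e (nat_lit 172079) (nat_lit 7) (.e (nat_lit 409645) (nat_lit 18) (.e (nat_lit 303143) (nat_lit 12) (.e (nat_lit 475212) (nat_lit 42) (.e (nat_lit 720913) (nat_lit 20) .nil))))) (.g (nat_lit 0) (.e (nat_lit 190750) (nat_lit 0) .nil) .nil))) 
(.lf (nat_lit 509491) (.g (nat_lit 3233) (.e (nat_lit 172106) (nat_lit 10) (.e (nat_lit 434231) (nat_lit 23) (.e (nat_lit 540416) (nat_lit 7) (.e (nat_lit 319531) (nat_lit 16) (.e (nat_lit 286732) (nat_lit 2) (.e (nat_lit 90170) (nat_lit 13) .nil)))))) (.g (nat_lit 1) (.e (nat_lit 192534) (nat_lit 0) .nil) .nil)))) (.nd (nat_lit 9) 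
(.lf (nat_lit 509235) (.g (nat_lit 809) (.e (nat_lit 172091) (nat_lit 9) (.e (nat_lit 426125) (nat_lit 2) (.e (nat_lit 196661) (nat_lit 12) .nil))) (.g (nat_lit 0) (.e (nat_lit 191960) (nat_lit 0) .nil) .nil))) 
(.lf (nat_lit 509747) (.g (nat_lit 2123) (.e (nat_lit 172113) (nat_lit 10) (.e (nat_lit 434209) (nat_lit 18) (.e (nat_lit 6425) (nat_lit 342) (.e (nat_lit 229412) (nat_lit 14) .nil)))) (.g (nat_lit 0) (.e (nat_lit 193279) (nat_lit 0) .nil) .nil))))) (.nd (nat_lit 8) (.nd (nat_lit 9) 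
(.lf (nat_lit 509107) (.g (nat_lit 413) (.e (nat_lit 172082) (nat_lit 7) (.e (nat_lit 409646) (nat_lit 18) (.e (nat_lit 303133) (nat_lit 9) .nil))) (.g (nat_lit 0) (.e (nat_lit 191181) (nat_lit 0) .nil) .nil))) 
(.lf (nat_lit 509619) (.g (nat_lit 3881) (.e (nat_lit 172107) (nat_lit 10) (.e (nat_lit 434238) (nat_lit 25) (.e (nat_lit 548913) (nat_lit 18) (.e (nat_lit 172120) (nat_lit 12) (.e (nat_lit 475185) (nat_lit 29) (.e (nat_lit 557100) (nat_lit 13) .nil)))))) (.g (nat_lit 1) (.e (nat_lit 192991) (nat_lit 0) .nil) .nil)))) (.nd (nat_lit 9) 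
(.lf (nat_lit 509363) (.g (nat_lit 3009) (.e (nat_lit 172097) (nat_lit 9) (.e (nat_lit 426140) (nat_lit 3) (.e (nat_lit 204846) (nat_lit 24) (.e (nat_lit 319534) (nat_lit 16) (.e (nat_lit 286732) (nat_lit 2) (.e (nat_lit 90170) (nat_lit 13) .nil)))))) (.g (nat_lit 1) (.e (nat_lit 192273) (nat_lit 0) .nil) .nil))) 
(.lf (nat_lit 509875) (.g (nat_lit 3704) (.e (nat_lit 172113) (nat_lit 10) (.e (nat_lit 434245) (nat_lit 28) (.e (nat_lit 573471) (nat_lit 11) (.e (nat_lit 16433) (nat_lit 9) (.e (nat_lit 426399) (nat_lit 15) .nil))))) (.g (nat_lit 0) (.e (nat_lit 193475) (nat_lit 0) .nil) .nil)))))) (.nd (nat_lit 7) (.nd (nat_lit 8) (.nd (nat_lit 9) 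
(.lf (nat_lit 509043) (.g (nat_lit 210) (.e (nat_lit 172081) (nat_lit 7) (.e (nat_lit 409631) (nat_lit 12) (.e (nat_lit 32809) (nat_lit 20) .nil))) (.g (nat_lit 0) (.e (nat_lit 190936) (nat_lit 0) .nil) .nil))) 
(.lf (nat_lit 509555) (.g (nat_lit 3596) (.e (nat_lit 172106) (nat_lit 10) (.e (nat_lit 434248) (nat_lit 28) (.e (nat_lit 573471) (nat_lit 11) (.e (nat_lit 16473) (nat_lit 14) (.e (nat_lit 491536) (nat_lit 2) .nil))))) (.g (nat_lit 0) (.e (nat_lit 192776) (nat_lit 0) .nil) .nil)))) (.nd (nat_lit 9) 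
(.lf (nat_lit 509299) (.g (nat_lit 3592) (.e (nat_lit 172100) (nat_lit 9) (.e (nat_lit 426412) (nat_lit 15) (.e (nat_lit 1856) (nat_lit 124) (.e (nat_lit 557103) (nat_lit 14) (.e (nat_lit 180285) (nat_lit 45) .nil))))) (.g (nat_lit 0) (.e (nat_lit 192085) (nat_lit 0) .nil) .nil))) 
(.lf (nat_lit 509811) (.g (nat_lit 2773) (.e (nat_lit 172113) (nat_lit 10) (.e (nat_lit 434242) (nat_lit 28) (.e (nat_lit 573474) (nat_lit 12) (.e (nat_lit 57348) (nat_lit 0) (.e (nat_lit 7265) (nat_lit 384) .nil))))) (.g (nat_lit 0) (.e (nat_lit 193364) (nat_lit 0) .nil) .nil))))) (.nd (nat_lit 8) (.nd (nat_lit 9) 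
(.lf (nat_lit 509171) (.g (nat_lit 829) (.e (nat_lit 172082) (nat_lit 7) (.e (nat_lit 409649) (nat_lit 18) (.e (nat_lit 303139) (nat_lit 10) .nil))) (.g (nat_lit 0) (.e (nat_lit 191774) (nat_lit 0) .nil) .nil))) 
(.lf (nat_lit 509683) (.g (nat_lit 606) (.e (nat_lit 172112) (nat_lit 10) (.e (nat_lit 434209) (nat_lit 18) (.e (nat_lit 6425) (nat_lit 342) .nil))) (.g (nat_lit 0) (.e (nat_lit 193084) (nat_lit 0) .nil) .nil)))) (.nd (nat_lit 9) 
(.lf (nat_lit 509427) (.g (nat_lit 755) (.e (nat_lit 172105) (nat_lit 10) (.e (nat_lit 434271) (nat_lit 38) (.e (nat_lit 655380) (nat_lit 6) (.e (nat_lit 188431) (nat_lit 20) .nil)))) (.g (nat_lit 0) (.e (nat_lit 192366) (nat_lit 0) .nil) .nil))) 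
(.lf (nat_lit 509939) (.g (nat_lit 1676) (.e (nat_lit 172113) (nat_lit 10) (.e (nat_lit 434248) (nat_lit 28) (.e (nat_lit 573471) (nat_lit 11) (.e (nat_lit 16389) (nat_lit 0) .nil)))) (.g (nat_lit 0) (.e (nat_lit 193555) (nat_lit 0) .nil) .nil))))))))) (.nd (nat_lit 4) (.nd (nat_lit 5) (.nd (nat_lit 6) (.nd (nat_lit 7) (.nd (nat_lit 8) (.nd (nat_lit 9) 
(.lf (nat_lit 508939) (.g (nat_lit 510) (.e (nat_lit 172079) (nat_lit 7) (.e (nat_lit 409645) (nat_lit 18) (.e (nat_lit 303133) (nat_lit 9) .nil))) (.g (nat_lit 0) (.e (nat_lit 190461) (nat_lit 0) .nil) .nil))) 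
(.lf (nat_lit 509451) (.g (nat_lit 1797) (.e (nat_lit 172106) (nat_lit 10) (.e (nat_lit 434209) (nat_lit 18) (.e (nat_lit 6425) (nat_lit 342) (.e (nat_lit 229411) (nat_lit 14) .nil)))) (.g (nat_lit 0) (.e (nat_lit 192465) (nat_lit 0) .nil) .nil)))) (.nd (nat_lit 9) 
(.lf (nat_lit 509195) (.g (nat_lit 4402) (.e (nat_lit 172085) (nat_lit 9) (.e (nat_lit 426140) (nat_lit 3) (.e (nat_lit 204845) (nat_lit 24) (.e (nat_lit 319530) (nat_lit 16) (.e (nat_lit 286733) (nat_lit 2) (.e (nat_lit 90169) (nat_lit 13) .nil)))))) (.g (nat_lit 1) (.e (nat_lit 191899) (nat_lit 0) .nil) .nil))) 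
(.lf (nat_lit 509707) (.g (nat_lit 2759) (.e (nat_lit 172112) (nat_lit 10) (.e (nat_lit 434268) (nat_lit 36) (.e (nat_lit 639020) (nat_lit 16) (.e (nat_lit 65620) (nat_lit 10) (.e (nat_lit 344156) (nat_lit 36) (.e (nat_lit 638998) (nat_lit 8) .nil)))))) (.g (nat_lit 1) (.e (nat_lit 193137) (nat_lit 0) .nil) .nil))))) (.nd (nat_lit 8) (.nd (nat_lit 9) 
(.lf (nat_lit 509067) (.g (nat_lit 2419) (.e (nat_lit 172081) (nat_lit 7) (.e (nat_lit 409649) (nat_lit 18) (.e (nat_lit 303140) (nat_lit 10) (.e (nat_lit 434202) (nat_lit 18) (.e (nat_lit 5968) (nat_lit 324) .nil))))) (.g (nat_lit 0) (.e (nat_lit 190990) (nat_lit 0) .nil) .nil))) 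
(.lf (nat_lit 509579) (.g (nat_lit 2313) (.e (nat_lit 172106) (nat_lit 10) (.e (nat_lit 434271) (nat_lit 38) (.e (nat_lit 655378) (nat_lit 4) (.e (nat_lit 172097) (nat_lit 9) (.e (nat_lit 426025) (nat_lit 0) (.e (nat_lit 3397) (nat_lit 211) (.e (nat_lit 647183) (nat_lit 4) .nil))))))) (.g (nat_lit 1) (.e (nat_lit 192831) (nat_lit 0) .nil) .nil)))) (.nd (nat_lit 9) 
(.lf (nat_lit 509323) (.g (nat_lit 2105) (.e (nat_lit 172097) (nat_lit 9) (.e (nat_lit 426125) (nat_lit 2) (.e (nat_lit 196616) (nat_lit 0) .nil))) (.g (nat_lit 0) (.e (nat_lit 192207) (nat_lit 0) .nil) .nil))) 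
(.lf (nat_lit 509835) (.g (nat_lit 2405) (.e (nat_lit 172113) (nat_lit 10) (.e (nat_lit 434244) (nat_lit 28) (.e (nat_lit 573471) (nat_lit 11) (.e (nat_lit 16396) (nat_lit 0) .nil)))) (.g (nat_lit 0) (.e (nat_lit 193390) (nat_lit 0) .nil) .nil)))))) (.nd (nat_lit 7) (.nd (nat_lit 8) (.nd (nat_lit 9) 
(.lf (nat_lit 509003) (.g (nat_lit 3014) (.e (nat_lit 172079) (nat_lit 7) (.e (nat_lit 409648) (nat_lit 18) (.e (nat_lit 303137) (nat_lit 10) (.e (nat_lit 434275) (nat_lit 39) (.e (nat_lit 663580) (nat_lit 9) (.e (nat_lit 2416) (nat_lit 157) (.e (nat_lit 3471) (nat_lit 217) (.e (nat_lit 696343) (nat_lit 8) .nil)))))))) (.g (nat_lit 1) (.e (nat_lit 190840) (nat_lit 0) .nil) .nil))) 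
(.lf (nat_lit 509515) (.g (nat_lit 1930) (.e (nat_lit 172106) (nat_lit 10) (.e (nat_lit 434238) (nat_lit 25) (.e (nat_lit 548913) (nat_lit 18) (.e (nat_lit 172094) (nat_lit 9) .nil)))) (.g (nat_lit 0) (.e (nat_lit 192688) (nat_lit 0) .nil) .nil)))) (.nd (nat_lit 9) 
(.lf (nat_lit 509259) (.g (nat_lit 1282) (.e (nat_lit 172094) (nat_lit 9) (.e (nat_lit 426125) (nat_lit 2) (.e (nat_lit 196669) (nat_lit 14) .nil))) (.g (nat_lit 0) (.e (nat_lit 192015) (nat_lit 0) .nil) .nil))) 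
(.lf (nat_lit 509771) (.g (nat_lit 3339) (.e (nat_lit 172113) (nat_lit 10) (.e (nat_lit 434231) (nat_lit 23) (.e (nat_lit 532523) (nat_lit 7) (.e (nat_lit 319503) (nat_lit 10) .nil)))) (.g (nat_lit 0) (.e (nat_lit 193310) (nat_lit 0) .nil) .nil))))) (.nd (nat_lit 8) (.nd (nat_lit 9) 
(.lf (nat_lit 509131) (.g (nat_lit 3623) (.e (nat_lit 172082) (nat_lit 7) (.e (nat_lit 409646) (nat_lit 18) (.e (nat_lit 303140) (nat_lit 10) (.e (nat_lit 434275) (nat_lit 39) (.e (nat_lit 663580) (nat_lit 9) (.e (nat_lit 2478) (nat_lit 157) (.e (nat_lit 3464) (nat_lit 217) (.e (nat_lit 696344) (nat_lit 8) .nil)))))))) (.g (nat_lit 1) (.e (nat_lit 191440) (nat_lit 0) .nil) .nil))) 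
(.lf (nat_lit 509643) (.g (nat_lit 3059) (.e (nat_lit 172107) (nat_lit 10) (.e (nat_lit 434289) (nat_lit 43) (.e (nat_lit 696343) (nat_lit 8) (.e (nat_lit 172116) (nat_lit 10) (.e (nat_lit 434289) (nat_lit 43) (.e (nat_lit 696344) (nat_lit 8) .nil)))))) (.g (nat_lit 1) (.e (nat_lit 193036) (nat_lit 0) .nil) .nil)))) (.nd (nat_lit 9) 
(.lf (nat_lit 509387) (.g (nat_lit 1035) (.e (nat_lit 179968) (nat_lit 9) (.e (nat_lit 426133) (nat_lit 3) (.e (nat_lit 204884) (nat_lit 33) .nil))) (.g (nat_lit 0) (.e (nat_lit 192311) (nat_lit 0) .nil) .nil))) 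
(.lf (nat_lit 509899) (.g (nat_lit 3265) (.e (nat_lit 172113) (nat_lit 10) (.e (nat_lit 434247) (nat_lit 28) (.e (nat_lit 573469) (nat_lit 11) (.e (nat_lit 16433) (nat_lit 9) (.e (nat_lit 426361) (nat_lit 15) (.e (nat_lit 1860) (nat_lit 124) (.e (nat_lit 557100) (nat_lit 13) .nil))))))) (.g (nat_lit 1) (.e (nat_lit 193508) (nat_lit 0) .nil) .nil))))))) 
(.nd (nat_lit 6) (.nd (nat_lit 7) (.nd (nat_lit 8) (.nd (nat_lit 9) 
(.lf (nat_lit 508971) (.g (nat_lit 3723) (.e (nat_lit 172079) (nat_lit 7) (.e (nat_lit 409645) (nat_lit 18) (.e (nat_lit 303143) (nat_lit 12) (.e (nat_lit 475199) (nat_lit 40) (.e (nat_lit 704855) (nat_lit 17) (.e (nat_lit 171776) (nat_lit 106) (.e (nat_lit 696344) (nat_lit 8) .nil))))))) (.g (nat_lit 1) (.e (nat_lit 190714) (nat_lit 0) .nil) .nil))) 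
(.lf (nat_lit 509483) (.g (nat_lit 2406) (.e (nat_lit 172106) (nat_lit 10) (.e (nat_lit 434231) (nat_lit 23) (.e (nat_lit 532523) (nat_lit 7) (.e (nat_lit 319505) (nat_lit 10) (.e (nat_lit 5288) (nat_lit 298) .nil))))) (.g (nat_lit 0) (.e (nat_lit 192523) (nat_lit 0) .nil) .nil)))) (.nd (nat_lit 9) 
(.lf (nat_lit 509227) (.g (nat_lit 1637) (.e (nat_lit 172089) (nat_lit 9) (.e (nat_lit 426025) (nat_lit 0) (.e (nat_lit 3397) (nat_lit 211) (.e (nat_lit 647183) (nat_lit 4) (.e (nat_lit 172089) (nat_lit 9) .nil))))) (.g (nat_lit 0) (.e (nat_lit 191951) (nat_lit 0) .nil) .nil))) 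
(.lf (nat_lit 509739) (.g (nat_lit 2697) (.e (nat_lit 172113) (nat_lit 10) (.e (nat_lit 434208) (nat_lit 18) (.e (nat_lit 6416) (nat_lit 341) (.e (nat_lit 163903) (nat_lit 12) (.e (nat_lit 426294) (nat_lit 11) (.e (nat_lit 458810) (nat_lit 43) (.e (nat_lit 696343) (nat_lit 8) .nil))))))) (.g (nat_lit 1) (.e (nat_lit 193242) (nat_lit 0) .nil) .nil))))) (.nd (nat_lit 8) (.nd (nat_lit 9) 
(.lf (nat_lit 509099) (.g (nat_lit 330) (.e (nat_lit 172082) (nat_lit 7) (.e (nat_lit 409646) (nat_lit 18) (.e (nat_lit 303112) (nat_lit 0) .nil))) (.g (nat_lit 0) (.e (nat_lit 191086) (nat_lit 0) .nil) .nil))) 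
(.lf (nat_lit 509611) (.g (nat_lit 3620) (.e (nat_lit 172106) (nat_lit 10) (.e (nat_lit 434289) (nat_lit 43) (.e (nat_lit 696344) (nat_lit 8) (.e (nat_lit 172113) (nat_lit 10) (.e (nat_lit 434289) (nat_lit 43) (.e (nat_lit 696343) (nat_lit 8) .nil)))))) (.g (nat_lit 1) (.e (nat_lit 192970) (nat_lit 0) .nil) .nil)))) (.nd (nat_lit 9) 
(.lf (nat_lit 509355) (.g (nat_lit 5518) (.e (nat_lit 172097) (nat_lit 9) (.e (nat_lit 426140) (nat_lit 3) (.e (nat_lit 204845) (nat_lit 24) (.e (nat_lit 319531) (nat_lit 16) (.e (nat_lit 286733) (nat_lit 2) (.e (nat_lit 90170) (nat_lit 13) .nil)))))) (.g (nat_lit 1) (.e (nat_lit 192265) (nat_lit 0) .nil) .nil))) 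
(.lf (nat_lit 509867) (.g (nat_lit 2683) (.e (nat_lit 172113) (nat_lit 10) (.e (nat_lit 434245) (nat_lit 28) (.e (nat_lit 573471) (nat_lit 11) (.e (nat_lit 16433) (nat_lit 9) (.e (nat_lit 426363) (nat_lit 15) .nil))))) (.g (nat_lit 0) (.e (nat_lit 193467) (nat_lit 0) .nil) .nil)))))) (.nd (nat_lit 7) (.nd (nat_lit 8) (.nd (nat_lit 9) 
(.lf (nat_lit 509035) (.g (nat_lit 1909) (.e (nat_lit 172080) (nat_lit 7) (.e (nat_lit 409642) (nat_lit 17) (.e (nat_lit 294974) (nat_lit 29) (.e (nat_lit 442395) (nat_lit 20) (.e (nat_lit 3402) (nat_lit 211) (.e (nat_lit 647183) (nat_lit 4) .nil)))))) (.g (nat_lit 1) (.e (nat_lit 190914) (nat_lit 0) .nil) .nil))) 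
(.lf (nat_lit 509547) (.g (nat_lit 3588) (.e (nat_lit 172106) (nat_lit 10) (.e (nat_lit 434244) (nat_lit 28) (.e (nat_lit 573477) (nat_lit 12) (.e (nat_lit 57575) (nat_lit 55) (.e (nat_lit 778466) (nat_lit 11) (.e (nat_lit 24604) (nat_lit 2) (.e (nat_lit 90170) (nat_lit 13) .nil))))))) (.g (nat_lit 1) (.e (nat_lit 192767) (nat_lit 0) .nil) .nil)))) (.nd (nat_lit 9) 
(.lf (nat_lit 509291) (.g (nat_lit 869) (.e (nat_lit 172099) (nat_lit 9) (.e (nat_lit 426125) (nat_lit 2) (.e (nat_lit 196666) (nat_lit 13) .nil))) (.g (nat_lit 0) (.e (nat_lit 192074) (nat_lit 0) .nil) .nil))) 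
(.lf (nat_lit 509803) (.g (nat_lit 1909) (.e (nat_lit 172113) (nat_lit 10) (.e (nat_lit 434242) (nat_lit 28) (.e (nat_lit 573471) (nat_lit 11) (.e (nat_lit 16389) (nat_lit 0) .nil)))) (.g (nat_lit 0) (.e (nat_lit 193352) (nat_lit 0) .nil) .nil))))) (.nd (nat_lit 8) (.nd (nat_lit 9) 
(.lf (nat_lit 509163) (.g (nat_lit 1633) (.e (nat_lit 172082) (nat_lit 7) (.e (nat_lit 409646) (nat_lit 18) (.e (nat_lit 311040) (nat_lit 35) (.e (nat_lit 401454) (nat_lit 12) (.e (nat_lit 475205) (nat_lit 40) (.e (nat_lit 712448) (nat_lit 4) .nil)))))) (.g (nat_lit 1) (.e (nat_lit 191730) (nat_lit 0) .nil) .nil))) 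
(.lf (nat_lit 509675) (.g (nat_lit 2740) (.e (nat_lit 172111) (nat_lit 10) (.e (nat_lit 434248) (nat_lit 28) (.e (nat_lit 573475) (nat_lit 12) (.e (nat_lit 57574) (nat_lit 55) (.e (nat_lit 778466) (nat_lit 11) (.e (nat_lit 24604) (nat_lit 2) (.e (nat_lit 90169) (nat_lit 13) .nil))))))) (.g (nat_lit 1) (.e (nat_lit 193073) (nat_lit 0) .nil) .nil)))) (.nd (nat_lit 9) 
(.lf (nat_lit 509419) (.g (nat_lit 2553) (.e (nat_lit 172105) (nat_lit 10) (.e (nat_lit 434248) (nat_lit 28) (.e (nat_lit 573471) (nat_lit 11) (.e (nat_lit 16470) (nat_lit 14) (.e (nat_lit 491537) (nat_lit 2) .nil))))) (.g (nat_lit 0) (.e (nat_lit 192356) (nat_lit 0) .nil) .nil))) 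
(.lf (nat_lit 509931) (.g (nat_lit 2341) (.e (nat_lit 172113) (nat_lit 10) (.e (nat_lit 434248) (nat_lit 28) (.e (nat_lit 573469) (nat_lit 11) (.e (nat_lit 16473) (nat_lit 14) (.e (nat_lit 499456) (nat_lit 2) (.e (nat_lit 90170) (nat_lit 13) .nil)))))) (.g (nat_lit 1) (.e (nat_lit 193547) (nat_lit 0) .nil) .nil)))))))) 
(.nd (nat_lit 5) (.nd (nat_lit 6) (.nd (nat_lit 7) (.nd (nat_lit 8) (.nd (nat_lit 9) 
(.lf (nat_lit 508955) (.g (nat_lit 3168) (.e (nat_lit 172079) (nat_lit 7) (.e (nat_lit 409645) (nat_lit 18) (.e (nat_lit 303139) (nat_lit 10) (.e (nat_lit 434275) (nat_lit 39) (.e (nat_lit 663574) (nat_lit 9) (.e (nat_lit 2467) (nat_lit 157) (.e (nat_lit 3469) (nat_lit 217) (.e (nat_lit 696344) (nat_lit 8) .nil)))))))) (.g (nat_lit 1) (.e (nat_lit 190583) (nat_lit 0) .nil) .nil))) 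
(.lf (nat_lit 509467) (.g (nat_lit 427) (.e (nat_lit 172106) (nat_lit 10) (.e (nat_lit 434231) (nat_lit 23) (.e (nat_lit 532499) (nat_lit 1) .nil))) (.g (nat_lit 0) (.e (nat_lit 192506) (nat_lit 0) .nil) .nil)))) (.nd (nat_lit 9) 
(.lf (nat_lit 509211) (.g (nat_lit 2272) (.e (nat_lit 172085) (nat_lit 9) (.e (nat_lit 426482) (nat_lit 27) (.e (nat_lit 336060) (nat_lit 7) (.e (nat_lit 319534) (nat_lit 16) (.e (nat_lit 286723) (nat_lit 0) (.e (nat_lit 2270) (nat_lit 149) (.e (nat_lit 761905) (nat_lit 16) .nil))))))) (.g (nat_lit 1) (.e (nat_lit 191917) (nat_lit 0) .nil) .nil))) 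
(.lf (nat_lit 509723) (.g (nat_lit 2963) (.e (nat_lit 172112) (nat_lit 10) (.e (nat_lit 434289) (nat_lit 43) (.e (nat_lit 696344) (nat_lit 8) (.e (nat_lit 172112) (nat_lit 10) (.e (nat_lit 434289) (nat_lit 43) (.e (nat_lit 696343) (nat_lit 8) .nil)))))) (.g (nat_lit 1) (.e (nat_lit 193184) (nat_lit 0) .nil) .nil))))) (.nd (nat_lit 8) (.nd (nat_lit 9) 
(.lf (nat_lit 509083) (.g (nat_lit 1949) (.e (nat_lit 172082) (nat_lit 7) (.e (nat_lit 409616) (nat_lit 10) (.e (nat_lit 632) (nat_lit 50) (.e (nat_lit 573485) (nat_lit 13) (.e (nat_lit 65619) (nat_lit 10) .nil))))) (.g (nat_lit 0) (.e (nat_lit 191040) (nat_lit 0) .nil) .nil))) 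
(.lf (nat_lit 509595) (.g (nat_lit 2616) (.e (nat_lit 172106) (nat_lit 10) (.e (nat_lit 434288) (nat_lit 43) (.e (nat_lit 696344) (nat_lit 8) (.e (nat_lit 172115) (nat_lit 10) (.e (nat_lit 434289) (nat_lit 43) (.e (nat_lit 696343) (nat_lit 8) .nil)))))) (.g (nat_lit 1) (.e (nat_lit 192931) (nat_lit 0) .nil) .nil)))) (.nd (nat_lit 9) 
(.lf (nat_lit 509339) (.g (nat_lit 778) (.e (nat_lit 172097) (nat_lit 9) (.e (nat_lit 426140) (nat_lit 3) (.e (nat_lit 204816) (nat_lit 17) .nil))) (.g (nat_lit 0) (.e (nat_lit 192246) (nat_lit 0) .nil) .nil))) 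
(.lf (nat_lit 509851) (.g (nat_lit 4410) (.e (nat_lit 172113) (nat_lit 10) (.e (nat_lit 434245) (nat_lit 28) (.e (nat_lit 573458) (nat_lit 9) (.e (nat_lit 426) (nat_lit 32) (.e (nat_lit 426313) (nat_lit 12) (.e (nat_lit 475185) (nat_lit 29) (.e (nat_lit 557100) (nat_lit 13) .nil))))))) (.g (nat_lit 1) (.e (nat_lit 193420) (nat_lit 0) .nil) .nil)))))) 
(.nd (nat_lit 7) (.nd (nat_lit 8) (.nd (nat_lit 9) 
(.lf (nat_lit 509019) (.g (nat_lit 979) (.e (nat_lit 172080) (nat_lit 7) (.e (nat_lit 409638) (nat_lit 15) (.e (nat_lit 278566) (nat_lit 16) (.e (nat_lit 286754) (nat_lit 10) (.e (nat_lit 344154) (nat_lit 35) (.e (nat_lit 630802) (nat_lit 8) .nil)))))) (.g (nat_lit 1) (.e (nat_lit 190879) (nat_lit 0) .nil) .nil))) 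
(.lf (nat_lit 509531) (.g (nat_lit 2236) (.e (nat_lit 172106) (nat_lit 10) (.e (nat_lit 434244) (nat_lit 28) (.e (nat_lit 573471) (nat_lit 11) (.e (nat_lit 16385) (nat_lit 0) (.e (nat_lit 7936) (nat_lit 402) .nil))))) (.g (nat_lit 0) (.e (nat_lit 192720) (nat_lit 0) .nil) .nil)))) (.nd (nat_lit 9) 
(.lf (nat_lit 509275) (.g (nat_lit 2869) (.e (nat_lit 172094) (nat_lit 9) (.e (nat_lit 426140) (nat_lit 3) (.e (nat_lit 204846) (nat_lit 24) (.e (nat_lit 319534) (nat_lit 16) (.e (nat_lit 286732) (nat_lit 2) (.e (nat_lit 90170) (nat_lit 13) .nil)))))) (.g (nat_lit 1) (.e (nat_lit 192038) (nat_lit 0) .nil) .nil))) 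
(.lf (nat_lit 509787) (.g (nat_lit 1412) (.e (nat_lit 172113) (nat_lit 10) (.e (nat_lit 434231) (nat_lit 23) (.e (nat_lit 532525) (nat_lit 8) (.e (nat_lit 327705) (nat_lit 10) .nil)))) (.g (nat_lit 0) (.e (nat_lit 193326) (nat_lit 0) .nil) .nil))))) (.nd (nat_lit 8) (.nd (nat_lit 9) 
(.lf (nat_lit 509147) (.g (nat_lit 2470) (.e (nat_lit 172082) (nat_lit 7) (.e (nat_lit 409646) (nat_lit 18) (.e (nat_lit 303143) (nat_lit 12) (.e (nat_lit 475212) (nat_lit 42) (.e (nat_lit 720921) (nat_lit 20) .nil))))) (.g (nat_lit 0) (.e (nat_lit 191649) (nat_lit 0) .nil) .nil))) 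
(.lf (nat_lit 509659) (.g (nat_lit 2134) (.e (nat_lit 172110) (nat_lit 10) (.e (nat_lit 434248) (nat_lit 28) (.e (nat_lit 573471) (nat_lit 11) (.e (nat_lit 16472) (nat_lit 14) .nil)))) (.g (nat_lit 0) (.e (nat_lit 193055) (nat_lit 0) .nil) .nil)))) (.nd (nat_lit 9) 
(.lf (nat_lit 509403) (.g (nat_lit 2043) (.e (nat_lit 172105) (nat_lit 10) (.e (nat_lit 434247) (nat_lit 28) (.e (nat_lit 573478) (nat_lit 12) (.e (nat_lit 57574) (nat_lit 55) (.e (nat_lit 778466) (nat_lit 11) (.e (nat_lit 24603) (nat_lit 2) (.e (nat_lit 90166) (nat_lit 13) .nil))))))) (.g (nat_lit 1) (.e (nat_lit 192340) (nat_lit 0) .nil) .nil))) 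
(.lf (nat_lit 509915) (.g (nat_lit 2615) (.e (nat_lit 172113) (nat_lit 10) (.e (nat_lit 434247) (nat_lit 28) (.e (nat_lit 573478) (nat_lit 12) (.e (nat_lit 57574) (nat_lit 55) (.e (nat_lit 778466) (nat_lit 11) (.e (nat_lit 24603) (nat_lit 2) (.e (nat_lit 90169) (nat_lit 13) .nil))))))) (.g (nat_lit 1) (.e (nat_lit 193525) (nat_lit 0) .nil) .nil))))))) 
(.nd (nat_lit 6) (.nd (nat_lit 7) (.nd (nat_lit 8) (.nd (nat_lit 9) 
(.lf (nat_lit 508987) (.g (nat_lit 2551) (.e (nat_lit 172079) (nat_lit 7) (.e (nat_lit 409645) (nat_lit 18) (.e (nat_lit 303146) (nat_lit 14) (.e (nat_lit 491560) (nat_lit 10) (.e (nat_lit 344154) (nat_lit 35) (.e (nat_lit 630802) (nat_lit 8) .nil)))))) (.g (nat_lit 1) (.e (nat_lit 190783) (nat_lit 0) .nil) .nil))) 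
(.lf (nat_lit 509499) (.g (nat_lit 4606) (.e (nat_lit 172106) (nat_lit 10) (.e (nat_lit 434231) (nat_lit 23) (.e (nat_lit 532535) (nat_lit 9) (.e (nat_lit 336295) (nat_lit 15) (.e (nat_lit 3632) (nat_lit 227) (.e (nat_lit 778317) (nat_lit 3) (.e (nat_lit 57477) (nat_lit 28) (.e (nat_lit 557099) (nat_lit 13) .nil)))))))) (.g (nat_lit 1) (.e (nat_lit 192545) (nat_lit 0) .nil) .nil)))) 
(.nd (nat_lit 9) 
(.lf (nat_lit 509243) (.g (nat_lit 2369) (.e (nat_lit 172093) (nat_lit 9) (.e (nat_lit 426140) (nat_lit 3) (.e (nat_lit 204845) (nat_lit 24) (.e (nat_lit 319529) (nat_lit 16) (.e (nat_lit 286733) (nat_lit 2) .nil))))) (.g (nat_lit 0) (.e (nat_lit 191972) (nat_lit 0) .nil) .nil))) 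
(.lf (nat_lit 509755) (.g (nat_lit 2546) (.e (nat_lit 172113) (nat_lit 10) (.e (nat_lit 434231) (nat_lit 23) (.e (nat_lit 532482) (nat_lit 0) (.e (nat_lit 6221) (nat_lit 333) (.e (nat_lit 57876) (nat_lit 270) .nil))))) (.g (nat_lit 0) (.e (nat_lit 193293) (nat_lit 0) .nil) .nil))))) (.nd (nat_lit 8) (.nd (nat_lit 9) 
(.lf (nat_lit 509115) (.g (nat_lit 976) (.e (nat_lit 172082) (nat_lit 7) (.e (nat_lit 409646) (nat_lit 18) (.e (nat_lit 303137) (nat_lit 10) .nil))) (.g (nat_lit 0) (.e (nat_lit 191405) (nat_lit 0) .nil) .nil))) 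
(.lf (nat_lit 509627) (.g (nat_lit 1676) (.e (nat_lit 172107) (nat_lit 10) (.e (nat_lit 434266) (nat_lit 35) (.e (nat_lit 630821) (nat_lit 16) (.e (nat_lit 65620) (nat_lit 10) (.e (nat_lit 344156) (nat_lit 36) (.e (nat_lit 638998) (nat_lit 8) .nil)))))) (.g (nat_lit 1) (.e (nat_lit 193001) (nat_lit 0) .nil) .nil)))) (.nd (nat_lit 9) 
(.lf (nat_lit 509371) (.g (nat_lit 4070) (.e (nat_lit 172097) (nat_lit 9) (.e (nat_lit 426140) (nat_lit 3) (.e (nat_lit 204883) (nat_lit 33) (.e (nat_lit 401453) (nat_lit 12) (.e (nat_lit 475183) (nat_lit 29) (.e (nat_lit 557098) (nat_lit 13) .nil)))))) (.g (nat_lit 1) (.e (nat_lit 192282) (nat_lit 0) .nil) .nil))) 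
(.lf (nat_lit 509883) (.g (nat_lit 3074) (.e (nat_lit 172113) (nat_lit 10) (.e (nat_lit 434245) (nat_lit 28) (.e (nat_lit 573471) (nat_lit 11) (.e (nat_lit 16455) (nat_lit 12) (.e (nat_lit 475185) (nat_lit 29) (.e (nat_lit 557100) (nat_lit 13) .nil)))))) (.g (nat_lit 1) (.e (nat_lit 193486) (nat_lit 0) .nil) .nil)))))) (.nd (nat_lit 7) (.nd (nat_lit 8) (.nd (nat_lit 9) 
(.lf (nat_lit 509051) (.g (nat_lit 267) (.e (nat_lit 172081) (nat_lit 7) (.e (nat_lit 409638) (nat_lit 15) (.e (nat_lit 278567) (nat_lit 16) (.e (nat_lit 286755) (nat_lit 10) .nil)))) (.g (nat_lit 0) (.e (nat_lit 190951) (nat_lit 0) .nil) .nil))) 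
(.lf (nat_lit 509563) (.g (nat_lit 1951) (.e (nat_lit 172106) (nat_lit 10) (.e (nat_lit 434266) (nat_lit 35) (.e (nat_lit 630821) (nat_lit 16) (.e (nat_lit 65620) (nat_lit 10) (.e (nat_lit 344156) (nat_lit 36) (.e (nat_lit 638998) (nat_lit 8) .nil)))))) (.g (nat_lit 1) (.e (nat_lit 192788) (nat_lit 0) .nil) .nil)))) (.nd (nat_lit 9) 
(.lf (nat_lit 509307) (.g (nat_lit 1770) (.e (nat_lit 172096) (nat_lit 9) (.e (nat_lit 426140) (nat_lit 3) (.e (nat_lit 204846) (nat_lit 24) (.e (nat_lit 319528) (nat_lit 16) .nil)))) (.g (nat_lit 0) (.e (nat_lit 192096) (nat_lit 0) .nil) .nil))) 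
(.lf (nat_lit 509819) (.g (nat_lit 2139) (.e (nat_lit 172113) (nat_lit 10) (.e (nat_lit 434242) (nat_lit 28) (.e (nat_lit 573474) (nat_lit 12) (.e (nat_lit 57570) (nat_lit 54) .nil)))) (.g (nat_lit 0) (.e (nat_lit 193372) (nat_lit 0) .nil) .nil))))) (.nd (nat_lit 8) (.nd (nat_lit 9) 
(.lf (nat_lit 509179) (.g (nat_lit 2236) (.e (nat_lit 172082) (nat_lit 7) (.e (nat_lit 409649) (nat_lit 18) (.e (nat_lit 303140) (nat_lit 10) (.e (nat_lit 434275) (nat_lit 39) (.e (nat_lit 663578) (nat_lit 9) .nil))))) (.g (nat_lit 0) (.e (nat_lit 191795) (nat_lit 0) .nil) .nil))) 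
(.lf (nat_lit 509691) (.g (nat_lit 3893) (.e (nat_lit 172112) (nat_lit 10) (.e (nat_lit 434248) (nat_lit 28) (.e (nat_lit 573471) (nat_lit 11) (.e (nat_lit 16433) (nat_lit 9) (.e (nat_lit 426364) (nat_lit 15) .nil))))) (.g (nat_lit 0) (.e (nat_lit 193114) (nat_lit 0) .nil) .nil)))) (.nd (nat_lit 9) 
(.lf (nat_lit 509435) (.g (nat_lit 480) (.e (nat_lit 172105) (nat_lit 10) (.e (nat_lit 434272) (nat_lit 38) (.e (nat_lit 655380) (nat_lit 6) .nil))) (.g (nat_lit 0) (.e (nat_lit 192376) (nat_lit 0) .nil) .nil))) 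
(.lf (nat_lit 509947) (.g (nat_lit 3766) (.e (nat_lit 172113) (nat_lit 10) (.e (nat_lit 434248) (nat_lit 28) (.e (nat_lit 573471) (nat_lit 11) (.e (nat_lit 16433) (nat_lit 9) (.e (nat_lit 426395) (nat_lit 15) .nil))))) (.g (nat_lit 0) (.e (nat_lit 193564) (nat_lit 0) .nil) .nil)))))))))) 
(.nd (nat_lit 3) (.nd (nat_lit 4) (.nd (nat_lit 5) (.nd (nat_lit 6) (.nd (nat_lit 7) 
(.nd (nat_lit 8) (.nd (nat_lit 9) 
(.lf (nat_lit 508935) (.g (nat_lit 346) (.e (nat_lit 172079) (nat_lit 7) (.e (nat_lit 409645) (nat_lit 18) (.e (nat_lit 303123) (nat_lit 7) .nil))) (.g (nat_lit 0) (.e (nat_lit 190391) (nat_lit 0) .nil) .nil))) 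
(.lf (nat_lit 509447) (.g (nat_lit 3029) (.e (nat_lit 172106) (nat_lit 10) (.e (nat_lit 434202) (nat_lit 18) (.e (nat_lit 6421) (nat_lit 341) (.e (nat_lit 163923) (nat_lit 15) (.e (nat_lit 450601) (nat_lit 21) (.e (nat_lit 696344) (nat_lit 8) .nil)))))) (.g (nat_lit 1) (.e (nat_lit 192411) (nat_lit 0) .nil) .nil)))) (.nd (nat_lit 9) 
(.lf (nat_lit 509191) (.g (nat_lit 2367) (.e (nat_lit 172082) (nat_lit 7) (.e (nat_lit 409649) (nat_lit 18) (.e (nat_lit 311040) (nat_lit 35) (.e (nat_lit 401454) (nat_lit 12) (.e (nat_lit 475198) (nat_lit 40) (.e (nat_lit 704593) (nat_lit 4) .nil)))))) (.g (nat_lit 1) (.e (nat_lit 191890) (nat_lit 0) .nil) .nil))) 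
(.lf (nat_lit 509703) (.g (nat_lit 863) (.e (nat_lit 172112) (nat_lit 10) (.e (nat_lit 434268) (nat_lit 36) (.e (nat_lit 639020) (nat_lit 16) (.e (nat_lit 65611) (nat_lit 10) .nil)))) (.g (nat_lit 0) (.e (nat_lit 193130) (nat_lit 0) .nil) .nil))))) (.nd (nat_lit 8) (.nd (nat_lit 9) 
(.lf (nat_lit 509063) (.g (nat_lit 1892) (.e (nat_lit 172081) (nat_lit 7) (.e (nat_lit 409648) (nat_lit 18) (.e (nat_lit 303137) (nat_lit 10) (.e (nat_lit 434275) (nat_lit 39) (.e (nat_lit 663579) (nat_lit 9) .nil))))) (.g (nat_lit 0) (.e (nat_lit 190970) (nat_lit 0) .nil) .nil))) 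
(.lf (nat_lit 509575) (.g (nat_lit 1425) (.e (nat_lit 172106) (nat_lit 10) (.e (nat_lit 434275) (nat_lit 39) (.e (nat_lit 663580) (nat_lit 9) (.e (nat_lit 7936) (nat_lit 24) .nil)))) (.g (nat_lit 0) (.e (nat_lit 192813) (nat_lit 0) .nil) .nil)))) (.nd (nat_lit 9) 
(.lf (nat_lit 509319) (.g (nat_lit 399) (.e (nat_lit 172097) (nat_lit 9) (.e (nat_lit 426025) (nat_lit 0) (.e (nat_lit 3399) (nat_lit 211) .nil))) (.g (nat_lit 0) (.e (nat_lit 192117) (nat_lit 0) .nil) .nil))) 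
(.lf (nat_lit 509831) (.g (nat_lit 1856) (.e (nat_lit 172113) (nat_lit 10) (.e (nat_lit 434244) (nat_lit 28) (.e (nat_lit 573450) (nat_lit 9) (.e (nat_lit 375) (nat_lit 32) (.e (nat_lit 426025) (nat_lit 0) .nil))))) (.g (nat_lit 0) (.e (nat_lit 193385) (nat_lit 0) .nil) .nil)))))) (.nd (nat_lit 7) (.nd (nat_lit 8) (.nd (nat_lit 9) 
(.lf (nat_lit 508999) (.g (nat_lit 1868) (.e (nat_lit 172079) (nat_lit 7) (.e (nat_lit 409646) (nat_lit 18) (.e (nat_lit 303140) (nat_lit 10) (.e (nat_lit 434275) (nat_lit 39) .nil)))) (.g (nat_lit 0) (.e (nat_lit 190832) (nat_lit 0) .nil) .nil))) 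
(.lf (nat_lit 509511) (.g (nat_lit 2469) (.e (nat_lit 172106) (nat_lit 10) (.e (nat_lit 434236) (nat_lit 25) (.e (nat_lit 548913) (nat_lit 18) (.e (nat_lit 172120) (nat_lit 12) .nil)))) (.g (nat_lit 0) (.e (nat_lit 192679) (nat_lit 0) .nil) .nil)))) (.nd (nat_lit 9) 
(.lf (nat_lit 509255) (.g (nat_lit 405) (.e (nat_lit 172094) (nat_lit 9) (.e (nat_lit 426125) (nat_lit 2) (.e (nat_lit 196661) (nat_lit 12) .nil))) (.g (nat_lit 0) (.e (nat_lit 192004) (nat_lit 0) .nil) .nil))) 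
(.lf (nat_lit 509767) (.g (nat_lit 3458) (.e (nat_lit 172113) (nat_lit 10) (.e (nat_lit 434231) (nat_lit 23) (.e (nat_lit 532523) (nat_lit 7) (.e (nat_lit 319499) (nat_lit 10) .nil)))) (.g (nat_lit 0) (.e (nat_lit 193306) (nat_lit 0) .nil) .nil))))) (.nd (nat_lit 8) (.nd (nat_lit 9) 
(.lf (nat_lit 509127) (.g (nat_lit 1927) (.e (nat_lit 172082) (nat_lit 7) (.e (nat_lit 409646) (nat_lit 18) (.e (nat_lit 303140) (nat_lit 10) (.e (nat_lit 434209) (nat_lit 18) (.e (nat_lit 5224) (nat_lit 296) .nil))))) (.g (nat_lit 0) (.e (nat_lit 191428) (nat_lit 0) .nil) .nil))) 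
(.lf (nat_lit 509639) (.g (nat_lit 390) (.e (nat_lit 172107) (nat_lit 10) (.e (nat_lit 434272) (nat_lit 38) (.e (nat_lit 655380) (nat_lit 6) .nil))) (.g (nat_lit 0) (.e (nat_lit 193026) (nat_lit 0) .nil) .nil)))) (.nd (nat_lit 9) 
(.lf (nat_lit 509383) (.g (nat_lit 3903) (.e (nat_lit 172103) (nat_lit 9) (.e (nat_lit 426139) (nat_lit 3) (.e (nat_lit 204846) (nat_lit 24) (.e (nat_lit 319534) (nat_lit 16) (.e (nat_lit 286733) (nat_lit 2) (.e (nat_lit 90169) (nat_lit 13) .nil)))))) (.g (nat_lit 1) (.e (nat_lit 192307) (nat_lit 0) .nil) .nil))) 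
(.lf (nat_lit 509895) (.g (nat_lit 2998) (.e (nat_lit 172113) (nat_lit 10) (.e (nat_lit 434245) (nat_lit 28) (.e (nat_lit 573474) (nat_lit 12) (.e (nat_lit 57574) (nat_lit 55) (.e (nat_lit 778465) (nat_lit 11) (.e (nat_lit 24603) (nat_lit 2) (.e (nat_lit 90166) (nat_lit 13) .nil))))))) (.g (nat_lit 1) (.e (nat_lit 193499) (nat_lit 0) .nil) .nil))))))) 
(.nd (nat_lit 6) (.nd (nat_lit 7) (.nd (nat_lit 8) (.nd (nat_lit 9) 
(.lf (nat_lit 508967) (.g (nat_lit 3526) (.e (nat_lit 172079) (nat_lit 7) (.e (nat_lit 409645) (nat_lit 18) (.e (nat_lit 303143) (nat_lit 12) (.e (nat_lit 475199) (nat_lit 40) (.e (nat_lit 704617) (nat_lit 9) .nil))))) (.g (nat_lit 0) (.e (nat_lit 190697) (nat_lit 0) .nil) .nil))) 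
(.lf (nat_lit 509479) (.g (nat_lit 2441) (.e (nat_lit 172106) (nat_lit 10) (.e (nat_lit 434231) (nat_lit 23) (.e (nat_lit 532522) (nat_lit 7) (.e (nat_lit 319531) (nat_lit 16) (.e (nat_lit 286733) (nat_lit 2) (.e (nat_lit 90167) (nat_lit 13) .nil)))))) (.g (nat_lit 1) (.e (nat_lit 192518) (nat_lit 0) .nil) .nil)))) (.nd (nat_lit 9) 
(.lf (nat_lit 509223) (.g (nat_lit 1406) (.e (nat_lit 172088) (nat_lit 9) (.e (nat_lit 426499) (nat_lit 27) (.e (nat_lit 336231) (nat_lit 14) (.e (nat_lit 401446) (nat_lit 10) .nil)))) (.g (nat_lit 0) (.e (nat_lit 191946) (nat_lit 0) .nil) .nil))) 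
(.lf (nat_lit 509735) (.g (nat_lit 2231) (.e (nat_lit 172113) (nat_lit 10) (.e (nat_lit 434208) (nat_lit 18) (.e (nat_lit 6252) (nat_lit 337) (.e (nat_lit 2651) (nat_lit 166) (.e (nat_lit 188440) (nat_lit 20) .nil))))) (.g (nat_lit 0) (.e (nat_lit 193229) (nat_lit 0) .nil) .nil))))) (.nd (nat_lit 8) (.nd (nat_lit 9) 
(.lf (nat_lit 509095) (.g (nat_lit 957) (.e (nat_lit 172082) (nat_lit 7) (.e (nat_lit 409639) (nat_lit 15) (.e (nat_lit 278566) (nat_lit 16) (.e (nat_lit 286754) (nat_lit 10) (.e (nat_lit 344157) (nat_lit 36) (.e (nat_lit 638999) (nat_lit 8) .nil)))))) (.g (nat_lit 1) (.e (nat_lit 191070) (nat_lit 0) .nil) .nil))) 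
(.lf (nat_lit 509607) (.g (nat_lit 3326) (.e (nat_lit 172106) (nat_lit 10) (.e (nat_lit 434289) (nat_lit 43) (.e (nat_lit 696344) (nat_lit 8) (.e (nat_lit 172112) (nat_lit 10) (.e (nat_lit 434289) (nat_lit 43) (.e (nat_lit 696343) (nat_lit 8) .nil)))))) (.g (nat_lit 1) (.e (nat_lit 192965) (nat_lit 0) .nil) .nil)))) (.nd (nat_lit 9) 
(.lf (nat_lit 509351) (.g (nat_lit 2314) (.e (nat_lit 172097) (nat_lit 9) (.e (nat_lit 426140) (nat_lit 3) (.e (nat_lit 204845) (nat_lit 24) (.e (nat_lit 319531) (nat_lit 16) (.e (nat_lit 286727) (nat_lit 0) .nil))))) (.g (nat_lit 0) (.e (nat_lit 192261) (nat_lit 0) .nil) .nil))) 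
(.lf (nat_lit 509863) (.g (nat_lit 782) (.e (nat_lit 172113) (nat_lit 10) (.e (nat_lit 434245) (nat_lit 28) (.e (nat_lit 573471) (nat_lit 11) (.e (nat_lit 16433) (nat_lit 9) .nil)))) (.g (nat_lit 0) (.e (nat_lit 193463) (nat_lit 0) .nil) .nil)))))) (.nd (nat_lit 7) (.nd (nat_lit 8) (.nd (nat_lit 9) 
(.lf (nat_lit 509031) (.g (nat_lit 1571) (.e (nat_lit 172080) (nat_lit 7) (.e (nat_lit 409645) (nat_lit 18) (.e (nat_lit 303143) (nat_lit 12) (.e (nat_lit 475199) (nat_lit 40) .nil)))) (.g (nat_lit 0) (.e (nat_lit 190897) (nat_lit 0) .nil) .nil))) 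
(.lf (nat_lit 509543) (.g (nat_lit 925) (.e (nat_lit 172106) (nat_lit 10) (.e (nat_lit 434244) (nat_lit 28) (.e (nat_lit 573473) (nat_lit 12) (.e (nat_lit 65280) (nat_lit 57) .nil)))) (.g (nat_lit 0) (.e (nat_lit 192762) (nat_lit 0) .nil) .nil)))) (.nd (nat_lit 9) 
(.lf (nat_lit 509287) (.g (nat_lit 3598) (.e (nat_lit 172095) (nat_lit 9) (.e (nat_lit 426140) (nat_lit 3) (.e (nat_lit 204846) (nat_lit 24) (.e (nat_lit 319533) (nat_lit 16) (.e (nat_lit 286732) (nat_lit 2) (.e (nat_lit 90170) (nat_lit 13) .nil)))))) (.g (nat_lit 1) (.e (nat_lit 192067) (nat_lit 0) .nil) .nil))) 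
(.lf (nat_lit 509799) (.g (nat_lit 2099) (.e (nat_lit 172113) (nat_lit 10) (.e (nat_lit 434234) (nat_lit 23) (.e (nat_lit 532523) (nat_lit 7) (.e (nat_lit 319535) (nat_lit 17) (.e (nat_lit 294927) (nat_lit 2) (.e (nat_lit 90170) (nat_lit 13) .nil)))))) (.g (nat_lit 1) (.e (nat_lit 193342) (nat_lit 0) .nil) .nil))))) (.nd (nat_lit 8) (.nd (nat_lit 9) 
(.lf (nat_lit 509159) (.g (nat_lit 2582) (.e (nat_lit 172082) (nat_lit 7) (.e (nat_lit 409646) (nat_lit 18) (.e (nat_lit 311040) (nat_lit 35) (.e (nat_lit 401454) (nat_lit 12) (.e (nat_lit 475198) (nat_lit 40) (.e (nat_lit 712448) (nat_lit 4) .nil)))))) (.g (nat_lit 1) (.e (nat_lit 191726) (nat_lit 0) .nil) .nil))) 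
(.lf (nat_lit 509671) (.g (nat_lit 824) (.e (nat_lit 172111) (nat_lit 10) (.e (nat_lit 434248) (nat_lit 28) (.e (nat_lit 573470) (nat_lit 11) .nil))) (.g (nat_lit 0) (.e (nat_lit 193069) (nat_lit 0) .nil) .nil)))) (.nd (nat_lit 9) 
(.lf (nat_lit 509415) (.g (nat_lit 1587) (.e (nat_lit 172105) (nat_lit 10) (.e (nat_lit 434248) (nat_lit 28) (.e (nat_lit 573471) (nat_lit 11) (.e (nat_lit 16435) (nat_lit 9) .nil)))) (.g (nat_lit 0) (.e (nat_lit 192352) (nat_lit 0) .nil) .nil))) 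
(.lf (nat_lit 509927) (.g (nat_lit 869) (.e (nat_lit 172113) (nat_lit 10) (.e (nat_lit 434248) (nat_lit 28) (.e (nat_lit 573454) (nat_lit 9) .nil))) (.g (nat_lit 0) (.e (nat_lit 193539) (nat_lit 0) .nil) .nil)))))))) (.nd (nat_lit 5) (.nd (nat_lit 6) (.nd (nat_lit 7) (.nd (nat_lit 8) (.nd (nat_lit 9) 
(.lf (nat_lit 508951) (.g (nat_lit 3021) (.e (nat_lit 172079) (nat_lit 7) (.e (nat_lit 409645) (nat_lit 18) (.e (nat_lit 303137) (nat_lit 10) (.e (nat_lit 434275) (nat_lit 39) (.e (nat_lit 663580) (nat_lit 9) (.e (nat_lit 2478) (nat_lit 157) (.e (nat_lit 3464) (nat_lit 217) (.e (nat_lit 696343) (nat_lit 8) .nil)))))))) (.g (nat_lit 1) (.e (nat_lit 190569) (nat_lit 0) .nil) .nil))) 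
(.lf (nat_lit 509463) (.g (nat_lit 1903) (.e (nat_lit 172106) (nat_lit 10) (.e (nat_lit 434231) (nat_lit 23) (.e (nat_lit 532490) (nat_lit 0) (.e (nat_lit 6114) (nat_lit 332) (.e (nat_lit 968) (nat_lit 81) .nil))))) (.g (nat_lit 0) (.e (nat_lit 192501) (nat_lit 0) .nil) .nil)))) (.nd (nat_lit 9) 
(.lf (nat_lit 509207) (.g (nat_lit 2814) (.e (nat_lit 172085) (nat_lit 9) (.e (nat_lit 426140) (nat_lit 3) (.e (nat_lit 204846) (nat_lit 24) (.e (nat_lit 319534) (nat_lit 16) (.e (nat_lit 286732) (nat_lit 2) (.e (nat_lit 90170) (nat_lit 13) .nil)))))) (.g (nat_lit 1) (.e (nat_lit 191911) (nat_lit 0) .nil) .nil))) 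
(.lf (nat_lit 509719) (.g (nat_lit 2087) (.e (nat_lit 172112) (nat_lit 10) (.e (nat_lit 434289) (nat_lit 43) (.e (nat_lit 696343) (nat_lit 8) (.e (nat_lit 172113) (nat_lit 10) (.e (nat_lit 434287) (nat_lit 43) (.e (nat_lit 696344) (nat_lit 8) .nil)))))) (.g (nat_lit 1) (.e (nat_lit 193178) (nat_lit 0) .nil) .nil))))) (.nd (nat_lit 8) (.nd (nat_lit 9) 
(.lf (nat_lit 509079) (.g (nat_lit 2259) (.e (nat_lit 172082) (nat_lit 7) (.e (nat_lit 409612) (nat_lit 10) (.e (nat_lit 632) (nat_lit 50) (.e (nat_lit 573491) (nat_lit 15) (.e (nat_lit 81942) (nat_lit 20) (.e (nat_lit 2391) (nat_lit 156) (.e (nat_lit 819219) (nat_lit 4) .nil))))))) (.g (nat_lit 1) (.e (nat_lit 191024) (nat_lit 0) .nil) .nil))) 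
(.lf (nat_lit 509591) (.g (nat_lit 2622) (.e (nat_lit 172106) (nat_lit 10) (.e (nat_lit 434288) (nat_lit 43) (.e (nat_lit 696344) (nat_lit 8) (.e (nat_lit 172106) (nat_lit 10) (.e (nat_lit 434288) (nat_lit 43) (.e (nat_lit 696344) (nat_lit 8) .nil)))))) (.g (nat_lit 1) (.e (nat_lit 192927) (nat_lit 0) .nil) .nil)))) (.nd (nat_lit 9) 
(.lf (nat_lit 509335) (.g (nat_lit 2152) (.e (nat_lit 172097) (nat_lit 9) (.e (nat_lit 426125) (nat_lit 2) (.e (nat_lit 196684) (nat_lit 18) .nil))) (.g (nat_lit 0) (.e (nat_lit 192237) (nat_lit 0) .nil) .nil))) 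
(.lf (nat_lit 509847) (.g (nat_lit 2596) (.e (nat_lit 172113) (nat_lit 10) (.e (nat_lit 434245) (nat_lit 28) (.e (nat_lit 573450) (nat_lit 9) (.e (nat_lit 457) (nat_lit 34) (.e (nat_lit 442377) (nat_lit 0) (.e (nat_lit 1856) (nat_lit 124) (.e (nat_lit 557100) (nat_lit 13) .nil))))))) (.g (nat_lit 1) (.e (nat_lit 193409) (nat_lit 0) .nil) .nil)))))) 
(.nd (nat_lit 7) (.nd (nat_lit 8) (.nd (nat_lit 9) 
(.lf (nat_lit 509015) (.g (nat_lit 1931) (.e (nat_lit 172080) (nat_lit 7) (.e (nat_lit 409611) (nat_lit 10) (.e (nat_lit 632) (nat_lit 50) (.e (nat_lit 573491) (nat_lit 15) (.e (nat_lit 81947) (nat_lit 20) .nil))))) (.g (nat_lit 0) (.e (nat_lit 190870) (nat_lit 0) .nil) .nil))) 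
(.lf (nat_lit 509527) (.g (nat_lit 2401) (.e (nat_lit 172106) (nat_lit 10) (.e (nat_lit 434244) (nat_lit 28) (.e (nat_lit 573469) (nat_lit 11) (.e (nat_lit 16473) (nat_lit 14) (.e (nat_lit 499456) (nat_lit 2) .nil))))) (.g (nat_lit 0) (.e (nat_lit 192715) (nat_lit 0) .nil) .nil)))) (.nd (nat_lit 9) 
(.lf (nat_lit 509271) (.g (nat_lit 2932) (.e (nat_lit 172094) (nat_lit 9) (.e (nat_lit 426140) (nat_lit 3) (.e (nat_lit 204846) (nat_lit 24) (.e (nat_lit 319533) (nat_lit 16) (.e (nat_lit 286732) (nat_lit 2) (.e (nat_lit 90170) (nat_lit 13) .nil)))))) (.g (nat_lit 1) (.e (nat_lit 192033) (nat_lit 0) .nil) .nil))) 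
(.lf (nat_lit 509783) (.g (nat_lit 1717) (.e (nat_lit 172113) (nat_lit 10) (.e (nat_lit 434231) (nat_lit 23) (.e (nat_lit 532523) (nat_lit 7) (.e (nat_lit 319534) (nat_lit 16) .nil)))) (.g (nat_lit 0) (.e (nat_lit 193322) (nat_lit 0) .nil) .nil))))) (.nd (nat_lit 8) (.nd (nat_lit 9) 
(.lf (nat_lit 509143) (.g (nat_lit 3524) (.e (nat_lit 172082) (nat_lit 7) (.e (nat_lit 409646) (nat_lit 18) (.e (nat_lit 303143) (nat_lit 12) (.e (nat_lit 475199) (nat_lit 40) (.e (nat_lit 704862) (nat_lit 18) (.e (nat_lit 237312) (nat_lit 106) (.e (nat_lit 696344) (nat_lit 8) .nil))))))) (.g (nat_lit 1) (.e (nat_lit 191607) (nat_lit 0) .nil) .nil))) 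
(.lf (nat_lit 509655) (.g (nat_lit 3160) (.e (nat_lit 172109) (nat_lit 10) (.e (nat_lit 434248) (nat_lit 28) (.e (nat_lit 573471) (nat_lit 11) (.e (nat_lit 16433) (nat_lit 9) (.e (nat_lit 426363) (nat_lit 15) .nil))))) (.g (nat_lit 0) (.e (nat_lit 193051) (nat_lit 0) .nil) .nil)))) (.nd (nat_lit 9) 
(.lf (nat_lit 509399) (.g (nat_lit 2506) (.e (nat_lit 172105) (nat_lit 10) (.e (nat_lit 434247) (nat_lit 28) (.e (nat_lit 573477) (nat_lit 12) (.e (nat_lit 57574) (nat_lit 55) (.e (nat_lit 778466) (nat_lit 11) (.e (nat_lit 24603) (nat_lit 2) (.e (nat_lit 90166) (nat_lit 13) .nil))))))) (.g (nat_lit 1) (.e (nat_lit 192336) (nat_lit 0) .nil) .nil))) 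
(.lf (nat_lit 509911) (.g (nat_lit 2549) (.e (nat_lit 172113) (nat_lit 10) (.e (nat_lit 434247) (nat_lit 28) (.e (nat_lit 573477) (nat_lit 12) (.e (nat_lit 57575) (nat_lit 55) (.e (nat_lit 778465) (nat_lit 11) (.e (nat_lit 24603) (nat_lit 2) (.e (nat_lit 90166) (nat_lit 13) .nil))))))) (.g (nat_lit 1) (.e (nat_lit 193521) (nat_lit 0) .nil) .nil))))))) 
(.nd (nat_lit 6) (.nd (nat_lit 7) (.nd (nat_lit 8) (.nd (nat_lit 9) 
(.lf (nat_lit 508983) (.g (nat_lit 1807) (.e (nat_lit 172079) (nat_lit 7) (.e (nat_lit 409645) (nat_lit 18) (.e (nat_lit 303143) (nat_lit 12) (.e (nat_lit 475220) (nat_lit 44) (.e (nat_lit 737304) (nat_lit 11) .nil))))) (.g (nat_lit 0) (.e (nat_lit 190767) (nat_lit 0) .nil) .nil))) 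
(.lf (nat_lit 509495) (.g (nat_lit 3548) (.e (nat_lit 172106) (nat_lit 10) (.e (nat_lit 434231) (nat_lit 23) (.e (nat_lit 532535) (nat_lit 9) (.e (nat_lit 336295) (nat_lit 15) (.e (nat_lit 3629) (nat_lit 227) (.e (nat_lit 778317) (nat_lit 3) (.e (nat_lit 57477) (nat_lit 28) (.e (nat_lit 557099) (nat_lit 13) .nil)))))))) (.g (nat_lit 1) (.e (nat_lit 192541) (nat_lit 0) .nil) .nil)))) 
(.nd (nat_lit 9) 
(.lf (nat_lit 509239) (.g (nat_lit 2371) (.e (nat_lit 172092) (nat_lit 9) (.e (nat_lit 426140) (nat_lit 3) (.e (nat_lit 204846) (nat_lit 24) (.e (nat_lit 319504) (nat_lit 10) .nil)))) (.g (nat_lit 0) (.e (nat_lit 191965) (nat_lit 0) .nil) .nil))) 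
(.lf (nat_lit 509751) (.g (nat_lit 1909) (.e (nat_lit 172113) (nat_lit 10) (.e (nat_lit 434231) (nat_lit 23) (.e (nat_lit 532481) (nat_lit 0) (.e (nat_lit 6157) (nat_lit 332) .nil)))) (.g (nat_lit 0) (.e (nat_lit 193289) (nat_lit 0) .nil) .nil))))) (.nd (nat_lit 8) (.nd (nat_lit 9) 
(.lf (nat_lit 509111) (.g (nat_lit 1591) (.e (nat_lit 172082) (nat_lit 7) (.e (nat_lit 409646) (nat_lit 18) (.e (nat_lit 303135) (nat_lit 10) (.e (nat_lit 434209) (nat_lit 18) (.e (nat_lit 5224) (nat_lit 296) .nil))))) (.g (nat_lit 0) (.e (nat_lit 191391) (nat_lit 0) .nil) .nil))) 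
(.lf (nat_lit 509623) (.g (nat_lit 1543) (.e (nat_lit 172107) (nat_lit 10) (.e (nat_lit 434248) (nat_lit 28) (.e (nat_lit 573503) (nat_lit 18) (.e (nat_lit 1358) (nat_lit 102) .nil)))) (.g (nat_lit 0) (.e (nat_lit 192997) (nat_lit 0) .nil) .nil)))) (.nd (nat_lit 9) 
(.lf (nat_lit 509367) (.g (nat_lit 2029) (.e (nat_lit 172097) (nat_lit 9) (.e (nat_lit 426140) (nat_lit 3) (.e (nat_lit 204880) (nat_lit 32) (.e (nat_lit 385091) (nat_lit 49) .nil)))) (.g (nat_lit 0) (.e (nat_lit 192278) (nat_lit 0) .nil) .nil))) 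
(.lf (nat_lit 509879) (.g (nat_lit 2579) (.e (nat_lit 172113) (nat_lit 10) (.e (nat_lit 434245) (nat_lit 28) (.e (nat_lit 573471) (nat_lit 11) (.e (nat_lit 16436) (nat_lit 9) (.e (nat_lit 433920) (nat_lit 15) .nil))))) (.g (nat_lit 0) (.e (nat_lit 193479) (nat_lit 0) .nil) .nil)))))) (.nd (nat_lit 7) (.nd (nat_lit 8) (.nd (nat_lit 9) 
(.lf (nat_lit 509047) (.g (nat_lit 1476) (.e (nat_lit 172081) (nat_lit 7) (.e (nat_lit 409636) (nat_lit 14) (.e (nat_lit 270373) (nat_lit 16) (.e (nat_lit 286755) (nat_lit 10) (.e (nat_lit 344156) (nat_lit 36) (.e (nat_lit 638998) (nat_lit 8) .nil)))))) (.g (nat_lit 1) (.e (nat_lit 190947) (nat_lit 0) .nil) .nil))) 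
(.lf (nat_lit 509559) (.g (nat_lit 985) (.e (nat_lit 172106) (nat_lit 10) (.e (nat_lit 434266) (nat_lit 35) (.e (nat_lit 630821) (nat_lit 16) (.e (nat_lit 65616) (nat_lit 10) (.e (nat_lit 344154) (nat_lit 35) (.e (nat_lit 630802) (nat_lit 8) .nil)))))) (.g (nat_lit 1) (.e (nat_lit 192784) (nat_lit 0) .nil) .nil)))) (.nd (nat_lit 9) 
(.lf (nat_lit 509303) (.g (nat_lit 731) (.e (nat_lit 172096) (nat_lit 9) (.e (nat_lit 426140) (nat_lit 3) (.e (nat_lit 204845) (nat_lit 24) .nil))) (.g (nat_lit 0) (.e (nat_lit 192091) (nat_lit 0) .nil) .nil))) 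
(.lf (nat_lit 509815) (.g (nat_lit 2341) (.e (nat_lit 172113) (nat_lit 10) (.e (nat_lit 434242) (nat_lit 28) (.e (nat_lit 573474) (nat_lit 12) (.e (nat_lit 57568) (nat_lit 53) (.e (nat_lit 761866) (nat_lit 5) .nil))))) (.g (nat_lit 0) (.e (nat_lit 193368) (nat_lit 0) .nil) .nil))))) (.nd (nat_lit 8) (.nd (nat_lit 9) 
(.lf (nat_lit 509175) (.g (nat_lit 2648) (.e (nat_lit 172082) (nat_lit 7) (.e (nat_lit 409649) (nat_lit 18) (.e (nat_lit 303140) (nat_lit 10) (.e (nat_lit 434275) (nat_lit 39) (.e (nat_lit 663572) (nat_lit 9) (.e (nat_lit 2399) (nat_lit 157) (.e (nat_lit 3471) (nat_lit 217) (.e (nat_lit 696343) (nat_lit 8) .nil)))))))) (.g (nat_lit 1) (.e (nat_lit 191791) (nat_lit 0) .nil) .nil))) 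
(.lf (nat_lit 509687) (.g (nat_lit 2552) (.e (nat_lit 172112) (nat_lit 10) (.e (nat_lit 434248) (nat_lit 28) (.e (nat_lit 573469) (nat_lit 11) (.e (nat_lit 16438) (nat_lit 9) (.e (nat_lit 426402) (nat_lit 15) .nil))))) (.g (nat_lit 0) (.e (nat_lit 193110) (nat_lit 0) .nil) .nil)))) (.nd (nat_lit 9) 
(.lf (nat_lit 509431) (.g (nat_lit 1847) (.e (nat_lit 172105) (nat_lit 10) (.e (nat_lit 434272) (nat_lit 38) (.e (nat_lit 655364) (nat_lit 0) (.e (nat_lit 3022) (nat_lit 187) (.e (nat_lit 458496) (nat_lit 15) .nil))))) (.g (nat_lit 0) (.e (nat_lit 192371) (nat_lit 0) .nil) .nil))) 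
(.lf (nat_lit 509943) (.g (nat_lit 3978) (.e (nat_lit 172113) (nat_lit 10) (.e (nat_lit 434248) (nat_lit 28) (.e (nat_lit 573471) (nat_lit 11) (.e (nat_lit 16433) (nat_lit 9) (.e (nat_lit 426350) (nat_lit 15) (.e (nat_lit 1860) (nat_lit 124) (.e (nat_lit 557100) (nat_lit 13) .nil))))))) (.g (nat_lit 1) (.e (nat_lit 193560) (nat_lit 0) .nil) .nil))))))))) 
(.nd (nat_lit 4) (.nd (nat_lit 5) (.nd (nat_lit 6) (.nd (nat_lit 7) (.nd (nat_lit 8) 
(.nd (nat_lit 9) 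
(.lf (nat_lit 508943) (.g (nat_lit 1876) (.e (nat_lit 172079) (nat_lit 7) (.e (nat_lit 409645) (nat_lit 18) (.e (nat_lit 303133) (nat_lit 9) (.e (nat_lit 426412) (nat_lit 15) (.e (nat_lit 2211) (nat_lit 145) .nil))))) (.g (nat_lit 0) (.e (nat_lit 190530) (nat_lit 0) .nil) .nil))) 
(.lf (nat_lit 509455) (.g (nat_lit 434) (.e (nat_lit 172106) (nat_lit 10) (.e (nat_lit 434209) (nat_lit 18) (.e (nat_lit 6428) (nat_lit 342) .nil))) (.g (nat_lit 0) (.e (nat_lit 192485) (nat_lit 0) .nil) .nil)))) (.nd (nat_lit 9) 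
(.lf (nat_lit 509199) (.g (nat_lit 2356) (.e (nat_lit 172085) (nat_lit 9) (.e (nat_lit 426140) (nat_lit 3) (.e (nat_lit 204845) (nat_lit 24) (.e (nat_lit 319534) (nat_lit 16) (.e (nat_lit 286733) (nat_lit 2) .nil))))) (.g (nat_lit 0) (.e (nat_lit 191903) (nat_lit 0) .nil) .nil))) 
(.lf (nat_lit 509711) (.g (nat_lit 1830) (.e (nat_lit 172112) (nat_lit 10) (.e (nat_lit 434271) (nat_lit 38) (.e (nat_lit 655378) (nat_lit 4) (.e (nat_lit 172097) (nat_lit 9) (.e (nat_lit 426025) (nat_lit 0) .nil))))) (.g (nat_lit 0) (.e (nat_lit 193145) (nat_lit 0) .nil) .nil))))) (.nd (nat_lit 8) (.nd (nat_lit 9) 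
(.lf (nat_lit 509071) (.g (nat_lit 2291) (.e (nat_lit 172081) (nat_lit 7) (.e (nat_lit 409649) (nat_lit 18) (.e (nat_lit 303140) (nat_lit 10) (.e (nat_lit 434275) (nat_lit 39) (.e (nat_lit 663580) (nat_lit 9) .nil))))) (.g (nat_lit 0) (.e (nat_lit 190999) (nat_lit 0) .nil) .nil))) 
(.lf (nat_lit 509583) (.g (nat_lit 331) (.e (nat_lit 172106) (nat_lit 10) (.e (nat_lit 434272) (nat_lit 38) (.e (nat_lit 655380) (nat_lit 6) .nil))) (.g (nat_lit 0) (.e (nat_lit 192911) (nat_lit 0) .nil) .nil)))) (.nd (nat_lit 9) 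
(.lf (nat_lit 509327) (.g (nat_lit 3390) (.e (nat_lit 172097) (nat_lit 9) (.e (nat_lit 426125) (nat_lit 2) (.e (nat_lit 196661) (nat_lit 12) (.e (nat_lit 57749) (nat_lit 201) (.e (nat_lit 2936) (nat_lit 184) (.e (nat_lit 426401) (nat_lit 15) (.e (nat_lit 1859) (nat_lit 124) (.e (nat_lit 557098) (nat_lit 13) .nil)))))))) (.g (nat_lit 1) (.e (nat_lit 192229) (nat_lit 0) .nil) .nil))) 
(.lf (nat_lit 509839) (.g (nat_lit 3181) (.e (nat_lit 172113) (nat_lit 10) (.e (nat_lit 434244) (nat_lit 28) (.e (nat_lit 573471) (nat_lit 11) (.e (nat_lit 16469) (nat_lit 14) (.e (nat_lit 491537) (nat_lit 2) .nil))))) (.g (nat_lit 0) (.e (nat_lit 193395) (nat_lit 0) .nil) .nil)))))) (.nd (nat_lit 7) (.nd (nat_lit 8) (.nd (nat_lit 9) 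
(.lf (nat_lit 509007) (.g (nat_lit 2011) (.e (nat_lit 172079) (nat_lit 7) (.e (nat_lit 409649) (nat_lit 18) (.e (nat_lit 303140) (nat_lit 10) (.e (nat_lit 434275) (nat_lit 39) .nil)))) (.g (nat_lit 0) (.e (nat_lit 190852) (nat_lit 0) .nil) .nil))) 
(.lf (nat_lit 509519) (.g (nat_lit 1982) (.e (nat_lit 172106) (nat_lit 10) (.e (nat_lit 434244) (nat_lit 28) (.e (nat_lit 573450) (nat_lit 9) (.e (nat_lit 375) (nat_lit 32) (.e (nat_lit 426032) (nat_lit 0) .nil))))) (.g (nat_lit 0) (.e (nat_lit 192700) (nat_lit 0) .nil) .nil)))) (.nd (nat_lit 9) 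
(.lf (nat_lit 509263) (.g (nat_lit 476) (.e (nat_lit 172094) (nat_lit 9) (.e (nat_lit 426140) (nat_lit 3) (.e (nat_lit 204821) (nat_lit 17) .nil))) (.g (nat_lit 0) (.e (nat_lit 192020) (nat_lit 0) .nil) .nil))) 
(.lf (nat_lit 509775) (.g (nat_lit 2205) (.e (nat_lit 172113) (nat_lit 10) (.e (nat_lit 434231) (nat_lit 23) (.e (nat_lit 532523) (nat_lit 7) (.e (nat_lit 319505) (nat_lit 10) .nil)))) (.g (nat_lit 0) (.e (nat_lit 193314) (nat_lit 0) .nil) .nil))))) (.nd (nat_lit 8) (.nd (nat_lit 9) 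
(.lf (nat_lit 509135) (.g (nat_lit 2311) (.e (nat_lit 172082) (nat_lit 7) (.e (nat_lit 409646) (nat_lit 18) (.e (nat_lit 303143) (nat_lit 12) (.e (nat_lit 475199) (nat_lit 40) (.e (nat_lit 704583) (nat_lit 1) .nil))))) (.g (nat_lit 0) (.e (nat_lit 191503) (nat_lit 0) .nil) .nil))) 
(.lf (nat_lit 509647) (.g (nat_lit 3327) (.e (nat_lit 172107) (nat_lit 10) (.e (nat_lit 434289) (nat_lit 43) (.e (nat_lit 696344) (nat_lit 8) (.e (nat_lit 172113) (nat_lit 10) (.e (nat_lit 434289) (nat_lit 43) (.e (nat_lit 696343) (nat_lit 8) .nil)))))) (.g (nat_lit 1) (.e (nat_lit 193042) (nat_lit 0) .nil) .nil)))) (.nd (nat_lit 9) 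
(.lf (nat_lit 509391) (.g (nat_lit 511) (.e (nat_lit 172105) (nat_lit 10) (.e (nat_lit 434238) (nat_lit 25) (.e (nat_lit 548915) (nat_lit 20) .nil))) (.g (nat_lit 0) (.e (nat_lit 192321) (nat_lit 0) .nil) .nil))) 
(.lf (nat_lit 509903) (.g (nat_lit 4842) (.e (nat_lit 172113) (nat_lit 10) (.e (nat_lit 434247) (nat_lit 28) (.e (nat_lit 573471) (nat_lit 11) (.e (nat_lit 16433) (nat_lit 9) (.e (nat_lit 426361) (nat_lit 15) .nil))))) (.g (nat_lit 0) (.e (nat_lit 193513) (nat_lit 0) .nil) .nil))))))) (.nd (nat_lit 6) (.nd (nat_lit 7) (.nd (nat_lit 8) (.nd (nat_lit 9) 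
(.lf (nat_lit 508975) (.g (nat_lit 2808) (.e (nat_lit 172079) (nat_lit 7) (.e (nat_lit 409645) (nat_lit 18) (.e (nat_lit 303143) (nat_lit 12) (.e (nat_lit 475211) (nat_lit 41) (.e (nat_lit 712706) (nat_lit 0) .nil))))) (.g (nat_lit 0) (.e (nat_lit 190734) (nat_lit 0) .nil) .nil))) 
(.lf (nat_lit 509487) (.g (nat_lit 3430) (.e (nat_lit 172106) (nat_lit 10) (.e (nat_lit 434231) (nat_lit 23) (.e (nat_lit 532523) (nat_lit 7) (.e (nat_lit 319530) (nat_lit 16) (.e (nat_lit 286733) (nat_lit 2) (.e (nat_lit 90168) (nat_lit 13) .nil)))))) (.g (nat_lit 1) (.e (nat_lit 192529) (nat_lit 0) .nil) .nil)))) (.nd (nat_lit 9) 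
(.lf (nat_lit 509231) (.g (nat_lit 618) (.e (nat_lit 172089) (nat_lit 9) (.e (nat_lit 426025) (nat_lit 0) (.e (nat_lit 3399) (nat_lit 211) .nil))) (.g (nat_lit 0) (.e (nat_lit 191955) (nat_lit 0) .nil) .nil))) 
(.lf (nat_lit 509743) (.g (nat_lit 648) (.e (nat_lit 172113) (nat_lit 10) (.e (nat_lit 434209) (nat_lit 18) (.e (nat_lit 5547) (nat_lit 306) .nil))) (.g (nat_lit 0) (.e (nat_lit 193274) (nat_lit 0) .nil) .nil))))) (.nd (nat_lit 8) (.nd (nat_lit 9) 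
(.lf (nat_lit 509103) (.g (nat_lit 662) (.e (nat_lit 172082) (nat_lit 7) (.e (nat_lit 409646) (nat_lit 18) (.e (nat_lit 303115) (nat_lit 1) .nil))) (.g (nat_lit 0) (.e (nat_lit 191108) (nat_lit 0) .nil) .nil))) 
(.lf (nat_lit 509615) (.g (nat_lit 1479) (.e (nat_lit 172107) (nat_lit 10) (.e (nat_lit 434202) (nat_lit 18) (.e (nat_lit 6830) (nat_lit 367) (.e (nat_lit 57412) (nat_lit 12) (.e (nat_lit 336176) (nat_lit 10) .nil))))) (.g (nat_lit 0) (.e (nat_lit 192976) (nat_lit 0) .nil) .nil)))) (.nd (nat_lit 9) 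
(.lf (nat_lit 509359) (.g (nat_lit 4134) (.e (nat_lit 172097) (nat_lit 9) (.e (nat_lit 426140) (nat_lit 3) (.e (nat_lit 204845) (nat_lit 24) (.e (nat_lit 319534) (nat_lit 16) (.e (nat_lit 286733) (nat_lit 2) (.e (nat_lit 90170) (nat_lit 13) .nil)))))) (.g (nat_lit 1) (.e (nat_lit 192269) (nat_lit 0) .nil) .nil))) 
(.lf (nat_lit 509871) (.g (nat_lit 3761) (.e (nat_lit 172113) (nat_lit 10) (.e (nat_lit 434245) (nat_lit 28) (.e (nat_lit 573471) (nat_lit 11) (.e (nat_lit 16433) (nat_lit 9) (.e (nat_lit 426379) (nat_lit 15) .nil))))) (.g (nat_lit 0) (.e (nat_lit 193471) (nat_lit 0) .nil) .nil)))))) (.nd (nat_lit 7) (.nd (nat_lit 8) (.nd (nat_lit 9) 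
(.lf (nat_lit 509039) (.g (nat_lit 1879) (.e (nat_lit 172080) (nat_lit 7) (.e (nat_lit 409642) (nat_lit 17) (.e (nat_lit 294974) (nat_lit 29) (.e (nat_lit 442412) (nat_lit 20) (.e (nat_lit 3409) (nat_lit 212) (.e (nat_lit 655378) (nat_lit 4) .nil)))))) (.g (nat_lit 1) (.e (nat_lit 190920) (nat_lit 0) .nil) .nil))) 
(.lf (nat_lit 509551) (.g (nat_lit 3930) (.e (nat_lit 172106) (nat_lit 10) (.e (nat_lit 434248) (nat_lit 28) (.e (nat_lit 573471) (nat_lit 11) (.e (nat_lit 16433) (nat_lit 9) (.e (nat_lit 426360) (nat_lit 15) .nil))))) (.g (nat_lit 0) (.e (nat_lit 192772) (nat_lit 0) .nil) .nil)))) (.nd (nat_lit 9) 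
(.lf (nat_lit 509295) (.g (nat_lit 979) (.e (nat_lit 172100) (nat_lit 9) (.e (nat_lit 426025) (nat_lit 0) (.e (nat_lit 3397) (nat_lit 211) (.e (nat_lit 647185) (nat_lit 6) .nil)))) (.g (nat_lit 0) (.e (nat_lit 192078) (nat_lit 0) .nil) .nil))) 
(.lf (nat_lit 509807) (.g (nat_lit 1916) (.e (nat_lit 172113) (nat_lit 10) (.e (nat_lit 434242) (nat_lit 28) (.e (nat_lit 573473) (nat_lit 12) (.e (nat_lit 57347) (nat_lit 0) (.e (nat_lit 7125) (nat_lit 382) .nil))))) (.g (nat_lit 0) (.e (nat_lit 193358) (nat_lit 0) .nil) .nil))))) (.nd (nat_lit 8) (.nd (nat_lit 9) 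
(.lf (nat_lit 509167) (.g (nat_lit 800) (.e (nat_lit 172082) (nat_lit 7) (.e (nat_lit 409649) (nat_lit 18) (.e (nat_lit 303105) (nat_lit 0) .nil))) (.g (nat_lit 0) (.e (nat_lit 191753) (nat_lit 0) .nil) .nil))) 
(.lf (nat_lit 509679) (.g (nat_lit 1479) (.e (nat_lit 172112) (nat_lit 10) (.e (nat_lit 434202) (nat_lit 18) (.e (nat_lit 6830) (nat_lit 367) (.e (nat_lit 57412) (nat_lit 12) (.e (nat_lit 336176) (nat_lit 10) .nil))))) (.g (nat_lit 0) (.e (nat_lit 193077) (nat_lit 0) .nil) .nil)))) (.nd (nat_lit 9) 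
(.lf (nat_lit 509423) (.g (nat_lit 1708) (.e (nat_lit 172105) (nat_lit 10) (.e (nat_lit 434248) (nat_lit 28) (.e (nat_lit 573503) (nat_lit 18) (.e (nat_lit 1358) (nat_lit 102) .nil)))) (.g (nat_lit 0) (.e (nat_lit 192361) (nat_lit 0) .nil) .nil))) 
(.lf (nat_lit 509935) (.g (nat_lit 2184) (.e (nat_lit 172113) (nat_lit 10) (.e (nat_lit 434248) (nat_lit 28) (.e (nat_lit 573471) (nat_lit 11) (.e (nat_lit 16384) (nat_lit 0) (.e (nat_lit 7541) (nat_lit 402) .nil))))) (.g (nat_lit 0) (.e (nat_lit 193551) (nat_lit 0) .nil) .nil)))))))) (.nd (nat_lit 5) (.nd (nat_lit 6) (.nd (nat_lit 7) (.nd (nat_lit 8) (.nd (nat_lit 9) 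
(.lf (nat_lit 508959) (.g (nat_lit 3031) (.e (nat_lit 172079) (nat_lit 7) (.e (nat_lit 409645) (nat_lit 18) (.e (nat_lit 303140) (nat_lit 10) (.e (nat_lit 434275) (nat_lit 39) (.e (nat_lit 663580) (nat_lit 9) (.e (nat_lit 2416) (nat_lit 157) (.e (nat_lit 3471) (nat_lit 217) (.e (nat_lit 696343) (nat_lit 8) .nil)))))))) (.g (nat_lit 1) (.e (nat_lit 190593) (nat_lit 0) .nil) .nil))) 
(.lf (nat_lit 509471) (.g (nat_lit 1402) (.e (nat_lit 172106) (nat_lit 10) (.e (nat_lit 434231) (nat_lit 23) (.e (nat_lit 532500) (nat_lit 1) (.e (nat_lit 57761) (nat_lit 215) (.e (nat_lit 2510) (nat_lit 157) .nil))))) (.g (nat_lit 0) (.e (nat_lit 192510) (nat_lit 0) .nil) .nil)))) (.nd (nat_lit 9) 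
(.lf (nat_lit 509215) (.g (nat_lit 1164) (.e (nat_lit 172086) (nat_lit 9) (.e (nat_lit 426482) (nat_lit 27) (.e (nat_lit 336060) (nat_lit 7) (.e (nat_lit 319533) (nat_lit 16) .nil)))) (.g (nat_lit 0) (.e (nat_lit 191923) (nat_lit 0) .nil) .nil))) 
(.lf (nat_lit 509727) (.g (nat_lit 1559) (.e (nat_lit 172112) (nat_lit 10) (.e (nat_lit 434289) (nat_lit 43) (.e (nat_lit 696346) (nat_lit 10) (.e (nat_lit 188439) (nat_lit 20) (.e (nat_lit 3467) (nat_lit 217) .nil))))) (.g (nat_lit 0) (.e (nat_lit 193188) (nat_lit 0) .nil) .nil))))) (.nd (nat_lit 8) (.nd (nat_lit 9) 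
(.lf (nat_lit 509087) (.g (nat_lit 2447) (.e (nat_lit 172082) (nat_lit 7) (.e (nat_lit 409617) (nat_lit 10) (.e (nat_lit 632) (nat_lit 50) (.e (nat_lit 573491) (nat_lit 15) (.e (nat_lit 81942) (nat_lit 20) .nil))))) (.g (nat_lit 0) (.e (nat_lit 191048) (nat_lit 0) .nil) .nil))) 
(.lf (nat_lit 509599) (.g (nat_lit 3757) (.e (nat_lit 172106) (nat_lit 10) (.e (nat_lit 434289) (nat_lit 43) (.e (nat_lit 696343) (nat_lit 8) (.e (nat_lit 172113) (nat_lit 10) (.e (nat_lit 434289) (nat_lit 43) (.e (nat_lit 696344) (nat_lit 8) .nil)))))) (.g (nat_lit 1) (.e (nat_lit 192951) (nat_lit 0) .nil) .nil)))) (.nd (nat_lit 9) 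
(.lf (nat_lit 509343) (.g (nat_lit 492) (.e (nat_lit 172097) (nat_lit 9) (.e (nat_lit 426140) (nat_lit 3) (.e (nat_lit 204845) (nat_lit 24) .nil))) (.g (nat_lit 0) (.e (nat_lit 192252) (nat_lit 0) .nil) .nil))) 
(.lf (nat_lit 509855) (.g (nat_lit 2556) (.e (nat_lit 172113) (nat_lit 10) (.e (nat_lit 434245) (nat_lit 28) (.e (nat_lit 573469) (nat_lit 11) (.e (nat_lit 16435) (nat_lit 9) (.e (nat_lit 426350) (nat_lit 15) (.e (nat_lit 1860) (nat_lit 124) (.e (nat_lit 557100) (nat_lit 13) .nil))))))) (.g (nat_lit 1) (.e (nat_lit 193425) (nat_lit 0) .nil) .nil)))))) 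
(.nd (nat_lit 7) (.nd (nat_lit 8) (.nd (nat_lit 9) 
(.lf (nat_lit 509023) (.g (nat_lit 1365) (.e (nat_lit 172080) (nat_lit 7) (.e (nat_lit 409638) (nat_lit 15) (.e (nat_lit 278566) (nat_lit 16) (.e (nat_lit 286756) (nat_lit 10) (.e (nat_lit 344154) (nat_lit 35) (.e (nat_lit 630802) (nat_lit 8) .nil)))))) (.g (nat_lit 1) (.e (nat_lit 190883) (nat_lit 0) .nil) .nil))) 
(.lf (nat_lit 509535) (.g (nat_lit 2239) (.e (nat_lit 172106) (nat_lit 10) (.e (nat_lit 434244) (nat_lit 28) (.e (nat_lit 573471) (nat_lit 11) (.e (nat_lit 16395) (nat_lit 0) .nil)))) (.g (nat_lit 0) (.e (nat_lit 192735) (nat_lit 0) .nil) .nil)))) (.nd (nat_lit 9) 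
(.lf (nat_lit 509279) (.g (nat_lit 551) (.e (nat_lit 172095) (nat_lit 9) (.e (nat_lit 426025) (nat_lit 0) (.e (nat_lit 3397) (nat_lit 211) .nil))) (.g (nat_lit 0) (.e (nat_lit 192057) (nat_lit 0) .nil) .nil))) 
(.lf (nat_lit 509791) (.g (nat_lit 2646) (.e (nat_lit 172113) (nat_lit 10) (.e (nat_lit 434231) (nat_lit 23) (.e (nat_lit 532526) (nat_lit 8) (.e (nat_lit 327708) (nat_lit 10) (.e (nat_lit 5245) (nat_lit 298) .nil))))) (.g (nat_lit 0) (.e (nat_lit 193330) (nat_lit 0) .nil) .nil))))) (.nd (nat_lit 8) (.nd (nat_lit 9) 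
(.lf (nat_lit 509151) (.g (nat_lit 2987) (.e (nat_lit 172082) (nat_lit 7) (.e (nat_lit 409646) (nat_lit 18) (.e (nat_lit 303146) (nat_lit 14) (.e (nat_lit 491560) (nat_lit 10) (.e (nat_lit 344155) (nat_lit 36) .nil))))) (.g (nat_lit 0) (.e (nat_lit 191675) (nat_lit 0) .nil) .nil))) 
(.lf (nat_lit 509663) (.g (nat_lit 1406) (.e (nat_lit 172111) (nat_lit 10) (.e (nat_lit 434247) (nat_lit 28) (.e (nat_lit 573469) (nat_lit 11) (.e (nat_lit 16461) (nat_lit 12) .nil)))) (.g (nat_lit 0) (.e (nat_lit 193060) (nat_lit 0) .nil) .nil)))) (.nd (nat_lit 9) 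
(.lf (nat_lit 509407) (.g (nat_lit 903) (.e (nat_lit 172105) (nat_lit 10) (.e (nat_lit 434248) (nat_lit 28) (.e (nat_lit 573469) (nat_lit 11) .nil))) (.g (nat_lit 0) (.e (nat_lit 192344) (nat_lit 0) .nil) .nil))) 
(.lf (nat_lit 509919) (.g (nat_lit 2572) (.e (nat_lit 172113) (nat_lit 10) (.e (nat_lit 434248) (nat_lit 28) (.e (nat_lit 573450) (nat_lit 9) (.e (nat_lit 375) (nat_lit 32) (.e (nat_lit 426317) (nat_lit 12) .nil))))) (.g (nat_lit 0) (.e (nat_lit 193530) (nat_lit 0) .nil) .nil))))))) (.nd (nat_lit 6) (.nd (nat_lit 7) (.nd (nat_lit 8) (.nd (nat_lit 9) 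
(.lf (nat_lit 508991) (.g (nat_lit 2530) (.e (nat_lit 172079) (nat_lit 7) (.e (nat_lit 409645) (nat_lit 18) (.e (nat_lit 311040) (nat_lit 35) (.e (nat_lit 401454) (nat_lit 12) (.e (nat_lit 475196) (nat_lit 40) (.e (nat_lit 712448) (nat_lit 4) .nil)))))) (.g (nat_lit 1) (.e (nat_lit 190820) (nat_lit 0) .nil) .nil))) 
(.lf (nat_lit 509503) (.g (nat_lit 1802) (.e (nat_lit 172106) (nat_lit 10) (.e (nat_lit 434231) (nat_lit 23) (.e (nat_lit 532563) (nat_lit 15) (.e (nat_lit 385098) (nat_lit 49) .nil)))) (.g (nat_lit 0) (.e (nat_lit 192557) (nat_lit 0) .nil) .nil)))) (.nd (nat_lit 9) 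
(.lf (nat_lit 509247) (.g (nat_lit 435) (.e (nat_lit 172094) (nat_lit 9) (.e (nat_lit 426025) (nat_lit 0) (.e (nat_lit 3397) (nat_lit 211) .nil))) (.g (nat_lit 0) (.e (nat_lit 191976) (nat_lit 0) .nil) .nil))) 
(.lf (nat_lit 509759) (.g (nat_lit 3267) (.e (nat_lit 172113) (nat_lit 10) (.e (nat_lit 434231) (nat_lit 23) (.e (nat_lit 532490) (nat_lit 0) (.e (nat_lit 6114) (nat_lit 332) (.e (nat_lit 1074) (nat_lit 81) .nil))))) (.g (nat_lit 0) (.e (nat_lit 193297) (nat_lit 0) .nil) .nil))))) (.nd (nat_lit 8) (.nd (nat_lit 9) 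
(.lf (nat_lit 509119) (.g (nat_lit 3367) (.e (nat_lit 172082) (nat_lit 7) (.e (nat_lit 409646) (nat_lit 18) (.e (nat_lit 303137) (nat_lit 10) (.e (nat_lit 434275) (nat_lit 39) (.e (nat_lit 663580) (nat_lit 9) (.e (nat_lit 2416) (nat_lit 157) (.e (nat_lit 3471) (nat_lit 217) (.e (nat_lit 696344) (nat_lit 8) .nil)))))))) (.g (nat_lit 1) (.e (nat_lit 191409) (nat_lit 0) .nil) .nil))) 
(.lf (nat_lit 509631) (.g (nat_lit 2840) (.e (nat_lit 172107) (nat_lit 10) (.e (nat_lit 434268) (nat_lit 36) (.e (nat_lit 639020) (nat_lit 16) (.e (nat_lit 65617) (nat_lit 10) (.e (nat_lit 344156) (nat_lit 36) (.e (nat_lit 638998) (nat_lit 8) .nil)))))) (.g (nat_lit 1) (.e (nat_lit 193007) (nat_lit 0) .nil) .nil)))) (.nd (nat_lit 9) 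
(.lf (nat_lit 509375) (.g (nat_lit 638) (.e (nat_lit 172098) (nat_lit 9) (.e (nat_lit 426025) (nat_lit 0) (.e (nat_lit 3399) (nat_lit 211) .nil))) (.g (nat_lit 0) (.e (nat_lit 192289) (nat_lit 0) .nil) .nil))) 
(.lf (nat_lit 509887) (.g (nat_lit 2809) (.e (nat_lit 172113) (nat_lit 10) (.e (nat_lit 434245) (nat_lit 28) (.e (nat_lit 573471) (nat_lit 11) (.e (nat_lit 16470) (nat_lit 14) (.e (nat_lit 491536) (nat_lit 2) (.e (nat_lit 90170) (nat_lit 13) .nil)))))) (.g (nat_lit 1) (.e (nat_lit 193490) (nat_lit 0) .nil) .nil)))))) (.nd (nat_lit 7) (.nd (nat_lit 8) (.nd (nat_lit 9) 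
(.lf (nat_lit 509055) (.g (nat_lit 829) (.e (nat_lit 172081) (nat_lit 7) (.e (nat_lit 409646) (nat_lit 18) (.e (nat_lit 303140) (nat_lit 10) .nil))) (.g (nat_lit 0) (.e (nat_lit 190957) (nat_lit 0) .nil) .nil))) 
(.lf (nat_lit 509567) (.g (nat_lit 3158) (.e (nat_lit 172106) (nat_lit 10) (.e (nat_lit 434268) (nat_lit 36) (.e (nat_lit 639020) (nat_lit 16) (.e (nat_lit 65619) (nat_lit 10) (.e (nat_lit 344156) (nat_lit 36) (.e (nat_lit 638998) (nat_lit 8) .nil)))))) (.g (nat_lit 1) (.e (nat_lit 192794) (nat_lit 0) .nil) .nil)))) (.nd (nat_lit 9) 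
(.lf (nat_lit 509311) (.g (nat_lit 1087) (.e (nat_lit 172096) (nat_lit 9) (.e (nat_lit 426140) (nat_lit 3) (.e (nat_lit 204846) (nat_lit 24) (.e (nat_lit 319534) (nat_lit 16) .nil)))) (.g (nat_lit 0) (.e (nat_lit 192105) (nat_lit 0) .nil) .nil))) 
(.lf (nat_lit 509823) (.g (nat_lit 3092) (.e (nat_lit 172113) (nat_lit 10) (.e (nat_lit 434242) (nat_lit 28) (.e (nat_lit 573474) (nat_lit 12) (.e (nat_lit 57572) (nat_lit 54) (.e (nat_lit 770055) (nat_lit 5) .nil))))) (.g (nat_lit 0) (.e (nat_lit 193376) (nat_lit 0) .nil) .nil))))) (.nd (nat_lit 8) (.nd (nat_lit 9) 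
(.lf (nat_lit 509183) (.g (nat_lit 1051) (.e (nat_lit 172082) (nat_lit 7) (.e (nat_lit 409649) (nat_lit 18) (.e (nat_lit 303141) (nat_lit 11) .nil))) (.g (nat_lit 0) (.e (nat_lit 191813) (nat_lit 0) .nil) .nil))) 
(.lf (nat_lit 509695) (.g (nat_lit 3382) (.e (nat_lit 172112) (nat_lit 10) (.e (nat_lit 434248) (nat_lit 28) (.e (nat_lit 573475) (nat_lit 12) (.e (nat_lit 57574) (nat_lit 55) (.e (nat_lit 778466) (nat_lit 11) (.e (nat_lit 24603) (nat_lit 2) (.e (nat_lit 90166) (nat_lit 13) .nil))))))) (.g (nat_lit 1) (.e (nat_lit 193120) (nat_lit 0) .nil) .nil)))) (.nd (nat_lit 9) 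
(.lf (nat_lit 509439) (.g (nat_lit 524) (.e (nat_lit 172105) (nat_lit 10) (.e (nat_lit 434289) (nat_lit 43) (.e (nat_lit 696344) (nat_lit 8) .nil))) (.g (nat_lit 0) (.e (nat_lit 192381) (nat_lit 0) .nil) .nil))) 
(.lf (nat_lit 509951) (.g (nat_lit 3823) (.e (nat_lit 172113) (nat_lit 10) (.e (nat_lit 434248) (nat_lit 28) (.e (nat_lit 573471) (nat_lit 11) (.e (nat_lit 16433) (nat_lit 9) (.e (nat_lit 426404) (nat_lit 15) .nil))))) (.g (nat_lit 0) (.e (nat_lit 193568) (nat_lit 0) .nil) .nil)))))))))))))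

noncomputable def tv5558 : DT := (.nd (nat_lit 0) (.nd (nat_lit 1) (.nd (nat_lit 2) (.nd (nat_lit 3) (.nd (nat_lit 4) (.nd (nat_lit 5) (.nd (nat_lit 6) (.nd (nat_lit 7) (.nd (nat_lit 8) (.nd (nat_lit 9) 
(.lf (nat_lit 509952) (.g (nat_lit 3054) (.e (nat_lit 172113) (nat_lit 10) (.e (nat_lit 434248) (nat_lit 28) (.e (nat_lit 573471) (nat_lit 11) (.e (nat_lit 16433) (nat_lit 9) (.e (nat_lit 433920) (nat_lit 15) .nil))))) (.g (nat_lit 0) (.e (nat_lit 193569) (nat_lit 0) .nil) .nil))) 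
(.lf (nat_lit 510464) (.g (nat_lit 2065) (.e (nat_lit 172118) (nat_lit 12) (.e (nat_lit 475185) (nat_lit 29) (.e (nat_lit 557100) (nat_lit 13) (.e (nat_lit 172077) (nat_lit 7) .nil)))) (.g (nat_lit 0) (.e (nat_lit 194800) (nat_lit 0) .nil) .nil)))) (.nd (nat_lit 9) 
(.lf (nat_lit 510208) (.g (nat_lit 1684) (.e (nat_lit 172115) (nat_lit 10) (.e (nat_lit 434244) (nat_lit 28) (.e (nat_lit 573448) (nat_lit 9) (.e (nat_lit 478) (nat_lit 37) .nil)))) (.g (nat_lit 0) (.e (nat_lit 194218) (nat_lit 0) .nil) .nil))) 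
(.lf (nat_lit 510720) (.g (nat_lit 2393) (.e (nat_lit 172120) (nat_lit 12) (.e (nat_lit 475199) (nat_lit 40) (.e (nat_lit 704598) (nat_lit 6) (.e (nat_lit 188453) (nat_lit 24) (.e (nat_lit 229665) (nat_lit 240) (.e (nat_lit 2620) (nat_lit 164) .nil)))))) (.g (nat_lit 1) (.e (nat_lit 195146) (nat_lit 0) .nil) .nil))))) (.nd (nat_lit 8) (.nd (nat_lit 9) 
(.lf (nat_lit 510080) (.g (nat_lit 3552) (.e (nat_lit 172115) (nat_lit 10) (.e (nat_lit 434231) (nat_lit 23) (.e (nat_lit 532523) (nat_lit 7) (.e (nat_lit 319512) (nat_lit 10) .nil)))) (.g (nat_lit 0) (.e (nat_lit 193970) (nat_lit 0) .nil) .nil))) 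
(.lf (nat_lit 510592) (.g (nat_lit 1838) (.e (nat_lit 172119) (nat_lit 12) (.e (nat_lit 475210) (nat_lit 41) (.e (nat_lit 712755) (nat_lit 30) (.e (nat_lit 450565) (nat_lit 0) (.e (nat_lit 5548) (nat_lit 306) .nil))))) (.g (nat_lit 0) (.e (nat_lit 194981) (nat_lit 0) .nil) .nil)))) (.nd (nat_lit 9) 
(.lf (nat_lit 510336) (.g (nat_lit 2106) (.e (nat_lit 172115) (nat_lit 10) (.e (nat_lit 434244) (nat_lit 28) (.e (nat_lit 573471) (nat_lit 11) (.e (nat_lit 16442) (nat_lit 9) .nil)))) (.g (nat_lit 0) (.e (nat_lit 194414) (nat_lit 0) .nil) .nil))) 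
(.lf (nat_lit 510848) (.g (nat_lit 2238) (.e (nat_lit 172122) (nat_lit 13) (.e (nat_lit 483341) (nat_lit 9) (.e (nat_lit 426100) (nat_lit 1) (.e (nat_lit 164399) (nat_lit 256) (.e (nat_lit 57372) (nat_lit 2) (.e (nat_lit 90169) (nat_lit 13) .nil)))))) (.g (nat_lit 1) (.e (nat_lit 195507) (nat_lit 0) .nil) .nil)))))) (.nd (nat_lit 7) (.nd (nat_lit 8) (.nd (nat_lit 9) 
(.lf (nat_lit 510016) (.g (nat_lit 2647) (.e (nat_lit 172114) (nat_lit 10) (.e (nat_lit 434231) (nat_lit 23) (.e (nat_lit 532563) (nat_lit 15) (.e (nat_lit 385094) (nat_lit 49) .nil)))) (.g (nat_lit 0) (.e (nat_lit 193724) (nat_lit 0) .nil) .nil))) 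
(.lf (nat_lit 510528) (.g (nat_lit 2172) (.e (nat_lit 172118) (nat_lit 12) (.e (nat_lit 475211) (nat_lit 41) (.e (nat_lit 712750) (nat_lit 29) (.e (nat_lit 442421) (nat_lit 21) (.e (nat_lit 164345) (nat_lit 240) (.e (nat_lit 2618) (nat_lit 164) .nil)))))) (.g (nat_lit 1) (.e (nat_lit 194895) (nat_lit 0) .nil) .nil)))) (.nd (nat_lit 9) 
(.lf (nat_lit 510272) (.g (nat_lit 2670) (.e (nat_lit 172115) (nat_lit 10) (.e (nat_lit 434244) (nat_lit 28) (.e (nat_lit 573458) (nat_lit 9) (.e (nat_lit 426) (nat_lit 32) (.e (nat_lit 426185) (nat_lit 9) (.e (nat_lit 426354) (nat_lit 15) (.e (nat_lit 1860) (nat_lit 124) (.e (nat_lit 557101) (nat_lit 13) .nil)))))))) (.g (nat_lit 1) (.e (nat_lit 194297) (nat_lit 0) .nil) .nil))) 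
(.lf (nat_lit 510784) (.g (nat_lit 3402) (.e (nat_lit 172120) (nat_lit 12) (.e (nat_lit 475211) (nat_lit 41) (.e (nat_lit 712753) (nat_lit 30) (.e (nat_lit 450564) (nat_lit 0) (.e (nat_lit 5548) (nat_lit 306) (.e (nat_lit 2628) (nat_lit 164) .nil)))))) (.g (nat_lit 1) (.e (nat_lit 195274) (nat_lit 0) .nil) .nil))))) (.nd (nat_lit 8) (.nd (nat_lit 9) 
(.lf (nat_lit 510144) (.g (nat_lit 4188) (.e (nat_lit 172115) (nat_lit 10) (.e (nat_lit 434231) (nat_lit 23) (.e (nat_lit 532567) (nat_lit 16) (.e (nat_lit 401453) (nat_lit 12) (.e (nat_lit 475185) (nat_lit 29) (.e (nat_lit 557101) (nat_lit 13) .nil)))))) (.g (nat_lit 1) (.e (nat_lit 194055) (nat_lit 0) .nil) .nil))) 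
(.lf (nat_lit 510656) (.g (nat_lit 3994) (.e (nat_lit 172120) (nat_lit 12) (.e (nat_lit 475185) (nat_lit 29) (.e (nat_lit 557100) (nat_lit 13) (.e (nat_lit 172120) (nat_lit 12) (.e (nat_lit 475185) (nat_lit 29) (.e (nat_lit 557100) (nat_lit 13) .nil)))))) (.g (nat_lit 1) (.e (nat_lit 195051) (nat_lit 0) .nil) .nil)))) (.nd (nat_lit 9) 
(.lf (nat_lit 510400) (.g (nat_lit 1931) (.e (nat_lit 172116) (nat_lit 10) (.e (nat_lit 434209) (nat_lit 18) (.e (nat_lit 5546) (nat_lit 306) (.e (nat_lit 2649) (nat_lit 166) (.e (nat_lit 188434) (nat_lit 20) .nil))))) (.g (nat_lit 0) (.e (nat_lit 194673) (nat_lit 0) .nil) .nil))) 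
(.lf (nat_lit 510912) (.g (nat_lit 1724) (.e (nat_lit 172123) (nat_lit 13) (.e (nat_lit 483395) (nat_lit 24) (.e (nat_lit 344160) (nat_lit 37) (.e (nat_lit 647201) (nat_lit 12) (.e (nat_lit 57502) (nat_lit 38) .nil))))) (.g (nat_lit 0) (.e (nat_lit 195852) (nat_lit 0) .nil) .nil))))))) (.nd (nat_lit 6) (.nd (nat_lit 7) (.nd (nat_lit 8) (.nd (nat_lit 9) 
(.lf (nat_lit 509984) (.g (nat_lit 749) (.e (nat_lit 172113) (nat_lit 10) (.e (nat_lit 434279) (nat_lit 39) (.e (nat_lit 663580) (nat_lit 9) (.e (nat_lit 7936) (nat_lit 24) .nil)))) (.g (nat_lit 0) (.e (nat_lit 193643) (nat_lit 0) .nil) .nil))) 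
(.lf (nat_lit 510496) (.g (nat_lit 1719) (.e (nat_lit 172118) (nat_lit 12) (.e (nat_lit 475209) (nat_lit 41) (.e (nat_lit 712752) (nat_lit 29) (.e (nat_lit 442421) (nat_lit 21) (.e (nat_lit 164345) (nat_lit 240) (.e (nat_lit 2628) (nat_lit 164) .nil)))))) (.g (nat_lit 1) (.e (nat_lit 194844) (nat_lit 0) .nil) .nil)))) (.nd (nat_lit 9) 
(.lf (nat_lit 510240) (.g (nat_lit 2534) (.e (nat_lit 172115) (nat_lit 10) (.e (nat_lit 434244) (nat_lit 28) (.e (nat_lit 573450) (nat_lit 9) (.e (nat_lit 457) (nat_lit 34) (.e (nat_lit 442377) (nat_lit 0) (.e (nat_lit 1855) (nat_lit 124) (.e (nat_lit 557098) (nat_lit 13) .nil))))))) (.g (nat_lit 1) (.e (nat_lit 194260) (nat_lit 0) .nil) .nil))) 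
(.lf (nat_lit 510752) (.g (nat_lit 2762) (.e (nat_lit 172120) (nat_lit 12) (.e (nat_lit 475210) (nat_lit 41) (.e (nat_lit 712755) (nat_lit 30) (.e (nat_lit 450562) (nat_lit 0) (.e (nat_lit 5537) (nat_lit 306) (.e (nat_lit 2629) (nat_lit 164) .nil)))))) (.g (nat_lit 1) (.e (nat_lit 195224) (nat_lit 0) .nil) .nil))))) (.nd (nat_lit 8) (.nd (nat_lit 9) 
(.lf (nat_lit 510112) (.g (nat_lit 665) (.e (nat_lit 172115) (nat_lit 10) (.e (nat_lit 434231) (nat_lit 23) (.e (nat_lit 532531) (nat_lit 9) (.e (nat_lit 336332) (nat_lit 19) .nil)))) (.g (nat_lit 0) (.e (nat_lit 194012) (nat_lit 0) .nil) .nil))) 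
(.lf (nat_lit 510624) (.g (nat_lit 1599) (.e (nat_lit 172119) (nat_lit 12) (.e (nat_lit 475211) (nat_lit 41) (.e (nat_lit 712755) (nat_lit 30) (.e (nat_lit 450565) (nat_lit 0) .nil)))) (.g (nat_lit 0) (.e (nat_lit 195017) (nat_lit 0) .nil) .nil)))) (.nd (nat_lit 9) 
(.lf (nat_lit 510368) (.g (nat_lit 421) (.e (nat_lit 172115) (nat_lit 10) (.e (nat_lit 434244) (nat_lit 28) (.e (nat_lit 573502) (nat_lit 18) .nil))) (.g (nat_lit 0) (.e (nat_lit 194461) (nat_lit 0) .nil) .nil))) 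
(.lf (nat_lit 510880) (.g (nat_lit 627) (.e (nat_lit 172123) (nat_lit 13) (.e (nat_lit 483337) (nat_lit 9) (.e (nat_lit 426106) (nat_lit 1) .nil))) (.g (nat_lit 0) (.e (nat_lit 195728) (nat_lit 0) .nil) .nil)))))) (.nd (nat_lit 7) (.nd (nat_lit 8) (.nd (nat_lit 9) 
(.lf (nat_lit 510048) (.g (nat_lit 2873) (.e (nat_lit 172115) (nat_lit 10) (.e (nat_lit 434227) (nat_lit 20) (.e (nat_lit 507929) (nat_lit 10) (.e (nat_lit 5627) (nat_lit 312) (.e (nat_lit 3071) (nat_lit 190) (.e (nat_lit 475185) (nat_lit 29) (.e (nat_lit 557101) (nat_lit 13) .nil))))))) (.g (nat_lit 1) (.e (nat_lit 193919) (nat_lit 0) .nil) .nil))) 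
(.lf (nat_lit 510560) (.g (nat_lit 3583) (.e (nat_lit 172119) (nat_lit 12) (.e (nat_lit 475183) (nat_lit 29) (.e (nat_lit 557109) (nat_lit 15) (.e (nat_lit 188434) (nat_lit 20) (.e (nat_lit 3272) (nat_lit 199) .nil))))) (.g (nat_lit 0) (.e (nat_lit 194933) (nat_lit 0) .nil) .nil)))) (.nd (nat_lit 9) 
(.lf (nat_lit 510304) (.g (nat_lit 1832) (.e (nat_lit 172115) (nat_lit 10) (.e (nat_lit 434244) (nat_lit 28) (.e (nat_lit 573471) (nat_lit 11) (.e (nat_lit 16392) (nat_lit 0) .nil)))) (.g (nat_lit 0) (.e (nat_lit 194330) (nat_lit 0) .nil) .nil))) 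
(.lf (nat_lit 510816) (.g (nat_lit 2190) (.e (nat_lit 172121) (nat_lit 13) (.e (nat_lit 483341) (nat_lit 9) (.e (nat_lit 426108) (nat_lit 1) (.e (nat_lit 164401) (nat_lit 256) .nil)))) (.g (nat_lit 0) (.e (nat_lit 195320) (nat_lit 0) .nil) .nil))))) (.nd (nat_lit 8) (.nd (nat_lit 9) 
(.lf (nat_lit 510176) (.g (nat_lit 6063) (.e (nat_lit 172115) (nat_lit 10) (.e (nat_lit 434231) (nat_lit 23) (.e (nat_lit 532569) (nat_lit 16) (.e (nat_lit 401451) (nat_lit 12) (.e (nat_lit 475185) (nat_lit 29) (.e (nat_lit 557098) (nat_lit 13) .nil)))))) (.g (nat_lit 1) (.e (nat_lit 194139) (nat_lit 0) .nil) .nil))) 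
(.lf (nat_lit 510688) (.g (nat_lit 1052) (.e (nat_lit 172120) (nat_lit 12) (.e (nat_lit 475198) (nat_lit 40) (.e (nat_lit 704592) (nat_lit 4) (.e (nat_lit 172094) (nat_lit 9) .nil)))) (.g (nat_lit 0) (.e (nat_lit 195098) (nat_lit 0) .nil) .nil)))) (.nd (nat_lit 9) 
(.lf (nat_lit 510432) (.g (nat_lit 1921) (.e (nat_lit 172116) (nat_lit 10) (.e (nat_lit 434289) (nat_lit 43) (.e (nat_lit 696344) (nat_lit 8) (.e (nat_lit 172106) (nat_lit 10) (.e (nat_lit 434287) (nat_lit 43) .nil))))) (.g (nat_lit 0) (.e (nat_lit 194767) (nat_lit 0) .nil) .nil))) 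
(.lf (nat_lit 510944) (.g (nat_lit 3034) (.e (nat_lit 172124) (nat_lit 14) (.e (nat_lit 491537) (nat_lit 2) (.e (nat_lit 90167) (nat_lit 13) (.e (nat_lit 172126) (nat_lit 14) (.e (nat_lit 491537) (nat_lit 2) (.e (nat_lit 90169) (nat_lit 13) .nil)))))) (.g (nat_lit 1) (.e (nat_lit 196004) (nat_lit 0) .nil) .nil)))))))) 
(.nd (nat_lit 5) (.nd (nat_lit 6) (.nd (nat_lit 7) (.nd (nat_lit 8) (.nd (nat_lit 9) 
(.lf (nat_lit 509968) (.g (nat_lit 464) (.e (nat_lit 172113) (nat_lit 10) (.e (nat_lit 434248) (nat_lit 28) (.e (nat_lit 573503) (nat_lit 18) .nil))) (.g (nat_lit 0) (.e (nat_lit 193588) (nat_lit 0) .nil) .nil))) 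
(.lf (nat_lit 510480) (.g (nat_lit 4251) (.e (nat_lit 172118) (nat_lit 12) (.e (nat_lit 475198) (nat_lit 40) (.e (nat_lit 704598) (nat_lit 6) (.e (nat_lit 188455) (nat_lit 24) (.e (nat_lit 229663) (nat_lit 240) (.e (nat_lit 2630) (nat_lit 164) .nil)))))) (.g (nat_lit 1) (.e (nat_lit 194821) (nat_lit 0) .nil) .nil)))) (.nd (nat_lit 9) 
(.lf (nat_lit 510224) (.g (nat_lit 2592) (.e (nat_lit 172115) (nat_lit 10) (.e (nat_lit 434244) (nat_lit 28) (.e (nat_lit 573450) (nat_lit 9) (.e (nat_lit 375) (nat_lit 32) (.e (nat_lit 426201) (nat_lit 9) (.e (nat_lit 426364) (nat_lit 15) (.e (nat_lit 1858) (nat_lit 124) (.e (nat_lit 557101) (nat_lit 13) .nil)))))))) (.g (nat_lit 1) (.e (nat_lit 194238) (nat_lit 0) .nil) .nil))) 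
(.lf (nat_lit 510736) (.g (nat_lit 2937) (.e (nat_lit 172120) (nat_lit 12) (.e (nat_lit 475210) (nat_lit 41) (.e (nat_lit 712752) (nat_lit 29) (.e (nat_lit 442421) (nat_lit 21) (.e (nat_lit 164345) (nat_lit 240) (.e (nat_lit 2617) (nat_lit 164) .nil)))))) (.g (nat_lit 1) (.e (nat_lit 195194) (nat_lit 0) .nil) .nil))))) (.nd (nat_lit 8) (.nd (nat_lit 9) 
(.lf (nat_lit 510096) (.g (nat_lit 2068) (.e (nat_lit 172115) (nat_lit 10) (.e (nat_lit 434231) (nat_lit 23) (.e (nat_lit 532523) (nat_lit 7) (.e (nat_lit 319534) (nat_lit 16) .nil)))) (.g (nat_lit 0) (.e (nat_lit 193993) (nat_lit 0) .nil) .nil))) 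
(.lf (nat_lit 510608) (.g (nat_lit 2738) (.e (nat_lit 172119) (nat_lit 12) (.e (nat_lit 475211) (nat_lit 41) (.e (nat_lit 712752) (nat_lit 29) (.e (nat_lit 442421) (nat_lit 21) (.e (nat_lit 164348) (nat_lit 240) (.e (nat_lit 2619) (nat_lit 164) .nil)))))) (.g (nat_lit 1) (.e (nat_lit 194997) (nat_lit 0) .nil) .nil)))) (.nd (nat_lit 9) 
(.lf (nat_lit 510352) (.g (nat_lit 3913) (.e (nat_lit 172115) (nat_lit 10) (.e (nat_lit 434244) (nat_lit 28) (.e (nat_lit 573471) (nat_lit 11) (.e (nat_lit 16473) (nat_lit 14) (.e (nat_lit 491573) (nat_lit 15) .nil))))) (.g (nat_lit 0) (.e (nat_lit 194439) (nat_lit 0) .nil) .nil))) 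
(.lf (nat_lit 510864) (.g (nat_lit 1980) (.e (nat_lit 172123) (nat_lit 13) (.e (nat_lit 483337) (nat_lit 9) (.e (nat_lit 426098) (nat_lit 1) (.e (nat_lit 164398) (nat_lit 256) (.e (nat_lit 57369) (nat_lit 2) .nil))))) (.g (nat_lit 0) (.e (nat_lit 195712) (nat_lit 0) .nil) .nil)))))) (.nd (nat_lit 7) (.nd (nat_lit 8) (.nd (nat_lit 9) 
(.lf (nat_lit 510032) (.g (nat_lit 1901) (.e (nat_lit 172115) (nat_lit 10) (.e (nat_lit 434209) (nat_lit 18) (.e (nat_lit 5548) (nat_lit 306) (.e (nat_lit 2648) (nat_lit 166) (.e (nat_lit 188430) (nat_lit 20) .nil))))) (.g (nat_lit 0) (.e (nat_lit 193840) (nat_lit 0) .nil) .nil))) 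
(.lf (nat_lit 510544) (.g (nat_lit 1580) (.e (nat_lit 172118) (nat_lit 12) (.e (nat_lit 475211) (nat_lit 41) (.e (nat_lit 712755) (nat_lit 30) (.e (nat_lit 450560) (nat_lit 0) .nil)))) (.g (nat_lit 0) (.e (nat_lit 194913) (nat_lit 0) .nil) .nil)))) (.nd (nat_lit 9) 
(.lf (nat_lit 510288) (.g (nat_lit 1868) (.e (nat_lit 172115) (nat_lit 10) (.e (nat_lit 434244) (nat_lit 28) (.e (nat_lit 573469) (nat_lit 11) (.e (nat_lit 16460) (nat_lit 12) .nil)))) (.g (nat_lit 0) (.e (nat_lit 194314) (nat_lit 0) .nil) .nil))) 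
(.lf (nat_lit 510800) (.g (nat_lit 2871) (.e (nat_lit 172120) (nat_lit 12) (.e (nat_lit 475211) (nat_lit 41) (.e (nat_lit 712755) (nat_lit 30) (.e (nat_lit 450563) (nat_lit 0) (.e (nat_lit 7936) (nat_lit 306) (.e (nat_lit 2625) (nat_lit 164) .nil)))))) (.g (nat_lit 1) (.e (nat_lit 195301) (nat_lit 0) .nil) .nil))))) (.nd (nat_lit 8) (.nd (nat_lit 9) 
(.lf (nat_lit 510160) (.g (nat_lit 1448) (.e (nat_lit 172115) (nat_lit 10) (.e (nat_lit 434231) (nat_lit 23) (.e (nat_lit 532569) (nat_lit 16) (.e (nat_lit 401435) (nat_lit 9) .nil)))) (.g (nat_lit 0) (.e (nat_lit 194088) (nat_lit 0) .nil) .nil))) 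
(.lf (nat_lit 510672) (.g (nat_lit 2302) (.e (nat_lit 172120) (nat_lit 12) (.e (nat_lit 475185) (nat_lit 29) (.e (nat_lit 557109) (nat_lit 15) (.e (nat_lit 188453) (nat_lit 24) .nil)))) (.g (nat_lit 0) (.e (nat_lit 195067) (nat_lit 0) .nil) .nil)))) (.nd (nat_lit 9) 
(.lf (nat_lit 510416) (.g (nat_lit 3130) (.e (nat_lit 172116) (nat_lit 10) (.e (nat_lit 434231) (nat_lit 23) (.e (nat_lit 532563) (nat_lit 15) (.e (nat_lit 385092) (nat_lit 49) .nil)))) (.g (nat_lit 0) (.e (nat_lit 194698) (nat_lit 0) .nil) .nil))) 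
(.lf (nat_lit 510928) (.g (nat_lit 1337) (.e (nat_lit 172123) (nat_lit 13) (.e (nat_lit 483410) (nat_lit 27) (.e (nat_lit 401444) (nat_lit 9) (.e (nat_lit 425984) (nat_lit 0) .nil)))) (.g (nat_lit 0) (.e (nat_lit 195884) (nat_lit 0) .nil) .nil))))))) (.nd (nat_lit 6) (.nd (nat_lit 7) (.nd (nat_lit 8) (.nd (nat_lit 9) 
(.lf (nat_lit 510000) (.g (nat_lit 3775) (.e (nat_lit 172113) (nat_lit 10) (.e (nat_lit 434289) (nat_lit 43) (.e (nat_lit 696344) (nat_lit 8) (.e (nat_lit 172115) (nat_lit 10) (.e (nat_lit 434289) (nat_lit 43) (.e (nat_lit 696343) (nat_lit 8) .nil)))))) (.g (nat_lit 1) (.e (nat_lit 193704) (nat_lit 0) .nil) .nil))) 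
(.lf (nat_lit 510512) (.g (nat_lit 3353) (.e (nat_lit 172118) (nat_lit 12) (.e (nat_lit 475210) (nat_lit 41) (.e (nat_lit 712753) (nat_lit 30) (.e (nat_lit 450565) (nat_lit 0) (.e (nat_lit 5548) (nat_lit 306) (.e (nat_lit 2619) (nat_lit 164) .nil)))))) (.g (nat_lit 1) (.e (nat_lit 194874) (nat_lit 0) .nil) .nil)))) (.nd (nat_lit 9) 
(.lf (nat_lit 510256) (.g (nat_lit 1614) (.e (nat_lit 172115) (nat_lit 10) (.e (nat_lit 434244) (nat_lit 28) (.e (nat_lit 573452) (nat_lit 9) (.e (nat_lit 430) (nat_lit 32) .nil)))) (.g (nat_lit 0) (.e (nat_lit 194280) (nat_lit 0) .nil) .nil))) 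
(.lf (nat_lit 510768) (.g (nat_lit 1544) (.e (nat_lit 172120) (nat_lit 12) (.e (nat_lit 475211) (nat_lit 41) (.e (nat_lit 712752) (nat_lit 29) (.e (nat_lit 442419) (nat_lit 21) .nil)))) (.g (nat_lit 0) (.e (nat_lit 195256) (nat_lit 0) .nil) .nil))))) (.nd (nat_lit 8) (.nd (nat_lit 9) 
(.lf (nat_lit 510128) (.g (nat_lit 3898) (.e (nat_lit 172115) (nat_lit 10) (.e (nat_lit 434231) (nat_lit 23) (.e (nat_lit 532563) (nat_lit 15) (.e (nat_lit 385103) (nat_lit 50) .nil)))) (.g (nat_lit 0) (.e (nat_lit 194035) (nat_lit 0) .nil) .nil))) 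
(.lf (nat_lit 510640) (.g (nat_lit 2300) (.e (nat_lit 172120) (nat_lit 12) (.e (nat_lit 475185) (nat_lit 29) (.e (nat_lit 557098) (nat_lit 13) (.e (nat_lit 172091) (nat_lit 9) .nil)))) (.g (nat_lit 0) (.e (nat_lit 195035) (nat_lit 0) .nil) .nil)))) (.nd (nat_lit 9) 
(.lf (nat_lit 510384) (.g (nat_lit 933) (.e (nat_lit 172115) (nat_lit 10) (.e (nat_lit 434275) (nat_lit 39) (.e (nat_lit 663589) (nat_lit 14) (.e (nat_lit 2798) (nat_lit 180) .nil)))) (.g (nat_lit 0) (.e (nat_lit 194534) (nat_lit 0) .nil) .nil))) 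
(.lf (nat_lit 510896) (.g (nat_lit 1848) (.e (nat_lit 172123) (nat_lit 13) (.e (nat_lit 483341) (nat_lit 9) (.e (nat_lit 426108) (nat_lit 1) (.e (nat_lit 164403) (nat_lit 256) .nil)))) (.g (nat_lit 0) (.e (nat_lit 195745) (nat_lit 0) .nil) .nil)))))) (.nd (nat_lit 7) (.nd (nat_lit 8) (.nd (nat_lit 9) 
(.lf (nat_lit 510064) (.g (nat_lit 813) (.e (nat_lit 172115) (nat_lit 10) (.e (nat_lit 434231) (nat_lit 23) (.e (nat_lit 532517) (nat_lit 4) .nil))) (.g (nat_lit 0) (.e (nat_lit 193953) (nat_lit 0) .nil) .nil))) 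
(.lf (nat_lit 510576) (.g (nat_lit 3225) (.e (nat_lit 172119) (nat_lit 12) (.e (nat_lit 475198) (nat_lit 40) (.e (nat_lit 704599) (nat_lit 6) (.e (nat_lit 188455) (nat_lit 24) (.e (nat_lit 229663) (nat_lit 240) (.e (nat_lit 2622) (nat_lit 164) .nil)))))) (.g (nat_lit 1) (.e (nat_lit 194950) (nat_lit 0) .nil) .nil)))) (.nd (nat_lit 9) 
(.lf (nat_lit 510320) (.g (nat_lit 3989) (.e (nat_lit 172115) (nat_lit 10) (.e (nat_lit 434244) (nat_lit 28) (.e (nat_lit 573471) (nat_lit 11) (.e (nat_lit 16433) (nat_lit 9) (.e (nat_lit 433920) (nat_lit 15) .nil))))) (.g (nat_lit 0) (.e (nat_lit 194397) (nat_lit 0) .nil) .nil))) 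
(.lf (nat_lit 510832) (.g (nat_lit 1921) (.e (nat_lit 172122) (nat_lit 13) (.e (nat_lit 483337) (nat_lit 9) (.e (nat_lit 426098) (nat_lit 1) (.e (nat_lit 164402) (nat_lit 256) .nil)))) (.g (nat_lit 0) (.e (nat_lit 195491) (nat_lit 0) .nil) .nil))))) (.nd (nat_lit 8) (.nd (nat_lit 9) 
(.lf (nat_lit 510192) (.g (nat_lit 966) (.e (nat_lit 172115) (nat_lit 10) (.e (nat_lit 434238) (nat_lit 25) (.e (nat_lit 548898) (nat_lit 14) (.e (nat_lit 2988) (nat_lit 186) .nil)))) (.g (nat_lit 0) (.e (nat_lit 194197) (nat_lit 0) .nil) .nil))) 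
(.lf (nat_lit 510704) (.g (nat_lit 2981) (.e (nat_lit 172120) (nat_lit 12) (.e (nat_lit 475198) (nat_lit 40) (.e (nat_lit 704598) (nat_lit 6) (.e (nat_lit 188455) (nat_lit 24) (.e (nat_lit 229666) (nat_lit 240) (.e (nat_lit 2630) (nat_lit 164) .nil)))))) (.g (nat_lit 1) (.e (nat_lit 195118) (nat_lit 0) .nil) .nil)))) (.nd (nat_lit 9) 
(.lf (nat_lit 510448) (.g (nat_lit 2218) (.e (nat_lit 172118) (nat_lit 12) (.e (nat_lit 475179) (nat_lit 24) (.e (nat_lit 516124) (nat_lit 2) (.e (nat_lit 213032) (nat_lit 11) (.e (nat_lit 24605) (nat_lit 2) (.e (nat_lit 90170) (nat_lit 13) .nil)))))) (.g (nat_lit 1) (.e (nat_lit 194784) (nat_lit 0) .nil) .nil))) 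
(.lf (nat_lit 510960) (.g (nat_lit 2747) (.e (nat_lit 172124) (nat_lit 14) (.e (nat_lit 491540) (nat_lit 3) (.e (nat_lit 98370) (nat_lit 28) (.e (nat_lit 442430) (nat_lit 24) (.e (nat_lit 229535) (nat_lit 134) (.e (nat_lit 2629) (nat_lit 164) .nil)))))) (.g (nat_lit 1) (.e (nat_lit 196020) (nat_lit 0) .nil) .nil))))))))) 
(.nd (nat_lit 4) (.nd (nat_lit 5) (.nd (nat_lit 6) (.nd (nat_lit 7) (.nd (nat_lit 8) 
(.nd (nat_lit 9) 
(.lf (nat_lit 509960) (.g (nat_lit 1458) (.e (nat_lit 172113) (nat_lit 10) (.e (nat_lit 434248) (nat_lit 28) (.e (nat_lit 573471) (nat_lit 11) (.e (nat_lit 24320) (nat_lit 14) .nil)))) (.g (nat_lit 0) (.e (nat_lit 193578) (nat_lit 0) .nil) .nil))) 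
(.lf (nat_lit 510472) (.g (nat_lit 2532) (.e (nat_lit 172118) (nat_lit 12) (.e (nat_lit 475185) (nat_lit 29) (.e (nat_lit 557109) (nat_lit 15) (.e (nat_lit 188434) (nat_lit 20) (.e (nat_lit 3270) (nat_lit 199) .nil))))) (.g (nat_lit 0) (.e (nat_lit 194811) (nat_lit 0) .nil) .nil)))) (.nd (nat_lit 9) 
(.lf (nat_lit 510216) (.g (nat_lit 1604) (.e (nat_lit 172115) (nat_lit 10) (.e (nat_lit 434244) (nat_lit 28) (.e (nat_lit 573449) (nat_lit 9) (.e (nat_lit 460) (nat_lit 34) .nil)))) (.g (nat_lit 0) (.e (nat_lit 194227) (nat_lit 0) .nil) .nil))) 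
(.lf (nat_lit 510728) (.g (nat_lit 459) (.e (nat_lit 172120) (nat_lit 12) (.e (nat_lit 475209) (nat_lit 41) (.e (nat_lit 712750) (nat_lit 29) .nil))) (.g (nat_lit 0) (.e (nat_lit 195176) (nat_lit 0) .nil) .nil))))) (.nd (nat_lit 8) (.nd (nat_lit 9) 
(.lf (nat_lit 510088) (.g (nat_lit 1899) (.e (nat_lit 172115) (nat_lit 10) (.e (nat_lit 434231) (nat_lit 23) (.e (nat_lit 532523) (nat_lit 7) (.e (nat_lit 319531) (nat_lit 16) .nil)))) (.g (nat_lit 0) (.e (nat_lit 193985) (nat_lit 0) .nil) .nil))) 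
(.lf (nat_lit 510600) (.g (nat_lit 1461) (.e (nat_lit 172119) (nat_lit 12) (.e (nat_lit 475211) (nat_lit 41) (.e (nat_lit 712752) (nat_lit 29) (.e (nat_lit 442377) (nat_lit 0) .nil)))) (.g (nat_lit 0) (.e (nat_lit 194989) (nat_lit 0) .nil) .nil)))) (.nd (nat_lit 9) 
(.lf (nat_lit 510344) (.g (nat_lit 2303) (.e (nat_lit 172115) (nat_lit 10) (.e (nat_lit 434244) (nat_lit 28) (.e (nat_lit 573471) (nat_lit 11) (.e (nat_lit 16446) (nat_lit 9) (.e (nat_lit 426413) (nat_lit 15) .nil))))) (.g (nat_lit 0) (.e (nat_lit 194425) (nat_lit 0) .nil) .nil))) 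
(.lf (nat_lit 510856) (.g (nat_lit 1250) (.e (nat_lit 172122) (nat_lit 13) (.e (nat_lit 483363) (nat_lit 18) (.e (nat_lit 57687) (nat_lit 156) .nil))) (.g (nat_lit 0) (.e (nat_lit 195539) (nat_lit 0) .nil) .nil)))))) (.nd (nat_lit 7) (.nd (nat_lit 8) (.nd (nat_lit 9) 
(.lf (nat_lit 510024) (.g (nat_lit 1172) (.e (nat_lit 172115) (nat_lit 10) (.e (nat_lit 434202) (nat_lit 18) (.e (nat_lit 6830) (nat_lit 367) (.e (nat_lit 57412) (nat_lit 12) .nil)))) (.g (nat_lit 0) (.e (nat_lit 193744) (nat_lit 0) .nil) .nil))) 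
(.lf (nat_lit 510536) (.g (nat_lit 1557) (.e (nat_lit 172118) (nat_lit 12) (.e (nat_lit 475211) (nat_lit 41) (.e (nat_lit 712752) (nat_lit 29) (.e (nat_lit 442419) (nat_lit 21) .nil)))) (.g (nat_lit 0) (.e (nat_lit 194905) (nat_lit 0) .nil) .nil)))) (.nd (nat_lit 9) 
(.lf (nat_lit 510280) (.g (nat_lit 1410) (.e (nat_lit 172115) (nat_lit 10) (.e (nat_lit 434244) (nat_lit 28) (.e (nat_lit 573460) (nat_lit 9) (.e (nat_lit 426) (nat_lit 32) .nil)))) (.g (nat_lit 0) (.e (nat_lit 194305) (nat_lit 0) .nil) .nil))) 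
(.lf (nat_lit 510792) (.g (nat_lit 3398) (.e (nat_lit 172120) (nat_lit 12) (.e (nat_lit 475211) (nat_lit 41) (.e (nat_lit 712753) (nat_lit 30) (.e (nat_lit 450593) (nat_lit 16) (.e (nat_lit 655377) (nat_lit 4) .nil))))) (.g (nat_lit 1) (.e (nat_lit 195284) (nat_lit 0) .nil) .nil))))) (.nd (nat_lit 8) (.nd (nat_lit 9) 
(.lf (nat_lit 510152) (.g (nat_lit 3606) (.e (nat_lit 172115) (nat_lit 10) (.e (nat_lit 434231) (nat_lit 23) (.e (nat_lit 532568) (nat_lit 16) (.e (nat_lit 401453) (nat_lit 12) (.e (nat_lit 475183) (nat_lit 29) (.e (nat_lit 557098) (nat_lit 13) .nil)))))) (.g (nat_lit 1) (.e (nat_lit 194072) (nat_lit 0) .nil) .nil))) 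
(.lf (nat_lit 510664) (.g (nat_lit 886) (.e (nat_lit 172120) (nat_lit 12) (.e (nat_lit 475185) (nat_lit 29) (.e (nat_lit 557106) (nat_lit 15) .nil))) (.g (nat_lit 0) (.e (nat_lit 195059) (nat_lit 0) .nil) .nil)))) (.nd (nat_lit 9) 
(.lf (nat_lit 510408) (.g (nat_lit 2266) (.e (nat_lit 172116) (nat_lit 10) (.e (nat_lit 434209) (nat_lit 18) (.e (nat_lit 5548) (nat_lit 306) (.e (nat_lit 2650) (nat_lit 166) (.e (nat_lit 188427) (nat_lit 20) .nil))))) (.g (nat_lit 0) (.e (nat_lit 194685) (nat_lit 0) .nil) .nil))) 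
(.lf (nat_lit 510920) (.g (nat_lit 2704) (.e (nat_lit 172123) (nat_lit 13) (.e (nat_lit 483406) (nat_lit 26) (.e (nat_lit 385109) (nat_lit 51) (.e (nat_lit 794640) (nat_lit 20) .nil)))) (.g (nat_lit 0) (.e (nat_lit 195871) (nat_lit 0) .nil) .nil))))))) (.nd (nat_lit 6) (.nd (nat_lit 7) (.nd (nat_lit 8) (.nd (nat_lit 9) 
(.lf (nat_lit 509992) (.g (nat_lit 2828) (.e (nat_lit 172113) (nat_lit 10) (.e (nat_lit 434272) (nat_lit 38) (.e (nat_lit 655380) (nat_lit 6) (.e (nat_lit 188434) (nat_lit 20) (.e (nat_lit 3409) (nat_lit 212) (.e (nat_lit 655378) (nat_lit 4) .nil)))))) (.g (nat_lit 1) (.e (nat_lit 193681) (nat_lit 0) .nil) .nil))) 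
(.lf (nat_lit 510504) (.g (nat_lit 1546) (.e (nat_lit 172118) (nat_lit 12) (.e (nat_lit 475210) (nat_lit 41) (.e (nat_lit 712752) (nat_lit 29) (.e (nat_lit 442420) (nat_lit 21) .nil)))) (.g (nat_lit 0) (.e (nat_lit 194864) (nat_lit 0) .nil) .nil)))) (.nd (nat_lit 9) 
(.lf (nat_lit 510248) (.g (nat_lit 2430) (.e (nat_lit 172115) (nat_lit 10) (.e (nat_lit 434244) (nat_lit 28) (.e (nat_lit 573451) (nat_lit 9) (.e (nat_lit 392) (nat_lit 32) .nil)))) (.g (nat_lit 0) (.e (nat_lit 194270) (nat_lit 0) .nil) .nil))) 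
(.lf (nat_lit 510760) (.g (nat_lit 412) (.e (nat_lit 172120) (nat_lit 12) (.e (nat_lit 475211) (nat_lit 41) (.e (nat_lit 712750) (nat_lit 29) .nil))) (.g (nat_lit 0) (.e (nat_lit 195242) (nat_lit 0) .nil) .nil))))) (.nd (nat_lit 8) (.nd (nat_lit 9) 
(.lf (nat_lit 510120) (.g (nat_lit 2431) (.e (nat_lit 172115) (nat_lit 10) (.e (nat_lit 434231) (nat_lit 23) (.e (nat_lit 532544) (nat_lit 10) (.e (nat_lit 344169) (nat_lit 40) (.e (nat_lit 671751) (nat_lit 0) .nil))))) (.g (nat_lit 0) (.e (nat_lit 194026) (nat_lit 0) .nil) .nil))) 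
(.lf (nat_lit 510632) (.g (nat_lit 3517) (.e (nat_lit 172120) (nat_lit 12) (.e (nat_lit 475184) (nat_lit 29) (.e (nat_lit 557109) (nat_lit 15) (.e (nat_lit 188434) (nat_lit 20) (.e (nat_lit 3271) (nat_lit 199) (.e (nat_lit 548913) (nat_lit 18) .nil)))))) (.g (nat_lit 1) (.e (nat_lit 195027) (nat_lit 0) .nil) .nil)))) (.nd (nat_lit 9) 
(.lf (nat_lit 510376) (.g (nat_lit 1545) (.e (nat_lit 172115) (nat_lit 10) (.e (nat_lit 434268) (nat_lit 36) (.e (nat_lit 639020) (nat_lit 16) (.e (nat_lit 65610) (nat_lit 10) (.e (nat_lit 344154) (nat_lit 35) .nil))))) (.g (nat_lit 0) (.e (nat_lit 194479) (nat_lit 0) .nil) .nil))) 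
(.lf (nat_lit 510888) (.g (nat_lit 2413) (.e (nat_lit 172123) (nat_lit 13) (.e (nat_lit 483337) (nat_lit 9) (.e (nat_lit 426108) (nat_lit 1) (.e (nat_lit 164402) (nat_lit 256) (.e (nat_lit 57371) (nat_lit 2) (.e (nat_lit 90168) (nat_lit 13) .nil)))))) (.g (nat_lit 1) (.e (nat_lit 195737) (nat_lit 0) .nil) .nil)))))) (.nd (nat_lit 7) (.nd (nat_lit 8) (.nd (nat_lit 9) 
(.lf (nat_lit 510056) (.g (nat_lit 573) (.e (nat_lit 172115) (nat_lit 10) (.e (nat_lit 434231) (nat_lit 23) (.e (nat_lit 532486) (nat_lit 0) .nil))) (.g (nat_lit 0) (.e (nat_lit 193934) (nat_lit 0) .nil) .nil))) 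
(.lf (nat_lit 510568) (.g (nat_lit 2153) (.e (nat_lit 172119) (nat_lit 12) (.e (nat_lit 475185) (nat_lit 29) (.e (nat_lit 557103) (nat_lit 14) (.e (nat_lit 180282) (nat_lit 45) .nil)))) (.g (nat_lit 0) (.e (nat_lit 194942) (nat_lit 0) .nil) .nil)))) (.nd (nat_lit 9) 
(.lf (nat_lit 510312) (.g (nat_lit 2337) (.e (nat_lit 172115) (nat_lit 10) (.e (nat_lit 434244) (nat_lit 28) (.e (nat_lit 573471) (nat_lit 11) (.e (nat_lit 16431) (nat_lit 9) (.e (nat_lit 426402) (nat_lit 15) .nil))))) (.g (nat_lit 0) (.e (nat_lit 194389) (nat_lit 0) .nil) .nil))) 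
(.lf (nat_lit 510824) (.g (nat_lit 3763) (.e (nat_lit 172121) (nat_lit 13) (.e (nat_lit 483365) (nat_lit 18) (.e (nat_lit 57687) (nat_lit 156) (.e (nat_lit 163903) (nat_lit 12) (.e (nat_lit 426428) (nat_lit 17) (.e (nat_lit 90170) (nat_lit 13) .nil)))))) (.g (nat_lit 1) (.e (nat_lit 195343) (nat_lit 0) .nil) .nil))))) (.nd (nat_lit 8) (.nd (nat_lit 9) 
(.lf (nat_lit 510184) (.g (nat_lit 4242) (.e (nat_lit 172115) (nat_lit 10) (.e (nat_lit 434231) (nat_lit 23) (.e (nat_lit 532569) (nat_lit 16) (.e (nat_lit 401453) (nat_lit 12) (.e (nat_lit 475183) (nat_lit 29) (.e (nat_lit 557098) (nat_lit 13) .nil)))))) (.g (nat_lit 1) (.e (nat_lit 194149) (nat_lit 0) .nil) .nil))) 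
(.lf (nat_lit 510696) (.g (nat_lit 2020) (.e (nat_lit 172120) (nat_lit 12) (.e (nat_lit 475198) (nat_lit 40) (.e (nat_lit 704598) (nat_lit 6) (.e (nat_lit 188453) (nat_lit 24) (.e (nat_lit 229663) (nat_lit 240) (.e (nat_lit 2620) (nat_lit 164) .nil)))))) (.g (nat_lit 1) (.e (nat_lit 195110) (nat_lit 0) .nil) .nil)))) (.nd (nat_lit 9) 
(.lf (nat_lit 510440) (.g (nat_lit 3411) (.e (nat_lit 172116) (nat_lit 10) (.e (nat_lit 434289) (nat_lit 43) (.e (nat_lit 696346) (nat_lit 10) (.e (nat_lit 188434) (nat_lit 20) (.e (nat_lit 3469) (nat_lit 217) (.e (nat_lit 696344) (nat_lit 8) .nil)))))) (.g (nat_lit 1) (.e (nat_lit 194775) (nat_lit 0) .nil) .nil))) 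
(.lf (nat_lit 510952) (.g (nat_lit 736) (.e (nat_lit 172124) (nat_lit 14) (.e (nat_lit 491537) (nat_lit 2) (.e (nat_lit 90175) (nat_lit 15) .nil))) (.g (nat_lit 0) (.e (nat_lit 196012) (nat_lit 0) .nil) .nil)))))))) (.nd (nat_lit 5) (.nd (nat_lit 6) (.nd (nat_lit 7) (.nd (nat_lit 8) (.nd (nat_lit 9) 
(.lf (nat_lit 509976) (.g (nat_lit 2846) (.e (nat_lit 172113) (nat_lit 10) (.e (nat_lit 434268) (nat_lit 36) (.e (nat_lit 639020) (nat_lit 16) (.e (nat_lit 65619) (nat_lit 10) (.e (nat_lit 344156) (nat_lit 36) (.e (nat_lit 638998) (nat_lit 8) .nil)))))) (.g (nat_lit 1) (.e (nat_lit 193609) (nat_lit 0) .nil) .nil))) 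
(.lf (nat_lit 510488) (.g (nat_lit 2272) (.e (nat_lit 172118) (nat_lit 12) (.e (nat_lit 475199) (nat_lit 40) (.e (nat_lit 704598) (nat_lit 6) (.e (nat_lit 188431) (nat_lit 20) (.e (nat_lit 3402) (nat_lit 211) (.e (nat_lit 647183) (nat_lit 4) .nil)))))) (.g (nat_lit 1) (.e (nat_lit 194829) (nat_lit 0) .nil) .nil)))) (.nd (nat_lit 9) 
(.lf (nat_lit 510232) (.g (nat_lit 1919) (.e (nat_lit 172115) (nat_lit 10) (.e (nat_lit 434244) (nat_lit 28) (.e (nat_lit 573450) (nat_lit 9) (.e (nat_lit 414) (nat_lit 32) .nil)))) (.g (nat_lit 0) (.e (nat_lit 194246) (nat_lit 0) .nil) .nil))) 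
(.lf (nat_lit 510744) (.g (nat_lit 3426) (.e (nat_lit 172120) (nat_lit 12) (.e (nat_lit 475210) (nat_lit 41) (.e (nat_lit 712753) (nat_lit 30) (.e (nat_lit 450564) (nat_lit 0) (.e (nat_lit 5548) (nat_lit 306) (.e (nat_lit 2628) (nat_lit 164) .nil)))))) (.g (nat_lit 1) (.e (nat_lit 195209) (nat_lit 0) .nil) .nil))))) (.nd (nat_lit 8) (.nd (nat_lit 9) 
(.lf (nat_lit 510104) (.g (nat_lit 2178) (.e (nat_lit 172115) (nat_lit 10) (.e (nat_lit 434231) (nat_lit 23) (.e (nat_lit 532526) (nat_lit 8) (.e (nat_lit 327717) (nat_lit 17) (.e (nat_lit 294927) (nat_lit 2) (.e (nat_lit 90170) (nat_lit 13) .nil)))))) (.g (nat_lit 1) (.e (nat_lit 194003) (nat_lit 0) .nil) .nil))) 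
(.lf (nat_lit 510616) (.g (nat_lit 1438) (.e (nat_lit 172119) (nat_lit 12) (.e (nat_lit 475211) (nat_lit 41) (.e (nat_lit 712755) (nat_lit 30) (.e (nat_lit 450560) (nat_lit 0) .nil)))) (.g (nat_lit 0) (.e (nat_lit 195007) (nat_lit 0) .nil) .nil)))) (.nd (nat_lit 9) 
(.lf (nat_lit 510360) (.g (nat_lit 2604) (.e (nat_lit 172115) (nat_lit 10) (.e (nat_lit 434244) (nat_lit 28) (.e (nat_lit 573474) (nat_lit 12) (.e (nat_lit 57344) (nat_lit 0) .nil)))) (.g (nat_lit 0) (.e (nat_lit 194448) (nat_lit 0) .nil) .nil))) 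
(.lf (nat_lit 510872) (.g (nat_lit 2640) (.e (nat_lit 172123) (nat_lit 13) (.e (nat_lit 483337) (nat_lit 9) (.e (nat_lit 426100) (nat_lit 1) (.e (nat_lit 164398) (nat_lit 256) (.e (nat_lit 57373) (nat_lit 2) (.e (nat_lit 90167) (nat_lit 13) .nil)))))) (.g (nat_lit 1) (.e (nat_lit 195720) (nat_lit 0) .nil) .nil)))))) (.nd (nat_lit 7) (.nd (nat_lit 8) (.nd (nat_lit 9) 
(.lf (nat_lit 510040) (.g (nat_lit 4801) (.e (nat_lit 172115) (nat_lit 10) (.e (nat_lit 434209) (nat_lit 18) (.e (nat_lit 6425) (nat_lit 342) (.e (nat_lit 229412) (nat_lit 14) (.e (nat_lit 442411) (nat_lit 20) (.e (nat_lit 3469) (nat_lit 217) (.e (nat_lit 696344) (nat_lit 8) .nil))))))) (.g (nat_lit 1) (.e (nat_lit 193891) (nat_lit 0) .nil) .nil))) 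
(.lf (nat_lit 510552) (.g (nat_lit 3459) (.e (nat_lit 172118) (nat_lit 12) (.e (nat_lit 475211) (nat_lit 41) (.e (nat_lit 712755) (nat_lit 30) (.e (nat_lit 450565) (nat_lit 0) (.e (nat_lit 5548) (nat_lit 306) (.e (nat_lit 2619) (nat_lit 164) .nil)))))) (.g (nat_lit 1) (.e (nat_lit 194922) (nat_lit 0) .nil) .nil)))) (.nd (nat_lit 9) 
(.lf (nat_lit 510296) (.g (nat_lit 1969) (.e (nat_lit 172115) (nat_lit 10) (.e (nat_lit 434244) (nat_lit 28) (.e (nat_lit 573470) (nat_lit 11) (.e (nat_lit 16457) (nat_lit 12) .nil)))) (.g (nat_lit 0) (.e (nat_lit 194322) (nat_lit 0) .nil) .nil))) 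
(.lf (nat_lit 510808) (.g (nat_lit 3939) (.e (nat_lit 172120) (nat_lit 12) (.e (nat_lit 475211) (nat_lit 41) (.e (nat_lit 712755) (nat_lit 30) (.e (nat_lit 450593) (nat_lit 16) (.e (nat_lit 655377) (nat_lit 4) .nil))))) (.g (nat_lit 1) (.e (nat_lit 195310) (nat_lit 0) .nil) .nil))))) (.nd (nat_lit 8) (.nd (nat_lit 9) 
(.lf (nat_lit 510168) (.g (nat_lit 2071) (.e (nat_lit 172115) (nat_lit 10) (.e (nat_lit 434231) (nat_lit 23) (.e (nat_lit 532569) (nat_lit 16) (.e (nat_lit 401445) (nat_lit 9) .nil)))) (.g (nat_lit 0) (.e (nat_lit 194102) (nat_lit 0) .nil) .nil))) 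
(.lf (nat_lit 510680) (.g (nat_lit 1908) (.e (nat_lit 172120) (nat_lit 12) (.e (nat_lit 475197) (nat_lit 40) (.e (nat_lit 704598) (nat_lit 6) (.e (nat_lit 188439) (nat_lit 20) (.e (nat_lit 3409) (nat_lit 212) (.e (nat_lit 655376) (nat_lit 4) .nil)))))) (.g (nat_lit 1) (.e (nat_lit 195075) (nat_lit 0) .nil) .nil)))) (.nd (nat_lit 9) 
(.lf (nat_lit 510424) (.g (nat_lit 1281) (.e (nat_lit 172116) (nat_lit 10) (.e (nat_lit 434271) (nat_lit 38) (.e (nat_lit 655378) (nat_lit 4) (.e (nat_lit 172088) (nat_lit 9) .nil)))) (.g (nat_lit 0) (.e (nat_lit 194738) (nat_lit 0) .nil) .nil))) 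
(.lf (nat_lit 510936) (.g (nat_lit 1307) (.e (nat_lit 172123) (nat_lit 13) (.e (nat_lit 483413) (nat_lit 27) (.e (nat_lit 401434) (nat_lit 9) (.e (nat_lit 425986) (nat_lit 0) .nil)))) (.g (nat_lit 0) (.e (nat_lit 195942) (nat_lit 0) .nil) .nil))))))) (.nd (nat_lit 6) (.nd (nat_lit 7) (.nd (nat_lit 8) (.nd (nat_lit 9) 
(.lf (nat_lit 510008) (.g (nat_lit 3954) (.e (nat_lit 172114) (nat_lit 10) (.e (nat_lit 434231) (nat_lit 23) (.e (nat_lit 532523) (nat_lit 7) (.e (nat_lit 319530) (nat_lit 16) (.e (nat_lit 286733) (nat_lit 2) (.e (nat_lit 90167) (nat_lit 13) .nil)))))) (.g (nat_lit 1) (.e (nat_lit 193715) (nat_lit 0) .nil) .nil))) 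
(.lf (nat_lit 510520) (.g (nat_lit 3650) (.e (nat_lit 172118) (nat_lit 12) (.e (nat_lit 475210) (nat_lit 41) (.e (nat_lit 712755) (nat_lit 30) (.e (nat_lit 450564) (nat_lit 0) (.e (nat_lit 5548) (nat_lit 306) (.e (nat_lit 2619) (nat_lit 164) .nil)))))) (.g (nat_lit 1) (.e (nat_lit 194884) (nat_lit 0) .nil) .nil)))) (.nd (nat_lit 9) 
(.lf (nat_lit 510264) (.g (nat_lit 1382) (.e (nat_lit 172115) (nat_lit 10) (.e (nat_lit 434244) (nat_lit 28) (.e (nat_lit 573455) (nat_lit 9) (.e (nat_lit 430) (nat_lit 32) .nil)))) (.g (nat_lit 0) (.e (nat_lit 194289) (nat_lit 0) .nil) .nil))) 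
(.lf (nat_lit 510776) (.g (nat_lit 1544) (.e (nat_lit 172120) (nat_lit 12) (.e (nat_lit 475211) (nat_lit 41) (.e (nat_lit 712752) (nat_lit 29) (.e (nat_lit 442429) (nat_lit 24) .nil)))) (.g (nat_lit 0) (.e (nat_lit 195264) (nat_lit 0) .nil) .nil))))) (.nd (nat_lit 8) (.nd (nat_lit 9) 
(.lf (nat_lit 510136) (.g (nat_lit 2871) (.e (nat_lit 172115) (nat_lit 10) (.e (nat_lit 434231) (nat_lit 23) (.e (nat_lit 532567) (nat_lit 16) (.e (nat_lit 401450) (nat_lit 12) (.e (nat_lit 475185) (nat_lit 29) (.e (nat_lit 557101) (nat_lit 13) .nil)))))) (.g (nat_lit 1) (.e (nat_lit 194046) (nat_lit 0) .nil) .nil))) 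
(.lf (nat_lit 510648) (.g (nat_lit 1777) (.e (nat_lit 172120) (nat_lit 12) (.e (nat_lit 475185) (nat_lit 29) (.e (nat_lit 557100) (nat_lit 13) (.e (nat_lit 172039) (nat_lit 0) .nil)))) (.g (nat_lit 0) (.e (nat_lit 195043) (nat_lit 0) .nil) .nil)))) (.nd (nat_lit 9) 
(.lf (nat_lit 510392) (.g (nat_lit 2414) (.e (nat_lit 172115) (nat_lit 10) (.e (nat_lit 434272) (nat_lit 38) (.e (nat_lit 655378) (nat_lit 4) (.e (nat_lit 172097) (nat_lit 9) (.e (nat_lit 426025) (nat_lit 0) (.e (nat_lit 3397) (nat_lit 211) (.e (nat_lit 647183) (nat_lit 4) .nil))))))) (.g (nat_lit 1) (.e (nat_lit 194618) (nat_lit 0) .nil) .nil))) 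
(.lf (nat_lit 510904) (.g (nat_lit 1715) (.e (nat_lit 172123) (nat_lit 13) (.e (nat_lit 483365) (nat_lit 18) (.e (nat_lit 57688) (nat_lit 156) (.e (nat_lit 163901) (nat_lit 12) .nil)))) (.g (nat_lit 0) (.e (nat_lit 195778) (nat_lit 0) .nil) .nil)))))) (.nd (nat_lit 7) (.nd (nat_lit 8) (.nd (nat_lit 9) 
(.lf (nat_lit 510072) (.g (nat_lit 3437) (.e (nat_lit 172115) (nat_lit 10) (.e (nat_lit 434231) (nat_lit 23) (.e (nat_lit 532523) (nat_lit 7) (.e (nat_lit 319498) (nat_lit 10) .nil)))) (.g (nat_lit 0) (.e (nat_lit 193962) (nat_lit 0) .nil) .nil))) 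
(.lf (nat_lit 510584) (.g (nat_lit 2156) (.e (nat_lit 172119) (nat_lit 12) (.e (nat_lit 475210) (nat_lit 41) (.e (nat_lit 712752) (nat_lit 29) (.e (nat_lit 442421) (nat_lit 21) (.e (nat_lit 164345) (nat_lit 240) (.e (nat_lit 2618) (nat_lit 164) .nil)))))) (.g (nat_lit 1) (.e (nat_lit 194972) (nat_lit 0) .nil) .nil)))) (.nd (nat_lit 9) 
(.lf (nat_lit 510328) (.g (nat_lit 3062) (.e (nat_lit 172115) (nat_lit 10) (.e (nat_lit 434244) (nat_lit 28) (.e (nat_lit 573471) (nat_lit 11) (.e (nat_lit 16436) (nat_lit 9) (.e (nat_lit 426360) (nat_lit 15) .nil))))) (.g (nat_lit 0) (.e (nat_lit 194406) (nat_lit 0) .nil) .nil))) 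
(.lf (nat_lit 510840) (.g (nat_lit 2905) (.e (nat_lit 172122) (nat_lit 13) (.e (nat_lit 483337) (nat_lit 9) (.e (nat_lit 426100) (nat_lit 1) (.e (nat_lit 164403) (nat_lit 256) (.e (nat_lit 57370) (nat_lit 2) .nil))))) (.g (nat_lit 0) (.e (nat_lit 195499) (nat_lit 0) .nil) .nil))))) (.nd (nat_lit 8) (.nd (nat_lit 9) 
(.lf (nat_lit 510200) (.g (nat_lit 4283) (.e (nat_lit 172115) (nat_lit 10) (.e (nat_lit 434238) (nat_lit 25) (.e (nat_lit 548913) (nat_lit 18) (.e (nat_lit 172118) (nat_lit 12) (.e (nat_lit 475185) (nat_lit 29) (.e (nat_lit 557101) (nat_lit 13) .nil)))))) (.g (nat_lit 1) (.e (nat_lit 194208) (nat_lit 0) .nil) .nil))) 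
(.lf (nat_lit 510712) (.g (nat_lit 4058) (.e (nat_lit 172120) (nat_lit 12) (.e (nat_lit 475198) (nat_lit 40) (.e (nat_lit 704599) (nat_lit 6) (.e (nat_lit 188455) (nat_lit 24) (.e (nat_lit 229663) (nat_lit 240) (.e (nat_lit 2621) (nat_lit 164) .nil)))))) (.g (nat_lit 1) (.e (nat_lit 195127) (nat_lit 0) .nil) .nil)))) (.nd (nat_lit 9) 
(.lf (nat_lit 510456) (.g (nat_lit 1871) (.e (nat_lit 172118) (nat_lit 12) (.e (nat_lit 475185) (nat_lit 29) (.e (nat_lit 557098) (nat_lit 13) (.e (nat_lit 172112) (nat_lit 10) .nil)))) (.g (nat_lit 0) (.e (nat_lit 194792) (nat_lit 0) .nil) .nil))) 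
(.lf (nat_lit 510968) (.g (nat_lit 3735) (.e (nat_lit 172124) (nat_lit 14) (.e (nat_lit 491540) (nat_lit 3) (.e (nat_lit 98373) (nat_lit 29) (.e (nat_lit 450562) (nat_lit 0) (.e (nat_lit 3953) (nat_lit 239) .nil))))) (.g (nat_lit 0) (.e (nat_lit 196029) (nat_lit 0) .nil) .nil)))))))))) 
(.nd (nat_lit 3) (.nd (nat_lit 4) (.nd (nat_lit 5) (.nd (nat_lit 6) (.nd (nat_lit 7) 
(.nd (nat_lit 8) (.nd (nat_lit 9) 
(.lf (nat_lit 509956) (.g (nat_lit 2879) (.e (nat_lit 172113) (nat_lit 10) (.e (nat_lit 434248) (nat_lit 28) (.e (nat_lit 573471) (nat_lit 11) (.e (nat_lit 16456) (nat_lit 12) (.e (nat_lit 475183) (nat_lit 29) .nil))))) (.g (nat_lit 0) (.e (nat_lit 193574) (nat_lit 0) .nil) .nil))) 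
(.lf (nat_lit 510468) (.g (nat_lit 726) (.e (nat_lit 172118) (nat_lit 12) (.e (nat_lit 475185) (nat_lit 29) (.e (nat_lit 557104) (nat_lit 14) .nil))) (.g (nat_lit 0) (.e (nat_lit 194807) (nat_lit 0) .nil) .nil)))) (.nd (nat_lit 9) 
(.lf (nat_lit 510212) (.g (nat_lit 1578) (.e (nat_lit 172115) (nat_lit 10) (.e (nat_lit 434244) (nat_lit 28) (.e (nat_lit 573449) (nat_lit 9) (.e (nat_lit 437) (nat_lit 32) .nil)))) (.g (nat_lit 0) (.e (nat_lit 194222) (nat_lit 0) .nil) .nil))) 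
(.lf (nat_lit 510724) (.g (nat_lit 4470) (.e (nat_lit 172120) (nat_lit 12) (.e (nat_lit 475199) (nat_lit 40) (.e (nat_lit 704598) (nat_lit 6) (.e (nat_lit 188455) (nat_lit 24) (.e (nat_lit 229663) (nat_lit 240) (.e (nat_lit 2620) (nat_lit 164) .nil)))))) (.g (nat_lit 1) (.e (nat_lit 195151) (nat_lit 0) .nil) .nil))))) (.nd (nat_lit 8) (.nd (nat_lit 9) 
(.lf (nat_lit 510084) (.g (nat_lit 2937) (.e (nat_lit 172115) (nat_lit 10) (.e (nat_lit 434231) (nat_lit 23) (.e (nat_lit 532523) (nat_lit 7) (.e (nat_lit 319530) (nat_lit 16) (.e (nat_lit 286727) (nat_lit 0) .nil))))) (.g (nat_lit 0) (.e (nat_lit 193981) (nat_lit 0) .nil) .nil))) 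
(.lf (nat_lit 510596) (.g (nat_lit 1279) (.e (nat_lit 172119) (nat_lit 12) (.e (nat_lit 475211) (nat_lit 41) (.e (nat_lit 712750) (nat_lit 29) (.e (nat_lit 442399) (nat_lit 20) .nil)))) (.g (nat_lit 0) (.e (nat_lit 194985) (nat_lit 0) .nil) .nil)))) (.nd (nat_lit 9) 
(.lf (nat_lit 510340) (.g (nat_lit 2304) (.e (nat_lit 172115) (nat_lit 10) (.e (nat_lit 434244) (nat_lit 28) (.e (nat_lit 573471) (nat_lit 11) (.e (nat_lit 16444) (nat_lit 9) (.e (nat_lit 426388) (nat_lit 15) .nil))))) (.g (nat_lit 0) (.e (nat_lit 194418) (nat_lit 0) .nil) .nil))) 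
(.lf (nat_lit 510852) (.g (nat_lit 1520) (.e (nat_lit 172122) (nat_lit 13) (.e (nat_lit 483341) (nat_lit 9) (.e (nat_lit 426108) (nat_lit 1) (.e (nat_lit 164402) (nat_lit 256) .nil)))) (.g (nat_lit 0) (.e (nat_lit 195511) (nat_lit 0) .nil) .nil)))))) (.nd (nat_lit 7) (.nd (nat_lit 8) (.nd (nat_lit 9) 
(.lf (nat_lit 510020) (.g (nat_lit 2558) (.e (nat_lit 172115) (nat_lit 10) (.e (nat_lit 434202) (nat_lit 18) (.e (nat_lit 6416) (nat_lit 341) (.e (nat_lit 163903) (nat_lit 12) (.e (nat_lit 426294) (nat_lit 11) (.e (nat_lit 458810) (nat_lit 43) (.e (nat_lit 696344) (nat_lit 8) .nil))))))) (.g (nat_lit 1) (.e (nat_lit 193736) (nat_lit 0) .nil) .nil))) 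
(.lf (nat_lit 510532) (.g (nat_lit 3779) (.e (nat_lit 172118) (nat_lit 12) (.e (nat_lit 475211) (nat_lit 41) (.e (nat_lit 712750) (nat_lit 29) (.e (nat_lit 442430) (nat_lit 24) (.e (nat_lit 229663) (nat_lit 240) (.e (nat_lit 2630) (nat_lit 164) .nil)))))) (.g (nat_lit 1) (.e (nat_lit 194899) (nat_lit 0) .nil) .nil)))) (.nd (nat_lit 9) 
(.lf (nat_lit 510276) (.g (nat_lit 3256) (.e (nat_lit 172115) (nat_lit 10) (.e (nat_lit 434244) (nat_lit 28) (.e (nat_lit 573458) (nat_lit 9) (.e (nat_lit 426) (nat_lit 32) (.e (nat_lit 426200) (nat_lit 9) (.e (nat_lit 426402) (nat_lit 15) (.e (nat_lit 1849) (nat_lit 124) (.e (nat_lit 557097) (nat_lit 13) .nil)))))))) (.g (nat_lit 1) (.e (nat_lit 194301) (nat_lit 0) .nil) .nil))) 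
(.lf (nat_lit 510788) (.g (nat_lit 2152) (.e (nat_lit 172120) (nat_lit 12) (.e (nat_lit 475211) (nat_lit 41) (.e (nat_lit 712753) (nat_lit 30) (.e (nat_lit 450568) (nat_lit 0) (.e (nat_lit 5448) (nat_lit 306) (.e (nat_lit 2621) (nat_lit 164) .nil)))))) (.g (nat_lit 1) (.e (nat_lit 195279) (nat_lit 0) .nil) .nil))))) (.nd (nat_lit 8) (.nd (nat_lit 9) 
(.lf (nat_lit 510148) (.g (nat_lit 4042) (.e (nat_lit 172115) (nat_lit 10) (.e (nat_lit 434231) (nat_lit 23) (.e (nat_lit 532567) (nat_lit 16) (.e (nat_lit 401454) (nat_lit 12) (.e (nat_lit 475185) (nat_lit 29) (.e (nat_lit 557098) (nat_lit 13) .nil)))))) (.g (nat_lit 1) (.e (nat_lit 194067) (nat_lit 0) .nil) .nil))) 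
(.lf (nat_lit 510660) (.g (nat_lit 2105) (.e (nat_lit 172120) (nat_lit 12) (.e (nat_lit 475185) (nat_lit 29) (.e (nat_lit 557103) (nat_lit 14) (.e (nat_lit 180282) (nat_lit 45) .nil)))) (.g (nat_lit 0) (.e (nat_lit 195055) (nat_lit 0) .nil) .nil)))) (.nd (nat_lit 9) 
(.lf (nat_lit 510404) (.g (nat_lit 2016) (.e (nat_lit 172116) (nat_lit 10) (.e (nat_lit 434209) (nat_lit 18) (.e (nat_lit 5547) (nat_lit 306) (.e (nat_lit 2650) (nat_lit 166) (.e (nat_lit 188441) (nat_lit 20) .nil))))) (.g (nat_lit 0) (.e (nat_lit 194678) (nat_lit 0) .nil) .nil))) 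
(.lf (nat_lit 510916) (.g (nat_lit 3674) (.e (nat_lit 172123) (nat_lit 13) (.e (nat_lit 483403) (nat_lit 26) (.e (nat_lit 385109) (nat_lit 51) (.e (nat_lit 794641) (nat_lit 20) .nil)))) (.g (nat_lit 0) (.e (nat_lit 195858) (nat_lit 0) .nil) .nil))))))) (.nd (nat_lit 6) (.nd (nat_lit 7) (.nd (nat_lit 8) (.nd (nat_lit 9) 
(.lf (nat_lit 509988) (.g (nat_lit 927) (.e (nat_lit 172113) (nat_lit 10) (.e (nat_lit 434271) (nat_lit 38) (.e (nat_lit 655380) (nat_lit 6) (.e (nat_lit 188454) (nat_lit 24) .nil)))) (.g (nat_lit 0) (.e (nat_lit 193655) (nat_lit 0) .nil) .nil))) 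
(.lf (nat_lit 510500) (.g (nat_lit 1546) (.e (nat_lit 172118) (nat_lit 12) (.e (nat_lit 475210) (nat_lit 41) (.e (nat_lit 712752) (nat_lit 29) (.e (nat_lit 442392) (nat_lit 20) .nil)))) (.g (nat_lit 0) (.e (nat_lit 194860) (nat_lit 0) .nil) .nil)))) (.nd (nat_lit 9) 
(.lf (nat_lit 510244) (.g (nat_lit 2682) (.e (nat_lit 172115) (nat_lit 10) (.e (nat_lit 434244) (nat_lit 28) (.e (nat_lit 573450) (nat_lit 9) (.e (nat_lit 459) (nat_lit 34) (.e (nat_lit 442377) (nat_lit 0) (.e (nat_lit 1856) (nat_lit 124) (.e (nat_lit 557101) (nat_lit 13) .nil))))))) (.g (nat_lit 1) (.e (nat_lit 194264) (nat_lit 0) .nil) .nil))) 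
(.lf (nat_lit 510756) (.g (nat_lit 3277) (.e (nat_lit 172120) (nat_lit 12) (.e (nat_lit 475210) (nat_lit 41) (.e (nat_lit 712755) (nat_lit 30) (.e (nat_lit 450565) (nat_lit 0) (.e (nat_lit 5548) (nat_lit 306) (.e (nat_lit 2628) (nat_lit 164) .nil)))))) (.g (nat_lit 1) (.e (nat_lit 195236) (nat_lit 0) .nil) .nil))))) (.nd (nat_lit 8) (.nd (nat_lit 9) 
(.lf (nat_lit 510116) (.g (nat_lit 2243) (.e (nat_lit 172115) (nat_lit 10) (.e (nat_lit 434231) (nat_lit 23) (.e (nat_lit 532535) (nat_lit 9) (.e (nat_lit 336294) (nat_lit 15) .nil)))) (.g (nat_lit 0) (.e (nat_lit 194018) (nat_lit 0) .nil) .nil))) 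
(.lf (nat_lit 510628) (.g (nat_lit 3594) (.e (nat_lit 172119) (nat_lit 12) (.e (nat_lit 475211) (nat_lit 41) (.e (nat_lit 712755) (nat_lit 30) (.e (nat_lit 450593) (nat_lit 16) (.e (nat_lit 655378) (nat_lit 4) .nil))))) (.g (nat_lit 1) (.e (nat_lit 195022) (nat_lit 0) .nil) .nil)))) (.nd (nat_lit 9) 
(.lf (nat_lit 510372) (.g (nat_lit 1403) (.e (nat_lit 172115) (nat_lit 10) (.e (nat_lit 434241) (nat_lit 27) (.e (nat_lit 565269) (nat_lit 6) (.e (nat_lit 81943) (nat_lit 20) (.e (nat_lit 2389) (nat_lit 156) .nil))))) (.g (nat_lit 0) (.e (nat_lit 194475) (nat_lit 0) .nil) .nil))) 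
(.lf (nat_lit 510884) (.g (nat_lit 3720) (.e (nat_lit 172123) (nat_lit 13) (.e (nat_lit 483337) (nat_lit 9) (.e (nat_lit 426107) (nat_lit 1) (.e (nat_lit 164403) (nat_lit 256) (.e (nat_lit 57371) (nat_lit 2) (.e (nat_lit 90167) (nat_lit 13) .nil)))))) (.g (nat_lit 1) (.e (nat_lit 195733) (nat_lit 0) .nil) .nil)))))) (.nd (nat_lit 7) (.nd (nat_lit 8) (.nd (nat_lit 9) 
(.lf (nat_lit 510052) (.g (nat_lit 1355) (.e (nat_lit 172115) (nat_lit 10) (.e (nat_lit 434231) (nat_lit 23) (.e (nat_lit 532481) (nat_lit 0) (.e (nat_lit 6693) (nat_lit 357) .nil)))) (.g (nat_lit 0) (.e (nat_lit 193924) (nat_lit 0) .nil) .nil))) 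
(.lf (nat_lit 510564) (.g (nat_lit 547) (.e (nat_lit 172119) (nat_lit 12) (.e (nat_lit 475185) (nat_lit 29) (.e (nat_lit 557098) (nat_lit 13) .nil))) (.g (nat_lit 0) (.e (nat_lit 194937) (nat_lit 0) .nil) .nil)))) (.nd (nat_lit 9) 
(.lf (nat_lit 510308) (.g (nat_lit 2678) (.e (nat_lit 172115) (nat_lit 10) (.e (nat_lit 434244) (nat_lit 28) (.e (nat_lit 573471) (nat_lit 11) (.e (nat_lit 16403) (nat_lit 0) .nil)))) (.g (nat_lit 0) (.e (nat_lit 194342) (nat_lit 0) .nil) .nil))) 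
(.lf (nat_lit 510820) (.g (nat_lit 1177) (.e (nat_lit 172121) (nat_lit 13) (.e (nat_lit 483363) (nat_lit 18) (.e (nat_lit 57689) (nat_lit 156) .nil))) (.g (nat_lit 0) (.e (nat_lit 195339) (nat_lit 0) .nil) .nil))))) (.nd (nat_lit 8) (.nd (nat_lit 9) 
(.lf (nat_lit 510180) (.g (nat_lit 2592) (.e (nat_lit 172115) (nat_lit 10) (.e (nat_lit 434231) (nat_lit 23) (.e (nat_lit 532569) (nat_lit 16) (.e (nat_lit 401452) (nat_lit 12) (.e (nat_lit 475183) (nat_lit 29) (.e (nat_lit 557101) (nat_lit 13) .nil)))))) (.g (nat_lit 1) (.e (nat_lit 194144) (nat_lit 0) .nil) .nil))) 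
(.lf (nat_lit 510692) (.g (nat_lit 2364) (.e (nat_lit 172120) (nat_lit 12) (.e (nat_lit 475198) (nat_lit 40) (.e (nat_lit 704598) (nat_lit 6) (.e (nat_lit 188444) (nat_lit 21) (.e (nat_lit 164347) (nat_lit 240) (.e (nat_lit 2629) (nat_lit 164) .nil)))))) (.g (nat_lit 1) (.e (nat_lit 195105) (nat_lit 0) .nil) .nil)))) (.nd (nat_lit 9) 
(.lf (nat_lit 510436) (.g (nat_lit 1863) (.e (nat_lit 172116) (nat_lit 10) (.e (nat_lit 434289) (nat_lit 43) (.e (nat_lit 696344) (nat_lit 8) (.e (nat_lit 172113) (nat_lit 10) (.e (nat_lit 434287) (nat_lit 43) .nil))))) (.g (nat_lit 0) (.e (nat_lit 194771) (nat_lit 0) .nil) .nil))) 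
(.lf (nat_lit 510948) (.g (nat_lit 1754) (.e (nat_lit 172124) (nat_lit 14) (.e (nat_lit 491537) (nat_lit 2) (.e (nat_lit 90170) (nat_lit 13) (.e (nat_lit 172095) (nat_lit 9) (.e (nat_lit 433920) (nat_lit 15) .nil))))) (.g (nat_lit 0) (.e (nat_lit 196008) (nat_lit 0) .nil) .nil)))))))) (.nd (nat_lit 5) (.nd (nat_lit 6) (.nd (nat_lit 7) (.nd (nat_lit 8) (.nd (nat_lit 9) 
(.lf (nat_lit 509972) (.g (nat_lit 1110) (.e (nat_lit 172113) (nat_lit 10) (.e (nat_lit 434266) (nat_lit 35) (.e (nat_lit 630821) (nat_lit 16) (.e (nat_lit 65617) (nat_lit 10) (.e (nat_lit 344157) (nat_lit 36) (.e (nat_lit 638999) (nat_lit 8) .nil)))))) (.g (nat_lit 1) (.e (nat_lit 193602) (nat_lit 0) .nil) .nil))) 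
(.lf (nat_lit 510484) (.g (nat_lit 4364) (.e (nat_lit 172118) (nat_lit 12) (.e (nat_lit 475198) (nat_lit 40) (.e (nat_lit 704599) (nat_lit 6) (.e (nat_lit 188453) (nat_lit 24) (.e (nat_lit 229663) (nat_lit 240) (.e (nat_lit 2630) (nat_lit 164) .nil)))))) (.g (nat_lit 1) (.e (nat_lit 194825) (nat_lit 0) .nil) .nil)))) (.nd (nat_lit 9) 
(.lf (nat_lit 510228) (.g (nat_lit 1922) (.e (nat_lit 172115) (nat_lit 10) (.e (nat_lit 434244) (nat_lit 28) (.e (nat_lit 573450) (nat_lit 9) (.e (nat_lit 390) (nat_lit 32) .nil)))) (.g (nat_lit 0) (.e (nat_lit 194242) (nat_lit 0) .nil) .nil))) 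
(.lf (nat_lit 510740) (.g (nat_lit 2813) (.e (nat_lit 172120) (nat_lit 12) (.e (nat_lit 475210) (nat_lit 41) (.e (nat_lit 712752) (nat_lit 29) (.e (nat_lit 442421) (nat_lit 21) (.e (nat_lit 164348) (nat_lit 240) (.e (nat_lit 2629) (nat_lit 164) .nil)))))) (.g (nat_lit 1) (.e (nat_lit 195198) (nat_lit 0) .nil) .nil))))) (.nd (nat_lit 8) (.nd (nat_lit 9) 
(.lf (nat_lit 510100) (.g (nat_lit 4257) (.e (nat_lit 172115) (nat_lit 10) (.e (nat_lit 434231) (nat_lit 23) (.e (nat_lit 532523) (nat_lit 7) (.e (nat_lit 319535) (nat_lit 17) (.e (nat_lit 294927) (nat_lit 2) .nil))))) (.g (nat_lit 0) (.e (nat_lit 193998) (nat_lit 0) .nil) .nil))) 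
(.lf (nat_lit 510612) (.g (nat_lit 1309) (.e (nat_lit 172119) (nat_lit 12) (.e (nat_lit 475211) (nat_lit 41) (.e (nat_lit 712753) (nat_lit 30) (.e (nat_lit 450561) (nat_lit 0) .nil)))) (.g (nat_lit 0) (.e (nat_lit 195001) (nat_lit 0) .nil) .nil)))) (.nd (nat_lit 9) 
(.lf (nat_lit 510356) (.g (nat_lit 3914) (.e (nat_lit 172115) (nat_lit 10) (.e (nat_lit 434244) (nat_lit 28) (.e (nat_lit 573471) (nat_lit 11) (.e (nat_lit 16473) (nat_lit 14) (.e (nat_lit 491575) (nat_lit 15) .nil))))) (.g (nat_lit 0) (.e (nat_lit 194443) (nat_lit 0) .nil) .nil))) 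
(.lf (nat_lit 510868) (.g (nat_lit 3178) (.e (nat_lit 172123) (nat_lit 13) (.e (nat_lit 483337) (nat_lit 9) (.e (nat_lit 426098) (nat_lit 1) (.e (nat_lit 164403) (nat_lit 256) (.e (nat_lit 57371) (nat_lit 2) (.e (nat_lit 90167) (nat_lit 13) .nil)))))) (.g (nat_lit 1) (.e (nat_lit 195716) (nat_lit 0) .nil) .nil)))))) (.nd (nat_lit 7) (.nd (nat_lit 8) (.nd (nat_lit 9) 
(.lf (nat_lit 510036) (.g (nat_lit 1910) (.e (nat_lit 172115) (nat_lit 10) (.e (nat_lit 434209) (nat_lit 18) (.e (nat_lit 6425) (nat_lit 342) (.e (nat_lit 229411) (nat_lit 14) .nil)))) (.g (nat_lit 0) (.e (nat_lit 193887) (nat_lit 0) .nil) .nil))) 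
(.lf (nat_lit 510548) (.g (nat_lit 1202) (.e (nat_lit 172118) (nat_lit 12) (.e (nat_lit 475211) (nat_lit 41) (.e (nat_lit 712755) (nat_lit 30) (.e (nat_lit 450563) (nat_lit 0) .nil)))) (.g (nat_lit 0) (.e (nat_lit 194917) (nat_lit 0) .nil) .nil)))) (.nd (nat_lit 9) 
(.lf (nat_lit 510292) (.g (nat_lit 1947) (.e (nat_lit 172115) (nat_lit 10) (.e (nat_lit 434244) (nat_lit 28) (.e (nat_lit 573470) (nat_lit 11) (.e (nat_lit 16434) (nat_lit 9) .nil)))) (.g (nat_lit 0) (.e (nat_lit 194318) (nat_lit 0) .nil) .nil))) 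
(.lf (nat_lit 510804) (.g (nat_lit 2500) (.e (nat_lit 172120) (nat_lit 12) (.e (nat_lit 475211) (nat_lit 41) (.e (nat_lit 712755) (nat_lit 30) (.e (nat_lit 450568) (nat_lit 0) (.e (nat_lit 5448) (nat_lit 306) (.e (nat_lit 2621) (nat_lit 164) .nil)))))) (.g (nat_lit 1) (.e (nat_lit 195306) (nat_lit 0) .nil) .nil))))) (.nd (nat_lit 8) (.nd (nat_lit 9) 
(.lf (nat_lit 510164) (.g (nat_lit 2959) (.e (nat_lit 172115) (nat_lit 10) (.e (nat_lit 434231) (nat_lit 23) (.e (nat_lit 532569) (nat_lit 16) (.e (nat_lit 401437) (nat_lit 9) (.e (nat_lit 426364) (nat_lit 15) .nil))))) (.g (nat_lit 0) (.e (nat_lit 194093) (nat_lit 0) .nil) .nil))) 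
(.lf (nat_lit 510676) (.g (nat_lit 2945) (.e (nat_lit 172120) (nat_lit 12) (.e (nat_lit 475185) (nat_lit 29) (.e (nat_lit 557109) (nat_lit 15) (.e (nat_lit 188455) (nat_lit 24) (.e (nat_lit 237312) (nat_lit 134) .nil))))) (.g (nat_lit 0) (.e (nat_lit 195071) (nat_lit 0) .nil) .nil)))) (.nd (nat_lit 9) 
(.lf (nat_lit 510420) (.g (nat_lit 3402) (.e (nat_lit 172116) (nat_lit 10) (.e (nat_lit 434238) (nat_lit 25) (.e (nat_lit 548913) (nat_lit 18) (.e (nat_lit 172120) (nat_lit 12) (.e (nat_lit 475185) (nat_lit 29) (.e (nat_lit 557101) (nat_lit 13) .nil)))))) (.g (nat_lit 1) (.e (nat_lit 194712) (nat_lit 0) .nil) .nil))) 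
(.lf (nat_lit 510932) (.g (nat_lit 539) (.e (nat_lit 172123) (nat_lit 13) (.e (nat_lit 483412) (nat_lit 27) (.e (nat_lit 401434) (nat_lit 9) .nil))) (.g (nat_lit 0) (.e (nat_lit 195920) (nat_lit 0) .nil) .nil))))))) (.nd (nat_lit 6) (.nd (nat_lit 7) (.nd (nat_lit 8) (.nd (nat_lit 9) 
(.lf (nat_lit 510004) (.g (nat_lit 2115) (.e (nat_lit 172114) (nat_lit 10) (.e (nat_lit 434231) (nat_lit 23) (.e (nat_lit 532522) (nat_lit 7) (.e (nat_lit 319531) (nat_lit 16) (.e (nat_lit 286733) (nat_lit 2) (.e (nat_lit 90167) (nat_lit 13) .nil)))))) (.g (nat_lit 1) (.e (nat_lit 193710) (nat_lit 0) .nil) .nil))) 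
(.lf (nat_lit 510516) (.g (nat_lit 1328) (.e (nat_lit 172118) (nat_lit 12) (.e (nat_lit 475210) (nat_lit 41) (.e (nat_lit 712755) (nat_lit 30) (.e (nat_lit 450560) (nat_lit 0) .nil)))) (.g (nat_lit 0) (.e (nat_lit 194879) (nat_lit 0) .nil) .nil)))) (.nd (nat_lit 9) 
(.lf (nat_lit 510260) (.g (nat_lit 2525) (.e (nat_lit 172115) (nat_lit 10) (.e (nat_lit 434244) (nat_lit 28) (.e (nat_lit 573454) (nat_lit 9) (.e (nat_lit 412) (nat_lit 32) .nil)))) (.g (nat_lit 0) (.e (nat_lit 194284) (nat_lit 0) .nil) .nil))) 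
(.lf (nat_lit 510772) (.g (nat_lit 3501) (.e (nat_lit 172120) (nat_lit 12) (.e (nat_lit 475211) (nat_lit 41) (.e (nat_lit 712752) (nat_lit 29) (.e (nat_lit 442421) (nat_lit 21) (.e (nat_lit 164347) (nat_lit 240) (.e (nat_lit 2617) (nat_lit 164) .nil)))))) (.g (nat_lit 1) (.e (nat_lit 195260) (nat_lit 0) .nil) .nil))))) (.nd (nat_lit 8) (.nd (nat_lit 9) 
(.lf (nat_lit 510132) (.g (nat_lit 1248) (.e (nat_lit 172115) (nat_lit 10) (.e (nat_lit 434231) (nat_lit 23) (.e (nat_lit 532564) (nat_lit 15) (.e (nat_lit 385096) (nat_lit 49) (.e (nat_lit 786176) (nat_lit 3) .nil))))) (.g (nat_lit 0) (.e (nat_lit 194040) (nat_lit 0) .nil) .nil))) 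
(.lf (nat_lit 510644) (.g (nat_lit 4456) (.e (nat_lit 172120) (nat_lit 12) (.e (nat_lit 475185) (nat_lit 29) (.e (nat_lit 557098) (nat_lit 13) (.e (nat_lit 172120) (nat_lit 12) (.e (nat_lit 475185) (nat_lit 29) (.e (nat_lit 557098) (nat_lit 13) .nil)))))) (.g (nat_lit 1) (.e (nat_lit 195039) (nat_lit 0) .nil) .nil)))) (.nd (nat_lit 9) 
(.lf (nat_lit 510388) (.g (nat_lit 2215) (.e (nat_lit 172115) (nat_lit 10) (.e (nat_lit 434271) (nat_lit 38) (.e (nat_lit 655378) (nat_lit 4) (.e (nat_lit 172097) (nat_lit 9) (.e (nat_lit 426025) (nat_lit 0) (.e (nat_lit 3399) (nat_lit 211) (.e (nat_lit 647183) (nat_lit 4) .nil))))))) (.g (nat_lit 1) (.e (nat_lit 194561) (nat_lit 0) .nil) .nil))) 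
(.lf (nat_lit 510900) (.g (nat_lit 1808) (.e (nat_lit 172123) (nat_lit 13) (.e (nat_lit 483363) (nat_lit 18) (.e (nat_lit 57688) (nat_lit 156) (.e (nat_lit 163904) (nat_lit 12) (.e (nat_lit 426428) (nat_lit 17) .nil))))) (.g (nat_lit 0) (.e (nat_lit 195774) (nat_lit 0) .nil) .nil)))))) (.nd (nat_lit 7) (.nd (nat_lit 8) (.nd (nat_lit 9) 
(.lf (nat_lit 510068) (.g (nat_lit 3841) (.e (nat_lit 172115) (nat_lit 10) (.e (nat_lit 434231) (nat_lit 23) (.e (nat_lit 532522) (nat_lit 7) (.e (nat_lit 319531) (nat_lit 16) (.e (nat_lit 286733) (nat_lit 2) (.e (nat_lit 90168) (nat_lit 13) .nil)))))) (.g (nat_lit 1) (.e (nat_lit 193958) (nat_lit 0) .nil) .nil))) 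
(.lf (nat_lit 510580) (.g (nat_lit 2899) (.e (nat_lit 172119) (nat_lit 12) (.e (nat_lit 475199) (nat_lit 40) (.e (nat_lit 704598) (nat_lit 6) (.e (nat_lit 188446) (nat_lit 21) (.e (nat_lit 164347) (nat_lit 240) (.e (nat_lit 2619) (nat_lit 164) .nil)))))) (.g (nat_lit 1) (.e (nat_lit 194955) (nat_lit 0) .nil) .nil)))) (.nd (nat_lit 9) 
(.lf (nat_lit 510324) (.g (nat_lit 2487) (.e (nat_lit 172115) (nat_lit 10) (.e (nat_lit 434244) (nat_lit 28) (.e (nat_lit 573471) (nat_lit 11) (.e (nat_lit 16435) (nat_lit 9) (.e (nat_lit 426350) (nat_lit 15) .nil))))) (.g (nat_lit 0) (.e (nat_lit 194402) (nat_lit 0) .nil) .nil))) 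
(.lf (nat_lit 510836) (.g (nat_lit 1915) (.e (nat_lit 172122) (nat_lit 13) (.e (nat_lit 483337) (nat_lit 9) (.e (nat_lit 426100) (nat_lit 1) (.e (nat_lit 164396) (nat_lit 256) .nil)))) (.g (nat_lit 0) (.e (nat_lit 195495) (nat_lit 0) .nil) .nil))))) (.nd (nat_lit 8) (.nd (nat_lit 9) 
(.lf (nat_lit 510196) (.g (nat_lit 1144) (.e (nat_lit 172115) (nat_lit 10) (.e (nat_lit 434238) (nat_lit 25) (.e (nat_lit 548898) (nat_lit 14) (.e (nat_lit 3004) (nat_lit 186) (.e (nat_lit 450304) (nat_lit 0) .nil))))) (.g (nat_lit 0) (.e (nat_lit 194202) (nat_lit 0) .nil) .nil))) 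
(.lf (nat_lit 510708) (.g (nat_lit 2641) (.e (nat_lit 172120) (nat_lit 12) (.e (nat_lit 475198) (nat_lit 40) (.e (nat_lit 704599) (nat_lit 6) (.e (nat_lit 188453) (nat_lit 24) (.e (nat_lit 229663) (nat_lit 240) (.e (nat_lit 2621) (nat_lit 164) .nil)))))) (.g (nat_lit 1) (.e (nat_lit 195123) (nat_lit 0) .nil) .nil)))) (.nd (nat_lit 9) 
(.lf (nat_lit 510452) (.g (nat_lit 1119) (.e (nat_lit 172118) (nat_lit 12) (.e (nat_lit 475184) (nat_lit 29) (.e (nat_lit 557107) (nat_lit 15) (.e (nat_lit 188439) (nat_lit 20) .nil)))) (.g (nat_lit 0) (.e (nat_lit 194788) (nat_lit 0) .nil) .nil))) 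
(.lf (nat_lit 510964) (.g (nat_lit 3011) (.e (nat_lit 172124) (nat_lit 14) (.e (nat_lit 491540) (nat_lit 3) (.e (nat_lit 98373) (nat_lit 29) (.e (nat_lit 450560) (nat_lit 0) (.e (nat_lit 3991) (nat_lit 239) (.e (nat_lit 2619) (nat_lit 164) .nil)))))) (.g (nat_lit 1) (.e (nat_lit 196025) (nat_lit 0) .nil) .nil))))))))) 
(.nd (nat_lit 4) (.nd (nat_lit 5) (.nd (nat_lit 6) (.nd (nat_lit 7) (.nd (nat_lit 8) 
(.nd (nat_lit 9) 
(.lf (nat_lit 509964) (.g (nat_lit 3026) (.e (nat_lit 172113) (nat_lit 10) (.e (nat_lit 434248) (nat_lit 28) (.e (nat_lit 573475) (nat_lit 12) (.e (nat_lit 57574) (nat_lit 55) (.e (nat_lit 778465) (nat_lit 11) (.e (nat_lit 24603) (nat_lit 2) (.e (nat_lit 90166) (nat_lit 13) .nil))))))) (.g (nat_lit 1) (.e (nat_lit 193583) (nat_lit 0) .nil) .nil))) 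
(.lf (nat_lit 510476) (.g (nat_lit 2378) (.e (nat_lit 172118) (nat_lit 12) (.e (nat_lit 475198) (nat_lit 40) (.e (nat_lit 704598) (nat_lit 6) (.e (nat_lit 188431) (nat_lit 20) (.e (nat_lit 3402) (nat_lit 211) (.e (nat_lit 647183) (nat_lit 4) .nil)))))) (.g (nat_lit 1) (.e (nat_lit 194817) (nat_lit 0) .nil) .nil)))) (.nd (nat_lit 9) 
(.lf (nat_lit 510220) (.g (nat_lit 1455) (.e (nat_lit 172115) (nat_lit 10) (.e (nat_lit 434244) (nat_lit 28) (.e (nat_lit 573450) (nat_lit 9) (.e (nat_lit 370) (nat_lit 32) .nil)))) (.g (nat_lit 0) (.e (nat_lit 194233) (nat_lit 0) .nil) .nil))) 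
(.lf (nat_lit 510732) (.g (nat_lit 401) (.e (nat_lit 172120) (nat_lit 12) (.e (nat_lit 475210) (nat_lit 41) (.e (nat_lit 712752) (nat_lit 29) .nil))) (.g (nat_lit 0) (.e (nat_lit 195190) (nat_lit 0) .nil) .nil))))) (.nd (nat_lit 8) (.nd (nat_lit 9) 
(.lf (nat_lit 510092) (.g (nat_lit 5883) (.e (nat_lit 172115) (nat_lit 10) (.e (nat_lit 434231) (nat_lit 23) (.e (nat_lit 532523) (nat_lit 7) (.e (nat_lit 319531) (nat_lit 16) (.e (nat_lit 286733) (nat_lit 2) (.e (nat_lit 90170) (nat_lit 13) .nil)))))) (.g (nat_lit 1) (.e (nat_lit 193989) (nat_lit 0) .nil) .nil))) 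
(.lf (nat_lit 510604) (.g (nat_lit 2304) (.e (nat_lit 172119) (nat_lit 12) (.e (nat_lit 475211) (nat_lit 41) (.e (nat_lit 712752) (nat_lit 29) (.e (nat_lit 442421) (nat_lit 21) (.e (nat_lit 164345) (nat_lit 240) .nil))))) (.g (nat_lit 0) (.e (nat_lit 194993) (nat_lit 0) .nil) .nil)))) (.nd (nat_lit 9) 
(.lf (nat_lit 510348) (.g (nat_lit 2059) (.e (nat_lit 172115) (nat_lit 10) (.e (nat_lit 434244) (nat_lit 28) (.e (nat_lit 573471) (nat_lit 11) (.e (nat_lit 16469) (nat_lit 14) .nil)))) (.g (nat_lit 0) (.e (nat_lit 194435) (nat_lit 0) .nil) .nil))) 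
(.lf (nat_lit 510860) (.g (nat_lit 2349) (.e (nat_lit 172122) (nat_lit 13) (.e (nat_lit 483365) (nat_lit 18) (.e (nat_lit 57691) (nat_lit 156) (.e (nat_lit 163907) (nat_lit 12) (.e (nat_lit 426428) (nat_lit 17) .nil))))) (.g (nat_lit 0) (.e (nat_lit 195543) (nat_lit 0) .nil) .nil)))))) (.nd (nat_lit 7) (.nd (nat_lit 8) (.nd (nat_lit 9) 
(.lf (nat_lit 510028) (.g (nat_lit 2319) (.e (nat_lit 172115) (nat_lit 10) (.e (nat_lit 434209) (nat_lit 18) (.e (nat_lit 5547) (nat_lit 306) (.e (nat_lit 2650) (nat_lit 166) (.e (nat_lit 188428) (nat_lit 20) (.e (nat_lit 3402) (nat_lit 211) (.e (nat_lit 647183) (nat_lit 4) .nil))))))) (.g (nat_lit 1) (.e (nat_lit 193806) (nat_lit 0) .nil) .nil))) 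
(.lf (nat_lit 510540) (.g (nat_lit 379) (.e (nat_lit 172118) (nat_lit 12) (.e (nat_lit 475211) (nat_lit 41) (.e (nat_lit 712753) (nat_lit 30) .nil))) (.g (nat_lit 0) (.e (nat_lit 194909) (nat_lit 0) .nil) .nil)))) (.nd (nat_lit 9) 
(.lf (nat_lit 510284) (.g (nat_lit 3431) (.e (nat_lit 172115) (nat_lit 10) (.e (nat_lit 434244) (nat_lit 28) (.e (nat_lit 573469) (nat_lit 11) (.e (nat_lit 16433) (nat_lit 9) (.e (nat_lit 426361) (nat_lit 15) .nil))))) (.g (nat_lit 0) (.e (nat_lit 194310) (nat_lit 0) .nil) .nil))) 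
(.lf (nat_lit 510796) (.g (nat_lit 3044) (.e (nat_lit 172120) (nat_lit 12) (.e (nat_lit 475211) (nat_lit 41) (.e (nat_lit 712755) (nat_lit 30) (.e (nat_lit 450562) (nat_lit 0) (.e (nat_lit 5537) (nat_lit 306) (.e (nat_lit 2629) (nat_lit 164) .nil)))))) (.g (nat_lit 1) (.e (nat_lit 195292) (nat_lit 0) .nil) .nil))))) (.nd (nat_lit 8) (.nd (nat_lit 9) 
(.lf (nat_lit 510156) (.g (nat_lit 3655) (.e (nat_lit 172115) (nat_lit 10) (.e (nat_lit 434231) (nat_lit 23) (.e (nat_lit 532568) (nat_lit 16) (.e (nat_lit 401454) (nat_lit 12) (.e (nat_lit 475183) (nat_lit 29) (.e (nat_lit 557098) (nat_lit 13) .nil)))))) (.g (nat_lit 1) (.e (nat_lit 194077) (nat_lit 0) .nil) .nil))) 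
(.lf (nat_lit 510668) (.g (nat_lit 2723) (.e (nat_lit 172120) (nat_lit 12) (.e (nat_lit 475185) (nat_lit 29) (.e (nat_lit 557108) (nat_lit 15) (.e (nat_lit 188434) (nat_lit 20) .nil)))) (.g (nat_lit 0) (.e (nat_lit 195063) (nat_lit 0) .nil) .nil)))) (.nd (nat_lit 9) 
(.lf (nat_lit 510412) (.g (nat_lit 610) (.e (nat_lit 172116) (nat_lit 10) (.e (nat_lit 434231) (nat_lit 23) (.e (nat_lit 532523) (nat_lit 7) .nil))) (.g (nat_lit 0) (.e (nat_lit 194694) (nat_lit 0) .nil) .nil))) 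
(.lf (nat_lit 510924) (.g (nat_lit 1081) (.e (nat_lit 172123) (nat_lit 13) (.e (nat_lit 483408) (nat_lit 26) (.e (nat_lit 385113) (nat_lit 53) (.e (nat_lit 811031) (nat_lit 11) .nil)))) (.g (nat_lit 0) (.e (nat_lit 195878) (nat_lit 0) .nil) .nil))))))) (.nd (nat_lit 6) (.nd (nat_lit 7) (.nd (nat_lit 8) (.nd (nat_lit 9) 
(.lf (nat_lit 509996) (.g (nat_lit 3642) (.e (nat_lit 172113) (nat_lit 10) (.e (nat_lit 434289) (nat_lit 43) (.e (nat_lit 696343) (nat_lit 8) (.e (nat_lit 172115) (nat_lit 10) (.e (nat_lit 434289) (nat_lit 43) (.e (nat_lit 696344) (nat_lit 8) .nil)))))) (.g (nat_lit 1) (.e (nat_lit 193698) (nat_lit 0) .nil) .nil))) 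
(.lf (nat_lit 510508) (.g (nat_lit 3567) (.e (nat_lit 172118) (nat_lit 12) (.e (nat_lit 475210) (nat_lit 41) (.e (nat_lit 712752) (nat_lit 29) (.e (nat_lit 442421) (nat_lit 21) (.e (nat_lit 164348) (nat_lit 240) (.e (nat_lit 2619) (nat_lit 164) .nil)))))) (.g (nat_lit 1) (.e (nat_lit 194868) (nat_lit 0) .nil) .nil)))) (.nd (nat_lit 9) 
(.lf (nat_lit 510252) (.g (nat_lit 2044) (.e (nat_lit 172115) (nat_lit 10) (.e (nat_lit 434244) (nat_lit 28) (.e (nat_lit 573451) (nat_lit 9) (.e (nat_lit 430) (nat_lit 32) .nil)))) (.g (nat_lit 0) (.e (nat_lit 194275) (nat_lit 0) .nil) .nil))) 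
(.lf (nat_lit 510764) (.g (nat_lit 2506) (.e (nat_lit 172120) (nat_lit 12) (.e (nat_lit 475211) (nat_lit 41) (.e (nat_lit 712750) (nat_lit 29) (.e (nat_lit 442421) (nat_lit 21) (.e (nat_lit 164346) (nat_lit 240) (.e (nat_lit 2618) (nat_lit 164) .nil)))))) (.g (nat_lit 1) (.e (nat_lit 195247) (nat_lit 0) .nil) .nil))))) (.nd (nat_lit 8) (.nd (nat_lit 9) 
(.lf (nat_lit 510124) (.g (nat_lit 4454) (.e (nat_lit 172115) (nat_lit 10) (.e (nat_lit 434231) (nat_lit 23) (.e (nat_lit 532563) (nat_lit 15) (.e (nat_lit 385090) (nat_lit 49) (.e (nat_lit 778318) (nat_lit 3) .nil))))) (.g (nat_lit 0) (.e (nat_lit 194031) (nat_lit 0) .nil) .nil))) 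
(.lf (nat_lit 510636) (.g (nat_lit 3271) (.e (nat_lit 172120) (nat_lit 12) (.e (nat_lit 475185) (nat_lit 29) (.e (nat_lit 557095) (nat_lit 13) (.e (nat_lit 172126) (nat_lit 14) (.e (nat_lit 491537) (nat_lit 2) (.e (nat_lit 90170) (nat_lit 13) .nil)))))) (.g (nat_lit 1) (.e (nat_lit 195031) (nat_lit 0) .nil) .nil)))) (.nd (nat_lit 9) 
(.lf (nat_lit 510380) (.g (nat_lit 1474) (.e (nat_lit 172115) (nat_lit 10) (.e (nat_lit 434275) (nat_lit 39) (.e (nat_lit 663580) (nat_lit 9) (.e (nat_lit 282) (nat_lit 21) .nil)))) (.g (nat_lit 0) (.e (nat_lit 194515) (nat_lit 0) .nil) .nil))) 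
(.lf (nat_lit 510892) (.g (nat_lit 3331) (.e (nat_lit 172123) (nat_lit 13) (.e (nat_lit 483337) (nat_lit 9) (.e (nat_lit 426108) (nat_lit 1) (.e (nat_lit 164403) (nat_lit 256) (.e (nat_lit 57373) (nat_lit 2) (.e (nat_lit 90168) (nat_lit 13) .nil)))))) (.g (nat_lit 1) (.e (nat_lit 195741) (nat_lit 0) .nil) .nil)))))) (.nd (nat_lit 7) (.nd (nat_lit 8) (.nd (nat_lit 9) 
(.lf (nat_lit 510060) (.g (nat_lit 1902) (.e (nat_lit 172115) (nat_lit 10) (.e (nat_lit 434231) (nat_lit 23) (.e (nat_lit 532490) (nat_lit 0) (.e (nat_lit 6676) (nat_lit 357) .nil)))) (.g (nat_lit 0) (.e (nat_lit 193942) (nat_lit 0) .nil) .nil))) 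
(.lf (nat_lit 510572) (.g (nat_lit 2797) (.e (nat_lit 172119) (nat_lit 12) (.e (nat_lit 475198) (nat_lit 40) (.e (nat_lit 704598) (nat_lit 6) (.e (nat_lit 188455) (nat_lit 24) (.e (nat_lit 229663) (nat_lit 240) (.e (nat_lit 2622) (nat_lit 164) .nil)))))) (.g (nat_lit 1) (.e (nat_lit 194946) (nat_lit 0) .nil) .nil)))) (.nd (nat_lit 9) 
(.lf (nat_lit 510316) (.g (nat_lit 3429) (.e (nat_lit 172115) (nat_lit 10) (.e (nat_lit 434244) (nat_lit 28) (.e (nat_lit 573471) (nat_lit 11) (.e (nat_lit 16433) (nat_lit 9) (.e (nat_lit 426350) (nat_lit 15) .nil))))) (.g (nat_lit 0) (.e (nat_lit 194393) (nat_lit 0) .nil) .nil))) 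
(.lf (nat_lit 510828) (.g (nat_lit 1424) (.e (nat_lit 172121) (nat_lit 13) (.e (nat_lit 483413) (nat_lit 27) (.e (nat_lit 401439) (nat_lit 9) (.e (nat_lit 426043) (nat_lit 0) .nil)))) (.g (nat_lit 0) (.e (nat_lit 195450) (nat_lit 0) .nil) .nil))))) (.nd (nat_lit 8) (.nd (nat_lit 9) 
(.lf (nat_lit 510188) (.g (nat_lit 4808) (.e (nat_lit 172115) (nat_lit 10) (.e (nat_lit 434231) (nat_lit 23) (.e (nat_lit 532569) (nat_lit 16) (.e (nat_lit 401453) (nat_lit 12) (.e (nat_lit 475185) (nat_lit 29) (.e (nat_lit 557101) (nat_lit 13) .nil)))))) (.g (nat_lit 1) (.e (nat_lit 194155) (nat_lit 0) .nil) .nil))) 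
(.lf (nat_lit 510700) (.g (nat_lit 3844) (.e (nat_lit 172120) (nat_lit 12) (.e (nat_lit 475198) (nat_lit 40) (.e (nat_lit 704598) (nat_lit 6) (.e (nat_lit 188455) (nat_lit 24) (.e (nat_lit 229663) (nat_lit 240) (.e (nat_lit 2620) (nat_lit 164) .nil)))))) (.g (nat_lit 1) (.e (nat_lit 195114) (nat_lit 0) .nil) .nil)))) (.nd (nat_lit 9) 
(.lf (nat_lit 510444) (.g (nat_lit 3438) (.e (nat_lit 172116) (nat_lit 10) (.e (nat_lit 434289) (nat_lit 43) (.e (nat_lit 696346) (nat_lit 10) (.e (nat_lit 188441) (nat_lit 20) (.e (nat_lit 3469) (nat_lit 217) (.e (nat_lit 696344) (nat_lit 8) .nil)))))) (.g (nat_lit 1) (.e (nat_lit 194779) (nat_lit 0) .nil) .nil))) 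
(.lf (nat_lit 510956) (.g (nat_lit 840) (.e (nat_lit 172124) (nat_lit 14) (.e (nat_lit 491540) (nat_lit 3) (.e (nat_lit 98320) (nat_lit 17) (.e (nat_lit 7306) (nat_lit 388) .nil)))) (.g (nat_lit 0) (.e (nat_lit 196016) (nat_lit 0) .nil) .nil)))))))) (.nd (nat_lit 5) (.nd (nat_lit 6) (.nd (nat_lit 7) (.nd (nat_lit 8) (.nd (nat_lit 9) 
(.lf (nat_lit 509980) (.g (nat_lit 1131) (.e (nat_lit 172113) (nat_lit 10) (.e (nat_lit 434276) (nat_lit 39) (.e (nat_lit 663580) (nat_lit 9) (.e (nat_lit 7936) (nat_lit 23) .nil)))) (.g (nat_lit 0) (.e (nat_lit 193638) (nat_lit 0) .nil) .nil))) 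
(.lf (nat_lit 510492) (.g (nat_lit 2476) (.e (nat_lit 172118) (nat_lit 12) (.e (nat_lit 475199) (nat_lit 40) (.e (nat_lit 704598) (nat_lit 6) (.e (nat_lit 188453) (nat_lit 24) (.e (nat_lit 229665) (nat_lit 240) (.e (nat_lit 2630) (nat_lit 164) .nil)))))) (.g (nat_lit 1) (.e (nat_lit 194833) (nat_lit 0) .nil) .nil)))) (.nd (nat_lit 9) 
(.lf (nat_lit 510236) (.g (nat_lit 1640) (.e (nat_lit 172115) (nat_lit 10) (.e (nat_lit 434244) (nat_lit 28) (.e (nat_lit 573450) (nat_lit 9) (.e (nat_lit 416) (nat_lit 32) (.e (nat_lit 426198) (nat_lit 9) .nil))))) (.g (nat_lit 0) (.e (nat_lit 194250) (nat_lit 0) .nil) .nil))) 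
(.lf (nat_lit 510748) (.g (nat_lit 2293) (.e (nat_lit 172120) (nat_lit 12) (.e (nat_lit 475210) (nat_lit 41) (.e (nat_lit 712753) (nat_lit 30) (.e (nat_lit 450593) (nat_lit 16) (.e (nat_lit 655376) (nat_lit 4) .nil))))) (.g (nat_lit 1) (.e (nat_lit 195216) (nat_lit 0) .nil) .nil))))) (.nd (nat_lit 8) (.nd (nat_lit 9) 
(.lf (nat_lit 510108) (.g (nat_lit 2557) (.e (nat_lit 172115) (nat_lit 10) (.e (nat_lit 434231) (nat_lit 23) (.e (nat_lit 532529) (nat_lit 9) (.e (nat_lit 336265) (nat_lit 15) .nil)))) (.g (nat_lit 0) (.e (nat_lit 194007) (nat_lit 0) .nil) .nil))) 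
(.lf (nat_lit 510620) (.g (nat_lit 1668) (.e (nat_lit 172119) (nat_lit 12) (.e (nat_lit 475211) (nat_lit 41) (.e (nat_lit 712755) (nat_lit 30) (.e (nat_lit 450563) (nat_lit 0) (.e (nat_lit 5537) (nat_lit 306) .nil))))) (.g (nat_lit 0) (.e (nat_lit 195011) (nat_lit 0) .nil) .nil)))) (.nd (nat_lit 9) 
(.lf (nat_lit 510364) (.g (nat_lit 3504) (.e (nat_lit 172115) (nat_lit 10) (.e (nat_lit 434244) (nat_lit 28) (.e (nat_lit 573474) (nat_lit 12) (.e (nat_lit 57352) (nat_lit 0) .nil)))) (.g (nat_lit 0) (.e (nat_lit 194452) (nat_lit 0) .nil) .nil))) 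
(.lf (nat_lit 510876) (.g (nat_lit 2722) (.e (nat_lit 172123) (nat_lit 13) (.e (nat_lit 483337) (nat_lit 9) (.e (nat_lit 426100) (nat_lit 1) (.e (nat_lit 164403) (nat_lit 256) (.e (nat_lit 57370) (nat_lit 2) (.e (nat_lit 90170) (nat_lit 13) .nil)))))) (.g (nat_lit 1) (.e (nat_lit 195724) (nat_lit 0) .nil) .nil)))))) (.nd (nat_lit 7) (.nd (nat_lit 8) (.nd (nat_lit 9) 
(.lf (nat_lit 510044) (.g (nat_lit 1062) (.e (nat_lit 172115) (nat_lit 10) (.e (nat_lit 434209) (nat_lit 18) (.e (nat_lit 6427) (nat_lit 342) (.e (nat_lit 229412) (nat_lit 14) .nil)))) (.g (nat_lit 0) (.e (nat_lit 193914) (nat_lit 0) .nil) .nil))) 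
(.lf (nat_lit 510556) (.g (nat_lit 1102) (.e (nat_lit 172118) (nat_lit 12) (.e (nat_lit 475211) (nat_lit 41) (.e (nat_lit 712755) (nat_lit 30) (.e (nat_lit 450568) (nat_lit 0) .nil)))) (.g (nat_lit 0) (.e (nat_lit 194926) (nat_lit 0) .nil) .nil)))) (.nd (nat_lit 9) 
(.lf (nat_lit 510300) (.g (nat_lit 3476) (.e (nat_lit 172115) (nat_lit 10) (.e (nat_lit 434244) (nat_lit 28) (.e (nat_lit 573471) (nat_lit 11) (.e (nat_lit 16386) (nat_lit 0) (.e (nat_lit 7374) (nat_lit 389) .nil))))) (.g (nat_lit 0) (.e (nat_lit 194326) (nat_lit 0) .nil) .nil))) 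
(.lf (nat_lit 510812) (.g (nat_lit 2522) (.e (nat_lit 172121) (nat_lit 13) (.e (nat_lit 483337) (nat_lit 9) (.e (nat_lit 426100) (nat_lit 1) (.e (nat_lit 164403) (nat_lit 256) (.e (nat_lit 57371) (nat_lit 2) .nil))))) (.g (nat_lit 0) (.e (nat_lit 195316) (nat_lit 0) .nil) .nil))))) (.nd (nat_lit 8) (.nd (nat_lit 9) 
(.lf (nat_lit 510172) (.g (nat_lit 5483) (.e (nat_lit 172115) (nat_lit 10) (.e (nat_lit 434231) (nat_lit 23) (.e (nat_lit 532569) (nat_lit 16) (.e (nat_lit 401451) (nat_lit 12) (.e (nat_lit 475183) (nat_lit 29) (.e (nat_lit 557098) (nat_lit 13) .nil)))))) (.g (nat_lit 1) (.e (nat_lit 194133) (nat_lit 0) .nil) .nil))) 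
(.lf (nat_lit 510684) (.g (nat_lit 2886) (.e (nat_lit 172120) (nat_lit 12) (.e (nat_lit 475197) (nat_lit 40) (.e (nat_lit 704598) (nat_lit 6) (.e (nat_lit 188453) (nat_lit 24) (.e (nat_lit 229666) (nat_lit 240) (.e (nat_lit 2630) (nat_lit 164) .nil)))))) (.g (nat_lit 1) (.e (nat_lit 195086) (nat_lit 0) .nil) .nil)))) (.nd (nat_lit 9) 
(.lf (nat_lit 510428) (.g (nat_lit 1683) (.e (nat_lit 172116) (nat_lit 10) (.e (nat_lit 434272) (nat_lit 38) (.e (nat_lit 655378) (nat_lit 4) (.e (nat_lit 172088) (nat_lit 9) (.e (nat_lit 426025) (nat_lit 0) .nil))))) (.g (nat_lit 0) (.e (nat_lit 194743) (nat_lit 0) .nil) .nil))) 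
(.lf (nat_lit 510940) (.g (nat_lit 1253) (.e (nat_lit 172124) (nat_lit 14) (.e (nat_lit 491537) (nat_lit 2) (.e (nat_lit 90134) (nat_lit 9) (.e (nat_lit 2978) (nat_lit 185) .nil)))) (.g (nat_lit 0) (.e (nat_lit 196000) (nat_lit 0) .nil) .nil))))))) (.nd (nat_lit 6) (.nd (nat_lit 7) (.nd (nat_lit 8) (.nd (nat_lit 9) 
(.lf (nat_lit 510012) (.g (nat_lit 2708) (.e (nat_lit 172114) (nat_lit 10) (.e (nat_lit 434231) (nat_lit 23) (.e (nat_lit 532523) (nat_lit 7) (.e (nat_lit 319534) (nat_lit 16) (.e (nat_lit 286733) (nat_lit 2) .nil))))) (.g (nat_lit 0) (.e (nat_lit 193719) (nat_lit 0) .nil) .nil))) 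
(.lf (nat_lit 510524) (.g (nat_lit 3053) (.e (nat_lit 172118) (nat_lit 12) (.e (nat_lit 475210) (nat_lit 41) (.e (nat_lit 712755) (nat_lit 30) (.e (nat_lit 450565) (nat_lit 0) (.e (nat_lit 5548) (nat_lit 306) (.e (nat_lit 2628) (nat_lit 164) .nil)))))) (.g (nat_lit 1) (.e (nat_lit 194888) (nat_lit 0) .nil) .nil)))) (.nd (nat_lit 9) 
(.lf (nat_lit 510268) (.g (nat_lit 1892) (.e (nat_lit 172115) (nat_lit 10) (.e (nat_lit 434244) (nat_lit 28) (.e (nat_lit 573458) (nat_lit 9) (.e (nat_lit 417) (nat_lit 32) .nil)))) (.g (nat_lit 0) (.e (nat_lit 194293) (nat_lit 0) .nil) .nil))) 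
(.lf (nat_lit 510780) (.g (nat_lit 2472) (.e (nat_lit 172120) (nat_lit 12) (.e (nat_lit 475211) (nat_lit 41) (.e (nat_lit 712753) (nat_lit 30) (.e (nat_lit 450561) (nat_lit 0) (.e (nat_lit 5539) (nat_lit 306) (.e (nat_lit 2625) (nat_lit 164) .nil)))))) (.g (nat_lit 1) (.e (nat_lit 195269) (nat_lit 0) .nil) .nil))))) (.nd (nat_lit 8) (.nd (nat_lit 9) 
(.lf (nat_lit 510140) (.g (nat_lit 3705) (.e (nat_lit 172115) (nat_lit 10) (.e (nat_lit 434231) (nat_lit 23) (.e (nat_lit 532567) (nat_lit 16) (.e (nat_lit 401453) (nat_lit 12) (.e (nat_lit 475183) (nat_lit 29) (.e (nat_lit 557097) (nat_lit 13) .nil)))))) (.g (nat_lit 1) (.e (nat_lit 194050) (nat_lit 0) .nil) .nil))) 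
(.lf (nat_lit 510652) (.g (nat_lit 2206) (.e (nat_lit 172120) (nat_lit 12) (.e (nat_lit 475185) (nat_lit 29) (.e (nat_lit 557100) (nat_lit 13) (.e (nat_lit 172081) (nat_lit 7) (.e (nat_lit 409631) (nat_lit 12) .nil))))) (.g (nat_lit 0) (.e (nat_lit 195047) (nat_lit 0) .nil) .nil)))) (.nd (nat_lit 9) 
(.lf (nat_lit 510396) (.g (nat_lit 393) (.e (nat_lit 172115) (nat_lit 10) (.e (nat_lit 434289) (nat_lit 43) (.e (nat_lit 696344) (nat_lit 8) .nil))) (.g (nat_lit 0) (.e (nat_lit 194653) (nat_lit 0) .nil) .nil))) 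
(.lf (nat_lit 510908) (.g (nat_lit 1839) (.e (nat_lit 172123) (nat_lit 13) (.e (nat_lit 483394) (nat_lit 24) (.e (nat_lit 344160) (nat_lit 37) (.e (nat_lit 647201) (nat_lit 12) (.e (nat_lit 57502) (nat_lit 38) .nil))))) (.g (nat_lit 0) (.e (nat_lit 195846) (nat_lit 0) .nil) .nil)))))) (.nd (nat_lit 7) (.nd (nat_lit 8) (.nd (nat_lit 9) 
(.lf (nat_lit 510076) (.g (nat_lit 3171) (.e (nat_lit 172115) (nat_lit 10) (.e (nat_lit 434231) (nat_lit 23) (.e (nat_lit 532523) (nat_lit 7) (.e (nat_lit 319504) (nat_lit 10) (.e (nat_lit 7936) (nat_lit 313) .nil))))) (.g (nat_lit 0) (.e (nat_lit 193966) (nat_lit 0) .nil) .nil))) 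
(.lf (nat_lit 510588) (.g (nat_lit 452) (.e (nat_lit 172119) (nat_lit 12) (.e (nat_lit 475210) (nat_lit 41) (.e (nat_lit 712753) (nat_lit 30) .nil))) (.g (nat_lit 0) (.e (nat_lit 194976) (nat_lit 0) .nil) .nil)))) (.nd (nat_lit 9) 
(.lf (nat_lit 510332) (.g (nat_lit 1236) (.e (nat_lit 172115) (nat_lit 10) (.e (nat_lit 434244) (nat_lit 28) (.e (nat_lit 573471) (nat_lit 11) (.e (nat_lit 16440) (nat_lit 9) .nil)))) (.g (nat_lit 0) (.e (nat_lit 194410) (nat_lit 0) .nil) .nil))) 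
(.lf (nat_lit 510844) (.g (nat_lit 3885) (.e (nat_lit 172122) (nat_lit 13) (.e (nat_lit 483337) (nat_lit 9) (.e (nat_lit 426107) (nat_lit 1) (.e (nat_lit 164403) (nat_lit 256) (.e (nat_lit 57373) (nat_lit 2) (.e (nat_lit 90169) (nat_lit 13) .nil)))))) (.g (nat_lit 1) (.e (nat_lit 195503) (nat_lit 0) .nil) .nil))))) (.nd (nat_lit 8) (.nd (nat_lit 9) 
(.lf (nat_lit 510204) (.g (nat_lit 3289) (.e (nat_lit 172115) (nat_lit 10) (.e (nat_lit 434238) (nat_lit 25) (.e (nat_lit 548913) (nat_lit 18) (.e (nat_lit 172124) (nat_lit 14) (.e (nat_lit 491537) (nat_lit 2) (.e (nat_lit 90170) (nat_lit 13) .nil)))))) (.g (nat_lit 1) (.e (nat_lit 194212) (nat_lit 0) .nil) .nil))) 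
(.lf (nat_lit 510716) (.g (nat_lit 2501) (.e (nat_lit 172120) (nat_lit 12) (.e (nat_lit 475199) (nat_lit 40) (.e (nat_lit 704598) (nat_lit 6) (.e (nat_lit 188431) (nat_lit 20) (.e (nat_lit 3402) (nat_lit 211) (.e (nat_lit 647183) (nat_lit 4) .nil)))))) (.g (nat_lit 1) (.e (nat_lit 195136) (nat_lit 0) .nil) .nil)))) (.nd (nat_lit 9) 
(.lf (nat_lit 510460) (.g (nat_lit 2183) (.e (nat_lit 172118) (nat_lit 12) (.e (nat_lit 475185) (nat_lit 29) (.e (nat_lit 557099) (nat_lit 13) (.e (nat_lit 172126) (nat_lit 14) (.e (nat_lit 491537) (nat_lit 2) (.e (nat_lit 90170) (nat_lit 13) .nil)))))) (.g (nat_lit 1) (.e (nat_lit 194796) (nat_lit 0) .nil) .nil))) 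
(.lf (nat_lit 510972) (.g (nat_lit 3739) (.e (nat_lit 172124) (nat_lit 14) (.e (nat_lit 491540) (nat_lit 3) (.e (nat_lit 98373) (nat_lit 29) (.e (nat_lit 450563) (nat_lit 0) (.e (nat_lit 3955) (nat_lit 239) .nil))))) (.g (nat_lit 0) (.e (nat_lit 196033) (nat_lit 0) .nil) .nil))))))))))) 
(.nd (nat_lit 2) (.nd (nat_lit 3) (.nd (nat_lit 4) (.nd (nat_lit 5) (.nd (nat_lit 6) 
(.nd (nat_lit 7) (.nd (nat_lit 8) (.nd (nat_lit 9) 
(.lf (nat_lit 509954) (.g (nat_lit 1460) (.e (nat_lit 172113) (nat_lit 10) (.e (nat_lit 434248) (nat_lit 28) (.e (nat_lit 573471) (nat_lit 11) (.e (nat_lit 16439) (nat_lit 9) .nil)))) (.g (nat_lit 0) (.e (nat_lit 193571) (nat_lit 0) .nil) .nil))) 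
(.lf (nat_lit 510466) (.g (nat_lit 2060) (.e (nat_lit 172118) (nat_lit 12) (.e (nat_lit 475185) (nat_lit 29) (.e (nat_lit 557100) (nat_lit 13) (.e (nat_lit 172081) (nat_lit 7) .nil)))) (.g (nat_lit 0) (.e (nat_lit 194802) (nat_lit 0) .nil) .nil)))) (.nd (nat_lit 9) 
(.lf (nat_lit 510210) (.g (nat_lit 1604) (.e (nat_lit 172115) (nat_lit 10) (.e (nat_lit 434244) (nat_lit 28) (.e (nat_lit 573449) (nat_lit 9) (.e (nat_lit 388) (nat_lit 32) .nil)))) (.g (nat_lit 0) (.e (nat_lit 194220) (nat_lit 0) .nil) .nil))) 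
(.lf (nat_lit 510722) (.g (nat_lit 3634) (.e (nat_lit 172120) (nat_lit 12) (.e (nat_lit 475199) (nat_lit 40) (.e (nat_lit 704598) (nat_lit 6) (.e (nat_lit 188453) (nat_lit 24) (.e (nat_lit 229665) (nat_lit 240) (.e (nat_lit 2630) (nat_lit 164) .nil)))))) (.g (nat_lit 1) (.e (nat_lit 195148) (nat_lit 0) .nil) .nil))))) (.nd (nat_lit 8) (.nd (nat_lit 9) 
(.lf (nat_lit 510082) (.g (nat_lit 3059) (.e (nat_lit 172115) (nat_lit 10) (.e (nat_lit 434231) (nat_lit 23) (.e (nat_lit 532523) (nat_lit 7) (.e (nat_lit 319528) (nat_lit 16) .nil)))) (.g (nat_lit 0) (.e (nat_lit 193979) (nat_lit 0) .nil) .nil))) 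
(.lf (nat_lit 510594) (.g (nat_lit 2509) (.e (nat_lit 172119) (nat_lit 12) (.e (nat_lit 475210) (nat_lit 41) (.e (nat_lit 712755) (nat_lit 30) (.e (nat_lit 450593) (nat_lit 16) (.e (nat_lit 655378) (nat_lit 4) .nil))))) (.g (nat_lit 1) (.e (nat_lit 194983) (nat_lit 0) .nil) .nil)))) (.nd (nat_lit 9) 
(.lf (nat_lit 510338) (.g (nat_lit 2292) (.e (nat_lit 172115) (nat_lit 10) (.e (nat_lit 434244) (nat_lit 28) (.e (nat_lit 573471) (nat_lit 11) (.e (nat_lit 16444) (nat_lit 9) (.e (nat_lit 426386) (nat_lit 15) .nil))))) (.g (nat_lit 0) (.e (nat_lit 194416) (nat_lit 0) .nil) .nil))) 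
(.lf (nat_lit 510850) (.g (nat_lit 2424) (.e (nat_lit 172122) (nat_lit 13) (.e (nat_lit 483341) (nat_lit 9) (.e (nat_lit 426107) (nat_lit 1) (.e (nat_lit 164403) (nat_lit 256) .nil)))) (.g (nat_lit 0) (.e (nat_lit 195509) (nat_lit 0) .nil) .nil)))))) (.nd (nat_lit 7) (.nd (nat_lit 8) (.nd (nat_lit 9) 
(.lf (nat_lit 510018) (.g (nat_lit 4123) (.e (nat_lit 172115) (nat_lit 10) (.e (nat_lit 434202) (nat_lit 18) (.e (nat_lit 6255) (nat_lit 337) (.e (nat_lit 2651) (nat_lit 166) (.e (nat_lit 188439) (nat_lit 20) (.e (nat_lit 3469) (nat_lit 217) (.e (nat_lit 696344) (nat_lit 8) .nil))))))) (.g (nat_lit 1) (.e (nat_lit 193734) (nat_lit 0) .nil) .nil))) 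
(.lf (nat_lit 510530) (.g (nat_lit 2768) (.e (nat_lit 172118) (nat_lit 12) (.e (nat_lit 475211) (nat_lit 41) (.e (nat_lit 712750) (nat_lit 29) (.e (nat_lit 442421) (nat_lit 21) (.e (nat_lit 164347) (nat_lit 240) (.e (nat_lit 2619) (nat_lit 164) .nil)))))) (.g (nat_lit 1) (.e (nat_lit 194897) (nat_lit 0) .nil) .nil)))) (.nd (nat_lit 9) 
(.lf (nat_lit 510274) (.g (nat_lit 3367) (.e (nat_lit 172115) (nat_lit 10) (.e (nat_lit 434244) (nat_lit 28) (.e (nat_lit 573458) (nat_lit 9) (.e (nat_lit 426) (nat_lit 32) (.e (nat_lit 426188) (nat_lit 9) (.e (nat_lit 426402) (nat_lit 15) (.e (nat_lit 1859) (nat_lit 124) (.e (nat_lit 557098) (nat_lit 13) .nil)))))))) (.g (nat_lit 1) (.e (nat_lit 194299) (nat_lit 0) .nil) .nil))) 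
(.lf (nat_lit 510786) (.g (nat_lit 3307) (.e (nat_lit 172120) (nat_lit 12) (.e (nat_lit 475211) (nat_lit 41) (.e (nat_lit 712753) (nat_lit 30) (.e (nat_lit 450565) (nat_lit 0) (.e (nat_lit 5548) (nat_lit 306) (.e (nat_lit 2628) (nat_lit 164) .nil)))))) (.g (nat_lit 1) (.e (nat_lit 195277) (nat_lit 0) .nil) .nil))))) (.nd (nat_lit 8) (.nd (nat_lit 9) 
(.lf (nat_lit 510146) (.g (nat_lit 4063) (.e (nat_lit 172115) (nat_lit 10) (.e (nat_lit 434231) (nat_lit 23) (.e (nat_lit 532567) (nat_lit 16) (.e (nat_lit 401454) (nat_lit 12) (.e (nat_lit 475183) (nat_lit 29) (.e (nat_lit 557101) (nat_lit 13) .nil)))))) (.g (nat_lit 1) (.e (nat_lit 194063) (nat_lit 0) .nil) .nil))) 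
(.lf (nat_lit 510658) (.g (nat_lit 2056) (.e (nat_lit 172120) (nat_lit 12) (.e (nat_lit 475185) (nat_lit 29) (.e (nat_lit 557100) (nat_lit 13) (.e (nat_lit 172125) (nat_lit 14) .nil)))) (.g (nat_lit 0) (.e (nat_lit 195053) (nat_lit 0) .nil) .nil)))) (.nd (nat_lit 9) 
(.lf (nat_lit 510402) (.g (nat_lit 1252) (.e (nat_lit 172116) (nat_lit 10) (.e (nat_lit 434209) (nat_lit 18) (.e (nat_lit 5547) (nat_lit 306) (.e (nat_lit 2648) (nat_lit 166) .nil)))) (.g (nat_lit 0) (.e (nat_lit 194675) (nat_lit 0) .nil) .nil))) 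
(.lf (nat_lit 510914) (.g (nat_lit 919) (.e (nat_lit 172123) (nat_lit 13) (.e (nat_lit 483403) (nat_lit 26) (.e (nat_lit 385109) (nat_lit 51) .nil))) (.g (nat_lit 0) (.e (nat_lit 195855) (nat_lit 0) .nil) .nil))))))) (.nd (nat_lit 6) (.nd (nat_lit 7) (.nd (nat_lit 8) (.nd (nat_lit 9) 
(.lf (nat_lit 509986) (.g (nat_lit 1299) (.e (nat_lit 172113) (nat_lit 10) (.e (nat_lit 434271) (nat_lit 38) (.e (nat_lit 655378) (nat_lit 4) (.e (nat_lit 172095) (nat_lit 9) .nil)))) (.g (nat_lit 0) (.e (nat_lit 193646) (nat_lit 0) .nil) .nil))) 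
(.lf (nat_lit 510498) (.g (nat_lit 449) (.e (nat_lit 172118) (nat_lit 12) (.e (nat_lit 475210) (nat_lit 41) (.e (nat_lit 712750) (nat_lit 29) .nil))) (.g (nat_lit 0) (.e (nat_lit 194847) (nat_lit 0) .nil) .nil)))) (.nd (nat_lit 9) 
(.lf (nat_lit 510242) (.g (nat_lit 2582) (.e (nat_lit 172115) (nat_lit 10) (.e (nat_lit 434244) (nat_lit 28) (.e (nat_lit 573450) (nat_lit 9) (.e (nat_lit 459) (nat_lit 34) (.e (nat_lit 442377) (nat_lit 0) .nil))))) (.g (nat_lit 0) (.e (nat_lit 194262) (nat_lit 0) .nil) .nil))) 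
(.lf (nat_lit 510754) (.g (nat_lit 3019) (.e (nat_lit 172120) (nat_lit 12) (.e (nat_lit 475210) (nat_lit 41) (.e (nat_lit 712755) (nat_lit 30) (.e (nat_lit 450564) (nat_lit 0) (.e (nat_lit 5548) (nat_lit 306) (.e (nat_lit 2629) (nat_lit 164) .nil)))))) (.g (nat_lit 1) (.e (nat_lit 195233) (nat_lit 0) .nil) .nil))))) (.nd (nat_lit 8) (.nd (nat_lit 9) 
(.lf (nat_lit 510114) (.g (nat_lit 2636) (.e (nat_lit 172115) (nat_lit 10) (.e (nat_lit 434231) (nat_lit 23) (.e (nat_lit 532535) (nat_lit 9) (.e (nat_lit 336253) (nat_lit 15) .nil)))) (.g (nat_lit 0) (.e (nat_lit 194016) (nat_lit 0) .nil) .nil))) 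
(.lf (nat_lit 510626) (.g (nat_lit 1244) (.e (nat_lit 172119) (nat_lit 12) (.e (nat_lit 475211) (nat_lit 41) (.e (nat_lit 712755) (nat_lit 30) (.e (nat_lit 450568) (nat_lit 0) .nil)))) (.g (nat_lit 0) (.e (nat_lit 195019) (nat_lit 0) .nil) .nil)))) (.nd (nat_lit 9) 
(.lf (nat_lit 510370) (.g (nat_lit 1409) (.e (nat_lit 172115) (nat_lit 10) (.e (nat_lit 434244) (nat_lit 28) (.e (nat_lit 573503) (nat_lit 18) (.e (nat_lit 1358) (nat_lit 102) .nil)))) (.g (nat_lit 0) (.e (nat_lit 194472) (nat_lit 0) .nil) .nil))) 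
(.lf (nat_lit 510882) (.g (nat_lit 2243) (.e (nat_lit 172123) (nat_lit 13) (.e (nat_lit 483337) (nat_lit 9) (.e (nat_lit 426107) (nat_lit 1) (.e (nat_lit 164402) (nat_lit 256) (.e (nat_lit 57371) (nat_lit 2) (.e (nat_lit 90167) (nat_lit 13) .nil)))))) (.g (nat_lit 1) (.e (nat_lit 195731) (nat_lit 0) .nil) .nil)))))) (.nd (nat_lit 7) (.nd (nat_lit 8) (.nd (nat_lit 9) 
(.lf (nat_lit 510050) (.g (nat_lit 2953) (.e (nat_lit 172115) (nat_lit 10) (.e (nat_lit 434227) (nat_lit 20) (.e (nat_lit 507944) (nat_lit 18) (.e (nat_lit 303143) (nat_lit 12) (.e (nat_lit 475185) (nat_lit 29) (.e (nat_lit 557101) (nat_lit 13) .nil)))))) (.g (nat_lit 1) (.e (nat_lit 193921) (nat_lit 0) .nil) .nil))) 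
(.lf (nat_lit 510562) (.g (nat_lit 1787) (.e (nat_lit 172119) (nat_lit 12) (.e (nat_lit 475184) (nat_lit 29) (.e (nat_lit 557109) (nat_lit 15) (.e (nat_lit 188441) (nat_lit 20) .nil)))) (.g (nat_lit 0) (.e (nat_lit 194935) (nat_lit 0) .nil) .nil)))) (.nd (nat_lit 9) 
(.lf (nat_lit 510306) (.g (nat_lit 2997) (.e (nat_lit 172115) (nat_lit 10) (.e (nat_lit 434244) (nat_lit 28) (.e (nat_lit 573471) (nat_lit 11) (.e (nat_lit 16401) (nat_lit 0) .nil)))) (.g (nat_lit 0) (.e (nat_lit 194340) (nat_lit 0) .nil) .nil))) 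
(.lf (nat_lit 510818) (.g (nat_lit 741) (.e (nat_lit 172121) (nat_lit 13) (.e (nat_lit 483341) (nat_lit 9) (.e (nat_lit 433920) (nat_lit 1) .nil))) (.g (nat_lit 0) (.e (nat_lit 195322) (nat_lit 0) .nil) .nil))))) (.nd (nat_lit 8) (.nd (nat_lit 9) 
(.lf (nat_lit 510178) (.g (nat_lit 3012) (.e (nat_lit 172115) (nat_lit 10) (.e (nat_lit 434231) (nat_lit 23) (.e (nat_lit 532569) (nat_lit 16) (.e (nat_lit 401452) (nat_lit 12) (.e (nat_lit 475183) (nat_lit 29) (.e (nat_lit 557097) (nat_lit 13) .nil)))))) (.g (nat_lit 1) (.e (nat_lit 194142) (nat_lit 0) .nil) .nil))) 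
(.lf (nat_lit 510690) (.g (nat_lit 2421) (.e (nat_lit 172120) (nat_lit 12) (.e (nat_lit 475198) (nat_lit 40) (.e (nat_lit 704598) (nat_lit 6) (.e (nat_lit 188431) (nat_lit 20) (.e (nat_lit 3402) (nat_lit 211) (.e (nat_lit 647183) (nat_lit 4) .nil)))))) (.g (nat_lit 1) (.e (nat_lit 195103) (nat_lit 0) .nil) .nil)))) (.nd (nat_lit 9) 
(.lf (nat_lit 510434) (.g (nat_lit 3796) (.e (nat_lit 172116) (nat_lit 10) (.e (nat_lit 434289) (nat_lit 43) (.e (nat_lit 696344) (nat_lit 8) (.e (nat_lit 172106) (nat_lit 10) (.e (nat_lit 434289) (nat_lit 43) (.e (nat_lit 696344) (nat_lit 8) .nil)))))) (.g (nat_lit 1) (.e (nat_lit 194769) (nat_lit 0) .nil) .nil))) 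
(.lf (nat_lit 510946) (.g (nat_lit 333) (.e (nat_lit 172124) (nat_lit 14) (.e (nat_lit 491537) (nat_lit 2) (.e (nat_lit 90170) (nat_lit 13) .nil))) (.g (nat_lit 0) (.e (nat_lit 196006) (nat_lit 0) .nil) .nil)))))))) (.nd (nat_lit 5) (.nd (nat_lit 6) (.nd (nat_lit 7) (.nd (nat_lit 8) (.nd (nat_lit 9) 
(.lf (nat_lit 509970) (.g (nat_lit 919) (.e (nat_lit 172113) (nat_lit 10) (.e (nat_lit 434241) (nat_lit 27) (.e (nat_lit 565269) (nat_lit 6) (.e (nat_lit 81942) (nat_lit 20) (.e (nat_lit 2389) (nat_lit 156) .nil))))) (.g (nat_lit 0) (.e (nat_lit 193600) (nat_lit 0) .nil) .nil))) 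
(.lf (nat_lit 510482) (.g (nat_lit 2126) (.e (nat_lit 172118) (nat_lit 12) (.e (nat_lit 475198) (nat_lit 40) (.e (nat_lit 704599) (nat_lit 6) (.e (nat_lit 188446) (nat_lit 21) (.e (nat_lit 164348) (nat_lit 240) (.e (nat_lit 2628) (nat_lit 164) .nil)))))) (.g (nat_lit 1) (.e (nat_lit 194823) (nat_lit 0) .nil) .nil)))) (.nd (nat_lit 9) 
(.lf (nat_lit 510226) (.g (nat_lit 4532) (.e (nat_lit 172115) (nat_lit 10) (.e (nat_lit 434244) (nat_lit 28) (.e (nat_lit 573450) (nat_lit 9) (.e (nat_lit 375) (nat_lit 32) (.e (nat_lit 426317) (nat_lit 12) (.e (nat_lit 475185) (nat_lit 29) (.e (nat_lit 557101) (nat_lit 13) .nil))))))) (.g (nat_lit 1) (.e (nat_lit 194240) (nat_lit 0) .nil) .nil))) 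
(.lf (nat_lit 510738) (.g (nat_lit 3621) (.e (nat_lit 172120) (nat_lit 12) (.e (nat_lit 475210) (nat_lit 41) (.e (nat_lit 712752) (nat_lit 29) (.e (nat_lit 442421) (nat_lit 21) (.e (nat_lit 164347) (nat_lit 240) (.e (nat_lit 2617) (nat_lit 164) .nil)))))) (.g (nat_lit 1) (.e (nat_lit 195196) (nat_lit 0) .nil) .nil))))) (.nd (nat_lit 8) (.nd (nat_lit 9) 
(.lf (nat_lit 510098) (.g (nat_lit 3361) (.e (nat_lit 172115) (nat_lit 10) (.e (nat_lit 434231) (nat_lit 23) (.e (nat_lit 532523) (nat_lit 7) (.e (nat_lit 319534) (nat_lit 16) (.e (nat_lit 286733) (nat_lit 2) .nil))))) (.g (nat_lit 0) (.e (nat_lit 193995) (nat_lit 0) .nil) .nil))) 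
(.lf (nat_lit 510610) (.g (nat_lit 2613) (.e (nat_lit 172119) (nat_lit 12) (.e (nat_lit 475211) (nat_lit 41) (.e (nat_lit 712752) (nat_lit 29) (.e (nat_lit 442430) (nat_lit 24) (.e (nat_lit 229663) (nat_lit 240) (.e (nat_lit 2622) (nat_lit 164) .nil)))))) (.g (nat_lit 1) (.e (nat_lit 194999) (nat_lit 0) .nil) .nil)))) (.nd (nat_lit 9) 
(.lf (nat_lit 510354) (.g (nat_lit 4115) (.e (nat_lit 172115) (nat_lit 10) (.e (nat_lit 434244) (nat_lit 28) (.e (nat_lit 573471) (nat_lit 11) (.e (nat_lit 16473) (nat_lit 14) (.e (nat_lit 491577) (nat_lit 15) .nil))))) (.g (nat_lit 0) (.e (nat_lit 194441) (nat_lit 0) .nil) .nil))) 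
(.lf (nat_lit 510866) (.g (nat_lit 2742) (.e (nat_lit 172123) (nat_lit 13) (.e (nat_lit 483337) (nat_lit 9) (.e (nat_lit 426098) (nat_lit 1) (.e (nat_lit 164399) (nat_lit 256) (.e (nat_lit 57372) (nat_lit 2) (.e (nat_lit 90168) (nat_lit 13) .nil)))))) (.g (nat_lit 1) (.e (nat_lit 195714) (nat_lit 0) .nil) .nil)))))) (.nd (nat_lit 7) (.nd (nat_lit 8) (.nd (nat_lit 9) 
(.lf (nat_lit 510034) (.g (nat_lit 2263) (.e (nat_lit 172115) (nat_lit 10) (.e (nat_lit 434209) (nat_lit 18) (.e (nat_lit 5548) (nat_lit 306) (.e (nat_lit 2650) (nat_lit 166) (.e (nat_lit 188431) (nat_lit 20) .nil))))) (.g (nat_lit 0) (.e (nat_lit 193867) (nat_lit 0) .nil) .nil))) 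
(.lf (nat_lit 510546) (.g (nat_lit 2427) (.e (nat_lit 172118) (nat_lit 12) (.e (nat_lit 475211) (nat_lit 41) (.e (nat_lit 712755) (nat_lit 30) (.e (nat_lit 450562) (nat_lit 0) (.e (nat_lit 5537) (nat_lit 306) .nil))))) (.g (nat_lit 0) (.e (nat_lit 194915) (nat_lit 0) .nil) .nil)))) (.nd (nat_lit 9) 
(.lf (nat_lit 510290) (.g (nat_lit 2184) (.e (nat_lit 172115) (nat_lit 10) (.e (nat_lit 434244) (nat_lit 28) (.e (nat_lit 573470) (nat_lit 11) (.e (nat_lit 16432) (nat_lit 9) (.e (nat_lit 426354) (nat_lit 15) .nil))))) (.g (nat_lit 0) (.e (nat_lit 194316) (nat_lit 0) .nil) .nil))) 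
(.lf (nat_lit 510802) (.g (nat_lit 1461) (.e (nat_lit 172120) (nat_lit 12) (.e (nat_lit 475211) (nat_lit 41) (.e (nat_lit 712755) (nat_lit 30) (.e (nat_lit 450565) (nat_lit 0) .nil)))) (.g (nat_lit 0) (.e (nat_lit 195304) (nat_lit 0) .nil) .nil))))) (.nd (nat_lit 8) (.nd (nat_lit 9) 
(.lf (nat_lit 510162) (.g (nat_lit 2846) (.e (nat_lit 172115) (nat_lit 10) (.e (nat_lit 434231) (nat_lit 23) (.e (nat_lit 532569) (nat_lit 16) (.e (nat_lit 401435) (nat_lit 9) (.e (nat_lit 426399) (nat_lit 15) .nil))))) (.g (nat_lit 0) (.e (nat_lit 194090) (nat_lit 0) .nil) .nil))) 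
(.lf (nat_lit 510674) (.g (nat_lit 2810) (.e (nat_lit 172120) (nat_lit 12) (.e (nat_lit 475185) (nat_lit 29) (.e (nat_lit 557109) (nat_lit 15) (.e (nat_lit 188455) (nat_lit 24) (.e (nat_lit 229535) (nat_lit 134) .nil))))) (.g (nat_lit 0) (.e (nat_lit 195069) (nat_lit 0) .nil) .nil)))) (.nd (nat_lit 9) 
(.lf (nat_lit 510418) (.g (nat_lit 3442) (.e (nat_lit 172116) (nat_lit 10) (.e (nat_lit 434238) (nat_lit 25) (.e (nat_lit 548913) (nat_lit 18) (.e (nat_lit 172120) (nat_lit 12) (.e (nat_lit 475185) (nat_lit 29) (.e (nat_lit 557098) (nat_lit 13) .nil)))))) (.g (nat_lit 1) (.e (nat_lit 194710) (nat_lit 0) .nil) .nil))) 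
(.lf (nat_lit 510930) (.g (nat_lit 1327) (.e (nat_lit 172123) (nat_lit 13) (.e (nat_lit 483411) (nat_lit 27) (.e (nat_lit 401434) (nat_lit 9) (.e (nat_lit 426021) (nat_lit 0) .nil)))) (.g (nat_lit 0) (.e (nat_lit 195907) (nat_lit 0) .nil) .nil))))))) (.nd (nat_lit 6) (.nd (nat_lit 7) (.nd (nat_lit 8) (.nd (nat_lit 9) 
(.lf (nat_lit 510002) (.g (nat_lit 3011) (.e (nat_lit 172114) (nat_lit 10) (.e (nat_lit 434231) (nat_lit 23) (.e (nat_lit 532522) (nat_lit 7) (.e (nat_lit 319530) (nat_lit 16) (.e (nat_lit 286733) (nat_lit 2) (.e (nat_lit 90167) (nat_lit 13) .nil)))))) (.g (nat_lit 1) (.e (nat_lit 193708) (nat_lit 0) .nil) .nil))) 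
(.lf (nat_lit 510514) (.g (nat_lit 2825) (.e (nat_lit 172118) (nat_lit 12) (.e (nat_lit 475210) (nat_lit 41) (.e (nat_lit 712753) (nat_lit 30) (.e (nat_lit 450569) (nat_lit 0) (.e (nat_lit 5448) (nat_lit 306) (.e (nat_lit 2630) (nat_lit 164) .nil)))))) (.g (nat_lit 1) (.e (nat_lit 194876) (nat_lit 0) .nil) .nil)))) (.nd (nat_lit 9) 
(.lf (nat_lit 510258) (.g (nat_lit 425) (.e (nat_lit 172115) (nat_lit 10) (.e (nat_lit 434244) (nat_lit 28) (.e (nat_lit 573454) (nat_lit 9) .nil))) (.g (nat_lit 0) (.e (nat_lit 194282) (nat_lit 0) .nil) .nil))) 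
(.lf (nat_lit 510770) (.g (nat_lit 2891) (.e (nat_lit 172120) (nat_lit 12) (.e (nat_lit 475211) (nat_lit 41) (.e (nat_lit 712752) (nat_lit 29) (.e (nat_lit 442421) (nat_lit 21) (.e (nat_lit 164345) (nat_lit 240) (.e (nat_lit 2617) (nat_lit 164) .nil)))))) (.g (nat_lit 1) (.e (nat_lit 195258) (nat_lit 0) .nil) .nil))))) (.nd (nat_lit 8) (.nd (nat_lit 9) 
(.lf (nat_lit 510130) (.g (nat_lit 4645) (.e (nat_lit 172115) (nat_lit 10) (.e (nat_lit 434231) (nat_lit 23) (.e (nat_lit 532563) (nat_lit 15) (.e (nat_lit 385105) (nat_lit 50) (.e (nat_lit 786450) (nat_lit 15) .nil))))) (.g (nat_lit 0) (.e (nat_lit 194037) (nat_lit 0) .nil) .nil))) 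
(.lf (nat_lit 510642) (.g (nat_lit 2250) (.e (nat_lit 172120) (nat_lit 12) (.e (nat_lit 475185) (nat_lit 29) (.e (nat_lit 557098) (nat_lit 13) (.e (nat_lit 172118) (nat_lit 12) (.e (nat_lit 475185) (nat_lit 29) .nil))))) (.g (nat_lit 0) (.e (nat_lit 195037) (nat_lit 0) .nil) .nil)))) (.nd (nat_lit 9) 
(.lf (nat_lit 510386) (.g (nat_lit 1265) (.e (nat_lit 172115) (nat_lit 10) (.e (nat_lit 434271) (nat_lit 38) (.e (nat_lit 655378) (nat_lit 4) (.e (nat_lit 172095) (nat_lit 9) .nil)))) (.g (nat_lit 0) (.e (nat_lit 194559) (nat_lit 0) .nil) .nil))) 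
(.lf (nat_lit 510898) (.g (nat_lit 2262) (.e (nat_lit 172123) (nat_lit 13) (.e (nat_lit 483345) (nat_lit 17) (.e (nat_lit 6722) (nat_lit 362) (.e (nat_lit 180269) (nat_lit 25) (.e (nat_lit 696343) (nat_lit 8) .nil))))) (.g (nat_lit 1) (.e (nat_lit 195756) (nat_lit 0) .nil) .nil)))))) (.nd (nat_lit 7) (.nd (nat_lit 8) (.nd (nat_lit 9) 
(.lf (nat_lit 510066) (.g (nat_lit 3969) (.e (nat_lit 172115) (nat_lit 10) (.e (nat_lit 434231) (nat_lit 23) (.e (nat_lit 532522) (nat_lit 7) (.e (nat_lit 319530) (nat_lit 16) (.e (nat_lit 286733) (nat_lit 2) (.e (nat_lit 90168) (nat_lit 13) .nil)))))) (.g (nat_lit 1) (.e (nat_lit 193956) (nat_lit 0) .nil) .nil))) 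
(.lf (nat_lit 510578) (.g (nat_lit 1961) (.e (nat_lit 172119) (nat_lit 12) (.e (nat_lit 475199) (nat_lit 40) (.e (nat_lit 704598) (nat_lit 6) (.e (nat_lit 188434) (nat_lit 20) (.e (nat_lit 3409) (nat_lit 212) (.e (nat_lit 655376) (nat_lit 4) .nil)))))) (.g (nat_lit 1) (.e (nat_lit 194953) (nat_lit 0) .nil) .nil)))) (.nd (nat_lit 9) 
(.lf (nat_lit 510322) (.g (nat_lit 2405) (.e (nat_lit 172115) (nat_lit 10) (.e (nat_lit 434244) (nat_lit 28) (.e (nat_lit 573471) (nat_lit 11) (.e (nat_lit 16434) (nat_lit 9) (.e (nat_lit 426364) (nat_lit 15) .nil))))) (.g (nat_lit 0) (.e (nat_lit 194400) (nat_lit 0) .nil) .nil))) 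
(.lf (nat_lit 510834) (.g (nat_lit 2359) (.e (nat_lit 172122) (nat_lit 13) (.e (nat_lit 483337) (nat_lit 9) (.e (nat_lit 426099) (nat_lit 1) (.e (nat_lit 164399) (nat_lit 256) (.e (nat_lit 57372) (nat_lit 2) (.e (nat_lit 90169) (nat_lit 13) .nil)))))) (.g (nat_lit 1) (.e (nat_lit 195493) (nat_lit 0) .nil) .nil))))) (.nd (nat_lit 8) (.nd (nat_lit 9) 
(.lf (nat_lit 510194) (.g (nat_lit 1389) (.e (nat_lit 172115) (nat_lit 10) (.e (nat_lit 434238) (nat_lit 25) (.e (nat_lit 548898) (nat_lit 14) (.e (nat_lit 2999) (nat_lit 186) .nil)))) (.g (nat_lit 0) (.e (nat_lit 194200) (nat_lit 0) .nil) .nil))) 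
(.lf (nat_lit 510706) (.g (nat_lit 2468) (.e (nat_lit 172120) (nat_lit 12) (.e (nat_lit 475198) (nat_lit 40) (.e (nat_lit 704599) (nat_lit 6) (.e (nat_lit 188440) (nat_lit 20) (.e (nat_lit 3409) (nat_lit 212) (.e (nat_lit 655376) (nat_lit 4) .nil)))))) (.g (nat_lit 1) (.e (nat_lit 195121) (nat_lit 0) .nil) .nil)))) (.nd (nat_lit 9) 
(.lf (nat_lit 510450) (.g (nat_lit 1482) (.e (nat_lit 172118) (nat_lit 12) (.e (nat_lit 475183) (nat_lit 29) (.e (nat_lit 557104) (nat_lit 14) (.e (nat_lit 180284) (nat_lit 45) .nil)))) (.g (nat_lit 0) (.e (nat_lit 194786) (nat_lit 0) .nil) .nil))) 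
(.lf (nat_lit 510962) (.g (nat_lit 1314) (.e (nat_lit 172124) (nat_lit 14) (.e (nat_lit 491540) (nat_lit 3) (.e (nat_lit 98373) (nat_lit 29) (.e (nat_lit 450560) (nat_lit 0) .nil)))) (.g (nat_lit 0) (.e (nat_lit 196023) (nat_lit 0) .nil) .nil))))))))) (.nd (nat_lit 4) (.nd (nat_lit 5) (.nd (nat_lit 6) (.nd (nat_lit 7) (.nd (nat_lit 8) (.nd (nat_lit 9) 
(.lf (nat_lit 509962) (.g (nat_lit 5476) (.e (nat_lit 172113) (nat_lit 10) (.e (nat_lit 434248) (nat_lit 28) (.e (nat_lit 573475) (nat_lit 12) (.e (nat_lit 57572) (nat_lit 54) (.e (nat_lit 770072) (nat_lit 8) (.e (nat_lit 65568) (nat_lit 2) (.e (nat_lit 90170) (nat_lit 13) .nil))))))) (.g (nat_lit 1) (.e (nat_lit 193581) (nat_lit 0) .nil) .nil))) 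
(.lf (nat_lit 510474) (.g (nat_lit 1572) (.e (nat_lit 172118) (nat_lit 12) (.e (nat_lit 475197) (nat_lit 40) (.e (nat_lit 704598) (nat_lit 6) (.e (nat_lit 188453) (nat_lit 24) (.e (nat_lit 229666) (nat_lit 240) (.e (nat_lit 2630) (nat_lit 164) .nil)))))) (.g (nat_lit 1) (.e (nat_lit 194814) (nat_lit 0) .nil) .nil)))) (.nd (nat_lit 9) 
(.lf (nat_lit 510218) (.g (nat_lit 1604) (.e (nat_lit 172115) (nat_lit 10) (.e (nat_lit 434244) (nat_lit 28) (.e (nat_lit 573449) (nat_lit 9) (.e (nat_lit 7936) (nat_lit 37) .nil)))) (.g (nat_lit 0) (.e (nat_lit 194231) (nat_lit 0) .nil) .nil))) 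
(.lf (nat_lit 510730) (.g (nat_lit 819) (.e (nat_lit 172120) (nat_lit 12) (.e (nat_lit 475210) (nat_lit 41) (.e (nat_lit 712742) (nat_lit 27) (.e (nat_lit 426211) (nat_lit 9) .nil)))) (.g (nat_lit 0) (.e (nat_lit 195178) (nat_lit 0) .nil) .nil))))) (.nd (nat_lit 8) (.nd (nat_lit 9) 
(.lf (nat_lit 510090) (.g (nat_lit 4558) (.e (nat_lit 172115) (nat_lit 10) (.e (nat_lit 434231) (nat_lit 23) (.e (nat_lit 532523) (nat_lit 7) (.e (nat_lit 319531) (nat_lit 16) (.e (nat_lit 286733) (nat_lit 2) (.e (nat_lit 90168) (nat_lit 13) .nil)))))) (.g (nat_lit 1) (.e (nat_lit 193987) (nat_lit 0) .nil) .nil))) 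
(.lf (nat_lit 510602) (.g (nat_lit 1783) (.e (nat_lit 172119) (nat_lit 12) (.e (nat_lit 475211) (nat_lit 41) (.e (nat_lit 712752) (nat_lit 29) (.e (nat_lit 442398) (nat_lit 20) .nil)))) (.g (nat_lit 0) (.e (nat_lit 194991) (nat_lit 0) .nil) .nil)))) (.nd (nat_lit 9) 
(.lf (nat_lit 510346) (.g (nat_lit 1987) (.e (nat_lit 172115) (nat_lit 10) (.e (nat_lit 434244) (nat_lit 28) (.e (nat_lit 573471) (nat_lit 11) (.e (nat_lit 16456) (nat_lit 12) (.e (nat_lit 475185) (nat_lit 29) .nil))))) (.g (nat_lit 0) (.e (nat_lit 194430) (nat_lit 0) .nil) .nil))) 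
(.lf (nat_lit 510858) (.g (nat_lit 1399) (.e (nat_lit 172122) (nat_lit 13) (.e (nat_lit 483363) (nat_lit 18) (.e (nat_lit 57688) (nat_lit 156) (.e (nat_lit 163903) (nat_lit 12) .nil)))) (.g (nat_lit 0) (.e (nat_lit 195541) (nat_lit 0) .nil) .nil)))))) (.nd (nat_lit 7) (.nd (nat_lit 8) (.nd (nat_lit 9) 
(.lf (nat_lit 510026) (.g (nat_lit 498) (.e (nat_lit 172115) (nat_lit 10) (.e (nat_lit 434209) (nat_lit 18) (.e (nat_lit 5190) (nat_lit 294) .nil))) (.g (nat_lit 0) (.e (nat_lit 193752) (nat_lit 0) .nil) .nil))) 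
(.lf (nat_lit 510538) (.g (nat_lit 3681) (.e (nat_lit 172118) (nat_lit 12) (.e (nat_lit 475211) (nat_lit 41) (.e (nat_lit 712752) (nat_lit 29) (.e (nat_lit 442421) (nat_lit 21) (.e (nat_lit 164347) (nat_lit 240) (.e (nat_lit 2619) (nat_lit 164) .nil)))))) (.g (nat_lit 1) (.e (nat_lit 194907) (nat_lit 0) .nil) .nil)))) (.nd (nat_lit 9) 
(.lf (nat_lit 510282) (.g (nat_lit 2209) (.e (nat_lit 172115) (nat_lit 10) (.e (nat_lit 434244) (nat_lit 28) (.e (nat_lit 573468) (nat_lit 10) (.e (nat_lit 8194) (nat_lit 0) .nil)))) (.g (nat_lit 0) (.e (nat_lit 194307) (nat_lit 0) .nil) .nil))) 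
(.lf (nat_lit 510794) (.g (nat_lit 1598) (.e (nat_lit 172120) (nat_lit 12) (.e (nat_lit 475211) (nat_lit 41) (.e (nat_lit 712755) (nat_lit 30) (.e (nat_lit 450561) (nat_lit 0) .nil)))) (.g (nat_lit 0) (.e (nat_lit 195288) (nat_lit 0) .nil) .nil))))) (.nd (nat_lit 8) (.nd (nat_lit 9) 
(.lf (nat_lit 510154) (.g (nat_lit 2600) (.e (nat_lit 172115) (nat_lit 10) (.e (nat_lit 434231) (nat_lit 23) (.e (nat_lit 532568) (nat_lit 16) (.e (nat_lit 401453) (nat_lit 12) (.e (nat_lit 475185) (nat_lit 29) (.e (nat_lit 557098) (nat_lit 13) .nil)))))) (.g (nat_lit 1) (.e (nat_lit 194075) (nat_lit 0) .nil) .nil))) 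
(.lf (nat_lit 510666) (.g (nat_lit 2381) (.e (nat_lit 172120) (nat_lit 12) (.e (nat_lit 475185) (nat_lit 29) (.e (nat_lit 557107) (nat_lit 15) (.e (nat_lit 188434) (nat_lit 20) (.e (nat_lit 3272) (nat_lit 199) .nil))))) (.g (nat_lit 0) (.e (nat_lit 195061) (nat_lit 0) .nil) .nil)))) (.nd (nat_lit 9) 
(.lf (nat_lit 510410) (.g (nat_lit 2407) (.e (nat_lit 172116) (nat_lit 10) (.e (nat_lit 434209) (nat_lit 18) (.e (nat_lit 5548) (nat_lit 306) (.e (nat_lit 2650) (nat_lit 166) (.e (nat_lit 188441) (nat_lit 20) (.e (nat_lit 3409) (nat_lit 212) (.e (nat_lit 655378) (nat_lit 4) .nil))))))) (.g (nat_lit 1) (.e (nat_lit 194688) (nat_lit 0) .nil) .nil))) 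
(.lf (nat_lit 510922) (.g (nat_lit 1469) (.e (nat_lit 172123) (nat_lit 13) (.e (nat_lit 483408) (nat_lit 26) (.e (nat_lit 385092) (nat_lit 49) (.e (nat_lit 778486) (nat_lit 12) (.e (nat_lit 163999) (nat_lit 38) .nil))))) (.g (nat_lit 0) (.e (nat_lit 195874) (nat_lit 0) .nil) .nil))))))) (.nd (nat_lit 6) (.nd (nat_lit 7) (.nd (nat_lit 8) (.nd (nat_lit 9) 
(.lf (nat_lit 509994) (.g (nat_lit 4555) (.e (nat_lit 172113) (nat_lit 10) (.e (nat_lit 434272) (nat_lit 38) (.e (nat_lit 655380) (nat_lit 6) (.e (nat_lit 188453) (nat_lit 24) (.e (nat_lit 229663) (nat_lit 240) (.e (nat_lit 2630) (nat_lit 164) .nil)))))) (.g (nat_lit 1) (.e (nat_lit 193684) (nat_lit 0) .nil) .nil))) 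
(.lf (nat_lit 510506) (.g (nat_lit 2561) (.e (nat_lit 172118) (nat_lit 12) (.e (nat_lit 475210) (nat_lit 41) (.e (nat_lit 712752) (nat_lit 29) (.e (nat_lit 442421) (nat_lit 21) (.e (nat_lit 164346) (nat_lit 240) (.e (nat_lit 2629) (nat_lit 164) .nil)))))) (.g (nat_lit 1) (.e (nat_lit 194866) (nat_lit 0) .nil) .nil)))) (.nd (nat_lit 9) 
(.lf (nat_lit 510250) (.g (nat_lit 2590) (.e (nat_lit 172115) (nat_lit 10) (.e (nat_lit 434244) (nat_lit 28) (.e (nat_lit 573451) (nat_lit 9) (.e (nat_lit 395) (nat_lit 32) .nil)))) (.g (nat_lit 0) (.e (nat_lit 194273) (nat_lit 0) .nil) .nil))) 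
(.lf (nat_lit 510762) (.g (nat_lit 1269) (.e (nat_lit 172120) (nat_lit 12) (.e (nat_lit 475211) (nat_lit 41) (.e (nat_lit 712750) (nat_lit 29) (.e (nat_lit 442420) (nat_lit 21) .nil)))) (.g (nat_lit 0) (.e (nat_lit 195244) (nat_lit 0) .nil) .nil))))) (.nd (nat_lit 8) (.nd (nat_lit 9) 
(.lf (nat_lit 510122) (.g (nat_lit 2337) (.e (nat_lit 172115) (nat_lit 10) (.e (nat_lit 434231) (nat_lit 23) (.e (nat_lit 532562) (nat_lit 15) (.e (nat_lit 385105) (nat_lit 50) (.e (nat_lit 786447) (nat_lit 15) .nil))))) (.g (nat_lit 0) (.e (nat_lit 194029) (nat_lit 0) .nil) .nil))) 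
(.lf (nat_lit 510634) (.g (nat_lit 3698) (.e (nat_lit 172120) (nat_lit 12) (.e (nat_lit 475184) (nat_lit 29) (.e (nat_lit 557109) (nat_lit 15) (.e (nat_lit 188441) (nat_lit 20) (.e (nat_lit 3272) (nat_lit 199) (.e (nat_lit 548913) (nat_lit 18) .nil)))))) (.g (nat_lit 1) (.e (nat_lit 195029) (nat_lit 0) .nil) .nil)))) (.nd (nat_lit 9) 
(.lf (nat_lit 510378) (.g (nat_lit 1620) (.e (nat_lit 172115) (nat_lit 10) (.e (nat_lit 434275) (nat_lit 39) (.e (nat_lit 663574) (nat_lit 9) (.e (nat_lit 247) (nat_lit 21) .nil)))) (.g (nat_lit 0) (.e (nat_lit 194510) (nat_lit 0) .nil) .nil))) 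
(.lf (nat_lit 510890) (.g (nat_lit 1950) (.e (nat_lit 172123) (nat_lit 13) (.e (nat_lit 483337) (nat_lit 9) (.e (nat_lit 426108) (nat_lit 1) (.e (nat_lit 164403) (nat_lit 256) (.e (nat_lit 57370) (nat_lit 2) (.e (nat_lit 90168) (nat_lit 13) .nil)))))) (.g (nat_lit 1) (.e (nat_lit 195739) (nat_lit 0) .nil) .nil)))))) (.nd (nat_lit 7) (.nd (nat_lit 8) (.nd (nat_lit 9) 
(.lf (nat_lit 510058) (.g (nat_lit 1471) (.e (nat_lit 172115) (nat_lit 10) (.e (nat_lit 434231) (nat_lit 23) (.e (nat_lit 532490) (nat_lit 0) (.e (nat_lit 6114) (nat_lit 332) .nil)))) (.g (nat_lit 0) (.e (nat_lit 193939) (nat_lit 0) .nil) .nil))) 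
(.lf (nat_lit 510570) (.g (nat_lit 2014) (.e (nat_lit 172119) (nat_lit 12) (.e (nat_lit 475185) (nat_lit 29) (.e (nat_lit 557109) (nat_lit 15) (.e (nat_lit 188455) (nat_lit 24) .nil)))) (.g (nat_lit 0) (.e (nat_lit 194944) (nat_lit 0) .nil) .nil)))) (.nd (nat_lit 9) 
(.lf (nat_lit 510314) (.g (nat_lit 1772) (.e (nat_lit 172115) (nat_lit 10) (.e (nat_lit 434244) (nat_lit 28) (.e (nat_lit 573471) (nat_lit 11) (.e (nat_lit 16432) (nat_lit 9) .nil)))) (.g (nat_lit 0) (.e (nat_lit 194391) (nat_lit 0) .nil) .nil))) 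
(.lf (nat_lit 510826) (.g (nat_lit 2501) (.e (nat_lit 172121) (nat_lit 13) (.e (nat_lit 483365) (nat_lit 18) (.e (nat_lit 57691) (nat_lit 156) (.e (nat_lit 163905) (nat_lit 12) (.e (nat_lit 426428) (nat_lit 17) (.e (nat_lit 90170) (nat_lit 13) .nil)))))) (.g (nat_lit 1) (.e (nat_lit 195345) (nat_lit 0) .nil) .nil))))) (.nd (nat_lit 8) (.nd (nat_lit 9) 
(.lf (nat_lit 510186) (.g (nat_lit 4437) (.e (nat_lit 172115) (nat_lit 10) (.e (nat_lit 434231) (nat_lit 23) (.e (nat_lit 532569) (nat_lit 16) (.e (nat_lit 401453) (nat_lit 12) (.e (nat_lit 475184) (nat_lit 29) (.e (nat_lit 557098) (nat_lit 13) .nil)))))) (.g (nat_lit 1) (.e (nat_lit 194152) (nat_lit 0) .nil) .nil))) 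
(.lf (nat_lit 510698) (.g (nat_lit 2259) (.e (nat_lit 172120) (nat_lit 12) (.e (nat_lit 475198) (nat_lit 40) (.e (nat_lit 704598) (nat_lit 6) (.e (nat_lit 188453) (nat_lit 24) (.e (nat_lit 229666) (nat_lit 240) (.e (nat_lit 2621) (nat_lit 164) .nil)))))) (.g (nat_lit 1) (.e (nat_lit 195112) (nat_lit 0) .nil) .nil)))) (.nd (nat_lit 9) 
(.lf (nat_lit 510442) (.g (nat_lit 1865) (.e (nat_lit 172116) (nat_lit 10) (.e (nat_lit 434289) (nat_lit 43) (.e (nat_lit 696346) (nat_lit 10) (.e (nat_lit 188440) (nat_lit 20) (.e (nat_lit 3467) (nat_lit 217) .nil))))) (.g (nat_lit 0) (.e (nat_lit 194777) (nat_lit 0) .nil) .nil))) 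
(.lf (nat_lit 510954) (.g (nat_lit 2399) (.e (nat_lit 172124) (nat_lit 14) (.e (nat_lit 491537) (nat_lit 2) (.e (nat_lit 90176) (nat_lit 15) (.e (nat_lit 188441) (nat_lit 20) (.e (nat_lit 3272) (nat_lit 199) .nil))))) (.g (nat_lit 0) (.e (nat_lit 196014) (nat_lit 0) .nil) .nil)))))))) (.nd (nat_lit 5) (.nd (nat_lit 6) (.nd (nat_lit 7) (.nd (nat_lit 8) (.nd (nat_lit 9) 
(.lf (nat_lit 509978) (.g (nat_lit 286) (.e (nat_lit 172113) (nat_lit 10) (.e (nat_lit 434276) (nat_lit 39) (.e (nat_lit 663580) (nat_lit 9) .nil))) (.g (nat_lit 0) (.e (nat_lit 193635) (nat_lit 0) .nil) .nil))) 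
(.lf (nat_lit 510490) (.g (nat_lit 3152) (.e (nat_lit 172118) (nat_lit 12) (.e (nat_lit 475199) (nat_lit 40) (.e (nat_lit 704598) (nat_lit 6) (.e (nat_lit 188453) (nat_lit 24) (.e (nat_lit 229663) (nat_lit 240) (.e (nat_lit 2622) (nat_lit 164) .nil)))))) (.g (nat_lit 1) (.e (nat_lit 194831) (nat_lit 0) .nil) .nil)))) (.nd (nat_lit 9) 
(.lf (nat_lit 510234) (.g (nat_lit 1469) (.e (nat_lit 172115) (nat_lit 10) (.e (nat_lit 434244) (nat_lit 28) (.e (nat_lit 573450) (nat_lit 9) (.e (nat_lit 436) (nat_lit 32) .nil)))) (.g (nat_lit 0) (.e (nat_lit 194248) (nat_lit 0) .nil) .nil))) 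
(.lf (nat_lit 510746) (.g (nat_lit 3321) (.e (nat_lit 172120) (nat_lit 12) (.e (nat_lit 475210) (nat_lit 41) (.e (nat_lit 712753) (nat_lit 30) (.e (nat_lit 450565) (nat_lit 0) (.e (nat_lit 5548) (nat_lit 306) (.e (nat_lit 2628) (nat_lit 164) .nil)))))) (.g (nat_lit 1) (.e (nat_lit 195212) (nat_lit 0) .nil) .nil))))) (.nd (nat_lit 8) (.nd (nat_lit 9) 
(.lf (nat_lit 510106) (.g (nat_lit 2534) (.e (nat_lit 172115) (nat_lit 10) (.e (nat_lit 434231) (nat_lit 23) (.e (nat_lit 532529) (nat_lit 9) (.e (nat_lit 336242) (nat_lit 15) .nil)))) (.g (nat_lit 0) (.e (nat_lit 194005) (nat_lit 0) .nil) .nil))) 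
(.lf (nat_lit 510618) (.g (nat_lit 2485) (.e (nat_lit 172119) (nat_lit 12) (.e (nat_lit 475211) (nat_lit 41) (.e (nat_lit 712755) (nat_lit 30) (.e (nat_lit 450562) (nat_lit 0) (.e (nat_lit 5537) (nat_lit 306) (.e (nat_lit 2629) (nat_lit 164) .nil)))))) (.g (nat_lit 1) (.e (nat_lit 195009) (nat_lit 0) .nil) .nil)))) (.nd (nat_lit 9) 
(.lf (nat_lit 510362) (.g (nat_lit 2933) (.e (nat_lit 172115) (nat_lit 10) (.e (nat_lit 434244) (nat_lit 28) (.e (nat_lit 573474) (nat_lit 12) (.e (nat_lit 57345) (nat_lit 0) (.e (nat_lit 6943) (nat_lit 375) .nil))))) (.g (nat_lit 0) (.e (nat_lit 194450) (nat_lit 0) .nil) .nil))) 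
(.lf (nat_lit 510874) (.g (nat_lit 2802) (.e (nat_lit 172123) (nat_lit 13) (.e (nat_lit 483337) (nat_lit 9) (.e (nat_lit 426100) (nat_lit 1) (.e (nat_lit 164399) (nat_lit 256) (.e (nat_lit 57372) (nat_lit 2) (.e (nat_lit 90168) (nat_lit 13) .nil)))))) (.g (nat_lit 1) (.e (nat_lit 195722) (nat_lit 0) .nil) .nil)))))) (.nd (nat_lit 7) (.nd (nat_lit 8) (.nd (nat_lit 9) 
(.lf (nat_lit 510042) (.g (nat_lit 4555) (.e (nat_lit 172115) (nat_lit 10) (.e (nat_lit 434209) (nat_lit 18) (.e (nat_lit 6425) (nat_lit 342) (.e (nat_lit 229413) (nat_lit 15) (.e (nat_lit 450601) (nat_lit 21) (.e (nat_lit 696344) (nat_lit 8) .nil)))))) (.g (nat_lit 1) (.e (nat_lit 193898) (nat_lit 0) .nil) .nil))) 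
(.lf (nat_lit 510554) (.g (nat_lit 1507) (.e (nat_lit 172118) (nat_lit 12) (.e (nat_lit 475211) (nat_lit 41) (.e (nat_lit 712755) (nat_lit 30) (.e (nat_lit 450566) (nat_lit 0) .nil)))) (.g (nat_lit 0) (.e (nat_lit 194924) (nat_lit 0) .nil) .nil)))) (.nd (nat_lit 9) 
(.lf (nat_lit 510298) (.g (nat_lit 3374) (.e (nat_lit 172115) (nat_lit 10) (.e (nat_lit 434244) (nat_lit 28) (.e (nat_lit 573471) (nat_lit 11) (.e (nat_lit 16385) (nat_lit 0) (.e (nat_lit 7374) (nat_lit 389) .nil))))) (.g (nat_lit 0) (.e (nat_lit 194324) (nat_lit 0) .nil) .nil))) 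
(.lf (nat_lit 510810) (.g (nat_lit 1257) (.e (nat_lit 172121) (nat_lit 13) (.e (nat_lit 483337) (nat_lit 9) (.e (nat_lit 426098) (nat_lit 1) (.e (nat_lit 164403) (nat_lit 256) .nil)))) (.g (nat_lit 0) (.e (nat_lit 195314) (nat_lit 0) .nil) .nil))))) (.nd (nat_lit 8) (.nd (nat_lit 9) 
(.lf (nat_lit 510170) (.g (nat_lit 3178) (.e (nat_lit 172115) (nat_lit 10) (.e (nat_lit 434231) (nat_lit 23) (.e (nat_lit 532569) (nat_lit 16) (.e (nat_lit 401450) (nat_lit 12) (.e (nat_lit 475183) (nat_lit 29) (.e (nat_lit 557097) (nat_lit 13) .nil)))))) (.g (nat_lit 1) (.e (nat_lit 194119) (nat_lit 0) .nil) .nil))) 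
(.lf (nat_lit 510682) (.g (nat_lit 3358) (.e (nat_lit 172120) (nat_lit 12) (.e (nat_lit 475197) (nat_lit 40) (.e (nat_lit 704598) (nat_lit 6) (.e (nat_lit 188453) (nat_lit 24) (.e (nat_lit 229665) (nat_lit 240) (.e (nat_lit 2630) (nat_lit 164) .nil)))))) (.g (nat_lit 1) (.e (nat_lit 195084) (nat_lit 0) .nil) .nil)))) (.nd (nat_lit 9) 
(.lf (nat_lit 510426) (.g (nat_lit 404) (.e (nat_lit 172116) (nat_lit 10) (.e (nat_lit 434271) (nat_lit 38) (.e (nat_lit 655380) (nat_lit 6) .nil))) (.g (nat_lit 0) (.e (nat_lit 194741) (nat_lit 0) .nil) .nil))) 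
(.lf (nat_lit 510938) (.g (nat_lit 815) (.e (nat_lit 172123) (nat_lit 13) (.e (nat_lit 483413) (nat_lit 27) (.e (nat_lit 401449) (nat_lit 11) .nil))) (.g (nat_lit 0) (.e (nat_lit 195988) (nat_lit 0) .nil) .nil))))))) (.nd (nat_lit 6) (.nd (nat_lit 7) (.nd (nat_lit 8) (.nd (nat_lit 9) 
(.lf (nat_lit 510010) (.g (nat_lit 3348) (.e (nat_lit 172114) (nat_lit 10) (.e (nat_lit 434231) (nat_lit 23) (.e (nat_lit 532523) (nat_lit 7) (.e (nat_lit 319531) (nat_lit 16) (.e (nat_lit 286733) (nat_lit 2) (.e (nat_lit 90168) (nat_lit 13) .nil)))))) (.g (nat_lit 1) (.e (nat_lit 193717) (nat_lit 0) .nil) .nil))) 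
(.lf (nat_lit 510522) (.g (nat_lit 1443) (.e (nat_lit 172118) (nat_lit 12) (.e (nat_lit 475210) (nat_lit 41) (.e (nat_lit 712755) (nat_lit 30) (.e (nat_lit 450565) (nat_lit 0) .nil)))) (.g (nat_lit 0) (.e (nat_lit 194886) (nat_lit 0) .nil) .nil)))) (.nd (nat_lit 9) 
(.lf (nat_lit 510266) (.g (nat_lit 491) (.e (nat_lit 172115) (nat_lit 10) (.e (nat_lit 434244) (nat_lit 28) (.e (nat_lit 573458) (nat_lit 9) .nil))) (.g (nat_lit 0) (.e (nat_lit 194291) (nat_lit 0) .nil) .nil))) 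
(.lf (nat_lit 510778) (.g (nat_lit 347) (.e (nat_lit 172120) (nat_lit 12) (.e (nat_lit 475211) (nat_lit 41) (.e (nat_lit 712753) (nat_lit 30) .nil))) (.g (nat_lit 0) (.e (nat_lit 195267) (nat_lit 0) .nil) .nil))))) (.nd (nat_lit 8) (.nd (nat_lit 9) 
(.lf (nat_lit 510138) (.g (nat_lit 1597) (.e (nat_lit 172115) (nat_lit 10) (.e (nat_lit 434231) (nat_lit 23) (.e (nat_lit 532567) (nat_lit 16) (.e (nat_lit 401452) (nat_lit 12) (.e (nat_lit 475184) (nat_lit 29) .nil))))) (.g (nat_lit 0) (.e (nat_lit 194048) (nat_lit 0) .nil) .nil))) 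
(.lf (nat_lit 510650) (.g (nat_lit 2061) (.e (nat_lit 172120) (nat_lit 12) (.e (nat_lit 475185) (nat_lit 29) (.e (nat_lit 557100) (nat_lit 13) (.e (nat_lit 172077) (nat_lit 7) .nil)))) (.g (nat_lit 0) (.e (nat_lit 195045) (nat_lit 0) .nil) .nil)))) (.nd (nat_lit 9) 
(.lf (nat_lit 510394) (.g (nat_lit 417) (.e (nat_lit 172115) (nat_lit 10) (.e (nat_lit 434289) (nat_lit 43) (.e (nat_lit 696343) (nat_lit 8) .nil))) (.g (nat_lit 0) (.e (nat_lit 194645) (nat_lit 0) .nil) .nil))) 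
(.lf (nat_lit 510906) (.g (nat_lit 1309) (.e (nat_lit 172123) (nat_lit 13) (.e (nat_lit 483385) (nat_lit 23) (.e (nat_lit 336260) (nat_lit 15) (.e (nat_lit 3636) (nat_lit 227) .nil)))) (.g (nat_lit 0) (.e (nat_lit 195841) (nat_lit 0) .nil) .nil)))))) (.nd (nat_lit 7) (.nd (nat_lit 8) (.nd (nat_lit 9) 
(.lf (nat_lit 510074) (.g (nat_lit 2715) (.e (nat_lit 172115) (nat_lit 10) (.e (nat_lit 434231) (nat_lit 23) (.e (nat_lit 532523) (nat_lit 7) (.e (nat_lit 319502) (nat_lit 10) .nil)))) (.g (nat_lit 0) (.e (nat_lit 193964) (nat_lit 0) .nil) .nil))) 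
(.lf (nat_lit 510586) (.g (nat_lit 2192) (.e (nat_lit 172119) (nat_lit 12) (.e (nat_lit 475210) (nat_lit 41) (.e (nat_lit 712752) (nat_lit 29) (.e (nat_lit 442421) (nat_lit 21) (.e (nat_lit 164346) (nat_lit 240) (.e (nat_lit 2618) (nat_lit 164) .nil)))))) (.g (nat_lit 1) (.e (nat_lit 194974) (nat_lit 0) .nil) .nil)))) (.nd (nat_lit 9) 
(.lf (nat_lit 510330) (.g (nat_lit 2015) (.e (nat_lit 172115) (nat_lit 10) (.e (nat_lit 434244) (nat_lit 28) (.e (nat_lit 573471) (nat_lit 11) (.e (nat_lit 16437) (nat_lit 9) .nil)))) (.g (nat_lit 0) (.e (nat_lit 194408) (nat_lit 0) .nil) .nil))) 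
(.lf (nat_lit 510842) (.g (nat_lit 1100) (.e (nat_lit 172122) (nat_lit 13) (.e (nat_lit 483337) (nat_lit 9) (.e (nat_lit 426105) (nat_lit 1) (.e (nat_lit 164403) (nat_lit 256) .nil)))) (.g (nat_lit 0) (.e (nat_lit 195501) (nat_lit 0) .nil) .nil))))) (.nd (nat_lit 8) (.nd (nat_lit 9) 
(.lf (nat_lit 510202) (.g (nat_lit 2478) (.e (nat_lit 172115) (nat_lit 10) (.e (nat_lit 434238) (nat_lit 25) (.e (nat_lit 548913) (nat_lit 18) (.e (nat_lit 172120) (nat_lit 12) (.e (nat_lit 475183) (nat_lit 29) (.e (nat_lit 557097) (nat_lit 13) .nil)))))) (.g (nat_lit 1) (.e (nat_lit 194210) (nat_lit 0) .nil) .nil))) 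
(.lf (nat_lit 510714) (.g (nat_lit 3081) (.e (nat_lit 172120) (nat_lit 12) (.e (nat_lit 475198) (nat_lit 40) (.e (nat_lit 704599) (nat_lit 6) (.e (nat_lit 188455) (nat_lit 24) (.e (nat_lit 229666) (nat_lit 240) (.e (nat_lit 2630) (nat_lit 164) .nil)))))) (.g (nat_lit 1) (.e (nat_lit 195129) (nat_lit 0) .nil) .nil)))) (.nd (nat_lit 9) 
(.lf (nat_lit 510458) (.g (nat_lit 3612) (.e (nat_lit 172118) (nat_lit 12) (.e (nat_lit 475185) (nat_lit 29) (.e (nat_lit 557098) (nat_lit 13) (.e (nat_lit 172124) (nat_lit 14) (.e (nat_lit 491537) (nat_lit 2) (.e (nat_lit 90170) (nat_lit 13) .nil)))))) (.g (nat_lit 1) (.e (nat_lit 194794) (nat_lit 0) .nil) .nil))) 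
(.lf (nat_lit 510970) (.g (nat_lit 3778) (.e (nat_lit 172124) (nat_lit 14) (.e (nat_lit 491540) (nat_lit 3) (.e (nat_lit 98373) (nat_lit 29) (.e (nat_lit 450563) (nat_lit 0) (.e (nat_lit 3948) (nat_lit 239) (.e (nat_lit 2626) (nat_lit 164) .nil)))))) (.g (nat_lit 1) (.e (nat_lit 196031) (nat_lit 0) .nil) .nil)))))))))) 
(.nd (nat_lit 3) (.nd (nat_lit 4) (.nd (nat_lit 5) (.nd (nat_lit 6) (.nd (nat_lit 7) 
(.nd (nat_lit 8) (.nd (nat_lit 9) 
(.lf (nat_lit 509958) (.g (nat_lit 3016) (.e (nat_lit 172113) (nat_lit 10) (.e (nat_lit 434248) (nat_lit 28) (.e (nat_lit 573471) (nat_lit 11) (.e (nat_lit 16471) (nat_lit 14) (.e (nat_lit 491537) (nat_lit 2) .nil))))) (.g (nat_lit 0) (.e (nat_lit 193576) (nat_lit 0) .nil) .nil))) 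
(.lf (nat_lit 510470) (.g (nat_lit 1655) (.e (nat_lit 172118) (nat_lit 12) (.e (nat_lit 475185) (nat_lit 29) (.e (nat_lit 557107) (nat_lit 15) (.e (nat_lit 188438) (nat_lit 20) .nil)))) (.g (nat_lit 0) (.e (nat_lit 194809) (nat_lit 0) .nil) .nil)))) (.nd (nat_lit 9) 
(.lf (nat_lit 510214) (.g (nat_lit 1604) (.e (nat_lit 172115) (nat_lit 10) (.e (nat_lit 434244) (nat_lit 28) (.e (nat_lit 573449) (nat_lit 9) (.e (nat_lit 450) (nat_lit 33) .nil)))) (.g (nat_lit 0) (.e (nat_lit 194224) (nat_lit 0) .nil) .nil))) 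
(.lf (nat_lit 510726) (.g (nat_lit 2183) (.e (nat_lit 172120) (nat_lit 12) (.e (nat_lit 475199) (nat_lit 40) (.e (nat_lit 704598) (nat_lit 6) (.e (nat_lit 188455) (nat_lit 24) (.e (nat_lit 229664) (nat_lit 240) (.e (nat_lit 2621) (nat_lit 164) .nil)))))) (.g (nat_lit 1) (.e (nat_lit 195153) (nat_lit 0) .nil) .nil))))) (.nd (nat_lit 8) (.nd (nat_lit 9) 
(.lf (nat_lit 510086) (.g (nat_lit 4424) (.e (nat_lit 172115) (nat_lit 10) (.e (nat_lit 434231) (nat_lit 23) (.e (nat_lit 532523) (nat_lit 7) (.e (nat_lit 319530) (nat_lit 16) (.e (nat_lit 286733) (nat_lit 2) (.e (nat_lit 90168) (nat_lit 13) .nil)))))) (.g (nat_lit 1) (.e (nat_lit 193983) (nat_lit 0) .nil) .nil))) 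
(.lf (nat_lit 510598) (.g (nat_lit 1352) (.e (nat_lit 172119) (nat_lit 12) (.e (nat_lit 475211) (nat_lit 41) (.e (nat_lit 712750) (nat_lit 29) (.e (nat_lit 442421) (nat_lit 21) .nil)))) (.g (nat_lit 0) (.e (nat_lit 194987) (nat_lit 0) .nil) .nil)))) (.nd (nat_lit 9) 
(.lf (nat_lit 510342) (.g (nat_lit 2310) (.e (nat_lit 172115) (nat_lit 10) (.e (nat_lit 434244) (nat_lit 28) (.e (nat_lit 573471) (nat_lit 11) (.e (nat_lit 16445) (nat_lit 9) .nil)))) (.g (nat_lit 0) (.e (nat_lit 194420) (nat_lit 0) .nil) .nil))) 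
(.lf (nat_lit 510854) (.g (nat_lit 489) (.e (nat_lit 172122) (nat_lit 13) (.e (nat_lit 483344) (nat_lit 17) (.e (nat_lit 6722) (nat_lit 362) .nil))) (.g (nat_lit 0) (.e (nat_lit 195513) (nat_lit 0) .nil) .nil)))))) (.nd (nat_lit 7) (.nd (nat_lit 8) (.nd (nat_lit 9) 
(.lf (nat_lit 510022) (.g (nat_lit 1792) (.e (nat_lit 172115) (nat_lit 10) (.e (nat_lit 434202) (nat_lit 18) (.e (nat_lit 6420) (nat_lit 341) (.e (nat_lit 163902) (nat_lit 12) (.e (nat_lit 426294) (nat_lit 11) .nil))))) (.g (nat_lit 0) (.e (nat_lit 193738) (nat_lit 0) .nil) .nil))) 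
(.lf (nat_lit 510534) (.g (nat_lit 1545) (.e (nat_lit 172118) (nat_lit 12) (.e (nat_lit 475211) (nat_lit 41) (.e (nat_lit 712752) (nat_lit 29) (.e (nat_lit 442392) (nat_lit 20) .nil)))) (.g (nat_lit 0) (.e (nat_lit 194903) (nat_lit 0) .nil) .nil)))) (.nd (nat_lit 9) 
(.lf (nat_lit 510278) (.g (nat_lit 3725) (.e (nat_lit 172115) (nat_lit 10) (.e (nat_lit 434244) (nat_lit 28) (.e (nat_lit 573458) (nat_lit 9) (.e (nat_lit 426) (nat_lit 32) (.e (nat_lit 426316) (nat_lit 12) (.e (nat_lit 475184) (nat_lit 29) (.e (nat_lit 557101) (nat_lit 13) .nil))))))) (.g (nat_lit 1) (.e (nat_lit 194303) (nat_lit 0) .nil) .nil))) 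
(.lf (nat_lit 510790) (.g (nat_lit 2430) (.e (nat_lit 172120) (nat_lit 12) (.e (nat_lit 475211) (nat_lit 41) (.e (nat_lit 712753) (nat_lit 30) (.e (nat_lit 450569) (nat_lit 0) (.e (nat_lit 5448) (nat_lit 306) (.e (nat_lit 2621) (nat_lit 164) .nil)))))) (.g (nat_lit 1) (.e (nat_lit 195281) (nat_lit 0) .nil) .nil))))) (.nd (nat_lit 8) (.nd (nat_lit 9) 
(.lf (nat_lit 510150) (.g (nat_lit 2231) (.e (nat_lit 172115) (nat_lit 10) (.e (nat_lit 434231) (nat_lit 23) (.e (nat_lit 532568) (nat_lit 16) (.e (nat_lit 401451) (nat_lit 12) (.e (nat_lit 475184) (nat_lit 29) (.e (nat_lit 557101) (nat_lit 13) .nil)))))) (.g (nat_lit 1) (.e (nat_lit 194070) (nat_lit 0) .nil) .nil))) 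
(.lf (nat_lit 510662) (.g (nat_lit 2105) (.e (nat_lit 172120) (nat_lit 12) (.e (nat_lit 475185) (nat_lit 29) (.e (nat_lit 557103) (nat_lit 14) (.e (nat_lit 180286) (nat_lit 45) .nil)))) (.g (nat_lit 0) (.e (nat_lit 195057) (nat_lit 0) .nil) .nil)))) (.nd (nat_lit 9) 
(.lf (nat_lit 510406) (.g (nat_lit 1960) (.e (nat_lit 172116) (nat_lit 10) (.e (nat_lit 434209) (nat_lit 18) (.e (nat_lit 5548) (nat_lit 306) (.e (nat_lit 2648) (nat_lit 166) (.e (nat_lit 188439) (nat_lit 20) .nil))))) (.g (nat_lit 0) (.e (nat_lit 194683) (nat_lit 0) .nil) .nil))) 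
(.lf (nat_lit 510918) (.g (nat_lit 838) (.e (nat_lit 172123) (nat_lit 13) (.e (nat_lit 483403) (nat_lit 26) (.e (nat_lit 385114) (nat_lit 53) .nil))) (.g (nat_lit 0) (.e (nat_lit 195861) (nat_lit 0) .nil) .nil))))))) (.nd (nat_lit 6) (.nd (nat_lit 7) (.nd (nat_lit 8) (.nd (nat_lit 9) 
(.lf (nat_lit 509990) (.g (nat_lit 1518) (.e (nat_lit 172113) (nat_lit 10) (.e (nat_lit 434272) (nat_lit 38) (.e (nat_lit 655378) (nat_lit 4) (.e (nat_lit 172098) (nat_lit 9) .nil)))) (.g (nat_lit 0) (.e (nat_lit 193673) (nat_lit 0) .nil) .nil))) 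
(.lf (nat_lit 510502) (.g (nat_lit 1789) (.e (nat_lit 172118) (nat_lit 12) (.e (nat_lit 475210) (nat_lit 41) (.e (nat_lit 712752) (nat_lit 29) (.e (nat_lit 442411) (nat_lit 20) (.e (nat_lit 3408) (nat_lit 212) .nil))))) (.g (nat_lit 0) (.e (nat_lit 194862) (nat_lit 0) .nil) .nil)))) (.nd (nat_lit 9) 
(.lf (nat_lit 510246) (.g (nat_lit 1919) (.e (nat_lit 172115) (nat_lit 10) (.e (nat_lit 434244) (nat_lit 28) (.e (nat_lit 573450) (nat_lit 9) (.e (nat_lit 460) (nat_lit 34) .nil)))) (.g (nat_lit 0) (.e (nat_lit 194267) (nat_lit 0) .nil) .nil))) 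
(.lf (nat_lit 510758) (.g (nat_lit 2726) (.e (nat_lit 172120) (nat_lit 12) (.e (nat_lit 475210) (nat_lit 41) (.e (nat_lit 712755) (nat_lit 30) (.e (nat_lit 450593) (nat_lit 16) (.e (nat_lit 655376) (nat_lit 4) .nil))))) (.g (nat_lit 1) (.e (nat_lit 195238) (nat_lit 0) .nil) .nil))))) (.nd (nat_lit 8) (.nd (nat_lit 9) 
(.lf (nat_lit 510118) (.g (nat_lit 1465) (.e (nat_lit 172115) (nat_lit 10) (.e (nat_lit 434231) (nat_lit 23) (.e (nat_lit 532543) (nat_lit 10) (.e (nat_lit 344160) (nat_lit 37) .nil)))) (.g (nat_lit 0) (.e (nat_lit 194021) (nat_lit 0) .nil) .nil))) 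
(.lf (nat_lit 510630) (.g (nat_lit 4211) (.e (nat_lit 172120) (nat_lit 12) (.e (nat_lit 475183) (nat_lit 29) (.e (nat_lit 557109) (nat_lit 15) (.e (nat_lit 188434) (nat_lit 20) (.e (nat_lit 3271) (nat_lit 199) (.e (nat_lit 548913) (nat_lit 18) .nil)))))) (.g (nat_lit 1) (.e (nat_lit 195025) (nat_lit 0) .nil) .nil)))) (.nd (nat_lit 9) 
(.lf (nat_lit 510374) (.g (nat_lit 2253) (.e (nat_lit 172115) (nat_lit 10) (.e (nat_lit 434266) (nat_lit 35) (.e (nat_lit 630821) (nat_lit 16) (.e (nat_lit 65620) (nat_lit 10) (.e (nat_lit 344156) (nat_lit 36) (.e (nat_lit 638998) (nat_lit 8) .nil)))))) (.g (nat_lit 1) (.e (nat_lit 194477) (nat_lit 0) .nil) .nil))) 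
(.lf (nat_lit 510886) (.g (nat_lit 1079) (.e (nat_lit 172123) (nat_lit 13) (.e (nat_lit 483337) (nat_lit 9) (.e (nat_lit 426108) (nat_lit 1) (.e (nat_lit 164401) (nat_lit 256) .nil)))) (.g (nat_lit 0) (.e (nat_lit 195735) (nat_lit 0) .nil) .nil)))))) (.nd (nat_lit 7) (.nd (nat_lit 8) (.nd (nat_lit 9) 
(.lf (nat_lit 510054) (.g (nat_lit 1208) (.e (nat_lit 172115) (nat_lit 10) (.e (nat_lit 434231) (nat_lit 23) (.e (nat_lit 532481) (nat_lit 0) (.e (nat_lit 6720) (nat_lit 361) (.e (nat_lit 179968) (nat_lit 15) .nil))))) (.g (nat_lit 0) (.e (nat_lit 193929) (nat_lit 0) .nil) .nil))) 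
(.lf (nat_lit 510566) (.g (nat_lit 2182) (.e (nat_lit 172119) (nat_lit 12) (.e (nat_lit 475185) (nat_lit 29) (.e (nat_lit 557100) (nat_lit 13) (.e (nat_lit 172039) (nat_lit 0) (.e (nat_lit 7013) (nat_lit 377) .nil))))) (.g (nat_lit 0) (.e (nat_lit 194939) (nat_lit 0) .nil) .nil)))) (.nd (nat_lit 9) 
(.lf (nat_lit 510310) (.g (nat_lit 1349) (.e (nat_lit 172115) (nat_lit 10) (.e (nat_lit 434244) (nat_lit 28) (.e (nat_lit 573471) (nat_lit 11) (.e (nat_lit 16431) (nat_lit 9) .nil)))) (.g (nat_lit 0) (.e (nat_lit 194387) (nat_lit 0) .nil) .nil))) 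
(.lf (nat_lit 510822) (.g (nat_lit 715) (.e (nat_lit 172121) (nat_lit 13) (.e (nat_lit 483365) (nat_lit 18) (.e (nat_lit 57686) (nat_lit 156) .nil))) (.g (nat_lit 0) (.e (nat_lit 195341) (nat_lit 0) .nil) .nil))))) (.nd (nat_lit 8) (.nd (nat_lit 9) 
(.lf (nat_lit 510182) (.g (nat_lit 2293) (.e (nat_lit 172115) (nat_lit 10) (.e (nat_lit 434231) (nat_lit 23) (.e (nat_lit 532569) (nat_lit 16) (.e (nat_lit 401452) (nat_lit 12) (.e (nat_lit 475184) (nat_lit 29) (.e (nat_lit 557101) (nat_lit 13) .nil)))))) (.g (nat_lit 1) (.e (nat_lit 194146) (nat_lit 0) .nil) .nil))) 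
(.lf (nat_lit 510694) (.g (nat_lit 2493) (.e (nat_lit 172120) (nat_lit 12) (.e (nat_lit 475198) (nat_lit 40) (.e (nat_lit 704598) (nat_lit 6) (.e (nat_lit 188446) (nat_lit 21) (.e (nat_lit 164347) (nat_lit 240) (.e (nat_lit 2629) (nat_lit 164) .nil)))))) (.g (nat_lit 1) (.e (nat_lit 195108) (nat_lit 0) .nil) .nil)))) (.nd (nat_lit 9) 
(.lf (nat_lit 510438) (.g (nat_lit 3501) (.e (nat_lit 172116) (nat_lit 10) (.e (nat_lit 434289) (nat_lit 43) (.e (nat_lit 696344) (nat_lit 8) (.e (nat_lit 172115) (nat_lit 10) (.e (nat_lit 434289) (nat_lit 43) (.e (nat_lit 696343) (nat_lit 8) .nil)))))) (.g (nat_lit 1) (.e (nat_lit 194773) (nat_lit 0) .nil) .nil))) 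
(.lf (nat_lit 510950) (.g (nat_lit 1716) (.e (nat_lit 172124) (nat_lit 14) (.e (nat_lit 491537) (nat_lit 2) (.e (nat_lit 90174) (nat_lit 14) (.e (nat_lit 180282) (nat_lit 45) .nil)))) (.g (nat_lit 0) (.e (nat_lit 196010) (nat_lit 0) .nil) .nil)))))))) (.nd (nat_lit 5) (.nd (nat_lit 6) (.nd (nat_lit 7) (.nd (nat_lit 8) (.nd (nat_lit 9) 
(.lf (nat_lit 509974) (.g (nat_lit 2010) (.e (nat_lit 172113) (nat_lit 10) (.e (nat_lit 434268) (nat_lit 36) (.e (nat_lit 639020) (nat_lit 16) (.e (nat_lit 65617) (nat_lit 10) (.e (nat_lit 344154) (nat_lit 35) .nil))))) (.g (nat_lit 0) (.e (nat_lit 193606) (nat_lit 0) .nil) .nil))) 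
(.lf (nat_lit 510486) (.g (nat_lit 4526) (.e (nat_lit 172118) (nat_lit 12) (.e (nat_lit 475198) (nat_lit 40) (.e (nat_lit 704599) (nat_lit 6) (.e (nat_lit 188455) (nat_lit 24) (.e (nat_lit 229663) (nat_lit 240) (.e (nat_lit 2630) (nat_lit 164) .nil)))))) (.g (nat_lit 1) (.e (nat_lit 194827) (nat_lit 0) .nil) .nil)))) (.nd (nat_lit 9) 
(.lf (nat_lit 510230) (.g (nat_lit 1504) (.e (nat_lit 172115) (nat_lit 10) (.e (nat_lit 434244) (nat_lit 28) (.e (nat_lit 573450) (nat_lit 9) (.e (nat_lit 389) (nat_lit 32) .nil)))) (.g (nat_lit 0) (.e (nat_lit 194244) (nat_lit 0) .nil) .nil))) 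
(.lf (nat_lit 510742) (.g (nat_lit 4696) (.e (nat_lit 172120) (nat_lit 12) (.e (nat_lit 475210) (nat_lit 41) (.e (nat_lit 712752) (nat_lit 29) (.e (nat_lit 442430) (nat_lit 24) (.e (nat_lit 229663) (nat_lit 240) (.e (nat_lit 2630) (nat_lit 164) .nil)))))) (.g (nat_lit 1) (.e (nat_lit 195200) (nat_lit 0) .nil) .nil))))) (.nd (nat_lit 8) (.nd (nat_lit 9) 
(.lf (nat_lit 510102) (.g (nat_lit 5269) (.e (nat_lit 172115) (nat_lit 10) (.e (nat_lit 434231) (nat_lit 23) (.e (nat_lit 532525) (nat_lit 8) (.e (nat_lit 327715) (nat_lit 16) (.e (nat_lit 286733) (nat_lit 2) (.e (nat_lit 90170) (nat_lit 13) .nil)))))) (.g (nat_lit 1) (.e (nat_lit 194000) (nat_lit 0) .nil) .nil))) 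
(.lf (nat_lit 510614) (.g (nat_lit 1295) (.e (nat_lit 172119) (nat_lit 12) (.e (nat_lit 475211) (nat_lit 41) (.e (nat_lit 712753) (nat_lit 30) (.e (nat_lit 450565) (nat_lit 0) .nil)))) (.g (nat_lit 0) (.e (nat_lit 195004) (nat_lit 0) .nil) .nil)))) (.nd (nat_lit 9) 
(.lf (nat_lit 510358) (.g (nat_lit 4161) (.e (nat_lit 172115) (nat_lit 10) (.e (nat_lit 434244) (nat_lit 28) (.e (nat_lit 573471) (nat_lit 11) (.e (nat_lit 16473) (nat_lit 14) (.e (nat_lit 491576) (nat_lit 15) (.e (nat_lit 7936) (nat_lit 200) (.e (nat_lit 557098) (nat_lit 13) .nil))))))) (.g (nat_lit 1) (.e (nat_lit 194445) (nat_lit 0) .nil) .nil))) 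
(.lf (nat_lit 510870) (.g (nat_lit 2327) (.e (nat_lit 172123) (nat_lit 13) (.e (nat_lit 483337) (nat_lit 9) (.e (nat_lit 426099) (nat_lit 1) (.e (nat_lit 164399) (nat_lit 256) (.e (nat_lit 57372) (nat_lit 2) (.e (nat_lit 90167) (nat_lit 13) .nil)))))) (.g (nat_lit 1) (.e (nat_lit 195718) (nat_lit 0) .nil) .nil)))))) (.nd (nat_lit 7) (.nd (nat_lit 8) (.nd (nat_lit 9) 
(.lf (nat_lit 510038) (.g (nat_lit 2423) (.e (nat_lit 172115) (nat_lit 10) (.e (nat_lit 434209) (nat_lit 18) (.e (nat_lit 6425) (nat_lit 342) (.e (nat_lit 229412) (nat_lit 14) (.e (nat_lit 442392) (nat_lit 20) .nil))))) (.g (nat_lit 0) (.e (nat_lit 193889) (nat_lit 0) .nil) .nil))) 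
(.lf (nat_lit 510550) (.g (nat_lit 3238) (.e (nat_lit 172118) (nat_lit 12) (.e (nat_lit 475211) (nat_lit 41) (.e (nat_lit 712755) (nat_lit 30) (.e (nat_lit 450564) (nat_lit 0) (.e (nat_lit 5548) (nat_lit 306) (.e (nat_lit 2628) (nat_lit 164) .nil)))))) (.g (nat_lit 1) (.e (nat_lit 194920) (nat_lit 0) .nil) .nil)))) (.nd (nat_lit 9) 
(.lf (nat_lit 510294) (.g (nat_lit 2083) (.e (nat_lit 172115) (nat_lit 10) (.e (nat_lit 434244) (nat_lit 28) (.e (nat_lit 573470) (nat_lit 11) (.e (nat_lit 16438) (nat_lit 9) (.e (nat_lit 426364) (nat_lit 15) .nil))))) (.g (nat_lit 0) (.e (nat_lit 194320) (nat_lit 0) .nil) .nil))) 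
(.lf (nat_lit 510806) (.g (nat_lit 2862) (.e (nat_lit 172120) (nat_lit 12) (.e (nat_lit 475211) (nat_lit 41) (.e (nat_lit 712755) (nat_lit 30) (.e (nat_lit 450569) (nat_lit 0) (.e (nat_lit 5448) (nat_lit 306) (.e (nat_lit 2621) (nat_lit 164) .nil)))))) (.g (nat_lit 1) (.e (nat_lit 195308) (nat_lit 0) .nil) .nil))))) (.nd (nat_lit 8) (.nd (nat_lit 9) 
(.lf (nat_lit 510166) (.g (nat_lit 1007) (.e (nat_lit 172115) (nat_lit 10) (.e (nat_lit 434231) (nat_lit 23) (.e (nat_lit 532569) (nat_lit 16) (.e (nat_lit 401440) (nat_lit 9) .nil)))) (.g (nat_lit 0) (.e (nat_lit 194096) (nat_lit 0) .nil) .nil))) 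
(.lf (nat_lit 510678) (.g (nat_lit 1681) (.e (nat_lit 172120) (nat_lit 12) (.e (nat_lit 475197) (nat_lit 40) (.e (nat_lit 704598) (nat_lit 6) (.e (nat_lit 188434) (nat_lit 20) (.e (nat_lit 3406) (nat_lit 212) (.e (nat_lit 655376) (nat_lit 4) .nil)))))) (.g (nat_lit 1) (.e (nat_lit 195073) (nat_lit 0) .nil) .nil)))) (.nd (nat_lit 9) 
(.lf (nat_lit 510422) (.g (nat_lit 863) (.e (nat_lit 172116) (nat_lit 10) (.e (nat_lit 434268) (nat_lit 36) (.e (nat_lit 639020) (nat_lit 16) (.e (nat_lit 65616) (nat_lit 10) .nil)))) (.g (nat_lit 0) (.e (nat_lit 194721) (nat_lit 0) .nil) .nil))) 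
(.lf (nat_lit 510934) (.g (nat_lit 1606) (.e (nat_lit 172123) (nat_lit 13) (.e (nat_lit 483412) (nat_lit 27) (.e (nat_lit 401444) (nat_lit 9) (.e (nat_lit 425984) (nat_lit 0) .nil)))) (.g (nat_lit 0) (.e (nat_lit 195922) (nat_lit 0) .nil) .nil))))))) (.nd (nat_lit 6) (.nd (nat_lit 7) (.nd (nat_lit 8) (.nd (nat_lit 9) 
(.lf (nat_lit 510006) (.g (nat_lit 2451) (.e (nat_lit 172114) (nat_lit 10) (.e (nat_lit 434231) (nat_lit 23) (.e (nat_lit 532523) (nat_lit 7) (.e (nat_lit 319528) (nat_lit 16) .nil)))) (.g (nat_lit 0) (.e (nat_lit 193712) (nat_lit 0) .nil) .nil))) 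
(.lf (nat_lit 510518) (.g (nat_lit 1874) (.e (nat_lit 172118) (nat_lit 12) (.e (nat_lit 475210) (nat_lit 41) (.e (nat_lit 712755) (nat_lit 30) (.e (nat_lit 450563) (nat_lit 0) (.e (nat_lit 7936) (nat_lit 306) .nil))))) (.g (nat_lit 0) (.e (nat_lit 194882) (nat_lit 0) .nil) .nil)))) (.nd (nat_lit 9) 
(.lf (nat_lit 510262) (.g (nat_lit 2035) (.e (nat_lit 172115) (nat_lit 10) (.e (nat_lit 434244) (nat_lit 28) (.e (nat_lit 573454) (nat_lit 9) (.e (nat_lit 458) (nat_lit 34) .nil)))) (.g (nat_lit 0) (.e (nat_lit 194287) (nat_lit 0) .nil) .nil))) 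
(.lf (nat_lit 510774) (.g (nat_lit 3765) (.e (nat_lit 172120) (nat_lit 12) (.e (nat_lit 475211) (nat_lit 41) (.e (nat_lit 712752) (nat_lit 29) (.e (nat_lit 442421) (nat_lit 21) (.e (nat_lit 164348) (nat_lit 240) (.e (nat_lit 2619) (nat_lit 164) .nil)))))) (.g (nat_lit 1) (.e (nat_lit 195262) (nat_lit 0) .nil) .nil))))) (.nd (nat_lit 8) (.nd (nat_lit 9) 
(.lf (nat_lit 510134) (.g (nat_lit 1324) (.e (nat_lit 172115) (nat_lit 10) (.e (nat_lit 434231) (nat_lit 23) (.e (nat_lit 532566) (nat_lit 15) (.e (nat_lit 385106) (nat_lit 50) .nil)))) (.g (nat_lit 0) (.e (nat_lit 194044) (nat_lit 0) .nil) .nil))) 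
(.lf (nat_lit 510646) (.g (nat_lit 4588) (.e (nat_lit 172120) (nat_lit 12) (.e (nat_lit 475185) (nat_lit 29) (.e (nat_lit 557098) (nat_lit 13) (.e (nat_lit 172124) (nat_lit 14) (.e (nat_lit 491537) (nat_lit 2) (.e (nat_lit 90170) (nat_lit 13) .nil)))))) (.g (nat_lit 1) (.e (nat_lit 195041) (nat_lit 0) .nil) .nil)))) (.nd (nat_lit 9) 
(.lf (nat_lit 510390) (.g (nat_lit 3093) (.e (nat_lit 172115) (nat_lit 10) (.e (nat_lit 434272) (nat_lit 38) (.e (nat_lit 655378) (nat_lit 4) (.e (nat_lit 172094) (nat_lit 9) (.e (nat_lit 426025) (nat_lit 0) (.e (nat_lit 3397) (nat_lit 211) (.e (nat_lit 647183) (nat_lit 4) .nil))))))) (.g (nat_lit 1) (.e (nat_lit 194613) (nat_lit 0) .nil) .nil))) 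
(.lf (nat_lit 510902) (.g (nat_lit 2295) (.e (nat_lit 172123) (nat_lit 13) (.e (nat_lit 483364) (nat_lit 18) (.e (nat_lit 57691) (nat_lit 156) (.e (nat_lit 163907) (nat_lit 12) (.e (nat_lit 426428) (nat_lit 17) .nil))))) (.g (nat_lit 0) (.e (nat_lit 195776) (nat_lit 0) .nil) .nil)))))) (.nd (nat_lit 7) (.nd (nat_lit 8) (.nd (nat_lit 9) 
(.lf (nat_lit 510070) (.g (nat_lit 3531) (.e (nat_lit 172115) (nat_lit 10) (.e (nat_lit 434231) (nat_lit 23) (.e (nat_lit 532523) (nat_lit 7) (.e (nat_lit 319496) (nat_lit 10) .nil)))) (.g (nat_lit 0) (.e (nat_lit 193960) (nat_lit 0) .nil) .nil))) 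
(.lf (nat_lit 510582) (.g (nat_lit 738) (.e (nat_lit 172119) (nat_lit 12) (.e (nat_lit 475209) (nat_lit 41) (.e (nat_lit 712752) (nat_lit 29) (.e (nat_lit 442421) (nat_lit 21) .nil)))) (.g (nat_lit 0) (.e (nat_lit 194968) (nat_lit 0) .nil) .nil)))) (.nd (nat_lit 9) 
(.lf (nat_lit 510326) (.g (nat_lit 1552) (.e (nat_lit 172115) (nat_lit 10) (.e (nat_lit 434244) (nat_lit 28) (.e (nat_lit 573471) (nat_lit 11) (.e (nat_lit 16436) (nat_lit 9) .nil)))) (.g (nat_lit 0) (.e (nat_lit 194404) (nat_lit 0) .nil) .nil))) 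
(.lf (nat_lit 510838) (.g (nat_lit 2232) (.e (nat_lit 172122) (nat_lit 13) (.e (nat_lit 483337) (nat_lit 9) (.e (nat_lit 426100) (nat_lit 1) (.e (nat_lit 164398) (nat_lit 256) (.e (nat_lit 57371) (nat_lit 2) .nil))))) (.g (nat_lit 0) (.e (nat_lit 195497) (nat_lit 0) .nil) .nil))))) (.nd (nat_lit 8) (.nd (nat_lit 9) 
(.lf (nat_lit 510198) (.g (nat_lit 1809) (.e (nat_lit 172115) (nat_lit 10) (.e (nat_lit 434238) (nat_lit 25) (.e (nat_lit 548913) (nat_lit 18) (.e (nat_lit 172094) (nat_lit 9) .nil)))) (.g (nat_lit 0) (.e (nat_lit 194206) (nat_lit 0) .nil) .nil))) 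
(.lf (nat_lit 510710) (.g (nat_lit 2064) (.e (nat_lit 172120) (nat_lit 12) (.e (nat_lit 475198) (nat_lit 40) (.e (nat_lit 704599) (nat_lit 6) (.e (nat_lit 188453) (nat_lit 24) (.e (nat_lit 229666) (nat_lit 240) (.e (nat_lit 2621) (nat_lit 164) .nil)))))) (.g (nat_lit 1) (.e (nat_lit 195125) (nat_lit 0) .nil) .nil)))) (.nd (nat_lit 9) 
(.lf (nat_lit 510454) (.g (nat_lit 3355) (.e (nat_lit 172118) (nat_lit 12) (.e (nat_lit 475184) (nat_lit 29) (.e (nat_lit 557109) (nat_lit 15) (.e (nat_lit 188434) (nat_lit 20) (.e (nat_lit 3272) (nat_lit 199) (.e (nat_lit 548913) (nat_lit 18) .nil)))))) (.g (nat_lit 1) (.e (nat_lit 194790) (nat_lit 0) .nil) .nil))) 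
(.lf (nat_lit 510966) (.g (nat_lit 3811) (.e (nat_lit 172124) (nat_lit 14) (.e (nat_lit 491540) (nat_lit 3) (.e (nat_lit 98373) (nat_lit 29) (.e (nat_lit 450562) (nat_lit 0) (.e (nat_lit 3948) (nat_lit 239) (.e (nat_lit 2625) (nat_lit 164) .nil)))))) (.g (nat_lit 1) (.e (nat_lit 196027) (nat_lit 0) .nil) .nil))))))))) 
(.nd (nat_lit 4) (.nd (nat_lit 5) (.nd (nat_lit 6) (.nd (nat_lit 7) (.nd (nat_lit 8) 
(.nd (nat_lit 9) 
(.lf (nat_lit 509966) (.g (nat_lit 3340) (.e (nat_lit 172113) (nat_lit 10) (.e (nat_lit 434248) (nat_lit 28) (.e (nat_lit 573475) (nat_lit 12) (.e (nat_lit 57574) (nat_lit 55) (.e (nat_lit 778466) (nat_lit 11) (.e (nat_lit 24603) (nat_lit 2) (.e (nat_lit 90169) (nat_lit 13) .nil))))))) (.g (nat_lit 1) (.e (nat_lit 193585) (nat_lit 0) .nil) .nil))) 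
(.lf (nat_lit 510478) (.g (nat_lit 4240) (.e (nat_lit 172118) (nat_lit 12) (.e (nat_lit 475198) (nat_lit 40) (.e (nat_lit 704598) (nat_lit 6) (.e (nat_lit 188453) (nat_lit 24) (.e (nat_lit 229663) (nat_lit 240) (.e (nat_lit 2630) (nat_lit 164) .nil)))))) (.g (nat_lit 1) (.e (nat_lit 194819) (nat_lit 0) .nil) .nil)))) (.nd (nat_lit 9) 
(.lf (nat_lit 510222) (.g (nat_lit 2350) (.e (nat_lit 172115) (nat_lit 10) (.e (nat_lit 434244) (nat_lit 28) (.e (nat_lit 573450) (nat_lit 9) (.e (nat_lit 373) (nat_lit 32) (.e (nat_lit 426195) (nat_lit 9) .nil))))) (.g (nat_lit 0) (.e (nat_lit 194235) (nat_lit 0) .nil) .nil))) 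
(.lf (nat_lit 510734) (.g (nat_lit 1694) (.e (nat_lit 172120) (nat_lit 12) (.e (nat_lit 475210) (nat_lit 41) (.e (nat_lit 712752) (nat_lit 29) (.e (nat_lit 442419) (nat_lit 21) .nil)))) (.g (nat_lit 0) (.e (nat_lit 195192) (nat_lit 0) .nil) .nil))))) (.nd (nat_lit 8) (.nd (nat_lit 9) 
(.lf (nat_lit 510094) (.g (nat_lit 2156) (.e (nat_lit 172115) (nat_lit 10) (.e (nat_lit 434231) (nat_lit 23) (.e (nat_lit 532523) (nat_lit 7) (.e (nat_lit 319533) (nat_lit 16) .nil)))) (.g (nat_lit 0) (.e (nat_lit 193991) (nat_lit 0) .nil) .nil))) 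
(.lf (nat_lit 510606) (.g (nat_lit 2846) (.e (nat_lit 172119) (nat_lit 12) (.e (nat_lit 475211) (nat_lit 41) (.e (nat_lit 712752) (nat_lit 29) (.e (nat_lit 442421) (nat_lit 21) (.e (nat_lit 164345) (nat_lit 240) (.e (nat_lit 2619) (nat_lit 164) .nil)))))) (.g (nat_lit 1) (.e (nat_lit 194995) (nat_lit 0) .nil) .nil)))) (.nd (nat_lit 9) 
(.lf (nat_lit 510350) (.g (nat_lit 3220) (.e (nat_lit 172115) (nat_lit 10) (.e (nat_lit 434244) (nat_lit 28) (.e (nat_lit 573471) (nat_lit 11) (.e (nat_lit 16471) (nat_lit 14) .nil)))) (.g (nat_lit 0) (.e (nat_lit 194437) (nat_lit 0) .nil) .nil))) 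
(.lf (nat_lit 510862) (.g (nat_lit 1840) (.e (nat_lit 172122) (nat_lit 13) (.e (nat_lit 483413) (nat_lit 27) (.e (nat_lit 401439) (nat_lit 9) (.e (nat_lit 426043) (nat_lit 0) .nil)))) (.g (nat_lit 0) (.e (nat_lit 195664) (nat_lit 0) .nil) .nil)))))) (.nd (nat_lit 7) (.nd (nat_lit 8) (.nd (nat_lit 9) 
(.lf (nat_lit 510030) (.g (nat_lit 1424) (.e (nat_lit 172115) (nat_lit 10) (.e (nat_lit 434209) (nat_lit 18) (.e (nat_lit 5548) (nat_lit 306) (.e (nat_lit 2618) (nat_lit 164) .nil)))) (.g (nat_lit 0) (.e (nat_lit 193822) (nat_lit 0) .nil) .nil))) 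
(.lf (nat_lit 510542) (.g (nat_lit 2524) (.e (nat_lit 172118) (nat_lit 12) (.e (nat_lit 475211) (nat_lit 41) (.e (nat_lit 712753) (nat_lit 30) (.e (nat_lit 450564) (nat_lit 0) (.e (nat_lit 5546) (nat_lit 306) (.e (nat_lit 2618) (nat_lit 164) .nil)))))) (.g (nat_lit 1) (.e (nat_lit 194911) (nat_lit 0) .nil) .nil)))) (.nd (nat_lit 9) 
(.lf (nat_lit 510286) (.g (nat_lit 2864) (.e (nat_lit 172115) (nat_lit 10) (.e (nat_lit 434244) (nat_lit 28) (.e (nat_lit 573469) (nat_lit 11) (.e (nat_lit 16436) (nat_lit 9) (.e (nat_lit 426402) (nat_lit 15) .nil))))) (.g (nat_lit 0) (.e (nat_lit 194312) (nat_lit 0) .nil) .nil))) 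
(.lf (nat_lit 510798) (.g (nat_lit 1963) (.e (nat_lit 172120) (nat_lit 12) (.e (nat_lit 475211) (nat_lit 41) (.e (nat_lit 712755) (nat_lit 30) (.e (nat_lit 450562) (nat_lit 0) (.e (nat_lit 7936) (nat_lit 306) .nil))))) (.g (nat_lit 0) (.e (nat_lit 195295) (nat_lit 0) .nil) .nil))))) (.nd (nat_lit 8) (.nd (nat_lit 9) 
(.lf (nat_lit 510158) (.g (nat_lit 3924) (.e (nat_lit 172115) (nat_lit 10) (.e (nat_lit 434231) (nat_lit 23) (.e (nat_lit 532568) (nat_lit 16) (.e (nat_lit 401454) (nat_lit 12) (.e (nat_lit 475185) (nat_lit 29) (.e (nat_lit 557098) (nat_lit 13) .nil)))))) (.g (nat_lit 1) (.e (nat_lit 194081) (nat_lit 0) .nil) .nil))) 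
(.lf (nat_lit 510670) (.g (nat_lit 403) (.e (nat_lit 172120) (nat_lit 12) (.e (nat_lit 475185) (nat_lit 29) (.e (nat_lit 557109) (nat_lit 15) .nil))) (.g (nat_lit 0) (.e (nat_lit 195065) (nat_lit 0) .nil) .nil)))) (.nd (nat_lit 9) 
(.lf (nat_lit 510414) (.g (nat_lit 3426) (.e (nat_lit 172116) (nat_lit 10) (.e (nat_lit 434231) (nat_lit 23) (.e (nat_lit 532523) (nat_lit 7) (.e (nat_lit 319531) (nat_lit 16) (.e (nat_lit 286733) (nat_lit 2) .nil))))) (.g (nat_lit 0) (.e (nat_lit 194696) (nat_lit 0) .nil) .nil))) 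
(.lf (nat_lit 510926) (.g (nat_lit 1924) (.e (nat_lit 172123) (nat_lit 13) (.e (nat_lit 483410) (nat_lit 27) (.e (nat_lit 401437) (nat_lit 9) (.e (nat_lit 425986) (nat_lit 0) .nil)))) (.g (nat_lit 0) (.e (nat_lit 195882) (nat_lit 0) .nil) .nil))))))) (.nd (nat_lit 6) (.nd (nat_lit 7) (.nd (nat_lit 8) (.nd (nat_lit 9) 
(.lf (nat_lit 509998) (.g (nat_lit 1875) (.e (nat_lit 172113) (nat_lit 10) (.e (nat_lit 434289) (nat_lit 43) (.e (nat_lit 696344) (nat_lit 8) (.e (nat_lit 172113) (nat_lit 10) (.e (nat_lit 434287) (nat_lit 43) .nil))))) (.g (nat_lit 0) (.e (nat_lit 193701) (nat_lit 0) .nil) .nil))) 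
(.lf (nat_lit 510510) (.g (nat_lit 2856) (.e (nat_lit 172118) (nat_lit 12) (.e (nat_lit 475210) (nat_lit 41) (.e (nat_lit 712752) (nat_lit 29) (.e (nat_lit 442430) (nat_lit 24) (.e (nat_lit 229663) (nat_lit 240) (.e (nat_lit 2622) (nat_lit 164) .nil)))))) (.g (nat_lit 1) (.e (nat_lit 194870) (nat_lit 0) .nil) .nil)))) (.nd (nat_lit 9) 
(.lf (nat_lit 510254) (.g (nat_lit 1939) (.e (nat_lit 172115) (nat_lit 10) (.e (nat_lit 434244) (nat_lit 28) (.e (nat_lit 573451) (nat_lit 9) (.e (nat_lit 7936) (nat_lit 34) .nil)))) (.g (nat_lit 0) (.e (nat_lit 194278) (nat_lit 0) .nil) .nil))) 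
(.lf (nat_lit 510766) (.g (nat_lit 388) (.e (nat_lit 172120) (nat_lit 12) (.e (nat_lit 475211) (nat_lit 41) (.e (nat_lit 712752) (nat_lit 29) .nil))) (.g (nat_lit 0) (.e (nat_lit 195254) (nat_lit 0) .nil) .nil))))) (.nd (nat_lit 8) (.nd (nat_lit 9) 
(.lf (nat_lit 510126) (.g (nat_lit 3301) (.e (nat_lit 172115) (nat_lit 10) (.e (nat_lit 434231) (nat_lit 23) (.e (nat_lit 532563) (nat_lit 15) (.e (nat_lit 385100) (nat_lit 49) .nil)))) (.g (nat_lit 0) (.e (nat_lit 194033) (nat_lit 0) .nil) .nil))) 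
(.lf (nat_lit 510638) (.g (nat_lit 3774) (.e (nat_lit 172120) (nat_lit 12) (.e (nat_lit 475185) (nat_lit 29) (.e (nat_lit 557097) (nat_lit 13) (.e (nat_lit 172126) (nat_lit 14) (.e (nat_lit 491537) (nat_lit 2) (.e (nat_lit 90170) (nat_lit 13) .nil)))))) (.g (nat_lit 1) (.e (nat_lit 195033) (nat_lit 0) .nil) .nil)))) (.nd (nat_lit 9) 
(.lf (nat_lit 510382) (.g (nat_lit 914) (.e (nat_lit 172115) (nat_lit 10) (.e (nat_lit 434275) (nat_lit 39) (.e (nat_lit 663580) (nat_lit 9) (.e (nat_lit 7936) (nat_lit 21) .nil)))) (.g (nat_lit 0) (.e (nat_lit 194530) (nat_lit 0) .nil) .nil))) 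
(.lf (nat_lit 510894) (.g (nat_lit 1435) (.e (nat_lit 172123) (nat_lit 13) (.e (nat_lit 483341) (nat_lit 9) (.e (nat_lit 426100) (nat_lit 1) (.e (nat_lit 164398) (nat_lit 256) .nil)))) (.g (nat_lit 0) (.e (nat_lit 195743) (nat_lit 0) .nil) .nil)))))) (.nd (nat_lit 7) (.nd (nat_lit 8) (.nd (nat_lit 9) 
(.lf (nat_lit 510062) (.g (nat_lit 1608) (.e (nat_lit 172115) (nat_lit 10) (.e (nat_lit 434231) (nat_lit 23) (.e (nat_lit 532490) (nat_lit 0) (.e (nat_lit 6680) (nat_lit 357) (.e (nat_lit 3064) (nat_lit 190) .nil))))) (.g (nat_lit 0) (.e (nat_lit 193944) (nat_lit 0) .nil) .nil))) 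
(.lf (nat_lit 510574) (.g (nat_lit 1250) (.e (nat_lit 172119) (nat_lit 12) (.e (nat_lit 475198) (nat_lit 40) (.e (nat_lit 704599) (nat_lit 6) (.e (nat_lit 188445) (nat_lit 21) (.e (nat_lit 164345) (nat_lit 240) .nil))))) (.g (nat_lit 0) (.e (nat_lit 194948) (nat_lit 0) .nil) .nil)))) (.nd (nat_lit 9) 
(.lf (nat_lit 510318) (.g (nat_lit 4011) (.e (nat_lit 172115) (nat_lit 10) (.e (nat_lit 434244) (nat_lit 28) (.e (nat_lit 573471) (nat_lit 11) (.e (nat_lit 16433) (nat_lit 9) (.e (nat_lit 426392) (nat_lit 15) .nil))))) (.g (nat_lit 0) (.e (nat_lit 194395) (nat_lit 0) .nil) .nil))) 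
(.lf (nat_lit 510830) (.g (nat_lit 2143) (.e (nat_lit 172122) (nat_lit 13) (.e (nat_lit 483337) (nat_lit 9) (.e (nat_lit 426098) (nat_lit 1) (.e (nat_lit 164398) (nat_lit 256) (.e (nat_lit 57371) (nat_lit 2) .nil))))) (.g (nat_lit 0) (.e (nat_lit 195489) (nat_lit 0) .nil) .nil))))) (.nd (nat_lit 8) (.nd (nat_lit 9) 
(.lf (nat_lit 510190) (.g (nat_lit 3721) (.e (nat_lit 172115) (nat_lit 10) (.e (nat_lit 434238) (nat_lit 25) (.e (nat_lit 548897) (nat_lit 14) (.e (nat_lit 2988) (nat_lit 186) (.e (nat_lit 442374) (nat_lit 0) (.e (nat_lit 1856) (nat_lit 124) (.e (nat_lit 557101) (nat_lit 13) .nil))))))) (.g (nat_lit 1) (.e (nat_lit 194195) (nat_lit 0) .nil) .nil))) 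
(.lf (nat_lit 510702) (.g (nat_lit 4299) (.e (nat_lit 172120) (nat_lit 12) (.e (nat_lit 475198) (nat_lit 40) (.e (nat_lit 704598) (nat_lit 6) (.e (nat_lit 188455) (nat_lit 24) (.e (nat_lit 229663) (nat_lit 240) (.e (nat_lit 2630) (nat_lit 164) .nil)))))) (.g (nat_lit 1) (.e (nat_lit 195116) (nat_lit 0) .nil) .nil)))) (.nd (nat_lit 9) 
(.lf (nat_lit 510446) (.g (nat_lit 1003) (.e (nat_lit 172117) (nat_lit 11) (.e (nat_lit 458789) (nat_lit 23) (.e (nat_lit 532569) (nat_lit 16) .nil))) (.g (nat_lit 0) (.e (nat_lit 194781) (nat_lit 0) .nil) .nil))) 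
(.lf (nat_lit 510958) (.g (nat_lit 3966) (.e (nat_lit 172124) (nat_lit 14) (.e (nat_lit 491540) (nat_lit 3) (.e (nat_lit 98370) (nat_lit 28) (.e (nat_lit 442412) (nat_lit 20) (.e (nat_lit 3272) (nat_lit 199) (.e (nat_lit 548913) (nat_lit 18) .nil)))))) (.g (nat_lit 1) (.e (nat_lit 196018) (nat_lit 0) .nil) .nil)))))))) 
(.nd (nat_lit 5) (.nd (nat_lit 6) (.nd (nat_lit 7) (.nd (nat_lit 8) (.nd (nat_lit 9) 
(.lf (nat_lit 509982) (.g (nat_lit 328) (.e (nat_lit 172113) (nat_lit 10) (.e (nat_lit 434276) (nat_lit 39) (.e (nat_lit 663589) (nat_lit 14) .nil))) (.g (nat_lit 0) (.e (nat_lit 193641) (nat_lit 0) .nil) .nil))) 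
(.lf (nat_lit 510494) (.g (nat_lit 4111) (.e (nat_lit 172118) (nat_lit 12) (.e (nat_lit 475199) (nat_lit 40) (.e (nat_lit 704598) (nat_lit 6) (.e (nat_lit 188455) (nat_lit 24) (.e (nat_lit 229663) (nat_lit 240) (.e (nat_lit 2630) (nat_lit 164) .nil)))))) (.g (nat_lit 1) (.e (nat_lit 194835) (nat_lit 0) .nil) .nil)))) (.nd (nat_lit 9) 
(.lf (nat_lit 510238) (.g (nat_lit 1141) (.e (nat_lit 172115) (nat_lit 10) (.e (nat_lit 434244) (nat_lit 28) (.e (nat_lit 573450) (nat_lit 9) (.e (nat_lit 457) (nat_lit 34) .nil)))) (.g (nat_lit 0) (.e (nat_lit 194258) (nat_lit 0) .nil) .nil))) 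
(.lf (nat_lit 510750) (.g (nat_lit 1358) (.e (nat_lit 172120) (nat_lit 12) (.e (nat_lit 475210) (nat_lit 41) (.e (nat_lit 712755) (nat_lit 30) (.e (nat_lit 450560) (nat_lit 0) .nil)))) (.g (nat_lit 0) (.e (nat_lit 195218) (nat_lit 0) .nil) .nil))))) (.nd (nat_lit 8) (.nd (nat_lit 9) 
(.lf (nat_lit 510110) (.g (nat_lit 1966) (.e (nat_lit 172115) (nat_lit 10) (.e (nat_lit 434231) (nat_lit 23) (.e (nat_lit 532529) (nat_lit 9) (.e (nat_lit 343808) (nat_lit 19) .nil)))) (.g (nat_lit 0) (.e (nat_lit 194009) (nat_lit 0) .nil) .nil))) 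
(.lf (nat_lit 510622) (.g (nat_lit 3227) (.e (nat_lit 172119) (nat_lit 12) (.e (nat_lit 475211) (nat_lit 41) (.e (nat_lit 712755) (nat_lit 30) (.e (nat_lit 450564) (nat_lit 0) (.e (nat_lit 5548) (nat_lit 306) (.e (nat_lit 2619) (nat_lit 164) .nil)))))) (.g (nat_lit 1) (.e (nat_lit 195015) (nat_lit 0) .nil) .nil)))) (.nd (nat_lit 9) 
(.lf (nat_lit 510366) (.g (nat_lit 2961) (.e (nat_lit 172115) (nat_lit 10) (.e (nat_lit 434244) (nat_lit 28) (.e (nat_lit 573474) (nat_lit 12) (.e (nat_lit 57572) (nat_lit 54) .nil)))) (.g (nat_lit 0) (.e (nat_lit 194459) (nat_lit 0) .nil) .nil))) 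
(.lf (nat_lit 510878) (.g (nat_lit 3992) (.e (nat_lit 172123) (nat_lit 13) (.e (nat_lit 483337) (nat_lit 9) (.e (nat_lit 426100) (nat_lit 1) (.e (nat_lit 164403) (nat_lit 256) (.e (nat_lit 57373) (nat_lit 2) (.e (nat_lit 90168) (nat_lit 13) .nil)))))) (.g (nat_lit 1) (.e (nat_lit 195726) (nat_lit 0) .nil) .nil)))))) (.nd (nat_lit 7) (.nd (nat_lit 8) (.nd (nat_lit 9) 
(.lf (nat_lit 510046) (.g (nat_lit 1269) (.e (nat_lit 172115) (nat_lit 10) (.e (nat_lit 434209) (nat_lit 18) (.e (nat_lit 6428) (nat_lit 342) (.e (nat_lit 229412) (nat_lit 14) (.e (nat_lit 442411) (nat_lit 20) .nil))))) (.g (nat_lit 0) (.e (nat_lit 193916) (nat_lit 0) .nil) .nil))) 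
(.lf (nat_lit 510558) (.g (nat_lit 2305) (.e (nat_lit 172119) (nat_lit 12) (.e (nat_lit 475179) (nat_lit 24) (.e (nat_lit 516124) (nat_lit 2) (.e (nat_lit 213032) (nat_lit 11) (.e (nat_lit 24605) (nat_lit 2) (.e (nat_lit 90169) (nat_lit 13) .nil)))))) (.g (nat_lit 1) (.e (nat_lit 194931) (nat_lit 0) .nil) .nil)))) (.nd (nat_lit 9) 
(.lf (nat_lit 510302) (.g (nat_lit 2949) (.e (nat_lit 172115) (nat_lit 10) (.e (nat_lit 434244) (nat_lit 28) (.e (nat_lit 573471) (nat_lit 11) (.e (nat_lit 16387) (nat_lit 0) .nil)))) (.g (nat_lit 0) (.e (nat_lit 194328) (nat_lit 0) .nil) .nil))) 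
(.lf (nat_lit 510814) (.g (nat_lit 2749) (.e (nat_lit 172121) (nat_lit 13) (.e (nat_lit 483337) (nat_lit 9) (.e (nat_lit 426108) (nat_lit 1) (.e (nat_lit 164402) (nat_lit 256) (.e (nat_lit 57371) (nat_lit 2) (.e (nat_lit 90169) (nat_lit 13) .nil)))))) (.g (nat_lit 1) (.e (nat_lit 195318) (nat_lit 0) .nil) .nil))))) (.nd (nat_lit 8) (.nd (nat_lit 9) 
(.lf (nat_lit 510174) (.g (nat_lit 5107) (.e (nat_lit 172115) (nat_lit 10) (.e (nat_lit 434231) (nat_lit 23) (.e (nat_lit 532569) (nat_lit 16) (.e (nat_lit 401451) (nat_lit 12) (.e (nat_lit 475184) (nat_lit 29) (.e (nat_lit 557098) (nat_lit 13) .nil)))))) (.g (nat_lit 1) (.e (nat_lit 194136) (nat_lit 0) .nil) .nil))) 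
(.lf (nat_lit 510686) (.g (nat_lit 3049) (.e (nat_lit 172120) (nat_lit 12) (.e (nat_lit 475197) (nat_lit 40) (.e (nat_lit 704598) (nat_lit 6) (.e (nat_lit 188455) (nat_lit 24) (.e (nat_lit 229665) (nat_lit 240) (.e (nat_lit 2630) (nat_lit 164) .nil)))))) (.g (nat_lit 1) (.e (nat_lit 195088) (nat_lit 0) .nil) .nil)))) (.nd (nat_lit 9) 
(.lf (nat_lit 510430) (.g (nat_lit 401) (.e (nat_lit 172116) (nat_lit 10) (.e (nat_lit 434272) (nat_lit 38) (.e (nat_lit 655380) (nat_lit 6) .nil))) (.g (nat_lit 0) (.e (nat_lit 194748) (nat_lit 0) .nil) .nil))) 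
(.lf (nat_lit 510942) (.g (nat_lit 712) (.e (nat_lit 172124) (nat_lit 14) (.e (nat_lit 491537) (nat_lit 2) (.e (nat_lit 90166) (nat_lit 13) .nil))) (.g (nat_lit 0) (.e (nat_lit 196002) (nat_lit 0) .nil) .nil))))))) (.nd (nat_lit 6) (.nd (nat_lit 7) (.nd (nat_lit 8) (.nd (nat_lit 9) 
(.lf (nat_lit 510014) (.g (nat_lit 3779) (.e (nat_lit 172114) (nat_lit 10) (.e (nat_lit 434231) (nat_lit 23) (.e (nat_lit 532535) (nat_lit 9) (.e (nat_lit 336295) (nat_lit 15) .nil)))) (.g (nat_lit 0) (.e (nat_lit 193722) (nat_lit 0) .nil) .nil))) 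
(.lf (nat_lit 510526) (.g (nat_lit 2725) (.e (nat_lit 172118) (nat_lit 12) (.e (nat_lit 475210) (nat_lit 41) (.e (nat_lit 712755) (nat_lit 30) (.e (nat_lit 450568) (nat_lit 0) (.e (nat_lit 5448) (nat_lit 306) (.e (nat_lit 2630) (nat_lit 164) .nil)))))) (.g (nat_lit 1) (.e (nat_lit 194891) (nat_lit 0) .nil) .nil)))) (.nd (nat_lit 9) 
(.lf (nat_lit 510270) (.g (nat_lit 1196) (.e (nat_lit 172115) (nat_lit 10) (.e (nat_lit 434244) (nat_lit 28) (.e (nat_lit 573458) (nat_lit 9) (.e (nat_lit 422) (nat_lit 32) .nil)))) (.g (nat_lit 0) (.e (nat_lit 194295) (nat_lit 0) .nil) .nil))) 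
(.lf (nat_lit 510782) (.g (nat_lit 2640) (.e (nat_lit 172120) (nat_lit 12) (.e (nat_lit 475211) (nat_lit 41) (.e (nat_lit 712753) (nat_lit 30) (.e (nat_lit 450564) (nat_lit 0) (.e (nat_lit 5546) (nat_lit 306) (.e (nat_lit 2628) (nat_lit 164) .nil)))))) (.g (nat_lit 1) (.e (nat_lit 195271) (nat_lit 0) .nil) .nil))))) (.nd (nat_lit 8) (.nd (nat_lit 9) 
(.lf (nat_lit 510142) (.g (nat_lit 3637) (.e (nat_lit 172115) (nat_lit 10) (.e (nat_lit 434231) (nat_lit 23) (.e (nat_lit 532567) (nat_lit 16) (.e (nat_lit 401453) (nat_lit 12) (.e (nat_lit 475183) (nat_lit 29) (.e (nat_lit 557101) (nat_lit 13) .nil)))))) (.g (nat_lit 1) (.e (nat_lit 194052) (nat_lit 0) .nil) .nil))) 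
(.lf (nat_lit 510654) (.g (nat_lit 2377) (.e (nat_lit 172120) (nat_lit 12) (.e (nat_lit 475185) (nat_lit 29) (.e (nat_lit 557100) (nat_lit 13) (.e (nat_lit 172113) (nat_lit 10) (.e (nat_lit 434238) (nat_lit 25) (.e (nat_lit 548912) (nat_lit 18) .nil)))))) (.g (nat_lit 1) (.e (nat_lit 195049) (nat_lit 0) .nil) .nil)))) (.nd (nat_lit 9) 
(.lf (nat_lit 510398) (.g (nat_lit 1286) (.e (nat_lit 172116) (nat_lit 10) (.e (nat_lit 434209) (nat_lit 18) (.e (nat_lit 5546) (nat_lit 306) (.e (nat_lit 2648) (nat_lit 166) .nil)))) (.g (nat_lit 0) (.e (nat_lit 194671) (nat_lit 0) .nil) .nil))) 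
(.lf (nat_lit 510910) (.g (nat_lit 1086) (.e (nat_lit 172123) (nat_lit 13) (.e (nat_lit 483395) (nat_lit 24) (.e (nat_lit 344160) (nat_lit 37) (.e (nat_lit 647195) (nat_lit 9) .nil)))) (.g (nat_lit 0) (.e (nat_lit 195850) (nat_lit 0) .nil) .nil)))))) (.nd (nat_lit 7) (.nd (nat_lit 8) (.nd (nat_lit 9) 
(.lf (nat_lit 510078) (.g (nat_lit 3873) (.e (nat_lit 172115) (nat_lit 10) (.e (nat_lit 434231) (nat_lit 23) (.e (nat_lit 532523) (nat_lit 7) (.e (nat_lit 319505) (nat_lit 10) (.e (nat_lit 5245) (nat_lit 298) .nil))))) (.g (nat_lit 0) (.e (nat_lit 193968) (nat_lit 0) .nil) .nil))) 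
(.lf (nat_lit 510590) (.g (nat_lit 1084) (.e (nat_lit 172119) (nat_lit 12) (.e (nat_lit 475210) (nat_lit 41) (.e (nat_lit 712753) (nat_lit 30) (.e (nat_lit 458496) (nat_lit 0) .nil)))) (.g (nat_lit 0) (.e (nat_lit 194978) (nat_lit 0) .nil) .nil)))) (.nd (nat_lit 9) 
(.lf (nat_lit 510334) (.g (nat_lit 1791) (.e (nat_lit 172115) (nat_lit 10) (.e (nat_lit 434244) (nat_lit 28) (.e (nat_lit 573471) (nat_lit 11) (.e (nat_lit 16440) (nat_lit 9) (.e (nat_lit 426411) (nat_lit 15) .nil))))) (.g (nat_lit 0) (.e (nat_lit 194412) (nat_lit 0) .nil) .nil))) 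
(.lf (nat_lit 510846) (.g (nat_lit 3411) (.e (nat_lit 172122) (nat_lit 13) (.e (nat_lit 483337) (nat_lit 9) (.e (nat_lit 426108) (nat_lit 1) (.e (nat_lit 164403) (nat_lit 256) (.e (nat_lit 57373) (nat_lit 2) (.e (nat_lit 90169) (nat_lit 13) .nil)))))) (.g (nat_lit 1) (.e (nat_lit 195505) (nat_lit 0) .nil) .nil))))) (.nd (nat_lit 8) (.nd (nat_lit 9) 
(.lf (nat_lit 510206) (.g (nat_lit 1684) (.e (nat_lit 172115) (nat_lit 10) (.e (nat_lit 434244) (nat_lit 28) (.e (nat_lit 573448) (nat_lit 9) (.e (nat_lit 396) (nat_lit 32) .nil)))) (.g (nat_lit 0) (.e (nat_lit 194216) (nat_lit 0) .nil) .nil))) 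
(.lf (nat_lit 510718) (.g (nat_lit 2672) (.e (nat_lit 172120) (nat_lit 12) (.e (nat_lit 475199) (nat_lit 40) (.e (nat_lit 704598) (nat_lit 6) (.e (nat_lit 188453) (nat_lit 24) (.e (nat_lit 229663) (nat_lit 240) (.e (nat_lit 2620) (nat_lit 164) .nil)))))) (.g (nat_lit 1) (.e (nat_lit 195144) (nat_lit 0) .nil) .nil)))) (.nd (nat_lit 9) 
(.lf (nat_lit 510462) (.g (nat_lit 1823) (.e (nat_lit 172118) (nat_lit 12) (.e (nat_lit 475185) (nat_lit 29) (.e (nat_lit 557100) (nat_lit 13) (.e (nat_lit 172039) (nat_lit 0) .nil)))) (.g (nat_lit 0) (.e (nat_lit 194798) (nat_lit 0) .nil) .nil))) 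
(.lf (nat_lit 510974) (.g (nat_lit 3884) (.e (nat_lit 172124) (nat_lit 14) (.e (nat_lit 491540) (nat_lit 3) (.e (nat_lit 98373) (nat_lit 29) (.e (nat_lit 450563) (nat_lit 0) (.e (nat_lit 3966) (nat_lit 239) (.e (nat_lit 2625) (nat_lit 164) .nil)))))) (.g (nat_lit 1) (.e (nat_lit 196035) (nat_lit 0) .nil) .nil)))))))))))) 
(.nd (nat_lit 1) (.nd (nat_lit 2) (.nd (nat_lit 3) (.nd (nat_lit 4) (.nd (nat_lit 5) 
(.nd (nat_lit 6) (.nd (nat_lit 7) (.nd (nat_lit 8) (.nd (nat_lit 9) 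
(.lf (nat_lit 509953) (.g (nat_lit 3954) (.e (nat_lit 172113) (nat_lit 10) (.e (nat_lit 434248) (nat_lit 28) (.e (nat_lit 573471) (nat_lit 11) (.e (nat_lit 16433) (nat_lit 9) (.e (nat_lit 433920) (nat_lit 15) (.e (nat_lit 1860) (nat_lit 124) (.e (nat_lit 557100) (nat_lit 13) .nil))))))) (.g (nat_lit 1) (.e (nat_lit 193570) (nat_lit 0) .nil) .nil))) 
(.lf (nat_lit 510465) (.g (nat_lit 2327) (.e (nat_lit 172118) (nat_lit 12) (.e (nat_lit 475185) (nat_lit 29) (.e (nat_lit 557100) (nat_lit 13) (.e (nat_lit 172080) (nat_lit 7) (.e (nat_lit 409631) (nat_lit 12) .nil))))) (.g (nat_lit 0) (.e (nat_lit 194801) (nat_lit 0) .nil) .nil)))) (.nd (nat_lit 9) 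
(.lf (nat_lit 510209) (.g (nat_lit 1538) (.e (nat_lit 172115) (nat_lit 10) (.e (nat_lit 434244) (nat_lit 28) (.e (nat_lit 573449) (nat_lit 9) (.e (nat_lit 372) (nat_lit 32) .nil)))) (.g (nat_lit 0) (.e (nat_lit 194219) (nat_lit 0) .nil) .nil))) 
(.lf (nat_lit 510721) (.g (nat_lit 2411) (.e (nat_lit 172120) (nat_lit 12) (.e (nat_lit 475199) (nat_lit 40) (.e (nat_lit 704598) (nat_lit 6) (.e (nat_lit 188453) (nat_lit 24) (.e (nat_lit 229665) (nat_lit 240) (.e (nat_lit 2621) (nat_lit 164) .nil)))))) (.g (nat_lit 1) (.e (nat_lit 195147) (nat_lit 0) .nil) .nil))))) (.nd (nat_lit 8) (.nd (nat_lit 9) 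
(.lf (nat_lit 510081) (.g (nat_lit 2275) (.e (nat_lit 172115) (nat_lit 10) (.e (nat_lit 434231) (nat_lit 23) (.e (nat_lit 532523) (nat_lit 7) (.e (nat_lit 319538) (nat_lit 19) .nil)))) (.g (nat_lit 0) (.e (nat_lit 193976) (nat_lit 0) .nil) .nil))) 
(.lf (nat_lit 510593) (.g (nat_lit 1160) (.e (nat_lit 172119) (nat_lit 12) (.e (nat_lit 475210) (nat_lit 41) (.e (nat_lit 712755) (nat_lit 30) (.e (nat_lit 458496) (nat_lit 0) .nil)))) (.g (nat_lit 0) (.e (nat_lit 194982) (nat_lit 0) .nil) .nil)))) (.nd (nat_lit 9) 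
(.lf (nat_lit 510337) (.g (nat_lit 3141) (.e (nat_lit 172115) (nat_lit 10) (.e (nat_lit 434244) (nat_lit 28) (.e (nat_lit 573471) (nat_lit 11) (.e (nat_lit 16443) (nat_lit 9) .nil)))) (.g (nat_lit 0) (.e (nat_lit 194415) (nat_lit 0) .nil) .nil))) 
(.lf (nat_lit 510849) (.g (nat_lit 2611) (.e (nat_lit 172122) (nat_lit 13) (.e (nat_lit 483341) (nat_lit 9) (.e (nat_lit 426100) (nat_lit 1) (.e (nat_lit 164403) (nat_lit 256) (.e (nat_lit 57371) (nat_lit 2) .nil))))) (.g (nat_lit 0) (.e (nat_lit 195508) (nat_lit 0) .nil) .nil)))))) (.nd (nat_lit 7) (.nd (nat_lit 8) (.nd (nat_lit 9) 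
(.lf (nat_lit 510017) (.g (nat_lit 3539) (.e (nat_lit 172114) (nat_lit 10) (.e (nat_lit 434231) (nat_lit 23) (.e (nat_lit 532563) (nat_lit 15) (.e (nat_lit 385094) (nat_lit 49) (.e (nat_lit 778318) (nat_lit 3) .nil))))) (.g (nat_lit 0) (.e (nat_lit 193725) (nat_lit 0) .nil) .nil))) 
(.lf (nat_lit 510529) (.g (nat_lit 2092) (.e (nat_lit 172118) (nat_lit 12) (.e (nat_lit 475211) (nat_lit 41) (.e (nat_lit 712750) (nat_lit 29) (.e (nat_lit 442421) (nat_lit 21) (.e (nat_lit 164346) (nat_lit 240) (.e (nat_lit 2618) (nat_lit 164) .nil)))))) (.g (nat_lit 1) (.e (nat_lit 194896) (nat_lit 0) .nil) .nil)))) (.nd (nat_lit 9) 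
(.lf (nat_lit 510273) (.g (nat_lit 3395) (.e (nat_lit 172115) (nat_lit 10) (.e (nat_lit 434244) (nat_lit 28) (.e (nat_lit 573458) (nat_lit 9) (.e (nat_lit 426) (nat_lit 32) (.e (nat_lit 426188) (nat_lit 9) (.e (nat_lit 426402) (nat_lit 15) (.e (nat_lit 1858) (nat_lit 124) (.e (nat_lit 557101) (nat_lit 13) .nil)))))))) (.g (nat_lit 1) (.e (nat_lit 194298) (nat_lit 0) .nil) .nil))) 
(.lf (nat_lit 510785) (.g (nat_lit 2903) (.e (nat_lit 172120) (nat_lit 12) (.e (nat_lit 475211) (nat_lit 41) (.e (nat_lit 712753) (nat_lit 30) (.e (nat_lit 450564) (nat_lit 0) (.e (nat_lit 5548) (nat_lit 306) (.e (nat_lit 2629) (nat_lit 164) .nil)))))) (.g (nat_lit 1) (.e (nat_lit 195275) (nat_lit 0) .nil) .nil))))) (.nd (nat_lit 8) (.nd (nat_lit 9) 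
(.lf (nat_lit 510145) (.g (nat_lit 3866) (.e (nat_lit 172115) (nat_lit 10) (.e (nat_lit 434231) (nat_lit 23) (.e (nat_lit 532567) (nat_lit 16) (.e (nat_lit 401454) (nat_lit 12) (.e (nat_lit 475183) (nat_lit 29) (.e (nat_lit 557098) (nat_lit 13) .nil)))))) (.g (nat_lit 1) (.e (nat_lit 194062) (nat_lit 0) .nil) .nil))) 
(.lf (nat_lit 510657) (.g (nat_lit 2300) (.e (nat_lit 172120) (nat_lit 12) (.e (nat_lit 475185) (nat_lit 29) (.e (nat_lit 557100) (nat_lit 13) (.e (nat_lit 172120) (nat_lit 12) (.e (nat_lit 475185) (nat_lit 29) (.e (nat_lit 557101) (nat_lit 13) .nil)))))) (.g (nat_lit 1) (.e (nat_lit 195052) (nat_lit 0) .nil) .nil)))) (.nd (nat_lit 9) 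
(.lf (nat_lit 510401) (.g (nat_lit 649) (.e (nat_lit 172116) (nat_lit 10) (.e (nat_lit 434209) (nat_lit 18) (.e (nat_lit 5547) (nat_lit 306) .nil))) (.g (nat_lit 0) (.e (nat_lit 194674) (nat_lit 0) .nil) .nil))) 
(.lf (nat_lit 510913) (.g (nat_lit 648) (.e (nat_lit 172123) (nat_lit 13) (.e (nat_lit 483403) (nat_lit 26) (.e (nat_lit 385096) (nat_lit 49) .nil))) (.g (nat_lit 0) (.e (nat_lit 195854) (nat_lit 0) .nil) .nil))))))) (.nd (nat_lit 6) (.nd (nat_lit 7) (.nd (nat_lit 8) (.nd (nat_lit 9) 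
(.lf (nat_lit 509985) (.g (nat_lit 1830) (.e (nat_lit 172113) (nat_lit 10) (.e (nat_lit 434279) (nat_lit 39) (.e (nat_lit 663583) (nat_lit 11) (.e (nat_lit 24641) (nat_lit 10) (.e (nat_lit 344154) (nat_lit 35) (.e (nat_lit 630802) (nat_lit 8) .nil)))))) (.g (nat_lit 1) (.e (nat_lit 193644) (nat_lit 0) .nil) .nil))) 
(.lf (nat_lit 510497) (.g (nat_lit 1506) (.e (nat_lit 172118) (nat_lit 12) (.e (nat_lit 475209) (nat_lit 41) (.e (nat_lit 712752) (nat_lit 29) (.e (nat_lit 442421) (nat_lit 21) (.e (nat_lit 164346) (nat_lit 240) (.e (nat_lit 2618) (nat_lit 164) .nil)))))) (.g (nat_lit 1) (.e (nat_lit 194845) (nat_lit 0) .nil) .nil)))) (.nd (nat_lit 9) 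
(.lf (nat_lit 510241) (.g (nat_lit 1452) (.e (nat_lit 172115) (nat_lit 10) (.e (nat_lit 434244) (nat_lit 28) (.e (nat_lit 573450) (nat_lit 9) (.e (nat_lit 459) (nat_lit 34) .nil)))) (.g (nat_lit 0) (.e (nat_lit 194261) (nat_lit 0) .nil) .nil))) 
(.lf (nat_lit 510753) (.g (nat_lit 3382) (.e (nat_lit 172120) (nat_lit 12) (.e (nat_lit 475210) (nat_lit 41) (.e (nat_lit 712755) (nat_lit 30) (.e (nat_lit 450564) (nat_lit 0) (.e (nat_lit 5548) (nat_lit 306) (.e (nat_lit 2628) (nat_lit 164) .nil)))))) (.g (nat_lit 1) (.e (nat_lit 195232) (nat_lit 0) .nil) .nil))))) (.nd (nat_lit 8) (.nd (nat_lit 9) 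
(.lf (nat_lit 510113) (.g (nat_lit 510) (.e (nat_lit 172115) (nat_lit 10) (.e (nat_lit 434231) (nat_lit 23) (.e (nat_lit 532532) (nat_lit 9) .nil))) (.g (nat_lit 0) (.e (nat_lit 194013) (nat_lit 0) .nil) .nil))) 
(.lf (nat_lit 510625) (.g (nat_lit 1358) (.e (nat_lit 172119) (nat_lit 12) (.e (nat_lit 475211) (nat_lit 41) (.e (nat_lit 712755) (nat_lit 30) (.e (nat_lit 450566) (nat_lit 0) .nil)))) (.g (nat_lit 0) (.e (nat_lit 195018) (nat_lit 0) .nil) .nil)))) (.nd (nat_lit 9) 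
(.lf (nat_lit 510369) (.g (nat_lit 1369) (.e (nat_lit 172115) (nat_lit 10) (.e (nat_lit 434244) (nat_lit 28) (.e (nat_lit 573502) (nat_lit 18) (.e (nat_lit 1359) (nat_lit 102) .nil)))) (.g (nat_lit 0) (.e (nat_lit 194462) (nat_lit 0) .nil) .nil))) 
(.lf (nat_lit 510881) (.g (nat_lit 1281) (.e (nat_lit 172123) (nat_lit 13) (.e (nat_lit 483337) (nat_lit 9) (.e (nat_lit 426107) (nat_lit 1) (.e (nat_lit 164401) (nat_lit 256) .nil)))) (.g (nat_lit 0) (.e (nat_lit 195730) (nat_lit 0) .nil) .nil)))))) (.nd (nat_lit 7) (.nd (nat_lit 8) (.nd (nat_lit 9) 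
(.lf (nat_lit 510049) (.g (nat_lit 2920) (.e (nat_lit 172115) (nat_lit 10) (.e (nat_lit 434227) (nat_lit 20) (.e (nat_lit 507930) (nat_lit 10) (.e (nat_lit 5627) (nat_lit 312) (.e (nat_lit 3071) (nat_lit 190) (.e (nat_lit 475185) (nat_lit 29) (.e (nat_lit 557101) (nat_lit 13) .nil))))))) (.g (nat_lit 1) (.e (nat_lit 193920) (nat_lit 0) .nil) .nil))) 
(.lf (nat_lit 510561) (.g (nat_lit 3002) (.e (nat_lit 172119) (nat_lit 12) (.e (nat_lit 475184) (nat_lit 29) (.e (nat_lit 557109) (nat_lit 15) (.e (nat_lit 188434) (nat_lit 20) (.e (nat_lit 3271) (nat_lit 199) (.e (nat_lit 548913) (nat_lit 18) .nil)))))) (.g (nat_lit 1) (.e (nat_lit 194934) (nat_lit 0) .nil) .nil)))) (.nd (nat_lit 9) 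
(.lf (nat_lit 510305) (.g (nat_lit 3008) (.e (nat_lit 172115) (nat_lit 10) (.e (nat_lit 434244) (nat_lit 28) (.e (nat_lit 573471) (nat_lit 11) (.e (nat_lit 16399) (nat_lit 0) .nil)))) (.g (nat_lit 0) (.e (nat_lit 194338) (nat_lit 0) .nil) .nil))) 
(.lf (nat_lit 510817) (.g (nat_lit 1797) (.e (nat_lit 172121) (nat_lit 13) (.e (nat_lit 483341) (nat_lit 9) (.e (nat_lit 426108) (nat_lit 1) (.e (nat_lit 164403) (nat_lit 256) (.e (nat_lit 57370) (nat_lit 2) .nil))))) (.g (nat_lit 0) (.e (nat_lit 195321) (nat_lit 0) .nil) .nil))))) (.nd (nat_lit 8) (.nd (nat_lit 9) 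
(.lf (nat_lit 510177) (.g (nat_lit 2531) (.e (nat_lit 172115) (nat_lit 10) (.e (nat_lit 434231) (nat_lit 23) (.e (nat_lit 532569) (nat_lit 16) (.e (nat_lit 401451) (nat_lit 12) (.e (nat_lit 483072) (nat_lit 29) (.e (nat_lit 557098) (nat_lit 13) .nil)))))) (.g (nat_lit 1) (.e (nat_lit 194140) (nat_lit 0) .nil) .nil))) 
(.lf (nat_lit 510689) (.g (nat_lit 319) (.e (nat_lit 172120) (nat_lit 12) (.e (nat_lit 475198) (nat_lit 40) (.e (nat_lit 704598) (nat_lit 6) .nil))) (.g (nat_lit 0) (.e (nat_lit 195102) (nat_lit 0) .nil) .nil)))) (.nd (nat_lit 9) 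
(.lf (nat_lit 510433) (.g (nat_lit 2162) (.e (nat_lit 172116) (nat_lit 10) (.e (nat_lit 434289) (nat_lit 43) (.e (nat_lit 696344) (nat_lit 8) (.e (nat_lit 172106) (nat_lit 10) (.e (nat_lit 434287) (nat_lit 43) (.e (nat_lit 696344) (nat_lit 8) .nil)))))) (.g (nat_lit 1) (.e (nat_lit 194768) (nat_lit 0) .nil) .nil))) 
(.lf (nat_lit 510945) (.g (nat_lit 584) (.e (nat_lit 172124) (nat_lit 14) (.e (nat_lit 491537) (nat_lit 2) (.e (nat_lit 90169) (nat_lit 13) .nil))) (.g (nat_lit 0) (.e (nat_lit 196005) (nat_lit 0) .nil) .nil)))))))) (.nd (nat_lit 5) (.nd (nat_lit 6) (.nd (nat_lit 7) (.nd (nat_lit 8) (.nd (nat_lit 9) 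
(.lf (nat_lit 509969) (.g (nat_lit 1874) (.e (nat_lit 172113) (nat_lit 10) (.e (nat_lit 434248) (nat_lit 28) (.e (nat_lit 573503) (nat_lit 18) (.e (nat_lit 1358) (nat_lit 102) (.e (nat_lit 286753) (nat_lit 10) .nil))))) (.g (nat_lit 0) (.e (nat_lit 193599) (nat_lit 0) .nil) .nil))) 
(.lf (nat_lit 510481) (.g (nat_lit 381) (.e (nat_lit 172118) (nat_lit 12) (.e (nat_lit 475198) (nat_lit 40) (.e (nat_lit 704599) (nat_lit 6) .nil))) (.g (nat_lit 0) (.e (nat_lit 194822) (nat_lit 0) .nil) .nil)))) (.nd (nat_lit 9) 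
(.lf (nat_lit 510225) (.g (nat_lit 2848) (.e (nat_lit 172115) (nat_lit 10) (.e (nat_lit 434244) (nat_lit 28) (.e (nat_lit 573450) (nat_lit 9) (.e (nat_lit 375) (nat_lit 32) (.e (nat_lit 426201) (nat_lit 9) (.e (nat_lit 426399) (nat_lit 15) (.e (nat_lit 1848) (nat_lit 124) (.e (nat_lit 557097) (nat_lit 13) .nil)))))))) (.g (nat_lit 1) (.e (nat_lit 194239) (nat_lit 0) .nil) .nil))) 
(.lf (nat_lit 510737) (.g (nat_lit 2960) (.e (nat_lit 172120) (nat_lit 12) (.e (nat_lit 475210) (nat_lit 41) (.e (nat_lit 712752) (nat_lit 29) (.e (nat_lit 442421) (nat_lit 21) (.e (nat_lit 164345) (nat_lit 240) (.e (nat_lit 2629) (nat_lit 164) .nil)))))) (.g (nat_lit 1) (.e (nat_lit 195195) (nat_lit 0) .nil) .nil))))) (.nd (nat_lit 8) (.nd (nat_lit 9) 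
(.lf (nat_lit 510097) (.g (nat_lit 4288) (.e (nat_lit 172115) (nat_lit 10) (.e (nat_lit 434231) (nat_lit 23) (.e (nat_lit 532523) (nat_lit 7) (.e (nat_lit 319534) (nat_lit 16) (.e (nat_lit 286732) (nat_lit 2) (.e (nat_lit 90170) (nat_lit 13) .nil)))))) (.g (nat_lit 1) (.e (nat_lit 193994) (nat_lit 0) .nil) .nil))) 
(.lf (nat_lit 510609) (.g (nat_lit 1371) (.e (nat_lit 172119) (nat_lit 12) (.e (nat_lit 475211) (nat_lit 41) (.e (nat_lit 712752) (nat_lit 29) (.e (nat_lit 442430) (nat_lit 24) .nil)))) (.g (nat_lit 0) (.e (nat_lit 194998) (nat_lit 0) .nil) .nil)))) (.nd (nat_lit 9) 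
(.lf (nat_lit 510353) (.g (nat_lit 4103) (.e (nat_lit 172115) (nat_lit 10) (.e (nat_lit 434244) (nat_lit 28) (.e (nat_lit 573471) (nat_lit 11) (.e (nat_lit 16473) (nat_lit 14) (.e (nat_lit 491574) (nat_lit 15) .nil))))) (.g (nat_lit 0) (.e (nat_lit 194440) (nat_lit 0) .nil) .nil))) 
(.lf (nat_lit 510865) (.g (nat_lit 2574) (.e (nat_lit 172123) (nat_lit 13) (.e (nat_lit 483337) (nat_lit 9) (.e (nat_lit 426098) (nat_lit 1) (.e (nat_lit 164398) (nat_lit 256) (.e (nat_lit 57373) (nat_lit 2) (.e (nat_lit 90167) (nat_lit 13) .nil)))))) (.g (nat_lit 1) (.e (nat_lit 195713) (nat_lit 0) .nil) .nil)))))) (.nd (nat_lit 7) (.nd (nat_lit 8) (.nd (nat_lit 9) 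
(.lf (nat_lit 510033) (.g (nat_lit 1840) (.e (nat_lit 172115) (nat_lit 10) (.e (nat_lit 434209) (nat_lit 18) (.e (nat_lit 5548) (nat_lit 306) (.e (nat_lit 2648) (nat_lit 166) (.e (nat_lit 188434) (nat_lit 20) .nil))))) (.g (nat_lit 0) (.e (nat_lit 193842) (nat_lit 0) .nil) .nil))) 
(.lf (nat_lit 510545) (.g (nat_lit 1397) (.e (nat_lit 172118) (nat_lit 12) (.e (nat_lit 475211) (nat_lit 41) (.e (nat_lit 712755) (nat_lit 30) (.e (nat_lit 450562) (nat_lit 0) .nil)))) (.g (nat_lit 0) (.e (nat_lit 194914) (nat_lit 0) .nil) .nil)))) (.nd (nat_lit 9) 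
(.lf (nat_lit 510289) (.g (nat_lit 483) (.e (nat_lit 172115) (nat_lit 10) (.e (nat_lit 434244) (nat_lit 28) (.e (nat_lit 573470) (nat_lit 11) .nil))) (.g (nat_lit 0) (.e (nat_lit 194315) (nat_lit 0) .nil) .nil))) 
(.lf (nat_lit 510801) (.g (nat_lit 3319) (.e (nat_lit 172120) (nat_lit 12) (.e (nat_lit 475211) (nat_lit 41) (.e (nat_lit 712755) (nat_lit 30) (.e (nat_lit 450564) (nat_lit 0) (.e (nat_lit 5548) (nat_lit 306) (.e (nat_lit 2628) (nat_lit 164) .nil)))))) (.g (nat_lit 1) (.e (nat_lit 195303) (nat_lit 0) .nil) .nil))))) (.nd (nat_lit 8) (.nd (nat_lit 9) 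
(.lf (nat_lit 510161) (.g (nat_lit 2846) (.e (nat_lit 172115) (nat_lit 10) (.e (nat_lit 434231) (nat_lit 23) (.e (nat_lit 532569) (nat_lit 16) (.e (nat_lit 401435) (nat_lit 9) (.e (nat_lit 426361) (nat_lit 15) .nil))))) (.g (nat_lit 0) (.e (nat_lit 194089) (nat_lit 0) .nil) .nil))) 
(.lf (nat_lit 510673) (.g (nat_lit 2227) (.e (nat_lit 172120) (nat_lit 12) (.e (nat_lit 475185) (nat_lit 29) (.e (nat_lit 557109) (nat_lit 15) (.e (nat_lit 188454) (nat_lit 24) .nil)))) (.g (nat_lit 0) (.e (nat_lit 195068) (nat_lit 0) .nil) .nil)))) (.nd (nat_lit 9) 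
(.lf (nat_lit 510417) (.g (nat_lit 2530) (.e (nat_lit 172116) (nat_lit 10) (.e (nat_lit 434231) (nat_lit 23) (.e (nat_lit 532569) (nat_lit 16) (.e (nat_lit 401451) (nat_lit 12) .nil)))) (.g (nat_lit 0) (.e (nat_lit 194703) (nat_lit 0) .nil) .nil))) 
(.lf (nat_lit 510929) (.g (nat_lit 665) (.e (nat_lit 172123) (nat_lit 13) (.e (nat_lit 483410) (nat_lit 27) (.e (nat_lit 401445) (nat_lit 9) .nil))) (.g (nat_lit 0) (.e (nat_lit 195885) (nat_lit 0) .nil) .nil))))))) (.nd (nat_lit 6) (.nd (nat_lit 7) (.nd (nat_lit 8) (.nd (nat_lit 9) 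
(.lf (nat_lit 510001) (.g (nat_lit 904) (.e (nat_lit 172114) (nat_lit 10) (.e (nat_lit 434231) (nat_lit 23) (.e (nat_lit 532483) (nat_lit 0) .nil))) (.g (nat_lit 0) (.e (nat_lit 193707) (nat_lit 0) .nil) .nil))) 
(.lf (nat_lit 510513) (.g (nat_lit 2584) (.e (nat_lit 172118) (nat_lit 12) (.e (nat_lit 475210) (nat_lit 41) (.e (nat_lit 712753) (nat_lit 30) (.e (nat_lit 450568) (nat_lit 0) (.e (nat_lit 5448) (nat_lit 306) (.e (nat_lit 2630) (nat_lit 164) .nil)))))) (.g (nat_lit 1) (.e (nat_lit 194875) (nat_lit 0) .nil) .nil)))) (.nd (nat_lit 9) 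
(.lf (nat_lit 510257) (.g (nat_lit 1569) (.e (nat_lit 172115) (nat_lit 10) (.e (nat_lit 434244) (nat_lit 28) (.e (nat_lit 573453) (nat_lit 9) (.e (nat_lit 396) (nat_lit 32) .nil)))) (.g (nat_lit 0) (.e (nat_lit 194281) (nat_lit 0) .nil) .nil))) 
(.lf (nat_lit 510769) (.g (nat_lit 1453) (.e (nat_lit 172120) (nat_lit 12) (.e (nat_lit 475211) (nat_lit 41) (.e (nat_lit 712752) (nat_lit 29) (.e (nat_lit 442420) (nat_lit 21) .nil)))) (.g (nat_lit 0) (.e (nat_lit 195257) (nat_lit 0) .nil) .nil))))) (.nd (nat_lit 8) (.nd (nat_lit 9) 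
(.lf (nat_lit 510129) (.g (nat_lit 3858) (.e (nat_lit 172115) (nat_lit 10) (.e (nat_lit 434231) (nat_lit 23) (.e (nat_lit 532563) (nat_lit 15) (.e (nat_lit 385104) (nat_lit 50) .nil)))) (.g (nat_lit 0) (.e (nat_lit 194036) (nat_lit 0) .nil) .nil))) 
(.lf (nat_lit 510641) (.g (nat_lit 3396) (.e (nat_lit 172120) (nat_lit 12) (.e (nat_lit 475185) (nat_lit 29) (.e (nat_lit 557098) (nat_lit 13) (.e (nat_lit 172115) (nat_lit 10) (.e (nat_lit 434238) (nat_lit 25) (.e (nat_lit 548913) (nat_lit 18) .nil)))))) (.g (nat_lit 1) (.e (nat_lit 195036) (nat_lit 0) .nil) .nil)))) (.nd (nat_lit 9) 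
(.lf (nat_lit 510385) (.g (nat_lit 2904) (.e (nat_lit 172115) (nat_lit 10) (.e (nat_lit 434271) (nat_lit 38) (.e (nat_lit 655378) (nat_lit 4) (.e (nat_lit 172094) (nat_lit 9) (.e (nat_lit 426025) (nat_lit 0) (.e (nat_lit 3399) (nat_lit 211) (.e (nat_lit 647183) (nat_lit 4) .nil))))))) (.g (nat_lit 1) (.e (nat_lit 194556) (nat_lit 0) .nil) .nil))) 
(.lf (nat_lit 510897) (.g (nat_lit 2042) (.e (nat_lit 172123) (nat_lit 13) (.e (nat_lit 483343) (nat_lit 17) (.e (nat_lit 6724) (nat_lit 362) (.e (nat_lit 180269) (nat_lit 25) (.e (nat_lit 696343) (nat_lit 8) .nil))))) (.g (nat_lit 1) (.e (nat_lit 195748) (nat_lit 0) .nil) .nil)))))) (.nd (nat_lit 7) (.nd (nat_lit 8) (.nd (nat_lit 9) 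
(.lf (nat_lit 510065) (.g (nat_lit 3207) (.e (nat_lit 172115) (nat_lit 10) (.e (nat_lit 434231) (nat_lit 23) (.e (nat_lit 532522) (nat_lit 7) (.e (nat_lit 319530) (nat_lit 16) (.e (nat_lit 286733) (nat_lit 2) (.e (nat_lit 90166) (nat_lit 13) .nil)))))) (.g (nat_lit 1) (.e (nat_lit 193955) (nat_lit 0) .nil) .nil))) 
(.lf (nat_lit 510577) (.g (nat_lit 296) (.e (nat_lit 172119) (nat_lit 12) (.e (nat_lit 475199) (nat_lit 40) (.e (nat_lit 704598) (nat_lit 6) .nil))) (.g (nat_lit 0) (.e (nat_lit 194951) (nat_lit 0) .nil) .nil)))) (.nd (nat_lit 9) 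
(.lf (nat_lit 510321) (.g (nat_lit 1857) (.e (nat_lit 172115) (nat_lit 10) (.e (nat_lit 434244) (nat_lit 28) (.e (nat_lit 573471) (nat_lit 11) (.e (nat_lit 16434) (nat_lit 9) .nil)))) (.g (nat_lit 0) (.e (nat_lit 194399) (nat_lit 0) .nil) .nil))) 
(.lf (nat_lit 510833) (.g (nat_lit 2363) (.e (nat_lit 172122) (nat_lit 13) (.e (nat_lit 483337) (nat_lit 9) (.e (nat_lit 426098) (nat_lit 1) (.e (nat_lit 164403) (nat_lit 256) (.e (nat_lit 57370) (nat_lit 2) .nil))))) (.g (nat_lit 0) (.e (nat_lit 195492) (nat_lit 0) .nil) .nil))))) (.nd (nat_lit 8) (.nd (nat_lit 9) 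
(.lf (nat_lit 510193) (.g (nat_lit 4283) (.e (nat_lit 172115) (nat_lit 10) (.e (nat_lit 434238) (nat_lit 25) (.e (nat_lit 548898) (nat_lit 14) (.e (nat_lit 2988) (nat_lit 186) (.e (nat_lit 442374) (nat_lit 0) (.e (nat_lit 1856) (nat_lit 124) (.e (nat_lit 557101) (nat_lit 13) .nil))))))) (.g (nat_lit 1) (.e (nat_lit 194198) (nat_lit 0) .nil) .nil))) 
(.lf (nat_lit 510705) (.g (nat_lit 389) (.e (nat_lit 172120) (nat_lit 12) (.e (nat_lit 475198) (nat_lit 40) (.e (nat_lit 704599) (nat_lit 6) .nil))) (.g (nat_lit 0) (.e (nat_lit 195119) (nat_lit 0) .nil) .nil)))) (.nd (nat_lit 9) 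
(.lf (nat_lit 510449) (.g (nat_lit 892) (.e (nat_lit 172118) (nat_lit 12) (.e (nat_lit 475179) (nat_lit 24) (.e (nat_lit 516125) (nat_lit 2) .nil))) (.g (nat_lit 0) (.e (nat_lit 194785) (nat_lit 0) .nil) .nil))) 
(.lf (nat_lit 510961) (.g (nat_lit 1440) (.e (nat_lit 172124) (nat_lit 14) (.e (nat_lit 491540) (nat_lit 3) (.e (nat_lit 98372) (nat_lit 29) (.e (nat_lit 450568) (nat_lit 0) (.e (nat_lit 3978) (nat_lit 239) .nil))))) (.g (nat_lit 0) (.e (nat_lit 196022) (nat_lit 0) .nil) .nil))))))))) (.nd (nat_lit 4) (.nd (nat_lit 5) (.nd (nat_lit 6) (.nd (nat_lit 7) (.nd (nat_lit 8) (.nd (nat_lit 9) 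
(.lf (nat_lit 509961) (.g (nat_lit 4894) (.e (nat_lit 172113) (nat_lit 10) (.e (nat_lit 434248) (nat_lit 28) (.e (nat_lit 573473) (nat_lit 12) (.e (nat_lit 57572) (nat_lit 54) (.e (nat_lit 770072) (nat_lit 8) (.e (nat_lit 65568) (nat_lit 2) (.e (nat_lit 90170) (nat_lit 13) .nil))))))) (.g (nat_lit 1) (.e (nat_lit 193579) (nat_lit 0) .nil) .nil))) 
(.lf (nat_lit 510473) (.g (nat_lit 225) (.e (nat_lit 172118) (nat_lit 12) (.e (nat_lit 475197) (nat_lit 40) (.e (nat_lit 704598) (nat_lit 6) .nil))) (.g (nat_lit 0) (.e (nat_lit 194812) (nat_lit 0) .nil) .nil)))) (.nd (nat_lit 9) 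
(.lf (nat_lit 510217) (.g (nat_lit 2303) (.e (nat_lit 172115) (nat_lit 10) (.e (nat_lit 434244) (nat_lit 28) (.e (nat_lit 573449) (nat_lit 9) (.e (nat_lit 479) (nat_lit 37) (.e (nat_lit 466949) (nat_lit 0) .nil))))) (.g (nat_lit 0) (.e (nat_lit 194229) (nat_lit 0) .nil) .nil))) 
(.lf (nat_lit 510729) (.g (nat_lit 1213) (.e (nat_lit 172120) (nat_lit 12) (.e (nat_lit 475209) (nat_lit 41) (.e (nat_lit 712755) (nat_lit 30) (.e (nat_lit 450563) (nat_lit 0) .nil)))) (.g (nat_lit 0) (.e (nat_lit 195177) (nat_lit 0) .nil) .nil))))) (.nd (nat_lit 8) (.nd (nat_lit 9) 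
(.lf (nat_lit 510089) (.g (nat_lit 3136) (.e (nat_lit 172115) (nat_lit 10) (.e (nat_lit 434231) (nat_lit 23) (.e (nat_lit 532523) (nat_lit 7) (.e (nat_lit 319531) (nat_lit 16) (.e (nat_lit 286733) (nat_lit 2) (.e (nat_lit 90166) (nat_lit 13) .nil)))))) (.g (nat_lit 1) (.e (nat_lit 193986) (nat_lit 0) .nil) .nil))) 
(.lf (nat_lit 510601) (.g (nat_lit 1513) (.e (nat_lit 172119) (nat_lit 12) (.e (nat_lit 475211) (nat_lit 41) (.e (nat_lit 712752) (nat_lit 29) (.e (nat_lit 442396) (nat_lit 20) .nil)))) (.g (nat_lit 0) (.e (nat_lit 194990) (nat_lit 0) .nil) .nil)))) (.nd (nat_lit 9) 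
(.lf (nat_lit 510345) (.g (nat_lit 1498) (.e (nat_lit 172115) (nat_lit 10) (.e (nat_lit 434244) (nat_lit 28) (.e (nat_lit 573471) (nat_lit 11) (.e (nat_lit 24320) (nat_lit 9) .nil)))) (.g (nat_lit 0) (.e (nat_lit 194426) (nat_lit 0) .nil) .nil))) 
(.lf (nat_lit 510857) (.g (nat_lit 1410) (.e (nat_lit 172122) (nat_lit 13) (.e (nat_lit 483363) (nat_lit 18) (.e (nat_lit 57688) (nat_lit 156) (.e (nat_lit 163902) (nat_lit 12) .nil)))) (.g (nat_lit 0) (.e (nat_lit 195540) (nat_lit 0) .nil) .nil)))))) (.nd (nat_lit 7) (.nd (nat_lit 8) (.nd (nat_lit 9) 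
(.lf (nat_lit 510025) (.g (nat_lit 1135) (.e (nat_lit 172115) (nat_lit 10) (.e (nat_lit 434202) (nat_lit 18) (.e (nat_lit 6830) (nat_lit 367) (.e (nat_lit 57427) (nat_lit 15) .nil)))) (.g (nat_lit 0) (.e (nat_lit 193745) (nat_lit 0) .nil) .nil))) 
(.lf (nat_lit 510537) (.g (nat_lit 1548) (.e (nat_lit 172118) (nat_lit 12) (.e (nat_lit 475211) (nat_lit 41) (.e (nat_lit 712752) (nat_lit 29) (.e (nat_lit 442420) (nat_lit 21) .nil)))) (.g (nat_lit 0) (.e (nat_lit 194906) (nat_lit 0) .nil) .nil)))) (.nd (nat_lit 9) 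
(.lf (nat_lit 510281) (.g (nat_lit 1391) (.e (nat_lit 172115) (nat_lit 10) (.e (nat_lit 434244) (nat_lit 28) (.e (nat_lit 573464) (nat_lit 9) (.e (nat_lit 461) (nat_lit 34) .nil)))) (.g (nat_lit 0) (.e (nat_lit 194306) (nat_lit 0) .nil) .nil))) 
(.lf (nat_lit 510793) (.g (nat_lit 1599) (.e (nat_lit 172120) (nat_lit 12) (.e (nat_lit 475211) (nat_lit 41) (.e (nat_lit 712755) (nat_lit 30) (.e (nat_lit 450560) (nat_lit 0) .nil)))) (.g (nat_lit 0) (.e (nat_lit 195287) (nat_lit 0) .nil) .nil))))) (.nd (nat_lit 8) (.nd (nat_lit 9) 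
(.lf (nat_lit 510153) (.g (nat_lit 3621) (.e (nat_lit 172115) (nat_lit 10) (.e (nat_lit 434231) (nat_lit 23) (.e (nat_lit 532568) (nat_lit 16) (.e (nat_lit 401453) (nat_lit 12) (.e (nat_lit 475183) (nat_lit 29) (.e (nat_lit 557101) (nat_lit 13) .nil)))))) (.g (nat_lit 1) (.e (nat_lit 194073) (nat_lit 0) .nil) .nil))) 
(.lf (nat_lit 510665) (.g (nat_lit 1760) (.e (nat_lit 172120) (nat_lit 12) (.e (nat_lit 475185) (nat_lit 29) (.e (nat_lit 557107) (nat_lit 15) (.e (nat_lit 188434) (nat_lit 20) .nil)))) (.g (nat_lit 0) (.e (nat_lit 195060) (nat_lit 0) .nil) .nil)))) (.nd (nat_lit 9) 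
(.lf (nat_lit 510409) (.g (nat_lit 2476) (.e (nat_lit 172116) (nat_lit 10) (.e (nat_lit 434209) (nat_lit 18) (.e (nat_lit 5548) (nat_lit 306) (.e (nat_lit 2650) (nat_lit 166) (.e (nat_lit 188434) (nat_lit 20) (.e (nat_lit 3409) (nat_lit 212) (.e (nat_lit 655378) (nat_lit 4) .nil))))))) (.g (nat_lit 1) (.e (nat_lit 194686) (nat_lit 0) .nil) .nil))) 
(.lf (nat_lit 510921) (.g (nat_lit 956) (.e (nat_lit 172123) (nat_lit 13) (.e (nat_lit 483406) (nat_lit 26) (.e (nat_lit 385115) (nat_lit 53) .nil))) (.g (nat_lit 0) (.e (nat_lit 195873) (nat_lit 0) .nil) .nil))))))) (.nd (nat_lit 6) (.nd (nat_lit 7) (.nd (nat_lit 8) (.nd (nat_lit 9) 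
(.lf (nat_lit 509993) (.g (nat_lit 2546) (.e (nat_lit 172113) (nat_lit 10) (.e (nat_lit 434272) (nat_lit 38) (.e (nat_lit 655380) (nat_lit 6) (.e (nat_lit 188439) (nat_lit 20) (.e (nat_lit 3409) (nat_lit 212) (.e (nat_lit 655378) (nat_lit 4) .nil)))))) (.g (nat_lit 1) (.e (nat_lit 193682) (nat_lit 0) .nil) .nil))) 
(.lf (nat_lit 510505) (.g (nat_lit 2357) (.e (nat_lit 172118) (nat_lit 12) (.e (nat_lit 475210) (nat_lit 41) (.e (nat_lit 712752) (nat_lit 29) (.e (nat_lit 442421) (nat_lit 21) (.e (nat_lit 164345) (nat_lit 240) (.e (nat_lit 2629) (nat_lit 164) .nil)))))) (.g (nat_lit 1) (.e (nat_lit 194865) (nat_lit 0) .nil) .nil)))) (.nd (nat_lit 9) 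
(.lf (nat_lit 510249) (.g (nat_lit 2314) (.e (nat_lit 172115) (nat_lit 10) (.e (nat_lit 434244) (nat_lit 28) (.e (nat_lit 573451) (nat_lit 9) (.e (nat_lit 396) (nat_lit 32) .nil)))) (.g (nat_lit 0) (.e (nat_lit 194271) (nat_lit 0) .nil) .nil))) 
(.lf (nat_lit 510761) (.g (nat_lit 1269) (.e (nat_lit 172120) (nat_lit 12) (.e (nat_lit 475211) (nat_lit 41) (.e (nat_lit 712750) (nat_lit 29) (.e (nat_lit 442419) (nat_lit 21) .nil)))) (.g (nat_lit 0) (.e (nat_lit 195243) (nat_lit 0) .nil) .nil))))) (.nd (nat_lit 8) (.nd (nat_lit 9) 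
(.lf (nat_lit 510121) (.g (nat_lit 1897) (.e (nat_lit 172115) (nat_lit 10) (.e (nat_lit 434231) (nat_lit 23) (.e (nat_lit 532544) (nat_lit 10) (.e (nat_lit 344160) (nat_lit 37) .nil)))) (.g (nat_lit 0) (.e (nat_lit 194028) (nat_lit 0) .nil) .nil))) 
(.lf (nat_lit 510633) (.g (nat_lit 3045) (.e (nat_lit 172120) (nat_lit 12) (.e (nat_lit 475184) (nat_lit 29) (.e (nat_lit 557109) (nat_lit 15) (.e (nat_lit 188441) (nat_lit 20) (.e (nat_lit 3271) (nat_lit 199) .nil))))) (.g (nat_lit 0) (.e (nat_lit 195028) (nat_lit 0) .nil) .nil)))) (.nd (nat_lit 9) 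
(.lf (nat_lit 510377) (.g (nat_lit 1176) (.e (nat_lit 172115) (nat_lit 10) (.e (nat_lit 434275) (nat_lit 39) (.e (nat_lit 663565) (nat_lit 3) (.e (nat_lit 65280) (nat_lit 206) .nil)))) (.g (nat_lit 0) (.e (nat_lit 194507) (nat_lit 0) .nil) .nil))) 
(.lf (nat_lit 510889) (.g (nat_lit 2301) (.e (nat_lit 172123) (nat_lit 13) (.e (nat_lit 483337) (nat_lit 9) (.e (nat_lit 426108) (nat_lit 1) (.e (nat_lit 164402) (nat_lit 256) (.e (nat_lit 57373) (nat_lit 2) .nil))))) (.g (nat_lit 0) (.e (nat_lit 195738) (nat_lit 0) .nil) .nil)))))) (.nd (nat_lit 7) (.nd (nat_lit 8) (.nd (nat_lit 9) 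
(.lf (nat_lit 510057) (.g (nat_lit 1144) (.e (nat_lit 172115) (nat_lit 10) (.e (nat_lit 434231) (nat_lit 23) (.e (nat_lit 532486) (nat_lit 0) (.e (nat_lit 6666) (nat_lit 357) .nil)))) (.g (nat_lit 0) (.e (nat_lit 193936) (nat_lit 0) .nil) .nil))) 
(.lf (nat_lit 510569) (.g (nat_lit 1826) (.e (nat_lit 172119) (nat_lit 12) (.e (nat_lit 475185) (nat_lit 29) (.e (nat_lit 557107) (nat_lit 15) (.e (nat_lit 188438) (nat_lit 20) .nil)))) (.g (nat_lit 0) (.e (nat_lit 194943) (nat_lit 0) .nil) .nil)))) (.nd (nat_lit 9) 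
(.lf (nat_lit 510313) (.g (nat_lit 2226) (.e (nat_lit 172115) (nat_lit 10) (.e (nat_lit 434244) (nat_lit 28) (.e (nat_lit 573471) (nat_lit 11) (.e (nat_lit 16431) (nat_lit 9) (.e (nat_lit 433920) (nat_lit 15) .nil))))) (.g (nat_lit 0) (.e (nat_lit 194390) (nat_lit 0) .nil) .nil))) 
(.lf (nat_lit 510825) (.g (nat_lit 3074) (.e (nat_lit 172121) (nat_lit 13) (.e (nat_lit 483365) (nat_lit 18) (.e (nat_lit 57688) (nat_lit 156) (.e (nat_lit 163907) (nat_lit 12) (.e (nat_lit 426428) (nat_lit 17) (.e (nat_lit 90170) (nat_lit 13) .nil)))))) (.g (nat_lit 1) (.e (nat_lit 195344) (nat_lit 0) .nil) .nil))))) (.nd (nat_lit 8) (.nd (nat_lit 9) 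
(.lf (nat_lit 510185) (.g (nat_lit 4221) (.e (nat_lit 172115) (nat_lit 10) (.e (nat_lit 434231) (nat_lit 23) (.e (nat_lit 532569) (nat_lit 16) (.e (nat_lit 401453) (nat_lit 12) (.e (nat_lit 475183) (nat_lit 29) (.e (nat_lit 557101) (nat_lit 13) .nil)))))) (.g (nat_lit 1) (.e (nat_lit 194150) (nat_lit 0) .nil) .nil))) 
(.lf (nat_lit 510697) (.g (nat_lit 2776) (.e (nat_lit 172120) (nat_lit 12) (.e (nat_lit 475198) (nat_lit 40) (.e (nat_lit 704598) (nat_lit 6) (.e (nat_lit 188453) (nat_lit 24) (.e (nat_lit 229663) (nat_lit 240) (.e (nat_lit 2621) (nat_lit 164) .nil)))))) (.g (nat_lit 1) (.e (nat_lit 195111) (nat_lit 0) .nil) .nil)))) (.nd (nat_lit 9) 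
(.lf (nat_lit 510441) (.g (nat_lit 1626) (.e (nat_lit 172116) (nat_lit 10) (.e (nat_lit 434289) (nat_lit 43) (.e (nat_lit 696346) (nat_lit 10) (.e (nat_lit 188439) (nat_lit 20) (.e (nat_lit 3467) (nat_lit 217) .nil))))) (.g (nat_lit 0) (.e (nat_lit 194776) (nat_lit 0) .nil) .nil))) 
(.lf (nat_lit 510953) (.g (nat_lit 451) (.e (nat_lit 172124) (nat_lit 14) (.e (nat_lit 491537) (nat_lit 2) (.e (nat_lit 90176) (nat_lit 15) .nil))) (.g (nat_lit 0) (.e (nat_lit 196013) (nat_lit 0) .nil) .nil)))))))) (.nd (nat_lit 5) (.nd (nat_lit 6) (.nd (nat_lit 7) (.nd (nat_lit 8) (.nd (nat_lit 9) 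
(.lf (nat_lit 509977) (.g (nat_lit 1468) (.e (nat_lit 172113) (nat_lit 10) (.e (nat_lit 434269) (nat_lit 36) (.e (nat_lit 639021) (nat_lit 16) (.e (nat_lit 65619) (nat_lit 10) (.e (nat_lit 344153) (nat_lit 35) (.e (nat_lit 630801) (nat_lit 8) .nil)))))) (.g (nat_lit 1) (.e (nat_lit 193630) (nat_lit 0) .nil) .nil))) 
(.lf (nat_lit 510489) (.g (nat_lit 1077) (.e (nat_lit 172118) (nat_lit 12) (.e (nat_lit 475199) (nat_lit 40) (.e (nat_lit 704598) (nat_lit 6) (.e (nat_lit 188434) (nat_lit 20) (.e (nat_lit 3409) (nat_lit 212) .nil))))) (.g (nat_lit 0) (.e (nat_lit 194830) (nat_lit 0) .nil) .nil)))) (.nd (nat_lit 9) 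
(.lf (nat_lit 510233) (.g (nat_lit 2561) (.e (nat_lit 172115) (nat_lit 10) (.e (nat_lit 434244) (nat_lit 28) (.e (nat_lit 573450) (nat_lit 9) (.e (nat_lit 411) (nat_lit 32) (.e (nat_lit 426312) (nat_lit 12) .nil))))) (.g (nat_lit 0) (.e (nat_lit 194247) (nat_lit 0) .nil) .nil))) 
(.lf (nat_lit 510745) (.g (nat_lit 2963) (.e (nat_lit 172120) (nat_lit 12) (.e (nat_lit 475210) (nat_lit 41) (.e (nat_lit 712753) (nat_lit 30) (.e (nat_lit 450564) (nat_lit 0) (.e (nat_lit 5548) (nat_lit 306) (.e (nat_lit 2629) (nat_lit 164) .nil)))))) (.g (nat_lit 1) (.e (nat_lit 195210) (nat_lit 0) .nil) .nil))))) (.nd (nat_lit 8) (.nd (nat_lit 9) 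
(.lf (nat_lit 510105) (.g (nat_lit 1590) (.e (nat_lit 172115) (nat_lit 10) (.e (nat_lit 434231) (nat_lit 23) (.e (nat_lit 532526) (nat_lit 8) (.e (nat_lit 335616) (nat_lit 17) .nil)))) (.g (nat_lit 0) (.e (nat_lit 194004) (nat_lit 0) .nil) .nil))) 
(.lf (nat_lit 510617) (.g (nat_lit 2304) (.e (nat_lit 172119) (nat_lit 12) (.e (nat_lit 475211) (nat_lit 41) (.e (nat_lit 712755) (nat_lit 30) (.e (nat_lit 450562) (nat_lit 0) (.e (nat_lit 5537) (nat_lit 306) (.e (nat_lit 2619) (nat_lit 164) .nil)))))) (.g (nat_lit 1) (.e (nat_lit 195008) (nat_lit 0) .nil) .nil)))) (.nd (nat_lit 9) 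
(.lf (nat_lit 510361) (.g (nat_lit 2701) (.e (nat_lit 172115) (nat_lit 10) (.e (nat_lit 434244) (nat_lit 28) (.e (nat_lit 573474) (nat_lit 12) (.e (nat_lit 57345) (nat_lit 0) .nil)))) (.g (nat_lit 0) (.e (nat_lit 194449) (nat_lit 0) .nil) .nil))) 
(.lf (nat_lit 510873) (.g (nat_lit 1517) (.e (nat_lit 172123) (nat_lit 13) (.e (nat_lit 483337) (nat_lit 9) (.e (nat_lit 426100) (nat_lit 1) (.e (nat_lit 164399) (nat_lit 256) (.e (nat_lit 57370) (nat_lit 2) .nil))))) (.g (nat_lit 0) (.e (nat_lit 195721) (nat_lit 0) .nil) .nil)))))) (.nd (nat_lit 7) (.nd (nat_lit 8) (.nd (nat_lit 9) 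
(.lf (nat_lit 510041) (.g (nat_lit 1360) (.e (nat_lit 172115) (nat_lit 10) (.e (nat_lit 434209) (nat_lit 18) (.e (nat_lit 6425) (nat_lit 342) (.e (nat_lit 229413) (nat_lit 15) .nil)))) (.g (nat_lit 0) (.e (nat_lit 193893) (nat_lit 0) .nil) .nil))) 
(.lf (nat_lit 510553) (.g (nat_lit 3064) (.e (nat_lit 172118) (nat_lit 12) (.e (nat_lit 475211) (nat_lit 41) (.e (nat_lit 712755) (nat_lit 30) (.e (nat_lit 450565) (nat_lit 0) (.e (nat_lit 5548) (nat_lit 306) (.e (nat_lit 2628) (nat_lit 164) .nil)))))) (.g (nat_lit 1) (.e (nat_lit 194923) (nat_lit 0) .nil) .nil)))) (.nd (nat_lit 9) 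
(.lf (nat_lit 510297) (.g (nat_lit 2853) (.e (nat_lit 172115) (nat_lit 10) (.e (nat_lit 434244) (nat_lit 28) (.e (nat_lit 573471) (nat_lit 11) (.e (nat_lit 16385) (nat_lit 0) .nil)))) (.g (nat_lit 0) (.e (nat_lit 194323) (nat_lit 0) .nil) .nil))) 
(.lf (nat_lit 510809) (.g (nat_lit 939) (.e (nat_lit 172121) (nat_lit 13) (.e (nat_lit 483337) (nat_lit 9) (.e (nat_lit 426098) (nat_lit 1) (.e (nat_lit 164398) (nat_lit 256) .nil)))) (.g (nat_lit 0) (.e (nat_lit 195313) (nat_lit 0) .nil) .nil))))) (.nd (nat_lit 8) (.nd (nat_lit 9) 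
(.lf (nat_lit 510169) (.g (nat_lit 2841) (.e (nat_lit 172115) (nat_lit 10) (.e (nat_lit 434231) (nat_lit 23) (.e (nat_lit 532569) (nat_lit 16) (.e (nat_lit 401450) (nat_lit 12) (.e (nat_lit 475183) (nat_lit 29) .nil))))) (.g (nat_lit 0) (.e (nat_lit 194118) (nat_lit 0) .nil) .nil))) 
(.lf (nat_lit 510681) (.g (nat_lit 4487) (.e (nat_lit 172120) (nat_lit 12) (.e (nat_lit 475197) (nat_lit 40) (.e (nat_lit 704598) (nat_lit 6) (.e (nat_lit 188453) (nat_lit 24) (.e (nat_lit 229663) (nat_lit 240) (.e (nat_lit 2630) (nat_lit 164) .nil)))))) (.g (nat_lit 1) (.e (nat_lit 195083) (nat_lit 0) .nil) .nil)))) (.nd (nat_lit 9) 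
(.lf (nat_lit 510425) (.g (nat_lit 1858) (.e (nat_lit 172116) (nat_lit 10) (.e (nat_lit 434271) (nat_lit 38) (.e (nat_lit 655378) (nat_lit 4) (.e (nat_lit 172097) (nat_lit 9) (.e (nat_lit 426025) (nat_lit 0) .nil))))) (.g (nat_lit 0) (.e (nat_lit 194739) (nat_lit 0) .nil) .nil))) 
(.lf (nat_lit 510937) (.g (nat_lit 1475) (.e (nat_lit 172123) (nat_lit 13) (.e (nat_lit 483413) (nat_lit 27) (.e (nat_lit 401439) (nat_lit 9) (.e (nat_lit 426043) (nat_lit 0) .nil)))) (.g (nat_lit 0) (.e (nat_lit 195943) (nat_lit 0) .nil) .nil))))))) (.nd (nat_lit 6) (.nd (nat_lit 7) (.nd (nat_lit 8) (.nd (nat_lit 9) 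
(.lf (nat_lit 510009) (.g (nat_lit 3515) (.e (nat_lit 172114) (nat_lit 10) (.e (nat_lit 434231) (nat_lit 23) (.e (nat_lit 532523) (nat_lit 7) (.e (nat_lit 319530) (nat_lit 16) (.e (nat_lit 286733) (nat_lit 2) (.e (nat_lit 90168) (nat_lit 13) .nil)))))) (.g (nat_lit 1) (.e (nat_lit 193716) (nat_lit 0) .nil) .nil))) 
(.lf (nat_lit 510521) (.g (nat_lit 3261) (.e (nat_lit 172118) (nat_lit 12) (.e (nat_lit 475210) (nat_lit 41) (.e (nat_lit 712755) (nat_lit 30) (.e (nat_lit 450564) (nat_lit 0) (.e (nat_lit 5548) (nat_lit 306) (.e (nat_lit 2628) (nat_lit 164) .nil)))))) (.g (nat_lit 1) (.e (nat_lit 194885) (nat_lit 0) .nil) .nil)))) (.nd (nat_lit 9) 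
(.lf (nat_lit 510265) (.g (nat_lit 1745) (.e (nat_lit 172115) (nat_lit 10) (.e (nat_lit 434244) (nat_lit 28) (.e (nat_lit 573456) (nat_lit 9) (.e (nat_lit 430) (nat_lit 32) .nil)))) (.g (nat_lit 0) (.e (nat_lit 194290) (nat_lit 0) .nil) .nil))) 
(.lf (nat_lit 510777) (.g (nat_lit 4532) (.e (nat_lit 172120) (nat_lit 12) (.e (nat_lit 475211) (nat_lit 41) (.e (nat_lit 712752) (nat_lit 29) (.e (nat_lit 442430) (nat_lit 24) (.e (nat_lit 229663) (nat_lit 240) (.e (nat_lit 2630) (nat_lit 164) .nil)))))) (.g (nat_lit 1) (.e (nat_lit 195266) (nat_lit 0) .nil) .nil))))) (.nd (nat_lit 8) (.nd (nat_lit 9) 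
(.lf (nat_lit 510137) (.g (nat_lit 3536) (.e (nat_lit 172115) (nat_lit 10) (.e (nat_lit 434231) (nat_lit 23) (.e (nat_lit 532567) (nat_lit 16) (.e (nat_lit 401451) (nat_lit 12) (.e (nat_lit 475185) (nat_lit 29) (.e (nat_lit 557101) (nat_lit 13) .nil)))))) (.g (nat_lit 1) (.e (nat_lit 194047) (nat_lit 0) .nil) .nil))) 
(.lf (nat_lit 510649) (.g (nat_lit 2052) (.e (nat_lit 172120) (nat_lit 12) (.e (nat_lit 475185) (nat_lit 29) (.e (nat_lit 557100) (nat_lit 13) (.e (nat_lit 172042) (nat_lit 0) .nil)))) (.g (nat_lit 0) (.e (nat_lit 195044) (nat_lit 0) .nil) .nil)))) (.nd (nat_lit 9) 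
(.lf (nat_lit 510393) (.g (nat_lit 374) (.e (nat_lit 172115) (nat_lit 10) (.e (nat_lit 434272) (nat_lit 38) (.e (nat_lit 655380) (nat_lit 6) .nil))) (.g (nat_lit 0) (.e (nat_lit 194633) (nat_lit 0) .nil) .nil))) 
(.lf (nat_lit 510905) (.g (nat_lit 514) (.e (nat_lit 172123) (nat_lit 13) (.e (nat_lit 483372) (nat_lit 21) (.e (nat_lit 327424) (nat_lit 18) .nil))) (.g (nat_lit 0) (.e (nat_lit 195785) (nat_lit 0) .nil) .nil)))))) (.nd (nat_lit 7) (.nd (nat_lit 8) (.nd (nat_lit 9) 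
(.lf (nat_lit 510073) (.g (nat_lit 3409) (.e (nat_lit 172115) (nat_lit 10) (.e (nat_lit 434231) (nat_lit 23) (.e (nat_lit 532523) (nat_lit 7) (.e (nat_lit 319500) (nat_lit 10) .nil)))) (.g (nat_lit 0) (.e (nat_lit 193963) (nat_lit 0) .nil) .nil))) 
(.lf (nat_lit 510585) (.g (nat_lit 2158) (.e (nat_lit 172119) (nat_lit 12) (.e (nat_lit 475210) (nat_lit 41) (.e (nat_lit 712752) (nat_lit 29) (.e (nat_lit 442421) (nat_lit 21) (.e (nat_lit 164346) (nat_lit 240) .nil))))) (.g (nat_lit 0) (.e (nat_lit 194973) (nat_lit 0) .nil) .nil)))) (.nd (nat_lit 9) 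
(.lf (nat_lit 510329) (.g (nat_lit 3062) (.e (nat_lit 172115) (nat_lit 10) (.e (nat_lit 434244) (nat_lit 28) (.e (nat_lit 573471) (nat_lit 11) (.e (nat_lit 16436) (nat_lit 9) (.e (nat_lit 426392) (nat_lit 15) .nil))))) (.g (nat_lit 0) (.e (nat_lit 194407) (nat_lit 0) .nil) .nil))) 
(.lf (nat_lit 510841) (.g (nat_lit 903) (.e (nat_lit 172122) (nat_lit 13) (.e (nat_lit 483337) (nat_lit 9) (.e (nat_lit 426105) (nat_lit 1) .nil))) (.g (nat_lit 0) (.e (nat_lit 195500) (nat_lit 0) .nil) .nil))))) (.nd (nat_lit 8) (.nd (nat_lit 9) 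
(.lf (nat_lit 510201) (.g (nat_lit 2345) (.e (nat_lit 172115) (nat_lit 10) (.e (nat_lit 434238) (nat_lit 25) (.e (nat_lit 548913) (nat_lit 18) (.e (nat_lit 172119) (nat_lit 12) (.e (nat_lit 475185) (nat_lit 29) .nil))))) (.g (nat_lit 0) (.e (nat_lit 194209) (nat_lit 0) .nil) .nil))) 
(.lf (nat_lit 510713) (.g (nat_lit 4484) (.e (nat_lit 172120) (nat_lit 12) (.e (nat_lit 475198) (nat_lit 40) (.e (nat_lit 704599) (nat_lit 6) (.e (nat_lit 188455) (nat_lit 24) (.e (nat_lit 229663) (nat_lit 240) (.e (nat_lit 2630) (nat_lit 164) .nil)))))) (.g (nat_lit 1) (.e (nat_lit 195128) (nat_lit 0) .nil) .nil)))) (.nd (nat_lit 9) 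
(.lf (nat_lit 510457) (.g (nat_lit 2840) (.e (nat_lit 172118) (nat_lit 12) (.e (nat_lit 475185) (nat_lit 29) (.e (nat_lit 557098) (nat_lit 13) (.e (nat_lit 172115) (nat_lit 10) (.e (nat_lit 434238) (nat_lit 25) .nil))))) (.g (nat_lit 0) (.e (nat_lit 194793) (nat_lit 0) .nil) .nil))) 
(.lf (nat_lit 510969) (.g (nat_lit 4074) (.e (nat_lit 172124) (nat_lit 14) (.e (nat_lit 491540) (nat_lit 3) (.e (nat_lit 98373) (nat_lit 29) (.e (nat_lit 450563) (nat_lit 0) (.e (nat_lit 3948) (nat_lit 239) (.e (nat_lit 2625) (nat_lit 164) .nil)))))) (.g (nat_lit 1) (.e (nat_lit 196030) (nat_lit 0) .nil) .nil)))))))))) 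
(.nd (nat_lit 3) (.nd (nat_lit 4) (.nd (nat_lit 5) (.nd (nat_lit 6) (.nd (nat_lit 7) 
(.nd (nat_lit 8) (.nd (nat_lit 9) 
(.lf (nat_lit 509957) (.g (nat_lit 3239) (.e (nat_lit 172113) (nat_lit 10) (.e (nat_lit 434248) (nat_lit 28) (.e (nat_lit 573471) (nat_lit 11) (.e (nat_lit 16469) (nat_lit 14) (.e (nat_lit 491537) (nat_lit 2) (.e (nat_lit 90170) (nat_lit 13) .nil)))))) (.g (nat_lit 1) (.e (nat_lit 193575) (nat_lit 0) .nil) .nil))) 
(.lf (nat_lit 510469) (.g (nat_lit 1854) (.e (nat_lit 172118) (nat_lit 12) (.e (nat_lit 475185) (nat_lit 29) (.e (nat_lit 557107) (nat_lit 15) (.e (nat_lit 188434) (nat_lit 20) .nil)))) (.g (nat_lit 0) (.e (nat_lit 194808) (nat_lit 0) .nil) .nil)))) (.nd (nat_lit 9) 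
(.lf (nat_lit 510213) (.g (nat_lit 1601) (.e (nat_lit 172115) (nat_lit 10) (.e (nat_lit 434244) (nat_lit 28) (.e (nat_lit 573449) (nat_lit 9) (.e (nat_lit 430) (nat_lit 32) .nil)))) (.g (nat_lit 0) (.e (nat_lit 194223) (nat_lit 0) .nil) .nil))) 
(.lf (nat_lit 510725) (.g (nat_lit 4338) (.e (nat_lit 172120) (nat_lit 12) (.e (nat_lit 475199) (nat_lit 40) (.e (nat_lit 704598) (nat_lit 6) (.e (nat_lit 188455) (nat_lit 24) (.e (nat_lit 229663) (nat_lit 240) (.e (nat_lit 2630) (nat_lit 164) .nil)))))) (.g (nat_lit 1) (.e (nat_lit 195152) (nat_lit 0) .nil) .nil))))) (.nd (nat_lit 8) (.nd (nat_lit 9) 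
(.lf (nat_lit 510085) (.g (nat_lit 3416) (.e (nat_lit 172115) (nat_lit 10) (.e (nat_lit 434231) (nat_lit 23) (.e (nat_lit 532523) (nat_lit 7) (.e (nat_lit 319530) (nat_lit 16) (.e (nat_lit 286733) (nat_lit 2) (.e (nat_lit 90166) (nat_lit 13) .nil)))))) (.g (nat_lit 1) (.e (nat_lit 193982) (nat_lit 0) .nil) .nil))) 
(.lf (nat_lit 510597) (.g (nat_lit 1515) (.e (nat_lit 172119) (nat_lit 12) (.e (nat_lit 475211) (nat_lit 41) (.e (nat_lit 712750) (nat_lit 29) (.e (nat_lit 442399) (nat_lit 20) (.e (nat_lit 3397) (nat_lit 211) .nil))))) (.g (nat_lit 0) (.e (nat_lit 194986) (nat_lit 0) .nil) .nil)))) (.nd (nat_lit 9) 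
(.lf (nat_lit 510341) (.g (nat_lit 2338) (.e (nat_lit 172115) (nat_lit 10) (.e (nat_lit 434244) (nat_lit 28) (.e (nat_lit 573471) (nat_lit 11) (.e (nat_lit 16444) (nat_lit 9) (.e (nat_lit 433920) (nat_lit 15) .nil))))) (.g (nat_lit 0) (.e (nat_lit 194419) (nat_lit 0) .nil) .nil))) 
(.lf (nat_lit 510853) (.g (nat_lit 1848) (.e (nat_lit 172122) (nat_lit 13) (.e (nat_lit 483341) (nat_lit 9) (.e (nat_lit 426108) (nat_lit 1) (.e (nat_lit 164403) (nat_lit 256) .nil)))) (.g (nat_lit 0) (.e (nat_lit 195512) (nat_lit 0) .nil) .nil)))))) (.nd (nat_lit 7) (.nd (nat_lit 8) (.nd (nat_lit 9) 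
(.lf (nat_lit 510021) (.g (nat_lit 3887) (.e (nat_lit 172115) (nat_lit 10) (.e (nat_lit 434202) (nat_lit 18) (.e (nat_lit 6416) (nat_lit 341) (.e (nat_lit 163908) (nat_lit 12) (.e (nat_lit 426285) (nat_lit 10) (.e (nat_lit 434289) (nat_lit 43) (.e (nat_lit 696344) (nat_lit 8) .nil))))))) (.g (nat_lit 1) (.e (nat_lit 193737) (nat_lit 0) .nil) .nil))) 
(.lf (nat_lit 510533) (.g (nat_lit 390) (.e (nat_lit 172118) (nat_lit 12) (.e (nat_lit 475211) (nat_lit 41) (.e (nat_lit 712752) (nat_lit 29) .nil))) (.g (nat_lit 0) (.e (nat_lit 194902) (nat_lit 0) .nil) .nil)))) (.nd (nat_lit 9) 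
(.lf (nat_lit 510277) (.g (nat_lit 2594) (.e (nat_lit 172115) (nat_lit 10) (.e (nat_lit 434244) (nat_lit 28) (.e (nat_lit 573458) (nat_lit 9) (.e (nat_lit 426) (nat_lit 32) (.e (nat_lit 426314) (nat_lit 12) (.e (nat_lit 475184) (nat_lit 29) (.e (nat_lit 557098) (nat_lit 13) .nil))))))) (.g (nat_lit 1) (.e (nat_lit 194302) (nat_lit 0) .nil) .nil))) 
(.lf (nat_lit 510789) (.g (nat_lit 2976) (.e (nat_lit 172120) (nat_lit 12) (.e (nat_lit 475211) (nat_lit 41) (.e (nat_lit 712753) (nat_lit 30) (.e (nat_lit 450568) (nat_lit 0) (.e (nat_lit 5448) (nat_lit 306) (.e (nat_lit 2630) (nat_lit 164) .nil)))))) (.g (nat_lit 1) (.e (nat_lit 195280) (nat_lit 0) .nil) .nil))))) (.nd (nat_lit 8) (.nd (nat_lit 9) 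
(.lf (nat_lit 510149) (.g (nat_lit 2409) (.e (nat_lit 172115) (nat_lit 10) (.e (nat_lit 434231) (nat_lit 23) (.e (nat_lit 532568) (nat_lit 16) (.e (nat_lit 401451) (nat_lit 12) (.e (nat_lit 475184) (nat_lit 29) (.e (nat_lit 557098) (nat_lit 13) .nil)))))) (.g (nat_lit 1) (.e (nat_lit 194069) (nat_lit 0) .nil) .nil))) 
(.lf (nat_lit 510661) (.g (nat_lit 2231) (.e (nat_lit 172120) (nat_lit 12) (.e (nat_lit 475185) (nat_lit 29) (.e (nat_lit 557103) (nat_lit 14) (.e (nat_lit 180282) (nat_lit 45) (.e (nat_lit 2570) (nat_lit 160) .nil))))) (.g (nat_lit 0) (.e (nat_lit 195056) (nat_lit 0) .nil) .nil)))) (.nd (nat_lit 9) 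
(.lf (nat_lit 510405) (.g (nat_lit 1388) (.e (nat_lit 172116) (nat_lit 10) (.e (nat_lit 434209) (nat_lit 18) (.e (nat_lit 5548) (nat_lit 306) (.e (nat_lit 2648) (nat_lit 166) .nil)))) (.g (nat_lit 0) (.e (nat_lit 194682) (nat_lit 0) .nil) .nil))) 
(.lf (nat_lit 510917) (.g (nat_lit 3673) (.e (nat_lit 172123) (nat_lit 13) (.e (nat_lit 483403) (nat_lit 26) (.e (nat_lit 385109) (nat_lit 51) (.e (nat_lit 794644) (nat_lit 20) .nil)))) (.g (nat_lit 0) (.e (nat_lit 195860) (nat_lit 0) .nil) .nil))))))) (.nd (nat_lit 6) (.nd (nat_lit 7) (.nd (nat_lit 8) (.nd (nat_lit 9) 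
(.lf (nat_lit 509989) (.g (nat_lit 4397) (.e (nat_lit 172113) (nat_lit 10) (.e (nat_lit 434271) (nat_lit 38) (.e (nat_lit 655380) (nat_lit 6) (.e (nat_lit 188455) (nat_lit 24) (.e (nat_lit 229663) (nat_lit 240) (.e (nat_lit 2630) (nat_lit 164) .nil)))))) (.g (nat_lit 1) (.e (nat_lit 193656) (nat_lit 0) .nil) .nil))) 
(.lf (nat_lit 510501) (.g (nat_lit 1546) (.e (nat_lit 172118) (nat_lit 12) (.e (nat_lit 475210) (nat_lit 41) (.e (nat_lit 712752) (nat_lit 29) (.e (nat_lit 442398) (nat_lit 20) .nil)))) (.g (nat_lit 0) (.e (nat_lit 194861) (nat_lit 0) .nil) .nil)))) (.nd (nat_lit 9) 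
(.lf (nat_lit 510245) (.g (nat_lit 2446) (.e (nat_lit 172115) (nat_lit 10) (.e (nat_lit 434244) (nat_lit 28) (.e (nat_lit 573450) (nat_lit 9) (.e (nat_lit 459) (nat_lit 34) (.e (nat_lit 442378) (nat_lit 0) .nil))))) (.g (nat_lit 0) (.e (nat_lit 194265) (nat_lit 0) .nil) .nil))) 
(.lf (nat_lit 510757) (.g (nat_lit 1274) (.e (nat_lit 172120) (nat_lit 12) (.e (nat_lit 475210) (nat_lit 41) (.e (nat_lit 712755) (nat_lit 30) (.e (nat_lit 450566) (nat_lit 0) .nil)))) (.g (nat_lit 0) (.e (nat_lit 195237) (nat_lit 0) .nil) .nil))))) (.nd (nat_lit 8) (.nd (nat_lit 9) 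
(.lf (nat_lit 510117) (.g (nat_lit 1463) (.e (nat_lit 172115) (nat_lit 10) (.e (nat_lit 434231) (nat_lit 23) (.e (nat_lit 532543) (nat_lit 10) (.e (nat_lit 344090) (nat_lit 18) .nil)))) (.g (nat_lit 0) (.e (nat_lit 194019) (nat_lit 0) .nil) .nil))) 
(.lf (nat_lit 510629) (.g (nat_lit 2536) (.e (nat_lit 172120) (nat_lit 12) (.e (nat_lit 475179) (nat_lit 24) (.e (nat_lit 516129) (nat_lit 3) (.e (nat_lit 221194) (nat_lit 11) (.e (nat_lit 336009) (nat_lit 2) (.e (nat_lit 90170) (nat_lit 13) .nil)))))) (.g (nat_lit 1) (.e (nat_lit 195024) (nat_lit 0) .nil) .nil)))) (.nd (nat_lit 9) 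
(.lf (nat_lit 510373) (.g (nat_lit 1110) (.e (nat_lit 172115) (nat_lit 10) (.e (nat_lit 434266) (nat_lit 35) (.e (nat_lit 630821) (nat_lit 16) (.e (nat_lit 65619) (nat_lit 10) (.e (nat_lit 344157) (nat_lit 36) (.e (nat_lit 638999) (nat_lit 8) .nil)))))) (.g (nat_lit 1) (.e (nat_lit 194476) (nat_lit 0) .nil) .nil))) 
(.lf (nat_lit 510885) (.g (nat_lit 3502) (.e (nat_lit 172123) (nat_lit 13) (.e (nat_lit 483337) (nat_lit 9) (.e (nat_lit 426107) (nat_lit 1) (.e (nat_lit 164403) (nat_lit 256) (.e (nat_lit 57373) (nat_lit 2) (.e (nat_lit 90168) (nat_lit 13) .nil)))))) (.g (nat_lit 1) (.e (nat_lit 195734) (nat_lit 0) .nil) .nil)))))) (.nd (nat_lit 7) (.nd (nat_lit 8) (.nd (nat_lit 9) 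
(.lf (nat_lit 510053) (.g (nat_lit 1335) (.e (nat_lit 172115) (nat_lit 10) (.e (nat_lit 434231) (nat_lit 23) (.e (nat_lit 532481) (nat_lit 0) (.e (nat_lit 6684) (nat_lit 357) .nil)))) (.g (nat_lit 0) (.e (nat_lit 193927) (nat_lit 0) .nil) .nil))) 
(.lf (nat_lit 510565) (.g (nat_lit 3397) (.e (nat_lit 172119) (nat_lit 12) (.e (nat_lit 475185) (nat_lit 29) (.e (nat_lit 557098) (nat_lit 13) (.e (nat_lit 172120) (nat_lit 12) (.e (nat_lit 475185) (nat_lit 29) (.e (nat_lit 557101) (nat_lit 13) .nil)))))) (.g (nat_lit 1) (.e (nat_lit 194938) (nat_lit 0) .nil) .nil)))) (.nd (nat_lit 9) 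
(.lf (nat_lit 510309) (.g (nat_lit 1034) (.e (nat_lit 172115) (nat_lit 10) (.e (nat_lit 434244) (nat_lit 28) (.e (nat_lit 573471) (nat_lit 11) (.e (nat_lit 16425) (nat_lit 7) .nil)))) (.g (nat_lit 0) (.e (nat_lit 194343) (nat_lit 0) .nil) .nil))) 
(.lf (nat_lit 510821) (.g (nat_lit 1190) (.e (nat_lit 172121) (nat_lit 13) (.e (nat_lit 483363) (nat_lit 18) (.e (nat_lit 57692) (nat_lit 156) (.e (nat_lit 171776) (nat_lit 12) .nil)))) (.g (nat_lit 0) (.e (nat_lit 195340) (nat_lit 0) .nil) .nil))))) (.nd (nat_lit 8) (.nd (nat_lit 9) 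
(.lf (nat_lit 510181) (.g (nat_lit 2523) (.e (nat_lit 172115) (nat_lit 10) (.e (nat_lit 434231) (nat_lit 23) (.e (nat_lit 532569) (nat_lit 16) (.e (nat_lit 401452) (nat_lit 12) (.e (nat_lit 475184) (nat_lit 29) (.e (nat_lit 557098) (nat_lit 13) .nil)))))) (.g (nat_lit 1) (.e (nat_lit 194145) (nat_lit 0) .nil) .nil))) 
(.lf (nat_lit 510693) (.g (nat_lit 2356) (.e (nat_lit 172120) (nat_lit 12) (.e (nat_lit 475198) (nat_lit 40) (.e (nat_lit 704598) (nat_lit 6) (.e (nat_lit 188444) (nat_lit 21) (.e (nat_lit 164348) (nat_lit 240) (.e (nat_lit 2629) (nat_lit 164) .nil)))))) (.g (nat_lit 1) (.e (nat_lit 195107) (nat_lit 0) .nil) .nil)))) (.nd (nat_lit 9) 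
(.lf (nat_lit 510437) (.g (nat_lit 3566) (.e (nat_lit 172116) (nat_lit 10) (.e (nat_lit 434289) (nat_lit 43) (.e (nat_lit 696344) (nat_lit 8) (.e (nat_lit 172113) (nat_lit 10) (.e (nat_lit 434289) (nat_lit 43) (.e (nat_lit 696344) (nat_lit 8) .nil)))))) (.g (nat_lit 1) (.e (nat_lit 194772) (nat_lit 0) .nil) .nil))) 
(.lf (nat_lit 510949) (.g (nat_lit 417) (.e (nat_lit 172124) (nat_lit 14) (.e (nat_lit 491537) (nat_lit 2) (.e (nat_lit 90172) (nat_lit 14) .nil))) (.g (nat_lit 0) (.e (nat_lit 196009) (nat_lit 0) .nil) .nil)))))))) (.nd (nat_lit 5) (.nd (nat_lit 6) (.nd (nat_lit 7) (.nd (nat_lit 8) (.nd (nat_lit 9) 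
(.lf (nat_lit 509973) (.g (nat_lit 423) (.e (nat_lit 172113) (nat_lit 10) (.e (nat_lit 434268) (nat_lit 36) (.e (nat_lit 639020) (nat_lit 16) .nil))) (.g (nat_lit 0) (.e (nat_lit 193603) (nat_lit 0) .nil) .nil))) 
(.lf (nat_lit 510485) (.g (nat_lit 4065) (.e (nat_lit 172118) (nat_lit 12) (.e (nat_lit 475198) (nat_lit 40) (.e (nat_lit 704599) (nat_lit 6) (.e (nat_lit 188455) (nat_lit 24) (.e (nat_lit 229663) (nat_lit 240) (.e (nat_lit 2622) (nat_lit 164) .nil)))))) (.g (nat_lit 1) (.e (nat_lit 194826) (nat_lit 0) .nil) .nil)))) (.nd (nat_lit 9) 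
(.lf (nat_lit 510229) (.g (nat_lit 2185) (.e (nat_lit 172115) (nat_lit 10) (.e (nat_lit 434244) (nat_lit 28) (.e (nat_lit 573450) (nat_lit 9) (.e (nat_lit 390) (nat_lit 32) (.e (nat_lit 426198) (nat_lit 9) .nil))))) (.g (nat_lit 0) (.e (nat_lit 194243) (nat_lit 0) .nil) .nil))) 
(.lf (nat_lit 510741) (.g (nat_lit 1711) (.e (nat_lit 172120) (nat_lit 12) (.e (nat_lit 475210) (nat_lit 41) (.e (nat_lit 712752) (nat_lit 29) (.e (nat_lit 442429) (nat_lit 24) .nil)))) (.g (nat_lit 0) (.e (nat_lit 195199) (nat_lit 0) .nil) .nil))))) (.nd (nat_lit 8) (.nd (nat_lit 9) 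
(.lf (nat_lit 510101) (.g (nat_lit 4004) (.e (nat_lit 172115) (nat_lit 10) (.e (nat_lit 434231) (nat_lit 23) (.e (nat_lit 532523) (nat_lit 7) (.e (nat_lit 319536) (nat_lit 17) (.e (nat_lit 294928) (nat_lit 2) (.e (nat_lit 90170) (nat_lit 13) .nil)))))) (.g (nat_lit 1) (.e (nat_lit 193999) (nat_lit 0) .nil) .nil))) 
(.lf (nat_lit 510613) (.g (nat_lit 2994) (.e (nat_lit 172119) (nat_lit 12) (.e (nat_lit 475211) (nat_lit 41) (.e (nat_lit 712753) (nat_lit 30) (.e (nat_lit 450564) (nat_lit 0) (.e (nat_lit 5548) (nat_lit 306) (.e (nat_lit 2619) (nat_lit 164) .nil)))))) (.g (nat_lit 1) (.e (nat_lit 195003) (nat_lit 0) .nil) .nil)))) (.nd (nat_lit 9) 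
(.lf (nat_lit 510357) (.g (nat_lit 4138) (.e (nat_lit 172115) (nat_lit 10) (.e (nat_lit 434244) (nat_lit 28) (.e (nat_lit 573471) (nat_lit 11) (.e (nat_lit 16473) (nat_lit 14) (.e (nat_lit 491576) (nat_lit 15) .nil))))) (.g (nat_lit 0) (.e (nat_lit 194444) (nat_lit 0) .nil) .nil))) 
(.lf (nat_lit 510869) (.g (nat_lit 3453) (.e (nat_lit 172123) (nat_lit 13) (.e (nat_lit 483337) (nat_lit 9) (.e (nat_lit 426098) (nat_lit 1) (.e (nat_lit 164403) (nat_lit 256) (.e (nat_lit 57373) (nat_lit 2) (.e (nat_lit 90168) (nat_lit 13) .nil)))))) (.g (nat_lit 1) (.e (nat_lit 195717) (nat_lit 0) .nil) .nil)))))) (.nd (nat_lit 7) (.nd (nat_lit 8) (.nd (nat_lit 9) 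
(.lf (nat_lit 510037) (.g (nat_lit 1713) (.e (nat_lit 172115) (nat_lit 10) (.e (nat_lit 434209) (nat_lit 18) (.e (nat_lit 6425) (nat_lit 342) (.e (nat_lit 229412) (nat_lit 14) .nil)))) (.g (nat_lit 0) (.e (nat_lit 193888) (nat_lit 0) .nil) .nil))) 
(.lf (nat_lit 510549) (.g (nat_lit 3726) (.e (nat_lit 172118) (nat_lit 12) (.e (nat_lit 475211) (nat_lit 41) (.e (nat_lit 712755) (nat_lit 30) (.e (nat_lit 450564) (nat_lit 0) (.e (nat_lit 5548) (nat_lit 306) (.e (nat_lit 2619) (nat_lit 164) .nil)))))) (.g (nat_lit 1) (.e (nat_lit 194919) (nat_lit 0) .nil) .nil)))) (.nd (nat_lit 9) 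
(.lf (nat_lit 510293) (.g (nat_lit 1939) (.e (nat_lit 172115) (nat_lit 10) (.e (nat_lit 434244) (nat_lit 28) (.e (nat_lit 573470) (nat_lit 11) (.e (nat_lit 16437) (nat_lit 9) .nil)))) (.g (nat_lit 0) (.e (nat_lit 194319) (nat_lit 0) .nil) .nil))) 
(.lf (nat_lit 510805) (.g (nat_lit 3173) (.e (nat_lit 172120) (nat_lit 12) (.e (nat_lit 475211) (nat_lit 41) (.e (nat_lit 712755) (nat_lit 30) (.e (nat_lit 450568) (nat_lit 0) (.e (nat_lit 5448) (nat_lit 306) (.e (nat_lit 2630) (nat_lit 164) .nil)))))) (.g (nat_lit 1) (.e (nat_lit 195307) (nat_lit 0) .nil) .nil))))) (.nd (nat_lit 8) (.nd (nat_lit 9) 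
(.lf (nat_lit 510165) (.g (nat_lit 1978) (.e (nat_lit 172115) (nat_lit 10) (.e (nat_lit 434231) (nat_lit 23) (.e (nat_lit 532569) (nat_lit 16) (.e (nat_lit 401437) (nat_lit 9) (.e (nat_lit 426402) (nat_lit 15) .nil))))) (.g (nat_lit 0) (.e (nat_lit 194094) (nat_lit 0) .nil) .nil))) 
(.lf (nat_lit 510677) (.g (nat_lit 161) (.e (nat_lit 172120) (nat_lit 12) (.e (nat_lit 475197) (nat_lit 40) (.e (nat_lit 704598) (nat_lit 6) .nil))) (.g (nat_lit 0) (.e (nat_lit 195072) (nat_lit 0) .nil) .nil)))) (.nd (nat_lit 9) 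
(.lf (nat_lit 510421) (.g (nat_lit 1412) (.e (nat_lit 172116) (nat_lit 10) (.e (nat_lit 434241) (nat_lit 27) (.e (nat_lit 565269) (nat_lit 6) (.e (nat_lit 81938) (nat_lit 20) (.e (nat_lit 2389) (nat_lit 156) .nil))))) (.g (nat_lit 0) (.e (nat_lit 194719) (nat_lit 0) .nil) .nil))) 
(.lf (nat_lit 510933) (.g (nat_lit 1273) (.e (nat_lit 172123) (nat_lit 13) (.e (nat_lit 483412) (nat_lit 27) (.e (nat_lit 401439) (nat_lit 9) (.e (nat_lit 426043) (nat_lit 0) .nil)))) (.g (nat_lit 0) (.e (nat_lit 195921) (nat_lit 0) .nil) .nil))))))) (.nd (nat_lit 6) (.nd (nat_lit 7) (.nd (nat_lit 8) (.nd (nat_lit 9) 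
(.lf (nat_lit 510005) (.g (nat_lit 2102) (.e (nat_lit 172114) (nat_lit 10) (.e (nat_lit 434231) (nat_lit 23) (.e (nat_lit 532522) (nat_lit 7) (.e (nat_lit 319531) (nat_lit 16) (.e (nat_lit 286733) (nat_lit 2) (.e (nat_lit 90168) (nat_lit 13) .nil)))))) (.g (nat_lit 1) (.e (nat_lit 193711) (nat_lit 0) .nil) .nil))) 
(.lf (nat_lit 510517) (.g (nat_lit 2147) (.e (nat_lit 172118) (nat_lit 12) (.e (nat_lit 475210) (nat_lit 41) (.e (nat_lit 712755) (nat_lit 30) (.e (nat_lit 450562) (nat_lit 0) (.e (nat_lit 5537) (nat_lit 306) .nil))))) (.g (nat_lit 0) (.e (nat_lit 194881) (nat_lit 0) .nil) .nil)))) (.nd (nat_lit 9) 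
(.lf (nat_lit 510261) (.g (nat_lit 2522) (.e (nat_lit 172115) (nat_lit 10) (.e (nat_lit 434244) (nat_lit 28) (.e (nat_lit 573454) (nat_lit 9) (.e (nat_lit 422) (nat_lit 32) .nil)))) (.g (nat_lit 0) (.e (nat_lit 194285) (nat_lit 0) .nil) .nil))) 
(.lf (nat_lit 510773) (.g (nat_lit 2578) (.e (nat_lit 172120) (nat_lit 12) (.e (nat_lit 475211) (nat_lit 41) (.e (nat_lit 712752) (nat_lit 29) (.e (nat_lit 442421) (nat_lit 21) (.e (nat_lit 164348) (nat_lit 240) (.e (nat_lit 2617) (nat_lit 164) .nil)))))) (.g (nat_lit 1) (.e (nat_lit 195261) (nat_lit 0) .nil) .nil))))) (.nd (nat_lit 8) (.nd (nat_lit 9) 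
(.lf (nat_lit 510133) (.g (nat_lit 1064) (.e (nat_lit 172115) (nat_lit 10) (.e (nat_lit 434231) (nat_lit 23) (.e (nat_lit 532564) (nat_lit 15) (.e (nat_lit 385102) (nat_lit 50) .nil)))) (.g (nat_lit 0) (.e (nat_lit 194041) (nat_lit 0) .nil) .nil))) 
(.lf (nat_lit 510645) (.g (nat_lit 4007) (.e (nat_lit 172120) (nat_lit 12) (.e (nat_lit 475185) (nat_lit 29) (.e (nat_lit 557098) (nat_lit 13) (.e (nat_lit 172120) (nat_lit 12) (.e (nat_lit 475185) (nat_lit 29) (.e (nat_lit 557100) (nat_lit 13) .nil)))))) (.g (nat_lit 1) (.e (nat_lit 195040) (nat_lit 0) .nil) .nil)))) (.nd (nat_lit 9) 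
(.lf (nat_lit 510389) (.g (nat_lit 2102) (.e (nat_lit 172115) (nat_lit 10) (.e (nat_lit 434272) (nat_lit 38) (.e (nat_lit 655363) (nat_lit 0) (.e (nat_lit 3022) (nat_lit 187) (.e (nat_lit 458496) (nat_lit 15) (.e (nat_lit 647183) (nat_lit 4) .nil)))))) (.g (nat_lit 1) (.e (nat_lit 194581) (nat_lit 0) .nil) .nil))) 
(.lf (nat_lit 510901) (.g (nat_lit 1611) (.e (nat_lit 172123) (nat_lit 13) (.e (nat_lit 483363) (nat_lit 18) (.e (nat_lit 57689) (nat_lit 156) (.e (nat_lit 163907) (nat_lit 12) .nil)))) (.g (nat_lit 0) (.e (nat_lit 195775) (nat_lit 0) .nil) .nil)))))) (.nd (nat_lit 7) (.nd (nat_lit 8) (.nd (nat_lit 9) 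
(.lf (nat_lit 510069) (.g (nat_lit 399) (.e (nat_lit 172115) (nat_lit 10) (.e (nat_lit 434231) (nat_lit 23) (.e (nat_lit 532523) (nat_lit 7) .nil))) (.g (nat_lit 0) (.e (nat_lit 193959) (nat_lit 0) .nil) .nil))) 
(.lf (nat_lit 510581) (.g (nat_lit 924) (.e (nat_lit 172119) (nat_lit 12) (.e (nat_lit 475199) (nat_lit 40) (.e (nat_lit 704599) (nat_lit 6) (.e (nat_lit 188424) (nat_lit 20) (.e (nat_lit 3397) (nat_lit 211) .nil))))) (.g (nat_lit 0) (.e (nat_lit 194959) (nat_lit 0) .nil) .nil)))) (.nd (nat_lit 9) 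
(.lf (nat_lit 510325) (.g (nat_lit 2487) (.e (nat_lit 172115) (nat_lit 10) (.e (nat_lit 434244) (nat_lit 28) (.e (nat_lit 573471) (nat_lit 11) (.e (nat_lit 16435) (nat_lit 9) (.e (nat_lit 426361) (nat_lit 15) .nil))))) (.g (nat_lit 0) (.e (nat_lit 194403) (nat_lit 0) .nil) .nil))) 
(.lf (nat_lit 510837) (.g (nat_lit 1403) (.e (nat_lit 172122) (nat_lit 13) (.e (nat_lit 483337) (nat_lit 9) (.e (nat_lit 426100) (nat_lit 1) (.e (nat_lit 164398) (nat_lit 256) .nil)))) (.g (nat_lit 0) (.e (nat_lit 195496) (nat_lit 0) .nil) .nil))))) (.nd (nat_lit 8) (.nd (nat_lit 9) 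
(.lf (nat_lit 510197) (.g (nat_lit 2894) (.e (nat_lit 172115) (nat_lit 10) (.e (nat_lit 434238) (nat_lit 25) (.e (nat_lit 548912) (nat_lit 18) (.e (nat_lit 172120) (nat_lit 12) (.e (nat_lit 475185) (nat_lit 29) (.e (nat_lit 557101) (nat_lit 13) .nil)))))) (.g (nat_lit 1) (.e (nat_lit 194204) (nat_lit 0) .nil) .nil))) 
(.lf (nat_lit 510709) (.g (nat_lit 3564) (.e (nat_lit 172120) (nat_lit 12) (.e (nat_lit 475198) (nat_lit 40) (.e (nat_lit 704599) (nat_lit 6) (.e (nat_lit 188453) (nat_lit 24) (.e (nat_lit 229665) (nat_lit 240) (.e (nat_lit 2630) (nat_lit 164) .nil)))))) (.g (nat_lit 1) (.e (nat_lit 195124) (nat_lit 0) .nil) .nil)))) (.nd (nat_lit 9) 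
(.lf (nat_lit 510453) (.g (nat_lit 2965) (.e (nat_lit 172118) (nat_lit 12) (.e (nat_lit 475184) (nat_lit 29) (.e (nat_lit 557109) (nat_lit 15) (.e (nat_lit 188434) (nat_lit 20) (.e (nat_lit 3271) (nat_lit 199) .nil))))) (.g (nat_lit 0) (.e (nat_lit 194789) (nat_lit 0) .nil) .nil))) 
(.lf (nat_lit 510965) (.g (nat_lit 1514) (.e (nat_lit 172124) (nat_lit 14) (.e (nat_lit 491540) (nat_lit 3) (.e (nat_lit 98373) (nat_lit 29) (.e (nat_lit 450561) (nat_lit 0) .nil)))) (.g (nat_lit 0) (.e (nat_lit 196026) (nat_lit 0) .nil) .nil))))))))) (.nd (nat_lit 4) (.nd (nat_lit 5) (.nd (nat_lit 6) (.nd (nat_lit 7) (.nd (nat_lit 8) (.nd (nat_lit 9) 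
(.lf (nat_lit 509965) (.g (nat_lit 4436) (.e (nat_lit 172113) (nat_lit 10) (.e (nat_lit 434248) (nat_lit 28) (.e (nat_lit 573475) (nat_lit 12) (.e (nat_lit 57574) (nat_lit 55) (.e (nat_lit 778466) (nat_lit 11) (.e (nat_lit 24602) (nat_lit 2) (.e (nat_lit 90170) (nat_lit 13) .nil))))))) (.g (nat_lit 1) (.e (nat_lit 193584) (nat_lit 0) .nil) .nil))) 
(.lf (nat_lit 510477) (.g (nat_lit 3133) (.e (nat_lit 172118) (nat_lit 12) (.e (nat_lit 475198) (nat_lit 40) (.e (nat_lit 704598) (nat_lit 6) (.e (nat_lit 188453) (nat_lit 24) (.e (nat_lit 229663) (nat_lit 240) (.e (nat_lit 2622) (nat_lit 164) .nil)))))) (.g (nat_lit 1) (.e (nat_lit 194818) (nat_lit 0) .nil) .nil)))) (.nd (nat_lit 9) 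
(.lf (nat_lit 510221) (.g (nat_lit 1645) (.e (nat_lit 172115) (nat_lit 10) (.e (nat_lit 434244) (nat_lit 28) (.e (nat_lit 573450) (nat_lit 9) (.e (nat_lit 372) (nat_lit 32) (.e (nat_lit 426320) (nat_lit 12) .nil))))) (.g (nat_lit 0) (.e (nat_lit 194234) (nat_lit 0) .nil) .nil))) 
(.lf (nat_lit 510733) (.g (nat_lit 1449) (.e (nat_lit 172120) (nat_lit 12) (.e (nat_lit 475210) (nat_lit 41) (.e (nat_lit 712752) (nat_lit 29) (.e (nat_lit 442396) (nat_lit 20) (.e (nat_lit 3402) (nat_lit 211) .nil))))) (.g (nat_lit 0) (.e (nat_lit 195191) (nat_lit 0) .nil) .nil))))) (.nd (nat_lit 8) (.nd (nat_lit 9) 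
(.lf (nat_lit 510093) (.g (nat_lit 2446) (.e (nat_lit 172115) (nat_lit 10) (.e (nat_lit 434231) (nat_lit 23) (.e (nat_lit 532523) (nat_lit 7) (.e (nat_lit 319532) (nat_lit 16) .nil)))) (.g (nat_lit 0) (.e (nat_lit 193990) (nat_lit 0) .nil) .nil))) 
(.lf (nat_lit 510605) (.g (nat_lit 3091) (.e (nat_lit 172119) (nat_lit 12) (.e (nat_lit 475211) (nat_lit 41) (.e (nat_lit 712752) (nat_lit 29) (.e (nat_lit 442421) (nat_lit 21) (.e (nat_lit 164345) (nat_lit 240) (.e (nat_lit 2618) (nat_lit 164) .nil)))))) (.g (nat_lit 1) (.e (nat_lit 194994) (nat_lit 0) .nil) .nil)))) (.nd (nat_lit 9) 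
(.lf (nat_lit 510349) (.g (nat_lit 2355) (.e (nat_lit 172115) (nat_lit 10) (.e (nat_lit 434244) (nat_lit 28) (.e (nat_lit 573471) (nat_lit 11) (.e (nat_lit 16470) (nat_lit 14) .nil)))) (.g (nat_lit 0) (.e (nat_lit 194436) (nat_lit 0) .nil) .nil))) 
(.lf (nat_lit 510861) (.g (nat_lit 1636) (.e (nat_lit 172122) (nat_lit 13) (.e (nat_lit 483405) (nat_lit 26) (.e (nat_lit 385109) (nat_lit 51) (.e (nat_lit 794639) (nat_lit 20) .nil)))) (.g (nat_lit 0) (.e (nat_lit 195598) (nat_lit 0) .nil) .nil)))))) (.nd (nat_lit 7) (.nd (nat_lit 8) (.nd (nat_lit 9) 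
(.lf (nat_lit 510029) (.g (nat_lit 2074) (.e (nat_lit 172115) (nat_lit 10) (.e (nat_lit 434209) (nat_lit 18) (.e (nat_lit 5547) (nat_lit 306) (.e (nat_lit 2650) (nat_lit 166) (.e (nat_lit 188435) (nat_lit 20) (.e (nat_lit 3409) (nat_lit 212) (.e (nat_lit 655378) (nat_lit 4) .nil))))))) (.g (nat_lit 1) (.e (nat_lit 193810) (nat_lit 0) .nil) .nil))) 
(.lf (nat_lit 510541) (.g (nat_lit 1310) (.e (nat_lit 172118) (nat_lit 12) (.e (nat_lit 475211) (nat_lit 41) (.e (nat_lit 712753) (nat_lit 30) (.e (nat_lit 450561) (nat_lit 0) .nil)))) (.g (nat_lit 0) (.e (nat_lit 194910) (nat_lit 0) .nil) .nil)))) (.nd (nat_lit 9) 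
(.lf (nat_lit 510285) (.g (nat_lit 2272) (.e (nat_lit 172115) (nat_lit 10) (.e (nat_lit 434244) (nat_lit 28) (.e (nat_lit 573469) (nat_lit 11) (.e (nat_lit 16435) (nat_lit 9) (.e (nat_lit 426354) (nat_lit 15) .nil))))) (.g (nat_lit 0) (.e (nat_lit 194311) (nat_lit 0) .nil) .nil))) 
(.lf (nat_lit 510797) (.g (nat_lit 4084) (.e (nat_lit 172120) (nat_lit 12) (.e (nat_lit 475211) (nat_lit 41) (.e (nat_lit 712755) (nat_lit 30) (.e (nat_lit 450562) (nat_lit 0) (.e (nat_lit 5539) (nat_lit 306) (.e (nat_lit 2625) (nat_lit 164) .nil)))))) (.g (nat_lit 1) (.e (nat_lit 195294) (nat_lit 0) .nil) .nil))))) (.nd (nat_lit 8) (.nd (nat_lit 9) 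
(.lf (nat_lit 510157) (.g (nat_lit 3682) (.e (nat_lit 172115) (nat_lit 10) (.e (nat_lit 434231) (nat_lit 23) (.e (nat_lit 532568) (nat_lit 16) (.e (nat_lit 401454) (nat_lit 12) (.e (nat_lit 475184) (nat_lit 29) (.e (nat_lit 557098) (nat_lit 13) .nil)))))) (.g (nat_lit 1) (.e (nat_lit 194079) (nat_lit 0) .nil) .nil))) 
(.lf (nat_lit 510669) (.g (nat_lit 3713) (.e (nat_lit 172120) (nat_lit 12) (.e (nat_lit 475185) (nat_lit 29) (.e (nat_lit 557108) (nat_lit 15) (.e (nat_lit 188435) (nat_lit 20) (.e (nat_lit 3272) (nat_lit 199) .nil))))) (.g (nat_lit 0) (.e (nat_lit 195064) (nat_lit 0) .nil) .nil)))) (.nd (nat_lit 9) 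
(.lf (nat_lit 510413) (.g (nat_lit 2999) (.e (nat_lit 172116) (nat_lit 10) (.e (nat_lit 434231) (nat_lit 23) (.e (nat_lit 532523) (nat_lit 7) (.e (nat_lit 319530) (nat_lit 16) .nil)))) (.g (nat_lit 0) (.e (nat_lit 194695) (nat_lit 0) .nil) .nil))) 
(.lf (nat_lit 510925) (.g (nat_lit 665) (.e (nat_lit 172123) (nat_lit 13) (.e (nat_lit 483410) (nat_lit 27) (.e (nat_lit 401434) (nat_lit 9) .nil))) (.g (nat_lit 0) (.e (nat_lit 195881) (nat_lit 0) .nil) .nil))))))) (.nd (nat_lit 6) (.nd (nat_lit 7) (.nd (nat_lit 8) (.nd (nat_lit 9) 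
(.lf (nat_lit 509997) (.g (nat_lit 1897) (.e (nat_lit 172113) (nat_lit 10) (.e (nat_lit 434289) (nat_lit 43) (.e (nat_lit 696344) (nat_lit 8) (.e (nat_lit 172106) (nat_lit 10) (.e (nat_lit 434287) (nat_lit 43) .nil))))) (.g (nat_lit 0) (.e (nat_lit 193699) (nat_lit 0) .nil) .nil))) 
(.lf (nat_lit 510509) (.g (nat_lit 3485) (.e (nat_lit 172118) (nat_lit 12) (.e (nat_lit 475210) (nat_lit 41) (.e (nat_lit 712752) (nat_lit 29) (.e (nat_lit 442421) (nat_lit 21) (.e (nat_lit 164348) (nat_lit 240) (.e (nat_lit 2628) (nat_lit 164) .nil)))))) (.g (nat_lit 1) (.e (nat_lit 194869) (nat_lit 0) .nil) .nil)))) (.nd (nat_lit 9) 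
(.lf (nat_lit 510253) (.g (nat_lit 1939) (.e (nat_lit 172115) (nat_lit 10) (.e (nat_lit 434244) (nat_lit 28) (.e (nat_lit 573451) (nat_lit 9) (.e (nat_lit 7936) (nat_lit 32) .nil)))) (.g (nat_lit 0) (.e (nat_lit 194277) (nat_lit 0) .nil) .nil))) 
(.lf (nat_lit 510765) (.g (nat_lit 2794) (.e (nat_lit 172120) (nat_lit 12) (.e (nat_lit 475211) (nat_lit 41) (.e (nat_lit 712750) (nat_lit 29) (.e (nat_lit 442421) (nat_lit 21) (.e (nat_lit 164348) (nat_lit 240) (.e (nat_lit 2628) (nat_lit 164) .nil)))))) (.g (nat_lit 1) (.e (nat_lit 195248) (nat_lit 0) .nil) .nil))))) (.nd (nat_lit 8) (.nd (nat_lit 9) 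
(.lf (nat_lit 510125) (.g (nat_lit 3681) (.e (nat_lit 172115) (nat_lit 10) (.e (nat_lit 434231) (nat_lit 23) (.e (nat_lit 532563) (nat_lit 15) (.e (nat_lit 385096) (nat_lit 49) (.e (nat_lit 786176) (nat_lit 3) .nil))))) (.g (nat_lit 0) (.e (nat_lit 194032) (nat_lit 0) .nil) .nil))) 
(.lf (nat_lit 510637) (.g (nat_lit 1588) (.e (nat_lit 172120) (nat_lit 12) (.e (nat_lit 475185) (nat_lit 29) (.e (nat_lit 557097) (nat_lit 13) (.e (nat_lit 172115) (nat_lit 10) .nil)))) (.g (nat_lit 0) (.e (nat_lit 195032) (nat_lit 0) .nil) .nil)))) (.nd (nat_lit 9) 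
(.lf (nat_lit 510381) (.g (nat_lit 1443) (.e (nat_lit 172115) (nat_lit 10) (.e (nat_lit 434275) (nat_lit 39) (.e (nat_lit 663580) (nat_lit 9) (.e (nat_lit 284) (nat_lit 21) .nil)))) (.g (nat_lit 0) (.e (nat_lit 194516) (nat_lit 0) .nil) .nil))) 
(.lf (nat_lit 510893) (.g (nat_lit 743) (.e (nat_lit 172123) (nat_lit 13) (.e (nat_lit 483341) (nat_lit 9) (.e (nat_lit 426100) (nat_lit 1) .nil))) (.g (nat_lit 0) (.e (nat_lit 195742) (nat_lit 0) .nil) .nil)))))) (.nd (nat_lit 7) (.nd (nat_lit 8) (.nd (nat_lit 9) 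
(.lf (nat_lit 510061) (.g (nat_lit 1351) (.e (nat_lit 172115) (nat_lit 10) (.e (nat_lit 434231) (nat_lit 23) (.e (nat_lit 532490) (nat_lit 0) (.e (nat_lit 6680) (nat_lit 357) .nil)))) (.g (nat_lit 0) (.e (nat_lit 193943) (nat_lit 0) .nil) .nil))) 
(.lf (nat_lit 510573) (.g (nat_lit 808) (.e (nat_lit 172119) (nat_lit 12) (.e (nat_lit 475198) (nat_lit 40) (.e (nat_lit 704599) (nat_lit 6) (.e (nat_lit 188418) (nat_lit 0) .nil)))) (.g (nat_lit 0) (.e (nat_lit 194947) (nat_lit 0) .nil) .nil)))) (.nd (nat_lit 9) 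
(.lf (nat_lit 510317) (.g (nat_lit 2680) (.e (nat_lit 172115) (nat_lit 10) (.e (nat_lit 434244) (nat_lit 28) (.e (nat_lit 573471) (nat_lit 11) (.e (nat_lit 16433) (nat_lit 9) (.e (nat_lit 426360) (nat_lit 15) .nil))))) (.g (nat_lit 0) (.e (nat_lit 194394) (nat_lit 0) .nil) .nil))) 
(.lf (nat_lit 510829) (.g (nat_lit 903) (.e (nat_lit 172122) (nat_lit 13) (.e (nat_lit 483337) (nat_lit 9) (.e (nat_lit 426097) (nat_lit 1) .nil))) (.g (nat_lit 0) (.e (nat_lit 195488) (nat_lit 0) .nil) .nil))))) (.nd (nat_lit 8) (.nd (nat_lit 9) 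
(.lf (nat_lit 510189) (.g (nat_lit 350) (.e (nat_lit 172115) (nat_lit 10) (.e (nat_lit 434238) (nat_lit 25) (.e (nat_lit 548896) (nat_lit 14) .nil))) (.g (nat_lit 0) (.e (nat_lit 194194) (nat_lit 0) .nil) .nil))) 
(.lf (nat_lit 510701) (.g (nat_lit 4025) (.e (nat_lit 172120) (nat_lit 12) (.e (nat_lit 475198) (nat_lit 40) (.e (nat_lit 704598) (nat_lit 6) (.e (nat_lit 188455) (nat_lit 24) (.e (nat_lit 229663) (nat_lit 240) (.e (nat_lit 2621) (nat_lit 164) .nil)))))) (.g (nat_lit 1) (.e (nat_lit 195115) (nat_lit 0) .nil) .nil)))) (.nd (nat_lit 9) 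
(.lf (nat_lit 510445) (.g (nat_lit 2790) (.e (nat_lit 172117) (nat_lit 11) (.e (nat_lit 458789) (nat_lit 23) (.e (nat_lit 532563) (nat_lit 15) (.e (nat_lit 385094) (nat_lit 49) (.e (nat_lit 778318) (nat_lit 3) .nil))))) (.g (nat_lit 0) (.e (nat_lit 194780) (nat_lit 0) .nil) .nil))) 
(.lf (nat_lit 510957) (.g (nat_lit 4452) (.e (nat_lit 172124) (nat_lit 14) (.e (nat_lit 491540) (nat_lit 3) (.e (nat_lit 98365) (nat_lit 26) (.e (nat_lit 426316) (nat_lit 12) (.e (nat_lit 475185) (nat_lit 29) (.e (nat_lit 557098) (nat_lit 13) .nil)))))) (.g (nat_lit 1) (.e (nat_lit 196017) (nat_lit 0) .nil) .nil)))))))) 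
(.nd (nat_lit 5) (.nd (nat_lit 6) (.nd (nat_lit 7) (.nd (nat_lit 8) (.nd (nat_lit 9) 
(.lf (nat_lit 509981) (.g (nat_lit 1131) (.e (nat_lit 172113) (nat_lit 10) (.e (nat_lit 434276) (nat_lit 39) (.e (nat_lit 663580) (nat_lit 9) (.e (nat_lit 7936) (nat_lit 26) .nil)))) (.g (nat_lit 0) (.e (nat_lit 193639) (nat_lit 0) .nil) .nil))) 
(.lf (nat_lit 510493) (.g (nat_lit 3682) (.e (nat_lit 172118) (nat_lit 12) (.e (nat_lit 475199) (nat_lit 40) (.e (nat_lit 704598) (nat_lit 6) (.e (nat_lit 188455) (nat_lit 24) (.e (nat_lit 229663) (nat_lit 240) (.e (nat_lit 2622) (nat_lit 164) .nil)))))) (.g (nat_lit 1) (.e (nat_lit 194834) (nat_lit 0) .nil) .nil)))) (.nd (nat_lit 9) 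
(.lf (nat_lit 510237) (.g (nat_lit 1354) (.e (nat_lit 172115) (nat_lit 10) (.e (nat_lit 434244) (nat_lit 28) (.e (nat_lit 573450) (nat_lit 9) (.e (nat_lit 455) (nat_lit 34) .nil)))) (.g (nat_lit 0) (.e (nat_lit 194257) (nat_lit 0) .nil) .nil))) 
(.lf (nat_lit 510749) (.g (nat_lit 3257) (.e (nat_lit 172120) (nat_lit 12) (.e (nat_lit 475210) (nat_lit 41) (.e (nat_lit 712753) (nat_lit 30) (.e (nat_lit 450593) (nat_lit 16) (.e (nat_lit 655378) (nat_lit 4) .nil))))) (.g (nat_lit 1) (.e (nat_lit 195217) (nat_lit 0) .nil) .nil))))) (.nd (nat_lit 8) (.nd (nat_lit 9) 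
(.lf (nat_lit 510109) (.g (nat_lit 2806) (.e (nat_lit 172115) (nat_lit 10) (.e (nat_lit 434231) (nat_lit 23) (.e (nat_lit 532529) (nat_lit 9) (.e (nat_lit 336284) (nat_lit 15) (.e (nat_lit 3743) (nat_lit 228) .nil))))) (.g (nat_lit 0) (.e (nat_lit 194008) (nat_lit 0) .nil) .nil))) 
(.lf (nat_lit 510621) (.g (nat_lit 1922) (.e (nat_lit 172119) (nat_lit 12) (.e (nat_lit 475211) (nat_lit 41) (.e (nat_lit 712755) (nat_lit 30) (.e (nat_lit 450563) (nat_lit 0) (.e (nat_lit 5539) (nat_lit 306) (.e (nat_lit 7936) (nat_lit 164) .nil)))))) (.g (nat_lit 1) (.e (nat_lit 195012) (nat_lit 0) .nil) .nil)))) (.nd (nat_lit 9) 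
(.lf (nat_lit 510365) (.g (nat_lit 3245) (.e (nat_lit 172115) (nat_lit 10) (.e (nat_lit 434244) (nat_lit 28) (.e (nat_lit 573474) (nat_lit 12) (.e (nat_lit 57571) (nat_lit 54) .nil)))) (.g (nat_lit 0) (.e (nat_lit 194458) (nat_lit 0) .nil) .nil))) 
(.lf (nat_lit 510877) (.g (nat_lit 3446) (.e (nat_lit 172123) (nat_lit 13) (.e (nat_lit 483337) (nat_lit 9) (.e (nat_lit 426100) (nat_lit 1) (.e (nat_lit 164403) (nat_lit 256) (.e (nat_lit 57371) (nat_lit 2) (.e (nat_lit 90167) (nat_lit 13) .nil)))))) (.g (nat_lit 1) (.e (nat_lit 195725) (nat_lit 0) .nil) .nil)))))) (.nd (nat_lit 7) (.nd (nat_lit 8) (.nd (nat_lit 9) 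
(.lf (nat_lit 510045) (.g (nat_lit 2496) (.e (nat_lit 172115) (nat_lit 10) (.e (nat_lit 434209) (nat_lit 18) (.e (nat_lit 6427) (nat_lit 342) (.e (nat_lit 229413) (nat_lit 15) (.e (nat_lit 450601) (nat_lit 21) (.e (nat_lit 696344) (nat_lit 8) .nil)))))) (.g (nat_lit 1) (.e (nat_lit 193915) (nat_lit 0) .nil) .nil))) 
(.lf (nat_lit 510557) (.g (nat_lit 2323) (.e (nat_lit 172119) (nat_lit 12) (.e (nat_lit 475179) (nat_lit 24) (.e (nat_lit 516122) (nat_lit 2) (.e (nat_lit 213032) (nat_lit 11) (.e (nat_lit 24605) (nat_lit 2) .nil))))) (.g (nat_lit 0) (.e (nat_lit 194930) (nat_lit 0) .nil) .nil)))) (.nd (nat_lit 9) 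
(.lf (nat_lit 510301) (.g (nat_lit 3492) (.e (nat_lit 172115) (nat_lit 10) (.e (nat_lit 434244) (nat_lit 28) (.e (nat_lit 573471) (nat_lit 11) (.e (nat_lit 16386) (nat_lit 0) (.e (nat_lit 7376) (nat_lit 389) .nil))))) (.g (nat_lit 0) (.e (nat_lit 194327) (nat_lit 0) .nil) .nil))) 
(.lf (nat_lit 510813) (.g (nat_lit 1370) (.e (nat_lit 172121) (nat_lit 13) (.e (nat_lit 483337) (nat_lit 9) (.e (nat_lit 426107) (nat_lit 1) (.e (nat_lit 164403) (nat_lit 256) .nil)))) (.g (nat_lit 0) (.e (nat_lit 195317) (nat_lit 0) .nil) .nil))))) (.nd (nat_lit 8) (.nd (nat_lit 9) 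
(.lf (nat_lit 510173) (.g (nat_lit 5211) (.e (nat_lit 172115) (nat_lit 10) (.e (nat_lit 434231) (nat_lit 23) (.e (nat_lit 532569) (nat_lit 16) (.e (nat_lit 401451) (nat_lit 12) (.e (nat_lit 475183) (nat_lit 29) (.e (nat_lit 557101) (nat_lit 13) .nil)))))) (.g (nat_lit 1) (.e (nat_lit 194134) (nat_lit 0) .nil) .nil))) 
(.lf (nat_lit 510685) (.g (nat_lit 3629) (.e (nat_lit 172120) (nat_lit 12) (.e (nat_lit 475197) (nat_lit 40) (.e (nat_lit 704598) (nat_lit 6) (.e (nat_lit 188455) (nat_lit 24) (.e (nat_lit 229663) (nat_lit 240) (.e (nat_lit 2621) (nat_lit 164) .nil)))))) (.g (nat_lit 1) (.e (nat_lit 195087) (nat_lit 0) .nil) .nil)))) (.nd (nat_lit 9) 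
(.lf (nat_lit 510429) (.g (nat_lit 2883) (.e (nat_lit 172116) (nat_lit 10) (.e (nat_lit 434272) (nat_lit 38) (.e (nat_lit 655378) (nat_lit 4) (.e (nat_lit 172094) (nat_lit 9) (.e (nat_lit 426025) (nat_lit 0) (.e (nat_lit 3397) (nat_lit 211) (.e (nat_lit 647183) (nat_lit 4) .nil))))))) (.g (nat_lit 1) (.e (nat_lit 194744) (nat_lit 0) .nil) .nil))) 
(.lf (nat_lit 510941) (.g (nat_lit 1220) (.e (nat_lit 172124) (nat_lit 14) (.e (nat_lit 491537) (nat_lit 2) (.e (nat_lit 90165) (nat_lit 12) (.e (nat_lit 164217) (nat_lit 178) .nil)))) (.g (nat_lit 0) (.e (nat_lit 196001) (nat_lit 0) .nil) .nil))))))) (.nd (nat_lit 6) (.nd (nat_lit 7) (.nd (nat_lit 8) (.nd (nat_lit 9) 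
(.lf (nat_lit 510013) (.g (nat_lit 3170) (.e (nat_lit 172114) (nat_lit 10) (.e (nat_lit 434231) (nat_lit 23) (.e (nat_lit 532535) (nat_lit 9) (.e (nat_lit 335925) (nat_lit 0) .nil)))) (.g (nat_lit 0) (.e (nat_lit 193721) (nat_lit 0) .nil) .nil))) 
(.lf (nat_lit 510525) (.g (nat_lit 1264) (.e (nat_lit 172118) (nat_lit 12) (.e (nat_lit 475210) (nat_lit 41) (.e (nat_lit 712755) (nat_lit 30) (.e (nat_lit 450566) (nat_lit 0) .nil)))) (.g (nat_lit 0) (.e (nat_lit 194889) (nat_lit 0) .nil) .nil)))) (.nd (nat_lit 9) 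
(.lf (nat_lit 510269) (.g (nat_lit 1363) (.e (nat_lit 172115) (nat_lit 10) (.e (nat_lit 434244) (nat_lit 28) (.e (nat_lit 573458) (nat_lit 9) (.e (nat_lit 420) (nat_lit 32) .nil)))) (.g (nat_lit 0) (.e (nat_lit 194294) (nat_lit 0) .nil) .nil))) 
(.lf (nat_lit 510781) (.g (nat_lit 2771) (.e (nat_lit 172120) (nat_lit 12) (.e (nat_lit 475211) (nat_lit 41) (.e (nat_lit 712753) (nat_lit 30) (.e (nat_lit 450564) (nat_lit 0) (.e (nat_lit 5546) (nat_lit 306) (.e (nat_lit 2618) (nat_lit 164) .nil)))))) (.g (nat_lit 1) (.e (nat_lit 195270) (nat_lit 0) .nil) .nil))))) (.nd (nat_lit 8) (.nd (nat_lit 9) 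
(.lf (nat_lit 510141) (.g (nat_lit 3640) (.e (nat_lit 172115) (nat_lit 10) (.e (nat_lit 434231) (nat_lit 23) (.e (nat_lit 532567) (nat_lit 16) (.e (nat_lit 401453) (nat_lit 12) (.e (nat_lit 475183) (nat_lit 29) (.e (nat_lit 557098) (nat_lit 13) .nil)))))) (.g (nat_lit 1) (.e (nat_lit 194051) (nat_lit 0) .nil) .nil))) 
(.lf (nat_lit 510653) (.g (nat_lit 3186) (.e (nat_lit 172120) (nat_lit 12) (.e (nat_lit 475185) (nat_lit 29) (.e (nat_lit 557100) (nat_lit 13) (.e (nat_lit 172082) (nat_lit 7) (.e (nat_lit 409631) (nat_lit 12) (.e (nat_lit 32807) (nat_lit 18) .nil)))))) (.g (nat_lit 1) (.e (nat_lit 195048) (nat_lit 0) .nil) .nil)))) (.nd (nat_lit 9) 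
(.lf (nat_lit 510397) (.g (nat_lit 659) (.e (nat_lit 172116) (nat_lit 10) (.e (nat_lit 434209) (nat_lit 18) (.e (nat_lit 5546) (nat_lit 306) .nil))) (.g (nat_lit 0) (.e (nat_lit 194667) (nat_lit 0) .nil) .nil))) 
(.lf (nat_lit 510909) (.g (nat_lit 2342) (.e (nat_lit 172123) (nat_lit 13) (.e (nat_lit 483395) (nat_lit 24) (.e (nat_lit 344160) (nat_lit 37) (.e (nat_lit 647190) (nat_lit 9) (.e (nat_lit 1030) (nat_lit 81) .nil))))) (.g (nat_lit 0) (.e (nat_lit 195849) (nat_lit 0) .nil) .nil)))))) (.nd (nat_lit 7) (.nd (nat_lit 8) (.nd (nat_lit 9) 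
(.lf (nat_lit 510077) (.g (nat_lit 2512) (.e (nat_lit 172115) (nat_lit 10) (.e (nat_lit 434231) (nat_lit 23) (.e (nat_lit 532523) (nat_lit 7) (.e (nat_lit 319505) (nat_lit 10) .nil)))) (.g (nat_lit 0) (.e (nat_lit 193967) (nat_lit 0) .nil) .nil))) 
(.lf (nat_lit 510589) (.g (nat_lit 1045) (.e (nat_lit 172119) (nat_lit 12) (.e (nat_lit 475210) (nat_lit 41) (.e (nat_lit 712753) (nat_lit 30) (.e (nat_lit 450564) (nat_lit 0) .nil)))) (.g (nat_lit 0) (.e (nat_lit 194977) (nat_lit 0) .nil) .nil)))) (.nd (nat_lit 9) 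
(.lf (nat_lit 510333) (.g (nat_lit 1791) (.e (nat_lit 172115) (nat_lit 10) (.e (nat_lit 434244) (nat_lit 28) (.e (nat_lit 573471) (nat_lit 11) (.e (nat_lit 16440) (nat_lit 9) (.e (nat_lit 426410) (nat_lit 15) .nil))))) (.g (nat_lit 0) (.e (nat_lit 194411) (nat_lit 0) .nil) .nil))) 
(.lf (nat_lit 510845) (.g (nat_lit 2563) (.e (nat_lit 172122) (nat_lit 13) (.e (nat_lit 483337) (nat_lit 9) (.e (nat_lit 426108) (nat_lit 1) (.e (nat_lit 164402) (nat_lit 256) (.e (nat_lit 57373) (nat_lit 2) (.e (nat_lit 90169) (nat_lit 13) .nil)))))) (.g (nat_lit 1) (.e (nat_lit 195504) (nat_lit 0) .nil) .nil))))) (.nd (nat_lit 8) (.nd (nat_lit 9) 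
(.lf (nat_lit 510205) (.g (nat_lit 2156) (.e (nat_lit 172115) (nat_lit 10) (.e (nat_lit 434238) (nat_lit 25) (.e (nat_lit 548915) (nat_lit 20) (.e (nat_lit 188419) (nat_lit 0) .nil)))) (.g (nat_lit 0) (.e (nat_lit 194213) (nat_lit 0) .nil) .nil))) 
(.lf (nat_lit 510717) (.g (nat_lit 2439) (.e (nat_lit 172120) (nat_lit 12) (.e (nat_lit 475199) (nat_lit 40) (.e (nat_lit 704598) (nat_lit 6) (.e (nat_lit 188434) (nat_lit 20) (.e (nat_lit 3406) (nat_lit 212) (.e (nat_lit 655376) (nat_lit 4) .nil)))))) (.g (nat_lit 1) (.e (nat_lit 195138) (nat_lit 0) .nil) .nil)))) (.nd (nat_lit 9) 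
(.lf (nat_lit 510461) (.g (nat_lit 2060) (.e (nat_lit 172118) (nat_lit 12) (.e (nat_lit 475185) (nat_lit 29) (.e (nat_lit 557100) (nat_lit 13) (.e (nat_lit 172037) (nat_lit 0) .nil)))) (.g (nat_lit 0) (.e (nat_lit 194797) (nat_lit 0) .nil) .nil))) 
(.lf (nat_lit 510973) (.g (nat_lit 3676) (.e (nat_lit 172124) (nat_lit 14) (.e (nat_lit 491540) (nat_lit 3) (.e (nat_lit 98373) (nat_lit 29) (.e (nat_lit 450563) (nat_lit 0) (.e (nat_lit 3966) (nat_lit 239) .nil))))) (.g (nat_lit 0) (.e (nat_lit 196034) (nat_lit 0) .nil) .nil))))))))))) 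
(.nd (nat_lit 2) (.nd (nat_lit 3) (.nd (nat_lit 4) (.nd (nat_lit 5) (.nd (nat_lit 6) 
(.nd (nat_lit 7) (.nd (nat_lit 8) (.nd (nat_lit 9) 
(.lf (nat_lit 509955) (.g (nat_lit 2345) (.e (nat_lit 172113) (nat_lit 10) (.e (nat_lit 434248) (nat_lit 28) (.e (nat_lit 573471) (nat_lit 11) (.e (nat_lit 16446) (nat_lit 9) (.e (nat_lit 426413) (nat_lit 15) .nil))))) (.g (nat_lit 0) (.e (nat_lit 193572) (nat_lit 0) .nil) .nil))) 
(.lf (nat_lit 510467) (.g (nat_lit 2236) (.e (nat_lit 172118) (nat_lit 12) (.e (nat_lit 475185) (nat_lit 29) (.e (nat_lit 557103) (nat_lit 14) (.e (nat_lit 180282) (nat_lit 45) .nil)))) (.g (nat_lit 0) (.e (nat_lit 194806) (nat_lit 0) .nil) .nil)))) (.nd (nat_lit 9) 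
(.lf (nat_lit 510211) (.g (nat_lit 1599) (.e (nat_lit 172115) (nat_lit 10) (.e (nat_lit 434244) (nat_lit 28) (.e (nat_lit 573449) (nat_lit 9) (.e (nat_lit 414) (nat_lit 32) .nil)))) (.g (nat_lit 0) (.e (nat_lit 194221) (nat_lit 0) .nil) .nil))) 
(.lf (nat_lit 510723) (.g (nat_lit 2776) (.e (nat_lit 172120) (nat_lit 12) (.e (nat_lit 475199) (nat_lit 40) (.e (nat_lit 704598) (nat_lit 6) (.e (nat_lit 188453) (nat_lit 24) (.e (nat_lit 229666) (nat_lit 240) (.e (nat_lit 2621) (nat_lit 164) .nil)))))) (.g (nat_lit 1) (.e (nat_lit 195149) (nat_lit 0) .nil) .nil))))) (.nd (nat_lit 8) (.nd (nat_lit 9) 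
(.lf (nat_lit 510083) (.g (nat_lit 2566) (.e (nat_lit 172115) (nat_lit 10) (.e (nat_lit 434231) (nat_lit 23) (.e (nat_lit 532523) (nat_lit 7) (.e (nat_lit 319529) (nat_lit 16) .nil)))) (.g (nat_lit 0) (.e (nat_lit 193980) (nat_lit 0) .nil) .nil))) 
(.lf (nat_lit 510595) (.g (nat_lit 1315) (.e (nat_lit 172119) (nat_lit 12) (.e (nat_lit 475211) (nat_lit 41) (.e (nat_lit 712750) (nat_lit 29) (.e (nat_lit 442382) (nat_lit 8) .nil)))) (.g (nat_lit 0) (.e (nat_lit 194984) (nat_lit 0) .nil) .nil)))) (.nd (nat_lit 9) 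
(.lf (nat_lit 510339) (.g (nat_lit 2312) (.e (nat_lit 172115) (nat_lit 10) (.e (nat_lit 434244) (nat_lit 28) (.e (nat_lit 573471) (nat_lit 11) (.e (nat_lit 16444) (nat_lit 9) (.e (nat_lit 426387) (nat_lit 15) .nil))))) (.g (nat_lit 0) (.e (nat_lit 194417) (nat_lit 0) .nil) .nil))) 
(.lf (nat_lit 510851) (.g (nat_lit 2995) (.e (nat_lit 172122) (nat_lit 13) (.e (nat_lit 483341) (nat_lit 9) (.e (nat_lit 426107) (nat_lit 1) (.e (nat_lit 164403) (nat_lit 256) (.e (nat_lit 57370) (nat_lit 2) .nil))))) (.g (nat_lit 0) (.e (nat_lit 195510) (nat_lit 0) .nil) .nil)))))) (.nd (nat_lit 7) (.nd (nat_lit 8) (.nd (nat_lit 9) 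
(.lf (nat_lit 510019) (.g (nat_lit 1986) (.e (nat_lit 172115) (nat_lit 10) (.e (nat_lit 434202) (nat_lit 18) (.e (nat_lit 6416) (nat_lit 341) (.e (nat_lit 163903) (nat_lit 12) (.e (nat_lit 426294) (nat_lit 11) .nil))))) (.g (nat_lit 0) (.e (nat_lit 193735) (nat_lit 0) .nil) .nil))) 
(.lf (nat_lit 510531) (.g (nat_lit 2393) (.e (nat_lit 172118) (nat_lit 12) (.e (nat_lit 475211) (nat_lit 41) (.e (nat_lit 712750) (nat_lit 29) (.e (nat_lit 442421) (nat_lit 21) (.e (nat_lit 164348) (nat_lit 240) (.e (nat_lit 2628) (nat_lit 164) .nil)))))) (.g (nat_lit 1) (.e (nat_lit 194898) (nat_lit 0) .nil) .nil)))) (.nd (nat_lit 9) 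
(.lf (nat_lit 510275) (.g (nat_lit 3468) (.e (nat_lit 172115) (nat_lit 10) (.e (nat_lit 434244) (nat_lit 28) (.e (nat_lit 573458) (nat_lit 9) (.e (nat_lit 426) (nat_lit 32) (.e (nat_lit 426200) (nat_lit 9) (.e (nat_lit 426402) (nat_lit 15) (.e (nat_lit 1848) (nat_lit 124) (.e (nat_lit 557097) (nat_lit 13) .nil)))))))) (.g (nat_lit 1) (.e (nat_lit 194300) (nat_lit 0) .nil) .nil))) 
(.lf (nat_lit 510787) (.g (nat_lit 2678) (.e (nat_lit 172120) (nat_lit 12) (.e (nat_lit 475211) (nat_lit 41) (.e (nat_lit 712753) (nat_lit 30) (.e (nat_lit 450565) (nat_lit 0) (.e (nat_lit 5548) (nat_lit 306) (.e (nat_lit 2629) (nat_lit 164) .nil)))))) (.g (nat_lit 1) (.e (nat_lit 195278) (nat_lit 0) .nil) .nil))))) (.nd (nat_lit 8) (.nd (nat_lit 9) 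
(.lf (nat_lit 510147) (.g (nat_lit 3701) (.e (nat_lit 172115) (nat_lit 10) (.e (nat_lit 434231) (nat_lit 23) (.e (nat_lit 532567) (nat_lit 16) (.e (nat_lit 401454) (nat_lit 12) (.e (nat_lit 475184) (nat_lit 29) (.e (nat_lit 557098) (nat_lit 13) .nil)))))) (.g (nat_lit 1) (.e (nat_lit 194065) (nat_lit 0) .nil) .nil))) 
(.lf (nat_lit 510659) (.g (nat_lit 1529) (.e (nat_lit 172120) (nat_lit 12) (.e (nat_lit 475185) (nat_lit 29) (.e (nat_lit 557101) (nat_lit 13) (.e (nat_lit 172037) (nat_lit 0) .nil)))) (.g (nat_lit 0) (.e (nat_lit 195054) (nat_lit 0) .nil) .nil)))) (.nd (nat_lit 9) 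
(.lf (nat_lit 510403) (.g (nat_lit 1237) (.e (nat_lit 172116) (nat_lit 10) (.e (nat_lit 434209) (nat_lit 18) (.e (nat_lit 5547) (nat_lit 306) (.e (nat_lit 2650) (nat_lit 166) .nil)))) (.g (nat_lit 0) (.e (nat_lit 194676) (nat_lit 0) .nil) .nil))) 
(.lf (nat_lit 510915) (.g (nat_lit 3206) (.e (nat_lit 172123) (nat_lit 13) (.e (nat_lit 483403) (nat_lit 26) (.e (nat_lit 385109) (nat_lit 51) (.e (nat_lit 794640) (nat_lit 20) .nil)))) (.g (nat_lit 0) (.e (nat_lit 195857) (nat_lit 0) .nil) .nil))))))) (.nd (nat_lit 6) (.nd (nat_lit 7) (.nd (nat_lit 8) (.nd (nat_lit 9) 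
(.lf (nat_lit 509987) (.g (nat_lit 4318) (.e (nat_lit 172113) (nat_lit 10) (.e (nat_lit 434271) (nat_lit 38) (.e (nat_lit 655380) (nat_lit 6) (.e (nat_lit 188453) (nat_lit 24) (.e (nat_lit 229663) (nat_lit 240) (.e (nat_lit 2630) (nat_lit 164) .nil)))))) (.g (nat_lit 1) (.e (nat_lit 193654) (nat_lit 0) .nil) .nil))) 
(.lf (nat_lit 510499) (.g (nat_lit 391) (.e (nat_lit 172118) (nat_lit 12) (.e (nat_lit 475210) (nat_lit 41) (.e (nat_lit 712752) (nat_lit 29) .nil))) (.g (nat_lit 0) (.e (nat_lit 194859) (nat_lit 0) .nil) .nil)))) (.nd (nat_lit 9) 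
(.lf (nat_lit 510243) (.g (nat_lit 2717) (.e (nat_lit 172115) (nat_lit 10) (.e (nat_lit 434244) (nat_lit 28) (.e (nat_lit 573450) (nat_lit 9) (.e (nat_lit 459) (nat_lit 34) (.e (nat_lit 442377) (nat_lit 0) (.e (nat_lit 1855) (nat_lit 124) (.e (nat_lit 557101) (nat_lit 13) .nil))))))) (.g (nat_lit 1) (.e (nat_lit 194263) (nat_lit 0) .nil) .nil))) 
(.lf (nat_lit 510755) (.g (nat_lit 1461) (.e (nat_lit 172120) (nat_lit 12) (.e (nat_lit 475210) (nat_lit 41) (.e (nat_lit 712755) (nat_lit 30) (.e (nat_lit 450565) (nat_lit 0) .nil)))) (.g (nat_lit 0) (.e (nat_lit 195234) (nat_lit 0) .nil) .nil))))) (.nd (nat_lit 8) (.nd (nat_lit 9) 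
(.lf (nat_lit 510115) (.g (nat_lit 4033) (.e (nat_lit 172115) (nat_lit 10) (.e (nat_lit 434231) (nat_lit 23) (.e (nat_lit 532535) (nat_lit 9) (.e (nat_lit 336290) (nat_lit 15) (.e (nat_lit 3711) (nat_lit 227) (.e (nat_lit 778316) (nat_lit 3) (.e (nat_lit 57480) (nat_lit 28) (.e (nat_lit 557098) (nat_lit 13) .nil)))))))) (.g (nat_lit 1) (.e (nat_lit 194017) (nat_lit 0) .nil) .nil))) 
(.lf (nat_lit 510627) (.g (nat_lit 1316) (.e (nat_lit 172119) (nat_lit 12) (.e (nat_lit 475211) (nat_lit 41) (.e (nat_lit 712755) (nat_lit 30) (.e (nat_lit 450593) (nat_lit 16) .nil)))) (.g (nat_lit 0) (.e (nat_lit 195021) (nat_lit 0) .nil) .nil)))) (.nd (nat_lit 9) 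
(.lf (nat_lit 510371) (.g (nat_lit 2269) (.e (nat_lit 172115) (nat_lit 10) (.e (nat_lit 434244) (nat_lit 28) (.e (nat_lit 573503) (nat_lit 18) (.e (nat_lit 1358) (nat_lit 102) (.e (nat_lit 286754) (nat_lit 10) .nil))))) (.g (nat_lit 0) (.e (nat_lit 194473) (nat_lit 0) .nil) .nil))) 
(.lf (nat_lit 510883) (.g (nat_lit 2174) (.e (nat_lit 172123) (nat_lit 13) (.e (nat_lit 483337) (nat_lit 9) (.e (nat_lit 426107) (nat_lit 1) (.e (nat_lit 164403) (nat_lit 256) (.e (nat_lit 57370) (nat_lit 2) (.e (nat_lit 90168) (nat_lit 13) .nil)))))) (.g (nat_lit 1) (.e (nat_lit 195732) (nat_lit 0) .nil) .nil)))))) (.nd (nat_lit 7) (.nd (nat_lit 8) (.nd (nat_lit 9) 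
(.lf (nat_lit 510051) (.g (nat_lit 671) (.e (nat_lit 172115) (nat_lit 10) (.e (nat_lit 434231) (nat_lit 23) (.e (nat_lit 532480) (nat_lit 0) .nil))) (.g (nat_lit 0) (.e (nat_lit 193922) (nat_lit 0) .nil) .nil))) 
(.lf (nat_lit 510563) (.g (nat_lit 2951) (.e (nat_lit 172119) (nat_lit 12) (.e (nat_lit 475184) (nat_lit 29) (.e (nat_lit 557109) (nat_lit 15) (.e (nat_lit 188441) (nat_lit 20) (.e (nat_lit 3272) (nat_lit 199) .nil))))) (.g (nat_lit 0) (.e (nat_lit 194936) (nat_lit 0) .nil) .nil)))) (.nd (nat_lit 9) 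
(.lf (nat_lit 510307) (.g (nat_lit 2691) (.e (nat_lit 172115) (nat_lit 10) (.e (nat_lit 434244) (nat_lit 28) (.e (nat_lit 573471) (nat_lit 11) (.e (nat_lit 16402) (nat_lit 0) .nil)))) (.g (nat_lit 0) (.e (nat_lit 194341) (nat_lit 0) .nil) .nil))) 
(.lf (nat_lit 510819) (.g (nat_lit 1485) (.e (nat_lit 172121) (nat_lit 13) (.e (nat_lit 483363) (nat_lit 18) (.e (nat_lit 57688) (nat_lit 156) (.e (nat_lit 163904) (nat_lit 12) .nil)))) (.g (nat_lit 0) (.e (nat_lit 195338) (nat_lit 0) .nil) .nil))))) (.nd (nat_lit 8) (.nd (nat_lit 9) 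
(.lf (nat_lit 510179) (.g (nat_lit 2613) (.e (nat_lit 172115) (nat_lit 10) (.e (nat_lit 434231) (nat_lit 23) (.e (nat_lit 532569) (nat_lit 16) (.e (nat_lit 401452) (nat_lit 12) (.e (nat_lit 475183) (nat_lit 29) (.e (nat_lit 557098) (nat_lit 13) .nil)))))) (.g (nat_lit 1) (.e (nat_lit 194143) (nat_lit 0) .nil) .nil))) 
(.lf (nat_lit 510691) (.g (nat_lit 1964) (.e (nat_lit 172120) (nat_lit 12) (.e (nat_lit 475198) (nat_lit 40) (.e (nat_lit 704598) (nat_lit 6) (.e (nat_lit 188439) (nat_lit 20) (.e (nat_lit 3409) (nat_lit 212) (.e (nat_lit 655376) (nat_lit 4) .nil)))))) (.g (nat_lit 1) (.e (nat_lit 195104) (nat_lit 0) .nil) .nil)))) (.nd (nat_lit 9) 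
(.lf (nat_lit 510435) (.g (nat_lit 3038) (.e (nat_lit 172116) (nat_lit 10) (.e (nat_lit 434289) (nat_lit 43) (.e (nat_lit 696344) (nat_lit 8) (.e (nat_lit 172112) (nat_lit 10) (.e (nat_lit 434289) (nat_lit 43) (.e (nat_lit 696343) (nat_lit 8) .nil)))))) (.g (nat_lit 1) (.e (nat_lit 194770) (nat_lit 0) .nil) .nil))) 
(.lf (nat_lit 510947) (.g (nat_lit 1906) (.e (nat_lit 172124) (nat_lit 14) (.e (nat_lit 491537) (nat_lit 2) (.e (nat_lit 90170) (nat_lit 13) (.e (nat_lit 172037) (nat_lit 0) .nil)))) (.g (nat_lit 0) (.e (nat_lit 196007) (nat_lit 0) .nil) .nil)))))))) (.nd (nat_lit 5) (.nd (nat_lit 6) (.nd (nat_lit 7) (.nd (nat_lit 8) (.nd (nat_lit 9) 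
(.lf (nat_lit 509971) (.g (nat_lit 1349) (.e (nat_lit 172113) (nat_lit 10) (.e (nat_lit 434241) (nat_lit 27) (.e (nat_lit 565269) (nat_lit 6) (.e (nat_lit 81943) (nat_lit 20) (.e (nat_lit 2389) (nat_lit 156) .nil))))) (.g (nat_lit 0) (.e (nat_lit 193601) (nat_lit 0) .nil) .nil))) 
(.lf (nat_lit 510483) (.g (nat_lit 3176) (.e (nat_lit 172118) (nat_lit 12) (.e (nat_lit 475198) (nat_lit 40) (.e (nat_lit 704599) (nat_lit 6) (.e (nat_lit 188453) (nat_lit 24) (.e (nat_lit 229663) (nat_lit 240) (.e (nat_lit 2622) (nat_lit 164) .nil)))))) (.g (nat_lit 1) (.e (nat_lit 194824) (nat_lit 0) .nil) .nil)))) (.nd (nat_lit 9) 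
(.lf (nat_lit 510227) (.g (nat_lit 1884) (.e (nat_lit 172115) (nat_lit 10) (.e (nat_lit 434244) (nat_lit 28) (.e (nat_lit 573450) (nat_lit 9) (.e (nat_lit 386) (nat_lit 32) .nil)))) (.g (nat_lit 0) (.e (nat_lit 194241) (nat_lit 0) .nil) .nil))) 
(.lf (nat_lit 510739) (.g (nat_lit 2678) (.e (nat_lit 172120) (nat_lit 12) (.e (nat_lit 475210) (nat_lit 41) (.e (nat_lit 712752) (nat_lit 29) (.e (nat_lit 442421) (nat_lit 21) (.e (nat_lit 164348) (nat_lit 240) (.e (nat_lit 2617) (nat_lit 164) .nil)))))) (.g (nat_lit 1) (.e (nat_lit 195197) (nat_lit 0) .nil) .nil))))) (.nd (nat_lit 8) (.nd (nat_lit 9) 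
(.lf (nat_lit 510099) (.g (nat_lit 5837) (.e (nat_lit 172115) (nat_lit 10) (.e (nat_lit 434231) (nat_lit 23) (.e (nat_lit 532523) (nat_lit 7) (.e (nat_lit 319534) (nat_lit 16) (.e (nat_lit 286733) (nat_lit 2) (.e (nat_lit 90170) (nat_lit 13) .nil)))))) (.g (nat_lit 1) (.e (nat_lit 193996) (nat_lit 0) .nil) .nil))) 
(.lf (nat_lit 510611) (.g (nat_lit 365) (.e (nat_lit 172119) (nat_lit 12) (.e (nat_lit 475211) (nat_lit 41) (.e (nat_lit 712753) (nat_lit 30) .nil))) (.g (nat_lit 0) (.e (nat_lit 195000) (nat_lit 0) .nil) .nil)))) (.nd (nat_lit 9) 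
(.lf (nat_lit 510355) (.g (nat_lit 4132) (.e (nat_lit 172115) (nat_lit 10) (.e (nat_lit 434244) (nat_lit 28) (.e (nat_lit 573471) (nat_lit 11) (.e (nat_lit 16473) (nat_lit 14) (.e (nat_lit 491578) (nat_lit 15) .nil))))) (.g (nat_lit 0) (.e (nat_lit 194442) (nat_lit 0) .nil) .nil))) 
(.lf (nat_lit 510867) (.g (nat_lit 2453) (.e (nat_lit 172123) (nat_lit 13) (.e (nat_lit 483337) (nat_lit 9) (.e (nat_lit 426098) (nat_lit 1) (.e (nat_lit 164399) (nat_lit 256) (.e (nat_lit 57373) (nat_lit 2) (.e (nat_lit 90168) (nat_lit 13) .nil)))))) (.g (nat_lit 1) (.e (nat_lit 195715) (nat_lit 0) .nil) .nil)))))) (.nd (nat_lit 7) (.nd (nat_lit 8) (.nd (nat_lit 9) 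
(.lf (nat_lit 510035) (.g (nat_lit 2673) (.e (nat_lit 172115) (nat_lit 10) (.e (nat_lit 434209) (nat_lit 18) (.e (nat_lit 5548) (nat_lit 306) (.e (nat_lit 2650) (nat_lit 166) (.e (nat_lit 188435) (nat_lit 20) (.e (nat_lit 3409) (nat_lit 212) (.e (nat_lit 655378) (nat_lit 4) .nil))))))) (.g (nat_lit 1) (.e (nat_lit 193874) (nat_lit 0) .nil) .nil))) 
(.lf (nat_lit 510547) (.g (nat_lit 2801) (.e (nat_lit 172118) (nat_lit 12) (.e (nat_lit 475211) (nat_lit 41) (.e (nat_lit 712755) (nat_lit 30) (.e (nat_lit 450562) (nat_lit 0) (.e (nat_lit 5537) (nat_lit 306) (.e (nat_lit 2619) (nat_lit 164) .nil)))))) (.g (nat_lit 1) (.e (nat_lit 194916) (nat_lit 0) .nil) .nil)))) (.nd (nat_lit 9) 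
(.lf (nat_lit 510291) (.g (nat_lit 3048) (.e (nat_lit 172115) (nat_lit 10) (.e (nat_lit 434244) (nat_lit 28) (.e (nat_lit 573470) (nat_lit 11) (.e (nat_lit 16433) (nat_lit 9) (.e (nat_lit 426354) (nat_lit 15) .nil))))) (.g (nat_lit 0) (.e (nat_lit 194317) (nat_lit 0) .nil) .nil))) 
(.lf (nat_lit 510803) (.g (nat_lit 1490) (.e (nat_lit 172120) (nat_lit 12) (.e (nat_lit 475211) (nat_lit 41) (.e (nat_lit 712755) (nat_lit 30) (.e (nat_lit 450566) (nat_lit 0) .nil)))) (.g (nat_lit 0) (.e (nat_lit 195305) (nat_lit 0) .nil) .nil))))) (.nd (nat_lit 8) (.nd (nat_lit 9) 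
(.lf (nat_lit 510163) (.g (nat_lit 2209) (.e (nat_lit 172115) (nat_lit 10) (.e (nat_lit 434231) (nat_lit 23) (.e (nat_lit 532569) (nat_lit 16) (.e (nat_lit 401436) (nat_lit 9) (.e (nat_lit 426354) (nat_lit 15) .nil))))) (.g (nat_lit 0) (.e (nat_lit 194092) (nat_lit 0) .nil) .nil))) 
(.lf (nat_lit 510675) (.g (nat_lit 4116) (.e (nat_lit 172120) (nat_lit 12) (.e (nat_lit 475185) (nat_lit 29) (.e (nat_lit 557109) (nat_lit 15) (.e (nat_lit 188455) (nat_lit 24) (.e (nat_lit 229535) (nat_lit 134) (.e (nat_lit 2619) (nat_lit 164) .nil)))))) (.g (nat_lit 1) (.e (nat_lit 195070) (nat_lit 0) .nil) .nil)))) (.nd (nat_lit 9) 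
(.lf (nat_lit 510419) (.g (nat_lit 3469) (.e (nat_lit 172116) (nat_lit 10) (.e (nat_lit 434238) (nat_lit 25) (.e (nat_lit 548913) (nat_lit 18) (.e (nat_lit 172120) (nat_lit 12) (.e (nat_lit 475185) (nat_lit 29) (.e (nat_lit 557100) (nat_lit 13) .nil)))))) (.g (nat_lit 1) (.e (nat_lit 194711) (nat_lit 0) .nil) .nil))) 
(.lf (nat_lit 510931) (.g (nat_lit 527) (.e (nat_lit 172123) (nat_lit 13) (.e (nat_lit 483411) (nat_lit 27) (.e (nat_lit 401440) (nat_lit 9) .nil))) (.g (nat_lit 0) (.e (nat_lit 195908) (nat_lit 0) .nil) .nil))))))) (.nd (nat_lit 6) (.nd (nat_lit 7) (.nd (nat_lit 8) (.nd (nat_lit 9) 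
(.lf (nat_lit 510003) (.g (nat_lit 2346) (.e (nat_lit 172114) (nat_lit 10) (.e (nat_lit 434231) (nat_lit 23) (.e (nat_lit 532522) (nat_lit 7) (.e (nat_lit 319530) (nat_lit 16) (.e (nat_lit 286733) (nat_lit 2) (.e (nat_lit 90168) (nat_lit 13) .nil)))))) (.g (nat_lit 1) (.e (nat_lit 193709) (nat_lit 0) .nil) .nil))) 
(.lf (nat_lit 510515) (.g (nat_lit 422) (.e (nat_lit 172118) (nat_lit 12) (.e (nat_lit 475210) (nat_lit 41) (.e (nat_lit 712755) (nat_lit 30) .nil))) (.g (nat_lit 0) (.e (nat_lit 194878) (nat_lit 0) .nil) .nil)))) (.nd (nat_lit 9) 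
(.lf (nat_lit 510259) (.g (nat_lit 2404) (.e (nat_lit 172115) (nat_lit 10) (.e (nat_lit 434244) (nat_lit 28) (.e (nat_lit 573454) (nat_lit 9) (.e (nat_lit 397) (nat_lit 32) .nil)))) (.g (nat_lit 0) (.e (nat_lit 194283) (nat_lit 0) .nil) .nil))) 
(.lf (nat_lit 510771) (.g (nat_lit 2776) (.e (nat_lit 172120) (nat_lit 12) (.e (nat_lit 475211) (nat_lit 41) (.e (nat_lit 712752) (nat_lit 29) (.e (nat_lit 442421) (nat_lit 21) (.e (nat_lit 164345) (nat_lit 240) (.e (nat_lit 2629) (nat_lit 164) .nil)))))) (.g (nat_lit 1) (.e (nat_lit 195259) (nat_lit 0) .nil) .nil))))) (.nd (nat_lit 8) (.nd (nat_lit 9) 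
(.lf (nat_lit 510131) (.g (nat_lit 3893) (.e (nat_lit 172115) (nat_lit 10) (.e (nat_lit 434231) (nat_lit 23) (.e (nat_lit 532563) (nat_lit 15) (.e (nat_lit 385106) (nat_lit 50) .nil)))) (.g (nat_lit 0) (.e (nat_lit 194038) (nat_lit 0) .nil) .nil))) 
(.lf (nat_lit 510643) (.g (nat_lit 1306) (.e (nat_lit 172120) (nat_lit 12) (.e (nat_lit 475185) (nat_lit 29) (.e (nat_lit 557098) (nat_lit 13) (.e (nat_lit 172120) (nat_lit 12) .nil)))) (.g (nat_lit 0) (.e (nat_lit 195038) (nat_lit 0) .nil) .nil)))) (.nd (nat_lit 9) 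
(.lf (nat_lit 510387) (.g (nat_lit 2402) (.e (nat_lit 172115) (nat_lit 10) (.e (nat_lit 434271) (nat_lit 38) (.e (nat_lit 655378) (nat_lit 4) (.e (nat_lit 172097) (nat_lit 9) (.e (nat_lit 426025) (nat_lit 0) (.e (nat_lit 3397) (nat_lit 211) (.e (nat_lit 647183) (nat_lit 4) .nil))))))) (.g (nat_lit 1) (.e (nat_lit 194560) (nat_lit 0) .nil) .nil))) 
(.lf (nat_lit 510899) (.g (nat_lit 2251) (.e (nat_lit 172123) (nat_lit 13) (.e (nat_lit 483345) (nat_lit 17) (.e (nat_lit 6724) (nat_lit 362) (.e (nat_lit 180269) (nat_lit 25) (.e (nat_lit 696343) (nat_lit 8) .nil))))) (.g (nat_lit 1) (.e (nat_lit 195760) (nat_lit 0) .nil) .nil)))))) (.nd (nat_lit 7) (.nd (nat_lit 8) (.nd (nat_lit 9) 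
(.lf (nat_lit 510067) (.g (nat_lit 2424) (.e (nat_lit 172115) (nat_lit 10) (.e (nat_lit 434231) (nat_lit 23) (.e (nat_lit 532522) (nat_lit 7) (.e (nat_lit 319531) (nat_lit 16) (.e (nat_lit 286733) (nat_lit 2) (.e (nat_lit 90166) (nat_lit 13) .nil)))))) (.g (nat_lit 1) (.e (nat_lit 193957) (nat_lit 0) .nil) .nil))) 
(.lf (nat_lit 510579) (.g (nat_lit 2793) (.e (nat_lit 172119) (nat_lit 12) (.e (nat_lit 475199) (nat_lit 40) (.e (nat_lit 704598) (nat_lit 6) (.e (nat_lit 188444) (nat_lit 21) (.e (nat_lit 164347) (nat_lit 240) (.e (nat_lit 2619) (nat_lit 164) .nil)))))) (.g (nat_lit 1) (.e (nat_lit 194954) (nat_lit 0) .nil) .nil)))) (.nd (nat_lit 9) 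
(.lf (nat_lit 510323) (.g (nat_lit 1561) (.e (nat_lit 172115) (nat_lit 10) (.e (nat_lit 434244) (nat_lit 28) (.e (nat_lit 573471) (nat_lit 11) (.e (nat_lit 16435) (nat_lit 9) .nil)))) (.g (nat_lit 0) (.e (nat_lit 194401) (nat_lit 0) .nil) .nil))) 
(.lf (nat_lit 510835) (.g (nat_lit 1882) (.e (nat_lit 172122) (nat_lit 13) (.e (nat_lit 483337) (nat_lit 9) (.e (nat_lit 426099) (nat_lit 1) (.e (nat_lit 164399) (nat_lit 256) (.e (nat_lit 57373) (nat_lit 2) .nil))))) (.g (nat_lit 0) (.e (nat_lit 195494) (nat_lit 0) .nil) .nil))))) (.nd (nat_lit 8) (.nd (nat_lit 9) 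
(.lf (nat_lit 510195) (.g (nat_lit 4280) (.e (nat_lit 172115) (nat_lit 10) (.e (nat_lit 434238) (nat_lit 25) (.e (nat_lit 548898) (nat_lit 14) (.e (nat_lit 3004) (nat_lit 186) (.e (nat_lit 442374) (nat_lit 0) (.e (nat_lit 1856) (nat_lit 124) (.e (nat_lit 557101) (nat_lit 13) .nil))))))) (.g (nat_lit 1) (.e (nat_lit 194201) (nat_lit 0) .nil) .nil))) 
(.lf (nat_lit 510707) (.g (nat_lit 2496) (.e (nat_lit 172120) (nat_lit 12) (.e (nat_lit 475198) (nat_lit 40) (.e (nat_lit 704599) (nat_lit 6) (.e (nat_lit 188446) (nat_lit 21) (.e (nat_lit 164347) (nat_lit 240) (.e (nat_lit 2628) (nat_lit 164) .nil)))))) (.g (nat_lit 1) (.e (nat_lit 195122) (nat_lit 0) .nil) .nil)))) (.nd (nat_lit 9) 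
(.lf (nat_lit 510451) (.g (nat_lit 1728) (.e (nat_lit 172118) (nat_lit 12) (.e (nat_lit 475183) (nat_lit 29) (.e (nat_lit 557108) (nat_lit 15) (.e (nat_lit 188434) (nat_lit 20) .nil)))) (.g (nat_lit 0) (.e (nat_lit 194787) (nat_lit 0) .nil) .nil))) 
(.lf (nat_lit 510963) (.g (nat_lit 2566) (.e (nat_lit 172124) (nat_lit 14) (.e (nat_lit 491540) (nat_lit 3) (.e (nat_lit 98373) (nat_lit 29) (.e (nat_lit 450560) (nat_lit 0) (.e (nat_lit 3914) (nat_lit 239) .nil))))) (.g (nat_lit 0) (.e (nat_lit 196024) (nat_lit 0) .nil) .nil))))))))) (.nd (nat_lit 4) (.nd (nat_lit 5) (.nd (nat_lit 6) (.nd (nat_lit 7) (.nd (nat_lit 8) (.nd (nat_lit 9) 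
(.lf (nat_lit 509963) (.g (nat_lit 3527) (.e (nat_lit 172113) (nat_lit 10) (.e (nat_lit 434248) (nat_lit 28) (.e (nat_lit 573475) (nat_lit 12) (.e (nat_lit 57573) (nat_lit 55) (.e (nat_lit 778469) (nat_lit 11) (.e (nat_lit 24605) (nat_lit 2) (.e (nat_lit 90170) (nat_lit 13) .nil))))))) (.g (nat_lit 1) (.e (nat_lit 193582) (nat_lit 0) .nil) .nil))) 
(.lf (nat_lit 510475) (.g (nat_lit 393) (.e (nat_lit 172118) (nat_lit 12) (.e (nat_lit 475198) (nat_lit 40) (.e (nat_lit 704598) (nat_lit 6) .nil))) (.g (nat_lit 0) (.e (nat_lit 194816) (nat_lit 0) .nil) .nil)))) (.nd (nat_lit 9) 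
(.lf (nat_lit 510219) (.g (nat_lit 293) (.e (nat_lit 172115) (nat_lit 10) (.e (nat_lit 434244) (nat_lit 28) (.e (nat_lit 573450) (nat_lit 9) .nil))) (.g (nat_lit 0) (.e (nat_lit 194232) (nat_lit 0) .nil) .nil))) 
(.lf (nat_lit 510731) (.g (nat_lit 407) (.e (nat_lit 172120) (nat_lit 12) (.e (nat_lit 475210) (nat_lit 41) (.e (nat_lit 712750) (nat_lit 29) .nil))) (.g (nat_lit 0) (.e (nat_lit 195180) (nat_lit 0) .nil) .nil))))) (.nd (nat_lit 8) (.nd (nat_lit 9) 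
(.lf (nat_lit 510091) (.g (nat_lit 3518) (.e (nat_lit 172115) (nat_lit 10) (.e (nat_lit 434231) (nat_lit 23) (.e (nat_lit 532523) (nat_lit 7) (.e (nat_lit 319531) (nat_lit 16) (.e (nat_lit 286733) (nat_lit 2) (.e (nat_lit 90169) (nat_lit 13) .nil)))))) (.g (nat_lit 1) (.e (nat_lit 193988) (nat_lit 0) .nil) .nil))) 
(.lf (nat_lit 510603) (.g (nat_lit 1787) (.e (nat_lit 172119) (nat_lit 12) (.e (nat_lit 475211) (nat_lit 41) (.e (nat_lit 712752) (nat_lit 29) (.e (nat_lit 442420) (nat_lit 21) .nil)))) (.g (nat_lit 0) (.e (nat_lit 194992) (nat_lit 0) .nil) .nil)))) (.nd (nat_lit 9) 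
(.lf (nat_lit 510347) (.g (nat_lit 1602) (.e (nat_lit 172115) (nat_lit 10) (.e (nat_lit 434244) (nat_lit 28) (.e (nat_lit 573471) (nat_lit 11) (.e (nat_lit 16457) (nat_lit 12) .nil)))) (.g (nat_lit 0) (.e (nat_lit 194431) (nat_lit 0) .nil) .nil))) 
(.lf (nat_lit 510859) (.g (nat_lit 2409) (.e (nat_lit 172122) (nat_lit 13) (.e (nat_lit 483363) (nat_lit 18) (.e (nat_lit 57691) (nat_lit 156) (.e (nat_lit 163905) (nat_lit 12) (.e (nat_lit 426428) (nat_lit 17) .nil))))) (.g (nat_lit 0) (.e (nat_lit 195542) (nat_lit 0) .nil) .nil)))))) (.nd (nat_lit 7) (.nd (nat_lit 8) (.nd (nat_lit 9) 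
(.lf (nat_lit 510027) (.g (nat_lit 1762) (.e (nat_lit 172115) (nat_lit 10) (.e (nat_lit 434209) (nat_lit 18) (.e (nat_lit 5546) (nat_lit 306) (.e (nat_lit 2649) (nat_lit 166) (.e (nat_lit 188428) (nat_lit 20) .nil))))) (.g (nat_lit 0) (.e (nat_lit 193774) (nat_lit 0) .nil) .nil))) 
(.lf (nat_lit 510539) (.g (nat_lit 4157) (.e (nat_lit 172118) (nat_lit 12) (.e (nat_lit 475211) (nat_lit 41) (.e (nat_lit 712752) (nat_lit 29) (.e (nat_lit 442430) (nat_lit 24) (.e (nat_lit 229663) (nat_lit 240) (.e (nat_lit 2630) (nat_lit 164) .nil)))))) (.g (nat_lit 1) (.e (nat_lit 194908) (nat_lit 0) .nil) .nil)))) (.nd (nat_lit 9) 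
(.lf (nat_lit 510283) (.g (nat_lit 520) (.e (nat_lit 172115) (nat_lit 10) (.e (nat_lit 434244) (nat_lit 28) (.e (nat_lit 573469) (nat_lit 11) .nil))) (.g (nat_lit 0) (.e (nat_lit 194309) (nat_lit 0) .nil) .nil))) 
(.lf (nat_lit 510795) (.g (nat_lit 3135) (.e (nat_lit 172120) (nat_lit 12) (.e (nat_lit 475211) (nat_lit 41) (.e (nat_lit 712755) (nat_lit 30) (.e (nat_lit 450562) (nat_lit 0) (.e (nat_lit 5537) (nat_lit 306) (.e (nat_lit 2625) (nat_lit 164) .nil)))))) (.g (nat_lit 1) (.e (nat_lit 195291) (nat_lit 0) .nil) .nil))))) (.nd (nat_lit 8) (.nd (nat_lit 9) 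
(.lf (nat_lit 510155) (.g (nat_lit 4147) (.e (nat_lit 172115) (nat_lit 10) (.e (nat_lit 434231) (nat_lit 23) (.e (nat_lit 532568) (nat_lit 16) (.e (nat_lit 401453) (nat_lit 12) (.e (nat_lit 475185) (nat_lit 29) (.e (nat_lit 557101) (nat_lit 13) .nil)))))) (.g (nat_lit 1) (.e (nat_lit 194076) (nat_lit 0) .nil) .nil))) 
(.lf (nat_lit 510667) (.g (nat_lit 1738) (.e (nat_lit 172120) (nat_lit 12) (.e (nat_lit 475185) (nat_lit 29) (.e (nat_lit 557107) (nat_lit 15) (.e (nat_lit 188453) (nat_lit 24) .nil)))) (.g (nat_lit 0) (.e (nat_lit 195062) (nat_lit 0) .nil) .nil)))) (.nd (nat_lit 9) 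
(.lf (nat_lit 510411) (.g (nat_lit 606) (.e (nat_lit 172116) (nat_lit 10) (.e (nat_lit 434209) (nat_lit 18) (.e (nat_lit 6425) (nat_lit 342) .nil))) (.g (nat_lit 0) (.e (nat_lit 194689) (nat_lit 0) .nil) .nil))) 
(.lf (nat_lit 510923) (.g (nat_lit 1106) (.e (nat_lit 172123) (nat_lit 13) (.e (nat_lit 483408) (nat_lit 26) (.e (nat_lit 385101) (nat_lit 49) (.e (nat_lit 778474) (nat_lit 12) .nil)))) (.g (nat_lit 0) (.e (nat_lit 195875) (nat_lit 0) .nil) .nil))))))) (.nd (nat_lit 6) (.nd (nat_lit 7) (.nd (nat_lit 8) (.nd (nat_lit 9) 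
(.lf (nat_lit 509995) (.g (nat_lit 2473) (.e (nat_lit 172113) (nat_lit 10) (.e (nat_lit 434287) (nat_lit 43) (.e (nat_lit 696344) (nat_lit 8) (.e (nat_lit 172113) (nat_lit 10) (.e (nat_lit 434289) (nat_lit 43) (.e (nat_lit 696343) (nat_lit 8) .nil)))))) (.g (nat_lit 1) (.e (nat_lit 193687) (nat_lit 0) .nil) .nil))) 
(.lf (nat_lit 510507) (.g (nat_lit 3767) (.e (nat_lit 172118) (nat_lit 12) (.e (nat_lit 475210) (nat_lit 41) (.e (nat_lit 712752) (nat_lit 29) (.e (nat_lit 442421) (nat_lit 21) (.e (nat_lit 164347) (nat_lit 240) (.e (nat_lit 2628) (nat_lit 164) .nil)))))) (.g (nat_lit 1) (.e (nat_lit 194867) (nat_lit 0) .nil) .nil)))) (.nd (nat_lit 9) 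
(.lf (nat_lit 510251) (.g (nat_lit 2848) (.e (nat_lit 172115) (nat_lit 10) (.e (nat_lit 434244) (nat_lit 28) (.e (nat_lit 573451) (nat_lit 9) (.e (nat_lit 437) (nat_lit 32) .nil)))) (.g (nat_lit 0) (.e (nat_lit 194274) (nat_lit 0) .nil) .nil))) 
(.lf (nat_lit 510763) (.g (nat_lit 2468) (.e (nat_lit 172120) (nat_lit 12) (.e (nat_lit 475211) (nat_lit 41) (.e (nat_lit 712750) (nat_lit 29) (.e (nat_lit 442421) (nat_lit 21) (.e (nat_lit 164345) (nat_lit 240) (.e (nat_lit 2618) (nat_lit 164) .nil)))))) (.g (nat_lit 1) (.e (nat_lit 195246) (nat_lit 0) .nil) .nil))))) (.nd (nat_lit 8) (.nd (nat_lit 9) 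
(.lf (nat_lit 510123) (.g (nat_lit 2040) (.e (nat_lit 172115) (nat_lit 10) (.e (nat_lit 434231) (nat_lit 23) (.e (nat_lit 532562) (nat_lit 15) (.e (nat_lit 385106) (nat_lit 50) (.e (nat_lit 786450) (nat_lit 15) .nil))))) (.g (nat_lit 0) (.e (nat_lit 194030) (nat_lit 0) .nil) .nil))) 
(.lf (nat_lit 510635) (.g (nat_lit 842) (.e (nat_lit 172120) (nat_lit 12) (.e (nat_lit 475185) (nat_lit 29) (.e (nat_lit 557073) (nat_lit 9) .nil))) (.g (nat_lit 0) (.e (nat_lit 195030) (nat_lit 0) .nil) .nil)))) (.nd (nat_lit 9) 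
(.lf (nat_lit 510379) (.g (nat_lit 378) (.e (nat_lit 172115) (nat_lit 10) (.e (nat_lit 434275) (nat_lit 39) (.e (nat_lit 663580) (nat_lit 9) .nil))) (.g (nat_lit 0) (.e (nat_lit 194513) (nat_lit 0) .nil) .nil))) 
(.lf (nat_lit 510891) (.g (nat_lit 3503) (.e (nat_lit 172123) (nat_lit 13) (.e (nat_lit 483337) (nat_lit 9) (.e (nat_lit 426108) (nat_lit 1) (.e (nat_lit 164403) (nat_lit 256) (.e (nat_lit 57371) (nat_lit 2) (.e (nat_lit 90167) (nat_lit 13) .nil)))))) (.g (nat_lit 1) (.e (nat_lit 195740) (nat_lit 0) .nil) .nil)))))) (.nd (nat_lit 7) (.nd (nat_lit 8) (.nd (nat_lit 9) 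
(.lf (nat_lit 510059) (.g (nat_lit 2119) (.e (nat_lit 172115) (nat_lit 10) (.e (nat_lit 434231) (nat_lit 23) (.e (nat_lit 532490) (nat_lit 0) (.e (nat_lit 6114) (nat_lit 332) (.e (nat_lit 1379) (nat_lit 104) .nil))))) (.g (nat_lit 0) (.e (nat_lit 193940) (nat_lit 0) .nil) .nil))) 
(.lf (nat_lit 510571) (.g (nat_lit 503) (.e (nat_lit 172119) (nat_lit 12) (.e (nat_lit 475198) (nat_lit 40) (.e (nat_lit 704598) (nat_lit 6) .nil))) (.g (nat_lit 0) (.e (nat_lit 194945) (nat_lit 0) .nil) .nil)))) (.nd (nat_lit 9) 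
(.lf (nat_lit 510315) (.g (nat_lit 1659) (.e (nat_lit 172115) (nat_lit 10) (.e (nat_lit 434244) (nat_lit 28) (.e (nat_lit 573471) (nat_lit 11) (.e (nat_lit 16433) (nat_lit 9) .nil)))) (.g (nat_lit 0) (.e (nat_lit 194392) (nat_lit 0) .nil) .nil))) 
(.lf (nat_lit 510827) (.g (nat_lit 2704) (.e (nat_lit 172121) (nat_lit 13) (.e (nat_lit 483365) (nat_lit 18) (.e (nat_lit 57691) (nat_lit 156) (.e (nat_lit 163907) (nat_lit 12) (.e (nat_lit 426428) (nat_lit 17) (.e (nat_lit 90170) (nat_lit 13) .nil)))))) (.g (nat_lit 1) (.e (nat_lit 195346) (nat_lit 0) .nil) .nil))))) (.nd (nat_lit 8) (.nd (nat_lit 9) 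
(.lf (nat_lit 510187) (.g (nat_lit 3413) (.e (nat_lit 172115) (nat_lit 10) (.e (nat_lit 434231) (nat_lit 23) (.e (nat_lit 532569) (nat_lit 16) (.e (nat_lit 401453) (nat_lit 12) (.e (nat_lit 475185) (nat_lit 29) (.e (nat_lit 557098) (nat_lit 13) .nil)))))) (.g (nat_lit 1) (.e (nat_lit 194154) (nat_lit 0) .nil) .nil))) 
(.lf (nat_lit 510699) (.g (nat_lit 3089) (.e (nat_lit 172120) (nat_lit 12) (.e (nat_lit 475198) (nat_lit 40) (.e (nat_lit 704598) (nat_lit 6) (.e (nat_lit 188453) (nat_lit 24) (.e (nat_lit 229666) (nat_lit 240) (.e (nat_lit 2630) (nat_lit 164) .nil)))))) (.g (nat_lit 1) (.e (nat_lit 195113) (nat_lit 0) .nil) .nil)))) (.nd (nat_lit 9) 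
(.lf (nat_lit 510443) (.g (nat_lit 1882) (.e (nat_lit 172116) (nat_lit 10) (.e (nat_lit 434289) (nat_lit 43) (.e (nat_lit 696346) (nat_lit 10) (.e (nat_lit 188441) (nat_lit 20) (.e (nat_lit 3468) (nat_lit 217) .nil))))) (.g (nat_lit 0) (.e (nat_lit 194778) (nat_lit 0) .nil) .nil))) 
(.lf (nat_lit 510955) (.g (nat_lit 2045) (.e (nat_lit 172124) (nat_lit 14) (.e (nat_lit 491537) (nat_lit 2) (.e (nat_lit 90185) (nat_lit 17) (.e (nat_lit 237598) (nat_lit 7) .nil)))) (.g (nat_lit 0) (.e (nat_lit 196015) (nat_lit 0) .nil) .nil)))))))) (.nd (nat_lit 5) (.nd (nat_lit 6) (.nd (nat_lit 7) (.nd (nat_lit 8) (.nd (nat_lit 9) 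
(.lf (nat_lit 509979) (.g (nat_lit 872) (.e (nat_lit 172113) (nat_lit 10) (.e (nat_lit 434276) (nat_lit 39) (.e (nat_lit 663580) (nat_lit 9) (.e (nat_lit 284) (nat_lit 21) .nil)))) (.g (nat_lit 0) (.e (nat_lit 193637) (nat_lit 0) .nil) .nil))) 
(.lf (nat_lit 510491) (.g (nat_lit 4149) (.e (nat_lit 172118) (nat_lit 12) (.e (nat_lit 475199) (nat_lit 40) (.e (nat_lit 704598) (nat_lit 6) (.e (nat_lit 188453) (nat_lit 24) (.e (nat_lit 229663) (nat_lit 240) (.e (nat_lit 2630) (nat_lit 164) .nil)))))) (.g (nat_lit 1) (.e (nat_lit 194832) (nat_lit 0) .nil) .nil)))) (.nd (nat_lit 9) 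
(.lf (nat_lit 510235) (.g (nat_lit 1403) (.e (nat_lit 172115) (nat_lit 10) (.e (nat_lit 434244) (nat_lit 28) (.e (nat_lit 573450) (nat_lit 9) (.e (nat_lit 416) (nat_lit 32) .nil)))) (.g (nat_lit 0) (.e (nat_lit 194249) (nat_lit 0) .nil) .nil))) 
(.lf (nat_lit 510747) (.g (nat_lit 2728) (.e (nat_lit 172120) (nat_lit 12) (.e (nat_lit 475210) (nat_lit 41) (.e (nat_lit 712753) (nat_lit 30) (.e (nat_lit 450565) (nat_lit 0) (.e (nat_lit 5548) (nat_lit 306) (.e (nat_lit 2629) (nat_lit 164) .nil)))))) (.g (nat_lit 1) (.e (nat_lit 195213) (nat_lit 0) .nil) .nil))))) (.nd (nat_lit 8) (.nd (nat_lit 9) 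
(.lf (nat_lit 510107) (.g (nat_lit 2557) (.e (nat_lit 172115) (nat_lit 10) (.e (nat_lit 434231) (nat_lit 23) (.e (nat_lit 532529) (nat_lit 9) (.e (nat_lit 336243) (nat_lit 15) .nil)))) (.g (nat_lit 0) (.e (nat_lit 194006) (nat_lit 0) .nil) .nil))) 
(.lf (nat_lit 510619) (.g (nat_lit 1987) (.e (nat_lit 172119) (nat_lit 12) (.e (nat_lit 475211) (nat_lit 41) (.e (nat_lit 712755) (nat_lit 30) (.e (nat_lit 450562) (nat_lit 0) (.e (nat_lit 5539) (nat_lit 306) .nil))))) (.g (nat_lit 0) (.e (nat_lit 195010) (nat_lit 0) .nil) .nil)))) (.nd (nat_lit 9) 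
(.lf (nat_lit 510363) (.g (nat_lit 3016) (.e (nat_lit 172115) (nat_lit 10) (.e (nat_lit 434244) (nat_lit 28) (.e (nat_lit 573474) (nat_lit 12) (.e (nat_lit 57348) (nat_lit 0) .nil)))) (.g (nat_lit 0) (.e (nat_lit 194451) (nat_lit 0) .nil) .nil))) 
(.lf (nat_lit 510875) (.g (nat_lit 2573) (.e (nat_lit 172123) (nat_lit 13) (.e (nat_lit 483337) (nat_lit 9) (.e (nat_lit 426100) (nat_lit 1) (.e (nat_lit 164399) (nat_lit 256) (.e (nat_lit 57373) (nat_lit 2) (.e (nat_lit 90168) (nat_lit 13) .nil)))))) (.g (nat_lit 1) (.e (nat_lit 195723) (nat_lit 0) .nil) .nil)))))) (.nd (nat_lit 7) (.nd (nat_lit 8) (.nd (nat_lit 9) 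
(.lf (nat_lit 510043) (.g (nat_lit 1787) (.e (nat_lit 172115) (nat_lit 10) (.e (nat_lit 434209) (nat_lit 18) (.e (nat_lit 6426) (nat_lit 342) (.e (nat_lit 229412) (nat_lit 14) (.e (nat_lit 442411) (nat_lit 20) .nil))))) (.g (nat_lit 0) (.e (nat_lit 193913) (nat_lit 0) .nil) .nil))) 
(.lf (nat_lit 510555) (.g (nat_lit 1605) (.e (nat_lit 172118) (nat_lit 12) (.e (nat_lit 475211) (nat_lit 41) (.e (nat_lit 712755) (nat_lit 30) (.e (nat_lit 450567) (nat_lit 0) .nil)))) (.g (nat_lit 0) (.e (nat_lit 194925) (nat_lit 0) .nil) .nil)))) (.nd (nat_lit 9) 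
(.lf (nat_lit 510299) (.g (nat_lit 3002) (.e (nat_lit 172115) (nat_lit 10) (.e (nat_lit 434244) (nat_lit 28) (.e (nat_lit 573471) (nat_lit 11) (.e (nat_lit 16386) (nat_lit 0) .nil)))) (.g (nat_lit 0) (.e (nat_lit 194325) (nat_lit 0) .nil) .nil))) 
(.lf (nat_lit 510811) (.g (nat_lit 2239) (.e (nat_lit 172121) (nat_lit 13) (.e (nat_lit 483337) (nat_lit 9) (.e (nat_lit 426098) (nat_lit 1) (.e (nat_lit 164403) (nat_lit 256) (.e (nat_lit 57371) (nat_lit 2) (.e (nat_lit 90169) (nat_lit 13) .nil)))))) (.g (nat_lit 1) (.e (nat_lit 195315) (nat_lit 0) .nil) .nil))))) (.nd (nat_lit 8) (.nd (nat_lit 9) 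
(.lf (nat_lit 510171) (.g (nat_lit 1737) (.e (nat_lit 172115) (nat_lit 10) (.e (nat_lit 434231) (nat_lit 23) (.e (nat_lit 532569) (nat_lit 16) (.e (nat_lit 401451) (nat_lit 12) .nil)))) (.g (nat_lit 0) (.e (nat_lit 194120) (nat_lit 0) .nil) .nil))) 
(.lf (nat_lit 510683) (.g (nat_lit 1747) (.e (nat_lit 172120) (nat_lit 12) (.e (nat_lit 475197) (nat_lit 40) (.e (nat_lit 704598) (nat_lit 6) (.e (nat_lit 188453) (nat_lit 24) (.e (nat_lit 229666) (nat_lit 240) (.e (nat_lit 2621) (nat_lit 164) .nil)))))) (.g (nat_lit 1) (.e (nat_lit 195085) (nat_lit 0) .nil) .nil)))) (.nd (nat_lit 9) 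
(.lf (nat_lit 510427) (.g (nat_lit 1333) (.e (nat_lit 172116) (nat_lit 10) (.e (nat_lit 434272) (nat_lit 38) (.e (nat_lit 655364) (nat_lit 0) (.e (nat_lit 3021) (nat_lit 187) (.e (nat_lit 458496) (nat_lit 15) .nil))))) (.g (nat_lit 0) (.e (nat_lit 194742) (nat_lit 0) .nil) .nil))) 
(.lf (nat_lit 510939) (.g (nat_lit 698) (.e (nat_lit 172124) (nat_lit 14) (.e (nat_lit 491537) (nat_lit 2) (.e (nat_lit 90125) (nat_lit 9) .nil))) (.g (nat_lit 0) (.e (nat_lit 195999) (nat_lit 0) .nil) .nil))))))) (.nd (nat_lit 6) (.nd (nat_lit 7) (.nd (nat_lit 8) (.nd (nat_lit 9) 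
(.lf (nat_lit 510011) (.g (nat_lit 2124) (.e (nat_lit 172114) (nat_lit 10) (.e (nat_lit 434231) (nat_lit 23) (.e (nat_lit 532523) (nat_lit 7) (.e (nat_lit 319532) (nat_lit 16) .nil)))) (.g (nat_lit 0) (.e (nat_lit 193718) (nat_lit 0) .nil) .nil))) 
(.lf (nat_lit 510523) (.g (nat_lit 3349) (.e (nat_lit 172118) (nat_lit 12) (.e (nat_lit 475210) (nat_lit 41) (.e (nat_lit 712755) (nat_lit 30) (.e (nat_lit 450565) (nat_lit 0) (.e (nat_lit 5548) (nat_lit 306) (.e (nat_lit 2619) (nat_lit 164) .nil)))))) (.g (nat_lit 1) (.e (nat_lit 194887) (nat_lit 0) .nil) .nil)))) (.nd (nat_lit 9) 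
(.lf (nat_lit 510267) (.g (nat_lit 1541) (.e (nat_lit 172115) (nat_lit 10) (.e (nat_lit 434244) (nat_lit 28) (.e (nat_lit 573458) (nat_lit 9) (.e (nat_lit 394) (nat_lit 32) .nil)))) (.g (nat_lit 0) (.e (nat_lit 194292) (nat_lit 0) .nil) .nil))) 
(.lf (nat_lit 510779) (.g (nat_lit 1283) (.e (nat_lit 172120) (nat_lit 12) (.e (nat_lit 475211) (nat_lit 41) (.e (nat_lit 712753) (nat_lit 30) (.e (nat_lit 450561) (nat_lit 0) .nil)))) (.g (nat_lit 0) (.e (nat_lit 195268) (nat_lit 0) .nil) .nil))))) (.nd (nat_lit 8) (.nd (nat_lit 9) 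
(.lf (nat_lit 510139) (.g (nat_lit 3475) (.e (nat_lit 172115) (nat_lit 10) (.e (nat_lit 434231) (nat_lit 23) (.e (nat_lit 532567) (nat_lit 16) (.e (nat_lit 401452) (nat_lit 12) (.e (nat_lit 475185) (nat_lit 29) (.e (nat_lit 557101) (nat_lit 13) .nil)))))) (.g (nat_lit 1) (.e (nat_lit 194049) (nat_lit 0) .nil) .nil))) 
(.lf (nat_lit 510651) (.g (nat_lit 3243) (.e (nat_lit 172120) (nat_lit 12) (.e (nat_lit 475185) (nat_lit 29) (.e (nat_lit 557100) (nat_lit 13) (.e (nat_lit 172079) (nat_lit 7) (.e (nat_lit 409631) (nat_lit 12) (.e (nat_lit 32807) (nat_lit 18) .nil)))))) (.g (nat_lit 1) (.e (nat_lit 195046) (nat_lit 0) .nil) .nil)))) (.nd (nat_lit 9) 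
(.lf (nat_lit 510395) (.g (nat_lit 3509) (.e (nat_lit 172115) (nat_lit 10) (.e (nat_lit 434289) (nat_lit 43) (.e (nat_lit 696343) (nat_lit 8) (.e (nat_lit 172115) (nat_lit 10) (.e (nat_lit 434289) (nat_lit 43) (.e (nat_lit 696344) (nat_lit 8) .nil)))))) (.g (nat_lit 1) (.e (nat_lit 194650) (nat_lit 0) .nil) .nil))) 
(.lf (nat_lit 510907) (.g (nat_lit 357) (.e (nat_lit 172123) (nat_lit 13) (.e (nat_lit 483394) (nat_lit 24) (.e (nat_lit 344160) (nat_lit 37) .nil))) (.g (nat_lit 0) (.e (nat_lit 195845) (nat_lit 0) .nil) .nil)))))) (.nd (nat_lit 7) (.nd (nat_lit 8) (.nd (nat_lit 9) 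
(.lf (nat_lit 510075) (.g (nat_lit 2977) (.e (nat_lit 172115) (nat_lit 10) (.e (nat_lit 434231) (nat_lit 23) (.e (nat_lit 532523) (nat_lit 7) (.e (nat_lit 319502) (nat_lit 10) (.e (nat_lit 7936) (nat_lit 298) .nil))))) (.g (nat_lit 0) (.e (nat_lit 193965) (nat_lit 0) .nil) .nil))) 
(.lf (nat_lit 510587) (.g (nat_lit 2138) (.e (nat_lit 172119) (nat_lit 12) (.e (nat_lit 475210) (nat_lit 41) (.e (nat_lit 712752) (nat_lit 29) (.e (nat_lit 442421) (nat_lit 21) (.e (nat_lit 164347) (nat_lit 240) .nil))))) (.g (nat_lit 0) (.e (nat_lit 194975) (nat_lit 0) .nil) .nil)))) (.nd (nat_lit 9) 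
(.lf (nat_lit 510331) (.g (nat_lit 2228) (.e (nat_lit 172115) (nat_lit 10) (.e (nat_lit 434244) (nat_lit 28) (.e (nat_lit 573471) (nat_lit 11) (.e (nat_lit 16438) (nat_lit 9) (.e (nat_lit 426364) (nat_lit 15) .nil))))) (.g (nat_lit 0) (.e (nat_lit 194409) (nat_lit 0) .nil) .nil))) 
(.lf (nat_lit 510843) (.g (nat_lit 1616) (.e (nat_lit 172122) (nat_lit 13) (.e (nat_lit 483337) (nat_lit 9) (.e (nat_lit 426107) (nat_lit 1) (.e (nat_lit 164396) (nat_lit 256) .nil)))) (.g (nat_lit 0) (.e (nat_lit 195502) (nat_lit 0) .nil) .nil))))) (.nd (nat_lit 8) (.nd (nat_lit 9) 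
(.lf (nat_lit 510203) (.g (nat_lit 2303) (.e (nat_lit 172115) (nat_lit 10) (.e (nat_lit 434238) (nat_lit 25) (.e (nat_lit 548913) (nat_lit 18) (.e (nat_lit 172120) (nat_lit 12) (.e (nat_lit 475183) (nat_lit 29) (.e (nat_lit 557101) (nat_lit 13) .nil)))))) (.g (nat_lit 1) (.e (nat_lit 194211) (nat_lit 0) .nil) .nil))) 
(.lf (nat_lit 510715) (.g (nat_lit 299) (.e (nat_lit 172120) (nat_lit 12) (.e (nat_lit 475199) (nat_lit 40) (.e (nat_lit 704598) (nat_lit 6) .nil))) (.g (nat_lit 0) (.e (nat_lit 195133) (nat_lit 0) .nil) .nil)))) (.nd (nat_lit 9) 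
(.lf (nat_lit 510459) (.g (nat_lit 2798) (.e (nat_lit 172118) (nat_lit 12) (.e (nat_lit 475185) (nat_lit 29) (.e (nat_lit 557098) (nat_lit 13) (.e (nat_lit 172126) (nat_lit 14) (.e (nat_lit 491537) (nat_lit 2) (.e (nat_lit 90170) (nat_lit 13) .nil)))))) (.g (nat_lit 1) (.e (nat_lit 194795) (nat_lit 0) .nil) .nil))) 
(.lf (nat_lit 510971) (.g (nat_lit 3872) (.e (nat_lit 172124) (nat_lit 14) (.e (nat_lit 491540) (nat_lit 3) (.e (nat_lit 98373) (nat_lit 29) (.e (nat_lit 450563) (nat_lit 0) (.e (nat_lit 3953) (nat_lit 239) .nil))))) (.g (nat_lit 0) (.e (nat_lit 196032) (nat_lit 0) .nil) .nil)))))))))) 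
(.nd (nat_lit 3) (.nd (nat_lit 4) (.nd (nat_lit 5) (.nd (nat_lit 6) (.nd (nat_lit 7) 
(.nd (nat_lit 8) (.nd (nat_lit 9) 
(.lf (nat_lit 509959) (.g (nat_lit 3924) (.e (nat_lit 172113) (nat_lit 10) (.e (nat_lit 434248) (nat_lit 28) (.e (nat_lit 573471) (nat_lit 11) (.e (nat_lit 16473) (nat_lit 14) (.e (nat_lit 491536) (nat_lit 2) (.e (nat_lit 90170) (nat_lit 13) .nil)))))) (.g (nat_lit 1) (.e (nat_lit 193577) (nat_lit 0) .nil) .nil))) 
(.lf (nat_lit 510471) (.g (nat_lit 2763) (.e (nat_lit 172118) (nat_lit 12) (.e (nat_lit 475185) (nat_lit 29) (.e (nat_lit 557108) (nat_lit 15) (.e (nat_lit 188434) (nat_lit 20) .nil)))) (.g (nat_lit 0) (.e (nat_lit 194810) (nat_lit 0) .nil) .nil)))) (.nd (nat_lit 9) 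
(.lf (nat_lit 510215) (.g (nat_lit 2098) (.e (nat_lit 172115) (nat_lit 10) (.e (nat_lit 434244) (nat_lit 28) (.e (nat_lit 573449) (nat_lit 9) (.e (nat_lit 457) (nat_lit 34) (.e (nat_lit 442372) (nat_lit 0) .nil))))) (.g (nat_lit 0) (.e (nat_lit 194226) (nat_lit 0) .nil) .nil))) 
(.lf (nat_lit 510727) (.g (nat_lit 2533) (.e (nat_lit 172120) (nat_lit 12) (.e (nat_lit 475199) (nat_lit 40) (.e (nat_lit 704598) (nat_lit 6) (.e (nat_lit 188455) (nat_lit 24) (.e (nat_lit 229666) (nat_lit 240) (.e (nat_lit 2621) (nat_lit 164) .nil)))))) (.g (nat_lit 1) (.e (nat_lit 195154) (nat_lit 0) .nil) .nil))))) (.nd (nat_lit 8) (.nd (nat_lit 9) 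
(.lf (nat_lit 510087) (.g (nat_lit 4201) (.e (nat_lit 172115) (nat_lit 10) (.e (nat_lit 434231) (nat_lit 23) (.e (nat_lit 532523) (nat_lit 7) (.e (nat_lit 319530) (nat_lit 16) (.e (nat_lit 286733) (nat_lit 2) (.e (nat_lit 90169) (nat_lit 13) .nil)))))) (.g (nat_lit 1) (.e (nat_lit 193984) (nat_lit 0) .nil) .nil))) 
(.lf (nat_lit 510599) (.g (nat_lit 510) (.e (nat_lit 172119) (nat_lit 12) (.e (nat_lit 475211) (nat_lit 41) (.e (nat_lit 712752) (nat_lit 29) .nil))) (.g (nat_lit 0) (.e (nat_lit 194988) (nat_lit 0) .nil) .nil)))) (.nd (nat_lit 9) 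
(.lf (nat_lit 510343) (.g (nat_lit 1488) (.e (nat_lit 172115) (nat_lit 10) (.e (nat_lit 434244) (nat_lit 28) (.e (nat_lit 573471) (nat_lit 11) (.e (nat_lit 16446) (nat_lit 9) .nil)))) (.g (nat_lit 0) (.e (nat_lit 194421) (nat_lit 0) .nil) .nil))) 
(.lf (nat_lit 510855) (.g (nat_lit 1138) (.e (nat_lit 172122) (nat_lit 13) (.e (nat_lit 483344) (nat_lit 17) (.e (nat_lit 6724) (nat_lit 362) (.e (nat_lit 180269) (nat_lit 25) .nil)))) (.g (nat_lit 0) (.e (nat_lit 195514) (nat_lit 0) .nil) .nil)))))) (.nd (nat_lit 7) (.nd (nat_lit 8) (.nd (nat_lit 9) 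
(.lf (nat_lit 510023) (.g (nat_lit 2925) (.e (nat_lit 172115) (nat_lit 10) (.e (nat_lit 434202) (nat_lit 18) (.e (nat_lit 6421) (nat_lit 341) (.e (nat_lit 163923) (nat_lit 15) (.e (nat_lit 450601) (nat_lit 21) (.e (nat_lit 696344) (nat_lit 8) .nil)))))) (.g (nat_lit 1) (.e (nat_lit 193742) (nat_lit 0) .nil) .nil))) 
(.lf (nat_lit 510535) (.g (nat_lit 1545) (.e (nat_lit 172118) (nat_lit 12) (.e (nat_lit 475211) (nat_lit 41) (.e (nat_lit 712752) (nat_lit 29) (.e (nat_lit 442398) (nat_lit 20) .nil)))) (.g (nat_lit 0) (.e (nat_lit 194904) (nat_lit 0) .nil) .nil)))) (.nd (nat_lit 9) 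
(.lf (nat_lit 510279) (.g (nat_lit 5072) (.e (nat_lit 172115) (nat_lit 10) (.e (nat_lit 434244) (nat_lit 28) (.e (nat_lit 573458) (nat_lit 9) (.e (nat_lit 426) (nat_lit 32) (.e (nat_lit 426316) (nat_lit 12) (.e (nat_lit 475185) (nat_lit 29) (.e (nat_lit 557101) (nat_lit 13) .nil))))))) (.g (nat_lit 1) (.e (nat_lit 194304) (nat_lit 0) .nil) .nil))) 
(.lf (nat_lit 510791) (.g (nat_lit 2412) (.e (nat_lit 172120) (nat_lit 12) (.e (nat_lit 475211) (nat_lit 41) (.e (nat_lit 712753) (nat_lit 30) (.e (nat_lit 450593) (nat_lit 16) (.e (nat_lit 655376) (nat_lit 4) .nil))))) (.g (nat_lit 1) (.e (nat_lit 195283) (nat_lit 0) .nil) .nil))))) (.nd (nat_lit 8) (.nd (nat_lit 9) 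
(.lf (nat_lit 510151) (.g (nat_lit 3586) (.e (nat_lit 172115) (nat_lit 10) (.e (nat_lit 434231) (nat_lit 23) (.e (nat_lit 532568) (nat_lit 16) (.e (nat_lit 401452) (nat_lit 12) (.e (nat_lit 475185) (nat_lit 29) (.e (nat_lit 557101) (nat_lit 13) .nil)))))) (.g (nat_lit 1) (.e (nat_lit 194071) (nat_lit 0) .nil) .nil))) 
(.lf (nat_lit 510663) (.g (nat_lit 1613) (.e (nat_lit 172120) (nat_lit 12) (.e (nat_lit 475185) (nat_lit 29) (.e (nat_lit 557105) (nat_lit 14) (.e (nat_lit 180286) (nat_lit 45) .nil)))) (.g (nat_lit 0) (.e (nat_lit 195058) (nat_lit 0) .nil) .nil)))) (.nd (nat_lit 9) 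
(.lf (nat_lit 510407) (.g (nat_lit 1441) (.e (nat_lit 172116) (nat_lit 10) (.e (nat_lit 434209) (nat_lit 18) (.e (nat_lit 5548) (nat_lit 306) (.e (nat_lit 2650) (nat_lit 166) .nil)))) (.g (nat_lit 0) (.e (nat_lit 194684) (nat_lit 0) .nil) .nil))) 
(.lf (nat_lit 510919) (.g (nat_lit 1747) (.e (nat_lit 172123) (nat_lit 13) (.e (nat_lit 483405) (nat_lit 26) (.e (nat_lit 385109) (nat_lit 51) (.e (nat_lit 794644) (nat_lit 20) .nil)))) (.g (nat_lit 0) (.e (nat_lit 195866) (nat_lit 0) .nil) .nil))))))) (.nd (nat_lit 6) (.nd (nat_lit 7) (.nd (nat_lit 8) (.nd (nat_lit 9) 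
(.lf (nat_lit 509991) (.g (nat_lit 400) (.e (nat_lit 172113) (nat_lit 10) (.e (nat_lit 434272) (nat_lit 38) (.e (nat_lit 655380) (nat_lit 6) .nil))) (.g (nat_lit 0) (.e (nat_lit 193680) (nat_lit 0) .nil) .nil))) 
(.lf (nat_lit 510503) (.g (nat_lit 1546) (.e (nat_lit 172118) (nat_lit 12) (.e (nat_lit 475210) (nat_lit 41) (.e (nat_lit 712752) (nat_lit 29) (.e (nat_lit 442419) (nat_lit 21) .nil)))) (.g (nat_lit 0) (.e (nat_lit 194863) (nat_lit 0) .nil) .nil)))) (.nd (nat_lit 9) 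
(.lf (nat_lit 510247) (.g (nat_lit 2535) (.e (nat_lit 172115) (nat_lit 10) (.e (nat_lit 434244) (nat_lit 28) (.e (nat_lit 573451) (nat_lit 9) (.e (nat_lit 365) (nat_lit 31) .nil)))) (.g (nat_lit 0) (.e (nat_lit 194269) (nat_lit 0) .nil) .nil))) 
(.lf (nat_lit 510759) (.g (nat_lit 3751) (.e (nat_lit 172120) (nat_lit 12) (.e (nat_lit 475210) (nat_lit 41) (.e (nat_lit 712755) (nat_lit 30) (.e (nat_lit 450593) (nat_lit 16) (.e (nat_lit 655378) (nat_lit 4) .nil))))) (.g (nat_lit 1) (.e (nat_lit 195239) (nat_lit 0) .nil) .nil))))) (.nd (nat_lit 8) (.nd (nat_lit 9) 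
(.lf (nat_lit 510119) (.g (nat_lit 1960) (.e (nat_lit 172115) (nat_lit 10) (.e (nat_lit 434231) (nat_lit 23) (.e (nat_lit 532544) (nat_lit 10) (.e (nat_lit 344168) (nat_lit 40) (.e (nat_lit 671751) (nat_lit 0) .nil))))) (.g (nat_lit 0) (.e (nat_lit 194025) (nat_lit 0) .nil) .nil))) 
(.lf (nat_lit 510631) (.g (nat_lit 3314) (.e (nat_lit 172120) (nat_lit 12) (.e (nat_lit 475183) (nat_lit 29) (.e (nat_lit 557109) (nat_lit 15) (.e (nat_lit 188441) (nat_lit 20) (.e (nat_lit 3271) (nat_lit 199) .nil))))) (.g (nat_lit 0) (.e (nat_lit 195026) (nat_lit 0) .nil) .nil)))) (.nd (nat_lit 9) 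
(.lf (nat_lit 510375) (.g (nat_lit 451) (.e (nat_lit 172115) (nat_lit 10) (.e (nat_lit 434268) (nat_lit 36) (.e (nat_lit 639020) (nat_lit 16) .nil))) (.g (nat_lit 0) (.e (nat_lit 194478) (nat_lit 0) .nil) .nil))) 
(.lf (nat_lit 510887) (.g (nat_lit 1948) (.e (nat_lit 172123) (nat_lit 13) (.e (nat_lit 483337) (nat_lit 9) (.e (nat_lit 426108) (nat_lit 1) (.e (nat_lit 164401) (nat_lit 256) (.e (nat_lit 57371) (nat_lit 2) (.e (nat_lit 90167) (nat_lit 13) .nil)))))) (.g (nat_lit 1) (.e (nat_lit 195736) (nat_lit 0) .nil) .nil)))))) (.nd (nat_lit 7) (.nd (nat_lit 8) (.nd (nat_lit 9) 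
(.lf (nat_lit 510055) (.g (nat_lit 1656) (.e (nat_lit 172115) (nat_lit 10) (.e (nat_lit 434231) (nat_lit 23) (.e (nat_lit 532484) (nat_lit 0) (.e (nat_lit 6684) (nat_lit 357) .nil)))) (.g (nat_lit 0) (.e (nat_lit 193933) (nat_lit 0) .nil) .nil))) 
(.lf (nat_lit 510567) (.g (nat_lit 2278) (.e (nat_lit 172119) (nat_lit 12) (.e (nat_lit 475185) (nat_lit 29) (.e (nat_lit 557101) (nat_lit 13) (.e (nat_lit 172115) (nat_lit 10) (.e (nat_lit 434238) (nat_lit 25) (.e (nat_lit 548912) (nat_lit 18) .nil)))))) (.g (nat_lit 1) (.e (nat_lit 194940) (nat_lit 0) .nil) .nil)))) (.nd (nat_lit 9) 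
(.lf (nat_lit 510311) (.g (nat_lit 2337) (.e (nat_lit 172115) (nat_lit 10) (.e (nat_lit 434244) (nat_lit 28) (.e (nat_lit 573471) (nat_lit 11) (.e (nat_lit 16431) (nat_lit 9) (.e (nat_lit 426360) (nat_lit 15) .nil))))) (.g (nat_lit 0) (.e (nat_lit 194388) (nat_lit 0) .nil) .nil))) 
(.lf (nat_lit 510823) (.g (nat_lit 2653) (.e (nat_lit 172121) (nat_lit 13) (.e (nat_lit 483365) (nat_lit 18) (.e (nat_lit 57687) (nat_lit 156) (.e (nat_lit 163902) (nat_lit 12) (.e (nat_lit 426428) (nat_lit 17) (.e (nat_lit 90170) (nat_lit 13) .nil)))))) (.g (nat_lit 1) (.e (nat_lit 195342) (nat_lit 0) .nil) .nil))))) (.nd (nat_lit 8) (.nd (nat_lit 9) 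
(.lf (nat_lit 510183) (.g (nat_lit 4302) (.e (nat_lit 172115) (nat_lit 10) (.e (nat_lit 434231) (nat_lit 23) (.e (nat_lit 532569) (nat_lit 16) (.e (nat_lit 401453) (nat_lit 12) (.e (nat_lit 475183) (nat_lit 29) (.e (nat_lit 557097) (nat_lit 13) .nil)))))) (.g (nat_lit 1) (.e (nat_lit 194148) (nat_lit 0) .nil) .nil))) 
(.lf (nat_lit 510695) (.g (nat_lit 2433) (.e (nat_lit 172120) (nat_lit 12) (.e (nat_lit 475198) (nat_lit 40) (.e (nat_lit 704598) (nat_lit 6) (.e (nat_lit 188446) (nat_lit 21) (.e (nat_lit 164348) (nat_lit 240) (.e (nat_lit 2629) (nat_lit 164) .nil)))))) (.g (nat_lit 1) (.e (nat_lit 195109) (nat_lit 0) .nil) .nil)))) (.nd (nat_lit 9) 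
(.lf (nat_lit 510439) (.g (nat_lit 3318) (.e (nat_lit 172116) (nat_lit 10) (.e (nat_lit 434289) (nat_lit 43) (.e (nat_lit 696344) (nat_lit 8) (.e (nat_lit 172116) (nat_lit 10) (.e (nat_lit 434289) (nat_lit 43) (.e (nat_lit 696344) (nat_lit 8) .nil)))))) (.g (nat_lit 1) (.e (nat_lit 194774) (nat_lit 0) .nil) .nil))) 
(.lf (nat_lit 510951) (.g (nat_lit 1216) (.e (nat_lit 172124) (nat_lit 14) (.e (nat_lit 491537) (nat_lit 2) (.e (nat_lit 90174) (nat_lit 14) (.e (nat_lit 188160) (nat_lit 45) .nil)))) (.g (nat_lit 0) (.e (nat_lit 196011) (nat_lit 0) .nil) .nil)))))))) (.nd (nat_lit 5) (.nd (nat_lit 6) (.nd (nat_lit 7) (.nd (nat_lit 8) (.nd (nat_lit 9) 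
(.lf (nat_lit 509975) (.g (nat_lit 2096) (.e (nat_lit 172113) (nat_lit 10) (.e (nat_lit 434268) (nat_lit 36) (.e (nat_lit 639020) (nat_lit 16) (.e (nat_lit 65619) (nat_lit 10) (.e (nat_lit 344153) (nat_lit 35) (.e (nat_lit 630801) (nat_lit 8) .nil)))))) (.g (nat_lit 1) (.e (nat_lit 193608) (nat_lit 0) .nil) .nil))) 
(.lf (nat_lit 510487) (.g (nat_lit 319) (.e (nat_lit 172118) (nat_lit 12) (.e (nat_lit 475199) (nat_lit 40) (.e (nat_lit 704598) (nat_lit 6) .nil))) (.g (nat_lit 0) (.e (nat_lit 194828) (nat_lit 0) .nil) .nil)))) (.nd (nat_lit 9) 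
(.lf (nat_lit 510231) (.g (nat_lit 1642) (.e (nat_lit 172115) (nat_lit 10) (.e (nat_lit 434244) (nat_lit 28) (.e (nat_lit 573450) (nat_lit 9) (.e (nat_lit 389) (nat_lit 32) (.e (nat_lit 426314) (nat_lit 12) .nil))))) (.g (nat_lit 0) (.e (nat_lit 194245) (nat_lit 0) .nil) .nil))) 
(.lf (nat_lit 510743) (.g (nat_lit 2655) (.e (nat_lit 172120) (nat_lit 12) (.e (nat_lit 475210) (nat_lit 41) (.e (nat_lit 712753) (nat_lit 30) (.e (nat_lit 450564) (nat_lit 0) (.e (nat_lit 5546) (nat_lit 306) (.e (nat_lit 2628) (nat_lit 164) .nil)))))) (.g (nat_lit 1) (.e (nat_lit 195206) (nat_lit 0) .nil) .nil))))) (.nd (nat_lit 8) (.nd (nat_lit 9) 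
(.lf (nat_lit 510103) (.g (nat_lit 3640) (.e (nat_lit 172115) (nat_lit 10) (.e (nat_lit 434231) (nat_lit 23) (.e (nat_lit 532525) (nat_lit 8) (.e (nat_lit 327717) (nat_lit 17) (.e (nat_lit 294927) (nat_lit 2) (.e (nat_lit 90170) (nat_lit 13) .nil)))))) (.g (nat_lit 1) (.e (nat_lit 194001) (nat_lit 0) .nil) .nil))) 
(.lf (nat_lit 510615) (.g (nat_lit 2694) (.e (nat_lit 172119) (nat_lit 12) (.e (nat_lit 475211) (nat_lit 41) (.e (nat_lit 712753) (nat_lit 30) (.e (nat_lit 450593) (nat_lit 16) (.e (nat_lit 655378) (nat_lit 4) .nil))))) (.g (nat_lit 1) (.e (nat_lit 195006) (nat_lit 0) .nil) .nil)))) (.nd (nat_lit 9) 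
(.lf (nat_lit 510359) (.g (nat_lit 4236) (.e (nat_lit 172115) (nat_lit 10) (.e (nat_lit 434244) (nat_lit 28) (.e (nat_lit 573471) (nat_lit 11) (.e (nat_lit 16473) (nat_lit 14) (.e (nat_lit 491576) (nat_lit 15) (.e (nat_lit 7936) (nat_lit 200) (.e (nat_lit 557101) (nat_lit 13) .nil))))))) (.g (nat_lit 1) (.e (nat_lit 194446) (nat_lit 0) .nil) .nil))) 
(.lf (nat_lit 510871) (.g (nat_lit 2031) (.e (nat_lit 172123) (nat_lit 13) (.e (nat_lit 483337) (nat_lit 9) (.e (nat_lit 426100) (nat_lit 1) (.e (nat_lit 164398) (nat_lit 256) (.e (nat_lit 57369) (nat_lit 2) .nil))))) (.g (nat_lit 0) (.e (nat_lit 195719) (nat_lit 0) .nil) .nil)))))) (.nd (nat_lit 7) (.nd (nat_lit 8) (.nd (nat_lit 9) 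
(.lf (nat_lit 510039) (.g (nat_lit 2883) (.e (nat_lit 172115) (nat_lit 10) (.e (nat_lit 434209) (nat_lit 18) (.e (nat_lit 6425) (nat_lit 342) (.e (nat_lit 229412) (nat_lit 14) (.e (nat_lit 442408) (nat_lit 20) (.e (nat_lit 3468) (nat_lit 217) (.e (nat_lit 696344) (nat_lit 8) .nil))))))) (.g (nat_lit 1) (.e (nat_lit 193890) (nat_lit 0) .nil) .nil))) 
(.lf (nat_lit 510551) (.g (nat_lit 1536) (.e (nat_lit 172118) (nat_lit 12) (.e (nat_lit 475211) (nat_lit 41) (.e (nat_lit 712755) (nat_lit 30) (.e (nat_lit 450565) (nat_lit 0) .nil)))) (.g (nat_lit 0) (.e (nat_lit 194921) (nat_lit 0) .nil) .nil)))) (.nd (nat_lit 9) 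
(.lf (nat_lit 510295) (.g (nat_lit 2404) (.e (nat_lit 172115) (nat_lit 10) (.e (nat_lit 434244) (nat_lit 28) (.e (nat_lit 573470) (nat_lit 11) (.e (nat_lit 16456) (nat_lit 12) (.e (nat_lit 475183) (nat_lit 29) .nil))))) (.g (nat_lit 0) (.e (nat_lit 194321) (nat_lit 0) .nil) .nil))) 
(.lf (nat_lit 510807) (.g (nat_lit 2784) (.e (nat_lit 172120) (nat_lit 12) (.e (nat_lit 475211) (nat_lit 41) (.e (nat_lit 712755) (nat_lit 30) (.e (nat_lit 450593) (nat_lit 16) (.e (nat_lit 655376) (nat_lit 4) .nil))))) (.g (nat_lit 1) (.e (nat_lit 195309) (nat_lit 0) .nil) .nil))))) (.nd (nat_lit 8) (.nd (nat_lit 9) 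
(.lf (nat_lit 510167) (.g (nat_lit 2088) (.e (nat_lit 172115) (nat_lit 10) (.e (nat_lit 434231) (nat_lit 23) (.e (nat_lit 532569) (nat_lit 16) (.e (nat_lit 401443) (nat_lit 9) .nil)))) (.g (nat_lit 0) (.e (nat_lit 194100) (nat_lit 0) .nil) .nil))) 
(.lf (nat_lit 510679) (.g (nat_lit 1642) (.e (nat_lit 172120) (nat_lit 12) (.e (nat_lit 475197) (nat_lit 40) (.e (nat_lit 704598) (nat_lit 6) (.e (nat_lit 188434) (nat_lit 20) (.e (nat_lit 3408) (nat_lit 212) (.e (nat_lit 655376) (nat_lit 4) .nil)))))) (.g (nat_lit 1) (.e (nat_lit 195074) (nat_lit 0) .nil) .nil)))) (.nd (nat_lit 9) 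
(.lf (nat_lit 510423) (.g (nat_lit 908) (.e (nat_lit 172116) (nat_lit 10) (.e (nat_lit 434268) (nat_lit 36) (.e (nat_lit 639020) (nat_lit 16) (.e (nat_lit 65620) (nat_lit 10) .nil)))) (.g (nat_lit 0) (.e (nat_lit 194722) (nat_lit 0) .nil) .nil))) 
(.lf (nat_lit 510935) (.g (nat_lit 707) (.e (nat_lit 172123) (nat_lit 13) (.e (nat_lit 483412) (nat_lit 27) (.e (nat_lit 401449) (nat_lit 11) .nil))) (.g (nat_lit 0) (.e (nat_lit 195941) (nat_lit 0) .nil) .nil))))))) (.nd (nat_lit 6) (.nd (nat_lit 7) (.nd (nat_lit 8) (.nd (nat_lit 9) 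
(.lf (nat_lit 510007) (.g (nat_lit 1913) (.e (nat_lit 172114) (nat_lit 10) (.e (nat_lit 434231) (nat_lit 23) (.e (nat_lit 532523) (nat_lit 7) (.e (nat_lit 319529) (nat_lit 16) .nil)))) (.g (nat_lit 0) (.e (nat_lit 193713) (nat_lit 0) .nil) .nil))) 
(.lf (nat_lit 510519) (.g (nat_lit 2153) (.e (nat_lit 172118) (nat_lit 12) (.e (nat_lit 475210) (nat_lit 41) (.e (nat_lit 712755) (nat_lit 30) (.e (nat_lit 450564) (nat_lit 0) (.e (nat_lit 5547) (nat_lit 306) .nil))))) (.g (nat_lit 0) (.e (nat_lit 194883) (nat_lit 0) .nil) .nil)))) (.nd (nat_lit 9) 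
(.lf (nat_lit 510263) (.g (nat_lit 2522) (.e (nat_lit 172115) (nat_lit 10) (.e (nat_lit 434244) (nat_lit 28) (.e (nat_lit 573454) (nat_lit 9) (.e (nat_lit 476) (nat_lit 37) .nil)))) (.g (nat_lit 0) (.e (nat_lit 194288) (nat_lit 0) .nil) .nil))) 
(.lf (nat_lit 510775) (.g (nat_lit 2588) (.e (nat_lit 172120) (nat_lit 12) (.e (nat_lit 475211) (nat_lit 41) (.e (nat_lit 712752) (nat_lit 29) (.e (nat_lit 442421) (nat_lit 21) (.e (nat_lit 164348) (nat_lit 240) (.e (nat_lit 2629) (nat_lit 164) .nil)))))) (.g (nat_lit 1) (.e (nat_lit 195263) (nat_lit 0) .nil) .nil))))) (.nd (nat_lit 8) (.nd (nat_lit 9) 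
(.lf (nat_lit 510135) (.g (nat_lit 2104) (.e (nat_lit 172115) (nat_lit 10) (.e (nat_lit 434231) (nat_lit 23) (.e (nat_lit 532567) (nat_lit 16) (.e (nat_lit 401435) (nat_lit 9) (.e (nat_lit 426354) (nat_lit 15) .nil))))) (.g (nat_lit 0) (.e (nat_lit 194045) (nat_lit 0) .nil) .nil))) 
(.lf (nat_lit 510647) (.g (nat_lit 2056) (.e (nat_lit 172120) (nat_lit 12) (.e (nat_lit 475185) (nat_lit 29) (.e (nat_lit 557100) (nat_lit 13) (.e (nat_lit 172037) (nat_lit 0) .nil)))) (.g (nat_lit 0) (.e (nat_lit 195042) (nat_lit 0) .nil) .nil)))) (.nd (nat_lit 9) 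
(.lf (nat_lit 510391) (.g (nat_lit 3023) (.e (nat_lit 172115) (nat_lit 10) (.e (nat_lit 434272) (nat_lit 38) (.e (nat_lit 655378) (nat_lit 4) (.e (nat_lit 172094) (nat_lit 9) (.e (nat_lit 426025) (nat_lit 0) (.e (nat_lit 3399) (nat_lit 211) (.e (nat_lit 647183) (nat_lit 4) .nil))))))) (.g (nat_lit 1) (.e (nat_lit 194614) (nat_lit 0) .nil) .nil))) 
(.lf (nat_lit 510903) (.g (nat_lit 2095) (.e (nat_lit 172123) (nat_lit 13) (.e (nat_lit 483364) (nat_lit 18) (.e (nat_lit 57692) (nat_lit 156) (.e (nat_lit 163907) (nat_lit 12) (.e (nat_lit 426428) (nat_lit 17) .nil))))) (.g (nat_lit 0) (.e (nat_lit 195777) (nat_lit 0) .nil) .nil)))))) (.nd (nat_lit 7) (.nd (nat_lit 8) (.nd (nat_lit 9) 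
(.lf (nat_lit 510071) (.g (nat_lit 3505) (.e (nat_lit 172115) (nat_lit 10) (.e (nat_lit 434231) (nat_lit 23) (.e (nat_lit 532523) (nat_lit 7) (.e (nat_lit 319497) (nat_lit 10) (.e (nat_lit 5258) (nat_lit 298) .nil))))) (.g (nat_lit 0) (.e (nat_lit 193961) (nat_lit 0) .nil) .nil))) 
(.lf (nat_lit 510583) (.g (nat_lit 1230) (.e (nat_lit 172119) (nat_lit 12) (.e (nat_lit 475210) (nat_lit 41) (.e (nat_lit 712750) (nat_lit 29) (.e (nat_lit 442399) (nat_lit 20) .nil)))) (.g (nat_lit 0) (.e (nat_lit 194969) (nat_lit 0) .nil) .nil)))) (.nd (nat_lit 9) 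
(.lf (nat_lit 510327) (.g (nat_lit 3062) (.e (nat_lit 172115) (nat_lit 10) (.e (nat_lit 434244) (nat_lit 28) (.e (nat_lit 573471) (nat_lit 11) (.e (nat_lit 16436) (nat_lit 9) (.e (nat_lit 426350) (nat_lit 15) .nil))))) (.g (nat_lit 0) (.e (nat_lit 194405) (nat_lit 0) .nil) .nil))) 
(.lf (nat_lit 510839) (.g (nat_lit 2194) (.e (nat_lit 172122) (nat_lit 13) (.e (nat_lit 483337) (nat_lit 9) (.e (nat_lit 426100) (nat_lit 1) (.e (nat_lit 164399) (nat_lit 256) (.e (nat_lit 57373) (nat_lit 2) (.e (nat_lit 90169) (nat_lit 13) .nil)))))) (.g (nat_lit 1) (.e (nat_lit 195498) (nat_lit 0) .nil) .nil))))) (.nd (nat_lit 8) (.nd (nat_lit 9) 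
(.lf (nat_lit 510199) (.g (nat_lit 1928) (.e (nat_lit 172115) (nat_lit 10) (.e (nat_lit 434238) (nat_lit 25) (.e (nat_lit 548913) (nat_lit 18) (.e (nat_lit 172118) (nat_lit 12) (.e (nat_lit 475185) (nat_lit 29) .nil))))) (.g (nat_lit 0) (.e (nat_lit 194207) (nat_lit 0) .nil) .nil))) 
(.lf (nat_lit 510711) (.g (nat_lit 3902) (.e (nat_lit 172120) (nat_lit 12) (.e (nat_lit 475198) (nat_lit 40) (.e (nat_lit 704599) (nat_lit 6) (.e (nat_lit 188455) (nat_lit 24) (.e (nat_lit 229663) (nat_lit 240) (.e (nat_lit 2620) (nat_lit 164) .nil)))))) (.g (nat_lit 1) (.e (nat_lit 195126) (nat_lit 0) .nil) .nil)))) (.nd (nat_lit 9) 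
(.lf (nat_lit 510455) (.g (nat_lit 2598) (.e (nat_lit 172118) (nat_lit 12) (.e (nat_lit 475185) (nat_lit 29) (.e (nat_lit 557098) (nat_lit 13) (.e (nat_lit 172037) (nat_lit 0) .nil)))) (.g (nat_lit 0) (.e (nat_lit 194791) (nat_lit 0) .nil) .nil))) 
(.lf (nat_lit 510967) (.g (nat_lit 3515) (.e (nat_lit 172124) (nat_lit 14) (.e (nat_lit 491540) (nat_lit 3) (.e (nat_lit 98373) (nat_lit 29) (.e (nat_lit 450562) (nat_lit 0) (.e (nat_lit 3948) (nat_lit 239) (.e (nat_lit 2626) (nat_lit 164) .nil)))))) (.g (nat_lit 1) (.e (nat_lit 196028) (nat_lit 0) .nil) .nil))))))))) 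
(.nd (nat_lit 4) (.nd (nat_lit 5) (.nd (nat_lit 6) (.nd (nat_lit 7) (.nd (nat_lit 8) 
(.nd (nat_lit 9) 
(.lf (nat_lit 509967) (.g (nat_lit 3327) (.e (nat_lit 172113) (nat_lit 10) (.e (nat_lit 434248) (nat_lit 28) (.e (nat_lit 573475) (nat_lit 12) (.e (nat_lit 57574) (nat_lit 55) (.e (nat_lit 778466) (nat_lit 11) (.e (nat_lit 32512) (nat_lit 2) (.e (nat_lit 90170) (nat_lit 13) .nil))))))) (.g (nat_lit 1) (.e (nat_lit 193586) (nat_lit 0) .nil) .nil))) 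
(.lf (nat_lit 510479) (.g (nat_lit 3712) (.e (nat_lit 172118) (nat_lit 12) (.e (nat_lit 475198) (nat_lit 40) (.e (nat_lit 704598) (nat_lit 6) (.e (nat_lit 188455) (nat_lit 24) (.e (nat_lit 229663) (nat_lit 240) (.e (nat_lit 2622) (nat_lit 164) .nil)))))) (.g (nat_lit 1) (.e (nat_lit 194820) (nat_lit 0) .nil) .nil)))) (.nd (nat_lit 9) 
(.lf (nat_lit 510223) (.g (nat_lit 2786) (.e (nat_lit 172115) (nat_lit 10) (.e (nat_lit 434244) (nat_lit 28) (.e (nat_lit 573450) (nat_lit 9) (.e (nat_lit 375) (nat_lit 32) (.e (nat_lit 426201) (nat_lit 9) (.e (nat_lit 426360) (nat_lit 15) (.e (nat_lit 1849) (nat_lit 124) (.e (nat_lit 557097) (nat_lit 13) .nil)))))))) (.g (nat_lit 1) (.e (nat_lit 194237) (nat_lit 0) .nil) .nil))) 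
(.lf (nat_lit 510735) (.g (nat_lit 1701) (.e (nat_lit 172120) (nat_lit 12) (.e (nat_lit 475210) (nat_lit 41) (.e (nat_lit 712752) (nat_lit 29) (.e (nat_lit 442420) (nat_lit 21) .nil)))) (.g (nat_lit 0) (.e (nat_lit 195193) (nat_lit 0) .nil) .nil))))) (.nd (nat_lit 8) (.nd (nat_lit 9) 
(.lf (nat_lit 510095) (.g (nat_lit 4531) (.e (nat_lit 172115) (nat_lit 10) (.e (nat_lit 434231) (nat_lit 23) (.e (nat_lit 532523) (nat_lit 7) (.e (nat_lit 319533) (nat_lit 16) (.e (nat_lit 286732) (nat_lit 2) (.e (nat_lit 90170) (nat_lit 13) .nil)))))) (.g (nat_lit 1) (.e (nat_lit 193992) (nat_lit 0) .nil) .nil))) 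
(.lf (nat_lit 510607) (.g (nat_lit 2821) (.e (nat_lit 172119) (nat_lit 12) (.e (nat_lit 475211) (nat_lit 41) (.e (nat_lit 712752) (nat_lit 29) (.e (nat_lit 442421) (nat_lit 21) (.e (nat_lit 164346) (nat_lit 240) (.e (nat_lit 2619) (nat_lit 164) .nil)))))) (.g (nat_lit 1) (.e (nat_lit 194996) (nat_lit 0) .nil) .nil)))) (.nd (nat_lit 9) 
(.lf (nat_lit 510351) (.g (nat_lit 2756) (.e (nat_lit 172115) (nat_lit 10) (.e (nat_lit 434244) (nat_lit 28) (.e (nat_lit 573471) (nat_lit 11) (.e (nat_lit 16472) (nat_lit 14) .nil)))) (.g (nat_lit 0) (.e (nat_lit 194438) (nat_lit 0) .nil) .nil))) 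
(.lf (nat_lit 510863) (.g (nat_lit 3651) (.e (nat_lit 172122) (nat_lit 13) (.e (nat_lit 483413) (nat_lit 27) (.e (nat_lit 401448) (nat_lit 10) (.e (nat_lit 434289) (nat_lit 43) (.e (nat_lit 696343) (nat_lit 8) .nil))))) (.g (nat_lit 1) (.e (nat_lit 195707) (nat_lit 0) .nil) .nil)))))) (.nd (nat_lit 7) (.nd (nat_lit 8) (.nd (nat_lit 9) 
(.lf (nat_lit 510031) (.g (nat_lit 2824) (.e (nat_lit 172115) (nat_lit 10) (.e (nat_lit 434209) (nat_lit 18) (.e (nat_lit 5548) (nat_lit 306) (.e (nat_lit 2619) (nat_lit 164) (.e (nat_lit 172097) (nat_lit 9) (.e (nat_lit 426025) (nat_lit 0) (.e (nat_lit 3399) (nat_lit 211) (.e (nat_lit 647183) (nat_lit 4) .nil)))))))) (.g (nat_lit 1) (.e (nat_lit 193823) (nat_lit 0) .nil) .nil))) 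
(.lf (nat_lit 510543) (.g (nat_lit 435) (.e (nat_lit 172118) (nat_lit 12) (.e (nat_lit 475211) (nat_lit 41) (.e (nat_lit 712755) (nat_lit 30) .nil))) (.g (nat_lit 0) (.e (nat_lit 194912) (nat_lit 0) .nil) .nil)))) (.nd (nat_lit 9) 
(.lf (nat_lit 510287) (.g (nat_lit 2282) (.e (nat_lit 172115) (nat_lit 10) (.e (nat_lit 434244) (nat_lit 28) (.e (nat_lit 573469) (nat_lit 11) (.e (nat_lit 16438) (nat_lit 9) (.e (nat_lit 426364) (nat_lit 15) .nil))))) (.g (nat_lit 0) (.e (nat_lit 194313) (nat_lit 0) .nil) .nil))) 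
(.lf (nat_lit 510799) (.g (nat_lit 3885) (.e (nat_lit 172120) (nat_lit 12) (.e (nat_lit 475211) (nat_lit 41) (.e (nat_lit 712755) (nat_lit 30) (.e (nat_lit 450563) (nat_lit 0) (.e (nat_lit 5537) (nat_lit 306) (.e (nat_lit 2625) (nat_lit 164) .nil)))))) (.g (nat_lit 1) (.e (nat_lit 195298) (nat_lit 0) .nil) .nil))))) (.nd (nat_lit 8) (.nd (nat_lit 9) 
(.lf (nat_lit 510159) (.g (nat_lit 2037) (.e (nat_lit 172115) (nat_lit 10) (.e (nat_lit 434231) (nat_lit 23) (.e (nat_lit 532569) (nat_lit 16) (.e (nat_lit 401408) (nat_lit 0) .nil)))) (.g (nat_lit 0) (.e (nat_lit 194082) (nat_lit 0) .nil) .nil))) 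
(.lf (nat_lit 510671) (.g (nat_lit 2794) (.e (nat_lit 172120) (nat_lit 12) (.e (nat_lit 475185) (nat_lit 29) (.e (nat_lit 557109) (nat_lit 15) (.e (nat_lit 188420) (nat_lit 0) (.e (nat_lit 1856) (nat_lit 124) .nil))))) (.g (nat_lit 0) (.e (nat_lit 195066) (nat_lit 0) .nil) .nil)))) (.nd (nat_lit 9) 
(.lf (nat_lit 510415) (.g (nat_lit 3695) (.e (nat_lit 172116) (nat_lit 10) (.e (nat_lit 434231) (nat_lit 23) (.e (nat_lit 532535) (nat_lit 9) (.e (nat_lit 336295) (nat_lit 15) .nil)))) (.g (nat_lit 0) (.e (nat_lit 194697) (nat_lit 0) .nil) .nil))) 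
(.lf (nat_lit 510927) (.g (nat_lit 1539) (.e (nat_lit 172123) (nat_lit 13) (.e (nat_lit 483410) (nat_lit 27) (.e (nat_lit 401439) (nat_lit 9) (.e (nat_lit 426043) (nat_lit 0) (.e (nat_lit 3468) (nat_lit 217) .nil))))) (.g (nat_lit 0) (.e (nat_lit 195883) (nat_lit 0) .nil) .nil))))))) (.nd (nat_lit 6) (.nd (nat_lit 7) (.nd (nat_lit 8) (.nd (nat_lit 9) 
(.lf (nat_lit 509999) (.g (nat_lit 2077) (.e (nat_lit 172113) (nat_lit 10) (.e (nat_lit 434289) (nat_lit 43) (.e (nat_lit 696344) (nat_lit 8) (.e (nat_lit 172113) (nat_lit 10) (.e (nat_lit 434288) (nat_lit 43) .nil))))) (.g (nat_lit 0) (.e (nat_lit 193702) (nat_lit 0) .nil) .nil))) 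
(.lf (nat_lit 510511) (.g (nat_lit 404) (.e (nat_lit 172118) (nat_lit 12) (.e (nat_lit 475210) (nat_lit 41) (.e (nat_lit 712753) (nat_lit 30) .nil))) (.g (nat_lit 0) (.e (nat_lit 194871) (nat_lit 0) .nil) .nil)))) (.nd (nat_lit 9) 
(.lf (nat_lit 510255) (.g (nat_lit 1939) (.e (nat_lit 172115) (nat_lit 10) (.e (nat_lit 434244) (nat_lit 28) (.e (nat_lit 573451) (nat_lit 9) (.e (nat_lit 7936) (nat_lit 37) .nil)))) (.g (nat_lit 0) (.e (nat_lit 194279) (nat_lit 0) .nil) .nil))) 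
(.lf (nat_lit 510767) (.g (nat_lit 1544) (.e (nat_lit 172120) (nat_lit 12) (.e (nat_lit 475211) (nat_lit 41) (.e (nat_lit 712752) (nat_lit 29) (.e (nat_lit 442371) (nat_lit 0) .nil)))) (.g (nat_lit 0) (.e (nat_lit 195255) (nat_lit 0) .nil) .nil))))) (.nd (nat_lit 8) (.nd (nat_lit 9) 
(.lf (nat_lit 510127) (.g (nat_lit 4027) (.e (nat_lit 172115) (nat_lit 10) (.e (nat_lit 434231) (nat_lit 23) (.e (nat_lit 532563) (nat_lit 15) (.e (nat_lit 385102) (nat_lit 50) .nil)))) (.g (nat_lit 0) (.e (nat_lit 194034) (nat_lit 0) .nil) .nil))) 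
(.lf (nat_lit 510639) (.g (nat_lit 360) (.e (nat_lit 172120) (nat_lit 12) (.e (nat_lit 475185) (nat_lit 29) (.e (nat_lit 557098) (nat_lit 13) .nil))) (.g (nat_lit 0) (.e (nat_lit 195034) (nat_lit 0) .nil) .nil)))) (.nd (nat_lit 9) 
(.lf (nat_lit 510383) (.g (nat_lit 914) (.e (nat_lit 172115) (nat_lit 10) (.e (nat_lit 434275) (nat_lit 39) (.e (nat_lit 663580) (nat_lit 9) (.e (nat_lit 7936) (nat_lit 26) .nil)))) (.g (nat_lit 0) (.e (nat_lit 194531) (nat_lit 0) .nil) .nil))) 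
(.lf (nat_lit 510895) (.g (nat_lit 2511) (.e (nat_lit 172123) (nat_lit 13) (.e (nat_lit 483341) (nat_lit 9) (.e (nat_lit 426107) (nat_lit 1) (.e (nat_lit 164403) (nat_lit 256) .nil)))) (.g (nat_lit 0) (.e (nat_lit 195744) (nat_lit 0) .nil) .nil)))))) (.nd (nat_lit 7) (.nd (nat_lit 8) (.nd (nat_lit 9) 
(.lf (nat_lit 510063) (.g (nat_lit 4313) (.e (nat_lit 172115) (nat_lit 10) (.e (nat_lit 434231) (nat_lit 23) (.e (nat_lit 532490) (nat_lit 0) (.e (nat_lit 6680) (nat_lit 357) (.e (nat_lit 3067) (nat_lit 190) (.e (nat_lit 475184) (nat_lit 29) (.e (nat_lit 557098) (nat_lit 13) .nil))))))) (.g (nat_lit 1) (.e (nat_lit 193945) (nat_lit 0) .nil) .nil))) 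
(.lf (nat_lit 510575) (.g (nat_lit 2356) (.e (nat_lit 172119) (nat_lit 12) (.e (nat_lit 475198) (nat_lit 40) (.e (nat_lit 704599) (nat_lit 6) (.e (nat_lit 188453) (nat_lit 24) (.e (nat_lit 229663) (nat_lit 240) (.e (nat_lit 2622) (nat_lit 164) .nil)))))) (.g (nat_lit 1) (.e (nat_lit 194949) (nat_lit 0) .nil) .nil)))) (.nd (nat_lit 9) 
(.lf (nat_lit 510319) (.g (nat_lit 4340) (.e (nat_lit 172115) (nat_lit 10) (.e (nat_lit 434244) (nat_lit 28) (.e (nat_lit 573471) (nat_lit 11) (.e (nat_lit 16433) (nat_lit 9) (.e (nat_lit 426402) (nat_lit 15) .nil))))) (.g (nat_lit 0) (.e (nat_lit 194396) (nat_lit 0) .nil) .nil))) 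
(.lf (nat_lit 510831) (.g (nat_lit 2183) (.e (nat_lit 172122) (nat_lit 13) (.e (nat_lit 483337) (nat_lit 9) (.e (nat_lit 426098) (nat_lit 1) (.e (nat_lit 164399) (nat_lit 256) (.e (nat_lit 57373) (nat_lit 2) (.e (nat_lit 90169) (nat_lit 13) .nil)))))) (.g (nat_lit 1) (.e (nat_lit 195490) (nat_lit 0) .nil) .nil))))) (.nd (nat_lit 8) (.nd (nat_lit 9) 
(.lf (nat_lit 510191) (.g (nat_lit 3761) (.e (nat_lit 172115) (nat_lit 10) (.e (nat_lit 434238) (nat_lit 25) (.e (nat_lit 548897) (nat_lit 14) (.e (nat_lit 3004) (nat_lit 186) (.e (nat_lit 442374) (nat_lit 0) (.e (nat_lit 1856) (nat_lit 124) (.e (nat_lit 557101) (nat_lit 13) .nil))))))) (.g (nat_lit 1) (.e (nat_lit 194196) (nat_lit 0) .nil) .nil))) 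
(.lf (nat_lit 510703) (.g (nat_lit 2035) (.e (nat_lit 172120) (nat_lit 12) (.e (nat_lit 475198) (nat_lit 40) (.e (nat_lit 704598) (nat_lit 6) (.e (nat_lit 188455) (nat_lit 24) (.e (nat_lit 229666) (nat_lit 240) (.e (nat_lit 2621) (nat_lit 164) .nil)))))) (.g (nat_lit 1) (.e (nat_lit 195117) (nat_lit 0) .nil) .nil)))) (.nd (nat_lit 9) 
(.lf (nat_lit 510447) (.g (nat_lit 2501) (.e (nat_lit 172118) (nat_lit 12) (.e (nat_lit 475179) (nat_lit 24) (.e (nat_lit 516122) (nat_lit 2) (.e (nat_lit 213032) (nat_lit 11) (.e (nat_lit 24605) (nat_lit 2) (.e (nat_lit 90170) (nat_lit 13) .nil)))))) (.g (nat_lit 1) (.e (nat_lit 194783) (nat_lit 0) .nil) .nil))) 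
(.lf (nat_lit 510959) (.g (nat_lit 2497) (.e (nat_lit 172124) (nat_lit 14) (.e (nat_lit 491540) (nat_lit 3) (.e (nat_lit 98370) (nat_lit 28) (.e (nat_lit 442430) (nat_lit 24) (.e (nat_lit 229535) (nat_lit 134) (.e (nat_lit 2619) (nat_lit 164) .nil)))))) (.g (nat_lit 1) (.e (nat_lit 196019) (nat_lit 0) .nil) .nil)))))))) 
(.nd (nat_lit 5) (.nd (nat_lit 6) (.nd (nat_lit 7) (.nd (nat_lit 8) (.nd (nat_lit 9) 
(.lf (nat_lit 509983) (.g (nat_lit 305) (.e (nat_lit 172113) (nat_lit 10) (.e (nat_lit 434279) (nat_lit 39) (.e (nat_lit 663580) (nat_lit 9) .nil))) (.g (nat_lit 0) (.e (nat_lit 193642) (nat_lit 0) .nil) .nil))) 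
(.lf (nat_lit 510495) (.g (nat_lit 1550) (.e (nat_lit 172118) (nat_lit 12) (.e (nat_lit 475209) (nat_lit 41) (.e (nat_lit 712752) (nat_lit 29) (.e (nat_lit 442421) (nat_lit 21) (.e (nat_lit 164345) (nat_lit 240) (.e (nat_lit 2618) (nat_lit 164) .nil)))))) (.g (nat_lit 1) (.e (nat_lit 194843) (nat_lit 0) .nil) .nil)))) (.nd (nat_lit 9) 
(.lf (nat_lit 510239) (.g (nat_lit 4436) (.e (nat_lit 172115) (nat_lit 10) (.e (nat_lit 434244) (nat_lit 28) (.e (nat_lit 573450) (nat_lit 9) (.e (nat_lit 457) (nat_lit 34) (.e (nat_lit 442374) (nat_lit 0) (.e (nat_lit 1856) (nat_lit 124) (.e (nat_lit 557101) (nat_lit 13) .nil))))))) (.g (nat_lit 1) (.e (nat_lit 194259) (nat_lit 0) .nil) .nil))) 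
(.lf (nat_lit 510751) (.g (nat_lit 1513) (.e (nat_lit 172120) (nat_lit 12) (.e (nat_lit 475210) (nat_lit 41) (.e (nat_lit 712755) (nat_lit 30) (.e (nat_lit 450561) (nat_lit 0) .nil)))) (.g (nat_lit 0) (.e (nat_lit 195219) (nat_lit 0) .nil) .nil))))) (.nd (nat_lit 8) (.nd (nat_lit 9) 
(.lf (nat_lit 510111) (.g (nat_lit 976) (.e (nat_lit 172115) (nat_lit 10) (.e (nat_lit 434231) (nat_lit 23) (.e (nat_lit 532530) (nat_lit 9) (.e (nat_lit 336332) (nat_lit 19) .nil)))) (.g (nat_lit 0) (.e (nat_lit 194011) (nat_lit 0) .nil) .nil))) 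
(.lf (nat_lit 510623) (.g (nat_lit 2604) (.e (nat_lit 172119) (nat_lit 12) (.e (nat_lit 475211) (nat_lit 41) (.e (nat_lit 712755) (nat_lit 30) (.e (nat_lit 450564) (nat_lit 0) (.e (nat_lit 5548) (nat_lit 306) (.e (nat_lit 2629) (nat_lit 164) .nil)))))) (.g (nat_lit 1) (.e (nat_lit 195016) (nat_lit 0) .nil) .nil)))) (.nd (nat_lit 9) 
(.lf (nat_lit 510367) (.g (nat_lit 2634) (.e (nat_lit 172115) (nat_lit 10) (.e (nat_lit 434244) (nat_lit 28) (.e (nat_lit 573474) (nat_lit 12) (.e (nat_lit 65280) (nat_lit 55) .nil)))) (.g (nat_lit 0) (.e (nat_lit 194460) (nat_lit 0) .nil) .nil))) 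
(.lf (nat_lit 510879) (.g (nat_lit 1468) (.e (nat_lit 172123) (nat_lit 13) (.e (nat_lit 483337) (nat_lit 9) (.e (nat_lit 426105) (nat_lit 1) (.e (nat_lit 164403) (nat_lit 256) (.e (nat_lit 57371) (nat_lit 2) .nil))))) (.g (nat_lit 0) (.e (nat_lit 195727) (nat_lit 0) .nil) .nil)))))) (.nd (nat_lit 7) (.nd (nat_lit 8) (.nd (nat_lit 9) 
(.lf (nat_lit 510047) (.g (nat_lit 1730) (.e (nat_lit 172115) (nat_lit 10) (.e (nat_lit 434209) (nat_lit 18) (.e (nat_lit 6428) (nat_lit 342) (.e (nat_lit 229412) (nat_lit 14) (.e (nat_lit 442411) (nat_lit 20) (.e (nat_lit 3467) (nat_lit 217) (.e (nat_lit 696344) (nat_lit 8) .nil))))))) (.g (nat_lit 1) (.e (nat_lit 193917) (nat_lit 0) .nil) .nil))) 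
(.lf (nat_lit 510559) (.g (nat_lit 1487) (.e (nat_lit 172119) (nat_lit 12) (.e (nat_lit 475183) (nat_lit 29) (.e (nat_lit 557107) (nat_lit 15) (.e (nat_lit 188439) (nat_lit 20) .nil)))) (.g (nat_lit 0) (.e (nat_lit 194932) (nat_lit 0) .nil) .nil)))) (.nd (nat_lit 9) 
(.lf (nat_lit 510303) (.g (nat_lit 3583) (.e (nat_lit 172115) (nat_lit 10) (.e (nat_lit 434244) (nat_lit 28) (.e (nat_lit 573471) (nat_lit 11) (.e (nat_lit 16388) (nat_lit 0) (.e (nat_lit 7376) (nat_lit 389) .nil))))) (.g (nat_lit 0) (.e (nat_lit 194329) (nat_lit 0) .nil) .nil))) 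
(.lf (nat_lit 510815) (.g (nat_lit 1738) (.e (nat_lit 172121) (nat_lit 13) (.e (nat_lit 483341) (nat_lit 9) (.e (nat_lit 426106) (nat_lit 1) (.e (nat_lit 164403) (nat_lit 256) .nil)))) (.g (nat_lit 0) (.e (nat_lit 195319) (nat_lit 0) .nil) .nil))))) (.nd (nat_lit 8) (.nd (nat_lit 9) 
(.lf (nat_lit 510175) (.g (nat_lit 3189) (.e (nat_lit 172115) (nat_lit 10) (.e (nat_lit 434231) (nat_lit 23) (.e (nat_lit 532569) (nat_lit 16) (.e (nat_lit 401451) (nat_lit 12) (.e (nat_lit 475185) (nat_lit 29) (.e (nat_lit 557096) (nat_lit 13) .nil)))))) (.g (nat_lit 1) (.e (nat_lit 194138) (nat_lit 0) .nil) .nil))) 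
(.lf (nat_lit 510687) (.g (nat_lit 1034) (.e (nat_lit 172120) (nat_lit 12) (.e (nat_lit 475198) (nat_lit 40) (.e (nat_lit 704522) (nat_lit 0) .nil))) (.g (nat_lit 0) (.e (nat_lit 195093) (nat_lit 0) .nil) .nil)))) (.nd (nat_lit 9) 
(.lf (nat_lit 510431) (.g (nat_lit 70) (.e (nat_lit 172116) (nat_lit 10) (.e (nat_lit 434285) (nat_lit 42) (.e (nat_lit 696064) (nat_lit 10) .nil))) (.g (nat_lit 0) (.e (nat_lit 194749) (nat_lit 0) .nil) .nil))) 
(.lf (nat_lit 510943) (.g (nat_lit 2991) (.e (nat_lit 172124) (nat_lit 14) (.e (nat_lit 491537) (nat_lit 2) (.e (nat_lit 90166) (nat_lit 13) (.e (nat_lit 172126) (nat_lit 14) (.e (nat_lit 491537) (nat_lit 2) (.e (nat_lit 90170) (nat_lit 13) .nil)))))) (.g (nat_lit 1) (.e (nat_lit 196003) (nat_lit 0) .nil) .nil))))))) (.nd (nat_lit 6) (.nd (nat_lit 7) (.nd (nat_lit 8) (.nd (nat_lit 9) 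
(.lf (nat_lit 510015) (.g (nat_lit 3901) (.e (nat_lit 172114) (nat_lit 10) (.e (nat_lit 434231) (nat_lit 23) (.e (nat_lit 532563) (nat_lit 15) (.e (nat_lit 385093) (nat_lit 49) (.e (nat_lit 778318) (nat_lit 3) .nil))))) (.g (nat_lit 0) (.e (nat_lit 193723) (nat_lit 0) .nil) .nil))) 
(.lf (nat_lit 510527) (.g (nat_lit 404) (.e (nat_lit 172118) (nat_lit 12) (.e (nat_lit 475211) (nat_lit 41) (.e (nat_lit 712750) (nat_lit 29) .nil))) (.g (nat_lit 0) (.e (nat_lit 194894) (nat_lit 0) .nil) .nil)))) (.nd (nat_lit 9) 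
(.lf (nat_lit 510271) (.g (nat_lit 1400) (.e (nat_lit 172115) (nat_lit 10) (.e (nat_lit 434244) (nat_lit 28) (.e (nat_lit 573458) (nat_lit 9) (.e (nat_lit 426) (nat_lit 32) .nil)))) (.g (nat_lit 0) (.e (nat_lit 194296) (nat_lit 0) .nil) .nil))) 
(.lf (nat_lit 510783) (.g (nat_lit 2490) (.e (nat_lit 172120) (nat_lit 12) (.e (nat_lit 475211) (nat_lit 41) (.e (nat_lit 712753) (nat_lit 30) (.e (nat_lit 450564) (nat_lit 0) (.e (nat_lit 5548) (nat_lit 306) (.e (nat_lit 2625) (nat_lit 164) .nil)))))) (.g (nat_lit 1) (.e (nat_lit 195273) (nat_lit 0) .nil) .nil))))) (.nd (nat_lit 8) (.nd (nat_lit 9) 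
(.lf (nat_lit 510143) (.g (nat_lit 2825) (.e (nat_lit 172115) (nat_lit 10) (.e (nat_lit 434231) (nat_lit 23) (.e (nat_lit 532567) (nat_lit 16) (.e (nat_lit 401453) (nat_lit 12) (.e (nat_lit 475185) (nat_lit 29) (.e (nat_lit 557098) (nat_lit 13) .nil)))))) (.g (nat_lit 1) (.e (nat_lit 194054) (nat_lit 0) .nil) .nil))) 
(.lf (nat_lit 510655) (.g (nat_lit 2802) (.e (nat_lit 172120) (nat_lit 12) (.e (nat_lit 475185) (nat_lit 29) (.e (nat_lit 557100) (nat_lit 13) (.e (nat_lit 172115) (nat_lit 10) (.e (nat_lit 434238) (nat_lit 25) .nil))))) (.g (nat_lit 0) (.e (nat_lit 195050) (nat_lit 0) .nil) .nil)))) (.nd (nat_lit 9) 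
(.lf (nat_lit 510399) (.g (nat_lit 1932) (.e (nat_lit 172116) (nat_lit 10) (.e (nat_lit 434209) (nat_lit 18) (.e (nat_lit 5546) (nat_lit 306) (.e (nat_lit 2648) (nat_lit 166) (.e (nat_lit 188441) (nat_lit 20) .nil))))) (.g (nat_lit 0) (.e (nat_lit 194672) (nat_lit 0) .nil) .nil))) 
(.lf (nat_lit 510911) (.g (nat_lit 2056) (.e (nat_lit 172123) (nat_lit 13) (.e (nat_lit 483395) (nat_lit 24) (.e (nat_lit 344160) (nat_lit 37) (.e (nat_lit 647195) (nat_lit 9) (.e (nat_lit 982) (nat_lit 81) .nil))))) (.g (nat_lit 0) (.e (nat_lit 195851) (nat_lit 0) .nil) .nil)))))) (.nd (nat_lit 7) (.nd (nat_lit 8) (.nd (nat_lit 9) 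
(.lf (nat_lit 510079) (.g (nat_lit 3813) (.e (nat_lit 172115) (nat_lit 10) (.e (nat_lit 434231) (nat_lit 23) (.e (nat_lit 532523) (nat_lit 7) (.e (nat_lit 319505) (nat_lit 10) (.e (nat_lit 5351) (nat_lit 298) .nil))))) (.g (nat_lit 0) (.e (nat_lit 193969) (nat_lit 0) .nil) .nil))) 
(.lf (nat_lit 510591) (.g (nat_lit 1406) (.e (nat_lit 172119) (nat_lit 12) (.e (nat_lit 475210) (nat_lit 41) (.e (nat_lit 712755) (nat_lit 30) (.e (nat_lit 450564) (nat_lit 0) .nil)))) (.g (nat_lit 0) (.e (nat_lit 194980) (nat_lit 0) .nil) .nil)))) (.nd (nat_lit 9) 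
(.lf (nat_lit 510335) (.g (nat_lit 2455) (.e (nat_lit 172115) (nat_lit 10) (.e (nat_lit 434244) (nat_lit 28) (.e (nat_lit 573471) (nat_lit 11) (.e (nat_lit 16441) (nat_lit 9) .nil)))) (.g (nat_lit 0) (.e (nat_lit 194413) (nat_lit 0) .nil) .nil))) 
(.lf (nat_lit 510847) (.g (nat_lit 2259) (.e (nat_lit 172122) (nat_lit 13) (.e (nat_lit 483341) (nat_lit 9) (.e (nat_lit 426098) (nat_lit 1) (.e (nat_lit 164398) (nat_lit 256) .nil)))) (.g (nat_lit 0) (.e (nat_lit 195506) (nat_lit 0) .nil) .nil))))) (.nd (nat_lit 8) (.nd (nat_lit 9) 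
(.lf (nat_lit 510207) (.g (nat_lit 2246) (.e (nat_lit 172115) (nat_lit 10) (.e (nat_lit 434244) (nat_lit 28) (.e (nat_lit 573448) (nat_lit 9) (.e (nat_lit 459) (nat_lit 34) (.e (nat_lit 442379) (nat_lit 0) .nil))))) (.g (nat_lit 0) (.e (nat_lit 194217) (nat_lit 0) .nil) .nil))) 
(.lf (nat_lit 510719) (.g (nat_lit 3261) (.e (nat_lit 172120) (nat_lit 12) (.e (nat_lit 475199) (nat_lit 40) (.e (nat_lit 704598) (nat_lit 6) (.e (nat_lit 188453) (nat_lit 24) (.e (nat_lit 229663) (nat_lit 240) (.e (nat_lit 2621) (nat_lit 164) .nil)))))) (.g (nat_lit 1) (.e (nat_lit 195145) (nat_lit 0) .nil) .nil)))) (.nd (nat_lit 9) 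
(.lf (nat_lit 510463) (.g (nat_lit 2060) (.e (nat_lit 172118) (nat_lit 12) (.e (nat_lit 475185) (nat_lit 29) (.e (nat_lit 557100) (nat_lit 13) (.e (nat_lit 172041) (nat_lit 0) .nil)))) (.g (nat_lit 0) (.e (nat_lit 194799) (nat_lit 0) .nil) .nil))) 
(.lf (nat_lit 510975) (.g (nat_lit 3767) (.e (nat_lit 172124) (nat_lit 14) (.e (nat_lit 491540) (nat_lit 3) (.e (nat_lit 98373) (nat_lit 29) (.e (nat_lit 450563) (nat_lit 0) (.e (nat_lit 3968) (nat_lit 239) .nil))))) (.g (nat_lit 0) (.e (nat_lit 196036) (nat_lit 0) .nil) .nil)))))))))))))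

noncomputable def tv5559 : DT := (.nd (nat_lit 0) (.nd (nat_lit 1) (.nd (nat_lit 2) (.nd (nat_lit 3) (.nd (nat_lit 4) (.nd (nat_lit 5) (.nd (nat_lit 6) (.nd (nat_lit 7) (.nd (nat_lit 8) (.nd (nat_lit 9) 
(.lf (nat_lit 510976) (.g (nat_lit 2839) (.e (nat_lit 172124) (nat_lit 14) (.e (nat_lit 491540) (nat_lit 3) (.e (nat_lit 98373) (nat_lit 29) (.e (nat_lit 450566) (nat_lit 0) (.e (nat_lit 3966) (nat_lit 239) .nil))))) (.g (nat_lit 0) (.e (nat_lit 196037) (nat_lit 0) .nil) .nil))) 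
(.lf (nat_lit 511488) (.g (nat_lit 1398) (.e (nat_lit 172126) (nat_lit 14) (.e (nat_lit 491568) (nat_lit 13) (.e (nat_lit 393281) (nat_lit 23) (.e (nat_lit 426098) (nat_lit 1) .nil)))) (.g (nat_lit 0) (.e (nat_lit 197270) (nat_lit 0) .nil) .nil)))) (.nd (nat_lit 9) 
(.lf (nat_lit 511232) (.g (nat_lit 2944) (.e (nat_lit 172126) (nat_lit 14) (.e (nat_lit 491537) (nat_lit 2) (.e (nat_lit 90170) (nat_lit 13) (.e (nat_lit 172113) (nat_lit 10) (.e (nat_lit 434238) (nat_lit 25) (.e (nat_lit 556800) (nat_lit 18) .nil)))))) (.g (nat_lit 1) (.e (nat_lit 196815) (nat_lit 0) .nil) .nil))) 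
(.lf (nat_lit 511744) (.g (nat_lit 2093) (.e (nat_lit 172143) (nat_lit 25) (.e (nat_lit 319491) (nat_lit 0) (.e (nat_lit 5664) (nat_lit 312) (.e (nat_lit 3085) (nat_lit 191) (.e (nat_lit 483346) (nat_lit 17) (.e (nat_lit 7936) (nat_lit 361) .nil)))))) (.g (nat_lit 1) (.e (nat_lit 198142) (nat_lit 0) .nil) .nil))))) (.nd (nat_lit 8) (.nd (nat_lit 9) 
(.lf (nat_lit 511104) (.g (nat_lit 665) (.e (nat_lit 172124) (nat_lit 14) (.e (nat_lit 491568) (nat_lit 13) (.e (nat_lit 393283) (nat_lit 24) .nil))) (.g (nat_lit 0) (.e (nat_lit 196238) (nat_lit 0) .nil) .nil))) 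
(.lf (nat_lit 511616) (.g (nat_lit 6450) (.e (nat_lit 172133) (nat_lit 15) (.e (nat_lit 2059) (nat_lit 142) (.e (nat_lit 704589) (nat_lit 3) (.e (nat_lit 163976) (nat_lit 30) (.e (nat_lit 573492) (nat_lit 15) (.e (nat_lit 81953) (nat_lit 22) (.e (nat_lit 90166) (nat_lit 13) .nil))))))) (.g (nat_lit 1) (.e (nat_lit 197941) (nat_lit 0) .nil) .nil)))) (.nd (nat_lit 9) 
(.lf (nat_lit 511360) (.g (nat_lit 1864) (.e (nat_lit 172126) (nat_lit 14) (.e (nat_lit 491547) (nat_lit 9) (.e (nat_lit 336432) (nat_lit 30) (.e (nat_lit 450593) (nat_lit 16) (.e (nat_lit 655376) (nat_lit 4) .nil))))) (.g (nat_lit 1) (.e (nat_lit 196989) (nat_lit 0) .nil) .nil))) 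
(.lf (nat_lit 511872) (.g (nat_lit 1721) (.e (nat_lit 172150) (nat_lit 27) (.e (nat_lit 336230) (nat_lit 14) (.e (nat_lit 401458) (nat_lit 13) (.e (nat_lit 483343) (nat_lit 17) (.e (nat_lit 6720) (nat_lit 361) .nil))))) (.g (nat_lit 0) (.e (nat_lit 198524) (nat_lit 0) .nil) .nil)))))) (.nd (nat_lit 7) (.nd (nat_lit 8) (.nd (nat_lit 9) 
(.lf (nat_lit 511040) (.g (nat_lit 2497) (.e (nat_lit 172124) (nat_lit 14) (.e (nat_lit 491549) (nat_lit 9) (.e (nat_lit 336434) (nat_lit 30) (.e (nat_lit 450593) (nat_lit 16) (.e (nat_lit 655377) (nat_lit 4) .nil))))) (.g (nat_lit 1) (.e (nat_lit 196143) (nat_lit 0) .nil) .nil))) 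
(.lf (nat_lit 511552) (.g (nat_lit 3213) (.e (nat_lit 172126) (nat_lit 14) (.e (nat_lit 491571) (nat_lit 13) (.e (nat_lit 393271) (nat_lit 23) (.e (nat_lit 426444) (nat_lit 19) (.e (nat_lit 114432) (nat_lit 4) .nil))))) (.g (nat_lit 1) (.e (nat_lit 197646) (nat_lit 0) .nil) .nil)))) (.nd (nat_lit 9) 
(.lf (nat_lit 511296) (.g (nat_lit 2578) (.e (nat_lit 172126) (nat_lit 14) (.e (nat_lit 491540) (nat_lit 3) (.e (nat_lit 98373) (nat_lit 29) (.e (nat_lit 450560) (nat_lit 0) (.e (nat_lit 3987) (nat_lit 239) .nil))))) (.g (nat_lit 0) (.e (nat_lit 196906) (nat_lit 0) .nil) .nil))) 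
(.lf (nat_lit 511808) (.g (nat_lit 1556) (.e (nat_lit 172149) (nat_lit 27) (.e (nat_lit 336051) (nat_lit 6) (.e (nat_lit 147496) (nat_lit 11) (.e (nat_lit 24608) (nat_lit 3) .nil)))) (.g (nat_lit 0) (.e (nat_lit 198348) (nat_lit 0) .nil) .nil))))) (.nd (nat_lit 8) (.nd (nat_lit 9) 
(.lf (nat_lit 511168) (.g (nat_lit 1684) (.e (nat_lit 172125) (nat_lit 14) (.e (nat_lit 491549) (nat_lit 9) (.e (nat_lit 336430) (nat_lit 29) (.e (nat_lit 442412) (nat_lit 20) .nil)))) (.g (nat_lit 0) (.e (nat_lit 196632) (nat_lit 0) .nil) .nil))) 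
(.lf (nat_lit 511680) (.g (nat_lit 1492) (.e (nat_lit 179968) (nat_lit 18) (.e (nat_lit 98325) (nat_lit 17) (.e (nat_lit 3409) (nat_lit 212) (.e (nat_lit 655364) (nat_lit 0) (.e (nat_lit 2685) (nat_lit 168) .nil))))) (.g (nat_lit 0) (.e (nat_lit 198051) (nat_lit 0) .nil) .nil)))) (.nd (nat_lit 9) 
(.lf (nat_lit 511424) (.g (nat_lit 3795) (.e (nat_lit 172126) (nat_lit 14) (.e (nat_lit 491549) (nat_lit 9) (.e (nat_lit 336443) (nat_lit 32) (.e (nat_lit 466969) (nat_lit 21) (.e (nat_lit 164348) (nat_lit 240) (.e (nat_lit 2619) (nat_lit 164) .nil)))))) (.g (nat_lit 1) (.e (nat_lit 197128) (nat_lit 0) .nil) .nil))) 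
(.lf (nat_lit 511936) (.g (nat_lit 1479) (.e (nat_lit 172150) (nat_lit 27) (.e (nat_lit 336387) (nat_lit 27) (.e (nat_lit 426188) (nat_lit 9) (.e (nat_lit 426436) (nat_lit 18) (.e (nat_lit 98334) (nat_lit 18) .nil))))) (.g (nat_lit 0) (.e (nat_lit 198639) (nat_lit 0) .nil) .nil))))))) (.nd (nat_lit 6) (.nd (nat_lit 7) (.nd (nat_lit 8) (.nd (nat_lit 9) 
(.lf (nat_lit 511008) (.g (nat_lit 3334) (.e (nat_lit 172124) (nat_lit 14) (.e (nat_lit 491549) (nat_lit 9) (.e (nat_lit 336430) (nat_lit 29) (.e (nat_lit 442419) (nat_lit 21) (.e (nat_lit 164346) (nat_lit 240) (.e (nat_lit 2618) (nat_lit 164) .nil)))))) (.g (nat_lit 1) (.e (nat_lit 196108) (nat_lit 0) .nil) .nil))) 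
(.lf (nat_lit 511520) (.g (nat_lit 979) (.e (nat_lit 172126) (nat_lit 14) (.e (nat_lit 491569) (nat_lit 13) (.e (nat_lit 393292) (nat_lit 26) .nil))) (.g (nat_lit 0) (.e (nat_lit 197355) (nat_lit 0) .nil) .nil)))) (.nd (nat_lit 9) 
(.lf (nat_lit 511264) (.g (nat_lit 1624) (.e (nat_lit 172126) (nat_lit 14) (.e (nat_lit 491540) (nat_lit 3) (.e (nat_lit 98365) (nat_lit 26) (.e (nat_lit 426198) (nat_lit 9) (.e (nat_lit 426402) (nat_lit 15) .nil))))) (.g (nat_lit 0) (.e (nat_lit 196856) (nat_lit 0) .nil) .nil))) 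
(.lf (nat_lit 511776) (.g (nat_lit 1593) (.e (nat_lit 172147) (nat_lit 27) (.e (nat_lit 335894) (nat_lit 0) (.e (nat_lit 6712) (nat_lit 360) (.e (nat_lit 163976) (nat_lit 30) .nil)))) (.g (nat_lit 0) (.e (nat_lit 198243) (nat_lit 0) .nil) .nil))))) (.nd (nat_lit 8) (.nd (nat_lit 9) 
(.lf (nat_lit 511136) (.g (nat_lit 2422) (.e (nat_lit 172124) (nat_lit 14) (.e (nat_lit 491570) (nat_lit 13) (.e (nat_lit 393282) (nat_lit 24) (.e (nat_lit 434272) (nat_lit 38) (.e (nat_lit 655376) (nat_lit 4) .nil))))) (.g (nat_lit 1) (.e (nat_lit 196350) (nat_lit 0) .nil) .nil))) 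
(.lf (nat_lit 511648) (.g (nat_lit 2133) (.e (nat_lit 172136) (nat_lit 15) (.e (nat_lit 1856) (nat_lit 124) (.e (nat_lit 557101) (nat_lit 13) (.e (nat_lit 172115) (nat_lit 10) (.e (nat_lit 434227) (nat_lit 20) .nil))))) (.g (nat_lit 0) (.e (nat_lit 198002) (nat_lit 0) .nil) .nil)))) (.nd (nat_lit 9) 
(.lf (nat_lit 511392) (.g (nat_lit 1375) (.e (nat_lit 172126) (nat_lit 14) (.e (nat_lit 491549) (nat_lit 9) (.e (nat_lit 336430) (nat_lit 29) (.e (nat_lit 442411) (nat_lit 20) .nil)))) (.g (nat_lit 0) (.e (nat_lit 197084) (nat_lit 0) .nil) .nil))) 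
(.lf (nat_lit 511904) (.g (nat_lit 2528) (.e (nat_lit 172150) (nat_lit 27) (.e (nat_lit 336231) (nat_lit 14) (.e (nat_lit 401456) (nat_lit 13) (.e (nat_lit 483344) (nat_lit 17) (.e (nat_lit 6718) (nat_lit 361) .nil))))) (.g (nat_lit 1) (.e (nat_lit 198579) (nat_lit 0) .nil) .nil)))))) (.nd (nat_lit 7) (.nd (nat_lit 8) (.nd (nat_lit 9) 
(.lf (nat_lit 511072) (.g (nat_lit 411) (.e (nat_lit 172124) (nat_lit 14) (.e (nat_lit 491550) (nat_lit 9) (.e (nat_lit 336432) (nat_lit 30) .nil))) (.g (nat_lit 0) (.e (nat_lit 196183) (nat_lit 0) .nil) .nil))) 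
(.lf (nat_lit 511584) (.g (nat_lit 2305) (.e (nat_lit 172133) (nat_lit 15) (.e (nat_lit 1800) (nat_lit 119) (.e (nat_lit 516120) (nat_lit 1) (.e (nat_lit 164329) (nat_lit 230) (.e (nat_lit 163850) (nat_lit 0) (.e (nat_lit 3252) (nat_lit 197) (.e (nat_lit 532515) (nat_lit 3) (.e (nat_lit 114716) (nat_lit 22) (.e (nat_lit 90168) (nat_lit 13) .nil))))))))) (.g (nat_lit 1) (.e (nat_lit 197887) (nat_lit 0) .nil) .nil)))) 
(.nd (nat_lit 9) 
(.lf (nat_lit 511328) (.g (nat_lit 4594) (.e (nat_lit 172126) (nat_lit 14) (.e (nat_lit 491540) (nat_lit 3) (.e (nat_lit 98373) (nat_lit 29) (.e (nat_lit 450563) (nat_lit 0) (.e (nat_lit 3955) (nat_lit 239) (.e (nat_lit 2626) (nat_lit 164) .nil)))))) (.g (nat_lit 1) (.e (nat_lit 196946) (nat_lit 0) .nil) .nil))) 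
(.lf (nat_lit 511840) (.g (nat_lit 1880) (.e (nat_lit 172150) (nat_lit 27) (.e (nat_lit 336194) (nat_lit 12) (.e (nat_lit 385106) (nat_lit 50) (.e (nat_lit 786473) (nat_lit 27) .nil)))) (.g (nat_lit 0) (.e (nat_lit 198473) (nat_lit 0) .nil) .nil))))) (.nd (nat_lit 8) (.nd (nat_lit 9) 
(.lf (nat_lit 511200) (.g (nat_lit 1395) (.e (nat_lit 172126) (nat_lit 14) (.e (nat_lit 491537) (nat_lit 2) (.e (nat_lit 90170) (nat_lit 13) (.e (nat_lit 172049) (nat_lit 0) .nil)))) (.g (nat_lit 0) (.e (nat_lit 196782) (nat_lit 0) .nil) .nil))) 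
(.lf (nat_lit 511712) (.g (nat_lit 2196) (.e (nat_lit 179968) (nat_lit 18) (.e (nat_lit 98367) (nat_lit 27) (.e (nat_lit 434248) (nat_lit 28) (.e (nat_lit 573482) (nat_lit 13) (.e (nat_lit 73472) (nat_lit 22) .nil))))) (.g (nat_lit 0) (.e (nat_lit 198103) (nat_lit 0) .nil) .nil)))) (.nd (nat_lit 9) 
(.lf (nat_lit 511456) (.g (nat_lit 2700) (.e (nat_lit 172126) (nat_lit 14) (.e (nat_lit 491550) (nat_lit 9) (.e (nat_lit 336434) (nat_lit 30) (.e (nat_lit 450564) (nat_lit 0) (.e (nat_lit 5546) (nat_lit 306) (.e (nat_lit 2629) (nat_lit 164) .nil)))))) (.g (nat_lit 1) (.e (nat_lit 197182) (nat_lit 0) .nil) .nil))) 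
(.lf (nat_lit 511968) (.g (nat_lit 1646) (.e (nat_lit 179968) (nat_lit 27) (.e (nat_lit 336235) (nat_lit 14) (.e (nat_lit 401438) (nat_lit 9) (.e (nat_lit 426533) (nat_lit 28) (.e (nat_lit 352000) (nat_lit 4) .nil))))) (.g (nat_lit 0) (.e (nat_lit 198708) (nat_lit 0) .nil) .nil)))))))) (.nd (nat_lit 5) (.nd (nat_lit 6) (.nd (nat_lit 7) (.nd (nat_lit 8) (.nd (nat_lit 9) 
(.lf (nat_lit 510992) (.g (nat_lit 1606) (.e (nat_lit 172124) (nat_lit 14) (.e (nat_lit 491549) (nat_lit 9) (.e (nat_lit 336426) (nat_lit 29) (.e (nat_lit 442419) (nat_lit 21) (.e (nat_lit 164348) (nat_lit 240) .nil))))) (.g (nat_lit 0) (.e (nat_lit 196083) (nat_lit 0) .nil) .nil))) 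
(.lf (nat_lit 511504) (.g (nat_lit 2857) (.e (nat_lit 172126) (nat_lit 14) (.e (nat_lit 491568) (nat_lit 13) (.e (nat_lit 393283) (nat_lit 24) (.e (nat_lit 434272) (nat_lit 38) (.e (nat_lit 655377) (nat_lit 4) .nil))))) (.g (nat_lit 1) (.e (nat_lit 197289) (nat_lit 0) .nil) .nil)))) (.nd (nat_lit 9) 
(.lf (nat_lit 511248) (.g (nat_lit 2133) (.e (nat_lit 172126) (nat_lit 14) (.e (nat_lit 491537) (nat_lit 2) (.e (nat_lit 90185) (nat_lit 17) (.e (nat_lit 237616) (nat_lit 12) (.e (nat_lit 475183) (nat_lit 29) (.e (nat_lit 557096) (nat_lit 13) .nil)))))) (.g (nat_lit 1) (.e (nat_lit 196835) (nat_lit 0) .nil) .nil))) 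
(.lf (nat_lit 511760) (.g (nat_lit 1584) (.e (nat_lit 172144) (nat_lit 26) (.e (nat_lit 327716) (nat_lit 16) (.e (nat_lit 286761) (nat_lit 13) (.e (nat_lit 393234) (nat_lit 17) .nil)))) (.g (nat_lit 0) (.e (nat_lit 198215) (nat_lit 0) .nil) .nil))))) (.nd (nat_lit 8) (.nd (nat_lit 9) 
(.lf (nat_lit 511120) (.g (nat_lit 2439) (.e (nat_lit 172124) (nat_lit 14) (.e (nat_lit 491569) (nat_lit 13) (.e (nat_lit 393283) (nat_lit 24) (.e (nat_lit 434272) (nat_lit 38) (.e (nat_lit 655376) (nat_lit 4) .nil))))) (.g (nat_lit 1) (.e (nat_lit 196285) (nat_lit 0) .nil) .nil))) 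
(.lf (nat_lit 511632) (.g (nat_lit 4661) (.e (nat_lit 172133) (nat_lit 15) (.e (nat_lit 2059) (nat_lit 142) (.e (nat_lit 704589) (nat_lit 3) (.e (nat_lit 163979) (nat_lit 30) (.e (nat_lit 573493) (nat_lit 15) (.e (nat_lit 81953) (nat_lit 22) (.e (nat_lit 98048) (nat_lit 13) .nil))))))) (.g (nat_lit 1) (.e (nat_lit 197975) (nat_lit 0) .nil) .nil)))) (.nd (nat_lit 9) 
(.lf (nat_lit 511376) (.g (nat_lit 2521) (.e (nat_lit 172126) (nat_lit 14) (.e (nat_lit 491549) (nat_lit 9) (.e (nat_lit 336395) (nat_lit 27) (.e (nat_lit 426317) (nat_lit 12) (.e (nat_lit 475199) (nat_lit 40) (.e (nat_lit 704592) (nat_lit 4) .nil)))))) (.g (nat_lit 1) (.e (nat_lit 197051) (nat_lit 0) .nil) .nil))) 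
(.lf (nat_lit 511888) (.g (nat_lit 928) (.e (nat_lit 172150) (nat_lit 27) (.e (nat_lit 336231) (nat_lit 14) (.e (nat_lit 401443) (nat_lit 9) .nil))) (.g (nat_lit 0) (.e (nat_lit 198552) (nat_lit 0) .nil) .nil)))))) (.nd (nat_lit 7) (.nd (nat_lit 8) (.nd (nat_lit 9) 
(.lf (nat_lit 511056) (.g (nat_lit 1849) (.e (nat_lit 172124) (nat_lit 14) (.e (nat_lit 491550) (nat_lit 9) (.e (nat_lit 336369) (nat_lit 27) (.e (nat_lit 426214) (nat_lit 9) (.e (nat_lit 426025) (nat_lit 0) .nil))))) (.g (nat_lit 0) (.e (nat_lit 196160) (nat_lit 0) .nil) .nil))) 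
(.lf (nat_lit 511568) (.g (nat_lit 2034) (.e (nat_lit 172132) (nat_lit 15) (.e (nat_lit 1853) (nat_lit 124) (.e (nat_lit 557101) (nat_lit 13) (.e (nat_lit 172115) (nat_lit 10) (.e (nat_lit 434227) (nat_lit 20) .nil))))) (.g (nat_lit 0) (.e (nat_lit 197862) (nat_lit 0) .nil) .nil)))) (.nd (nat_lit 9) 
(.lf (nat_lit 511312) (.g (nat_lit 3929) (.e (nat_lit 172126) (nat_lit 14) (.e (nat_lit 491540) (nat_lit 3) (.e (nat_lit 98373) (nat_lit 29) (.e (nat_lit 450562) (nat_lit 0) (.e (nat_lit 3948) (nat_lit 239) (.e (nat_lit 7936) (nat_lit 164) .nil)))))) (.g (nat_lit 1) (.e (nat_lit 196927) (nat_lit 0) .nil) .nil))) 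
(.lf (nat_lit 511824) (.g (nat_lit 1263) (.e (nat_lit 172150) (nat_lit 27) (.e (nat_lit 335894) (nat_lit 0) (.e (nat_lit 6722) (nat_lit 362) (.e (nat_lit 180227) (nat_lit 0) .nil)))) (.g (nat_lit 0) (.e (nat_lit 198431) (nat_lit 0) .nil) .nil))))) (.nd (nat_lit 8) (.nd (nat_lit 9) 
(.lf (nat_lit 511184) (.g (nat_lit 2296) (.e (nat_lit 172125) (nat_lit 14) (.e (nat_lit 491569) (nat_lit 13) (.e (nat_lit 393282) (nat_lit 24) (.e (nat_lit 434271) (nat_lit 38) (.e (nat_lit 655378) (nat_lit 4) .nil))))) (.g (nat_lit 1) (.e (nat_lit 196656) (nat_lit 0) .nil) .nil))) 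
(.lf (nat_lit 511696) (.g (nat_lit 2817) (.e (nat_lit 179968) (nat_lit 18) (.e (nat_lit 98366) (nat_lit 27) (.e (nat_lit 434244) (nat_lit 28) (.e (nat_lit 573488) (nat_lit 14) (.e (nat_lit 73757) (nat_lit 11) .nil))))) (.g (nat_lit 0) (.e (nat_lit 198087) (nat_lit 0) .nil) .nil)))) (.nd (nat_lit 9) 
(.lf (nat_lit 511440) (.g (nat_lit 409) (.e (nat_lit 172126) (nat_lit 14) (.e (nat_lit 491550) (nat_lit 9) (.e (nat_lit 336428) (nat_lit 29) .nil))) (.g (nat_lit 0) (.e (nat_lit 197151) (nat_lit 0) .nil) .nil))) 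
(.lf (nat_lit 511952) (.g (nat_lit 3107) (.e (nat_lit 172150) (nat_lit 27) (.e (nat_lit 336387) (nat_lit 27) (.e (nat_lit 426316) (nat_lit 12) (.e (nat_lit 475185) (nat_lit 29) (.e (nat_lit 557091) (nat_lit 12) (.e (nat_lit 164030) (nat_lit 53) (.e (nat_lit 761901) (nat_lit 16) .nil))))))) (.g (nat_lit 1) (.e (nat_lit 198686) (nat_lit 0) .nil) .nil))))))) 
(.nd (nat_lit 6) (.nd (nat_lit 7) (.nd (nat_lit 8) (.nd (nat_lit 9) 
(.lf (nat_lit 511024) (.g (nat_lit 415) (.e (nat_lit 172124) (nat_lit 14) (.e (nat_lit 491549) (nat_lit 9) (.e (nat_lit 336432) (nat_lit 30) .nil))) (.g (nat_lit 0) (.e (nat_lit 196124) (nat_lit 0) .nil) .nil))) 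
(.lf (nat_lit 511536) (.g (nat_lit 2324) (.e (nat_lit 172126) (nat_lit 14) (.e (nat_lit 491570) (nat_lit 13) (.e (nat_lit 393282) (nat_lit 24) (.e (nat_lit 434272) (nat_lit 38) (.e (nat_lit 655376) (nat_lit 4) .nil))))) (.g (nat_lit 1) (.e (nat_lit 197438) (nat_lit 0) .nil) .nil)))) (.nd (nat_lit 9) 
(.lf (nat_lit 511280) (.g (nat_lit 1296) (.e (nat_lit 172126) (nat_lit 14) (.e (nat_lit 491540) (nat_lit 3) (.e (nat_lit 98373) (nat_lit 29) (.e (nat_lit 450560) (nat_lit 0) .nil)))) (.g (nat_lit 0) (.e (nat_lit 196884) (nat_lit 0) .nil) .nil))) 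
(.lf (nat_lit 511792) (.g (nat_lit 2068) (.e (nat_lit 172147) (nat_lit 27) (.e (nat_lit 336231) (nat_lit 14) (.e (nat_lit 401458) (nat_lit 13) (.e (nat_lit 483344) (nat_lit 17) .nil)))) (.g (nat_lit 0) (.e (nat_lit 198273) (nat_lit 0) .nil) .nil))))) (.nd (nat_lit 8) (.nd (nat_lit 9) 
(.lf (nat_lit 511152) (.g (nat_lit 526) (.e (nat_lit 172124) (nat_lit 14) (.e (nat_lit 491571) (nat_lit 13) (.e (nat_lit 393287) (nat_lit 25) .nil))) (.g (nat_lit 0) (.e (nat_lit 196567) (nat_lit 0) .nil) .nil))) 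
(.lf (nat_lit 511664) (.g (nat_lit 947) (.e (nat_lit 172138) (nat_lit 15) (.e (nat_lit 2059) (nat_lit 142) (.e (nat_lit 704595) (nat_lit 5) (.e (nat_lit 188160) (nat_lit 37) .nil)))) (.g (nat_lit 0) (.e (nat_lit 198030) (nat_lit 0) .nil) .nil)))) (.nd (nat_lit 9) 
(.lf (nat_lit 511408) (.g (nat_lit 2900) (.e (nat_lit 172126) (nat_lit 14) (.e (nat_lit 491549) (nat_lit 9) (.e (nat_lit 336432) (nat_lit 30) (.e (nat_lit 450593) (nat_lit 16) (.e (nat_lit 655377) (nat_lit 4) .nil))))) (.g (nat_lit 1) (.e (nat_lit 197108) (nat_lit 0) .nil) .nil))) 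
(.lf (nat_lit 511920) (.g (nat_lit 407) (.e (nat_lit 172150) (nat_lit 27) (.e (nat_lit 336232) (nat_lit 14) (.e (nat_lit 401440) (nat_lit 9) .nil))) (.g (nat_lit 0) (.e (nat_lit 198601) (nat_lit 0) .nil) .nil)))))) (.nd (nat_lit 7) (.nd (nat_lit 8) (.nd (nat_lit 9) 
(.lf (nat_lit 511088) (.g (nat_lit 2308) (.e (nat_lit 172124) (nat_lit 14) (.e (nat_lit 491550) (nat_lit 9) (.e (nat_lit 336443) (nat_lit 32) (.e (nat_lit 466969) (nat_lit 21) (.e (nat_lit 164348) (nat_lit 240) (.e (nat_lit 2618) (nat_lit 164) .nil)))))) (.g (nat_lit 1) (.e (nat_lit 196199) (nat_lit 0) .nil) .nil))) 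
(.lf (nat_lit 511600) (.g (nat_lit 3216) (.e (nat_lit 172133) (nat_lit 15) (.e (nat_lit 1856) (nat_lit 124) (.e (nat_lit 557109) (nat_lit 15) (.e (nat_lit 188450) (nat_lit 23) (.e (nat_lit 204821) (nat_lit 17) .nil))))) (.g (nat_lit 0) (.e (nat_lit 197914) (nat_lit 0) .nil) .nil)))) (.nd (nat_lit 9) 
(.lf (nat_lit 511344) (.g (nat_lit 3523) (.e (nat_lit 172126) (nat_lit 14) (.e (nat_lit 491540) (nat_lit 3) (.e (nat_lit 98373) (nat_lit 29) (.e (nat_lit 450569) (nat_lit 0) (.e (nat_lit 3978) (nat_lit 239) (.e (nat_lit 2628) (nat_lit 164) .nil)))))) (.g (nat_lit 1) (.e (nat_lit 196964) (nat_lit 0) .nil) .nil))) 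
(.lf (nat_lit 511856) (.g (nat_lit 1678) (.e (nat_lit 172150) (nat_lit 27) (.e (nat_lit 336229) (nat_lit 14) (.e (nat_lit 401458) (nat_lit 13) (.e (nat_lit 483342) (nat_lit 17) (.e (nat_lit 6718) (nat_lit 361) .nil))))) (.g (nat_lit 0) (.e (nat_lit 198502) (nat_lit 0) .nil) .nil))))) (.nd (nat_lit 8) (.nd (nat_lit 9) 
(.lf (nat_lit 511216) (.g (nat_lit 3585) (.e (nat_lit 172126) (nat_lit 14) (.e (nat_lit 491537) (nat_lit 2) (.e (nat_lit 90170) (nat_lit 13) (.e (nat_lit 172106) (nat_lit 10) (.e (nat_lit 434238) (nat_lit 25) (.e (nat_lit 556800) (nat_lit 18) .nil)))))) (.g (nat_lit 1) (.e (nat_lit 196798) (nat_lit 0) .nil) .nil))) 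
(.lf (nat_lit 511728) (.g (nat_lit 1419) (.e (nat_lit 172143) (nat_lit 25) (.e (nat_lit 319490) (nat_lit 0) (.e (nat_lit 5664) (nat_lit 312) (.e (nat_lit 3078) (nat_lit 191) (.e (nat_lit 483345) (nat_lit 17) .nil))))) (.g (nat_lit 0) (.e (nat_lit 198126) (nat_lit 0) .nil) .nil)))) (.nd (nat_lit 9) 
(.lf (nat_lit 511472) (.g (nat_lit 1169) (.e (nat_lit 172126) (nat_lit 14) (.e (nat_lit 491566) (nat_lit 12) (.e (nat_lit 385050) (nat_lit 21) .nil))) (.g (nat_lit 0) (.e (nat_lit 197224) (nat_lit 0) .nil) .nil))) 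
(.lf (nat_lit 511984) (.g (nat_lit 1047) (.e (nat_lit 179968) (nat_lit 28) (.e (nat_lit 344068) (nat_lit 0) (.e (nat_lit 3090) (nat_lit 191) (.e (nat_lit 483354) (nat_lit 17) (.e (nat_lit 7936) (nat_lit 361) .nil))))) (.g (nat_lit 0) (.e (nat_lit 198726) (nat_lit 0) .nil) .nil))))))))) (.nd (nat_lit 4) (.nd (nat_lit 5) (.nd (nat_lit 6) (.nd (nat_lit 7) (.nd (nat_lit 8) (.nd (nat_lit 9) 
(.lf (nat_lit 510984) (.g (nat_lit 2928) (.e (nat_lit 172124) (nat_lit 14) (.e (nat_lit 491540) (nat_lit 3) (.e (nat_lit 98373) (nat_lit 29) (.e (nat_lit 450569) (nat_lit 0) (.e (nat_lit 3978) (nat_lit 239) .nil))))) (.g (nat_lit 0) (.e (nat_lit 196045) (nat_lit 0) .nil) .nil))) 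
(.lf (nat_lit 511496) (.g (nat_lit 1944) (.e (nat_lit 172126) (nat_lit 14) (.e (nat_lit 491568) (nat_lit 13) (.e (nat_lit 393282) (nat_lit 24) (.e (nat_lit 434202) (nat_lit 18) (.e (nat_lit 5537) (nat_lit 306) .nil))))) (.g (nat_lit 0) (.e (nat_lit 197278) (nat_lit 0) .nil) .nil)))) (.nd (nat_lit 9) 
(.lf (nat_lit 511240) (.g (nat_lit 4226) (.e (nat_lit 172126) (nat_lit 14) (.e (nat_lit 491537) (nat_lit 2) (.e (nat_lit 90170) (nat_lit 13) (.e (nat_lit 172126) (nat_lit 14) (.e (nat_lit 491537) (nat_lit 2) (.e (nat_lit 90167) (nat_lit 13) .nil)))))) (.g (nat_lit 1) (.e (nat_lit 196823) (nat_lit 0) .nil) .nil))) 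
(.lf (nat_lit 511752) (.g (nat_lit 2366) (.e (nat_lit 172144) (nat_lit 26) (.e (nat_lit 327700) (nat_lit 8) (.e (nat_lit 303144) (nat_lit 13) (.e (nat_lit 483346) (nat_lit 17) (.e (nat_lit 6718) (nat_lit 361) .nil))))) (.g (nat_lit 1) (.e (nat_lit 198206) (nat_lit 0) .nil) .nil))))) (.nd (nat_lit 8) (.nd (nat_lit 9) 
(.lf (nat_lit 511112) (.g (nat_lit 876) (.e (nat_lit 172124) (nat_lit 14) (.e (nat_lit 491569) (nat_lit 13) (.e (nat_lit 393276) (nat_lit 23) (.e (nat_lit 426025) (nat_lit 0) .nil)))) (.g (nat_lit 0) (.e (nat_lit 196253) (nat_lit 0) .nil) .nil))) 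
(.lf (nat_lit 511624) (.g (nat_lit 6409) (.e (nat_lit 172133) (nat_lit 15) (.e (nat_lit 2059) (nat_lit 142) (.e (nat_lit 704589) (nat_lit 3) (.e (nat_lit 163979) (nat_lit 30) (.e (nat_lit 573482) (nat_lit 13) (.e (nat_lit 65619) (nat_lit 10) (.e (nat_lit 344107) (nat_lit 19) (.e (nat_lit 499916) (nat_lit 9) .nil)))))))) (.g (nat_lit 1) (.e (nat_lit 197955) (nat_lit 0) .nil) .nil)))) 
(.nd (nat_lit 9) 
(.lf (nat_lit 511368) (.g (nat_lit 1830) (.e (nat_lit 172126) (nat_lit 14) (.e (nat_lit 491547) (nat_lit 9) (.e (nat_lit 336443) (nat_lit 32) (.e (nat_lit 466982) (nat_lit 24) .nil)))) (.g (nat_lit 0) (.e (nat_lit 196998) (nat_lit 0) .nil) .nil))) 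
(.lf (nat_lit 511880) (.g (nat_lit 1953) (.e (nat_lit 172150) (nat_lit 27) (.e (nat_lit 336231) (nat_lit 14) (.e (nat_lit 401436) (nat_lit 9) (.e (nat_lit 426533) (nat_lit 28) (.e (nat_lit 352000) (nat_lit 4) .nil))))) (.g (nat_lit 1) (.e (nat_lit 198538) (nat_lit 0) .nil) .nil)))))) (.nd (nat_lit 7) (.nd (nat_lit 8) (.nd (nat_lit 9) 
(.lf (nat_lit 511048) (.g (nat_lit 1990) (.e (nat_lit 172124) (nat_lit 14) (.e (nat_lit 491549) (nat_lit 9) (.e (nat_lit 336443) (nat_lit 32) (.e (nat_lit 466970) (nat_lit 21) .nil)))) (.g (nat_lit 0) (.e (nat_lit 196152) (nat_lit 0) .nil) .nil))) 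
(.lf (nat_lit 511560) (.g (nat_lit 665) (.e (nat_lit 172131) (nat_lit 15) (.e (nat_lit 1800) (nat_lit 119) (.e (nat_lit 516120) (nat_lit 1) .nil))) (.g (nat_lit 0) (.e (nat_lit 197851) (nat_lit 0) .nil) .nil)))) (.nd (nat_lit 9) 
(.lf (nat_lit 511304) (.g (nat_lit 2653) (.e (nat_lit 172126) (nat_lit 14) (.e (nat_lit 491540) (nat_lit 3) (.e (nat_lit 98373) (nat_lit 29) (.e (nat_lit 450560) (nat_lit 0) (.e (nat_lit 3966) (nat_lit 239) .nil))))) (.g (nat_lit 0) (.e (nat_lit 196916) (nat_lit 0) .nil) .nil))) 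
(.lf (nat_lit 511816) (.g (nat_lit 2207) (.e (nat_lit 172149) (nat_lit 27) (.e (nat_lit 336235) (nat_lit 14) (.e (nat_lit 401459) (nat_lit 13) (.e (nat_lit 483354) (nat_lit 17) (.e (nat_lit 7936) (nat_lit 361) .nil))))) (.g (nat_lit 0) (.e (nat_lit 198359) (nat_lit 0) .nil) .nil))))) (.nd (nat_lit 8) (.nd (nat_lit 9) 
(.lf (nat_lit 511176) (.g (nat_lit 1252) (.e (nat_lit 172125) (nat_lit 14) (.e (nat_lit 491566) (nat_lit 12) (.e (nat_lit 385109) (nat_lit 51) .nil))) (.g (nat_lit 0) (.e (nat_lit 196647) (nat_lit 0) .nil) .nil))) 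
(.lf (nat_lit 511688) (.g (nat_lit 1924) (.e (nat_lit 179968) (nat_lit 18) (.e (nat_lit 98335) (nat_lit 18) (.e (nat_lit 164330) (nat_lit 230) (.e (nat_lit 163853) (nat_lit 0) .nil)))) (.g (nat_lit 0) (.e (nat_lit 198077) (nat_lit 0) .nil) .nil)))) (.nd (nat_lit 9) 
(.lf (nat_lit 511432) (.g (nat_lit 3177) (.e (nat_lit 172126) (nat_lit 14) (.e (nat_lit 491550) (nat_lit 9) (.e (nat_lit 336369) (nat_lit 27) (.e (nat_lit 426310) (nat_lit 12) (.e (nat_lit 475199) (nat_lit 40) (.e (nat_lit 704592) (nat_lit 4) .nil)))))) (.g (nat_lit 1) (.e (nat_lit 197139) (nat_lit 0) .nil) .nil))) 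
(.lf (nat_lit 511944) (.g (nat_lit 1764) (.e (nat_lit 172150) (nat_lit 27) (.e (nat_lit 336387) (nat_lit 27) (.e (nat_lit 426200) (nat_lit 9) (.e (nat_lit 426131) (nat_lit 3) (.e (nat_lit 204830) (nat_lit 18) .nil))))) (.g (nat_lit 0) (.e (nat_lit 198651) (nat_lit 0) .nil) .nil))))))) (.nd (nat_lit 6) (.nd (nat_lit 7) (.nd (nat_lit 8) (.nd (nat_lit 9) 
(.lf (nat_lit 511016) (.g (nat_lit 3520) (.e (nat_lit 172124) (nat_lit 14) (.e (nat_lit 491549) (nat_lit 9) (.e (nat_lit 336430) (nat_lit 29) (.e (nat_lit 442421) (nat_lit 21) (.e (nat_lit 164348) (nat_lit 240) (.e (nat_lit 2628) (nat_lit 164) .nil)))))) (.g (nat_lit 1) (.e (nat_lit 196116) (nat_lit 0) .nil) .nil))) 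
(.lf (nat_lit 511528) (.g (nat_lit 2383) (.e (nat_lit 172126) (nat_lit 14) (.e (nat_lit 491569) (nat_lit 13) (.e (nat_lit 393296) (nat_lit 26) (.e (nat_lit 475197) (nat_lit 40) (.e (nat_lit 704592) (nat_lit 4) .nil))))) (.g (nat_lit 1) (.e (nat_lit 197367) (nat_lit 0) .nil) .nil)))) (.nd (nat_lit 9) 
(.lf (nat_lit 511272) (.g (nat_lit 1989) (.e (nat_lit 172126) (nat_lit 14) (.e (nat_lit 491540) (nat_lit 3) (.e (nat_lit 98365) (nat_lit 26) (.e (nat_lit 426344) (nat_lit 14) (.e (nat_lit 491535) (nat_lit 2) .nil))))) (.g (nat_lit 0) (.e (nat_lit 196868) (nat_lit 0) .nil) .nil))) 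
(.lf (nat_lit 511784) (.g (nat_lit 1219) (.e (nat_lit 172147) (nat_lit 27) (.e (nat_lit 336226) (nat_lit 14) (.e (nat_lit 401459) (nat_lit 13) (.e (nat_lit 483344) (nat_lit 17) .nil)))) (.g (nat_lit 0) (.e (nat_lit 198261) (nat_lit 0) .nil) .nil))))) (.nd (nat_lit 8) (.nd (nat_lit 9) 
(.lf (nat_lit 511144) (.g (nat_lit 510) (.e (nat_lit 172124) (nat_lit 14) (.e (nat_lit 491571) (nat_lit 13) (.e (nat_lit 393266) (nat_lit 23) .nil))) (.g (nat_lit 0) (.e (nat_lit 196468) (nat_lit 0) .nil) .nil))) 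
(.lf (nat_lit 511656) (.g (nat_lit 1766) (.e (nat_lit 172138) (nat_lit 15) (.e (nat_lit 1856) (nat_lit 124) (.e (nat_lit 557101) (nat_lit 13) (.e (nat_lit 172115) (nat_lit 10) (.e (nat_lit 434227) (nat_lit 20) .nil))))) (.g (nat_lit 0) (.e (nat_lit 198019) (nat_lit 0) .nil) .nil)))) (.nd (nat_lit 9) 
(.lf (nat_lit 511400) (.g (nat_lit 4594) (.e (nat_lit 172126) (nat_lit 14) (.e (nat_lit 491549) (nat_lit 9) (.e (nat_lit 336430) (nat_lit 29) (.e (nat_lit 442428) (nat_lit 24) (.e (nat_lit 229663) (nat_lit 240) (.e (nat_lit 2630) (nat_lit 164) .nil)))))) (.g (nat_lit 1) (.e (nat_lit 197092) (nat_lit 0) .nil) .nil))) 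
(.lf (nat_lit 511912) (.g (nat_lit 1923) (.e (nat_lit 172150) (nat_lit 27) (.e (nat_lit 336231) (nat_lit 14) (.e (nat_lit 401458) (nat_lit 13) (.e (nat_lit 483359) (nat_lit 17) .nil)))) (.g (nat_lit 0) (.e (nat_lit 198591) (nat_lit 0) .nil) .nil)))))) (.nd (nat_lit 7) (.nd (nat_lit 8) (.nd (nat_lit 9) 
(.lf (nat_lit 511080) (.g (nat_lit 408) (.e (nat_lit 172124) (nat_lit 14) (.e (nat_lit 491550) (nat_lit 9) (.e (nat_lit 336434) (nat_lit 30) .nil))) (.g (nat_lit 0) (.e (nat_lit 196191) (nat_lit 0) .nil) .nil))) 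
(.lf (nat_lit 511592) (.g (nat_lit 1389) (.e (nat_lit 172133) (nat_lit 15) (.e (nat_lit 1856) (nat_lit 124) (.e (nat_lit 557097) (nat_lit 13) (.e (nat_lit 172115) (nat_lit 10) .nil)))) (.g (nat_lit 0) (.e (nat_lit 197904) (nat_lit 0) .nil) .nil)))) (.nd (nat_lit 9) 
(.lf (nat_lit 511336) (.g (nat_lit 3178) (.e (nat_lit 172126) (nat_lit 14) (.e (nat_lit 491540) (nat_lit 3) (.e (nat_lit 98373) (nat_lit 29) (.e (nat_lit 450565) (nat_lit 0) (.e (nat_lit 3966) (nat_lit 239) .nil))))) (.g (nat_lit 0) (.e (nat_lit 196955) (nat_lit 0) .nil) .nil))) 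
(.lf (nat_lit 511848) (.g (nat_lit 1492) (.e (nat_lit 172150) (nat_lit 27) (.e (nat_lit 336203) (nat_lit 12) (.e (nat_lit 385104) (nat_lit 50) (.e (nat_lit 786473) (nat_lit 27) (.e (nat_lit 335872) (nat_lit 0) .nil))))) (.g (nat_lit 0) (.e (nat_lit 198490) (nat_lit 0) .nil) .nil))))) (.nd (nat_lit 8) (.nd (nat_lit 9) 
(.lf (nat_lit 511208) (.g (nat_lit 2952) (.e (nat_lit 172126) (nat_lit 14) (.e (nat_lit 491537) (nat_lit 2) (.e (nat_lit 90170) (nat_lit 13) (.e (nat_lit 172106) (nat_lit 10) (.e (nat_lit 434202) (nat_lit 18) (.e (nat_lit 3970) (nat_lit 239) (.e (nat_lit 2626) (nat_lit 164) .nil))))))) (.g (nat_lit 1) (.e (nat_lit 196790) (nat_lit 0) .nil) .nil))) 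
(.lf (nat_lit 511720) (.g (nat_lit 504) (.e (nat_lit 172142) (nat_lit 24) (.e (nat_lit 163584) (nat_lit 6) (.e (nat_lit 188428) (nat_lit 20) (.e (nat_lit 3401) (nat_lit 211) (.e (nat_lit 647181) (nat_lit 3) (.e (nat_lit 171776) (nat_lit 205) .nil)))))) (.g (nat_lit 1) (.e (nat_lit 198116) (nat_lit 0) .nil) .nil)))) (.nd (nat_lit 9) 
(.lf (nat_lit 511464) (.g (nat_lit 3348) (.e (nat_lit 172126) (nat_lit 14) (.e (nat_lit 491550) (nat_lit 9) (.e (nat_lit 336443) (nat_lit 32) (.e (nat_lit 466971) (nat_lit 21) (.e (nat_lit 164345) (nat_lit 240) (.e (nat_lit 2618) (nat_lit 164) .nil)))))) (.g (nat_lit 1) (.e (nat_lit 197195) (nat_lit 0) .nil) .nil))) 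
(.lf (nat_lit 511976) (.g (nat_lit 2138) (.e (nat_lit 179968) (nat_lit 28) (.e (nat_lit 344068) (nat_lit 0) (.e (nat_lit 2856) (nat_lit 184) (.e (nat_lit 426530) (nat_lit 27) (.e (nat_lit 335872) (nat_lit 0) .nil))))) (.g (nat_lit 0) (.e (nat_lit 198718) (nat_lit 0) .nil) .nil)))))))) (.nd (nat_lit 5) (.nd (nat_lit 6) (.nd (nat_lit 7) (.nd (nat_lit 8) (.nd (nat_lit 9) 
(.lf (nat_lit 511000) (.g (nat_lit 1600) (.e (nat_lit 172124) (nat_lit 14) (.e (nat_lit 491549) (nat_lit 9) (.e (nat_lit 336428) (nat_lit 29) (.e (nat_lit 442420) (nat_lit 21) .nil)))) (.g (nat_lit 0) (.e (nat_lit 196094) (nat_lit 0) .nil) .nil))) 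
(.lf (nat_lit 511512) (.g (nat_lit 2355) (.e (nat_lit 172126) (nat_lit 14) (.e (nat_lit 491569) (nat_lit 13) (.e (nat_lit 393271) (nat_lit 23) (.e (nat_lit 426444) (nat_lit 19) (.e (nat_lit 114432) (nat_lit 4) .nil))))) (.g (nat_lit 1) (.e (nat_lit 197316) (nat_lit 0) .nil) .nil)))) (.nd (nat_lit 9) 
(.lf (nat_lit 511256) (.g (nat_lit 2583) (.e (nat_lit 172126) (nat_lit 14) (.e (nat_lit 491539) (nat_lit 3) (.e (nat_lit 98365) (nat_lit 26) (.e (nat_lit 426343) (nat_lit 14) (.e (nat_lit 491536) (nat_lit 2) (.e (nat_lit 90167) (nat_lit 13) .nil)))))) (.g (nat_lit 1) (.e (nat_lit 196845) (nat_lit 0) .nil) .nil))) 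
(.lf (nat_lit 511768) (.g (nat_lit 1794) (.e (nat_lit 172145) (nat_lit 27) (.e (nat_lit 336229) (nat_lit 14) (.e (nat_lit 401438) (nat_lit 9) (.e (nat_lit 426533) (nat_lit 28) .nil)))) (.g (nat_lit 0) (.e (nat_lit 198230) (nat_lit 0) .nil) .nil))))) (.nd (nat_lit 8) (.nd (nat_lit 9) 
(.lf (nat_lit 511128) (.g (nat_lit 1725) (.e (nat_lit 172124) (nat_lit 14) (.e (nat_lit 491570) (nat_lit 13) (.e (nat_lit 393267) (nat_lit 23) (.e (nat_lit 426444) (nat_lit 19) (.e (nat_lit 114432) (nat_lit 4) .nil))))) (.g (nat_lit 1) (.e (nat_lit 196311) (nat_lit 0) .nil) .nil))) 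
(.lf (nat_lit 511640) (.g (nat_lit 1576) (.e (nat_lit 172136) (nat_lit 15) (.e (nat_lit 1800) (nat_lit 119) (.e (nat_lit 516117) (nat_lit 1) (.e (nat_lit 164330) (nat_lit 230) .nil)))) (.g (nat_lit 0) (.e (nat_lit 197989) (nat_lit 0) .nil) .nil)))) (.nd (nat_lit 9) 
(.lf (nat_lit 511384) (.g (nat_lit 1375) (.e (nat_lit 172126) (nat_lit 14) (.e (nat_lit 491549) (nat_lit 9) (.e (nat_lit 336430) (nat_lit 29) (.e (nat_lit 442375) (nat_lit 0) .nil)))) (.g (nat_lit 0) (.e (nat_lit 197071) (nat_lit 0) .nil) .nil))) 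
(.lf (nat_lit 511896) (.g (nat_lit 1522) (.e (nat_lit 172150) (nat_lit 27) (.e (nat_lit 336231) (nat_lit 14) (.e (nat_lit 401446) (nat_lit 10) (.e (nat_lit 434203) (nat_lit 18) (.e (nat_lit 6416) (nat_lit 341) .nil))))) (.g (nat_lit 0) (.e (nat_lit 198563) (nat_lit 0) .nil) .nil)))))) (.nd (nat_lit 7) (.nd (nat_lit 8) (.nd (nat_lit 9) 
(.lf (nat_lit 511064) (.g (nat_lit 3120) (.e (nat_lit 172124) (nat_lit 14) (.e (nat_lit 491550) (nat_lit 9) (.e (nat_lit 336430) (nat_lit 29) (.e (nat_lit 442421) (nat_lit 21) (.e (nat_lit 164345) (nat_lit 240) (.e (nat_lit 2619) (nat_lit 164) .nil)))))) (.g (nat_lit 1) (.e (nat_lit 196175) (nat_lit 0) .nil) .nil))) 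
(.lf (nat_lit 511576) (.g (nat_lit 2343) (.e (nat_lit 172133) (nat_lit 15) (.e (nat_lit 1800) (nat_lit 119) (.e (nat_lit 516117) (nat_lit 1) (.e (nat_lit 164329) (nat_lit 230) (.e (nat_lit 163850) (nat_lit 0) (.e (nat_lit 3252) (nat_lit 197) (.e (nat_lit 532515) (nat_lit 3) (.e (nat_lit 114716) (nat_lit 22) (.e (nat_lit 90168) (nat_lit 13) .nil))))))))) (.g (nat_lit 1) (.e (nat_lit 197872) (nat_lit 0) .nil) .nil)))) 
(.nd (nat_lit 9) 
(.lf (nat_lit 511320) (.g (nat_lit 3490) (.e (nat_lit 172126) (nat_lit 14) (.e (nat_lit 491540) (nat_lit 3) (.e (nat_lit 98373) (nat_lit 29) (.e (nat_lit 450563) (nat_lit 0) (.e (nat_lit 3919) (nat_lit 239) .nil))))) (.g (nat_lit 0) (.e (nat_lit 196937) (nat_lit 0) .nil) .nil))) 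
(.lf (nat_lit 511832) (.g (nat_lit 549) (.e (nat_lit 172150) (nat_lit 27) (.e (nat_lit 336078) (nat_lit 9) (.e (nat_lit 336265) (nat_lit 15) .nil))) (.g (nat_lit 0) (.e (nat_lit 198461) (nat_lit 0) .nil) .nil))))) (.nd (nat_lit 8) (.nd (nat_lit 9) 
(.lf (nat_lit 511192) (.g (nat_lit 1614) (.e (nat_lit 172126) (nat_lit 14) (.e (nat_lit 491537) (nat_lit 2) (.e (nat_lit 90128) (nat_lit 9) (.e (nat_lit 3031) (nat_lit 188) .nil)))) (.g (nat_lit 0) (.e (nat_lit 196768) (nat_lit 0) .nil) .nil))) 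
(.lf (nat_lit 511704) (.g (nat_lit 2489) (.e (nat_lit 179968) (nat_lit 18) (.e (nat_lit 98367) (nat_lit 27) (.e (nat_lit 434244) (nat_lit 28) (.e (nat_lit 573488) (nat_lit 14) (.e (nat_lit 73757) (nat_lit 11) .nil))))) (.g (nat_lit 0) (.e (nat_lit 198095) (nat_lit 0) .nil) .nil)))) (.nd (nat_lit 9) 
(.lf (nat_lit 511448) (.g (nat_lit 3509) (.e (nat_lit 172126) (nat_lit 14) (.e (nat_lit 491550) (nat_lit 9) (.e (nat_lit 336430) (nat_lit 29) (.e (nat_lit 442421) (nat_lit 21) (.e (nat_lit 164348) (nat_lit 240) (.e (nat_lit 2619) (nat_lit 164) .nil)))))) (.g (nat_lit 1) (.e (nat_lit 197166) (nat_lit 0) .nil) .nil))) 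
(.lf (nat_lit 511960) (.g (nat_lit 1872) (.e (nat_lit 179968) (nat_lit 27) (.e (nat_lit 336226) (nat_lit 14) (.e (nat_lit 401459) (nat_lit 13) (.e (nat_lit 483344) (nat_lit 17) (.e (nat_lit 6718) (nat_lit 361) .nil))))) (.g (nat_lit 0) (.e (nat_lit 198698) (nat_lit 0) .nil) .nil))))))) (.nd (nat_lit 6) (.nd (nat_lit 7) (.nd (nat_lit 8) (.nd (nat_lit 9) 
(.lf (nat_lit 511032) (.g (nat_lit 1414) (.e (nat_lit 172124) (nat_lit 14) (.e (nat_lit 491549) (nat_lit 9) (.e (nat_lit 336434) (nat_lit 30) (.e (nat_lit 450560) (nat_lit 0) .nil)))) (.g (nat_lit 0) (.e (nat_lit 196134) (nat_lit 0) .nil) .nil))) 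
(.lf (nat_lit 511544) (.g (nat_lit 2085) (.e (nat_lit 172126) (nat_lit 14) (.e (nat_lit 491570) (nat_lit 13) (.e (nat_lit 393291) (nat_lit 26) (.e (nat_lit 475198) (nat_lit 40) (.e (nat_lit 704592) (nat_lit 4) .nil))))) (.g (nat_lit 1) (.e (nat_lit 197466) (nat_lit 0) .nil) .nil)))) (.nd (nat_lit 9) 
(.lf (nat_lit 511288) (.g (nat_lit 2922) (.e (nat_lit 172126) (nat_lit 14) (.e (nat_lit 491540) (nat_lit 3) (.e (nat_lit 98373) (nat_lit 29) (.e (nat_lit 450560) (nat_lit 0) (.e (nat_lit 3934) (nat_lit 239) (.e (nat_lit 2625) (nat_lit 164) .nil)))))) (.g (nat_lit 1) (.e (nat_lit 196895) (nat_lit 0) .nil) .nil))) 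
(.lf (nat_lit 511800) (.g (nat_lit 1145) (.e (nat_lit 172149) (nat_lit 27) (.e (nat_lit 336051) (nat_lit 6) (.e (nat_lit 147467) (nat_lit 9) (.e (nat_lit 297) (nat_lit 22) .nil)))) (.g (nat_lit 0) (.e (nat_lit 198339) (nat_lit 0) .nil) .nil))))) (.nd (nat_lit 8) (.nd (nat_lit 9) 
(.lf (nat_lit 511160) (.g (nat_lit 955) (.e (nat_lit 172125) (nat_lit 14) (.e (nat_lit 491537) (nat_lit 2) (.e (nat_lit 90175) (nat_lit 15) .nil))) (.g (nat_lit 0) (.e (nat_lit 196624) (nat_lit 0) .nil) .nil))) 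
(.lf (nat_lit 511672) (.g (nat_lit 1705) (.e (nat_lit 179968) (nat_lit 15) (.e (nat_lit 1853) (nat_lit 124) (.e (nat_lit 557101) (nat_lit 13) (.e (nat_lit 172115) (nat_lit 10) (.e (nat_lit 434227) (nat_lit 20) .nil))))) (.g (nat_lit 0) (.e (nat_lit 198040) (nat_lit 0) .nil) .nil)))) (.nd (nat_lit 9) 
(.lf (nat_lit 511416) (.g (nat_lit 3243) (.e (nat_lit 172126) (nat_lit 14) (.e (nat_lit 491549) (nat_lit 9) (.e (nat_lit 336434) (nat_lit 30) (.e (nat_lit 450568) (nat_lit 0) (.e (nat_lit 5448) (nat_lit 306) (.e (nat_lit 2630) (nat_lit 164) .nil)))))) (.g (nat_lit 1) (.e (nat_lit 197117) (nat_lit 0) .nil) .nil))) 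
(.lf (nat_lit 511928) (.g (nat_lit 1738) (.e (nat_lit 172150) (nat_lit 27) (.e (nat_lit 336232) (nat_lit 14) (.e (nat_lit 401444) (nat_lit 9) (.e (nat_lit 426549) (nat_lit 31) (.e (nat_lit 376576) (nat_lit 4) .nil))))) (.g (nat_lit 1) (.e (nat_lit 198621) (nat_lit 0) .nil) .nil)))))) (.nd (nat_lit 7) (.nd (nat_lit 8) (.nd (nat_lit 9) 
(.lf (nat_lit 511096) (.g (nat_lit 1265) (.e (nat_lit 172124) (nat_lit 14) (.e (nat_lit 491566) (nat_lit 12) (.e (nat_lit 385109) (nat_lit 51) .nil))) (.g (nat_lit 0) (.e (nat_lit 196227) (nat_lit 0) .nil) .nil))) 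
(.lf (nat_lit 511608) (.g (nat_lit 4019) (.e (nat_lit 172133) (nat_lit 15) (.e (nat_lit 2059) (nat_lit 142) (.e (nat_lit 704589) (nat_lit 3) (.e (nat_lit 163975) (nat_lit 30) (.e (nat_lit 573492) (nat_lit 15) (.e (nat_lit 81951) (nat_lit 22) (.e (nat_lit 90167) (nat_lit 13) .nil))))))) (.g (nat_lit 1) (.e (nat_lit 197929) (nat_lit 0) .nil) .nil)))) (.nd (nat_lit 9) 
(.lf (nat_lit 511352) (.g (nat_lit 641) (.e (nat_lit 172126) (nat_lit 14) (.e (nat_lit 491547) (nat_lit 9) (.e (nat_lit 336426) (nat_lit 29) .nil))) (.g (nat_lit 0) (.e (nat_lit 196976) (nat_lit 0) .nil) .nil))) 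
(.lf (nat_lit 511864) (.g (nat_lit 1953) (.e (nat_lit 172150) (nat_lit 27) (.e (nat_lit 336230) (nat_lit 14) (.e (nat_lit 401437) (nat_lit 9) (.e (nat_lit 426533) (nat_lit 28) (.e (nat_lit 352000) (nat_lit 4) .nil))))) (.g (nat_lit 1) (.e (nat_lit 198512) (nat_lit 0) .nil) .nil))))) (.nd (nat_lit 8) (.nd (nat_lit 9) 
(.lf (nat_lit 511224) (.g (nat_lit 2711) (.e (nat_lit 172126) (nat_lit 14) (.e (nat_lit 491537) (nat_lit 2) (.e (nat_lit 90170) (nat_lit 13) (.e (nat_lit 172113) (nat_lit 10) (.e (nat_lit 434207) (nat_lit 18) (.e (nat_lit 3955) (nat_lit 239) (.e (nat_lit 2626) (nat_lit 164) .nil))))))) (.g (nat_lit 1) (.e (nat_lit 196806) (nat_lit 0) .nil) .nil))) 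
(.lf (nat_lit 511736) (.g (nat_lit 1139) (.e (nat_lit 172143) (nat_lit 25) (.e (nat_lit 319490) (nat_lit 0) (.e (nat_lit 5771) (nat_lit 316) (.e (nat_lit 172144) (nat_lit 26) (.e (nat_lit 327683) (nat_lit 0) (.e (nat_lit 5772) (nat_lit 316) .nil)))))) (.g (nat_lit 1) (.e (nat_lit 198134) (nat_lit 0) .nil) .nil)))) (.nd (nat_lit 9) 
(.lf (nat_lit 511480) (.g (nat_lit 1102) (.e (nat_lit 172126) (nat_lit 14) (.e (nat_lit 491568) (nat_lit 13) (.e (nat_lit 393271) (nat_lit 23) (.e (nat_lit 426444) (nat_lit 19) .nil)))) (.g (nat_lit 0) (.e (nat_lit 197260) (nat_lit 0) .nil) .nil))) 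
(.lf (nat_lit 511992) (.g (nat_lit 1149) (.e (nat_lit 179968) (nat_lit 28) (.e (nat_lit 344069) (nat_lit 0) (.e (nat_lit 3090) (nat_lit 191) (.e (nat_lit 483347) (nat_lit 17) (.e (nat_lit 7936) (nat_lit 361) .nil))))) (.g (nat_lit 0) (.e (nat_lit 198735) (nat_lit 0) .nil) .nil)))))))))) 
(.nd (nat_lit 3) (.nd (nat_lit 4) (.nd (nat_lit 5) (.nd (nat_lit 6) (.nd (nat_lit 7) 
(.nd (nat_lit 8) (.nd (nat_lit 9) 
(.lf (nat_lit 510980) (.g (nat_lit 2868) (.e (nat_lit 172124) (nat_lit 14) (.e (nat_lit 491540) (nat_lit 3) (.e (nat_lit 98373) (nat_lit 29) (.e (nat_lit 450568) (nat_lit 0) (.e (nat_lit 3978) (nat_lit 239) .nil))))) (.g (nat_lit 0) (.e (nat_lit 196041) (nat_lit 0) .nil) .nil))) 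
(.lf (nat_lit 511492) (.g (nat_lit 1563) (.e (nat_lit 172126) (nat_lit 14) (.e (nat_lit 491568) (nat_lit 13) (.e (nat_lit 393281) (nat_lit 23) (.e (nat_lit 426107) (nat_lit 1) .nil)))) (.g (nat_lit 0) (.e (nat_lit 197274) (nat_lit 0) .nil) .nil)))) (.nd (nat_lit 9) 
(.lf (nat_lit 511236) (.g (nat_lit 3604) (.e (nat_lit 172126) (nat_lit 14) (.e (nat_lit 491537) (nat_lit 2) (.e (nat_lit 90170) (nat_lit 13) (.e (nat_lit 172120) (nat_lit 12) (.e (nat_lit 475185) (nat_lit 29) (.e (nat_lit 557098) (nat_lit 13) .nil)))))) (.g (nat_lit 1) (.e (nat_lit 196819) (nat_lit 0) .nil) .nil))) 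
(.lf (nat_lit 511748) (.g (nat_lit 1067) (.e (nat_lit 179968) (nat_lit 25) (.e (nat_lit 319490) (nat_lit 0) (.e (nat_lit 5664) (nat_lit 312) (.e (nat_lit 3085) (nat_lit 191) .nil)))) (.g (nat_lit 0) (.e (nat_lit 198146) (nat_lit 0) .nil) .nil))))) (.nd (nat_lit 8) (.nd (nat_lit 9) 
(.lf (nat_lit 511108) (.g (nat_lit 691) (.e (nat_lit 172124) (nat_lit 14) (.e (nat_lit 491569) (nat_lit 13) (.e (nat_lit 393270) (nat_lit 23) .nil))) (.g (nat_lit 0) (.e (nat_lit 196246) (nat_lit 0) .nil) .nil))) 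
(.lf (nat_lit 511620) (.g (nat_lit 3154) (.e (nat_lit 172133) (nat_lit 15) (.e (nat_lit 2059) (nat_lit 142) (.e (nat_lit 704589) (nat_lit 3) (.e (nat_lit 163978) (nat_lit 30) (.e (nat_lit 573490) (nat_lit 15) .nil))))) (.g (nat_lit 0) (.e (nat_lit 197951) (nat_lit 0) .nil) .nil)))) (.nd (nat_lit 9) 
(.lf (nat_lit 511364) (.g (nat_lit 3222) (.e (nat_lit 172126) (nat_lit 14) (.e (nat_lit 491547) (nat_lit 9) (.e (nat_lit 336443) (nat_lit 32) (.e (nat_lit 466969) (nat_lit 21) (.e (nat_lit 164345) (nat_lit 240) (.e (nat_lit 2617) (nat_lit 164) .nil)))))) (.g (nat_lit 1) (.e (nat_lit 196993) (nat_lit 0) .nil) .nil))) 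
(.lf (nat_lit 511876) (.g (nat_lit 1911) (.e (nat_lit 172150) (nat_lit 27) (.e (nat_lit 336231) (nat_lit 14) (.e (nat_lit 401434) (nat_lit 9) (.e (nat_lit 426533) (nat_lit 28) (.e (nat_lit 352000) (nat_lit 4) .nil))))) (.g (nat_lit 1) (.e (nat_lit 198532) (nat_lit 0) .nil) .nil)))))) (.nd (nat_lit 7) (.nd (nat_lit 8) (.nd (nat_lit 9) 
(.lf (nat_lit 511044) (.g (nat_lit 1992) (.e (nat_lit 172124) (nat_lit 14) (.e (nat_lit 491549) (nat_lit 9) (.e (nat_lit 336443) (nat_lit 32) (.e (nat_lit 466969) (nat_lit 21) (.e (nat_lit 164346) (nat_lit 240) .nil))))) (.g (nat_lit 0) (.e (nat_lit 196148) (nat_lit 0) .nil) .nil))) 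
(.lf (nat_lit 511556) (.g (nat_lit 1934) (.e (nat_lit 172127) (nat_lit 15) (.e (nat_lit 6724) (nat_lit 362) (.e (nat_lit 180243) (nat_lit 5) (.e (nat_lit 532579) (nat_lit 26) (.e (nat_lit 426107) (nat_lit 1) .nil))))) (.g (nat_lit 0) (.e (nat_lit 197792) (nat_lit 0) .nil) .nil)))) (.nd (nat_lit 9) 
(.lf (nat_lit 511300) (.g (nat_lit 3272) (.e (nat_lit 172126) (nat_lit 14) (.e (nat_lit 491540) (nat_lit 3) (.e (nat_lit 98373) (nat_lit 29) (.e (nat_lit 450560) (nat_lit 0) (.e (nat_lit 3988) (nat_lit 239) (.e (nat_lit 2619) (nat_lit 164) .nil)))))) (.g (nat_lit 1) (.e (nat_lit 196910) (nat_lit 0) .nil) .nil))) 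
(.lf (nat_lit 511812) (.g (nat_lit 2174) (.e (nat_lit 172149) (nat_lit 27) (.e (nat_lit 336235) (nat_lit 14) (.e (nat_lit 401437) (nat_lit 9) (.e (nat_lit 426530) (nat_lit 27) (.e (nat_lit 335874) (nat_lit 0) .nil))))) (.g (nat_lit 0) (.e (nat_lit 198353) (nat_lit 0) .nil) .nil))))) (.nd (nat_lit 8) (.nd (nat_lit 9) 
(.lf (nat_lit 511172) (.g (nat_lit 1277) (.e (nat_lit 172125) (nat_lit 14) (.e (nat_lit 491566) (nat_lit 12) (.e (nat_lit 385032) (nat_lit 16) .nil))) (.g (nat_lit 0) (.e (nat_lit 196638) (nat_lit 0) .nil) .nil))) 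
(.lf (nat_lit 511684) (.g (nat_lit 1924) (.e (nat_lit 179968) (nat_lit 18) (.e (nat_lit 98335) (nat_lit 18) (.e (nat_lit 164330) (nat_lit 230) (.e (nat_lit 163840) (nat_lit 0) .nil)))) (.g (nat_lit 0) (.e (nat_lit 198070) (nat_lit 0) .nil) .nil)))) (.nd (nat_lit 9) 
(.lf (nat_lit 511428) (.g (nat_lit 2991) (.e (nat_lit 172126) (nat_lit 14) (.e (nat_lit 491549) (nat_lit 9) (.e (nat_lit 336443) (nat_lit 32) (.e (nat_lit 466972) (nat_lit 21) (.e (nat_lit 164345) (nat_lit 240) (.e (nat_lit 2618) (nat_lit 164) .nil)))))) (.g (nat_lit 1) (.e (nat_lit 197132) (nat_lit 0) .nil) .nil))) 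
(.lf (nat_lit 511940) (.g (nat_lit 716) (.e (nat_lit 172150) (nat_lit 27) (.e (nat_lit 336387) (nat_lit 27) (.e (nat_lit 426199) (nat_lit 9) (.e (nat_lit 426131) (nat_lit 3) .nil)))) (.g (nat_lit 0) (.e (nat_lit 198643) (nat_lit 0) .nil) .nil))))))) (.nd (nat_lit 6) (.nd (nat_lit 7) (.nd (nat_lit 8) (.nd (nat_lit 9) 
(.lf (nat_lit 511012) (.g (nat_lit 3066) (.e (nat_lit 172124) (nat_lit 14) (.e (nat_lit 491549) (nat_lit 9) (.e (nat_lit 336430) (nat_lit 29) (.e (nat_lit 442421) (nat_lit 21) (.e (nat_lit 164345) (nat_lit 240) (.e (nat_lit 2618) (nat_lit 164) .nil)))))) (.g (nat_lit 1) (.e (nat_lit 196112) (nat_lit 0) .nil) .nil))) 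
(.lf (nat_lit 511524) (.g (nat_lit 3184) (.e (nat_lit 172126) (nat_lit 14) (.e (nat_lit 491569) (nat_lit 13) (.e (nat_lit 393294) (nat_lit 26) (.e (nat_lit 475197) (nat_lit 40) (.e (nat_lit 704592) (nat_lit 4) .nil))))) (.g (nat_lit 1) (.e (nat_lit 197361) (nat_lit 0) .nil) .nil)))) (.nd (nat_lit 9) 
(.lf (nat_lit 511268) (.g (nat_lit 3354) (.e (nat_lit 172126) (nat_lit 14) (.e (nat_lit 491540) (nat_lit 3) (.e (nat_lit 98365) (nat_lit 26) (.e (nat_lit 426316) (nat_lit 12) (.e (nat_lit 475185) (nat_lit 29) (.e (nat_lit 557096) (nat_lit 13) .nil)))))) (.g (nat_lit 1) (.e (nat_lit 196861) (nat_lit 0) .nil) .nil))) 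
(.lf (nat_lit 511780) (.g (nat_lit 1957) (.e (nat_lit 172147) (nat_lit 27) (.e (nat_lit 335895) (nat_lit 0) (.e (nat_lit 6712) (nat_lit 360) (.e (nat_lit 163979) (nat_lit 30) (.e (nat_lit 573487) (nat_lit 14) .nil))))) (.g (nat_lit 0) (.e (nat_lit 198251) (nat_lit 0) .nil) .nil))))) (.nd (nat_lit 8) (.nd (nat_lit 9) 
(.lf (nat_lit 511140) (.g (nat_lit 2508) (.e (nat_lit 172124) (nat_lit 14) (.e (nat_lit 491570) (nat_lit 13) (.e (nat_lit 393284) (nat_lit 24) (.e (nat_lit 434271) (nat_lit 38) (.e (nat_lit 655378) (nat_lit 4) .nil))))) (.g (nat_lit 1) (.e (nat_lit 196366) (nat_lit 0) .nil) .nil))) 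
(.lf (nat_lit 511652) (.g (nat_lit 2859) (.e (nat_lit 172138) (nat_lit 15) (.e (nat_lit 1800) (nat_lit 119) (.e (nat_lit 516150) (nat_lit 9) (.e (nat_lit 426131) (nat_lit 3) (.e (nat_lit 204838) (nat_lit 20) .nil))))) (.g (nat_lit 0) (.e (nat_lit 198010) (nat_lit 0) .nil) .nil)))) (.nd (nat_lit 9) 
(.lf (nat_lit 511396) (.g (nat_lit 3977) (.e (nat_lit 172126) (nat_lit 14) (.e (nat_lit 491549) (nat_lit 9) (.e (nat_lit 336430) (nat_lit 29) (.e (nat_lit 442419) (nat_lit 21) (.e (nat_lit 164348) (nat_lit 240) (.e (nat_lit 2619) (nat_lit 164) .nil)))))) (.g (nat_lit 1) (.e (nat_lit 197088) (nat_lit 0) .nil) .nil))) 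
(.lf (nat_lit 511908) (.g (nat_lit 1575) (.e (nat_lit 172150) (nat_lit 27) (.e (nat_lit 336231) (nat_lit 14) (.e (nat_lit 401456) (nat_lit 13) (.e (nat_lit 483347) (nat_lit 17) .nil)))) (.g (nat_lit 0) (.e (nat_lit 198583) (nat_lit 0) .nil) .nil)))))) (.nd (nat_lit 7) (.nd (nat_lit 8) (.nd (nat_lit 9) 
(.lf (nat_lit 511076) (.g (nat_lit 2590) (.e (nat_lit 172124) (nat_lit 14) (.e (nat_lit 491550) (nat_lit 9) (.e (nat_lit 336432) (nat_lit 30) (.e (nat_lit 450569) (nat_lit 0) (.e (nat_lit 5448) (nat_lit 306) (.e (nat_lit 2630) (nat_lit 164) .nil)))))) (.g (nat_lit 1) (.e (nat_lit 196187) (nat_lit 0) .nil) .nil))) 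
(.lf (nat_lit 511588) (.g (nat_lit 2328) (.e (nat_lit 172133) (nat_lit 15) (.e (nat_lit 1800) (nat_lit 119) (.e (nat_lit 516149) (nat_lit 9) (.e (nat_lit 426323) (nat_lit 13) (.e (nat_lit 483363) (nat_lit 18) (.e (nat_lit 57660) (nat_lit 152) (.e (nat_lit 2631) (nat_lit 164) .nil))))))) (.g (nat_lit 1) (.e (nat_lit 197897) (nat_lit 0) .nil) .nil)))) (.nd (nat_lit 9) 
(.lf (nat_lit 511332) (.g (nat_lit 3357) (.e (nat_lit 172126) (nat_lit 14) (.e (nat_lit 491540) (nat_lit 3) (.e (nat_lit 98373) (nat_lit 29) (.e (nat_lit 450564) (nat_lit 0) (.e (nat_lit 3944) (nat_lit 239) .nil))))) (.g (nat_lit 0) (.e (nat_lit 196951) (nat_lit 0) .nil) .nil))) 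
(.lf (nat_lit 511844) (.g (nat_lit 1482) (.e (nat_lit 172150) (nat_lit 27) (.e (nat_lit 336196) (nat_lit 12) (.e (nat_lit 385105) (nat_lit 50) (.e (nat_lit 786475) (nat_lit 28) (.e (nat_lit 352000) (nat_lit 4) .nil))))) (.g (nat_lit 1) (.e (nat_lit 198482) (nat_lit 0) .nil) .nil))))) (.nd (nat_lit 8) (.nd (nat_lit 9) 
(.lf (nat_lit 511204) (.g (nat_lit 1822) (.e (nat_lit 172126) (nat_lit 14) (.e (nat_lit 491537) (nat_lit 2) (.e (nat_lit 90170) (nat_lit 13) (.e (nat_lit 172083) (nat_lit 8) .nil)))) (.g (nat_lit 0) (.e (nat_lit 196786) (nat_lit 0) .nil) .nil))) 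
(.lf (nat_lit 511716) (.g (nat_lit 2223) (.e (nat_lit 179968) (nat_lit 18) (.e (nat_lit 98386) (nat_lit 32) (.e (nat_lit 475179) (nat_lit 24) (.e (nat_lit 516146) (nat_lit 9) (.e (nat_lit 426432) (nat_lit 17) .nil))))) (.g (nat_lit 0) (.e (nat_lit 198109) (nat_lit 0) .nil) .nil)))) (.nd (nat_lit 9) 
(.lf (nat_lit 511460) (.g (nat_lit 2419) (.e (nat_lit 172126) (nat_lit 14) (.e (nat_lit 491550) (nat_lit 9) (.e (nat_lit 336434) (nat_lit 30) (.e (nat_lit 450593) (nat_lit 16) (.e (nat_lit 655376) (nat_lit 4) .nil))))) (.g (nat_lit 1) (.e (nat_lit 197189) (nat_lit 0) .nil) .nil))) 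
(.lf (nat_lit 511972) (.g (nat_lit 2854) (.e (nat_lit 179968) (nat_lit 27) (.e (nat_lit 336235) (nat_lit 14) (.e (nat_lit 401459) (nat_lit 13) (.e (nat_lit 483344) (nat_lit 17) (.e (nat_lit 6720) (nat_lit 361) .nil))))) (.g (nat_lit 0) (.e (nat_lit 198712) (nat_lit 0) .nil) .nil)))))))) (.nd (nat_lit 5) (.nd (nat_lit 6) (.nd (nat_lit 7) (.nd (nat_lit 8) (.nd (nat_lit 9) 
(.lf (nat_lit 510996) (.g (nat_lit 1302) (.e (nat_lit 172124) (nat_lit 14) (.e (nat_lit 491549) (nat_lit 9) (.e (nat_lit 336428) (nat_lit 29) (.e (nat_lit 442371) (nat_lit 0) .nil)))) (.g (nat_lit 0) (.e (nat_lit 196088) (nat_lit 0) .nil) .nil))) 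
(.lf (nat_lit 511508) (.g (nat_lit 1235) (.e (nat_lit 172126) (nat_lit 14) (.e (nat_lit 491568) (nat_lit 13) (.e (nat_lit 393290) (nat_lit 26) (.e (nat_lit 475199) (nat_lit 40) .nil)))) (.g (nat_lit 0) (.e (nat_lit 197295) (nat_lit 0) .nil) .nil)))) (.nd (nat_lit 9) 
(.lf (nat_lit 511252) (.g (nat_lit 2262) (.e (nat_lit 172126) (nat_lit 14) (.e (nat_lit 491539) (nat_lit 3) (.e (nat_lit 98363) (nat_lit 26) (.e (nat_lit 426318) (nat_lit 12) (.e (nat_lit 475185) (nat_lit 29) (.e (nat_lit 557096) (nat_lit 13) .nil)))))) (.g (nat_lit 1) (.e (nat_lit 196839) (nat_lit 0) .nil) .nil))) 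
(.lf (nat_lit 511764) (.g (nat_lit 1798) (.e (nat_lit 172145) (nat_lit 27) (.e (nat_lit 336226) (nat_lit 14) (.e (nat_lit 401437) (nat_lit 9) (.e (nat_lit 426533) (nat_lit 28) (.e (nat_lit 352000) (nat_lit 4) .nil))))) (.g (nat_lit 1) (.e (nat_lit 198226) (nat_lit 0) .nil) .nil))))) (.nd (nat_lit 8) (.nd (nat_lit 9) 
(.lf (nat_lit 511124) (.g (nat_lit 585) (.e (nat_lit 172124) (nat_lit 14) (.e (nat_lit 491569) (nat_lit 13) (.e (nat_lit 393294) (nat_lit 26) .nil))) (.g (nat_lit 0) (.e (nat_lit 196290) (nat_lit 0) .nil) .nil))) 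
(.lf (nat_lit 511636) (.g (nat_lit 1200) (.e (nat_lit 172133) (nat_lit 15) (.e (nat_lit 2175) (nat_lit 143) (.e (nat_lit 712755) (nat_lit 30) (.e (nat_lit 450562) (nat_lit 0) .nil)))) (.g (nat_lit 0) (.e (nat_lit 197984) (nat_lit 0) .nil) .nil)))) (.nd (nat_lit 9) 
(.lf (nat_lit 511380) (.g (nat_lit 2631) (.e (nat_lit 172126) (nat_lit 14) (.e (nat_lit 491549) (nat_lit 9) (.e (nat_lit 336426) (nat_lit 29) (.e (nat_lit 442421) (nat_lit 21) (.e (nat_lit 164347) (nat_lit 240) (.e (nat_lit 2617) (nat_lit 164) .nil)))))) (.g (nat_lit 1) (.e (nat_lit 197062) (nat_lit 0) .nil) .nil))) 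
(.lf (nat_lit 511892) (.g (nat_lit 888) (.e (nat_lit 172150) (nat_lit 27) (.e (nat_lit 336231) (nat_lit 14) (.e (nat_lit 401444) (nat_lit 9) (.e (nat_lit 433920) (nat_lit 27) .nil)))) (.g (nat_lit 0) (.e (nat_lit 198559) (nat_lit 0) .nil) .nil)))))) (.nd (nat_lit 7) (.nd (nat_lit 8) (.nd (nat_lit 9) 
(.lf (nat_lit 511060) (.g (nat_lit 2711) (.e (nat_lit 172124) (nat_lit 14) (.e (nat_lit 491550) (nat_lit 9) (.e (nat_lit 336430) (nat_lit 29) (.e (nat_lit 442409) (nat_lit 20) (.e (nat_lit 3406) (nat_lit 212) (.e (nat_lit 655378) (nat_lit 4) .nil)))))) (.g (nat_lit 1) (.e (nat_lit 196171) (nat_lit 0) .nil) .nil))) 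
(.lf (nat_lit 511572) (.g (nat_lit 2696) (.e (nat_lit 172133) (nat_lit 15) (.e (nat_lit 1800) (nat_lit 119) (.e (nat_lit 516115) (nat_lit 1) (.e (nat_lit 164325) (nat_lit 230) (.e (nat_lit 163851) (nat_lit 0) .nil))))) (.g (nat_lit 0) (.e (nat_lit 197866) (nat_lit 0) .nil) .nil)))) (.nd (nat_lit 9) 
(.lf (nat_lit 511316) (.g (nat_lit 4001) (.e (nat_lit 172126) (nat_lit 14) (.e (nat_lit 491540) (nat_lit 3) (.e (nat_lit 98373) (nat_lit 29) (.e (nat_lit 450562) (nat_lit 0) (.e (nat_lit 3966) (nat_lit 239) (.e (nat_lit 2626) (nat_lit 164) .nil)))))) (.g (nat_lit 1) (.e (nat_lit 196931) (nat_lit 0) .nil) .nil))) 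
(.lf (nat_lit 511828) (.g (nat_lit 1185) (.e (nat_lit 172150) (nat_lit 27) (.e (nat_lit 335894) (nat_lit 0) (.e (nat_lit 6724) (nat_lit 362) (.e (nat_lit 180227) (nat_lit 0) .nil)))) (.g (nat_lit 0) (.e (nat_lit 198444) (nat_lit 0) .nil) .nil))))) (.nd (nat_lit 8) (.nd (nat_lit 9) 
(.lf (nat_lit 511188) (.g (nat_lit 1436) (.e (nat_lit 172126) (nat_lit 14) (.e (nat_lit 491535) (nat_lit 2) (.e (nat_lit 90174) (nat_lit 14) (.e (nat_lit 180288) (nat_lit 45) .nil)))) (.g (nat_lit 0) (.e (nat_lit 196764) (nat_lit 0) .nil) .nil))) 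
(.lf (nat_lit 511700) (.g (nat_lit 762) (.e (nat_lit 179968) (nat_lit 18) (.e (nat_lit 98367) (nat_lit 27) (.e (nat_lit 434232) (nat_lit 23) .nil))) (.g (nat_lit 0) (.e (nat_lit 198091) (nat_lit 0) .nil) .nil)))) (.nd (nat_lit 9) 
(.lf (nat_lit 511444) (.g (nat_lit 3377) (.e (nat_lit 172126) (nat_lit 14) (.e (nat_lit 491550) (nat_lit 9) (.e (nat_lit 336430) (nat_lit 29) (.e (nat_lit 442419) (nat_lit 21) (.e (nat_lit 164347) (nat_lit 240) (.e (nat_lit 2617) (nat_lit 164) .nil)))))) (.g (nat_lit 1) (.e (nat_lit 197161) (nat_lit 0) .nil) .nil))) 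
(.lf (nat_lit 511956) (.g (nat_lit 3150) (.e (nat_lit 179968) (nat_lit 27) (.e (nat_lit 336194) (nat_lit 12) (.e (nat_lit 385105) (nat_lit 50) (.e (nat_lit 786473) (nat_lit 27) (.e (nat_lit 335872) (nat_lit 0) .nil))))) (.g (nat_lit 0) (.e (nat_lit 198693) (nat_lit 0) .nil) .nil))))))) (.nd (nat_lit 6) (.nd (nat_lit 7) (.nd (nat_lit 8) (.nd (nat_lit 9) 
(.lf (nat_lit 511028) (.g (nat_lit 3355) (.e (nat_lit 172124) (nat_lit 14) (.e (nat_lit 491549) (nat_lit 9) (.e (nat_lit 336432) (nat_lit 30) (.e (nat_lit 450565) (nat_lit 0) (.e (nat_lit 5548) (nat_lit 306) (.e (nat_lit 2628) (nat_lit 164) .nil)))))) (.g (nat_lit 1) (.e (nat_lit 196129) (nat_lit 0) .nil) .nil))) 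
(.lf (nat_lit 511540) (.g (nat_lit 2858) (.e (nat_lit 172126) (nat_lit 14) (.e (nat_lit 491570) (nat_lit 13) (.e (nat_lit 393284) (nat_lit 24) (.e (nat_lit 434271) (nat_lit 38) (.e (nat_lit 655378) (nat_lit 4) .nil))))) (.g (nat_lit 1) (.e (nat_lit 197457) (nat_lit 0) .nil) .nil)))) (.nd (nat_lit 9) 
(.lf (nat_lit 511284) (.g (nat_lit 3054) (.e (nat_lit 172126) (nat_lit 14) (.e (nat_lit 491540) (nat_lit 3) (.e (nat_lit 98373) (nat_lit 29) (.e (nat_lit 450560) (nat_lit 0) (.e (nat_lit 3932) (nat_lit 239) (.e (nat_lit 2625) (nat_lit 164) .nil)))))) (.g (nat_lit 1) (.e (nat_lit 196891) (nat_lit 0) .nil) .nil))) 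
(.lf (nat_lit 511796) (.g (nat_lit 499) (.e (nat_lit 172149) (nat_lit 27) (.e (nat_lit 335872) (nat_lit 0) (.e (nat_lit 6719) (nat_lit 361) (.e (nat_lit 172143) (nat_lit 25) (.e (nat_lit 319491) (nat_lit 0) (.e (nat_lit 5771) (nat_lit 316) .nil)))))) (.g (nat_lit 1) (.e (nat_lit 198296) (nat_lit 0) .nil) .nil))))) (.nd (nat_lit 8) (.nd (nat_lit 9) 
(.lf (nat_lit 511156) (.g (nat_lit 3215) (.e (nat_lit 172125) (nat_lit 14) (.e (nat_lit 491536) (nat_lit 2) (.e (nat_lit 90176) (nat_lit 15) (.e (nat_lit 188439) (nat_lit 20) (.e (nat_lit 3271) (nat_lit 199) (.e (nat_lit 548913) (nat_lit 18) .nil)))))) (.g (nat_lit 1) (.e (nat_lit 196620) (nat_lit 0) .nil) .nil))) 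
(.lf (nat_lit 511668) (.g (nat_lit 1930) (.e (nat_lit 179968) (nat_lit 15) (.e (nat_lit 1800) (nat_lit 119) (.e (nat_lit 516119) (nat_lit 1) (.e (nat_lit 164347) (nat_lit 240) (.e (nat_lit 2601) (nat_lit 163) .nil))))) (.g (nat_lit 0) (.e (nat_lit 198035) (nat_lit 0) .nil) .nil)))) (.nd (nat_lit 9) 
(.lf (nat_lit 511412) (.g (nat_lit 2705) (.e (nat_lit 172126) (nat_lit 14) (.e (nat_lit 491549) (nat_lit 9) (.e (nat_lit 336434) (nat_lit 30) (.e (nat_lit 450564) (nat_lit 0) (.e (nat_lit 5547) (nat_lit 306) (.e (nat_lit 2628) (nat_lit 164) .nil)))))) (.g (nat_lit 1) (.e (nat_lit 197112) (nat_lit 0) .nil) .nil))) 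
(.lf (nat_lit 511924) (.g (nat_lit 1173) (.e (nat_lit 172150) (nat_lit 27) (.e (nat_lit 336232) (nat_lit 14) (.e (nat_lit 401444) (nat_lit 9) (.e (nat_lit 426417) (nat_lit 15) .nil)))) (.g (nat_lit 0) (.e (nat_lit 198615) (nat_lit 0) .nil) .nil)))))) (.nd (nat_lit 7) (.nd (nat_lit 8) (.nd (nat_lit 9) 
(.lf (nat_lit 511092) (.g (nat_lit 1189) (.e (nat_lit 172124) (nat_lit 14) (.e (nat_lit 491566) (nat_lit 12) (.e (nat_lit 385043) (nat_lit 21) (.e (nat_lit 4598) (nat_lit 269) .nil)))) (.g (nat_lit 0) (.e (nat_lit 196215) (nat_lit 0) .nil) .nil))) 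
(.lf (nat_lit 511604) (.g (nat_lit 3821) (.e (nat_lit 172133) (nat_lit 15) (.e (nat_lit 2059) (nat_lit 142) (.e (nat_lit 704589) (nat_lit 3) (.e (nat_lit 163975) (nat_lit 30) (.e (nat_lit 573481) (nat_lit 13) (.e (nat_lit 65598) (nat_lit 9) (.e (nat_lit 336013) (nat_lit 2) (.e (nat_lit 90168) (nat_lit 13) .nil)))))))) (.g (nat_lit 1) (.e (nat_lit 197918) (nat_lit 0) .nil) .nil)))) 
(.nd (nat_lit 9) 
(.lf (nat_lit 511348) (.g (nat_lit 4003) (.e (nat_lit 172126) (nat_lit 14) (.e (nat_lit 491540) (nat_lit 3) (.e (nat_lit 98373) (nat_lit 29) (.e (nat_lit 450583) (nat_lit 7) (.e (nat_lit 548913) (nat_lit 18) .nil))))) (.g (nat_lit 1) (.e (nat_lit 196968) (nat_lit 0) .nil) .nil))) 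
(.lf (nat_lit 511860) (.g (nat_lit 1760) (.e (nat_lit 172150) (nat_lit 27) (.e (nat_lit 336230) (nat_lit 14) (.e (nat_lit 401435) (nat_lit 9) (.e (nat_lit 426530) (nat_lit 27) (.e (nat_lit 335874) (nat_lit 0) .nil))))) (.g (nat_lit 0) (.e (nat_lit 198507) (nat_lit 0) .nil) .nil))))) (.nd (nat_lit 8) (.nd (nat_lit 9) 
(.lf (nat_lit 511220) (.g (nat_lit 3084) (.e (nat_lit 172126) (nat_lit 14) (.e (nat_lit 491537) (nat_lit 2) (.e (nat_lit 90170) (nat_lit 13) (.e (nat_lit 172113) (nat_lit 10) (.e (nat_lit 434203) (nat_lit 18) (.e (nat_lit 3970) (nat_lit 239) (.e (nat_lit 2616) (nat_lit 164) .nil))))))) (.g (nat_lit 1) (.e (nat_lit 196802) (nat_lit 0) .nil) .nil))) 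
(.lf (nat_lit 511732) (.g (nat_lit 2770) (.e (nat_lit 172143) (nat_lit 25) (.e (nat_lit 319490) (nat_lit 0) (.e (nat_lit 5664) (nat_lit 312) (.e (nat_lit 3085) (nat_lit 191) (.e (nat_lit 483346) (nat_lit 17) (.e (nat_lit 7936) (nat_lit 361) .nil)))))) (.g (nat_lit 1) (.e (nat_lit 198130) (nat_lit 0) .nil) .nil)))) (.nd (nat_lit 9) 
(.lf (nat_lit 511476) (.g (nat_lit 716) (.e (nat_lit 172126) (nat_lit 14) (.e (nat_lit 491566) (nat_lit 12) (.e (nat_lit 385109) (nat_lit 51) .nil))) (.g (nat_lit 0) (.e (nat_lit 197244) (nat_lit 0) .nil) .nil))) 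
(.lf (nat_lit 511988) (.g (nat_lit 1543) (.e (nat_lit 179968) (nat_lit 28) (.e (nat_lit 344069) (nat_lit 0) (.e (nat_lit 2856) (nat_lit 184) (.e (nat_lit 426533) (nat_lit 28) (.e (nat_lit 352000) (nat_lit 4) .nil))))) (.g (nat_lit 0) (.e (nat_lit 198731) (nat_lit 0) .nil) .nil))))))))) (.nd (nat_lit 4) (.nd (nat_lit 5) (.nd (nat_lit 6) (.nd (nat_lit 7) (.nd (nat_lit 8) (.nd (nat_lit 9) 
(.lf (nat_lit 510988) (.g (nat_lit 670) (.e (nat_lit 172124) (nat_lit 14) (.e (nat_lit 491547) (nat_lit 9) (.e (nat_lit 336426) (nat_lit 29) .nil))) (.g (nat_lit 0) (.e (nat_lit 196049) (nat_lit 0) .nil) .nil))) 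
(.lf (nat_lit 511500) (.g (nat_lit 482) (.e (nat_lit 172126) (nat_lit 14) (.e (nat_lit 491568) (nat_lit 13) (.e (nat_lit 393283) (nat_lit 24) .nil))) (.g (nat_lit 0) (.e (nat_lit 197283) (nat_lit 0) .nil) .nil)))) (.nd (nat_lit 9) 
(.lf (nat_lit 511244) (.g (nat_lit 730) (.e (nat_lit 172126) (nat_lit 14) (.e (nat_lit 491537) (nat_lit 2) (.e (nat_lit 90175) (nat_lit 15) .nil))) (.g (nat_lit 0) (.e (nat_lit 196828) (nat_lit 0) .nil) .nil))) 
(.lf (nat_lit 511756) (.g (nat_lit 2964) (.e (nat_lit 172144) (nat_lit 26) (.e (nat_lit 327700) (nat_lit 8) (.e (nat_lit 303145) (nat_lit 13) (.e (nat_lit 483344) (nat_lit 17) (.e (nat_lit 6718) (nat_lit 361) .nil))))) (.g (nat_lit 0) (.e (nat_lit 198210) (nat_lit 0) .nil) .nil))))) (.nd (nat_lit 8) (.nd (nat_lit 9) 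
(.lf (nat_lit 511116) (.g (nat_lit 1435) (.e (nat_lit 172124) (nat_lit 14) (.e (nat_lit 491569) (nat_lit 13) (.e (nat_lit 393283) (nat_lit 24) (.e (nat_lit 442112) (nat_lit 37) .nil)))) (.g (nat_lit 0) (.e (nat_lit 196281) (nat_lit 0) .nil) .nil))) 
(.lf (nat_lit 511628) (.g (nat_lit 6226) (.e (nat_lit 172133) (nat_lit 15) (.e (nat_lit 2059) (nat_lit 142) (.e (nat_lit 704589) (nat_lit 3) (.e (nat_lit 163979) (nat_lit 30) (.e (nat_lit 573493) (nat_lit 15) (.e (nat_lit 81951) (nat_lit 22) (.e (nat_lit 90169) (nat_lit 13) .nil))))))) (.g (nat_lit 1) (.e (nat_lit 197971) (nat_lit 0) .nil) .nil)))) (.nd (nat_lit 9) 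
(.lf (nat_lit 511372) (.g (nat_lit 3854) (.e (nat_lit 172126) (nat_lit 14) (.e (nat_lit 491549) (nat_lit 9) (.e (nat_lit 336369) (nat_lit 27) (.e (nat_lit 426317) (nat_lit 12) (.e (nat_lit 475199) (nat_lit 40) (.e (nat_lit 704592) (nat_lit 4) .nil)))))) (.g (nat_lit 1) (.e (nat_lit 197036) (nat_lit 0) .nil) .nil))) 
(.lf (nat_lit 511884) (.g (nat_lit 928) (.e (nat_lit 172150) (nat_lit 27) (.e (nat_lit 336231) (nat_lit 14) (.e (nat_lit 401439) (nat_lit 9) .nil))) (.g (nat_lit 0) (.e (nat_lit 198542) (nat_lit 0) .nil) .nil)))))) (.nd (nat_lit 7) (.nd (nat_lit 8) (.nd (nat_lit 9) 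
(.lf (nat_lit 511052) (.g (nat_lit 3259) (.e (nat_lit 172124) (nat_lit 14) (.e (nat_lit 491549) (nat_lit 9) (.e (nat_lit 336443) (nat_lit 32) (.e (nat_lit 466982) (nat_lit 24) (.e (nat_lit 229663) (nat_lit 240) (.e (nat_lit 2622) (nat_lit 164) .nil)))))) (.g (nat_lit 1) (.e (nat_lit 196156) (nat_lit 0) .nil) .nil))) 
(.lf (nat_lit 511564) (.g (nat_lit 669) (.e (nat_lit 172132) (nat_lit 15) (.e (nat_lit 1796) (nat_lit 119) (.e (nat_lit 516180) (nat_lit 15) (.e (nat_lit 475177) (nat_lit 24) .nil)))) (.g (nat_lit 0) (.e (nat_lit 197857) (nat_lit 0) .nil) .nil)))) (.nd (nat_lit 9) 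
(.lf (nat_lit 511308) (.g (nat_lit 3122) (.e (nat_lit 172126) (nat_lit 14) (.e (nat_lit 491540) (nat_lit 3) (.e (nat_lit 98373) (nat_lit 29) (.e (nat_lit 450560) (nat_lit 0) (.e (nat_lit 3970) (nat_lit 239) (.e (nat_lit 2626) (nat_lit 164) .nil)))))) (.g (nat_lit 1) (.e (nat_lit 196920) (nat_lit 0) .nil) .nil))) 
(.lf (nat_lit 511820) (.g (nat_lit 1102) (.e (nat_lit 172150) (nat_lit 27) (.e (nat_lit 335894) (nat_lit 0) (.e (nat_lit 6722) (nat_lit 362) (.e (nat_lit 180225) (nat_lit 0) .nil)))) (.g (nat_lit 0) (.e (nat_lit 198425) (nat_lit 0) .nil) .nil))))) (.nd (nat_lit 8) (.nd (nat_lit 9) 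
(.lf (nat_lit 511180) (.g (nat_lit 2917) (.e (nat_lit 172125) (nat_lit 14) (.e (nat_lit 491568) (nat_lit 13) (.e (nat_lit 393282) (nat_lit 24) (.e (nat_lit 434272) (nat_lit 38) (.e (nat_lit 655378) (nat_lit 4) .nil))))) (.g (nat_lit 1) (.e (nat_lit 196652) (nat_lit 0) .nil) .nil))) 
(.lf (nat_lit 511692) (.g (nat_lit 1321) (.e (nat_lit 179968) (nat_lit 18) (.e (nat_lit 98335) (nat_lit 18) (.e (nat_lit 164345) (nat_lit 240) (.e (nat_lit 2426) (nat_lit 157) (.e (nat_lit 2680) (nat_lit 168) .nil))))) (.g (nat_lit 0) (.e (nat_lit 198083) (nat_lit 0) .nil) .nil)))) (.nd (nat_lit 9) 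
(.lf (nat_lit 511436) (.g (nat_lit 2912) (.e (nat_lit 172126) (nat_lit 14) (.e (nat_lit 491550) (nat_lit 9) (.e (nat_lit 336395) (nat_lit 27) (.e (nat_lit 426305) (nat_lit 12) (.e (nat_lit 475198) (nat_lit 40) (.e (nat_lit 704592) (nat_lit 4) .nil)))))) (.g (nat_lit 1) (.e (nat_lit 197145) (nat_lit 0) .nil) .nil))) 
(.lf (nat_lit 511948) (.g (nat_lit 2787) (.e (nat_lit 172150) (nat_lit 27) (.e (nat_lit 336387) (nat_lit 27) (.e (nat_lit 426316) (nat_lit 12) (.e (nat_lit 475185) (nat_lit 29) (.e (nat_lit 557089) (nat_lit 12) (.e (nat_lit 164031) (nat_lit 53) (.e (nat_lit 761900) (nat_lit 16) .nil))))))) (.g (nat_lit 1) (.e (nat_lit 198682) (nat_lit 0) .nil) .nil))))))) 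
(.nd (nat_lit 6) (.nd (nat_lit 7) (.nd (nat_lit 8) (.nd (nat_lit 9) 
(.lf (nat_lit 511020) (.g (nat_lit 3101) (.e (nat_lit 172124) (nat_lit 14) (.e (nat_lit 491549) (nat_lit 9) (.e (nat_lit 336430) (nat_lit 29) (.e (nat_lit 442428) (nat_lit 24) (.e (nat_lit 229666) (nat_lit 240) (.e (nat_lit 2630) (nat_lit 164) .nil)))))) (.g (nat_lit 1) (.e (nat_lit 196120) (nat_lit 0) .nil) .nil))) 
(.lf (nat_lit 511532) (.g (nat_lit 1992) (.e (nat_lit 172126) (nat_lit 14) (.e (nat_lit 491570) (nat_lit 13) (.e (nat_lit 393268) (nat_lit 23) (.e (nat_lit 426444) (nat_lit 19) (.e (nat_lit 114432) (nat_lit 4) .nil))))) (.g (nat_lit 1) (.e (nat_lit 197394) (nat_lit 0) .nil) .nil)))) (.nd (nat_lit 9) 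
(.lf (nat_lit 511276) (.g (nat_lit 1546) (.e (nat_lit 172126) (nat_lit 14) (.e (nat_lit 491540) (nat_lit 3) (.e (nat_lit 98370) (nat_lit 28) (.e (nat_lit 442378) (nat_lit 0) (.e (nat_lit 1855) (nat_lit 124) .nil))))) (.g (nat_lit 0) (.e (nat_lit 196873) (nat_lit 0) .nil) .nil))) 
(.lf (nat_lit 511788) (.g (nat_lit 730) (.e (nat_lit 172147) (nat_lit 27) (.e (nat_lit 336231) (nat_lit 14) (.e (nat_lit 401437) (nat_lit 9) .nil))) (.g (nat_lit 0) (.e (nat_lit 198267) (nat_lit 0) .nil) .nil))))) (.nd (nat_lit 8) (.nd (nat_lit 9) 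
(.lf (nat_lit 511148) (.g (nat_lit 3114) (.e (nat_lit 172124) (nat_lit 14) (.e (nat_lit 491571) (nat_lit 13) (.e (nat_lit 393271) (nat_lit 23) (.e (nat_lit 426444) (nat_lit 19) (.e (nat_lit 114432) (nat_lit 4) .nil))))) (.g (nat_lit 1) (.e (nat_lit 196512) (nat_lit 0) .nil) .nil))) 
(.lf (nat_lit 511660) (.g (nat_lit 2034) (.e (nat_lit 172138) (nat_lit 15) (.e (nat_lit 2059) (nat_lit 142) (.e (nat_lit 704589) (nat_lit 3) (.e (nat_lit 163975) (nat_lit 30) (.e (nat_lit 573492) (nat_lit 15) .nil))))) (.g (nat_lit 0) (.e (nat_lit 198023) (nat_lit 0) .nil) .nil)))) (.nd (nat_lit 9) 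
(.lf (nat_lit 511404) (.g (nat_lit 2624) (.e (nat_lit 172126) (nat_lit 14) (.e (nat_lit 491549) (nat_lit 9) (.e (nat_lit 336432) (nat_lit 30) (.e (nat_lit 450564) (nat_lit 0) (.e (nat_lit 5548) (nat_lit 306) (.e (nat_lit 2629) (nat_lit 164) .nil)))))) (.g (nat_lit 1) (.e (nat_lit 197103) (nat_lit 0) .nil) .nil))) 
(.lf (nat_lit 511916) (.g (nat_lit 1358) (.e (nat_lit 172150) (nat_lit 27) (.e (nat_lit 336232) (nat_lit 14) (.e (nat_lit 401434) (nat_lit 9) (.e (nat_lit 426470) (nat_lit 25) .nil)))) (.g (nat_lit 0) (.e (nat_lit 198596) (nat_lit 0) .nil) .nil)))))) (.nd (nat_lit 7) (.nd (nat_lit 8) (.nd (nat_lit 9) 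
(.lf (nat_lit 511084) (.g (nat_lit 2218) (.e (nat_lit 172124) (nat_lit 14) (.e (nat_lit 491550) (nat_lit 9) (.e (nat_lit 336434) (nat_lit 30) (.e (nat_lit 450568) (nat_lit 0) (.e (nat_lit 5448) (nat_lit 306) (.e (nat_lit 2630) (nat_lit 164) .nil)))))) (.g (nat_lit 1) (.e (nat_lit 196195) (nat_lit 0) .nil) .nil))) 
(.lf (nat_lit 511596) (.g (nat_lit 1741) (.e (nat_lit 172133) (nat_lit 15) (.e (nat_lit 1856) (nat_lit 124) (.e (nat_lit 557107) (nat_lit 15) (.e (nat_lit 188450) (nat_lit 23) (.e (nat_lit 204819) (nat_lit 17) .nil))))) (.g (nat_lit 0) (.e (nat_lit 197910) (nat_lit 0) .nil) .nil)))) (.nd (nat_lit 9) 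
(.lf (nat_lit 511340) (.g (nat_lit 2929) (.e (nat_lit 172126) (nat_lit 14) (.e (nat_lit 491540) (nat_lit 3) (.e (nat_lit 98373) (nat_lit 29) (.e (nat_lit 450567) (nat_lit 0) (.e (nat_lit 3982) (nat_lit 239) (.e (nat_lit 2625) (nat_lit 164) .nil)))))) (.g (nat_lit 1) (.e (nat_lit 196960) (nat_lit 0) .nil) .nil))) 
(.lf (nat_lit 511852) (.g (nat_lit 2088) (.e (nat_lit 172150) (nat_lit 27) (.e (nat_lit 336229) (nat_lit 14) (.e (nat_lit 401437) (nat_lit 9) (.e (nat_lit 426533) (nat_lit 28) (.e (nat_lit 352000) (nat_lit 4) .nil))))) (.g (nat_lit 1) (.e (nat_lit 198497) (nat_lit 0) .nil) .nil))))) (.nd (nat_lit 8) (.nd (nat_lit 9) 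
(.lf (nat_lit 511212) (.g (nat_lit 3922) (.e (nat_lit 172126) (nat_lit 14) (.e (nat_lit 491537) (nat_lit 2) (.e (nat_lit 90170) (nat_lit 13) (.e (nat_lit 172106) (nat_lit 10) (.e (nat_lit 434209) (nat_lit 18) (.e (nat_lit 3969) (nat_lit 239) (.e (nat_lit 2625) (nat_lit 164) .nil))))))) (.g (nat_lit 1) (.e (nat_lit 196794) (nat_lit 0) .nil) .nil))) 
(.lf (nat_lit 511724) (.g (nat_lit 1490) (.e (nat_lit 172143) (nat_lit 25) (.e (nat_lit 319490) (nat_lit 0) (.e (nat_lit 5664) (nat_lit 312) (.e (nat_lit 2852) (nat_lit 184) (.e (nat_lit 426551) (nat_lit 31) .nil))))) (.g (nat_lit 0) (.e (nat_lit 198122) (nat_lit 0) .nil) .nil)))) (.nd (nat_lit 9) 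
(.lf (nat_lit 511468) (.g (nat_lit 1501) (.e (nat_lit 172126) (nat_lit 14) (.e (nat_lit 491564) (nat_lit 12) (.e (nat_lit 385109) (nat_lit 51) (.e (nat_lit 794684) (nat_lit 25) .nil)))) (.g (nat_lit 0) (.e (nat_lit 197203) (nat_lit 0) .nil) .nil))) 
(.lf (nat_lit 511980) (.g (nat_lit 1346) (.e (nat_lit 179968) (nat_lit 28) (.e (nat_lit 344068) (nat_lit 0) (.e (nat_lit 2857) (nat_lit 184) (.e (nat_lit 426530) (nat_lit 27) (.e (nat_lit 335874) (nat_lit 0) .nil))))) (.g (nat_lit 0) (.e (nat_lit 198722) (nat_lit 0) .nil) .nil)))))))) (.nd (nat_lit 5) (.nd (nat_lit 6) (.nd (nat_lit 7) (.nd (nat_lit 8) (.nd (nat_lit 9) 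
(.lf (nat_lit 511004) (.g (nat_lit 2849) (.e (nat_lit 172124) (nat_lit 14) (.e (nat_lit 491549) (nat_lit 9) (.e (nat_lit 336430) (nat_lit 29) (.e (nat_lit 442409) (nat_lit 20) (.e (nat_lit 3406) (nat_lit 212) (.e (nat_lit 655378) (nat_lit 4) .nil)))))) (.g (nat_lit 1) (.e (nat_lit 196104) (nat_lit 0) .nil) .nil))) 
(.lf (nat_lit 511516) (.g (nat_lit 1060) (.e (nat_lit 172126) (nat_lit 14) (.e (nat_lit 491569) (nat_lit 13) (.e (nat_lit 393280) (nat_lit 23) .nil))) (.g (nat_lit 0) (.e (nat_lit 197326) (nat_lit 0) .nil) .nil)))) (.nd (nat_lit 9) 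
(.lf (nat_lit 511260) (.g (nat_lit 3159) (.e (nat_lit 172126) (nat_lit 14) (.e (nat_lit 491540) (nat_lit 3) (.e (nat_lit 98359) (nat_lit 26) (.e (nat_lit 426338) (nat_lit 14) (.e (nat_lit 491536) (nat_lit 2) (.e (nat_lit 90167) (nat_lit 13) .nil)))))) (.g (nat_lit 1) (.e (nat_lit 196852) (nat_lit 0) .nil) .nil))) 
(.lf (nat_lit 511772) (.g (nat_lit 1029) (.e (nat_lit 172146) (nat_lit 27) (.e (nat_lit 335906) (nat_lit 0) (.e (nat_lit 6113) (nat_lit 332) (.e (nat_lit 1376) (nat_lit 104) (.e (nat_lit 311040) (nat_lit 26) .nil))))) (.g (nat_lit 0) (.e (nat_lit 198237) (nat_lit 0) .nil) .nil))))) (.nd (nat_lit 8) (.nd (nat_lit 9) 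
(.lf (nat_lit 511132) (.g (nat_lit 2127) (.e (nat_lit 172124) (nat_lit 14) (.e (nat_lit 491570) (nat_lit 13) (.e (nat_lit 393271) (nat_lit 23) (.e (nat_lit 426444) (nat_lit 19) (.e (nat_lit 114432) (nat_lit 4) .nil))))) (.g (nat_lit 1) (.e (nat_lit 196323) (nat_lit 0) .nil) .nil))) 
(.lf (nat_lit 511644) (.g (nat_lit 665) (.e (nat_lit 172136) (nat_lit 15) (.e (nat_lit 1800) (nat_lit 119) (.e (nat_lit 516120) (nat_lit 1) .nil))) (.g (nat_lit 0) (.e (nat_lit 197993) (nat_lit 0) .nil) .nil)))) (.nd (nat_lit 9) 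
(.lf (nat_lit 511388) (.g (nat_lit 986) (.e (nat_lit 172126) (nat_lit 14) (.e (nat_lit 491549) (nat_lit 9) (.e (nat_lit 336430) (nat_lit 29) (.e (nat_lit 442402) (nat_lit 20) .nil)))) (.g (nat_lit 0) (.e (nat_lit 197078) (nat_lit 0) .nil) .nil))) 
(.lf (nat_lit 511900) (.g (nat_lit 3025) (.e (nat_lit 172150) (nat_lit 27) (.e (nat_lit 336231) (nat_lit 14) (.e (nat_lit 401446) (nat_lit 10) (.e (nat_lit 434208) (nat_lit 18) (.e (nat_lit 6420) (nat_lit 341) (.e (nat_lit 163843) (nat_lit 0) (.e (nat_lit 7936) (nat_lit 392) .nil))))))) (.g (nat_lit 1) (.e (nat_lit 198567) (nat_lit 0) .nil) .nil)))))) 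
(.nd (nat_lit 7) (.nd (nat_lit 8) (.nd (nat_lit 9) 
(.lf (nat_lit 511068) (.g (nat_lit 2894) (.e (nat_lit 172124) (nat_lit 14) (.e (nat_lit 491550) (nat_lit 9) (.e (nat_lit 336430) (nat_lit 29) (.e (nat_lit 442428) (nat_lit 24) (.e (nat_lit 229666) (nat_lit 240) (.e (nat_lit 2630) (nat_lit 164) .nil)))))) (.g (nat_lit 1) (.e (nat_lit 196179) (nat_lit 0) .nil) .nil))) 
(.lf (nat_lit 511580) (.g (nat_lit 336) (.e (nat_lit 172133) (nat_lit 15) (.e (nat_lit 1800) (nat_lit 119) (.e (nat_lit 516120) (nat_lit 1) .nil))) (.g (nat_lit 0) (.e (nat_lit 197878) (nat_lit 0) .nil) .nil)))) (.nd (nat_lit 9) 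
(.lf (nat_lit 511324) (.g (nat_lit 4186) (.e (nat_lit 172126) (nat_lit 14) (.e (nat_lit 491540) (nat_lit 3) (.e (nat_lit 98373) (nat_lit 29) (.e (nat_lit 450563) (nat_lit 0) (.e (nat_lit 3948) (nat_lit 239) (.e (nat_lit 7936) (nat_lit 164) .nil)))))) (.g (nat_lit 1) (.e (nat_lit 196942) (nat_lit 0) .nil) .nil))) 
(.lf (nat_lit 511836) (.g (nat_lit 2043) (.e (nat_lit 172150) (nat_lit 27) (.e (nat_lit 336078) (nat_lit 9) (.e (nat_lit 336286) (nat_lit 15) (.e (nat_lit 3748) (nat_lit 228) (.e (nat_lit 786473) (nat_lit 27) (.e (nat_lit 335872) (nat_lit 0) (.e (nat_lit 6719) (nat_lit 361) .nil))))))) (.g (nat_lit 1) (.e (nat_lit 198465) (nat_lit 0) .nil) .nil))))) (.nd (nat_lit 8) (.nd (nat_lit 9) 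
(.lf (nat_lit 511196) (.g (nat_lit 551) (.e (nat_lit 172126) (nat_lit 14) (.e (nat_lit 491537) (nat_lit 2) (.e (nat_lit 90169) (nat_lit 13) .nil))) (.g (nat_lit 0) (.e (nat_lit 196778) (nat_lit 0) .nil) .nil))) 
(.lf (nat_lit 511708) (.g (nat_lit 1705) (.e (nat_lit 179968) (nat_lit 18) (.e (nat_lit 98367) (nat_lit 27) (.e (nat_lit 434246) (nat_lit 28) (.e (nat_lit 573482) (nat_lit 13) (.e (nat_lit 65644) (nat_lit 22) .nil))))) (.g (nat_lit 0) (.e (nat_lit 198099) (nat_lit 0) .nil) .nil)))) (.nd (nat_lit 9) 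
(.lf (nat_lit 511452) (.g (nat_lit 3140) (.e (nat_lit 172126) (nat_lit 14) (.e (nat_lit 491550) (nat_lit 9) (.e (nat_lit 336432) (nat_lit 30) (.e (nat_lit 450569) (nat_lit 0) (.e (nat_lit 5448) (nat_lit 306) (.e (nat_lit 2630) (nat_lit 164) .nil)))))) (.g (nat_lit 1) (.e (nat_lit 197177) (nat_lit 0) .nil) .nil))) 
(.lf (nat_lit 511964) (.g (nat_lit 992) (.e (nat_lit 179968) (nat_lit 27) (.e (nat_lit 336228) (nat_lit 14) (.e (nat_lit 401437) (nat_lit 9) (.e (nat_lit 426533) (nat_lit 28) (.e (nat_lit 352000) (nat_lit 4) .nil))))) (.g (nat_lit 0) (.e (nat_lit 198702) (nat_lit 0) .nil) .nil))))))) (.nd (nat_lit 6) (.nd (nat_lit 7) (.nd (nat_lit 8) (.nd (nat_lit 9) 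
(.lf (nat_lit 511036) (.g (nat_lit 3802) (.e (nat_lit 172124) (nat_lit 14) (.e (nat_lit 491549) (nat_lit 9) (.e (nat_lit 336434) (nat_lit 30) (.e (nat_lit 450564) (nat_lit 0) (.e (nat_lit 5548) (nat_lit 306) (.e (nat_lit 2629) (nat_lit 164) .nil)))))) (.g (nat_lit 1) (.e (nat_lit 196139) (nat_lit 0) .nil) .nil))) 
(.lf (nat_lit 511548) (.g (nat_lit 2228) (.e (nat_lit 172126) (nat_lit 14) (.e (nat_lit 491571) (nat_lit 13) (.e (nat_lit 393267) (nat_lit 23) (.e (nat_lit 426444) (nat_lit 19) (.e (nat_lit 114432) (nat_lit 4) .nil))))) (.g (nat_lit 1) (.e (nat_lit 197609) (nat_lit 0) .nil) .nil)))) (.nd (nat_lit 9) 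
(.lf (nat_lit 511292) (.g (nat_lit 3431) (.e (nat_lit 172126) (nat_lit 14) (.e (nat_lit 491540) (nat_lit 3) (.e (nat_lit 98373) (nat_lit 29) (.e (nat_lit 450560) (nat_lit 0) (.e (nat_lit 3947) (nat_lit 239) (.e (nat_lit 2625) (nat_lit 164) .nil)))))) (.g (nat_lit 1) (.e (nat_lit 196902) (nat_lit 0) .nil) .nil))) 
(.lf (nat_lit 511804) (.g (nat_lit 1805) (.e (nat_lit 172149) (nat_lit 27) (.e (nat_lit 336051) (nat_lit 6) (.e (nat_lit 147495) (nat_lit 11) (.e (nat_lit 24608) (nat_lit 3) .nil)))) (.g (nat_lit 0) (.e (nat_lit 198344) (nat_lit 0) .nil) .nil))))) (.nd (nat_lit 8) (.nd (nat_lit 9) 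
(.lf (nat_lit 511164) (.g (nat_lit 1688) (.e (nat_lit 172125) (nat_lit 14) (.e (nat_lit 491540) (nat_lit 3) (.e (nat_lit 98370) (nat_lit 28) (.e (nat_lit 442411) (nat_lit 20) (.e (nat_lit 3271) (nat_lit 199) .nil))))) (.g (nat_lit 0) (.e (nat_lit 196628) (nat_lit 0) .nil) .nil))) 
(.lf (nat_lit 511676) (.g (nat_lit 1823) (.e (nat_lit 179968) (nat_lit 15) (.e (nat_lit 1855) (nat_lit 124) (.e (nat_lit 557098) (nat_lit 13) (.e (nat_lit 172115) (nat_lit 10) (.e (nat_lit 434231) (nat_lit 23) .nil))))) (.g (nat_lit 0) (.e (nat_lit 198044) (nat_lit 0) .nil) .nil)))) (.nd (nat_lit 9) 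
(.lf (nat_lit 511420) (.g (nat_lit 1965) (.e (nat_lit 172126) (nat_lit 14) (.e (nat_lit 491549) (nat_lit 9) (.e (nat_lit 336443) (nat_lit 32) (.e (nat_lit 466948) (nat_lit 0) .nil)))) (.g (nat_lit 0) (.e (nat_lit 197123) (nat_lit 0) .nil) .nil))) 
(.lf (nat_lit 511932) (.g (nat_lit 2538) (.e (nat_lit 172150) (nat_lit 27) (.e (nat_lit 336232) (nat_lit 14) (.e (nat_lit 401456) (nat_lit 13) (.e (nat_lit 483350) (nat_lit 17) (.e (nat_lit 7936) (nat_lit 361) .nil))))) (.g (nat_lit 0) (.e (nat_lit 198634) (nat_lit 0) .nil) .nil)))))) (.nd (nat_lit 7) (.nd (nat_lit 8) (.nd (nat_lit 9) 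
(.lf (nat_lit 511100) (.g (nat_lit 966) (.e (nat_lit 172124) (nat_lit 14) (.e (nat_lit 491568) (nat_lit 13) (.e (nat_lit 393275) (nat_lit 23) .nil))) (.g (nat_lit 0) (.e (nat_lit 196234) (nat_lit 0) .nil) .nil))) 
(.lf (nat_lit 511612) (.g (nat_lit 4998) (.e (nat_lit 172133) (nat_lit 15) (.e (nat_lit 2059) (nat_lit 142) (.e (nat_lit 704589) (nat_lit 3) (.e (nat_lit 163975) (nat_lit 30) (.e (nat_lit 573492) (nat_lit 15) (.e (nat_lit 81953) (nat_lit 22) (.e (nat_lit 98048) (nat_lit 13) .nil))))))) (.g (nat_lit 1) (.e (nat_lit 197933) (nat_lit 0) .nil) .nil)))) (.nd (nat_lit 9) 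
(.lf (nat_lit 511356) (.g (nat_lit 1126) (.e (nat_lit 172126) (nat_lit 14) (.e (nat_lit 491547) (nat_lit 9) (.e (nat_lit 336430) (nat_lit 29) (.e (nat_lit 442419) (nat_lit 21) .nil)))) (.g (nat_lit 0) (.e (nat_lit 196984) (nat_lit 0) .nil) .nil))) 
(.lf (nat_lit 511868) (.g (nat_lit 181) (.e (nat_lit 172150) (nat_lit 27) (.e (nat_lit 336230) (nat_lit 14) (.e (nat_lit 401444) (nat_lit 9) .nil))) (.g (nat_lit 0) (.e (nat_lit 198517) (nat_lit 0) .nil) .nil))))) (.nd (nat_lit 8) (.nd (nat_lit 9) 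
(.lf (nat_lit 511228) (.g (nat_lit 2313) (.e (nat_lit 172126) (nat_lit 14) (.e (nat_lit 491537) (nat_lit 2) (.e (nat_lit 90170) (nat_lit 13) (.e (nat_lit 172113) (nat_lit 10) (.e (nat_lit 434208) (nat_lit 18) (.e (nat_lit 3966) (nat_lit 239) (.e (nat_lit 2626) (nat_lit 164) .nil))))))) (.g (nat_lit 1) (.e (nat_lit 196811) (nat_lit 0) .nil) .nil))) 
(.lf (nat_lit 511740) (.g (nat_lit 2237) (.e (nat_lit 172143) (nat_lit 25) (.e (nat_lit 319491) (nat_lit 0) (.e (nat_lit 5664) (nat_lit 312) (.e (nat_lit 2887) (nat_lit 184) (.e (nat_lit 426499) (nat_lit 27) .nil))))) (.g (nat_lit 0) (.e (nat_lit 198138) (nat_lit 0) .nil) .nil)))) (.nd (nat_lit 9) 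
(.lf (nat_lit 511484) (.g (nat_lit 814) (.e (nat_lit 172126) (nat_lit 14) (.e (nat_lit 491568) (nat_lit 13) (.e (nat_lit 393277) (nat_lit 23) .nil))) (.g (nat_lit 0) (.e (nat_lit 197265) (nat_lit 0) .nil) .nil))) 
(.lf (nat_lit 511996) (.g (nat_lit 1440) (.e (nat_lit 179968) (nat_lit 29) (.e (nat_lit 352265) (nat_lit 0) (.e (nat_lit 3632) (nat_lit 227) (.e (nat_lit 778323) (nat_lit 5) (.e (nat_lit 81664) (nat_lit 36) .nil))))) (.g (nat_lit 0) (.e (nat_lit 198739) (nat_lit 0) .nil) .nil))))))))))) 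
(.nd (nat_lit 2) (.nd (nat_lit 3) (.nd (nat_lit 4) (.nd (nat_lit 5) (.nd (nat_lit 6) 
(.nd (nat_lit 7) (.nd (nat_lit 8) (.nd (nat_lit 9) 
(.lf (nat_lit 510978) (.g (nat_lit 3251) (.e (nat_lit 172124) (nat_lit 14) (.e (nat_lit 491540) (nat_lit 3) (.e (nat_lit 98373) (nat_lit 29) (.e (nat_lit 450567) (nat_lit 0) (.e (nat_lit 3978) (nat_lit 239) (.e (nat_lit 2619) (nat_lit 164) .nil)))))) (.g (nat_lit 1) (.e (nat_lit 196039) (nat_lit 0) .nil) .nil))) 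
(.lf (nat_lit 511490) (.g (nat_lit 1462) (.e (nat_lit 172126) (nat_lit 14) (.e (nat_lit 491568) (nat_lit 13) (.e (nat_lit 393281) (nat_lit 23) (.e (nat_lit 426099) (nat_lit 1) .nil)))) (.g (nat_lit 0) (.e (nat_lit 197272) (nat_lit 0) .nil) .nil)))) (.nd (nat_lit 9) 
(.lf (nat_lit 511234) (.g (nat_lit 2655) (.e (nat_lit 172126) (nat_lit 14) (.e (nat_lit 491537) (nat_lit 2) (.e (nat_lit 90170) (nat_lit 13) (.e (nat_lit 172120) (nat_lit 12) (.e (nat_lit 475158) (nat_lit 21) .nil))))) (.g (nat_lit 0) (.e (nat_lit 196817) (nat_lit 0) .nil) .nil))) 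
(.lf (nat_lit 511746) (.g (nat_lit 1922) (.e (nat_lit 172143) (nat_lit 25) (.e (nat_lit 319492) (nat_lit 0) (.e (nat_lit 5771) (nat_lit 316) (.e (nat_lit 172150) (nat_lit 27) (.e (nat_lit 335894) (nat_lit 0) (.e (nat_lit 6720) (nat_lit 361) .nil)))))) (.g (nat_lit 1) (.e (nat_lit 198144) (nat_lit 0) .nil) .nil))))) (.nd (nat_lit 8) (.nd (nat_lit 9) 
(.lf (nat_lit 511106) (.g (nat_lit 2465) (.e (nat_lit 172124) (nat_lit 14) (.e (nat_lit 491568) (nat_lit 13) (.e (nat_lit 393283) (nat_lit 24) (.e (nat_lit 434271) (nat_lit 38) (.e (nat_lit 655378) (nat_lit 4) .nil))))) (.g (nat_lit 1) (.e (nat_lit 196240) (nat_lit 0) .nil) .nil))) 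
(.lf (nat_lit 511618) (.g (nat_lit 4600) (.e (nat_lit 172133) (nat_lit 15) (.e (nat_lit 2059) (nat_lit 142) (.e (nat_lit 704589) (nat_lit 3) (.e (nat_lit 163976) (nat_lit 30) (.e (nat_lit 573492) (nat_lit 15) (.e (nat_lit 81953) (nat_lit 22) (.e (nat_lit 98048) (nat_lit 13) .nil))))))) (.g (nat_lit 1) (.e (nat_lit 197943) (nat_lit 0) .nil) .nil)))) (.nd (nat_lit 9) 
(.lf (nat_lit 511362) (.g (nat_lit 402) (.e (nat_lit 172126) (nat_lit 14) (.e (nat_lit 491547) (nat_lit 9) (.e (nat_lit 336443) (nat_lit 32) .nil))) (.g (nat_lit 0) (.e (nat_lit 196991) (nat_lit 0) .nil) .nil))) 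
(.lf (nat_lit 511874) (.g (nat_lit 2562) (.e (nat_lit 172150) (nat_lit 27) (.e (nat_lit 336231) (nat_lit 14) (.e (nat_lit 401434) (nat_lit 9) (.e (nat_lit 426470) (nat_lit 25) (.e (nat_lit 319490) (nat_lit 0) (.e (nat_lit 5766) (nat_lit 316) .nil)))))) (.g (nat_lit 1) (.e (nat_lit 198527) (nat_lit 0) .nil) .nil)))))) (.nd (nat_lit 7) (.nd (nat_lit 8) (.nd (nat_lit 9) 
(.lf (nat_lit 511042) (.g (nat_lit 1936) (.e (nat_lit 172124) (nat_lit 14) (.e (nat_lit 491549) (nat_lit 9) (.e (nat_lit 336443) (nat_lit 32) (.e (nat_lit 466959) (nat_lit 20) .nil)))) (.g (nat_lit 0) (.e (nat_lit 196146) (nat_lit 0) .nil) .nil))) 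
(.lf (nat_lit 511554) (.g (nat_lit 3691) (.e (nat_lit 172126) (nat_lit 14) (.e (nat_lit 491571) (nat_lit 13) (.e (nat_lit 393291) (nat_lit 26) (.e (nat_lit 475197) (nat_lit 40) (.e (nat_lit 704592) (nat_lit 4) .nil))))) (.g (nat_lit 1) (.e (nat_lit 197726) (nat_lit 0) .nil) .nil)))) (.nd (nat_lit 9) 
(.lf (nat_lit 511298) (.g (nat_lit 2911) (.e (nat_lit 172126) (nat_lit 14) (.e (nat_lit 491540) (nat_lit 3) (.e (nat_lit 98373) (nat_lit 29) (.e (nat_lit 450560) (nat_lit 0) (.e (nat_lit 3987) (nat_lit 239) (.e (nat_lit 2625) (nat_lit 164) .nil)))))) (.g (nat_lit 1) (.e (nat_lit 196908) (nat_lit 0) .nil) .nil))) 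
(.lf (nat_lit 511810) (.g (nat_lit 2638) (.e (nat_lit 172149) (nat_lit 27) (.e (nat_lit 336051) (nat_lit 6) (.e (nat_lit 147496) (nat_lit 11) (.e (nat_lit 24608) (nat_lit 3) (.e (nat_lit 98334) (nat_lit 18) .nil))))) (.g (nat_lit 0) (.e (nat_lit 198350) (nat_lit 0) .nil) .nil))))) (.nd (nat_lit 8) (.nd (nat_lit 9) 
(.lf (nat_lit 511170) (.g (nat_lit 674) (.e (nat_lit 172125) (nat_lit 14) (.e (nat_lit 491550) (nat_lit 9) (.e (nat_lit 336369) (nat_lit 27) .nil))) (.g (nat_lit 0) (.e (nat_lit 196634) (nat_lit 0) .nil) .nil))) 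
(.lf (nat_lit 511682) (.g (nat_lit 2336) (.e (nat_lit 179968) (nat_lit 18) (.e (nat_lit 98334) (nat_lit 18) (.e (nat_lit 164330) (nat_lit 230) (.e (nat_lit 163850) (nat_lit 0) (.e (nat_lit 3304) (nat_lit 202) .nil))))) (.g (nat_lit 0) (.e (nat_lit 198062) (nat_lit 0) .nil) .nil)))) (.nd (nat_lit 9) 
(.lf (nat_lit 511426) (.g (nat_lit 3081) (.e (nat_lit 172126) (nat_lit 14) (.e (nat_lit 491549) (nat_lit 9) (.e (nat_lit 336443) (nat_lit 32) (.e (nat_lit 466971) (nat_lit 21) (.e (nat_lit 164345) (nat_lit 240) (.e (nat_lit 2618) (nat_lit 164) .nil)))))) (.g (nat_lit 1) (.e (nat_lit 197130) (nat_lit 0) .nil) .nil))) 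
(.lf (nat_lit 511938) (.g (nat_lit 1504) (.e (nat_lit 172150) (nat_lit 27) (.e (nat_lit 336387) (nat_lit 27) (.e (nat_lit 426188) (nat_lit 9) (.e (nat_lit 426436) (nat_lit 18) (.e (nat_lit 98335) (nat_lit 18) .nil))))) (.g (nat_lit 0) (.e (nat_lit 198641) (nat_lit 0) .nil) .nil))))))) (.nd (nat_lit 6) (.nd (nat_lit 7) (.nd (nat_lit 8) (.nd (nat_lit 9) 
(.lf (nat_lit 511010) (.g (nat_lit 4126) (.e (nat_lit 172124) (nat_lit 14) (.e (nat_lit 491549) (nat_lit 9) (.e (nat_lit 336430) (nat_lit 29) (.e (nat_lit 442419) (nat_lit 21) (.e (nat_lit 164348) (nat_lit 240) (.e (nat_lit 2619) (nat_lit 164) .nil)))))) (.g (nat_lit 1) (.e (nat_lit 196110) (nat_lit 0) .nil) .nil))) 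
(.lf (nat_lit 511522) (.g (nat_lit 2192) (.e (nat_lit 172126) (nat_lit 14) (.e (nat_lit 491569) (nat_lit 13) (.e (nat_lit 393293) (nat_lit 26) (.e (nat_lit 475198) (nat_lit 40) (.e (nat_lit 704592) (nat_lit 4) .nil))))) (.g (nat_lit 1) (.e (nat_lit 197357) (nat_lit 0) .nil) .nil)))) (.nd (nat_lit 9) 
(.lf (nat_lit 511266) (.g (nat_lit 3313) (.e (nat_lit 172126) (nat_lit 14) (.e (nat_lit 491540) (nat_lit 3) (.e (nat_lit 98365) (nat_lit 26) (.e (nat_lit 426306) (nat_lit 12) (.e (nat_lit 475184) (nat_lit 29) (.e (nat_lit 557096) (nat_lit 13) .nil)))))) (.g (nat_lit 1) (.e (nat_lit 196859) (nat_lit 0) .nil) .nil))) 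
(.lf (nat_lit 511778) (.g (nat_lit 1462) (.e (nat_lit 172147) (nat_lit 27) (.e (nat_lit 335895) (nat_lit 0) (.e (nat_lit 6712) (nat_lit 360) (.e (nat_lit 163975) (nat_lit 30) .nil)))) (.g (nat_lit 0) (.e (nat_lit 198246) (nat_lit 0) .nil) .nil))))) (.nd (nat_lit 8) (.nd (nat_lit 9) 
(.lf (nat_lit 511138) (.g (nat_lit 3302) (.e (nat_lit 172124) (nat_lit 14) (.e (nat_lit 491570) (nat_lit 13) (.e (nat_lit 393283) (nat_lit 24) (.e (nat_lit 434271) (nat_lit 38) (.e (nat_lit 655378) (nat_lit 4) .nil))))) (.g (nat_lit 1) (.e (nat_lit 196358) (nat_lit 0) .nil) .nil))) 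
(.lf (nat_lit 511650) (.g (nat_lit 1823) (.e (nat_lit 172137) (nat_lit 15) (.e (nat_lit 1855) (nat_lit 124) (.e (nat_lit 557101) (nat_lit 13) (.e (nat_lit 172115) (nat_lit 10) (.e (nat_lit 434231) (nat_lit 23) .nil))))) (.g (nat_lit 0) (.e (nat_lit 198004) (nat_lit 0) .nil) .nil)))) (.nd (nat_lit 9) 
(.lf (nat_lit 511394) (.g (nat_lit 3150) (.e (nat_lit 172126) (nat_lit 14) (.e (nat_lit 491549) (nat_lit 9) (.e (nat_lit 336430) (nat_lit 29) (.e (nat_lit 442419) (nat_lit 21) (.e (nat_lit 164347) (nat_lit 240) (.e (nat_lit 2617) (nat_lit 164) .nil)))))) (.g (nat_lit 1) (.e (nat_lit 197086) (nat_lit 0) .nil) .nil))) 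
(.lf (nat_lit 511906) (.g (nat_lit 2647) (.e (nat_lit 172150) (nat_lit 27) (.e (nat_lit 336231) (nat_lit 14) (.e (nat_lit 401456) (nat_lit 13) (.e (nat_lit 483345) (nat_lit 17) (.e (nat_lit 6720) (nat_lit 361) .nil))))) (.g (nat_lit 1) (.e (nat_lit 198581) (nat_lit 0) .nil) .nil)))))) (.nd (nat_lit 7) (.nd (nat_lit 8) (.nd (nat_lit 9) 
(.lf (nat_lit 511074) (.g (nat_lit 3383) (.e (nat_lit 172124) (nat_lit 14) (.e (nat_lit 491550) (nat_lit 9) (.e (nat_lit 336432) (nat_lit 30) (.e (nat_lit 450565) (nat_lit 0) (.e (nat_lit 5548) (nat_lit 306) (.e (nat_lit 2629) (nat_lit 164) .nil)))))) (.g (nat_lit 1) (.e (nat_lit 196185) (nat_lit 0) .nil) .nil))) 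
(.lf (nat_lit 511586) (.g (nat_lit 2541) (.e (nat_lit 172133) (nat_lit 15) (.e (nat_lit 1800) (nat_lit 119) (.e (nat_lit 516120) (nat_lit 1) (.e (nat_lit 164330) (nat_lit 230) (.e (nat_lit 163850) (nat_lit 0) (.e (nat_lit 3252) (nat_lit 197) (.e (nat_lit 532515) (nat_lit 3) (.e (nat_lit 114716) (nat_lit 22) (.e (nat_lit 90168) (nat_lit 13) .nil))))))))) (.g (nat_lit 1) (.e (nat_lit 197891) (nat_lit 0) .nil) .nil)))) 
(.nd (nat_lit 9) 
(.lf (nat_lit 511330) (.g (nat_lit 4308) (.e (nat_lit 172126) (nat_lit 14) (.e (nat_lit 491540) (nat_lit 3) (.e (nat_lit 98373) (nat_lit 29) (.e (nat_lit 450563) (nat_lit 0) (.e (nat_lit 3968) (nat_lit 239) (.e (nat_lit 2625) (nat_lit 164) .nil)))))) (.g (nat_lit 1) (.e (nat_lit 196948) (nat_lit 0) .nil) .nil))) 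
(.lf (nat_lit 511842) (.g (nat_lit 1469) (.e (nat_lit 172150) (nat_lit 27) (.e (nat_lit 336196) (nat_lit 12) (.e (nat_lit 385104) (nat_lit 50) (.e (nat_lit 786473) (nat_lit 27) (.e (nat_lit 335872) (nat_lit 0) .nil))))) (.g (nat_lit 0) (.e (nat_lit 198480) (nat_lit 0) .nil) .nil))))) (.nd (nat_lit 8) (.nd (nat_lit 9) 
(.lf (nat_lit 511202) (.g (nat_lit 2148) (.e (nat_lit 172126) (nat_lit 14) (.e (nat_lit 491537) (nat_lit 2) (.e (nat_lit 90170) (nat_lit 13) (.e (nat_lit 172079) (nat_lit 7) (.e (nat_lit 409630) (nat_lit 12) .nil))))) (.g (nat_lit 0) (.e (nat_lit 196784) (nat_lit 0) .nil) .nil))) 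
(.lf (nat_lit 511714) (.g (nat_lit 1246) (.e (nat_lit 179968) (nat_lit 18) (.e (nat_lit 98384) (nat_lit 32) (.e (nat_lit 475177) (nat_lit 24) (.e (nat_lit 516148) (nat_lit 9) .nil)))) (.g (nat_lit 0) (.e (nat_lit 198107) (nat_lit 0) .nil) .nil)))) (.nd (nat_lit 9) 
(.lf (nat_lit 511458) (.g (nat_lit 3275) (.e (nat_lit 172126) (nat_lit 14) (.e (nat_lit 491550) (nat_lit 9) (.e (nat_lit 336434) (nat_lit 30) (.e (nat_lit 450564) (nat_lit 0) (.e (nat_lit 5548) (nat_lit 306) (.e (nat_lit 2619) (nat_lit 164) .nil)))))) (.g (nat_lit 1) (.e (nat_lit 197186) (nat_lit 0) .nil) .nil))) 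
(.lf (nat_lit 511970) (.g (nat_lit 2223) (.e (nat_lit 179968) (nat_lit 27) (.e (nat_lit 336235) (nat_lit 14) (.e (nat_lit 401459) (nat_lit 13) (.e (nat_lit 483343) (nat_lit 17) (.e (nat_lit 6720) (nat_lit 361) .nil))))) (.g (nat_lit 0) (.e (nat_lit 198710) (nat_lit 0) .nil) .nil)))))))) (.nd (nat_lit 5) (.nd (nat_lit 6) (.nd (nat_lit 7) (.nd (nat_lit 8) (.nd (nat_lit 9) 
(.lf (nat_lit 510994) (.g (nat_lit 3884) (.e (nat_lit 172124) (nat_lit 14) (.e (nat_lit 491549) (nat_lit 9) (.e (nat_lit 336426) (nat_lit 29) (.e (nat_lit 442430) (nat_lit 24) (.e (nat_lit 229663) (nat_lit 240) (.e (nat_lit 2630) (nat_lit 164) .nil)))))) (.g (nat_lit 1) (.e (nat_lit 196085) (nat_lit 0) .nil) .nil))) 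
(.lf (nat_lit 511506) (.g (nat_lit 991) (.e (nat_lit 172126) (nat_lit 14) (.e (nat_lit 491568) (nat_lit 13) (.e (nat_lit 393289) (nat_lit 25) .nil))) (.g (nat_lit 0) (.e (nat_lit 197293) (nat_lit 0) .nil) .nil)))) (.nd (nat_lit 9) 
(.lf (nat_lit 511250) (.g (nat_lit 3204) (.e (nat_lit 172126) (nat_lit 14) (.e (nat_lit 491537) (nat_lit 2) (.e (nat_lit 90185) (nat_lit 17) (.e (nat_lit 237619) (nat_lit 12) (.e (nat_lit 475185) (nat_lit 29) (.e (nat_lit 557099) (nat_lit 13) .nil)))))) (.g (nat_lit 1) (.e (nat_lit 196837) (nat_lit 0) .nil) .nil))) 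
(.lf (nat_lit 511762) (.g (nat_lit 3018) (.e (nat_lit 172145) (nat_lit 27) (.e (nat_lit 336091) (nat_lit 9) (.e (nat_lit 336295) (nat_lit 15) (.e (nat_lit 3632) (nat_lit 227) (.e (nat_lit 778323) (nat_lit 5) (.e (nat_lit 81664) (nat_lit 36) .nil)))))) (.g (nat_lit 1) (.e (nat_lit 198224) (nat_lit 0) .nil) .nil))))) (.nd (nat_lit 8) (.nd (nat_lit 9) 
(.lf (nat_lit 511122) (.g (nat_lit 693) (.e (nat_lit 172124) (nat_lit 14) (.e (nat_lit 491569) (nat_lit 13) (.e (nat_lit 393291) (nat_lit 26) .nil))) (.g (nat_lit 0) (.e (nat_lit 196287) (nat_lit 0) .nil) .nil))) 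
(.lf (nat_lit 511634) (.g (nat_lit 1221) (.e (nat_lit 172133) (nat_lit 15) (.e (nat_lit 2059) (nat_lit 142) (.e (nat_lit 704595) (nat_lit 5) (.e (nat_lit 188160) (nat_lit 37) .nil)))) (.g (nat_lit 0) (.e (nat_lit 197981) (nat_lit 0) .nil) .nil)))) (.nd (nat_lit 9) 
(.lf (nat_lit 511378) (.g (nat_lit 484) (.e (nat_lit 172126) (nat_lit 14) (.e (nat_lit 491549) (nat_lit 9) (.e (nat_lit 336426) (nat_lit 29) .nil))) (.g (nat_lit 0) (.e (nat_lit 197060) (nat_lit 0) .nil) .nil))) 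
(.lf (nat_lit 511890) (.g (nat_lit 1815) (.e (nat_lit 172150) (nat_lit 27) (.e (nat_lit 336231) (nat_lit 14) (.e (nat_lit 401444) (nat_lit 9) (.e (nat_lit 426503) (nat_lit 27) (.e (nat_lit 335892) (nat_lit 0) .nil))))) (.g (nat_lit 0) (.e (nat_lit 198554) (nat_lit 0) .nil) .nil)))))) (.nd (nat_lit 7) (.nd (nat_lit 8) (.nd (nat_lit 9) 
(.lf (nat_lit 511058) (.g (nat_lit 341) (.e (nat_lit 172124) (nat_lit 14) (.e (nat_lit 491550) (nat_lit 9) (.e (nat_lit 336430) (nat_lit 29) .nil))) (.g (nat_lit 0) (.e (nat_lit 196166) (nat_lit 0) .nil) .nil))) 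
(.lf (nat_lit 511570) (.g (nat_lit 3847) (.e (nat_lit 172132) (nat_lit 15) (.e (nat_lit 1853) (nat_lit 124) (.e (nat_lit 557109) (nat_lit 15) (.e (nat_lit 188452) (nat_lit 23) (.e (nat_lit 204817) (nat_lit 17) .nil))))) (.g (nat_lit 0) (.e (nat_lit 197864) (nat_lit 0) .nil) .nil)))) (.nd (nat_lit 9) 
(.lf (nat_lit 511314) (.g (nat_lit 4306) (.e (nat_lit 172126) (nat_lit 14) (.e (nat_lit 491540) (nat_lit 3) (.e (nat_lit 98373) (nat_lit 29) (.e (nat_lit 450562) (nat_lit 0) (.e (nat_lit 3955) (nat_lit 239) (.e (nat_lit 2626) (nat_lit 164) .nil)))))) (.g (nat_lit 1) (.e (nat_lit 196929) (nat_lit 0) .nil) .nil))) 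
(.lf (nat_lit 511826) (.g (nat_lit 3220) (.e (nat_lit 172150) (nat_lit 27) (.e (nat_lit 335894) (nat_lit 0) (.e (nat_lit 6724) (nat_lit 362) (.e (nat_lit 180225) (nat_lit 0) (.e (nat_lit 6420) (nat_lit 341) (.e (nat_lit 163843) (nat_lit 0) (.e (nat_lit 7936) (nat_lit 392) .nil))))))) (.g (nat_lit 1) (.e (nat_lit 198442) (nat_lit 0) .nil) .nil))))) (.nd (nat_lit 8) (.nd (nat_lit 9) 
(.lf (nat_lit 511186) (.g (nat_lit 3765) (.e (nat_lit 172125) (nat_lit 14) (.e (nat_lit 491569) (nat_lit 13) (.e (nat_lit 393283) (nat_lit 24) (.e (nat_lit 434272) (nat_lit 38) (.e (nat_lit 655378) (nat_lit 4) .nil))))) (.g (nat_lit 1) (.e (nat_lit 196658) (nat_lit 0) .nil) .nil))) 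
(.lf (nat_lit 511698) (.g (nat_lit 1697) (.e (nat_lit 179968) (nat_lit 18) (.e (nat_lit 98366) (nat_lit 27) (.e (nat_lit 434245) (nat_lit 28) (.e (nat_lit 573488) (nat_lit 14) (.e (nat_lit 73757) (nat_lit 11) .nil))))) (.g (nat_lit 0) (.e (nat_lit 198089) (nat_lit 0) .nil) .nil)))) (.nd (nat_lit 9) 
(.lf (nat_lit 511442) (.g (nat_lit 3010) (.e (nat_lit 172126) (nat_lit 14) (.e (nat_lit 491550) (nat_lit 9) (.e (nat_lit 336430) (nat_lit 29) (.e (nat_lit 442419) (nat_lit 21) (.e (nat_lit 164345) (nat_lit 240) (.e (nat_lit 2617) (nat_lit 164) .nil)))))) (.g (nat_lit 1) (.e (nat_lit 197159) (nat_lit 0) .nil) .nil))) 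
(.lf (nat_lit 511954) (.g (nat_lit 742) (.e (nat_lit 172148) (nat_lit 27) (.e (nat_lit 336194) (nat_lit 12) (.e (nat_lit 385105) (nat_lit 50) .nil))) (.g (nat_lit 0) (.e (nat_lit 198689) (nat_lit 0) .nil) .nil))))))) (.nd (nat_lit 6) (.nd (nat_lit 7) (.nd (nat_lit 8) (.nd (nat_lit 9) 
(.lf (nat_lit 511026) (.g (nat_lit 2530) (.e (nat_lit 172124) (nat_lit 14) (.e (nat_lit 491549) (nat_lit 9) (.e (nat_lit 336432) (nat_lit 30) (.e (nat_lit 450564) (nat_lit 0) (.e (nat_lit 5548) (nat_lit 306) (.e (nat_lit 2628) (nat_lit 164) .nil)))))) (.g (nat_lit 1) (.e (nat_lit 196127) (nat_lit 0) .nil) .nil))) 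
(.lf (nat_lit 511538) (.g (nat_lit 2623) (.e (nat_lit 172126) (nat_lit 14) (.e (nat_lit 491570) (nat_lit 13) (.e (nat_lit 393283) (nat_lit 24) (.e (nat_lit 434272) (nat_lit 38) (.e (nat_lit 655376) (nat_lit 4) .nil))))) (.g (nat_lit 1) (.e (nat_lit 197448) (nat_lit 0) .nil) .nil)))) (.nd (nat_lit 9) 
(.lf (nat_lit 511282) (.g (nat_lit 3243) (.e (nat_lit 172126) (nat_lit 14) (.e (nat_lit 491540) (nat_lit 3) (.e (nat_lit 98373) (nat_lit 29) (.e (nat_lit 450560) (nat_lit 0) (.e (nat_lit 3918) (nat_lit 239) (.e (nat_lit 2623) (nat_lit 164) .nil)))))) (.g (nat_lit 1) (.e (nat_lit 196888) (nat_lit 0) .nil) .nil))) 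
(.lf (nat_lit 511794) (.g (nat_lit 2121) (.e (nat_lit 172147) (nat_lit 27) (.e (nat_lit 336231) (nat_lit 14) (.e (nat_lit 401458) (nat_lit 13) (.e (nat_lit 483350) (nat_lit 17) (.e (nat_lit 7936) (nat_lit 361) .nil))))) (.g (nat_lit 1) (.e (nat_lit 198278) (nat_lit 0) .nil) .nil))))) (.nd (nat_lit 8) (.nd (nat_lit 9) 
(.lf (nat_lit 511154) (.g (nat_lit 2701) (.e (nat_lit 172124) (nat_lit 14) (.e (nat_lit 491571) (nat_lit 13) (.e (nat_lit 393292) (nat_lit 26) (.e (nat_lit 475195) (nat_lit 40) (.e (nat_lit 704593) (nat_lit 4) .nil))))) (.g (nat_lit 1) (.e (nat_lit 196589) (nat_lit 0) .nil) .nil))) 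
(.lf (nat_lit 511666) (.g (nat_lit 1630) (.e (nat_lit 179968) (nat_lit 15) (.e (nat_lit 1800) (nat_lit 119) (.e (nat_lit 516119) (nat_lit 1) (.e (nat_lit 164345) (nat_lit 240) (.e (nat_lit 2426) (nat_lit 157) .nil))))) (.g (nat_lit 0) (.e (nat_lit 198033) (nat_lit 0) .nil) .nil)))) (.nd (nat_lit 9) 
(.lf (nat_lit 511410) (.g (nat_lit 1927) (.e (nat_lit 172126) (nat_lit 14) (.e (nat_lit 491549) (nat_lit 9) (.e (nat_lit 336434) (nat_lit 30) (.e (nat_lit 450561) (nat_lit 0) (.e (nat_lit 5537) (nat_lit 306) .nil))))) (.g (nat_lit 0) (.e (nat_lit 197110) (nat_lit 0) .nil) .nil))) 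
(.lf (nat_lit 511922) (.g (nat_lit 724) (.e (nat_lit 172150) (nat_lit 27) (.e (nat_lit 336232) (nat_lit 14) (.e (nat_lit 401440) (nat_lit 9) (.e (nat_lit 433920) (nat_lit 27) .nil)))) (.g (nat_lit 0) (.e (nat_lit 198613) (nat_lit 0) .nil) .nil)))))) (.nd (nat_lit 7) (.nd (nat_lit 8) (.nd (nat_lit 9) 
(.lf (nat_lit 511090) (.g (nat_lit 2280) (.e (nat_lit 172124) (nat_lit 14) (.e (nat_lit 491550) (nat_lit 9) (.e (nat_lit 336443) (nat_lit 32) (.e (nat_lit 466971) (nat_lit 21) (.e (nat_lit 164348) (nat_lit 240) (.e (nat_lit 2618) (nat_lit 164) .nil)))))) (.g (nat_lit 1) (.e (nat_lit 196201) (nat_lit 0) .nil) .nil))) 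
(.lf (nat_lit 511602) (.g (nat_lit 708) (.e (nat_lit 172133) (nat_lit 15) (.e (nat_lit 2059) (nat_lit 142) (.e (nat_lit 704589) (nat_lit 3) .nil))) (.g (nat_lit 0) (.e (nat_lit 197916) (nat_lit 0) .nil) .nil)))) (.nd (nat_lit 9) 
(.lf (nat_lit 511346) (.g (nat_lit 1562) (.e (nat_lit 172126) (nat_lit 14) (.e (nat_lit 491540) (nat_lit 3) (.e (nat_lit 98373) (nat_lit 29) (.e (nat_lit 458496) (nat_lit 0) .nil)))) (.g (nat_lit 0) (.e (nat_lit 196966) (nat_lit 0) .nil) .nil))) 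
(.lf (nat_lit 511858) (.g (nat_lit 1520) (.e (nat_lit 172150) (nat_lit 27) (.e (nat_lit 336229) (nat_lit 14) (.e (nat_lit 401458) (nat_lit 13) (.e (nat_lit 483354) (nat_lit 17) .nil)))) (.g (nat_lit 0) (.e (nat_lit 198504) (nat_lit 0) .nil) .nil))))) (.nd (nat_lit 8) (.nd (nat_lit 9) 
(.lf (nat_lit 511218) (.g (nat_lit 1794) (.e (nat_lit 172126) (nat_lit 14) (.e (nat_lit 491537) (nat_lit 2) (.e (nat_lit 90170) (nat_lit 13) (.e (nat_lit 172113) (nat_lit 10) (.e (nat_lit 434201) (nat_lit 18) .nil))))) (.g (nat_lit 0) (.e (nat_lit 196800) (nat_lit 0) .nil) .nil))) 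
(.lf (nat_lit 511730) (.g (nat_lit 2477) (.e (nat_lit 172143) (nat_lit 25) (.e (nat_lit 319490) (nat_lit 0) (.e (nat_lit 5664) (nat_lit 312) (.e (nat_lit 3085) (nat_lit 191) (.e (nat_lit 483344) (nat_lit 17) .nil))))) (.g (nat_lit 0) (.e (nat_lit 198128) (nat_lit 0) .nil) .nil)))) (.nd (nat_lit 9) 
(.lf (nat_lit 511474) (.g (nat_lit 516) (.e (nat_lit 172126) (nat_lit 14) (.e (nat_lit 491566) (nat_lit 12) (.e (nat_lit 385107) (nat_lit 51) .nil))) (.g (nat_lit 0) (.e (nat_lit 197236) (nat_lit 0) .nil) .nil))) 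
(.lf (nat_lit 511986) (.g (nat_lit 1997) (.e (nat_lit 179968) (nat_lit 28) (.e (nat_lit 344069) (nat_lit 0) (.e (nat_lit 2856) (nat_lit 184) (.e (nat_lit 426530) (nat_lit 27) (.e (nat_lit 335872) (nat_lit 0) .nil))))) (.g (nat_lit 0) (.e (nat_lit 198729) (nat_lit 0) .nil) .nil))))))))) (.nd (nat_lit 4) (.nd (nat_lit 5) (.nd (nat_lit 6) (.nd (nat_lit 7) (.nd (nat_lit 8) (.nd (nat_lit 9) 
(.lf (nat_lit 510986) (.g (nat_lit 2157) (.e (nat_lit 172124) (nat_lit 14) (.e (nat_lit 491540) (nat_lit 3) (.e (nat_lit 98373) (nat_lit 29) (.e (nat_lit 450583) (nat_lit 7) (.e (nat_lit 548912) (nat_lit 18) .nil))))) (.g (nat_lit 1) (.e (nat_lit 196047) (nat_lit 0) .nil) .nil))) 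
(.lf (nat_lit 511498) (.g (nat_lit 1791) (.e (nat_lit 172126) (nat_lit 14) (.e (nat_lit 491568) (nat_lit 13) (.e (nat_lit 393282) (nat_lit 24) (.e (nat_lit 434209) (nat_lit 18) (.e (nat_lit 5547) (nat_lit 306) .nil))))) (.g (nat_lit 0) (.e (nat_lit 197280) (nat_lit 0) .nil) .nil)))) (.nd (nat_lit 9) 
(.lf (nat_lit 511242) (.g (nat_lit 2998) (.e (nat_lit 172126) (nat_lit 14) (.e (nat_lit 491537) (nat_lit 2) (.e (nat_lit 90174) (nat_lit 14) (.e (nat_lit 180288) (nat_lit 45) (.e (nat_lit 2571) (nat_lit 160) (.e (nat_lit 32806) (nat_lit 18) .nil)))))) (.g (nat_lit 1) (.e (nat_lit 196826) (nat_lit 0) .nil) .nil))) 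
(.lf (nat_lit 511754) (.g (nat_lit 2349) (.e (nat_lit 172144) (nat_lit 26) (.e (nat_lit 327700) (nat_lit 8) (.e (nat_lit 303145) (nat_lit 13) (.e (nat_lit 483343) (nat_lit 17) (.e (nat_lit 6718) (nat_lit 361) .nil))))) (.g (nat_lit 0) (.e (nat_lit 198208) (nat_lit 0) .nil) .nil))))) (.nd (nat_lit 8) (.nd (nat_lit 9) 
(.lf (nat_lit 511114) (.g (nat_lit 2243) (.e (nat_lit 172124) (nat_lit 14) (.e (nat_lit 491569) (nat_lit 13) (.e (nat_lit 393282) (nat_lit 24) (.e (nat_lit 434272) (nat_lit 38) (.e (nat_lit 655378) (nat_lit 4) .nil))))) (.g (nat_lit 1) (.e (nat_lit 196275) (nat_lit 0) .nil) .nil))) 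
(.lf (nat_lit 511626) (.g (nat_lit 5705) (.e (nat_lit 172133) (nat_lit 15) (.e (nat_lit 2059) (nat_lit 142) (.e (nat_lit 704589) (nat_lit 3) (.e (nat_lit 163979) (nat_lit 30) (.e (nat_lit 573491) (nat_lit 15) (.e (nat_lit 81951) (nat_lit 22) (.e (nat_lit 90168) (nat_lit 13) .nil))))))) (.g (nat_lit 1) (.e (nat_lit 197957) (nat_lit 0) .nil) .nil)))) (.nd (nat_lit 9) 
(.lf (nat_lit 511370) (.g (nat_lit 2449) (.e (nat_lit 172126) (nat_lit 14) (.e (nat_lit 491549) (nat_lit 9) (.e (nat_lit 336369) (nat_lit 27) (.e (nat_lit 426317) (nat_lit 12) (.e (nat_lit 475197) (nat_lit 40) (.e (nat_lit 704592) (nat_lit 4) .nil)))))) (.g (nat_lit 1) (.e (nat_lit 197034) (nat_lit 0) .nil) .nil))) 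
(.lf (nat_lit 511882) (.g (nat_lit 2519) (.e (nat_lit 172150) (nat_lit 27) (.e (nat_lit 336231) (nat_lit 14) (.e (nat_lit 401437) (nat_lit 9) (.e (nat_lit 426533) (nat_lit 28) (.e (nat_lit 352000) (nat_lit 4) .nil))))) (.g (nat_lit 1) (.e (nat_lit 198540) (nat_lit 0) .nil) .nil)))))) (.nd (nat_lit 7) (.nd (nat_lit 8) (.nd (nat_lit 9) 
(.lf (nat_lit 511050) (.g (nat_lit 2261) (.e (nat_lit 172124) (nat_lit 14) (.e (nat_lit 491549) (nat_lit 9) (.e (nat_lit 336443) (nat_lit 32) (.e (nat_lit 466971) (nat_lit 21) (.e (nat_lit 164348) (nat_lit 240) (.e (nat_lit 2618) (nat_lit 164) .nil)))))) (.g (nat_lit 1) (.e (nat_lit 196154) (nat_lit 0) .nil) .nil))) 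
(.lf (nat_lit 511562) (.g (nat_lit 1624) (.e (nat_lit 172132) (nat_lit 15) (.e (nat_lit 1796) (nat_lit 119) (.e (nat_lit 516119) (nat_lit 1) (.e (nat_lit 164345) (nat_lit 240) (.e (nat_lit 2601) (nat_lit 163) .nil))))) (.g (nat_lit 0) (.e (nat_lit 197853) (nat_lit 0) .nil) .nil)))) (.nd (nat_lit 9) 
(.lf (nat_lit 511306) (.g (nat_lit 3291) (.e (nat_lit 172126) (nat_lit 14) (.e (nat_lit 491540) (nat_lit 3) (.e (nat_lit 98373) (nat_lit 29) (.e (nat_lit 450560) (nat_lit 0) (.e (nat_lit 3969) (nat_lit 239) (.e (nat_lit 2625) (nat_lit 164) .nil)))))) (.g (nat_lit 1) (.e (nat_lit 196918) (nat_lit 0) .nil) .nil))) 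
(.lf (nat_lit 511818) (.g (nat_lit 833) (.e (nat_lit 172150) (nat_lit 27) (.e (nat_lit 335894) (nat_lit 0) (.e (nat_lit 6712) (nat_lit 360) .nil))) (.g (nat_lit 0) (.e (nat_lit 198399) (nat_lit 0) .nil) .nil))))) (.nd (nat_lit 8) (.nd (nat_lit 9) 
(.lf (nat_lit 511178) (.g (nat_lit 2628) (.e (nat_lit 172125) (nat_lit 14) (.e (nat_lit 491566) (nat_lit 12) (.e (nat_lit 385109) (nat_lit 51) (.e (nat_lit 794683) (nat_lit 25) .nil)))) (.g (nat_lit 0) (.e (nat_lit 196649) (nat_lit 0) .nil) .nil))) 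
(.lf (nat_lit 511690) (.g (nat_lit 371) (.e (nat_lit 179968) (nat_lit 18) (.e (nat_lit 98335) (nat_lit 18) (.e (nat_lit 164332) (nat_lit 230) .nil))) (.g (nat_lit 0) (.e (nat_lit 198080) (nat_lit 0) .nil) .nil)))) (.nd (nat_lit 9) 
(.lf (nat_lit 511434) (.g (nat_lit 4527) (.e (nat_lit 172126) (nat_lit 14) (.e (nat_lit 491550) (nat_lit 9) (.e (nat_lit 336369) (nat_lit 27) (.e (nat_lit 426317) (nat_lit 12) (.e (nat_lit 475198) (nat_lit 40) (.e (nat_lit 704592) (nat_lit 4) .nil)))))) (.g (nat_lit 1) (.e (nat_lit 197141) (nat_lit 0) .nil) .nil))) 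
(.lf (nat_lit 511946) (.g (nat_lit 3057) (.e (nat_lit 172150) (nat_lit 27) (.e (nat_lit 336387) (nat_lit 27) (.e (nat_lit 426200) (nat_lit 9) (.e (nat_lit 426436) (nat_lit 18) (.e (nat_lit 98335) (nat_lit 18) (.e (nat_lit 164305) (nat_lit 226) (.e (nat_lit 2622) (nat_lit 164) .nil))))))) (.g (nat_lit 1) (.e (nat_lit 198655) (nat_lit 0) .nil) .nil))))))) 
(.nd (nat_lit 6) (.nd (nat_lit 7) (.nd (nat_lit 8) (.nd (nat_lit 9) 
(.lf (nat_lit 511018) (.g (nat_lit 4179) (.e (nat_lit 172124) (nat_lit 14) (.e (nat_lit 491549) (nat_lit 9) (.e (nat_lit 336430) (nat_lit 29) (.e (nat_lit 442428) (nat_lit 24) (.e (nat_lit 229663) (nat_lit 240) (.e (nat_lit 2622) (nat_lit 164) .nil)))))) (.g (nat_lit 1) (.e (nat_lit 196118) (nat_lit 0) .nil) .nil))) 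
(.lf (nat_lit 511530) (.g (nat_lit 1749) (.e (nat_lit 172126) (nat_lit 14) (.e (nat_lit 491570) (nat_lit 13) (.e (nat_lit 393267) (nat_lit 23) (.e (nat_lit 426442) (nat_lit 19) (.e (nat_lit 114432) (nat_lit 4) .nil))))) (.g (nat_lit 1) (.e (nat_lit 197392) (nat_lit 0) .nil) .nil)))) (.nd (nat_lit 9) 
(.lf (nat_lit 511274) (.g (nat_lit 2339) (.e (nat_lit 172126) (nat_lit 14) (.e (nat_lit 491540) (nat_lit 3) (.e (nat_lit 98367) (nat_lit 27) (.e (nat_lit 434190) (nat_lit 13) .nil)))) (.g (nat_lit 0) (.e (nat_lit 196870) (nat_lit 0) .nil) .nil))) 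
(.lf (nat_lit 511786) (.g (nat_lit 435) (.e (nat_lit 172147) (nat_lit 27) (.e (nat_lit 336229) (nat_lit 14) (.e (nat_lit 401459) (nat_lit 13) .nil))) (.g (nat_lit 0) (.e (nat_lit 198263) (nat_lit 0) .nil) .nil))))) (.nd (nat_lit 8) (.nd (nat_lit 9) 
(.lf (nat_lit 511146) (.g (nat_lit 2835) (.e (nat_lit 172124) (nat_lit 14) (.e (nat_lit 491571) (nat_lit 13) (.e (nat_lit 393268) (nat_lit 23) (.e (nat_lit 426444) (nat_lit 19) (.e (nat_lit 114432) (nat_lit 4) .nil))))) (.g (nat_lit 1) (.e (nat_lit 196502) (nat_lit 0) .nil) .nil))) 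
(.lf (nat_lit 511658) (.g (nat_lit 2717) (.e (nat_lit 172138) (nat_lit 15) (.e (nat_lit 1856) (nat_lit 124) (.e (nat_lit 557109) (nat_lit 15) (.e (nat_lit 188452) (nat_lit 23) (.e (nat_lit 204821) (nat_lit 17) .nil))))) (.g (nat_lit 0) (.e (nat_lit 198021) (nat_lit 0) .nil) .nil)))) (.nd (nat_lit 9) 
(.lf (nat_lit 511402) (.g (nat_lit 1345) (.e (nat_lit 172126) (nat_lit 14) (.e (nat_lit 491549) (nat_lit 9) (.e (nat_lit 336432) (nat_lit 30) (.e (nat_lit 450564) (nat_lit 0) .nil)))) (.g (nat_lit 0) (.e (nat_lit 197101) (nat_lit 0) .nil) .nil))) 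
(.lf (nat_lit 511914) (.g (nat_lit 1880) (.e (nat_lit 172150) (nat_lit 27) (.e (nat_lit 336231) (nat_lit 14) (.e (nat_lit 401458) (nat_lit 13) (.e (nat_lit 483361) (nat_lit 17) .nil)))) (.g (nat_lit 0) (.e (nat_lit 198593) (nat_lit 0) .nil) .nil)))))) (.nd (nat_lit 7) (.nd (nat_lit 8) (.nd (nat_lit 9) 
(.lf (nat_lit 511082) (.g (nat_lit 2239) (.e (nat_lit 172124) (nat_lit 14) (.e (nat_lit 491550) (nat_lit 9) (.e (nat_lit 336434) (nat_lit 30) (.e (nat_lit 450564) (nat_lit 0) (.e (nat_lit 5547) (nat_lit 306) (.e (nat_lit 2629) (nat_lit 164) .nil)))))) (.g (nat_lit 1) (.e (nat_lit 196193) (nat_lit 0) .nil) .nil))) 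
(.lf (nat_lit 511594) (.g (nat_lit 1795) (.e (nat_lit 172133) (nat_lit 15) (.e (nat_lit 1856) (nat_lit 124) (.e (nat_lit 557100) (nat_lit 13) (.e (nat_lit 172115) (nat_lit 10) .nil)))) (.g (nat_lit 0) (.e (nat_lit 197906) (nat_lit 0) .nil) .nil)))) (.nd (nat_lit 9) 
(.lf (nat_lit 511338) (.g (nat_lit 3413) (.e (nat_lit 172126) (nat_lit 14) (.e (nat_lit 491540) (nat_lit 3) (.e (nat_lit 98373) (nat_lit 29) (.e (nat_lit 450566) (nat_lit 0) (.e (nat_lit 3966) (nat_lit 239) (.e (nat_lit 2625) (nat_lit 164) .nil)))))) (.g (nat_lit 1) (.e (nat_lit 196958) (nat_lit 0) .nil) .nil))) 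
(.lf (nat_lit 511850) (.g (nat_lit 1911) (.e (nat_lit 172150) (nat_lit 27) (.e (nat_lit 336226) (nat_lit 14) (.e (nat_lit 401437) (nat_lit 9) (.e (nat_lit 426533) (nat_lit 28) (.e (nat_lit 352000) (nat_lit 4) .nil))))) (.g (nat_lit 1) (.e (nat_lit 198495) (nat_lit 0) .nil) .nil))))) (.nd (nat_lit 8) (.nd (nat_lit 9) 
(.lf (nat_lit 511210) (.g (nat_lit 4126) (.e (nat_lit 172126) (nat_lit 14) (.e (nat_lit 491537) (nat_lit 2) (.e (nat_lit 90170) (nat_lit 13) (.e (nat_lit 172106) (nat_lit 10) (.e (nat_lit 434209) (nat_lit 18) (.e (nat_lit 3944) (nat_lit 239) (.e (nat_lit 2616) (nat_lit 164) .nil))))))) (.g (nat_lit 1) (.e (nat_lit 196792) (nat_lit 0) .nil) .nil))) 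
(.lf (nat_lit 511722) (.g (nat_lit 2044) (.e (nat_lit 172142) (nat_lit 24) (.e (nat_lit 163584) (nat_lit 6) (.e (nat_lit 188455) (nat_lit 24) (.e (nat_lit 229678) (nat_lit 244) (.e (nat_lit 163850) (nat_lit 0) (.e (nat_lit 7936) (nat_lit 392) .nil)))))) (.g (nat_lit 1) (.e (nat_lit 198118) (nat_lit 0) .nil) .nil)))) (.nd (nat_lit 9) 
(.lf (nat_lit 511466) (.g (nat_lit 3259) (.e (nat_lit 172126) (nat_lit 14) (.e (nat_lit 491550) (nat_lit 9) (.e (nat_lit 336443) (nat_lit 32) (.e (nat_lit 466972) (nat_lit 21) (.e (nat_lit 164345) (nat_lit 240) (.e (nat_lit 2618) (nat_lit 164) .nil)))))) (.g (nat_lit 1) (.e (nat_lit 197198) (nat_lit 0) .nil) .nil))) 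
(.lf (nat_lit 511978) (.g (nat_lit 1580) (.e (nat_lit 179968) (nat_lit 28) (.e (nat_lit 344068) (nat_lit 0) (.e (nat_lit 2856) (nat_lit 184) (.e (nat_lit 426533) (nat_lit 28) (.e (nat_lit 352000) (nat_lit 4) .nil))))) (.g (nat_lit 0) (.e (nat_lit 198720) (nat_lit 0) .nil) .nil)))))))) (.nd (nat_lit 5) (.nd (nat_lit 6) (.nd (nat_lit 7) (.nd (nat_lit 8) (.nd (nat_lit 9) 
(.lf (nat_lit 511002) (.g (nat_lit 1350) (.e (nat_lit 172124) (nat_lit 14) (.e (nat_lit 491549) (nat_lit 9) (.e (nat_lit 336430) (nat_lit 29) (.e (nat_lit 442395) (nat_lit 20) (.e (nat_lit 3399) (nat_lit 211) .nil))))) (.g (nat_lit 0) (.e (nat_lit 196099) (nat_lit 0) .nil) .nil))) 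
(.lf (nat_lit 511514) (.g (nat_lit 814) (.e (nat_lit 172126) (nat_lit 14) (.e (nat_lit 491569) (nat_lit 13) (.e (nat_lit 393276) (nat_lit 23) .nil))) (.g (nat_lit 0) (.e (nat_lit 197320) (nat_lit 0) .nil) .nil)))) (.nd (nat_lit 9) 
(.lf (nat_lit 511258) (.g (nat_lit 1361) (.e (nat_lit 172126) (nat_lit 14) (.e (nat_lit 491540) (nat_lit 3) (.e (nat_lit 98358) (nat_lit 26) (.e (nat_lit 426227) (nat_lit 9) (.e (nat_lit 433920) (nat_lit 15) .nil))))) (.g (nat_lit 0) (.e (nat_lit 196850) (nat_lit 0) .nil) .nil))) 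
(.lf (nat_lit 511770) (.g (nat_lit 726) (.e (nat_lit 172145) (nat_lit 27) (.e (nat_lit 336231) (nat_lit 14) (.e (nat_lit 401437) (nat_lit 9) .nil))) (.g (nat_lit 0) (.e (nat_lit 198233) (nat_lit 0) .nil) .nil))))) (.nd (nat_lit 8) (.nd (nat_lit 9) 
(.lf (nat_lit 511130) (.g (nat_lit 1565) (.e (nat_lit 172124) (nat_lit 14) (.e (nat_lit 491570) (nat_lit 13) (.e (nat_lit 393271) (nat_lit 23) (.e (nat_lit 425998) (nat_lit 0) .nil)))) (.g (nat_lit 0) (.e (nat_lit 196314) (nat_lit 0) .nil) .nil))) 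
(.lf (nat_lit 511642) (.g (nat_lit 1945) (.e (nat_lit 172136) (nat_lit 15) (.e (nat_lit 1800) (nat_lit 119) (.e (nat_lit 516119) (nat_lit 1) (.e (nat_lit 164345) (nat_lit 240) (.e (nat_lit 2600) (nat_lit 163) .nil))))) (.g (nat_lit 0) (.e (nat_lit 197991) (nat_lit 0) .nil) .nil)))) (.nd (nat_lit 9) 
(.lf (nat_lit 511386) (.g (nat_lit 2489) (.e (nat_lit 172126) (nat_lit 14) (.e (nat_lit 491549) (nat_lit 9) (.e (nat_lit 336430) (nat_lit 29) (.e (nat_lit 442376) (nat_lit 0) (.e (nat_lit 2146) (nat_lit 142) (.e (nat_lit 704591) (nat_lit 4) .nil)))))) (.g (nat_lit 1) (.e (nat_lit 197074) (nat_lit 0) .nil) .nil))) 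
(.lf (nat_lit 511898) (.g (nat_lit 1233) (.e (nat_lit 172150) (nat_lit 27) (.e (nat_lit 336231) (nat_lit 14) (.e (nat_lit 401446) (nat_lit 10) (.e (nat_lit 434207) (nat_lit 18) (.e (nat_lit 6416) (nat_lit 341) (.e (nat_lit 163843) (nat_lit 0) (.e (nat_lit 7936) (nat_lit 392) .nil))))))) (.g (nat_lit 1) (.e (nat_lit 198565) (nat_lit 0) .nil) .nil)))))) 
(.nd (nat_lit 7) (.nd (nat_lit 8) (.nd (nat_lit 9) 
(.lf (nat_lit 511066) (.g (nat_lit 2115) (.e (nat_lit 172124) (nat_lit 14) (.e (nat_lit 491550) (nat_lit 9) (.e (nat_lit 336430) (nat_lit 29) (.e (nat_lit 442421) (nat_lit 21) (.e (nat_lit 164348) (nat_lit 240) (.e (nat_lit 2618) (nat_lit 164) .nil)))))) (.g (nat_lit 1) (.e (nat_lit 196177) (nat_lit 0) .nil) .nil))) 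
(.lf (nat_lit 511578) (.g (nat_lit 2773) (.e (nat_lit 172133) (nat_lit 15) (.e (nat_lit 1800) (nat_lit 119) (.e (nat_lit 516117) (nat_lit 1) (.e (nat_lit 164330) (nat_lit 230) (.e (nat_lit 163850) (nat_lit 0) (.e (nat_lit 3252) (nat_lit 197) (.e (nat_lit 532513) (nat_lit 3) (.e (nat_lit 114714) (nat_lit 22) (.e (nat_lit 90169) (nat_lit 13) .nil))))))))) (.g (nat_lit 1) (.e (nat_lit 197874) (nat_lit 0) .nil) .nil)))) 
(.nd (nat_lit 9) 
(.lf (nat_lit 511322) (.g (nat_lit 4440) (.e (nat_lit 172126) (nat_lit 14) (.e (nat_lit 491540) (nat_lit 3) (.e (nat_lit 98373) (nat_lit 29) (.e (nat_lit 450563) (nat_lit 0) (.e (nat_lit 3921) (nat_lit 239) (.e (nat_lit 7936) (nat_lit 164) .nil)))))) (.g (nat_lit 1) (.e (nat_lit 196940) (nat_lit 0) .nil) .nil))) 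
(.lf (nat_lit 511834) (.g (nat_lit 549) (.e (nat_lit 172150) (nat_lit 27) (.e (nat_lit 336078) (nat_lit 9) (.e (nat_lit 336283) (nat_lit 15) .nil))) (.g (nat_lit 0) (.e (nat_lit 198463) (nat_lit 0) .nil) .nil))))) (.nd (nat_lit 8) (.nd (nat_lit 9) 
(.lf (nat_lit 511194) (.g (nat_lit 540) (.e (nat_lit 172126) (nat_lit 14) (.e (nat_lit 491537) (nat_lit 2) (.e (nat_lit 90134) (nat_lit 9) .nil))) (.g (nat_lit 0) (.e (nat_lit 196773) (nat_lit 0) .nil) .nil))) 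
(.lf (nat_lit 511706) (.g (nat_lit 2261) (.e (nat_lit 179968) (nat_lit 18) (.e (nat_lit 98367) (nat_lit 27) (.e (nat_lit 434245) (nat_lit 28) (.e (nat_lit 573487) (nat_lit 14) (.e (nat_lit 73757) (nat_lit 11) .nil))))) (.g (nat_lit 0) (.e (nat_lit 198097) (nat_lit 0) .nil) .nil)))) (.nd (nat_lit 9) 
(.lf (nat_lit 511450) (.g (nat_lit 4382) (.e (nat_lit 172126) (nat_lit 14) (.e (nat_lit 491550) (nat_lit 9) (.e (nat_lit 336430) (nat_lit 29) (.e (nat_lit 442430) (nat_lit 24) (.e (nat_lit 229663) (nat_lit 240) (.e (nat_lit 2630) (nat_lit 164) .nil)))))) (.g (nat_lit 1) (.e (nat_lit 197171) (nat_lit 0) .nil) .nil))) 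
(.lf (nat_lit 511962) (.g (nat_lit 1655) (.e (nat_lit 179968) (nat_lit 27) (.e (nat_lit 336228) (nat_lit 14) (.e (nat_lit 401437) (nat_lit 9) (.e (nat_lit 426530) (nat_lit 27) (.e (nat_lit 335872) (nat_lit 0) .nil))))) (.g (nat_lit 0) (.e (nat_lit 198700) (nat_lit 0) .nil) .nil))))))) (.nd (nat_lit 6) (.nd (nat_lit 7) (.nd (nat_lit 8) (.nd (nat_lit 9) 
(.lf (nat_lit 511034) (.g (nat_lit 2756) (.e (nat_lit 172124) (nat_lit 14) (.e (nat_lit 491549) (nat_lit 9) (.e (nat_lit 336434) (nat_lit 30) (.e (nat_lit 450564) (nat_lit 0) (.e (nat_lit 5547) (nat_lit 306) (.e (nat_lit 2629) (nat_lit 164) .nil)))))) (.g (nat_lit 1) (.e (nat_lit 196137) (nat_lit 0) .nil) .nil))) 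
(.lf (nat_lit 511546) (.g (nat_lit 3286) (.e (nat_lit 172126) (nat_lit 14) (.e (nat_lit 491570) (nat_lit 13) (.e (nat_lit 393294) (nat_lit 26) (.e (nat_lit 475198) (nat_lit 40) (.e (nat_lit 704592) (nat_lit 4) .nil))))) (.g (nat_lit 1) (.e (nat_lit 197469) (nat_lit 0) .nil) .nil)))) (.nd (nat_lit 9) 
(.lf (nat_lit 511290) (.g (nat_lit 3450) (.e (nat_lit 172126) (nat_lit 14) (.e (nat_lit 491540) (nat_lit 3) (.e (nat_lit 98373) (nat_lit 29) (.e (nat_lit 450560) (nat_lit 0) (.e (nat_lit 3943) (nat_lit 239) (.e (nat_lit 2625) (nat_lit 164) .nil)))))) (.g (nat_lit 1) (.e (nat_lit 196900) (nat_lit 0) .nil) .nil))) 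
(.lf (nat_lit 511802) (.g (nat_lit 1864) (.e (nat_lit 172149) (nat_lit 27) (.e (nat_lit 336051) (nat_lit 6) (.e (nat_lit 147495) (nat_lit 11) (.e (nat_lit 24606) (nat_lit 3) .nil)))) (.g (nat_lit 0) (.e (nat_lit 198342) (nat_lit 0) .nil) .nil))))) (.nd (nat_lit 8) (.nd (nat_lit 9) 
(.lf (nat_lit 511162) (.g (nat_lit 2266) (.e (nat_lit 172125) (nat_lit 14) (.e (nat_lit 491537) (nat_lit 2) (.e (nat_lit 90185) (nat_lit 17) (.e (nat_lit 237605) (nat_lit 9) (.e (nat_lit 425986) (nat_lit 0) .nil))))) (.g (nat_lit 0) (.e (nat_lit 196626) (nat_lit 0) .nil) .nil))) 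
(.lf (nat_lit 511674) (.g (nat_lit 2495) (.e (nat_lit 179968) (nat_lit 15) (.e (nat_lit 1853) (nat_lit 124) (.e (nat_lit 557108) (nat_lit 15) (.e (nat_lit 188452) (nat_lit 23) (.e (nat_lit 204819) (nat_lit 17) .nil))))) (.g (nat_lit 0) (.e (nat_lit 198042) (nat_lit 0) .nil) .nil)))) (.nd (nat_lit 9) 
(.lf (nat_lit 511418) (.g (nat_lit 3416) (.e (nat_lit 172126) (nat_lit 14) (.e (nat_lit 491549) (nat_lit 9) (.e (nat_lit 336434) (nat_lit 30) (.e (nat_lit 450593) (nat_lit 16) (.e (nat_lit 655377) (nat_lit 4) .nil))))) (.g (nat_lit 1) (.e (nat_lit 197119) (nat_lit 0) .nil) .nil))) 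
(.lf (nat_lit 511930) (.g (nat_lit 2190) (.e (nat_lit 172150) (nat_lit 27) (.e (nat_lit 336232) (nat_lit 14) (.e (nat_lit 401456) (nat_lit 13) (.e (nat_lit 483342) (nat_lit 17) (.e (nat_lit 6718) (nat_lit 361) .nil))))) (.g (nat_lit 0) (.e (nat_lit 198631) (nat_lit 0) .nil) .nil)))))) (.nd (nat_lit 7) (.nd (nat_lit 8) (.nd (nat_lit 9) 
(.lf (nat_lit 511098) (.g (nat_lit 1416) (.e (nat_lit 172124) (nat_lit 14) (.e (nat_lit 491568) (nat_lit 13) (.e (nat_lit 393266) (nat_lit 23) (.e (nat_lit 426025) (nat_lit 0) .nil)))) (.g (nat_lit 0) (.e (nat_lit 196232) (nat_lit 0) .nil) .nil))) 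
(.lf (nat_lit 511610) (.g (nat_lit 8215) (.e (nat_lit 172133) (nat_lit 15) (.e (nat_lit 2059) (nat_lit 142) (.e (nat_lit 704589) (nat_lit 3) (.e (nat_lit 163975) (nat_lit 30) (.e (nat_lit 573492) (nat_lit 15) (.e (nat_lit 81953) (nat_lit 22) (.e (nat_lit 90167) (nat_lit 13) .nil))))))) (.g (nat_lit 1) (.e (nat_lit 197931) (nat_lit 0) .nil) .nil)))) (.nd (nat_lit 9) 
(.lf (nat_lit 511354) (.g (nat_lit 434) (.e (nat_lit 172126) (nat_lit 14) (.e (nat_lit 491547) (nat_lit 9) (.e (nat_lit 336430) (nat_lit 29) .nil))) (.g (nat_lit 0) (.e (nat_lit 196982) (nat_lit 0) .nil) .nil))) 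
(.lf (nat_lit 511866) (.g (nat_lit 539) (.e (nat_lit 172150) (nat_lit 27) (.e (nat_lit 336230) (nat_lit 14) (.e (nat_lit 401440) (nat_lit 9) (.e (nat_lit 426470) (nat_lit 25) .nil)))) (.g (nat_lit 0) (.e (nat_lit 198515) (nat_lit 0) .nil) .nil))))) (.nd (nat_lit 8) (.nd (nat_lit 9) 
(.lf (nat_lit 511226) (.g (nat_lit 1990) (.e (nat_lit 172126) (nat_lit 14) (.e (nat_lit 491537) (nat_lit 2) (.e (nat_lit 90170) (nat_lit 13) (.e (nat_lit 172113) (nat_lit 10) (.e (nat_lit 434208) (nat_lit 18) (.e (nat_lit 3955) (nat_lit 239) (.e (nat_lit 2625) (nat_lit 164) .nil))))))) (.g (nat_lit 1) (.e (nat_lit 196809) (nat_lit 0) .nil) .nil))) 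
(.lf (nat_lit 511738) (.g (nat_lit 1083) (.e (nat_lit 172143) (nat_lit 25) (.e (nat_lit 319491) (nat_lit 0) (.e (nat_lit 5664) (nat_lit 312) (.e (nat_lit 2852) (nat_lit 184) (.e (nat_lit 426530) (nat_lit 27) .nil))))) (.g (nat_lit 0) (.e (nat_lit 198136) (nat_lit 0) .nil) .nil)))) (.nd (nat_lit 9) 
(.lf (nat_lit 511482) (.g (nat_lit 1641) (.e (nat_lit 172126) (nat_lit 14) (.e (nat_lit 491568) (nat_lit 13) (.e (nat_lit 393274) (nat_lit 23) (.e (nat_lit 426412) (nat_lit 15) .nil)))) (.g (nat_lit 0) (.e (nat_lit 197262) (nat_lit 0) .nil) .nil))) 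
(.lf (nat_lit 511994) (.g (nat_lit 1318) (.e (nat_lit 179968) (nat_lit 28) (.e (nat_lit 344069) (nat_lit 0) (.e (nat_lit 3090) (nat_lit 191) (.e (nat_lit 483354) (nat_lit 17) (.e (nat_lit 7936) (nat_lit 361) .nil))))) (.g (nat_lit 0) (.e (nat_lit 198737) (nat_lit 0) .nil) .nil)))))))))) 
(.nd (nat_lit 3) (.nd (nat_lit 4) (.nd (nat_lit 5) (.nd (nat_lit 6) (.nd (nat_lit 7) 
(.nd (nat_lit 8) (.nd (nat_lit 9) 
(.lf (nat_lit 510982) (.g (nat_lit 3593) (.e (nat_lit 172124) (nat_lit 14) (.e (nat_lit 491540) (nat_lit 3) (.e (nat_lit 98373) (nat_lit 29) (.e (nat_lit 450568) (nat_lit 0) (.e (nat_lit 3978) (nat_lit 239) (.e (nat_lit 2629) (nat_lit 164) .nil)))))) (.g (nat_lit 1) (.e (nat_lit 196043) (nat_lit 0) .nil) .nil))) 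
(.lf (nat_lit 511494) (.g (nat_lit 2361) (.e (nat_lit 172126) (nat_lit 14) (.e (nat_lit 491568) (nat_lit 13) (.e (nat_lit 393281) (nat_lit 23) (.e (nat_lit 426108) (nat_lit 1) (.e (nat_lit 164345) (nat_lit 240) .nil))))) (.g (nat_lit 0) (.e (nat_lit 197276) (nat_lit 0) .nil) .nil)))) (.nd (nat_lit 9) 
(.lf (nat_lit 511238) (.g (nat_lit 3059) (.e (nat_lit 172126) (nat_lit 14) (.e (nat_lit 491537) (nat_lit 2) (.e (nat_lit 90170) (nat_lit 13) (.e (nat_lit 172126) (nat_lit 14) (.e (nat_lit 491535) (nat_lit 2) (.e (nat_lit 90167) (nat_lit 13) .nil)))))) (.g (nat_lit 1) (.e (nat_lit 196821) (nat_lit 0) .nil) .nil))) 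
(.lf (nat_lit 511750) (.g (nat_lit 2455) (.e (nat_lit 172144) (nat_lit 26) (.e (nat_lit 327700) (nat_lit 8) (.e (nat_lit 303133) (nat_lit 9) (.e (nat_lit 426499) (nat_lit 27) (.e (nat_lit 335894) (nat_lit 0) .nil))))) (.g (nat_lit 0) (.e (nat_lit 198204) (nat_lit 0) .nil) .nil))))) (.nd (nat_lit 8) (.nd (nat_lit 9) 
(.lf (nat_lit 511110) (.g (nat_lit 691) (.e (nat_lit 172124) (nat_lit 14) (.e (nat_lit 491569) (nat_lit 13) (.e (nat_lit 393272) (nat_lit 23) .nil))) (.g (nat_lit 0) (.e (nat_lit 196250) (nat_lit 0) .nil) .nil))) 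
(.lf (nat_lit 511622) (.g (nat_lit 3597) (.e (nat_lit 172133) (nat_lit 15) (.e (nat_lit 2059) (nat_lit 142) (.e (nat_lit 704589) (nat_lit 3) (.e (nat_lit 163979) (nat_lit 30) (.e (nat_lit 573482) (nat_lit 13) (.e (nat_lit 65619) (nat_lit 10) (.e (nat_lit 344105) (nat_lit 19) (.e (nat_lit 499916) (nat_lit 9) .nil)))))))) (.g (nat_lit 1) (.e (nat_lit 197953) (nat_lit 0) .nil) .nil)))) 
(.nd (nat_lit 9) 
(.lf (nat_lit 511366) (.g (nat_lit 1977) (.e (nat_lit 172126) (nat_lit 14) (.e (nat_lit 491547) (nat_lit 9) (.e (nat_lit 336443) (nat_lit 32) (.e (nat_lit 466971) (nat_lit 21) (.e (nat_lit 164346) (nat_lit 240) .nil))))) (.g (nat_lit 0) (.e (nat_lit 196996) (nat_lit 0) .nil) .nil))) 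
(.lf (nat_lit 511878) (.g (nat_lit 2088) (.e (nat_lit 172150) (nat_lit 27) (.e (nat_lit 336231) (nat_lit 14) (.e (nat_lit 401435) (nat_lit 9) (.e (nat_lit 426533) (nat_lit 28) (.e (nat_lit 352000) (nat_lit 4) .nil))))) (.g (nat_lit 1) (.e (nat_lit 198536) (nat_lit 0) .nil) .nil)))))) (.nd (nat_lit 7) (.nd (nat_lit 8) (.nd (nat_lit 9) 
(.lf (nat_lit 511046) (.g (nat_lit 2375) (.e (nat_lit 172124) (nat_lit 14) (.e (nat_lit 491549) (nat_lit 9) (.e (nat_lit 336443) (nat_lit 32) (.e (nat_lit 466969) (nat_lit 21) (.e (nat_lit 164348) (nat_lit 240) (.e (nat_lit 2618) (nat_lit 164) .nil)))))) (.g (nat_lit 1) (.e (nat_lit 196150) (nat_lit 0) .nil) .nil))) 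
(.lf (nat_lit 511558) (.g (nat_lit 2726) (.e (nat_lit 172128) (nat_lit 15) (.e (nat_lit 6723) (nat_lit 362) (.e (nat_lit 180243) (nat_lit 5) (.e (nat_lit 532579) (nat_lit 26) (.e (nat_lit 426107) (nat_lit 1) (.e (nat_lit 164347) (nat_lit 240) (.e (nat_lit 2617) (nat_lit 164) .nil))))))) (.g (nat_lit 1) (.e (nat_lit 197835) (nat_lit 0) .nil) .nil)))) (.nd (nat_lit 9) 
(.lf (nat_lit 511302) (.g (nat_lit 3275) (.e (nat_lit 172126) (nat_lit 14) (.e (nat_lit 491540) (nat_lit 3) (.e (nat_lit 98373) (nat_lit 29) (.e (nat_lit 450560) (nat_lit 0) (.e (nat_lit 3988) (nat_lit 239) (.e (nat_lit 2628) (nat_lit 164) .nil)))))) (.g (nat_lit 1) (.e (nat_lit 196912) (nat_lit 0) .nil) .nil))) 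
(.lf (nat_lit 511814) (.g (nat_lit 2351) (.e (nat_lit 172149) (nat_lit 27) (.e (nat_lit 336235) (nat_lit 14) (.e (nat_lit 401454) (nat_lit 12) (.e (nat_lit 475154) (nat_lit 20) .nil)))) (.g (nat_lit 0) (.e (nat_lit 198357) (nat_lit 0) .nil) .nil))))) (.nd (nat_lit 8) (.nd (nat_lit 9) 
(.lf (nat_lit 511174) (.g (nat_lit 1015) (.e (nat_lit 172125) (nat_lit 14) (.e (nat_lit 491566) (nat_lit 12) (.e (nat_lit 385107) (nat_lit 51) .nil))) (.g (nat_lit 0) (.e (nat_lit 196644) (nat_lit 0) .nil) .nil))) 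
(.lf (nat_lit 511686) (.g (nat_lit 1924) (.e (nat_lit 179968) (nat_lit 18) (.e (nat_lit 98335) (nat_lit 18) (.e (nat_lit 164330) (nat_lit 230) (.e (nat_lit 163845) (nat_lit 0) .nil)))) (.g (nat_lit 0) (.e (nat_lit 198072) (nat_lit 0) .nil) .nil)))) (.nd (nat_lit 9) 
(.lf (nat_lit 511430) (.g (nat_lit 3792) (.e (nat_lit 172126) (nat_lit 14) (.e (nat_lit 491550) (nat_lit 9) (.e (nat_lit 336369) (nat_lit 27) (.e (nat_lit 426305) (nat_lit 12) (.e (nat_lit 475198) (nat_lit 40) (.e (nat_lit 704592) (nat_lit 4) .nil)))))) (.g (nat_lit 1) (.e (nat_lit 197137) (nat_lit 0) .nil) .nil))) 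
(.lf (nat_lit 511942) (.g (nat_lit 1307) (.e (nat_lit 172150) (nat_lit 27) (.e (nat_lit 336387) (nat_lit 27) (.e (nat_lit 426199) (nat_lit 9) (.e (nat_lit 426131) (nat_lit 3) (.e (nat_lit 204830) (nat_lit 18) .nil))))) (.g (nat_lit 0) (.e (nat_lit 198646) (nat_lit 0) .nil) .nil))))))) (.nd (nat_lit 6) (.nd (nat_lit 7) (.nd (nat_lit 8) (.nd (nat_lit 9) 
(.lf (nat_lit 511014) (.g (nat_lit 3669) (.e (nat_lit 172124) (nat_lit 14) (.e (nat_lit 491549) (nat_lit 9) (.e (nat_lit 336430) (nat_lit 29) (.e (nat_lit 442421) (nat_lit 21) (.e (nat_lit 164347) (nat_lit 240) (.e (nat_lit 2619) (nat_lit 164) .nil)))))) (.g (nat_lit 1) (.e (nat_lit 196114) (nat_lit 0) .nil) .nil))) 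
(.lf (nat_lit 511526) (.g (nat_lit 2199) (.e (nat_lit 172126) (nat_lit 14) (.e (nat_lit 491569) (nat_lit 13) (.e (nat_lit 393295) (nat_lit 26) (.e (nat_lit 475198) (nat_lit 40) (.e (nat_lit 704592) (nat_lit 4) .nil))))) (.g (nat_lit 1) (.e (nat_lit 197365) (nat_lit 0) .nil) .nil)))) (.nd (nat_lit 9) 
(.lf (nat_lit 511270) (.g (nat_lit 3242) (.e (nat_lit 172126) (nat_lit 14) (.e (nat_lit 491540) (nat_lit 3) (.e (nat_lit 98365) (nat_lit 26) (.e (nat_lit 426342) (nat_lit 14) (.e (nat_lit 491536) (nat_lit 2) (.e (nat_lit 90167) (nat_lit 13) .nil)))))) (.g (nat_lit 1) (.e (nat_lit 196865) (nat_lit 0) .nil) .nil))) 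
(.lf (nat_lit 511782) (.g (nat_lit 742) (.e (nat_lit 172147) (nat_lit 27) (.e (nat_lit 336194) (nat_lit 12) (.e (nat_lit 385105) (nat_lit 50) .nil))) (.g (nat_lit 0) (.e (nat_lit 198259) (nat_lit 0) .nil) .nil))))) (.nd (nat_lit 8) (.nd (nat_lit 9) 
(.lf (nat_lit 511142) (.g (nat_lit 616) (.e (nat_lit 172124) (nat_lit 14) (.e (nat_lit 491571) (nat_lit 13) (.e (nat_lit 393238) (nat_lit 17) .nil))) (.g (nat_lit 0) (.e (nat_lit 196411) (nat_lit 0) .nil) .nil))) 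
(.lf (nat_lit 511654) (.g (nat_lit 2229) (.e (nat_lit 172138) (nat_lit 15) (.e (nat_lit 1855) (nat_lit 124) (.e (nat_lit 557098) (nat_lit 13) (.e (nat_lit 172097) (nat_lit 9) (.e (nat_lit 426125) (nat_lit 2) .nil))))) (.g (nat_lit 0) (.e (nat_lit 198014) (nat_lit 0) .nil) .nil)))) (.nd (nat_lit 9) 
(.lf (nat_lit 511398) (.g (nat_lit 3156) (.e (nat_lit 172126) (nat_lit 14) (.e (nat_lit 491549) (nat_lit 9) (.e (nat_lit 336430) (nat_lit 29) (.e (nat_lit 442421) (nat_lit 21) (.e (nat_lit 164347) (nat_lit 240) (.e (nat_lit 2617) (nat_lit 164) .nil)))))) (.g (nat_lit 1) (.e (nat_lit 197090) (nat_lit 0) .nil) .nil))) 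
(.lf (nat_lit 511910) (.g (nat_lit 1402) (.e (nat_lit 172150) (nat_lit 27) (.e (nat_lit 336231) (nat_lit 14) (.e (nat_lit 401456) (nat_lit 13) (.e (nat_lit 483354) (nat_lit 17) .nil)))) (.g (nat_lit 0) (.e (nat_lit 198585) (nat_lit 0) .nil) .nil)))))) (.nd (nat_lit 7) (.nd (nat_lit 8) (.nd (nat_lit 9) 
(.lf (nat_lit 511078) (.g (nat_lit 2046) (.e (nat_lit 172124) (nat_lit 14) (.e (nat_lit 491550) (nat_lit 9) (.e (nat_lit 336432) (nat_lit 30) (.e (nat_lit 450593) (nat_lit 16) (.e (nat_lit 655376) (nat_lit 4) .nil))))) (.g (nat_lit 1) (.e (nat_lit 196189) (nat_lit 0) .nil) .nil))) 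
(.lf (nat_lit 511590) (.g (nat_lit 2001) (.e (nat_lit 172133) (nat_lit 15) (.e (nat_lit 1855) (nat_lit 124) (.e (nat_lit 557098) (nat_lit 13) (.e (nat_lit 172115) (nat_lit 10) (.e (nat_lit 434231) (nat_lit 23) .nil))))) (.g (nat_lit 0) (.e (nat_lit 197900) (nat_lit 0) .nil) .nil)))) (.nd (nat_lit 9) 
(.lf (nat_lit 511334) (.g (nat_lit 3686) (.e (nat_lit 172126) (nat_lit 14) (.e (nat_lit 491540) (nat_lit 3) (.e (nat_lit 98373) (nat_lit 29) (.e (nat_lit 450564) (nat_lit 0) (.e (nat_lit 3944) (nat_lit 239) (.e (nat_lit 2626) (nat_lit 164) .nil)))))) (.g (nat_lit 1) (.e (nat_lit 196953) (nat_lit 0) .nil) .nil))) 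
(.lf (nat_lit 511846) (.g (nat_lit 2968) (.e (nat_lit 172150) (nat_lit 27) (.e (nat_lit 336202) (nat_lit 12) (.e (nat_lit 385105) (nat_lit 50) (.e (nat_lit 786473) (nat_lit 27) (.e (nat_lit 335872) (nat_lit 0) .nil))))) (.g (nat_lit 0) (.e (nat_lit 198486) (nat_lit 0) .nil) .nil))))) (.nd (nat_lit 8) (.nd (nat_lit 9) 
(.lf (nat_lit 511206) (.g (nat_lit 2470) (.e (nat_lit 172126) (nat_lit 14) (.e (nat_lit 491537) (nat_lit 2) (.e (nat_lit 90170) (nat_lit 13) (.e (nat_lit 172106) (nat_lit 10) (.e (nat_lit 434202) (nat_lit 18) .nil))))) (.g (nat_lit 0) (.e (nat_lit 196788) (nat_lit 0) .nil) .nil))) 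
(.lf (nat_lit 511718) (.g (nat_lit 1597) (.e (nat_lit 172140) (nat_lit 22) (.e (nat_lit 139280) (nat_lit 4) (.e (nat_lit 65598) (nat_lit 9) (.e (nat_lit 335907) (nat_lit 0) (.e (nat_lit 2381) (nat_lit 155) .nil))))) (.g (nat_lit 0) (.e (nat_lit 198112) (nat_lit 0) .nil) .nil)))) (.nd (nat_lit 9) 
(.lf (nat_lit 511462) (.g (nat_lit 3356) (.e (nat_lit 172126) (nat_lit 14) (.e (nat_lit 491550) (nat_lit 9) (.e (nat_lit 336443) (nat_lit 32) (.e (nat_lit 466969) (nat_lit 21) (.e (nat_lit 164345) (nat_lit 240) (.e (nat_lit 2617) (nat_lit 164) .nil)))))) (.g (nat_lit 1) (.e (nat_lit 197193) (nat_lit 0) .nil) .nil))) 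
(.lf (nat_lit 511974) (.g (nat_lit 1756) (.e (nat_lit 179968) (nat_lit 27) (.e (nat_lit 336235) (nat_lit 14) (.e (nat_lit 401459) (nat_lit 13) (.e (nat_lit 483354) (nat_lit 17) .nil)))) (.g (nat_lit 0) (.e (nat_lit 198714) (nat_lit 0) .nil) .nil)))))))) (.nd (nat_lit 5) (.nd (nat_lit 6) (.nd (nat_lit 7) (.nd (nat_lit 8) (.nd (nat_lit 9) 
(.lf (nat_lit 510998) (.g (nat_lit 1274) (.e (nat_lit 172124) (nat_lit 14) (.e (nat_lit 491549) (nat_lit 9) (.e (nat_lit 336428) (nat_lit 29) (.e (nat_lit 442374) (nat_lit 0) .nil)))) (.g (nat_lit 0) (.e (nat_lit 196091) (nat_lit 0) .nil) .nil))) 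
(.lf (nat_lit 511510) (.g (nat_lit 1507) (.e (nat_lit 172126) (nat_lit 14) (.e (nat_lit 491569) (nat_lit 13) (.e (nat_lit 393234) (nat_lit 17) (.e (nat_lit 7303) (nat_lit 388) .nil)))) (.g (nat_lit 0) (.e (nat_lit 197301) (nat_lit 0) .nil) .nil)))) (.nd (nat_lit 9) 
(.lf (nat_lit 511254) (.g (nat_lit 2849) (.e (nat_lit 172126) (nat_lit 14) (.e (nat_lit 491539) (nat_lit 3) (.e (nat_lit 98365) (nat_lit 26) (.e (nat_lit 426306) (nat_lit 12) (.e (nat_lit 475184) (nat_lit 29) (.e (nat_lit 557096) (nat_lit 13) .nil)))))) (.g (nat_lit 1) (.e (nat_lit 196841) (nat_lit 0) .nil) .nil))) 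
(.lf (nat_lit 511766) (.g (nat_lit 1966) (.e (nat_lit 172145) (nat_lit 27) (.e (nat_lit 336226) (nat_lit 14) (.e (nat_lit 401459) (nat_lit 13) (.e (nat_lit 483344) (nat_lit 17) (.e (nat_lit 6720) (nat_lit 361) .nil))))) (.g (nat_lit 0) (.e (nat_lit 198228) (nat_lit 0) .nil) .nil))))) (.nd (nat_lit 8) (.nd (nat_lit 9) 
(.lf (nat_lit 511126) (.g (nat_lit 1955) (.e (nat_lit 172124) (nat_lit 14) (.e (nat_lit 491570) (nat_lit 13) (.e (nat_lit 393266) (nat_lit 23) (.e (nat_lit 426025) (nat_lit 0) (.e (nat_lit 3399) (nat_lit 211) (.e (nat_lit 647183) (nat_lit 4) .nil)))))) (.g (nat_lit 1) (.e (nat_lit 196307) (nat_lit 0) .nil) .nil))) 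
(.lf (nat_lit 511638) (.g (nat_lit 72) (.e (nat_lit 172135) (nat_lit 15) (.e (nat_lit 6243) (nat_lit 336) (.e (nat_lit 229694) (nat_lit 250) .nil))) (.g (nat_lit 0) (.e (nat_lit 197986) (nat_lit 0) .nil) .nil)))) (.nd (nat_lit 9) 
(.lf (nat_lit 511382) (.g (nat_lit 1623) (.e (nat_lit 172126) (nat_lit 14) (.e (nat_lit 491549) (nat_lit 9) (.e (nat_lit 336428) (nat_lit 29) (.e (nat_lit 442407) (nat_lit 20) .nil)))) (.g (nat_lit 0) (.e (nat_lit 197069) (nat_lit 0) .nil) .nil))) 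
(.lf (nat_lit 511894) (.g (nat_lit 1233) (.e (nat_lit 172150) (nat_lit 27) (.e (nat_lit 336231) (nat_lit 14) (.e (nat_lit 401444) (nat_lit 9) (.e (nat_lit 426547) (nat_lit 31) .nil)))) (.g (nat_lit 0) (.e (nat_lit 198561) (nat_lit 0) .nil) .nil)))))) (.nd (nat_lit 7) (.nd (nat_lit 8) (.nd (nat_lit 9) 
(.lf (nat_lit 511062) (.g (nat_lit 3155) (.e (nat_lit 172124) (nat_lit 14) (.e (nat_lit 491550) (nat_lit 9) (.e (nat_lit 336430) (nat_lit 29) (.e (nat_lit 442419) (nat_lit 21) (.e (nat_lit 164345) (nat_lit 240) (.e (nat_lit 2619) (nat_lit 164) .nil)))))) (.g (nat_lit 1) (.e (nat_lit 196173) (nat_lit 0) .nil) .nil))) 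
(.lf (nat_lit 511574) (.g (nat_lit 1261) (.e (nat_lit 172133) (nat_lit 15) (.e (nat_lit 1800) (nat_lit 119) (.e (nat_lit 516117) (nat_lit 1) (.e (nat_lit 164304) (nat_lit 226) .nil)))) (.g (nat_lit 0) (.e (nat_lit 197868) (nat_lit 0) .nil) .nil)))) (.nd (nat_lit 9) 
(.lf (nat_lit 511318) (.g (nat_lit 3967) (.e (nat_lit 172126) (nat_lit 14) (.e (nat_lit 491540) (nat_lit 3) (.e (nat_lit 98373) (nat_lit 29) (.e (nat_lit 450562) (nat_lit 0) (.e (nat_lit 3967) (nat_lit 239) (.e (nat_lit 2626) (nat_lit 164) .nil)))))) (.g (nat_lit 1) (.e (nat_lit 196933) (nat_lit 0) .nil) .nil))) 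
(.lf (nat_lit 511830) (.g (nat_lit 1144) (.e (nat_lit 172150) (nat_lit 27) (.e (nat_lit 336077) (nat_lit 9) (.e (nat_lit 336286) (nat_lit 15) (.e (nat_lit 3748) (nat_lit 228) (.e (nat_lit 786473) (nat_lit 27) (.e (nat_lit 335872) (nat_lit 0) (.e (nat_lit 6719) (nat_lit 361) .nil))))))) (.g (nat_lit 1) (.e (nat_lit 198459) (nat_lit 0) .nil) .nil))))) (.nd (nat_lit 8) (.nd (nat_lit 9) 
(.lf (nat_lit 511190) (.g (nat_lit 1373) (.e (nat_lit 172126) (nat_lit 14) (.e (nat_lit 491536) (nat_lit 2) (.e (nat_lit 90174) (nat_lit 14) (.e (nat_lit 180287) (nat_lit 45) .nil)))) (.g (nat_lit 0) (.e (nat_lit 196766) (nat_lit 0) .nil) .nil))) 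
(.lf (nat_lit 511702) (.g (nat_lit 2365) (.e (nat_lit 179968) (nat_lit 18) (.e (nat_lit 98367) (nat_lit 27) (.e (nat_lit 434244) (nat_lit 28) (.e (nat_lit 573481) (nat_lit 13) (.e (nat_lit 73472) (nat_lit 17) .nil))))) (.g (nat_lit 0) (.e (nat_lit 198093) (nat_lit 0) .nil) .nil)))) (.nd (nat_lit 9) 
(.lf (nat_lit 511446) (.g (nat_lit 2639) (.e (nat_lit 172126) (nat_lit 14) (.e (nat_lit 491550) (nat_lit 9) (.e (nat_lit 336430) (nat_lit 29) (.e (nat_lit 442421) (nat_lit 21) (.e (nat_lit 164346) (nat_lit 240) (.e (nat_lit 2618) (nat_lit 164) .nil)))))) (.g (nat_lit 1) (.e (nat_lit 197163) (nat_lit 0) .nil) .nil))) 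
(.lf (nat_lit 511958) (.g (nat_lit 1549) (.e (nat_lit 179968) (nat_lit 27) (.e (nat_lit 336194) (nat_lit 12) (.e (nat_lit 385106) (nat_lit 50) (.e (nat_lit 786477) (nat_lit 28) .nil)))) (.g (nat_lit 0) (.e (nat_lit 198695) (nat_lit 0) .nil) .nil))))))) (.nd (nat_lit 6) (.nd (nat_lit 7) (.nd (nat_lit 8) (.nd (nat_lit 9) 
(.lf (nat_lit 511030) (.g (nat_lit 2965) (.e (nat_lit 172124) (nat_lit 14) (.e (nat_lit 491549) (nat_lit 9) (.e (nat_lit 336432) (nat_lit 30) (.e (nat_lit 450593) (nat_lit 16) (.e (nat_lit 655376) (nat_lit 4) .nil))))) (.g (nat_lit 1) (.e (nat_lit 196132) (nat_lit 0) .nil) .nil))) 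
(.lf (nat_lit 511542) (.g (nat_lit 1700) (.e (nat_lit 172126) (nat_lit 14) (.e (nat_lit 491570) (nat_lit 13) (.e (nat_lit 393290) (nat_lit 26) (.e (nat_lit 475199) (nat_lit 40) (.e (nat_lit 704592) (nat_lit 4) .nil))))) (.g (nat_lit 1) (.e (nat_lit 197464) (nat_lit 0) .nil) .nil)))) (.nd (nat_lit 9) 
(.lf (nat_lit 511286) (.g (nat_lit 2804) (.e (nat_lit 172126) (nat_lit 14) (.e (nat_lit 491540) (nat_lit 3) (.e (nat_lit 98373) (nat_lit 29) (.e (nat_lit 450560) (nat_lit 0) (.e (nat_lit 3936) (nat_lit 239) (.e (nat_lit 2627) (nat_lit 164) .nil)))))) (.g (nat_lit 1) (.e (nat_lit 196893) (nat_lit 0) .nil) .nil))) 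
(.lf (nat_lit 511798) (.g (nat_lit 465) (.e (nat_lit 172149) (nat_lit 27) (.e (nat_lit 335876) (nat_lit 0) (.e (nat_lit 6719) (nat_lit 361) (.e (nat_lit 172143) (nat_lit 25) (.e (nat_lit 319491) (nat_lit 0) (.e (nat_lit 5771) (nat_lit 316) .nil)))))) (.g (nat_lit 1) (.e (nat_lit 198323) (nat_lit 0) .nil) .nil))))) (.nd (nat_lit 8) (.nd (nat_lit 9) 
(.lf (nat_lit 511158) (.g (nat_lit 2283) (.e (nat_lit 172125) (nat_lit 14) (.e (nat_lit 491537) (nat_lit 2) (.e (nat_lit 90170) (nat_lit 13) (.e (nat_lit 172107) (nat_lit 10) .nil)))) (.g (nat_lit 0) (.e (nat_lit 196622) (nat_lit 0) .nil) .nil))) 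
(.lf (nat_lit 511670) (.g (nat_lit 1621) (.e (nat_lit 179968) (nat_lit 15) (.e (nat_lit 1849) (nat_lit 124) (.e (nat_lit 557098) (nat_lit 13) (.e (nat_lit 172115) (nat_lit 10) (.e (nat_lit 434231) (nat_lit 23) .nil))))) (.g (nat_lit 0) (.e (nat_lit 198038) (nat_lit 0) .nil) .nil)))) (.nd (nat_lit 9) 
(.lf (nat_lit 511414) (.g (nat_lit 3752) (.e (nat_lit 172126) (nat_lit 14) (.e (nat_lit 491549) (nat_lit 9) (.e (nat_lit 336434) (nat_lit 30) (.e (nat_lit 450564) (nat_lit 0) (.e (nat_lit 5548) (nat_lit 306) (.e (nat_lit 2628) (nat_lit 164) .nil)))))) (.g (nat_lit 1) (.e (nat_lit 197114) (nat_lit 0) .nil) .nil))) 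
(.lf (nat_lit 511926) (.g (nat_lit 1149) (.e (nat_lit 172150) (nat_lit 27) (.e (nat_lit 336232) (nat_lit 14) (.e (nat_lit 401444) (nat_lit 9) (.e (nat_lit 433920) (nat_lit 27) .nil)))) (.g (nat_lit 0) (.e (nat_lit 198619) (nat_lit 0) .nil) .nil)))))) (.nd (nat_lit 7) (.nd (nat_lit 8) (.nd (nat_lit 9) 
(.lf (nat_lit 511094) (.g (nat_lit 1308) (.e (nat_lit 172124) (nat_lit 14) (.e (nat_lit 491566) (nat_lit 12) (.e (nat_lit 385108) (nat_lit 51) .nil))) (.g (nat_lit 0) (.e (nat_lit 196223) (nat_lit 0) .nil) .nil))) 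
(.lf (nat_lit 511606) (.g (nat_lit 5376) (.e (nat_lit 172133) (nat_lit 15) (.e (nat_lit 2059) (nat_lit 142) (.e (nat_lit 704589) (nat_lit 3) (.e (nat_lit 163975) (nat_lit 30) (.e (nat_lit 573491) (nat_lit 15) (.e (nat_lit 81951) (nat_lit 22) (.e (nat_lit 90168) (nat_lit 13) .nil))))))) (.g (nat_lit 1) (.e (nat_lit 197925) (nat_lit 0) .nil) .nil)))) (.nd (nat_lit 9) 
(.lf (nat_lit 511350) (.g (nat_lit 1562) (.e (nat_lit 172126) (nat_lit 14) (.e (nat_lit 491540) (nat_lit 3) (.e (nat_lit 98373) (nat_lit 29) (.e (nat_lit 458496) (nat_lit 7) .nil)))) (.g (nat_lit 0) (.e (nat_lit 196970) (nat_lit 0) .nil) .nil))) 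
(.lf (nat_lit 511862) (.g (nat_lit 1390) (.e (nat_lit 172150) (nat_lit 27) (.e (nat_lit 336230) (nat_lit 14) (.e (nat_lit 401435) (nat_lit 9) (.e (nat_lit 426550) (nat_lit 31) (.e (nat_lit 376576) (nat_lit 4) .nil))))) (.g (nat_lit 1) (.e (nat_lit 198510) (nat_lit 0) .nil) .nil))))) (.nd (nat_lit 8) (.nd (nat_lit 9) 
(.lf (nat_lit 511222) (.g (nat_lit 2405) (.e (nat_lit 172126) (nat_lit 14) (.e (nat_lit 491537) (nat_lit 2) (.e (nat_lit 90170) (nat_lit 13) (.e (nat_lit 172113) (nat_lit 10) (.e (nat_lit 434203) (nat_lit 18) (.e (nat_lit 3968) (nat_lit 239) (.e (nat_lit 2616) (nat_lit 164) .nil))))))) (.g (nat_lit 1) (.e (nat_lit 196804) (nat_lit 0) .nil) .nil))) 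
(.lf (nat_lit 511734) (.g (nat_lit 429) (.e (nat_lit 172143) (nat_lit 25) (.e (nat_lit 319490) (nat_lit 0) (.e (nat_lit 5766) (nat_lit 316) .nil))) (.g (nat_lit 0) (.e (nat_lit 198132) (nat_lit 0) .nil) .nil)))) (.nd (nat_lit 9) 
(.lf (nat_lit 511478) (.g (nat_lit 1959) (.e (nat_lit 172126) (nat_lit 14) (.e (nat_lit 491567) (nat_lit 13) (.e (nat_lit 393296) (nat_lit 26) (.e (nat_lit 475197) (nat_lit 40) (.e (nat_lit 704592) (nat_lit 4) .nil))))) (.g (nat_lit 1) (.e (nat_lit 197256) (nat_lit 0) .nil) .nil))) 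
(.lf (nat_lit 511990) (.g (nat_lit 1525) (.e (nat_lit 179968) (nat_lit 28) (.e (nat_lit 344069) (nat_lit 0) (.e (nat_lit 2857) (nat_lit 184) (.e (nat_lit 426533) (nat_lit 28) (.e (nat_lit 352000) (nat_lit 4) .nil))))) (.g (nat_lit 0) (.e (nat_lit 198733) (nat_lit 0) .nil) .nil))))))))) (.nd (nat_lit 4) (.nd (nat_lit 5) (.nd (nat_lit 6) (.nd (nat_lit 7) (.nd (nat_lit 8) (.nd (nat_lit 9) 
(.lf (nat_lit 510990) (.g (nat_lit 426) (.e (nat_lit 172124) (nat_lit 14) (.e (nat_lit 491549) (nat_lit 9) (.e (nat_lit 336369) (nat_lit 27) .nil))) (.g (nat_lit 0) (.e (nat_lit 196073) (nat_lit 0) .nil) .nil))) 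
(.lf (nat_lit 511502) (.g (nat_lit 2896) (.e (nat_lit 172126) (nat_lit 14) (.e (nat_lit 491568) (nat_lit 13) (.e (nat_lit 393283) (nat_lit 24) (.e (nat_lit 434271) (nat_lit 38) (.e (nat_lit 655377) (nat_lit 4) .nil))))) (.g (nat_lit 1) (.e (nat_lit 197287) (nat_lit 0) .nil) .nil)))) (.nd (nat_lit 9) 
(.lf (nat_lit 511246) (.g (nat_lit 2979) (.e (nat_lit 172126) (nat_lit 14) (.e (nat_lit 491537) (nat_lit 2) (.e (nat_lit 90178) (nat_lit 15) (.e (nat_lit 188440) (nat_lit 20) (.e (nat_lit 3271) (nat_lit 199) (.e (nat_lit 548911) (nat_lit 18) .nil)))))) (.g (nat_lit 1) (.e (nat_lit 196832) (nat_lit 0) .nil) .nil))) 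
(.lf (nat_lit 511758) (.g (nat_lit 2566) (.e (nat_lit 172144) (nat_lit 26) (.e (nat_lit 327700) (nat_lit 8) (.e (nat_lit 303145) (nat_lit 13) (.e (nat_lit 483346) (nat_lit 17) (.e (nat_lit 6718) (nat_lit 361) .nil))))) (.g (nat_lit 1) (.e (nat_lit 198212) (nat_lit 0) .nil) .nil))))) (.nd (nat_lit 8) (.nd (nat_lit 9) 
(.lf (nat_lit 511118) (.g (nat_lit 2899) (.e (nat_lit 172124) (nat_lit 14) (.e (nat_lit 491569) (nat_lit 13) (.e (nat_lit 393283) (nat_lit 24) (.e (nat_lit 434271) (nat_lit 38) (.e (nat_lit 655377) (nat_lit 4) .nil))))) (.g (nat_lit 1) (.e (nat_lit 196283) (nat_lit 0) .nil) .nil))) 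
(.lf (nat_lit 511630) (.g (nat_lit 8006) (.e (nat_lit 172133) (nat_lit 15) (.e (nat_lit 2059) (nat_lit 142) (.e (nat_lit 704589) (nat_lit 3) (.e (nat_lit 163979) (nat_lit 30) (.e (nat_lit 573493) (nat_lit 15) (.e (nat_lit 81953) (nat_lit 22) (.e (nat_lit 90167) (nat_lit 13) .nil))))))) (.g (nat_lit 1) (.e (nat_lit 197973) (nat_lit 0) .nil) .nil)))) (.nd (nat_lit 9) 
(.lf (nat_lit 511374) (.g (nat_lit 2946) (.e (nat_lit 172126) (nat_lit 14) (.e (nat_lit 491549) (nat_lit 9) (.e (nat_lit 336395) (nat_lit 27) (.e (nat_lit 426286) (nat_lit 10) (.e (nat_lit 434272) (nat_lit 38) (.e (nat_lit 655378) (nat_lit 4) .nil)))))) (.g (nat_lit 1) (.e (nat_lit 197047) (nat_lit 0) .nil) .nil))) 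
(.lf (nat_lit 511886) (.g (nat_lit 2263) (.e (nat_lit 172150) (nat_lit 27) (.e (nat_lit 336231) (nat_lit 14) (.e (nat_lit 401440) (nat_lit 9) (.e (nat_lit 426470) (nat_lit 25) (.e (nat_lit 319490) (nat_lit 0) (.e (nat_lit 5771) (nat_lit 316) .nil)))))) (.g (nat_lit 1) (.e (nat_lit 198545) (nat_lit 0) .nil) .nil)))))) (.nd (nat_lit 7) (.nd (nat_lit 8) (.nd (nat_lit 9) 
(.lf (nat_lit 511054) (.g (nat_lit 1840) (.e (nat_lit 172124) (nat_lit 14) (.e (nat_lit 491550) (nat_lit 9) (.e (nat_lit 336369) (nat_lit 27) (.e (nat_lit 426205) (nat_lit 9) (.e (nat_lit 426025) (nat_lit 0) .nil))))) (.g (nat_lit 0) (.e (nat_lit 196158) (nat_lit 0) .nil) .nil))) 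
(.lf (nat_lit 511566) (.g (nat_lit 2599) (.e (nat_lit 172132) (nat_lit 15) (.e (nat_lit 1853) (nat_lit 124) (.e (nat_lit 557098) (nat_lit 13) (.e (nat_lit 172115) (nat_lit 10) (.e (nat_lit 434231) (nat_lit 23) .nil))))) (.g (nat_lit 0) (.e (nat_lit 197860) (nat_lit 0) .nil) .nil)))) (.nd (nat_lit 9) 
(.lf (nat_lit 511310) (.g (nat_lit 3033) (.e (nat_lit 172126) (nat_lit 14) (.e (nat_lit 491540) (nat_lit 3) (.e (nat_lit 98373) (nat_lit 29) (.e (nat_lit 450560) (nat_lit 0) (.e (nat_lit 3968) (nat_lit 239) (.e (nat_lit 2626) (nat_lit 164) .nil)))))) (.g (nat_lit 1) (.e (nat_lit 196922) (nat_lit 0) .nil) .nil))) 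
(.lf (nat_lit 511822) (.g (nat_lit 3486) (.e (nat_lit 172150) (nat_lit 27) (.e (nat_lit 335894) (nat_lit 0) (.e (nat_lit 6722) (nat_lit 362) (.e (nat_lit 180225) (nat_lit 0) (.e (nat_lit 6420) (nat_lit 341) (.e (nat_lit 163843) (nat_lit 0) (.e (nat_lit 7936) (nat_lit 392) .nil))))))) (.g (nat_lit 1) (.e (nat_lit 198429) (nat_lit 0) .nil) .nil))))) (.nd (nat_lit 8) (.nd (nat_lit 9) 
(.lf (nat_lit 511182) (.g (nat_lit 3634) (.e (nat_lit 172125) (nat_lit 14) (.e (nat_lit 491568) (nat_lit 13) (.e (nat_lit 393283) (nat_lit 24) (.e (nat_lit 434272) (nat_lit 38) (.e (nat_lit 655378) (nat_lit 4) .nil))))) (.g (nat_lit 1) (.e (nat_lit 196654) (nat_lit 0) .nil) .nil))) 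
(.lf (nat_lit 511694) (.g (nat_lit 1220) (.e (nat_lit 179968) (nat_lit 18) (.e (nat_lit 98335) (nat_lit 18) (.e (nat_lit 164347) (nat_lit 240) (.e (nat_lit 2601) (nat_lit 163) .nil)))) (.g (nat_lit 0) (.e (nat_lit 198085) (nat_lit 0) .nil) .nil)))) (.nd (nat_lit 9) 
(.lf (nat_lit 511438) (.g (nat_lit 1626) (.e (nat_lit 172126) (nat_lit 14) (.e (nat_lit 491550) (nat_lit 9) (.e (nat_lit 336395) (nat_lit 27) (.e (nat_lit 426317) (nat_lit 12) (.e (nat_lit 475199) (nat_lit 40) (.e (nat_lit 704592) (nat_lit 4) .nil)))))) (.g (nat_lit 1) (.e (nat_lit 197148) (nat_lit 0) .nil) .nil))) 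
(.lf (nat_lit 511950) (.g (nat_lit 3345) (.e (nat_lit 172150) (nat_lit 27) (.e (nat_lit 336387) (nat_lit 27) (.e (nat_lit 426316) (nat_lit 12) (.e (nat_lit 475185) (nat_lit 29) (.e (nat_lit 557089) (nat_lit 12) (.e (nat_lit 164031) (nat_lit 53) (.e (nat_lit 761902) (nat_lit 16) .nil))))))) (.g (nat_lit 1) (.e (nat_lit 198684) (nat_lit 0) .nil) .nil))))))) 
(.nd (nat_lit 6) (.nd (nat_lit 7) (.nd (nat_lit 8) (.nd (nat_lit 9) 
(.lf (nat_lit 511022) (.g (nat_lit 4206) (.e (nat_lit 172124) (nat_lit 14) (.e (nat_lit 491549) (nat_lit 9) (.e (nat_lit 336430) (nat_lit 29) (.e (nat_lit 442430) (nat_lit 24) (.e (nat_lit 229663) (nat_lit 240) (.e (nat_lit 2630) (nat_lit 164) .nil)))))) (.g (nat_lit 1) (.e (nat_lit 196122) (nat_lit 0) .nil) .nil))) 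
(.lf (nat_lit 511534) (.g (nat_lit 2258) (.e (nat_lit 172126) (nat_lit 14) (.e (nat_lit 491570) (nat_lit 13) (.e (nat_lit 393271) (nat_lit 23) (.e (nat_lit 426444) (nat_lit 19) (.e (nat_lit 114432) (nat_lit 4) .nil))))) (.g (nat_lit 1) (.e (nat_lit 197403) (nat_lit 0) .nil) .nil)))) (.nd (nat_lit 9) 
(.lf (nat_lit 511278) (.g (nat_lit 2604) (.e (nat_lit 172126) (nat_lit 14) (.e (nat_lit 491540) (nat_lit 3) (.e (nat_lit 98372) (nat_lit 29) (.e (nat_lit 450583) (nat_lit 7) (.e (nat_lit 548912) (nat_lit 18) .nil))))) (.g (nat_lit 1) (.e (nat_lit 196882) (nat_lit 0) .nil) .nil))) 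
(.lf (nat_lit 511790) (.g (nat_lit 1872) (.e (nat_lit 172147) (nat_lit 27) (.e (nat_lit 336231) (nat_lit 14) (.e (nat_lit 401456) (nat_lit 13) (.e (nat_lit 483346) (nat_lit 17) .nil)))) (.g (nat_lit 0) (.e (nat_lit 198270) (nat_lit 0) .nil) .nil))))) (.nd (nat_lit 8) (.nd (nat_lit 9) 
(.lf (nat_lit 511150) (.g (nat_lit 973) (.e (nat_lit 172124) (nat_lit 14) (.e (nat_lit 491571) (nat_lit 13) (.e (nat_lit 393285) (nat_lit 25) .nil))) (.g (nat_lit 0) (.e (nat_lit 196559) (nat_lit 0) .nil) .nil))) 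
(.lf (nat_lit 511662) (.g (nat_lit 1236) (.e (nat_lit 172138) (nat_lit 15) (.e (nat_lit 2059) (nat_lit 142) (.e (nat_lit 704589) (nat_lit 3) (.e (nat_lit 163976) (nat_lit 30) .nil)))) (.g (nat_lit 0) (.e (nat_lit 198025) (nat_lit 0) .nil) .nil)))) (.nd (nat_lit 9) 
(.lf (nat_lit 511406) (.g (nat_lit 3422) (.e (nat_lit 172126) (nat_lit 14) (.e (nat_lit 491549) (nat_lit 9) (.e (nat_lit 336432) (nat_lit 30) (.e (nat_lit 450569) (nat_lit 0) (.e (nat_lit 5448) (nat_lit 306) (.e (nat_lit 2630) (nat_lit 164) .nil)))))) (.g (nat_lit 1) (.e (nat_lit 197106) (nat_lit 0) .nil) .nil))) 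
(.lf (nat_lit 511918) (.g (nat_lit 2208) (.e (nat_lit 172150) (nat_lit 27) (.e (nat_lit 336232) (nat_lit 14) (.e (nat_lit 401435) (nat_lit 9) (.e (nat_lit 426550) (nat_lit 31) (.e (nat_lit 376576) (nat_lit 4) .nil))))) (.g (nat_lit 1) (.e (nat_lit 198599) (nat_lit 0) .nil) .nil)))))) (.nd (nat_lit 7) (.nd (nat_lit 8) (.nd (nat_lit 9) 
(.lf (nat_lit 511086) (.g (nat_lit 2088) (.e (nat_lit 172124) (nat_lit 14) (.e (nat_lit 491550) (nat_lit 9) (.e (nat_lit 336434) (nat_lit 30) (.e (nat_lit 450593) (nat_lit 16) (.e (nat_lit 655376) (nat_lit 4) .nil))))) (.g (nat_lit 1) (.e (nat_lit 196197) (nat_lit 0) .nil) .nil))) 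
(.lf (nat_lit 511598) (.g (nat_lit 2901) (.e (nat_lit 172133) (nat_lit 15) (.e (nat_lit 1856) (nat_lit 124) (.e (nat_lit 557109) (nat_lit 15) (.e (nat_lit 188447) (nat_lit 22) (.e (nat_lit 196661) (nat_lit 12) .nil))))) (.g (nat_lit 0) (.e (nat_lit 197912) (nat_lit 0) .nil) .nil)))) (.nd (nat_lit 9) 
(.lf (nat_lit 511342) (.g (nat_lit 3044) (.e (nat_lit 172126) (nat_lit 14) (.e (nat_lit 491540) (nat_lit 3) (.e (nat_lit 98373) (nat_lit 29) (.e (nat_lit 450569) (nat_lit 0) (.e (nat_lit 3978) (nat_lit 239) (.e (nat_lit 2617) (nat_lit 164) .nil)))))) (.g (nat_lit 1) (.e (nat_lit 196962) (nat_lit 0) .nil) .nil))) 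
(.lf (nat_lit 511854) (.g (nat_lit 1420) (.e (nat_lit 172150) (nat_lit 27) (.e (nat_lit 336229) (nat_lit 14) (.e (nat_lit 401456) (nat_lit 13) (.e (nat_lit 483345) (nat_lit 17) .nil)))) (.g (nat_lit 0) (.e (nat_lit 198500) (nat_lit 0) .nil) .nil))))) (.nd (nat_lit 8) (.nd (nat_lit 9) 
(.lf (nat_lit 511214) (.g (nat_lit 2749) (.e (nat_lit 172126) (nat_lit 14) (.e (nat_lit 491537) (nat_lit 2) (.e (nat_lit 90170) (nat_lit 13) (.e (nat_lit 172106) (nat_lit 10) (.e (nat_lit 434237) (nat_lit 25) .nil))))) (.g (nat_lit 0) (.e (nat_lit 196796) (nat_lit 0) .nil) .nil))) 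
(.lf (nat_lit 511726) (.g (nat_lit 1695) (.e (nat_lit 172143) (nat_lit 25) (.e (nat_lit 319490) (nat_lit 0) (.e (nat_lit 5664) (nat_lit 312) (.e (nat_lit 3062) (nat_lit 190) .nil)))) (.g (nat_lit 0) (.e (nat_lit 198124) (nat_lit 0) .nil) .nil)))) (.nd (nat_lit 9) 
(.lf (nat_lit 511470) (.g (nat_lit 1843) (.e (nat_lit 172126) (nat_lit 14) (.e (nat_lit 491565) (nat_lit 12) (.e (nat_lit 385109) (nat_lit 51) (.e (nat_lit 794684) (nat_lit 25) .nil)))) (.g (nat_lit 0) (.e (nat_lit 197205) (nat_lit 0) .nil) .nil))) 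
(.lf (nat_lit 511982) (.g (nat_lit 910) (.e (nat_lit 179968) (nat_lit 28) (.e (nat_lit 344068) (nat_lit 0) (.e (nat_lit 3090) (nat_lit 191) (.e (nat_lit 483347) (nat_lit 17) (.e (nat_lit 7936) (nat_lit 361) .nil))))) (.g (nat_lit 0) (.e (nat_lit 198724) (nat_lit 0) .nil) .nil)))))))) (.nd (nat_lit 5) (.nd (nat_lit 6) (.nd (nat_lit 7) (.nd (nat_lit 8) (.nd (nat_lit 9) 
(.lf (nat_lit 511006) (.g (nat_lit 3143) (.e (nat_lit 172124) (nat_lit 14) (.e (nat_lit 491549) (nat_lit 9) (.e (nat_lit 336430) (nat_lit 29) (.e (nat_lit 442419) (nat_lit 21) (.e (nat_lit 164345) (nat_lit 240) (.e (nat_lit 2618) (nat_lit 164) .nil)))))) (.g (nat_lit 1) (.e (nat_lit 196106) (nat_lit 0) .nil) .nil))) 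
(.lf (nat_lit 511518) (.g (nat_lit 2991) (.e (nat_lit 172126) (nat_lit 14) (.e (nat_lit 491569) (nat_lit 13) (.e (nat_lit 393290) (nat_lit 26) (.e (nat_lit 475198) (nat_lit 40) (.e (nat_lit 704592) (nat_lit 4) .nil))))) (.g (nat_lit 1) (.e (nat_lit 197353) (nat_lit 0) .nil) .nil)))) (.nd (nat_lit 9) 
(.lf (nat_lit 511262) (.g (nat_lit 1918) (.e (nat_lit 172126) (nat_lit 14) (.e (nat_lit 491540) (nat_lit 3) (.e (nat_lit 98363) (nat_lit 26) (.e (nat_lit 426318) (nat_lit 12) (.e (nat_lit 475185) (nat_lit 29) (.e (nat_lit 557099) (nat_lit 13) .nil)))))) (.g (nat_lit 1) (.e (nat_lit 196854) (nat_lit 0) .nil) .nil))) 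
(.lf (nat_lit 511774) (.g (nat_lit 739) (.e (nat_lit 172147) (nat_lit 27) (.e (nat_lit 335894) (nat_lit 0) (.e (nat_lit 6712) (nat_lit 360) .nil))) (.g (nat_lit 0) (.e (nat_lit 198241) (nat_lit 0) .nil) .nil))))) (.nd (nat_lit 8) (.nd (nat_lit 9) 
(.lf (nat_lit 511134) (.g (nat_lit 484) (.e (nat_lit 172124) (nat_lit 14) (.e (nat_lit 491570) (nat_lit 13) (.e (nat_lit 401152) (nat_lit 23) .nil))) (.g (nat_lit 0) (.e (nat_lit 196342) (nat_lit 0) .nil) .nil))) 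
(.lf (nat_lit 511646) (.g (nat_lit 2872) (.e (nat_lit 172136) (nat_lit 15) (.e (nat_lit 1800) (nat_lit 119) (.e (nat_lit 516120) (nat_lit 1) (.e (nat_lit 164330) (nat_lit 230) (.e (nat_lit 163851) (nat_lit 0) .nil))))) (.g (nat_lit 0) (.e (nat_lit 197995) (nat_lit 0) .nil) .nil)))) (.nd (nat_lit 9) 
(.lf (nat_lit 511390) (.g (nat_lit 2456) (.e (nat_lit 172126) (nat_lit 14) (.e (nat_lit 491549) (nat_lit 9) (.e (nat_lit 336430) (nat_lit 29) (.e (nat_lit 442402) (nat_lit 20) (.e (nat_lit 3409) (nat_lit 212) (.e (nat_lit 655376) (nat_lit 4) .nil)))))) (.g (nat_lit 1) (.e (nat_lit 197081) (nat_lit 0) .nil) .nil))) 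
(.lf (nat_lit 511902) (.g (nat_lit 895) (.e (nat_lit 172150) (nat_lit 27) (.e (nat_lit 336231) (nat_lit 14) (.e (nat_lit 401448) (nat_lit 10) (.e (nat_lit 434206) (nat_lit 18) .nil)))) (.g (nat_lit 0) (.e (nat_lit 198572) (nat_lit 0) .nil) .nil)))))) (.nd (nat_lit 7) (.nd (nat_lit 8) (.nd (nat_lit 9) 
(.lf (nat_lit 511070) (.g (nat_lit 3966) (.e (nat_lit 172124) (nat_lit 14) (.e (nat_lit 491550) (nat_lit 9) (.e (nat_lit 336430) (nat_lit 29) (.e (nat_lit 442430) (nat_lit 24) (.e (nat_lit 229663) (nat_lit 240) (.e (nat_lit 2630) (nat_lit 164) .nil)))))) (.g (nat_lit 1) (.e (nat_lit 196181) (nat_lit 0) .nil) .nil))) 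
(.lf (nat_lit 511582) (.g (nat_lit 2678) (.e (nat_lit 172133) (nat_lit 15) (.e (nat_lit 1800) (nat_lit 119) (.e (nat_lit 516120) (nat_lit 1) (.e (nat_lit 164329) (nat_lit 230) (.e (nat_lit 163843) (nat_lit 0) (.e (nat_lit 3248) (nat_lit 197) (.e (nat_lit 532515) (nat_lit 3) (.e (nat_lit 114716) (nat_lit 22) (.e (nat_lit 90169) (nat_lit 13) .nil))))))))) (.g (nat_lit 1) (.e (nat_lit 197885) (nat_lit 0) .nil) .nil)))) 
(.nd (nat_lit 9) 
(.lf (nat_lit 511326) (.g (nat_lit 4643) (.e (nat_lit 172126) (nat_lit 14) (.e (nat_lit 491540) (nat_lit 3) (.e (nat_lit 98373) (nat_lit 29) (.e (nat_lit 450563) (nat_lit 0) (.e (nat_lit 3953) (nat_lit 239) (.e (nat_lit 2623) (nat_lit 164) .nil)))))) (.g (nat_lit 1) (.e (nat_lit 196944) (nat_lit 0) .nil) .nil))) 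
(.lf (nat_lit 511838) (.g (nat_lit 2380) (.e (nat_lit 172150) (nat_lit 27) (.e (nat_lit 336100) (nat_lit 9) (.e (nat_lit 336282) (nat_lit 15) (.e (nat_lit 3632) (nat_lit 227) (.e (nat_lit 778323) (nat_lit 5) (.e (nat_lit 81664) (nat_lit 36) .nil)))))) (.g (nat_lit 1) (.e (nat_lit 198470) (nat_lit 0) .nil) .nil))))) (.nd (nat_lit 8) (.nd (nat_lit 9) 
(.lf (nat_lit 511198) (.g (nat_lit 1962) (.e (nat_lit 172126) (nat_lit 14) (.e (nat_lit 491537) (nat_lit 2) (.e (nat_lit 90170) (nat_lit 13) (.e (nat_lit 172034) (nat_lit 0) (.e (nat_lit 7545) (nat_lit 402) .nil))))) (.g (nat_lit 0) (.e (nat_lit 196780) (nat_lit 0) .nil) .nil))) 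
(.lf (nat_lit 511710) (.g (nat_lit 2287) (.e (nat_lit 179968) (nat_lit 18) (.e (nat_lit 98367) (nat_lit 27) (.e (nat_lit 434247) (nat_lit 28) (.e (nat_lit 573484) (nat_lit 13) (.e (nat_lit 65546) (nat_lit 0) .nil))))) (.g (nat_lit 0) (.e (nat_lit 198101) (nat_lit 0) .nil) .nil)))) (.nd (nat_lit 9) 
(.lf (nat_lit 511454) (.g (nat_lit 356) (.e (nat_lit 172126) (nat_lit 14) (.e (nat_lit 491550) (nat_lit 9) (.e (nat_lit 336434) (nat_lit 30) .nil))) (.g (nat_lit 0) (.e (nat_lit 197180) (nat_lit 0) .nil) .nil))) 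
(.lf (nat_lit 511966) (.g (nat_lit 2197) (.e (nat_lit 179968) (nat_lit 27) (.e (nat_lit 336235) (nat_lit 14) (.e (nat_lit 401437) (nat_lit 9) (.e (nat_lit 426530) (nat_lit 27) (.e (nat_lit 335872) (nat_lit 0) .nil))))) (.g (nat_lit 0) (.e (nat_lit 198704) (nat_lit 0) .nil) .nil))))))) (.nd (nat_lit 6) (.nd (nat_lit 7) (.nd (nat_lit 8) (.nd (nat_lit 9) 
(.lf (nat_lit 511038) (.g (nat_lit 2736) (.e (nat_lit 172124) (nat_lit 14) (.e (nat_lit 491549) (nat_lit 9) (.e (nat_lit 336434) (nat_lit 30) (.e (nat_lit 450568) (nat_lit 0) (.e (nat_lit 5448) (nat_lit 306) (.e (nat_lit 2630) (nat_lit 164) .nil)))))) (.g (nat_lit 1) (.e (nat_lit 196141) (nat_lit 0) .nil) .nil))) 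
(.lf (nat_lit 511550) (.g (nat_lit 2742) (.e (nat_lit 172126) (nat_lit 14) (.e (nat_lit 491571) (nat_lit 13) (.e (nat_lit 393268) (nat_lit 23) (.e (nat_lit 426444) (nat_lit 19) (.e (nat_lit 114432) (nat_lit 4) .nil))))) (.g (nat_lit 1) (.e (nat_lit 197633) (nat_lit 0) .nil) .nil)))) (.nd (nat_lit 9) 
(.lf (nat_lit 511294) (.g (nat_lit 3430) (.e (nat_lit 172126) (nat_lit 14) (.e (nat_lit 491540) (nat_lit 3) (.e (nat_lit 98373) (nat_lit 29) (.e (nat_lit 450560) (nat_lit 0) (.e (nat_lit 3945) (nat_lit 239) (.e (nat_lit 2625) (nat_lit 164) .nil)))))) (.g (nat_lit 1) (.e (nat_lit 196904) (nat_lit 0) .nil) .nil))) 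
(.lf (nat_lit 511806) (.g (nat_lit 3197) (.e (nat_lit 172149) (nat_lit 27) (.e (nat_lit 336051) (nat_lit 6) (.e (nat_lit 147495) (nat_lit 11) (.e (nat_lit 24608) (nat_lit 3) (.e (nat_lit 98334) (nat_lit 18) .nil))))) (.g (nat_lit 0) (.e (nat_lit 198346) (nat_lit 0) .nil) .nil))))) (.nd (nat_lit 8) (.nd (nat_lit 9) 
(.lf (nat_lit 511166) (.g (nat_lit 1877) (.e (nat_lit 172125) (nat_lit 14) (.e (nat_lit 491549) (nat_lit 9) (.e (nat_lit 336428) (nat_lit 29) (.e (nat_lit 442407) (nat_lit 20) .nil)))) (.g (nat_lit 0) (.e (nat_lit 196630) (nat_lit 0) .nil) .nil))) 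
(.lf (nat_lit 511678) (.g (nat_lit 3254) (.e (nat_lit 179968) (nat_lit 15) (.e (nat_lit 1859) (nat_lit 124) (.e (nat_lit 557109) (nat_lit 15) (.e (nat_lit 188450) (nat_lit 23) (.e (nat_lit 204816) (nat_lit 17) .nil))))) (.g (nat_lit 0) (.e (nat_lit 198046) (nat_lit 0) .nil) .nil)))) (.nd (nat_lit 9) 
(.lf (nat_lit 511422) (.g (nat_lit 1951) (.e (nat_lit 172126) (nat_lit 14) (.e (nat_lit 491549) (nat_lit 9) (.e (nat_lit 336443) (nat_lit 32) (.e (nat_lit 466968) (nat_lit 21) .nil)))) (.g (nat_lit 0) (.e (nat_lit 197126) (nat_lit 0) .nil) .nil))) 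
(.lf (nat_lit 511934) (.g (nat_lit 2129) (.e (nat_lit 172150) (nat_lit 27) (.e (nat_lit 336232) (nat_lit 14) (.e (nat_lit 401456) (nat_lit 13) (.e (nat_lit 483357) (nat_lit 17) .nil)))) (.g (nat_lit 0) (.e (nat_lit 198636) (nat_lit 0) .nil) .nil)))))) (.nd (nat_lit 7) (.nd (nat_lit 8) (.nd (nat_lit 9) 
(.lf (nat_lit 511102) (.g (nat_lit 927) (.e (nat_lit 172124) (nat_lit 14) (.e (nat_lit 491568) (nat_lit 13) (.e (nat_lit 393281) (nat_lit 23) .nil))) (.g (nat_lit 0) (.e (nat_lit 196236) (nat_lit 0) .nil) .nil))) 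
(.lf (nat_lit 511614) (.g (nat_lit 2514) (.e (nat_lit 172133) (nat_lit 15) (.e (nat_lit 2059) (nat_lit 142) (.e (nat_lit 704589) (nat_lit 3) (.e (nat_lit 163976) (nat_lit 30) (.e (nat_lit 573491) (nat_lit 15) .nil))))) (.g (nat_lit 0) (.e (nat_lit 197938) (nat_lit 0) .nil) .nil)))) (.nd (nat_lit 9) 
(.lf (nat_lit 511358) (.g (nat_lit 424) (.e (nat_lit 172126) (nat_lit 14) (.e (nat_lit 491547) (nat_lit 9) (.e (nat_lit 336432) (nat_lit 30) .nil))) (.g (nat_lit 0) (.e (nat_lit 196986) (nat_lit 0) .nil) .nil))) 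
(.lf (nat_lit 511870) (.g (nat_lit 1128) (.e (nat_lit 172150) (nat_lit 27) (.e (nat_lit 336230) (nat_lit 14) (.e (nat_lit 401456) (nat_lit 13) (.e (nat_lit 483344) (nat_lit 17) .nil)))) (.g (nat_lit 0) (.e (nat_lit 198521) (nat_lit 0) .nil) .nil))))) (.nd (nat_lit 8) (.nd (nat_lit 9) 
(.lf (nat_lit 511230) (.g (nat_lit 1930) (.e (nat_lit 172126) (nat_lit 14) (.e (nat_lit 491537) (nat_lit 2) (.e (nat_lit 90170) (nat_lit 13) (.e (nat_lit 172113) (nat_lit 10) (.e (nat_lit 434237) (nat_lit 25) (.e (nat_lit 548911) (nat_lit 18) .nil)))))) (.g (nat_lit 1) (.e (nat_lit 196813) (nat_lit 0) .nil) .nil))) 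
(.lf (nat_lit 511742) (.g (nat_lit 1524) (.e (nat_lit 172143) (nat_lit 25) (.e (nat_lit 319491) (nat_lit 0) (.e (nat_lit 5664) (nat_lit 312) (.e (nat_lit 3085) (nat_lit 191) (.e (nat_lit 483345) (nat_lit 17) .nil))))) (.g (nat_lit 0) (.e (nat_lit 198140) (nat_lit 0) .nil) .nil)))) (.nd (nat_lit 9) 
(.lf (nat_lit 511486) (.g (nat_lit 686) (.e (nat_lit 172126) (nat_lit 14) (.e (nat_lit 491568) (nat_lit 13) (.e (nat_lit 393281) (nat_lit 23) .nil))) (.g (nat_lit 0) (.e (nat_lit 197268) (nat_lit 0) .nil) .nil))) 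
(.lf (nat_lit 511998) (.g (nat_lit 1705) (.e (nat_lit 179968) (nat_lit 32) (.e (nat_lit 376835) (nat_lit 0) (.e (nat_lit 3632) (nat_lit 227) (.e (nat_lit 778323) (nat_lit 5) (.e (nat_lit 81664) (nat_lit 36) .nil))))) (.g (nat_lit 0) (.e (nat_lit 198745) (nat_lit 0) .nil) .nil)))))))))))) 
(.nd (nat_lit 1) (.nd (nat_lit 2) (.nd (nat_lit 3) (.nd (nat_lit 4) (.nd (nat_lit 5) 
(.nd (nat_lit 6) (.nd (nat_lit 7) (.nd (nat_lit 8) (.nd (nat_lit 9) 
(.lf (nat_lit 510977) (.g (nat_lit 2550) (.e (nat_lit 172124) (nat_lit 14) (.e (nat_lit 491540) (nat_lit 3) (.e (nat_lit 98373) (nat_lit 29) (.e (nat_lit 450567) (nat_lit 0) (.e (nat_lit 3978) (nat_lit 239) .nil))))) (.g (nat_lit 0) (.e (nat_lit 196038) (nat_lit 0) .nil) .nil))) 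
(.lf (nat_lit 511489) (.g (nat_lit 1974) (.e (nat_lit 172126) (nat_lit 14) (.e (nat_lit 491568) (nat_lit 13) (.e (nat_lit 393281) (nat_lit 23) (.e (nat_lit 426098) (nat_lit 1) (.e (nat_lit 164348) (nat_lit 240) .nil))))) (.g (nat_lit 0) (.e (nat_lit 197271) (nat_lit 0) .nil) .nil)))) (.nd (nat_lit 9) 
(.lf (nat_lit 511233) (.g (nat_lit 1875) (.e (nat_lit 172126) (nat_lit 14) (.e (nat_lit 491537) (nat_lit 2) (.e (nat_lit 90170) (nat_lit 13) (.e (nat_lit 172115) (nat_lit 10) .nil)))) (.g (nat_lit 0) (.e (nat_lit 196816) (nat_lit 0) .nil) .nil))) 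
(.lf (nat_lit 511745) (.g (nat_lit 1723) (.e (nat_lit 172143) (nat_lit 25) (.e (nat_lit 319491) (nat_lit 0) (.e (nat_lit 5664) (nat_lit 312) (.e (nat_lit 3085) (nat_lit 191) (.e (nat_lit 483349) (nat_lit 17) .nil))))) (.g (nat_lit 0) (.e (nat_lit 198143) (nat_lit 0) .nil) .nil))))) (.nd (nat_lit 8) (.nd (nat_lit 9) 
(.lf (nat_lit 511105) (.g (nat_lit 2172) (.e (nat_lit 172124) (nat_lit 14) (.e (nat_lit 491568) (nat_lit 13) (.e (nat_lit 393283) (nat_lit 24) (.e (nat_lit 434202) (nat_lit 18) (.e (nat_lit 5537) (nat_lit 306) .nil))))) (.g (nat_lit 0) (.e (nat_lit 196239) (nat_lit 0) .nil) .nil))) 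
(.lf (nat_lit 511617) (.g (nat_lit 7834) (.e (nat_lit 172133) (nat_lit 15) (.e (nat_lit 2059) (nat_lit 142) (.e (nat_lit 704589) (nat_lit 3) (.e (nat_lit 163976) (nat_lit 30) (.e (nat_lit 573492) (nat_lit 15) (.e (nat_lit 81953) (nat_lit 22) (.e (nat_lit 90167) (nat_lit 13) .nil))))))) (.g (nat_lit 1) (.e (nat_lit 197942) (nat_lit 0) .nil) .nil)))) (.nd (nat_lit 9) 
(.lf (nat_lit 511361) (.g (nat_lit 2986) (.e (nat_lit 172126) (nat_lit 14) (.e (nat_lit 491547) (nat_lit 9) (.e (nat_lit 336434) (nat_lit 30) (.e (nat_lit 450593) (nat_lit 16) (.e (nat_lit 655378) (nat_lit 4) .nil))))) (.g (nat_lit 1) (.e (nat_lit 196990) (nat_lit 0) .nil) .nil))) 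
(.lf (nat_lit 511873) (.g (nat_lit 1836) (.e (nat_lit 172150) (nat_lit 27) (.e (nat_lit 336230) (nat_lit 14) (.e (nat_lit 401458) (nat_lit 13) (.e (nat_lit 483350) (nat_lit 17) (.e (nat_lit 7936) (nat_lit 361) .nil))))) (.g (nat_lit 1) (.e (nat_lit 198525) (nat_lit 0) .nil) .nil)))))) (.nd (nat_lit 7) (.nd (nat_lit 8) (.nd (nat_lit 9) 
(.lf (nat_lit 511041) (.g (nat_lit 1827) (.e (nat_lit 172124) (nat_lit 14) (.e (nat_lit 491549) (nat_lit 9) (.e (nat_lit 336443) (nat_lit 32) (.e (nat_lit 466956) (nat_lit 20) .nil)))) (.g (nat_lit 0) (.e (nat_lit 196145) (nat_lit 0) .nil) .nil))) 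
(.lf (nat_lit 511553) (.g (nat_lit 3555) (.e (nat_lit 172126) (nat_lit 14) (.e (nat_lit 491571) (nat_lit 13) (.e (nat_lit 393291) (nat_lit 26) (.e (nat_lit 475195) (nat_lit 40) (.e (nat_lit 704592) (nat_lit 4) .nil))))) (.g (nat_lit 1) (.e (nat_lit 197724) (nat_lit 0) .nil) .nil)))) (.nd (nat_lit 9) 
(.lf (nat_lit 511297) (.g (nat_lit 3270) (.e (nat_lit 172126) (nat_lit 14) (.e (nat_lit 491540) (nat_lit 3) (.e (nat_lit 98373) (nat_lit 29) (.e (nat_lit 450560) (nat_lit 0) (.e (nat_lit 3987) (nat_lit 239) (.e (nat_lit 2617) (nat_lit 164) .nil)))))) (.g (nat_lit 1) (.e (nat_lit 196907) (nat_lit 0) .nil) .nil))) 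
(.lf (nat_lit 511809) (.g (nat_lit 2814) (.e (nat_lit 172149) (nat_lit 27) (.e (nat_lit 336051) (nat_lit 6) (.e (nat_lit 147496) (nat_lit 11) (.e (nat_lit 24608) (nat_lit 3) (.e (nat_lit 98333) (nat_lit 18) .nil))))) (.g (nat_lit 0) (.e (nat_lit 198349) (nat_lit 0) .nil) .nil))))) (.nd (nat_lit 8) (.nd (nat_lit 9) 
(.lf (nat_lit 511169) (.g (nat_lit 3026) (.e (nat_lit 172125) (nat_lit 14) (.e (nat_lit 491549) (nat_lit 9) (.e (nat_lit 336432) (nat_lit 30) (.e (nat_lit 450593) (nat_lit 16) (.e (nat_lit 655378) (nat_lit 4) .nil))))) (.g (nat_lit 1) (.e (nat_lit 196633) (nat_lit 0) .nil) .nil))) 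
(.lf (nat_lit 511681) (.g (nat_lit 1801) (.e (nat_lit 179968) (nat_lit 18) (.e (nat_lit 98333) (nat_lit 18) (.e (nat_lit 164327) (nat_lit 230) (.e (nat_lit 163875) (nat_lit 3) (.e (nat_lit 204836) (nat_lit 20) .nil))))) (.g (nat_lit 0) (.e (nat_lit 198052) (nat_lit 0) .nil) .nil)))) (.nd (nat_lit 9) 
(.lf (nat_lit 511425) (.g (nat_lit 1965) (.e (nat_lit 172126) (nat_lit 14) (.e (nat_lit 491549) (nat_lit 9) (.e (nat_lit 336443) (nat_lit 32) (.e (nat_lit 466970) (nat_lit 21) .nil)))) (.g (nat_lit 0) (.e (nat_lit 197129) (nat_lit 0) .nil) .nil))) 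
(.lf (nat_lit 511937) (.g (nat_lit 3078) (.e (nat_lit 172150) (nat_lit 27) (.e (nat_lit 336387) (nat_lit 27) (.e (nat_lit 426188) (nat_lit 9) (.e (nat_lit 426436) (nat_lit 18) (.e (nat_lit 98334) (nat_lit 18) (.e (nat_lit 164305) (nat_lit 226) (.e (nat_lit 2622) (nat_lit 164) .nil))))))) (.g (nat_lit 1) (.e (nat_lit 198640) (nat_lit 0) .nil) .nil))))))) 
(.nd (nat_lit 6) (.nd (nat_lit 7) (.nd (nat_lit 8) (.nd (nat_lit 9) 
(.lf (nat_lit 511009) (.g (nat_lit 3663) (.e (nat_lit 172124) (nat_lit 14) (.e (nat_lit 491549) (nat_lit 9) (.e (nat_lit 336430) (nat_lit 29) (.e (nat_lit 442419) (nat_lit 21) (.e (nat_lit 164347) (nat_lit 240) (.e (nat_lit 2619) (nat_lit 164) .nil)))))) (.g (nat_lit 1) (.e (nat_lit 196109) (nat_lit 0) .nil) .nil))) 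
(.lf (nat_lit 511521) (.g (nat_lit 1840) (.e (nat_lit 172126) (nat_lit 14) (.e (nat_lit 491569) (nat_lit 13) (.e (nat_lit 393293) (nat_lit 26) (.e (nat_lit 475196) (nat_lit 40) (.e (nat_lit 704592) (nat_lit 4) .nil))))) (.g (nat_lit 1) (.e (nat_lit 197356) (nat_lit 0) .nil) .nil)))) (.nd (nat_lit 9) 
(.lf (nat_lit 511265) (.g (nat_lit 2983) (.e (nat_lit 172126) (nat_lit 14) (.e (nat_lit 491540) (nat_lit 3) (.e (nat_lit 98365) (nat_lit 26) (.e (nat_lit 426306) (nat_lit 12) (.e (nat_lit 475183) (nat_lit 29) (.e (nat_lit 557096) (nat_lit 13) .nil)))))) (.g (nat_lit 1) (.e (nat_lit 196858) (nat_lit 0) .nil) .nil))) 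
(.lf (nat_lit 511777) (.g (nat_lit 1642) (.e (nat_lit 172147) (nat_lit 27) (.e (nat_lit 335894) (nat_lit 0) (.e (nat_lit 6712) (nat_lit 360) (.e (nat_lit 163979) (nat_lit 30) .nil)))) (.g (nat_lit 0) (.e (nat_lit 198244) (nat_lit 0) .nil) .nil))))) (.nd (nat_lit 8) (.nd (nat_lit 9) 
(.lf (nat_lit 511137) (.g (nat_lit 2556) (.e (nat_lit 172124) (nat_lit 14) (.e (nat_lit 491570) (nat_lit 13) (.e (nat_lit 393283) (nat_lit 24) (.e (nat_lit 434271) (nat_lit 38) (.e (nat_lit 655376) (nat_lit 4) .nil))))) (.g (nat_lit 1) (.e (nat_lit 196356) (nat_lit 0) .nil) .nil))) 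
(.lf (nat_lit 511649) (.g (nat_lit 2750) (.e (nat_lit 172136) (nat_lit 15) (.e (nat_lit 1856) (nat_lit 124) (.e (nat_lit 557109) (nat_lit 15) (.e (nat_lit 188452) (nat_lit 23) (.e (nat_lit 204821) (nat_lit 17) .nil))))) (.g (nat_lit 0) (.e (nat_lit 198003) (nat_lit 0) .nil) .nil)))) (.nd (nat_lit 9) 
(.lf (nat_lit 511393) (.g (nat_lit 1545) (.e (nat_lit 172126) (nat_lit 14) (.e (nat_lit 491549) (nat_lit 9) (.e (nat_lit 336430) (nat_lit 29) (.e (nat_lit 442412) (nat_lit 20) (.e (nat_lit 3409) (nat_lit 212) .nil))))) (.g (nat_lit 0) (.e (nat_lit 197085) (nat_lit 0) .nil) .nil))) 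
(.lf (nat_lit 511905) (.g (nat_lit 2442) (.e (nat_lit 172150) (nat_lit 27) (.e (nat_lit 336231) (nat_lit 14) (.e (nat_lit 401456) (nat_lit 13) (.e (nat_lit 483344) (nat_lit 17) (.e (nat_lit 6720) (nat_lit 361) .nil))))) (.g (nat_lit 1) (.e (nat_lit 198580) (nat_lit 0) .nil) .nil)))))) (.nd (nat_lit 7) (.nd (nat_lit 8) (.nd (nat_lit 9) 
(.lf (nat_lit 511073) (.g (nat_lit 1827) (.e (nat_lit 172124) (nat_lit 14) (.e (nat_lit 491550) (nat_lit 9) (.e (nat_lit 336432) (nat_lit 30) (.e (nat_lit 450565) (nat_lit 0) (.e (nat_lit 5548) (nat_lit 306) (.e (nat_lit 2618) (nat_lit 164) .nil)))))) (.g (nat_lit 1) (.e (nat_lit 196184) (nat_lit 0) .nil) .nil))) 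
(.lf (nat_lit 511585) (.g (nat_lit 2185) (.e (nat_lit 172133) (nat_lit 15) (.e (nat_lit 1800) (nat_lit 119) (.e (nat_lit 516120) (nat_lit 1) (.e (nat_lit 164330) (nat_lit 230) (.e (nat_lit 163850) (nat_lit 0) .nil))))) (.g (nat_lit 0) (.e (nat_lit 197890) (nat_lit 0) .nil) .nil)))) (.nd (nat_lit 9) 
(.lf (nat_lit 511329) (.g (nat_lit 3665) (.e (nat_lit 172126) (nat_lit 14) (.e (nat_lit 491540) (nat_lit 3) (.e (nat_lit 98373) (nat_lit 29) (.e (nat_lit 450563) (nat_lit 0) (.e (nat_lit 3968) (nat_lit 239) .nil))))) (.g (nat_lit 0) (.e (nat_lit 196947) (nat_lit 0) .nil) .nil))) 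
(.lf (nat_lit 511841) (.g (nat_lit 417) (.e (nat_lit 172150) (nat_lit 27) (.e (nat_lit 336196) (nat_lit 12) (.e (nat_lit 385103) (nat_lit 50) .nil))) (.g (nat_lit 0) (.e (nat_lit 198478) (nat_lit 0) .nil) .nil))))) (.nd (nat_lit 8) (.nd (nat_lit 9) 
(.lf (nat_lit 511201) (.g (nat_lit 1329) (.e (nat_lit 172126) (nat_lit 14) (.e (nat_lit 491537) (nat_lit 2) (.e (nat_lit 90170) (nat_lit 13) (.e (nat_lit 172077) (nat_lit 7) .nil)))) (.g (nat_lit 0) (.e (nat_lit 196783) (nat_lit 0) .nil) .nil))) 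
(.lf (nat_lit 511713) (.g (nat_lit 1223) (.e (nat_lit 179968) (nat_lit 18) (.e (nat_lit 98381) (nat_lit 31) (.e (nat_lit 466954) (nat_lit 11) (.e (nat_lit 335988) (nat_lit 1) (.e (nat_lit 57665) (nat_lit 152) .nil))))) (.g (nat_lit 0) (.e (nat_lit 198106) (nat_lit 0) .nil) .nil)))) (.nd (nat_lit 9) 
(.lf (nat_lit 511457) (.g (nat_lit 2299) (.e (nat_lit 172126) (nat_lit 14) (.e (nat_lit 491550) (nat_lit 9) (.e (nat_lit 336434) (nat_lit 30) (.e (nat_lit 450564) (nat_lit 0) (.e (nat_lit 5547) (nat_lit 306) (.e (nat_lit 2628) (nat_lit 164) .nil)))))) (.g (nat_lit 1) (.e (nat_lit 197184) (nat_lit 0) .nil) .nil))) 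
(.lf (nat_lit 511969) (.g (nat_lit 2249) (.e (nat_lit 179968) (nat_lit 27) (.e (nat_lit 336235) (nat_lit 14) (.e (nat_lit 401459) (nat_lit 13) (.e (nat_lit 483343) (nat_lit 17) (.e (nat_lit 6718) (nat_lit 361) .nil))))) (.g (nat_lit 0) (.e (nat_lit 198709) (nat_lit 0) .nil) .nil)))))))) (.nd (nat_lit 5) (.nd (nat_lit 6) (.nd (nat_lit 7) (.nd (nat_lit 8) (.nd (nat_lit 9) 
(.lf (nat_lit 510993) (.g (nat_lit 3841) (.e (nat_lit 172124) (nat_lit 14) (.e (nat_lit 491549) (nat_lit 9) (.e (nat_lit 336426) (nat_lit 29) (.e (nat_lit 442430) (nat_lit 24) (.e (nat_lit 229663) (nat_lit 240) (.e (nat_lit 2622) (nat_lit 164) .nil)))))) (.g (nat_lit 1) (.e (nat_lit 196084) (nat_lit 0) .nil) .nil))) 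
(.lf (nat_lit 511505) (.g (nat_lit 602) (.e (nat_lit 172126) (nat_lit 14) (.e (nat_lit 491568) (nat_lit 13) (.e (nat_lit 393284) (nat_lit 24) .nil))) (.g (nat_lit 0) (.e (nat_lit 197290) (nat_lit 0) .nil) .nil)))) (.nd (nat_lit 9) 
(.lf (nat_lit 511249) (.g (nat_lit 3221) (.e (nat_lit 172126) (nat_lit 14) (.e (nat_lit 491537) (nat_lit 2) (.e (nat_lit 90185) (nat_lit 17) (.e (nat_lit 237616) (nat_lit 12) (.e (nat_lit 475185) (nat_lit 29) (.e (nat_lit 557099) (nat_lit 13) .nil)))))) (.g (nat_lit 1) (.e (nat_lit 196836) (nat_lit 0) .nil) .nil))) 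
(.lf (nat_lit 511761) (.g (nat_lit 1373) (.e (nat_lit 172145) (nat_lit 27) (.e (nat_lit 336088) (nat_lit 9) (.e (nat_lit 336019) (nat_lit 3) (.e (nat_lit 106240) (nat_lit 10) .nil)))) (.g (nat_lit 0) (.e (nat_lit 198223) (nat_lit 0) .nil) .nil))))) (.nd (nat_lit 8) (.nd (nat_lit 9) 
(.lf (nat_lit 511121) (.g (nat_lit 2893) (.e (nat_lit 172124) (nat_lit 14) (.e (nat_lit 491569) (nat_lit 13) (.e (nat_lit 393283) (nat_lit 24) (.e (nat_lit 434272) (nat_lit 38) (.e (nat_lit 655377) (nat_lit 4) .nil))))) (.g (nat_lit 1) (.e (nat_lit 196286) (nat_lit 0) .nil) .nil))) 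
(.lf (nat_lit 511633) (.g (nat_lit 1104) (.e (nat_lit 172133) (nat_lit 15) (.e (nat_lit 2059) (nat_lit 142) (.e (nat_lit 704590) (nat_lit 3) (.e (nat_lit 163975) (nat_lit 30) .nil)))) (.g (nat_lit 0) (.e (nat_lit 197976) (nat_lit 0) .nil) .nil)))) (.nd (nat_lit 9) 
(.lf (nat_lit 511377) (.g (nat_lit 908) (.e (nat_lit 172126) (nat_lit 14) (.e (nat_lit 491549) (nat_lit 9) (.e (nat_lit 336400) (nat_lit 27) .nil))) (.g (nat_lit 0) (.e (nat_lit 197053) (nat_lit 0) .nil) .nil))) 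
(.lf (nat_lit 511889) (.g (nat_lit 1261) (.e (nat_lit 172150) (nat_lit 27) (.e (nat_lit 336231) (nat_lit 14) (.e (nat_lit 401444) (nat_lit 9) (.e (nat_lit 426417) (nat_lit 15) (.e (nat_lit 6244) (nat_lit 336) .nil))))) (.g (nat_lit 0) (.e (nat_lit 198553) (nat_lit 0) .nil) .nil)))))) (.nd (nat_lit 7) (.nd (nat_lit 8) (.nd (nat_lit 9) 
(.lf (nat_lit 511057) (.g (nat_lit 664) (.e (nat_lit 172124) (nat_lit 14) (.e (nat_lit 491550) (nat_lit 9) (.e (nat_lit 336427) (nat_lit 29) .nil))) (.g (nat_lit 0) (.e (nat_lit 196164) (nat_lit 0) .nil) .nil))) 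
(.lf (nat_lit 511569) (.g (nat_lit 3899) (.e (nat_lit 172132) (nat_lit 15) (.e (nat_lit 1853) (nat_lit 124) (.e (nat_lit 557109) (nat_lit 15) (.e (nat_lit 188452) (nat_lit 23) (.e (nat_lit 204815) (nat_lit 17) .nil))))) (.g (nat_lit 0) (.e (nat_lit 197863) (nat_lit 0) .nil) .nil)))) (.nd (nat_lit 9) 
(.lf (nat_lit 511313) (.g (nat_lit 4470) (.e (nat_lit 172126) (nat_lit 14) (.e (nat_lit 491540) (nat_lit 3) (.e (nat_lit 98373) (nat_lit 29) (.e (nat_lit 450562) (nat_lit 0) (.e (nat_lit 3953) (nat_lit 239) (.e (nat_lit 2623) (nat_lit 164) .nil)))))) (.g (nat_lit 1) (.e (nat_lit 196928) (nat_lit 0) .nil) .nil))) 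
(.lf (nat_lit 511825) (.g (nat_lit 915) (.e (nat_lit 172150) (nat_lit 27) (.e (nat_lit 335894) (nat_lit 0) (.e (nat_lit 6724) (nat_lit 362) (.e (nat_lit 180225) (nat_lit 0) .nil)))) (.g (nat_lit 0) (.e (nat_lit 198439) (nat_lit 0) .nil) .nil))))) (.nd (nat_lit 8) (.nd (nat_lit 9) 
(.lf (nat_lit 511185) (.g (nat_lit 3463) (.e (nat_lit 172125) (nat_lit 14) (.e (nat_lit 491569) (nat_lit 13) (.e (nat_lit 393283) (nat_lit 24) (.e (nat_lit 434271) (nat_lit 38) (.e (nat_lit 655378) (nat_lit 4) .nil))))) (.g (nat_lit 1) (.e (nat_lit 196657) (nat_lit 0) .nil) .nil))) 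
(.lf (nat_lit 511697) (.g (nat_lit 2005) (.e (nat_lit 179968) (nat_lit 18) (.e (nat_lit 98366) (nat_lit 27) (.e (nat_lit 434245) (nat_lit 28) (.e (nat_lit 573487) (nat_lit 14) (.e (nat_lit 73757) (nat_lit 11) .nil))))) (.g (nat_lit 0) (.e (nat_lit 198088) (nat_lit 0) .nil) .nil)))) (.nd (nat_lit 9) 
(.lf (nat_lit 511441) (.g (nat_lit 273) (.e (nat_lit 172126) (nat_lit 14) (.e (nat_lit 491550) (nat_lit 9) (.e (nat_lit 336430) (nat_lit 29) .nil))) (.g (nat_lit 0) (.e (nat_lit 197154) (nat_lit 0) .nil) .nil))) 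
(.lf (nat_lit 511953) (.g (nat_lit 3641) (.e (nat_lit 172150) (nat_lit 27) (.e (nat_lit 336387) (nat_lit 27) (.e (nat_lit 426316) (nat_lit 12) (.e (nat_lit 475185) (nat_lit 29) (.e (nat_lit 557091) (nat_lit 12) (.e (nat_lit 164030) (nat_lit 53) (.e (nat_lit 761902) (nat_lit 16) .nil))))))) (.g (nat_lit 1) (.e (nat_lit 198687) (nat_lit 0) .nil) .nil))))))) 
(.nd (nat_lit 6) (.nd (nat_lit 7) (.nd (nat_lit 8) (.nd (nat_lit 9) 
(.lf (nat_lit 511025) (.g (nat_lit 1327) (.e (nat_lit 172124) (nat_lit 14) (.e (nat_lit 491549) (nat_lit 9) (.e (nat_lit 336432) (nat_lit 30) (.e (nat_lit 450564) (nat_lit 0) .nil)))) (.g (nat_lit 0) (.e (nat_lit 196126) (nat_lit 0) .nil) .nil))) 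
(.lf (nat_lit 511537) (.g (nat_lit 2433) (.e (nat_lit 172126) (nat_lit 14) (.e (nat_lit 491570) (nat_lit 13) (.e (nat_lit 393283) (nat_lit 24) (.e (nat_lit 434271) (nat_lit 38) (.e (nat_lit 655376) (nat_lit 4) .nil))))) (.g (nat_lit 1) (.e (nat_lit 197447) (nat_lit 0) .nil) .nil)))) (.nd (nat_lit 9) 
(.lf (nat_lit 511281) (.g (nat_lit 3124) (.e (nat_lit 172126) (nat_lit 14) (.e (nat_lit 491540) (nat_lit 3) (.e (nat_lit 98373) (nat_lit 29) (.e (nat_lit 450560) (nat_lit 0) (.e (nat_lit 3916) (nat_lit 239) (.e (nat_lit 2623) (nat_lit 164) .nil)))))) (.g (nat_lit 1) (.e (nat_lit 196887) (nat_lit 0) .nil) .nil))) 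
(.lf (nat_lit 511793) (.g (nat_lit 2668) (.e (nat_lit 172147) (nat_lit 27) (.e (nat_lit 336231) (nat_lit 14) (.e (nat_lit 401458) (nat_lit 13) (.e (nat_lit 483344) (nat_lit 17) (.e (nat_lit 6720) (nat_lit 361) .nil))))) (.g (nat_lit 0) (.e (nat_lit 198274) (nat_lit 0) .nil) .nil))))) (.nd (nat_lit 8) (.nd (nat_lit 9) 
(.lf (nat_lit 511153) (.g (nat_lit 3371) (.e (nat_lit 172124) (nat_lit 14) (.e (nat_lit 491571) (nat_lit 13) (.e (nat_lit 393291) (nat_lit 26) (.e (nat_lit 475195) (nat_lit 40) (.e (nat_lit 704593) (nat_lit 4) .nil))))) (.g (nat_lit 1) (.e (nat_lit 196583) (nat_lit 0) .nil) .nil))) 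
(.lf (nat_lit 511665) (.g (nat_lit 1032) (.e (nat_lit 179968) (nat_lit 15) (.e (nat_lit 1784) (nat_lit 119) (.e (nat_lit 516179) (nat_lit 15) (.e (nat_lit 475177) (nat_lit 24) .nil)))) (.g (nat_lit 0) (.e (nat_lit 198032) (nat_lit 0) .nil) .nil)))) (.nd (nat_lit 9) 
(.lf (nat_lit 511409) (.g (nat_lit 1402) (.e (nat_lit 172126) (nat_lit 14) (.e (nat_lit 491549) (nat_lit 9) (.e (nat_lit 336434) (nat_lit 30) (.e (nat_lit 450560) (nat_lit 0) .nil)))) (.g (nat_lit 0) (.e (nat_lit 197109) (nat_lit 0) .nil) .nil))) 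
(.lf (nat_lit 511921) (.g (nat_lit 1750) (.e (nat_lit 172150) (nat_lit 27) (.e (nat_lit 336232) (nat_lit 14) (.e (nat_lit 401440) (nat_lit 9) (.e (nat_lit 426470) (nat_lit 25) (.e (nat_lit 319491) (nat_lit 0) (.e (nat_lit 5766) (nat_lit 316) .nil)))))) (.g (nat_lit 1) (.e (nat_lit 198606) (nat_lit 0) .nil) .nil)))))) (.nd (nat_lit 7) (.nd (nat_lit 8) (.nd (nat_lit 9) 
(.lf (nat_lit 511089) (.g (nat_lit 2380) (.e (nat_lit 172124) (nat_lit 14) (.e (nat_lit 491550) (nat_lit 9) (.e (nat_lit 336443) (nat_lit 32) (.e (nat_lit 466971) (nat_lit 21) (.e (nat_lit 164346) (nat_lit 240) (.e (nat_lit 2618) (nat_lit 164) .nil)))))) (.g (nat_lit 1) (.e (nat_lit 196200) (nat_lit 0) .nil) .nil))) 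
(.lf (nat_lit 511601) (.g (nat_lit 2413) (.e (nat_lit 172133) (nat_lit 15) (.e (nat_lit 1856) (nat_lit 124) (.e (nat_lit 557109) (nat_lit 15) (.e (nat_lit 188452) (nat_lit 23) (.e (nat_lit 204819) (nat_lit 17) .nil))))) (.g (nat_lit 0) (.e (nat_lit 197915) (nat_lit 0) .nil) .nil)))) (.nd (nat_lit 9) 
(.lf (nat_lit 511345) (.g (nat_lit 3129) (.e (nat_lit 172126) (nat_lit 14) (.e (nat_lit 491540) (nat_lit 3) (.e (nat_lit 98373) (nat_lit 29) (.e (nat_lit 450569) (nat_lit 0) (.e (nat_lit 3978) (nat_lit 239) (.e (nat_lit 2629) (nat_lit 164) .nil)))))) (.g (nat_lit 1) (.e (nat_lit 196965) (nat_lit 0) .nil) .nil))) 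
(.lf (nat_lit 511857) (.g (nat_lit 2009) (.e (nat_lit 172150) (nat_lit 27) (.e (nat_lit 336229) (nat_lit 14) (.e (nat_lit 401458) (nat_lit 13) (.e (nat_lit 483350) (nat_lit 17) (.e (nat_lit 7936) (nat_lit 361) .nil))))) (.g (nat_lit 1) (.e (nat_lit 198503) (nat_lit 0) .nil) .nil))))) (.nd (nat_lit 8) (.nd (nat_lit 9) 
(.lf (nat_lit 511217) (.g (nat_lit 2257) (.e (nat_lit 172126) (nat_lit 14) (.e (nat_lit 491537) (nat_lit 2) (.e (nat_lit 90170) (nat_lit 13) (.e (nat_lit 172107) (nat_lit 10) (.e (nat_lit 434238) (nat_lit 25) .nil))))) (.g (nat_lit 0) (.e (nat_lit 196799) (nat_lit 0) .nil) .nil))) 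
(.lf (nat_lit 511729) (.g (nat_lit 2891) (.e (nat_lit 172143) (nat_lit 25) (.e (nat_lit 319490) (nat_lit 0) (.e (nat_lit 5664) (nat_lit 312) (.e (nat_lit 3078) (nat_lit 191) (.e (nat_lit 483346) (nat_lit 17) (.e (nat_lit 6720) (nat_lit 361) .nil)))))) (.g (nat_lit 1) (.e (nat_lit 198127) (nat_lit 0) .nil) .nil)))) (.nd (nat_lit 9) 
(.lf (nat_lit 511473) (.g (nat_lit 932) (.e (nat_lit 172126) (nat_lit 14) (.e (nat_lit 491566) (nat_lit 12) (.e (nat_lit 385051) (nat_lit 21) .nil))) (.g (nat_lit 0) (.e (nat_lit 197227) (nat_lit 0) .nil) .nil))) 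
(.lf (nat_lit 511985) (.g (nat_lit 615) (.e (nat_lit 179968) (nat_lit 28) (.e (nat_lit 344069) (nat_lit 0) (.e (nat_lit 2854) (nat_lit 184) (.e (nat_lit 426533) (nat_lit 28) (.e (nat_lit 352000) (nat_lit 4) .nil))))) (.g (nat_lit 0) (.e (nat_lit 198727) (nat_lit 0) .nil) .nil))))))))) (.nd (nat_lit 4) (.nd (nat_lit 5) (.nd (nat_lit 6) (.nd (nat_lit 7) (.nd (nat_lit 8) (.nd (nat_lit 9) 
(.lf (nat_lit 510985) (.g (nat_lit 1390) (.e (nat_lit 172124) (nat_lit 14) (.e (nat_lit 491540) (nat_lit 3) (.e (nat_lit 98373) (nat_lit 29) (.e (nat_lit 458496) (nat_lit 0) .nil)))) (.g (nat_lit 0) (.e (nat_lit 196046) (nat_lit 0) .nil) .nil))) 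
(.lf (nat_lit 511497) (.g (nat_lit 1835) (.e (nat_lit 172126) (nat_lit 14) (.e (nat_lit 491568) (nat_lit 13) (.e (nat_lit 393282) (nat_lit 24) (.e (nat_lit 434209) (nat_lit 18) (.e (nat_lit 5546) (nat_lit 306) .nil))))) (.g (nat_lit 0) (.e (nat_lit 197279) (nat_lit 0) .nil) .nil)))) (.nd (nat_lit 9) 
(.lf (nat_lit 511241) (.g (nat_lit 231) (.e (nat_lit 172126) (nat_lit 14) (.e (nat_lit 491537) (nat_lit 2) (.e (nat_lit 90174) (nat_lit 14) .nil))) (.g (nat_lit 0) (.e (nat_lit 196825) (nat_lit 0) .nil) .nil))) 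
(.lf (nat_lit 511753) (.g (nat_lit 1012) (.e (nat_lit 172144) (nat_lit 26) (.e (nat_lit 327700) (nat_lit 8) (.e (nat_lit 303144) (nat_lit 13) (.e (nat_lit 483349) (nat_lit 17) (.e (nat_lit 7936) (nat_lit 361) .nil))))) (.g (nat_lit 1) (.e (nat_lit 198207) (nat_lit 0) .nil) .nil))))) (.nd (nat_lit 8) (.nd (nat_lit 9) 
(.lf (nat_lit 511113) (.g (nat_lit 2009) (.e (nat_lit 172124) (nat_lit 14) (.e (nat_lit 491569) (nat_lit 13) (.e (nat_lit 393282) (nat_lit 24) (.e (nat_lit 434271) (nat_lit 38) (.e (nat_lit 655378) (nat_lit 4) .nil))))) (.g (nat_lit 1) (.e (nat_lit 196274) (nat_lit 0) .nil) .nil))) 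
(.lf (nat_lit 511625) (.g (nat_lit 3665) (.e (nat_lit 172133) (nat_lit 15) (.e (nat_lit 2059) (nat_lit 142) (.e (nat_lit 704589) (nat_lit 3) (.e (nat_lit 163979) (nat_lit 30) (.e (nat_lit 573482) (nat_lit 13) (.e (nat_lit 65619) (nat_lit 10) (.e (nat_lit 344108) (nat_lit 19) (.e (nat_lit 499916) (nat_lit 9) .nil)))))))) (.g (nat_lit 1) (.e (nat_lit 197956) (nat_lit 0) .nil) .nil)))) 
(.nd (nat_lit 9) 
(.lf (nat_lit 511369) (.g (nat_lit 3622) (.e (nat_lit 172126) (nat_lit 14) (.e (nat_lit 491549) (nat_lit 9) (.e (nat_lit 336369) (nat_lit 27) (.e (nat_lit 426305) (nat_lit 12) (.e (nat_lit 475198) (nat_lit 40) (.e (nat_lit 704592) (nat_lit 4) .nil)))))) (.g (nat_lit 1) (.e (nat_lit 197033) (nat_lit 0) .nil) .nil))) 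
(.lf (nat_lit 511881) (.g (nat_lit 3260) (.e (nat_lit 172150) (nat_lit 27) (.e (nat_lit 336231) (nat_lit 14) (.e (nat_lit 401437) (nat_lit 9) (.e (nat_lit 426530) (nat_lit 27) (.e (nat_lit 335874) (nat_lit 0) (.e (nat_lit 6719) (nat_lit 361) .nil)))))) (.g (nat_lit 1) (.e (nat_lit 198539) (nat_lit 0) .nil) .nil)))))) (.nd (nat_lit 7) (.nd (nat_lit 8) (.nd (nat_lit 9) 
(.lf (nat_lit 511049) (.g (nat_lit 2362) (.e (nat_lit 172124) (nat_lit 14) (.e (nat_lit 491549) (nat_lit 9) (.e (nat_lit 336443) (nat_lit 32) (.e (nat_lit 466971) (nat_lit 21) (.e (nat_lit 164346) (nat_lit 240) (.e (nat_lit 2618) (nat_lit 164) .nil)))))) (.g (nat_lit 1) (.e (nat_lit 196153) (nat_lit 0) .nil) .nil))) 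
(.lf (nat_lit 511561) (.g (nat_lit 1006) (.e (nat_lit 172132) (nat_lit 15) (.e (nat_lit 1796) (nat_lit 119) (.e (nat_lit 516119) (nat_lit 1) (.e (nat_lit 164327) (nat_lit 230) .nil)))) (.g (nat_lit 0) (.e (nat_lit 197852) (nat_lit 0) .nil) .nil)))) (.nd (nat_lit 9) 
(.lf (nat_lit 511305) (.g (nat_lit 2787) (.e (nat_lit 172126) (nat_lit 14) (.e (nat_lit 491540) (nat_lit 3) (.e (nat_lit 98373) (nat_lit 29) (.e (nat_lit 450560) (nat_lit 0) (.e (nat_lit 3967) (nat_lit 239) (.e (nat_lit 2626) (nat_lit 164) .nil)))))) (.g (nat_lit 1) (.e (nat_lit 196917) (nat_lit 0) .nil) .nil))) 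
(.lf (nat_lit 511817) (.g (nat_lit 1433) (.e (nat_lit 172150) (nat_lit 27) (.e (nat_lit 335893) (nat_lit 0) (.e (nat_lit 6720) (nat_lit 361) (.e (nat_lit 172143) (nat_lit 25) (.e (nat_lit 319490) (nat_lit 0) (.e (nat_lit 5766) (nat_lit 316) .nil)))))) (.g (nat_lit 1) (.e (nat_lit 198377) (nat_lit 0) .nil) .nil))))) (.nd (nat_lit 8) (.nd (nat_lit 9) 
(.lf (nat_lit 511177) (.g (nat_lit 2677) (.e (nat_lit 172125) (nat_lit 14) (.e (nat_lit 491566) (nat_lit 12) (.e (nat_lit 385109) (nat_lit 51) (.e (nat_lit 794677) (nat_lit 24) .nil)))) (.g (nat_lit 0) (.e (nat_lit 196648) (nat_lit 0) .nil) .nil))) 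
(.lf (nat_lit 511689) (.g (nat_lit 1676) (.e (nat_lit 179968) (nat_lit 18) (.e (nat_lit 98335) (nat_lit 18) (.e (nat_lit 164330) (nat_lit 230) (.e (nat_lit 163857) (nat_lit 0) .nil)))) (.g (nat_lit 0) (.e (nat_lit 198078) (nat_lit 0) .nil) .nil)))) (.nd (nat_lit 9) 
(.lf (nat_lit 511433) (.g (nat_lit 2757) (.e (nat_lit 172126) (nat_lit 14) (.e (nat_lit 491550) (nat_lit 9) (.e (nat_lit 336369) (nat_lit 27) (.e (nat_lit 426317) (nat_lit 12) (.e (nat_lit 475197) (nat_lit 40) (.e (nat_lit 704592) (nat_lit 4) .nil)))))) (.g (nat_lit 1) (.e (nat_lit 197140) (nat_lit 0) .nil) .nil))) 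
(.lf (nat_lit 511945) (.g (nat_lit 2162) (.e (nat_lit 172150) (nat_lit 27) (.e (nat_lit 336387) (nat_lit 27) (.e (nat_lit 426200) (nat_lit 9) (.e (nat_lit 426131) (nat_lit 3) (.e (nat_lit 204830) (nat_lit 18) (.e (nat_lit 57663) (nat_lit 152) (.e (nat_lit 2616) (nat_lit 164) .nil))))))) (.g (nat_lit 1) (.e (nat_lit 198652) (nat_lit 0) .nil) .nil))))))) 
(.nd (nat_lit 6) (.nd (nat_lit 7) (.nd (nat_lit 8) (.nd (nat_lit 9) 
(.lf (nat_lit 511017) (.g (nat_lit 3790) (.e (nat_lit 172124) (nat_lit 14) (.e (nat_lit 491549) (nat_lit 9) (.e (nat_lit 336430) (nat_lit 29) (.e (nat_lit 442421) (nat_lit 21) (.e (nat_lit 164348) (nat_lit 240) (.e (nat_lit 2629) (nat_lit 164) .nil)))))) (.g (nat_lit 1) (.e (nat_lit 196117) (nat_lit 0) .nil) .nil))) 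
(.lf (nat_lit 511529) (.g (nat_lit 2919) (.e (nat_lit 172126) (nat_lit 14) (.e (nat_lit 491569) (nat_lit 13) (.e (nat_lit 393296) (nat_lit 26) (.e (nat_lit 475198) (nat_lit 40) (.e (nat_lit 704592) (nat_lit 4) .nil))))) (.g (nat_lit 1) (.e (nat_lit 197368) (nat_lit 0) .nil) .nil)))) (.nd (nat_lit 9) 
(.lf (nat_lit 511273) (.g (nat_lit 2437) (.e (nat_lit 172126) (nat_lit 14) (.e (nat_lit 491540) (nat_lit 3) (.e (nat_lit 98365) (nat_lit 26) (.e (nat_lit 426344) (nat_lit 14) (.e (nat_lit 491536) (nat_lit 2) (.e (nat_lit 90167) (nat_lit 13) .nil)))))) (.g (nat_lit 1) (.e (nat_lit 196869) (nat_lit 0) .nil) .nil))) 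
(.lf (nat_lit 511785) (.g (nat_lit 481) (.e (nat_lit 172147) (nat_lit 27) (.e (nat_lit 336229) (nat_lit 14) (.e (nat_lit 401458) (nat_lit 13) .nil))) (.g (nat_lit 0) (.e (nat_lit 198262) (nat_lit 0) .nil) .nil))))) (.nd (nat_lit 8) (.nd (nat_lit 9) 
(.lf (nat_lit 511145) (.g (nat_lit 2334) (.e (nat_lit 172124) (nat_lit 14) (.e (nat_lit 491571) (nat_lit 13) (.e (nat_lit 393267) (nat_lit 23) (.e (nat_lit 426444) (nat_lit 19) (.e (nat_lit 114432) (nat_lit 4) .nil))))) (.g (nat_lit 1) (.e (nat_lit 196473) (nat_lit 0) .nil) .nil))) 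
(.lf (nat_lit 511657) (.g (nat_lit 515) (.e (nat_lit 172138) (nat_lit 15) (.e (nat_lit 1856) (nat_lit 124) (.e (nat_lit 557109) (nat_lit 15) .nil))) (.g (nat_lit 0) (.e (nat_lit 198020) (nat_lit 0) .nil) .nil)))) (.nd (nat_lit 9) 
(.lf (nat_lit 511401) (.g (nat_lit 4659) (.e (nat_lit 172126) (nat_lit 14) (.e (nat_lit 491549) (nat_lit 9) (.e (nat_lit 336430) (nat_lit 29) (.e (nat_lit 442430) (nat_lit 24) (.e (nat_lit 229663) (nat_lit 240) (.e (nat_lit 2630) (nat_lit 164) .nil)))))) (.g (nat_lit 1) (.e (nat_lit 197097) (nat_lit 0) .nil) .nil))) 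
(.lf (nat_lit 511913) (.g (nat_lit 1897) (.e (nat_lit 172150) (nat_lit 27) (.e (nat_lit 336231) (nat_lit 14) (.e (nat_lit 401458) (nat_lit 13) (.e (nat_lit 483360) (nat_lit 17) .nil)))) (.g (nat_lit 0) (.e (nat_lit 198592) (nat_lit 0) .nil) .nil)))))) (.nd (nat_lit 7) (.nd (nat_lit 8) (.nd (nat_lit 9) 
(.lf (nat_lit 511081) (.g (nat_lit 3454) (.e (nat_lit 172124) (nat_lit 14) (.e (nat_lit 491550) (nat_lit 9) (.e (nat_lit 336434) (nat_lit 30) (.e (nat_lit 450564) (nat_lit 0) (.e (nat_lit 5546) (nat_lit 306) (.e (nat_lit 2619) (nat_lit 164) .nil)))))) (.g (nat_lit 1) (.e (nat_lit 196192) (nat_lit 0) .nil) .nil))) 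
(.lf (nat_lit 511593) (.g (nat_lit 1950) (.e (nat_lit 172133) (nat_lit 15) (.e (nat_lit 1856) (nat_lit 124) (.e (nat_lit 557100) (nat_lit 13) (.e (nat_lit 172113) (nat_lit 10) (.e (nat_lit 434231) (nat_lit 23) .nil))))) (.g (nat_lit 0) (.e (nat_lit 197905) (nat_lit 0) .nil) .nil)))) (.nd (nat_lit 9) 
(.lf (nat_lit 511337) (.g (nat_lit 2878) (.e (nat_lit 172126) (nat_lit 14) (.e (nat_lit 491540) (nat_lit 3) (.e (nat_lit 98373) (nat_lit 29) (.e (nat_lit 450566) (nat_lit 0) (.e (nat_lit 3944) (nat_lit 239) .nil))))) (.g (nat_lit 0) (.e (nat_lit 196957) (nat_lit 0) .nil) .nil))) 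
(.lf (nat_lit 511849) (.g (nat_lit 1344) (.e (nat_lit 172150) (nat_lit 27) (.e (nat_lit 336203) (nat_lit 12) (.e (nat_lit 385104) (nat_lit 50) (.e (nat_lit 786475) (nat_lit 28) (.e (nat_lit 352000) (nat_lit 4) .nil))))) (.g (nat_lit 1) (.e (nat_lit 198491) (nat_lit 0) .nil) .nil))))) (.nd (nat_lit 8) (.nd (nat_lit 9) 
(.lf (nat_lit 511209) (.g (nat_lit 2473) (.e (nat_lit 172126) (nat_lit 14) (.e (nat_lit 491537) (nat_lit 2) (.e (nat_lit 90170) (nat_lit 13) (.e (nat_lit 172106) (nat_lit 10) (.e (nat_lit 434209) (nat_lit 18) .nil))))) (.g (nat_lit 0) (.e (nat_lit 196791) (nat_lit 0) .nil) .nil))) 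
(.lf (nat_lit 511721) (.g (nat_lit 837) (.e (nat_lit 172142) (nat_lit 24) (.e (nat_lit 163584) (nat_lit 6) (.e (nat_lit 188431) (nat_lit 20) (.e (nat_lit 3401) (nat_lit 211) (.e (nat_lit 647181) (nat_lit 3) (.e (nat_lit 171776) (nat_lit 205) .nil)))))) (.g (nat_lit 1) (.e (nat_lit 198117) (nat_lit 0) .nil) .nil)))) (.nd (nat_lit 9) 
(.lf (nat_lit 511465) (.g (nat_lit 2421) (.e (nat_lit 172126) (nat_lit 14) (.e (nat_lit 491550) (nat_lit 9) (.e (nat_lit 336443) (nat_lit 32) (.e (nat_lit 466971) (nat_lit 21) (.e (nat_lit 164346) (nat_lit 240) (.e (nat_lit 2617) (nat_lit 164) .nil)))))) (.g (nat_lit 1) (.e (nat_lit 197196) (nat_lit 0) .nil) .nil))) 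
(.lf (nat_lit 511977) (.g (nat_lit 2261) (.e (nat_lit 179968) (nat_lit 28) (.e (nat_lit 344068) (nat_lit 0) (.e (nat_lit 2856) (nat_lit 184) (.e (nat_lit 426530) (nat_lit 27) (.e (nat_lit 335874) (nat_lit 0) .nil))))) (.g (nat_lit 0) (.e (nat_lit 198719) (nat_lit 0) .nil) .nil)))))))) (.nd (nat_lit 5) (.nd (nat_lit 6) (.nd (nat_lit 7) (.nd (nat_lit 8) (.nd (nat_lit 9) 
(.lf (nat_lit 511001) (.g (nat_lit 344) (.e (nat_lit 172124) (nat_lit 14) (.e (nat_lit 491549) (nat_lit 9) (.e (nat_lit 336430) (nat_lit 29) .nil))) (.g (nat_lit 0) (.e (nat_lit 196095) (nat_lit 0) .nil) .nil))) 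
(.lf (nat_lit 511513) (.g (nat_lit 1788) (.e (nat_lit 172126) (nat_lit 14) (.e (nat_lit 491569) (nat_lit 13) (.e (nat_lit 393273) (nat_lit 23) (.e (nat_lit 426444) (nat_lit 19) (.e (nat_lit 114432) (nat_lit 4) .nil))))) (.g (nat_lit 1) (.e (nat_lit 197317) (nat_lit 0) .nil) .nil)))) (.nd (nat_lit 9) 
(.lf (nat_lit 511257) (.g (nat_lit 2159) (.e (nat_lit 172126) (nat_lit 14) (.e (nat_lit 491539) (nat_lit 3) (.e (nat_lit 98372) (nat_lit 29) (.e (nat_lit 450583) (nat_lit 7) (.e (nat_lit 548913) (nat_lit 18) .nil))))) (.g (nat_lit 1) (.e (nat_lit 196846) (nat_lit 0) .nil) .nil))) 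
(.lf (nat_lit 511769) (.g (nat_lit 1263) (.e (nat_lit 172145) (nat_lit 27) (.e (nat_lit 336229) (nat_lit 14) (.e (nat_lit 401458) (nat_lit 13) (.e (nat_lit 483350) (nat_lit 17) .nil)))) (.g (nat_lit 0) (.e (nat_lit 198232) (nat_lit 0) .nil) .nil))))) (.nd (nat_lit 8) (.nd (nat_lit 9) 
(.lf (nat_lit 511129) (.g (nat_lit 1855) (.e (nat_lit 172124) (nat_lit 14) (.e (nat_lit 491570) (nat_lit 13) (.e (nat_lit 393268) (nat_lit 23) (.e (nat_lit 426444) (nat_lit 19) (.e (nat_lit 114432) (nat_lit 4) .nil))))) (.g (nat_lit 1) (.e (nat_lit 196312) (nat_lit 0) .nil) .nil))) 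
(.lf (nat_lit 511641) (.g (nat_lit 1646) (.e (nat_lit 172136) (nat_lit 15) (.e (nat_lit 1800) (nat_lit 119) (.e (nat_lit 516119) (nat_lit 1) (.e (nat_lit 164345) (nat_lit 240) .nil)))) (.g (nat_lit 0) (.e (nat_lit 197990) (nat_lit 0) .nil) .nil)))) (.nd (nat_lit 9) 
(.lf (nat_lit 511385) (.g (nat_lit 2573) (.e (nat_lit 172126) (nat_lit 14) (.e (nat_lit 491549) (nat_lit 9) (.e (nat_lit 336430) (nat_lit 29) (.e (nat_lit 442376) (nat_lit 0) (.e (nat_lit 2143) (nat_lit 142) (.e (nat_lit 704591) (nat_lit 4) .nil)))))) (.g (nat_lit 1) (.e (nat_lit 197073) (nat_lit 0) .nil) .nil))) 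
(.lf (nat_lit 511897) (.g (nat_lit 2954) (.e (nat_lit 172150) (nat_lit 27) (.e (nat_lit 336231) (nat_lit 14) (.e (nat_lit 401446) (nat_lit 10) (.e (nat_lit 434203) (nat_lit 18) (.e (nat_lit 6420) (nat_lit 341) (.e (nat_lit 163843) (nat_lit 0) (.e (nat_lit 7936) (nat_lit 392) .nil))))))) (.g (nat_lit 1) (.e (nat_lit 198564) (nat_lit 0) .nil) .nil)))))) 
(.nd (nat_lit 7) (.nd (nat_lit 8) (.nd (nat_lit 9) 
(.lf (nat_lit 511065) (.g (nat_lit 3504) (.e (nat_lit 172124) (nat_lit 14) (.e (nat_lit 491550) (nat_lit 9) (.e (nat_lit 336430) (nat_lit 29) (.e (nat_lit 442421) (nat_lit 21) (.e (nat_lit 164347) (nat_lit 240) (.e (nat_lit 2619) (nat_lit 164) .nil)))))) (.g (nat_lit 1) (.e (nat_lit 196176) (nat_lit 0) .nil) .nil))) 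
(.lf (nat_lit 511577) (.g (nat_lit 2583) (.e (nat_lit 172133) (nat_lit 15) (.e (nat_lit 1800) (nat_lit 119) (.e (nat_lit 516117) (nat_lit 1) (.e (nat_lit 164330) (nat_lit 230) (.e (nat_lit 163841) (nat_lit 0) .nil))))) (.g (nat_lit 0) (.e (nat_lit 197873) (nat_lit 0) .nil) .nil)))) (.nd (nat_lit 9) 
(.lf (nat_lit 511321) (.g (nat_lit 4420) (.e (nat_lit 172126) (nat_lit 14) (.e (nat_lit 491540) (nat_lit 3) (.e (nat_lit 98373) (nat_lit 29) (.e (nat_lit 450563) (nat_lit 0) (.e (nat_lit 3919) (nat_lit 239) (.e (nat_lit 2631) (nat_lit 164) .nil)))))) (.g (nat_lit 1) (.e (nat_lit 196938) (nat_lit 0) .nil) .nil))) 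
(.lf (nat_lit 511833) (.g (nat_lit 1766) (.e (nat_lit 172150) (nat_lit 27) (.e (nat_lit 336078) (nat_lit 9) (.e (nat_lit 336266) (nat_lit 15) (.e (nat_lit 3747) (nat_lit 228) (.e (nat_lit 786473) (nat_lit 27) (.e (nat_lit 335872) (nat_lit 0) (.e (nat_lit 6719) (nat_lit 361) .nil))))))) (.g (nat_lit 1) (.e (nat_lit 198462) (nat_lit 0) .nil) .nil))))) (.nd (nat_lit 8) (.nd (nat_lit 9) 
(.lf (nat_lit 511193) (.g (nat_lit 192) (.e (nat_lit 172126) (nat_lit 14) (.e (nat_lit 491537) (nat_lit 2) (.e (nat_lit 90133) (nat_lit 9) .nil))) (.g (nat_lit 0) (.e (nat_lit 196769) (nat_lit 0) .nil) .nil))) 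
(.lf (nat_lit 511705) (.g (nat_lit 1159) (.e (nat_lit 179968) (nat_lit 18) (.e (nat_lit 98367) (nat_lit 27) (.e (nat_lit 434245) (nat_lit 28) (.e (nat_lit 573481) (nat_lit 13) .nil)))) (.g (nat_lit 0) (.e (nat_lit 198096) (nat_lit 0) .nil) .nil)))) (.nd (nat_lit 9) 
(.lf (nat_lit 511449) (.g (nat_lit 4371) (.e (nat_lit 172126) (nat_lit 14) (.e (nat_lit 491550) (nat_lit 9) (.e (nat_lit 336430) (nat_lit 29) (.e (nat_lit 442428) (nat_lit 24) (.e (nat_lit 229663) (nat_lit 240) (.e (nat_lit 2630) (nat_lit 164) .nil)))))) (.g (nat_lit 1) (.e (nat_lit 197167) (nat_lit 0) .nil) .nil))) 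
(.lf (nat_lit 511961) (.g (nat_lit 1841) (.e (nat_lit 179968) (nat_lit 27) (.e (nat_lit 336226) (nat_lit 14) (.e (nat_lit 401459) (nat_lit 13) (.e (nat_lit 483344) (nat_lit 17) (.e (nat_lit 6720) (nat_lit 361) .nil))))) (.g (nat_lit 0) (.e (nat_lit 198699) (nat_lit 0) .nil) .nil))))))) (.nd (nat_lit 6) (.nd (nat_lit 7) (.nd (nat_lit 8) (.nd (nat_lit 9) 
(.lf (nat_lit 511033) (.g (nat_lit 1908) (.e (nat_lit 172124) (nat_lit 14) (.e (nat_lit 491549) (nat_lit 9) (.e (nat_lit 336434) (nat_lit 30) (.e (nat_lit 450561) (nat_lit 0) (.e (nat_lit 5537) (nat_lit 306) .nil))))) (.g (nat_lit 0) (.e (nat_lit 196136) (nat_lit 0) .nil) .nil))) 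
(.lf (nat_lit 511545) (.g (nat_lit 2761) (.e (nat_lit 172126) (nat_lit 14) (.e (nat_lit 491570) (nat_lit 13) (.e (nat_lit 393294) (nat_lit 26) (.e (nat_lit 475197) (nat_lit 40) (.e (nat_lit 704592) (nat_lit 4) .nil))))) (.g (nat_lit 1) (.e (nat_lit 197468) (nat_lit 0) .nil) .nil)))) (.nd (nat_lit 9) 
(.lf (nat_lit 511289) (.g (nat_lit 3007) (.e (nat_lit 172126) (nat_lit 14) (.e (nat_lit 491540) (nat_lit 3) (.e (nat_lit 98373) (nat_lit 29) (.e (nat_lit 450560) (nat_lit 0) (.e (nat_lit 3934) (nat_lit 239) (.e (nat_lit 2628) (nat_lit 164) .nil)))))) (.g (nat_lit 1) (.e (nat_lit 196896) (nat_lit 0) .nil) .nil))) 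
(.lf (nat_lit 511801) (.g (nat_lit 2224) (.e (nat_lit 172149) (nat_lit 27) (.e (nat_lit 336051) (nat_lit 6) (.e (nat_lit 147495) (nat_lit 11) (.e (nat_lit 24601) (nat_lit 2) .nil)))) (.g (nat_lit 0) (.e (nat_lit 198341) (nat_lit 0) .nil) .nil))))) (.nd (nat_lit 8) (.nd (nat_lit 9) 
(.lf (nat_lit 511161) (.g (nat_lit 924) (.e (nat_lit 172125) (nat_lit 14) (.e (nat_lit 491537) (nat_lit 2) (.e (nat_lit 90177) (nat_lit 15) .nil))) (.g (nat_lit 0) (.e (nat_lit 196625) (nat_lit 0) .nil) .nil))) 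
(.lf (nat_lit 511673) (.g (nat_lit 2716) (.e (nat_lit 179968) (nat_lit 15) (.e (nat_lit 1853) (nat_lit 124) (.e (nat_lit 557108) (nat_lit 15) (.e (nat_lit 188452) (nat_lit 23) (.e (nat_lit 204817) (nat_lit 17) .nil))))) (.g (nat_lit 0) (.e (nat_lit 198041) (nat_lit 0) .nil) .nil)))) (.nd (nat_lit 9) 
(.lf (nat_lit 511417) (.g (nat_lit 998) (.e (nat_lit 172126) (nat_lit 14) (.e (nat_lit 491549) (nat_lit 9) (.e (nat_lit 336434) (nat_lit 30) (.e (nat_lit 458496) (nat_lit 0) .nil)))) (.g (nat_lit 0) (.e (nat_lit 197118) (nat_lit 0) .nil) .nil))) 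
(.lf (nat_lit 511929) (.g (nat_lit 350) (.e (nat_lit 172150) (nat_lit 27) (.e (nat_lit 336232) (nat_lit 14) (.e (nat_lit 401456) (nat_lit 13) .nil))) (.g (nat_lit 0) (.e (nat_lit 198630) (nat_lit 0) .nil) .nil)))))) (.nd (nat_lit 7) (.nd (nat_lit 8) (.nd (nat_lit 9) 
(.lf (nat_lit 511097) (.g (nat_lit 2142) (.e (nat_lit 172124) (nat_lit 14) (.e (nat_lit 491566) (nat_lit 12) (.e (nat_lit 385109) (nat_lit 51) (.e (nat_lit 794684) (nat_lit 25) .nil)))) (.g (nat_lit 0) (.e (nat_lit 196230) (nat_lit 0) .nil) .nil))) 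
(.lf (nat_lit 511609) (.g (nat_lit 7808) (.e (nat_lit 172133) (nat_lit 15) (.e (nat_lit 2059) (nat_lit 142) (.e (nat_lit 704589) (nat_lit 3) (.e (nat_lit 163975) (nat_lit 30) (.e (nat_lit 573492) (nat_lit 15) (.e (nat_lit 81953) (nat_lit 22) (.e (nat_lit 90166) (nat_lit 13) .nil))))))) (.g (nat_lit 1) (.e (nat_lit 197930) (nat_lit 0) .nil) .nil)))) (.nd (nat_lit 9) 
(.lf (nat_lit 511353) (.g (nat_lit 1154) (.e (nat_lit 172126) (nat_lit 14) (.e (nat_lit 491547) (nat_lit 9) (.e (nat_lit 336428) (nat_lit 29) (.e (nat_lit 442399) (nat_lit 20) .nil)))) (.g (nat_lit 0) (.e (nat_lit 196981) (nat_lit 0) .nil) .nil))) 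
(.lf (nat_lit 511865) (.g (nat_lit 173) (.e (nat_lit 172150) (nat_lit 27) (.e (nat_lit 336230) (nat_lit 14) (.e (nat_lit 401440) (nat_lit 9) .nil))) (.g (nat_lit 0) (.e (nat_lit 198513) (nat_lit 0) .nil) .nil))))) (.nd (nat_lit 8) (.nd (nat_lit 9) 
(.lf (nat_lit 511225) (.g (nat_lit 2247) (.e (nat_lit 172126) (nat_lit 14) (.e (nat_lit 491537) (nat_lit 2) (.e (nat_lit 90170) (nat_lit 13) (.e (nat_lit 172113) (nat_lit 10) (.e (nat_lit 434208) (nat_lit 18) (.e (nat_lit 3948) (nat_lit 239) (.e (nat_lit 2616) (nat_lit 164) .nil))))))) (.g (nat_lit 1) (.e (nat_lit 196808) (nat_lit 0) .nil) .nil))) 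
(.lf (nat_lit 511737) (.g (nat_lit 1012) (.e (nat_lit 172143) (nat_lit 25) (.e (nat_lit 319490) (nat_lit 0) (.e (nat_lit 5771) (nat_lit 316) (.e (nat_lit 172149) (nat_lit 27) (.e (nat_lit 335872) (nat_lit 0) (.e (nat_lit 6719) (nat_lit 361) .nil)))))) (.g (nat_lit 1) (.e (nat_lit 198135) (nat_lit 0) .nil) .nil)))) (.nd (nat_lit 9) 
(.lf (nat_lit 511481) (.g (nat_lit 653) (.e (nat_lit 172126) (nat_lit 14) (.e (nat_lit 491568) (nat_lit 13) (.e (nat_lit 393274) (nat_lit 23) .nil))) (.g (nat_lit 0) (.e (nat_lit 197261) (nat_lit 0) .nil) .nil))) 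
(.lf (nat_lit 511993) (.g (nat_lit 1600) (.e (nat_lit 179968) (nat_lit 28) (.e (nat_lit 344069) (nat_lit 0) (.e (nat_lit 3090) (nat_lit 191) (.e (nat_lit 483350) (nat_lit 17) (.e (nat_lit 7936) (nat_lit 361) .nil))))) (.g (nat_lit 0) (.e (nat_lit 198736) (nat_lit 0) .nil) .nil)))))))))) 
(.nd (nat_lit 3) (.nd (nat_lit 4) (.nd (nat_lit 5) (.nd (nat_lit 6) (.nd (nat_lit 7) 
(.nd (nat_lit 8) (.nd (nat_lit 9) 
(.lf (nat_lit 510981) (.g (nat_lit 3157) (.e (nat_lit 172124) (nat_lit 14) (.e (nat_lit 491540) (nat_lit 3) (.e (nat_lit 98373) (nat_lit 29) (.e (nat_lit 450568) (nat_lit 0) (.e (nat_lit 3978) (nat_lit 239) (.e (nat_lit 2619) (nat_lit 164) .nil)))))) (.g (nat_lit 1) (.e (nat_lit 196042) (nat_lit 0) .nil) .nil))) 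
(.lf (nat_lit 511493) (.g (nat_lit 2350) (.e (nat_lit 172126) (nat_lit 14) (.e (nat_lit 491568) (nat_lit 13) (.e (nat_lit 393281) (nat_lit 23) (.e (nat_lit 426107) (nat_lit 1) (.e (nat_lit 164347) (nat_lit 240) .nil))))) (.g (nat_lit 0) (.e (nat_lit 197275) (nat_lit 0) .nil) .nil)))) (.nd (nat_lit 9) 
(.lf (nat_lit 511237) (.g (nat_lit 3833) (.e (nat_lit 172126) (nat_lit 14) (.e (nat_lit 491537) (nat_lit 2) (.e (nat_lit 90170) (nat_lit 13) (.e (nat_lit 172124) (nat_lit 14) (.e (nat_lit 491537) (nat_lit 2) (.e (nat_lit 90167) (nat_lit 13) .nil)))))) (.g (nat_lit 1) (.e (nat_lit 196820) (nat_lit 0) .nil) .nil))) 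
(.lf (nat_lit 511749) (.g (nat_lit 166) (.e (nat_lit 172144) (nat_lit 26) (.e (nat_lit 327683) (nat_lit 0) (.e (nat_lit 5768) (nat_lit 316) .nil))) (.g (nat_lit 0) (.e (nat_lit 198155) (nat_lit 0) .nil) .nil))))) (.nd (nat_lit 8) (.nd (nat_lit 9) 
(.lf (nat_lit 511109) (.g (nat_lit 2269) (.e (nat_lit 172124) (nat_lit 14) (.e (nat_lit 491569) (nat_lit 13) (.e (nat_lit 393271) (nat_lit 23) (.e (nat_lit 426444) (nat_lit 19) (.e (nat_lit 114432) (nat_lit 4) .nil))))) (.g (nat_lit 1) (.e (nat_lit 196249) (nat_lit 0) .nil) .nil))) 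
(.lf (nat_lit 511621) (.g (nat_lit 2135) (.e (nat_lit 172133) (nat_lit 15) (.e (nat_lit 2059) (nat_lit 142) (.e (nat_lit 704589) (nat_lit 3) (.e (nat_lit 163979) (nat_lit 30) .nil)))) (.g (nat_lit 0) (.e (nat_lit 197952) (nat_lit 0) .nil) .nil)))) (.nd (nat_lit 9) 
(.lf (nat_lit 511365) (.g (nat_lit 2743) (.e (nat_lit 172126) (nat_lit 14) (.e (nat_lit 491547) (nat_lit 9) (.e (nat_lit 336443) (nat_lit 32) (.e (nat_lit 466969) (nat_lit 21) (.e (nat_lit 164347) (nat_lit 240) (.e (nat_lit 2629) (nat_lit 164) .nil)))))) (.g (nat_lit 1) (.e (nat_lit 196994) (nat_lit 0) .nil) .nil))) 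
(.lf (nat_lit 511877) (.g (nat_lit 1942) (.e (nat_lit 172150) (nat_lit 27) (.e (nat_lit 336231) (nat_lit 14) (.e (nat_lit 401434) (nat_lit 9) (.e (nat_lit 426550) (nat_lit 31) (.e (nat_lit 376576) (nat_lit 4) .nil))))) (.g (nat_lit 1) (.e (nat_lit 198534) (nat_lit 0) .nil) .nil)))))) (.nd (nat_lit 7) (.nd (nat_lit 8) (.nd (nat_lit 9) 
(.lf (nat_lit 511045) (.g (nat_lit 3648) (.e (nat_lit 172124) (nat_lit 14) (.e (nat_lit 491549) (nat_lit 9) (.e (nat_lit 336443) (nat_lit 32) (.e (nat_lit 466969) (nat_lit 21) (.e (nat_lit 164347) (nat_lit 240) (.e (nat_lit 2619) (nat_lit 164) .nil)))))) (.g (nat_lit 1) (.e (nat_lit 196149) (nat_lit 0) .nil) .nil))) 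
(.lf (nat_lit 511557) (.g (nat_lit 2599) (.e (nat_lit 172128) (nat_lit 15) (.e (nat_lit 7936) (nat_lit 347) (.e (nat_lit 65637) (nat_lit 15) (.e (nat_lit 3632) (nat_lit 227) (.e (nat_lit 778323) (nat_lit 5) (.e (nat_lit 81664) (nat_lit 36) .nil)))))) (.g (nat_lit 1) (.e (nat_lit 197834) (nat_lit 0) .nil) .nil)))) (.nd (nat_lit 9) 
(.lf (nat_lit 511301) (.g (nat_lit 3147) (.e (nat_lit 172126) (nat_lit 14) (.e (nat_lit 491540) (nat_lit 3) (.e (nat_lit 98373) (nat_lit 29) (.e (nat_lit 450560) (nat_lit 0) (.e (nat_lit 3988) (nat_lit 239) (.e (nat_lit 2625) (nat_lit 164) .nil)))))) (.g (nat_lit 1) (.e (nat_lit 196911) (nat_lit 0) .nil) .nil))) 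
(.lf (nat_lit 511813) (.g (nat_lit 1730) (.e (nat_lit 172149) (nat_lit 27) (.e (nat_lit 336235) (nat_lit 14) (.e (nat_lit 401438) (nat_lit 9) (.e (nat_lit 426533) (nat_lit 28) (.e (nat_lit 352000) (nat_lit 4) .nil))))) (.g (nat_lit 1) (.e (nat_lit 198355) (nat_lit 0) .nil) .nil))))) (.nd (nat_lit 8) (.nd (nat_lit 9) 
(.lf (nat_lit 511173) (.g (nat_lit 997) (.e (nat_lit 172125) (nat_lit 14) (.e (nat_lit 491566) (nat_lit 12) (.e (nat_lit 385104) (nat_lit 50) .nil))) (.g (nat_lit 0) (.e (nat_lit 196643) (nat_lit 0) .nil) .nil))) 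
(.lf (nat_lit 511685) (.g (nat_lit 1908) (.e (nat_lit 179968) (nat_lit 18) (.e (nat_lit 98335) (nat_lit 18) (.e (nat_lit 164330) (nat_lit 230) (.e (nat_lit 163841) (nat_lit 0) .nil)))) (.g (nat_lit 0) (.e (nat_lit 198071) (nat_lit 0) .nil) .nil)))) (.nd (nat_lit 9) 
(.lf (nat_lit 511429) (.g (nat_lit 1641) (.e (nat_lit 172126) (nat_lit 14) (.e (nat_lit 491550) (nat_lit 9) (.e (nat_lit 336369) (nat_lit 27) (.e (nat_lit 426212) (nat_lit 9) .nil)))) (.g (nat_lit 0) (.e (nat_lit 197135) (nat_lit 0) .nil) .nil))) 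
(.lf (nat_lit 511941) (.g (nat_lit 1240) (.e (nat_lit 172150) (nat_lit 27) (.e (nat_lit 336387) (nat_lit 27) (.e (nat_lit 426199) (nat_lit 9) (.e (nat_lit 426131) (nat_lit 3) (.e (nat_lit 204829) (nat_lit 18) .nil))))) (.g (nat_lit 0) (.e (nat_lit 198644) (nat_lit 0) .nil) .nil))))))) (.nd (nat_lit 6) (.nd (nat_lit 7) (.nd (nat_lit 8) (.nd (nat_lit 9) 
(.lf (nat_lit 511013) (.g (nat_lit 3289) (.e (nat_lit 172124) (nat_lit 14) (.e (nat_lit 491549) (nat_lit 9) (.e (nat_lit 336430) (nat_lit 29) (.e (nat_lit 442421) (nat_lit 21) (.e (nat_lit 164345) (nat_lit 240) (.e (nat_lit 2619) (nat_lit 164) .nil)))))) (.g (nat_lit 1) (.e (nat_lit 196113) (nat_lit 0) .nil) .nil))) 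
(.lf (nat_lit 511525) (.g (nat_lit 3610) (.e (nat_lit 172126) (nat_lit 14) (.e (nat_lit 491569) (nat_lit 13) (.e (nat_lit 393294) (nat_lit 26) (.e (nat_lit 475198) (nat_lit 40) (.e (nat_lit 704592) (nat_lit 4) .nil))))) (.g (nat_lit 1) (.e (nat_lit 197362) (nat_lit 0) .nil) .nil)))) (.nd (nat_lit 9) 
(.lf (nat_lit 511269) (.g (nat_lit 2488) (.e (nat_lit 172126) (nat_lit 14) (.e (nat_lit 491540) (nat_lit 3) (.e (nat_lit 98365) (nat_lit 26) (.e (nat_lit 426341) (nat_lit 14) (.e (nat_lit 491536) (nat_lit 2) (.e (nat_lit 90167) (nat_lit 13) .nil)))))) (.g (nat_lit 1) (.e (nat_lit 196863) (nat_lit 0) .nil) .nil))) 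
(.lf (nat_lit 511781) (.g (nat_lit 1192) (.e (nat_lit 172147) (nat_lit 27) (.e (nat_lit 336078) (nat_lit 9) (.e (nat_lit 336019) (nat_lit 3) (.e (nat_lit 106240) (nat_lit 10) .nil)))) (.g (nat_lit 0) (.e (nat_lit 198257) (nat_lit 0) .nil) .nil))))) (.nd (nat_lit 8) (.nd (nat_lit 9) 
(.lf (nat_lit 511141) (.g (nat_lit 2784) (.e (nat_lit 172124) (nat_lit 14) (.e (nat_lit 491570) (nat_lit 13) (.e (nat_lit 393284) (nat_lit 24) (.e (nat_lit 434272) (nat_lit 38) (.e (nat_lit 655376) (nat_lit 4) .nil))))) (.g (nat_lit 1) (.e (nat_lit 196367) (nat_lit 0) .nil) .nil))) 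
(.lf (nat_lit 511653) (.g (nat_lit 2300) (.e (nat_lit 172138) (nat_lit 15) (.e (nat_lit 1800) (nat_lit 119) (.e (nat_lit 516179) (nat_lit 15) (.e (nat_lit 475177) (nat_lit 24) (.e (nat_lit 516148) (nat_lit 9) .nil))))) (.g (nat_lit 0) (.e (nat_lit 198013) (nat_lit 0) .nil) .nil)))) (.nd (nat_lit 9) 
(.lf (nat_lit 511397) (.g (nat_lit 2877) (.e (nat_lit 172126) (nat_lit 14) (.e (nat_lit 491549) (nat_lit 9) (.e (nat_lit 336430) (nat_lit 29) (.e (nat_lit 442421) (nat_lit 21) (.e (nat_lit 164346) (nat_lit 240) (.e (nat_lit 2618) (nat_lit 164) .nil)))))) (.g (nat_lit 1) (.e (nat_lit 197089) (nat_lit 0) .nil) .nil))) 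
(.lf (nat_lit 511909) (.g (nat_lit 2000) (.e (nat_lit 172150) (nat_lit 27) (.e (nat_lit 336231) (nat_lit 14) (.e (nat_lit 401456) (nat_lit 13) (.e (nat_lit 483350) (nat_lit 17) (.e (nat_lit 7936) (nat_lit 361) .nil))))) (.g (nat_lit 0) (.e (nat_lit 198584) (nat_lit 0) .nil) .nil)))))) (.nd (nat_lit 7) (.nd (nat_lit 8) (.nd (nat_lit 9) 
(.lf (nat_lit 511077) (.g (nat_lit 821) (.e (nat_lit 172124) (nat_lit 14) (.e (nat_lit 491550) (nat_lit 9) (.e (nat_lit 336432) (nat_lit 30) (.e (nat_lit 458496) (nat_lit 0) .nil)))) (.g (nat_lit 0) (.e (nat_lit 196188) (nat_lit 0) .nil) .nil))) 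
(.lf (nat_lit 511589) (.g (nat_lit 3650) (.e (nat_lit 172133) (nat_lit 15) (.e (nat_lit 1846) (nat_lit 124) (.e (nat_lit 557108) (nat_lit 15) (.e (nat_lit 188452) (nat_lit 23) (.e (nat_lit 204815) (nat_lit 17) .nil))))) (.g (nat_lit 0) (.e (nat_lit 197899) (nat_lit 0) .nil) .nil)))) (.nd (nat_lit 9) 
(.lf (nat_lit 511333) (.g (nat_lit 3689) (.e (nat_lit 172126) (nat_lit 14) (.e (nat_lit 491540) (nat_lit 3) (.e (nat_lit 98373) (nat_lit 29) (.e (nat_lit 450564) (nat_lit 0) (.e (nat_lit 3944) (nat_lit 239) (.e (nat_lit 2625) (nat_lit 164) .nil)))))) (.g (nat_lit 1) (.e (nat_lit 196952) (nat_lit 0) .nil) .nil))) 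
(.lf (nat_lit 511845) (.g (nat_lit 2714) (.e (nat_lit 172150) (nat_lit 27) (.e (nat_lit 336201) (nat_lit 12) (.e (nat_lit 385105) (nat_lit 50) (.e (nat_lit 786473) (nat_lit 27) (.e (nat_lit 335872) (nat_lit 0) .nil))))) (.g (nat_lit 0) (.e (nat_lit 198485) (nat_lit 0) .nil) .nil))))) (.nd (nat_lit 8) (.nd (nat_lit 9) 
(.lf (nat_lit 511205) (.g (nat_lit 1822) (.e (nat_lit 172126) (nat_lit 14) (.e (nat_lit 491537) (nat_lit 2) (.e (nat_lit 90170) (nat_lit 13) (.e (nat_lit 172084) (nat_lit 8) .nil)))) (.g (nat_lit 0) (.e (nat_lit 196787) (nat_lit 0) .nil) .nil))) 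
(.lf (nat_lit 511717) (.g (nat_lit 1452) (.e (nat_lit 179968) (nat_lit 20) (.e (nat_lit 114722) (nat_lit 24) (.e (nat_lit 106536) (nat_lit 11) (.e (nat_lit 16428) (nat_lit 8) (.e (nat_lit 417815) (nat_lit 10) .nil))))) (.g (nat_lit 0) (.e (nat_lit 198110) (nat_lit 0) .nil) .nil)))) (.nd (nat_lit 9) 
(.lf (nat_lit 511461) (.g (nat_lit 478) (.e (nat_lit 172126) (nat_lit 14) (.e (nat_lit 491550) (nat_lit 9) (.e (nat_lit 336443) (nat_lit 32) .nil))) (.g (nat_lit 0) (.e (nat_lit 197191) (nat_lit 0) .nil) .nil))) 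
(.lf (nat_lit 511973) (.g (nat_lit 2208) (.e (nat_lit 179968) (nat_lit 27) (.e (nat_lit 336235) (nat_lit 14) (.e (nat_lit 401459) (nat_lit 13) (.e (nat_lit 483347) (nat_lit 17) .nil)))) (.g (nat_lit 0) (.e (nat_lit 198713) (nat_lit 0) .nil) .nil)))))))) (.nd (nat_lit 5) (.nd (nat_lit 6) (.nd (nat_lit 7) (.nd (nat_lit 8) (.nd (nat_lit 9) 
(.lf (nat_lit 510997) (.g (nat_lit 1548) (.e (nat_lit 172124) (nat_lit 14) (.e (nat_lit 491549) (nat_lit 9) (.e (nat_lit 336428) (nat_lit 29) (.e (nat_lit 442373) (nat_lit 0) .nil)))) (.g (nat_lit 0) (.e (nat_lit 196090) (nat_lit 0) .nil) .nil))) 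
(.lf (nat_lit 511509) (.g (nat_lit 1924) (.e (nat_lit 172126) (nat_lit 14) (.e (nat_lit 491568) (nat_lit 13) (.e (nat_lit 393294) (nat_lit 26) (.e (nat_lit 475197) (nat_lit 40) .nil)))) (.g (nat_lit 0) (.e (nat_lit 197297) (nat_lit 0) .nil) .nil)))) (.nd (nat_lit 9) 
(.lf (nat_lit 511253) (.g (nat_lit 2579) (.e (nat_lit 172126) (nat_lit 14) (.e (nat_lit 491539) (nat_lit 3) (.e (nat_lit 98365) (nat_lit 26) (.e (nat_lit 426306) (nat_lit 12) (.e (nat_lit 475183) (nat_lit 29) (.e (nat_lit 557096) (nat_lit 13) .nil)))))) (.g (nat_lit 1) (.e (nat_lit 196840) (nat_lit 0) .nil) .nil))) 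
(.lf (nat_lit 511765) (.g (nat_lit 1320) (.e (nat_lit 172145) (nat_lit 27) (.e (nat_lit 336226) (nat_lit 14) (.e (nat_lit 401459) (nat_lit 13) (.e (nat_lit 483343) (nat_lit 17) .nil)))) (.g (nat_lit 0) (.e (nat_lit 198227) (nat_lit 0) .nil) .nil))))) (.nd (nat_lit 8) (.nd (nat_lit 9) 
(.lf (nat_lit 511125) (.g (nat_lit 1767) (.e (nat_lit 172124) (nat_lit 14) (.e (nat_lit 491569) (nat_lit 13) (.e (nat_lit 393294) (nat_lit 26) (.e (nat_lit 475196) (nat_lit 40) .nil)))) (.g (nat_lit 0) (.e (nat_lit 196291) (nat_lit 0) .nil) .nil))) 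
(.lf (nat_lit 511637) (.g (nat_lit 1071) (.e (nat_lit 172133) (nat_lit 15) (.e (nat_lit 2175) (nat_lit 143) (.e (nat_lit 712755) (nat_lit 30) (.e (nat_lit 450563) (nat_lit 0) .nil)))) (.g (nat_lit 0) (.e (nat_lit 197985) (nat_lit 0) .nil) .nil)))) (.nd (nat_lit 9) 
(.lf (nat_lit 511381) (.g (nat_lit 3135) (.e (nat_lit 172126) (nat_lit 14) (.e (nat_lit 491549) (nat_lit 9) (.e (nat_lit 336426) (nat_lit 29) (.e (nat_lit 442421) (nat_lit 21) (.e (nat_lit 164347) (nat_lit 240) (.e (nat_lit 2628) (nat_lit 164) .nil)))))) (.g (nat_lit 1) (.e (nat_lit 197063) (nat_lit 0) .nil) .nil))) 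
(.lf (nat_lit 511893) (.g (nat_lit 1445) (.e (nat_lit 172150) (nat_lit 27) (.e (nat_lit 336231) (nat_lit 14) (.e (nat_lit 401444) (nat_lit 9) (.e (nat_lit 426532) (nat_lit 28) (.e (nat_lit 352000) (nat_lit 4) .nil))))) (.g (nat_lit 1) (.e (nat_lit 198560) (nat_lit 0) .nil) .nil)))))) (.nd (nat_lit 7) (.nd (nat_lit 8) (.nd (nat_lit 9) 
(.lf (nat_lit 511061) (.g (nat_lit 2929) (.e (nat_lit 172124) (nat_lit 14) (.e (nat_lit 491550) (nat_lit 9) (.e (nat_lit 336430) (nat_lit 29) (.e (nat_lit 442419) (nat_lit 21) (.e (nat_lit 164345) (nat_lit 240) (.e (nat_lit 2618) (nat_lit 164) .nil)))))) (.g (nat_lit 1) (.e (nat_lit 196172) (nat_lit 0) .nil) .nil))) 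
(.lf (nat_lit 511573) (.g (nat_lit 2344) (.e (nat_lit 172133) (nat_lit 15) (.e (nat_lit 1800) (nat_lit 119) (.e (nat_lit 516115) (nat_lit 1) (.e (nat_lit 164325) (nat_lit 230) (.e (nat_lit 163875) (nat_lit 3) .nil))))) (.g (nat_lit 0) (.e (nat_lit 197867) (nat_lit 0) .nil) .nil)))) (.nd (nat_lit 9) 
(.lf (nat_lit 511317) (.g (nat_lit 3856) (.e (nat_lit 172126) (nat_lit 14) (.e (nat_lit 491540) (nat_lit 3) (.e (nat_lit 98373) (nat_lit 29) (.e (nat_lit 450562) (nat_lit 0) (.e (nat_lit 3967) (nat_lit 239) (.e (nat_lit 2625) (nat_lit 164) .nil)))))) (.g (nat_lit 1) (.e (nat_lit 196932) (nat_lit 0) .nil) .nil))) 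
(.lf (nat_lit 511829) (.g (nat_lit 1748) (.e (nat_lit 172150) (nat_lit 27) (.e (nat_lit 335895) (nat_lit 0) (.e (nat_lit 6720) (nat_lit 361) (.e (nat_lit 172143) (nat_lit 25) (.e (nat_lit 319491) (nat_lit 0) (.e (nat_lit 5766) (nat_lit 316) .nil)))))) (.g (nat_lit 1) (.e (nat_lit 198455) (nat_lit 0) .nil) .nil))))) (.nd (nat_lit 8) (.nd (nat_lit 9) 
(.lf (nat_lit 511189) (.g (nat_lit 2735) (.e (nat_lit 172126) (nat_lit 14) (.e (nat_lit 491536) (nat_lit 2) (.e (nat_lit 90170) (nat_lit 13) (.e (nat_lit 172120) (nat_lit 12) (.e (nat_lit 475185) (nat_lit 29) .nil))))) (.g (nat_lit 0) (.e (nat_lit 196765) (nat_lit 0) .nil) .nil))) 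
(.lf (nat_lit 511701) (.g (nat_lit 762) (.e (nat_lit 179968) (nat_lit 18) (.e (nat_lit 98367) (nat_lit 27) (.e (nat_lit 434242) (nat_lit 28) .nil))) (.g (nat_lit 0) (.e (nat_lit 198092) (nat_lit 0) .nil) .nil)))) (.nd (nat_lit 9) 
(.lf (nat_lit 511445) (.g (nat_lit 2969) (.e (nat_lit 172126) (nat_lit 14) (.e (nat_lit 491550) (nat_lit 9) (.e (nat_lit 336430) (nat_lit 29) (.e (nat_lit 442421) (nat_lit 21) (.e (nat_lit 164345) (nat_lit 240) (.e (nat_lit 2617) (nat_lit 164) .nil)))))) (.g (nat_lit 1) (.e (nat_lit 197162) (nat_lit 0) .nil) .nil))) 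
(.lf (nat_lit 511957) (.g (nat_lit 2275) (.e (nat_lit 179968) (nat_lit 27) (.e (nat_lit 336194) (nat_lit 12) (.e (nat_lit 385106) (nat_lit 50) (.e (nat_lit 786473) (nat_lit 27) (.e (nat_lit 335872) (nat_lit 0) .nil))))) (.g (nat_lit 0) (.e (nat_lit 198694) (nat_lit 0) .nil) .nil))))))) (.nd (nat_lit 6) (.nd (nat_lit 7) (.nd (nat_lit 8) (.nd (nat_lit 9) 
(.lf (nat_lit 511029) (.g (nat_lit 2945) (.e (nat_lit 172124) (nat_lit 14) (.e (nat_lit 491549) (nat_lit 9) (.e (nat_lit 336432) (nat_lit 30) (.e (nat_lit 450569) (nat_lit 0) (.e (nat_lit 5448) (nat_lit 306) (.e (nat_lit 2630) (nat_lit 164) .nil)))))) (.g (nat_lit 1) (.e (nat_lit 196131) (nat_lit 0) .nil) .nil))) 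
(.lf (nat_lit 511541) (.g (nat_lit 1912) (.e (nat_lit 172126) (nat_lit 14) (.e (nat_lit 491570) (nat_lit 13) (.e (nat_lit 393290) (nat_lit 26) (.e (nat_lit 475198) (nat_lit 40) (.e (nat_lit 704592) (nat_lit 4) .nil))))) (.g (nat_lit 1) (.e (nat_lit 197463) (nat_lit 0) .nil) .nil)))) (.nd (nat_lit 9) 
(.lf (nat_lit 511285) (.g (nat_lit 2848) (.e (nat_lit 172126) (nat_lit 14) (.e (nat_lit 491540) (nat_lit 3) (.e (nat_lit 98373) (nat_lit 29) (.e (nat_lit 450560) (nat_lit 0) (.e (nat_lit 3936) (nat_lit 239) (.e (nat_lit 2625) (nat_lit 164) .nil)))))) (.g (nat_lit 1) (.e (nat_lit 196892) (nat_lit 0) .nil) .nil))) 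
(.lf (nat_lit 511797) (.g (nat_lit 970) (.e (nat_lit 172149) (nat_lit 27) (.e (nat_lit 335876) (nat_lit 0) (.e (nat_lit 6719) (nat_lit 361) (.e (nat_lit 172143) (nat_lit 25) (.e (nat_lit 319490) (nat_lit 0) (.e (nat_lit 5771) (nat_lit 316) .nil)))))) (.g (nat_lit 1) (.e (nat_lit 198322) (nat_lit 0) .nil) .nil))))) (.nd (nat_lit 8) (.nd (nat_lit 9) 
(.lf (nat_lit 511157) (.g (nat_lit 1248) (.e (nat_lit 172125) (nat_lit 14) (.e (nat_lit 491536) (nat_lit 2) (.e (nat_lit 90178) (nat_lit 15) (.e (nat_lit 188441) (nat_lit 20) .nil)))) (.g (nat_lit 0) (.e (nat_lit 196621) (nat_lit 0) .nil) .nil))) 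
(.lf (nat_lit 511669) (.g (nat_lit 804) (.e (nat_lit 179968) (nat_lit 15) (.e (nat_lit 1849) (nat_lit 124) (.e (nat_lit 557098) (nat_lit 13) (.e (nat_lit 172115) (nat_lit 10) .nil)))) (.g (nat_lit 0) (.e (nat_lit 198037) (nat_lit 0) .nil) .nil)))) (.nd (nat_lit 9) 
(.lf (nat_lit 511413) (.g (nat_lit 3567) (.e (nat_lit 172126) (nat_lit 14) (.e (nat_lit 491549) (nat_lit 9) (.e (nat_lit 336434) (nat_lit 30) (.e (nat_lit 450564) (nat_lit 0) (.e (nat_lit 5548) (nat_lit 306) (.e (nat_lit 2617) (nat_lit 164) .nil)))))) (.g (nat_lit 1) (.e (nat_lit 197113) (nat_lit 0) .nil) .nil))) 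
(.lf (nat_lit 511925) (.g (nat_lit 1149) (.e (nat_lit 172150) (nat_lit 27) (.e (nat_lit 336232) (nat_lit 14) (.e (nat_lit 401444) (nat_lit 9) (.e (nat_lit 433920) (nat_lit 15) .nil)))) (.g (nat_lit 0) (.e (nat_lit 198616) (nat_lit 0) .nil) .nil)))))) (.nd (nat_lit 7) (.nd (nat_lit 8) (.nd (nat_lit 9) 
(.lf (nat_lit 511093) (.g (nat_lit 1464) (.e (nat_lit 172124) (nat_lit 14) (.e (nat_lit 491566) (nat_lit 12) (.e (nat_lit 385107) (nat_lit 51) (.e (nat_lit 794684) (nat_lit 25) .nil)))) (.g (nat_lit 0) (.e (nat_lit 196221) (nat_lit 0) .nil) .nil))) 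
(.lf (nat_lit 511605) (.g (nat_lit 2781) (.e (nat_lit 172133) (nat_lit 15) (.e (nat_lit 2059) (nat_lit 142) (.e (nat_lit 704589) (nat_lit 3) (.e (nat_lit 163975) (nat_lit 30) (.e (nat_lit 573491) (nat_lit 15) .nil))))) (.g (nat_lit 0) (.e (nat_lit 197924) (nat_lit 0) .nil) .nil)))) (.nd (nat_lit 9) 
(.lf (nat_lit 511349) (.g (nat_lit 3640) (.e (nat_lit 172126) (nat_lit 14) (.e (nat_lit 491540) (nat_lit 3) (.e (nat_lit 98373) (nat_lit 29) (.e (nat_lit 450583) (nat_lit 7) (.e (nat_lit 556800) (nat_lit 18) .nil))))) (.g (nat_lit 1) (.e (nat_lit 196969) (nat_lit 0) .nil) .nil))) 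
(.lf (nat_lit 511861) (.g (nat_lit 1411) (.e (nat_lit 172150) (nat_lit 27) (.e (nat_lit 336230) (nat_lit 14) (.e (nat_lit 401435) (nat_lit 9) (.e (nat_lit 426533) (nat_lit 28) (.e (nat_lit 352000) (nat_lit 4) .nil))))) (.g (nat_lit 0) (.e (nat_lit 198509) (nat_lit 0) .nil) .nil))))) (.nd (nat_lit 8) (.nd (nat_lit 9) 
(.lf (nat_lit 511221) (.g (nat_lit 3067) (.e (nat_lit 172126) (nat_lit 14) (.e (nat_lit 491537) (nat_lit 2) (.e (nat_lit 90170) (nat_lit 13) (.e (nat_lit 172113) (nat_lit 10) (.e (nat_lit 434203) (nat_lit 18) (.e (nat_lit 3970) (nat_lit 239) (.e (nat_lit 2625) (nat_lit 164) .nil))))))) (.g (nat_lit 1) (.e (nat_lit 196803) (nat_lit 0) .nil) .nil))) 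
(.lf (nat_lit 511733) (.g (nat_lit 2196) (.e (nat_lit 172143) (nat_lit 25) (.e (nat_lit 319490) (nat_lit 0) (.e (nat_lit 5664) (nat_lit 312) (.e (nat_lit 3085) (nat_lit 191) (.e (nat_lit 483349) (nat_lit 17) .nil))))) (.g (nat_lit 0) (.e (nat_lit 198131) (nat_lit 0) .nil) .nil)))) (.nd (nat_lit 9) 
(.lf (nat_lit 511477) (.g (nat_lit 811) (.e (nat_lit 172126) (nat_lit 14) (.e (nat_lit 491566) (nat_lit 12) (.e (nat_lit 385114) (nat_lit 53) .nil))) (.g (nat_lit 0) (.e (nat_lit 197253) (nat_lit 0) .nil) .nil))) 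
(.lf (nat_lit 511989) (.g (nat_lit 1442) (.e (nat_lit 179968) (nat_lit 28) (.e (nat_lit 344069) (nat_lit 0) (.e (nat_lit 2856) (nat_lit 184) (.e (nat_lit 426550) (nat_lit 31) (.e (nat_lit 376576) (nat_lit 4) .nil))))) (.g (nat_lit 0) (.e (nat_lit 198732) (nat_lit 0) .nil) .nil))))))))) (.nd (nat_lit 4) (.nd (nat_lit 5) (.nd (nat_lit 6) (.nd (nat_lit 7) (.nd (nat_lit 8) (.nd (nat_lit 9) 
(.lf (nat_lit 510989) (.g (nat_lit 2383) (.e (nat_lit 172124) (nat_lit 14) (.e (nat_lit 491548) (nat_lit 9) (.e (nat_lit 336434) (nat_lit 30) (.e (nat_lit 450593) (nat_lit 16) (.e (nat_lit 655378) (nat_lit 4) .nil))))) (.g (nat_lit 1) (.e (nat_lit 196067) (nat_lit 0) .nil) .nil))) 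
(.lf (nat_lit 511501) (.g (nat_lit 2148) (.e (nat_lit 172126) (nat_lit 14) (.e (nat_lit 491568) (nat_lit 13) (.e (nat_lit 393283) (nat_lit 24) (.e (nat_lit 434202) (nat_lit 18) (.e (nat_lit 5537) (nat_lit 306) .nil))))) (.g (nat_lit 0) (.e (nat_lit 197284) (nat_lit 0) .nil) .nil)))) (.nd (nat_lit 9) 
(.lf (nat_lit 511245) (.g (nat_lit 1635) (.e (nat_lit 172126) (nat_lit 14) (.e (nat_lit 491537) (nat_lit 2) (.e (nat_lit 90176) (nat_lit 15) (.e (nat_lit 188435) (nat_lit 20) .nil)))) (.g (nat_lit 0) (.e (nat_lit 196829) (nat_lit 0) .nil) .nil))) 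
(.lf (nat_lit 511757) (.g (nat_lit 2965) (.e (nat_lit 172144) (nat_lit 26) (.e (nat_lit 327700) (nat_lit 8) (.e (nat_lit 303145) (nat_lit 13) (.e (nat_lit 483344) (nat_lit 17) (.e (nat_lit 6720) (nat_lit 361) .nil))))) (.g (nat_lit 1) (.e (nat_lit 198211) (nat_lit 0) .nil) .nil))))) (.nd (nat_lit 8) (.nd (nat_lit 9) 
(.lf (nat_lit 511117) (.g (nat_lit 2111) (.e (nat_lit 172124) (nat_lit 14) (.e (nat_lit 491569) (nat_lit 13) (.e (nat_lit 393283) (nat_lit 24) (.e (nat_lit 434271) (nat_lit 38) (.e (nat_lit 655376) (nat_lit 4) .nil))))) (.g (nat_lit 1) (.e (nat_lit 196282) (nat_lit 0) .nil) .nil))) 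
(.lf (nat_lit 511629) (.g (nat_lit 7066) (.e (nat_lit 172133) (nat_lit 15) (.e (nat_lit 2059) (nat_lit 142) (.e (nat_lit 704589) (nat_lit 3) (.e (nat_lit 163979) (nat_lit 30) (.e (nat_lit 573493) (nat_lit 15) (.e (nat_lit 81953) (nat_lit 22) (.e (nat_lit 90166) (nat_lit 13) .nil))))))) (.g (nat_lit 1) (.e (nat_lit 197972) (nat_lit 0) .nil) .nil)))) (.nd (nat_lit 9) 
(.lf (nat_lit 511373) (.g (nat_lit 2520) (.e (nat_lit 172126) (nat_lit 14) (.e (nat_lit 491549) (nat_lit 9) (.e (nat_lit 336379) (nat_lit 27) (.e (nat_lit 426318) (nat_lit 12) (.e (nat_lit 475199) (nat_lit 40) (.e (nat_lit 704592) (nat_lit 4) .nil)))))) (.g (nat_lit 1) (.e (nat_lit 197039) (nat_lit 0) .nil) .nil))) 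
(.lf (nat_lit 511885) (.g (nat_lit 200) (.e (nat_lit 172150) (nat_lit 27) (.e (nat_lit 336231) (nat_lit 14) (.e (nat_lit 401440) (nat_lit 9) .nil))) (.g (nat_lit 0) (.e (nat_lit 198543) (nat_lit 0) .nil) .nil)))))) (.nd (nat_lit 7) (.nd (nat_lit 8) (.nd (nat_lit 9) 
(.lf (nat_lit 511053) (.g (nat_lit 357) (.e (nat_lit 172124) (nat_lit 14) (.e (nat_lit 491550) (nat_lit 9) (.e (nat_lit 336369) (nat_lit 27) .nil))) (.g (nat_lit 0) (.e (nat_lit 196157) (nat_lit 0) .nil) .nil))) 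
(.lf (nat_lit 511565) (.g (nat_lit 1770) (.e (nat_lit 172132) (nat_lit 15) (.e (nat_lit 1853) (nat_lit 124) (.e (nat_lit 557097) (nat_lit 13) (.e (nat_lit 172115) (nat_lit 10) (.e (nat_lit 434231) (nat_lit 23) .nil))))) (.g (nat_lit 0) (.e (nat_lit 197859) (nat_lit 0) .nil) .nil)))) (.nd (nat_lit 9) 
(.lf (nat_lit 511309) (.g (nat_lit 3347) (.e (nat_lit 172126) (nat_lit 14) (.e (nat_lit 491540) (nat_lit 3) (.e (nat_lit 98373) (nat_lit 29) (.e (nat_lit 450560) (nat_lit 0) (.e (nat_lit 3968) (nat_lit 239) (.e (nat_lit 2625) (nat_lit 164) .nil)))))) (.g (nat_lit 1) (.e (nat_lit 196921) (nat_lit 0) .nil) .nil))) 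
(.lf (nat_lit 511821) (.g (nat_lit 2048) (.e (nat_lit 172150) (nat_lit 27) (.e (nat_lit 335894) (nat_lit 0) (.e (nat_lit 6722) (nat_lit 362) (.e (nat_lit 180225) (nat_lit 0) (.e (nat_lit 6416) (nat_lit 341) (.e (nat_lit 163843) (nat_lit 0) (.e (nat_lit 7936) (nat_lit 392) .nil))))))) (.g (nat_lit 1) (.e (nat_lit 198427) (nat_lit 0) .nil) .nil))))) (.nd (nat_lit 8) (.nd (nat_lit 9) 
(.lf (nat_lit 511181) (.g (nat_lit 3264) (.e (nat_lit 172125) (nat_lit 14) (.e (nat_lit 491568) (nat_lit 13) (.e (nat_lit 393283) (nat_lit 24) (.e (nat_lit 434271) (nat_lit 38) (.e (nat_lit 655378) (nat_lit 4) .nil))))) (.g (nat_lit 1) (.e (nat_lit 196653) (nat_lit 0) .nil) .nil))) 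
(.lf (nat_lit 511693) (.g (nat_lit 1150) (.e (nat_lit 179968) (nat_lit 18) (.e (nat_lit 98335) (nat_lit 18) (.e (nat_lit 164345) (nat_lit 240) (.e (nat_lit 2601) (nat_lit 163) .nil)))) (.g (nat_lit 0) (.e (nat_lit 198084) (nat_lit 0) .nil) .nil)))) (.nd (nat_lit 9) 
(.lf (nat_lit 511437) (.g (nat_lit 2824) (.e (nat_lit 172126) (nat_lit 14) (.e (nat_lit 491550) (nat_lit 9) (.e (nat_lit 336395) (nat_lit 27) (.e (nat_lit 426305) (nat_lit 12) (.e (nat_lit 475199) (nat_lit 40) (.e (nat_lit 704592) (nat_lit 4) .nil)))))) (.g (nat_lit 1) (.e (nat_lit 197146) (nat_lit 0) .nil) .nil))) 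
(.lf (nat_lit 511949) (.g (nat_lit 3195) (.e (nat_lit 172150) (nat_lit 27) (.e (nat_lit 336387) (nat_lit 27) (.e (nat_lit 426316) (nat_lit 12) (.e (nat_lit 475185) (nat_lit 29) (.e (nat_lit 557089) (nat_lit 12) (.e (nat_lit 164031) (nat_lit 53) (.e (nat_lit 761901) (nat_lit 16) .nil))))))) (.g (nat_lit 1) (.e (nat_lit 198683) (nat_lit 0) .nil) .nil))))))) 
(.nd (nat_lit 6) (.nd (nat_lit 7) (.nd (nat_lit 8) (.nd (nat_lit 9) 
(.lf (nat_lit 511021) (.g (nat_lit 3458) (.e (nat_lit 172124) (nat_lit 14) (.e (nat_lit 491549) (nat_lit 9) (.e (nat_lit 336430) (nat_lit 29) (.e (nat_lit 442429) (nat_lit 24) (.e (nat_lit 229663) (nat_lit 240) (.e (nat_lit 2622) (nat_lit 164) .nil)))))) (.g (nat_lit 1) (.e (nat_lit 196121) (nat_lit 0) .nil) .nil))) 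
(.lf (nat_lit 511533) (.g (nat_lit 2126) (.e (nat_lit 172126) (nat_lit 14) (.e (nat_lit 491570) (nat_lit 13) (.e (nat_lit 393271) (nat_lit 23) (.e (nat_lit 426442) (nat_lit 19) (.e (nat_lit 114432) (nat_lit 4) .nil))))) (.g (nat_lit 1) (.e (nat_lit 197402) (nat_lit 0) .nil) .nil)))) (.nd (nat_lit 9) 
(.lf (nat_lit 511277) (.g (nat_lit 1479) (.e (nat_lit 172126) (nat_lit 14) (.e (nat_lit 491540) (nat_lit 3) (.e (nat_lit 98372) (nat_lit 29) (.e (nat_lit 450569) (nat_lit 0) (.e (nat_lit 3966) (nat_lit 239) .nil))))) (.g (nat_lit 0) (.e (nat_lit 196881) (nat_lit 0) .nil) .nil))) 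
(.lf (nat_lit 511789) (.g (nat_lit 713) (.e (nat_lit 172147) (nat_lit 27) (.e (nat_lit 336231) (nat_lit 14) (.e (nat_lit 401456) (nat_lit 13) .nil))) (.g (nat_lit 0) (.e (nat_lit 198269) (nat_lit 0) .nil) .nil))))) (.nd (nat_lit 8) (.nd (nat_lit 9) 
(.lf (nat_lit 511149) (.g (nat_lit 610) (.e (nat_lit 172124) (nat_lit 14) (.e (nat_lit 491571) (nat_lit 13) (.e (nat_lit 401152) (nat_lit 23) .nil))) (.g (nat_lit 0) (.e (nat_lit 196540) (nat_lit 0) .nil) .nil))) 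
(.lf (nat_lit 511661) (.g (nat_lit 5838) (.e (nat_lit 172138) (nat_lit 15) (.e (nat_lit 2059) (nat_lit 142) (.e (nat_lit 704589) (nat_lit 3) (.e (nat_lit 163975) (nat_lit 30) (.e (nat_lit 573492) (nat_lit 15) (.e (nat_lit 81953) (nat_lit 22) (.e (nat_lit 90166) (nat_lit 13) .nil))))))) (.g (nat_lit 1) (.e (nat_lit 198024) (nat_lit 0) .nil) .nil)))) (.nd (nat_lit 9) 
(.lf (nat_lit 511405) (.g (nat_lit 3620) (.e (nat_lit 172126) (nat_lit 14) (.e (nat_lit 491549) (nat_lit 9) (.e (nat_lit 336432) (nat_lit 30) (.e (nat_lit 450565) (nat_lit 0) (.e (nat_lit 5548) (nat_lit 306) (.e (nat_lit 2619) (nat_lit 164) .nil)))))) (.g (nat_lit 1) (.e (nat_lit 197104) (nat_lit 0) .nil) .nil))) 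
(.lf (nat_lit 511917) (.g (nat_lit 2102) (.e (nat_lit 172150) (nat_lit 27) (.e (nat_lit 336232) (nat_lit 14) (.e (nat_lit 401435) (nat_lit 9) (.e (nat_lit 426533) (nat_lit 28) (.e (nat_lit 352000) (nat_lit 4) .nil))))) (.g (nat_lit 1) (.e (nat_lit 198597) (nat_lit 0) .nil) .nil)))))) (.nd (nat_lit 7) (.nd (nat_lit 8) (.nd (nat_lit 9) 
(.lf (nat_lit 511085) (.g (nat_lit 656) (.e (nat_lit 172124) (nat_lit 14) (.e (nat_lit 491550) (nat_lit 9) (.e (nat_lit 336434) (nat_lit 30) (.e (nat_lit 458496) (nat_lit 0) .nil)))) (.g (nat_lit 0) (.e (nat_lit 196196) (nat_lit 0) .nil) .nil))) 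
(.lf (nat_lit 511597) (.g (nat_lit 2081) (.e (nat_lit 172133) (nat_lit 15) (.e (nat_lit 1856) (nat_lit 124) (.e (nat_lit 557107) (nat_lit 15) (.e (nat_lit 188452) (nat_lit 23) (.e (nat_lit 204815) (nat_lit 17) .nil))))) (.g (nat_lit 0) (.e (nat_lit 197911) (nat_lit 0) .nil) .nil)))) (.nd (nat_lit 9) 
(.lf (nat_lit 511341) (.g (nat_lit 3607) (.e (nat_lit 172126) (nat_lit 14) (.e (nat_lit 491540) (nat_lit 3) (.e (nat_lit 98373) (nat_lit 29) (.e (nat_lit 450568) (nat_lit 0) (.e (nat_lit 3978) (nat_lit 239) (.e (nat_lit 2625) (nat_lit 164) .nil)))))) (.g (nat_lit 1) (.e (nat_lit 196961) (nat_lit 0) .nil) .nil))) 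
(.lf (nat_lit 511853) (.g (nat_lit 2102) (.e (nat_lit 172150) (nat_lit 27) (.e (nat_lit 336229) (nat_lit 14) (.e (nat_lit 401438) (nat_lit 9) (.e (nat_lit 426533) (nat_lit 28) (.e (nat_lit 352000) (nat_lit 4) .nil))))) (.g (nat_lit 1) (.e (nat_lit 198498) (nat_lit 0) .nil) .nil))))) (.nd (nat_lit 8) (.nd (nat_lit 9) 
(.lf (nat_lit 511213) (.g (nat_lit 3797) (.e (nat_lit 172126) (nat_lit 14) (.e (nat_lit 491537) (nat_lit 2) (.e (nat_lit 90170) (nat_lit 13) (.e (nat_lit 172106) (nat_lit 10) (.e (nat_lit 434209) (nat_lit 18) (.e (nat_lit 3969) (nat_lit 239) (.e (nat_lit 2626) (nat_lit 164) .nil))))))) (.g (nat_lit 1) (.e (nat_lit 196795) (nat_lit 0) .nil) .nil))) 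
(.lf (nat_lit 511725) (.g (nat_lit 2765) (.e (nat_lit 172143) (nat_lit 25) (.e (nat_lit 319490) (nat_lit 0) (.e (nat_lit 5664) (nat_lit 312) (.e (nat_lit 2887) (nat_lit 184) (.e (nat_lit 426499) (nat_lit 27) .nil))))) (.g (nat_lit 0) (.e (nat_lit 198123) (nat_lit 0) .nil) .nil)))) (.nd (nat_lit 9) 
(.lf (nat_lit 511469) (.g (nat_lit 2208) (.e (nat_lit 172126) (nat_lit 14) (.e (nat_lit 491565) (nat_lit 12) (.e (nat_lit 385109) (nat_lit 51) (.e (nat_lit 794683) (nat_lit 25) .nil)))) (.g (nat_lit 0) (.e (nat_lit 197204) (nat_lit 0) .nil) .nil))) 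
(.lf (nat_lit 511981) (.g (nat_lit 1303) (.e (nat_lit 179968) (nat_lit 28) (.e (nat_lit 344068) (nat_lit 0) (.e (nat_lit 2857) (nat_lit 184) (.e (nat_lit 426533) (nat_lit 28) (.e (nat_lit 352000) (nat_lit 4) .nil))))) (.g (nat_lit 0) (.e (nat_lit 198723) (nat_lit 0) .nil) .nil)))))))) (.nd (nat_lit 5) (.nd (nat_lit 6) (.nd (nat_lit 7) (.nd (nat_lit 8) (.nd (nat_lit 9) 
(.lf (nat_lit 511005) (.g (nat_lit 1019) (.e (nat_lit 172124) (nat_lit 14) (.e (nat_lit 491549) (nat_lit 9) (.e (nat_lit 336430) (nat_lit 29) (.e (nat_lit 442419) (nat_lit 21) .nil)))) (.g (nat_lit 0) (.e (nat_lit 196105) (nat_lit 0) .nil) .nil))) 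
(.lf (nat_lit 511517) (.g (nat_lit 1263) (.e (nat_lit 172126) (nat_lit 14) (.e (nat_lit 491569) (nat_lit 13) (.e (nat_lit 393280) (nat_lit 23) (.e (nat_lit 426024) (nat_lit 0) .nil)))) (.g (nat_lit 0) (.e (nat_lit 197327) (nat_lit 0) .nil) .nil)))) (.nd (nat_lit 9) 
(.lf (nat_lit 511261) (.g (nat_lit 2572) (.e (nat_lit 172126) (nat_lit 14) (.e (nat_lit 491540) (nat_lit 3) (.e (nat_lit 98359) (nat_lit 26) (.e (nat_lit 426338) (nat_lit 14) (.e (nat_lit 491536) (nat_lit 2) (.e (nat_lit 90170) (nat_lit 13) .nil)))))) (.g (nat_lit 1) (.e (nat_lit 196853) (nat_lit 0) .nil) .nil))) 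
(.lf (nat_lit 511773) (.g (nat_lit 1993) (.e (nat_lit 172146) (nat_lit 27) (.e (nat_lit 336226) (nat_lit 14) (.e (nat_lit 401459) (nat_lit 13) (.e (nat_lit 483344) (nat_lit 17) (.e (nat_lit 6718) (nat_lit 361) .nil))))) (.g (nat_lit 0) (.e (nat_lit 198238) (nat_lit 0) .nil) .nil))))) (.nd (nat_lit 8) (.nd (nat_lit 9) 
(.lf (nat_lit 511133) (.g (nat_lit 2022) (.e (nat_lit 172124) (nat_lit 14) (.e (nat_lit 491570) (nat_lit 13) (.e (nat_lit 393276) (nat_lit 23) (.e (nat_lit 426025) (nat_lit 0) (.e (nat_lit 3399) (nat_lit 211) (.e (nat_lit 647183) (nat_lit 4) .nil)))))) (.g (nat_lit 1) (.e (nat_lit 196328) (nat_lit 0) .nil) .nil))) 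
(.lf (nat_lit 511645) (.g (nat_lit 2879) (.e (nat_lit 172136) (nat_lit 15) (.e (nat_lit 1800) (nat_lit 119) (.e (nat_lit 516120) (nat_lit 1) (.e (nat_lit 164330) (nat_lit 230) (.e (nat_lit 163840) (nat_lit 0) .nil))))) (.g (nat_lit 0) (.e (nat_lit 197994) (nat_lit 0) .nil) .nil)))) (.nd (nat_lit 9) 
(.lf (nat_lit 511389) (.g (nat_lit 2375) (.e (nat_lit 172126) (nat_lit 14) (.e (nat_lit 491549) (nat_lit 9) (.e (nat_lit 336430) (nat_lit 29) (.e (nat_lit 442402) (nat_lit 20) (.e (nat_lit 3408) (nat_lit 212) (.e (nat_lit 655376) (nat_lit 4) .nil)))))) (.g (nat_lit 1) (.e (nat_lit 197080) (nat_lit 0) .nil) .nil))) 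
(.lf (nat_lit 511901) (.g (nat_lit 2659) (.e (nat_lit 172150) (nat_lit 27) (.e (nat_lit 336231) (nat_lit 14) (.e (nat_lit 401448) (nat_lit 10) (.e (nat_lit 434202) (nat_lit 18) (.e (nat_lit 6420) (nat_lit 341) (.e (nat_lit 163843) (nat_lit 0) (.e (nat_lit 7936) (nat_lit 392) .nil))))))) (.g (nat_lit 1) (.e (nat_lit 198568) (nat_lit 0) .nil) .nil)))))) 
(.nd (nat_lit 7) (.nd (nat_lit 8) (.nd (nat_lit 9) 
(.lf (nat_lit 511069) (.g (nat_lit 4052) (.e (nat_lit 172124) (nat_lit 14) (.e (nat_lit 491550) (nat_lit 9) (.e (nat_lit 336430) (nat_lit 29) (.e (nat_lit 442430) (nat_lit 24) (.e (nat_lit 229663) (nat_lit 240) (.e (nat_lit 2622) (nat_lit 164) .nil)))))) (.g (nat_lit 1) (.e (nat_lit 196180) (nat_lit 0) .nil) .nil))) 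
(.lf (nat_lit 511581) (.g (nat_lit 1270) (.e (nat_lit 172133) (nat_lit 15) (.e (nat_lit 1800) (nat_lit 119) (.e (nat_lit 516120) (nat_lit 1) (.e (nat_lit 164304) (nat_lit 226) .nil)))) (.g (nat_lit 0) (.e (nat_lit 197879) (nat_lit 0) .nil) .nil)))) (.nd (nat_lit 9) 
(.lf (nat_lit 511325) (.g (nat_lit 3770) (.e (nat_lit 172126) (nat_lit 14) (.e (nat_lit 491540) (nat_lit 3) (.e (nat_lit 98373) (nat_lit 29) (.e (nat_lit 450563) (nat_lit 0) (.e (nat_lit 3953) (nat_lit 239) .nil))))) (.g (nat_lit 0) (.e (nat_lit 196943) (nat_lit 0) .nil) .nil))) 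
(.lf (nat_lit 511837) (.g (nat_lit 3325) (.e (nat_lit 172150) (nat_lit 27) (.e (nat_lit 336091) (nat_lit 9) (.e (nat_lit 336295) (nat_lit 15) (.e (nat_lit 3632) (nat_lit 227) (.e (nat_lit 778323) (nat_lit 5) (.e (nat_lit 81664) (nat_lit 36) .nil)))))) (.g (nat_lit 1) (.e (nat_lit 198469) (nat_lit 0) .nil) .nil))))) (.nd (nat_lit 8) (.nd (nat_lit 9) 
(.lf (nat_lit 511197) (.g (nat_lit 1679) (.e (nat_lit 172126) (nat_lit 14) (.e (nat_lit 491537) (nat_lit 2) (.e (nat_lit 90170) (nat_lit 13) (.e (nat_lit 172032) (nat_lit 0) .nil)))) (.g (nat_lit 0) (.e (nat_lit 196779) (nat_lit 0) .nil) .nil))) 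
(.lf (nat_lit 511709) (.g (nat_lit 2207) (.e (nat_lit 179968) (nat_lit 18) (.e (nat_lit 98367) (nat_lit 27) (.e (nat_lit 434246) (nat_lit 28) (.e (nat_lit 573487) (nat_lit 14) (.e (nat_lit 73757) (nat_lit 11) .nil))))) (.g (nat_lit 0) (.e (nat_lit 198100) (nat_lit 0) .nil) .nil)))) (.nd (nat_lit 9) 
(.lf (nat_lit 511453) (.g (nat_lit 2436) (.e (nat_lit 172126) (nat_lit 14) (.e (nat_lit 491550) (nat_lit 9) (.e (nat_lit 336432) (nat_lit 30) (.e (nat_lit 450593) (nat_lit 16) (.e (nat_lit 655376) (nat_lit 4) .nil))))) (.g (nat_lit 1) (.e (nat_lit 197179) (nat_lit 0) .nil) .nil))) 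
(.lf (nat_lit 511965) (.g (nat_lit 1113) (.e (nat_lit 179968) (nat_lit 27) (.e (nat_lit 336228) (nat_lit 14) (.e (nat_lit 401438) (nat_lit 9) (.e (nat_lit 426533) (nat_lit 28) (.e (nat_lit 352000) (nat_lit 4) .nil))))) (.g (nat_lit 0) (.e (nat_lit 198703) (nat_lit 0) .nil) .nil))))))) (.nd (nat_lit 6) (.nd (nat_lit 7) (.nd (nat_lit 8) (.nd (nat_lit 9) 
(.lf (nat_lit 511037) (.g (nat_lit 1443) (.e (nat_lit 172124) (nat_lit 14) (.e (nat_lit 491549) (nat_lit 9) (.e (nat_lit 336434) (nat_lit 30) (.e (nat_lit 450566) (nat_lit 0) .nil)))) (.g (nat_lit 0) (.e (nat_lit 196140) (nat_lit 0) .nil) .nil))) 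
(.lf (nat_lit 511549) (.g (nat_lit 2454) (.e (nat_lit 172126) (nat_lit 14) (.e (nat_lit 491571) (nat_lit 13) (.e (nat_lit 393268) (nat_lit 23) (.e (nat_lit 426440) (nat_lit 19) (.e (nat_lit 114432) (nat_lit 4) .nil))))) (.g (nat_lit 1) (.e (nat_lit 197631) (nat_lit 0) .nil) .nil)))) (.nd (nat_lit 9) 
(.lf (nat_lit 511293) (.g (nat_lit 3349) (.e (nat_lit 172126) (nat_lit 14) (.e (nat_lit 491540) (nat_lit 3) (.e (nat_lit 98373) (nat_lit 29) (.e (nat_lit 450560) (nat_lit 0) (.e (nat_lit 3947) (nat_lit 239) (.e (nat_lit 2626) (nat_lit 164) .nil)))))) (.g (nat_lit 1) (.e (nat_lit 196903) (nat_lit 0) .nil) .nil))) 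
(.lf (nat_lit 511805) (.g (nat_lit 3364) (.e (nat_lit 172149) (nat_lit 27) (.e (nat_lit 336051) (nat_lit 6) (.e (nat_lit 147495) (nat_lit 11) (.e (nat_lit 24608) (nat_lit 3) (.e (nat_lit 98333) (nat_lit 18) .nil))))) (.g (nat_lit 0) (.e (nat_lit 198345) (nat_lit 0) .nil) .nil))))) (.nd (nat_lit 8) (.nd (nat_lit 9) 
(.lf (nat_lit 511165) (.g (nat_lit 670) (.e (nat_lit 172125) (nat_lit 14) (.e (nat_lit 491547) (nat_lit 9) (.e (nat_lit 336430) (nat_lit 29) .nil))) (.g (nat_lit 0) (.e (nat_lit 196629) (nat_lit 0) .nil) .nil))) 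
(.lf (nat_lit 511677) (.g (nat_lit 501) (.e (nat_lit 179968) (nat_lit 15) (.e (nat_lit 1856) (nat_lit 124) (.e (nat_lit 557101) (nat_lit 13) .nil))) (.g (nat_lit 0) (.e (nat_lit 198045) (nat_lit 0) .nil) .nil)))) (.nd (nat_lit 9) 
(.lf (nat_lit 511421) (.g (nat_lit 1805) (.e (nat_lit 172126) (nat_lit 14) (.e (nat_lit 491549) (nat_lit 9) (.e (nat_lit 336443) (nat_lit 32) (.e (nat_lit 466956) (nat_lit 20) .nil)))) (.g (nat_lit 0) (.e (nat_lit 197124) (nat_lit 0) .nil) .nil))) 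
(.lf (nat_lit 511933) (.g (nat_lit 2134) (.e (nat_lit 172150) (nat_lit 27) (.e (nat_lit 336232) (nat_lit 14) (.e (nat_lit 401456) (nat_lit 13) (.e (nat_lit 483355) (nat_lit 17) .nil)))) (.g (nat_lit 0) (.e (nat_lit 198635) (nat_lit 0) .nil) .nil)))))) (.nd (nat_lit 7) (.nd (nat_lit 8) (.nd (nat_lit 9) 
(.lf (nat_lit 511101) (.g (nat_lit 1273) (.e (nat_lit 172124) (nat_lit 14) (.e (nat_lit 491568) (nat_lit 13) (.e (nat_lit 393279) (nat_lit 23) (.e (nat_lit 426110) (nat_lit 1) .nil)))) (.g (nat_lit 0) (.e (nat_lit 196235) (nat_lit 0) .nil) .nil))) 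
(.lf (nat_lit 511613) (.g (nat_lit 2183) (.e (nat_lit 172133) (nat_lit 15) (.e (nat_lit 2059) (nat_lit 142) (.e (nat_lit 704589) (nat_lit 3) (.e (nat_lit 163976) (nat_lit 30) .nil)))) (.g (nat_lit 0) (.e (nat_lit 197934) (nat_lit 0) .nil) .nil)))) (.nd (nat_lit 9) 
(.lf (nat_lit 511357) (.g (nat_lit 1122) (.e (nat_lit 172126) (nat_lit 14) (.e (nat_lit 491547) (nat_lit 9) (.e (nat_lit 336430) (nat_lit 29) (.e (nat_lit 442421) (nat_lit 21) .nil)))) (.g (nat_lit 0) (.e (nat_lit 196985) (nat_lit 0) .nil) .nil))) 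
(.lf (nat_lit 511869) (.g (nat_lit 954) (.e (nat_lit 172150) (nat_lit 27) (.e (nat_lit 336230) (nat_lit 14) (.e (nat_lit 401444) (nat_lit 9) (.e (nat_lit 426549) (nat_lit 31) .nil)))) (.g (nat_lit 0) (.e (nat_lit 198518) (nat_lit 0) .nil) .nil))))) (.nd (nat_lit 8) (.nd (nat_lit 9) 
(.lf (nat_lit 511229) (.g (nat_lit 1774) (.e (nat_lit 172126) (nat_lit 14) (.e (nat_lit 491537) (nat_lit 2) (.e (nat_lit 90170) (nat_lit 13) (.e (nat_lit 172113) (nat_lit 10) (.e (nat_lit 434237) (nat_lit 25) .nil))))) (.g (nat_lit 0) (.e (nat_lit 196812) (nat_lit 0) .nil) .nil))) 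
(.lf (nat_lit 511741) (.g (nat_lit 816) (.e (nat_lit 172143) (nat_lit 25) (.e (nat_lit 319491) (nat_lit 0) (.e (nat_lit 5664) (nat_lit 312) (.e (nat_lit 3078) (nat_lit 191) .nil)))) (.g (nat_lit 0) (.e (nat_lit 198139) (nat_lit 0) .nil) .nil)))) (.nd (nat_lit 9) 
(.lf (nat_lit 511485) (.g (nat_lit 1514) (.e (nat_lit 172126) (nat_lit 14) (.e (nat_lit 491568) (nat_lit 13) (.e (nat_lit 393280) (nat_lit 23) (.e (nat_lit 426107) (nat_lit 1) .nil)))) (.g (nat_lit 0) (.e (nat_lit 197267) (nat_lit 0) .nil) .nil))) 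
(.lf (nat_lit 511997) (.g (nat_lit 1837) (.e (nat_lit 179968) (nat_lit 29) (.e (nat_lit 352267) (nat_lit 0) (.e (nat_lit 3632) (nat_lit 227) (.e (nat_lit 778323) (nat_lit 5) (.e (nat_lit 81664) (nat_lit 36) .nil))))) (.g (nat_lit 0) (.e (nat_lit 198740) (nat_lit 0) .nil) .nil))))))))))) 
(.nd (nat_lit 2) (.nd (nat_lit 3) (.nd (nat_lit 4) (.nd (nat_lit 5) (.nd (nat_lit 6) 
(.nd (nat_lit 7) (.nd (nat_lit 8) (.nd (nat_lit 9) 
(.lf (nat_lit 510979) (.g (nat_lit 2724) (.e (nat_lit 172124) (nat_lit 14) (.e (nat_lit 491540) (nat_lit 3) (.e (nat_lit 98373) (nat_lit 29) (.e (nat_lit 450567) (nat_lit 0) (.e (nat_lit 3966) (nat_lit 239) .nil))))) (.g (nat_lit 0) (.e (nat_lit 196040) (nat_lit 0) .nil) .nil))) 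
(.lf (nat_lit 511491) (.g (nat_lit 1433) (.e (nat_lit 172126) (nat_lit 14) (.e (nat_lit 491568) (nat_lit 13) (.e (nat_lit 393281) (nat_lit 23) (.e (nat_lit 426100) (nat_lit 1) .nil)))) (.g (nat_lit 0) (.e (nat_lit 197273) (nat_lit 0) .nil) .nil)))) (.nd (nat_lit 9) 
(.lf (nat_lit 511235) (.g (nat_lit 2852) (.e (nat_lit 172126) (nat_lit 14) (.e (nat_lit 491537) (nat_lit 2) (.e (nat_lit 90170) (nat_lit 13) (.e (nat_lit 172120) (nat_lit 12) (.e (nat_lit 475159) (nat_lit 21) .nil))))) (.g (nat_lit 0) (.e (nat_lit 196818) (nat_lit 0) .nil) .nil))) 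
(.lf (nat_lit 511747) (.g (nat_lit 1872) (.e (nat_lit 172143) (nat_lit 25) (.e (nat_lit 319493) (nat_lit 0) (.e (nat_lit 5771) (nat_lit 316) (.e (nat_lit 172150) (nat_lit 27) (.e (nat_lit 335894) (nat_lit 0) (.e (nat_lit 6720) (nat_lit 361) .nil)))))) (.g (nat_lit 1) (.e (nat_lit 198145) (nat_lit 0) .nil) .nil))))) (.nd (nat_lit 8) (.nd (nat_lit 9) 
(.lf (nat_lit 511107) (.g (nat_lit 3162) (.e (nat_lit 172124) (nat_lit 14) (.e (nat_lit 491569) (nat_lit 13) (.e (nat_lit 393266) (nat_lit 23) (.e (nat_lit 426109) (nat_lit 1) (.e (nat_lit 164347) (nat_lit 240) (.e (nat_lit 2619) (nat_lit 164) .nil)))))) (.g (nat_lit 1) (.e (nat_lit 196245) (nat_lit 0) .nil) .nil))) 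
(.lf (nat_lit 511619) (.g (nat_lit 1818) (.e (nat_lit 172133) (nat_lit 15) (.e (nat_lit 2059) (nat_lit 142) (.e (nat_lit 704589) (nat_lit 3) (.e (nat_lit 163978) (nat_lit 30) .nil)))) (.g (nat_lit 0) (.e (nat_lit 197944) (nat_lit 0) .nil) .nil)))) (.nd (nat_lit 9) 
(.lf (nat_lit 511363) (.g (nat_lit 1053) (.e (nat_lit 172126) (nat_lit 14) (.e (nat_lit 491547) (nat_lit 9) (.e (nat_lit 336443) (nat_lit 32) (.e (nat_lit 466969) (nat_lit 21) .nil)))) (.g (nat_lit 0) (.e (nat_lit 196992) (nat_lit 0) .nil) .nil))) 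
(.lf (nat_lit 511875) (.g (nat_lit 2600) (.e (nat_lit 172150) (nat_lit 27) (.e (nat_lit 336231) (nat_lit 14) (.e (nat_lit 401434) (nat_lit 9) (.e (nat_lit 426470) (nat_lit 25) (.e (nat_lit 319490) (nat_lit 0) (.e (nat_lit 5771) (nat_lit 316) .nil)))))) (.g (nat_lit 1) (.e (nat_lit 198528) (nat_lit 0) .nil) .nil)))))) (.nd (nat_lit 7) (.nd (nat_lit 8) (.nd (nat_lit 9) 
(.lf (nat_lit 511043) (.g (nat_lit 1978) (.e (nat_lit 172124) (nat_lit 14) (.e (nat_lit 491549) (nat_lit 9) (.e (nat_lit 336443) (nat_lit 32) (.e (nat_lit 466968) (nat_lit 21) .nil)))) (.g (nat_lit 0) (.e (nat_lit 196147) (nat_lit 0) .nil) .nil))) 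
(.lf (nat_lit 511555) (.g (nat_lit 3880) (.e (nat_lit 172126) (nat_lit 14) (.e (nat_lit 491571) (nat_lit 13) (.e (nat_lit 393291) (nat_lit 26) (.e (nat_lit 475199) (nat_lit 40) (.e (nat_lit 704592) (nat_lit 4) .nil))))) (.g (nat_lit 1) (.e (nat_lit 197727) (nat_lit 0) .nil) .nil)))) (.nd (nat_lit 9) 
(.lf (nat_lit 511299) (.g (nat_lit 3026) (.e (nat_lit 172126) (nat_lit 14) (.e (nat_lit 491540) (nat_lit 3) (.e (nat_lit 98373) (nat_lit 29) (.e (nat_lit 450560) (nat_lit 0) (.e (nat_lit 3987) (nat_lit 239) (.e (nat_lit 2628) (nat_lit 164) .nil)))))) (.g (nat_lit 1) (.e (nat_lit 196909) (nat_lit 0) .nil) .nil))) 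
(.lf (nat_lit 511811) (.g (nat_lit 2252) (.e (nat_lit 172149) (nat_lit 27) (.e (nat_lit 336235) (nat_lit 14) (.e (nat_lit 401437) (nat_lit 9) (.e (nat_lit 426530) (nat_lit 27) (.e (nat_lit 335872) (nat_lit 0) .nil))))) (.g (nat_lit 0) (.e (nat_lit 198352) (nat_lit 0) .nil) .nil))))) (.nd (nat_lit 8) (.nd (nat_lit 9) 
(.lf (nat_lit 511171) (.g (nat_lit 1309) (.e (nat_lit 172125) (nat_lit 14) (.e (nat_lit 491550) (nat_lit 9) (.e (nat_lit 336430) (nat_lit 29) (.e (nat_lit 442412) (nat_lit 20) .nil)))) (.g (nat_lit 0) (.e (nat_lit 196635) (nat_lit 0) .nil) .nil))) 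
(.lf (nat_lit 511683) (.g (nat_lit 481) (.e (nat_lit 179968) (nat_lit 18) (.e (nat_lit 98335) (nat_lit 18) (.e (nat_lit 164330) (nat_lit 230) .nil))) (.g (nat_lit 0) (.e (nat_lit 198069) (nat_lit 0) .nil) .nil)))) (.nd (nat_lit 9) 
(.lf (nat_lit 511427) (.g (nat_lit 3341) (.e (nat_lit 172126) (nat_lit 14) (.e (nat_lit 491549) (nat_lit 9) (.e (nat_lit 336443) (nat_lit 32) (.e (nat_lit 466971) (nat_lit 21) (.e (nat_lit 164347) (nat_lit 240) (.e (nat_lit 2617) (nat_lit 164) .nil)))))) (.g (nat_lit 1) (.e (nat_lit 197131) (nat_lit 0) .nil) .nil))) 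
(.lf (nat_lit 511939) (.g (nat_lit 3628) (.e (nat_lit 172150) (nat_lit 27) (.e (nat_lit 336387) (nat_lit 27) (.e (nat_lit 426188) (nat_lit 9) (.e (nat_lit 426436) (nat_lit 18) (.e (nat_lit 98335) (nat_lit 18) (.e (nat_lit 164305) (nat_lit 226) (.e (nat_lit 2622) (nat_lit 164) .nil))))))) (.g (nat_lit 1) (.e (nat_lit 198642) (nat_lit 0) .nil) .nil))))))) 
(.nd (nat_lit 6) (.nd (nat_lit 7) (.nd (nat_lit 8) (.nd (nat_lit 9) 
(.lf (nat_lit 511011) (.g (nat_lit 3734) (.e (nat_lit 172124) (nat_lit 14) (.e (nat_lit 491549) (nat_lit 9) (.e (nat_lit 336430) (nat_lit 29) (.e (nat_lit 442419) (nat_lit 21) (.e (nat_lit 164348) (nat_lit 240) (.e (nat_lit 2628) (nat_lit 164) .nil)))))) (.g (nat_lit 1) (.e (nat_lit 196111) (nat_lit 0) .nil) .nil))) 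
(.lf (nat_lit 511523) (.g (nat_lit 2792) (.e (nat_lit 172126) (nat_lit 14) (.e (nat_lit 491569) (nat_lit 13) (.e (nat_lit 393294) (nat_lit 26) (.e (nat_lit 475196) (nat_lit 40) (.e (nat_lit 704592) (nat_lit 4) .nil))))) (.g (nat_lit 1) (.e (nat_lit 197360) (nat_lit 0) .nil) .nil)))) (.nd (nat_lit 9) 
(.lf (nat_lit 511267) (.g (nat_lit 3203) (.e (nat_lit 172126) (nat_lit 14) (.e (nat_lit 491540) (nat_lit 3) (.e (nat_lit 98365) (nat_lit 26) (.e (nat_lit 426315) (nat_lit 12) (.e (nat_lit 475184) (nat_lit 29) (.e (nat_lit 557096) (nat_lit 13) .nil)))))) (.g (nat_lit 1) (.e (nat_lit 196860) (nat_lit 0) .nil) .nil))) 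
(.lf (nat_lit 511779) (.g (nat_lit 1195) (.e (nat_lit 172147) (nat_lit 27) (.e (nat_lit 335895) (nat_lit 0) (.e (nat_lit 6712) (nat_lit 360) (.e (nat_lit 163976) (nat_lit 30) .nil)))) (.g (nat_lit 0) (.e (nat_lit 198247) (nat_lit 0) .nil) .nil))))) (.nd (nat_lit 8) (.nd (nat_lit 9) 
(.lf (nat_lit 511139) (.g (nat_lit 2742) (.e (nat_lit 172124) (nat_lit 14) (.e (nat_lit 491570) (nat_lit 13) (.e (nat_lit 393283) (nat_lit 24) (.e (nat_lit 434272) (nat_lit 38) (.e (nat_lit 655376) (nat_lit 4) .nil))))) (.g (nat_lit 1) (.e (nat_lit 196359) (nat_lit 0) .nil) .nil))) 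
(.lf (nat_lit 511651) (.g (nat_lit 3009) (.e (nat_lit 172138) (nat_lit 15) (.e (nat_lit 1800) (nat_lit 119) (.e (nat_lit 516115) (nat_lit 1) (.e (nat_lit 164325) (nat_lit 230) (.e (nat_lit 163841) (nat_lit 0) .nil))))) (.g (nat_lit 0) (.e (nat_lit 198009) (nat_lit 0) .nil) .nil)))) (.nd (nat_lit 9) 
(.lf (nat_lit 511395) (.g (nat_lit 3384) (.e (nat_lit 172126) (nat_lit 14) (.e (nat_lit 491549) (nat_lit 9) (.e (nat_lit 336430) (nat_lit 29) (.e (nat_lit 442419) (nat_lit 21) (.e (nat_lit 164348) (nat_lit 240) (.e (nat_lit 2617) (nat_lit 164) .nil)))))) (.g (nat_lit 1) (.e (nat_lit 197087) (nat_lit 0) .nil) .nil))) 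
(.lf (nat_lit 511907) (.g (nat_lit 3279) (.e (nat_lit 172150) (nat_lit 27) (.e (nat_lit 336231) (nat_lit 14) (.e (nat_lit 401456) (nat_lit 13) (.e (nat_lit 483346) (nat_lit 17) (.e (nat_lit 6720) (nat_lit 361) .nil))))) (.g (nat_lit 1) (.e (nat_lit 198582) (nat_lit 0) .nil) .nil)))))) (.nd (nat_lit 7) (.nd (nat_lit 8) (.nd (nat_lit 9) 
(.lf (nat_lit 511075) (.g (nat_lit 2322) (.e (nat_lit 172124) (nat_lit 14) (.e (nat_lit 491550) (nat_lit 9) (.e (nat_lit 336432) (nat_lit 30) (.e (nat_lit 450569) (nat_lit 0) (.e (nat_lit 5448) (nat_lit 306) (.e (nat_lit 2622) (nat_lit 164) .nil)))))) (.g (nat_lit 1) (.e (nat_lit 196186) (nat_lit 0) .nil) .nil))) 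
(.lf (nat_lit 511587) (.g (nat_lit 2234) (.e (nat_lit 172133) (nat_lit 15) (.e (nat_lit 1800) (nat_lit 119) (.e (nat_lit 516149) (nat_lit 9) (.e (nat_lit 426323) (nat_lit 13) (.e (nat_lit 483363) (nat_lit 18) (.e (nat_lit 57657) (nat_lit 152) (.e (nat_lit 2622) (nat_lit 164) .nil))))))) (.g (nat_lit 1) (.e (nat_lit 197896) (nat_lit 0) .nil) .nil)))) (.nd (nat_lit 9) 
(.lf (nat_lit 511331) (.g (nat_lit 3994) (.e (nat_lit 172126) (nat_lit 14) (.e (nat_lit 491540) (nat_lit 3) (.e (nat_lit 98373) (nat_lit 29) (.e (nat_lit 450563) (nat_lit 0) (.e (nat_lit 3968) (nat_lit 239) (.e (nat_lit 2626) (nat_lit 164) .nil)))))) (.g (nat_lit 1) (.e (nat_lit 196949) (nat_lit 0) .nil) .nil))) 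
(.lf (nat_lit 511843) (.g (nat_lit 2600) (.e (nat_lit 172150) (nat_lit 27) (.e (nat_lit 336196) (nat_lit 12) (.e (nat_lit 385105) (nat_lit 50) (.e (nat_lit 786473) (nat_lit 27) (.e (nat_lit 335874) (nat_lit 0) .nil))))) (.g (nat_lit 0) (.e (nat_lit 198481) (nat_lit 0) .nil) .nil))))) (.nd (nat_lit 8) (.nd (nat_lit 9) 
(.lf (nat_lit 511203) (.g (nat_lit 1679) (.e (nat_lit 172126) (nat_lit 14) (.e (nat_lit 491537) (nat_lit 2) (.e (nat_lit 90170) (nat_lit 13) (.e (nat_lit 172082) (nat_lit 7) (.e (nat_lit 409629) (nat_lit 12) .nil))))) (.g (nat_lit 0) (.e (nat_lit 196785) (nat_lit 0) .nil) .nil))) 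
(.lf (nat_lit 511715) (.g (nat_lit 1020) (.e (nat_lit 179968) (nat_lit 18) (.e (nat_lit 98386) (nat_lit 32) (.e (nat_lit 475177) (nat_lit 24) (.e (nat_lit 516148) (nat_lit 9) .nil)))) (.g (nat_lit 0) (.e (nat_lit 198108) (nat_lit 0) .nil) .nil)))) (.nd (nat_lit 9) 
(.lf (nat_lit 511459) (.g (nat_lit 2772) (.e (nat_lit 172126) (nat_lit 14) (.e (nat_lit 491550) (nat_lit 9) (.e (nat_lit 336434) (nat_lit 30) (.e (nat_lit 450568) (nat_lit 0) (.e (nat_lit 5448) (nat_lit 306) (.e (nat_lit 2630) (nat_lit 164) .nil)))))) (.g (nat_lit 1) (.e (nat_lit 197188) (nat_lit 0) .nil) .nil))) 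
(.lf (nat_lit 511971) (.g (nat_lit 2873) (.e (nat_lit 179968) (nat_lit 27) (.e (nat_lit 336235) (nat_lit 14) (.e (nat_lit 401459) (nat_lit 13) (.e (nat_lit 483344) (nat_lit 17) (.e (nat_lit 6718) (nat_lit 361) .nil))))) (.g (nat_lit 0) (.e (nat_lit 198711) (nat_lit 0) .nil) .nil)))))))) (.nd (nat_lit 5) (.nd (nat_lit 6) (.nd (nat_lit 7) (.nd (nat_lit 8) (.nd (nat_lit 9) 
(.lf (nat_lit 510995) (.g (nat_lit 2584) (.e (nat_lit 172124) (nat_lit 14) (.e (nat_lit 491549) (nat_lit 9) (.e (nat_lit 336426) (nat_lit 29) (.e (nat_lit 442430) (nat_lit 24) (.e (nat_lit 229666) (nat_lit 240) (.e (nat_lit 2622) (nat_lit 164) .nil)))))) (.g (nat_lit 1) (.e (nat_lit 196086) (nat_lit 0) .nil) .nil))) 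
(.lf (nat_lit 511507) (.g (nat_lit 577) (.e (nat_lit 172126) (nat_lit 14) (.e (nat_lit 491568) (nat_lit 13) (.e (nat_lit 393290) (nat_lit 26) .nil))) (.g (nat_lit 0) (.e (nat_lit 197294) (nat_lit 0) .nil) .nil)))) (.nd (nat_lit 9) 
(.lf (nat_lit 511251) (.g (nat_lit 991) (.e (nat_lit 172126) (nat_lit 14) (.e (nat_lit 491537) (nat_lit 2) (.e (nat_lit 90185) (nat_lit 17) (.e (nat_lit 237625) (nat_lit 14) .nil)))) (.g (nat_lit 0) (.e (nat_lit 196838) (nat_lit 0) .nil) .nil))) 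
(.lf (nat_lit 511763) (.g (nat_lit 1252) (.e (nat_lit 172145) (nat_lit 27) (.e (nat_lit 336204) (nat_lit 12) (.e (nat_lit 385106) (nat_lit 50) (.e (nat_lit 786477) (nat_lit 28) .nil)))) (.g (nat_lit 0) (.e (nat_lit 198225) (nat_lit 0) .nil) .nil))))) (.nd (nat_lit 8) (.nd (nat_lit 9) 
(.lf (nat_lit 511123) (.g (nat_lit 703) (.e (nat_lit 172124) (nat_lit 14) (.e (nat_lit 491569) (nat_lit 13) (.e (nat_lit 393293) (nat_lit 26) .nil))) (.g (nat_lit 0) (.e (nat_lit 196288) (nat_lit 0) .nil) .nil))) 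
(.lf (nat_lit 511635) (.g (nat_lit 2985) (.e (nat_lit 172133) (nat_lit 15) (.e (nat_lit 2059) (nat_lit 142) (.e (nat_lit 704595) (nat_lit 5) (.e (nat_lit 188160) (nat_lit 37) (.e (nat_lit 73729) (nat_lit 0) (.e (nat_lit 6848) (nat_lit 371) (.e (nat_lit 2622) (nat_lit 164) .nil))))))) (.g (nat_lit 1) (.e (nat_lit 197982) (nat_lit 0) .nil) .nil)))) (.nd (nat_lit 9) 
(.lf (nat_lit 511379) (.g (nat_lit 1019) (.e (nat_lit 172126) (nat_lit 14) (.e (nat_lit 491549) (nat_lit 9) (.e (nat_lit 336426) (nat_lit 29) (.e (nat_lit 442419) (nat_lit 21) .nil)))) (.g (nat_lit 0) (.e (nat_lit 197061) (nat_lit 0) .nil) .nil))) 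
(.lf (nat_lit 511891) (.g (nat_lit 3097) (.e (nat_lit 172150) (nat_lit 27) (.e (nat_lit 336231) (nat_lit 14) (.e (nat_lit 401444) (nat_lit 9) (.e (nat_lit 426503) (nat_lit 27) (.e (nat_lit 335895) (nat_lit 0) (.e (nat_lit 6718) (nat_lit 361) .nil)))))) (.g (nat_lit 1) (.e (nat_lit 198555) (nat_lit 0) .nil) .nil)))))) (.nd (nat_lit 7) (.nd (nat_lit 8) (.nd (nat_lit 9) 
(.lf (nat_lit 511059) (.g (nat_lit 1288) (.e (nat_lit 172124) (nat_lit 14) (.e (nat_lit 491550) (nat_lit 9) (.e (nat_lit 336430) (nat_lit 29) (.e (nat_lit 442395) (nat_lit 20) (.e (nat_lit 3399) (nat_lit 211) .nil))))) (.g (nat_lit 0) (.e (nat_lit 196169) (nat_lit 0) .nil) .nil))) 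
(.lf (nat_lit 511571) (.g (nat_lit 2696) (.e (nat_lit 172133) (nat_lit 15) (.e (nat_lit 1800) (nat_lit 119) (.e (nat_lit 516115) (nat_lit 1) (.e (nat_lit 164325) (nat_lit 230) (.e (nat_lit 163845) (nat_lit 0) .nil))))) (.g (nat_lit 0) (.e (nat_lit 197865) (nat_lit 0) .nil) .nil)))) (.nd (nat_lit 9) 
(.lf (nat_lit 511315) (.g (nat_lit 3965) (.e (nat_lit 172126) (nat_lit 14) (.e (nat_lit 491540) (nat_lit 3) (.e (nat_lit 98373) (nat_lit 29) (.e (nat_lit 450562) (nat_lit 0) (.e (nat_lit 3966) (nat_lit 239) (.e (nat_lit 2625) (nat_lit 164) .nil)))))) (.g (nat_lit 1) (.e (nat_lit 196930) (nat_lit 0) .nil) .nil))) 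
(.lf (nat_lit 511827) (.g (nat_lit 1269) (.e (nat_lit 172150) (nat_lit 27) (.e (nat_lit 335894) (nat_lit 0) (.e (nat_lit 6724) (nat_lit 362) (.e (nat_lit 180226) (nat_lit 0) .nil)))) (.g (nat_lit 0) (.e (nat_lit 198443) (nat_lit 0) .nil) .nil))))) (.nd (nat_lit 8) (.nd (nat_lit 9) 
(.lf (nat_lit 511187) (.g (nat_lit 2720) (.e (nat_lit 172125) (nat_lit 14) (.e (nat_lit 491570) (nat_lit 13) (.e (nat_lit 393284) (nat_lit 24) (.e (nat_lit 434271) (nat_lit 38) (.e (nat_lit 655378) (nat_lit 4) .nil))))) (.g (nat_lit 1) (.e (nat_lit 196660) (nat_lit 0) .nil) .nil))) 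
(.lf (nat_lit 511699) (.g (nat_lit 1711) (.e (nat_lit 179968) (nat_lit 18) (.e (nat_lit 98367) (nat_lit 27) (.e (nat_lit 434231) (nat_lit 23) (.e (nat_lit 532514) (nat_lit 3) .nil)))) (.g (nat_lit 0) (.e (nat_lit 198090) (nat_lit 0) .nil) .nil)))) (.nd (nat_lit 9) 
(.lf (nat_lit 511443) (.g (nat_lit 2813) (.e (nat_lit 172126) (nat_lit 14) (.e (nat_lit 491550) (nat_lit 9) (.e (nat_lit 336430) (nat_lit 29) (.e (nat_lit 442419) (nat_lit 21) (.e (nat_lit 164346) (nat_lit 240) (.e (nat_lit 2618) (nat_lit 164) .nil)))))) (.g (nat_lit 1) (.e (nat_lit 197160) (nat_lit 0) .nil) .nil))) 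
(.lf (nat_lit 511955) (.g (nat_lit 1472) (.e (nat_lit 179968) (nat_lit 27) (.e (nat_lit 336051) (nat_lit 6) (.e (nat_lit 147496) (nat_lit 11) (.e (nat_lit 24603) (nat_lit 2) .nil)))) (.g (nat_lit 0) (.e (nat_lit 198692) (nat_lit 0) .nil) .nil))))))) (.nd (nat_lit 6) (.nd (nat_lit 7) (.nd (nat_lit 8) (.nd (nat_lit 9) 
(.lf (nat_lit 511027) (.g (nat_lit 2372) (.e (nat_lit 172124) (nat_lit 14) (.e (nat_lit 491549) (nat_lit 9) (.e (nat_lit 336432) (nat_lit 30) (.e (nat_lit 450565) (nat_lit 0) (.e (nat_lit 5546) (nat_lit 306) (.e (nat_lit 2618) (nat_lit 164) .nil)))))) (.g (nat_lit 1) (.e (nat_lit 196128) (nat_lit 0) .nil) .nil))) 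
(.lf (nat_lit 511539) (.g (nat_lit 1913) (.e (nat_lit 172126) (nat_lit 14) (.e (nat_lit 491570) (nat_lit 13) (.e (nat_lit 393284) (nat_lit 24) (.e (nat_lit 434271) (nat_lit 38) (.e (nat_lit 655376) (nat_lit 4) .nil))))) (.g (nat_lit 1) (.e (nat_lit 197456) (nat_lit 0) .nil) .nil)))) (.nd (nat_lit 9) 
(.lf (nat_lit 511283) (.g (nat_lit 2628) (.e (nat_lit 172126) (nat_lit 14) (.e (nat_lit 491540) (nat_lit 3) (.e (nat_lit 98373) (nat_lit 29) (.e (nat_lit 450560) (nat_lit 0) (.e (nat_lit 3929) (nat_lit 239) .nil))))) (.g (nat_lit 0) (.e (nat_lit 196889) (nat_lit 0) .nil) .nil))) 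
(.lf (nat_lit 511795) (.g (nat_lit 585) (.e (nat_lit 172147) (nat_lit 27) (.e (nat_lit 336232) (nat_lit 14) (.e (nat_lit 401456) (nat_lit 13) .nil))) (.g (nat_lit 0) (.e (nat_lit 198279) (nat_lit 0) .nil) .nil))))) (.nd (nat_lit 8) (.nd (nat_lit 9) 
(.lf (nat_lit 511155) (.g (nat_lit 1136) (.e (nat_lit 172125) (nat_lit 14) (.e (nat_lit 491536) (nat_lit 2) (.e (nat_lit 90172) (nat_lit 14) (.e (nat_lit 180285) (nat_lit 45) .nil)))) (.g (nat_lit 0) (.e (nat_lit 196619) (nat_lit 0) .nil) .nil))) 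
(.lf (nat_lit 511667) (.g (nat_lit 1590) (.e (nat_lit 179968) (nat_lit 15) (.e (nat_lit 1800) (nat_lit 119) (.e (nat_lit 516119) (nat_lit 1) (.e (nat_lit 164345) (nat_lit 240) (.e (nat_lit 2601) (nat_lit 163) .nil))))) (.g (nat_lit 0) (.e (nat_lit 198034) (nat_lit 0) .nil) .nil)))) (.nd (nat_lit 9) 
(.lf (nat_lit 511411) (.g (nat_lit 3250) (.e (nat_lit 172126) (nat_lit 14) (.e (nat_lit 491549) (nat_lit 9) (.e (nat_lit 336434) (nat_lit 30) (.e (nat_lit 450564) (nat_lit 0) (.e (nat_lit 5546) (nat_lit 306) (.e (nat_lit 2618) (nat_lit 164) .nil)))))) (.g (nat_lit 1) (.e (nat_lit 197111) (nat_lit 0) .nil) .nil))) 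
(.lf (nat_lit 511923) (.g (nat_lit 341) (.e (nat_lit 172150) (nat_lit 27) (.e (nat_lit 336232) (nat_lit 14) (.e (nat_lit 401444) (nat_lit 9) .nil))) (.g (nat_lit 0) (.e (nat_lit 198614) (nat_lit 0) .nil) .nil)))))) (.nd (nat_lit 7) (.nd (nat_lit 8) (.nd (nat_lit 9) 
(.lf (nat_lit 511091) (.g (nat_lit 842) (.e (nat_lit 172124) (nat_lit 14) (.e (nat_lit 491566) (nat_lit 12) (.e (nat_lit 385043) (nat_lit 21) .nil))) (.g (nat_lit 0) (.e (nat_lit 196214) (nat_lit 0) .nil) .nil))) 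
(.lf (nat_lit 511603) (.g (nat_lit 2250) (.e (nat_lit 172133) (nat_lit 15) (.e (nat_lit 2059) (nat_lit 142) (.e (nat_lit 704589) (nat_lit 3) (.e (nat_lit 163975) (nat_lit 30) .nil)))) (.g (nat_lit 0) (.e (nat_lit 197917) (nat_lit 0) .nil) .nil)))) (.nd (nat_lit 9) 
(.lf (nat_lit 511347) (.g (nat_lit 3555) (.e (nat_lit 172126) (nat_lit 14) (.e (nat_lit 491540) (nat_lit 3) (.e (nat_lit 98373) (nat_lit 29) (.e (nat_lit 450583) (nat_lit 7) (.e (nat_lit 548912) (nat_lit 18) .nil))))) (.g (nat_lit 1) (.e (nat_lit 196967) (nat_lit 0) .nil) .nil))) 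
(.lf (nat_lit 511859) (.g (nat_lit 1351) (.e (nat_lit 172150) (nat_lit 27) (.e (nat_lit 336229) (nat_lit 14) (.e (nat_lit 401458) (nat_lit 13) (.e (nat_lit 483355) (nat_lit 17) .nil)))) (.g (nat_lit 0) (.e (nat_lit 198505) (nat_lit 0) .nil) .nil))))) (.nd (nat_lit 8) (.nd (nat_lit 9) 
(.lf (nat_lit 511219) (.g (nat_lit 3336) (.e (nat_lit 172126) (nat_lit 14) (.e (nat_lit 491537) (nat_lit 2) (.e (nat_lit 90170) (nat_lit 13) (.e (nat_lit 172113) (nat_lit 10) (.e (nat_lit 434203) (nat_lit 18) (.e (nat_lit 3955) (nat_lit 239) (.e (nat_lit 2626) (nat_lit 164) .nil))))))) (.g (nat_lit 1) (.e (nat_lit 196801) (nat_lit 0) .nil) .nil))) 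
(.lf (nat_lit 511731) (.g (nat_lit 2008) (.e (nat_lit 172143) (nat_lit 25) (.e (nat_lit 319490) (nat_lit 0) (.e (nat_lit 5664) (nat_lit 312) (.e (nat_lit 3085) (nat_lit 191) (.e (nat_lit 483345) (nat_lit 17) .nil))))) (.g (nat_lit 0) (.e (nat_lit 198129) (nat_lit 0) .nil) .nil)))) (.nd (nat_lit 9) 
(.lf (nat_lit 511475) (.g (nat_lit 993) (.e (nat_lit 172126) (nat_lit 14) (.e (nat_lit 491566) (nat_lit 12) (.e (nat_lit 385108) (nat_lit 51) .nil))) (.g (nat_lit 0) (.e (nat_lit 197241) (nat_lit 0) .nil) .nil))) 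
(.lf (nat_lit 511987) (.g (nat_lit 1859) (.e (nat_lit 179968) (nat_lit 28) (.e (nat_lit 344069) (nat_lit 0) (.e (nat_lit 2856) (nat_lit 184) (.e (nat_lit 426530) (nat_lit 27) (.e (nat_lit 335874) (nat_lit 0) .nil))))) (.g (nat_lit 0) (.e (nat_lit 198730) (nat_lit 0) .nil) .nil))))))))) (.nd (nat_lit 4) (.nd (nat_lit 5) (.nd (nat_lit 6) (.nd (nat_lit 7) (.nd (nat_lit 8) (.nd (nat_lit 9) 
(.lf (nat_lit 510987) (.g (nat_lit 1695) (.e (nat_lit 172124) (nat_lit 14) (.e (nat_lit 491544) (nat_lit 7) (.e (nat_lit 319531) (nat_lit 16) (.e (nat_lit 286743) (nat_lit 9) .nil)))) (.g (nat_lit 0) (.e (nat_lit 196048) (nat_lit 0) .nil) .nil))) 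
(.lf (nat_lit 511499) (.g (nat_lit 2712) (.e (nat_lit 172126) (nat_lit 14) (.e (nat_lit 491568) (nat_lit 13) (.e (nat_lit 393282) (nat_lit 24) (.e (nat_lit 434271) (nat_lit 38) (.e (nat_lit 655378) (nat_lit 4) .nil))))) (.g (nat_lit 1) (.e (nat_lit 197282) (nat_lit 0) .nil) .nil)))) (.nd (nat_lit 9) 
(.lf (nat_lit 511243) (.g (nat_lit 874) (.e (nat_lit 172126) (nat_lit 14) (.e (nat_lit 491537) (nat_lit 2) (.e (nat_lit 90174) (nat_lit 14) (.e (nat_lit 188160) (nat_lit 45) .nil)))) (.g (nat_lit 0) (.e (nat_lit 196827) (nat_lit 0) .nil) .nil))) 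
(.lf (nat_lit 511755) (.g (nat_lit 2309) (.e (nat_lit 172144) (nat_lit 26) (.e (nat_lit 327700) (nat_lit 8) (.e (nat_lit 303145) (nat_lit 13) (.e (nat_lit 483343) (nat_lit 17) (.e (nat_lit 6720) (nat_lit 361) .nil))))) (.g (nat_lit 0) (.e (nat_lit 198209) (nat_lit 0) .nil) .nil))))) (.nd (nat_lit 8) (.nd (nat_lit 9) 
(.lf (nat_lit 511115) (.g (nat_lit 417) (.e (nat_lit 172124) (nat_lit 14) (.e (nat_lit 491569) (nat_lit 13) (.e (nat_lit 393283) (nat_lit 24) .nil))) (.g (nat_lit 0) (.e (nat_lit 196276) (nat_lit 0) .nil) .nil))) 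
(.lf (nat_lit 511627) (.g (nat_lit 4294) (.e (nat_lit 172133) (nat_lit 15) (.e (nat_lit 2059) (nat_lit 142) (.e (nat_lit 704589) (nat_lit 3) (.e (nat_lit 163979) (nat_lit 30) (.e (nat_lit 573491) (nat_lit 15) (.e (nat_lit 81952) (nat_lit 22) (.e (nat_lit 90169) (nat_lit 13) .nil))))))) (.g (nat_lit 1) (.e (nat_lit 197958) (nat_lit 0) .nil) .nil)))) (.nd (nat_lit 9) 
(.lf (nat_lit 511371) (.g (nat_lit 4315) (.e (nat_lit 172126) (nat_lit 14) (.e (nat_lit 491549) (nat_lit 9) (.e (nat_lit 336369) (nat_lit 27) (.e (nat_lit 426317) (nat_lit 12) (.e (nat_lit 475198) (nat_lit 40) (.e (nat_lit 704592) (nat_lit 4) .nil)))))) (.g (nat_lit 1) (.e (nat_lit 197035) (nat_lit 0) .nil) .nil))) 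
(.lf (nat_lit 511883) (.g (nat_lit 2350) (.e (nat_lit 172150) (nat_lit 27) (.e (nat_lit 336231) (nat_lit 14) (.e (nat_lit 401437) (nat_lit 9) (.e (nat_lit 426550) (nat_lit 31) (.e (nat_lit 376576) (nat_lit 4) .nil))))) (.g (nat_lit 1) (.e (nat_lit 198541) (nat_lit 0) .nil) .nil)))))) (.nd (nat_lit 7) (.nd (nat_lit 8) (.nd (nat_lit 9) 
(.lf (nat_lit 511051) (.g (nat_lit 3474) (.e (nat_lit 172124) (nat_lit 14) (.e (nat_lit 491549) (nat_lit 9) (.e (nat_lit 336443) (nat_lit 32) (.e (nat_lit 466971) (nat_lit 21) (.e (nat_lit 164348) (nat_lit 240) (.e (nat_lit 2628) (nat_lit 164) .nil)))))) (.g (nat_lit 1) (.e (nat_lit 196155) (nat_lit 0) .nil) .nil))) 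
(.lf (nat_lit 511563) (.g (nat_lit 2249) (.e (nat_lit 172132) (nat_lit 15) (.e (nat_lit 1796) (nat_lit 119) (.e (nat_lit 516120) (nat_lit 1) (.e (nat_lit 164304) (nat_lit 226) (.e (nat_lit 2612) (nat_lit 163) .nil))))) (.g (nat_lit 0) (.e (nat_lit 197854) (nat_lit 0) .nil) .nil)))) (.nd (nat_lit 9) 
(.lf (nat_lit 511307) (.g (nat_lit 2840) (.e (nat_lit 172126) (nat_lit 14) (.e (nat_lit 491540) (nat_lit 3) (.e (nat_lit 98373) (nat_lit 29) (.e (nat_lit 450560) (nat_lit 0) (.e (nat_lit 3969) (nat_lit 239) (.e (nat_lit 2626) (nat_lit 164) .nil)))))) (.g (nat_lit 1) (.e (nat_lit 196919) (nat_lit 0) .nil) .nil))) 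
(.lf (nat_lit 511819) (.g (nat_lit 255) (.e (nat_lit 172150) (nat_lit 27) (.e (nat_lit 335894) (nat_lit 0) (.e (nat_lit 6722) (nat_lit 362) .nil))) (.g (nat_lit 0) (.e (nat_lit 198424) (nat_lit 0) .nil) .nil))))) (.nd (nat_lit 8) (.nd (nat_lit 9) 
(.lf (nat_lit 511179) (.g (nat_lit 2286) (.e (nat_lit 172125) (nat_lit 14) (.e (nat_lit 491566) (nat_lit 12) (.e (nat_lit 385109) (nat_lit 51) (.e (nat_lit 794684) (nat_lit 25) .nil)))) (.g (nat_lit 0) (.e (nat_lit 196650) (nat_lit 0) .nil) .nil))) 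
(.lf (nat_lit 511691) (.g (nat_lit 666) (.e (nat_lit 179968) (nat_lit 18) (.e (nat_lit 98335) (nat_lit 18) (.e (nat_lit 164345) (nat_lit 240) .nil))) (.g (nat_lit 0) (.e (nat_lit 198082) (nat_lit 0) .nil) .nil)))) (.nd (nat_lit 9) 
(.lf (nat_lit 511435) (.g (nat_lit 1888) (.e (nat_lit 172126) (nat_lit 14) (.e (nat_lit 491550) (nat_lit 9) (.e (nat_lit 336372) (nat_lit 27) (.e (nat_lit 426318) (nat_lit 12) (.e (nat_lit 475199) (nat_lit 40) (.e (nat_lit 704592) (nat_lit 4) .nil)))))) (.g (nat_lit 1) (.e (nat_lit 197142) (nat_lit 0) .nil) .nil))) 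
(.lf (nat_lit 511947) (.g (nat_lit 945) (.e (nat_lit 172150) (nat_lit 27) (.e (nat_lit 336387) (nat_lit 27) (.e (nat_lit 426200) (nat_lit 9) (.e (nat_lit 426438) (nat_lit 18) .nil)))) (.g (nat_lit 0) (.e (nat_lit 198656) (nat_lit 0) .nil) .nil))))))) (.nd (nat_lit 6) (.nd (nat_lit 7) (.nd (nat_lit 8) (.nd (nat_lit 9) 
(.lf (nat_lit 511019) (.g (nat_lit 3507) (.e (nat_lit 172124) (nat_lit 14) (.e (nat_lit 491549) (nat_lit 9) (.e (nat_lit 336430) (nat_lit 29) (.e (nat_lit 442428) (nat_lit 24) (.e (nat_lit 229666) (nat_lit 240) (.e (nat_lit 2622) (nat_lit 164) .nil)))))) (.g (nat_lit 1) (.e (nat_lit 196119) (nat_lit 0) .nil) .nil))) 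
(.lf (nat_lit 511531) (.g (nat_lit 1849) (.e (nat_lit 172126) (nat_lit 14) (.e (nat_lit 491570) (nat_lit 13) (.e (nat_lit 393267) (nat_lit 23) (.e (nat_lit 426444) (nat_lit 19) (.e (nat_lit 114432) (nat_lit 4) .nil))))) (.g (nat_lit 1) (.e (nat_lit 197393) (nat_lit 0) .nil) .nil)))) (.nd (nat_lit 9) 
(.lf (nat_lit 511275) (.g (nat_lit 2216) (.e (nat_lit 172126) (nat_lit 14) (.e (nat_lit 491540) (nat_lit 3) (.e (nat_lit 98367) (nat_lit 27) (.e (nat_lit 434253) (nat_lit 30) .nil)))) (.g (nat_lit 0) (.e (nat_lit 196872) (nat_lit 0) .nil) .nil))) 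
(.lf (nat_lit 511787) (.g (nat_lit 1799) (.e (nat_lit 172147) (nat_lit 27) (.e (nat_lit 336229) (nat_lit 14) (.e (nat_lit 401459) (nat_lit 13) (.e (nat_lit 483344) (nat_lit 17) .nil)))) (.g (nat_lit 0) (.e (nat_lit 198264) (nat_lit 0) .nil) .nil))))) (.nd (nat_lit 8) (.nd (nat_lit 9) 
(.lf (nat_lit 511147) (.g (nat_lit 2228) (.e (nat_lit 172124) (nat_lit 14) (.e (nat_lit 491571) (nat_lit 13) (.e (nat_lit 393269) (nat_lit 23) (.e (nat_lit 426444) (nat_lit 19) (.e (nat_lit 114432) (nat_lit 4) .nil))))) (.g (nat_lit 1) (.e (nat_lit 196507) (nat_lit 0) .nil) .nil))) 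
(.lf (nat_lit 511659) (.g (nat_lit 616) (.e (nat_lit 172138) (nat_lit 15) (.e (nat_lit 2058) (nat_lit 142) (.e (nat_lit 704595) (nat_lit 5) .nil))) (.g (nat_lit 0) (.e (nat_lit 198022) (nat_lit 0) .nil) .nil)))) (.nd (nat_lit 9) 
(.lf (nat_lit 511403) (.g (nat_lit 2015) (.e (nat_lit 172126) (nat_lit 14) (.e (nat_lit 491549) (nat_lit 9) (.e (nat_lit 336432) (nat_lit 30) (.e (nat_lit 450564) (nat_lit 0) (.e (nat_lit 5546) (nat_lit 306) .nil))))) (.g (nat_lit 0) (.e (nat_lit 197102) (nat_lit 0) .nil) .nil))) 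
(.lf (nat_lit 511915) (.g (nat_lit 483) (.e (nat_lit 172150) (nat_lit 27) (.e (nat_lit 336232) (nat_lit 14) (.e (nat_lit 401434) (nat_lit 9) .nil))) (.g (nat_lit 0) (.e (nat_lit 198595) (nat_lit 0) .nil) .nil)))))) (.nd (nat_lit 7) (.nd (nat_lit 8) (.nd (nat_lit 9) 
(.lf (nat_lit 511083) (.g (nat_lit 3290) (.e (nat_lit 172124) (nat_lit 14) (.e (nat_lit 491550) (nat_lit 9) (.e (nat_lit 336434) (nat_lit 30) (.e (nat_lit 450564) (nat_lit 0) (.e (nat_lit 5548) (nat_lit 306) (.e (nat_lit 2629) (nat_lit 164) .nil)))))) (.g (nat_lit 1) (.e (nat_lit 196194) (nat_lit 0) .nil) .nil))) 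
(.lf (nat_lit 511595) (.g (nat_lit 1871) (.e (nat_lit 172133) (nat_lit 15) (.e (nat_lit 1856) (nat_lit 124) (.e (nat_lit 557101) (nat_lit 13) (.e (nat_lit 172115) (nat_lit 10) (.e (nat_lit 434227) (nat_lit 20) .nil))))) (.g (nat_lit 0) (.e (nat_lit 197907) (nat_lit 0) .nil) .nil)))) (.nd (nat_lit 9) 
(.lf (nat_lit 511339) (.g (nat_lit 3449) (.e (nat_lit 172126) (nat_lit 14) (.e (nat_lit 491540) (nat_lit 3) (.e (nat_lit 98373) (nat_lit 29) (.e (nat_lit 450566) (nat_lit 0) (.e (nat_lit 3966) (nat_lit 239) (.e (nat_lit 2626) (nat_lit 164) .nil)))))) (.g (nat_lit 1) (.e (nat_lit 196959) (nat_lit 0) .nil) .nil))) 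
(.lf (nat_lit 511851) (.g (nat_lit 1512) (.e (nat_lit 172150) (nat_lit 27) (.e (nat_lit 336229) (nat_lit 14) (.e (nat_lit 401435) (nat_lit 9) (.e (nat_lit 426530) (nat_lit 27) .nil)))) (.g (nat_lit 0) (.e (nat_lit 198496) (nat_lit 0) .nil) .nil))))) (.nd (nat_lit 8) (.nd (nat_lit 9) 
(.lf (nat_lit 511211) (.g (nat_lit 3786) (.e (nat_lit 172126) (nat_lit 14) (.e (nat_lit 491537) (nat_lit 2) (.e (nat_lit 90170) (nat_lit 13) (.e (nat_lit 172106) (nat_lit 10) (.e (nat_lit 434209) (nat_lit 18) (.e (nat_lit 3944) (nat_lit 239) (.e (nat_lit 2626) (nat_lit 164) .nil))))))) (.g (nat_lit 1) (.e (nat_lit 196793) (nat_lit 0) .nil) .nil))) 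
(.lf (nat_lit 511723) (.g (nat_lit 1489) (.e (nat_lit 172143) (nat_lit 25) (.e (nat_lit 319490) (nat_lit 0) (.e (nat_lit 5664) (nat_lit 312) (.e (nat_lit 2852) (nat_lit 184) (.e (nat_lit 426530) (nat_lit 27) .nil))))) (.g (nat_lit 0) (.e (nat_lit 198121) (nat_lit 0) .nil) .nil)))) (.nd (nat_lit 9) 
(.lf (nat_lit 511467) (.g (nat_lit 1984) (.e (nat_lit 172126) (nat_lit 14) (.e (nat_lit 491564) (nat_lit 12) (.e (nat_lit 385109) (nat_lit 51) (.e (nat_lit 794683) (nat_lit 25) .nil)))) (.g (nat_lit 0) (.e (nat_lit 197202) (nat_lit 0) .nil) .nil))) 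
(.lf (nat_lit 511979) (.g (nat_lit 1524) (.e (nat_lit 179968) (nat_lit 28) (.e (nat_lit 344068) (nat_lit 0) (.e (nat_lit 2856) (nat_lit 184) (.e (nat_lit 426550) (nat_lit 31) (.e (nat_lit 376576) (nat_lit 4) .nil))))) (.g (nat_lit 0) (.e (nat_lit 198721) (nat_lit 0) .nil) .nil)))))))) (.nd (nat_lit 5) (.nd (nat_lit 6) (.nd (nat_lit 7) (.nd (nat_lit 8) (.nd (nat_lit 9) 
(.lf (nat_lit 511003) (.g (nat_lit 2847) (.e (nat_lit 172124) (nat_lit 14) (.e (nat_lit 491549) (nat_lit 9) (.e (nat_lit 336430) (nat_lit 29) (.e (nat_lit 442402) (nat_lit 20) (.e (nat_lit 3406) (nat_lit 212) (.e (nat_lit 655378) (nat_lit 4) .nil)))))) (.g (nat_lit 1) (.e (nat_lit 196102) (nat_lit 0) .nil) .nil))) 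
(.lf (nat_lit 511515) (.g (nat_lit 600) (.e (nat_lit 172126) (nat_lit 14) (.e (nat_lit 491569) (nat_lit 13) (.e (nat_lit 393279) (nat_lit 23) (.e (nat_lit 426110) (nat_lit 1) .nil)))) (.g (nat_lit 0) (.e (nat_lit 197322) (nat_lit 0) .nil) .nil)))) (.nd (nat_lit 9) 
(.lf (nat_lit 511259) (.g (nat_lit 2294) (.e (nat_lit 172126) (nat_lit 14) (.e (nat_lit 491540) (nat_lit 3) (.e (nat_lit 98358) (nat_lit 26) (.e (nat_lit 426320) (nat_lit 12) (.e (nat_lit 475184) (nat_lit 29) (.e (nat_lit 557096) (nat_lit 13) .nil)))))) (.g (nat_lit 1) (.e (nat_lit 196851) (nat_lit 0) .nil) .nil))) 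
(.lf (nat_lit 511771) (.g (nat_lit 2149) (.e (nat_lit 172145) (nat_lit 27) (.e (nat_lit 336231) (nat_lit 14) (.e (nat_lit 401458) (nat_lit 13) (.e (nat_lit 483350) (nat_lit 17) (.e (nat_lit 7936) (nat_lit 361) .nil))))) (.g (nat_lit 1) (.e (nat_lit 198234) (nat_lit 0) .nil) .nil))))) (.nd (nat_lit 8) (.nd (nat_lit 9) 
(.lf (nat_lit 511131) (.g (nat_lit 1920) (.e (nat_lit 172124) (nat_lit 14) (.e (nat_lit 491570) (nat_lit 13) (.e (nat_lit 393271) (nat_lit 23) (.e (nat_lit 426442) (nat_lit 19) (.e (nat_lit 114432) (nat_lit 4) .nil))))) (.g (nat_lit 1) (.e (nat_lit 196322) (nat_lit 0) .nil) .nil))) 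
(.lf (nat_lit 511643) (.g (nat_lit 1857) (.e (nat_lit 172136) (nat_lit 15) (.e (nat_lit 1800) (nat_lit 119) (.e (nat_lit 516119) (nat_lit 1) (.e (nat_lit 164347) (nat_lit 240) .nil)))) (.g (nat_lit 0) (.e (nat_lit 197992) (nat_lit 0) .nil) .nil)))) (.nd (nat_lit 9) 
(.lf (nat_lit 511387) (.g (nat_lit 2533) (.e (nat_lit 172126) (nat_lit 14) (.e (nat_lit 491549) (nat_lit 9) (.e (nat_lit 336430) (nat_lit 29) (.e (nat_lit 442376) (nat_lit 0) (.e (nat_lit 2147) (nat_lit 142) (.e (nat_lit 704591) (nat_lit 4) .nil)))))) (.g (nat_lit 1) (.e (nat_lit 197076) (nat_lit 0) .nil) .nil))) 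
(.lf (nat_lit 511899) (.g (nat_lit 1517) (.e (nat_lit 172150) (nat_lit 27) (.e (nat_lit 336231) (nat_lit 14) (.e (nat_lit 401446) (nat_lit 10) (.e (nat_lit 434208) (nat_lit 18) (.e (nat_lit 6416) (nat_lit 341) .nil))))) (.g (nat_lit 0) (.e (nat_lit 198566) (nat_lit 0) .nil) .nil)))))) (.nd (nat_lit 7) (.nd (nat_lit 8) (.nd (nat_lit 9) 
(.lf (nat_lit 511067) (.g (nat_lit 3309) (.e (nat_lit 172124) (nat_lit 14) (.e (nat_lit 491550) (nat_lit 9) (.e (nat_lit 336430) (nat_lit 29) (.e (nat_lit 442421) (nat_lit 21) (.e (nat_lit 164348) (nat_lit 240) (.e (nat_lit 2628) (nat_lit 164) .nil)))))) (.g (nat_lit 1) (.e (nat_lit 196178) (nat_lit 0) .nil) .nil))) 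
(.lf (nat_lit 511579) (.g (nat_lit 2583) (.e (nat_lit 172133) (nat_lit 15) (.e (nat_lit 1800) (nat_lit 119) (.e (nat_lit 516117) (nat_lit 1) (.e (nat_lit 164330) (nat_lit 230) (.e (nat_lit 163853) (nat_lit 0) .nil))))) (.g (nat_lit 0) (.e (nat_lit 197875) (nat_lit 0) .nil) .nil)))) (.nd (nat_lit 9) 
(.lf (nat_lit 511323) (.g (nat_lit 4749) (.e (nat_lit 172126) (nat_lit 14) (.e (nat_lit 491540) (nat_lit 3) (.e (nat_lit 98373) (nat_lit 29) (.e (nat_lit 450563) (nat_lit 0) (.e (nat_lit 3926) (nat_lit 239) (.e (nat_lit 7936) (nat_lit 164) .nil)))))) (.g (nat_lit 1) (.e (nat_lit 196941) (nat_lit 0) .nil) .nil))) 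
(.lf (nat_lit 511835) (.g (nat_lit 1739) (.e (nat_lit 172150) (nat_lit 27) (.e (nat_lit 336078) (nat_lit 9) (.e (nat_lit 336286) (nat_lit 15) (.e (nat_lit 3748) (nat_lit 228) (.e (nat_lit 786473) (nat_lit 27) (.e (nat_lit 335872) (nat_lit 0) (.e (nat_lit 6717) (nat_lit 361) .nil))))))) (.g (nat_lit 1) (.e (nat_lit 198464) (nat_lit 0) .nil) .nil))))) (.nd (nat_lit 8) (.nd (nat_lit 9) 
(.lf (nat_lit 511195) (.g (nat_lit 1357) (.e (nat_lit 172126) (nat_lit 14) (.e (nat_lit 491537) (nat_lit 2) (.e (nat_lit 90134) (nat_lit 9) (.e (nat_lit 3002) (nat_lit 186) .nil)))) (.g (nat_lit 0) (.e (nat_lit 196774) (nat_lit 0) .nil) .nil))) 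
(.lf (nat_lit 511707) (.g (nat_lit 1936) (.e (nat_lit 179968) (nat_lit 18) (.e (nat_lit 98367) (nat_lit 27) (.e (nat_lit 434245) (nat_lit 28) (.e (nat_lit 573488) (nat_lit 14) (.e (nat_lit 73757) (nat_lit 11) .nil))))) (.g (nat_lit 0) (.e (nat_lit 198098) (nat_lit 0) .nil) .nil)))) (.nd (nat_lit 9) 
(.lf (nat_lit 511451) (.g (nat_lit 362) (.e (nat_lit 172126) (nat_lit 14) (.e (nat_lit 491550) (nat_lit 9) (.e (nat_lit 336432) (nat_lit 30) .nil))) (.g (nat_lit 0) (.e (nat_lit 197174) (nat_lit 0) .nil) .nil))) 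
(.lf (nat_lit 511963) (.g (nat_lit 1788) (.e (nat_lit 179968) (nat_lit 27) (.e (nat_lit 336228) (nat_lit 14) (.e (nat_lit 401437) (nat_lit 9) (.e (nat_lit 426530) (nat_lit 27) (.e (nat_lit 335874) (nat_lit 0) .nil))))) (.g (nat_lit 0) (.e (nat_lit 198701) (nat_lit 0) .nil) .nil))))))) (.nd (nat_lit 6) (.nd (nat_lit 7) (.nd (nat_lit 8) (.nd (nat_lit 9) 
(.lf (nat_lit 511035) (.g (nat_lit 3444) (.e (nat_lit 172124) (nat_lit 14) (.e (nat_lit 491549) (nat_lit 9) (.e (nat_lit 336434) (nat_lit 30) (.e (nat_lit 450564) (nat_lit 0) (.e (nat_lit 5548) (nat_lit 306) (.e (nat_lit 2628) (nat_lit 164) .nil)))))) (.g (nat_lit 1) (.e (nat_lit 196138) (nat_lit 0) .nil) .nil))) 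
(.lf (nat_lit 511547) (.g (nat_lit 470) (.e (nat_lit 172126) (nat_lit 14) (.e (nat_lit 491571) (nat_lit 13) (.e (nat_lit 393252) (nat_lit 18) .nil))) (.g (nat_lit 0) (.e (nat_lit 197555) (nat_lit 0) .nil) .nil)))) (.nd (nat_lit 9) 
(.lf (nat_lit 511291) (.g (nat_lit 3406) (.e (nat_lit 172126) (nat_lit 14) (.e (nat_lit 491540) (nat_lit 3) (.e (nat_lit 98373) (nat_lit 29) (.e (nat_lit 450560) (nat_lit 0) (.e (nat_lit 3943) (nat_lit 239) (.e (nat_lit 2626) (nat_lit 164) .nil)))))) (.g (nat_lit 1) (.e (nat_lit 196901) (nat_lit 0) .nil) .nil))) 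
(.lf (nat_lit 511803) (.g (nat_lit 1832) (.e (nat_lit 172149) (nat_lit 27) (.e (nat_lit 336051) (nat_lit 6) (.e (nat_lit 147495) (nat_lit 11) (.e (nat_lit 24607) (nat_lit 3) .nil)))) (.g (nat_lit 0) (.e (nat_lit 198343) (nat_lit 0) .nil) .nil))))) (.nd (nat_lit 8) (.nd (nat_lit 9) 
(.lf (nat_lit 511163) (.g (nat_lit 1288) (.e (nat_lit 172125) (nat_lit 14) (.e (nat_lit 491540) (nat_lit 3) (.e (nat_lit 98370) (nat_lit 28) (.e (nat_lit 442402) (nat_lit 20) .nil)))) (.g (nat_lit 0) (.e (nat_lit 196627) (nat_lit 0) .nil) .nil))) 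
(.lf (nat_lit 511675) (.g (nat_lit 2412) (.e (nat_lit 179968) (nat_lit 15) (.e (nat_lit 1853) (nat_lit 124) (.e (nat_lit 557108) (nat_lit 15) (.e (nat_lit 188452) (nat_lit 23) (.e (nat_lit 204821) (nat_lit 17) .nil))))) (.g (nat_lit 0) (.e (nat_lit 198043) (nat_lit 0) .nil) .nil)))) (.nd (nat_lit 9) 
(.lf (nat_lit 511419) (.g (nat_lit 395) (.e (nat_lit 172126) (nat_lit 14) (.e (nat_lit 491549) (nat_lit 9) (.e (nat_lit 336443) (nat_lit 32) .nil))) (.g (nat_lit 0) (.e (nat_lit 197121) (nat_lit 0) .nil) .nil))) 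
(.lf (nat_lit 511931) (.g (nat_lit 3179) (.e (nat_lit 172150) (nat_lit 27) (.e (nat_lit 336232) (nat_lit 14) (.e (nat_lit 401456) (nat_lit 13) (.e (nat_lit 483346) (nat_lit 17) (.e (nat_lit 6718) (nat_lit 361) .nil))))) (.g (nat_lit 1) (.e (nat_lit 198632) (nat_lit 0) .nil) .nil)))))) (.nd (nat_lit 7) (.nd (nat_lit 8) (.nd (nat_lit 9) 
(.lf (nat_lit 511099) (.g (nat_lit 966) (.e (nat_lit 172124) (nat_lit 14) (.e (nat_lit 491568) (nat_lit 13) (.e (nat_lit 393274) (nat_lit 23) .nil))) (.g (nat_lit 0) (.e (nat_lit 196233) (nat_lit 0) .nil) .nil))) 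
(.lf (nat_lit 511611) (.g (nat_lit 8566) (.e (nat_lit 172133) (nat_lit 15) (.e (nat_lit 2059) (nat_lit 142) (.e (nat_lit 704589) (nat_lit 3) (.e (nat_lit 163975) (nat_lit 30) (.e (nat_lit 573492) (nat_lit 15) (.e (nat_lit 81953) (nat_lit 22) (.e (nat_lit 90168) (nat_lit 13) .nil))))))) (.g (nat_lit 1) (.e (nat_lit 197932) (nat_lit 0) .nil) .nil)))) (.nd (nat_lit 9) 
(.lf (nat_lit 511355) (.g (nat_lit 1514) (.e (nat_lit 172126) (nat_lit 14) (.e (nat_lit 491547) (nat_lit 9) (.e (nat_lit 336430) (nat_lit 29) (.e (nat_lit 442379) (nat_lit 0) .nil)))) (.g (nat_lit 0) (.e (nat_lit 196983) (nat_lit 0) .nil) .nil))) 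
(.lf (nat_lit 511867) (.g (nat_lit 755) (.e (nat_lit 172150) (nat_lit 27) (.e (nat_lit 336230) (nat_lit 14) (.e (nat_lit 401440) (nat_lit 9) (.e (nat_lit 426528) (nat_lit 27) (.e (nat_lit 335895) (nat_lit 0) .nil))))) (.g (nat_lit 0) (.e (nat_lit 198516) (nat_lit 0) .nil) .nil))))) (.nd (nat_lit 8) (.nd (nat_lit 9) 
(.lf (nat_lit 511227) (.g (nat_lit 1942) (.e (nat_lit 172126) (nat_lit 14) (.e (nat_lit 491537) (nat_lit 2) (.e (nat_lit 90170) (nat_lit 13) (.e (nat_lit 172113) (nat_lit 10) (.e (nat_lit 434208) (nat_lit 18) (.e (nat_lit 3966) (nat_lit 239) (.e (nat_lit 2625) (nat_lit 164) .nil))))))) (.g (nat_lit 1) (.e (nat_lit 196810) (nat_lit 0) .nil) .nil))) 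
(.lf (nat_lit 511739) (.g (nat_lit 1083) (.e (nat_lit 172143) (nat_lit 25) (.e (nat_lit 319491) (nat_lit 0) (.e (nat_lit 5664) (nat_lit 312) (.e (nat_lit 2852) (nat_lit 184) (.e (nat_lit 426535) (nat_lit 28) .nil))))) (.g (nat_lit 0) (.e (nat_lit 198137) (nat_lit 0) .nil) .nil)))) (.nd (nat_lit 9) 
(.lf (nat_lit 511483) (.g (nat_lit 1143) (.e (nat_lit 172126) (nat_lit 14) (.e (nat_lit 491568) (nat_lit 13) (.e (nat_lit 393275) (nat_lit 23) (.e (nat_lit 426109) (nat_lit 1) .nil)))) (.g (nat_lit 0) (.e (nat_lit 197264) (nat_lit 0) .nil) .nil))) 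
(.lf (nat_lit 511995) (.g (nat_lit 1957) (.e (nat_lit 179968) (nat_lit 29) (.e (nat_lit 352262) (nat_lit 0) (.e (nat_lit 3632) (nat_lit 227) (.e (nat_lit 778323) (nat_lit 5) (.e (nat_lit 81664) (nat_lit 36) .nil))))) (.g (nat_lit 0) (.e (nat_lit 198738) (nat_lit 0) .nil) .nil)))))))))) 
(.nd (nat_lit 3) (.nd (nat_lit 4) (.nd (nat_lit 5) (.nd (nat_lit 6) (.nd (nat_lit 7) 
(.nd (nat_lit 8) (.nd (nat_lit 9) 
(.lf (nat_lit 510983) (.g (nat_lit 2829) (.e (nat_lit 172124) (nat_lit 14) (.e (nat_lit 491540) (nat_lit 3) (.e (nat_lit 98373) (nat_lit 29) (.e (nat_lit 450568) (nat_lit 0) (.e (nat_lit 3966) (nat_lit 239) .nil))))) (.g (nat_lit 0) (.e (nat_lit 196044) (nat_lit 0) .nil) .nil))) 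
(.lf (nat_lit 511495) (.g (nat_lit 444) (.e (nat_lit 172126) (nat_lit 14) (.e (nat_lit 491568) (nat_lit 13) (.e (nat_lit 393282) (nat_lit 24) .nil))) (.g (nat_lit 0) (.e (nat_lit 197277) (nat_lit 0) .nil) .nil)))) (.nd (nat_lit 9) 
(.lf (nat_lit 511239) (.g (nat_lit 3278) (.e (nat_lit 172126) (nat_lit 14) (.e (nat_lit 491537) (nat_lit 2) (.e (nat_lit 90170) (nat_lit 13) (.e (nat_lit 172126) (nat_lit 14) (.e (nat_lit 491537) (nat_lit 2) (.e (nat_lit 90166) (nat_lit 13) .nil)))))) (.g (nat_lit 1) (.e (nat_lit 196822) (nat_lit 0) .nil) .nil))) 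
(.lf (nat_lit 511751) (.g (nat_lit 1658) (.e (nat_lit 172144) (nat_lit 26) (.e (nat_lit 327700) (nat_lit 8) (.e (nat_lit 303144) (nat_lit 13) (.e (nat_lit 483345) (nat_lit 17) (.e (nat_lit 6718) (nat_lit 361) .nil))))) (.g (nat_lit 1) (.e (nat_lit 198205) (nat_lit 0) .nil) .nil))))) (.nd (nat_lit 8) (.nd (nat_lit 9) 
(.lf (nat_lit 511111) (.g (nat_lit 1832) (.e (nat_lit 172124) (nat_lit 14) (.e (nat_lit 491569) (nat_lit 13) (.e (nat_lit 393273) (nat_lit 23) (.e (nat_lit 426444) (nat_lit 19) (.e (nat_lit 114432) (nat_lit 4) .nil))))) (.g (nat_lit 1) (.e (nat_lit 196251) (nat_lit 0) .nil) .nil))) 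
(.lf (nat_lit 511623) (.g (nat_lit 5718) (.e (nat_lit 172133) (nat_lit 15) (.e (nat_lit 2059) (nat_lit 142) (.e (nat_lit 704589) (nat_lit 3) (.e (nat_lit 163979) (nat_lit 30) (.e (nat_lit 573482) (nat_lit 13) (.e (nat_lit 65619) (nat_lit 10) (.e (nat_lit 344107) (nat_lit 19) (.e (nat_lit 499913) (nat_lit 9) .nil)))))))) (.g (nat_lit 1) (.e (nat_lit 197954) (nat_lit 0) .nil) .nil)))) 
(.nd (nat_lit 9) 
(.lf (nat_lit 511367) (.g (nat_lit 2653) (.e (nat_lit 172126) (nat_lit 14) (.e (nat_lit 491547) (nat_lit 9) (.e (nat_lit 336443) (nat_lit 32) (.e (nat_lit 466972) (nat_lit 21) (.e (nat_lit 164345) (nat_lit 240) (.e (nat_lit 2629) (nat_lit 164) .nil)))))) (.g (nat_lit 1) (.e (nat_lit 196997) (nat_lit 0) .nil) .nil))) 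
(.lf (nat_lit 511879) (.g (nat_lit 1959) (.e (nat_lit 172150) (nat_lit 27) (.e (nat_lit 336231) (nat_lit 14) (.e (nat_lit 401435) (nat_lit 9) (.e (nat_lit 426550) (nat_lit 31) (.e (nat_lit 376576) (nat_lit 4) .nil))))) (.g (nat_lit 1) (.e (nat_lit 198537) (nat_lit 0) .nil) .nil)))))) (.nd (nat_lit 7) (.nd (nat_lit 8) (.nd (nat_lit 9) 
(.lf (nat_lit 511047) (.g (nat_lit 3513) (.e (nat_lit 172124) (nat_lit 14) (.e (nat_lit 491549) (nat_lit 9) (.e (nat_lit 336443) (nat_lit 32) (.e (nat_lit 466969) (nat_lit 21) (.e (nat_lit 164348) (nat_lit 240) (.e (nat_lit 2628) (nat_lit 164) .nil)))))) (.g (nat_lit 1) (.e (nat_lit 196151) (nat_lit 0) .nil) .nil))) 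
(.lf (nat_lit 511559) (.g (nat_lit 1646) (.e (nat_lit 172131) (nat_lit 15) (.e (nat_lit 1800) (nat_lit 119) (.e (nat_lit 516119) (nat_lit 1) (.e (nat_lit 164345) (nat_lit 240) .nil)))) (.g (nat_lit 0) (.e (nat_lit 197850) (nat_lit 0) .nil) .nil)))) (.nd (nat_lit 9) 
(.lf (nat_lit 511303) (.g (nat_lit 2983) (.e (nat_lit 172126) (nat_lit 14) (.e (nat_lit 491540) (nat_lit 3) (.e (nat_lit 98373) (nat_lit 29) (.e (nat_lit 450560) (nat_lit 0) (.e (nat_lit 3991) (nat_lit 239) (.e (nat_lit 2625) (nat_lit 164) .nil)))))) (.g (nat_lit 1) (.e (nat_lit 196913) (nat_lit 0) .nil) .nil))) 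
(.lf (nat_lit 511815) (.g (nat_lit 2026) (.e (nat_lit 172149) (nat_lit 27) (.e (nat_lit 336235) (nat_lit 14) (.e (nat_lit 401458) (nat_lit 13) (.e (nat_lit 483350) (nat_lit 17) (.e (nat_lit 7936) (nat_lit 361) .nil))))) (.g (nat_lit 1) (.e (nat_lit 198358) (nat_lit 0) .nil) .nil))))) (.nd (nat_lit 8) (.nd (nat_lit 9) 
(.lf (nat_lit 511175) (.g (nat_lit 1604) (.e (nat_lit 172125) (nat_lit 14) (.e (nat_lit 491566) (nat_lit 12) (.e (nat_lit 385107) (nat_lit 51) (.e (nat_lit 794684) (nat_lit 25) .nil)))) (.g (nat_lit 0) (.e (nat_lit 196645) (nat_lit 0) .nil) .nil))) 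
(.lf (nat_lit 511687) (.g (nat_lit 1871) (.e (nat_lit 179968) (nat_lit 18) (.e (nat_lit 98335) (nat_lit 18) (.e (nat_lit 164330) (nat_lit 230) (.e (nat_lit 163850) (nat_lit 0) .nil)))) (.g (nat_lit 0) (.e (nat_lit 198073) (nat_lit 0) .nil) .nil)))) (.nd (nat_lit 9) 
(.lf (nat_lit 511431) (.g (nat_lit 2699) (.e (nat_lit 172126) (nat_lit 14) (.e (nat_lit 491550) (nat_lit 9) (.e (nat_lit 336369) (nat_lit 27) (.e (nat_lit 426305) (nat_lit 12) (.e (nat_lit 475199) (nat_lit 40) .nil))))) (.g (nat_lit 0) (.e (nat_lit 197138) (nat_lit 0) .nil) .nil))) 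
(.lf (nat_lit 511943) (.g (nat_lit 1691) (.e (nat_lit 172150) (nat_lit 27) (.e (nat_lit 336387) (nat_lit 27) (.e (nat_lit 426200) (nat_lit 9) (.e (nat_lit 426131) (nat_lit 3) (.e (nat_lit 204829) (nat_lit 18) .nil))))) (.g (nat_lit 0) (.e (nat_lit 198649) (nat_lit 0) .nil) .nil))))))) (.nd (nat_lit 6) (.nd (nat_lit 7) (.nd (nat_lit 8) (.nd (nat_lit 9) 
(.lf (nat_lit 511015) (.g (nat_lit 2326) (.e (nat_lit 172124) (nat_lit 14) (.e (nat_lit 491549) (nat_lit 9) (.e (nat_lit 336430) (nat_lit 29) (.e (nat_lit 442421) (nat_lit 21) (.e (nat_lit 164348) (nat_lit 240) (.e (nat_lit 2618) (nat_lit 164) .nil)))))) (.g (nat_lit 1) (.e (nat_lit 196115) (nat_lit 0) .nil) .nil))) 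
(.lf (nat_lit 511527) (.g (nat_lit 2569) (.e (nat_lit 172126) (nat_lit 14) (.e (nat_lit 491569) (nat_lit 13) (.e (nat_lit 393295) (nat_lit 26) (.e (nat_lit 475199) (nat_lit 40) (.e (nat_lit 704592) (nat_lit 4) .nil))))) (.g (nat_lit 1) (.e (nat_lit 197366) (nat_lit 0) .nil) .nil)))) (.nd (nat_lit 9) 
(.lf (nat_lit 511271) (.g (nat_lit 3129) (.e (nat_lit 172126) (nat_lit 14) (.e (nat_lit 491540) (nat_lit 3) (.e (nat_lit 98365) (nat_lit 26) (.e (nat_lit 426343) (nat_lit 14) (.e (nat_lit 491536) (nat_lit 2) (.e (nat_lit 90167) (nat_lit 13) .nil)))))) (.g (nat_lit 1) (.e (nat_lit 196867) (nat_lit 0) .nil) .nil))) 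
(.lf (nat_lit 511783) (.g (nat_lit 439) (.e (nat_lit 172147) (nat_lit 27) (.e (nat_lit 336226) (nat_lit 14) (.e (nat_lit 401459) (nat_lit 13) .nil))) (.g (nat_lit 0) (.e (nat_lit 198260) (nat_lit 0) .nil) .nil))))) (.nd (nat_lit 8) (.nd (nat_lit 9) 
(.lf (nat_lit 511143) (.g (nat_lit 876) (.e (nat_lit 172124) (nat_lit 14) (.e (nat_lit 491571) (nat_lit 13) (.e (nat_lit 393252) (nat_lit 18) .nil))) (.g (nat_lit 0) (.e (nat_lit 196423) (nat_lit 0) .nil) .nil))) 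
(.lf (nat_lit 511655) (.g (nat_lit 2034) (.e (nat_lit 172138) (nat_lit 15) (.e (nat_lit 1855) (nat_lit 124) (.e (nat_lit 557098) (nat_lit 13) (.e (nat_lit 172115) (nat_lit 10) (.e (nat_lit 434231) (nat_lit 23) .nil))))) (.g (nat_lit 0) (.e (nat_lit 198015) (nat_lit 0) .nil) .nil)))) (.nd (nat_lit 9) 
(.lf (nat_lit 511399) (.g (nat_lit 3167) (.e (nat_lit 172126) (nat_lit 14) (.e (nat_lit 491549) (nat_lit 9) (.e (nat_lit 336430) (nat_lit 29) (.e (nat_lit 442421) (nat_lit 21) (.e (nat_lit 164348) (nat_lit 240) (.e (nat_lit 2617) (nat_lit 164) .nil)))))) (.g (nat_lit 1) (.e (nat_lit 197091) (nat_lit 0) .nil) .nil))) 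
(.lf (nat_lit 511911) (.g (nat_lit 2866) (.e (nat_lit 172150) (nat_lit 27) (.e (nat_lit 336231) (nat_lit 14) (.e (nat_lit 401458) (nat_lit 13) (.e (nat_lit 483350) (nat_lit 17) (.e (nat_lit 7936) (nat_lit 361) .nil))))) (.g (nat_lit 1) (.e (nat_lit 198590) (nat_lit 0) .nil) .nil)))))) (.nd (nat_lit 7) (.nd (nat_lit 8) (.nd (nat_lit 9) 
(.lf (nat_lit 511079) (.g (nat_lit 3003) (.e (nat_lit 172124) (nat_lit 14) (.e (nat_lit 491550) (nat_lit 9) (.e (nat_lit 336432) (nat_lit 30) (.e (nat_lit 450593) (nat_lit 16) (.e (nat_lit 655378) (nat_lit 4) .nil))))) (.g (nat_lit 1) (.e (nat_lit 196190) (nat_lit 0) .nil) .nil))) 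
(.lf (nat_lit 511591) (.g (nat_lit 1825) (.e (nat_lit 172133) (nat_lit 15) (.e (nat_lit 1855) (nat_lit 124) (.e (nat_lit 557101) (nat_lit 13) (.e (nat_lit 172115) (nat_lit 10) (.e (nat_lit 434231) (nat_lit 23) .nil))))) (.g (nat_lit 0) (.e (nat_lit 197901) (nat_lit 0) .nil) .nil)))) (.nd (nat_lit 9) 
(.lf (nat_lit 511335) (.g (nat_lit 3104) (.e (nat_lit 172126) (nat_lit 14) (.e (nat_lit 491540) (nat_lit 3) (.e (nat_lit 98373) (nat_lit 29) (.e (nat_lit 450565) (nat_lit 0) (.e (nat_lit 3944) (nat_lit 239) .nil))))) (.g (nat_lit 0) (.e (nat_lit 196954) (nat_lit 0) .nil) .nil))) 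
(.lf (nat_lit 511847) (.g (nat_lit 1233) (.e (nat_lit 172150) (nat_lit 27) (.e (nat_lit 336203) (nat_lit 12) (.e (nat_lit 385102) (nat_lit 50) (.e (nat_lit 786475) (nat_lit 28) (.e (nat_lit 352000) (nat_lit 4) .nil))))) (.g (nat_lit 1) (.e (nat_lit 198487) (nat_lit 0) .nil) .nil))))) (.nd (nat_lit 8) (.nd (nat_lit 9) 
(.lf (nat_lit 511207) (.g (nat_lit 3121) (.e (nat_lit 172126) (nat_lit 14) (.e (nat_lit 491537) (nat_lit 2) (.e (nat_lit 90170) (nat_lit 13) (.e (nat_lit 172106) (nat_lit 10) (.e (nat_lit 434202) (nat_lit 18) (.e (nat_lit 3955) (nat_lit 239) (.e (nat_lit 2626) (nat_lit 164) .nil))))))) (.g (nat_lit 1) (.e (nat_lit 196789) (nat_lit 0) .nil) .nil))) 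
(.lf (nat_lit 511719) (.g (nat_lit 3335) (.e (nat_lit 172141) (nat_lit 23) (.e (nat_lit 147465) (nat_lit 9) (.e (nat_lit 2674) (nat_lit 168) (.e (nat_lit 204809) (nat_lit 9) (.e (nat_lit 426316) (nat_lit 12) (.e (nat_lit 475185) (nat_lit 29) (.e (nat_lit 557098) (nat_lit 13) .nil))))))) (.g (nat_lit 1) (.e (nat_lit 198114) (nat_lit 0) .nil) .nil)))) (.nd (nat_lit 9) 
(.lf (nat_lit 511463) (.g (nat_lit 3455) (.e (nat_lit 172126) (nat_lit 14) (.e (nat_lit 491550) (nat_lit 9) (.e (nat_lit 336443) (nat_lit 32) (.e (nat_lit 466969) (nat_lit 21) (.e (nat_lit 164345) (nat_lit 240) (.e (nat_lit 2618) (nat_lit 164) .nil)))))) (.g (nat_lit 1) (.e (nat_lit 197194) (nat_lit 0) .nil) .nil))) 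
(.lf (nat_lit 511975) (.g (nat_lit 602) (.e (nat_lit 179968) (nat_lit 28) (.e (nat_lit 344068) (nat_lit 0) (.e (nat_lit 2854) (nat_lit 184) (.e (nat_lit 426533) (nat_lit 28) (.e (nat_lit 352000) (nat_lit 4) .nil))))) (.g (nat_lit 0) (.e (nat_lit 198716) (nat_lit 0) .nil) .nil)))))))) (.nd (nat_lit 5) (.nd (nat_lit 6) (.nd (nat_lit 7) (.nd (nat_lit 8) (.nd (nat_lit 9) 
(.lf (nat_lit 510999) (.g (nat_lit 1600) (.e (nat_lit 172124) (nat_lit 14) (.e (nat_lit 491549) (nat_lit 9) (.e (nat_lit 336428) (nat_lit 29) (.e (nat_lit 442419) (nat_lit 21) .nil)))) (.g (nat_lit 0) (.e (nat_lit 196093) (nat_lit 0) .nil) .nil))) 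
(.lf (nat_lit 511511) (.g (nat_lit 984) (.e (nat_lit 172126) (nat_lit 14) (.e (nat_lit 491569) (nat_lit 13) (.e (nat_lit 393269) (nat_lit 23) .nil))) (.g (nat_lit 0) (.e (nat_lit 197310) (nat_lit 0) .nil) .nil)))) (.nd (nat_lit 9) 
(.lf (nat_lit 511255) (.g (nat_lit 2880) (.e (nat_lit 172126) (nat_lit 14) (.e (nat_lit 491539) (nat_lit 3) (.e (nat_lit 98365) (nat_lit 26) (.e (nat_lit 426316) (nat_lit 12) (.e (nat_lit 475185) (nat_lit 29) (.e (nat_lit 557096) (nat_lit 13) .nil)))))) (.g (nat_lit 1) (.e (nat_lit 196842) (nat_lit 0) .nil) .nil))) 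
(.lf (nat_lit 511767) (.g (nat_lit 563) (.e (nat_lit 172145) (nat_lit 27) (.e (nat_lit 336229) (nat_lit 14) (.e (nat_lit 401437) (nat_lit 9) .nil))) (.g (nat_lit 0) (.e (nat_lit 198229) (nat_lit 0) .nil) .nil))))) (.nd (nat_lit 8) (.nd (nat_lit 9) 
(.lf (nat_lit 511127) (.g (nat_lit 1564) (.e (nat_lit 172124) (nat_lit 14) (.e (nat_lit 491570) (nat_lit 13) (.e (nat_lit 393267) (nat_lit 23) (.e (nat_lit 426442) (nat_lit 19) (.e (nat_lit 114432) (nat_lit 4) .nil))))) (.g (nat_lit 1) (.e (nat_lit 196310) (nat_lit 0) .nil) .nil))) 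
(.lf (nat_lit 511639) (.g (nat_lit 3107) (.e (nat_lit 172136) (nat_lit 15) (.e (nat_lit 1800) (nat_lit 119) (.e (nat_lit 516115) (nat_lit 1) (.e (nat_lit 164325) (nat_lit 230) (.e (nat_lit 163851) (nat_lit 0) .nil))))) (.g (nat_lit 0) (.e (nat_lit 197988) (nat_lit 0) .nil) .nil)))) (.nd (nat_lit 9) 
(.lf (nat_lit 511383) (.g (nat_lit 319) (.e (nat_lit 172126) (nat_lit 14) (.e (nat_lit 491549) (nat_lit 9) (.e (nat_lit 336430) (nat_lit 29) .nil))) (.g (nat_lit 0) (.e (nat_lit 197070) (nat_lit 0) .nil) .nil))) 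
(.lf (nat_lit 511895) (.g (nat_lit 1535) (.e (nat_lit 172150) (nat_lit 27) (.e (nat_lit 336231) (nat_lit 14) (.e (nat_lit 401444) (nat_lit 9) (.e (nat_lit 426549) (nat_lit 31) (.e (nat_lit 376576) (nat_lit 4) .nil))))) (.g (nat_lit 1) (.e (nat_lit 198562) (nat_lit 0) .nil) .nil)))))) (.nd (nat_lit 7) (.nd (nat_lit 8) (.nd (nat_lit 9) 
(.lf (nat_lit 511063) (.g (nat_lit 3450) (.e (nat_lit 172124) (nat_lit 14) (.e (nat_lit 491550) (nat_lit 9) (.e (nat_lit 336430) (nat_lit 29) (.e (nat_lit 442419) (nat_lit 21) (.e (nat_lit 164347) (nat_lit 240) (.e (nat_lit 2619) (nat_lit 164) .nil)))))) (.g (nat_lit 1) (.e (nat_lit 196174) (nat_lit 0) .nil) .nil))) 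
(.lf (nat_lit 511575) (.g (nat_lit 1415) (.e (nat_lit 172133) (nat_lit 15) (.e (nat_lit 1800) (nat_lit 119) (.e (nat_lit 516117) (nat_lit 1) (.e (nat_lit 164305) (nat_lit 226) (.e (nat_lit 2612) (nat_lit 163) .nil))))) (.g (nat_lit 0) (.e (nat_lit 197871) (nat_lit 0) .nil) .nil)))) (.nd (nat_lit 9) 
(.lf (nat_lit 511319) (.g (nat_lit 3066) (.e (nat_lit 172126) (nat_lit 14) (.e (nat_lit 491540) (nat_lit 3) (.e (nat_lit 98373) (nat_lit 29) (.e (nat_lit 450562) (nat_lit 0) (.e (nat_lit 7936) (nat_lit 239) .nil))))) (.g (nat_lit 0) (.e (nat_lit 196934) (nat_lit 0) .nil) .nil))) 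
(.lf (nat_lit 511831) (.g (nat_lit 549) (.e (nat_lit 172150) (nat_lit 27) (.e (nat_lit 336078) (nat_lit 9) (.e (nat_lit 336263) (nat_lit 15) .nil))) (.g (nat_lit 0) (.e (nat_lit 198460) (nat_lit 0) .nil) .nil))))) (.nd (nat_lit 8) (.nd (nat_lit 9) 
(.lf (nat_lit 511191) (.g (nat_lit 669) (.e (nat_lit 172126) (nat_lit 14) (.e (nat_lit 491537) (nat_lit 2) (.e (nat_lit 90125) (nat_lit 9) .nil))) (.g (nat_lit 0) (.e (nat_lit 196767) (nat_lit 0) .nil) .nil))) 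
(.lf (nat_lit 511703) (.g (nat_lit 2627) (.e (nat_lit 179968) (nat_lit 18) (.e (nat_lit 98367) (nat_lit 27) (.e (nat_lit 434244) (nat_lit 28) (.e (nat_lit 573487) (nat_lit 14) (.e (nat_lit 73757) (nat_lit 11) .nil))))) (.g (nat_lit 0) (.e (nat_lit 198094) (nat_lit 0) .nil) .nil)))) (.nd (nat_lit 9) 
(.lf (nat_lit 511447) (.g (nat_lit 3419) (.e (nat_lit 172126) (nat_lit 14) (.e (nat_lit 491550) (nat_lit 9) (.e (nat_lit 336430) (nat_lit 29) (.e (nat_lit 442421) (nat_lit 21) (.e (nat_lit 164347) (nat_lit 240) (.e (nat_lit 2617) (nat_lit 164) .nil)))))) (.g (nat_lit 1) (.e (nat_lit 197165) (nat_lit 0) .nil) .nil))) 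
(.lf (nat_lit 511959) (.g (nat_lit 1223) (.e (nat_lit 179968) (nat_lit 27) (.e (nat_lit 336226) (nat_lit 14) (.e (nat_lit 401459) (nat_lit 13) (.e (nat_lit 483343) (nat_lit 17) .nil)))) (.g (nat_lit 0) (.e (nat_lit 198697) (nat_lit 0) .nil) .nil))))))) (.nd (nat_lit 6) (.nd (nat_lit 7) (.nd (nat_lit 8) (.nd (nat_lit 9) 
(.lf (nat_lit 511031) (.g (nat_lit 428) (.e (nat_lit 172124) (nat_lit 14) (.e (nat_lit 491549) (nat_lit 9) (.e (nat_lit 336434) (nat_lit 30) .nil))) (.g (nat_lit 0) (.e (nat_lit 196133) (nat_lit 0) .nil) .nil))) 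
(.lf (nat_lit 511543) (.g (nat_lit 1476) (.e (nat_lit 172126) (nat_lit 14) (.e (nat_lit 491570) (nat_lit 13) (.e (nat_lit 393291) (nat_lit 26) (.e (nat_lit 475197) (nat_lit 40) .nil)))) (.g (nat_lit 0) (.e (nat_lit 197465) (nat_lit 0) .nil) .nil)))) (.nd (nat_lit 9) 
(.lf (nat_lit 511287) (.g (nat_lit 3051) (.e (nat_lit 172126) (nat_lit 14) (.e (nat_lit 491540) (nat_lit 3) (.e (nat_lit 98373) (nat_lit 29) (.e (nat_lit 450560) (nat_lit 0) (.e (nat_lit 3936) (nat_lit 239) (.e (nat_lit 2629) (nat_lit 164) .nil)))))) (.g (nat_lit 1) (.e (nat_lit 196894) (nat_lit 0) .nil) .nil))) 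
(.lf (nat_lit 511799) (.g (nat_lit 506) (.e (nat_lit 172149) (nat_lit 27) (.e (nat_lit 335876) (nat_lit 0) (.e (nat_lit 6719) (nat_lit 361) (.e (nat_lit 172143) (nat_lit 25) (.e (nat_lit 319492) (nat_lit 0) (.e (nat_lit 5771) (nat_lit 316) .nil)))))) (.g (nat_lit 1) (.e (nat_lit 198324) (nat_lit 0) .nil) .nil))))) (.nd (nat_lit 8) (.nd (nat_lit 9) 
(.lf (nat_lit 511159) (.g (nat_lit 2095) (.e (nat_lit 172125) (nat_lit 14) (.e (nat_lit 491537) (nat_lit 2) (.e (nat_lit 90170) (nat_lit 13) (.e (nat_lit 172115) (nat_lit 10) .nil)))) (.g (nat_lit 0) (.e (nat_lit 196623) (nat_lit 0) .nil) .nil))) 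
(.lf (nat_lit 511671) (.g (nat_lit 1105) (.e (nat_lit 179968) (nat_lit 15) (.e (nat_lit 1853) (nat_lit 124) (.e (nat_lit 557097) (nat_lit 13) (.e (nat_lit 172115) (nat_lit 10) .nil)))) (.g (nat_lit 0) (.e (nat_lit 198039) (nat_lit 0) .nil) .nil)))) (.nd (nat_lit 9) 
(.lf (nat_lit 511415) (.g (nat_lit 1462) (.e (nat_lit 172126) (nat_lit 14) (.e (nat_lit 491549) (nat_lit 9) (.e (nat_lit 336434) (nat_lit 30) (.e (nat_lit 450566) (nat_lit 0) .nil)))) (.g (nat_lit 0) (.e (nat_lit 197115) (nat_lit 0) .nil) .nil))) 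
(.lf (nat_lit 511927) (.g (nat_lit 1730) (.e (nat_lit 172150) (nat_lit 27) (.e (nat_lit 336232) (nat_lit 14) (.e (nat_lit 401444) (nat_lit 9) (.e (nat_lit 426532) (nat_lit 28) (.e (nat_lit 352000) (nat_lit 4) .nil))))) (.g (nat_lit 1) (.e (nat_lit 198620) (nat_lit 0) .nil) .nil)))))) (.nd (nat_lit 7) (.nd (nat_lit 8) (.nd (nat_lit 9) 
(.lf (nat_lit 511095) (.g (nat_lit 1494) (.e (nat_lit 172124) (nat_lit 14) (.e (nat_lit 491566) (nat_lit 12) (.e (nat_lit 385108) (nat_lit 51) (.e (nat_lit 794684) (nat_lit 25) .nil)))) (.g (nat_lit 0) (.e (nat_lit 196224) (nat_lit 0) .nil) .nil))) 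
(.lf (nat_lit 511607) (.g (nat_lit 4035) (.e (nat_lit 172133) (nat_lit 15) (.e (nat_lit 2059) (nat_lit 142) (.e (nat_lit 704589) (nat_lit 3) (.e (nat_lit 163975) (nat_lit 30) (.e (nat_lit 573491) (nat_lit 15) (.e (nat_lit 81952) (nat_lit 22) (.e (nat_lit 90169) (nat_lit 13) .nil))))))) (.g (nat_lit 1) (.e (nat_lit 197926) (nat_lit 0) .nil) .nil)))) (.nd (nat_lit 9) 
(.lf (nat_lit 511351) (.g (nat_lit 1906) (.e (nat_lit 172126) (nat_lit 14) (.e (nat_lit 491540) (nat_lit 3) (.e (nat_lit 98374) (nat_lit 29) (.e (nat_lit 450583) (nat_lit 7) (.e (nat_lit 548911) (nat_lit 18) .nil))))) (.g (nat_lit 1) (.e (nat_lit 196971) (nat_lit 0) .nil) .nil))) 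
(.lf (nat_lit 511863) (.g (nat_lit 1335) (.e (nat_lit 172150) (nat_lit 27) (.e (nat_lit 336230) (nat_lit 14) (.e (nat_lit 401436) (nat_lit 9) (.e (nat_lit 426533) (nat_lit 28) (.e (nat_lit 352000) (nat_lit 4) .nil))))) (.g (nat_lit 1) (.e (nat_lit 198511) (nat_lit 0) .nil) .nil))))) (.nd (nat_lit 8) (.nd (nat_lit 9) 
(.lf (nat_lit 511223) (.g (nat_lit 2016) (.e (nat_lit 172126) (nat_lit 14) (.e (nat_lit 491537) (nat_lit 2) (.e (nat_lit 90170) (nat_lit 13) (.e (nat_lit 172113) (nat_lit 10) (.e (nat_lit 434203) (nat_lit 18) (.e (nat_lit 3968) (nat_lit 239) (.e (nat_lit 2625) (nat_lit 164) .nil))))))) (.g (nat_lit 1) (.e (nat_lit 196805) (nat_lit 0) .nil) .nil))) 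
(.lf (nat_lit 511735) (.g (nat_lit 622) (.e (nat_lit 172143) (nat_lit 25) (.e (nat_lit 319490) (nat_lit 0) (.e (nat_lit 5766) (nat_lit 316) (.e (nat_lit 172144) (nat_lit 26) .nil)))) (.g (nat_lit 0) (.e (nat_lit 198133) (nat_lit 0) .nil) .nil)))) (.nd (nat_lit 9) 
(.lf (nat_lit 511479) (.g (nat_lit 564) (.e (nat_lit 172126) (nat_lit 14) (.e (nat_lit 491568) (nat_lit 13) (.e (nat_lit 393266) (nat_lit 23) .nil))) (.g (nat_lit 0) (.e (nat_lit 197257) (nat_lit 0) .nil) .nil))) 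
(.lf (nat_lit 511991) (.g (nat_lit 1701) (.e (nat_lit 179968) (nat_lit 28) (.e (nat_lit 344069) (nat_lit 0) (.e (nat_lit 3090) (nat_lit 191) (.e (nat_lit 483344) (nat_lit 17) (.e (nat_lit 7936) (nat_lit 361) .nil))))) (.g (nat_lit 0) (.e (nat_lit 198734) (nat_lit 0) .nil) .nil))))))))) (.nd (nat_lit 4) (.nd (nat_lit 5) (.nd (nat_lit 6) (.nd (nat_lit 7) (.nd (nat_lit 8) (.nd (nat_lit 9) 
(.lf (nat_lit 510991) (.g (nat_lit 2161) (.e (nat_lit 172124) (nat_lit 14) (.e (nat_lit 491549) (nat_lit 9) (.e (nat_lit 336395) (nat_lit 27) (.e (nat_lit 426215) (nat_lit 9) (.e (nat_lit 426025) (nat_lit 0) (.e (nat_lit 3399) (nat_lit 211) (.e (nat_lit 647183) (nat_lit 4) .nil))))))) (.g (nat_lit 1) (.e (nat_lit 196077) (nat_lit 0) .nil) .nil))) 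
(.lf (nat_lit 511503) (.g (nat_lit 1677) (.e (nat_lit 172126) (nat_lit 14) (.e (nat_lit 491568) (nat_lit 13) (.e (nat_lit 393283) (nat_lit 24) (.e (nat_lit 434272) (nat_lit 38) (.e (nat_lit 655376) (nat_lit 4) .nil))))) (.g (nat_lit 1) (.e (nat_lit 197288) (nat_lit 0) .nil) .nil)))) (.nd (nat_lit 9) 
(.lf (nat_lit 511247) (.g (nat_lit 3336) (.e (nat_lit 172126) (nat_lit 14) (.e (nat_lit 491537) (nat_lit 2) (.e (nat_lit 90178) (nat_lit 15) (.e (nat_lit 188440) (nat_lit 20) (.e (nat_lit 3272) (nat_lit 199) (.e (nat_lit 548911) (nat_lit 18) .nil)))))) (.g (nat_lit 1) (.e (nat_lit 196833) (nat_lit 0) .nil) .nil))) 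
(.lf (nat_lit 511759) (.g (nat_lit 2236) (.e (nat_lit 172144) (nat_lit 26) (.e (nat_lit 327700) (nat_lit 8) (.e (nat_lit 303145) (nat_lit 13) (.e (nat_lit 483349) (nat_lit 17) (.e (nat_lit 7936) (nat_lit 361) .nil))))) (.g (nat_lit 0) (.e (nat_lit 198213) (nat_lit 0) .nil) .nil))))) (.nd (nat_lit 8) (.nd (nat_lit 9) 
(.lf (nat_lit 511119) (.g (nat_lit 3029) (.e (nat_lit 172124) (nat_lit 14) (.e (nat_lit 491569) (nat_lit 13) (.e (nat_lit 393283) (nat_lit 24) (.e (nat_lit 434271) (nat_lit 38) (.e (nat_lit 655378) (nat_lit 4) .nil))))) (.g (nat_lit 1) (.e (nat_lit 196284) (nat_lit 0) .nil) .nil))) 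
(.lf (nat_lit 511631) (.g (nat_lit 8193) (.e (nat_lit 172133) (nat_lit 15) (.e (nat_lit 2059) (nat_lit 142) (.e (nat_lit 704589) (nat_lit 3) (.e (nat_lit 163979) (nat_lit 30) (.e (nat_lit 573493) (nat_lit 15) (.e (nat_lit 81953) (nat_lit 22) (.e (nat_lit 90168) (nat_lit 13) .nil))))))) (.g (nat_lit 1) (.e (nat_lit 197974) (nat_lit 0) .nil) .nil)))) (.nd (nat_lit 9) 
(.lf (nat_lit 511375) (.g (nat_lit 3719) (.e (nat_lit 172126) (nat_lit 14) (.e (nat_lit 491549) (nat_lit 9) (.e (nat_lit 336395) (nat_lit 27) (.e (nat_lit 426305) (nat_lit 12) (.e (nat_lit 475199) (nat_lit 40) (.e (nat_lit 704592) (nat_lit 4) .nil)))))) (.g (nat_lit 1) (.e (nat_lit 197049) (nat_lit 0) .nil) .nil))) 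
(.lf (nat_lit 511887) (.g (nat_lit 634) (.e (nat_lit 172150) (nat_lit 27) (.e (nat_lit 336231) (nat_lit 14) (.e (nat_lit 401440) (nat_lit 9) (.e (nat_lit 433920) (nat_lit 27) .nil)))) (.g (nat_lit 0) (.e (nat_lit 198551) (nat_lit 0) .nil) .nil)))))) (.nd (nat_lit 7) (.nd (nat_lit 8) (.nd (nat_lit 9) 
(.lf (nat_lit 511055) (.g (nat_lit 1472) (.e (nat_lit 172124) (nat_lit 14) (.e (nat_lit 491550) (nat_lit 9) (.e (nat_lit 336369) (nat_lit 27) (.e (nat_lit 426203) (nat_lit 9) .nil)))) (.g (nat_lit 0) (.e (nat_lit 196159) (nat_lit 0) .nil) .nil))) 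
(.lf (nat_lit 511567) (.g (nat_lit 1261) (.e (nat_lit 172132) (nat_lit 15) (.e (nat_lit 1853) (nat_lit 124) (.e (nat_lit 557100) (nat_lit 13) (.e (nat_lit 172106) (nat_lit 10) .nil)))) (.g (nat_lit 0) (.e (nat_lit 197861) (nat_lit 0) .nil) .nil)))) (.nd (nat_lit 9) 
(.lf (nat_lit 511311) (.g (nat_lit 3180) (.e (nat_lit 172126) (nat_lit 14) (.e (nat_lit 491540) (nat_lit 3) (.e (nat_lit 98373) (nat_lit 29) (.e (nat_lit 450561) (nat_lit 0) (.e (nat_lit 3953) (nat_lit 239) .nil))))) (.g (nat_lit 0) (.e (nat_lit 196926) (nat_lit 0) .nil) .nil))) 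
(.lf (nat_lit 511823) (.g (nat_lit 1344) (.e (nat_lit 172150) (nat_lit 27) (.e (nat_lit 335894) (nat_lit 0) (.e (nat_lit 6722) (nat_lit 362) (.e (nat_lit 180226) (nat_lit 0) .nil)))) (.g (nat_lit 0) (.e (nat_lit 198430) (nat_lit 0) .nil) .nil))))) (.nd (nat_lit 8) (.nd (nat_lit 9) 
(.lf (nat_lit 511183) (.g (nat_lit 972) (.e (nat_lit 172125) (nat_lit 14) (.e (nat_lit 491568) (nat_lit 13) (.e (nat_lit 393284) (nat_lit 24) .nil))) (.g (nat_lit 0) (.e (nat_lit 196655) (nat_lit 0) .nil) .nil))) 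
(.lf (nat_lit 511695) (.g (nat_lit 2605) (.e (nat_lit 179968) (nat_lit 18) (.e (nat_lit 98366) (nat_lit 27) (.e (nat_lit 434244) (nat_lit 28) (.e (nat_lit 573481) (nat_lit 13) (.e (nat_lit 73472) (nat_lit 17) .nil))))) (.g (nat_lit 0) (.e (nat_lit 198086) (nat_lit 0) .nil) .nil)))) (.nd (nat_lit 9) 
(.lf (nat_lit 511439) (.g (nat_lit 623) (.e (nat_lit 172126) (nat_lit 14) (.e (nat_lit 491550) (nat_lit 9) (.e (nat_lit 336427) (nat_lit 29) .nil))) (.g (nat_lit 0) (.e (nat_lit 197150) (nat_lit 0) .nil) .nil))) 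
(.lf (nat_lit 511951) (.g (nat_lit 3622) (.e (nat_lit 172150) (nat_lit 27) (.e (nat_lit 336387) (nat_lit 27) (.e (nat_lit 426316) (nat_lit 12) (.e (nat_lit 475185) (nat_lit 29) (.e (nat_lit 557089) (nat_lit 12) (.e (nat_lit 164031) (nat_lit 53) (.e (nat_lit 761903) (nat_lit 16) .nil))))))) (.g (nat_lit 1) (.e (nat_lit 198685) (nat_lit 0) .nil) .nil))))))) 
(.nd (nat_lit 6) (.nd (nat_lit 7) (.nd (nat_lit 8) (.nd (nat_lit 9) 
(.lf (nat_lit 511023) (.g (nat_lit 3143) (.e (nat_lit 172124) (nat_lit 14) (.e (nat_lit 491549) (nat_lit 9) (.e (nat_lit 336430) (nat_lit 29) (.e (nat_lit 442430) (nat_lit 24) (.e (nat_lit 229666) (nat_lit 240) (.e (nat_lit 2630) (nat_lit 164) .nil)))))) (.g (nat_lit 1) (.e (nat_lit 196123) (nat_lit 0) .nil) .nil))) 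
(.lf (nat_lit 511535) (.g (nat_lit 2089) (.e (nat_lit 172126) (nat_lit 14) (.e (nat_lit 491570) (nat_lit 13) (.e (nat_lit 393282) (nat_lit 24) (.e (nat_lit 434271) (nat_lit 38) (.e (nat_lit 655376) (nat_lit 4) .nil))))) (.g (nat_lit 1) (.e (nat_lit 197436) (nat_lit 0) .nil) .nil)))) (.nd (nat_lit 9) 
(.lf (nat_lit 511279) (.g (nat_lit 3323) (.e (nat_lit 172126) (nat_lit 14) (.e (nat_lit 491540) (nat_lit 3) (.e (nat_lit 98372) (nat_lit 29) (.e (nat_lit 450583) (nat_lit 7) (.e (nat_lit 548913) (nat_lit 18) .nil))))) (.g (nat_lit 1) (.e (nat_lit 196883) (nat_lit 0) .nil) .nil))) 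
(.lf (nat_lit 511791) (.g (nat_lit 2087) (.e (nat_lit 172147) (nat_lit 27) (.e (nat_lit 336231) (nat_lit 14) (.e (nat_lit 401458) (nat_lit 13) (.e (nat_lit 483343) (nat_lit 17) .nil)))) (.g (nat_lit 0) (.e (nat_lit 198272) (nat_lit 0) .nil) .nil))))) (.nd (nat_lit 8) (.nd (nat_lit 9) 
(.lf (nat_lit 511151) (.g (nat_lit 682) (.e (nat_lit 172124) (nat_lit 14) (.e (nat_lit 491571) (nat_lit 13) (.e (nat_lit 393286) (nat_lit 25) .nil))) (.g (nat_lit 0) (.e (nat_lit 196561) (nat_lit 0) .nil) .nil))) 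
(.lf (nat_lit 511663) (.g (nat_lit 1224) (.e (nat_lit 172138) (nat_lit 15) (.e (nat_lit 2059) (nat_lit 142) (.e (nat_lit 704589) (nat_lit 3) (.e (nat_lit 163979) (nat_lit 30) .nil)))) (.g (nat_lit 0) (.e (nat_lit 198026) (nat_lit 0) .nil) .nil)))) (.nd (nat_lit 9) 
(.lf (nat_lit 511407) (.g (nat_lit 968) (.e (nat_lit 172126) (nat_lit 14) (.e (nat_lit 491549) (nat_lit 9) (.e (nat_lit 336432) (nat_lit 30) (.e (nat_lit 458496) (nat_lit 0) .nil)))) (.g (nat_lit 0) (.e (nat_lit 197107) (nat_lit 0) .nil) .nil))) 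
(.lf (nat_lit 511919) (.g (nat_lit 651) (.e (nat_lit 172150) (nat_lit 27) (.e (nat_lit 336232) (nat_lit 14) (.e (nat_lit 401439) (nat_lit 9) .nil))) (.g (nat_lit 0) (.e (nat_lit 198600) (nat_lit 0) .nil) .nil)))))) (.nd (nat_lit 7) (.nd (nat_lit 8) (.nd (nat_lit 9) 
(.lf (nat_lit 511087) (.g (nat_lit 523) (.e (nat_lit 172124) (nat_lit 14) (.e (nat_lit 491550) (nat_lit 9) (.e (nat_lit 336443) (nat_lit 32) .nil))) (.g (nat_lit 0) (.e (nat_lit 196198) (nat_lit 0) .nil) .nil))) 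
(.lf (nat_lit 511599) (.g (nat_lit 3434) (.e (nat_lit 172133) (nat_lit 15) (.e (nat_lit 1856) (nat_lit 124) (.e (nat_lit 557109) (nat_lit 15) (.e (nat_lit 188450) (nat_lit 23) (.e (nat_lit 204816) (nat_lit 17) .nil))))) (.g (nat_lit 0) (.e (nat_lit 197913) (nat_lit 0) .nil) .nil)))) (.nd (nat_lit 9) 
(.lf (nat_lit 511343) (.g (nat_lit 3703) (.e (nat_lit 172126) (nat_lit 14) (.e (nat_lit 491540) (nat_lit 3) (.e (nat_lit 98373) (nat_lit 29) (.e (nat_lit 450569) (nat_lit 0) (.e (nat_lit 3978) (nat_lit 239) (.e (nat_lit 2619) (nat_lit 164) .nil)))))) (.g (nat_lit 1) (.e (nat_lit 196963) (nat_lit 0) .nil) .nil))) 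
(.lf (nat_lit 511855) (.g (nat_lit 274) (.e (nat_lit 172150) (nat_lit 27) (.e (nat_lit 336229) (nat_lit 14) (.e (nat_lit 401458) (nat_lit 13) .nil))) (.g (nat_lit 0) (.e (nat_lit 198501) (nat_lit 0) .nil) .nil))))) (.nd (nat_lit 8) (.nd (nat_lit 9) 
(.lf (nat_lit 511215) (.g (nat_lit 3651) (.e (nat_lit 172126) (nat_lit 14) (.e (nat_lit 491537) (nat_lit 2) (.e (nat_lit 90170) (nat_lit 13) (.e (nat_lit 172106) (nat_lit 10) (.e (nat_lit 434238) (nat_lit 25) (.e (nat_lit 548912) (nat_lit 18) .nil)))))) (.g (nat_lit 1) (.e (nat_lit 196797) (nat_lit 0) .nil) .nil))) 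
(.lf (nat_lit 511727) (.g (nat_lit 1334) (.e (nat_lit 172143) (nat_lit 25) (.e (nat_lit 319490) (nat_lit 0) (.e (nat_lit 5664) (nat_lit 312) (.e (nat_lit 3078) (nat_lit 191) .nil)))) (.g (nat_lit 0) (.e (nat_lit 198125) (nat_lit 0) .nil) .nil)))) (.nd (nat_lit 9) 
(.lf (nat_lit 511471) (.g (nat_lit 1065) (.e (nat_lit 172126) (nat_lit 14) (.e (nat_lit 491566) (nat_lit 12) (.e (nat_lit 385032) (nat_lit 16) .nil))) (.g (nat_lit 0) (.e (nat_lit 197213) (nat_lit 0) .nil) .nil))) 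
(.lf (nat_lit 511983) (.g (nat_lit 1579) (.e (nat_lit 179968) (nat_lit 28) (.e (nat_lit 344068) (nat_lit 0) (.e (nat_lit 3090) (nat_lit 191) (.e (nat_lit 483350) (nat_lit 17) (.e (nat_lit 7936) (nat_lit 361) .nil))))) (.g (nat_lit 0) (.e (nat_lit 198725) (nat_lit 0) .nil) .nil)))))))) (.nd (nat_lit 5) (.nd (nat_lit 6) (.nd (nat_lit 7) (.nd (nat_lit 8) (.nd (nat_lit 9) 
(.lf (nat_lit 511007) (.g (nat_lit 3365) (.e (nat_lit 172124) (nat_lit 14) (.e (nat_lit 491549) (nat_lit 9) (.e (nat_lit 336430) (nat_lit 29) (.e (nat_lit 442419) (nat_lit 21) (.e (nat_lit 164345) (nat_lit 240) (.e (nat_lit 2619) (nat_lit 164) .nil)))))) (.g (nat_lit 1) (.e (nat_lit 196107) (nat_lit 0) .nil) .nil))) 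
(.lf (nat_lit 511519) (.g (nat_lit 2275) (.e (nat_lit 172126) (nat_lit 14) (.e (nat_lit 491569) (nat_lit 13) (.e (nat_lit 393291) (nat_lit 26) (.e (nat_lit 475199) (nat_lit 40) (.e (nat_lit 704592) (nat_lit 4) .nil))))) (.g (nat_lit 1) (.e (nat_lit 197354) (nat_lit 0) .nil) .nil)))) (.nd (nat_lit 9) 
(.lf (nat_lit 511263) (.g (nat_lit 1604) (.e (nat_lit 172126) (nat_lit 14) (.e (nat_lit 491540) (nat_lit 3) (.e (nat_lit 98365) (nat_lit 26) (.e (nat_lit 426188) (nat_lit 9) (.e (nat_lit 426354) (nat_lit 15) .nil))))) (.g (nat_lit 0) (.e (nat_lit 196855) (nat_lit 0) .nil) .nil))) 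
(.lf (nat_lit 511775) (.g (nat_lit 2157) (.e (nat_lit 172147) (nat_lit 27) (.e (nat_lit 335894) (nat_lit 0) (.e (nat_lit 6712) (nat_lit 360) (.e (nat_lit 163975) (nat_lit 30) .nil)))) (.g (nat_lit 0) (.e (nat_lit 198242) (nat_lit 0) .nil) .nil))))) (.nd (nat_lit 8) (.nd (nat_lit 9) 
(.lf (nat_lit 511135) (.g (nat_lit 2188) (.e (nat_lit 172124) (nat_lit 14) (.e (nat_lit 491570) (nat_lit 13) (.e (nat_lit 393282) (nat_lit 24) (.e (nat_lit 434271) (nat_lit 38) (.e (nat_lit 655376) (nat_lit 4) .nil))))) (.g (nat_lit 1) (.e (nat_lit 196349) (nat_lit 0) .nil) .nil))) 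
(.lf (nat_lit 511647) (.g (nat_lit 2887) (.e (nat_lit 172136) (nat_lit 15) (.e (nat_lit 1800) (nat_lit 119) (.e (nat_lit 516120) (nat_lit 1) (.e (nat_lit 164330) (nat_lit 230) (.e (nat_lit 163853) (nat_lit 0) .nil))))) (.g (nat_lit 0) (.e (nat_lit 197996) (nat_lit 0) .nil) .nil)))) (.nd (nat_lit 9) 
(.lf (nat_lit 511391) (.g (nat_lit 2339) (.e (nat_lit 172126) (nat_lit 14) (.e (nat_lit 491549) (nat_lit 9) (.e (nat_lit 336430) (nat_lit 29) (.e (nat_lit 442409) (nat_lit 20) (.e (nat_lit 3407) (nat_lit 212) (.e (nat_lit 655376) (nat_lit 4) .nil)))))) (.g (nat_lit 1) (.e (nat_lit 197083) (nat_lit 0) .nil) .nil))) 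
(.lf (nat_lit 511903) (.g (nat_lit 388) (.e (nat_lit 172150) (nat_lit 27) (.e (nat_lit 336231) (nat_lit 14) (.e (nat_lit 401456) (nat_lit 13) .nil))) (.g (nat_lit 0) (.e (nat_lit 198578) (nat_lit 0) .nil) .nil)))))) (.nd (nat_lit 7) (.nd (nat_lit 8) (.nd (nat_lit 9) 
(.lf (nat_lit 511071) (.g (nat_lit 2895) (.e (nat_lit 172124) (nat_lit 14) (.e (nat_lit 491550) (nat_lit 9) (.e (nat_lit 336430) (nat_lit 29) (.e (nat_lit 442430) (nat_lit 24) (.e (nat_lit 229666) (nat_lit 240) (.e (nat_lit 2630) (nat_lit 164) .nil)))))) (.g (nat_lit 1) (.e (nat_lit 196182) (nat_lit 0) .nil) .nil))) 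
(.lf (nat_lit 511583) (.g (nat_lit 2002) (.e (nat_lit 172133) (nat_lit 15) (.e (nat_lit 1800) (nat_lit 119) (.e (nat_lit 516120) (nat_lit 1) (.e (nat_lit 164329) (nat_lit 230) (.e (nat_lit 163850) (nat_lit 0) (.e (nat_lit 3251) (nat_lit 197) (.e (nat_lit 532515) (nat_lit 3) (.e (nat_lit 114716) (nat_lit 22) (.e (nat_lit 90169) (nat_lit 13) .nil))))))))) (.g (nat_lit 1) (.e (nat_lit 197886) (nat_lit 0) .nil) .nil)))) 
(.nd (nat_lit 9) 
(.lf (nat_lit 511327) (.g (nat_lit 3637) (.e (nat_lit 172126) (nat_lit 14) (.e (nat_lit 491540) (nat_lit 3) (.e (nat_lit 98373) (nat_lit 29) (.e (nat_lit 450563) (nat_lit 0) (.e (nat_lit 3955) (nat_lit 239) .nil))))) (.g (nat_lit 0) (.e (nat_lit 196945) (nat_lit 0) .nil) .nil))) 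
(.lf (nat_lit 511839) (.g (nat_lit 2748) (.e (nat_lit 172150) (nat_lit 27) (.e (nat_lit 336194) (nat_lit 12) (.e (nat_lit 385105) (nat_lit 50) (.e (nat_lit 786473) (nat_lit 27) (.e (nat_lit 335874) (nat_lit 0) .nil))))) (.g (nat_lit 0) (.e (nat_lit 198472) (nat_lit 0) .nil) .nil))))) (.nd (nat_lit 8) (.nd (nat_lit 9) 
(.lf (nat_lit 511199) (.g (nat_lit 1822) (.e (nat_lit 172126) (nat_lit 14) (.e (nat_lit 491537) (nat_lit 2) (.e (nat_lit 90170) (nat_lit 13) (.e (nat_lit 172037) (nat_lit 0) .nil)))) (.g (nat_lit 0) (.e (nat_lit 196781) (nat_lit 0) .nil) .nil))) 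
(.lf (nat_lit 511711) (.g (nat_lit 2196) (.e (nat_lit 179968) (nat_lit 18) (.e (nat_lit 98367) (nat_lit 27) (.e (nat_lit 434248) (nat_lit 28) (.e (nat_lit 573482) (nat_lit 13) (.e (nat_lit 73472) (nat_lit 17) .nil))))) (.g (nat_lit 0) (.e (nat_lit 198102) (nat_lit 0) .nil) .nil)))) (.nd (nat_lit 9) 
(.lf (nat_lit 511455) (.g (nat_lit 2704) (.e (nat_lit 172126) (nat_lit 14) (.e (nat_lit 491550) (nat_lit 9) (.e (nat_lit 336434) (nat_lit 30) (.e (nat_lit 450564) (nat_lit 0) (.e (nat_lit 5546) (nat_lit 306) (.e (nat_lit 2618) (nat_lit 164) .nil)))))) (.g (nat_lit 1) (.e (nat_lit 197181) (nat_lit 0) .nil) .nil))) 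
(.lf (nat_lit 511967) (.g (nat_lit 2241) (.e (nat_lit 179968) (nat_lit 27) (.e (nat_lit 336235) (nat_lit 14) (.e (nat_lit 401437) (nat_lit 9) (.e (nat_lit 426530) (nat_lit 27) (.e (nat_lit 335874) (nat_lit 0) .nil))))) (.g (nat_lit 0) (.e (nat_lit 198705) (nat_lit 0) .nil) .nil))))))) (.nd (nat_lit 6) (.nd (nat_lit 7) (.nd (nat_lit 8) (.nd (nat_lit 9) 
(.lf (nat_lit 511039) (.g (nat_lit 3251) (.e (nat_lit 172124) (nat_lit 14) (.e (nat_lit 491549) (nat_lit 9) (.e (nat_lit 336434) (nat_lit 30) (.e (nat_lit 450593) (nat_lit 16) (.e (nat_lit 655376) (nat_lit 4) .nil))))) (.g (nat_lit 1) (.e (nat_lit 196142) (nat_lit 0) .nil) .nil))) 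
(.lf (nat_lit 511551) (.g (nat_lit 2098) (.e (nat_lit 172126) (nat_lit 14) (.e (nat_lit 491571) (nat_lit 13) (.e (nat_lit 393269) (nat_lit 23) (.e (nat_lit 426444) (nat_lit 19) (.e (nat_lit 114432) (nat_lit 4) .nil))))) (.g (nat_lit 1) (.e (nat_lit 197639) (nat_lit 0) .nil) .nil)))) (.nd (nat_lit 9) 
(.lf (nat_lit 511295) (.g (nat_lit 3355) (.e (nat_lit 172126) (nat_lit 14) (.e (nat_lit 491540) (nat_lit 3) (.e (nat_lit 98373) (nat_lit 29) (.e (nat_lit 450560) (nat_lit 0) (.e (nat_lit 3945) (nat_lit 239) (.e (nat_lit 2626) (nat_lit 164) .nil)))))) (.g (nat_lit 1) (.e (nat_lit 196905) (nat_lit 0) .nil) .nil))) 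
(.lf (nat_lit 511807) (.g (nat_lit 1851) (.e (nat_lit 172149) (nat_lit 27) (.e (nat_lit 336051) (nat_lit 6) (.e (nat_lit 147496) (nat_lit 11) (.e (nat_lit 24603) (nat_lit 2) (.e (nat_lit 90181) (nat_lit 16) .nil))))) (.g (nat_lit 0) (.e (nat_lit 198347) (nat_lit 0) .nil) .nil))))) (.nd (nat_lit 8) (.nd (nat_lit 9) 
(.lf (nat_lit 511167) (.g (nat_lit 624) (.e (nat_lit 172125) (nat_lit 14) (.e (nat_lit 491549) (nat_lit 9) (.e (nat_lit 336430) (nat_lit 29) .nil))) (.g (nat_lit 0) (.e (nat_lit 196631) (nat_lit 0) .nil) .nil))) 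
(.lf (nat_lit 511679) (.g (nat_lit 3037) (.e (nat_lit 179968) (nat_lit 15) (.e (nat_lit 1859) (nat_lit 124) (.e (nat_lit 557109) (nat_lit 15) (.e (nat_lit 188450) (nat_lit 23) (.e (nat_lit 204821) (nat_lit 17) .nil))))) (.g (nat_lit 0) (.e (nat_lit 198047) (nat_lit 0) .nil) .nil)))) (.nd (nat_lit 9) 
(.lf (nat_lit 511423) (.g (nat_lit 3206) (.e (nat_lit 172126) (nat_lit 14) (.e (nat_lit 491549) (nat_lit 9) (.e (nat_lit 336443) (nat_lit 32) (.e (nat_lit 466969) (nat_lit 21) (.e (nat_lit 164345) (nat_lit 240) (.e (nat_lit 2617) (nat_lit 164) .nil)))))) (.g (nat_lit 1) (.e (nat_lit 197127) (nat_lit 0) .nil) .nil))) 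
(.lf (nat_lit 511935) (.g (nat_lit 2074) (.e (nat_lit 172150) (nat_lit 27) (.e (nat_lit 336232) (nat_lit 14) (.e (nat_lit 401456) (nat_lit 13) (.e (nat_lit 483361) (nat_lit 17) .nil)))) (.g (nat_lit 0) (.e (nat_lit 198637) (nat_lit 0) .nil) .nil)))))) (.nd (nat_lit 7) (.nd (nat_lit 8) (.nd (nat_lit 9) 
(.lf (nat_lit 511103) (.g (nat_lit 2188) (.e (nat_lit 172124) (nat_lit 14) (.e (nat_lit 491568) (nat_lit 13) (.e (nat_lit 393282) (nat_lit 24) (.e (nat_lit 434209) (nat_lit 18) (.e (nat_lit 5548) (nat_lit 306) .nil))))) (.g (nat_lit 0) (.e (nat_lit 196237) (nat_lit 0) .nil) .nil))) 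
(.lf (nat_lit 511615) (.g (nat_lit 3775) (.e (nat_lit 172133) (nat_lit 15) (.e (nat_lit 2059) (nat_lit 142) (.e (nat_lit 704589) (nat_lit 3) (.e (nat_lit 163976) (nat_lit 30) (.e (nat_lit 573491) (nat_lit 15) (.e (nat_lit 81952) (nat_lit 22) (.e (nat_lit 90169) (nat_lit 13) .nil))))))) (.g (nat_lit 1) (.e (nat_lit 197939) (nat_lit 0) .nil) .nil)))) (.nd (nat_lit 9) 
(.lf (nat_lit 511359) (.g (nat_lit 2559) (.e (nat_lit 172126) (nat_lit 14) (.e (nat_lit 491547) (nat_lit 9) (.e (nat_lit 336432) (nat_lit 30) (.e (nat_lit 450565) (nat_lit 0) (.e (nat_lit 5548) (nat_lit 306) (.e (nat_lit 2619) (nat_lit 164) .nil)))))) (.g (nat_lit 1) (.e (nat_lit 196988) (nat_lit 0) .nil) .nil))) 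
(.lf (nat_lit 511871) (.g (nat_lit 1433) (.e (nat_lit 172150) (nat_lit 27) (.e (nat_lit 336230) (nat_lit 14) (.e (nat_lit 401458) (nat_lit 13) (.e (nat_lit 483342) (nat_lit 17) .nil)))) (.g (nat_lit 0) (.e (nat_lit 198523) (nat_lit 0) .nil) .nil))))) (.nd (nat_lit 8) (.nd (nat_lit 9) 
(.lf (nat_lit 511231) (.g (nat_lit 3054) (.e (nat_lit 172126) (nat_lit 14) (.e (nat_lit 491537) (nat_lit 2) (.e (nat_lit 90170) (nat_lit 13) (.e (nat_lit 172113) (nat_lit 10) (.e (nat_lit 434238) (nat_lit 25) (.e (nat_lit 548912) (nat_lit 18) .nil)))))) (.g (nat_lit 1) (.e (nat_lit 196814) (nat_lit 0) .nil) .nil))) 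
(.lf (nat_lit 511743) (.g (nat_lit 3102) (.e (nat_lit 172143) (nat_lit 25) (.e (nat_lit 319491) (nat_lit 0) (.e (nat_lit 5664) (nat_lit 312) (.e (nat_lit 3085) (nat_lit 191) (.e (nat_lit 483346) (nat_lit 17) (.e (nat_lit 6720) (nat_lit 361) .nil)))))) (.g (nat_lit 1) (.e (nat_lit 198141) (nat_lit 0) .nil) .nil)))) (.nd (nat_lit 9) 
(.lf (nat_lit 511487) (.g (nat_lit 1521) (.e (nat_lit 172126) (nat_lit 14) (.e (nat_lit 491568) (nat_lit 13) (.e (nat_lit 393281) (nat_lit 23) (.e (nat_lit 426031) (nat_lit 0) .nil)))) (.g (nat_lit 0) (.e (nat_lit 197269) (nat_lit 0) .nil) .nil))) 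
(.lf (nat_lit 511999) (.g (nat_lit 1383) (.e (nat_lit 179968) (nat_lit 32) (.e (nat_lit 376837) (nat_lit 0) (.e (nat_lit 3632) (nat_lit 227) (.e (nat_lit 778323) (nat_lit 5) (.e (nat_lit 81664) (nat_lit 36) .nil))))) (.g (nat_lit 0) (.e (nat_lit 198746) (nat_lit 0) .nil) .nil)))))))))))))


end

end Pool.Agent.Lib.MP_5854e1_co.Cz
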