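import Pool.Agent.Lib.MP_5854e1_co.DtD

/-!
# Windows and cells of the rings
-/

set_option autoImplicit false
set_option maxRecDepth 100000
set_option deprecated.oldSectionVars true

namespace Pool.Agent.Lib.MP_5854e1_co.Cz

open Pool.Agent.Lib.MP_5854e1_co

noncomputable section

noncomputable def tv5560 : DT := (.nd (nat_lit 0) (.nd (nat_lit 1) (.nd (nat_lit 2) (.nd (nat_lit 3) (.nd (nat_lit 4) (.nd (nat_lit 5) (.nd (nat_lit 6) (.nd (nat_lit 7) (.nd (nat_lit 8) (.nd (nat_lit 9) 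
(.lf (nat_lit 512000) (.g (nat_lit 1233) (.e (nat_lit 179968) (nat_lit 32) (.e (nat_lit 376860) (nat_lit 21) (.e (nat_lit 57930) (nat_lit 282) (.e (nat_lit 163896) (nat_lit 10) (.e (nat_lit 409617) (nat_lit 10) .nil))))) (.g (nat_lit 0) (.e (nat_lit 198747) (nat_lit 0) .nil) .nil))) 
(.lf (nat_lit 512512) (.g (nat_lit 2198) (.e (nat_lit 180245) (nat_lit 5) (.e (nat_lit 532523) (nat_lit 7) (.e (nat_lit 319504) (nat_lit 10) (.e (nat_lit 5714) (nat_lit 312) (.e (nat_lit 2682) (nat_lit 168) .nil))))) (.g (nat_lit 0) (.e (nat_lit 200913) (nat_lit 0) .nil) .nil)))) (.nd (nat_lit 9) 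
(.lf (nat_lit 512256) (.g (nat_lit 3540) (.e (nat_lit 180243) (nat_lit 5) (.e (nat_lit 532549) (nat_lit 12) (.e (nat_lit 360473) (nat_lit 8) (.e (nat_lit 557091) (nat_lit 12) (.e (nat_lit 163849) (nat_lit 0) (.e (nat_lit 6255) (nat_lit 337) (.e (nat_lit 2643) (nat_lit 165) .nil))))))) (.g (nat_lit 1) (.e (nat_lit 200335) (nat_lit 0) .nil) .nil))) 
(.lf (nat_lit 512768) (.g (nat_lit 3039) (.e (nat_lit 180250) (nat_lit 10) (.e (nat_lit 573489) (nat_lit 14) (.e (nat_lit 73755) (nat_lit 8) (.e (nat_lit 557089) (nat_lit 12) (.e (nat_lit 163849) (nat_lit 0) (.e (nat_lit 5934) (nat_lit 322) (.e (nat_lit 57371) (nat_lit 2) (.e (nat_lit 90174) (nat_lit 14) .nil)))))))) (.g (nat_lit 1) (.e (nat_lit 201908) (nat_lit 0) .nil) .nil))))) 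
(.nd (nat_lit 8) (.nd (nat_lit 9) 
(.lf (nat_lit 512128) (.g (nat_lit 1091) (.e (nat_lit 180243) (nat_lit 5) (.e (nat_lit 532481) (nat_lit 0) (.e (nat_lit 6722) (nat_lit 362) (.e (nat_lit 188160) (nat_lit 1) .nil)))) (.g (nat_lit 0) (.e (nat_lit 199893) (nat_lit 0) .nil) .nil))) 
(.lf (nat_lit 512640) (.g (nat_lit 3984) (.e (nat_lit 180250) (nat_lit 10) (.e (nat_lit 573456) (nat_lit 9) (.e (nat_lit 1669) (nat_lit 116) (.e (nat_lit 401459) (nat_lit 13) (.e (nat_lit 483363) (nat_lit 18) (.e (nat_lit 57666) (nat_lit 152) (.e (nat_lit 2638) (nat_lit 165) .nil))))))) (.g (nat_lit 1) (.e (nat_lit 201314) (nat_lit 0) .nil) .nil)))) (.nd (nat_lit 9) 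
(.lf (nat_lit 512384) (.g (nat_lit 2332) (.e (nat_lit 180244) (nat_lit 5) (.e (nat_lit 532523) (nat_lit 7) (.e (nat_lit 319529) (nat_lit 16) (.e (nat_lit 286735) (nat_lit 3) (.e (nat_lit 98320) (nat_lit 17) .nil))))) (.g (nat_lit 0) (.e (nat_lit 200639) (nat_lit 0) .nil) .nil))) 
(.lf (nat_lit 512896) (.g (nat_lit 3225) (.e (nat_lit 180251) (nat_lit 10) (.e (nat_lit 573489) (nat_lit 14) (.e (nat_lit 73755) (nat_lit 8) (.e (nat_lit 557067) (nat_lit 9) (.e (nat_lit 2602) (nat_lit 163) .nil))))) (.g (nat_lit 0) (.e (nat_lit 202451) (nat_lit 0) .nil) .nil)))))) (.nd (nat_lit 7) (.nd (nat_lit 8) (.nd (nat_lit 9) 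
(.lf (nat_lit 512064) (.g (nat_lit 1686) (.e (nat_lit 180233) (nat_lit 0) (.e (nat_lit 5448) (nat_lit 306) (.e (nat_lit 2612) (nat_lit 163) (.e (nat_lit 163979) (nat_lit 30) (.e (nat_lit 573493) (nat_lit 15) .nil))))) (.g (nat_lit 0) (.e (nat_lit 199645) (nat_lit 0) .nil) .nil))) 
(.lf (nat_lit 512576) (.g (nat_lit 2218) (.e (nat_lit 188160) (nat_lit 5) (.e (nat_lit 532569) (nat_lit 16) (.e (nat_lit 401434) (nat_lit 9) (.e (nat_lit 426125) (nat_lit 2) (.e (nat_lit 196661) (nat_lit 12) .nil))))) (.g (nat_lit 0) (.e (nat_lit 201017) (nat_lit 0) .nil) .nil)))) (.nd (nat_lit 9) 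
(.lf (nat_lit 512320) (.g (nat_lit 3084) (.e (nat_lit 180243) (nat_lit 5) (.e (nat_lit 532569) (nat_lit 16) (.e (nat_lit 401434) (nat_lit 9) (.e (nat_lit 426140) (nat_lit 3) (.e (nat_lit 204821) (nat_lit 17) (.e (nat_lit 7936) (nat_lit 362) .nil)))))) (.g (nat_lit 1) (.e (nat_lit 200523) (nat_lit 0) .nil) .nil))) 
(.lf (nat_lit 512832) (.g (nat_lit 2713) (.e (nat_lit 180251) (nat_lit 10) (.e (nat_lit 573456) (nat_lit 9) (.e (nat_lit 1669) (nat_lit 116) (.e (nat_lit 401459) (nat_lit 13) (.e (nat_lit 483363) (nat_lit 18) (.e (nat_lit 57657) (nat_lit 152) (.e (nat_lit 2642) (nat_lit 165) .nil))))))) (.g (nat_lit 1) (.e (nat_lit 202060) (nat_lit 0) .nil) .nil))))) (.nd (nat_lit 8) (.nd (nat_lit 9) 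
(.lf (nat_lit 512192) (.g (nat_lit 1281) (.e (nat_lit 180243) (nat_lit 5) (.e (nat_lit 532513) (nat_lit 3) (.e (nat_lit 114718) (nat_lit 23) (.e (nat_lit 98334) (nat_lit 18) .nil)))) (.g (nat_lit 0) (.e (nat_lit 200063) (nat_lit 0) .nil) .nil))) 
(.lf (nat_lit 512704) (.g (nat_lit 1365) (.e (nat_lit 180250) (nat_lit 10) (.e (nat_lit 573474) (nat_lit 12) (.e (nat_lit 57572) (nat_lit 54) (.e (nat_lit 770071) (nat_lit 8) .nil)))) (.g (nat_lit 0) (.e (nat_lit 201440) (nat_lit 0) .nil) .nil)))) (.nd (nat_lit 9) 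
(.lf (nat_lit 512448) (.g (nat_lit 3253) (.e (nat_lit 180244) (nat_lit 5) (.e (nat_lit 532550) (nat_lit 12) (.e (nat_lit 360474) (nat_lit 8) (.e (nat_lit 557093) (nat_lit 12) (.e (nat_lit 163853) (nat_lit 0) (.e (nat_lit 6273) (nat_lit 337) (.e (nat_lit 2635) (nat_lit 165) .nil))))))) (.g (nat_lit 1) (.e (nat_lit 200766) (nat_lit 0) .nil) .nil))) 
(.lf (nat_lit 512960) (.g (nat_lit 3714) (.e (nat_lit 180251) (nat_lit 10) (.e (nat_lit 573489) (nat_lit 14) (.e (nat_lit 73755) (nat_lit 8) (.e (nat_lit 557090) (nat_lit 12) (.e (nat_lit 163851) (nat_lit 0) (.e (nat_lit 5951) (nat_lit 322) (.e (nat_lit 57371) (nat_lit 2) (.e (nat_lit 90174) (nat_lit 14) .nil)))))))) (.g (nat_lit 1) (.e (nat_lit 202565) (nat_lit 0) .nil) .nil))))))) 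
(.nd (nat_lit 6) (.nd (nat_lit 7) (.nd (nat_lit 8) (.nd (nat_lit 9) 
(.lf (nat_lit 512032) (.g (nat_lit 1723) (.e (nat_lit 180225) (nat_lit 0) (.e (nat_lit 6255) (nat_lit 337) (.e (nat_lit 2630) (nat_lit 164) (.e (nat_lit 172095) (nat_lit 9) (.e (nat_lit 433920) (nat_lit 28) .nil))))) (.g (nat_lit 0) (.e (nat_lit 198846) (nat_lit 0) .nil) .nil))) 
(.lf (nat_lit 512544) (.g (nat_lit 1622) (.e (nat_lit 180245) (nat_lit 5) (.e (nat_lit 532549) (nat_lit 12) (.e (nat_lit 360473) (nat_lit 8) (.e (nat_lit 557089) (nat_lit 12) .nil)))) (.g (nat_lit 0) (.e (nat_lit 200969) (nat_lit 0) .nil) .nil)))) (.nd (nat_lit 9) 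
(.lf (nat_lit 512288) (.g (nat_lit 3971) (.e (nat_lit 180243) (nat_lit 5) (.e (nat_lit 532550) (nat_lit 12) (.e (nat_lit 360472) (nat_lit 8) (.e (nat_lit 557090) (nat_lit 12) (.e (nat_lit 163844) (nat_lit 0) .nil))))) (.g (nat_lit 0) (.e (nat_lit 200387) (nat_lit 0) .nil) .nil))) 
(.lf (nat_lit 512800) (.g (nat_lit 2966) (.e (nat_lit 180250) (nat_lit 10) (.e (nat_lit 573489) (nat_lit 14) (.e (nat_lit 73755) (nat_lit 8) (.e (nat_lit 557090) (nat_lit 12) (.e (nat_lit 171776) (nat_lit 0) .nil))))) (.g (nat_lit 0) (.e (nat_lit 201944) (nat_lit 0) .nil) .nil))))) (.nd (nat_lit 8) (.nd (nat_lit 9) 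
(.lf (nat_lit 512160) (.g (nat_lit 2782) (.e (nat_lit 180243) (nat_lit 5) (.e (nat_lit 532501) (nat_lit 1) (.e (nat_lit 57691) (nat_lit 156) (.e (nat_lit 163875) (nat_lit 3) (.e (nat_lit 204838) (nat_lit 20) (.e (nat_lit 114715) (nat_lit 22) (.e (nat_lit 90174) (nat_lit 14) .nil))))))) (.g (nat_lit 1) (.e (nat_lit 199950) (nat_lit 0) .nil) .nil))) 
(.lf (nat_lit 512672) (.g (nat_lit 3307) (.e (nat_lit 180250) (nat_lit 10) (.e (nat_lit 573471) (nat_lit 11) (.e (nat_lit 16446) (nat_lit 9) (.e (nat_lit 426124) (nat_lit 2) (.e (nat_lit 196677) (nat_lit 16) (.e (nat_lit 130816) (nat_lit 206) .nil)))))) (.g (nat_lit 1) (.e (nat_lit 201387) (nat_lit 0) .nil) .nil)))) (.nd (nat_lit 9) 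
(.lf (nat_lit 512416) (.g (nat_lit 3665) (.e (nat_lit 180244) (nat_lit 5) (.e (nat_lit 532535) (nat_lit 9) (.e (nat_lit 336176) (nat_lit 10) (.e (nat_lit 344133) (nat_lit 26) .nil)))) (.g (nat_lit 0) (.e (nat_lit 200713) (nat_lit 0) .nil) .nil))) 
(.lf (nat_lit 512928) (.g (nat_lit 3575) (.e (nat_lit 180251) (nat_lit 10) (.e (nat_lit 573489) (nat_lit 14) (.e (nat_lit 73755) (nat_lit 8) (.e (nat_lit 557090) (nat_lit 12) (.e (nat_lit 163840) (nat_lit 0) (.e (nat_lit 5954) (nat_lit 322) (.e (nat_lit 57371) (nat_lit 2) (.e (nat_lit 90174) (nat_lit 14) .nil)))))))) (.g (nat_lit 1) (.e (nat_lit 202533) (nat_lit 0) .nil) .nil)))))) 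
(.nd (nat_lit 7) (.nd (nat_lit 8) (.nd (nat_lit 9) 
(.lf (nat_lit 512096) (.g (nat_lit 4334) (.e (nat_lit 180242) (nat_lit 5) (.e (nat_lit 532550) (nat_lit 12) (.e (nat_lit 360474) (nat_lit 8) (.e (nat_lit 557093) (nat_lit 12) (.e (nat_lit 163853) (nat_lit 0) .nil))))) (.g (nat_lit 0) (.e (nat_lit 199852) (nat_lit 0) .nil) .nil))) 
(.lf (nat_lit 512608) (.g (nat_lit 1375) (.e (nat_lit 188160) (nat_lit 3) (.e (nat_lit 516198) (nat_lit 26) (.e (nat_lit 336086) (nat_lit 9) (.e (nat_lit 336450) (nat_lit 33) (.e (nat_lit 483072) (nat_lit 5) .nil))))) (.g (nat_lit 0) (.e (nat_lit 201076) (nat_lit 0) .nil) .nil)))) (.nd (nat_lit 9) 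
(.lf (nat_lit 512352) (.g (nat_lit 2201) (.e (nat_lit 180244) (nat_lit 5) (.e (nat_lit 532513) (nat_lit 3) (.e (nat_lit 114718) (nat_lit 23) (.e (nat_lit 98335) (nat_lit 18) (.e (nat_lit 164402) (nat_lit 256) .nil))))) (.g (nat_lit 0) (.e (nat_lit 200592) (nat_lit 0) .nil) .nil))) 
(.lf (nat_lit 512864) (.g (nat_lit 2405) (.e (nat_lit 180251) (nat_lit 10) (.e (nat_lit 573477) (nat_lit 12) (.e (nat_lit 57750) (nat_lit 201) (.e (nat_lit 3090) (nat_lit 191) (.e (nat_lit 483363) (nat_lit 18) (.e (nat_lit 57657) (nat_lit 152) (.e (nat_lit 7936) (nat_lit 165) .nil))))))) (.g (nat_lit 1) (.e (nat_lit 202158) (nat_lit 0) .nil) .nil))))) (.nd (nat_lit 8) (.nd (nat_lit 9) 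
(.lf (nat_lit 512224) (.g (nat_lit 3379) (.e (nat_lit 180243) (nat_lit 5) (.e (nat_lit 532523) (nat_lit 7) (.e (nat_lit 319530) (nat_lit 16) (.e (nat_lit 286735) (nat_lit 3) (.e (nat_lit 98325) (nat_lit 17) (.e (nat_lit 7936) (nat_lit 393) .nil)))))) (.g (nat_lit 1) (.e (nat_lit 200142) (nat_lit 0) .nil) .nil))) 
(.lf (nat_lit 512736) (.g (nat_lit 2263) (.e (nat_lit 180250) (nat_lit 10) (.e (nat_lit 573487) (nat_lit 14) (.e (nat_lit 73753) (nat_lit 8) (.e (nat_lit 557091) (nat_lit 12) (.e (nat_lit 163841) (nat_lit 0) .nil))))) (.g (nat_lit 0) (.e (nat_lit 201804) (nat_lit 0) .nil) .nil)))) (.nd (nat_lit 9) 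
(.lf (nat_lit 512480) (.g (nat_lit 3192) (.e (nat_lit 180244) (nat_lit 5) (.e (nat_lit 532569) (nat_lit 16) (.e (nat_lit 401434) (nat_lit 9) (.e (nat_lit 426140) (nat_lit 3) (.e (nat_lit 204821) (nat_lit 17) (.e (nat_lit 7936) (nat_lit 362) .nil)))))) (.g (nat_lit 1) (.e (nat_lit 200839) (nat_lit 0) .nil) .nil))) 
(.lf (nat_lit 512992) (.g (nat_lit 2481) (.e (nat_lit 180251) (nat_lit 10) (.e (nat_lit 573489) (nat_lit 14) (.e (nat_lit 73755) (nat_lit 8) (.e (nat_lit 557091) (nat_lit 12) (.e (nat_lit 163841) (nat_lit 0) (.e (nat_lit 5943) (nat_lit 322) (.e (nat_lit 57374) (nat_lit 2) (.e (nat_lit 90171) (nat_lit 14) .nil)))))))) (.g (nat_lit 1) (.e (nat_lit 202638) (nat_lit 0) .nil) .nil)))))))) 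
(.nd (nat_lit 5) (.nd (nat_lit 6) (.nd (nat_lit 7) (.nd (nat_lit 8) (.nd (nat_lit 9) 
(.lf (nat_lit 512016) (.g (nat_lit 1760) (.e (nat_lit 179968) (nat_lit 34) (.e (nat_lit 393284) (nat_lit 24) (.e (nat_lit 434233) (nat_lit 23) (.e (nat_lit 532503) (nat_lit 1) (.e (nat_lit 57667) (nat_lit 152) .nil))))) (.g (nat_lit 0) (.e (nat_lit 198764) (nat_lit 0) .nil) .nil))) 
(.lf (nat_lit 512528) (.g (nat_lit 2732) (.e (nat_lit 180245) (nat_lit 5) (.e (nat_lit 532523) (nat_lit 7) (.e (nat_lit 319530) (nat_lit 16) (.e (nat_lit 286735) (nat_lit 3) (.e (nat_lit 98323) (nat_lit 17) (.e (nat_lit 7936) (nat_lit 393) .nil)))))) (.g (nat_lit 1) (.e (nat_lit 200934) (nat_lit 0) .nil) .nil)))) (.nd (nat_lit 9) 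
(.lf (nat_lit 512272) (.g (nat_lit 3832) (.e (nat_lit 180243) (nat_lit 5) (.e (nat_lit 532549) (nat_lit 12) (.e (nat_lit 360475) (nat_lit 8) (.e (nat_lit 557089) (nat_lit 12) (.e (nat_lit 163850) (nat_lit 0) (.e (nat_lit 6273) (nat_lit 337) (.e (nat_lit 2635) (nat_lit 165) .nil))))))) (.g (nat_lit 1) (.e (nat_lit 200360) (nat_lit 0) .nil) .nil))) 
(.lf (nat_lit 512784) (.g (nat_lit 3621) (.e (nat_lit 180250) (nat_lit 10) (.e (nat_lit 573489) (nat_lit 14) (.e (nat_lit 73755) (nat_lit 8) (.e (nat_lit 557090) (nat_lit 12) (.e (nat_lit 163849) (nat_lit 0) (.e (nat_lit 5934) (nat_lit 322) (.e (nat_lit 57375) (nat_lit 2) (.e (nat_lit 90174) (nat_lit 14) .nil)))))))) (.g (nat_lit 1) (.e (nat_lit 201927) (nat_lit 0) .nil) .nil))))) 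
(.nd (nat_lit 8) (.nd (nat_lit 9) 
(.lf (nat_lit 512144) (.g (nat_lit 2049) (.e (nat_lit 180243) (nat_lit 5) (.e (nat_lit 532499) (nat_lit 1) (.e (nat_lit 57688) (nat_lit 156) (.e (nat_lit 163849) (nat_lit 0) .nil)))) (.g (nat_lit 0) (.e (nat_lit 199925) (nat_lit 0) .nil) .nil))) 
(.lf (nat_lit 512656) (.g (nat_lit 2967) (.e (nat_lit 180250) (nat_lit 10) (.e (nat_lit 573470) (nat_lit 11) (.e (nat_lit 16446) (nat_lit 9) (.e (nat_lit 426124) (nat_lit 2) (.e (nat_lit 196677) (nat_lit 16) (.e (nat_lit 130816) (nat_lit 206) .nil)))))) (.g (nat_lit 1) (.e (nat_lit 201345) (nat_lit 0) .nil) .nil)))) (.nd (nat_lit 9) 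
(.lf (nat_lit 512400) (.g (nat_lit 3348) (.e (nat_lit 180244) (nat_lit 5) (.e (nat_lit 532523) (nat_lit 7) (.e (nat_lit 319533) (nat_lit 16) (.e (nat_lit 286735) (nat_lit 3) (.e (nat_lit 98325) (nat_lit 17) (.e (nat_lit 7936) (nat_lit 393) .nil)))))) (.g (nat_lit 1) (.e (nat_lit 200657) (nat_lit 0) .nil) .nil))) 
(.lf (nat_lit 512912) (.g (nat_lit 2673) (.e (nat_lit 180251) (nat_lit 10) (.e (nat_lit 573489) (nat_lit 14) (.e (nat_lit 73755) (nat_lit 8) (.e (nat_lit 557089) (nat_lit 12) (.e (nat_lit 163844) (nat_lit 0) (.e (nat_lit 5940) (nat_lit 322) (.e (nat_lit 57371) (nat_lit 2) (.e (nat_lit 90174) (nat_lit 14) .nil)))))))) (.g (nat_lit 1) (.e (nat_lit 202504) (nat_lit 0) .nil) .nil)))))) 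
(.nd (nat_lit 7) (.nd (nat_lit 8) (.nd (nat_lit 9) 
(.lf (nat_lit 512080) (.g (nat_lit 1610) (.e (nat_lit 180242) (nat_lit 5) (.e (nat_lit 532522) (nat_lit 7) (.e (nat_lit 319531) (nat_lit 16) (.e (nat_lit 286735) (nat_lit 3) .nil)))) (.g (nat_lit 0) (.e (nat_lit 199819) (nat_lit 0) .nil) .nil))) 
(.lf (nat_lit 512592) (.g (nat_lit 4045) (.e (nat_lit 180246) (nat_lit 6) (.e (nat_lit 540706) (nat_lit 12) (.e (nat_lit 360475) (nat_lit 8) (.e (nat_lit 557089) (nat_lit 12) (.e (nat_lit 163850) (nat_lit 0) (.e (nat_lit 6273) (nat_lit 337) (.e (nat_lit 2635) (nat_lit 165) .nil))))))) (.g (nat_lit 1) (.e (nat_lit 201037) (nat_lit 0) .nil) .nil)))) (.nd (nat_lit 9) 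
(.lf (nat_lit 512336) (.g (nat_lit 1826) (.e (nat_lit 180243) (nat_lit 5) (.e (nat_lit 532579) (nat_lit 26) (.e (nat_lit 426107) (nat_lit 1) (.e (nat_lit 164347) (nat_lit 240) (.e (nat_lit 2617) (nat_lit 164) (.e (nat_lit 172127) (nat_lit 15) (.e (nat_lit 6723) (nat_lit 362) .nil))))))) (.g (nat_lit 1) (.e (nat_lit 200543) (nat_lit 0) .nil) .nil))) 
(.lf (nat_lit 512848) (.g (nat_lit 546) (.e (nat_lit 180251) (nat_lit 10) (.e (nat_lit 573469) (nat_lit 11) (.e (nat_lit 16442) (nat_lit 9) .nil))) (.g (nat_lit 0) (.e (nat_lit 202086) (nat_lit 0) .nil) .nil))))) (.nd (nat_lit 8) (.nd (nat_lit 9) 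
(.lf (nat_lit 512208) (.g (nat_lit 1628) (.e (nat_lit 180243) (nat_lit 5) (.e (nat_lit 532523) (nat_lit 7) (.e (nat_lit 319504) (nat_lit 10) (.e (nat_lit 5712) (nat_lit 312) (.e (nat_lit 2505) (nat_lit 157) .nil))))) (.g (nat_lit 0) (.e (nat_lit 200119) (nat_lit 0) .nil) .nil))) 
(.lf (nat_lit 512720) (.g (nat_lit 475) (.e (nat_lit 180250) (nat_lit 10) (.e (nat_lit 573481) (nat_lit 13) (.e (nat_lit 65568) (nat_lit 2) .nil))) (.g (nat_lit 0) (.e (nat_lit 201578) (nat_lit 0) .nil) .nil)))) (.nd (nat_lit 9) 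
(.lf (nat_lit 512464) (.g (nat_lit 3565) (.e (nat_lit 180244) (nat_lit 5) (.e (nat_lit 532550) (nat_lit 12) (.e (nat_lit 360475) (nat_lit 8) (.e (nat_lit 557091) (nat_lit 12) (.e (nat_lit 163840) (nat_lit 0) (.e (nat_lit 6273) (nat_lit 337) (.e (nat_lit 2635) (nat_lit 165) .nil))))))) (.g (nat_lit 1) (.e (nat_lit 200788) (nat_lit 0) .nil) .nil))) 
(.lf (nat_lit 512976) (.g (nat_lit 4030) (.e (nat_lit 180251) (nat_lit 10) (.e (nat_lit 573489) (nat_lit 14) (.e (nat_lit 73755) (nat_lit 8) (.e (nat_lit 557090) (nat_lit 12) (.e (nat_lit 163856) (nat_lit 0) (.e (nat_lit 5949) (nat_lit 322) (.e (nat_lit 57371) (nat_lit 2) (.e (nat_lit 90174) (nat_lit 14) .nil)))))))) (.g (nat_lit 1) (.e (nat_lit 202581) (nat_lit 0) .nil) .nil))))))) 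
(.nd (nat_lit 6) (.nd (nat_lit 7) (.nd (nat_lit 8) (.nd (nat_lit 9) 
(.lf (nat_lit 512048) (.g (nat_lit 1513) (.e (nat_lit 180227) (nat_lit 0) (.e (nat_lit 6420) (nat_lit 341) (.e (nat_lit 163902) (nat_lit 12) (.e (nat_lit 426131) (nat_lit 3) .nil)))) (.g (nat_lit 0) (.e (nat_lit 199327) (nat_lit 0) .nil) .nil))) 
(.lf (nat_lit 512560) (.g (nat_lit 4457) (.e (nat_lit 180245) (nat_lit 5) (.e (nat_lit 532550) (nat_lit 12) (.e (nat_lit 360475) (nat_lit 8) (.e (nat_lit 557091) (nat_lit 12) (.e (nat_lit 163852) (nat_lit 0) (.e (nat_lit 6273) (nat_lit 337) (.e (nat_lit 2635) (nat_lit 165) .nil))))))) (.g (nat_lit 1) (.e (nat_lit 200988) (nat_lit 0) .nil) .nil)))) (.nd (nat_lit 9) 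
(.lf (nat_lit 512304) (.g (nat_lit 3447) (.e (nat_lit 180243) (nat_lit 5) (.e (nat_lit 532550) (nat_lit 12) (.e (nat_lit 360475) (nat_lit 8) (.e (nat_lit 557091) (nat_lit 12) (.e (nat_lit 163840) (nat_lit 0) .nil))))) (.g (nat_lit 0) (.e (nat_lit 200407) (nat_lit 0) .nil) .nil))) 
(.lf (nat_lit 512816) (.g (nat_lit 2750) (.e (nat_lit 180250) (nat_lit 10) (.e (nat_lit 573489) (nat_lit 14) (.e (nat_lit 73755) (nat_lit 8) (.e (nat_lit 557119) (nat_lit 18) (.e (nat_lit 2795) (nat_lit 180) .nil))))) (.g (nat_lit 0) (.e (nat_lit 202005) (nat_lit 0) .nil) .nil))))) (.nd (nat_lit 8) (.nd (nat_lit 9) 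
(.lf (nat_lit 512176) (.g (nat_lit 2701) (.e (nat_lit 180243) (nat_lit 5) (.e (nat_lit 532504) (nat_lit 1) (.e (nat_lit 57691) (nat_lit 156) (.e (nat_lit 163875) (nat_lit 3) (.e (nat_lit 204836) (nat_lit 20) .nil))))) (.g (nat_lit 0) (.e (nat_lit 199979) (nat_lit 0) .nil) .nil))) 
(.lf (nat_lit 512688) (.g (nat_lit 2742) (.e (nat_lit 180250) (nat_lit 10) (.e (nat_lit 573471) (nat_lit 11) (.e (nat_lit 16454) (nat_lit 11) (.e (nat_lit 458789) (nat_lit 23) (.e (nat_lit 532481) (nat_lit 0) (.e (nat_lit 6724) (nat_lit 362) .nil)))))) (.g (nat_lit 1) (.e (nat_lit 201420) (nat_lit 0) .nil) .nil)))) (.nd (nat_lit 9) 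
(.lf (nat_lit 512432) (.g (nat_lit 2444) (.e (nat_lit 180244) (nat_lit 5) (.e (nat_lit 532549) (nat_lit 12) (.e (nat_lit 360475) (nat_lit 8) (.e (nat_lit 557091) (nat_lit 12) .nil)))) (.g (nat_lit 0) (.e (nat_lit 200746) (nat_lit 0) .nil) .nil))) 
(.lf (nat_lit 512944) (.g (nat_lit 3958) (.e (nat_lit 180251) (nat_lit 10) (.e (nat_lit 573489) (nat_lit 14) (.e (nat_lit 73755) (nat_lit 8) (.e (nat_lit 557090) (nat_lit 12) (.e (nat_lit 163847) (nat_lit 0) (.e (nat_lit 5945) (nat_lit 322) (.e (nat_lit 57373) (nat_lit 2) (.e (nat_lit 90174) (nat_lit 14) .nil)))))))) (.g (nat_lit 1) (.e (nat_lit 202549) (nat_lit 0) .nil) .nil)))))) 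
(.nd (nat_lit 7) (.nd (nat_lit 8) (.nd (nat_lit 9) 
(.lf (nat_lit 512112) (.g (nat_lit 3605) (.e (nat_lit 180242) (nat_lit 5) (.e (nat_lit 532550) (nat_lit 12) (.e (nat_lit 360475) (nat_lit 8) (.e (nat_lit 557091) (nat_lit 12) (.e (nat_lit 163847) (nat_lit 0) .nil))))) (.g (nat_lit 0) (.e (nat_lit 199872) (nat_lit 0) .nil) .nil))) 
(.lf (nat_lit 512624) (.g (nat_lit 1512) (.e (nat_lit 180249) (nat_lit 10) (.e (nat_lit 573488) (nat_lit 14) (.e (nat_lit 73755) (nat_lit 8) (.e (nat_lit 557090) (nat_lit 12) .nil)))) (.g (nat_lit 0) (.e (nat_lit 201205) (nat_lit 0) .nil) .nil)))) (.nd (nat_lit 9) 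
(.lf (nat_lit 512368) (.g (nat_lit 2150) (.e (nat_lit 180244) (nat_lit 5) (.e (nat_lit 532523) (nat_lit 7) (.e (nat_lit 319504) (nat_lit 10) (.e (nat_lit 5714) (nat_lit 312) (.e (nat_lit 2663) (nat_lit 167) .nil))))) (.g (nat_lit 0) (.e (nat_lit 200614) (nat_lit 0) .nil) .nil))) 
(.lf (nat_lit 512880) (.g (nat_lit 423) (.e (nat_lit 180251) (nat_lit 10) (.e (nat_lit 573489) (nat_lit 14) (.e (nat_lit 73731) (nat_lit 0) .nil))) (.g (nat_lit 0) (.e (nat_lit 202391) (nat_lit 0) .nil) .nil))))) (.nd (nat_lit 8) (.nd (nat_lit 9) 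
(.lf (nat_lit 512240) (.g (nat_lit 639) (.e (nat_lit 180243) (nat_lit 5) (.e (nat_lit 532523) (nat_lit 7) (.e (nat_lit 327424) (nat_lit 16) .nil))) (.g (nat_lit 0) (.e (nat_lit 200159) (nat_lit 0) .nil) .nil))) 
(.lf (nat_lit 512752) (.g (nat_lit 556) (.e (nat_lit 180250) (nat_lit 10) (.e (nat_lit 573489) (nat_lit 14) (.e (nat_lit 73748) (nat_lit 3) .nil))) (.g (nat_lit 0) (.e (nat_lit 201847) (nat_lit 0) .nil) .nil)))) (.nd (nat_lit 9) 
(.lf (nat_lit 512496) (.g (nat_lit 1499) (.e (nat_lit 180245) (nat_lit 5) (.e (nat_lit 532513) (nat_lit 3) (.e (nat_lit 114714) (nat_lit 22) (.e (nat_lit 90165) (nat_lit 12) .nil)))) (.g (nat_lit 0) (.e (nat_lit 200869) (nat_lit 0) .nil) .nil))) 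
(.lf (nat_lit 513008) (.g (nat_lit 2626) (.e (nat_lit 180251) (nat_lit 10) (.e (nat_lit 573489) (nat_lit 14) (.e (nat_lit 73755) (nat_lit 8) (.e (nat_lit 557091) (nat_lit 12) (.e (nat_lit 163851) (nat_lit 0) (.e (nat_lit 5934) (nat_lit 322) (.e (nat_lit 57371) (nat_lit 2) (.e (nat_lit 90174) (nat_lit 14) .nil)))))))) (.g (nat_lit 1) (.e (nat_lit 202654) (nat_lit 0) .nil) .nil))))))))) 
(.nd (nat_lit 4) (.nd (nat_lit 5) (.nd (nat_lit 6) (.nd (nat_lit 7) (.nd (nat_lit 8) 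
(.nd (nat_lit 9) 
(.lf (nat_lit 512008) (.g (nat_lit 2505) (.e (nat_lit 179968) (nat_lit 34) (.e (nat_lit 393282) (nat_lit 24) (.e (nat_lit 434231) (nat_lit 23) (.e (nat_lit 532500) (nat_lit 1) (.e (nat_lit 57651) (nat_lit 152) .nil))))) (.g (nat_lit 0) (.e (nat_lit 198756) (nat_lit 0) .nil) .nil))) 
(.lf (nat_lit 512520) (.g (nat_lit 3377) (.e (nat_lit 180245) (nat_lit 5) (.e (nat_lit 532523) (nat_lit 7) (.e (nat_lit 319538) (nat_lit 19) (.e (nat_lit 311312) (nat_lit 2) (.e (nat_lit 196661) (nat_lit 12) (.e (nat_lit 65280) (nat_lit 206) .nil)))))) (.g (nat_lit 1) (.e (nat_lit 200926) (nat_lit 0) .nil) .nil)))) (.nd (nat_lit 9) 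
(.lf (nat_lit 512264) (.g (nat_lit 2531) (.e (nat_lit 180243) (nat_lit 5) (.e (nat_lit 532549) (nat_lit 12) (.e (nat_lit 360474) (nat_lit 8) (.e (nat_lit 557091) (nat_lit 12) .nil)))) (.g (nat_lit 0) (.e (nat_lit 200349) (nat_lit 0) .nil) .nil))) 
(.lf (nat_lit 512776) (.g (nat_lit 3416) (.e (nat_lit 180250) (nat_lit 10) (.e (nat_lit 573489) (nat_lit 14) (.e (nat_lit 73755) (nat_lit 8) (.e (nat_lit 557090) (nat_lit 12) (.e (nat_lit 163845) (nat_lit 0) (.e (nat_lit 5941) (nat_lit 322) (.e (nat_lit 57373) (nat_lit 2) (.e (nat_lit 90174) (nat_lit 14) .nil)))))))) (.g (nat_lit 1) (.e (nat_lit 201919) (nat_lit 0) .nil) .nil))))) 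
(.nd (nat_lit 8) (.nd (nat_lit 9) 
(.lf (nat_lit 512136) (.g (nat_lit 2430) (.e (nat_lit 180243) (nat_lit 5) (.e (nat_lit 532482) (nat_lit 0) (.e (nat_lit 6724) (nat_lit 362) (.e (nat_lit 180243) (nat_lit 5) (.e (nat_lit 532484) (nat_lit 0) (.e (nat_lit 7936) (nat_lit 362) .nil)))))) (.g (nat_lit 1) (.e (nat_lit 199904) (nat_lit 0) .nil) .nil))) 
(.lf (nat_lit 512648) (.g (nat_lit 539) (.e (nat_lit 180250) (nat_lit 10) (.e (nat_lit 573469) (nat_lit 11) (.e (nat_lit 16445) (nat_lit 9) .nil))) (.g (nat_lit 0) (.e (nat_lit 201333) (nat_lit 0) .nil) .nil)))) (.nd (nat_lit 9) 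
(.lf (nat_lit 512392) (.g (nat_lit 2452) (.e (nat_lit 180244) (nat_lit 5) (.e (nat_lit 532523) (nat_lit 7) (.e (nat_lit 319532) (nat_lit 16) (.e (nat_lit 286735) (nat_lit 3) (.e (nat_lit 98323) (nat_lit 17) (.e (nat_lit 7936) (nat_lit 393) .nil)))))) (.g (nat_lit 1) (.e (nat_lit 200647) (nat_lit 0) .nil) .nil))) 
(.lf (nat_lit 512904) (.g (nat_lit 2906) (.e (nat_lit 180251) (nat_lit 10) (.e (nat_lit 573489) (nat_lit 14) (.e (nat_lit 73755) (nat_lit 8) (.e (nat_lit 557074) (nat_lit 9) (.e (nat_lit 2609) (nat_lit 163) (.e (nat_lit 164402) (nat_lit 256) (.e (nat_lit 57371) (nat_lit 2) (.e (nat_lit 90174) (nat_lit 14) .nil)))))))) (.g (nat_lit 1) (.e (nat_lit 202461) (nat_lit 0) .nil) .nil)))))) 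
(.nd (nat_lit 7) (.nd (nat_lit 8) (.nd (nat_lit 9) 
(.lf (nat_lit 512072) (.g (nat_lit 1166) (.e (nat_lit 188160) (nat_lit 1) (.e (nat_lit 499910) (nat_lit 8) (.e (nat_lit 164023) (nat_lit 46) (.e (nat_lit 704728) (nat_lit 10) .nil)))) (.g (nat_lit 0) (.e (nat_lit 199718) (nat_lit 0) .nil) .nil))) 
(.lf (nat_lit 512584) (.g (nat_lit 2248) (.e (nat_lit 180246) (nat_lit 6) (.e (nat_lit 540706) (nat_lit 12) (.e (nat_lit 360474) (nat_lit 8) (.e (nat_lit 557091) (nat_lit 12) .nil)))) (.g (nat_lit 0) (.e (nat_lit 201027) (nat_lit 0) .nil) .nil)))) (.nd (nat_lit 9) 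
(.lf (nat_lit 512328) (.g (nat_lit 1237) (.e (nat_lit 180243) (nat_lit 5) (.e (nat_lit 532569) (nat_lit 16) (.e (nat_lit 401448) (nat_lit 10) (.e (nat_lit 434227) (nat_lit 20) .nil)))) (.g (nat_lit 0) (.e (nat_lit 200534) (nat_lit 0) .nil) .nil))) 
(.lf (nat_lit 512840) (.g (nat_lit 2715) (.e (nat_lit 180251) (nat_lit 10) (.e (nat_lit 573456) (nat_lit 9) (.e (nat_lit 1669) (nat_lit 116) (.e (nat_lit 401459) (nat_lit 13) (.e (nat_lit 483364) (nat_lit 18) (.e (nat_lit 57651) (nat_lit 152) (.e (nat_lit 2640) (nat_lit 165) .nil))))))) (.g (nat_lit 1) (.e (nat_lit 202068) (nat_lit 0) .nil) .nil))))) (.nd (nat_lit 8) (.nd (nat_lit 9) 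
(.lf (nat_lit 512200) (.g (nat_lit 2371) (.e (nat_lit 180243) (nat_lit 5) (.e (nat_lit 532515) (nat_lit 3) (.e (nat_lit 114719) (nat_lit 23) (.e (nat_lit 98321) (nat_lit 17) (.e (nat_lit 2464) (nat_lit 157) .nil))))) (.g (nat_lit 0) (.e (nat_lit 200107) (nat_lit 0) .nil) .nil))) 
(.lf (nat_lit 512712) (.g (nat_lit 4364) (.e (nat_lit 180250) (nat_lit 10) (.e (nat_lit 573475) (nat_lit 12) (.e (nat_lit 57504) (nat_lit 38) (.e (nat_lit 638995) (nat_lit 7) (.e (nat_lit 163978) (nat_lit 30) (.e (nat_lit 573487) (nat_lit 14) (.e (nat_lit 73753) (nat_lit 8) (.e (nat_lit 557103) (nat_lit 14) .nil)))))))) (.g (nat_lit 1) (.e (nat_lit 201450) (nat_lit 0) .nil) .nil)))) 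
(.nd (nat_lit 9) 
(.lf (nat_lit 512456) (.g (nat_lit 4987) (.e (nat_lit 180244) (nat_lit 5) (.e (nat_lit 532550) (nat_lit 12) (.e (nat_lit 360475) (nat_lit 8) (.e (nat_lit 557089) (nat_lit 12) (.e (nat_lit 163850) (nat_lit 0) (.e (nat_lit 6273) (nat_lit 337) (.e (nat_lit 2635) (nat_lit 165) .nil))))))) (.g (nat_lit 1) (.e (nat_lit 200780) (nat_lit 0) .nil) .nil))) 
(.lf (nat_lit 512968) (.g (nat_lit 3912) (.e (nat_lit 180251) (nat_lit 10) (.e (nat_lit 573489) (nat_lit 14) (.e (nat_lit 73755) (nat_lit 8) (.e (nat_lit 557090) (nat_lit 12) (.e (nat_lit 163854) (nat_lit 0) (.e (nat_lit 5951) (nat_lit 322) (.e (nat_lit 57371) (nat_lit 2) (.e (nat_lit 90174) (nat_lit 14) .nil)))))))) (.g (nat_lit 1) (.e (nat_lit 202573) (nat_lit 0) .nil) .nil))))))) 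
(.nd (nat_lit 6) (.nd (nat_lit 7) (.nd (nat_lit 8) (.nd (nat_lit 9) 
(.lf (nat_lit 512040) (.g (nat_lit 777) (.e (nat_lit 180226) (nat_lit 0) (.e (nat_lit 6416) (nat_lit 341) (.e (nat_lit 163932) (nat_lit 17) (.e (nat_lit 474880) (nat_lit 15) .nil)))) (.g (nat_lit 0) (.e (nat_lit 199141) (nat_lit 0) .nil) .nil))) 
(.lf (nat_lit 512552) (.g (nat_lit 4143) (.e (nat_lit 180245) (nat_lit 5) (.e (nat_lit 532550) (nat_lit 12) (.e (nat_lit 360475) (nat_lit 8) (.e (nat_lit 557089) (nat_lit 12) .nil)))) (.g (nat_lit 0) (.e (nat_lit 200980) (nat_lit 0) .nil) .nil)))) (.nd (nat_lit 9) 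
(.lf (nat_lit 512296) (.g (nat_lit 3385) (.e (nat_lit 180243) (nat_lit 5) (.e (nat_lit 532550) (nat_lit 12) (.e (nat_lit 360474) (nat_lit 8) (.e (nat_lit 557094) (nat_lit 12) (.e (nat_lit 164016) (nat_lit 44) (.e (nat_lit 696064) (nat_lit 9) .nil)))))) (.g (nat_lit 1) (.e (nat_lit 200395) (nat_lit 0) .nil) .nil))) 
(.lf (nat_lit 512808) (.g (nat_lit 2569) (.e (nat_lit 180250) (nat_lit 10) (.e (nat_lit 573489) (nat_lit 14) (.e (nat_lit 73755) (nat_lit 8) (.e (nat_lit 557091) (nat_lit 12) (.e (nat_lit 163844) (nat_lit 0) .nil))))) (.g (nat_lit 0) (.e (nat_lit 201987) (nat_lit 0) .nil) .nil))))) (.nd (nat_lit 8) (.nd (nat_lit 9) 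
(.lf (nat_lit 512168) (.g (nat_lit 2209) (.e (nat_lit 180243) (nat_lit 5) (.e (nat_lit 532503) (nat_lit 1) (.e (nat_lit 57688) (nat_lit 156) (.e (nat_lit 163843) (nat_lit 0) (.e (nat_lit 3248) (nat_lit 197) .nil))))) (.g (nat_lit 0) (.e (nat_lit 199964) (nat_lit 0) .nil) .nil))) 
(.lf (nat_lit 512680) (.g (nat_lit 3950) (.e (nat_lit 180250) (nat_lit 10) (.e (nat_lit 573471) (nat_lit 11) (.e (nat_lit 16448) (nat_lit 10) (.e (nat_lit 434231) (nat_lit 23) (.e (nat_lit 532482) (nat_lit 0) (.e (nat_lit 6722) (nat_lit 362) .nil)))))) (.g (nat_lit 1) (.e (nat_lit 201401) (nat_lit 0) .nil) .nil)))) (.nd (nat_lit 9) 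
(.lf (nat_lit 512424) (.g (nat_lit 1691) (.e (nat_lit 180244) (nat_lit 5) (.e (nat_lit 532549) (nat_lit 12) (.e (nat_lit 360473) (nat_lit 8) (.e (nat_lit 557093) (nat_lit 12) .nil)))) (.g (nat_lit 0) (.e (nat_lit 200736) (nat_lit 0) .nil) .nil))) 
(.lf (nat_lit 512936) (.g (nat_lit 3622) (.e (nat_lit 180251) (nat_lit 10) (.e (nat_lit 573489) (nat_lit 14) (.e (nat_lit 73755) (nat_lit 8) (.e (nat_lit 557090) (nat_lit 12) (.e (nat_lit 163844) (nat_lit 0) (.e (nat_lit 5934) (nat_lit 322) (.e (nat_lit 57371) (nat_lit 2) (.e (nat_lit 90171) (nat_lit 14) .nil)))))))) (.g (nat_lit 1) (.e (nat_lit 202541) (nat_lit 0) .nil) .nil)))))) 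
(.nd (nat_lit 7) (.nd (nat_lit 8) (.nd (nat_lit 9) 
(.lf (nat_lit 512104) (.g (nat_lit 4247) (.e (nat_lit 180242) (nat_lit 5) (.e (nat_lit 532550) (nat_lit 12) (.e (nat_lit 360475) (nat_lit 8) (.e (nat_lit 557089) (nat_lit 12) (.e (nat_lit 163849) (nat_lit 0) .nil))))) (.g (nat_lit 0) (.e (nat_lit 199864) (nat_lit 0) .nil) .nil))) 
(.lf (nat_lit 512616) (.g (nat_lit 1012) (.e (nat_lit 180241) (nat_lit 4) (.e (nat_lit 524340) (nat_lit 28) (.e (nat_lit 352287) (nat_lit 20) (.e (nat_lit 2384) (nat_lit 155) (.e (nat_lit 811012) (nat_lit 0) (.e (nat_lit 5780) (nat_lit 317) .nil)))))) (.g (nat_lit 1) (.e (nat_lit 201087) (nat_lit 0) .nil) .nil)))) (.nd (nat_lit 9) 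
(.lf (nat_lit 512360) (.g (nat_lit 549) (.e (nat_lit 180244) (nat_lit 5) (.e (nat_lit 532522) (nat_lit 7) (.e (nat_lit 319539) (nat_lit 19) .nil))) (.g (nat_lit 0) (.e (nat_lit 200606) (nat_lit 0) .nil) .nil))) 
(.lf (nat_lit 512872) (.g (nat_lit 961) (.e (nat_lit 180251) (nat_lit 10) (.e (nat_lit 573484) (nat_lit 13) (.e (nat_lit 65568) (nat_lit 2) (.e (nat_lit 98048) (nat_lit 0) .nil)))) (.g (nat_lit 0) (.e (nat_lit 202282) (nat_lit 0) .nil) .nil))))) (.nd (nat_lit 8) (.nd (nat_lit 9) 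
(.lf (nat_lit 512232) (.g (nat_lit 3567) (.e (nat_lit 180243) (nat_lit 5) (.e (nat_lit 532523) (nat_lit 7) (.e (nat_lit 319533) (nat_lit 16) (.e (nat_lit 286735) (nat_lit 3) (.e (nat_lit 98325) (nat_lit 17) (.e (nat_lit 7936) (nat_lit 393) .nil)))))) (.g (nat_lit 1) (.e (nat_lit 200150) (nat_lit 0) .nil) .nil))) 
(.lf (nat_lit 512744) (.g (nat_lit 3305) (.e (nat_lit 180250) (nat_lit 10) (.e (nat_lit 573488) (nat_lit 14) (.e (nat_lit 73755) (nat_lit 8) (.e (nat_lit 557090) (nat_lit 12) (.e (nat_lit 163851) (nat_lit 0) .nil))))) (.g (nat_lit 0) (.e (nat_lit 201833) (nat_lit 0) .nil) .nil)))) (.nd (nat_lit 9) 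
(.lf (nat_lit 512488) (.g (nat_lit 2601) (.e (nat_lit 180244) (nat_lit 5) (.e (nat_lit 532569) (nat_lit 16) (.e (nat_lit 401448) (nat_lit 10) (.e (nat_lit 434223) (nat_lit 19) (.e (nat_lit 500056) (nat_lit 17) .nil))))) (.g (nat_lit 0) (.e (nat_lit 200849) (nat_lit 0) .nil) .nil))) 
(.lf (nat_lit 513000) (.g (nat_lit 2685) (.e (nat_lit 180251) (nat_lit 10) (.e (nat_lit 573489) (nat_lit 14) (.e (nat_lit 73755) (nat_lit 8) (.e (nat_lit 557091) (nat_lit 12) (.e (nat_lit 163844) (nat_lit 0) (.e (nat_lit 5941) (nat_lit 322) (.e (nat_lit 57371) (nat_lit 2) (.e (nat_lit 90174) (nat_lit 14) .nil)))))))) (.g (nat_lit 1) (.e (nat_lit 202646) (nat_lit 0) .nil) .nil)))))))) 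
(.nd (nat_lit 5) (.nd (nat_lit 6) (.nd (nat_lit 7) (.nd (nat_lit 8) (.nd (nat_lit 9) 
(.lf (nat_lit 512024) (.g (nat_lit 2195) (.e (nat_lit 179968) (nat_lit 34) (.e (nat_lit 393299) (nat_lit 27) (.e (nat_lit 491538) (nat_lit 3) (.e (nat_lit 98334) (nat_lit 18) (.e (nat_lit 164226) (nat_lit 181) .nil))))) (.g (nat_lit 0) (.e (nat_lit 198772) (nat_lit 0) .nil) .nil))) 
(.lf (nat_lit 512536) (.g (nat_lit 2705) (.e (nat_lit 180245) (nat_lit 5) (.e (nat_lit 532523) (nat_lit 7) (.e (nat_lit 319533) (nat_lit 16) (.e (nat_lit 286735) (nat_lit 3) (.e (nat_lit 98323) (nat_lit 17) .nil))))) (.g (nat_lit 0) (.e (nat_lit 200943) (nat_lit 0) .nil) .nil)))) (.nd (nat_lit 9) 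
(.lf (nat_lit 512280) (.g (nat_lit 3081) (.e (nat_lit 180243) (nat_lit 5) (.e (nat_lit 532549) (nat_lit 12) (.e (nat_lit 360475) (nat_lit 8) (.e (nat_lit 557091) (nat_lit 12) (.e (nat_lit 163847) (nat_lit 0) .nil))))) (.g (nat_lit 0) (.e (nat_lit 200371) (nat_lit 0) .nil) .nil))) 
(.lf (nat_lit 512792) (.g (nat_lit 3452) (.e (nat_lit 180250) (nat_lit 10) (.e (nat_lit 573489) (nat_lit 14) (.e (nat_lit 73755) (nat_lit 8) (.e (nat_lit 557090) (nat_lit 12) (.e (nat_lit 163851) (nat_lit 0) (.e (nat_lit 5951) (nat_lit 322) (.e (nat_lit 57373) (nat_lit 2) (.e (nat_lit 90174) (nat_lit 14) .nil)))))))) (.g (nat_lit 1) (.e (nat_lit 201935) (nat_lit 0) .nil) .nil))))) 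
(.nd (nat_lit 8) (.nd (nat_lit 9) 
(.lf (nat_lit 512152) (.g (nat_lit 4599) (.e (nat_lit 180243) (nat_lit 5) (.e (nat_lit 532499) (nat_lit 1) (.e (nat_lit 57692) (nat_lit 156) (.e (nat_lit 163874) (nat_lit 3) (.e (nat_lit 204838) (nat_lit 20) (.e (nat_lit 114716) (nat_lit 22) (.e (nat_lit 90174) (nat_lit 14) .nil))))))) (.g (nat_lit 1) (.e (nat_lit 199939) (nat_lit 0) .nil) .nil))) 
(.lf (nat_lit 512664) (.g (nat_lit 1147) (.e (nat_lit 180250) (nat_lit 10) (.e (nat_lit 573471) (nat_lit 11) (.e (nat_lit 16439) (nat_lit 9) (.e (nat_lit 426135) (nat_lit 3) .nil)))) (.g (nat_lit 0) (.e (nat_lit 201368) (nat_lit 0) .nil) .nil)))) (.nd (nat_lit 9) 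
(.lf (nat_lit 512408) (.g (nat_lit 3056) (.e (nat_lit 180244) (nat_lit 5) (.e (nat_lit 532523) (nat_lit 7) (.e (nat_lit 319534) (nat_lit 16) (.e (nat_lit 286735) (nat_lit 3) (.e (nat_lit 98320) (nat_lit 17) (.e (nat_lit 7388) (nat_lit 393) .nil)))))) (.g (nat_lit 1) (.e (nat_lit 200667) (nat_lit 0) .nil) .nil))) 
(.lf (nat_lit 512920) (.g (nat_lit 2118) (.e (nat_lit 180251) (nat_lit 10) (.e (nat_lit 573489) (nat_lit 14) (.e (nat_lit 73755) (nat_lit 8) (.e (nat_lit 557089) (nat_lit 12) (.e (nat_lit 164006) (nat_lit 41) .nil))))) (.g (nat_lit 0) (.e (nat_lit 202512) (nat_lit 0) .nil) .nil)))))) (.nd (nat_lit 7) (.nd (nat_lit 8) (.nd (nat_lit 9) 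
(.lf (nat_lit 512088) (.g (nat_lit 3367) (.e (nat_lit 180242) (nat_lit 5) (.e (nat_lit 532523) (nat_lit 7) (.e (nat_lit 319531) (nat_lit 16) (.e (nat_lit 286735) (nat_lit 3) (.e (nat_lit 98325) (nat_lit 17) (.e (nat_lit 7936) (nat_lit 393) .nil)))))) (.g (nat_lit 1) (.e (nat_lit 199830) (nat_lit 0) .nil) .nil))) 
(.lf (nat_lit 512600) (.g (nat_lit 4423) (.e (nat_lit 180246) (nat_lit 6) (.e (nat_lit 540706) (nat_lit 12) (.e (nat_lit 360475) (nat_lit 8) (.e (nat_lit 557091) (nat_lit 12) (.e (nat_lit 163850) (nat_lit 0) (.e (nat_lit 6273) (nat_lit 337) (.e (nat_lit 2635) (nat_lit 165) .nil))))))) (.g (nat_lit 1) (.e (nat_lit 201046) (nat_lit 0) .nil) .nil)))) (.nd (nat_lit 9) 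
(.lf (nat_lit 512344) (.g (nat_lit 3780) (.e (nat_lit 180244) (nat_lit 5) (.e (nat_lit 532486) (nat_lit 0) (.e (nat_lit 6113) (nat_lit 332) (.e (nat_lit 1374) (nat_lit 104) (.e (nat_lit 303117) (nat_lit 2) (.e (nat_lit 196661) (nat_lit 12) (.e (nat_lit 65280) (nat_lit 206) .nil))))))) (.g (nat_lit 1) (.e (nat_lit 200577) (nat_lit 0) .nil) .nil))) 
(.lf (nat_lit 512856) (.g (nat_lit 845) (.e (nat_lit 180251) (nat_lit 10) (.e (nat_lit 573471) (nat_lit 11) (.e (nat_lit 16439) (nat_lit 9) .nil))) (.g (nat_lit 0) (.e (nat_lit 202099) (nat_lit 0) .nil) .nil))))) (.nd (nat_lit 8) (.nd (nat_lit 9) 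
(.lf (nat_lit 512216) (.g (nat_lit 4075) (.e (nat_lit 180243) (nat_lit 5) (.e (nat_lit 532523) (nat_lit 7) (.e (nat_lit 319538) (nat_lit 19) (.e (nat_lit 311312) (nat_lit 2) (.e (nat_lit 196661) (nat_lit 12) (.e (nat_lit 65280) (nat_lit 206) .nil)))))) (.g (nat_lit 1) (.e (nat_lit 200134) (nat_lit 0) .nil) .nil))) 
(.lf (nat_lit 512728) (.g (nat_lit 418) (.e (nat_lit 180250) (nat_lit 10) (.e (nat_lit 573487) (nat_lit 14) (.e (nat_lit 73753) (nat_lit 8) .nil))) (.g (nat_lit 0) (.e (nat_lit 201762) (nat_lit 0) .nil) .nil)))) (.nd (nat_lit 9) 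
(.lf (nat_lit 512472) (.g (nat_lit 3498) (.e (nat_lit 180244) (nat_lit 5) (.e (nat_lit 532550) (nat_lit 12) (.e (nat_lit 360475) (nat_lit 8) (.e (nat_lit 557091) (nat_lit 12) (.e (nat_lit 164017) (nat_lit 44) (.e (nat_lit 696064) (nat_lit 9) .nil)))))) (.g (nat_lit 1) (.e (nat_lit 200798) (nat_lit 0) .nil) .nil))) 
(.lf (nat_lit 512984) (.g (nat_lit 3372) (.e (nat_lit 180251) (nat_lit 10) (.e (nat_lit 573489) (nat_lit 14) (.e (nat_lit 73755) (nat_lit 8) (.e (nat_lit 557090) (nat_lit 12) (.e (nat_lit 164010) (nat_lit 41) .nil))))) (.g (nat_lit 0) (.e (nat_lit 202595) (nat_lit 0) .nil) .nil))))))) (.nd (nat_lit 6) (.nd (nat_lit 7) (.nd (nat_lit 8) (.nd (nat_lit 9) 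
(.lf (nat_lit 512056) (.g (nat_lit 5676) (.e (nat_lit 180232) (nat_lit 0) (.e (nat_lit 5448) (nat_lit 306) (.e (nat_lit 2612) (nat_lit 163) (.e (nat_lit 163977) (nat_lit 30) (.e (nat_lit 573493) (nat_lit 15) (.e (nat_lit 81953) (nat_lit 22) (.e (nat_lit 90171) (nat_lit 14) .nil))))))) (.g (nat_lit 1) (.e (nat_lit 199631) (nat_lit 0) .nil) .nil))) 
(.lf (nat_lit 512568) (.g (nat_lit 3199) (.e (nat_lit 180245) (nat_lit 5) (.e (nat_lit 532569) (nat_lit 16) (.e (nat_lit 401448) (nat_lit 10) (.e (nat_lit 434231) (nat_lit 23) (.e (nat_lit 532481) (nat_lit 0) .nil))))) (.g (nat_lit 0) (.e (nat_lit 201006) (nat_lit 0) .nil) .nil)))) (.nd (nat_lit 9) 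
(.lf (nat_lit 512312) (.g (nat_lit 2588) (.e (nat_lit 180243) (nat_lit 5) (.e (nat_lit 532567) (nat_lit 16) (.e (nat_lit 401437) (nat_lit 9) (.e (nat_lit 426131) (nat_lit 3) (.e (nat_lit 204815) (nat_lit 17) .nil))))) (.g (nat_lit 0) (.e (nat_lit 200506) (nat_lit 0) .nil) .nil))) 
(.lf (nat_lit 512824) (.g (nat_lit 2212) (.e (nat_lit 180251) (nat_lit 10) (.e (nat_lit 573456) (nat_lit 9) (.e (nat_lit 1669) (nat_lit 116) (.e (nat_lit 401456) (nat_lit 13) (.e (nat_lit 483365) (nat_lit 18) .nil))))) (.g (nat_lit 0) (.e (nat_lit 202052) (nat_lit 0) .nil) .nil))))) (.nd (nat_lit 8) (.nd (nat_lit 9) 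
(.lf (nat_lit 512184) (.g (nat_lit 2257) (.e (nat_lit 180243) (nat_lit 5) (.e (nat_lit 532513) (nat_lit 3) (.e (nat_lit 114714) (nat_lit 22) (.e (nat_lit 90134) (nat_lit 9) (.e (nat_lit 2717) (nat_lit 171) .nil))))) (.g (nat_lit 0) (.e (nat_lit 200027) (nat_lit 0) .nil) .nil))) 
(.lf (nat_lit 512696) (.g (nat_lit 5970) (.e (nat_lit 180250) (nat_lit 10) (.e (nat_lit 573474) (nat_lit 12) (.e (nat_lit 57503) (nat_lit 38) (.e (nat_lit 638995) (nat_lit 7) (.e (nat_lit 163979) (nat_lit 30) (.e (nat_lit 573489) (nat_lit 14) (.e (nat_lit 73755) (nat_lit 8) (.e (nat_lit 557103) (nat_lit 14) .nil)))))))) (.g (nat_lit 1) (.e (nat_lit 201432) (nat_lit 0) .nil) .nil)))) 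
(.nd (nat_lit 9) 
(.lf (nat_lit 512440) (.g (nat_lit 3112) (.e (nat_lit 180244) (nat_lit 5) (.e (nat_lit 532550) (nat_lit 12) (.e (nat_lit 360472) (nat_lit 8) (.e (nat_lit 557090) (nat_lit 12) (.e (nat_lit 164020) (nat_lit 45) .nil))))) (.g (nat_lit 0) (.e (nat_lit 200758) (nat_lit 0) .nil) .nil))) 
(.lf (nat_lit 512952) (.g (nat_lit 3428) (.e (nat_lit 180251) (nat_lit 10) (.e (nat_lit 573489) (nat_lit 14) (.e (nat_lit 73755) (nat_lit 8) (.e (nat_lit 557090) (nat_lit 12) (.e (nat_lit 163850) (nat_lit 0) (.e (nat_lit 5950) (nat_lit 322) (.e (nat_lit 57371) (nat_lit 2) (.e (nat_lit 90174) (nat_lit 14) .nil)))))))) (.g (nat_lit 1) (.e (nat_lit 202557) (nat_lit 0) .nil) .nil)))))) 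
(.nd (nat_lit 7) (.nd (nat_lit 8) (.nd (nat_lit 9) 
(.lf (nat_lit 512120) (.g (nat_lit 2577) (.e (nat_lit 180242) (nat_lit 5) (.e (nat_lit 532569) (nat_lit 16) (.e (nat_lit 401448) (nat_lit 10) (.e (nat_lit 442112) (nat_lit 19) .nil)))) (.g (nat_lit 0) (.e (nat_lit 199883) (nat_lit 0) .nil) .nil))) 
(.lf (nat_lit 512632) (.g (nat_lit 3656) (.e (nat_lit 180250) (nat_lit 10) (.e (nat_lit 573456) (nat_lit 9) (.e (nat_lit 1669) (nat_lit 116) (.e (nat_lit 401459) (nat_lit 13) (.e (nat_lit 483363) (nat_lit 18) (.e (nat_lit 57655) (nat_lit 152) (.e (nat_lit 2636) (nat_lit 165) .nil))))))) (.g (nat_lit 1) (.e (nat_lit 201306) (nat_lit 0) .nil) .nil)))) (.nd (nat_lit 9) 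
(.lf (nat_lit 512376) (.g (nat_lit 4014) (.e (nat_lit 180244) (nat_lit 5) (.e (nat_lit 532523) (nat_lit 7) (.e (nat_lit 319538) (nat_lit 19) (.e (nat_lit 311312) (nat_lit 2) (.e (nat_lit 196661) (nat_lit 12) (.e (nat_lit 65280) (nat_lit 206) .nil)))))) (.g (nat_lit 1) (.e (nat_lit 200631) (nat_lit 0) .nil) .nil))) 
(.lf (nat_lit 512888) (.g (nat_lit 2523) (.e (nat_lit 180251) (nat_lit 10) (.e (nat_lit 573489) (nat_lit 14) (.e (nat_lit 73754) (nat_lit 8) (.e (nat_lit 557093) (nat_lit 12) (.e (nat_lit 163856) (nat_lit 0) (.e (nat_lit 5949) (nat_lit 322) (.e (nat_lit 57373) (nat_lit 2) (.e (nat_lit 90173) (nat_lit 14) .nil)))))))) (.g (nat_lit 1) (.e (nat_lit 202414) (nat_lit 0) .nil) .nil))))) 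
(.nd (nat_lit 8) (.nd (nat_lit 9) 
(.lf (nat_lit 512248) (.g (nat_lit 2610) (.e (nat_lit 180243) (nat_lit 5) (.e (nat_lit 532549) (nat_lit 12) (.e (nat_lit 360473) (nat_lit 8) (.e (nat_lit 557089) (nat_lit 12) (.e (nat_lit 164019) (nat_lit 45) .nil))))) (.g (nat_lit 0) (.e (nat_lit 200326) (nat_lit 0) .nil) .nil))) 
(.lf (nat_lit 512760) (.g (nat_lit 3068) (.e (nat_lit 180250) (nat_lit 10) (.e (nat_lit 573489) (nat_lit 14) (.e (nat_lit 73755) (nat_lit 8) (.e (nat_lit 557067) (nat_lit 9) (.e (nat_lit 2606) (nat_lit 163) (.e (nat_lit 164401) (nat_lit 256) (.e (nat_lit 57373) (nat_lit 2) (.e (nat_lit 90174) (nat_lit 14) .nil)))))))) (.g (nat_lit 1) (.e (nat_lit 201875) (nat_lit 0) .nil) .nil)))) 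
(.nd (nat_lit 9) 
(.lf (nat_lit 512504) (.g (nat_lit 2210) (.e (nat_lit 180245) (nat_lit 5) (.e (nat_lit 532515) (nat_lit 3) (.e (nat_lit 114719) (nat_lit 23) (.e (nat_lit 98334) (nat_lit 18) (.e (nat_lit 164396) (nat_lit 256) .nil))))) (.g (nat_lit 0) (.e (nat_lit 200901) (nat_lit 0) .nil) .nil))) 
(.lf (nat_lit 513016) (.g (nat_lit 2045) (.e (nat_lit 180251) (nat_lit 10) (.e (nat_lit 573489) (nat_lit 14) (.e (nat_lit 73755) (nat_lit 8) (.e (nat_lit 557091) (nat_lit 12) (.e (nat_lit 164007) (nat_lit 41) .nil))))) (.g (nat_lit 0) (.e (nat_lit 202674) (nat_lit 0) .nil) .nil)))))))))) 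
(.nd (nat_lit 3) (.nd (nat_lit 4) (.nd (nat_lit 5) (.nd (nat_lit 6) (.nd (nat_lit 7) 
(.nd (nat_lit 8) (.nd (nat_lit 9) 
(.lf (nat_lit 512004) (.g (nat_lit 1998) (.e (nat_lit 179968) (nat_lit 34) (.e (nat_lit 393271) (nat_lit 23) (.e (nat_lit 426131) (nat_lit 3) (.e (nat_lit 204830) (nat_lit 18) (.e (nat_lit 57651) (nat_lit 152) .nil))))) (.g (nat_lit 0) (.e (nat_lit 198752) (nat_lit 0) .nil) .nil))) 
(.lf (nat_lit 512516) (.g (nat_lit 2463) (.e (nat_lit 180245) (nat_lit 5) (.e (nat_lit 532523) (nat_lit 7) (.e (nat_lit 319505) (nat_lit 10) (.e (nat_lit 5714) (nat_lit 312) (.e (nat_lit 2682) (nat_lit 168) (.e (nat_lit 204815) (nat_lit 17) (.e (nat_lit 6724) (nat_lit 362) .nil))))))) (.g (nat_lit 1) (.e (nat_lit 200919) (nat_lit 0) .nil) .nil)))) (.nd (nat_lit 9) 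
(.lf (nat_lit 512260) (.g (nat_lit 4209) (.e (nat_lit 180243) (nat_lit 5) (.e (nat_lit 532549) (nat_lit 12) (.e (nat_lit 360473) (nat_lit 8) (.e (nat_lit 557093) (nat_lit 12) (.e (nat_lit 163849) (nat_lit 0) (.e (nat_lit 6255) (nat_lit 337) (.e (nat_lit 2643) (nat_lit 165) .nil))))))) (.g (nat_lit 1) (.e (nat_lit 200343) (nat_lit 0) .nil) .nil))) 
(.lf (nat_lit 512772) (.g (nat_lit 2839) (.e (nat_lit 180250) (nat_lit 10) (.e (nat_lit 573489) (nat_lit 14) (.e (nat_lit 73755) (nat_lit 8) (.e (nat_lit 557090) (nat_lit 12) (.e (nat_lit 163841) (nat_lit 0) .nil))))) (.g (nat_lit 0) (.e (nat_lit 201915) (nat_lit 0) .nil) .nil))))) (.nd (nat_lit 8) (.nd (nat_lit 9) 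
(.lf (nat_lit 512132) (.g (nat_lit 2408) (.e (nat_lit 180243) (nat_lit 5) (.e (nat_lit 532481) (nat_lit 0) (.e (nat_lit 6724) (nat_lit 362) (.e (nat_lit 180243) (nat_lit 5) (.e (nat_lit 532488) (nat_lit 0) (.e (nat_lit 7936) (nat_lit 362) .nil)))))) (.g (nat_lit 1) (.e (nat_lit 199899) (nat_lit 0) .nil) .nil))) 
(.lf (nat_lit 512644) (.g (nat_lit 3687) (.e (nat_lit 180250) (nat_lit 10) (.e (nat_lit 573456) (nat_lit 9) (.e (nat_lit 1669) (nat_lit 116) (.e (nat_lit 401459) (nat_lit 13) (.e (nat_lit 483364) (nat_lit 18) (.e (nat_lit 57665) (nat_lit 152) (.e (nat_lit 7936) (nat_lit 165) .nil))))))) (.g (nat_lit 1) (.e (nat_lit 201318) (nat_lit 0) .nil) .nil)))) (.nd (nat_lit 9) 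
(.lf (nat_lit 512388) (.g (nat_lit 2906) (.e (nat_lit 180244) (nat_lit 5) (.e (nat_lit 532523) (nat_lit 7) (.e (nat_lit 319531) (nat_lit 16) (.e (nat_lit 286735) (nat_lit 3) (.e (nat_lit 98320) (nat_lit 17) (.e (nat_lit 7388) (nat_lit 393) .nil)))))) (.g (nat_lit 1) (.e (nat_lit 200643) (nat_lit 0) .nil) .nil))) 
(.lf (nat_lit 512900) (.g (nat_lit 3668) (.e (nat_lit 180251) (nat_lit 10) (.e (nat_lit 573489) (nat_lit 14) (.e (nat_lit 73755) (nat_lit 8) (.e (nat_lit 557067) (nat_lit 9) (.e (nat_lit 2603) (nat_lit 163) (.e (nat_lit 164402) (nat_lit 256) (.e (nat_lit 57373) (nat_lit 2) (.e (nat_lit 90174) (nat_lit 14) .nil)))))))) (.g (nat_lit 1) (.e (nat_lit 202455) (nat_lit 0) .nil) .nil)))))) 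
(.nd (nat_lit 7) (.nd (nat_lit 8) (.nd (nat_lit 9) 
(.lf (nat_lit 512068) (.g (nat_lit 1951) (.e (nat_lit 188160) (nat_lit 1) (.e (nat_lit 499900) (nat_lit 7) (.e (nat_lit 24625) (nat_lit 9) (.e (nat_lit 336446) (nat_lit 33) (.e (nat_lit 483072) (nat_lit 5) .nil))))) (.g (nat_lit 0) (.e (nat_lit 199704) (nat_lit 0) .nil) .nil))) 
(.lf (nat_lit 512580) (.g (nat_lit 2500) (.e (nat_lit 188160) (nat_lit 5) (.e (nat_lit 532569) (nat_lit 16) (.e (nat_lit 401448) (nat_lit 10) (.e (nat_lit 434227) (nat_lit 20) (.e (nat_lit 507929) (nat_lit 10) .nil))))) (.g (nat_lit 0) (.e (nat_lit 201023) (nat_lit 0) .nil) .nil)))) (.nd (nat_lit 9) 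
(.lf (nat_lit 512324) (.g (nat_lit 2221) (.e (nat_lit 180243) (nat_lit 5) (.e (nat_lit 532569) (nat_lit 16) (.e (nat_lit 401448) (nat_lit 10) (.e (nat_lit 434217) (nat_lit 19) .nil)))) (.g (nat_lit 0) (.e (nat_lit 200530) (nat_lit 0) .nil) .nil))) 
(.lf (nat_lit 512836) (.g (nat_lit 2991) (.e (nat_lit 180251) (nat_lit 10) (.e (nat_lit 573456) (nat_lit 9) (.e (nat_lit 1669) (nat_lit 116) (.e (nat_lit 401459) (nat_lit 13) (.e (nat_lit 483363) (nat_lit 18) (.e (nat_lit 57664) (nat_lit 152) (.e (nat_lit 7936) (nat_lit 165) .nil))))))) (.g (nat_lit 1) (.e (nat_lit 202064) (nat_lit 0) .nil) .nil))))) (.nd (nat_lit 8) (.nd (nat_lit 9) 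
(.lf (nat_lit 512196) (.g (nat_lit 2613) (.e (nat_lit 180243) (nat_lit 5) (.e (nat_lit 532513) (nat_lit 3) (.e (nat_lit 114719) (nat_lit 23) (.e (nat_lit 98334) (nat_lit 18) (.e (nat_lit 164402) (nat_lit 256) .nil))))) (.g (nat_lit 0) (.e (nat_lit 200072) (nat_lit 0) .nil) .nil))) 
(.lf (nat_lit 512708) (.g (nat_lit 3980) (.e (nat_lit 180250) (nat_lit 10) (.e (nat_lit 573474) (nat_lit 12) (.e (nat_lit 57572) (nat_lit 54) (.e (nat_lit 770072) (nat_lit 8) (.e (nat_lit 65571) (nat_lit 3) (.e (nat_lit 98323) (nat_lit 17) (.e (nat_lit 7936) (nat_lit 393) .nil))))))) (.g (nat_lit 1) (.e (nat_lit 201444) (nat_lit 0) .nil) .nil)))) (.nd (nat_lit 9) 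
(.lf (nat_lit 512452) (.g (nat_lit 503) (.e (nat_lit 180244) (nat_lit 5) (.e (nat_lit 532550) (nat_lit 12) (.e (nat_lit 360475) (nat_lit 8) .nil))) (.g (nat_lit 0) (.e (nat_lit 200770) (nat_lit 0) .nil) .nil))) 
(.lf (nat_lit 512964) (.g (nat_lit 3972) (.e (nat_lit 180251) (nat_lit 10) (.e (nat_lit 573489) (nat_lit 14) (.e (nat_lit 73755) (nat_lit 8) (.e (nat_lit 557090) (nat_lit 12) (.e (nat_lit 163852) (nat_lit 0) (.e (nat_lit 5950) (nat_lit 322) (.e (nat_lit 57371) (nat_lit 2) (.e (nat_lit 90174) (nat_lit 14) .nil)))))))) (.g (nat_lit 1) (.e (nat_lit 202569) (nat_lit 0) .nil) .nil))))))) 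
(.nd (nat_lit 6) (.nd (nat_lit 7) (.nd (nat_lit 8) (.nd (nat_lit 9) 
(.lf (nat_lit 512036) (.g (nat_lit 1291) (.e (nat_lit 180225) (nat_lit 0) (.e (nat_lit 6420) (nat_lit 341) (.e (nat_lit 163902) (nat_lit 12) (.e (nat_lit 426233) (nat_lit 9) .nil)))) (.g (nat_lit 0) (.e (nat_lit 198951) (nat_lit 0) .nil) .nil))) 
(.lf (nat_lit 512548) (.g (nat_lit 5349) (.e (nat_lit 180245) (nat_lit 5) (.e (nat_lit 532550) (nat_lit 12) (.e (nat_lit 360474) (nat_lit 8) (.e (nat_lit 557089) (nat_lit 12) .nil)))) (.g (nat_lit 0) (.e (nat_lit 200973) (nat_lit 0) .nil) .nil)))) (.nd (nat_lit 9) 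
(.lf (nat_lit 512292) (.g (nat_lit 4816) (.e (nat_lit 180243) (nat_lit 5) (.e (nat_lit 532550) (nat_lit 12) (.e (nat_lit 360474) (nat_lit 8) (.e (nat_lit 557093) (nat_lit 12) (.e (nat_lit 163848) (nat_lit 0) (.e (nat_lit 6252) (nat_lit 337) (.e (nat_lit 2643) (nat_lit 165) .nil))))))) (.g (nat_lit 1) (.e (nat_lit 200391) (nat_lit 0) .nil) .nil))) 
(.lf (nat_lit 512804) (.g (nat_lit 2443) (.e (nat_lit 180250) (nat_lit 10) (.e (nat_lit 573489) (nat_lit 14) (.e (nat_lit 73755) (nat_lit 8) (.e (nat_lit 557090) (nat_lit 12) (.e (nat_lit 164007) (nat_lit 41) .nil))))) (.g (nat_lit 0) (.e (nat_lit 201949) (nat_lit 0) .nil) .nil))))) (.nd (nat_lit 8) (.nd (nat_lit 9) 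
(.lf (nat_lit 512164) (.g (nat_lit 770) (.e (nat_lit 180243) (nat_lit 5) (.e (nat_lit 532501) (nat_lit 1) (.e (nat_lit 57761) (nat_lit 215) .nil))) (.g (nat_lit 0) (.e (nat_lit 199958) (nat_lit 0) .nil) .nil))) 
(.lf (nat_lit 512676) (.g (nat_lit 2321) (.e (nat_lit 180250) (nat_lit 10) (.e (nat_lit 573471) (nat_lit 11) (.e (nat_lit 16448) (nat_lit 10) (.e (nat_lit 434220) (nat_lit 19) .nil)))) (.g (nat_lit 0) (.e (nat_lit 201392) (nat_lit 0) .nil) .nil)))) (.nd (nat_lit 9) 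
(.lf (nat_lit 512420) (.g (nat_lit 2645) (.e (nat_lit 180244) (nat_lit 5) (.e (nat_lit 532549) (nat_lit 12) (.e (nat_lit 360473) (nat_lit 8) (.e (nat_lit 557091) (nat_lit 12) (.e (nat_lit 163843) (nat_lit 0) .nil))))) (.g (nat_lit 0) (.e (nat_lit 200732) (nat_lit 0) .nil) .nil))) 
(.lf (nat_lit 512932) (.g (nat_lit 3654) (.e (nat_lit 180251) (nat_lit 10) (.e (nat_lit 573489) (nat_lit 14) (.e (nat_lit 73755) (nat_lit 8) (.e (nat_lit 557090) (nat_lit 12) (.e (nat_lit 163843) (nat_lit 0) (.e (nat_lit 5940) (nat_lit 322) (.e (nat_lit 57371) (nat_lit 2) (.e (nat_lit 90171) (nat_lit 14) .nil)))))))) (.g (nat_lit 1) (.e (nat_lit 202537) (nat_lit 0) .nil) .nil)))))) 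
(.nd (nat_lit 7) (.nd (nat_lit 8) (.nd (nat_lit 9) 
(.lf (nat_lit 512100) (.g (nat_lit 4033) (.e (nat_lit 180242) (nat_lit 5) (.e (nat_lit 532550) (nat_lit 12) (.e (nat_lit 360474) (nat_lit 8) (.e (nat_lit 557094) (nat_lit 12) (.e (nat_lit 164016) (nat_lit 44) .nil))))) (.g (nat_lit 0) (.e (nat_lit 199856) (nat_lit 0) .nil) .nil))) 
(.lf (nat_lit 512612) (.g (nat_lit 382) (.e (nat_lit 180241) (nat_lit 4) (.e (nat_lit 524340) (nat_lit 28) (.e (nat_lit 352286) (nat_lit 20) (.e (nat_lit 2383) (nat_lit 155) (.e (nat_lit 811012) (nat_lit 0) .nil))))) (.g (nat_lit 0) (.e (nat_lit 201083) (nat_lit 0) .nil) .nil)))) (.nd (nat_lit 9) 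
(.lf (nat_lit 512356) (.g (nat_lit 1974) (.e (nat_lit 180244) (nat_lit 5) (.e (nat_lit 532515) (nat_lit 3) (.e (nat_lit 114719) (nat_lit 23) (.e (nat_lit 98333) (nat_lit 18) (.e (nat_lit 164398) (nat_lit 256) .nil))))) (.g (nat_lit 0) (.e (nat_lit 200600) (nat_lit 0) .nil) .nil))) 
(.lf (nat_lit 512868) (.g (nat_lit 3374) (.e (nat_lit 180251) (nat_lit 10) (.e (nat_lit 573477) (nat_lit 12) (.e (nat_lit 57750) (nat_lit 201) (.e (nat_lit 3090) (nat_lit 191) (.e (nat_lit 483364) (nat_lit 18) (.e (nat_lit 57665) (nat_lit 152) (.e (nat_lit 7936) (nat_lit 165) .nil))))))) (.g (nat_lit 1) (.e (nat_lit 202167) (nat_lit 0) .nil) .nil))))) (.nd (nat_lit 8) (.nd (nat_lit 9) 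
(.lf (nat_lit 512228) (.g (nat_lit 1434) (.e (nat_lit 180243) (nat_lit 5) (.e (nat_lit 532523) (nat_lit 7) (.e (nat_lit 319533) (nat_lit 16) (.e (nat_lit 286734) (nat_lit 3) .nil)))) (.g (nat_lit 0) (.e (nat_lit 200146) (nat_lit 0) .nil) .nil))) 
(.lf (nat_lit 512740) (.g (nat_lit 3229) (.e (nat_lit 180250) (nat_lit 10) (.e (nat_lit 573488) (nat_lit 14) (.e (nat_lit 73755) (nat_lit 8) (.e (nat_lit 557089) (nat_lit 12) (.e (nat_lit 164010) (nat_lit 41) .nil))))) (.g (nat_lit 0) (.e (nat_lit 201829) (nat_lit 0) .nil) .nil)))) (.nd (nat_lit 9) 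
(.lf (nat_lit 512484) (.g (nat_lit 2957) (.e (nat_lit 180244) (nat_lit 5) (.e (nat_lit 532569) (nat_lit 16) (.e (nat_lit 401446) (nat_lit 10) (.e (nat_lit 434231) (nat_lit 23) (.e (nat_lit 532490) (nat_lit 0) (.e (nat_lit 7936) (nat_lit 362) .nil)))))) (.g (nat_lit 1) (.e (nat_lit 200845) (nat_lit 0) .nil) .nil))) 
(.lf (nat_lit 512996) (.g (nat_lit 3869) (.e (nat_lit 180251) (nat_lit 10) (.e (nat_lit 573489) (nat_lit 14) (.e (nat_lit 73755) (nat_lit 8) (.e (nat_lit 557091) (nat_lit 12) (.e (nat_lit 163843) (nat_lit 0) (.e (nat_lit 5940) (nat_lit 322) (.e (nat_lit 57375) (nat_lit 2) (.e (nat_lit 90174) (nat_lit 14) .nil)))))))) (.g (nat_lit 1) (.e (nat_lit 202642) (nat_lit 0) .nil) .nil)))))))) 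
(.nd (nat_lit 5) (.nd (nat_lit 6) (.nd (nat_lit 7) (.nd (nat_lit 8) (.nd (nat_lit 9) 
(.lf (nat_lit 512020) (.g (nat_lit 1753) (.e (nat_lit 179968) (nat_lit 34) (.e (nat_lit 393287) (nat_lit 25) (.e (nat_lit 458789) (nat_lit 23) (.e (nat_lit 532499) (nat_lit 1) (.e (nat_lit 57653) (nat_lit 152) .nil))))) (.g (nat_lit 0) (.e (nat_lit 198768) (nat_lit 0) .nil) .nil))) 
(.lf (nat_lit 512532) (.g (nat_lit 3086) (.e (nat_lit 180245) (nat_lit 5) (.e (nat_lit 532523) (nat_lit 7) (.e (nat_lit 319531) (nat_lit 16) (.e (nat_lit 286735) (nat_lit 3) (.e (nat_lit 98325) (nat_lit 17) (.e (nat_lit 7936) (nat_lit 393) .nil)))))) (.g (nat_lit 1) (.e (nat_lit 200938) (nat_lit 0) .nil) .nil)))) (.nd (nat_lit 9) 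
(.lf (nat_lit 512276) (.g (nat_lit 3336) (.e (nat_lit 180243) (nat_lit 5) (.e (nat_lit 532549) (nat_lit 12) (.e (nat_lit 360475) (nat_lit 8) (.e (nat_lit 557091) (nat_lit 12) (.e (nat_lit 163840) (nat_lit 0) .nil))))) (.g (nat_lit 0) (.e (nat_lit 200365) (nat_lit 0) .nil) .nil))) 
(.lf (nat_lit 512788) (.g (nat_lit 3547) (.e (nat_lit 180250) (nat_lit 10) (.e (nat_lit 573489) (nat_lit 14) (.e (nat_lit 73755) (nat_lit 8) (.e (nat_lit 557090) (nat_lit 12) (.e (nat_lit 163851) (nat_lit 0) (.e (nat_lit 5938) (nat_lit 322) (.e (nat_lit 57372) (nat_lit 2) (.e (nat_lit 90174) (nat_lit 14) .nil)))))))) (.g (nat_lit 1) (.e (nat_lit 201931) (nat_lit 0) .nil) .nil))))) 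
(.nd (nat_lit 8) (.nd (nat_lit 9) 
(.lf (nat_lit 512148) (.g (nat_lit 5329) (.e (nat_lit 180243) (nat_lit 5) (.e (nat_lit 532499) (nat_lit 1) (.e (nat_lit 57688) (nat_lit 156) (.e (nat_lit 163874) (nat_lit 3) (.e (nat_lit 204838) (nat_lit 20) (.e (nat_lit 114716) (nat_lit 22) (.e (nat_lit 90174) (nat_lit 14) .nil))))))) (.g (nat_lit 1) (.e (nat_lit 199929) (nat_lit 0) .nil) .nil))) 
(.lf (nat_lit 512660) (.g (nat_lit 1868) (.e (nat_lit 180250) (nat_lit 10) (.e (nat_lit 573471) (nat_lit 11) (.e (nat_lit 16433) (nat_lit 9) (.e (nat_lit 426091) (nat_lit 0) (.e (nat_lit 3238) (nat_lit 197) .nil))))) (.g (nat_lit 0) (.e (nat_lit 201358) (nat_lit 0) .nil) .nil)))) (.nd (nat_lit 9) 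
(.lf (nat_lit 512404) (.g (nat_lit 3014) (.e (nat_lit 180244) (nat_lit 5) (.e (nat_lit 532523) (nat_lit 7) (.e (nat_lit 319534) (nat_lit 16) (.e (nat_lit 286734) (nat_lit 3) (.e (nat_lit 98320) (nat_lit 17) .nil))))) (.g (nat_lit 0) (.e (nat_lit 200663) (nat_lit 0) .nil) .nil))) 
(.lf (nat_lit 512916) (.g (nat_lit 2322) (.e (nat_lit 180251) (nat_lit 10) (.e (nat_lit 573489) (nat_lit 14) (.e (nat_lit 73755) (nat_lit 8) (.e (nat_lit 557089) (nat_lit 12) (.e (nat_lit 163848) (nat_lit 0) .nil))))) (.g (nat_lit 0) (.e (nat_lit 202508) (nat_lit 0) .nil) .nil)))))) (.nd (nat_lit 7) (.nd (nat_lit 8) (.nd (nat_lit 9) 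
(.lf (nat_lit 512084) (.g (nat_lit 638) (.e (nat_lit 180242) (nat_lit 5) (.e (nat_lit 532523) (nat_lit 7) (.e (nat_lit 319528) (nat_lit 16) .nil))) (.g (nat_lit 0) (.e (nat_lit 199826) (nat_lit 0) .nil) .nil))) 
(.lf (nat_lit 512596) (.g (nat_lit 3312) (.e (nat_lit 180246) (nat_lit 6) (.e (nat_lit 540706) (nat_lit 12) (.e (nat_lit 360475) (nat_lit 8) (.e (nat_lit 557091) (nat_lit 12) (.e (nat_lit 163843) (nat_lit 0) .nil))))) (.g (nat_lit 0) (.e (nat_lit 201042) (nat_lit 0) .nil) .nil)))) (.nd (nat_lit 9) 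
(.lf (nat_lit 512340) (.g (nat_lit 826) (.e (nat_lit 180244) (nat_lit 5) (.e (nat_lit 532482) (nat_lit 0) (.e (nat_lit 6724) (nat_lit 362) (.e (nat_lit 188160) (nat_lit 1) .nil)))) (.g (nat_lit 0) (.e (nat_lit 200572) (nat_lit 0) .nil) .nil))) 
(.lf (nat_lit 512852) (.g (nat_lit 2070) (.e (nat_lit 180251) (nat_lit 10) (.e (nat_lit 573469) (nat_lit 11) (.e (nat_lit 16452) (nat_lit 11) (.e (nat_lit 458789) (nat_lit 23) (.e (nat_lit 532482) (nat_lit 0) (.e (nat_lit 6722) (nat_lit 362) .nil)))))) (.g (nat_lit 1) (.e (nat_lit 202092) (nat_lit 0) .nil) .nil))))) (.nd (nat_lit 8) (.nd (nat_lit 9) 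
(.lf (nat_lit 512212) (.g (nat_lit 2880) (.e (nat_lit 180243) (nat_lit 5) (.e (nat_lit 532523) (nat_lit 7) (.e (nat_lit 319505) (nat_lit 10) (.e (nat_lit 5714) (nat_lit 312) (.e (nat_lit 2682) (nat_lit 168) (.e (nat_lit 204816) (nat_lit 17) (.e (nat_lit 6724) (nat_lit 362) .nil))))))) (.g (nat_lit 1) (.e (nat_lit 200127) (nat_lit 0) .nil) .nil))) 
(.lf (nat_lit 512724) (.g (nat_lit 550) (.e (nat_lit 180250) (nat_lit 10) (.e (nat_lit 573484) (nat_lit 13) (.e (nat_lit 65553) (nat_lit 0) .nil))) (.g (nat_lit 0) (.e (nat_lit 201661) (nat_lit 0) .nil) .nil)))) (.nd (nat_lit 9) 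
(.lf (nat_lit 512468) (.g (nat_lit 3845) (.e (nat_lit 180244) (nat_lit 5) (.e (nat_lit 532550) (nat_lit 12) (.e (nat_lit 360475) (nat_lit 8) (.e (nat_lit 557091) (nat_lit 12) (.e (nat_lit 163849) (nat_lit 0) (.e (nat_lit 6252) (nat_lit 337) (.e (nat_lit 2641) (nat_lit 165) .nil))))))) (.g (nat_lit 1) (.e (nat_lit 200794) (nat_lit 0) .nil) .nil))) 
(.lf (nat_lit 512980) (.g (nat_lit 3192) (.e (nat_lit 180251) (nat_lit 10) (.e (nat_lit 573489) (nat_lit 14) (.e (nat_lit 73755) (nat_lit 8) (.e (nat_lit 557090) (nat_lit 12) (.e (nat_lit 164005) (nat_lit 41) .nil))))) (.g (nat_lit 0) (.e (nat_lit 202587) (nat_lit 0) .nil) .nil))))))) (.nd (nat_lit 6) (.nd (nat_lit 7) (.nd (nat_lit 8) (.nd (nat_lit 9) 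
(.lf (nat_lit 512052) (.g (nat_lit 1158) (.e (nat_lit 180229) (nat_lit 0) (.e (nat_lit 6426) (nat_lit 342) (.e (nat_lit 229412) (nat_lit 14) (.e (nat_lit 450304) (nat_lit 15) .nil)))) (.g (nat_lit 0) (.e (nat_lit 199600) (nat_lit 0) .nil) .nil))) 
(.lf (nat_lit 512564) (.g (nat_lit 2948) (.e (nat_lit 180245) (nat_lit 5) (.e (nat_lit 532569) (nat_lit 16) (.e (nat_lit 401446) (nat_lit 10) (.e (nat_lit 434231) (nat_lit 23) (.e (nat_lit 532481) (nat_lit 0) .nil))))) (.g (nat_lit 0) (.e (nat_lit 201002) (nat_lit 0) .nil) .nil)))) (.nd (nat_lit 9) 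
(.lf (nat_lit 512308) (.g (nat_lit 3612) (.e (nat_lit 180243) (nat_lit 5) (.e (nat_lit 532550) (nat_lit 12) (.e (nat_lit 360475) (nat_lit 8) (.e (nat_lit 557091) (nat_lit 12) (.e (nat_lit 163852) (nat_lit 0) (.e (nat_lit 6273) (nat_lit 337) (.e (nat_lit 2636) (nat_lit 165) .nil))))))) (.g (nat_lit 1) (.e (nat_lit 200411) (nat_lit 0) .nil) .nil))) 
(.lf (nat_lit 512820) (.g (nat_lit 2294) (.e (nat_lit 180250) (nat_lit 10) (.e (nat_lit 573503) (nat_lit 18) (.e (nat_lit 1348) (nat_lit 102) (.e (nat_lit 286761) (nat_lit 13) (.e (nat_lit 393216) (nat_lit 0) .nil))))) (.g (nat_lit 0) (.e (nat_lit 202018) (nat_lit 0) .nil) .nil))))) (.nd (nat_lit 8) (.nd (nat_lit 9) 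
(.lf (nat_lit 512180) (.g (nat_lit 2159) (.e (nat_lit 180243) (nat_lit 5) (.e (nat_lit 532504) (nat_lit 1) (.e (nat_lit 57692) (nat_lit 156) (.e (nat_lit 163875) (nat_lit 3) (.e (nat_lit 204836) (nat_lit 20) .nil))))) (.g (nat_lit 0) (.e (nat_lit 199986) (nat_lit 0) .nil) .nil))) 
(.lf (nat_lit 512692) (.g (nat_lit 589) (.e (nat_lit 180250) (nat_lit 10) (.e (nat_lit 573473) (nat_lit 12) (.e (nat_lit 57516) (nat_lit 42) .nil))) (.g (nat_lit 0) (.e (nat_lit 201426) (nat_lit 0) .nil) .nil)))) (.nd (nat_lit 9) 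
(.lf (nat_lit 512436) (.g (nat_lit 3789) (.e (nat_lit 180244) (nat_lit 5) (.e (nat_lit 532549) (nat_lit 12) (.e (nat_lit 360475) (nat_lit 8) (.e (nat_lit 557091) (nat_lit 12) (.e (nat_lit 163850) (nat_lit 0) .nil))))) (.g (nat_lit 0) (.e (nat_lit 200751) (nat_lit 0) .nil) .nil))) 
(.lf (nat_lit 512948) (.g (nat_lit 4299) (.e (nat_lit 180251) (nat_lit 10) (.e (nat_lit 573489) (nat_lit 14) (.e (nat_lit 73755) (nat_lit 8) (.e (nat_lit 557090) (nat_lit 12) (.e (nat_lit 163849) (nat_lit 0) (.e (nat_lit 5945) (nat_lit 322) (.e (nat_lit 57371) (nat_lit 2) (.e (nat_lit 90174) (nat_lit 14) .nil)))))))) (.g (nat_lit 1) (.e (nat_lit 202553) (nat_lit 0) .nil) .nil)))))) 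
(.nd (nat_lit 7) (.nd (nat_lit 8) (.nd (nat_lit 9) 
(.lf (nat_lit 512116) (.g (nat_lit 3258) (.e (nat_lit 180242) (nat_lit 5) (.e (nat_lit 532569) (nat_lit 16) (.e (nat_lit 401434) (nat_lit 9) (.e (nat_lit 426140) (nat_lit 3) (.e (nat_lit 204821) (nat_lit 17) (.e (nat_lit 7936) (nat_lit 362) .nil)))))) (.g (nat_lit 1) (.e (nat_lit 199878) (nat_lit 0) .nil) .nil))) 
(.lf (nat_lit 512628) (.g (nat_lit 3633) (.e (nat_lit 180250) (nat_lit 10) (.e (nat_lit 573456) (nat_lit 9) (.e (nat_lit 1669) (nat_lit 116) (.e (nat_lit 401459) (nat_lit 13) (.e (nat_lit 483363) (nat_lit 18) (.e (nat_lit 57652) (nat_lit 152) (.e (nat_lit 2636) (nat_lit 165) .nil))))))) (.g (nat_lit 1) (.e (nat_lit 201302) (nat_lit 0) .nil) .nil)))) (.nd (nat_lit 9) 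
(.lf (nat_lit 512372) (.g (nat_lit 1446) (.e (nat_lit 180244) (nat_lit 5) (.e (nat_lit 532523) (nat_lit 7) (.e (nat_lit 319505) (nat_lit 10) (.e (nat_lit 5395) (nat_lit 301) .nil)))) (.g (nat_lit 0) (.e (nat_lit 200623) (nat_lit 0) .nil) .nil))) 
(.lf (nat_lit 512884) (.g (nat_lit 1248) (.e (nat_lit 180251) (nat_lit 10) (.e (nat_lit 573489) (nat_lit 14) (.e (nat_lit 73754) (nat_lit 8) (.e (nat_lit 557091) (nat_lit 12) .nil)))) (.g (nat_lit 0) (.e (nat_lit 202410) (nat_lit 0) .nil) .nil))))) (.nd (nat_lit 8) (.nd (nat_lit 9) 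
(.lf (nat_lit 512244) (.g (nat_lit 3801) (.e (nat_lit 180243) (nat_lit 5) (.e (nat_lit 532535) (nat_lit 9) (.e (nat_lit 336176) (nat_lit 10) (.e (nat_lit 344133) (nat_lit 26) .nil)))) (.g (nat_lit 0) (.e (nat_lit 200280) (nat_lit 0) .nil) .nil))) 
(.lf (nat_lit 512756) (.g (nat_lit 2666) (.e (nat_lit 180250) (nat_lit 10) (.e (nat_lit 573489) (nat_lit 14) (.e (nat_lit 73755) (nat_lit 8) (.e (nat_lit 557064) (nat_lit 9) .nil)))) (.g (nat_lit 0) (.e (nat_lit 201865) (nat_lit 0) .nil) .nil)))) (.nd (nat_lit 9) 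
(.lf (nat_lit 512500) (.g (nat_lit 2065) (.e (nat_lit 180245) (nat_lit 5) (.e (nat_lit 532515) (nat_lit 3) (.e (nat_lit 114718) (nat_lit 23) (.e (nat_lit 98334) (nat_lit 18) (.e (nat_lit 164396) (nat_lit 256) .nil))))) (.g (nat_lit 0) (.e (nat_lit 200891) (nat_lit 0) .nil) .nil))) 
(.lf (nat_lit 513012) (.g (nat_lit 2766) (.e (nat_lit 180251) (nat_lit 10) (.e (nat_lit 573489) (nat_lit 14) (.e (nat_lit 73755) (nat_lit 8) (.e (nat_lit 557091) (nat_lit 12) (.e (nat_lit 163852) (nat_lit 0) (.e (nat_lit 5953) (nat_lit 322) (.e (nat_lit 57373) (nat_lit 2) (.e (nat_lit 90173) (nat_lit 14) .nil)))))))) (.g (nat_lit 1) (.e (nat_lit 202658) (nat_lit 0) .nil) .nil))))))))) 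
(.nd (nat_lit 4) (.nd (nat_lit 5) (.nd (nat_lit 6) (.nd (nat_lit 7) (.nd (nat_lit 8) 
(.nd (nat_lit 9) 
(.lf (nat_lit 512012) (.g (nat_lit 2149) (.e (nat_lit 179968) (nat_lit 34) (.e (nat_lit 393283) (nat_lit 24) (.e (nat_lit 434232) (nat_lit 23) (.e (nat_lit 532504) (nat_lit 1) (.e (nat_lit 57651) (nat_lit 152) .nil))))) (.g (nat_lit 0) (.e (nat_lit 198760) (nat_lit 0) .nil) .nil))) 
(.lf (nat_lit 512524) (.g (nat_lit 1750) (.e (nat_lit 180245) (nat_lit 5) (.e (nat_lit 532523) (nat_lit 7) (.e (nat_lit 319528) (nat_lit 16) (.e (nat_lit 286735) (nat_lit 3) (.e (nat_lit 98323) (nat_lit 17) (.e (nat_lit 7936) (nat_lit 393) .nil)))))) (.g (nat_lit 1) (.e (nat_lit 200930) (nat_lit 0) .nil) .nil)))) (.nd (nat_lit 9) 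
(.lf (nat_lit 512268) (.g (nat_lit 3572) (.e (nat_lit 180243) (nat_lit 5) (.e (nat_lit 532549) (nat_lit 12) (.e (nat_lit 360475) (nat_lit 8) (.e (nat_lit 557089) (nat_lit 12) (.e (nat_lit 163843) (nat_lit 0) (.e (nat_lit 6254) (nat_lit 337) (.e (nat_lit 2643) (nat_lit 165) .nil))))))) (.g (nat_lit 1) (.e (nat_lit 200355) (nat_lit 0) .nil) .nil))) 
(.lf (nat_lit 512780) (.g (nat_lit 3506) (.e (nat_lit 180250) (nat_lit 10) (.e (nat_lit 573489) (nat_lit 14) (.e (nat_lit 73755) (nat_lit 8) (.e (nat_lit 557090) (nat_lit 12) (.e (nat_lit 163847) (nat_lit 0) (.e (nat_lit 5945) (nat_lit 322) (.e (nat_lit 57373) (nat_lit 2) (.e (nat_lit 90174) (nat_lit 14) .nil)))))))) (.g (nat_lit 1) (.e (nat_lit 201923) (nat_lit 0) .nil) .nil))))) 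
(.nd (nat_lit 8) (.nd (nat_lit 9) 
(.lf (nat_lit 512140) (.g (nat_lit 4962) (.e (nat_lit 180243) (nat_lit 5) (.e (nat_lit 532486) (nat_lit 0) (.e (nat_lit 6113) (nat_lit 332) (.e (nat_lit 1374) (nat_lit 104) (.e (nat_lit 303117) (nat_lit 2) (.e (nat_lit 196661) (nat_lit 12) (.e (nat_lit 65280) (nat_lit 206) .nil))))))) (.g (nat_lit 1) (.e (nat_lit 199910) (nat_lit 0) .nil) .nil))) 
(.lf (nat_lit 512652) (.g (nat_lit 3491) (.e (nat_lit 180250) (nat_lit 10) (.e (nat_lit 573469) (nat_lit 11) (.e (nat_lit 16448) (nat_lit 10) (.e (nat_lit 434231) (nat_lit 23) (.e (nat_lit 532482) (nat_lit 0) (.e (nat_lit 6724) (nat_lit 362) .nil)))))) (.g (nat_lit 1) (.e (nat_lit 201337) (nat_lit 0) .nil) .nil)))) (.nd (nat_lit 9) 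
(.lf (nat_lit 512396) (.g (nat_lit 2723) (.e (nat_lit 180244) (nat_lit 5) (.e (nat_lit 532523) (nat_lit 7) (.e (nat_lit 319533) (nat_lit 16) (.e (nat_lit 286734) (nat_lit 3) (.e (nat_lit 98320) (nat_lit 17) (.e (nat_lit 7388) (nat_lit 393) .nil)))))) (.g (nat_lit 1) (.e (nat_lit 200653) (nat_lit 0) .nil) .nil))) 
(.lf (nat_lit 512908) (.g (nat_lit 2671) (.e (nat_lit 180251) (nat_lit 10) (.e (nat_lit 573489) (nat_lit 14) (.e (nat_lit 73755) (nat_lit 8) (.e (nat_lit 557079) (nat_lit 9) .nil)))) (.g (nat_lit 0) (.e (nat_lit 202465) (nat_lit 0) .nil) .nil)))))) (.nd (nat_lit 7) (.nd (nat_lit 8) (.nd (nat_lit 9) 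
(.lf (nat_lit 512076) (.g (nat_lit 740) (.e (nat_lit 180242) (nat_lit 5) (.e (nat_lit 532503) (nat_lit 1) (.e (nat_lit 57654) (nat_lit 152) .nil))) (.g (nat_lit 0) (.e (nat_lit 199814) (nat_lit 0) .nil) .nil))) 
(.lf (nat_lit 512588) (.g (nat_lit 3190) (.e (nat_lit 180246) (nat_lit 6) (.e (nat_lit 540706) (nat_lit 12) (.e (nat_lit 360475) (nat_lit 8) (.e (nat_lit 557089) (nat_lit 12) (.e (nat_lit 163844) (nat_lit 0) .nil))))) (.g (nat_lit 0) (.e (nat_lit 201033) (nat_lit 0) .nil) .nil)))) (.nd (nat_lit 9) 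
(.lf (nat_lit 512332) (.g (nat_lit 1719) (.e (nat_lit 180243) (nat_lit 5) (.e (nat_lit 532569) (nat_lit 16) (.e (nat_lit 401448) (nat_lit 10) (.e (nat_lit 434232) (nat_lit 23) .nil)))) (.g (nat_lit 0) (.e (nat_lit 200538) (nat_lit 0) .nil) .nil))) 
(.lf (nat_lit 512844) (.g (nat_lit 2878) (.e (nat_lit 180251) (nat_lit 10) (.e (nat_lit 573456) (nat_lit 9) (.e (nat_lit 1669) (nat_lit 116) (.e (nat_lit 401459) (nat_lit 13) (.e (nat_lit 483364) (nat_lit 18) (.e (nat_lit 57669) (nat_lit 152) (.e (nat_lit 2637) (nat_lit 165) .nil))))))) (.g (nat_lit 1) (.e (nat_lit 202072) (nat_lit 0) .nil) .nil))))) (.nd (nat_lit 8) (.nd (nat_lit 9) 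
(.lf (nat_lit 512204) (.g (nat_lit 2782) (.e (nat_lit 180243) (nat_lit 5) (.e (nat_lit 532522) (nat_lit 7) (.e (nat_lit 319530) (nat_lit 16) (.e (nat_lit 286735) (nat_lit 3) (.e (nat_lit 98323) (nat_lit 17) .nil))))) (.g (nat_lit 0) (.e (nat_lit 200115) (nat_lit 0) .nil) .nil))) 
(.lf (nat_lit 512716) (.g (nat_lit 2594) (.e (nat_lit 180250) (nat_lit 10) (.e (nat_lit 573477) (nat_lit 12) (.e (nat_lit 57750) (nat_lit 201) (.e (nat_lit 3090) (nat_lit 191) (.e (nat_lit 483363) (nat_lit 18) (.e (nat_lit 57664) (nat_lit 152) (.e (nat_lit 7936) (nat_lit 165) .nil))))))) (.g (nat_lit 1) (.e (nat_lit 201510) (nat_lit 0) .nil) .nil)))) (.nd (nat_lit 9) 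
(.lf (nat_lit 512460) (.g (nat_lit 4853) (.e (nat_lit 180244) (nat_lit 5) (.e (nat_lit 532550) (nat_lit 12) (.e (nat_lit 360475) (nat_lit 8) (.e (nat_lit 557090) (nat_lit 12) .nil)))) (.g (nat_lit 0) (.e (nat_lit 200784) (nat_lit 0) .nil) .nil))) 
(.lf (nat_lit 512972) (.g (nat_lit 3469) (.e (nat_lit 180251) (nat_lit 10) (.e (nat_lit 573489) (nat_lit 14) (.e (nat_lit 73755) (nat_lit 8) (.e (nat_lit 557090) (nat_lit 12) (.e (nat_lit 163856) (nat_lit 0) .nil))))) (.g (nat_lit 0) (.e (nat_lit 202577) (nat_lit 0) .nil) .nil))))))) (.nd (nat_lit 6) (.nd (nat_lit 7) (.nd (nat_lit 8) (.nd (nat_lit 9) 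
(.lf (nat_lit 512044) (.g (nat_lit 1406) (.e (nat_lit 180227) (nat_lit 0) (.e (nat_lit 6255) (nat_lit 337) (.e (nat_lit 2630) (nat_lit 164) (.e (nat_lit 172085) (nat_lit 9) .nil)))) (.g (nat_lit 0) (.e (nat_lit 199233) (nat_lit 0) .nil) .nil))) 
(.lf (nat_lit 512556) (.g (nat_lit 3719) (.e (nat_lit 180245) (nat_lit 5) (.e (nat_lit 532550) (nat_lit 12) (.e (nat_lit 360475) (nat_lit 8) (.e (nat_lit 557091) (nat_lit 12) .nil)))) (.g (nat_lit 0) (.e (nat_lit 200984) (nat_lit 0) .nil) .nil)))) (.nd (nat_lit 9) 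
(.lf (nat_lit 512300) (.g (nat_lit 4386) (.e (nat_lit 180243) (nat_lit 5) (.e (nat_lit 532550) (nat_lit 12) (.e (nat_lit 360475) (nat_lit 8) (.e (nat_lit 557089) (nat_lit 12) (.e (nat_lit 163850) (nat_lit 0) (.e (nat_lit 6273) (nat_lit 337) (.e (nat_lit 2636) (nat_lit 165) .nil))))))) (.g (nat_lit 1) (.e (nat_lit 200403) (nat_lit 0) .nil) .nil))) 
(.lf (nat_lit 512812) (.g (nat_lit 2174) (.e (nat_lit 180250) (nat_lit 10) (.e (nat_lit 573489) (nat_lit 14) (.e (nat_lit 73755) (nat_lit 8) (.e (nat_lit 557091) (nat_lit 12) (.e (nat_lit 164006) (nat_lit 41) .nil))))) (.g (nat_lit 0) (.e (nat_lit 201992) (nat_lit 0) .nil) .nil))))) (.nd (nat_lit 8) (.nd (nat_lit 9) 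
(.lf (nat_lit 512172) (.g (nat_lit 632) (.e (nat_lit 180243) (nat_lit 5) (.e (nat_lit 532504) (nat_lit 1) (.e (nat_lit 57663) (nat_lit 152) .nil))) (.g (nat_lit 0) (.e (nat_lit 199973) (nat_lit 0) .nil) .nil))) 
(.lf (nat_lit 512684) (.g (nat_lit 450) (.e (nat_lit 180250) (nat_lit 10) (.e (nat_lit 573471) (nat_lit 11) (.e (nat_lit 16449) (nat_lit 10) .nil))) (.g (nat_lit 0) (.e (nat_lit 201407) (nat_lit 0) .nil) .nil)))) (.nd (nat_lit 9) 
(.lf (nat_lit 512428) (.g (nat_lit 3752) (.e (nat_lit 180244) (nat_lit 5) (.e (nat_lit 532549) (nat_lit 12) (.e (nat_lit 360475) (nat_lit 8) (.e (nat_lit 557089) (nat_lit 12) (.e (nat_lit 163844) (nat_lit 0) .nil))))) (.g (nat_lit 0) (.e (nat_lit 200741) (nat_lit 0) .nil) .nil))) 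
(.lf (nat_lit 512940) (.g (nat_lit 4157) (.e (nat_lit 180251) (nat_lit 10) (.e (nat_lit 573489) (nat_lit 14) (.e (nat_lit 73755) (nat_lit 8) (.e (nat_lit 557090) (nat_lit 12) (.e (nat_lit 163845) (nat_lit 0) (.e (nat_lit 5945) (nat_lit 322) (.e (nat_lit 57371) (nat_lit 2) (.e (nat_lit 90174) (nat_lit 14) .nil)))))))) (.g (nat_lit 1) (.e (nat_lit 202545) (nat_lit 0) .nil) .nil)))))) 
(.nd (nat_lit 7) (.nd (nat_lit 8) (.nd (nat_lit 9) 
(.lf (nat_lit 512108) (.g (nat_lit 3036) (.e (nat_lit 180242) (nat_lit 5) (.e (nat_lit 532550) (nat_lit 12) (.e (nat_lit 360475) (nat_lit 8) (.e (nat_lit 557091) (nat_lit 12) .nil)))) (.g (nat_lit 0) (.e (nat_lit 199868) (nat_lit 0) .nil) .nil))) 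
(.lf (nat_lit 512620) (.g (nat_lit 3371) (.e (nat_lit 180249) (nat_lit 10) (.e (nat_lit 573471) (nat_lit 11) (.e (nat_lit 16448) (nat_lit 10) (.e (nat_lit 434231) (nat_lit 23) (.e (nat_lit 532481) (nat_lit 0) .nil))))) (.g (nat_lit 0) (.e (nat_lit 201200) (nat_lit 0) .nil) .nil)))) (.nd (nat_lit 9) 
(.lf (nat_lit 512364) (.g (nat_lit 2397) (.e (nat_lit 180244) (nat_lit 5) (.e (nat_lit 532522) (nat_lit 7) (.e (nat_lit 319531) (nat_lit 16) (.e (nat_lit 286735) (nat_lit 3) (.e (nat_lit 98323) (nat_lit 17) .nil))))) (.g (nat_lit 0) (.e (nat_lit 200610) (nat_lit 0) .nil) .nil))) 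
(.lf (nat_lit 512876) (.g (nat_lit 1266) (.e (nat_lit 180251) (nat_lit 10) (.e (nat_lit 573485) (nat_lit 13) (.e (nat_lit 65571) (nat_lit 3) (.e (nat_lit 98325) (nat_lit 17) .nil)))) (.g (nat_lit 0) (.e (nat_lit 202350) (nat_lit 0) .nil) .nil))))) (.nd (nat_lit 8) (.nd (nat_lit 9) 
(.lf (nat_lit 512236) (.g (nat_lit 1486) (.e (nat_lit 180243) (nat_lit 5) (.e (nat_lit 532523) (nat_lit 7) (.e (nat_lit 319534) (nat_lit 16) (.e (nat_lit 286735) (nat_lit 3) .nil)))) (.g (nat_lit 0) (.e (nat_lit 200155) (nat_lit 0) .nil) .nil))) 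
(.lf (nat_lit 512748) (.g (nat_lit 3360) (.e (nat_lit 180250) (nat_lit 10) (.e (nat_lit 573488) (nat_lit 14) (.e (nat_lit 73755) (nat_lit 8) (.e (nat_lit 557091) (nat_lit 12) (.e (nat_lit 164005) (nat_lit 41) .nil))))) (.g (nat_lit 0) (.e (nat_lit 201838) (nat_lit 0) .nil) .nil)))) (.nd (nat_lit 9) 
(.lf (nat_lit 512492) (.g (nat_lit 3659) (.e (nat_lit 180244) (nat_lit 5) (.e (nat_lit 532569) (nat_lit 16) (.e (nat_lit 401448) (nat_lit 10) (.e (nat_lit 434232) (nat_lit 23) (.e (nat_lit 532481) (nat_lit 0) (.e (nat_lit 6722) (nat_lit 362) .nil)))))) (.g (nat_lit 1) (.e (nat_lit 200853) (nat_lit 0) .nil) .nil))) 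
(.lf (nat_lit 513004) (.g (nat_lit 2434) (.e (nat_lit 180251) (nat_lit 10) (.e (nat_lit 573489) (nat_lit 14) (.e (nat_lit 73755) (nat_lit 8) (.e (nat_lit 557091) (nat_lit 12) (.e (nat_lit 163846) (nat_lit 0) (.e (nat_lit 5931) (nat_lit 322) (.e (nat_lit 57371) (nat_lit 2) (.e (nat_lit 90174) (nat_lit 14) .nil)))))))) (.g (nat_lit 1) (.e (nat_lit 202650) (nat_lit 0) .nil) .nil)))))))) 
(.nd (nat_lit 5) (.nd (nat_lit 6) (.nd (nat_lit 7) (.nd (nat_lit 8) (.nd (nat_lit 9) 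
(.lf (nat_lit 512028) (.g (nat_lit 2769) (.e (nat_lit 179968) (nat_lit 34) (.e (nat_lit 393301) (nat_lit 27) (.e (nat_lit 491539) (nat_lit 3) (.e (nat_lit 98333) (nat_lit 18) (.e (nat_lit 164227) (nat_lit 181) .nil))))) (.g (nat_lit 0) (.e (nat_lit 198776) (nat_lit 0) .nil) .nil))) 
(.lf (nat_lit 512540) (.g (nat_lit 2770) (.e (nat_lit 180245) (nat_lit 5) (.e (nat_lit 532523) (nat_lit 7) (.e (nat_lit 319534) (nat_lit 16) (.e (nat_lit 286735) (nat_lit 3) (.e (nat_lit 98320) (nat_lit 17) .nil))))) (.g (nat_lit 0) (.e (nat_lit 200948) (nat_lit 0) .nil) .nil)))) (.nd (nat_lit 9) 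
(.lf (nat_lit 512284) (.g (nat_lit 4079) (.e (nat_lit 180243) (nat_lit 5) (.e (nat_lit 532549) (nat_lit 12) (.e (nat_lit 360475) (nat_lit 8) (.e (nat_lit 557091) (nat_lit 12) (.e (nat_lit 163850) (nat_lit 0) (.e (nat_lit 6273) (nat_lit 337) (.e (nat_lit 2635) (nat_lit 165) .nil))))))) (.g (nat_lit 1) (.e (nat_lit 200375) (nat_lit 0) .nil) .nil))) 
(.lf (nat_lit 512796) (.g (nat_lit 3650) (.e (nat_lit 180250) (nat_lit 10) (.e (nat_lit 573489) (nat_lit 14) (.e (nat_lit 73755) (nat_lit 8) (.e (nat_lit 557090) (nat_lit 12) (.e (nat_lit 163854) (nat_lit 0) (.e (nat_lit 5951) (nat_lit 322) (.e (nat_lit 57373) (nat_lit 2) (.e (nat_lit 90174) (nat_lit 14) .nil)))))))) (.g (nat_lit 1) (.e (nat_lit 201939) (nat_lit 0) .nil) .nil))))) 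
(.nd (nat_lit 8) (.nd (nat_lit 9) 
(.lf (nat_lit 512156) (.g (nat_lit 2764) (.e (nat_lit 180243) (nat_lit 5) (.e (nat_lit 532501) (nat_lit 1) (.e (nat_lit 57691) (nat_lit 156) (.e (nat_lit 163874) (nat_lit 3) (.e (nat_lit 204836) (nat_lit 20) (.e (nat_lit 114714) (nat_lit 22) (.e (nat_lit 90174) (nat_lit 14) .nil))))))) (.g (nat_lit 1) (.e (nat_lit 199946) (nat_lit 0) .nil) .nil))) 
(.lf (nat_lit 512668) (.g (nat_lit 1619) (.e (nat_lit 180250) (nat_lit 10) (.e (nat_lit 573471) (nat_lit 11) (.e (nat_lit 16446) (nat_lit 9) (.e (nat_lit 426114) (nat_lit 2) .nil)))) (.g (nat_lit 0) (.e (nat_lit 201382) (nat_lit 0) .nil) .nil)))) (.nd (nat_lit 9) 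
(.lf (nat_lit 512412) (.g (nat_lit 1638) (.e (nat_lit 180244) (nat_lit 5) (.e (nat_lit 532526) (nat_lit 8) (.e (nat_lit 327718) (nat_lit 19) (.e (nat_lit 311312) (nat_lit 2) (.e (nat_lit 196677) (nat_lit 16) (.e (nat_lit 130816) (nat_lit 206) .nil)))))) (.g (nat_lit 1) (.e (nat_lit 200673) (nat_lit 0) .nil) .nil))) 
(.lf (nat_lit 512924) (.g (nat_lit 3213) (.e (nat_lit 180251) (nat_lit 10) (.e (nat_lit 573489) (nat_lit 14) (.e (nat_lit 73755) (nat_lit 8) (.e (nat_lit 557090) (nat_lit 12) (.e (nat_lit 163840) (nat_lit 0) .nil))))) (.g (nat_lit 0) (.e (nat_lit 202529) (nat_lit 0) .nil) .nil)))))) (.nd (nat_lit 7) (.nd (nat_lit 8) (.nd (nat_lit 9) 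
(.lf (nat_lit 512092) (.g (nat_lit 5357) (.e (nat_lit 180242) (nat_lit 5) (.e (nat_lit 532550) (nat_lit 12) (.e (nat_lit 360474) (nat_lit 8) (.e (nat_lit 557091) (nat_lit 12) .nil)))) (.g (nat_lit 0) (.e (nat_lit 199848) (nat_lit 0) .nil) .nil))) 
(.lf (nat_lit 512604) (.g (nat_lit 2059) (.e (nat_lit 188160) (nat_lit 3) (.e (nat_lit 516129) (nat_lit 3) (.e (nat_lit 221210) (nat_lit 22) (.e (nat_lit 196668) (nat_lit 14) (.e (nat_lit 73757) (nat_lit 11) .nil))))) (.g (nat_lit 0) (.e (nat_lit 201065) (nat_lit 0) .nil) .nil)))) (.nd (nat_lit 9) 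
(.lf (nat_lit 512348) (.g (nat_lit 2173) (.e (nat_lit 180244) (nat_lit 5) (.e (nat_lit 532503) (nat_lit 1) (.e (nat_lit 57687) (nat_lit 156) (.e (nat_lit 163843) (nat_lit 0) (.e (nat_lit 3230) (nat_lit 197) .nil))))) (.g (nat_lit 0) (.e (nat_lit 200585) (nat_lit 0) .nil) .nil))) 
(.lf (nat_lit 512860) (.g (nat_lit 2328) (.e (nat_lit 180251) (nat_lit 10) (.e (nat_lit 573471) (nat_lit 11) (.e (nat_lit 16449) (nat_lit 10) (.e (nat_lit 434231) (nat_lit 23) .nil)))) (.g (nat_lit 0) (.e (nat_lit 202106) (nat_lit 0) .nil) .nil))))) (.nd (nat_lit 8) (.nd (nat_lit 9) 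
(.lf (nat_lit 512220) (.g (nat_lit 2422) (.e (nat_lit 180243) (nat_lit 5) (.e (nat_lit 532523) (nat_lit 7) (.e (nat_lit 319528) (nat_lit 16) (.e (nat_lit 286735) (nat_lit 3) (.e (nat_lit 98323) (nat_lit 17) (.e (nat_lit 7936) (nat_lit 393) .nil)))))) (.g (nat_lit 1) (.e (nat_lit 200138) (nat_lit 0) .nil) .nil))) 
(.lf (nat_lit 512732) (.g (nat_lit 3072) (.e (nat_lit 180250) (nat_lit 10) (.e (nat_lit 573487) (nat_lit 14) (.e (nat_lit 73753) (nat_lit 8) (.e (nat_lit 557090) (nat_lit 12) (.e (nat_lit 163841) (nat_lit 0) (.e (nat_lit 5940) (nat_lit 322) (.e (nat_lit 57375) (nat_lit 2) (.e (nat_lit 90172) (nat_lit 14) .nil)))))))) (.g (nat_lit 1) (.e (nat_lit 201790) (nat_lit 0) .nil) .nil)))) (.nd (nat_lit 9) 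
(.lf (nat_lit 512476) (.g (nat_lit 4814) (.e (nat_lit 180244) (nat_lit 5) (.e (nat_lit 532550) (nat_lit 12) (.e (nat_lit 360475) (nat_lit 8) (.e (nat_lit 557093) (nat_lit 12) .nil)))) (.g (nat_lit 0) (.e (nat_lit 200802) (nat_lit 0) .nil) .nil))) 
(.lf (nat_lit 512988) (.g (nat_lit 2368) (.e (nat_lit 180251) (nat_lit 10) (.e (nat_lit 573489) (nat_lit 14) (.e (nat_lit 73755) (nat_lit 8) (.e (nat_lit 557091) (nat_lit 12) (.e (nat_lit 163840) (nat_lit 0) (.e (nat_lit 5936) (nat_lit 322) (.e (nat_lit 57371) (nat_lit 2) (.e (nat_lit 90174) (nat_lit 14) .nil)))))))) (.g (nat_lit 1) (.e (nat_lit 202634) (nat_lit 0) .nil) .nil))))))) 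
(.nd (nat_lit 6) (.nd (nat_lit 7) (.nd (nat_lit 8) (.nd (nat_lit 9) 
(.lf (nat_lit 512060) (.g (nat_lit 2379) (.e (nat_lit 180232) (nat_lit 0) (.e (nat_lit 5448) (nat_lit 306) (.e (nat_lit 2612) (nat_lit 163) (.e (nat_lit 163979) (nat_lit 30) (.e (nat_lit 573493) (nat_lit 15) (.e (nat_lit 81953) (nat_lit 22) (.e (nat_lit 98048) (nat_lit 14) .nil))))))) (.g (nat_lit 1) (.e (nat_lit 199635) (nat_lit 0) .nil) .nil))) 
(.lf (nat_lit 512572) (.g (nat_lit 3256) (.e (nat_lit 188160) (nat_lit 5) (.e (nat_lit 532550) (nat_lit 12) (.e (nat_lit 360474) (nat_lit 8) (.e (nat_lit 557088) (nat_lit 12) .nil)))) (.g (nat_lit 0) (.e (nat_lit 201011) (nat_lit 0) .nil) .nil)))) (.nd (nat_lit 9) 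
(.lf (nat_lit 512316) (.g (nat_lit 1613) (.e (nat_lit 180243) (nat_lit 5) (.e (nat_lit 532568) (nat_lit 16) (.e (nat_lit 401448) (nat_lit 10) (.e (nat_lit 434231) (nat_lit 23) .nil)))) (.g (nat_lit 0) (.e (nat_lit 200518) (nat_lit 0) .nil) .nil))) 
(.lf (nat_lit 512828) (.g (nat_lit 3079) (.e (nat_lit 180251) (nat_lit 10) (.e (nat_lit 573456) (nat_lit 9) (.e (nat_lit 1669) (nat_lit 116) (.e (nat_lit 401459) (nat_lit 13) (.e (nat_lit 483363) (nat_lit 18) (.e (nat_lit 57652) (nat_lit 152) (.e (nat_lit 2637) (nat_lit 165) .nil))))))) (.g (nat_lit 1) (.e (nat_lit 202056) (nat_lit 0) .nil) .nil))))) (.nd (nat_lit 8) (.nd (nat_lit 9) 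
(.lf (nat_lit 512188) (.g (nat_lit 1550) (.e (nat_lit 180243) (nat_lit 5) (.e (nat_lit 532513) (nat_lit 3) (.e (nat_lit 114718) (nat_lit 23) (.e (nat_lit 98321) (nat_lit 17) .nil)))) (.g (nat_lit 0) (.e (nat_lit 200054) (nat_lit 0) .nil) .nil))) 
(.lf (nat_lit 512700) (.g (nat_lit 3212) (.e (nat_lit 180250) (nat_lit 10) (.e (nat_lit 573474) (nat_lit 12) (.e (nat_lit 57504) (nat_lit 38) (.e (nat_lit 638995) (nat_lit 7) (.e (nat_lit 163977) (nat_lit 30) (.e (nat_lit 573487) (nat_lit 14) (.e (nat_lit 73753) (nat_lit 8) (.e (nat_lit 557103) (nat_lit 14) .nil)))))))) (.g (nat_lit 1) (.e (nat_lit 201436) (nat_lit 0) .nil) .nil)))) 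
(.nd (nat_lit 9) 
(.lf (nat_lit 512444) (.g (nat_lit 4153) (.e (nat_lit 180244) (nat_lit 5) (.e (nat_lit 532550) (nat_lit 12) (.e (nat_lit 360474) (nat_lit 8) (.e (nat_lit 557089) (nat_lit 12) .nil)))) (.g (nat_lit 0) (.e (nat_lit 200762) (nat_lit 0) .nil) .nil))) 
(.lf (nat_lit 512956) (.g (nat_lit 4053) (.e (nat_lit 180251) (nat_lit 10) (.e (nat_lit 573489) (nat_lit 14) (.e (nat_lit 73755) (nat_lit 8) (.e (nat_lit 557090) (nat_lit 12) (.e (nat_lit 163851) (nat_lit 0) (.e (nat_lit 5937) (nat_lit 322) (.e (nat_lit 57373) (nat_lit 2) (.e (nat_lit 90174) (nat_lit 14) .nil)))))))) (.g (nat_lit 1) (.e (nat_lit 202561) (nat_lit 0) .nil) .nil)))))) 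
(.nd (nat_lit 7) (.nd (nat_lit 8) (.nd (nat_lit 9) 
(.lf (nat_lit 512124) (.g (nat_lit 2521) (.e (nat_lit 180242) (nat_lit 5) (.e (nat_lit 532569) (nat_lit 16) (.e (nat_lit 401448) (nat_lit 10) (.e (nat_lit 434227) (nat_lit 20) (.e (nat_lit 507930) (nat_lit 10) .nil))))) (.g (nat_lit 0) (.e (nat_lit 199887) (nat_lit 0) .nil) .nil))) 
(.lf (nat_lit 512636) (.g (nat_lit 3223) (.e (nat_lit 180250) (nat_lit 10) (.e (nat_lit 573456) (nat_lit 9) (.e (nat_lit 1669) (nat_lit 116) (.e (nat_lit 401459) (nat_lit 13) (.e (nat_lit 483363) (nat_lit 18) (.e (nat_lit 57660) (nat_lit 152) (.e (nat_lit 2634) (nat_lit 165) .nil))))))) (.g (nat_lit 1) (.e (nat_lit 201310) (nat_lit 0) .nil) .nil)))) (.nd (nat_lit 9) 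
(.lf (nat_lit 512380) (.g (nat_lit 3279) (.e (nat_lit 180244) (nat_lit 5) (.e (nat_lit 532523) (nat_lit 7) (.e (nat_lit 319539) (nat_lit 19) (.e (nat_lit 311312) (nat_lit 2) (.e (nat_lit 196661) (nat_lit 12) (.e (nat_lit 65280) (nat_lit 206) .nil)))))) (.g (nat_lit 1) (.e (nat_lit 200635) (nat_lit 0) .nil) .nil))) 
(.lf (nat_lit 512892) (.g (nat_lit 3012) (.e (nat_lit 180251) (nat_lit 10) (.e (nat_lit 573489) (nat_lit 14) (.e (nat_lit 73755) (nat_lit 8) (.e (nat_lit 557065) (nat_lit 9) (.e (nat_lit 2604) (nat_lit 163) (.e (nat_lit 164397) (nat_lit 256) (.e (nat_lit 57371) (nat_lit 2) (.e (nat_lit 90174) (nat_lit 14) .nil)))))))) (.g (nat_lit 1) (.e (nat_lit 202441) (nat_lit 0) .nil) .nil))))) 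
(.nd (nat_lit 8) (.nd (nat_lit 9) 
(.lf (nat_lit 512252) (.g (nat_lit 2829) (.e (nat_lit 180243) (nat_lit 5) (.e (nat_lit 532549) (nat_lit 12) (.e (nat_lit 360473) (nat_lit 8) (.e (nat_lit 557091) (nat_lit 12) (.e (nat_lit 163844) (nat_lit 0) (.e (nat_lit 6254) (nat_lit 337) (.e (nat_lit 2643) (nat_lit 165) .nil))))))) (.g (nat_lit 1) (.e (nat_lit 200331) (nat_lit 0) .nil) .nil))) 
(.lf (nat_lit 512764) (.g (nat_lit 2702) (.e (nat_lit 180250) (nat_lit 10) (.e (nat_lit 573489) (nat_lit 14) (.e (nat_lit 73755) (nat_lit 8) (.e (nat_lit 557070) (nat_lit 9) .nil)))) (.g (nat_lit 0) (.e (nat_lit 201881) (nat_lit 0) .nil) .nil)))) (.nd (nat_lit 9) 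
(.lf (nat_lit 512508) (.g (nat_lit 2530) (.e (nat_lit 180245) (nat_lit 5) (.e (nat_lit 532522) (nat_lit 7) (.e (nat_lit 319530) (nat_lit 16) (.e (nat_lit 286735) (nat_lit 3) (.e (nat_lit 98323) (nat_lit 17) .nil))))) (.g (nat_lit 0) (.e (nat_lit 200907) (nat_lit 0) .nil) .nil))) 
(.lf (nat_lit 513020) (.g (nat_lit 2682) (.e (nat_lit 180251) (nat_lit 10) (.e (nat_lit 573489) (nat_lit 14) (.e (nat_lit 73755) (nat_lit 8) (.e (nat_lit 557114) (nat_lit 18) .nil)))) (.g (nat_lit 0) (.e (nat_lit 202723) (nat_lit 0) .nil) .nil))))))))))) (.nd (nat_lit 2) (.nd (nat_lit 3) (.nd (nat_lit 4) (.nd (nat_lit 5) (.nd (nat_lit 6) (.nd (nat_lit 7) (.nd (nat_lit 8) (.nd (nat_lit 9) 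
(.lf (nat_lit 512002) (.g (nat_lit 966) (.e (nat_lit 179968) (nat_lit 34) (.e (nat_lit 393268) (nat_lit 23) (.e (nat_lit 426131) (nat_lit 3) .nil))) (.g (nat_lit 0) (.e (nat_lit 198750) (nat_lit 0) .nil) .nil))) 
(.lf (nat_lit 512514) (.g (nat_lit 2067) (.e (nat_lit 180245) (nat_lit 5) (.e (nat_lit 532523) (nat_lit 7) (.e (nat_lit 319505) (nat_lit 10) (.e (nat_lit 5714) (nat_lit 312) (.e (nat_lit 2681) (nat_lit 168) .nil))))) (.g (nat_lit 0) (.e (nat_lit 200916) (nat_lit 0) .nil) .nil)))) (.nd (nat_lit 9) 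
(.lf (nat_lit 512258) (.g (nat_lit 2465) (.e (nat_lit 180243) (nat_lit 5) (.e (nat_lit 532549) (nat_lit 12) (.e (nat_lit 360473) (nat_lit 8) (.e (nat_lit 557091) (nat_lit 12) (.e (nat_lit 163852) (nat_lit 0) .nil))))) (.g (nat_lit 0) (.e (nat_lit 200338) (nat_lit 0) .nil) .nil))) 
(.lf (nat_lit 512770) (.g (nat_lit 2885) (.e (nat_lit 180250) (nat_lit 10) (.e (nat_lit 573489) (nat_lit 14) (.e (nat_lit 73755) (nat_lit 8) (.e (nat_lit 557090) (nat_lit 12) (.e (nat_lit 163840) (nat_lit 0) .nil))))) (.g (nat_lit 0) (.e (nat_lit 201913) (nat_lit 0) .nil) .nil))))) (.nd (nat_lit 8) (.nd (nat_lit 9) 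
(.lf (nat_lit 512130) (.g (nat_lit 2448) (.e (nat_lit 180243) (nat_lit 5) (.e (nat_lit 532481) (nat_lit 0) (.e (nat_lit 6722) (nat_lit 362) (.e (nat_lit 180245) (nat_lit 5) (.e (nat_lit 532490) (nat_lit 0) (.e (nat_lit 7936) (nat_lit 362) .nil)))))) (.g (nat_lit 1) (.e (nat_lit 199897) (nat_lit 0) .nil) .nil))) 
(.lf (nat_lit 512642) (.g (nat_lit 2639) (.e (nat_lit 180250) (nat_lit 10) (.e (nat_lit 573456) (nat_lit 9) (.e (nat_lit 1669) (nat_lit 116) (.e (nat_lit 401459) (nat_lit 13) (.e (nat_lit 483364) (nat_lit 18) (.e (nat_lit 57663) (nat_lit 152) (.e (nat_lit 2637) (nat_lit 165) .nil))))))) (.g (nat_lit 1) (.e (nat_lit 201316) (nat_lit 0) .nil) .nil)))) (.nd (nat_lit 9) 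
(.lf (nat_lit 512386) (.g (nat_lit 3734) (.e (nat_lit 180244) (nat_lit 5) (.e (nat_lit 532523) (nat_lit 7) (.e (nat_lit 319530) (nat_lit 16) (.e (nat_lit 286735) (nat_lit 3) (.e (nat_lit 98323) (nat_lit 17) (.e (nat_lit 7936) (nat_lit 393) .nil)))))) (.g (nat_lit 1) (.e (nat_lit 200641) (nat_lit 0) .nil) .nil))) 
(.lf (nat_lit 512898) (.g (nat_lit 3579) (.e (nat_lit 180251) (nat_lit 10) (.e (nat_lit 573489) (nat_lit 14) (.e (nat_lit 73755) (nat_lit 8) (.e (nat_lit 557067) (nat_lit 9) (.e (nat_lit 2602) (nat_lit 163) (.e (nat_lit 164403) (nat_lit 256) (.e (nat_lit 57371) (nat_lit 2) (.e (nat_lit 90174) (nat_lit 14) .nil)))))))) (.g (nat_lit 1) (.e (nat_lit 202453) (nat_lit 0) .nil) .nil)))))) 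
(.nd (nat_lit 7) (.nd (nat_lit 8) (.nd (nat_lit 9) 
(.lf (nat_lit 512066) (.g (nat_lit 1682) (.e (nat_lit 188160) (nat_lit 0) (.e (nat_lit 5937) (nat_lit 322) (.e (nat_lit 57411) (nat_lit 12) (.e (nat_lit 336432) (nat_lit 30) (.e (nat_lit 450586) (nat_lit 10) .nil))))) (.g (nat_lit 0) (.e (nat_lit 199655) (nat_lit 0) .nil) .nil))) 
(.lf (nat_lit 512578) (.g (nat_lit 648) (.e (nat_lit 188160) (nat_lit 5) (.e (nat_lit 532569) (nat_lit 16) (.e (nat_lit 401448) (nat_lit 10) .nil))) (.g (nat_lit 0) (.e (nat_lit 201021) (nat_lit 0) .nil) .nil)))) (.nd (nat_lit 9) 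
(.lf (nat_lit 512322) (.g (nat_lit 2812) (.e (nat_lit 180243) (nat_lit 5) (.e (nat_lit 532569) (nat_lit 16) (.e (nat_lit 401446) (nat_lit 10) (.e (nat_lit 434231) (nat_lit 23) (.e (nat_lit 532490) (nat_lit 0) (.e (nat_lit 7936) (nat_lit 362) .nil)))))) (.g (nat_lit 1) (.e (nat_lit 200528) (nat_lit 0) .nil) .nil))) 
(.lf (nat_lit 512834) (.g (nat_lit 3107) (.e (nat_lit 180251) (nat_lit 10) (.e (nat_lit 573456) (nat_lit 9) (.e (nat_lit 1669) (nat_lit 116) (.e (nat_lit 401459) (nat_lit 13) (.e (nat_lit 483363) (nat_lit 18) (.e (nat_lit 57660) (nat_lit 152) (.e (nat_lit 2634) (nat_lit 165) .nil))))))) (.g (nat_lit 1) (.e (nat_lit 202062) (nat_lit 0) .nil) .nil))))) (.nd (nat_lit 8) (.nd (nat_lit 9) 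
(.lf (nat_lit 512194) (.g (nat_lit 2819) (.e (nat_lit 180243) (nat_lit 5) (.e (nat_lit 532513) (nat_lit 3) (.e (nat_lit 114718) (nat_lit 23) (.e (nat_lit 98334) (nat_lit 18) (.e (nat_lit 164402) (nat_lit 256) .nil))))) (.g (nat_lit 0) (.e (nat_lit 200065) (nat_lit 0) .nil) .nil))) 
(.lf (nat_lit 512706) (.g (nat_lit 3246) (.e (nat_lit 180250) (nat_lit 10) (.e (nat_lit 573474) (nat_lit 12) (.e (nat_lit 57572) (nat_lit 54) (.e (nat_lit 770072) (nat_lit 8) (.e (nat_lit 65571) (nat_lit 3) (.e (nat_lit 98320) (nat_lit 17) (.e (nat_lit 7388) (nat_lit 393) .nil))))))) (.g (nat_lit 1) (.e (nat_lit 201442) (nat_lit 0) .nil) .nil)))) (.nd (nat_lit 9) 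
(.lf (nat_lit 512450) (.g (nat_lit 3689) (.e (nat_lit 180244) (nat_lit 5) (.e (nat_lit 532550) (nat_lit 12) (.e (nat_lit 360474) (nat_lit 8) (.e (nat_lit 557094) (nat_lit 12) (.e (nat_lit 163852) (nat_lit 0) (.e (nat_lit 6273) (nat_lit 337) (.e (nat_lit 2635) (nat_lit 165) .nil))))))) (.g (nat_lit 1) (.e (nat_lit 200768) (nat_lit 0) .nil) .nil))) 
(.lf (nat_lit 512962) (.g (nat_lit 4298) (.e (nat_lit 180251) (nat_lit 10) (.e (nat_lit 573489) (nat_lit 14) (.e (nat_lit 73755) (nat_lit 8) (.e (nat_lit 557090) (nat_lit 12) (.e (nat_lit 163851) (nat_lit 0) (.e (nat_lit 5953) (nat_lit 322) (.e (nat_lit 57371) (nat_lit 2) (.e (nat_lit 90174) (nat_lit 14) .nil)))))))) (.g (nat_lit 1) (.e (nat_lit 202567) (nat_lit 0) .nil) .nil))))))) 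
(.nd (nat_lit 6) (.nd (nat_lit 7) (.nd (nat_lit 8) (.nd (nat_lit 9) 
(.lf (nat_lit 512034) (.g (nat_lit 1799) (.e (nat_lit 180225) (nat_lit 0) (.e (nat_lit 6416) (nat_lit 341) (.e (nat_lit 163903) (nat_lit 12) (.e (nat_lit 426227) (nat_lit 9) .nil)))) (.g (nat_lit 0) (.e (nat_lit 198885) (nat_lit 0) .nil) .nil))) 
(.lf (nat_lit 512546) (.g (nat_lit 2462) (.e (nat_lit 180245) (nat_lit 5) (.e (nat_lit 532549) (nat_lit 12) (.e (nat_lit 360475) (nat_lit 8) (.e (nat_lit 557089) (nat_lit 12) .nil)))) (.g (nat_lit 0) (.e (nat_lit 200971) (nat_lit 0) .nil) .nil)))) (.nd (nat_lit 9) 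
(.lf (nat_lit 512290) (.g (nat_lit 4143) (.e (nat_lit 180243) (nat_lit 5) (.e (nat_lit 532550) (nat_lit 12) (.e (nat_lit 360474) (nat_lit 8) (.e (nat_lit 557091) (nat_lit 12) .nil)))) (.g (nat_lit 0) (.e (nat_lit 200389) (nat_lit 0) .nil) .nil))) 
(.lf (nat_lit 512802) (.g (nat_lit 2864) (.e (nat_lit 180250) (nat_lit 10) (.e (nat_lit 573489) (nat_lit 14) (.e (nat_lit 73755) (nat_lit 8) (.e (nat_lit 557090) (nat_lit 12) (.e (nat_lit 164005) (nat_lit 41) .nil))))) (.g (nat_lit 0) (.e (nat_lit 201946) (nat_lit 0) .nil) .nil))))) (.nd (nat_lit 8) (.nd (nat_lit 9) 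
(.lf (nat_lit 512162) (.g (nat_lit 456) (.e (nat_lit 180243) (nat_lit 5) (.e (nat_lit 532501) (nat_lit 1) (.e (nat_lit 57730) (nat_lit 181) .nil))) (.g (nat_lit 0) (.e (nat_lit 199955) (nat_lit 0) .nil) .nil))) 
(.lf (nat_lit 512674) (.g (nat_lit 3243) (.e (nat_lit 180250) (nat_lit 10) (.e (nat_lit 573471) (nat_lit 11) (.e (nat_lit 16447) (nat_lit 10) (.e (nat_lit 434231) (nat_lit 23) (.e (nat_lit 532490) (nat_lit 0) (.e (nat_lit 7936) (nat_lit 362) .nil)))))) (.g (nat_lit 1) (.e (nat_lit 201390) (nat_lit 0) .nil) .nil)))) (.nd (nat_lit 9) 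
(.lf (nat_lit 512418) (.g (nat_lit 2466) (.e (nat_lit 180244) (nat_lit 5) (.e (nat_lit 532549) (nat_lit 12) (.e (nat_lit 360473) (nat_lit 8) (.e (nat_lit 557089) (nat_lit 12) (.e (nat_lit 163850) (nat_lit 0) .nil))))) (.g (nat_lit 0) (.e (nat_lit 200730) (nat_lit 0) .nil) .nil))) 
(.lf (nat_lit 512930) (.g (nat_lit 3611) (.e (nat_lit 180251) (nat_lit 10) (.e (nat_lit 573489) (nat_lit 14) (.e (nat_lit 73755) (nat_lit 8) (.e (nat_lit 557090) (nat_lit 12) (.e (nat_lit 163842) (nat_lit 0) (.e (nat_lit 7936) (nat_lit 322) (.e (nat_lit 57371) (nat_lit 2) (.e (nat_lit 90174) (nat_lit 14) .nil)))))))) (.g (nat_lit 1) (.e (nat_lit 202535) (nat_lit 0) .nil) .nil)))))) 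
(.nd (nat_lit 7) (.nd (nat_lit 8) (.nd (nat_lit 9) 
(.lf (nat_lit 512098) (.g (nat_lit 3995) (.e (nat_lit 180242) (nat_lit 5) (.e (nat_lit 532550) (nat_lit 12) (.e (nat_lit 360474) (nat_lit 8) (.e (nat_lit 557094) (nat_lit 12) (.e (nat_lit 163847) (nat_lit 0) .nil))))) (.g (nat_lit 0) (.e (nat_lit 199854) (nat_lit 0) .nil) .nil))) 
(.lf (nat_lit 512610) (.g (nat_lit 645) (.e (nat_lit 180241) (nat_lit 4) (.e (nat_lit 524340) (nat_lit 28) (.e (nat_lit 352285) (nat_lit 20) (.e (nat_lit 2384) (nat_lit 155) (.e (nat_lit 811012) (nat_lit 0) (.e (nat_lit 5780) (nat_lit 317) .nil)))))) (.g (nat_lit 1) (.e (nat_lit 201081) (nat_lit 0) .nil) .nil)))) (.nd (nat_lit 9) 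
(.lf (nat_lit 512354) (.g (nat_lit 2004) (.e (nat_lit 180244) (nat_lit 5) (.e (nat_lit 532514) (nat_lit 3) (.e (nat_lit 114719) (nat_lit 23) (.e (nat_lit 98333) (nat_lit 18) (.e (nat_lit 164397) (nat_lit 256) .nil))))) (.g (nat_lit 0) (.e (nat_lit 200594) (nat_lit 0) .nil) .nil))) 
(.lf (nat_lit 512866) (.g (nat_lit 3168) (.e (nat_lit 180251) (nat_lit 10) (.e (nat_lit 573477) (nat_lit 12) (.e (nat_lit 57750) (nat_lit 201) (.e (nat_lit 3090) (nat_lit 191) (.e (nat_lit 483363) (nat_lit 18) (.e (nat_lit 57665) (nat_lit 152) (.e (nat_lit 7936) (nat_lit 165) .nil))))))) (.g (nat_lit 1) (.e (nat_lit 202162) (nat_lit 0) .nil) .nil))))) (.nd (nat_lit 8) (.nd (nat_lit 9) 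
(.lf (nat_lit 512226) (.g (nat_lit 3510) (.e (nat_lit 180243) (nat_lit 5) (.e (nat_lit 532523) (nat_lit 7) (.e (nat_lit 319531) (nat_lit 16) (.e (nat_lit 286735) (nat_lit 3) (.e (nat_lit 98325) (nat_lit 17) (.e (nat_lit 7936) (nat_lit 393) .nil)))))) (.g (nat_lit 1) (.e (nat_lit 200144) (nat_lit 0) .nil) .nil))) 
(.lf (nat_lit 512738) (.g (nat_lit 2587) (.e (nat_lit 180250) (nat_lit 10) (.e (nat_lit 573488) (nat_lit 14) (.e (nat_lit 73747) (nat_lit 3) (.e (nat_lit 516117) (nat_lit 1) (.e (nat_lit 171776) (nat_lit 160) .nil))))) (.g (nat_lit 0) (.e (nat_lit 201822) (nat_lit 0) .nil) .nil)))) (.nd (nat_lit 9) 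
(.lf (nat_lit 512482) (.g (nat_lit 419) (.e (nat_lit 180244) (nat_lit 5) (.e (nat_lit 532569) (nat_lit 16) (.e (nat_lit 401446) (nat_lit 10) .nil))) (.g (nat_lit 0) (.e (nat_lit 200842) (nat_lit 0) .nil) .nil))) 
(.lf (nat_lit 512994) (.g (nat_lit 3762) (.e (nat_lit 180251) (nat_lit 10) (.e (nat_lit 573489) (nat_lit 14) (.e (nat_lit 73755) (nat_lit 8) (.e (nat_lit 557091) (nat_lit 12) (.e (nat_lit 163843) (nat_lit 0) (.e (nat_lit 5934) (nat_lit 322) (.e (nat_lit 57371) (nat_lit 2) (.e (nat_lit 90174) (nat_lit 14) .nil)))))))) (.g (nat_lit 1) (.e (nat_lit 202640) (nat_lit 0) .nil) .nil)))))))) 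
(.nd (nat_lit 5) (.nd (nat_lit 6) (.nd (nat_lit 7) (.nd (nat_lit 8) (.nd (nat_lit 9) 
(.lf (nat_lit 512018) (.g (nat_lit 2165) (.e (nat_lit 179968) (nat_lit 34) (.e (nat_lit 393285) (nat_lit 25) (.e (nat_lit 458789) (nat_lit 23) (.e (nat_lit 532499) (nat_lit 1) (.e (nat_lit 57667) (nat_lit 152) .nil))))) (.g (nat_lit 0) (.e (nat_lit 198766) (nat_lit 0) .nil) .nil))) 
(.lf (nat_lit 512530) (.g (nat_lit 2404) (.e (nat_lit 180245) (nat_lit 5) (.e (nat_lit 532523) (nat_lit 7) (.e (nat_lit 319531) (nat_lit 16) (.e (nat_lit 286735) (nat_lit 3) (.e (nat_lit 98320) (nat_lit 17) .nil))))) (.g (nat_lit 0) (.e (nat_lit 200936) (nat_lit 0) .nil) .nil)))) (.nd (nat_lit 9) 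
(.lf (nat_lit 512274) (.g (nat_lit 4579) (.e (nat_lit 180243) (nat_lit 5) (.e (nat_lit 532549) (nat_lit 12) (.e (nat_lit 360475) (nat_lit 8) (.e (nat_lit 557090) (nat_lit 12) (.e (nat_lit 164020) (nat_lit 45) (.e (nat_lit 696345) (nat_lit 9) .nil)))))) (.g (nat_lit 1) (.e (nat_lit 200363) (nat_lit 0) .nil) .nil))) 
(.lf (nat_lit 512786) (.g (nat_lit 2826) (.e (nat_lit 180250) (nat_lit 10) (.e (nat_lit 573489) (nat_lit 14) (.e (nat_lit 73755) (nat_lit 8) (.e (nat_lit 557090) (nat_lit 12) (.e (nat_lit 163850) (nat_lit 0) .nil))))) (.g (nat_lit 0) (.e (nat_lit 201929) (nat_lit 0) .nil) .nil))))) (.nd (nat_lit 8) (.nd (nat_lit 9) 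
(.lf (nat_lit 512146) (.g (nat_lit 2022) (.e (nat_lit 180243) (nat_lit 5) (.e (nat_lit 532499) (nat_lit 1) (.e (nat_lit 57688) (nat_lit 156) (.e (nat_lit 163855) (nat_lit 0) .nil)))) (.g (nat_lit 0) (.e (nat_lit 199927) (nat_lit 0) .nil) .nil))) 
(.lf (nat_lit 512658) (.g (nat_lit 3522) (.e (nat_lit 180250) (nat_lit 10) (.e (nat_lit 573471) (nat_lit 11) (.e (nat_lit 16425) (nat_lit 7) (.e (nat_lit 409606) (nat_lit 0) .nil)))) (.g (nat_lit 0) (.e (nat_lit 201349) (nat_lit 0) .nil) .nil)))) (.nd (nat_lit 9) 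
(.lf (nat_lit 512402) (.g (nat_lit 2220) (.e (nat_lit 180244) (nat_lit 5) (.e (nat_lit 532523) (nat_lit 7) (.e (nat_lit 319534) (nat_lit 16) (.e (nat_lit 286728) (nat_lit 0) (.e (nat_lit 1842) (nat_lit 123) .nil))))) (.g (nat_lit 0) (.e (nat_lit 200661) (nat_lit 0) .nil) .nil))) 
(.lf (nat_lit 512914) (.g (nat_lit 2651) (.e (nat_lit 180251) (nat_lit 10) (.e (nat_lit 573489) (nat_lit 14) (.e (nat_lit 73755) (nat_lit 8) (.e (nat_lit 557089) (nat_lit 12) (.e (nat_lit 163844) (nat_lit 0) (.e (nat_lit 5945) (nat_lit 322) (.e (nat_lit 57371) (nat_lit 2) (.e (nat_lit 90174) (nat_lit 14) .nil)))))))) (.g (nat_lit 1) (.e (nat_lit 202506) (nat_lit 0) .nil) .nil)))))) 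
(.nd (nat_lit 7) (.nd (nat_lit 8) (.nd (nat_lit 9) 
(.lf (nat_lit 512082) (.g (nat_lit 2801) (.e (nat_lit 180242) (nat_lit 5) (.e (nat_lit 532523) (nat_lit 7) (.e (nat_lit 319538) (nat_lit 19) (.e (nat_lit 311312) (nat_lit 2) (.e (nat_lit 196661) (nat_lit 12) .nil))))) (.g (nat_lit 0) (.e (nat_lit 199824) (nat_lit 0) .nil) .nil))) 
(.lf (nat_lit 512594) (.g (nat_lit 1854) (.e (nat_lit 180246) (nat_lit 6) (.e (nat_lit 540706) (nat_lit 12) (.e (nat_lit 360475) (nat_lit 8) (.e (nat_lit 557091) (nat_lit 12) .nil)))) (.g (nat_lit 0) (.e (nat_lit 201040) (nat_lit 0) .nil) .nil)))) (.nd (nat_lit 9) 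
(.lf (nat_lit 512338) (.g (nat_lit 1036) (.e (nat_lit 180244) (nat_lit 5) (.e (nat_lit 532481) (nat_lit 0) (.e (nat_lit 6722) (nat_lit 362) (.e (nat_lit 188160) (nat_lit 1) .nil)))) (.g (nat_lit 0) (.e (nat_lit 200568) (nat_lit 0) .nil) .nil))) 
(.lf (nat_lit 512850) (.g (nat_lit 2824) (.e (nat_lit 180251) (nat_lit 10) (.e (nat_lit 573469) (nat_lit 11) (.e (nat_lit 16448) (nat_lit 10) (.e (nat_lit 434231) (nat_lit 23) (.e (nat_lit 532482) (nat_lit 0) (.e (nat_lit 6722) (nat_lit 362) .nil)))))) (.g (nat_lit 1) (.e (nat_lit 202089) (nat_lit 0) .nil) .nil))))) (.nd (nat_lit 8) (.nd (nat_lit 9) 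
(.lf (nat_lit 512210) (.g (nat_lit 1332) (.e (nat_lit 180243) (nat_lit 5) (.e (nat_lit 532523) (nat_lit 7) (.e (nat_lit 319505) (nat_lit 10) (.e (nat_lit 5714) (nat_lit 312) .nil)))) (.g (nat_lit 0) (.e (nat_lit 200123) (nat_lit 0) .nil) .nil))) 
(.lf (nat_lit 512722) (.g (nat_lit 1269) (.e (nat_lit 180250) (nat_lit 10) (.e (nat_lit 573482) (nat_lit 13) (.e (nat_lit 65568) (nat_lit 2) (.e (nat_lit 98048) (nat_lit 2) .nil)))) (.g (nat_lit 0) (.e (nat_lit 201603) (nat_lit 0) .nil) .nil)))) (.nd (nat_lit 9) 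
(.lf (nat_lit 512466) (.g (nat_lit 4489) (.e (nat_lit 180244) (nat_lit 5) (.e (nat_lit 532550) (nat_lit 12) (.e (nat_lit 360475) (nat_lit 8) (.e (nat_lit 557091) (nat_lit 12) (.e (nat_lit 163843) (nat_lit 0) (.e (nat_lit 6250) (nat_lit 337) (.e (nat_lit 2641) (nat_lit 165) .nil))))))) (.g (nat_lit 1) (.e (nat_lit 200792) (nat_lit 0) .nil) .nil))) 
(.lf (nat_lit 512978) (.g (nat_lit 4022) (.e (nat_lit 180251) (nat_lit 10) (.e (nat_lit 573489) (nat_lit 14) (.e (nat_lit 73755) (nat_lit 8) (.e (nat_lit 557090) (nat_lit 12) (.e (nat_lit 171776) (nat_lit 0) (.e (nat_lit 5937) (nat_lit 322) (.e (nat_lit 57375) (nat_lit 2) (.e (nat_lit 90174) (nat_lit 14) .nil)))))))) (.g (nat_lit 1) (.e (nat_lit 202585) (nat_lit 0) .nil) .nil))))))) 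
(.nd (nat_lit 6) (.nd (nat_lit 7) (.nd (nat_lit 8) (.nd (nat_lit 9) 
(.lf (nat_lit 512050) (.g (nat_lit 5379) (.e (nat_lit 180228) (nat_lit 0) (.e (nat_lit 5548) (nat_lit 306) (.e (nat_lit 2610) (nat_lit 163) (.e (nat_lit 163977) (nat_lit 30) (.e (nat_lit 573493) (nat_lit 15) (.e (nat_lit 81953) (nat_lit 22) (.e (nat_lit 90174) (nat_lit 14) .nil))))))) (.g (nat_lit 1) (.e (nat_lit 199459) (nat_lit 0) .nil) .nil))) 
(.lf (nat_lit 512562) (.g (nat_lit 624) (.e (nat_lit 180245) (nat_lit 5) (.e (nat_lit 532569) (nat_lit 16) (.e (nat_lit 401446) (nat_lit 10) .nil))) (.g (nat_lit 0) (.e (nat_lit 200999) (nat_lit 0) .nil) .nil)))) (.nd (nat_lit 9) 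
(.lf (nat_lit 512306) (.g (nat_lit 4222) (.e (nat_lit 180243) (nat_lit 5) (.e (nat_lit 532550) (nat_lit 12) (.e (nat_lit 360475) (nat_lit 8) (.e (nat_lit 557091) (nat_lit 12) (.e (nat_lit 163849) (nat_lit 0) (.e (nat_lit 6255) (nat_lit 337) (.e (nat_lit 2643) (nat_lit 165) .nil))))))) (.g (nat_lit 1) (.e (nat_lit 200409) (nat_lit 0) .nil) .nil))) 
(.lf (nat_lit 512818) (.g (nat_lit 1006) (.e (nat_lit 180250) (nat_lit 10) (.e (nat_lit 573502) (nat_lit 18) (.e (nat_lit 1358) (nat_lit 102) (.e (nat_lit 286743) (nat_lit 9) (.e (nat_lit 336446) (nat_lit 33) .nil))))) (.g (nat_lit 0) (.e (nat_lit 202014) (nat_lit 0) .nil) .nil))))) (.nd (nat_lit 8) (.nd (nat_lit 9) 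
(.lf (nat_lit 512178) (.g (nat_lit 3082) (.e (nat_lit 180243) (nat_lit 5) (.e (nat_lit 532504) (nat_lit 1) (.e (nat_lit 57691) (nat_lit 156) (.e (nat_lit 163875) (nat_lit 3) (.e (nat_lit 204838) (nat_lit 20) (.e (nat_lit 114715) (nat_lit 22) (.e (nat_lit 90174) (nat_lit 14) .nil))))))) (.g (nat_lit 1) (.e (nat_lit 199981) (nat_lit 0) .nil) .nil))) 
(.lf (nat_lit 512690) (.g (nat_lit 2291) (.e (nat_lit 180250) (nat_lit 10) (.e (nat_lit 573471) (nat_lit 11) (.e (nat_lit 16473) (nat_lit 14) (.e (nat_lit 491577) (nat_lit 15) .nil)))) (.g (nat_lit 0) (.e (nat_lit 201424) (nat_lit 0) .nil) .nil)))) (.nd (nat_lit 9) 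
(.lf (nat_lit 512434) (.g (nat_lit 4136) (.e (nat_lit 180244) (nat_lit 5) (.e (nat_lit 532549) (nat_lit 12) (.e (nat_lit 360475) (nat_lit 8) (.e (nat_lit 557091) (nat_lit 12) (.e (nat_lit 163843) (nat_lit 0) (.e (nat_lit 6255) (nat_lit 337) (.e (nat_lit 2641) (nat_lit 165) .nil))))))) (.g (nat_lit 1) (.e (nat_lit 200748) (nat_lit 0) .nil) .nil))) 
(.lf (nat_lit 512946) (.g (nat_lit 3911) (.e (nat_lit 180251) (nat_lit 10) (.e (nat_lit 573489) (nat_lit 14) (.e (nat_lit 73755) (nat_lit 8) (.e (nat_lit 557090) (nat_lit 12) (.e (nat_lit 163849) (nat_lit 0) (.e (nat_lit 5934) (nat_lit 322) (.e (nat_lit 57372) (nat_lit 2) (.e (nat_lit 90174) (nat_lit 14) .nil)))))))) (.g (nat_lit 1) (.e (nat_lit 202551) (nat_lit 0) .nil) .nil)))))) 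
(.nd (nat_lit 7) (.nd (nat_lit 8) (.nd (nat_lit 9) 
(.lf (nat_lit 512114) (.g (nat_lit 3628) (.e (nat_lit 180242) (nat_lit 5) (.e (nat_lit 532550) (nat_lit 12) (.e (nat_lit 360475) (nat_lit 8) (.e (nat_lit 557091) (nat_lit 12) (.e (nat_lit 163852) (nat_lit 0) .nil))))) (.g (nat_lit 0) (.e (nat_lit 199874) (nat_lit 0) .nil) .nil))) 
(.lf (nat_lit 512626) (.g (nat_lit 1952) (.e (nat_lit 180250) (nat_lit 10) (.e (nat_lit 573456) (nat_lit 9) (.e (nat_lit 1669) (nat_lit 116) (.e (nat_lit 401459) (nat_lit 13) (.e (nat_lit 483363) (nat_lit 18) .nil))))) (.g (nat_lit 0) (.e (nat_lit 201300) (nat_lit 0) .nil) .nil)))) (.nd (nat_lit 9) 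
(.lf (nat_lit 512370) (.g (nat_lit 2708) (.e (nat_lit 180244) (nat_lit 5) (.e (nat_lit 532523) (nat_lit 7) (.e (nat_lit 319505) (nat_lit 10) (.e (nat_lit 5714) (nat_lit 312) (.e (nat_lit 2663) (nat_lit 167) (.e (nat_lit 196677) (nat_lit 16) (.e (nat_lit 130816) (nat_lit 206) .nil))))))) (.g (nat_lit 1) (.e (nat_lit 200620) (nat_lit 0) .nil) .nil))) 
(.lf (nat_lit 512882) (.g (nat_lit 2695) (.e (nat_lit 180251) (nat_lit 10) (.e (nat_lit 573489) (nat_lit 14) (.e (nat_lit 73747) (nat_lit 3) (.e (nat_lit 516119) (nat_lit 1) (.e (nat_lit 171776) (nat_lit 160) .nil))))) (.g (nat_lit 0) (.e (nat_lit 202402) (nat_lit 0) .nil) .nil))))) (.nd (nat_lit 8) (.nd (nat_lit 9) 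
(.lf (nat_lit 512242) (.g (nat_lit 4047) (.e (nat_lit 180243) (nat_lit 5) (.e (nat_lit 532535) (nat_lit 9) (.e (nat_lit 336176) (nat_lit 10) (.e (nat_lit 344130) (nat_lit 26) .nil)))) (.g (nat_lit 0) (.e (nat_lit 200277) (nat_lit 0) .nil) .nil))) 
(.lf (nat_lit 512754) (.g (nat_lit 458) (.e (nat_lit 180250) (nat_lit 10) (.e (nat_lit 573489) (nat_lit 14) (.e (nat_lit 73754) (nat_lit 8) .nil))) (.g (nat_lit 0) (.e (nat_lit 201852) (nat_lit 0) .nil) .nil)))) (.nd (nat_lit 9) 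
(.lf (nat_lit 512498) (.g (nat_lit 323) (.e (nat_lit 180245) (nat_lit 5) (.e (nat_lit 532515) (nat_lit 3) (.e (nat_lit 114715) (nat_lit 22) .nil))) (.g (nat_lit 0) (.e (nat_lit 200871) (nat_lit 0) .nil) .nil))) 
(.lf (nat_lit 513010) (.g (nat_lit 1915) (.e (nat_lit 180251) (nat_lit 10) (.e (nat_lit 573489) (nat_lit 14) (.e (nat_lit 73755) (nat_lit 8) (.e (nat_lit 557091) (nat_lit 12) (.e (nat_lit 163852) (nat_lit 0) .nil))))) (.g (nat_lit 0) (.e (nat_lit 202656) (nat_lit 0) .nil) .nil))))))))) (.nd (nat_lit 4) (.nd (nat_lit 5) (.nd (nat_lit 6) (.nd (nat_lit 7) (.nd (nat_lit 8) (.nd (nat_lit 9) 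
(.lf (nat_lit 512010) (.g (nat_lit 2366) (.e (nat_lit 179968) (nat_lit 34) (.e (nat_lit 393283) (nat_lit 24) (.e (nat_lit 434231) (nat_lit 23) (.e (nat_lit 532499) (nat_lit 1) (.e (nat_lit 57667) (nat_lit 152) .nil))))) (.g (nat_lit 0) (.e (nat_lit 198758) (nat_lit 0) .nil) .nil))) 
(.lf (nat_lit 512522) (.g (nat_lit 2730) (.e (nat_lit 180245) (nat_lit 5) (.e (nat_lit 532523) (nat_lit 7) (.e (nat_lit 319539) (nat_lit 19) (.e (nat_lit 311312) (nat_lit 2) (.e (nat_lit 196661) (nat_lit 12) (.e (nat_lit 65280) (nat_lit 206) .nil)))))) (.g (nat_lit 1) (.e (nat_lit 200928) (nat_lit 0) .nil) .nil)))) (.nd (nat_lit 9) 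
(.lf (nat_lit 512266) (.g (nat_lit 1216) (.e (nat_lit 180243) (nat_lit 5) (.e (nat_lit 532549) (nat_lit 12) (.e (nat_lit 360474) (nat_lit 8) (.e (nat_lit 557094) (nat_lit 12) .nil)))) (.g (nat_lit 0) (.e (nat_lit 200351) (nat_lit 0) .nil) .nil))) 
(.lf (nat_lit 512778) (.g (nat_lit 3105) (.e (nat_lit 180250) (nat_lit 10) (.e (nat_lit 573489) (nat_lit 14) (.e (nat_lit 73755) (nat_lit 8) (.e (nat_lit 557090) (nat_lit 12) (.e (nat_lit 163846) (nat_lit 0) .nil))))) (.g (nat_lit 0) (.e (nat_lit 201921) (nat_lit 0) .nil) .nil))))) (.nd (nat_lit 8) (.nd (nat_lit 9) 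
(.lf (nat_lit 512138) (.g (nat_lit 2181) (.e (nat_lit 180243) (nat_lit 5) (.e (nat_lit 532482) (nat_lit 0) (.e (nat_lit 6724) (nat_lit 362) (.e (nat_lit 180243) (nat_lit 5) (.e (nat_lit 532488) (nat_lit 0) (.e (nat_lit 7936) (nat_lit 362) .nil)))))) (.g (nat_lit 1) (.e (nat_lit 199906) (nat_lit 0) .nil) .nil))) 
(.lf (nat_lit 512650) (.g (nat_lit 2746) (.e (nat_lit 180250) (nat_lit 10) (.e (nat_lit 573469) (nat_lit 11) (.e (nat_lit 16446) (nat_lit 9) (.e (nat_lit 426124) (nat_lit 2) (.e (nat_lit 196677) (nat_lit 16) (.e (nat_lit 130816) (nat_lit 206) .nil)))))) (.g (nat_lit 1) (.e (nat_lit 201335) (nat_lit 0) .nil) .nil)))) (.nd (nat_lit 9) 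
(.lf (nat_lit 512394) (.g (nat_lit 2359) (.e (nat_lit 180244) (nat_lit 5) (.e (nat_lit 532523) (nat_lit 7) (.e (nat_lit 319533) (nat_lit 16) (.e (nat_lit 286732) (nat_lit 2) (.e (nat_lit 90165) (nat_lit 12) .nil))))) (.g (nat_lit 0) (.e (nat_lit 200651) (nat_lit 0) .nil) .nil))) 
(.lf (nat_lit 512906) (.g (nat_lit 2682) (.e (nat_lit 180251) (nat_lit 10) (.e (nat_lit 573489) (nat_lit 14) (.e (nat_lit 73755) (nat_lit 8) (.e (nat_lit 557076) (nat_lit 9) .nil)))) (.g (nat_lit 0) (.e (nat_lit 202463) (nat_lit 0) .nil) .nil)))))) (.nd (nat_lit 7) (.nd (nat_lit 8) (.nd (nat_lit 9) 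
(.lf (nat_lit 512074) (.g (nat_lit 3185) (.e (nat_lit 180242) (nat_lit 5) (.e (nat_lit 532490) (nat_lit 0) (.e (nat_lit 6114) (nat_lit 332) (.e (nat_lit 1374) (nat_lit 104) (.e (nat_lit 303117) (nat_lit 2) .nil))))) (.g (nat_lit 0) (.e (nat_lit 199809) (nat_lit 0) .nil) .nil))) 
(.lf (nat_lit 512586) (.g (nat_lit 2190) (.e (nat_lit 180246) (nat_lit 6) (.e (nat_lit 540706) (nat_lit 12) (.e (nat_lit 360475) (nat_lit 8) (.e (nat_lit 557089) (nat_lit 12) .nil)))) (.g (nat_lit 0) (.e (nat_lit 201031) (nat_lit 0) .nil) .nil)))) (.nd (nat_lit 9) 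
(.lf (nat_lit 512330) (.g (nat_lit 2495) (.e (nat_lit 180243) (nat_lit 5) (.e (nat_lit 532569) (nat_lit 16) (.e (nat_lit 401448) (nat_lit 10) (.e (nat_lit 434231) (nat_lit 23) (.e (nat_lit 532481) (nat_lit 0) .nil))))) (.g (nat_lit 0) (.e (nat_lit 200536) (nat_lit 0) .nil) .nil))) 
(.lf (nat_lit 512842) (.g (nat_lit 3759) (.e (nat_lit 180251) (nat_lit 10) (.e (nat_lit 573456) (nat_lit 9) (.e (nat_lit 1669) (nat_lit 116) (.e (nat_lit 401459) (nat_lit 13) (.e (nat_lit 483364) (nat_lit 18) (.e (nat_lit 57665) (nat_lit 152) (.e (nat_lit 7936) (nat_lit 165) .nil))))))) (.g (nat_lit 1) (.e (nat_lit 202070) (nat_lit 0) .nil) .nil))))) (.nd (nat_lit 8) (.nd (nat_lit 9) 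
(.lf (nat_lit 512202) (.g (nat_lit 2109) (.e (nat_lit 180243) (nat_lit 5) (.e (nat_lit 532515) (nat_lit 3) (.e (nat_lit 114719) (nat_lit 23) (.e (nat_lit 98333) (nat_lit 18) (.e (nat_lit 164396) (nat_lit 256) .nil))))) (.g (nat_lit 0) (.e (nat_lit 200112) (nat_lit 0) .nil) .nil))) 
(.lf (nat_lit 512714) (.g (nat_lit 3966) (.e (nat_lit 180250) (nat_lit 10) (.e (nat_lit 573477) (nat_lit 12) (.e (nat_lit 57502) (nat_lit 38) (.e (nat_lit 638995) (nat_lit 7) (.e (nat_lit 163978) (nat_lit 30) (.e (nat_lit 573487) (nat_lit 14) (.e (nat_lit 73753) (nat_lit 8) (.e (nat_lit 557103) (nat_lit 14) .nil)))))))) (.g (nat_lit 1) (.e (nat_lit 201496) (nat_lit 0) .nil) .nil)))) 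
(.nd (nat_lit 9) 
(.lf (nat_lit 512458) (.g (nat_lit 4413) (.e (nat_lit 180244) (nat_lit 5) (.e (nat_lit 532550) (nat_lit 12) (.e (nat_lit 360475) (nat_lit 8) (.e (nat_lit 557089) (nat_lit 12) (.e (nat_lit 164017) (nat_lit 44) (.e (nat_lit 696064) (nat_lit 9) .nil)))))) (.g (nat_lit 1) (.e (nat_lit 200782) (nat_lit 0) .nil) .nil))) 
(.lf (nat_lit 512970) (.g (nat_lit 4245) (.e (nat_lit 180251) (nat_lit 10) (.e (nat_lit 573489) (nat_lit 14) (.e (nat_lit 73755) (nat_lit 8) (.e (nat_lit 557090) (nat_lit 12) (.e (nat_lit 163854) (nat_lit 0) (.e (nat_lit 5953) (nat_lit 322) (.e (nat_lit 57371) (nat_lit 2) (.e (nat_lit 90174) (nat_lit 14) .nil)))))))) (.g (nat_lit 1) (.e (nat_lit 202575) (nat_lit 0) .nil) .nil))))))) 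
(.nd (nat_lit 6) (.nd (nat_lit 7) (.nd (nat_lit 8) (.nd (nat_lit 9) 
(.lf (nat_lit 512042) (.g (nat_lit 826) (.e (nat_lit 180226) (nat_lit 0) (.e (nat_lit 6418) (nat_lit 341) (.e (nat_lit 163908) (nat_lit 12) (.e (nat_lit 426195) (nat_lit 9) (.e (nat_lit 426550) (nat_lit 31) .nil))))) (.g (nat_lit 0) (.e (nat_lit 199145) (nat_lit 0) .nil) .nil))) 
(.lf (nat_lit 512554) (.g (nat_lit 4852) (.e (nat_lit 180245) (nat_lit 5) (.e (nat_lit 532550) (nat_lit 12) (.e (nat_lit 360475) (nat_lit 8) (.e (nat_lit 557089) (nat_lit 12) (.e (nat_lit 164017) (nat_lit 44) .nil))))) (.g (nat_lit 0) (.e (nat_lit 200982) (nat_lit 0) .nil) .nil)))) (.nd (nat_lit 9) 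
(.lf (nat_lit 512298) (.g (nat_lit 3865) (.e (nat_lit 180243) (nat_lit 5) (.e (nat_lit 532550) (nat_lit 12) (.e (nat_lit 360475) (nat_lit 8) (.e (nat_lit 557089) (nat_lit 12) (.e (nat_lit 163849) (nat_lit 0) (.e (nat_lit 6254) (nat_lit 337) (.e (nat_lit 2643) (nat_lit 165) .nil))))))) (.g (nat_lit 1) (.e (nat_lit 200401) (nat_lit 0) .nil) .nil))) 
(.lf (nat_lit 512810) (.g (nat_lit 3365) (.e (nat_lit 180250) (nat_lit 10) (.e (nat_lit 573489) (nat_lit 14) (.e (nat_lit 73755) (nat_lit 8) (.e (nat_lit 557091) (nat_lit 12) (.e (nat_lit 163855) (nat_lit 0) (.e (nat_lit 5944) (nat_lit 322) (.e (nat_lit 57373) (nat_lit 2) (.e (nat_lit 90174) (nat_lit 14) .nil)))))))) (.g (nat_lit 1) (.e (nat_lit 201989) (nat_lit 0) .nil) .nil))))) 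
(.nd (nat_lit 8) (.nd (nat_lit 9) 
(.lf (nat_lit 512170) (.g (nat_lit 2559) (.e (nat_lit 180243) (nat_lit 5) (.e (nat_lit 532503) (nat_lit 1) (.e (nat_lit 57692) (nat_lit 156) (.e (nat_lit 163874) (nat_lit 3) (.e (nat_lit 204836) (nat_lit 20) .nil))))) (.g (nat_lit 0) (.e (nat_lit 199969) (nat_lit 0) .nil) .nil))) 
(.lf (nat_lit 512682) (.g (nat_lit 2320) (.e (nat_lit 180250) (nat_lit 10) (.e (nat_lit 573471) (nat_lit 11) (.e (nat_lit 16448) (nat_lit 10) (.e (nat_lit 434232) (nat_lit 23) .nil)))) (.g (nat_lit 0) (.e (nat_lit 201405) (nat_lit 0) .nil) .nil)))) (.nd (nat_lit 9) 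
(.lf (nat_lit 512426) (.g (nat_lit 3028) (.e (nat_lit 180244) (nat_lit 5) (.e (nat_lit 532549) (nat_lit 12) (.e (nat_lit 360474) (nat_lit 8) (.e (nat_lit 557091) (nat_lit 12) .nil)))) (.g (nat_lit 0) (.e (nat_lit 200738) (nat_lit 0) .nil) .nil))) 
(.lf (nat_lit 512938) (.g (nat_lit 4244) (.e (nat_lit 180251) (nat_lit 10) (.e (nat_lit 573489) (nat_lit 14) (.e (nat_lit 73755) (nat_lit 8) (.e (nat_lit 557090) (nat_lit 12) (.e (nat_lit 163845) (nat_lit 0) (.e (nat_lit 5940) (nat_lit 322) (.e (nat_lit 57371) (nat_lit 2) (.e (nat_lit 90174) (nat_lit 14) .nil)))))))) (.g (nat_lit 1) (.e (nat_lit 202543) (nat_lit 0) .nil) .nil)))))) 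
(.nd (nat_lit 7) (.nd (nat_lit 8) (.nd (nat_lit 9) 
(.lf (nat_lit 512106) (.g (nat_lit 4316) (.e (nat_lit 180242) (nat_lit 5) (.e (nat_lit 532550) (nat_lit 12) (.e (nat_lit 360475) (nat_lit 8) (.e (nat_lit 557089) (nat_lit 12) (.e (nat_lit 164017) (nat_lit 44) .nil))))) (.g (nat_lit 0) (.e (nat_lit 199866) (nat_lit 0) .nil) .nil))) 
(.lf (nat_lit 512618) (.g (nat_lit 1917) (.e (nat_lit 180249) (nat_lit 10) (.e (nat_lit 573471) (nat_lit 11) (.e (nat_lit 16447) (nat_lit 10) (.e (nat_lit 434231) (nat_lit 23) .nil)))) (.g (nat_lit 0) (.e (nat_lit 201197) (nat_lit 0) .nil) .nil)))) (.nd (nat_lit 9) 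
(.lf (nat_lit 512362) (.g (nat_lit 2777) (.e (nat_lit 180244) (nat_lit 5) (.e (nat_lit 532522) (nat_lit 7) (.e (nat_lit 319530) (nat_lit 16) (.e (nat_lit 286735) (nat_lit 3) (.e (nat_lit 98323) (nat_lit 17) (.e (nat_lit 7936) (nat_lit 393) .nil)))))) (.g (nat_lit 1) (.e (nat_lit 200608) (nat_lit 0) .nil) .nil))) 
(.lf (nat_lit 512874) (.g (nat_lit 958) (.e (nat_lit 180251) (nat_lit 10) (.e (nat_lit 573485) (nat_lit 13) (.e (nat_lit 65568) (nat_lit 2) (.e (nat_lit 98048) (nat_lit 2) .nil)))) (.g (nat_lit 0) (.e (nat_lit 202328) (nat_lit 0) .nil) .nil))))) (.nd (nat_lit 8) (.nd (nat_lit 9) 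
(.lf (nat_lit 512234) (.g (nat_lit 1591) (.e (nat_lit 180243) (nat_lit 5) (.e (nat_lit 532523) (nat_lit 7) (.e (nat_lit 319534) (nat_lit 16) (.e (nat_lit 286733) (nat_lit 2) .nil)))) (.g (nat_lit 0) (.e (nat_lit 200153) (nat_lit 0) .nil) .nil))) 
(.lf (nat_lit 512746) (.g (nat_lit 3120) (.e (nat_lit 180250) (nat_lit 10) (.e (nat_lit 573488) (nat_lit 14) (.e (nat_lit 73755) (nat_lit 8) (.e (nat_lit 557090) (nat_lit 12) (.e (nat_lit 164010) (nat_lit 41) .nil))))) (.g (nat_lit 0) (.e (nat_lit 201835) (nat_lit 0) .nil) .nil)))) (.nd (nat_lit 9) 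
(.lf (nat_lit 512490) (.g (nat_lit 2062) (.e (nat_lit 180244) (nat_lit 5) (.e (nat_lit 532569) (nat_lit 16) (.e (nat_lit 401448) (nat_lit 10) (.e (nat_lit 434230) (nat_lit 23) .nil)))) (.g (nat_lit 0) (.e (nat_lit 200851) (nat_lit 0) .nil) .nil))) 
(.lf (nat_lit 513002) (.g (nat_lit 2764) (.e (nat_lit 180251) (nat_lit 10) (.e (nat_lit 573489) (nat_lit 14) (.e (nat_lit 73755) (nat_lit 8) (.e (nat_lit 557091) (nat_lit 12) (.e (nat_lit 163844) (nat_lit 0) (.e (nat_lit 5943) (nat_lit 322) (.e (nat_lit 57375) (nat_lit 2) (.e (nat_lit 90172) (nat_lit 14) .nil)))))))) (.g (nat_lit 1) (.e (nat_lit 202648) (nat_lit 0) .nil) .nil)))))))) 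
(.nd (nat_lit 5) (.nd (nat_lit 6) (.nd (nat_lit 7) (.nd (nat_lit 8) (.nd (nat_lit 9) 
(.lf (nat_lit 512026) (.g (nat_lit 1333) (.e (nat_lit 179968) (nat_lit 34) (.e (nat_lit 393301) (nat_lit 27) (.e (nat_lit 491538) (nat_lit 3) (.e (nat_lit 98334) (nat_lit 18) .nil)))) (.g (nat_lit 0) (.e (nat_lit 198774) (nat_lit 0) .nil) .nil))) 
(.lf (nat_lit 512538) (.g (nat_lit 3157) (.e (nat_lit 180245) (nat_lit 5) (.e (nat_lit 532523) (nat_lit 7) (.e (nat_lit 319534) (nat_lit 16) (.e (nat_lit 286734) (nat_lit 3) (.e (nat_lit 98320) (nat_lit 17) .nil))))) (.g (nat_lit 0) (.e (nat_lit 200946) (nat_lit 0) .nil) .nil)))) (.nd (nat_lit 9) 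
(.lf (nat_lit 512282) (.g (nat_lit 3444) (.e (nat_lit 180243) (nat_lit 5) (.e (nat_lit 532549) (nat_lit 12) (.e (nat_lit 360475) (nat_lit 8) (.e (nat_lit 557091) (nat_lit 12) (.e (nat_lit 163849) (nat_lit 0) .nil))))) (.g (nat_lit 0) (.e (nat_lit 200373) (nat_lit 0) .nil) .nil))) 
(.lf (nat_lit 512794) (.g (nat_lit 3256) (.e (nat_lit 180250) (nat_lit 10) (.e (nat_lit 573489) (nat_lit 14) (.e (nat_lit 73755) (nat_lit 8) (.e (nat_lit 557090) (nat_lit 12) (.e (nat_lit 163854) (nat_lit 0) .nil))))) (.g (nat_lit 0) (.e (nat_lit 201937) (nat_lit 0) .nil) .nil))))) (.nd (nat_lit 8) (.nd (nat_lit 9) 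
(.lf (nat_lit 512154) (.g (nat_lit 2425) (.e (nat_lit 180243) (nat_lit 5) (.e (nat_lit 532500) (nat_lit 1) (.e (nat_lit 57691) (nat_lit 156) (.e (nat_lit 163874) (nat_lit 3) (.e (nat_lit 204838) (nat_lit 20) .nil))))) (.g (nat_lit 0) (.e (nat_lit 199943) (nat_lit 0) .nil) .nil))) 
(.lf (nat_lit 512666) (.g (nat_lit 2906) (.e (nat_lit 180250) (nat_lit 10) (.e (nat_lit 573471) (nat_lit 11) (.e (nat_lit 16445) (nat_lit 9) (.e (nat_lit 426124) (nat_lit 2) (.e (nat_lit 196677) (nat_lit 16) (.e (nat_lit 130816) (nat_lit 206) .nil)))))) (.g (nat_lit 1) (.e (nat_lit 201380) (nat_lit 0) .nil) .nil)))) (.nd (nat_lit 9) 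
(.lf (nat_lit 512410) (.g (nat_lit 3703) (.e (nat_lit 180244) (nat_lit 5) (.e (nat_lit 532523) (nat_lit 7) (.e (nat_lit 319534) (nat_lit 16) (.e (nat_lit 286735) (nat_lit 3) (.e (nat_lit 98323) (nat_lit 17) (.e (nat_lit 7936) (nat_lit 393) .nil)))))) (.g (nat_lit 1) (.e (nat_lit 200669) (nat_lit 0) .nil) .nil))) 
(.lf (nat_lit 512922) (.g (nat_lit 2416) (.e (nat_lit 180251) (nat_lit 10) (.e (nat_lit 573489) (nat_lit 14) (.e (nat_lit 73755) (nat_lit 8) (.e (nat_lit 557089) (nat_lit 12) (.e (nat_lit 164009) (nat_lit 41) .nil))))) (.g (nat_lit 0) (.e (nat_lit 202518) (nat_lit 0) .nil) .nil)))))) (.nd (nat_lit 7) (.nd (nat_lit 8) (.nd (nat_lit 9) 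
(.lf (nat_lit 512090) (.g (nat_lit 4813) (.e (nat_lit 180242) (nat_lit 5) (.e (nat_lit 532550) (nat_lit 12) (.e (nat_lit 360474) (nat_lit 8) (.e (nat_lit 557088) (nat_lit 12) .nil)))) (.g (nat_lit 0) (.e (nat_lit 199846) (nat_lit 0) .nil) .nil))) 
(.lf (nat_lit 512602) (.g (nat_lit 3256) (.e (nat_lit 180246) (nat_lit 6) (.e (nat_lit 540706) (nat_lit 12) (.e (nat_lit 360475) (nat_lit 8) (.e (nat_lit 557091) (nat_lit 12) (.e (nat_lit 163852) (nat_lit 0) .nil))))) (.g (nat_lit 0) (.e (nat_lit 201048) (nat_lit 0) .nil) .nil)))) (.nd (nat_lit 9) 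
(.lf (nat_lit 512346) (.g (nat_lit 2336) (.e (nat_lit 180244) (nat_lit 5) (.e (nat_lit 532500) (nat_lit 1) (.e (nat_lit 57692) (nat_lit 156) (.e (nat_lit 163874) (nat_lit 3) (.e (nat_lit 204836) (nat_lit 20) .nil))))) (.g (nat_lit 0) (.e (nat_lit 200581) (nat_lit 0) .nil) .nil))) 
(.lf (nat_lit 512858) (.g (nat_lit 852) (.e (nat_lit 180251) (nat_lit 10) (.e (nat_lit 573471) (nat_lit 11) (.e (nat_lit 16446) (nat_lit 9) .nil))) (.g (nat_lit 0) (.e (nat_lit 202102) (nat_lit 0) .nil) .nil))))) (.nd (nat_lit 8) (.nd (nat_lit 9) 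
(.lf (nat_lit 512218) (.g (nat_lit 1354) (.e (nat_lit 180243) (nat_lit 5) (.e (nat_lit 532523) (nat_lit 7) (.e (nat_lit 319539) (nat_lit 19) (.e (nat_lit 311312) (nat_lit 2) .nil)))) (.g (nat_lit 0) (.e (nat_lit 200136) (nat_lit 0) .nil) .nil))) 
(.lf (nat_lit 512730) (.g (nat_lit 3134) (.e (nat_lit 180250) (nat_lit 10) (.e (nat_lit 573487) (nat_lit 14) (.e (nat_lit 73753) (nat_lit 8) (.e (nat_lit 557090) (nat_lit 12) (.e (nat_lit 163840) (nat_lit 0) (.e (nat_lit 5943) (nat_lit 322) (.e (nat_lit 57372) (nat_lit 2) (.e (nat_lit 90172) (nat_lit 14) .nil)))))))) (.g (nat_lit 1) (.e (nat_lit 201788) (nat_lit 0) .nil) .nil)))) (.nd (nat_lit 9) 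
(.lf (nat_lit 512474) (.g (nat_lit 3770) (.e (nat_lit 180244) (nat_lit 5) (.e (nat_lit 532550) (nat_lit 12) (.e (nat_lit 360475) (nat_lit 8) (.e (nat_lit 557091) (nat_lit 12) (.e (nat_lit 164019) (nat_lit 45) .nil))))) (.g (nat_lit 0) (.e (nat_lit 200800) (nat_lit 0) .nil) .nil))) 
(.lf (nat_lit 512986) (.g (nat_lit 875) (.e (nat_lit 180251) (nat_lit 10) (.e (nat_lit 573489) (nat_lit 14) (.e (nat_lit 73755) (nat_lit 8) (.e (nat_lit 557091) (nat_lit 12) .nil)))) (.g (nat_lit 0) (.e (nat_lit 202632) (nat_lit 0) .nil) .nil))))))) (.nd (nat_lit 6) (.nd (nat_lit 7) (.nd (nat_lit 8) (.nd (nat_lit 9) 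
(.lf (nat_lit 512058) (.g (nat_lit 5692) (.e (nat_lit 180232) (nat_lit 0) (.e (nat_lit 5448) (nat_lit 306) (.e (nat_lit 2612) (nat_lit 163) (.e (nat_lit 163979) (nat_lit 30) (.e (nat_lit 573493) (nat_lit 15) (.e (nat_lit 81953) (nat_lit 22) (.e (nat_lit 90173) (nat_lit 14) .nil))))))) (.g (nat_lit 1) (.e (nat_lit 199633) (nat_lit 0) .nil) .nil))) 
(.lf (nat_lit 512570) (.g (nat_lit 2935) (.e (nat_lit 180245) (nat_lit 5) (.e (nat_lit 532569) (nat_lit 16) (.e (nat_lit 401448) (nat_lit 10) (.e (nat_lit 434231) (nat_lit 23) (.e (nat_lit 532482) (nat_lit 0) .nil))))) (.g (nat_lit 0) (.e (nat_lit 201008) (nat_lit 0) .nil) .nil)))) (.nd (nat_lit 9) 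
(.lf (nat_lit 512314) (.g (nat_lit 2932) (.e (nat_lit 180243) (nat_lit 5) (.e (nat_lit 532567) (nat_lit 16) (.e (nat_lit 401448) (nat_lit 10) (.e (nat_lit 434231) (nat_lit 23) (.e (nat_lit 532482) (nat_lit 0) (.e (nat_lit 6724) (nat_lit 362) .nil)))))) (.g (nat_lit 1) (.e (nat_lit 200509) (nat_lit 0) .nil) .nil))) 
(.lf (nat_lit 512826) (.g (nat_lit 1847) (.e (nat_lit 180251) (nat_lit 10) (.e (nat_lit 573456) (nat_lit 9) (.e (nat_lit 1669) (nat_lit 116) (.e (nat_lit 401459) (nat_lit 13) (.e (nat_lit 483354) (nat_lit 17) .nil))))) (.g (nat_lit 0) (.e (nat_lit 202054) (nat_lit 0) .nil) .nil))))) (.nd (nat_lit 8) (.nd (nat_lit 9) 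
(.lf (nat_lit 512186) (.g (nat_lit 1349) (.e (nat_lit 180243) (nat_lit 5) (.e (nat_lit 532513) (nat_lit 3) (.e (nat_lit 114714) (nat_lit 22) (.e (nat_lit 90153) (nat_lit 10) .nil)))) (.g (nat_lit 0) (.e (nat_lit 200036) (nat_lit 0) .nil) .nil))) 
(.lf (nat_lit 512698) (.g (nat_lit 2425) (.e (nat_lit 180250) (nat_lit 10) (.e (nat_lit 573474) (nat_lit 12) (.e (nat_lit 57503) (nat_lit 38) (.e (nat_lit 639002) (nat_lit 11) (.e (nat_lit 229433) (nat_lit 25) .nil))))) (.g (nat_lit 0) (.e (nat_lit 201434) (nat_lit 0) .nil) .nil)))) (.nd (nat_lit 9) 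
(.lf (nat_lit 512442) (.g (nat_lit 593) (.e (nat_lit 180244) (nat_lit 5) (.e (nat_lit 532550) (nat_lit 12) (.e (nat_lit 360474) (nat_lit 8) .nil))) (.g (nat_lit 0) (.e (nat_lit 200760) (nat_lit 0) .nil) .nil))) 
(.lf (nat_lit 512954) (.g (nat_lit 3992) (.e (nat_lit 180251) (nat_lit 10) (.e (nat_lit 573489) (nat_lit 14) (.e (nat_lit 73755) (nat_lit 8) (.e (nat_lit 557090) (nat_lit 12) (.e (nat_lit 163851) (nat_lit 0) (.e (nat_lit 5935) (nat_lit 322) (.e (nat_lit 57373) (nat_lit 2) (.e (nat_lit 90174) (nat_lit 14) .nil)))))))) (.g (nat_lit 1) (.e (nat_lit 202559) (nat_lit 0) .nil) .nil)))))) 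
(.nd (nat_lit 7) (.nd (nat_lit 8) (.nd (nat_lit 9) 
(.lf (nat_lit 512122) (.g (nat_lit 2528) (.e (nat_lit 180242) (nat_lit 5) (.e (nat_lit 532569) (nat_lit 16) (.e (nat_lit 401448) (nat_lit 10) (.e (nat_lit 434227) (nat_lit 20) (.e (nat_lit 507928) (nat_lit 10) .nil))))) (.g (nat_lit 0) (.e (nat_lit 199885) (nat_lit 0) .nil) .nil))) 
(.lf (nat_lit 512634) (.g (nat_lit 3832) (.e (nat_lit 180250) (nat_lit 10) (.e (nat_lit 573456) (nat_lit 9) (.e (nat_lit 1669) (nat_lit 116) (.e (nat_lit 401459) (nat_lit 13) (.e (nat_lit 483363) (nat_lit 18) (.e (nat_lit 57657) (nat_lit 152) (.e (nat_lit 2641) (nat_lit 165) .nil))))))) (.g (nat_lit 1) (.e (nat_lit 201308) (nat_lit 0) .nil) .nil)))) (.nd (nat_lit 9) 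
(.lf (nat_lit 512378) (.g (nat_lit 2080) (.e (nat_lit 180244) (nat_lit 5) (.e (nat_lit 532523) (nat_lit 7) (.e (nat_lit 319538) (nat_lit 19) (.e (nat_lit 311314) (nat_lit 3) (.e (nat_lit 212736) (nat_lit 17) .nil))))) (.g (nat_lit 0) (.e (nat_lit 200633) (nat_lit 0) .nil) .nil))) 
(.lf (nat_lit 512890) (.g (nat_lit 1974) (.e (nat_lit 180251) (nat_lit 10) (.e (nat_lit 573489) (nat_lit 14) (.e (nat_lit 73755) (nat_lit 8) (.e (nat_lit 564992) (nat_lit 0) .nil)))) (.g (nat_lit 0) (.e (nat_lit 202435) (nat_lit 0) .nil) .nil))))) (.nd (nat_lit 8) (.nd (nat_lit 9) 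
(.lf (nat_lit 512250) (.g (nat_lit 5035) (.e (nat_lit 180243) (nat_lit 5) (.e (nat_lit 532549) (nat_lit 12) (.e (nat_lit 360473) (nat_lit 8) (.e (nat_lit 557091) (nat_lit 12) (.e (nat_lit 163843) (nat_lit 0) (.e (nat_lit 6255) (nat_lit 337) (.e (nat_lit 2643) (nat_lit 165) .nil))))))) (.g (nat_lit 1) (.e (nat_lit 200329) (nat_lit 0) .nil) .nil))) 
(.lf (nat_lit 512762) (.g (nat_lit 2982) (.e (nat_lit 180250) (nat_lit 10) (.e (nat_lit 573489) (nat_lit 14) (.e (nat_lit 73755) (nat_lit 8) (.e (nat_lit 557067) (nat_lit 9) (.e (nat_lit 2715) (nat_lit 171) .nil))))) (.g (nat_lit 0) (.e (nat_lit 201877) (nat_lit 0) .nil) .nil)))) (.nd (nat_lit 9) 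
(.lf (nat_lit 512506) (.g (nat_lit 2237) (.e (nat_lit 180245) (nat_lit 5) (.e (nat_lit 532515) (nat_lit 3) (.e (nat_lit 114719) (nat_lit 23) (.e (nat_lit 98334) (nat_lit 18) (.e (nat_lit 164403) (nat_lit 256) .nil))))) (.g (nat_lit 0) (.e (nat_lit 200903) (nat_lit 0) .nil) .nil))) 
(.lf (nat_lit 513018) (.g (nat_lit 2668) (.e (nat_lit 180251) (nat_lit 10) (.e (nat_lit 573489) (nat_lit 14) (.e (nat_lit 73755) (nat_lit 8) (.e (nat_lit 557093) (nat_lit 12) .nil)))) (.g (nat_lit 0) (.e (nat_lit 202721) (nat_lit 0) .nil) .nil)))))))))) (.nd (nat_lit 3) (.nd (nat_lit 4) (.nd (nat_lit 5) (.nd (nat_lit 6) (.nd (nat_lit 7) (.nd (nat_lit 8) (.nd (nat_lit 9) 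
(.lf (nat_lit 512006) (.g (nat_lit 2770) (.e (nat_lit 179968) (nat_lit 34) (.e (nat_lit 393273) (nat_lit 23) (.e (nat_lit 426131) (nat_lit 3) (.e (nat_lit 204829) (nat_lit 18) (.e (nat_lit 57653) (nat_lit 152) .nil))))) (.g (nat_lit 0) (.e (nat_lit 198754) (nat_lit 0) .nil) .nil))) 
(.lf (nat_lit 512518) (.g (nat_lit 1729) (.e (nat_lit 180245) (nat_lit 5) (.e (nat_lit 532523) (nat_lit 7) (.e (nat_lit 319538) (nat_lit 19) (.e (nat_lit 311311) (nat_lit 2) .nil)))) (.g (nat_lit 0) (.e (nat_lit 200924) (nat_lit 0) .nil) .nil)))) (.nd (nat_lit 9) 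
(.lf (nat_lit 512262) (.g (nat_lit 1929) (.e (nat_lit 180243) (nat_lit 5) (.e (nat_lit 532549) (nat_lit 12) (.e (nat_lit 360473) (nat_lit 8) (.e (nat_lit 557094) (nat_lit 12) (.e (nat_lit 163852) (nat_lit 0) .nil))))) (.g (nat_lit 0) (.e (nat_lit 200345) (nat_lit 0) .nil) .nil))) 
(.lf (nat_lit 512774) (.g (nat_lit 3400) (.e (nat_lit 180250) (nat_lit 10) (.e (nat_lit 573489) (nat_lit 14) (.e (nat_lit 73755) (nat_lit 8) (.e (nat_lit 557090) (nat_lit 12) (.e (nat_lit 163845) (nat_lit 0) (.e (nat_lit 5940) (nat_lit 322) (.e (nat_lit 57373) (nat_lit 2) (.e (nat_lit 90174) (nat_lit 14) .nil)))))))) (.g (nat_lit 1) (.e (nat_lit 201917) (nat_lit 0) .nil) .nil))))) 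
(.nd (nat_lit 8) (.nd (nat_lit 9) 
(.lf (nat_lit 512134) (.g (nat_lit 857) (.e (nat_lit 180243) (nat_lit 5) (.e (nat_lit 532482) (nat_lit 0) (.e (nat_lit 6722) (nat_lit 362) (.e (nat_lit 188160) (nat_lit 1) .nil)))) (.g (nat_lit 0) (.e (nat_lit 199902) (nat_lit 0) .nil) .nil))) 
(.lf (nat_lit 512646) (.g (nat_lit 2495) (.e (nat_lit 180250) (nat_lit 10) (.e (nat_lit 573456) (nat_lit 9) (.e (nat_lit 1669) (nat_lit 116) (.e (nat_lit 401459) (nat_lit 13) (.e (nat_lit 483364) (nat_lit 18) (.e (nat_lit 57671) (nat_lit 152) (.e (nat_lit 2637) (nat_lit 165) .nil))))))) (.g (nat_lit 1) (.e (nat_lit 201320) (nat_lit 0) .nil) .nil)))) (.nd (nat_lit 9) 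
(.lf (nat_lit 512390) (.g (nat_lit 3572) (.e (nat_lit 180244) (nat_lit 5) (.e (nat_lit 532523) (nat_lit 7) (.e (nat_lit 319531) (nat_lit 16) (.e (nat_lit 286735) (nat_lit 3) (.e (nat_lit 98323) (nat_lit 17) (.e (nat_lit 7936) (nat_lit 393) .nil)))))) (.g (nat_lit 1) (.e (nat_lit 200645) (nat_lit 0) .nil) .nil))) 
(.lf (nat_lit 512902) (.g (nat_lit 3555) (.e (nat_lit 180251) (nat_lit 10) (.e (nat_lit 573489) (nat_lit 14) (.e (nat_lit 73755) (nat_lit 8) (.e (nat_lit 557067) (nat_lit 9) (.e (nat_lit 2606) (nat_lit 163) (.e (nat_lit 164403) (nat_lit 256) (.e (nat_lit 57373) (nat_lit 2) (.e (nat_lit 90173) (nat_lit 14) .nil)))))))) (.g (nat_lit 1) (.e (nat_lit 202457) (nat_lit 0) .nil) .nil)))))) 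
(.nd (nat_lit 7) (.nd (nat_lit 8) (.nd (nat_lit 9) 
(.lf (nat_lit 512070) (.g (nat_lit 1205) (.e (nat_lit 188160) (nat_lit 1) (.e (nat_lit 499900) (nat_lit 7) (.e (nat_lit 24655) (nat_lit 13) (.e (nat_lit 393219) (nat_lit 0) .nil)))) (.g (nat_lit 0) (.e (nat_lit 199708) (nat_lit 0) .nil) .nil))) 
(.lf (nat_lit 512582) (.g (nat_lit 2353) (.e (nat_lit 188160) (nat_lit 5) (.e (nat_lit 532569) (nat_lit 16) (.e (nat_lit 401448) (nat_lit 10) (.e (nat_lit 434232) (nat_lit 23) .nil)))) (.g (nat_lit 0) (.e (nat_lit 201025) (nat_lit 0) .nil) .nil)))) (.nd (nat_lit 9) 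
(.lf (nat_lit 512326) (.g (nat_lit 2437) (.e (nat_lit 180243) (nat_lit 5) (.e (nat_lit 532569) (nat_lit 16) (.e (nat_lit 401448) (nat_lit 10) (.e (nat_lit 434223) (nat_lit 19) .nil)))) (.g (nat_lit 0) (.e (nat_lit 200532) (nat_lit 0) .nil) .nil))) 
(.lf (nat_lit 512838) (.g (nat_lit 3344) (.e (nat_lit 180251) (nat_lit 10) (.e (nat_lit 573456) (nat_lit 9) (.e (nat_lit 1669) (nat_lit 116) (.e (nat_lit 401459) (nat_lit 13) (.e (nat_lit 483363) (nat_lit 18) (.e (nat_lit 57665) (nat_lit 152) (.e (nat_lit 7936) (nat_lit 165) .nil))))))) (.g (nat_lit 1) (.e (nat_lit 202066) (nat_lit 0) .nil) .nil))))) (.nd (nat_lit 8) (.nd (nat_lit 9) 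
(.lf (nat_lit 512198) (.g (nat_lit 1300) (.e (nat_lit 180243) (nat_lit 5) (.e (nat_lit 532515) (nat_lit 3) (.e (nat_lit 114716) (nat_lit 22) (.e (nat_lit 90153) (nat_lit 10) .nil)))) (.g (nat_lit 0) (.e (nat_lit 200091) (nat_lit 0) .nil) .nil))) 
(.lf (nat_lit 512710) (.g (nat_lit 4750) (.e (nat_lit 180250) (nat_lit 10) (.e (nat_lit 573474) (nat_lit 12) (.e (nat_lit 57572) (nat_lit 54) (.e (nat_lit 770072) (nat_lit 8) (.e (nat_lit 65642) (nat_lit 15) (.e (nat_lit 3305) (nat_lit 202) (.e (nat_lit 573477) (nat_lit 12) (.e (nat_lit 65280) (nat_lit 206) .nil)))))))) (.g (nat_lit 1) (.e (nat_lit 201446) (nat_lit 0) .nil) .nil)))) 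
(.nd (nat_lit 9) 
(.lf (nat_lit 512454) (.g (nat_lit 2654) (.e (nat_lit 180244) (nat_lit 5) (.e (nat_lit 532550) (nat_lit 12) (.e (nat_lit 360475) (nat_lit 8) (.e (nat_lit 557089) (nat_lit 12) .nil)))) (.g (nat_lit 0) (.e (nat_lit 200778) (nat_lit 0) .nil) .nil))) 
(.lf (nat_lit 512966) (.g (nat_lit 4009) (.e (nat_lit 180251) (nat_lit 10) (.e (nat_lit 573489) (nat_lit 14) (.e (nat_lit 73755) (nat_lit 8) (.e (nat_lit 557090) (nat_lit 12) (.e (nat_lit 163854) (nat_lit 0) (.e (nat_lit 5934) (nat_lit 322) (.e (nat_lit 57371) (nat_lit 2) (.e (nat_lit 90174) (nat_lit 14) .nil)))))))) (.g (nat_lit 1) (.e (nat_lit 202571) (nat_lit 0) .nil) .nil))))))) 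
(.nd (nat_lit 6) (.nd (nat_lit 7) (.nd (nat_lit 8) (.nd (nat_lit 9) 
(.lf (nat_lit 512038) (.g (nat_lit 910) (.e (nat_lit 180226) (nat_lit 0) (.e (nat_lit 6416) (nat_lit 341) (.e (nat_lit 163908) (nat_lit 12) (.e (nat_lit 426185) (nat_lit 9) (.e (nat_lit 426550) (nat_lit 31) .nil))))) (.g (nat_lit 0) (.e (nat_lit 199130) (nat_lit 0) .nil) .nil))) 
(.lf (nat_lit 512550) (.g (nat_lit 3945) (.e (nat_lit 180245) (nat_lit 5) (.e (nat_lit 532550) (nat_lit 12) (.e (nat_lit 360474) (nat_lit 8) (.e (nat_lit 557093) (nat_lit 12) .nil)))) (.g (nat_lit 0) (.e (nat_lit 200975) (nat_lit 0) .nil) .nil)))) (.nd (nat_lit 9) 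
(.lf (nat_lit 512294) (.g (nat_lit 2234) (.e (nat_lit 180243) (nat_lit 5) (.e (nat_lit 532550) (nat_lit 12) (.e (nat_lit 360474) (nat_lit 8) (.e (nat_lit 557094) (nat_lit 12) .nil)))) (.g (nat_lit 0) (.e (nat_lit 200393) (nat_lit 0) .nil) .nil))) 
(.lf (nat_lit 512806) (.g (nat_lit 1253) (.e (nat_lit 180250) (nat_lit 10) (.e (nat_lit 573489) (nat_lit 14) (.e (nat_lit 73755) (nat_lit 8) (.e (nat_lit 557091) (nat_lit 12) .nil)))) (.g (nat_lit 0) (.e (nat_lit 201985) (nat_lit 0) .nil) .nil))))) (.nd (nat_lit 8) (.nd (nat_lit 9) 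
(.lf (nat_lit 512166) (.g (nat_lit 2107) (.e (nat_lit 180243) (nat_lit 5) (.e (nat_lit 532503) (nat_lit 1) (.e (nat_lit 57687) (nat_lit 156) (.e (nat_lit 163843) (nat_lit 0) (.e (nat_lit 3248) (nat_lit 197) .nil))))) (.g (nat_lit 0) (.e (nat_lit 199962) (nat_lit 0) .nil) .nil))) 
(.lf (nat_lit 512678) (.g (nat_lit 2149) (.e (nat_lit 180250) (nat_lit 10) (.e (nat_lit 573471) (nat_lit 11) (.e (nat_lit 16448) (nat_lit 10) (.e (nat_lit 434223) (nat_lit 19) .nil)))) (.g (nat_lit 0) (.e (nat_lit 201394) (nat_lit 0) .nil) .nil)))) (.nd (nat_lit 9) 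
(.lf (nat_lit 512422) (.g (nat_lit 2769) (.e (nat_lit 180244) (nat_lit 5) (.e (nat_lit 532549) (nat_lit 12) (.e (nat_lit 360473) (nat_lit 8) (.e (nat_lit 557091) (nat_lit 12) (.e (nat_lit 163850) (nat_lit 0) .nil))))) (.g (nat_lit 0) (.e (nat_lit 200734) (nat_lit 0) .nil) .nil))) 
(.lf (nat_lit 512934) (.g (nat_lit 3434) (.e (nat_lit 180251) (nat_lit 10) (.e (nat_lit 573489) (nat_lit 14) (.e (nat_lit 73755) (nat_lit 8) (.e (nat_lit 557090) (nat_lit 12) (.e (nat_lit 163843) (nat_lit 0) (.e (nat_lit 5943) (nat_lit 322) (.e (nat_lit 57371) (nat_lit 2) (.e (nat_lit 90174) (nat_lit 14) .nil)))))))) (.g (nat_lit 1) (.e (nat_lit 202539) (nat_lit 0) .nil) .nil)))))) 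
(.nd (nat_lit 7) (.nd (nat_lit 8) (.nd (nat_lit 9) 
(.lf (nat_lit 512102) (.g (nat_lit 4398) (.e (nat_lit 180242) (nat_lit 5) (.e (nat_lit 532550) (nat_lit 12) (.e (nat_lit 360475) (nat_lit 8) (.e (nat_lit 557089) (nat_lit 12) (.e (nat_lit 163843) (nat_lit 0) (.e (nat_lit 6255) (nat_lit 337) (.e (nat_lit 2643) (nat_lit 165) .nil))))))) (.g (nat_lit 1) (.e (nat_lit 199861) (nat_lit 0) .nil) .nil))) 
(.lf (nat_lit 512614) (.g (nat_lit 1215) (.e (nat_lit 180241) (nat_lit 4) (.e (nat_lit 524340) (nat_lit 28) (.e (nat_lit 352287) (nat_lit 20) (.e (nat_lit 2384) (nat_lit 155) (.e (nat_lit 811011) (nat_lit 0) (.e (nat_lit 5776) (nat_lit 317) .nil)))))) (.g (nat_lit 1) (.e (nat_lit 201085) (nat_lit 0) .nil) .nil)))) (.nd (nat_lit 9) 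
(.lf (nat_lit 512358) (.g (nat_lit 1926) (.e (nat_lit 180244) (nat_lit 5) (.e (nat_lit 532522) (nat_lit 7) (.e (nat_lit 319537) (nat_lit 19) (.e (nat_lit 311312) (nat_lit 2) (.e (nat_lit 196628) (nat_lit 9) .nil))))) (.g (nat_lit 0) (.e (nat_lit 200603) (nat_lit 0) .nil) .nil))) 
(.lf (nat_lit 512870) (.g (nat_lit 551) (.e (nat_lit 180251) (nat_lit 10) (.e (nat_lit 573484) (nat_lit 13) (.e (nat_lit 65553) (nat_lit 0) .nil))) (.g (nat_lit 0) (.e (nat_lit 202265) (nat_lit 0) .nil) .nil))))) (.nd (nat_lit 8) (.nd (nat_lit 9) 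
(.lf (nat_lit 512230) (.g (nat_lit 1480) (.e (nat_lit 180243) (nat_lit 5) (.e (nat_lit 532523) (nat_lit 7) (.e (nat_lit 319533) (nat_lit 16) (.e (nat_lit 286735) (nat_lit 3) .nil)))) (.g (nat_lit 0) (.e (nat_lit 200148) (nat_lit 0) .nil) .nil))) 
(.lf (nat_lit 512742) (.g (nat_lit 2913) (.e (nat_lit 180250) (nat_lit 10) (.e (nat_lit 573488) (nat_lit 14) (.e (nat_lit 73755) (nat_lit 8) (.e (nat_lit 557090) (nat_lit 12) (.e (nat_lit 163841) (nat_lit 0) .nil))))) (.g (nat_lit 0) (.e (nat_lit 201831) (nat_lit 0) .nil) .nil)))) (.nd (nat_lit 9) 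
(.lf (nat_lit 512486) (.g (nat_lit 231) (.e (nat_lit 180244) (nat_lit 5) (.e (nat_lit 532569) (nat_lit 16) (.e (nat_lit 401448) (nat_lit 10) .nil))) (.g (nat_lit 0) (.e (nat_lit 200847) (nat_lit 0) .nil) .nil))) 
(.lf (nat_lit 512998) (.g (nat_lit 2186) (.e (nat_lit 180251) (nat_lit 10) (.e (nat_lit 573489) (nat_lit 14) (.e (nat_lit 73755) (nat_lit 8) (.e (nat_lit 557091) (nat_lit 12) (.e (nat_lit 163844) (nat_lit 0) .nil))))) (.g (nat_lit 0) (.e (nat_lit 202644) (nat_lit 0) .nil) .nil)))))))) (.nd (nat_lit 5) (.nd (nat_lit 6) (.nd (nat_lit 7) (.nd (nat_lit 8) (.nd (nat_lit 9) 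
(.lf (nat_lit 512022) (.g (nat_lit 2151) (.e (nat_lit 179968) (nat_lit 34) (.e (nat_lit 393289) (nat_lit 25) (.e (nat_lit 458789) (nat_lit 23) (.e (nat_lit 532503) (nat_lit 1) (.e (nat_lit 57651) (nat_lit 152) .nil))))) (.g (nat_lit 0) (.e (nat_lit 198770) (nat_lit 0) .nil) .nil))) 
(.lf (nat_lit 512534) (.g (nat_lit 1483) (.e (nat_lit 180245) (nat_lit 5) (.e (nat_lit 532523) (nat_lit 7) (.e (nat_lit 319533) (nat_lit 16) (.e (nat_lit 286732) (nat_lit 2) .nil)))) (.g (nat_lit 0) (.e (nat_lit 200941) (nat_lit 0) .nil) .nil)))) (.nd (nat_lit 9) 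
(.lf (nat_lit 512278) (.g (nat_lit 3424) (.e (nat_lit 180243) (nat_lit 5) (.e (nat_lit 532549) (nat_lit 12) (.e (nat_lit 360475) (nat_lit 8) (.e (nat_lit 557091) (nat_lit 12) (.e (nat_lit 163844) (nat_lit 0) (.e (nat_lit 6250) (nat_lit 337) (.e (nat_lit 2643) (nat_lit 165) .nil))))))) (.g (nat_lit 1) (.e (nat_lit 200368) (nat_lit 0) .nil) .nil))) 
(.lf (nat_lit 512790) (.g (nat_lit 3583) (.e (nat_lit 180250) (nat_lit 10) (.e (nat_lit 573489) (nat_lit 14) (.e (nat_lit 73755) (nat_lit 8) (.e (nat_lit 557090) (nat_lit 12) (.e (nat_lit 163851) (nat_lit 0) (.e (nat_lit 5946) (nat_lit 322) (.e (nat_lit 57371) (nat_lit 2) (.e (nat_lit 90174) (nat_lit 14) .nil)))))))) (.g (nat_lit 1) (.e (nat_lit 201933) (nat_lit 0) .nil) .nil))))) 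
(.nd (nat_lit 8) (.nd (nat_lit 9) 
(.lf (nat_lit 512150) (.g (nat_lit 2702) (.e (nat_lit 180243) (nat_lit 5) (.e (nat_lit 532499) (nat_lit 1) (.e (nat_lit 57691) (nat_lit 156) (.e (nat_lit 163875) (nat_lit 3) (.e (nat_lit 204838) (nat_lit 20) (.e (nat_lit 114715) (nat_lit 22) (.e (nat_lit 90174) (nat_lit 14) .nil))))))) (.g (nat_lit 1) (.e (nat_lit 199935) (nat_lit 0) .nil) .nil))) 
(.lf (nat_lit 512662) (.g (nat_lit 2405) (.e (nat_lit 180250) (nat_lit 10) (.e (nat_lit 573471) (nat_lit 11) (.e (nat_lit 16436) (nat_lit 9) (.e (nat_lit 426128) (nat_lit 2) (.e (nat_lit 196628) (nat_lit 9) .nil))))) (.g (nat_lit 0) (.e (nat_lit 201361) (nat_lit 0) .nil) .nil)))) (.nd (nat_lit 9) 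
(.lf (nat_lit 512406) (.g (nat_lit 2927) (.e (nat_lit 180244) (nat_lit 5) (.e (nat_lit 532523) (nat_lit 7) (.e (nat_lit 319534) (nat_lit 16) (.e (nat_lit 286734) (nat_lit 3) (.e (nat_lit 98323) (nat_lit 17) .nil))))) (.g (nat_lit 0) (.e (nat_lit 200665) (nat_lit 0) .nil) .nil))) 
(.lf (nat_lit 512918) (.g (nat_lit 2418) (.e (nat_lit 180251) (nat_lit 10) (.e (nat_lit 573489) (nat_lit 14) (.e (nat_lit 73755) (nat_lit 8) (.e (nat_lit 557089) (nat_lit 12) (.e (nat_lit 163851) (nat_lit 0) .nil))))) (.g (nat_lit 0) (.e (nat_lit 202510) (nat_lit 0) .nil) .nil)))))) (.nd (nat_lit 7) (.nd (nat_lit 8) (.nd (nat_lit 9) 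
(.lf (nat_lit 512086) (.g (nat_lit 2927) (.e (nat_lit 180242) (nat_lit 5) (.e (nat_lit 532523) (nat_lit 7) (.e (nat_lit 319530) (nat_lit 16) (.e (nat_lit 286735) (nat_lit 3) (.e (nat_lit 98325) (nat_lit 17) .nil))))) (.g (nat_lit 0) (.e (nat_lit 199828) (nat_lit 0) .nil) .nil))) 
(.lf (nat_lit 512598) (.g (nat_lit 3420) (.e (nat_lit 180246) (nat_lit 6) (.e (nat_lit 540706) (nat_lit 12) (.e (nat_lit 360475) (nat_lit 8) (.e (nat_lit 557091) (nat_lit 12) (.e (nat_lit 163847) (nat_lit 0) .nil))))) (.g (nat_lit 0) (.e (nat_lit 201044) (nat_lit 0) .nil) .nil)))) (.nd (nat_lit 9) 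
(.lf (nat_lit 512342) (.g (nat_lit 1929) (.e (nat_lit 180244) (nat_lit 5) (.e (nat_lit 532482) (nat_lit 0) (.e (nat_lit 6724) (nat_lit 362) (.e (nat_lit 180243) (nat_lit 5) (.e (nat_lit 532488) (nat_lit 0) (.e (nat_lit 7936) (nat_lit 362) .nil)))))) (.g (nat_lit 1) (.e (nat_lit 200574) (nat_lit 0) .nil) .nil))) 
(.lf (nat_lit 512854) (.g (nat_lit 2225) (.e (nat_lit 180251) (nat_lit 10) (.e (nat_lit 573470) (nat_lit 11) (.e (nat_lit 16454) (nat_lit 11) (.e (nat_lit 458789) (nat_lit 23) (.e (nat_lit 532481) (nat_lit 0) (.e (nat_lit 6724) (nat_lit 362) .nil)))))) (.g (nat_lit 1) (.e (nat_lit 202095) (nat_lit 0) .nil) .nil))))) (.nd (nat_lit 8) (.nd (nat_lit 9) 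
(.lf (nat_lit 512214) (.g (nat_lit 3047) (.e (nat_lit 180243) (nat_lit 5) (.e (nat_lit 532523) (nat_lit 7) (.e (nat_lit 319537) (nat_lit 19) (.e (nat_lit 311312) (nat_lit 2) (.e (nat_lit 196661) (nat_lit 12) (.e (nat_lit 65280) (nat_lit 206) .nil)))))) (.g (nat_lit 1) (.e (nat_lit 200131) (nat_lit 0) .nil) .nil))) 
(.lf (nat_lit 512726) (.g (nat_lit 978) (.e (nat_lit 180250) (nat_lit 10) (.e (nat_lit 573484) (nat_lit 13) (.e (nat_lit 65566) (nat_lit 2) (.e (nat_lit 98048) (nat_lit 2) .nil)))) (.g (nat_lit 0) (.e (nat_lit 201665) (nat_lit 0) .nil) .nil)))) (.nd (nat_lit 9) 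
(.lf (nat_lit 512470) (.g (nat_lit 4028) (.e (nat_lit 180244) (nat_lit 5) (.e (nat_lit 532550) (nat_lit 12) (.e (nat_lit 360475) (nat_lit 8) (.e (nat_lit 557091) (nat_lit 12) (.e (nat_lit 163852) (nat_lit 0) (.e (nat_lit 6273) (nat_lit 337) (.e (nat_lit 2635) (nat_lit 165) .nil))))))) (.g (nat_lit 1) (.e (nat_lit 200796) (nat_lit 0) .nil) .nil))) 
(.lf (nat_lit 512982) (.g (nat_lit 3436) (.e (nat_lit 180251) (nat_lit 10) (.e (nat_lit 573489) (nat_lit 14) (.e (nat_lit 73755) (nat_lit 8) (.e (nat_lit 557090) (nat_lit 12) (.e (nat_lit 164008) (nat_lit 41) .nil))))) (.g (nat_lit 0) (.e (nat_lit 202593) (nat_lit 0) .nil) .nil))))))) (.nd (nat_lit 6) (.nd (nat_lit 7) (.nd (nat_lit 8) (.nd (nat_lit 9) 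
(.lf (nat_lit 512054) (.g (nat_lit 1337) (.e (nat_lit 180230) (nat_lit 0) (.e (nat_lit 6425) (nat_lit 342) (.e (nat_lit 229412) (nat_lit 14) (.e (nat_lit 450304) (nat_lit 12) .nil)))) (.g (nat_lit 0) (.e (nat_lit 199623) (nat_lit 0) .nil) .nil))) 
(.lf (nat_lit 512566) (.g (nat_lit 2353) (.e (nat_lit 180245) (nat_lit 5) (.e (nat_lit 532569) (nat_lit 16) (.e (nat_lit 401448) (nat_lit 10) (.e (nat_lit 434226) (nat_lit 20) .nil)))) (.g (nat_lit 0) (.e (nat_lit 201004) (nat_lit 0) .nil) .nil)))) (.nd (nat_lit 9) 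
(.lf (nat_lit 512310) (.g (nat_lit 3440) (.e (nat_lit 180243) (nat_lit 5) (.e (nat_lit 532550) (nat_lit 12) (.e (nat_lit 360475) (nat_lit 8) (.e (nat_lit 557091) (nat_lit 12) (.e (nat_lit 164017) (nat_lit 44) .nil))))) (.g (nat_lit 0) (.e (nat_lit 200413) (nat_lit 0) .nil) .nil))) 
(.lf (nat_lit 512822) (.g (nat_lit 1095) (.e (nat_lit 180250) (nat_lit 10) (.e (nat_lit 573503) (nat_lit 18) (.e (nat_lit 1349) (nat_lit 102) (.e (nat_lit 286748) (nat_lit 9) .nil)))) (.g (nat_lit 0) (.e (nat_lit 202020) (nat_lit 0) .nil) .nil))))) (.nd (nat_lit 8) (.nd (nat_lit 9) 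
(.lf (nat_lit 512182) (.g (nat_lit 469) (.e (nat_lit 180243) (nat_lit 5) (.e (nat_lit 532513) (nat_lit 3) (.e (nat_lit 114708) (nat_lit 20) .nil))) (.g (nat_lit 0) (.e (nat_lit 200009) (nat_lit 0) .nil) .nil))) 
(.lf (nat_lit 512694) (.g (nat_lit 2361) (.e (nat_lit 180250) (nat_lit 10) (.e (nat_lit 573474) (nat_lit 12) (.e (nat_lit 57503) (nat_lit 38) (.e (nat_lit 638994) (nat_lit 7) .nil)))) (.g (nat_lit 0) (.e (nat_lit 201430) (nat_lit 0) .nil) .nil)))) (.nd (nat_lit 9) 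
(.lf (nat_lit 512438) (.g (nat_lit 3500) (.e (nat_lit 180244) (nat_lit 5) (.e (nat_lit 532550) (nat_lit 12) (.e (nat_lit 360472) (nat_lit 8) (.e (nat_lit 557090) (nat_lit 12) (.e (nat_lit 163843) (nat_lit 0) .nil))))) (.g (nat_lit 0) (.e (nat_lit 200756) (nat_lit 0) .nil) .nil))) 
(.lf (nat_lit 512950) (.g (nat_lit 3154) (.e (nat_lit 180251) (nat_lit 10) (.e (nat_lit 573489) (nat_lit 14) (.e (nat_lit 73755) (nat_lit 8) (.e (nat_lit 557090) (nat_lit 12) (.e (nat_lit 163850) (nat_lit 0) .nil))))) (.g (nat_lit 0) (.e (nat_lit 202555) (nat_lit 0) .nil) .nil)))))) (.nd (nat_lit 7) (.nd (nat_lit 8) (.nd (nat_lit 9) 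
(.lf (nat_lit 512118) (.g (nat_lit 3074) (.e (nat_lit 180242) (nat_lit 5) (.e (nat_lit 532569) (nat_lit 16) (.e (nat_lit 401446) (nat_lit 10) (.e (nat_lit 434231) (nat_lit 23) (.e (nat_lit 532490) (nat_lit 0) .nil))))) (.g (nat_lit 0) (.e (nat_lit 199881) (nat_lit 0) .nil) .nil))) 
(.lf (nat_lit 512630) (.g (nat_lit 3979) (.e (nat_lit 180250) (nat_lit 10) (.e (nat_lit 573456) (nat_lit 9) (.e (nat_lit 1669) (nat_lit 116) (.e (nat_lit 401459) (nat_lit 13) (.e (nat_lit 483363) (nat_lit 18) (.e (nat_lit 57652) (nat_lit 152) (.e (nat_lit 2643) (nat_lit 165) .nil))))))) (.g (nat_lit 1) (.e (nat_lit 201304) (nat_lit 0) .nil) .nil)))) (.nd (nat_lit 9) 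
(.lf (nat_lit 512374) (.g (nat_lit 2989) (.e (nat_lit 180244) (nat_lit 5) (.e (nat_lit 532523) (nat_lit 7) (.e (nat_lit 319537) (nat_lit 19) (.e (nat_lit 311312) (nat_lit 2) (.e (nat_lit 196661) (nat_lit 12) (.e (nat_lit 65280) (nat_lit 206) .nil)))))) (.g (nat_lit 1) (.e (nat_lit 200628) (nat_lit 0) .nil) .nil))) 
(.lf (nat_lit 512886) (.g (nat_lit 2707) (.e (nat_lit 180251) (nat_lit 10) (.e (nat_lit 573489) (nat_lit 14) (.e (nat_lit 73754) (nat_lit 8) (.e (nat_lit 557091) (nat_lit 12) (.e (nat_lit 164006) (nat_lit 41) .nil))))) (.g (nat_lit 0) (.e (nat_lit 202412) (nat_lit 0) .nil) .nil))))) (.nd (nat_lit 8) (.nd (nat_lit 9) 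
(.lf (nat_lit 512246) (.g (nat_lit 3151) (.e (nat_lit 180243) (nat_lit 5) (.e (nat_lit 532549) (nat_lit 12) (.e (nat_lit 360473) (nat_lit 8) (.e (nat_lit 557089) (nat_lit 12) (.e (nat_lit 163844) (nat_lit 0) (.e (nat_lit 6250) (nat_lit 337) (.e (nat_lit 2643) (nat_lit 165) .nil))))))) (.g (nat_lit 1) (.e (nat_lit 200322) (nat_lit 0) .nil) .nil))) 
(.lf (nat_lit 512758) (.g (nat_lit 3462) (.e (nat_lit 180250) (nat_lit 10) (.e (nat_lit 573489) (nat_lit 14) (.e (nat_lit 73755) (nat_lit 8) (.e (nat_lit 557067) (nat_lit 9) (.e (nat_lit 2602) (nat_lit 163) (.e (nat_lit 164403) (nat_lit 256) (.e (nat_lit 57371) (nat_lit 2) (.e (nat_lit 90174) (nat_lit 14) .nil)))))))) (.g (nat_lit 1) (.e (nat_lit 201873) (nat_lit 0) .nil) .nil)))) 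
(.nd (nat_lit 9) 
(.lf (nat_lit 512502) (.g (nat_lit 1275) (.e (nat_lit 180245) (nat_lit 5) (.e (nat_lit 532515) (nat_lit 3) (.e (nat_lit 114719) (nat_lit 23) (.e (nat_lit 98332) (nat_lit 18) .nil)))) (.g (nat_lit 0) (.e (nat_lit 200899) (nat_lit 0) .nil) .nil))) 
(.lf (nat_lit 513014) (.g (nat_lit 1978) (.e (nat_lit 180251) (nat_lit 10) (.e (nat_lit 573489) (nat_lit 14) (.e (nat_lit 73755) (nat_lit 8) (.e (nat_lit 557091) (nat_lit 12) (.e (nat_lit 164005) (nat_lit 41) .nil))))) (.g (nat_lit 0) (.e (nat_lit 202665) (nat_lit 0) .nil) .nil))))))))) (.nd (nat_lit 4) (.nd (nat_lit 5) (.nd (nat_lit 6) (.nd (nat_lit 7) (.nd (nat_lit 8) (.nd (nat_lit 9) 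
(.lf (nat_lit 512014) (.g (nat_lit 1370) (.e (nat_lit 179968) (nat_lit 34) (.e (nat_lit 393283) (nat_lit 24) (.e (nat_lit 434234) (nat_lit 23) (.e (nat_lit 532503) (nat_lit 1) (.e (nat_lit 57653) (nat_lit 152) .nil))))) (.g (nat_lit 0) (.e (nat_lit 198762) (nat_lit 0) .nil) .nil))) 
(.lf (nat_lit 512526) (.g (nat_lit 2275) (.e (nat_lit 180245) (nat_lit 5) (.e (nat_lit 532523) (nat_lit 7) (.e (nat_lit 319529) (nat_lit 16) (.e (nat_lit 286735) (nat_lit 3) (.e (nat_lit 98320) (nat_lit 17) .nil))))) (.g (nat_lit 0) (.e (nat_lit 200932) (nat_lit 0) .nil) .nil)))) (.nd (nat_lit 9) 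
(.lf (nat_lit 512270) (.g (nat_lit 3208) (.e (nat_lit 180243) (nat_lit 5) (.e (nat_lit 532549) (nat_lit 12) (.e (nat_lit 360475) (nat_lit 8) (.e (nat_lit 557089) (nat_lit 12) (.e (nat_lit 163848) (nat_lit 0) .nil))))) (.g (nat_lit 0) (.e (nat_lit 200357) (nat_lit 0) .nil) .nil))) 
(.lf (nat_lit 512782) (.g (nat_lit 3197) (.e (nat_lit 180250) (nat_lit 10) (.e (nat_lit 573489) (nat_lit 14) (.e (nat_lit 73755) (nat_lit 8) (.e (nat_lit 557090) (nat_lit 12) (.e (nat_lit 163849) (nat_lit 0) .nil))))) (.g (nat_lit 0) (.e (nat_lit 201925) (nat_lit 0) .nil) .nil))))) (.nd (nat_lit 8) (.nd (nat_lit 9) 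
(.lf (nat_lit 512142) (.g (nat_lit 1946) (.e (nat_lit 180243) (nat_lit 5) (.e (nat_lit 532499) (nat_lit 1) (.e (nat_lit 57688) (nat_lit 156) (.e (nat_lit 163841) (nat_lit 0) .nil)))) (.g (nat_lit 0) (.e (nat_lit 199923) (nat_lit 0) .nil) .nil))) 
(.lf (nat_lit 512654) (.g (nat_lit 1874) (.e (nat_lit 180250) (nat_lit 10) (.e (nat_lit 573470) (nat_lit 11) (.e (nat_lit 16446) (nat_lit 9) (.e (nat_lit 426115) (nat_lit 2) (.e (nat_lit 196677) (nat_lit 16) (.e (nat_lit 130816) (nat_lit 206) .nil)))))) (.g (nat_lit 1) (.e (nat_lit 201343) (nat_lit 0) .nil) .nil)))) (.nd (nat_lit 9) 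
(.lf (nat_lit 512398) (.g (nat_lit 2630) (.e (nat_lit 180244) (nat_lit 5) (.e (nat_lit 532523) (nat_lit 7) (.e (nat_lit 319533) (nat_lit 16) (.e (nat_lit 286734) (nat_lit 3) (.e (nat_lit 98323) (nat_lit 17) (.e (nat_lit 7936) (nat_lit 393) .nil)))))) (.g (nat_lit 1) (.e (nat_lit 200655) (nat_lit 0) .nil) .nil))) 
(.lf (nat_lit 512910) (.g (nat_lit 2536) (.e (nat_lit 180251) (nat_lit 10) (.e (nat_lit 573489) (nat_lit 14) (.e (nat_lit 73755) (nat_lit 8) (.e (nat_lit 557089) (nat_lit 12) (.e (nat_lit 163841) (nat_lit 0) (.e (nat_lit 5954) (nat_lit 322) (.e (nat_lit 57371) (nat_lit 2) (.e (nat_lit 90174) (nat_lit 14) .nil)))))))) (.g (nat_lit 1) (.e (nat_lit 202502) (nat_lit 0) .nil) .nil)))))) 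
(.nd (nat_lit 7) (.nd (nat_lit 8) (.nd (nat_lit 9) 
(.lf (nat_lit 512078) (.g (nat_lit 1589) (.e (nat_lit 180242) (nat_lit 5) (.e (nat_lit 532503) (nat_lit 1) (.e (nat_lit 57688) (nat_lit 156) (.e (nat_lit 163872) (nat_lit 3) .nil)))) (.g (nat_lit 0) (.e (nat_lit 199817) (nat_lit 0) .nil) .nil))) 
(.lf (nat_lit 512590) (.g (nat_lit 3210) (.e (nat_lit 180246) (nat_lit 6) (.e (nat_lit 540706) (nat_lit 12) (.e (nat_lit 360475) (nat_lit 8) (.e (nat_lit 557089) (nat_lit 12) (.e (nat_lit 163849) (nat_lit 0) .nil))))) (.g (nat_lit 0) (.e (nat_lit 201035) (nat_lit 0) .nil) .nil)))) (.nd (nat_lit 9) 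
(.lf (nat_lit 512334) (.g (nat_lit 442) (.e (nat_lit 180243) (nat_lit 5) (.e (nat_lit 532579) (nat_lit 26) (.e (nat_lit 426107) (nat_lit 1) .nil))) (.g (nat_lit 0) (.e (nat_lit 200540) (nat_lit 0) .nil) .nil))) 
(.lf (nat_lit 512846) (.g (nat_lit 2416) (.e (nat_lit 180251) (nat_lit 10) (.e (nat_lit 573469) (nat_lit 11) (.e (nat_lit 16435) (nat_lit 9) (.e (nat_lit 426131) (nat_lit 3) (.e (nat_lit 204815) (nat_lit 17) .nil))))) (.g (nat_lit 0) (.e (nat_lit 202082) (nat_lit 0) .nil) .nil))))) (.nd (nat_lit 8) (.nd (nat_lit 9) 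
(.lf (nat_lit 512206) (.g (nat_lit 2568) (.e (nat_lit 180243) (nat_lit 5) (.e (nat_lit 532522) (nat_lit 7) (.e (nat_lit 319531) (nat_lit 16) (.e (nat_lit 286735) (nat_lit 3) (.e (nat_lit 98323) (nat_lit 17) .nil))))) (.g (nat_lit 0) (.e (nat_lit 200117) (nat_lit 0) .nil) .nil))) 
(.lf (nat_lit 512718) (.g (nat_lit 3175) (.e (nat_lit 180250) (nat_lit 10) (.e (nat_lit 573477) (nat_lit 12) (.e (nat_lit 57750) (nat_lit 201) (.e (nat_lit 3090) (nat_lit 191) (.e (nat_lit 483364) (nat_lit 18) (.e (nat_lit 57665) (nat_lit 152) (.e (nat_lit 7936) (nat_lit 165) .nil))))))) (.g (nat_lit 1) (.e (nat_lit 201514) (nat_lit 0) .nil) .nil)))) (.nd (nat_lit 9) 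
(.lf (nat_lit 512462) (.g (nat_lit 2486) (.e (nat_lit 180244) (nat_lit 5) (.e (nat_lit 532550) (nat_lit 12) (.e (nat_lit 360475) (nat_lit 8) (.e (nat_lit 557091) (nat_lit 12) .nil)))) (.g (nat_lit 0) (.e (nat_lit 200786) (nat_lit 0) .nil) .nil))) 
(.lf (nat_lit 512974) (.g (nat_lit 4080) (.e (nat_lit 180251) (nat_lit 10) (.e (nat_lit 573489) (nat_lit 14) (.e (nat_lit 73755) (nat_lit 8) (.e (nat_lit 557090) (nat_lit 12) (.e (nat_lit 163856) (nat_lit 0) (.e (nat_lit 5947) (nat_lit 322) (.e (nat_lit 57371) (nat_lit 2) (.e (nat_lit 90174) (nat_lit 14) .nil)))))))) (.g (nat_lit 1) (.e (nat_lit 202579) (nat_lit 0) .nil) .nil))))))) 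
(.nd (nat_lit 6) (.nd (nat_lit 7) (.nd (nat_lit 8) (.nd (nat_lit 9) 
(.lf (nat_lit 512046) (.g (nat_lit 1987) (.e (nat_lit 180227) (nat_lit 0) (.e (nat_lit 6255) (nat_lit 337) (.e (nat_lit 2630) (nat_lit 164) (.e (nat_lit 172095) (nat_lit 9) (.e (nat_lit 433920) (nat_lit 31) .nil))))) (.g (nat_lit 0) (.e (nat_lit 199236) (nat_lit 0) .nil) .nil))) 
(.lf (nat_lit 512558) (.g (nat_lit 5692) (.e (nat_lit 180245) (nat_lit 5) (.e (nat_lit 532550) (nat_lit 12) (.e (nat_lit 360475) (nat_lit 8) (.e (nat_lit 557091) (nat_lit 12) (.e (nat_lit 163850) (nat_lit 0) (.e (nat_lit 6273) (nat_lit 337) (.e (nat_lit 2635) (nat_lit 165) .nil))))))) (.g (nat_lit 1) (.e (nat_lit 200986) (nat_lit 0) .nil) .nil)))) (.nd (nat_lit 9) 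
(.lf (nat_lit 512302) (.g (nat_lit 4862) (.e (nat_lit 180243) (nat_lit 5) (.e (nat_lit 532550) (nat_lit 12) (.e (nat_lit 360475) (nat_lit 8) (.e (nat_lit 557090) (nat_lit 12) .nil)))) (.g (nat_lit 0) (.e (nat_lit 200405) (nat_lit 0) .nil) .nil))) 
(.lf (nat_lit 512814) (.g (nat_lit 2666) (.e (nat_lit 180250) (nat_lit 10) (.e (nat_lit 573489) (nat_lit 14) (.e (nat_lit 73755) (nat_lit 8) (.e (nat_lit 557110) (nat_lit 16) .nil)))) (.g (nat_lit 0) (.e (nat_lit 202002) (nat_lit 0) .nil) .nil))))) (.nd (nat_lit 8) (.nd (nat_lit 9) 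
(.lf (nat_lit 512174) (.g (nat_lit 2677) (.e (nat_lit 180243) (nat_lit 5) (.e (nat_lit 532504) (nat_lit 1) (.e (nat_lit 57691) (nat_lit 156) (.e (nat_lit 163874) (nat_lit 3) (.e (nat_lit 204836) (nat_lit 20) .nil))))) (.g (nat_lit 0) (.e (nat_lit 199977) (nat_lit 0) .nil) .nil))) 
(.lf (nat_lit 512686) (.g (nat_lit 2372) (.e (nat_lit 180250) (nat_lit 10) (.e (nat_lit 573471) (nat_lit 11) (.e (nat_lit 16450) (nat_lit 11) (.e (nat_lit 458789) (nat_lit 23) (.e (nat_lit 532482) (nat_lit 0) .nil))))) (.g (nat_lit 0) (.e (nat_lit 201414) (nat_lit 0) .nil) .nil)))) (.nd (nat_lit 9) 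
(.lf (nat_lit 512430) (.g (nat_lit 3915) (.e (nat_lit 180244) (nat_lit 5) (.e (nat_lit 532549) (nat_lit 12) (.e (nat_lit 360475) (nat_lit 8) (.e (nat_lit 557089) (nat_lit 12) (.e (nat_lit 163850) (nat_lit 0) .nil))))) (.g (nat_lit 0) (.e (nat_lit 200744) (nat_lit 0) .nil) .nil))) 
(.lf (nat_lit 512942) (.g (nat_lit 3961) (.e (nat_lit 180251) (nat_lit 10) (.e (nat_lit 573489) (nat_lit 14) (.e (nat_lit 73755) (nat_lit 8) (.e (nat_lit 557090) (nat_lit 12) (.e (nat_lit 163847) (nat_lit 0) (.e (nat_lit 5934) (nat_lit 322) (.e (nat_lit 57372) (nat_lit 2) (.e (nat_lit 90174) (nat_lit 14) .nil)))))))) (.g (nat_lit 1) (.e (nat_lit 202547) (nat_lit 0) .nil) .nil)))))) 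
(.nd (nat_lit 7) (.nd (nat_lit 8) (.nd (nat_lit 9) 
(.lf (nat_lit 512110) (.g (nat_lit 3676) (.e (nat_lit 180242) (nat_lit 5) (.e (nat_lit 532550) (nat_lit 12) (.e (nat_lit 360475) (nat_lit 8) (.e (nat_lit 557091) (nat_lit 12) (.e (nat_lit 163843) (nat_lit 0) .nil))))) (.g (nat_lit 0) (.e (nat_lit 199870) (nat_lit 0) .nil) .nil))) 
(.lf (nat_lit 512622) (.g (nat_lit 2179) (.e (nat_lit 180249) (nat_lit 10) (.e (nat_lit 573475) (nat_lit 12) (.e (nat_lit 57503) (nat_lit 38) (.e (nat_lit 638995) (nat_lit 7) .nil)))) (.g (nat_lit 0) (.e (nat_lit 201203) (nat_lit 0) .nil) .nil)))) (.nd (nat_lit 9) 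
(.lf (nat_lit 512366) (.g (nat_lit 1874) (.e (nat_lit 180244) (nat_lit 5) (.e (nat_lit 532523) (nat_lit 7) (.e (nat_lit 319504) (nat_lit 10) (.e (nat_lit 5712) (nat_lit 312) (.e (nat_lit 2505) (nat_lit 157) .nil))))) (.g (nat_lit 0) (.e (nat_lit 200612) (nat_lit 0) .nil) .nil))) 
(.lf (nat_lit 512878) (.g (nat_lit 2299) (.e (nat_lit 180251) (nat_lit 10) (.e (nat_lit 573487) (nat_lit 14) (.e (nat_lit 73746) (nat_lit 3) (.e (nat_lit 516120) (nat_lit 1) (.e (nat_lit 171776) (nat_lit 160) .nil))))) (.g (nat_lit 0) (.e (nat_lit 202369) (nat_lit 0) .nil) .nil))))) (.nd (nat_lit 8) (.nd (nat_lit 9) 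
(.lf (nat_lit 512238) (.g (nat_lit 3172) (.e (nat_lit 180243) (nat_lit 5) (.e (nat_lit 532523) (nat_lit 7) (.e (nat_lit 319534) (nat_lit 16) (.e (nat_lit 286735) (nat_lit 3) (.e (nat_lit 98323) (nat_lit 17) (.e (nat_lit 7936) (nat_lit 393) .nil)))))) (.g (nat_lit 1) (.e (nat_lit 200157) (nat_lit 0) .nil) .nil))) 
(.lf (nat_lit 512750) (.g (nat_lit 455) (.e (nat_lit 180250) (nat_lit 10) (.e (nat_lit 573489) (nat_lit 14) (.e (nat_lit 73731) (nat_lit 0) .nil))) (.g (nat_lit 0) (.e (nat_lit 201840) (nat_lit 0) .nil) .nil)))) (.nd (nat_lit 9) 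
(.lf (nat_lit 512494) (.g (nat_lit 582) (.e (nat_lit 180245) (nat_lit 5) (.e (nat_lit 532499) (nat_lit 1) (.e (nat_lit 57688) (nat_lit 156) .nil))) (.g (nat_lit 0) (.e (nat_lit 200865) (nat_lit 0) .nil) .nil))) 
(.lf (nat_lit 513006) (.g (nat_lit 2911) (.e (nat_lit 180251) (nat_lit 10) (.e (nat_lit 573489) (nat_lit 14) (.e (nat_lit 73755) (nat_lit 8) (.e (nat_lit 557091) (nat_lit 12) (.e (nat_lit 163850) (nat_lit 0) (.e (nat_lit 5951) (nat_lit 322) (.e (nat_lit 57371) (nat_lit 2) (.e (nat_lit 90174) (nat_lit 14) .nil)))))))) (.g (nat_lit 1) (.e (nat_lit 202652) (nat_lit 0) .nil) .nil)))))))) 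
(.nd (nat_lit 5) (.nd (nat_lit 6) (.nd (nat_lit 7) (.nd (nat_lit 8) (.nd (nat_lit 9) 
(.lf (nat_lit 512030) (.g (nat_lit 1315) (.e (nat_lit 180224) (nat_lit 0) (.e (nat_lit 6425) (nat_lit 342) (.e (nat_lit 229412) (nat_lit 14) (.e (nat_lit 450304) (nat_lit 12) .nil)))) (.g (nat_lit 0) (.e (nat_lit 198825) (nat_lit 0) .nil) .nil))) 
(.lf (nat_lit 512542) (.g (nat_lit 3023) (.e (nat_lit 180245) (nat_lit 5) (.e (nat_lit 532523) (nat_lit 7) (.e (nat_lit 319534) (nat_lit 16) (.e (nat_lit 286735) (nat_lit 3) (.e (nat_lit 98323) (nat_lit 17) .nil))))) (.g (nat_lit 0) (.e (nat_lit 200950) (nat_lit 0) .nil) .nil)))) (.nd (nat_lit 9) 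
(.lf (nat_lit 512286) (.g (nat_lit 3161) (.e (nat_lit 180243) (nat_lit 5) (.e (nat_lit 532549) (nat_lit 12) (.e (nat_lit 360475) (nat_lit 8) (.e (nat_lit 557091) (nat_lit 12) (.e (nat_lit 164018) (nat_lit 45) .nil))))) (.g (nat_lit 0) (.e (nat_lit 200381) (nat_lit 0) .nil) .nil))) 
(.lf (nat_lit 512798) (.g (nat_lit 3564) (.e (nat_lit 180250) (nat_lit 10) (.e (nat_lit 573489) (nat_lit 14) (.e (nat_lit 73755) (nat_lit 8) (.e (nat_lit 557090) (nat_lit 12) (.e (nat_lit 163856) (nat_lit 0) (.e (nat_lit 5946) (nat_lit 322) (.e (nat_lit 57371) (nat_lit 2) (.e (nat_lit 90174) (nat_lit 14) .nil)))))))) (.g (nat_lit 1) (.e (nat_lit 201941) (nat_lit 0) .nil) .nil))))) 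
(.nd (nat_lit 8) (.nd (nat_lit 9) 
(.lf (nat_lit 512158) (.g (nat_lit 2395) (.e (nat_lit 180243) (nat_lit 5) (.e (nat_lit 532501) (nat_lit 1) (.e (nat_lit 57691) (nat_lit 156) (.e (nat_lit 163875) (nat_lit 3) (.e (nat_lit 204836) (nat_lit 20) .nil))))) (.g (nat_lit 0) (.e (nat_lit 199948) (nat_lit 0) .nil) .nil))) 
(.lf (nat_lit 512670) (.g (nat_lit 2559) (.e (nat_lit 180250) (nat_lit 10) (.e (nat_lit 573471) (nat_lit 11) (.e (nat_lit 16446) (nat_lit 9) (.e (nat_lit 426116) (nat_lit 2) (.e (nat_lit 196677) (nat_lit 16) (.e (nat_lit 130816) (nat_lit 206) .nil)))))) (.g (nat_lit 1) (.e (nat_lit 201384) (nat_lit 0) .nil) .nil)))) (.nd (nat_lit 9) 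
(.lf (nat_lit 512414) (.g (nat_lit 3918) (.e (nat_lit 180244) (nat_lit 5) (.e (nat_lit 532535) (nat_lit 9) (.e (nat_lit 336176) (nat_lit 10) (.e (nat_lit 344130) (nat_lit 26) .nil)))) (.g (nat_lit 0) (.e (nat_lit 200710) (nat_lit 0) .nil) .nil))) 
(.lf (nat_lit 512926) (.g (nat_lit 3643) (.e (nat_lit 180251) (nat_lit 10) (.e (nat_lit 573489) (nat_lit 14) (.e (nat_lit 73755) (nat_lit 8) (.e (nat_lit 557090) (nat_lit 12) (.e (nat_lit 163840) (nat_lit 0) (.e (nat_lit 5945) (nat_lit 322) (.e (nat_lit 57371) (nat_lit 2) (.e (nat_lit 90174) (nat_lit 14) .nil)))))))) (.g (nat_lit 1) (.e (nat_lit 202531) (nat_lit 0) .nil) .nil)))))) 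
(.nd (nat_lit 7) (.nd (nat_lit 8) (.nd (nat_lit 9) 
(.lf (nat_lit 512094) (.g (nat_lit 4126) (.e (nat_lit 180242) (nat_lit 5) (.e (nat_lit 532550) (nat_lit 12) (.e (nat_lit 360474) (nat_lit 8) (.e (nat_lit 557093) (nat_lit 12) (.e (nat_lit 163848) (nat_lit 0) .nil))))) (.g (nat_lit 0) (.e (nat_lit 199850) (nat_lit 0) .nil) .nil))) 
(.lf (nat_lit 512606) (.g (nat_lit 1847) (.e (nat_lit 188160) (nat_lit 3) (.e (nat_lit 516195) (nat_lit 26) (.e (nat_lit 336088) (nat_lit 9) (.e (nat_lit 336446) (nat_lit 33) (.e (nat_lit 483072) (nat_lit 5) .nil))))) (.g (nat_lit 0) (.e (nat_lit 201068) (nat_lit 0) .nil) .nil)))) (.nd (nat_lit 9) 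
(.lf (nat_lit 512350) (.g (nat_lit 1491) (.e (nat_lit 180244) (nat_lit 5) (.e (nat_lit 532504) (nat_lit 1) (.e (nat_lit 57691) (nat_lit 156) (.e (nat_lit 163847) (nat_lit 0) .nil)))) (.g (nat_lit 0) (.e (nat_lit 200587) (nat_lit 0) .nil) .nil))) 
(.lf (nat_lit 512862) (.g (nat_lit 1356) (.e (nat_lit 180251) (nat_lit 10) (.e (nat_lit 573471) (nat_lit 11) (.e (nat_lit 16453) (nat_lit 11) (.e (nat_lit 458789) (nat_lit 23) .nil)))) (.g (nat_lit 0) (.e (nat_lit 202108) (nat_lit 0) .nil) .nil))))) (.nd (nat_lit 8) (.nd (nat_lit 9) 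
(.lf (nat_lit 512222) (.g (nat_lit 572) (.e (nat_lit 180243) (nat_lit 5) (.e (nat_lit 532523) (nat_lit 7) (.e (nat_lit 319529) (nat_lit 16) .nil))) (.g (nat_lit 0) (.e (nat_lit 200140) (nat_lit 0) .nil) .nil))) 
(.lf (nat_lit 512734) (.g (nat_lit 4116) (.e (nat_lit 180250) (nat_lit 10) (.e (nat_lit 573487) (nat_lit 14) (.e (nat_lit 73753) (nat_lit 8) (.e (nat_lit 557090) (nat_lit 12) (.e (nat_lit 163843) (nat_lit 0) (.e (nat_lit 5943) (nat_lit 322) (.e (nat_lit 57372) (nat_lit 2) (.e (nat_lit 90172) (nat_lit 14) .nil)))))))) (.g (nat_lit 1) (.e (nat_lit 201792) (nat_lit 0) .nil) .nil)))) (.nd (nat_lit 9) 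
(.lf (nat_lit 512478) (.g (nat_lit 2752) (.e (nat_lit 180244) (nat_lit 5) (.e (nat_lit 532569) (nat_lit 16) (.e (nat_lit 401434) (nat_lit 9) (.e (nat_lit 426125) (nat_lit 2) (.e (nat_lit 196628) (nat_lit 9) .nil))))) (.g (nat_lit 0) (.e (nat_lit 200836) (nat_lit 0) .nil) .nil))) 
(.lf (nat_lit 512990) (.g (nat_lit 2711) (.e (nat_lit 180251) (nat_lit 10) (.e (nat_lit 573489) (nat_lit 14) (.e (nat_lit 73755) (nat_lit 8) (.e (nat_lit 557091) (nat_lit 12) (.e (nat_lit 163840) (nat_lit 0) (.e (nat_lit 5953) (nat_lit 322) (.e (nat_lit 57373) (nat_lit 2) (.e (nat_lit 90173) (nat_lit 14) .nil)))))))) (.g (nat_lit 1) (.e (nat_lit 202636) (nat_lit 0) .nil) .nil))))))) 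
(.nd (nat_lit 6) (.nd (nat_lit 7) (.nd (nat_lit 8) (.nd (nat_lit 9) 
(.lf (nat_lit 512062) (.g (nat_lit 851) (.e (nat_lit 180233) (nat_lit 0) (.e (nat_lit 5448) (nat_lit 306) (.e (nat_lit 2612) (nat_lit 163) (.e (nat_lit 163977) (nat_lit 30) .nil)))) (.g (nat_lit 0) (.e (nat_lit 199643) (nat_lit 0) .nil) .nil))) 
(.lf (nat_lit 512574) (.g (nat_lit 1014) (.e (nat_lit 188160) (nat_lit 5) (.e (nat_lit 532550) (nat_lit 12) (.e (nat_lit 360475) (nat_lit 8) (.e (nat_lit 557089) (nat_lit 12) (.e (nat_lit 164020) (nat_lit 45) .nil))))) (.g (nat_lit 0) (.e (nat_lit 201014) (nat_lit 0) .nil) .nil)))) (.nd (nat_lit 9) 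
(.lf (nat_lit 512318) (.g (nat_lit 3431) (.e (nat_lit 180243) (nat_lit 5) (.e (nat_lit 532568) (nat_lit 16) (.e (nat_lit 401448) (nat_lit 10) (.e (nat_lit 434231) (nat_lit 23) (.e (nat_lit 532482) (nat_lit 0) (.e (nat_lit 6724) (nat_lit 362) .nil)))))) (.g (nat_lit 1) (.e (nat_lit 200520) (nat_lit 0) .nil) .nil))) 
(.lf (nat_lit 512830) (.g (nat_lit 3373) (.e (nat_lit 180251) (nat_lit 10) (.e (nat_lit 573456) (nat_lit 9) (.e (nat_lit 1669) (nat_lit 116) (.e (nat_lit 401459) (nat_lit 13) (.e (nat_lit 483363) (nat_lit 18) (.e (nat_lit 57653) (nat_lit 152) (.e (nat_lit 2636) (nat_lit 165) .nil))))))) (.g (nat_lit 1) (.e (nat_lit 202058) (nat_lit 0) .nil) .nil))))) (.nd (nat_lit 8) (.nd (nat_lit 9) 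
(.lf (nat_lit 512190) (.g (nat_lit 2504) (.e (nat_lit 180243) (nat_lit 5) (.e (nat_lit 532513) (nat_lit 3) (.e (nat_lit 114718) (nat_lit 23) (.e (nat_lit 98333) (nat_lit 18) (.e (nat_lit 164396) (nat_lit 256) .nil))))) (.g (nat_lit 0) (.e (nat_lit 200060) (nat_lit 0) .nil) .nil))) 
(.lf (nat_lit 512702) (.g (nat_lit 2493) (.e (nat_lit 180250) (nat_lit 10) (.e (nat_lit 573474) (nat_lit 12) (.e (nat_lit 57504) (nat_lit 38) (.e (nat_lit 638995) (nat_lit 7) (.e (nat_lit 163979) (nat_lit 30) .nil))))) (.g (nat_lit 0) (.e (nat_lit 201438) (nat_lit 0) .nil) .nil)))) (.nd (nat_lit 9) 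
(.lf (nat_lit 512446) (.g (nat_lit 6045) (.e (nat_lit 180244) (nat_lit 5) (.e (nat_lit 532550) (nat_lit 12) (.e (nat_lit 360474) (nat_lit 8) (.e (nat_lit 557091) (nat_lit 12) (.e (nat_lit 164019) (nat_lit 45) .nil))))) (.g (nat_lit 0) (.e (nat_lit 200764) (nat_lit 0) .nil) .nil))) 
(.lf (nat_lit 512958) (.g (nat_lit 3715) (.e (nat_lit 180251) (nat_lit 10) (.e (nat_lit 573489) (nat_lit 14) (.e (nat_lit 73755) (nat_lit 8) (.e (nat_lit 557090) (nat_lit 12) (.e (nat_lit 163851) (nat_lit 0) (.e (nat_lit 5946) (nat_lit 322) (.e (nat_lit 57371) (nat_lit 2) (.e (nat_lit 90174) (nat_lit 14) .nil)))))))) (.g (nat_lit 1) (.e (nat_lit 202563) (nat_lit 0) .nil) .nil)))))) 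
(.nd (nat_lit 7) (.nd (nat_lit 8) (.nd (nat_lit 9) 
(.lf (nat_lit 512126) (.g (nat_lit 2142) (.e (nat_lit 180242) (nat_lit 5) (.e (nat_lit 532569) (nat_lit 16) (.e (nat_lit 401448) (nat_lit 10) (.e (nat_lit 434232) (nat_lit 23) .nil)))) (.g (nat_lit 0) (.e (nat_lit 199889) (nat_lit 0) .nil) .nil))) 
(.lf (nat_lit 512638) (.g (nat_lit 3531) (.e (nat_lit 180250) (nat_lit 10) (.e (nat_lit 573456) (nat_lit 9) (.e (nat_lit 1669) (nat_lit 116) (.e (nat_lit 401459) (nat_lit 13) (.e (nat_lit 483363) (nat_lit 18) (.e (nat_lit 57665) (nat_lit 152) (.e (nat_lit 2637) (nat_lit 165) .nil))))))) (.g (nat_lit 1) (.e (nat_lit 201312) (nat_lit 0) .nil) .nil)))) (.nd (nat_lit 9) 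
(.lf (nat_lit 512382) (.g (nat_lit 2917) (.e (nat_lit 180244) (nat_lit 5) (.e (nat_lit 532523) (nat_lit 7) (.e (nat_lit 319528) (nat_lit 16) (.e (nat_lit 286735) (nat_lit 3) (.e (nat_lit 98323) (nat_lit 17) (.e (nat_lit 7936) (nat_lit 393) .nil)))))) (.g (nat_lit 1) (.e (nat_lit 200637) (nat_lit 0) .nil) .nil))) 
(.lf (nat_lit 512894) (.g (nat_lit 3875) (.e (nat_lit 180251) (nat_lit 10) (.e (nat_lit 573489) (nat_lit 14) (.e (nat_lit 73755) (nat_lit 8) (.e (nat_lit 557065) (nat_lit 9) (.e (nat_lit 2612) (nat_lit 163) (.e (nat_lit 164403) (nat_lit 256) (.e (nat_lit 57371) (nat_lit 2) (.e (nat_lit 90174) (nat_lit 14) .nil)))))))) (.g (nat_lit 1) (.e (nat_lit 202443) (nat_lit 0) .nil) .nil))))) 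
(.nd (nat_lit 8) (.nd (nat_lit 9) 
(.lf (nat_lit 512254) (.g (nat_lit 3070) (.e (nat_lit 180243) (nat_lit 5) (.e (nat_lit 532549) (nat_lit 12) (.e (nat_lit 360473) (nat_lit 8) (.e (nat_lit 557091) (nat_lit 12) (.e (nat_lit 163847) (nat_lit 0) (.e (nat_lit 6254) (nat_lit 337) (.e (nat_lit 2643) (nat_lit 165) .nil))))))) (.g (nat_lit 1) (.e (nat_lit 200333) (nat_lit 0) .nil) .nil))) 
(.lf (nat_lit 512766) (.g (nat_lit 2166) (.e (nat_lit 180250) (nat_lit 10) (.e (nat_lit 573489) (nat_lit 14) (.e (nat_lit 73755) (nat_lit 8) (.e (nat_lit 557084) (nat_lit 10) .nil)))) (.g (nat_lit 0) (.e (nat_lit 201893) (nat_lit 0) .nil) .nil)))) (.nd (nat_lit 9) 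
(.lf (nat_lit 512510) (.g (nat_lit 1686) (.e (nat_lit 180245) (nat_lit 5) (.e (nat_lit 532523) (nat_lit 7) (.e (nat_lit 319504) (nat_lit 10) (.e (nat_lit 5712) (nat_lit 312) .nil)))) (.g (nat_lit 0) (.e (nat_lit 200910) (nat_lit 0) .nil) .nil))) 
(.lf (nat_lit 513022) (.g (nat_lit 2600) (.e (nat_lit 180251) (nat_lit 10) (.e (nat_lit 573489) (nat_lit 14) (.e (nat_lit 73755) (nat_lit 8) (.e (nat_lit 557119) (nat_lit 18) (.e (nat_lit 2427) (nat_lit 157) .nil))))) (.g (nat_lit 0) (.e (nat_lit 202725) (nat_lit 0) .nil) .nil)))))))))))) 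
(.nd (nat_lit 1) (.nd (nat_lit 2) (.nd (nat_lit 3) (.nd (nat_lit 4) (.nd (nat_lit 5) 
(.nd (nat_lit 6) (.nd (nat_lit 7) (.nd (nat_lit 8) (.nd (nat_lit 9) 
(.lf (nat_lit 512001) (.g (nat_lit 198) (.e (nat_lit 179968) (nat_lit 34) (.e (nat_lit 393253) (nat_lit 18) (.e (nat_lit 164326) (nat_lit 230) .nil))) (.g (nat_lit 0) (.e (nat_lit 198749) (nat_lit 0) .nil) .nil))) 
(.lf (nat_lit 512513) (.g (nat_lit 2148) (.e (nat_lit 180245) (nat_lit 5) (.e (nat_lit 532523) (nat_lit 7) (.e (nat_lit 319505) (nat_lit 10) (.e (nat_lit 5714) (nat_lit 312) (.e (nat_lit 2663) (nat_lit 167) .nil))))) (.g (nat_lit 0) (.e (nat_lit 200914) (nat_lit 0) .nil) .nil)))) (.nd (nat_lit 9) 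
(.lf (nat_lit 512257) (.g (nat_lit 3111) (.e (nat_lit 180243) (nat_lit 5) (.e (nat_lit 532549) (nat_lit 12) (.e (nat_lit 360473) (nat_lit 8) (.e (nat_lit 557091) (nat_lit 12) (.e (nat_lit 163850) (nat_lit 0) (.e (nat_lit 6273) (nat_lit 337) (.e (nat_lit 2635) (nat_lit 165) .nil))))))) (.g (nat_lit 1) (.e (nat_lit 200336) (nat_lit 0) .nil) .nil))) 
(.lf (nat_lit 512769) (.g (nat_lit 1870) (.e (nat_lit 180250) (nat_lit 10) (.e (nat_lit 573489) (nat_lit 14) (.e (nat_lit 73755) (nat_lit 8) (.e (nat_lit 557089) (nat_lit 12) (.e (nat_lit 164006) (nat_lit 41) .nil))))) (.g (nat_lit 0) (.e (nat_lit 201909) (nat_lit 0) .nil) .nil))))) (.nd (nat_lit 8) (.nd (nat_lit 9) 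
(.lf (nat_lit 512129) (.g (nat_lit 3483) (.e (nat_lit 180243) (nat_lit 5) (.e (nat_lit 532481) (nat_lit 0) (.e (nat_lit 6722) (nat_lit 362) (.e (nat_lit 180244) (nat_lit 5) (.e (nat_lit 532490) (nat_lit 0) (.e (nat_lit 7936) (nat_lit 362) .nil)))))) (.g (nat_lit 1) (.e (nat_lit 199895) (nat_lit 0) .nil) .nil))) 
(.lf (nat_lit 512641) (.g (nat_lit 2972) (.e (nat_lit 180250) (nat_lit 10) (.e (nat_lit 573456) (nat_lit 9) (.e (nat_lit 1669) (nat_lit 116) (.e (nat_lit 401459) (nat_lit 13) (.e (nat_lit 483363) (nat_lit 18) (.e (nat_lit 57667) (nat_lit 152) (.e (nat_lit 2638) (nat_lit 165) .nil))))))) (.g (nat_lit 1) (.e (nat_lit 201315) (nat_lit 0) .nil) .nil)))) (.nd (nat_lit 9) 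
(.lf (nat_lit 512385) (.g (nat_lit 3090) (.e (nat_lit 180244) (nat_lit 5) (.e (nat_lit 532523) (nat_lit 7) (.e (nat_lit 319530) (nat_lit 16) (.e (nat_lit 286735) (nat_lit 3) (.e (nat_lit 98321) (nat_lit 17) .nil))))) (.g (nat_lit 0) (.e (nat_lit 200640) (nat_lit 0) .nil) .nil))) 
(.lf (nat_lit 512897) (.g (nat_lit 3788) (.e (nat_lit 180251) (nat_lit 10) (.e (nat_lit 573489) (nat_lit 14) (.e (nat_lit 73755) (nat_lit 8) (.e (nat_lit 557067) (nat_lit 9) (.e (nat_lit 2602) (nat_lit 163) (.e (nat_lit 164399) (nat_lit 256) (.e (nat_lit 57373) (nat_lit 2) (.e (nat_lit 90174) (nat_lit 14) .nil)))))))) (.g (nat_lit 1) (.e (nat_lit 202452) (nat_lit 0) .nil) .nil)))))) 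
(.nd (nat_lit 7) (.nd (nat_lit 8) (.nd (nat_lit 9) 
(.lf (nat_lit 512065) (.g (nat_lit 1087) (.e (nat_lit 188160) (nat_lit 0) (.e (nat_lit 5195) (nat_lit 294) (.e (nat_lit 57379) (nat_lit 3) (.e (nat_lit 98334) (nat_lit 18) .nil)))) (.g (nat_lit 0) (.e (nat_lit 199654) (nat_lit 0) .nil) .nil))) 
(.lf (nat_lit 512577) (.g (nat_lit 2369) (.e (nat_lit 188160) (nat_lit 5) (.e (nat_lit 532569) (nat_lit 16) (.e (nat_lit 401434) (nat_lit 9) (.e (nat_lit 426140) (nat_lit 3) (.e (nat_lit 204821) (nat_lit 17) .nil))))) (.g (nat_lit 0) (.e (nat_lit 201018) (nat_lit 0) .nil) .nil)))) (.nd (nat_lit 9) 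
(.lf (nat_lit 512321) (.g (nat_lit 1637) (.e (nat_lit 180243) (nat_lit 5) (.e (nat_lit 532569) (nat_lit 16) (.e (nat_lit 401444) (nat_lit 9) (.e (nat_lit 426129) (nat_lit 3) .nil)))) (.g (nat_lit 0) (.e (nat_lit 200524) (nat_lit 0) .nil) .nil))) 
(.lf (nat_lit 512833) (.g (nat_lit 3870) (.e (nat_lit 180251) (nat_lit 10) (.e (nat_lit 573456) (nat_lit 9) (.e (nat_lit 1669) (nat_lit 116) (.e (nat_lit 401459) (nat_lit 13) (.e (nat_lit 483363) (nat_lit 18) (.e (nat_lit 57659) (nat_lit 152) (.e (nat_lit 2643) (nat_lit 165) .nil))))))) (.g (nat_lit 1) (.e (nat_lit 202061) (nat_lit 0) .nil) .nil))))) (.nd (nat_lit 8) (.nd (nat_lit 9) 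
(.lf (nat_lit 512193) (.g (nat_lit 2235) (.e (nat_lit 180243) (nat_lit 5) (.e (nat_lit 532513) (nat_lit 3) (.e (nat_lit 114718) (nat_lit 23) (.e (nat_lit 98334) (nat_lit 18) (.e (nat_lit 164401) (nat_lit 256) .nil))))) (.g (nat_lit 0) (.e (nat_lit 200064) (nat_lit 0) .nil) .nil))) 
(.lf (nat_lit 512705) (.g (nat_lit 3732) (.e (nat_lit 180250) (nat_lit 10) (.e (nat_lit 573474) (nat_lit 12) (.e (nat_lit 57572) (nat_lit 54) (.e (nat_lit 770072) (nat_lit 8) (.e (nat_lit 65571) (nat_lit 3) (.e (nat_lit 98319) (nat_lit 17) (.e (nat_lit 7389) (nat_lit 393) .nil))))))) (.g (nat_lit 1) (.e (nat_lit 201441) (nat_lit 0) .nil) .nil)))) (.nd (nat_lit 9) 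
(.lf (nat_lit 512449) (.g (nat_lit 2128) (.e (nat_lit 180244) (nat_lit 5) (.e (nat_lit 532550) (nat_lit 12) (.e (nat_lit 360474) (nat_lit 8) (.e (nat_lit 557094) (nat_lit 12) .nil)))) (.g (nat_lit 0) (.e (nat_lit 200767) (nat_lit 0) .nil) .nil))) 
(.lf (nat_lit 512961) (.g (nat_lit 3895) (.e (nat_lit 180251) (nat_lit 10) (.e (nat_lit 573489) (nat_lit 14) (.e (nat_lit 73755) (nat_lit 8) (.e (nat_lit 557090) (nat_lit 12) (.e (nat_lit 163851) (nat_lit 0) (.e (nat_lit 5951) (nat_lit 322) (.e (nat_lit 57373) (nat_lit 2) (.e (nat_lit 90174) (nat_lit 14) .nil)))))))) (.g (nat_lit 1) (.e (nat_lit 202566) (nat_lit 0) .nil) .nil))))))) 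
(.nd (nat_lit 6) (.nd (nat_lit 7) (.nd (nat_lit 8) (.nd (nat_lit 9) 
(.lf (nat_lit 512033) (.g (nat_lit 1841) (.e (nat_lit 180225) (nat_lit 0) (.e (nat_lit 6255) (nat_lit 337) (.e (nat_lit 2630) (nat_lit 164) (.e (nat_lit 172095) (nat_lit 9) (.e (nat_lit 433920) (nat_lit 31) (.e (nat_lit 376576) (nat_lit 5) .nil)))))) (.g (nat_lit 1) (.e (nat_lit 198847) (nat_lit 0) .nil) .nil))) 
(.lf (nat_lit 512545) (.g (nat_lit 1743) (.e (nat_lit 180245) (nat_lit 5) (.e (nat_lit 532549) (nat_lit 12) (.e (nat_lit 360473) (nat_lit 8) (.e (nat_lit 557091) (nat_lit 12) .nil)))) (.g (nat_lit 0) (.e (nat_lit 200970) (nat_lit 0) .nil) .nil)))) (.nd (nat_lit 9) 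
(.lf (nat_lit 512289) (.g (nat_lit 4150) (.e (nat_lit 180243) (nat_lit 5) (.e (nat_lit 532550) (nat_lit 12) (.e (nat_lit 360474) (nat_lit 8) (.e (nat_lit 557089) (nat_lit 12) .nil)))) (.g (nat_lit 0) (.e (nat_lit 200388) (nat_lit 0) .nil) .nil))) 
(.lf (nat_lit 512801) (.g (nat_lit 3095) (.e (nat_lit 180250) (nat_lit 10) (.e (nat_lit 573489) (nat_lit 14) (.e (nat_lit 73755) (nat_lit 8) (.e (nat_lit 557090) (nat_lit 12) (.e (nat_lit 171776) (nat_lit 0) (.e (nat_lit 5953) (nat_lit 322) (.e (nat_lit 57373) (nat_lit 2) (.e (nat_lit 90174) (nat_lit 14) .nil)))))))) (.g (nat_lit 1) (.e (nat_lit 201945) (nat_lit 0) .nil) .nil))))) 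
(.nd (nat_lit 8) (.nd (nat_lit 9) 
(.lf (nat_lit 512161) (.g (nat_lit 1164) (.e (nat_lit 180243) (nat_lit 5) (.e (nat_lit 532501) (nat_lit 1) (.e (nat_lit 57700) (nat_lit 164) (.e (nat_lit 2471) (nat_lit 157) .nil)))) (.g (nat_lit 0) (.e (nat_lit 199953) (nat_lit 0) .nil) .nil))) 
(.lf (nat_lit 512673) (.g (nat_lit 3216) (.e (nat_lit 180250) (nat_lit 10) (.e (nat_lit 573471) (nat_lit 11) (.e (nat_lit 16447) (nat_lit 10) (.e (nat_lit 434231) (nat_lit 23) (.e (nat_lit 532482) (nat_lit 0) (.e (nat_lit 6722) (nat_lit 362) .nil)))))) (.g (nat_lit 1) (.e (nat_lit 201389) (nat_lit 0) .nil) .nil)))) (.nd (nat_lit 9) 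
(.lf (nat_lit 512417) (.g (nat_lit 1612) (.e (nat_lit 180244) (nat_lit 5) (.e (nat_lit 532549) (nat_lit 12) (.e (nat_lit 360473) (nat_lit 8) (.e (nat_lit 557089) (nat_lit 12) .nil)))) (.g (nat_lit 0) (.e (nat_lit 200729) (nat_lit 0) .nil) .nil))) 
(.lf (nat_lit 512929) (.g (nat_lit 3167) (.e (nat_lit 180251) (nat_lit 10) (.e (nat_lit 573489) (nat_lit 14) (.e (nat_lit 73755) (nat_lit 8) (.e (nat_lit 557090) (nat_lit 12) (.e (nat_lit 163841) (nat_lit 0) .nil))))) (.g (nat_lit 0) (.e (nat_lit 202534) (nat_lit 0) .nil) .nil)))))) (.nd (nat_lit 7) (.nd (nat_lit 8) (.nd (nat_lit 9) 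
(.lf (nat_lit 512097) (.g (nat_lit 3666) (.e (nat_lit 180242) (nat_lit 5) (.e (nat_lit 532550) (nat_lit 12) (.e (nat_lit 360474) (nat_lit 8) (.e (nat_lit 557094) (nat_lit 12) .nil)))) (.g (nat_lit 0) (.e (nat_lit 199853) (nat_lit 0) .nil) .nil))) 
(.lf (nat_lit 512609) (.g (nat_lit 1533) (.e (nat_lit 188160) (nat_lit 3) (.e (nat_lit 516199) (nat_lit 26) (.e (nat_lit 335894) (nat_lit 0) (.e (nat_lit 1818) (nat_lit 121) .nil)))) (.g (nat_lit 0) (.e (nat_lit 201077) (nat_lit 0) .nil) .nil)))) (.nd (nat_lit 9) 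
(.lf (nat_lit 512353) (.g (nat_lit 2317) (.e (nat_lit 180244) (nat_lit 5) (.e (nat_lit 532513) (nat_lit 3) (.e (nat_lit 114719) (nat_lit 23) (.e (nat_lit 98335) (nat_lit 18) (.e (nat_lit 164402) (nat_lit 256) .nil))))) (.g (nat_lit 0) (.e (nat_lit 200593) (nat_lit 0) .nil) .nil))) 
(.lf (nat_lit 512865) (.g (nat_lit 3037) (.e (nat_lit 180251) (nat_lit 10) (.e (nat_lit 573477) (nat_lit 12) (.e (nat_lit 57750) (nat_lit 201) (.e (nat_lit 3090) (nat_lit 191) (.e (nat_lit 483363) (nat_lit 18) (.e (nat_lit 57664) (nat_lit 152) (.e (nat_lit 7936) (nat_lit 165) .nil))))))) (.g (nat_lit 1) (.e (nat_lit 202161) (nat_lit 0) .nil) .nil))))) (.nd (nat_lit 8) (.nd (nat_lit 9) 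
(.lf (nat_lit 512225) (.g (nat_lit 3186) (.e (nat_lit 180243) (nat_lit 5) (.e (nat_lit 532523) (nat_lit 7) (.e (nat_lit 319531) (nat_lit 16) (.e (nat_lit 286735) (nat_lit 3) (.e (nat_lit 98323) (nat_lit 17) (.e (nat_lit 7936) (nat_lit 393) .nil)))))) (.g (nat_lit 1) (.e (nat_lit 200143) (nat_lit 0) .nil) .nil))) 
(.lf (nat_lit 512737) (.g (nat_lit 2362) (.e (nat_lit 180250) (nat_lit 10) (.e (nat_lit 573487) (nat_lit 14) (.e (nat_lit 73753) (nat_lit 8) (.e (nat_lit 557091) (nat_lit 12) (.e (nat_lit 164006) (nat_lit 41) .nil))))) (.g (nat_lit 0) (.e (nat_lit 201806) (nat_lit 0) .nil) .nil)))) (.nd (nat_lit 9) 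
(.lf (nat_lit 512481) (.g (nat_lit 1319) (.e (nat_lit 180244) (nat_lit 5) (.e (nat_lit 532569) (nat_lit 16) (.e (nat_lit 401440) (nat_lit 9) (.e (nat_lit 426041) (nat_lit 0) .nil)))) (.g (nat_lit 0) (.e (nat_lit 200840) (nat_lit 0) .nil) .nil))) 
(.lf (nat_lit 512993) (.g (nat_lit 2482) (.e (nat_lit 180251) (nat_lit 10) (.e (nat_lit 573489) (nat_lit 14) (.e (nat_lit 73755) (nat_lit 8) (.e (nat_lit 557091) (nat_lit 12) (.e (nat_lit 163842) (nat_lit 0) (.e (nat_lit 7936) (nat_lit 322) (.e (nat_lit 57371) (nat_lit 2) (.e (nat_lit 90174) (nat_lit 14) .nil)))))))) (.g (nat_lit 1) (.e (nat_lit 202639) (nat_lit 0) .nil) .nil)))))))) 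
(.nd (nat_lit 5) (.nd (nat_lit 6) (.nd (nat_lit 7) (.nd (nat_lit 8) (.nd (nat_lit 9) 
(.lf (nat_lit 512017) (.g (nat_lit 1413) (.e (nat_lit 179968) (nat_lit 34) (.e (nat_lit 393285) (nat_lit 25) (.e (nat_lit 458789) (nat_lit 23) (.e (nat_lit 532499) (nat_lit 1) (.e (nat_lit 57655) (nat_lit 152) .nil))))) (.g (nat_lit 0) (.e (nat_lit 198765) (nat_lit 0) .nil) .nil))) 
(.lf (nat_lit 512529) (.g (nat_lit 2859) (.e (nat_lit 180245) (nat_lit 5) (.e (nat_lit 532523) (nat_lit 7) (.e (nat_lit 319530) (nat_lit 16) (.e (nat_lit 286735) (nat_lit 3) (.e (nat_lit 98325) (nat_lit 17) (.e (nat_lit 7936) (nat_lit 393) .nil)))))) (.g (nat_lit 1) (.e (nat_lit 200935) (nat_lit 0) .nil) .nil)))) (.nd (nat_lit 9) 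
(.lf (nat_lit 512273) (.g (nat_lit 3254) (.e (nat_lit 180243) (nat_lit 5) (.e (nat_lit 532549) (nat_lit 12) (.e (nat_lit 360475) (nat_lit 8) (.e (nat_lit 557090) (nat_lit 12) .nil)))) (.g (nat_lit 0) (.e (nat_lit 200362) (nat_lit 0) .nil) .nil))) 
(.lf (nat_lit 512785) (.g (nat_lit 3460) (.e (nat_lit 180250) (nat_lit 10) (.e (nat_lit 573489) (nat_lit 14) (.e (nat_lit 73755) (nat_lit 8) (.e (nat_lit 557090) (nat_lit 12) (.e (nat_lit 163849) (nat_lit 0) (.e (nat_lit 5945) (nat_lit 322) (.e (nat_lit 57373) (nat_lit 2) (.e (nat_lit 90174) (nat_lit 14) .nil)))))))) (.g (nat_lit 1) (.e (nat_lit 201928) (nat_lit 0) .nil) .nil))))) 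
(.nd (nat_lit 8) (.nd (nat_lit 9) 
(.lf (nat_lit 512145) (.g (nat_lit 3722) (.e (nat_lit 180243) (nat_lit 5) (.e (nat_lit 532499) (nat_lit 1) (.e (nat_lit 57688) (nat_lit 156) (.e (nat_lit 163850) (nat_lit 0) (.e (nat_lit 3252) (nat_lit 197) (.e (nat_lit 532513) (nat_lit 3) (.e (nat_lit 114714) (nat_lit 22) (.e (nat_lit 90172) (nat_lit 14) .nil)))))))) (.g (nat_lit 1) (.e (nat_lit 199926) (nat_lit 0) .nil) .nil))) 
(.lf (nat_lit 512657) (.g (nat_lit 1730) (.e (nat_lit 180250) (nat_lit 10) (.e (nat_lit 573471) (nat_lit 11) (.e (nat_lit 16388) (nat_lit 0) (.e (nat_lit 7382) (nat_lit 391) .nil)))) (.g (nat_lit 0) (.e (nat_lit 201347) (nat_lit 0) .nil) .nil)))) (.nd (nat_lit 9) 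
(.lf (nat_lit 512401) (.g (nat_lit 1593) (.e (nat_lit 180244) (nat_lit 5) (.e (nat_lit 532523) (nat_lit 7) (.e (nat_lit 319534) (nat_lit 16) (.e (nat_lit 286728) (nat_lit 0) .nil)))) (.g (nat_lit 0) (.e (nat_lit 200659) (nat_lit 0) .nil) .nil))) 
(.lf (nat_lit 512913) (.g (nat_lit 2418) (.e (nat_lit 180251) (nat_lit 10) (.e (nat_lit 573489) (nat_lit 14) (.e (nat_lit 73755) (nat_lit 8) (.e (nat_lit 557089) (nat_lit 12) (.e (nat_lit 163844) (nat_lit 0) (.e (nat_lit 5941) (nat_lit 322) (.e (nat_lit 57371) (nat_lit 2) (.e (nat_lit 90174) (nat_lit 14) .nil)))))))) (.g (nat_lit 1) (.e (nat_lit 202505) (nat_lit 0) .nil) .nil)))))) 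
(.nd (nat_lit 7) (.nd (nat_lit 8) (.nd (nat_lit 9) 
(.lf (nat_lit 512081) (.g (nat_lit 1998) (.e (nat_lit 180242) (nat_lit 5) (.e (nat_lit 532523) (nat_lit 7) (.e (nat_lit 319537) (nat_lit 19) (.e (nat_lit 311312) (nat_lit 2) (.e (nat_lit 196661) (nat_lit 12) .nil))))) (.g (nat_lit 0) (.e (nat_lit 199823) (nat_lit 0) .nil) .nil))) 
(.lf (nat_lit 512593) (.g (nat_lit 2635) (.e (nat_lit 180246) (nat_lit 6) (.e (nat_lit 540706) (nat_lit 12) (.e (nat_lit 360475) (nat_lit 8) (.e (nat_lit 557090) (nat_lit 12) (.e (nat_lit 163844) (nat_lit 0) .nil))))) (.g (nat_lit 0) (.e (nat_lit 201039) (nat_lit 0) .nil) .nil)))) (.nd (nat_lit 9) 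
(.lf (nat_lit 512337) (.g (nat_lit 2762) (.e (nat_lit 180243) (nat_lit 5) (.e (nat_lit 532579) (nat_lit 26) (.e (nat_lit 426107) (nat_lit 1) (.e (nat_lit 164347) (nat_lit 240) (.e (nat_lit 2619) (nat_lit 164) (.e (nat_lit 172128) (nat_lit 15) (.e (nat_lit 6723) (nat_lit 362) .nil))))))) (.g (nat_lit 1) (.e (nat_lit 200544) (nat_lit 0) .nil) .nil))) 
(.lf (nat_lit 512849) (.g (nat_lit 3735) (.e (nat_lit 180251) (nat_lit 10) (.e (nat_lit 573469) (nat_lit 11) (.e (nat_lit 16446) (nat_lit 9) (.e (nat_lit 426133) (nat_lit 3) (.e (nat_lit 204816) (nat_lit 17) (.e (nat_lit 6724) (nat_lit 362) .nil)))))) (.g (nat_lit 1) (.e (nat_lit 202087) (nat_lit 0) .nil) .nil))))) (.nd (nat_lit 8) (.nd (nat_lit 9) 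
(.lf (nat_lit 512209) (.g (nat_lit 1329) (.e (nat_lit 180243) (nat_lit 5) (.e (nat_lit 532523) (nat_lit 7) (.e (nat_lit 319504) (nat_lit 10) (.e (nat_lit 5714) (nat_lit 312) .nil)))) (.g (nat_lit 0) (.e (nat_lit 200120) (nat_lit 0) .nil) .nil))) 
(.lf (nat_lit 512721) (.g (nat_lit 481) (.e (nat_lit 180250) (nat_lit 10) (.e (nat_lit 573482) (nat_lit 13) (.e (nat_lit 65568) (nat_lit 2) .nil))) (.g (nat_lit 0) (.e (nat_lit 201601) (nat_lit 0) .nil) .nil)))) (.nd (nat_lit 9) 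
(.lf (nat_lit 512465) (.g (nat_lit 3163) (.e (nat_lit 180244) (nat_lit 5) (.e (nat_lit 532550) (nat_lit 12) (.e (nat_lit 360475) (nat_lit 8) (.e (nat_lit 557091) (nat_lit 12) (.e (nat_lit 163843) (nat_lit 0) .nil))))) (.g (nat_lit 0) (.e (nat_lit 200791) (nat_lit 0) .nil) .nil))) 
(.lf (nat_lit 512977) (.g (nat_lit 3294) (.e (nat_lit 180251) (nat_lit 10) (.e (nat_lit 573489) (nat_lit 14) (.e (nat_lit 73755) (nat_lit 8) (.e (nat_lit 557090) (nat_lit 12) (.e (nat_lit 171776) (nat_lit 0) .nil))))) (.g (nat_lit 0) (.e (nat_lit 202584) (nat_lit 0) .nil) .nil))))))) (.nd (nat_lit 6) (.nd (nat_lit 7) (.nd (nat_lit 8) (.nd (nat_lit 9) 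
(.lf (nat_lit 512049) (.g (nat_lit 1723) (.e (nat_lit 180227) (nat_lit 0) (.e (nat_lit 6420) (nat_lit 341) (.e (nat_lit 163902) (nat_lit 12) (.e (nat_lit 426251) (nat_lit 9) .nil)))) (.g (nat_lit 0) (.e (nat_lit 199328) (nat_lit 0) .nil) .nil))) 
(.lf (nat_lit 512561) (.g (nat_lit 2658) (.e (nat_lit 180245) (nat_lit 5) (.e (nat_lit 532569) (nat_lit 16) (.e (nat_lit 401434) (nat_lit 9) (.e (nat_lit 426140) (nat_lit 3) (.e (nat_lit 204821) (nat_lit 17) .nil))))) (.g (nat_lit 0) (.e (nat_lit 200998) (nat_lit 0) .nil) .nil)))) (.nd (nat_lit 9) 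
(.lf (nat_lit 512305) (.g (nat_lit 3411) (.e (nat_lit 180243) (nat_lit 5) (.e (nat_lit 532550) (nat_lit 12) (.e (nat_lit 360475) (nat_lit 8) (.e (nat_lit 557091) (nat_lit 12) (.e (nat_lit 163844) (nat_lit 0) .nil))))) (.g (nat_lit 0) (.e (nat_lit 200408) (nat_lit 0) .nil) .nil))) 
(.lf (nat_lit 512817) (.g (nat_lit 2358) (.e (nat_lit 180250) (nat_lit 10) (.e (nat_lit 573489) (nat_lit 14) (.e (nat_lit 73755) (nat_lit 8) (.e (nat_lit 557119) (nat_lit 18) (.e (nat_lit 2798) (nat_lit 180) .nil))))) (.g (nat_lit 0) (.e (nat_lit 202006) (nat_lit 0) .nil) .nil))))) (.nd (nat_lit 8) (.nd (nat_lit 9) 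
(.lf (nat_lit 512177) (.g (nat_lit 3118) (.e (nat_lit 180243) (nat_lit 5) (.e (nat_lit 532504) (nat_lit 1) (.e (nat_lit 57691) (nat_lit 156) (.e (nat_lit 163875) (nat_lit 3) (.e (nat_lit 204837) (nat_lit 20) (.e (nat_lit 114715) (nat_lit 22) (.e (nat_lit 90174) (nat_lit 14) .nil))))))) (.g (nat_lit 1) (.e (nat_lit 199980) (nat_lit 0) .nil) .nil))) 
(.lf (nat_lit 512689) (.g (nat_lit 4211) (.e (nat_lit 180250) (nat_lit 10) (.e (nat_lit 573471) (nat_lit 11) (.e (nat_lit 16470) (nat_lit 14) (.e (nat_lit 491537) (nat_lit 2) (.e (nat_lit 90165) (nat_lit 12) .nil))))) (.g (nat_lit 0) (.e (nat_lit 201421) (nat_lit 0) .nil) .nil)))) (.nd (nat_lit 9) 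
(.lf (nat_lit 512433) (.g (nat_lit 3863) (.e (nat_lit 180244) (nat_lit 5) (.e (nat_lit 532549) (nat_lit 12) (.e (nat_lit 360475) (nat_lit 8) (.e (nat_lit 557091) (nat_lit 12) (.e (nat_lit 163843) (nat_lit 0) .nil))))) (.g (nat_lit 0) (.e (nat_lit 200747) (nat_lit 0) .nil) .nil))) 
(.lf (nat_lit 512945) (.g (nat_lit 3525) (.e (nat_lit 180251) (nat_lit 10) (.e (nat_lit 573489) (nat_lit 14) (.e (nat_lit 73755) (nat_lit 8) (.e (nat_lit 557090) (nat_lit 12) (.e (nat_lit 163849) (nat_lit 0) .nil))))) (.g (nat_lit 0) (.e (nat_lit 202550) (nat_lit 0) .nil) .nil)))))) (.nd (nat_lit 7) (.nd (nat_lit 8) (.nd (nat_lit 9) 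
(.lf (nat_lit 512113) (.g (nat_lit 5210) (.e (nat_lit 180242) (nat_lit 5) (.e (nat_lit 532550) (nat_lit 12) (.e (nat_lit 360475) (nat_lit 8) (.e (nat_lit 557091) (nat_lit 12) (.e (nat_lit 163850) (nat_lit 0) (.e (nat_lit 6273) (nat_lit 337) (.e (nat_lit 2635) (nat_lit 165) .nil))))))) (.g (nat_lit 1) (.e (nat_lit 199873) (nat_lit 0) .nil) .nil))) 
(.lf (nat_lit 512625) (.g (nat_lit 1336) (.e (nat_lit 180250) (nat_lit 10) (.e (nat_lit 573451) (nat_lit 9) (.e (nat_lit 430) (nat_lit 32) (.e (nat_lit 426298) (nat_lit 11) .nil)))) (.g (nat_lit 0) (.e (nat_lit 201272) (nat_lit 0) .nil) .nil)))) (.nd (nat_lit 9) 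
(.lf (nat_lit 512369) (.g (nat_lit 2401) (.e (nat_lit 180244) (nat_lit 5) (.e (nat_lit 532523) (nat_lit 7) (.e (nat_lit 319504) (nat_lit 10) (.e (nat_lit 5714) (nat_lit 312) (.e (nat_lit 2663) (nat_lit 167) (.e (nat_lit 196677) (nat_lit 16) (.e (nat_lit 130816) (nat_lit 206) .nil))))))) (.g (nat_lit 1) (.e (nat_lit 200615) (nat_lit 0) .nil) .nil))) 
(.lf (nat_lit 512881) (.g (nat_lit 2877) (.e (nat_lit 180251) (nat_lit 10) (.e (nat_lit 573489) (nat_lit 14) (.e (nat_lit 73747) (nat_lit 3) (.e (nat_lit 516117) (nat_lit 1) (.e (nat_lit 171776) (nat_lit 160) .nil))))) (.g (nat_lit 0) (.e (nat_lit 202401) (nat_lit 0) .nil) .nil))))) (.nd (nat_lit 8) (.nd (nat_lit 9) 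
(.lf (nat_lit 512241) (.g (nat_lit 507) (.e (nat_lit 180243) (nat_lit 5) (.e (nat_lit 532530) (nat_lit 9) (.e (nat_lit 336336) (nat_lit 20) .nil))) (.g (nat_lit 0) (.e (nat_lit 200207) (nat_lit 0) .nil) .nil))) 
(.lf (nat_lit 512753) (.g (nat_lit 1171) (.e (nat_lit 180250) (nat_lit 10) (.e (nat_lit 573489) (nat_lit 14) (.e (nat_lit 73748) (nat_lit 3) (.e (nat_lit 516115) (nat_lit 1) .nil)))) (.g (nat_lit 0) (.e (nat_lit 201848) (nat_lit 0) .nil) .nil)))) (.nd (nat_lit 9) 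
(.lf (nat_lit 512497) (.g (nat_lit 366) (.e (nat_lit 180245) (nat_lit 5) (.e (nat_lit 532515) (nat_lit 3) (.e (nat_lit 114702) (nat_lit 20) .nil))) (.g (nat_lit 0) (.e (nat_lit 200870) (nat_lit 0) .nil) .nil))) 
(.lf (nat_lit 513009) (.g (nat_lit 2611) (.e (nat_lit 180251) (nat_lit 10) (.e (nat_lit 573489) (nat_lit 14) (.e (nat_lit 73755) (nat_lit 8) (.e (nat_lit 557091) (nat_lit 12) (.e (nat_lit 163851) (nat_lit 0) (.e (nat_lit 5950) (nat_lit 322) (.e (nat_lit 57371) (nat_lit 2) (.e (nat_lit 90174) (nat_lit 14) .nil)))))))) (.g (nat_lit 1) (.e (nat_lit 202655) (nat_lit 0) .nil) .nil))))))))) 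
(.nd (nat_lit 4) (.nd (nat_lit 5) (.nd (nat_lit 6) (.nd (nat_lit 7) (.nd (nat_lit 8) 
(.nd (nat_lit 9) 
(.lf (nat_lit 512009) (.g (nat_lit 2196) (.e (nat_lit 179968) (nat_lit 34) (.e (nat_lit 393283) (nat_lit 24) (.e (nat_lit 434231) (nat_lit 23) (.e (nat_lit 532499) (nat_lit 1) (.e (nat_lit 57654) (nat_lit 152) .nil))))) (.g (nat_lit 0) (.e (nat_lit 198757) (nat_lit 0) .nil) .nil))) 
(.lf (nat_lit 512521) (.g (nat_lit 854) (.e (nat_lit 180245) (nat_lit 5) (.e (nat_lit 532523) (nat_lit 7) (.e (nat_lit 319539) (nat_lit 19) .nil))) (.g (nat_lit 0) (.e (nat_lit 200927) (nat_lit 0) .nil) .nil)))) (.nd (nat_lit 9) 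
(.lf (nat_lit 512265) (.g (nat_lit 1229) (.e (nat_lit 180243) (nat_lit 5) (.e (nat_lit 532549) (nat_lit 12) (.e (nat_lit 360474) (nat_lit 8) (.e (nat_lit 557093) (nat_lit 12) .nil)))) (.g (nat_lit 0) (.e (nat_lit 200350) (nat_lit 0) .nil) .nil))) 
(.lf (nat_lit 512777) (.g (nat_lit 3318) (.e (nat_lit 180250) (nat_lit 10) (.e (nat_lit 573489) (nat_lit 14) (.e (nat_lit 73755) (nat_lit 8) (.e (nat_lit 557090) (nat_lit 12) (.e (nat_lit 163845) (nat_lit 0) (.e (nat_lit 5945) (nat_lit 322) (.e (nat_lit 57373) (nat_lit 2) (.e (nat_lit 90174) (nat_lit 14) .nil)))))))) (.g (nat_lit 1) (.e (nat_lit 201920) (nat_lit 0) .nil) .nil))))) 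
(.nd (nat_lit 8) (.nd (nat_lit 9) 
(.lf (nat_lit 512137) (.g (nat_lit 1677) (.e (nat_lit 180243) (nat_lit 5) (.e (nat_lit 532482) (nat_lit 0) (.e (nat_lit 6724) (nat_lit 362) (.e (nat_lit 180243) (nat_lit 5) (.e (nat_lit 532486) (nat_lit 0) (.e (nat_lit 7936) (nat_lit 362) .nil)))))) (.g (nat_lit 1) (.e (nat_lit 199905) (nat_lit 0) .nil) .nil))) 
(.lf (nat_lit 512649) (.g (nat_lit 1915) (.e (nat_lit 180250) (nat_lit 10) (.e (nat_lit 573469) (nat_lit 11) (.e (nat_lit 16446) (nat_lit 9) (.e (nat_lit 426116) (nat_lit 2) (.e (nat_lit 196677) (nat_lit 16) .nil))))) (.g (nat_lit 0) (.e (nat_lit 201334) (nat_lit 0) .nil) .nil)))) (.nd (nat_lit 9) 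
(.lf (nat_lit 512393) (.g (nat_lit 2416) (.e (nat_lit 180244) (nat_lit 5) (.e (nat_lit 532523) (nat_lit 7) (.e (nat_lit 319532) (nat_lit 16) (.e (nat_lit 286735) (nat_lit 3) (.e (nat_lit 98325) (nat_lit 17) .nil))))) (.g (nat_lit 0) (.e (nat_lit 200648) (nat_lit 0) .nil) .nil))) 
(.lf (nat_lit 512905) (.g (nat_lit 3111) (.e (nat_lit 180251) (nat_lit 10) (.e (nat_lit 573489) (nat_lit 14) (.e (nat_lit 73755) (nat_lit 8) (.e (nat_lit 557074) (nat_lit 9) (.e (nat_lit 2609) (nat_lit 163) (.e (nat_lit 164403) (nat_lit 256) (.e (nat_lit 57371) (nat_lit 2) (.e (nat_lit 90174) (nat_lit 14) .nil)))))))) (.g (nat_lit 1) (.e (nat_lit 202462) (nat_lit 0) .nil) .nil)))))) 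
(.nd (nat_lit 7) (.nd (nat_lit 8) (.nd (nat_lit 9) 
(.lf (nat_lit 512073) (.g (nat_lit 461) (.e (nat_lit 180242) (nat_lit 5) (.e (nat_lit 532481) (nat_lit 0) (.e (nat_lit 6724) (nat_lit 362) .nil))) (.g (nat_lit 0) (.e (nat_lit 199808) (nat_lit 0) .nil) .nil))) 
(.lf (nat_lit 512585) (.g (nat_lit 1000) (.e (nat_lit 180246) (nat_lit 6) (.e (nat_lit 540706) (nat_lit 12) (.e (nat_lit 360474) (nat_lit 8) (.e (nat_lit 557094) (nat_lit 12) .nil)))) (.g (nat_lit 0) (.e (nat_lit 201028) (nat_lit 0) .nil) .nil)))) (.nd (nat_lit 9) 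
(.lf (nat_lit 512329) (.g (nat_lit 2076) (.e (nat_lit 180243) (nat_lit 5) (.e (nat_lit 532569) (nat_lit 16) (.e (nat_lit 401448) (nat_lit 10) (.e (nat_lit 434230) (nat_lit 23) .nil)))) (.g (nat_lit 0) (.e (nat_lit 200535) (nat_lit 0) .nil) .nil))) 
(.lf (nat_lit 512841) (.g (nat_lit 4134) (.e (nat_lit 180251) (nat_lit 10) (.e (nat_lit 573456) (nat_lit 9) (.e (nat_lit 1669) (nat_lit 116) (.e (nat_lit 401459) (nat_lit 13) (.e (nat_lit 483364) (nat_lit 18) (.e (nat_lit 57665) (nat_lit 152) (.e (nat_lit 2637) (nat_lit 165) .nil))))))) (.g (nat_lit 1) (.e (nat_lit 202069) (nat_lit 0) .nil) .nil))))) (.nd (nat_lit 8) (.nd (nat_lit 9) 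
(.lf (nat_lit 512201) (.g (nat_lit 1981) (.e (nat_lit 180243) (nat_lit 5) (.e (nat_lit 532515) (nat_lit 3) (.e (nat_lit 114719) (nat_lit 23) (.e (nat_lit 98328) (nat_lit 17) .nil)))) (.g (nat_lit 0) (.e (nat_lit 200111) (nat_lit 0) .nil) .nil))) 
(.lf (nat_lit 512713) (.g (nat_lit 658) (.e (nat_lit 180250) (nat_lit 10) (.e (nat_lit 573475) (nat_lit 12) (.e (nat_lit 57515) (nat_lit 42) .nil))) (.g (nat_lit 0) (.e (nat_lit 201451) (nat_lit 0) .nil) .nil)))) (.nd (nat_lit 9) 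
(.lf (nat_lit 512457) (.g (nat_lit 3647) (.e (nat_lit 180244) (nat_lit 5) (.e (nat_lit 532550) (nat_lit 12) (.e (nat_lit 360475) (nat_lit 8) (.e (nat_lit 557089) (nat_lit 12) (.e (nat_lit 163853) (nat_lit 0) .nil))))) (.g (nat_lit 0) (.e (nat_lit 200781) (nat_lit 0) .nil) .nil))) 
(.lf (nat_lit 512969) (.g (nat_lit 4093) (.e (nat_lit 180251) (nat_lit 10) (.e (nat_lit 573489) (nat_lit 14) (.e (nat_lit 73755) (nat_lit 8) (.e (nat_lit 557090) (nat_lit 12) (.e (nat_lit 163854) (nat_lit 0) (.e (nat_lit 5951) (nat_lit 322) (.e (nat_lit 57373) (nat_lit 2) (.e (nat_lit 90174) (nat_lit 14) .nil)))))))) (.g (nat_lit 1) (.e (nat_lit 202574) (nat_lit 0) .nil) .nil))))))) 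
(.nd (nat_lit 6) (.nd (nat_lit 7) (.nd (nat_lit 8) (.nd (nat_lit 9) 
(.lf (nat_lit 512041) (.g (nat_lit 114) (.e (nat_lit 180226) (nat_lit 0) (.e (nat_lit 6418) (nat_lit 341) (.e (nat_lit 163908) (nat_lit 12) .nil))) (.g (nat_lit 0) (.e (nat_lit 199144) (nat_lit 0) .nil) .nil))) 
(.lf (nat_lit 512553) (.g (nat_lit 4922) (.e (nat_lit 180245) (nat_lit 5) (.e (nat_lit 532550) (nat_lit 12) (.e (nat_lit 360475) (nat_lit 8) (.e (nat_lit 557089) (nat_lit 12) (.e (nat_lit 163850) (nat_lit 0) .nil))))) (.g (nat_lit 0) (.e (nat_lit 200981) (nat_lit 0) .nil) .nil)))) (.nd (nat_lit 9) 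
(.lf (nat_lit 512297) (.g (nat_lit 2521) (.e (nat_lit 180243) (nat_lit 5) (.e (nat_lit 532550) (nat_lit 12) (.e (nat_lit 360475) (nat_lit 8) (.e (nat_lit 557089) (nat_lit 12) .nil)))) (.g (nat_lit 0) (.e (nat_lit 200400) (nat_lit 0) .nil) .nil))) 
(.lf (nat_lit 512809) (.g (nat_lit 2563) (.e (nat_lit 180250) (nat_lit 10) (.e (nat_lit 573489) (nat_lit 14) (.e (nat_lit 73755) (nat_lit 8) (.e (nat_lit 557091) (nat_lit 12) (.e (nat_lit 163845) (nat_lit 0) .nil))))) (.g (nat_lit 0) (.e (nat_lit 201988) (nat_lit 0) .nil) .nil))))) (.nd (nat_lit 8) (.nd (nat_lit 9) 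
(.lf (nat_lit 512169) (.g (nat_lit 2996) (.e (nat_lit 180243) (nat_lit 5) (.e (nat_lit 532503) (nat_lit 1) (.e (nat_lit 57691) (nat_lit 156) (.e (nat_lit 163874) (nat_lit 3) (.e (nat_lit 204838) (nat_lit 20) (.e (nat_lit 114716) (nat_lit 22) (.e (nat_lit 90174) (nat_lit 14) .nil))))))) (.g (nat_lit 1) (.e (nat_lit 199968) (nat_lit 0) .nil) .nil))) 
(.lf (nat_lit 512681) (.g (nat_lit 4110) (.e (nat_lit 180250) (nat_lit 10) (.e (nat_lit 573471) (nat_lit 11) (.e (nat_lit 16448) (nat_lit 10) (.e (nat_lit 434231) (nat_lit 23) (.e (nat_lit 532490) (nat_lit 0) (.e (nat_lit 7936) (nat_lit 362) .nil)))))) (.g (nat_lit 1) (.e (nat_lit 201404) (nat_lit 0) .nil) .nil)))) (.nd (nat_lit 9) 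
(.lf (nat_lit 512425) (.g (nat_lit 1672) (.e (nat_lit 180244) (nat_lit 5) (.e (nat_lit 532549) (nat_lit 12) (.e (nat_lit 360473) (nat_lit 8) (.e (nat_lit 557094) (nat_lit 12) .nil)))) (.g (nat_lit 0) (.e (nat_lit 200737) (nat_lit 0) .nil) .nil))) 
(.lf (nat_lit 512937) (.g (nat_lit 3458) (.e (nat_lit 180251) (nat_lit 10) (.e (nat_lit 573489) (nat_lit 14) (.e (nat_lit 73755) (nat_lit 8) (.e (nat_lit 557090) (nat_lit 12) (.e (nat_lit 163845) (nat_lit 0) .nil))))) (.g (nat_lit 0) (.e (nat_lit 202542) (nat_lit 0) .nil) .nil)))))) (.nd (nat_lit 7) (.nd (nat_lit 8) (.nd (nat_lit 9) 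
(.lf (nat_lit 512105) (.g (nat_lit 5676) (.e (nat_lit 180242) (nat_lit 5) (.e (nat_lit 532550) (nat_lit 12) (.e (nat_lit 360475) (nat_lit 8) (.e (nat_lit 557089) (nat_lit 12) (.e (nat_lit 163850) (nat_lit 0) (.e (nat_lit 6273) (nat_lit 337) (.e (nat_lit 2635) (nat_lit 165) .nil))))))) (.g (nat_lit 1) (.e (nat_lit 199865) (nat_lit 0) .nil) .nil))) 
(.lf (nat_lit 512617) (.g (nat_lit 1113) (.e (nat_lit 180241) (nat_lit 4) (.e (nat_lit 524340) (nat_lit 28) (.e (nat_lit 352322) (nat_lit 26) (.e (nat_lit 155392) (nat_lit 18) .nil)))) (.g (nat_lit 0) (.e (nat_lit 201088) (nat_lit 0) .nil) .nil)))) (.nd (nat_lit 9) 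
(.lf (nat_lit 512361) (.g (nat_lit 1835) (.e (nat_lit 180244) (nat_lit 5) (.e (nat_lit 532522) (nat_lit 7) (.e (nat_lit 319539) (nat_lit 19) (.e (nat_lit 311312) (nat_lit 2) (.e (nat_lit 196628) (nat_lit 9) .nil))))) (.g (nat_lit 0) (.e (nat_lit 200607) (nat_lit 0) .nil) .nil))) 
(.lf (nat_lit 512873) (.g (nat_lit 958) (.e (nat_lit 180251) (nat_lit 10) (.e (nat_lit 573485) (nat_lit 13) (.e (nat_lit 65568) (nat_lit 2) (.e (nat_lit 98048) (nat_lit 0) .nil)))) (.g (nat_lit 0) (.e (nat_lit 202327) (nat_lit 0) .nil) .nil))))) (.nd (nat_lit 8) (.nd (nat_lit 9) 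
(.lf (nat_lit 512233) (.g (nat_lit 1629) (.e (nat_lit 180243) (nat_lit 5) (.e (nat_lit 532523) (nat_lit 7) (.e (nat_lit 319534) (nat_lit 16) (.e (nat_lit 286728) (nat_lit 0) .nil)))) (.g (nat_lit 0) (.e (nat_lit 200151) (nat_lit 0) .nil) .nil))) 
(.lf (nat_lit 512745) (.g (nat_lit 2996) (.e (nat_lit 180250) (nat_lit 10) (.e (nat_lit 573488) (nat_lit 14) (.e (nat_lit 73755) (nat_lit 8) (.e (nat_lit 557090) (nat_lit 12) (.e (nat_lit 164005) (nat_lit 41) .nil))))) (.g (nat_lit 0) (.e (nat_lit 201834) (nat_lit 0) .nil) .nil)))) (.nd (nat_lit 9) 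
(.lf (nat_lit 512489) (.g (nat_lit 1864) (.e (nat_lit 180244) (nat_lit 5) (.e (nat_lit 532569) (nat_lit 16) (.e (nat_lit 401448) (nat_lit 10) (.e (nat_lit 434226) (nat_lit 20) .nil)))) (.g (nat_lit 0) (.e (nat_lit 200850) (nat_lit 0) .nil) .nil))) 
(.lf (nat_lit 513001) (.g (nat_lit 2719) (.e (nat_lit 180251) (nat_lit 10) (.e (nat_lit 573489) (nat_lit 14) (.e (nat_lit 73755) (nat_lit 8) (.e (nat_lit 557091) (nat_lit 12) (.e (nat_lit 163844) (nat_lit 0) (.e (nat_lit 5943) (nat_lit 322) (.e (nat_lit 57372) (nat_lit 2) (.e (nat_lit 90172) (nat_lit 14) .nil)))))))) (.g (nat_lit 1) (.e (nat_lit 202647) (nat_lit 0) .nil) .nil)))))))) 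
(.nd (nat_lit 5) (.nd (nat_lit 6) (.nd (nat_lit 7) (.nd (nat_lit 8) (.nd (nat_lit 9) 
(.lf (nat_lit 512025) (.g (nat_lit 2315) (.e (nat_lit 179968) (nat_lit 34) (.e (nat_lit 393299) (nat_lit 27) (.e (nat_lit 491538) (nat_lit 3) (.e (nat_lit 98334) (nat_lit 18) (.e (nat_lit 164227) (nat_lit 181) .nil))))) (.g (nat_lit 0) (.e (nat_lit 198773) (nat_lit 0) .nil) .nil))) 
(.lf (nat_lit 512537) (.g (nat_lit 2961) (.e (nat_lit 180245) (nat_lit 5) (.e (nat_lit 532523) (nat_lit 7) (.e (nat_lit 319533) (nat_lit 16) (.e (nat_lit 286735) (nat_lit 3) (.e (nat_lit 98325) (nat_lit 17) .nil))))) (.g (nat_lit 0) (.e (nat_lit 200944) (nat_lit 0) .nil) .nil)))) (.nd (nat_lit 9) 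
(.lf (nat_lit 512281) (.g (nat_lit 3680) (.e (nat_lit 180243) (nat_lit 5) (.e (nat_lit 532549) (nat_lit 12) (.e (nat_lit 360475) (nat_lit 8) (.e (nat_lit 557091) (nat_lit 12) (.e (nat_lit 163847) (nat_lit 0) (.e (nat_lit 6254) (nat_lit 337) (.e (nat_lit 2643) (nat_lit 165) .nil))))))) (.g (nat_lit 1) (.e (nat_lit 200372) (nat_lit 0) .nil) .nil))) 
(.lf (nat_lit 512793) (.g (nat_lit 2927) (.e (nat_lit 180250) (nat_lit 10) (.e (nat_lit 573489) (nat_lit 14) (.e (nat_lit 73755) (nat_lit 8) (.e (nat_lit 557090) (nat_lit 12) (.e (nat_lit 163852) (nat_lit 0) .nil))))) (.g (nat_lit 0) (.e (nat_lit 201936) (nat_lit 0) .nil) .nil))))) (.nd (nat_lit 8) (.nd (nat_lit 9) 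
(.lf (nat_lit 512153) (.g (nat_lit 2477) (.e (nat_lit 180243) (nat_lit 5) (.e (nat_lit 532500) (nat_lit 1) (.e (nat_lit 57691) (nat_lit 156) (.e (nat_lit 163874) (nat_lit 3) (.e (nat_lit 204837) (nat_lit 20) .nil))))) (.g (nat_lit 0) (.e (nat_lit 199942) (nat_lit 0) .nil) .nil))) 
(.lf (nat_lit 512665) (.g (nat_lit 1327) (.e (nat_lit 180250) (nat_lit 10) (.e (nat_lit 573471) (nat_lit 11) (.e (nat_lit 16441) (nat_lit 9) (.e (nat_lit 426135) (nat_lit 3) .nil)))) (.g (nat_lit 0) (.e (nat_lit 201371) (nat_lit 0) .nil) .nil)))) (.nd (nat_lit 9) 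
(.lf (nat_lit 512409) (.g (nat_lit 3418) (.e (nat_lit 180244) (nat_lit 5) (.e (nat_lit 532523) (nat_lit 7) (.e (nat_lit 319534) (nat_lit 16) (.e (nat_lit 286735) (nat_lit 3) (.e (nat_lit 98321) (nat_lit 17) (.e (nat_lit 7936) (nat_lit 393) .nil)))))) (.g (nat_lit 1) (.e (nat_lit 200668) (nat_lit 0) .nil) .nil))) 
(.lf (nat_lit 512921) (.g (nat_lit 2007) (.e (nat_lit 180251) (nat_lit 10) (.e (nat_lit 573489) (nat_lit 14) (.e (nat_lit 73755) (nat_lit 8) (.e (nat_lit 557089) (nat_lit 12) (.e (nat_lit 164007) (nat_lit 41) .nil))))) (.g (nat_lit 0) (.e (nat_lit 202517) (nat_lit 0) .nil) .nil)))))) (.nd (nat_lit 7) (.nd (nat_lit 8) (.nd (nat_lit 9) 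
(.lf (nat_lit 512089) (.g (nat_lit 746) (.e (nat_lit 180242) (nat_lit 5) (.e (nat_lit 532550) (nat_lit 12) (.e (nat_lit 360474) (nat_lit 8) .nil))) (.g (nat_lit 0) (.e (nat_lit 199845) (nat_lit 0) .nil) .nil))) 
(.lf (nat_lit 512601) (.g (nat_lit 3503) (.e (nat_lit 180246) (nat_lit 6) (.e (nat_lit 540706) (nat_lit 12) (.e (nat_lit 360475) (nat_lit 8) (.e (nat_lit 557091) (nat_lit 12) (.e (nat_lit 163850) (nat_lit 0) (.e (nat_lit 6273) (nat_lit 337) (.e (nat_lit 2636) (nat_lit 165) .nil))))))) (.g (nat_lit 1) (.e (nat_lit 201047) (nat_lit 0) .nil) .nil)))) (.nd (nat_lit 9) 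
(.lf (nat_lit 512345) (.g (nat_lit 3166) (.e (nat_lit 180244) (nat_lit 5) (.e (nat_lit 532499) (nat_lit 1) (.e (nat_lit 57688) (nat_lit 156) (.e (nat_lit 163850) (nat_lit 0) (.e (nat_lit 3238) (nat_lit 197) (.e (nat_lit 532513) (nat_lit 3) (.e (nat_lit 114714) (nat_lit 22) (.e (nat_lit 90172) (nat_lit 14) .nil)))))))) (.g (nat_lit 1) (.e (nat_lit 200580) (nat_lit 0) .nil) .nil))) 
(.lf (nat_lit 512857) (.g (nat_lit 2052) (.e (nat_lit 180251) (nat_lit 10) (.e (nat_lit 573471) (nat_lit 11) (.e (nat_lit 16439) (nat_lit 9) (.e (nat_lit 426132) (nat_lit 3) .nil)))) (.g (nat_lit 0) (.e (nat_lit 202100) (nat_lit 0) .nil) .nil))))) (.nd (nat_lit 8) (.nd (nat_lit 9) 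
(.lf (nat_lit 512217) (.g (nat_lit 1675) (.e (nat_lit 180243) (nat_lit 5) (.e (nat_lit 532523) (nat_lit 7) (.e (nat_lit 319538) (nat_lit 19) (.e (nat_lit 311315) (nat_lit 3) .nil)))) (.g (nat_lit 0) (.e (nat_lit 200135) (nat_lit 0) .nil) .nil))) 
(.lf (nat_lit 512729) (.g (nat_lit 3175) (.e (nat_lit 180250) (nat_lit 10) (.e (nat_lit 573487) (nat_lit 14) (.e (nat_lit 73753) (nat_lit 8) (.e (nat_lit 557090) (nat_lit 12) (.e (nat_lit 163840) (nat_lit 0) (.e (nat_lit 5939) (nat_lit 322) (.e (nat_lit 57375) (nat_lit 2) (.e (nat_lit 90172) (nat_lit 14) .nil)))))))) (.g (nat_lit 1) (.e (nat_lit 201787) (nat_lit 0) .nil) .nil)))) (.nd (nat_lit 9) 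
(.lf (nat_lit 512473) (.g (nat_lit 3680) (.e (nat_lit 180244) (nat_lit 5) (.e (nat_lit 532550) (nat_lit 12) (.e (nat_lit 360475) (nat_lit 8) (.e (nat_lit 557091) (nat_lit 12) (.e (nat_lit 164018) (nat_lit 45) (.e (nat_lit 696345) (nat_lit 9) .nil)))))) (.g (nat_lit 1) (.e (nat_lit 200799) (nat_lit 0) .nil) .nil))) 
(.lf (nat_lit 512985) (.g (nat_lit 3559) (.e (nat_lit 180251) (nat_lit 10) (.e (nat_lit 573489) (nat_lit 14) (.e (nat_lit 73755) (nat_lit 8) (.e (nat_lit 557090) (nat_lit 12) (.e (nat_lit 164012) (nat_lit 42) .nil))))) (.g (nat_lit 0) (.e (nat_lit 202596) (nat_lit 0) .nil) .nil))))))) (.nd (nat_lit 6) (.nd (nat_lit 7) (.nd (nat_lit 8) (.nd (nat_lit 9) 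
(.lf (nat_lit 512057) (.g (nat_lit 5210) (.e (nat_lit 180232) (nat_lit 0) (.e (nat_lit 5448) (nat_lit 306) (.e (nat_lit 2612) (nat_lit 163) (.e (nat_lit 163979) (nat_lit 30) (.e (nat_lit 573493) (nat_lit 15) (.e (nat_lit 81953) (nat_lit 22) (.e (nat_lit 90171) (nat_lit 14) .nil))))))) (.g (nat_lit 1) (.e (nat_lit 199632) (nat_lit 0) .nil) .nil))) 
(.lf (nat_lit 512569) (.g (nat_lit 3492) (.e (nat_lit 180245) (nat_lit 5) (.e (nat_lit 532569) (nat_lit 16) (.e (nat_lit 401448) (nat_lit 10) (.e (nat_lit 434231) (nat_lit 23) (.e (nat_lit 532481) (nat_lit 0) (.e (nat_lit 6722) (nat_lit 362) .nil)))))) (.g (nat_lit 1) (.e (nat_lit 201007) (nat_lit 0) .nil) .nil)))) (.nd (nat_lit 9) 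
(.lf (nat_lit 512313) (.g (nat_lit 3090) (.e (nat_lit 180243) (nat_lit 5) (.e (nat_lit 532567) (nat_lit 16) (.e (nat_lit 401448) (nat_lit 10) (.e (nat_lit 434231) (nat_lit 23) (.e (nat_lit 532481) (nat_lit 0) (.e (nat_lit 6724) (nat_lit 362) .nil)))))) (.g (nat_lit 1) (.e (nat_lit 200508) (nat_lit 0) .nil) .nil))) 
(.lf (nat_lit 512825) (.g (nat_lit 2240) (.e (nat_lit 180251) (nat_lit 10) (.e (nat_lit 573456) (nat_lit 9) (.e (nat_lit 1669) (nat_lit 116) (.e (nat_lit 401459) (nat_lit 13) (.e (nat_lit 483343) (nat_lit 17) (.e (nat_lit 2265) (nat_lit 149) (.e (nat_lit 761910) (nat_lit 17) .nil))))))) (.g (nat_lit 1) (.e (nat_lit 202053) (nat_lit 0) .nil) .nil))))) (.nd (nat_lit 8) (.nd (nat_lit 9) 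
(.lf (nat_lit 512185) (.g (nat_lit 1350) (.e (nat_lit 180243) (nat_lit 5) (.e (nat_lit 532513) (nat_lit 3) (.e (nat_lit 114714) (nat_lit 22) (.e (nat_lit 90140) (nat_lit 9) .nil)))) (.g (nat_lit 0) (.e (nat_lit 200033) (nat_lit 0) .nil) .nil))) 
(.lf (nat_lit 512697) (.g (nat_lit 2290) (.e (nat_lit 180250) (nat_lit 10) (.e (nat_lit 573474) (nat_lit 12) (.e (nat_lit 57503) (nat_lit 38) (.e (nat_lit 638996) (nat_lit 7) .nil)))) (.g (nat_lit 0) (.e (nat_lit 201433) (nat_lit 0) .nil) .nil)))) (.nd (nat_lit 9) 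
(.lf (nat_lit 512441) (.g (nat_lit 982) (.e (nat_lit 180244) (nat_lit 5) (.e (nat_lit 532550) (nat_lit 12) (.e (nat_lit 360473) (nat_lit 8) .nil))) (.g (nat_lit 0) (.e (nat_lit 200759) (nat_lit 0) .nil) .nil))) 
(.lf (nat_lit 512953) (.g (nat_lit 4085) (.e (nat_lit 180251) (nat_lit 10) (.e (nat_lit 573489) (nat_lit 14) (.e (nat_lit 73755) (nat_lit 8) (.e (nat_lit 557090) (nat_lit 12) (.e (nat_lit 163851) (nat_lit 0) (.e (nat_lit 5934) (nat_lit 322) (.e (nat_lit 57371) (nat_lit 2) (.e (nat_lit 90174) (nat_lit 14) .nil)))))))) (.g (nat_lit 1) (.e (nat_lit 202558) (nat_lit 0) .nil) .nil)))))) 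
(.nd (nat_lit 7) (.nd (nat_lit 8) (.nd (nat_lit 9) 
(.lf (nat_lit 512121) (.g (nat_lit 2222) (.e (nat_lit 180242) (nat_lit 5) (.e (nat_lit 532569) (nat_lit 16) (.e (nat_lit 401448) (nat_lit 10) (.e (nat_lit 434226) (nat_lit 20) .nil)))) (.g (nat_lit 0) (.e (nat_lit 199884) (nat_lit 0) .nil) .nil))) 
(.lf (nat_lit 512633) (.g (nat_lit 3091) (.e (nat_lit 180250) (nat_lit 10) (.e (nat_lit 573456) (nat_lit 9) (.e (nat_lit 1669) (nat_lit 116) (.e (nat_lit 401459) (nat_lit 13) (.e (nat_lit 483363) (nat_lit 18) (.e (nat_lit 57657) (nat_lit 152) (.e (nat_lit 2637) (nat_lit 165) .nil))))))) (.g (nat_lit 1) (.e (nat_lit 201307) (nat_lit 0) .nil) .nil)))) (.nd (nat_lit 9) 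
(.lf (nat_lit 512377) (.g (nat_lit 3153) (.e (nat_lit 180244) (nat_lit 5) (.e (nat_lit 532523) (nat_lit 7) (.e (nat_lit 319538) (nat_lit 19) (.e (nat_lit 311312) (nat_lit 2) (.e (nat_lit 196677) (nat_lit 16) (.e (nat_lit 130816) (nat_lit 206) .nil)))))) (.g (nat_lit 1) (.e (nat_lit 200632) (nat_lit 0) .nil) .nil))) 
(.lf (nat_lit 512889) (.g (nat_lit 2465) (.e (nat_lit 180251) (nat_lit 10) (.e (nat_lit 573489) (nat_lit 14) (.e (nat_lit 73754) (nat_lit 8) (.e (nat_lit 557093) (nat_lit 12) (.e (nat_lit 163857) (nat_lit 0) (.e (nat_lit 5949) (nat_lit 322) (.e (nat_lit 57373) (nat_lit 2) (.e (nat_lit 90173) (nat_lit 14) .nil)))))))) (.g (nat_lit 1) (.e (nat_lit 202416) (nat_lit 0) .nil) .nil))))) 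
(.nd (nat_lit 8) (.nd (nat_lit 9) 
(.lf (nat_lit 512249) (.g (nat_lit 2622) (.e (nat_lit 180243) (nat_lit 5) (.e (nat_lit 532549) (nat_lit 12) (.e (nat_lit 360473) (nat_lit 8) (.e (nat_lit 557091) (nat_lit 12) (.e (nat_lit 163840) (nat_lit 0) .nil))))) (.g (nat_lit 0) (.e (nat_lit 200327) (nat_lit 0) .nil) .nil))) 
(.lf (nat_lit 512761) (.g (nat_lit 2845) (.e (nat_lit 180250) (nat_lit 10) (.e (nat_lit 573489) (nat_lit 14) (.e (nat_lit 73755) (nat_lit 8) (.e (nat_lit 557067) (nat_lit 9) (.e (nat_lit 7936) (nat_lit 163) (.e (nat_lit 164399) (nat_lit 256) (.e (nat_lit 57373) (nat_lit 2) (.e (nat_lit 90174) (nat_lit 14) .nil)))))))) (.g (nat_lit 1) (.e (nat_lit 201876) (nat_lit 0) .nil) .nil)))) 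
(.nd (nat_lit 9) 
(.lf (nat_lit 512505) (.g (nat_lit 2030) (.e (nat_lit 180245) (nat_lit 5) (.e (nat_lit 532515) (nat_lit 3) (.e (nat_lit 114719) (nat_lit 23) (.e (nat_lit 98334) (nat_lit 18) (.e (nat_lit 164398) (nat_lit 256) .nil))))) (.g (nat_lit 0) (.e (nat_lit 200902) (nat_lit 0) .nil) .nil))) 
(.lf (nat_lit 513017) (.g (nat_lit 1940) (.e (nat_lit 180251) (nat_lit 10) (.e (nat_lit 573489) (nat_lit 14) (.e (nat_lit 73755) (nat_lit 8) (.e (nat_lit 557091) (nat_lit 12) (.e (nat_lit 164008) (nat_lit 41) .nil))))) (.g (nat_lit 0) (.e (nat_lit 202678) (nat_lit 0) .nil) .nil)))))))))) 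
(.nd (nat_lit 3) (.nd (nat_lit 4) (.nd (nat_lit 5) (.nd (nat_lit 6) (.nd (nat_lit 7) 
(.nd (nat_lit 8) (.nd (nat_lit 9) 
(.lf (nat_lit 512005) (.g (nat_lit 1921) (.e (nat_lit 179968) (nat_lit 34) (.e (nat_lit 393271) (nat_lit 23) (.e (nat_lit 426131) (nat_lit 3) (.e (nat_lit 204831) (nat_lit 18) (.e (nat_lit 57653) (nat_lit 152) .nil))))) (.g (nat_lit 0) (.e (nat_lit 198753) (nat_lit 0) .nil) .nil))) 
(.lf (nat_lit 512517) (.g (nat_lit 2184) (.e (nat_lit 180245) (nat_lit 5) (.e (nat_lit 532523) (nat_lit 7) (.e (nat_lit 319537) (nat_lit 19) (.e (nat_lit 311312) (nat_lit 2) (.e (nat_lit 196661) (nat_lit 12) (.e (nat_lit 65280) (nat_lit 206) .nil)))))) (.g (nat_lit 1) (.e (nat_lit 200923) (nat_lit 0) .nil) .nil)))) (.nd (nat_lit 9) 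
(.lf (nat_lit 512261) (.g (nat_lit 1677) (.e (nat_lit 180243) (nat_lit 5) (.e (nat_lit 532549) (nat_lit 12) (.e (nat_lit 360473) (nat_lit 8) (.e (nat_lit 557094) (nat_lit 12) .nil)))) (.g (nat_lit 0) (.e (nat_lit 200344) (nat_lit 0) .nil) .nil))) 
(.lf (nat_lit 512773) (.g (nat_lit 3129) (.e (nat_lit 180250) (nat_lit 10) (.e (nat_lit 573489) (nat_lit 14) (.e (nat_lit 73755) (nat_lit 8) (.e (nat_lit 557090) (nat_lit 12) (.e (nat_lit 163845) (nat_lit 0) .nil))))) (.g (nat_lit 0) (.e (nat_lit 201916) (nat_lit 0) .nil) .nil))))) (.nd (nat_lit 8) (.nd (nat_lit 9) 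
(.lf (nat_lit 512133) (.g (nat_lit 2499) (.e (nat_lit 180243) (nat_lit 5) (.e (nat_lit 532481) (nat_lit 0) (.e (nat_lit 6724) (nat_lit 362) (.e (nat_lit 180243) (nat_lit 5) (.e (nat_lit 532489) (nat_lit 0) (.e (nat_lit 7936) (nat_lit 362) .nil)))))) (.g (nat_lit 1) (.e (nat_lit 199900) (nat_lit 0) .nil) .nil))) 
(.lf (nat_lit 512645) (.g (nat_lit 2551) (.e (nat_lit 180250) (nat_lit 10) (.e (nat_lit 573456) (nat_lit 9) (.e (nat_lit 1669) (nat_lit 116) (.e (nat_lit 401459) (nat_lit 13) (.e (nat_lit 483364) (nat_lit 18) (.e (nat_lit 57669) (nat_lit 152) (.e (nat_lit 2637) (nat_lit 165) .nil))))))) (.g (nat_lit 1) (.e (nat_lit 201319) (nat_lit 0) .nil) .nil)))) (.nd (nat_lit 9) 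
(.lf (nat_lit 512389) (.g (nat_lit 2871) (.e (nat_lit 180244) (nat_lit 5) (.e (nat_lit 532523) (nat_lit 7) (.e (nat_lit 319531) (nat_lit 16) (.e (nat_lit 286735) (nat_lit 3) (.e (nat_lit 98321) (nat_lit 17) .nil))))) (.g (nat_lit 0) (.e (nat_lit 200644) (nat_lit 0) .nil) .nil))) 
(.lf (nat_lit 512901) (.g (nat_lit 3541) (.e (nat_lit 180251) (nat_lit 10) (.e (nat_lit 573489) (nat_lit 14) (.e (nat_lit 73755) (nat_lit 8) (.e (nat_lit 557067) (nat_lit 9) (.e (nat_lit 2603) (nat_lit 163) (.e (nat_lit 164403) (nat_lit 256) (.e (nat_lit 57373) (nat_lit 2) (.e (nat_lit 90173) (nat_lit 14) .nil)))))))) (.g (nat_lit 1) (.e (nat_lit 202456) (nat_lit 0) .nil) .nil)))))) 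
(.nd (nat_lit 7) (.nd (nat_lit 8) (.nd (nat_lit 9) 
(.lf (nat_lit 512069) (.g (nat_lit 350) (.e (nat_lit 188160) (nat_lit 1) (.e (nat_lit 499900) (nat_lit 7) (.e (nat_lit 24655) (nat_lit 13) .nil))) (.g (nat_lit 0) (.e (nat_lit 199707) (nat_lit 0) .nil) .nil))) 
(.lf (nat_lit 512581) (.g (nat_lit 2517) (.e (nat_lit 188160) (nat_lit 5) (.e (nat_lit 532569) (nat_lit 16) (.e (nat_lit 401448) (nat_lit 10) (.e (nat_lit 434227) (nat_lit 20) (.e (nat_lit 507930) (nat_lit 10) .nil))))) (.g (nat_lit 0) (.e (nat_lit 201024) (nat_lit 0) .nil) .nil)))) (.nd (nat_lit 9) 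
(.lf (nat_lit 512325) (.g (nat_lit 2375) (.e (nat_lit 180243) (nat_lit 5) (.e (nat_lit 532569) (nat_lit 16) (.e (nat_lit 401448) (nat_lit 10) (.e (nat_lit 434220) (nat_lit 19) .nil)))) (.g (nat_lit 0) (.e (nat_lit 200531) (nat_lit 0) .nil) .nil))) 
(.lf (nat_lit 512837) (.g (nat_lit 3793) (.e (nat_lit 180251) (nat_lit 10) (.e (nat_lit 573456) (nat_lit 9) (.e (nat_lit 1669) (nat_lit 116) (.e (nat_lit 401459) (nat_lit 13) (.e (nat_lit 483363) (nat_lit 18) (.e (nat_lit 57665) (nat_lit 152) (.e (nat_lit 2637) (nat_lit 165) .nil))))))) (.g (nat_lit 1) (.e (nat_lit 202065) (nat_lit 0) .nil) .nil))))) (.nd (nat_lit 8) (.nd (nat_lit 9) 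
(.lf (nat_lit 512197) (.g (nat_lit 2460) (.e (nat_lit 180243) (nat_lit 5) (.e (nat_lit 532513) (nat_lit 3) (.e (nat_lit 114719) (nat_lit 23) (.e (nat_lit 98335) (nat_lit 18) (.e (nat_lit 164402) (nat_lit 256) .nil))))) (.g (nat_lit 0) (.e (nat_lit 200073) (nat_lit 0) .nil) .nil))) 
(.lf (nat_lit 512709) (.g (nat_lit 4855) (.e (nat_lit 180250) (nat_lit 10) (.e (nat_lit 573474) (nat_lit 12) (.e (nat_lit 57572) (nat_lit 54) (.e (nat_lit 770072) (nat_lit 8) (.e (nat_lit 65571) (nat_lit 3) (.e (nat_lit 98325) (nat_lit 17) (.e (nat_lit 7936) (nat_lit 393) .nil))))))) (.g (nat_lit 1) (.e (nat_lit 201445) (nat_lit 0) .nil) .nil)))) (.nd (nat_lit 9) 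
(.lf (nat_lit 512453) (.g (nat_lit 4827) (.e (nat_lit 180244) (nat_lit 5) (.e (nat_lit 532550) (nat_lit 12) (.e (nat_lit 360475) (nat_lit 8) (.e (nat_lit 557088) (nat_lit 12) .nil)))) (.g (nat_lit 0) (.e (nat_lit 200777) (nat_lit 0) .nil) .nil))) 
(.lf (nat_lit 512965) (.g (nat_lit 3584) (.e (nat_lit 180251) (nat_lit 10) (.e (nat_lit 573489) (nat_lit 14) (.e (nat_lit 73755) (nat_lit 8) (.e (nat_lit 557090) (nat_lit 12) (.e (nat_lit 163854) (nat_lit 0) .nil))))) (.g (nat_lit 0) (.e (nat_lit 202570) (nat_lit 0) .nil) .nil))))))) (.nd (nat_lit 6) (.nd (nat_lit 7) (.nd (nat_lit 8) (.nd (nat_lit 9) 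
(.lf (nat_lit 512037) (.g (nat_lit 1520) (.e (nat_lit 180225) (nat_lit 0) (.e (nat_lit 6420) (nat_lit 341) (.e (nat_lit 163902) (nat_lit 12) (.e (nat_lit 426250) (nat_lit 9) .nil)))) (.g (nat_lit 0) (.e (nat_lit 198953) (nat_lit 0) .nil) .nil))) 
(.lf (nat_lit 512549) (.g (nat_lit 5368) (.e (nat_lit 180245) (nat_lit 5) (.e (nat_lit 532550) (nat_lit 12) (.e (nat_lit 360474) (nat_lit 8) (.e (nat_lit 557091) (nat_lit 12) .nil)))) (.g (nat_lit 0) (.e (nat_lit 200974) (nat_lit 0) .nil) .nil)))) (.nd (nat_lit 9) 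
(.lf (nat_lit 512293) (.g (nat_lit 3341) (.e (nat_lit 180243) (nat_lit 5) (.e (nat_lit 532550) (nat_lit 12) (.e (nat_lit 360474) (nat_lit 8) (.e (nat_lit 557093) (nat_lit 12) (.e (nat_lit 163853) (nat_lit 0) .nil))))) (.g (nat_lit 0) (.e (nat_lit 200392) (nat_lit 0) .nil) .nil))) 
(.lf (nat_lit 512805) (.g (nat_lit 3326) (.e (nat_lit 180250) (nat_lit 10) (.e (nat_lit 573489) (nat_lit 14) (.e (nat_lit 73755) (nat_lit 8) (.e (nat_lit 557090) (nat_lit 12) (.e (nat_lit 164009) (nat_lit 41) .nil))))) (.g (nat_lit 0) (.e (nat_lit 201950) (nat_lit 0) .nil) .nil))))) (.nd (nat_lit 8) (.nd (nat_lit 9) 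
(.lf (nat_lit 512165) (.g (nat_lit 2503) (.e (nat_lit 180243) (nat_lit 5) (.e (nat_lit 532502) (nat_lit 1) (.e (nat_lit 57688) (nat_lit 156) (.e (nat_lit 163874) (nat_lit 3) (.e (nat_lit 204836) (nat_lit 20) .nil))))) (.g (nat_lit 0) (.e (nat_lit 199959) (nat_lit 0) .nil) .nil))) 
(.lf (nat_lit 512677) (.g (nat_lit 2321) (.e (nat_lit 180250) (nat_lit 10) (.e (nat_lit 573471) (nat_lit 11) (.e (nat_lit 16448) (nat_lit 10) (.e (nat_lit 434221) (nat_lit 19) .nil)))) (.g (nat_lit 0) (.e (nat_lit 201393) (nat_lit 0) .nil) .nil)))) (.nd (nat_lit 9) 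
(.lf (nat_lit 512421) (.g (nat_lit 2769) (.e (nat_lit 180244) (nat_lit 5) (.e (nat_lit 532549) (nat_lit 12) (.e (nat_lit 360473) (nat_lit 8) (.e (nat_lit 557091) (nat_lit 12) (.e (nat_lit 163844) (nat_lit 0) .nil))))) (.g (nat_lit 0) (.e (nat_lit 200733) (nat_lit 0) .nil) .nil))) 
(.lf (nat_lit 512933) (.g (nat_lit 3505) (.e (nat_lit 180251) (nat_lit 10) (.e (nat_lit 573489) (nat_lit 14) (.e (nat_lit 73755) (nat_lit 8) (.e (nat_lit 557090) (nat_lit 12) (.e (nat_lit 163843) (nat_lit 0) (.e (nat_lit 5941) (nat_lit 322) (.e (nat_lit 57374) (nat_lit 2) (.e (nat_lit 90171) (nat_lit 14) .nil)))))))) (.g (nat_lit 1) (.e (nat_lit 202538) (nat_lit 0) .nil) .nil)))))) 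
(.nd (nat_lit 7) (.nd (nat_lit 8) (.nd (nat_lit 9) 
(.lf (nat_lit 512101) (.g (nat_lit 3608) (.e (nat_lit 180242) (nat_lit 5) (.e (nat_lit 532550) (nat_lit 12) (.e (nat_lit 360475) (nat_lit 8) (.e (nat_lit 557089) (nat_lit 12) .nil)))) (.g (nat_lit 0) (.e (nat_lit 199860) (nat_lit 0) .nil) .nil))) 
(.lf (nat_lit 512613) (.g (nat_lit 786) (.e (nat_lit 180241) (nat_lit 4) (.e (nat_lit 524340) (nat_lit 28) (.e (nat_lit 352287) (nat_lit 20) (.e (nat_lit 2384) (nat_lit 155) (.e (nat_lit 811009) (nat_lit 0) .nil))))) (.g (nat_lit 0) (.e (nat_lit 201084) (nat_lit 0) .nil) .nil)))) (.nd (nat_lit 9) 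
(.lf (nat_lit 512357) (.g (nat_lit 673) (.e (nat_lit 180244) (nat_lit 5) (.e (nat_lit 532522) (nat_lit 7) (.e (nat_lit 319537) (nat_lit 19) .nil))) (.g (nat_lit 0) (.e (nat_lit 200602) (nat_lit 0) .nil) .nil))) 
(.lf (nat_lit 512869) (.g (nat_lit 867) (.e (nat_lit 180251) (nat_lit 10) (.e (nat_lit 573479) (nat_lit 13) (.e (nat_lit 65568) (nat_lit 2) (.e (nat_lit 98048) (nat_lit 2) .nil)))) (.g (nat_lit 0) (.e (nat_lit 202250) (nat_lit 0) .nil) .nil))))) (.nd (nat_lit 8) (.nd (nat_lit 9) 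
(.lf (nat_lit 512229) (.g (nat_lit 2694) (.e (nat_lit 180243) (nat_lit 5) (.e (nat_lit 532523) (nat_lit 7) (.e (nat_lit 319533) (nat_lit 16) (.e (nat_lit 286734) (nat_lit 3) (.e (nat_lit 98323) (nat_lit 17) .nil))))) (.g (nat_lit 0) (.e (nat_lit 200147) (nat_lit 0) .nil) .nil))) 
(.lf (nat_lit 512741) (.g (nat_lit 3016) (.e (nat_lit 180250) (nat_lit 10) (.e (nat_lit 573488) (nat_lit 14) (.e (nat_lit 73755) (nat_lit 8) (.e (nat_lit 557090) (nat_lit 12) (.e (nat_lit 163840) (nat_lit 0) .nil))))) (.g (nat_lit 0) (.e (nat_lit 201830) (nat_lit 0) .nil) .nil)))) (.nd (nat_lit 9) 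
(.lf (nat_lit 512485) (.g (nat_lit 1802) (.e (nat_lit 180244) (nat_lit 5) (.e (nat_lit 532569) (nat_lit 16) (.e (nat_lit 401446) (nat_lit 10) (.e (nat_lit 434233) (nat_lit 23) (.e (nat_lit 532482) (nat_lit 0) .nil))))) (.g (nat_lit 0) (.e (nat_lit 200846) (nat_lit 0) .nil) .nil))) 
(.lf (nat_lit 512997) (.g (nat_lit 3635) (.e (nat_lit 180251) (nat_lit 10) (.e (nat_lit 573489) (nat_lit 14) (.e (nat_lit 73755) (nat_lit 8) (.e (nat_lit 557091) (nat_lit 12) (.e (nat_lit 163843) (nat_lit 0) (.e (nat_lit 5945) (nat_lit 322) (.e (nat_lit 57371) (nat_lit 2) (.e (nat_lit 90174) (nat_lit 14) .nil)))))))) (.g (nat_lit 1) (.e (nat_lit 202643) (nat_lit 0) .nil) .nil)))))))) 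
(.nd (nat_lit 5) (.nd (nat_lit 6) (.nd (nat_lit 7) (.nd (nat_lit 8) (.nd (nat_lit 9) 
(.lf (nat_lit 512021) (.g (nat_lit 2135) (.e (nat_lit 179968) (nat_lit 34) (.e (nat_lit 393289) (nat_lit 25) (.e (nat_lit 458789) (nat_lit 23) (.e (nat_lit 532501) (nat_lit 1) (.e (nat_lit 57651) (nat_lit 152) .nil))))) (.g (nat_lit 0) (.e (nat_lit 198769) (nat_lit 0) .nil) .nil))) 
(.lf (nat_lit 512533) (.g (nat_lit 1408) (.e (nat_lit 180245) (nat_lit 5) (.e (nat_lit 532523) (nat_lit 7) (.e (nat_lit 319533) (nat_lit 16) (.e (nat_lit 286724) (nat_lit 0) (.e (nat_lit 1842) (nat_lit 123) .nil))))) (.g (nat_lit 0) (.e (nat_lit 200940) (nat_lit 0) .nil) .nil)))) (.nd (nat_lit 9) 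
(.lf (nat_lit 512277) (.g (nat_lit 3653) (.e (nat_lit 180243) (nat_lit 5) (.e (nat_lit 532549) (nat_lit 12) (.e (nat_lit 360475) (nat_lit 8) (.e (nat_lit 557091) (nat_lit 12) (.e (nat_lit 163843) (nat_lit 0) (.e (nat_lit 6250) (nat_lit 337) (.e (nat_lit 2643) (nat_lit 165) .nil))))))) (.g (nat_lit 1) (.e (nat_lit 200366) (nat_lit 0) .nil) .nil))) 
(.lf (nat_lit 512789) (.g (nat_lit 3599) (.e (nat_lit 180250) (nat_lit 10) (.e (nat_lit 573489) (nat_lit 14) (.e (nat_lit 73755) (nat_lit 8) (.e (nat_lit 557090) (nat_lit 12) (.e (nat_lit 163851) (nat_lit 0) (.e (nat_lit 5938) (nat_lit 322) (.e (nat_lit 57375) (nat_lit 2) (.e (nat_lit 90174) (nat_lit 14) .nil)))))))) (.g (nat_lit 1) (.e (nat_lit 201932) (nat_lit 0) .nil) .nil))))) 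
(.nd (nat_lit 8) (.nd (nat_lit 9) 
(.lf (nat_lit 512149) (.g (nat_lit 2718) (.e (nat_lit 180243) (nat_lit 5) (.e (nat_lit 532499) (nat_lit 1) (.e (nat_lit 57691) (nat_lit 156) (.e (nat_lit 163875) (nat_lit 3) (.e (nat_lit 204837) (nat_lit 20) (.e (nat_lit 114715) (nat_lit 22) (.e (nat_lit 90174) (nat_lit 14) .nil))))))) (.g (nat_lit 1) (.e (nat_lit 199934) (nat_lit 0) .nil) .nil))) 
(.lf (nat_lit 512661) (.g (nat_lit 1745) (.e (nat_lit 180250) (nat_lit 10) (.e (nat_lit 573471) (nat_lit 11) (.e (nat_lit 16433) (nat_lit 9) (.e (nat_lit 426095) (nat_lit 0) (.e (nat_lit 3238) (nat_lit 197) .nil))))) (.g (nat_lit 0) (.e (nat_lit 201359) (nat_lit 0) .nil) .nil)))) (.nd (nat_lit 9) 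
(.lf (nat_lit 512405) (.g (nat_lit 3015) (.e (nat_lit 180244) (nat_lit 5) (.e (nat_lit 532523) (nat_lit 7) (.e (nat_lit 319534) (nat_lit 16) (.e (nat_lit 286734) (nat_lit 3) (.e (nat_lit 98321) (nat_lit 17) .nil))))) (.g (nat_lit 0) (.e (nat_lit 200664) (nat_lit 0) .nil) .nil))) 
(.lf (nat_lit 512917) (.g (nat_lit 2647) (.e (nat_lit 180251) (nat_lit 10) (.e (nat_lit 573489) (nat_lit 14) (.e (nat_lit 73755) (nat_lit 8) (.e (nat_lit 557089) (nat_lit 12) (.e (nat_lit 163850) (nat_lit 0) (.e (nat_lit 5951) (nat_lit 322) (.e (nat_lit 57371) (nat_lit 2) (.e (nat_lit 90174) (nat_lit 14) .nil)))))))) (.g (nat_lit 1) (.e (nat_lit 202509) (nat_lit 0) .nil) .nil)))))) 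
(.nd (nat_lit 7) (.nd (nat_lit 8) (.nd (nat_lit 9) 
(.lf (nat_lit 512085) (.g (nat_lit 1927) (.e (nat_lit 180242) (nat_lit 5) (.e (nat_lit 532523) (nat_lit 7) (.e (nat_lit 319530) (nat_lit 16) (.e (nat_lit 286735) (nat_lit 3) .nil)))) (.g (nat_lit 0) (.e (nat_lit 199827) (nat_lit 0) .nil) .nil))) 
(.lf (nat_lit 512597) (.g (nat_lit 3619) (.e (nat_lit 180246) (nat_lit 6) (.e (nat_lit 540706) (nat_lit 12) (.e (nat_lit 360475) (nat_lit 8) (.e (nat_lit 557091) (nat_lit 12) (.e (nat_lit 163844) (nat_lit 0) .nil))))) (.g (nat_lit 0) (.e (nat_lit 201043) (nat_lit 0) .nil) .nil)))) (.nd (nat_lit 9) 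
(.lf (nat_lit 512341) (.g (nat_lit 2178) (.e (nat_lit 180244) (nat_lit 5) (.e (nat_lit 532482) (nat_lit 0) (.e (nat_lit 6724) (nat_lit 362) (.e (nat_lit 180243) (nat_lit 5) (.e (nat_lit 532484) (nat_lit 0) (.e (nat_lit 7936) (nat_lit 362) .nil)))))) (.g (nat_lit 1) (.e (nat_lit 200573) (nat_lit 0) .nil) .nil))) 
(.lf (nat_lit 512853) (.g (nat_lit 2145) (.e (nat_lit 180251) (nat_lit 10) (.e (nat_lit 573469) (nat_lit 11) (.e (nat_lit 16454) (nat_lit 11) (.e (nat_lit 458789) (nat_lit 23) (.e (nat_lit 532481) (nat_lit 0) (.e (nat_lit 6724) (nat_lit 362) .nil)))))) (.g (nat_lit 1) (.e (nat_lit 202093) (nat_lit 0) .nil) .nil))))) (.nd (nat_lit 8) (.nd (nat_lit 9) 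
(.lf (nat_lit 512213) (.g (nat_lit 842) (.e (nat_lit 180243) (nat_lit 5) (.e (nat_lit 532523) (nat_lit 7) (.e (nat_lit 319511) (nat_lit 10) (.e (nat_lit 5293) (nat_lit 298) .nil)))) (.g (nat_lit 0) (.e (nat_lit 200128) (nat_lit 0) .nil) .nil))) 
(.lf (nat_lit 512725) (.g (nat_lit 470) (.e (nat_lit 180250) (nat_lit 10) (.e (nat_lit 573484) (nat_lit 13) (.e (nat_lit 65566) (nat_lit 2) .nil))) (.g (nat_lit 0) (.e (nat_lit 201664) (nat_lit 0) .nil) .nil)))) (.nd (nat_lit 9) 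
(.lf (nat_lit 512469) (.g (nat_lit 3851) (.e (nat_lit 180244) (nat_lit 5) (.e (nat_lit 532550) (nat_lit 12) (.e (nat_lit 360475) (nat_lit 8) (.e (nat_lit 557091) (nat_lit 12) (.e (nat_lit 163849) (nat_lit 0) (.e (nat_lit 6254) (nat_lit 337) (.e (nat_lit 2641) (nat_lit 165) .nil))))))) (.g (nat_lit 1) (.e (nat_lit 200795) (nat_lit 0) .nil) .nil))) 
(.lf (nat_lit 512981) (.g (nat_lit 3191) (.e (nat_lit 180251) (nat_lit 10) (.e (nat_lit 573489) (nat_lit 14) (.e (nat_lit 73755) (nat_lit 8) (.e (nat_lit 557090) (nat_lit 12) (.e (nat_lit 164006) (nat_lit 41) .nil))))) (.g (nat_lit 0) (.e (nat_lit 202588) (nat_lit 0) .nil) .nil))))))) (.nd (nat_lit 6) (.nd (nat_lit 7) (.nd (nat_lit 8) (.nd (nat_lit 9) 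
(.lf (nat_lit 512053) (.g (nat_lit 557) (.e (nat_lit 180230) (nat_lit 0) (.e (nat_lit 6425) (nat_lit 342) (.e (nat_lit 229412) (nat_lit 14) .nil))) (.g (nat_lit 0) (.e (nat_lit 199619) (nat_lit 0) .nil) .nil))) 
(.lf (nat_lit 512565) (.g (nat_lit 2840) (.e (nat_lit 180245) (nat_lit 5) (.e (nat_lit 532569) (nat_lit 16) (.e (nat_lit 401446) (nat_lit 10) (.e (nat_lit 434231) (nat_lit 23) (.e (nat_lit 532482) (nat_lit 0) .nil))))) (.g (nat_lit 0) (.e (nat_lit 201003) (nat_lit 0) .nil) .nil)))) (.nd (nat_lit 9) 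
(.lf (nat_lit 512309) (.g (nat_lit 3733) (.e (nat_lit 180243) (nat_lit 5) (.e (nat_lit 532550) (nat_lit 12) (.e (nat_lit 360475) (nat_lit 8) (.e (nat_lit 557091) (nat_lit 12) (.e (nat_lit 164016) (nat_lit 44) (.e (nat_lit 696064) (nat_lit 9) .nil)))))) (.g (nat_lit 1) (.e (nat_lit 200412) (nat_lit 0) .nil) .nil))) 
(.lf (nat_lit 512821) (.g (nat_lit 2294) (.e (nat_lit 180250) (nat_lit 10) (.e (nat_lit 573503) (nat_lit 18) (.e (nat_lit 1348) (nat_lit 102) (.e (nat_lit 286761) (nat_lit 13) (.e (nat_lit 393217) (nat_lit 0) .nil))))) (.g (nat_lit 0) (.e (nat_lit 202019) (nat_lit 0) .nil) .nil))))) (.nd (nat_lit 8) (.nd (nat_lit 9) 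
(.lf (nat_lit 512181) (.g (nat_lit 538) (.e (nat_lit 180243) (nat_lit 5) (.e (nat_lit 532513) (nat_lit 3) (.e (nat_lit 114707) (nat_lit 20) .nil))) (.g (nat_lit 0) (.e (nat_lit 200007) (nat_lit 0) .nil) .nil))) 
(.lf (nat_lit 512693) (.g (nat_lit 774) (.e (nat_lit 180250) (nat_lit 10) (.e (nat_lit 573474) (nat_lit 12) (.e (nat_lit 57348) (nat_lit 0) .nil))) (.g (nat_lit 0) (.e (nat_lit 201429) (nat_lit 0) .nil) .nil)))) (.nd (nat_lit 9) 
(.lf (nat_lit 512437) (.g (nat_lit 1079) (.e (nat_lit 180244) (nat_lit 5) (.e (nat_lit 532550) (nat_lit 12) (.e (nat_lit 360472) (nat_lit 8) .nil))) (.g (nat_lit 0) (.e (nat_lit 200755) (nat_lit 0) .nil) .nil))) 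
(.lf (nat_lit 512949) (.g (nat_lit 3912) (.e (nat_lit 180251) (nat_lit 10) (.e (nat_lit 573489) (nat_lit 14) (.e (nat_lit 73755) (nat_lit 8) (.e (nat_lit 557090) (nat_lit 12) (.e (nat_lit 163849) (nat_lit 0) (.e (nat_lit 5945) (nat_lit 322) (.e (nat_lit 57373) (nat_lit 2) (.e (nat_lit 90174) (nat_lit 14) .nil)))))))) (.g (nat_lit 1) (.e (nat_lit 202554) (nat_lit 0) .nil) .nil)))))) 
(.nd (nat_lit 7) (.nd (nat_lit 8) (.nd (nat_lit 9) 
(.lf (nat_lit 512117) (.g (nat_lit 2141) (.e (nat_lit 180242) (nat_lit 5) (.e (nat_lit 532569) (nat_lit 16) (.e (nat_lit 401446) (nat_lit 10) (.e (nat_lit 434231) (nat_lit 23) .nil)))) (.g (nat_lit 0) (.e (nat_lit 199880) (nat_lit 0) .nil) .nil))) 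
(.lf (nat_lit 512629) (.g (nat_lit 2752) (.e (nat_lit 180250) (nat_lit 10) (.e (nat_lit 573456) (nat_lit 9) (.e (nat_lit 1669) (nat_lit 116) (.e (nat_lit 401459) (nat_lit 13) (.e (nat_lit 483363) (nat_lit 18) (.e (nat_lit 57652) (nat_lit 152) (.e (nat_lit 2637) (nat_lit 165) .nil))))))) (.g (nat_lit 1) (.e (nat_lit 201303) (nat_lit 0) .nil) .nil)))) (.nd (nat_lit 9) 
(.lf (nat_lit 512373) (.g (nat_lit 653) (.e (nat_lit 180244) (nat_lit 5) (.e (nat_lit 532523) (nat_lit 7) (.e (nat_lit 319537) (nat_lit 19) .nil))) (.g (nat_lit 0) (.e (nat_lit 200627) (nat_lit 0) .nil) .nil))) 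
(.lf (nat_lit 512885) (.g (nat_lit 2963) (.e (nat_lit 180251) (nat_lit 10) (.e (nat_lit 573489) (nat_lit 14) (.e (nat_lit 73754) (nat_lit 8) (.e (nat_lit 557091) (nat_lit 12) (.e (nat_lit 163856) (nat_lit 0) .nil))))) (.g (nat_lit 0) (.e (nat_lit 202411) (nat_lit 0) .nil) .nil))))) (.nd (nat_lit 8) (.nd (nat_lit 9) 
(.lf (nat_lit 512245) (.g (nat_lit 1577) (.e (nat_lit 180243) (nat_lit 5) (.e (nat_lit 532549) (nat_lit 12) (.e (nat_lit 360473) (nat_lit 8) (.e (nat_lit 557089) (nat_lit 12) .nil)))) (.g (nat_lit 0) (.e (nat_lit 200321) (nat_lit 0) .nil) .nil))) 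
(.lf (nat_lit 512757) (.g (nat_lit 2536) (.e (nat_lit 180250) (nat_lit 10) (.e (nat_lit 573489) (nat_lit 14) (.e (nat_lit 73755) (nat_lit 8) (.e (nat_lit 557065) (nat_lit 9) (.e (nat_lit 2604) (nat_lit 163) .nil))))) (.g (nat_lit 0) (.e (nat_lit 201867) (nat_lit 0) .nil) .nil)))) (.nd (nat_lit 9) 
(.lf (nat_lit 512501) (.g (nat_lit 2169) (.e (nat_lit 180245) (nat_lit 5) (.e (nat_lit 532515) (nat_lit 3) (.e (nat_lit 114718) (nat_lit 23) (.e (nat_lit 98335) (nat_lit 18) (.e (nat_lit 164403) (nat_lit 256) .nil))))) (.g (nat_lit 0) (.e (nat_lit 200892) (nat_lit 0) .nil) .nil))) 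
(.lf (nat_lit 513013) (.g (nat_lit 2073) (.e (nat_lit 180251) (nat_lit 10) (.e (nat_lit 573489) (nat_lit 14) (.e (nat_lit 73755) (nat_lit 8) (.e (nat_lit 557091) (nat_lit 12) (.e (nat_lit 163856) (nat_lit 0) .nil))))) (.g (nat_lit 0) (.e (nat_lit 202659) (nat_lit 0) .nil) .nil))))))))) (.nd (nat_lit 4) (.nd (nat_lit 5) (.nd (nat_lit 6) (.nd (nat_lit 7) (.nd (nat_lit 8) (.nd (nat_lit 9) 
(.lf (nat_lit 512013) (.g (nat_lit 438) (.e (nat_lit 179968) (nat_lit 34) (.e (nat_lit 393283) (nat_lit 24) (.e (nat_lit 434234) (nat_lit 23) .nil))) (.g (nat_lit 0) (.e (nat_lit 198761) (nat_lit 0) .nil) .nil))) 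
(.lf (nat_lit 512525) (.g (nat_lit 1909) (.e (nat_lit 180245) (nat_lit 5) (.e (nat_lit 532523) (nat_lit 7) (.e (nat_lit 319528) (nat_lit 16) (.e (nat_lit 286735) (nat_lit 3) (.e (nat_lit 98325) (nat_lit 17) (.e (nat_lit 7936) (nat_lit 393) .nil)))))) (.g (nat_lit 1) (.e (nat_lit 200931) (nat_lit 0) .nil) .nil)))) (.nd (nat_lit 9) 
(.lf (nat_lit 512269) (.g (nat_lit 3937) (.e (nat_lit 180243) (nat_lit 5) (.e (nat_lit 532549) (nat_lit 12) (.e (nat_lit 360475) (nat_lit 8) (.e (nat_lit 557089) (nat_lit 12) (.e (nat_lit 163844) (nat_lit 0) (.e (nat_lit 6250) (nat_lit 337) (.e (nat_lit 2643) (nat_lit 165) .nil))))))) (.g (nat_lit 1) (.e (nat_lit 200356) (nat_lit 0) .nil) .nil))) 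
(.lf (nat_lit 512781) (.g (nat_lit 3330) (.e (nat_lit 180250) (nat_lit 10) (.e (nat_lit 573489) (nat_lit 14) (.e (nat_lit 73755) (nat_lit 8) (.e (nat_lit 557090) (nat_lit 12) (.e (nat_lit 163848) (nat_lit 0) .nil))))) (.g (nat_lit 0) (.e (nat_lit 201924) (nat_lit 0) .nil) .nil))))) (.nd (nat_lit 8) (.nd (nat_lit 9) 
(.lf (nat_lit 512141) (.g (nat_lit 869) (.e (nat_lit 180243) (nat_lit 5) (.e (nat_lit 532499) (nat_lit 1) (.e (nat_lit 57656) (nat_lit 152) .nil))) (.g (nat_lit 0) (.e (nat_lit 199919) (nat_lit 0) .nil) .nil))) 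
(.lf (nat_lit 512653) (.g (nat_lit 2471) (.e (nat_lit 180250) (nat_lit 10) (.e (nat_lit 573469) (nat_lit 11) (.e (nat_lit 16452) (nat_lit 11) (.e (nat_lit 458789) (nat_lit 23) (.e (nat_lit 532482) (nat_lit 0) (.e (nat_lit 6724) (nat_lit 362) .nil)))))) (.g (nat_lit 1) (.e (nat_lit 201338) (nat_lit 0) .nil) .nil)))) (.nd (nat_lit 9) 
(.lf (nat_lit 512397) (.g (nat_lit 2396) (.e (nat_lit 180244) (nat_lit 5) (.e (nat_lit 532523) (nat_lit 7) (.e (nat_lit 319533) (nat_lit 16) (.e (nat_lit 286734) (nat_lit 3) (.e (nat_lit 98321) (nat_lit 17) .nil))))) (.g (nat_lit 0) (.e (nat_lit 200654) (nat_lit 0) .nil) .nil))) 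
(.lf (nat_lit 512909) (.g (nat_lit 2281) (.e (nat_lit 180251) (nat_lit 10) (.e (nat_lit 573489) (nat_lit 14) (.e (nat_lit 73755) (nat_lit 8) (.e (nat_lit 557089) (nat_lit 12) (.e (nat_lit 163841) (nat_lit 0) .nil))))) (.g (nat_lit 0) (.e (nat_lit 202501) (nat_lit 0) .nil) .nil)))))) (.nd (nat_lit 7) (.nd (nat_lit 8) (.nd (nat_lit 9) 
(.lf (nat_lit 512077) (.g (nat_lit 2057) (.e (nat_lit 180242) (nat_lit 5) (.e (nat_lit 532503) (nat_lit 1) (.e (nat_lit 57688) (nat_lit 156) (.e (nat_lit 163844) (nat_lit 0) (.e (nat_lit 3248) (nat_lit 197) .nil))))) (.g (nat_lit 0) (.e (nat_lit 199815) (nat_lit 0) .nil) .nil))) 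
(.lf (nat_lit 512589) (.g (nat_lit 3040) (.e (nat_lit 180246) (nat_lit 6) (.e (nat_lit 540706) (nat_lit 12) (.e (nat_lit 360475) (nat_lit 8) (.e (nat_lit 557089) (nat_lit 12) (.e (nat_lit 163848) (nat_lit 0) .nil))))) (.g (nat_lit 0) (.e (nat_lit 201034) (nat_lit 0) .nil) .nil)))) (.nd (nat_lit 9) 
(.lf (nat_lit 512333) (.g (nat_lit 2184) (.e (nat_lit 180243) (nat_lit 5) (.e (nat_lit 532569) (nat_lit 16) (.e (nat_lit 401448) (nat_lit 10) (.e (nat_lit 434232) (nat_lit 23) (.e (nat_lit 532489) (nat_lit 0) .nil))))) (.g (nat_lit 0) (.e (nat_lit 200539) (nat_lit 0) .nil) .nil))) 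
(.lf (nat_lit 512845) (.g (nat_lit 2822) (.e (nat_lit 180251) (nat_lit 10) (.e (nat_lit 573456) (nat_lit 9) (.e (nat_lit 1669) (nat_lit 116) (.e (nat_lit 401459) (nat_lit 13) (.e (nat_lit 483364) (nat_lit 18) (.e (nat_lit 57671) (nat_lit 152) (.e (nat_lit 2637) (nat_lit 165) .nil))))))) (.g (nat_lit 1) (.e (nat_lit 202073) (nat_lit 0) .nil) .nil))))) (.nd (nat_lit 8) (.nd (nat_lit 9) 
(.lf (nat_lit 512205) (.g (nat_lit 2650) (.e (nat_lit 180243) (nat_lit 5) (.e (nat_lit 532522) (nat_lit 7) (.e (nat_lit 319530) (nat_lit 16) (.e (nat_lit 286735) (nat_lit 3) (.e (nat_lit 98325) (nat_lit 17) (.e (nat_lit 7936) (nat_lit 393) .nil)))))) (.g (nat_lit 1) (.e (nat_lit 200116) (nat_lit 0) .nil) .nil))) 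
(.lf (nat_lit 512717) (.g (nat_lit 2969) (.e (nat_lit 180250) (nat_lit 10) (.e (nat_lit 573477) (nat_lit 12) (.e (nat_lit 57750) (nat_lit 201) (.e (nat_lit 3090) (nat_lit 191) (.e (nat_lit 483363) (nat_lit 18) (.e (nat_lit 57665) (nat_lit 152) (.e (nat_lit 7936) (nat_lit 165) .nil))))))) (.g (nat_lit 1) (.e (nat_lit 201511) (nat_lit 0) .nil) .nil)))) (.nd (nat_lit 9) 
(.lf (nat_lit 512461) (.g (nat_lit 5909) (.e (nat_lit 180244) (nat_lit 5) (.e (nat_lit 532550) (nat_lit 12) (.e (nat_lit 360475) (nat_lit 8) (.e (nat_lit 557090) (nat_lit 12) (.e (nat_lit 164020) (nat_lit 45) .nil))))) (.g (nat_lit 0) (.e (nat_lit 200785) (nat_lit 0) .nil) .nil))) 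
(.lf (nat_lit 512973) (.g (nat_lit 3696) (.e (nat_lit 180251) (nat_lit 10) (.e (nat_lit 573489) (nat_lit 14) (.e (nat_lit 73755) (nat_lit 8) (.e (nat_lit 557090) (nat_lit 12) (.e (nat_lit 163856) (nat_lit 0) (.e (nat_lit 5946) (nat_lit 322) (.e (nat_lit 57371) (nat_lit 2) (.e (nat_lit 90174) (nat_lit 14) .nil)))))))) (.g (nat_lit 1) (.e (nat_lit 202578) (nat_lit 0) .nil) .nil))))))) 
(.nd (nat_lit 6) (.nd (nat_lit 7) (.nd (nat_lit 8) (.nd (nat_lit 9) 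
(.lf (nat_lit 512045) (.g (nat_lit 1413) (.e (nat_lit 180227) (nat_lit 0) (.e (nat_lit 6255) (nat_lit 337) (.e (nat_lit 2630) (nat_lit 164) (.e (nat_lit 172095) (nat_lit 9) .nil)))) (.g (nat_lit 0) (.e (nat_lit 199234) (nat_lit 0) .nil) .nil))) 
(.lf (nat_lit 512557) (.g (nat_lit 4669) (.e (nat_lit 180245) (nat_lit 5) (.e (nat_lit 532550) (nat_lit 12) (.e (nat_lit 360475) (nat_lit 8) (.e (nat_lit 557091) (nat_lit 12) (.e (nat_lit 163840) (nat_lit 0) .nil))))) (.g (nat_lit 0) (.e (nat_lit 200985) (nat_lit 0) .nil) .nil)))) (.nd (nat_lit 9) 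
(.lf (nat_lit 512301) (.g (nat_lit 4012) (.e (nat_lit 180243) (nat_lit 5) (.e (nat_lit 532550) (nat_lit 12) (.e (nat_lit 360475) (nat_lit 8) (.e (nat_lit 557089) (nat_lit 12) (.e (nat_lit 164017) (nat_lit 44) (.e (nat_lit 696064) (nat_lit 9) .nil)))))) (.g (nat_lit 1) (.e (nat_lit 200404) (nat_lit 0) .nil) .nil))) 
(.lf (nat_lit 512813) (.g (nat_lit 2428) (.e (nat_lit 180250) (nat_lit 10) (.e (nat_lit 573489) (nat_lit 14) (.e (nat_lit 73755) (nat_lit 8) (.e (nat_lit 557091) (nat_lit 12) (.e (nat_lit 164007) (nat_lit 41) .nil))))) (.g (nat_lit 0) (.e (nat_lit 201994) (nat_lit 0) .nil) .nil))))) (.nd (nat_lit 8) (.nd (nat_lit 9) 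
(.lf (nat_lit 512173) (.g (nat_lit 2929) (.e (nat_lit 180243) (nat_lit 5) (.e (nat_lit 532504) (nat_lit 1) (.e (nat_lit 57690) (nat_lit 156) (.e (nat_lit 163874) (nat_lit 3) (.e (nat_lit 204836) (nat_lit 20) (.e (nat_lit 114716) (nat_lit 22) (.e (nat_lit 90174) (nat_lit 14) .nil))))))) (.g (nat_lit 1) (.e (nat_lit 199976) (nat_lit 0) .nil) .nil))) 
(.lf (nat_lit 512685) (.g (nat_lit 3367) (.e (nat_lit 180250) (nat_lit 10) (.e (nat_lit 573471) (nat_lit 11) (.e (nat_lit 16449) (nat_lit 10) (.e (nat_lit 434231) (nat_lit 23) (.e (nat_lit 532490) (nat_lit 0) (.e (nat_lit 7936) (nat_lit 362) .nil)))))) (.g (nat_lit 1) (.e (nat_lit 201413) (nat_lit 0) .nil) .nil)))) (.nd (nat_lit 9) 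
(.lf (nat_lit 512429) (.g (nat_lit 3765) (.e (nat_lit 180244) (nat_lit 5) (.e (nat_lit 532549) (nat_lit 12) (.e (nat_lit 360475) (nat_lit 8) (.e (nat_lit 557089) (nat_lit 12) (.e (nat_lit 163849) (nat_lit 0) .nil))))) (.g (nat_lit 0) (.e (nat_lit 200743) (nat_lit 0) .nil) .nil))) 
(.lf (nat_lit 512941) (.g (nat_lit 3452) (.e (nat_lit 180251) (nat_lit 10) (.e (nat_lit 573489) (nat_lit 14) (.e (nat_lit 73755) (nat_lit 8) (.e (nat_lit 557090) (nat_lit 12) (.e (nat_lit 163847) (nat_lit 0) .nil))))) (.g (nat_lit 0) (.e (nat_lit 202546) (nat_lit 0) .nil) .nil)))))) (.nd (nat_lit 7) (.nd (nat_lit 8) (.nd (nat_lit 9) 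
(.lf (nat_lit 512109) (.g (nat_lit 3989) (.e (nat_lit 180242) (nat_lit 5) (.e (nat_lit 532550) (nat_lit 12) (.e (nat_lit 360475) (nat_lit 8) (.e (nat_lit 557091) (nat_lit 12) (.e (nat_lit 163840) (nat_lit 0) .nil))))) (.g (nat_lit 0) (.e (nat_lit 199869) (nat_lit 0) .nil) .nil))) 
(.lf (nat_lit 512621) (.g (nat_lit 2021) (.e (nat_lit 180249) (nat_lit 10) (.e (nat_lit 573474) (nat_lit 12) (.e (nat_lit 57503) (nat_lit 38) (.e (nat_lit 638995) (nat_lit 7) .nil)))) (.g (nat_lit 0) (.e (nat_lit 201202) (nat_lit 0) .nil) .nil)))) (.nd (nat_lit 9) 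
(.lf (nat_lit 512365) (.g (nat_lit 2502) (.e (nat_lit 180244) (nat_lit 5) (.e (nat_lit 532522) (nat_lit 7) (.e (nat_lit 319531) (nat_lit 16) (.e (nat_lit 286735) (nat_lit 3) (.e (nat_lit 98325) (nat_lit 17) .nil))))) (.g (nat_lit 0) (.e (nat_lit 200611) (nat_lit 0) .nil) .nil))) 
(.lf (nat_lit 512877) (.g (nat_lit 666) (.e (nat_lit 180251) (nat_lit 10) (.e (nat_lit 573487) (nat_lit 14) (.e (nat_lit 73750) (nat_lit 6) .nil))) (.g (nat_lit 0) (.e (nat_lit 202367) (nat_lit 0) .nil) .nil))))) (.nd (nat_lit 8) (.nd (nat_lit 9) 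
(.lf (nat_lit 512237) (.g (nat_lit 3075) (.e (nat_lit 180243) (nat_lit 5) (.e (nat_lit 532523) (nat_lit 7) (.e (nat_lit 319534) (nat_lit 16) (.e (nat_lit 286735) (nat_lit 3) (.e (nat_lit 98321) (nat_lit 17) .nil))))) (.g (nat_lit 0) (.e (nat_lit 200156) (nat_lit 0) .nil) .nil))) 
(.lf (nat_lit 512749) (.g (nat_lit 3436) (.e (nat_lit 180250) (nat_lit 10) (.e (nat_lit 573488) (nat_lit 14) (.e (nat_lit 73755) (nat_lit 8) (.e (nat_lit 557091) (nat_lit 12) (.e (nat_lit 164007) (nat_lit 41) .nil))))) (.g (nat_lit 0) (.e (nat_lit 201839) (nat_lit 0) .nil) .nil)))) (.nd (nat_lit 9) 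
(.lf (nat_lit 512493) (.g (nat_lit 1296) (.e (nat_lit 180244) (nat_lit 5) (.e (nat_lit 532579) (nat_lit 26) (.e (nat_lit 426408) (nat_lit 15) (.e (nat_lit 7936) (nat_lit 121) .nil)))) (.g (nat_lit 0) (.e (nat_lit 200862) (nat_lit 0) .nil) .nil))) 
(.lf (nat_lit 513005) (.g (nat_lit 2956) (.e (nat_lit 180251) (nat_lit 10) (.e (nat_lit 573489) (nat_lit 14) (.e (nat_lit 73755) (nat_lit 8) (.e (nat_lit 557091) (nat_lit 12) (.e (nat_lit 163850) (nat_lit 0) (.e (nat_lit 5939) (nat_lit 322) (.e (nat_lit 57372) (nat_lit 2) (.e (nat_lit 90174) (nat_lit 14) .nil)))))))) (.g (nat_lit 1) (.e (nat_lit 202651) (nat_lit 0) .nil) .nil)))))))) 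
(.nd (nat_lit 5) (.nd (nat_lit 6) (.nd (nat_lit 7) (.nd (nat_lit 8) (.nd (nat_lit 9) 
(.lf (nat_lit 512029) (.g (nat_lit 1413) (.e (nat_lit 179968) (nat_lit 34) (.e (nat_lit 393301) (nat_lit 27) (.e (nat_lit 491539) (nat_lit 3) (.e (nat_lit 98334) (nat_lit 18) .nil)))) (.g (nat_lit 0) (.e (nat_lit 198777) (nat_lit 0) .nil) .nil))) 
(.lf (nat_lit 512541) (.g (nat_lit 3065) (.e (nat_lit 180245) (nat_lit 5) (.e (nat_lit 532523) (nat_lit 7) (.e (nat_lit 319534) (nat_lit 16) (.e (nat_lit 286735) (nat_lit 3) (.e (nat_lit 98321) (nat_lit 17) .nil))))) (.g (nat_lit 0) (.e (nat_lit 200949) (nat_lit 0) .nil) .nil)))) (.nd (nat_lit 9) 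
(.lf (nat_lit 512285) (.g (nat_lit 3088) (.e (nat_lit 180243) (nat_lit 5) (.e (nat_lit 532549) (nat_lit 12) (.e (nat_lit 360475) (nat_lit 8) (.e (nat_lit 557091) (nat_lit 12) (.e (nat_lit 163852) (nat_lit 0) .nil))))) (.g (nat_lit 0) (.e (nat_lit 200377) (nat_lit 0) .nil) .nil))) 
(.lf (nat_lit 512797) (.g (nat_lit 3140) (.e (nat_lit 180250) (nat_lit 10) (.e (nat_lit 573489) (nat_lit 14) (.e (nat_lit 73755) (nat_lit 8) (.e (nat_lit 557090) (nat_lit 12) (.e (nat_lit 163856) (nat_lit 0) .nil))))) (.g (nat_lit 0) (.e (nat_lit 201940) (nat_lit 0) .nil) .nil))))) (.nd (nat_lit 8) (.nd (nat_lit 9) 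
(.lf (nat_lit 512157) (.g (nat_lit 2926) (.e (nat_lit 180243) (nat_lit 5) (.e (nat_lit 532501) (nat_lit 1) (.e (nat_lit 57691) (nat_lit 156) (.e (nat_lit 163874) (nat_lit 3) (.e (nat_lit 204836) (nat_lit 20) (.e (nat_lit 114716) (nat_lit 22) (.e (nat_lit 90174) (nat_lit 14) .nil))))))) (.g (nat_lit 1) (.e (nat_lit 199947) (nat_lit 0) .nil) .nil))) 
(.lf (nat_lit 512669) (.g (nat_lit 2303) (.e (nat_lit 180250) (nat_lit 10) (.e (nat_lit 573471) (nat_lit 11) (.e (nat_lit 16446) (nat_lit 9) (.e (nat_lit 426115) (nat_lit 2) (.e (nat_lit 196677) (nat_lit 16) (.e (nat_lit 130816) (nat_lit 206) .nil)))))) (.g (nat_lit 1) (.e (nat_lit 201383) (nat_lit 0) .nil) .nil)))) (.nd (nat_lit 9) 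
(.lf (nat_lit 512413) (.g (nat_lit 1282) (.e (nat_lit 180244) (nat_lit 5) (.e (nat_lit 532535) (nat_lit 9) (.e (nat_lit 336173) (nat_lit 10) .nil))) (.g (nat_lit 0) (.e (nat_lit 200708) (nat_lit 0) .nil) .nil))) 
(.lf (nat_lit 512925) (.g (nat_lit 3674) (.e (nat_lit 180251) (nat_lit 10) (.e (nat_lit 573489) (nat_lit 14) (.e (nat_lit 73755) (nat_lit 8) (.e (nat_lit 557090) (nat_lit 12) (.e (nat_lit 163840) (nat_lit 0) (.e (nat_lit 5934) (nat_lit 322) (.e (nat_lit 57371) (nat_lit 2) (.e (nat_lit 90174) (nat_lit 14) .nil)))))))) (.g (nat_lit 1) (.e (nat_lit 202530) (nat_lit 0) .nil) .nil)))))) 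
(.nd (nat_lit 7) (.nd (nat_lit 8) (.nd (nat_lit 9) 
(.lf (nat_lit 512093) (.g (nat_lit 3675) (.e (nat_lit 180242) (nat_lit 5) (.e (nat_lit 532550) (nat_lit 12) (.e (nat_lit 360474) (nat_lit 8) (.e (nat_lit 557093) (nat_lit 12) .nil)))) (.g (nat_lit 0) (.e (nat_lit 199849) (nat_lit 0) .nil) .nil))) 
(.lf (nat_lit 512605) (.g (nat_lit 483) (.e (nat_lit 188160) (nat_lit 3) (.e (nat_lit 516195) (nat_lit 26) (.e (nat_lit 336085) (nat_lit 9) .nil))) (.g (nat_lit 0) (.e (nat_lit 201067) (nat_lit 0) .nil) .nil)))) (.nd (nat_lit 9) 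
(.lf (nat_lit 512349) (.g (nat_lit 2326) (.e (nat_lit 180244) (nat_lit 5) (.e (nat_lit 532503) (nat_lit 1) (.e (nat_lit 57688) (nat_lit 156) (.e (nat_lit 163843) (nat_lit 0) (.e (nat_lit 3230) (nat_lit 197) .nil))))) (.g (nat_lit 0) (.e (nat_lit 200586) (nat_lit 0) .nil) .nil))) 
(.lf (nat_lit 512861) (.g (nat_lit 2211) (.e (nat_lit 180251) (nat_lit 10) (.e (nat_lit 573471) (nat_lit 11) (.e (nat_lit 16449) (nat_lit 10) (.e (nat_lit 434233) (nat_lit 23) .nil)))) (.g (nat_lit 0) (.e (nat_lit 202107) (nat_lit 0) .nil) .nil))))) (.nd (nat_lit 8) (.nd (nat_lit 9) 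
(.lf (nat_lit 512221) (.g (nat_lit 2491) (.e (nat_lit 180243) (nat_lit 5) (.e (nat_lit 532523) (nat_lit 7) (.e (nat_lit 319528) (nat_lit 16) (.e (nat_lit 286735) (nat_lit 3) (.e (nat_lit 98325) (nat_lit 17) (.e (nat_lit 7936) (nat_lit 393) .nil)))))) (.g (nat_lit 1) (.e (nat_lit 200139) (nat_lit 0) .nil) .nil))) 
(.lf (nat_lit 512733) (.g (nat_lit 4092) (.e (nat_lit 180250) (nat_lit 10) (.e (nat_lit 573487) (nat_lit 14) (.e (nat_lit 73753) (nat_lit 8) (.e (nat_lit 557090) (nat_lit 12) (.e (nat_lit 163843) (nat_lit 0) (.e (nat_lit 5940) (nat_lit 322) (.e (nat_lit 57375) (nat_lit 2) (.e (nat_lit 90172) (nat_lit 14) .nil)))))))) (.g (nat_lit 1) (.e (nat_lit 201791) (nat_lit 0) .nil) .nil)))) (.nd (nat_lit 9) 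
(.lf (nat_lit 512477) (.g (nat_lit 4799) (.e (nat_lit 180244) (nat_lit 5) (.e (nat_lit 532550) (nat_lit 12) (.e (nat_lit 360475) (nat_lit 8) (.e (nat_lit 557094) (nat_lit 12) .nil)))) (.g (nat_lit 0) (.e (nat_lit 200803) (nat_lit 0) .nil) .nil))) 
(.lf (nat_lit 512989) (.g (nat_lit 4145) (.e (nat_lit 180251) (nat_lit 10) (.e (nat_lit 573489) (nat_lit 14) (.e (nat_lit 73755) (nat_lit 8) (.e (nat_lit 557091) (nat_lit 12) (.e (nat_lit 163840) (nat_lit 0) (.e (nat_lit 5950) (nat_lit 322) (.e (nat_lit 57371) (nat_lit 2) (.e (nat_lit 90174) (nat_lit 14) .nil)))))))) (.g (nat_lit 1) (.e (nat_lit 202635) (nat_lit 0) .nil) .nil))))))) 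
(.nd (nat_lit 6) (.nd (nat_lit 7) (.nd (nat_lit 8) (.nd (nat_lit 9) 
(.lf (nat_lit 512061) (.g (nat_lit 1917) (.e (nat_lit 180232) (nat_lit 0) (.e (nat_lit 5599) (nat_lit 310) (.e (nat_lit 163932) (nat_lit 17) (.e (nat_lit 466972) (nat_lit 21) (.e (nat_lit 164403) (nat_lit 256) .nil))))) (.g (nat_lit 0) (.e (nat_lit 199639) (nat_lit 0) .nil) .nil))) 
(.lf (nat_lit 512573) (.g (nat_lit 4219) (.e (nat_lit 188160) (nat_lit 5) (.e (nat_lit 532550) (nat_lit 12) (.e (nat_lit 360474) (nat_lit 8) (.e (nat_lit 557091) (nat_lit 12) .nil)))) (.g (nat_lit 0) (.e (nat_lit 201012) (nat_lit 0) .nil) .nil)))) (.nd (nat_lit 9) 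
(.lf (nat_lit 512317) (.g (nat_lit 3589) (.e (nat_lit 180243) (nat_lit 5) (.e (nat_lit 532568) (nat_lit 16) (.e (nat_lit 401448) (nat_lit 10) (.e (nat_lit 434231) (nat_lit 23) (.e (nat_lit 532481) (nat_lit 0) (.e (nat_lit 6724) (nat_lit 362) .nil)))))) (.g (nat_lit 1) (.e (nat_lit 200519) (nat_lit 0) .nil) .nil))) 
(.lf (nat_lit 512829) (.g (nat_lit 2738) (.e (nat_lit 180251) (nat_lit 10) (.e (nat_lit 573456) (nat_lit 9) (.e (nat_lit 1669) (nat_lit 116) (.e (nat_lit 401459) (nat_lit 13) (.e (nat_lit 483363) (nat_lit 18) (.e (nat_lit 57652) (nat_lit 152) (.e (nat_lit 2642) (nat_lit 165) .nil))))))) (.g (nat_lit 1) (.e (nat_lit 202057) (nat_lit 0) .nil) .nil))))) (.nd (nat_lit 8) (.nd (nat_lit 9) 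
(.lf (nat_lit 512189) (.g (nat_lit 1295) (.e (nat_lit 180243) (nat_lit 5) (.e (nat_lit 532513) (nat_lit 3) (.e (nat_lit 114718) (nat_lit 23) (.e (nat_lit 98333) (nat_lit 18) .nil)))) (.g (nat_lit 0) (.e (nat_lit 200059) (nat_lit 0) .nil) .nil))) 
(.lf (nat_lit 512701) (.g (nat_lit 3282) (.e (nat_lit 180250) (nat_lit 10) (.e (nat_lit 573474) (nat_lit 12) (.e (nat_lit 57504) (nat_lit 38) (.e (nat_lit 638995) (nat_lit 7) (.e (nat_lit 163977) (nat_lit 30) (.e (nat_lit 573489) (nat_lit 14) (.e (nat_lit 73755) (nat_lit 8) (.e (nat_lit 557103) (nat_lit 14) .nil)))))))) (.g (nat_lit 1) (.e (nat_lit 201437) (nat_lit 0) .nil) .nil)))) 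
(.nd (nat_lit 9) 
(.lf (nat_lit 512445) (.g (nat_lit 4164) (.e (nat_lit 180244) (nat_lit 5) (.e (nat_lit 532550) (nat_lit 12) (.e (nat_lit 360474) (nat_lit 8) (.e (nat_lit 557091) (nat_lit 12) .nil)))) (.g (nat_lit 0) (.e (nat_lit 200763) (nat_lit 0) .nil) .nil))) 
(.lf (nat_lit 512957) (.g (nat_lit 3995) (.e (nat_lit 180251) (nat_lit 10) (.e (nat_lit 573489) (nat_lit 14) (.e (nat_lit 73755) (nat_lit 8) (.e (nat_lit 557090) (nat_lit 12) (.e (nat_lit 163851) (nat_lit 0) (.e (nat_lit 5938) (nat_lit 322) (.e (nat_lit 57375) (nat_lit 2) (.e (nat_lit 90174) (nat_lit 14) .nil)))))))) (.g (nat_lit 1) (.e (nat_lit 202562) (nat_lit 0) .nil) .nil)))))) 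
(.nd (nat_lit 7) (.nd (nat_lit 8) (.nd (nat_lit 9) 
(.lf (nat_lit 512125) (.g (nat_lit 2052) (.e (nat_lit 180242) (nat_lit 5) (.e (nat_lit 532569) (nat_lit 16) (.e (nat_lit 401448) (nat_lit 10) (.e (nat_lit 434231) (nat_lit 23) .nil)))) (.g (nat_lit 0) (.e (nat_lit 199888) (nat_lit 0) .nil) .nil))) 
(.lf (nat_lit 512637) (.g (nat_lit 2675) (.e (nat_lit 180250) (nat_lit 10) (.e (nat_lit 573456) (nat_lit 9) (.e (nat_lit 1669) (nat_lit 116) (.e (nat_lit 401459) (nat_lit 13) (.e (nat_lit 483363) (nat_lit 18) (.e (nat_lit 57664) (nat_lit 152) (.e (nat_lit 7936) (nat_lit 165) .nil))))))) (.g (nat_lit 1) (.e (nat_lit 201311) (nat_lit 0) .nil) .nil)))) (.nd (nat_lit 9) 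
(.lf (nat_lit 512381) (.g (nat_lit 1960) (.e (nat_lit 180244) (nat_lit 5) (.e (nat_lit 532523) (nat_lit 7) (.e (nat_lit 319528) (nat_lit 16) (.e (nat_lit 286735) (nat_lit 3) (.e (nat_lit 98320) (nat_lit 17) .nil))))) (.g (nat_lit 0) (.e (nat_lit 200636) (nat_lit 0) .nil) .nil))) 
(.lf (nat_lit 512893) (.g (nat_lit 3019) (.e (nat_lit 180251) (nat_lit 10) (.e (nat_lit 573489) (nat_lit 14) (.e (nat_lit 73755) (nat_lit 8) (.e (nat_lit 557065) (nat_lit 9) (.e (nat_lit 2612) (nat_lit 163) (.e (nat_lit 164402) (nat_lit 256) (.e (nat_lit 57371) (nat_lit 2) (.e (nat_lit 90174) (nat_lit 14) .nil)))))))) (.g (nat_lit 1) (.e (nat_lit 202442) (nat_lit 0) .nil) .nil))))) 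
(.nd (nat_lit 8) (.nd (nat_lit 9) 
(.lf (nat_lit 512253) (.g (nat_lit 2443) (.e (nat_lit 180243) (nat_lit 5) (.e (nat_lit 532549) (nat_lit 12) (.e (nat_lit 360473) (nat_lit 8) (.e (nat_lit 557091) (nat_lit 12) (.e (nat_lit 163847) (nat_lit 0) .nil))))) (.g (nat_lit 0) (.e (nat_lit 200332) (nat_lit 0) .nil) .nil))) 
(.lf (nat_lit 512765) (.g (nat_lit 2491) (.e (nat_lit 180250) (nat_lit 10) (.e (nat_lit 573489) (nat_lit 14) (.e (nat_lit 73755) (nat_lit 8) (.e (nat_lit 557074) (nat_lit 9) (.e (nat_lit 2609) (nat_lit 163) .nil))))) (.g (nat_lit 0) (.e (nat_lit 201883) (nat_lit 0) .nil) .nil)))) (.nd (nat_lit 9) 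
(.lf (nat_lit 512509) (.g (nat_lit 2481) (.e (nat_lit 180245) (nat_lit 5) (.e (nat_lit 532522) (nat_lit 7) (.e (nat_lit 319530) (nat_lit 16) (.e (nat_lit 286735) (nat_lit 3) (.e (nat_lit 98325) (nat_lit 17) .nil))))) (.g (nat_lit 0) (.e (nat_lit 200908) (nat_lit 0) .nil) .nil))) 
(.lf (nat_lit 513021) (.g (nat_lit 1299) (.e (nat_lit 180251) (nat_lit 10) (.e (nat_lit 573489) (nat_lit 14) (.e (nat_lit 73755) (nat_lit 8) (.e (nat_lit 557119) (nat_lit 18) .nil)))) (.g (nat_lit 0) (.e (nat_lit 202724) (nat_lit 0) .nil) .nil))))))))))) (.nd (nat_lit 2) (.nd (nat_lit 3) (.nd (nat_lit 4) (.nd (nat_lit 5) (.nd (nat_lit 6) (.nd (nat_lit 7) (.nd (nat_lit 8) (.nd (nat_lit 9) 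
(.lf (nat_lit 512003) (.g (nat_lit 2710) (.e (nat_lit 179968) (nat_lit 34) (.e (nat_lit 393271) (nat_lit 23) (.e (nat_lit 426131) (nat_lit 3) (.e (nat_lit 204829) (nat_lit 18) (.e (nat_lit 57651) (nat_lit 152) .nil))))) (.g (nat_lit 0) (.e (nat_lit 198751) (nat_lit 0) .nil) .nil))) 
(.lf (nat_lit 512515) (.g (nat_lit 2096) (.e (nat_lit 180245) (nat_lit 5) (.e (nat_lit 532523) (nat_lit 7) (.e (nat_lit 319505) (nat_lit 10) (.e (nat_lit 5714) (nat_lit 312) (.e (nat_lit 2682) (nat_lit 168) .nil))))) (.g (nat_lit 0) (.e (nat_lit 200918) (nat_lit 0) .nil) .nil)))) (.nd (nat_lit 9) 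
(.lf (nat_lit 512259) (.g (nat_lit 1598) (.e (nat_lit 180243) (nat_lit 5) (.e (nat_lit 532549) (nat_lit 12) (.e (nat_lit 360473) (nat_lit 8) (.e (nat_lit 557093) (nat_lit 12) .nil)))) (.g (nat_lit 0) (.e (nat_lit 200342) (nat_lit 0) .nil) .nil))) 
(.lf (nat_lit 512771) (.g (nat_lit 3193) (.e (nat_lit 180250) (nat_lit 10) (.e (nat_lit 573489) (nat_lit 14) (.e (nat_lit 73755) (nat_lit 8) (.e (nat_lit 557090) (nat_lit 12) (.e (nat_lit 163840) (nat_lit 0) (.e (nat_lit 5942) (nat_lit 322) (.e (nat_lit 57373) (nat_lit 2) (.e (nat_lit 90174) (nat_lit 14) .nil)))))))) (.g (nat_lit 1) (.e (nat_lit 201914) (nat_lit 0) .nil) .nil))))) 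
(.nd (nat_lit 8) (.nd (nat_lit 9) 
(.lf (nat_lit 512131) (.g (nat_lit 2657) (.e (nat_lit 180243) (nat_lit 5) (.e (nat_lit 532481) (nat_lit 0) (.e (nat_lit 6724) (nat_lit 362) (.e (nat_lit 180243) (nat_lit 5) (.e (nat_lit 532484) (nat_lit 0) (.e (nat_lit 7936) (nat_lit 362) .nil)))))) (.g (nat_lit 1) (.e (nat_lit 199898) (nat_lit 0) .nil) .nil))) 
(.lf (nat_lit 512643) (.g (nat_lit 3871) (.e (nat_lit 180250) (nat_lit 10) (.e (nat_lit 573456) (nat_lit 9) (.e (nat_lit 1669) (nat_lit 116) (.e (nat_lit 401459) (nat_lit 13) (.e (nat_lit 483364) (nat_lit 18) (.e (nat_lit 57665) (nat_lit 152) (.e (nat_lit 2637) (nat_lit 165) .nil))))))) (.g (nat_lit 1) (.e (nat_lit 201317) (nat_lit 0) .nil) .nil)))) (.nd (nat_lit 9) 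
(.lf (nat_lit 512387) (.g (nat_lit 3402) (.e (nat_lit 180244) (nat_lit 5) (.e (nat_lit 532523) (nat_lit 7) (.e (nat_lit 319530) (nat_lit 16) (.e (nat_lit 286735) (nat_lit 3) (.e (nat_lit 98325) (nat_lit 17) (.e (nat_lit 7936) (nat_lit 393) .nil)))))) (.g (nat_lit 1) (.e (nat_lit 200642) (nat_lit 0) .nil) .nil))) 
(.lf (nat_lit 512899) (.g (nat_lit 3794) (.e (nat_lit 180251) (nat_lit 10) (.e (nat_lit 573489) (nat_lit 14) (.e (nat_lit 73755) (nat_lit 8) (.e (nat_lit 557067) (nat_lit 9) (.e (nat_lit 2603) (nat_lit 163) (.e (nat_lit 164399) (nat_lit 256) (.e (nat_lit 57373) (nat_lit 2) (.e (nat_lit 90174) (nat_lit 14) .nil)))))))) (.g (nat_lit 1) (.e (nat_lit 202454) (nat_lit 0) .nil) .nil)))))) 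
(.nd (nat_lit 7) (.nd (nat_lit 8) (.nd (nat_lit 9) 
(.lf (nat_lit 512067) (.g (nat_lit 243) (.e (nat_lit 188160) (nat_lit 1) (.e (nat_lit 500056) (nat_lit 17) (.e (nat_lit 65280) (nat_lit 206) .nil))) (.g (nat_lit 0) (.e (nat_lit 199699) (nat_lit 0) .nil) .nil))) 
(.lf (nat_lit 512579) (.g (nat_lit 2433) (.e (nat_lit 188160) (nat_lit 5) (.e (nat_lit 532569) (nat_lit 16) (.e (nat_lit 401448) (nat_lit 10) (.e (nat_lit 434226) (nat_lit 20) .nil)))) (.g (nat_lit 0) (.e (nat_lit 201022) (nat_lit 0) .nil) .nil)))) (.nd (nat_lit 9) 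
(.lf (nat_lit 512323) (.g (nat_lit 1963) (.e (nat_lit 180243) (nat_lit 5) (.e (nat_lit 532569) (nat_lit 16) (.e (nat_lit 401446) (nat_lit 10) (.e (nat_lit 434233) (nat_lit 23) .nil)))) (.g (nat_lit 0) (.e (nat_lit 200529) (nat_lit 0) .nil) .nil))) 
(.lf (nat_lit 512835) (.g (nat_lit 2849) (.e (nat_lit 180251) (nat_lit 10) (.e (nat_lit 573456) (nat_lit 9) (.e (nat_lit 1669) (nat_lit 116) (.e (nat_lit 401459) (nat_lit 13) (.e (nat_lit 483363) (nat_lit 18) (.e (nat_lit 57664) (nat_lit 152) (.e (nat_lit 2637) (nat_lit 165) .nil))))))) (.g (nat_lit 1) (.e (nat_lit 202063) (nat_lit 0) .nil) .nil))))) (.nd (nat_lit 8) (.nd (nat_lit 9) 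
(.lf (nat_lit 512195) (.g (nat_lit 1490) (.e (nat_lit 180243) (nat_lit 5) (.e (nat_lit 532513) (nat_lit 3) (.e (nat_lit 114718) (nat_lit 23) (.e (nat_lit 98343) (nat_lit 21) .nil)))) (.g (nat_lit 0) (.e (nat_lit 200066) (nat_lit 0) .nil) .nil))) 
(.lf (nat_lit 512707) (.g (nat_lit 4801) (.e (nat_lit 180250) (nat_lit 10) (.e (nat_lit 573474) (nat_lit 12) (.e (nat_lit 57572) (nat_lit 54) (.e (nat_lit 770072) (nat_lit 8) (.e (nat_lit 65571) (nat_lit 3) (.e (nat_lit 98321) (nat_lit 17) (.e (nat_lit 7936) (nat_lit 393) .nil))))))) (.g (nat_lit 1) (.e (nat_lit 201443) (nat_lit 0) .nil) .nil)))) (.nd (nat_lit 9) 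
(.lf (nat_lit 512451) (.g (nat_lit 3282) (.e (nat_lit 180244) (nat_lit 5) (.e (nat_lit 532550) (nat_lit 12) (.e (nat_lit 360474) (nat_lit 8) (.e (nat_lit 557094) (nat_lit 12) (.e (nat_lit 164016) (nat_lit 44) (.e (nat_lit 696064) (nat_lit 9) .nil)))))) (.g (nat_lit 1) (.e (nat_lit 200769) (nat_lit 0) .nil) .nil))) 
(.lf (nat_lit 512963) (.g (nat_lit 3255) (.e (nat_lit 180251) (nat_lit 10) (.e (nat_lit 573489) (nat_lit 14) (.e (nat_lit 73755) (nat_lit 8) (.e (nat_lit 557090) (nat_lit 12) (.e (nat_lit 163852) (nat_lit 0) .nil))))) (.g (nat_lit 0) (.e (nat_lit 202568) (nat_lit 0) .nil) .nil))))))) (.nd (nat_lit 6) (.nd (nat_lit 7) (.nd (nat_lit 8) (.nd (nat_lit 9) 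
(.lf (nat_lit 512035) (.g (nat_lit 1558) (.e (nat_lit 180225) (nat_lit 0) (.e (nat_lit 6420) (nat_lit 341) (.e (nat_lit 163902) (nat_lit 12) (.e (nat_lit 426229) (nat_lit 9) .nil)))) (.g (nat_lit 0) (.e (nat_lit 198950) (nat_lit 0) .nil) .nil))) 
(.lf (nat_lit 512547) (.g (nat_lit 2453) (.e (nat_lit 180245) (nat_lit 5) (.e (nat_lit 532549) (nat_lit 12) (.e (nat_lit 360475) (nat_lit 8) (.e (nat_lit 557091) (nat_lit 12) .nil)))) (.g (nat_lit 0) (.e (nat_lit 200972) (nat_lit 0) .nil) .nil)))) (.nd (nat_lit 9) 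
(.lf (nat_lit 512291) (.g (nat_lit 2681) (.e (nat_lit 180243) (nat_lit 5) (.e (nat_lit 532550) (nat_lit 12) (.e (nat_lit 360474) (nat_lit 8) (.e (nat_lit 557093) (nat_lit 12) .nil)))) (.g (nat_lit 0) (.e (nat_lit 200390) (nat_lit 0) .nil) .nil))) 
(.lf (nat_lit 512803) (.g (nat_lit 2863) (.e (nat_lit 180250) (nat_lit 10) (.e (nat_lit 573489) (nat_lit 14) (.e (nat_lit 73755) (nat_lit 8) (.e (nat_lit 557090) (nat_lit 12) (.e (nat_lit 164006) (nat_lit 41) .nil))))) (.g (nat_lit 0) (.e (nat_lit 201947) (nat_lit 0) .nil) .nil))))) (.nd (nat_lit 8) (.nd (nat_lit 9) 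
(.lf (nat_lit 512163) (.g (nat_lit 764) (.e (nat_lit 180243) (nat_lit 5) (.e (nat_lit 532501) (nat_lit 1) (.e (nat_lit 57735) (nat_lit 183) .nil))) (.g (nat_lit 0) (.e (nat_lit 199956) (nat_lit 0) .nil) .nil))) 
(.lf (nat_lit 512675) (.g (nat_lit 2321) (.e (nat_lit 180250) (nat_lit 10) (.e (nat_lit 573471) (nat_lit 11) (.e (nat_lit 16448) (nat_lit 10) (.e (nat_lit 434217) (nat_lit 19) .nil)))) (.g (nat_lit 0) (.e (nat_lit 201391) (nat_lit 0) .nil) .nil)))) (.nd (nat_lit 9) 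
(.lf (nat_lit 512419) (.g (nat_lit 1711) (.e (nat_lit 180244) (nat_lit 5) (.e (nat_lit 532549) (nat_lit 12) (.e (nat_lit 360473) (nat_lit 8) (.e (nat_lit 557091) (nat_lit 12) .nil)))) (.g (nat_lit 0) (.e (nat_lit 200731) (nat_lit 0) .nil) .nil))) 
(.lf (nat_lit 512931) (.g (nat_lit 4013) (.e (nat_lit 180251) (nat_lit 10) (.e (nat_lit 573489) (nat_lit 14) (.e (nat_lit 73755) (nat_lit 8) (.e (nat_lit 557090) (nat_lit 12) (.e (nat_lit 163843) (nat_lit 0) (.e (nat_lit 5934) (nat_lit 322) (.e (nat_lit 57371) (nat_lit 2) (.e (nat_lit 90171) (nat_lit 14) .nil)))))))) (.g (nat_lit 1) (.e (nat_lit 202536) (nat_lit 0) .nil) .nil)))))) 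
(.nd (nat_lit 7) (.nd (nat_lit 8) (.nd (nat_lit 9) 
(.lf (nat_lit 512099) (.g (nat_lit 4024) (.e (nat_lit 180242) (nat_lit 5) (.e (nat_lit 532550) (nat_lit 12) (.e (nat_lit 360474) (nat_lit 8) (.e (nat_lit 557094) (nat_lit 12) (.e (nat_lit 163852) (nat_lit 0) .nil))))) (.g (nat_lit 0) (.e (nat_lit 199855) (nat_lit 0) .nil) .nil))) 
(.lf (nat_lit 512611) (.g (nat_lit 398) (.e (nat_lit 180241) (nat_lit 4) (.e (nat_lit 524340) (nat_lit 28) (.e (nat_lit 352286) (nat_lit 20) (.e (nat_lit 2383) (nat_lit 155) (.e (nat_lit 811011) (nat_lit 0) .nil))))) (.g (nat_lit 0) (.e (nat_lit 201082) (nat_lit 0) .nil) .nil)))) (.nd (nat_lit 9) 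
(.lf (nat_lit 512355) (.g (nat_lit 1765) (.e (nat_lit 180244) (nat_lit 5) (.e (nat_lit 532515) (nat_lit 3) (.e (nat_lit 114718) (nat_lit 23) (.e (nat_lit 98333) (nat_lit 18) (.e (nat_lit 164398) (nat_lit 256) .nil))))) (.g (nat_lit 0) (.e (nat_lit 200597) (nat_lit 0) .nil) .nil))) 
(.lf (nat_lit 512867) (.g (nat_lit 2203) (.e (nat_lit 180251) (nat_lit 10) (.e (nat_lit 573477) (nat_lit 12) (.e (nat_lit 57750) (nat_lit 201) (.e (nat_lit 3090) (nat_lit 191) (.e (nat_lit 483364) (nat_lit 18) (.e (nat_lit 57663) (nat_lit 152) (.e (nat_lit 7936) (nat_lit 165) .nil))))))) (.g (nat_lit 1) (.e (nat_lit 202166) (nat_lit 0) .nil) .nil))))) (.nd (nat_lit 8) (.nd (nat_lit 9) 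
(.lf (nat_lit 512227) (.g (nat_lit 2474) (.e (nat_lit 180243) (nat_lit 5) (.e (nat_lit 532523) (nat_lit 7) (.e (nat_lit 319533) (nat_lit 16) (.e (nat_lit 286732) (nat_lit 2) (.e (nat_lit 90165) (nat_lit 12) .nil))))) (.g (nat_lit 0) (.e (nat_lit 200145) (nat_lit 0) .nil) .nil))) 
(.lf (nat_lit 512739) (.g (nat_lit 2946) (.e (nat_lit 180250) (nat_lit 10) (.e (nat_lit 573488) (nat_lit 14) (.e (nat_lit 73755) (nat_lit 8) (.e (nat_lit 557089) (nat_lit 12) (.e (nat_lit 164006) (nat_lit 41) .nil))))) (.g (nat_lit 0) (.e (nat_lit 201828) (nat_lit 0) .nil) .nil)))) (.nd (nat_lit 9) 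
(.lf (nat_lit 512483) (.g (nat_lit 3639) (.e (nat_lit 180244) (nat_lit 5) (.e (nat_lit 532569) (nat_lit 16) (.e (nat_lit 401446) (nat_lit 10) (.e (nat_lit 434231) (nat_lit 23) (.e (nat_lit 532482) (nat_lit 0) (.e (nat_lit 6722) (nat_lit 362) .nil)))))) (.g (nat_lit 1) (.e (nat_lit 200844) (nat_lit 0) .nil) .nil))) 
(.lf (nat_lit 512995) (.g (nat_lit 3808) (.e (nat_lit 180251) (nat_lit 10) (.e (nat_lit 573489) (nat_lit 14) (.e (nat_lit 73755) (nat_lit 8) (.e (nat_lit 557091) (nat_lit 12) (.e (nat_lit 163843) (nat_lit 0) (.e (nat_lit 5940) (nat_lit 322) (.e (nat_lit 57371) (nat_lit 2) (.e (nat_lit 90174) (nat_lit 14) .nil)))))))) (.g (nat_lit 1) (.e (nat_lit 202641) (nat_lit 0) .nil) .nil)))))))) 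
(.nd (nat_lit 5) (.nd (nat_lit 6) (.nd (nat_lit 7) (.nd (nat_lit 8) (.nd (nat_lit 9) 
(.lf (nat_lit 512019) (.g (nat_lit 1665) (.e (nat_lit 179968) (nat_lit 34) (.e (nat_lit 393286) (nat_lit 25) (.e (nat_lit 458789) (nat_lit 23) (.e (nat_lit 532499) (nat_lit 1) (.e (nat_lit 57653) (nat_lit 152) .nil))))) (.g (nat_lit 0) (.e (nat_lit 198767) (nat_lit 0) .nil) .nil))) 
(.lf (nat_lit 512531) (.g (nat_lit 2672) (.e (nat_lit 180245) (nat_lit 5) (.e (nat_lit 532523) (nat_lit 7) (.e (nat_lit 319531) (nat_lit 16) (.e (nat_lit 286735) (nat_lit 3) (.e (nat_lit 98323) (nat_lit 17) (.e (nat_lit 7936) (nat_lit 393) .nil)))))) (.g (nat_lit 1) (.e (nat_lit 200937) (nat_lit 0) .nil) .nil)))) (.nd (nat_lit 9) 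
(.lf (nat_lit 512275) (.g (nat_lit 1748) (.e (nat_lit 180243) (nat_lit 5) (.e (nat_lit 532549) (nat_lit 12) (.e (nat_lit 360475) (nat_lit 8) (.e (nat_lit 557091) (nat_lit 12) .nil)))) (.g (nat_lit 0) (.e (nat_lit 200364) (nat_lit 0) .nil) .nil))) 
(.lf (nat_lit 512787) (.g (nat_lit 3038) (.e (nat_lit 180250) (nat_lit 10) (.e (nat_lit 573489) (nat_lit 14) (.e (nat_lit 73755) (nat_lit 8) (.e (nat_lit 557090) (nat_lit 12) (.e (nat_lit 163850) (nat_lit 0) (.e (nat_lit 7936) (nat_lit 322) (.e (nat_lit 57373) (nat_lit 2) (.e (nat_lit 90174) (nat_lit 14) .nil)))))))) (.g (nat_lit 1) (.e (nat_lit 201930) (nat_lit 0) .nil) .nil))))) 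
(.nd (nat_lit 8) (.nd (nat_lit 9) 
(.lf (nat_lit 512147) (.g (nat_lit 3115) (.e (nat_lit 180243) (nat_lit 5) (.e (nat_lit 532499) (nat_lit 1) (.e (nat_lit 57688) (nat_lit 156) (.e (nat_lit 163874) (nat_lit 3) (.e (nat_lit 204836) (nat_lit 20) .nil))))) (.g (nat_lit 0) (.e (nat_lit 199928) (nat_lit 0) .nil) .nil))) 
(.lf (nat_lit 512659) (.g (nat_lit 1378) (.e (nat_lit 180250) (nat_lit 10) (.e (nat_lit 573471) (nat_lit 11) (.e (nat_lit 16433) (nat_lit 9) (.e (nat_lit 425992) (nat_lit 0) .nil)))) (.g (nat_lit 0) (.e (nat_lit 201357) (nat_lit 0) .nil) .nil)))) (.nd (nat_lit 9) 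
(.lf (nat_lit 512403) (.g (nat_lit 2868) (.e (nat_lit 180244) (nat_lit 5) (.e (nat_lit 532523) (nat_lit 7) (.e (nat_lit 319534) (nat_lit 16) (.e (nat_lit 286732) (nat_lit 2) (.e (nat_lit 90165) (nat_lit 12) .nil))))) (.g (nat_lit 0) (.e (nat_lit 200662) (nat_lit 0) .nil) .nil))) 
(.lf (nat_lit 512915) (.g (nat_lit 2418) (.e (nat_lit 180251) (nat_lit 10) (.e (nat_lit 573489) (nat_lit 14) (.e (nat_lit 73755) (nat_lit 8) (.e (nat_lit 557089) (nat_lit 12) (.e (nat_lit 163845) (nat_lit 0) .nil))))) (.g (nat_lit 0) (.e (nat_lit 202507) (nat_lit 0) .nil) .nil)))))) (.nd (nat_lit 7) (.nd (nat_lit 8) (.nd (nat_lit 9) 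
(.lf (nat_lit 512083) (.g (nat_lit 1512) (.e (nat_lit 180242) (nat_lit 5) (.e (nat_lit 532523) (nat_lit 7) (.e (nat_lit 319539) (nat_lit 19) (.e (nat_lit 311312) (nat_lit 2) .nil)))) (.g (nat_lit 0) (.e (nat_lit 199825) (nat_lit 0) .nil) .nil))) 
(.lf (nat_lit 512595) (.g (nat_lit 3663) (.e (nat_lit 180246) (nat_lit 6) (.e (nat_lit 540706) (nat_lit 12) (.e (nat_lit 360475) (nat_lit 8) (.e (nat_lit 557091) (nat_lit 12) (.e (nat_lit 163840) (nat_lit 0) .nil))))) (.g (nat_lit 0) (.e (nat_lit 201041) (nat_lit 0) .nil) .nil)))) (.nd (nat_lit 9) 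
(.lf (nat_lit 512339) (.g (nat_lit 2650) (.e (nat_lit 180244) (nat_lit 5) (.e (nat_lit 532481) (nat_lit 0) (.e (nat_lit 6722) (nat_lit 362) (.e (nat_lit 180244) (nat_lit 5) (.e (nat_lit 532490) (nat_lit 0) (.e (nat_lit 7936) (nat_lit 362) .nil)))))) (.g (nat_lit 1) (.e (nat_lit 200570) (nat_lit 0) .nil) .nil))) 
(.lf (nat_lit 512851) (.g (nat_lit 3257) (.e (nat_lit 180251) (nat_lit 10) (.e (nat_lit 573469) (nat_lit 11) (.e (nat_lit 16448) (nat_lit 10) (.e (nat_lit 434231) (nat_lit 23) (.e (nat_lit 532490) (nat_lit 0) (.e (nat_lit 7936) (nat_lit 362) .nil)))))) (.g (nat_lit 1) (.e (nat_lit 202090) (nat_lit 0) .nil) .nil))))) (.nd (nat_lit 8) (.nd (nat_lit 9) 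
(.lf (nat_lit 512211) (.g (nat_lit 2132) (.e (nat_lit 180243) (nat_lit 5) (.e (nat_lit 532523) (nat_lit 7) (.e (nat_lit 319505) (nat_lit 10) (.e (nat_lit 5714) (nat_lit 312) (.e (nat_lit 2663) (nat_lit 167) .nil))))) (.g (nat_lit 0) (.e (nat_lit 200124) (nat_lit 0) .nil) .nil))) 
(.lf (nat_lit 512723) (.g (nat_lit 1786) (.e (nat_lit 180250) (nat_lit 10) (.e (nat_lit 573482) (nat_lit 13) (.e (nat_lit 65571) (nat_lit 3) (.e (nat_lit 98320) (nat_lit 17) .nil)))) (.g (nat_lit 0) (.e (nat_lit 201627) (nat_lit 0) .nil) .nil)))) (.nd (nat_lit 9) 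
(.lf (nat_lit 512467) (.g (nat_lit 5223) (.e (nat_lit 180244) (nat_lit 5) (.e (nat_lit 532550) (nat_lit 12) (.e (nat_lit 360475) (nat_lit 8) (.e (nat_lit 557091) (nat_lit 12) (.e (nat_lit 163847) (nat_lit 0) (.e (nat_lit 6252) (nat_lit 337) (.e (nat_lit 2641) (nat_lit 165) .nil))))))) (.g (nat_lit 1) (.e (nat_lit 200793) (nat_lit 0) .nil) .nil))) 
(.lf (nat_lit 512979) (.g (nat_lit 3491) (.e (nat_lit 180251) (nat_lit 10) (.e (nat_lit 573489) (nat_lit 14) (.e (nat_lit 73755) (nat_lit 8) (.e (nat_lit 557090) (nat_lit 12) (.e (nat_lit 164004) (nat_lit 41) .nil))))) (.g (nat_lit 0) (.e (nat_lit 202586) (nat_lit 0) .nil) .nil))))))) (.nd (nat_lit 6) (.nd (nat_lit 7) (.nd (nat_lit 8) (.nd (nat_lit 9) 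
(.lf (nat_lit 512051) (.g (nat_lit 5890) (.e (nat_lit 180229) (nat_lit 0) (.e (nat_lit 5548) (nat_lit 306) (.e (nat_lit 2610) (nat_lit 163) (.e (nat_lit 163979) (nat_lit 30) (.e (nat_lit 573493) (nat_lit 15) (.e (nat_lit 81951) (nat_lit 22) (.e (nat_lit 90172) (nat_lit 14) .nil))))))) (.g (nat_lit 1) (.e (nat_lit 199551) (nat_lit 0) .nil) .nil))) 
(.lf (nat_lit 512563) (.g (nat_lit 2073) (.e (nat_lit 180245) (nat_lit 5) (.e (nat_lit 532569) (nat_lit 16) (.e (nat_lit 401446) (nat_lit 10) (.e (nat_lit 434231) (nat_lit 23) .nil)))) (.g (nat_lit 0) (.e (nat_lit 201001) (nat_lit 0) .nil) .nil)))) (.nd (nat_lit 9) 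
(.lf (nat_lit 512307) (.g (nat_lit 4037) (.e (nat_lit 180243) (nat_lit 5) (.e (nat_lit 532550) (nat_lit 12) (.e (nat_lit 360475) (nat_lit 8) (.e (nat_lit 557091) (nat_lit 12) (.e (nat_lit 163850) (nat_lit 0) (.e (nat_lit 6273) (nat_lit 337) (.e (nat_lit 2635) (nat_lit 165) .nil))))))) (.g (nat_lit 1) (.e (nat_lit 200410) (nat_lit 0) .nil) .nil))) 
(.lf (nat_lit 512819) (.g (nat_lit 3350) (.e (nat_lit 180250) (nat_lit 10) (.e (nat_lit 573503) (nat_lit 18) (.e (nat_lit 1348) (nat_lit 102) (.e (nat_lit 286743) (nat_lit 9) (.e (nat_lit 336446) (nat_lit 33) (.e (nat_lit 483072) (nat_lit 5) .nil)))))) (.g (nat_lit 1) (.e (nat_lit 202016) (nat_lit 0) .nil) .nil))))) (.nd (nat_lit 8) (.nd (nat_lit 9) 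
(.lf (nat_lit 512179) (.g (nat_lit 2493) (.e (nat_lit 180243) (nat_lit 5) (.e (nat_lit 532504) (nat_lit 1) (.e (nat_lit 57692) (nat_lit 156) (.e (nat_lit 163874) (nat_lit 3) (.e (nat_lit 204834) (nat_lit 19) .nil))))) (.g (nat_lit 0) (.e (nat_lit 199985) (nat_lit 0) .nil) .nil))) 
(.lf (nat_lit 512691) (.g (nat_lit 4550) (.e (nat_lit 180250) (nat_lit 10) (.e (nat_lit 573473) (nat_lit 12) (.e (nat_lit 57504) (nat_lit 38) (.e (nat_lit 638995) (nat_lit 7) (.e (nat_lit 163978) (nat_lit 30) (.e (nat_lit 573487) (nat_lit 14) (.e (nat_lit 73753) (nat_lit 8) (.e (nat_lit 557103) (nat_lit 14) .nil)))))))) (.g (nat_lit 1) (.e (nat_lit 201425) (nat_lit 0) .nil) .nil)))) 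
(.nd (nat_lit 9) 
(.lf (nat_lit 512435) (.g (nat_lit 4090) (.e (nat_lit 180244) (nat_lit 5) (.e (nat_lit 532549) (nat_lit 12) (.e (nat_lit 360475) (nat_lit 8) (.e (nat_lit 557091) (nat_lit 12) (.e (nat_lit 163844) (nat_lit 0) .nil))))) (.g (nat_lit 0) (.e (nat_lit 200749) (nat_lit 0) .nil) .nil))) 
(.lf (nat_lit 512947) (.g (nat_lit 4050) (.e (nat_lit 180251) (nat_lit 10) (.e (nat_lit 573489) (nat_lit 14) (.e (nat_lit 73755) (nat_lit 8) (.e (nat_lit 557090) (nat_lit 12) (.e (nat_lit 163849) (nat_lit 0) (.e (nat_lit 5934) (nat_lit 322) (.e (nat_lit 57375) (nat_lit 2) (.e (nat_lit 90174) (nat_lit 14) .nil)))))))) (.g (nat_lit 1) (.e (nat_lit 202552) (nat_lit 0) .nil) .nil)))))) 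
(.nd (nat_lit 7) (.nd (nat_lit 8) (.nd (nat_lit 9) 
(.lf (nat_lit 512115) (.g (nat_lit 3640) (.e (nat_lit 180242) (nat_lit 5) (.e (nat_lit 532550) (nat_lit 12) (.e (nat_lit 360475) (nat_lit 8) (.e (nat_lit 557091) (nat_lit 12) (.e (nat_lit 164016) (nat_lit 44) .nil))))) (.g (nat_lit 0) (.e (nat_lit 199875) (nat_lit 0) .nil) .nil))) 
(.lf (nat_lit 512627) (.g (nat_lit 2921) (.e (nat_lit 180250) (nat_lit 10) (.e (nat_lit 573456) (nat_lit 9) (.e (nat_lit 1669) (nat_lit 116) (.e (nat_lit 401459) (nat_lit 13) (.e (nat_lit 483363) (nat_lit 18) (.e (nat_lit 57652) (nat_lit 152) (.e (nat_lit 2635) (nat_lit 165) .nil))))))) (.g (nat_lit 1) (.e (nat_lit 201301) (nat_lit 0) .nil) .nil)))) (.nd (nat_lit 9) 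
(.lf (nat_lit 512371) (.g (nat_lit 2618) (.e (nat_lit 180244) (nat_lit 5) (.e (nat_lit 532523) (nat_lit 7) (.e (nat_lit 319505) (nat_lit 10) (.e (nat_lit 5714) (nat_lit 312) (.e (nat_lit 2664) (nat_lit 167) (.e (nat_lit 196677) (nat_lit 16) (.e (nat_lit 130816) (nat_lit 206) .nil))))))) (.g (nat_lit 1) (.e (nat_lit 200622) (nat_lit 0) .nil) .nil))) 
(.lf (nat_lit 512883) (.g (nat_lit 271) (.e (nat_lit 180251) (nat_lit 10) (.e (nat_lit 573489) (nat_lit 14) (.e (nat_lit 73754) (nat_lit 8) .nil))) (.g (nat_lit 0) (.e (nat_lit 202405) (nat_lit 0) .nil) .nil))))) (.nd (nat_lit 8) (.nd (nat_lit 9) 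
(.lf (nat_lit 512243) (.g (nat_lit 3807) (.e (nat_lit 180243) (nat_lit 5) (.e (nat_lit 532535) (nat_lit 9) (.e (nat_lit 336176) (nat_lit 10) (.e (nat_lit 344132) (nat_lit 26) .nil)))) (.g (nat_lit 0) (.e (nat_lit 200279) (nat_lit 0) .nil) .nil))) 
(.lf (nat_lit 512755) (.g (nat_lit 2853) (.e (nat_lit 180250) (nat_lit 10) (.e (nat_lit 573489) (nat_lit 14) (.e (nat_lit 73754) (nat_lit 8) (.e (nat_lit 557091) (nat_lit 12) (.e (nat_lit 164006) (nat_lit 41) .nil))))) (.g (nat_lit 0) (.e (nat_lit 201854) (nat_lit 0) .nil) .nil)))) (.nd (nat_lit 9) 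
(.lf (nat_lit 512499) (.g (nat_lit 1296) (.e (nat_lit 180245) (nat_lit 5) (.e (nat_lit 532515) (nat_lit 3) (.e (nat_lit 114716) (nat_lit 22) (.e (nat_lit 90155) (nat_lit 10) .nil)))) (.g (nat_lit 0) (.e (nat_lit 200889) (nat_lit 0) .nil) .nil))) 
(.lf (nat_lit 513011) (.g (nat_lit 2482) (.e (nat_lit 180251) (nat_lit 10) (.e (nat_lit 573489) (nat_lit 14) (.e (nat_lit 73755) (nat_lit 8) (.e (nat_lit 557091) (nat_lit 12) (.e (nat_lit 163852) (nat_lit 0) (.e (nat_lit 5946) (nat_lit 322) (.e (nat_lit 57371) (nat_lit 2) (.e (nat_lit 90174) (nat_lit 14) .nil)))))))) (.g (nat_lit 1) (.e (nat_lit 202657) (nat_lit 0) .nil) .nil))))))))) 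
(.nd (nat_lit 4) (.nd (nat_lit 5) (.nd (nat_lit 6) (.nd (nat_lit 7) (.nd (nat_lit 8) 
(.nd (nat_lit 9) 
(.lf (nat_lit 512011) (.g (nat_lit 1815) (.e (nat_lit 179968) (nat_lit 34) (.e (nat_lit 393283) (nat_lit 24) (.e (nat_lit 434232) (nat_lit 23) (.e (nat_lit 532503) (nat_lit 1) (.e (nat_lit 57651) (nat_lit 152) .nil))))) (.g (nat_lit 0) (.e (nat_lit 198759) (nat_lit 0) .nil) .nil))) 
(.lf (nat_lit 512523) (.g (nat_lit 1085) (.e (nat_lit 180245) (nat_lit 5) (.e (nat_lit 532523) (nat_lit 7) (.e (nat_lit 319528) (nat_lit 16) (.e (nat_lit 286735) (nat_lit 3) .nil)))) (.g (nat_lit 0) (.e (nat_lit 200929) (nat_lit 0) .nil) .nil)))) (.nd (nat_lit 9) 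
(.lf (nat_lit 512267) (.g (nat_lit 1899) (.e (nat_lit 180243) (nat_lit 5) (.e (nat_lit 532549) (nat_lit 12) (.e (nat_lit 360475) (nat_lit 8) (.e (nat_lit 557089) (nat_lit 12) .nil)))) (.g (nat_lit 0) (.e (nat_lit 200354) (nat_lit 0) .nil) .nil))) 
(.lf (nat_lit 512779) (.g (nat_lit 3124) (.e (nat_lit 180250) (nat_lit 10) (.e (nat_lit 573489) (nat_lit 14) (.e (nat_lit 73755) (nat_lit 8) (.e (nat_lit 557090) (nat_lit 12) (.e (nat_lit 163847) (nat_lit 0) .nil))))) (.g (nat_lit 0) (.e (nat_lit 201922) (nat_lit 0) .nil) .nil))))) (.nd (nat_lit 8) (.nd (nat_lit 9) 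
(.lf (nat_lit 512139) (.g (nat_lit 2272) (.e (nat_lit 180243) (nat_lit 5) (.e (nat_lit 532482) (nat_lit 0) (.e (nat_lit 6724) (nat_lit 362) (.e (nat_lit 180243) (nat_lit 5) (.e (nat_lit 532489) (nat_lit 0) (.e (nat_lit 7936) (nat_lit 362) .nil)))))) (.g (nat_lit 1) (.e (nat_lit 199907) (nat_lit 0) .nil) .nil))) 
(.lf (nat_lit 512651) (.g (nat_lit 3666) (.e (nat_lit 180250) (nat_lit 10) (.e (nat_lit 573469) (nat_lit 11) (.e (nat_lit 16448) (nat_lit 10) (.e (nat_lit 434231) (nat_lit 23) (.e (nat_lit 532481) (nat_lit 0) (.e (nat_lit 6724) (nat_lit 362) .nil)))))) (.g (nat_lit 1) (.e (nat_lit 201336) (nat_lit 0) .nil) .nil)))) (.nd (nat_lit 9) 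
(.lf (nat_lit 512395) (.g (nat_lit 826) (.e (nat_lit 180244) (nat_lit 5) (.e (nat_lit 532523) (nat_lit 7) (.e (nat_lit 319533) (nat_lit 16) (.e (nat_lit 286734) (nat_lit 3) .nil)))) (.g (nat_lit 0) (.e (nat_lit 200652) (nat_lit 0) .nil) .nil))) 
(.lf (nat_lit 512907) (.g (nat_lit 2682) (.e (nat_lit 180251) (nat_lit 10) (.e (nat_lit 573489) (nat_lit 14) (.e (nat_lit 73755) (nat_lit 8) (.e (nat_lit 557078) (nat_lit 9) .nil)))) (.g (nat_lit 0) (.e (nat_lit 202464) (nat_lit 0) .nil) .nil)))))) (.nd (nat_lit 7) (.nd (nat_lit 8) (.nd (nat_lit 9) 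
(.lf (nat_lit 512075) (.g (nat_lit 1764) (.e (nat_lit 180242) (nat_lit 5) (.e (nat_lit 532490) (nat_lit 0) (.e (nat_lit 6114) (nat_lit 332) (.e (nat_lit 1378) (nat_lit 104) .nil)))) (.g (nat_lit 0) (.e (nat_lit 199810) (nat_lit 0) .nil) .nil))) 
(.lf (nat_lit 512587) (.g (nat_lit 3270) (.e (nat_lit 180246) (nat_lit 6) (.e (nat_lit 540706) (nat_lit 12) (.e (nat_lit 360475) (nat_lit 8) (.e (nat_lit 557089) (nat_lit 12) (.e (nat_lit 163843) (nat_lit 0) .nil))))) (.g (nat_lit 0) (.e (nat_lit 201032) (nat_lit 0) .nil) .nil)))) (.nd (nat_lit 9) 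
(.lf (nat_lit 512331) (.g (nat_lit 3232) (.e (nat_lit 180243) (nat_lit 5) (.e (nat_lit 532569) (nat_lit 16) (.e (nat_lit 401448) (nat_lit 10) (.e (nat_lit 434231) (nat_lit 23) (.e (nat_lit 532483) (nat_lit 0) .nil))))) (.g (nat_lit 0) (.e (nat_lit 200537) (nat_lit 0) .nil) .nil))) 
(.lf (nat_lit 512843) (.g (nat_lit 2499) (.e (nat_lit 180251) (nat_lit 10) (.e (nat_lit 573456) (nat_lit 9) (.e (nat_lit 1669) (nat_lit 116) (.e (nat_lit 401459) (nat_lit 13) (.e (nat_lit 483364) (nat_lit 18) (.e (nat_lit 57668) (nat_lit 152) (.e (nat_lit 2637) (nat_lit 165) .nil))))))) (.g (nat_lit 1) (.e (nat_lit 202071) (nat_lit 0) .nil) .nil))))) (.nd (nat_lit 8) (.nd (nat_lit 9) 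
(.lf (nat_lit 512203) (.g (nat_lit 730) (.e (nat_lit 180243) (nat_lit 5) (.e (nat_lit 532522) (nat_lit 7) (.e (nat_lit 319530) (nat_lit 16) .nil))) (.g (nat_lit 0) (.e (nat_lit 200114) (nat_lit 0) .nil) .nil))) 
(.lf (nat_lit 512715) (.g (nat_lit 3163) (.e (nat_lit 180250) (nat_lit 10) (.e (nat_lit 573477) (nat_lit 12) (.e (nat_lit 57502) (nat_lit 38) (.e (nat_lit 638995) (nat_lit 7) (.e (nat_lit 163979) (nat_lit 30) (.e (nat_lit 573489) (nat_lit 14) (.e (nat_lit 73755) (nat_lit 8) (.e (nat_lit 557104) (nat_lit 14) .nil)))))))) (.g (nat_lit 1) (.e (nat_lit 201497) (nat_lit 0) .nil) .nil)))) 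
(.nd (nat_lit 9) 
(.lf (nat_lit 512459) (.g (nat_lit 3763) (.e (nat_lit 180244) (nat_lit 5) (.e (nat_lit 532550) (nat_lit 12) (.e (nat_lit 360475) (nat_lit 8) (.e (nat_lit 557089) (nat_lit 12) (.e (nat_lit 164019) (nat_lit 45) .nil))))) (.g (nat_lit 0) (.e (nat_lit 200783) (nat_lit 0) .nil) .nil))) 
(.lf (nat_lit 512971) (.g (nat_lit 3932) (.e (nat_lit 180251) (nat_lit 10) (.e (nat_lit 573489) (nat_lit 14) (.e (nat_lit 73755) (nat_lit 8) (.e (nat_lit 557090) (nat_lit 12) (.e (nat_lit 163855) (nat_lit 0) (.e (nat_lit 5944) (nat_lit 322) (.e (nat_lit 57371) (nat_lit 2) (.e (nat_lit 90174) (nat_lit 14) .nil)))))))) (.g (nat_lit 1) (.e (nat_lit 202576) (nat_lit 0) .nil) .nil))))))) 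
(.nd (nat_lit 6) (.nd (nat_lit 7) (.nd (nat_lit 8) (.nd (nat_lit 9) 
(.lf (nat_lit 512043) (.g (nat_lit 673) (.e (nat_lit 180227) (nat_lit 0) (.e (nat_lit 4527) (nat_lit 265) (.e (nat_lit 57375) (nat_lit 2) (.e (nat_lit 90160) (nat_lit 11) .nil)))) (.g (nat_lit 0) (.e (nat_lit 199198) (nat_lit 0) .nil) .nil))) 
(.lf (nat_lit 512555) (.g (nat_lit 7098) (.e (nat_lit 180245) (nat_lit 5) (.e (nat_lit 532550) (nat_lit 12) (.e (nat_lit 360475) (nat_lit 8) (.e (nat_lit 557090) (nat_lit 12) .nil)))) (.g (nat_lit 0) (.e (nat_lit 200983) (nat_lit 0) .nil) .nil)))) (.nd (nat_lit 9) 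
(.lf (nat_lit 512299) (.g (nat_lit 3552) (.e (nat_lit 180243) (nat_lit 5) (.e (nat_lit 532550) (nat_lit 12) (.e (nat_lit 360475) (nat_lit 8) (.e (nat_lit 557089) (nat_lit 12) (.e (nat_lit 163850) (nat_lit 0) (.e (nat_lit 6273) (nat_lit 337) (.e (nat_lit 2635) (nat_lit 165) .nil))))))) (.g (nat_lit 1) (.e (nat_lit 200402) (nat_lit 0) .nil) .nil))) 
(.lf (nat_lit 512811) (.g (nat_lit 2361) (.e (nat_lit 180250) (nat_lit 10) (.e (nat_lit 573489) (nat_lit 14) (.e (nat_lit 73755) (nat_lit 8) (.e (nat_lit 557091) (nat_lit 12) (.e (nat_lit 164005) (nat_lit 41) .nil))))) (.g (nat_lit 0) (.e (nat_lit 201991) (nat_lit 0) .nil) .nil))))) (.nd (nat_lit 8) (.nd (nat_lit 9) 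
(.lf (nat_lit 512171) (.g (nat_lit 3145) (.e (nat_lit 180243) (nat_lit 5) (.e (nat_lit 532503) (nat_lit 1) (.e (nat_lit 57692) (nat_lit 156) (.e (nat_lit 163874) (nat_lit 3) (.e (nat_lit 204837) (nat_lit 20) (.e (nat_lit 114716) (nat_lit 22) (.e (nat_lit 90174) (nat_lit 14) .nil))))))) (.g (nat_lit 1) (.e (nat_lit 199970) (nat_lit 0) .nil) .nil))) 
(.lf (nat_lit 512683) (.g (nat_lit 2013) (.e (nat_lit 180250) (nat_lit 10) (.e (nat_lit 573471) (nat_lit 11) (.e (nat_lit 16448) (nat_lit 10) (.e (nat_lit 434234) (nat_lit 23) .nil)))) (.g (nat_lit 0) (.e (nat_lit 201406) (nat_lit 0) .nil) .nil)))) (.nd (nat_lit 9) 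
(.lf (nat_lit 512427) (.g (nat_lit 2463) (.e (nat_lit 180244) (nat_lit 5) (.e (nat_lit 532549) (nat_lit 12) (.e (nat_lit 360475) (nat_lit 8) (.e (nat_lit 557089) (nat_lit 12) .nil)))) (.g (nat_lit 0) (.e (nat_lit 200740) (nat_lit 0) .nil) .nil))) 
(.lf (nat_lit 512939) (.g (nat_lit 4001) (.e (nat_lit 180251) (nat_lit 10) (.e (nat_lit 573489) (nat_lit 14) (.e (nat_lit 73755) (nat_lit 8) (.e (nat_lit 557090) (nat_lit 12) (.e (nat_lit 163845) (nat_lit 0) (.e (nat_lit 5942) (nat_lit 322) (.e (nat_lit 57375) (nat_lit 2) (.e (nat_lit 90174) (nat_lit 14) .nil)))))))) (.g (nat_lit 1) (.e (nat_lit 202544) (nat_lit 0) .nil) .nil)))))) 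
(.nd (nat_lit 7) (.nd (nat_lit 8) (.nd (nat_lit 9) 
(.lf (nat_lit 512107) (.g (nat_lit 6328) (.e (nat_lit 180242) (nat_lit 5) (.e (nat_lit 532550) (nat_lit 12) (.e (nat_lit 360475) (nat_lit 8) (.e (nat_lit 557090) (nat_lit 12) .nil)))) (.g (nat_lit 0) (.e (nat_lit 199867) (nat_lit 0) .nil) .nil))) 
(.lf (nat_lit 512619) (.g (nat_lit 2159) (.e (nat_lit 180249) (nat_lit 10) (.e (nat_lit 573471) (nat_lit 11) (.e (nat_lit 16448) (nat_lit 10) (.e (nat_lit 434231) (nat_lit 23) .nil)))) (.g (nat_lit 0) (.e (nat_lit 201199) (nat_lit 0) .nil) .nil)))) (.nd (nat_lit 9) 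
(.lf (nat_lit 512363) (.g (nat_lit 2614) (.e (nat_lit 180244) (nat_lit 5) (.e (nat_lit 532522) (nat_lit 7) (.e (nat_lit 319530) (nat_lit 16) (.e (nat_lit 286735) (nat_lit 3) (.e (nat_lit 98325) (nat_lit 17) (.e (nat_lit 7936) (nat_lit 393) .nil)))))) (.g (nat_lit 1) (.e (nat_lit 200609) (nat_lit 0) .nil) .nil))) 
(.lf (nat_lit 512875) (.g (nat_lit 1152) (.e (nat_lit 180251) (nat_lit 10) (.e (nat_lit 573485) (nat_lit 13) (.e (nat_lit 65571) (nat_lit 3) (.e (nat_lit 106240) (nat_lit 7) .nil)))) (.g (nat_lit 0) (.e (nat_lit 202346) (nat_lit 0) .nil) .nil))))) (.nd (nat_lit 8) (.nd (nat_lit 9) 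
(.lf (nat_lit 512235) (.g (nat_lit 3099) (.e (nat_lit 180243) (nat_lit 5) (.e (nat_lit 532523) (nat_lit 7) (.e (nat_lit 319534) (nat_lit 16) (.e (nat_lit 286734) (nat_lit 3) (.e (nat_lit 98323) (nat_lit 17) .nil))))) (.g (nat_lit 0) (.e (nat_lit 200154) (nat_lit 0) .nil) .nil))) 
(.lf (nat_lit 512747) (.g (nat_lit 3577) (.e (nat_lit 180250) (nat_lit 10) (.e (nat_lit 573488) (nat_lit 14) (.e (nat_lit 73755) (nat_lit 8) (.e (nat_lit 557091) (nat_lit 12) (.e (nat_lit 163844) (nat_lit 0) .nil))))) (.g (nat_lit 0) (.e (nat_lit 201837) (nat_lit 0) .nil) .nil)))) (.nd (nat_lit 9) 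
(.lf (nat_lit 512491) (.g (nat_lit 3224) (.e (nat_lit 180244) (nat_lit 5) (.e (nat_lit 532569) (nat_lit 16) (.e (nat_lit 401448) (nat_lit 10) (.e (nat_lit 434231) (nat_lit 23) (.e (nat_lit 532483) (nat_lit 0) .nil))))) (.g (nat_lit 0) (.e (nat_lit 200852) (nat_lit 0) .nil) .nil))) 
(.lf (nat_lit 513003) (.g (nat_lit 2432) (.e (nat_lit 180251) (nat_lit 10) (.e (nat_lit 573489) (nat_lit 14) (.e (nat_lit 73755) (nat_lit 8) (.e (nat_lit 557091) (nat_lit 12) (.e (nat_lit 163845) (nat_lit 0) (.e (nat_lit 5941) (nat_lit 322) (.e (nat_lit 57371) (nat_lit 2) (.e (nat_lit 90174) (nat_lit 14) .nil)))))))) (.g (nat_lit 1) (.e (nat_lit 202649) (nat_lit 0) .nil) .nil)))))))) 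
(.nd (nat_lit 5) (.nd (nat_lit 6) (.nd (nat_lit 7) (.nd (nat_lit 8) (.nd (nat_lit 9) 
(.lf (nat_lit 512027) (.g (nat_lit 1412) (.e (nat_lit 179968) (nat_lit 34) (.e (nat_lit 393301) (nat_lit 27) (.e (nat_lit 491539) (nat_lit 3) (.e (nat_lit 98333) (nat_lit 18) .nil)))) (.g (nat_lit 0) (.e (nat_lit 198775) (nat_lit 0) .nil) .nil))) 
(.lf (nat_lit 512539) (.g (nat_lit 3070) (.e (nat_lit 180245) (nat_lit 5) (.e (nat_lit 532523) (nat_lit 7) (.e (nat_lit 319534) (nat_lit 16) (.e (nat_lit 286734) (nat_lit 3) (.e (nat_lit 98323) (nat_lit 17) .nil))))) (.g (nat_lit 0) (.e (nat_lit 200947) (nat_lit 0) .nil) .nil)))) (.nd (nat_lit 9) 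
(.lf (nat_lit 512283) (.g (nat_lit 4177) (.e (nat_lit 180243) (nat_lit 5) (.e (nat_lit 532549) (nat_lit 12) (.e (nat_lit 360475) (nat_lit 8) (.e (nat_lit 557091) (nat_lit 12) (.e (nat_lit 163849) (nat_lit 0) (.e (nat_lit 6255) (nat_lit 337) (.e (nat_lit 2643) (nat_lit 165) .nil))))))) (.g (nat_lit 1) (.e (nat_lit 200374) (nat_lit 0) .nil) .nil))) 
(.lf (nat_lit 512795) (.g (nat_lit 3566) (.e (nat_lit 180250) (nat_lit 10) (.e (nat_lit 573489) (nat_lit 14) (.e (nat_lit 73755) (nat_lit 8) (.e (nat_lit 557090) (nat_lit 12) (.e (nat_lit 163854) (nat_lit 0) (.e (nat_lit 5950) (nat_lit 322) (.e (nat_lit 57373) (nat_lit 2) (.e (nat_lit 90174) (nat_lit 14) .nil)))))))) (.g (nat_lit 1) (.e (nat_lit 201938) (nat_lit 0) .nil) .nil))))) 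
(.nd (nat_lit 8) (.nd (nat_lit 9) 
(.lf (nat_lit 512155) (.g (nat_lit 2811) (.e (nat_lit 180243) (nat_lit 5) (.e (nat_lit 532501) (nat_lit 1) (.e (nat_lit 57690) (nat_lit 156) (.e (nat_lit 163874) (nat_lit 3) (.e (nat_lit 204836) (nat_lit 20) (.e (nat_lit 114716) (nat_lit 22) (.e (nat_lit 90174) (nat_lit 14) .nil))))))) (.g (nat_lit 1) (.e (nat_lit 199945) (nat_lit 0) .nil) .nil))) 
(.lf (nat_lit 512667) (.g (nat_lit 437) (.e (nat_lit 180250) (nat_lit 10) (.e (nat_lit 573471) (nat_lit 11) (.e (nat_lit 16446) (nat_lit 9) .nil))) (.g (nat_lit 0) (.e (nat_lit 201381) (nat_lit 0) .nil) .nil)))) (.nd (nat_lit 9) 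
(.lf (nat_lit 512411) (.g (nat_lit 3506) (.e (nat_lit 180244) (nat_lit 5) (.e (nat_lit 532523) (nat_lit 7) (.e (nat_lit 319534) (nat_lit 16) (.e (nat_lit 286735) (nat_lit 3) (.e (nat_lit 98325) (nat_lit 17) (.e (nat_lit 7936) (nat_lit 393) .nil)))))) (.g (nat_lit 1) (.e (nat_lit 200670) (nat_lit 0) .nil) .nil))) 
(.lf (nat_lit 512923) (.g (nat_lit 2252) (.e (nat_lit 180251) (nat_lit 10) (.e (nat_lit 573489) (nat_lit 14) (.e (nat_lit 73755) (nat_lit 8) (.e (nat_lit 557089) (nat_lit 12) (.e (nat_lit 164010) (nat_lit 41) .nil))))) (.g (nat_lit 0) (.e (nat_lit 202519) (nat_lit 0) .nil) .nil)))))) (.nd (nat_lit 7) (.nd (nat_lit 8) (.nd (nat_lit 9) 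
(.lf (nat_lit 512091) (.g (nat_lit 5337) (.e (nat_lit 180242) (nat_lit 5) (.e (nat_lit 532550) (nat_lit 12) (.e (nat_lit 360474) (nat_lit 8) (.e (nat_lit 557089) (nat_lit 12) .nil)))) (.g (nat_lit 0) (.e (nat_lit 199847) (nat_lit 0) .nil) .nil))) 
(.lf (nat_lit 512603) (.g (nat_lit 2049) (.e (nat_lit 188160) (nat_lit 6) (.e (nat_lit 540706) (nat_lit 12) (.e (nat_lit 360474) (nat_lit 8) (.e (nat_lit 557091) (nat_lit 12) .nil)))) (.g (nat_lit 0) (.e (nat_lit 201051) (nat_lit 0) .nil) .nil)))) (.nd (nat_lit 9) 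
(.lf (nat_lit 512347) (.g (nat_lit 2363) (.e (nat_lit 180244) (nat_lit 5) (.e (nat_lit 532501) (nat_lit 1) (.e (nat_lit 57685) (nat_lit 156) (.e (nat_lit 163843) (nat_lit 0) (.e (nat_lit 3248) (nat_lit 197) (.e (nat_lit 532515) (nat_lit 3) (.e (nat_lit 114716) (nat_lit 22) (.e (nat_lit 90172) (nat_lit 14) .nil)))))))) (.g (nat_lit 1) (.e (nat_lit 200582) (nat_lit 0) .nil) .nil))) 
(.lf (nat_lit 512859) (.g (nat_lit 3348) (.e (nat_lit 180251) (nat_lit 10) (.e (nat_lit 573471) (nat_lit 11) (.e (nat_lit 16448) (nat_lit 10) (.e (nat_lit 434231) (nat_lit 23) (.e (nat_lit 532490) (nat_lit 0) (.e (nat_lit 7936) (nat_lit 362) .nil)))))) (.g (nat_lit 1) (.e (nat_lit 202105) (nat_lit 0) .nil) .nil))))) (.nd (nat_lit 8) (.nd (nat_lit 9) 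
(.lf (nat_lit 512219) (.g (nat_lit 3446) (.e (nat_lit 180243) (nat_lit 5) (.e (nat_lit 532523) (nat_lit 7) (.e (nat_lit 319539) (nat_lit 19) (.e (nat_lit 311312) (nat_lit 2) (.e (nat_lit 196661) (nat_lit 12) (.e (nat_lit 65280) (nat_lit 206) .nil)))))) (.g (nat_lit 1) (.e (nat_lit 200137) (nat_lit 0) .nil) .nil))) 
(.lf (nat_lit 512731) (.g (nat_lit 3148) (.e (nat_lit 180250) (nat_lit 10) (.e (nat_lit 573487) (nat_lit 14) (.e (nat_lit 73753) (nat_lit 8) (.e (nat_lit 557090) (nat_lit 12) (.e (nat_lit 163840) (nat_lit 0) (.e (nat_lit 5943) (nat_lit 322) (.e (nat_lit 57375) (nat_lit 2) (.e (nat_lit 90172) (nat_lit 14) .nil)))))))) (.g (nat_lit 1) (.e (nat_lit 201789) (nat_lit 0) .nil) .nil)))) (.nd (nat_lit 9) 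
(.lf (nat_lit 512475) (.g (nat_lit 4878) (.e (nat_lit 180244) (nat_lit 5) (.e (nat_lit 532550) (nat_lit 12) (.e (nat_lit 360475) (nat_lit 8) (.e (nat_lit 557092) (nat_lit 12) .nil)))) (.g (nat_lit 0) (.e (nat_lit 200801) (nat_lit 0) .nil) .nil))) 
(.lf (nat_lit 512987) (.g (nat_lit 1881) (.e (nat_lit 180251) (nat_lit 10) (.e (nat_lit 573489) (nat_lit 14) (.e (nat_lit 73755) (nat_lit 8) (.e (nat_lit 557091) (nat_lit 12) (.e (nat_lit 163840) (nat_lit 0) .nil))))) (.g (nat_lit 0) (.e (nat_lit 202633) (nat_lit 0) .nil) .nil))))))) (.nd (nat_lit 6) (.nd (nat_lit 7) (.nd (nat_lit 8) (.nd (nat_lit 9) 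
(.lf (nat_lit 512059) (.g (nat_lit 5268) (.e (nat_lit 180232) (nat_lit 0) (.e (nat_lit 5448) (nat_lit 306) (.e (nat_lit 2612) (nat_lit 163) (.e (nat_lit 163979) (nat_lit 30) (.e (nat_lit 573493) (nat_lit 15) (.e (nat_lit 81953) (nat_lit 22) (.e (nat_lit 90174) (nat_lit 14) .nil))))))) (.g (nat_lit 1) (.e (nat_lit 199634) (nat_lit 0) .nil) .nil))) 
(.lf (nat_lit 512571) (.g (nat_lit 2326) (.e (nat_lit 180245) (nat_lit 5) (.e (nat_lit 532569) (nat_lit 16) (.e (nat_lit 401448) (nat_lit 10) (.e (nat_lit 434232) (nat_lit 23) .nil)))) (.g (nat_lit 0) (.e (nat_lit 201009) (nat_lit 0) .nil) .nil)))) (.nd (nat_lit 9) 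
(.lf (nat_lit 512315) (.g (nat_lit 1889) (.e (nat_lit 180243) (nat_lit 5) (.e (nat_lit 532568) (nat_lit 16) (.e (nat_lit 401446) (nat_lit 10) (.e (nat_lit 434231) (nat_lit 23) (.e (nat_lit 532482) (nat_lit 0) .nil))))) (.g (nat_lit 0) (.e (nat_lit 200514) (nat_lit 0) .nil) .nil))) 
(.lf (nat_lit 512827) (.g (nat_lit 1897) (.e (nat_lit 180251) (nat_lit 10) (.e (nat_lit 573456) (nat_lit 9) (.e (nat_lit 1669) (nat_lit 116) (.e (nat_lit 401459) (nat_lit 13) (.e (nat_lit 483363) (nat_lit 18) .nil))))) (.g (nat_lit 0) (.e (nat_lit 202055) (nat_lit 0) .nil) .nil))))) (.nd (nat_lit 8) (.nd (nat_lit 9) 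
(.lf (nat_lit 512187) (.g (nat_lit 1911) (.e (nat_lit 180243) (nat_lit 5) (.e (nat_lit 532513) (nat_lit 3) (.e (nat_lit 114714) (nat_lit 22) (.e (nat_lit 90165) (nat_lit 12) (.e (nat_lit 163840) (nat_lit 0) .nil))))) (.g (nat_lit 0) (.e (nat_lit 200052) (nat_lit 0) .nil) .nil))) 
(.lf (nat_lit 512699) (.g (nat_lit 960) (.e (nat_lit 180250) (nat_lit 10) (.e (nat_lit 573474) (nat_lit 12) (.e (nat_lit 57504) (nat_lit 38) .nil))) (.g (nat_lit 0) (.e (nat_lit 201435) (nat_lit 0) .nil) .nil)))) (.nd (nat_lit 9) 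
(.lf (nat_lit 512443) (.g (nat_lit 3114) (.e (nat_lit 180244) (nat_lit 5) (.e (nat_lit 532550) (nat_lit 12) (.e (nat_lit 360474) (nat_lit 8) (.e (nat_lit 557088) (nat_lit 12) .nil)))) (.g (nat_lit 0) (.e (nat_lit 200761) (nat_lit 0) .nil) .nil))) 
(.lf (nat_lit 512955) (.g (nat_lit 4310) (.e (nat_lit 180251) (nat_lit 10) (.e (nat_lit 573489) (nat_lit 14) (.e (nat_lit 73755) (nat_lit 8) (.e (nat_lit 557090) (nat_lit 12) (.e (nat_lit 163851) (nat_lit 0) (.e (nat_lit 5936) (nat_lit 322) (.e (nat_lit 57373) (nat_lit 2) (.e (nat_lit 90174) (nat_lit 14) .nil)))))))) (.g (nat_lit 1) (.e (nat_lit 202560) (nat_lit 0) .nil) .nil)))))) 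
(.nd (nat_lit 7) (.nd (nat_lit 8) (.nd (nat_lit 9) 
(.lf (nat_lit 512123) (.g (nat_lit 2504) (.e (nat_lit 180242) (nat_lit 5) (.e (nat_lit 532569) (nat_lit 16) (.e (nat_lit 401448) (nat_lit 10) (.e (nat_lit 434227) (nat_lit 20) (.e (nat_lit 507929) (nat_lit 10) .nil))))) (.g (nat_lit 0) (.e (nat_lit 199886) (nat_lit 0) .nil) .nil))) 
(.lf (nat_lit 512635) (.g (nat_lit 3093) (.e (nat_lit 180250) (nat_lit 10) (.e (nat_lit 573456) (nat_lit 9) (.e (nat_lit 1669) (nat_lit 116) (.e (nat_lit 401459) (nat_lit 13) (.e (nat_lit 483363) (nat_lit 18) (.e (nat_lit 57659) (nat_lit 152) (.e (nat_lit 2641) (nat_lit 165) .nil))))))) (.g (nat_lit 1) (.e (nat_lit 201309) (nat_lit 0) .nil) .nil)))) (.nd (nat_lit 9) 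
(.lf (nat_lit 512379) (.g (nat_lit 846) (.e (nat_lit 180244) (nat_lit 5) (.e (nat_lit 532523) (nat_lit 7) (.e (nat_lit 319539) (nat_lit 19) .nil))) (.g (nat_lit 0) (.e (nat_lit 200634) (nat_lit 0) .nil) .nil))) 
(.lf (nat_lit 512891) (.g (nat_lit 2682) (.e (nat_lit 180251) (nat_lit 10) (.e (nat_lit 573489) (nat_lit 14) (.e (nat_lit 73755) (nat_lit 8) (.e (nat_lit 557064) (nat_lit 9) .nil)))) (.g (nat_lit 0) (.e (nat_lit 202439) (nat_lit 0) .nil) .nil))))) (.nd (nat_lit 8) (.nd (nat_lit 9) 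
(.lf (nat_lit 512251) (.g (nat_lit 2719) (.e (nat_lit 180243) (nat_lit 5) (.e (nat_lit 532549) (nat_lit 12) (.e (nat_lit 360473) (nat_lit 8) (.e (nat_lit 557091) (nat_lit 12) (.e (nat_lit 163844) (nat_lit 0) .nil))))) (.g (nat_lit 0) (.e (nat_lit 200330) (nat_lit 0) .nil) .nil))) 
(.lf (nat_lit 512763) (.g (nat_lit 2654) (.e (nat_lit 180250) (nat_lit 10) (.e (nat_lit 573489) (nat_lit 14) (.e (nat_lit 73755) (nat_lit 8) (.e (nat_lit 557069) (nat_lit 9) .nil)))) (.g (nat_lit 0) (.e (nat_lit 201880) (nat_lit 0) .nil) .nil)))) (.nd (nat_lit 9) 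
(.lf (nat_lit 512507) (.g (nat_lit 659) (.e (nat_lit 180245) (nat_lit 5) (.e (nat_lit 532522) (nat_lit 7) (.e (nat_lit 319538) (nat_lit 19) .nil))) (.g (nat_lit 0) (.e (nat_lit 200906) (nat_lit 0) .nil) .nil))) 
(.lf (nat_lit 513019) (.g (nat_lit 2682) (.e (nat_lit 180251) (nat_lit 10) (.e (nat_lit 573489) (nat_lit 14) (.e (nat_lit 73755) (nat_lit 8) (.e (nat_lit 557110) (nat_lit 16) .nil)))) (.g (nat_lit 0) (.e (nat_lit 202722) (nat_lit 0) .nil) .nil)))))))))) (.nd (nat_lit 3) (.nd (nat_lit 4) (.nd (nat_lit 5) (.nd (nat_lit 6) (.nd (nat_lit 7) (.nd (nat_lit 8) (.nd (nat_lit 9) 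
(.lf (nat_lit 512007) (.g (nat_lit 2199) (.e (nat_lit 179968) (nat_lit 34) (.e (nat_lit 393273) (nat_lit 23) (.e (nat_lit 426131) (nat_lit 3) (.e (nat_lit 204830) (nat_lit 18) (.e (nat_lit 57651) (nat_lit 152) .nil))))) (.g (nat_lit 0) (.e (nat_lit 198755) (nat_lit 0) .nil) .nil))) 
(.lf (nat_lit 512519) (.g (nat_lit 1713) (.e (nat_lit 180245) (nat_lit 5) (.e (nat_lit 532523) (nat_lit 7) (.e (nat_lit 319538) (nat_lit 19) (.e (nat_lit 311312) (nat_lit 2) .nil)))) (.g (nat_lit 0) (.e (nat_lit 200925) (nat_lit 0) .nil) .nil)))) (.nd (nat_lit 9) 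
(.lf (nat_lit 512263) (.g (nat_lit 2408) (.e (nat_lit 180243) (nat_lit 5) (.e (nat_lit 532549) (nat_lit 12) (.e (nat_lit 360474) (nat_lit 8) (.e (nat_lit 557089) (nat_lit 12) .nil)))) (.g (nat_lit 0) (.e (nat_lit 200348) (nat_lit 0) .nil) .nil))) 
(.lf (nat_lit 512775) (.g (nat_lit 3252) (.e (nat_lit 180250) (nat_lit 10) (.e (nat_lit 573489) (nat_lit 14) (.e (nat_lit 73755) (nat_lit 8) (.e (nat_lit 557090) (nat_lit 12) (.e (nat_lit 163845) (nat_lit 0) (.e (nat_lit 5941) (nat_lit 322) (.e (nat_lit 57371) (nat_lit 2) (.e (nat_lit 90174) (nat_lit 14) .nil)))))))) (.g (nat_lit 1) (.e (nat_lit 201918) (nat_lit 0) .nil) .nil))))) 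
(.nd (nat_lit 8) (.nd (nat_lit 9) 
(.lf (nat_lit 512135) (.g (nat_lit 1659) (.e (nat_lit 180243) (nat_lit 5) (.e (nat_lit 532482) (nat_lit 0) (.e (nat_lit 6722) (nat_lit 362) (.e (nat_lit 180245) (nat_lit 5) (.e (nat_lit 532486) (nat_lit 0) (.e (nat_lit 7936) (nat_lit 362) .nil)))))) (.g (nat_lit 1) (.e (nat_lit 199903) (nat_lit 0) .nil) .nil))) 
(.lf (nat_lit 512647) (.g (nat_lit 539) (.e (nat_lit 180250) (nat_lit 10) (.e (nat_lit 573469) (nat_lit 11) (.e (nat_lit 16442) (nat_lit 9) .nil))) (.g (nat_lit 0) (.e (nat_lit 201332) (nat_lit 0) .nil) .nil)))) (.nd (nat_lit 9) 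
(.lf (nat_lit 512391) (.g (nat_lit 3527) (.e (nat_lit 180244) (nat_lit 5) (.e (nat_lit 532523) (nat_lit 7) (.e (nat_lit 319531) (nat_lit 16) (.e (nat_lit 286735) (nat_lit 3) (.e (nat_lit 98325) (nat_lit 17) (.e (nat_lit 7936) (nat_lit 393) .nil)))))) (.g (nat_lit 1) (.e (nat_lit 200646) (nat_lit 0) .nil) .nil))) 
(.lf (nat_lit 512903) (.g (nat_lit 2670) (.e (nat_lit 180251) (nat_lit 10) (.e (nat_lit 573489) (nat_lit 14) (.e (nat_lit 73755) (nat_lit 8) (.e (nat_lit 557069) (nat_lit 9) .nil)))) (.g (nat_lit 0) (.e (nat_lit 202459) (nat_lit 0) .nil) .nil)))))) (.nd (nat_lit 7) (.nd (nat_lit 8) (.nd (nat_lit 9) 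
(.lf (nat_lit 512071) (.g (nat_lit 1065) (.e (nat_lit 188160) (nat_lit 1) (.e (nat_lit 499900) (nat_lit 7) (.e (nat_lit 24655) (nat_lit 13) (.e (nat_lit 401152) (nat_lit 0) .nil)))) (.g (nat_lit 0) (.e (nat_lit 199709) (nat_lit 0) .nil) .nil))) 
(.lf (nat_lit 512583) (.g (nat_lit 2695) (.e (nat_lit 180246) (nat_lit 6) (.e (nat_lit 540704) (nat_lit 12) (.e (nat_lit 360473) (nat_lit 8) (.e (nat_lit 557090) (nat_lit 12) (.e (nat_lit 164020) (nat_lit 45) (.e (nat_lit 696345) (nat_lit 9) .nil)))))) (.g (nat_lit 1) (.e (nat_lit 201026) (nat_lit 0) .nil) .nil)))) (.nd (nat_lit 9) 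
(.lf (nat_lit 512327) (.g (nat_lit 1865) (.e (nat_lit 180243) (nat_lit 5) (.e (nat_lit 532569) (nat_lit 16) (.e (nat_lit 401448) (nat_lit 10) (.e (nat_lit 434226) (nat_lit 20) .nil)))) (.g (nat_lit 0) (.e (nat_lit 200533) (nat_lit 0) .nil) .nil))) 
(.lf (nat_lit 512839) (.g (nat_lit 1883) (.e (nat_lit 180251) (nat_lit 10) (.e (nat_lit 573456) (nat_lit 9) (.e (nat_lit 1669) (nat_lit 116) (.e (nat_lit 401459) (nat_lit 13) (.e (nat_lit 483364) (nat_lit 18) .nil))))) (.g (nat_lit 0) (.e (nat_lit 202067) (nat_lit 0) .nil) .nil))))) (.nd (nat_lit 8) (.nd (nat_lit 9) 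
(.lf (nat_lit 512199) (.g (nat_lit 1669) (.e (nat_lit 180243) (nat_lit 5) (.e (nat_lit 532515) (nat_lit 3) (.e (nat_lit 114719) (nat_lit 23) (.e (nat_lit 98305) (nat_lit 0) .nil)))) (.g (nat_lit 0) (.e (nat_lit 200101) (nat_lit 0) .nil) .nil))) 
(.lf (nat_lit 512711) (.g (nat_lit 3528) (.e (nat_lit 180250) (nat_lit 10) (.e (nat_lit 573475) (nat_lit 12) (.e (nat_lit 57502) (nat_lit 38) (.e (nat_lit 638995) (nat_lit 7) (.e (nat_lit 163978) (nat_lit 30) (.e (nat_lit 573487) (nat_lit 14) (.e (nat_lit 73753) (nat_lit 8) (.e (nat_lit 557103) (nat_lit 14) .nil)))))))) (.g (nat_lit 1) (.e (nat_lit 201449) (nat_lit 0) .nil) .nil)))) 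
(.nd (nat_lit 9) 
(.lf (nat_lit 512455) (.g (nat_lit 5379) (.e (nat_lit 180244) (nat_lit 5) (.e (nat_lit 532550) (nat_lit 12) (.e (nat_lit 360475) (nat_lit 8) (.e (nat_lit 557089) (nat_lit 12) (.e (nat_lit 163843) (nat_lit 0) (.e (nat_lit 6255) (nat_lit 337) (.e (nat_lit 2641) (nat_lit 165) .nil))))))) (.g (nat_lit 1) (.e (nat_lit 200779) (nat_lit 0) .nil) .nil))) 
(.lf (nat_lit 512967) (.g (nat_lit 4103) (.e (nat_lit 180251) (nat_lit 10) (.e (nat_lit 573489) (nat_lit 14) (.e (nat_lit 73755) (nat_lit 8) (.e (nat_lit 557090) (nat_lit 12) (.e (nat_lit 163854) (nat_lit 0) (.e (nat_lit 5946) (nat_lit 322) (.e (nat_lit 57371) (nat_lit 2) (.e (nat_lit 90174) (nat_lit 14) .nil)))))))) (.g (nat_lit 1) (.e (nat_lit 202572) (nat_lit 0) .nil) .nil))))))) 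
(.nd (nat_lit 6) (.nd (nat_lit 7) (.nd (nat_lit 8) (.nd (nat_lit 9) 
(.lf (nat_lit 512039) (.g (nat_lit 777) (.e (nat_lit 180226) (nat_lit 0) (.e (nat_lit 6416) (nat_lit 341) (.e (nat_lit 163932) (nat_lit 17) (.e (nat_lit 474880) (nat_lit 12) .nil)))) (.g (nat_lit 0) (.e (nat_lit 199140) (nat_lit 0) .nil) .nil))) 
(.lf (nat_lit 512551) (.g (nat_lit 3883) (.e (nat_lit 180245) (nat_lit 5) (.e (nat_lit 532550) (nat_lit 12) (.e (nat_lit 360474) (nat_lit 8) (.e (nat_lit 557094) (nat_lit 12) .nil)))) (.g (nat_lit 0) (.e (nat_lit 200976) (nat_lit 0) .nil) .nil)))) (.nd (nat_lit 9) 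
(.lf (nat_lit 512295) (.g (nat_lit 2562) (.e (nat_lit 180243) (nat_lit 5) (.e (nat_lit 532550) (nat_lit 12) (.e (nat_lit 360474) (nat_lit 8) (.e (nat_lit 557094) (nat_lit 12) (.e (nat_lit 163852) (nat_lit 0) .nil))))) (.g (nat_lit 0) (.e (nat_lit 200394) (nat_lit 0) .nil) .nil))) 
(.lf (nat_lit 512807) (.g (nat_lit 3222) (.e (nat_lit 180250) (nat_lit 10) (.e (nat_lit 573489) (nat_lit 14) (.e (nat_lit 73755) (nat_lit 8) (.e (nat_lit 557091) (nat_lit 12) (.e (nat_lit 163842) (nat_lit 0) (.e (nat_lit 5933) (nat_lit 322) (.e (nat_lit 57373) (nat_lit 2) (.e (nat_lit 90174) (nat_lit 14) .nil)))))))) (.g (nat_lit 1) (.e (nat_lit 201986) (nat_lit 0) .nil) .nil))))) 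
(.nd (nat_lit 8) (.nd (nat_lit 9) 
(.lf (nat_lit 512167) (.g (nat_lit 2290) (.e (nat_lit 180243) (nat_lit 5) (.e (nat_lit 532503) (nat_lit 1) (.e (nat_lit 57688) (nat_lit 156) (.e (nat_lit 163843) (nat_lit 0) (.e (nat_lit 3230) (nat_lit 197) .nil))))) (.g (nat_lit 0) (.e (nat_lit 199963) (nat_lit 0) .nil) .nil))) 
(.lf (nat_lit 512679) (.g (nat_lit 4373) (.e (nat_lit 180250) (nat_lit 10) (.e (nat_lit 573471) (nat_lit 11) (.e (nat_lit 16448) (nat_lit 10) (.e (nat_lit 434231) (nat_lit 23) (.e (nat_lit 532481) (nat_lit 0) (.e (nat_lit 6724) (nat_lit 362) .nil)))))) (.g (nat_lit 1) (.e (nat_lit 201400) (nat_lit 0) .nil) .nil)))) (.nd (nat_lit 9) 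
(.lf (nat_lit 512423) (.g (nat_lit 2515) (.e (nat_lit 180244) (nat_lit 5) (.e (nat_lit 532549) (nat_lit 12) (.e (nat_lit 360473) (nat_lit 8) (.e (nat_lit 557091) (nat_lit 12) (.e (nat_lit 163852) (nat_lit 0) .nil))))) (.g (nat_lit 0) (.e (nat_lit 200735) (nat_lit 0) .nil) .nil))) 
(.lf (nat_lit 512935) (.g (nat_lit 3622) (.e (nat_lit 180251) (nat_lit 10) (.e (nat_lit 573489) (nat_lit 14) (.e (nat_lit 73755) (nat_lit 8) (.e (nat_lit 557090) (nat_lit 12) (.e (nat_lit 163843) (nat_lit 0) (.e (nat_lit 5943) (nat_lit 322) (.e (nat_lit 57374) (nat_lit 2) (.e (nat_lit 90171) (nat_lit 14) .nil)))))))) (.g (nat_lit 1) (.e (nat_lit 202540) (nat_lit 0) .nil) .nil)))))) 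
(.nd (nat_lit 7) (.nd (nat_lit 8) (.nd (nat_lit 9) 
(.lf (nat_lit 512103) (.g (nat_lit 4250) (.e (nat_lit 180242) (nat_lit 5) (.e (nat_lit 532550) (nat_lit 12) (.e (nat_lit 360475) (nat_lit 8) (.e (nat_lit 557089) (nat_lit 12) (.e (nat_lit 163844) (nat_lit 0) .nil))))) (.g (nat_lit 0) (.e (nat_lit 199862) (nat_lit 0) .nil) .nil))) 
(.lf (nat_lit 512615) (.g (nat_lit 1058) (.e (nat_lit 180241) (nat_lit 4) (.e (nat_lit 524340) (nat_lit 28) (.e (nat_lit 352287) (nat_lit 20) (.e (nat_lit 2384) (nat_lit 155) (.e (nat_lit 811011) (nat_lit 0) (.e (nat_lit 5780) (nat_lit 317) .nil)))))) (.g (nat_lit 1) (.e (nat_lit 201086) (nat_lit 0) .nil) .nil)))) (.nd (nat_lit 9) 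
(.lf (nat_lit 512359) (.g (nat_lit 2057) (.e (nat_lit 180244) (nat_lit 5) (.e (nat_lit 532522) (nat_lit 7) (.e (nat_lit 319538) (nat_lit 19) (.e (nat_lit 311312) (nat_lit 2) (.e (nat_lit 196661) (nat_lit 12) .nil))))) (.g (nat_lit 0) (.e (nat_lit 200605) (nat_lit 0) .nil) .nil))) 
(.lf (nat_lit 512871) (.g (nat_lit 487) (.e (nat_lit 180251) (nat_lit 10) (.e (nat_lit 573484) (nat_lit 13) (.e (nat_lit 65566) (nat_lit 2) .nil))) (.g (nat_lit 0) (.e (nat_lit 202272) (nat_lit 0) .nil) .nil))))) (.nd (nat_lit 8) (.nd (nat_lit 9) 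
(.lf (nat_lit 512231) (.g (nat_lit 3059) (.e (nat_lit 180243) (nat_lit 5) (.e (nat_lit 532523) (nat_lit 7) (.e (nat_lit 319533) (nat_lit 16) (.e (nat_lit 286735) (nat_lit 3) (.e (nat_lit 98323) (nat_lit 17) (.e (nat_lit 7936) (nat_lit 393) .nil)))))) (.g (nat_lit 1) (.e (nat_lit 200149) (nat_lit 0) .nil) .nil))) 
(.lf (nat_lit 512743) (.g (nat_lit 3199) (.e (nat_lit 180250) (nat_lit 10) (.e (nat_lit 573488) (nat_lit 14) (.e (nat_lit 73755) (nat_lit 8) (.e (nat_lit 557090) (nat_lit 12) (.e (nat_lit 163845) (nat_lit 0) .nil))))) (.g (nat_lit 0) (.e (nat_lit 201832) (nat_lit 0) .nil) .nil)))) (.nd (nat_lit 9) 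
(.lf (nat_lit 512487) (.g (nat_lit 2360) (.e (nat_lit 180244) (nat_lit 5) (.e (nat_lit 532569) (nat_lit 16) (.e (nat_lit 401448) (nat_lit 10) (.e (nat_lit 434220) (nat_lit 19) .nil)))) (.g (nat_lit 0) (.e (nat_lit 200848) (nat_lit 0) .nil) .nil))) 
(.lf (nat_lit 512999) (.g (nat_lit 3222) (.e (nat_lit 180251) (nat_lit 10) (.e (nat_lit 573489) (nat_lit 14) (.e (nat_lit 73755) (nat_lit 8) (.e (nat_lit 557091) (nat_lit 12) (.e (nat_lit 163844) (nat_lit 0) (.e (nat_lit 5934) (nat_lit 322) (.e (nat_lit 57371) (nat_lit 2) (.e (nat_lit 90174) (nat_lit 14) .nil)))))))) (.g (nat_lit 1) (.e (nat_lit 202645) (nat_lit 0) .nil) .nil)))))))) 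
(.nd (nat_lit 5) (.nd (nat_lit 6) (.nd (nat_lit 7) (.nd (nat_lit 8) (.nd (nat_lit 9) 
(.lf (nat_lit 512023) (.g (nat_lit 1608) (.e (nat_lit 179968) (nat_lit 34) (.e (nat_lit 393294) (nat_lit 26) (.e (nat_lit 475177) (nat_lit 24) (.e (nat_lit 516097) (nat_lit 0) .nil)))) (.g (nat_lit 0) (.e (nat_lit 198771) (nat_lit 0) .nil) .nil))) 
(.lf (nat_lit 512535) (.g (nat_lit 2980) (.e (nat_lit 180245) (nat_lit 5) (.e (nat_lit 532523) (nat_lit 7) (.e (nat_lit 319533) (nat_lit 16) (.e (nat_lit 286734) (nat_lit 3) (.e (nat_lit 98320) (nat_lit 17) .nil))))) (.g (nat_lit 0) (.e (nat_lit 200942) (nat_lit 0) .nil) .nil)))) (.nd (nat_lit 9) 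
(.lf (nat_lit 512279) (.g (nat_lit 3753) (.e (nat_lit 180243) (nat_lit 5) (.e (nat_lit 532549) (nat_lit 12) (.e (nat_lit 360475) (nat_lit 8) (.e (nat_lit 557091) (nat_lit 12) (.e (nat_lit 163844) (nat_lit 0) (.e (nat_lit 6254) (nat_lit 337) (.e (nat_lit 2643) (nat_lit 165) .nil))))))) (.g (nat_lit 1) (.e (nat_lit 200370) (nat_lit 0) .nil) .nil))) 
(.lf (nat_lit 512791) (.g (nat_lit 3582) (.e (nat_lit 180250) (nat_lit 10) (.e (nat_lit 573489) (nat_lit 14) (.e (nat_lit 73755) (nat_lit 8) (.e (nat_lit 557090) (nat_lit 12) (.e (nat_lit 163851) (nat_lit 0) (.e (nat_lit 5951) (nat_lit 322) (.e (nat_lit 57371) (nat_lit 2) (.e (nat_lit 90174) (nat_lit 14) .nil)))))))) (.g (nat_lit 1) (.e (nat_lit 201934) (nat_lit 0) .nil) .nil))))) 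
(.nd (nat_lit 8) (.nd (nat_lit 9) 
(.lf (nat_lit 512151) (.g (nat_lit 2660) (.e (nat_lit 180243) (nat_lit 5) (.e (nat_lit 532499) (nat_lit 1) (.e (nat_lit 57692) (nat_lit 156) (.e (nat_lit 163874) (nat_lit 3) (.e (nat_lit 204834) (nat_lit 19) .nil))))) (.g (nat_lit 0) (.e (nat_lit 199938) (nat_lit 0) .nil) .nil))) 
(.lf (nat_lit 512663) (.g (nat_lit 368) (.e (nat_lit 180250) (nat_lit 10) (.e (nat_lit 573471) (nat_lit 11) (.e (nat_lit 16439) (nat_lit 9) .nil))) (.g (nat_lit 0) (.e (nat_lit 201363) (nat_lit 0) .nil) .nil)))) (.nd (nat_lit 9) 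
(.lf (nat_lit 512407) (.g (nat_lit 1383) (.e (nat_lit 180244) (nat_lit 5) (.e (nat_lit 532523) (nat_lit 7) (.e (nat_lit 319534) (nat_lit 16) (.e (nat_lit 286735) (nat_lit 3) .nil)))) (.g (nat_lit 0) (.e (nat_lit 200666) (nat_lit 0) .nil) .nil))) 
(.lf (nat_lit 512919) (.g (nat_lit 2327) (.e (nat_lit 180251) (nat_lit 10) (.e (nat_lit 573489) (nat_lit 14) (.e (nat_lit 73755) (nat_lit 8) (.e (nat_lit 557089) (nat_lit 12) (.e (nat_lit 164005) (nat_lit 41) .nil))))) (.g (nat_lit 0) (.e (nat_lit 202511) (nat_lit 0) .nil) .nil)))))) (.nd (nat_lit 7) (.nd (nat_lit 8) (.nd (nat_lit 9) 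
(.lf (nat_lit 512087) (.g (nat_lit 2807) (.e (nat_lit 180242) (nat_lit 5) (.e (nat_lit 532523) (nat_lit 7) (.e (nat_lit 319531) (nat_lit 16) (.e (nat_lit 286735) (nat_lit 3) (.e (nat_lit 98323) (nat_lit 17) .nil))))) (.g (nat_lit 0) (.e (nat_lit 199829) (nat_lit 0) .nil) .nil))) 
(.lf (nat_lit 512599) (.g (nat_lit 3648) (.e (nat_lit 180246) (nat_lit 6) (.e (nat_lit 540706) (nat_lit 12) (.e (nat_lit 360475) (nat_lit 8) (.e (nat_lit 557091) (nat_lit 12) (.e (nat_lit 163849) (nat_lit 0) .nil))))) (.g (nat_lit 0) (.e (nat_lit 201045) (nat_lit 0) .nil) .nil)))) (.nd (nat_lit 9) 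
(.lf (nat_lit 512343) (.g (nat_lit 2020) (.e (nat_lit 180244) (nat_lit 5) (.e (nat_lit 532482) (nat_lit 0) (.e (nat_lit 6724) (nat_lit 362) (.e (nat_lit 180243) (nat_lit 5) (.e (nat_lit 532489) (nat_lit 0) (.e (nat_lit 7936) (nat_lit 362) .nil)))))) (.g (nat_lit 1) (.e (nat_lit 200575) (nat_lit 0) .nil) .nil))) 
(.lf (nat_lit 512855) (.g (nat_lit 3984) (.e (nat_lit 180251) (nat_lit 10) (.e (nat_lit 573471) (nat_lit 11) (.e (nat_lit 16433) (nat_lit 9) (.e (nat_lit 426131) (nat_lit 3) .nil)))) (.g (nat_lit 0) (.e (nat_lit 202098) (nat_lit 0) .nil) .nil))))) (.nd (nat_lit 8) (.nd (nat_lit 9) 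
(.lf (nat_lit 512215) (.g (nat_lit 2537) (.e (nat_lit 180243) (nat_lit 5) (.e (nat_lit 532523) (nat_lit 7) (.e (nat_lit 319538) (nat_lit 19) (.e (nat_lit 311312) (nat_lit 2) (.e (nat_lit 196628) (nat_lit 9) .nil))))) (.g (nat_lit 0) (.e (nat_lit 200133) (nat_lit 0) .nil) .nil))) 
(.lf (nat_lit 512727) (.g (nat_lit 2798) (.e (nat_lit 180250) (nat_lit 10) (.e (nat_lit 573487) (nat_lit 14) (.e (nat_lit 73746) (nat_lit 3) (.e (nat_lit 516115) (nat_lit 1) (.e (nat_lit 164155) (nat_lit 152) .nil))))) (.g (nat_lit 0) (.e (nat_lit 201749) (nat_lit 0) .nil) .nil)))) (.nd (nat_lit 9) 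
(.lf (nat_lit 512471) (.g (nat_lit 3636) (.e (nat_lit 180244) (nat_lit 5) (.e (nat_lit 532550) (nat_lit 12) (.e (nat_lit 360475) (nat_lit 8) (.e (nat_lit 557091) (nat_lit 12) (.e (nat_lit 164016) (nat_lit 44) (.e (nat_lit 696064) (nat_lit 9) .nil)))))) (.g (nat_lit 1) (.e (nat_lit 200797) (nat_lit 0) .nil) .nil))) 
(.lf (nat_lit 512983) (.g (nat_lit 3654) (.e (nat_lit 180251) (nat_lit 10) (.e (nat_lit 573489) (nat_lit 14) (.e (nat_lit 73755) (nat_lit 8) (.e (nat_lit 557090) (nat_lit 12) (.e (nat_lit 164009) (nat_lit 41) .nil))))) (.g (nat_lit 0) (.e (nat_lit 202594) (nat_lit 0) .nil) .nil))))))) (.nd (nat_lit 6) (.nd (nat_lit 7) (.nd (nat_lit 8) (.nd (nat_lit 9) 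
(.lf (nat_lit 512055) (.g (nat_lit 265) (.e (nat_lit 180232) (nat_lit 0) (.e (nat_lit 5448) (nat_lit 306) (.e (nat_lit 2612) (nat_lit 163) .nil))) (.g (nat_lit 0) (.e (nat_lit 199630) (nat_lit 0) .nil) .nil))) 
(.lf (nat_lit 512567) (.g (nat_lit 1784) (.e (nat_lit 180245) (nat_lit 5) (.e (nat_lit 532569) (nat_lit 16) (.e (nat_lit 401448) (nat_lit 10) (.e (nat_lit 434227) (nat_lit 20) .nil)))) (.g (nat_lit 0) (.e (nat_lit 201005) (nat_lit 0) .nil) .nil)))) (.nd (nat_lit 9) 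
(.lf (nat_lit 512311) (.g (nat_lit 2955) (.e (nat_lit 180243) (nat_lit 5) (.e (nat_lit 532567) (nat_lit 16) (.e (nat_lit 401435) (nat_lit 9) (.e (nat_lit 426131) (nat_lit 3) (.e (nat_lit 204815) (nat_lit 17) (.e (nat_lit 6724) (nat_lit 362) .nil)))))) (.g (nat_lit 1) (.e (nat_lit 200505) (nat_lit 0) .nil) .nil))) 
(.lf (nat_lit 512823) (.g (nat_lit 864) (.e (nat_lit 180250) (nat_lit 10) (.e (nat_lit 573503) (nat_lit 18) (.e (nat_lit 1359) (nat_lit 102) (.e (nat_lit 286743) (nat_lit 9) .nil)))) (.g (nat_lit 0) (.e (nat_lit 202031) (nat_lit 0) .nil) .nil))))) (.nd (nat_lit 8) (.nd (nat_lit 9) 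
(.lf (nat_lit 512183) (.g (nat_lit 2488) (.e (nat_lit 180243) (nat_lit 5) (.e (nat_lit 532513) (nat_lit 3) (.e (nat_lit 114714) (nat_lit 22) (.e (nat_lit 90128) (nat_lit 9) (.e (nat_lit 2615) (nat_lit 163) (.e (nat_lit 164398) (nat_lit 256) (.e (nat_lit 57373) (nat_lit 2) (.e (nat_lit 90174) (nat_lit 14) .nil)))))))) (.g (nat_lit 1) (.e (nat_lit 200025) (nat_lit 0) .nil) .nil))) 
(.lf (nat_lit 512695) (.g (nat_lit 2071) (.e (nat_lit 180250) (nat_lit 10) (.e (nat_lit 573474) (nat_lit 12) (.e (nat_lit 57503) (nat_lit 38) (.e (nat_lit 638995) (nat_lit 7) .nil)))) (.g (nat_lit 0) (.e (nat_lit 201431) (nat_lit 0) .nil) .nil)))) (.nd (nat_lit 9) 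
(.lf (nat_lit 512439) (.g (nat_lit 3162) (.e (nat_lit 180244) (nat_lit 5) (.e (nat_lit 532550) (nat_lit 12) (.e (nat_lit 360472) (nat_lit 8) (.e (nat_lit 557090) (nat_lit 12) (.e (nat_lit 163850) (nat_lit 0) .nil))))) (.g (nat_lit 0) (.e (nat_lit 200757) (nat_lit 0) .nil) .nil))) 
(.lf (nat_lit 512951) (.g (nat_lit 3816) (.e (nat_lit 180251) (nat_lit 10) (.e (nat_lit 573489) (nat_lit 14) (.e (nat_lit 73755) (nat_lit 8) (.e (nat_lit 557090) (nat_lit 12) (.e (nat_lit 163850) (nat_lit 0) (.e (nat_lit 5946) (nat_lit 322) (.e (nat_lit 57371) (nat_lit 2) (.e (nat_lit 90174) (nat_lit 14) .nil)))))))) (.g (nat_lit 1) (.e (nat_lit 202556) (nat_lit 0) .nil) .nil)))))) 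
(.nd (nat_lit 7) (.nd (nat_lit 8) (.nd (nat_lit 9) 
(.lf (nat_lit 512119) (.g (nat_lit 583) (.e (nat_lit 180242) (nat_lit 5) (.e (nat_lit 532569) (nat_lit 16) (.e (nat_lit 401448) (nat_lit 10) .nil))) (.g (nat_lit 0) (.e (nat_lit 199882) (nat_lit 0) .nil) .nil))) 
(.lf (nat_lit 512631) (.g (nat_lit 3365) (.e (nat_lit 180250) (nat_lit 10) (.e (nat_lit 573456) (nat_lit 9) (.e (nat_lit 1669) (nat_lit 116) (.e (nat_lit 401459) (nat_lit 13) (.e (nat_lit 483363) (nat_lit 18) (.e (nat_lit 57654) (nat_lit 152) (.e (nat_lit 2636) (nat_lit 165) .nil))))))) (.g (nat_lit 1) (.e (nat_lit 201305) (nat_lit 0) .nil) .nil)))) (.nd (nat_lit 9) 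
(.lf (nat_lit 512375) (.g (nat_lit 600) (.e (nat_lit 180244) (nat_lit 5) (.e (nat_lit 532523) (nat_lit 7) (.e (nat_lit 319538) (nat_lit 19) .nil))) (.g (nat_lit 0) (.e (nat_lit 200629) (nat_lit 0) .nil) .nil))) 
(.lf (nat_lit 512887) (.g (nat_lit 1175) (.e (nat_lit 180251) (nat_lit 10) (.e (nat_lit 573489) (nat_lit 14) (.e (nat_lit 73754) (nat_lit 8) (.e (nat_lit 557093) (nat_lit 12) .nil)))) (.g (nat_lit 0) (.e (nat_lit 202413) (nat_lit 0) .nil) .nil))))) (.nd (nat_lit 8) (.nd (nat_lit 9) 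
(.lf (nat_lit 512247) (.g (nat_lit 2999) (.e (nat_lit 180243) (nat_lit 5) (.e (nat_lit 532549) (nat_lit 12) (.e (nat_lit 360473) (nat_lit 8) (.e (nat_lit 557089) (nat_lit 12) (.e (nat_lit 163850) (nat_lit 0) (.e (nat_lit 6273) (nat_lit 337) (.e (nat_lit 2635) (nat_lit 165) .nil))))))) (.g (nat_lit 1) (.e (nat_lit 200324) (nat_lit 0) .nil) .nil))) 
(.lf (nat_lit 512759) (.g (nat_lit 2920) (.e (nat_lit 180250) (nat_lit 10) (.e (nat_lit 573489) (nat_lit 14) (.e (nat_lit 73755) (nat_lit 8) (.e (nat_lit 557067) (nat_lit 9) (.e (nat_lit 2604) (nat_lit 163) (.e (nat_lit 164401) (nat_lit 256) (.e (nat_lit 57373) (nat_lit 2) (.e (nat_lit 90174) (nat_lit 14) .nil)))))))) (.g (nat_lit 1) (.e (nat_lit 201874) (nat_lit 0) .nil) .nil)))) 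
(.nd (nat_lit 9) 
(.lf (nat_lit 512503) (.g (nat_lit 2317) (.e (nat_lit 180245) (nat_lit 5) (.e (nat_lit 532515) (nat_lit 3) (.e (nat_lit 114719) (nat_lit 23) (.e (nat_lit 98333) (nat_lit 18) (.e (nat_lit 164403) (nat_lit 256) .nil))))) (.g (nat_lit 0) (.e (nat_lit 200900) (nat_lit 0) .nil) .nil))) 
(.lf (nat_lit 513015) (.g (nat_lit 1956) (.e (nat_lit 180251) (nat_lit 10) (.e (nat_lit 573489) (nat_lit 14) (.e (nat_lit 73755) (nat_lit 8) (.e (nat_lit 557091) (nat_lit 12) (.e (nat_lit 164006) (nat_lit 41) .nil))))) (.g (nat_lit 0) (.e (nat_lit 202668) (nat_lit 0) .nil) .nil))))))))) (.nd (nat_lit 4) (.nd (nat_lit 5) (.nd (nat_lit 6) (.nd (nat_lit 7) (.nd (nat_lit 8) (.nd (nat_lit 9) 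
(.lf (nat_lit 512015) (.g (nat_lit 384) (.e (nat_lit 179968) (nat_lit 34) (.e (nat_lit 393284) (nat_lit 24) (.e (nat_lit 434233) (nat_lit 23) .nil))) (.g (nat_lit 0) (.e (nat_lit 198763) (nat_lit 0) .nil) .nil))) 
(.lf (nat_lit 512527) (.g (nat_lit 2619) (.e (nat_lit 180245) (nat_lit 5) (.e (nat_lit 532523) (nat_lit 7) (.e (nat_lit 319530) (nat_lit 16) (.e (nat_lit 286735) (nat_lit 3) (.e (nat_lit 98320) (nat_lit 17) .nil))))) (.g (nat_lit 0) (.e (nat_lit 200933) (nat_lit 0) .nil) .nil)))) (.nd (nat_lit 9) 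
(.lf (nat_lit 512271) (.g (nat_lit 3371) (.e (nat_lit 180243) (nat_lit 5) (.e (nat_lit 532549) (nat_lit 12) (.e (nat_lit 360475) (nat_lit 8) (.e (nat_lit 557089) (nat_lit 12) (.e (nat_lit 163848) (nat_lit 0) (.e (nat_lit 6255) (nat_lit 337) (.e (nat_lit 2643) (nat_lit 165) .nil))))))) (.g (nat_lit 1) (.e (nat_lit 200358) (nat_lit 0) .nil) .nil))) 
(.lf (nat_lit 512783) (.g (nat_lit 3604) (.e (nat_lit 180250) (nat_lit 10) (.e (nat_lit 573489) (nat_lit 14) (.e (nat_lit 73755) (nat_lit 8) (.e (nat_lit 557090) (nat_lit 12) (.e (nat_lit 163849) (nat_lit 0) (.e (nat_lit 5934) (nat_lit 322) (.e (nat_lit 57372) (nat_lit 2) (.e (nat_lit 90174) (nat_lit 14) .nil)))))))) (.g (nat_lit 1) (.e (nat_lit 201926) (nat_lit 0) .nil) .nil))))) 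
(.nd (nat_lit 8) (.nd (nat_lit 9) 
(.lf (nat_lit 512143) (.g (nat_lit 3831) (.e (nat_lit 180243) (nat_lit 5) (.e (nat_lit 532499) (nat_lit 1) (.e (nat_lit 57688) (nat_lit 156) (.e (nat_lit 163843) (nat_lit 0) (.e (nat_lit 3248) (nat_lit 197) (.e (nat_lit 532515) (nat_lit 3) (.e (nat_lit 114716) (nat_lit 22) (.e (nat_lit 90172) (nat_lit 14) .nil)))))))) (.g (nat_lit 1) (.e (nat_lit 199924) (nat_lit 0) .nil) .nil))) 
(.lf (nat_lit 512655) (.g (nat_lit 2152) (.e (nat_lit 180250) (nat_lit 10) (.e (nat_lit 573470) (nat_lit 11) (.e (nat_lit 16446) (nat_lit 9) (.e (nat_lit 426116) (nat_lit 2) (.e (nat_lit 196677) (nat_lit 16) (.e (nat_lit 130816) (nat_lit 206) .nil)))))) (.g (nat_lit 1) (.e (nat_lit 201344) (nat_lit 0) .nil) .nil)))) (.nd (nat_lit 9) 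
(.lf (nat_lit 512399) (.g (nat_lit 3209) (.e (nat_lit 180244) (nat_lit 5) (.e (nat_lit 532523) (nat_lit 7) (.e (nat_lit 319533) (nat_lit 16) (.e (nat_lit 286735) (nat_lit 3) (.e (nat_lit 98323) (nat_lit 17) (.e (nat_lit 7936) (nat_lit 393) .nil)))))) (.g (nat_lit 1) (.e (nat_lit 200656) (nat_lit 0) .nil) .nil))) 
(.lf (nat_lit 512911) (.g (nat_lit 2297) (.e (nat_lit 180251) (nat_lit 10) (.e (nat_lit 573489) (nat_lit 14) (.e (nat_lit 73755) (nat_lit 8) (.e (nat_lit 557089) (nat_lit 12) (.e (nat_lit 163843) (nat_lit 0) .nil))))) (.g (nat_lit 0) (.e (nat_lit 202503) (nat_lit 0) .nil) .nil)))))) (.nd (nat_lit 7) (.nd (nat_lit 8) (.nd (nat_lit 9) 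
(.lf (nat_lit 512079) (.g (nat_lit 2641) (.e (nat_lit 180242) (nat_lit 5) (.e (nat_lit 532522) (nat_lit 7) (.e (nat_lit 319530) (nat_lit 16) (.e (nat_lit 286735) (nat_lit 3) (.e (nat_lit 98325) (nat_lit 17) .nil))))) (.g (nat_lit 0) (.e (nat_lit 199818) (nat_lit 0) .nil) .nil))) 
(.lf (nat_lit 512591) (.g (nat_lit 3168) (.e (nat_lit 180246) (nat_lit 6) (.e (nat_lit 540706) (nat_lit 12) (.e (nat_lit 360475) (nat_lit 8) (.e (nat_lit 557089) (nat_lit 12) (.e (nat_lit 163850) (nat_lit 0) .nil))))) (.g (nat_lit 0) (.e (nat_lit 201036) (nat_lit 0) .nil) .nil)))) (.nd (nat_lit 9) 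
(.lf (nat_lit 512335) (.g (nat_lit 1798) (.e (nat_lit 180243) (nat_lit 5) (.e (nat_lit 532579) (nat_lit 26) (.e (nat_lit 426107) (nat_lit 1) (.e (nat_lit 164345) (nat_lit 240) (.e (nat_lit 2618) (nat_lit 164) .nil))))) (.g (nat_lit 0) (.e (nat_lit 200542) (nat_lit 0) .nil) .nil))) 
(.lf (nat_lit 512847) (.g (nat_lit 3934) (.e (nat_lit 180251) (nat_lit 10) (.e (nat_lit 573469) (nat_lit 11) (.e (nat_lit 16436) (nat_lit 9) (.e (nat_lit 426131) (nat_lit 3) (.e (nat_lit 204816) (nat_lit 17) (.e (nat_lit 6724) (nat_lit 362) .nil)))))) (.g (nat_lit 1) (.e (nat_lit 202083) (nat_lit 0) .nil) .nil))))) (.nd (nat_lit 8) (.nd (nat_lit 9) 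
(.lf (nat_lit 512207) (.g (nat_lit 2673) (.e (nat_lit 180243) (nat_lit 5) (.e (nat_lit 532522) (nat_lit 7) (.e (nat_lit 319531) (nat_lit 16) (.e (nat_lit 286735) (nat_lit 3) (.e (nat_lit 98325) (nat_lit 17) .nil))))) (.g (nat_lit 0) (.e (nat_lit 200118) (nat_lit 0) .nil) .nil))) 
(.lf (nat_lit 512719) (.g (nat_lit 3572) (.e (nat_lit 180250) (nat_lit 10) (.e (nat_lit 573478) (nat_lit 12) (.e (nat_lit 57502) (nat_lit 38) (.e (nat_lit 638995) (nat_lit 7) (.e (nat_lit 163978) (nat_lit 30) (.e (nat_lit 573487) (nat_lit 14) (.e (nat_lit 73753) (nat_lit 8) (.e (nat_lit 557103) (nat_lit 14) .nil)))))))) (.g (nat_lit 1) (.e (nat_lit 201537) (nat_lit 0) .nil) .nil)))) 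
(.nd (nat_lit 9) 
(.lf (nat_lit 512463) (.g (nat_lit 3824) (.e (nat_lit 180244) (nat_lit 5) (.e (nat_lit 532550) (nat_lit 12) (.e (nat_lit 360475) (nat_lit 8) (.e (nat_lit 557091) (nat_lit 12) (.e (nat_lit 163840) (nat_lit 0) (.e (nat_lit 6252) (nat_lit 337) (.e (nat_lit 2641) (nat_lit 165) .nil))))))) (.g (nat_lit 1) (.e (nat_lit 200787) (nat_lit 0) .nil) .nil))) 
(.lf (nat_lit 512975) (.g (nat_lit 3800) (.e (nat_lit 180251) (nat_lit 10) (.e (nat_lit 573489) (nat_lit 14) (.e (nat_lit 73755) (nat_lit 8) (.e (nat_lit 557090) (nat_lit 12) (.e (nat_lit 163856) (nat_lit 0) (.e (nat_lit 5948) (nat_lit 322) (.e (nat_lit 57371) (nat_lit 2) (.e (nat_lit 90174) (nat_lit 14) .nil)))))))) (.g (nat_lit 1) (.e (nat_lit 202580) (nat_lit 0) .nil) .nil))))))) 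
(.nd (nat_lit 6) (.nd (nat_lit 7) (.nd (nat_lit 8) (.nd (nat_lit 9) 
(.lf (nat_lit 512047) (.g (nat_lit 428) (.e (nat_lit 180227) (nat_lit 0) (.e (nat_lit 6255) (nat_lit 337) (.e (nat_lit 2641) (nat_lit 165) .nil))) (.g (nat_lit 0) (.e (nat_lit 199239) (nat_lit 0) .nil) .nil))) 
(.lf (nat_lit 512559) (.g (nat_lit 4488) (.e (nat_lit 180245) (nat_lit 5) (.e (nat_lit 532550) (nat_lit 12) (.e (nat_lit 360475) (nat_lit 8) (.e (nat_lit 557091) (nat_lit 12) (.e (nat_lit 163850) (nat_lit 0) (.e (nat_lit 6273) (nat_lit 337) (.e (nat_lit 2636) (nat_lit 165) .nil))))))) (.g (nat_lit 1) (.e (nat_lit 200987) (nat_lit 0) .nil) .nil)))) (.nd (nat_lit 9) 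
(.lf (nat_lit 512303) (.g (nat_lit 2470) (.e (nat_lit 180243) (nat_lit 5) (.e (nat_lit 532550) (nat_lit 12) (.e (nat_lit 360475) (nat_lit 8) (.e (nat_lit 557091) (nat_lit 12) .nil)))) (.g (nat_lit 0) (.e (nat_lit 200406) (nat_lit 0) .nil) .nil))) 
(.lf (nat_lit 512815) (.g (nat_lit 1427) (.e (nat_lit 180250) (nat_lit 10) (.e (nat_lit 573489) (nat_lit 14) (.e (nat_lit 73755) (nat_lit 8) (.e (nat_lit 557119) (nat_lit 18) .nil)))) (.g (nat_lit 0) (.e (nat_lit 202003) (nat_lit 0) .nil) .nil))))) (.nd (nat_lit 8) (.nd (nat_lit 9) 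
(.lf (nat_lit 512175) (.g (nat_lit 3233) (.e (nat_lit 180243) (nat_lit 5) (.e (nat_lit 532504) (nat_lit 1) (.e (nat_lit 57691) (nat_lit 156) (.e (nat_lit 163874) (nat_lit 3) (.e (nat_lit 204836) (nat_lit 20) (.e (nat_lit 114714) (nat_lit 22) (.e (nat_lit 90174) (nat_lit 14) .nil))))))) (.g (nat_lit 1) (.e (nat_lit 199978) (nat_lit 0) .nil) .nil))) 
(.lf (nat_lit 512687) (.g (nat_lit 2928) (.e (nat_lit 180250) (nat_lit 10) (.e (nat_lit 573471) (nat_lit 11) (.e (nat_lit 16452) (nat_lit 11) (.e (nat_lit 458789) (nat_lit 23) (.e (nat_lit 532482) (nat_lit 0) (.e (nat_lit 6722) (nat_lit 362) .nil)))))) (.g (nat_lit 1) (.e (nat_lit 201418) (nat_lit 0) .nil) .nil)))) (.nd (nat_lit 9) 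
(.lf (nat_lit 512431) (.g (nat_lit 3851) (.e (nat_lit 180244) (nat_lit 5) (.e (nat_lit 532549) (nat_lit 12) (.e (nat_lit 360475) (nat_lit 8) (.e (nat_lit 557090) (nat_lit 12) .nil)))) (.g (nat_lit 0) (.e (nat_lit 200745) (nat_lit 0) .nil) .nil))) 
(.lf (nat_lit 512943) (.g (nat_lit 4114) (.e (nat_lit 180251) (nat_lit 10) (.e (nat_lit 573489) (nat_lit 14) (.e (nat_lit 73755) (nat_lit 8) (.e (nat_lit 557090) (nat_lit 12) (.e (nat_lit 163847) (nat_lit 0) (.e (nat_lit 5934) (nat_lit 322) (.e (nat_lit 57375) (nat_lit 2) (.e (nat_lit 90174) (nat_lit 14) .nil)))))))) (.g (nat_lit 1) (.e (nat_lit 202548) (nat_lit 0) .nil) .nil)))))) 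
(.nd (nat_lit 7) (.nd (nat_lit 8) (.nd (nat_lit 9) 
(.lf (nat_lit 512111) (.g (nat_lit 3952) (.e (nat_lit 180242) (nat_lit 5) (.e (nat_lit 532550) (nat_lit 12) (.e (nat_lit 360475) (nat_lit 8) (.e (nat_lit 557091) (nat_lit 12) (.e (nat_lit 163844) (nat_lit 0) .nil))))) (.g (nat_lit 0) (.e (nat_lit 199871) (nat_lit 0) .nil) .nil))) 
(.lf (nat_lit 512623) (.g (nat_lit 2605) (.e (nat_lit 180249) (nat_lit 10) (.e (nat_lit 573475) (nat_lit 12) (.e (nat_lit 57503) (nat_lit 38) (.e (nat_lit 638995) (nat_lit 7) (.e (nat_lit 163979) (nat_lit 30) .nil))))) (.g (nat_lit 0) (.e (nat_lit 201204) (nat_lit 0) .nil) .nil)))) (.nd (nat_lit 9) 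
(.lf (nat_lit 512367) (.g (nat_lit 1462) (.e (nat_lit 180244) (nat_lit 5) (.e (nat_lit 532523) (nat_lit 7) (.e (nat_lit 319504) (nat_lit 10) (.e (nat_lit 5714) (nat_lit 312) .nil)))) (.g (nat_lit 0) (.e (nat_lit 200613) (nat_lit 0) .nil) .nil))) 
(.lf (nat_lit 512879) (.g (nat_lit 2515) (.e (nat_lit 180251) (nat_lit 10) (.e (nat_lit 573487) (nat_lit 14) (.e (nat_lit 73747) (nat_lit 3) (.e (nat_lit 516119) (nat_lit 1) (.e (nat_lit 171776) (nat_lit 160) .nil))))) (.g (nat_lit 0) (.e (nat_lit 202371) (nat_lit 0) .nil) .nil))))) (.nd (nat_lit 8) (.nd (nat_lit 9) 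
(.lf (nat_lit 512239) (.g (nat_lit 3344) (.e (nat_lit 180243) (nat_lit 5) (.e (nat_lit 532523) (nat_lit 7) (.e (nat_lit 319534) (nat_lit 16) (.e (nat_lit 286735) (nat_lit 3) (.e (nat_lit 98325) (nat_lit 17) (.e (nat_lit 7936) (nat_lit 393) .nil)))))) (.g (nat_lit 1) (.e (nat_lit 200158) (nat_lit 0) .nil) .nil))) 
(.lf (nat_lit 512751) (.g (nat_lit 2675) (.e (nat_lit 180250) (nat_lit 10) (.e (nat_lit 573489) (nat_lit 14) (.e (nat_lit 73747) (nat_lit 3) (.e (nat_lit 516119) (nat_lit 1) (.e (nat_lit 171776) (nat_lit 160) .nil))))) (.g (nat_lit 0) (.e (nat_lit 201846) (nat_lit 0) .nil) .nil)))) (.nd (nat_lit 9) 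
(.lf (nat_lit 512495) (.g (nat_lit 1473) (.e (nat_lit 180245) (nat_lit 5) (.e (nat_lit 532503) (nat_lit 1) (.e (nat_lit 57704) (nat_lit 164) (.e (nat_lit 2601) (nat_lit 163) .nil)))) (.g (nat_lit 0) (.e (nat_lit 200866) (nat_lit 0) .nil) .nil))) 
(.lf (nat_lit 513007) (.g (nat_lit 2164) (.e (nat_lit 180251) (nat_lit 10) (.e (nat_lit 573489) (nat_lit 14) (.e (nat_lit 73755) (nat_lit 8) (.e (nat_lit 557091) (nat_lit 12) (.e (nat_lit 163851) (nat_lit 0) .nil))))) (.g (nat_lit 0) (.e (nat_lit 202653) (nat_lit 0) .nil) .nil)))))))) (.nd (nat_lit 5) (.nd (nat_lit 6) (.nd (nat_lit 7) (.nd (nat_lit 8) (.nd (nat_lit 9) 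
(.lf (nat_lit 512031) (.g (nat_lit 1154) (.e (nat_lit 180225) (nat_lit 0) (.e (nat_lit 6255) (nat_lit 337) (.e (nat_lit 2630) (nat_lit 164) (.e (nat_lit 172088) (nat_lit 9) .nil)))) (.g (nat_lit 0) (.e (nat_lit 198844) (nat_lit 0) .nil) .nil))) 
(.lf (nat_lit 512543) (.g (nat_lit 2888) (.e (nat_lit 180245) (nat_lit 5) (.e (nat_lit 532523) (nat_lit 7) (.e (nat_lit 319534) (nat_lit 16) (.e (nat_lit 286735) (nat_lit 3) (.e (nat_lit 98325) (nat_lit 17) (.e (nat_lit 7936) (nat_lit 393) .nil)))))) (.g (nat_lit 1) (.e (nat_lit 200951) (nat_lit 0) .nil) .nil)))) (.nd (nat_lit 9) 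
(.lf (nat_lit 512287) (.g (nat_lit 3565) (.e (nat_lit 180243) (nat_lit 5) (.e (nat_lit 532550) (nat_lit 12) (.e (nat_lit 360472) (nat_lit 8) (.e (nat_lit 557090) (nat_lit 12) (.e (nat_lit 163843) (nat_lit 0) .nil))))) (.g (nat_lit 0) (.e (nat_lit 200386) (nat_lit 0) .nil) .nil))) 
(.lf (nat_lit 512799) (.g (nat_lit 3563) (.e (nat_lit 180250) (nat_lit 10) (.e (nat_lit 573489) (nat_lit 14) (.e (nat_lit 73755) (nat_lit 8) (.e (nat_lit 557090) (nat_lit 12) (.e (nat_lit 163856) (nat_lit 0) (.e (nat_lit 5948) (nat_lit 322) (.e (nat_lit 57373) (nat_lit 2) (.e (nat_lit 90174) (nat_lit 14) .nil)))))))) (.g (nat_lit 1) (.e (nat_lit 201942) (nat_lit 0) .nil) .nil))))) 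
(.nd (nat_lit 8) (.nd (nat_lit 9) 
(.lf (nat_lit 512159) (.g (nat_lit 2824) (.e (nat_lit 180243) (nat_lit 5) (.e (nat_lit 532501) (nat_lit 1) (.e (nat_lit 57691) (nat_lit 156) (.e (nat_lit 163875) (nat_lit 3) (.e (nat_lit 204837) (nat_lit 20) (.e (nat_lit 114715) (nat_lit 22) (.e (nat_lit 90174) (nat_lit 14) .nil))))))) (.g (nat_lit 1) (.e (nat_lit 199949) (nat_lit 0) .nil) .nil))) 
(.lf (nat_lit 512671) (.g (nat_lit 1697) (.e (nat_lit 180250) (nat_lit 10) (.e (nat_lit 573471) (nat_lit 11) (.e (nat_lit 16446) (nat_lit 9) (.e (nat_lit 426122) (nat_lit 2) .nil)))) (.g (nat_lit 0) (.e (nat_lit 201385) (nat_lit 0) .nil) .nil)))) (.nd (nat_lit 9) 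
(.lf (nat_lit 512415) (.g (nat_lit 3669) (.e (nat_lit 180244) (nat_lit 5) (.e (nat_lit 532535) (nat_lit 9) (.e (nat_lit 336176) (nat_lit 10) (.e (nat_lit 344132) (nat_lit 26) .nil)))) (.g (nat_lit 0) (.e (nat_lit 200712) (nat_lit 0) .nil) .nil))) 
(.lf (nat_lit 512927) (.g (nat_lit 3368) (.e (nat_lit 180251) (nat_lit 10) (.e (nat_lit 573489) (nat_lit 14) (.e (nat_lit 73755) (nat_lit 8) (.e (nat_lit 557090) (nat_lit 12) (.e (nat_lit 163840) (nat_lit 0) (.e (nat_lit 5952) (nat_lit 322) (.e (nat_lit 57371) (nat_lit 2) (.e (nat_lit 90174) (nat_lit 14) .nil)))))))) (.g (nat_lit 1) (.e (nat_lit 202532) (nat_lit 0) .nil) .nil)))))) 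
(.nd (nat_lit 7) (.nd (nat_lit 8) (.nd (nat_lit 9) 
(.lf (nat_lit 512095) (.g (nat_lit 4105) (.e (nat_lit 180242) (nat_lit 5) (.e (nat_lit 532550) (nat_lit 12) (.e (nat_lit 360474) (nat_lit 8) (.e (nat_lit 557093) (nat_lit 12) (.e (nat_lit 163849) (nat_lit 0) .nil))))) (.g (nat_lit 0) (.e (nat_lit 199851) (nat_lit 0) .nil) .nil))) 
(.lf (nat_lit 512607) (.g (nat_lit 1618) (.e (nat_lit 188160) (nat_lit 3) (.e (nat_lit 516195) (nat_lit 26) (.e (nat_lit 336088) (nat_lit 9) (.e (nat_lit 336450) (nat_lit 33) (.e (nat_lit 483072) (nat_lit 5) .nil))))) (.g (nat_lit 0) (.e (nat_lit 201069) (nat_lit 0) .nil) .nil)))) (.nd (nat_lit 9) 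
(.lf (nat_lit 512351) (.g (nat_lit 2408) (.e (nat_lit 180244) (nat_lit 5) (.e (nat_lit 532513) (nat_lit 3) (.e (nat_lit 114718) (nat_lit 23) (.e (nat_lit 98333) (nat_lit 18) (.e (nat_lit 164401) (nat_lit 256) .nil))))) (.g (nat_lit 0) (.e (nat_lit 200591) (nat_lit 0) .nil) .nil))) 
(.lf (nat_lit 512863) (.g (nat_lit 4160) (.e (nat_lit 180251) (nat_lit 10) (.e (nat_lit 573477) (nat_lit 12) (.e (nat_lit 57502) (nat_lit 38) (.e (nat_lit 638995) (nat_lit 7) (.e (nat_lit 163978) (nat_lit 30) (.e (nat_lit 573489) (nat_lit 14) (.e (nat_lit 73755) (nat_lit 8) (.e (nat_lit 557105) (nat_lit 14) .nil)))))))) (.g (nat_lit 1) (.e (nat_lit 202140) (nat_lit 0) .nil) .nil))))) 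
(.nd (nat_lit 8) (.nd (nat_lit 9) 
(.lf (nat_lit 512223) (.g (nat_lit 3342) (.e (nat_lit 180243) (nat_lit 5) (.e (nat_lit 532523) (nat_lit 7) (.e (nat_lit 319530) (nat_lit 16) (.e (nat_lit 286735) (nat_lit 3) (.e (nat_lit 98323) (nat_lit 17) (.e (nat_lit 7936) (nat_lit 393) .nil)))))) (.g (nat_lit 1) (.e (nat_lit 200141) (nat_lit 0) .nil) .nil))) 
(.lf (nat_lit 512735) (.g (nat_lit 4132) (.e (nat_lit 180250) (nat_lit 10) (.e (nat_lit 573487) (nat_lit 14) (.e (nat_lit 73753) (nat_lit 8) (.e (nat_lit 557090) (nat_lit 12) (.e (nat_lit 163843) (nat_lit 0) (.e (nat_lit 5943) (nat_lit 322) (.e (nat_lit 57375) (nat_lit 2) (.e (nat_lit 90172) (nat_lit 14) .nil)))))))) (.g (nat_lit 1) (.e (nat_lit 201793) (nat_lit 0) .nil) .nil)))) (.nd (nat_lit 9) 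
(.lf (nat_lit 512479) (.g (nat_lit 2754) (.e (nat_lit 180244) (nat_lit 5) (.e (nat_lit 532569) (nat_lit 16) (.e (nat_lit 401434) (nat_lit 9) (.e (nat_lit 426125) (nat_lit 2) (.e (nat_lit 196661) (nat_lit 12) (.e (nat_lit 65280) (nat_lit 206) .nil)))))) (.g (nat_lit 1) (.e (nat_lit 200837) (nat_lit 0) .nil) .nil))) 
(.lf (nat_lit 512991) (.g (nat_lit 2504) (.e (nat_lit 180251) (nat_lit 10) (.e (nat_lit 573489) (nat_lit 14) (.e (nat_lit 73755) (nat_lit 8) (.e (nat_lit 557091) (nat_lit 12) (.e (nat_lit 163841) (nat_lit 0) (.e (nat_lit 5940) (nat_lit 322) (.e (nat_lit 57374) (nat_lit 2) (.e (nat_lit 90171) (nat_lit 14) .nil)))))))) (.g (nat_lit 1) (.e (nat_lit 202637) (nat_lit 0) .nil) .nil))))))) 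
(.nd (nat_lit 6) (.nd (nat_lit 7) (.nd (nat_lit 8) (.nd (nat_lit 9) 
(.lf (nat_lit 512063) (.g (nat_lit 1695) (.e (nat_lit 180233) (nat_lit 0) (.e (nat_lit 5448) (nat_lit 306) (.e (nat_lit 2612) (nat_lit 163) (.e (nat_lit 163979) (nat_lit 30) (.e (nat_lit 573482) (nat_lit 13) .nil))))) (.g (nat_lit 0) (.e (nat_lit 199644) (nat_lit 0) .nil) .nil))) 
(.lf (nat_lit 512575) (.g (nat_lit 5304) (.e (nat_lit 188160) (nat_lit 5) (.e (nat_lit 532550) (nat_lit 12) (.e (nat_lit 360475) (nat_lit 8) (.e (nat_lit 557090) (nat_lit 12) .nil)))) (.g (nat_lit 0) (.e (nat_lit 201015) (nat_lit 0) .nil) .nil)))) (.nd (nat_lit 9) 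
(.lf (nat_lit 512319) (.g (nat_lit 3219) (.e (nat_lit 180243) (nat_lit 5) (.e (nat_lit 532569) (nat_lit 16) (.e (nat_lit 401434) (nat_lit 9) (.e (nat_lit 426125) (nat_lit 2) (.e (nat_lit 196661) (nat_lit 12) (.e (nat_lit 65280) (nat_lit 206) .nil)))))) (.g (nat_lit 1) (.e (nat_lit 200522) (nat_lit 0) .nil) .nil))) 
(.lf (nat_lit 512831) (.g (nat_lit 3418) (.e (nat_lit 180251) (nat_lit 10) (.e (nat_lit 573456) (nat_lit 9) (.e (nat_lit 1669) (nat_lit 116) (.e (nat_lit 401459) (nat_lit 13) (.e (nat_lit 483363) (nat_lit 18) (.e (nat_lit 57657) (nat_lit 152) (.e (nat_lit 2637) (nat_lit 165) .nil))))))) (.g (nat_lit 1) (.e (nat_lit 202059) (nat_lit 0) .nil) .nil))))) (.nd (nat_lit 8) (.nd (nat_lit 9) 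
(.lf (nat_lit 512191) (.g (nat_lit 2504) (.e (nat_lit 180243) (nat_lit 5) (.e (nat_lit 532513) (nat_lit 3) (.e (nat_lit 114718) (nat_lit 23) (.e (nat_lit 98333) (nat_lit 18) (.e (nat_lit 164401) (nat_lit 256) .nil))))) (.g (nat_lit 0) (.e (nat_lit 200062) (nat_lit 0) .nil) .nil))) 
(.lf (nat_lit 512703) (.g (nat_lit 2219) (.e (nat_lit 180250) (nat_lit 10) (.e (nat_lit 573474) (nat_lit 12) (.e (nat_lit 57504) (nat_lit 38) (.e (nat_lit 639002) (nat_lit 11) .nil)))) (.g (nat_lit 0) (.e (nat_lit 201439) (nat_lit 0) .nil) .nil)))) (.nd (nat_lit 9) 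
(.lf (nat_lit 512447) (.g (nat_lit 2190) (.e (nat_lit 180244) (nat_lit 5) (.e (nat_lit 532550) (nat_lit 12) (.e (nat_lit 360474) (nat_lit 8) (.e (nat_lit 557093) (nat_lit 12) .nil)))) (.g (nat_lit 0) (.e (nat_lit 200765) (nat_lit 0) .nil) .nil))) 
(.lf (nat_lit 512959) (.g (nat_lit 4070) (.e (nat_lit 180251) (nat_lit 10) (.e (nat_lit 573489) (nat_lit 14) (.e (nat_lit 73755) (nat_lit 8) (.e (nat_lit 557090) (nat_lit 12) (.e (nat_lit 163851) (nat_lit 0) (.e (nat_lit 5950) (nat_lit 322) (.e (nat_lit 57371) (nat_lit 2) (.e (nat_lit 90174) (nat_lit 14) .nil)))))))) (.g (nat_lit 1) (.e (nat_lit 202564) (nat_lit 0) .nil) .nil)))))) 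
(.nd (nat_lit 7) (.nd (nat_lit 8) (.nd (nat_lit 9) 
(.lf (nat_lit 512127) (.g (nat_lit 2482) (.e (nat_lit 180242) (nat_lit 5) (.e (nat_lit 532569) (nat_lit 16) (.e (nat_lit 401448) (nat_lit 10) (.e (nat_lit 434232) (nat_lit 23) (.e (nat_lit 532490) (nat_lit 0) .nil))))) (.g (nat_lit 0) (.e (nat_lit 199890) (nat_lit 0) .nil) .nil))) 
(.lf (nat_lit 512639) (.g (nat_lit 3272) (.e (nat_lit 180250) (nat_lit 10) (.e (nat_lit 573456) (nat_lit 9) (.e (nat_lit 1669) (nat_lit 116) (.e (nat_lit 401459) (nat_lit 13) (.e (nat_lit 483363) (nat_lit 18) (.e (nat_lit 57665) (nat_lit 152) (.e (nat_lit 7936) (nat_lit 165) .nil))))))) (.g (nat_lit 1) (.e (nat_lit 201313) (nat_lit 0) .nil) .nil)))) (.nd (nat_lit 9) 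
(.lf (nat_lit 512383) (.g (nat_lit 2617) (.e (nat_lit 180244) (nat_lit 5) (.e (nat_lit 532523) (nat_lit 7) (.e (nat_lit 319528) (nat_lit 16) (.e (nat_lit 286735) (nat_lit 3) (.e (nat_lit 98325) (nat_lit 17) (.e (nat_lit 7936) (nat_lit 393) .nil)))))) (.g (nat_lit 1) (.e (nat_lit 200638) (nat_lit 0) .nil) .nil))) 
(.lf (nat_lit 512895) (.g (nat_lit 3232) (.e (nat_lit 180251) (nat_lit 10) (.e (nat_lit 573489) (nat_lit 14) (.e (nat_lit 73755) (nat_lit 8) (.e (nat_lit 557067) (nat_lit 9) (.e (nat_lit 2598) (nat_lit 163) (.e (nat_lit 164403) (nat_lit 256) (.e (nat_lit 57373) (nat_lit 2) (.e (nat_lit 90173) (nat_lit 14) .nil)))))))) (.g (nat_lit 1) (.e (nat_lit 202450) (nat_lit 0) .nil) .nil))))) 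
(.nd (nat_lit 8) (.nd (nat_lit 9) 
(.lf (nat_lit 512255) (.g (nat_lit 2829) (.e (nat_lit 180243) (nat_lit 5) (.e (nat_lit 532549) (nat_lit 12) (.e (nat_lit 360473) (nat_lit 8) (.e (nat_lit 557091) (nat_lit 12) (.e (nat_lit 163849) (nat_lit 0) .nil))))) (.g (nat_lit 0) (.e (nat_lit 200334) (nat_lit 0) .nil) .nil))) 
(.lf (nat_lit 512767) (.g (nat_lit 1042) (.e (nat_lit 180250) (nat_lit 10) (.e (nat_lit 573489) (nat_lit 14) (.e (nat_lit 73755) (nat_lit 8) (.e (nat_lit 557089) (nat_lit 12) .nil)))) (.g (nat_lit 0) (.e (nat_lit 201907) (nat_lit 0) .nil) .nil)))) (.nd (nat_lit 9) 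
(.lf (nat_lit 512511) (.g (nat_lit 1576) (.e (nat_lit 180245) (nat_lit 5) (.e (nat_lit 532523) (nat_lit 7) (.e (nat_lit 319504) (nat_lit 10) (.e (nat_lit 5714) (nat_lit 312) .nil)))) (.g (nat_lit 0) (.e (nat_lit 200911) (nat_lit 0) .nil) .nil))) 
(.lf (nat_lit 513023) (.g (nat_lit 2827) (.e (nat_lit 180251) (nat_lit 10) (.e (nat_lit 573489) (nat_lit 14) (.e (nat_lit 73755) (nat_lit 8) (.e (nat_lit 557119) (nat_lit 18) (.e (nat_lit 2795) (nat_lit 180) (.e (nat_lit 311040) (nat_lit 17) (.e (nat_lit 90174) (nat_lit 14) .nil))))))) (.g (nat_lit 1) (.e (nat_lit 202728) (nat_lit 0) .nil) .nil)))))))))))))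

noncomputable def tv5561 : DT := (.nd (nat_lit 0) (.nd (nat_lit 1) (.nd (nat_lit 2) (.nd (nat_lit 3) (.nd (nat_lit 4) (.nd (nat_lit 5) (.nd (nat_lit 6) (.nd (nat_lit 7) (.nd (nat_lit 8) (.nd (nat_lit 9) 
(.lf (nat_lit 513024) (.g (nat_lit 2454) (.e (nat_lit 180251) (nat_lit 10) (.e (nat_lit 573489) (nat_lit 14) (.e (nat_lit 73755) (nat_lit 8) (.e (nat_lit 557119) (nat_lit 18) (.e (nat_lit 2796) (nat_lit 180) .nil))))) (.g (nat_lit 0) (.e (nat_lit 202729) (nat_lit 0) .nil) .nil))) 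
(.lf (nat_lit 513536) (.g (nat_lit 2470) (.e (nat_lit 180277) (nat_lit 32) (.e (nat_lit 1426) (nat_lit 108) (.e (nat_lit 336443) (nat_lit 32) (.e (nat_lit 466969) (nat_lit 21) (.e (nat_lit 164345) (nat_lit 240) (.e (nat_lit 2639) (nat_lit 165) .nil)))))) (.g (nat_lit 1) (.e (nat_lit 204436) (nat_lit 0) .nil) .nil)))) (.nd (nat_lit 9) 
(.lf (nat_lit 513280) (.g (nat_lit 877) (.e (nat_lit 180271) (nat_lit 26) (.e (nat_lit 704737) (nat_lit 11) (.e (nat_lit 16456) (nat_lit 12) .nil))) (.g (nat_lit 0) (.e (nat_lit 203871) (nat_lit 0) .nil) .nil))) 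
(.lf (nat_lit 513792) (.g (nat_lit 1829) (.e (nat_lit 180278) (nat_lit 32) (.e (nat_lit 1253) (nat_lit 92) (.e (nat_lit 98367) (nat_lit 27) (.e (nat_lit 434192) (nat_lit 13) (.e (nat_lit 2570) (nat_lit 160) (.e (nat_lit 32808) (nat_lit 19) .nil)))))) (.g (nat_lit 1) (.e (nat_lit 204921) (nat_lit 0) .nil) .nil))))) (.nd (nat_lit 8) (.nd (nat_lit 9) 
(.lf (nat_lit 513152) (.g (nat_lit 3184) (.e (nat_lit 180252) (nat_lit 10) (.e (nat_lit 573489) (nat_lit 14) (.e (nat_lit 73755) (nat_lit 8) (.e (nat_lit 557090) (nat_lit 12) (.e (nat_lit 163851) (nat_lit 0) (.e (nat_lit 5939) (nat_lit 322) (.e (nat_lit 57375) (nat_lit 2) (.e (nat_lit 90173) (nat_lit 14) .nil)))))))) (.g (nat_lit 1) (.e (nat_lit 203275) (nat_lit 0) .nil) .nil))) 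
(.lf (nat_lit 513664) (.g (nat_lit 1119) (.e (nat_lit 180277) (nat_lit 32) (.e (nat_lit 1659) (nat_lit 115) (.e (nat_lit 393281) (nat_lit 23) (.e (nat_lit 426105) (nat_lit 1) .nil)))) (.g (nat_lit 0) (.e (nat_lit 204636) (nat_lit 0) .nil) .nil)))) (.nd (nat_lit 9) 
(.lf (nat_lit 513408) (.g (nat_lit 722) (.e (nat_lit 188160) (nat_lit 26) (.e (nat_lit 704734) (nat_lit 11) (.e (nat_lit 16466) (nat_lit 13) (.e (nat_lit 483361) (nat_lit 17) (.e (nat_lit 7936) (nat_lit 362) .nil))))) (.g (nat_lit 0) (.e (nat_lit 204209) (nat_lit 0) .nil) .nil))) 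
(.lf (nat_lit 513920) (.g (nat_lit 1288) (.e (nat_lit 180278) (nat_lit 32) (.e (nat_lit 1658) (nat_lit 115) (.e (nat_lit 393294) (nat_lit 26) (.e (nat_lit 475196) (nat_lit 40) .nil)))) (.g (nat_lit 0) (.e (nat_lit 205101) (nat_lit 0) .nil) .nil)))))) (.nd (nat_lit 7) (.nd (nat_lit 8) (.nd (nat_lit 9) 
(.lf (nat_lit 513088) (.g (nat_lit 5896) (.e (nat_lit 180252) (nat_lit 10) (.e (nat_lit 573474) (nat_lit 12) (.e (nat_lit 57504) (nat_lit 38) (.e (nat_lit 638995) (nat_lit 7) (.e (nat_lit 163979) (nat_lit 30) (.e (nat_lit 573489) (nat_lit 14) (.e (nat_lit 73755) (nat_lit 8) (.e (nat_lit 557105) (nat_lit 14) .nil)))))))) (.g (nat_lit 1) (.e (nat_lit 203000) (nat_lit 0) .nil) .nil))) 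
(.lf (nat_lit 513600) (.g (nat_lit 2652) (.e (nat_lit 180277) (nat_lit 32) (.e (nat_lit 1428) (nat_lit 108) (.e (nat_lit 336430) (nat_lit 29) (.e (nat_lit 442428) (nat_lit 24) (.e (nat_lit 229666) (nat_lit 240) (.e (nat_lit 2643) (nat_lit 165) .nil)))))) (.g (nat_lit 1) (.e (nat_lit 204552) (nat_lit 0) .nil) .nil)))) (.nd (nat_lit 9) 
(.lf (nat_lit 513344) (.g (nat_lit 1929) (.e (nat_lit 180271) (nat_lit 26) (.e (nat_lit 704738) (nat_lit 11) (.e (nat_lit 16466) (nat_lit 13) (.e (nat_lit 483357) (nat_lit 17) (.e (nat_lit 7936) (nat_lit 362) .nil))))) (.g (nat_lit 0) (.e (nat_lit 203981) (nat_lit 0) .nil) .nil))) 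
(.lf (nat_lit 513856) (.g (nat_lit 3132) (.e (nat_lit 180278) (nat_lit 32) (.e (nat_lit 1426) (nat_lit 108) (.e (nat_lit 336443) (nat_lit 32) (.e (nat_lit 466969) (nat_lit 21) (.e (nat_lit 164345) (nat_lit 240) (.e (nat_lit 2638) (nat_lit 165) .nil)))))) (.g (nat_lit 1) (.e (nat_lit 204995) (nat_lit 0) .nil) .nil))))) (.nd (nat_lit 8) (.nd (nat_lit 9) 
(.lf (nat_lit 513216) (.g (nat_lit 3208) (.e (nat_lit 180268) (nat_lit 24) (.e (nat_lit 688138) (nat_lit 5) (.e (nat_lit 2887) (nat_lit 184) (.e (nat_lit 426211) (nat_lit 9) (.e (nat_lit 426528) (nat_lit 27) (.e (nat_lit 335894) (nat_lit 0) (.e (nat_lit 6722) (nat_lit 362) .nil))))))) (.g (nat_lit 1) (.e (nat_lit 203474) (nat_lit 0) .nil) .nil))) 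
(.lf (nat_lit 513728) (.g (nat_lit 3008) (.e (nat_lit 180277) (nat_lit 32) (.e (nat_lit 1660) (nat_lit 115) (.e (nat_lit 393283) (nat_lit 24) (.e (nat_lit 434209) (nat_lit 18) (.e (nat_lit 5547) (nat_lit 306) (.e (nat_lit 2638) (nat_lit 165) .nil)))))) (.g (nat_lit 1) (.e (nat_lit 204723) (nat_lit 0) .nil) .nil)))) (.nd (nat_lit 9) 
(.lf (nat_lit 513472) (.g (nat_lit 2004) (.e (nat_lit 180277) (nat_lit 32) (.e (nat_lit 1235) (nat_lit 91) (.e (nat_lit 90170) (nat_lit 13) (.e (nat_lit 172113) (nat_lit 10) (.e (nat_lit 434208) (nat_lit 18) (.e (nat_lit 3955) (nat_lit 239) (.e (nat_lit 2637) (nat_lit 165) .nil))))))) (.g (nat_lit 1) (.e (nat_lit 204356) (nat_lit 0) .nil) .nil))) 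
(.lf (nat_lit 513984) (.g (nat_lit 2404) (.e (nat_lit 180278) (nat_lit 32) (.e (nat_lit 1660) (nat_lit 115) (.e (nat_lit 393282) (nat_lit 24) (.e (nat_lit 434209) (nat_lit 18) (.e (nat_lit 5547) (nat_lit 306) (.e (nat_lit 2640) (nat_lit 165) .nil)))))) (.g (nat_lit 1) (.e (nat_lit 205192) (nat_lit 0) .nil) .nil))))))) (.nd (nat_lit 6) (.nd (nat_lit 7) (.nd (nat_lit 8) (.nd (nat_lit 9) 
(.lf (nat_lit 513056) (.g (nat_lit 2279) (.e (nat_lit 180252) (nat_lit 10) (.e (nat_lit 573471) (nat_lit 11) (.e (nat_lit 16446) (nat_lit 9) (.e (nat_lit 426115) (nat_lit 2) (.e (nat_lit 196677) (nat_lit 16) (.e (nat_lit 130816) (nat_lit 206) .nil)))))) (.g (nat_lit 1) (.e (nat_lit 202936) (nat_lit 0) .nil) .nil))) 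
(.lf (nat_lit 513568) (.g (nat_lit 3847) (.e (nat_lit 180277) (nat_lit 32) (.e (nat_lit 1427) (nat_lit 108) (.e (nat_lit 336430) (nat_lit 29) (.e (nat_lit 442430) (nat_lit 24) (.e (nat_lit 229663) (nat_lit 240) (.e (nat_lit 2643) (nat_lit 165) .nil)))))) (.g (nat_lit 1) (.e (nat_lit 204505) (nat_lit 0) .nil) .nil)))) (.nd (nat_lit 9) 
(.lf (nat_lit 513312) (.g (nat_lit 1054) (.e (nat_lit 180271) (nat_lit 26) (.e (nat_lit 704738) (nat_lit 11) (.e (nat_lit 16436) (nat_lit 9) (.e (nat_lit 426548) (nat_lit 31) .nil)))) (.g (nat_lit 0) (.e (nat_lit 203930) (nat_lit 0) .nil) .nil))) 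
(.lf (nat_lit 513824) (.g (nat_lit 1938) (.e (nat_lit 180278) (nat_lit 32) (.e (nat_lit 1425) (nat_lit 108) (.e (nat_lit 336430) (nat_lit 29) (.e (nat_lit 442419) (nat_lit 21) (.e (nat_lit 164347) (nat_lit 240) (.e (nat_lit 2640) (nat_lit 165) .nil)))))) (.g (nat_lit 1) (.e (nat_lit 204956) (nat_lit 0) .nil) .nil))))) (.nd (nat_lit 8) (.nd (nat_lit 9) 
(.lf (nat_lit 513184) (.g (nat_lit 1699) (.e (nat_lit 188160) (nat_lit 8) (.e (nat_lit 557105) (nat_lit 14) (.e (nat_lit 180251) (nat_lit 10) (.e (nat_lit 573485) (nat_lit 13) (.e (nat_lit 73472) (nat_lit 17) .nil))))) (.g (nat_lit 0) (.e (nat_lit 203392) (nat_lit 0) .nil) .nil))) 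
(.lf (nat_lit 513696) (.g (nat_lit 2361) (.e (nat_lit 180277) (nat_lit 32) (.e (nat_lit 1660) (nat_lit 115) (.e (nat_lit 393271) (nat_lit 23) (.e (nat_lit 426112) (nat_lit 1) (.e (nat_lit 164348) (nat_lit 240) (.e (nat_lit 2639) (nat_lit 165) .nil)))))) (.g (nat_lit 1) (.e (nat_lit 204684) (nat_lit 0) .nil) .nil)))) (.nd (nat_lit 9) 
(.lf (nat_lit 513440) (.g (nat_lit 1152) (.e (nat_lit 188160) (nat_lit 28) (.e (nat_lit 720909) (nat_lit 11) (.e (nat_lit 426189) (nat_lit 9) (.e (nat_lit 426550) (nat_lit 31) (.e (nat_lit 376576) (nat_lit 5) .nil))))) (.g (nat_lit 0) (.e (nat_lit 204245) (nat_lit 0) .nil) .nil))) 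
(.lf (nat_lit 513952) (.g (nat_lit 2843) (.e (nat_lit 180278) (nat_lit 32) (.e (nat_lit 1659) (nat_lit 115) (.e (nat_lit 393283) (nat_lit 24) (.e (nat_lit 434209) (nat_lit 18) (.e (nat_lit 5546) (nat_lit 306) (.e (nat_lit 2639) (nat_lit 165) .nil)))))) (.g (nat_lit 1) (.e (nat_lit 205141) (nat_lit 0) .nil) .nil)))))) (.nd (nat_lit 7) (.nd (nat_lit 8) (.nd (nat_lit 9) 
(.lf (nat_lit 513120) (.g (nat_lit 2868) (.e (nat_lit 180252) (nat_lit 10) (.e (nat_lit 573489) (nat_lit 14) (.e (nat_lit 73755) (nat_lit 8) (.e (nat_lit 557067) (nat_lit 9) (.e (nat_lit 2602) (nat_lit 163) (.e (nat_lit 164399) (nat_lit 256) (.e (nat_lit 57373) (nat_lit 2) (.e (nat_lit 90173) (nat_lit 14) .nil)))))))) (.g (nat_lit 1) (.e (nat_lit 203234) (nat_lit 0) .nil) .nil))) 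
(.lf (nat_lit 513632) (.g (nat_lit 2915) (.e (nat_lit 180277) (nat_lit 32) (.e (nat_lit 1658) (nat_lit 115) (.e (nat_lit 393282) (nat_lit 24) (.e (nat_lit 434209) (nat_lit 18) (.e (nat_lit 5548) (nat_lit 306) (.e (nat_lit 2640) (nat_lit 165) .nil)))))) (.g (nat_lit 1) (.e (nat_lit 204593) (nat_lit 0) .nil) .nil)))) (.nd (nat_lit 9) 
(.lf (nat_lit 513376) (.g (nat_lit 1582) (.e (nat_lit 180272) (nat_lit 26) (.e (nat_lit 704738) (nat_lit 11) (.e (nat_lit 16431) (nat_lit 9) (.e (nat_lit 426528) (nat_lit 27) (.e (nat_lit 335895) (nat_lit 0) .nil))))) (.g (nat_lit 0) (.e (nat_lit 204133) (nat_lit 0) .nil) .nil))) 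
(.lf (nat_lit 513888) (.g (nat_lit 3282) (.e (nat_lit 180278) (nat_lit 32) (.e (nat_lit 1428) (nat_lit 108) (.e (nat_lit 336430) (nat_lit 29) (.e (nat_lit 442421) (nat_lit 21) (.e (nat_lit 164348) (nat_lit 240) (.e (nat_lit 2640) (nat_lit 165) .nil)))))) (.g (nat_lit 1) (.e (nat_lit 205058) (nat_lit 0) .nil) .nil))))) (.nd (nat_lit 8) (.nd (nat_lit 9) 
(.lf (nat_lit 513248) (.g (nat_lit 1863) (.e (nat_lit 180271) (nat_lit 26) (.e (nat_lit 704737) (nat_lit 11) (.e (nat_lit 16431) (nat_lit 9) (.e (nat_lit 426528) (nat_lit 27) (.e (nat_lit 335895) (nat_lit 0) .nil))))) (.g (nat_lit 0) (.e (nat_lit 203817) (nat_lit 0) .nil) .nil))) 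
(.lf (nat_lit 513760) (.g (nat_lit 1084) (.e (nat_lit 180278) (nat_lit 32) (.e (nat_lit 1234) (nat_lit 91) (.e (nat_lit 90170) (nat_lit 13) (.e (nat_lit 172079) (nat_lit 7) .nil)))) (.g (nat_lit 0) (.e (nat_lit 204887) (nat_lit 0) .nil) .nil)))) (.nd (nat_lit 9) 
(.lf (nat_lit 513504) (.g (nat_lit 3900) (.e (nat_lit 180277) (nat_lit 32) (.e (nat_lit 1253) (nat_lit 92) (.e (nat_lit 98373) (nat_lit 29) (.e (nat_lit 450563) (nat_lit 0) (.e (nat_lit 3948) (nat_lit 239) .nil))))) (.g (nat_lit 0) (.e (nat_lit 204392) (nat_lit 0) .nil) .nil))) 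
(.lf (nat_lit 514016) (.g (nat_lit 996) (.e (nat_lit 180278) (nat_lit 32) (.e (nat_lit 1661) (nat_lit 115) (.e (nat_lit 393284) (nat_lit 24) (.e (nat_lit 434270) (nat_lit 38) .nil)))) (.g (nat_lit 0) (.e (nat_lit 205323) (nat_lit 0) .nil) .nil)))))))) (.nd (nat_lit 5) (.nd (nat_lit 6) (.nd (nat_lit 7) (.nd (nat_lit 8) (.nd (nat_lit 9) 
(.lf (nat_lit 513040) (.g (nat_lit 3080) (.e (nat_lit 180252) (nat_lit 10) (.e (nat_lit 573469) (nat_lit 11) (.e (nat_lit 16448) (nat_lit 10) (.e (nat_lit 434231) (nat_lit 23) (.e (nat_lit 532481) (nat_lit 0) .nil))))) (.g (nat_lit 0) (.e (nat_lit 202881) (nat_lit 0) .nil) .nil))) 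
(.lf (nat_lit 513552) (.g (nat_lit 1121) (.e (nat_lit 180277) (nat_lit 32) (.e (nat_lit 1427) (nat_lit 108) (.e (nat_lit 336430) (nat_lit 29) (.e (nat_lit 442402) (nat_lit 20) .nil)))) (.g (nat_lit 0) (.e (nat_lit 204487) (nat_lit 0) .nil) .nil)))) (.nd (nat_lit 9) 
(.lf (nat_lit 513296) (.g (nat_lit 1842) (.e (nat_lit 180271) (nat_lit 26) (.e (nat_lit 704737) (nat_lit 11) (.e (nat_lit 16470) (nat_lit 14) (.e (nat_lit 499456) (nat_lit 25) .nil)))) (.g (nat_lit 0) (.e (nat_lit 203900) (nat_lit 0) .nil) .nil))) 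
(.lf (nat_lit 513808) (.g (nat_lit 3145) (.e (nat_lit 180278) (nat_lit 32) (.e (nat_lit 1253) (nat_lit 92) (.e (nat_lit 98373) (nat_lit 29) (.e (nat_lit 450560) (nat_lit 0) (.e (nat_lit 3991) (nat_lit 239) (.e (nat_lit 2640) (nat_lit 165) .nil)))))) (.g (nat_lit 1) (.e (nat_lit 204937) (nat_lit 0) .nil) .nil))))) (.nd (nat_lit 8) (.nd (nat_lit 9) 
(.lf (nat_lit 513168) (.g (nat_lit 3029) (.e (nat_lit 180252) (nat_lit 10) (.e (nat_lit 573489) (nat_lit 14) (.e (nat_lit 73755) (nat_lit 8) (.e (nat_lit 557119) (nat_lit 18) (.e (nat_lit 2796) (nat_lit 180) (.e (nat_lit 311040) (nat_lit 17) (.e (nat_lit 90173) (nat_lit 14) .nil))))))) (.g (nat_lit 1) (.e (nat_lit 203349) (nat_lit 0) .nil) .nil))) 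
(.lf (nat_lit 513680) (.g (nat_lit 1232) (.e (nat_lit 180277) (nat_lit 32) (.e (nat_lit 1659) (nat_lit 115) (.e (nat_lit 393290) (nat_lit 26) (.e (nat_lit 475197) (nat_lit 40) (.e (nat_lit 704596) (nat_lit 5) .nil))))) (.g (nat_lit 0) (.e (nat_lit 204657) (nat_lit 0) .nil) .nil)))) (.nd (nat_lit 9) 
(.lf (nat_lit 513424) (.g (nat_lit 505) (.e (nat_lit 188160) (nat_lit 28) (.e (nat_lit 720907) (nat_lit 11) (.e (nat_lit 426232) (nat_lit 9) (.e (nat_lit 426549) (nat_lit 31) (.e (nat_lit 376576) (nat_lit 5) .nil))))) (.g (nat_lit 0) (.e (nat_lit 204225) (nat_lit 0) .nil) .nil))) 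
(.lf (nat_lit 513936) (.g (nat_lit 757) (.e (nat_lit 180278) (nat_lit 32) (.e (nat_lit 1659) (nat_lit 115) (.e (nat_lit 393279) (nat_lit 23) (.e (nat_lit 426441) (nat_lit 19) .nil)))) (.g (nat_lit 0) (.e (nat_lit 205121) (nat_lit 0) .nil) .nil)))))) (.nd (nat_lit 7) (.nd (nat_lit 8) (.nd (nat_lit 9) 
(.lf (nat_lit 513104) (.g (nat_lit 2772) (.e (nat_lit 180252) (nat_lit 10) (.e (nat_lit 573488) (nat_lit 14) (.e (nat_lit 73747) (nat_lit 3) (.e (nat_lit 516115) (nat_lit 1) (.e (nat_lit 164161) (nat_lit 152) .nil))))) (.g (nat_lit 0) (.e (nat_lit 203193) (nat_lit 0) .nil) .nil))) 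
(.lf (nat_lit 513616) (.g (nat_lit 2300) (.e (nat_lit 180277) (nat_lit 32) (.e (nat_lit 1428) (nat_lit 108) (.e (nat_lit 336443) (nat_lit 32) (.e (nat_lit 466971) (nat_lit 21) (.e (nat_lit 164347) (nat_lit 240) (.e (nat_lit 2640) (nat_lit 165) .nil)))))) (.g (nat_lit 1) (.e (nat_lit 204573) (nat_lit 0) .nil) .nil)))) (.nd (nat_lit 9) 
(.lf (nat_lit 513360) (.g (nat_lit 1495) (.e (nat_lit 180272) (nat_lit 26) (.e (nat_lit 704737) (nat_lit 11) (.e (nat_lit 16433) (nat_lit 9) (.e (nat_lit 426535) (nat_lit 28) .nil)))) (.g (nat_lit 0) (.e (nat_lit 204080) (nat_lit 0) .nil) .nil))) 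
(.lf (nat_lit 513872) (.g (nat_lit 2900) (.e (nat_lit 180278) (nat_lit 32) (.e (nat_lit 1427) (nat_lit 108) (.e (nat_lit 336430) (nat_lit 29) (.e (nat_lit 442421) (nat_lit 21) (.e (nat_lit 164347) (nat_lit 240) (.e (nat_lit 2640) (nat_lit 165) .nil)))))) (.g (nat_lit 1) (.e (nat_lit 205031) (nat_lit 0) .nil) .nil))))) (.nd (nat_lit 8) (.nd (nat_lit 9) 
(.lf (nat_lit 513232) (.g (nat_lit 415) (.e (nat_lit 180271) (nat_lit 26) (.e (nat_lit 704629) (nat_lit 9) (.e (nat_lit 400) (nat_lit 32) .nil))) (.g (nat_lit 0) (.e (nat_lit 203697) (nat_lit 0) .nil) .nil))) 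
(.lf (nat_lit 513744) (.g (nat_lit 1734) (.e (nat_lit 180277) (nat_lit 32) (.e (nat_lit 1661) (nat_lit 115) (.e (nat_lit 393268) (nat_lit 23) (.e (nat_lit 426359) (nat_lit 15) .nil)))) (.g (nat_lit 0) (.e (nat_lit 204817) (nat_lit 0) .nil) .nil)))) (.nd (nat_lit 9) 
(.lf (nat_lit 513488) (.g (nat_lit 2872) (.e (nat_lit 180277) (nat_lit 32) (.e (nat_lit 1253) (nat_lit 92) (.e (nat_lit 98373) (nat_lit 29) (.e (nat_lit 450560) (nat_lit 0) (.e (nat_lit 3913) (nat_lit 239) .nil))))) (.g (nat_lit 0) (.e (nat_lit 204376) (nat_lit 0) .nil) .nil))) 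
(.lf (nat_lit 514000) (.g (nat_lit 2893) (.e (nat_lit 180278) (nat_lit 32) (.e (nat_lit 1661) (nat_lit 115) (.e (nat_lit 393275) (nat_lit 23) (.e (nat_lit 426109) (nat_lit 1) (.e (nat_lit 164347) (nat_lit 240) (.e (nat_lit 2638) (nat_lit 165) .nil)))))) (.g (nat_lit 1) (.e (nat_lit 205290) (nat_lit 0) .nil) .nil))))))) (.nd (nat_lit 6) (.nd (nat_lit 7) (.nd (nat_lit 8) (.nd (nat_lit 9) 
(.lf (nat_lit 513072) (.g (nat_lit 2591) (.e (nat_lit 180252) (nat_lit 10) (.e (nat_lit 573471) (nat_lit 11) (.e (nat_lit 16449) (nat_lit 10) (.e (nat_lit 434231) (nat_lit 23) (.e (nat_lit 532481) (nat_lit 0) .nil))))) (.g (nat_lit 0) (.e (nat_lit 202965) (nat_lit 0) .nil) .nil))) 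
(.lf (nat_lit 513584) (.g (nat_lit 1809) (.e (nat_lit 180277) (nat_lit 32) (.e (nat_lit 1428) (nat_lit 108) (.e (nat_lit 336369) (nat_lit 27) (.e (nat_lit 426317) (nat_lit 12) (.e (nat_lit 475197) (nat_lit 40) .nil))))) (.g (nat_lit 0) (.e (nat_lit 204533) (nat_lit 0) .nil) .nil)))) (.nd (nat_lit 9) 
(.lf (nat_lit 513328) (.g (nat_lit 2819) (.e (nat_lit 180271) (nat_lit 26) (.e (nat_lit 704738) (nat_lit 11) (.e (nat_lit 16463) (nat_lit 13) (.e (nat_lit 483346) (nat_lit 17) (.e (nat_lit 6722) (nat_lit 362) .nil))))) (.g (nat_lit 1) (.e (nat_lit 203965) (nat_lit 0) .nil) .nil))) 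
(.lf (nat_lit 513840) (.g (nat_lit 3072) (.e (nat_lit 180278) (nat_lit 32) (.e (nat_lit 1425) (nat_lit 108) (.e (nat_lit 336443) (nat_lit 32) (.e (nat_lit 466971) (nat_lit 21) (.e (nat_lit 164347) (nat_lit 240) (.e (nat_lit 2638) (nat_lit 165) .nil)))))) (.g (nat_lit 1) (.e (nat_lit 204975) (nat_lit 0) .nil) .nil))))) (.nd (nat_lit 8) (.nd (nat_lit 9) 
(.lf (nat_lit 513200) (.g (nat_lit 1427) (.e (nat_lit 180263) (nat_lit 21) (.e (nat_lit 663583) (nat_lit 11) (.e (nat_lit 24617) (nat_lit 7) (.e (nat_lit 319526) (nat_lit 15) (.e (nat_lit 278531) (nat_lit 0) .nil))))) (.g (nat_lit 0) (.e (nat_lit 203419) (nat_lit 0) .nil) .nil))) 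
(.lf (nat_lit 513712) (.g (nat_lit 1742) (.e (nat_lit 180277) (nat_lit 32) (.e (nat_lit 1660) (nat_lit 115) (.e (nat_lit 393281) (nat_lit 23) (.e (nat_lit 426098) (nat_lit 1) (.e (nat_lit 164347) (nat_lit 240) (.e (nat_lit 2640) (nat_lit 165) .nil)))))) (.g (nat_lit 1) (.e (nat_lit 204704) (nat_lit 0) .nil) .nil)))) (.nd (nat_lit 9) 
(.lf (nat_lit 513456) (.g (nat_lit 1460) (.e (nat_lit 180275) (nat_lit 32) (.e (nat_lit 1517) (nat_lit 108) (.e (nat_lit 336429) (nat_lit 29) (.e (nat_lit 442419) (nat_lit 21) (.e (nat_lit 164347) (nat_lit 240) (.e (nat_lit 2640) (nat_lit 165) .nil)))))) (.g (nat_lit 1) (.e (nat_lit 204323) (nat_lit 0) .nil) .nil))) 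
(.lf (nat_lit 513968) (.g (nat_lit 1784) (.e (nat_lit 180278) (nat_lit 32) (.e (nat_lit 1660) (nat_lit 115) (.e (nat_lit 393275) (nat_lit 23) (.e (nat_lit 426109) (nat_lit 1) (.e (nat_lit 164345) (nat_lit 240) (.e (nat_lit 2639) (nat_lit 165) .nil)))))) (.g (nat_lit 1) (.e (nat_lit 205173) (nat_lit 0) .nil) .nil)))))) (.nd (nat_lit 7) (.nd (nat_lit 8) (.nd (nat_lit 9) 
(.lf (nat_lit 513136) (.g (nat_lit 2751) (.e (nat_lit 180252) (nat_lit 10) (.e (nat_lit 573489) (nat_lit 14) (.e (nat_lit 73755) (nat_lit 8) (.e (nat_lit 557090) (nat_lit 12) (.e (nat_lit 163841) (nat_lit 0) (.e (nat_lit 5941) (nat_lit 322) (.e (nat_lit 57371) (nat_lit 2) (.e (nat_lit 90173) (nat_lit 14) .nil)))))))) (.g (nat_lit 1) (.e (nat_lit 203259) (nat_lit 0) .nil) .nil))) 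
(.lf (nat_lit 513648) (.g (nat_lit 2472) (.e (nat_lit 180277) (nat_lit 32) (.e (nat_lit 1659) (nat_lit 115) (.e (nat_lit 393271) (nat_lit 23) (.e (nat_lit 426354) (nat_lit 15) (.e (nat_lit 2053) (nat_lit 142) .nil))))) (.g (nat_lit 0) (.e (nat_lit 204615) (nat_lit 0) .nil) .nil)))) (.nd (nat_lit 9) 
(.lf (nat_lit 513392) (.g (nat_lit 978) (.e (nat_lit 180272) (nat_lit 26) (.e (nat_lit 704738) (nat_lit 11) (.e (nat_lit 16444) (nat_lit 9) (.e (nat_lit 426547) (nat_lit 31) (.e (nat_lit 376576) (nat_lit 5) .nil))))) (.g (nat_lit 0) (.e (nat_lit 204157) (nat_lit 0) .nil) .nil))) 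
(.lf (nat_lit 513904) (.g (nat_lit 2256) (.e (nat_lit 180278) (nat_lit 32) (.e (nat_lit 1658) (nat_lit 115) (.e (nat_lit 393271) (nat_lit 23) (.e (nat_lit 426354) (nat_lit 15) (.e (nat_lit 2050) (nat_lit 142) .nil))))) (.g (nat_lit 0) (.e (nat_lit 205082) (nat_lit 0) .nil) .nil))))) (.nd (nat_lit 8) (.nd (nat_lit 9) 
(.lf (nat_lit 513264) (.g (nat_lit 273) (.e (nat_lit 180271) (nat_lit 26) (.e (nat_lit 704737) (nat_lit 11) (.e (nat_lit 16439) (nat_lit 9) .nil))) (.g (nat_lit 0) (.e (nat_lit 203835) (nat_lit 0) .nil) .nil))) 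
(.lf (nat_lit 513776) (.g (nat_lit 1985) (.e (nat_lit 180278) (nat_lit 32) (.e (nat_lit 1235) (nat_lit 91) (.e (nat_lit 90174) (nat_lit 14) (.e (nat_lit 180287) (nat_lit 45) (.e (nat_lit 2570) (nat_lit 160) (.e (nat_lit 32808) (nat_lit 19) .nil)))))) (.g (nat_lit 1) (.e (nat_lit 204903) (nat_lit 0) .nil) .nil)))) (.nd (nat_lit 9) 
(.lf (nat_lit 513520) (.g (nat_lit 2766) (.e (nat_lit 180277) (nat_lit 32) (.e (nat_lit 1425) (nat_lit 108) (.e (nat_lit 336443) (nat_lit 32) (.e (nat_lit 466969) (nat_lit 21) (.e (nat_lit 164348) (nat_lit 240) (.e (nat_lit 2640) (nat_lit 165) .nil)))))) (.g (nat_lit 1) (.e (nat_lit 204415) (nat_lit 0) .nil) .nil))) 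
(.lf (nat_lit 514032) (.g (nat_lit 2128) (.e (nat_lit 188160) (nat_lit 32) (.e (nat_lit 496) (nat_lit 39) (.e (nat_lit 483372) (nat_lit 21) (.e (nat_lit 319500) (nat_lit 10) (.e (nat_lit 616) (nat_lit 48) .nil))))) (.g (nat_lit 0) (.e (nat_lit 205388) (nat_lit 0) .nil) .nil))))))))) (.nd (nat_lit 4) (.nd (nat_lit 5) (.nd (nat_lit 6) (.nd (nat_lit 7) (.nd (nat_lit 8) (.nd (nat_lit 9) 
(.lf (nat_lit 513032) (.g (nat_lit 2852) (.e (nat_lit 180252) (nat_lit 10) (.e (nat_lit 573449) (nat_lit 9) (.e (nat_lit 1669) (nat_lit 116) (.e (nat_lit 401459) (nat_lit 13) (.e (nat_lit 483363) (nat_lit 18) (.e (nat_lit 57665) (nat_lit 152) (.e (nat_lit 2637) (nat_lit 165) .nil))))))) (.g (nat_lit 1) (.e (nat_lit 202793) (nat_lit 0) .nil) .nil))) 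
(.lf (nat_lit 513544) (.g (nat_lit 2370) (.e (nat_lit 180277) (nat_lit 32) (.e (nat_lit 1426) (nat_lit 108) (.e (nat_lit 336443) (nat_lit 32) (.e (nat_lit 466972) (nat_lit 21) (.e (nat_lit 164345) (nat_lit 240) (.e (nat_lit 2640) (nat_lit 165) .nil)))))) (.g (nat_lit 1) (.e (nat_lit 204444) (nat_lit 0) .nil) .nil)))) (.nd (nat_lit 9) 
(.lf (nat_lit 513288) (.g (nat_lit 2131) (.e (nat_lit 180271) (nat_lit 26) (.e (nat_lit 704737) (nat_lit 11) (.e (nat_lit 16465) (nat_lit 13) (.e (nat_lit 483354) (nat_lit 17) (.e (nat_lit 7936) (nat_lit 362) .nil))))) (.g (nat_lit 1) (.e (nat_lit 203885) (nat_lit 0) .nil) .nil))) 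
(.lf (nat_lit 513800) (.g (nat_lit 2878) (.e (nat_lit 180278) (nat_lit 32) (.e (nat_lit 1253) (nat_lit 92) (.e (nat_lit 98373) (nat_lit 29) (.e (nat_lit 450560) (nat_lit 0) (.e (nat_lit 3917) (nat_lit 239) .nil))))) (.g (nat_lit 0) (.e (nat_lit 204929) (nat_lit 0) .nil) .nil))))) (.nd (nat_lit 8) (.nd (nat_lit 9) 
(.lf (nat_lit 513160) (.g (nat_lit 2998) (.e (nat_lit 180252) (nat_lit 10) (.e (nat_lit 573489) (nat_lit 14) (.e (nat_lit 73755) (nat_lit 8) (.e (nat_lit 557090) (nat_lit 12) (.e (nat_lit 163856) (nat_lit 0) (.e (nat_lit 5946) (nat_lit 322) (.e (nat_lit 57373) (nat_lit 2) (.e (nat_lit 90173) (nat_lit 14) .nil)))))))) (.g (nat_lit 1) (.e (nat_lit 203283) (nat_lit 0) .nil) .nil))) 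
(.lf (nat_lit 513672) (.g (nat_lit 3348) (.e (nat_lit 180277) (nat_lit 32) (.e (nat_lit 1659) (nat_lit 115) (.e (nat_lit 393282) (nat_lit 24) (.e (nat_lit 434209) (nat_lit 18) (.e (nat_lit 5547) (nat_lit 306) (.e (nat_lit 2638) (nat_lit 165) .nil)))))) (.g (nat_lit 1) (.e (nat_lit 204644) (nat_lit 0) .nil) .nil)))) (.nd (nat_lit 9) 
(.lf (nat_lit 513416) (.g (nat_lit 1766) (.e (nat_lit 188160) (nat_lit 27) (.e (nat_lit 712753) (nat_lit 30) (.e (nat_lit 450579) (nat_lit 5) (.e (nat_lit 532503) (nat_lit 1) (.e (nat_lit 57651) (nat_lit 152) .nil))))) (.g (nat_lit 0) (.e (nat_lit 204217) (nat_lit 0) .nil) .nil))) 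
(.lf (nat_lit 513928) (.g (nat_lit 1302) (.e (nat_lit 180278) (nat_lit 32) (.e (nat_lit 1659) (nat_lit 115) (.e (nat_lit 393270) (nat_lit 23) (.e (nat_lit 426442) (nat_lit 19) (.e (nat_lit 114432) (nat_lit 5) .nil))))) (.g (nat_lit 0) (.e (nat_lit 205110) (nat_lit 0) .nil) .nil)))))) (.nd (nat_lit 7) (.nd (nat_lit 8) (.nd (nat_lit 9) 
(.lf (nat_lit 513096) (.g (nat_lit 5249) (.e (nat_lit 180252) (nat_lit 10) (.e (nat_lit 573475) (nat_lit 12) (.e (nat_lit 57503) (nat_lit 38) (.e (nat_lit 638995) (nat_lit 7) (.e (nat_lit 163979) (nat_lit 30) (.e (nat_lit 573487) (nat_lit 14) (.e (nat_lit 73754) (nat_lit 8) (.e (nat_lit 557105) (nat_lit 14) .nil)))))))) (.g (nat_lit 1) (.e (nat_lit 203033) (nat_lit 0) .nil) .nil))) 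
(.lf (nat_lit 513608) (.g (nat_lit 2567) (.e (nat_lit 180277) (nat_lit 32) (.e (nat_lit 1428) (nat_lit 108) (.e (nat_lit 336434) (nat_lit 30) (.e (nat_lit 450564) (nat_lit 0) (.e (nat_lit 5546) (nat_lit 306) (.e (nat_lit 2640) (nat_lit 165) .nil)))))) (.g (nat_lit 1) (.e (nat_lit 204564) (nat_lit 0) .nil) .nil)))) (.nd (nat_lit 9) 
(.lf (nat_lit 513352) (.g (nat_lit 399) (.e (nat_lit 180272) (nat_lit 26) (.e (nat_lit 704629) (nat_lit 9) (.e (nat_lit 479) (nat_lit 37) .nil))) (.g (nat_lit 0) (.e (nat_lit 204057) (nat_lit 0) .nil) .nil))) 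
(.lf (nat_lit 513864) (.g (nat_lit 3309) (.e (nat_lit 180278) (nat_lit 32) (.e (nat_lit 1426) (nat_lit 108) (.e (nat_lit 336443) (nat_lit 32) (.e (nat_lit 466971) (nat_lit 21) (.e (nat_lit 164347) (nat_lit 240) (.e (nat_lit 2638) (nat_lit 165) .nil)))))) (.g (nat_lit 1) (.e (nat_lit 205003) (nat_lit 0) .nil) .nil))))) (.nd (nat_lit 8) (.nd (nat_lit 9) 
(.lf (nat_lit 513224) (.g (nat_lit 609) (.e (nat_lit 180269) (nat_lit 25) (.e (nat_lit 696344) (nat_lit 8) (.e (nat_lit 172120) (nat_lit 12) .nil))) (.g (nat_lit 0) (.e (nat_lit 203585) (nat_lit 0) .nil) .nil))) 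
(.lf (nat_lit 513736) (.g (nat_lit 1647) (.e (nat_lit 180277) (nat_lit 32) (.e (nat_lit 1660) (nat_lit 115) (.e (nat_lit 393287) (nat_lit 25) (.e (nat_lit 458774) (nat_lit 18) (.e (nat_lit 5546) (nat_lit 306) (.e (nat_lit 2640) (nat_lit 165) .nil)))))) (.g (nat_lit 1) (.e (nat_lit 204733) (nat_lit 0) .nil) .nil)))) (.nd (nat_lit 9) 
(.lf (nat_lit 513480) (.g (nat_lit 3280) (.e (nat_lit 180277) (nat_lit 32) (.e (nat_lit 1252) (nat_lit 92) (.e (nat_lit 98373) (nat_lit 29) (.e (nat_lit 450563) (nat_lit 0) (.e (nat_lit 3919) (nat_lit 239) (.e (nat_lit 2636) (nat_lit 165) .nil)))))) (.g (nat_lit 1) (.e (nat_lit 204366) (nat_lit 0) .nil) .nil))) 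
(.lf (nat_lit 513992) (.g (nat_lit 1110) (.e (nat_lit 180278) (nat_lit 32) (.e (nat_lit 1661) (nat_lit 115) (.e (nat_lit 393260) (nat_lit 21) (.e (nat_lit 417536) (nat_lit 1) .nil)))) (.g (nat_lit 0) (.e (nat_lit 205215) (nat_lit 0) .nil) .nil))))))) (.nd (nat_lit 6) (.nd (nat_lit 7) (.nd (nat_lit 8) (.nd (nat_lit 9) 
(.lf (nat_lit 513064) (.g (nat_lit 2288) (.e (nat_lit 180252) (nat_lit 10) (.e (nat_lit 573471) (nat_lit 11) (.e (nat_lit 16448) (nat_lit 10) (.e (nat_lit 434220) (nat_lit 19) .nil)))) (.g (nat_lit 0) (.e (nat_lit 202946) (nat_lit 0) .nil) .nil))) 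
(.lf (nat_lit 513576) (.g (nat_lit 3515) (.e (nat_lit 180277) (nat_lit 32) (.e (nat_lit 1427) (nat_lit 108) (.e (nat_lit 336443) (nat_lit 32) (.e (nat_lit 466969) (nat_lit 21) (.e (nat_lit 164348) (nat_lit 240) (.e (nat_lit 2640) (nat_lit 165) .nil)))))) (.g (nat_lit 1) (.e (nat_lit 204523) (nat_lit 0) .nil) .nil)))) (.nd (nat_lit 9) 
(.lf (nat_lit 513320) (.g (nat_lit 1363) (.e (nat_lit 180271) (nat_lit 26) (.e (nat_lit 704738) (nat_lit 11) (.e (nat_lit 16440) (nat_lit 9) (.e (nat_lit 426367) (nat_lit 15) (.e (nat_lit 6237) (nat_lit 335) .nil))))) (.g (nat_lit 0) (.e (nat_lit 203940) (nat_lit 0) .nil) .nil))) 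
(.lf (nat_lit 513832) (.g (nat_lit 2386) (.e (nat_lit 180278) (nat_lit 32) (.e (nat_lit 1425) (nat_lit 108) (.e (nat_lit 336443) (nat_lit 32) (.e (nat_lit 466969) (nat_lit 21) (.e (nat_lit 164345) (nat_lit 240) (.e (nat_lit 2639) (nat_lit 165) .nil)))))) (.g (nat_lit 1) (.e (nat_lit 204967) (nat_lit 0) .nil) .nil))))) (.nd (nat_lit 8) (.nd (nat_lit 9) 
(.lf (nat_lit 513192) (.g (nat_lit 481) (.e (nat_lit 180260) (nat_lit 18) (.e (nat_lit 639020) (nat_lit 16) (.e (nat_lit 65583) (nat_lit 7) .nil))) (.g (nat_lit 0) (.e (nat_lit 203408) (nat_lit 0) .nil) .nil))) 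
(.lf (nat_lit 513704) (.g (nat_lit 1354) (.e (nat_lit 180277) (nat_lit 32) (.e (nat_lit 1660) (nat_lit 115) (.e (nat_lit 393277) (nat_lit 23) (.e (nat_lit 426109) (nat_lit 1) (.e (nat_lit 164347) (nat_lit 240) (.e (nat_lit 2640) (nat_lit 165) .nil)))))) (.g (nat_lit 1) (.e (nat_lit 204695) (nat_lit 0) .nil) .nil)))) (.nd (nat_lit 9) 
(.lf (nat_lit 513448) (.g (nat_lit 206) (.e (nat_lit 188160) (nat_lit 28) (.e (nat_lit 720909) (nat_lit 11) (.e (nat_lit 426199) (nat_lit 9) .nil))) (.g (nat_lit 0) (.e (nat_lit 204253) (nat_lit 0) .nil) .nil))) 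
(.lf (nat_lit 513960) (.g (nat_lit 2048) (.e (nat_lit 180278) (nat_lit 32) (.e (nat_lit 1659) (nat_lit 115) (.e (nat_lit 393291) (nat_lit 26) (.e (nat_lit 475198) (nat_lit 40) (.e (nat_lit 704595) (nat_lit 5) .nil))))) (.g (nat_lit 0) (.e (nat_lit 205151) (nat_lit 0) .nil) .nil)))))) (.nd (nat_lit 7) (.nd (nat_lit 8) (.nd (nat_lit 9) 
(.lf (nat_lit 513128) (.g (nat_lit 3373) (.e (nat_lit 180252) (nat_lit 10) (.e (nat_lit 573489) (nat_lit 14) (.e (nat_lit 73755) (nat_lit 8) (.e (nat_lit 557067) (nat_lit 9) (.e (nat_lit 2606) (nat_lit 163) (.e (nat_lit 164402) (nat_lit 256) (.e (nat_lit 57371) (nat_lit 2) (.e (nat_lit 90173) (nat_lit 14) .nil)))))))) (.g (nat_lit 1) (.e (nat_lit 203242) (nat_lit 0) .nil) .nil))) 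
(.lf (nat_lit 513640) (.g (nat_lit 489) (.e (nat_lit 180277) (nat_lit 32) (.e (nat_lit 1659) (nat_lit 115) (.e (nat_lit 393267) (nat_lit 23) .nil))) (.g (nat_lit 0) (.e (nat_lit 204604) (nat_lit 0) .nil) .nil)))) (.nd (nat_lit 9) 
(.lf (nat_lit 513384) (.g (nat_lit 1525) (.e (nat_lit 180272) (nat_lit 26) (.e (nat_lit 704738) (nat_lit 11) (.e (nat_lit 16436) (nat_lit 9) (.e (nat_lit 426534) (nat_lit 28) .nil)))) (.g (nat_lit 0) (.e (nat_lit 204142) (nat_lit 0) .nil) .nil))) 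
(.lf (nat_lit 513896) (.g (nat_lit 2385) (.e (nat_lit 180278) (nat_lit 32) (.e (nat_lit 1428) (nat_lit 108) (.e (nat_lit 336443) (nat_lit 32) (.e (nat_lit 466971) (nat_lit 21) (.e (nat_lit 164345) (nat_lit 240) (.e (nat_lit 2639) (nat_lit 165) .nil)))))) (.g (nat_lit 1) (.e (nat_lit 205067) (nat_lit 0) .nil) .nil))))) (.nd (nat_lit 8) (.nd (nat_lit 9) 
(.lf (nat_lit 513256) (.g (nat_lit 1387) (.e (nat_lit 180271) (nat_lit 26) (.e (nat_lit 704737) (nat_lit 11) (.e (nat_lit 16434) (nat_lit 9) (.e (nat_lit 426535) (nat_lit 28) .nil)))) (.g (nat_lit 0) (.e (nat_lit 203827) (nat_lit 0) .nil) .nil))) 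
(.lf (nat_lit 513768) (.g (nat_lit 1076) (.e (nat_lit 180278) (nat_lit 32) (.e (nat_lit 1235) (nat_lit 91) (.e (nat_lit 90170) (nat_lit 13) (.e (nat_lit 172039) (nat_lit 0) (.e (nat_lit 7013) (nat_lit 377) .nil))))) (.g (nat_lit 0) (.e (nat_lit 204895) (nat_lit 0) .nil) .nil)))) (.nd (nat_lit 9) 
(.lf (nat_lit 513512) (.g (nat_lit 1372) (.e (nat_lit 180277) (nat_lit 32) (.e (nat_lit 1253) (nat_lit 92) (.e (nat_lit 98373) (nat_lit 29) (.e (nat_lit 458496) (nat_lit 0) .nil)))) (.g (nat_lit 0) (.e (nat_lit 204400) (nat_lit 0) .nil) .nil))) 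
(.lf (nat_lit 514024) (.g (nat_lit 2644) (.e (nat_lit 180278) (nat_lit 32) (.e (nat_lit 1661) (nat_lit 115) (.e (nat_lit 393291) (nat_lit 26) (.e (nat_lit 475203) (nat_lit 40) .nil)))) (.g (nat_lit 0) (.e (nat_lit 205337) (nat_lit 0) .nil) .nil)))))))) (.nd (nat_lit 5) (.nd (nat_lit 6) (.nd (nat_lit 7) (.nd (nat_lit 8) (.nd (nat_lit 9) 
(.lf (nat_lit 513048) (.g (nat_lit 2355) (.e (nat_lit 180252) (nat_lit 10) (.e (nat_lit 573471) (nat_lit 11) (.e (nat_lit 16425) (nat_lit 7) (.e (nat_lit 409602) (nat_lit 0) .nil)))) (.g (nat_lit 0) (.e (nat_lit 202900) (nat_lit 0) .nil) .nil))) 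
(.lf (nat_lit 513560) (.g (nat_lit 3025) (.e (nat_lit 180277) (nat_lit 32) (.e (nat_lit 1427) (nat_lit 108) (.e (nat_lit 336430) (nat_lit 29) (.e (nat_lit 442419) (nat_lit 21) (.e (nat_lit 164348) (nat_lit 240) (.e (nat_lit 2639) (nat_lit 165) .nil)))))) (.g (nat_lit 1) (.e (nat_lit 204495) (nat_lit 0) .nil) .nil)))) (.nd (nat_lit 9) 
(.lf (nat_lit 513304) (.g (nat_lit 406) (.e (nat_lit 180271) (nat_lit 26) (.e (nat_lit 704738) (nat_lit 11) (.e (nat_lit 16432) (nat_lit 9) .nil))) (.g (nat_lit 0) (.e (nat_lit 203918) (nat_lit 0) .nil) .nil))) 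
(.lf (nat_lit 513816) (.g (nat_lit 3105) (.e (nat_lit 180278) (nat_lit 32) (.e (nat_lit 1253) (nat_lit 92) (.e (nat_lit 98373) (nat_lit 29) (.e (nat_lit 450567) (nat_lit 0) (.e (nat_lit 3978) (nat_lit 239) .nil))))) (.g (nat_lit 0) (.e (nat_lit 204945) (nat_lit 0) .nil) .nil))))) (.nd (nat_lit 8) (.nd (nat_lit 9) 
(.lf (nat_lit 513176) (.g (nat_lit 2080) (.e (nat_lit 180252) (nat_lit 10) (.e (nat_lit 573503) (nat_lit 18) (.e (nat_lit 1348) (nat_lit 102) (.e (nat_lit 286761) (nat_lit 13) (.e (nat_lit 393217) (nat_lit 0) .nil))))) (.g (nat_lit 0) (.e (nat_lit 203382) (nat_lit 0) .nil) .nil))) 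
(.lf (nat_lit 513688) (.g (nat_lit 2434) (.e (nat_lit 180277) (nat_lit 32) (.e (nat_lit 1660) (nat_lit 115) (.e (nat_lit 393266) (nat_lit 23) (.e (nat_lit 426109) (nat_lit 1) (.e (nat_lit 164345) (nat_lit 240) (.e (nat_lit 2638) (nat_lit 165) .nil)))))) (.g (nat_lit 1) (.e (nat_lit 204674) (nat_lit 0) .nil) .nil)))) (.nd (nat_lit 9) 
(.lf (nat_lit 513432) (.g (nat_lit 626) (.e (nat_lit 188160) (nat_lit 28) (.e (nat_lit 720907) (nat_lit 11) (.e (nat_lit 426262) (nat_lit 9) (.e (nat_lit 426547) (nat_lit 31) (.e (nat_lit 376576) (nat_lit 5) .nil))))) (.g (nat_lit 0) (.e (nat_lit 204236) (nat_lit 0) .nil) .nil))) 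
(.lf (nat_lit 513944) (.g (nat_lit 2026) (.e (nat_lit 180278) (nat_lit 32) (.e (nat_lit 1659) (nat_lit 115) (.e (nat_lit 393281) (nat_lit 23) (.e (nat_lit 426107) (nat_lit 1) (.e (nat_lit 164345) (nat_lit 240) (.e (nat_lit 2640) (nat_lit 165) .nil)))))) (.g (nat_lit 1) (.e (nat_lit 205131) (nat_lit 0) .nil) .nil)))))) (.nd (nat_lit 7) (.nd (nat_lit 8) (.nd (nat_lit 9) 
(.lf (nat_lit 513112) (.g (nat_lit 3057) (.e (nat_lit 180252) (nat_lit 10) (.e (nat_lit 573489) (nat_lit 14) (.e (nat_lit 73747) (nat_lit 3) (.e (nat_lit 516115) (nat_lit 1) (.e (nat_lit 164161) (nat_lit 152) .nil))))) (.g (nat_lit 0) (.e (nat_lit 203213) (nat_lit 0) .nil) .nil))) 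
(.lf (nat_lit 513624) (.g (nat_lit 151) (.e (nat_lit 180277) (nat_lit 32) (.e (nat_lit 1658) (nat_lit 115) (.e (nat_lit 393272) (nat_lit 23) .nil))) (.g (nat_lit 0) (.e (nat_lit 204584) (nat_lit 0) .nil) .nil)))) (.nd (nat_lit 9) 
(.lf (nat_lit 513368) (.g (nat_lit 1202) (.e (nat_lit 180272) (nat_lit 26) (.e (nat_lit 704737) (nat_lit 11) (.e (nat_lit 16444) (nat_lit 9) (.e (nat_lit 426547) (nat_lit 31) (.e (nat_lit 376576) (nat_lit 5) .nil))))) (.g (nat_lit 0) (.e (nat_lit 204094) (nat_lit 0) .nil) .nil))) 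
(.lf (nat_lit 513880) (.g (nat_lit 1063) (.e (nat_lit 180278) (nat_lit 32) (.e (nat_lit 1428) (nat_lit 108) (.e (nat_lit 336430) (nat_lit 29) (.e (nat_lit 442378) (nat_lit 0) .nil)))) (.g (nat_lit 0) (.e (nat_lit 205050) (nat_lit 0) .nil) .nil))))) (.nd (nat_lit 8) (.nd (nat_lit 9) 
(.lf (nat_lit 513240) (.g (nat_lit 1340) (.e (nat_lit 180271) (nat_lit 26) (.e (nat_lit 704736) (nat_lit 11) (.e (nat_lit 16465) (nat_lit 13) (.e (nat_lit 483360) (nat_lit 17) .nil)))) (.g (nat_lit 0) (.e (nat_lit 203801) (nat_lit 0) .nil) .nil))) 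
(.lf (nat_lit 513752) (.g (nat_lit 3140) (.e (nat_lit 180277) (nat_lit 32) (.e (nat_lit 1661) (nat_lit 115) (.e (nat_lit 393281) (nat_lit 23) (.e (nat_lit 426098) (nat_lit 1) (.e (nat_lit 164348) (nat_lit 240) (.e (nat_lit 2640) (nat_lit 165) .nil)))))) (.g (nat_lit 1) (.e (nat_lit 204854) (nat_lit 0) .nil) .nil)))) (.nd (nat_lit 9) 
(.lf (nat_lit 513496) (.g (nat_lit 2893) (.e (nat_lit 180277) (nat_lit 32) (.e (nat_lit 1253) (nat_lit 92) (.e (nat_lit 98373) (nat_lit 29) (.e (nat_lit 450560) (nat_lit 0) (.e (nat_lit 3988) (nat_lit 239) (.e (nat_lit 2640) (nat_lit 165) .nil)))))) (.g (nat_lit 1) (.e (nat_lit 204384) (nat_lit 0) .nil) .nil))) 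
(.lf (nat_lit 514008) (.g (nat_lit 2648) (.e (nat_lit 180278) (nat_lit 32) (.e (nat_lit 1661) (nat_lit 115) (.e (nat_lit 393282) (nat_lit 24) (.e (nat_lit 434209) (nat_lit 18) (.e (nat_lit 5547) (nat_lit 306) (.e (nat_lit 2640) (nat_lit 165) .nil)))))) (.g (nat_lit 1) (.e (nat_lit 205311) (nat_lit 0) .nil) .nil))))))) (.nd (nat_lit 6) (.nd (nat_lit 7) (.nd (nat_lit 8) (.nd (nat_lit 9) 
(.lf (nat_lit 513080) (.g (nat_lit 1106) (.e (nat_lit 180252) (nat_lit 10) (.e (nat_lit 573471) (nat_lit 11) (.e (nat_lit 16453) (nat_lit 11) (.e (nat_lit 458788) (nat_lit 23) .nil)))) (.g (nat_lit 0) (.e (nat_lit 202976) (nat_lit 0) .nil) .nil))) 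
(.lf (nat_lit 513592) (.g (nat_lit 2753) (.e (nat_lit 180277) (nat_lit 32) (.e (nat_lit 1428) (nat_lit 108) (.e (nat_lit 336430) (nat_lit 29) (.e (nat_lit 442419) (nat_lit 21) (.e (nat_lit 164347) (nat_lit 240) (.e (nat_lit 2640) (nat_lit 165) .nil)))))) (.g (nat_lit 1) (.e (nat_lit 204544) (nat_lit 0) .nil) .nil)))) (.nd (nat_lit 9) 
(.lf (nat_lit 513336) (.g (nat_lit 1538) (.e (nat_lit 180271) (nat_lit 26) (.e (nat_lit 704738) (nat_lit 11) (.e (nat_lit 16464) (nat_lit 13) (.e (nat_lit 483351) (nat_lit 17) (.e (nat_lit 7936) (nat_lit 362) .nil))))) (.g (nat_lit 1) (.e (nat_lit 203973) (nat_lit 0) .nil) .nil))) 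
(.lf (nat_lit 513848) (.g (nat_lit 2084) (.e (nat_lit 180278) (nat_lit 32) (.e (nat_lit 1426) (nat_lit 108) (.e (nat_lit 336430) (nat_lit 29) (.e (nat_lit 442419) (nat_lit 21) (.e (nat_lit 164347) (nat_lit 240) (.e (nat_lit 2640) (nat_lit 165) .nil)))))) (.g (nat_lit 1) (.e (nat_lit 204985) (nat_lit 0) .nil) .nil))))) (.nd (nat_lit 8) (.nd (nat_lit 9) 
(.lf (nat_lit 513208) (.g (nat_lit 2120) (.e (nat_lit 180265) (nat_lit 21) (.e (nat_lit 663583) (nat_lit 11) (.e (nat_lit 24617) (nat_lit 7) (.e (nat_lit 319533) (nat_lit 16) (.e (nat_lit 286723) (nat_lit 0) .nil))))) (.g (nat_lit 0) (.e (nat_lit 203432) (nat_lit 0) .nil) .nil))) 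
(.lf (nat_lit 513720) (.g (nat_lit 2782) (.e (nat_lit 180277) (nat_lit 32) (.e (nat_lit 1660) (nat_lit 115) (.e (nat_lit 393281) (nat_lit 23) (.e (nat_lit 426108) (nat_lit 1) (.e (nat_lit 164345) (nat_lit 240) (.e (nat_lit 2639) (nat_lit 165) .nil)))))) (.g (nat_lit 1) (.e (nat_lit 204712) (nat_lit 0) .nil) .nil)))) (.nd (nat_lit 9) 
(.lf (nat_lit 513464) (.g (nat_lit 1758) (.e (nat_lit 180277) (nat_lit 32) (.e (nat_lit 1234) (nat_lit 91) (.e (nat_lit 90170) (nat_lit 13) (.e (nat_lit 172113) (nat_lit 10) (.e (nat_lit 434237) (nat_lit 25) .nil))))) (.g (nat_lit 0) (.e (nat_lit 204348) (nat_lit 0) .nil) .nil))) 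
(.lf (nat_lit 513976) (.g (nat_lit 2812) (.e (nat_lit 180278) (nat_lit 32) (.e (nat_lit 1660) (nat_lit 115) (.e (nat_lit 393281) (nat_lit 23) (.e (nat_lit 426098) (nat_lit 1) (.e (nat_lit 164348) (nat_lit 240) (.e (nat_lit 2640) (nat_lit 165) .nil)))))) (.g (nat_lit 1) (.e (nat_lit 205183) (nat_lit 0) .nil) .nil)))))) (.nd (nat_lit 7) (.nd (nat_lit 8) (.nd (nat_lit 9) 
(.lf (nat_lit 513144) (.g (nat_lit 3095) (.e (nat_lit 180252) (nat_lit 10) (.e (nat_lit 573489) (nat_lit 14) (.e (nat_lit 73755) (nat_lit 8) (.e (nat_lit 557090) (nat_lit 12) (.e (nat_lit 163845) (nat_lit 0) (.e (nat_lit 5942) (nat_lit 322) (.e (nat_lit 57373) (nat_lit 2) (.e (nat_lit 90173) (nat_lit 14) .nil)))))))) (.g (nat_lit 1) (.e (nat_lit 203267) (nat_lit 0) .nil) .nil))) 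
(.lf (nat_lit 513656) (.g (nat_lit 433) (.e (nat_lit 180277) (nat_lit 32) (.e (nat_lit 1659) (nat_lit 115) (.e (nat_lit 393279) (nat_lit 23) .nil))) (.g (nat_lit 0) (.e (nat_lit 204627) (nat_lit 0) .nil) .nil)))) (.nd (nat_lit 9) 
(.lf (nat_lit 513400) (.g (nat_lit 939) (.e (nat_lit 188160) (nat_lit 26) (.e (nat_lit 704732) (nat_lit 11) (.e (nat_lit 16466) (nat_lit 13) (.e (nat_lit 483346) (nat_lit 17) .nil)))) (.g (nat_lit 0) (.e (nat_lit 204201) (nat_lit 0) .nil) .nil))) 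
(.lf (nat_lit 513912) (.g (nat_lit 2325) (.e (nat_lit 180278) (nat_lit 32) (.e (nat_lit 1658) (nat_lit 115) (.e (nat_lit 393282) (nat_lit 24) (.e (nat_lit 434209) (nat_lit 18) (.e (nat_lit 5546) (nat_lit 306) (.e (nat_lit 2640) (nat_lit 165) .nil)))))) (.g (nat_lit 1) (.e (nat_lit 205091) (nat_lit 0) .nil) .nil))))) (.nd (nat_lit 8) (.nd (nat_lit 9) 
(.lf (nat_lit 513272) (.g (nat_lit 1188) (.e (nat_lit 180271) (nat_lit 26) (.e (nat_lit 704737) (nat_lit 11) (.e (nat_lit 16439) (nat_lit 9) (.e (nat_lit 426513) (nat_lit 27) (.e (nat_lit 335964) (nat_lit 0) .nil))))) (.g (nat_lit 0) (.e (nat_lit 203848) (nat_lit 0) .nil) .nil))) 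
(.lf (nat_lit 513784) (.g (nat_lit 3302) (.e (nat_lit 180278) (nat_lit 32) (.e (nat_lit 1252) (nat_lit 92) (.e (nat_lit 98373) (nat_lit 29) (.e (nat_lit 450563) (nat_lit 0) (.e (nat_lit 3919) (nat_lit 239) (.e (nat_lit 2635) (nat_lit 165) .nil)))))) (.g (nat_lit 1) (.e (nat_lit 204912) (nat_lit 0) .nil) .nil)))) (.nd (nat_lit 9) 
(.lf (nat_lit 513528) (.g (nat_lit 912) (.e (nat_lit 180277) (nat_lit 32) (.e (nat_lit 1426) (nat_lit 108) (.e (nat_lit 336430) (nat_lit 29) (.e (nat_lit 442429) (nat_lit 24) .nil)))) (.g (nat_lit 0) (.e (nat_lit 204427) (nat_lit 0) .nil) .nil))) 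
(.lf (nat_lit 514040) (.g (nat_lit 1523) (.e (nat_lit 188160) (nat_lit 32) (.e (nat_lit 1239) (nat_lit 91) (.e (nat_lit 90166) (nat_lit 13) (.e (nat_lit 172120) (nat_lit 12) (.e (nat_lit 475185) (nat_lit 29) .nil))))) (.g (nat_lit 0) (.e (nat_lit 205404) (nat_lit 0) .nil) .nil)))))))))) 
(.nd (nat_lit 3) (.nd (nat_lit 4) (.nd (nat_lit 5) (.nd (nat_lit 6) (.nd (nat_lit 7) 
(.nd (nat_lit 8) (.nd (nat_lit 9) 
(.lf (nat_lit 513028) (.g (nat_lit 1053) (.e (nat_lit 180251) (nat_lit 10) (.e (nat_lit 573503) (nat_lit 18) (.e (nat_lit 1348) (nat_lit 102) (.e (nat_lit 286761) (nat_lit 13) .nil)))) (.g (nat_lit 0) (.e (nat_lit 202770) (nat_lit 0) .nil) .nil))) 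
(.lf (nat_lit 513540) (.g (nat_lit 2402) (.e (nat_lit 180277) (nat_lit 32) (.e (nat_lit 1426) (nat_lit 108) (.e (nat_lit 336443) (nat_lit 32) (.e (nat_lit 466971) (nat_lit 21) (.e (nat_lit 164347) (nat_lit 240) (.e (nat_lit 2640) (nat_lit 165) .nil)))))) (.g (nat_lit 1) (.e (nat_lit 204440) (nat_lit 0) .nil) .nil)))) (.nd (nat_lit 9) 
(.lf (nat_lit 513284) (.g (nat_lit 1563) (.e (nat_lit 180271) (nat_lit 26) (.e (nat_lit 704737) (nat_lit 11) (.e (nat_lit 16463) (nat_lit 13) (.e (nat_lit 483361) (nat_lit 17) (.e (nat_lit 7936) (nat_lit 362) .nil))))) (.g (nat_lit 1) (.e (nat_lit 203881) (nat_lit 0) .nil) .nil))) 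
(.lf (nat_lit 513796) (.g (nat_lit 3208) (.e (nat_lit 180278) (nat_lit 32) (.e (nat_lit 1253) (nat_lit 92) (.e (nat_lit 98373) (nat_lit 29) (.e (nat_lit 450560) (nat_lit 0) (.e (nat_lit 3913) (nat_lit 239) (.e (nat_lit 2641) (nat_lit 165) .nil)))))) (.g (nat_lit 1) (.e (nat_lit 204925) (nat_lit 0) .nil) .nil))))) (.nd (nat_lit 8) (.nd (nat_lit 9) 
(.lf (nat_lit 513156) (.g (nat_lit 2685) (.e (nat_lit 180252) (nat_lit 10) (.e (nat_lit 573489) (nat_lit 14) (.e (nat_lit 73755) (nat_lit 8) (.e (nat_lit 557090) (nat_lit 12) (.e (nat_lit 163852) (nat_lit 0) (.e (nat_lit 5950) (nat_lit 322) (.e (nat_lit 57371) (nat_lit 2) (.e (nat_lit 90173) (nat_lit 14) .nil)))))))) (.g (nat_lit 1) (.e (nat_lit 203279) (nat_lit 0) .nil) .nil))) 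
(.lf (nat_lit 513668) (.g (nat_lit 2942) (.e (nat_lit 180277) (nat_lit 32) (.e (nat_lit 1659) (nat_lit 115) (.e (nat_lit 393281) (nat_lit 23) (.e (nat_lit 426107) (nat_lit 1) (.e (nat_lit 164347) (nat_lit 240) (.e (nat_lit 2640) (nat_lit 165) .nil)))))) (.g (nat_lit 1) (.e (nat_lit 204640) (nat_lit 0) .nil) .nil)))) (.nd (nat_lit 9) 
(.lf (nat_lit 513412) (.g (nat_lit 2099) (.e (nat_lit 188160) (nat_lit 27) (.e (nat_lit 712753) (nat_lit 30) (.e (nat_lit 450579) (nat_lit 5) (.e (nat_lit 532499) (nat_lit 1) (.e (nat_lit 57654) (nat_lit 152) .nil))))) (.g (nat_lit 0) (.e (nat_lit 204213) (nat_lit 0) .nil) .nil))) 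
(.lf (nat_lit 513924) (.g (nat_lit 2836) (.e (nat_lit 180278) (nat_lit 32) (.e (nat_lit 1659) (nat_lit 115) (.e (nat_lit 393266) (nat_lit 23) (.e (nat_lit 426109) (nat_lit 1) (.e (nat_lit 164346) (nat_lit 240) (.e (nat_lit 2638) (nat_lit 165) .nil)))))) (.g (nat_lit 1) (.e (nat_lit 205106) (nat_lit 0) .nil) .nil)))))) (.nd (nat_lit 7) (.nd (nat_lit 8) (.nd (nat_lit 9) 
(.lf (nat_lit 513092) (.g (nat_lit 4753) (.e (nat_lit 180252) (nat_lit 10) (.e (nat_lit 573474) (nat_lit 12) (.e (nat_lit 57572) (nat_lit 54) (.e (nat_lit 770072) (nat_lit 8) (.e (nat_lit 65571) (nat_lit 3) (.e (nat_lit 98325) (nat_lit 17) (.e (nat_lit 7936) (nat_lit 393) .nil))))))) (.g (nat_lit 1) (.e (nat_lit 203006) (nat_lit 0) .nil) .nil))) 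
(.lf (nat_lit 513604) (.g (nat_lit 3025) (.e (nat_lit 180277) (nat_lit 32) (.e (nat_lit 1428) (nat_lit 108) (.e (nat_lit 336432) (nat_lit 30) (.e (nat_lit 450565) (nat_lit 0) (.e (nat_lit 5548) (nat_lit 306) (.e (nat_lit 2640) (nat_lit 165) .nil)))))) (.g (nat_lit 1) (.e (nat_lit 204556) (nat_lit 0) .nil) .nil)))) (.nd (nat_lit 9) 
(.lf (nat_lit 513348) (.g (nat_lit 1537) (.e (nat_lit 180271) (nat_lit 26) (.e (nat_lit 704738) (nat_lit 11) (.e (nat_lit 16470) (nat_lit 14) (.e (nat_lit 499456) (nat_lit 25) .nil)))) (.g (nat_lit 0) (.e (nat_lit 203986) (nat_lit 0) .nil) .nil))) 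
(.lf (nat_lit 513860) (.g (nat_lit 3342) (.e (nat_lit 180278) (nat_lit 32) (.e (nat_lit 1426) (nat_lit 108) (.e (nat_lit 336443) (nat_lit 32) (.e (nat_lit 466969) (nat_lit 21) (.e (nat_lit 164348) (nat_lit 240) (.e (nat_lit 2638) (nat_lit 165) .nil)))))) (.g (nat_lit 1) (.e (nat_lit 204999) (nat_lit 0) .nil) .nil))))) (.nd (nat_lit 8) (.nd (nat_lit 9) 
(.lf (nat_lit 513220) (.g (nat_lit 379) (.e (nat_lit 180269) (nat_lit 25) (.e (nat_lit 696343) (nat_lit 8) (.e (nat_lit 172120) (nat_lit 12) .nil))) (.g (nat_lit 0) (.e (nat_lit 203580) (nat_lit 0) .nil) .nil))) 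
(.lf (nat_lit 513732) (.g (nat_lit 3049) (.e (nat_lit 180277) (nat_lit 32) (.e (nat_lit 1660) (nat_lit 115) (.e (nat_lit 393283) (nat_lit 24) (.e (nat_lit 434209) (nat_lit 18) (.e (nat_lit 5548) (nat_lit 306) (.e (nat_lit 2640) (nat_lit 165) .nil)))))) (.g (nat_lit 1) (.e (nat_lit 204727) (nat_lit 0) .nil) .nil)))) (.nd (nat_lit 9) 
(.lf (nat_lit 513476) (.g (nat_lit 1368) (.e (nat_lit 180277) (nat_lit 32) (.e (nat_lit 1235) (nat_lit 91) (.e (nat_lit 90177) (nat_lit 15) (.e (nat_lit 188434) (nat_lit 20) (.e (nat_lit 3271) (nat_lit 199) .nil))))) (.g (nat_lit 0) (.e (nat_lit 204361) (nat_lit 0) .nil) .nil))) 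
(.lf (nat_lit 513988) (.g (nat_lit 2091) (.e (nat_lit 180278) (nat_lit 32) (.e (nat_lit 1660) (nat_lit 115) (.e (nat_lit 393283) (nat_lit 24) (.e (nat_lit 434209) (nat_lit 18) (.e (nat_lit 5548) (nat_lit 306) (.e (nat_lit 2639) (nat_lit 165) .nil)))))) (.g (nat_lit 1) (.e (nat_lit 205198) (nat_lit 0) .nil) .nil))))))) (.nd (nat_lit 6) (.nd (nat_lit 7) (.nd (nat_lit 8) (.nd (nat_lit 9) 
(.lf (nat_lit 513060) (.g (nat_lit 3313) (.e (nat_lit 180252) (nat_lit 10) (.e (nat_lit 573471) (nat_lit 11) (.e (nat_lit 16446) (nat_lit 9) (.e (nat_lit 426133) (nat_lit 3) (.e (nat_lit 204816) (nat_lit 17) (.e (nat_lit 6724) (nat_lit 362) .nil)))))) (.g (nat_lit 1) (.e (nat_lit 202941) (nat_lit 0) .nil) .nil))) 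
(.lf (nat_lit 513572) (.g (nat_lit 2122) (.e (nat_lit 180277) (nat_lit 32) (.e (nat_lit 1427) (nat_lit 108) (.e (nat_lit 336443) (nat_lit 32) (.e (nat_lit 466968) (nat_lit 21) .nil)))) (.g (nat_lit 0) (.e (nat_lit 204519) (nat_lit 0) .nil) .nil)))) (.nd (nat_lit 9) 
(.lf (nat_lit 513316) (.g (nat_lit 1129) (.e (nat_lit 180271) (nat_lit 26) (.e (nat_lit 704738) (nat_lit 11) (.e (nat_lit 16439) (nat_lit 9) (.e (nat_lit 426526) (nat_lit 27) (.e (nat_lit 335872) (nat_lit 0) .nil))))) (.g (nat_lit 0) (.e (nat_lit 203934) (nat_lit 0) .nil) .nil))) 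
(.lf (nat_lit 513828) (.g (nat_lit 2745) (.e (nat_lit 180278) (nat_lit 32) (.e (nat_lit 1425) (nat_lit 108) (.e (nat_lit 336430) (nat_lit 29) (.e (nat_lit 442430) (nat_lit 24) (.e (nat_lit 229663) (nat_lit 240) (.e (nat_lit 2641) (nat_lit 165) .nil)))))) (.g (nat_lit 1) (.e (nat_lit 204960) (nat_lit 0) .nil) .nil))))) (.nd (nat_lit 8) (.nd (nat_lit 9) 
(.lf (nat_lit 513188) (.g (nat_lit 2436) (.e (nat_lit 188160) (nat_lit 8) (.e (nat_lit 557105) (nat_lit 14) (.e (nat_lit 180252) (nat_lit 10) (.e (nat_lit 573482) (nat_lit 13) (.e (nat_lit 73472) (nat_lit 17) .nil))))) (.g (nat_lit 0) (.e (nat_lit 203396) (nat_lit 0) .nil) .nil))) 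
(.lf (nat_lit 513700) (.g (nat_lit 1752) (.e (nat_lit 180277) (nat_lit 32) (.e (nat_lit 1660) (nat_lit 115) (.e (nat_lit 393275) (nat_lit 23) (.e (nat_lit 426109) (nat_lit 1) (.e (nat_lit 164345) (nat_lit 240) (.e (nat_lit 2640) (nat_lit 165) .nil)))))) (.g (nat_lit 1) (.e (nat_lit 204691) (nat_lit 0) .nil) .nil)))) (.nd (nat_lit 9) 
(.lf (nat_lit 513444) (.g (nat_lit 965) (.e (nat_lit 188160) (nat_lit 28) (.e (nat_lit 720909) (nat_lit 11) (.e (nat_lit 426197) (nat_lit 9) (.e (nat_lit 426533) (nat_lit 28) (.e (nat_lit 352000) (nat_lit 5) .nil))))) (.g (nat_lit 0) (.e (nat_lit 204249) (nat_lit 0) .nil) .nil))) 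
(.lf (nat_lit 513956) (.g (nat_lit 3649) (.e (nat_lit 180278) (nat_lit 32) (.e (nat_lit 1659) (nat_lit 115) (.e (nat_lit 393283) (nat_lit 24) (.e (nat_lit 434209) (nat_lit 18) (.e (nat_lit 5548) (nat_lit 306) (.e (nat_lit 2638) (nat_lit 165) .nil)))))) (.g (nat_lit 1) (.e (nat_lit 205145) (nat_lit 0) .nil) .nil)))))) (.nd (nat_lit 7) (.nd (nat_lit 8) (.nd (nat_lit 9) 
(.lf (nat_lit 513124) (.g (nat_lit 2874) (.e (nat_lit 180252) (nat_lit 10) (.e (nat_lit 573489) (nat_lit 14) (.e (nat_lit 73755) (nat_lit 8) (.e (nat_lit 557067) (nat_lit 9) (.e (nat_lit 2603) (nat_lit 163) (.e (nat_lit 164399) (nat_lit 256) (.e (nat_lit 57373) (nat_lit 2) (.e (nat_lit 90173) (nat_lit 14) .nil)))))))) (.g (nat_lit 1) (.e (nat_lit 203238) (nat_lit 0) .nil) .nil))) 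
(.lf (nat_lit 513636) (.g (nat_lit 2771) (.e (nat_lit 180277) (nat_lit 32) (.e (nat_lit 1658) (nat_lit 115) (.e (nat_lit 393283) (nat_lit 24) (.e (nat_lit 434209) (nat_lit 18) (.e (nat_lit 5548) (nat_lit 306) (.e (nat_lit 2640) (nat_lit 165) .nil)))))) (.g (nat_lit 1) (.e (nat_lit 204597) (nat_lit 0) .nil) .nil)))) (.nd (nat_lit 9) 
(.lf (nat_lit 513380) (.g (nat_lit 1573) (.e (nat_lit 180272) (nat_lit 26) (.e (nat_lit 704738) (nat_lit 11) (.e (nat_lit 16433) (nat_lit 9) (.e (nat_lit 426551) (nat_lit 31) .nil)))) (.g (nat_lit 0) (.e (nat_lit 204138) (nat_lit 0) .nil) .nil))) 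
(.lf (nat_lit 513892) (.g (nat_lit 2227) (.e (nat_lit 180278) (nat_lit 32) (.e (nat_lit 1428) (nat_lit 108) (.e (nat_lit 336434) (nat_lit 30) (.e (nat_lit 450564) (nat_lit 0) (.e (nat_lit 5548) (nat_lit 306) (.e (nat_lit 2639) (nat_lit 165) .nil)))))) (.g (nat_lit 1) (.e (nat_lit 205063) (nat_lit 0) .nil) .nil))))) (.nd (nat_lit 8) (.nd (nat_lit 9) 
(.lf (nat_lit 513252) (.g (nat_lit 1836) (.e (nat_lit 180271) (nat_lit 26) (.e (nat_lit 704737) (nat_lit 11) (.e (nat_lit 16433) (nat_lit 9) (.e (nat_lit 426548) (nat_lit 31) .nil)))) (.g (nat_lit 0) (.e (nat_lit 203823) (nat_lit 0) .nil) .nil))) 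
(.lf (nat_lit 513764) (.g (nat_lit 2032) (.e (nat_lit 180278) (nat_lit 32) (.e (nat_lit 1234) (nat_lit 91) (.e (nat_lit 90170) (nat_lit 13) (.e (nat_lit 172113) (nat_lit 10) (.e (nat_lit 434208) (nat_lit 18) (.e (nat_lit 3953) (nat_lit 239) (.e (nat_lit 2637) (nat_lit 165) .nil))))))) (.g (nat_lit 1) (.e (nat_lit 204891) (nat_lit 0) .nil) .nil)))) (.nd (nat_lit 9) 
(.lf (nat_lit 513508) (.g (nat_lit 4389) (.e (nat_lit 180277) (nat_lit 32) (.e (nat_lit 1253) (nat_lit 92) (.e (nat_lit 98373) (nat_lit 29) (.e (nat_lit 450567) (nat_lit 0) (.e (nat_lit 3978) (nat_lit 239) (.e (nat_lit 2638) (nat_lit 165) .nil)))))) (.g (nat_lit 1) (.e (nat_lit 204396) (nat_lit 0) .nil) .nil))) 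
(.lf (nat_lit 514020) (.g (nat_lit 2748) (.e (nat_lit 180278) (nat_lit 32) (.e (nat_lit 1661) (nat_lit 115) (.e (nat_lit 393287) (nat_lit 25) (.e (nat_lit 458774) (nat_lit 18) (.e (nat_lit 5548) (nat_lit 306) (.e (nat_lit 2640) (nat_lit 165) .nil)))))) (.g (nat_lit 1) (.e (nat_lit 205333) (nat_lit 0) .nil) .nil)))))))) 
(.nd (nat_lit 5) (.nd (nat_lit 6) (.nd (nat_lit 7) (.nd (nat_lit 8) (.nd (nat_lit 9) 
(.lf (nat_lit 513044) (.g (nat_lit 2000) (.e (nat_lit 180252) (nat_lit 10) (.e (nat_lit 573470) (nat_lit 11) (.e (nat_lit 16446) (nat_lit 9) (.e (nat_lit 426116) (nat_lit 2) (.e (nat_lit 196677) (nat_lit 16) (.e (nat_lit 130816) (nat_lit 206) .nil)))))) (.g (nat_lit 1) (.e (nat_lit 202890) (nat_lit 0) .nil) .nil))) 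
(.lf (nat_lit 513556) (.g (nat_lit 1725) (.e (nat_lit 180277) (nat_lit 32) (.e (nat_lit 1427) (nat_lit 108) (.e (nat_lit 336430) (nat_lit 29) (.e (nat_lit 442412) (nat_lit 20) .nil)))) (.g (nat_lit 0) (.e (nat_lit 204491) (nat_lit 0) .nil) .nil)))) (.nd (nat_lit 9) 
(.lf (nat_lit 513300) (.g (nat_lit 2087) (.e (nat_lit 180271) (nat_lit 26) (.e (nat_lit 704738) (nat_lit 11) (.e (nat_lit 16425) (nat_lit 7) (.e (nat_lit 409616) (nat_lit 10) (.e (nat_lit 848) (nat_lit 73) (.e (nat_lit 761898) (nat_lit 15) (.e (nat_lit 171776) (nat_lit 206) .nil))))))) (.g (nat_lit 1) (.e (nat_lit 203914) (nat_lit 0) .nil) .nil))) 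
(.lf (nat_lit 513812) (.g (nat_lit 3798) (.e (nat_lit 180278) (nat_lit 32) (.e (nat_lit 1253) (nat_lit 92) (.e (nat_lit 98373) (nat_lit 29) (.e (nat_lit 450563) (nat_lit 0) (.e (nat_lit 3919) (nat_lit 239) .nil))))) (.g (nat_lit 0) (.e (nat_lit 204941) (nat_lit 0) .nil) .nil))))) (.nd (nat_lit 8) (.nd (nat_lit 9) 
(.lf (nat_lit 513172) (.g (nat_lit 1858) (.e (nat_lit 180252) (nat_lit 10) (.e (nat_lit 573489) (nat_lit 14) (.e (nat_lit 73755) (nat_lit 8) (.e (nat_lit 557119) (nat_lit 18) (.e (nat_lit 2807) (nat_lit 180) .nil))))) (.g (nat_lit 0) (.e (nat_lit 203366) (nat_lit 0) .nil) .nil))) 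
(.lf (nat_lit 513684) (.g (nat_lit 2057) (.e (nat_lit 180277) (nat_lit 32) (.e (nat_lit 1659) (nat_lit 115) (.e (nat_lit 393294) (nat_lit 26) (.e (nat_lit 475196) (nat_lit 40) (.e (nat_lit 704596) (nat_lit 5) .nil))))) (.g (nat_lit 0) (.e (nat_lit 204662) (nat_lit 0) .nil) .nil)))) (.nd (nat_lit 9) 
(.lf (nat_lit 513428) (.g (nat_lit 433) (.e (nat_lit 188160) (nat_lit 28) (.e (nat_lit 720907) (nat_lit 11) (.e (nat_lit 426260) (nat_lit 9) (.e (nat_lit 426549) (nat_lit 31) (.e (nat_lit 376576) (nat_lit 5) .nil))))) (.g (nat_lit 0) (.e (nat_lit 204231) (nat_lit 0) .nil) .nil))) 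
(.lf (nat_lit 513940) (.g (nat_lit 2709) (.e (nat_lit 180278) (nat_lit 32) (.e (nat_lit 1659) (nat_lit 115) (.e (nat_lit 393281) (nat_lit 23) (.e (nat_lit 426099) (nat_lit 1) (.e (nat_lit 164345) (nat_lit 240) (.e (nat_lit 2638) (nat_lit 165) .nil)))))) (.g (nat_lit 1) (.e (nat_lit 205127) (nat_lit 0) .nil) .nil)))))) (.nd (nat_lit 7) (.nd (nat_lit 8) (.nd (nat_lit 9) 
(.lf (nat_lit 513108) (.g (nat_lit 2860) (.e (nat_lit 180252) (nat_lit 10) (.e (nat_lit 573488) (nat_lit 14) (.e (nat_lit 73755) (nat_lit 8) (.e (nat_lit 557091) (nat_lit 12) (.e (nat_lit 164000) (nat_lit 38) .nil))))) (.g (nat_lit 0) (.e (nat_lit 203200) (nat_lit 0) .nil) .nil))) 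
(.lf (nat_lit 513620) (.g (nat_lit 1719) (.e (nat_lit 180277) (nat_lit 32) (.e (nat_lit 1658) (nat_lit 115) (.e (nat_lit 393266) (nat_lit 23) (.e (nat_lit 426109) (nat_lit 1) (.e (nat_lit 164345) (nat_lit 240) (.e (nat_lit 2639) (nat_lit 165) .nil)))))) (.g (nat_lit 1) (.e (nat_lit 204580) (nat_lit 0) .nil) .nil)))) (.nd (nat_lit 9) 
(.lf (nat_lit 513364) (.g (nat_lit 2360) (.e (nat_lit 180272) (nat_lit 26) (.e (nat_lit 704737) (nat_lit 11) (.e (nat_lit 16436) (nat_lit 9) (.e (nat_lit 426550) (nat_lit 31) (.e (nat_lit 376576) (nat_lit 5) .nil))))) (.g (nat_lit 1) (.e (nat_lit 204084) (nat_lit 0) .nil) .nil))) 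
(.lf (nat_lit 513876) (.g (nat_lit 1303) (.e (nat_lit 180278) (nat_lit 32) (.e (nat_lit 1428) (nat_lit 108) (.e (nat_lit 336369) (nat_lit 27) (.e (nat_lit 426305) (nat_lit 12) .nil)))) (.g (nat_lit 0) (.e (nat_lit 205043) (nat_lit 0) .nil) .nil))))) (.nd (nat_lit 8) (.nd (nat_lit 9) 
(.lf (nat_lit 513236) (.g (nat_lit 974) (.e (nat_lit 180271) (nat_lit 26) (.e (nat_lit 704735) (nat_lit 11) (.e (nat_lit 16465) (nat_lit 13) (.e (nat_lit 483356) (nat_lit 17) .nil)))) (.g (nat_lit 0) (.e (nat_lit 203788) (nat_lit 0) .nil) .nil))) 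
(.lf (nat_lit 513748) (.g (nat_lit 1814) (.e (nat_lit 180277) (nat_lit 32) (.e (nat_lit 1661) (nat_lit 115) (.e (nat_lit 393268) (nat_lit 23) (.e (nat_lit 426379) (nat_lit 15) .nil)))) (.g (nat_lit 0) (.e (nat_lit 204826) (nat_lit 0) .nil) .nil)))) (.nd (nat_lit 9) 
(.lf (nat_lit 513492) (.g (nat_lit 2868) (.e (nat_lit 180277) (nat_lit 32) (.e (nat_lit 1253) (nat_lit 92) (.e (nat_lit 98373) (nat_lit 29) (.e (nat_lit 450560) (nat_lit 0) (.e (nat_lit 3929) (nat_lit 239) .nil))))) (.g (nat_lit 0) (.e (nat_lit 204380) (nat_lit 0) .nil) .nil))) 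
(.lf (nat_lit 514004) (.g (nat_lit 659) (.e (nat_lit 180278) (nat_lit 32) (.e (nat_lit 1661) (nat_lit 115) (.e (nat_lit 393280) (nat_lit 23) .nil))) (.g (nat_lit 0) (.e (nat_lit 205298) (nat_lit 0) .nil) .nil))))))) (.nd (nat_lit 6) (.nd (nat_lit 7) (.nd (nat_lit 8) (.nd (nat_lit 9) 
(.lf (nat_lit 513076) (.g (nat_lit 2881) (.e (nat_lit 180252) (nat_lit 10) (.e (nat_lit 573471) (nat_lit 11) (.e (nat_lit 16451) (nat_lit 11) (.e (nat_lit 458789) (nat_lit 23) (.e (nat_lit 532481) (nat_lit 0) (.e (nat_lit 6724) (nat_lit 362) .nil)))))) (.g (nat_lit 1) (.e (nat_lit 202969) (nat_lit 0) .nil) .nil))) 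
(.lf (nat_lit 513588) (.g (nat_lit 1130) (.e (nat_lit 180277) (nat_lit 32) (.e (nat_lit 1428) (nat_lit 108) (.e (nat_lit 336430) (nat_lit 29) (.e (nat_lit 442411) (nat_lit 20) .nil)))) (.g (nat_lit 0) (.e (nat_lit 204540) (nat_lit 0) .nil) .nil)))) (.nd (nat_lit 9) 
(.lf (nat_lit 513332) (.g (nat_lit 1717) (.e (nat_lit 180271) (nat_lit 26) (.e (nat_lit 704738) (nat_lit 11) (.e (nat_lit 16463) (nat_lit 13) (.e (nat_lit 483358) (nat_lit 17) (.e (nat_lit 7936) (nat_lit 362) .nil))))) (.g (nat_lit 0) (.e (nat_lit 203969) (nat_lit 0) .nil) .nil))) 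
(.lf (nat_lit 513844) (.g (nat_lit 1950) (.e (nat_lit 180278) (nat_lit 32) (.e (nat_lit 1425) (nat_lit 108) (.e (nat_lit 336443) (nat_lit 32) (.e (nat_lit 466972) (nat_lit 21) (.e (nat_lit 164345) (nat_lit 240) (.e (nat_lit 2640) (nat_lit 165) .nil)))))) (.g (nat_lit 1) (.e (nat_lit 204979) (nat_lit 0) .nil) .nil))))) (.nd (nat_lit 8) (.nd (nat_lit 9) 
(.lf (nat_lit 513204) (.g (nat_lit 1744) (.e (nat_lit 180264) (nat_lit 21) (.e (nat_lit 663583) (nat_lit 11) (.e (nat_lit 24617) (nat_lit 7) (.e (nat_lit 319533) (nat_lit 16) (.e (nat_lit 286720) (nat_lit 0) .nil))))) (.g (nat_lit 0) (.e (nat_lit 203426) (nat_lit 0) .nil) .nil))) 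
(.lf (nat_lit 513716) (.g (nat_lit 2005) (.e (nat_lit 180277) (nat_lit 32) (.e (nat_lit 1660) (nat_lit 115) (.e (nat_lit 393281) (nat_lit 23) (.e (nat_lit 426099) (nat_lit 1) (.e (nat_lit 164345) (nat_lit 240) (.e (nat_lit 2639) (nat_lit 165) .nil)))))) (.g (nat_lit 1) (.e (nat_lit 204708) (nat_lit 0) .nil) .nil)))) (.nd (nat_lit 9) 
(.lf (nat_lit 513460) (.g (nat_lit 2269) (.e (nat_lit 180276) (nat_lit 32) (.e (nat_lit 1517) (nat_lit 108) (.e (nat_lit 336429) (nat_lit 29) (.e (nat_lit 442419) (nat_lit 21) (.e (nat_lit 164348) (nat_lit 240) (.e (nat_lit 2638) (nat_lit 165) .nil)))))) (.g (nat_lit 1) (.e (nat_lit 204343) (nat_lit 0) .nil) .nil))) 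
(.lf (nat_lit 513972) (.g (nat_lit 2061) (.e (nat_lit 180278) (nat_lit 32) (.e (nat_lit 1660) (nat_lit 115) (.e (nat_lit 393279) (nat_lit 23) (.e (nat_lit 426110) (nat_lit 1) (.e (nat_lit 164348) (nat_lit 240) (.e (nat_lit 2639) (nat_lit 165) .nil)))))) (.g (nat_lit 1) (.e (nat_lit 205178) (nat_lit 0) .nil) .nil)))))) (.nd (nat_lit 7) (.nd (nat_lit 8) (.nd (nat_lit 9) 
(.lf (nat_lit 513140) (.g (nat_lit 3279) (.e (nat_lit 180252) (nat_lit 10) (.e (nat_lit 573489) (nat_lit 14) (.e (nat_lit 73755) (nat_lit 8) (.e (nat_lit 557090) (nat_lit 12) (.e (nat_lit 163843) (nat_lit 0) (.e (nat_lit 5940) (nat_lit 322) (.e (nat_lit 57371) (nat_lit 2) (.e (nat_lit 90171) (nat_lit 14) .nil)))))))) (.g (nat_lit 1) (.e (nat_lit 203263) (nat_lit 0) .nil) .nil))) 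
(.lf (nat_lit 513652) (.g (nat_lit 675) (.e (nat_lit 180277) (nat_lit 32) (.e (nat_lit 1659) (nat_lit 115) (.e (nat_lit 393275) (nat_lit 23) (.e (nat_lit 426109) (nat_lit 1) .nil)))) (.g (nat_lit 0) (.e (nat_lit 204623) (nat_lit 0) .nil) .nil)))) (.nd (nat_lit 9) 
(.lf (nat_lit 513396) (.g (nat_lit 2480) (.e (nat_lit 180272) (nat_lit 26) (.e (nat_lit 704738) (nat_lit 11) (.e (nat_lit 16466) (nat_lit 13) (.e (nat_lit 483345) (nat_lit 17) (.e (nat_lit 6722) (nat_lit 362) .nil))))) (.g (nat_lit 1) (.e (nat_lit 204175) (nat_lit 0) .nil) .nil))) 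
(.lf (nat_lit 513908) (.g (nat_lit 1654) (.e (nat_lit 180278) (nat_lit 32) (.e (nat_lit 1658) (nat_lit 115) (.e (nat_lit 393281) (nat_lit 23) (.e (nat_lit 426100) (nat_lit 1) (.e (nat_lit 164345) (nat_lit 240) (.e (nat_lit 2639) (nat_lit 165) .nil)))))) (.g (nat_lit 1) (.e (nat_lit 205087) (nat_lit 0) .nil) .nil))))) (.nd (nat_lit 8) (.nd (nat_lit 9) 
(.lf (nat_lit 513268) (.g (nat_lit 3952) (.e (nat_lit 180271) (nat_lit 26) (.e (nat_lit 704737) (nat_lit 11) (.e (nat_lit 16439) (nat_lit 9) (.e (nat_lit 426499) (nat_lit 27) (.e (nat_lit 335894) (nat_lit 0) (.e (nat_lit 6724) (nat_lit 362) .nil)))))) (.g (nat_lit 1) (.e (nat_lit 203842) (nat_lit 0) .nil) .nil))) 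
(.lf (nat_lit 513780) (.g (nat_lit 2421) (.e (nat_lit 180278) (nat_lit 32) (.e (nat_lit 1252) (nat_lit 92) (.e (nat_lit 98367) (nat_lit 27) (.e (nat_lit 434193) (nat_lit 13) (.e (nat_lit 2571) (nat_lit 160) (.e (nat_lit 32808) (nat_lit 19) .nil)))))) (.g (nat_lit 1) (.e (nat_lit 204908) (nat_lit 0) .nil) .nil)))) (.nd (nat_lit 9) 
(.lf (nat_lit 513524) (.g (nat_lit 2268) (.e (nat_lit 180277) (nat_lit 32) (.e (nat_lit 1425) (nat_lit 108) (.e (nat_lit 336443) (nat_lit 32) (.e (nat_lit 466972) (nat_lit 21) (.e (nat_lit 164345) (nat_lit 240) (.e (nat_lit 2640) (nat_lit 165) .nil)))))) (.g (nat_lit 1) (.e (nat_lit 204419) (nat_lit 0) .nil) .nil))) 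
(.lf (nat_lit 514036) (.g (nat_lit 2543) (.e (nat_lit 188160) (nat_lit 32) (.e (nat_lit 1234) (nat_lit 91) (.e (nat_lit 90170) (nat_lit 13) (.e (nat_lit 172120) (nat_lit 12) (.e (nat_lit 475185) (nat_lit 29) .nil))))) (.g (nat_lit 0) (.e (nat_lit 205400) (nat_lit 0) .nil) .nil))))))))) (.nd (nat_lit 4) (.nd (nat_lit 5) (.nd (nat_lit 6) (.nd (nat_lit 7) (.nd (nat_lit 8) (.nd (nat_lit 9) 
(.lf (nat_lit 513036) (.g (nat_lit 2866) (.e (nat_lit 180252) (nat_lit 10) (.e (nat_lit 573451) (nat_lit 9) (.e (nat_lit 1667) (nat_lit 116) (.e (nat_lit 401459) (nat_lit 13) (.e (nat_lit 483363) (nat_lit 18) (.e (nat_lit 57665) (nat_lit 152) (.e (nat_lit 2637) (nat_lit 165) .nil))))))) (.g (nat_lit 1) (.e (nat_lit 202854) (nat_lit 0) .nil) .nil))) 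
(.lf (nat_lit 513548) (.g (nat_lit 3202) (.e (nat_lit 180277) (nat_lit 32) (.e (nat_lit 1427) (nat_lit 108) (.e (nat_lit 336426) (nat_lit 29) (.e (nat_lit 442430) (nat_lit 24) (.e (nat_lit 229665) (nat_lit 240) (.e (nat_lit 2643) (nat_lit 165) .nil)))))) (.g (nat_lit 1) (.e (nat_lit 204472) (nat_lit 0) .nil) .nil)))) (.nd (nat_lit 9) 
(.lf (nat_lit 513292) (.g (nat_lit 2441) (.e (nat_lit 180271) (nat_lit 26) (.e (nat_lit 704737) (nat_lit 11) (.e (nat_lit 16466) (nat_lit 13) (.e (nat_lit 483345) (nat_lit 17) (.e (nat_lit 6724) (nat_lit 362) .nil))))) (.g (nat_lit 1) (.e (nat_lit 203889) (nat_lit 0) .nil) .nil))) 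
(.lf (nat_lit 513804) (.g (nat_lit 2878) (.e (nat_lit 180278) (nat_lit 32) (.e (nat_lit 1253) (nat_lit 92) (.e (nat_lit 98373) (nat_lit 29) (.e (nat_lit 450560) (nat_lit 0) (.e (nat_lit 3958) (nat_lit 239) .nil))))) (.g (nat_lit 0) (.e (nat_lit 204933) (nat_lit 0) .nil) .nil))))) (.nd (nat_lit 8) (.nd (nat_lit 9) 
(.lf (nat_lit 513164) (.g (nat_lit 2196) (.e (nat_lit 180252) (nat_lit 10) (.e (nat_lit 573489) (nat_lit 14) (.e (nat_lit 73755) (nat_lit 8) (.e (nat_lit 557093) (nat_lit 12) .nil)))) (.g (nat_lit 0) (.e (nat_lit 203344) (nat_lit 0) .nil) .nil))) 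
(.lf (nat_lit 513676) (.g (nat_lit 3333) (.e (nat_lit 180277) (nat_lit 32) (.e (nat_lit 1659) (nat_lit 115) (.e (nat_lit 393283) (nat_lit 24) (.e (nat_lit 434209) (nat_lit 18) (.e (nat_lit 5547) (nat_lit 306) (.e (nat_lit 2638) (nat_lit 165) .nil)))))) (.g (nat_lit 1) (.e (nat_lit 204650) (nat_lit 0) .nil) .nil)))) (.nd (nat_lit 9) 
(.lf (nat_lit 513420) (.g (nat_lit 1555) (.e (nat_lit 188160) (nat_lit 27) (.e (nat_lit 712753) (nat_lit 30) (.e (nat_lit 450579) (nat_lit 5) (.e (nat_lit 532504) (nat_lit 1) (.e (nat_lit 57662) (nat_lit 152) .nil))))) (.g (nat_lit 0) (.e (nat_lit 204221) (nat_lit 0) .nil) .nil))) 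
(.lf (nat_lit 513932) (.g (nat_lit 2234) (.e (nat_lit 180278) (nat_lit 32) (.e (nat_lit 1659) (nat_lit 115) (.e (nat_lit 393271) (nat_lit 23) (.e (nat_lit 426442) (nat_lit 19) (.e (nat_lit 114432) (nat_lit 5) .nil))))) (.g (nat_lit 0) (.e (nat_lit 205114) (nat_lit 0) .nil) .nil)))))) (.nd (nat_lit 7) (.nd (nat_lit 8) (.nd (nat_lit 9) 
(.lf (nat_lit 513100) (.g (nat_lit 1219) (.e (nat_lit 180252) (nat_lit 10) (.e (nat_lit 573482) (nat_lit 13) (.e (nat_lit 65568) (nat_lit 2) (.e (nat_lit 98048) (nat_lit 0) .nil)))) (.g (nat_lit 0) (.e (nat_lit 203139) (nat_lit 0) .nil) .nil))) 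
(.lf (nat_lit 513612) (.g (nat_lit 2343) (.e (nat_lit 180277) (nat_lit 32) (.e (nat_lit 1428) (nat_lit 108) (.e (nat_lit 336443) (nat_lit 32) (.e (nat_lit 466969) (nat_lit 21) (.e (nat_lit 164347) (nat_lit 240) (.e (nat_lit 2640) (nat_lit 165) .nil)))))) (.g (nat_lit 1) (.e (nat_lit 204569) (nat_lit 0) .nil) .nil)))) (.nd (nat_lit 9) 
(.lf (nat_lit 513356) (.g (nat_lit 1487) (.e (nat_lit 180272) (nat_lit 26) (.e (nat_lit 704737) (nat_lit 11) (.e (nat_lit 16392) (nat_lit 0) (.e (nat_lit 7936) (nat_lit 390) .nil)))) (.g (nat_lit 0) (.e (nat_lit 204074) (nat_lit 0) .nil) .nil))) 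
(.lf (nat_lit 513868) (.g (nat_lit 1417) (.e (nat_lit 180278) (nat_lit 32) (.e (nat_lit 1427) (nat_lit 108) (.e (nat_lit 336414) (nat_lit 27) (.e (nat_lit 426232) (nat_lit 9) .nil)))) (.g (nat_lit 0) (.e (nat_lit 205017) (nat_lit 0) .nil) .nil))))) (.nd (nat_lit 8) (.nd (nat_lit 9) 
(.lf (nat_lit 513228) (.g (nat_lit 621) (.e (nat_lit 180271) (nat_lit 26) (.e (nat_lit 704628) (nat_lit 9) (.e (nat_lit 416) (nat_lit 32) .nil))) (.g (nat_lit 0) (.e (nat_lit 203651) (nat_lit 0) .nil) .nil))) 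
(.lf (nat_lit 513740) (.g (nat_lit 1837) (.e (nat_lit 180277) (nat_lit 32) (.e (nat_lit 1660) (nat_lit 115) (.e (nat_lit 393294) (nat_lit 26) (.e (nat_lit 475195) (nat_lit 40) (.e (nat_lit 704596) (nat_lit 5) .nil))))) (.g (nat_lit 0) (.e (nat_lit 204739) (nat_lit 0) .nil) .nil)))) (.nd (nat_lit 9) 
(.lf (nat_lit 513484) (.g (nat_lit 1703) (.e (nat_lit 180277) (nat_lit 32) (.e (nat_lit 1253) (nat_lit 92) (.e (nat_lit 98367) (nat_lit 27) (.e (nat_lit 434192) (nat_lit 13) (.e (nat_lit 2570) (nat_lit 160) (.e (nat_lit 32808) (nat_lit 19) .nil)))))) (.g (nat_lit 1) (.e (nat_lit 204372) (nat_lit 0) .nil) .nil))) 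
(.lf (nat_lit 513996) (.g (nat_lit 1558) (.e (nat_lit 180278) (nat_lit 32) (.e (nat_lit 1661) (nat_lit 115) (.e (nat_lit 393268) (nat_lit 23) (.e (nat_lit 426112) (nat_lit 1) .nil)))) (.g (nat_lit 0) (.e (nat_lit 205262) (nat_lit 0) .nil) .nil))))))) (.nd (nat_lit 6) (.nd (nat_lit 7) (.nd (nat_lit 8) (.nd (nat_lit 9) 
(.lf (nat_lit 513068) (.g (nat_lit 4112) (.e (nat_lit 180252) (nat_lit 10) (.e (nat_lit 573471) (nat_lit 11) (.e (nat_lit 16448) (nat_lit 10) (.e (nat_lit 434231) (nat_lit 23) (.e (nat_lit 532490) (nat_lit 0) (.e (nat_lit 7936) (nat_lit 362) .nil)))))) (.g (nat_lit 1) (.e (nat_lit 202959) (nat_lit 0) .nil) .nil))) 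
(.lf (nat_lit 513580) (.g (nat_lit 2287) (.e (nat_lit 180277) (nat_lit 32) (.e (nat_lit 1427) (nat_lit 108) (.e (nat_lit 336443) (nat_lit 32) (.e (nat_lit 466971) (nat_lit 21) (.e (nat_lit 164346) (nat_lit 240) (.e (nat_lit 2639) (nat_lit 165) .nil)))))) (.g (nat_lit 1) (.e (nat_lit 204527) (nat_lit 0) .nil) .nil)))) (.nd (nat_lit 9) 
(.lf (nat_lit 513324) (.g (nat_lit 718) (.e (nat_lit 180271) (nat_lit 26) (.e (nat_lit 704738) (nat_lit 11) (.e (nat_lit 16445) (nat_lit 9) .nil))) (.g (nat_lit 0) (.e (nat_lit 203949) (nat_lit 0) .nil) .nil))) 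
(.lf (nat_lit 513836) (.g (nat_lit 2932) (.e (nat_lit 180278) (nat_lit 32) (.e (nat_lit 1425) (nat_lit 108) (.e (nat_lit 336443) (nat_lit 32) (.e (nat_lit 466969) (nat_lit 21) (.e (nat_lit 164348) (nat_lit 240) (.e (nat_lit 2640) (nat_lit 165) .nil)))))) (.g (nat_lit 1) (.e (nat_lit 204971) (nat_lit 0) .nil) .nil))))) (.nd (nat_lit 8) (.nd (nat_lit 9) 
(.lf (nat_lit 513196) (.g (nat_lit 486) (.e (nat_lit 180260) (nat_lit 18) (.e (nat_lit 639020) (nat_lit 16) (.e (nat_lit 65584) (nat_lit 7) .nil))) (.g (nat_lit 0) (.e (nat_lit 203412) (nat_lit 0) .nil) .nil))) 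
(.lf (nat_lit 513708) (.g (nat_lit 187) (.e (nat_lit 180277) (nat_lit 32) (.e (nat_lit 1660) (nat_lit 115) (.e (nat_lit 393281) (nat_lit 23) .nil))) (.g (nat_lit 0) (.e (nat_lit 204699) (nat_lit 0) .nil) .nil)))) (.nd (nat_lit 9) 
(.lf (nat_lit 513452) (.g (nat_lit 870) (.e (nat_lit 188160) (nat_lit 29) (.e (nat_lit 729098) (nat_lit 11) (.e (nat_lit 426189) (nat_lit 9) (.e (nat_lit 426550) (nat_lit 31) (.e (nat_lit 376576) (nat_lit 5) .nil))))) (.g (nat_lit 0) (.e (nat_lit 204278) (nat_lit 0) .nil) .nil))) 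
(.lf (nat_lit 513964) (.g (nat_lit 3090) (.e (nat_lit 180278) (nat_lit 32) (.e (nat_lit 1660) (nat_lit 115) (.e (nat_lit 393271) (nat_lit 23) (.e (nat_lit 426112) (nat_lit 1) (.e (nat_lit 164347) (nat_lit 240) (.e (nat_lit 2638) (nat_lit 165) .nil)))))) (.g (nat_lit 1) (.e (nat_lit 205166) (nat_lit 0) .nil) .nil)))))) (.nd (nat_lit 7) (.nd (nat_lit 8) (.nd (nat_lit 9) 
(.lf (nat_lit 513132) (.g (nat_lit 1995) (.e (nat_lit 180252) (nat_lit 10) (.e (nat_lit 573489) (nat_lit 14) (.e (nat_lit 73755) (nat_lit 8) (.e (nat_lit 557089) (nat_lit 12) (.e (nat_lit 163999) (nat_lit 38) .nil))))) (.g (nat_lit 0) (.e (nat_lit 203255) (nat_lit 0) .nil) .nil))) 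
(.lf (nat_lit 513644) (.g (nat_lit 1285) (.e (nat_lit 180277) (nat_lit 32) (.e (nat_lit 1659) (nat_lit 115) (.e (nat_lit 393270) (nat_lit 23) (.e (nat_lit 426442) (nat_lit 19) (.e (nat_lit 114432) (nat_lit 5) .nil))))) (.g (nat_lit 0) (.e (nat_lit 204609) (nat_lit 0) .nil) .nil)))) (.nd (nat_lit 9) 
(.lf (nat_lit 513388) (.g (nat_lit 1019) (.e (nat_lit 180272) (nat_lit 26) (.e (nat_lit 704738) (nat_lit 11) (.e (nat_lit 16439) (nat_lit 9) (.e (nat_lit 426528) (nat_lit 27) .nil)))) (.g (nat_lit 0) (.e (nat_lit 204149) (nat_lit 0) .nil) .nil))) 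
(.lf (nat_lit 513900) (.g (nat_lit 2056) (.e (nat_lit 180278) (nat_lit 32) (.e (nat_lit 1658) (nat_lit 115) (.e (nat_lit 393266) (nat_lit 23) (.e (nat_lit 426109) (nat_lit 1) (.e (nat_lit 164346) (nat_lit 240) (.e (nat_lit 2639) (nat_lit 165) .nil)))))) (.g (nat_lit 1) (.e (nat_lit 205078) (nat_lit 0) .nil) .nil))))) (.nd (nat_lit 8) (.nd (nat_lit 9) 
(.lf (nat_lit 513260) (.g (nat_lit 2030) (.e (nat_lit 180271) (nat_lit 26) (.e (nat_lit 704737) (nat_lit 11) (.e (nat_lit 16436) (nat_lit 9) (.e (nat_lit 426535) (nat_lit 28) .nil)))) (.g (nat_lit 0) (.e (nat_lit 203831) (nat_lit 0) .nil) .nil))) 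
(.lf (nat_lit 513772) (.g (nat_lit 1835) (.e (nat_lit 180278) (nat_lit 32) (.e (nat_lit 1235) (nat_lit 91) (.e (nat_lit 90170) (nat_lit 13) (.e (nat_lit 172113) (nat_lit 10) (.e (nat_lit 434203) (nat_lit 18) (.e (nat_lit 3919) (nat_lit 239) (.e (nat_lit 2635) (nat_lit 165) .nil))))))) (.g (nat_lit 1) (.e (nat_lit 204899) (nat_lit 0) .nil) .nil)))) (.nd (nat_lit 9) 
(.lf (nat_lit 513516) (.g (nat_lit 2896) (.e (nat_lit 180277) (nat_lit 32) (.e (nat_lit 1425) (nat_lit 108) (.e (nat_lit 336430) (nat_lit 29) (.e (nat_lit 442419) (nat_lit 21) (.e (nat_lit 164348) (nat_lit 240) (.e (nat_lit 2640) (nat_lit 165) .nil)))))) (.g (nat_lit 1) (.e (nat_lit 204409) (nat_lit 0) .nil) .nil))) 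
(.lf (nat_lit 514028) (.g (nat_lit 1909) (.e (nat_lit 180278) (nat_lit 32) (.e (nat_lit 1661) (nat_lit 115) (.e (nat_lit 393291) (nat_lit 26) (.e (nat_lit 483072) (nat_lit 40) .nil)))) (.g (nat_lit 0) (.e (nat_lit 205341) (nat_lit 0) .nil) .nil)))))))) (.nd (nat_lit 5) (.nd (nat_lit 6) (.nd (nat_lit 7) (.nd (nat_lit 8) (.nd (nat_lit 9) 
(.lf (nat_lit 513052) (.g (nat_lit 1120) (.e (nat_lit 180252) (nat_lit 10) (.e (nat_lit 573471) (nat_lit 11) (.e (nat_lit 16439) (nat_lit 9) (.e (nat_lit 426135) (nat_lit 3) .nil)))) (.g (nat_lit 0) (.e (nat_lit 202922) (nat_lit 0) .nil) .nil))) 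
(.lf (nat_lit 513564) (.g (nat_lit 3716) (.e (nat_lit 180277) (nat_lit 32) (.e (nat_lit 1427) (nat_lit 108) (.e (nat_lit 336430) (nat_lit 29) (.e (nat_lit 442421) (nat_lit 21) (.e (nat_lit 164348) (nat_lit 240) (.e (nat_lit 2640) (nat_lit 165) .nil)))))) (.g (nat_lit 1) (.e (nat_lit 204499) (nat_lit 0) .nil) .nil)))) (.nd (nat_lit 9) 
(.lf (nat_lit 513308) (.g (nat_lit 1402) (.e (nat_lit 180271) (nat_lit 26) (.e (nat_lit 704738) (nat_lit 11) (.e (nat_lit 16433) (nat_lit 9) (.e (nat_lit 426548) (nat_lit 31) .nil)))) (.g (nat_lit 0) (.e (nat_lit 203923) (nat_lit 0) .nil) .nil))) 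
(.lf (nat_lit 513820) (.g (nat_lit 1381) (.e (nat_lit 180278) (nat_lit 32) (.e (nat_lit 1253) (nat_lit 92) (.e (nat_lit 98373) (nat_lit 29) (.e (nat_lit 458496) (nat_lit 0) .nil)))) (.g (nat_lit 0) (.e (nat_lit 204949) (nat_lit 0) .nil) .nil))))) (.nd (nat_lit 8) (.nd (nat_lit 9) 
(.lf (nat_lit 513180) (.g (nat_lit 2000) (.e (nat_lit 180252) (nat_lit 10) (.e (nat_lit 573503) (nat_lit 18) (.e (nat_lit 1348) (nat_lit 102) (.e (nat_lit 286761) (nat_lit 13) (.e (nat_lit 393256) (nat_lit 19) .nil))))) (.g (nat_lit 0) (.e (nat_lit 203386) (nat_lit 0) .nil) .nil))) 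
(.lf (nat_lit 513692) (.g (nat_lit 1228) (.e (nat_lit 180277) (nat_lit 32) (.e (nat_lit 1660) (nat_lit 115) (.e (nat_lit 393271) (nat_lit 23) (.e (nat_lit 426111) (nat_lit 1) .nil)))) (.g (nat_lit 0) (.e (nat_lit 204680) (nat_lit 0) .nil) .nil)))) (.nd (nat_lit 9) 
(.lf (nat_lit 513436) (.g (nat_lit 1087) (.e (nat_lit 188160) (nat_lit 28) (.e (nat_lit 720908) (nat_lit 11) (.e (nat_lit 426198) (nat_lit 9) (.e (nat_lit 426550) (nat_lit 31) (.e (nat_lit 376576) (nat_lit 5) .nil))))) (.g (nat_lit 0) (.e (nat_lit 204240) (nat_lit 0) .nil) .nil))) 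
(.lf (nat_lit 513948) (.g (nat_lit 2406) (.e (nat_lit 180278) (nat_lit 32) (.e (nat_lit 1659) (nat_lit 115) (.e (nat_lit 393282) (nat_lit 24) (.e (nat_lit 434209) (nat_lit 18) (.e (nat_lit 5548) (nat_lit 306) (.e (nat_lit 2639) (nat_lit 165) .nil)))))) (.g (nat_lit 1) (.e (nat_lit 205135) (nat_lit 0) .nil) .nil)))))) (.nd (nat_lit 7) (.nd (nat_lit 8) (.nd (nat_lit 9) 
(.lf (nat_lit 513116) (.g (nat_lit 3393) (.e (nat_lit 180252) (nat_lit 10) (.e (nat_lit 573489) (nat_lit 14) (.e (nat_lit 73755) (nat_lit 8) (.e (nat_lit 557067) (nat_lit 9) (.e (nat_lit 2598) (nat_lit 163) (.e (nat_lit 164398) (nat_lit 256) (.e (nat_lit 57373) (nat_lit 2) (.e (nat_lit 90173) (nat_lit 14) .nil)))))))) (.g (nat_lit 1) (.e (nat_lit 203230) (nat_lit 0) .nil) .nil))) 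
(.lf (nat_lit 513628) (.g (nat_lit 1486) (.e (nat_lit 180277) (nat_lit 32) (.e (nat_lit 1658) (nat_lit 115) (.e (nat_lit 393281) (nat_lit 23) (.e (nat_lit 426100) (nat_lit 1) (.e (nat_lit 164345) (nat_lit 240) (.e (nat_lit 2640) (nat_lit 165) .nil)))))) (.g (nat_lit 1) (.e (nat_lit 204589) (nat_lit 0) .nil) .nil)))) (.nd (nat_lit 9) 
(.lf (nat_lit 513372) (.g (nat_lit 1540) (.e (nat_lit 180272) (nat_lit 26) (.e (nat_lit 704737) (nat_lit 11) (.e (nat_lit 16463) (nat_lit 13) (.e (nat_lit 483353) (nat_lit 17) .nil)))) (.g (nat_lit 0) (.e (nat_lit 204107) (nat_lit 0) .nil) .nil))) 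
(.lf (nat_lit 513884) (.g (nat_lit 2593) (.e (nat_lit 180278) (nat_lit 32) (.e (nat_lit 1428) (nat_lit 108) (.e (nat_lit 336430) (nat_lit 29) (.e (nat_lit 442419) (nat_lit 21) (.e (nat_lit 164348) (nat_lit 240) (.e (nat_lit 2639) (nat_lit 165) .nil)))))) (.g (nat_lit 1) (.e (nat_lit 205054) (nat_lit 0) .nil) .nil))))) (.nd (nat_lit 8) (.nd (nat_lit 9) 
(.lf (nat_lit 513244) (.g (nat_lit 965) (.e (nat_lit 180271) (nat_lit 26) (.e (nat_lit 704737) (nat_lit 11) (.e (nat_lit 16399) (nat_lit 0) .nil))) (.g (nat_lit 0) (.e (nat_lit 203807) (nat_lit 0) .nil) .nil))) 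
(.lf (nat_lit 513756) (.g (nat_lit 2686) (.e (nat_lit 180277) (nat_lit 32) (.e (nat_lit 1661) (nat_lit 115) (.e (nat_lit 393284) (nat_lit 24) (.e (nat_lit 434209) (nat_lit 18) (.e (nat_lit 5548) (nat_lit 306) (.e (nat_lit 2640) (nat_lit 165) .nil)))))) (.g (nat_lit 1) (.e (nat_lit 204875) (nat_lit 0) .nil) .nil)))) (.nd (nat_lit 9) 
(.lf (nat_lit 513500) (.g (nat_lit 4751) (.e (nat_lit 180277) (nat_lit 32) (.e (nat_lit 1253) (nat_lit 92) (.e (nat_lit 98373) (nat_lit 29) (.e (nat_lit 450562) (nat_lit 0) (.e (nat_lit 3948) (nat_lit 239) (.e (nat_lit 2637) (nat_lit 165) .nil)))))) (.g (nat_lit 1) (.e (nat_lit 204388) (nat_lit 0) .nil) .nil))) 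
(.lf (nat_lit 514012) (.g (nat_lit 991) (.e (nat_lit 180278) (nat_lit 32) (.e (nat_lit 1661) (nat_lit 115) (.e (nat_lit 393284) (nat_lit 24) (.e (nat_lit 434205) (nat_lit 18) .nil)))) (.g (nat_lit 0) (.e (nat_lit 205319) (nat_lit 0) .nil) .nil))))))) (.nd (nat_lit 6) (.nd (nat_lit 7) (.nd (nat_lit 8) (.nd (nat_lit 9) 
(.lf (nat_lit 513084) (.g (nat_lit 4114) (.e (nat_lit 180252) (nat_lit 10) (.e (nat_lit 573474) (nat_lit 12) (.e (nat_lit 57502) (nat_lit 38) (.e (nat_lit 638995) (nat_lit 7) (.e (nat_lit 163977) (nat_lit 30) (.e (nat_lit 573489) (nat_lit 14) (.e (nat_lit 73755) (nat_lit 8) (.e (nat_lit 557105) (nat_lit 14) .nil)))))))) (.g (nat_lit 1) (.e (nat_lit 202995) (nat_lit 0) .nil) .nil))) 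
(.lf (nat_lit 513596) (.g (nat_lit 3213) (.e (nat_lit 180277) (nat_lit 32) (.e (nat_lit 1428) (nat_lit 108) (.e (nat_lit 336430) (nat_lit 29) (.e (nat_lit 442421) (nat_lit 21) (.e (nat_lit 164347) (nat_lit 240) (.e (nat_lit 2638) (nat_lit 165) .nil)))))) (.g (nat_lit 1) (.e (nat_lit 204548) (nat_lit 0) .nil) .nil)))) (.nd (nat_lit 9) 
(.lf (nat_lit 513340) (.g (nat_lit 2631) (.e (nat_lit 180271) (nat_lit 26) (.e (nat_lit 704738) (nat_lit 11) (.e (nat_lit 16466) (nat_lit 13) (.e (nat_lit 483345) (nat_lit 17) (.e (nat_lit 6724) (nat_lit 362) .nil))))) (.g (nat_lit 1) (.e (nat_lit 203977) (nat_lit 0) .nil) .nil))) 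
(.lf (nat_lit 513852) (.g (nat_lit 2903) (.e (nat_lit 180278) (nat_lit 32) (.e (nat_lit 1426) (nat_lit 108) (.e (nat_lit 336430) (nat_lit 29) (.e (nat_lit 442430) (nat_lit 24) (.e (nat_lit 229663) (nat_lit 240) (.e (nat_lit 2641) (nat_lit 165) .nil)))))) (.g (nat_lit 1) (.e (nat_lit 204989) (nat_lit 0) .nil) .nil))))) (.nd (nat_lit 8) (.nd (nat_lit 9) 
(.lf (nat_lit 513212) (.g (nat_lit 2693) (.e (nat_lit 188160) (nat_lit 19) (.e (nat_lit 647183) (nat_lit 4) (.e (nat_lit 172126) (nat_lit 14) (.e (nat_lit 491566) (nat_lit 12) (.e (nat_lit 392960) (nat_lit 13) .nil))))) (.g (nat_lit 0) (.e (nat_lit 203439) (nat_lit 0) .nil) .nil))) 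
(.lf (nat_lit 513724) (.g (nat_lit 3448) (.e (nat_lit 180277) (nat_lit 32) (.e (nat_lit 1660) (nat_lit 115) (.e (nat_lit 393282) (nat_lit 24) (.e (nat_lit 434209) (nat_lit 18) (.e (nat_lit 5548) (nat_lit 306) (.e (nat_lit 2638) (nat_lit 165) .nil)))))) (.g (nat_lit 1) (.e (nat_lit 204717) (nat_lit 0) .nil) .nil)))) (.nd (nat_lit 9) 
(.lf (nat_lit 513468) (.g (nat_lit 1961) (.e (nat_lit 180277) (nat_lit 32) (.e (nat_lit 1235) (nat_lit 91) (.e (nat_lit 90170) (nat_lit 13) (.e (nat_lit 172079) (nat_lit 7) (.e (nat_lit 409630) (nat_lit 12) .nil))))) (.g (nat_lit 0) (.e (nat_lit 204352) (nat_lit 0) .nil) .nil))) 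
(.lf (nat_lit 513980) (.g (nat_lit 1790) (.e (nat_lit 180278) (nat_lit 32) (.e (nat_lit 1660) (nat_lit 115) (.e (nat_lit 393281) (nat_lit 23) (.e (nat_lit 426107) (nat_lit 1) (.e (nat_lit 164345) (nat_lit 240) (.e (nat_lit 2640) (nat_lit 165) .nil)))))) (.g (nat_lit 1) (.e (nat_lit 205187) (nat_lit 0) .nil) .nil)))))) (.nd (nat_lit 7) (.nd (nat_lit 8) (.nd (nat_lit 9) 
(.lf (nat_lit 513148) (.g (nat_lit 3060) (.e (nat_lit 180252) (nat_lit 10) (.e (nat_lit 573489) (nat_lit 14) (.e (nat_lit 73755) (nat_lit 8) (.e (nat_lit 557090) (nat_lit 12) (.e (nat_lit 163851) (nat_lit 0) (.e (nat_lit 5934) (nat_lit 322) (.e (nat_lit 57371) (nat_lit 2) (.e (nat_lit 90173) (nat_lit 14) .nil)))))))) (.g (nat_lit 1) (.e (nat_lit 203271) (nat_lit 0) .nil) .nil))) 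
(.lf (nat_lit 513660) (.g (nat_lit 1687) (.e (nat_lit 180277) (nat_lit 32) (.e (nat_lit 1659) (nat_lit 115) (.e (nat_lit 393281) (nat_lit 23) (.e (nat_lit 426098) (nat_lit 1) (.e (nat_lit 164345) (nat_lit 240) (.e (nat_lit 2640) (nat_lit 165) .nil)))))) (.g (nat_lit 1) (.e (nat_lit 204632) (nat_lit 0) .nil) .nil)))) (.nd (nat_lit 9) 
(.lf (nat_lit 513404) (.g (nat_lit 1503) (.e (nat_lit 188160) (nat_lit 26) (.e (nat_lit 704734) (nat_lit 11) (.e (nat_lit 16463) (nat_lit 13) (.e (nat_lit 483346) (nat_lit 17) .nil)))) (.g (nat_lit 0) (.e (nat_lit 204205) (nat_lit 0) .nil) .nil))) 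
(.lf (nat_lit 513916) (.g (nat_lit 2054) (.e (nat_lit 180278) (nat_lit 32) (.e (nat_lit 1658) (nat_lit 115) (.e (nat_lit 393283) (nat_lit 24) (.e (nat_lit 434209) (nat_lit 18) (.e (nat_lit 5548) (nat_lit 306) (.e (nat_lit 2639) (nat_lit 165) .nil)))))) (.g (nat_lit 1) (.e (nat_lit 205096) (nat_lit 0) .nil) .nil))))) (.nd (nat_lit 8) (.nd (nat_lit 9) 
(.lf (nat_lit 513276) (.g (nat_lit 1120) (.e (nat_lit 180271) (nat_lit 26) (.e (nat_lit 704737) (nat_lit 11) (.e (nat_lit 16446) (nat_lit 9) (.e (nat_lit 426500) (nat_lit 27) .nil)))) (.g (nat_lit 0) (.e (nat_lit 203855) (nat_lit 0) .nil) .nil))) 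
(.lf (nat_lit 513788) (.g (nat_lit 921) (.e (nat_lit 180278) (nat_lit 32) (.e (nat_lit 1253) (nat_lit 92) (.e (nat_lit 98366) (nat_lit 27) (.e (nat_lit 434188) (nat_lit 13) .nil)))) (.g (nat_lit 0) (.e (nat_lit 204917) (nat_lit 0) .nil) .nil)))) (.nd (nat_lit 9) 
(.lf (nat_lit 513532) (.g (nat_lit 2696) (.e (nat_lit 180277) (nat_lit 32) (.e (nat_lit 1426) (nat_lit 108) (.e (nat_lit 336434) (nat_lit 30) (.e (nat_lit 450564) (nat_lit 0) (.e (nat_lit 5548) (nat_lit 306) (.e (nat_lit 2638) (nat_lit 165) .nil)))))) (.g (nat_lit 1) (.e (nat_lit 204432) (nat_lit 0) .nil) .nil))) 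
(.lf (nat_lit 514044) (.g (nat_lit 2219) (.e (nat_lit 188160) (nat_lit 32) (.e (nat_lit 1239) (nat_lit 91) (.e (nat_lit 90170) (nat_lit 13) (.e (nat_lit 172124) (nat_lit 14) (.e (nat_lit 491524) (nat_lit 0) .nil))))) (.g (nat_lit 0) (.e (nat_lit 205408) (nat_lit 0) .nil) .nil))))))))))) 
(.nd (nat_lit 2) (.nd (nat_lit 3) (.nd (nat_lit 4) (.nd (nat_lit 5) (.nd (nat_lit 6) 
(.nd (nat_lit 7) (.nd (nat_lit 8) (.nd (nat_lit 9) 
(.lf (nat_lit 513026) (.g (nat_lit 1007) (.e (nat_lit 180251) (nat_lit 10) (.e (nat_lit 573502) (nat_lit 18) (.e (nat_lit 1358) (nat_lit 102) (.e (nat_lit 286743) (nat_lit 9) (.e (nat_lit 336446) (nat_lit 33) .nil))))) (.g (nat_lit 0) (.e (nat_lit 202768) (nat_lit 0) .nil) .nil))) 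
(.lf (nat_lit 513538) (.g (nat_lit 3170) (.e (nat_lit 180277) (nat_lit 32) (.e (nat_lit 1426) (nat_lit 108) (.e (nat_lit 336443) (nat_lit 32) (.e (nat_lit 466969) (nat_lit 21) (.e (nat_lit 164348) (nat_lit 240) (.e (nat_lit 2638) (nat_lit 165) .nil)))))) (.g (nat_lit 1) (.e (nat_lit 204438) (nat_lit 0) .nil) .nil)))) (.nd (nat_lit 9) 
(.lf (nat_lit 513282) (.g (nat_lit 2995) (.e (nat_lit 180271) (nat_lit 26) (.e (nat_lit 704737) (nat_lit 11) (.e (nat_lit 16463) (nat_lit 13) (.e (nat_lit 483345) (nat_lit 17) (.e (nat_lit 6722) (nat_lit 362) .nil))))) (.g (nat_lit 1) (.e (nat_lit 203879) (nat_lit 0) .nil) .nil))) 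
(.lf (nat_lit 513794) (.g (nat_lit 1996) (.e (nat_lit 180278) (nat_lit 32) (.e (nat_lit 1253) (nat_lit 92) (.e (nat_lit 98370) (nat_lit 28) (.e (nat_lit 442430) (nat_lit 24) (.e (nat_lit 229535) (nat_lit 134) .nil))))) (.g (nat_lit 0) (.e (nat_lit 204923) (nat_lit 0) .nil) .nil))))) (.nd (nat_lit 8) (.nd (nat_lit 9) 
(.lf (nat_lit 513154) (.g (nat_lit 2783) (.e (nat_lit 180252) (nat_lit 10) (.e (nat_lit 573489) (nat_lit 14) (.e (nat_lit 73755) (nat_lit 8) (.e (nat_lit 557090) (nat_lit 12) (.e (nat_lit 163851) (nat_lit 0) (.e (nat_lit 5950) (nat_lit 322) (.e (nat_lit 57371) (nat_lit 2) (.e (nat_lit 90173) (nat_lit 14) .nil)))))))) (.g (nat_lit 1) (.e (nat_lit 203277) (nat_lit 0) .nil) .nil))) 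
(.lf (nat_lit 513666) (.g (nat_lit 2415) (.e (nat_lit 180277) (nat_lit 32) (.e (nat_lit 1659) (nat_lit 115) (.e (nat_lit 393281) (nat_lit 23) (.e (nat_lit 426107) (nat_lit 1) (.e (nat_lit 164345) (nat_lit 240) (.e (nat_lit 2639) (nat_lit 165) .nil)))))) (.g (nat_lit 1) (.e (nat_lit 204638) (nat_lit 0) .nil) .nil)))) (.nd (nat_lit 9) 
(.lf (nat_lit 513410) (.g (nat_lit 604) (.e (nat_lit 188160) (nat_lit 26) (.e (nat_lit 704741) (nat_lit 11) (.e (nat_lit 16468) (nat_lit 13) (.e (nat_lit 483344) (nat_lit 17) .nil)))) (.g (nat_lit 0) (.e (nat_lit 204211) (nat_lit 0) .nil) .nil))) 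
(.lf (nat_lit 513922) (.g (nat_lit 2163) (.e (nat_lit 180278) (nat_lit 32) (.e (nat_lit 1659) (nat_lit 115) (.e (nat_lit 393266) (nat_lit 23) (.e (nat_lit 426109) (nat_lit 1) (.e (nat_lit 164345) (nat_lit 240) (.e (nat_lit 2639) (nat_lit 165) .nil)))))) (.g (nat_lit 1) (.e (nat_lit 205104) (nat_lit 0) .nil) .nil)))))) (.nd (nat_lit 7) (.nd (nat_lit 8) (.nd (nat_lit 9) 
(.lf (nat_lit 513090) (.g (nat_lit 3574) (.e (nat_lit 180252) (nat_lit 10) (.e (nat_lit 573474) (nat_lit 12) (.e (nat_lit 57572) (nat_lit 54) (.e (nat_lit 770072) (nat_lit 8) (.e (nat_lit 65571) (nat_lit 3) (.e (nat_lit 98319) (nat_lit 17) (.e (nat_lit 7389) (nat_lit 393) .nil))))))) (.g (nat_lit 1) (.e (nat_lit 203004) (nat_lit 0) .nil) .nil))) 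
(.lf (nat_lit 513602) (.g (nat_lit 3325) (.e (nat_lit 180277) (nat_lit 32) (.e (nat_lit 1428) (nat_lit 108) (.e (nat_lit 336430) (nat_lit 29) (.e (nat_lit 442430) (nat_lit 24) (.e (nat_lit 229663) (nat_lit 240) (.e (nat_lit 2643) (nat_lit 165) .nil)))))) (.g (nat_lit 1) (.e (nat_lit 204554) (nat_lit 0) .nil) .nil)))) (.nd (nat_lit 9) 
(.lf (nat_lit 513346) (.g (nat_lit 1908) (.e (nat_lit 180271) (nat_lit 26) (.e (nat_lit 704738) (nat_lit 11) (.e (nat_lit 16466) (nat_lit 13) (.e (nat_lit 483361) (nat_lit 17) (.e (nat_lit 7936) (nat_lit 362) .nil))))) (.g (nat_lit 1) (.e (nat_lit 203983) (nat_lit 0) .nil) .nil))) 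
(.lf (nat_lit 513858) (.g (nat_lit 2165) (.e (nat_lit 180278) (nat_lit 32) (.e (nat_lit 1426) (nat_lit 108) (.e (nat_lit 336443) (nat_lit 32) (.e (nat_lit 466969) (nat_lit 21) (.e (nat_lit 164345) (nat_lit 240) (.e (nat_lit 2640) (nat_lit 165) .nil)))))) (.g (nat_lit 1) (.e (nat_lit 204997) (nat_lit 0) .nil) .nil))))) (.nd (nat_lit 8) (.nd (nat_lit 9) 
(.lf (nat_lit 513218) (.g (nat_lit 3069) (.e (nat_lit 180268) (nat_lit 24) (.e (nat_lit 688139) (nat_lit 5) (.e (nat_lit 2887) (nat_lit 184) (.e (nat_lit 426211) (nat_lit 9) (.e (nat_lit 426528) (nat_lit 27) (.e (nat_lit 335894) (nat_lit 0) (.e (nat_lit 6722) (nat_lit 362) .nil))))))) (.g (nat_lit 1) (.e (nat_lit 203484) (nat_lit 0) .nil) .nil))) 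
(.lf (nat_lit 513730) (.g (nat_lit 3231) (.e (nat_lit 180277) (nat_lit 32) (.e (nat_lit 1660) (nat_lit 115) (.e (nat_lit 393283) (nat_lit 24) (.e (nat_lit 434209) (nat_lit 18) (.e (nat_lit 5548) (nat_lit 306) (.e (nat_lit 2638) (nat_lit 165) .nil)))))) (.g (nat_lit 1) (.e (nat_lit 204725) (nat_lit 0) .nil) .nil)))) (.nd (nat_lit 9) 
(.lf (nat_lit 513474) (.g (nat_lit 1902) (.e (nat_lit 180277) (nat_lit 32) (.e (nat_lit 1235) (nat_lit 91) (.e (nat_lit 90174) (nat_lit 14) (.e (nat_lit 180287) (nat_lit 45) (.e (nat_lit 2570) (nat_lit 160) (.e (nat_lit 32808) (nat_lit 19) .nil)))))) (.g (nat_lit 1) (.e (nat_lit 204359) (nat_lit 0) .nil) .nil))) 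
(.lf (nat_lit 513986) (.g (nat_lit 2328) (.e (nat_lit 180278) (nat_lit 32) (.e (nat_lit 1660) (nat_lit 115) (.e (nat_lit 393283) (nat_lit 24) (.e (nat_lit 434209) (nat_lit 18) (.e (nat_lit 5546) (nat_lit 306) (.e (nat_lit 2640) (nat_lit 165) .nil)))))) (.g (nat_lit 1) (.e (nat_lit 205196) (nat_lit 0) .nil) .nil))))))) (.nd (nat_lit 6) (.nd (nat_lit 7) (.nd (nat_lit 8) (.nd (nat_lit 9) 
(.lf (nat_lit 513058) (.g (nat_lit 1704) (.e (nat_lit 180252) (nat_lit 10) (.e (nat_lit 573471) (nat_lit 11) (.e (nat_lit 16446) (nat_lit 9) (.e (nat_lit 426122) (nat_lit 2) .nil)))) (.g (nat_lit 0) (.e (nat_lit 202938) (nat_lit 0) .nil) .nil))) 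
(.lf (nat_lit 513570) (.g (nat_lit 2395) (.e (nat_lit 180277) (nat_lit 32) (.e (nat_lit 1427) (nat_lit 108) (.e (nat_lit 336432) (nat_lit 30) (.e (nat_lit 450564) (nat_lit 0) (.e (nat_lit 5548) (nat_lit 306) (.e (nat_lit 2638) (nat_lit 165) .nil)))))) (.g (nat_lit 1) (.e (nat_lit 204509) (nat_lit 0) .nil) .nil)))) (.nd (nat_lit 9) 
(.lf (nat_lit 513314) (.g (nat_lit 3283) (.e (nat_lit 180271) (nat_lit 26) (.e (nat_lit 704738) (nat_lit 11) (.e (nat_lit 16439) (nat_lit 9) (.e (nat_lit 426499) (nat_lit 27) (.e (nat_lit 335894) (nat_lit 0) (.e (nat_lit 6722) (nat_lit 362) .nil)))))) (.g (nat_lit 1) (.e (nat_lit 203932) (nat_lit 0) .nil) .nil))) 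
(.lf (nat_lit 513826) (.g (nat_lit 1941) (.e (nat_lit 180278) (nat_lit 32) (.e (nat_lit 1425) (nat_lit 108) (.e (nat_lit 336430) (nat_lit 29) (.e (nat_lit 442421) (nat_lit 21) (.e (nat_lit 164347) (nat_lit 240) (.e (nat_lit 2640) (nat_lit 165) .nil)))))) (.g (nat_lit 1) (.e (nat_lit 204958) (nat_lit 0) .nil) .nil))))) (.nd (nat_lit 8) (.nd (nat_lit 9) 
(.lf (nat_lit 513186) (.g (nat_lit 1394) (.e (nat_lit 188160) (nat_lit 8) (.e (nat_lit 557105) (nat_lit 14) (.e (nat_lit 180252) (nat_lit 10) (.e (nat_lit 573480) (nat_lit 13) .nil)))) (.g (nat_lit 0) (.e (nat_lit 203394) (nat_lit 0) .nil) .nil))) 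
(.lf (nat_lit 513698) (.g (nat_lit 1361) (.e (nat_lit 180277) (nat_lit 32) (.e (nat_lit 1660) (nat_lit 115) (.e (nat_lit 393271) (nat_lit 23) (.e (nat_lit 426375) (nat_lit 15) .nil)))) (.g (nat_lit 0) (.e (nat_lit 204686) (nat_lit 0) .nil) .nil)))) (.nd (nat_lit 9) 
(.lf (nat_lit 513442) (.g (nat_lit 1063) (.e (nat_lit 188160) (nat_lit 28) (.e (nat_lit 720909) (nat_lit 11) (.e (nat_lit 426190) (nat_lit 9) (.e (nat_lit 426550) (nat_lit 31) (.e (nat_lit 376576) (nat_lit 5) .nil))))) (.g (nat_lit 0) (.e (nat_lit 204247) (nat_lit 0) .nil) .nil))) 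
(.lf (nat_lit 513954) (.g (nat_lit 3494) (.e (nat_lit 180278) (nat_lit 32) (.e (nat_lit 1659) (nat_lit 115) (.e (nat_lit 393283) (nat_lit 24) (.e (nat_lit 434209) (nat_lit 18) (.e (nat_lit 5547) (nat_lit 306) (.e (nat_lit 2638) (nat_lit 165) .nil)))))) (.g (nat_lit 1) (.e (nat_lit 205143) (nat_lit 0) .nil) .nil)))))) (.nd (nat_lit 7) (.nd (nat_lit 8) (.nd (nat_lit 9) 
(.lf (nat_lit 513122) (.g (nat_lit 3715) (.e (nat_lit 180252) (nat_lit 10) (.e (nat_lit 573489) (nat_lit 14) (.e (nat_lit 73755) (nat_lit 8) (.e (nat_lit 557067) (nat_lit 9) (.e (nat_lit 2602) (nat_lit 163) (.e (nat_lit 164403) (nat_lit 256) (.e (nat_lit 57373) (nat_lit 2) (.e (nat_lit 90173) (nat_lit 14) .nil)))))))) (.g (nat_lit 1) (.e (nat_lit 203236) (nat_lit 0) .nil) .nil))) 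
(.lf (nat_lit 513634) (.g (nat_lit 2143) (.e (nat_lit 180277) (nat_lit 32) (.e (nat_lit 1658) (nat_lit 115) (.e (nat_lit 393283) (nat_lit 24) (.e (nat_lit 434209) (nat_lit 18) (.e (nat_lit 5547) (nat_lit 306) (.e (nat_lit 2640) (nat_lit 165) .nil)))))) (.g (nat_lit 1) (.e (nat_lit 204595) (nat_lit 0) .nil) .nil)))) (.nd (nat_lit 9) 
(.lf (nat_lit 513378) (.g (nat_lit 407) (.e (nat_lit 180272) (nat_lit 26) (.e (nat_lit 704738) (nat_lit 11) (.e (nat_lit 16432) (nat_lit 9) .nil))) (.g (nat_lit 0) (.e (nat_lit 204135) (nat_lit 0) .nil) .nil))) 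
(.lf (nat_lit 513890) (.g (nat_lit 3082) (.e (nat_lit 180278) (nat_lit 32) (.e (nat_lit 1428) (nat_lit 108) (.e (nat_lit 336432) (nat_lit 30) (.e (nat_lit 450565) (nat_lit 0) (.e (nat_lit 5548) (nat_lit 306) (.e (nat_lit 2640) (nat_lit 165) .nil)))))) (.g (nat_lit 1) (.e (nat_lit 205060) (nat_lit 0) .nil) .nil))))) (.nd (nat_lit 8) (.nd (nat_lit 9) 
(.lf (nat_lit 513250) (.g (nat_lit 1339) (.e (nat_lit 180271) (nat_lit 26) (.e (nat_lit 704737) (nat_lit 11) (.e (nat_lit 16432) (nat_lit 9) (.e (nat_lit 426491) (nat_lit 27) .nil)))) (.g (nat_lit 0) (.e (nat_lit 203820) (nat_lit 0) .nil) .nil))) 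
(.lf (nat_lit 513762) (.g (nat_lit 1894) (.e (nat_lit 180278) (nat_lit 32) (.e (nat_lit 1234) (nat_lit 91) (.e (nat_lit 90170) (nat_lit 13) (.e (nat_lit 172113) (nat_lit 10) (.e (nat_lit 434203) (nat_lit 18) (.e (nat_lit 3955) (nat_lit 239) (.e (nat_lit 2637) (nat_lit 165) .nil))))))) (.g (nat_lit 1) (.e (nat_lit 204889) (nat_lit 0) .nil) .nil)))) (.nd (nat_lit 9) 
(.lf (nat_lit 513506) (.g (nat_lit 4134) (.e (nat_lit 180277) (nat_lit 32) (.e (nat_lit 1253) (nat_lit 92) (.e (nat_lit 98373) (nat_lit 29) (.e (nat_lit 450563) (nat_lit 0) (.e (nat_lit 3953) (nat_lit 239) (.e (nat_lit 2637) (nat_lit 165) .nil)))))) (.g (nat_lit 1) (.e (nat_lit 204394) (nat_lit 0) .nil) .nil))) 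
(.lf (nat_lit 514018) (.g (nat_lit 2716) (.e (nat_lit 180278) (nat_lit 32) (.e (nat_lit 1661) (nat_lit 115) (.e (nat_lit 393286) (nat_lit 25) (.e (nat_lit 458774) (nat_lit 18) (.e (nat_lit 5548) (nat_lit 306) (.e (nat_lit 2640) (nat_lit 165) .nil)))))) (.g (nat_lit 1) (.e (nat_lit 205328) (nat_lit 0) .nil) .nil)))))))) 
(.nd (nat_lit 5) (.nd (nat_lit 6) (.nd (nat_lit 7) (.nd (nat_lit 8) (.nd (nat_lit 9) 
(.lf (nat_lit 513042) (.g (nat_lit 1725) (.e (nat_lit 180252) (nat_lit 10) (.e (nat_lit 573470) (nat_lit 11) (.e (nat_lit 16436) (nat_lit 9) (.e (nat_lit 426128) (nat_lit 2) (.e (nat_lit 196628) (nat_lit 9) .nil))))) (.g (nat_lit 0) (.e (nat_lit 202886) (nat_lit 0) .nil) .nil))) 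
(.lf (nat_lit 513554) (.g (nat_lit 1725) (.e (nat_lit 180277) (nat_lit 32) (.e (nat_lit 1427) (nat_lit 108) (.e (nat_lit 336430) (nat_lit 29) (.e (nat_lit 442406) (nat_lit 20) .nil)))) (.g (nat_lit 0) (.e (nat_lit 204489) (nat_lit 0) .nil) .nil)))) (.nd (nat_lit 9) 
(.lf (nat_lit 513298) (.g (nat_lit 871) (.e (nat_lit 180271) (nat_lit 26) (.e (nat_lit 704738) (nat_lit 11) (.e (nat_lit 16402) (nat_lit 0) (.e (nat_lit 7936) (nat_lit 390) .nil)))) (.g (nat_lit 0) (.e (nat_lit 203907) (nat_lit 0) .nil) .nil))) 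
(.lf (nat_lit 513810) (.g (nat_lit 4378) (.e (nat_lit 180278) (nat_lit 32) (.e (nat_lit 1253) (nat_lit 92) (.e (nat_lit 98373) (nat_lit 29) (.e (nat_lit 450562) (nat_lit 0) (.e (nat_lit 3953) (nat_lit 239) (.e (nat_lit 2637) (nat_lit 165) .nil)))))) (.g (nat_lit 1) (.e (nat_lit 204939) (nat_lit 0) .nil) .nil))))) (.nd (nat_lit 8) (.nd (nat_lit 9) 
(.lf (nat_lit 513170) (.g (nat_lit 2177) (.e (nat_lit 180252) (nat_lit 10) (.e (nat_lit 573489) (nat_lit 14) (.e (nat_lit 73755) (nat_lit 8) (.e (nat_lit 557119) (nat_lit 18) (.e (nat_lit 2798) (nat_lit 180) .nil))))) (.g (nat_lit 0) (.e (nat_lit 203351) (nat_lit 0) .nil) .nil))) 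
(.lf (nat_lit 513682) (.g (nat_lit 489) (.e (nat_lit 180277) (nat_lit 32) (.e (nat_lit 1659) (nat_lit 115) (.e (nat_lit 393292) (nat_lit 26) .nil))) (.g (nat_lit 0) (.e (nat_lit 204659) (nat_lit 0) .nil) .nil)))) (.nd (nat_lit 9) 
(.lf (nat_lit 513426) (.g (nat_lit 452) (.e (nat_lit 188160) (nat_lit 28) (.e (nat_lit 720907) (nat_lit 11) (.e (nat_lit 426259) (nat_lit 9) (.e (nat_lit 426547) (nat_lit 31) (.e (nat_lit 376576) (nat_lit 5) .nil))))) (.g (nat_lit 0) (.e (nat_lit 204227) (nat_lit 0) .nil) .nil))) 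
(.lf (nat_lit 513938) (.g (nat_lit 3303) (.e (nat_lit 180278) (nat_lit 32) (.e (nat_lit 1659) (nat_lit 115) (.e (nat_lit 393281) (nat_lit 23) (.e (nat_lit 426098) (nat_lit 1) (.e (nat_lit 164348) (nat_lit 240) (.e (nat_lit 2638) (nat_lit 165) .nil)))))) (.g (nat_lit 1) (.e (nat_lit 205125) (nat_lit 0) .nil) .nil)))))) (.nd (nat_lit 7) (.nd (nat_lit 8) (.nd (nat_lit 9) 
(.lf (nat_lit 513106) (.g (nat_lit 1722) (.e (nat_lit 180252) (nat_lit 10) (.e (nat_lit 573488) (nat_lit 14) (.e (nat_lit 73755) (nat_lit 8) (.e (nat_lit 557089) (nat_lit 12) .nil)))) (.g (nat_lit 0) (.e (nat_lit 203198) (nat_lit 0) .nil) .nil))) 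
(.lf (nat_lit 513618) (.g (nat_lit 2127) (.e (nat_lit 180277) (nat_lit 32) (.e (nat_lit 1428) (nat_lit 108) (.e (nat_lit 336443) (nat_lit 32) (.e (nat_lit 466972) (nat_lit 21) (.e (nat_lit 164345) (nat_lit 240) (.e (nat_lit 2639) (nat_lit 165) .nil)))))) (.g (nat_lit 1) (.e (nat_lit 204575) (nat_lit 0) .nil) .nil)))) (.nd (nat_lit 9) 
(.lf (nat_lit 513362) (.g (nat_lit 562) (.e (nat_lit 180272) (nat_lit 26) (.e (nat_lit 704737) (nat_lit 11) (.e (nat_lit 16434) (nat_lit 9) .nil))) (.g (nat_lit 0) (.e (nat_lit 204082) (nat_lit 0) .nil) .nil))) 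
(.lf (nat_lit 513874) (.g (nat_lit 2215) (.e (nat_lit 180278) (nat_lit 32) (.e (nat_lit 1427) (nat_lit 108) (.e (nat_lit 336432) (nat_lit 30) (.e (nat_lit 450564) (nat_lit 0) (.e (nat_lit 5548) (nat_lit 306) (.e (nat_lit 2640) (nat_lit 165) .nil)))))) (.g (nat_lit 1) (.e (nat_lit 205034) (nat_lit 0) .nil) .nil))))) (.nd (nat_lit 8) (.nd (nat_lit 9) 
(.lf (nat_lit 513234) (.g (nat_lit 2380) (.e (nat_lit 180271) (nat_lit 26) (.e (nat_lit 704629) (nat_lit 9) (.e (nat_lit 411) (nat_lit 32) (.e (nat_lit 426195) (nat_lit 9) (.e (nat_lit 426533) (nat_lit 28) (.e (nat_lit 352000) (nat_lit 5) .nil)))))) (.g (nat_lit 1) (.e (nat_lit 203700) (nat_lit 0) .nil) .nil))) 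
(.lf (nat_lit 513746) (.g (nat_lit 1767) (.e (nat_lit 180277) (nat_lit 32) (.e (nat_lit 1661) (nat_lit 115) (.e (nat_lit 393268) (nat_lit 23) (.e (nat_lit 426377) (nat_lit 15) .nil)))) (.g (nat_lit 0) (.e (nat_lit 204824) (nat_lit 0) .nil) .nil)))) (.nd (nat_lit 9) 
(.lf (nat_lit 513490) (.g (nat_lit 2872) (.e (nat_lit 180277) (nat_lit 32) (.e (nat_lit 1253) (nat_lit 92) (.e (nat_lit 98373) (nat_lit 29) (.e (nat_lit 450560) (nat_lit 0) (.e (nat_lit 3918) (nat_lit 239) .nil))))) (.g (nat_lit 0) (.e (nat_lit 204378) (nat_lit 0) .nil) .nil))) 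
(.lf (nat_lit 514002) (.g (nat_lit 3042) (.e (nat_lit 180278) (nat_lit 32) (.e (nat_lit 1661) (nat_lit 115) (.e (nat_lit 393279) (nat_lit 23) (.e (nat_lit 426110) (nat_lit 1) (.e (nat_lit 164348) (nat_lit 240) (.e (nat_lit 2638) (nat_lit 165) .nil)))))) (.g (nat_lit 1) (.e (nat_lit 205294) (nat_lit 0) .nil) .nil))))))) (.nd (nat_lit 6) (.nd (nat_lit 7) (.nd (nat_lit 8) (.nd (nat_lit 9) 
(.lf (nat_lit 513074) (.g (nat_lit 3184) (.e (nat_lit 180252) (nat_lit 10) (.e (nat_lit 573471) (nat_lit 11) (.e (nat_lit 16449) (nat_lit 10) (.e (nat_lit 434231) (nat_lit 23) (.e (nat_lit 532490) (nat_lit 0) (.e (nat_lit 7936) (nat_lit 362) .nil)))))) (.g (nat_lit 1) (.e (nat_lit 202967) (nat_lit 0) .nil) .nil))) 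
(.lf (nat_lit 513586) (.g (nat_lit 319) (.e (nat_lit 180277) (nat_lit 32) (.e (nat_lit 1428) (nat_lit 108) (.e (nat_lit 336430) (nat_lit 29) .nil))) (.g (nat_lit 0) (.e (nat_lit 204537) (nat_lit 0) .nil) .nil)))) (.nd (nat_lit 9) 
(.lf (nat_lit 513330) (.g (nat_lit 1983) (.e (nat_lit 180271) (nat_lit 26) (.e (nat_lit 704738) (nat_lit 11) (.e (nat_lit 16463) (nat_lit 13) (.e (nat_lit 483354) (nat_lit 17) (.e (nat_lit 7936) (nat_lit 362) .nil))))) (.g (nat_lit 1) (.e (nat_lit 203967) (nat_lit 0) .nil) .nil))) 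
(.lf (nat_lit 513842) (.g (nat_lit 2845) (.e (nat_lit 180278) (nat_lit 32) (.e (nat_lit 1425) (nat_lit 108) (.e (nat_lit 336443) (nat_lit 32) (.e (nat_lit 466971) (nat_lit 21) (.e (nat_lit 164348) (nat_lit 240) (.e (nat_lit 2640) (nat_lit 165) .nil)))))) (.g (nat_lit 1) (.e (nat_lit 204977) (nat_lit 0) .nil) .nil))))) (.nd (nat_lit 8) (.nd (nat_lit 9) 
(.lf (nat_lit 513202) (.g (nat_lit 2802) (.e (nat_lit 180263) (nat_lit 21) (.e (nat_lit 663583) (nat_lit 11) (.e (nat_lit 24617) (nat_lit 7) (.e (nat_lit 319533) (nat_lit 16) (.e (nat_lit 286724) (nat_lit 0) (.e (nat_lit 7936) (nat_lit 362) .nil)))))) (.g (nat_lit 1) (.e (nat_lit 203421) (nat_lit 0) .nil) .nil))) 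
(.lf (nat_lit 513714) (.g (nat_lit 2128) (.e (nat_lit 180277) (nat_lit 32) (.e (nat_lit 1660) (nat_lit 115) (.e (nat_lit 393281) (nat_lit 23) (.e (nat_lit 426098) (nat_lit 1) (.e (nat_lit 164348) (nat_lit 240) (.e (nat_lit 2639) (nat_lit 165) .nil)))))) (.g (nat_lit 1) (.e (nat_lit 204706) (nat_lit 0) .nil) .nil)))) (.nd (nat_lit 9) 
(.lf (nat_lit 513458) (.g (nat_lit 1909) (.e (nat_lit 180275) (nat_lit 32) (.e (nat_lit 1517) (nat_lit 108) (.e (nat_lit 336429) (nat_lit 29) (.e (nat_lit 442421) (nat_lit 21) (.e (nat_lit 164348) (nat_lit 240) (.e (nat_lit 2640) (nat_lit 165) .nil)))))) (.g (nat_lit 1) (.e (nat_lit 204325) (nat_lit 0) .nil) .nil))) 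
(.lf (nat_lit 513970) (.g (nat_lit 1528) (.e (nat_lit 180278) (nat_lit 32) (.e (nat_lit 1660) (nat_lit 115) (.e (nat_lit 393277) (nat_lit 23) (.e (nat_lit 426109) (nat_lit 1) (.e (nat_lit 164345) (nat_lit 240) (.e (nat_lit 2639) (nat_lit 165) .nil)))))) (.g (nat_lit 1) (.e (nat_lit 205176) (nat_lit 0) .nil) .nil)))))) (.nd (nat_lit 7) (.nd (nat_lit 8) (.nd (nat_lit 9) 
(.lf (nat_lit 513138) (.g (nat_lit 3006) (.e (nat_lit 180252) (nat_lit 10) (.e (nat_lit 573489) (nat_lit 14) (.e (nat_lit 73755) (nat_lit 8) (.e (nat_lit 557090) (nat_lit 12) (.e (nat_lit 163842) (nat_lit 0) (.e (nat_lit 7936) (nat_lit 322) (.e (nat_lit 57373) (nat_lit 2) (.e (nat_lit 90173) (nat_lit 14) .nil)))))))) (.g (nat_lit 1) (.e (nat_lit 203261) (nat_lit 0) .nil) .nil))) 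
(.lf (nat_lit 513650) (.g (nat_lit 1121) (.e (nat_lit 180277) (nat_lit 32) (.e (nat_lit 1659) (nat_lit 115) (.e (nat_lit 393272) (nat_lit 23) (.e (nat_lit 426444) (nat_lit 19) (.e (nat_lit 114432) (nat_lit 5) .nil))))) (.g (nat_lit 0) (.e (nat_lit 204619) (nat_lit 0) .nil) .nil)))) (.nd (nat_lit 9) 
(.lf (nat_lit 513394) (.g (nat_lit 1477) (.e (nat_lit 180272) (nat_lit 26) (.e (nat_lit 704738) (nat_lit 11) (.e (nat_lit 16463) (nat_lit 13) (.e (nat_lit 483349) (nat_lit 17) (.e (nat_lit 7936) (nat_lit 362) .nil))))) (.g (nat_lit 0) (.e (nat_lit 204170) (nat_lit 0) .nil) .nil))) 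
(.lf (nat_lit 513906) (.g (nat_lit 1553) (.e (nat_lit 180278) (nat_lit 32) (.e (nat_lit 1658) (nat_lit 115) (.e (nat_lit 393281) (nat_lit 23) (.e (nat_lit 426098) (nat_lit 1) (.e (nat_lit 164347) (nat_lit 240) (.e (nat_lit 2638) (nat_lit 165) .nil)))))) (.g (nat_lit 1) (.e (nat_lit 205085) (nat_lit 0) .nil) .nil))))) (.nd (nat_lit 8) (.nd (nat_lit 9) 
(.lf (nat_lit 513266) (.g (nat_lit 1953) (.e (nat_lit 180271) (nat_lit 26) (.e (nat_lit 704737) (nat_lit 11) (.e (nat_lit 16439) (nat_lit 9) (.e (nat_lit 426499) (nat_lit 27) (.e (nat_lit 335893) (nat_lit 0) .nil))))) (.g (nat_lit 0) (.e (nat_lit 203840) (nat_lit 0) .nil) .nil))) 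
(.lf (nat_lit 513778) (.g (nat_lit 1726) (.e (nat_lit 180278) (nat_lit 32) (.e (nat_lit 1252) (nat_lit 92) (.e (nat_lit 98367) (nat_lit 27) (.e (nat_lit 434192) (nat_lit 13) (.e (nat_lit 2570) (nat_lit 160) .nil))))) (.g (nat_lit 0) (.e (nat_lit 204906) (nat_lit 0) .nil) .nil)))) (.nd (nat_lit 9) 
(.lf (nat_lit 513522) (.g (nat_lit 2716) (.e (nat_lit 180277) (nat_lit 32) (.e (nat_lit 1425) (nat_lit 108) (.e (nat_lit 336443) (nat_lit 32) (.e (nat_lit 466971) (nat_lit 21) (.e (nat_lit 164348) (nat_lit 240) (.e (nat_lit 2640) (nat_lit 165) .nil)))))) (.g (nat_lit 1) (.e (nat_lit 204417) (nat_lit 0) .nil) .nil))) 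
(.lf (nat_lit 514034) (.g (nat_lit 1365) (.e (nat_lit 188160) (nat_lit 32) (.e (nat_lit 496) (nat_lit 39) (.e (nat_lit 483411) (nat_lit 27) (.e (nat_lit 409344) (nat_lit 17) .nil)))) (.g (nat_lit 0) (.e (nat_lit 205395) (nat_lit 0) .nil) .nil))))))))) (.nd (nat_lit 4) (.nd (nat_lit 5) (.nd (nat_lit 6) (.nd (nat_lit 7) (.nd (nat_lit 8) (.nd (nat_lit 9) 
(.lf (nat_lit 513034) (.g (nat_lit 2770) (.e (nat_lit 180252) (nat_lit 10) (.e (nat_lit 573449) (nat_lit 9) (.e (nat_lit 1669) (nat_lit 116) (.e (nat_lit 401459) (nat_lit 13) (.e (nat_lit 483364) (nat_lit 18) (.e (nat_lit 57651) (nat_lit 152) (.e (nat_lit 2640) (nat_lit 165) .nil))))))) (.g (nat_lit 1) (.e (nat_lit 202795) (nat_lit 0) .nil) .nil))) 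
(.lf (nat_lit 513546) (.g (nat_lit 958) (.e (nat_lit 180277) (nat_lit 32) (.e (nat_lit 1427) (nat_lit 108) (.e (nat_lit 336426) (nat_lit 29) (.e (nat_lit 442421) (nat_lit 21) .nil)))) (.g (nat_lit 0) (.e (nat_lit 204470) (nat_lit 0) .nil) .nil)))) (.nd (nat_lit 9) 
(.lf (nat_lit 513290) (.g (nat_lit 2048) (.e (nat_lit 180271) (nat_lit 26) (.e (nat_lit 704737) (nat_lit 11) (.e (nat_lit 16466) (nat_lit 13) (.e (nat_lit 483344) (nat_lit 17) (.e (nat_lit 6724) (nat_lit 362) .nil))))) (.g (nat_lit 0) (.e (nat_lit 203887) (nat_lit 0) .nil) .nil))) 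
(.lf (nat_lit 513802) (.g (nat_lit 3240) (.e (nat_lit 180278) (nat_lit 32) (.e (nat_lit 1253) (nat_lit 92) (.e (nat_lit 98373) (nat_lit 29) (.e (nat_lit 450560) (nat_lit 0) (.e (nat_lit 3929) (nat_lit 239) (.e (nat_lit 2641) (nat_lit 165) .nil)))))) (.g (nat_lit 1) (.e (nat_lit 204931) (nat_lit 0) .nil) .nil))))) (.nd (nat_lit 8) (.nd (nat_lit 9) 
(.lf (nat_lit 513162) (.g (nat_lit 2575) (.e (nat_lit 180252) (nat_lit 10) (.e (nat_lit 573489) (nat_lit 14) (.e (nat_lit 73755) (nat_lit 8) (.e (nat_lit 557091) (nat_lit 12) (.e (nat_lit 163997) (nat_lit 37) .nil))))) (.g (nat_lit 0) (.e (nat_lit 203342) (nat_lit 0) .nil) .nil))) 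
(.lf (nat_lit 513674) (.g (nat_lit 3292) (.e (nat_lit 180277) (nat_lit 32) (.e (nat_lit 1659) (nat_lit 115) (.e (nat_lit 393283) (nat_lit 24) (.e (nat_lit 434209) (nat_lit 18) (.e (nat_lit 5546) (nat_lit 306) (.e (nat_lit 2638) (nat_lit 165) .nil)))))) (.g (nat_lit 1) (.e (nat_lit 204648) (nat_lit 0) .nil) .nil)))) (.nd (nat_lit 9) 
(.lf (nat_lit 513418) (.g (nat_lit 1763) (.e (nat_lit 188160) (nat_lit 27) (.e (nat_lit 712753) (nat_lit 30) (.e (nat_lit 450579) (nat_lit 5) (.e (nat_lit 532503) (nat_lit 1) (.e (nat_lit 57655) (nat_lit 152) .nil))))) (.g (nat_lit 0) (.e (nat_lit 204219) (nat_lit 0) .nil) .nil))) 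
(.lf (nat_lit 513930) (.g (nat_lit 2476) (.e (nat_lit 180278) (nat_lit 32) (.e (nat_lit 1659) (nat_lit 115) (.e (nat_lit 393271) (nat_lit 23) (.e (nat_lit 426354) (nat_lit 15) (.e (nat_lit 2053) (nat_lit 142) .nil))))) (.g (nat_lit 0) (.e (nat_lit 205112) (nat_lit 0) .nil) .nil)))))) (.nd (nat_lit 7) (.nd (nat_lit 8) (.nd (nat_lit 9) 
(.lf (nat_lit 513098) (.g (nat_lit 816) (.e (nat_lit 180252) (nat_lit 10) (.e (nat_lit 573481) (nat_lit 13) (.e (nat_lit 65568) (nat_lit 2) (.e (nat_lit 98048) (nat_lit 0) .nil)))) (.g (nat_lit 0) (.e (nat_lit 203112) (nat_lit 0) .nil) .nil))) 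
(.lf (nat_lit 513610) (.g (nat_lit 2460) (.e (nat_lit 180277) (nat_lit 32) (.e (nat_lit 1428) (nat_lit 108) (.e (nat_lit 336443) (nat_lit 32) (.e (nat_lit 466969) (nat_lit 21) (.e (nat_lit 164345) (nat_lit 240) (.e (nat_lit 2639) (nat_lit 165) .nil)))))) (.g (nat_lit 1) (.e (nat_lit 204567) (nat_lit 0) .nil) .nil)))) (.nd (nat_lit 9) 
(.lf (nat_lit 513354) (.g (nat_lit 972) (.e (nat_lit 180272) (nat_lit 26) (.e (nat_lit 704735) (nat_lit 11) (.e (nat_lit 16465) (nat_lit 13) (.e (nat_lit 483354) (nat_lit 17) (.e (nat_lit 7936) (nat_lit 362) .nil))))) (.g (nat_lit 0) (.e (nat_lit 204067) (nat_lit 0) .nil) .nil))) 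
(.lf (nat_lit 513866) (.g (nat_lit 3012) (.e (nat_lit 180278) (nat_lit 32) (.e (nat_lit 1426) (nat_lit 108) (.e (nat_lit 336443) (nat_lit 32) (.e (nat_lit 466971) (nat_lit 21) (.e (nat_lit 164348) (nat_lit 240) (.e (nat_lit 2640) (nat_lit 165) .nil)))))) (.g (nat_lit 1) (.e (nat_lit 205005) (nat_lit 0) .nil) .nil))))) (.nd (nat_lit 8) (.nd (nat_lit 9) 
(.lf (nat_lit 513226) (.g (nat_lit 1064) (.e (nat_lit 180269) (nat_lit 25) (.e (nat_lit 696344) (nat_lit 8) (.e (nat_lit 172122) (nat_lit 13) (.e (nat_lit 483354) (nat_lit 17) .nil)))) (.g (nat_lit 0) (.e (nat_lit 203587) (nat_lit 0) .nil) .nil))) 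
(.lf (nat_lit 513738) (.g (nat_lit 2428) (.e (nat_lit 180277) (nat_lit 32) (.e (nat_lit 1660) (nat_lit 115) (.e (nat_lit 393287) (nat_lit 25) (.e (nat_lit 458774) (nat_lit 18) (.e (nat_lit 5547) (nat_lit 306) (.e (nat_lit 2640) (nat_lit 165) .nil)))))) (.g (nat_lit 1) (.e (nat_lit 204735) (nat_lit 0) .nil) .nil)))) (.nd (nat_lit 9) 
(.lf (nat_lit 513482) (.g (nat_lit 1744) (.e (nat_lit 180277) (nat_lit 32) (.e (nat_lit 1253) (nat_lit 92) (.e (nat_lit 98367) (nat_lit 27) (.e (nat_lit 434186) (nat_lit 13) .nil)))) (.g (nat_lit 0) (.e (nat_lit 204370) (nat_lit 0) .nil) .nil))) 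
(.lf (nat_lit 513994) (.g (nat_lit 3061) (.e (nat_lit 180278) (nat_lit 32) (.e (nat_lit 1661) (nat_lit 115) (.e (nat_lit 393266) (nat_lit 23) (.e (nat_lit 426109) (nat_lit 1) (.e (nat_lit 164347) (nat_lit 240) (.e (nat_lit 2638) (nat_lit 165) .nil)))))) (.g (nat_lit 1) (.e (nat_lit 205255) (nat_lit 0) .nil) .nil))))))) (.nd (nat_lit 6) (.nd (nat_lit 7) (.nd (nat_lit 8) (.nd (nat_lit 9) 
(.lf (nat_lit 513066) (.g (nat_lit 2151) (.e (nat_lit 180252) (nat_lit 10) (.e (nat_lit 573471) (nat_lit 11) (.e (nat_lit 16448) (nat_lit 10) (.e (nat_lit 434223) (nat_lit 19) (.e (nat_lit 500056) (nat_lit 17) .nil))))) (.g (nat_lit 0) (.e (nat_lit 202948) (nat_lit 0) .nil) .nil))) 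
(.lf (nat_lit 513578) (.g (nat_lit 2852) (.e (nat_lit 180277) (nat_lit 32) (.e (nat_lit 1427) (nat_lit 108) (.e (nat_lit 336443) (nat_lit 32) (.e (nat_lit 466971) (nat_lit 21) (.e (nat_lit 164345) (nat_lit 240) (.e (nat_lit 2639) (nat_lit 165) .nil)))))) (.g (nat_lit 1) (.e (nat_lit 204525) (nat_lit 0) .nil) .nil)))) (.nd (nat_lit 9) 
(.lf (nat_lit 513322) (.g (nat_lit 1262) (.e (nat_lit 180271) (nat_lit 26) (.e (nat_lit 704738) (nat_lit 11) (.e (nat_lit 16440) (nat_lit 9) (.e (nat_lit 426513) (nat_lit 27) (.e (nat_lit 335964) (nat_lit 0) .nil))))) (.g (nat_lit 0) (.e (nat_lit 203945) (nat_lit 0) .nil) .nil))) 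
(.lf (nat_lit 513834) (.g (nat_lit 2007) (.e (nat_lit 180278) (nat_lit 32) (.e (nat_lit 1425) (nat_lit 108) (.e (nat_lit 336443) (nat_lit 32) (.e (nat_lit 466969) (nat_lit 21) (.e (nat_lit 164347) (nat_lit 240) (.e (nat_lit 2640) (nat_lit 165) .nil)))))) (.g (nat_lit 1) (.e (nat_lit 204969) (nat_lit 0) .nil) .nil))))) (.nd (nat_lit 8) (.nd (nat_lit 9) 
(.lf (nat_lit 513194) (.g (nat_lit 1230) (.e (nat_lit 180260) (nat_lit 18) (.e (nat_lit 639020) (nat_lit 16) (.e (nat_lit 65583) (nat_lit 7) (.e (nat_lit 319527) (nat_lit 15) (.e (nat_lit 278531) (nat_lit 0) (.e (nat_lit 5780) (nat_lit 317) .nil)))))) (.g (nat_lit 1) (.e (nat_lit 203410) (nat_lit 0) .nil) .nil))) 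
(.lf (nat_lit 513706) (.g (nat_lit 2759) (.e (nat_lit 180277) (nat_lit 32) (.e (nat_lit 1660) (nat_lit 115) (.e (nat_lit 393279) (nat_lit 23) (.e (nat_lit 426110) (nat_lit 1) (.e (nat_lit 164348) (nat_lit 240) (.e (nat_lit 2640) (nat_lit 165) .nil)))))) (.g (nat_lit 1) (.e (nat_lit 204697) (nat_lit 0) .nil) .nil)))) (.nd (nat_lit 9) 
(.lf (nat_lit 513450) (.g (nat_lit 1503) (.e (nat_lit 188160) (nat_lit 28) (.e (nat_lit 720909) (nat_lit 11) (.e (nat_lit 426200) (nat_lit 9) (.e (nat_lit 426533) (nat_lit 28) (.e (nat_lit 352000) (nat_lit 5) .nil))))) (.g (nat_lit 0) (.e (nat_lit 204259) (nat_lit 0) .nil) .nil))) 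
(.lf (nat_lit 513962) (.g (nat_lit 2156) (.e (nat_lit 180278) (nat_lit 32) (.e (nat_lit 1660) (nat_lit 115) (.e (nat_lit 393266) (nat_lit 23) (.e (nat_lit 426109) (nat_lit 1) (.e (nat_lit 164345) (nat_lit 240) (.e (nat_lit 2639) (nat_lit 165) .nil)))))) (.g (nat_lit 1) (.e (nat_lit 205162) (nat_lit 0) .nil) .nil)))))) (.nd (nat_lit 7) (.nd (nat_lit 8) (.nd (nat_lit 9) 
(.lf (nat_lit 513130) (.g (nat_lit 1477) (.e (nat_lit 180252) (nat_lit 10) (.e (nat_lit 573489) (nat_lit 14) (.e (nat_lit 73755) (nat_lit 8) (.e (nat_lit 557083) (nat_lit 10) .nil)))) (.g (nat_lit 0) (.e (nat_lit 203246) (nat_lit 0) .nil) .nil))) 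
(.lf (nat_lit 513642) (.g (nat_lit 1816) (.e (nat_lit 180277) (nat_lit 32) (.e (nat_lit 1659) (nat_lit 115) (.e (nat_lit 393268) (nat_lit 23) (.e (nat_lit 426444) (nat_lit 19) (.e (nat_lit 114432) (nat_lit 5) .nil))))) (.g (nat_lit 0) (.e (nat_lit 204606) (nat_lit 0) .nil) .nil)))) (.nd (nat_lit 9) 
(.lf (nat_lit 513386) (.g (nat_lit 1342) (.e (nat_lit 180272) (nat_lit 26) (.e (nat_lit 704738) (nat_lit 11) (.e (nat_lit 16436) (nat_lit 9) (.e (nat_lit 426551) (nat_lit 31) .nil)))) (.g (nat_lit 0) (.e (nat_lit 204144) (nat_lit 0) .nil) .nil))) 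
(.lf (nat_lit 513898) (.g (nat_lit 2001) (.e (nat_lit 180278) (nat_lit 32) (.e (nat_lit 1428) (nat_lit 108) (.e (nat_lit 336443) (nat_lit 32) (.e (nat_lit 466972) (nat_lit 21) (.e (nat_lit 164345) (nat_lit 240) .nil))))) (.g (nat_lit 0) (.e (nat_lit 205069) (nat_lit 0) .nil) .nil))))) (.nd (nat_lit 8) (.nd (nat_lit 9) 
(.lf (nat_lit 513258) (.g (nat_lit 1388) (.e (nat_lit 180271) (nat_lit 26) (.e (nat_lit 704737) (nat_lit 11) (.e (nat_lit 16434) (nat_lit 9) (.e (nat_lit 426551) (nat_lit 31) .nil)))) (.g (nat_lit 0) (.e (nat_lit 203829) (nat_lit 0) .nil) .nil))) 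
(.lf (nat_lit 513770) (.g (nat_lit 1001) (.e (nat_lit 180278) (nat_lit 32) (.e (nat_lit 1235) (nat_lit 91) (.e (nat_lit 90170) (nat_lit 13) (.e (nat_lit 172081) (nat_lit 7) .nil)))) (.g (nat_lit 0) (.e (nat_lit 204897) (nat_lit 0) .nil) .nil)))) (.nd (nat_lit 9) 
(.lf (nat_lit 513514) (.g (nat_lit 1270) (.e (nat_lit 180277) (nat_lit 32) (.e (nat_lit 1425) (nat_lit 108) (.e (nat_lit 336428) (nat_lit 29) (.e (nat_lit 442374) (nat_lit 0) (.e (nat_lit 2057) (nat_lit 142) .nil))))) (.g (nat_lit 0) (.e (nat_lit 204402) (nat_lit 0) .nil) .nil))) 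
(.lf (nat_lit 514026) (.g (nat_lit 1343) (.e (nat_lit 180278) (nat_lit 32) (.e (nat_lit 1661) (nat_lit 115) (.e (nat_lit 393291) (nat_lit 26) (.e (nat_lit 475205) (nat_lit 40) .nil)))) (.g (nat_lit 0) (.e (nat_lit 205339) (nat_lit 0) .nil) .nil)))))))) (.nd (nat_lit 5) (.nd (nat_lit 6) (.nd (nat_lit 7) (.nd (nat_lit 8) (.nd (nat_lit 9) 
(.lf (nat_lit 513050) (.g (nat_lit 1771) (.e (nat_lit 180252) (nat_lit 10) (.e (nat_lit 573471) (nat_lit 11) (.e (nat_lit 16433) (nat_lit 9) (.e (nat_lit 426091) (nat_lit 0) (.e (nat_lit 3238) (nat_lit 197) .nil))))) (.g (nat_lit 0) (.e (nat_lit 202912) (nat_lit 0) .nil) .nil))) 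
(.lf (nat_lit 513562) (.g (nat_lit 3738) (.e (nat_lit 180277) (nat_lit 32) (.e (nat_lit 1427) (nat_lit 108) (.e (nat_lit 336430) (nat_lit 29) (.e (nat_lit 442421) (nat_lit 21) (.e (nat_lit 164347) (nat_lit 240) (.e (nat_lit 2638) (nat_lit 165) .nil)))))) (.g (nat_lit 1) (.e (nat_lit 204497) (nat_lit 0) .nil) .nil)))) (.nd (nat_lit 9) 
(.lf (nat_lit 513306) (.g (nat_lit 336) (.e (nat_lit 180271) (nat_lit 26) (.e (nat_lit 704738) (nat_lit 11) (.e (nat_lit 16433) (nat_lit 9) .nil))) (.g (nat_lit 0) (.e (nat_lit 203920) (nat_lit 0) .nil) .nil))) 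
(.lf (nat_lit 513818) (.g (nat_lit 3155) (.e (nat_lit 180278) (nat_lit 32) (.e (nat_lit 1253) (nat_lit 92) (.e (nat_lit 98373) (nat_lit 29) (.e (nat_lit 450568) (nat_lit 0) (.e (nat_lit 7936) (nat_lit 239) .nil))))) (.g (nat_lit 0) (.e (nat_lit 204947) (nat_lit 0) .nil) .nil))))) (.nd (nat_lit 8) (.nd (nat_lit 9) 
(.lf (nat_lit 513178) (.g (nat_lit 4227) (.e (nat_lit 180252) (nat_lit 10) (.e (nat_lit 573503) (nat_lit 18) (.e (nat_lit 1348) (nat_lit 102) (.e (nat_lit 286761) (nat_lit 13) (.e (nat_lit 393234) (nat_lit 17) (.e (nat_lit 2405) (nat_lit 157) (.e (nat_lit 6025) (nat_lit 326) (.e (nat_lit 2637) (nat_lit 165) .nil)))))))) (.g (nat_lit 1) (.e (nat_lit 203384) (nat_lit 0) .nil) .nil))) 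
(.lf (nat_lit 513690) (.g (nat_lit 2419) (.e (nat_lit 180277) (nat_lit 32) (.e (nat_lit 1660) (nat_lit 115) (.e (nat_lit 393266) (nat_lit 23) (.e (nat_lit 426109) (nat_lit 1) (.e (nat_lit 164346) (nat_lit 240) (.e (nat_lit 2638) (nat_lit 165) .nil)))))) (.g (nat_lit 1) (.e (nat_lit 204676) (nat_lit 0) .nil) .nil)))) (.nd (nat_lit 9) 
(.lf (nat_lit 513434) (.g (nat_lit 355) (.e (nat_lit 188160) (nat_lit 28) (.e (nat_lit 720907) (nat_lit 11) (.e (nat_lit 426262) (nat_lit 9) (.e (nat_lit 433920) (nat_lit 31) .nil)))) (.g (nat_lit 0) (.e (nat_lit 204238) (nat_lit 0) .nil) .nil))) 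
(.lf (nat_lit 513946) (.g (nat_lit 2888) (.e (nat_lit 180278) (nat_lit 32) (.e (nat_lit 1659) (nat_lit 115) (.e (nat_lit 393281) (nat_lit 23) (.e (nat_lit 426108) (nat_lit 1) (.e (nat_lit 164345) (nat_lit 240) (.e (nat_lit 2639) (nat_lit 165) .nil)))))) (.g (nat_lit 1) (.e (nat_lit 205133) (nat_lit 0) .nil) .nil)))))) (.nd (nat_lit 7) (.nd (nat_lit 8) (.nd (nat_lit 9) 
(.lf (nat_lit 513114) (.g (nat_lit 2472) (.e (nat_lit 180252) (nat_lit 10) (.e (nat_lit 573489) (nat_lit 14) (.e (nat_lit 73754) (nat_lit 8) (.e (nat_lit 557091) (nat_lit 12) (.e (nat_lit 164000) (nat_lit 38) .nil))))) (.g (nat_lit 0) (.e (nat_lit 203215) (nat_lit 0) .nil) .nil))) 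
(.lf (nat_lit 513626) (.g (nat_lit 1173) (.e (nat_lit 180277) (nat_lit 32) (.e (nat_lit 1658) (nat_lit 115) (.e (nat_lit 393281) (nat_lit 23) (.e (nat_lit 426098) (nat_lit 1) (.e (nat_lit 164347) (nat_lit 240) .nil))))) (.g (nat_lit 0) (.e (nat_lit 204587) (nat_lit 0) .nil) .nil)))) (.nd (nat_lit 9) 
(.lf (nat_lit 513370) (.g (nat_lit 428) (.e (nat_lit 180272) (nat_lit 26) (.e (nat_lit 704737) (nat_lit 11) (.e (nat_lit 24320) (nat_lit 9) .nil))) (.g (nat_lit 0) (.e (nat_lit 204097) (nat_lit 0) .nil) .nil))) 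
(.lf (nat_lit 513882) (.g (nat_lit 3541) (.e (nat_lit 180278) (nat_lit 32) (.e (nat_lit 1428) (nat_lit 108) (.e (nat_lit 336430) (nat_lit 29) (.e (nat_lit 442419) (nat_lit 21) (.e (nat_lit 164347) (nat_lit 240) (.e (nat_lit 2638) (nat_lit 165) .nil)))))) (.g (nat_lit 1) (.e (nat_lit 205052) (nat_lit 0) .nil) .nil))))) (.nd (nat_lit 8) (.nd (nat_lit 9) 
(.lf (nat_lit 513242) (.g (nat_lit 943) (.e (nat_lit 180271) (nat_lit 26) (.e (nat_lit 704737) (nat_lit 11) (.e (nat_lit 16387) (nat_lit 0) .nil))) (.g (nat_lit 0) (.e (nat_lit 203805) (nat_lit 0) .nil) .nil))) 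
(.lf (nat_lit 513754) (.g (nat_lit 3547) (.e (nat_lit 180277) (nat_lit 32) (.e (nat_lit 1661) (nat_lit 115) (.e (nat_lit 393282) (nat_lit 24) (.e (nat_lit 434209) (nat_lit 18) (.e (nat_lit 5548) (nat_lit 306) (.e (nat_lit 2640) (nat_lit 165) .nil)))))) (.g (nat_lit 1) (.e (nat_lit 204867) (nat_lit 0) .nil) .nil)))) (.nd (nat_lit 9) 
(.lf (nat_lit 513498) (.g (nat_lit 1159) (.e (nat_lit 180277) (nat_lit 32) (.e (nat_lit 1253) (nat_lit 92) (.e (nat_lit 98373) (nat_lit 29) (.e (nat_lit 450562) (nat_lit 0) .nil)))) (.g (nat_lit 0) (.e (nat_lit 204386) (nat_lit 0) .nil) .nil))) 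
(.lf (nat_lit 514010) (.g (nat_lit 2487) (.e (nat_lit 180278) (nat_lit 32) (.e (nat_lit 1661) (nat_lit 115) (.e (nat_lit 393283) (nat_lit 24) (.e (nat_lit 434209) (nat_lit 18) (.e (nat_lit 5547) (nat_lit 306) (.e (nat_lit 2640) (nat_lit 165) .nil)))))) (.g (nat_lit 1) (.e (nat_lit 205317) (nat_lit 0) .nil) .nil))))))) (.nd (nat_lit 6) (.nd (nat_lit 7) (.nd (nat_lit 8) (.nd (nat_lit 9) 
(.lf (nat_lit 513082) (.g (nat_lit 4179) (.e (nat_lit 180252) (nat_lit 10) (.e (nat_lit 573471) (nat_lit 11) (.e (nat_lit 16470) (nat_lit 14) (.e (nat_lit 491537) (nat_lit 2) (.e (nat_lit 90165) (nat_lit 12) .nil))))) (.g (nat_lit 0) (.e (nat_lit 202982) (nat_lit 0) .nil) .nil))) 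
(.lf (nat_lit 513594) (.g (nat_lit 3449) (.e (nat_lit 180277) (nat_lit 32) (.e (nat_lit 1428) (nat_lit 108) (.e (nat_lit 336430) (nat_lit 29) (.e (nat_lit 442419) (nat_lit 21) (.e (nat_lit 164348) (nat_lit 240) (.e (nat_lit 2640) (nat_lit 165) .nil)))))) (.g (nat_lit 1) (.e (nat_lit 204546) (nat_lit 0) .nil) .nil)))) (.nd (nat_lit 9) 
(.lf (nat_lit 513338) (.g (nat_lit 1593) (.e (nat_lit 180271) (nat_lit 26) (.e (nat_lit 704738) (nat_lit 11) (.e (nat_lit 16464) (nat_lit 13) (.e (nat_lit 483357) (nat_lit 17) (.e (nat_lit 7936) (nat_lit 362) .nil))))) (.g (nat_lit 1) (.e (nat_lit 203975) (nat_lit 0) .nil) .nil))) 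
(.lf (nat_lit 513850) (.g (nat_lit 2091) (.e (nat_lit 180278) (nat_lit 32) (.e (nat_lit 1426) (nat_lit 108) (.e (nat_lit 336430) (nat_lit 29) (.e (nat_lit 442421) (nat_lit 21) (.e (nat_lit 164347) (nat_lit 240) (.e (nat_lit 2640) (nat_lit 165) .nil)))))) (.g (nat_lit 1) (.e (nat_lit 204987) (nat_lit 0) .nil) .nil))))) (.nd (nat_lit 8) (.nd (nat_lit 9) 
(.lf (nat_lit 513210) (.g (nat_lit 2355) (.e (nat_lit 180265) (nat_lit 21) (.e (nat_lit 663583) (nat_lit 11) (.e (nat_lit 24617) (nat_lit 7) (.e (nat_lit 319534) (nat_lit 16) (.e (nat_lit 286721) (nat_lit 0) .nil))))) (.g (nat_lit 0) (.e (nat_lit 203434) (nat_lit 0) .nil) .nil))) 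
(.lf (nat_lit 513722) (.g (nat_lit 2630) (.e (nat_lit 180277) (nat_lit 32) (.e (nat_lit 1660) (nat_lit 115) (.e (nat_lit 393282) (nat_lit 24) (.e (nat_lit 434209) (nat_lit 18) (.e (nat_lit 5546) (nat_lit 306) (.e (nat_lit 2640) (nat_lit 165) .nil)))))) (.g (nat_lit 1) (.e (nat_lit 204715) (nat_lit 0) .nil) .nil)))) (.nd (nat_lit 9) 
(.lf (nat_lit 513466) (.g (nat_lit 1057) (.e (nat_lit 180277) (nat_lit 32) (.e (nat_lit 1235) (nat_lit 91) (.e (nat_lit 90170) (nat_lit 13) (.e (nat_lit 172039) (nat_lit 0) .nil)))) (.g (nat_lit 0) (.e (nat_lit 204350) (nat_lit 0) .nil) .nil))) 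
(.lf (nat_lit 513978) (.g (nat_lit 3096) (.e (nat_lit 180278) (nat_lit 32) (.e (nat_lit 1660) (nat_lit 115) (.e (nat_lit 393281) (nat_lit 23) (.e (nat_lit 426100) (nat_lit 1) (.e (nat_lit 164345) (nat_lit 240) (.e (nat_lit 2638) (nat_lit 165) .nil)))))) (.g (nat_lit 1) (.e (nat_lit 205185) (nat_lit 0) .nil) .nil)))))) (.nd (nat_lit 7) (.nd (nat_lit 8) (.nd (nat_lit 9) 
(.lf (nat_lit 513146) (.g (nat_lit 2958) (.e (nat_lit 180252) (nat_lit 10) (.e (nat_lit 573489) (nat_lit 14) (.e (nat_lit 73755) (nat_lit 8) (.e (nat_lit 557090) (nat_lit 12) (.e (nat_lit 163847) (nat_lit 0) (.e (nat_lit 5945) (nat_lit 322) (.e (nat_lit 57371) (nat_lit 2) (.e (nat_lit 90173) (nat_lit 14) .nil)))))))) (.g (nat_lit 1) (.e (nat_lit 203269) (nat_lit 0) .nil) .nil))) 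
(.lf (nat_lit 513658) (.g (nat_lit 744) (.e (nat_lit 180277) (nat_lit 32) (.e (nat_lit 1659) (nat_lit 115) (.e (nat_lit 393279) (nat_lit 23) (.e (nat_lit 426441) (nat_lit 19) .nil)))) (.g (nat_lit 0) (.e (nat_lit 204629) (nat_lit 0) .nil) .nil)))) (.nd (nat_lit 9) 
(.lf (nat_lit 513402) (.g (nat_lit 1228) (.e (nat_lit 188160) (nat_lit 26) (.e (nat_lit 704733) (nat_lit 11) (.e (nat_lit 16463) (nat_lit 13) (.e (nat_lit 483346) (nat_lit 17) .nil)))) (.g (nat_lit 0) (.e (nat_lit 204203) (nat_lit 0) .nil) .nil))) 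
(.lf (nat_lit 513914) (.g (nat_lit 2193) (.e (nat_lit 180278) (nat_lit 32) (.e (nat_lit 1658) (nat_lit 115) (.e (nat_lit 393283) (nat_lit 24) (.e (nat_lit 434209) (nat_lit 18) (.e (nat_lit 5546) (nat_lit 306) (.e (nat_lit 2640) (nat_lit 165) .nil)))))) (.g (nat_lit 1) (.e (nat_lit 205094) (nat_lit 0) .nil) .nil))))) (.nd (nat_lit 8) (.nd (nat_lit 9) 
(.lf (nat_lit 513274) (.g (nat_lit 2343) (.e (nat_lit 180271) (nat_lit 26) (.e (nat_lit 704737) (nat_lit 11) (.e (nat_lit 16442) (nat_lit 9) (.e (nat_lit 426499) (nat_lit 27) (.e (nat_lit 335895) (nat_lit 0) (.e (nat_lit 6724) (nat_lit 362) .nil)))))) (.g (nat_lit 1) (.e (nat_lit 203851) (nat_lit 0) .nil) .nil))) 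
(.lf (nat_lit 513786) (.g (nat_lit 1585) (.e (nat_lit 180278) (nat_lit 32) (.e (nat_lit 1252) (nat_lit 92) (.e (nat_lit 98373) (nat_lit 29) (.e (nat_lit 450567) (nat_lit 0) .nil)))) (.g (nat_lit 0) (.e (nat_lit 204914) (nat_lit 0) .nil) .nil)))) (.nd (nat_lit 9) 
(.lf (nat_lit 513530) (.g (nat_lit 2945) (.e (nat_lit 180277) (nat_lit 32) (.e (nat_lit 1426) (nat_lit 108) (.e (nat_lit 336430) (nat_lit 29) (.e (nat_lit 442430) (nat_lit 24) (.e (nat_lit 229663) (nat_lit 240) (.e (nat_lit 2643) (nat_lit 165) .nil)))))) (.g (nat_lit 1) (.e (nat_lit 204429) (nat_lit 0) .nil) .nil))) 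
(.lf (nat_lit 514042) (.g (nat_lit 1657) (.e (nat_lit 188160) (nat_lit 32) (.e (nat_lit 1239) (nat_lit 91) (.e (nat_lit 90170) (nat_lit 13) (.e (nat_lit 172113) (nat_lit 10) (.e (nat_lit 434208) (nat_lit 18) .nil))))) (.g (nat_lit 0) (.e (nat_lit 205406) (nat_lit 0) .nil) .nil)))))))))) 
(.nd (nat_lit 3) (.nd (nat_lit 4) (.nd (nat_lit 5) (.nd (nat_lit 6) (.nd (nat_lit 7) 
(.nd (nat_lit 8) (.nd (nat_lit 9) 
(.lf (nat_lit 513030) (.g (nat_lit 2125) (.e (nat_lit 180251) (nat_lit 10) (.e (nat_lit 573503) (nat_lit 18) (.e (nat_lit 1349) (nat_lit 102) (.e (nat_lit 286743) (nat_lit 9) (.e (nat_lit 336446) (nat_lit 33) .nil))))) (.g (nat_lit 0) (.e (nat_lit 202772) (nat_lit 0) .nil) .nil))) 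
(.lf (nat_lit 513542) (.g (nat_lit 2933) (.e (nat_lit 180277) (nat_lit 32) (.e (nat_lit 1426) (nat_lit 108) (.e (nat_lit 336443) (nat_lit 32) (.e (nat_lit 466971) (nat_lit 21) (.e (nat_lit 164348) (nat_lit 240) (.e (nat_lit 2640) (nat_lit 165) .nil)))))) (.g (nat_lit 1) (.e (nat_lit 204442) (nat_lit 0) .nil) .nil)))) (.nd (nat_lit 9) 
(.lf (nat_lit 513286) (.g (nat_lit 1165) (.e (nat_lit 180271) (nat_lit 26) (.e (nat_lit 704737) (nat_lit 11) (.e (nat_lit 16464) (nat_lit 13) (.e (nat_lit 491264) (nat_lit 17) .nil)))) (.g (nat_lit 0) (.e (nat_lit 203883) (nat_lit 0) .nil) .nil))) 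
(.lf (nat_lit 513798) (.g (nat_lit 2878) (.e (nat_lit 180278) (nat_lit 32) (.e (nat_lit 1253) (nat_lit 92) (.e (nat_lit 98373) (nat_lit 29) (.e (nat_lit 450560) (nat_lit 0) (.e (nat_lit 3916) (nat_lit 239) .nil))))) (.g (nat_lit 0) (.e (nat_lit 204927) (nat_lit 0) .nil) .nil))))) (.nd (nat_lit 8) (.nd (nat_lit 9) 
(.lf (nat_lit 513158) (.g (nat_lit 3012) (.e (nat_lit 180252) (nat_lit 10) (.e (nat_lit 573489) (nat_lit 14) (.e (nat_lit 73755) (nat_lit 8) (.e (nat_lit 557090) (nat_lit 12) (.e (nat_lit 163854) (nat_lit 0) (.e (nat_lit 5951) (nat_lit 322) (.e (nat_lit 57373) (nat_lit 2) (.e (nat_lit 90173) (nat_lit 14) .nil)))))))) (.g (nat_lit 1) (.e (nat_lit 203281) (nat_lit 0) .nil) .nil))) 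
(.lf (nat_lit 513670) (.g (nat_lit 2933) (.e (nat_lit 180277) (nat_lit 32) (.e (nat_lit 1659) (nat_lit 115) (.e (nat_lit 393282) (nat_lit 24) (.e (nat_lit 434209) (nat_lit 18) (.e (nat_lit 5546) (nat_lit 306) (.e (nat_lit 2639) (nat_lit 165) .nil)))))) (.g (nat_lit 1) (.e (nat_lit 204642) (nat_lit 0) .nil) .nil)))) (.nd (nat_lit 9) 
(.lf (nat_lit 513414) (.g (nat_lit 1487) (.e (nat_lit 188160) (nat_lit 27) (.e (nat_lit 712753) (nat_lit 30) (.e (nat_lit 450579) (nat_lit 5) (.e (nat_lit 532501) (nat_lit 1) (.e (nat_lit 57651) (nat_lit 152) .nil))))) (.g (nat_lit 0) (.e (nat_lit 204215) (nat_lit 0) .nil) .nil))) 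
(.lf (nat_lit 513926) (.g (nat_lit 1795) (.e (nat_lit 180278) (nat_lit 32) (.e (nat_lit 1659) (nat_lit 115) (.e (nat_lit 393268) (nat_lit 23) (.e (nat_lit 426444) (nat_lit 19) (.e (nat_lit 114432) (nat_lit 5) .nil))))) (.g (nat_lit 0) (.e (nat_lit 205108) (nat_lit 0) .nil) .nil)))))) (.nd (nat_lit 7) (.nd (nat_lit 8) (.nd (nat_lit 9) 
(.lf (nat_lit 513094) (.g (nat_lit 946) (.e (nat_lit 180252) (nat_lit 10) (.e (nat_lit 573475) (nat_lit 12) (.e (nat_lit 57503) (nat_lit 38) (.e (nat_lit 638995) (nat_lit 7) .nil)))) (.g (nat_lit 0) (.e (nat_lit 203031) (nat_lit 0) .nil) .nil))) 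
(.lf (nat_lit 513606) (.g (nat_lit 1508) (.e (nat_lit 180277) (nat_lit 32) (.e (nat_lit 1428) (nat_lit 108) (.e (nat_lit 336432) (nat_lit 30) (.e (nat_lit 458496) (nat_lit 0) (.e (nat_lit 5547) (nat_lit 306) (.e (nat_lit 2640) (nat_lit 165) .nil)))))) (.g (nat_lit 1) (.e (nat_lit 204560) (nat_lit 0) .nil) .nil)))) (.nd (nat_lit 9) 
(.lf (nat_lit 513350) (.g (nat_lit 1908) (.e (nat_lit 180272) (nat_lit 26) (.e (nat_lit 704629) (nat_lit 9) (.e (nat_lit 375) (nat_lit 32) (.e (nat_lit 426201) (nat_lit 9) .nil)))) (.g (nat_lit 0) (.e (nat_lit 204003) (nat_lit 0) .nil) .nil))) 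
(.lf (nat_lit 513862) (.g (nat_lit 2370) (.e (nat_lit 180278) (nat_lit 32) (.e (nat_lit 1426) (nat_lit 108) (.e (nat_lit 336443) (nat_lit 32) (.e (nat_lit 466971) (nat_lit 21) (.e (nat_lit 164345) (nat_lit 240) (.e (nat_lit 2639) (nat_lit 165) .nil)))))) (.g (nat_lit 1) (.e (nat_lit 205001) (nat_lit 0) .nil) .nil))))) (.nd (nat_lit 8) (.nd (nat_lit 9) 
(.lf (nat_lit 513222) (.g (nat_lit 469) (.e (nat_lit 180269) (nat_lit 25) (.e (nat_lit 696344) (nat_lit 8) (.e (nat_lit 172094) (nat_lit 9) .nil))) (.g (nat_lit 0) (.e (nat_lit 203583) (nat_lit 0) .nil) .nil))) 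
(.lf (nat_lit 513734) (.g (nat_lit 2339) (.e (nat_lit 180277) (nat_lit 32) (.e (nat_lit 1660) (nat_lit 115) (.e (nat_lit 393286) (nat_lit 25) (.e (nat_lit 458774) (nat_lit 18) (.e (nat_lit 5547) (nat_lit 306) (.e (nat_lit 2640) (nat_lit 165) .nil)))))) (.g (nat_lit 1) (.e (nat_lit 204729) (nat_lit 0) .nil) .nil)))) (.nd (nat_lit 9) 
(.lf (nat_lit 513478) (.g (nat_lit 1200) (.e (nat_lit 180277) (nat_lit 32) (.e (nat_lit 1252) (nat_lit 92) (.e (nat_lit 98373) (nat_lit 29) (.e (nat_lit 450562) (nat_lit 0) .nil)))) (.g (nat_lit 0) (.e (nat_lit 204364) (nat_lit 0) .nil) .nil))) 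
(.lf (nat_lit 513990) (.g (nat_lit 1578) (.e (nat_lit 180278) (nat_lit 32) (.e (nat_lit 1660) (nat_lit 115) (.e (nat_lit 393287) (nat_lit 25) (.e (nat_lit 458774) (nat_lit 18) (.e (nat_lit 5546) (nat_lit 306) (.e (nat_lit 2640) (nat_lit 165) .nil)))))) (.g (nat_lit 1) (.e (nat_lit 205203) (nat_lit 0) .nil) .nil))))))) (.nd (nat_lit 6) (.nd (nat_lit 7) (.nd (nat_lit 8) (.nd (nat_lit 9) 
(.lf (nat_lit 513062) (.g (nat_lit 3224) (.e (nat_lit 180252) (nat_lit 10) (.e (nat_lit 573471) (nat_lit 11) (.e (nat_lit 16447) (nat_lit 10) (.e (nat_lit 434231) (nat_lit 23) (.e (nat_lit 532490) (nat_lit 0) (.e (nat_lit 7936) (nat_lit 362) .nil)))))) (.g (nat_lit 1) (.e (nat_lit 202944) (nat_lit 0) .nil) .nil))) 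
(.lf (nat_lit 513574) (.g (nat_lit 2900) (.e (nat_lit 180277) (nat_lit 32) (.e (nat_lit 1427) (nat_lit 108) (.e (nat_lit 336443) (nat_lit 32) (.e (nat_lit 466969) (nat_lit 21) (.e (nat_lit 164347) (nat_lit 240) (.e (nat_lit 2640) (nat_lit 165) .nil)))))) (.g (nat_lit 1) (.e (nat_lit 204521) (nat_lit 0) .nil) .nil)))) (.nd (nat_lit 9) 
(.lf (nat_lit 513318) (.g (nat_lit 1026) (.e (nat_lit 180271) (nat_lit 26) (.e (nat_lit 704738) (nat_lit 11) (.e (nat_lit 16439) (nat_lit 9) (.e (nat_lit 426513) (nat_lit 27) .nil)))) (.g (nat_lit 0) (.e (nat_lit 203936) (nat_lit 0) .nil) .nil))) 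
(.lf (nat_lit 513830) (.g (nat_lit 2563) (.e (nat_lit 180278) (nat_lit 32) (.e (nat_lit 1425) (nat_lit 108) (.e (nat_lit 336434) (nat_lit 30) (.e (nat_lit 450564) (nat_lit 0) (.e (nat_lit 5548) (nat_lit 306) (.e (nat_lit 2640) (nat_lit 165) .nil)))))) (.g (nat_lit 1) (.e (nat_lit 204962) (nat_lit 0) .nil) .nil))))) (.nd (nat_lit 8) (.nd (nat_lit 9) 
(.lf (nat_lit 513190) (.g (nat_lit 1585) (.e (nat_lit 180248) (nat_lit 9) (.e (nat_lit 565267) (nat_lit 4) (.e (nat_lit 65598) (nat_lit 9) (.e (nat_lit 335907) (nat_lit 0) (.e (nat_lit 2381) (nat_lit 155) .nil))))) (.g (nat_lit 0) (.e (nat_lit 203398) (nat_lit 0) .nil) .nil))) 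
(.lf (nat_lit 513702) (.g (nat_lit 2303) (.e (nat_lit 180277) (nat_lit 32) (.e (nat_lit 1660) (nat_lit 115) (.e (nat_lit 393277) (nat_lit 23) (.e (nat_lit 426103) (nat_lit 1) (.e (nat_lit 164348) (nat_lit 240) (.e (nat_lit 2638) (nat_lit 165) .nil)))))) (.g (nat_lit 1) (.e (nat_lit 204693) (nat_lit 0) .nil) .nil)))) (.nd (nat_lit 9) 
(.lf (nat_lit 513446) (.g (nat_lit 1093) (.e (nat_lit 188160) (nat_lit 28) (.e (nat_lit 720909) (nat_lit 11) (.e (nat_lit 426198) (nat_lit 9) (.e (nat_lit 426533) (nat_lit 28) (.e (nat_lit 352000) (nat_lit 5) .nil))))) (.g (nat_lit 0) (.e (nat_lit 204251) (nat_lit 0) .nil) .nil))) 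
(.lf (nat_lit 513958) (.g (nat_lit 3385) (.e (nat_lit 180278) (nat_lit 32) (.e (nat_lit 1659) (nat_lit 115) (.e (nat_lit 393283) (nat_lit 24) (.e (nat_lit 434209) (nat_lit 18) (.e (nat_lit 5548) (nat_lit 306) (.e (nat_lit 2640) (nat_lit 165) .nil)))))) (.g (nat_lit 1) (.e (nat_lit 205147) (nat_lit 0) .nil) .nil)))))) (.nd (nat_lit 7) (.nd (nat_lit 8) (.nd (nat_lit 9) 
(.lf (nat_lit 513126) (.g (nat_lit 2951) (.e (nat_lit 180252) (nat_lit 10) (.e (nat_lit 573489) (nat_lit 14) (.e (nat_lit 73755) (nat_lit 8) (.e (nat_lit 557067) (nat_lit 9) (.e (nat_lit 2604) (nat_lit 163) (.e (nat_lit 164397) (nat_lit 256) (.e (nat_lit 57371) (nat_lit 2) (.e (nat_lit 90173) (nat_lit 14) .nil)))))))) (.g (nat_lit 1) (.e (nat_lit 203240) (nat_lit 0) .nil) .nil))) 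
(.lf (nat_lit 513638) (.g (nat_lit 1695) (.e (nat_lit 180277) (nat_lit 32) (.e (nat_lit 1658) (nat_lit 115) (.e (nat_lit 393294) (nat_lit 26) (.e (nat_lit 475197) (nat_lit 40) (.e (nat_lit 704595) (nat_lit 5) .nil))))) (.g (nat_lit 0) (.e (nat_lit 204599) (nat_lit 0) .nil) .nil)))) (.nd (nat_lit 9) 
(.lf (nat_lit 513382) (.g (nat_lit 317) (.e (nat_lit 180272) (nat_lit 26) (.e (nat_lit 704738) (nat_lit 11) (.e (nat_lit 16436) (nat_lit 9) .nil))) (.g (nat_lit 0) (.e (nat_lit 204140) (nat_lit 0) .nil) .nil))) 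
(.lf (nat_lit 513894) (.g (nat_lit 2555) (.e (nat_lit 180278) (nat_lit 32) (.e (nat_lit 1428) (nat_lit 108) (.e (nat_lit 336443) (nat_lit 32) (.e (nat_lit 466969) (nat_lit 21) (.e (nat_lit 164345) (nat_lit 240) (.e (nat_lit 2639) (nat_lit 165) .nil)))))) (.g (nat_lit 1) (.e (nat_lit 205065) (nat_lit 0) .nil) .nil))))) (.nd (nat_lit 8) (.nd (nat_lit 9) 
(.lf (nat_lit 513254) (.g (nat_lit 720) (.e (nat_lit 180271) (nat_lit 26) (.e (nat_lit 704737) (nat_lit 11) (.e (nat_lit 16434) (nat_lit 9) .nil))) (.g (nat_lit 0) (.e (nat_lit 203825) (nat_lit 0) .nil) .nil))) 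
(.lf (nat_lit 513766) (.g (nat_lit 1760) (.e (nat_lit 180278) (nat_lit 32) (.e (nat_lit 1234) (nat_lit 91) (.e (nat_lit 90174) (nat_lit 14) (.e (nat_lit 188160) (nat_lit 35) .nil)))) (.g (nat_lit 0) (.e (nat_lit 204893) (nat_lit 0) .nil) .nil)))) (.nd (nat_lit 9) 
(.lf (nat_lit 513510) (.g (nat_lit 3226) (.e (nat_lit 180277) (nat_lit 32) (.e (nat_lit 1253) (nat_lit 92) (.e (nat_lit 98373) (nat_lit 29) (.e (nat_lit 450568) (nat_lit 0) (.e (nat_lit 3978) (nat_lit 239) .nil))))) (.g (nat_lit 0) (.e (nat_lit 204398) (nat_lit 0) .nil) .nil))) 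
(.lf (nat_lit 514022) (.g (nat_lit 1652) (.e (nat_lit 180278) (nat_lit 32) (.e (nat_lit 1661) (nat_lit 115) (.e (nat_lit 393291) (nat_lit 26) (.e (nat_lit 475196) (nat_lit 40) (.e (nat_lit 704595) (nat_lit 5) .nil))))) (.g (nat_lit 0) (.e (nat_lit 205335) (nat_lit 0) .nil) .nil)))))))) (.nd (nat_lit 5) (.nd (nat_lit 6) (.nd (nat_lit 7) (.nd (nat_lit 8) (.nd (nat_lit 9) 
(.lf (nat_lit 513046) (.g (nat_lit 2612) (.e (nat_lit 180252) (nat_lit 10) (.e (nat_lit 573470) (nat_lit 11) (.e (nat_lit 16448) (nat_lit 10) (.e (nat_lit 434231) (nat_lit 23) (.e (nat_lit 532482) (nat_lit 0) .nil))))) (.g (nat_lit 0) (.e (nat_lit 202894) (nat_lit 0) .nil) .nil))) 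
(.lf (nat_lit 513558) (.g (nat_lit 3717) (.e (nat_lit 180277) (nat_lit 32) (.e (nat_lit 1427) (nat_lit 108) (.e (nat_lit 336430) (nat_lit 29) (.e (nat_lit 442419) (nat_lit 21) (.e (nat_lit 164347) (nat_lit 240) (.e (nat_lit 2638) (nat_lit 165) .nil)))))) (.g (nat_lit 1) (.e (nat_lit 204493) (nat_lit 0) .nil) .nil)))) (.nd (nat_lit 9) 
(.lf (nat_lit 513302) (.g (nat_lit 2933) (.e (nat_lit 180271) (nat_lit 26) (.e (nat_lit 704738) (nat_lit 11) (.e (nat_lit 16425) (nat_lit 7) (.e (nat_lit 409617) (nat_lit 10) (.e (nat_lit 848) (nat_lit 73) (.e (nat_lit 761899) (nat_lit 15) (.e (nat_lit 171776) (nat_lit 206) .nil))))))) (.g (nat_lit 1) (.e (nat_lit 203916) (nat_lit 0) .nil) .nil))) 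
(.lf (nat_lit 513814) (.g (nat_lit 4059) (.e (nat_lit 180278) (nat_lit 32) (.e (nat_lit 1253) (nat_lit 92) (.e (nat_lit 98373) (nat_lit 29) (.e (nat_lit 450563) (nat_lit 0) (.e (nat_lit 3955) (nat_lit 239) .nil))))) (.g (nat_lit 0) (.e (nat_lit 204943) (nat_lit 0) .nil) .nil))))) (.nd (nat_lit 8) (.nd (nat_lit 9) 
(.lf (nat_lit 513174) (.g (nat_lit 3052) (.e (nat_lit 180252) (nat_lit 10) (.e (nat_lit 573503) (nat_lit 18) (.e (nat_lit 1348) (nat_lit 102) (.e (nat_lit 286743) (nat_lit 9) (.e (nat_lit 336446) (nat_lit 33) (.e (nat_lit 483072) (nat_lit 5) .nil)))))) (.g (nat_lit 1) (.e (nat_lit 203380) (nat_lit 0) .nil) .nil))) 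
(.lf (nat_lit 513686) (.g (nat_lit 1519) (.e (nat_lit 180277) (nat_lit 32) (.e (nat_lit 1659) (nat_lit 115) (.e (nat_lit 393295) (nat_lit 26) (.e (nat_lit 475198) (nat_lit 40) (.e (nat_lit 704596) (nat_lit 5) .nil))))) (.g (nat_lit 0) (.e (nat_lit 204665) (nat_lit 0) .nil) .nil)))) (.nd (nat_lit 9) 
(.lf (nat_lit 513430) (.g (nat_lit 497) (.e (nat_lit 188160) (nat_lit 28) (.e (nat_lit 720907) (nat_lit 11) (.e (nat_lit 426261) (nat_lit 9) (.e (nat_lit 426549) (nat_lit 31) (.e (nat_lit 376576) (nat_lit 5) .nil))))) (.g (nat_lit 0) (.e (nat_lit 204233) (nat_lit 0) .nil) .nil))) 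
(.lf (nat_lit 513942) (.g (nat_lit 2260) (.e (nat_lit 180278) (nat_lit 32) (.e (nat_lit 1659) (nat_lit 115) (.e (nat_lit 393281) (nat_lit 23) (.e (nat_lit 426100) (nat_lit 1) (.e (nat_lit 164345) (nat_lit 240) (.e (nat_lit 2640) (nat_lit 165) .nil)))))) (.g (nat_lit 1) (.e (nat_lit 205129) (nat_lit 0) .nil) .nil)))))) (.nd (nat_lit 7) (.nd (nat_lit 8) (.nd (nat_lit 9) 
(.lf (nat_lit 513110) (.g (nat_lit 3249) (.e (nat_lit 180252) (nat_lit 10) (.e (nat_lit 573489) (nat_lit 14) (.e (nat_lit 73747) (nat_lit 3) (.e (nat_lit 516115) (nat_lit 1) (.e (nat_lit 164157) (nat_lit 152) .nil))))) (.g (nat_lit 0) (.e (nat_lit 203211) (nat_lit 0) .nil) .nil))) 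
(.lf (nat_lit 513622) (.g (nat_lit 2271) (.e (nat_lit 180277) (nat_lit 32) (.e (nat_lit 1658) (nat_lit 115) (.e (nat_lit 393271) (nat_lit 23) (.e (nat_lit 426354) (nat_lit 15) (.e (nat_lit 2050) (nat_lit 142) .nil))))) (.g (nat_lit 0) (.e (nat_lit 204582) (nat_lit 0) .nil) .nil)))) (.nd (nat_lit 9) 
(.lf (nat_lit 513366) (.g (nat_lit 1200) (.e (nat_lit 180272) (nat_lit 26) (.e (nat_lit 704737) (nat_lit 11) (.e (nat_lit 16438) (nat_lit 9) (.e (nat_lit 426533) (nat_lit 28) .nil)))) (.g (nat_lit 0) (.e (nat_lit 204086) (nat_lit 0) .nil) .nil))) 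
(.lf (nat_lit 513878) (.g (nat_lit 467) (.e (nat_lit 180278) (nat_lit 32) (.e (nat_lit 1428) (nat_lit 108) (.e (nat_lit 336426) (nat_lit 29) .nil))) (.g (nat_lit 0) (.e (nat_lit 205047) (nat_lit 0) .nil) .nil))))) (.nd (nat_lit 8) (.nd (nat_lit 9) 
(.lf (nat_lit 513238) (.g (nat_lit 1459) (.e (nat_lit 180271) (nat_lit 26) (.e (nat_lit 704736) (nat_lit 11) (.e (nat_lit 16463) (nat_lit 13) (.e (nat_lit 483353) (nat_lit 17) (.e (nat_lit 7936) (nat_lit 362) .nil))))) (.g (nat_lit 0) (.e (nat_lit 203799) (nat_lit 0) .nil) .nil))) 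
(.lf (nat_lit 513750) (.g (nat_lit 377) (.e (nat_lit 180277) (nat_lit 32) (.e (nat_lit 1661) (nat_lit 115) (.e (nat_lit 393275) (nat_lit 23) .nil))) (.g (nat_lit 0) (.e (nat_lit 204840) (nat_lit 0) .nil) .nil)))) (.nd (nat_lit 9) 
(.lf (nat_lit 513494) (.g (nat_lit 2938) (.e (nat_lit 180277) (nat_lit 32) (.e (nat_lit 1253) (nat_lit 92) (.e (nat_lit 98373) (nat_lit 29) (.e (nat_lit 450560) (nat_lit 0) (.e (nat_lit 3987) (nat_lit 239) (.e (nat_lit 2638) (nat_lit 165) .nil)))))) (.g (nat_lit 1) (.e (nat_lit 204382) (nat_lit 0) .nil) .nil))) 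
(.lf (nat_lit 514006) (.g (nat_lit 2502) (.e (nat_lit 180278) (nat_lit 32) (.e (nat_lit 1661) (nat_lit 115) (.e (nat_lit 393281) (nat_lit 23) (.e (nat_lit 426107) (nat_lit 1) (.e (nat_lit 164347) (nat_lit 240) (.e (nat_lit 2640) (nat_lit 165) .nil)))))) (.g (nat_lit 1) (.e (nat_lit 205306) (nat_lit 0) .nil) .nil))))))) (.nd (nat_lit 6) (.nd (nat_lit 7) (.nd (nat_lit 8) (.nd (nat_lit 9) 
(.lf (nat_lit 513078) (.g (nat_lit 3095) (.e (nat_lit 180252) (nat_lit 10) (.e (nat_lit 573471) (nat_lit 11) (.e (nat_lit 16452) (nat_lit 11) (.e (nat_lit 458789) (nat_lit 23) (.e (nat_lit 532481) (nat_lit 0) (.e (nat_lit 6724) (nat_lit 362) .nil)))))) (.g (nat_lit 1) (.e (nat_lit 202973) (nat_lit 0) .nil) .nil))) 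
(.lf (nat_lit 513590) (.g (nat_lit 1860) (.e (nat_lit 180277) (nat_lit 32) (.e (nat_lit 1428) (nat_lit 108) (.e (nat_lit 336430) (nat_lit 29) (.e (nat_lit 442419) (nat_lit 21) (.e (nat_lit 164346) (nat_lit 240) (.e (nat_lit 2640) (nat_lit 165) .nil)))))) (.g (nat_lit 1) (.e (nat_lit 204542) (nat_lit 0) .nil) .nil)))) (.nd (nat_lit 9) 
(.lf (nat_lit 513334) (.g (nat_lit 2015) (.e (nat_lit 180271) (nat_lit 26) (.e (nat_lit 704738) (nat_lit 11) (.e (nat_lit 16463) (nat_lit 13) (.e (nat_lit 483361) (nat_lit 17) (.e (nat_lit 7936) (nat_lit 362) .nil))))) (.g (nat_lit 1) (.e (nat_lit 203971) (nat_lit 0) .nil) .nil))) 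
(.lf (nat_lit 513846) (.g (nat_lit 783) (.e (nat_lit 180278) (nat_lit 32) (.e (nat_lit 1426) (nat_lit 108) (.e (nat_lit 336428) (nat_lit 29) (.e (nat_lit 450304) (nat_lit 4) .nil)))) (.g (nat_lit 0) (.e (nat_lit 204981) (nat_lit 0) .nil) .nil))))) (.nd (nat_lit 8) (.nd (nat_lit 9) 
(.lf (nat_lit 513206) (.g (nat_lit 2013) (.e (nat_lit 180265) (nat_lit 21) (.e (nat_lit 663583) (nat_lit 11) (.e (nat_lit 24617) (nat_lit 7) (.e (nat_lit 319533) (nat_lit 16) (.e (nat_lit 286720) (nat_lit 0) (.e (nat_lit 7936) (nat_lit 362) .nil)))))) (.g (nat_lit 1) (.e (nat_lit 203430) (nat_lit 0) .nil) .nil))) 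
(.lf (nat_lit 513718) (.g (nat_lit 2748) (.e (nat_lit 180277) (nat_lit 32) (.e (nat_lit 1660) (nat_lit 115) (.e (nat_lit 393281) (nat_lit 23) (.e (nat_lit 426107) (nat_lit 1) (.e (nat_lit 164347) (nat_lit 240) (.e (nat_lit 2640) (nat_lit 165) .nil)))))) (.g (nat_lit 1) (.e (nat_lit 204710) (nat_lit 0) .nil) .nil)))) (.nd (nat_lit 9) 
(.lf (nat_lit 513462) (.g (nat_lit 1909) (.e (nat_lit 180277) (nat_lit 32) (.e (nat_lit 1179) (nat_lit 87) (.e (nat_lit 57688) (nat_lit 156) (.e (nat_lit 163933) (nat_lit 17) (.e (nat_lit 466971) (nat_lit 21) .nil))))) (.g (nat_lit 0) (.e (nat_lit 204346) (nat_lit 0) .nil) .nil))) 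
(.lf (nat_lit 513974) (.g (nat_lit 2333) (.e (nat_lit 180278) (nat_lit 32) (.e (nat_lit 1660) (nat_lit 115) (.e (nat_lit 393281) (nat_lit 23) (.e (nat_lit 426098) (nat_lit 1) (.e (nat_lit 164346) (nat_lit 240) (.e (nat_lit 2639) (nat_lit 165) .nil)))))) (.g (nat_lit 1) (.e (nat_lit 205181) (nat_lit 0) .nil) .nil)))))) (.nd (nat_lit 7) (.nd (nat_lit 8) (.nd (nat_lit 9) 
(.lf (nat_lit 513142) (.g (nat_lit 3402) (.e (nat_lit 180252) (nat_lit 10) (.e (nat_lit 573489) (nat_lit 14) (.e (nat_lit 73755) (nat_lit 8) (.e (nat_lit 557090) (nat_lit 12) (.e (nat_lit 163843) (nat_lit 0) (.e (nat_lit 5943) (nat_lit 322) (.e (nat_lit 57373) (nat_lit 2) (.e (nat_lit 90173) (nat_lit 14) .nil)))))))) (.g (nat_lit 1) (.e (nat_lit 203265) (nat_lit 0) .nil) .nil))) 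
(.lf (nat_lit 513654) (.g (nat_lit 1396) (.e (nat_lit 180277) (nat_lit 32) (.e (nat_lit 1659) (nat_lit 115) (.e (nat_lit 393277) (nat_lit 23) (.e (nat_lit 426109) (nat_lit 1) (.e (nat_lit 164345) (nat_lit 240) (.e (nat_lit 2640) (nat_lit 165) .nil)))))) (.g (nat_lit 1) (.e (nat_lit 204625) (nat_lit 0) .nil) .nil)))) (.nd (nat_lit 9) 
(.lf (nat_lit 513398) (.g (nat_lit 1595) (.e (nat_lit 180272) (nat_lit 26) (.e (nat_lit 704738) (nat_lit 11) (.e (nat_lit 16466) (nat_lit 13) (.e (nat_lit 483349) (nat_lit 17) .nil)))) (.g (nat_lit 0) (.e (nat_lit 204177) (nat_lit 0) .nil) .nil))) 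
(.lf (nat_lit 513910) (.g (nat_lit 1927) (.e (nat_lit 180278) (nat_lit 32) (.e (nat_lit 1658) (nat_lit 115) (.e (nat_lit 393281) (nat_lit 23) (.e (nat_lit 426108) (nat_lit 1) (.e (nat_lit 164345) (nat_lit 240) (.e (nat_lit 2639) (nat_lit 165) .nil)))))) (.g (nat_lit 1) (.e (nat_lit 205089) (nat_lit 0) .nil) .nil))))) (.nd (nat_lit 8) (.nd (nat_lit 9) 
(.lf (nat_lit 513270) (.g (nat_lit 1335) (.e (nat_lit 180271) (nat_lit 26) (.e (nat_lit 704737) (nat_lit 11) (.e (nat_lit 16439) (nat_lit 9) (.e (nat_lit 426528) (nat_lit 27) (.e (nat_lit 335895) (nat_lit 0) .nil))))) (.g (nat_lit 0) (.e (nat_lit 203845) (nat_lit 0) .nil) .nil))) 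
(.lf (nat_lit 513782) (.g (nat_lit 1182) (.e (nat_lit 180278) (nat_lit 32) (.e (nat_lit 1252) (nat_lit 92) (.e (nat_lit 98373) (nat_lit 29) (.e (nat_lit 450562) (nat_lit 0) .nil)))) (.g (nat_lit 0) (.e (nat_lit 204910) (nat_lit 0) .nil) .nil)))) (.nd (nat_lit 9) 
(.lf (nat_lit 513526) (.g (nat_lit 1397) (.e (nat_lit 180277) (nat_lit 32) (.e (nat_lit 1426) (nat_lit 108) (.e (nat_lit 336428) (nat_lit 29) (.e (nat_lit 442374) (nat_lit 0) (.e (nat_lit 2057) (nat_lit 142) .nil))))) (.g (nat_lit 0) (.e (nat_lit 204422) (nat_lit 0) .nil) .nil))) 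
(.lf (nat_lit 514038) (.g (nat_lit 1253) (.e (nat_lit 188160) (nat_lit 32) (.e (nat_lit 1239) (nat_lit 91) (.e (nat_lit 90134) (nat_lit 9) (.e (nat_lit 2882) (nat_lit 184) .nil)))) (.g (nat_lit 0) (.e (nat_lit 205402) (nat_lit 0) .nil) .nil))))))))) (.nd (nat_lit 4) (.nd (nat_lit 5) (.nd (nat_lit 6) (.nd (nat_lit 7) (.nd (nat_lit 8) (.nd (nat_lit 9) 
(.lf (nat_lit 513038) (.g (nat_lit 3130) (.e (nat_lit 180252) (nat_lit 10) (.e (nat_lit 573451) (nat_lit 9) (.e (nat_lit 1667) (nat_lit 116) (.e (nat_lit 401459) (nat_lit 13) (.e (nat_lit 483364) (nat_lit 18) (.e (nat_lit 57665) (nat_lit 152) (.e (nat_lit 2637) (nat_lit 165) .nil))))))) (.g (nat_lit 1) (.e (nat_lit 202856) (nat_lit 0) .nil) .nil))) 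
(.lf (nat_lit 513550) (.g (nat_lit 363) (.e (nat_lit 180277) (nat_lit 32) (.e (nat_lit 1427) (nat_lit 108) (.e (nat_lit 336428) (nat_lit 29) .nil))) (.g (nat_lit 0) (.e (nat_lit 204476) (nat_lit 0) .nil) .nil)))) (.nd (nat_lit 9) 
(.lf (nat_lit 513294) (.g (nat_lit 2546) (.e (nat_lit 180271) (nat_lit 26) (.e (nat_lit 704737) (nat_lit 11) (.e (nat_lit 16468) (nat_lit 13) (.e (nat_lit 483344) (nat_lit 17) (.e (nat_lit 6724) (nat_lit 362) .nil))))) (.g (nat_lit 1) (.e (nat_lit 203893) (nat_lit 0) .nil) .nil))) 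
(.lf (nat_lit 513806) (.g (nat_lit 2876) (.e (nat_lit 180278) (nat_lit 32) (.e (nat_lit 1253) (nat_lit 92) (.e (nat_lit 98373) (nat_lit 29) (.e (nat_lit 450560) (nat_lit 0) (.e (nat_lit 3988) (nat_lit 239) .nil))))) (.g (nat_lit 0) (.e (nat_lit 204935) (nat_lit 0) .nil) .nil))))) (.nd (nat_lit 8) (.nd (nat_lit 9) 
(.lf (nat_lit 513166) (.g (nat_lit 2256) (.e (nat_lit 180252) (nat_lit 10) (.e (nat_lit 573489) (nat_lit 14) (.e (nat_lit 73755) (nat_lit 8) (.e (nat_lit 557119) (nat_lit 18) (.e (nat_lit 2796) (nat_lit 180) .nil))))) (.g (nat_lit 0) (.e (nat_lit 203347) (nat_lit 0) .nil) .nil))) 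
(.lf (nat_lit 513678) (.g (nat_lit 2412) (.e (nat_lit 180277) (nat_lit 32) (.e (nat_lit 1659) (nat_lit 115) (.e (nat_lit 393283) (nat_lit 24) (.e (nat_lit 434209) (nat_lit 18) (.e (nat_lit 5548) (nat_lit 306) (.e (nat_lit 2639) (nat_lit 165) .nil)))))) (.g (nat_lit 1) (.e (nat_lit 204652) (nat_lit 0) .nil) .nil)))) (.nd (nat_lit 9) 
(.lf (nat_lit 513422) (.g (nat_lit 2632) (.e (nat_lit 188160) (nat_lit 27) (.e (nat_lit 712753) (nat_lit 30) (.e (nat_lit 450580) (nat_lit 5) (.e (nat_lit 532499) (nat_lit 1) (.e (nat_lit 57665) (nat_lit 152) .nil))))) (.g (nat_lit 0) (.e (nat_lit 204223) (nat_lit 0) .nil) .nil))) 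
(.lf (nat_lit 513934) (.g (nat_lit 442) (.e (nat_lit 180278) (nat_lit 32) (.e (nat_lit 1659) (nat_lit 115) (.e (nat_lit 393279) (nat_lit 23) .nil))) (.g (nat_lit 0) (.e (nat_lit 205119) (nat_lit 0) .nil) .nil)))))) (.nd (nat_lit 7) (.nd (nat_lit 8) (.nd (nat_lit 9) 
(.lf (nat_lit 513102) (.g (nat_lit 2636) (.e (nat_lit 180252) (nat_lit 10) (.e (nat_lit 573487) (nat_lit 14) (.e (nat_lit 73747) (nat_lit 3) (.e (nat_lit 516117) (nat_lit 1) (.e (nat_lit 171776) (nat_lit 160) .nil))))) (.g (nat_lit 0) (.e (nat_lit 203177) (nat_lit 0) .nil) .nil))) 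
(.lf (nat_lit 513614) (.g (nat_lit 2280) (.e (nat_lit 180277) (nat_lit 32) (.e (nat_lit 1428) (nat_lit 108) (.e (nat_lit 336443) (nat_lit 32) (.e (nat_lit 466971) (nat_lit 21) (.e (nat_lit 164345) (nat_lit 240) (.e (nat_lit 2639) (nat_lit 165) .nil)))))) (.g (nat_lit 1) (.e (nat_lit 204571) (nat_lit 0) .nil) .nil)))) (.nd (nat_lit 9) 
(.lf (nat_lit 513358) (.g (nat_lit 1664) (.e (nat_lit 180272) (nat_lit 26) (.e (nat_lit 704737) (nat_lit 11) (.e (nat_lit 16431) (nat_lit 9) (.e (nat_lit 426550) (nat_lit 31) .nil)))) (.g (nat_lit 0) (.e (nat_lit 204078) (nat_lit 0) .nil) .nil))) 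
(.lf (nat_lit 513870) (.g (nat_lit 1710) (.e (nat_lit 180278) (nat_lit 32) (.e (nat_lit 1427) (nat_lit 108) (.e (nat_lit 336430) (nat_lit 29) (.e (nat_lit 442406) (nat_lit 20) .nil)))) (.g (nat_lit 0) (.e (nat_lit 205029) (nat_lit 0) .nil) .nil))))) (.nd (nat_lit 8) (.nd (nat_lit 9) 
(.lf (nat_lit 513230) (.g (nat_lit 2011) (.e (nat_lit 180271) (nat_lit 26) (.e (nat_lit 704629) (nat_lit 9) (.e (nat_lit 375) (nat_lit 32) (.e (nat_lit 426201) (nat_lit 9) .nil)))) (.g (nat_lit 0) (.e (nat_lit 203688) (nat_lit 0) .nil) .nil))) 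
(.lf (nat_lit 513742) (.g (nat_lit 411) (.e (nat_lit 180277) (nat_lit 32) (.e (nat_lit 1661) (nat_lit 115) (.e (nat_lit 393266) (nat_lit 23) .nil))) (.g (nat_lit 0) (.e (nat_lit 204802) (nat_lit 0) .nil) .nil)))) (.nd (nat_lit 9) 
(.lf (nat_lit 513486) (.g (nat_lit 1993) (.e (nat_lit 180277) (nat_lit 32) (.e (nat_lit 1253) (nat_lit 92) (.e (nat_lit 98370) (nat_lit 28) (.e (nat_lit 442430) (nat_lit 24) (.e (nat_lit 229535) (nat_lit 134) .nil))))) (.g (nat_lit 0) (.e (nat_lit 204374) (nat_lit 0) .nil) .nil))) 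
(.lf (nat_lit 513998) (.g (nat_lit 428) (.e (nat_lit 180278) (nat_lit 32) (.e (nat_lit 1661) (nat_lit 115) (.e (nat_lit 393274) (nat_lit 23) .nil))) (.g (nat_lit 0) (.e (nat_lit 205279) (nat_lit 0) .nil) .nil))))))) (.nd (nat_lit 6) (.nd (nat_lit 7) (.nd (nat_lit 8) (.nd (nat_lit 9) 
(.lf (nat_lit 513070) (.g (nat_lit 1963) (.e (nat_lit 180252) (nat_lit 10) (.e (nat_lit 573471) (nat_lit 11) (.e (nat_lit 16448) (nat_lit 10) (.e (nat_lit 434234) (nat_lit 23) .nil)))) (.g (nat_lit 0) (.e (nat_lit 202961) (nat_lit 0) .nil) .nil))) 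
(.lf (nat_lit 513582) (.g (nat_lit 2796) (.e (nat_lit 180277) (nat_lit 32) (.e (nat_lit 1427) (nat_lit 108) (.e (nat_lit 336443) (nat_lit 32) (.e (nat_lit 466971) (nat_lit 21) (.e (nat_lit 164348) (nat_lit 240) (.e (nat_lit 2639) (nat_lit 165) .nil)))))) (.g (nat_lit 1) (.e (nat_lit 204529) (nat_lit 0) .nil) .nil)))) (.nd (nat_lit 9) 
(.lf (nat_lit 513326) (.g (nat_lit 2758) (.e (nat_lit 180271) (nat_lit 26) (.e (nat_lit 704738) (nat_lit 11) (.e (nat_lit 16463) (nat_lit 13) (.e (nat_lit 483345) (nat_lit 17) (.e (nat_lit 6722) (nat_lit 362) .nil))))) (.g (nat_lit 1) (.e (nat_lit 203963) (nat_lit 0) .nil) .nil))) 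
(.lf (nat_lit 513838) (.g (nat_lit 2181) (.e (nat_lit 180278) (nat_lit 32) (.e (nat_lit 1425) (nat_lit 108) (.e (nat_lit 336443) (nat_lit 32) (.e (nat_lit 466971) (nat_lit 21) (.e (nat_lit 164345) (nat_lit 240) (.e (nat_lit 2639) (nat_lit 165) .nil)))))) (.g (nat_lit 1) (.e (nat_lit 204973) (nat_lit 0) .nil) .nil))))) (.nd (nat_lit 8) (.nd (nat_lit 9) 
(.lf (nat_lit 513198) (.g (nat_lit 445) (.e (nat_lit 180263) (nat_lit 21) (.e (nat_lit 663574) (nat_lit 9) (.e (nat_lit 2733) (nat_lit 173) .nil))) (.g (nat_lit 0) (.e (nat_lit 203415) (nat_lit 0) .nil) .nil))) 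
(.lf (nat_lit 513710) (.g (nat_lit 1517) (.e (nat_lit 180277) (nat_lit 32) (.e (nat_lit 1660) (nat_lit 115) (.e (nat_lit 393281) (nat_lit 23) (.e (nat_lit 426098) (nat_lit 1) (.e (nat_lit 164345) (nat_lit 240) (.e (nat_lit 2640) (nat_lit 165) .nil)))))) (.g (nat_lit 1) (.e (nat_lit 204702) (nat_lit 0) .nil) .nil)))) (.nd (nat_lit 9) 
(.lf (nat_lit 513454) (.g (nat_lit 1134) (.e (nat_lit 188160) (nat_lit 29) (.e (nat_lit 729098) (nat_lit 11) (.e (nat_lit 426198) (nat_lit 9) (.e (nat_lit 426550) (nat_lit 31) (.e (nat_lit 376576) (nat_lit 5) .nil))))) (.g (nat_lit 0) (.e (nat_lit 204280) (nat_lit 0) .nil) .nil))) 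
(.lf (nat_lit 513966) (.g (nat_lit 1360) (.e (nat_lit 180278) (nat_lit 32) (.e (nat_lit 1660) (nat_lit 115) (.e (nat_lit 393271) (nat_lit 23) (.e (nat_lit 426375) (nat_lit 15) .nil)))) (.g (nat_lit 0) (.e (nat_lit 205168) (nat_lit 0) .nil) .nil)))))) (.nd (nat_lit 7) (.nd (nat_lit 8) (.nd (nat_lit 9) 
(.lf (nat_lit 513134) (.g (nat_lit 2753) (.e (nat_lit 180252) (nat_lit 10) (.e (nat_lit 573489) (nat_lit 14) (.e (nat_lit 73755) (nat_lit 8) (.e (nat_lit 557090) (nat_lit 12) (.e (nat_lit 163840) (nat_lit 0) (.e (nat_lit 5937) (nat_lit 322) (.e (nat_lit 57371) (nat_lit 2) (.e (nat_lit 90173) (nat_lit 14) .nil)))))))) (.g (nat_lit 1) (.e (nat_lit 203257) (nat_lit 0) .nil) .nil))) 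
(.lf (nat_lit 513646) (.g (nat_lit 2263) (.e (nat_lit 180277) (nat_lit 32) (.e (nat_lit 1659) (nat_lit 115) (.e (nat_lit 393271) (nat_lit 23) (.e (nat_lit 426112) (nat_lit 1) (.e (nat_lit 164348) (nat_lit 240) (.e (nat_lit 2640) (nat_lit 165) .nil)))))) (.g (nat_lit 1) (.e (nat_lit 204611) (nat_lit 0) .nil) .nil)))) (.nd (nat_lit 9) 
(.lf (nat_lit 513390) (.g (nat_lit 1189) (.e (nat_lit 180272) (nat_lit 26) (.e (nat_lit 704738) (nat_lit 11) (.e (nat_lit 16440) (nat_lit 9) (.e (nat_lit 426470) (nat_lit 25) .nil)))) (.g (nat_lit 0) (.e (nat_lit 204151) (nat_lit 0) .nil) .nil))) 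
(.lf (nat_lit 513902) (.g (nat_lit 1096) (.e (nat_lit 180278) (nat_lit 32) (.e (nat_lit 1658) (nat_lit 115) (.e (nat_lit 393270) (nat_lit 23) (.e (nat_lit 426444) (nat_lit 19) (.e (nat_lit 114432) (nat_lit 5) .nil))))) (.g (nat_lit 0) (.e (nat_lit 205080) (nat_lit 0) .nil) .nil))))) (.nd (nat_lit 8) (.nd (nat_lit 9) 
(.lf (nat_lit 513262) (.g (nat_lit 1879) (.e (nat_lit 180271) (nat_lit 26) (.e (nat_lit 704737) (nat_lit 11) (.e (nat_lit 16436) (nat_lit 9) (.e (nat_lit 426550) (nat_lit 31) (.e (nat_lit 376576) (nat_lit 5) .nil))))) (.g (nat_lit 0) (.e (nat_lit 203833) (nat_lit 0) .nil) .nil))) 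
(.lf (nat_lit 513774) (.g (nat_lit 2023) (.e (nat_lit 180278) (nat_lit 32) (.e (nat_lit 1235) (nat_lit 91) (.e (nat_lit 90170) (nat_lit 13) (.e (nat_lit 172113) (nat_lit 10) (.e (nat_lit 434208) (nat_lit 18) (.e (nat_lit 3955) (nat_lit 239) (.e (nat_lit 2637) (nat_lit 165) .nil))))))) (.g (nat_lit 1) (.e (nat_lit 204901) (nat_lit 0) .nil) .nil)))) (.nd (nat_lit 9) 
(.lf (nat_lit 513518) (.g (nat_lit 2428) (.e (nat_lit 180277) (nat_lit 32) (.e (nat_lit 1425) (nat_lit 108) (.e (nat_lit 336434) (nat_lit 30) (.e (nat_lit 450564) (nat_lit 0) (.e (nat_lit 5548) (nat_lit 306) (.e (nat_lit 2640) (nat_lit 165) .nil)))))) (.g (nat_lit 1) (.e (nat_lit 204412) (nat_lit 0) .nil) .nil))) 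
(.lf (nat_lit 514030) (.g (nat_lit 1804) (.e (nat_lit 180278) (nat_lit 32) (.e (nat_lit 1661) (nat_lit 115) (.e (nat_lit 393294) (nat_lit 26) (.e (nat_lit 475196) (nat_lit 40) (.e (nat_lit 704595) (nat_lit 5) .nil))))) (.g (nat_lit 0) (.e (nat_lit 205343) (nat_lit 0) .nil) .nil)))))))) (.nd (nat_lit 5) (.nd (nat_lit 6) (.nd (nat_lit 7) (.nd (nat_lit 8) (.nd (nat_lit 9) 
(.lf (nat_lit 513054) (.g (nat_lit 2584) (.e (nat_lit 180252) (nat_lit 10) (.e (nat_lit 573471) (nat_lit 11) (.e (nat_lit 16445) (nat_lit 9) (.e (nat_lit 426124) (nat_lit 2) (.e (nat_lit 196677) (nat_lit 16) (.e (nat_lit 130816) (nat_lit 206) .nil)))))) (.g (nat_lit 1) (.e (nat_lit 202933) (nat_lit 0) .nil) .nil))) 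
(.lf (nat_lit 513566) (.g (nat_lit 3215) (.e (nat_lit 180277) (nat_lit 32) (.e (nat_lit 1427) (nat_lit 108) (.e (nat_lit 336430) (nat_lit 29) (.e (nat_lit 442428) (nat_lit 24) (.e (nat_lit 229665) (nat_lit 240) (.e (nat_lit 2643) (nat_lit 165) .nil)))))) (.g (nat_lit 1) (.e (nat_lit 204502) (nat_lit 0) .nil) .nil)))) (.nd (nat_lit 9) 
(.lf (nat_lit 513310) (.g (nat_lit 307) (.e (nat_lit 180271) (nat_lit 26) (.e (nat_lit 704738) (nat_lit 11) (.e (nat_lit 16436) (nat_lit 9) .nil))) (.g (nat_lit 0) (.e (nat_lit 203926) (nat_lit 0) .nil) .nil))) 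
(.lf (nat_lit 513822) (.g (nat_lit 800) (.e (nat_lit 180278) (nat_lit 32) (.e (nat_lit 1425) (nat_lit 108) (.e (nat_lit 336430) (nat_lit 29) (.e (nat_lit 442378) (nat_lit 0) .nil)))) (.g (nat_lit 0) (.e (nat_lit 204954) (nat_lit 0) .nil) .nil))))) (.nd (nat_lit 8) (.nd (nat_lit 9) 
(.lf (nat_lit 513182) (.g (nat_lit 1537) (.e (nat_lit 180252) (nat_lit 10) (.e (nat_lit 573503) (nat_lit 18) (.e (nat_lit 1349) (nat_lit 102) (.e (nat_lit 286748) (nat_lit 9) (.e (nat_lit 343808) (nat_lit 33) .nil))))) (.g (nat_lit 0) (.e (nat_lit 203388) (nat_lit 0) .nil) .nil))) 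
(.lf (nat_lit 513694) (.g (nat_lit 2855) (.e (nat_lit 180277) (nat_lit 32) (.e (nat_lit 1660) (nat_lit 115) (.e (nat_lit 393271) (nat_lit 23) (.e (nat_lit 426112) (nat_lit 1) (.e (nat_lit 164347) (nat_lit 240) (.e (nat_lit 2638) (nat_lit 165) .nil)))))) (.g (nat_lit 1) (.e (nat_lit 204682) (nat_lit 0) .nil) .nil)))) (.nd (nat_lit 9) 
(.lf (nat_lit 513438) (.g (nat_lit 1352) (.e (nat_lit 188160) (nat_lit 28) (.e (nat_lit 720909) (nat_lit 11) (.e (nat_lit 426187) (nat_lit 9) (.e (nat_lit 426550) (nat_lit 31) (.e (nat_lit 376576) (nat_lit 5) .nil))))) (.g (nat_lit 0) (.e (nat_lit 204243) (nat_lit 0) .nil) .nil))) 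
(.lf (nat_lit 513950) (.g (nat_lit 416) (.e (nat_lit 180278) (nat_lit 32) (.e (nat_lit 1659) (nat_lit 115) (.e (nat_lit 393283) (nat_lit 24) .nil))) (.g (nat_lit 0) (.e (nat_lit 205138) (nat_lit 0) .nil) .nil)))))) (.nd (nat_lit 7) (.nd (nat_lit 8) (.nd (nat_lit 9) 
(.lf (nat_lit 513118) (.g (nat_lit 3457) (.e (nat_lit 180252) (nat_lit 10) (.e (nat_lit 573489) (nat_lit 14) (.e (nat_lit 73755) (nat_lit 8) (.e (nat_lit 557067) (nat_lit 9) (.e (nat_lit 2598) (nat_lit 163) (.e (nat_lit 164399) (nat_lit 256) (.e (nat_lit 57373) (nat_lit 2) (.e (nat_lit 90173) (nat_lit 14) .nil)))))))) (.g (nat_lit 1) (.e (nat_lit 203232) (nat_lit 0) .nil) .nil))) 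
(.lf (nat_lit 513630) (.g (nat_lit 1760) (.e (nat_lit 180277) (nat_lit 32) (.e (nat_lit 1658) (nat_lit 115) (.e (nat_lit 393281) (nat_lit 23) (.e (nat_lit 426108) (nat_lit 1) (.e (nat_lit 164345) (nat_lit 240) (.e (nat_lit 2640) (nat_lit 165) .nil)))))) (.g (nat_lit 1) (.e (nat_lit 204591) (nat_lit 0) .nil) .nil)))) (.nd (nat_lit 9) 
(.lf (nat_lit 513374) (.g (nat_lit 3361) (.e (nat_lit 180272) (nat_lit 26) (.e (nat_lit 704738) (nat_lit 11) (.e (nat_lit 16416) (nat_lit 3) (.e (nat_lit 204837) (nat_lit 20) .nil)))) (.g (nat_lit 0) (.e (nat_lit 204130) (nat_lit 0) .nil) .nil))) 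
(.lf (nat_lit 513886) (.g (nat_lit 2494) (.e (nat_lit 180278) (nat_lit 32) (.e (nat_lit 1428) (nat_lit 108) (.e (nat_lit 336430) (nat_lit 29) (.e (nat_lit 442421) (nat_lit 21) (.e (nat_lit 164347) (nat_lit 240) (.e (nat_lit 2640) (nat_lit 165) .nil)))))) (.g (nat_lit 1) (.e (nat_lit 205056) (nat_lit 0) .nil) .nil))))) (.nd (nat_lit 8) (.nd (nat_lit 9) 
(.lf (nat_lit 513246) (.g (nat_lit 1569) (.e (nat_lit 180271) (nat_lit 26) (.e (nat_lit 704737) (nat_lit 11) (.e (nat_lit 16431) (nat_lit 9) (.e (nat_lit 426470) (nat_lit 25) .nil)))) (.g (nat_lit 0) (.e (nat_lit 203809) (nat_lit 0) .nil) .nil))) 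
(.lf (nat_lit 513758) (.g (nat_lit 2925) (.e (nat_lit 180277) (nat_lit 32) (.e (nat_lit 1661) (nat_lit 115) (.e (nat_lit 393287) (nat_lit 25) (.e (nat_lit 458774) (nat_lit 18) (.e (nat_lit 5548) (nat_lit 306) (.e (nat_lit 2640) (nat_lit 165) .nil)))))) (.g (nat_lit 1) (.e (nat_lit 204885) (nat_lit 0) .nil) .nil)))) (.nd (nat_lit 9) 
(.lf (nat_lit 513502) (.g (nat_lit 4414) (.e (nat_lit 180277) (nat_lit 32) (.e (nat_lit 1253) (nat_lit 92) (.e (nat_lit 98373) (nat_lit 29) (.e (nat_lit 450563) (nat_lit 0) (.e (nat_lit 3919) (nat_lit 239) (.e (nat_lit 2634) (nat_lit 165) .nil)))))) (.g (nat_lit 1) (.e (nat_lit 204390) (nat_lit 0) .nil) .nil))) 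
(.lf (nat_lit 514014) (.g (nat_lit 3089) (.e (nat_lit 180278) (nat_lit 32) (.e (nat_lit 1661) (nat_lit 115) (.e (nat_lit 393284) (nat_lit 24) (.e (nat_lit 434212) (nat_lit 18) (.e (nat_lit 5548) (nat_lit 306) (.e (nat_lit 2638) (nat_lit 165) .nil)))))) (.g (nat_lit 1) (.e (nat_lit 205321) (nat_lit 0) .nil) .nil))))))) (.nd (nat_lit 6) (.nd (nat_lit 7) (.nd (nat_lit 8) (.nd (nat_lit 9) 
(.lf (nat_lit 513086) (.g (nat_lit 4273) (.e (nat_lit 180252) (nat_lit 10) (.e (nat_lit 573474) (nat_lit 12) (.e (nat_lit 57502) (nat_lit 38) (.e (nat_lit 638996) (nat_lit 7) (.e (nat_lit 163977) (nat_lit 30) (.e (nat_lit 573489) (nat_lit 14) (.e (nat_lit 73755) (nat_lit 8) (.e (nat_lit 557105) (nat_lit 14) .nil)))))))) (.g (nat_lit 1) (.e (nat_lit 202997) (nat_lit 0) .nil) .nil))) 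
(.lf (nat_lit 513598) (.g (nat_lit 3237) (.e (nat_lit 180277) (nat_lit 32) (.e (nat_lit 1428) (nat_lit 108) (.e (nat_lit 336430) (nat_lit 29) (.e (nat_lit 442421) (nat_lit 21) (.e (nat_lit 164348) (nat_lit 240) (.e (nat_lit 2640) (nat_lit 165) .nil)))))) (.g (nat_lit 1) (.e (nat_lit 204550) (nat_lit 0) .nil) .nil)))) (.nd (nat_lit 9) 
(.lf (nat_lit 513342) (.g (nat_lit 2168) (.e (nat_lit 180271) (nat_lit 26) (.e (nat_lit 704738) (nat_lit 11) (.e (nat_lit 16466) (nat_lit 13) (.e (nat_lit 483350) (nat_lit 17) (.e (nat_lit 7936) (nat_lit 362) .nil))))) (.g (nat_lit 0) (.e (nat_lit 203979) (nat_lit 0) .nil) .nil))) 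
(.lf (nat_lit 513854) (.g (nat_lit 1949) (.e (nat_lit 180278) (nat_lit 32) (.e (nat_lit 1426) (nat_lit 108) (.e (nat_lit 336434) (nat_lit 30) (.e (nat_lit 450564) (nat_lit 0) (.e (nat_lit 5546) (nat_lit 306) (.e (nat_lit 2639) (nat_lit 165) .nil)))))) (.g (nat_lit 1) (.e (nat_lit 204992) (nat_lit 0) .nil) .nil))))) (.nd (nat_lit 8) (.nd (nat_lit 9) 
(.lf (nat_lit 513214) (.g (nat_lit 674) (.e (nat_lit 180261) (nat_lit 20) (.e (nat_lit 655380) (nat_lit 6) (.e (nat_lit 188431) (nat_lit 20) (.e (nat_lit 3401) (nat_lit 211) .nil)))) (.g (nat_lit 0) (.e (nat_lit 203468) (nat_lit 0) .nil) .nil))) 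
(.lf (nat_lit 513726) (.g (nat_lit 3047) (.e (nat_lit 180277) (nat_lit 32) (.e (nat_lit 1660) (nat_lit 115) (.e (nat_lit 393283) (nat_lit 24) (.e (nat_lit 434209) (nat_lit 18) (.e (nat_lit 5546) (nat_lit 306) (.e (nat_lit 2638) (nat_lit 165) .nil)))))) (.g (nat_lit 1) (.e (nat_lit 204721) (nat_lit 0) .nil) .nil)))) (.nd (nat_lit 9) 
(.lf (nat_lit 513470) (.g (nat_lit 1892) (.e (nat_lit 180277) (nat_lit 32) (.e (nat_lit 1235) (nat_lit 91) (.e (nat_lit 90170) (nat_lit 13) (.e (nat_lit 172113) (nat_lit 10) (.e (nat_lit 434203) (nat_lit 18) (.e (nat_lit 3953) (nat_lit 239) (.e (nat_lit 2637) (nat_lit 165) .nil))))))) (.g (nat_lit 1) (.e (nat_lit 204354) (nat_lit 0) .nil) .nil))) 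
(.lf (nat_lit 513982) (.g (nat_lit 3408) (.e (nat_lit 180278) (nat_lit 32) (.e (nat_lit 1660) (nat_lit 115) (.e (nat_lit 393281) (nat_lit 23) (.e (nat_lit 426108) (nat_lit 1) (.e (nat_lit 164345) (nat_lit 240) (.e (nat_lit 2638) (nat_lit 165) .nil)))))) (.g (nat_lit 1) (.e (nat_lit 205189) (nat_lit 0) .nil) .nil)))))) (.nd (nat_lit 7) (.nd (nat_lit 8) (.nd (nat_lit 9) 
(.lf (nat_lit 513150) (.g (nat_lit 3045) (.e (nat_lit 180252) (nat_lit 10) (.e (nat_lit 573489) (nat_lit 14) (.e (nat_lit 73755) (nat_lit 8) (.e (nat_lit 557090) (nat_lit 12) (.e (nat_lit 163851) (nat_lit 0) (.e (nat_lit 5937) (nat_lit 322) (.e (nat_lit 57373) (nat_lit 2) (.e (nat_lit 90173) (nat_lit 14) .nil)))))))) (.g (nat_lit 1) (.e (nat_lit 203273) (nat_lit 0) .nil) .nil))) 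
(.lf (nat_lit 513662) (.g (nat_lit 3222) (.e (nat_lit 180277) (nat_lit 32) (.e (nat_lit 1659) (nat_lit 115) (.e (nat_lit 393281) (nat_lit 23) (.e (nat_lit 426098) (nat_lit 1) (.e (nat_lit 164348) (nat_lit 240) (.e (nat_lit 2638) (nat_lit 165) .nil)))))) (.g (nat_lit 1) (.e (nat_lit 204634) (nat_lit 0) .nil) .nil)))) (.nd (nat_lit 9) 
(.lf (nat_lit 513406) (.g (nat_lit 1432) (.e (nat_lit 188160) (nat_lit 26) (.e (nat_lit 704734) (nat_lit 11) (.e (nat_lit 16466) (nat_lit 13) (.e (nat_lit 483343) (nat_lit 17) (.e (nat_lit 6722) (nat_lit 362) .nil))))) (.g (nat_lit 0) (.e (nat_lit 204207) (nat_lit 0) .nil) .nil))) 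
(.lf (nat_lit 513918) (.g (nat_lit 1342) (.e (nat_lit 180278) (nat_lit 32) (.e (nat_lit 1658) (nat_lit 115) (.e (nat_lit 393291) (nat_lit 26) (.e (nat_lit 475197) (nat_lit 40) .nil)))) (.g (nat_lit 0) (.e (nat_lit 205099) (nat_lit 0) .nil) .nil))))) (.nd (nat_lit 8) (.nd (nat_lit 9) 
(.lf (nat_lit 513278) (.g (nat_lit 1174) (.e (nat_lit 180271) (nat_lit 26) (.e (nat_lit 704737) (nat_lit 11) (.e (nat_lit 16446) (nat_lit 9) (.e (nat_lit 433920) (nat_lit 28) .nil)))) (.g (nat_lit 0) (.e (nat_lit 203857) (nat_lit 0) .nil) .nil))) 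
(.lf (nat_lit 513790) (.g (nat_lit 2256) (.e (nat_lit 180278) (nat_lit 32) (.e (nat_lit 1253) (nat_lit 92) (.e (nat_lit 98367) (nat_lit 27) (.e (nat_lit 434186) (nat_lit 13) (.e (nat_lit 2571) (nat_lit 160) (.e (nat_lit 32808) (nat_lit 19) .nil)))))) (.g (nat_lit 1) (.e (nat_lit 204919) (nat_lit 0) .nil) .nil)))) (.nd (nat_lit 9) 
(.lf (nat_lit 513534) (.g (nat_lit 2530) (.e (nat_lit 180277) (nat_lit 32) (.e (nat_lit 1426) (nat_lit 108) (.e (nat_lit 336434) (nat_lit 30) (.e (nat_lit 450564) (nat_lit 0) (.e (nat_lit 5548) (nat_lit 306) (.e (nat_lit 2640) (nat_lit 165) .nil)))))) (.g (nat_lit 1) (.e (nat_lit 204434) (nat_lit 0) .nil) .nil))) 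
(.lf (nat_lit 514046) (.g (nat_lit 1593) (.e (nat_lit 188160) (nat_lit 32) (.e (nat_lit 1239) (nat_lit 91) (.e (nat_lit 90172) (nat_lit 14) (.e (nat_lit 180285) (nat_lit 45) .nil)))) (.g (nat_lit 0) (.e (nat_lit 205410) (nat_lit 0) .nil) .nil)))))))))))) 
(.nd (nat_lit 1) (.nd (nat_lit 2) (.nd (nat_lit 3) (.nd (nat_lit 4) (.nd (nat_lit 5) 
(.nd (nat_lit 6) (.nd (nat_lit 7) (.nd (nat_lit 8) (.nd (nat_lit 9) 
(.lf (nat_lit 513025) (.g (nat_lit 2230) (.e (nat_lit 180251) (nat_lit 10) (.e (nat_lit 573489) (nat_lit 14) (.e (nat_lit 73755) (nat_lit 8) (.e (nat_lit 557119) (nat_lit 18) (.e (nat_lit 2798) (nat_lit 180) .nil))))) (.g (nat_lit 0) (.e (nat_lit 202734) (nat_lit 0) .nil) .nil))) 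
(.lf (nat_lit 513537) (.g (nat_lit 2367) (.e (nat_lit 180277) (nat_lit 32) (.e (nat_lit 1426) (nat_lit 108) (.e (nat_lit 336443) (nat_lit 32) (.e (nat_lit 466969) (nat_lit 21) (.e (nat_lit 164347) (nat_lit 240) (.e (nat_lit 2640) (nat_lit 165) .nil)))))) (.g (nat_lit 1) (.e (nat_lit 204437) (nat_lit 0) .nil) .nil)))) (.nd (nat_lit 9) 
(.lf (nat_lit 513281) (.g (nat_lit 961) (.e (nat_lit 180271) (nat_lit 26) (.e (nat_lit 704737) (nat_lit 11) (.e (nat_lit 16457) (nat_lit 12) .nil))) (.g (nat_lit 0) (.e (nat_lit 203873) (nat_lit 0) .nil) .nil))) 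
(.lf (nat_lit 513793) (.g (nat_lit 1334) (.e (nat_lit 180278) (nat_lit 32) (.e (nat_lit 1253) (nat_lit 92) (.e (nat_lit 98370) (nat_lit 28) (.e (nat_lit 442412) (nat_lit 20) (.e (nat_lit 3272) (nat_lit 199) .nil))))) (.g (nat_lit 0) (.e (nat_lit 204922) (nat_lit 0) .nil) .nil))))) (.nd (nat_lit 8) (.nd (nat_lit 9) 
(.lf (nat_lit 513153) (.g (nat_lit 3017) (.e (nat_lit 180252) (nat_lit 10) (.e (nat_lit 573489) (nat_lit 14) (.e (nat_lit 73755) (nat_lit 8) (.e (nat_lit 557090) (nat_lit 12) (.e (nat_lit 163851) (nat_lit 0) (.e (nat_lit 5946) (nat_lit 322) (.e (nat_lit 57373) (nat_lit 2) (.e (nat_lit 90173) (nat_lit 14) .nil)))))))) (.g (nat_lit 1) (.e (nat_lit 203276) (nat_lit 0) .nil) .nil))) 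
(.lf (nat_lit 513665) (.g (nat_lit 1121) (.e (nat_lit 180277) (nat_lit 32) (.e (nat_lit 1659) (nat_lit 115) (.e (nat_lit 393281) (nat_lit 23) (.e (nat_lit 426106) (nat_lit 1) .nil)))) (.g (nat_lit 0) (.e (nat_lit 204637) (nat_lit 0) .nil) .nil)))) (.nd (nat_lit 9) 
(.lf (nat_lit 513409) (.g (nat_lit 1767) (.e (nat_lit 188160) (nat_lit 26) (.e (nat_lit 704739) (nat_lit 11) (.e (nat_lit 16466) (nat_lit 13) (.e (nat_lit 483346) (nat_lit 17) .nil)))) (.g (nat_lit 0) (.e (nat_lit 204210) (nat_lit 0) .nil) .nil))) 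
(.lf (nat_lit 513921) (.g (nat_lit 2810) (.e (nat_lit 180278) (nat_lit 32) (.e (nat_lit 1659) (nat_lit 115) (.e (nat_lit 393266) (nat_lit 23) (.e (nat_lit 426109) (nat_lit 1) (.e (nat_lit 164345) (nat_lit 240) (.e (nat_lit 2638) (nat_lit 165) .nil)))))) (.g (nat_lit 1) (.e (nat_lit 205103) (nat_lit 0) .nil) .nil)))))) (.nd (nat_lit 7) (.nd (nat_lit 8) (.nd (nat_lit 9) 
(.lf (nat_lit 513089) (.g (nat_lit 5480) (.e (nat_lit 180252) (nat_lit 10) (.e (nat_lit 573474) (nat_lit 12) (.e (nat_lit 57504) (nat_lit 38) (.e (nat_lit 638996) (nat_lit 7) (.e (nat_lit 163979) (nat_lit 30) (.e (nat_lit 573489) (nat_lit 14) (.e (nat_lit 73755) (nat_lit 8) (.e (nat_lit 557105) (nat_lit 14) .nil)))))))) (.g (nat_lit 1) (.e (nat_lit 203001) (nat_lit 0) .nil) .nil))) 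
(.lf (nat_lit 513601) (.g (nat_lit 2584) (.e (nat_lit 180277) (nat_lit 32) (.e (nat_lit 1428) (nat_lit 108) (.e (nat_lit 336430) (nat_lit 29) (.e (nat_lit 442429) (nat_lit 24) (.e (nat_lit 229663) (nat_lit 240) (.e (nat_lit 2643) (nat_lit 165) .nil)))))) (.g (nat_lit 1) (.e (nat_lit 204553) (nat_lit 0) .nil) .nil)))) (.nd (nat_lit 9) 
(.lf (nat_lit 513345) (.g (nat_lit 1773) (.e (nat_lit 180271) (nat_lit 26) (.e (nat_lit 704738) (nat_lit 11) (.e (nat_lit 16466) (nat_lit 13) (.e (nat_lit 483360) (nat_lit 17) .nil)))) (.g (nat_lit 0) (.e (nat_lit 203982) (nat_lit 0) .nil) .nil))) 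
(.lf (nat_lit 513857) (.g (nat_lit 2544) (.e (nat_lit 180278) (nat_lit 32) (.e (nat_lit 1426) (nat_lit 108) (.e (nat_lit 336443) (nat_lit 32) (.e (nat_lit 466969) (nat_lit 21) (.e (nat_lit 164345) (nat_lit 240) (.e (nat_lit 2639) (nat_lit 165) .nil)))))) (.g (nat_lit 1) (.e (nat_lit 204996) (nat_lit 0) .nil) .nil))))) (.nd (nat_lit 8) (.nd (nat_lit 9) 
(.lf (nat_lit 513217) (.g (nat_lit 3218) (.e (nat_lit 180268) (nat_lit 24) (.e (nat_lit 688138) (nat_lit 5) (.e (nat_lit 2887) (nat_lit 184) (.e (nat_lit 426211) (nat_lit 9) (.e (nat_lit 426528) (nat_lit 27) (.e (nat_lit 335894) (nat_lit 0) (.e (nat_lit 6724) (nat_lit 362) .nil))))))) (.g (nat_lit 1) (.e (nat_lit 203475) (nat_lit 0) .nil) .nil))) 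
(.lf (nat_lit 513729) (.g (nat_lit 2431) (.e (nat_lit 180277) (nat_lit 32) (.e (nat_lit 1660) (nat_lit 115) (.e (nat_lit 393283) (nat_lit 24) (.e (nat_lit 434209) (nat_lit 18) (.e (nat_lit 5547) (nat_lit 306) (.e (nat_lit 2640) (nat_lit 165) .nil)))))) (.g (nat_lit 1) (.e (nat_lit 204724) (nat_lit 0) .nil) .nil)))) (.nd (nat_lit 9) 
(.lf (nat_lit 513473) (.g (nat_lit 1605) (.e (nat_lit 180277) (nat_lit 32) (.e (nat_lit 1235) (nat_lit 91) (.e (nat_lit 90170) (nat_lit 13) (.e (nat_lit 172113) (nat_lit 10) (.e (nat_lit 434237) (nat_lit 25) .nil))))) (.g (nat_lit 0) (.e (nat_lit 204357) (nat_lit 0) .nil) .nil))) 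
(.lf (nat_lit 513985) (.g (nat_lit 2291) (.e (nat_lit 180278) (nat_lit 32) (.e (nat_lit 1660) (nat_lit 115) (.e (nat_lit 393282) (nat_lit 24) (.e (nat_lit 434209) (nat_lit 18) (.e (nat_lit 5548) (nat_lit 306) (.e (nat_lit 2639) (nat_lit 165) .nil)))))) (.g (nat_lit 1) (.e (nat_lit 205193) (nat_lit 0) .nil) .nil))))))) (.nd (nat_lit 6) (.nd (nat_lit 7) (.nd (nat_lit 8) (.nd (nat_lit 9) 
(.lf (nat_lit 513057) (.g (nat_lit 2535) (.e (nat_lit 180252) (nat_lit 10) (.e (nat_lit 573471) (nat_lit 11) (.e (nat_lit 16446) (nat_lit 9) (.e (nat_lit 426116) (nat_lit 2) (.e (nat_lit 196677) (nat_lit 16) (.e (nat_lit 130816) (nat_lit 206) .nil)))))) (.g (nat_lit 1) (.e (nat_lit 202937) (nat_lit 0) .nil) .nil))) 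
(.lf (nat_lit 513569) (.g (nat_lit 2733) (.e (nat_lit 180277) (nat_lit 32) (.e (nat_lit 1427) (nat_lit 108) (.e (nat_lit 336430) (nat_lit 29) (.e (nat_lit 442430) (nat_lit 24) (.e (nat_lit 229664) (nat_lit 240) (.e (nat_lit 2641) (nat_lit 165) .nil)))))) (.g (nat_lit 1) (.e (nat_lit 204506) (nat_lit 0) .nil) .nil)))) (.nd (nat_lit 9) 
(.lf (nat_lit 513313) (.g (nat_lit 1698) (.e (nat_lit 180271) (nat_lit 26) (.e (nat_lit 704738) (nat_lit 11) (.e (nat_lit 16439) (nat_lit 9) (.e (nat_lit 426499) (nat_lit 27) (.e (nat_lit 335893) (nat_lit 0) .nil))))) (.g (nat_lit 0) (.e (nat_lit 203931) (nat_lit 0) .nil) .nil))) 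
(.lf (nat_lit 513825) (.g (nat_lit 2975) (.e (nat_lit 180278) (nat_lit 32) (.e (nat_lit 1425) (nat_lit 108) (.e (nat_lit 336430) (nat_lit 29) (.e (nat_lit 442419) (nat_lit 21) (.e (nat_lit 164348) (nat_lit 240) (.e (nat_lit 2640) (nat_lit 165) .nil)))))) (.g (nat_lit 1) (.e (nat_lit 204957) (nat_lit 0) .nil) .nil))))) (.nd (nat_lit 8) (.nd (nat_lit 9) 
(.lf (nat_lit 513185) (.g (nat_lit 1699) (.e (nat_lit 188160) (nat_lit 8) (.e (nat_lit 557105) (nat_lit 14) (.e (nat_lit 180251) (nat_lit 10) (.e (nat_lit 573485) (nat_lit 13) (.e (nat_lit 73472) (nat_lit 22) .nil))))) (.g (nat_lit 0) (.e (nat_lit 203393) (nat_lit 0) .nil) .nil))) 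
(.lf (nat_lit 513697) (.g (nat_lit 2955) (.e (nat_lit 180277) (nat_lit 32) (.e (nat_lit 1660) (nat_lit 115) (.e (nat_lit 393271) (nat_lit 23) (.e (nat_lit 426112) (nat_lit 1) (.e (nat_lit 164348) (nat_lit 240) (.e (nat_lit 2640) (nat_lit 165) .nil)))))) (.g (nat_lit 1) (.e (nat_lit 204685) (nat_lit 0) .nil) .nil)))) (.nd (nat_lit 9) 
(.lf (nat_lit 513441) (.g (nat_lit 1191) (.e (nat_lit 188160) (nat_lit 28) (.e (nat_lit 720909) (nat_lit 11) (.e (nat_lit 426190) (nat_lit 9) (.e (nat_lit 426533) (nat_lit 28) (.e (nat_lit 352000) (nat_lit 5) .nil))))) (.g (nat_lit 0) (.e (nat_lit 204246) (nat_lit 0) .nil) .nil))) 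
(.lf (nat_lit 513953) (.g (nat_lit 2676) (.e (nat_lit 180278) (nat_lit 32) (.e (nat_lit 1659) (nat_lit 115) (.e (nat_lit 393283) (nat_lit 24) (.e (nat_lit 434209) (nat_lit 18) (.e (nat_lit 5546) (nat_lit 306) (.e (nat_lit 2640) (nat_lit 165) .nil)))))) (.g (nat_lit 1) (.e (nat_lit 205142) (nat_lit 0) .nil) .nil)))))) (.nd (nat_lit 7) (.nd (nat_lit 8) (.nd (nat_lit 9) 
(.lf (nat_lit 513121) (.g (nat_lit 2928) (.e (nat_lit 180252) (nat_lit 10) (.e (nat_lit 573489) (nat_lit 14) (.e (nat_lit 73755) (nat_lit 8) (.e (nat_lit 557067) (nat_lit 9) (.e (nat_lit 2602) (nat_lit 163) (.e (nat_lit 164403) (nat_lit 256) (.e (nat_lit 57371) (nat_lit 2) (.e (nat_lit 90173) (nat_lit 14) .nil)))))))) (.g (nat_lit 1) (.e (nat_lit 203235) (nat_lit 0) .nil) .nil))) 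
(.lf (nat_lit 513633) (.g (nat_lit 2135) (.e (nat_lit 180277) (nat_lit 32) (.e (nat_lit 1658) (nat_lit 115) (.e (nat_lit 393283) (nat_lit 24) (.e (nat_lit 434209) (nat_lit 18) (.e (nat_lit 5546) (nat_lit 306) (.e (nat_lit 2640) (nat_lit 165) .nil)))))) (.g (nat_lit 1) (.e (nat_lit 204594) (nat_lit 0) .nil) .nil)))) (.nd (nat_lit 9) 
(.lf (nat_lit 513377) (.g (nat_lit 1131) (.e (nat_lit 180272) (nat_lit 26) (.e (nat_lit 704738) (nat_lit 11) (.e (nat_lit 16431) (nat_lit 9) (.e (nat_lit 426550) (nat_lit 31) .nil)))) (.g (nat_lit 0) (.e (nat_lit 204134) (nat_lit 0) .nil) .nil))) 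
(.lf (nat_lit 513889) (.g (nat_lit 1078) (.e (nat_lit 180278) (nat_lit 32) (.e (nat_lit 1428) (nat_lit 108) (.e (nat_lit 336430) (nat_lit 29) (.e (nat_lit 442429) (nat_lit 24) .nil)))) (.g (nat_lit 0) (.e (nat_lit 205059) (nat_lit 0) .nil) .nil))))) (.nd (nat_lit 8) (.nd (nat_lit 9) 
(.lf (nat_lit 513249) (.g (nat_lit 964) (.e (nat_lit 180271) (nat_lit 26) (.e (nat_lit 704737) (nat_lit 11) (.e (nat_lit 16432) (nat_lit 9) .nil))) (.g (nat_lit 0) (.e (nat_lit 203819) (nat_lit 0) .nil) .nil))) 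
(.lf (nat_lit 513761) (.g (nat_lit 1416) (.e (nat_lit 180278) (nat_lit 32) (.e (nat_lit 1234) (nat_lit 91) (.e (nat_lit 90170) (nat_lit 13) (.e (nat_lit 172082) (nat_lit 7) (.e (nat_lit 409612) (nat_lit 10) .nil))))) (.g (nat_lit 0) (.e (nat_lit 204888) (nat_lit 0) .nil) .nil)))) (.nd (nat_lit 9) 
(.lf (nat_lit 513505) (.g (nat_lit 4762) (.e (nat_lit 180277) (nat_lit 32) (.e (nat_lit 1253) (nat_lit 92) (.e (nat_lit 98373) (nat_lit 29) (.e (nat_lit 450563) (nat_lit 0) (.e (nat_lit 3948) (nat_lit 239) (.e (nat_lit 2637) (nat_lit 165) .nil)))))) (.g (nat_lit 1) (.e (nat_lit 204393) (nat_lit 0) .nil) .nil))) 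
(.lf (nat_lit 514017) (.g (nat_lit 2326) (.e (nat_lit 180278) (nat_lit 32) (.e (nat_lit 1661) (nat_lit 115) (.e (nat_lit 393286) (nat_lit 25) (.e (nat_lit 458774) (nat_lit 18) (.e (nat_lit 5547) (nat_lit 306) (.e (nat_lit 2640) (nat_lit 165) .nil)))))) (.g (nat_lit 1) (.e (nat_lit 205326) (nat_lit 0) .nil) .nil)))))))) 
(.nd (nat_lit 5) (.nd (nat_lit 6) (.nd (nat_lit 7) (.nd (nat_lit 8) (.nd (nat_lit 9) 
(.lf (nat_lit 513041) (.g (nat_lit 2971) (.e (nat_lit 180252) (nat_lit 10) (.e (nat_lit 573469) (nat_lit 11) (.e (nat_lit 16448) (nat_lit 10) (.e (nat_lit 434231) (nat_lit 23) (.e (nat_lit 532482) (nat_lit 0) .nil))))) (.g (nat_lit 0) (.e (nat_lit 202882) (nat_lit 0) .nil) .nil))) 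
(.lf (nat_lit 513553) (.g (nat_lit 1716) (.e (nat_lit 180277) (nat_lit 32) (.e (nat_lit 1427) (nat_lit 108) (.e (nat_lit 336430) (nat_lit 29) (.e (nat_lit 442403) (nat_lit 20) .nil)))) (.g (nat_lit 0) (.e (nat_lit 204488) (nat_lit 0) .nil) .nil)))) (.nd (nat_lit 9) 
(.lf (nat_lit 513297) (.g (nat_lit 964) (.e (nat_lit 180271) (nat_lit 26) (.e (nat_lit 704737) (nat_lit 11) (.e (nat_lit 16472) (nat_lit 14) .nil))) (.g (nat_lit 0) (.e (nat_lit 203902) (nat_lit 0) .nil) .nil))) 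
(.lf (nat_lit 513809) (.g (nat_lit 1170) (.e (nat_lit 180278) (nat_lit 32) (.e (nat_lit 1253) (nat_lit 92) (.e (nat_lit 98373) (nat_lit 29) (.e (nat_lit 450562) (nat_lit 0) .nil)))) (.g (nat_lit 0) (.e (nat_lit 204938) (nat_lit 0) .nil) .nil))))) (.nd (nat_lit 8) (.nd (nat_lit 9) 
(.lf (nat_lit 513169) (.g (nat_lit 2112) (.e (nat_lit 180252) (nat_lit 10) (.e (nat_lit 573489) (nat_lit 14) (.e (nat_lit 73755) (nat_lit 8) (.e (nat_lit 557119) (nat_lit 18) (.e (nat_lit 2797) (nat_lit 180) .nil))))) (.g (nat_lit 0) (.e (nat_lit 203350) (nat_lit 0) .nil) .nil))) 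
(.lf (nat_lit 513681) (.g (nat_lit 2040) (.e (nat_lit 180277) (nat_lit 32) (.e (nat_lit 1659) (nat_lit 115) (.e (nat_lit 393291) (nat_lit 26) (.e (nat_lit 475198) (nat_lit 40) (.e (nat_lit 704595) (nat_lit 5) .nil))))) (.g (nat_lit 0) (.e (nat_lit 204658) (nat_lit 0) .nil) .nil)))) (.nd (nat_lit 9) 
(.lf (nat_lit 513425) (.g (nat_lit 474) (.e (nat_lit 188160) (nat_lit 28) (.e (nat_lit 720907) (nat_lit 11) (.e (nat_lit 426234) (nat_lit 9) (.e (nat_lit 426549) (nat_lit 31) (.e (nat_lit 376576) (nat_lit 5) .nil))))) (.g (nat_lit 0) (.e (nat_lit 204226) (nat_lit 0) .nil) .nil))) 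
(.lf (nat_lit 513937) (.g (nat_lit 3036) (.e (nat_lit 180278) (nat_lit 32) (.e (nat_lit 1659) (nat_lit 115) (.e (nat_lit 393281) (nat_lit 23) (.e (nat_lit 426098) (nat_lit 1) (.e (nat_lit 164346) (nat_lit 240) (.e (nat_lit 2638) (nat_lit 165) .nil)))))) (.g (nat_lit 1) (.e (nat_lit 205124) (nat_lit 0) .nil) .nil)))))) (.nd (nat_lit 7) (.nd (nat_lit 8) (.nd (nat_lit 9) 
(.lf (nat_lit 513105) (.g (nat_lit 2709) (.e (nat_lit 180252) (nat_lit 10) (.e (nat_lit 573488) (nat_lit 14) (.e (nat_lit 73747) (nat_lit 3) (.e (nat_lit 516120) (nat_lit 1) (.e (nat_lit 171776) (nat_lit 160) .nil))))) (.g (nat_lit 0) (.e (nat_lit 203194) (nat_lit 0) .nil) .nil))) 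
(.lf (nat_lit 513617) (.g (nat_lit 2787) (.e (nat_lit 180277) (nat_lit 32) (.e (nat_lit 1428) (nat_lit 108) (.e (nat_lit 336443) (nat_lit 32) (.e (nat_lit 466971) (nat_lit 21) (.e (nat_lit 164348) (nat_lit 240) (.e (nat_lit 2640) (nat_lit 165) .nil)))))) (.g (nat_lit 1) (.e (nat_lit 204574) (nat_lit 0) .nil) .nil)))) (.nd (nat_lit 9) 
(.lf (nat_lit 513361) (.g (nat_lit 1856) (.e (nat_lit 180272) (nat_lit 26) (.e (nat_lit 704737) (nat_lit 11) (.e (nat_lit 16433) (nat_lit 9) (.e (nat_lit 426551) (nat_lit 31) .nil)))) (.g (nat_lit 0) (.e (nat_lit 204081) (nat_lit 0) .nil) .nil))) 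
(.lf (nat_lit 513873) (.g (nat_lit 3723) (.e (nat_lit 180278) (nat_lit 32) (.e (nat_lit 1427) (nat_lit 108) (.e (nat_lit 336430) (nat_lit 29) (.e (nat_lit 442421) (nat_lit 21) (.e (nat_lit 164348) (nat_lit 240) (.e (nat_lit 2640) (nat_lit 165) .nil)))))) (.g (nat_lit 1) (.e (nat_lit 205032) (nat_lit 0) .nil) .nil))))) (.nd (nat_lit 8) (.nd (nat_lit 9) 
(.lf (nat_lit 513233) (.g (nat_lit 378) (.e (nat_lit 180271) (nat_lit 26) (.e (nat_lit 704629) (nat_lit 9) (.e (nat_lit 411) (nat_lit 32) .nil))) (.g (nat_lit 0) (.e (nat_lit 203699) (nat_lit 0) .nil) .nil))) 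
(.lf (nat_lit 513745) (.g (nat_lit 1691) (.e (nat_lit 180277) (nat_lit 32) (.e (nat_lit 1661) (nat_lit 115) (.e (nat_lit 393268) (nat_lit 23) (.e (nat_lit 426366) (nat_lit 15) .nil)))) (.g (nat_lit 0) (.e (nat_lit 204818) (nat_lit 0) .nil) .nil)))) (.nd (nat_lit 9) 
(.lf (nat_lit 513489) (.g (nat_lit 2870) (.e (nat_lit 180277) (nat_lit 32) (.e (nat_lit 1253) (nat_lit 92) (.e (nat_lit 98373) (nat_lit 29) (.e (nat_lit 450560) (nat_lit 0) (.e (nat_lit 3914) (nat_lit 239) .nil))))) (.g (nat_lit 0) (.e (nat_lit 204377) (nat_lit 0) .nil) .nil))) 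
(.lf (nat_lit 514001) (.g (nat_lit 602) (.e (nat_lit 180278) (nat_lit 32) (.e (nat_lit 1661) (nat_lit 115) (.e (nat_lit 393276) (nat_lit 23) .nil))) (.g (nat_lit 0) (.e (nat_lit 205291) (nat_lit 0) .nil) .nil))))))) (.nd (nat_lit 6) (.nd (nat_lit 7) (.nd (nat_lit 8) (.nd (nat_lit 9) 
(.lf (nat_lit 513073) (.g (nat_lit 2585) (.e (nat_lit 180252) (nat_lit 10) (.e (nat_lit 573471) (nat_lit 11) (.e (nat_lit 16449) (nat_lit 10) (.e (nat_lit 434231) (nat_lit 23) (.e (nat_lit 532482) (nat_lit 0) .nil))))) (.g (nat_lit 0) (.e (nat_lit 202966) (nat_lit 0) .nil) .nil))) 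
(.lf (nat_lit 513585) (.g (nat_lit 465) (.e (nat_lit 180277) (nat_lit 32) (.e (nat_lit 1428) (nat_lit 108) (.e (nat_lit 336426) (nat_lit 29) .nil))) (.g (nat_lit 0) (.e (nat_lit 204534) (nat_lit 0) .nil) .nil)))) (.nd (nat_lit 9) 
(.lf (nat_lit 513329) (.g (nat_lit 1445) (.e (nat_lit 180271) (nat_lit 26) (.e (nat_lit 704738) (nat_lit 11) (.e (nat_lit 16463) (nat_lit 13) (.e (nat_lit 483352) (nat_lit 17) .nil)))) (.g (nat_lit 0) (.e (nat_lit 203966) (nat_lit 0) .nil) .nil))) 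
(.lf (nat_lit 513841) (.g (nat_lit 3101) (.e (nat_lit 180278) (nat_lit 32) (.e (nat_lit 1425) (nat_lit 108) (.e (nat_lit 336443) (nat_lit 32) (.e (nat_lit 466971) (nat_lit 21) (.e (nat_lit 164348) (nat_lit 240) (.e (nat_lit 2638) (nat_lit 165) .nil)))))) (.g (nat_lit 1) (.e (nat_lit 204976) (nat_lit 0) .nil) .nil))))) (.nd (nat_lit 8) (.nd (nat_lit 9) 
(.lf (nat_lit 513201) (.g (nat_lit 1748) (.e (nat_lit 180263) (nat_lit 21) (.e (nat_lit 663583) (nat_lit 11) (.e (nat_lit 24617) (nat_lit 7) (.e (nat_lit 319533) (nat_lit 16) (.e (nat_lit 286720) (nat_lit 0) .nil))))) (.g (nat_lit 0) (.e (nat_lit 203420) (nat_lit 0) .nil) .nil))) 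
(.lf (nat_lit 513713) (.g (nat_lit 3117) (.e (nat_lit 180277) (nat_lit 32) (.e (nat_lit 1660) (nat_lit 115) (.e (nat_lit 393281) (nat_lit 23) (.e (nat_lit 426098) (nat_lit 1) (.e (nat_lit 164348) (nat_lit 240) (.e (nat_lit 2638) (nat_lit 165) .nil)))))) (.g (nat_lit 1) (.e (nat_lit 204705) (nat_lit 0) .nil) .nil)))) (.nd (nat_lit 9) 
(.lf (nat_lit 513457) (.g (nat_lit 2120) (.e (nat_lit 180275) (nat_lit 32) (.e (nat_lit 1517) (nat_lit 108) (.e (nat_lit 336429) (nat_lit 29) (.e (nat_lit 442419) (nat_lit 21) (.e (nat_lit 164348) (nat_lit 240) (.e (nat_lit 2640) (nat_lit 165) .nil)))))) (.g (nat_lit 1) (.e (nat_lit 204324) (nat_lit 0) .nil) .nil))) 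
(.lf (nat_lit 513969) (.g (nat_lit 1764) (.e (nat_lit 180278) (nat_lit 32) (.e (nat_lit 1660) (nat_lit 115) (.e (nat_lit 393275) (nat_lit 23) (.e (nat_lit 426109) (nat_lit 1) (.e (nat_lit 164346) (nat_lit 240) (.e (nat_lit 2639) (nat_lit 165) .nil)))))) (.g (nat_lit 1) (.e (nat_lit 205174) (nat_lit 0) .nil) .nil)))))) (.nd (nat_lit 7) (.nd (nat_lit 8) (.nd (nat_lit 9) 
(.lf (nat_lit 513137) (.g (nat_lit 2865) (.e (nat_lit 180252) (nat_lit 10) (.e (nat_lit 573489) (nat_lit 14) (.e (nat_lit 73755) (nat_lit 8) (.e (nat_lit 557090) (nat_lit 12) (.e (nat_lit 163841) (nat_lit 0) (.e (nat_lit 5941) (nat_lit 322) (.e (nat_lit 57372) (nat_lit 2) (.e (nat_lit 90173) (nat_lit 14) .nil)))))))) (.g (nat_lit 1) (.e (nat_lit 203260) (nat_lit 0) .nil) .nil))) 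
(.lf (nat_lit 513649) (.g (nat_lit 2236) (.e (nat_lit 180277) (nat_lit 32) (.e (nat_lit 1659) (nat_lit 115) (.e (nat_lit 393271) (nat_lit 23) (.e (nat_lit 426442) (nat_lit 19) (.e (nat_lit 114432) (nat_lit 5) .nil))))) (.g (nat_lit 0) (.e (nat_lit 204617) (nat_lit 0) .nil) .nil)))) (.nd (nat_lit 9) 
(.lf (nat_lit 513393) (.g (nat_lit 390) (.e (nat_lit 180272) (nat_lit 26) (.e (nat_lit 704738) (nat_lit 11) (.e (nat_lit 16446) (nat_lit 9) .nil))) (.g (nat_lit 0) (.e (nat_lit 204158) (nat_lit 0) .nil) .nil))) 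
(.lf (nat_lit 513905) (.g (nat_lit 1540) (.e (nat_lit 180278) (nat_lit 32) (.e (nat_lit 1658) (nat_lit 115) (.e (nat_lit 393281) (nat_lit 23) (.e (nat_lit 426098) (nat_lit 1) (.e (nat_lit 164346) (nat_lit 240) (.e (nat_lit 2639) (nat_lit 165) .nil)))))) (.g (nat_lit 1) (.e (nat_lit 205084) (nat_lit 0) .nil) .nil))))) (.nd (nat_lit 8) (.nd (nat_lit 9) 
(.lf (nat_lit 513265) (.g (nat_lit 987) (.e (nat_lit 180271) (nat_lit 26) (.e (nat_lit 704737) (nat_lit 11) (.e (nat_lit 16439) (nat_lit 9) (.e (nat_lit 426501) (nat_lit 27) .nil)))) (.g (nat_lit 0) (.e (nat_lit 203839) (nat_lit 0) .nil) .nil))) 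
(.lf (nat_lit 513777) (.g (nat_lit 2054) (.e (nat_lit 180278) (nat_lit 32) (.e (nat_lit 1235) (nat_lit 91) (.e (nat_lit 90174) (nat_lit 14) (.e (nat_lit 180287) (nat_lit 45) (.e (nat_lit 2571) (nat_lit 160) (.e (nat_lit 32808) (nat_lit 19) .nil)))))) (.g (nat_lit 1) (.e (nat_lit 204904) (nat_lit 0) .nil) .nil)))) (.nd (nat_lit 9) 
(.lf (nat_lit 513521) (.g (nat_lit 2141) (.e (nat_lit 180277) (nat_lit 32) (.e (nat_lit 1425) (nat_lit 108) (.e (nat_lit 336443) (nat_lit 32) (.e (nat_lit 466971) (nat_lit 21) (.e (nat_lit 164347) (nat_lit 240) (.e (nat_lit 2640) (nat_lit 165) .nil)))))) (.g (nat_lit 1) (.e (nat_lit 204416) (nat_lit 0) .nil) .nil))) 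
(.lf (nat_lit 514033) (.g (nat_lit 1431) (.e (nat_lit 188160) (nat_lit 32) (.e (nat_lit 496) (nat_lit 39) (.e (nat_lit 483372) (nat_lit 21) (.e (nat_lit 319503) (nat_lit 10) .nil)))) (.g (nat_lit 0) (.e (nat_lit 205389) (nat_lit 0) .nil) .nil))))))))) (.nd (nat_lit 4) (.nd (nat_lit 5) (.nd (nat_lit 6) (.nd (nat_lit 7) (.nd (nat_lit 8) (.nd (nat_lit 9) 
(.lf (nat_lit 513033) (.g (nat_lit 3020) (.e (nat_lit 180252) (nat_lit 10) (.e (nat_lit 573449) (nat_lit 9) (.e (nat_lit 1669) (nat_lit 116) (.e (nat_lit 401459) (nat_lit 13) (.e (nat_lit 483363) (nat_lit 18) (.e (nat_lit 57667) (nat_lit 152) (.e (nat_lit 2640) (nat_lit 165) .nil))))))) (.g (nat_lit 1) (.e (nat_lit 202794) (nat_lit 0) .nil) .nil))) 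
(.lf (nat_lit 513545) (.g (nat_lit 662) (.e (nat_lit 180277) (nat_lit 32) (.e (nat_lit 1427) (nat_lit 108) (.e (nat_lit 336395) (nat_lit 27) (.e (nat_lit 426317) (nat_lit 12) .nil)))) (.g (nat_lit 0) (.e (nat_lit 204457) (nat_lit 0) .nil) .nil)))) (.nd (nat_lit 9) 
(.lf (nat_lit 513289) (.g (nat_lit 2040) (.e (nat_lit 180271) (nat_lit 26) (.e (nat_lit 704737) (nat_lit 11) (.e (nat_lit 16466) (nat_lit 13) (.e (nat_lit 483344) (nat_lit 17) (.e (nat_lit 6722) (nat_lit 362) .nil))))) (.g (nat_lit 0) (.e (nat_lit 203886) (nat_lit 0) .nil) .nil))) 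
(.lf (nat_lit 513801) (.g (nat_lit 2874) (.e (nat_lit 180278) (nat_lit 32) (.e (nat_lit 1253) (nat_lit 92) (.e (nat_lit 98373) (nat_lit 29) (.e (nat_lit 450560) (nat_lit 0) (.e (nat_lit 3929) (nat_lit 239) .nil))))) (.g (nat_lit 0) (.e (nat_lit 204930) (nat_lit 0) .nil) .nil))))) (.nd (nat_lit 8) (.nd (nat_lit 9) 
(.lf (nat_lit 513161) (.g (nat_lit 2849) (.e (nat_lit 180252) (nat_lit 10) (.e (nat_lit 573489) (nat_lit 14) (.e (nat_lit 73755) (nat_lit 8) (.e (nat_lit 557090) (nat_lit 12) (.e (nat_lit 163856) (nat_lit 0) (.e (nat_lit 5947) (nat_lit 322) (.e (nat_lit 57371) (nat_lit 2) (.e (nat_lit 90173) (nat_lit 14) .nil)))))))) (.g (nat_lit 1) (.e (nat_lit 203284) (nat_lit 0) .nil) .nil))) 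
(.lf (nat_lit 513673) (.g (nat_lit 3592) (.e (nat_lit 180277) (nat_lit 32) (.e (nat_lit 1659) (nat_lit 115) (.e (nat_lit 393282) (nat_lit 24) (.e (nat_lit 434209) (nat_lit 18) (.e (nat_lit 5548) (nat_lit 306) (.e (nat_lit 2638) (nat_lit 165) .nil)))))) (.g (nat_lit 1) (.e (nat_lit 204645) (nat_lit 0) .nil) .nil)))) (.nd (nat_lit 9) 
(.lf (nat_lit 513417) (.g (nat_lit 1728) (.e (nat_lit 188160) (nat_lit 27) (.e (nat_lit 712753) (nat_lit 30) (.e (nat_lit 450579) (nat_lit 5) (.e (nat_lit 532503) (nat_lit 1) (.e (nat_lit 57654) (nat_lit 152) .nil))))) (.g (nat_lit 0) (.e (nat_lit 204218) (nat_lit 0) .nil) .nil))) 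
(.lf (nat_lit 513929) (.g (nat_lit 2295) (.e (nat_lit 180278) (nat_lit 32) (.e (nat_lit 1659) (nat_lit 115) (.e (nat_lit 393271) (nat_lit 23) (.e (nat_lit 426112) (nat_lit 1) (.e (nat_lit 164348) (nat_lit 240) (.e (nat_lit 2640) (nat_lit 165) .nil)))))) (.g (nat_lit 1) (.e (nat_lit 205111) (nat_lit 0) .nil) .nil)))))) (.nd (nat_lit 7) (.nd (nat_lit 8) (.nd (nat_lit 9) 
(.lf (nat_lit 513097) (.g (nat_lit 5280) (.e (nat_lit 180252) (nat_lit 10) (.e (nat_lit 573475) (nat_lit 12) (.e (nat_lit 57503) (nat_lit 38) (.e (nat_lit 638995) (nat_lit 7) (.e (nat_lit 163979) (nat_lit 30) (.e (nat_lit 573488) (nat_lit 14) (.e (nat_lit 73754) (nat_lit 8) (.e (nat_lit 557105) (nat_lit 14) .nil)))))))) (.g (nat_lit 1) (.e (nat_lit 203034) (nat_lit 0) .nil) .nil))) 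
(.lf (nat_lit 513609) (.g (nat_lit 2202) (.e (nat_lit 180277) (nat_lit 32) (.e (nat_lit 1428) (nat_lit 108) (.e (nat_lit 336434) (nat_lit 30) (.e (nat_lit 450564) (nat_lit 0) (.e (nat_lit 5548) (nat_lit 306) (.e (nat_lit 2639) (nat_lit 165) .nil)))))) (.g (nat_lit 1) (.e (nat_lit 204565) (nat_lit 0) .nil) .nil)))) (.nd (nat_lit 9) 
(.lf (nat_lit 513353) (.g (nat_lit 901) (.e (nat_lit 180272) (nat_lit 26) (.e (nat_lit 704735) (nat_lit 11) (.e (nat_lit 16465) (nat_lit 13) (.e (nat_lit 483351) (nat_lit 17) .nil)))) (.g (nat_lit 0) (.e (nat_lit 204066) (nat_lit 0) .nil) .nil))) 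
(.lf (nat_lit 513865) (.g (nat_lit 3288) (.e (nat_lit 180278) (nat_lit 32) (.e (nat_lit 1426) (nat_lit 108) (.e (nat_lit 336443) (nat_lit 32) (.e (nat_lit 466971) (nat_lit 21) (.e (nat_lit 164348) (nat_lit 240) (.e (nat_lit 2638) (nat_lit 165) .nil)))))) (.g (nat_lit 1) (.e (nat_lit 205004) (nat_lit 0) .nil) .nil))))) (.nd (nat_lit 8) (.nd (nat_lit 9) 
(.lf (nat_lit 513225) (.g (nat_lit 1064) (.e (nat_lit 180269) (nat_lit 25) (.e (nat_lit 696344) (nat_lit 8) (.e (nat_lit 172122) (nat_lit 13) (.e (nat_lit 483343) (nat_lit 17) .nil)))) (.g (nat_lit 0) (.e (nat_lit 203586) (nat_lit 0) .nil) .nil))) 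
(.lf (nat_lit 513737) (.g (nat_lit 3083) (.e (nat_lit 180277) (nat_lit 32) (.e (nat_lit 1660) (nat_lit 115) (.e (nat_lit 393287) (nat_lit 25) (.e (nat_lit 458774) (nat_lit 18) (.e (nat_lit 5547) (nat_lit 306) (.e (nat_lit 2638) (nat_lit 165) .nil)))))) (.g (nat_lit 1) (.e (nat_lit 204734) (nat_lit 0) .nil) .nil)))) (.nd (nat_lit 9) 
(.lf (nat_lit 513481) (.g (nat_lit 3018) (.e (nat_lit 180277) (nat_lit 32) (.e (nat_lit 1252) (nat_lit 92) (.e (nat_lit 98373) (nat_lit 29) (.e (nat_lit 450563) (nat_lit 0) (.e (nat_lit 3948) (nat_lit 239) .nil))))) (.g (nat_lit 0) (.e (nat_lit 204367) (nat_lit 0) .nil) .nil))) 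
(.lf (nat_lit 513993) (.g (nat_lit 408) (.e (nat_lit 180278) (nat_lit 32) (.e (nat_lit 1661) (nat_lit 115) (.e (nat_lit 393266) (nat_lit 23) .nil))) (.g (nat_lit 0) (.e (nat_lit 205251) (nat_lit 0) .nil) .nil))))))) (.nd (nat_lit 6) (.nd (nat_lit 7) (.nd (nat_lit 8) (.nd (nat_lit 9) 
(.lf (nat_lit 513065) (.g (nat_lit 2288) (.e (nat_lit 180252) (nat_lit 10) (.e (nat_lit 573471) (nat_lit 11) (.e (nat_lit 16448) (nat_lit 10) (.e (nat_lit 434221) (nat_lit 19) .nil)))) (.g (nat_lit 0) (.e (nat_lit 202947) (nat_lit 0) .nil) .nil))) 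
(.lf (nat_lit 513577) (.g (nat_lit 2135) (.e (nat_lit 180277) (nat_lit 32) (.e (nat_lit 1427) (nat_lit 108) (.e (nat_lit 336443) (nat_lit 32) (.e (nat_lit 466970) (nat_lit 21) .nil)))) (.g (nat_lit 0) (.e (nat_lit 204524) (nat_lit 0) .nil) .nil)))) (.nd (nat_lit 9) 
(.lf (nat_lit 513321) (.g (nat_lit 1399) (.e (nat_lit 180271) (nat_lit 26) (.e (nat_lit 704738) (nat_lit 11) (.e (nat_lit 16440) (nat_lit 9) (.e (nat_lit 426498) (nat_lit 27) (.e (nat_lit 335906) (nat_lit 0) .nil))))) (.g (nat_lit 0) (.e (nat_lit 203944) (nat_lit 0) .nil) .nil))) 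
(.lf (nat_lit 513833) (.g (nat_lit 3083) (.e (nat_lit 180278) (nat_lit 32) (.e (nat_lit 1425) (nat_lit 108) (.e (nat_lit 336443) (nat_lit 32) (.e (nat_lit 466969) (nat_lit 21) (.e (nat_lit 164347) (nat_lit 240) (.e (nat_lit 2638) (nat_lit 165) .nil)))))) (.g (nat_lit 1) (.e (nat_lit 204968) (nat_lit 0) .nil) .nil))))) (.nd (nat_lit 8) (.nd (nat_lit 9) 
(.lf (nat_lit 513193) (.g (nat_lit 1246) (.e (nat_lit 180260) (nat_lit 18) (.e (nat_lit 639020) (nat_lit 16) (.e (nat_lit 65583) (nat_lit 7) (.e (nat_lit 319527) (nat_lit 15) (.e (nat_lit 278531) (nat_lit 0) (.e (nat_lit 5777) (nat_lit 317) .nil)))))) (.g (nat_lit 1) (.e (nat_lit 203409) (nat_lit 0) .nil) .nil))) 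
(.lf (nat_lit 513705) (.g (nat_lit 2074) (.e (nat_lit 180277) (nat_lit 32) (.e (nat_lit 1660) (nat_lit 115) (.e (nat_lit 393279) (nat_lit 23) (.e (nat_lit 426110) (nat_lit 1) (.e (nat_lit 164348) (nat_lit 240) (.e (nat_lit 2639) (nat_lit 165) .nil)))))) (.g (nat_lit 1) (.e (nat_lit 204696) (nat_lit 0) .nil) .nil)))) (.nd (nat_lit 9) 
(.lf (nat_lit 513449) (.g (nat_lit 1308) (.e (nat_lit 188160) (nat_lit 28) (.e (nat_lit 720909) (nat_lit 11) (.e (nat_lit 426199) (nat_lit 9) (.e (nat_lit 426550) (nat_lit 31) (.e (nat_lit 376576) (nat_lit 5) .nil))))) (.g (nat_lit 0) (.e (nat_lit 204255) (nat_lit 0) .nil) .nil))) 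
(.lf (nat_lit 513961) (.g (nat_lit 2056) (.e (nat_lit 180278) (nat_lit 32) (.e (nat_lit 1659) (nat_lit 115) (.e (nat_lit 393294) (nat_lit 26) (.e (nat_lit 475196) (nat_lit 40) (.e (nat_lit 704595) (nat_lit 5) .nil))))) (.g (nat_lit 0) (.e (nat_lit 205152) (nat_lit 0) .nil) .nil)))))) (.nd (nat_lit 7) (.nd (nat_lit 8) (.nd (nat_lit 9) 
(.lf (nat_lit 513129) (.g (nat_lit 3092) (.e (nat_lit 180252) (nat_lit 10) (.e (nat_lit 573489) (nat_lit 14) (.e (nat_lit 73755) (nat_lit 8) (.e (nat_lit 557067) (nat_lit 9) (.e (nat_lit 2606) (nat_lit 163) (.e (nat_lit 164402) (nat_lit 256) (.e (nat_lit 57373) (nat_lit 2) (.e (nat_lit 90173) (nat_lit 14) .nil)))))))) (.g (nat_lit 1) (.e (nat_lit 203243) (nat_lit 0) .nil) .nil))) 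
(.lf (nat_lit 513641) (.g (nat_lit 826) (.e (nat_lit 180277) (nat_lit 32) (.e (nat_lit 1659) (nat_lit 115) (.e (nat_lit 393267) (nat_lit 23) (.e (nat_lit 426444) (nat_lit 19) .nil)))) (.g (nat_lit 0) (.e (nat_lit 204605) (nat_lit 0) .nil) .nil)))) (.nd (nat_lit 9) 
(.lf (nat_lit 513385) (.g (nat_lit 1937) (.e (nat_lit 180272) (nat_lit 26) (.e (nat_lit 704738) (nat_lit 11) (.e (nat_lit 16436) (nat_lit 9) (.e (nat_lit 426550) (nat_lit 31) (.e (nat_lit 376576) (nat_lit 5) .nil))))) (.g (nat_lit 1) (.e (nat_lit 204143) (nat_lit 0) .nil) .nil))) 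
(.lf (nat_lit 513897) (.g (nat_lit 2910) (.e (nat_lit 180278) (nat_lit 32) (.e (nat_lit 1428) (nat_lit 108) (.e (nat_lit 336443) (nat_lit 32) (.e (nat_lit 466971) (nat_lit 21) (.e (nat_lit 164348) (nat_lit 240) (.e (nat_lit 2640) (nat_lit 165) .nil)))))) (.g (nat_lit 1) (.e (nat_lit 205068) (nat_lit 0) .nil) .nil))))) (.nd (nat_lit 8) (.nd (nat_lit 9) 
(.lf (nat_lit 513257) (.g (nat_lit 1733) (.e (nat_lit 180271) (nat_lit 26) (.e (nat_lit 704737) (nat_lit 11) (.e (nat_lit 16434) (nat_lit 9) (.e (nat_lit 426550) (nat_lit 31) (.e (nat_lit 376576) (nat_lit 5) .nil))))) (.g (nat_lit 0) (.e (nat_lit 203828) (nat_lit 0) .nil) .nil))) 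
(.lf (nat_lit 513769) (.g (nat_lit 1153) (.e (nat_lit 180278) (nat_lit 32) (.e (nat_lit 1235) (nat_lit 91) (.e (nat_lit 90170) (nat_lit 13) (.e (nat_lit 172077) (nat_lit 7) .nil)))) (.g (nat_lit 0) (.e (nat_lit 204896) (nat_lit 0) .nil) .nil)))) (.nd (nat_lit 9) 
(.lf (nat_lit 513513) (.g (nat_lit 855) (.e (nat_lit 180277) (nat_lit 32) (.e (nat_lit 1253) (nat_lit 92) (.e (nat_lit 98381) (nat_lit 31) (.e (nat_lit 466967) (nat_lit 20) (.e (nat_lit 3266) (nat_lit 199) .nil))))) (.g (nat_lit 0) (.e (nat_lit 204401) (nat_lit 0) .nil) .nil))) 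
(.lf (nat_lit 514025) (.g (nat_lit 2378) (.e (nat_lit 180278) (nat_lit 32) (.e (nat_lit 1661) (nat_lit 115) (.e (nat_lit 393291) (nat_lit 26) (.e (nat_lit 475204) (nat_lit 40) .nil)))) (.g (nat_lit 0) (.e (nat_lit 205338) (nat_lit 0) .nil) .nil)))))))) (.nd (nat_lit 5) (.nd (nat_lit 6) (.nd (nat_lit 7) (.nd (nat_lit 8) (.nd (nat_lit 9) 
(.lf (nat_lit 513049) (.g (nat_lit 3373) (.e (nat_lit 180252) (nat_lit 10) (.e (nat_lit 573471) (nat_lit 11) (.e (nat_lit 16425) (nat_lit 7) (.e (nat_lit 409606) (nat_lit 0) .nil)))) (.g (nat_lit 0) (.e (nat_lit 202901) (nat_lit 0) .nil) .nil))) 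
(.lf (nat_lit 513561) (.g (nat_lit 3934) (.e (nat_lit 180277) (nat_lit 32) (.e (nat_lit 1427) (nat_lit 108) (.e (nat_lit 336430) (nat_lit 29) (.e (nat_lit 442419) (nat_lit 21) (.e (nat_lit 164348) (nat_lit 240) (.e (nat_lit 2640) (nat_lit 165) .nil)))))) (.g (nat_lit 1) (.e (nat_lit 204496) (nat_lit 0) .nil) .nil)))) (.nd (nat_lit 9) 
(.lf (nat_lit 513305) (.g (nat_lit 702) (.e (nat_lit 180271) (nat_lit 26) (.e (nat_lit 704738) (nat_lit 11) (.e (nat_lit 16432) (nat_lit 9) (.e (nat_lit 426491) (nat_lit 27) .nil)))) (.g (nat_lit 0) (.e (nat_lit 203919) (nat_lit 0) .nil) .nil))) 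
(.lf (nat_lit 513817) (.g (nat_lit 3241) (.e (nat_lit 180278) (nat_lit 32) (.e (nat_lit 1253) (nat_lit 92) (.e (nat_lit 98373) (nat_lit 29) (.e (nat_lit 450568) (nat_lit 0) (.e (nat_lit 3978) (nat_lit 239) .nil))))) (.g (nat_lit 0) (.e (nat_lit 204946) (nat_lit 0) .nil) .nil))))) (.nd (nat_lit 8) (.nd (nat_lit 9) 
(.lf (nat_lit 513177) (.g (nat_lit 1756) (.e (nat_lit 180252) (nat_lit 10) (.e (nat_lit 573503) (nat_lit 18) (.e (nat_lit 1348) (nat_lit 102) (.e (nat_lit 286761) (nat_lit 13) (.e (nat_lit 401152) (nat_lit 0) .nil))))) (.g (nat_lit 0) (.e (nat_lit 203383) (nat_lit 0) .nil) .nil))) 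
(.lf (nat_lit 513689) (.g (nat_lit 2047) (.e (nat_lit 180277) (nat_lit 32) (.e (nat_lit 1660) (nat_lit 115) (.e (nat_lit 393266) (nat_lit 23) (.e (nat_lit 426109) (nat_lit 1) (.e (nat_lit 164345) (nat_lit 240) (.e (nat_lit 2639) (nat_lit 165) .nil)))))) (.g (nat_lit 1) (.e (nat_lit 204675) (nat_lit 0) .nil) .nil)))) (.nd (nat_lit 9) 
(.lf (nat_lit 513433) (.g (nat_lit 516) (.e (nat_lit 188160) (nat_lit 28) (.e (nat_lit 720907) (nat_lit 11) (.e (nat_lit 426262) (nat_lit 9) (.e (nat_lit 426549) (nat_lit 31) (.e (nat_lit 376576) (nat_lit 5) .nil))))) (.g (nat_lit 0) (.e (nat_lit 204237) (nat_lit 0) .nil) .nil))) 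
(.lf (nat_lit 513945) (.g (nat_lit 3677) (.e (nat_lit 180278) (nat_lit 32) (.e (nat_lit 1659) (nat_lit 115) (.e (nat_lit 393281) (nat_lit 23) (.e (nat_lit 426107) (nat_lit 1) (.e (nat_lit 164347) (nat_lit 240) (.e (nat_lit 2638) (nat_lit 165) .nil)))))) (.g (nat_lit 1) (.e (nat_lit 205132) (nat_lit 0) .nil) .nil)))))) (.nd (nat_lit 7) (.nd (nat_lit 8) (.nd (nat_lit 9) 
(.lf (nat_lit 513113) (.g (nat_lit 2302) (.e (nat_lit 180252) (nat_lit 10) (.e (nat_lit 573489) (nat_lit 14) (.e (nat_lit 73747) (nat_lit 3) (.e (nat_lit 516117) (nat_lit 1) (.e (nat_lit 164157) (nat_lit 152) .nil))))) (.g (nat_lit 0) (.e (nat_lit 203214) (nat_lit 0) .nil) .nil))) 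
(.lf (nat_lit 513625) (.g (nat_lit 1308) (.e (nat_lit 180277) (nat_lit 32) (.e (nat_lit 1658) (nat_lit 115) (.e (nat_lit 393281) (nat_lit 23) (.e (nat_lit 426098) (nat_lit 1) (.e (nat_lit 164346) (nat_lit 240) (.e (nat_lit 2639) (nat_lit 165) .nil)))))) (.g (nat_lit 1) (.e (nat_lit 204586) (nat_lit 0) .nil) .nil)))) (.nd (nat_lit 9) 
(.lf (nat_lit 513369) (.g (nat_lit 545) (.e (nat_lit 180272) (nat_lit 26) (.e (nat_lit 704737) (nat_lit 11) (.e (nat_lit 16446) (nat_lit 9) .nil))) (.g (nat_lit 0) (.e (nat_lit 204095) (nat_lit 0) .nil) .nil))) 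
(.lf (nat_lit 513881) (.g (nat_lit 946) (.e (nat_lit 180278) (nat_lit 32) (.e (nat_lit 1428) (nat_lit 108) (.e (nat_lit 336430) (nat_lit 29) (.e (nat_lit 442402) (nat_lit 20) (.e (nat_lit 2458) (nat_lit 157) .nil))))) (.g (nat_lit 0) (.e (nat_lit 205051) (nat_lit 0) .nil) .nil))))) (.nd (nat_lit 8) (.nd (nat_lit 9) 
(.lf (nat_lit 513241) (.g (nat_lit 1812) (.e (nat_lit 180271) (nat_lit 26) (.e (nat_lit 704736) (nat_lit 11) (.e (nat_lit 16468) (nat_lit 13) (.e (nat_lit 483344) (nat_lit 17) (.e (nat_lit 6724) (nat_lit 362) .nil))))) (.g (nat_lit 1) (.e (nat_lit 203802) (nat_lit 0) .nil) .nil))) 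
(.lf (nat_lit 513753) (.g (nat_lit 1164) (.e (nat_lit 180277) (nat_lit 32) (.e (nat_lit 1661) (nat_lit 115) (.e (nat_lit 393281) (nat_lit 23) (.e (nat_lit 426105) (nat_lit 1) .nil)))) (.g (nat_lit 0) (.e (nat_lit 204858) (nat_lit 0) .nil) .nil)))) (.nd (nat_lit 9) 
(.lf (nat_lit 513497) (.g (nat_lit 3237) (.e (nat_lit 180277) (nat_lit 32) (.e (nat_lit 1253) (nat_lit 92) (.e (nat_lit 98373) (nat_lit 29) (.e (nat_lit 450560) (nat_lit 0) (.e (nat_lit 3991) (nat_lit 239) (.e (nat_lit 2640) (nat_lit 165) .nil)))))) (.g (nat_lit 1) (.e (nat_lit 204385) (nat_lit 0) .nil) .nil))) 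
(.lf (nat_lit 514009) (.g (nat_lit 2562) (.e (nat_lit 180278) (nat_lit 32) (.e (nat_lit 1661) (nat_lit 115) (.e (nat_lit 393283) (nat_lit 24) (.e (nat_lit 434209) (nat_lit 18) (.e (nat_lit 5546) (nat_lit 306) (.e (nat_lit 2640) (nat_lit 165) .nil)))))) (.g (nat_lit 1) (.e (nat_lit 205316) (nat_lit 0) .nil) .nil))))))) (.nd (nat_lit 6) (.nd (nat_lit 7) (.nd (nat_lit 8) (.nd (nat_lit 9) 
(.lf (nat_lit 513081) (.g (nat_lit 2389) (.e (nat_lit 180252) (nat_lit 10) (.e (nat_lit 573471) (nat_lit 11) (.e (nat_lit 16454) (nat_lit 11) (.e (nat_lit 458789) (nat_lit 23) (.e (nat_lit 532481) (nat_lit 0) (.e (nat_lit 6724) (nat_lit 362) .nil)))))) (.g (nat_lit 1) (.e (nat_lit 202979) (nat_lit 0) .nil) .nil))) 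
(.lf (nat_lit 513593) (.g (nat_lit 2523) (.e (nat_lit 180277) (nat_lit 32) (.e (nat_lit 1428) (nat_lit 108) (.e (nat_lit 336430) (nat_lit 29) (.e (nat_lit 442419) (nat_lit 21) (.e (nat_lit 164348) (nat_lit 240) (.e (nat_lit 2639) (nat_lit 165) .nil)))))) (.g (nat_lit 1) (.e (nat_lit 204545) (nat_lit 0) .nil) .nil)))) (.nd (nat_lit 9) 
(.lf (nat_lit 513337) (.g (nat_lit 1480) (.e (nat_lit 180271) (nat_lit 26) (.e (nat_lit 704738) (nat_lit 11) (.e (nat_lit 16464) (nat_lit 13) (.e (nat_lit 483355) (nat_lit 17) (.e (nat_lit 7936) (nat_lit 362) .nil))))) (.g (nat_lit 1) (.e (nat_lit 203974) (nat_lit 0) .nil) .nil))) 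
(.lf (nat_lit 513849) (.g (nat_lit 3118) (.e (nat_lit 180278) (nat_lit 32) (.e (nat_lit 1426) (nat_lit 108) (.e (nat_lit 336430) (nat_lit 29) (.e (nat_lit 442419) (nat_lit 21) (.e (nat_lit 164348) (nat_lit 240) (.e (nat_lit 2640) (nat_lit 165) .nil)))))) (.g (nat_lit 1) (.e (nat_lit 204986) (nat_lit 0) .nil) .nil))))) (.nd (nat_lit 8) (.nd (nat_lit 9) 
(.lf (nat_lit 513209) (.g (nat_lit 2356) (.e (nat_lit 180265) (nat_lit 21) (.e (nat_lit 663583) (nat_lit 11) (.e (nat_lit 24617) (nat_lit 7) (.e (nat_lit 319533) (nat_lit 16) (.e (nat_lit 286725) (nat_lit 0) (.e (nat_lit 7936) (nat_lit 362) .nil)))))) (.g (nat_lit 1) (.e (nat_lit 203433) (nat_lit 0) .nil) .nil))) 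
(.lf (nat_lit 513721) (.g (nat_lit 3310) (.e (nat_lit 180277) (nat_lit 32) (.e (nat_lit 1660) (nat_lit 115) (.e (nat_lit 393282) (nat_lit 24) (.e (nat_lit 434209) (nat_lit 18) (.e (nat_lit 5546) (nat_lit 306) (.e (nat_lit 2638) (nat_lit 165) .nil)))))) (.g (nat_lit 1) (.e (nat_lit 204714) (nat_lit 0) .nil) .nil)))) (.nd (nat_lit 9) 
(.lf (nat_lit 513465) (.g (nat_lit 1762) (.e (nat_lit 180277) (nat_lit 32) (.e (nat_lit 1234) (nat_lit 91) (.e (nat_lit 90172) (nat_lit 14) (.e (nat_lit 180276) (nat_lit 32) .nil)))) (.g (nat_lit 0) (.e (nat_lit 204349) (nat_lit 0) .nil) .nil))) 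
(.lf (nat_lit 513977) (.g (nat_lit 2573) (.e (nat_lit 180278) (nat_lit 32) (.e (nat_lit 1660) (nat_lit 115) (.e (nat_lit 393281) (nat_lit 23) (.e (nat_lit 426099) (nat_lit 1) (.e (nat_lit 164345) (nat_lit 240) (.e (nat_lit 2638) (nat_lit 165) .nil)))))) (.g (nat_lit 1) (.e (nat_lit 205184) (nat_lit 0) .nil) .nil)))))) (.nd (nat_lit 7) (.nd (nat_lit 8) (.nd (nat_lit 9) 
(.lf (nat_lit 513145) (.g (nat_lit 2770) (.e (nat_lit 180252) (nat_lit 10) (.e (nat_lit 573489) (nat_lit 14) (.e (nat_lit 73755) (nat_lit 8) (.e (nat_lit 557090) (nat_lit 12) (.e (nat_lit 163845) (nat_lit 0) (.e (nat_lit 5945) (nat_lit 322) (.e (nat_lit 57371) (nat_lit 2) (.e (nat_lit 90173) (nat_lit 14) .nil)))))))) (.g (nat_lit 1) (.e (nat_lit 203268) (nat_lit 0) .nil) .nil))) 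
(.lf (nat_lit 513657) (.g (nat_lit 2788) (.e (nat_lit 180277) (nat_lit 32) (.e (nat_lit 1659) (nat_lit 115) (.e (nat_lit 393279) (nat_lit 23) (.e (nat_lit 426110) (nat_lit 1) (.e (nat_lit 164348) (nat_lit 240) (.e (nat_lit 2638) (nat_lit 165) .nil)))))) (.g (nat_lit 1) (.e (nat_lit 204628) (nat_lit 0) .nil) .nil)))) (.nd (nat_lit 9) 
(.lf (nat_lit 513401) (.g (nat_lit 1208) (.e (nat_lit 188160) (nat_lit 26) (.e (nat_lit 704733) (nat_lit 11) (.e (nat_lit 16463) (nat_lit 13) (.e (nat_lit 483344) (nat_lit 17) .nil)))) (.g (nat_lit 0) (.e (nat_lit 204202) (nat_lit 0) .nil) .nil))) 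
(.lf (nat_lit 513913) (.g (nat_lit 2613) (.e (nat_lit 180278) (nat_lit 32) (.e (nat_lit 1658) (nat_lit 115) (.e (nat_lit 393283) (nat_lit 24) (.e (nat_lit 434209) (nat_lit 18) (.e (nat_lit 5546) (nat_lit 306) (.e (nat_lit 2639) (nat_lit 165) .nil)))))) (.g (nat_lit 1) (.e (nat_lit 205093) (nat_lit 0) .nil) .nil))))) (.nd (nat_lit 8) (.nd (nat_lit 9) 
(.lf (nat_lit 513273) (.g (nat_lit 668) (.e (nat_lit 180271) (nat_lit 26) (.e (nat_lit 704737) (nat_lit 11) (.e (nat_lit 16440) (nat_lit 9) .nil))) (.g (nat_lit 0) (.e (nat_lit 203849) (nat_lit 0) .nil) .nil))) 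
(.lf (nat_lit 513785) (.g (nat_lit 3048) (.e (nat_lit 180278) (nat_lit 32) (.e (nat_lit 1252) (nat_lit 92) (.e (nat_lit 98373) (nat_lit 29) (.e (nat_lit 450563) (nat_lit 0) (.e (nat_lit 3948) (nat_lit 239) (.e (nat_lit 2637) (nat_lit 165) .nil)))))) (.g (nat_lit 1) (.e (nat_lit 204913) (nat_lit 0) .nil) .nil)))) (.nd (nat_lit 9) 
(.lf (nat_lit 513529) (.g (nat_lit 1758) (.e (nat_lit 180277) (nat_lit 32) (.e (nat_lit 1426) (nat_lit 108) (.e (nat_lit 336430) (nat_lit 29) (.e (nat_lit 442430) (nat_lit 24) (.e (nat_lit 229663) (nat_lit 240) (.e (nat_lit 2641) (nat_lit 165) .nil)))))) (.g (nat_lit 1) (.e (nat_lit 204428) (nat_lit 0) .nil) .nil))) 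
(.lf (nat_lit 514041) (.g (nat_lit 2506) (.e (nat_lit 188160) (nat_lit 32) (.e (nat_lit 1239) (nat_lit 91) (.e (nat_lit 90170) (nat_lit 13) (.e (nat_lit 172082) (nat_lit 7) (.e (nat_lit 409612) (nat_lit 10) .nil))))) (.g (nat_lit 0) (.e (nat_lit 205405) (nat_lit 0) .nil) .nil)))))))))) 
(.nd (nat_lit 3) (.nd (nat_lit 4) (.nd (nat_lit 5) (.nd (nat_lit 6) (.nd (nat_lit 7) 
(.nd (nat_lit 8) (.nd (nat_lit 9) 
(.lf (nat_lit 513029) (.g (nat_lit 1992) (.e (nat_lit 180251) (nat_lit 10) (.e (nat_lit 573503) (nat_lit 18) (.e (nat_lit 1348) (nat_lit 102) (.e (nat_lit 286761) (nat_lit 13) (.e (nat_lit 393221) (nat_lit 0) .nil))))) (.g (nat_lit 0) (.e (nat_lit 202771) (nat_lit 0) .nil) .nil))) 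
(.lf (nat_lit 513541) (.g (nat_lit 3128) (.e (nat_lit 180277) (nat_lit 32) (.e (nat_lit 1426) (nat_lit 108) (.e (nat_lit 336443) (nat_lit 32) (.e (nat_lit 466971) (nat_lit 21) (.e (nat_lit 164348) (nat_lit 240) (.e (nat_lit 2638) (nat_lit 165) .nil)))))) (.g (nat_lit 1) (.e (nat_lit 204441) (nat_lit 0) .nil) .nil)))) (.nd (nat_lit 9) 
(.lf (nat_lit 513285) (.g (nat_lit 673) (.e (nat_lit 180271) (nat_lit 26) (.e (nat_lit 704737) (nat_lit 11) (.e (nat_lit 16464) (nat_lit 13) .nil))) (.g (nat_lit 0) (.e (nat_lit 203882) (nat_lit 0) .nil) .nil))) 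
(.lf (nat_lit 513797) (.g (nat_lit 2876) (.e (nat_lit 180278) (nat_lit 32) (.e (nat_lit 1253) (nat_lit 92) (.e (nat_lit 98373) (nat_lit 29) (.e (nat_lit 450560) (nat_lit 0) (.e (nat_lit 3914) (nat_lit 239) .nil))))) (.g (nat_lit 0) (.e (nat_lit 204926) (nat_lit 0) .nil) .nil))))) (.nd (nat_lit 8) (.nd (nat_lit 9) 
(.lf (nat_lit 513157) (.g (nat_lit 2984) (.e (nat_lit 180252) (nat_lit 10) (.e (nat_lit 573489) (nat_lit 14) (.e (nat_lit 73755) (nat_lit 8) (.e (nat_lit 557090) (nat_lit 12) (.e (nat_lit 163854) (nat_lit 0) (.e (nat_lit 5934) (nat_lit 322) (.e (nat_lit 57371) (nat_lit 2) (.e (nat_lit 90173) (nat_lit 14) .nil)))))))) (.g (nat_lit 1) (.e (nat_lit 203280) (nat_lit 0) .nil) .nil))) 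
(.lf (nat_lit 513669) (.g (nat_lit 3392) (.e (nat_lit 180277) (nat_lit 32) (.e (nat_lit 1659) (nat_lit 115) (.e (nat_lit 393282) (nat_lit 24) (.e (nat_lit 434209) (nat_lit 18) (.e (nat_lit 5546) (nat_lit 306) (.e (nat_lit 2638) (nat_lit 165) .nil)))))) (.g (nat_lit 1) (.e (nat_lit 204641) (nat_lit 0) .nil) .nil)))) (.nd (nat_lit 9) 
(.lf (nat_lit 513413) (.g (nat_lit 865) (.e (nat_lit 188160) (nat_lit 27) (.e (nat_lit 712753) (nat_lit 30) (.e (nat_lit 450579) (nat_lit 5) (.e (nat_lit 532501) (nat_lit 1) .nil)))) (.g (nat_lit 0) (.e (nat_lit 204214) (nat_lit 0) .nil) .nil))) 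
(.lf (nat_lit 513925) (.g (nat_lit 2998) (.e (nat_lit 180278) (nat_lit 32) (.e (nat_lit 1659) (nat_lit 115) (.e (nat_lit 393266) (nat_lit 23) (.e (nat_lit 426109) (nat_lit 1) (.e (nat_lit 164347) (nat_lit 240) (.e (nat_lit 2638) (nat_lit 165) .nil)))))) (.g (nat_lit 1) (.e (nat_lit 205107) (nat_lit 0) .nil) .nil)))))) (.nd (nat_lit 7) (.nd (nat_lit 8) (.nd (nat_lit 9) 
(.lf (nat_lit 513093) (.g (nat_lit 4249) (.e (nat_lit 180252) (nat_lit 10) (.e (nat_lit 573474) (nat_lit 12) (.e (nat_lit 57572) (nat_lit 54) (.e (nat_lit 770072) (nat_lit 8) (.e (nat_lit 65642) (nat_lit 15) (.e (nat_lit 3305) (nat_lit 202) (.e (nat_lit 573477) (nat_lit 12) (.e (nat_lit 65280) (nat_lit 206) .nil)))))))) (.g (nat_lit 1) (.e (nat_lit 203007) (nat_lit 0) .nil) .nil))) 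
(.lf (nat_lit 513605) (.g (nat_lit 1523) (.e (nat_lit 180277) (nat_lit 32) (.e (nat_lit 1428) (nat_lit 108) (.e (nat_lit 336432) (nat_lit 30) (.e (nat_lit 458496) (nat_lit 0) (.e (nat_lit 5546) (nat_lit 306) (.e (nat_lit 2639) (nat_lit 165) .nil)))))) (.g (nat_lit 1) (.e (nat_lit 204559) (nat_lit 0) .nil) .nil)))) (.nd (nat_lit 9) 
(.lf (nat_lit 513349) (.g (nat_lit 594) (.e (nat_lit 180272) (nat_lit 26) (.e (nat_lit 704628) (nat_lit 9) (.e (nat_lit 479) (nat_lit 37) .nil))) (.g (nat_lit 0) (.e (nat_lit 204001) (nat_lit 0) .nil) .nil))) 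
(.lf (nat_lit 513861) (.g (nat_lit 3063) (.e (nat_lit 180278) (nat_lit 32) (.e (nat_lit 1426) (nat_lit 108) (.e (nat_lit 336443) (nat_lit 32) (.e (nat_lit 466969) (nat_lit 21) (.e (nat_lit 164348) (nat_lit 240) (.e (nat_lit 2640) (nat_lit 165) .nil)))))) (.g (nat_lit 1) (.e (nat_lit 205000) (nat_lit 0) .nil) .nil))))) (.nd (nat_lit 8) (.nd (nat_lit 9) 
(.lf (nat_lit 513221) (.g (nat_lit 2360) (.e (nat_lit 180269) (nat_lit 25) (.e (nat_lit 696344) (nat_lit 8) (.e (nat_lit 172067) (nat_lit 3) (.e (nat_lit 204837) (nat_lit 20) (.e (nat_lit 114708) (nat_lit 20) .nil))))) (.g (nat_lit 0) (.e (nat_lit 203581) (nat_lit 0) .nil) .nil))) 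
(.lf (nat_lit 513733) (.g (nat_lit 851) (.e (nat_lit 180277) (nat_lit 32) (.e (nat_lit 1660) (nat_lit 115) (.e (nat_lit 393284) (nat_lit 24) (.e (nat_lit 434205) (nat_lit 18) .nil)))) (.g (nat_lit 0) (.e (nat_lit 204728) (nat_lit 0) .nil) .nil)))) (.nd (nat_lit 9) 
(.lf (nat_lit 513477) (.g (nat_lit 1705) (.e (nat_lit 180277) (nat_lit 32) (.e (nat_lit 1252) (nat_lit 92) (.e (nat_lit 98373) (nat_lit 29) (.e (nat_lit 450560) (nat_lit 0) .nil)))) (.g (nat_lit 0) (.e (nat_lit 204363) (nat_lit 0) .nil) .nil))) 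
(.lf (nat_lit 513989) (.g (nat_lit 1710) (.e (nat_lit 180278) (nat_lit 32) (.e (nat_lit 1660) (nat_lit 115) (.e (nat_lit 393286) (nat_lit 25) (.e (nat_lit 458774) (nat_lit 18) (.e (nat_lit 5546) (nat_lit 306) (.e (nat_lit 2640) (nat_lit 165) .nil)))))) (.g (nat_lit 1) (.e (nat_lit 205201) (nat_lit 0) .nil) .nil))))))) (.nd (nat_lit 6) (.nd (nat_lit 7) (.nd (nat_lit 8) (.nd (nat_lit 9) 
(.lf (nat_lit 513061) (.g (nat_lit 3446) (.e (nat_lit 180252) (nat_lit 10) (.e (nat_lit 573471) (nat_lit 11) (.e (nat_lit 16447) (nat_lit 10) (.e (nat_lit 434231) (nat_lit 23) (.e (nat_lit 532481) (nat_lit 0) (.e (nat_lit 6724) (nat_lit 362) .nil)))))) (.g (nat_lit 1) (.e (nat_lit 202943) (nat_lit 0) .nil) .nil))) 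
(.lf (nat_lit 513573) (.g (nat_lit 3052) (.e (nat_lit 180277) (nat_lit 32) (.e (nat_lit 1427) (nat_lit 108) (.e (nat_lit 336443) (nat_lit 32) (.e (nat_lit 466969) (nat_lit 21) (.e (nat_lit 164345) (nat_lit 240) (.e (nat_lit 2639) (nat_lit 165) .nil)))))) (.g (nat_lit 1) (.e (nat_lit 204520) (nat_lit 0) .nil) .nil)))) (.nd (nat_lit 9) 
(.lf (nat_lit 513317) (.g (nat_lit 1275) (.e (nat_lit 180271) (nat_lit 26) (.e (nat_lit 704738) (nat_lit 11) (.e (nat_lit 16439) (nat_lit 9) (.e (nat_lit 426528) (nat_lit 27) (.e (nat_lit 335895) (nat_lit 0) .nil))))) (.g (nat_lit 0) (.e (nat_lit 203935) (nat_lit 0) .nil) .nil))) 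
(.lf (nat_lit 513829) (.g (nat_lit 2669) (.e (nat_lit 180278) (nat_lit 32) (.e (nat_lit 1425) (nat_lit 108) (.e (nat_lit 336430) (nat_lit 29) (.e (nat_lit 442430) (nat_lit 24) (.e (nat_lit 229664) (nat_lit 240) (.e (nat_lit 2641) (nat_lit 165) .nil)))))) (.g (nat_lit 1) (.e (nat_lit 204961) (nat_lit 0) .nil) .nil))))) (.nd (nat_lit 8) (.nd (nat_lit 9) 
(.lf (nat_lit 513189) (.g (nat_lit 2436) (.e (nat_lit 188160) (nat_lit 8) (.e (nat_lit 557105) (nat_lit 14) (.e (nat_lit 180252) (nat_lit 10) (.e (nat_lit 573482) (nat_lit 13) (.e (nat_lit 73472) (nat_lit 22) .nil))))) (.g (nat_lit 0) (.e (nat_lit 203397) (nat_lit 0) .nil) .nil))) 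
(.lf (nat_lit 513701) (.g (nat_lit 1695) (.e (nat_lit 180277) (nat_lit 32) (.e (nat_lit 1660) (nat_lit 115) (.e (nat_lit 393275) (nat_lit 23) (.e (nat_lit 426109) (nat_lit 1) (.e (nat_lit 164346) (nat_lit 240) (.e (nat_lit 2639) (nat_lit 165) .nil)))))) (.g (nat_lit 1) (.e (nat_lit 204692) (nat_lit 0) .nil) .nil)))) (.nd (nat_lit 9) 
(.lf (nat_lit 513445) (.g (nat_lit 1170) (.e (nat_lit 188160) (nat_lit 28) (.e (nat_lit 720909) (nat_lit 11) (.e (nat_lit 426197) (nat_lit 9) (.e (nat_lit 426550) (nat_lit 31) (.e (nat_lit 376576) (nat_lit 5) .nil))))) (.g (nat_lit 0) (.e (nat_lit 204250) (nat_lit 0) .nil) .nil))) 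
(.lf (nat_lit 513957) (.g (nat_lit 2335) (.e (nat_lit 180278) (nat_lit 32) (.e (nat_lit 1659) (nat_lit 115) (.e (nat_lit 393283) (nat_lit 24) (.e (nat_lit 434209) (nat_lit 18) (.e (nat_lit 5548) (nat_lit 306) (.e (nat_lit 2639) (nat_lit 165) .nil)))))) (.g (nat_lit 1) (.e (nat_lit 205146) (nat_lit 0) .nil) .nil)))))) (.nd (nat_lit 7) (.nd (nat_lit 8) (.nd (nat_lit 9) 
(.lf (nat_lit 513125) (.g (nat_lit 3234) (.e (nat_lit 180252) (nat_lit 10) (.e (nat_lit 573489) (nat_lit 14) (.e (nat_lit 73755) (nat_lit 8) (.e (nat_lit 557067) (nat_lit 9) (.e (nat_lit 2604) (nat_lit 163) (.e (nat_lit 164396) (nat_lit 256) (.e (nat_lit 57371) (nat_lit 2) (.e (nat_lit 90173) (nat_lit 14) .nil)))))))) (.g (nat_lit 1) (.e (nat_lit 203239) (nat_lit 0) .nil) .nil))) 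
(.lf (nat_lit 513637) (.g (nat_lit 1432) (.e (nat_lit 180277) (nat_lit 32) (.e (nat_lit 1658) (nat_lit 115) (.e (nat_lit 393291) (nat_lit 26) (.e (nat_lit 475201) (nat_lit 40) (.e (nat_lit 712448) (nat_lit 5) .nil))))) (.g (nat_lit 0) (.e (nat_lit 204598) (nat_lit 0) .nil) .nil)))) (.nd (nat_lit 9) 
(.lf (nat_lit 513381) (.g (nat_lit 871) (.e (nat_lit 180272) (nat_lit 26) (.e (nat_lit 704738) (nat_lit 11) (.e (nat_lit 16434) (nat_lit 9) (.e (nat_lit 426551) (nat_lit 31) .nil)))) (.g (nat_lit 0) (.e (nat_lit 204139) (nat_lit 0) .nil) .nil))) 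
(.lf (nat_lit 513893) (.g (nat_lit 3087) (.e (nat_lit 180278) (nat_lit 32) (.e (nat_lit 1428) (nat_lit 108) (.e (nat_lit 336434) (nat_lit 30) (.e (nat_lit 450564) (nat_lit 0) (.e (nat_lit 5548) (nat_lit 306) (.e (nat_lit 2640) (nat_lit 165) .nil)))))) (.g (nat_lit 1) (.e (nat_lit 205064) (nat_lit 0) .nil) .nil))))) (.nd (nat_lit 8) (.nd (nat_lit 9) 
(.lf (nat_lit 513253) (.g (nat_lit 1997) (.e (nat_lit 180271) (nat_lit 26) (.e (nat_lit 704737) (nat_lit 11) (.e (nat_lit 16433) (nat_lit 9) (.e (nat_lit 426551) (nat_lit 31) (.e (nat_lit 376576) (nat_lit 5) .nil))))) (.g (nat_lit 0) (.e (nat_lit 203824) (nat_lit 0) .nil) .nil))) 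
(.lf (nat_lit 513765) (.g (nat_lit 2148) (.e (nat_lit 180278) (nat_lit 32) (.e (nat_lit 1234) (nat_lit 91) (.e (nat_lit 90170) (nat_lit 13) (.e (nat_lit 172113) (nat_lit 10) (.e (nat_lit 434208) (nat_lit 18) (.e (nat_lit 3955) (nat_lit 239) (.e (nat_lit 2637) (nat_lit 165) .nil))))))) (.g (nat_lit 1) (.e (nat_lit 204892) (nat_lit 0) .nil) .nil)))) (.nd (nat_lit 9) 
(.lf (nat_lit 513509) (.g (nat_lit 3197) (.e (nat_lit 180277) (nat_lit 32) (.e (nat_lit 1253) (nat_lit 92) (.e (nat_lit 98373) (nat_lit 29) (.e (nat_lit 450567) (nat_lit 0) (.e (nat_lit 3978) (nat_lit 239) (.e (nat_lit 2639) (nat_lit 165) .nil)))))) (.g (nat_lit 1) (.e (nat_lit 204397) (nat_lit 0) .nil) .nil))) 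
(.lf (nat_lit 514021) (.g (nat_lit 1775) (.e (nat_lit 180278) (nat_lit 32) (.e (nat_lit 1661) (nat_lit 115) (.e (nat_lit 393288) (nat_lit 25) (.e (nat_lit 458774) (nat_lit 18) (.e (nat_lit 5548) (nat_lit 306) (.e (nat_lit 2640) (nat_lit 165) .nil)))))) (.g (nat_lit 1) (.e (nat_lit 205334) (nat_lit 0) .nil) .nil)))))))) 
(.nd (nat_lit 5) (.nd (nat_lit 6) (.nd (nat_lit 7) (.nd (nat_lit 8) (.nd (nat_lit 9) 
(.lf (nat_lit 513045) (.g (nat_lit 2822) (.e (nat_lit 180252) (nat_lit 10) (.e (nat_lit 573470) (nat_lit 11) (.e (nat_lit 16446) (nat_lit 9) (.e (nat_lit 426124) (nat_lit 2) (.e (nat_lit 196677) (nat_lit 16) (.e (nat_lit 130816) (nat_lit 206) .nil)))))) (.g (nat_lit 1) (.e (nat_lit 202891) (nat_lit 0) .nil) .nil))) 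
(.lf (nat_lit 513557) (.g (nat_lit 2341) (.e (nat_lit 180277) (nat_lit 32) (.e (nat_lit 1427) (nat_lit 108) (.e (nat_lit 336430) (nat_lit 29) (.e (nat_lit 442419) (nat_lit 21) (.e (nat_lit 164346) (nat_lit 240) (.e (nat_lit 2640) (nat_lit 165) .nil)))))) (.g (nat_lit 1) (.e (nat_lit 204492) (nat_lit 0) .nil) .nil)))) (.nd (nat_lit 9) 
(.lf (nat_lit 513301) (.g (nat_lit 3283) (.e (nat_lit 180271) (nat_lit 26) (.e (nat_lit 704738) (nat_lit 11) (.e (nat_lit 16425) (nat_lit 7) (.e (nat_lit 409617) (nat_lit 10) (.e (nat_lit 848) (nat_lit 73) (.e (nat_lit 761898) (nat_lit 15) (.e (nat_lit 171776) (nat_lit 206) .nil))))))) (.g (nat_lit 1) (.e (nat_lit 203915) (nat_lit 0) .nil) .nil))) 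
(.lf (nat_lit 513813) (.g (nat_lit 4307) (.e (nat_lit 180278) (nat_lit 32) (.e (nat_lit 1253) (nat_lit 92) (.e (nat_lit 98373) (nat_lit 29) (.e (nat_lit 450563) (nat_lit 0) (.e (nat_lit 3953) (nat_lit 239) (.e (nat_lit 2637) (nat_lit 165) .nil)))))) (.g (nat_lit 1) (.e (nat_lit 204942) (nat_lit 0) .nil) .nil))))) (.nd (nat_lit 8) (.nd (nat_lit 9) 
(.lf (nat_lit 513173) (.g (nat_lit 2280) (.e (nat_lit 180252) (nat_lit 10) (.e (nat_lit 573503) (nat_lit 18) (.e (nat_lit 1348) (nat_lit 102) (.e (nat_lit 286735) (nat_lit 3) (.e (nat_lit 98342) (nat_lit 20) .nil))))) (.g (nat_lit 0) (.e (nat_lit 203379) (nat_lit 0) .nil) .nil))) 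
(.lf (nat_lit 513685) (.g (nat_lit 2194) (.e (nat_lit 180277) (nat_lit 32) (.e (nat_lit 1659) (nat_lit 115) (.e (nat_lit 393294) (nat_lit 26) (.e (nat_lit 475197) (nat_lit 40) (.e (nat_lit 704596) (nat_lit 5) .nil))))) (.g (nat_lit 0) (.e (nat_lit 204663) (nat_lit 0) .nil) .nil)))) (.nd (nat_lit 9) 
(.lf (nat_lit 513429) (.g (nat_lit 528) (.e (nat_lit 188160) (nat_lit 28) (.e (nat_lit 720907) (nat_lit 11) (.e (nat_lit 426261) (nat_lit 9) (.e (nat_lit 426547) (nat_lit 31) (.e (nat_lit 376576) (nat_lit 5) .nil))))) (.g (nat_lit 0) (.e (nat_lit 204232) (nat_lit 0) .nil) .nil))) 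
(.lf (nat_lit 513941) (.g (nat_lit 3257) (.e (nat_lit 180278) (nat_lit 32) (.e (nat_lit 1659) (nat_lit 115) (.e (nat_lit 393281) (nat_lit 23) (.e (nat_lit 426100) (nat_lit 1) (.e (nat_lit 164345) (nat_lit 240) (.e (nat_lit 2638) (nat_lit 165) .nil)))))) (.g (nat_lit 1) (.e (nat_lit 205128) (nat_lit 0) .nil) .nil)))))) (.nd (nat_lit 7) (.nd (nat_lit 8) (.nd (nat_lit 9) 
(.lf (nat_lit 513109) (.g (nat_lit 324) (.e (nat_lit 180252) (nat_lit 10) (.e (nat_lit 573489) (nat_lit 14) (.e (nat_lit 73731) (nat_lit 0) .nil))) (.g (nat_lit 0) (.e (nat_lit 203205) (nat_lit 0) .nil) .nil))) 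
(.lf (nat_lit 513621) (.g (nat_lit 501) (.e (nat_lit 180277) (nat_lit 32) (.e (nat_lit 1658) (nat_lit 115) (.e (nat_lit 393267) (nat_lit 23) (.e (nat_lit 426442) (nat_lit 19) .nil)))) (.g (nat_lit 0) (.e (nat_lit 204581) (nat_lit 0) .nil) .nil)))) (.nd (nat_lit 9) 
(.lf (nat_lit 513365) (.g (nat_lit 1080) (.e (nat_lit 180272) (nat_lit 26) (.e (nat_lit 704737) (nat_lit 11) (.e (nat_lit 16438) (nat_lit 9) (.e (nat_lit 426530) (nat_lit 27) .nil)))) (.g (nat_lit 0) (.e (nat_lit 204085) (nat_lit 0) .nil) .nil))) 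
(.lf (nat_lit 513877) (.g (nat_lit 1898) (.e (nat_lit 180278) (nat_lit 32) (.e (nat_lit 1428) (nat_lit 108) (.e (nat_lit 336369) (nat_lit 27) (.e (nat_lit 426317) (nat_lit 12) (.e (nat_lit 475197) (nat_lit 40) .nil))))) (.g (nat_lit 0) (.e (nat_lit 205044) (nat_lit 0) .nil) .nil))))) (.nd (nat_lit 8) (.nd (nat_lit 9) 
(.lf (nat_lit 513237) (.g (nat_lit 1508) (.e (nat_lit 180271) (nat_lit 26) (.e (nat_lit 704736) (nat_lit 11) (.e (nat_lit 16463) (nat_lit 13) (.e (nat_lit 483349) (nat_lit 17) .nil)))) (.g (nat_lit 0) (.e (nat_lit 203798) (nat_lit 0) .nil) .nil))) 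
(.lf (nat_lit 513749) (.g (nat_lit 1396) (.e (nat_lit 180277) (nat_lit 32) (.e (nat_lit 1661) (nat_lit 115) (.e (nat_lit 393268) (nat_lit 23) (.e (nat_lit 426402) (nat_lit 15) .nil)))) (.g (nat_lit 0) (.e (nat_lit 204831) (nat_lit 0) .nil) .nil)))) (.nd (nat_lit 9) 
(.lf (nat_lit 513493) (.g (nat_lit 3060) (.e (nat_lit 180277) (nat_lit 32) (.e (nat_lit 1253) (nat_lit 92) (.e (nat_lit 98373) (nat_lit 29) (.e (nat_lit 450560) (nat_lit 0) (.e (nat_lit 3929) (nat_lit 239) (.e (nat_lit 2643) (nat_lit 165) .nil)))))) (.g (nat_lit 1) (.e (nat_lit 204381) (nat_lit 0) .nil) .nil))) 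
(.lf (nat_lit 514005) (.g (nat_lit 3269) (.e (nat_lit 180278) (nat_lit 32) (.e (nat_lit 1661) (nat_lit 115) (.e (nat_lit 393281) (nat_lit 23) (.e (nat_lit 426098) (nat_lit 1) (.e (nat_lit 164348) (nat_lit 240) (.e (nat_lit 2638) (nat_lit 165) .nil)))))) (.g (nat_lit 1) (.e (nat_lit 205301) (nat_lit 0) .nil) .nil))))))) (.nd (nat_lit 6) (.nd (nat_lit 7) (.nd (nat_lit 8) (.nd (nat_lit 9) 
(.lf (nat_lit 513077) (.g (nat_lit 1679) (.e (nat_lit 180252) (nat_lit 10) (.e (nat_lit 573471) (nat_lit 11) (.e (nat_lit 16451) (nat_lit 11) (.e (nat_lit 458789) (nat_lit 23) (.e (nat_lit 532490) (nat_lit 0) .nil))))) (.g (nat_lit 0) (.e (nat_lit 202972) (nat_lit 0) .nil) .nil))) 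
(.lf (nat_lit 513589) (.g (nat_lit 2464) (.e (nat_lit 180277) (nat_lit 32) (.e (nat_lit 1428) (nat_lit 108) (.e (nat_lit 336430) (nat_lit 29) (.e (nat_lit 442419) (nat_lit 21) (.e (nat_lit 164345) (nat_lit 240) (.e (nat_lit 2639) (nat_lit 165) .nil)))))) (.g (nat_lit 1) (.e (nat_lit 204541) (nat_lit 0) .nil) .nil)))) (.nd (nat_lit 9) 
(.lf (nat_lit 513333) (.g (nat_lit 1445) (.e (nat_lit 180271) (nat_lit 26) (.e (nat_lit 704738) (nat_lit 11) (.e (nat_lit 16463) (nat_lit 13) (.e (nat_lit 483360) (nat_lit 17) .nil)))) (.g (nat_lit 0) (.e (nat_lit 203970) (nat_lit 0) .nil) .nil))) 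
(.lf (nat_lit 513845) (.g (nat_lit 925) (.e (nat_lit 180278) (nat_lit 32) (.e (nat_lit 1426) (nat_lit 108) (.e (nat_lit 336428) (nat_lit 29) (.e (nat_lit 442372) (nat_lit 0) .nil)))) (.g (nat_lit 0) (.e (nat_lit 204980) (nat_lit 0) .nil) .nil))))) (.nd (nat_lit 8) (.nd (nat_lit 9) 
(.lf (nat_lit 513205) (.g (nat_lit 2504) (.e (nat_lit 180264) (nat_lit 21) (.e (nat_lit 663583) (nat_lit 11) (.e (nat_lit 24617) (nat_lit 7) (.e (nat_lit 319533) (nat_lit 16) (.e (nat_lit 286725) (nat_lit 0) (.e (nat_lit 7936) (nat_lit 362) .nil)))))) (.g (nat_lit 1) (.e (nat_lit 203427) (nat_lit 0) .nil) .nil))) 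
(.lf (nat_lit 513717) (.g (nat_lit 2497) (.e (nat_lit 180277) (nat_lit 32) (.e (nat_lit 1660) (nat_lit 115) (.e (nat_lit 393281) (nat_lit 23) (.e (nat_lit 426100) (nat_lit 1) (.e (nat_lit 164345) (nat_lit 240) (.e (nat_lit 2639) (nat_lit 165) .nil)))))) (.g (nat_lit 1) (.e (nat_lit 204709) (nat_lit 0) .nil) .nil)))) (.nd (nat_lit 9) 
(.lf (nat_lit 513461) (.g (nat_lit 1793) (.e (nat_lit 180276) (nat_lit 32) (.e (nat_lit 1517) (nat_lit 108) (.e (nat_lit 336429) (nat_lit 29) (.e (nat_lit 442421) (nat_lit 21) (.e (nat_lit 164346) (nat_lit 240) (.e (nat_lit 2638) (nat_lit 165) .nil)))))) (.g (nat_lit 1) (.e (nat_lit 204345) (nat_lit 0) .nil) .nil))) 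
(.lf (nat_lit 513973) (.g (nat_lit 2910) (.e (nat_lit 180278) (nat_lit 32) (.e (nat_lit 1660) (nat_lit 115) (.e (nat_lit 393281) (nat_lit 23) (.e (nat_lit 426098) (nat_lit 1) (.e (nat_lit 164346) (nat_lit 240) (.e (nat_lit 2638) (nat_lit 165) .nil)))))) (.g (nat_lit 1) (.e (nat_lit 205180) (nat_lit 0) .nil) .nil)))))) (.nd (nat_lit 7) (.nd (nat_lit 8) (.nd (nat_lit 9) 
(.lf (nat_lit 513141) (.g (nat_lit 3490) (.e (nat_lit 180252) (nat_lit 10) (.e (nat_lit 573489) (nat_lit 14) (.e (nat_lit 73755) (nat_lit 8) (.e (nat_lit 557090) (nat_lit 12) (.e (nat_lit 163843) (nat_lit 0) (.e (nat_lit 5942) (nat_lit 322) (.e (nat_lit 57375) (nat_lit 2) (.e (nat_lit 90173) (nat_lit 14) .nil)))))))) (.g (nat_lit 1) (.e (nat_lit 203264) (nat_lit 0) .nil) .nil))) 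
(.lf (nat_lit 513653) (.g (nat_lit 1341) (.e (nat_lit 180277) (nat_lit 32) (.e (nat_lit 1659) (nat_lit 115) (.e (nat_lit 393277) (nat_lit 23) (.e (nat_lit 426109) (nat_lit 1) (.e (nat_lit 164345) (nat_lit 240) (.e (nat_lit 2639) (nat_lit 165) .nil)))))) (.g (nat_lit 1) (.e (nat_lit 204624) (nat_lit 0) .nil) .nil)))) (.nd (nat_lit 9) 
(.lf (nat_lit 513397) (.g (nat_lit 3033) (.e (nat_lit 180272) (nat_lit 26) (.e (nat_lit 704738) (nat_lit 11) (.e (nat_lit 16466) (nat_lit 13) (.e (nat_lit 483346) (nat_lit 17) (.e (nat_lit 6722) (nat_lit 362) .nil))))) (.g (nat_lit 1) (.e (nat_lit 204176) (nat_lit 0) .nil) .nil))) 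
(.lf (nat_lit 513909) (.g (nat_lit 1867) (.e (nat_lit 180278) (nat_lit 32) (.e (nat_lit 1658) (nat_lit 115) (.e (nat_lit 393281) (nat_lit 23) (.e (nat_lit 426107) (nat_lit 1) (.e (nat_lit 164345) (nat_lit 240) (.e (nat_lit 2638) (nat_lit 165) .nil)))))) (.g (nat_lit 1) (.e (nat_lit 205088) (nat_lit 0) .nil) .nil))))) (.nd (nat_lit 8) (.nd (nat_lit 9) 
(.lf (nat_lit 513269) (.g (nat_lit 994) (.e (nat_lit 180271) (nat_lit 26) (.e (nat_lit 704737) (nat_lit 11) (.e (nat_lit 16439) (nat_lit 9) (.e (nat_lit 426526) (nat_lit 27) .nil)))) (.g (nat_lit 0) (.e (nat_lit 203844) (nat_lit 0) .nil) .nil))) 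
(.lf (nat_lit 513781) (.g (nat_lit 1687) (.e (nat_lit 180278) (nat_lit 32) (.e (nat_lit 1252) (nat_lit 92) (.e (nat_lit 98373) (nat_lit 29) (.e (nat_lit 450560) (nat_lit 0) .nil)))) (.g (nat_lit 0) (.e (nat_lit 204909) (nat_lit 0) .nil) .nil)))) (.nd (nat_lit 9) 
(.lf (nat_lit 513525) (.g (nat_lit 864) (.e (nat_lit 180277) (nat_lit 32) (.e (nat_lit 1426) (nat_lit 108) (.e (nat_lit 336428) (nat_lit 29) (.e (nat_lit 442371) (nat_lit 0) .nil)))) (.g (nat_lit 0) (.e (nat_lit 204421) (nat_lit 0) .nil) .nil))) 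
(.lf (nat_lit 514037) (.g (nat_lit 1582) (.e (nat_lit 188160) (nat_lit 32) (.e (nat_lit 1234) (nat_lit 91) (.e (nat_lit 90172) (nat_lit 14) (.e (nat_lit 180278) (nat_lit 32) (.e (nat_lit 1235) (nat_lit 91) .nil))))) (.g (nat_lit 0) (.e (nat_lit 205401) (nat_lit 0) .nil) .nil))))))))) (.nd (nat_lit 4) (.nd (nat_lit 5) (.nd (nat_lit 6) (.nd (nat_lit 7) (.nd (nat_lit 8) (.nd (nat_lit 9) 
(.lf (nat_lit 513037) (.g (nat_lit 3017) (.e (nat_lit 180252) (nat_lit 10) (.e (nat_lit 573451) (nat_lit 9) (.e (nat_lit 1667) (nat_lit 116) (.e (nat_lit 401459) (nat_lit 13) (.e (nat_lit 483363) (nat_lit 18) (.e (nat_lit 57667) (nat_lit 152) (.e (nat_lit 2640) (nat_lit 165) .nil))))))) (.g (nat_lit 1) (.e (nat_lit 202855) (nat_lit 0) .nil) .nil))) 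
(.lf (nat_lit 513549) (.g (nat_lit 2181) (.e (nat_lit 180277) (nat_lit 32) (.e (nat_lit 1427) (nat_lit 108) (.e (nat_lit 336426) (nat_lit 29) (.e (nat_lit 442430) (nat_lit 24) (.e (nat_lit 229666) (nat_lit 240) (.e (nat_lit 2643) (nat_lit 165) .nil)))))) (.g (nat_lit 1) (.e (nat_lit 204473) (nat_lit 0) .nil) .nil)))) (.nd (nat_lit 9) 
(.lf (nat_lit 513293) (.g (nat_lit 1557) (.e (nat_lit 180271) (nat_lit 26) (.e (nat_lit 704737) (nat_lit 11) (.e (nat_lit 16466) (nat_lit 13) (.e (nat_lit 483352) (nat_lit 17) .nil)))) (.g (nat_lit 0) (.e (nat_lit 203890) (nat_lit 0) .nil) .nil))) 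
(.lf (nat_lit 513805) (.g (nat_lit 2983) (.e (nat_lit 180278) (nat_lit 32) (.e (nat_lit 1253) (nat_lit 92) (.e (nat_lit 98373) (nat_lit 29) (.e (nat_lit 450560) (nat_lit 0) (.e (nat_lit 3987) (nat_lit 239) (.e (nat_lit 2638) (nat_lit 165) .nil)))))) (.g (nat_lit 1) (.e (nat_lit 204934) (nat_lit 0) .nil) .nil))))) (.nd (nat_lit 8) (.nd (nat_lit 9) 
(.lf (nat_lit 513165) (.g (nat_lit 1374) (.e (nat_lit 180252) (nat_lit 10) (.e (nat_lit 573489) (nat_lit 14) (.e (nat_lit 73755) (nat_lit 8) (.e (nat_lit 557119) (nat_lit 18) .nil)))) (.g (nat_lit 0) (.e (nat_lit 203345) (nat_lit 0) .nil) .nil))) 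
(.lf (nat_lit 513677) (.g (nat_lit 3510) (.e (nat_lit 180277) (nat_lit 32) (.e (nat_lit 1659) (nat_lit 115) (.e (nat_lit 393283) (nat_lit 24) (.e (nat_lit 434209) (nat_lit 18) (.e (nat_lit 5548) (nat_lit 306) (.e (nat_lit 2638) (nat_lit 165) .nil)))))) (.g (nat_lit 1) (.e (nat_lit 204651) (nat_lit 0) .nil) .nil)))) (.nd (nat_lit 9) 
(.lf (nat_lit 513421) (.g (nat_lit 1789) (.e (nat_lit 188160) (nat_lit 27) (.e (nat_lit 712753) (nat_lit 30) (.e (nat_lit 450579) (nat_lit 5) (.e (nat_lit 532504) (nat_lit 1) (.e (nat_lit 57663) (nat_lit 152) .nil))))) (.g (nat_lit 0) (.e (nat_lit 204222) (nat_lit 0) .nil) .nil))) 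
(.lf (nat_lit 513933) (.g (nat_lit 1166) (.e (nat_lit 180278) (nat_lit 32) (.e (nat_lit 1659) (nat_lit 115) (.e (nat_lit 393274) (nat_lit 23) (.e (nat_lit 426412) (nat_lit 15) .nil)))) (.g (nat_lit 0) (.e (nat_lit 205116) (nat_lit 0) .nil) .nil)))))) (.nd (nat_lit 7) (.nd (nat_lit 8) (.nd (nat_lit 9) 
(.lf (nat_lit 513101) (.g (nat_lit 1219) (.e (nat_lit 180252) (nat_lit 10) (.e (nat_lit 573482) (nat_lit 13) (.e (nat_lit 65568) (nat_lit 2) (.e (nat_lit 98048) (nat_lit 2) .nil)))) (.g (nat_lit 0) (.e (nat_lit 203140) (nat_lit 0) .nil) .nil))) 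
(.lf (nat_lit 513613) (.g (nat_lit 2940) (.e (nat_lit 180277) (nat_lit 32) (.e (nat_lit 1428) (nat_lit 108) (.e (nat_lit 336443) (nat_lit 32) (.e (nat_lit 466969) (nat_lit 21) (.e (nat_lit 164348) (nat_lit 240) (.e (nat_lit 2640) (nat_lit 165) .nil)))))) (.g (nat_lit 1) (.e (nat_lit 204570) (nat_lit 0) .nil) .nil)))) (.nd (nat_lit 9) 
(.lf (nat_lit 513357) (.g (nat_lit 447) (.e (nat_lit 180272) (nat_lit 26) (.e (nat_lit 704737) (nat_lit 11) (.e (nat_lit 16431) (nat_lit 9) .nil))) (.g (nat_lit 0) (.e (nat_lit 204075) (nat_lit 0) .nil) .nil))) 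
(.lf (nat_lit 513869) (.g (nat_lit 367) (.e (nat_lit 180278) (nat_lit 32) (.e (nat_lit 1427) (nat_lit 108) (.e (nat_lit 336428) (nat_lit 29) .nil))) (.g (nat_lit 0) (.e (nat_lit 205023) (nat_lit 0) .nil) .nil))))) (.nd (nat_lit 8) (.nd (nat_lit 9) 
(.lf (nat_lit 513229) (.g (nat_lit 1072) (.e (nat_lit 180271) (nat_lit 26) (.e (nat_lit 704628) (nat_lit 9) (.e (nat_lit 459) (nat_lit 34) (.e (nat_lit 450304) (nat_lit 15) .nil)))) (.g (nat_lit 0) (.e (nat_lit 203678) (nat_lit 0) .nil) .nil))) 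
(.lf (nat_lit 513741) (.g (nat_lit 788) (.e (nat_lit 180277) (nat_lit 32) (.e (nat_lit 1660) (nat_lit 115) (.e (nat_lit 393294) (nat_lit 26) (.e (nat_lit 475204) (nat_lit 40) .nil)))) (.g (nat_lit 0) (.e (nat_lit 204740) (nat_lit 0) .nil) .nil)))) (.nd (nat_lit 9) 
(.lf (nat_lit 513485) (.g (nat_lit 2030) (.e (nat_lit 180277) (nat_lit 32) (.e (nat_lit 1253) (nat_lit 92) (.e (nat_lit 98367) (nat_lit 27) (.e (nat_lit 434193) (nat_lit 13) (.e (nat_lit 2571) (nat_lit 160) (.e (nat_lit 32808) (nat_lit 19) .nil)))))) (.g (nat_lit 1) (.e (nat_lit 204373) (nat_lit 0) .nil) .nil))) 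
(.lf (nat_lit 513997) (.g (nat_lit 1972) (.e (nat_lit 180278) (nat_lit 32) (.e (nat_lit 1661) (nat_lit 115) (.e (nat_lit 393271) (nat_lit 23) (.e (nat_lit 426112) (nat_lit 1) (.e (nat_lit 164348) (nat_lit 240) .nil))))) (.g (nat_lit 0) (.e (nat_lit 205278) (nat_lit 0) .nil) .nil))))))) (.nd (nat_lit 6) (.nd (nat_lit 7) (.nd (nat_lit 8) (.nd (nat_lit 9) 
(.lf (nat_lit 513069) (.g (nat_lit 2281) (.e (nat_lit 180252) (nat_lit 10) (.e (nat_lit 573471) (nat_lit 11) (.e (nat_lit 16448) (nat_lit 10) (.e (nat_lit 434232) (nat_lit 23) .nil)))) (.g (nat_lit 0) (.e (nat_lit 202960) (nat_lit 0) .nil) .nil))) 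
(.lf (nat_lit 513581) (.g (nat_lit 2953) (.e (nat_lit 180277) (nat_lit 32) (.e (nat_lit 1427) (nat_lit 108) (.e (nat_lit 336443) (nat_lit 32) (.e (nat_lit 466971) (nat_lit 21) (.e (nat_lit 164347) (nat_lit 240) (.e (nat_lit 2640) (nat_lit 165) .nil)))))) (.g (nat_lit 1) (.e (nat_lit 204528) (nat_lit 0) .nil) .nil)))) (.nd (nat_lit 9) 
(.lf (nat_lit 513325) (.g (nat_lit 2810) (.e (nat_lit 180271) (nat_lit 26) (.e (nat_lit 704738) (nat_lit 11) (.e (nat_lit 16446) (nat_lit 9) (.e (nat_lit 426500) (nat_lit 27) (.e (nat_lit 335895) (nat_lit 0) (.e (nat_lit 6724) (nat_lit 362) .nil)))))) (.g (nat_lit 1) (.e (nat_lit 203951) (nat_lit 0) .nil) .nil))) 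
(.lf (nat_lit 513837) (.g (nat_lit 2819) (.e (nat_lit 180278) (nat_lit 32) (.e (nat_lit 1425) (nat_lit 108) (.e (nat_lit 336443) (nat_lit 32) (.e (nat_lit 466971) (nat_lit 21) (.e (nat_lit 164345) (nat_lit 240) (.e (nat_lit 2638) (nat_lit 165) .nil)))))) (.g (nat_lit 1) (.e (nat_lit 204972) (nat_lit 0) .nil) .nil))))) (.nd (nat_lit 8) (.nd (nat_lit 9) 
(.lf (nat_lit 513197) (.g (nat_lit 650) (.e (nat_lit 180260) (nat_lit 18) (.e (nat_lit 639020) (nat_lit 16) (.e (nat_lit 65585) (nat_lit 7) (.e (nat_lit 319526) (nat_lit 15) .nil)))) (.g (nat_lit 0) (.e (nat_lit 203413) (nat_lit 0) .nil) .nil))) 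
(.lf (nat_lit 513709) (.g (nat_lit 1496) (.e (nat_lit 180277) (nat_lit 32) (.e (nat_lit 1660) (nat_lit 115) (.e (nat_lit 393281) (nat_lit 23) (.e (nat_lit 426098) (nat_lit 1) (.e (nat_lit 164345) (nat_lit 240) (.e (nat_lit 2639) (nat_lit 165) .nil)))))) (.g (nat_lit 1) (.e (nat_lit 204701) (nat_lit 0) .nil) .nil)))) (.nd (nat_lit 9) 
(.lf (nat_lit 513453) (.g (nat_lit 993) (.e (nat_lit 188160) (nat_lit 29) (.e (nat_lit 729098) (nat_lit 11) (.e (nat_lit 426198) (nat_lit 9) (.e (nat_lit 426533) (nat_lit 28) (.e (nat_lit 352000) (nat_lit 5) .nil))))) (.g (nat_lit 0) (.e (nat_lit 204279) (nat_lit 0) .nil) .nil))) 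
(.lf (nat_lit 513965) (.g (nat_lit 2331) (.e (nat_lit 180278) (nat_lit 32) (.e (nat_lit 1660) (nat_lit 115) (.e (nat_lit 393271) (nat_lit 23) (.e (nat_lit 426112) (nat_lit 1) (.e (nat_lit 164348) (nat_lit 240) (.e (nat_lit 2639) (nat_lit 165) .nil)))))) (.g (nat_lit 1) (.e (nat_lit 205167) (nat_lit 0) .nil) .nil)))))) (.nd (nat_lit 7) (.nd (nat_lit 8) (.nd (nat_lit 9) 
(.lf (nat_lit 513133) (.g (nat_lit 2776) (.e (nat_lit 180252) (nat_lit 10) (.e (nat_lit 573489) (nat_lit 14) (.e (nat_lit 73755) (nat_lit 8) (.e (nat_lit 557090) (nat_lit 12) (.e (nat_lit 163840) (nat_lit 0) (.e (nat_lit 5937) (nat_lit 322) (.e (nat_lit 57370) (nat_lit 2) (.e (nat_lit 90173) (nat_lit 14) .nil)))))))) (.g (nat_lit 1) (.e (nat_lit 203256) (nat_lit 0) .nil) .nil))) 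
(.lf (nat_lit 513645) (.g (nat_lit 1727) (.e (nat_lit 180277) (nat_lit 32) (.e (nat_lit 1659) (nat_lit 115) (.e (nat_lit 393271) (nat_lit 23) (.e (nat_lit 426112) (nat_lit 1) (.e (nat_lit 164347) (nat_lit 240) .nil))))) (.g (nat_lit 0) (.e (nat_lit 204610) (nat_lit 0) .nil) .nil)))) (.nd (nat_lit 9) 
(.lf (nat_lit 513389) (.g (nat_lit 410) (.e (nat_lit 180272) (nat_lit 26) (.e (nat_lit 704738) (nat_lit 11) (.e (nat_lit 16440) (nat_lit 9) .nil))) (.g (nat_lit 0) (.e (nat_lit 204150) (nat_lit 0) .nil) .nil))) 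
(.lf (nat_lit 513901) (.g (nat_lit 1063) (.e (nat_lit 180278) (nat_lit 32) (.e (nat_lit 1658) (nat_lit 115) (.e (nat_lit 393267) (nat_lit 23) (.e (nat_lit 426444) (nat_lit 19) (.e (nat_lit 114432) (nat_lit 5) .nil))))) (.g (nat_lit 0) (.e (nat_lit 205079) (nat_lit 0) .nil) .nil))))) (.nd (nat_lit 8) (.nd (nat_lit 9) 
(.lf (nat_lit 513261) (.g (nat_lit 2001) (.e (nat_lit 180271) (nat_lit 26) (.e (nat_lit 704737) (nat_lit 11) (.e (nat_lit 16436) (nat_lit 9) (.e (nat_lit 433920) (nat_lit 28) .nil)))) (.g (nat_lit 0) (.e (nat_lit 203832) (nat_lit 0) .nil) .nil))) 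
(.lf (nat_lit 513773) (.g (nat_lit 2009) (.e (nat_lit 180278) (nat_lit 32) (.e (nat_lit 1235) (nat_lit 91) (.e (nat_lit 90170) (nat_lit 13) (.e (nat_lit 172113) (nat_lit 10) (.e (nat_lit 434208) (nat_lit 18) (.e (nat_lit 3919) (nat_lit 239) (.e (nat_lit 2635) (nat_lit 165) .nil))))))) (.g (nat_lit 1) (.e (nat_lit 204900) (nat_lit 0) .nil) .nil)))) (.nd (nat_lit 9) 
(.lf (nat_lit 513517) (.g (nat_lit 2672) (.e (nat_lit 180277) (nat_lit 32) (.e (nat_lit 1425) (nat_lit 108) (.e (nat_lit 336430) (nat_lit 29) (.e (nat_lit 442421) (nat_lit 21) (.e (nat_lit 164348) (nat_lit 240) (.e (nat_lit 2640) (nat_lit 165) .nil)))))) (.g (nat_lit 1) (.e (nat_lit 204410) (nat_lit 0) .nil) .nil))) 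
(.lf (nat_lit 514029) (.g (nat_lit 886) (.e (nat_lit 180278) (nat_lit 32) (.e (nat_lit 1661) (nat_lit 115) (.e (nat_lit 393292) (nat_lit 26) (.e (nat_lit 475200) (nat_lit 40) .nil)))) (.g (nat_lit 0) (.e (nat_lit 205342) (nat_lit 0) .nil) .nil)))))))) (.nd (nat_lit 5) (.nd (nat_lit 6) (.nd (nat_lit 7) (.nd (nat_lit 8) (.nd (nat_lit 9) 
(.lf (nat_lit 513053) (.g (nat_lit 822) (.e (nat_lit 180252) (nat_lit 10) (.e (nat_lit 573471) (nat_lit 11) (.e (nat_lit 16441) (nat_lit 9) .nil))) (.g (nat_lit 0) (.e (nat_lit 202925) (nat_lit 0) .nil) .nil))) 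
(.lf (nat_lit 513565) (.g (nat_lit 3690) (.e (nat_lit 180277) (nat_lit 32) (.e (nat_lit 1427) (nat_lit 108) (.e (nat_lit 336430) (nat_lit 29) (.e (nat_lit 442428) (nat_lit 24) (.e (nat_lit 229663) (nat_lit 240) (.e (nat_lit 2643) (nat_lit 165) .nil)))))) (.g (nat_lit 1) (.e (nat_lit 204501) (nat_lit 0) .nil) .nil)))) (.nd (nat_lit 9) 
(.lf (nat_lit 513309) (.g (nat_lit 387) (.e (nat_lit 180271) (nat_lit 26) (.e (nat_lit 704738) (nat_lit 11) (.e (nat_lit 16434) (nat_lit 9) .nil))) (.g (nat_lit 0) (.e (nat_lit 203924) (nat_lit 0) .nil) .nil))) 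
(.lf (nat_lit 513821) (.g (nat_lit 2155) (.e (nat_lit 180278) (nat_lit 32) (.e (nat_lit 1413) (nat_lit 108) (.e (nat_lit 336443) (nat_lit 32) (.e (nat_lit 466972) (nat_lit 21) (.e (nat_lit 164345) (nat_lit 240) (.e (nat_lit 2638) (nat_lit 165) .nil)))))) (.g (nat_lit 1) (.e (nat_lit 204950) (nat_lit 0) .nil) .nil))))) (.nd (nat_lit 8) (.nd (nat_lit 9) 
(.lf (nat_lit 513181) (.g (nat_lit 1614) (.e (nat_lit 180252) (nat_lit 10) (.e (nat_lit 573503) (nat_lit 18) (.e (nat_lit 1349) (nat_lit 102) (.e (nat_lit 286742) (nat_lit 9) .nil)))) (.g (nat_lit 0) (.e (nat_lit 203387) (nat_lit 0) .nil) .nil))) 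
(.lf (nat_lit 513693) (.g (nat_lit 2121) (.e (nat_lit 180277) (nat_lit 32) (.e (nat_lit 1660) (nat_lit 115) (.e (nat_lit 393271) (nat_lit 23) (.e (nat_lit 426112) (nat_lit 1) (.e (nat_lit 164346) (nat_lit 240) (.e (nat_lit 2639) (nat_lit 165) .nil)))))) (.g (nat_lit 1) (.e (nat_lit 204681) (nat_lit 0) .nil) .nil)))) (.nd (nat_lit 9) 
(.lf (nat_lit 513437) (.g (nat_lit 1232) (.e (nat_lit 188160) (nat_lit 28) (.e (nat_lit 720908) (nat_lit 11) (.e (nat_lit 426200) (nat_lit 9) (.e (nat_lit 426550) (nat_lit 31) (.e (nat_lit 376576) (nat_lit 5) .nil))))) (.g (nat_lit 0) (.e (nat_lit 204241) (nat_lit 0) .nil) .nil))) 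
(.lf (nat_lit 513949) (.g (nat_lit 3465) (.e (nat_lit 180278) (nat_lit 32) (.e (nat_lit 1659) (nat_lit 115) (.e (nat_lit 393282) (nat_lit 24) (.e (nat_lit 434209) (nat_lit 18) (.e (nat_lit 5548) (nat_lit 306) (.e (nat_lit 2640) (nat_lit 165) .nil)))))) (.g (nat_lit 1) (.e (nat_lit 205136) (nat_lit 0) .nil) .nil)))))) (.nd (nat_lit 7) (.nd (nat_lit 8) (.nd (nat_lit 9) 
(.lf (nat_lit 513117) (.g (nat_lit 3263) (.e (nat_lit 180252) (nat_lit 10) (.e (nat_lit 573489) (nat_lit 14) (.e (nat_lit 73755) (nat_lit 8) (.e (nat_lit 557067) (nat_lit 9) (.e (nat_lit 2598) (nat_lit 163) (.e (nat_lit 164399) (nat_lit 256) (.e (nat_lit 57372) (nat_lit 2) (.e (nat_lit 90173) (nat_lit 14) .nil)))))))) (.g (nat_lit 1) (.e (nat_lit 203231) (nat_lit 0) .nil) .nil))) 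
(.lf (nat_lit 513629) (.g (nat_lit 1908) (.e (nat_lit 180277) (nat_lit 32) (.e (nat_lit 1658) (nat_lit 115) (.e (nat_lit 393281) (nat_lit 23) (.e (nat_lit 426108) (nat_lit 1) (.e (nat_lit 164345) (nat_lit 240) (.e (nat_lit 2638) (nat_lit 165) .nil)))))) (.g (nat_lit 1) (.e (nat_lit 204590) (nat_lit 0) .nil) .nil)))) (.nd (nat_lit 9) 
(.lf (nat_lit 513373) (.g (nat_lit 664) (.e (nat_lit 180272) (nat_lit 26) (.e (nat_lit 704738) (nat_lit 11) (.e (nat_lit 16384) (nat_lit 0) .nil))) (.g (nat_lit 0) (.e (nat_lit 204128) (nat_lit 0) .nil) .nil))) 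
(.lf (nat_lit 513885) (.g (nat_lit 3491) (.e (nat_lit 180278) (nat_lit 32) (.e (nat_lit 1428) (nat_lit 108) (.e (nat_lit 336430) (nat_lit 29) (.e (nat_lit 442419) (nat_lit 21) (.e (nat_lit 164348) (nat_lit 240) (.e (nat_lit 2640) (nat_lit 165) .nil)))))) (.g (nat_lit 1) (.e (nat_lit 205055) (nat_lit 0) .nil) .nil))))) (.nd (nat_lit 8) (.nd (nat_lit 9) 
(.lf (nat_lit 513245) (.g (nat_lit 272) (.e (nat_lit 180271) (nat_lit 26) (.e (nat_lit 704737) (nat_lit 11) (.e (nat_lit 16431) (nat_lit 9) .nil))) (.g (nat_lit 0) (.e (nat_lit 203808) (nat_lit 0) .nil) .nil))) 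
(.lf (nat_lit 513757) (.g (nat_lit 2864) (.e (nat_lit 180277) (nat_lit 32) (.e (nat_lit 1661) (nat_lit 115) (.e (nat_lit 393286) (nat_lit 25) (.e (nat_lit 458774) (nat_lit 18) (.e (nat_lit 5548) (nat_lit 306) (.e (nat_lit 2640) (nat_lit 165) .nil)))))) (.g (nat_lit 1) (.e (nat_lit 204881) (nat_lit 0) .nil) .nil)))) (.nd (nat_lit 9) 
(.lf (nat_lit 513501) (.g (nat_lit 4202) (.e (nat_lit 180277) (nat_lit 32) (.e (nat_lit 1253) (nat_lit 92) (.e (nat_lit 98373) (nat_lit 29) (.e (nat_lit 450562) (nat_lit 0) (.e (nat_lit 3953) (nat_lit 239) (.e (nat_lit 2637) (nat_lit 165) .nil)))))) (.g (nat_lit 1) (.e (nat_lit 204389) (nat_lit 0) .nil) .nil))) 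
(.lf (nat_lit 514013) (.g (nat_lit 2823) (.e (nat_lit 180278) (nat_lit 32) (.e (nat_lit 1661) (nat_lit 115) (.e (nat_lit 393284) (nat_lit 24) (.e (nat_lit 434209) (nat_lit 18) (.e (nat_lit 5548) (nat_lit 306) (.e (nat_lit 2638) (nat_lit 165) .nil)))))) (.g (nat_lit 1) (.e (nat_lit 205320) (nat_lit 0) .nil) .nil))))))) (.nd (nat_lit 6) (.nd (nat_lit 7) (.nd (nat_lit 8) (.nd (nat_lit 9) 
(.lf (nat_lit 513085) (.g (nat_lit 5190) (.e (nat_lit 180252) (nat_lit 10) (.e (nat_lit 573474) (nat_lit 12) (.e (nat_lit 57502) (nat_lit 38) (.e (nat_lit 638995) (nat_lit 7) (.e (nat_lit 163979) (nat_lit 30) (.e (nat_lit 573489) (nat_lit 14) (.e (nat_lit 73755) (nat_lit 8) (.e (nat_lit 557105) (nat_lit 14) .nil)))))))) (.g (nat_lit 1) (.e (nat_lit 202996) (nat_lit 0) .nil) .nil))) 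
(.lf (nat_lit 513597) (.g (nat_lit 2365) (.e (nat_lit 180277) (nat_lit 32) (.e (nat_lit 1428) (nat_lit 108) (.e (nat_lit 336430) (nat_lit 29) (.e (nat_lit 442421) (nat_lit 21) (.e (nat_lit 164348) (nat_lit 240) (.e (nat_lit 2639) (nat_lit 165) .nil)))))) (.g (nat_lit 1) (.e (nat_lit 204549) (nat_lit 0) .nil) .nil)))) (.nd (nat_lit 9) 
(.lf (nat_lit 513341) (.g (nat_lit 3103) (.e (nat_lit 180271) (nat_lit 26) (.e (nat_lit 704738) (nat_lit 11) (.e (nat_lit 16466) (nat_lit 13) (.e (nat_lit 483346) (nat_lit 17) (.e (nat_lit 6724) (nat_lit 362) .nil))))) (.g (nat_lit 1) (.e (nat_lit 203978) (nat_lit 0) .nil) .nil))) 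
(.lf (nat_lit 513853) (.g (nat_lit 2840) (.e (nat_lit 180278) (nat_lit 32) (.e (nat_lit 1426) (nat_lit 108) (.e (nat_lit 336430) (nat_lit 29) (.e (nat_lit 442430) (nat_lit 24) (.e (nat_lit 229664) (nat_lit 240) (.e (nat_lit 2641) (nat_lit 165) .nil)))))) (.g (nat_lit 1) (.e (nat_lit 204990) (nat_lit 0) .nil) .nil))))) (.nd (nat_lit 8) (.nd (nat_lit 9) 
(.lf (nat_lit 513213) (.g (nat_lit 528) (.e (nat_lit 180261) (nat_lit 20) (.e (nat_lit 655380) (nat_lit 6) (.e (nat_lit 188427) (nat_lit 20) (.e (nat_lit 3401) (nat_lit 211) .nil)))) (.g (nat_lit 0) (.e (nat_lit 203467) (nat_lit 0) .nil) .nil))) 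
(.lf (nat_lit 513725) (.g (nat_lit 3250) (.e (nat_lit 180277) (nat_lit 32) (.e (nat_lit 1660) (nat_lit 115) (.e (nat_lit 393282) (nat_lit 24) (.e (nat_lit 434209) (nat_lit 18) (.e (nat_lit 5548) (nat_lit 306) (.e (nat_lit 2640) (nat_lit 165) .nil)))))) (.g (nat_lit 1) (.e (nat_lit 204718) (nat_lit 0) .nil) .nil)))) (.nd (nat_lit 9) 
(.lf (nat_lit 513469) (.g (nat_lit 1106) (.e (nat_lit 180277) (nat_lit 32) (.e (nat_lit 1235) (nat_lit 91) (.e (nat_lit 90170) (nat_lit 13) (.e (nat_lit 172081) (nat_lit 7) .nil)))) (.g (nat_lit 0) (.e (nat_lit 204353) (nat_lit 0) .nil) .nil))) 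
(.lf (nat_lit 513981) (.g (nat_lit 3427) (.e (nat_lit 180278) (nat_lit 32) (.e (nat_lit 1660) (nat_lit 115) (.e (nat_lit 393281) (nat_lit 23) (.e (nat_lit 426107) (nat_lit 1) (.e (nat_lit 164347) (nat_lit 240) (.e (nat_lit 2638) (nat_lit 165) .nil)))))) (.g (nat_lit 1) (.e (nat_lit 205188) (nat_lit 0) .nil) .nil)))))) (.nd (nat_lit 7) (.nd (nat_lit 8) (.nd (nat_lit 9) 
(.lf (nat_lit 513149) (.g (nat_lit 3163) (.e (nat_lit 180252) (nat_lit 10) (.e (nat_lit 573489) (nat_lit 14) (.e (nat_lit 73755) (nat_lit 8) (.e (nat_lit 557090) (nat_lit 12) (.e (nat_lit 163851) (nat_lit 0) (.e (nat_lit 5936) (nat_lit 322) (.e (nat_lit 57373) (nat_lit 2) (.e (nat_lit 90173) (nat_lit 14) .nil)))))))) (.g (nat_lit 1) (.e (nat_lit 203272) (nat_lit 0) .nil) .nil))) 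
(.lf (nat_lit 513661) (.g (nat_lit 1910) (.e (nat_lit 180277) (nat_lit 32) (.e (nat_lit 1659) (nat_lit 115) (.e (nat_lit 393281) (nat_lit 23) (.e (nat_lit 426098) (nat_lit 1) (.e (nat_lit 164347) (nat_lit 240) (.e (nat_lit 2640) (nat_lit 165) .nil)))))) (.g (nat_lit 1) (.e (nat_lit 204633) (nat_lit 0) .nil) .nil)))) (.nd (nat_lit 9) 
(.lf (nat_lit 513405) (.g (nat_lit 942) (.e (nat_lit 188160) (nat_lit 26) (.e (nat_lit 704734) (nat_lit 11) (.e (nat_lit 16463) (nat_lit 13) (.e (nat_lit 483361) (nat_lit 17) (.e (nat_lit 7936) (nat_lit 362) .nil))))) (.g (nat_lit 0) (.e (nat_lit 204206) (nat_lit 0) .nil) .nil))) 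
(.lf (nat_lit 513917) (.g (nat_lit 2845) (.e (nat_lit 180278) (nat_lit 32) (.e (nat_lit 1658) (nat_lit 115) (.e (nat_lit 393283) (nat_lit 24) (.e (nat_lit 434209) (nat_lit 18) (.e (nat_lit 5548) (nat_lit 306) (.e (nat_lit 2640) (nat_lit 165) .nil)))))) (.g (nat_lit 1) (.e (nat_lit 205097) (nat_lit 0) .nil) .nil))))) (.nd (nat_lit 8) (.nd (nat_lit 9) 
(.lf (nat_lit 513277) (.g (nat_lit 1566) (.e (nat_lit 180271) (nat_lit 26) (.e (nat_lit 704737) (nat_lit 11) (.e (nat_lit 16446) (nat_lit 9) (.e (nat_lit 426500) (nat_lit 27) (.e (nat_lit 335906) (nat_lit 0) .nil))))) (.g (nat_lit 0) (.e (nat_lit 203856) (nat_lit 0) .nil) .nil))) 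
(.lf (nat_lit 513789) (.g (nat_lit 2301) (.e (nat_lit 180278) (nat_lit 32) (.e (nat_lit 1253) (nat_lit 92) (.e (nat_lit 98367) (nat_lit 27) (.e (nat_lit 434186) (nat_lit 13) (.e (nat_lit 2570) (nat_lit 160) (.e (nat_lit 32808) (nat_lit 19) .nil)))))) (.g (nat_lit 1) (.e (nat_lit 204918) (nat_lit 0) .nil) .nil)))) (.nd (nat_lit 9) 
(.lf (nat_lit 513533) (.g (nat_lit 1682) (.e (nat_lit 180277) (nat_lit 32) (.e (nat_lit 1426) (nat_lit 108) (.e (nat_lit 336434) (nat_lit 30) (.e (nat_lit 450564) (nat_lit 0) (.e (nat_lit 5548) (nat_lit 306) (.e (nat_lit 2639) (nat_lit 165) .nil)))))) (.g (nat_lit 1) (.e (nat_lit 204433) (nat_lit 0) .nil) .nil))) 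
(.lf (nat_lit 514045) (.g (nat_lit 3085) (.e (nat_lit 188160) (nat_lit 32) (.e (nat_lit 1239) (nat_lit 91) (.e (nat_lit 90170) (nat_lit 13) (.e (nat_lit 172126) (nat_lit 14) (.e (nat_lit 491522) (nat_lit 0) .nil))))) (.g (nat_lit 0) (.e (nat_lit 205409) (nat_lit 0) .nil) .nil))))))))))) 
(.nd (nat_lit 2) (.nd (nat_lit 3) (.nd (nat_lit 4) (.nd (nat_lit 5) (.nd (nat_lit 6) 
(.nd (nat_lit 7) (.nd (nat_lit 8) (.nd (nat_lit 9) 
(.lf (nat_lit 513027) (.g (nat_lit 2320) (.e (nat_lit 180251) (nat_lit 10) (.e (nat_lit 573503) (nat_lit 18) (.e (nat_lit 1348) (nat_lit 102) (.e (nat_lit 286743) (nat_lit 9) (.e (nat_lit 336446) (nat_lit 33) (.e (nat_lit 483072) (nat_lit 5) .nil)))))) (.g (nat_lit 1) (.e (nat_lit 202769) (nat_lit 0) .nil) .nil))) 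
(.lf (nat_lit 513539) (.g (nat_lit 2967) (.e (nat_lit 180277) (nat_lit 32) (.e (nat_lit 1426) (nat_lit 108) (.e (nat_lit 336443) (nat_lit 32) (.e (nat_lit 466969) (nat_lit 21) (.e (nat_lit 164348) (nat_lit 240) (.e (nat_lit 2640) (nat_lit 165) .nil)))))) (.g (nat_lit 1) (.e (nat_lit 204439) (nat_lit 0) .nil) .nil)))) (.nd (nat_lit 9) 
(.lf (nat_lit 513283) (.g (nat_lit 3051) (.e (nat_lit 180271) (nat_lit 26) (.e (nat_lit 704737) (nat_lit 11) (.e (nat_lit 16463) (nat_lit 13) (.e (nat_lit 483346) (nat_lit 17) (.e (nat_lit 6722) (nat_lit 362) .nil))))) (.g (nat_lit 1) (.e (nat_lit 203880) (nat_lit 0) .nil) .nil))) 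
(.lf (nat_lit 513795) (.g (nat_lit 1508) (.e (nat_lit 180278) (nat_lit 32) (.e (nat_lit 1253) (nat_lit 92) (.e (nat_lit 98373) (nat_lit 29) (.e (nat_lit 450560) (nat_lit 0) .nil)))) (.g (nat_lit 0) (.e (nat_lit 204924) (nat_lit 0) .nil) .nil))))) (.nd (nat_lit 8) (.nd (nat_lit 9) 
(.lf (nat_lit 513155) (.g (nat_lit 2911) (.e (nat_lit 180252) (nat_lit 10) (.e (nat_lit 573489) (nat_lit 14) (.e (nat_lit 73755) (nat_lit 8) (.e (nat_lit 557090) (nat_lit 12) (.e (nat_lit 163851) (nat_lit 0) (.e (nat_lit 5953) (nat_lit 322) (.e (nat_lit 57371) (nat_lit 2) (.e (nat_lit 90173) (nat_lit 14) .nil)))))))) (.g (nat_lit 1) (.e (nat_lit 203278) (nat_lit 0) .nil) .nil))) 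
(.lf (nat_lit 513667) (.g (nat_lit 3413) (.e (nat_lit 180277) (nat_lit 32) (.e (nat_lit 1659) (nat_lit 115) (.e (nat_lit 393281) (nat_lit 23) (.e (nat_lit 426107) (nat_lit 1) (.e (nat_lit 164347) (nat_lit 240) (.e (nat_lit 2638) (nat_lit 165) .nil)))))) (.g (nat_lit 1) (.e (nat_lit 204639) (nat_lit 0) .nil) .nil)))) (.nd (nat_lit 9) 
(.lf (nat_lit 513411) (.g (nat_lit 379) (.e (nat_lit 188160) (nat_lit 27) (.e (nat_lit 712753) (nat_lit 30) (.e (nat_lit 450579) (nat_lit 5) .nil))) (.g (nat_lit 0) (.e (nat_lit 204212) (nat_lit 0) .nil) .nil))) 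
(.lf (nat_lit 513923) (.g (nat_lit 1784) (.e (nat_lit 180278) (nat_lit 32) (.e (nat_lit 1659) (nat_lit 115) (.e (nat_lit 393266) (nat_lit 23) (.e (nat_lit 426109) (nat_lit 1) (.e (nat_lit 164345) (nat_lit 240) (.e (nat_lit 2640) (nat_lit 165) .nil)))))) (.g (nat_lit 1) (.e (nat_lit 205105) (nat_lit 0) .nil) .nil)))))) (.nd (nat_lit 7) (.nd (nat_lit 8) (.nd (nat_lit 9) 
(.lf (nat_lit 513091) (.g (nat_lit 4300) (.e (nat_lit 180252) (nat_lit 10) (.e (nat_lit 573474) (nat_lit 12) (.e (nat_lit 57572) (nat_lit 54) (.e (nat_lit 770072) (nat_lit 8) (.e (nat_lit 65571) (nat_lit 3) (.e (nat_lit 98321) (nat_lit 17) (.e (nat_lit 7936) (nat_lit 393) .nil))))))) (.g (nat_lit 1) (.e (nat_lit 203005) (nat_lit 0) .nil) .nil))) 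
(.lf (nat_lit 513603) (.g (nat_lit 3208) (.e (nat_lit 180277) (nat_lit 32) (.e (nat_lit 1428) (nat_lit 108) (.e (nat_lit 336432) (nat_lit 30) (.e (nat_lit 450565) (nat_lit 0) (.e (nat_lit 5548) (nat_lit 306) (.e (nat_lit 2638) (nat_lit 165) .nil)))))) (.g (nat_lit 1) (.e (nat_lit 204555) (nat_lit 0) .nil) .nil)))) (.nd (nat_lit 9) 
(.lf (nat_lit 513347) (.g (nat_lit 1638) (.e (nat_lit 180271) (nat_lit 26) (.e (nat_lit 704738) (nat_lit 11) (.e (nat_lit 16469) (nat_lit 14) (.e (nat_lit 499456) (nat_lit 25) .nil)))) (.g (nat_lit 0) (.e (nat_lit 203984) (nat_lit 0) .nil) .nil))) 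
(.lf (nat_lit 513859) (.g (nat_lit 2139) (.e (nat_lit 180278) (nat_lit 32) (.e (nat_lit 1426) (nat_lit 108) (.e (nat_lit 336443) (nat_lit 32) (.e (nat_lit 466969) (nat_lit 21) (.e (nat_lit 164347) (nat_lit 240) (.e (nat_lit 2640) (nat_lit 165) .nil)))))) (.g (nat_lit 1) (.e (nat_lit 204998) (nat_lit 0) .nil) .nil))))) (.nd (nat_lit 8) (.nd (nat_lit 9) 
(.lf (nat_lit 513219) (.g (nat_lit 3065) (.e (nat_lit 180268) (nat_lit 24) (.e (nat_lit 688139) (nat_lit 5) (.e (nat_lit 2887) (nat_lit 184) (.e (nat_lit 426211) (nat_lit 9) (.e (nat_lit 426528) (nat_lit 27) (.e (nat_lit 335894) (nat_lit 0) (.e (nat_lit 6724) (nat_lit 362) .nil))))))) (.g (nat_lit 1) (.e (nat_lit 203485) (nat_lit 0) .nil) .nil))) 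
(.lf (nat_lit 513731) (.g (nat_lit 2066) (.e (nat_lit 180277) (nat_lit 32) (.e (nat_lit 1660) (nat_lit 115) (.e (nat_lit 393283) (nat_lit 24) (.e (nat_lit 434209) (nat_lit 18) (.e (nat_lit 5548) (nat_lit 306) (.e (nat_lit 2639) (nat_lit 165) .nil)))))) (.g (nat_lit 1) (.e (nat_lit 204726) (nat_lit 0) .nil) .nil)))) (.nd (nat_lit 9) 
(.lf (nat_lit 513475) (.g (nat_lit 1983) (.e (nat_lit 180277) (nat_lit 32) (.e (nat_lit 1235) (nat_lit 91) (.e (nat_lit 90174) (nat_lit 14) (.e (nat_lit 180287) (nat_lit 45) (.e (nat_lit 2571) (nat_lit 160) (.e (nat_lit 32808) (nat_lit 19) .nil)))))) (.g (nat_lit 1) (.e (nat_lit 204360) (nat_lit 0) .nil) .nil))) 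
(.lf (nat_lit 513987) (.g (nat_lit 2214) (.e (nat_lit 180278) (nat_lit 32) (.e (nat_lit 1660) (nat_lit 115) (.e (nat_lit 393283) (nat_lit 24) (.e (nat_lit 434209) (nat_lit 18) (.e (nat_lit 5547) (nat_lit 306) (.e (nat_lit 2640) (nat_lit 165) .nil)))))) (.g (nat_lit 1) (.e (nat_lit 205197) (nat_lit 0) .nil) .nil))))))) (.nd (nat_lit 6) (.nd (nat_lit 7) (.nd (nat_lit 8) (.nd (nat_lit 9) 
(.lf (nat_lit 513059) (.g (nat_lit 3282) (.e (nat_lit 180252) (nat_lit 10) (.e (nat_lit 573471) (nat_lit 11) (.e (nat_lit 16446) (nat_lit 9) (.e (nat_lit 426124) (nat_lit 2) (.e (nat_lit 196677) (nat_lit 16) (.e (nat_lit 130816) (nat_lit 206) .nil)))))) (.g (nat_lit 1) (.e (nat_lit 202940) (nat_lit 0) .nil) .nil))) 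
(.lf (nat_lit 513571) (.g (nat_lit 2176) (.e (nat_lit 180277) (nat_lit 32) (.e (nat_lit 1427) (nat_lit 108) (.e (nat_lit 336432) (nat_lit 30) (.e (nat_lit 450564) (nat_lit 0) (.e (nat_lit 5548) (nat_lit 306) (.e (nat_lit 2640) (nat_lit 165) .nil)))))) (.g (nat_lit 1) (.e (nat_lit 204510) (nat_lit 0) .nil) .nil)))) (.nd (nat_lit 9) 
(.lf (nat_lit 513315) (.g (nat_lit 1024) (.e (nat_lit 180271) (nat_lit 26) (.e (nat_lit 704738) (nat_lit 11) (.e (nat_lit 16439) (nat_lit 9) (.e (nat_lit 426526) (nat_lit 27) .nil)))) (.g (nat_lit 0) (.e (nat_lit 203933) (nat_lit 0) .nil) .nil))) 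
(.lf (nat_lit 513827) (.g (nat_lit 2753) (.e (nat_lit 180278) (nat_lit 32) (.e (nat_lit 1425) (nat_lit 108) (.e (nat_lit 336430) (nat_lit 29) (.e (nat_lit 442421) (nat_lit 21) (.e (nat_lit 164348) (nat_lit 240) (.e (nat_lit 2640) (nat_lit 165) .nil)))))) (.g (nat_lit 1) (.e (nat_lit 204959) (nat_lit 0) .nil) .nil))))) (.nd (nat_lit 8) (.nd (nat_lit 9) 
(.lf (nat_lit 513187) (.g (nat_lit 1960) (.e (nat_lit 188160) (nat_lit 8) (.e (nat_lit 557105) (nat_lit 14) (.e (nat_lit 180252) (nat_lit 10) (.e (nat_lit 573481) (nat_lit 13) (.e (nat_lit 73472) (nat_lit 17) .nil))))) (.g (nat_lit 0) (.e (nat_lit 203395) (nat_lit 0) .nil) .nil))) 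
(.lf (nat_lit 513699) (.g (nat_lit 1696) (.e (nat_lit 180277) (nat_lit 32) (.e (nat_lit 1660) (nat_lit 115) (.e (nat_lit 393275) (nat_lit 23) (.e (nat_lit 426109) (nat_lit 1) (.e (nat_lit 164345) (nat_lit 240) (.e (nat_lit 2639) (nat_lit 165) .nil)))))) (.g (nat_lit 1) (.e (nat_lit 204690) (nat_lit 0) .nil) .nil)))) (.nd (nat_lit 9) 
(.lf (nat_lit 513443) (.g (nat_lit 979) (.e (nat_lit 188160) (nat_lit 28) (.e (nat_lit 720909) (nat_lit 11) (.e (nat_lit 426196) (nat_lit 9) (.e (nat_lit 426550) (nat_lit 31) (.e (nat_lit 376576) (nat_lit 5) .nil))))) (.g (nat_lit 0) (.e (nat_lit 204248) (nat_lit 0) .nil) .nil))) 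
(.lf (nat_lit 513955) (.g (nat_lit 2638) (.e (nat_lit 180278) (nat_lit 32) (.e (nat_lit 1659) (nat_lit 115) (.e (nat_lit 393283) (nat_lit 24) (.e (nat_lit 434209) (nat_lit 18) (.e (nat_lit 5547) (nat_lit 306) (.e (nat_lit 2640) (nat_lit 165) .nil)))))) (.g (nat_lit 1) (.e (nat_lit 205144) (nat_lit 0) .nil) .nil)))))) (.nd (nat_lit 7) (.nd (nat_lit 8) (.nd (nat_lit 9) 
(.lf (nat_lit 513123) (.g (nat_lit 3286) (.e (nat_lit 180252) (nat_lit 10) (.e (nat_lit 573489) (nat_lit 14) (.e (nat_lit 73755) (nat_lit 8) (.e (nat_lit 557067) (nat_lit 9) (.e (nat_lit 2603) (nat_lit 163) (.e (nat_lit 164398) (nat_lit 256) (.e (nat_lit 57373) (nat_lit 2) (.e (nat_lit 90173) (nat_lit 14) .nil)))))))) (.g (nat_lit 1) (.e (nat_lit 203237) (nat_lit 0) .nil) .nil))) 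
(.lf (nat_lit 513635) (.g (nat_lit 2776) (.e (nat_lit 180277) (nat_lit 32) (.e (nat_lit 1658) (nat_lit 115) (.e (nat_lit 393283) (nat_lit 24) (.e (nat_lit 434209) (nat_lit 18) (.e (nat_lit 5548) (nat_lit 306) (.e (nat_lit 2638) (nat_lit 165) .nil)))))) (.g (nat_lit 1) (.e (nat_lit 204596) (nat_lit 0) .nil) .nil)))) (.nd (nat_lit 9) 
(.lf (nat_lit 513379) (.g (nat_lit 1562) (.e (nat_lit 180272) (nat_lit 26) (.e (nat_lit 704738) (nat_lit 11) (.e (nat_lit 16433) (nat_lit 9) (.e (nat_lit 426530) (nat_lit 27) .nil)))) (.g (nat_lit 0) (.e (nat_lit 204137) (nat_lit 0) .nil) .nil))) 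
(.lf (nat_lit 513891) (.g (nat_lit 2520) (.e (nat_lit 180278) (nat_lit 32) (.e (nat_lit 1428) (nat_lit 108) (.e (nat_lit 336434) (nat_lit 30) (.e (nat_lit 450564) (nat_lit 0) (.e (nat_lit 5546) (nat_lit 306) (.e (nat_lit 2639) (nat_lit 165) .nil)))))) (.g (nat_lit 1) (.e (nat_lit 205062) (nat_lit 0) .nil) .nil))))) (.nd (nat_lit 8) (.nd (nat_lit 9) 
(.lf (nat_lit 513251) (.g (nat_lit 1925) (.e (nat_lit 180271) (nat_lit 26) (.e (nat_lit 704737) (nat_lit 11) (.e (nat_lit 16433) (nat_lit 9) (.e (nat_lit 426479) (nat_lit 27) .nil)))) (.g (nat_lit 0) (.e (nat_lit 203822) (nat_lit 0) .nil) .nil))) 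
(.lf (nat_lit 513763) (.g (nat_lit 2134) (.e (nat_lit 180278) (nat_lit 32) (.e (nat_lit 1234) (nat_lit 91) (.e (nat_lit 90170) (nat_lit 13) (.e (nat_lit 172113) (nat_lit 10) (.e (nat_lit 434208) (nat_lit 18) (.e (nat_lit 3919) (nat_lit 239) (.e (nat_lit 2635) (nat_lit 165) .nil))))))) (.g (nat_lit 1) (.e (nat_lit 204890) (nat_lit 0) .nil) .nil)))) (.nd (nat_lit 9) 
(.lf (nat_lit 513507) (.g (nat_lit 3090) (.e (nat_lit 180277) (nat_lit 32) (.e (nat_lit 1253) (nat_lit 92) (.e (nat_lit 98373) (nat_lit 29) (.e (nat_lit 450567) (nat_lit 0) (.e (nat_lit 3978) (nat_lit 239) .nil))))) (.g (nat_lit 0) (.e (nat_lit 204395) (nat_lit 0) .nil) .nil))) 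
(.lf (nat_lit 514019) (.g (nat_lit 2371) (.e (nat_lit 180278) (nat_lit 32) (.e (nat_lit 1661) (nat_lit 115) (.e (nat_lit 393287) (nat_lit 25) (.e (nat_lit 458774) (nat_lit 18) (.e (nat_lit 5547) (nat_lit 306) (.e (nat_lit 2640) (nat_lit 165) .nil)))))) (.g (nat_lit 1) (.e (nat_lit 205330) (nat_lit 0) .nil) .nil)))))))) 
(.nd (nat_lit 5) (.nd (nat_lit 6) (.nd (nat_lit 7) (.nd (nat_lit 8) (.nd (nat_lit 9) 
(.lf (nat_lit 513043) (.g (nat_lit 1729) (.e (nat_lit 180252) (nat_lit 10) (.e (nat_lit 573470) (nat_lit 11) (.e (nat_lit 16446) (nat_lit 9) (.e (nat_lit 426115) (nat_lit 2) (.e (nat_lit 196677) (nat_lit 16) (.e (nat_lit 130816) (nat_lit 206) .nil)))))) (.g (nat_lit 1) (.e (nat_lit 202889) (nat_lit 0) .nil) .nil))) 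
(.lf (nat_lit 513555) (.g (nat_lit 1725) (.e (nat_lit 180277) (nat_lit 32) (.e (nat_lit 1427) (nat_lit 108) (.e (nat_lit 336430) (nat_lit 29) (.e (nat_lit 442411) (nat_lit 20) .nil)))) (.g (nat_lit 0) (.e (nat_lit 204490) (nat_lit 0) .nil) .nil)))) (.nd (nat_lit 9) 
(.lf (nat_lit 513299) (.g (nat_lit 3305) (.e (nat_lit 180271) (nat_lit 26) (.e (nat_lit 704738) (nat_lit 11) (.e (nat_lit 16416) (nat_lit 3) (.e (nat_lit 204838) (nat_lit 20) .nil)))) (.g (nat_lit 0) (.e (nat_lit 203913) (nat_lit 0) .nil) .nil))) 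
(.lf (nat_lit 513811) (.g (nat_lit 3574) (.e (nat_lit 180278) (nat_lit 32) (.e (nat_lit 1253) (nat_lit 92) (.e (nat_lit 98373) (nat_lit 29) (.e (nat_lit 450562) (nat_lit 0) (.e (nat_lit 7936) (nat_lit 239) .nil))))) (.g (nat_lit 0) (.e (nat_lit 204940) (nat_lit 0) .nil) .nil))))) (.nd (nat_lit 8) (.nd (nat_lit 9) 
(.lf (nat_lit 513171) (.g (nat_lit 3873) (.e (nat_lit 180252) (nat_lit 10) (.e (nat_lit 573489) (nat_lit 14) (.e (nat_lit 73755) (nat_lit 8) (.e (nat_lit 557119) (nat_lit 18) (.e (nat_lit 2798) (nat_lit 180) (.e (nat_lit 311040) (nat_lit 17) (.e (nat_lit 90173) (nat_lit 14) .nil))))))) (.g (nat_lit 1) (.e (nat_lit 203365) (nat_lit 0) .nil) .nil))) 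
(.lf (nat_lit 513683) (.g (nat_lit 1668) (.e (nat_lit 180277) (nat_lit 32) (.e (nat_lit 1659) (nat_lit 115) (.e (nat_lit 393294) (nat_lit 26) (.e (nat_lit 475196) (nat_lit 40) .nil)))) (.g (nat_lit 0) (.e (nat_lit 204661) (nat_lit 0) .nil) .nil)))) (.nd (nat_lit 9) 
(.lf (nat_lit 513427) (.g (nat_lit 626) (.e (nat_lit 188160) (nat_lit 28) (.e (nat_lit 720907) (nat_lit 11) (.e (nat_lit 426260) (nat_lit 9) (.e (nat_lit 426547) (nat_lit 31) (.e (nat_lit 376576) (nat_lit 5) .nil))))) (.g (nat_lit 0) (.e (nat_lit 204230) (nat_lit 0) .nil) .nil))) 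
(.lf (nat_lit 513939) (.g (nat_lit 2190) (.e (nat_lit 180278) (nat_lit 32) (.e (nat_lit 1659) (nat_lit 115) (.e (nat_lit 393281) (nat_lit 23) (.e (nat_lit 426098) (nat_lit 1) (.e (nat_lit 164348) (nat_lit 240) (.e (nat_lit 2639) (nat_lit 165) .nil)))))) (.g (nat_lit 1) (.e (nat_lit 205126) (nat_lit 0) .nil) .nil)))))) (.nd (nat_lit 7) (.nd (nat_lit 8) (.nd (nat_lit 9) 
(.lf (nat_lit 513107) (.g (nat_lit 1619) (.e (nat_lit 180252) (nat_lit 10) (.e (nat_lit 573488) (nat_lit 14) (.e (nat_lit 73755) (nat_lit 8) (.e (nat_lit 557091) (nat_lit 12) .nil)))) (.g (nat_lit 0) (.e (nat_lit 203199) (nat_lit 0) .nil) .nil))) 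
(.lf (nat_lit 513619) (.g (nat_lit 2185) (.e (nat_lit 180277) (nat_lit 32) (.e (nat_lit 1428) (nat_lit 108) (.e (nat_lit 336443) (nat_lit 32) (.e (nat_lit 466972) (nat_lit 21) (.e (nat_lit 164345) (nat_lit 240) (.e (nat_lit 2640) (nat_lit 165) .nil)))))) (.g (nat_lit 1) (.e (nat_lit 204576) (nat_lit 0) .nil) .nil)))) (.nd (nat_lit 9) 
(.lf (nat_lit 513363) (.g (nat_lit 999) (.e (nat_lit 180272) (nat_lit 26) (.e (nat_lit 704737) (nat_lit 11) (.e (nat_lit 16435) (nat_lit 9) (.e (nat_lit 426550) (nat_lit 31) .nil)))) (.g (nat_lit 0) (.e (nat_lit 204083) (nat_lit 0) .nil) .nil))) 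
(.lf (nat_lit 513875) (.g (nat_lit 2577) (.e (nat_lit 180278) (nat_lit 32) (.e (nat_lit 1427) (nat_lit 108) (.e (nat_lit 336443) (nat_lit 32) (.e (nat_lit 466972) (nat_lit 21) (.e (nat_lit 164345) (nat_lit 240) (.e (nat_lit 2640) (nat_lit 165) .nil)))))) (.g (nat_lit 1) (.e (nat_lit 205041) (nat_lit 0) .nil) .nil))))) (.nd (nat_lit 8) (.nd (nat_lit 9) 
(.lf (nat_lit 513235) (.g (nat_lit 1114) (.e (nat_lit 180271) (nat_lit 26) (.e (nat_lit 704629) (nat_lit 9) (.e (nat_lit 433) (nat_lit 32) (.e (nat_lit 426232) (nat_lit 9) (.e (nat_lit 426549) (nat_lit 31) .nil))))) (.g (nat_lit 0) (.e (nat_lit 203705) (nat_lit 0) .nil) .nil))) 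
(.lf (nat_lit 513747) (.g (nat_lit 1808) (.e (nat_lit 180277) (nat_lit 32) (.e (nat_lit 1661) (nat_lit 115) (.e (nat_lit 393268) (nat_lit 23) (.e (nat_lit 426381) (nat_lit 15) .nil)))) (.g (nat_lit 0) (.e (nat_lit 204825) (nat_lit 0) .nil) .nil)))) (.nd (nat_lit 9) 
(.lf (nat_lit 513491) (.g (nat_lit 2872) (.e (nat_lit 180277) (nat_lit 32) (.e (nat_lit 1253) (nat_lit 92) (.e (nat_lit 98373) (nat_lit 29) (.e (nat_lit 450560) (nat_lit 0) (.e (nat_lit 3917) (nat_lit 239) .nil))))) (.g (nat_lit 0) (.e (nat_lit 204379) (nat_lit 0) .nil) .nil))) 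
(.lf (nat_lit 514003) (.g (nat_lit 2752) (.e (nat_lit 180278) (nat_lit 32) (.e (nat_lit 1661) (nat_lit 115) (.e (nat_lit 393279) (nat_lit 23) (.e (nat_lit 426110) (nat_lit 1) (.e (nat_lit 164348) (nat_lit 240) (.e (nat_lit 2640) (nat_lit 165) .nil)))))) (.g (nat_lit 1) (.e (nat_lit 205296) (nat_lit 0) .nil) .nil))))))) (.nd (nat_lit 6) (.nd (nat_lit 7) (.nd (nat_lit 8) (.nd (nat_lit 9) 
(.lf (nat_lit 513075) (.g (nat_lit 2286) (.e (nat_lit 180252) (nat_lit 10) (.e (nat_lit 573471) (nat_lit 11) (.e (nat_lit 16450) (nat_lit 11) (.e (nat_lit 458789) (nat_lit 23) (.e (nat_lit 532482) (nat_lit 0) .nil))))) (.g (nat_lit 0) (.e (nat_lit 202968) (nat_lit 0) .nil) .nil))) 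
(.lf (nat_lit 513587) (.g (nat_lit 811) (.e (nat_lit 180277) (nat_lit 32) (.e (nat_lit 1428) (nat_lit 108) (.e (nat_lit 336430) (nat_lit 29) (.e (nat_lit 442402) (nat_lit 20) .nil)))) (.g (nat_lit 0) (.e (nat_lit 204539) (nat_lit 0) .nil) .nil)))) (.nd (nat_lit 9) 
(.lf (nat_lit 513331) (.g (nat_lit 1445) (.e (nat_lit 180271) (nat_lit 26) (.e (nat_lit 704738) (nat_lit 11) (.e (nat_lit 16463) (nat_lit 13) (.e (nat_lit 483355) (nat_lit 17) .nil)))) (.g (nat_lit 0) (.e (nat_lit 203968) (nat_lit 0) .nil) .nil))) 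
(.lf (nat_lit 513843) (.g (nat_lit 2279) (.e (nat_lit 180278) (nat_lit 32) (.e (nat_lit 1425) (nat_lit 108) (.e (nat_lit 336443) (nat_lit 32) (.e (nat_lit 466972) (nat_lit 21) (.e (nat_lit 164345) (nat_lit 240) (.e (nat_lit 2639) (nat_lit 165) .nil)))))) (.g (nat_lit 1) (.e (nat_lit 204978) (nat_lit 0) .nil) .nil))))) (.nd (nat_lit 8) (.nd (nat_lit 9) 
(.lf (nat_lit 513203) (.g (nat_lit 2514) (.e (nat_lit 180263) (nat_lit 21) (.e (nat_lit 663583) (nat_lit 11) (.e (nat_lit 24617) (nat_lit 7) (.e (nat_lit 319533) (nat_lit 16) (.e (nat_lit 286725) (nat_lit 0) (.e (nat_lit 7936) (nat_lit 362) .nil)))))) (.g (nat_lit 1) (.e (nat_lit 203422) (nat_lit 0) .nil) .nil))) 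
(.lf (nat_lit 513715) (.g (nat_lit 2829) (.e (nat_lit 180277) (nat_lit 32) (.e (nat_lit 1660) (nat_lit 115) (.e (nat_lit 393281) (nat_lit 23) (.e (nat_lit 426098) (nat_lit 1) (.e (nat_lit 164348) (nat_lit 240) (.e (nat_lit 2640) (nat_lit 165) .nil)))))) (.g (nat_lit 1) (.e (nat_lit 204707) (nat_lit 0) .nil) .nil)))) (.nd (nat_lit 9) 
(.lf (nat_lit 513459) (.g (nat_lit 1055) (.e (nat_lit 180276) (nat_lit 32) (.e (nat_lit 1074) (nat_lit 81) (.e (nat_lit 1796) (nat_lit 119) (.e (nat_lit 516160) (nat_lit 10) (.e (nat_lit 434193) (nat_lit 13) .nil))))) (.g (nat_lit 0) (.e (nat_lit 204327) (nat_lit 0) .nil) .nil))) 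
(.lf (nat_lit 513971) (.g (nat_lit 1413) (.e (nat_lit 180278) (nat_lit 32) (.e (nat_lit 1660) (nat_lit 115) (.e (nat_lit 393277) (nat_lit 23) (.e (nat_lit 426109) (nat_lit 1) (.e (nat_lit 164346) (nat_lit 240) (.e (nat_lit 2639) (nat_lit 165) .nil)))))) (.g (nat_lit 1) (.e (nat_lit 205177) (nat_lit 0) .nil) .nil)))))) (.nd (nat_lit 7) (.nd (nat_lit 8) (.nd (nat_lit 9) 
(.lf (nat_lit 513139) (.g (nat_lit 3638) (.e (nat_lit 180252) (nat_lit 10) (.e (nat_lit 573489) (nat_lit 14) (.e (nat_lit 73755) (nat_lit 8) (.e (nat_lit 557090) (nat_lit 12) (.e (nat_lit 163843) (nat_lit 0) (.e (nat_lit 5934) (nat_lit 322) (.e (nat_lit 57371) (nat_lit 2) (.e (nat_lit 90171) (nat_lit 14) .nil)))))))) (.g (nat_lit 1) (.e (nat_lit 203262) (nat_lit 0) .nil) .nil))) 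
(.lf (nat_lit 513651) (.g (nat_lit 1155) (.e (nat_lit 180277) (nat_lit 32) (.e (nat_lit 1659) (nat_lit 115) (.e (nat_lit 393274) (nat_lit 23) (.e (nat_lit 426412) (nat_lit 15) .nil)))) (.g (nat_lit 0) (.e (nat_lit 204621) (nat_lit 0) .nil) .nil)))) (.nd (nat_lit 9) 
(.lf (nat_lit 513395) (.g (nat_lit 293) (.e (nat_lit 180272) (nat_lit 26) (.e (nat_lit 704738) (nat_lit 11) (.e (nat_lit 16466) (nat_lit 13) .nil))) (.g (nat_lit 0) (.e (nat_lit 204174) (nat_lit 0) .nil) .nil))) 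
(.lf (nat_lit 513907) (.g (nat_lit 2000) (.e (nat_lit 180278) (nat_lit 32) (.e (nat_lit 1658) (nat_lit 115) (.e (nat_lit 393281) (nat_lit 23) (.e (nat_lit 426098) (nat_lit 1) (.e (nat_lit 164348) (nat_lit 240) (.e (nat_lit 2640) (nat_lit 165) .nil)))))) (.g (nat_lit 1) (.e (nat_lit 205086) (nat_lit 0) .nil) .nil))))) (.nd (nat_lit 8) (.nd (nat_lit 9) 
(.lf (nat_lit 513267) (.g (nat_lit 3504) (.e (nat_lit 180271) (nat_lit 26) (.e (nat_lit 704737) (nat_lit 11) (.e (nat_lit 16439) (nat_lit 9) (.e (nat_lit 426499) (nat_lit 27) (.e (nat_lit 335894) (nat_lit 0) (.e (nat_lit 6722) (nat_lit 362) .nil)))))) (.g (nat_lit 1) (.e (nat_lit 203841) (nat_lit 0) .nil) .nil))) 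
(.lf (nat_lit 513779) (.g (nat_lit 1823) (.e (nat_lit 180278) (nat_lit 32) (.e (nat_lit 1252) (nat_lit 92) (.e (nat_lit 98367) (nat_lit 27) (.e (nat_lit 434192) (nat_lit 13) (.e (nat_lit 2571) (nat_lit 160) (.e (nat_lit 32808) (nat_lit 19) .nil)))))) (.g (nat_lit 1) (.e (nat_lit 204907) (nat_lit 0) .nil) .nil)))) (.nd (nat_lit 9) 
(.lf (nat_lit 513523) (.g (nat_lit 2221) (.e (nat_lit 180277) (nat_lit 32) (.e (nat_lit 1425) (nat_lit 108) (.e (nat_lit 336443) (nat_lit 32) (.e (nat_lit 466972) (nat_lit 21) (.e (nat_lit 164345) (nat_lit 240) (.e (nat_lit 2639) (nat_lit 165) .nil)))))) (.g (nat_lit 1) (.e (nat_lit 204418) (nat_lit 0) .nil) .nil))) 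
(.lf (nat_lit 514035) (.g (nat_lit 903) (.e (nat_lit 188160) (nat_lit 32) (.e (nat_lit 496) (nat_lit 39) (.e (nat_lit 483413) (nat_lit 27) (.e (nat_lit 409344) (nat_lit 17) .nil)))) (.g (nat_lit 0) (.e (nat_lit 205396) (nat_lit 0) .nil) .nil))))))))) (.nd (nat_lit 4) (.nd (nat_lit 5) (.nd (nat_lit 6) (.nd (nat_lit 7) (.nd (nat_lit 8) (.nd (nat_lit 9) 
(.lf (nat_lit 513035) (.g (nat_lit 3185) (.e (nat_lit 180252) (nat_lit 10) (.e (nat_lit 573449) (nat_lit 9) (.e (nat_lit 1669) (nat_lit 116) (.e (nat_lit 401459) (nat_lit 13) (.e (nat_lit 483364) (nat_lit 18) (.e (nat_lit 57665) (nat_lit 152) (.e (nat_lit 2637) (nat_lit 165) .nil))))))) (.g (nat_lit 1) (.e (nat_lit 202796) (nat_lit 0) .nil) .nil))) 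
(.lf (nat_lit 513547) (.g (nat_lit 2144) (.e (nat_lit 180277) (nat_lit 32) (.e (nat_lit 1427) (nat_lit 108) (.e (nat_lit 336426) (nat_lit 29) (.e (nat_lit 442421) (nat_lit 21) (.e (nat_lit 164347) (nat_lit 240) (.e (nat_lit 2640) (nat_lit 165) .nil)))))) (.g (nat_lit 1) (.e (nat_lit 204471) (nat_lit 0) .nil) .nil)))) (.nd (nat_lit 9) 
(.lf (nat_lit 513291) (.g (nat_lit 2515) (.e (nat_lit 180271) (nat_lit 26) (.e (nat_lit 704737) (nat_lit 11) (.e (nat_lit 16466) (nat_lit 13) (.e (nat_lit 483345) (nat_lit 17) (.e (nat_lit 6722) (nat_lit 362) .nil))))) (.g (nat_lit 1) (.e (nat_lit 203888) (nat_lit 0) .nil) .nil))) 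
(.lf (nat_lit 513803) (.g (nat_lit 2878) (.e (nat_lit 180278) (nat_lit 32) (.e (nat_lit 1253) (nat_lit 92) (.e (nat_lit 98373) (nat_lit 29) (.e (nat_lit 450560) (nat_lit 0) (.e (nat_lit 3932) (nat_lit 239) .nil))))) (.g (nat_lit 0) (.e (nat_lit 204932) (nat_lit 0) .nil) .nil))))) (.nd (nat_lit 8) (.nd (nat_lit 9) 
(.lf (nat_lit 513163) (.g (nat_lit 2566) (.e (nat_lit 180252) (nat_lit 10) (.e (nat_lit 573489) (nat_lit 14) (.e (nat_lit 73755) (nat_lit 8) (.e (nat_lit 557091) (nat_lit 12) (.e (nat_lit 164000) (nat_lit 38) .nil))))) (.g (nat_lit 0) (.e (nat_lit 203343) (nat_lit 0) .nil) .nil))) 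
(.lf (nat_lit 513675) (.g (nat_lit 2674) (.e (nat_lit 180277) (nat_lit 32) (.e (nat_lit 1659) (nat_lit 115) (.e (nat_lit 393283) (nat_lit 24) (.e (nat_lit 434209) (nat_lit 18) (.e (nat_lit 5546) (nat_lit 306) (.e (nat_lit 2640) (nat_lit 165) .nil)))))) (.g (nat_lit 1) (.e (nat_lit 204649) (nat_lit 0) .nil) .nil)))) (.nd (nat_lit 9) 
(.lf (nat_lit 513419) (.g (nat_lit 1604) (.e (nat_lit 188160) (nat_lit 27) (.e (nat_lit 712753) (nat_lit 30) (.e (nat_lit 450579) (nat_lit 5) (.e (nat_lit 532504) (nat_lit 1) (.e (nat_lit 57651) (nat_lit 152) .nil))))) (.g (nat_lit 0) (.e (nat_lit 204220) (nat_lit 0) .nil) .nil))) 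
(.lf (nat_lit 513931) (.g (nat_lit 1690) (.e (nat_lit 180278) (nat_lit 32) (.e (nat_lit 1659) (nat_lit 115) (.e (nat_lit 393271) (nat_lit 23) (.e (nat_lit 426375) (nat_lit 15) .nil)))) (.g (nat_lit 0) (.e (nat_lit 205113) (nat_lit 0) .nil) .nil)))))) (.nd (nat_lit 7) (.nd (nat_lit 8) (.nd (nat_lit 9) 
(.lf (nat_lit 513099) (.g (nat_lit 816) (.e (nat_lit 180252) (nat_lit 10) (.e (nat_lit 573481) (nat_lit 13) (.e (nat_lit 65568) (nat_lit 2) (.e (nat_lit 98048) (nat_lit 2) .nil)))) (.g (nat_lit 0) (.e (nat_lit 203113) (nat_lit 0) .nil) .nil))) 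
(.lf (nat_lit 513611) (.g (nat_lit 2493) (.e (nat_lit 180277) (nat_lit 32) (.e (nat_lit 1428) (nat_lit 108) (.e (nat_lit 336443) (nat_lit 32) (.e (nat_lit 466969) (nat_lit 21) (.e (nat_lit 164345) (nat_lit 240) (.e (nat_lit 2640) (nat_lit 165) .nil)))))) (.g (nat_lit 1) (.e (nat_lit 204568) (nat_lit 0) .nil) .nil)))) (.nd (nat_lit 9) 
(.lf (nat_lit 513355) (.g (nat_lit 1131) (.e (nat_lit 180272) (nat_lit 26) (.e (nat_lit 704736) (nat_lit 11) (.e (nat_lit 16465) (nat_lit 13) (.e (nat_lit 483343) (nat_lit 17) .nil)))) (.g (nat_lit 0) (.e (nat_lit 204070) (nat_lit 0) .nil) .nil))) 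
(.lf (nat_lit 513867) (.g (nat_lit 2018) (.e (nat_lit 180278) (nat_lit 32) (.e (nat_lit 1426) (nat_lit 108) (.e (nat_lit 336443) (nat_lit 32) (.e (nat_lit 466972) (nat_lit 21) (.e (nat_lit 164345) (nat_lit 240) (.e (nat_lit 2640) (nat_lit 165) .nil)))))) (.g (nat_lit 1) (.e (nat_lit 205006) (nat_lit 0) .nil) .nil))))) (.nd (nat_lit 8) (.nd (nat_lit 9) 
(.lf (nat_lit 513227) (.g (nat_lit 409) (.e (nat_lit 180269) (nat_lit 25) (.e (nat_lit 696344) (nat_lit 8) (.e (nat_lit 172123) (nat_lit 13) .nil))) (.g (nat_lit 0) (.e (nat_lit 203588) (nat_lit 0) .nil) .nil))) 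
(.lf (nat_lit 513739) (.g (nat_lit 2633) (.e (nat_lit 180277) (nat_lit 32) (.e (nat_lit 1660) (nat_lit 115) (.e (nat_lit 393287) (nat_lit 25) (.e (nat_lit 458774) (nat_lit 18) (.e (nat_lit 5548) (nat_lit 306) (.e (nat_lit 2640) (nat_lit 165) .nil)))))) (.g (nat_lit 1) (.e (nat_lit 204737) (nat_lit 0) .nil) .nil)))) (.nd (nat_lit 9) 
(.lf (nat_lit 513483) (.g (nat_lit 1490) (.e (nat_lit 180277) (nat_lit 32) (.e (nat_lit 1253) (nat_lit 92) (.e (nat_lit 98367) (nat_lit 27) (.e (nat_lit 434191) (nat_lit 13) .nil)))) (.g (nat_lit 0) (.e (nat_lit 204371) (nat_lit 0) .nil) .nil))) 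
(.lf (nat_lit 513995) (.g (nat_lit 1796) (.e (nat_lit 180278) (nat_lit 32) (.e (nat_lit 1661) (nat_lit 115) (.e (nat_lit 393268) (nat_lit 23) (.e (nat_lit 426111) (nat_lit 1) .nil)))) (.g (nat_lit 0) (.e (nat_lit 205261) (nat_lit 0) .nil) .nil))))))) (.nd (nat_lit 6) (.nd (nat_lit 7) (.nd (nat_lit 8) (.nd (nat_lit 9) 
(.lf (nat_lit 513067) (.g (nat_lit 4208) (.e (nat_lit 180252) (nat_lit 10) (.e (nat_lit 573471) (nat_lit 11) (.e (nat_lit 16448) (nat_lit 10) (.e (nat_lit 434231) (nat_lit 23) (.e (nat_lit 532481) (nat_lit 0) (.e (nat_lit 6724) (nat_lit 362) .nil)))))) (.g (nat_lit 1) (.e (nat_lit 202956) (nat_lit 0) .nil) .nil))) 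
(.lf (nat_lit 513579) (.g (nat_lit 2595) (.e (nat_lit 180277) (nat_lit 32) (.e (nat_lit 1427) (nat_lit 108) (.e (nat_lit 336443) (nat_lit 32) (.e (nat_lit 466971) (nat_lit 21) (.e (nat_lit 164346) (nat_lit 240) (.e (nat_lit 2638) (nat_lit 165) .nil)))))) (.g (nat_lit 1) (.e (nat_lit 204526) (nat_lit 0) .nil) .nil)))) (.nd (nat_lit 9) 
(.lf (nat_lit 513323) (.g (nat_lit 289) (.e (nat_lit 180271) (nat_lit 26) (.e (nat_lit 704738) (nat_lit 11) (.e (nat_lit 16444) (nat_lit 9) .nil))) (.g (nat_lit 0) (.e (nat_lit 203947) (nat_lit 0) .nil) .nil))) 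
(.lf (nat_lit 513835) (.g (nat_lit 3191) (.e (nat_lit 180278) (nat_lit 32) (.e (nat_lit 1425) (nat_lit 108) (.e (nat_lit 336443) (nat_lit 32) (.e (nat_lit 466969) (nat_lit 21) (.e (nat_lit 164348) (nat_lit 240) (.e (nat_lit 2638) (nat_lit 165) .nil)))))) (.g (nat_lit 1) (.e (nat_lit 204970) (nat_lit 0) .nil) .nil))))) (.nd (nat_lit 8) (.nd (nat_lit 9) 
(.lf (nat_lit 513195) (.g (nat_lit 902) (.e (nat_lit 180260) (nat_lit 18) (.e (nat_lit 639020) (nat_lit 16) (.e (nat_lit 65583) (nat_lit 7) (.e (nat_lit 319530) (nat_lit 16) .nil)))) (.g (nat_lit 0) (.e (nat_lit 203411) (nat_lit 0) .nil) .nil))) 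
(.lf (nat_lit 513707) (.g (nat_lit 1883) (.e (nat_lit 180277) (nat_lit 32) (.e (nat_lit 1660) (nat_lit 115) (.e (nat_lit 393280) (nat_lit 23) (.e (nat_lit 426107) (nat_lit 1) (.e (nat_lit 164347) (nat_lit 240) (.e (nat_lit 2640) (nat_lit 165) .nil)))))) (.g (nat_lit 1) (.e (nat_lit 204698) (nat_lit 0) .nil) .nil)))) (.nd (nat_lit 9) 
(.lf (nat_lit 513451) (.g (nat_lit 1353) (.e (nat_lit 188160) (nat_lit 28) (.e (nat_lit 720909) (nat_lit 11) (.e (nat_lit 426200) (nat_lit 9) (.e (nat_lit 426550) (nat_lit 31) (.e (nat_lit 376576) (nat_lit 5) .nil))))) (.g (nat_lit 0) (.e (nat_lit 204260) (nat_lit 0) .nil) .nil))) 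
(.lf (nat_lit 513963) (.g (nat_lit 1964) (.e (nat_lit 180278) (nat_lit 32) (.e (nat_lit 1660) (nat_lit 115) (.e (nat_lit 393271) (nat_lit 23) (.e (nat_lit 426112) (nat_lit 1) (.e (nat_lit 164345) (nat_lit 240) (.e (nat_lit 2638) (nat_lit 165) .nil)))))) (.g (nat_lit 1) (.e (nat_lit 205165) (nat_lit 0) .nil) .nil)))))) (.nd (nat_lit 7) (.nd (nat_lit 8) (.nd (nat_lit 9) 
(.lf (nat_lit 513131) (.g (nat_lit 1768) (.e (nat_lit 180252) (nat_lit 10) (.e (nat_lit 573489) (nat_lit 14) (.e (nat_lit 73755) (nat_lit 8) (.e (nat_lit 557084) (nat_lit 10) .nil)))) (.g (nat_lit 0) (.e (nat_lit 203250) (nat_lit 0) .nil) .nil))) 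
(.lf (nat_lit 513643) (.g (nat_lit 848) (.e (nat_lit 180277) (nat_lit 32) (.e (nat_lit 1659) (nat_lit 115) (.e (nat_lit 393270) (nat_lit 23) (.e (nat_lit 426402) (nat_lit 15) .nil)))) (.g (nat_lit 0) (.e (nat_lit 204608) (nat_lit 0) .nil) .nil)))) (.nd (nat_lit 9) 
(.lf (nat_lit 513387) (.g (nat_lit 3126) (.e (nat_lit 180272) (nat_lit 26) (.e (nat_lit 704738) (nat_lit 11) (.e (nat_lit 16439) (nat_lit 9) (.e (nat_lit 426499) (nat_lit 27) (.e (nat_lit 335894) (nat_lit 0) (.e (nat_lit 6722) (nat_lit 362) .nil)))))) (.g (nat_lit 1) (.e (nat_lit 204148) (nat_lit 0) .nil) .nil))) 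
(.lf (nat_lit 513899) (.g (nat_lit 1430) (.e (nat_lit 180278) (nat_lit 32) (.e (nat_lit 1658) (nat_lit 115) (.e (nat_lit 393266) (nat_lit 23) (.e (nat_lit 426109) (nat_lit 1) (.e (nat_lit 164345) (nat_lit 240) (.e (nat_lit 2640) (nat_lit 165) .nil)))))) (.g (nat_lit 1) (.e (nat_lit 205077) (nat_lit 0) .nil) .nil))))) (.nd (nat_lit 8) (.nd (nat_lit 9) 
(.lf (nat_lit 513259) (.g (nat_lit 547) (.e (nat_lit 180271) (nat_lit 26) (.e (nat_lit 704737) (nat_lit 11) (.e (nat_lit 16436) (nat_lit 9) .nil))) (.g (nat_lit 0) (.e (nat_lit 203830) (nat_lit 0) .nil) .nil))) 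
(.lf (nat_lit 513771) (.g (nat_lit 1271) (.e (nat_lit 180278) (nat_lit 32) (.e (nat_lit 1235) (nat_lit 91) (.e (nat_lit 90170) (nat_lit 13) (.e (nat_lit 172084) (nat_lit 8) .nil)))) (.g (nat_lit 0) (.e (nat_lit 204898) (nat_lit 0) .nil) .nil)))) (.nd (nat_lit 9) 
(.lf (nat_lit 513515) (.g (nat_lit 2191) (.e (nat_lit 180277) (nat_lit 32) (.e (nat_lit 1425) (nat_lit 108) (.e (nat_lit 336430) (nat_lit 29) (.e (nat_lit 442419) (nat_lit 21) (.e (nat_lit 164347) (nat_lit 240) (.e (nat_lit 2640) (nat_lit 165) .nil)))))) (.g (nat_lit 1) (.e (nat_lit 204408) (nat_lit 0) .nil) .nil))) 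
(.lf (nat_lit 514027) (.g (nat_lit 2700) (.e (nat_lit 180278) (nat_lit 32) (.e (nat_lit 1661) (nat_lit 115) (.e (nat_lit 393291) (nat_lit 26) (.e (nat_lit 475206) (nat_lit 40) .nil)))) (.g (nat_lit 0) (.e (nat_lit 205340) (nat_lit 0) .nil) .nil)))))))) (.nd (nat_lit 5) (.nd (nat_lit 6) (.nd (nat_lit 7) (.nd (nat_lit 8) (.nd (nat_lit 9) 
(.lf (nat_lit 513051) (.g (nat_lit 1649) (.e (nat_lit 180252) (nat_lit 10) (.e (nat_lit 573471) (nat_lit 11) (.e (nat_lit 16433) (nat_lit 9) (.e (nat_lit 426095) (nat_lit 0) (.e (nat_lit 3238) (nat_lit 197) .nil))))) (.g (nat_lit 0) (.e (nat_lit 202913) (nat_lit 0) .nil) .nil))) 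
(.lf (nat_lit 513563) (.g (nat_lit 2861) (.e (nat_lit 180277) (nat_lit 32) (.e (nat_lit 1427) (nat_lit 108) (.e (nat_lit 336430) (nat_lit 29) (.e (nat_lit 442421) (nat_lit 21) (.e (nat_lit 164348) (nat_lit 240) (.e (nat_lit 2639) (nat_lit 165) .nil)))))) (.g (nat_lit 1) (.e (nat_lit 204498) (nat_lit 0) .nil) .nil)))) (.nd (nat_lit 9) 
(.lf (nat_lit 513307) (.g (nat_lit 2182) (.e (nat_lit 180271) (nat_lit 26) (.e (nat_lit 704738) (nat_lit 11) (.e (nat_lit 16433) (nat_lit 9) (.e (nat_lit 426533) (nat_lit 28) (.e (nat_lit 352000) (nat_lit 5) .nil))))) (.g (nat_lit 0) (.e (nat_lit 203922) (nat_lit 0) .nil) .nil))) 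
(.lf (nat_lit 513819) (.g (nat_lit 3787) (.e (nat_lit 180278) (nat_lit 32) (.e (nat_lit 1253) (nat_lit 92) (.e (nat_lit 98373) (nat_lit 29) (.e (nat_lit 450569) (nat_lit 0) (.e (nat_lit 3978) (nat_lit 239) (.e (nat_lit 2638) (nat_lit 165) .nil)))))) (.g (nat_lit 1) (.e (nat_lit 204948) (nat_lit 0) .nil) .nil))))) (.nd (nat_lit 8) (.nd (nat_lit 9) 
(.lf (nat_lit 513179) (.g (nat_lit 3845) (.e (nat_lit 180252) (nat_lit 10) (.e (nat_lit 573503) (nat_lit 18) (.e (nat_lit 1348) (nat_lit 102) (.e (nat_lit 286761) (nat_lit 13) (.e (nat_lit 393251) (nat_lit 18) (.e (nat_lit 171776) (nat_lit 146) (.e (nat_lit 2640) (nat_lit 165) .nil))))))) (.g (nat_lit 1) (.e (nat_lit 203385) (nat_lit 0) .nil) .nil))) 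
(.lf (nat_lit 513691) (.g (nat_lit 2654) (.e (nat_lit 180277) (nat_lit 32) (.e (nat_lit 1660) (nat_lit 115) (.e (nat_lit 393266) (nat_lit 23) (.e (nat_lit 426109) (nat_lit 1) (.e (nat_lit 164347) (nat_lit 240) (.e (nat_lit 2638) (nat_lit 165) .nil)))))) (.g (nat_lit 1) (.e (nat_lit 204677) (nat_lit 0) .nil) .nil)))) (.nd (nat_lit 9) 
(.lf (nat_lit 513435) (.g (nat_lit 1039) (.e (nat_lit 188160) (nat_lit 28) (.e (nat_lit 720908) (nat_lit 11) (.e (nat_lit 426198) (nat_lit 9) (.e (nat_lit 426533) (nat_lit 28) (.e (nat_lit 352000) (nat_lit 5) .nil))))) (.g (nat_lit 0) (.e (nat_lit 204239) (nat_lit 0) .nil) .nil))) 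
(.lf (nat_lit 513947) (.g (nat_lit 2912) (.e (nat_lit 180278) (nat_lit 32) (.e (nat_lit 1659) (nat_lit 115) (.e (nat_lit 393282) (nat_lit 24) (.e (nat_lit 434209) (nat_lit 18) (.e (nat_lit 5546) (nat_lit 306) (.e (nat_lit 2639) (nat_lit 165) .nil)))))) (.g (nat_lit 1) (.e (nat_lit 205134) (nat_lit 0) .nil) .nil)))))) (.nd (nat_lit 7) (.nd (nat_lit 8) (.nd (nat_lit 9) 
(.lf (nat_lit 513115) (.g (nat_lit 2807) (.e (nat_lit 180252) (nat_lit 10) (.e (nat_lit 573489) (nat_lit 14) (.e (nat_lit 73755) (nat_lit 8) (.e (nat_lit 557067) (nat_lit 9) (.e (nat_lit 2598) (nat_lit 163) (.e (nat_lit 164396) (nat_lit 256) (.e (nat_lit 57371) (nat_lit 2) (.e (nat_lit 90173) (nat_lit 14) .nil)))))))) (.g (nat_lit 1) (.e (nat_lit 203229) (nat_lit 0) .nil) .nil))) 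
(.lf (nat_lit 513627) (.g (nat_lit 1957) (.e (nat_lit 180277) (nat_lit 32) (.e (nat_lit 1658) (nat_lit 115) (.e (nat_lit 393281) (nat_lit 23) (.e (nat_lit 426098) (nat_lit 1) (.e (nat_lit 164348) (nat_lit 240) (.e (nat_lit 2640) (nat_lit 165) .nil)))))) (.g (nat_lit 1) (.e (nat_lit 204588) (nat_lit 0) .nil) .nil)))) (.nd (nat_lit 9) 
(.lf (nat_lit 513371) (.g (nat_lit 2015) (.e (nat_lit 180272) (nat_lit 26) (.e (nat_lit 704737) (nat_lit 11) (.e (nat_lit 16463) (nat_lit 13) (.e (nat_lit 483349) (nat_lit 17) (.e (nat_lit 7936) (nat_lit 362) .nil))))) (.g (nat_lit 0) (.e (nat_lit 204106) (nat_lit 0) .nil) .nil))) 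
(.lf (nat_lit 513883) (.g (nat_lit 2476) (.e (nat_lit 180278) (nat_lit 32) (.e (nat_lit 1428) (nat_lit 108) (.e (nat_lit 336430) (nat_lit 29) (.e (nat_lit 442419) (nat_lit 21) (.e (nat_lit 164347) (nat_lit 240) (.e (nat_lit 2640) (nat_lit 165) .nil)))))) (.g (nat_lit 1) (.e (nat_lit 205053) (nat_lit 0) .nil) .nil))))) (.nd (nat_lit 8) (.nd (nat_lit 9) 
(.lf (nat_lit 513243) (.g (nat_lit 1217) (.e (nat_lit 180271) (nat_lit 26) (.e (nat_lit 704737) (nat_lit 11) (.e (nat_lit 16388) (nat_lit 0) (.e (nat_lit 7377) (nat_lit 390) .nil)))) (.g (nat_lit 0) (.e (nat_lit 203806) (nat_lit 0) .nil) .nil))) 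
(.lf (nat_lit 513755) (.g (nat_lit 3397) (.e (nat_lit 180277) (nat_lit 32) (.e (nat_lit 1661) (nat_lit 115) (.e (nat_lit 393283) (nat_lit 24) (.e (nat_lit 434209) (nat_lit 18) (.e (nat_lit 5548) (nat_lit 306) (.e (nat_lit 2640) (nat_lit 165) .nil)))))) (.g (nat_lit 1) (.e (nat_lit 204872) (nat_lit 0) .nil) .nil)))) (.nd (nat_lit 9) 
(.lf (nat_lit 513499) (.g (nat_lit 3882) (.e (nat_lit 180277) (nat_lit 32) (.e (nat_lit 1253) (nat_lit 92) (.e (nat_lit 98373) (nat_lit 29) (.e (nat_lit 450562) (nat_lit 0) (.e (nat_lit 3948) (nat_lit 239) .nil))))) (.g (nat_lit 0) (.e (nat_lit 204387) (nat_lit 0) .nil) .nil))) 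
(.lf (nat_lit 514011) (.g (nat_lit 3262) (.e (nat_lit 180278) (nat_lit 32) (.e (nat_lit 1661) (nat_lit 115) (.e (nat_lit 393283) (nat_lit 24) (.e (nat_lit 434209) (nat_lit 18) (.e (nat_lit 5548) (nat_lit 306) (.e (nat_lit 2640) (nat_lit 165) .nil)))))) (.g (nat_lit 1) (.e (nat_lit 205318) (nat_lit 0) .nil) .nil))))))) (.nd (nat_lit 6) (.nd (nat_lit 7) (.nd (nat_lit 8) (.nd (nat_lit 9) 
(.lf (nat_lit 513083) (.g (nat_lit 4671) (.e (nat_lit 180252) (nat_lit 10) (.e (nat_lit 573474) (nat_lit 12) (.e (nat_lit 57501) (nat_lit 37) (.e (nat_lit 630799) (nat_lit 7) (.e (nat_lit 163979) (nat_lit 30) (.e (nat_lit 573489) (nat_lit 14) (.e (nat_lit 73755) (nat_lit 8) (.e (nat_lit 557105) (nat_lit 14) .nil)))))))) (.g (nat_lit 1) (.e (nat_lit 202994) (nat_lit 0) .nil) .nil))) 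
(.lf (nat_lit 513595) (.g (nat_lit 2413) (.e (nat_lit 180277) (nat_lit 32) (.e (nat_lit 1428) (nat_lit 108) (.e (nat_lit 336430) (nat_lit 29) (.e (nat_lit 442421) (nat_lit 21) (.e (nat_lit 164345) (nat_lit 240) (.e (nat_lit 2639) (nat_lit 165) .nil)))))) (.g (nat_lit 1) (.e (nat_lit 204547) (nat_lit 0) .nil) .nil)))) (.nd (nat_lit 9) 
(.lf (nat_lit 513339) (.g (nat_lit 1588) (.e (nat_lit 180271) (nat_lit 26) (.e (nat_lit 704738) (nat_lit 11) (.e (nat_lit 16464) (nat_lit 13) (.e (nat_lit 483361) (nat_lit 17) (.e (nat_lit 7936) (nat_lit 362) .nil))))) (.g (nat_lit 1) (.e (nat_lit 203976) (nat_lit 0) .nil) .nil))) 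
(.lf (nat_lit 513851) (.g (nat_lit 2901) (.e (nat_lit 180278) (nat_lit 32) (.e (nat_lit 1426) (nat_lit 108) (.e (nat_lit 336430) (nat_lit 29) (.e (nat_lit 442421) (nat_lit 21) (.e (nat_lit 164348) (nat_lit 240) (.e (nat_lit 2640) (nat_lit 165) .nil)))))) (.g (nat_lit 1) (.e (nat_lit 204988) (nat_lit 0) .nil) .nil))))) (.nd (nat_lit 8) (.nd (nat_lit 9) 
(.lf (nat_lit 513211) (.g (nat_lit 1883) (.e (nat_lit 188160) (nat_lit 19) (.e (nat_lit 647183) (nat_lit 4) (.e (nat_lit 172124) (nat_lit 14) (.e (nat_lit 491566) (nat_lit 12) (.e (nat_lit 392960) (nat_lit 13) .nil))))) (.g (nat_lit 0) (.e (nat_lit 203438) (nat_lit 0) .nil) .nil))) 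
(.lf (nat_lit 513723) (.g (nat_lit 3218) (.e (nat_lit 180277) (nat_lit 32) (.e (nat_lit 1660) (nat_lit 115) (.e (nat_lit 393282) (nat_lit 24) (.e (nat_lit 434209) (nat_lit 18) (.e (nat_lit 5547) (nat_lit 306) (.e (nat_lit 2638) (nat_lit 165) .nil)))))) (.g (nat_lit 1) (.e (nat_lit 204716) (nat_lit 0) .nil) .nil)))) (.nd (nat_lit 9) 
(.lf (nat_lit 513467) (.g (nat_lit 1250) (.e (nat_lit 180277) (nat_lit 32) (.e (nat_lit 1235) (nat_lit 91) (.e (nat_lit 90170) (nat_lit 13) (.e (nat_lit 172077) (nat_lit 7) .nil)))) (.g (nat_lit 0) (.e (nat_lit 204351) (nat_lit 0) .nil) .nil))) 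
(.lf (nat_lit 513979) (.g (nat_lit 2306) (.e (nat_lit 180278) (nat_lit 32) (.e (nat_lit 1660) (nat_lit 115) (.e (nat_lit 393281) (nat_lit 23) (.e (nat_lit 426107) (nat_lit 1) (.e (nat_lit 164345) (nat_lit 240) (.e (nat_lit 2639) (nat_lit 165) .nil)))))) (.g (nat_lit 1) (.e (nat_lit 205186) (nat_lit 0) .nil) .nil)))))) (.nd (nat_lit 7) (.nd (nat_lit 8) (.nd (nat_lit 9) 
(.lf (nat_lit 513147) (.g (nat_lit 2912) (.e (nat_lit 180252) (nat_lit 10) (.e (nat_lit 573489) (nat_lit 14) (.e (nat_lit 73755) (nat_lit 8) (.e (nat_lit 557090) (nat_lit 12) (.e (nat_lit 163849) (nat_lit 0) (.e (nat_lit 5945) (nat_lit 322) (.e (nat_lit 57371) (nat_lit 2) (.e (nat_lit 90173) (nat_lit 14) .nil)))))))) (.g (nat_lit 1) (.e (nat_lit 203270) (nat_lit 0) .nil) .nil))) 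
(.lf (nat_lit 513659) (.g (nat_lit 1668) (.e (nat_lit 180277) (nat_lit 32) (.e (nat_lit 1659) (nat_lit 115) (.e (nat_lit 393281) (nat_lit 23) (.e (nat_lit 426098) (nat_lit 1) (.e (nat_lit 164345) (nat_lit 240) (.e (nat_lit 2639) (nat_lit 165) .nil)))))) (.g (nat_lit 1) (.e (nat_lit 204631) (nat_lit 0) .nil) .nil)))) (.nd (nat_lit 9) 
(.lf (nat_lit 513403) (.g (nat_lit 171) (.e (nat_lit 188160) (nat_lit 26) (.e (nat_lit 704734) (nat_lit 11) (.e (nat_lit 16463) (nat_lit 13) .nil))) (.g (nat_lit 0) (.e (nat_lit 204204) (nat_lit 0) .nil) .nil))) 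
(.lf (nat_lit 513915) (.g (nat_lit 2063) (.e (nat_lit 180278) (nat_lit 32) (.e (nat_lit 1658) (nat_lit 115) (.e (nat_lit 393283) (nat_lit 24) (.e (nat_lit 434209) (nat_lit 18) (.e (nat_lit 5547) (nat_lit 306) (.e (nat_lit 2640) (nat_lit 165) .nil)))))) (.g (nat_lit 1) (.e (nat_lit 205095) (nat_lit 0) .nil) .nil))))) (.nd (nat_lit 8) (.nd (nat_lit 9) 
(.lf (nat_lit 513275) (.g (nat_lit 1903) (.e (nat_lit 180271) (nat_lit 26) (.e (nat_lit 704737) (nat_lit 11) (.e (nat_lit 16443) (nat_lit 9) (.e (nat_lit 426499) (nat_lit 27) (.e (nat_lit 335895) (nat_lit 0) .nil))))) (.g (nat_lit 0) (.e (nat_lit 203852) (nat_lit 0) .nil) .nil))) 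
(.lf (nat_lit 513787) (.g (nat_lit 1886) (.e (nat_lit 180278) (nat_lit 32) (.e (nat_lit 1252) (nat_lit 92) (.e (nat_lit 98373) (nat_lit 29) (.e (nat_lit 450568) (nat_lit 0) (.e (nat_lit 3978) (nat_lit 239) .nil))))) (.g (nat_lit 0) (.e (nat_lit 204915) (nat_lit 0) .nil) .nil)))) (.nd (nat_lit 9) 
(.lf (nat_lit 513531) (.g (nat_lit 1816) (.e (nat_lit 180277) (nat_lit 32) (.e (nat_lit 1426) (nat_lit 108) (.e (nat_lit 336434) (nat_lit 30) (.e (nat_lit 450564) (nat_lit 0) (.e (nat_lit 5546) (nat_lit 306) (.e (nat_lit 2639) (nat_lit 165) .nil)))))) (.g (nat_lit 1) (.e (nat_lit 204431) (nat_lit 0) .nil) .nil))) 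
(.lf (nat_lit 514043) (.g (nat_lit 2341) (.e (nat_lit 188160) (nat_lit 32) (.e (nat_lit 1239) (nat_lit 91) (.e (nat_lit 90170) (nat_lit 13) (.e (nat_lit 172115) (nat_lit 10) .nil)))) (.g (nat_lit 0) (.e (nat_lit 205407) (nat_lit 0) .nil) .nil)))))))))) (.nd (nat_lit 3) (.nd (nat_lit 4) (.nd (nat_lit 5) (.nd (nat_lit 6) (.nd (nat_lit 7) (.nd (nat_lit 8) (.nd (nat_lit 9) 
(.lf (nat_lit 513031) (.g (nat_lit 460) (.e (nat_lit 180252) (nat_lit 10) (.e (nat_lit 573449) (nat_lit 9) (.e (nat_lit 1669) (nat_lit 116) .nil))) (.g (nat_lit 0) (.e (nat_lit 202792) (nat_lit 0) .nil) .nil))) 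
(.lf (nat_lit 513543) (.g (nat_lit 2301) (.e (nat_lit 180277) (nat_lit 32) (.e (nat_lit 1426) (nat_lit 108) (.e (nat_lit 336443) (nat_lit 32) (.e (nat_lit 466972) (nat_lit 21) (.e (nat_lit 164345) (nat_lit 240) (.e (nat_lit 2639) (nat_lit 165) .nil)))))) (.g (nat_lit 1) (.e (nat_lit 204443) (nat_lit 0) .nil) .nil)))) (.nd (nat_lit 9) 
(.lf (nat_lit 513287) (.g (nat_lit 1989) (.e (nat_lit 180271) (nat_lit 26) (.e (nat_lit 704737) (nat_lit 11) (.e (nat_lit 16465) (nat_lit 13) (.e (nat_lit 483351) (nat_lit 17) (.e (nat_lit 7936) (nat_lit 362) .nil))))) (.g (nat_lit 1) (.e (nat_lit 203884) (nat_lit 0) .nil) .nil))) 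
(.lf (nat_lit 513799) (.g (nat_lit 2878) (.e (nat_lit 180278) (nat_lit 32) (.e (nat_lit 1253) (nat_lit 92) (.e (nat_lit 98373) (nat_lit 29) (.e (nat_lit 450560) (nat_lit 0) (.e (nat_lit 3918) (nat_lit 239) .nil))))) (.g (nat_lit 0) (.e (nat_lit 204928) (nat_lit 0) .nil) .nil))))) (.nd (nat_lit 8) (.nd (nat_lit 9) 
(.lf (nat_lit 513159) (.g (nat_lit 2858) (.e (nat_lit 180252) (nat_lit 10) (.e (nat_lit 573489) (nat_lit 14) (.e (nat_lit 73755) (nat_lit 8) (.e (nat_lit 557090) (nat_lit 12) (.e (nat_lit 163854) (nat_lit 0) (.e (nat_lit 5953) (nat_lit 322) (.e (nat_lit 57371) (nat_lit 2) (.e (nat_lit 90173) (nat_lit 14) .nil)))))))) (.g (nat_lit 1) (.e (nat_lit 203282) (nat_lit 0) .nil) .nil))) 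
(.lf (nat_lit 513671) (.g (nat_lit 2766) (.e (nat_lit 180277) (nat_lit 32) (.e (nat_lit 1659) (nat_lit 115) (.e (nat_lit 393282) (nat_lit 24) (.e (nat_lit 434209) (nat_lit 18) (.e (nat_lit 5546) (nat_lit 306) (.e (nat_lit 2640) (nat_lit 165) .nil)))))) (.g (nat_lit 1) (.e (nat_lit 204643) (nat_lit 0) .nil) .nil)))) (.nd (nat_lit 9) 
(.lf (nat_lit 513415) (.g (nat_lit 1691) (.e (nat_lit 188160) (nat_lit 27) (.e (nat_lit 712753) (nat_lit 30) (.e (nat_lit 450579) (nat_lit 5) (.e (nat_lit 532501) (nat_lit 1) (.e (nat_lit 57662) (nat_lit 152) .nil))))) (.g (nat_lit 0) (.e (nat_lit 204216) (nat_lit 0) .nil) .nil))) 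
(.lf (nat_lit 513927) (.g (nat_lit 865) (.e (nat_lit 180278) (nat_lit 32) (.e (nat_lit 1659) (nat_lit 115) (.e (nat_lit 393270) (nat_lit 23) (.e (nat_lit 426402) (nat_lit 15) .nil)))) (.g (nat_lit 0) (.e (nat_lit 205109) (nat_lit 0) .nil) .nil)))))) (.nd (nat_lit 7) (.nd (nat_lit 8) (.nd (nat_lit 9) 
(.lf (nat_lit 513095) (.g (nat_lit 5330) (.e (nat_lit 180252) (nat_lit 10) (.e (nat_lit 573475) (nat_lit 12) (.e (nat_lit 57503) (nat_lit 38) (.e (nat_lit 638995) (nat_lit 7) (.e (nat_lit 163977) (nat_lit 30) (.e (nat_lit 573489) (nat_lit 14) (.e (nat_lit 73754) (nat_lit 8) (.e (nat_lit 557105) (nat_lit 14) .nil)))))))) (.g (nat_lit 1) (.e (nat_lit 203032) (nat_lit 0) .nil) .nil))) 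
(.lf (nat_lit 513607) (.g (nat_lit 2356) (.e (nat_lit 180277) (nat_lit 32) (.e (nat_lit 1428) (nat_lit 108) (.e (nat_lit 336434) (nat_lit 30) (.e (nat_lit 450564) (nat_lit 0) (.e (nat_lit 5546) (nat_lit 306) (.e (nat_lit 2639) (nat_lit 165) .nil)))))) (.g (nat_lit 1) (.e (nat_lit 204563) (nat_lit 0) .nil) .nil)))) (.nd (nat_lit 9) 
(.lf (nat_lit 513351) (.g (nat_lit 405) (.e (nat_lit 180272) (nat_lit 26) (.e (nat_lit 704629) (nat_lit 9) (.e (nat_lit 433) (nat_lit 32) .nil))) (.g (nat_lit 0) (.e (nat_lit 204010) (nat_lit 0) .nil) .nil))) 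
(.lf (nat_lit 513863) (.g (nat_lit 2056) (.e (nat_lit 180278) (nat_lit 32) (.e (nat_lit 1426) (nat_lit 108) (.e (nat_lit 336443) (nat_lit 32) (.e (nat_lit 466971) (nat_lit 21) (.e (nat_lit 164345) (nat_lit 240) (.e (nat_lit 2640) (nat_lit 165) .nil)))))) (.g (nat_lit 1) (.e (nat_lit 205002) (nat_lit 0) .nil) .nil))))) (.nd (nat_lit 8) (.nd (nat_lit 9) 
(.lf (nat_lit 513223) (.g (nat_lit 1400) (.e (nat_lit 180269) (nat_lit 25) (.e (nat_lit 696344) (nat_lit 8) (.e (nat_lit 172094) (nat_lit 9) (.e (nat_lit 426528) (nat_lit 27) (.e (nat_lit 335894) (nat_lit 0) .nil))))) (.g (nat_lit 0) (.e (nat_lit 203584) (nat_lit 0) .nil) .nil))) 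
(.lf (nat_lit 513735) (.g (nat_lit 2562) (.e (nat_lit 180277) (nat_lit 32) (.e (nat_lit 1660) (nat_lit 115) (.e (nat_lit 393286) (nat_lit 25) (.e (nat_lit 458774) (nat_lit 18) (.e (nat_lit 5548) (nat_lit 306) (.e (nat_lit 2640) (nat_lit 165) .nil)))))) (.g (nat_lit 1) (.e (nat_lit 204731) (nat_lit 0) .nil) .nil)))) (.nd (nat_lit 9) 
(.lf (nat_lit 513479) (.g (nat_lit 2985) (.e (nat_lit 180277) (nat_lit 32) (.e (nat_lit 1252) (nat_lit 92) (.e (nat_lit 98373) (nat_lit 29) (.e (nat_lit 450563) (nat_lit 0) (.e (nat_lit 3919) (nat_lit 239) .nil))))) (.g (nat_lit 0) (.e (nat_lit 204365) (nat_lit 0) .nil) .nil))) 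
(.lf (nat_lit 513991) (.g (nat_lit 785) (.e (nat_lit 180278) (nat_lit 32) (.e (nat_lit 1660) (nat_lit 115) (.e (nat_lit 393294) (nat_lit 26) (.e (nat_lit 475204) (nat_lit 40) .nil)))) (.g (nat_lit 0) (.e (nat_lit 205205) (nat_lit 0) .nil) .nil))))))) (.nd (nat_lit 6) (.nd (nat_lit 7) (.nd (nat_lit 8) (.nd (nat_lit 9) 
(.lf (nat_lit 513063) (.g (nat_lit 2288) (.e (nat_lit 180252) (nat_lit 10) (.e (nat_lit 573471) (nat_lit 11) (.e (nat_lit 16448) (nat_lit 10) (.e (nat_lit 434217) (nat_lit 19) .nil)))) (.g (nat_lit 0) (.e (nat_lit 202945) (nat_lit 0) .nil) .nil))) 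
(.lf (nat_lit 513575) (.g (nat_lit 2739) (.e (nat_lit 180277) (nat_lit 32) (.e (nat_lit 1427) (nat_lit 108) (.e (nat_lit 336443) (nat_lit 32) (.e (nat_lit 466969) (nat_lit 21) (.e (nat_lit 164348) (nat_lit 240) (.e (nat_lit 2639) (nat_lit 165) .nil)))))) (.g (nat_lit 1) (.e (nat_lit 204522) (nat_lit 0) .nil) .nil)))) (.nd (nat_lit 9) 
(.lf (nat_lit 513319) (.g (nat_lit 1222) (.e (nat_lit 180271) (nat_lit 26) (.e (nat_lit 704738) (nat_lit 11) (.e (nat_lit 16440) (nat_lit 9) (.e (nat_lit 426367) (nat_lit 15) .nil)))) (.g (nat_lit 0) (.e (nat_lit 203939) (nat_lit 0) .nil) .nil))) 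
(.lf (nat_lit 513831) (.g (nat_lit 2973) (.e (nat_lit 180278) (nat_lit 32) (.e (nat_lit 1425) (nat_lit 108) (.e (nat_lit 336443) (nat_lit 32) (.e (nat_lit 466969) (nat_lit 21) (.e (nat_lit 164345) (nat_lit 240) (.e (nat_lit 2638) (nat_lit 165) .nil)))))) (.g (nat_lit 1) (.e (nat_lit 204966) (nat_lit 0) .nil) .nil))))) (.nd (nat_lit 8) (.nd (nat_lit 9) 
(.lf (nat_lit 513191) (.g (nat_lit 711) (.e (nat_lit 180248) (nat_lit 9) (.e (nat_lit 565267) (nat_lit 4) (.e (nat_lit 65599) (nat_lit 9) (.e (nat_lit 343808) (nat_lit 33) .nil)))) (.g (nat_lit 0) (.e (nat_lit 203399) (nat_lit 0) .nil) .nil))) 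
(.lf (nat_lit 513703) (.g (nat_lit 1430) (.e (nat_lit 180277) (nat_lit 32) (.e (nat_lit 1660) (nat_lit 115) (.e (nat_lit 393277) (nat_lit 23) (.e (nat_lit 426109) (nat_lit 1) (.e (nat_lit 164346) (nat_lit 240) (.e (nat_lit 2639) (nat_lit 165) .nil)))))) (.g (nat_lit 1) (.e (nat_lit 204694) (nat_lit 0) .nil) .nil)))) (.nd (nat_lit 9) 
(.lf (nat_lit 513447) (.g (nat_lit 1150) (.e (nat_lit 188160) (nat_lit 28) (.e (nat_lit 720909) (nat_lit 11) (.e (nat_lit 426198) (nat_lit 9) (.e (nat_lit 426550) (nat_lit 31) (.e (nat_lit 376576) (nat_lit 5) .nil))))) (.g (nat_lit 0) (.e (nat_lit 204252) (nat_lit 0) .nil) .nil))) 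
(.lf (nat_lit 513959) (.g (nat_lit 869) (.e (nat_lit 180278) (nat_lit 32) (.e (nat_lit 1659) (nat_lit 115) (.e (nat_lit 393284) (nat_lit 24) (.e (nat_lit 434272) (nat_lit 38) .nil)))) (.g (nat_lit 0) (.e (nat_lit 205149) (nat_lit 0) .nil) .nil)))))) (.nd (nat_lit 7) (.nd (nat_lit 8) (.nd (nat_lit 9) 
(.lf (nat_lit 513127) (.g (nat_lit 3355) (.e (nat_lit 180252) (nat_lit 10) (.e (nat_lit 573489) (nat_lit 14) (.e (nat_lit 73755) (nat_lit 8) (.e (nat_lit 557067) (nat_lit 9) (.e (nat_lit 2604) (nat_lit 163) (.e (nat_lit 164398) (nat_lit 256) (.e (nat_lit 57373) (nat_lit 2) (.e (nat_lit 90173) (nat_lit 14) .nil)))))))) (.g (nat_lit 1) (.e (nat_lit 203241) (nat_lit 0) .nil) .nil))) 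
(.lf (nat_lit 513639) (.g (nat_lit 2633) (.e (nat_lit 180277) (nat_lit 32) (.e (nat_lit 1659) (nat_lit 115) (.e (nat_lit 393266) (nat_lit 23) (.e (nat_lit 426109) (nat_lit 1) (.e (nat_lit 164347) (nat_lit 240) (.e (nat_lit 2638) (nat_lit 165) .nil)))))) (.g (nat_lit 1) (.e (nat_lit 204603) (nat_lit 0) .nil) .nil)))) (.nd (nat_lit 9) 
(.lf (nat_lit 513383) (.g (nat_lit 1197) (.e (nat_lit 180272) (nat_lit 26) (.e (nat_lit 704738) (nat_lit 11) (.e (nat_lit 16436) (nat_lit 9) (.e (nat_lit 426530) (nat_lit 27) .nil)))) (.g (nat_lit 0) (.e (nat_lit 204141) (nat_lit 0) .nil) .nil))) 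
(.lf (nat_lit 513895) (.g (nat_lit 3057) (.e (nat_lit 180278) (nat_lit 32) (.e (nat_lit 1428) (nat_lit 108) (.e (nat_lit 336443) (nat_lit 32) (.e (nat_lit 466969) (nat_lit 21) (.e (nat_lit 164348) (nat_lit 240) (.e (nat_lit 2640) (nat_lit 165) .nil)))))) (.g (nat_lit 1) (.e (nat_lit 205066) (nat_lit 0) .nil) .nil))))) (.nd (nat_lit 8) (.nd (nat_lit 9) 
(.lf (nat_lit 513255) (.g (nat_lit 1770) (.e (nat_lit 180271) (nat_lit 26) (.e (nat_lit 704737) (nat_lit 11) (.e (nat_lit 16434) (nat_lit 9) (.e (nat_lit 426533) (nat_lit 28) (.e (nat_lit 352000) (nat_lit 5) .nil))))) (.g (nat_lit 0) (.e (nat_lit 203826) (nat_lit 0) .nil) .nil))) 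
(.lf (nat_lit 513767) (.g (nat_lit 983) (.e (nat_lit 180278) (nat_lit 32) (.e (nat_lit 1235) (nat_lit 91) (.e (nat_lit 90134) (nat_lit 9) (.e (nat_lit 3002) (nat_lit 186) .nil)))) (.g (nat_lit 0) (.e (nat_lit 204894) (nat_lit 0) .nil) .nil)))) (.nd (nat_lit 9) 
(.lf (nat_lit 513511) (.g (nat_lit 3713) (.e (nat_lit 180277) (nat_lit 32) (.e (nat_lit 1253) (nat_lit 92) (.e (nat_lit 98373) (nat_lit 29) (.e (nat_lit 450569) (nat_lit 0) (.e (nat_lit 3978) (nat_lit 239) (.e (nat_lit 2638) (nat_lit 165) .nil)))))) (.g (nat_lit 1) (.e (nat_lit 204399) (nat_lit 0) .nil) .nil))) 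
(.lf (nat_lit 514023) (.g (nat_lit 2413) (.e (nat_lit 180278) (nat_lit 32) (.e (nat_lit 1661) (nat_lit 115) (.e (nat_lit 393291) (nat_lit 26) (.e (nat_lit 475200) (nat_lit 40) .nil)))) (.g (nat_lit 0) (.e (nat_lit 205336) (nat_lit 0) .nil) .nil)))))))) (.nd (nat_lit 5) (.nd (nat_lit 6) (.nd (nat_lit 7) (.nd (nat_lit 8) (.nd (nat_lit 9) 
(.lf (nat_lit 513047) (.g (nat_lit 1725) (.e (nat_lit 180252) (nat_lit 10) (.e (nat_lit 573471) (nat_lit 11) (.e (nat_lit 16388) (nat_lit 0) (.e (nat_lit 7382) (nat_lit 391) .nil)))) (.g (nat_lit 0) (.e (nat_lit 202896) (nat_lit 0) .nil) .nil))) 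
(.lf (nat_lit 513559) (.g (nat_lit 3238) (.e (nat_lit 180277) (nat_lit 32) (.e (nat_lit 1427) (nat_lit 108) (.e (nat_lit 336430) (nat_lit 29) (.e (nat_lit 442419) (nat_lit 21) (.e (nat_lit 164347) (nat_lit 240) (.e (nat_lit 2640) (nat_lit 165) .nil)))))) (.g (nat_lit 1) (.e (nat_lit 204494) (nat_lit 0) .nil) .nil)))) (.nd (nat_lit 9) 
(.lf (nat_lit 513303) (.g (nat_lit 1593) (.e (nat_lit 180271) (nat_lit 26) (.e (nat_lit 704738) (nat_lit 11) (.e (nat_lit 16431) (nat_lit 9) (.e (nat_lit 426528) (nat_lit 27) (.e (nat_lit 335895) (nat_lit 0) .nil))))) (.g (nat_lit 0) (.e (nat_lit 203917) (nat_lit 0) .nil) .nil))) 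
(.lf (nat_lit 513815) (.g (nat_lit 1681) (.e (nat_lit 180278) (nat_lit 32) (.e (nat_lit 1253) (nat_lit 92) (.e (nat_lit 98373) (nat_lit 29) (.e (nat_lit 450565) (nat_lit 0) .nil)))) (.g (nat_lit 0) (.e (nat_lit 204944) (nat_lit 0) .nil) .nil))))) (.nd (nat_lit 8) (.nd (nat_lit 9) 
(.lf (nat_lit 513175) (.g (nat_lit 751) (.e (nat_lit 180252) (nat_lit 10) (.e (nat_lit 573503) (nat_lit 18) (.e (nat_lit 1348) (nat_lit 102) (.e (nat_lit 286761) (nat_lit 13) .nil)))) (.g (nat_lit 0) (.e (nat_lit 203381) (nat_lit 0) .nil) .nil))) 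
(.lf (nat_lit 513687) (.g (nat_lit 403) (.e (nat_lit 180277) (nat_lit 32) (.e (nat_lit 1659) (nat_lit 115) (.e (nat_lit 393296) (nat_lit 26) .nil))) (.g (nat_lit 0) (.e (nat_lit 204666) (nat_lit 0) .nil) .nil)))) (.nd (nat_lit 9) 
(.lf (nat_lit 513431) (.g (nat_lit 520) (.e (nat_lit 188160) (nat_lit 28) (.e (nat_lit 720907) (nat_lit 11) (.e (nat_lit 426262) (nat_lit 9) (.e (nat_lit 426532) (nat_lit 28) (.e (nat_lit 352000) (nat_lit 5) .nil))))) (.g (nat_lit 0) (.e (nat_lit 204235) (nat_lit 0) .nil) .nil))) 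
(.lf (nat_lit 513943) (.g (nat_lit 2400) (.e (nat_lit 180278) (nat_lit 32) (.e (nat_lit 1659) (nat_lit 115) (.e (nat_lit 393281) (nat_lit 23) (.e (nat_lit 426107) (nat_lit 1) (.e (nat_lit 164345) (nat_lit 240) (.e (nat_lit 2639) (nat_lit 165) .nil)))))) (.g (nat_lit 1) (.e (nat_lit 205130) (nat_lit 0) .nil) .nil)))))) (.nd (nat_lit 7) (.nd (nat_lit 8) (.nd (nat_lit 9) 
(.lf (nat_lit 513111) (.g (nat_lit 3102) (.e (nat_lit 180252) (nat_lit 10) (.e (nat_lit 573489) (nat_lit 14) (.e (nat_lit 73747) (nat_lit 3) (.e (nat_lit 516115) (nat_lit 1) (.e (nat_lit 164160) (nat_lit 152) .nil))))) (.g (nat_lit 0) (.e (nat_lit 203212) (nat_lit 0) .nil) .nil))) 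
(.lf (nat_lit 513623) (.g (nat_lit 2256) (.e (nat_lit 180277) (nat_lit 32) (.e (nat_lit 1658) (nat_lit 115) (.e (nat_lit 393271) (nat_lit 23) (.e (nat_lit 426354) (nat_lit 15) (.e (nat_lit 2064) (nat_lit 142) .nil))))) (.g (nat_lit 0) (.e (nat_lit 204583) (nat_lit 0) .nil) .nil)))) (.nd (nat_lit 9) 
(.lf (nat_lit 513367) (.g (nat_lit 491) (.e (nat_lit 180272) (nat_lit 26) (.e (nat_lit 704737) (nat_lit 11) (.e (nat_lit 16439) (nat_lit 9) .nil))) (.g (nat_lit 0) (.e (nat_lit 204087) (nat_lit 0) .nil) .nil))) 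
(.lf (nat_lit 513879) (.g (nat_lit 318) (.e (nat_lit 180278) (nat_lit 32) (.e (nat_lit 1428) (nat_lit 108) (.e (nat_lit 336430) (nat_lit 29) .nil))) (.g (nat_lit 0) (.e (nat_lit 205049) (nat_lit 0) .nil) .nil))))) (.nd (nat_lit 8) (.nd (nat_lit 9) 
(.lf (nat_lit 513239) (.g (nat_lit 1655) (.e (nat_lit 180271) (nat_lit 26) (.e (nat_lit 704736) (nat_lit 11) (.e (nat_lit 16465) (nat_lit 13) (.e (nat_lit 483354) (nat_lit 17) (.e (nat_lit 7936) (nat_lit 362) .nil))))) (.g (nat_lit 1) (.e (nat_lit 203800) (nat_lit 0) .nil) .nil))) 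
(.lf (nat_lit 513751) (.g (nat_lit 2842) (.e (nat_lit 180277) (nat_lit 32) (.e (nat_lit 1661) (nat_lit 115) (.e (nat_lit 393279) (nat_lit 23) (.e (nat_lit 426110) (nat_lit 1) (.e (nat_lit 164348) (nat_lit 240) (.e (nat_lit 2640) (nat_lit 165) .nil)))))) (.g (nat_lit 1) (.e (nat_lit 204850) (nat_lit 0) .nil) .nil)))) (.nd (nat_lit 9) 
(.lf (nat_lit 513495) (.g (nat_lit 2870) (.e (nat_lit 180277) (nat_lit 32) (.e (nat_lit 1253) (nat_lit 92) (.e (nat_lit 98373) (nat_lit 29) (.e (nat_lit 450560) (nat_lit 0) (.e (nat_lit 3988) (nat_lit 239) .nil))))) (.g (nat_lit 0) (.e (nat_lit 204383) (nat_lit 0) .nil) .nil))) 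
(.lf (nat_lit 514007) (.g (nat_lit 2789) (.e (nat_lit 180278) (nat_lit 32) (.e (nat_lit 1661) (nat_lit 115) (.e (nat_lit 393282) (nat_lit 24) (.e (nat_lit 434209) (nat_lit 18) (.e (nat_lit 5546) (nat_lit 306) (.e (nat_lit 2640) (nat_lit 165) .nil)))))) (.g (nat_lit 1) (.e (nat_lit 205310) (nat_lit 0) .nil) .nil))))))) (.nd (nat_lit 6) (.nd (nat_lit 7) (.nd (nat_lit 8) (.nd (nat_lit 9) 
(.lf (nat_lit 513079) (.g (nat_lit 2876) (.e (nat_lit 180252) (nat_lit 10) (.e (nat_lit 573471) (nat_lit 11) (.e (nat_lit 16452) (nat_lit 11) (.e (nat_lit 458789) (nat_lit 23) (.e (nat_lit 532482) (nat_lit 0) (.e (nat_lit 6724) (nat_lit 362) .nil)))))) (.g (nat_lit 1) (.e (nat_lit 202975) (nat_lit 0) .nil) .nil))) 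
(.lf (nat_lit 513591) (.g (nat_lit 3176) (.e (nat_lit 180277) (nat_lit 32) (.e (nat_lit 1428) (nat_lit 108) (.e (nat_lit 336430) (nat_lit 29) (.e (nat_lit 442419) (nat_lit 21) (.e (nat_lit 164347) (nat_lit 240) (.e (nat_lit 2638) (nat_lit 165) .nil)))))) (.g (nat_lit 1) (.e (nat_lit 204543) (nat_lit 0) .nil) .nil)))) (.nd (nat_lit 9) 
(.lf (nat_lit 513335) (.g (nat_lit 1514) (.e (nat_lit 180271) (nat_lit 26) (.e (nat_lit 704738) (nat_lit 11) (.e (nat_lit 16464) (nat_lit 13) (.e (nat_lit 483347) (nat_lit 17) (.e (nat_lit 7936) (nat_lit 362) .nil))))) (.g (nat_lit 1) (.e (nat_lit 203972) (nat_lit 0) .nil) .nil))) 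
(.lf (nat_lit 513847) (.g (nat_lit 896) (.e (nat_lit 180278) (nat_lit 32) (.e (nat_lit 1426) (nat_lit 108) (.e (nat_lit 336430) (nat_lit 29) (.e (nat_lit 442378) (nat_lit 0) .nil)))) (.g (nat_lit 0) (.e (nat_lit 204983) (nat_lit 0) .nil) .nil))))) (.nd (nat_lit 8) (.nd (nat_lit 9) 
(.lf (nat_lit 513207) (.g (nat_lit 2505) (.e (nat_lit 180265) (nat_lit 21) (.e (nat_lit 663583) (nat_lit 11) (.e (nat_lit 24617) (nat_lit 7) (.e (nat_lit 319533) (nat_lit 16) (.e (nat_lit 286721) (nat_lit 0) .nil))))) (.g (nat_lit 0) (.e (nat_lit 203431) (nat_lit 0) .nil) .nil))) 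
(.lf (nat_lit 513719) (.g (nat_lit 3150) (.e (nat_lit 180277) (nat_lit 32) (.e (nat_lit 1660) (nat_lit 115) (.e (nat_lit 393281) (nat_lit 23) (.e (nat_lit 426108) (nat_lit 1) (.e (nat_lit 164345) (nat_lit 240) (.e (nat_lit 2638) (nat_lit 165) .nil)))))) (.g (nat_lit 1) (.e (nat_lit 204711) (nat_lit 0) .nil) .nil)))) (.nd (nat_lit 9) 
(.lf (nat_lit 513463) (.g (nat_lit 1183) (.e (nat_lit 180277) (nat_lit 32) (.e (nat_lit 1234) (nat_lit 91) (.e (nat_lit 90170) (nat_lit 13) (.e (nat_lit 172106) (nat_lit 10) .nil)))) (.g (nat_lit 0) (.e (nat_lit 204347) (nat_lit 0) .nil) .nil))) 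
(.lf (nat_lit 513975) (.g (nat_lit 2142) (.e (nat_lit 180278) (nat_lit 32) (.e (nat_lit 1660) (nat_lit 115) (.e (nat_lit 393281) (nat_lit 23) (.e (nat_lit 426098) (nat_lit 1) (.e (nat_lit 164348) (nat_lit 240) (.e (nat_lit 2639) (nat_lit 165) .nil)))))) (.g (nat_lit 1) (.e (nat_lit 205182) (nat_lit 0) .nil) .nil)))))) (.nd (nat_lit 7) (.nd (nat_lit 8) (.nd (nat_lit 9) 
(.lf (nat_lit 513143) (.g (nat_lit 3171) (.e (nat_lit 180252) (nat_lit 10) (.e (nat_lit 573489) (nat_lit 14) (.e (nat_lit 73755) (nat_lit 8) (.e (nat_lit 557090) (nat_lit 12) (.e (nat_lit 163843) (nat_lit 0) (.e (nat_lit 5943) (nat_lit 322) (.e (nat_lit 57374) (nat_lit 2) (.e (nat_lit 90171) (nat_lit 14) .nil)))))))) (.g (nat_lit 1) (.e (nat_lit 203266) (nat_lit 0) .nil) .nil))) 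
(.lf (nat_lit 513655) (.g (nat_lit 1251) (.e (nat_lit 180277) (nat_lit 32) (.e (nat_lit 1659) (nat_lit 115) (.e (nat_lit 393277) (nat_lit 23) (.e (nat_lit 426109) (nat_lit 1) (.e (nat_lit 164346) (nat_lit 240) (.e (nat_lit 2639) (nat_lit 165) .nil)))))) (.g (nat_lit 1) (.e (nat_lit 204626) (nat_lit 0) .nil) .nil)))) (.nd (nat_lit 9) 
(.lf (nat_lit 513399) (.g (nat_lit 1832) (.e (nat_lit 180272) (nat_lit 26) (.e (nat_lit 704738) (nat_lit 11) (.e (nat_lit 16466) (nat_lit 13) (.e (nat_lit 483361) (nat_lit 17) (.e (nat_lit 7936) (nat_lit 362) .nil))))) (.g (nat_lit 1) (.e (nat_lit 204178) (nat_lit 0) .nil) .nil))) 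
(.lf (nat_lit 513911) (.g (nat_lit 785) (.e (nat_lit 180278) (nat_lit 32) (.e (nat_lit 1658) (nat_lit 115) (.e (nat_lit 393281) (nat_lit 23) (.e (nat_lit 426413) (nat_lit 15) .nil)))) (.g (nat_lit 0) (.e (nat_lit 205090) (nat_lit 0) .nil) .nil))))) (.nd (nat_lit 8) (.nd (nat_lit 9) 
(.lf (nat_lit 513271) (.g (nat_lit 997) (.e (nat_lit 180271) (nat_lit 26) (.e (nat_lit 704737) (nat_lit 11) (.e (nat_lit 16439) (nat_lit 9) (.e (nat_lit 426513) (nat_lit 27) .nil)))) (.g (nat_lit 0) (.e (nat_lit 203846) (nat_lit 0) .nil) .nil))) 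
(.lf (nat_lit 513783) (.g (nat_lit 1397) (.e (nat_lit 180278) (nat_lit 32) (.e (nat_lit 1252) (nat_lit 92) (.e (nat_lit 98373) (nat_lit 29) (.e (nat_lit 450563) (nat_lit 0) .nil)))) (.g (nat_lit 0) (.e (nat_lit 204911) (nat_lit 0) .nil) .nil)))) (.nd (nat_lit 9) 
(.lf (nat_lit 513527) (.g (nat_lit 769) (.e (nat_lit 180277) (nat_lit 32) (.e (nat_lit 1426) (nat_lit 108) (.e (nat_lit 336428) (nat_lit 29) (.e (nat_lit 450304) (nat_lit 4) .nil)))) (.g (nat_lit 0) (.e (nat_lit 204423) (nat_lit 0) .nil) .nil))) 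
(.lf (nat_lit 514039) (.g (nat_lit 1342) (.e (nat_lit 188160) (nat_lit 32) (.e (nat_lit 1239) (nat_lit 91) (.e (nat_lit 90134) (nat_lit 9) (.e (nat_lit 2914) (nat_lit 184) .nil)))) (.g (nat_lit 0) (.e (nat_lit 205403) (nat_lit 0) .nil) .nil))))))))) (.nd (nat_lit 4) (.nd (nat_lit 5) (.nd (nat_lit 6) (.nd (nat_lit 7) (.nd (nat_lit 8) (.nd (nat_lit 9) 
(.lf (nat_lit 513039) (.g (nat_lit 1229) (.e (nat_lit 180252) (nat_lit 10) (.e (nat_lit 573469) (nat_lit 11) (.e (nat_lit 16446) (nat_lit 9) (.e (nat_lit 426116) (nat_lit 2) .nil)))) (.g (nat_lit 0) (.e (nat_lit 202880) (nat_lit 0) .nil) .nil))) 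
(.lf (nat_lit 513551) (.g (nat_lit 1551) (.e (nat_lit 180277) (nat_lit 32) (.e (nat_lit 1427) (nat_lit 108) (.e (nat_lit 336428) (nat_lit 29) (.e (nat_lit 442373) (nat_lit 0) .nil)))) (.g (nat_lit 0) (.e (nat_lit 204479) (nat_lit 0) .nil) .nil)))) (.nd (nat_lit 9) 
(.lf (nat_lit 513295) (.g (nat_lit 1290) (.e (nat_lit 180271) (nat_lit 26) (.e (nat_lit 704737) (nat_lit 11) (.e (nat_lit 16468) (nat_lit 13) (.e (nat_lit 483359) (nat_lit 17) .nil)))) (.g (nat_lit 0) (.e (nat_lit 203898) (nat_lit 0) .nil) .nil))) 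
(.lf (nat_lit 513807) (.g (nat_lit 3187) (.e (nat_lit 180278) (nat_lit 32) (.e (nat_lit 1253) (nat_lit 92) (.e (nat_lit 98373) (nat_lit 29) (.e (nat_lit 450560) (nat_lit 0) (.e (nat_lit 3991) (nat_lit 239) (.e (nat_lit 2639) (nat_lit 165) .nil)))))) (.g (nat_lit 1) (.e (nat_lit 204936) (nat_lit 0) .nil) .nil))))) (.nd (nat_lit 8) (.nd (nat_lit 9) 
(.lf (nat_lit 513167) (.g (nat_lit 2497) (.e (nat_lit 180252) (nat_lit 10) (.e (nat_lit 573489) (nat_lit 14) (.e (nat_lit 73755) (nat_lit 8) (.e (nat_lit 557119) (nat_lit 18) (.e (nat_lit 2796) (nat_lit 180) (.e (nat_lit 303108) (nat_lit 0) (.e (nat_lit 7936) (nat_lit 200) (.e (nat_lit 557105) (nat_lit 14) .nil)))))))) (.g (nat_lit 1) (.e (nat_lit 203348) (nat_lit 0) .nil) .nil))) 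
(.lf (nat_lit 513679) (.g (nat_lit 3358) (.e (nat_lit 180277) (nat_lit 32) (.e (nat_lit 1659) (nat_lit 115) (.e (nat_lit 393283) (nat_lit 24) (.e (nat_lit 434209) (nat_lit 18) (.e (nat_lit 5548) (nat_lit 306) (.e (nat_lit 2640) (nat_lit 165) .nil)))))) (.g (nat_lit 1) (.e (nat_lit 204653) (nat_lit 0) .nil) .nil)))) (.nd (nat_lit 9) 
(.lf (nat_lit 513423) (.g (nat_lit 455) (.e (nat_lit 188160) (nat_lit 28) (.e (nat_lit 720907) (nat_lit 11) (.e (nat_lit 426230) (nat_lit 9) (.e (nat_lit 426549) (nat_lit 31) (.e (nat_lit 376576) (nat_lit 5) .nil))))) (.g (nat_lit 0) (.e (nat_lit 204224) (nat_lit 0) .nil) .nil))) 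
(.lf (nat_lit 513935) (.g (nat_lit 1722) (.e (nat_lit 180278) (nat_lit 32) (.e (nat_lit 1659) (nat_lit 115) (.e (nat_lit 393279) (nat_lit 23) (.e (nat_lit 426110) (nat_lit 1) (.e (nat_lit 164348) (nat_lit 240) (.e (nat_lit 2639) (nat_lit 165) .nil)))))) (.g (nat_lit 1) (.e (nat_lit 205120) (nat_lit 0) .nil) .nil)))))) (.nd (nat_lit 7) (.nd (nat_lit 8) (.nd (nat_lit 9) 
(.lf (nat_lit 513103) (.g (nat_lit 1749) (.e (nat_lit 180252) (nat_lit 10) (.e (nat_lit 573487) (nat_lit 14) (.e (nat_lit 73753) (nat_lit 8) (.e (nat_lit 557093) (nat_lit 12) (.e (nat_lit 163857) (nat_lit 0) .nil))))) (.g (nat_lit 0) (.e (nat_lit 203181) (nat_lit 0) .nil) .nil))) 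
(.lf (nat_lit 513615) (.g (nat_lit 2379) (.e (nat_lit 180277) (nat_lit 32) (.e (nat_lit 1428) (nat_lit 108) (.e (nat_lit 336443) (nat_lit 32) (.e (nat_lit 466971) (nat_lit 21) (.e (nat_lit 164345) (nat_lit 240) (.e (nat_lit 2640) (nat_lit 165) .nil)))))) (.g (nat_lit 1) (.e (nat_lit 204572) (nat_lit 0) .nil) .nil)))) (.nd (nat_lit 9) 
(.lf (nat_lit 513359) (.g (nat_lit 520) (.e (nat_lit 180272) (nat_lit 26) (.e (nat_lit 704737) (nat_lit 11) (.e (nat_lit 16433) (nat_lit 9) .nil))) (.g (nat_lit 0) (.e (nat_lit 204079) (nat_lit 0) .nil) .nil))) 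
(.lf (nat_lit 513871) (.g (nat_lit 2909) (.e (nat_lit 180278) (nat_lit 32) (.e (nat_lit 1427) (nat_lit 108) (.e (nat_lit 336430) (nat_lit 29) (.e (nat_lit 442419) (nat_lit 21) (.e (nat_lit 164347) (nat_lit 240) (.e (nat_lit 2640) (nat_lit 165) .nil)))))) (.g (nat_lit 1) (.e (nat_lit 205030) (nat_lit 0) .nil) .nil))))) (.nd (nat_lit 8) (.nd (nat_lit 9) 
(.lf (nat_lit 513231) (.g (nat_lit 3018) (.e (nat_lit 180271) (nat_lit 26) (.e (nat_lit 704629) (nat_lit 9) (.e (nat_lit 375) (nat_lit 32) (.e (nat_lit 426201) (nat_lit 9) (.e (nat_lit 426535) (nat_lit 28) (.e (nat_lit 352000) (nat_lit 5) .nil)))))) (.g (nat_lit 1) (.e (nat_lit 203690) (nat_lit 0) .nil) .nil))) 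
(.lf (nat_lit 513743) (.g (nat_lit 1581) (.e (nat_lit 180277) (nat_lit 32) (.e (nat_lit 1661) (nat_lit 115) (.e (nat_lit 393268) (nat_lit 23) (.e (nat_lit 426112) (nat_lit 1) .nil)))) (.g (nat_lit 0) (.e (nat_lit 204816) (nat_lit 0) .nil) .nil)))) (.nd (nat_lit 9) 
(.lf (nat_lit 513487) (.g (nat_lit 1502) (.e (nat_lit 180277) (nat_lit 32) (.e (nat_lit 1253) (nat_lit 92) (.e (nat_lit 98373) (nat_lit 29) (.e (nat_lit 450560) (nat_lit 0) .nil)))) (.g (nat_lit 0) (.e (nat_lit 204375) (nat_lit 0) .nil) .nil))) 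
(.lf (nat_lit 513999) (.g (nat_lit 2444) (.e (nat_lit 180278) (nat_lit 32) (.e (nat_lit 1661) (nat_lit 115) (.e (nat_lit 393274) (nat_lit 23) (.e (nat_lit 426097) (nat_lit 1) (.e (nat_lit 164348) (nat_lit 240) (.e (nat_lit 2640) (nat_lit 165) .nil)))))) (.g (nat_lit 1) (.e (nat_lit 205281) (nat_lit 0) .nil) .nil))))))) (.nd (nat_lit 6) (.nd (nat_lit 7) (.nd (nat_lit 8) (.nd (nat_lit 9) 
(.lf (nat_lit 513071) (.g (nat_lit 466) (.e (nat_lit 180252) (nat_lit 10) (.e (nat_lit 573471) (nat_lit 11) (.e (nat_lit 16449) (nat_lit 10) .nil))) (.g (nat_lit 0) (.e (nat_lit 202962) (nat_lit 0) .nil) .nil))) 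
(.lf (nat_lit 513583) (.g (nat_lit 3472) (.e (nat_lit 180277) (nat_lit 32) (.e (nat_lit 1427) (nat_lit 108) (.e (nat_lit 336443) (nat_lit 32) (.e (nat_lit 466971) (nat_lit 21) (.e (nat_lit 164348) (nat_lit 240) (.e (nat_lit 2640) (nat_lit 165) .nil)))))) (.g (nat_lit 1) (.e (nat_lit 204530) (nat_lit 0) .nil) .nil)))) (.nd (nat_lit 9) 
(.lf (nat_lit 513327) (.g (nat_lit 2752) (.e (nat_lit 180271) (nat_lit 26) (.e (nat_lit 704738) (nat_lit 11) (.e (nat_lit 16463) (nat_lit 13) (.e (nat_lit 483345) (nat_lit 17) (.e (nat_lit 6724) (nat_lit 362) .nil))))) (.g (nat_lit 1) (.e (nat_lit 203964) (nat_lit 0) .nil) .nil))) 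
(.lf (nat_lit 513839) (.g (nat_lit 1887) (.e (nat_lit 180278) (nat_lit 32) (.e (nat_lit 1425) (nat_lit 108) (.e (nat_lit 336443) (nat_lit 32) (.e (nat_lit 466971) (nat_lit 21) (.e (nat_lit 164345) (nat_lit 240) (.e (nat_lit 2640) (nat_lit 165) .nil)))))) (.g (nat_lit 1) (.e (nat_lit 204974) (nat_lit 0) .nil) .nil))))) (.nd (nat_lit 8) (.nd (nat_lit 9) 
(.lf (nat_lit 513199) (.g (nat_lit 1122) (.e (nat_lit 180263) (nat_lit 21) (.e (nat_lit 663583) (nat_lit 11) (.e (nat_lit 24617) (nat_lit 7) (.e (nat_lit 319526) (nat_lit 15) .nil)))) (.g (nat_lit 0) (.e (nat_lit 203418) (nat_lit 0) .nil) .nil))) 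
(.lf (nat_lit 513711) (.g (nat_lit 2279) (.e (nat_lit 180277) (nat_lit 32) (.e (nat_lit 1660) (nat_lit 115) (.e (nat_lit 393281) (nat_lit 23) (.e (nat_lit 426098) (nat_lit 1) (.e (nat_lit 164346) (nat_lit 240) (.e (nat_lit 2639) (nat_lit 165) .nil)))))) (.g (nat_lit 1) (.e (nat_lit 204703) (nat_lit 0) .nil) .nil)))) (.nd (nat_lit 9) 
(.lf (nat_lit 513455) (.g (nat_lit 30) (.e (nat_lit 188160) (nat_lit 29) (.e (nat_lit 729100) (nat_lit 13) (.e (nat_lit 450304) (nat_lit 15) .nil))) (.g (nat_lit 0) (.e (nat_lit 204286) (nat_lit 0) .nil) .nil))) 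
(.lf (nat_lit 513967) (.g (nat_lit 1360) (.e (nat_lit 180278) (nat_lit 32) (.e (nat_lit 1660) (nat_lit 115) (.e (nat_lit 393271) (nat_lit 23) (.e (nat_lit 426379) (nat_lit 15) .nil)))) (.g (nat_lit 0) (.e (nat_lit 205169) (nat_lit 0) .nil) .nil)))))) (.nd (nat_lit 7) (.nd (nat_lit 8) (.nd (nat_lit 9) 
(.lf (nat_lit 513135) (.g (nat_lit 2799) (.e (nat_lit 180252) (nat_lit 10) (.e (nat_lit 573489) (nat_lit 14) (.e (nat_lit 73755) (nat_lit 8) (.e (nat_lit 557090) (nat_lit 12) (.e (nat_lit 163840) (nat_lit 0) (.e (nat_lit 5951) (nat_lit 322) (.e (nat_lit 57371) (nat_lit 2) (.e (nat_lit 90173) (nat_lit 14) .nil)))))))) (.g (nat_lit 1) (.e (nat_lit 203258) (nat_lit 0) .nil) .nil))) 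
(.lf (nat_lit 513647) (.g (nat_lit 2446) (.e (nat_lit 180277) (nat_lit 32) (.e (nat_lit 1659) (nat_lit 115) (.e (nat_lit 393271) (nat_lit 23) (.e (nat_lit 426354) (nat_lit 15) (.e (nat_lit 2050) (nat_lit 142) .nil))))) (.g (nat_lit 0) (.e (nat_lit 204613) (nat_lit 0) .nil) .nil)))) (.nd (nat_lit 9) 
(.lf (nat_lit 513391) (.g (nat_lit 2306) (.e (nat_lit 180272) (nat_lit 26) (.e (nat_lit 704738) (nat_lit 11) (.e (nat_lit 16444) (nat_lit 9) (.e (nat_lit 426503) (nat_lit 27) (.e (nat_lit 335895) (nat_lit 0) (.e (nat_lit 6722) (nat_lit 362) .nil)))))) (.g (nat_lit 1) (.e (nat_lit 204156) (nat_lit 0) .nil) .nil))) 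
(.lf (nat_lit 513903) (.g (nat_lit 1691) (.e (nat_lit 180278) (nat_lit 32) (.e (nat_lit 1658) (nat_lit 115) (.e (nat_lit 393271) (nat_lit 23) (.e (nat_lit 426112) (nat_lit 1) (.e (nat_lit 164347) (nat_lit 240) .nil))))) (.g (nat_lit 0) (.e (nat_lit 205081) (nat_lit 0) .nil) .nil))))) (.nd (nat_lit 8) (.nd (nat_lit 9) 
(.lf (nat_lit 513263) (.g (nat_lit 1212) (.e (nat_lit 180271) (nat_lit 26) (.e (nat_lit 704737) (nat_lit 11) (.e (nat_lit 16438) (nat_lit 9) (.e (nat_lit 426530) (nat_lit 27) .nil)))) (.g (nat_lit 0) (.e (nat_lit 203834) (nat_lit 0) .nil) .nil))) 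
(.lf (nat_lit 513775) (.g (nat_lit 1748) (.e (nat_lit 180278) (nat_lit 32) (.e (nat_lit 1235) (nat_lit 91) (.e (nat_lit 90172) (nat_lit 14) (.e (nat_lit 180277) (nat_lit 32) (.e (nat_lit 1235) (nat_lit 91) .nil))))) (.g (nat_lit 0) (.e (nat_lit 204902) (nat_lit 0) .nil) .nil)))) (.nd (nat_lit 9) 
(.lf (nat_lit 513519) (.g (nat_lit 2172) (.e (nat_lit 180277) (nat_lit 32) (.e (nat_lit 1425) (nat_lit 108) (.e (nat_lit 336443) (nat_lit 32) (.e (nat_lit 466969) (nat_lit 21) (.e (nat_lit 164347) (nat_lit 240) (.e (nat_lit 2640) (nat_lit 165) .nil)))))) (.g (nat_lit 1) (.e (nat_lit 204414) (nat_lit 0) .nil) .nil))) 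
(.lf (nat_lit 514031) (.g (nat_lit 1672) (.e (nat_lit 188160) (nat_lit 32) (.e (nat_lit 496) (nat_lit 39) (.e (nat_lit 483372) (nat_lit 21) (.e (nat_lit 319500) (nat_lit 10) .nil)))) (.g (nat_lit 0) (.e (nat_lit 205387) (nat_lit 0) .nil) .nil)))))))) (.nd (nat_lit 5) (.nd (nat_lit 6) (.nd (nat_lit 7) (.nd (nat_lit 8) (.nd (nat_lit 9) 
(.lf (nat_lit 513055) (.g (nat_lit 1616) (.e (nat_lit 180252) (nat_lit 10) (.e (nat_lit 573471) (nat_lit 11) (.e (nat_lit 16446) (nat_lit 9) (.e (nat_lit 426114) (nat_lit 2) .nil)))) (.g (nat_lit 0) (.e (nat_lit 202935) (nat_lit 0) .nil) .nil))) 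
(.lf (nat_lit 513567) (.g (nat_lit 3168) (.e (nat_lit 180277) (nat_lit 32) (.e (nat_lit 1427) (nat_lit 108) (.e (nat_lit 336430) (nat_lit 29) (.e (nat_lit 442428) (nat_lit 24) (.e (nat_lit 229666) (nat_lit 240) (.e (nat_lit 2643) (nat_lit 165) .nil)))))) (.g (nat_lit 1) (.e (nat_lit 204503) (nat_lit 0) .nil) .nil)))) (.nd (nat_lit 9) 
(.lf (nat_lit 513311) (.g (nat_lit 1673) (.e (nat_lit 180271) (nat_lit 26) (.e (nat_lit 704738) (nat_lit 11) (.e (nat_lit 16436) (nat_lit 9) (.e (nat_lit 426536) (nat_lit 28) (.e (nat_lit 352000) (nat_lit 5) .nil))))) (.g (nat_lit 0) (.e (nat_lit 203929) (nat_lit 0) .nil) .nil))) 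
(.lf (nat_lit 513823) (.g (nat_lit 2540) (.e (nat_lit 180278) (nat_lit 32) (.e (nat_lit 1425) (nat_lit 108) (.e (nat_lit 336430) (nat_lit 29) (.e (nat_lit 442379) (nat_lit 0) (.e (nat_lit 2058) (nat_lit 142) (.e (nat_lit 704595) (nat_lit 5) .nil)))))) (.g (nat_lit 1) (.e (nat_lit 204955) (nat_lit 0) .nil) .nil))))) (.nd (nat_lit 8) (.nd (nat_lit 9) 
(.lf (nat_lit 513183) (.g (nat_lit 3820) (.e (nat_lit 180252) (nat_lit 10) (.e (nat_lit 573503) (nat_lit 18) (.e (nat_lit 1349) (nat_lit 102) (.e (nat_lit 286761) (nat_lit 13) (.e (nat_lit 393251) (nat_lit 18) (.e (nat_lit 171776) (nat_lit 146) (.e (nat_lit 2640) (nat_lit 165) .nil))))))) (.g (nat_lit 1) (.e (nat_lit 203389) (nat_lit 0) .nil) .nil))) 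
(.lf (nat_lit 513695) (.g (nat_lit 2394) (.e (nat_lit 180277) (nat_lit 32) (.e (nat_lit 1660) (nat_lit 115) (.e (nat_lit 393271) (nat_lit 23) (.e (nat_lit 426112) (nat_lit 1) (.e (nat_lit 164347) (nat_lit 240) (.e (nat_lit 2640) (nat_lit 165) .nil)))))) (.g (nat_lit 1) (.e (nat_lit 204683) (nat_lit 0) .nil) .nil)))) (.nd (nat_lit 9) 
(.lf (nat_lit 513439) (.g (nat_lit 1233) (.e (nat_lit 188160) (nat_lit 28) (.e (nat_lit 720909) (nat_lit 11) (.e (nat_lit 426188) (nat_lit 9) (.e (nat_lit 426550) (nat_lit 31) (.e (nat_lit 376576) (nat_lit 5) .nil))))) (.g (nat_lit 0) (.e (nat_lit 204244) (nat_lit 0) .nil) .nil))) 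
(.lf (nat_lit 513951) (.g (nat_lit 3541) (.e (nat_lit 180278) (nat_lit 32) (.e (nat_lit 1659) (nat_lit 115) (.e (nat_lit 393283) (nat_lit 24) (.e (nat_lit 434209) (nat_lit 18) (.e (nat_lit 5546) (nat_lit 306) (.e (nat_lit 2638) (nat_lit 165) .nil)))))) (.g (nat_lit 1) (.e (nat_lit 205140) (nat_lit 0) .nil) .nil)))))) (.nd (nat_lit 7) (.nd (nat_lit 8) (.nd (nat_lit 9) 
(.lf (nat_lit 513119) (.g (nat_lit 3572) (.e (nat_lit 180252) (nat_lit 10) (.e (nat_lit 573489) (nat_lit 14) (.e (nat_lit 73755) (nat_lit 8) (.e (nat_lit 557067) (nat_lit 9) (.e (nat_lit 2598) (nat_lit 163) (.e (nat_lit 164403) (nat_lit 256) (.e (nat_lit 57371) (nat_lit 2) (.e (nat_lit 90173) (nat_lit 14) .nil)))))))) (.g (nat_lit 1) (.e (nat_lit 203233) (nat_lit 0) .nil) .nil))) 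
(.lf (nat_lit 513631) (.g (nat_lit 2286) (.e (nat_lit 180277) (nat_lit 32) (.e (nat_lit 1658) (nat_lit 115) (.e (nat_lit 393282) (nat_lit 24) (.e (nat_lit 434209) (nat_lit 18) (.e (nat_lit 5546) (nat_lit 306) (.e (nat_lit 2640) (nat_lit 165) .nil)))))) (.g (nat_lit 1) (.e (nat_lit 204592) (nat_lit 0) .nil) .nil)))) (.nd (nat_lit 9) 
(.lf (nat_lit 513375) (.g (nat_lit 1973) (.e (nat_lit 180272) (nat_lit 26) (.e (nat_lit 704738) (nat_lit 11) (.e (nat_lit 16425) (nat_lit 7) (.e (nat_lit 409617) (nat_lit 10) (.e (nat_lit 848) (nat_lit 73) (.e (nat_lit 761898) (nat_lit 15) (.e (nat_lit 171776) (nat_lit 206) .nil))))))) (.g (nat_lit 1) (.e (nat_lit 204131) (nat_lit 0) .nil) .nil))) 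
(.lf (nat_lit 513887) (.g (nat_lit 2437) (.e (nat_lit 180278) (nat_lit 32) (.e (nat_lit 1428) (nat_lit 108) (.e (nat_lit 336430) (nat_lit 29) (.e (nat_lit 442421) (nat_lit 21) (.e (nat_lit 164348) (nat_lit 240) (.e (nat_lit 2639) (nat_lit 165) .nil)))))) (.g (nat_lit 1) (.e (nat_lit 205057) (nat_lit 0) .nil) .nil))))) (.nd (nat_lit 8) (.nd (nat_lit 9) 
(.lf (nat_lit 513247) (.g (nat_lit 1013) (.e (nat_lit 180271) (nat_lit 26) (.e (nat_lit 704737) (nat_lit 11) (.e (nat_lit 16431) (nat_lit 9) (.e (nat_lit 426528) (nat_lit 27) .nil)))) (.g (nat_lit 0) (.e (nat_lit 203816) (nat_lit 0) .nil) .nil))) 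
(.lf (nat_lit 513759) (.g (nat_lit 1050) (.e (nat_lit 180278) (nat_lit 32) (.e (nat_lit 1074) (nat_lit 81) (.e (nat_lit 1796) (nat_lit 119) (.e (nat_lit 516160) (nat_lit 10) (.e (nat_lit 434193) (nat_lit 13) .nil))))) (.g (nat_lit 0) (.e (nat_lit 204886) (nat_lit 0) .nil) .nil)))) (.nd (nat_lit 9) 
(.lf (nat_lit 513503) (.g (nat_lit 3982) (.e (nat_lit 180277) (nat_lit 32) (.e (nat_lit 1253) (nat_lit 92) (.e (nat_lit 98373) (nat_lit 29) (.e (nat_lit 450563) (nat_lit 0) (.e (nat_lit 3926) (nat_lit 239) .nil))))) (.g (nat_lit 0) (.e (nat_lit 204391) (nat_lit 0) .nil) .nil))) 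
(.lf (nat_lit 514015) (.g (nat_lit 2684) (.e (nat_lit 180278) (nat_lit 32) (.e (nat_lit 1661) (nat_lit 115) (.e (nat_lit 393284) (nat_lit 24) (.e (nat_lit 434212) (nat_lit 18) (.e (nat_lit 5548) (nat_lit 306) (.e (nat_lit 2640) (nat_lit 165) .nil)))))) (.g (nat_lit 1) (.e (nat_lit 205322) (nat_lit 0) .nil) .nil))))))) (.nd (nat_lit 6) (.nd (nat_lit 7) (.nd (nat_lit 8) (.nd (nat_lit 9) 
(.lf (nat_lit 513087) (.g (nat_lit 5959) (.e (nat_lit 180252) (nat_lit 10) (.e (nat_lit 573474) (nat_lit 12) (.e (nat_lit 57503) (nat_lit 38) (.e (nat_lit 638995) (nat_lit 7) (.e (nat_lit 163979) (nat_lit 30) (.e (nat_lit 573488) (nat_lit 14) (.e (nat_lit 73755) (nat_lit 8) (.e (nat_lit 557105) (nat_lit 14) .nil)))))))) (.g (nat_lit 1) (.e (nat_lit 202998) (nat_lit 0) .nil) .nil))) 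
(.lf (nat_lit 513599) (.g (nat_lit 2690) (.e (nat_lit 180277) (nat_lit 32) (.e (nat_lit 1428) (nat_lit 108) (.e (nat_lit 336430) (nat_lit 29) (.e (nat_lit 442428) (nat_lit 24) (.e (nat_lit 229665) (nat_lit 240) (.e (nat_lit 2643) (nat_lit 165) .nil)))))) (.g (nat_lit 1) (.e (nat_lit 204551) (nat_lit 0) .nil) .nil)))) (.nd (nat_lit 9) 
(.lf (nat_lit 513343) (.g (nat_lit 1891) (.e (nat_lit 180271) (nat_lit 26) (.e (nat_lit 704738) (nat_lit 11) (.e (nat_lit 16466) (nat_lit 13) (.e (nat_lit 483355) (nat_lit 17) (.e (nat_lit 7936) (nat_lit 362) .nil))))) (.g (nat_lit 0) (.e (nat_lit 203980) (nat_lit 0) .nil) .nil))) 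
(.lf (nat_lit 513855) (.g (nat_lit 2636) (.e (nat_lit 180278) (nat_lit 32) (.e (nat_lit 1426) (nat_lit 108) (.e (nat_lit 336434) (nat_lit 30) (.e (nat_lit 450564) (nat_lit 0) (.e (nat_lit 5548) (nat_lit 306) (.e (nat_lit 2640) (nat_lit 165) .nil)))))) (.g (nat_lit 1) (.e (nat_lit 204993) (nat_lit 0) .nil) .nil))))) (.nd (nat_lit 8) (.nd (nat_lit 9) 
(.lf (nat_lit 513215) (.g (nat_lit 1602) (.e (nat_lit 180267) (nat_lit 23) (.e (nat_lit 679961) (nat_lit 9) (.e (nat_lit 65642) (nat_lit 15) (.e (nat_lit 3632) (nat_lit 227) (.e (nat_lit 778323) (nat_lit 5) (.e (nat_lit 81664) (nat_lit 37) .nil)))))) (.g (nat_lit 1) (.e (nat_lit 203472) (nat_lit 0) .nil) .nil))) 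
(.lf (nat_lit 513727) (.g (nat_lit 2400) (.e (nat_lit 180277) (nat_lit 32) (.e (nat_lit 1660) (nat_lit 115) (.e (nat_lit 393283) (nat_lit 24) (.e (nat_lit 434209) (nat_lit 18) (.e (nat_lit 5546) (nat_lit 306) (.e (nat_lit 2640) (nat_lit 165) .nil)))))) (.g (nat_lit 1) (.e (nat_lit 204722) (nat_lit 0) .nil) .nil)))) (.nd (nat_lit 9) 
(.lf (nat_lit 513471) (.g (nat_lit 1888) (.e (nat_lit 180277) (nat_lit 32) (.e (nat_lit 1235) (nat_lit 91) (.e (nat_lit 90170) (nat_lit 13) (.e (nat_lit 172113) (nat_lit 10) (.e (nat_lit 434208) (nat_lit 18) (.e (nat_lit 3953) (nat_lit 239) (.e (nat_lit 2637) (nat_lit 165) .nil))))))) (.g (nat_lit 1) (.e (nat_lit 204355) (nat_lit 0) .nil) .nil))) 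
(.lf (nat_lit 513983) (.g (nat_lit 2558) (.e (nat_lit 180278) (nat_lit 32) (.e (nat_lit 1660) (nat_lit 115) (.e (nat_lit 393282) (nat_lit 24) (.e (nat_lit 434209) (nat_lit 18) (.e (nat_lit 5546) (nat_lit 306) (.e (nat_lit 2640) (nat_lit 165) .nil)))))) (.g (nat_lit 1) (.e (nat_lit 205191) (nat_lit 0) .nil) .nil)))))) (.nd (nat_lit 7) (.nd (nat_lit 8) (.nd (nat_lit 9) 
(.lf (nat_lit 513151) (.g (nat_lit 3098) (.e (nat_lit 180252) (nat_lit 10) (.e (nat_lit 573489) (nat_lit 14) (.e (nat_lit 73755) (nat_lit 8) (.e (nat_lit 557090) (nat_lit 12) (.e (nat_lit 163851) (nat_lit 0) (.e (nat_lit 5939) (nat_lit 322) (.e (nat_lit 57372) (nat_lit 2) (.e (nat_lit 90173) (nat_lit 14) .nil)))))))) (.g (nat_lit 1) (.e (nat_lit 203274) (nat_lit 0) .nil) .nil))) 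
(.lf (nat_lit 513663) (.g (nat_lit 2099) (.e (nat_lit 180277) (nat_lit 32) (.e (nat_lit 1659) (nat_lit 115) (.e (nat_lit 393281) (nat_lit 23) (.e (nat_lit 426099) (nat_lit 1) (.e (nat_lit 164345) (nat_lit 240) (.e (nat_lit 2639) (nat_lit 165) .nil)))))) (.g (nat_lit 1) (.e (nat_lit 204635) (nat_lit 0) .nil) .nil)))) (.nd (nat_lit 9) 
(.lf (nat_lit 513407) (.g (nat_lit 1399) (.e (nat_lit 188160) (nat_lit 26) (.e (nat_lit 704734) (nat_lit 11) (.e (nat_lit 16466) (nat_lit 13) (.e (nat_lit 483344) (nat_lit 17) .nil)))) (.g (nat_lit 0) (.e (nat_lit 204208) (nat_lit 0) .nil) .nil))) 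
(.lf (nat_lit 513919) (.g (nat_lit 1433) (.e (nat_lit 180278) (nat_lit 32) (.e (nat_lit 1658) (nat_lit 115) (.e (nat_lit 393291) (nat_lit 26) (.e (nat_lit 475201) (nat_lit 40) (.e (nat_lit 712448) (nat_lit 5) .nil))))) (.g (nat_lit 0) (.e (nat_lit 205100) (nat_lit 0) .nil) .nil))))) (.nd (nat_lit 8) (.nd (nat_lit 9) 
(.lf (nat_lit 513279) (.g (nat_lit 1004) (.e (nat_lit 180271) (nat_lit 26) (.e (nat_lit 704737) (nat_lit 11) (.e (nat_lit 16448) (nat_lit 10) (.e (nat_lit 434200) (nat_lit 18) .nil)))) (.g (nat_lit 0) (.e (nat_lit 203859) (nat_lit 0) .nil) .nil))) 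
(.lf (nat_lit 513791) (.g (nat_lit 1516) (.e (nat_lit 180278) (nat_lit 32) (.e (nat_lit 1253) (nat_lit 92) (.e (nat_lit 98367) (nat_lit 27) (.e (nat_lit 434191) (nat_lit 13) .nil)))) (.g (nat_lit 0) (.e (nat_lit 204920) (nat_lit 0) .nil) .nil)))) (.nd (nat_lit 9) 
(.lf (nat_lit 513535) (.g (nat_lit 1570) (.e (nat_lit 180277) (nat_lit 32) (.e (nat_lit 1426) (nat_lit 108) (.e (nat_lit 336443) (nat_lit 32) (.e (nat_lit 466949) (nat_lit 0) .nil)))) (.g (nat_lit 0) (.e (nat_lit 204435) (nat_lit 0) .nil) .nil))) 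
(.lf (nat_lit 514047) (.g (nat_lit 1651) (.e (nat_lit 188160) (nat_lit 32) (.e (nat_lit 1239) (nat_lit 91) (.e (nat_lit 90176) (nat_lit 15) (.e (nat_lit 188439) (nat_lit 20) (.e (nat_lit 3272) (nat_lit 199) .nil))))) (.g (nat_lit 0) (.e (nat_lit 205411) (nat_lit 0) .nil) .nil)))))))))))))

noncomputable def tv5562 : DT := (.nd (nat_lit 0) (.nd (nat_lit 1) (.nd (nat_lit 2) (.nd (nat_lit 3) (.nd (nat_lit 4) (.nd (nat_lit 5) (.nd (nat_lit 6) (.nd (nat_lit 7) (.nd (nat_lit 8) (.nd (nat_lit 9) 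
(.lf (nat_lit 514048) (.g (nat_lit 2070) (.e (nat_lit 188160) (nat_lit 32) (.e (nat_lit 1239) (nat_lit 91) (.e (nat_lit 90178) (nat_lit 15) (.e (nat_lit 188440) (nat_lit 20) (.e (nat_lit 3271) (nat_lit 199) .nil))))) (.g (nat_lit 0) (.e (nat_lit 205412) (nat_lit 0) .nil) .nil))) 
(.lf (nat_lit 514560) (.g (nat_lit 882) (.e (nat_lit 188423) (nat_lit 11) (.e (nat_lit 336408) (nat_lit 27) (.e (nat_lit 426100) (nat_lit 1) (.e (nat_lit 164399) (nat_lit 256) .nil)))) (.g (nat_lit 0) (.e (nat_lit 207272) (nat_lit 0) .nil) .nil)))) (.nd (nat_lit 9) 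
(.lf (nat_lit 514304) (.g (nat_lit 412) (.e (nat_lit 188418) (nat_lit 0) (.e (nat_lit 2058) (nat_lit 142) (.e (nat_lit 704598) (nat_lit 6) .nil))) (.g (nat_lit 0) (.e (nat_lit 206268) (nat_lit 0) .nil) .nil))) 
(.lf (nat_lit 514816) (.g (nat_lit 1040) (.e (nat_lit 188435) (nat_lit 20) (.e (nat_lit 3409) (nat_lit 212) (.e (nat_lit 655364) (nat_lit 0) (.e (nat_lit 3004) (nat_lit 186) (.e (nat_lit 450304) (nat_lit 4) (.e (nat_lit 114432) (nat_lit 6) .nil)))))) (.g (nat_lit 1) (.e (nat_lit 208338) (nat_lit 0) .nil) .nil))))) (.nd (nat_lit 8) (.nd (nat_lit 9) 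
(.lf (nat_lit 514176) (.g (nat_lit 723) (.e (nat_lit 180285) (nat_lit 45) (.e (nat_lit 2579) (nat_lit 161) (.e (nat_lit 40965) (nat_lit 0) (.e (nat_lit 1582) (nat_lit 111) (.e (nat_lit 368384) (nat_lit 10) (.e (nat_lit 581376) (nat_lit 5) .nil)))))) (.g (nat_lit 1) (.e (nat_lit 205861) (nat_lit 0) .nil) .nil))) 
(.lf (nat_lit 514688) (.g (nat_lit 777) (.e (nat_lit 188431) (nat_lit 20) (.e (nat_lit 3401) (nat_lit 211) (.e (nat_lit 647185) (nat_lit 6) (.e (nat_lit 188427) (nat_lit 20) .nil)))) (.g (nat_lit 0) (.e (nat_lit 207773) (nat_lit 0) .nil) .nil)))) (.nd (nat_lit 9) 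
(.lf (nat_lit 514432) (.g (nat_lit 2839) (.e (nat_lit 188420) (nat_lit 0) (.e (nat_lit 2175) (nat_lit 143) (.e (nat_lit 712750) (nat_lit 29) (.e (nat_lit 442430) (nat_lit 24) (.e (nat_lit 229663) (nat_lit 240) (.e (nat_lit 2651) (nat_lit 166) .nil)))))) (.g (nat_lit 1) (.e (nat_lit 206419) (nat_lit 0) .nil) .nil))) 
(.lf (nat_lit 514944) (.g (nat_lit 1870) (.e (nat_lit 188439) (nat_lit 20) (.e (nat_lit 3304) (nat_lit 202) (.e (nat_lit 573477) (nat_lit 12) (.e (nat_lit 57574) (nat_lit 55) (.e (nat_lit 778464) (nat_lit 11) .nil))))) (.g (nat_lit 0) (.e (nat_lit 208643) (nat_lit 0) .nil) .nil)))))) (.nd (nat_lit 7) (.nd (nat_lit 8) (.nd (nat_lit 9) 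
(.lf (nat_lit 514112) (.g (nat_lit 965) (.e (nat_lit 188160) (nat_lit 38) (.e (nat_lit 122936) (nat_lit 23) (.e (nat_lit 516176) (nat_lit 14) (.e (nat_lit 466967) (nat_lit 20) .nil)))) (.g (nat_lit 0) (.e (nat_lit 205621) (nat_lit 0) .nil) .nil))) 
(.lf (nat_lit 514624) (.g (nat_lit 2090) (.e (nat_lit 188427) (nat_lit 20) (.e (nat_lit 3402) (nat_lit 211) (.e (nat_lit 647183) (nat_lit 4) (.e (nat_lit 172120) (nat_lit 12) (.e (nat_lit 475198) (nat_lit 40) (.e (nat_lit 712448) (nat_lit 6) .nil)))))) (.g (nat_lit 1) (.e (nat_lit 207442) (nat_lit 0) .nil) .nil)))) (.nd (nat_lit 9) 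
(.lf (nat_lit 514368) (.g (nat_lit 2350) (.e (nat_lit 188420) (nat_lit 0) (.e (nat_lit 1856) (nat_lit 124) (.e (nat_lit 557103) (nat_lit 14) (.e (nat_lit 180288) (nat_lit 45) (.e (nat_lit 2570) (nat_lit 160) (.e (nat_lit 32809) (nat_lit 20) .nil)))))) (.g (nat_lit 1) (.e (nat_lit 206339) (nat_lit 0) .nil) .nil))) 
(.lf (nat_lit 514880) (.g (nat_lit 1957) (.e (nat_lit 188438) (nat_lit 20) (.e (nat_lit 3307) (nat_lit 202) (.e (nat_lit 573477) (nat_lit 12) (.e (nat_lit 57574) (nat_lit 55) (.e (nat_lit 778465) (nat_lit 11) .nil))))) (.g (nat_lit 0) (.e (nat_lit 208499) (nat_lit 0) .nil) .nil))))) (.nd (nat_lit 8) (.nd (nat_lit 9) 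
(.lf (nat_lit 514240) (.g (nat_lit 362) (.e (nat_lit 180288) (nat_lit 45) (.e (nat_lit 2580) (nat_lit 161) (.e (nat_lit 40964) (nat_lit 0) (.e (nat_lit 1585) (nat_lit 111) (.e (nat_lit 368384) (nat_lit 10) (.e (nat_lit 581376) (nat_lit 5) .nil)))))) (.g (nat_lit 1) (.e (nat_lit 206091) (nat_lit 0) .nil) .nil))) 
(.lf (nat_lit 514752) (.g (nat_lit 2903) (.e (nat_lit 188434) (nat_lit 20) (.e (nat_lit 3469) (nat_lit 217) (.e (nat_lit 696344) (nat_lit 8) (.e (nat_lit 172106) (nat_lit 10) (.e (nat_lit 434202) (nat_lit 18) (.e (nat_lit 6254) (nat_lit 337) (.e (nat_lit 7936) (nat_lit 166) .nil))))))) (.g (nat_lit 1) (.e (nat_lit 208214) (nat_lit 0) .nil) .nil)))) (.nd (nat_lit 9) 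
(.lf (nat_lit 514496) (.g (nat_lit 3337) (.e (nat_lit 188421) (nat_lit 11) (.e (nat_lit 336229) (nat_lit 14) (.e (nat_lit 401448) (nat_lit 10) (.e (nat_lit 434289) (nat_lit 43) (.e (nat_lit 696346) (nat_lit 10) .nil))))) (.g (nat_lit 1) (.e (nat_lit 206693) (nat_lit 0) .nil) .nil))) 
(.lf (nat_lit 515008) (.g (nat_lit 1482) (.e (nat_lit 188439) (nat_lit 20) (.e (nat_lit 3409) (nat_lit 212) (.e (nat_lit 655380) (nat_lit 6) (.e (nat_lit 188439) (nat_lit 20) (.e (nat_lit 3406) (nat_lit 212) (.e (nat_lit 655380) (nat_lit 6) .nil)))))) (.g (nat_lit 1) (.e (nat_lit 208834) (nat_lit 0) .nil) .nil))))))) (.nd (nat_lit 6) (.nd (nat_lit 7) (.nd (nat_lit 8) (.nd (nat_lit 9) 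
(.lf (nat_lit 514080) (.g (nat_lit 956) (.e (nat_lit 188160) (nat_lit 32) (.e (nat_lit 1656) (nat_lit 115) (.e (nat_lit 393265) (nat_lit 22) (.e (nat_lit 417804) (nat_lit 1) .nil)))) (.g (nat_lit 0) (.e (nat_lit 205451) (nat_lit 0) .nil) .nil))) 
(.lf (nat_lit 514592) (.g (nat_lit 1662) (.e (nat_lit 196352) (nat_lit 18) (.e (nat_lit 393252) (nat_lit 18) (.e (nat_lit 164399) (nat_lit 256) (.e (nat_lit 57373) (nat_lit 2) (.e (nat_lit 90177) (nat_lit 15) .nil))))) (.g (nat_lit 0) (.e (nat_lit 207344) (nat_lit 0) .nil) .nil)))) (.nd (nat_lit 9) 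
(.lf (nat_lit 514336) (.g (nat_lit 3110) (.e (nat_lit 188418) (nat_lit 0) (.e (nat_lit 2174) (nat_lit 143) (.e (nat_lit 712755) (nat_lit 30) (.e (nat_lit 450564) (nat_lit 0) (.e (nat_lit 5548) (nat_lit 306) (.e (nat_lit 2648) (nat_lit 166) .nil)))))) (.g (nat_lit 1) (.e (nat_lit 206306) (nat_lit 0) .nil) .nil))) 
(.lf (nat_lit 514848) (.g (nat_lit 957) (.e (nat_lit 188435) (nat_lit 20) (.e (nat_lit 3579) (nat_lit 223) (.e (nat_lit 745475) (nat_lit 0) (.e (nat_lit 1572) (nat_lit 110) (.e (nat_lit 360192) (nat_lit 2) .nil))))) (.g (nat_lit 0) (.e (nat_lit 208421) (nat_lit 0) .nil) .nil))))) (.nd (nat_lit 8) (.nd (nat_lit 9) 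
(.lf (nat_lit 514208) (.g (nat_lit 570) (.e (nat_lit 180287) (nat_lit 45) (.e (nat_lit 2579) (nat_lit 161) (.e (nat_lit 40965) (nat_lit 0) (.e (nat_lit 1582) (nat_lit 111) (.e (nat_lit 368384) (nat_lit 10) (.e (nat_lit 581376) (nat_lit 5) .nil)))))) (.g (nat_lit 1) (.e (nat_lit 206006) (nat_lit 0) .nil) .nil))) 
(.lf (nat_lit 514720) (.g (nat_lit 2100) (.e (nat_lit 188434) (nat_lit 20) (.e (nat_lit 3391) (nat_lit 210) (.e (nat_lit 639025) (nat_lit 20) (.e (nat_lit 131116) (nat_lit 9) (.e (nat_lit 335988) (nat_lit 1) (.e (nat_lit 57832) (nat_lit 250) (.e (nat_lit 7936) (nat_lit 166) .nil))))))) (.g (nat_lit 1) (.e (nat_lit 208004) (nat_lit 0) .nil) .nil)))) (.nd (nat_lit 9) 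
(.lf (nat_lit 514464) (.g (nat_lit 1609) (.e (nat_lit 196352) (nat_lit 0) (.e (nat_lit 2030) (nat_lit 140) (.e (nat_lit 688186) (nat_lit 18) (.e (nat_lit 81950) (nat_lit 21) (.e (nat_lit 57834) (nat_lit 250) .nil))))) (.g (nat_lit 0) (.e (nat_lit 206457) (nat_lit 0) .nil) .nil))) 
(.lf (nat_lit 514976) (.g (nat_lit 2659) (.e (nat_lit 188439) (nat_lit 20) (.e (nat_lit 3407) (nat_lit 212) (.e (nat_lit 655378) (nat_lit 4) (.e (nat_lit 172120) (nat_lit 12) (.e (nat_lit 475199) (nat_lit 40) (.e (nat_lit 704598) (nat_lit 6) .nil)))))) (.g (nat_lit 1) (.e (nat_lit 208756) (nat_lit 0) .nil) .nil)))))) (.nd (nat_lit 7) (.nd (nat_lit 8) (.nd (nat_lit 9) 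
(.lf (nat_lit 514144) (.g (nat_lit 453) (.e (nat_lit 180284) (nat_lit 45) (.e (nat_lit 2579) (nat_lit 161) (.e (nat_lit 40964) (nat_lit 0) (.e (nat_lit 1574) (nat_lit 110) (.e (nat_lit 360192) (nat_lit 2) (.e (nat_lit 204544) (nat_lit 5) .nil)))))) (.g (nat_lit 1) (.e (nat_lit 205748) (nat_lit 0) .nil) .nil))) 
(.lf (nat_lit 514656) (.g (nat_lit 3284) (.e (nat_lit 188431) (nat_lit 20) (.e (nat_lit 3397) (nat_lit 211) (.e (nat_lit 647183) (nat_lit 4) (.e (nat_lit 172094) (nat_lit 9) (.e (nat_lit 426109) (nat_lit 1) (.e (nat_lit 164347) (nat_lit 240) (.e (nat_lit 2648) (nat_lit 166) .nil))))))) (.g (nat_lit 1) (.e (nat_lit 207668) (nat_lit 0) .nil) .nil)))) (.nd (nat_lit 9) 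
(.lf (nat_lit 514400) (.g (nat_lit 1200) (.e (nat_lit 188420) (nat_lit 0) (.e (nat_lit 2059) (nat_lit 142) (.e (nat_lit 704598) (nat_lit 6) (.e (nat_lit 188418) (nat_lit 0) (.e (nat_lit 2057) (nat_lit 142) .nil))))) (.g (nat_lit 0) (.e (nat_lit 206373) (nat_lit 0) .nil) .nil))) 
(.lf (nat_lit 514912) (.g (nat_lit 2973) (.e (nat_lit 188438) (nat_lit 20) (.e (nat_lit 3469) (nat_lit 217) (.e (nat_lit 696344) (nat_lit 8) (.e (nat_lit 172113) (nat_lit 10) (.e (nat_lit 434208) (nat_lit 18) (.e (nat_lit 6254) (nat_lit 337) (.e (nat_lit 7936) (nat_lit 166) .nil))))))) (.g (nat_lit 1) (.e (nat_lit 208577) (nat_lit 0) .nil) .nil))))) (.nd (nat_lit 8) (.nd (nat_lit 9) 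
(.lf (nat_lit 514272) (.g (nat_lit 1342) (.e (nat_lit 188417) (nat_lit 0) (.e (nat_lit 2147) (nat_lit 142) (.e (nat_lit 704597) (nat_lit 6) (.e (nat_lit 188440) (nat_lit 20) (.e (nat_lit 3409) (nat_lit 212) (.e (nat_lit 655380) (nat_lit 6) .nil)))))) (.g (nat_lit 1) (.e (nat_lit 206225) (nat_lit 0) .nil) .nil))) 
(.lf (nat_lit 514784) (.g (nat_lit 2726) (.e (nat_lit 188435) (nat_lit 20) (.e (nat_lit 3270) (nat_lit 199) (.e (nat_lit 548913) (nat_lit 18) (.e (nat_lit 172120) (nat_lit 12) (.e (nat_lit 475185) (nat_lit 29) .nil))))) (.g (nat_lit 0) (.e (nat_lit 208262) (nat_lit 0) .nil) .nil)))) (.nd (nat_lit 9) 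
(.lf (nat_lit 514528) (.g (nat_lit 3073) (.e (nat_lit 188423) (nat_lit 11) (.e (nat_lit 335995) (nat_lit 1) (.e (nat_lit 57688) (nat_lit 156) (.e (nat_lit 163907) (nat_lit 12) (.e (nat_lit 426427) (nat_lit 17) .nil))))) (.g (nat_lit 0) (.e (nat_lit 207011) (nat_lit 0) .nil) .nil))) 
(.lf (nat_lit 515040) (.g (nat_lit 2445) (.e (nat_lit 188439) (nat_lit 20) (.e (nat_lit 3469) (nat_lit 217) (.e (nat_lit 696344) (nat_lit 8) (.e (nat_lit 172113) (nat_lit 10) (.e (nat_lit 434286) (nat_lit 42) (.e (nat_lit 696064) (nat_lit 10) .nil)))))) (.g (nat_lit 1) (.e (nat_lit 208950) (nat_lit 0) .nil) .nil)))))))) 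
(.nd (nat_lit 5) (.nd (nat_lit 6) (.nd (nat_lit 7) (.nd (nat_lit 8) (.nd (nat_lit 9) 
(.lf (nat_lit 514064) (.g (nat_lit 1075) (.e (nat_lit 188160) (nat_lit 32) (.e (nat_lit 1648) (nat_lit 115) (.e (nat_lit 393268) (nat_lit 23) (.e (nat_lit 426444) (nat_lit 19) (.e (nat_lit 114432) (nat_lit 5) .nil))))) (.g (nat_lit 0) (.e (nat_lit 205435) (nat_lit 0) .nil) .nil))) 
(.lf (nat_lit 514576) (.g (nat_lit 2154) (.e (nat_lit 196352) (nat_lit 11) (.e (nat_lit 336390) (nat_lit 27) (.e (nat_lit 426100) (nat_lit 1) (.e (nat_lit 164403) (nat_lit 256) (.e (nat_lit 57373) (nat_lit 2) .nil))))) (.g (nat_lit 0) (.e (nat_lit 207302) (nat_lit 0) .nil) .nil)))) (.nd (nat_lit 9) 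
(.lf (nat_lit 514320) (.g (nat_lit 3413) (.e (nat_lit 188418) (nat_lit 0) (.e (nat_lit 2059) (nat_lit 142) (.e (nat_lit 704599) (nat_lit 6) (.e (nat_lit 188455) (nat_lit 24) (.e (nat_lit 229663) (nat_lit 240) (.e (nat_lit 2653) (nat_lit 166) .nil)))))) (.g (nat_lit 1) (.e (nat_lit 206284) (nat_lit 0) .nil) .nil))) 
(.lf (nat_lit 514832) (.g (nat_lit 2010) (.e (nat_lit 188435) (nat_lit 20) (.e (nat_lit 3469) (nat_lit 217) (.e (nat_lit 696344) (nat_lit 8) (.e (nat_lit 172112) (nat_lit 10) (.e (nat_lit 434286) (nat_lit 42) (.e (nat_lit 696064) (nat_lit 10) .nil)))))) (.g (nat_lit 1) (.e (nat_lit 208399) (nat_lit 0) .nil) .nil))))) (.nd (nat_lit 8) (.nd (nat_lit 9) 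
(.lf (nat_lit 514192) (.g (nat_lit 1983) (.e (nat_lit 180287) (nat_lit 45) (.e (nat_lit 2570) (nat_lit 160) (.e (nat_lit 32809) (nat_lit 20) (.e (nat_lit 188420) (nat_lit 0) (.e (nat_lit 1856) (nat_lit 124) (.e (nat_lit 557103) (nat_lit 14) .nil)))))) (.g (nat_lit 1) (.e (nat_lit 205986) (nat_lit 0) .nil) .nil))) 
(.lf (nat_lit 514704) (.g (nat_lit 1378) (.e (nat_lit 188434) (nat_lit 20) (.e (nat_lit 3272) (nat_lit 199) (.e (nat_lit 548913) (nat_lit 18) (.e (nat_lit 172039) (nat_lit 0) .nil)))) (.g (nat_lit 0) (.e (nat_lit 207896) (nat_lit 0) .nil) .nil)))) (.nd (nat_lit 9) 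
(.lf (nat_lit 514448) (.g (nat_lit 1067) (.e (nat_lit 196352) (nat_lit 0) (.e (nat_lit 1788) (nat_lit 119) (.e (nat_lit 516127) (nat_lit 2) (.e (nat_lit 213030) (nat_lit 11) (.e (nat_lit 24605) (nat_lit 2) .nil))))) (.g (nat_lit 0) (.e (nat_lit 206438) (nat_lit 0) .nil) .nil))) 
(.lf (nat_lit 514960) (.g (nat_lit 1812) (.e (nat_lit 188439) (nat_lit 20) (.e (nat_lit 3390) (nat_lit 210) (.e (nat_lit 639025) (nat_lit 20) (.e (nat_lit 131116) (nat_lit 9) (.e (nat_lit 335988) (nat_lit 1) (.e (nat_lit 57832) (nat_lit 250) (.e (nat_lit 7936) (nat_lit 166) .nil))))))) (.g (nat_lit 1) (.e (nat_lit 208692) (nat_lit 0) .nil) .nil)))))) 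
(.nd (nat_lit 7) (.nd (nat_lit 8) (.nd (nat_lit 9) 
(.lf (nat_lit 514128) (.g (nat_lit 876) (.e (nat_lit 188160) (nat_lit 39) (.e (nat_lit 131140) (nat_lit 27) (.e (nat_lit 426306) (nat_lit 12) (.e (nat_lit 475197) (nat_lit 40) .nil)))) (.g (nat_lit 0) (.e (nat_lit 205661) (nat_lit 0) .nil) .nil))) 
(.lf (nat_lit 514640) (.g (nat_lit 722) (.e (nat_lit 188428) (nat_lit 20) (.e (nat_lit 3402) (nat_lit 211) (.e (nat_lit 647185) (nat_lit 6) (.e (nat_lit 188416) (nat_lit 0) .nil)))) (.g (nat_lit 0) (.e (nat_lit 207541) (nat_lit 0) .nil) .nil)))) (.nd (nat_lit 9) 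
(.lf (nat_lit 514384) (.g (nat_lit 2584) (.e (nat_lit 188420) (nat_lit 0) (.e (nat_lit 2058) (nat_lit 142) (.e (nat_lit 704592) (nat_lit 4) (.e (nat_lit 172120) (nat_lit 12) (.e (nat_lit 475198) (nat_lit 40) (.e (nat_lit 704598) (nat_lit 6) .nil)))))) (.g (nat_lit 1) (.e (nat_lit 206357) (nat_lit 0) .nil) .nil))) 
(.lf (nat_lit 514896) (.g (nat_lit 2434) (.e (nat_lit 188438) (nat_lit 20) (.e (nat_lit 3408) (nat_lit 212) (.e (nat_lit 655378) (nat_lit 4) (.e (nat_lit 172106) (nat_lit 10) (.e (nat_lit 434272) (nat_lit 38) (.e (nat_lit 655380) (nat_lit 6) .nil)))))) (.g (nat_lit 1) (.e (nat_lit 208523) (nat_lit 0) .nil) .nil))))) (.nd (nat_lit 8) (.nd (nat_lit 9) 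
(.lf (nat_lit 514256) (.g (nat_lit 362) (.e (nat_lit 188416) (nat_lit 0) (.e (nat_lit 2147) (nat_lit 142) (.e (nat_lit 704597) (nat_lit 6) (.e (nat_lit 188417) (nat_lit 0) .nil)))) (.g (nat_lit 0) (.e (nat_lit 206191) (nat_lit 0) .nil) .nil))) 
(.lf (nat_lit 514768) (.g (nat_lit 3797) (.e (nat_lit 188434) (nat_lit 20) (.e (nat_lit 3469) (nat_lit 217) (.e (nat_lit 696344) (nat_lit 8) (.e (nat_lit 172113) (nat_lit 10) (.e (nat_lit 434208) (nat_lit 18) (.e (nat_lit 6252) (nat_lit 337) (.e (nat_lit 7936) (nat_lit 166) .nil))))))) (.g (nat_lit 1) (.e (nat_lit 208230) (nat_lit 0) .nil) .nil)))) (.nd (nat_lit 9) 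
(.lf (nat_lit 514512) (.g (nat_lit 1601) (.e (nat_lit 188423) (nat_lit 11) (.e (nat_lit 335986) (nat_lit 1) (.e (nat_lit 57686) (nat_lit 156) (.e (nat_lit 163902) (nat_lit 12) (.e (nat_lit 426427) (nat_lit 17) .nil))))) (.g (nat_lit 0) (.e (nat_lit 206995) (nat_lit 0) .nil) .nil))) 
(.lf (nat_lit 515024) (.g (nat_lit 3552) (.e (nat_lit 188439) (nat_lit 20) (.e (nat_lit 3469) (nat_lit 217) (.e (nat_lit 696344) (nat_lit 8) (.e (nat_lit 172106) (nat_lit 10) (.e (nat_lit 434209) (nat_lit 18) (.e (nat_lit 6273) (nat_lit 337) (.e (nat_lit 2645) (nat_lit 166) .nil))))))) (.g (nat_lit 1) (.e (nat_lit 208934) (nat_lit 0) .nil) .nil))))))) 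
(.nd (nat_lit 6) (.nd (nat_lit 7) (.nd (nat_lit 8) (.nd (nat_lit 9) 
(.lf (nat_lit 514096) (.g (nat_lit 1374) (.e (nat_lit 188160) (nat_lit 35) (.e (nat_lit 57464) (nat_lit 23) (.e (nat_lit 516151) (nat_lit 9) (.e (nat_lit 426171) (nat_lit 7) .nil)))) (.g (nat_lit 0) (.e (nat_lit 205535) (nat_lit 0) .nil) .nil))) 
(.lf (nat_lit 514608) (.g (nat_lit 2337) (.e (nat_lit 188424) (nat_lit 20) (.e (nat_lit 3308) (nat_lit 202) (.e (nat_lit 573475) (nat_lit 12) (.e (nat_lit 57574) (nat_lit 55) (.e (nat_lit 778465) (nat_lit 11) .nil))))) (.g (nat_lit 0) (.e (nat_lit 207387) (nat_lit 0) .nil) .nil)))) (.nd (nat_lit 9) 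
(.lf (nat_lit 514352) (.g (nat_lit 2850) (.e (nat_lit 188418) (nat_lit 0) (.e (nat_lit 2175) (nat_lit 143) (.e (nat_lit 712755) (nat_lit 30) (.e (nat_lit 450566) (nat_lit 0) (.e (nat_lit 5548) (nat_lit 306) (.e (nat_lit 2648) (nat_lit 166) .nil)))))) (.g (nat_lit 1) (.e (nat_lit 206323) (nat_lit 0) .nil) .nil))) 
(.lf (nat_lit 514864) (.g (nat_lit 2269) (.e (nat_lit 188437) (nat_lit 20) (.e (nat_lit 3238) (nat_lit 197) (.e (nat_lit 532523) (nat_lit 7) (.e (nat_lit 319534) (nat_lit 16) (.e (nat_lit 286728) (nat_lit 0) .nil))))) (.g (nat_lit 0) (.e (nat_lit 208455) (nat_lit 0) .nil) .nil))))) (.nd (nat_lit 8) (.nd (nat_lit 9) 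
(.lf (nat_lit 514224) (.g (nat_lit 465) (.e (nat_lit 180288) (nat_lit 45) (.e (nat_lit 2579) (nat_lit 161) (.e (nat_lit 40964) (nat_lit 0) (.e (nat_lit 1558) (nat_lit 110) (.e (nat_lit 360192) (nat_lit 2) (.e (nat_lit 204544) (nat_lit 5) .nil)))))) (.g (nat_lit 1) (.e (nat_lit 206075) (nat_lit 0) .nil) .nil))) 
(.lf (nat_lit 514736) (.g (nat_lit 3715) (.e (nat_lit 188434) (nat_lit 20) (.e (nat_lit 3409) (nat_lit 212) (.e (nat_lit 655378) (nat_lit 4) (.e (nat_lit 172094) (nat_lit 9) (.e (nat_lit 426109) (nat_lit 1) (.e (nat_lit 164347) (nat_lit 240) (.e (nat_lit 2650) (nat_lit 166) .nil))))))) (.g (nat_lit 1) (.e (nat_lit 208056) (nat_lit 0) .nil) .nil)))) (.nd (nat_lit 9) 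
(.lf (nat_lit 514480) (.g (nat_lit 257) (.e (nat_lit 196352) (nat_lit 8) (.e (nat_lit 155649) (nat_lit 0) (.e (nat_lit 3003) (nat_lit 186) (.e (nat_lit 450304) (nat_lit 4) .nil)))) (.g (nat_lit 0) (.e (nat_lit 206504) (nat_lit 0) .nil) .nil))) 
(.lf (nat_lit 514992) (.g (nat_lit 2874) (.e (nat_lit 188439) (nat_lit 20) (.e (nat_lit 3408) (nat_lit 212) (.e (nat_lit 655380) (nat_lit 6) (.e (nat_lit 188455) (nat_lit 24) (.e (nat_lit 229665) (nat_lit 240) (.e (nat_lit 2651) (nat_lit 166) .nil)))))) (.g (nat_lit 1) (.e (nat_lit 208804) (nat_lit 0) .nil) .nil)))))) (.nd (nat_lit 7) (.nd (nat_lit 8) (.nd (nat_lit 9) 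
(.lf (nat_lit 514160) (.g (nat_lit 502) (.e (nat_lit 180284) (nat_lit 45) (.e (nat_lit 2580) (nat_lit 161) (.e (nat_lit 40965) (nat_lit 0) (.e (nat_lit 1582) (nat_lit 111) (.e (nat_lit 368384) (nat_lit 10) .nil))))) (.g (nat_lit 0) (.e (nat_lit 205764) (nat_lit 0) .nil) .nil))) 
(.lf (nat_lit 514672) (.g (nat_lit 2117) (.e (nat_lit 188431) (nat_lit 20) (.e (nat_lit 3399) (nat_lit 211) (.e (nat_lit 647183) (nat_lit 4) (.e (nat_lit 172118) (nat_lit 12) (.e (nat_lit 475199) (nat_lit 40) (.e (nat_lit 704598) (nat_lit 6) .nil)))))) (.g (nat_lit 1) (.e (nat_lit 207691) (nat_lit 0) .nil) .nil)))) (.nd (nat_lit 9) 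
(.lf (nat_lit 514416) (.g (nat_lit 418) (.e (nat_lit 188420) (nat_lit 0) (.e (nat_lit 2174) (nat_lit 143) (.e (nat_lit 712753) (nat_lit 30) .nil))) (.g (nat_lit 0) (.e (nat_lit 206397) (nat_lit 0) .nil) .nil))) 
(.lf (nat_lit 514928) (.g (nat_lit 2300) (.e (nat_lit 188439) (nat_lit 20) (.e (nat_lit 3266) (nat_lit 199) (.e (nat_lit 548913) (nat_lit 18) (.e (nat_lit 172120) (nat_lit 12) .nil)))) (.g (nat_lit 0) (.e (nat_lit 208594) (nat_lit 0) .nil) .nil))))) (.nd (nat_lit 8) (.nd (nat_lit 9) 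
(.lf (nat_lit 514288) (.g (nat_lit 2019) (.e (nat_lit 188418) (nat_lit 0) (.e (nat_lit 1856) (nat_lit 124) (.e (nat_lit 557103) (nat_lit 14) (.e (nat_lit 180287) (nat_lit 45) (.e (nat_lit 2570) (nat_lit 160) (.e (nat_lit 32809) (nat_lit 20) .nil)))))) (.g (nat_lit 1) (.e (nat_lit 206248) (nat_lit 0) .nil) .nil))) 
(.lf (nat_lit 514800) (.g (nat_lit 1521) (.e (nat_lit 188435) (nat_lit 20) (.e (nat_lit 3407) (nat_lit 212) (.e (nat_lit 655378) (nat_lit 4) (.e (nat_lit 172118) (nat_lit 12) (.e (nat_lit 475199) (nat_lit 40) .nil))))) (.g (nat_lit 0) (.e (nat_lit 208304) (nat_lit 0) .nil) .nil)))) (.nd (nat_lit 9) 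
(.lf (nat_lit 514544) (.g (nat_lit 3416) (.e (nat_lit 188423) (nat_lit 11) (.e (nat_lit 336231) (nat_lit 14) (.e (nat_lit 401448) (nat_lit 10) (.e (nat_lit 434288) (nat_lit 43) (.e (nat_lit 696346) (nat_lit 10) .nil))))) (.g (nat_lit 1) (.e (nat_lit 207200) (nat_lit 0) .nil) .nil))) 
(.lf (nat_lit 515056) (.g (nat_lit 2764) (.e (nat_lit 188440) (nat_lit 20) (.e (nat_lit 3270) (nat_lit 199) (.e (nat_lit 548913) (nat_lit 18) (.e (nat_lit 172120) (nat_lit 12) (.e (nat_lit 475185) (nat_lit 29) .nil))))) (.g (nat_lit 0) (.e (nat_lit 208972) (nat_lit 0) .nil) .nil))))))))) (.nd (nat_lit 4) (.nd (nat_lit 5) (.nd (nat_lit 6) (.nd (nat_lit 7) (.nd (nat_lit 8) (.nd (nat_lit 9) 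
(.lf (nat_lit 514056) (.g (nat_lit 1558) (.e (nat_lit 188160) (nat_lit 32) (.e (nat_lit 1419) (nat_lit 108) (.e (nat_lit 336430) (nat_lit 29) (.e (nat_lit 442379) (nat_lit 0) (.e (nat_lit 2059) (nat_lit 142) .nil))))) (.g (nat_lit 0) (.e (nat_lit 205421) (nat_lit 0) .nil) .nil))) 
(.lf (nat_lit 514568) (.g (nat_lit 1170) (.e (nat_lit 196352) (nat_lit 11) (.e (nat_lit 336390) (nat_lit 27) (.e (nat_lit 426098) (nat_lit 1) (.e (nat_lit 164396) (nat_lit 256) .nil)))) (.g (nat_lit 0) (.e (nat_lit 207294) (nat_lit 0) .nil) .nil)))) (.nd (nat_lit 9) 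
(.lf (nat_lit 514312) (.g (nat_lit 380) (.e (nat_lit 188418) (nat_lit 0) (.e (nat_lit 2059) (nat_lit 142) (.e (nat_lit 704598) (nat_lit 6) .nil))) (.g (nat_lit 0) (.e (nat_lit 206276) (nat_lit 0) .nil) .nil))) 
(.lf (nat_lit 514824) (.g (nat_lit 1802) (.e (nat_lit 188435) (nat_lit 20) (.e (nat_lit 3409) (nat_lit 212) (.e (nat_lit 655380) (nat_lit 6) (.e (nat_lit 188441) (nat_lit 20) (.e (nat_lit 3408) (nat_lit 212) (.e (nat_lit 655380) (nat_lit 6) .nil)))))) (.g (nat_lit 1) (.e (nat_lit 208349) (nat_lit 0) .nil) .nil))))) (.nd (nat_lit 8) (.nd (nat_lit 9) 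
(.lf (nat_lit 514184) (.g (nat_lit 766) (.e (nat_lit 180285) (nat_lit 45) (.e (nat_lit 2580) (nat_lit 161) (.e (nat_lit 40964) (nat_lit 0) (.e (nat_lit 1597) (nat_lit 111) (.e (nat_lit 368384) (nat_lit 10) (.e (nat_lit 581376) (nat_lit 5) .nil)))))) (.g (nat_lit 1) (.e (nat_lit 205869) (nat_lit 0) .nil) .nil))) 
(.lf (nat_lit 514696) (.g (nat_lit 2028) (.e (nat_lit 188431) (nat_lit 20) (.e (nat_lit 3402) (nat_lit 211) (.e (nat_lit 647185) (nat_lit 6) (.e (nat_lit 188431) (nat_lit 20) (.e (nat_lit 3397) (nat_lit 211) (.e (nat_lit 647185) (nat_lit 6) .nil)))))) (.g (nat_lit 1) (.e (nat_lit 207800) (nat_lit 0) .nil) .nil)))) (.nd (nat_lit 9) 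
(.lf (nat_lit 514440) (.g (nat_lit 1086) (.e (nat_lit 188420) (nat_lit 0) (.e (nat_lit 2175) (nat_lit 143) (.e (nat_lit 712755) (nat_lit 30) (.e (nat_lit 450562) (nat_lit 0) .nil)))) (.g (nat_lit 0) (.e (nat_lit 206427) (nat_lit 0) .nil) .nil))) 
(.lf (nat_lit 514952) (.g (nat_lit 1375) (.e (nat_lit 188439) (nat_lit 20) (.e (nat_lit 3288) (nat_lit 201) (.e (nat_lit 565267) (nat_lit 4) (.e (nat_lit 65617) (nat_lit 10) (.e (nat_lit 344183) (nat_lit 49) (.e (nat_lit 819221) (nat_lit 6) .nil)))))) (.g (nat_lit 1) (.e (nat_lit 208655) (nat_lit 0) .nil) .nil)))))) (.nd (nat_lit 7) (.nd (nat_lit 8) (.nd (nat_lit 9) 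
(.lf (nat_lit 514120) (.g (nat_lit 1150) (.e (nat_lit 188160) (nat_lit 39) (.e (nat_lit 131140) (nat_lit 27) (.e (nat_lit 426190) (nat_lit 9) (.e (nat_lit 426444) (nat_lit 19) (.e (nat_lit 114432) (nat_lit 5) .nil))))) (.g (nat_lit 0) (.e (nat_lit 205642) (nat_lit 0) .nil) .nil))) 
(.lf (nat_lit 514632) (.g (nat_lit 1674) (.e (nat_lit 188428) (nat_lit 20) (.e (nat_lit 3401) (nat_lit 211) (.e (nat_lit 647183) (nat_lit 4) (.e (nat_lit 172107) (nat_lit 10) (.e (nat_lit 434272) (nat_lit 38) (.e (nat_lit 655380) (nat_lit 6) .nil)))))) (.g (nat_lit 1) (.e (nat_lit 207526) (nat_lit 0) .nil) .nil)))) (.nd (nat_lit 9) 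
(.lf (nat_lit 514376) (.g (nat_lit 2006) (.e (nat_lit 188420) (nat_lit 0) (.e (nat_lit 2056) (nat_lit 142) (.e (nat_lit 704598) (nat_lit 6) (.e (nat_lit 188446) (nat_lit 21) (.e (nat_lit 164348) (nat_lit 240) (.e (nat_lit 2648) (nat_lit 166) .nil)))))) (.g (nat_lit 1) (.e (nat_lit 206348) (nat_lit 0) .nil) .nil))) 
(.lf (nat_lit 514888) (.g (nat_lit 997) (.e (nat_lit 188438) (nat_lit 20) (.e (nat_lit 3406) (nat_lit 212) (.e (nat_lit 655378) (nat_lit 4) (.e (nat_lit 172107) (nat_lit 10) (.e (nat_lit 434271) (nat_lit 38) .nil))))) (.g (nat_lit 0) (.e (nat_lit 208511) (nat_lit 0) .nil) .nil))))) (.nd (nat_lit 8) (.nd (nat_lit 9) 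
(.lf (nat_lit 514248) (.g (nat_lit 1303) (.e (nat_lit 180288) (nat_lit 45) (.e (nat_lit 2798) (nat_lit 180) (.e (nat_lit 311040) (nat_lit 35) (.e (nat_lit 401454) (nat_lit 12) (.e (nat_lit 475197) (nat_lit 40) .nil))))) (.g (nat_lit 0) (.e (nat_lit 206100) (nat_lit 0) .nil) .nil))) 
(.lf (nat_lit 514760) (.g (nat_lit 2363) (.e (nat_lit 188434) (nat_lit 20) (.e (nat_lit 3469) (nat_lit 217) (.e (nat_lit 696344) (nat_lit 8) (.e (nat_lit 172112) (nat_lit 10) (.e (nat_lit 434286) (nat_lit 42) (.e (nat_lit 696064) (nat_lit 10) .nil)))))) (.g (nat_lit 1) (.e (nat_lit 208222) (nat_lit 0) .nil) .nil)))) (.nd (nat_lit 9) 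
(.lf (nat_lit 514504) (.g (nat_lit 1442) (.e (nat_lit 188421) (nat_lit 11) (.e (nat_lit 336232) (nat_lit 14) (.e (nat_lit 401446) (nat_lit 10) (.e (nat_lit 434288) (nat_lit 43) .nil)))) (.g (nat_lit 0) (.e (nat_lit 206829) (nat_lit 0) .nil) .nil))) 
(.lf (nat_lit 515016) (.g (nat_lit 2452) (.e (nat_lit 188439) (nat_lit 20) (.e (nat_lit 3468) (nat_lit 217) (.e (nat_lit 696343) (nat_lit 8) (.e (nat_lit 172106) (nat_lit 10) (.e (nat_lit 434209) (nat_lit 18) (.e (nat_lit 6273) (nat_lit 337) (.e (nat_lit 2645) (nat_lit 166) .nil))))))) (.g (nat_lit 1) (.e (nat_lit 208864) (nat_lit 0) .nil) .nil))))))) 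
(.nd (nat_lit 6) (.nd (nat_lit 7) (.nd (nat_lit 8) (.nd (nat_lit 9) 
(.lf (nat_lit 514088) (.g (nat_lit 2015) (.e (nat_lit 188160) (nat_lit 32) (.e (nat_lit 1663) (nat_lit 115) (.e (nat_lit 393294) (nat_lit 26) (.e (nat_lit 475198) (nat_lit 40) (.e (nat_lit 704596) (nat_lit 5) .nil))))) (.g (nat_lit 0) (.e (nat_lit 205459) (nat_lit 0) .nil) .nil))) 
(.lf (nat_lit 514600) (.g (nat_lit 1519) (.e (nat_lit 188424) (nat_lit 20) (.e (nat_lit 3238) (nat_lit 197) (.e (nat_lit 532523) (nat_lit 7) (.e (nat_lit 327424) (nat_lit 16) .nil)))) (.g (nat_lit 0) (.e (nat_lit 207377) (nat_lit 0) .nil) .nil)))) (.nd (nat_lit 9) 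
(.lf (nat_lit 514344) (.g (nat_lit 2565) (.e (nat_lit 188418) (nat_lit 0) (.e (nat_lit 2175) (nat_lit 143) (.e (nat_lit 712753) (nat_lit 30) (.e (nat_lit 450565) (nat_lit 0) (.e (nat_lit 5548) (nat_lit 306) (.e (nat_lit 2648) (nat_lit 166) .nil)))))) (.g (nat_lit 1) (.e (nat_lit 206315) (nat_lit 0) .nil) .nil))) 
(.lf (nat_lit 514856) (.g (nat_lit 1603) (.e (nat_lit 188436) (nat_lit 20) (.e (nat_lit 3308) (nat_lit 202) (.e (nat_lit 573475) (nat_lit 12) (.e (nat_lit 57574) (nat_lit 55) .nil)))) (.g (nat_lit 0) (.e (nat_lit 208433) (nat_lit 0) .nil) .nil))))) (.nd (nat_lit 8) (.nd (nat_lit 9) 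
(.lf (nat_lit 514216) (.g (nat_lit 598) (.e (nat_lit 180287) (nat_lit 45) (.e (nat_lit 2580) (nat_lit 161) (.e (nat_lit 40964) (nat_lit 0) (.e (nat_lit 1597) (nat_lit 111) (.e (nat_lit 368384) (nat_lit 10) (.e (nat_lit 581376) (nat_lit 5) .nil)))))) (.g (nat_lit 1) (.e (nat_lit 206014) (nat_lit 0) .nil) .nil))) 
(.lf (nat_lit 514728) (.g (nat_lit 2182) (.e (nat_lit 188434) (nat_lit 20) (.e (nat_lit 3408) (nat_lit 212) (.e (nat_lit 655378) (nat_lit 4) (.e (nat_lit 172116) (nat_lit 10) (.e (nat_lit 434272) (nat_lit 38) (.e (nat_lit 655380) (nat_lit 6) .nil)))))) (.g (nat_lit 1) (.e (nat_lit 208032) (nat_lit 0) .nil) .nil)))) (.nd (nat_lit 9) 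
(.lf (nat_lit 514472) (.g (nat_lit 1812) (.e (nat_lit 196352) (nat_lit 0) (.e (nat_lit 2031) (nat_lit 140) (.e (nat_lit 688186) (nat_lit 18) (.e (nat_lit 81950) (nat_lit 21) (.e (nat_lit 57830) (nat_lit 250) .nil))))) (.g (nat_lit 0) (.e (nat_lit 206465) (nat_lit 0) .nil) .nil))) 
(.lf (nat_lit 514984) (.g (nat_lit 1249) (.e (nat_lit 188439) (nat_lit 20) (.e (nat_lit 3408) (nat_lit 212) (.e (nat_lit 655364) (nat_lit 0) (.e (nat_lit 3004) (nat_lit 186) (.e (nat_lit 450304) (nat_lit 4) (.e (nat_lit 114432) (nat_lit 6) .nil)))))) (.g (nat_lit 1) (.e (nat_lit 208782) (nat_lit 0) .nil) .nil)))))) (.nd (nat_lit 7) (.nd (nat_lit 8) (.nd (nat_lit 9) 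
(.lf (nat_lit 514152) (.g (nat_lit 349) (.e (nat_lit 180284) (nat_lit 45) (.e (nat_lit 2579) (nat_lit 161) (.e (nat_lit 40965) (nat_lit 0) (.e (nat_lit 1585) (nat_lit 111) (.e (nat_lit 368384) (nat_lit 10) (.e (nat_lit 581376) (nat_lit 5) .nil)))))) (.g (nat_lit 1) (.e (nat_lit 205756) (nat_lit 0) .nil) .nil))) 
(.lf (nat_lit 514664) (.g (nat_lit 2488) (.e (nat_lit 188431) (nat_lit 20) (.e (nat_lit 3397) (nat_lit 211) (.e (nat_lit 647183) (nat_lit 4) (.e (nat_lit 172120) (nat_lit 12) (.e (nat_lit 475199) (nat_lit 40) (.e (nat_lit 704598) (nat_lit 6) .nil)))))) (.g (nat_lit 1) (.e (nat_lit 207679) (nat_lit 0) .nil) .nil)))) (.nd (nat_lit 9) 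
(.lf (nat_lit 514408) (.g (nat_lit 1166) (.e (nat_lit 188420) (nat_lit 0) (.e (nat_lit 2174) (nat_lit 143) (.e (nat_lit 712745) (nat_lit 27) (.e (nat_lit 426234) (nat_lit 9) (.e (nat_lit 426441) (nat_lit 19) .nil))))) (.g (nat_lit 0) (.e (nat_lit 206382) (nat_lit 0) .nil) .nil))) 
(.lf (nat_lit 514920) (.g (nat_lit 779) (.e (nat_lit 188438) (nat_lit 20) (.e (nat_lit 3578) (nat_lit 223) (.e (nat_lit 745476) (nat_lit 0) (.e (nat_lit 1592) (nat_lit 111) (.e (nat_lit 368384) (nat_lit 10) .nil))))) (.g (nat_lit 0) (.e (nat_lit 208586) (nat_lit 0) .nil) .nil))))) (.nd (nat_lit 8) (.nd (nat_lit 9) 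
(.lf (nat_lit 514280) (.g (nat_lit 834) (.e (nat_lit 188418) (nat_lit 0) (.e (nat_lit 1784) (nat_lit 119) (.e (nat_lit 516124) (nat_lit 2) (.e (nat_lit 213030) (nat_lit 11) (.e (nat_lit 24604) (nat_lit 2) .nil))))) (.g (nat_lit 0) (.e (nat_lit 206238) (nat_lit 0) .nil) .nil))) 
(.lf (nat_lit 514792) (.g (nat_lit 1150) (.e (nat_lit 188435) (nat_lit 20) (.e (nat_lit 3289) (nat_lit 201) (.e (nat_lit 565269) (nat_lit 6) (.e (nat_lit 81938) (nat_lit 20) (.e (nat_lit 2389) (nat_lit 156) (.e (nat_lit 819221) (nat_lit 6) .nil)))))) (.g (nat_lit 1) (.e (nat_lit 208294) (nat_lit 0) .nil) .nil)))) (.nd (nat_lit 9) 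
(.lf (nat_lit 514536) (.g (nat_lit 1704) (.e (nat_lit 188423) (nat_lit 11) (.e (nat_lit 336229) (nat_lit 14) (.e (nat_lit 401448) (nat_lit 10) (.e (nat_lit 434288) (nat_lit 43) .nil)))) (.g (nat_lit 0) (.e (nat_lit 207086) (nat_lit 0) .nil) .nil))) 
(.lf (nat_lit 515048) (.g (nat_lit 442) (.e (nat_lit 188439) (nat_lit 20) (.e (nat_lit 3578) (nat_lit 223) (.e (nat_lit 745475) (nat_lit 0) (.e (nat_lit 1559) (nat_lit 110) (.e (nat_lit 360192) (nat_lit 2) .nil))))) (.g (nat_lit 0) (.e (nat_lit 208964) (nat_lit 0) .nil) .nil)))))))) (.nd (nat_lit 5) (.nd (nat_lit 6) (.nd (nat_lit 7) (.nd (nat_lit 8) (.nd (nat_lit 9) 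
(.lf (nat_lit 514072) (.g (nat_lit 942) (.e (nat_lit 188160) (nat_lit 32) (.e (nat_lit 1648) (nat_lit 115) (.e (nat_lit 393294) (nat_lit 26) (.e (nat_lit 475201) (nat_lit 40) (.e (nat_lit 712448) (nat_lit 5) .nil))))) (.g (nat_lit 0) (.e (nat_lit 205443) (nat_lit 0) .nil) .nil))) 
(.lf (nat_lit 514584) (.g (nat_lit 1594) (.e (nat_lit 196352) (nat_lit 18) (.e (nat_lit 393251) (nat_lit 18) (.e (nat_lit 164398) (nat_lit 256) (.e (nat_lit 57369) (nat_lit 2) .nil)))) (.g (nat_lit 0) (.e (nat_lit 207336) (nat_lit 0) .nil) .nil)))) (.nd (nat_lit 9) 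
(.lf (nat_lit 514328) (.g (nat_lit 1902) (.e (nat_lit 188418) (nat_lit 0) (.e (nat_lit 2174) (nat_lit 143) (.e (nat_lit 712752) (nat_lit 29) (.e (nat_lit 442430) (nat_lit 24) (.e (nat_lit 229666) (nat_lit 240) (.e (nat_lit 2653) (nat_lit 166) .nil)))))) (.g (nat_lit 1) (.e (nat_lit 206298) (nat_lit 0) .nil) .nil))) 
(.lf (nat_lit 514840) (.g (nat_lit 1880) (.e (nat_lit 188435) (nat_lit 20) (.e (nat_lit 3469) (nat_lit 217) (.e (nat_lit 696344) (nat_lit 8) (.e (nat_lit 172113) (nat_lit 10) (.e (nat_lit 434287) (nat_lit 43) .nil))))) (.g (nat_lit 0) (.e (nat_lit 208407) (nat_lit 0) .nil) .nil))))) (.nd (nat_lit 8) (.nd (nat_lit 9) 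
(.lf (nat_lit 514200) (.g (nat_lit 372) (.e (nat_lit 180287) (nat_lit 45) (.e (nat_lit 2579) (nat_lit 161) (.e (nat_lit 40964) (nat_lit 0) (.e (nat_lit 1558) (nat_lit 110) (.e (nat_lit 360192) (nat_lit 2) (.e (nat_lit 204544) (nat_lit 5) .nil)))))) (.g (nat_lit 1) (.e (nat_lit 205998) (nat_lit 0) .nil) .nil))) 
(.lf (nat_lit 514712) (.g (nat_lit 666) (.e (nat_lit 188434) (nat_lit 20) (.e (nat_lit 3289) (nat_lit 201) (.e (nat_lit 565269) (nat_lit 6) (.e (nat_lit 81942) (nat_lit 20) (.e (nat_lit 2389) (nat_lit 156) .nil))))) (.g (nat_lit 0) (.e (nat_lit 207922) (nat_lit 0) .nil) .nil)))) (.nd (nat_lit 9) 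
(.lf (nat_lit 514456) (.g (nat_lit 1255) (.e (nat_lit 196352) (nat_lit 0) (.e (nat_lit 1853) (nat_lit 124) (.e (nat_lit 557104) (nat_lit 14) (.e (nat_lit 188160) (nat_lit 35) .nil)))) (.g (nat_lit 0) (.e (nat_lit 206446) (nat_lit 0) .nil) .nil))) 
(.lf (nat_lit 514968) (.g (nat_lit 1243) (.e (nat_lit 188439) (nat_lit 20) (.e (nat_lit 3406) (nat_lit 212) (.e (nat_lit 655380) (nat_lit 6) (.e (nat_lit 188441) (nat_lit 20) (.e (nat_lit 3406) (nat_lit 212) .nil))))) (.g (nat_lit 0) (.e (nat_lit 208727) (nat_lit 0) .nil) .nil)))))) (.nd (nat_lit 7) (.nd (nat_lit 8) (.nd (nat_lit 9) 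
(.lf (nat_lit 514136) (.g (nat_lit 1030) (.e (nat_lit 188160) (nat_lit 40) (.e (nat_lit 2679) (nat_lit 168) (.e (nat_lit 204846) (nat_lit 24) (.e (nat_lit 319533) (nat_lit 16) .nil)))) (.g (nat_lit 0) (.e (nat_lit 205689) (nat_lit 0) .nil) .nil))) 
(.lf (nat_lit 514648) (.g (nat_lit 1685) (.e (nat_lit 188430) (nat_lit 20) (.e (nat_lit 3399) (nat_lit 211) (.e (nat_lit 647185) (nat_lit 6) (.e (nat_lit 188441) (nat_lit 20) (.e (nat_lit 3408) (nat_lit 212) (.e (nat_lit 655380) (nat_lit 6) .nil)))))) (.g (nat_lit 1) (.e (nat_lit 207626) (nat_lit 0) .nil) .nil)))) (.nd (nat_lit 9) 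
(.lf (nat_lit 514392) (.g (nat_lit 811) (.e (nat_lit 188420) (nat_lit 0) (.e (nat_lit 2058) (nat_lit 142) (.e (nat_lit 704599) (nat_lit 6) (.e (nat_lit 188416) (nat_lit 0) (.e (nat_lit 2146) (nat_lit 142) .nil))))) (.g (nat_lit 0) (.e (nat_lit 206365) (nat_lit 0) .nil) .nil))) 
(.lf (nat_lit 514904) (.g (nat_lit 3091) (.e (nat_lit 188438) (nat_lit 20) (.e (nat_lit 3468) (nat_lit 217) (.e (nat_lit 696343) (nat_lit 8) (.e (nat_lit 172115) (nat_lit 10) (.e (nat_lit 434289) (nat_lit 43) (.e (nat_lit 696346) (nat_lit 10) .nil)))))) (.g (nat_lit 1) (.e (nat_lit 208547) (nat_lit 0) .nil) .nil))))) (.nd (nat_lit 8) (.nd (nat_lit 9) 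
(.lf (nat_lit 514264) (.g (nat_lit 2388) (.e (nat_lit 188416) (nat_lit 0) (.e (nat_lit 2147) (nat_lit 142) (.e (nat_lit 704597) (nat_lit 6) (.e (nat_lit 188453) (nat_lit 24) (.e (nat_lit 229665) (nat_lit 240) (.e (nat_lit 2653) (nat_lit 166) .nil)))))) (.g (nat_lit 1) (.e (nat_lit 206200) (nat_lit 0) .nil) .nil))) 
(.lf (nat_lit 514776) (.g (nat_lit 1774) (.e (nat_lit 188434) (nat_lit 20) (.e (nat_lit 3469) (nat_lit 217) (.e (nat_lit 696344) (nat_lit 8) (.e (nat_lit 172115) (nat_lit 10) (.e (nat_lit 434285) (nat_lit 42) .nil))))) (.g (nat_lit 0) (.e (nat_lit 208238) (nat_lit 0) .nil) .nil)))) (.nd (nat_lit 9) 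
(.lf (nat_lit 514520) (.g (nat_lit 820) (.e (nat_lit 188423) (nat_lit 11) (.e (nat_lit 335988) (nat_lit 1) (.e (nat_lit 57692) (nat_lit 156) .nil))) (.g (nat_lit 0) (.e (nat_lit 207003) (nat_lit 0) .nil) .nil))) 
(.lf (nat_lit 515032) (.g (nat_lit 1713) (.e (nat_lit 188439) (nat_lit 20) (.e (nat_lit 3469) (nat_lit 217) (.e (nat_lit 696344) (nat_lit 8) (.e (nat_lit 172113) (nat_lit 10) (.e (nat_lit 434203) (nat_lit 18) .nil))))) (.g (nat_lit 0) (.e (nat_lit 208942) (nat_lit 0) .nil) .nil))))))) (.nd (nat_lit 6) (.nd (nat_lit 7) (.nd (nat_lit 8) (.nd (nat_lit 9) 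
(.lf (nat_lit 514104) (.g (nat_lit 2262) (.e (nat_lit 188160) (nat_lit 35) (.e (nat_lit 57464) (nat_lit 23) (.e (nat_lit 516151) (nat_lit 9) (.e (nat_lit 426338) (nat_lit 14) (.e (nat_lit 491526) (nat_lit 0) .nil))))) (.g (nat_lit 0) (.e (nat_lit 205545) (nat_lit 0) .nil) .nil))) 
(.lf (nat_lit 514616) (.g (nat_lit 2329) (.e (nat_lit 188427) (nat_lit 20) (.e (nat_lit 3397) (nat_lit 211) (.e (nat_lit 647183) (nat_lit 4) (.e (nat_lit 172120) (nat_lit 12) (.e (nat_lit 475198) (nat_lit 40) (.e (nat_lit 704598) (nat_lit 6) .nil)))))) (.g (nat_lit 1) (.e (nat_lit 207413) (nat_lit 0) .nil) .nil)))) (.nd (nat_lit 9) 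
(.lf (nat_lit 514360) (.g (nat_lit 3019) (.e (nat_lit 188419) (nat_lit 0) (.e (nat_lit 2160) (nat_lit 143) (.e (nat_lit 712753) (nat_lit 30) (.e (nat_lit 450564) (nat_lit 0) (.e (nat_lit 5548) (nat_lit 306) (.e (nat_lit 2650) (nat_lit 166) .nil)))))) (.g (nat_lit 1) (.e (nat_lit 206331) (nat_lit 0) .nil) .nil))) 
(.lf (nat_lit 514872) (.g (nat_lit 3512) (.e (nat_lit 188438) (nat_lit 20) (.e (nat_lit 3272) (nat_lit 199) (.e (nat_lit 548913) (nat_lit 18) (.e (nat_lit 172120) (nat_lit 12) (.e (nat_lit 475183) (nat_lit 29) .nil))))) (.g (nat_lit 0) (.e (nat_lit 208486) (nat_lit 0) .nil) .nil))))) (.nd (nat_lit 8) (.nd (nat_lit 9) 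
(.lf (nat_lit 514232) (.g (nat_lit 654) (.e (nat_lit 180288) (nat_lit 45) (.e (nat_lit 2579) (nat_lit 161) (.e (nat_lit 40965) (nat_lit 0) (.e (nat_lit 1582) (nat_lit 111) (.e (nat_lit 368384) (nat_lit 10) (.e (nat_lit 581376) (nat_lit 5) .nil)))))) (.g (nat_lit 1) (.e (nat_lit 206083) (nat_lit 0) .nil) .nil))) 
(.lf (nat_lit 514744) (.g (nat_lit 2698) (.e (nat_lit 188434) (nat_lit 20) (.e (nat_lit 3468) (nat_lit 217) (.e (nat_lit 696344) (nat_lit 8) (.e (nat_lit 172106) (nat_lit 10) (.e (nat_lit 434209) (nat_lit 18) (.e (nat_lit 6271) (nat_lit 337) (.e (nat_lit 2645) (nat_lit 166) .nil))))))) (.g (nat_lit 1) (.e (nat_lit 208134) (nat_lit 0) .nil) .nil)))) (.nd (nat_lit 9) 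
(.lf (nat_lit 514488) (.g (nat_lit 2827) (.e (nat_lit 188421) (nat_lit 11) (.e (nat_lit 335988) (nat_lit 1) (.e (nat_lit 57691) (nat_lit 156) (.e (nat_lit 163907) (nat_lit 12) (.e (nat_lit 426432) (nat_lit 17) .nil))))) (.g (nat_lit 0) (.e (nat_lit 206621) (nat_lit 0) .nil) .nil))) 
(.lf (nat_lit 515000) (.g (nat_lit 2424) (.e (nat_lit 188439) (nat_lit 20) (.e (nat_lit 3409) (nat_lit 212) (.e (nat_lit 655378) (nat_lit 4) (.e (nat_lit 172119) (nat_lit 12) (.e (nat_lit 475199) (nat_lit 40) (.e (nat_lit 704598) (nat_lit 6) .nil)))))) (.g (nat_lit 1) (.e (nat_lit 208826) (nat_lit 0) .nil) .nil)))))) (.nd (nat_lit 7) (.nd (nat_lit 8) (.nd (nat_lit 9) 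
(.lf (nat_lit 514168) (.g (nat_lit 542) (.e (nat_lit 180285) (nat_lit 45) (.e (nat_lit 2579) (nat_lit 161) (.e (nat_lit 40964) (nat_lit 0) (.e (nat_lit 1558) (nat_lit 110) (.e (nat_lit 360192) (nat_lit 2) (.e (nat_lit 204544) (nat_lit 5) .nil)))))) (.g (nat_lit 1) (.e (nat_lit 205853) (nat_lit 0) .nil) .nil))) 
(.lf (nat_lit 514680) (.g (nat_lit 1856) (.e (nat_lit 188431) (nat_lit 20) (.e (nat_lit 3401) (nat_lit 211) (.e (nat_lit 647183) (nat_lit 4) (.e (nat_lit 172097) (nat_lit 9) (.e (nat_lit 426025) (nat_lit 0) (.e (nat_lit 3397) (nat_lit 211) (.e (nat_lit 647185) (nat_lit 6) .nil))))))) (.g (nat_lit 1) (.e (nat_lit 207752) (nat_lit 0) .nil) .nil)))) (.nd (nat_lit 9) 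
(.lf (nat_lit 514424) (.g (nat_lit 2033) (.e (nat_lit 188420) (nat_lit 0) (.e (nat_lit 2174) (nat_lit 143) (.e (nat_lit 712755) (nat_lit 30) (.e (nat_lit 450563) (nat_lit 0) (.e (nat_lit 7936) (nat_lit 306) (.e (nat_lit 2645) (nat_lit 166) .nil)))))) (.g (nat_lit 1) (.e (nat_lit 206410) (nat_lit 0) .nil) .nil))) 
(.lf (nat_lit 514936) (.g (nat_lit 4244) (.e (nat_lit 188439) (nat_lit 20) (.e (nat_lit 3272) (nat_lit 199) (.e (nat_lit 548913) (nat_lit 18) (.e (nat_lit 172119) (nat_lit 12) (.e (nat_lit 475185) (nat_lit 29) (.e (nat_lit 557107) (nat_lit 15) .nil)))))) (.g (nat_lit 1) (.e (nat_lit 208628) (nat_lit 0) .nil) .nil))))) (.nd (nat_lit 8) (.nd (nat_lit 9) 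
(.lf (nat_lit 514296) (.g (nat_lit 3102) (.e (nat_lit 188418) (nat_lit 0) (.e (nat_lit 1856) (nat_lit 124) (.e (nat_lit 557107) (nat_lit 15) (.e (nat_lit 188440) (nat_lit 20) (.e (nat_lit 3272) (nat_lit 199) (.e (nat_lit 548915) (nat_lit 20) .nil)))))) (.g (nat_lit 1) (.e (nat_lit 206256) (nat_lit 0) .nil) .nil))) 
(.lf (nat_lit 514808) (.g (nat_lit 1574) (.e (nat_lit 188435) (nat_lit 20) (.e (nat_lit 3408) (nat_lit 212) (.e (nat_lit 655378) (nat_lit 4) (.e (nat_lit 172118) (nat_lit 12) (.e (nat_lit 475197) (nat_lit 40) .nil))))) (.g (nat_lit 0) (.e (nat_lit 208324) (nat_lit 0) .nil) .nil)))) (.nd (nat_lit 9) 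
(.lf (nat_lit 514552) (.g (nat_lit 1391) (.e (nat_lit 188423) (nat_lit 11) (.e (nat_lit 336385) (nat_lit 27) (.e (nat_lit 426107) (nat_lit 1) (.e (nat_lit 164403) (nat_lit 256) .nil)))) (.g (nat_lit 0) (.e (nat_lit 207262) (nat_lit 0) .nil) .nil))) 
(.lf (nat_lit 515064) (.g (nat_lit 2111) (.e (nat_lit 188440) (nat_lit 20) (.e (nat_lit 3272) (nat_lit 199) (.e (nat_lit 548913) (nat_lit 18) (.e (nat_lit 172125) (nat_lit 14) (.e (nat_lit 491530) (nat_lit 0) .nil))))) (.g (nat_lit 0) (.e (nat_lit 209004) (nat_lit 0) .nil) .nil)))))))))) 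
(.nd (nat_lit 3) (.nd (nat_lit 4) (.nd (nat_lit 5) (.nd (nat_lit 6) (.nd (nat_lit 7) 
(.nd (nat_lit 8) (.nd (nat_lit 9) 
(.lf (nat_lit 514052) (.g (nat_lit 1011) (.e (nat_lit 188160) (nat_lit 32) (.e (nat_lit 1256) (nat_lit 92) (.e (nat_lit 98373) (nat_lit 29) (.e (nat_lit 450562) (nat_lit 0) .nil)))) (.g (nat_lit 0) (.e (nat_lit 205417) (nat_lit 0) .nil) .nil))) 
(.lf (nat_lit 514564) (.g (nat_lit 1712) (.e (nat_lit 196352) (nat_lit 11) (.e (nat_lit 336389) (nat_lit 27) (.e (nat_lit 426098) (nat_lit 1) (.e (nat_lit 164399) (nat_lit 256) .nil)))) (.g (nat_lit 0) (.e (nat_lit 207290) (nat_lit 0) .nil) .nil)))) (.nd (nat_lit 9) 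
(.lf (nat_lit 514308) (.g (nat_lit 438) (.e (nat_lit 188418) (nat_lit 0) (.e (nat_lit 2058) (nat_lit 142) (.e (nat_lit 704599) (nat_lit 6) .nil))) (.g (nat_lit 0) (.e (nat_lit 206272) (nat_lit 0) .nil) .nil))) 
(.lf (nat_lit 514820) (.g (nat_lit 1119) (.e (nat_lit 188435) (nat_lit 20) (.e (nat_lit 3409) (nat_lit 212) (.e (nat_lit 655380) (nat_lit 6) (.e (nat_lit 188435) (nat_lit 20) (.e (nat_lit 3408) (nat_lit 212) (.e (nat_lit 655380) (nat_lit 6) .nil)))))) (.g (nat_lit 1) (.e (nat_lit 208345) (nat_lit 0) .nil) .nil))))) (.nd (nat_lit 8) (.nd (nat_lit 9) 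
(.lf (nat_lit 514180) (.g (nat_lit 608) (.e (nat_lit 180285) (nat_lit 45) (.e (nat_lit 2580) (nat_lit 161) (.e (nat_lit 40964) (nat_lit 0) (.e (nat_lit 1574) (nat_lit 110) (.e (nat_lit 360192) (nat_lit 2) (.e (nat_lit 204544) (nat_lit 5) .nil)))))) (.g (nat_lit 1) (.e (nat_lit 205865) (nat_lit 0) .nil) .nil))) 
(.lf (nat_lit 514692) (.g (nat_lit 1957) (.e (nat_lit 188431) (nat_lit 20) (.e (nat_lit 3402) (nat_lit 211) (.e (nat_lit 647183) (nat_lit 4) (.e (nat_lit 172120) (nat_lit 12) (.e (nat_lit 475197) (nat_lit 40) (.e (nat_lit 712448) (nat_lit 6) .nil)))))) (.g (nat_lit 1) (.e (nat_lit 207790) (nat_lit 0) .nil) .nil)))) (.nd (nat_lit 9) 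
(.lf (nat_lit 514436) (.g (nat_lit 1819) (.e (nat_lit 188420) (nat_lit 0) (.e (nat_lit 2175) (nat_lit 143) (.e (nat_lit 712752) (nat_lit 29) (.e (nat_lit 442428) (nat_lit 24) (.e (nat_lit 229666) (nat_lit 240) .nil))))) (.g (nat_lit 0) (.e (nat_lit 206423) (nat_lit 0) .nil) .nil))) 
(.lf (nat_lit 514948) (.g (nat_lit 2002) (.e (nat_lit 188439) (nat_lit 20) (.e (nat_lit 3307) (nat_lit 202) (.e (nat_lit 573477) (nat_lit 12) (.e (nat_lit 57574) (nat_lit 55) (.e (nat_lit 778464) (nat_lit 11) .nil))))) (.g (nat_lit 0) (.e (nat_lit 208647) (nat_lit 0) .nil) .nil)))))) (.nd (nat_lit 7) (.nd (nat_lit 8) (.nd (nat_lit 9) 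
(.lf (nat_lit 514116) (.g (nat_lit 1232) (.e (nat_lit 188160) (nat_lit 39) (.e (nat_lit 131140) (nat_lit 27) (.e (nat_lit 426188) (nat_lit 9) (.e (nat_lit 426442) (nat_lit 19) (.e (nat_lit 114432) (nat_lit 5) .nil))))) (.g (nat_lit 0) (.e (nat_lit 205638) (nat_lit 0) .nil) .nil))) 
(.lf (nat_lit 514628) (.g (nat_lit 976) (.e (nat_lit 188428) (nat_lit 20) (.e (nat_lit 3401) (nat_lit 211) (.e (nat_lit 647170) (nat_lit 0) (.e (nat_lit 2996) (nat_lit 186) (.e (nat_lit 450304) (nat_lit 4) (.e (nat_lit 114432) (nat_lit 6) .nil)))))) (.g (nat_lit 1) (.e (nat_lit 207496) (nat_lit 0) .nil) .nil)))) (.nd (nat_lit 9) 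
(.lf (nat_lit 514372) (.g (nat_lit 1269) (.e (nat_lit 188420) (nat_lit 0) (.e (nat_lit 2056) (nat_lit 142) (.e (nat_lit 704598) (nat_lit 6) (.e (nat_lit 188434) (nat_lit 20) (.e (nat_lit 3409) (nat_lit 212) (.e (nat_lit 655380) (nat_lit 6) .nil)))))) (.g (nat_lit 1) (.e (nat_lit 206344) (nat_lit 0) .nil) .nil))) 
(.lf (nat_lit 514884) (.g (nat_lit 1139) (.e (nat_lit 188438) (nat_lit 20) (.e (nat_lit 3289) (nat_lit 201) (.e (nat_lit 565269) (nat_lit 6) (.e (nat_lit 81938) (nat_lit 20) (.e (nat_lit 2389) (nat_lit 156) .nil))))) (.g (nat_lit 0) (.e (nat_lit 208503) (nat_lit 0) .nil) .nil))))) (.nd (nat_lit 8) (.nd (nat_lit 9) 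
(.lf (nat_lit 514244) (.g (nat_lit 597) (.e (nat_lit 180288) (nat_lit 45) (.e (nat_lit 2580) (nat_lit 161) (.e (nat_lit 40965) (nat_lit 0) (.e (nat_lit 1582) (nat_lit 111) (.e (nat_lit 368384) (nat_lit 10) (.e (nat_lit 581376) (nat_lit 5) .nil)))))) (.g (nat_lit 1) (.e (nat_lit 206095) (nat_lit 0) .nil) .nil))) 
(.lf (nat_lit 514756) (.g (nat_lit 2550) (.e (nat_lit 188434) (nat_lit 20) (.e (nat_lit 3469) (nat_lit 217) (.e (nat_lit 696344) (nat_lit 8) (.e (nat_lit 172106) (nat_lit 10) (.e (nat_lit 434285) (nat_lit 42) (.e (nat_lit 696064) (nat_lit 10) .nil)))))) (.g (nat_lit 1) (.e (nat_lit 208218) (nat_lit 0) .nil) .nil)))) (.nd (nat_lit 9) 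
(.lf (nat_lit 514500) (.g (nat_lit 3176) (.e (nat_lit 188421) (nat_lit 11) (.e (nat_lit 336230) (nat_lit 14) (.e (nat_lit 401448) (nat_lit 10) (.e (nat_lit 434289) (nat_lit 43) (.e (nat_lit 696346) (nat_lit 10) .nil))))) (.g (nat_lit 1) (.e (nat_lit 206731) (nat_lit 0) .nil) .nil))) 
(.lf (nat_lit 515012) (.g (nat_lit 1283) (.e (nat_lit 188439) (nat_lit 20) (.e (nat_lit 3409) (nat_lit 212) (.e (nat_lit 655380) (nat_lit 6) (.e (nat_lit 188441) (nat_lit 20) (.e (nat_lit 3406) (nat_lit 212) (.e (nat_lit 655380) (nat_lit 6) .nil)))))) (.g (nat_lit 1) (.e (nat_lit 208838) (nat_lit 0) .nil) .nil))))))) (.nd (nat_lit 6) (.nd (nat_lit 7) (.nd (nat_lit 8) (.nd (nat_lit 9) 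
(.lf (nat_lit 514084) (.g (nat_lit 2168) (.e (nat_lit 188160) (nat_lit 32) (.e (nat_lit 1656) (nat_lit 115) (.e (nat_lit 393291) (nat_lit 26) (.e (nat_lit 475199) (nat_lit 40) (.e (nat_lit 704595) (nat_lit 5) .nil))))) (.g (nat_lit 0) (.e (nat_lit 205455) (nat_lit 0) .nil) .nil))) 
(.lf (nat_lit 514596) (.g (nat_lit 1299) (.e (nat_lit 196352) (nat_lit 18) (.e (nat_lit 393253) (nat_lit 18) (.e (nat_lit 164403) (nat_lit 256) (.e (nat_lit 57369) (nat_lit 2) .nil)))) (.g (nat_lit 0) (.e (nat_lit 207351) (nat_lit 0) .nil) .nil)))) (.nd (nat_lit 9) 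
(.lf (nat_lit 514340) (.g (nat_lit 1171) (.e (nat_lit 188418) (nat_lit 0) (.e (nat_lit 2175) (nat_lit 143) (.e (nat_lit 712750) (nat_lit 29) (.e (nat_lit 442382) (nat_lit 8) (.e (nat_lit 163584) (nat_lit 6) .nil))))) (.g (nat_lit 1) (.e (nat_lit 206311) (nat_lit 0) .nil) .nil))) 
(.lf (nat_lit 514852) (.g (nat_lit 408) (.e (nat_lit 188435) (nat_lit 20) (.e (nat_lit 3579) (nat_lit 223) (.e (nat_lit 745493) (nat_lit 6) .nil))) (.g (nat_lit 0) (.e (nat_lit 208425) (nat_lit 0) .nil) .nil))))) (.nd (nat_lit 8) (.nd (nat_lit 9) 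
(.lf (nat_lit 514212) (.g (nat_lit 330) (.e (nat_lit 180287) (nat_lit 45) (.e (nat_lit 2580) (nat_lit 161) (.e (nat_lit 40964) (nat_lit 0) (.e (nat_lit 1558) (nat_lit 110) (.e (nat_lit 360192) (nat_lit 2) (.e (nat_lit 204544) (nat_lit 5) .nil)))))) (.g (nat_lit 1) (.e (nat_lit 206010) (nat_lit 0) .nil) .nil))) 
(.lf (nat_lit 514724) (.g (nat_lit 2602) (.e (nat_lit 188434) (nat_lit 20) (.e (nat_lit 3406) (nat_lit 212) (.e (nat_lit 655378) (nat_lit 4) (.e (nat_lit 172115) (nat_lit 10) (.e (nat_lit 434272) (nat_lit 38) (.e (nat_lit 655380) (nat_lit 6) .nil)))))) (.g (nat_lit 1) (.e (nat_lit 208015) (nat_lit 0) .nil) .nil)))) (.nd (nat_lit 9) 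
(.lf (nat_lit 514468) (.g (nat_lit 1956) (.e (nat_lit 196352) (nat_lit 0) (.e (nat_lit 2031) (nat_lit 140) (.e (nat_lit 688178) (nat_lit 16) (.e (nat_lit 65623) (nat_lit 12) (.e (nat_lit 385088) (nat_lit 47) .nil))))) (.g (nat_lit 0) (.e (nat_lit 206461) (nat_lit 0) .nil) .nil))) 
(.lf (nat_lit 514980) (.g (nat_lit 931) (.e (nat_lit 188439) (nat_lit 20) (.e (nat_lit 3408) (nat_lit 212) (.e (nat_lit 655363) (nat_lit 0) (.e (nat_lit 3004) (nat_lit 186) (.e (nat_lit 450304) (nat_lit 4) (.e (nat_lit 114432) (nat_lit 6) .nil)))))) (.g (nat_lit 1) (.e (nat_lit 208767) (nat_lit 0) .nil) .nil)))))) (.nd (nat_lit 7) (.nd (nat_lit 8) (.nd (nat_lit 9) 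
(.lf (nat_lit 514148) (.g (nat_lit 412) (.e (nat_lit 180284) (nat_lit 45) (.e (nat_lit 2579) (nat_lit 161) (.e (nat_lit 40965) (nat_lit 0) (.e (nat_lit 1558) (nat_lit 110) (.e (nat_lit 360192) (nat_lit 2) (.e (nat_lit 204544) (nat_lit 5) .nil)))))) (.g (nat_lit 1) (.e (nat_lit 205752) (nat_lit 0) .nil) .nil))) 
(.lf (nat_lit 514660) (.g (nat_lit 3476) (.e (nat_lit 188431) (nat_lit 20) (.e (nat_lit 3397) (nat_lit 211) (.e (nat_lit 647183) (nat_lit 4) (.e (nat_lit 172115) (nat_lit 10) (.e (nat_lit 434209) (nat_lit 18) (.e (nat_lit 5548) (nat_lit 306) (.e (nat_lit 2648) (nat_lit 166) .nil))))))) (.g (nat_lit 1) (.e (nat_lit 207675) (nat_lit 0) .nil) .nil)))) (.nd (nat_lit 9) 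
(.lf (nat_lit 514404) (.g (nat_lit 1688) (.e (nat_lit 188420) (nat_lit 0) (.e (nat_lit 2059) (nat_lit 142) (.e (nat_lit 704599) (nat_lit 6) (.e (nat_lit 188445) (nat_lit 21) (.e (nat_lit 164345) (nat_lit 240) (.e (nat_lit 2648) (nat_lit 166) .nil)))))) (.g (nat_lit 1) (.e (nat_lit 206377) (nat_lit 0) .nil) .nil))) 
(.lf (nat_lit 514916) (.g (nat_lit 2449) (.e (nat_lit 188438) (nat_lit 20) (.e (nat_lit 3469) (nat_lit 217) (.e (nat_lit 696344) (nat_lit 8) (.e (nat_lit 172115) (nat_lit 10) (.e (nat_lit 434202) (nat_lit 18) (.e (nat_lit 6254) (nat_lit 337) (.e (nat_lit 7936) (nat_lit 166) .nil))))))) (.g (nat_lit 1) (.e (nat_lit 208581) (nat_lit 0) .nil) .nil))))) (.nd (nat_lit 8) (.nd (nat_lit 9) 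
(.lf (nat_lit 514276) (.g (nat_lit 1071) (.e (nat_lit 188417) (nat_lit 0) (.e (nat_lit 2148) (nat_lit 142) (.e (nat_lit 704597) (nat_lit 6) (.e (nat_lit 188440) (nat_lit 20) (.e (nat_lit 3409) (nat_lit 212) (.e (nat_lit 655380) (nat_lit 6) .nil)))))) (.g (nat_lit 1) (.e (nat_lit 206230) (nat_lit 0) .nil) .nil))) 
(.lf (nat_lit 514788) (.g (nat_lit 577) (.e (nat_lit 188435) (nat_lit 20) (.e (nat_lit 3288) (nat_lit 201) (.e (nat_lit 565267) (nat_lit 4) (.e (nat_lit 65611) (nat_lit 10) (.e (nat_lit 344183) (nat_lit 49) .nil))))) (.g (nat_lit 0) (.e (nat_lit 208285) (nat_lit 0) .nil) .nil)))) (.nd (nat_lit 9) 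
(.lf (nat_lit 514532) (.g (nat_lit 1153) (.e (nat_lit 188423) (nat_lit 11) (.e (nat_lit 335996) (nat_lit 1) (.e (nat_lit 57685) (nat_lit 156) .nil))) (.g (nat_lit 0) (.e (nat_lit 207015) (nat_lit 0) .nil) .nil))) 
(.lf (nat_lit 515044) (.g (nat_lit 1820) (.e (nat_lit 188439) (nat_lit 20) (.e (nat_lit 3469) (nat_lit 217) (.e (nat_lit 696344) (nat_lit 8) (.e (nat_lit 172115) (nat_lit 10) (.e (nat_lit 434285) (nat_lit 42) .nil))))) (.g (nat_lit 0) (.e (nat_lit 208954) (nat_lit 0) .nil) .nil)))))))) (.nd (nat_lit 5) (.nd (nat_lit 6) (.nd (nat_lit 7) (.nd (nat_lit 8) (.nd (nat_lit 9) 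
(.lf (nat_lit 514068) (.g (nat_lit 722) (.e (nat_lit 188160) (nat_lit 32) (.e (nat_lit 1648) (nat_lit 115) (.e (nat_lit 393291) (nat_lit 26) (.e (nat_lit 475201) (nat_lit 40) (.e (nat_lit 712448) (nat_lit 5) .nil))))) (.g (nat_lit 0) (.e (nat_lit 205439) (nat_lit 0) .nil) .nil))) 
(.lf (nat_lit 514580) (.g (nat_lit 1324) (.e (nat_lit 196352) (nat_lit 16) (.e (nat_lit 376859) (nat_lit 21) (.e (nat_lit 57847) (nat_lit 252) (.e (nat_lit 57345) (nat_lit 0) .nil)))) (.g (nat_lit 0) (.e (nat_lit 207318) (nat_lit 0) .nil) .nil)))) (.nd (nat_lit 9) 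
(.lf (nat_lit 514324) (.g (nat_lit 1296) (.e (nat_lit 188418) (nat_lit 0) (.e (nat_lit 2174) (nat_lit 143) (.e (nat_lit 712745) (nat_lit 27) (.e (nat_lit 426318) (nat_lit 12) (.e (nat_lit 475198) (nat_lit 40) .nil))))) (.g (nat_lit 0) (.e (nat_lit 206291) (nat_lit 0) .nil) .nil))) 
(.lf (nat_lit 514836) (.g (nat_lit 2095) (.e (nat_lit 188435) (nat_lit 20) (.e (nat_lit 3469) (nat_lit 217) (.e (nat_lit 696344) (nat_lit 8) (.e (nat_lit 172113) (nat_lit 10) (.e (nat_lit 434207) (nat_lit 18) (.e (nat_lit 6250) (nat_lit 337) (.e (nat_lit 7936) (nat_lit 166) .nil))))))) (.g (nat_lit 1) (.e (nat_lit 208403) (nat_lit 0) .nil) .nil))))) (.nd (nat_lit 8) (.nd (nat_lit 9) 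
(.lf (nat_lit 514196) (.g (nat_lit 518) (.e (nat_lit 180287) (nat_lit 45) (.e (nat_lit 2577) (nat_lit 161) (.e (nat_lit 40965) (nat_lit 0) (.e (nat_lit 1582) (nat_lit 111) (.e (nat_lit 368384) (nat_lit 10) (.e (nat_lit 581376) (nat_lit 5) .nil)))))) (.g (nat_lit 1) (.e (nat_lit 205994) (nat_lit 0) .nil) .nil))) 
(.lf (nat_lit 514708) (.g (nat_lit 2245) (.e (nat_lit 188434) (nat_lit 20) (.e (nat_lit 3289) (nat_lit 201) (.e (nat_lit 565251) (nat_lit 0) (.e (nat_lit 1586) (nat_lit 111) (.e (nat_lit 360450) (nat_lit 0) (.e (nat_lit 7686) (nat_lit 410) (.e (nat_lit 7936) (nat_lit 166) .nil))))))) (.g (nat_lit 1) (.e (nat_lit 207912) (nat_lit 0) .nil) .nil)))) (.nd (nat_lit 9) 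
(.lf (nat_lit 514452) (.g (nat_lit 1223) (.e (nat_lit 196352) (nat_lit 0) (.e (nat_lit 1800) (nat_lit 119) (.e (nat_lit 516124) (nat_lit 2) (.e (nat_lit 213030) (nat_lit 11) (.e (nat_lit 24605) (nat_lit 2) .nil))))) (.g (nat_lit 0) (.e (nat_lit 206442) (nat_lit 0) .nil) .nil))) 
(.lf (nat_lit 514964) (.g (nat_lit 2435) (.e (nat_lit 188439) (nat_lit 20) (.e (nat_lit 3406) (nat_lit 212) (.e (nat_lit 655363) (nat_lit 0) (.e (nat_lit 2988) (nat_lit 186) (.e (nat_lit 442374) (nat_lit 0) (.e (nat_lit 2059) (nat_lit 142) (.e (nat_lit 704598) (nat_lit 6) .nil))))))) (.g (nat_lit 1) (.e (nat_lit 208705) (nat_lit 0) .nil) .nil)))))) 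
(.nd (nat_lit 7) (.nd (nat_lit 8) (.nd (nat_lit 9) 
(.lf (nat_lit 514132) (.g (nat_lit 1313) (.e (nat_lit 188160) (nat_lit 39) (.e (nat_lit 131140) (nat_lit 27) (.e (nat_lit 426316) (nat_lit 12) (.e (nat_lit 475201) (nat_lit 40) (.e (nat_lit 712448) (nat_lit 5) .nil))))) (.g (nat_lit 0) (.e (nat_lit 205668) (nat_lit 0) .nil) .nil))) 
(.lf (nat_lit 514644) (.g (nat_lit 1457) (.e (nat_lit 188430) (nat_lit 20) (.e (nat_lit 3397) (nat_lit 211) (.e (nat_lit 647185) (nat_lit 6) (.e (nat_lit 188441) (nat_lit 20) (.e (nat_lit 3406) (nat_lit 212) .nil))))) (.g (nat_lit 0) (.e (nat_lit 207622) (nat_lit 0) .nil) .nil)))) (.nd (nat_lit 9) 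
(.lf (nat_lit 514388) (.g (nat_lit 2033) (.e (nat_lit 188420) (nat_lit 0) (.e (nat_lit 2058) (nat_lit 142) (.e (nat_lit 704598) (nat_lit 6) (.e (nat_lit 188446) (nat_lit 21) (.e (nat_lit 164345) (nat_lit 240) (.e (nat_lit 2648) (nat_lit 166) .nil)))))) (.g (nat_lit 1) (.e (nat_lit 206361) (nat_lit 0) .nil) .nil))) 
(.lf (nat_lit 514900) (.g (nat_lit 1093) (.e (nat_lit 188438) (nat_lit 20) (.e (nat_lit 3409) (nat_lit 212) (.e (nat_lit 655380) (nat_lit 6) (.e (nat_lit 188435) (nat_lit 20) (.e (nat_lit 3409) (nat_lit 212) (.e (nat_lit 655380) (nat_lit 6) .nil)))))) (.g (nat_lit 1) (.e (nat_lit 208527) (nat_lit 0) .nil) .nil))))) (.nd (nat_lit 8) (.nd (nat_lit 9) 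
(.lf (nat_lit 514260) (.g (nat_lit 1415) (.e (nat_lit 188416) (nat_lit 0) (.e (nat_lit 2147) (nat_lit 142) (.e (nat_lit 704597) (nat_lit 6) (.e (nat_lit 188440) (nat_lit 20) (.e (nat_lit 3409) (nat_lit 212) (.e (nat_lit 655380) (nat_lit 6) .nil)))))) (.g (nat_lit 1) (.e (nat_lit 206196) (nat_lit 0) .nil) .nil))) 
(.lf (nat_lit 514772) (.g (nat_lit 2587) (.e (nat_lit 188434) (nat_lit 20) (.e (nat_lit 3469) (nat_lit 217) (.e (nat_lit 696344) (nat_lit 8) (.e (nat_lit 172113) (nat_lit 10) (.e (nat_lit 434286) (nat_lit 42) (.e (nat_lit 696064) (nat_lit 10) .nil)))))) (.g (nat_lit 1) (.e (nat_lit 208234) (nat_lit 0) .nil) .nil)))) (.nd (nat_lit 9) 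
(.lf (nat_lit 514516) (.g (nat_lit 2754) (.e (nat_lit 188423) (nat_lit 11) (.e (nat_lit 335986) (nat_lit 1) (.e (nat_lit 57688) (nat_lit 156) (.e (nat_lit 163907) (nat_lit 12) (.e (nat_lit 426427) (nat_lit 17) .nil))))) (.g (nat_lit 0) (.e (nat_lit 206999) (nat_lit 0) .nil) .nil))) 
(.lf (nat_lit 515028) (.g (nat_lit 1936) (.e (nat_lit 188439) (nat_lit 20) (.e (nat_lit 3469) (nat_lit 217) (.e (nat_lit 696344) (nat_lit 8) (.e (nat_lit 172106) (nat_lit 10) (.e (nat_lit 434287) (nat_lit 43) .nil))))) (.g (nat_lit 0) (.e (nat_lit 208938) (nat_lit 0) .nil) .nil))))))) (.nd (nat_lit 6) (.nd (nat_lit 7) (.nd (nat_lit 8) (.nd (nat_lit 9) 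
(.lf (nat_lit 514100) (.g (nat_lit 2133) (.e (nat_lit 188160) (nat_lit 35) (.e (nat_lit 57464) (nat_lit 23) (.e (nat_lit 516151) (nat_lit 9) (.e (nat_lit 426277) (nat_lit 10) .nil)))) (.g (nat_lit 0) (.e (nat_lit 205539) (nat_lit 0) .nil) .nil))) 
(.lf (nat_lit 514612) (.g (nat_lit 2236) (.e (nat_lit 188425) (nat_lit 20) (.e (nat_lit 3264) (nat_lit 199) (.e (nat_lit 548913) (nat_lit 18) (.e (nat_lit 172120) (nat_lit 12) .nil)))) (.g (nat_lit 0) (.e (nat_lit 207402) (nat_lit 0) .nil) .nil)))) (.nd (nat_lit 9) 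
(.lf (nat_lit 514356) (.g (nat_lit 2354) (.e (nat_lit 188419) (nat_lit 0) (.e (nat_lit 2057) (nat_lit 142) (.e (nat_lit 704598) (nat_lit 6) (.e (nat_lit 188444) (nat_lit 21) (.e (nat_lit 164347) (nat_lit 240) (.e (nat_lit 2650) (nat_lit 166) .nil)))))) (.g (nat_lit 1) (.e (nat_lit 206327) (nat_lit 0) .nil) .nil))) 
(.lf (nat_lit 514868) (.g (nat_lit 2092) (.e (nat_lit 188438) (nat_lit 20) (.e (nat_lit 3255) (nat_lit 197) (.e (nat_lit 532563) (nat_lit 15) (.e (nat_lit 385093) (nat_lit 49) (.e (nat_lit 778318) (nat_lit 3) .nil))))) (.g (nat_lit 0) (.e (nat_lit 208474) (nat_lit 0) .nil) .nil))))) (.nd (nat_lit 8) (.nd (nat_lit 9) 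
(.lf (nat_lit 514228) (.g (nat_lit 403) (.e (nat_lit 180288) (nat_lit 45) (.e (nat_lit 2579) (nat_lit 161) (.e (nat_lit 40964) (nat_lit 0) (.e (nat_lit 1585) (nat_lit 111) (.e (nat_lit 368384) (nat_lit 10) (.e (nat_lit 581376) (nat_lit 5) .nil)))))) (.g (nat_lit 1) (.e (nat_lit 206079) (nat_lit 0) .nil) .nil))) 
(.lf (nat_lit 514740) (.g (nat_lit 3166) (.e (nat_lit 188434) (nat_lit 20) (.e (nat_lit 3409) (nat_lit 212) (.e (nat_lit 655380) (nat_lit 6) (.e (nat_lit 188446) (nat_lit 21) (.e (nat_lit 164347) (nat_lit 240) (.e (nat_lit 2650) (nat_lit 166) .nil)))))) (.g (nat_lit 1) (.e (nat_lit 208062) (nat_lit 0) .nil) .nil)))) (.nd (nat_lit 9) 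
(.lf (nat_lit 514484) (.g (nat_lit 1227) (.e (nat_lit 188421) (nat_lit 11) (.e (nat_lit 335988) (nat_lit 1) (.e (nat_lit 57685) (nat_lit 156) .nil))) (.g (nat_lit 0) (.e (nat_lit 206617) (nat_lit 0) .nil) .nil))) 
(.lf (nat_lit 514996) (.g (nat_lit 3371) (.e (nat_lit 188439) (nat_lit 20) (.e (nat_lit 3409) (nat_lit 212) (.e (nat_lit 655378) (nat_lit 4) (.e (nat_lit 172097) (nat_lit 9) (.e (nat_lit 426109) (nat_lit 1) (.e (nat_lit 164347) (nat_lit 240) (.e (nat_lit 2648) (nat_lit 166) .nil))))))) (.g (nat_lit 1) (.e (nat_lit 208822) (nat_lit 0) .nil) .nil)))))) 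
(.nd (nat_lit 7) (.nd (nat_lit 8) (.nd (nat_lit 9) 
(.lf (nat_lit 514164) (.g (nat_lit 795) (.e (nat_lit 180284) (nat_lit 45) (.e (nat_lit 2789) (nat_lit 179) (.e (nat_lit 294974) (nat_lit 29) (.e (nat_lit 442378) (nat_lit 0) .nil)))) (.g (nat_lit 0) (.e (nat_lit 205781) (nat_lit 0) .nil) .nil))) 
(.lf (nat_lit 514676) (.g (nat_lit 1265) (.e (nat_lit 188431) (nat_lit 20) (.e (nat_lit 3399) (nat_lit 211) (.e (nat_lit 647185) (nat_lit 6) (.e (nat_lit 188453) (nat_lit 24) (.e (nat_lit 229666) (nat_lit 240) (.e (nat_lit 7936) (nat_lit 166) .nil)))))) (.g (nat_lit 1) (.e (nat_lit 207696) (nat_lit 0) .nil) .nil)))) (.nd (nat_lit 9) 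
(.lf (nat_lit 514420) (.g (nat_lit 2405) (.e (nat_lit 188420) (nat_lit 0) (.e (nat_lit 2174) (nat_lit 143) (.e (nat_lit 712755) (nat_lit 30) (.e (nat_lit 450562) (nat_lit 0) (.e (nat_lit 5539) (nat_lit 306) (.e (nat_lit 7936) (nat_lit 166) .nil)))))) (.g (nat_lit 1) (.e (nat_lit 206404) (nat_lit 0) .nil) .nil))) 
(.lf (nat_lit 514932) (.g (nat_lit 3630) (.e (nat_lit 188439) (nat_lit 20) (.e (nat_lit 3271) (nat_lit 199) (.e (nat_lit 548913) (nat_lit 18) (.e (nat_lit 172119) (nat_lit 12) (.e (nat_lit 475185) (nat_lit 29) (.e (nat_lit 557107) (nat_lit 15) .nil)))))) (.g (nat_lit 1) (.e (nat_lit 208610) (nat_lit 0) .nil) .nil))))) (.nd (nat_lit 8) (.nd (nat_lit 9) 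
(.lf (nat_lit 514292) (.g (nat_lit 1380) (.e (nat_lit 188418) (nat_lit 0) (.e (nat_lit 1856) (nat_lit 124) (.e (nat_lit 557104) (nat_lit 14) (.e (nat_lit 180277) (nat_lit 32) .nil)))) (.g (nat_lit 0) (.e (nat_lit 206252) (nat_lit 0) .nil) .nil))) 
(.lf (nat_lit 514804) (.g (nat_lit 863) (.e (nat_lit 188435) (nat_lit 20) (.e (nat_lit 3408) (nat_lit 212) (.e (nat_lit 655363) (nat_lit 0) (.e (nat_lit 3004) (nat_lit 186) (.e (nat_lit 450304) (nat_lit 4) .nil))))) (.g (nat_lit 0) (.e (nat_lit 208311) (nat_lit 0) .nil) .nil)))) (.nd (nat_lit 9) 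
(.lf (nat_lit 514548) (.g (nat_lit 1760) (.e (nat_lit 188423) (nat_lit 11) (.e (nat_lit 336385) (nat_lit 27) (.e (nat_lit 426098) (nat_lit 1) (.e (nat_lit 164398) (nat_lit 256) (.e (nat_lit 57373) (nat_lit 2) .nil))))) (.g (nat_lit 0) (.e (nat_lit 207258) (nat_lit 0) .nil) .nil))) 
(.lf (nat_lit 515060) (.g (nat_lit 958) (.e (nat_lit 188440) (nat_lit 20) (.e (nat_lit 3272) (nat_lit 199) (.e (nat_lit 548913) (nat_lit 18) (.e (nat_lit 172118) (nat_lit 12) .nil)))) (.g (nat_lit 0) (.e (nat_lit 209000) (nat_lit 0) .nil) .nil))))))))) (.nd (nat_lit 4) (.nd (nat_lit 5) (.nd (nat_lit 6) (.nd (nat_lit 7) (.nd (nat_lit 8) (.nd (nat_lit 9) 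
(.lf (nat_lit 514060) (.g (nat_lit 2663) (.e (nat_lit 188160) (nat_lit 32) (.e (nat_lit 1454) (nat_lit 108) (.e (nat_lit 336389) (nat_lit 27) (.e (nat_lit 426306) (nat_lit 12) (.e (nat_lit 475199) (nat_lit 40) .nil))))) (.g (nat_lit 0) (.e (nat_lit 205428) (nat_lit 0) .nil) .nil))) 
(.lf (nat_lit 514572) (.g (nat_lit 1974) (.e (nat_lit 196352) (nat_lit 11) (.e (nat_lit 336390) (nat_lit 27) (.e (nat_lit 426098) (nat_lit 1) (.e (nat_lit 164403) (nat_lit 256) (.e (nat_lit 57371) (nat_lit 2) .nil))))) (.g (nat_lit 0) (.e (nat_lit 207298) (nat_lit 0) .nil) .nil)))) (.nd (nat_lit 9) 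
(.lf (nat_lit 514316) (.g (nat_lit 380) (.e (nat_lit 188418) (nat_lit 0) (.e (nat_lit 2059) (nat_lit 142) (.e (nat_lit 704599) (nat_lit 6) .nil))) (.g (nat_lit 0) (.e (nat_lit 206280) (nat_lit 0) .nil) .nil))) 
(.lf (nat_lit 514828) (.g (nat_lit 2121) (.e (nat_lit 188435) (nat_lit 20) (.e (nat_lit 3469) (nat_lit 217) (.e (nat_lit 696344) (nat_lit 8) (.e (nat_lit 172106) (nat_lit 10) (.e (nat_lit 434285) (nat_lit 42) (.e (nat_lit 696064) (nat_lit 10) .nil)))))) (.g (nat_lit 1) (.e (nat_lit 208395) (nat_lit 0) .nil) .nil))))) (.nd (nat_lit 8) (.nd (nat_lit 9) 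
(.lf (nat_lit 514188) (.g (nat_lit 500) (.e (nat_lit 180285) (nat_lit 45) (.e (nat_lit 2580) (nat_lit 161) (.e (nat_lit 40965) (nat_lit 0) (.e (nat_lit 1585) (nat_lit 111) (.e (nat_lit 368384) (nat_lit 10) (.e (nat_lit 581376) (nat_lit 5) .nil)))))) (.g (nat_lit 1) (.e (nat_lit 205873) (nat_lit 0) .nil) .nil))) 
(.lf (nat_lit 514700) (.g (nat_lit 2430) (.e (nat_lit 188434) (nat_lit 20) (.e (nat_lit 3238) (nat_lit 197) (.e (nat_lit 532523) (nat_lit 7) (.e (nat_lit 319534) (nat_lit 16) (.e (nat_lit 286733) (nat_lit 2) .nil))))) (.g (nat_lit 0) (.e (nat_lit 207888) (nat_lit 0) .nil) .nil)))) (.nd (nat_lit 9) 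
(.lf (nat_lit 514444) (.g (nat_lit 2852) (.e (nat_lit 188420) (nat_lit 0) (.e (nat_lit 2175) (nat_lit 143) (.e (nat_lit 712755) (nat_lit 30) (.e (nat_lit 450564) (nat_lit 0) (.e (nat_lit 5548) (nat_lit 306) (.e (nat_lit 2648) (nat_lit 166) .nil)))))) (.g (nat_lit 1) (.e (nat_lit 206431) (nat_lit 0) .nil) .nil))) 
(.lf (nat_lit 514956) (.g (nat_lit 1872) (.e (nat_lit 188439) (nat_lit 20) (.e (nat_lit 3289) (nat_lit 201) (.e (nat_lit 565269) (nat_lit 6) (.e (nat_lit 81938) (nat_lit 20) (.e (nat_lit 2390) (nat_lit 156) (.e (nat_lit 819221) (nat_lit 6) .nil)))))) (.g (nat_lit 1) (.e (nat_lit 208664) (nat_lit 0) .nil) .nil)))))) (.nd (nat_lit 7) (.nd (nat_lit 8) (.nd (nat_lit 9) 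
(.lf (nat_lit 514124) (.g (nat_lit 1352) (.e (nat_lit 188160) (nat_lit 39) (.e (nat_lit 131140) (nat_lit 27) (.e (nat_lit 426199) (nat_lit 9) (.e (nat_lit 426444) (nat_lit 19) (.e (nat_lit 114432) (nat_lit 5) .nil))))) (.g (nat_lit 0) (.e (nat_lit 205649) (nat_lit 0) .nil) .nil))) 
(.lf (nat_lit 514636) (.g (nat_lit 2081) (.e (nat_lit 188428) (nat_lit 20) (.e (nat_lit 3402) (nat_lit 211) (.e (nat_lit 647183) (nat_lit 4) (.e (nat_lit 172118) (nat_lit 12) (.e (nat_lit 475198) (nat_lit 40) (.e (nat_lit 712448) (nat_lit 6) .nil)))))) (.g (nat_lit 1) (.e (nat_lit 207537) (nat_lit 0) .nil) .nil)))) (.nd (nat_lit 9) 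
(.lf (nat_lit 514380) (.g (nat_lit 1502) (.e (nat_lit 188420) (nat_lit 0) (.e (nat_lit 2056) (nat_lit 142) (.e (nat_lit 704599) (nat_lit 6) (.e (nat_lit 188440) (nat_lit 20) (.e (nat_lit 3408) (nat_lit 212) (.e (nat_lit 655380) (nat_lit 6) .nil)))))) (.g (nat_lit 1) (.e (nat_lit 206352) (nat_lit 0) .nil) .nil))) 
(.lf (nat_lit 514892) (.g (nat_lit 1410) (.e (nat_lit 188438) (nat_lit 20) (.e (nat_lit 3407) (nat_lit 212) (.e (nat_lit 655380) (nat_lit 6) (.e (nat_lit 188434) (nat_lit 20) (.e (nat_lit 3408) (nat_lit 212) (.e (nat_lit 655380) (nat_lit 6) .nil)))))) (.g (nat_lit 1) (.e (nat_lit 208515) (nat_lit 0) .nil) .nil))))) (.nd (nat_lit 8) (.nd (nat_lit 9) 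
(.lf (nat_lit 514252) (.g (nat_lit 2061) (.e (nat_lit 180292) (nat_lit 49) (.e (nat_lit 229647) (nat_lit 232) (.e (nat_lit 464) (nat_lit 34) (.e (nat_lit 442379) (nat_lit 0) (.e (nat_lit 2059) (nat_lit 142) (.e (nat_lit 704595) (nat_lit 5) .nil)))))) (.g (nat_lit 1) (.e (nat_lit 206184) (nat_lit 0) .nil) .nil))) 
(.lf (nat_lit 514764) (.g (nat_lit 1977) (.e (nat_lit 188434) (nat_lit 20) (.e (nat_lit 3469) (nat_lit 217) (.e (nat_lit 696344) (nat_lit 8) (.e (nat_lit 172113) (nat_lit 10) (.e (nat_lit 434203) (nat_lit 18) (.e (nat_lit 6262) (nat_lit 337) (.e (nat_lit 7936) (nat_lit 166) .nil))))))) (.g (nat_lit 1) (.e (nat_lit 208226) (nat_lit 0) .nil) .nil)))) (.nd (nat_lit 9) 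
(.lf (nat_lit 514508) (.g (nat_lit 390) (.e (nat_lit 188421) (nat_lit 11) (.e (nat_lit 336288) (nat_lit 15) (.e (nat_lit 7105) (nat_lit 380) .nil))) (.g (nat_lit 0) (.e (nat_lit 206866) (nat_lit 0) .nil) .nil))) 
(.lf (nat_lit 515020) (.g (nat_lit 2002) (.e (nat_lit 188439) (nat_lit 20) (.e (nat_lit 3468) (nat_lit 217) (.e (nat_lit 696344) (nat_lit 8) (.e (nat_lit 172115) (nat_lit 10) (.e (nat_lit 434209) (nat_lit 18) (.e (nat_lit 6273) (nat_lit 337) (.e (nat_lit 2645) (nat_lit 166) .nil))))))) (.g (nat_lit 1) (.e (nat_lit 208874) (nat_lit 0) .nil) .nil))))))) 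
(.nd (nat_lit 6) (.nd (nat_lit 7) (.nd (nat_lit 8) (.nd (nat_lit 9) 
(.lf (nat_lit 514092) (.g (nat_lit 972) (.e (nat_lit 188160) (nat_lit 32) (.e (nat_lit 1665) (nat_lit 115) (.e (nat_lit 393296) (nat_lit 26) (.e (nat_lit 475196) (nat_lit 40) (.e (nat_lit 704596) (nat_lit 5) .nil))))) (.g (nat_lit 0) (.e (nat_lit 205463) (nat_lit 0) .nil) .nil))) 
(.lf (nat_lit 514604) (.g (nat_lit 2914) (.e (nat_lit 188424) (nat_lit 20) (.e (nat_lit 3272) (nat_lit 199) (.e (nat_lit 548913) (nat_lit 18) (.e (nat_lit 172120) (nat_lit 12) .nil)))) (.g (nat_lit 0) (.e (nat_lit 207381) (nat_lit 0) .nil) .nil)))) (.nd (nat_lit 9) 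
(.lf (nat_lit 514348) (.g (nat_lit 2188) (.e (nat_lit 188418) (nat_lit 0) (.e (nat_lit 2175) (nat_lit 143) (.e (nat_lit 712755) (nat_lit 30) (.e (nat_lit 450563) (nat_lit 0) (.e (nat_lit 5537) (nat_lit 306) (.e (nat_lit 7936) (nat_lit 166) .nil)))))) (.g (nat_lit 1) (.e (nat_lit 206319) (nat_lit 0) .nil) .nil))) 
(.lf (nat_lit 514860) (.g (nat_lit 3822) (.e (nat_lit 188437) (nat_lit 20) (.e (nat_lit 3238) (nat_lit 197) (.e (nat_lit 532523) (nat_lit 7) (.e (nat_lit 319529) (nat_lit 16) (.e (nat_lit 286733) (nat_lit 2) (.e (nat_lit 90177) (nat_lit 15) .nil)))))) (.g (nat_lit 1) (.e (nat_lit 208450) (nat_lit 0) .nil) .nil))))) (.nd (nat_lit 8) (.nd (nat_lit 9) 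
(.lf (nat_lit 514220) (.g (nat_lit 510) (.e (nat_lit 180287) (nat_lit 45) (.e (nat_lit 2580) (nat_lit 161) (.e (nat_lit 40965) (nat_lit 0) (.e (nat_lit 1582) (nat_lit 111) (.e (nat_lit 368384) (nat_lit 10) (.e (nat_lit 581376) (nat_lit 5) .nil)))))) (.g (nat_lit 1) (.e (nat_lit 206018) (nat_lit 0) .nil) .nil))) 
(.lf (nat_lit 514732) (.g (nat_lit 2140) (.e (nat_lit 188434) (nat_lit 20) (.e (nat_lit 3408) (nat_lit 212) (.e (nat_lit 655380) (nat_lit 6) (.e (nat_lit 188441) (nat_lit 20) (.e (nat_lit 3408) (nat_lit 212) (.e (nat_lit 655380) (nat_lit 6) .nil)))))) (.g (nat_lit 1) (.e (nat_lit 208036) (nat_lit 0) .nil) .nil)))) (.nd (nat_lit 9) 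
(.lf (nat_lit 514476) (.g (nat_lit 1424) (.e (nat_lit 196352) (nat_lit 5) (.e (nat_lit 114711) (nat_lit 21) (.e (nat_lit 57847) (nat_lit 252) (.e (nat_lit 57443) (nat_lit 18) .nil)))) (.g (nat_lit 0) (.e (nat_lit 206480) (nat_lit 0) .nil) .nil))) 
(.lf (nat_lit 514988) (.g (nat_lit 1709) (.e (nat_lit 188439) (nat_lit 20) (.e (nat_lit 3408) (nat_lit 212) (.e (nat_lit 655380) (nat_lit 6) (.e (nat_lit 188420) (nat_lit 0) (.e (nat_lit 2059) (nat_lit 142) (.e (nat_lit 704598) (nat_lit 6) .nil)))))) (.g (nat_lit 1) (.e (nat_lit 208796) (nat_lit 0) .nil) .nil)))))) (.nd (nat_lit 7) (.nd (nat_lit 8) (.nd (nat_lit 9) 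
(.lf (nat_lit 514156) (.g (nat_lit 243) (.e (nat_lit 180284) (nat_lit 45) (.e (nat_lit 2580) (nat_lit 161) (.e (nat_lit 40964) (nat_lit 0) (.e (nat_lit 1585) (nat_lit 111) (.e (nat_lit 368384) (nat_lit 10) (.e (nat_lit 581376) (nat_lit 5) .nil)))))) (.g (nat_lit 1) (.e (nat_lit 205760) (nat_lit 0) .nil) .nil))) 
(.lf (nat_lit 514668) (.g (nat_lit 2789) (.e (nat_lit 188431) (nat_lit 20) (.e (nat_lit 3397) (nat_lit 211) (.e (nat_lit 647185) (nat_lit 6) (.e (nat_lit 188455) (nat_lit 24) (.e (nat_lit 229665) (nat_lit 240) (.e (nat_lit 2651) (nat_lit 166) .nil)))))) (.g (nat_lit 1) (.e (nat_lit 207685) (nat_lit 0) .nil) .nil)))) (.nd (nat_lit 9) 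
(.lf (nat_lit 514412) (.g (nat_lit 1014) (.e (nat_lit 188420) (nat_lit 0) (.e (nat_lit 2174) (nat_lit 143) (.e (nat_lit 712752) (nat_lit 29) (.e (nat_lit 442382) (nat_lit 8) .nil)))) (.g (nat_lit 0) (.e (nat_lit 206392) (nat_lit 0) .nil) .nil))) 
(.lf (nat_lit 514924) (.g (nat_lit 903) (.e (nat_lit 188438) (nat_lit 20) (.e (nat_lit 3579) (nat_lit 223) (.e (nat_lit 745476) (nat_lit 0) (.e (nat_lit 1575) (nat_lit 110) .nil)))) (.g (nat_lit 0) (.e (nat_lit 208590) (nat_lit 0) .nil) .nil))))) (.nd (nat_lit 8) (.nd (nat_lit 9) 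
(.lf (nat_lit 514284) (.g (nat_lit 2049) (.e (nat_lit 188418) (nat_lit 0) (.e (nat_lit 1855) (nat_lit 124) (.e (nat_lit 557098) (nat_lit 13) (.e (nat_lit 172120) (nat_lit 12) (.e (nat_lit 475185) (nat_lit 29) .nil))))) (.g (nat_lit 0) (.e (nat_lit 206243) (nat_lit 0) .nil) .nil))) 
(.lf (nat_lit 514796) (.g (nat_lit 686) (.e (nat_lit 188435) (nat_lit 20) (.e (nat_lit 3407) (nat_lit 212) (.e (nat_lit 655378) (nat_lit 4) (.e (nat_lit 172107) (nat_lit 10) .nil)))) (.g (nat_lit 0) (.e (nat_lit 208300) (nat_lit 0) .nil) .nil)))) (.nd (nat_lit 9) 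
(.lf (nat_lit 514540) (.g (nat_lit 3048) (.e (nat_lit 188423) (nat_lit 11) (.e (nat_lit 336230) (nat_lit 14) (.e (nat_lit 401448) (nat_lit 10) (.e (nat_lit 434289) (nat_lit 43) (.e (nat_lit 696346) (nat_lit 10) .nil))))) (.g (nat_lit 1) (.e (nat_lit 207121) (nat_lit 0) .nil) .nil))) 
(.lf (nat_lit 515052) (.g (nat_lit 1455) (.e (nat_lit 188443) (nat_lit 20) (.e (nat_lit 3304) (nat_lit 202) (.e (nat_lit 573454) (nat_lit 9) (.e (nat_lit 397) (nat_lit 32) .nil)))) (.g (nat_lit 0) (.e (nat_lit 208968) (nat_lit 0) .nil) .nil)))))))) (.nd (nat_lit 5) (.nd (nat_lit 6) (.nd (nat_lit 7) (.nd (nat_lit 8) (.nd (nat_lit 9) 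
(.lf (nat_lit 514076) (.g (nat_lit 927) (.e (nat_lit 188160) (nat_lit 32) (.e (nat_lit 1653) (nat_lit 115) (.e (nat_lit 393294) (nat_lit 26) (.e (nat_lit 475199) (nat_lit 40) .nil)))) (.g (nat_lit 0) (.e (nat_lit 205447) (nat_lit 0) .nil) .nil))) 
(.lf (nat_lit 514588) (.g (nat_lit 817) (.e (nat_lit 196352) (nat_lit 18) (.e (nat_lit 393251) (nat_lit 18) (.e (nat_lit 164401) (nat_lit 256) .nil))) (.g (nat_lit 0) (.e (nat_lit 207340) (nat_lit 0) .nil) .nil)))) (.nd (nat_lit 9) 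
(.lf (nat_lit 514332) (.g (nat_lit 2475) (.e (nat_lit 188418) (nat_lit 0) (.e (nat_lit 2174) (nat_lit 143) (.e (nat_lit 712755) (nat_lit 30) (.e (nat_lit 450562) (nat_lit 0) (.e (nat_lit 5539) (nat_lit 306) (.e (nat_lit 7936) (nat_lit 166) .nil)))))) (.g (nat_lit 1) (.e (nat_lit 206302) (nat_lit 0) .nil) .nil))) 
(.lf (nat_lit 514844) (.g (nat_lit 2059) (.e (nat_lit 188435) (nat_lit 20) (.e (nat_lit 3469) (nat_lit 217) (.e (nat_lit 696344) (nat_lit 8) (.e (nat_lit 172116) (nat_lit 10) (.e (nat_lit 434286) (nat_lit 42) (.e (nat_lit 696064) (nat_lit 10) .nil)))))) (.g (nat_lit 1) (.e (nat_lit 208411) (nat_lit 0) .nil) .nil))))) (.nd (nat_lit 8) (.nd (nat_lit 9) 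
(.lf (nat_lit 514204) (.g (nat_lit 312) (.e (nat_lit 180287) (nat_lit 45) (.e (nat_lit 2579) (nat_lit 161) (.e (nat_lit 40964) (nat_lit 0) (.e (nat_lit 1585) (nat_lit 111) (.e (nat_lit 368384) (nat_lit 10) (.e (nat_lit 581376) (nat_lit 5) .nil)))))) (.g (nat_lit 1) (.e (nat_lit 206002) (nat_lit 0) .nil) .nil))) 
(.lf (nat_lit 514716) (.g (nat_lit 2448) (.e (nat_lit 188434) (nat_lit 20) (.e (nat_lit 3390) (nat_lit 210) (.e (nat_lit 639025) (nat_lit 20) (.e (nat_lit 131116) (nat_lit 9) (.e (nat_lit 335988) (nat_lit 1) (.e (nat_lit 57830) (nat_lit 250) (.e (nat_lit 7936) (nat_lit 166) .nil))))))) (.g (nat_lit 1) (.e (nat_lit 207976) (nat_lit 0) .nil) .nil)))) (.nd (nat_lit 9) 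
(.lf (nat_lit 514460) (.g (nat_lit 1960) (.e (nat_lit 196352) (nat_lit 0) (.e (nat_lit 1859) (nat_lit 124) (.e (nat_lit 557098) (nat_lit 13) (.e (nat_lit 172126) (nat_lit 14) (.e (nat_lit 491537) (nat_lit 2) .nil))))) (.g (nat_lit 0) (.e (nat_lit 206450) (nat_lit 0) .nil) .nil))) 
(.lf (nat_lit 514972) (.g (nat_lit 1046) (.e (nat_lit 188439) (nat_lit 20) (.e (nat_lit 3407) (nat_lit 212) (.e (nat_lit 655364) (nat_lit 0) (.e (nat_lit 2989) (nat_lit 186) (.e (nat_lit 450304) (nat_lit 4) (.e (nat_lit 114432) (nat_lit 6) .nil)))))) (.g (nat_lit 1) (.e (nat_lit 208736) (nat_lit 0) .nil) .nil)))))) (.nd (nat_lit 7) (.nd (nat_lit 8) (.nd (nat_lit 9) 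
(.lf (nat_lit 514140) (.g (nat_lit 1966) (.e (nat_lit 188160) (nat_lit 40) (.e (nat_lit 2684) (nat_lit 168) (.e (nat_lit 204846) (nat_lit 24) (.e (nat_lit 319532) (nat_lit 16) (.e (nat_lit 286733) (nat_lit 2) .nil))))) (.g (nat_lit 0) (.e (nat_lit 205693) (nat_lit 0) .nil) .nil))) 
(.lf (nat_lit 514652) (.g (nat_lit 2119) (.e (nat_lit 188431) (nat_lit 20) (.e (nat_lit 3263) (nat_lit 199) (.e (nat_lit 548913) (nat_lit 18) (.e (nat_lit 172120) (nat_lit 12) .nil)))) (.g (nat_lit 0) (.e (nat_lit 207657) (nat_lit 0) .nil) .nil)))) (.nd (nat_lit 9) 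
(.lf (nat_lit 514396) (.g (nat_lit 3524) (.e (nat_lit 188420) (nat_lit 0) (.e (nat_lit 2058) (nat_lit 142) (.e (nat_lit 704599) (nat_lit 6) (.e (nat_lit 188453) (nat_lit 24) (.e (nat_lit 229663) (nat_lit 240) (.e (nat_lit 2651) (nat_lit 166) .nil)))))) (.g (nat_lit 1) (.e (nat_lit 206369) (nat_lit 0) .nil) .nil))) 
(.lf (nat_lit 514908) (.g (nat_lit 1843) (.e (nat_lit 188438) (nat_lit 20) (.e (nat_lit 3469) (nat_lit 217) (.e (nat_lit 696344) (nat_lit 8) (.e (nat_lit 172106) (nat_lit 10) (.e (nat_lit 434286) (nat_lit 42) .nil))))) (.g (nat_lit 0) (.e (nat_lit 208573) (nat_lit 0) .nil) .nil))))) (.nd (nat_lit 8) (.nd (nat_lit 9) 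
(.lf (nat_lit 514268) (.g (nat_lit 1327) (.e (nat_lit 188417) (nat_lit 0) (.e (nat_lit 2143) (nat_lit 142) (.e (nat_lit 704597) (nat_lit 6) (.e (nat_lit 188418) (nat_lit 0) (.e (nat_lit 2058) (nat_lit 142) (.e (nat_lit 704598) (nat_lit 6) .nil)))))) (.g (nat_lit 1) (.e (nat_lit 206207) (nat_lit 0) .nil) .nil))) 
(.lf (nat_lit 514780) (.g (nat_lit 1538) (.e (nat_lit 188434) (nat_lit 20) (.e (nat_lit 3579) (nat_lit 223) (.e (nat_lit 745491) (nat_lit 4) (.e (nat_lit 65617) (nat_lit 10) (.e (nat_lit 344136) (nat_lit 29) .nil))))) (.g (nat_lit 0) (.e (nat_lit 208256) (nat_lit 0) .nil) .nil)))) (.nd (nat_lit 9) 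
(.lf (nat_lit 514524) (.g (nat_lit 2713) (.e (nat_lit 188423) (nat_lit 11) (.e (nat_lit 335995) (nat_lit 1) (.e (nat_lit 57688) (nat_lit 156) (.e (nat_lit 163902) (nat_lit 12) (.e (nat_lit 426427) (nat_lit 17) .nil))))) (.g (nat_lit 0) (.e (nat_lit 207007) (nat_lit 0) .nil) .nil))) 
(.lf (nat_lit 515036) (.g (nat_lit 2766) (.e (nat_lit 188439) (nat_lit 20) (.e (nat_lit 3469) (nat_lit 217) (.e (nat_lit 696344) (nat_lit 8) (.e (nat_lit 172113) (nat_lit 10) (.e (nat_lit 434207) (nat_lit 18) (.e (nat_lit 6252) (nat_lit 337) (.e (nat_lit 7936) (nat_lit 166) .nil))))))) (.g (nat_lit 1) (.e (nat_lit 208946) (nat_lit 0) .nil) .nil))))))) 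
(.nd (nat_lit 6) (.nd (nat_lit 7) (.nd (nat_lit 8) (.nd (nat_lit 9) 
(.lf (nat_lit 514108) (.g (nat_lit 538) (.e (nat_lit 188160) (nat_lit 38) (.e (nat_lit 122936) (nat_lit 23) (.e (nat_lit 516131) (nat_lit 3) (.e (nat_lit 221218) (nat_lit 24) .nil)))) (.g (nat_lit 0) (.e (nat_lit 205612) (nat_lit 0) .nil) .nil))) 
(.lf (nat_lit 514620) (.g (nat_lit 1061) (.e (nat_lit 188427) (nat_lit 20) (.e (nat_lit 3401) (nat_lit 211) (.e (nat_lit 647170) (nat_lit 0) (.e (nat_lit 2999) (nat_lit 186) (.e (nat_lit 450304) (nat_lit 4) (.e (nat_lit 114432) (nat_lit 6) .nil)))))) (.g (nat_lit 1) (.e (nat_lit 207422) (nat_lit 0) .nil) .nil)))) (.nd (nat_lit 9) 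
(.lf (nat_lit 514364) (.g (nat_lit 1905) (.e (nat_lit 188419) (nat_lit 0) (.e (nat_lit 2174) (nat_lit 143) (.e (nat_lit 712755) (nat_lit 30) (.e (nat_lit 450565) (nat_lit 0) (.e (nat_lit 5548) (nat_lit 306) .nil))))) (.g (nat_lit 0) (.e (nat_lit 206335) (nat_lit 0) .nil) .nil))) 
(.lf (nat_lit 514876) (.g (nat_lit 1391) (.e (nat_lit 188438) (nat_lit 20) (.e (nat_lit 3307) (nat_lit 202) (.e (nat_lit 573469) (nat_lit 11) (.e (nat_lit 16461) (nat_lit 12) .nil)))) (.g (nat_lit 0) (.e (nat_lit 208494) (nat_lit 0) .nil) .nil))))) (.nd (nat_lit 8) (.nd (nat_lit 9) 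
(.lf (nat_lit 514236) (.g (nat_lit 416) (.e (nat_lit 180288) (nat_lit 45) (.e (nat_lit 2580) (nat_lit 161) (.e (nat_lit 40964) (nat_lit 0) (.e (nat_lit 1558) (nat_lit 110) (.e (nat_lit 360192) (nat_lit 2) (.e (nat_lit 204544) (nat_lit 5) .nil)))))) (.g (nat_lit 1) (.e (nat_lit 206087) (nat_lit 0) .nil) .nil))) 
(.lf (nat_lit 514748) (.g (nat_lit 347) (.e (nat_lit 188434) (nat_lit 20) (.e (nat_lit 3469) (nat_lit 217) (.e (nat_lit 696344) (nat_lit 8) .nil))) (.g (nat_lit 0) (.e (nat_lit 208208) (nat_lit 0) .nil) .nil)))) (.nd (nat_lit 9) 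
(.lf (nat_lit 514492) (.g (nat_lit 1607) (.e (nat_lit 188421) (nat_lit 11) (.e (nat_lit 335996) (nat_lit 1) (.e (nat_lit 57691) (nat_lit 156) (.e (nat_lit 163906) (nat_lit 12) .nil)))) (.g (nat_lit 0) (.e (nat_lit 206625) (nat_lit 0) .nil) .nil))) 
(.lf (nat_lit 515004) (.g (nat_lit 1430) (.e (nat_lit 188439) (nat_lit 20) (.e (nat_lit 3409) (nat_lit 212) (.e (nat_lit 655380) (nat_lit 6) (.e (nat_lit 188430) (nat_lit 20) (.e (nat_lit 3402) (nat_lit 211) (.e (nat_lit 647185) (nat_lit 6) .nil)))))) (.g (nat_lit 1) (.e (nat_lit 208830) (nat_lit 0) .nil) .nil)))))) (.nd (nat_lit 7) (.nd (nat_lit 8) (.nd (nat_lit 9) 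
(.lf (nat_lit 514172) (.g (nat_lit 476) (.e (nat_lit 180285) (nat_lit 45) (.e (nat_lit 2579) (nat_lit 161) (.e (nat_lit 40964) (nat_lit 0) (.e (nat_lit 1585) (nat_lit 111) (.e (nat_lit 368384) (nat_lit 10) (.e (nat_lit 581376) (nat_lit 5) .nil)))))) (.g (nat_lit 1) (.e (nat_lit 205857) (nat_lit 0) .nil) .nil))) 
(.lf (nat_lit 514684) (.g (nat_lit 903) (.e (nat_lit 188431) (nat_lit 20) (.e (nat_lit 3401) (nat_lit 211) (.e (nat_lit 647185) (nat_lit 6) (.e (nat_lit 188418) (nat_lit 0) (.e (nat_lit 2056) (nat_lit 142) .nil))))) (.g (nat_lit 0) (.e (nat_lit 207767) (nat_lit 0) .nil) .nil)))) (.nd (nat_lit 9) 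
(.lf (nat_lit 514428) (.g (nat_lit 1151) (.e (nat_lit 188420) (nat_lit 0) (.e (nat_lit 2174) (nat_lit 143) (.e (nat_lit 712755) (nat_lit 30) (.e (nat_lit 458496) (nat_lit 0) .nil)))) (.g (nat_lit 0) (.e (nat_lit 206414) (nat_lit 0) .nil) .nil))) 
(.lf (nat_lit 514940) (.g (nat_lit 2040) (.e (nat_lit 188439) (nat_lit 20) (.e (nat_lit 3297) (nat_lit 202) (.e (nat_lit 573471) (nat_lit 11) (.e (nat_lit 16471) (nat_lit 14) .nil)))) (.g (nat_lit 0) (.e (nat_lit 208639) (nat_lit 0) .nil) .nil))))) (.nd (nat_lit 8) (.nd (nat_lit 9) 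
(.lf (nat_lit 514300) (.g (nat_lit 1285) (.e (nat_lit 188418) (nat_lit 0) (.e (nat_lit 2057) (nat_lit 142) (.e (nat_lit 704598) (nat_lit 6) (.e (nat_lit 188434) (nat_lit 20) (.e (nat_lit 3409) (nat_lit 212) (.e (nat_lit 655380) (nat_lit 6) .nil)))))) (.g (nat_lit 1) (.e (nat_lit 206260) (nat_lit 0) .nil) .nil))) 
(.lf (nat_lit 514812) (.g (nat_lit 1123) (.e (nat_lit 188435) (nat_lit 20) (.e (nat_lit 3408) (nat_lit 212) (.e (nat_lit 655380) (nat_lit 6) (.e (nat_lit 188438) (nat_lit 20) (.e (nat_lit 3408) (nat_lit 212) (.e (nat_lit 655380) (nat_lit 6) .nil)))))) (.g (nat_lit 1) (.e (nat_lit 208330) (nat_lit 0) .nil) .nil)))) (.nd (nat_lit 9) 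
(.lf (nat_lit 514556) (.g (nat_lit 1731) (.e (nat_lit 188423) (nat_lit 11) (.e (nat_lit 336387) (nat_lit 27) (.e (nat_lit 426100) (nat_lit 1) (.e (nat_lit 164402) (nat_lit 256) .nil)))) (.g (nat_lit 0) (.e (nat_lit 207266) (nat_lit 0) .nil) .nil))) 
(.lf (nat_lit 515068) (.g (nat_lit 1139) (.e (nat_lit 188440) (nat_lit 20) (.e (nat_lit 3304) (nat_lit 202) (.e (nat_lit 573469) (nat_lit 11) (.e (nat_lit 16461) (nat_lit 12) .nil)))) (.g (nat_lit 0) (.e (nat_lit 209012) (nat_lit 0) .nil) .nil))))))))))) (.nd (nat_lit 2) (.nd (nat_lit 3) (.nd (nat_lit 4) (.nd (nat_lit 5) (.nd (nat_lit 6) (.nd (nat_lit 7) (.nd (nat_lit 8) (.nd (nat_lit 9) 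
(.lf (nat_lit 514050) (.g (nat_lit 768) (.e (nat_lit 188160) (nat_lit 32) (.e (nat_lit 1256) (nat_lit 92) (.e (nat_lit 98370) (nat_lit 28) (.e (nat_lit 450304) (nat_lit 1) .nil)))) (.g (nat_lit 0) (.e (nat_lit 205415) (nat_lit 0) .nil) .nil))) 
(.lf (nat_lit 514562) (.g (nat_lit 2215) (.e (nat_lit 196352) (nat_lit 11) (.e (nat_lit 336369) (nat_lit 27) (.e (nat_lit 426109) (nat_lit 1) (.e (nat_lit 164403) (nat_lit 256) (.e (nat_lit 57373) (nat_lit 2) .nil))))) (.g (nat_lit 0) (.e (nat_lit 207287) (nat_lit 0) .nil) .nil)))) (.nd (nat_lit 9) 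
(.lf (nat_lit 514306) (.g (nat_lit 1881) (.e (nat_lit 188418) (nat_lit 0) (.e (nat_lit 2058) (nat_lit 142) (.e (nat_lit 704598) (nat_lit 6) (.e (nat_lit 188431) (nat_lit 20) (.e (nat_lit 3401) (nat_lit 211) (.e (nat_lit 647185) (nat_lit 6) .nil)))))) (.g (nat_lit 1) (.e (nat_lit 206270) (nat_lit 0) .nil) .nil))) 
(.lf (nat_lit 514818) (.g (nat_lit 1390) (.e (nat_lit 188435) (nat_lit 20) (.e (nat_lit 3409) (nat_lit 212) (.e (nat_lit 655380) (nat_lit 6) (.e (nat_lit 188427) (nat_lit 20) (.e (nat_lit 3401) (nat_lit 211) (.e (nat_lit 647185) (nat_lit 6) .nil)))))) (.g (nat_lit 1) (.e (nat_lit 208343) (nat_lit 0) .nil) .nil))))) (.nd (nat_lit 8) (.nd (nat_lit 9) 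
(.lf (nat_lit 514178) (.g (nat_lit 1142) (.e (nat_lit 180285) (nat_lit 45) (.e (nat_lit 2579) (nat_lit 161) (.e (nat_lit 40965) (nat_lit 0) (.e (nat_lit 1597) (nat_lit 111) (.e (nat_lit 368384) (nat_lit 10) (.e (nat_lit 581376) (nat_lit 5) .nil)))))) (.g (nat_lit 1) (.e (nat_lit 205863) (nat_lit 0) .nil) .nil))) 
(.lf (nat_lit 514690) (.g (nat_lit 2342) (.e (nat_lit 188431) (nat_lit 20) (.e (nat_lit 3402) (nat_lit 211) (.e (nat_lit 647183) (nat_lit 4) (.e (nat_lit 172094) (nat_lit 9) (.e (nat_lit 426025) (nat_lit 0) (.e (nat_lit 3399) (nat_lit 211) (.e (nat_lit 647185) (nat_lit 6) .nil))))))) (.g (nat_lit 1) (.e (nat_lit 207784) (nat_lit 0) .nil) .nil)))) (.nd (nat_lit 9) 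
(.lf (nat_lit 514434) (.g (nat_lit 3463) (.e (nat_lit 188420) (nat_lit 0) (.e (nat_lit 2175) (nat_lit 143) (.e (nat_lit 712752) (nat_lit 29) (.e (nat_lit 442421) (nat_lit 21) (.e (nat_lit 164347) (nat_lit 240) (.e (nat_lit 2648) (nat_lit 166) .nil)))))) (.g (nat_lit 1) (.e (nat_lit 206421) (nat_lit 0) .nil) .nil))) 
(.lf (nat_lit 514946) (.g (nat_lit 2728) (.e (nat_lit 188439) (nat_lit 20) (.e (nat_lit 3304) (nat_lit 202) (.e (nat_lit 573477) (nat_lit 12) (.e (nat_lit 57575) (nat_lit 55) (.e (nat_lit 778466) (nat_lit 11) (.e (nat_lit 24603) (nat_lit 2) (.e (nat_lit 90176) (nat_lit 15) .nil))))))) (.g (nat_lit 1) (.e (nat_lit 208645) (nat_lit 0) .nil) .nil)))))) 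
(.nd (nat_lit 7) (.nd (nat_lit 8) (.nd (nat_lit 9) 
(.lf (nat_lit 514114) (.g (nat_lit 1308) (.e (nat_lit 188160) (nat_lit 39) (.e (nat_lit 131140) (nat_lit 27) (.e (nat_lit 426187) (nat_lit 9) (.e (nat_lit 426444) (nat_lit 19) (.e (nat_lit 114432) (nat_lit 5) .nil))))) (.g (nat_lit 0) (.e (nat_lit 205636) (nat_lit 0) .nil) .nil))) 
(.lf (nat_lit 514626) (.g (nat_lit 877) (.e (nat_lit 188427) (nat_lit 20) (.e (nat_lit 3402) (nat_lit 211) (.e (nat_lit 647185) (nat_lit 6) (.e (nat_lit 188418) (nat_lit 0) (.e (nat_lit 2056) (nat_lit 142) .nil))))) (.g (nat_lit 0) (.e (nat_lit 207444) (nat_lit 0) .nil) .nil)))) (.nd (nat_lit 9) 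
(.lf (nat_lit 514370) (.g (nat_lit 2271) (.e (nat_lit 188420) (nat_lit 0) (.e (nat_lit 1856) (nat_lit 124) (.e (nat_lit 557107) (nat_lit 15) (.e (nat_lit 188453) (nat_lit 24) (.e (nat_lit 237312) (nat_lit 134) .nil))))) (.g (nat_lit 0) (.e (nat_lit 206341) (nat_lit 0) .nil) .nil))) 
(.lf (nat_lit 514882) (.g (nat_lit 1578) (.e (nat_lit 188438) (nat_lit 20) (.e (nat_lit 3307) (nat_lit 202) (.e (nat_lit 573478) (nat_lit 12) (.e (nat_lit 57574) (nat_lit 55) (.e (nat_lit 778465) (nat_lit 11) .nil))))) (.g (nat_lit 0) (.e (nat_lit 208501) (nat_lit 0) .nil) .nil))))) (.nd (nat_lit 8) (.nd (nat_lit 9) 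
(.lf (nat_lit 514242) (.g (nat_lit 482) (.e (nat_lit 180288) (nat_lit 45) (.e (nat_lit 2580) (nat_lit 161) (.e (nat_lit 40965) (nat_lit 0) (.e (nat_lit 1558) (nat_lit 110) (.e (nat_lit 360192) (nat_lit 2) (.e (nat_lit 204544) (nat_lit 5) .nil)))))) (.g (nat_lit 1) (.e (nat_lit 206093) (nat_lit 0) .nil) .nil))) 
(.lf (nat_lit 514754) (.g (nat_lit 2966) (.e (nat_lit 188434) (nat_lit 20) (.e (nat_lit 3469) (nat_lit 217) (.e (nat_lit 696344) (nat_lit 8) (.e (nat_lit 172106) (nat_lit 10) (.e (nat_lit 434209) (nat_lit 18) (.e (nat_lit 6284) (nat_lit 337) (.e (nat_lit 2644) (nat_lit 166) .nil))))))) (.g (nat_lit 1) (.e (nat_lit 208216) (nat_lit 0) .nil) .nil)))) (.nd (nat_lit 9) 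
(.lf (nat_lit 514498) (.g (nat_lit 2219) (.e (nat_lit 188421) (nat_lit 11) (.e (nat_lit 336230) (nat_lit 14) (.e (nat_lit 401448) (nat_lit 10) (.e (nat_lit 434287) (nat_lit 43) (.e (nat_lit 696346) (nat_lit 10) .nil))))) (.g (nat_lit 1) (.e (nat_lit 206729) (nat_lit 0) .nil) .nil))) 
(.lf (nat_lit 515010) (.g (nat_lit 1650) (.e (nat_lit 188439) (nat_lit 20) (.e (nat_lit 3409) (nat_lit 212) (.e (nat_lit 655380) (nat_lit 6) (.e (nat_lit 188439) (nat_lit 20) (.e (nat_lit 3409) (nat_lit 212) (.e (nat_lit 655380) (nat_lit 6) .nil)))))) (.g (nat_lit 1) (.e (nat_lit 208836) (nat_lit 0) .nil) .nil))))))) (.nd (nat_lit 6) (.nd (nat_lit 7) (.nd (nat_lit 8) (.nd (nat_lit 9) 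
(.lf (nat_lit 514082) (.g (nat_lit 480) (.e (nat_lit 188160) (nat_lit 32) (.e (nat_lit 1656) (nat_lit 115) (.e (nat_lit 393289) (nat_lit 25) .nil))) (.g (nat_lit 0) (.e (nat_lit 205453) (nat_lit 0) .nil) .nil))) 
(.lf (nat_lit 514594) (.g (nat_lit 861) (.e (nat_lit 196352) (nat_lit 18) (.e (nat_lit 393253) (nat_lit 18) (.e (nat_lit 164401) (nat_lit 256) (.e (nat_lit 57369) (nat_lit 2) .nil)))) (.g (nat_lit 0) (.e (nat_lit 207349) (nat_lit 0) .nil) .nil)))) (.nd (nat_lit 9) 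
(.lf (nat_lit 514338) (.g (nat_lit 2783) (.e (nat_lit 188418) (nat_lit 0) (.e (nat_lit 2174) (nat_lit 143) (.e (nat_lit 712755) (nat_lit 30) (.e (nat_lit 450566) (nat_lit 0) (.e (nat_lit 5548) (nat_lit 306) (.e (nat_lit 2648) (nat_lit 166) .nil)))))) (.g (nat_lit 1) (.e (nat_lit 206308) (nat_lit 0) .nil) .nil))) 
(.lf (nat_lit 514850) (.g (nat_lit 1276) (.e (nat_lit 188435) (nat_lit 20) (.e (nat_lit 3579) (nat_lit 223) (.e (nat_lit 745490) (nat_lit 4) (.e (nat_lit 65610) (nat_lit 10) (.e (nat_lit 344138) (nat_lit 29) .nil))))) (.g (nat_lit 0) (.e (nat_lit 208423) (nat_lit 0) .nil) .nil))))) (.nd (nat_lit 8) (.nd (nat_lit 9) 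
(.lf (nat_lit 514210) (.g (nat_lit 263) (.e (nat_lit 180287) (nat_lit 45) (.e (nat_lit 2579) (nat_lit 161) (.e (nat_lit 40965) (nat_lit 0) (.e (nat_lit 1591) (nat_lit 111) .nil)))) (.g (nat_lit 0) (.e (nat_lit 206008) (nat_lit 0) .nil) .nil))) 
(.lf (nat_lit 514722) (.g (nat_lit 2760) (.e (nat_lit 188434) (nat_lit 20) (.e (nat_lit 3406) (nat_lit 212) (.e (nat_lit 655363) (nat_lit 0) (.e (nat_lit 3004) (nat_lit 186) (.e (nat_lit 442374) (nat_lit 0) (.e (nat_lit 2059) (nat_lit 142) (.e (nat_lit 704598) (nat_lit 6) .nil))))))) (.g (nat_lit 1) (.e (nat_lit 208010) (nat_lit 0) .nil) .nil)))) (.nd (nat_lit 9) 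
(.lf (nat_lit 514466) (.g (nat_lit 1969) (.e (nat_lit 196352) (nat_lit 0) (.e (nat_lit 2031) (nat_lit 140) (.e (nat_lit 688177) (nat_lit 16) (.e (nat_lit 65623) (nat_lit 12) (.e (nat_lit 385088) (nat_lit 47) .nil))))) (.g (nat_lit 0) (.e (nat_lit 206459) (nat_lit 0) .nil) .nil))) 
(.lf (nat_lit 514978) (.g (nat_lit 1776) (.e (nat_lit 188439) (nat_lit 20) (.e (nat_lit 3407) (nat_lit 212) (.e (nat_lit 655380) (nat_lit 6) (.e (nat_lit 188441) (nat_lit 20) (.e (nat_lit 3408) (nat_lit 212) (.e (nat_lit 655380) (nat_lit 6) .nil)))))) (.g (nat_lit 1) (.e (nat_lit 208759) (nat_lit 0) .nil) .nil)))))) (.nd (nat_lit 7) (.nd (nat_lit 8) (.nd (nat_lit 9) 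
(.lf (nat_lit 514146) (.g (nat_lit 282) (.e (nat_lit 180284) (nat_lit 45) (.e (nat_lit 2579) (nat_lit 161) (.e (nat_lit 40964) (nat_lit 0) (.e (nat_lit 1585) (nat_lit 111) (.e (nat_lit 368384) (nat_lit 10) (.e (nat_lit 581376) (nat_lit 5) .nil)))))) (.g (nat_lit 1) (.e (nat_lit 205750) (nat_lit 0) .nil) .nil))) 
(.lf (nat_lit 514658) (.g (nat_lit 829) (.e (nat_lit 188431) (nat_lit 20) (.e (nat_lit 3397) (nat_lit 211) (.e (nat_lit 647183) (nat_lit 4) (.e (nat_lit 172105) (nat_lit 10) .nil)))) (.g (nat_lit 0) (.e (nat_lit 207672) (nat_lit 0) .nil) .nil)))) (.nd (nat_lit 9) 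
(.lf (nat_lit 514402) (.g (nat_lit 2134) (.e (nat_lit 188420) (nat_lit 0) (.e (nat_lit 2059) (nat_lit 142) (.e (nat_lit 704598) (nat_lit 6) (.e (nat_lit 188446) (nat_lit 21) (.e (nat_lit 164345) (nat_lit 240) (.e (nat_lit 2648) (nat_lit 166) .nil)))))) (.g (nat_lit 1) (.e (nat_lit 206375) (nat_lit 0) .nil) .nil))) 
(.lf (nat_lit 514914) (.g (nat_lit 1900) (.e (nat_lit 188438) (nat_lit 20) (.e (nat_lit 3469) (nat_lit 217) (.e (nat_lit 696344) (nat_lit 8) (.e (nat_lit 172113) (nat_lit 10) (.e (nat_lit 434287) (nat_lit 43) .nil))))) (.g (nat_lit 0) (.e (nat_lit 208579) (nat_lit 0) .nil) .nil))))) (.nd (nat_lit 8) (.nd (nat_lit 9) 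
(.lf (nat_lit 514274) (.g (nat_lit 1206) (.e (nat_lit 188417) (nat_lit 0) (.e (nat_lit 2148) (nat_lit 142) (.e (nat_lit 704597) (nat_lit 6) (.e (nat_lit 188431) (nat_lit 20) (.e (nat_lit 3402) (nat_lit 211) (.e (nat_lit 647185) (nat_lit 6) .nil)))))) (.g (nat_lit 1) (.e (nat_lit 206228) (nat_lit 0) .nil) .nil))) 
(.lf (nat_lit 514786) (.g (nat_lit 1078) (.e (nat_lit 188435) (nat_lit 20) (.e (nat_lit 3272) (nat_lit 199) (.e (nat_lit 548898) (nat_lit 14) (.e (nat_lit 2884) (nat_lit 184) .nil)))) (.g (nat_lit 0) (.e (nat_lit 208269) (nat_lit 0) .nil) .nil)))) (.nd (nat_lit 9) 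
(.lf (nat_lit 514530) (.g (nat_lit 2426) (.e (nat_lit 188423) (nat_lit 11) (.e (nat_lit 335995) (nat_lit 1) (.e (nat_lit 57691) (nat_lit 156) (.e (nat_lit 163907) (nat_lit 12) (.e (nat_lit 426427) (nat_lit 17) .nil))))) (.g (nat_lit 0) (.e (nat_lit 207013) (nat_lit 0) .nil) .nil))) 
(.lf (nat_lit 515042) (.g (nat_lit 2751) (.e (nat_lit 188439) (nat_lit 20) (.e (nat_lit 3469) (nat_lit 217) (.e (nat_lit 696344) (nat_lit 8) (.e (nat_lit 172115) (nat_lit 10) (.e (nat_lit 434202) (nat_lit 18) (.e (nat_lit 6254) (nat_lit 337) (.e (nat_lit 2651) (nat_lit 166) .nil))))))) (.g (nat_lit 1) (.e (nat_lit 208952) (nat_lit 0) .nil) .nil)))))))) 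
(.nd (nat_lit 5) (.nd (nat_lit 6) (.nd (nat_lit 7) (.nd (nat_lit 8) (.nd (nat_lit 9) 
(.lf (nat_lit 514066) (.g (nat_lit 876) (.e (nat_lit 188160) (nat_lit 32) (.e (nat_lit 1648) (nat_lit 115) (.e (nat_lit 393273) (nat_lit 23) (.e (nat_lit 426444) (nat_lit 19) (.e (nat_lit 114432) (nat_lit 5) .nil))))) (.g (nat_lit 0) (.e (nat_lit 205437) (nat_lit 0) .nil) .nil))) 
(.lf (nat_lit 514578) (.g (nat_lit 1844) (.e (nat_lit 196352) (nat_lit 11) (.e (nat_lit 336412) (nat_lit 27) (.e (nat_lit 426100) (nat_lit 1) (.e (nat_lit 164399) (nat_lit 256) (.e (nat_lit 57373) (nat_lit 2) .nil))))) (.g (nat_lit 0) (.e (nat_lit 207304) (nat_lit 0) .nil) .nil)))) (.nd (nat_lit 9) 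
(.lf (nat_lit 514322) (.g (nat_lit 1751) (.e (nat_lit 188418) (nat_lit 0) (.e (nat_lit 2173) (nat_lit 143) (.e (nat_lit 712752) (nat_lit 29) (.e (nat_lit 442421) (nat_lit 21) (.e (nat_lit 164345) (nat_lit 240) (.e (nat_lit 2648) (nat_lit 166) .nil)))))) (.g (nat_lit 1) (.e (nat_lit 206286) (nat_lit 0) .nil) .nil))) 
(.lf (nat_lit 514834) (.g (nat_lit 2808) (.e (nat_lit 188435) (nat_lit 20) (.e (nat_lit 3469) (nat_lit 217) (.e (nat_lit 696344) (nat_lit 8) (.e (nat_lit 172113) (nat_lit 10) (.e (nat_lit 434203) (nat_lit 18) (.e (nat_lit 6250) (nat_lit 337) (.e (nat_lit 7936) (nat_lit 166) .nil))))))) (.g (nat_lit 1) (.e (nat_lit 208401) (nat_lit 0) .nil) .nil))))) (.nd (nat_lit 8) (.nd (nat_lit 9) 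
(.lf (nat_lit 514194) (.g (nat_lit 419) (.e (nat_lit 180287) (nat_lit 45) (.e (nat_lit 2577) (nat_lit 161) (.e (nat_lit 40965) (nat_lit 0) (.e (nat_lit 1558) (nat_lit 110) (.e (nat_lit 360192) (nat_lit 2) .nil))))) (.g (nat_lit 0) (.e (nat_lit 205992) (nat_lit 0) .nil) .nil))) 
(.lf (nat_lit 514706) (.g (nat_lit 458) (.e (nat_lit 188434) (nat_lit 20) (.e (nat_lit 3272) (nat_lit 199) (.e (nat_lit 548914) (nat_lit 19) .nil))) (.g (nat_lit 0) (.e (nat_lit 207902) (nat_lit 0) .nil) .nil)))) (.nd (nat_lit 9) 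
(.lf (nat_lit 514450) (.g (nat_lit 791) (.e (nat_lit 196352) (nat_lit 0) (.e (nat_lit 1804) (nat_lit 119) (.e (nat_lit 516126) (nat_lit 2) (.e (nat_lit 213030) (nat_lit 11) (.e (nat_lit 24605) (nat_lit 2) .nil))))) (.g (nat_lit 0) (.e (nat_lit 206440) (nat_lit 0) .nil) .nil))) 
(.lf (nat_lit 514962) (.g (nat_lit 2158) (.e (nat_lit 188439) (nat_lit 20) (.e (nat_lit 3391) (nat_lit 210) (.e (nat_lit 639025) (nat_lit 20) (.e (nat_lit 131116) (nat_lit 9) (.e (nat_lit 335988) (nat_lit 1) (.e (nat_lit 57830) (nat_lit 250) (.e (nat_lit 7936) (nat_lit 166) .nil))))))) (.g (nat_lit 1) (.e (nat_lit 208703) (nat_lit 0) .nil) .nil)))))) 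
(.nd (nat_lit 7) (.nd (nat_lit 8) (.nd (nat_lit 9) 
(.lf (nat_lit 514130) (.g (nat_lit 873) (.e (nat_lit 188160) (nat_lit 39) (.e (nat_lit 131140) (nat_lit 27) (.e (nat_lit 426306) (nat_lit 12) (.e (nat_lit 475205) (nat_lit 40) .nil)))) (.g (nat_lit 0) (.e (nat_lit 205664) (nat_lit 0) .nil) .nil))) 
(.lf (nat_lit 514642) (.g (nat_lit 1437) (.e (nat_lit 188428) (nat_lit 20) (.e (nat_lit 3571) (nat_lit 222) (.e (nat_lit 737300) (nat_lit 7) (.e (nat_lit 286755) (nat_lit 10) (.e (nat_lit 344138) (nat_lit 29) (.e (nat_lit 581653) (nat_lit 6) .nil)))))) (.g (nat_lit 1) (.e (nat_lit 207592) (nat_lit 0) .nil) .nil)))) (.nd (nat_lit 9) 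
(.lf (nat_lit 514386) (.g (nat_lit 1779) (.e (nat_lit 188420) (nat_lit 0) (.e (nat_lit 2058) (nat_lit 142) (.e (nat_lit 704598) (nat_lit 6) (.e (nat_lit 188431) (nat_lit 20) (.e (nat_lit 3402) (nat_lit 211) (.e (nat_lit 647185) (nat_lit 6) .nil)))))) (.g (nat_lit 1) (.e (nat_lit 206359) (nat_lit 0) .nil) .nil))) 
(.lf (nat_lit 514898) (.g (nat_lit 672) (.e (nat_lit 188438) (nat_lit 20) (.e (nat_lit 3409) (nat_lit 212) (.e (nat_lit 655364) (nat_lit 0) (.e (nat_lit 3004) (nat_lit 186) .nil)))) (.g (nat_lit 0) (.e (nat_lit 208525) (nat_lit 0) .nil) .nil))))) (.nd (nat_lit 8) (.nd (nat_lit 9) 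
(.lf (nat_lit 514258) (.g (nat_lit 1251) (.e (nat_lit 188416) (nat_lit 0) (.e (nat_lit 2147) (nat_lit 142) (.e (nat_lit 704597) (nat_lit 6) (.e (nat_lit 188439) (nat_lit 20) (.e (nat_lit 3409) (nat_lit 212) (.e (nat_lit 655380) (nat_lit 6) .nil)))))) (.g (nat_lit 1) (.e (nat_lit 206194) (nat_lit 0) .nil) .nil))) 
(.lf (nat_lit 514770) (.g (nat_lit 1879) (.e (nat_lit 188434) (nat_lit 20) (.e (nat_lit 3469) (nat_lit 217) (.e (nat_lit 696344) (nat_lit 8) (.e (nat_lit 172113) (nat_lit 10) (.e (nat_lit 434208) (nat_lit 18) (.e (nat_lit 6262) (nat_lit 337) (.e (nat_lit 7936) (nat_lit 166) .nil))))))) (.g (nat_lit 1) (.e (nat_lit 208232) (nat_lit 0) .nil) .nil)))) (.nd (nat_lit 9) 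
(.lf (nat_lit 514514) (.g (nat_lit 1283) (.e (nat_lit 188423) (nat_lit 11) (.e (nat_lit 335986) (nat_lit 1) (.e (nat_lit 57688) (nat_lit 156) (.e (nat_lit 163901) (nat_lit 12) .nil)))) (.g (nat_lit 0) (.e (nat_lit 206997) (nat_lit 0) .nil) .nil))) 
(.lf (nat_lit 515026) (.g (nat_lit 2247) (.e (nat_lit 188439) (nat_lit 20) (.e (nat_lit 3469) (nat_lit 217) (.e (nat_lit 696344) (nat_lit 8) (.e (nat_lit 172106) (nat_lit 10) (.e (nat_lit 434285) (nat_lit 42) (.e (nat_lit 696064) (nat_lit 10) .nil)))))) (.g (nat_lit 1) (.e (nat_lit 208936) (nat_lit 0) .nil) .nil))))))) (.nd (nat_lit 6) (.nd (nat_lit 7) (.nd (nat_lit 8) (.nd (nat_lit 9) 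
(.lf (nat_lit 514098) (.g (nat_lit 2112) (.e (nat_lit 188160) (nat_lit 35) (.e (nat_lit 57464) (nat_lit 23) (.e (nat_lit 516151) (nat_lit 9) (.e (nat_lit 426171) (nat_lit 7) (.e (nat_lit 409631) (nat_lit 12) .nil))))) (.g (nat_lit 0) (.e (nat_lit 205537) (nat_lit 0) .nil) .nil))) 
(.lf (nat_lit 514610) (.g (nat_lit 1041) (.e (nat_lit 188424) (nat_lit 20) (.e (nat_lit 3406) (nat_lit 212) (.e (nat_lit 655380) (nat_lit 6) (.e (nat_lit 188440) (nat_lit 20) (.e (nat_lit 3408) (nat_lit 212) .nil))))) (.g (nat_lit 0) (.e (nat_lit 207391) (nat_lit 0) .nil) .nil)))) (.nd (nat_lit 9) 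
(.lf (nat_lit 514354) (.g (nat_lit 1387) (.e (nat_lit 188419) (nat_lit 0) (.e (nat_lit 1856) (nat_lit 124) (.e (nat_lit 557098) (nat_lit 13) (.e (nat_lit 172126) (nat_lit 14) .nil)))) (.g (nat_lit 0) (.e (nat_lit 206325) (nat_lit 0) .nil) .nil))) 
(.lf (nat_lit 514866) (.g (nat_lit 1530) (.e (nat_lit 188438) (nat_lit 20) (.e (nat_lit 3238) (nat_lit 197) (.e (nat_lit 532523) (nat_lit 7) (.e (nat_lit 319528) (nat_lit 16) .nil)))) (.g (nat_lit 0) (.e (nat_lit 208472) (nat_lit 0) .nil) .nil))))) (.nd (nat_lit 8) (.nd (nat_lit 9) 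
(.lf (nat_lit 514226) (.g (nat_lit 471) (.e (nat_lit 180288) (nat_lit 45) (.e (nat_lit 2579) (nat_lit 161) (.e (nat_lit 40964) (nat_lit 0) (.e (nat_lit 1582) (nat_lit 111) (.e (nat_lit 368384) (nat_lit 10) (.e (nat_lit 581376) (nat_lit 5) .nil)))))) (.g (nat_lit 1) (.e (nat_lit 206077) (nat_lit 0) .nil) .nil))) 
(.lf (nat_lit 514738) (.g (nat_lit 1560) (.e (nat_lit 188434) (nat_lit 20) (.e (nat_lit 3409) (nat_lit 212) (.e (nat_lit 655380) (nat_lit 6) (.e (nat_lit 188441) (nat_lit 20) (.e (nat_lit 3406) (nat_lit 212) (.e (nat_lit 655380) (nat_lit 6) .nil)))))) (.g (nat_lit 1) (.e (nat_lit 208059) (nat_lit 0) .nil) .nil)))) (.nd (nat_lit 9) 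
(.lf (nat_lit 514482) (.g (nat_lit 165) (.e (nat_lit 196352) (nat_lit 8) (.e (nat_lit 155652) (nat_lit 0) (.e (nat_lit 2985) (nat_lit 186) (.e (nat_lit 450304) (nat_lit 4) .nil)))) (.g (nat_lit 0) (.e (nat_lit 206510) (nat_lit 0) .nil) .nil))) 
(.lf (nat_lit 514994) (.g (nat_lit 1297) (.e (nat_lit 188439) (nat_lit 20) (.e (nat_lit 3409) (nat_lit 212) (.e (nat_lit 655364) (nat_lit 0) (.e (nat_lit 3004) (nat_lit 186) (.e (nat_lit 450304) (nat_lit 4) (.e (nat_lit 114432) (nat_lit 6) .nil)))))) (.g (nat_lit 1) (.e (nat_lit 208812) (nat_lit 0) .nil) .nil)))))) (.nd (nat_lit 7) (.nd (nat_lit 8) (.nd (nat_lit 9) 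
(.lf (nat_lit 514162) (.g (nat_lit 901) (.e (nat_lit 180284) (nat_lit 45) (.e (nat_lit 2580) (nat_lit 161) (.e (nat_lit 40965) (nat_lit 0) (.e (nat_lit 1597) (nat_lit 111) (.e (nat_lit 368384) (nat_lit 10) (.e (nat_lit 581376) (nat_lit 5) .nil)))))) (.g (nat_lit 1) (.e (nat_lit 205766) (nat_lit 0) .nil) .nil))) 
(.lf (nat_lit 514674) (.g (nat_lit 2268) (.e (nat_lit 188431) (nat_lit 20) (.e (nat_lit 3399) (nat_lit 211) (.e (nat_lit 647183) (nat_lit 4) (.e (nat_lit 172120) (nat_lit 12) (.e (nat_lit 475199) (nat_lit 40) (.e (nat_lit 704598) (nat_lit 6) .nil)))))) (.g (nat_lit 1) (.e (nat_lit 207693) (nat_lit 0) .nil) .nil)))) (.nd (nat_lit 9) 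
(.lf (nat_lit 514418) (.g (nat_lit 858) (.e (nat_lit 188420) (nat_lit 0) (.e (nat_lit 2174) (nat_lit 143) (.e (nat_lit 712753) (nat_lit 30) (.e (nat_lit 458496) (nat_lit 0) .nil)))) (.g (nat_lit 0) (.e (nat_lit 206399) (nat_lit 0) .nil) .nil))) 
(.lf (nat_lit 514930) (.g (nat_lit 2227) (.e (nat_lit 188439) (nat_lit 20) (.e (nat_lit 3270) (nat_lit 199) (.e (nat_lit 548913) (nat_lit 18) (.e (nat_lit 172126) (nat_lit 14) (.e (nat_lit 491524) (nat_lit 0) .nil))))) (.g (nat_lit 0) (.e (nat_lit 208602) (nat_lit 0) .nil) .nil))))) (.nd (nat_lit 8) (.nd (nat_lit 9) 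
(.lf (nat_lit 514290) (.g (nat_lit 2403) (.e (nat_lit 188418) (nat_lit 0) (.e (nat_lit 1856) (nat_lit 124) (.e (nat_lit 557103) (nat_lit 14) (.e (nat_lit 180288) (nat_lit 45) (.e (nat_lit 2570) (nat_lit 160) (.e (nat_lit 32809) (nat_lit 20) .nil)))))) (.g (nat_lit 1) (.e (nat_lit 206250) (nat_lit 0) .nil) .nil))) 
(.lf (nat_lit 514802) (.g (nat_lit 1691) (.e (nat_lit 188435) (nat_lit 20) (.e (nat_lit 3407) (nat_lit 212) (.e (nat_lit 655378) (nat_lit 4) (.e (nat_lit 172120) (nat_lit 12) (.e (nat_lit 475199) (nat_lit 40) .nil))))) (.g (nat_lit 0) (.e (nat_lit 208306) (nat_lit 0) .nil) .nil)))) (.nd (nat_lit 9) 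
(.lf (nat_lit 514546) (.g (nat_lit 396) (.e (nat_lit 188423) (nat_lit 11) (.e (nat_lit 336288) (nat_lit 15) (.e (nat_lit 7105) (nat_lit 380) .nil))) (.g (nat_lit 0) (.e (nat_lit 207252) (nat_lit 0) .nil) .nil))) 
(.lf (nat_lit 515058) (.g (nat_lit 3021) (.e (nat_lit 188440) (nat_lit 20) (.e (nat_lit 3271) (nat_lit 199) (.e (nat_lit 548898) (nat_lit 14) (.e (nat_lit 3004) (nat_lit 186) (.e (nat_lit 442374) (nat_lit 0) (.e (nat_lit 1856) (nat_lit 124) (.e (nat_lit 557107) (nat_lit 15) .nil))))))) (.g (nat_lit 1) (.e (nat_lit 208974) (nat_lit 0) .nil) .nil))))))))) 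
(.nd (nat_lit 4) (.nd (nat_lit 5) (.nd (nat_lit 6) (.nd (nat_lit 7) (.nd (nat_lit 8) 
(.nd (nat_lit 9) 
(.lf (nat_lit 514058) (.g (nat_lit 20) (.e (nat_lit 188160) (nat_lit 32) (.e (nat_lit 1433) (nat_lit 108) (.e (nat_lit 336431) (nat_lit 29) .nil))) (.g (nat_lit 0) (.e (nat_lit 205426) (nat_lit 0) .nil) .nil))) 
(.lf (nat_lit 514570) (.g (nat_lit 1714) (.e (nat_lit 196352) (nat_lit 11) (.e (nat_lit 336390) (nat_lit 27) (.e (nat_lit 426098) (nat_lit 1) (.e (nat_lit 164399) (nat_lit 256) (.e (nat_lit 57370) (nat_lit 2) .nil))))) (.g (nat_lit 0) (.e (nat_lit 207296) (nat_lit 0) .nil) .nil)))) (.nd (nat_lit 9) 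
(.lf (nat_lit 514314) (.g (nat_lit 3271) (.e (nat_lit 188418) (nat_lit 0) (.e (nat_lit 2059) (nat_lit 142) (.e (nat_lit 704598) (nat_lit 6) (.e (nat_lit 188455) (nat_lit 24) (.e (nat_lit 229663) (nat_lit 240) (.e (nat_lit 2653) (nat_lit 166) .nil)))))) (.g (nat_lit 1) (.e (nat_lit 206278) (nat_lit 0) .nil) .nil))) 
(.lf (nat_lit 514826) (.g (nat_lit 2705) (.e (nat_lit 188435) (nat_lit 20) (.e (nat_lit 3469) (nat_lit 217) (.e (nat_lit 696344) (nat_lit 8) (.e (nat_lit 172106) (nat_lit 10) (.e (nat_lit 434202) (nat_lit 18) (.e (nat_lit 6250) (nat_lit 337) (.e (nat_lit 7936) (nat_lit 166) .nil))))))) (.g (nat_lit 1) (.e (nat_lit 208393) (nat_lit 0) .nil) .nil))))) (.nd (nat_lit 8) (.nd (nat_lit 9) 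
(.lf (nat_lit 514186) (.g (nat_lit 736) (.e (nat_lit 180285) (nat_lit 45) (.e (nat_lit 2580) (nat_lit 161) (.e (nat_lit 40965) (nat_lit 0) (.e (nat_lit 1574) (nat_lit 110) (.e (nat_lit 360192) (nat_lit 2) (.e (nat_lit 204544) (nat_lit 5) .nil)))))) (.g (nat_lit 1) (.e (nat_lit 205871) (nat_lit 0) .nil) .nil))) 
(.lf (nat_lit 514698) (.g (nat_lit 3652) (.e (nat_lit 188434) (nat_lit 20) (.e (nat_lit 3238) (nat_lit 197) (.e (nat_lit 532523) (nat_lit 7) (.e (nat_lit 319529) (nat_lit 16) (.e (nat_lit 286733) (nat_lit 2) (.e (nat_lit 90177) (nat_lit 15) .nil)))))) (.g (nat_lit 1) (.e (nat_lit 207886) (nat_lit 0) .nil) .nil)))) (.nd (nat_lit 9) 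
(.lf (nat_lit 514442) (.g (nat_lit 2056) (.e (nat_lit 188420) (nat_lit 0) (.e (nat_lit 2175) (nat_lit 143) (.e (nat_lit 712755) (nat_lit 30) (.e (nat_lit 450563) (nat_lit 0) (.e (nat_lit 5537) (nat_lit 306) (.e (nat_lit 7936) (nat_lit 166) .nil)))))) (.g (nat_lit 1) (.e (nat_lit 206429) (nat_lit 0) .nil) .nil))) 
(.lf (nat_lit 514954) (.g (nat_lit 80) (.e (nat_lit 188439) (nat_lit 20) (.e (nat_lit 3289) (nat_lit 201) (.e (nat_lit 565268) (nat_lit 5) .nil))) (.g (nat_lit 0) (.e (nat_lit 208662) (nat_lit 0) .nil) .nil)))))) (.nd (nat_lit 7) (.nd (nat_lit 8) (.nd (nat_lit 9) 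
(.lf (nat_lit 514122) (.g (nat_lit 1063) (.e (nat_lit 188160) (nat_lit 39) (.e (nat_lit 131140) (nat_lit 27) (.e (nat_lit 426198) (nat_lit 9) (.e (nat_lit 426444) (nat_lit 19) (.e (nat_lit 114432) (nat_lit 5) .nil))))) (.g (nat_lit 0) (.e (nat_lit 205646) (nat_lit 0) .nil) .nil))) 
(.lf (nat_lit 514634) (.g (nat_lit 1844) (.e (nat_lit 188428) (nat_lit 20) (.e (nat_lit 3401) (nat_lit 211) (.e (nat_lit 647183) (nat_lit 4) (.e (nat_lit 172115) (nat_lit 10) (.e (nat_lit 434272) (nat_lit 38) (.e (nat_lit 655380) (nat_lit 6) .nil)))))) (.g (nat_lit 1) (.e (nat_lit 207528) (nat_lit 0) .nil) .nil)))) (.nd (nat_lit 9) 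
(.lf (nat_lit 514378) (.g (nat_lit 1974) (.e (nat_lit 188420) (nat_lit 0) (.e (nat_lit 2056) (nat_lit 142) (.e (nat_lit 704598) (nat_lit 6) (.e (nat_lit 188455) (nat_lit 24) (.e (nat_lit 229666) (nat_lit 240) (.e (nat_lit 2651) (nat_lit 166) .nil)))))) (.g (nat_lit 1) (.e (nat_lit 206350) (nat_lit 0) .nil) .nil))) 
(.lf (nat_lit 514890) (.g (nat_lit 491) (.e (nat_lit 188438) (nat_lit 20) (.e (nat_lit 3406) (nat_lit 212) (.e (nat_lit 655380) (nat_lit 6) (.e (nat_lit 188439) (nat_lit 20) .nil)))) (.g (nat_lit 0) (.e (nat_lit 208513) (nat_lit 0) .nil) .nil))))) (.nd (nat_lit 8) (.nd (nat_lit 9) 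
(.lf (nat_lit 514250) (.g (nat_lit 2054) (.e (nat_lit 180291) (nat_lit 48) (.e (nat_lit 164339) (nat_lit 232) (.e (nat_lit 463) (nat_lit 34) (.e (nat_lit 442379) (nat_lit 0) (.e (nat_lit 2059) (nat_lit 142) (.e (nat_lit 704595) (nat_lit 5) .nil)))))) (.g (nat_lit 1) (.e (nat_lit 206159) (nat_lit 0) .nil) .nil))) 
(.lf (nat_lit 514762) (.g (nat_lit 3277) (.e (nat_lit 188434) (nat_lit 20) (.e (nat_lit 3469) (nat_lit 217) (.e (nat_lit 696344) (nat_lit 8) (.e (nat_lit 172113) (nat_lit 10) (.e (nat_lit 434203) (nat_lit 18) (.e (nat_lit 6252) (nat_lit 337) (.e (nat_lit 7936) (nat_lit 166) .nil))))))) (.g (nat_lit 1) (.e (nat_lit 208224) (nat_lit 0) .nil) .nil)))) (.nd (nat_lit 9) 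
(.lf (nat_lit 514506) (.g (nat_lit 2436) (.e (nat_lit 188421) (nat_lit 11) (.e (nat_lit 336232) (nat_lit 14) (.e (nat_lit 401448) (nat_lit 10) (.e (nat_lit 434287) (nat_lit 43) (.e (nat_lit 696346) (nat_lit 10) .nil))))) (.g (nat_lit 1) (.e (nat_lit 206860) (nat_lit 0) .nil) .nil))) 
(.lf (nat_lit 515018) (.g (nat_lit 2499) (.e (nat_lit 188439) (nat_lit 20) (.e (nat_lit 3468) (nat_lit 217) (.e (nat_lit 696344) (nat_lit 8) (.e (nat_lit 172106) (nat_lit 10) (.e (nat_lit 434209) (nat_lit 18) (.e (nat_lit 6272) (nat_lit 337) (.e (nat_lit 2645) (nat_lit 166) .nil))))))) (.g (nat_lit 1) (.e (nat_lit 208869) (nat_lit 0) .nil) .nil))))))) 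
(.nd (nat_lit 6) (.nd (nat_lit 7) (.nd (nat_lit 8) (.nd (nat_lit 9) 
(.lf (nat_lit 514090) (.g (nat_lit 1152) (.e (nat_lit 188160) (nat_lit 32) (.e (nat_lit 1665) (nat_lit 115) (.e (nat_lit 393273) (nat_lit 23) (.e (nat_lit 426444) (nat_lit 19) (.e (nat_lit 114432) (nat_lit 5) .nil))))) (.g (nat_lit 0) (.e (nat_lit 205461) (nat_lit 0) .nil) .nil))) 
(.lf (nat_lit 514602) (.g (nat_lit 2735) (.e (nat_lit 188424) (nat_lit 20) (.e (nat_lit 3270) (nat_lit 199) (.e (nat_lit 548913) (nat_lit 18) (.e (nat_lit 172120) (nat_lit 12) (.e (nat_lit 475185) (nat_lit 29) .nil))))) (.g (nat_lit 0) (.e (nat_lit 207379) (nat_lit 0) .nil) .nil)))) (.nd (nat_lit 9) 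
(.lf (nat_lit 514346) (.g (nat_lit 1091) (.e (nat_lit 188418) (nat_lit 0) (.e (nat_lit 2175) (nat_lit 143) (.e (nat_lit 712755) (nat_lit 30) (.e (nat_lit 450562) (nat_lit 0) .nil)))) (.g (nat_lit 0) (.e (nat_lit 206317) (nat_lit 0) .nil) .nil))) 
(.lf (nat_lit 514858) (.g (nat_lit 2171) (.e (nat_lit 188437) (nat_lit 20) (.e (nat_lit 3238) (nat_lit 197) (.e (nat_lit 532523) (nat_lit 7) (.e (nat_lit 319528) (nat_lit 16) (.e (nat_lit 286733) (nat_lit 2) .nil))))) (.g (nat_lit 0) (.e (nat_lit 208448) (nat_lit 0) .nil) .nil))))) (.nd (nat_lit 8) (.nd (nat_lit 9) 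
(.lf (nat_lit 514218) (.g (nat_lit 196) (.e (nat_lit 180287) (nat_lit 45) (.e (nat_lit 2580) (nat_lit 161) (.e (nat_lit 40965) (nat_lit 0) (.e (nat_lit 1568) (nat_lit 110) .nil)))) (.g (nat_lit 0) (.e (nat_lit 206016) (nat_lit 0) .nil) .nil))) 
(.lf (nat_lit 514730) (.g (nat_lit 2481) (.e (nat_lit 188434) (nat_lit 20) (.e (nat_lit 3408) (nat_lit 212) (.e (nat_lit 655378) (nat_lit 4) (.e (nat_lit 172120) (nat_lit 12) (.e (nat_lit 475197) (nat_lit 40) (.e (nat_lit 704598) (nat_lit 6) .nil)))))) (.g (nat_lit 1) (.e (nat_lit 208034) (nat_lit 0) .nil) .nil)))) (.nd (nat_lit 9) 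
(.lf (nat_lit 514474) (.g (nat_lit 1197) (.e (nat_lit 196352) (nat_lit 5) (.e (nat_lit 114710) (nat_lit 21) (.e (nat_lit 57847) (nat_lit 252) (.e (nat_lit 57442) (nat_lit 18) .nil)))) (.g (nat_lit 0) (.e (nat_lit 206475) (nat_lit 0) .nil) .nil))) 
(.lf (nat_lit 514986) (.g (nat_lit 809) (.e (nat_lit 188439) (nat_lit 20) (.e (nat_lit 3408) (nat_lit 212) (.e (nat_lit 655380) (nat_lit 6) (.e (nat_lit 188418) (nat_lit 0) (.e (nat_lit 2056) (nat_lit 142) .nil))))) (.g (nat_lit 0) (.e (nat_lit 208794) (nat_lit 0) .nil) .nil)))))) (.nd (nat_lit 7) (.nd (nat_lit 8) (.nd (nat_lit 9) 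
(.lf (nat_lit 514154) (.g (nat_lit 298) (.e (nat_lit 180284) (nat_lit 45) (.e (nat_lit 2580) (nat_lit 161) (.e (nat_lit 40964) (nat_lit 0) (.e (nat_lit 1558) (nat_lit 110) (.e (nat_lit 360192) (nat_lit 2) (.e (nat_lit 204544) (nat_lit 5) .nil)))))) (.g (nat_lit 1) (.e (nat_lit 205758) (nat_lit 0) .nil) .nil))) 
(.lf (nat_lit 514666) (.g (nat_lit 920) (.e (nat_lit 188431) (nat_lit 20) (.e (nat_lit 3397) (nat_lit 211) (.e (nat_lit 647185) (nat_lit 6) (.e (nat_lit 188418) (nat_lit 0) (.e (nat_lit 2056) (nat_lit 142) .nil))))) (.g (nat_lit 0) (.e (nat_lit 207682) (nat_lit 0) .nil) .nil)))) (.nd (nat_lit 9) 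
(.lf (nat_lit 514410) (.g (nat_lit 974) (.e (nat_lit 188420) (nat_lit 0) (.e (nat_lit 2174) (nat_lit 143) (.e (nat_lit 712750) (nat_lit 29) (.e (nat_lit 442399) (nat_lit 20) .nil)))) (.g (nat_lit 0) (.e (nat_lit 206386) (nat_lit 0) .nil) .nil))) 
(.lf (nat_lit 514922) (.g (nat_lit 935) (.e (nat_lit 188438) (nat_lit 20) (.e (nat_lit 3579) (nat_lit 223) (.e (nat_lit 745476) (nat_lit 0) (.e (nat_lit 1569) (nat_lit 110) .nil)))) (.g (nat_lit 0) (.e (nat_lit 208588) (nat_lit 0) .nil) .nil))))) (.nd (nat_lit 8) (.nd (nat_lit 9) 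
(.lf (nat_lit 514282) (.g (nat_lit 667) (.e (nat_lit 188418) (nat_lit 0) (.e (nat_lit 1800) (nat_lit 119) (.e (nat_lit 516099) (nat_lit 0) .nil))) (.g (nat_lit 0) (.e (nat_lit 206240) (nat_lit 0) .nil) .nil))) 
(.lf (nat_lit 514794) (.g (nat_lit 1057) (.e (nat_lit 188435) (nat_lit 20) (.e (nat_lit 3289) (nat_lit 201) (.e (nat_lit 565269) (nat_lit 6) (.e (nat_lit 81942) (nat_lit 20) (.e (nat_lit 2390) (nat_lit 156) (.e (nat_lit 819221) (nat_lit 6) .nil)))))) (.g (nat_lit 1) (.e (nat_lit 208296) (nat_lit 0) .nil) .nil)))) (.nd (nat_lit 9) 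
(.lf (nat_lit 514538) (.g (nat_lit 2383) (.e (nat_lit 188423) (nat_lit 11) (.e (nat_lit 336230) (nat_lit 14) (.e (nat_lit 401446) (nat_lit 10) (.e (nat_lit 434289) (nat_lit 43) (.e (nat_lit 696346) (nat_lit 10) .nil))))) (.g (nat_lit 1) (.e (nat_lit 207099) (nat_lit 0) .nil) .nil))) 
(.lf (nat_lit 515050) (.g (nat_lit 1018) (.e (nat_lit 188439) (nat_lit 20) (.e (nat_lit 3578) (nat_lit 223) (.e (nat_lit 745476) (nat_lit 0) (.e (nat_lit 1572) (nat_lit 110) (.e (nat_lit 360192) (nat_lit 2) .nil))))) (.g (nat_lit 0) (.e (nat_lit 208966) (nat_lit 0) .nil) .nil)))))))) (.nd (nat_lit 5) (.nd (nat_lit 6) (.nd (nat_lit 7) (.nd (nat_lit 8) (.nd (nat_lit 9) 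
(.lf (nat_lit 514074) (.g (nat_lit 508) (.e (nat_lit 188160) (nat_lit 32) (.e (nat_lit 1650) (nat_lit 115) (.e (nat_lit 393270) (nat_lit 23) (.e (nat_lit 426444) (nat_lit 19) .nil)))) (.g (nat_lit 0) (.e (nat_lit 205445) (nat_lit 0) .nil) .nil))) 
(.lf (nat_lit 514586) (.g (nat_lit 1918) (.e (nat_lit 196352) (nat_lit 18) (.e (nat_lit 393251) (nat_lit 18) (.e (nat_lit 164399) (nat_lit 256) (.e (nat_lit 57373) (nat_lit 2) (.e (nat_lit 90177) (nat_lit 15) .nil))))) (.g (nat_lit 0) (.e (nat_lit 207338) (nat_lit 0) .nil) .nil)))) (.nd (nat_lit 9) 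
(.lf (nat_lit 514330) (.g (nat_lit 410) (.e (nat_lit 188418) (nat_lit 0) (.e (nat_lit 2174) (nat_lit 143) (.e (nat_lit 712755) (nat_lit 30) .nil))) (.g (nat_lit 0) (.e (nat_lit 206300) (nat_lit 0) .nil) .nil))) 
(.lf (nat_lit 514842) (.g (nat_lit 1785) (.e (nat_lit 188435) (nat_lit 20) (.e (nat_lit 3469) (nat_lit 217) (.e (nat_lit 696344) (nat_lit 8) (.e (nat_lit 172115) (nat_lit 10) (.e (nat_lit 434285) (nat_lit 42) .nil))))) (.g (nat_lit 0) (.e (nat_lit 208409) (nat_lit 0) .nil) .nil))))) (.nd (nat_lit 8) (.nd (nat_lit 9) 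
(.lf (nat_lit 514202) (.g (nat_lit 432) (.e (nat_lit 180287) (nat_lit 45) (.e (nat_lit 2579) (nat_lit 161) (.e (nat_lit 40964) (nat_lit 0) (.e (nat_lit 1582) (nat_lit 111) (.e (nat_lit 368384) (nat_lit 10) .nil))))) (.g (nat_lit 0) (.e (nat_lit 206000) (nat_lit 0) .nil) .nil))) 
(.lf (nat_lit 514714) (.g (nat_lit 2092) (.e (nat_lit 188434) (nat_lit 20) (.e (nat_lit 3390) (nat_lit 210) (.e (nat_lit 639004) (nat_lit 13) (.e (nat_lit 1615) (nat_lit 113) (.e (nat_lit 376860) (nat_lit 21) (.e (nat_lit 57830) (nat_lit 250) (.e (nat_lit 7936) (nat_lit 166) .nil))))))) (.g (nat_lit 1) (.e (nat_lit 207935) (nat_lit 0) .nil) .nil)))) (.nd (nat_lit 9) 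
(.lf (nat_lit 514458) (.g (nat_lit 3014) (.e (nat_lit 196352) (nat_lit 0) (.e (nat_lit 1853) (nat_lit 124) (.e (nat_lit 557108) (nat_lit 15) (.e (nat_lit 188446) (nat_lit 21) (.e (nat_lit 164131) (nat_lit 134) .nil))))) (.g (nat_lit 0) (.e (nat_lit 206448) (nat_lit 0) .nil) .nil))) 
(.lf (nat_lit 514970) (.g (nat_lit 1964) (.e (nat_lit 188439) (nat_lit 20) (.e (nat_lit 3407) (nat_lit 212) (.e (nat_lit 655363) (nat_lit 0) (.e (nat_lit 2988) (nat_lit 186) (.e (nat_lit 442374) (nat_lit 0) (.e (nat_lit 2059) (nat_lit 142) (.e (nat_lit 704598) (nat_lit 6) .nil))))))) (.g (nat_lit 1) (.e (nat_lit 208730) (nat_lit 0) .nil) .nil)))))) 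
(.nd (nat_lit 7) (.nd (nat_lit 8) (.nd (nat_lit 9) 
(.lf (nat_lit 514138) (.g (nat_lit 1793) (.e (nat_lit 188160) (nat_lit 40) (.e (nat_lit 2684) (nat_lit 168) (.e (nat_lit 204846) (nat_lit 24) (.e (nat_lit 319528) (nat_lit 16) (.e (nat_lit 286733) (nat_lit 2) .nil))))) (.g (nat_lit 0) (.e (nat_lit 205691) (nat_lit 0) .nil) .nil))) 
(.lf (nat_lit 514650) (.g (nat_lit 1271) (.e (nat_lit 188430) (nat_lit 20) (.e (nat_lit 3402) (nat_lit 211) (.e (nat_lit 647185) (nat_lit 6) (.e (nat_lit 188435) (nat_lit 20) (.e (nat_lit 3409) (nat_lit 212) (.e (nat_lit 655380) (nat_lit 6) .nil)))))) (.g (nat_lit 1) (.e (nat_lit 207628) (nat_lit 0) .nil) .nil)))) (.nd (nat_lit 9) 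
(.lf (nat_lit 514394) (.g (nat_lit 1952) (.e (nat_lit 188420) (nat_lit 0) (.e (nat_lit 2058) (nat_lit 142) (.e (nat_lit 704599) (nat_lit 6) (.e (nat_lit 188440) (nat_lit 20) (.e (nat_lit 3408) (nat_lit 212) (.e (nat_lit 655380) (nat_lit 6) .nil)))))) (.g (nat_lit 1) (.e (nat_lit 206367) (nat_lit 0) .nil) .nil))) 
(.lf (nat_lit 514906) (.g (nat_lit 423) (.e (nat_lit 188438) (nat_lit 20) (.e (nat_lit 3469) (nat_lit 217) (.e (nat_lit 696344) (nat_lit 8) .nil))) (.g (nat_lit 0) (.e (nat_lit 208570) (nat_lit 0) .nil) .nil))))) (.nd (nat_lit 8) (.nd (nat_lit 9) 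
(.lf (nat_lit 514266) (.g (nat_lit 3377) (.e (nat_lit 188416) (nat_lit 0) (.e (nat_lit 2147) (nat_lit 142) (.e (nat_lit 704597) (nat_lit 6) (.e (nat_lit 188455) (nat_lit 24) (.e (nat_lit 229663) (nat_lit 240) (.e (nat_lit 2653) (nat_lit 166) .nil)))))) (.g (nat_lit 1) (.e (nat_lit 206202) (nat_lit 0) .nil) .nil))) 
(.lf (nat_lit 514778) (.g (nat_lit 2449) (.e (nat_lit 188434) (nat_lit 20) (.e (nat_lit 3469) (nat_lit 217) (.e (nat_lit 696344) (nat_lit 8) (.e (nat_lit 172116) (nat_lit 10) (.e (nat_lit 434286) (nat_lit 42) (.e (nat_lit 696064) (nat_lit 10) .nil)))))) (.g (nat_lit 1) (.e (nat_lit 208240) (nat_lit 0) .nil) .nil)))) (.nd (nat_lit 9) 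
(.lf (nat_lit 514522) (.g (nat_lit 2188) (.e (nat_lit 188423) (nat_lit 11) (.e (nat_lit 335995) (nat_lit 1) (.e (nat_lit 57686) (nat_lit 156) (.e (nat_lit 163903) (nat_lit 12) (.e (nat_lit 426428) (nat_lit 17) .nil))))) (.g (nat_lit 0) (.e (nat_lit 207005) (nat_lit 0) .nil) .nil))) 
(.lf (nat_lit 515034) (.g (nat_lit 2481) (.e (nat_lit 188439) (nat_lit 20) (.e (nat_lit 3469) (nat_lit 217) (.e (nat_lit 696344) (nat_lit 8) (.e (nat_lit 172113) (nat_lit 10) (.e (nat_lit 434203) (nat_lit 18) (.e (nat_lit 6254) (nat_lit 337) (.e (nat_lit 7936) (nat_lit 166) .nil))))))) (.g (nat_lit 1) (.e (nat_lit 208944) (nat_lit 0) .nil) .nil))))))) 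
(.nd (nat_lit 6) (.nd (nat_lit 7) (.nd (nat_lit 8) (.nd (nat_lit 9) 
(.lf (nat_lit 514106) (.g (nat_lit 1032) (.e (nat_lit 188160) (nat_lit 36) (.e (nat_lit 65653) (nat_lit 27) (.e (nat_lit 426190) (nat_lit 9) (.e (nat_lit 426377) (nat_lit 15) .nil)))) (.g (nat_lit 0) (.e (nat_lit 205579) (nat_lit 0) .nil) .nil))) 
(.lf (nat_lit 514618) (.g (nat_lit 2450) (.e (nat_lit 188427) (nat_lit 20) (.e (nat_lit 3397) (nat_lit 211) (.e (nat_lit 647185) (nat_lit 6) (.e (nat_lit 188444) (nat_lit 21) (.e (nat_lit 164348) (nat_lit 240) (.e (nat_lit 2650) (nat_lit 166) .nil)))))) (.g (nat_lit 1) (.e (nat_lit 207416) (nat_lit 0) .nil) .nil)))) (.nd (nat_lit 9) 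
(.lf (nat_lit 514362) (.g (nat_lit 1425) (.e (nat_lit 188419) (nat_lit 0) (.e (nat_lit 2174) (nat_lit 143) (.e (nat_lit 712755) (nat_lit 30) (.e (nat_lit 450564) (nat_lit 0) .nil)))) (.g (nat_lit 0) (.e (nat_lit 206333) (nat_lit 0) .nil) .nil))) 
(.lf (nat_lit 514874) (.g (nat_lit 586) (.e (nat_lit 188438) (nat_lit 20) (.e (nat_lit 3307) (nat_lit 202) (.e (nat_lit 573456) (nat_lit 9) .nil))) (.g (nat_lit 0) (.e (nat_lit 208492) (nat_lit 0) .nil) .nil))))) (.nd (nat_lit 8) (.nd (nat_lit 9) 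
(.lf (nat_lit 514234) (.g (nat_lit 328) (.e (nat_lit 180288) (nat_lit 45) (.e (nat_lit 2579) (nat_lit 161) (.e (nat_lit 40965) (nat_lit 0) (.e (nat_lit 1591) (nat_lit 111) (.e (nat_lit 368384) (nat_lit 10) .nil))))) (.g (nat_lit 0) (.e (nat_lit 206085) (nat_lit 0) .nil) .nil))) 
(.lf (nat_lit 514746) (.g (nat_lit 3034) (.e (nat_lit 188434) (nat_lit 20) (.e (nat_lit 3468) (nat_lit 217) (.e (nat_lit 696344) (nat_lit 8) (.e (nat_lit 172112) (nat_lit 10) (.e (nat_lit 434289) (nat_lit 43) (.e (nat_lit 696346) (nat_lit 10) .nil)))))) (.g (nat_lit 1) (.e (nat_lit 208140) (nat_lit 0) .nil) .nil)))) (.nd (nat_lit 9) 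
(.lf (nat_lit 514490) (.g (nat_lit 1502) (.e (nat_lit 188421) (nat_lit 11) (.e (nat_lit 335995) (nat_lit 1) (.e (nat_lit 57688) (nat_lit 156) (.e (nat_lit 163904) (nat_lit 12) .nil)))) (.g (nat_lit 0) (.e (nat_lit 206623) (nat_lit 0) .nil) .nil))) 
(.lf (nat_lit 515002) (.g (nat_lit 610) (.e (nat_lit 188439) (nat_lit 20) (.e (nat_lit 3409) (nat_lit 212) (.e (nat_lit 655380) (nat_lit 6) (.e (nat_lit 188424) (nat_lit 20) .nil)))) (.g (nat_lit 0) (.e (nat_lit 208828) (nat_lit 0) .nil) .nil)))))) (.nd (nat_lit 7) (.nd (nat_lit 8) (.nd (nat_lit 9) 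
(.lf (nat_lit 514170) (.g (nat_lit 546) (.e (nat_lit 180285) (nat_lit 45) (.e (nat_lit 2579) (nat_lit 161) (.e (nat_lit 40964) (nat_lit 0) (.e (nat_lit 1582) (nat_lit 111) (.e (nat_lit 368384) (nat_lit 10) (.e (nat_lit 581376) (nat_lit 5) .nil)))))) (.g (nat_lit 1) (.e (nat_lit 205855) (nat_lit 0) .nil) .nil))) 
(.lf (nat_lit 514682) (.g (nat_lit 1633) (.e (nat_lit 188431) (nat_lit 20) (.e (nat_lit 3401) (nat_lit 211) (.e (nat_lit 647185) (nat_lit 6) (.e (nat_lit 188416) (nat_lit 0) (.e (nat_lit 2147) (nat_lit 142) (.e (nat_lit 704597) (nat_lit 6) .nil)))))) (.g (nat_lit 1) (.e (nat_lit 207762) (nat_lit 0) .nil) .nil)))) (.nd (nat_lit 9) 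
(.lf (nat_lit 514426) (.g (nat_lit 1480) (.e (nat_lit 188420) (nat_lit 0) (.e (nat_lit 2174) (nat_lit 143) (.e (nat_lit 712755) (nat_lit 30) (.e (nat_lit 450567) (nat_lit 0) .nil)))) (.g (nat_lit 0) (.e (nat_lit 206412) (nat_lit 0) .nil) .nil))) 
(.lf (nat_lit 514938) (.g (nat_lit 1848) (.e (nat_lit 188439) (nat_lit 20) (.e (nat_lit 3272) (nat_lit 199) (.e (nat_lit 548913) (nat_lit 18) (.e (nat_lit 172125) (nat_lit 14) (.e (nat_lit 491524) (nat_lit 0) .nil))))) (.g (nat_lit 0) (.e (nat_lit 208630) (nat_lit 0) .nil) .nil))))) (.nd (nat_lit 8) (.nd (nat_lit 9) 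
(.lf (nat_lit 514298) (.g (nat_lit 2939) (.e (nat_lit 188418) (nat_lit 0) (.e (nat_lit 1856) (nat_lit 124) (.e (nat_lit 557109) (nat_lit 15) (.e (nat_lit 188455) (nat_lit 24) (.e (nat_lit 237312) (nat_lit 134) (.e (nat_lit 2646) (nat_lit 166) .nil)))))) (.g (nat_lit 1) (.e (nat_lit 206258) (nat_lit 0) .nil) .nil))) 
(.lf (nat_lit 514810) (.g (nat_lit 475) (.e (nat_lit 188435) (nat_lit 20) (.e (nat_lit 3408) (nat_lit 212) (.e (nat_lit 655380) (nat_lit 6) (.e (nat_lit 188417) (nat_lit 0) .nil)))) (.g (nat_lit 0) (.e (nat_lit 208326) (nat_lit 0) .nil) .nil)))) (.nd (nat_lit 9) 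
(.lf (nat_lit 514554) (.g (nat_lit 1784) (.e (nat_lit 188423) (nat_lit 11) (.e (nat_lit 336387) (nat_lit 27) (.e (nat_lit 426098) (nat_lit 1) (.e (nat_lit 164402) (nat_lit 256) (.e (nat_lit 57373) (nat_lit 2) .nil))))) (.g (nat_lit 0) (.e (nat_lit 207264) (nat_lit 0) .nil) .nil))) 
(.lf (nat_lit 515066) (.g (nat_lit 2543) (.e (nat_lit 188440) (nat_lit 20) (.e (nat_lit 3272) (nat_lit 199) (.e (nat_lit 548913) (nat_lit 18) (.e (nat_lit 172126) (nat_lit 14) (.e (nat_lit 491536) (nat_lit 2) .nil))))) (.g (nat_lit 0) (.e (nat_lit 209006) (nat_lit 0) .nil) .nil)))))))))) 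
(.nd (nat_lit 3) (.nd (nat_lit 4) (.nd (nat_lit 5) (.nd (nat_lit 6) (.nd (nat_lit 7) 
(.nd (nat_lit 8) (.nd (nat_lit 9) 
(.lf (nat_lit 514054) (.g (nat_lit 2731) (.e (nat_lit 188160) (nat_lit 32) (.e (nat_lit 1256) (nat_lit 92) (.e (nat_lit 98373) (nat_lit 29) (.e (nat_lit 450563) (nat_lit 0) (.e (nat_lit 3919) (nat_lit 239) .nil))))) (.g (nat_lit 0) (.e (nat_lit 205419) (nat_lit 0) .nil) .nil))) 
(.lf (nat_lit 514566) (.g (nat_lit 2333) (.e (nat_lit 196352) (nat_lit 11) (.e (nat_lit 336389) (nat_lit 27) (.e (nat_lit 426098) (nat_lit 1) (.e (nat_lit 164399) (nat_lit 256) (.e (nat_lit 57373) (nat_lit 2) .nil))))) (.g (nat_lit 0) (.e (nat_lit 207292) (nat_lit 0) .nil) .nil)))) (.nd (nat_lit 9) 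
(.lf (nat_lit 514310) (.g (nat_lit 3424) (.e (nat_lit 188418) (nat_lit 0) (.e (nat_lit 2058) (nat_lit 142) (.e (nat_lit 704599) (nat_lit 6) (.e (nat_lit 188455) (nat_lit 24) (.e (nat_lit 229663) (nat_lit 240) (.e (nat_lit 2653) (nat_lit 166) .nil)))))) (.g (nat_lit 1) (.e (nat_lit 206274) (nat_lit 0) .nil) .nil))) 
(.lf (nat_lit 514822) (.g (nat_lit 1497) (.e (nat_lit 188435) (nat_lit 20) (.e (nat_lit 3409) (nat_lit 212) (.e (nat_lit 655380) (nat_lit 6) (.e (nat_lit 188440) (nat_lit 20) (.e (nat_lit 3408) (nat_lit 212) (.e (nat_lit 655380) (nat_lit 6) .nil)))))) (.g (nat_lit 1) (.e (nat_lit 208347) (nat_lit 0) .nil) .nil))))) (.nd (nat_lit 8) (.nd (nat_lit 9) 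
(.lf (nat_lit 514182) (.g (nat_lit 1317) (.e (nat_lit 180285) (nat_lit 45) (.e (nat_lit 2580) (nat_lit 161) (.e (nat_lit 40964) (nat_lit 0) (.e (nat_lit 1582) (nat_lit 111) (.e (nat_lit 360477) (nat_lit 11) (.e (nat_lit 581652) (nat_lit 5) .nil)))))) (.g (nat_lit 1) (.e (nat_lit 205867) (nat_lit 0) .nil) .nil))) 
(.lf (nat_lit 514694) (.g (nat_lit 1630) (.e (nat_lit 188431) (nat_lit 20) (.e (nat_lit 3402) (nat_lit 211) (.e (nat_lit 647185) (nat_lit 6) (.e (nat_lit 188416) (nat_lit 0) (.e (nat_lit 2147) (nat_lit 142) (.e (nat_lit 704597) (nat_lit 6) .nil)))))) (.g (nat_lit 1) (.e (nat_lit 207792) (nat_lit 0) .nil) .nil)))) (.nd (nat_lit 9) 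
(.lf (nat_lit 514438) (.g (nat_lit 1043) (.e (nat_lit 188420) (nat_lit 0) (.e (nat_lit 2175) (nat_lit 143) (.e (nat_lit 712753) (nat_lit 30) (.e (nat_lit 450567) (nat_lit 0) (.e (nat_lit 5443) (nat_lit 306) (.e (nat_lit 7936) (nat_lit 166) .nil)))))) (.g (nat_lit 1) (.e (nat_lit 206425) (nat_lit 0) .nil) .nil))) 
(.lf (nat_lit 514950) (.g (nat_lit 2115) (.e (nat_lit 188439) (nat_lit 20) (.e (nat_lit 3308) (nat_lit 202) (.e (nat_lit 573471) (nat_lit 11) (.e (nat_lit 16473) (nat_lit 14) (.e (nat_lit 491535) (nat_lit 2) .nil))))) (.g (nat_lit 0) (.e (nat_lit 208649) (nat_lit 0) .nil) .nil)))))) (.nd (nat_lit 7) (.nd (nat_lit 8) (.nd (nat_lit 9) 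
(.lf (nat_lit 514118) (.g (nat_lit 1170) (.e (nat_lit 188160) (nat_lit 39) (.e (nat_lit 131140) (nat_lit 27) (.e (nat_lit 426189) (nat_lit 9) (.e (nat_lit 426444) (nat_lit 19) (.e (nat_lit 114432) (nat_lit 5) .nil))))) (.g (nat_lit 0) (.e (nat_lit 205640) (nat_lit 0) .nil) .nil))) 
(.lf (nat_lit 514630) (.g (nat_lit 90) (.e (nat_lit 188428) (nat_lit 20) (.e (nat_lit 3401) (nat_lit 211) (.e (nat_lit 647181) (nat_lit 3) .nil))) (.g (nat_lit 0) (.e (nat_lit 207523) (nat_lit 0) .nil) .nil)))) (.nd (nat_lit 9) 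
(.lf (nat_lit 514374) (.g (nat_lit 1542) (.e (nat_lit 188420) (nat_lit 0) (.e (nat_lit 2056) (nat_lit 142) (.e (nat_lit 704598) (nat_lit 6) (.e (nat_lit 188446) (nat_lit 21) (.e (nat_lit 164345) (nat_lit 240) (.e (nat_lit 2648) (nat_lit 166) .nil)))))) (.g (nat_lit 1) (.e (nat_lit 206346) (nat_lit 0) .nil) .nil))) 
(.lf (nat_lit 514886) (.g (nat_lit 805) (.e (nat_lit 188438) (nat_lit 20) (.e (nat_lit 3403) (nat_lit 212) (.e (nat_lit 655378) (nat_lit 4) (.e (nat_lit 172107) (nat_lit 10) .nil)))) (.g (nat_lit 0) (.e (nat_lit 208508) (nat_lit 0) .nil) .nil))))) (.nd (nat_lit 8) (.nd (nat_lit 9) 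
(.lf (nat_lit 514246) (.g (nat_lit 269) (.e (nat_lit 180288) (nat_lit 45) (.e (nat_lit 2580) (nat_lit 161) (.e (nat_lit 40965) (nat_lit 0) (.e (nat_lit 1591) (nat_lit 111) (.e (nat_lit 368384) (nat_lit 10) .nil))))) (.g (nat_lit 0) (.e (nat_lit 206097) (nat_lit 0) .nil) .nil))) 
(.lf (nat_lit 514758) (.g (nat_lit 1931) (.e (nat_lit 188434) (nat_lit 20) (.e (nat_lit 3469) (nat_lit 217) (.e (nat_lit 696344) (nat_lit 8) (.e (nat_lit 172106) (nat_lit 10) (.e (nat_lit 434287) (nat_lit 43) .nil))))) (.g (nat_lit 0) (.e (nat_lit 208220) (nat_lit 0) .nil) .nil)))) (.nd (nat_lit 9) 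
(.lf (nat_lit 514502) (.g (nat_lit 2722) (.e (nat_lit 188421) (nat_lit 11) (.e (nat_lit 336231) (nat_lit 14) (.e (nat_lit 401448) (nat_lit 10) (.e (nat_lit 434287) (nat_lit 43) (.e (nat_lit 696346) (nat_lit 10) .nil))))) (.g (nat_lit 1) (.e (nat_lit 206806) (nat_lit 0) .nil) .nil))) 
(.lf (nat_lit 515014) (.g (nat_lit 2692) (.e (nat_lit 188439) (nat_lit 20) (.e (nat_lit 3409) (nat_lit 212) (.e (nat_lit 655380) (nat_lit 6) (.e (nat_lit 188444) (nat_lit 21) (.e (nat_lit 164347) (nat_lit 240) (.e (nat_lit 2648) (nat_lit 166) .nil)))))) (.g (nat_lit 1) (.e (nat_lit 208841) (nat_lit 0) .nil) .nil))))))) (.nd (nat_lit 6) (.nd (nat_lit 7) (.nd (nat_lit 8) (.nd (nat_lit 9) 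
(.lf (nat_lit 514086) (.g (nat_lit 1439) (.e (nat_lit 188160) (nat_lit 32) (.e (nat_lit 1659) (nat_lit 115) (.e (nat_lit 393283) (nat_lit 24) (.e (nat_lit 434209) (nat_lit 18) (.e (nat_lit 5548) (nat_lit 306) .nil))))) (.g (nat_lit 0) (.e (nat_lit 205457) (nat_lit 0) .nil) .nil))) 
(.lf (nat_lit 514598) (.g (nat_lit 524) (.e (nat_lit 188424) (nat_lit 20) (.e (nat_lit 3238) (nat_lit 197) (.e (nat_lit 532523) (nat_lit 7) .nil))) (.g (nat_lit 0) (.e (nat_lit 207375) (nat_lit 0) .nil) .nil)))) (.nd (nat_lit 9) 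
(.lf (nat_lit 514342) (.g (nat_lit 1122) (.e (nat_lit 188418) (nat_lit 0) (.e (nat_lit 2175) (nat_lit 143) (.e (nat_lit 712752) (nat_lit 29) (.e (nat_lit 442428) (nat_lit 24) .nil)))) (.g (nat_lit 0) (.e (nat_lit 206313) (nat_lit 0) .nil) .nil))) 
(.lf (nat_lit 514854) (.g (nat_lit 1874) (.e (nat_lit 188436) (nat_lit 20) (.e (nat_lit 3307) (nat_lit 202) (.e (nat_lit 573477) (nat_lit 12) (.e (nat_lit 57574) (nat_lit 55) (.e (nat_lit 778465) (nat_lit 11) .nil))))) (.g (nat_lit 0) (.e (nat_lit 208430) (nat_lit 0) .nil) .nil))))) (.nd (nat_lit 8) (.nd (nat_lit 9) 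
(.lf (nat_lit 514214) (.g (nat_lit 493) (.e (nat_lit 180287) (nat_lit 45) (.e (nat_lit 2580) (nat_lit 161) (.e (nat_lit 40964) (nat_lit 0) (.e (nat_lit 1582) (nat_lit 111) (.e (nat_lit 368384) (nat_lit 11) (.e (nat_lit 581652) (nat_lit 5) .nil)))))) (.g (nat_lit 1) (.e (nat_lit 206012) (nat_lit 0) .nil) .nil))) 
(.lf (nat_lit 514726) (.g (nat_lit 1616) (.e (nat_lit 188434) (nat_lit 20) (.e (nat_lit 3406) (nat_lit 212) (.e (nat_lit 655380) (nat_lit 6) (.e (nat_lit 188441) (nat_lit 20) (.e (nat_lit 3406) (nat_lit 212) (.e (nat_lit 655380) (nat_lit 6) .nil)))))) (.g (nat_lit 1) (.e (nat_lit 208017) (nat_lit 0) .nil) .nil)))) (.nd (nat_lit 9) 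
(.lf (nat_lit 514470) (.g (nat_lit 499) (.e (nat_lit 196352) (nat_lit 0) (.e (nat_lit 2031) (nat_lit 140) (.e (nat_lit 688185) (nat_lit 18) .nil))) (.g (nat_lit 0) (.e (nat_lit 206463) (nat_lit 0) .nil) .nil))) 
(.lf (nat_lit 514982) (.g (nat_lit 1061) (.e (nat_lit 188439) (nat_lit 20) (.e (nat_lit 3408) (nat_lit 212) (.e (nat_lit 655364) (nat_lit 0) (.e (nat_lit 2989) (nat_lit 186) (.e (nat_lit 450304) (nat_lit 4) (.e (nat_lit 114432) (nat_lit 6) .nil)))))) (.g (nat_lit 1) (.e (nat_lit 208775) (nat_lit 0) .nil) .nil)))))) (.nd (nat_lit 7) (.nd (nat_lit 8) (.nd (nat_lit 9) 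
(.lf (nat_lit 514150) (.g (nat_lit 585) (.e (nat_lit 180284) (nat_lit 45) (.e (nat_lit 2579) (nat_lit 161) (.e (nat_lit 40965) (nat_lit 0) (.e (nat_lit 1574) (nat_lit 110) (.e (nat_lit 360192) (nat_lit 2) (.e (nat_lit 204544) (nat_lit 5) .nil)))))) (.g (nat_lit 1) (.e (nat_lit 205754) (nat_lit 0) .nil) .nil))) 
(.lf (nat_lit 514662) (.g (nat_lit 2344) (.e (nat_lit 188431) (nat_lit 20) (.e (nat_lit 3397) (nat_lit 211) (.e (nat_lit 647183) (nat_lit 4) (.e (nat_lit 172118) (nat_lit 12) (.e (nat_lit 475199) (nat_lit 40) (.e (nat_lit 704598) (nat_lit 6) .nil)))))) (.g (nat_lit 1) (.e (nat_lit 207677) (nat_lit 0) .nil) .nil)))) (.nd (nat_lit 9) 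
(.lf (nat_lit 514406) (.g (nat_lit 526) (.e (nat_lit 188420) (nat_lit 0) (.e (nat_lit 2174) (nat_lit 143) (.e (nat_lit 712739) (nat_lit 27) (.e (nat_lit 426211) (nat_lit 9) .nil)))) (.g (nat_lit 0) (.e (nat_lit 206379) (nat_lit 0) .nil) .nil))) 
(.lf (nat_lit 514918) (.g (nat_lit 1433) (.e (nat_lit 188438) (nat_lit 20) (.e (nat_lit 3469) (nat_lit 217) (.e (nat_lit 696344) (nat_lit 8) (.e (nat_lit 172116) (nat_lit 10) (.e (nat_lit 434286) (nat_lit 42) .nil))))) (.g (nat_lit 0) (.e (nat_lit 208583) (nat_lit 0) .nil) .nil))))) (.nd (nat_lit 8) (.nd (nat_lit 9) 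
(.lf (nat_lit 514278) (.g (nat_lit 1967) (.e (nat_lit 188417) (nat_lit 0) (.e (nat_lit 2148) (nat_lit 142) (.e (nat_lit 704597) (nat_lit 6) (.e (nat_lit 188446) (nat_lit 21) (.e (nat_lit 164348) (nat_lit 240) (.e (nat_lit 2648) (nat_lit 166) .nil)))))) (.g (nat_lit 1) (.e (nat_lit 206232) (nat_lit 0) .nil) .nil))) 
(.lf (nat_lit 514790) (.g (nat_lit 297) (.e (nat_lit 188435) (nat_lit 20) (.e (nat_lit 3289) (nat_lit 201) (.e (nat_lit 565268) (nat_lit 5) (.e (nat_lit 73791) (nat_lit 45) (.e (nat_lit 1161) (nat_lit 86) .nil))))) (.g (nat_lit 0) (.e (nat_lit 208292) (nat_lit 0) .nil) .nil)))) (.nd (nat_lit 9) 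
(.lf (nat_lit 514534) (.g (nat_lit 2918) (.e (nat_lit 188423) (nat_lit 11) (.e (nat_lit 335996) (nat_lit 1) (.e (nat_lit 57691) (nat_lit 156) (.e (nat_lit 163907) (nat_lit 12) (.e (nat_lit 426432) (nat_lit 17) .nil))))) (.g (nat_lit 0) (.e (nat_lit 207017) (nat_lit 0) .nil) .nil))) 
(.lf (nat_lit 515046) (.g (nat_lit 2279) (.e (nat_lit 188439) (nat_lit 20) (.e (nat_lit 3469) (nat_lit 217) (.e (nat_lit 696344) (nat_lit 8) (.e (nat_lit 172116) (nat_lit 10) (.e (nat_lit 434286) (nat_lit 42) (.e (nat_lit 696064) (nat_lit 10) .nil)))))) (.g (nat_lit 1) (.e (nat_lit 208956) (nat_lit 0) .nil) .nil)))))))) 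
(.nd (nat_lit 5) (.nd (nat_lit 6) (.nd (nat_lit 7) (.nd (nat_lit 8) (.nd (nat_lit 9) 
(.lf (nat_lit 514070) (.g (nat_lit 936) (.e (nat_lit 188160) (nat_lit 32) (.e (nat_lit 1648) (nat_lit 115) (.e (nat_lit 393294) (nat_lit 26) (.e (nat_lit 475197) (nat_lit 40) .nil)))) (.g (nat_lit 0) (.e (nat_lit 205441) (nat_lit 0) .nil) .nil))) 
(.lf (nat_lit 514582) (.g (nat_lit 396) (.e (nat_lit 196352) (nat_lit 16) (.e (nat_lit 376860) (nat_lit 21) (.e (nat_lit 57854) (nat_lit 252) .nil))) (.g (nat_lit 0) (.e (nat_lit 207322) (nat_lit 0) .nil) .nil)))) (.nd (nat_lit 9) 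
(.lf (nat_lit 514326) (.g (nat_lit 416) (.e (nat_lit 188418) (nat_lit 0) (.e (nat_lit 2174) (nat_lit 143) (.e (nat_lit 712752) (nat_lit 29) .nil))) (.g (nat_lit 0) (.e (nat_lit 206295) (nat_lit 0) .nil) .nil))) 
(.lf (nat_lit 514838) (.g (nat_lit 2899) (.e (nat_lit 188435) (nat_lit 20) (.e (nat_lit 3469) (nat_lit 217) (.e (nat_lit 696344) (nat_lit 8) (.e (nat_lit 172113) (nat_lit 10) (.e (nat_lit 434208) (nat_lit 18) (.e (nat_lit 6250) (nat_lit 337) (.e (nat_lit 7936) (nat_lit 166) .nil))))))) (.g (nat_lit 1) (.e (nat_lit 208405) (nat_lit 0) .nil) .nil))))) (.nd (nat_lit 8) (.nd (nat_lit 9) 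
(.lf (nat_lit 514198) (.g (nat_lit 361) (.e (nat_lit 180287) (nat_lit 45) (.e (nat_lit 2577) (nat_lit 161) (.e (nat_lit 40965) (nat_lit 0) (.e (nat_lit 1585) (nat_lit 111) (.e (nat_lit 368384) (nat_lit 10) .nil))))) (.g (nat_lit 0) (.e (nat_lit 205996) (nat_lit 0) .nil) .nil))) 
(.lf (nat_lit 514710) (.g (nat_lit 890) (.e (nat_lit 188434) (nat_lit 20) (.e (nat_lit 3289) (nat_lit 201) (.e (nat_lit 565268) (nat_lit 5) (.e (nat_lit 73794) (nat_lit 46) (.e (nat_lit 57606) (nat_lit 107) (.e (nat_lit 712448) (nat_lit 6) .nil)))))) (.g (nat_lit 1) (.e (nat_lit 207920) (nat_lit 0) .nil) .nil)))) (.nd (nat_lit 9) 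
(.lf (nat_lit 514454) (.g (nat_lit 2419) (.e (nat_lit 196352) (nat_lit 0) (.e (nat_lit 1853) (nat_lit 124) (.e (nat_lit 557098) (nat_lit 13) (.e (nat_lit 172120) (nat_lit 12) (.e (nat_lit 475185) (nat_lit 29) .nil))))) (.g (nat_lit 0) (.e (nat_lit 206444) (nat_lit 0) .nil) .nil))) 
(.lf (nat_lit 514966) (.g (nat_lit 2201) (.e (nat_lit 188439) (nat_lit 20) (.e (nat_lit 3406) (nat_lit 212) (.e (nat_lit 655378) (nat_lit 4) (.e (nat_lit 172119) (nat_lit 12) (.e (nat_lit 475199) (nat_lit 40) (.e (nat_lit 704598) (nat_lit 6) .nil)))))) (.g (nat_lit 1) (.e (nat_lit 208724) (nat_lit 0) .nil) .nil)))))) (.nd (nat_lit 7) (.nd (nat_lit 8) (.nd (nat_lit 9) 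
(.lf (nat_lit 514134) (.g (nat_lit 1811) (.e (nat_lit 188160) (nat_lit 40) (.e (nat_lit 232) (nat_lit 21) (.e (nat_lit 336060) (nat_lit 7) (.e (nat_lit 319533) (nat_lit 16) (.e (nat_lit 286722) (nat_lit 0) .nil))))) (.g (nat_lit 0) (.e (nat_lit 205671) (nat_lit 0) .nil) .nil))) 
(.lf (nat_lit 514646) (.g (nat_lit 1310) (.e (nat_lit 188430) (nat_lit 20) (.e (nat_lit 3399) (nat_lit 211) (.e (nat_lit 647185) (nat_lit 6) (.e (nat_lit 188439) (nat_lit 20) (.e (nat_lit 3408) (nat_lit 212) (.e (nat_lit 655380) (nat_lit 6) .nil)))))) (.g (nat_lit 1) (.e (nat_lit 207624) (nat_lit 0) .nil) .nil)))) (.nd (nat_lit 9) 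
(.lf (nat_lit 514390) (.g (nat_lit 2983) (.e (nat_lit 188420) (nat_lit 0) (.e (nat_lit 2058) (nat_lit 142) (.e (nat_lit 704598) (nat_lit 6) (.e (nat_lit 188455) (nat_lit 24) (.e (nat_lit 229665) (nat_lit 240) (.e (nat_lit 2651) (nat_lit 166) .nil)))))) (.g (nat_lit 1) (.e (nat_lit 206363) (nat_lit 0) .nil) .nil))) 
(.lf (nat_lit 514902) (.g (nat_lit 1156) (.e (nat_lit 188438) (nat_lit 20) (.e (nat_lit 3409) (nat_lit 212) (.e (nat_lit 655380) (nat_lit 6) (.e (nat_lit 188441) (nat_lit 20) (.e (nat_lit 3406) (nat_lit 212) .nil))))) (.g (nat_lit 0) (.e (nat_lit 208529) (nat_lit 0) .nil) .nil))))) (.nd (nat_lit 8) (.nd (nat_lit 9) 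
(.lf (nat_lit 514262) (.g (nat_lit 2135) (.e (nat_lit 188416) (nat_lit 0) (.e (nat_lit 2147) (nat_lit 142) (.e (nat_lit 704597) (nat_lit 6) (.e (nat_lit 188444) (nat_lit 21) (.e (nat_lit 164348) (nat_lit 240) (.e (nat_lit 2648) (nat_lit 166) .nil)))))) (.g (nat_lit 1) (.e (nat_lit 206198) (nat_lit 0) .nil) .nil))) 
(.lf (nat_lit 514774) (.g (nat_lit 2495) (.e (nat_lit 188434) (nat_lit 20) (.e (nat_lit 3469) (nat_lit 217) (.e (nat_lit 696344) (nat_lit 8) (.e (nat_lit 172115) (nat_lit 10) (.e (nat_lit 434202) (nat_lit 18) (.e (nat_lit 6254) (nat_lit 337) (.e (nat_lit 7936) (nat_lit 166) .nil))))))) (.g (nat_lit 1) (.e (nat_lit 208236) (nat_lit 0) .nil) .nil)))) (.nd (nat_lit 9) 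
(.lf (nat_lit 514518) (.g (nat_lit 1996) (.e (nat_lit 188423) (nat_lit 11) (.e (nat_lit 335986) (nat_lit 1) (.e (nat_lit 57691) (nat_lit 156) (.e (nat_lit 163905) (nat_lit 12) (.e (nat_lit 426427) (nat_lit 17) .nil))))) (.g (nat_lit 0) (.e (nat_lit 207001) (nat_lit 0) .nil) .nil))) 
(.lf (nat_lit 515030) (.g (nat_lit 2195) (.e (nat_lit 188439) (nat_lit 20) (.e (nat_lit 3469) (nat_lit 217) (.e (nat_lit 696344) (nat_lit 8) (.e (nat_lit 172112) (nat_lit 10) (.e (nat_lit 434286) (nat_lit 42) (.e (nat_lit 696064) (nat_lit 10) .nil)))))) (.g (nat_lit 1) (.e (nat_lit 208940) (nat_lit 0) .nil) .nil))))))) (.nd (nat_lit 6) (.nd (nat_lit 7) (.nd (nat_lit 8) (.nd (nat_lit 9) 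
(.lf (nat_lit 514102) (.g (nat_lit 1386) (.e (nat_lit 188160) (nat_lit 35) (.e (nat_lit 57464) (nat_lit 23) (.e (nat_lit 516151) (nat_lit 9) (.e (nat_lit 426285) (nat_lit 10) .nil)))) (.g (nat_lit 0) (.e (nat_lit 205541) (nat_lit 0) .nil) .nil))) 
(.lf (nat_lit 514614) (.g (nat_lit 2148) (.e (nat_lit 188427) (nat_lit 20) (.e (nat_lit 3277) (nat_lit 200) (.e (nat_lit 557090) (nat_lit 12) (.e (nat_lit 164038) (nat_lit 55) .nil)))) (.g (nat_lit 0) (.e (nat_lit 207411) (nat_lit 0) .nil) .nil)))) (.nd (nat_lit 9) 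
(.lf (nat_lit 514358) (.g (nat_lit 440) (.e (nat_lit 188419) (nat_lit 0) (.e (nat_lit 2058) (nat_lit 142) (.e (nat_lit 704598) (nat_lit 6) .nil))) (.g (nat_lit 0) (.e (nat_lit 206329) (nat_lit 0) .nil) .nil))) 
(.lf (nat_lit 514870) (.g (nat_lit 3604) (.e (nat_lit 188438) (nat_lit 20) (.e (nat_lit 3271) (nat_lit 199) (.e (nat_lit 548913) (nat_lit 18) (.e (nat_lit 172120) (nat_lit 12) (.e (nat_lit 475183) (nat_lit 29) .nil))))) (.g (nat_lit 0) (.e (nat_lit 208479) (nat_lit 0) .nil) .nil))))) (.nd (nat_lit 8) (.nd (nat_lit 9) 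
(.lf (nat_lit 514230) (.g (nat_lit 537) (.e (nat_lit 180288) (nat_lit 45) (.e (nat_lit 2579) (nat_lit 161) (.e (nat_lit 40965) (nat_lit 0) (.e (nat_lit 1558) (nat_lit 110) (.e (nat_lit 360192) (nat_lit 2) (.e (nat_lit 204544) (nat_lit 5) .nil)))))) (.g (nat_lit 1) (.e (nat_lit 206081) (nat_lit 0) .nil) .nil))) 
(.lf (nat_lit 514742) (.g (nat_lit 1915) (.e (nat_lit 188434) (nat_lit 20) (.e (nat_lit 3467) (nat_lit 217) (.e (nat_lit 696343) (nat_lit 8) (.e (nat_lit 172115) (nat_lit 10) (.e (nat_lit 434209) (nat_lit 18) (.e (nat_lit 6273) (nat_lit 337) (.e (nat_lit 2645) (nat_lit 166) .nil))))))) (.g (nat_lit 1) (.e (nat_lit 208079) (nat_lit 0) .nil) .nil)))) (.nd (nat_lit 9) 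
(.lf (nat_lit 514486) (.g (nat_lit 2923) (.e (nat_lit 188421) (nat_lit 11) (.e (nat_lit 335988) (nat_lit 1) (.e (nat_lit 57689) (nat_lit 156) (.e (nat_lit 163907) (nat_lit 12) (.e (nat_lit 426428) (nat_lit 17) .nil))))) (.g (nat_lit 0) (.e (nat_lit 206619) (nat_lit 0) .nil) .nil))) 
(.lf (nat_lit 514998) (.g (nat_lit 3144) (.e (nat_lit 188439) (nat_lit 20) (.e (nat_lit 3409) (nat_lit 212) (.e (nat_lit 655378) (nat_lit 4) (.e (nat_lit 172115) (nat_lit 10) (.e (nat_lit 434209) (nat_lit 18) (.e (nat_lit 5547) (nat_lit 306) (.e (nat_lit 2648) (nat_lit 166) .nil))))))) (.g (nat_lit 1) (.e (nat_lit 208824) (nat_lit 0) .nil) .nil)))))) 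
(.nd (nat_lit 7) (.nd (nat_lit 8) (.nd (nat_lit 9) 
(.lf (nat_lit 514166) (.g (nat_lit 2689) (.e (nat_lit 180285) (nat_lit 45) (.e (nat_lit 2570) (nat_lit 160) (.e (nat_lit 32807) (nat_lit 18) (.e (nat_lit 172120) (nat_lit 12) (.e (nat_lit 475185) (nat_lit 29) (.e (nat_lit 557105) (nat_lit 14) .nil)))))) (.g (nat_lit 1) (.e (nat_lit 205824) (nat_lit 0) .nil) .nil))) 
(.lf (nat_lit 514678) (.g (nat_lit 1324) (.e (nat_lit 188431) (nat_lit 20) (.e (nat_lit 3401) (nat_lit 211) (.e (nat_lit 647170) (nat_lit 0) (.e (nat_lit 2996) (nat_lit 186) (.e (nat_lit 450304) (nat_lit 4) (.e (nat_lit 114432) (nat_lit 6) .nil)))))) (.g (nat_lit 1) (.e (nat_lit 207706) (nat_lit 0) .nil) .nil)))) (.nd (nat_lit 9) 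
(.lf (nat_lit 514422) (.g (nat_lit 2319) (.e (nat_lit 188420) (nat_lit 0) (.e (nat_lit 2174) (nat_lit 143) (.e (nat_lit 712755) (nat_lit 30) (.e (nat_lit 450563) (nat_lit 0) (.e (nat_lit 5537) (nat_lit 306) (.e (nat_lit 7936) (nat_lit 166) .nil)))))) (.g (nat_lit 1) (.e (nat_lit 206407) (nat_lit 0) .nil) .nil))) 
(.lf (nat_lit 514934) (.g (nat_lit 1535) (.e (nat_lit 188439) (nat_lit 20) (.e (nat_lit 3272) (nat_lit 199) (.e (nat_lit 548913) (nat_lit 18) (.e (nat_lit 172118) (nat_lit 12) (.e (nat_lit 475184) (nat_lit 29) .nil))))) (.g (nat_lit 0) (.e (nat_lit 208626) (nat_lit 0) .nil) .nil))))) (.nd (nat_lit 8) (.nd (nat_lit 9) 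
(.lf (nat_lit 514294) (.g (nat_lit 1185) (.e (nat_lit 188418) (nat_lit 0) (.e (nat_lit 1856) (nat_lit 124) (.e (nat_lit 557105) (nat_lit 14) (.e (nat_lit 188160) (nat_lit 35) .nil)))) (.g (nat_lit 0) (.e (nat_lit 206254) (nat_lit 0) .nil) .nil))) 
(.lf (nat_lit 514806) (.g (nat_lit 1053) (.e (nat_lit 188435) (nat_lit 20) (.e (nat_lit 3408) (nat_lit 212) (.e (nat_lit 655364) (nat_lit 0) (.e (nat_lit 3004) (nat_lit 186) (.e (nat_lit 450304) (nat_lit 4) (.e (nat_lit 114432) (nat_lit 6) .nil)))))) (.g (nat_lit 1) (.e (nat_lit 208320) (nat_lit 0) .nil) .nil)))) (.nd (nat_lit 9) 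
(.lf (nat_lit 514550) (.g (nat_lit 1796) (.e (nat_lit 188423) (nat_lit 11) (.e (nat_lit 336385) (nat_lit 27) (.e (nat_lit 426098) (nat_lit 1) (.e (nat_lit 164399) (nat_lit 256) (.e (nat_lit 57373) (nat_lit 2) .nil))))) (.g (nat_lit 0) (.e (nat_lit 207260) (nat_lit 0) .nil) .nil))) 
(.lf (nat_lit 515062) (.g (nat_lit 2276) (.e (nat_lit 188440) (nat_lit 20) (.e (nat_lit 3272) (nat_lit 199) (.e (nat_lit 548913) (nat_lit 18) (.e (nat_lit 172124) (nat_lit 14) (.e (nat_lit 491524) (nat_lit 0) .nil))))) (.g (nat_lit 0) (.e (nat_lit 209002) (nat_lit 0) .nil) .nil))))))))) (.nd (nat_lit 4) (.nd (nat_lit 5) (.nd (nat_lit 6) (.nd (nat_lit 7) (.nd (nat_lit 8) (.nd (nat_lit 9) 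
(.lf (nat_lit 514062) (.g (nat_lit 670) (.e (nat_lit 188160) (nat_lit 32) (.e (nat_lit 1468) (nat_lit 108) (.e (nat_lit 336444) (nat_lit 32) (.e (nat_lit 466947) (nat_lit 0) (.e (nat_lit 2056) (nat_lit 142) .nil))))) (.g (nat_lit 0) (.e (nat_lit 205430) (nat_lit 0) .nil) .nil))) 
(.lf (nat_lit 514574) (.g (nat_lit 2105) (.e (nat_lit 196352) (nat_lit 11) (.e (nat_lit 336390) (nat_lit 27) (.e (nat_lit 426100) (nat_lit 1) (.e (nat_lit 164398) (nat_lit 256) (.e (nat_lit 57375) (nat_lit 2) .nil))))) (.g (nat_lit 0) (.e (nat_lit 207300) (nat_lit 0) .nil) .nil)))) (.nd (nat_lit 9) 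
(.lf (nat_lit 514318) (.g (nat_lit 2529) (.e (nat_lit 188418) (nat_lit 0) (.e (nat_lit 2059) (nat_lit 142) (.e (nat_lit 704599) (nat_lit 6) (.e (nat_lit 188453) (nat_lit 24) (.e (nat_lit 229665) (nat_lit 240) (.e (nat_lit 2653) (nat_lit 166) .nil)))))) (.g (nat_lit 1) (.e (nat_lit 206282) (nat_lit 0) .nil) .nil))) 
(.lf (nat_lit 514830) (.g (nat_lit 1981) (.e (nat_lit 188435) (nat_lit 20) (.e (nat_lit 3469) (nat_lit 217) (.e (nat_lit 696344) (nat_lit 8) (.e (nat_lit 172106) (nat_lit 10) (.e (nat_lit 434287) (nat_lit 43) .nil))))) (.g (nat_lit 0) (.e (nat_lit 208397) (nat_lit 0) .nil) .nil))))) (.nd (nat_lit 8) (.nd (nat_lit 9) 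
(.lf (nat_lit 514190) (.g (nat_lit 1308) (.e (nat_lit 180285) (nat_lit 45) (.e (nat_lit 2798) (nat_lit 180) (.e (nat_lit 311040) (nat_lit 35) (.e (nat_lit 401454) (nat_lit 12) (.e (nat_lit 475197) (nat_lit 40) .nil))))) (.g (nat_lit 0) (.e (nat_lit 205890) (nat_lit 0) .nil) .nil))) 
(.lf (nat_lit 514702) (.g (nat_lit 2300) (.e (nat_lit 188434) (nat_lit 20) (.e (nat_lit 3266) (nat_lit 199) (.e (nat_lit 548913) (nat_lit 18) (.e (nat_lit 172120) (nat_lit 12) .nil)))) (.g (nat_lit 0) (.e (nat_lit 207890) (nat_lit 0) .nil) .nil)))) (.nd (nat_lit 9) 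
(.lf (nat_lit 514446) (.g (nat_lit 1435) (.e (nat_lit 188420) (nat_lit 0) (.e (nat_lit 2175) (nat_lit 143) (.e (nat_lit 712755) (nat_lit 30) (.e (nat_lit 450567) (nat_lit 0) .nil)))) (.g (nat_lit 0) (.e (nat_lit 206433) (nat_lit 0) .nil) .nil))) 
(.lf (nat_lit 514958) (.g (nat_lit 1683) (.e (nat_lit 188439) (nat_lit 20) (.e (nat_lit 3390) (nat_lit 210) (.e (nat_lit 639004) (nat_lit 13) (.e (nat_lit 1615) (nat_lit 113) (.e (nat_lit 376860) (nat_lit 21) (.e (nat_lit 57832) (nat_lit 250) (.e (nat_lit 7936) (nat_lit 166) .nil))))))) (.g (nat_lit 1) (.e (nat_lit 208673) (nat_lit 0) .nil) .nil)))))) 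
(.nd (nat_lit 7) (.nd (nat_lit 8) (.nd (nat_lit 9) 
(.lf (nat_lit 514126) (.g (nat_lit 234) (.e (nat_lit 188160) (nat_lit 39) (.e (nat_lit 131140) (nat_lit 27) (.e (nat_lit 426306) (nat_lit 12) .nil))) (.g (nat_lit 0) (.e (nat_lit 205657) (nat_lit 0) .nil) .nil))) 
(.lf (nat_lit 514638) (.g (nat_lit 2119) (.e (nat_lit 188428) (nat_lit 20) (.e (nat_lit 3402) (nat_lit 211) (.e (nat_lit 647183) (nat_lit 4) (.e (nat_lit 172120) (nat_lit 12) (.e (nat_lit 475198) (nat_lit 40) (.e (nat_lit 712448) (nat_lit 6) .nil)))))) (.g (nat_lit 1) (.e (nat_lit 207539) (nat_lit 0) .nil) .nil)))) (.nd (nat_lit 9) 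
(.lf (nat_lit 514382) (.g (nat_lit 2302) (.e (nat_lit 188420) (nat_lit 0) (.e (nat_lit 2057) (nat_lit 142) (.e (nat_lit 704598) (nat_lit 6) (.e (nat_lit 188446) (nat_lit 21) (.e (nat_lit 164347) (nat_lit 240) (.e (nat_lit 2648) (nat_lit 166) .nil)))))) (.g (nat_lit 1) (.e (nat_lit 206354) (nat_lit 0) .nil) .nil))) 
(.lf (nat_lit 514894) (.g (nat_lit 1189) (.e (nat_lit 188438) (nat_lit 20) (.e (nat_lit 3407) (nat_lit 212) (.e (nat_lit 655380) (nat_lit 6) (.e (nat_lit 188439) (nat_lit 20) (.e (nat_lit 3409) (nat_lit 212) (.e (nat_lit 655380) (nat_lit 6) .nil)))))) (.g (nat_lit 1) (.e (nat_lit 208517) (nat_lit 0) .nil) .nil))))) (.nd (nat_lit 8) (.nd (nat_lit 9) 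
(.lf (nat_lit 514254) (.g (nat_lit 226) (.e (nat_lit 188416) (nat_lit 0) (.e (nat_lit 2147) (nat_lit 142) (.e (nat_lit 704597) (nat_lit 6) .nil))) (.g (nat_lit 0) (.e (nat_lit 206189) (nat_lit 0) .nil) .nil))) 
(.lf (nat_lit 514766) (.g (nat_lit 3048) (.e (nat_lit 188434) (nat_lit 20) (.e (nat_lit 3469) (nat_lit 217) (.e (nat_lit 696344) (nat_lit 8) (.e (nat_lit 172113) (nat_lit 10) (.e (nat_lit 434207) (nat_lit 18) (.e (nat_lit 6252) (nat_lit 337) (.e (nat_lit 7936) (nat_lit 166) .nil))))))) (.g (nat_lit 1) (.e (nat_lit 208228) (nat_lit 0) .nil) .nil)))) (.nd (nat_lit 9) 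
(.lf (nat_lit 514510) (.g (nat_lit 2641) (.e (nat_lit 188422) (nat_lit 11) (.e (nat_lit 335995) (nat_lit 1) (.e (nat_lit 57688) (nat_lit 156) (.e (nat_lit 163907) (nat_lit 12) (.e (nat_lit 426428) (nat_lit 17) .nil))))) (.g (nat_lit 0) (.e (nat_lit 206888) (nat_lit 0) .nil) .nil))) 
(.lf (nat_lit 515022) (.g (nat_lit 2816) (.e (nat_lit 188439) (nat_lit 20) (.e (nat_lit 3469) (nat_lit 217) (.e (nat_lit 696344) (nat_lit 8) (.e (nat_lit 172106) (nat_lit 10) (.e (nat_lit 434202) (nat_lit 18) (.e (nat_lit 6250) (nat_lit 337) (.e (nat_lit 7936) (nat_lit 166) .nil))))))) (.g (nat_lit 1) (.e (nat_lit 208932) (nat_lit 0) .nil) .nil))))))) 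
(.nd (nat_lit 6) (.nd (nat_lit 7) (.nd (nat_lit 8) (.nd (nat_lit 9) 
(.lf (nat_lit 514094) (.g (nat_lit 1259) (.e (nat_lit 188160) (nat_lit 35) (.e (nat_lit 57464) (nat_lit 23) (.e (nat_lit 516097) (nat_lit 0) (.e (nat_lit 3776) (nat_lit 229) (.e (nat_lit 794684) (nat_lit 25) .nil))))) (.g (nat_lit 0) (.e (nat_lit 205529) (nat_lit 0) .nil) .nil))) 
(.lf (nat_lit 514606) (.g (nat_lit 1844) (.e (nat_lit 188424) (nat_lit 20) (.e (nat_lit 3307) (nat_lit 202) (.e (nat_lit 573477) (nat_lit 12) (.e (nat_lit 57574) (nat_lit 55) (.e (nat_lit 778464) (nat_lit 11) .nil))))) (.g (nat_lit 0) (.e (nat_lit 207385) (nat_lit 0) .nil) .nil)))) (.nd (nat_lit 9) 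
(.lf (nat_lit 514350) (.g (nat_lit 1527) (.e (nat_lit 188418) (nat_lit 0) (.e (nat_lit 2175) (nat_lit 143) (.e (nat_lit 712755) (nat_lit 30) (.e (nat_lit 450563) (nat_lit 0) (.e (nat_lit 7936) (nat_lit 306) .nil))))) (.g (nat_lit 0) (.e (nat_lit 206321) (nat_lit 0) .nil) .nil))) 
(.lf (nat_lit 514862) (.g (nat_lit 2373) (.e (nat_lit 188437) (nat_lit 20) (.e (nat_lit 3238) (nat_lit 197) (.e (nat_lit 532523) (nat_lit 7) (.e (nat_lit 319532) (nat_lit 16) (.e (nat_lit 286733) (nat_lit 2) .nil))))) (.g (nat_lit 0) (.e (nat_lit 208452) (nat_lit 0) .nil) .nil))))) (.nd (nat_lit 8) (.nd (nat_lit 9) 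
(.lf (nat_lit 514222) (.g (nat_lit 931) (.e (nat_lit 180287) (nat_lit 45) (.e (nat_lit 2580) (nat_lit 161) (.e (nat_lit 40965) (nat_lit 0) (.e (nat_lit 1597) (nat_lit 111) (.e (nat_lit 368384) (nat_lit 10) (.e (nat_lit 581376) (nat_lit 5) .nil)))))) (.g (nat_lit 1) (.e (nat_lit 206020) (nat_lit 0) .nil) .nil))) 
(.lf (nat_lit 514734) (.g (nat_lit 1393) (.e (nat_lit 188434) (nat_lit 20) (.e (nat_lit 3409) (nat_lit 212) (.e (nat_lit 655364) (nat_lit 0) (.e (nat_lit 3004) (nat_lit 186) (.e (nat_lit 450304) (nat_lit 4) (.e (nat_lit 114432) (nat_lit 6) .nil)))))) (.g (nat_lit 1) (.e (nat_lit 208047) (nat_lit 0) .nil) .nil)))) (.nd (nat_lit 9) 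
(.lf (nat_lit 514478) (.g (nat_lit 1222) (.e (nat_lit 196352) (nat_lit 7) (.e (nat_lit 139280) (nat_lit 4) (.e (nat_lit 65586) (nat_lit 7) (.e (nat_lit 319500) (nat_lit 10) (.e (nat_lit 730) (nat_lit 66) .nil))))) (.g (nat_lit 0) (.e (nat_lit 206485) (nat_lit 0) .nil) .nil))) 
(.lf (nat_lit 514990) (.g (nat_lit 3251) (.e (nat_lit 188439) (nat_lit 20) (.e (nat_lit 3408) (nat_lit 212) (.e (nat_lit 655380) (nat_lit 6) (.e (nat_lit 188453) (nat_lit 24) (.e (nat_lit 229665) (nat_lit 240) (.e (nat_lit 2651) (nat_lit 166) .nil)))))) (.g (nat_lit 1) (.e (nat_lit 208802) (nat_lit 0) .nil) .nil)))))) (.nd (nat_lit 7) (.nd (nat_lit 8) (.nd (nat_lit 9) 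
(.lf (nat_lit 514158) (.g (nat_lit 365) (.e (nat_lit 180284) (nat_lit 45) (.e (nat_lit 2580) (nat_lit 161) (.e (nat_lit 40965) (nat_lit 0) (.e (nat_lit 1558) (nat_lit 110) (.e (nat_lit 360192) (nat_lit 2) (.e (nat_lit 204544) (nat_lit 5) .nil)))))) (.g (nat_lit 1) (.e (nat_lit 205762) (nat_lit 0) .nil) .nil))) 
(.lf (nat_lit 514670) (.g (nat_lit 3017) (.e (nat_lit 188431) (nat_lit 20) (.e (nat_lit 3399) (nat_lit 211) (.e (nat_lit 647183) (nat_lit 4) (.e (nat_lit 172097) (nat_lit 9) (.e (nat_lit 426109) (nat_lit 1) (.e (nat_lit 164347) (nat_lit 240) (.e (nat_lit 2648) (nat_lit 166) .nil))))))) (.g (nat_lit 1) (.e (nat_lit 207689) (nat_lit 0) .nil) .nil)))) (.nd (nat_lit 9) 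
(.lf (nat_lit 514414) (.g (nat_lit 2083) (.e (nat_lit 188420) (nat_lit 0) (.e (nat_lit 2174) (nat_lit 143) (.e (nat_lit 712752) (nat_lit 29) (.e (nat_lit 442428) (nat_lit 24) (.e (nat_lit 229666) (nat_lit 240) .nil))))) (.g (nat_lit 0) (.e (nat_lit 206395) (nat_lit 0) .nil) .nil))) 
(.lf (nat_lit 514926) (.g (nat_lit 1294) (.e (nat_lit 188438) (nat_lit 20) (.e (nat_lit 3579) (nat_lit 223) (.e (nat_lit 745490) (nat_lit 4) (.e (nat_lit 65617) (nat_lit 10) (.e (nat_lit 344138) (nat_lit 29) .nil))))) (.g (nat_lit 0) (.e (nat_lit 208592) (nat_lit 0) .nil) .nil))))) (.nd (nat_lit 8) (.nd (nat_lit 9) 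
(.lf (nat_lit 514286) (.g (nat_lit 1933) (.e (nat_lit 188418) (nat_lit 0) (.e (nat_lit 1856) (nat_lit 124) (.e (nat_lit 557098) (nat_lit 13) (.e (nat_lit 172115) (nat_lit 10) (.e (nat_lit 434238) (nat_lit 25) .nil))))) (.g (nat_lit 0) (.e (nat_lit 206246) (nat_lit 0) .nil) .nil))) 
(.lf (nat_lit 514798) (.g (nat_lit 1309) (.e (nat_lit 188435) (nat_lit 20) (.e (nat_lit 3407) (nat_lit 212) (.e (nat_lit 655378) (nat_lit 4) (.e (nat_lit 172115) (nat_lit 10) (.e (nat_lit 434272) (nat_lit 38) .nil))))) (.g (nat_lit 0) (.e (nat_lit 208302) (nat_lit 0) .nil) .nil)))) (.nd (nat_lit 9) 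
(.lf (nat_lit 514542) (.g (nat_lit 2497) (.e (nat_lit 188423) (nat_lit 11) (.e (nat_lit 336231) (nat_lit 14) (.e (nat_lit 401446) (nat_lit 10) (.e (nat_lit 434288) (nat_lit 43) (.e (nat_lit 696346) (nat_lit 10) .nil))))) (.g (nat_lit 1) (.e (nat_lit 207166) (nat_lit 0) .nil) .nil))) 
(.lf (nat_lit 515054) (.g (nat_lit 2021) (.e (nat_lit 188440) (nat_lit 20) (.e (nat_lit 3238) (nat_lit 197) (.e (nat_lit 532523) (nat_lit 7) (.e (nat_lit 319511) (nat_lit 10) (.e (nat_lit 5293) (nat_lit 298) .nil))))) (.g (nat_lit 0) (.e (nat_lit 208970) (nat_lit 0) .nil) .nil)))))))) (.nd (nat_lit 5) (.nd (nat_lit 6) (.nd (nat_lit 7) (.nd (nat_lit 8) (.nd (nat_lit 9) 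
(.lf (nat_lit 514078) (.g (nat_lit 1336) (.e (nat_lit 188160) (nat_lit 32) (.e (nat_lit 1655) (nat_lit 115) (.e (nat_lit 393268) (nat_lit 23) (.e (nat_lit 426444) (nat_lit 19) .nil)))) (.g (nat_lit 0) (.e (nat_lit 205449) (nat_lit 0) .nil) .nil))) 
(.lf (nat_lit 514590) (.g (nat_lit 2033) (.e (nat_lit 196352) (nat_lit 18) (.e (nat_lit 393251) (nat_lit 18) (.e (nat_lit 164403) (nat_lit 256) (.e (nat_lit 57371) (nat_lit 2) (.e (nat_lit 90177) (nat_lit 15) .nil))))) (.g (nat_lit 0) (.e (nat_lit 207342) (nat_lit 0) .nil) .nil)))) (.nd (nat_lit 9) 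
(.lf (nat_lit 514334) (.g (nat_lit 2399) (.e (nat_lit 188418) (nat_lit 0) (.e (nat_lit 2174) (nat_lit 143) (.e (nat_lit 712755) (nat_lit 30) (.e (nat_lit 450563) (nat_lit 0) (.e (nat_lit 5539) (nat_lit 306) (.e (nat_lit 7936) (nat_lit 166) .nil)))))) (.g (nat_lit 1) (.e (nat_lit 206304) (nat_lit 0) .nil) .nil))) 
(.lf (nat_lit 514846) (.g (nat_lit 1021) (.e (nat_lit 188435) (nat_lit 20) (.e (nat_lit 3578) (nat_lit 223) (.e (nat_lit 745476) (nat_lit 0) (.e (nat_lit 1572) (nat_lit 110) (.e (nat_lit 360192) (nat_lit 2) .nil))))) (.g (nat_lit 0) (.e (nat_lit 208419) (nat_lit 0) .nil) .nil))))) (.nd (nat_lit 8) (.nd (nat_lit 9) 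
(.lf (nat_lit 514206) (.g (nat_lit 454) (.e (nat_lit 180287) (nat_lit 45) (.e (nat_lit 2579) (nat_lit 161) (.e (nat_lit 40965) (nat_lit 0) (.e (nat_lit 1558) (nat_lit 110) (.e (nat_lit 360192) (nat_lit 2) (.e (nat_lit 204544) (nat_lit 5) .nil)))))) (.g (nat_lit 1) (.e (nat_lit 206004) (nat_lit 0) .nil) .nil))) 
(.lf (nat_lit 514718) (.g (nat_lit 1502) (.e (nat_lit 188434) (nat_lit 20) (.e (nat_lit 3391) (nat_lit 210) (.e (nat_lit 639004) (nat_lit 13) (.e (nat_lit 1615) (nat_lit 113) (.e (nat_lit 376860) (nat_lit 21) (.e (nat_lit 57832) (nat_lit 250) (.e (nat_lit 7936) (nat_lit 166) .nil))))))) (.g (nat_lit 1) (.e (nat_lit 207978) (nat_lit 0) .nil) .nil)))) (.nd (nat_lit 9) 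
(.lf (nat_lit 514462) (.g (nat_lit 360) (.e (nat_lit 196352) (nat_lit 0) (.e (nat_lit 2030) (nat_lit 140) (.e (nat_lit 688186) (nat_lit 18) .nil))) (.g (nat_lit 0) (.e (nat_lit 206455) (nat_lit 0) .nil) .nil))) 
(.lf (nat_lit 514974) (.g (nat_lit 1977) (.e (nat_lit 188439) (nat_lit 20) (.e (nat_lit 3407) (nat_lit 212) (.e (nat_lit 655376) (nat_lit 4) (.e (nat_lit 172120) (nat_lit 12) (.e (nat_lit 475199) (nat_lit 40) (.e (nat_lit 704598) (nat_lit 6) .nil)))))) (.g (nat_lit 1) (.e (nat_lit 208751) (nat_lit 0) .nil) .nil)))))) (.nd (nat_lit 7) (.nd (nat_lit 8) (.nd (nat_lit 9) 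
(.lf (nat_lit 514142) (.g (nat_lit 2613) (.e (nat_lit 180284) (nat_lit 45) (.e (nat_lit 2570) (nat_lit 160) (.e (nat_lit 32807) (nat_lit 18) (.e (nat_lit 172120) (nat_lit 12) (.e (nat_lit 475185) (nat_lit 29) (.e (nat_lit 557105) (nat_lit 14) .nil)))))) (.g (nat_lit 1) (.e (nat_lit 205742) (nat_lit 0) .nil) .nil))) 
(.lf (nat_lit 514654) (.g (nat_lit 2514) (.e (nat_lit 188431) (nat_lit 20) (.e (nat_lit 3397) (nat_lit 211) (.e (nat_lit 647183) (nat_lit 4) (.e (nat_lit 172094) (nat_lit 9) (.e (nat_lit 426025) (nat_lit 0) (.e (nat_lit 3397) (nat_lit 211) (.e (nat_lit 647185) (nat_lit 6) .nil))))))) (.g (nat_lit 1) (.e (nat_lit 207666) (nat_lit 0) .nil) .nil)))) (.nd (nat_lit 9) 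
(.lf (nat_lit 514398) (.g (nat_lit 2466) (.e (nat_lit 188420) (nat_lit 0) (.e (nat_lit 2058) (nat_lit 142) (.e (nat_lit 704599) (nat_lit 6) (.e (nat_lit 188453) (nat_lit 24) (.e (nat_lit 229666) (nat_lit 240) (.e (nat_lit 2651) (nat_lit 166) .nil)))))) (.g (nat_lit 1) (.e (nat_lit 206371) (nat_lit 0) .nil) .nil))) 
(.lf (nat_lit 514910) (.g (nat_lit 1425) (.e (nat_lit 188438) (nat_lit 20) (.e (nat_lit 3469) (nat_lit 217) (.e (nat_lit 696344) (nat_lit 8) (.e (nat_lit 172107) (nat_lit 10) (.e (nat_lit 434286) (nat_lit 42) .nil))))) (.g (nat_lit 0) (.e (nat_lit 208575) (nat_lit 0) .nil) .nil))))) (.nd (nat_lit 8) (.nd (nat_lit 9) 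
(.lf (nat_lit 514270) (.g (nat_lit 1125) (.e (nat_lit 188417) (nat_lit 0) (.e (nat_lit 2147) (nat_lit 142) (.e (nat_lit 704597) (nat_lit 6) (.e (nat_lit 188439) (nat_lit 20) (.e (nat_lit 3408) (nat_lit 212) (.e (nat_lit 655380) (nat_lit 6) .nil)))))) (.g (nat_lit 1) (.e (nat_lit 206223) (nat_lit 0) .nil) .nil))) 
(.lf (nat_lit 514782) (.g (nat_lit 2382) (.e (nat_lit 188435) (nat_lit 20) (.e (nat_lit 3238) (nat_lit 197) (.e (nat_lit 532523) (nat_lit 7) (.e (nat_lit 319533) (nat_lit 16) (.e (nat_lit 286732) (nat_lit 2) .nil))))) (.g (nat_lit 0) (.e (nat_lit 208259) (nat_lit 0) .nil) .nil)))) (.nd (nat_lit 9) 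
(.lf (nat_lit 514526) (.g (nat_lit 3247) (.e (nat_lit 188423) (nat_lit 11) (.e (nat_lit 335995) (nat_lit 1) (.e (nat_lit 57688) (nat_lit 156) (.e (nat_lit 163903) (nat_lit 12) (.e (nat_lit 426428) (nat_lit 17) (.e (nat_lit 90176) (nat_lit 15) .nil)))))) (.g (nat_lit 1) (.e (nat_lit 207009) (nat_lit 0) .nil) .nil))) 
(.lf (nat_lit 515038) (.g (nat_lit 3515) (.e (nat_lit 188439) (nat_lit 20) (.e (nat_lit 3469) (nat_lit 217) (.e (nat_lit 696344) (nat_lit 8) (.e (nat_lit 172113) (nat_lit 10) (.e (nat_lit 434208) (nat_lit 18) (.e (nat_lit 6252) (nat_lit 337) (.e (nat_lit 7936) (nat_lit 166) .nil))))))) (.g (nat_lit 1) (.e (nat_lit 208948) (nat_lit 0) .nil) .nil))))))) 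
(.nd (nat_lit 6) (.nd (nat_lit 7) (.nd (nat_lit 8) (.nd (nat_lit 9) 
(.lf (nat_lit 514110) (.g (nat_lit 1115) (.e (nat_lit 188160) (nat_lit 38) (.e (nat_lit 122936) (nat_lit 23) (.e (nat_lit 516131) (nat_lit 3) (.e (nat_lit 221219) (nat_lit 24) (.e (nat_lit 213013) (nat_lit 9) .nil))))) (.g (nat_lit 0) (.e (nat_lit 205616) (nat_lit 0) .nil) .nil))) 
(.lf (nat_lit 514622) (.g (nat_lit 332) (.e (nat_lit 188427) (nat_lit 20) (.e (nat_lit 3401) (nat_lit 211) (.e (nat_lit 647185) (nat_lit 6) (.e (nat_lit 196352) (nat_lit 4) .nil)))) (.g (nat_lit 0) (.e (nat_lit 207436) (nat_lit 0) .nil) .nil)))) (.nd (nat_lit 9) 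
(.lf (nat_lit 514366) (.g (nat_lit 585) (.e (nat_lit 188420) (nat_lit 0) (.e (nat_lit 1856) (nat_lit 124) (.e (nat_lit 557076) (nat_lit 9) .nil))) (.g (nat_lit 0) (.e (nat_lit 206337) (nat_lit 0) .nil) .nil))) 
(.lf (nat_lit 514878) (.g (nat_lit 545) (.e (nat_lit 188438) (nat_lit 20) (.e (nat_lit 3307) (nat_lit 202) (.e (nat_lit 573477) (nat_lit 12) .nil))) (.g (nat_lit 0) (.e (nat_lit 208497) (nat_lit 0) .nil) .nil))))) (.nd (nat_lit 8) (.nd (nat_lit 9) 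
(.lf (nat_lit 514238) (.g (nat_lit 416) (.e (nat_lit 180288) (nat_lit 45) (.e (nat_lit 2580) (nat_lit 161) (.e (nat_lit 40964) (nat_lit 0) (.e (nat_lit 1582) (nat_lit 111) (.e (nat_lit 368384) (nat_lit 10) .nil))))) (.g (nat_lit 0) (.e (nat_lit 206089) (nat_lit 0) .nil) .nil))) 
(.lf (nat_lit 514750) (.g (nat_lit 3159) (.e (nat_lit 188434) (nat_lit 20) (.e (nat_lit 3469) (nat_lit 217) (.e (nat_lit 696344) (nat_lit 8) (.e (nat_lit 172106) (nat_lit 10) (.e (nat_lit 434202) (nat_lit 18) (.e (nat_lit 6250) (nat_lit 337) (.e (nat_lit 7936) (nat_lit 166) .nil))))))) (.g (nat_lit 1) (.e (nat_lit 208212) (nat_lit 0) .nil) .nil)))) (.nd (nat_lit 9) 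
(.lf (nat_lit 514494) (.g (nat_lit 1632) (.e (nat_lit 188421) (nat_lit 11) (.e (nat_lit 335996) (nat_lit 1) (.e (nat_lit 57692) (nat_lit 156) (.e (nat_lit 163906) (nat_lit 12) (.e (nat_lit 426432) (nat_lit 17) .nil))))) (.g (nat_lit 0) (.e (nat_lit 206627) (nat_lit 0) .nil) .nil))) 
(.lf (nat_lit 515006) (.g (nat_lit 1299) (.e (nat_lit 188439) (nat_lit 20) (.e (nat_lit 3409) (nat_lit 212) (.e (nat_lit 655380) (nat_lit 6) (.e (nat_lit 188435) (nat_lit 20) (.e (nat_lit 3408) (nat_lit 212) (.e (nat_lit 655380) (nat_lit 6) .nil)))))) (.g (nat_lit 1) (.e (nat_lit 208832) (nat_lit 0) .nil) .nil)))))) (.nd (nat_lit 7) (.nd (nat_lit 8) (.nd (nat_lit 9) 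
(.lf (nat_lit 514174) (.g (nat_lit 607) (.e (nat_lit 180285) (nat_lit 45) (.e (nat_lit 2579) (nat_lit 161) (.e (nat_lit 40965) (nat_lit 0) (.e (nat_lit 1558) (nat_lit 110) (.e (nat_lit 360192) (nat_lit 2) (.e (nat_lit 204544) (nat_lit 5) .nil)))))) (.g (nat_lit 1) (.e (nat_lit 205859) (nat_lit 0) .nil) .nil))) 
(.lf (nat_lit 514686) (.g (nat_lit 1749) (.e (nat_lit 188431) (nat_lit 20) (.e (nat_lit 3401) (nat_lit 211) (.e (nat_lit 647185) (nat_lit 6) (.e (nat_lit 188420) (nat_lit 0) (.e (nat_lit 2058) (nat_lit 142) (.e (nat_lit 704598) (nat_lit 6) .nil)))))) (.g (nat_lit 1) (.e (nat_lit 207771) (nat_lit 0) .nil) .nil)))) (.nd (nat_lit 9) 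
(.lf (nat_lit 514430) (.g (nat_lit 1414) (.e (nat_lit 188420) (nat_lit 0) (.e (nat_lit 2175) (nat_lit 143) (.e (nat_lit 712750) (nat_lit 29) (.e (nat_lit 442421) (nat_lit 21) (.e (nat_lit 164345) (nat_lit 240) (.e (nat_lit 2648) (nat_lit 166) .nil)))))) (.g (nat_lit 1) (.e (nat_lit 206417) (nat_lit 0) .nil) .nil))) 
(.lf (nat_lit 514942) (.g (nat_lit 2401) (.e (nat_lit 188439) (nat_lit 20) (.e (nat_lit 3298) (nat_lit 202) (.e (nat_lit 573471) (nat_lit 11) (.e (nat_lit 16473) (nat_lit 14) (.e (nat_lit 491535) (nat_lit 2) .nil))))) (.g (nat_lit 0) (.e (nat_lit 208641) (nat_lit 0) .nil) .nil))))) (.nd (nat_lit 8) (.nd (nat_lit 9) 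
(.lf (nat_lit 514302) (.g (nat_lit 2044) (.e (nat_lit 188418) (nat_lit 0) (.e (nat_lit 2057) (nat_lit 142) (.e (nat_lit 704598) (nat_lit 6) (.e (nat_lit 188444) (nat_lit 21) (.e (nat_lit 164348) (nat_lit 240) (.e (nat_lit 2648) (nat_lit 166) .nil)))))) (.g (nat_lit 1) (.e (nat_lit 206262) (nat_lit 0) .nil) .nil))) 
(.lf (nat_lit 514814) (.g (nat_lit 1747) (.e (nat_lit 188435) (nat_lit 20) (.e (nat_lit 3408) (nat_lit 212) (.e (nat_lit 655380) (nat_lit 6) (.e (nat_lit 188441) (nat_lit 20) (.e (nat_lit 3408) (nat_lit 212) (.e (nat_lit 655380) (nat_lit 6) .nil)))))) (.g (nat_lit 1) (.e (nat_lit 208332) (nat_lit 0) .nil) .nil)))) (.nd (nat_lit 9) 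
(.lf (nat_lit 514558) (.g (nat_lit 1442) (.e (nat_lit 188423) (nat_lit 11) (.e (nat_lit 336387) (nat_lit 27) (.e (nat_lit 426108) (nat_lit 1) (.e (nat_lit 164401) (nat_lit 256) (.e (nat_lit 57369) (nat_lit 2) .nil))))) (.g (nat_lit 0) (.e (nat_lit 207270) (nat_lit 0) .nil) .nil))) 
(.lf (nat_lit 515070) (.g (nat_lit 1952) (.e (nat_lit 188440) (nat_lit 20) (.e (nat_lit 3307) (nat_lit 202) (.e (nat_lit 573469) (nat_lit 11) (.e (nat_lit 16472) (nat_lit 14) (.e (nat_lit 491537) (nat_lit 2) .nil))))) (.g (nat_lit 0) (.e (nat_lit 209019) (nat_lit 0) .nil) .nil)))))))))))) 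
(.nd (nat_lit 1) (.nd (nat_lit 2) (.nd (nat_lit 3) (.nd (nat_lit 4) (.nd (nat_lit 5) 
(.nd (nat_lit 6) (.nd (nat_lit 7) (.nd (nat_lit 8) (.nd (nat_lit 9) 
(.lf (nat_lit 514049) (.g (nat_lit 1837) (.e (nat_lit 188160) (nat_lit 32) (.e (nat_lit 1256) (nat_lit 92) (.e (nat_lit 98359) (nat_lit 26) (.e (nat_lit 426338) (nat_lit 14) (.e (nat_lit 491524) (nat_lit 0) .nil))))) (.g (nat_lit 0) (.e (nat_lit 205414) (nat_lit 0) .nil) .nil))) 
(.lf (nat_lit 514561) (.g (nat_lit 1575) (.e (nat_lit 196352) (nat_lit 11) (.e (nat_lit 336369) (nat_lit 27) (.e (nat_lit 426109) (nat_lit 1) (.e (nat_lit 164396) (nat_lit 256) .nil)))) (.g (nat_lit 0) (.e (nat_lit 207286) (nat_lit 0) .nil) .nil)))) (.nd (nat_lit 9) 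
(.lf (nat_lit 514305) (.g (nat_lit 768) (.e (nat_lit 188418) (nat_lit 0) (.e (nat_lit 2058) (nat_lit 142) (.e (nat_lit 704598) (nat_lit 6) (.e (nat_lit 188416) (nat_lit 0) .nil)))) (.g (nat_lit 0) (.e (nat_lit 206269) (nat_lit 0) .nil) .nil))) 
(.lf (nat_lit 514817) (.g (nat_lit 2303) (.e (nat_lit 188435) (nat_lit 20) (.e (nat_lit 3409) (nat_lit 212) (.e (nat_lit 655378) (nat_lit 4) (.e (nat_lit 172118) (nat_lit 12) (.e (nat_lit 475199) (nat_lit 40) (.e (nat_lit 704598) (nat_lit 6) .nil)))))) (.g (nat_lit 1) (.e (nat_lit 208342) (nat_lit 0) .nil) .nil))))) (.nd (nat_lit 8) (.nd (nat_lit 9) 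
(.lf (nat_lit 514177) (.g (nat_lit 544) (.e (nat_lit 180285) (nat_lit 45) (.e (nat_lit 2579) (nat_lit 161) (.e (nat_lit 40965) (nat_lit 0) (.e (nat_lit 1585) (nat_lit 111) (.e (nat_lit 368384) (nat_lit 10) (.e (nat_lit 581376) (nat_lit 5) .nil)))))) (.g (nat_lit 1) (.e (nat_lit 205862) (nat_lit 0) .nil) .nil))) 
(.lf (nat_lit 514689) (.g (nat_lit 2364) (.e (nat_lit 188431) (nat_lit 20) (.e (nat_lit 3402) (nat_lit 211) (.e (nat_lit 647183) (nat_lit 4) (.e (nat_lit 172094) (nat_lit 9) (.e (nat_lit 426025) (nat_lit 0) (.e (nat_lit 3397) (nat_lit 211) (.e (nat_lit 647185) (nat_lit 6) .nil))))))) (.g (nat_lit 1) (.e (nat_lit 207783) (nat_lit 0) .nil) .nil)))) (.nd (nat_lit 9) 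
(.lf (nat_lit 514433) (.g (nat_lit 2710) (.e (nat_lit 188420) (nat_lit 0) (.e (nat_lit 2175) (nat_lit 143) (.e (nat_lit 712750) (nat_lit 29) (.e (nat_lit 442430) (nat_lit 24) (.e (nat_lit 229665) (nat_lit 240) (.e (nat_lit 2651) (nat_lit 166) .nil)))))) (.g (nat_lit 1) (.e (nat_lit 206420) (nat_lit 0) .nil) .nil))) 
(.lf (nat_lit 514945) (.g (nat_lit 1736) (.e (nat_lit 188439) (nat_lit 20) (.e (nat_lit 3304) (nat_lit 202) (.e (nat_lit 573477) (nat_lit 12) (.e (nat_lit 57575) (nat_lit 55) (.e (nat_lit 778464) (nat_lit 11) .nil))))) (.g (nat_lit 0) (.e (nat_lit 208644) (nat_lit 0) .nil) .nil)))))) (.nd (nat_lit 7) (.nd (nat_lit 8) (.nd (nat_lit 9) 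
(.lf (nat_lit 514113) (.g (nat_lit 979) (.e (nat_lit 188160) (nat_lit 39) (.e (nat_lit 131140) (nat_lit 27) (.e (nat_lit 426186) (nat_lit 9) (.e (nat_lit 426444) (nat_lit 19) (.e (nat_lit 114432) (nat_lit 5) .nil))))) (.g (nat_lit 0) (.e (nat_lit 205635) (nat_lit 0) .nil) .nil))) 
(.lf (nat_lit 514625) (.g (nat_lit 226) (.e (nat_lit 188427) (nat_lit 20) (.e (nat_lit 3402) (nat_lit 211) (.e (nat_lit 647185) (nat_lit 6) .nil))) (.g (nat_lit 0) (.e (nat_lit 207443) (nat_lit 0) .nil) .nil)))) (.nd (nat_lit 9) 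
(.lf (nat_lit 514369) (.g (nat_lit 2381) (.e (nat_lit 188420) (nat_lit 0) (.e (nat_lit 1856) (nat_lit 124) (.e (nat_lit 557103) (nat_lit 14) (.e (nat_lit 180288) (nat_lit 45) (.e (nat_lit 2571) (nat_lit 160) (.e (nat_lit 32809) (nat_lit 20) .nil)))))) (.g (nat_lit 1) (.e (nat_lit 206340) (nat_lit 0) .nil) .nil))) 
(.lf (nat_lit 514881) (.g (nat_lit 3704) (.e (nat_lit 188438) (nat_lit 20) (.e (nat_lit 3307) (nat_lit 202) (.e (nat_lit 573477) (nat_lit 12) (.e (nat_lit 57575) (nat_lit 55) (.e (nat_lit 778465) (nat_lit 11) (.e (nat_lit 24603) (nat_lit 2) (.e (nat_lit 90176) (nat_lit 15) .nil))))))) (.g (nat_lit 1) (.e (nat_lit 208500) (nat_lit 0) .nil) .nil))))) (.nd (nat_lit 8) (.nd (nat_lit 9) 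
(.lf (nat_lit 514241) (.g (nat_lit 684) (.e (nat_lit 180288) (nat_lit 45) (.e (nat_lit 2580) (nat_lit 161) (.e (nat_lit 40964) (nat_lit 0) (.e (nat_lit 1597) (nat_lit 111) (.e (nat_lit 368384) (nat_lit 10) (.e (nat_lit 581376) (nat_lit 5) .nil)))))) (.g (nat_lit 1) (.e (nat_lit 206092) (nat_lit 0) .nil) .nil))) 
(.lf (nat_lit 514753) (.g (nat_lit 3010) (.e (nat_lit 188434) (nat_lit 20) (.e (nat_lit 3469) (nat_lit 217) (.e (nat_lit 696344) (nat_lit 8) (.e (nat_lit 172106) (nat_lit 10) (.e (nat_lit 434209) (nat_lit 18) (.e (nat_lit 6271) (nat_lit 337) (.e (nat_lit 2645) (nat_lit 166) .nil))))))) (.g (nat_lit 1) (.e (nat_lit 208215) (nat_lit 0) .nil) .nil)))) (.nd (nat_lit 9) 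
(.lf (nat_lit 514497) (.g (nat_lit 2529) (.e (nat_lit 188421) (nat_lit 11) (.e (nat_lit 336230) (nat_lit 14) (.e (nat_lit 401446) (nat_lit 10) (.e (nat_lit 434289) (nat_lit 43) (.e (nat_lit 696346) (nat_lit 10) .nil))))) (.g (nat_lit 1) (.e (nat_lit 206706) (nat_lit 0) .nil) .nil))) 
(.lf (nat_lit 515009) (.g (nat_lit 1465) (.e (nat_lit 188439) (nat_lit 20) (.e (nat_lit 3409) (nat_lit 212) (.e (nat_lit 655380) (nat_lit 6) (.e (nat_lit 188439) (nat_lit 20) (.e (nat_lit 3408) (nat_lit 212) (.e (nat_lit 655380) (nat_lit 6) .nil)))))) (.g (nat_lit 1) (.e (nat_lit 208835) (nat_lit 0) .nil) .nil))))))) (.nd (nat_lit 6) (.nd (nat_lit 7) (.nd (nat_lit 8) (.nd (nat_lit 9) 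
(.lf (nat_lit 514081) (.g (nat_lit 469) (.e (nat_lit 188160) (nat_lit 32) (.e (nat_lit 1656) (nat_lit 115) (.e (nat_lit 393270) (nat_lit 23) .nil))) (.g (nat_lit 0) (.e (nat_lit 205452) (nat_lit 0) .nil) .nil))) 
(.lf (nat_lit 514593) (.g (nat_lit 631) (.e (nat_lit 196352) (nat_lit 18) (.e (nat_lit 393252) (nat_lit 18) (.e (nat_lit 164402) (nat_lit 256) .nil))) (.g (nat_lit 0) (.e (nat_lit 207345) (nat_lit 0) .nil) .nil)))) (.nd (nat_lit 9) 
(.lf (nat_lit 514337) (.g (nat_lit 2945) (.e (nat_lit 188418) (nat_lit 0) (.e (nat_lit 2174) (nat_lit 143) (.e (nat_lit 712755) (nat_lit 30) (.e (nat_lit 450565) (nat_lit 0) (.e (nat_lit 5548) (nat_lit 306) (.e (nat_lit 2648) (nat_lit 166) .nil)))))) (.g (nat_lit 1) (.e (nat_lit 206307) (nat_lit 0) .nil) .nil))) 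
(.lf (nat_lit 514849) (.g (nat_lit 1324) (.e (nat_lit 188435) (nat_lit 20) (.e (nat_lit 3579) (nat_lit 223) (.e (nat_lit 745476) (nat_lit 0) (.e (nat_lit 1572) (nat_lit 110) (.e (nat_lit 360192) (nat_lit 2) .nil))))) (.g (nat_lit 0) (.e (nat_lit 208422) (nat_lit 0) .nil) .nil))))) (.nd (nat_lit 8) (.nd (nat_lit 9) 
(.lf (nat_lit 514209) (.g (nat_lit 391) (.e (nat_lit 180287) (nat_lit 45) (.e (nat_lit 2579) (nat_lit 161) (.e (nat_lit 40965) (nat_lit 0) (.e (nat_lit 1585) (nat_lit 111) (.e (nat_lit 368384) (nat_lit 10) (.e (nat_lit 581376) (nat_lit 5) .nil)))))) (.g (nat_lit 1) (.e (nat_lit 206007) (nat_lit 0) .nil) .nil))) 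
(.lf (nat_lit 514721) (.g (nat_lit 877) (.e (nat_lit 188434) (nat_lit 20) (.e (nat_lit 3406) (nat_lit 212) (.e (nat_lit 655363) (nat_lit 0) (.e (nat_lit 3004) (nat_lit 186) .nil)))) (.g (nat_lit 0) (.e (nat_lit 208009) (nat_lit 0) .nil) .nil)))) (.nd (nat_lit 9) 
(.lf (nat_lit 514465) (.g (nat_lit 1443) (.e (nat_lit 196352) (nat_lit 0) (.e (nat_lit 2031) (nat_lit 140) (.e (nat_lit 688177) (nat_lit 16) (.e (nat_lit 65622) (nat_lit 12) .nil)))) (.g (nat_lit 0) (.e (nat_lit 206458) (nat_lit 0) .nil) .nil))) 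
(.lf (nat_lit 514977) (.g (nat_lit 780) (.e (nat_lit 188439) (nat_lit 20) (.e (nat_lit 3407) (nat_lit 212) (.e (nat_lit 655380) (nat_lit 6) (.e (nat_lit 188418) (nat_lit 0) (.e (nat_lit 2056) (nat_lit 142) .nil))))) (.g (nat_lit 0) (.e (nat_lit 208758) (nat_lit 0) .nil) .nil)))))) (.nd (nat_lit 7) (.nd (nat_lit 8) (.nd (nat_lit 9) 
(.lf (nat_lit 514145) (.g (nat_lit 1196) (.e (nat_lit 180284) (nat_lit 45) (.e (nat_lit 2579) (nat_lit 161) (.e (nat_lit 40964) (nat_lit 0) (.e (nat_lit 1582) (nat_lit 111) (.e (nat_lit 360477) (nat_lit 11) (.e (nat_lit 581652) (nat_lit 5) .nil)))))) (.g (nat_lit 1) (.e (nat_lit 205749) (nat_lit 0) .nil) .nil))) 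
(.lf (nat_lit 514657) (.g (nat_lit 3244) (.e (nat_lit 188431) (nat_lit 20) (.e (nat_lit 3397) (nat_lit 211) (.e (nat_lit 647183) (nat_lit 4) (.e (nat_lit 172097) (nat_lit 9) (.e (nat_lit 426109) (nat_lit 1) (.e (nat_lit 164347) (nat_lit 240) (.e (nat_lit 2648) (nat_lit 166) .nil))))))) (.g (nat_lit 1) (.e (nat_lit 207671) (nat_lit 0) .nil) .nil)))) (.nd (nat_lit 9) 
(.lf (nat_lit 514401) (.g (nat_lit 2546) (.e (nat_lit 188420) (nat_lit 0) (.e (nat_lit 2059) (nat_lit 142) (.e (nat_lit 704598) (nat_lit 6) (.e (nat_lit 188444) (nat_lit 21) (.e (nat_lit 164348) (nat_lit 240) (.e (nat_lit 2648) (nat_lit 166) .nil)))))) (.g (nat_lit 1) (.e (nat_lit 206374) (nat_lit 0) .nil) .nil))) 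
(.lf (nat_lit 514913) (.g (nat_lit 1781) (.e (nat_lit 188438) (nat_lit 20) (.e (nat_lit 3469) (nat_lit 217) (.e (nat_lit 696344) (nat_lit 8) (.e (nat_lit 172113) (nat_lit 10) (.e (nat_lit 434286) (nat_lit 42) .nil))))) (.g (nat_lit 0) (.e (nat_lit 208578) (nat_lit 0) .nil) .nil))))) (.nd (nat_lit 8) (.nd (nat_lit 9) 
(.lf (nat_lit 514273) (.g (nat_lit 2203) (.e (nat_lit 188417) (nat_lit 0) (.e (nat_lit 2147) (nat_lit 142) (.e (nat_lit 704597) (nat_lit 6) (.e (nat_lit 188446) (nat_lit 21) (.e (nat_lit 164348) (nat_lit 240) (.e (nat_lit 2648) (nat_lit 166) .nil)))))) (.g (nat_lit 1) (.e (nat_lit 206226) (nat_lit 0) .nil) .nil))) 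
(.lf (nat_lit 514785) (.g (nat_lit 2356) (.e (nat_lit 188435) (nat_lit 20) (.e (nat_lit 3271) (nat_lit 199) (.e (nat_lit 548913) (nat_lit 18) (.e (nat_lit 172120) (nat_lit 12) (.e (nat_lit 475185) (nat_lit 29) .nil))))) (.g (nat_lit 0) (.e (nat_lit 208267) (nat_lit 0) .nil) .nil)))) (.nd (nat_lit 9) 
(.lf (nat_lit 514529) (.g (nat_lit 3070) (.e (nat_lit 188423) (nat_lit 11) (.e (nat_lit 335995) (nat_lit 1) (.e (nat_lit 57688) (nat_lit 156) (.e (nat_lit 163907) (nat_lit 12) (.e (nat_lit 426432) (nat_lit 17) .nil))))) (.g (nat_lit 0) (.e (nat_lit 207012) (nat_lit 0) .nil) .nil))) 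
(.lf (nat_lit 515041) (.g (nat_lit 1849) (.e (nat_lit 188439) (nat_lit 20) (.e (nat_lit 3469) (nat_lit 217) (.e (nat_lit 696344) (nat_lit 8) (.e (nat_lit 172113) (nat_lit 10) (.e (nat_lit 434287) (nat_lit 43) .nil))))) (.g (nat_lit 0) (.e (nat_lit 208951) (nat_lit 0) .nil) .nil)))))))) (.nd (nat_lit 5) (.nd (nat_lit 6) (.nd (nat_lit 7) (.nd (nat_lit 8) (.nd (nat_lit 9) 
(.lf (nat_lit 514065) (.g (nat_lit 1057) (.e (nat_lit 188160) (nat_lit 32) (.e (nat_lit 1648) (nat_lit 115) (.e (nat_lit 393271) (nat_lit 23) (.e (nat_lit 426444) (nat_lit 19) (.e (nat_lit 114432) (nat_lit 5) .nil))))) (.g (nat_lit 0) (.e (nat_lit 205436) (nat_lit 0) .nil) .nil))) 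
(.lf (nat_lit 514577) (.g (nat_lit 809) (.e (nat_lit 196352) (nat_lit 11) (.e (nat_lit 336407) (nat_lit 27) (.e (nat_lit 426098) (nat_lit 1) (.e (nat_lit 164399) (nat_lit 256) .nil)))) (.g (nat_lit 0) (.e (nat_lit 207303) (nat_lit 0) .nil) .nil)))) (.nd (nat_lit 9) 
(.lf (nat_lit 514321) (.g (nat_lit 2424) (.e (nat_lit 188418) (nat_lit 0) (.e (nat_lit 2059) (nat_lit 142) (.e (nat_lit 704599) (nat_lit 6) (.e (nat_lit 188455) (nat_lit 24) (.e (nat_lit 229665) (nat_lit 240) (.e (nat_lit 2653) (nat_lit 166) .nil)))))) (.g (nat_lit 1) (.e (nat_lit 206285) (nat_lit 0) .nil) .nil))) 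
(.lf (nat_lit 514833) (.g (nat_lit 1199) (.e (nat_lit 188435) (nat_lit 20) (.e (nat_lit 3469) (nat_lit 217) (.e (nat_lit 696344) (nat_lit 8) (.e (nat_lit 172113) (nat_lit 10) .nil)))) (.g (nat_lit 0) (.e (nat_lit 208400) (nat_lit 0) .nil) .nil))))) (.nd (nat_lit 8) (.nd (nat_lit 9) 
(.lf (nat_lit 514193) (.g (nat_lit 2056) (.e (nat_lit 180287) (nat_lit 45) (.e (nat_lit 2571) (nat_lit 160) (.e (nat_lit 32809) (nat_lit 20) (.e (nat_lit 188420) (nat_lit 0) (.e (nat_lit 1856) (nat_lit 124) (.e (nat_lit 557103) (nat_lit 14) .nil)))))) (.g (nat_lit 1) (.e (nat_lit 205991) (nat_lit 0) .nil) .nil))) 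
(.lf (nat_lit 514705) (.g (nat_lit 1901) (.e (nat_lit 188434) (nat_lit 20) (.e (nat_lit 3272) (nat_lit 199) (.e (nat_lit 548913) (nat_lit 18) (.e (nat_lit 172041) (nat_lit 0) (.e (nat_lit 7562) (nat_lit 402) .nil))))) (.g (nat_lit 0) (.e (nat_lit 207897) (nat_lit 0) .nil) .nil)))) (.nd (nat_lit 9) 
(.lf (nat_lit 514449) (.g (nat_lit 1219) (.e (nat_lit 196352) (nat_lit 0) (.e (nat_lit 1788) (nat_lit 119) (.e (nat_lit 516127) (nat_lit 2) (.e (nat_lit 213032) (nat_lit 11) (.e (nat_lit 24605) (nat_lit 2) .nil))))) (.g (nat_lit 0) (.e (nat_lit 206439) (nat_lit 0) .nil) .nil))) 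
(.lf (nat_lit 514961) (.g (nat_lit 1232) (.e (nat_lit 188439) (nat_lit 20) (.e (nat_lit 3391) (nat_lit 210) (.e (nat_lit 639004) (nat_lit 13) (.e (nat_lit 1615) (nat_lit 113) (.e (nat_lit 376860) (nat_lit 21) (.e (nat_lit 57832) (nat_lit 250) (.e (nat_lit 7936) (nat_lit 166) .nil))))))) (.g (nat_lit 1) (.e (nat_lit 208693) (nat_lit 0) .nil) .nil)))))) 
(.nd (nat_lit 7) (.nd (nat_lit 8) (.nd (nat_lit 9) 
(.lf (nat_lit 514129) (.g (nat_lit 1375) (.e (nat_lit 188160) (nat_lit 39) (.e (nat_lit 131140) (nat_lit 27) (.e (nat_lit 426306) (nat_lit 12) (.e (nat_lit 475201) (nat_lit 40) (.e (nat_lit 712448) (nat_lit 5) .nil))))) (.g (nat_lit 0) (.e (nat_lit 205662) (nat_lit 0) .nil) .nil))) 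
(.lf (nat_lit 514641) (.g (nat_lit 1641) (.e (nat_lit 188428) (nat_lit 20) (.e (nat_lit 3571) (nat_lit 222) (.e (nat_lit 737300) (nat_lit 7) (.e (nat_lit 286753) (nat_lit 10) (.e (nat_lit 344138) (nat_lit 29) (.e (nat_lit 581653) (nat_lit 6) .nil)))))) (.g (nat_lit 1) (.e (nat_lit 207591) (nat_lit 0) .nil) .nil)))) (.nd (nat_lit 9) 
(.lf (nat_lit 514385) (.g (nat_lit 415) (.e (nat_lit 188420) (nat_lit 0) (.e (nat_lit 2058) (nat_lit 142) (.e (nat_lit 704598) (nat_lit 6) .nil))) (.g (nat_lit 0) (.e (nat_lit 206358) (nat_lit 0) .nil) .nil))) 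
(.lf (nat_lit 514897) (.g (nat_lit 1164) (.e (nat_lit 188438) (nat_lit 20) (.e (nat_lit 3408) (nat_lit 212) (.e (nat_lit 655380) (nat_lit 6) (.e (nat_lit 188441) (nat_lit 20) (.e (nat_lit 3406) (nat_lit 212) (.e (nat_lit 655380) (nat_lit 6) .nil)))))) (.g (nat_lit 1) (.e (nat_lit 208524) (nat_lit 0) .nil) .nil))))) (.nd (nat_lit 8) (.nd (nat_lit 9) 
(.lf (nat_lit 514257) (.g (nat_lit 1140) (.e (nat_lit 188416) (nat_lit 0) (.e (nat_lit 2147) (nat_lit 142) (.e (nat_lit 704597) (nat_lit 6) (.e (nat_lit 188439) (nat_lit 20) (.e (nat_lit 3407) (nat_lit 212) (.e (nat_lit 655380) (nat_lit 6) .nil)))))) (.g (nat_lit 1) (.e (nat_lit 206193) (nat_lit 0) .nil) .nil))) 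
(.lf (nat_lit 514769) (.g (nat_lit 3073) (.e (nat_lit 188434) (nat_lit 20) (.e (nat_lit 3469) (nat_lit 217) (.e (nat_lit 696344) (nat_lit 8) (.e (nat_lit 172113) (nat_lit 10) (.e (nat_lit 434208) (nat_lit 18) (.e (nat_lit 6254) (nat_lit 337) (.e (nat_lit 7936) (nat_lit 166) .nil))))))) (.g (nat_lit 1) (.e (nat_lit 208231) (nat_lit 0) .nil) .nil)))) (.nd (nat_lit 9) 
(.lf (nat_lit 514513) (.g (nat_lit 1879) (.e (nat_lit 188423) (nat_lit 11) (.e (nat_lit 335986) (nat_lit 1) (.e (nat_lit 57686) (nat_lit 156) (.e (nat_lit 163903) (nat_lit 12) (.e (nat_lit 426427) (nat_lit 17) (.e (nat_lit 90176) (nat_lit 15) .nil)))))) (.g (nat_lit 1) (.e (nat_lit 206996) (nat_lit 0) .nil) .nil))) 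
(.lf (nat_lit 515025) (.g (nat_lit 3676) (.e (nat_lit 188439) (nat_lit 20) (.e (nat_lit 3469) (nat_lit 217) (.e (nat_lit 696344) (nat_lit 8) (.e (nat_lit 172106) (nat_lit 10) (.e (nat_lit 434209) (nat_lit 18) (.e (nat_lit 6284) (nat_lit 337) (.e (nat_lit 2644) (nat_lit 166) .nil))))))) (.g (nat_lit 1) (.e (nat_lit 208935) (nat_lit 0) .nil) .nil))))))) 
(.nd (nat_lit 6) (.nd (nat_lit 7) (.nd (nat_lit 8) (.nd (nat_lit 9) 
(.lf (nat_lit 514097) (.g (nat_lit 2042) (.e (nat_lit 188160) (nat_lit 35) (.e (nat_lit 57464) (nat_lit 23) (.e (nat_lit 516151) (nat_lit 9) (.e (nat_lit 426171) (nat_lit 7) (.e (nat_lit 417536) (nat_lit 10) .nil))))) (.g (nat_lit 0) (.e (nat_lit 205536) (nat_lit 0) .nil) .nil))) 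
(.lf (nat_lit 514609) (.g (nat_lit 460) (.e (nat_lit 188424) (nat_lit 20) (.e (nat_lit 3406) (nat_lit 212) (.e (nat_lit 655380) (nat_lit 6) (.e (nat_lit 188439) (nat_lit 20) .nil)))) (.g (nat_lit 0) (.e (nat_lit 207390) (nat_lit 0) .nil) .nil)))) (.nd (nat_lit 9) 
(.lf (nat_lit 514353) (.g (nat_lit 1421) (.e (nat_lit 188418) (nat_lit 0) (.e (nat_lit 2175) (nat_lit 143) (.e (nat_lit 712755) (nat_lit 30) (.e (nat_lit 450567) (nat_lit 0) .nil)))) (.g (nat_lit 0) (.e (nat_lit 206324) (nat_lit 0) .nil) .nil))) 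
(.lf (nat_lit 514865) (.g (nat_lit 1876) (.e (nat_lit 188437) (nat_lit 20) (.e (nat_lit 3238) (nat_lit 197) (.e (nat_lit 532523) (nat_lit 7) (.e (nat_lit 319534) (nat_lit 16) (.e (nat_lit 294656) (nat_lit 2) .nil))))) (.g (nat_lit 0) (.e (nat_lit 208458) (nat_lit 0) .nil) .nil))))) (.nd (nat_lit 8) (.nd (nat_lit 9) 
(.lf (nat_lit 514225) (.g (nat_lit 574) (.e (nat_lit 180288) (nat_lit 45) (.e (nat_lit 2579) (nat_lit 161) (.e (nat_lit 40964) (nat_lit 0) (.e (nat_lit 1574) (nat_lit 110) (.e (nat_lit 360192) (nat_lit 2) (.e (nat_lit 204544) (nat_lit 5) .nil)))))) (.g (nat_lit 1) (.e (nat_lit 206076) (nat_lit 0) .nil) .nil))) 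
(.lf (nat_lit 514737) (.g (nat_lit 1651) (.e (nat_lit 188434) (nat_lit 20) (.e (nat_lit 3409) (nat_lit 212) (.e (nat_lit 655378) (nat_lit 4) (.e (nat_lit 172118) (nat_lit 12) (.e (nat_lit 475197) (nat_lit 40) (.e (nat_lit 704598) (nat_lit 6) .nil)))))) (.g (nat_lit 1) (.e (nat_lit 208058) (nat_lit 0) .nil) .nil)))) (.nd (nat_lit 9) 
(.lf (nat_lit 514481) (.g (nat_lit 179) (.e (nat_lit 196352) (nat_lit 8) (.e (nat_lit 155652) (nat_lit 0) (.e (nat_lit 2984) (nat_lit 186) (.e (nat_lit 450304) (nat_lit 4) .nil)))) (.g (nat_lit 0) (.e (nat_lit 206508) (nat_lit 0) .nil) .nil))) 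
(.lf (nat_lit 514993) (.g (nat_lit 1184) (.e (nat_lit 188439) (nat_lit 20) (.e (nat_lit 3409) (nat_lit 212) (.e (nat_lit 655364) (nat_lit 0) (.e (nat_lit 2989) (nat_lit 186) (.e (nat_lit 450304) (nat_lit 4) (.e (nat_lit 114432) (nat_lit 6) .nil)))))) (.g (nat_lit 1) (.e (nat_lit 208807) (nat_lit 0) .nil) .nil)))))) (.nd (nat_lit 7) (.nd (nat_lit 8) (.nd (nat_lit 9) 
(.lf (nat_lit 514161) (.g (nat_lit 302) (.e (nat_lit 180284) (nat_lit 45) (.e (nat_lit 2580) (nat_lit 161) (.e (nat_lit 40965) (nat_lit 0) (.e (nat_lit 1585) (nat_lit 111) (.e (nat_lit 368384) (nat_lit 10) (.e (nat_lit 581376) (nat_lit 5) .nil)))))) (.g (nat_lit 1) (.e (nat_lit 205765) (nat_lit 0) .nil) .nil))) 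
(.lf (nat_lit 514673) (.g (nat_lit 2217) (.e (nat_lit 188431) (nat_lit 20) (.e (nat_lit 3399) (nat_lit 211) (.e (nat_lit 647183) (nat_lit 4) (.e (nat_lit 172120) (nat_lit 12) (.e (nat_lit 475198) (nat_lit 40) (.e (nat_lit 704598) (nat_lit 6) .nil)))))) (.g (nat_lit 1) (.e (nat_lit 207692) (nat_lit 0) .nil) .nil)))) (.nd (nat_lit 9) 
(.lf (nat_lit 514417) (.g (nat_lit 1414) (.e (nat_lit 188420) (nat_lit 0) (.e (nat_lit 2174) (nat_lit 143) (.e (nat_lit 712753) (nat_lit 30) (.e (nat_lit 450567) (nat_lit 0) (.e (nat_lit 5443) (nat_lit 306) (.e (nat_lit 7936) (nat_lit 166) .nil)))))) (.g (nat_lit 1) (.e (nat_lit 206398) (nat_lit 0) .nil) .nil))) 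
(.lf (nat_lit 514929) (.g (nat_lit 1678) (.e (nat_lit 188439) (nat_lit 20) (.e (nat_lit 3270) (nat_lit 199) (.e (nat_lit 548913) (nat_lit 18) (.e (nat_lit 172119) (nat_lit 12) (.e (nat_lit 475184) (nat_lit 29) .nil))))) (.g (nat_lit 0) (.e (nat_lit 208601) (nat_lit 0) .nil) .nil))))) (.nd (nat_lit 8) (.nd (nat_lit 9) 
(.lf (nat_lit 514289) (.g (nat_lit 2096) (.e (nat_lit 188418) (nat_lit 0) (.e (nat_lit 1856) (nat_lit 124) (.e (nat_lit 557103) (nat_lit 14) (.e (nat_lit 180287) (nat_lit 45) (.e (nat_lit 2571) (nat_lit 160) (.e (nat_lit 32809) (nat_lit 20) .nil)))))) (.g (nat_lit 1) (.e (nat_lit 206249) (nat_lit 0) .nil) .nil))) 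
(.lf (nat_lit 514801) (.g (nat_lit 1571) (.e (nat_lit 188435) (nat_lit 20) (.e (nat_lit 3407) (nat_lit 212) (.e (nat_lit 655378) (nat_lit 4) (.e (nat_lit 172120) (nat_lit 12) (.e (nat_lit 475198) (nat_lit 40) .nil))))) (.g (nat_lit 0) (.e (nat_lit 208305) (nat_lit 0) .nil) .nil)))) (.nd (nat_lit 9) 
(.lf (nat_lit 514545) (.g (nat_lit 2419) (.e (nat_lit 188423) (nat_lit 11) (.e (nat_lit 336232) (nat_lit 14) (.e (nat_lit 401448) (nat_lit 10) (.e (nat_lit 434287) (nat_lit 43) (.e (nat_lit 696346) (nat_lit 10) .nil))))) (.g (nat_lit 1) (.e (nat_lit 207249) (nat_lit 0) .nil) .nil))) 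
(.lf (nat_lit 515057) (.g (nat_lit 3077) (.e (nat_lit 188440) (nat_lit 20) (.e (nat_lit 3271) (nat_lit 199) (.e (nat_lit 548898) (nat_lit 14) (.e (nat_lit 2988) (nat_lit 186) (.e (nat_lit 442374) (nat_lit 0) (.e (nat_lit 1856) (nat_lit 124) (.e (nat_lit 557107) (nat_lit 15) .nil))))))) (.g (nat_lit 1) (.e (nat_lit 208973) (nat_lit 0) .nil) .nil))))))))) 
(.nd (nat_lit 4) (.nd (nat_lit 5) (.nd (nat_lit 6) (.nd (nat_lit 7) (.nd (nat_lit 8) 
(.nd (nat_lit 9) 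
(.lf (nat_lit 514057) (.g (nat_lit 299) (.e (nat_lit 188160) (nat_lit 32) (.e (nat_lit 1433) (nat_lit 108) (.e (nat_lit 336426) (nat_lit 29) (.e (nat_lit 450304) (nat_lit 4) .nil)))) (.g (nat_lit 0) (.e (nat_lit 205423) (nat_lit 0) .nil) .nil))) 
(.lf (nat_lit 514569) (.g (nat_lit 1366) (.e (nat_lit 196352) (nat_lit 11) (.e (nat_lit 336390) (nat_lit 27) (.e (nat_lit 426098) (nat_lit 1) (.e (nat_lit 164397) (nat_lit 256) .nil)))) (.g (nat_lit 0) (.e (nat_lit 207295) (nat_lit 0) .nil) .nil)))) (.nd (nat_lit 9) 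
(.lf (nat_lit 514313) (.g (nat_lit 2710) (.e (nat_lit 188418) (nat_lit 0) (.e (nat_lit 2059) (nat_lit 142) (.e (nat_lit 704598) (nat_lit 6) (.e (nat_lit 188453) (nat_lit 24) (.e (nat_lit 229665) (nat_lit 240) (.e (nat_lit 2653) (nat_lit 166) .nil)))))) (.g (nat_lit 1) (.e (nat_lit 206277) (nat_lit 0) .nil) .nil))) 
(.lf (nat_lit 514825) (.g (nat_lit 1411) (.e (nat_lit 188435) (nat_lit 20) (.e (nat_lit 3469) (nat_lit 217) (.e (nat_lit 696344) (nat_lit 8) (.e (nat_lit 172105) (nat_lit 10) .nil)))) (.g (nat_lit 0) (.e (nat_lit 208392) (nat_lit 0) .nil) .nil))))) (.nd (nat_lit 8) (.nd (nat_lit 9) 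
(.lf (nat_lit 514185) (.g (nat_lit 564) (.e (nat_lit 180285) (nat_lit 45) (.e (nat_lit 2580) (nat_lit 161) (.e (nat_lit 40965) (nat_lit 0) (.e (nat_lit 1558) (nat_lit 110) (.e (nat_lit 360192) (nat_lit 2) (.e (nat_lit 204544) (nat_lit 5) .nil)))))) (.g (nat_lit 1) (.e (nat_lit 205870) (nat_lit 0) .nil) .nil))) 
(.lf (nat_lit 514697) (.g (nat_lit 2051) (.e (nat_lit 188434) (nat_lit 20) (.e (nat_lit 3238) (nat_lit 197) (.e (nat_lit 532523) (nat_lit 7) (.e (nat_lit 319511) (nat_lit 10) (.e (nat_lit 5293) (nat_lit 298) .nil))))) (.g (nat_lit 0) (.e (nat_lit 207885) (nat_lit 0) .nil) .nil)))) (.nd (nat_lit 9) 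
(.lf (nat_lit 514441) (.g (nat_lit 1791) (.e (nat_lit 188420) (nat_lit 0) (.e (nat_lit 2175) (nat_lit 143) (.e (nat_lit 712755) (nat_lit 30) (.e (nat_lit 450562) (nat_lit 0) (.e (nat_lit 5539) (nat_lit 306) .nil))))) (.g (nat_lit 0) (.e (nat_lit 206428) (nat_lit 0) .nil) .nil))) 
(.lf (nat_lit 514953) (.g (nat_lit 1880) (.e (nat_lit 188439) (nat_lit 20) (.e (nat_lit 3289) (nat_lit 201) (.e (nat_lit 565251) (nat_lit 0) (.e (nat_lit 1586) (nat_lit 111) (.e (nat_lit 360450) (nat_lit 0) (.e (nat_lit 7686) (nat_lit 410) (.e (nat_lit 7936) (nat_lit 166) .nil))))))) (.g (nat_lit 1) (.e (nat_lit 208656) (nat_lit 0) .nil) .nil)))))) 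
(.nd (nat_lit 7) (.nd (nat_lit 8) (.nd (nat_lit 9) 
(.lf (nat_lit 514121) (.g (nat_lit 1152) (.e (nat_lit 188160) (nat_lit 39) (.e (nat_lit 131140) (nat_lit 27) (.e (nat_lit 426197) (nat_lit 9) (.e (nat_lit 426444) (nat_lit 19) (.e (nat_lit 114432) (nat_lit 5) .nil))))) (.g (nat_lit 0) (.e (nat_lit 205644) (nat_lit 0) .nil) .nil))) 
(.lf (nat_lit 514633) (.g (nat_lit 1558) (.e (nat_lit 188428) (nat_lit 20) (.e (nat_lit 3401) (nat_lit 211) (.e (nat_lit 647183) (nat_lit 4) (.e (nat_lit 172112) (nat_lit 10) (.e (nat_lit 434272) (nat_lit 38) (.e (nat_lit 655380) (nat_lit 6) .nil)))))) (.g (nat_lit 1) (.e (nat_lit 207527) (nat_lit 0) .nil) .nil)))) (.nd (nat_lit 9) 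
(.lf (nat_lit 514377) (.g (nat_lit 2787) (.e (nat_lit 188420) (nat_lit 0) (.e (nat_lit 2056) (nat_lit 142) (.e (nat_lit 704598) (nat_lit 6) (.e (nat_lit 188455) (nat_lit 24) (.e (nat_lit 229663) (nat_lit 240) (.e (nat_lit 2651) (nat_lit 166) .nil)))))) (.g (nat_lit 1) (.e (nat_lit 206349) (nat_lit 0) .nil) .nil))) 
(.lf (nat_lit 514889) (.g (nat_lit 953) (.e (nat_lit 188438) (nat_lit 20) (.e (nat_lit 3406) (nat_lit 212) (.e (nat_lit 655380) (nat_lit 6) (.e (nat_lit 188434) (nat_lit 20) (.e (nat_lit 3409) (nat_lit 212) .nil))))) (.g (nat_lit 0) (.e (nat_lit 208512) (nat_lit 0) .nil) .nil))))) (.nd (nat_lit 8) (.nd (nat_lit 9) 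
(.lf (nat_lit 514249) (.g (nat_lit 2053) (.e (nat_lit 180291) (nat_lit 48) (.e (nat_lit 164337) (nat_lit 232) (.e (nat_lit 463) (nat_lit 34) (.e (nat_lit 442379) (nat_lit 0) (.e (nat_lit 2059) (nat_lit 142) (.e (nat_lit 704595) (nat_lit 5) .nil)))))) (.g (nat_lit 1) (.e (nat_lit 206149) (nat_lit 0) .nil) .nil))) 
(.lf (nat_lit 514761) (.g (nat_lit 3268) (.e (nat_lit 188434) (nat_lit 20) (.e (nat_lit 3469) (nat_lit 217) (.e (nat_lit 696344) (nat_lit 8) (.e (nat_lit 172113) (nat_lit 10) (.e (nat_lit 434203) (nat_lit 18) (.e (nat_lit 6250) (nat_lit 337) (.e (nat_lit 7936) (nat_lit 166) .nil))))))) (.g (nat_lit 1) (.e (nat_lit 208223) (nat_lit 0) .nil) .nil)))) (.nd (nat_lit 9) 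
(.lf (nat_lit 514505) (.g (nat_lit 362) (.e (nat_lit 188421) (nat_lit 11) (.e (nat_lit 336232) (nat_lit 14) (.e (nat_lit 401448) (nat_lit 10) .nil))) (.g (nat_lit 0) (.e (nat_lit 206830) (nat_lit 0) .nil) .nil))) 
(.lf (nat_lit 515017) (.g (nat_lit 2164) (.e (nat_lit 188439) (nat_lit 20) (.e (nat_lit 3468) (nat_lit 217) (.e (nat_lit 696343) (nat_lit 8) (.e (nat_lit 172115) (nat_lit 10) (.e (nat_lit 434209) (nat_lit 18) (.e (nat_lit 6273) (nat_lit 337) (.e (nat_lit 2645) (nat_lit 166) .nil))))))) (.g (nat_lit 1) (.e (nat_lit 208867) (nat_lit 0) .nil) .nil))))))) 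
(.nd (nat_lit 6) (.nd (nat_lit 7) (.nd (nat_lit 8) (.nd (nat_lit 9) 
(.lf (nat_lit 514089) (.g (nat_lit 1477) (.e (nat_lit 188160) (nat_lit 32) (.e (nat_lit 1663) (nat_lit 115) (.e (nat_lit 393294) (nat_lit 26) (.e (nat_lit 475199) (nat_lit 40) (.e (nat_lit 704596) (nat_lit 5) .nil))))) (.g (nat_lit 0) (.e (nat_lit 205460) (nat_lit 0) .nil) .nil))) 
(.lf (nat_lit 514601) (.g (nat_lit 3700) (.e (nat_lit 188424) (nat_lit 20) (.e (nat_lit 3270) (nat_lit 199) (.e (nat_lit 548913) (nat_lit 18) (.e (nat_lit 172120) (nat_lit 12) (.e (nat_lit 475184) (nat_lit 29) .nil))))) (.g (nat_lit 0) (.e (nat_lit 207378) (nat_lit 0) .nil) .nil)))) (.nd (nat_lit 9) 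
(.lf (nat_lit 514345) (.g (nat_lit 1179) (.e (nat_lit 188418) (nat_lit 0) (.e (nat_lit 2175) (nat_lit 143) (.e (nat_lit 712753) (nat_lit 30) (.e (nat_lit 450567) (nat_lit 0) (.e (nat_lit 5443) (nat_lit 306) (.e (nat_lit 7936) (nat_lit 166) .nil)))))) (.g (nat_lit 1) (.e (nat_lit 206316) (nat_lit 0) .nil) .nil))) 
(.lf (nat_lit 514857) (.g (nat_lit 489) (.e (nat_lit 188437) (nat_lit 20) (.e (nat_lit 3238) (nat_lit 197) (.e (nat_lit 532523) (nat_lit 7) .nil))) (.g (nat_lit 0) (.e (nat_lit 208441) (nat_lit 0) .nil) .nil))))) (.nd (nat_lit 8) (.nd (nat_lit 9) 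
(.lf (nat_lit 514217) (.g (nat_lit 396) (.e (nat_lit 180287) (nat_lit 45) (.e (nat_lit 2580) (nat_lit 161) (.e (nat_lit 40965) (nat_lit 0) (.e (nat_lit 1558) (nat_lit 110) (.e (nat_lit 360192) (nat_lit 2) (.e (nat_lit 204544) (nat_lit 5) .nil)))))) (.g (nat_lit 1) (.e (nat_lit 206015) (nat_lit 0) .nil) .nil))) 
(.lf (nat_lit 514729) (.g (nat_lit 1680) (.e (nat_lit 188434) (nat_lit 20) (.e (nat_lit 3408) (nat_lit 212) (.e (nat_lit 655378) (nat_lit 4) (.e (nat_lit 172119) (nat_lit 12) (.e (nat_lit 475198) (nat_lit 40) .nil))))) (.g (nat_lit 0) (.e (nat_lit 208033) (nat_lit 0) .nil) .nil)))) (.nd (nat_lit 9) 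
(.lf (nat_lit 514473) (.g (nat_lit 2082) (.e (nat_lit 196352) (nat_lit 2) (.e (nat_lit 90128) (nat_lit 9) (.e (nat_lit 2702) (nat_lit 169) (.e (nat_lit 213032) (nat_lit 11) (.e (nat_lit 24604) (nat_lit 2) .nil))))) (.g (nat_lit 0) (.e (nat_lit 206471) (nat_lit 0) .nil) .nil))) 
(.lf (nat_lit 514985) (.g (nat_lit 2083) (.e (nat_lit 188439) (nat_lit 20) (.e (nat_lit 3408) (nat_lit 212) (.e (nat_lit 655376) (nat_lit 4) (.e (nat_lit 172120) (nat_lit 12) (.e (nat_lit 475199) (nat_lit 40) (.e (nat_lit 704598) (nat_lit 6) .nil)))))) (.g (nat_lit 1) (.e (nat_lit 208790) (nat_lit 0) .nil) .nil)))))) (.nd (nat_lit 7) (.nd (nat_lit 8) (.nd (nat_lit 9) 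
(.lf (nat_lit 514153) (.g (nat_lit 947) (.e (nat_lit 180284) (nat_lit 45) (.e (nat_lit 2579) (nat_lit 161) (.e (nat_lit 40965) (nat_lit 0) (.e (nat_lit 1597) (nat_lit 111) (.e (nat_lit 368384) (nat_lit 10) (.e (nat_lit 581376) (nat_lit 5) .nil)))))) (.g (nat_lit 1) (.e (nat_lit 205757) (nat_lit 0) .nil) .nil))) 
(.lf (nat_lit 514665) (.g (nat_lit 1620) (.e (nat_lit 188431) (nat_lit 20) (.e (nat_lit 3397) (nat_lit 211) (.e (nat_lit 647185) (nat_lit 6) (.e (nat_lit 188416) (nat_lit 0) (.e (nat_lit 2147) (nat_lit 142) (.e (nat_lit 704597) (nat_lit 6) .nil)))))) (.g (nat_lit 1) (.e (nat_lit 207680) (nat_lit 0) .nil) .nil)))) (.nd (nat_lit 9) 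
(.lf (nat_lit 514409) (.g (nat_lit 829) (.e (nat_lit 188420) (nat_lit 0) (.e (nat_lit 2174) (nat_lit 143) (.e (nat_lit 712745) (nat_lit 27) (.e (nat_lit 433920) (nat_lit 12) .nil)))) (.g (nat_lit 0) (.e (nat_lit 206383) (nat_lit 0) .nil) .nil))) 
(.lf (nat_lit 514921) (.g (nat_lit 920) (.e (nat_lit 188438) (nat_lit 20) (.e (nat_lit 3579) (nat_lit 223) (.e (nat_lit 745476) (nat_lit 0) (.e (nat_lit 1562) (nat_lit 110) .nil)))) (.g (nat_lit 0) (.e (nat_lit 208587) (nat_lit 0) .nil) .nil))))) (.nd (nat_lit 8) (.nd (nat_lit 9) 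
(.lf (nat_lit 514281) (.g (nat_lit 1505) (.e (nat_lit 188418) (nat_lit 0) (.e (nat_lit 1798) (nat_lit 119) (.e (nat_lit 516124) (nat_lit 2) (.e (nat_lit 213032) (nat_lit 11) (.e (nat_lit 24605) (nat_lit 2) .nil))))) (.g (nat_lit 0) (.e (nat_lit 206239) (nat_lit 0) .nil) .nil))) 
(.lf (nat_lit 514793) (.g (nat_lit 1768) (.e (nat_lit 188435) (nat_lit 20) (.e (nat_lit 3289) (nat_lit 201) (.e (nat_lit 565269) (nat_lit 6) (.e (nat_lit 81938) (nat_lit 20) (.e (nat_lit 2390) (nat_lit 156) (.e (nat_lit 819221) (nat_lit 6) .nil)))))) (.g (nat_lit 1) (.e (nat_lit 208295) (nat_lit 0) .nil) .nil)))) (.nd (nat_lit 9) 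
(.lf (nat_lit 514537) (.g (nat_lit 2986) (.e (nat_lit 188423) (nat_lit 11) (.e (nat_lit 336229) (nat_lit 14) (.e (nat_lit 401448) (nat_lit 10) (.e (nat_lit 434289) (nat_lit 43) (.e (nat_lit 696346) (nat_lit 10) .nil))))) (.g (nat_lit 1) (.e (nat_lit 207087) (nat_lit 0) .nil) .nil))) 
(.lf (nat_lit 515049) (.g (nat_lit 667) (.e (nat_lit 188439) (nat_lit 20) (.e (nat_lit 3578) (nat_lit 223) (.e (nat_lit 745475) (nat_lit 0) (.e (nat_lit 1572) (nat_lit 110) (.e (nat_lit 360192) (nat_lit 2) .nil))))) (.g (nat_lit 0) (.e (nat_lit 208965) (nat_lit 0) .nil) .nil)))))))) (.nd (nat_lit 5) (.nd (nat_lit 6) (.nd (nat_lit 7) (.nd (nat_lit 8) (.nd (nat_lit 9) 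
(.lf (nat_lit 514073) (.g (nat_lit 1540) (.e (nat_lit 188160) (nat_lit 32) (.e (nat_lit 1648) (nat_lit 115) (.e (nat_lit 393296) (nat_lit 26) (.e (nat_lit 475198) (nat_lit 40) (.e (nat_lit 704596) (nat_lit 5) .nil))))) (.g (nat_lit 0) (.e (nat_lit 205444) (nat_lit 0) .nil) .nil))) 
(.lf (nat_lit 514585) (.g (nat_lit 1511) (.e (nat_lit 196352) (nat_lit 18) (.e (nat_lit 393251) (nat_lit 18) (.e (nat_lit 164398) (nat_lit 256) (.e (nat_lit 57374) (nat_lit 2) .nil)))) (.g (nat_lit 0) (.e (nat_lit 207337) (nat_lit 0) .nil) .nil)))) (.nd (nat_lit 9) 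
(.lf (nat_lit 514329) (.g (nat_lit 1472) (.e (nat_lit 188418) (nat_lit 0) (.e (nat_lit 2174) (nat_lit 143) (.e (nat_lit 712753) (nat_lit 30) (.e (nat_lit 450567) (nat_lit 0) (.e (nat_lit 5443) (nat_lit 306) (.e (nat_lit 7936) (nat_lit 166) .nil)))))) (.g (nat_lit 1) (.e (nat_lit 206299) (nat_lit 0) .nil) .nil))) 
(.lf (nat_lit 514841) (.g (nat_lit 2828) (.e (nat_lit 188435) (nat_lit 20) (.e (nat_lit 3469) (nat_lit 217) (.e (nat_lit 696344) (nat_lit 8) (.e (nat_lit 172115) (nat_lit 10) (.e (nat_lit 434209) (nat_lit 18) (.e (nat_lit 6273) (nat_lit 337) (.e (nat_lit 2645) (nat_lit 166) .nil))))))) (.g (nat_lit 1) (.e (nat_lit 208408) (nat_lit 0) .nil) .nil))))) (.nd (nat_lit 8) (.nd (nat_lit 9) 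
(.lf (nat_lit 514201) (.g (nat_lit 486) (.e (nat_lit 180287) (nat_lit 45) (.e (nat_lit 2579) (nat_lit 161) (.e (nat_lit 40964) (nat_lit 0) (.e (nat_lit 1574) (nat_lit 110) (.e (nat_lit 360192) (nat_lit 2) (.e (nat_lit 204544) (nat_lit 5) .nil)))))) (.g (nat_lit 1) (.e (nat_lit 205999) (nat_lit 0) .nil) .nil))) 
(.lf (nat_lit 514713) (.g (nat_lit 1355) (.e (nat_lit 188434) (nat_lit 20) (.e (nat_lit 3289) (nat_lit 201) (.e (nat_lit 565269) (nat_lit 6) (.e (nat_lit 81957) (nat_lit 24) (.e (nat_lit 130816) (nat_lit 164) .nil))))) (.g (nat_lit 0) (.e (nat_lit 207923) (nat_lit 0) .nil) .nil)))) (.nd (nat_lit 9) 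
(.lf (nat_lit 514457) (.g (nat_lit 1043) (.e (nat_lit 196352) (nat_lit 0) (.e (nat_lit 1853) (nat_lit 124) (.e (nat_lit 557105) (nat_lit 14) (.e (nat_lit 188160) (nat_lit 35) .nil)))) (.g (nat_lit 0) (.e (nat_lit 206447) (nat_lit 0) .nil) .nil))) 
(.lf (nat_lit 514969) (.g (nat_lit 1825) (.e (nat_lit 188439) (nat_lit 20) (.e (nat_lit 3406) (nat_lit 212) (.e (nat_lit 655380) (nat_lit 6) (.e (nat_lit 188441) (nat_lit 20) (.e (nat_lit 3408) (nat_lit 212) (.e (nat_lit 655380) (nat_lit 6) .nil)))))) (.g (nat_lit 1) (.e (nat_lit 208728) (nat_lit 0) .nil) .nil)))))) (.nd (nat_lit 7) (.nd (nat_lit 8) (.nd (nat_lit 9) 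
(.lf (nat_lit 514137) (.g (nat_lit 2038) (.e (nat_lit 188160) (nat_lit 40) (.e (nat_lit 2684) (nat_lit 168) (.e (nat_lit 204845) (nat_lit 24) (.e (nat_lit 319530) (nat_lit 16) (.e (nat_lit 286733) (nat_lit 2) .nil))))) (.g (nat_lit 0) (.e (nat_lit 205690) (nat_lit 0) .nil) .nil))) 
(.lf (nat_lit 514649) (.g (nat_lit 72) (.e (nat_lit 188430) (nat_lit 20) (.e (nat_lit 3401) (nat_lit 211) (.e (nat_lit 647185) (nat_lit 6) .nil))) (.g (nat_lit 0) (.e (nat_lit 207627) (nat_lit 0) .nil) .nil)))) (.nd (nat_lit 9) 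
(.lf (nat_lit 514393) (.g (nat_lit 894) (.e (nat_lit 188420) (nat_lit 0) (.e (nat_lit 2058) (nat_lit 142) (.e (nat_lit 704599) (nat_lit 6) (.e (nat_lit 188418) (nat_lit 0) (.e (nat_lit 2056) (nat_lit 142) .nil))))) (.g (nat_lit 0) (.e (nat_lit 206366) (nat_lit 0) .nil) .nil))) 
(.lf (nat_lit 514905) (.g (nat_lit 2886) (.e (nat_lit 188438) (nat_lit 20) (.e (nat_lit 3468) (nat_lit 217) (.e (nat_lit 696344) (nat_lit 8) (.e (nat_lit 172113) (nat_lit 10) (.e (nat_lit 434289) (nat_lit 43) (.e (nat_lit 696346) (nat_lit 10) .nil)))))) (.g (nat_lit 1) (.e (nat_lit 208552) (nat_lit 0) .nil) .nil))))) (.nd (nat_lit 8) (.nd (nat_lit 9) 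
(.lf (nat_lit 514265) (.g (nat_lit 1016) (.e (nat_lit 188416) (nat_lit 0) (.e (nat_lit 2147) (nat_lit 142) (.e (nat_lit 704597) (nat_lit 6) (.e (nat_lit 188453) (nat_lit 24) (.e (nat_lit 229666) (nat_lit 240) .nil))))) (.g (nat_lit 0) (.e (nat_lit 206201) (nat_lit 0) .nil) .nil))) 
(.lf (nat_lit 514777) (.g (nat_lit 2779) (.e (nat_lit 188434) (nat_lit 20) (.e (nat_lit 3469) (nat_lit 217) (.e (nat_lit 696344) (nat_lit 8) (.e (nat_lit 172115) (nat_lit 10) (.e (nat_lit 434286) (nat_lit 42) (.e (nat_lit 696064) (nat_lit 10) .nil)))))) (.g (nat_lit 1) (.e (nat_lit 208239) (nat_lit 0) .nil) .nil)))) (.nd (nat_lit 9) 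
(.lf (nat_lit 514521) (.g (nat_lit 1632) (.e (nat_lit 188423) (nat_lit 11) (.e (nat_lit 335988) (nat_lit 1) (.e (nat_lit 57692) (nat_lit 156) (.e (nat_lit 163905) (nat_lit 12) .nil)))) (.g (nat_lit 0) (.e (nat_lit 207004) (nat_lit 0) .nil) .nil))) 
(.lf (nat_lit 515033) (.g (nat_lit 2946) (.e (nat_lit 188439) (nat_lit 20) (.e (nat_lit 3469) (nat_lit 217) (.e (nat_lit 696344) (nat_lit 8) (.e (nat_lit 172113) (nat_lit 10) (.e (nat_lit 434203) (nat_lit 18) (.e (nat_lit 6250) (nat_lit 337) (.e (nat_lit 7936) (nat_lit 166) .nil))))))) (.g (nat_lit 1) (.e (nat_lit 208943) (nat_lit 0) .nil) .nil))))))) 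
(.nd (nat_lit 6) (.nd (nat_lit 7) (.nd (nat_lit 8) (.nd (nat_lit 9) 
(.lf (nat_lit 514105) (.g (nat_lit 1078) (.e (nat_lit 188160) (nat_lit 35) (.e (nat_lit 57464) (nat_lit 23) (.e (nat_lit 516166) (nat_lit 12) (.e (nat_lit 450560) (nat_lit 0) .nil)))) (.g (nat_lit 0) (.e (nat_lit 205550) (nat_lit 0) .nil) .nil))) 
(.lf (nat_lit 514617) (.g (nat_lit 165) (.e (nat_lit 188427) (nat_lit 20) (.e (nat_lit 3397) (nat_lit 211) (.e (nat_lit 647185) (nat_lit 6) .nil))) (.g (nat_lit 0) (.e (nat_lit 207414) (nat_lit 0) .nil) .nil)))) (.nd (nat_lit 9) 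
(.lf (nat_lit 514361) (.g (nat_lit 2900) (.e (nat_lit 188419) (nat_lit 0) (.e (nat_lit 2160) (nat_lit 143) (.e (nat_lit 712755) (nat_lit 30) (.e (nat_lit 450566) (nat_lit 0) (.e (nat_lit 5548) (nat_lit 306) (.e (nat_lit 2650) (nat_lit 166) .nil)))))) (.g (nat_lit 1) (.e (nat_lit 206332) (nat_lit 0) .nil) .nil))) 
(.lf (nat_lit 514873) (.g (nat_lit 1626) (.e (nat_lit 188438) (nat_lit 20) (.e (nat_lit 3298) (nat_lit 202) (.e (nat_lit 573471) (nat_lit 11) (.e (nat_lit 16455) (nat_lit 12) .nil)))) (.g (nat_lit 0) (.e (nat_lit 208491) (nat_lit 0) .nil) .nil))))) (.nd (nat_lit 8) (.nd (nat_lit 9) 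
(.lf (nat_lit 514233) (.g (nat_lit 474) (.e (nat_lit 180288) (nat_lit 45) (.e (nat_lit 2579) (nat_lit 161) (.e (nat_lit 40965) (nat_lit 0) (.e (nat_lit 1585) (nat_lit 111) (.e (nat_lit 368384) (nat_lit 10) (.e (nat_lit 581376) (nat_lit 5) .nil)))))) (.g (nat_lit 1) (.e (nat_lit 206084) (nat_lit 0) .nil) .nil))) 
(.lf (nat_lit 514745) (.g (nat_lit 1654) (.e (nat_lit 188434) (nat_lit 20) (.e (nat_lit 3468) (nat_lit 217) (.e (nat_lit 696344) (nat_lit 8) (.e (nat_lit 172106) (nat_lit 10) (.e (nat_lit 434287) (nat_lit 43) .nil))))) (.g (nat_lit 0) (.e (nat_lit 208137) (nat_lit 0) .nil) .nil)))) (.nd (nat_lit 9) 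
(.lf (nat_lit 514489) (.g (nat_lit 1179) (.e (nat_lit 188421) (nat_lit 11) (.e (nat_lit 335988) (nat_lit 1) (.e (nat_lit 57692) (nat_lit 156) (.e (nat_lit 171776) (nat_lit 12) .nil)))) (.g (nat_lit 0) (.e (nat_lit 206622) (nat_lit 0) .nil) .nil))) 
(.lf (nat_lit 515001) (.g (nat_lit 2776) (.e (nat_lit 188439) (nat_lit 20) (.e (nat_lit 3409) (nat_lit 212) (.e (nat_lit 655378) (nat_lit 4) (.e (nat_lit 172120) (nat_lit 12) (.e (nat_lit 475199) (nat_lit 40) (.e (nat_lit 704598) (nat_lit 6) .nil)))))) (.g (nat_lit 1) (.e (nat_lit 208827) (nat_lit 0) .nil) .nil)))))) (.nd (nat_lit 7) (.nd (nat_lit 8) (.nd (nat_lit 9) 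
(.lf (nat_lit 514169) (.g (nat_lit 651) (.e (nat_lit 180285) (nat_lit 45) (.e (nat_lit 2579) (nat_lit 161) (.e (nat_lit 40964) (nat_lit 0) (.e (nat_lit 1574) (nat_lit 110) (.e (nat_lit 360192) (nat_lit 2) (.e (nat_lit 204544) (nat_lit 5) .nil)))))) (.g (nat_lit 1) (.e (nat_lit 205854) (nat_lit 0) .nil) .nil))) 
(.lf (nat_lit 514681) (.g (nat_lit 2322) (.e (nat_lit 188431) (nat_lit 20) (.e (nat_lit 3401) (nat_lit 211) (.e (nat_lit 647183) (nat_lit 4) (.e (nat_lit 172106) (nat_lit 10) (.e (nat_lit 434272) (nat_lit 38) (.e (nat_lit 655380) (nat_lit 6) .nil)))))) (.g (nat_lit 1) (.e (nat_lit 207757) (nat_lit 0) .nil) .nil)))) (.nd (nat_lit 9) 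
(.lf (nat_lit 514425) (.g (nat_lit 3151) (.e (nat_lit 188420) (nat_lit 0) (.e (nat_lit 2174) (nat_lit 143) (.e (nat_lit 712755) (nat_lit 30) (.e (nat_lit 450564) (nat_lit 0) (.e (nat_lit 5548) (nat_lit 306) (.e (nat_lit 2648) (nat_lit 166) .nil)))))) (.g (nat_lit 1) (.e (nat_lit 206411) (nat_lit 0) .nil) .nil))) 
(.lf (nat_lit 514937) (.g (nat_lit 1329) (.e (nat_lit 188439) (nat_lit 20) (.e (nat_lit 3272) (nat_lit 199) (.e (nat_lit 548913) (nat_lit 18) (.e (nat_lit 179968) (nat_lit 12) .nil)))) (.g (nat_lit 0) (.e (nat_lit 208629) (nat_lit 0) .nil) .nil))))) (.nd (nat_lit 8) (.nd (nat_lit 9) 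
(.lf (nat_lit 514297) (.g (nat_lit 2246) (.e (nat_lit 188418) (nat_lit 0) (.e (nat_lit 1856) (nat_lit 124) (.e (nat_lit 557107) (nat_lit 15) (.e (nat_lit 188453) (nat_lit 24) (.e (nat_lit 237312) (nat_lit 134) .nil))))) (.g (nat_lit 0) (.e (nat_lit 206257) (nat_lit 0) .nil) .nil))) 
(.lf (nat_lit 514809) (.g (nat_lit 586) (.e (nat_lit 188435) (nat_lit 20) (.e (nat_lit 3408) (nat_lit 212) (.e (nat_lit 655380) (nat_lit 6) (.e (nat_lit 188416) (nat_lit 0) .nil)))) (.g (nat_lit 0) (.e (nat_lit 208325) (nat_lit 0) .nil) .nil)))) (.nd (nat_lit 9) 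
(.lf (nat_lit 514553) (.g (nat_lit 1931) (.e (nat_lit 188423) (nat_lit 11) (.e (nat_lit 336387) (nat_lit 27) (.e (nat_lit 426098) (nat_lit 1) (.e (nat_lit 164398) (nat_lit 256) (.e (nat_lit 57369) (nat_lit 2) .nil))))) (.g (nat_lit 0) (.e (nat_lit 207263) (nat_lit 0) .nil) .nil))) 
(.lf (nat_lit 515065) (.g (nat_lit 2853) (.e (nat_lit 188440) (nat_lit 20) (.e (nat_lit 3272) (nat_lit 199) (.e (nat_lit 548913) (nat_lit 18) (.e (nat_lit 172126) (nat_lit 14) (.e (nat_lit 491524) (nat_lit 0) .nil))))) (.g (nat_lit 0) (.e (nat_lit 209005) (nat_lit 0) .nil) .nil)))))))))) 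
(.nd (nat_lit 3) (.nd (nat_lit 4) (.nd (nat_lit 5) (.nd (nat_lit 6) (.nd (nat_lit 7) 
(.nd (nat_lit 8) (.nd (nat_lit 9) 
(.lf (nat_lit 514053) (.g (nat_lit 1195) (.e (nat_lit 188160) (nat_lit 32) (.e (nat_lit 1256) (nat_lit 92) (.e (nat_lit 98373) (nat_lit 29) (.e (nat_lit 450563) (nat_lit 0) .nil)))) (.g (nat_lit 0) (.e (nat_lit 205418) (nat_lit 0) .nil) .nil))) 
(.lf (nat_lit 514565) (.g (nat_lit 2323) (.e (nat_lit 196352) (nat_lit 11) (.e (nat_lit 336389) (nat_lit 27) (.e (nat_lit 426098) (nat_lit 1) (.e (nat_lit 164399) (nat_lit 256) (.e (nat_lit 57372) (nat_lit 2) .nil))))) (.g (nat_lit 0) (.e (nat_lit 207291) (nat_lit 0) .nil) .nil)))) (.nd (nat_lit 9) 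
(.lf (nat_lit 514309) (.g (nat_lit 2004) (.e (nat_lit 188418) (nat_lit 0) (.e (nat_lit 2058) (nat_lit 142) (.e (nat_lit 704599) (nat_lit 6) (.e (nat_lit 188440) (nat_lit 20) (.e (nat_lit 3408) (nat_lit 212) (.e (nat_lit 655380) (nat_lit 6) .nil)))))) (.g (nat_lit 1) (.e (nat_lit 206273) (nat_lit 0) .nil) .nil))) 
(.lf (nat_lit 514821) (.g (nat_lit 1211) (.e (nat_lit 188435) (nat_lit 20) (.e (nat_lit 3409) (nat_lit 212) (.e (nat_lit 655380) (nat_lit 6) (.e (nat_lit 188439) (nat_lit 20) (.e (nat_lit 3408) (nat_lit 212) (.e (nat_lit 655380) (nat_lit 6) .nil)))))) (.g (nat_lit 1) (.e (nat_lit 208346) (nat_lit 0) .nil) .nil))))) (.nd (nat_lit 8) (.nd (nat_lit 9) 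
(.lf (nat_lit 514181) (.g (nat_lit 484) (.e (nat_lit 180285) (nat_lit 45) (.e (nat_lit 2580) (nat_lit 161) (.e (nat_lit 40964) (nat_lit 0) (.e (nat_lit 1582) (nat_lit 111) (.e (nat_lit 368384) (nat_lit 10) (.e (nat_lit 581376) (nat_lit 5) .nil)))))) (.g (nat_lit 1) (.e (nat_lit 205866) (nat_lit 0) .nil) .nil))) 
(.lf (nat_lit 514693) (.g (nat_lit 2263) (.e (nat_lit 188431) (nat_lit 20) (.e (nat_lit 3402) (nat_lit 211) (.e (nat_lit 647183) (nat_lit 4) (.e (nat_lit 172120) (nat_lit 12) (.e (nat_lit 475198) (nat_lit 40) (.e (nat_lit 712448) (nat_lit 6) .nil)))))) (.g (nat_lit 1) (.e (nat_lit 207791) (nat_lit 0) .nil) .nil)))) (.nd (nat_lit 9) 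
(.lf (nat_lit 514437) (.g (nat_lit 3436) (.e (nat_lit 188420) (nat_lit 0) (.e (nat_lit 2175) (nat_lit 143) (.e (nat_lit 712752) (nat_lit 29) (.e (nat_lit 442430) (nat_lit 24) (.e (nat_lit 229663) (nat_lit 240) (.e (nat_lit 2651) (nat_lit 166) .nil)))))) (.g (nat_lit 1) (.e (nat_lit 206424) (nat_lit 0) .nil) .nil))) 
(.lf (nat_lit 514949) (.g (nat_lit 1829) (.e (nat_lit 188439) (nat_lit 20) (.e (nat_lit 3307) (nat_lit 202) (.e (nat_lit 573477) (nat_lit 12) (.e (nat_lit 57575) (nat_lit 55) .nil)))) (.g (nat_lit 0) (.e (nat_lit 208648) (nat_lit 0) .nil) .nil)))))) (.nd (nat_lit 7) (.nd (nat_lit 8) (.nd (nat_lit 9) 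
(.lf (nat_lit 514117) (.g (nat_lit 1353) (.e (nat_lit 188160) (nat_lit 39) (.e (nat_lit 131140) (nat_lit 27) (.e (nat_lit 426188) (nat_lit 9) (.e (nat_lit 426444) (nat_lit 19) (.e (nat_lit 114432) (nat_lit 5) .nil))))) (.g (nat_lit 0) (.e (nat_lit 205639) (nat_lit 0) .nil) .nil))) 
(.lf (nat_lit 514629) (.g (nat_lit 1186) (.e (nat_lit 188428) (nat_lit 20) (.e (nat_lit 3401) (nat_lit 211) (.e (nat_lit 647170) (nat_lit 0) (.e (nat_lit 2999) (nat_lit 186) (.e (nat_lit 450304) (nat_lit 4) (.e (nat_lit 114432) (nat_lit 6) .nil)))))) (.g (nat_lit 1) (.e (nat_lit 207500) (nat_lit 0) .nil) .nil)))) (.nd (nat_lit 9) 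
(.lf (nat_lit 514373) (.g (nat_lit 1116) (.e (nat_lit 188420) (nat_lit 0) (.e (nat_lit 2056) (nat_lit 142) (.e (nat_lit 704598) (nat_lit 6) (.e (nat_lit 188439) (nat_lit 20) (.e (nat_lit 3409) (nat_lit 212) (.e (nat_lit 655380) (nat_lit 6) .nil)))))) (.g (nat_lit 1) (.e (nat_lit 206345) (nat_lit 0) .nil) .nil))) 
(.lf (nat_lit 514885) (.g (nat_lit 1072) (.e (nat_lit 188438) (nat_lit 20) (.e (nat_lit 3289) (nat_lit 201) (.e (nat_lit 565269) (nat_lit 6) (.e (nat_lit 81942) (nat_lit 20) (.e (nat_lit 2390) (nat_lit 156) (.e (nat_lit 819221) (nat_lit 6) .nil)))))) (.g (nat_lit 1) (.e (nat_lit 208504) (nat_lit 0) .nil) .nil))))) (.nd (nat_lit 8) (.nd (nat_lit 9) 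
(.lf (nat_lit 514245) (.g (nat_lit 419) (.e (nat_lit 180288) (nat_lit 45) (.e (nat_lit 2580) (nat_lit 161) (.e (nat_lit 40965) (nat_lit 0) (.e (nat_lit 1585) (nat_lit 111) (.e (nat_lit 368384) (nat_lit 10) (.e (nat_lit 581376) (nat_lit 5) .nil)))))) (.g (nat_lit 1) (.e (nat_lit 206096) (nat_lit 0) .nil) .nil))) 
(.lf (nat_lit 514757) (.g (nat_lit 2685) (.e (nat_lit 188434) (nat_lit 20) (.e (nat_lit 3469) (nat_lit 217) (.e (nat_lit 696344) (nat_lit 8) (.e (nat_lit 172106) (nat_lit 10) (.e (nat_lit 434286) (nat_lit 42) (.e (nat_lit 696064) (nat_lit 10) .nil)))))) (.g (nat_lit 1) (.e (nat_lit 208219) (nat_lit 0) .nil) .nil)))) (.nd (nat_lit 9) 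
(.lf (nat_lit 514501) (.g (nat_lit 2965) (.e (nat_lit 188421) (nat_lit 11) (.e (nat_lit 336231) (nat_lit 14) (.e (nat_lit 401446) (nat_lit 10) (.e (nat_lit 434287) (nat_lit 43) (.e (nat_lit 696346) (nat_lit 10) .nil))))) (.g (nat_lit 1) (.e (nat_lit 206771) (nat_lit 0) .nil) .nil))) 
(.lf (nat_lit 515013) (.g (nat_lit 1914) (.e (nat_lit 188439) (nat_lit 20) (.e (nat_lit 3409) (nat_lit 212) (.e (nat_lit 655380) (nat_lit 6) (.e (nat_lit 188441) (nat_lit 20) (.e (nat_lit 3408) (nat_lit 212) (.e (nat_lit 655380) (nat_lit 6) .nil)))))) (.g (nat_lit 1) (.e (nat_lit 208839) (nat_lit 0) .nil) .nil))))))) (.nd (nat_lit 6) (.nd (nat_lit 7) (.nd (nat_lit 8) (.nd (nat_lit 9) 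
(.lf (nat_lit 514085) (.g (nat_lit 900) (.e (nat_lit 188160) (nat_lit 32) (.e (nat_lit 1656) (nat_lit 115) (.e (nat_lit 393293) (nat_lit 26) (.e (nat_lit 475205) (nat_lit 40) .nil)))) (.g (nat_lit 0) (.e (nat_lit 205456) (nat_lit 0) .nil) .nil))) 
(.lf (nat_lit 514597) (.g (nat_lit 925) (.e (nat_lit 196352) (nat_lit 18) (.e (nat_lit 393254) (nat_lit 18) (.e (nat_lit 164403) (nat_lit 256) (.e (nat_lit 57369) (nat_lit 2) .nil)))) (.g (nat_lit 0) (.e (nat_lit 207355) (nat_lit 0) .nil) .nil)))) (.nd (nat_lit 9) 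
(.lf (nat_lit 514341) (.g (nat_lit 1991) (.e (nat_lit 188418) (nat_lit 0) (.e (nat_lit 2175) (nat_lit 143) (.e (nat_lit 712750) (nat_lit 29) (.e (nat_lit 442430) (nat_lit 24) (.e (nat_lit 229665) (nat_lit 240) (.e (nat_lit 2653) (nat_lit 166) .nil)))))) (.g (nat_lit 1) (.e (nat_lit 206312) (nat_lit 0) .nil) .nil))) 
(.lf (nat_lit 514853) (.g (nat_lit 4849) (.e (nat_lit 188436) (nat_lit 20) (.e (nat_lit 3238) (nat_lit 197) (.e (nat_lit 532523) (nat_lit 7) (.e (nat_lit 319531) (nat_lit 16) (.e (nat_lit 286733) (nat_lit 2) (.e (nat_lit 90178) (nat_lit 15) .nil)))))) (.g (nat_lit 1) (.e (nat_lit 208427) (nat_lit 0) .nil) .nil))))) (.nd (nat_lit 8) (.nd (nat_lit 9) 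
(.lf (nat_lit 514213) (.g (nat_lit 439) (.e (nat_lit 180287) (nat_lit 45) (.e (nat_lit 2580) (nat_lit 161) (.e (nat_lit 40964) (nat_lit 0) (.e (nat_lit 1574) (nat_lit 110) (.e (nat_lit 360192) (nat_lit 2) (.e (nat_lit 204544) (nat_lit 5) .nil)))))) (.g (nat_lit 1) (.e (nat_lit 206011) (nat_lit 0) .nil) .nil))) 
(.lf (nat_lit 514725) (.g (nat_lit 1622) (.e (nat_lit 188434) (nat_lit 20) (.e (nat_lit 3406) (nat_lit 212) (.e (nat_lit 655378) (nat_lit 4) (.e (nat_lit 172119) (nat_lit 12) (.e (nat_lit 475198) (nat_lit 40) .nil))))) (.g (nat_lit 0) (.e (nat_lit 208016) (nat_lit 0) .nil) .nil)))) (.nd (nat_lit 9) 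
(.lf (nat_lit 514469) (.g (nat_lit 949) (.e (nat_lit 196352) (nat_lit 0) (.e (nat_lit 2031) (nat_lit 140) (.e (nat_lit 688184) (nat_lit 18) (.e (nat_lit 89856) (nat_lit 0) .nil)))) (.g (nat_lit 0) (.e (nat_lit 206462) (nat_lit 0) .nil) .nil))) 
(.lf (nat_lit 514981) (.g (nat_lit 2437) (.e (nat_lit 188439) (nat_lit 20) (.e (nat_lit 3408) (nat_lit 212) (.e (nat_lit 655364) (nat_lit 0) (.e (nat_lit 2988) (nat_lit 186) (.e (nat_lit 442374) (nat_lit 0) (.e (nat_lit 2059) (nat_lit 142) (.e (nat_lit 704598) (nat_lit 6) .nil))))))) (.g (nat_lit 1) (.e (nat_lit 208773) (nat_lit 0) .nil) .nil)))))) 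
(.nd (nat_lit 7) (.nd (nat_lit 8) (.nd (nat_lit 9) 
(.lf (nat_lit 514149) (.g (nat_lit 256) (.e (nat_lit 180284) (nat_lit 45) (.e (nat_lit 2579) (nat_lit 161) (.e (nat_lit 40965) (nat_lit 0) (.e (nat_lit 1568) (nat_lit 110) .nil)))) (.g (nat_lit 0) (.e (nat_lit 205753) (nat_lit 0) .nil) .nil))) 
(.lf (nat_lit 514661) (.g (nat_lit 2252) (.e (nat_lit 188431) (nat_lit 20) (.e (nat_lit 3397) (nat_lit 211) (.e (nat_lit 647183) (nat_lit 4) (.e (nat_lit 172118) (nat_lit 12) (.e (nat_lit 475198) (nat_lit 40) (.e (nat_lit 712448) (nat_lit 6) .nil)))))) (.g (nat_lit 1) (.e (nat_lit 207676) (nat_lit 0) .nil) .nil)))) (.nd (nat_lit 9) 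
(.lf (nat_lit 514405) (.g (nat_lit 1459) (.e (nat_lit 188420) (nat_lit 0) (.e (nat_lit 2173) (nat_lit 143) (.e (nat_lit 712752) (nat_lit 29) (.e (nat_lit 442421) (nat_lit 21) (.e (nat_lit 164345) (nat_lit 240) (.e (nat_lit 2648) (nat_lit 166) .nil)))))) (.g (nat_lit 1) (.e (nat_lit 206378) (nat_lit 0) .nil) .nil))) 
(.lf (nat_lit 514917) (.g (nat_lit 1715) (.e (nat_lit 188438) (nat_lit 20) (.e (nat_lit 3469) (nat_lit 217) (.e (nat_lit 696344) (nat_lit 8) (.e (nat_lit 172115) (nat_lit 10) (.e (nat_lit 434286) (nat_lit 42) .nil))))) (.g (nat_lit 0) (.e (nat_lit 208582) (nat_lit 0) .nil) .nil))))) (.nd (nat_lit 8) (.nd (nat_lit 9) 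
(.lf (nat_lit 514277) (.g (nat_lit 2291) (.e (nat_lit 188417) (nat_lit 0) (.e (nat_lit 2148) (nat_lit 142) (.e (nat_lit 704597) (nat_lit 6) (.e (nat_lit 188446) (nat_lit 21) (.e (nat_lit 164347) (nat_lit 240) (.e (nat_lit 2648) (nat_lit 166) .nil)))))) (.g (nat_lit 1) (.e (nat_lit 206231) (nat_lit 0) .nil) .nil))) 
(.lf (nat_lit 514789) (.g (nat_lit 568) (.e (nat_lit 188435) (nat_lit 20) (.e (nat_lit 3289) (nat_lit 201) (.e (nat_lit 565268) (nat_lit 5) (.e (nat_lit 73789) (nat_lit 45) (.e (nat_lit 1161) (nat_lit 86) .nil))))) (.g (nat_lit 0) (.e (nat_lit 208291) (nat_lit 0) .nil) .nil)))) (.nd (nat_lit 9) 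
(.lf (nat_lit 514533) (.g (nat_lit 2852) (.e (nat_lit 188423) (nat_lit 11) (.e (nat_lit 335996) (nat_lit 1) (.e (nat_lit 57691) (nat_lit 156) (.e (nat_lit 163907) (nat_lit 12) (.e (nat_lit 426427) (nat_lit 17) .nil))))) (.g (nat_lit 0) (.e (nat_lit 207016) (nat_lit 0) .nil) .nil))) 
(.lf (nat_lit 515045) (.g (nat_lit 2640) (.e (nat_lit 188439) (nat_lit 20) (.e (nat_lit 3469) (nat_lit 217) (.e (nat_lit 696344) (nat_lit 8) (.e (nat_lit 172115) (nat_lit 10) (.e (nat_lit 434286) (nat_lit 42) (.e (nat_lit 696064) (nat_lit 10) .nil)))))) (.g (nat_lit 1) (.e (nat_lit 208955) (nat_lit 0) .nil) .nil)))))))) 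
(.nd (nat_lit 5) (.nd (nat_lit 6) (.nd (nat_lit 7) (.nd (nat_lit 8) (.nd (nat_lit 9) 
(.lf (nat_lit 514069) (.g (nat_lit 1153) (.e (nat_lit 188160) (nat_lit 32) (.e (nat_lit 1648) (nat_lit 115) (.e (nat_lit 393294) (nat_lit 26) (.e (nat_lit 475196) (nat_lit 40) (.e (nat_lit 704596) (nat_lit 5) .nil))))) (.g (nat_lit 0) (.e (nat_lit 205440) (nat_lit 0) .nil) .nil))) 
(.lf (nat_lit 514581) (.g (nat_lit 1606) (.e (nat_lit 196352) (nat_lit 16) (.e (nat_lit 376860) (nat_lit 21) (.e (nat_lit 57852) (nat_lit 252) (.e (nat_lit 57345) (nat_lit 0) .nil)))) (.g (nat_lit 0) (.e (nat_lit 207321) (nat_lit 0) .nil) .nil)))) (.nd (nat_lit 9) 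
(.lf (nat_lit 514325) (.g (nat_lit 1436) (.e (nat_lit 188418) (nat_lit 0) (.e (nat_lit 2174) (nat_lit 143) (.e (nat_lit 712750) (nat_lit 29) (.e (nat_lit 442371) (nat_lit 0) (.e (nat_lit 2148) (nat_lit 142) (.e (nat_lit 704597) (nat_lit 6) .nil)))))) (.g (nat_lit 1) (.e (nat_lit 206292) (nat_lit 0) .nil) .nil))) 
(.lf (nat_lit 514837) (.g (nat_lit 2613) (.e (nat_lit 188435) (nat_lit 20) (.e (nat_lit 3469) (nat_lit 217) (.e (nat_lit 696344) (nat_lit 8) (.e (nat_lit 172113) (nat_lit 10) (.e (nat_lit 434207) (nat_lit 18) (.e (nat_lit 6252) (nat_lit 337) (.e (nat_lit 7936) (nat_lit 166) .nil))))))) (.g (nat_lit 1) (.e (nat_lit 208404) (nat_lit 0) .nil) .nil))))) (.nd (nat_lit 8) (.nd (nat_lit 9) 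
(.lf (nat_lit 514197) (.g (nat_lit 1263) (.e (nat_lit 180287) (nat_lit 45) (.e (nat_lit 2577) (nat_lit 161) (.e (nat_lit 40965) (nat_lit 0) (.e (nat_lit 1582) (nat_lit 111) (.e (nat_lit 360477) (nat_lit 11) (.e (nat_lit 581652) (nat_lit 5) .nil)))))) (.g (nat_lit 1) (.e (nat_lit 205995) (nat_lit 0) .nil) .nil))) 
(.lf (nat_lit 514709) (.g (nat_lit 2052) (.e (nat_lit 188434) (nat_lit 20) (.e (nat_lit 3289) (nat_lit 201) (.e (nat_lit 565251) (nat_lit 0) (.e (nat_lit 1586) (nat_lit 111) (.e (nat_lit 360451) (nat_lit 0) (.e (nat_lit 7686) (nat_lit 410) (.e (nat_lit 7936) (nat_lit 166) .nil))))))) (.g (nat_lit 1) (.e (nat_lit 207913) (nat_lit 0) .nil) .nil)))) (.nd (nat_lit 9) 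
(.lf (nat_lit 514453) (.g (nat_lit 1830) (.e (nat_lit 196352) (nat_lit 0) (.e (nat_lit 1853) (nat_lit 124) (.e (nat_lit 557097) (nat_lit 13) (.e (nat_lit 172115) (nat_lit 10) (.e (nat_lit 434238) (nat_lit 25) .nil))))) (.g (nat_lit 0) (.e (nat_lit 206443) (nat_lit 0) .nil) .nil))) 
(.lf (nat_lit 514965) (.g (nat_lit 1312) (.e (nat_lit 188439) (nat_lit 20) (.e (nat_lit 3406) (nat_lit 212) (.e (nat_lit 655363) (nat_lit 0) (.e (nat_lit 3004) (nat_lit 186) (.e (nat_lit 450304) (nat_lit 4) .nil))))) (.g (nat_lit 0) (.e (nat_lit 208709) (nat_lit 0) .nil) .nil)))))) (.nd (nat_lit 7) (.nd (nat_lit 8) (.nd (nat_lit 9) 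
(.lf (nat_lit 514133) (.g (nat_lit 1511) (.e (nat_lit 188160) (nat_lit 40) (.e (nat_lit 232) (nat_lit 21) (.e (nat_lit 336060) (nat_lit 7) (.e (nat_lit 319531) (nat_lit 16) .nil)))) (.g (nat_lit 0) (.e (nat_lit 205670) (nat_lit 0) .nil) .nil))) 
(.lf (nat_lit 514645) (.g (nat_lit 1121) (.e (nat_lit 188430) (nat_lit 20) (.e (nat_lit 3399) (nat_lit 211) (.e (nat_lit 647185) (nat_lit 6) (.e (nat_lit 188435) (nat_lit 20) (.e (nat_lit 3408) (nat_lit 212) (.e (nat_lit 655380) (nat_lit 6) .nil)))))) (.g (nat_lit 1) (.e (nat_lit 207623) (nat_lit 0) .nil) .nil)))) (.nd (nat_lit 9) 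
(.lf (nat_lit 514389) (.g (nat_lit 2756) (.e (nat_lit 188420) (nat_lit 0) (.e (nat_lit 2058) (nat_lit 142) (.e (nat_lit 704598) (nat_lit 6) (.e (nat_lit 188446) (nat_lit 21) (.e (nat_lit 164347) (nat_lit 240) (.e (nat_lit 2648) (nat_lit 166) .nil)))))) (.g (nat_lit 1) (.e (nat_lit 206362) (nat_lit 0) .nil) .nil))) 
(.lf (nat_lit 514901) (.g (nat_lit 1244) (.e (nat_lit 188438) (nat_lit 20) (.e (nat_lit 3409) (nat_lit 212) (.e (nat_lit 655380) (nat_lit 6) (.e (nat_lit 188439) (nat_lit 20) (.e (nat_lit 3409) (nat_lit 212) (.e (nat_lit 655380) (nat_lit 6) .nil)))))) (.g (nat_lit 1) (.e (nat_lit 208528) (nat_lit 0) .nil) .nil))))) (.nd (nat_lit 8) (.nd (nat_lit 9) 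
(.lf (nat_lit 514261) (.g (nat_lit 1514) (.e (nat_lit 188416) (nat_lit 0) (.e (nat_lit 2147) (nat_lit 142) (.e (nat_lit 704597) (nat_lit 6) (.e (nat_lit 188444) (nat_lit 21) (.e (nat_lit 164346) (nat_lit 240) (.e (nat_lit 2648) (nat_lit 166) .nil)))))) (.g (nat_lit 1) (.e (nat_lit 206197) (nat_lit 0) .nil) .nil))) 
(.lf (nat_lit 514773) (.g (nat_lit 2726) (.e (nat_lit 188434) (nat_lit 20) (.e (nat_lit 3469) (nat_lit 217) (.e (nat_lit 696344) (nat_lit 8) (.e (nat_lit 172115) (nat_lit 10) (.e (nat_lit 434202) (nat_lit 18) (.e (nat_lit 6250) (nat_lit 337) (.e (nat_lit 7936) (nat_lit 166) .nil))))))) (.g (nat_lit 1) (.e (nat_lit 208235) (nat_lit 0) .nil) .nil)))) (.nd (nat_lit 9) 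
(.lf (nat_lit 514517) (.g (nat_lit 2751) (.e (nat_lit 188423) (nat_lit 11) (.e (nat_lit 335986) (nat_lit 1) (.e (nat_lit 57688) (nat_lit 156) (.e (nat_lit 163907) (nat_lit 12) (.e (nat_lit 426432) (nat_lit 17) .nil))))) (.g (nat_lit 0) (.e (nat_lit 207000) (nat_lit 0) .nil) .nil))) 
(.lf (nat_lit 515029) (.g (nat_lit 2241) (.e (nat_lit 188439) (nat_lit 20) (.e (nat_lit 3469) (nat_lit 217) (.e (nat_lit 696344) (nat_lit 8) (.e (nat_lit 172107) (nat_lit 10) (.e (nat_lit 434286) (nat_lit 42) (.e (nat_lit 696064) (nat_lit 10) .nil)))))) (.g (nat_lit 1) (.e (nat_lit 208939) (nat_lit 0) .nil) .nil))))))) (.nd (nat_lit 6) (.nd (nat_lit 7) (.nd (nat_lit 8) (.nd (nat_lit 9) 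
(.lf (nat_lit 514101) (.g (nat_lit 2120) (.e (nat_lit 188160) (nat_lit 35) (.e (nat_lit 57464) (nat_lit 23) (.e (nat_lit 516151) (nat_lit 9) (.e (nat_lit 426282) (nat_lit 10) .nil)))) (.g (nat_lit 0) (.e (nat_lit 205540) (nat_lit 0) .nil) .nil))) 
(.lf (nat_lit 514613) (.g (nat_lit 64) (.e (nat_lit 188427) (nat_lit 20) (.e (nat_lit 2402) (nat_lit 157) (.e (nat_lit 5604) (nat_lit 310) .nil))) (.g (nat_lit 0) (.e (nat_lit 207409) (nat_lit 0) .nil) .nil)))) (.nd (nat_lit 9) 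
(.lf (nat_lit 514357) (.g (nat_lit 2454) (.e (nat_lit 188419) (nat_lit 0) (.e (nat_lit 2057) (nat_lit 142) (.e (nat_lit 704598) (nat_lit 6) (.e (nat_lit 188446) (nat_lit 21) (.e (nat_lit 164347) (nat_lit 240) (.e (nat_lit 2650) (nat_lit 166) .nil)))))) (.g (nat_lit 1) (.e (nat_lit 206328) (nat_lit 0) .nil) .nil))) 
(.lf (nat_lit 514869) (.g (nat_lit 3795) (.e (nat_lit 188438) (nat_lit 20) (.e (nat_lit 3270) (nat_lit 199) (.e (nat_lit 548913) (nat_lit 18) (.e (nat_lit 172120) (nat_lit 12) (.e (nat_lit 475183) (nat_lit 29) .nil))))) (.g (nat_lit 0) (.e (nat_lit 208475) (nat_lit 0) .nil) .nil))))) (.nd (nat_lit 8) (.nd (nat_lit 9) 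
(.lf (nat_lit 514229) (.g (nat_lit 732) (.e (nat_lit 180288) (nat_lit 45) (.e (nat_lit 2579) (nat_lit 161) (.e (nat_lit 40964) (nat_lit 0) (.e (nat_lit 1597) (nat_lit 111) (.e (nat_lit 368384) (nat_lit 10) (.e (nat_lit 581376) (nat_lit 5) .nil)))))) (.g (nat_lit 1) (.e (nat_lit 206080) (nat_lit 0) .nil) .nil))) 
(.lf (nat_lit 514741) (.g (nat_lit 2615) (.e (nat_lit 188434) (nat_lit 20) (.e (nat_lit 3467) (nat_lit 217) (.e (nat_lit 696343) (nat_lit 8) (.e (nat_lit 172106) (nat_lit 10) (.e (nat_lit 434209) (nat_lit 18) (.e (nat_lit 6272) (nat_lit 337) (.e (nat_lit 2645) (nat_lit 166) .nil))))))) (.g (nat_lit 1) (.e (nat_lit 208075) (nat_lit 0) .nil) .nil)))) (.nd (nat_lit 9) 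
(.lf (nat_lit 514485) (.g (nat_lit 1227) (.e (nat_lit 188421) (nat_lit 11) (.e (nat_lit 335988) (nat_lit 1) (.e (nat_lit 57689) (nat_lit 156) .nil))) (.g (nat_lit 0) (.e (nat_lit 206618) (nat_lit 0) .nil) .nil))) 
(.lf (nat_lit 514997) (.g (nat_lit 3296) (.e (nat_lit 188439) (nat_lit 20) (.e (nat_lit 3409) (nat_lit 212) (.e (nat_lit 655378) (nat_lit 4) (.e (nat_lit 172106) (nat_lit 10) (.e (nat_lit 434209) (nat_lit 18) (.e (nat_lit 5547) (nat_lit 306) (.e (nat_lit 2648) (nat_lit 166) .nil))))))) (.g (nat_lit 1) (.e (nat_lit 208823) (nat_lit 0) .nil) .nil)))))) 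
(.nd (nat_lit 7) (.nd (nat_lit 8) (.nd (nat_lit 9) 
(.lf (nat_lit 514165) (.g (nat_lit 2776) (.e (nat_lit 180285) (nat_lit 45) (.e (nat_lit 2569) (nat_lit 160) (.e (nat_lit 32807) (nat_lit 18) (.e (nat_lit 172120) (nat_lit 12) (.e (nat_lit 475185) (nat_lit 29) (.e (nat_lit 557105) (nat_lit 14) .nil)))))) (.g (nat_lit 1) (.e (nat_lit 205801) (nat_lit 0) .nil) .nil))) 
(.lf (nat_lit 514677) (.g (nat_lit 2678) (.e (nat_lit 188431) (nat_lit 20) (.e (nat_lit 3399) (nat_lit 211) (.e (nat_lit 647185) (nat_lit 6) (.e (nat_lit 188455) (nat_lit 24) (.e (nat_lit 229665) (nat_lit 240) (.e (nat_lit 2651) (nat_lit 166) .nil)))))) (.g (nat_lit 1) (.e (nat_lit 207697) (nat_lit 0) .nil) .nil)))) (.nd (nat_lit 9) 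
(.lf (nat_lit 514421) (.g (nat_lit 1546) (.e (nat_lit 188420) (nat_lit 0) (.e (nat_lit 2174) (nat_lit 143) (.e (nat_lit 712755) (nat_lit 30) (.e (nat_lit 450562) (nat_lit 0) (.e (nat_lit 7936) (nat_lit 306) .nil))))) (.g (nat_lit 0) (.e (nat_lit 206405) (nat_lit 0) .nil) .nil))) 
(.lf (nat_lit 514933) (.g (nat_lit 1625) (.e (nat_lit 188439) (nat_lit 20) (.e (nat_lit 3272) (nat_lit 199) (.e (nat_lit 548913) (nat_lit 18) (.e (nat_lit 172033) (nat_lit 0) (.e (nat_lit 7557) (nat_lit 402) .nil))))) (.g (nat_lit 0) (.e (nat_lit 208613) (nat_lit 0) .nil) .nil))))) (.nd (nat_lit 8) (.nd (nat_lit 9) 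
(.lf (nat_lit 514293) (.g (nat_lit 1920) (.e (nat_lit 188418) (nat_lit 0) (.e (nat_lit 1856) (nat_lit 124) (.e (nat_lit 557104) (nat_lit 14) (.e (nat_lit 180284) (nat_lit 45) (.e (nat_lit 2570) (nat_lit 160) (.e (nat_lit 32809) (nat_lit 20) .nil)))))) (.g (nat_lit 1) (.e (nat_lit 206253) (nat_lit 0) .nil) .nil))) 
(.lf (nat_lit 514805) (.g (nat_lit 913) (.e (nat_lit 188435) (nat_lit 20) (.e (nat_lit 3408) (nat_lit 212) (.e (nat_lit 655364) (nat_lit 0) (.e (nat_lit 2989) (nat_lit 186) (.e (nat_lit 450304) (nat_lit 4) (.e (nat_lit 114432) (nat_lit 6) .nil)))))) (.g (nat_lit 1) (.e (nat_lit 208316) (nat_lit 0) .nil) .nil)))) (.nd (nat_lit 9) 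
(.lf (nat_lit 514549) (.g (nat_lit 1910) (.e (nat_lit 188423) (nat_lit 11) (.e (nat_lit 336385) (nat_lit 27) (.e (nat_lit 426098) (nat_lit 1) (.e (nat_lit 164399) (nat_lit 256) (.e (nat_lit 57371) (nat_lit 2) .nil))))) (.g (nat_lit 0) (.e (nat_lit 207259) (nat_lit 0) .nil) .nil))) 
(.lf (nat_lit 515061) (.g (nat_lit 1143) (.e (nat_lit 188440) (nat_lit 20) (.e (nat_lit 3272) (nat_lit 199) (.e (nat_lit 548913) (nat_lit 18) (.e (nat_lit 172119) (nat_lit 12) .nil)))) (.g (nat_lit 0) (.e (nat_lit 209001) (nat_lit 0) .nil) .nil))))))))) (.nd (nat_lit 4) (.nd (nat_lit 5) (.nd (nat_lit 6) (.nd (nat_lit 7) (.nd (nat_lit 8) (.nd (nat_lit 9) 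
(.lf (nat_lit 514061) (.g (nat_lit 1219) (.e (nat_lit 188160) (nat_lit 32) (.e (nat_lit 1454) (nat_lit 108) (.e (nat_lit 336389) (nat_lit 27) (.e (nat_lit 426308) (nat_lit 12) .nil)))) (.g (nat_lit 0) (.e (nat_lit 205429) (nat_lit 0) .nil) .nil))) 
(.lf (nat_lit 514573) (.g (nat_lit 2174) (.e (nat_lit 196352) (nat_lit 11) (.e (nat_lit 336390) (nat_lit 27) (.e (nat_lit 426100) (nat_lit 1) (.e (nat_lit 164398) (nat_lit 256) (.e (nat_lit 57373) (nat_lit 2) .nil))))) (.g (nat_lit 0) (.e (nat_lit 207299) (nat_lit 0) .nil) .nil)))) (.nd (nat_lit 9) 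
(.lf (nat_lit 514317) (.g (nat_lit 1973) (.e (nat_lit 188418) (nat_lit 0) (.e (nat_lit 2059) (nat_lit 142) (.e (nat_lit 704599) (nat_lit 6) (.e (nat_lit 188440) (nat_lit 20) (.e (nat_lit 3408) (nat_lit 212) (.e (nat_lit 655380) (nat_lit 6) .nil)))))) (.g (nat_lit 1) (.e (nat_lit 206281) (nat_lit 0) .nil) .nil))) 
(.lf (nat_lit 514829) (.g (nat_lit 2336) (.e (nat_lit 188435) (nat_lit 20) (.e (nat_lit 3469) (nat_lit 217) (.e (nat_lit 696344) (nat_lit 8) (.e (nat_lit 172106) (nat_lit 10) (.e (nat_lit 434286) (nat_lit 42) (.e (nat_lit 696064) (nat_lit 10) .nil)))))) (.g (nat_lit 1) (.e (nat_lit 208396) (nat_lit 0) .nil) .nil))))) (.nd (nat_lit 8) (.nd (nat_lit 9) 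
(.lf (nat_lit 514189) (.g (nat_lit 1098) (.e (nat_lit 180285) (nat_lit 45) (.e (nat_lit 2580) (nat_lit 161) (.e (nat_lit 40965) (nat_lit 0) (.e (nat_lit 1597) (nat_lit 111) (.e (nat_lit 368384) (nat_lit 10) (.e (nat_lit 581376) (nat_lit 5) .nil)))))) (.g (nat_lit 1) (.e (nat_lit 205874) (nat_lit 0) .nil) .nil))) 
(.lf (nat_lit 514701) (.g (nat_lit 1004) (.e (nat_lit 188434) (nat_lit 20) (.e (nat_lit 3252) (nat_lit 197) (.e (nat_lit 532568) (nat_lit 16) (.e (nat_lit 401451) (nat_lit 12) .nil)))) (.g (nat_lit 0) (.e (nat_lit 207889) (nat_lit 0) .nil) .nil)))) (.nd (nat_lit 9) 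
(.lf (nat_lit 514445) (.g (nat_lit 2846) (.e (nat_lit 188420) (nat_lit 0) (.e (nat_lit 2175) (nat_lit 143) (.e (nat_lit 712755) (nat_lit 30) (.e (nat_lit 450566) (nat_lit 0) (.e (nat_lit 5548) (nat_lit 306) (.e (nat_lit 2648) (nat_lit 166) .nil)))))) (.g (nat_lit 1) (.e (nat_lit 206432) (nat_lit 0) .nil) .nil))) 
(.lf (nat_lit 514957) (.g (nat_lit 1881) (.e (nat_lit 188439) (nat_lit 20) (.e (nat_lit 3390) (nat_lit 210) (.e (nat_lit 639004) (nat_lit 13) (.e (nat_lit 1615) (nat_lit 113) (.e (nat_lit 376860) (nat_lit 21) (.e (nat_lit 57830) (nat_lit 250) (.e (nat_lit 7936) (nat_lit 166) .nil))))))) (.g (nat_lit 1) (.e (nat_lit 208672) (nat_lit 0) .nil) .nil)))))) 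
(.nd (nat_lit 7) (.nd (nat_lit 8) (.nd (nat_lit 9) 
(.lf (nat_lit 514125) (.g (nat_lit 1233) (.e (nat_lit 188160) (nat_lit 39) (.e (nat_lit 131140) (nat_lit 27) (.e (nat_lit 426200) (nat_lit 9) (.e (nat_lit 426444) (nat_lit 19) (.e (nat_lit 114432) (nat_lit 5) .nil))))) (.g (nat_lit 0) (.e (nat_lit 205654) (nat_lit 0) .nil) .nil))) 
(.lf (nat_lit 514637) (.g (nat_lit 1812) (.e (nat_lit 188428) (nat_lit 20) (.e (nat_lit 3402) (nat_lit 211) (.e (nat_lit 647183) (nat_lit 4) (.e (nat_lit 172120) (nat_lit 12) (.e (nat_lit 475197) (nat_lit 40) (.e (nat_lit 712448) (nat_lit 6) .nil)))))) (.g (nat_lit 1) (.e (nat_lit 207538) (nat_lit 0) .nil) .nil)))) (.nd (nat_lit 9) 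
(.lf (nat_lit 514381) (.g (nat_lit 1400) (.e (nat_lit 188420) (nat_lit 0) (.e (nat_lit 2056) (nat_lit 142) (.e (nat_lit 704599) (nat_lit 6) (.e (nat_lit 188440) (nat_lit 20) (.e (nat_lit 3409) (nat_lit 212) (.e (nat_lit 655380) (nat_lit 6) .nil)))))) (.g (nat_lit 1) (.e (nat_lit 206353) (nat_lit 0) .nil) .nil))) 
(.lf (nat_lit 514893) (.g (nat_lit 1479) (.e (nat_lit 188438) (nat_lit 20) (.e (nat_lit 3407) (nat_lit 212) (.e (nat_lit 655380) (nat_lit 6) (.e (nat_lit 188434) (nat_lit 20) (.e (nat_lit 3409) (nat_lit 212) (.e (nat_lit 655380) (nat_lit 6) .nil)))))) (.g (nat_lit 1) (.e (nat_lit 208516) (nat_lit 0) .nil) .nil))))) (.nd (nat_lit 8) (.nd (nat_lit 9) 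
(.lf (nat_lit 514253) (.g (nat_lit 229) (.e (nat_lit 188416) (nat_lit 0) (.e (nat_lit 2146) (nat_lit 142) (.e (nat_lit 704597) (nat_lit 6) .nil))) (.g (nat_lit 0) (.e (nat_lit 206188) (nat_lit 0) .nil) .nil))) 
(.lf (nat_lit 514765) (.g (nat_lit 2555) (.e (nat_lit 188434) (nat_lit 20) (.e (nat_lit 3469) (nat_lit 217) (.e (nat_lit 696344) (nat_lit 8) (.e (nat_lit 172113) (nat_lit 10) (.e (nat_lit 434207) (nat_lit 18) (.e (nat_lit 6250) (nat_lit 337) (.e (nat_lit 7936) (nat_lit 166) .nil))))))) (.g (nat_lit 1) (.e (nat_lit 208227) (nat_lit 0) .nil) .nil)))) (.nd (nat_lit 9) 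
(.lf (nat_lit 514509) (.g (nat_lit 2245) (.e (nat_lit 188422) (nat_lit 11) (.e (nat_lit 335995) (nat_lit 1) (.e (nat_lit 57688) (nat_lit 156) (.e (nat_lit 163905) (nat_lit 12) (.e (nat_lit 426428) (nat_lit 17) .nil))))) (.g (nat_lit 0) (.e (nat_lit 206887) (nat_lit 0) .nil) .nil))) 
(.lf (nat_lit 515021) (.g (nat_lit 1547) (.e (nat_lit 188439) (nat_lit 20) (.e (nat_lit 3469) (nat_lit 217) (.e (nat_lit 696344) (nat_lit 8) (.e (nat_lit 172105) (nat_lit 10) (.e (nat_lit 434286) (nat_lit 42) .nil))))) (.g (nat_lit 0) (.e (nat_lit 208931) (nat_lit 0) .nil) .nil))))))) (.nd (nat_lit 6) (.nd (nat_lit 7) (.nd (nat_lit 8) (.nd (nat_lit 9) 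
(.lf (nat_lit 514093) (.g (nat_lit 264) (.e (nat_lit 188160) (nat_lit 35) (.e (nat_lit 57454) (nat_lit 21) (.e (nat_lit 499927) (nat_lit 10) .nil))) (.g (nat_lit 0) (.e (nat_lit 205528) (nat_lit 0) .nil) .nil))) 
(.lf (nat_lit 514605) (.g (nat_lit 2726) (.e (nat_lit 188424) (nat_lit 20) (.e (nat_lit 3307) (nat_lit 202) (.e (nat_lit 573475) (nat_lit 12) (.e (nat_lit 57574) (nat_lit 55) .nil)))) (.g (nat_lit 0) (.e (nat_lit 207384) (nat_lit 0) .nil) .nil)))) (.nd (nat_lit 9) 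
(.lf (nat_lit 514349) (.g (nat_lit 2293) (.e (nat_lit 188418) (nat_lit 0) (.e (nat_lit 2175) (nat_lit 143) (.e (nat_lit 712755) (nat_lit 30) (.e (nat_lit 450563) (nat_lit 0) (.e (nat_lit 5539) (nat_lit 306) (.e (nat_lit 7936) (nat_lit 166) .nil)))))) (.g (nat_lit 1) (.e (nat_lit 206320) (nat_lit 0) .nil) .nil))) 
(.lf (nat_lit 514861) (.g (nat_lit 2726) (.e (nat_lit 188437) (nat_lit 20) (.e (nat_lit 3238) (nat_lit 197) (.e (nat_lit 532523) (nat_lit 7) (.e (nat_lit 319530) (nat_lit 16) (.e (nat_lit 286733) (nat_lit 2) .nil))))) (.g (nat_lit 0) (.e (nat_lit 208451) (nat_lit 0) .nil) .nil))))) (.nd (nat_lit 8) (.nd (nat_lit 9) 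
(.lf (nat_lit 514221) (.g (nat_lit 333) (.e (nat_lit 180287) (nat_lit 45) (.e (nat_lit 2580) (nat_lit 161) (.e (nat_lit 40965) (nat_lit 0) (.e (nat_lit 1585) (nat_lit 111) (.e (nat_lit 368384) (nat_lit 10) (.e (nat_lit 581376) (nat_lit 5) .nil)))))) (.g (nat_lit 1) (.e (nat_lit 206019) (nat_lit 0) .nil) .nil))) 
(.lf (nat_lit 514733) (.g (nat_lit 1291) (.e (nat_lit 188434) (nat_lit 20) (.e (nat_lit 3409) (nat_lit 212) (.e (nat_lit 655364) (nat_lit 0) (.e (nat_lit 2989) (nat_lit 186) (.e (nat_lit 450304) (nat_lit 4) (.e (nat_lit 114432) (nat_lit 6) .nil)))))) (.g (nat_lit 1) (.e (nat_lit 208042) (nat_lit 0) .nil) .nil)))) (.nd (nat_lit 9) 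
(.lf (nat_lit 514477) (.g (nat_lit 847) (.e (nat_lit 196352) (nat_lit 7) (.e (nat_lit 139280) (nat_lit 4) (.e (nat_lit 65583) (nat_lit 7) (.e (nat_lit 319499) (nat_lit 10) (.e (nat_lit 728) (nat_lit 66) .nil))))) (.g (nat_lit 0) (.e (nat_lit 206481) (nat_lit 0) .nil) .nil))) 
(.lf (nat_lit 514989) (.g (nat_lit 1229) (.e (nat_lit 188439) (nat_lit 20) (.e (nat_lit 3408) (nat_lit 212) (.e (nat_lit 655380) (nat_lit 6) (.e (nat_lit 188441) (nat_lit 20) (.e (nat_lit 3406) (nat_lit 212) (.e (nat_lit 655380) (nat_lit 6) .nil)))))) (.g (nat_lit 1) (.e (nat_lit 208799) (nat_lit 0) .nil) .nil)))))) (.nd (nat_lit 7) (.nd (nat_lit 8) (.nd (nat_lit 9) 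
(.lf (nat_lit 514157) (.g (nat_lit 566) (.e (nat_lit 180284) (nat_lit 45) (.e (nat_lit 2580) (nat_lit 161) (.e (nat_lit 40964) (nat_lit 0) (.e (nat_lit 1597) (nat_lit 111) (.e (nat_lit 368384) (nat_lit 10) (.e (nat_lit 581376) (nat_lit 5) .nil)))))) (.g (nat_lit 1) (.e (nat_lit 205761) (nat_lit 0) .nil) .nil))) 
(.lf (nat_lit 514669) (.g (nat_lit 2269) (.e (nat_lit 188431) (nat_lit 20) (.e (nat_lit 3399) (nat_lit 211) (.e (nat_lit 647183) (nat_lit 4) (.e (nat_lit 172094) (nat_lit 9) (.e (nat_lit 426025) (nat_lit 0) (.e (nat_lit 3397) (nat_lit 211) (.e (nat_lit 647185) (nat_lit 6) .nil))))))) (.g (nat_lit 1) (.e (nat_lit 207688) (nat_lit 0) .nil) .nil)))) (.nd (nat_lit 9) 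
(.lf (nat_lit 514413) (.g (nat_lit 1349) (.e (nat_lit 188420) (nat_lit 0) (.e (nat_lit 2174) (nat_lit 143) (.e (nat_lit 712752) (nat_lit 29) (.e (nat_lit 442428) (nat_lit 24) .nil)))) (.g (nat_lit 0) (.e (nat_lit 206394) (nat_lit 0) .nil) .nil))) 
(.lf (nat_lit 514925) (.g (nat_lit 1231) (.e (nat_lit 188438) (nat_lit 20) (.e (nat_lit 3579) (nat_lit 223) (.e (nat_lit 745490) (nat_lit 4) (.e (nat_lit 65610) (nat_lit 10) (.e (nat_lit 344138) (nat_lit 29) .nil))))) (.g (nat_lit 0) (.e (nat_lit 208591) (nat_lit 0) .nil) .nil))))) (.nd (nat_lit 8) (.nd (nat_lit 9) 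
(.lf (nat_lit 514285) (.g (nat_lit 538) (.e (nat_lit 188418) (nat_lit 0) (.e (nat_lit 1856) (nat_lit 124) (.e (nat_lit 557073) (nat_lit 9) .nil))) (.g (nat_lit 0) (.e (nat_lit 206245) (nat_lit 0) .nil) .nil))) 
(.lf (nat_lit 514797) (.g (nat_lit 1319) (.e (nat_lit 188435) (nat_lit 20) (.e (nat_lit 3407) (nat_lit 212) (.e (nat_lit 655378) (nat_lit 4) (.e (nat_lit 172115) (nat_lit 10) (.e (nat_lit 434271) (nat_lit 38) .nil))))) (.g (nat_lit 0) (.e (nat_lit 208301) (nat_lit 0) .nil) .nil)))) (.nd (nat_lit 9) 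
(.lf (nat_lit 514541) (.g (nat_lit 3251) (.e (nat_lit 188423) (nat_lit 11) (.e (nat_lit 336231) (nat_lit 14) (.e (nat_lit 401446) (nat_lit 10) (.e (nat_lit 434287) (nat_lit 43) (.e (nat_lit 696346) (nat_lit 10) .nil))))) (.g (nat_lit 1) (.e (nat_lit 207165) (nat_lit 0) .nil) .nil))) 
(.lf (nat_lit 515053) (.g (nat_lit 452) (.e (nat_lit 188443) (nat_lit 20) (.e (nat_lit 3304) (nat_lit 202) (.e (nat_lit 581376) (nat_lit 11) .nil))) (.g (nat_lit 0) (.e (nat_lit 208969) (nat_lit 0) .nil) .nil)))))))) (.nd (nat_lit 5) (.nd (nat_lit 6) (.nd (nat_lit 7) (.nd (nat_lit 8) (.nd (nat_lit 9) 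
(.lf (nat_lit 514077) (.g (nat_lit 1929) (.e (nat_lit 188160) (nat_lit 32) (.e (nat_lit 1654) (nat_lit 115) (.e (nat_lit 393291) (nat_lit 26) (.e (nat_lit 475199) (nat_lit 40) (.e (nat_lit 704595) (nat_lit 5) .nil))))) (.g (nat_lit 0) (.e (nat_lit 205448) (nat_lit 0) .nil) .nil))) 
(.lf (nat_lit 514589) (.g (nat_lit 1307) (.e (nat_lit 196352) (nat_lit 18) (.e (nat_lit 393251) (nat_lit 18) (.e (nat_lit 164403) (nat_lit 256) (.e (nat_lit 57370) (nat_lit 2) .nil)))) (.g (nat_lit 0) (.e (nat_lit 207341) (nat_lit 0) .nil) .nil)))) (.nd (nat_lit 9) 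
(.lf (nat_lit 514333) (.g (nat_lit 2355) (.e (nat_lit 188418) (nat_lit 0) (.e (nat_lit 2174) (nat_lit 143) (.e (nat_lit 712755) (nat_lit 30) (.e (nat_lit 450563) (nat_lit 0) (.e (nat_lit 5537) (nat_lit 306) (.e (nat_lit 7936) (nat_lit 166) .nil)))))) (.g (nat_lit 1) (.e (nat_lit 206303) (nat_lit 0) .nil) .nil))) 
(.lf (nat_lit 514845) (.g (nat_lit 313) (.e (nat_lit 188435) (nat_lit 20) (.e (nat_lit 3578) (nat_lit 223) (.e (nat_lit 745475) (nat_lit 0) (.e (nat_lit 1559) (nat_lit 110) .nil)))) (.g (nat_lit 0) (.e (nat_lit 208418) (nat_lit 0) .nil) .nil))))) (.nd (nat_lit 8) (.nd (nat_lit 9) 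
(.lf (nat_lit 514205) (.g (nat_lit 640) (.e (nat_lit 180287) (nat_lit 45) (.e (nat_lit 2579) (nat_lit 161) (.e (nat_lit 40964) (nat_lit 0) (.e (nat_lit 1597) (nat_lit 111) (.e (nat_lit 368384) (nat_lit 10) (.e (nat_lit 581376) (nat_lit 5) .nil)))))) (.g (nat_lit 1) (.e (nat_lit 206003) (nat_lit 0) .nil) .nil))) 
(.lf (nat_lit 514717) (.g (nat_lit 2115) (.e (nat_lit 188434) (nat_lit 20) (.e (nat_lit 3390) (nat_lit 210) (.e (nat_lit 639025) (nat_lit 20) (.e (nat_lit 131116) (nat_lit 9) (.e (nat_lit 335988) (nat_lit 1) (.e (nat_lit 57832) (nat_lit 250) (.e (nat_lit 7936) (nat_lit 166) .nil))))))) (.g (nat_lit 1) (.e (nat_lit 207977) (nat_lit 0) .nil) .nil)))) (.nd (nat_lit 9) 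
(.lf (nat_lit 514461) (.g (nat_lit 1197) (.e (nat_lit 196352) (nat_lit 0) (.e (nat_lit 1860) (nat_lit 124) (.e (nat_lit 557104) (nat_lit 14) (.e (nat_lit 188160) (nat_lit 35) .nil)))) (.g (nat_lit 0) (.e (nat_lit 206451) (nat_lit 0) .nil) .nil))) 
(.lf (nat_lit 514973) (.g (nat_lit 1199) (.e (nat_lit 188439) (nat_lit 20) (.e (nat_lit 3407) (nat_lit 212) (.e (nat_lit 655364) (nat_lit 0) (.e (nat_lit 3004) (nat_lit 186) (.e (nat_lit 450304) (nat_lit 4) (.e (nat_lit 114432) (nat_lit 6) .nil)))))) (.g (nat_lit 1) (.e (nat_lit 208740) (nat_lit 0) .nil) .nil)))))) (.nd (nat_lit 7) (.nd (nat_lit 8) (.nd (nat_lit 9) 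
(.lf (nat_lit 514141) (.g (nat_lit 2167) (.e (nat_lit 188160) (nat_lit 40) (.e (nat_lit 2684) (nat_lit 168) (.e (nat_lit 204846) (nat_lit 24) (.e (nat_lit 319533) (nat_lit 16) (.e (nat_lit 286733) (nat_lit 2) .nil))))) (.g (nat_lit 0) (.e (nat_lit 205694) (nat_lit 0) .nil) .nil))) 
(.lf (nat_lit 514653) (.g (nat_lit 2828) (.e (nat_lit 188431) (nat_lit 20) (.e (nat_lit 3277) (nat_lit 200) (.e (nat_lit 557090) (nat_lit 12) (.e (nat_lit 164038) (nat_lit 55) (.e (nat_lit 786176) (nat_lit 11) .nil))))) (.g (nat_lit 0) (.e (nat_lit 207658) (nat_lit 0) .nil) .nil)))) (.nd (nat_lit 9) 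
(.lf (nat_lit 514397) (.g (nat_lit 3226) (.e (nat_lit 188420) (nat_lit 0) (.e (nat_lit 2058) (nat_lit 142) (.e (nat_lit 704599) (nat_lit 6) (.e (nat_lit 188453) (nat_lit 24) (.e (nat_lit 229665) (nat_lit 240) (.e (nat_lit 2651) (nat_lit 166) .nil)))))) (.g (nat_lit 1) (.e (nat_lit 206370) (nat_lit 0) .nil) .nil))) 
(.lf (nat_lit 514909) (.g (nat_lit 2059) (.e (nat_lit 188438) (nat_lit 20) (.e (nat_lit 3469) (nat_lit 217) (.e (nat_lit 696344) (nat_lit 8) (.e (nat_lit 172106) (nat_lit 10) (.e (nat_lit 434287) (nat_lit 43) .nil))))) (.g (nat_lit 0) (.e (nat_lit 208574) (nat_lit 0) .nil) .nil))))) (.nd (nat_lit 8) (.nd (nat_lit 9) 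
(.lf (nat_lit 514269) (.g (nat_lit 1225) (.e (nat_lit 188417) (nat_lit 0) (.e (nat_lit 2146) (nat_lit 142) (.e (nat_lit 704597) (nat_lit 6) (.e (nat_lit 188418) (nat_lit 0) (.e (nat_lit 2058) (nat_lit 142) (.e (nat_lit 704598) (nat_lit 6) .nil)))))) (.g (nat_lit 1) (.e (nat_lit 206217) (nat_lit 0) .nil) .nil))) 
(.lf (nat_lit 514781) (.g (nat_lit 2216) (.e (nat_lit 188435) (nat_lit 20) (.e (nat_lit 3238) (nat_lit 197) (.e (nat_lit 532523) (nat_lit 7) (.e (nat_lit 319528) (nat_lit 16) (.e (nat_lit 286733) (nat_lit 2) .nil))))) (.g (nat_lit 0) (.e (nat_lit 208258) (nat_lit 0) .nil) .nil)))) (.nd (nat_lit 9) 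
(.lf (nat_lit 514525) (.g (nat_lit 3141) (.e (nat_lit 188423) (nat_lit 11) (.e (nat_lit 335995) (nat_lit 1) (.e (nat_lit 57688) (nat_lit 156) (.e (nat_lit 163902) (nat_lit 12) (.e (nat_lit 426428) (nat_lit 17) (.e (nat_lit 90176) (nat_lit 15) .nil)))))) (.g (nat_lit 1) (.e (nat_lit 207008) (nat_lit 0) .nil) .nil))) 
(.lf (nat_lit 515037) (.g (nat_lit 3037) (.e (nat_lit 188439) (nat_lit 20) (.e (nat_lit 3469) (nat_lit 217) (.e (nat_lit 696344) (nat_lit 8) (.e (nat_lit 172113) (nat_lit 10) (.e (nat_lit 434208) (nat_lit 18) (.e (nat_lit 6250) (nat_lit 337) (.e (nat_lit 7936) (nat_lit 166) .nil))))))) (.g (nat_lit 1) (.e (nat_lit 208947) (nat_lit 0) .nil) .nil))))))) 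
(.nd (nat_lit 6) (.nd (nat_lit 7) (.nd (nat_lit 8) (.nd (nat_lit 9) 
(.lf (nat_lit 514109) (.g (nat_lit 659) (.e (nat_lit 188160) (nat_lit 38) (.e (nat_lit 122936) (nat_lit 23) (.e (nat_lit 516131) (nat_lit 3) (.e (nat_lit 221219) (nat_lit 24) .nil)))) (.g (nat_lit 0) (.e (nat_lit 205614) (nat_lit 0) .nil) .nil))) 
(.lf (nat_lit 514621) (.g (nat_lit 2093) (.e (nat_lit 188427) (nat_lit 20) (.e (nat_lit 3401) (nat_lit 211) (.e (nat_lit 647183) (nat_lit 4) (.e (nat_lit 172120) (nat_lit 12) (.e (nat_lit 475198) (nat_lit 40) (.e (nat_lit 704598) (nat_lit 6) .nil)))))) (.g (nat_lit 1) (.e (nat_lit 207434) (nat_lit 0) .nil) .nil)))) (.nd (nat_lit 9) 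
(.lf (nat_lit 514365) (.g (nat_lit 725) (.e (nat_lit 188420) (nat_lit 0) (.e (nat_lit 1800) (nat_lit 119) (.e (nat_lit 516106) (nat_lit 0) .nil))) (.g (nat_lit 0) (.e (nat_lit 206336) (nat_lit 0) .nil) .nil))) 
(.lf (nat_lit 514877) (.g (nat_lit 2990) (.e (nat_lit 188438) (nat_lit 20) (.e (nat_lit 3307) (nat_lit 202) (.e (nat_lit 573475) (nat_lit 12) (.e (nat_lit 57574) (nat_lit 55) (.e (nat_lit 778465) (nat_lit 11) .nil))))) (.g (nat_lit 0) (.e (nat_lit 208496) (nat_lit 0) .nil) .nil))))) (.nd (nat_lit 8) (.nd (nat_lit 9) 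
(.lf (nat_lit 514237) (.g (nat_lit 526) (.e (nat_lit 180288) (nat_lit 45) (.e (nat_lit 2580) (nat_lit 161) (.e (nat_lit 40964) (nat_lit 0) (.e (nat_lit 1574) (nat_lit 110) (.e (nat_lit 360192) (nat_lit 2) (.e (nat_lit 204544) (nat_lit 5) .nil)))))) (.g (nat_lit 1) (.e (nat_lit 206088) (nat_lit 0) .nil) .nil))) 
(.lf (nat_lit 514749) (.g (nat_lit 1526) (.e (nat_lit 188434) (nat_lit 20) (.e (nat_lit 3469) (nat_lit 217) (.e (nat_lit 696344) (nat_lit 8) (.e (nat_lit 172105) (nat_lit 10) (.e (nat_lit 434286) (nat_lit 42) .nil))))) (.g (nat_lit 0) (.e (nat_lit 208211) (nat_lit 0) .nil) .nil)))) (.nd (nat_lit 9) 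
(.lf (nat_lit 514493) (.g (nat_lit 2572) (.e (nat_lit 188421) (nat_lit 11) (.e (nat_lit 335996) (nat_lit 1) (.e (nat_lit 57691) (nat_lit 156) (.e (nat_lit 163907) (nat_lit 12) (.e (nat_lit 426432) (nat_lit 17) .nil))))) (.g (nat_lit 0) (.e (nat_lit 206626) (nat_lit 0) .nil) .nil))) 
(.lf (nat_lit 515005) (.g (nat_lit 1872) (.e (nat_lit 188439) (nat_lit 20) (.e (nat_lit 3409) (nat_lit 212) (.e (nat_lit 655380) (nat_lit 6) (.e (nat_lit 188431) (nat_lit 20) (.e (nat_lit 3402) (nat_lit 211) (.e (nat_lit 647185) (nat_lit 6) .nil)))))) (.g (nat_lit 1) (.e (nat_lit 208831) (nat_lit 0) .nil) .nil)))))) (.nd (nat_lit 7) (.nd (nat_lit 8) (.nd (nat_lit 9) 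
(.lf (nat_lit 514173) (.g (nat_lit 808) (.e (nat_lit 180285) (nat_lit 45) (.e (nat_lit 2579) (nat_lit 161) (.e (nat_lit 40964) (nat_lit 0) (.e (nat_lit 1597) (nat_lit 111) (.e (nat_lit 368384) (nat_lit 10) (.e (nat_lit 581376) (nat_lit 5) .nil)))))) (.g (nat_lit 1) (.e (nat_lit 205858) (nat_lit 0) .nil) .nil))) 
(.lf (nat_lit 514685) (.g (nat_lit 1878) (.e (nat_lit 188431) (nat_lit 20) (.e (nat_lit 3401) (nat_lit 211) (.e (nat_lit 647185) (nat_lit 6) (.e (nat_lit 188418) (nat_lit 0) (.e (nat_lit 2059) (nat_lit 142) (.e (nat_lit 704598) (nat_lit 6) .nil)))))) (.g (nat_lit 1) (.e (nat_lit 207769) (nat_lit 0) .nil) .nil)))) (.nd (nat_lit 9) 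
(.lf (nat_lit 514429) (.g (nat_lit 1048) (.e (nat_lit 188420) (nat_lit 0) (.e (nat_lit 2175) (nat_lit 143) (.e (nat_lit 712750) (nat_lit 29) (.e (nat_lit 442382) (nat_lit 8) (.e (nat_lit 163584) (nat_lit 6) .nil))))) (.g (nat_lit 1) (.e (nat_lit 206416) (nat_lit 0) .nil) .nil))) 
(.lf (nat_lit 514941) (.g (nat_lit 2392) (.e (nat_lit 188439) (nat_lit 20) (.e (nat_lit 3297) (nat_lit 202) (.e (nat_lit 573471) (nat_lit 11) (.e (nat_lit 16472) (nat_lit 14) (.e (nat_lit 491535) (nat_lit 2) .nil))))) (.g (nat_lit 0) (.e (nat_lit 208640) (nat_lit 0) .nil) .nil))))) (.nd (nat_lit 8) (.nd (nat_lit 9) 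
(.lf (nat_lit 514301) (.g (nat_lit 1316) (.e (nat_lit 188418) (nat_lit 0) (.e (nat_lit 2057) (nat_lit 142) (.e (nat_lit 704598) (nat_lit 6) (.e (nat_lit 188439) (nat_lit 20) (.e (nat_lit 3409) (nat_lit 212) (.e (nat_lit 655380) (nat_lit 6) .nil)))))) (.g (nat_lit 1) (.e (nat_lit 206261) (nat_lit 0) .nil) .nil))) 
(.lf (nat_lit 514813) (.g (nat_lit 1111) (.e (nat_lit 188435) (nat_lit 20) (.e (nat_lit 3408) (nat_lit 212) (.e (nat_lit 655380) (nat_lit 6) (.e (nat_lit 188441) (nat_lit 20) (.e (nat_lit 3406) (nat_lit 212) .nil))))) (.g (nat_lit 0) (.e (nat_lit 208331) (nat_lit 0) .nil) .nil)))) (.nd (nat_lit 9) 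
(.lf (nat_lit 514557) (.g (nat_lit 1058) (.e (nat_lit 188423) (nat_lit 11) (.e (nat_lit 336387) (nat_lit 27) (.e (nat_lit 426107) (nat_lit 1) (.e (nat_lit 164401) (nat_lit 256) (.e (nat_lit 57369) (nat_lit 2) .nil))))) (.g (nat_lit 0) (.e (nat_lit 207269) (nat_lit 0) .nil) .nil))) 
(.lf (nat_lit 515069) (.g (nat_lit 2255) (.e (nat_lit 188440) (nat_lit 20) (.e (nat_lit 3307) (nat_lit 202) (.e (nat_lit 573450) (nat_lit 9) (.e (nat_lit 375) (nat_lit 32) (.e (nat_lit 426173) (nat_lit 7) .nil))))) (.g (nat_lit 0) (.e (nat_lit 209013) (nat_lit 0) .nil) .nil))))))))))) 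
(.nd (nat_lit 2) (.nd (nat_lit 3) (.nd (nat_lit 4) (.nd (nat_lit 5) (.nd (nat_lit 6) 
(.nd (nat_lit 7) (.nd (nat_lit 8) (.nd (nat_lit 9) 
(.lf (nat_lit 514051) (.g (nat_lit 992) (.e (nat_lit 188160) (nat_lit 32) (.e (nat_lit 1256) (nat_lit 92) (.e (nat_lit 98370) (nat_lit 28) (.e (nat_lit 442380) (nat_lit 6) (.e (nat_lit 123028) (nat_lit 128) .nil))))) (.g (nat_lit 0) (.e (nat_lit 205416) (nat_lit 0) .nil) .nil))) 
(.lf (nat_lit 514563) (.g (nat_lit 2233) (.e (nat_lit 196352) (nat_lit 11) (.e (nat_lit 336389) (nat_lit 27) (.e (nat_lit 426098) (nat_lit 1) (.e (nat_lit 164398) (nat_lit 256) (.e (nat_lit 57373) (nat_lit 2) .nil))))) (.g (nat_lit 0) (.e (nat_lit 207289) (nat_lit 0) .nil) .nil)))) (.nd (nat_lit 9) 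
(.lf (nat_lit 514307) (.g (nat_lit 3228) (.e (nat_lit 188418) (nat_lit 0) (.e (nat_lit 2058) (nat_lit 142) (.e (nat_lit 704598) (nat_lit 6) (.e (nat_lit 188455) (nat_lit 24) (.e (nat_lit 229663) (nat_lit 240) (.e (nat_lit 2653) (nat_lit 166) .nil)))))) (.g (nat_lit 1) (.e (nat_lit 206271) (nat_lit 0) .nil) .nil))) 
(.lf (nat_lit 514819) (.g (nat_lit 1648) (.e (nat_lit 188435) (nat_lit 20) (.e (nat_lit 3409) (nat_lit 212) (.e (nat_lit 655380) (nat_lit 6) (.e (nat_lit 188431) (nat_lit 20) (.e (nat_lit 3401) (nat_lit 211) (.e (nat_lit 647185) (nat_lit 6) .nil)))))) (.g (nat_lit 1) (.e (nat_lit 208344) (nat_lit 0) .nil) .nil))))) (.nd (nat_lit 8) (.nd (nat_lit 9) 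
(.lf (nat_lit 514179) (.g (nat_lit 497) (.e (nat_lit 180285) (nat_lit 45) (.e (nat_lit 2580) (nat_lit 161) (.e (nat_lit 40964) (nat_lit 0) (.e (nat_lit 1558) (nat_lit 110) (.e (nat_lit 360192) (nat_lit 2) (.e (nat_lit 204544) (nat_lit 5) .nil)))))) (.g (nat_lit 1) (.e (nat_lit 205864) (nat_lit 0) .nil) .nil))) 
(.lf (nat_lit 514691) (.g (nat_lit 2227) (.e (nat_lit 188431) (nat_lit 20) (.e (nat_lit 3402) (nat_lit 211) (.e (nat_lit 647183) (nat_lit 4) (.e (nat_lit 172118) (nat_lit 12) (.e (nat_lit 475198) (nat_lit 40) (.e (nat_lit 712448) (nat_lit 6) .nil)))))) (.g (nat_lit 1) (.e (nat_lit 207789) (nat_lit 0) .nil) .nil)))) (.nd (nat_lit 9) 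
(.lf (nat_lit 514435) (.g (nat_lit 1155) (.e (nat_lit 188420) (nat_lit 0) (.e (nat_lit 2175) (nat_lit 143) (.e (nat_lit 712752) (nat_lit 29) (.e (nat_lit 442428) (nat_lit 24) .nil)))) (.g (nat_lit 0) (.e (nat_lit 206422) (nat_lit 0) .nil) .nil))) 
(.lf (nat_lit 514947) (.g (nat_lit 2876) (.e (nat_lit 188439) (nat_lit 20) (.e (nat_lit 3307) (nat_lit 202) (.e (nat_lit 573475) (nat_lit 12) (.e (nat_lit 57574) (nat_lit 55) .nil)))) (.g (nat_lit 0) (.e (nat_lit 208646) (nat_lit 0) .nil) .nil)))))) (.nd (nat_lit 7) (.nd (nat_lit 8) (.nd (nat_lit 9) 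
(.lf (nat_lit 514115) (.g (nat_lit 237) (.e (nat_lit 188160) (nat_lit 39) (.e (nat_lit 131140) (nat_lit 27) (.e (nat_lit 426188) (nat_lit 9) .nil))) (.g (nat_lit 0) (.e (nat_lit 205637) (nat_lit 0) .nil) .nil))) 
(.lf (nat_lit 514627) (.g (nat_lit 2170) (.e (nat_lit 188428) (nat_lit 20) (.e (nat_lit 3281) (nat_lit 200) (.e (nat_lit 557090) (nat_lit 12) (.e (nat_lit 164038) (nat_lit 55) .nil)))) (.g (nat_lit 0) (.e (nat_lit 207487) (nat_lit 0) .nil) .nil)))) (.nd (nat_lit 9) 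
(.lf (nat_lit 514371) (.g (nat_lit 2957) (.e (nat_lit 188420) (nat_lit 0) (.e (nat_lit 1856) (nat_lit 124) (.e (nat_lit 557109) (nat_lit 15) (.e (nat_lit 188455) (nat_lit 24) (.e (nat_lit 237312) (nat_lit 134) .nil))))) (.g (nat_lit 0) (.e (nat_lit 206342) (nat_lit 0) .nil) .nil))) 
(.lf (nat_lit 514883) (.g (nat_lit 86) (.e (nat_lit 188438) (nat_lit 20) (.e (nat_lit 3289) (nat_lit 201) (.e (nat_lit 565268) (nat_lit 5) .nil))) (.g (nat_lit 0) (.e (nat_lit 208502) (nat_lit 0) .nil) .nil))))) (.nd (nat_lit 8) (.nd (nat_lit 9) 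
(.lf (nat_lit 514243) (.g (nat_lit 655) (.e (nat_lit 180288) (nat_lit 45) (.e (nat_lit 2580) (nat_lit 161) (.e (nat_lit 40965) (nat_lit 0) (.e (nat_lit 1574) (nat_lit 110) (.e (nat_lit 360192) (nat_lit 2) (.e (nat_lit 204544) (nat_lit 5) .nil)))))) (.g (nat_lit 1) (.e (nat_lit 206094) (nat_lit 0) .nil) .nil))) 
(.lf (nat_lit 514755) (.g (nat_lit 2913) (.e (nat_lit 188434) (nat_lit 20) (.e (nat_lit 3469) (nat_lit 217) (.e (nat_lit 696344) (nat_lit 8) (.e (nat_lit 172106) (nat_lit 10) (.e (nat_lit 434209) (nat_lit 18) (.e (nat_lit 6284) (nat_lit 337) (.e (nat_lit 7936) (nat_lit 166) .nil))))))) (.g (nat_lit 1) (.e (nat_lit 208217) (nat_lit 0) .nil) .nil)))) (.nd (nat_lit 9) 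
(.lf (nat_lit 514499) (.g (nat_lit 1888) (.e (nat_lit 188421) (nat_lit 11) (.e (nat_lit 336230) (nat_lit 14) (.e (nat_lit 401448) (nat_lit 10) (.e (nat_lit 434288) (nat_lit 43) (.e (nat_lit 696346) (nat_lit 10) .nil))))) (.g (nat_lit 1) (.e (nat_lit 206730) (nat_lit 0) .nil) .nil))) 
(.lf (nat_lit 515011) (.g (nat_lit 1806) (.e (nat_lit 188439) (nat_lit 20) (.e (nat_lit 3409) (nat_lit 212) (.e (nat_lit 655380) (nat_lit 6) (.e (nat_lit 188440) (nat_lit 20) (.e (nat_lit 3408) (nat_lit 212) (.e (nat_lit 655380) (nat_lit 6) .nil)))))) (.g (nat_lit 1) (.e (nat_lit 208837) (nat_lit 0) .nil) .nil))))))) (.nd (nat_lit 6) (.nd (nat_lit 7) (.nd (nat_lit 8) (.nd (nat_lit 9) 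
(.lf (nat_lit 514083) (.g (nat_lit 1305) (.e (nat_lit 188160) (nat_lit 32) (.e (nat_lit 1656) (nat_lit 115) (.e (nat_lit 393291) (nat_lit 26) (.e (nat_lit 475198) (nat_lit 40) .nil)))) (.g (nat_lit 0) (.e (nat_lit 205454) (nat_lit 0) .nil) .nil))) 
(.lf (nat_lit 514595) (.g (nat_lit 1808) (.e (nat_lit 196352) (nat_lit 18) (.e (nat_lit 393253) (nat_lit 18) (.e (nat_lit 164401) (nat_lit 256) (.e (nat_lit 57373) (nat_lit 2) (.e (nat_lit 90177) (nat_lit 15) .nil))))) (.g (nat_lit 0) (.e (nat_lit 207350) (nat_lit 0) .nil) .nil)))) (.nd (nat_lit 9) 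
(.lf (nat_lit 514339) (.g (nat_lit 1595) (.e (nat_lit 188418) (nat_lit 0) (.e (nat_lit 2174) (nat_lit 143) (.e (nat_lit 712755) (nat_lit 30) (.e (nat_lit 450567) (nat_lit 0) (.e (nat_lit 5443) (nat_lit 306) .nil))))) (.g (nat_lit 0) (.e (nat_lit 206309) (nat_lit 0) .nil) .nil))) 
(.lf (nat_lit 514851) (.g (nat_lit 1338) (.e (nat_lit 188435) (nat_lit 20) (.e (nat_lit 3579) (nat_lit 223) (.e (nat_lit 745490) (nat_lit 4) (.e (nat_lit 65617) (nat_lit 10) (.e (nat_lit 344138) (nat_lit 29) .nil))))) (.g (nat_lit 0) (.e (nat_lit 208424) (nat_lit 0) .nil) .nil))))) (.nd (nat_lit 8) (.nd (nat_lit 9) 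
(.lf (nat_lit 514211) (.g (nat_lit 989) (.e (nat_lit 180287) (nat_lit 45) (.e (nat_lit 2579) (nat_lit 161) (.e (nat_lit 40965) (nat_lit 0) (.e (nat_lit 1597) (nat_lit 111) (.e (nat_lit 368384) (nat_lit 10) (.e (nat_lit 581376) (nat_lit 5) .nil)))))) (.g (nat_lit 1) (.e (nat_lit 206009) (nat_lit 0) .nil) .nil))) 
(.lf (nat_lit 514723) (.g (nat_lit 2500) (.e (nat_lit 188434) (nat_lit 20) (.e (nat_lit 3406) (nat_lit 212) (.e (nat_lit 655378) (nat_lit 4) (.e (nat_lit 172113) (nat_lit 10) (.e (nat_lit 434272) (nat_lit 38) (.e (nat_lit 655380) (nat_lit 6) .nil)))))) (.g (nat_lit 1) (.e (nat_lit 208014) (nat_lit 0) .nil) .nil)))) (.nd (nat_lit 9) 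
(.lf (nat_lit 514467) (.g (nat_lit 2185) (.e (nat_lit 196352) (nat_lit 0) (.e (nat_lit 2031) (nat_lit 140) (.e (nat_lit 688177) (nat_lit 16) (.e (nat_lit 65624) (nat_lit 12) (.e (nat_lit 385088) (nat_lit 47) .nil))))) (.g (nat_lit 0) (.e (nat_lit 206460) (nat_lit 0) .nil) .nil))) 
(.lf (nat_lit 514979) (.g (nat_lit 830) (.e (nat_lit 188439) (nat_lit 20) (.e (nat_lit 3408) (nat_lit 212) (.e (nat_lit 655360) (nat_lit 0) (.e (nat_lit 3044) (nat_lit 189) (.e (nat_lit 474880) (nat_lit 4) (.e (nat_lit 114432) (nat_lit 6) .nil)))))) (.g (nat_lit 1) (.e (nat_lit 208761) (nat_lit 0) .nil) .nil)))))) (.nd (nat_lit 7) (.nd (nat_lit 8) (.nd (nat_lit 9) 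
(.lf (nat_lit 514147) (.g (nat_lit 613) (.e (nat_lit 180284) (nat_lit 45) (.e (nat_lit 2579) (nat_lit 161) (.e (nat_lit 40964) (nat_lit 0) (.e (nat_lit 1597) (nat_lit 111) (.e (nat_lit 368384) (nat_lit 10) (.e (nat_lit 581376) (nat_lit 5) .nil)))))) (.g (nat_lit 1) (.e (nat_lit 205751) (nat_lit 0) .nil) .nil))) 
(.lf (nat_lit 514659) (.g (nat_lit 3442) (.e (nat_lit 188431) (nat_lit 20) (.e (nat_lit 3397) (nat_lit 211) (.e (nat_lit 647183) (nat_lit 4) (.e (nat_lit 172106) (nat_lit 10) (.e (nat_lit 434209) (nat_lit 18) (.e (nat_lit 5548) (nat_lit 306) (.e (nat_lit 2648) (nat_lit 166) .nil))))))) (.g (nat_lit 1) (.e (nat_lit 207673) (nat_lit 0) .nil) .nil)))) (.nd (nat_lit 9) 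
(.lf (nat_lit 514403) (.g (nat_lit 2867) (.e (nat_lit 188420) (nat_lit 0) (.e (nat_lit 2059) (nat_lit 142) (.e (nat_lit 704598) (nat_lit 6) (.e (nat_lit 188446) (nat_lit 21) (.e (nat_lit 164347) (nat_lit 240) (.e (nat_lit 2648) (nat_lit 166) .nil)))))) (.g (nat_lit 1) (.e (nat_lit 206376) (nat_lit 0) .nil) .nil))) 
(.lf (nat_lit 514915) (.g (nat_lit 1803) (.e (nat_lit 188438) (nat_lit 20) (.e (nat_lit 3469) (nat_lit 217) (.e (nat_lit 696344) (nat_lit 8) (.e (nat_lit 172115) (nat_lit 10) (.e (nat_lit 434202) (nat_lit 18) (.e (nat_lit 6250) (nat_lit 337) (.e (nat_lit 7936) (nat_lit 166) .nil))))))) (.g (nat_lit 1) (.e (nat_lit 208580) (nat_lit 0) .nil) .nil))))) (.nd (nat_lit 8) (.nd (nat_lit 9) 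
(.lf (nat_lit 514275) (.g (nat_lit 893) (.e (nat_lit 188417) (nat_lit 0) (.e (nat_lit 2148) (nat_lit 142) (.e (nat_lit 704597) (nat_lit 6) (.e (nat_lit 188439) (nat_lit 20) (.e (nat_lit 3409) (nat_lit 212) (.e (nat_lit 655380) (nat_lit 6) .nil)))))) (.g (nat_lit 1) (.e (nat_lit 206229) (nat_lit 0) .nil) .nil))) 
(.lf (nat_lit 514787) (.g (nat_lit 2841) (.e (nat_lit 188435) (nat_lit 20) (.e (nat_lit 3272) (nat_lit 199) (.e (nat_lit 548913) (nat_lit 18) (.e (nat_lit 172120) (nat_lit 12) (.e (nat_lit 475185) (nat_lit 29) .nil))))) (.g (nat_lit 0) (.e (nat_lit 208278) (nat_lit 0) .nil) .nil)))) (.nd (nat_lit 9) 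
(.lf (nat_lit 514531) (.g (nat_lit 2493) (.e (nat_lit 188423) (nat_lit 11) (.e (nat_lit 335995) (nat_lit 1) (.e (nat_lit 57691) (nat_lit 156) (.e (nat_lit 163907) (nat_lit 12) (.e (nat_lit 426432) (nat_lit 17) .nil))))) (.g (nat_lit 0) (.e (nat_lit 207014) (nat_lit 0) .nil) .nil))) 
(.lf (nat_lit 515043) (.g (nat_lit 3008) (.e (nat_lit 188439) (nat_lit 20) (.e (nat_lit 3469) (nat_lit 217) (.e (nat_lit 696344) (nat_lit 8) (.e (nat_lit 172115) (nat_lit 10) (.e (nat_lit 434209) (nat_lit 18) (.e (nat_lit 6273) (nat_lit 337) (.e (nat_lit 2645) (nat_lit 166) .nil))))))) (.g (nat_lit 1) (.e (nat_lit 208953) (nat_lit 0) .nil) .nil)))))))) 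
(.nd (nat_lit 5) (.nd (nat_lit 6) (.nd (nat_lit 7) (.nd (nat_lit 8) (.nd (nat_lit 9) 
(.lf (nat_lit 514067) (.g (nat_lit 143) (.e (nat_lit 188160) (nat_lit 32) (.e (nat_lit 1648) (nat_lit 115) (.e (nat_lit 393291) (nat_lit 26) .nil))) (.g (nat_lit 0) (.e (nat_lit 205438) (nat_lit 0) .nil) .nil))) 
(.lf (nat_lit 514579) (.g (nat_lit 1260) (.e (nat_lit 196352) (nat_lit 16) (.e (nat_lit 376857) (nat_lit 21) (.e (nat_lit 57847) (nat_lit 252) (.e (nat_lit 57345) (nat_lit 0) .nil)))) (.g (nat_lit 0) (.e (nat_lit 207316) (nat_lit 0) .nil) .nil)))) (.nd (nat_lit 9) 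
(.lf (nat_lit 514323) (.g (nat_lit 1251) (.e (nat_lit 188418) (nat_lit 0) (.e (nat_lit 2174) (nat_lit 143) (.e (nat_lit 712745) (nat_lit 27) (.e (nat_lit 426232) (nat_lit 9) (.e (nat_lit 426441) (nat_lit 19) .nil))))) (.g (nat_lit 0) (.e (nat_lit 206290) (nat_lit 0) .nil) .nil))) 
(.lf (nat_lit 514835) (.g (nat_lit 2384) (.e (nat_lit 188435) (nat_lit 20) (.e (nat_lit 3469) (nat_lit 217) (.e (nat_lit 696344) (nat_lit 8) (.e (nat_lit 172113) (nat_lit 10) (.e (nat_lit 434203) (nat_lit 18) (.e (nat_lit 6254) (nat_lit 337) (.e (nat_lit 7936) (nat_lit 166) .nil))))))) (.g (nat_lit 1) (.e (nat_lit 208402) (nat_lit 0) .nil) .nil))))) (.nd (nat_lit 8) (.nd (nat_lit 9) 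
(.lf (nat_lit 514195) (.g (nat_lit 542) (.e (nat_lit 180287) (nat_lit 45) (.e (nat_lit 2577) (nat_lit 161) (.e (nat_lit 40965) (nat_lit 0) (.e (nat_lit 1574) (nat_lit 110) (.e (nat_lit 360192) (nat_lit 2) (.e (nat_lit 204544) (nat_lit 5) .nil)))))) (.g (nat_lit 1) (.e (nat_lit 205993) (nat_lit 0) .nil) .nil))) 
(.lf (nat_lit 514707) (.g (nat_lit 1030) (.e (nat_lit 188434) (nat_lit 20) (.e (nat_lit 3288) (nat_lit 201) (.e (nat_lit 565269) (nat_lit 6) (.e (nat_lit 81943) (nat_lit 20) (.e (nat_lit 2390) (nat_lit 156) .nil))))) (.g (nat_lit 0) (.e (nat_lit 207911) (nat_lit 0) .nil) .nil)))) (.nd (nat_lit 9) 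
(.lf (nat_lit 514451) (.g (nat_lit 954) (.e (nat_lit 196352) (nat_lit 0) (.e (nat_lit 1806) (nat_lit 119) (.e (nat_lit 516127) (nat_lit 2) (.e (nat_lit 213032) (nat_lit 11) (.e (nat_lit 24605) (nat_lit 2) .nil))))) (.g (nat_lit 0) (.e (nat_lit 206441) (nat_lit 0) .nil) .nil))) 
(.lf (nat_lit 514963) (.g (nat_lit 1792) (.e (nat_lit 188439) (nat_lit 20) (.e (nat_lit 3391) (nat_lit 210) (.e (nat_lit 639025) (nat_lit 20) (.e (nat_lit 131116) (nat_lit 9) (.e (nat_lit 335988) (nat_lit 1) (.e (nat_lit 57832) (nat_lit 250) (.e (nat_lit 7936) (nat_lit 166) .nil))))))) (.g (nat_lit 1) (.e (nat_lit 208704) (nat_lit 0) .nil) .nil)))))) 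
(.nd (nat_lit 7) (.nd (nat_lit 8) (.nd (nat_lit 9) 
(.lf (nat_lit 514131) (.g (nat_lit 1309) (.e (nat_lit 188160) (nat_lit 39) (.e (nat_lit 131140) (nat_lit 27) (.e (nat_lit 426308) (nat_lit 12) (.e (nat_lit 475205) (nat_lit 40) (.e (nat_lit 712448) (nat_lit 5) .nil))))) (.g (nat_lit 0) (.e (nat_lit 205667) (nat_lit 0) .nil) .nil))) 
(.lf (nat_lit 514643) (.g (nat_lit 1783) (.e (nat_lit 188428) (nat_lit 20) (.e (nat_lit 3571) (nat_lit 222) (.e (nat_lit 737300) (nat_lit 7) (.e (nat_lit 286756) (nat_lit 10) (.e (nat_lit 344138) (nat_lit 29) (.e (nat_lit 581653) (nat_lit 6) .nil)))))) (.g (nat_lit 1) (.e (nat_lit 207593) (nat_lit 0) .nil) .nil)))) (.nd (nat_lit 9) 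
(.lf (nat_lit 514387) (.g (nat_lit 1463) (.e (nat_lit 188420) (nat_lit 0) (.e (nat_lit 2058) (nat_lit 142) (.e (nat_lit 704598) (nat_lit 6) (.e (nat_lit 188435) (nat_lit 20) (.e (nat_lit 3408) (nat_lit 212) (.e (nat_lit 655380) (nat_lit 6) .nil)))))) (.g (nat_lit 1) (.e (nat_lit 206360) (nat_lit 0) .nil) .nil))) 
(.lf (nat_lit 514899) (.g (nat_lit 1860) (.e (nat_lit 188438) (nat_lit 20) (.e (nat_lit 3409) (nat_lit 212) (.e (nat_lit 655378) (nat_lit 4) (.e (nat_lit 172112) (nat_lit 10) (.e (nat_lit 434272) (nat_lit 38) (.e (nat_lit 655380) (nat_lit 6) .nil)))))) (.g (nat_lit 1) (.e (nat_lit 208526) (nat_lit 0) .nil) .nil))))) (.nd (nat_lit 8) (.nd (nat_lit 9) 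
(.lf (nat_lit 514259) (.g (nat_lit 1492) (.e (nat_lit 188416) (nat_lit 0) (.e (nat_lit 2147) (nat_lit 142) (.e (nat_lit 704597) (nat_lit 6) (.e (nat_lit 188440) (nat_lit 20) (.e (nat_lit 3408) (nat_lit 212) (.e (nat_lit 655380) (nat_lit 6) .nil)))))) (.g (nat_lit 1) (.e (nat_lit 206195) (nat_lit 0) .nil) .nil))) 
(.lf (nat_lit 514771) (.g (nat_lit 2028) (.e (nat_lit 188434) (nat_lit 20) (.e (nat_lit 3469) (nat_lit 217) (.e (nat_lit 696344) (nat_lit 8) (.e (nat_lit 172113) (nat_lit 10) (.e (nat_lit 434285) (nat_lit 42) .nil))))) (.g (nat_lit 0) (.e (nat_lit 208233) (nat_lit 0) .nil) .nil)))) (.nd (nat_lit 9) 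
(.lf (nat_lit 514515) (.g (nat_lit 2264) (.e (nat_lit 188423) (nat_lit 11) (.e (nat_lit 335986) (nat_lit 1) (.e (nat_lit 57688) (nat_lit 156) (.e (nat_lit 163902) (nat_lit 12) (.e (nat_lit 426427) (nat_lit 17) .nil))))) (.g (nat_lit 0) (.e (nat_lit 206998) (nat_lit 0) .nil) .nil))) 
(.lf (nat_lit 515027) (.g (nat_lit 2522) (.e (nat_lit 188439) (nat_lit 20) (.e (nat_lit 3469) (nat_lit 217) (.e (nat_lit 696344) (nat_lit 8) (.e (nat_lit 172106) (nat_lit 10) (.e (nat_lit 434286) (nat_lit 42) (.e (nat_lit 696064) (nat_lit 10) .nil)))))) (.g (nat_lit 1) (.e (nat_lit 208937) (nat_lit 0) .nil) .nil))))))) (.nd (nat_lit 6) (.nd (nat_lit 7) (.nd (nat_lit 8) (.nd (nat_lit 9) 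
(.lf (nat_lit 514099) (.g (nat_lit 2856) (.e (nat_lit 188160) (nat_lit 35) (.e (nat_lit 57464) (nat_lit 23) (.e (nat_lit 516151) (nat_lit 9) (.e (nat_lit 426275) (nat_lit 10) (.e (nat_lit 434238) (nat_lit 25) .nil))))) (.g (nat_lit 0) (.e (nat_lit 205538) (nat_lit 0) .nil) .nil))) 
(.lf (nat_lit 514611) (.g (nat_lit 1046) (.e (nat_lit 188424) (nat_lit 20) (.e (nat_lit 3471) (nat_lit 217) (.e (nat_lit 696344) (nat_lit 8) (.e (nat_lit 172113) (nat_lit 10) .nil)))) (.g (nat_lit 0) (.e (nat_lit 207399) (nat_lit 0) .nil) .nil)))) (.nd (nat_lit 9) 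
(.lf (nat_lit 514355) (.g (nat_lit 1250) (.e (nat_lit 188419) (nat_lit 0) (.e (nat_lit 1856) (nat_lit 124) (.e (nat_lit 557107) (nat_lit 15) (.e (nat_lit 188439) (nat_lit 20) .nil)))) (.g (nat_lit 0) (.e (nat_lit 206326) (nat_lit 0) .nil) .nil))) 
(.lf (nat_lit 514867) (.g (nat_lit 2382) (.e (nat_lit 188438) (nat_lit 20) (.e (nat_lit 3238) (nat_lit 197) (.e (nat_lit 532523) (nat_lit 7) (.e (nat_lit 319533) (nat_lit 16) (.e (nat_lit 286732) (nat_lit 2) .nil))))) (.g (nat_lit 0) (.e (nat_lit 208473) (nat_lit 0) .nil) .nil))))) (.nd (nat_lit 8) (.nd (nat_lit 9) 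
(.lf (nat_lit 514227) (.g (nat_lit 1337) (.e (nat_lit 180288) (nat_lit 45) (.e (nat_lit 2579) (nat_lit 161) (.e (nat_lit 40964) (nat_lit 0) (.e (nat_lit 1582) (nat_lit 111) (.e (nat_lit 360477) (nat_lit 11) (.e (nat_lit 581652) (nat_lit 5) .nil)))))) (.g (nat_lit 1) (.e (nat_lit 206078) (nat_lit 0) .nil) .nil))) 
(.lf (nat_lit 514739) (.g (nat_lit 3058) (.e (nat_lit 188434) (nat_lit 20) (.e (nat_lit 3409) (nat_lit 212) (.e (nat_lit 655380) (nat_lit 6) (.e (nat_lit 188444) (nat_lit 21) (.e (nat_lit 164347) (nat_lit 240) (.e (nat_lit 2650) (nat_lit 166) .nil)))))) (.g (nat_lit 1) (.e (nat_lit 208060) (nat_lit 0) .nil) .nil)))) (.nd (nat_lit 9) 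
(.lf (nat_lit 514483) (.g (nat_lit 246) (.e (nat_lit 196352) (nat_lit 8) (.e (nat_lit 155652) (nat_lit 0) (.e (nat_lit 3003) (nat_lit 186) (.e (nat_lit 450304) (nat_lit 4) .nil)))) (.g (nat_lit 0) (.e (nat_lit 206513) (nat_lit 0) .nil) .nil))) 
(.lf (nat_lit 514995) (.g (nat_lit 3371) (.e (nat_lit 188439) (nat_lit 20) (.e (nat_lit 3409) (nat_lit 212) (.e (nat_lit 655378) (nat_lit 4) (.e (nat_lit 172094) (nat_lit 9) (.e (nat_lit 426109) (nat_lit 1) (.e (nat_lit 164347) (nat_lit 240) (.e (nat_lit 2648) (nat_lit 166) .nil))))))) (.g (nat_lit 1) (.e (nat_lit 208819) (nat_lit 0) .nil) .nil)))))) 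
(.nd (nat_lit 7) (.nd (nat_lit 8) (.nd (nat_lit 9) 
(.lf (nat_lit 514163) (.g (nat_lit 673) (.e (nat_lit 180284) (nat_lit 45) (.e (nat_lit 2788) (nat_lit 179) (.e (nat_lit 294974) (nat_lit 29) (.e (nat_lit 442378) (nat_lit 0) .nil)))) (.g (nat_lit 0) (.e (nat_lit 205767) (nat_lit 0) .nil) .nil))) 
(.lf (nat_lit 514675) (.g (nat_lit 1505) (.e (nat_lit 188431) (nat_lit 20) (.e (nat_lit 3399) (nat_lit 211) (.e (nat_lit 647185) (nat_lit 6) (.e (nat_lit 188416) (nat_lit 0) (.e (nat_lit 2147) (nat_lit 142) (.e (nat_lit 704597) (nat_lit 6) .nil)))))) (.g (nat_lit 1) (.e (nat_lit 207694) (nat_lit 0) .nil) .nil)))) (.nd (nat_lit 9) 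
(.lf (nat_lit 514419) (.g (nat_lit 409) (.e (nat_lit 188420) (nat_lit 0) (.e (nat_lit 2174) (nat_lit 143) (.e (nat_lit 712755) (nat_lit 30) .nil))) (.g (nat_lit 0) (.e (nat_lit 206401) (nat_lit 0) .nil) .nil))) 
(.lf (nat_lit 514931) (.g (nat_lit 2504) (.e (nat_lit 188439) (nat_lit 20) (.e (nat_lit 3270) (nat_lit 199) (.e (nat_lit 548915) (nat_lit 20) (.e (nat_lit 188420) (nat_lit 0) (.e (nat_lit 1856) (nat_lit 124) (.e (nat_lit 557107) (nat_lit 15) .nil)))))) (.g (nat_lit 1) (.e (nat_lit 208607) (nat_lit 0) .nil) .nil))))) (.nd (nat_lit 8) (.nd (nat_lit 9) 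
(.lf (nat_lit 514291) (.g (nat_lit 2437) (.e (nat_lit 188418) (nat_lit 0) (.e (nat_lit 1856) (nat_lit 124) (.e (nat_lit 557103) (nat_lit 14) (.e (nat_lit 180288) (nat_lit 45) (.e (nat_lit 2571) (nat_lit 160) (.e (nat_lit 32809) (nat_lit 20) .nil)))))) (.g (nat_lit 1) (.e (nat_lit 206251) (nat_lit 0) .nil) .nil))) 
(.lf (nat_lit 514803) (.g (nat_lit 741) (.e (nat_lit 188435) (nat_lit 20) (.e (nat_lit 3408) (nat_lit 212) (.e (nat_lit 655360) (nat_lit 0) (.e (nat_lit 3044) (nat_lit 189) (.e (nat_lit 474880) (nat_lit 4) .nil))))) (.g (nat_lit 0) (.e (nat_lit 208307) (nat_lit 0) .nil) .nil)))) (.nd (nat_lit 9) 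
(.lf (nat_lit 514547) (.g (nat_lit 1870) (.e (nat_lit 188423) (nat_lit 11) (.e (nat_lit 336385) (nat_lit 27) (.e (nat_lit 426098) (nat_lit 1) (.e (nat_lit 164398) (nat_lit 256) (.e (nat_lit 57372) (nat_lit 2) .nil))))) (.g (nat_lit 0) (.e (nat_lit 207257) (nat_lit 0) .nil) .nil))) 
(.lf (nat_lit 515059) (.g (nat_lit 415) (.e (nat_lit 188440) (nat_lit 20) (.e (nat_lit 3272) (nat_lit 199) (.e (nat_lit 548898) (nat_lit 14) .nil))) (.g (nat_lit 0) (.e (nat_lit 208988) (nat_lit 0) .nil) .nil))))))))) (.nd (nat_lit 4) (.nd (nat_lit 5) (.nd (nat_lit 6) (.nd (nat_lit 7) (.nd (nat_lit 8) (.nd (nat_lit 9) 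
(.lf (nat_lit 514059) (.g (nat_lit 2483) (.e (nat_lit 188160) (nat_lit 32) (.e (nat_lit 1454) (nat_lit 108) (.e (nat_lit 336389) (nat_lit 27) (.e (nat_lit 426305) (nat_lit 12) (.e (nat_lit 475199) (nat_lit 40) .nil))))) (.g (nat_lit 0) (.e (nat_lit 205427) (nat_lit 0) .nil) .nil))) 
(.lf (nat_lit 514571) (.g (nat_lit 1350) (.e (nat_lit 196352) (nat_lit 11) (.e (nat_lit 336390) (nat_lit 27) (.e (nat_lit 426098) (nat_lit 1) (.e (nat_lit 164400) (nat_lit 256) .nil)))) (.g (nat_lit 0) (.e (nat_lit 207297) (nat_lit 0) .nil) .nil)))) (.nd (nat_lit 9) 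
(.lf (nat_lit 514315) (.g (nat_lit 2400) (.e (nat_lit 188418) (nat_lit 0) (.e (nat_lit 2059) (nat_lit 142) (.e (nat_lit 704598) (nat_lit 6) (.e (nat_lit 188455) (nat_lit 24) (.e (nat_lit 229665) (nat_lit 240) (.e (nat_lit 2653) (nat_lit 166) .nil)))))) (.g (nat_lit 1) (.e (nat_lit 206279) (nat_lit 0) .nil) .nil))) 
(.lf (nat_lit 514827) (.g (nat_lit 3401) (.e (nat_lit 188435) (nat_lit 20) (.e (nat_lit 3469) (nat_lit 217) (.e (nat_lit 696344) (nat_lit 8) (.e (nat_lit 172106) (nat_lit 10) (.e (nat_lit 434209) (nat_lit 18) (.e (nat_lit 6273) (nat_lit 337) (.e (nat_lit 2645) (nat_lit 166) .nil))))))) (.g (nat_lit 1) (.e (nat_lit 208394) (nat_lit 0) .nil) .nil))))) (.nd (nat_lit 8) (.nd (nat_lit 9) 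
(.lf (nat_lit 514187) (.g (nat_lit 678) (.e (nat_lit 180285) (nat_lit 45) (.e (nat_lit 2580) (nat_lit 161) (.e (nat_lit 40965) (nat_lit 0) (.e (nat_lit 1582) (nat_lit 111) (.e (nat_lit 368384) (nat_lit 10) (.e (nat_lit 581376) (nat_lit 5) .nil)))))) (.g (nat_lit 1) (.e (nat_lit 205872) (nat_lit 0) .nil) .nil))) 
(.lf (nat_lit 514699) (.g (nat_lit 4458) (.e (nat_lit 188434) (nat_lit 20) (.e (nat_lit 3238) (nat_lit 197) (.e (nat_lit 532523) (nat_lit 7) (.e (nat_lit 319530) (nat_lit 16) (.e (nat_lit 286733) (nat_lit 2) (.e (nat_lit 90177) (nat_lit 15) .nil)))))) (.g (nat_lit 1) (.e (nat_lit 207887) (nat_lit 0) .nil) .nil)))) (.nd (nat_lit 9) 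
(.lf (nat_lit 514443) (.g (nat_lit 2146) (.e (nat_lit 188420) (nat_lit 0) (.e (nat_lit 2175) (nat_lit 143) (.e (nat_lit 712755) (nat_lit 30) (.e (nat_lit 450563) (nat_lit 0) (.e (nat_lit 5539) (nat_lit 306) (.e (nat_lit 7936) (nat_lit 166) .nil)))))) (.g (nat_lit 1) (.e (nat_lit 206430) (nat_lit 0) .nil) .nil))) 
(.lf (nat_lit 514955) (.g (nat_lit 1254) (.e (nat_lit 188439) (nat_lit 20) (.e (nat_lit 3289) (nat_lit 201) (.e (nat_lit 565269) (nat_lit 6) (.e (nat_lit 81938) (nat_lit 20) (.e (nat_lit 2389) (nat_lit 156) (.e (nat_lit 819221) (nat_lit 6) .nil)))))) (.g (nat_lit 1) (.e (nat_lit 208663) (nat_lit 0) .nil) .nil)))))) (.nd (nat_lit 7) (.nd (nat_lit 8) (.nd (nat_lit 9) 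
(.lf (nat_lit 514123) (.g (nat_lit 225) (.e (nat_lit 188160) (nat_lit 39) (.e (nat_lit 131140) (nat_lit 27) (.e (nat_lit 426199) (nat_lit 9) .nil))) (.g (nat_lit 0) (.e (nat_lit 205647) (nat_lit 0) .nil) .nil))) 
(.lf (nat_lit 514635) (.g (nat_lit 641) (.e (nat_lit 188428) (nat_lit 20) (.e (nat_lit 3401) (nat_lit 211) (.e (nat_lit 647185) (nat_lit 6) (.e (nat_lit 188416) (nat_lit 0) .nil)))) (.g (nat_lit 0) (.e (nat_lit 207529) (nat_lit 0) .nil) .nil)))) (.nd (nat_lit 9) 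
(.lf (nat_lit 514379) (.g (nat_lit 359) (.e (nat_lit 188420) (nat_lit 0) (.e (nat_lit 2056) (nat_lit 142) (.e (nat_lit 704599) (nat_lit 6) (.e (nat_lit 188416) (nat_lit 0) .nil)))) (.g (nat_lit 0) (.e (nat_lit 206351) (nat_lit 0) .nil) .nil))) 
(.lf (nat_lit 514891) (.g (nat_lit 622) (.e (nat_lit 188438) (nat_lit 20) (.e (nat_lit 3406) (nat_lit 212) (.e (nat_lit 655380) (nat_lit 6) (.e (nat_lit 188440) (nat_lit 20) .nil)))) (.g (nat_lit 0) (.e (nat_lit 208514) (nat_lit 0) .nil) .nil))))) (.nd (nat_lit 8) (.nd (nat_lit 9) 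
(.lf (nat_lit 514251) (.g (nat_lit 1993) (.e (nat_lit 180292) (nat_lit 49) (.e (nat_lit 229644) (nat_lit 232) (.e (nat_lit 464) (nat_lit 34) (.e (nat_lit 442379) (nat_lit 0) (.e (nat_lit 2059) (nat_lit 142) (.e (nat_lit 704595) (nat_lit 5) .nil)))))) (.g (nat_lit 1) (.e (nat_lit 206169) (nat_lit 0) .nil) .nil))) 
(.lf (nat_lit 514763) (.g (nat_lit 2910) (.e (nat_lit 188434) (nat_lit 20) (.e (nat_lit 3469) (nat_lit 217) (.e (nat_lit 696344) (nat_lit 8) (.e (nat_lit 172113) (nat_lit 10) (.e (nat_lit 434203) (nat_lit 18) (.e (nat_lit 6254) (nat_lit 337) (.e (nat_lit 7936) (nat_lit 166) .nil))))))) (.g (nat_lit 1) (.e (nat_lit 208225) (nat_lit 0) .nil) .nil)))) (.nd (nat_lit 9) 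
(.lf (nat_lit 514507) (.g (nat_lit 597) (.e (nat_lit 188421) (nat_lit 11) (.e (nat_lit 336288) (nat_lit 15) (.e (nat_lit 6988) (nat_lit 377) .nil))) (.g (nat_lit 0) (.e (nat_lit 206862) (nat_lit 0) .nil) .nil))) 
(.lf (nat_lit 515019) (.g (nat_lit 2641) (.e (nat_lit 188439) (nat_lit 20) (.e (nat_lit 3468) (nat_lit 217) (.e (nat_lit 696344) (nat_lit 8) (.e (nat_lit 172106) (nat_lit 10) (.e (nat_lit 434209) (nat_lit 18) (.e (nat_lit 6273) (nat_lit 337) (.e (nat_lit 2645) (nat_lit 166) .nil))))))) (.g (nat_lit 1) (.e (nat_lit 208870) (nat_lit 0) .nil) .nil))))))) 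
(.nd (nat_lit 6) (.nd (nat_lit 7) (.nd (nat_lit 8) (.nd (nat_lit 9) 
(.lf (nat_lit 514091) (.g (nat_lit 1296) (.e (nat_lit 188160) (nat_lit 32) (.e (nat_lit 1665) (nat_lit 115) (.e (nat_lit 393294) (nat_lit 26) (.e (nat_lit 475197) (nat_lit 40) .nil)))) (.g (nat_lit 0) (.e (nat_lit 205462) (nat_lit 0) .nil) .nil))) 
(.lf (nat_lit 514603) (.g (nat_lit 2101) (.e (nat_lit 188424) (nat_lit 20) (.e (nat_lit 3271) (nat_lit 199) (.e (nat_lit 548913) (nat_lit 18) (.e (nat_lit 172120) (nat_lit 12) .nil)))) (.g (nat_lit 0) (.e (nat_lit 207380) (nat_lit 0) .nil) .nil)))) (.nd (nat_lit 9) 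
(.lf (nat_lit 514347) (.g (nat_lit 2284) (.e (nat_lit 188418) (nat_lit 0) (.e (nat_lit 2175) (nat_lit 143) (.e (nat_lit 712755) (nat_lit 30) (.e (nat_lit 450562) (nat_lit 0) (.e (nat_lit 5539) (nat_lit 306) (.e (nat_lit 7936) (nat_lit 166) .nil)))))) (.g (nat_lit 1) (.e (nat_lit 206318) (nat_lit 0) .nil) .nil))) 
(.lf (nat_lit 514859) (.g (nat_lit 2280) (.e (nat_lit 188437) (nat_lit 20) (.e (nat_lit 3238) (nat_lit 197) (.e (nat_lit 532523) (nat_lit 7) (.e (nat_lit 319529) (nat_lit 16) (.e (nat_lit 286733) (nat_lit 2) .nil))))) (.g (nat_lit 0) (.e (nat_lit 208449) (nat_lit 0) .nil) .nil))))) (.nd (nat_lit 8) (.nd (nat_lit 9) 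
(.lf (nat_lit 514219) (.g (nat_lit 569) (.e (nat_lit 180287) (nat_lit 45) (.e (nat_lit 2580) (nat_lit 161) (.e (nat_lit 40965) (nat_lit 0) (.e (nat_lit 1574) (nat_lit 110) (.e (nat_lit 360192) (nat_lit 2) (.e (nat_lit 204544) (nat_lit 5) .nil)))))) (.g (nat_lit 1) (.e (nat_lit 206017) (nat_lit 0) .nil) .nil))) 
(.lf (nat_lit 514731) (.g (nat_lit 1477) (.e (nat_lit 188434) (nat_lit 20) (.e (nat_lit 3408) (nat_lit 212) (.e (nat_lit 655380) (nat_lit 6) (.e (nat_lit 188441) (nat_lit 20) (.e (nat_lit 3406) (nat_lit 212) (.e (nat_lit 655380) (nat_lit 6) .nil)))))) (.g (nat_lit 1) (.e (nat_lit 208035) (nat_lit 0) .nil) .nil)))) (.nd (nat_lit 9) 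
(.lf (nat_lit 514475) (.g (nat_lit 1167) (.e (nat_lit 196352) (nat_lit 5) (.e (nat_lit 114710) (nat_lit 21) (.e (nat_lit 57847) (nat_lit 252) (.e (nat_lit 57443) (nat_lit 18) .nil)))) (.g (nat_lit 0) (.e (nat_lit 206476) (nat_lit 0) .nil) .nil))) 
(.lf (nat_lit 514987) (.g (nat_lit 1589) (.e (nat_lit 188439) (nat_lit 20) (.e (nat_lit 3408) (nat_lit 212) (.e (nat_lit 655380) (nat_lit 6) (.e (nat_lit 188420) (nat_lit 0) (.e (nat_lit 2058) (nat_lit 142) (.e (nat_lit 704598) (nat_lit 6) .nil)))))) (.g (nat_lit 1) (.e (nat_lit 208795) (nat_lit 0) .nil) .nil)))))) (.nd (nat_lit 7) (.nd (nat_lit 8) (.nd (nat_lit 9) 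
(.lf (nat_lit 514155) (.g (nat_lit 408) (.e (nat_lit 180284) (nat_lit 45) (.e (nat_lit 2580) (nat_lit 161) (.e (nat_lit 40964) (nat_lit 0) (.e (nat_lit 1574) (nat_lit 110) (.e (nat_lit 360192) (nat_lit 2) (.e (nat_lit 204544) (nat_lit 5) .nil)))))) (.g (nat_lit 1) (.e (nat_lit 205759) (nat_lit 0) .nil) .nil))) 
(.lf (nat_lit 514667) (.g (nat_lit 3141) (.e (nat_lit 188431) (nat_lit 20) (.e (nat_lit 3397) (nat_lit 211) (.e (nat_lit 647185) (nat_lit 6) (.e (nat_lit 188455) (nat_lit 24) (.e (nat_lit 229663) (nat_lit 240) (.e (nat_lit 2651) (nat_lit 166) .nil)))))) (.g (nat_lit 1) (.e (nat_lit 207684) (nat_lit 0) .nil) .nil)))) (.nd (nat_lit 9) 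
(.lf (nat_lit 514411) (.g (nat_lit 430) (.e (nat_lit 188420) (nat_lit 0) (.e (nat_lit 2174) (nat_lit 143) (.e (nat_lit 712752) (nat_lit 29) .nil))) (.g (nat_lit 0) (.e (nat_lit 206391) (nat_lit 0) .nil) .nil))) 
(.lf (nat_lit 514923) (.g (nat_lit 1010) (.e (nat_lit 188438) (nat_lit 20) (.e (nat_lit 3579) (nat_lit 223) (.e (nat_lit 745476) (nat_lit 0) (.e (nat_lit 1572) (nat_lit 110) .nil)))) (.g (nat_lit 0) (.e (nat_lit 208589) (nat_lit 0) .nil) .nil))))) (.nd (nat_lit 8) (.nd (nat_lit 9) 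
(.lf (nat_lit 514283) (.g (nat_lit 667) (.e (nat_lit 188418) (nat_lit 0) (.e (nat_lit 1800) (nat_lit 119) (.e (nat_lit 516123) (nat_lit 2) .nil))) (.g (nat_lit 0) (.e (nat_lit 206241) (nat_lit 0) .nil) .nil))) 
(.lf (nat_lit 514795) (.g (nat_lit 1387) (.e (nat_lit 188435) (nat_lit 20) (.e (nat_lit 3407) (nat_lit 212) (.e (nat_lit 655378) (nat_lit 4) (.e (nat_lit 172106) (nat_lit 10) (.e (nat_lit 434272) (nat_lit 38) .nil))))) (.g (nat_lit 0) (.e (nat_lit 208299) (nat_lit 0) .nil) .nil)))) (.nd (nat_lit 9) 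
(.lf (nat_lit 514539) (.g (nat_lit 2282) (.e (nat_lit 188423) (nat_lit 11) (.e (nat_lit 336230) (nat_lit 14) (.e (nat_lit 401448) (nat_lit 10) (.e (nat_lit 434287) (nat_lit 43) (.e (nat_lit 696346) (nat_lit 10) .nil))))) (.g (nat_lit 1) (.e (nat_lit 207120) (nat_lit 0) .nil) .nil))) 
(.lf (nat_lit 515051) (.g (nat_lit 798) (.e (nat_lit 188442) (nat_lit 20) (.e (nat_lit 3254) (nat_lit 197) (.e (nat_lit 532523) (nat_lit 7) (.e (nat_lit 327424) (nat_lit 16) .nil)))) (.g (nat_lit 0) (.e (nat_lit 208967) (nat_lit 0) .nil) .nil)))))))) (.nd (nat_lit 5) (.nd (nat_lit 6) (.nd (nat_lit 7) (.nd (nat_lit 8) (.nd (nat_lit 9) 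
(.lf (nat_lit 514075) (.g (nat_lit 1106) (.e (nat_lit 188160) (nat_lit 32) (.e (nat_lit 1653) (nat_lit 115) (.e (nat_lit 393291) (nat_lit 26) (.e (nat_lit 475199) (nat_lit 40) .nil)))) (.g (nat_lit 0) (.e (nat_lit 205446) (nat_lit 0) .nil) .nil))) 
(.lf (nat_lit 514587) (.g (nat_lit 1996) (.e (nat_lit 196352) (nat_lit 18) (.e (nat_lit 393251) (nat_lit 18) (.e (nat_lit 164399) (nat_lit 256) (.e (nat_lit 57375) (nat_lit 2) (.e (nat_lit 90177) (nat_lit 15) .nil))))) (.g (nat_lit 0) (.e (nat_lit 207339) (nat_lit 0) .nil) .nil)))) (.nd (nat_lit 9) 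
(.lf (nat_lit 514331) (.g (nat_lit 1091) (.e (nat_lit 188418) (nat_lit 0) (.e (nat_lit 2174) (nat_lit 143) (.e (nat_lit 712755) (nat_lit 30) (.e (nat_lit 450562) (nat_lit 0) .nil)))) (.g (nat_lit 0) (.e (nat_lit 206301) (nat_lit 0) .nil) .nil))) 
(.lf (nat_lit 514843) (.g (nat_lit 2425) (.e (nat_lit 188435) (nat_lit 20) (.e (nat_lit 3469) (nat_lit 217) (.e (nat_lit 696344) (nat_lit 8) (.e (nat_lit 172115) (nat_lit 10) (.e (nat_lit 434286) (nat_lit 42) (.e (nat_lit 696064) (nat_lit 10) .nil)))))) (.g (nat_lit 1) (.e (nat_lit 208410) (nat_lit 0) .nil) .nil))))) (.nd (nat_lit 8) (.nd (nat_lit 9) 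
(.lf (nat_lit 514203) (.g (nat_lit 1195) (.e (nat_lit 180287) (nat_lit 45) (.e (nat_lit 2579) (nat_lit 161) (.e (nat_lit 40964) (nat_lit 0) (.e (nat_lit 1582) (nat_lit 111) (.e (nat_lit 360477) (nat_lit 11) (.e (nat_lit 581652) (nat_lit 5) .nil)))))) (.g (nat_lit 1) (.e (nat_lit 206001) (nat_lit 0) .nil) .nil))) 
(.lf (nat_lit 514715) (.g (nat_lit 1927) (.e (nat_lit 188434) (nat_lit 20) (.e (nat_lit 3390) (nat_lit 210) (.e (nat_lit 639004) (nat_lit 13) (.e (nat_lit 1615) (nat_lit 113) (.e (nat_lit 376860) (nat_lit 21) (.e (nat_lit 57832) (nat_lit 250) (.e (nat_lit 7936) (nat_lit 166) .nil))))))) (.g (nat_lit 1) (.e (nat_lit 207936) (nat_lit 0) .nil) .nil)))) (.nd (nat_lit 9) 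
(.lf (nat_lit 514459) (.g (nat_lit 953) (.e (nat_lit 196352) (nat_lit 0) (.e (nat_lit 1859) (nat_lit 124) (.e (nat_lit 557098) (nat_lit 13) (.e (nat_lit 172124) (nat_lit 14) .nil)))) (.g (nat_lit 0) (.e (nat_lit 206449) (nat_lit 0) .nil) .nil))) 
(.lf (nat_lit 514971) (.g (nat_lit 2373) (.e (nat_lit 188439) (nat_lit 20) (.e (nat_lit 3407) (nat_lit 212) (.e (nat_lit 655364) (nat_lit 0) (.e (nat_lit 2988) (nat_lit 186) (.e (nat_lit 442374) (nat_lit 0) (.e (nat_lit 2059) (nat_lit 142) (.e (nat_lit 704598) (nat_lit 6) .nil))))))) (.g (nat_lit 1) (.e (nat_lit 208734) (nat_lit 0) .nil) .nil)))))) 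
(.nd (nat_lit 7) (.nd (nat_lit 8) (.nd (nat_lit 9) 
(.lf (nat_lit 514139) (.g (nat_lit 2766) (.e (nat_lit 188160) (nat_lit 40) (.e (nat_lit 2684) (nat_lit 168) (.e (nat_lit 204846) (nat_lit 24) (.e (nat_lit 319530) (nat_lit 16) (.e (nat_lit 286733) (nat_lit 2) .nil))))) (.g (nat_lit 0) (.e (nat_lit 205692) (nat_lit 0) .nil) .nil))) 
(.lf (nat_lit 514651) (.g (nat_lit 1942) (.e (nat_lit 188430) (nat_lit 20) (.e (nat_lit 3402) (nat_lit 211) (.e (nat_lit 647185) (nat_lit 6) (.e (nat_lit 188441) (nat_lit 20) (.e (nat_lit 3409) (nat_lit 212) (.e (nat_lit 655380) (nat_lit 6) .nil)))))) (.g (nat_lit 1) (.e (nat_lit 207630) (nat_lit 0) .nil) .nil)))) (.nd (nat_lit 9) 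
(.lf (nat_lit 514395) (.g (nat_lit 1304) (.e (nat_lit 188420) (nat_lit 0) (.e (nat_lit 2058) (nat_lit 142) (.e (nat_lit 704599) (nat_lit 6) (.e (nat_lit 188446) (nat_lit 21) (.e (nat_lit 164345) (nat_lit 240) (.e (nat_lit 2648) (nat_lit 166) .nil)))))) (.g (nat_lit 1) (.e (nat_lit 206368) (nat_lit 0) .nil) .nil))) 
(.lf (nat_lit 514907) (.g (nat_lit 2866) (.e (nat_lit 188438) (nat_lit 20) (.e (nat_lit 3469) (nat_lit 217) (.e (nat_lit 696344) (nat_lit 8) (.e (nat_lit 172106) (nat_lit 10) (.e (nat_lit 434202) (nat_lit 18) (.e (nat_lit 6254) (nat_lit 337) (.e (nat_lit 7936) (nat_lit 166) .nil))))))) (.g (nat_lit 1) (.e (nat_lit 208572) (nat_lit 0) .nil) .nil))))) (.nd (nat_lit 8) (.nd (nat_lit 9) 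
(.lf (nat_lit 514267) (.g (nat_lit 666) (.e (nat_lit 188417) (nat_lit 0) (.e (nat_lit 2143) (nat_lit 142) (.e (nat_lit 704597) (nat_lit 6) (.e (nat_lit 188417) (nat_lit 0) (.e (nat_lit 2148) (nat_lit 142) (.e (nat_lit 704597) (nat_lit 6) .nil)))))) (.g (nat_lit 1) (.e (nat_lit 206206) (nat_lit 0) .nil) .nil))) 
(.lf (nat_lit 514779) (.g (nat_lit 352) (.e (nat_lit 188434) (nat_lit 20) (.e (nat_lit 3579) (nat_lit 223) (.e (nat_lit 745491) (nat_lit 4) .nil))) (.g (nat_lit 0) (.e (nat_lit 208252) (nat_lit 0) .nil) .nil)))) (.nd (nat_lit 9) 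
(.lf (nat_lit 514523) (.g (nat_lit 1083) (.e (nat_lit 188423) (nat_lit 11) (.e (nat_lit 335995) (nat_lit 1) (.e (nat_lit 57687) (nat_lit 156) (.e (nat_lit 163903) (nat_lit 12) .nil)))) (.g (nat_lit 0) (.e (nat_lit 207006) (nat_lit 0) .nil) .nil))) 
(.lf (nat_lit 515035) (.g (nat_lit 2233) (.e (nat_lit 188439) (nat_lit 20) (.e (nat_lit 3469) (nat_lit 217) (.e (nat_lit 696344) (nat_lit 8) (.e (nat_lit 172113) (nat_lit 10) (.e (nat_lit 434207) (nat_lit 18) (.e (nat_lit 6250) (nat_lit 337) (.e (nat_lit 7936) (nat_lit 166) .nil))))))) (.g (nat_lit 1) (.e (nat_lit 208945) (nat_lit 0) .nil) .nil))))))) 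
(.nd (nat_lit 6) (.nd (nat_lit 7) (.nd (nat_lit 8) (.nd (nat_lit 9) 
(.lf (nat_lit 514107) (.g (nat_lit 491) (.e (nat_lit 188160) (nat_lit 37) (.e (nat_lit 73729) (nat_lit 0) (.e (nat_lit 7454) (nat_lit 396) .nil))) (.g (nat_lit 0) (.e (nat_lit 205595) (nat_lit 0) .nil) .nil))) 
(.lf (nat_lit 514619) (.g (nat_lit 895) (.e (nat_lit 188427) (nat_lit 20) (.e (nat_lit 3401) (nat_lit 211) (.e (nat_lit 647170) (nat_lit 0) (.e (nat_lit 2996) (nat_lit 186) (.e (nat_lit 450304) (nat_lit 4) .nil))))) (.g (nat_lit 0) (.e (nat_lit 207419) (nat_lit 0) .nil) .nil)))) (.nd (nat_lit 9) 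
(.lf (nat_lit 514363) (.g (nat_lit 2062) (.e (nat_lit 188419) (nat_lit 0) (.e (nat_lit 2174) (nat_lit 143) (.e (nat_lit 712755) (nat_lit 30) (.e (nat_lit 450564) (nat_lit 0) (.e (nat_lit 5548) (nat_lit 306) .nil))))) (.g (nat_lit 0) (.e (nat_lit 206334) (nat_lit 0) .nil) .nil))) 
(.lf (nat_lit 514875) (.g (nat_lit 1416) (.e (nat_lit 188438) (nat_lit 20) (.e (nat_lit 3307) (nat_lit 202) (.e (nat_lit 573469) (nat_lit 11) (.e (nat_lit 16459) (nat_lit 12) .nil)))) (.g (nat_lit 0) (.e (nat_lit 208493) (nat_lit 0) .nil) .nil))))) (.nd (nat_lit 8) (.nd (nat_lit 9) 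
(.lf (nat_lit 514235) (.g (nat_lit 1072) (.e (nat_lit 180288) (nat_lit 45) (.e (nat_lit 2579) (nat_lit 161) (.e (nat_lit 40965) (nat_lit 0) (.e (nat_lit 1597) (nat_lit 111) (.e (nat_lit 368384) (nat_lit 10) (.e (nat_lit 581376) (nat_lit 5) .nil)))))) (.g (nat_lit 1) (.e (nat_lit 206086) (nat_lit 0) .nil) .nil))) 
(.lf (nat_lit 514747) (.g (nat_lit 3144) (.e (nat_lit 188434) (nat_lit 20) (.e (nat_lit 3468) (nat_lit 217) (.e (nat_lit 696344) (nat_lit 8) (.e (nat_lit 172116) (nat_lit 10) (.e (nat_lit 434289) (nat_lit 43) (.e (nat_lit 696346) (nat_lit 10) .nil)))))) (.g (nat_lit 1) (.e (nat_lit 208153) (nat_lit 0) .nil) .nil)))) (.nd (nat_lit 9) 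
(.lf (nat_lit 514491) (.g (nat_lit 2825) (.e (nat_lit 188421) (nat_lit 11) (.e (nat_lit 335996) (nat_lit 1) (.e (nat_lit 57685) (nat_lit 156) (.e (nat_lit 163903) (nat_lit 12) (.e (nat_lit 426428) (nat_lit 17) .nil))))) (.g (nat_lit 0) (.e (nat_lit 206624) (nat_lit 0) .nil) .nil))) 
(.lf (nat_lit 515003) (.g (nat_lit 1447) (.e (nat_lit 188439) (nat_lit 20) (.e (nat_lit 3409) (nat_lit 212) (.e (nat_lit 655380) (nat_lit 6) (.e (nat_lit 188428) (nat_lit 20) (.e (nat_lit 3402) (nat_lit 211) (.e (nat_lit 647185) (nat_lit 6) .nil)))))) (.g (nat_lit 1) (.e (nat_lit 208829) (nat_lit 0) .nil) .nil)))))) (.nd (nat_lit 7) (.nd (nat_lit 8) (.nd (nat_lit 9) 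
(.lf (nat_lit 514171) (.g (nat_lit 1388) (.e (nat_lit 180285) (nat_lit 45) (.e (nat_lit 2579) (nat_lit 161) (.e (nat_lit 40964) (nat_lit 0) (.e (nat_lit 1582) (nat_lit 111) (.e (nat_lit 360477) (nat_lit 11) (.e (nat_lit 581652) (nat_lit 5) .nil)))))) (.g (nat_lit 1) (.e (nat_lit 205856) (nat_lit 0) .nil) .nil))) 
(.lf (nat_lit 514683) (.g (nat_lit 1184) (.e (nat_lit 188431) (nat_lit 20) (.e (nat_lit 3401) (nat_lit 211) (.e (nat_lit 647185) (nat_lit 6) (.e (nat_lit 188417) (nat_lit 0) (.e (nat_lit 2148) (nat_lit 142) (.e (nat_lit 704597) (nat_lit 6) .nil)))))) (.g (nat_lit 1) (.e (nat_lit 207766) (nat_lit 0) .nil) .nil)))) (.nd (nat_lit 9) 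
(.lf (nat_lit 514427) (.g (nat_lit 3251) (.e (nat_lit 188420) (nat_lit 0) (.e (nat_lit 2174) (nat_lit 143) (.e (nat_lit 712755) (nat_lit 30) (.e (nat_lit 450569) (nat_lit 0) (.e (nat_lit 5448) (nat_lit 306) (.e (nat_lit 2651) (nat_lit 166) .nil)))))) (.g (nat_lit 1) (.e (nat_lit 206413) (nat_lit 0) .nil) .nil))) 
(.lf (nat_lit 514939) (.g (nat_lit 1152) (.e (nat_lit 188439) (nat_lit 20) (.e (nat_lit 3296) (nat_lit 202) (.e (nat_lit 573478) (nat_lit 12) (.e (nat_lit 57574) (nat_lit 55) (.e (nat_lit 778465) (nat_lit 11) .nil))))) (.g (nat_lit 0) (.e (nat_lit 208636) (nat_lit 0) .nil) .nil))))) (.nd (nat_lit 8) (.nd (nat_lit 9) 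
(.lf (nat_lit 514299) (.g (nat_lit 3130) (.e (nat_lit 188418) (nat_lit 0) (.e (nat_lit 1856) (nat_lit 124) (.e (nat_lit 557109) (nat_lit 15) (.e (nat_lit 188455) (nat_lit 24) (.e (nat_lit 237312) (nat_lit 134) (.e (nat_lit 2653) (nat_lit 166) .nil)))))) (.g (nat_lit 1) (.e (nat_lit 206259) (nat_lit 0) .nil) .nil))) 
(.lf (nat_lit 514811) (.g (nat_lit 841) (.e (nat_lit 188435) (nat_lit 20) (.e (nat_lit 3408) (nat_lit 212) (.e (nat_lit 655380) (nat_lit 6) (.e (nat_lit 188418) (nat_lit 0) (.e (nat_lit 2056) (nat_lit 142) .nil))))) (.g (nat_lit 0) (.e (nat_lit 208327) (nat_lit 0) .nil) .nil)))) (.nd (nat_lit 9) 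
(.lf (nat_lit 514555) (.g (nat_lit 2010) (.e (nat_lit 188423) (nat_lit 11) (.e (nat_lit 336387) (nat_lit 27) (.e (nat_lit 426100) (nat_lit 1) (.e (nat_lit 164398) (nat_lit 256) (.e (nat_lit 57369) (nat_lit 2) .nil))))) (.g (nat_lit 0) (.e (nat_lit 207265) (nat_lit 0) .nil) .nil))) 
(.lf (nat_lit 515067) (.g (nat_lit 3081) (.e (nat_lit 188440) (nat_lit 20) (.e (nat_lit 3272) (nat_lit 199) (.e (nat_lit 548915) (nat_lit 20) (.e (nat_lit 188420) (nat_lit 0) (.e (nat_lit 1856) (nat_lit 124) (.e (nat_lit 557107) (nat_lit 15) .nil)))))) (.g (nat_lit 1) (.e (nat_lit 209010) (nat_lit 0) .nil) .nil)))))))))) 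
(.nd (nat_lit 3) (.nd (nat_lit 4) (.nd (nat_lit 5) (.nd (nat_lit 6) (.nd (nat_lit 7) 
(.nd (nat_lit 8) (.nd (nat_lit 9) 
(.lf (nat_lit 514055) (.g (nat_lit 1424) (.e (nat_lit 188160) (nat_lit 32) (.e (nat_lit 1256) (nat_lit 92) (.e (nat_lit 98373) (nat_lit 29) (.e (nat_lit 450567) (nat_lit 0) .nil)))) (.g (nat_lit 0) (.e (nat_lit 205420) (nat_lit 0) .nil) .nil))) 
(.lf (nat_lit 514567) (.g (nat_lit 2383) (.e (nat_lit 196352) (nat_lit 11) (.e (nat_lit 336389) (nat_lit 27) (.e (nat_lit 426098) (nat_lit 1) (.e (nat_lit 164399) (nat_lit 256) (.e (nat_lit 57375) (nat_lit 2) .nil))))) (.g (nat_lit 0) (.e (nat_lit 207293) (nat_lit 0) .nil) .nil)))) (.nd (nat_lit 9) 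
(.lf (nat_lit 514311) (.g (nat_lit 2453) (.e (nat_lit 188418) (nat_lit 0) (.e (nat_lit 2058) (nat_lit 142) (.e (nat_lit 704599) (nat_lit 6) (.e (nat_lit 188455) (nat_lit 24) (.e (nat_lit 229665) (nat_lit 240) (.e (nat_lit 2653) (nat_lit 166) .nil)))))) (.g (nat_lit 1) (.e (nat_lit 206275) (nat_lit 0) .nil) .nil))) 
(.lf (nat_lit 514823) (.g (nat_lit 1172) (.e (nat_lit 188435) (nat_lit 20) (.e (nat_lit 3409) (nat_lit 212) (.e (nat_lit 655380) (nat_lit 6) (.e (nat_lit 188441) (nat_lit 20) (.e (nat_lit 3406) (nat_lit 212) .nil))))) (.g (nat_lit 0) (.e (nat_lit 208348) (nat_lit 0) .nil) .nil))))) (.nd (nat_lit 8) (.nd (nat_lit 9) 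
(.lf (nat_lit 514183) (.g (nat_lit 443) (.e (nat_lit 180285) (nat_lit 45) (.e (nat_lit 2580) (nat_lit 161) (.e (nat_lit 40964) (nat_lit 0) (.e (nat_lit 1585) (nat_lit 111) (.e (nat_lit 368384) (nat_lit 10) (.e (nat_lit 581376) (nat_lit 5) .nil)))))) (.g (nat_lit 1) (.e (nat_lit 205868) (nat_lit 0) .nil) .nil))) 
(.lf (nat_lit 514695) (.g (nat_lit 1941) (.e (nat_lit 188431) (nat_lit 20) (.e (nat_lit 3402) (nat_lit 211) (.e (nat_lit 647185) (nat_lit 6) (.e (nat_lit 188420) (nat_lit 0) (.e (nat_lit 2059) (nat_lit 142) (.e (nat_lit 704598) (nat_lit 6) .nil)))))) (.g (nat_lit 1) (.e (nat_lit 207799) (nat_lit 0) .nil) .nil)))) (.nd (nat_lit 9) 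
(.lf (nat_lit 514439) (.g (nat_lit 1409) (.e (nat_lit 188420) (nat_lit 0) (.e (nat_lit 2175) (nat_lit 143) (.e (nat_lit 712755) (nat_lit 30) (.e (nat_lit 450560) (nat_lit 0) .nil)))) (.g (nat_lit 0) (.e (nat_lit 206426) (nat_lit 0) .nil) .nil))) 
(.lf (nat_lit 514951) (.g (nat_lit 1621) (.e (nat_lit 188439) (nat_lit 20) (.e (nat_lit 3308) (nat_lit 202) (.e (nat_lit 573475) (nat_lit 12) (.e (nat_lit 57574) (nat_lit 55) .nil)))) (.g (nat_lit 0) (.e (nat_lit 208650) (nat_lit 0) .nil) .nil)))))) (.nd (nat_lit 7) (.nd (nat_lit 8) (.nd (nat_lit 9) 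
(.lf (nat_lit 514119) (.g (nat_lit 1087) (.e (nat_lit 188160) (nat_lit 39) (.e (nat_lit 131140) (nat_lit 27) (.e (nat_lit 426190) (nat_lit 9) (.e (nat_lit 426442) (nat_lit 19) (.e (nat_lit 114432) (nat_lit 5) .nil))))) (.g (nat_lit 0) (.e (nat_lit 205641) (nat_lit 0) .nil) .nil))) 
(.lf (nat_lit 514631) (.g (nat_lit 1930) (.e (nat_lit 188428) (nat_lit 20) (.e (nat_lit 3401) (nat_lit 211) (.e (nat_lit 647183) (nat_lit 4) (.e (nat_lit 172094) (nat_lit 9) (.e (nat_lit 426025) (nat_lit 0) (.e (nat_lit 3399) (nat_lit 211) (.e (nat_lit 647185) (nat_lit 6) .nil))))))) (.g (nat_lit 1) (.e (nat_lit 207524) (nat_lit 0) .nil) .nil)))) (.nd (nat_lit 9) 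
(.lf (nat_lit 514375) (.g (nat_lit 2266) (.e (nat_lit 188420) (nat_lit 0) (.e (nat_lit 2056) (nat_lit 142) (.e (nat_lit 704598) (nat_lit 6) (.e (nat_lit 188446) (nat_lit 21) (.e (nat_lit 164347) (nat_lit 240) (.e (nat_lit 2648) (nat_lit 166) .nil)))))) (.g (nat_lit 1) (.e (nat_lit 206347) (nat_lit 0) .nil) .nil))) 
(.lf (nat_lit 514887) (.g (nat_lit 1458) (.e (nat_lit 188438) (nat_lit 20) (.e (nat_lit 3403) (nat_lit 212) (.e (nat_lit 655378) (nat_lit 4) (.e (nat_lit 172115) (nat_lit 10) (.e (nat_lit 434272) (nat_lit 38) .nil))))) (.g (nat_lit 0) (.e (nat_lit 208510) (nat_lit 0) .nil) .nil))))) (.nd (nat_lit 8) (.nd (nat_lit 9) 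
(.lf (nat_lit 514247) (.g (nat_lit 1017) (.e (nat_lit 180288) (nat_lit 45) (.e (nat_lit 2580) (nat_lit 161) (.e (nat_lit 40965) (nat_lit 0) (.e (nat_lit 1597) (nat_lit 111) (.e (nat_lit 368384) (nat_lit 10) (.e (nat_lit 581376) (nat_lit 5) .nil)))))) (.g (nat_lit 1) (.e (nat_lit 206098) (nat_lit 0) .nil) .nil))) 
(.lf (nat_lit 514759) (.g (nat_lit 2409) (.e (nat_lit 188434) (nat_lit 20) (.e (nat_lit 3469) (nat_lit 217) (.e (nat_lit 696344) (nat_lit 8) (.e (nat_lit 172107) (nat_lit 10) (.e (nat_lit 434286) (nat_lit 42) (.e (nat_lit 696064) (nat_lit 10) .nil)))))) (.g (nat_lit 1) (.e (nat_lit 208221) (nat_lit 0) .nil) .nil)))) (.nd (nat_lit 9) 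
(.lf (nat_lit 514503) (.g (nat_lit 2900) (.e (nat_lit 188421) (nat_lit 11) (.e (nat_lit 336231) (nat_lit 14) (.e (nat_lit 401448) (nat_lit 10) (.e (nat_lit 434288) (nat_lit 43) (.e (nat_lit 696346) (nat_lit 10) .nil))))) (.g (nat_lit 1) (.e (nat_lit 206807) (nat_lit 0) .nil) .nil))) 
(.lf (nat_lit 515015) (.g (nat_lit 2761) (.e (nat_lit 188439) (nat_lit 20) (.e (nat_lit 3409) (nat_lit 212) (.e (nat_lit 655380) (nat_lit 6) (.e (nat_lit 188446) (nat_lit 21) (.e (nat_lit 164347) (nat_lit 240) (.e (nat_lit 2648) (nat_lit 166) .nil)))))) (.g (nat_lit 1) (.e (nat_lit 208844) (nat_lit 0) .nil) .nil))))))) (.nd (nat_lit 6) (.nd (nat_lit 7) (.nd (nat_lit 8) (.nd (nat_lit 9) 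
(.lf (nat_lit 514087) (.g (nat_lit 430) (.e (nat_lit 188160) (nat_lit 32) (.e (nat_lit 1663) (nat_lit 115) (.e (nat_lit 393290) (nat_lit 26) (.e (nat_lit 475198) (nat_lit 40) .nil)))) (.g (nat_lit 0) (.e (nat_lit 205458) (nat_lit 0) .nil) .nil))) 
(.lf (nat_lit 514599) (.g (nat_lit 4989) (.e (nat_lit 188424) (nat_lit 20) (.e (nat_lit 3238) (nat_lit 197) (.e (nat_lit 532523) (nat_lit 7) (.e (nat_lit 319531) (nat_lit 16) (.e (nat_lit 286733) (nat_lit 2) (.e (nat_lit 90178) (nat_lit 15) .nil)))))) (.g (nat_lit 1) (.e (nat_lit 207376) (nat_lit 0) .nil) .nil)))) (.nd (nat_lit 9) 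
(.lf (nat_lit 514343) (.g (nat_lit 2679) (.e (nat_lit 188418) (nat_lit 0) (.e (nat_lit 2175) (nat_lit 143) (.e (nat_lit 712753) (nat_lit 30) (.e (nat_lit 450564) (nat_lit 0) (.e (nat_lit 5548) (nat_lit 306) (.e (nat_lit 2648) (nat_lit 166) .nil)))))) (.g (nat_lit 1) (.e (nat_lit 206314) (nat_lit 0) .nil) .nil))) 
(.lf (nat_lit 514855) (.g (nat_lit 1607) (.e (nat_lit 188436) (nat_lit 20) (.e (nat_lit 3307) (nat_lit 202) (.e (nat_lit 573477) (nat_lit 12) (.e (nat_lit 57575) (nat_lit 55) .nil)))) (.g (nat_lit 0) (.e (nat_lit 208431) (nat_lit 0) .nil) .nil))))) (.nd (nat_lit 8) (.nd (nat_lit 9) 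
(.lf (nat_lit 514215) (.g (nat_lit 275) (.e (nat_lit 180287) (nat_lit 45) (.e (nat_lit 2580) (nat_lit 161) (.e (nat_lit 40964) (nat_lit 0) (.e (nat_lit 1585) (nat_lit 111) (.e (nat_lit 368384) (nat_lit 10) (.e (nat_lit 581376) (nat_lit 5) .nil)))))) (.g (nat_lit 1) (.e (nat_lit 206013) (nat_lit 0) .nil) .nil))) 
(.lf (nat_lit 514727) (.g (nat_lit 2535) (.e (nat_lit 188434) (nat_lit 20) (.e (nat_lit 3408) (nat_lit 212) (.e (nat_lit 655378) (nat_lit 4) (.e (nat_lit 172113) (nat_lit 10) (.e (nat_lit 434272) (nat_lit 38) (.e (nat_lit 655380) (nat_lit 6) .nil)))))) (.g (nat_lit 1) (.e (nat_lit 208031) (nat_lit 0) .nil) .nil)))) (.nd (nat_lit 9) 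
(.lf (nat_lit 514471) (.g (nat_lit 1001) (.e (nat_lit 196352) (nat_lit 0) (.e (nat_lit 2031) (nat_lit 140) (.e (nat_lit 688186) (nat_lit 18) (.e (nat_lit 89856) (nat_lit 0) .nil)))) (.g (nat_lit 0) (.e (nat_lit 206464) (nat_lit 0) .nil) .nil))) 
(.lf (nat_lit 514983) (.g (nat_lit 2665) (.e (nat_lit 188439) (nat_lit 20) (.e (nat_lit 3408) (nat_lit 212) (.e (nat_lit 655364) (nat_lit 0) (.e (nat_lit 3004) (nat_lit 186) (.e (nat_lit 442374) (nat_lit 0) (.e (nat_lit 2059) (nat_lit 142) (.e (nat_lit 704598) (nat_lit 6) .nil))))))) (.g (nat_lit 1) (.e (nat_lit 208781) (nat_lit 0) .nil) .nil)))))) 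
(.nd (nat_lit 7) (.nd (nat_lit 8) (.nd (nat_lit 9) 
(.lf (nat_lit 514151) (.g (nat_lit 554) (.e (nat_lit 180284) (nat_lit 45) (.e (nat_lit 2579) (nat_lit 161) (.e (nat_lit 40965) (nat_lit 0) (.e (nat_lit 1582) (nat_lit 111) (.e (nat_lit 368384) (nat_lit 10) .nil))))) (.g (nat_lit 0) (.e (nat_lit 205755) (nat_lit 0) .nil) .nil))) 
(.lf (nat_lit 514663) (.g (nat_lit 2434) (.e (nat_lit 188431) (nat_lit 20) (.e (nat_lit 3397) (nat_lit 211) (.e (nat_lit 647183) (nat_lit 4) (.e (nat_lit 172120) (nat_lit 12) (.e (nat_lit 475198) (nat_lit 40) (.e (nat_lit 704598) (nat_lit 6) .nil)))))) (.g (nat_lit 1) (.e (nat_lit 207678) (nat_lit 0) .nil) .nil)))) (.nd (nat_lit 9) 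
(.lf (nat_lit 514407) (.g (nat_lit 1135) (.e (nat_lit 188420) (nat_lit 0) (.e (nat_lit 2174) (nat_lit 143) (.e (nat_lit 712745) (nat_lit 27) (.e (nat_lit 426232) (nat_lit 9) (.e (nat_lit 426441) (nat_lit 19) .nil))))) (.g (nat_lit 0) (.e (nat_lit 206381) (nat_lit 0) .nil) .nil))) 
(.lf (nat_lit 514919) (.g (nat_lit 453) (.e (nat_lit 188438) (nat_lit 20) (.e (nat_lit 3578) (nat_lit 223) (.e (nat_lit 745475) (nat_lit 0) (.e (nat_lit 1592) (nat_lit 111) (.e (nat_lit 368384) (nat_lit 10) .nil))))) (.g (nat_lit 0) (.e (nat_lit 208585) (nat_lit 0) .nil) .nil))))) (.nd (nat_lit 8) (.nd (nat_lit 9) 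
(.lf (nat_lit 514279) (.g (nat_lit 518) (.e (nat_lit 188418) (nat_lit 0) (.e (nat_lit 1781) (nat_lit 119) (.e (nat_lit 516126) (nat_lit 2) (.e (nat_lit 213032) (nat_lit 11) .nil)))) (.g (nat_lit 0) (.e (nat_lit 206237) (nat_lit 0) .nil) .nil))) 
(.lf (nat_lit 514791) (.g (nat_lit 333) (.e (nat_lit 188435) (nat_lit 20) (.e (nat_lit 3289) (nat_lit 201) (.e (nat_lit 565268) (nat_lit 5) (.e (nat_lit 73794) (nat_lit 46) (.e (nat_lit 57606) (nat_lit 107) .nil))))) (.g (nat_lit 0) (.e (nat_lit 208293) (nat_lit 0) .nil) .nil)))) (.nd (nat_lit 9) 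
(.lf (nat_lit 514535) (.g (nat_lit 1796) (.e (nat_lit 188423) (nat_lit 11) (.e (nat_lit 335996) (nat_lit 1) (.e (nat_lit 57692) (nat_lit 156) (.e (nat_lit 171776) (nat_lit 12) .nil)))) (.g (nat_lit 0) (.e (nat_lit 207018) (nat_lit 0) .nil) .nil))) 
(.lf (nat_lit 515047) (.g (nat_lit 151) (.e (nat_lit 188439) (nat_lit 20) (.e (nat_lit 3578) (nat_lit 223) (.e (nat_lit 745474) (nat_lit 0) .nil))) (.g (nat_lit 0) (.e (nat_lit 208963) (nat_lit 0) .nil) .nil)))))))) (.nd (nat_lit 5) (.nd (nat_lit 6) (.nd (nat_lit 7) (.nd (nat_lit 8) (.nd (nat_lit 9) 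
(.lf (nat_lit 514071) (.g (nat_lit 1284) (.e (nat_lit 188160) (nat_lit 32) (.e (nat_lit 1648) (nat_lit 115) (.e (nat_lit 393294) (nat_lit 26) (.e (nat_lit 475200) (nat_lit 40) .nil)))) (.g (nat_lit 0) (.e (nat_lit 205442) (nat_lit 0) .nil) .nil))) 
(.lf (nat_lit 514583) (.g (nat_lit 1210) (.e (nat_lit 196352) (nat_lit 16) (.e (nat_lit 376860) (nat_lit 21) (.e (nat_lit 57854) (nat_lit 252) (.e (nat_lit 57354) (nat_lit 0) .nil)))) (.g (nat_lit 0) (.e (nat_lit 207324) (nat_lit 0) .nil) .nil)))) (.nd (nat_lit 9) 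
(.lf (nat_lit 514327) (.g (nat_lit 1368) (.e (nat_lit 188418) (nat_lit 0) (.e (nat_lit 2174) (nat_lit 143) (.e (nat_lit 712752) (nat_lit 29) (.e (nat_lit 442377) (nat_lit 0) (.e (nat_lit 2059) (nat_lit 142) .nil))))) (.g (nat_lit 0) (.e (nat_lit 206296) (nat_lit 0) .nil) .nil))) 
(.lf (nat_lit 514839) (.g (nat_lit 3362) (.e (nat_lit 188435) (nat_lit 20) (.e (nat_lit 3469) (nat_lit 217) (.e (nat_lit 696344) (nat_lit 8) (.e (nat_lit 172113) (nat_lit 10) (.e (nat_lit 434208) (nat_lit 18) (.e (nat_lit 6252) (nat_lit 337) (.e (nat_lit 7936) (nat_lit 166) .nil))))))) (.g (nat_lit 1) (.e (nat_lit 208406) (nat_lit 0) .nil) .nil))))) (.nd (nat_lit 8) (.nd (nat_lit 9) 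
(.lf (nat_lit 514199) (.g (nat_lit 897) (.e (nat_lit 180287) (nat_lit 45) (.e (nat_lit 2577) (nat_lit 161) (.e (nat_lit 40965) (nat_lit 0) (.e (nat_lit 1597) (nat_lit 111) (.e (nat_lit 368384) (nat_lit 10) (.e (nat_lit 581376) (nat_lit 5) .nil)))))) (.g (nat_lit 1) (.e (nat_lit 205997) (nat_lit 0) .nil) .nil))) 
(.lf (nat_lit 514711) (.g (nat_lit 1513) (.e (nat_lit 188434) (nat_lit 20) (.e (nat_lit 3289) (nat_lit 201) (.e (nat_lit 565269) (nat_lit 6) (.e (nat_lit 81938) (nat_lit 20) (.e (nat_lit 2389) (nat_lit 156) (.e (nat_lit 819221) (nat_lit 6) .nil)))))) (.g (nat_lit 1) (.e (nat_lit 207921) (nat_lit 0) .nil) .nil)))) (.nd (nat_lit 9) 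
(.lf (nat_lit 514455) (.g (nat_lit 1294) (.e (nat_lit 196352) (nat_lit 0) (.e (nat_lit 1853) (nat_lit 124) (.e (nat_lit 557103) (nat_lit 14) (.e (nat_lit 188160) (nat_lit 35) .nil)))) (.g (nat_lit 0) (.e (nat_lit 206445) (nat_lit 0) .nil) .nil))) 
(.lf (nat_lit 514967) (.g (nat_lit 833) (.e (nat_lit 188439) (nat_lit 20) (.e (nat_lit 3406) (nat_lit 212) (.e (nat_lit 655380) (nat_lit 6) (.e (nat_lit 188418) (nat_lit 0) (.e (nat_lit 2056) (nat_lit 142) .nil))))) (.g (nat_lit 0) (.e (nat_lit 208726) (nat_lit 0) .nil) .nil)))))) (.nd (nat_lit 7) (.nd (nat_lit 8) (.nd (nat_lit 9) 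
(.lf (nat_lit 514135) (.g (nat_lit 1042) (.e (nat_lit 188160) (nat_lit 40) (.e (nat_lit 2679) (nat_lit 168) (.e (nat_lit 204846) (nat_lit 24) (.e (nat_lit 319532) (nat_lit 16) .nil)))) (.g (nat_lit 0) (.e (nat_lit 205688) (nat_lit 0) .nil) .nil))) 
(.lf (nat_lit 514647) (.g (nat_lit 1488) (.e (nat_lit 188430) (nat_lit 20) (.e (nat_lit 3399) (nat_lit 211) (.e (nat_lit 647185) (nat_lit 6) (.e (nat_lit 188440) (nat_lit 20) (.e (nat_lit 3408) (nat_lit 212) (.e (nat_lit 655380) (nat_lit 6) .nil)))))) (.g (nat_lit 1) (.e (nat_lit 207625) (nat_lit 0) .nil) .nil)))) (.nd (nat_lit 9) 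
(.lf (nat_lit 514391) (.g (nat_lit 428) (.e (nat_lit 188420) (nat_lit 0) (.e (nat_lit 2058) (nat_lit 142) (.e (nat_lit 704599) (nat_lit 6) .nil))) (.g (nat_lit 0) (.e (nat_lit 206364) (nat_lit 0) .nil) .nil))) 
(.lf (nat_lit 514903) (.g (nat_lit 1848) (.e (nat_lit 188438) (nat_lit 20) (.e (nat_lit 3409) (nat_lit 212) (.e (nat_lit 655380) (nat_lit 6) (.e (nat_lit 188441) (nat_lit 20) (.e (nat_lit 3409) (nat_lit 212) (.e (nat_lit 655380) (nat_lit 6) .nil)))))) (.g (nat_lit 1) (.e (nat_lit 208530) (nat_lit 0) .nil) .nil))))) (.nd (nat_lit 8) (.nd (nat_lit 9) 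
(.lf (nat_lit 514263) (.g (nat_lit 2602) (.e (nat_lit 188416) (nat_lit 0) (.e (nat_lit 2147) (nat_lit 142) (.e (nat_lit 704597) (nat_lit 6) (.e (nat_lit 188446) (nat_lit 21) (.e (nat_lit 164347) (nat_lit 240) (.e (nat_lit 2648) (nat_lit 166) .nil)))))) (.g (nat_lit 1) (.e (nat_lit 206199) (nat_lit 0) .nil) .nil))) 
(.lf (nat_lit 514775) (.g (nat_lit 1878) (.e (nat_lit 188434) (nat_lit 20) (.e (nat_lit 3469) (nat_lit 217) (.e (nat_lit 696344) (nat_lit 8) (.e (nat_lit 172115) (nat_lit 10) (.e (nat_lit 434209) (nat_lit 18) (.e (nat_lit 6272) (nat_lit 337) (.e (nat_lit 2645) (nat_lit 166) .nil))))))) (.g (nat_lit 1) (.e (nat_lit 208237) (nat_lit 0) .nil) .nil)))) (.nd (nat_lit 9) 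
(.lf (nat_lit 514519) (.g (nat_lit 1544) (.e (nat_lit 188423) (nat_lit 11) (.e (nat_lit 335986) (nat_lit 1) (.e (nat_lit 57691) (nat_lit 156) (.e (nat_lit 163906) (nat_lit 12) (.e (nat_lit 426427) (nat_lit 17) .nil))))) (.g (nat_lit 0) (.e (nat_lit 207002) (nat_lit 0) .nil) .nil))) 
(.lf (nat_lit 515031) (.g (nat_lit 1171) (.e (nat_lit 188439) (nat_lit 20) (.e (nat_lit 3469) (nat_lit 217) (.e (nat_lit 696344) (nat_lit 8) (.e (nat_lit 172113) (nat_lit 10) .nil)))) (.g (nat_lit 0) (.e (nat_lit 208941) (nat_lit 0) .nil) .nil))))))) (.nd (nat_lit 6) (.nd (nat_lit 7) (.nd (nat_lit 8) (.nd (nat_lit 9) 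
(.lf (nat_lit 514103) (.g (nat_lit 2000) (.e (nat_lit 188160) (nat_lit 35) (.e (nat_lit 57464) (nat_lit 23) (.e (nat_lit 516151) (nat_lit 9) (.e (nat_lit 426290) (nat_lit 10) .nil)))) (.g (nat_lit 0) (.e (nat_lit 205544) (nat_lit 0) .nil) .nil))) 
(.lf (nat_lit 514615) (.g (nat_lit 3724) (.e (nat_lit 188427) (nat_lit 20) (.e (nat_lit 3397) (nat_lit 211) (.e (nat_lit 647183) (nat_lit 4) (.e (nat_lit 172106) (nat_lit 10) (.e (nat_lit 434209) (nat_lit 18) (.e (nat_lit 5548) (nat_lit 306) (.e (nat_lit 2650) (nat_lit 166) .nil))))))) (.g (nat_lit 1) (.e (nat_lit 207412) (nat_lit 0) .nil) .nil)))) (.nd (nat_lit 9) 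
(.lf (nat_lit 514359) (.g (nat_lit 846) (.e (nat_lit 188419) (nat_lit 0) (.e (nat_lit 2059) (nat_lit 142) (.e (nat_lit 704599) (nat_lit 6) (.e (nat_lit 188445) (nat_lit 21) .nil)))) (.g (nat_lit 0) (.e (nat_lit 206330) (nat_lit 0) .nil) .nil))) 
(.lf (nat_lit 514871) (.g (nat_lit 1130) (.e (nat_lit 188438) (nat_lit 20) (.e (nat_lit 3272) (nat_lit 199) (.e (nat_lit 548898) (nat_lit 14) (.e (nat_lit 2884) (nat_lit 184) .nil)))) (.g (nat_lit 0) (.e (nat_lit 208481) (nat_lit 0) .nil) .nil))))) (.nd (nat_lit 8) (.nd (nat_lit 9) 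
(.lf (nat_lit 514231) (.g (nat_lit 710) (.e (nat_lit 180288) (nat_lit 45) (.e (nat_lit 2579) (nat_lit 161) (.e (nat_lit 40965) (nat_lit 0) (.e (nat_lit 1574) (nat_lit 110) (.e (nat_lit 360192) (nat_lit 2) (.e (nat_lit 204544) (nat_lit 5) .nil)))))) (.g (nat_lit 1) (.e (nat_lit 206082) (nat_lit 0) .nil) .nil))) 
(.lf (nat_lit 514743) (.g (nat_lit 2622) (.e (nat_lit 188434) (nat_lit 20) (.e (nat_lit 3467) (nat_lit 217) (.e (nat_lit 696344) (nat_lit 8) (.e (nat_lit 172106) (nat_lit 10) (.e (nat_lit 434209) (nat_lit 18) (.e (nat_lit 6272) (nat_lit 337) (.e (nat_lit 2645) (nat_lit 166) .nil))))))) (.g (nat_lit 1) (.e (nat_lit 208080) (nat_lit 0) .nil) .nil)))) (.nd (nat_lit 9) 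
(.lf (nat_lit 514487) (.g (nat_lit 1950) (.e (nat_lit 188421) (nat_lit 11) (.e (nat_lit 335988) (nat_lit 1) (.e (nat_lit 57691) (nat_lit 156) (.e (nat_lit 163906) (nat_lit 12) (.e (nat_lit 426428) (nat_lit 17) .nil))))) (.g (nat_lit 0) (.e (nat_lit 206620) (nat_lit 0) .nil) .nil))) 
(.lf (nat_lit 514999) (.g (nat_lit 2413) (.e (nat_lit 188439) (nat_lit 20) (.e (nat_lit 3409) (nat_lit 212) (.e (nat_lit 655378) (nat_lit 4) (.e (nat_lit 172118) (nat_lit 12) (.e (nat_lit 475199) (nat_lit 40) (.e (nat_lit 704598) (nat_lit 6) .nil)))))) (.g (nat_lit 1) (.e (nat_lit 208825) (nat_lit 0) .nil) .nil)))))) (.nd (nat_lit 7) (.nd (nat_lit 8) (.nd (nat_lit 9) 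
(.lf (nat_lit 514167) (.g (nat_lit 529) (.e (nat_lit 180285) (nat_lit 45) (.e (nat_lit 2577) (nat_lit 161) (.e (nat_lit 40965) (nat_lit 0) (.e (nat_lit 1582) (nat_lit 111) (.e (nat_lit 368384) (nat_lit 11) .nil))))) (.g (nat_lit 0) (.e (nat_lit 205852) (nat_lit 0) .nil) .nil))) 
(.lf (nat_lit 514679) (.g (nat_lit 1563) (.e (nat_lit 188431) (nat_lit 20) (.e (nat_lit 3401) (nat_lit 211) (.e (nat_lit 647170) (nat_lit 0) (.e (nat_lit 2999) (nat_lit 186) (.e (nat_lit 450304) (nat_lit 4) (.e (nat_lit 114432) (nat_lit 6) .nil)))))) (.g (nat_lit 1) (.e (nat_lit 207714) (nat_lit 0) .nil) .nil)))) (.nd (nat_lit 9) 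
(.lf (nat_lit 514423) (.g (nat_lit 2348) (.e (nat_lit 188420) (nat_lit 0) (.e (nat_lit 2174) (nat_lit 143) (.e (nat_lit 712755) (nat_lit 30) (.e (nat_lit 450563) (nat_lit 0) (.e (nat_lit 5539) (nat_lit 306) (.e (nat_lit 7936) (nat_lit 166) .nil)))))) (.g (nat_lit 1) (.e (nat_lit 206409) (nat_lit 0) .nil) .nil))) 
(.lf (nat_lit 514935) (.g (nat_lit 2000) (.e (nat_lit 188439) (nat_lit 20) (.e (nat_lit 3272) (nat_lit 199) (.e (nat_lit 548913) (nat_lit 18) (.e (nat_lit 172119) (nat_lit 12) (.e (nat_lit 475184) (nat_lit 29) .nil))))) (.g (nat_lit 0) (.e (nat_lit 208627) (nat_lit 0) .nil) .nil))))) (.nd (nat_lit 8) (.nd (nat_lit 9) 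
(.lf (nat_lit 514295) (.g (nat_lit 1456) (.e (nat_lit 188418) (nat_lit 0) (.e (nat_lit 1856) (nat_lit 124) (.e (nat_lit 557107) (nat_lit 15) (.e (nat_lit 188438) (nat_lit 20) .nil)))) (.g (nat_lit 0) (.e (nat_lit 206255) (nat_lit 0) .nil) .nil))) 
(.lf (nat_lit 514807) (.g (nat_lit 2182) (.e (nat_lit 188435) (nat_lit 20) (.e (nat_lit 3408) (nat_lit 212) (.e (nat_lit 655378) (nat_lit 4) (.e (nat_lit 172115) (nat_lit 10) (.e (nat_lit 434272) (nat_lit 38) (.e (nat_lit 655380) (nat_lit 6) .nil)))))) (.g (nat_lit 1) (.e (nat_lit 208323) (nat_lit 0) .nil) .nil)))) (.nd (nat_lit 9) 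
(.lf (nat_lit 514551) (.g (nat_lit 1834) (.e (nat_lit 188423) (nat_lit 11) (.e (nat_lit 336385) (nat_lit 27) (.e (nat_lit 426098) (nat_lit 1) (.e (nat_lit 164399) (nat_lit 256) (.e (nat_lit 57375) (nat_lit 2) .nil))))) (.g (nat_lit 0) (.e (nat_lit 207261) (nat_lit 0) .nil) .nil))) 
(.lf (nat_lit 515063) (.g (nat_lit 1323) (.e (nat_lit 188440) (nat_lit 20) (.e (nat_lit 3272) (nat_lit 199) (.e (nat_lit 548913) (nat_lit 18) (.e (nat_lit 172125) (nat_lit 14) .nil)))) (.g (nat_lit 0) (.e (nat_lit 209003) (nat_lit 0) .nil) .nil))))))))) (.nd (nat_lit 4) (.nd (nat_lit 5) (.nd (nat_lit 6) (.nd (nat_lit 7) (.nd (nat_lit 8) (.nd (nat_lit 9) 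
(.lf (nat_lit 514063) (.g (nat_lit 123) (.e (nat_lit 188160) (nat_lit 32) (.e (nat_lit 1469) (nat_lit 108) (.e (nat_lit 336442) (nat_lit 32) (.e (nat_lit 474880) (nat_lit 4) .nil)))) (.g (nat_lit 0) (.e (nat_lit 205431) (nat_lit 0) .nil) .nil))) 
(.lf (nat_lit 514575) (.g (nat_lit 1380) (.e (nat_lit 196352) (nat_lit 11) (.e (nat_lit 336390) (nat_lit 27) (.e (nat_lit 426100) (nat_lit 1) (.e (nat_lit 164399) (nat_lit 256) .nil)))) (.g (nat_lit 0) (.e (nat_lit 207301) (nat_lit 0) .nil) .nil)))) (.nd (nat_lit 9) 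
(.lf (nat_lit 514319) (.g (nat_lit 1146) (.e (nat_lit 188418) (nat_lit 0) (.e (nat_lit 2059) (nat_lit 142) (.e (nat_lit 704599) (nat_lit 6) (.e (nat_lit 188454) (nat_lit 24) (.e (nat_lit 229665) (nat_lit 240) .nil))))) (.g (nat_lit 0) (.e (nat_lit 206283) (nat_lit 0) .nil) .nil))) 
(.lf (nat_lit 514831) (.g (nat_lit 2053) (.e (nat_lit 188435) (nat_lit 20) (.e (nat_lit 3469) (nat_lit 217) (.e (nat_lit 696344) (nat_lit 8) (.e (nat_lit 172107) (nat_lit 10) (.e (nat_lit 434286) (nat_lit 42) (.e (nat_lit 696064) (nat_lit 10) .nil)))))) (.g (nat_lit 1) (.e (nat_lit 208398) (nat_lit 0) .nil) .nil))))) (.nd (nat_lit 8) (.nd (nat_lit 9) 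
(.lf (nat_lit 514191) (.g (nat_lit 2812) (.e (nat_lit 180285) (nat_lit 45) (.e (nat_lit 2788) (nat_lit 179) (.e (nat_lit 294974) (nat_lit 29) (.e (nat_lit 442379) (nat_lit 0) (.e (nat_lit 2059) (nat_lit 142) (.e (nat_lit 704595) (nat_lit 5) .nil)))))) (.g (nat_lit 1) (.e (nat_lit 205926) (nat_lit 0) .nil) .nil))) 
(.lf (nat_lit 514703) (.g (nat_lit 3932) (.e (nat_lit 188434) (nat_lit 20) (.e (nat_lit 3271) (nat_lit 199) (.e (nat_lit 548913) (nat_lit 18) (.e (nat_lit 172120) (nat_lit 12) (.e (nat_lit 475185) (nat_lit 29) (.e (nat_lit 557109) (nat_lit 15) .nil)))))) (.g (nat_lit 1) (.e (nat_lit 207894) (nat_lit 0) .nil) .nil)))) (.nd (nat_lit 9) 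
(.lf (nat_lit 514447) (.g (nat_lit 1223) (.e (nat_lit 196352) (nat_lit 0) (.e (nat_lit 1788) (nat_lit 119) (.e (nat_lit 516126) (nat_lit 2) (.e (nat_lit 213032) (nat_lit 11) (.e (nat_lit 24605) (nat_lit 2) .nil))))) (.g (nat_lit 0) (.e (nat_lit 206437) (nat_lit 0) .nil) .nil))) 
(.lf (nat_lit 514959) (.g (nat_lit 2178) (.e (nat_lit 188439) (nat_lit 20) (.e (nat_lit 3390) (nat_lit 210) (.e (nat_lit 639025) (nat_lit 20) (.e (nat_lit 131116) (nat_lit 9) (.e (nat_lit 335988) (nat_lit 1) (.e (nat_lit 57830) (nat_lit 250) (.e (nat_lit 7936) (nat_lit 166) .nil))))))) (.g (nat_lit 1) (.e (nat_lit 208691) (nat_lit 0) .nil) .nil)))))) 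
(.nd (nat_lit 7) (.nd (nat_lit 8) (.nd (nat_lit 9) 
(.lf (nat_lit 514127) (.g (nat_lit 887) (.e (nat_lit 188160) (nat_lit 39) (.e (nat_lit 131140) (nat_lit 27) (.e (nat_lit 426306) (nat_lit 12) (.e (nat_lit 475196) (nat_lit 40) .nil)))) (.g (nat_lit 0) (.e (nat_lit 205660) (nat_lit 0) .nil) .nil))) 
(.lf (nat_lit 514639) (.g (nat_lit 218) (.e (nat_lit 188428) (nat_lit 20) (.e (nat_lit 3402) (nat_lit 211) (.e (nat_lit 647185) (nat_lit 6) .nil))) (.g (nat_lit 0) (.e (nat_lit 207540) (nat_lit 0) .nil) .nil)))) (.nd (nat_lit 9) 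
(.lf (nat_lit 514383) (.g (nat_lit 2621) (.e (nat_lit 188420) (nat_lit 0) (.e (nat_lit 2057) (nat_lit 142) (.e (nat_lit 704598) (nat_lit 6) (.e (nat_lit 188455) (nat_lit 24) (.e (nat_lit 229665) (nat_lit 240) (.e (nat_lit 2651) (nat_lit 166) .nil)))))) (.g (nat_lit 1) (.e (nat_lit 206355) (nat_lit 0) .nil) .nil))) 
(.lf (nat_lit 514895) (.g (nat_lit 1685) (.e (nat_lit 188438) (nat_lit 20) (.e (nat_lit 3407) (nat_lit 212) (.e (nat_lit 655380) (nat_lit 6) (.e (nat_lit 188441) (nat_lit 20) (.e (nat_lit 3408) (nat_lit 212) (.e (nat_lit 655380) (nat_lit 6) .nil)))))) (.g (nat_lit 1) (.e (nat_lit 208518) (nat_lit 0) .nil) .nil))))) (.nd (nat_lit 8) (.nd (nat_lit 9) 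
(.lf (nat_lit 514255) (.g (nat_lit 396) (.e (nat_lit 188416) (nat_lit 0) (.e (nat_lit 2147) (nat_lit 142) (.e (nat_lit 704597) (nat_lit 6) (.e (nat_lit 188416) (nat_lit 0) .nil)))) (.g (nat_lit 0) (.e (nat_lit 206190) (nat_lit 0) .nil) .nil))) 
(.lf (nat_lit 514767) (.g (nat_lit 3359) (.e (nat_lit 188434) (nat_lit 20) (.e (nat_lit 3469) (nat_lit 217) (.e (nat_lit 696344) (nat_lit 8) (.e (nat_lit 172113) (nat_lit 10) (.e (nat_lit 434208) (nat_lit 18) (.e (nat_lit 6250) (nat_lit 337) (.e (nat_lit 7936) (nat_lit 166) .nil))))))) (.g (nat_lit 1) (.e (nat_lit 208229) (nat_lit 0) .nil) .nil)))) (.nd (nat_lit 9) 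
(.lf (nat_lit 514511) (.g (nat_lit 1811) (.e (nat_lit 188422) (nat_lit 11) (.e (nat_lit 335996) (nat_lit 1) (.e (nat_lit 57692) (nat_lit 156) (.e (nat_lit 163905) (nat_lit 12) .nil)))) (.g (nat_lit 0) (.e (nat_lit 206889) (nat_lit 0) .nil) .nil))) 
(.lf (nat_lit 515023) (.g (nat_lit 2453) (.e (nat_lit 188439) (nat_lit 20) (.e (nat_lit 3469) (nat_lit 217) (.e (nat_lit 696344) (nat_lit 8) (.e (nat_lit 172106) (nat_lit 10) (.e (nat_lit 434202) (nat_lit 18) (.e (nat_lit 6254) (nat_lit 337) (.e (nat_lit 7936) (nat_lit 166) .nil))))))) (.g (nat_lit 1) (.e (nat_lit 208933) (nat_lit 0) .nil) .nil))))))) 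
(.nd (nat_lit 6) (.nd (nat_lit 7) (.nd (nat_lit 8) (.nd (nat_lit 9) 
(.lf (nat_lit 514095) (.g (nat_lit 2318) (.e (nat_lit 188160) (nat_lit 35) (.e (nat_lit 57464) (nat_lit 23) (.e (nat_lit 516151) (nat_lit 9) (.e (nat_lit 426022) (nat_lit 0) .nil)))) (.g (nat_lit 0) (.e (nat_lit 205534) (nat_lit 0) .nil) .nil))) 
(.lf (nat_lit 514607) (.g (nat_lit 4983) (.e (nat_lit 188424) (nat_lit 20) (.e (nat_lit 3307) (nat_lit 202) (.e (nat_lit 573477) (nat_lit 12) (.e (nat_lit 57574) (nat_lit 55) (.e (nat_lit 778466) (nat_lit 11) (.e (nat_lit 24604) (nat_lit 2) (.e (nat_lit 90176) (nat_lit 15) .nil))))))) (.g (nat_lit 1) (.e (nat_lit 207386) (nat_lit 0) .nil) .nil)))) (.nd (nat_lit 9) 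
(.lf (nat_lit 514351) (.g (nat_lit 2995) (.e (nat_lit 188418) (nat_lit 0) (.e (nat_lit 2175) (nat_lit 143) (.e (nat_lit 712755) (nat_lit 30) (.e (nat_lit 450564) (nat_lit 0) (.e (nat_lit 5548) (nat_lit 306) (.e (nat_lit 2648) (nat_lit 166) .nil)))))) (.g (nat_lit 1) (.e (nat_lit 206322) (nat_lit 0) .nil) .nil))) 
(.lf (nat_lit 514863) (.g (nat_lit 1332) (.e (nat_lit 188437) (nat_lit 20) (.e (nat_lit 3238) (nat_lit 197) (.e (nat_lit 532523) (nat_lit 7) (.e (nat_lit 319534) (nat_lit 16) .nil)))) (.g (nat_lit 0) (.e (nat_lit 208454) (nat_lit 0) .nil) .nil))))) (.nd (nat_lit 8) (.nd (nat_lit 9) 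
(.lf (nat_lit 514223) (.g (nat_lit 619) (.e (nat_lit 180287) (nat_lit 45) (.e (nat_lit 2789) (nat_lit 179) (.e (nat_lit 294974) (nat_lit 29) (.e (nat_lit 442379) (nat_lit 0) .nil)))) (.g (nat_lit 0) (.e (nat_lit 206049) (nat_lit 0) .nil) .nil))) 
(.lf (nat_lit 514735) (.g (nat_lit 2278) (.e (nat_lit 188434) (nat_lit 20) (.e (nat_lit 3409) (nat_lit 212) (.e (nat_lit 655376) (nat_lit 4) (.e (nat_lit 172120) (nat_lit 12) (.e (nat_lit 475198) (nat_lit 40) (.e (nat_lit 704598) (nat_lit 6) .nil)))))) (.g (nat_lit 1) (.e (nat_lit 208055) (nat_lit 0) .nil) .nil)))) (.nd (nat_lit 9) 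
(.lf (nat_lit 514479) (.g (nat_lit 175) (.e (nat_lit 196352) (nat_lit 8) (.e (nat_lit 155649) (nat_lit 0) (.e (nat_lit 2985) (nat_lit 186) (.e (nat_lit 450304) (nat_lit 4) .nil)))) (.g (nat_lit 0) (.e (nat_lit 206501) (nat_lit 0) .nil) .nil))) 
(.lf (nat_lit 514991) (.g (nat_lit 3170) (.e (nat_lit 188439) (nat_lit 20) (.e (nat_lit 3408) (nat_lit 212) (.e (nat_lit 655380) (nat_lit 6) (.e (nat_lit 188455) (nat_lit 24) (.e (nat_lit 229663) (nat_lit 240) (.e (nat_lit 2651) (nat_lit 166) .nil)))))) (.g (nat_lit 1) (.e (nat_lit 208803) (nat_lit 0) .nil) .nil)))))) (.nd (nat_lit 7) (.nd (nat_lit 8) (.nd (nat_lit 9) 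
(.lf (nat_lit 514159) (.g (nat_lit 539) (.e (nat_lit 180284) (nat_lit 45) (.e (nat_lit 2580) (nat_lit 161) (.e (nat_lit 40965) (nat_lit 0) (.e (nat_lit 1574) (nat_lit 110) (.e (nat_lit 360192) (nat_lit 2) (.e (nat_lit 204544) (nat_lit 5) .nil)))))) (.g (nat_lit 1) (.e (nat_lit 205763) (nat_lit 0) .nil) .nil))) 
(.lf (nat_lit 514671) (.g (nat_lit 3278) (.e (nat_lit 188431) (nat_lit 20) (.e (nat_lit 3399) (nat_lit 211) (.e (nat_lit 647183) (nat_lit 4) (.e (nat_lit 172115) (nat_lit 10) (.e (nat_lit 434209) (nat_lit 18) (.e (nat_lit 5548) (nat_lit 306) (.e (nat_lit 2648) (nat_lit 166) .nil))))))) (.g (nat_lit 1) (.e (nat_lit 207690) (nat_lit 0) .nil) .nil)))) (.nd (nat_lit 9) 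
(.lf (nat_lit 514415) (.g (nat_lit 3536) (.e (nat_lit 188420) (nat_lit 0) (.e (nat_lit 2174) (nat_lit 143) (.e (nat_lit 712752) (nat_lit 29) (.e (nat_lit 442430) (nat_lit 24) (.e (nat_lit 229663) (nat_lit 240) (.e (nat_lit 2651) (nat_lit 166) .nil)))))) (.g (nat_lit 1) (.e (nat_lit 206396) (nat_lit 0) .nil) .nil))) 
(.lf (nat_lit 514927) (.g (nat_lit 403) (.e (nat_lit 188438) (nat_lit 20) (.e (nat_lit 3579) (nat_lit 223) (.e (nat_lit 745493) (nat_lit 6) .nil))) (.g (nat_lit 0) (.e (nat_lit 208593) (nat_lit 0) .nil) .nil))))) (.nd (nat_lit 8) (.nd (nat_lit 9) 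
(.lf (nat_lit 514287) (.g (nat_lit 1304) (.e (nat_lit 188418) (nat_lit 0) (.e (nat_lit 1856) (nat_lit 124) (.e (nat_lit 557103) (nat_lit 14) (.e (nat_lit 188160) (nat_lit 35) .nil)))) (.g (nat_lit 0) (.e (nat_lit 206247) (nat_lit 0) .nil) .nil))) 
(.lf (nat_lit 514799) (.g (nat_lit 1473) (.e (nat_lit 188435) (nat_lit 20) (.e (nat_lit 3407) (nat_lit 212) (.e (nat_lit 655378) (nat_lit 4) (.e (nat_lit 172118) (nat_lit 12) (.e (nat_lit 475198) (nat_lit 40) .nil))))) (.g (nat_lit 0) (.e (nat_lit 208303) (nat_lit 0) .nil) .nil)))) (.nd (nat_lit 9) 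
(.lf (nat_lit 514543) (.g (nat_lit 2940) (.e (nat_lit 188423) (nat_lit 11) (.e (nat_lit 336231) (nat_lit 14) (.e (nat_lit 401448) (nat_lit 10) (.e (nat_lit 434287) (nat_lit 43) (.e (nat_lit 696346) (nat_lit 10) .nil))))) (.g (nat_lit 1) (.e (nat_lit 207199) (nat_lit 0) .nil) .nil))) 
(.lf (nat_lit 515055) (.g (nat_lit 3649) (.e (nat_lit 188440) (nat_lit 20) (.e (nat_lit 3266) (nat_lit 199) (.e (nat_lit 548913) (nat_lit 18) (.e (nat_lit 172120) (nat_lit 12) (.e (nat_lit 475185) (nat_lit 29) .nil))))) (.g (nat_lit 0) (.e (nat_lit 208971) (nat_lit 0) .nil) .nil)))))))) (.nd (nat_lit 5) (.nd (nat_lit 6) (.nd (nat_lit 7) (.nd (nat_lit 8) (.nd (nat_lit 9) 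
(.lf (nat_lit 514079) (.g (nat_lit 1318) (.e (nat_lit 188160) (nat_lit 32) (.e (nat_lit 1656) (nat_lit 115) (.e (nat_lit 393234) (nat_lit 17) (.e (nat_lit 7065) (nat_lit 377) .nil)))) (.g (nat_lit 0) (.e (nat_lit 205450) (nat_lit 0) .nil) .nil))) 
(.lf (nat_lit 514591) (.g (nat_lit 2725) (.e (nat_lit 196352) (nat_lit 18) (.e (nat_lit 393251) (nat_lit 18) (.e (nat_lit 164403) (nat_lit 256) (.e (nat_lit 57373) (nat_lit 2) (.e (nat_lit 90177) (nat_lit 15) .nil))))) (.g (nat_lit 0) (.e (nat_lit 207343) (nat_lit 0) .nil) .nil)))) (.nd (nat_lit 9) 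
(.lf (nat_lit 514335) (.g (nat_lit 1982) (.e (nat_lit 188418) (nat_lit 0) (.e (nat_lit 2174) (nat_lit 143) (.e (nat_lit 712755) (nat_lit 30) (.e (nat_lit 450563) (nat_lit 0) (.e (nat_lit 7936) (nat_lit 306) (.e (nat_lit 2653) (nat_lit 166) .nil)))))) (.g (nat_lit 1) (.e (nat_lit 206305) (nat_lit 0) .nil) .nil))) 
(.lf (nat_lit 514847) (.g (nat_lit 591) (.e (nat_lit 188435) (nat_lit 20) (.e (nat_lit 3579) (nat_lit 223) (.e (nat_lit 745475) (nat_lit 0) (.e (nat_lit 1559) (nat_lit 110) .nil)))) (.g (nat_lit 0) (.e (nat_lit 208420) (nat_lit 0) .nil) .nil))))) (.nd (nat_lit 8) (.nd (nat_lit 9) 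
(.lf (nat_lit 514207) (.g (nat_lit 628) (.e (nat_lit 180287) (nat_lit 45) (.e (nat_lit 2579) (nat_lit 161) (.e (nat_lit 40965) (nat_lit 0) (.e (nat_lit 1574) (nat_lit 110) (.e (nat_lit 360192) (nat_lit 2) (.e (nat_lit 204544) (nat_lit 5) .nil)))))) (.g (nat_lit 1) (.e (nat_lit 206005) (nat_lit 0) .nil) .nil))) 
(.lf (nat_lit 514719) (.g (nat_lit 2433) (.e (nat_lit 188434) (nat_lit 20) (.e (nat_lit 3391) (nat_lit 210) (.e (nat_lit 639025) (nat_lit 20) (.e (nat_lit 131116) (nat_lit 9) (.e (nat_lit 335988) (nat_lit 1) (.e (nat_lit 57830) (nat_lit 250) (.e (nat_lit 7936) (nat_lit 166) .nil))))))) (.g (nat_lit 1) (.e (nat_lit 208003) (nat_lit 0) .nil) .nil)))) (.nd (nat_lit 9) 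
(.lf (nat_lit 514463) (.g (nat_lit 812) (.e (nat_lit 196352) (nat_lit 0) (.e (nat_lit 2030) (nat_lit 140) (.e (nat_lit 688186) (nat_lit 18) (.e (nat_lit 89856) (nat_lit 0) .nil)))) (.g (nat_lit 0) (.e (nat_lit 206456) (nat_lit 0) .nil) .nil))) 
(.lf (nat_lit 514975) (.g (nat_lit 2396) (.e (nat_lit 188439) (nat_lit 20) (.e (nat_lit 3407) (nat_lit 212) (.e (nat_lit 655378) (nat_lit 4) (.e (nat_lit 172118) (nat_lit 12) (.e (nat_lit 475198) (nat_lit 40) (.e (nat_lit 704598) (nat_lit 6) .nil)))))) (.g (nat_lit 1) (.e (nat_lit 208755) (nat_lit 0) .nil) .nil)))))) (.nd (nat_lit 7) (.nd (nat_lit 8) (.nd (nat_lit 9) 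
(.lf (nat_lit 514143) (.g (nat_lit 343) (.e (nat_lit 180284) (nat_lit 45) (.e (nat_lit 2579) (nat_lit 161) (.e (nat_lit 40964) (nat_lit 0) (.e (nat_lit 1558) (nat_lit 110) (.e (nat_lit 360192) (nat_lit 2) (.e (nat_lit 204544) (nat_lit 5) .nil)))))) (.g (nat_lit 1) (.e (nat_lit 205747) (nat_lit 0) .nil) .nil))) 
(.lf (nat_lit 514655) (.g (nat_lit 2492) (.e (nat_lit 188431) (nat_lit 20) (.e (nat_lit 3397) (nat_lit 211) (.e (nat_lit 647183) (nat_lit 4) (.e (nat_lit 172094) (nat_lit 9) (.e (nat_lit 426025) (nat_lit 0) (.e (nat_lit 3399) (nat_lit 211) (.e (nat_lit 647185) (nat_lit 6) .nil))))))) (.g (nat_lit 1) (.e (nat_lit 207667) (nat_lit 0) .nil) .nil)))) (.nd (nat_lit 9) 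
(.lf (nat_lit 514399) (.g (nat_lit 3101) (.e (nat_lit 188420) (nat_lit 0) (.e (nat_lit 2058) (nat_lit 142) (.e (nat_lit 704599) (nat_lit 6) (.e (nat_lit 188455) (nat_lit 24) (.e (nat_lit 229665) (nat_lit 240) (.e (nat_lit 2651) (nat_lit 166) .nil)))))) (.g (nat_lit 1) (.e (nat_lit 206372) (nat_lit 0) .nil) .nil))) 
(.lf (nat_lit 514911) (.g (nat_lit 2810) (.e (nat_lit 188438) (nat_lit 20) (.e (nat_lit 3469) (nat_lit 217) (.e (nat_lit 696344) (nat_lit 8) (.e (nat_lit 172113) (nat_lit 10) (.e (nat_lit 434203) (nat_lit 18) (.e (nat_lit 6254) (nat_lit 337) (.e (nat_lit 7936) (nat_lit 166) .nil))))))) (.g (nat_lit 1) (.e (nat_lit 208576) (nat_lit 0) .nil) .nil))))) (.nd (nat_lit 8) (.nd (nat_lit 9) 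
(.lf (nat_lit 514271) (.g (nat_lit 1448) (.e (nat_lit 188417) (nat_lit 0) (.e (nat_lit 2147) (nat_lit 142) (.e (nat_lit 704597) (nat_lit 6) (.e (nat_lit 188440) (nat_lit 20) (.e (nat_lit 3408) (nat_lit 212) (.e (nat_lit 655380) (nat_lit 6) .nil)))))) (.g (nat_lit 1) (.e (nat_lit 206224) (nat_lit 0) .nil) .nil))) 
(.lf (nat_lit 514783) (.g (nat_lit 2359) (.e (nat_lit 188435) (nat_lit 20) (.e (nat_lit 3238) (nat_lit 197) (.e (nat_lit 532523) (nat_lit 7) (.e (nat_lit 319534) (nat_lit 16) (.e (nat_lit 286732) (nat_lit 2) .nil))))) (.g (nat_lit 0) (.e (nat_lit 208260) (nat_lit 0) .nil) .nil)))) (.nd (nat_lit 9) 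
(.lf (nat_lit 514527) (.g (nat_lit 1515) (.e (nat_lit 188423) (nat_lit 11) (.e (nat_lit 335995) (nat_lit 1) (.e (nat_lit 57688) (nat_lit 156) (.e (nat_lit 163905) (nat_lit 12) .nil)))) (.g (nat_lit 0) (.e (nat_lit 207010) (nat_lit 0) .nil) .nil))) 
(.lf (nat_lit 515039) (.g (nat_lit 2027) (.e (nat_lit 188439) (nat_lit 20) (.e (nat_lit 3469) (nat_lit 217) (.e (nat_lit 696344) (nat_lit 8) (.e (nat_lit 172113) (nat_lit 10) (.e (nat_lit 434285) (nat_lit 42) .nil))))) (.g (nat_lit 0) (.e (nat_lit 208949) (nat_lit 0) .nil) .nil))))))) (.nd (nat_lit 6) (.nd (nat_lit 7) (.nd (nat_lit 8) (.nd (nat_lit 9) 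
(.lf (nat_lit 514111) (.g (nat_lit 973) (.e (nat_lit 188160) (nat_lit 38) (.e (nat_lit 122936) (nat_lit 23) (.e (nat_lit 516146) (nat_lit 9) (.e (nat_lit 426294) (nat_lit 11) .nil)))) (.g (nat_lit 0) (.e (nat_lit 205619) (nat_lit 0) .nil) .nil))) 
(.lf (nat_lit 514623) (.g (nat_lit 2071) (.e (nat_lit 188427) (nat_lit 20) (.e (nat_lit 3402) (nat_lit 211) (.e (nat_lit 647183) (nat_lit 4) (.e (nat_lit 172118) (nat_lit 12) (.e (nat_lit 475198) (nat_lit 40) (.e (nat_lit 712448) (nat_lit 6) .nil)))))) (.g (nat_lit 1) (.e (nat_lit 207441) (nat_lit 0) .nil) .nil)))) (.nd (nat_lit 9) 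
(.lf (nat_lit 514367) (.g (nat_lit 1934) (.e (nat_lit 188420) (nat_lit 0) (.e (nat_lit 1856) (nat_lit 124) (.e (nat_lit 557097) (nat_lit 13) (.e (nat_lit 172126) (nat_lit 14) (.e (nat_lit 491537) (nat_lit 2) .nil))))) (.g (nat_lit 0) (.e (nat_lit 206338) (nat_lit 0) .nil) .nil))) 
(.lf (nat_lit 514879) (.g (nat_lit 1203) (.e (nat_lit 188438) (nat_lit 20) (.e (nat_lit 3307) (nat_lit 202) (.e (nat_lit 573477) (nat_lit 12) (.e (nat_lit 57574) (nat_lit 55) .nil)))) (.g (nat_lit 0) (.e (nat_lit 208498) (nat_lit 0) .nil) .nil))))) (.nd (nat_lit 8) (.nd (nat_lit 9) 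
(.lf (nat_lit 514239) (.g (nat_lit 1246) (.e (nat_lit 180288) (nat_lit 45) (.e (nat_lit 2580) (nat_lit 161) (.e (nat_lit 40964) (nat_lit 0) (.e (nat_lit 1582) (nat_lit 111) (.e (nat_lit 360477) (nat_lit 11) (.e (nat_lit 581652) (nat_lit 5) .nil)))))) (.g (nat_lit 1) (.e (nat_lit 206090) (nat_lit 0) .nil) .nil))) 
(.lf (nat_lit 514751) (.g (nat_lit 2849) (.e (nat_lit 188434) (nat_lit 20) (.e (nat_lit 3469) (nat_lit 217) (.e (nat_lit 696344) (nat_lit 8) (.e (nat_lit 172106) (nat_lit 10) (.e (nat_lit 434202) (nat_lit 18) (.e (nat_lit 6252) (nat_lit 337) (.e (nat_lit 7936) (nat_lit 166) .nil))))))) (.g (nat_lit 1) (.e (nat_lit 208213) (nat_lit 0) .nil) .nil)))) (.nd (nat_lit 9) 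
(.lf (nat_lit 514495) (.g (nat_lit 667) (.e (nat_lit 188421) (nat_lit 11) (.e (nat_lit 336194) (nat_lit 12) (.e (nat_lit 385109) (nat_lit 51) .nil))) (.g (nat_lit 0) (.e (nat_lit 206660) (nat_lit 0) .nil) .nil))) 
(.lf (nat_lit 515007) (.g (nat_lit 1296) (.e (nat_lit 188439) (nat_lit 20) (.e (nat_lit 3409) (nat_lit 212) (.e (nat_lit 655380) (nat_lit 6) (.e (nat_lit 188435) (nat_lit 20) (.e (nat_lit 3409) (nat_lit 212) (.e (nat_lit 655380) (nat_lit 6) .nil)))))) (.g (nat_lit 1) (.e (nat_lit 208833) (nat_lit 0) .nil) .nil)))))) (.nd (nat_lit 7) (.nd (nat_lit 8) (.nd (nat_lit 9) 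
(.lf (nat_lit 514175) (.g (nat_lit 781) (.e (nat_lit 180285) (nat_lit 45) (.e (nat_lit 2579) (nat_lit 161) (.e (nat_lit 40965) (nat_lit 0) (.e (nat_lit 1574) (nat_lit 110) (.e (nat_lit 360192) (nat_lit 2) (.e (nat_lit 204544) (nat_lit 5) .nil)))))) (.g (nat_lit 1) (.e (nat_lit 205860) (nat_lit 0) .nil) .nil))) 
(.lf (nat_lit 514687) (.g (nat_lit 1889) (.e (nat_lit 188431) (nat_lit 20) (.e (nat_lit 3401) (nat_lit 211) (.e (nat_lit 647185) (nat_lit 6) (.e (nat_lit 188420) (nat_lit 0) (.e (nat_lit 2059) (nat_lit 142) (.e (nat_lit 704598) (nat_lit 6) .nil)))))) (.g (nat_lit 1) (.e (nat_lit 207772) (nat_lit 0) .nil) .nil)))) (.nd (nat_lit 9) 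
(.lf (nat_lit 514431) (.g (nat_lit 1009) (.e (nat_lit 188420) (nat_lit 0) (.e (nat_lit 2175) (nat_lit 143) (.e (nat_lit 712750) (nat_lit 29) (.e (nat_lit 442429) (nat_lit 24) .nil)))) (.g (nat_lit 0) (.e (nat_lit 206418) (nat_lit 0) .nil) .nil))) 
(.lf (nat_lit 514943) (.g (nat_lit 476) (.e (nat_lit 188439) (nat_lit 20) (.e (nat_lit 3304) (nat_lit 202) (.e (nat_lit 573477) (nat_lit 12) .nil))) (.g (nat_lit 0) (.e (nat_lit 208642) (nat_lit 0) .nil) .nil))))) (.nd (nat_lit 8) (.nd (nat_lit 9) 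
(.lf (nat_lit 514303) (.g (nat_lit 2134) (.e (nat_lit 188418) (nat_lit 0) (.e (nat_lit 2057) (nat_lit 142) (.e (nat_lit 704598) (nat_lit 6) (.e (nat_lit 188446) (nat_lit 21) (.e (nat_lit 164348) (nat_lit 240) (.e (nat_lit 2648) (nat_lit 166) .nil)))))) (.g (nat_lit 1) (.e (nat_lit 206263) (nat_lit 0) .nil) .nil))) 
(.lf (nat_lit 514815) (.g (nat_lit 997) (.e (nat_lit 188435) (nat_lit 20) (.e (nat_lit 3409) (nat_lit 212) (.e (nat_lit 655364) (nat_lit 0) (.e (nat_lit 2989) (nat_lit 186) (.e (nat_lit 450304) (nat_lit 4) (.e (nat_lit 114432) (nat_lit 6) .nil)))))) (.g (nat_lit 1) (.e (nat_lit 208334) (nat_lit 0) .nil) .nil)))) (.nd (nat_lit 9) 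
(.lf (nat_lit 514559) (.g (nat_lit 1782) (.e (nat_lit 188423) (nat_lit 11) (.e (nat_lit 336387) (nat_lit 27) (.e (nat_lit 426108) (nat_lit 1) (.e (nat_lit 164403) (nat_lit 256) (.e (nat_lit 57369) (nat_lit 2) .nil))))) (.g (nat_lit 0) (.e (nat_lit 207271) (nat_lit 0) .nil) .nil))) 
(.lf (nat_lit 515071) (.g (nat_lit 1559) (.e (nat_lit 188440) (nat_lit 20) (.e (nat_lit 3307) (nat_lit 202) (.e (nat_lit 573471) (nat_lit 11) (.e (nat_lit 16456) (nat_lit 12) .nil)))) (.g (nat_lit 0) (.e (nat_lit 209024) (nat_lit 0) .nil) .nil)))))))))))))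

noncomputable def tv5563 : DT := (.nd (nat_lit 0) (.nd (nat_lit 1) (.nd (nat_lit 2) (.nd (nat_lit 3) (.nd (nat_lit 4) (.nd (nat_lit 5) (.nd (nat_lit 6) (.nd (nat_lit 7) (.nd (nat_lit 8) (.nd (nat_lit 9) 
(.lf (nat_lit 515072) (.g (nat_lit 3681) (.e (nat_lit 188440) (nat_lit 20) (.e (nat_lit 3307) (nat_lit 202) (.e (nat_lit 573474) (nat_lit 12) (.e (nat_lit 57572) (nat_lit 54) (.e (nat_lit 770072) (nat_lit 8) (.e (nat_lit 65577) (nat_lit 5) (.e (nat_lit 139296) (nat_lit 15) .nil))))))) (.g (nat_lit 1) (.e (nat_lit 209025) (nat_lit 0) .nil) .nil))) 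
(.lf (nat_lit 515584) (.g (nat_lit 1619) (.e (nat_lit 188454) (nat_lit 24) (.e (nat_lit 229663) (nat_lit 240) (.e (nat_lit 2651) (nat_lit 166) (.e (nat_lit 188420) (nat_lit 0) (.e (nat_lit 2058) (nat_lit 142) .nil))))) (.g (nat_lit 0) (.e (nat_lit 211327) (nat_lit 0) .nil) .nil)))) (.nd (nat_lit 9) 
(.lf (nat_lit 515328) (.g (nat_lit 1199) (.e (nat_lit 188450) (nat_lit 23) (.e (nat_lit 204831) (nat_lit 18) (.e (nat_lit 57777) (nat_lit 233) (.e (nat_lit 2551) (nat_lit 159) .nil)))) (.g (nat_lit 0) (.e (nat_lit 210493) (nat_lit 0) .nil) .nil))) 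
(.lf (nat_lit 515840) (.g (nat_lit 1771) (.e (nat_lit 196630) (nat_lit 9) (.e (nat_lit 1485) (nat_lit 108) (.e (nat_lit 336204) (nat_lit 12) (.e (nat_lit 385074) (nat_lit 31) (.e (nat_lit 573489) (nat_lit 14) .nil))))) (.g (nat_lit 0) (.e (nat_lit 213513) (nat_lit 0) .nil) .nil))))) (.nd (nat_lit 8) (.nd (nat_lit 9) 
(.lf (nat_lit 515200) (.g (nat_lit 3178) (.e (nat_lit 188441) (nat_lit 20) (.e (nat_lit 3409) (nat_lit 212) (.e (nat_lit 655380) (nat_lit 6) (.e (nat_lit 188453) (nat_lit 24) (.e (nat_lit 229665) (nat_lit 240) (.e (nat_lit 2653) (nat_lit 166) .nil)))))) (.g (nat_lit 1) (.e (nat_lit 209493) (nat_lit 0) .nil) .nil))) 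
(.lf (nat_lit 515712) (.g (nat_lit 350) (.e (nat_lit 204544) (nat_lit 2) (.e (nat_lit 24665) (nat_lit 14) (.e (nat_lit 409344) (nat_lit 27) .nil))) (.g (nat_lit 0) (.e (nat_lit 212617) (nat_lit 0) .nil) .nil)))) (.nd (nat_lit 9) 
(.lf (nat_lit 515456) (.g (nat_lit 1808) (.e (nat_lit 188452) (nat_lit 23) (.e (nat_lit 204881) (nat_lit 32) (.e (nat_lit 385093) (nat_lit 49) (.e (nat_lit 778318) (nat_lit 3) (.e (nat_lit 57476) (nat_lit 28) .nil))))) (.g (nat_lit 0) (.e (nat_lit 210948) (nat_lit 0) .nil) .nil))) 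
(.lf (nat_lit 515968) (.g (nat_lit 1273) (.e (nat_lit 196654) (nat_lit 11) (.e (nat_lit 16416) (nat_lit 3) (.e (nat_lit 204837) (nat_lit 20) (.e (nat_lit 114718) (nat_lit 23) .nil)))) (.g (nat_lit 0) (.e (nat_lit 213929) (nat_lit 0) .nil) .nil)))))) (.nd (nat_lit 7) (.nd (nat_lit 8) (.nd (nat_lit 9) 
(.lf (nat_lit 515136) (.g (nat_lit 2394) (.e (nat_lit 188440) (nat_lit 20) (.e (nat_lit 3469) (nat_lit 217) (.e (nat_lit 696344) (nat_lit 8) (.e (nat_lit 172112) (nat_lit 10) (.e (nat_lit 434286) (nat_lit 42) (.e (nat_lit 696064) (nat_lit 10) .nil)))))) (.g (nat_lit 1) (.e (nat_lit 209313) (nat_lit 0) .nil) .nil))) 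
(.lf (nat_lit 515648) (.g (nat_lit 1821) (.e (nat_lit 188455) (nat_lit 24) (.e (nat_lit 229665) (nat_lit 240) (.e (nat_lit 2725) (nat_lit 172) (.e (nat_lit 237601) (nat_lit 9) (.e (nat_lit 426444) (nat_lit 19) (.e (nat_lit 114432) (nat_lit 6) .nil)))))) (.g (nat_lit 1) (.e (nat_lit 211524) (nat_lit 0) .nil) .nil)))) (.nd (nat_lit 9) 
(.lf (nat_lit 515392) (.g (nat_lit 2044) (.e (nat_lit 188451) (nat_lit 23) (.e (nat_lit 204846) (nat_lit 24) (.e (nat_lit 319504) (nat_lit 10) (.e (nat_lit 5291) (nat_lit 298) .nil)))) (.g (nat_lit 0) (.e (nat_lit 210698) (nat_lit 0) .nil) .nil))) 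
(.lf (nat_lit 515904) (.g (nat_lit 1595) (.e (nat_lit 196653) (nat_lit 11) (.e (nat_lit 16463) (nat_lit 13) (.e (nat_lit 483337) (nat_lit 9) (.e (nat_lit 426108) (nat_lit 1) (.e (nat_lit 164331) (nat_lit 230) .nil))))) (.g (nat_lit 0) (.e (nat_lit 213732) (nat_lit 0) .nil) .nil))))) (.nd (nat_lit 8) (.nd (nat_lit 9) 
(.lf (nat_lit 515264) (.g (nat_lit 419) (.e (nat_lit 188444) (nat_lit 21) (.e (nat_lit 164348) (nat_lit 240) (.e (nat_lit 2648) (nat_lit 166) .nil))) (.g (nat_lit 0) (.e (nat_lit 209826) (nat_lit 0) .nil) .nil))) 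
(.lf (nat_lit 515776) (.g (nat_lit 1566) (.e (nat_lit 196626) (nat_lit 9) (.e (nat_lit 395) (nat_lit 32) (.e (nat_lit 426188) (nat_lit 9) (.e (nat_lit 426566) (nat_lit 34) (.e (nat_lit 393254) (nat_lit 18) .nil))))) (.g (nat_lit 0) (.e (nat_lit 213375) (nat_lit 0) .nil) .nil)))) (.nd (nat_lit 9) 
(.lf (nat_lit 515520) (.g (nat_lit 1085) (.e (nat_lit 188453) (nat_lit 24) (.e (nat_lit 229666) (nat_lit 240) (.e (nat_lit 2651) (nat_lit 166) (.e (nat_lit 188418) (nat_lit 0) .nil)))) (.g (nat_lit 0) (.e (nat_lit 211141) (nat_lit 0) .nil) .nil))) 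
(.lf (nat_lit 516032) (.g (nat_lit 678) (.e (nat_lit 196654) (nat_lit 11) (.e (nat_lit 16436) (nat_lit 9) (.e (nat_lit 426480) (nat_lit 27) .nil))) (.g (nat_lit 0) (.e (nat_lit 214040) (nat_lit 0) .nil) .nil))))))) (.nd (nat_lit 6) (.nd (nat_lit 7) (.nd (nat_lit 8) (.nd (nat_lit 9) 
(.lf (nat_lit 515104) (.g (nat_lit 2145) (.e (nat_lit 188440) (nat_lit 20) (.e (nat_lit 3408) (nat_lit 212) (.e (nat_lit 655378) (nat_lit 4) (.e (nat_lit 172116) (nat_lit 10) (.e (nat_lit 434272) (nat_lit 38) (.e (nat_lit 655380) (nat_lit 6) .nil)))))) (.g (nat_lit 1) (.e (nat_lit 209136) (nat_lit 0) .nil) .nil))) 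
(.lf (nat_lit 515616) (.g (nat_lit 2227) (.e (nat_lit 188455) (nat_lit 24) (.e (nat_lit 229638) (nat_lit 228) (.e (nat_lit 57436) (nat_lit 17) (.e (nat_lit 376860) (nat_lit 21) (.e (nat_lit 57832) (nat_lit 250) (.e (nat_lit 7936) (nat_lit 166) .nil)))))) (.g (nat_lit 1) (.e (nat_lit 211393) (nat_lit 0) .nil) .nil)))) (.nd (nat_lit 9) 
(.lf (nat_lit 515360) (.g (nat_lit 1189) (.e (nat_lit 188450) (nat_lit 23) (.e (nat_lit 204863) (nat_lit 27) (.e (nat_lit 344168) (nat_lit 40) (.e (nat_lit 671751) (nat_lit 0) .nil)))) (.g (nat_lit 0) (.e (nat_lit 210610) (nat_lit 0) .nil) .nil))) 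
(.lf (nat_lit 515872) (.g (nat_lit 2000) (.e (nat_lit 196652) (nat_lit 11) (.e (nat_lit 16436) (nat_lit 9) (.e (nat_lit 426568) (nat_lit 34) (.e (nat_lit 393253) (nat_lit 18) (.e (nat_lit 164329) (nat_lit 230) .nil))))) (.g (nat_lit 0) (.e (nat_lit 213608) (nat_lit 0) .nil) .nil))))) (.nd (nat_lit 8) (.nd (nat_lit 9) 
(.lf (nat_lit 515232) (.g (nat_lit 1684) (.e (nat_lit 188441) (nat_lit 20) (.e (nat_lit 3469) (nat_lit 217) (.e (nat_lit 696344) (nat_lit 8) (.e (nat_lit 172115) (nat_lit 10) (.e (nat_lit 434202) (nat_lit 18) .nil))))) (.g (nat_lit 0) (.e (nat_lit 209609) (nat_lit 0) .nil) .nil))) 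
(.lf (nat_lit 515744) (.g (nat_lit 2191) (.e (nat_lit 196617) (nat_lit 9) (.e (nat_lit 1172) (nat_lit 87) (.e (nat_lit 57931) (nat_lit 282) (.e (nat_lit 163869) (nat_lit 2) (.e (nat_lit 196670) (nat_lit 14) .nil))))) (.g (nat_lit 0) (.e (nat_lit 213208) (nat_lit 0) .nil) .nil)))) (.nd (nat_lit 9) 
(.lf (nat_lit 515488) (.g (nat_lit 2878) (.e (nat_lit 188453) (nat_lit 24) (.e (nat_lit 229663) (nat_lit 240) (.e (nat_lit 2651) (nat_lit 166) (.e (nat_lit 188417) (nat_lit 0) (.e (nat_lit 2148) (nat_lit 142) (.e (nat_lit 704597) (nat_lit 6) .nil)))))) (.g (nat_lit 1) (.e (nat_lit 211045) (nat_lit 0) .nil) .nil))) 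
(.lf (nat_lit 516000) (.g (nat_lit 1242) (.e (nat_lit 196654) (nat_lit 11) (.e (nat_lit 16435) (nat_lit 9) (.e (nat_lit 426566) (nat_lit 34) (.e (nat_lit 393253) (nat_lit 18) .nil)))) (.g (nat_lit 0) (.e (nat_lit 213994) (nat_lit 0) .nil) .nil)))))) (.nd (nat_lit 7) (.nd (nat_lit 8) (.nd (nat_lit 9) 
(.lf (nat_lit 515168) (.g (nat_lit 1921) (.e (nat_lit 188441) (nat_lit 20) (.e (nat_lit 3289) (nat_lit 201) (.e (nat_lit 565251) (nat_lit 0) (.e (nat_lit 1586) (nat_lit 111) (.e (nat_lit 360451) (nat_lit 0) (.e (nat_lit 7686) (nat_lit 410) (.e (nat_lit 7936) (nat_lit 166) .nil))))))) (.g (nat_lit 1) (.e (nat_lit 209368) (nat_lit 0) .nil) .nil))) 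
(.lf (nat_lit 515680) (.g (nat_lit 1791) (.e (nat_lit 188455) (nat_lit 24) (.e (nat_lit 229680) (nat_lit 244) (.e (nat_lit 163913) (nat_lit 12) (.e (nat_lit 426228) (nat_lit 9) (.e (nat_lit 426443) (nat_lit 19) (.e (nat_lit 114432) (nat_lit 6) .nil)))))) (.g (nat_lit 1) (.e (nat_lit 211674) (nat_lit 0) .nil) .nil)))) (.nd (nat_lit 9) 
(.lf (nat_lit 515424) (.g (nat_lit 410) (.e (nat_lit 188452) (nat_lit 23) (.e (nat_lit 204809) (nat_lit 9) (.e (nat_lit 426108) (nat_lit 1) .nil))) (.g (nat_lit 0) (.e (nat_lit 210781) (nat_lit 0) .nil) .nil))) 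
(.lf (nat_lit 515936) (.g (nat_lit 983) (.e (nat_lit 196654) (nat_lit 11) (.e (nat_lit 16412) (nat_lit 2) (.e (nat_lit 196652) (nat_lit 11) .nil))) (.g (nat_lit 0) (.e (nat_lit 213813) (nat_lit 0) .nil) .nil))))) (.nd (nat_lit 8) (.nd (nat_lit 9) 
(.lf (nat_lit 515296) (.g (nat_lit 1320) (.e (nat_lit 188446) (nat_lit 21) (.e (nat_lit 164347) (nat_lit 240) (.e (nat_lit 2650) (nat_lit 166) (.e (nat_lit 188418) (nat_lit 0) .nil)))) (.g (nat_lit 0) (.e (nat_lit 210203) (nat_lit 0) .nil) .nil))) 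
(.lf (nat_lit 515808) (.g (nat_lit 2699) (.e (nat_lit 196626) (nat_lit 9) (.e (nat_lit 1400) (nat_lit 106) (.e (nat_lit 319533) (nat_lit 16) (.e (nat_lit 286735) (nat_lit 3) (.e (nat_lit 98379) (nat_lit 31) .nil))))) (.g (nat_lit 0) (.e (nat_lit 213414) (nat_lit 0) .nil) .nil)))) (.nd (nat_lit 9) 
(.lf (nat_lit 515552) (.g (nat_lit 1180) (.e (nat_lit 188453) (nat_lit 24) (.e (nat_lit 229678) (nat_lit 244) (.e (nat_lit 163932) (nat_lit 17) (.e (nat_lit 466947) (nat_lit 0) .nil)))) (.g (nat_lit 0) (.e (nat_lit 211236) (nat_lit 0) .nil) .nil))) 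
(.lf (nat_lit 516064) (.g (nat_lit 2145) (.e (nat_lit 196654) (nat_lit 11) (.e (nat_lit 16438) (nat_lit 9) (.e (nat_lit 426482) (nat_lit 27) (.e (nat_lit 336388) (nat_lit 27) (.e (nat_lit 426105) (nat_lit 1) .nil))))) (.g (nat_lit 0) (.e (nat_lit 214084) (nat_lit 0) .nil) .nil)))))))) (.nd (nat_lit 5) (.nd (nat_lit 6) (.nd (nat_lit 7) (.nd (nat_lit 8) (.nd (nat_lit 9) 
(.lf (nat_lit 515088) (.g (nat_lit 669) (.e (nat_lit 188440) (nat_lit 20) (.e (nat_lit 3289) (nat_lit 201) (.e (nat_lit 565269) (nat_lit 6) (.e (nat_lit 81942) (nat_lit 20) (.e (nat_lit 2389) (nat_lit 156) .nil))))) (.g (nat_lit 0) (.e (nat_lit 209051) (nat_lit 0) .nil) .nil))) 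
(.lf (nat_lit 515600) (.g (nat_lit 1610) (.e (nat_lit 188454) (nat_lit 24) (.e (nat_lit 229665) (nat_lit 240) (.e (nat_lit 2651) (nat_lit 166) (.e (nat_lit 188439) (nat_lit 20) (.e (nat_lit 3409) (nat_lit 212) .nil))))) (.g (nat_lit 0) (.e (nat_lit 211352) (nat_lit 0) .nil) .nil)))) (.nd (nat_lit 9) 
(.lf (nat_lit 515344) (.g (nat_lit 3610) (.e (nat_lit 188450) (nat_lit 23) (.e (nat_lit 204846) (nat_lit 24) (.e (nat_lit 319529) (nat_lit 16) (.e (nat_lit 286733) (nat_lit 2) (.e (nat_lit 90178) (nat_lit 15) .nil))))) (.g (nat_lit 1) (.e (nat_lit 210532) (nat_lit 0) .nil) .nil))) 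
(.lf (nat_lit 515856) (.g (nat_lit 2560) (.e (nat_lit 196633) (nat_lit 9) (.e (nat_lit 1673) (nat_lit 116) (.e (nat_lit 401448) (nat_lit 10) (.e (nat_lit 434244) (nat_lit 28) (.e (nat_lit 573471) (nat_lit 11) .nil))))) (.g (nat_lit 0) (.e (nat_lit 213547) (nat_lit 0) .nil) .nil))))) (.nd (nat_lit 8) (.nd (nat_lit 9) 
(.lf (nat_lit 515216) (.g (nat_lit 3254) (.e (nat_lit 188441) (nat_lit 20) (.e (nat_lit 3469) (nat_lit 217) (.e (nat_lit 696344) (nat_lit 8) (.e (nat_lit 172113) (nat_lit 10) (.e (nat_lit 434203) (nat_lit 18) (.e (nat_lit 6250) (nat_lit 337) (.e (nat_lit 7936) (nat_lit 166) .nil))))))) (.g (nat_lit 1) (.e (nat_lit 209593) (nat_lit 0) .nil) .nil))) 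
(.lf (nat_lit 515728) (.g (nat_lit 1306) (.e (nat_lit 204544) (nat_lit 6) (.e (nat_lit 188434) (nat_lit 20) (.e (nat_lit 3579) (nat_lit 223) (.e (nat_lit 745475) (nat_lit 0) (.e (nat_lit 1572) (nat_lit 110) .nil))))) (.g (nat_lit 0) (.e (nat_lit 212958) (nat_lit 0) .nil) .nil)))) (.nd (nat_lit 9) 
(.lf (nat_lit 515472) (.g (nat_lit 1316) (.e (nat_lit 196352) (nat_lit 23) (.e (nat_lit 204846) (nat_lit 24) (.e (nat_lit 319529) (nat_lit 16) (.e (nat_lit 286733) (nat_lit 2) .nil)))) (.g (nat_lit 0) (.e (nat_lit 211009) (nat_lit 0) .nil) .nil))) 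
(.lf (nat_lit 515984) (.g (nat_lit 3055) (.e (nat_lit 196654) (nat_lit 11) (.e (nat_lit 16433) (nat_lit 9) (.e (nat_lit 426566) (nat_lit 34) (.e (nat_lit 393254) (nat_lit 18) (.e (nat_lit 164331) (nat_lit 230) (.e (nat_lit 163866) (nat_lit 2) .nil)))))) (.g (nat_lit 1) (.e (nat_lit 213974) (nat_lit 0) .nil) .nil)))))) (.nd (nat_lit 7) (.nd (nat_lit 8) (.nd (nat_lit 9) 
(.lf (nat_lit 515152) (.g (nat_lit 1818) (.e (nat_lit 188440) (nat_lit 20) (.e (nat_lit 3469) (nat_lit 217) (.e (nat_lit 696344) (nat_lit 8) (.e (nat_lit 172115) (nat_lit 10) (.e (nat_lit 434285) (nat_lit 42) .nil))))) (.g (nat_lit 0) (.e (nat_lit 209329) (nat_lit 0) .nil) .nil))) 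
(.lf (nat_lit 515664) (.g (nat_lit 464) (.e (nat_lit 188455) (nat_lit 24) (.e (nat_lit 229678) (nat_lit 244) (.e (nat_lit 163904) (nat_lit 12) .nil))) (.g (nat_lit 0) (.e (nat_lit 211579) (nat_lit 0) .nil) .nil)))) (.nd (nat_lit 9) 
(.lf (nat_lit 515408) (.g (nat_lit 2021) (.e (nat_lit 188451) (nat_lit 23) (.e (nat_lit 204846) (nat_lit 24) (.e (nat_lit 319534) (nat_lit 16) (.e (nat_lit 286728) (nat_lit 0) (.e (nat_lit 1742) (nat_lit 117) .nil))))) (.g (nat_lit 0) (.e (nat_lit 210725) (nat_lit 0) .nil) .nil))) 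
(.lf (nat_lit 515920) (.g (nat_lit 662) (.e (nat_lit 196653) (nat_lit 11) (.e (nat_lit 16466) (nat_lit 13) (.e (nat_lit 483337) (nat_lit 9) .nil))) (.g (nat_lit 0) (.e (nat_lit 213748) (nat_lit 0) .nil) .nil))))) (.nd (nat_lit 8) (.nd (nat_lit 9) 
(.lf (nat_lit 515280) (.g (nat_lit 763) (.e (nat_lit 188446) (nat_lit 21) (.e (nat_lit 164325) (nat_lit 230) (.e (nat_lit 163861) (nat_lit 1) .nil))) (.g (nat_lit 0) (.e (nat_lit 210071) (nat_lit 0) .nil) .nil))) 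
(.lf (nat_lit 515792) (.g (nat_lit 1891) (.e (nat_lit 196626) (nat_lit 9) (.e (nat_lit 1400) (nat_lit 106) (.e (nat_lit 319532) (nat_lit 16) (.e (nat_lit 286727) (nat_lit 0) (.e (nat_lit 1799) (nat_lit 119) .nil))))) (.g (nat_lit 0) (.e (nat_lit 213398) (nat_lit 0) .nil) .nil)))) (.nd (nat_lit 9) 
(.lf (nat_lit 515536) (.g (nat_lit 2295) (.e (nat_lit 188453) (nat_lit 24) (.e (nat_lit 229678) (nat_lit 244) (.e (nat_lit 163905) (nat_lit 12) (.e (nat_lit 426320) (nat_lit 12) (.e (nat_lit 475199) (nat_lit 40) .nil))))) (.g (nat_lit 0) (.e (nat_lit 211174) (nat_lit 0) .nil) .nil))) 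
(.lf (nat_lit 516048) (.g (nat_lit 1747) (.e (nat_lit 196654) (nat_lit 11) (.e (nat_lit 16438) (nat_lit 9) (.e (nat_lit 426131) (nat_lit 3) (.e (nat_lit 204881) (nat_lit 32) (.e (nat_lit 385107) (nat_lit 51) .nil))))) (.g (nat_lit 0) (.e (nat_lit 214061) (nat_lit 0) .nil) .nil))))))) (.nd (nat_lit 6) (.nd (nat_lit 7) (.nd (nat_lit 8) (.nd (nat_lit 9) 
(.lf (nat_lit 515120) (.g (nat_lit 3061) (.e (nat_lit 188440) (nat_lit 20) (.e (nat_lit 3409) (nat_lit 212) (.e (nat_lit 655380) (nat_lit 6) (.e (nat_lit 188453) (nat_lit 24) (.e (nat_lit 229663) (nat_lit 240) (.e (nat_lit 2653) (nat_lit 166) .nil)))))) (.g (nat_lit 1) (.e (nat_lit 209176) (nat_lit 0) .nil) .nil))) 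
(.lf (nat_lit 515632) (.g (nat_lit 420) (.e (nat_lit 188455) (nat_lit 24) (.e (nat_lit 229663) (nat_lit 240) (.e (nat_lit 2725) (nat_lit 172) .nil))) (.g (nat_lit 0) (.e (nat_lit 211473) (nat_lit 0) .nil) .nil)))) (.nd (nat_lit 9) 
(.lf (nat_lit 515376) (.g (nat_lit 2264) (.e (nat_lit 188450) (nat_lit 23) (.e (nat_lit 204885) (nat_lit 33) (.e (nat_lit 401450) (nat_lit 12) (.e (nat_lit 475183) (nat_lit 29) (.e (nat_lit 557107) (nat_lit 15) .nil))))) (.g (nat_lit 1) (.e (nat_lit 210666) (nat_lit 0) .nil) .nil))) 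
(.lf (nat_lit 515888) (.g (nat_lit 892) (.e (nat_lit 196653) (nat_lit 11) (.e (nat_lit 16434) (nat_lit 9) (.e (nat_lit 426566) (nat_lit 34) (.e (nat_lit 393253) (nat_lit 18) .nil)))) (.g (nat_lit 0) (.e (nat_lit 213677) (nat_lit 0) .nil) .nil))))) (.nd (nat_lit 8) (.nd (nat_lit 9) 
(.lf (nat_lit 515248) (.g (nat_lit 2394) (.e (nat_lit 188444) (nat_lit 21) (.e (nat_lit 164347) (nat_lit 240) (.e (nat_lit 2619) (nat_lit 164) (.e (nat_lit 172097) (nat_lit 9) (.e (nat_lit 426025) (nat_lit 0) (.e (nat_lit 3397) (nat_lit 211) (.e (nat_lit 647185) (nat_lit 6) .nil))))))) (.g (nat_lit 1) (.e (nat_lit 209759) (nat_lit 0) .nil) .nil))) 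
(.lf (nat_lit 515760) (.g (nat_lit 2588) (.e (nat_lit 196623) (nat_lit 9) (.e (nat_lit 1669) (nat_lit 116) (.e (nat_lit 401459) (nat_lit 13) (.e (nat_lit 483344) (nat_lit 17) (.e (nat_lit 2367) (nat_lit 153) .nil))))) (.g (nat_lit 0) (.e (nat_lit 213271) (nat_lit 0) .nil) .nil)))) (.nd (nat_lit 9) 
(.lf (nat_lit 515504) (.g (nat_lit 3218) (.e (nat_lit 188453) (nat_lit 24) (.e (nat_lit 229665) (nat_lit 240) (.e (nat_lit 2651) (nat_lit 166) (.e (nat_lit 188420) (nat_lit 0) (.e (nat_lit 2059) (nat_lit 142) (.e (nat_lit 704599) (nat_lit 6) .nil)))))) (.g (nat_lit 1) (.e (nat_lit 211099) (nat_lit 0) .nil) .nil))) 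
(.lf (nat_lit 516016) (.g (nat_lit 1834) (.e (nat_lit 196654) (nat_lit 11) (.e (nat_lit 16436) (nat_lit 9) (.e (nat_lit 426131) (nat_lit 3) (.e (nat_lit 204859) (nat_lit 26) .nil)))) (.g (nat_lit 0) (.e (nat_lit 214016) (nat_lit 0) .nil) .nil)))))) (.nd (nat_lit 7) (.nd (nat_lit 8) (.nd (nat_lit 9) 
(.lf (nat_lit 515184) (.g (nat_lit 2997) (.e (nat_lit 188441) (nat_lit 20) (.e (nat_lit 3408) (nat_lit 212) (.e (nat_lit 655380) (nat_lit 6) (.e (nat_lit 188453) (nat_lit 24) (.e (nat_lit 229665) (nat_lit 240) (.e (nat_lit 2653) (nat_lit 166) .nil)))))) (.g (nat_lit 1) (.e (nat_lit 209453) (nat_lit 0) .nil) .nil))) 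
(.lf (nat_lit 515696) (.g (nat_lit 1489) (.e (nat_lit 188455) (nat_lit 24) (.e (nat_lit 229681) (nat_lit 244) (.e (nat_lit 163931) (nat_lit 17) (.e (nat_lit 466947) (nat_lit 0) (.e (nat_lit 2058) (nat_lit 142) (.e (nat_lit 704598) (nat_lit 6) .nil)))))) (.g (nat_lit 1) (.e (nat_lit 211736) (nat_lit 0) .nil) .nil)))) (.nd (nat_lit 9) 
(.lf (nat_lit 515440) (.g (nat_lit 861) (.e (nat_lit 188452) (nat_lit 23) (.e (nat_lit 204846) (nat_lit 24) (.e (nat_lit 319497) (nat_lit 10) .nil))) (.g (nat_lit 0) (.e (nat_lit 210851) (nat_lit 0) .nil) .nil))) 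
(.lf (nat_lit 515952) (.g (nat_lit 2922) (.e (nat_lit 196654) (nat_lit 11) (.e (nat_lit 16416) (nat_lit 3) (.e (nat_lit 204813) (nat_lit 9) (.e (nat_lit 426114) (nat_lit 2) (.e (nat_lit 196654) (nat_lit 11) (.e (nat_lit 16410) (nat_lit 2) .nil)))))) (.g (nat_lit 1) (.e (nat_lit 213903) (nat_lit 0) .nil) .nil))))) (.nd (nat_lit 8) (.nd (nat_lit 9) 
(.lf (nat_lit 515312) (.g (nat_lit 1030) (.e (nat_lit 188449) (nat_lit 22) (.e (nat_lit 196656) (nat_lit 11) (.e (nat_lit 16392) (nat_lit 0) .nil))) (.g (nat_lit 0) (.e (nat_lit 210419) (nat_lit 0) .nil) .nil))) 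
(.lf (nat_lit 515824) (.g (nat_lit 2549) (.e (nat_lit 196626) (nat_lit 9) (.e (nat_lit 1669) (nat_lit 116) (.e (nat_lit 401459) (nat_lit 13) (.e (nat_lit 483344) (nat_lit 17) (.e (nat_lit 2367) (nat_lit 153) .nil))))) (.g (nat_lit 0) (.e (nat_lit 213434) (nat_lit 0) .nil) .nil)))) (.nd (nat_lit 9) 
(.lf (nat_lit 515568) (.g (nat_lit 1436) (.e (nat_lit 188453) (nat_lit 24) (.e (nat_lit 229681) (nat_lit 244) (.e (nat_lit 163915) (nat_lit 12) (.e (nat_lit 426187) (nat_lit 9) (.e (nat_lit 426444) (nat_lit 19) (.e (nat_lit 114432) (nat_lit 6) .nil)))))) (.g (nat_lit 1) (.e (nat_lit 211292) (nat_lit 0) .nil) .nil))) 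
(.lf (nat_lit 516080) (.g (nat_lit 3235) (.e (nat_lit 196654) (nat_lit 11) (.e (nat_lit 16463) (nat_lit 13) (.e (nat_lit 483337) (nat_lit 9) (.e (nat_lit 426107) (nat_lit 1) (.e (nat_lit 164331) (nat_lit 230) (.e (nat_lit 163866) (nat_lit 2) .nil)))))) (.g (nat_lit 1) (.e (nat_lit 214197) (nat_lit 0) .nil) .nil))))))))) 
(.nd (nat_lit 4) (.nd (nat_lit 5) (.nd (nat_lit 6) (.nd (nat_lit 7) (.nd (nat_lit 8) 
(.nd (nat_lit 9) 
(.lf (nat_lit 515080) (.g (nat_lit 4217) (.e (nat_lit 188440) (nat_lit 20) (.e (nat_lit 3307) (nat_lit 202) (.e (nat_lit 573477) (nat_lit 12) (.e (nat_lit 57575) (nat_lit 55) (.e (nat_lit 778465) (nat_lit 11) (.e (nat_lit 24603) (nat_lit 2) (.e (nat_lit 90175) (nat_lit 15) .nil))))))) (.g (nat_lit 1) (.e (nat_lit 209035) (nat_lit 0) .nil) .nil))) 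
(.lf (nat_lit 515592) (.g (nat_lit 2313) (.e (nat_lit 188454) (nat_lit 24) (.e (nat_lit 229665) (nat_lit 240) (.e (nat_lit 2630) (nat_lit 164) (.e (nat_lit 172120) (nat_lit 12) (.e (nat_lit 475198) (nat_lit 40) (.e (nat_lit 704598) (nat_lit 6) .nil)))))) (.g (nat_lit 1) (.e (nat_lit 211344) (nat_lit 0) .nil) .nil)))) (.nd (nat_lit 9) 
(.lf (nat_lit 515336) (.g (nat_lit 1322) (.e (nat_lit 188450) (nat_lit 23) (.e (nat_lit 204846) (nat_lit 24) (.e (nat_lit 319505) (nat_lit 10) (.e (nat_lit 7936) (nat_lit 313) .nil)))) (.g (nat_lit 0) (.e (nat_lit 210518) (nat_lit 0) .nil) .nil))) 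
(.lf (nat_lit 515848) (.g (nat_lit 2272) (.e (nat_lit 196630) (nat_lit 9) (.e (nat_lit 1669) (nat_lit 116) (.e (nat_lit 401451) (nat_lit 12) (.e (nat_lit 475184) (nat_lit 29) (.e (nat_lit 557109) (nat_lit 15) .nil))))) (.g (nat_lit 0) (.e (nat_lit 213522) (nat_lit 0) .nil) .nil))))) (.nd (nat_lit 8) (.nd (nat_lit 9) 
(.lf (nat_lit 515208) (.g (nat_lit 4027) (.e (nat_lit 188441) (nat_lit 20) (.e (nat_lit 3469) (nat_lit 217) (.e (nat_lit 696344) (nat_lit 8) (.e (nat_lit 172106) (nat_lit 10) (.e (nat_lit 434202) (nat_lit 18) (.e (nat_lit 6255) (nat_lit 337) (.e (nat_lit 2653) (nat_lit 166) .nil))))))) (.g (nat_lit 1) (.e (nat_lit 209585) (nat_lit 0) .nil) .nil))) 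
(.lf (nat_lit 515720) (.g (nat_lit 426) (.e (nat_lit 204544) (nat_lit 5) (.e (nat_lit 180288) (nat_lit 45) (.e (nat_lit 2579) (nat_lit 161) (.e (nat_lit 40965) (nat_lit 0) (.e (nat_lit 1568) (nat_lit 110) .nil))))) (.g (nat_lit 0) (.e (nat_lit 212934) (nat_lit 0) .nil) .nil)))) (.nd (nat_lit 9) 
(.lf (nat_lit 515464) (.g (nat_lit 3628) (.e (nat_lit 188452) (nat_lit 23) (.e (nat_lit 204884) (nat_lit 33) (.e (nat_lit 401454) (nat_lit 12) (.e (nat_lit 475184) (nat_lit 29) (.e (nat_lit 557108) (nat_lit 15) .nil))))) (.g (nat_lit 1) (.e (nat_lit 210977) (nat_lit 0) .nil) .nil))) 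
(.lf (nat_lit 515976) (.g (nat_lit 2314) (.e (nat_lit 196654) (nat_lit 11) (.e (nat_lit 16416) (nat_lit 3) (.e (nat_lit 204838) (nat_lit 20) (.e (nat_lit 114719) (nat_lit 23) (.e (nat_lit 98335) (nat_lit 18) .nil))))) (.g (nat_lit 0) (.e (nat_lit 213950) (nat_lit 0) .nil) .nil)))))) (.nd (nat_lit 7) (.nd (nat_lit 8) (.nd (nat_lit 9) 
(.lf (nat_lit 515144) (.g (nat_lit 3208) (.e (nat_lit 188440) (nat_lit 20) (.e (nat_lit 3469) (nat_lit 217) (.e (nat_lit 696344) (nat_lit 8) (.e (nat_lit 172113) (nat_lit 10) (.e (nat_lit 434208) (nat_lit 18) (.e (nat_lit 6250) (nat_lit 337) (.e (nat_lit 7936) (nat_lit 166) .nil))))))) (.g (nat_lit 1) (.e (nat_lit 209321) (nat_lit 0) .nil) .nil))) 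
(.lf (nat_lit 515656) (.g (nat_lit 1575) (.e (nat_lit 188455) (nat_lit 24) (.e (nat_lit 229666) (nat_lit 240) (.e (nat_lit 2725) (nat_lit 172) (.e (nat_lit 237605) (nat_lit 9) (.e (nat_lit 426444) (nat_lit 19) (.e (nat_lit 114432) (nat_lit 6) .nil)))))) (.g (nat_lit 1) (.e (nat_lit 211540) (nat_lit 0) .nil) .nil)))) (.nd (nat_lit 9) 
(.lf (nat_lit 515400) (.g (nat_lit 1477) (.e (nat_lit 188451) (nat_lit 23) (.e (nat_lit 204846) (nat_lit 24) (.e (nat_lit 319533) (nat_lit 16) (.e (nat_lit 286724) (nat_lit 0) .nil)))) (.g (nat_lit 0) (.e (nat_lit 210713) (nat_lit 0) .nil) .nil))) 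
(.lf (nat_lit 515912) (.g (nat_lit 3484) (.e (nat_lit 196653) (nat_lit 11) (.e (nat_lit 16463) (nat_lit 13) (.e (nat_lit 483341) (nat_lit 9) (.e (nat_lit 426107) (nat_lit 1) (.e (nat_lit 164332) (nat_lit 230) .nil))))) (.g (nat_lit 0) (.e (nat_lit 213740) (nat_lit 0) .nil) .nil))))) (.nd (nat_lit 8) (.nd (nat_lit 9) 
(.lf (nat_lit 515272) (.g (nat_lit 409) (.e (nat_lit 188444) (nat_lit 21) (.e (nat_lit 164348) (nat_lit 240) (.e (nat_lit 2650) (nat_lit 166) .nil))) (.g (nat_lit 0) (.e (nat_lit 209859) (nat_lit 0) .nil) .nil))) 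
(.lf (nat_lit 515784) (.g (nat_lit 1551) (.e (nat_lit 196626) (nat_lit 9) (.e (nat_lit 1400) (nat_lit 106) (.e (nat_lit 319528) (nat_lit 16) (.e (nat_lit 286734) (nat_lit 3) (.e (nat_lit 98381) (nat_lit 31) .nil))))) (.g (nat_lit 0) (.e (nat_lit 213390) (nat_lit 0) .nil) .nil)))) (.nd (nat_lit 9) 
(.lf (nat_lit 515528) (.g (nat_lit 2028) (.e (nat_lit 188453) (nat_lit 24) (.e (nat_lit 229666) (nat_lit 240) (.e (nat_lit 2653) (nat_lit 166) (.e (nat_lit 188418) (nat_lit 0) (.e (nat_lit 2059) (nat_lit 142) (.e (nat_lit 704599) (nat_lit 6) .nil)))))) (.g (nat_lit 1) (.e (nat_lit 211153) (nat_lit 0) .nil) .nil))) 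
(.lf (nat_lit 516040) (.g (nat_lit 2065) (.e (nat_lit 196654) (nat_lit 11) (.e (nat_lit 16436) (nat_lit 9) (.e (nat_lit 426566) (nat_lit 34) (.e (nat_lit 393252) (nat_lit 18) (.e (nat_lit 164331) (nat_lit 230) .nil))))) (.g (nat_lit 0) (.e (nat_lit 214049) (nat_lit 0) .nil) .nil))))))) (.nd (nat_lit 6) (.nd (nat_lit 7) (.nd (nat_lit 8) (.nd (nat_lit 9) 
(.lf (nat_lit 515112) (.g (nat_lit 2593) (.e (nat_lit 188440) (nat_lit 20) (.e (nat_lit 3409) (nat_lit 212) (.e (nat_lit 655378) (nat_lit 4) (.e (nat_lit 172118) (nat_lit 12) (.e (nat_lit 475199) (nat_lit 40) (.e (nat_lit 704599) (nat_lit 6) .nil)))))) (.g (nat_lit 1) (.e (nat_lit 209167) (nat_lit 0) .nil) .nil))) 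
(.lf (nat_lit 515624) (.g (nat_lit 3046) (.e (nat_lit 188455) (nat_lit 24) (.e (nat_lit 229663) (nat_lit 240) (.e (nat_lit 2651) (nat_lit 166) (.e (nat_lit 188417) (nat_lit 0) (.e (nat_lit 2147) (nat_lit 142) (.e (nat_lit 704597) (nat_lit 6) .nil)))))) (.g (nat_lit 1) (.e (nat_lit 211435) (nat_lit 0) .nil) .nil)))) (.nd (nat_lit 9) 
(.lf (nat_lit 515368) (.g (nat_lit 3032) (.e (nat_lit 188450) (nat_lit 23) (.e (nat_lit 204883) (nat_lit 33) (.e (nat_lit 401453) (nat_lit 12) (.e (nat_lit 475183) (nat_lit 29) (.e (nat_lit 557107) (nat_lit 15) .nil))))) (.g (nat_lit 1) (.e (nat_lit 210640) (nat_lit 0) .nil) .nil))) 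
(.lf (nat_lit 515880) (.g (nat_lit 1215) (.e (nat_lit 196652) (nat_lit 11) (.e (nat_lit 16466) (nat_lit 13) (.e (nat_lit 483341) (nat_lit 9) (.e (nat_lit 426107) (nat_lit 1) .nil)))) (.g (nat_lit 0) (.e (nat_lit 213633) (nat_lit 0) .nil) .nil))))) (.nd (nat_lit 8) (.nd (nat_lit 9) 
(.lf (nat_lit 515240) (.g (nat_lit 462) (.e (nat_lit 188441) (nat_lit 20) (.e (nat_lit 3579) (nat_lit 223) (.e (nat_lit 745490) (nat_lit 4) .nil))) (.g (nat_lit 0) (.e (nat_lit 209623) (nat_lit 0) .nil) .nil))) 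
(.lf (nat_lit 515752) (.g (nat_lit 1578) (.e (nat_lit 196623) (nat_lit 9) (.e (nat_lit 392) (nat_lit 32) (.e (nat_lit 426188) (nat_lit 9) (.e (nat_lit 426566) (nat_lit 34) (.e (nat_lit 393253) (nat_lit 18) .nil))))) (.g (nat_lit 0) (.e (nat_lit 213252) (nat_lit 0) .nil) .nil)))) (.nd (nat_lit 9) 
(.lf (nat_lit 515496) (.g (nat_lit 1300) (.e (nat_lit 188453) (nat_lit 24) (.e (nat_lit 229664) (nat_lit 240) (.e (nat_lit 2725) (nat_lit 172) (.e (nat_lit 237605) (nat_lit 9) (.e (nat_lit 426444) (nat_lit 19) (.e (nat_lit 114432) (nat_lit 6) .nil)))))) (.g (nat_lit 1) (.e (nat_lit 211084) (nat_lit 0) .nil) .nil))) 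
(.lf (nat_lit 516008) (.g (nat_lit 2418) (.e (nat_lit 196654) (nat_lit 11) (.e (nat_lit 16436) (nat_lit 9) (.e (nat_lit 426131) (nat_lit 3) (.e (nat_lit 204852) (nat_lit 26) (.e (nat_lit 336258) (nat_lit 15) (.e (nat_lit 3779) (nat_lit 229) (.e (nat_lit 794665) (nat_lit 22) .nil))))))) (.g (nat_lit 1) (.e (nat_lit 214008) (nat_lit 0) .nil) .nil)))))) 
(.nd (nat_lit 7) (.nd (nat_lit 8) (.nd (nat_lit 9) 
(.lf (nat_lit 515176) (.g (nat_lit 1761) (.e (nat_lit 188441) (nat_lit 20) (.e (nat_lit 3406) (nat_lit 212) (.e (nat_lit 655380) (nat_lit 6) (.e (nat_lit 188441) (nat_lit 20) (.e (nat_lit 3408) (nat_lit 212) (.e (nat_lit 655380) (nat_lit 6) .nil)))))) (.g (nat_lit 1) (.e (nat_lit 209408) (nat_lit 0) .nil) .nil))) 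
(.lf (nat_lit 515688) (.g (nat_lit 1626) (.e (nat_lit 188455) (nat_lit 24) (.e (nat_lit 229680) (nat_lit 244) (.e (nat_lit 163931) (nat_lit 17) (.e (nat_lit 466947) (nat_lit 0) (.e (nat_lit 2058) (nat_lit 142) (.e (nat_lit 704598) (nat_lit 6) .nil)))))) (.g (nat_lit 1) (.e (nat_lit 211712) (nat_lit 0) .nil) .nil)))) (.nd (nat_lit 9) 
(.lf (nat_lit 515432) (.g (nat_lit 1616) (.e (nat_lit 188452) (nat_lit 23) (.e (nat_lit 204830) (nat_lit 18) (.e (nat_lit 57691) (nat_lit 156) (.e (nat_lit 163907) (nat_lit 12) .nil)))) (.g (nat_lit 0) (.e (nat_lit 210835) (nat_lit 0) .nil) .nil))) 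
(.lf (nat_lit 515944) (.g (nat_lit 386) (.e (nat_lit 196654) (nat_lit 11) (.e (nat_lit 16416) (nat_lit 3) (.e (nat_lit 204809) (nat_lit 9) .nil))) (.g (nat_lit 0) (.e (nat_lit 213884) (nat_lit 0) .nil) .nil))))) (.nd (nat_lit 8) (.nd (nat_lit 9) 
(.lf (nat_lit 515304) (.g (nat_lit 1015) (.e (nat_lit 188448) (nat_lit 22) (.e (nat_lit 196656) (nat_lit 11) (.e (nat_lit 16388) (nat_lit 0) .nil))) (.g (nat_lit 0) (.e (nat_lit 210312) (nat_lit 0) .nil) .nil))) 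
(.lf (nat_lit 515816) (.g (nat_lit 2434) (.e (nat_lit 196626) (nat_lit 9) (.e (nat_lit 1400) (nat_lit 106) (.e (nat_lit 319534) (nat_lit 16) (.e (nat_lit 286733) (nat_lit 2) (.e (nat_lit 90128) (nat_lit 9) .nil))))) (.g (nat_lit 0) (.e (nat_lit 213424) (nat_lit 0) .nil) .nil)))) (.nd (nat_lit 9) 
(.lf (nat_lit 515560) (.g (nat_lit 2667) (.e (nat_lit 188453) (nat_lit 24) (.e (nat_lit 229680) (nat_lit 244) (.e (nat_lit 163915) (nat_lit 12) (.e (nat_lit 426306) (nat_lit 12) (.e (nat_lit 475199) (nat_lit 40) (.e (nat_lit 704598) (nat_lit 6) .nil)))))) (.g (nat_lit 1) (.e (nat_lit 211254) (nat_lit 0) .nil) .nil))) 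
(.lf (nat_lit 516072) (.g (nat_lit 1337) (.e (nat_lit 196654) (nat_lit 11) (.e (nat_lit 16438) (nat_lit 9) (.e (nat_lit 426564) (nat_lit 34) (.e (nat_lit 393251) (nat_lit 18) (.e (nat_lit 164327) (nat_lit 230) .nil))))) (.g (nat_lit 0) (.e (nat_lit 214093) (nat_lit 0) .nil) .nil)))))))) (.nd (nat_lit 5) (.nd (nat_lit 6) (.nd (nat_lit 7) (.nd (nat_lit 8) (.nd (nat_lit 9) 
(.lf (nat_lit 515096) (.g (nat_lit 2032) (.e (nat_lit 188440) (nat_lit 20) (.e (nat_lit 3391) (nat_lit 210) (.e (nat_lit 639025) (nat_lit 20) (.e (nat_lit 131116) (nat_lit 9) (.e (nat_lit 335988) (nat_lit 1) (.e (nat_lit 57832) (nat_lit 250) (.e (nat_lit 7936) (nat_lit 166) .nil))))))) (.g (nat_lit 1) (.e (nat_lit 209095) (nat_lit 0) .nil) .nil))) 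
(.lf (nat_lit 515608) (.g (nat_lit 1642) (.e (nat_lit 188454) (nat_lit 24) (.e (nat_lit 229666) (nat_lit 240) (.e (nat_lit 2630) (nat_lit 164) (.e (nat_lit 172120) (nat_lit 12) (.e (nat_lit 475198) (nat_lit 40) .nil))))) (.g (nat_lit 0) (.e (nat_lit 211362) (nat_lit 0) .nil) .nil)))) (.nd (nat_lit 9) 
(.lf (nat_lit 515352) (.g (nat_lit 2939) (.e (nat_lit 188450) (nat_lit 23) (.e (nat_lit 204846) (nat_lit 24) (.e (nat_lit 319532) (nat_lit 16) (.e (nat_lit 286733) (nat_lit 2) (.e (nat_lit 90178) (nat_lit 15) .nil))))) (.g (nat_lit 1) (.e (nat_lit 210550) (nat_lit 0) .nil) .nil))) 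
(.lf (nat_lit 515864) (.g (nat_lit 2282) (.e (nat_lit 204544) (nat_lit 9) (.e (nat_lit 1401) (nat_lit 106) (.e (nat_lit 319531) (nat_lit 16) (.e (nat_lit 286733) (nat_lit 2) (.e (nat_lit 90134) (nat_lit 9) .nil))))) (.g (nat_lit 0) (.e (nat_lit 213570) (nat_lit 0) .nil) .nil))))) (.nd (nat_lit 8) (.nd (nat_lit 9) 
(.lf (nat_lit 515224) (.g (nat_lit 3345) (.e (nat_lit 188441) (nat_lit 20) (.e (nat_lit 3469) (nat_lit 217) (.e (nat_lit 696344) (nat_lit 8) (.e (nat_lit 172113) (nat_lit 10) (.e (nat_lit 434208) (nat_lit 18) (.e (nat_lit 6250) (nat_lit 337) (.e (nat_lit 7936) (nat_lit 166) .nil))))))) (.g (nat_lit 1) (.e (nat_lit 209601) (nat_lit 0) .nil) .nil))) 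
(.lf (nat_lit 515736) (.g (nat_lit 401) (.e (nat_lit 204544) (nat_lit 6) (.e (nat_lit 188441) (nat_lit 20) (.e (nat_lit 3578) (nat_lit 223) .nil))) (.g (nat_lit 0) (.e (nat_lit 212976) (nat_lit 0) .nil) .nil)))) (.nd (nat_lit 9) 
(.lf (nat_lit 515480) (.g (nat_lit 2502) (.e (nat_lit 188453) (nat_lit 24) (.e (nat_lit 229638) (nat_lit 228) (.e (nat_lit 57436) (nat_lit 17) (.e (nat_lit 376860) (nat_lit 21) (.e (nat_lit 57832) (nat_lit 250) (.e (nat_lit 7936) (nat_lit 166) .nil)))))) (.g (nat_lit 1) (.e (nat_lit 211019) (nat_lit 0) .nil) .nil))) 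
(.lf (nat_lit 515992) (.g (nat_lit 2935) (.e (nat_lit 196654) (nat_lit 11) (.e (nat_lit 16433) (nat_lit 9) (.e (nat_lit 426568) (nat_lit 34) (.e (nat_lit 393253) (nat_lit 18) (.e (nat_lit 164330) (nat_lit 230) (.e (nat_lit 163866) (nat_lit 2) .nil)))))) (.g (nat_lit 1) (.e (nat_lit 213986) (nat_lit 0) .nil) .nil)))))) (.nd (nat_lit 7) (.nd (nat_lit 8) (.nd (nat_lit 9) 
(.lf (nat_lit 515160) (.g (nat_lit 3812) (.e (nat_lit 188441) (nat_lit 20) (.e (nat_lit 3270) (nat_lit 199) (.e (nat_lit 548913) (nat_lit 18) (.e (nat_lit 172120) (nat_lit 12) (.e (nat_lit 475183) (nat_lit 29) .nil))))) (.g (nat_lit 0) (.e (nat_lit 209346) (nat_lit 0) .nil) .nil))) 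
(.lf (nat_lit 515672) (.g (nat_lit 2773) (.e (nat_lit 188455) (nat_lit 24) (.e (nat_lit 229678) (nat_lit 244) (.e (nat_lit 163919) (nat_lit 14) (.e (nat_lit 442374) (nat_lit 0) (.e (nat_lit 2059) (nat_lit 142) (.e (nat_lit 704599) (nat_lit 6) .nil)))))) (.g (nat_lit 1) (.e (nat_lit 211607) (nat_lit 0) .nil) .nil)))) (.nd (nat_lit 9) 
(.lf (nat_lit 515416) (.g (nat_lit 2000) (.e (nat_lit 188451) (nat_lit 23) (.e (nat_lit 204863) (nat_lit 27) (.e (nat_lit 344156) (nat_lit 36) (.e (nat_lit 638985) (nat_lit 5) .nil)))) (.g (nat_lit 0) (.e (nat_lit 210751) (nat_lit 0) .nil) .nil))) 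
(.lf (nat_lit 515928) (.g (nat_lit 451) (.e (nat_lit 196653) (nat_lit 11) (.e (nat_lit 16468) (nat_lit 13) (.e (nat_lit 491264) (nat_lit 15) .nil))) (.g (nat_lit 0) (.e (nat_lit 213756) (nat_lit 0) .nil) .nil))))) (.nd (nat_lit 8) (.nd (nat_lit 9) 
(.lf (nat_lit 515288) (.g (nat_lit 2266) (.e (nat_lit 188446) (nat_lit 21) (.e (nat_lit 164345) (nat_lit 240) (.e (nat_lit 2628) (nat_lit 164) (.e (nat_lit 172118) (nat_lit 12) (.e (nat_lit 475198) (nat_lit 40) (.e (nat_lit 704598) (nat_lit 6) .nil)))))) (.g (nat_lit 1) (.e (nat_lit 210141) (nat_lit 0) .nil) .nil))) 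
(.lf (nat_lit 515800) (.g (nat_lit 2776) (.e (nat_lit 196626) (nat_lit 9) (.e (nat_lit 1400) (nat_lit 106) (.e (nat_lit 319533) (nat_lit 16) (.e (nat_lit 286733) (nat_lit 2) (.e (nat_lit 90125) (nat_lit 9) .nil))))) (.g (nat_lit 0) (.e (nat_lit 213406) (nat_lit 0) .nil) .nil)))) (.nd (nat_lit 9) 
(.lf (nat_lit 515544) (.g (nat_lit 1799) (.e (nat_lit 188453) (nat_lit 24) (.e (nat_lit 229678) (nat_lit 244) (.e (nat_lit 163915) (nat_lit 12) (.e (nat_lit 426306) (nat_lit 12) (.e (nat_lit 475205) (nat_lit 40) (.e (nat_lit 704597) (nat_lit 6) .nil)))))) (.g (nat_lit 1) (.e (nat_lit 211184) (nat_lit 0) .nil) .nil))) 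
(.lf (nat_lit 516056) (.g (nat_lit 2231) (.e (nat_lit 196654) (nat_lit 11) (.e (nat_lit 16438) (nat_lit 9) (.e (nat_lit 426482) (nat_lit 27) (.e (nat_lit 336386) (nat_lit 27) (.e (nat_lit 426107) (nat_lit 1) .nil))))) (.g (nat_lit 0) (.e (nat_lit 214074) (nat_lit 0) .nil) .nil))))))) (.nd (nat_lit 6) (.nd (nat_lit 7) (.nd (nat_lit 8) (.nd (nat_lit 9) 
(.lf (nat_lit 515128) (.g (nat_lit 2735) (.e (nat_lit 188440) (nat_lit 20) (.e (nat_lit 3469) (nat_lit 217) (.e (nat_lit 696344) (nat_lit 8) (.e (nat_lit 172106) (nat_lit 10) (.e (nat_lit 434202) (nat_lit 18) (.e (nat_lit 6252) (nat_lit 337) (.e (nat_lit 7936) (nat_lit 166) .nil))))))) (.g (nat_lit 1) (.e (nat_lit 209305) (nat_lit 0) .nil) .nil))) 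
(.lf (nat_lit 515640) (.g (nat_lit 1746) (.e (nat_lit 188455) (nat_lit 24) (.e (nat_lit 229665) (nat_lit 240) (.e (nat_lit 2630) (nat_lit 164) (.e (nat_lit 172118) (nat_lit 12) (.e (nat_lit 475197) (nat_lit 40) .nil))))) (.g (nat_lit 0) (.e (nat_lit 211494) (nat_lit 0) .nil) .nil)))) (.nd (nat_lit 9) 
(.lf (nat_lit 515384) (.g (nat_lit 2899) (.e (nat_lit 188450) (nat_lit 23) (.e (nat_lit 204885) (nat_lit 33) (.e (nat_lit 401453) (nat_lit 12) (.e (nat_lit 475185) (nat_lit 29) (.e (nat_lit 557107) (nat_lit 15) .nil))))) (.g (nat_lit 1) (.e (nat_lit 210674) (nat_lit 0) .nil) .nil))) 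
(.lf (nat_lit 515896) (.g (nat_lit 2478) (.e (nat_lit 196653) (nat_lit 11) (.e (nat_lit 16435) (nat_lit 9) (.e (nat_lit 426566) (nat_lit 34) (.e (nat_lit 393253) (nat_lit 18) (.e (nat_lit 164329) (nat_lit 230) (.e (nat_lit 163867) (nat_lit 2) .nil)))))) (.g (nat_lit 1) (.e (nat_lit 213686) (nat_lit 0) .nil) .nil))))) (.nd (nat_lit 8) (.nd (nat_lit 9) 
(.lf (nat_lit 515256) (.g (nat_lit 1108) (.e (nat_lit 188444) (nat_lit 21) (.e (nat_lit 164347) (nat_lit 240) (.e (nat_lit 2650) (nat_lit 166) (.e (nat_lit 188427) (nat_lit 20) .nil)))) (.g (nat_lit 0) (.e (nat_lit 209789) (nat_lit 0) .nil) .nil))) 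
(.lf (nat_lit 515768) (.g (nat_lit 1520) (.e (nat_lit 196624) (nat_lit 9) (.e (nat_lit 411) (nat_lit 32) (.e (nat_lit 426201) (nat_lit 9) (.e (nat_lit 426568) (nat_lit 34) (.e (nat_lit 393253) (nat_lit 18) .nil))))) (.g (nat_lit 0) (.e (nat_lit 213290) (nat_lit 0) .nil) .nil)))) (.nd (nat_lit 9) 
(.lf (nat_lit 515512) (.g (nat_lit 324) (.e (nat_lit 188453) (nat_lit 24) (.e (nat_lit 229665) (nat_lit 240) (.e (nat_lit 2725) (nat_lit 172) .nil))) (.g (nat_lit 0) (.e (nat_lit 211130) (nat_lit 0) .nil) .nil))) 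
(.lf (nat_lit 516024) (.g (nat_lit 2875) (.e (nat_lit 196654) (nat_lit 11) (.e (nat_lit 16436) (nat_lit 9) (.e (nat_lit 426131) (nat_lit 3) (.e (nat_lit 204882) (nat_lit 32) (.e (nat_lit 385107) (nat_lit 51) (.e (nat_lit 794669) (nat_lit 22) .nil)))))) (.g (nat_lit 1) (.e (nat_lit 214026) (nat_lit 0) .nil) .nil)))))) (.nd (nat_lit 7) (.nd (nat_lit 8) (.nd (nat_lit 9) 
(.lf (nat_lit 515192) (.g (nat_lit 3565) (.e (nat_lit 188441) (nat_lit 20) (.e (nat_lit 3409) (nat_lit 212) (.e (nat_lit 655378) (nat_lit 4) (.e (nat_lit 172106) (nat_lit 10) (.e (nat_lit 434209) (nat_lit 18) (.e (nat_lit 5547) (nat_lit 306) (.e (nat_lit 2648) (nat_lit 166) .nil))))))) (.g (nat_lit 1) (.e (nat_lit 209484) (nat_lit 0) .nil) .nil))) 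
(.lf (nat_lit 515704) (.g (nat_lit 1840) (.e (nat_lit 204544) (nat_lit 0) (.e (nat_lit 232) (nat_lit 21) (.e (nat_lit 336060) (nat_lit 7) (.e (nat_lit 319504) (nat_lit 10) (.e (nat_lit 806) (nat_lit 67) .nil))))) (.g (nat_lit 0) (.e (nat_lit 212517) (nat_lit 0) .nil) .nil)))) (.nd (nat_lit 9) 
(.lf (nat_lit 515448) (.g (nat_lit 3646) (.e (nat_lit 188452) (nat_lit 23) (.e (nat_lit 204846) (nat_lit 24) (.e (nat_lit 319534) (nat_lit 16) (.e (nat_lit 286732) (nat_lit 2) (.e (nat_lit 90177) (nat_lit 15) .nil))))) (.g (nat_lit 1) (.e (nat_lit 210880) (nat_lit 0) .nil) .nil))) 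
(.lf (nat_lit 515960) (.g (nat_lit 2289) (.e (nat_lit 196654) (nat_lit 11) (.e (nat_lit 16416) (nat_lit 3) (.e (nat_lit 204813) (nat_lit 9) (.e (nat_lit 426139) (nat_lit 3) (.e (nat_lit 204812) (nat_lit 9) (.e (nat_lit 426114) (nat_lit 2) .nil)))))) (.g (nat_lit 1) (.e (nat_lit 213917) (nat_lit 0) .nil) .nil))))) (.nd (nat_lit 8) (.nd (nat_lit 9) 
(.lf (nat_lit 515320) (.g (nat_lit 792) (.e (nat_lit 188450) (nat_lit 23) (.e (nat_lit 204813) (nat_lit 9) (.e (nat_lit 426108) (nat_lit 1) .nil))) (.g (nat_lit 0) (.e (nat_lit 210449) (nat_lit 0) .nil) .nil))) 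
(.lf (nat_lit 515832) (.g (nat_lit 3618) (.e (nat_lit 196628) (nat_lit 9) (.e (nat_lit 1676) (nat_lit 116) (.e (nat_lit 401451) (nat_lit 12) (.e (nat_lit 475185) (nat_lit 29) (.e (nat_lit 557109) (nat_lit 15) .nil))))) (.g (nat_lit 0) (.e (nat_lit 213483) (nat_lit 0) .nil) .nil)))) (.nd (nat_lit 9) 
(.lf (nat_lit 515576) (.g (nat_lit 1137) (.e (nat_lit 188454) (nat_lit 24) (.e (nat_lit 229663) (nat_lit 240) (.e (nat_lit 2622) (nat_lit 164) (.e (nat_lit 172118) (nat_lit 12) .nil)))) (.g (nat_lit 0) (.e (nat_lit 211315) (nat_lit 0) .nil) .nil))) 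
(.lf (nat_lit 516088) (.g (nat_lit 2028) (.e (nat_lit 196654) (nat_lit 11) (.e (nat_lit 16463) (nat_lit 13) (.e (nat_lit 483341) (nat_lit 9) (.e (nat_lit 426011) (nat_lit 0) .nil)))) (.g (nat_lit 0) (.e (nat_lit 214207) (nat_lit 0) .nil) .nil)))))))))) (.nd (nat_lit 3) (.nd (nat_lit 4) (.nd (nat_lit 5) (.nd (nat_lit 6) (.nd (nat_lit 7) (.nd (nat_lit 8) (.nd (nat_lit 9) 
(.lf (nat_lit 515076) (.g (nat_lit 2472) (.e (nat_lit 188440) (nat_lit 20) (.e (nat_lit 3307) (nat_lit 202) (.e (nat_lit 573475) (nat_lit 12) (.e (nat_lit 57574) (nat_lit 55) (.e (nat_lit 778466) (nat_lit 11) .nil))))) (.g (nat_lit 0) (.e (nat_lit 209031) (nat_lit 0) .nil) .nil))) 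
(.lf (nat_lit 515588) (.g (nat_lit 1477) (.e (nat_lit 188454) (nat_lit 24) (.e (nat_lit 229663) (nat_lit 240) (.e (nat_lit 2653) (nat_lit 166) (.e (nat_lit 188418) (nat_lit 0) (.e (nat_lit 2059) (nat_lit 142) .nil))))) (.g (nat_lit 0) (.e (nat_lit 211334) (nat_lit 0) .nil) .nil)))) (.nd (nat_lit 9) 
(.lf (nat_lit 515332) (.g (nat_lit 2278) (.e (nat_lit 188450) (nat_lit 23) (.e (nat_lit 204846) (nat_lit 24) (.e (nat_lit 319504) (nat_lit 10) (.e (nat_lit 5257) (nat_lit 298) .nil)))) (.g (nat_lit 0) (.e (nat_lit 210513) (nat_lit 0) .nil) .nil))) 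
(.lf (nat_lit 515844) (.g (nat_lit 4331) (.e (nat_lit 196630) (nat_lit 9) (.e (nat_lit 1599) (nat_lit 111) (.e (nat_lit 360475) (nat_lit 8) (.e (nat_lit 557090) (nat_lit 12) (.e (nat_lit 164020) (nat_lit 45) .nil))))) (.g (nat_lit 0) (.e (nat_lit 213517) (nat_lit 0) .nil) .nil))))) (.nd (nat_lit 8) (.nd (nat_lit 9) 
(.lf (nat_lit 515204) (.g (nat_lit 1694) (.e (nat_lit 188441) (nat_lit 20) (.e (nat_lit 3469) (nat_lit 217) (.e (nat_lit 696344) (nat_lit 8) (.e (nat_lit 172079) (nat_lit 7) (.e (nat_lit 409611) (nat_lit 10) .nil))))) (.g (nat_lit 0) (.e (nat_lit 209580) (nat_lit 0) .nil) .nil))) 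
(.lf (nat_lit 515716) (.g (nat_lit 474) (.e (nat_lit 204544) (nat_lit 3) (.e (nat_lit 163843) (nat_lit 0) (.e (nat_lit 6421) (nat_lit 341) .nil))) (.g (nat_lit 0) (.e (nat_lit 212625) (nat_lit 0) .nil) .nil)))) (.nd (nat_lit 9) 
(.lf (nat_lit 515460) (.g (nat_lit 1350) (.e (nat_lit 188452) (nat_lit 23) (.e (nat_lit 204884) (nat_lit 33) (.e (nat_lit 401440) (nat_lit 9) (.e (nat_lit 426396) (nat_lit 15) (.e (nat_lit 7936) (nat_lit 124) .nil))))) (.g (nat_lit 0) (.e (nat_lit 210960) (nat_lit 0) .nil) .nil))) 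
(.lf (nat_lit 515972) (.g (nat_lit 2156) (.e (nat_lit 196654) (nat_lit 11) (.e (nat_lit 16416) (nat_lit 3) (.e (nat_lit 204837) (nat_lit 20) (.e (nat_lit 114719) (nat_lit 23) (.e (nat_lit 98335) (nat_lit 18) .nil))))) (.g (nat_lit 0) (.e (nat_lit 213938) (nat_lit 0) .nil) .nil)))))) (.nd (nat_lit 7) (.nd (nat_lit 8) (.nd (nat_lit 9) 
(.lf (nat_lit 515140) (.g (nat_lit 2645) (.e (nat_lit 188440) (nat_lit 20) (.e (nat_lit 3469) (nat_lit 217) (.e (nat_lit 696344) (nat_lit 8) (.e (nat_lit 172113) (nat_lit 10) (.e (nat_lit 434203) (nat_lit 18) (.e (nat_lit 6254) (nat_lit 337) (.e (nat_lit 7936) (nat_lit 166) .nil))))))) (.g (nat_lit 1) (.e (nat_lit 209317) (nat_lit 0) .nil) .nil))) 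
(.lf (nat_lit 515652) (.g (nat_lit 1483) (.e (nat_lit 188455) (nat_lit 24) (.e (nat_lit 229666) (nat_lit 240) (.e (nat_lit 2630) (nat_lit 164) (.e (nat_lit 172118) (nat_lit 12) (.e (nat_lit 475197) (nat_lit 40) (.e (nat_lit 704598) (nat_lit 6) .nil)))))) (.g (nat_lit 1) (.e (nat_lit 211528) (nat_lit 0) .nil) .nil)))) (.nd (nat_lit 9) 
(.lf (nat_lit 515396) (.g (nat_lit 1562) (.e (nat_lit 188451) (nat_lit 23) (.e (nat_lit 204846) (nat_lit 24) (.e (nat_lit 319505) (nat_lit 10) (.e (nat_lit 5351) (nat_lit 298) .nil)))) (.g (nat_lit 0) (.e (nat_lit 210705) (nat_lit 0) .nil) .nil))) 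
(.lf (nat_lit 515908) (.g (nat_lit 2710) (.e (nat_lit 196653) (nat_lit 11) (.e (nat_lit 16463) (nat_lit 13) (.e (nat_lit 483341) (nat_lit 9) (.e (nat_lit 426100) (nat_lit 1) (.e (nat_lit 164332) (nat_lit 230) .nil))))) (.g (nat_lit 0) (.e (nat_lit 213736) (nat_lit 0) .nil) .nil))))) (.nd (nat_lit 8) (.nd (nat_lit 9) 
(.lf (nat_lit 515268) (.g (nat_lit 2420) (.e (nat_lit 188444) (nat_lit 21) (.e (nat_lit 164348) (nat_lit 240) (.e (nat_lit 2648) (nat_lit 166) (.e (nat_lit 188420) (nat_lit 0) (.e (nat_lit 2058) (nat_lit 142) (.e (nat_lit 704598) (nat_lit 6) .nil)))))) (.g (nat_lit 1) (.e (nat_lit 209830) (nat_lit 0) .nil) .nil))) 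
(.lf (nat_lit 515780) (.g (nat_lit 2223) (.e (nat_lit 196626) (nat_lit 9) (.e (nat_lit 1400) (nat_lit 106) (.e (nat_lit 319505) (nat_lit 10) (.e (nat_lit 5714) (nat_lit 312) (.e (nat_lit 2664) (nat_lit 167) (.e (nat_lit 196661) (nat_lit 12) (.e (nat_lit 65280) (nat_lit 208) (.e (nat_lit 237588) (nat_lit 2) .nil)))))))) (.g (nat_lit 1) (.e (nat_lit 213384) (nat_lit 0) .nil) .nil)))) 
(.nd (nat_lit 9) 
(.lf (nat_lit 515524) (.g (nat_lit 2508) (.e (nat_lit 188453) (nat_lit 24) (.e (nat_lit 229666) (nat_lit 240) (.e (nat_lit 2651) (nat_lit 166) (.e (nat_lit 188439) (nat_lit 20) (.e (nat_lit 3406) (nat_lit 212) (.e (nat_lit 655380) (nat_lit 6) .nil)))))) (.g (nat_lit 1) (.e (nat_lit 211145) (nat_lit 0) .nil) .nil))) 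
(.lf (nat_lit 516036) (.g (nat_lit 2983) (.e (nat_lit 196654) (nat_lit 11) (.e (nat_lit 16436) (nat_lit 9) (.e (nat_lit 426482) (nat_lit 27) (.e (nat_lit 336389) (nat_lit 27) (.e (nat_lit 426098) (nat_lit 1) .nil))))) (.g (nat_lit 0) (.e (nat_lit 214044) (nat_lit 0) .nil) .nil))))))) (.nd (nat_lit 6) (.nd (nat_lit 7) (.nd (nat_lit 8) (.nd (nat_lit 9) 
(.lf (nat_lit 515108) (.g (nat_lit 1387) (.e (nat_lit 188440) (nat_lit 20) (.e (nat_lit 3409) (nat_lit 212) (.e (nat_lit 655364) (nat_lit 0) (.e (nat_lit 2989) (nat_lit 186) (.e (nat_lit 450304) (nat_lit 4) (.e (nat_lit 114432) (nat_lit 6) .nil)))))) (.g (nat_lit 1) (.e (nat_lit 209149) (nat_lit 0) .nil) .nil))) 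
(.lf (nat_lit 515620) (.g (nat_lit 1949) (.e (nat_lit 188455) (nat_lit 24) (.e (nat_lit 229663) (nat_lit 240) (.e (nat_lit 2630) (nat_lit 164) (.e (nat_lit 172095) (nat_lit 9) (.e (nat_lit 433920) (nat_lit 19) .nil))))) (.g (nat_lit 0) (.e (nat_lit 211417) (nat_lit 0) .nil) .nil)))) (.nd (nat_lit 9) 
(.lf (nat_lit 515364) (.g (nat_lit 1897) (.e (nat_lit 188450) (nat_lit 23) (.e (nat_lit 204879) (nat_lit 32) (.e (nat_lit 385105) (nat_lit 50) (.e (nat_lit 786450) (nat_lit 15) (.e (nat_lit 1853) (nat_lit 124) .nil))))) (.g (nat_lit 0) (.e (nat_lit 210619) (nat_lit 0) .nil) .nil))) 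
(.lf (nat_lit 515876) (.g (nat_lit 2709) (.e (nat_lit 196652) (nat_lit 11) (.e (nat_lit 16438) (nat_lit 9) (.e (nat_lit 426482) (nat_lit 27) (.e (nat_lit 336389) (nat_lit 27) (.e (nat_lit 426098) (nat_lit 1) .nil))))) (.g (nat_lit 0) (.e (nat_lit 213612) (nat_lit 0) .nil) .nil))))) (.nd (nat_lit 8) (.nd (nat_lit 9) 
(.lf (nat_lit 515236) (.g (nat_lit 2843) (.e (nat_lit 188441) (nat_lit 20) (.e (nat_lit 3469) (nat_lit 217) (.e (nat_lit 696344) (nat_lit 8) (.e (nat_lit 172115) (nat_lit 10) (.e (nat_lit 434209) (nat_lit 18) (.e (nat_lit 6273) (nat_lit 337) (.e (nat_lit 2646) (nat_lit 166) .nil))))))) (.g (nat_lit 1) (.e (nat_lit 209613) (nat_lit 0) .nil) .nil))) 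
(.lf (nat_lit 515748) (.g (nat_lit 2012) (.e (nat_lit 196617) (nat_lit 9) (.e (nat_lit 1182) (nat_lit 87) (.e (nat_lit 57931) (nat_lit 282) (.e (nat_lit 163874) (nat_lit 3) (.e (nat_lit 204872) (nat_lit 30) .nil))))) (.g (nat_lit 0) (.e (nat_lit 213215) (nat_lit 0) .nil) .nil)))) (.nd (nat_lit 9) 
(.lf (nat_lit 515492) (.g (nat_lit 1213) (.e (nat_lit 188453) (nat_lit 24) (.e (nat_lit 229663) (nat_lit 240) (.e (nat_lit 2653) (nat_lit 166) (.e (nat_lit 188416) (nat_lit 0) .nil)))) (.g (nat_lit 0) (.e (nat_lit 211063) (nat_lit 0) .nil) .nil))) 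
(.lf (nat_lit 516004) (.g (nat_lit 1004) (.e (nat_lit 196654) (nat_lit 11) (.e (nat_lit 16436) (nat_lit 9) (.e (nat_lit 426131) (nat_lit 3) (.e (nat_lit 204852) (nat_lit 26) .nil)))) (.g (nat_lit 0) (.e (nat_lit 214004) (nat_lit 0) .nil) .nil)))))) (.nd (nat_lit 7) (.nd (nat_lit 8) (.nd (nat_lit 9) 
(.lf (nat_lit 515172) (.g (nat_lit 1581) (.e (nat_lit 188441) (nat_lit 20) (.e (nat_lit 3390) (nat_lit 210) (.e (nat_lit 639025) (nat_lit 20) (.e (nat_lit 131116) (nat_lit 9) (.e (nat_lit 335988) (nat_lit 1) (.e (nat_lit 57832) (nat_lit 250) (.e (nat_lit 7936) (nat_lit 166) .nil))))))) (.g (nat_lit 1) (.e (nat_lit 209385) (nat_lit 0) .nil) .nil))) 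
(.lf (nat_lit 515684) (.g (nat_lit 1229) (.e (nat_lit 188455) (nat_lit 24) (.e (nat_lit 229680) (nat_lit 244) (.e (nat_lit 163915) (nat_lit 12) (.e (nat_lit 426306) (nat_lit 12) (.e (nat_lit 475205) (nat_lit 40) .nil))))) (.g (nat_lit 0) (.e (nat_lit 211679) (nat_lit 0) .nil) .nil)))) (.nd (nat_lit 9) 
(.lf (nat_lit 515428) (.g (nat_lit 826) (.e (nat_lit 188452) (nat_lit 23) (.e (nat_lit 204829) (nat_lit 18) (.e (nat_lit 57778) (nat_lit 233) .nil))) (.g (nat_lit 0) (.e (nat_lit 210823) (nat_lit 0) .nil) .nil))) 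
(.lf (nat_lit 515940) (.g (nat_lit 2803) (.e (nat_lit 196654) (nat_lit 11) (.e (nat_lit 16412) (nat_lit 2) (.e (nat_lit 196656) (nat_lit 11) (.e (nat_lit 16412) (nat_lit 2) (.e (nat_lit 196656) (nat_lit 11) (.e (nat_lit 16411) (nat_lit 2) .nil)))))) (.g (nat_lit 1) (.e (nat_lit 213846) (nat_lit 0) .nil) .nil))))) (.nd (nat_lit 8) (.nd (nat_lit 9) 
(.lf (nat_lit 515300) (.g (nat_lit 1759) (.e (nat_lit 188446) (nat_lit 21) (.e (nat_lit 164348) (nat_lit 240) (.e (nat_lit 2648) (nat_lit 166) (.e (nat_lit 188418) (nat_lit 0) (.e (nat_lit 2056) (nat_lit 142) (.e (nat_lit 704598) (nat_lit 6) .nil)))))) (.g (nat_lit 1) (.e (nat_lit 210247) (nat_lit 0) .nil) .nil))) 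
(.lf (nat_lit 515812) (.g (nat_lit 1840) (.e (nat_lit 196626) (nat_lit 9) (.e (nat_lit 1400) (nat_lit 106) (.e (nat_lit 319534) (nat_lit 16) (.e (nat_lit 286728) (nat_lit 0) (.e (nat_lit 1799) (nat_lit 119) .nil))))) (.g (nat_lit 0) (.e (nat_lit 213419) (nat_lit 0) .nil) .nil)))) (.nd (nat_lit 9) 
(.lf (nat_lit 515556) (.g (nat_lit 2101) (.e (nat_lit 188453) (nat_lit 24) (.e (nat_lit 229680) (nat_lit 244) (.e (nat_lit 163913) (nat_lit 12) (.e (nat_lit 426230) (nat_lit 9) (.e (nat_lit 426443) (nat_lit 19) (.e (nat_lit 114432) (nat_lit 6) .nil)))))) (.g (nat_lit 1) (.e (nat_lit 211250) (nat_lit 0) .nil) .nil))) 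
(.lf (nat_lit 516068) (.g (nat_lit 1435) (.e (nat_lit 196654) (nat_lit 11) (.e (nat_lit 16438) (nat_lit 9) (.e (nat_lit 426486) (nat_lit 27) (.e (nat_lit 336369) (nat_lit 27) (.e (nat_lit 426109) (nat_lit 1) .nil))))) (.g (nat_lit 0) (.e (nat_lit 214088) (nat_lit 0) .nil) .nil)))))))) (.nd (nat_lit 5) (.nd (nat_lit 6) (.nd (nat_lit 7) (.nd (nat_lit 8) (.nd (nat_lit 9) 
(.lf (nat_lit 515092) (.g (nat_lit 2391) (.e (nat_lit 188440) (nat_lit 20) (.e (nat_lit 3390) (nat_lit 210) (.e (nat_lit 639025) (nat_lit 20) (.e (nat_lit 131116) (nat_lit 9) (.e (nat_lit 335988) (nat_lit 1) (.e (nat_lit 57830) (nat_lit 250) (.e (nat_lit 7936) (nat_lit 166) .nil))))))) (.g (nat_lit 1) (.e (nat_lit 209075) (nat_lit 0) .nil) .nil))) 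
(.lf (nat_lit 515604) (.g (nat_lit 1358) (.e (nat_lit 188454) (nat_lit 24) (.e (nat_lit 229665) (nat_lit 240) (.e (nat_lit 2653) (nat_lit 166) (.e (nat_lit 188441) (nat_lit 20) (.e (nat_lit 3409) (nat_lit 212) .nil))))) (.g (nat_lit 0) (.e (nat_lit 211358) (nat_lit 0) .nil) .nil)))) (.nd (nat_lit 9) 
(.lf (nat_lit 515348) (.g (nat_lit 1341) (.e (nat_lit 188450) (nat_lit 23) (.e (nat_lit 204846) (nat_lit 24) (.e (nat_lit 319532) (nat_lit 16) (.e (nat_lit 286722) (nat_lit 0) .nil)))) (.g (nat_lit 0) (.e (nat_lit 210545) (nat_lit 0) .nil) .nil))) 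
(.lf (nat_lit 515860) (.g (nat_lit 2709) (.e (nat_lit 196635) (nat_lit 9) (.e (nat_lit 1181) (nat_lit 87) (.e (nat_lit 57931) (nat_lit 282) (.e (nat_lit 163873) (nat_lit 3) (.e (nat_lit 204872) (nat_lit 30) .nil))))) (.g (nat_lit 0) (.e (nat_lit 213559) (nat_lit 0) .nil) .nil))))) (.nd (nat_lit 8) (.nd (nat_lit 9) 
(.lf (nat_lit 515220) (.g (nat_lit 1981) (.e (nat_lit 188441) (nat_lit 20) (.e (nat_lit 3469) (nat_lit 217) (.e (nat_lit 696344) (nat_lit 8) (.e (nat_lit 172113) (nat_lit 10) (.e (nat_lit 434203) (nat_lit 18) (.e (nat_lit 6262) (nat_lit 337) (.e (nat_lit 7936) (nat_lit 166) .nil))))))) (.g (nat_lit 1) (.e (nat_lit 209597) (nat_lit 0) .nil) .nil))) 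
(.lf (nat_lit 515732) (.g (nat_lit 781) (.e (nat_lit 204544) (nat_lit 6) (.e (nat_lit 188440) (nat_lit 20) (.e (nat_lit 3578) (nat_lit 223) (.e (nat_lit 745475) (nat_lit 0) (.e (nat_lit 1559) (nat_lit 110) .nil))))) (.g (nat_lit 0) (.e (nat_lit 212969) (nat_lit 0) .nil) .nil)))) (.nd (nat_lit 9) 
(.lf (nat_lit 515476) (.g (nat_lit 1323) (.e (nat_lit 196352) (nat_lit 23) (.e (nat_lit 204846) (nat_lit 24) (.e (nat_lit 319533) (nat_lit 16) (.e (nat_lit 286733) (nat_lit 2) .nil)))) (.g (nat_lit 0) (.e (nat_lit 211013) (nat_lit 0) .nil) .nil))) 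
(.lf (nat_lit 515988) (.g (nat_lit 3140) (.e (nat_lit 196654) (nat_lit 11) (.e (nat_lit 16433) (nat_lit 9) (.e (nat_lit 426568) (nat_lit 34) (.e (nat_lit 393251) (nat_lit 18) (.e (nat_lit 164332) (nat_lit 230) (.e (nat_lit 163866) (nat_lit 2) .nil)))))) (.g (nat_lit 1) (.e (nat_lit 213982) (nat_lit 0) .nil) .nil)))))) (.nd (nat_lit 7) (.nd (nat_lit 8) (.nd (nat_lit 9) 
(.lf (nat_lit 515156) (.g (nat_lit 1610) (.e (nat_lit 188440) (nat_lit 20) (.e (nat_lit 3579) (nat_lit 223) (.e (nat_lit 745491) (nat_lit 4) (.e (nat_lit 65617) (nat_lit 10) (.e (nat_lit 344136) (nat_lit 29) .nil))))) (.g (nat_lit 0) (.e (nat_lit 209341) (nat_lit 0) .nil) .nil))) 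
(.lf (nat_lit 515668) (.g (nat_lit 2745) (.e (nat_lit 188455) (nat_lit 24) (.e (nat_lit 229678) (nat_lit 244) (.e (nat_lit 163913) (nat_lit 12) (.e (nat_lit 426230) (nat_lit 9) (.e (nat_lit 426443) (nat_lit 19) (.e (nat_lit 114432) (nat_lit 6) .nil)))))) (.g (nat_lit 1) (.e (nat_lit 211598) (nat_lit 0) .nil) .nil)))) (.nd (nat_lit 9) 
(.lf (nat_lit 515412) (.g (nat_lit 3944) (.e (nat_lit 188451) (nat_lit 23) (.e (nat_lit 204846) (nat_lit 24) (.e (nat_lit 319535) (nat_lit 17) (.e (nat_lit 294928) (nat_lit 2) (.e (nat_lit 90178) (nat_lit 15) .nil))))) (.g (nat_lit 1) (.e (nat_lit 210732) (nat_lit 0) .nil) .nil))) 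
(.lf (nat_lit 515924) (.g (nat_lit 1390) (.e (nat_lit 196653) (nat_lit 11) (.e (nat_lit 16466) (nat_lit 13) (.e (nat_lit 483341) (nat_lit 9) (.e (nat_lit 426107) (nat_lit 1) .nil)))) (.g (nat_lit 0) (.e (nat_lit 213752) (nat_lit 0) .nil) .nil))))) (.nd (nat_lit 8) (.nd (nat_lit 9) 
(.lf (nat_lit 515284) (.g (nat_lit 1288) (.e (nat_lit 188446) (nat_lit 21) (.e (nat_lit 164319) (nat_lit 228) (.e (nat_lit 57424) (nat_lit 14) (.e (nat_lit 352303) (nat_lit 20) (.e (nat_lit 1963) (nat_lit 134) .nil))))) (.g (nat_lit 0) (.e (nat_lit 210129) (nat_lit 0) .nil) .nil))) 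
(.lf (nat_lit 515796) (.g (nat_lit 1919) (.e (nat_lit 196626) (nat_lit 9) (.e (nat_lit 1400) (nat_lit 106) (.e (nat_lit 319532) (nat_lit 16) (.e (nat_lit 286735) (nat_lit 3) (.e (nat_lit 98381) (nat_lit 31) .nil))))) (.g (nat_lit 0) (.e (nat_lit 213402) (nat_lit 0) .nil) .nil)))) (.nd (nat_lit 9) 
(.lf (nat_lit 515540) (.g (nat_lit 1389) (.e (nat_lit 188453) (nat_lit 24) (.e (nat_lit 229678) (nat_lit 244) (.e (nat_lit 163913) (nat_lit 12) (.e (nat_lit 426230) (nat_lit 9) .nil)))) (.g (nat_lit 0) (.e (nat_lit 211178) (nat_lit 0) .nil) .nil))) 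
(.lf (nat_lit 516052) (.g (nat_lit 1592) (.e (nat_lit 196654) (nat_lit 11) (.e (nat_lit 16438) (nat_lit 9) (.e (nat_lit 426482) (nat_lit 27) (.e (nat_lit 336385) (nat_lit 27) .nil)))) (.g (nat_lit 0) (.e (nat_lit 214067) (nat_lit 0) .nil) .nil))))))) (.nd (nat_lit 6) (.nd (nat_lit 7) (.nd (nat_lit 8) (.nd (nat_lit 9) 
(.lf (nat_lit 515124) (.g (nat_lit 356) (.e (nat_lit 188440) (nat_lit 20) (.e (nat_lit 3469) (nat_lit 217) (.e (nat_lit 696344) (nat_lit 8) .nil))) (.g (nat_lit 0) (.e (nat_lit 209299) (nat_lit 0) .nil) .nil))) 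
(.lf (nat_lit 515636) (.g (nat_lit 2095) (.e (nat_lit 188455) (nat_lit 24) (.e (nat_lit 229664) (nat_lit 240) (.e (nat_lit 2651) (nat_lit 166) (.e (nat_lit 188417) (nat_lit 0) (.e (nat_lit 2148) (nat_lit 142) (.e (nat_lit 704597) (nat_lit 6) .nil)))))) (.g (nat_lit 1) (.e (nat_lit 211482) (nat_lit 0) .nil) .nil)))) (.nd (nat_lit 9) 
(.lf (nat_lit 515380) (.g (nat_lit 1165) (.e (nat_lit 188450) (nat_lit 23) (.e (nat_lit 204885) (nat_lit 33) (.e (nat_lit 401452) (nat_lit 12) (.e (nat_lit 475184) (nat_lit 29) .nil)))) (.g (nat_lit 0) (.e (nat_lit 210670) (nat_lit 0) .nil) .nil))) 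
(.lf (nat_lit 515892) (.g (nat_lit 1638) (.e (nat_lit 196653) (nat_lit 11) (.e (nat_lit 16435) (nat_lit 9) (.e (nat_lit 426566) (nat_lit 34) (.e (nat_lit 393252) (nat_lit 18) (.e (nat_lit 164332) (nat_lit 230) .nil))))) (.g (nat_lit 0) (.e (nat_lit 213682) (nat_lit 0) .nil) .nil))))) (.nd (nat_lit 8) (.nd (nat_lit 9) 
(.lf (nat_lit 515252) (.g (nat_lit 2243) (.e (nat_lit 188444) (nat_lit 21) (.e (nat_lit 164347) (nat_lit 240) (.e (nat_lit 2628) (nat_lit 164) (.e (nat_lit 172118) (nat_lit 12) (.e (nat_lit 475198) (nat_lit 40) (.e (nat_lit 704598) (nat_lit 6) .nil)))))) (.g (nat_lit 1) (.e (nat_lit 209767) (nat_lit 0) .nil) .nil))) 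
(.lf (nat_lit 515764) (.g (nat_lit 1170) (.e (nat_lit 196624) (nat_lit 9) (.e (nat_lit 375) (nat_lit 32) (.e (nat_lit 426201) (nat_lit 9) (.e (nat_lit 426566) (nat_lit 34) .nil)))) (.g (nat_lit 0) (.e (nat_lit 213281) (nat_lit 0) .nil) .nil)))) (.nd (nat_lit 9) 
(.lf (nat_lit 515508) (.g (nat_lit 1495) (.e (nat_lit 188453) (nat_lit 24) (.e (nat_lit 229665) (nat_lit 240) (.e (nat_lit 2651) (nat_lit 166) (.e (nat_lit 188441) (nat_lit 20) .nil)))) (.g (nat_lit 0) (.e (nat_lit 211104) (nat_lit 0) .nil) .nil))) 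
(.lf (nat_lit 516020) (.g (nat_lit 2044) (.e (nat_lit 196654) (nat_lit 11) (.e (nat_lit 16436) (nat_lit 9) (.e (nat_lit 426131) (nat_lit 3) (.e (nat_lit 204880) (nat_lit 32) (.e (nat_lit 385108) (nat_lit 51) .nil))))) (.g (nat_lit 0) (.e (nat_lit 214022) (nat_lit 0) .nil) .nil)))))) (.nd (nat_lit 7) (.nd (nat_lit 8) (.nd (nat_lit 9) 
(.lf (nat_lit 515188) (.g (nat_lit 1584) (.e (nat_lit 188441) (nat_lit 20) (.e (nat_lit 3409) (nat_lit 212) (.e (nat_lit 655364) (nat_lit 0) (.e (nat_lit 3004) (nat_lit 186) (.e (nat_lit 450304) (nat_lit 4) (.e (nat_lit 114432) (nat_lit 6) .nil)))))) (.g (nat_lit 1) (.e (nat_lit 209464) (nat_lit 0) .nil) .nil))) 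
(.lf (nat_lit 515700) (.g (nat_lit 1047) (.e (nat_lit 188461) (nat_lit 26) (.e (nat_lit 254007) (nat_lit 14) (.e (nat_lit 1348) (nat_lit 102) (.e (nat_lit 286748) (nat_lit 9) .nil)))) (.g (nat_lit 0) (.e (nat_lit 212468) (nat_lit 0) .nil) .nil)))) (.nd (nat_lit 9) 
(.lf (nat_lit 515444) (.g (nat_lit 1380) (.e (nat_lit 188452) (nat_lit 23) (.e (nat_lit 204846) (nat_lit 24) (.e (nat_lit 319504) (nat_lit 10) (.e (nat_lit 5294) (nat_lit 298) .nil)))) (.g (nat_lit 0) (.e (nat_lit 210857) (nat_lit 0) .nil) .nil))) 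
(.lf (nat_lit 515956) (.g (nat_lit 3196) (.e (nat_lit 196654) (nat_lit 11) (.e (nat_lit 16416) (nat_lit 3) (.e (nat_lit 204813) (nat_lit 9) (.e (nat_lit 426124) (nat_lit 2) (.e (nat_lit 196656) (nat_lit 11) (.e (nat_lit 16410) (nat_lit 2) .nil)))))) (.g (nat_lit 1) (.e (nat_lit 213913) (nat_lit 0) .nil) .nil))))) (.nd (nat_lit 8) (.nd (nat_lit 9) 
(.lf (nat_lit 515316) (.g (nat_lit 435) (.e (nat_lit 188450) (nat_lit 23) (.e (nat_lit 204809) (nat_lit 9) (.e (nat_lit 426107) (nat_lit 1) .nil))) (.g (nat_lit 0) (.e (nat_lit 210430) (nat_lit 0) .nil) .nil))) 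
(.lf (nat_lit 515828) (.g (nat_lit 906) (.e (nat_lit 196628) (nat_lit 9) (.e (nat_lit 488) (nat_lit 38) (.e (nat_lit 475212) (nat_lit 42) (.e (nat_lit 720930) (nat_lit 21) .nil)))) (.g (nat_lit 0) (.e (nat_lit 213457) (nat_lit 0) .nil) .nil)))) (.nd (nat_lit 9) 
(.lf (nat_lit 515572) (.g (nat_lit 3049) (.e (nat_lit 188453) (nat_lit 24) (.e (nat_lit 229681) (nat_lit 244) (.e (nat_lit 163920) (nat_lit 14) (.e (nat_lit 442374) (nat_lit 0) (.e (nat_lit 2059) (nat_lit 142) (.e (nat_lit 704598) (nat_lit 6) .nil)))))) (.g (nat_lit 1) (.e (nat_lit 211299) (nat_lit 0) .nil) .nil))) 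
(.lf (nat_lit 516084) (.g (nat_lit 522) (.e (nat_lit 196654) (nat_lit 11) (.e (nat_lit 16463) (nat_lit 13) (.e (nat_lit 483341) (nat_lit 9) .nil))) (.g (nat_lit 0) (.e (nat_lit 214202) (nat_lit 0) .nil) .nil))))))))) (.nd (nat_lit 4) (.nd (nat_lit 5) (.nd (nat_lit 6) (.nd (nat_lit 7) (.nd (nat_lit 8) (.nd (nat_lit 9) 
(.lf (nat_lit 515084) (.g (nat_lit 1264) (.e (nat_lit 188440) (nat_lit 20) (.e (nat_lit 3288) (nat_lit 201) (.e (nat_lit 565267) (nat_lit 4) (.e (nat_lit 65617) (nat_lit 10) (.e (nat_lit 344183) (nat_lit 49) (.e (nat_lit 819221) (nat_lit 6) .nil)))))) (.g (nat_lit 1) (.e (nat_lit 209040) (nat_lit 0) .nil) .nil))) 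
(.lf (nat_lit 515596) (.g (nat_lit 1612) (.e (nat_lit 188454) (nat_lit 24) (.e (nat_lit 229665) (nat_lit 240) (.e (nat_lit 2651) (nat_lit 166) (.e (nat_lit 188431) (nat_lit 20) (.e (nat_lit 3399) (nat_lit 211) .nil))))) (.g (nat_lit 0) (.e (nat_lit 211348) (nat_lit 0) .nil) .nil)))) (.nd (nat_lit 9) 
(.lf (nat_lit 515340) (.g (nat_lit 2519) (.e (nat_lit 188450) (nat_lit 23) (.e (nat_lit 204846) (nat_lit 24) (.e (nat_lit 319528) (nat_lit 16) (.e (nat_lit 286733) (nat_lit 2) (.e (nat_lit 90177) (nat_lit 15) .nil))))) (.g (nat_lit 1) (.e (nat_lit 210527) (nat_lit 0) .nil) .nil))) 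
(.lf (nat_lit 515852) (.g (nat_lit 2290) (.e (nat_lit 196630) (nat_lit 9) (.e (nat_lit 1669) (nat_lit 116) (.e (nat_lit 401459) (nat_lit 13) (.e (nat_lit 483344) (nat_lit 17) (.e (nat_lit 2367) (nat_lit 153) .nil))))) (.g (nat_lit 0) (.e (nat_lit 213542) (nat_lit 0) .nil) .nil))))) (.nd (nat_lit 8) (.nd (nat_lit 9) 
(.lf (nat_lit 515212) (.g (nat_lit 2793) (.e (nat_lit 188441) (nat_lit 20) (.e (nat_lit 3469) (nat_lit 217) (.e (nat_lit 696344) (nat_lit 8) (.e (nat_lit 172106) (nat_lit 10) (.e (nat_lit 434286) (nat_lit 42) (.e (nat_lit 696064) (nat_lit 10) .nil)))))) (.g (nat_lit 1) (.e (nat_lit 209589) (nat_lit 0) .nil) .nil))) 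
(.lf (nat_lit 515724) (.g (nat_lit 861) (.e (nat_lit 204544) (nat_lit 6) (.e (nat_lit 188434) (nat_lit 20) (.e (nat_lit 3578) (nat_lit 223) (.e (nat_lit 745475) (nat_lit 0) (.e (nat_lit 1572) (nat_lit 110) .nil))))) (.g (nat_lit 0) (.e (nat_lit 212953) (nat_lit 0) .nil) .nil)))) (.nd (nat_lit 9) 
(.lf (nat_lit 515468) (.g (nat_lit 4210) (.e (nat_lit 188452) (nat_lit 23) (.e (nat_lit 204885) (nat_lit 33) (.e (nat_lit 401451) (nat_lit 12) (.e (nat_lit 475185) (nat_lit 29) (.e (nat_lit 557108) (nat_lit 15) .nil))))) (.g (nat_lit 1) (.e (nat_lit 211005) (nat_lit 0) .nil) .nil))) 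
(.lf (nat_lit 515980) (.g (nat_lit 750) (.e (nat_lit 196654) (nat_lit 11) (.e (nat_lit 16433) (nat_lit 9) (.e (nat_lit 426564) (nat_lit 34) .nil))) (.g (nat_lit 0) (.e (nat_lit 213969) (nat_lit 0) .nil) .nil)))))) (.nd (nat_lit 7) (.nd (nat_lit 8) (.nd (nat_lit 9) 
(.lf (nat_lit 515148) (.g (nat_lit 2000) (.e (nat_lit 188440) (nat_lit 20) (.e (nat_lit 3469) (nat_lit 217) (.e (nat_lit 696344) (nat_lit 8) (.e (nat_lit 172113) (nat_lit 10) (.e (nat_lit 434285) (nat_lit 42) .nil))))) (.g (nat_lit 0) (.e (nat_lit 209325) (nat_lit 0) .nil) .nil))) 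
(.lf (nat_lit 515660) (.g (nat_lit 1892) (.e (nat_lit 188455) (nat_lit 24) (.e (nat_lit 229677) (nat_lit 244) (.e (nat_lit 163920) (nat_lit 14) (.e (nat_lit 442374) (nat_lit 0) (.e (nat_lit 2059) (nat_lit 142) .nil))))) (.g (nat_lit 0) (.e (nat_lit 211547) (nat_lit 0) .nil) .nil)))) (.nd (nat_lit 9) 
(.lf (nat_lit 515404) (.g (nat_lit 1696) (.e (nat_lit 188451) (nat_lit 23) (.e (nat_lit 204846) (nat_lit 24) (.e (nat_lit 319534) (nat_lit 16) (.e (nat_lit 286720) (nat_lit 0) (.e (nat_lit 1685) (nat_lit 117) .nil))))) (.g (nat_lit 0) (.e (nat_lit 210719) (nat_lit 0) .nil) .nil))) 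
(.lf (nat_lit 515916) (.g (nat_lit 1124) (.e (nat_lit 196653) (nat_lit 11) (.e (nat_lit 16464) (nat_lit 13) (.e (nat_lit 483341) (nat_lit 9) (.e (nat_lit 426105) (nat_lit 1) .nil)))) (.g (nat_lit 0) (.e (nat_lit 213744) (nat_lit 0) .nil) .nil))))) (.nd (nat_lit 8) (.nd (nat_lit 9) 
(.lf (nat_lit 515276) (.g (nat_lit 2369) (.e (nat_lit 188445) (nat_lit 21) (.e (nat_lit 164348) (nat_lit 240) (.e (nat_lit 2619) (nat_lit 164) (.e (nat_lit 172118) (nat_lit 12) (.e (nat_lit 475198) (nat_lit 40) (.e (nat_lit 704599) (nat_lit 6) .nil)))))) (.g (nat_lit 1) (.e (nat_lit 209935) (nat_lit 0) .nil) .nil))) 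
(.lf (nat_lit 515788) (.g (nat_lit 2591) (.e (nat_lit 196626) (nat_lit 9) (.e (nat_lit 1400) (nat_lit 106) (.e (nat_lit 319530) (nat_lit 16) (.e (nat_lit 286733) (nat_lit 2) (.e (nat_lit 90134) (nat_lit 9) .nil))))) (.g (nat_lit 0) (.e (nat_lit 213394) (nat_lit 0) .nil) .nil)))) (.nd (nat_lit 9) 
(.lf (nat_lit 515532) (.g (nat_lit 1103) (.e (nat_lit 188453) (nat_lit 24) (.e (nat_lit 229678) (nat_lit 244) (.e (nat_lit 163900) (nat_lit 12) (.e (nat_lit 426317) (nat_lit 12) .nil)))) (.g (nat_lit 0) (.e (nat_lit 211169) (nat_lit 0) .nil) .nil))) 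
(.lf (nat_lit 516044) (.g (nat_lit 2046) (.e (nat_lit 196654) (nat_lit 11) (.e (nat_lit 16438) (nat_lit 9) (.e (nat_lit 426131) (nat_lit 3) (.e (nat_lit 204852) (nat_lit 26) (.e (nat_lit 336336) (nat_lit 20) .nil))))) (.g (nat_lit 0) (.e (nat_lit 214057) (nat_lit 0) .nil) .nil))))))) (.nd (nat_lit 6) (.nd (nat_lit 7) (.nd (nat_lit 8) (.nd (nat_lit 9) 
(.lf (nat_lit 515116) (.g (nat_lit 1565) (.e (nat_lit 188440) (nat_lit 20) (.e (nat_lit 3409) (nat_lit 212) (.e (nat_lit 655380) (nat_lit 6) (.e (nat_lit 188430) (nat_lit 20) (.e (nat_lit 3402) (nat_lit 211) (.e (nat_lit 647185) (nat_lit 6) .nil)))))) (.g (nat_lit 1) (.e (nat_lit 209171) (nat_lit 0) .nil) .nil))) 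
(.lf (nat_lit 515628) (.g (nat_lit 3435) (.e (nat_lit 188455) (nat_lit 24) (.e (nat_lit 229663) (nat_lit 240) (.e (nat_lit 2651) (nat_lit 166) (.e (nat_lit 188420) (nat_lit 0) (.e (nat_lit 2059) (nat_lit 142) (.e (nat_lit 704599) (nat_lit 6) .nil)))))) (.g (nat_lit 1) (.e (nat_lit 211439) (nat_lit 0) .nil) .nil)))) (.nd (nat_lit 9) 
(.lf (nat_lit 515372) (.g (nat_lit 3425) (.e (nat_lit 188450) (nat_lit 23) (.e (nat_lit 204884) (nat_lit 33) (.e (nat_lit 401450) (nat_lit 12) (.e (nat_lit 475185) (nat_lit 29) (.e (nat_lit 557107) (nat_lit 15) .nil))))) (.g (nat_lit 1) (.e (nat_lit 210645) (nat_lit 0) .nil) .nil))) 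
(.lf (nat_lit 515884) (.g (nat_lit 760) (.e (nat_lit 196653) (nat_lit 11) (.e (nat_lit 16433) (nat_lit 9) (.e (nat_lit 426566) (nat_lit 34) .nil))) (.g (nat_lit 0) (.e (nat_lit 213672) (nat_lit 0) .nil) .nil))))) (.nd (nat_lit 8) (.nd (nat_lit 9) 
(.lf (nat_lit 515244) (.g (nat_lit 719) (.e (nat_lit 188444) (nat_lit 21) (.e (nat_lit 164345) (nat_lit 240) (.e (nat_lit 2648) (nat_lit 166) (.e (nat_lit 188418) (nat_lit 0) .nil)))) (.g (nat_lit 0) (.e (nat_lit 209729) (nat_lit 0) .nil) .nil))) 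
(.lf (nat_lit 515756) (.g (nat_lit 1670) (.e (nat_lit 196623) (nat_lit 9) (.e (nat_lit 395) (nat_lit 32) (.e (nat_lit 426188) (nat_lit 9) (.e (nat_lit 426566) (nat_lit 34) (.e (nat_lit 393253) (nat_lit 18) .nil))))) (.g (nat_lit 0) (.e (nat_lit 213259) (nat_lit 0) .nil) .nil)))) (.nd (nat_lit 9) 
(.lf (nat_lit 515500) (.g (nat_lit 316) (.e (nat_lit 188453) (nat_lit 24) (.e (nat_lit 229665) (nat_lit 240) (.e (nat_lit 2651) (nat_lit 166) .nil))) (.g (nat_lit 0) (.e (nat_lit 211092) (nat_lit 0) .nil) .nil))) 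
(.lf (nat_lit 516012) (.g (nat_lit 2365) (.e (nat_lit 196654) (nat_lit 11) (.e (nat_lit 16436) (nat_lit 9) (.e (nat_lit 426131) (nat_lit 3) (.e (nat_lit 204852) (nat_lit 26) (.e (nat_lit 343808) (nat_lit 20) (.e (nat_lit 221212) (nat_lit 22) .nil)))))) (.g (nat_lit 1) (.e (nat_lit 214012) (nat_lit 0) .nil) .nil)))))) (.nd (nat_lit 7) (.nd (nat_lit 8) (.nd (nat_lit 9) 
(.lf (nat_lit 515180) (.g (nat_lit 1129) (.e (nat_lit 188441) (nat_lit 20) (.e (nat_lit 3408) (nat_lit 212) (.e (nat_lit 655363) (nat_lit 0) (.e (nat_lit 3004) (nat_lit 186) (.e (nat_lit 450304) (nat_lit 4) (.e (nat_lit 114432) (nat_lit 6) .nil)))))) (.g (nat_lit 1) (.e (nat_lit 209416) (nat_lit 0) .nil) .nil))) 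
(.lf (nat_lit 515692) (.g (nat_lit 1429) (.e (nat_lit 188455) (nat_lit 24) (.e (nat_lit 229681) (nat_lit 244) (.e (nat_lit 163915) (nat_lit 12) (.e (nat_lit 426187) (nat_lit 9) (.e (nat_lit 426444) (nat_lit 19) (.e (nat_lit 114432) (nat_lit 6) .nil)))))) (.g (nat_lit 1) (.e (nat_lit 211719) (nat_lit 0) .nil) .nil)))) (.nd (nat_lit 9) 
(.lf (nat_lit 515436) (.g (nat_lit 1096) (.e (nat_lit 188452) (nat_lit 23) (.e (nat_lit 204845) (nat_lit 24) (.e (nat_lit 319505) (nat_lit 10) (.e (nat_lit 7936) (nat_lit 313) .nil)))) (.g (nat_lit 0) (.e (nat_lit 210840) (nat_lit 0) .nil) .nil))) 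
(.lf (nat_lit 515948) (.g (nat_lit 2889) (.e (nat_lit 196654) (nat_lit 11) (.e (nat_lit 16416) (nat_lit 3) (.e (nat_lit 204809) (nat_lit 9) (.e (nat_lit 426124) (nat_lit 2) (.e (nat_lit 196656) (nat_lit 11) (.e (nat_lit 16411) (nat_lit 2) .nil)))))) (.g (nat_lit 1) (.e (nat_lit 213893) (nat_lit 0) .nil) .nil))))) (.nd (nat_lit 8) (.nd (nat_lit 9) 
(.lf (nat_lit 515308) (.g (nat_lit 451) (.e (nat_lit 188448) (nat_lit 22) (.e (nat_lit 196665) (nat_lit 13) (.e (nat_lit 65633) (nat_lit 15) .nil))) (.g (nat_lit 0) (.e (nat_lit 210330) (nat_lit 0) .nil) .nil))) 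
(.lf (nat_lit 515820) (.g (nat_lit 1783) (.e (nat_lit 196626) (nat_lit 9) (.e (nat_lit 1400) (nat_lit 106) (.e (nat_lit 319534) (nat_lit 16) (.e (nat_lit 286735) (nat_lit 3) (.e (nat_lit 98379) (nat_lit 31) .nil))))) (.g (nat_lit 0) (.e (nat_lit 213428) (nat_lit 0) .nil) .nil)))) (.nd (nat_lit 9) 
(.lf (nat_lit 515564) (.g (nat_lit 1842) (.e (nat_lit 188453) (nat_lit 24) (.e (nat_lit 229680) (nat_lit 244) (.e (nat_lit 163920) (nat_lit 14) (.e (nat_lit 442377) (nat_lit 0) .nil)))) (.g (nat_lit 0) (.e (nat_lit 211261) (nat_lit 0) .nil) .nil))) 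
(.lf (nat_lit 516076) (.g (nat_lit 861) (.e (nat_lit 196654) (nat_lit 11) (.e (nat_lit 16463) (nat_lit 13) (.e (nat_lit 483336) (nat_lit 9) .nil))) (.g (nat_lit 0) (.e (nat_lit 214193) (nat_lit 0) .nil) .nil)))))))) (.nd (nat_lit 5) (.nd (nat_lit 6) (.nd (nat_lit 7) (.nd (nat_lit 8) (.nd (nat_lit 9) 
(.lf (nat_lit 515100) (.g (nat_lit 1335) (.e (nat_lit 188440) (nat_lit 20) (.e (nat_lit 3408) (nat_lit 212) (.e (nat_lit 655364) (nat_lit 0) (.e (nat_lit 2989) (nat_lit 186) (.e (nat_lit 450304) (nat_lit 4) (.e (nat_lit 114432) (nat_lit 6) .nil)))))) (.g (nat_lit 1) (.e (nat_lit 209116) (nat_lit 0) .nil) .nil))) 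
(.lf (nat_lit 515612) (.g (nat_lit 2133) (.e (nat_lit 188454) (nat_lit 24) (.e (nat_lit 229678) (nat_lit 244) (.e (nat_lit 163923) (nat_lit 15) (.e (nat_lit 450593) (nat_lit 16) .nil)))) (.g (nat_lit 0) (.e (nat_lit 211377) (nat_lit 0) .nil) .nil)))) (.nd (nat_lit 9) 
(.lf (nat_lit 515356) (.g (nat_lit 3033) (.e (nat_lit 188450) (nat_lit 23) (.e (nat_lit 204846) (nat_lit 24) (.e (nat_lit 319535) (nat_lit 17) (.e (nat_lit 294928) (nat_lit 2) (.e (nat_lit 90178) (nat_lit 15) .nil))))) (.g (nat_lit 1) (.e (nat_lit 210560) (nat_lit 0) .nil) .nil))) 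
(.lf (nat_lit 515868) (.g (nat_lit 1825) (.e (nat_lit 196652) (nat_lit 11) (.e (nat_lit 16434) (nat_lit 9) (.e (nat_lit 426566) (nat_lit 34) (.e (nat_lit 393254) (nat_lit 18) .nil)))) (.g (nat_lit 0) (.e (nat_lit 213584) (nat_lit 0) .nil) .nil))))) (.nd (nat_lit 8) (.nd (nat_lit 9) 
(.lf (nat_lit 515228) (.g (nat_lit 4238) (.e (nat_lit 188441) (nat_lit 20) (.e (nat_lit 3469) (nat_lit 217) (.e (nat_lit 696344) (nat_lit 8) (.e (nat_lit 172113) (nat_lit 10) (.e (nat_lit 434208) (nat_lit 18) (.e (nat_lit 6255) (nat_lit 337) (.e (nat_lit 2653) (nat_lit 166) .nil))))))) (.g (nat_lit 1) (.e (nat_lit 209605) (nat_lit 0) .nil) .nil))) 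
(.lf (nat_lit 515740) (.g (nat_lit 1117) (.e (nat_lit 204544) (nat_lit 6) (.e (nat_lit 188441) (nat_lit 20) (.e (nat_lit 3579) (nat_lit 223) (.e (nat_lit 745475) (nat_lit 0) (.e (nat_lit 1572) (nat_lit 110) .nil))))) (.g (nat_lit 0) (.e (nat_lit 212981) (nat_lit 0) .nil) .nil)))) (.nd (nat_lit 9) 
(.lf (nat_lit 515484) (.g (nat_lit 1774) (.e (nat_lit 188453) (nat_lit 24) (.e (nat_lit 229663) (nat_lit 240) (.e (nat_lit 2630) (nat_lit 164) (.e (nat_lit 172095) (nat_lit 9) .nil)))) (.g (nat_lit 0) (.e (nat_lit 211028) (nat_lit 0) .nil) .nil))) 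
(.lf (nat_lit 515996) (.g (nat_lit 3176) (.e (nat_lit 196654) (nat_lit 11) (.e (nat_lit 16434) (nat_lit 9) (.e (nat_lit 426566) (nat_lit 34) (.e (nat_lit 393253) (nat_lit 18) (.e (nat_lit 164330) (nat_lit 230) (.e (nat_lit 163866) (nat_lit 2) .nil)))))) (.g (nat_lit 1) (.e (nat_lit 213990) (nat_lit 0) .nil) .nil)))))) (.nd (nat_lit 7) (.nd (nat_lit 8) (.nd (nat_lit 9) 
(.lf (nat_lit 515164) (.g (nat_lit 216) (.e (nat_lit 188441) (nat_lit 20) (.e (nat_lit 3308) (nat_lit 202) (.e (nat_lit 573470) (nat_lit 11) .nil))) (.g (nat_lit 0) (.e (nat_lit 209364) (nat_lit 0) .nil) .nil))) 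
(.lf (nat_lit 515676) (.g (nat_lit 1057) (.e (nat_lit 188455) (nat_lit 24) (.e (nat_lit 229679) (nat_lit 244) (.e (nat_lit 163915) (nat_lit 12) (.e (nat_lit 426187) (nat_lit 9) (.e (nat_lit 426444) (nat_lit 19) (.e (nat_lit 114432) (nat_lit 6) .nil)))))) (.g (nat_lit 1) (.e (nat_lit 211663) (nat_lit 0) .nil) .nil)))) (.nd (nat_lit 9) 
(.lf (nat_lit 515420) (.g (nat_lit 2875) (.e (nat_lit 188451) (nat_lit 23) (.e (nat_lit 204882) (nat_lit 32) (.e (nat_lit 385094) (nat_lit 49) (.e (nat_lit 778318) (nat_lit 3) (.e (nat_lit 57476) (nat_lit 28) .nil))))) (.g (nat_lit 0) (.e (nat_lit 210762) (nat_lit 0) .nil) .nil))) 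
(.lf (nat_lit 515932) (.g (nat_lit 1252) (.e (nat_lit 196653) (nat_lit 11) (.e (nat_lit 16473) (nat_lit 14) (.e (nat_lit 491526) (nat_lit 0) .nil))) (.g (nat_lit 0) (.e (nat_lit 213762) (nat_lit 0) .nil) .nil))))) (.nd (nat_lit 8) (.nd (nat_lit 9) 
(.lf (nat_lit 515292) (.g (nat_lit 2541) (.e (nat_lit 188446) (nat_lit 21) (.e (nat_lit 164347) (nat_lit 240) (.e (nat_lit 2619) (nat_lit 164) (.e (nat_lit 172118) (nat_lit 12) (.e (nat_lit 475198) (nat_lit 40) (.e (nat_lit 704598) (nat_lit 6) .nil)))))) (.g (nat_lit 1) (.e (nat_lit 210180) (nat_lit 0) .nil) .nil))) 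
(.lf (nat_lit 515804) (.g (nat_lit 2781) (.e (nat_lit 196626) (nat_lit 9) (.e (nat_lit 1400) (nat_lit 106) (.e (nat_lit 319533) (nat_lit 16) (.e (nat_lit 286733) (nat_lit 2) (.e (nat_lit 90186) (nat_lit 17) .nil))))) (.g (nat_lit 0) (.e (nat_lit 213410) (nat_lit 0) .nil) .nil)))) (.nd (nat_lit 9) 
(.lf (nat_lit 515548) (.g (nat_lit 2667) (.e (nat_lit 188453) (nat_lit 24) (.e (nat_lit 229678) (nat_lit 244) (.e (nat_lit 163919) (nat_lit 14) (.e (nat_lit 442374) (nat_lit 0) (.e (nat_lit 2059) (nat_lit 142) (.e (nat_lit 704599) (nat_lit 6) .nil)))))) (.g (nat_lit 1) (.e (nat_lit 211189) (nat_lit 0) .nil) .nil))) 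
(.lf (nat_lit 516060) (.g (nat_lit 2926) (.e (nat_lit 196654) (nat_lit 11) (.e (nat_lit 16438) (nat_lit 9) (.e (nat_lit 426482) (nat_lit 27) (.e (nat_lit 336389) (nat_lit 27) (.e (nat_lit 426105) (nat_lit 1) .nil))))) (.g (nat_lit 0) (.e (nat_lit 214079) (nat_lit 0) .nil) .nil))))))) (.nd (nat_lit 6) (.nd (nat_lit 7) (.nd (nat_lit 8) (.nd (nat_lit 9) 
(.lf (nat_lit 515132) (.g (nat_lit 2436) (.e (nat_lit 188440) (nat_lit 20) (.e (nat_lit 3469) (nat_lit 217) (.e (nat_lit 696344) (nat_lit 8) (.e (nat_lit 172106) (nat_lit 10) (.e (nat_lit 434285) (nat_lit 42) (.e (nat_lit 696064) (nat_lit 10) .nil)))))) (.g (nat_lit 1) (.e (nat_lit 209309) (nat_lit 0) .nil) .nil))) 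
(.lf (nat_lit 515644) (.g (nat_lit 1504) (.e (nat_lit 188455) (nat_lit 24) (.e (nat_lit 229665) (nat_lit 240) (.e (nat_lit 2651) (nat_lit 166) (.e (nat_lit 188416) (nat_lit 0) .nil)))) (.g (nat_lit 0) (.e (nat_lit 211500) (nat_lit 0) .nil) .nil)))) (.nd (nat_lit 9) 
(.lf (nat_lit 515388) (.g (nat_lit 2661) (.e (nat_lit 188451) (nat_lit 23) (.e (nat_lit 204845) (nat_lit 24) (.e (nat_lit 319529) (nat_lit 16) (.e (nat_lit 286733) (nat_lit 2) (.e (nat_lit 90178) (nat_lit 15) .nil))))) (.g (nat_lit 1) (.e (nat_lit 210692) (nat_lit 0) .nil) .nil))) 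
(.lf (nat_lit 515900) (.g (nat_lit 1768) (.e (nat_lit 196653) (nat_lit 11) (.e (nat_lit 16463) (nat_lit 13) (.e (nat_lit 483337) (nat_lit 9) (.e (nat_lit 426098) (nat_lit 1) (.e (nat_lit 164327) (nat_lit 230) .nil))))) (.g (nat_lit 0) (.e (nat_lit 213728) (nat_lit 0) .nil) .nil))))) (.nd (nat_lit 8) (.nd (nat_lit 9) 
(.lf (nat_lit 515260) (.g (nat_lit 2028) (.e (nat_lit 188444) (nat_lit 21) (.e (nat_lit 164348) (nat_lit 240) (.e (nat_lit 2619) (nat_lit 164) (.e (nat_lit 172097) (nat_lit 9) (.e (nat_lit 426025) (nat_lit 0) (.e (nat_lit 3399) (nat_lit 211) (.e (nat_lit 647185) (nat_lit 6) .nil))))))) (.g (nat_lit 1) (.e (nat_lit 209814) (nat_lit 0) .nil) .nil))) 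
(.lf (nat_lit 515772) (.g (nat_lit 1610) (.e (nat_lit 196624) (nat_lit 9) (.e (nat_lit 1277) (nat_lit 94) (.e (nat_lit 114719) (nat_lit 23) (.e (nat_lit 98366) (nat_lit 27) (.e (nat_lit 434232) (nat_lit 23) .nil))))) (.g (nat_lit 0) (.e (nat_lit 213361) (nat_lit 0) .nil) .nil)))) (.nd (nat_lit 9) 
(.lf (nat_lit 515516) (.g (nat_lit 3358) (.e (nat_lit 188453) (nat_lit 24) (.e (nat_lit 229666) (nat_lit 240) (.e (nat_lit 2630) (nat_lit 164) (.e (nat_lit 172106) (nat_lit 10) (.e (nat_lit 434272) (nat_lit 38) (.e (nat_lit 655380) (nat_lit 6) .nil)))))) (.g (nat_lit 1) (.e (nat_lit 211135) (nat_lit 0) .nil) .nil))) 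
(.lf (nat_lit 516028) (.g (nat_lit 1538) (.e (nat_lit 196654) (nat_lit 11) (.e (nat_lit 16436) (nat_lit 9) (.e (nat_lit 426438) (nat_lit 18) (.e (nat_lit 106240) (nat_lit 1) .nil)))) (.g (nat_lit 0) (.e (nat_lit 214036) (nat_lit 0) .nil) .nil)))))) (.nd (nat_lit 7) (.nd (nat_lit 8) (.nd (nat_lit 9) 
(.lf (nat_lit 515196) (.g (nat_lit 2936) (.e (nat_lit 188441) (nat_lit 20) (.e (nat_lit 3409) (nat_lit 212) (.e (nat_lit 655380) (nat_lit 6) (.e (nat_lit 188444) (nat_lit 21) (.e (nat_lit 164347) (nat_lit 240) (.e (nat_lit 2648) (nat_lit 166) .nil)))))) (.g (nat_lit 1) (.e (nat_lit 209489) (nat_lit 0) .nil) .nil))) 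
(.lf (nat_lit 515708) (.g (nat_lit 702) (.e (nat_lit 204544) (nat_lit 2) (.e (nat_lit 24657) (nat_lit 13) (.e (nat_lit 401152) (nat_lit 16) (.e (nat_lit 401443) (nat_lit 9) (.e (nat_lit 426122) (nat_lit 2) .nil))))) (.g (nat_lit 0) (.e (nat_lit 212584) (nat_lit 0) .nil) .nil)))) (.nd (nat_lit 9) 
(.lf (nat_lit 515452) (.g (nat_lit 2865) (.e (nat_lit 188452) (nat_lit 23) (.e (nat_lit 204849) (nat_lit 25) (.e (nat_lit 327717) (nat_lit 17) (.e (nat_lit 294928) (nat_lit 2) (.e (nat_lit 90176) (nat_lit 15) .nil))))) (.g (nat_lit 1) (.e (nat_lit 210896) (nat_lit 0) .nil) .nil))) 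
(.lf (nat_lit 515964) (.g (nat_lit 1215) (.e (nat_lit 196654) (nat_lit 11) (.e (nat_lit 16416) (nat_lit 3) (.e (nat_lit 204836) (nat_lit 20) .nil))) (.g (nat_lit 0) (.e (nat_lit 213921) (nat_lit 0) .nil) .nil))))) (.nd (nat_lit 8) (.nd (nat_lit 9) 
(.lf (nat_lit 515324) (.g (nat_lit 829) (.e (nat_lit 188450) (nat_lit 23) (.e (nat_lit 204829) (nat_lit 18) (.e (nat_lit 57777) (nat_lit 233) .nil))) (.g (nat_lit 0) (.e (nat_lit 210478) (nat_lit 0) .nil) .nil))) 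
(.lf (nat_lit 515836) (.g (nat_lit 1259) (.e (nat_lit 196630) (nat_lit 9) (.e (nat_lit 1393) (nat_lit 106) (.e (nat_lit 319530) (nat_lit 16) (.e (nat_lit 286722) (nat_lit 0) (.e (nat_lit 1691) (nat_lit 117) .nil))))) (.g (nat_lit 0) (.e (nat_lit 213509) (nat_lit 0) .nil) .nil)))) (.nd (nat_lit 9) 
(.lf (nat_lit 515580) (.g (nat_lit 2578) (.e (nat_lit 188454) (nat_lit 24) (.e (nat_lit 229663) (nat_lit 240) (.e (nat_lit 2630) (nat_lit 164) (.e (nat_lit 172113) (nat_lit 10) (.e (nat_lit 434272) (nat_lit 38) (.e (nat_lit 655380) (nat_lit 6) .nil)))))) (.g (nat_lit 1) (.e (nat_lit 211322) (nat_lit 0) .nil) .nil))) 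
(.lf (nat_lit 516092) (.g (nat_lit 3134) (.e (nat_lit 196654) (nat_lit 11) (.e (nat_lit 16463) (nat_lit 13) (.e (nat_lit 483341) (nat_lit 9) (.e (nat_lit 426098) (nat_lit 1) (.e (nat_lit 164331) (nat_lit 230) (.e (nat_lit 163866) (nat_lit 2) .nil)))))) (.g (nat_lit 1) (.e (nat_lit 214215) (nat_lit 0) .nil) .nil))))))))))) 
(.nd (nat_lit 2) (.nd (nat_lit 3) (.nd (nat_lit 4) (.nd (nat_lit 5) (.nd (nat_lit 6) 
(.nd (nat_lit 7) (.nd (nat_lit 8) (.nd (nat_lit 9) 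
(.lf (nat_lit 515074) (.g (nat_lit 2556) (.e (nat_lit 188440) (nat_lit 20) (.e (nat_lit 3307) (nat_lit 202) (.e (nat_lit 573475) (nat_lit 12) (.e (nat_lit 57574) (nat_lit 55) (.e (nat_lit 778464) (nat_lit 11) .nil))))) (.g (nat_lit 0) (.e (nat_lit 209029) (nat_lit 0) .nil) .nil))) 
(.lf (nat_lit 515586) (.g (nat_lit 530) (.e (nat_lit 188454) (nat_lit 24) (.e (nat_lit 229663) (nat_lit 240) (.e (nat_lit 2653) (nat_lit 166) .nil))) (.g (nat_lit 0) (.e (nat_lit 211332) (nat_lit 0) .nil) .nil)))) (.nd (nat_lit 9) 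
(.lf (nat_lit 515330) (.g (nat_lit 584) (.e (nat_lit 188450) (nat_lit 23) (.e (nat_lit 204845) (nat_lit 24) (.e (nat_lit 319532) (nat_lit 16) .nil))) (.g (nat_lit 0) (.e (nat_lit 210506) (nat_lit 0) .nil) .nil))) 
(.lf (nat_lit 515842) (.g (nat_lit 832) (.e (nat_lit 196630) (nat_lit 9) (.e (nat_lit 1563) (nat_lit 110) (.e (nat_lit 352321) (nat_lit 25) (.e (nat_lit 139285) (nat_lit 9) .nil)))) (.g (nat_lit 0) (.e (nat_lit 213515) (nat_lit 0) .nil) .nil))))) (.nd (nat_lit 8) (.nd (nat_lit 9) 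
(.lf (nat_lit 515202) (.g (nat_lit 2730) (.e (nat_lit 188441) (nat_lit 20) (.e (nat_lit 3409) (nat_lit 212) (.e (nat_lit 655380) (nat_lit 6) (.e (nat_lit 188455) (nat_lit 24) (.e (nat_lit 229665) (nat_lit 240) (.e (nat_lit 2653) (nat_lit 166) .nil)))))) (.g (nat_lit 1) (.e (nat_lit 209495) (nat_lit 0) .nil) .nil))) 
(.lf (nat_lit 515714) (.g (nat_lit 446) (.e (nat_lit 204544) (nat_lit 3) (.e (nat_lit 163843) (nat_lit 0) (.e (nat_lit 6420) (nat_lit 341) .nil))) (.g (nat_lit 0) (.e (nat_lit 212623) (nat_lit 0) .nil) .nil)))) (.nd (nat_lit 9) 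
(.lf (nat_lit 515458) (.g (nat_lit 653) (.e (nat_lit 188452) (nat_lit 23) (.e (nat_lit 204882) (nat_lit 32) (.e (nat_lit 385100) (nat_lit 49) .nil))) (.g (nat_lit 0) (.e (nat_lit 210952) (nat_lit 0) .nil) .nil))) 
(.lf (nat_lit 515970) (.g (nat_lit 4259) (.e (nat_lit 196654) (nat_lit 11) (.e (nat_lit 16416) (nat_lit 3) (.e (nat_lit 204837) (nat_lit 20) (.e (nat_lit 114718) (nat_lit 23) (.e (nat_lit 98334) (nat_lit 18) (.e (nat_lit 164330) (nat_lit 230) (.e (nat_lit 163867) (nat_lit 2) .nil))))))) (.g (nat_lit 1) (.e (nat_lit 213933) (nat_lit 0) .nil) .nil)))))) 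
(.nd (nat_lit 7) (.nd (nat_lit 8) (.nd (nat_lit 9) 
(.lf (nat_lit 515138) (.g (nat_lit 3117) (.e (nat_lit 188440) (nat_lit 20) (.e (nat_lit 3469) (nat_lit 217) (.e (nat_lit 696344) (nat_lit 8) (.e (nat_lit 172113) (nat_lit 10) (.e (nat_lit 434203) (nat_lit 18) (.e (nat_lit 6250) (nat_lit 337) (.e (nat_lit 7936) (nat_lit 166) .nil))))))) (.g (nat_lit 1) (.e (nat_lit 209315) (nat_lit 0) .nil) .nil))) 
(.lf (nat_lit 515650) (.g (nat_lit 1031) (.e (nat_lit 188455) (nat_lit 24) (.e (nat_lit 229665) (nat_lit 240) (.e (nat_lit 2725) (nat_lit 172) (.e (nat_lit 237619) (nat_lit 12) (.e (nat_lit 475197) (nat_lit 40) .nil))))) (.g (nat_lit 0) (.e (nat_lit 211526) (nat_lit 0) .nil) .nil)))) (.nd (nat_lit 9) 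
(.lf (nat_lit 515394) (.g (nat_lit 2048) (.e (nat_lit 188451) (nat_lit 23) (.e (nat_lit 204846) (nat_lit 24) (.e (nat_lit 319504) (nat_lit 10) (.e (nat_lit 5393) (nat_lit 301) .nil)))) (.g (nat_lit 0) (.e (nat_lit 210701) (nat_lit 0) .nil) .nil))) 
(.lf (nat_lit 515906) (.g (nat_lit 2483) (.e (nat_lit 196653) (nat_lit 11) (.e (nat_lit 16463) (nat_lit 13) (.e (nat_lit 483341) (nat_lit 9) (.e (nat_lit 426053) (nat_lit 0) .nil)))) (.g (nat_lit 0) (.e (nat_lit 213734) (nat_lit 0) .nil) .nil))))) (.nd (nat_lit 8) (.nd (nat_lit 9) 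
(.lf (nat_lit 515266) (.g (nat_lit 2474) (.e (nat_lit 188444) (nat_lit 21) (.e (nat_lit 164348) (nat_lit 240) (.e (nat_lit 2648) (nat_lit 166) (.e (nat_lit 188418) (nat_lit 0) (.e (nat_lit 2058) (nat_lit 142) (.e (nat_lit 704598) (nat_lit 6) .nil)))))) (.g (nat_lit 1) (.e (nat_lit 209828) (nat_lit 0) .nil) .nil))) 
(.lf (nat_lit 515778) (.g (nat_lit 2627) (.e (nat_lit 196626) (nat_lit 9) (.e (nat_lit 1183) (nat_lit 87) (.e (nat_lit 57931) (nat_lit 282) (.e (nat_lit 163874) (nat_lit 3) (.e (nat_lit 204862) (nat_lit 27) .nil))))) (.g (nat_lit 0) (.e (nat_lit 213380) (nat_lit 0) .nil) .nil)))) (.nd (nat_lit 9) 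
(.lf (nat_lit 515522) (.g (nat_lit 2706) (.e (nat_lit 188453) (nat_lit 24) (.e (nat_lit 229666) (nat_lit 240) (.e (nat_lit 2651) (nat_lit 166) (.e (nat_lit 188420) (nat_lit 0) (.e (nat_lit 2059) (nat_lit 142) (.e (nat_lit 704598) (nat_lit 6) .nil)))))) (.g (nat_lit 1) (.e (nat_lit 211143) (nat_lit 0) .nil) .nil))) 
(.lf (nat_lit 516034) (.g (nat_lit 2458) (.e (nat_lit 196654) (nat_lit 11) (.e (nat_lit 16436) (nat_lit 9) (.e (nat_lit 426482) (nat_lit 27) (.e (nat_lit 336385) (nat_lit 27) (.e (nat_lit 426098) (nat_lit 1) .nil))))) (.g (nat_lit 0) (.e (nat_lit 214042) (nat_lit 0) .nil) .nil))))))) (.nd (nat_lit 6) (.nd (nat_lit 7) (.nd (nat_lit 8) (.nd (nat_lit 9) 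
(.lf (nat_lit 515106) (.g (nat_lit 1441) (.e (nat_lit 188440) (nat_lit 20) (.e (nat_lit 3408) (nat_lit 212) (.e (nat_lit 655380) (nat_lit 6) (.e (nat_lit 188441) (nat_lit 20) (.e (nat_lit 3406) (nat_lit 212) (.e (nat_lit 655380) (nat_lit 6) .nil)))))) (.g (nat_lit 1) (.e (nat_lit 209144) (nat_lit 0) .nil) .nil))) 
(.lf (nat_lit 515618) (.g (nat_lit 3210) (.e (nat_lit 188455) (nat_lit 24) (.e (nat_lit 229663) (nat_lit 240) (.e (nat_lit 2620) (nat_lit 164) (.e (nat_lit 172120) (nat_lit 12) (.e (nat_lit 475197) (nat_lit 40) (.e (nat_lit 704598) (nat_lit 6) .nil)))))) (.g (nat_lit 1) (.e (nat_lit 211407) (nat_lit 0) .nil) .nil)))) (.nd (nat_lit 9) 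
(.lf (nat_lit 515362) (.g (nat_lit 2132) (.e (nat_lit 188450) (nat_lit 23) (.e (nat_lit 204863) (nat_lit 27) (.e (nat_lit 344169) (nat_lit 40) (.e (nat_lit 671751) (nat_lit 0) .nil)))) (.g (nat_lit 0) (.e (nat_lit 210612) (nat_lit 0) .nil) .nil))) 
(.lf (nat_lit 515874) (.g (nat_lit 2345) (.e (nat_lit 196652) (nat_lit 11) (.e (nat_lit 16438) (nat_lit 9) (.e (nat_lit 426482) (nat_lit 27) (.e (nat_lit 336385) (nat_lit 27) (.e (nat_lit 426107) (nat_lit 1) .nil))))) (.g (nat_lit 0) (.e (nat_lit 213610) (nat_lit 0) .nil) .nil))))) (.nd (nat_lit 8) (.nd (nat_lit 9) 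
(.lf (nat_lit 515234) (.g (nat_lit 2431) (.e (nat_lit 188441) (nat_lit 20) (.e (nat_lit 3469) (nat_lit 217) (.e (nat_lit 696344) (nat_lit 8) (.e (nat_lit 172115) (nat_lit 10) (.e (nat_lit 434202) (nat_lit 18) (.e (nat_lit 6254) (nat_lit 337) (.e (nat_lit 7936) (nat_lit 166) .nil))))))) (.g (nat_lit 1) (.e (nat_lit 209611) (nat_lit 0) .nil) .nil))) 
(.lf (nat_lit 515746) (.g (nat_lit 2326) (.e (nat_lit 196617) (nat_lit 9) (.e (nat_lit 1181) (nat_lit 87) (.e (nat_lit 57931) (nat_lit 282) (.e (nat_lit 163867) (nat_lit 2) (.e (nat_lit 196670) (nat_lit 14) .nil))))) (.g (nat_lit 0) (.e (nat_lit 213211) (nat_lit 0) .nil) .nil)))) (.nd (nat_lit 9) 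
(.lf (nat_lit 515490) (.g (nat_lit 3522) (.e (nat_lit 188453) (nat_lit 24) (.e (nat_lit 229663) (nat_lit 240) (.e (nat_lit 2651) (nat_lit 166) (.e (nat_lit 188420) (nat_lit 0) (.e (nat_lit 2059) (nat_lit 142) (.e (nat_lit 704599) (nat_lit 6) .nil)))))) (.g (nat_lit 1) (.e (nat_lit 211047) (nat_lit 0) .nil) .nil))) 
(.lf (nat_lit 516002) (.g (nat_lit 1847) (.e (nat_lit 196654) (nat_lit 11) (.e (nat_lit 16436) (nat_lit 9) (.e (nat_lit 426130) (nat_lit 3) (.e (nat_lit 204880) (nat_lit 32) (.e (nat_lit 385109) (nat_lit 51) .nil))))) (.g (nat_lit 0) (.e (nat_lit 214000) (nat_lit 0) .nil) .nil)))))) (.nd (nat_lit 7) (.nd (nat_lit 8) (.nd (nat_lit 9) 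
(.lf (nat_lit 515170) (.g (nat_lit 655) (.e (nat_lit 188441) (nat_lit 20) (.e (nat_lit 3289) (nat_lit 201) (.e (nat_lit 565269) (nat_lit 6) (.e (nat_lit 81942) (nat_lit 20) (.e (nat_lit 2389) (nat_lit 156) .nil))))) (.g (nat_lit 0) (.e (nat_lit 209376) (nat_lit 0) .nil) .nil))) 
(.lf (nat_lit 515682) (.g (nat_lit 1579) (.e (nat_lit 188455) (nat_lit 24) (.e (nat_lit 229680) (nat_lit 244) (.e (nat_lit 163915) (nat_lit 12) (.e (nat_lit 426187) (nat_lit 9) (.e (nat_lit 426444) (nat_lit 19) (.e (nat_lit 114432) (nat_lit 6) .nil)))))) (.g (nat_lit 1) (.e (nat_lit 211676) (nat_lit 0) .nil) .nil)))) (.nd (nat_lit 9) 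
(.lf (nat_lit 515426) (.g (nat_lit 3840) (.e (nat_lit 188452) (nat_lit 23) (.e (nat_lit 204821) (nat_lit 17) (.e (nat_lit 6680) (nat_lit 357) (.e (nat_lit 3067) (nat_lit 190) (.e (nat_lit 475184) (nat_lit 29) (.e (nat_lit 557109) (nat_lit 15) .nil)))))) (.g (nat_lit 1) (.e (nat_lit 210813) (nat_lit 0) .nil) .nil))) 
(.lf (nat_lit 515938) (.g (nat_lit 1293) (.e (nat_lit 196654) (nat_lit 11) (.e (nat_lit 16412) (nat_lit 2) (.e (nat_lit 196654) (nat_lit 11) (.e (nat_lit 16409) (nat_lit 2) .nil)))) (.g (nat_lit 0) (.e (nat_lit 213822) (nat_lit 0) .nil) .nil))))) (.nd (nat_lit 8) (.nd (nat_lit 9) 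
(.lf (nat_lit 515298) (.g (nat_lit 3108) (.e (nat_lit 188446) (nat_lit 21) (.e (nat_lit 164347) (nat_lit 240) (.e (nat_lit 2650) (nat_lit 166) (.e (nat_lit 188441) (nat_lit 20) (.e (nat_lit 3409) (nat_lit 212) (.e (nat_lit 655380) (nat_lit 6) .nil)))))) (.g (nat_lit 1) (.e (nat_lit 210213) (nat_lit 0) .nil) .nil))) 
(.lf (nat_lit 515810) (.g (nat_lit 2907) (.e (nat_lit 196626) (nat_lit 9) (.e (nat_lit 1400) (nat_lit 106) (.e (nat_lit 319533) (nat_lit 16) (.e (nat_lit 286735) (nat_lit 3) (.e (nat_lit 106240) (nat_lit 31) .nil))))) (.g (nat_lit 0) (.e (nat_lit 213416) (nat_lit 0) .nil) .nil)))) (.nd (nat_lit 9) 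
(.lf (nat_lit 515554) (.g (nat_lit 2055) (.e (nat_lit 188453) (nat_lit 24) (.e (nat_lit 229680) (nat_lit 244) (.e (nat_lit 163905) (nat_lit 12) (.e (nat_lit 426320) (nat_lit 12) (.e (nat_lit 475199) (nat_lit 40) .nil))))) (.g (nat_lit 0) (.e (nat_lit 211248) (nat_lit 0) .nil) .nil))) 
(.lf (nat_lit 516066) (.g (nat_lit 2094) (.e (nat_lit 196654) (nat_lit 11) (.e (nat_lit 16438) (nat_lit 9) (.e (nat_lit 426482) (nat_lit 27) (.e (nat_lit 336410) (nat_lit 27) (.e (nat_lit 426110) (nat_lit 1) .nil))))) (.g (nat_lit 0) (.e (nat_lit 214086) (nat_lit 0) .nil) .nil)))))))) (.nd (nat_lit 5) (.nd (nat_lit 6) (.nd (nat_lit 7) (.nd (nat_lit 8) (.nd (nat_lit 9) 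
(.lf (nat_lit 515090) (.g (nat_lit 2033) (.e (nat_lit 188440) (nat_lit 20) (.e (nat_lit 3390) (nat_lit 210) (.e (nat_lit 639004) (nat_lit 13) (.e (nat_lit 1615) (nat_lit 113) (.e (nat_lit 376860) (nat_lit 21) (.e (nat_lit 57830) (nat_lit 250) (.e (nat_lit 7936) (nat_lit 166) .nil))))))) (.g (nat_lit 1) (.e (nat_lit 209056) (nat_lit 0) .nil) .nil))) 
(.lf (nat_lit 515602) (.g (nat_lit 1024) (.e (nat_lit 188454) (nat_lit 24) (.e (nat_lit 229665) (nat_lit 240) (.e (nat_lit 2653) (nat_lit 166) (.e (nat_lit 188440) (nat_lit 20) .nil)))) (.g (nat_lit 0) (.e (nat_lit 211356) (nat_lit 0) .nil) .nil)))) (.nd (nat_lit 9) 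
(.lf (nat_lit 515346) (.g (nat_lit 3626) (.e (nat_lit 188450) (nat_lit 23) (.e (nat_lit 204846) (nat_lit 24) (.e (nat_lit 319531) (nat_lit 16) (.e (nat_lit 286732) (nat_lit 2) (.e (nat_lit 90176) (nat_lit 15) .nil))))) (.g (nat_lit 1) (.e (nat_lit 210540) (nat_lit 0) .nil) .nil))) 
(.lf (nat_lit 515858) (.g (nat_lit 1692) (.e (nat_lit 196635) (nat_lit 9) (.e (nat_lit 394) (nat_lit 32) (.e (nat_lit 426188) (nat_lit 9) (.e (nat_lit 426566) (nat_lit 34) (.e (nat_lit 393253) (nat_lit 18) .nil))))) (.g (nat_lit 0) (.e (nat_lit 213551) (nat_lit 0) .nil) .nil))))) (.nd (nat_lit 8) (.nd (nat_lit 9) 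
(.lf (nat_lit 515218) (.g (nat_lit 2832) (.e (nat_lit 188441) (nat_lit 20) (.e (nat_lit 3469) (nat_lit 217) (.e (nat_lit 696344) (nat_lit 8) (.e (nat_lit 172113) (nat_lit 10) (.e (nat_lit 434203) (nat_lit 18) (.e (nat_lit 6254) (nat_lit 337) (.e (nat_lit 7936) (nat_lit 166) .nil))))))) (.g (nat_lit 1) (.e (nat_lit 209595) (nat_lit 0) .nil) .nil))) 
(.lf (nat_lit 515730) (.g (nat_lit 1060) (.e (nat_lit 204544) (nat_lit 6) (.e (nat_lit 188439) (nat_lit 20) (.e (nat_lit 3579) (nat_lit 223) (.e (nat_lit 745475) (nat_lit 0) (.e (nat_lit 1572) (nat_lit 110) .nil))))) (.g (nat_lit 0) (.e (nat_lit 212965) (nat_lit 0) .nil) .nil)))) (.nd (nat_lit 9) 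
(.lf (nat_lit 515474) (.g (nat_lit 1738) (.e (nat_lit 196352) (nat_lit 23) (.e (nat_lit 204846) (nat_lit 24) (.e (nat_lit 319531) (nat_lit 16) (.e (nat_lit 286733) (nat_lit 2) .nil)))) (.g (nat_lit 0) (.e (nat_lit 211011) (nat_lit 0) .nil) .nil))) 
(.lf (nat_lit 515986) (.g (nat_lit 436) (.e (nat_lit 196654) (nat_lit 11) (.e (nat_lit 16433) (nat_lit 9) (.e (nat_lit 426568) (nat_lit 34) .nil))) (.g (nat_lit 0) (.e (nat_lit 213976) (nat_lit 0) .nil) .nil)))))) (.nd (nat_lit 7) (.nd (nat_lit 8) (.nd (nat_lit 9) 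
(.lf (nat_lit 515154) (.g (nat_lit 2463) (.e (nat_lit 188440) (nat_lit 20) (.e (nat_lit 3469) (nat_lit 217) (.e (nat_lit 696344) (nat_lit 8) (.e (nat_lit 172116) (nat_lit 10) (.e (nat_lit 434286) (nat_lit 42) (.e (nat_lit 696064) (nat_lit 10) .nil)))))) (.g (nat_lit 1) (.e (nat_lit 209331) (nat_lit 0) .nil) .nil))) 
(.lf (nat_lit 515666) (.g (nat_lit 1239) (.e (nat_lit 188455) (nat_lit 24) (.e (nat_lit 229678) (nat_lit 244) (.e (nat_lit 163908) (nat_lit 12) (.e (nat_lit 426286) (nat_lit 10) .nil)))) (.g (nat_lit 0) (.e (nat_lit 211590) (nat_lit 0) .nil) .nil)))) (.nd (nat_lit 9) 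
(.lf (nat_lit 515410) (.g (nat_lit 3526) (.e (nat_lit 188451) (nat_lit 23) (.e (nat_lit 204846) (nat_lit 24) (.e (nat_lit 319535) (nat_lit 17) (.e (nat_lit 294927) (nat_lit 2) (.e (nat_lit 90178) (nat_lit 15) .nil))))) (.g (nat_lit 1) (.e (nat_lit 210730) (nat_lit 0) .nil) .nil))) 
(.lf (nat_lit 515922) (.g (nat_lit 689) (.e (nat_lit 196653) (nat_lit 11) (.e (nat_lit 16466) (nat_lit 13) (.e (nat_lit 483341) (nat_lit 9) .nil))) (.g (nat_lit 0) (.e (nat_lit 213750) (nat_lit 0) .nil) .nil))))) (.nd (nat_lit 8) (.nd (nat_lit 9) 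
(.lf (nat_lit 515282) (.g (nat_lit 1334) (.e (nat_lit 188446) (nat_lit 21) (.e (nat_lit 164319) (nat_lit 228) (.e (nat_lit 57424) (nat_lit 14) (.e (nat_lit 352289) (nat_lit 20) .nil)))) (.g (nat_lit 0) (.e (nat_lit 210127) (nat_lit 0) .nil) .nil))) 
(.lf (nat_lit 515794) (.g (nat_lit 2337) (.e (nat_lit 196626) (nat_lit 9) (.e (nat_lit 1400) (nat_lit 106) (.e (nat_lit 319532) (nat_lit 16) (.e (nat_lit 286733) (nat_lit 2) (.e (nat_lit 90134) (nat_lit 9) .nil))))) (.g (nat_lit 0) (.e (nat_lit 213400) (nat_lit 0) .nil) .nil)))) (.nd (nat_lit 9) 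
(.lf (nat_lit 515538) (.g (nat_lit 1285) (.e (nat_lit 188453) (nat_lit 24) (.e (nat_lit 229678) (nat_lit 244) (.e (nat_lit 163908) (nat_lit 12) (.e (nat_lit 426286) (nat_lit 10) .nil)))) (.g (nat_lit 0) (.e (nat_lit 211176) (nat_lit 0) .nil) .nil))) 
(.lf (nat_lit 516050) (.g (nat_lit 1406) (.e (nat_lit 196654) (nat_lit 11) (.e (nat_lit 16438) (nat_lit 9) (.e (nat_lit 426131) (nat_lit 3) (.e (nat_lit 204882) (nat_lit 32) .nil)))) (.g (nat_lit 0) (.e (nat_lit 214063) (nat_lit 0) .nil) .nil))))))) (.nd (nat_lit 6) (.nd (nat_lit 7) (.nd (nat_lit 8) (.nd (nat_lit 9) 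
(.lf (nat_lit 515122) (.g (nat_lit 1574) (.e (nat_lit 188440) (nat_lit 20) (.e (nat_lit 3468) (nat_lit 217) (.e (nat_lit 696343) (nat_lit 8) (.e (nat_lit 172113) (nat_lit 10) (.e (nat_lit 434287) (nat_lit 43) .nil))))) (.g (nat_lit 0) (.e (nat_lit 209224) (nat_lit 0) .nil) .nil))) 
(.lf (nat_lit 515634) (.g (nat_lit 281) (.e (nat_lit 188455) (nat_lit 24) (.e (nat_lit 229664) (nat_lit 240) (.e (nat_lit 2651) (nat_lit 166) .nil))) (.g (nat_lit 0) (.e (nat_lit 211477) (nat_lit 0) .nil) .nil)))) (.nd (nat_lit 9) 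
(.lf (nat_lit 515378) (.g (nat_lit 4210) (.e (nat_lit 188450) (nat_lit 23) (.e (nat_lit 204885) (nat_lit 33) (.e (nat_lit 401451) (nat_lit 12) (.e (nat_lit 475184) (nat_lit 29) (.e (nat_lit 557109) (nat_lit 15) .nil))))) (.g (nat_lit 1) (.e (nat_lit 210668) (nat_lit 0) .nil) .nil))) 
(.lf (nat_lit 515890) (.g (nat_lit 2321) (.e (nat_lit 196653) (nat_lit 11) (.e (nat_lit 16434) (nat_lit 9) (.e (nat_lit 426566) (nat_lit 34) (.e (nat_lit 393253) (nat_lit 18) (.e (nat_lit 164329) (nat_lit 230) .nil))))) (.g (nat_lit 0) (.e (nat_lit 213679) (nat_lit 0) .nil) .nil))))) (.nd (nat_lit 8) (.nd (nat_lit 9) 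
(.lf (nat_lit 515250) (.g (nat_lit 2789) (.e (nat_lit 188444) (nat_lit 21) (.e (nat_lit 164347) (nat_lit 240) (.e (nat_lit 2619) (nat_lit 164) (.e (nat_lit 172120) (nat_lit 12) (.e (nat_lit 475197) (nat_lit 40) (.e (nat_lit 704598) (nat_lit 6) .nil)))))) (.g (nat_lit 1) (.e (nat_lit 209762) (nat_lit 0) .nil) .nil))) 
(.lf (nat_lit 515762) (.g (nat_lit 2546) (.e (nat_lit 196624) (nat_lit 9) (.e (nat_lit 375) (nat_lit 32) (.e (nat_lit 426125) (nat_lit 2) (.e (nat_lit 196656) (nat_lit 11) .nil)))) (.g (nat_lit 0) (.e (nat_lit 213279) (nat_lit 0) .nil) .nil)))) (.nd (nat_lit 9) 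
(.lf (nat_lit 515506) (.g (nat_lit 1495) (.e (nat_lit 188453) (nat_lit 24) (.e (nat_lit 229665) (nat_lit 240) (.e (nat_lit 2651) (nat_lit 166) (.e (nat_lit 188435) (nat_lit 20) .nil)))) (.g (nat_lit 0) (.e (nat_lit 211102) (nat_lit 0) .nil) .nil))) 
(.lf (nat_lit 516018) (.g (nat_lit 3410) (.e (nat_lit 196654) (nat_lit 11) (.e (nat_lit 16436) (nat_lit 9) (.e (nat_lit 426131) (nat_lit 3) (.e (nat_lit 204880) (nat_lit 32) (.e (nat_lit 385094) (nat_lit 49) (.e (nat_lit 778441) (nat_lit 9) (.e (nat_lit 2663) (nat_lit 167) .nil))))))) (.g (nat_lit 1) (.e (nat_lit 214020) (nat_lit 0) .nil) .nil)))))) 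
(.nd (nat_lit 7) (.nd (nat_lit 8) (.nd (nat_lit 9) 
(.lf (nat_lit 515186) (.g (nat_lit 2542) (.e (nat_lit 188441) (nat_lit 20) (.e (nat_lit 3408) (nat_lit 212) (.e (nat_lit 655380) (nat_lit 6) (.e (nat_lit 188455) (nat_lit 24) (.e (nat_lit 229665) (nat_lit 240) (.e (nat_lit 2653) (nat_lit 166) .nil)))))) (.g (nat_lit 1) (.e (nat_lit 209455) (nat_lit 0) .nil) .nil))) 
(.lf (nat_lit 515698) (.g (nat_lit 1804) (.e (nat_lit 188455) (nat_lit 24) (.e (nat_lit 229708) (nat_lit 256) (.e (nat_lit 57400) (nat_lit 10) (.e (nat_lit 319533) (nat_lit 16) (.e (nat_lit 286725) (nat_lit 0) .nil))))) (.g (nat_lit 0) (.e (nat_lit 211744) (nat_lit 0) .nil) .nil)))) (.nd (nat_lit 9) 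
(.lf (nat_lit 515442) (.g (nat_lit 731) (.e (nat_lit 188452) (nat_lit 23) (.e (nat_lit 204846) (nat_lit 24) (.e (nat_lit 319500) (nat_lit 10) .nil))) (.g (nat_lit 0) (.e (nat_lit 210853) (nat_lit 0) .nil) .nil))) 
(.lf (nat_lit 515954) (.g (nat_lit 2805) (.e (nat_lit 196654) (nat_lit 11) (.e (nat_lit 16416) (nat_lit 3) (.e (nat_lit 204813) (nat_lit 9) (.e (nat_lit 426122) (nat_lit 2) (.e (nat_lit 196654) (nat_lit 11) (.e (nat_lit 16410) (nat_lit 2) .nil)))))) (.g (nat_lit 1) (.e (nat_lit 213908) (nat_lit 0) .nil) .nil))))) (.nd (nat_lit 8) (.nd (nat_lit 9) 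
(.lf (nat_lit 515314) (.g (nat_lit 584) (.e (nat_lit 188449) (nat_lit 22) (.e (nat_lit 196666) (nat_lit 13) (.e (nat_lit 65640) (nat_lit 15) .nil))) (.g (nat_lit 0) (.e (nat_lit 210424) (nat_lit 0) .nil) .nil))) 
(.lf (nat_lit 515826) (.g (nat_lit 1589) (.e (nat_lit 196628) (nat_lit 9) (.e (nat_lit 397) (nat_lit 32) (.e (nat_lit 426188) (nat_lit 9) (.e (nat_lit 426566) (nat_lit 34) (.e (nat_lit 393253) (nat_lit 18) .nil))))) (.g (nat_lit 0) (.e (nat_lit 213442) (nat_lit 0) .nil) .nil)))) (.nd (nat_lit 9) 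
(.lf (nat_lit 515570) (.g (nat_lit 2801) (.e (nat_lit 188453) (nat_lit 24) (.e (nat_lit 229681) (nat_lit 244) (.e (nat_lit 163919) (nat_lit 14) (.e (nat_lit 442374) (nat_lit 0) (.e (nat_lit 2059) (nat_lit 142) (.e (nat_lit 704598) (nat_lit 6) .nil)))))) (.g (nat_lit 1) (.e (nat_lit 211295) (nat_lit 0) .nil) .nil))) 
(.lf (nat_lit 516082) (.g (nat_lit 1017) (.e (nat_lit 196654) (nat_lit 11) (.e (nat_lit 16463) (nat_lit 13) (.e (nat_lit 483338) (nat_lit 9) (.e (nat_lit 433920) (nat_lit 1) .nil)))) (.g (nat_lit 0) (.e (nat_lit 214200) (nat_lit 0) .nil) .nil))))))))) (.nd (nat_lit 4) (.nd (nat_lit 5) (.nd (nat_lit 6) (.nd (nat_lit 7) (.nd (nat_lit 8) (.nd (nat_lit 9) 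
(.lf (nat_lit 515082) (.g (nat_lit 2407) (.e (nat_lit 188440) (nat_lit 20) (.e (nat_lit 3307) (nat_lit 202) (.e (nat_lit 573478) (nat_lit 12) (.e (nat_lit 57574) (nat_lit 55) (.e (nat_lit 778466) (nat_lit 11) (.e (nat_lit 24603) (nat_lit 2) (.e (nat_lit 90175) (nat_lit 15) .nil))))))) (.g (nat_lit 1) (.e (nat_lit 209037) (nat_lit 0) .nil) .nil))) 
(.lf (nat_lit 515594) (.g (nat_lit 1576) (.e (nat_lit 188454) (nat_lit 24) (.e (nat_lit 229665) (nat_lit 240) (.e (nat_lit 2651) (nat_lit 166) (.e (nat_lit 188420) (nat_lit 0) (.e (nat_lit 2057) (nat_lit 142) .nil))))) (.g (nat_lit 0) (.e (nat_lit 211346) (nat_lit 0) .nil) .nil)))) (.nd (nat_lit 9) 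
(.lf (nat_lit 515338) (.g (nat_lit 986) (.e (nat_lit 188450) (nat_lit 23) (.e (nat_lit 204846) (nat_lit 24) (.e (nat_lit 319513) (nat_lit 10) .nil))) (.g (nat_lit 0) (.e (nat_lit 210524) (nat_lit 0) .nil) .nil))) 
(.lf (nat_lit 515850) (.g (nat_lit 2185) (.e (nat_lit 196630) (nat_lit 9) (.e (nat_lit 1669) (nat_lit 116) (.e (nat_lit 401454) (nat_lit 12) (.e (nat_lit 475183) (nat_lit 29) (.e (nat_lit 557095) (nat_lit 13) .nil))))) (.g (nat_lit 0) (.e (nat_lit 213539) (nat_lit 0) .nil) .nil))))) (.nd (nat_lit 8) (.nd (nat_lit 9) 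
(.lf (nat_lit 515210) (.g (nat_lit 2941) (.e (nat_lit 188441) (nat_lit 20) (.e (nat_lit 3469) (nat_lit 217) (.e (nat_lit 696344) (nat_lit 8) (.e (nat_lit 172106) (nat_lit 10) (.e (nat_lit 434209) (nat_lit 18) (.e (nat_lit 6284) (nat_lit 337) (.e (nat_lit 7936) (nat_lit 166) .nil))))))) (.g (nat_lit 1) (.e (nat_lit 209587) (nat_lit 0) .nil) .nil))) 
(.lf (nat_lit 515722) (.g (nat_lit 722) (.e (nat_lit 204544) (nat_lit 6) (.e (nat_lit 188434) (nat_lit 20) (.e (nat_lit 3578) (nat_lit 223) (.e (nat_lit 745474) (nat_lit 0) .nil)))) (.g (nat_lit 0) (.e (nat_lit 212951) (nat_lit 0) .nil) .nil)))) (.nd (nat_lit 9) 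
(.lf (nat_lit 515466) (.g (nat_lit 4224) (.e (nat_lit 188452) (nat_lit 23) (.e (nat_lit 204885) (nat_lit 33) (.e (nat_lit 401450) (nat_lit 12) (.e (nat_lit 475185) (nat_lit 29) (.e (nat_lit 557108) (nat_lit 15) .nil))))) (.g (nat_lit 1) (.e (nat_lit 210991) (nat_lit 0) .nil) .nil))) 
(.lf (nat_lit 515978) (.g (nat_lit 1157) (.e (nat_lit 196654) (nat_lit 11) (.e (nat_lit 16433) (nat_lit 9) (.e (nat_lit 426478) (nat_lit 27) (.e (nat_lit 336385) (nat_lit 27) .nil)))) (.g (nat_lit 0) (.e (nat_lit 213966) (nat_lit 0) .nil) .nil)))))) (.nd (nat_lit 7) (.nd (nat_lit 8) (.nd (nat_lit 9) 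
(.lf (nat_lit 515146) (.g (nat_lit 2808) (.e (nat_lit 188440) (nat_lit 20) (.e (nat_lit 3469) (nat_lit 217) (.e (nat_lit 696344) (nat_lit 8) (.e (nat_lit 172113) (nat_lit 10) (.e (nat_lit 434208) (nat_lit 18) (.e (nat_lit 6254) (nat_lit 337) (.e (nat_lit 7936) (nat_lit 166) .nil))))))) (.g (nat_lit 1) (.e (nat_lit 209323) (nat_lit 0) .nil) .nil))) 
(.lf (nat_lit 515658) (.g (nat_lit 2473) (.e (nat_lit 188455) (nat_lit 24) (.e (nat_lit 229677) (nat_lit 244) (.e (nat_lit 163903) (nat_lit 12) (.e (nat_lit 426320) (nat_lit 12) (.e (nat_lit 475199) (nat_lit 40) (.e (nat_lit 704598) (nat_lit 6) .nil)))))) (.g (nat_lit 1) (.e (nat_lit 211542) (nat_lit 0) .nil) .nil)))) (.nd (nat_lit 9) 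
(.lf (nat_lit 515402) (.g (nat_lit 1062) (.e (nat_lit 188451) (nat_lit 23) (.e (nat_lit 204846) (nat_lit 24) (.e (nat_lit 319533) (nat_lit 16) (.e (nat_lit 294656) (nat_lit 0) .nil)))) (.g (nat_lit 0) (.e (nat_lit 210716) (nat_lit 0) .nil) .nil))) 
(.lf (nat_lit 515914) (.g (nat_lit 2827) (.e (nat_lit 196653) (nat_lit 11) (.e (nat_lit 16463) (nat_lit 13) (.e (nat_lit 483341) (nat_lit 9) (.e (nat_lit 426108) (nat_lit 1) (.e (nat_lit 164330) (nat_lit 230) .nil))))) (.g (nat_lit 0) (.e (nat_lit 213742) (nat_lit 0) .nil) .nil))))) (.nd (nat_lit 8) (.nd (nat_lit 9) 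
(.lf (nat_lit 515274) (.g (nat_lit 1460) (.e (nat_lit 188445) (nat_lit 21) (.e (nat_lit 164347) (nat_lit 240) (.e (nat_lit 2650) (nat_lit 166) (.e (nat_lit 188435) (nat_lit 20) .nil)))) (.g (nat_lit 0) (.e (nat_lit 209928) (nat_lit 0) .nil) .nil))) 
(.lf (nat_lit 515786) (.g (nat_lit 1891) (.e (nat_lit 196626) (nat_lit 9) (.e (nat_lit 1400) (nat_lit 106) (.e (nat_lit 319529) (nat_lit 16) (.e (nat_lit 286727) (nat_lit 0) (.e (nat_lit 1799) (nat_lit 119) .nil))))) (.g (nat_lit 0) (.e (nat_lit 213392) (nat_lit 0) .nil) .nil)))) (.nd (nat_lit 9) 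
(.lf (nat_lit 515530) (.g (nat_lit 1455) (.e (nat_lit 188453) (nat_lit 24) (.e (nat_lit 229666) (nat_lit 240) (.e (nat_lit 2725) (nat_lit 172) (.e (nat_lit 237601) (nat_lit 9) (.e (nat_lit 426444) (nat_lit 19) (.e (nat_lit 114432) (nat_lit 6) .nil)))))) (.g (nat_lit 1) (.e (nat_lit 211160) (nat_lit 0) .nil) .nil))) 
(.lf (nat_lit 516042) (.g (nat_lit 1521) (.e (nat_lit 196654) (nat_lit 11) (.e (nat_lit 16438) (nat_lit 9) (.e (nat_lit 426131) (nat_lit 3) (.e (nat_lit 204851) (nat_lit 26) .nil)))) (.g (nat_lit 0) (.e (nat_lit 214055) (nat_lit 0) .nil) .nil))))))) (.nd (nat_lit 6) (.nd (nat_lit 7) (.nd (nat_lit 8) (.nd (nat_lit 9) 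
(.lf (nat_lit 515114) (.g (nat_lit 2965) (.e (nat_lit 188440) (nat_lit 20) (.e (nat_lit 3409) (nat_lit 212) (.e (nat_lit 655378) (nat_lit 4) (.e (nat_lit 172120) (nat_lit 12) (.e (nat_lit 475199) (nat_lit 40) (.e (nat_lit 704599) (nat_lit 6) .nil)))))) (.g (nat_lit 1) (.e (nat_lit 209169) (nat_lit 0) .nil) .nil))) 
(.lf (nat_lit 515626) (.g (nat_lit 1944) (.e (nat_lit 188455) (nat_lit 24) (.e (nat_lit 229663) (nat_lit 240) (.e (nat_lit 2651) (nat_lit 166) (.e (nat_lit 188418) (nat_lit 0) (.e (nat_lit 2058) (nat_lit 142) .nil))))) (.g (nat_lit 0) (.e (nat_lit 211437) (nat_lit 0) .nil) .nil)))) (.nd (nat_lit 9) 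
(.lf (nat_lit 515370) (.g (nat_lit 1072) (.e (nat_lit 188450) (nat_lit 23) (.e (nat_lit 204884) (nat_lit 33) (.e (nat_lit 401435) (nat_lit 9) (.e (nat_lit 426402) (nat_lit 15) .nil)))) (.g (nat_lit 0) (.e (nat_lit 210642) (nat_lit 0) .nil) .nil))) 
(.lf (nat_lit 515882) (.g (nat_lit 1915) (.e (nat_lit 196653) (nat_lit 11) (.e (nat_lit 16405) (nat_lit 1) (.e (nat_lit 164398) (nat_lit 256) (.e (nat_lit 57406) (nat_lit 12) (.e (nat_lit 336443) (nat_lit 32) .nil))))) (.g (nat_lit 0) (.e (nat_lit 213642) (nat_lit 0) .nil) .nil))))) (.nd (nat_lit 8) (.nd (nat_lit 9) 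
(.lf (nat_lit 515242) (.g (nat_lit 894) (.e (nat_lit 188444) (nat_lit 21) (.e (nat_lit 164179) (nat_lit 154) (.e (nat_lit 57388) (nat_lit 5) .nil))) (.g (nat_lit 0) (.e (nat_lit 209713) (nat_lit 0) .nil) .nil))) 
(.lf (nat_lit 515754) (.g (nat_lit 1443) (.e (nat_lit 196623) (nat_lit 9) (.e (nat_lit 393) (nat_lit 32) (.e (nat_lit 426188) (nat_lit 9) (.e (nat_lit 426566) (nat_lit 34) (.e (nat_lit 393253) (nat_lit 18) .nil))))) (.g (nat_lit 0) (.e (nat_lit 213255) (nat_lit 0) .nil) .nil)))) (.nd (nat_lit 9) 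
(.lf (nat_lit 515498) (.g (nat_lit 2496) (.e (nat_lit 188453) (nat_lit 24) (.e (nat_lit 229665) (nat_lit 240) (.e (nat_lit 2630) (nat_lit 164) (.e (nat_lit 172113) (nat_lit 10) (.e (nat_lit 434272) (nat_lit 38) (.e (nat_lit 655380) (nat_lit 6) .nil)))))) (.g (nat_lit 1) (.e (nat_lit 211088) (nat_lit 0) .nil) .nil))) 
(.lf (nat_lit 516010) (.g (nat_lit 3077) (.e (nat_lit 196654) (nat_lit 11) (.e (nat_lit 16436) (nat_lit 9) (.e (nat_lit 426131) (nat_lit 3) (.e (nat_lit 204852) (nat_lit 26) (.e (nat_lit 336334) (nat_lit 20) (.e (nat_lit 221212) (nat_lit 22) .nil)))))) (.g (nat_lit 1) (.e (nat_lit 214010) (nat_lit 0) .nil) .nil)))))) (.nd (nat_lit 7) (.nd (nat_lit 8) (.nd (nat_lit 9) 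
(.lf (nat_lit 515178) (.g (nat_lit 2861) (.e (nat_lit 188441) (nat_lit 20) (.e (nat_lit 3406) (nat_lit 212) (.e (nat_lit 655380) (nat_lit 6) (.e (nat_lit 188455) (nat_lit 24) (.e (nat_lit 229663) (nat_lit 240) (.e (nat_lit 2653) (nat_lit 166) .nil)))))) (.g (nat_lit 1) (.e (nat_lit 209411) (nat_lit 0) .nil) .nil))) 
(.lf (nat_lit 515690) (.g (nat_lit 1606) (.e (nat_lit 188455) (nat_lit 24) (.e (nat_lit 229681) (nat_lit 244) (.e (nat_lit 163913) (nat_lit 12) (.e (nat_lit 426228) (nat_lit 9) (.e (nat_lit 426443) (nat_lit 19) (.e (nat_lit 114432) (nat_lit 6) .nil)))))) (.g (nat_lit 1) (.e (nat_lit 211717) (nat_lit 0) .nil) .nil)))) (.nd (nat_lit 9) 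
(.lf (nat_lit 515434) (.g (nat_lit 685) (.e (nat_lit 188452) (nat_lit 23) (.e (nat_lit 204845) (nat_lit 24) (.e (nat_lit 319502) (nat_lit 10) (.e (nat_lit 5745) (nat_lit 313) .nil)))) (.g (nat_lit 0) (.e (nat_lit 210838) (nat_lit 0) .nil) .nil))) 
(.lf (nat_lit 515946) (.g (nat_lit 1816) (.e (nat_lit 196654) (nat_lit 11) (.e (nat_lit 16416) (nat_lit 3) (.e (nat_lit 204809) (nat_lit 9) (.e (nat_lit 426123) (nat_lit 2) (.e (nat_lit 196654) (nat_lit 11) .nil))))) (.g (nat_lit 0) (.e (nat_lit 213887) (nat_lit 0) .nil) .nil))))) (.nd (nat_lit 8) (.nd (nat_lit 9) 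
(.lf (nat_lit 515306) (.g (nat_lit 893) (.e (nat_lit 188448) (nat_lit 22) (.e (nat_lit 196656) (nat_lit 11) (.e (nat_lit 16406) (nat_lit 1) .nil))) (.g (nat_lit 0) (.e (nat_lit 210317) (nat_lit 0) .nil) .nil))) 
(.lf (nat_lit 515818) (.g (nat_lit 3861) (.e (nat_lit 196626) (nat_lit 9) (.e (nat_lit 1400) (nat_lit 106) (.e (nat_lit 319534) (nat_lit 16) (.e (nat_lit 286733) (nat_lit 2) (.e (nat_lit 90134) (nat_lit 9) (.e (nat_lit 3002) (nat_lit 186) (.e (nat_lit 442423) (nat_lit 22) .nil))))))) (.g (nat_lit 1) (.e (nat_lit 213426) (nat_lit 0) .nil) .nil)))) (.nd (nat_lit 9) 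
(.lf (nat_lit 515562) (.g (nat_lit 3411) (.e (nat_lit 188453) (nat_lit 24) (.e (nat_lit 229680) (nat_lit 244) (.e (nat_lit 163919) (nat_lit 14) (.e (nat_lit 442374) (nat_lit 0) (.e (nat_lit 2059) (nat_lit 142) (.e (nat_lit 704598) (nat_lit 6) .nil)))))) (.g (nat_lit 1) (.e (nat_lit 211257) (nat_lit 0) .nil) .nil))) 
(.lf (nat_lit 516074) (.g (nat_lit 1379) (.e (nat_lit 196654) (nat_lit 11) (.e (nat_lit 16456) (nat_lit 12) (.e (nat_lit 475177) (nat_lit 24) (.e (nat_lit 524032) (nat_lit 18) .nil)))) (.g (nat_lit 0) (.e (nat_lit 214167) (nat_lit 0) .nil) .nil)))))))) (.nd (nat_lit 5) (.nd (nat_lit 6) (.nd (nat_lit 7) (.nd (nat_lit 8) (.nd (nat_lit 9) 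
(.lf (nat_lit 515098) (.g (nat_lit 1076) (.e (nat_lit 188440) (nat_lit 20) (.e (nat_lit 3408) (nat_lit 212) (.e (nat_lit 655360) (nat_lit 0) (.e (nat_lit 3044) (nat_lit 189) (.e (nat_lit 474880) (nat_lit 4) (.e (nat_lit 114432) (nat_lit 6) .nil)))))) (.g (nat_lit 1) (.e (nat_lit 209102) (nat_lit 0) .nil) .nil))) 
(.lf (nat_lit 515610) (.g (nat_lit 945) (.e (nat_lit 188454) (nat_lit 24) (.e (nat_lit 229666) (nat_lit 240) (.e (nat_lit 2651) (nat_lit 166) (.e (nat_lit 188420) (nat_lit 0) .nil)))) (.g (nat_lit 0) (.e (nat_lit 211364) (nat_lit 0) .nil) .nil)))) (.nd (nat_lit 9) 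
(.lf (nat_lit 515354) (.g (nat_lit 1698) (.e (nat_lit 188450) (nat_lit 23) (.e (nat_lit 204846) (nat_lit 24) (.e (nat_lit 319534) (nat_lit 16) (.e (nat_lit 286728) (nat_lit 0) .nil)))) (.g (nat_lit 0) (.e (nat_lit 210555) (nat_lit 0) .nil) .nil))) 
(.lf (nat_lit 515866) (.g (nat_lit 1954) (.e (nat_lit 196652) (nat_lit 11) (.e (nat_lit 16433) (nat_lit 9) (.e (nat_lit 426568) (nat_lit 34) (.e (nat_lit 393253) (nat_lit 18) (.e (nat_lit 164322) (nat_lit 230) .nil))))) (.g (nat_lit 0) (.e (nat_lit 213582) (nat_lit 0) .nil) .nil))))) (.nd (nat_lit 8) (.nd (nat_lit 9) 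
(.lf (nat_lit 515226) (.g (nat_lit 3801) (.e (nat_lit 188441) (nat_lit 20) (.e (nat_lit 3469) (nat_lit 217) (.e (nat_lit 696344) (nat_lit 8) (.e (nat_lit 172113) (nat_lit 10) (.e (nat_lit 434208) (nat_lit 18) (.e (nat_lit 6252) (nat_lit 337) (.e (nat_lit 7936) (nat_lit 166) .nil))))))) (.g (nat_lit 1) (.e (nat_lit 209603) (nat_lit 0) .nil) .nil))) 
(.lf (nat_lit 515738) (.g (nat_lit 793) (.e (nat_lit 204544) (nat_lit 6) (.e (nat_lit 188441) (nat_lit 20) (.e (nat_lit 3578) (nat_lit 223) (.e (nat_lit 745475) (nat_lit 0) (.e (nat_lit 1572) (nat_lit 110) .nil))))) (.g (nat_lit 0) (.e (nat_lit 212978) (nat_lit 0) .nil) .nil)))) (.nd (nat_lit 9) 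
(.lf (nat_lit 515482) (.g (nat_lit 3187) (.e (nat_lit 188453) (nat_lit 24) (.e (nat_lit 229663) (nat_lit 240) (.e (nat_lit 2622) (nat_lit 164) (.e (nat_lit 172119) (nat_lit 12) (.e (nat_lit 475199) (nat_lit 40) (.e (nat_lit 704598) (nat_lit 6) .nil)))))) (.g (nat_lit 1) (.e (nat_lit 211026) (nat_lit 0) .nil) .nil))) 
(.lf (nat_lit 515994) (.g (nat_lit 2610) (.e (nat_lit 196654) (nat_lit 11) (.e (nat_lit 16434) (nat_lit 9) (.e (nat_lit 426566) (nat_lit 34) (.e (nat_lit 393252) (nat_lit 18) (.e (nat_lit 164330) (nat_lit 230) (.e (nat_lit 163866) (nat_lit 2) .nil)))))) (.g (nat_lit 1) (.e (nat_lit 213988) (nat_lit 0) .nil) .nil)))))) (.nd (nat_lit 7) (.nd (nat_lit 8) (.nd (nat_lit 9) 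
(.lf (nat_lit 515162) (.g (nat_lit 2381) (.e (nat_lit 188441) (nat_lit 20) (.e (nat_lit 3271) (nat_lit 199) (.e (nat_lit 548913) (nat_lit 18) (.e (nat_lit 172120) (nat_lit 12) (.e (nat_lit 475183) (nat_lit 29) .nil))))) (.g (nat_lit 0) (.e (nat_lit 209351) (nat_lit 0) .nil) .nil))) 
(.lf (nat_lit 515674) (.g (nat_lit 1379) (.e (nat_lit 188455) (nat_lit 24) (.e (nat_lit 229678) (nat_lit 244) (.e (nat_lit 163932) (nat_lit 17) (.e (nat_lit 474880) (nat_lit 4) .nil)))) (.g (nat_lit 0) (.e (nat_lit 211651) (nat_lit 0) .nil) .nil)))) (.nd (nat_lit 9) 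
(.lf (nat_lit 515418) (.g (nat_lit 3032) (.e (nat_lit 188451) (nat_lit 23) (.e (nat_lit 204880) (nat_lit 32) (.e (nat_lit 385094) (nat_lit 49) (.e (nat_lit 778318) (nat_lit 3) (.e (nat_lit 57476) (nat_lit 28) .nil))))) (.g (nat_lit 0) (.e (nat_lit 210759) (nat_lit 0) .nil) .nil))) 
(.lf (nat_lit 515930) (.g (nat_lit 4035) (.e (nat_lit 196653) (nat_lit 11) (.e (nat_lit 16470) (nat_lit 14) (.e (nat_lit 491540) (nat_lit 3) (.e (nat_lit 98386) (nat_lit 32) .nil)))) (.g (nat_lit 0) (.e (nat_lit 213758) (nat_lit 0) .nil) .nil))))) (.nd (nat_lit 8) (.nd (nat_lit 9) 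
(.lf (nat_lit 515290) (.g (nat_lit 2379) (.e (nat_lit 188446) (nat_lit 21) (.e (nat_lit 164346) (nat_lit 240) (.e (nat_lit 2628) (nat_lit 164) (.e (nat_lit 172120) (nat_lit 12) (.e (nat_lit 475198) (nat_lit 40) (.e (nat_lit 704598) (nat_lit 6) .nil)))))) (.g (nat_lit 1) (.e (nat_lit 210161) (nat_lit 0) .nil) .nil))) 
(.lf (nat_lit 515802) (.g (nat_lit 2743) (.e (nat_lit 196626) (nat_lit 9) (.e (nat_lit 1400) (nat_lit 106) (.e (nat_lit 319533) (nat_lit 16) (.e (nat_lit 286733) (nat_lit 2) (.e (nat_lit 90133) (nat_lit 9) .nil))))) (.g (nat_lit 0) (.e (nat_lit 213408) (nat_lit 0) .nil) .nil)))) (.nd (nat_lit 9) 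
(.lf (nat_lit 515546) (.g (nat_lit 1479) (.e (nat_lit 188453) (nat_lit 24) (.e (nat_lit 229678) (nat_lit 244) (.e (nat_lit 163919) (nat_lit 14) (.e (nat_lit 442371) (nat_lit 0) .nil)))) (.g (nat_lit 0) (.e (nat_lit 211187) (nat_lit 0) .nil) .nil))) 
(.lf (nat_lit 516058) (.g (nat_lit 2607) (.e (nat_lit 196654) (nat_lit 11) (.e (nat_lit 16438) (nat_lit 9) (.e (nat_lit 426482) (nat_lit 27) (.e (nat_lit 336389) (nat_lit 27) (.e (nat_lit 426098) (nat_lit 1) .nil))))) (.g (nat_lit 0) (.e (nat_lit 214077) (nat_lit 0) .nil) .nil))))))) (.nd (nat_lit 6) (.nd (nat_lit 7) (.nd (nat_lit 8) (.nd (nat_lit 9) 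
(.lf (nat_lit 515130) (.g (nat_lit 2978) (.e (nat_lit 188440) (nat_lit 20) (.e (nat_lit 3469) (nat_lit 217) (.e (nat_lit 696344) (nat_lit 8) (.e (nat_lit 172106) (nat_lit 10) (.e (nat_lit 434209) (nat_lit 18) (.e (nat_lit 6271) (nat_lit 337) (.e (nat_lit 2646) (nat_lit 166) .nil))))))) (.g (nat_lit 1) (.e (nat_lit 209307) (nat_lit 0) .nil) .nil))) 
(.lf (nat_lit 515642) (.g (nat_lit 2152) (.e (nat_lit 188455) (nat_lit 24) (.e (nat_lit 229665) (nat_lit 240) (.e (nat_lit 2630) (nat_lit 164) (.e (nat_lit 172118) (nat_lit 12) (.e (nat_lit 475199) (nat_lit 40) (.e (nat_lit 704598) (nat_lit 6) .nil)))))) (.g (nat_lit 1) (.e (nat_lit 211496) (nat_lit 0) .nil) .nil)))) (.nd (nat_lit 9) 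
(.lf (nat_lit 515386) (.g (nat_lit 484) (.e (nat_lit 188451) (nat_lit 23) (.e (nat_lit 204809) (nat_lit 9) (.e (nat_lit 426108) (nat_lit 1) .nil))) (.g (nat_lit 0) (.e (nat_lit 210680) (nat_lit 0) .nil) .nil))) 
(.lf (nat_lit 515898) (.g (nat_lit 911) (.e (nat_lit 196653) (nat_lit 11) (.e (nat_lit 16463) (nat_lit 13) (.e (nat_lit 483336) (nat_lit 9) .nil))) (.g (nat_lit 0) (.e (nat_lit 213726) (nat_lit 0) .nil) .nil))))) (.nd (nat_lit 8) (.nd (nat_lit 9) 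
(.lf (nat_lit 515258) (.g (nat_lit 2981) (.e (nat_lit 188444) (nat_lit 21) (.e (nat_lit 164347) (nat_lit 240) (.e (nat_lit 2650) (nat_lit 166) (.e (nat_lit 188441) (nat_lit 20) (.e (nat_lit 3409) (nat_lit 212) (.e (nat_lit 655380) (nat_lit 6) .nil)))))) (.g (nat_lit 1) (.e (nat_lit 209793) (nat_lit 0) .nil) .nil))) 
(.lf (nat_lit 515770) (.g (nat_lit 1712) (.e (nat_lit 196624) (nat_lit 9) (.e (nat_lit 1186) (nat_lit 87) (.e (nat_lit 57926) (nat_lit 282) (.e (nat_lit 163874) (nat_lit 3) (.e (nat_lit 204872) (nat_lit 30) .nil))))) (.g (nat_lit 0) (.e (nat_lit 213359) (nat_lit 0) .nil) .nil)))) (.nd (nat_lit 9) 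
(.lf (nat_lit 515514) (.g (nat_lit 2178) (.e (nat_lit 188453) (nat_lit 24) (.e (nat_lit 229665) (nat_lit 240) (.e (nat_lit 2725) (nat_lit 172) (.e (nat_lit 237605) (nat_lit 9) (.e (nat_lit 426444) (nat_lit 19) (.e (nat_lit 114432) (nat_lit 6) .nil)))))) (.g (nat_lit 1) (.e (nat_lit 211133) (nat_lit 0) .nil) .nil))) 
(.lf (nat_lit 516026) (.g (nat_lit 3070) (.e (nat_lit 196654) (nat_lit 11) (.e (nat_lit 16436) (nat_lit 9) (.e (nat_lit 426131) (nat_lit 3) (.e (nat_lit 204882) (nat_lit 32) (.e (nat_lit 385109) (nat_lit 51) (.e (nat_lit 794664) (nat_lit 22) .nil)))))) (.g (nat_lit 1) (.e (nat_lit 214028) (nat_lit 0) .nil) .nil)))))) (.nd (nat_lit 7) (.nd (nat_lit 8) (.nd (nat_lit 9) 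
(.lf (nat_lit 515194) (.g (nat_lit 3469) (.e (nat_lit 188441) (nat_lit 20) (.e (nat_lit 3409) (nat_lit 212) (.e (nat_lit 655378) (nat_lit 4) (.e (nat_lit 172115) (nat_lit 10) (.e (nat_lit 434209) (nat_lit 18) (.e (nat_lit 5547) (nat_lit 306) (.e (nat_lit 2648) (nat_lit 166) .nil))))))) (.g (nat_lit 1) (.e (nat_lit 209487) (nat_lit 0) .nil) .nil))) 
(.lf (nat_lit 515706) (.g (nat_lit 1192) (.e (nat_lit 204544) (nat_lit 2) (.e (nat_lit 24617) (nat_lit 7) (.e (nat_lit 319500) (nat_lit 10) (.e (nat_lit 804) (nat_lit 67) .nil)))) (.g (nat_lit 0) (.e (nat_lit 212546) (nat_lit 0) .nil) .nil)))) (.nd (nat_lit 9) 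
(.lf (nat_lit 515450) (.g (nat_lit 4089) (.e (nat_lit 188452) (nat_lit 23) (.e (nat_lit 204849) (nat_lit 25) (.e (nat_lit 327715) (nat_lit 16) (.e (nat_lit 286733) (nat_lit 2) (.e (nat_lit 90176) (nat_lit 15) .nil))))) (.g (nat_lit 1) (.e (nat_lit 210894) (nat_lit 0) .nil) .nil))) 
(.lf (nat_lit 515962) (.g (nat_lit 1001) (.e (nat_lit 196654) (nat_lit 11) (.e (nat_lit 16416) (nat_lit 3) (.e (nat_lit 204833) (nat_lit 19) .nil))) (.g (nat_lit 0) (.e (nat_lit 213919) (nat_lit 0) .nil) .nil))))) (.nd (nat_lit 8) (.nd (nat_lit 9) 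
(.lf (nat_lit 515322) (.g (nat_lit 1130) (.e (nat_lit 188450) (nat_lit 23) (.e (nat_lit 204829) (nat_lit 18) (.e (nat_lit 57691) (nat_lit 156) .nil))) (.g (nat_lit 0) (.e (nat_lit 210472) (nat_lit 0) .nil) .nil))) 
(.lf (nat_lit 515834) (.g (nat_lit 1544) (.e (nat_lit 196630) (nat_lit 9) (.e (nat_lit 430) (nat_lit 32) (.e (nat_lit 426098) (nat_lit 1) (.e (nat_lit 164399) (nat_lit 256) (.e (nat_lit 57409) (nat_lit 12) .nil))))) (.g (nat_lit 0) (.e (nat_lit 213490) (nat_lit 0) .nil) .nil)))) (.nd (nat_lit 9) 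
(.lf (nat_lit 515578) (.g (nat_lit 2953) (.e (nat_lit 188454) (nat_lit 24) (.e (nat_lit 229663) (nat_lit 240) (.e (nat_lit 2630) (nat_lit 164) (.e (nat_lit 172106) (nat_lit 10) (.e (nat_lit 434271) (nat_lit 38) .nil))))) (.g (nat_lit 0) (.e (nat_lit 211319) (nat_lit 0) .nil) .nil))) 
(.lf (nat_lit 516090) (.g (nat_lit 1981) (.e (nat_lit 196654) (nat_lit 11) (.e (nat_lit 16463) (nat_lit 13) (.e (nat_lit 483341) (nat_lit 9) (.e (nat_lit 426031) (nat_lit 0) .nil)))) (.g (nat_lit 0) (.e (nat_lit 214209) (nat_lit 0) .nil) .nil)))))))))) (.nd (nat_lit 3) (.nd (nat_lit 4) (.nd (nat_lit 5) (.nd (nat_lit 6) (.nd (nat_lit 7) (.nd (nat_lit 8) (.nd (nat_lit 9) 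
(.lf (nat_lit 515078) (.g (nat_lit 1328) (.e (nat_lit 188440) (nat_lit 20) (.e (nat_lit 3307) (nat_lit 202) (.e (nat_lit 573475) (nat_lit 12) (.e (nat_lit 65280) (nat_lit 55) .nil)))) (.g (nat_lit 0) (.e (nat_lit 209033) (nat_lit 0) .nil) .nil))) 
(.lf (nat_lit 515590) (.g (nat_lit 2053) (.e (nat_lit 188454) (nat_lit 24) (.e (nat_lit 229664) (nat_lit 240) (.e (nat_lit 2630) (nat_lit 164) (.e (nat_lit 172106) (nat_lit 10) (.e (nat_lit 434271) (nat_lit 38) .nil))))) (.g (nat_lit 0) (.e (nat_lit 211338) (nat_lit 0) .nil) .nil)))) (.nd (nat_lit 9) 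
(.lf (nat_lit 515334) (.g (nat_lit 2278) (.e (nat_lit 188450) (nat_lit 23) (.e (nat_lit 204846) (nat_lit 24) (.e (nat_lit 319504) (nat_lit 10) (.e (nat_lit 5343) (nat_lit 298) .nil)))) (.g (nat_lit 0) (.e (nat_lit 210515) (nat_lit 0) .nil) .nil))) 
(.lf (nat_lit 515846) (.g (nat_lit 4726) (.e (nat_lit 196630) (nat_lit 9) (.e (nat_lit 1667) (nat_lit 116) (.e (nat_lit 401451) (nat_lit 12) (.e (nat_lit 475185) (nat_lit 29) (.e (nat_lit 557109) (nat_lit 15) .nil))))) (.g (nat_lit 0) (.e (nat_lit 213519) (nat_lit 0) .nil) .nil))))) (.nd (nat_lit 8) (.nd (nat_lit 9) 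
(.lf (nat_lit 515206) (.g (nat_lit 3169) (.e (nat_lit 188441) (nat_lit 20) (.e (nat_lit 3469) (nat_lit 217) (.e (nat_lit 696344) (nat_lit 8) (.e (nat_lit 172106) (nat_lit 10) (.e (nat_lit 434202) (nat_lit 18) (.e (nat_lit 6250) (nat_lit 337) (.e (nat_lit 7936) (nat_lit 166) .nil))))))) (.g (nat_lit 1) (.e (nat_lit 209583) (nat_lit 0) .nil) .nil))) 
(.lf (nat_lit 515718) (.g (nat_lit 495) (.e (nat_lit 204544) (nat_lit 5) (.e (nat_lit 180285) (nat_lit 45) (.e (nat_lit 2579) (nat_lit 161) (.e (nat_lit 40965) (nat_lit 0) (.e (nat_lit 1568) (nat_lit 110) .nil))))) (.g (nat_lit 0) (.e (nat_lit 212928) (nat_lit 0) .nil) .nil)))) (.nd (nat_lit 9) 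
(.lf (nat_lit 515462) (.g (nat_lit 3821) (.e (nat_lit 188452) (nat_lit 23) (.e (nat_lit 204884) (nat_lit 33) (.e (nat_lit 401453) (nat_lit 12) (.e (nat_lit 475184) (nat_lit 29) (.e (nat_lit 557108) (nat_lit 15) .nil))))) (.g (nat_lit 1) (.e (nat_lit 210966) (nat_lit 0) .nil) .nil))) 
(.lf (nat_lit 515974) (.g (nat_lit 1989) (.e (nat_lit 196654) (nat_lit 11) (.e (nat_lit 16416) (nat_lit 3) (.e (nat_lit 204838) (nat_lit 20) (.e (nat_lit 114718) (nat_lit 23) (.e (nat_lit 98335) (nat_lit 18) .nil))))) (.g (nat_lit 0) (.e (nat_lit 213947) (nat_lit 0) .nil) .nil)))))) (.nd (nat_lit 7) (.nd (nat_lit 8) (.nd (nat_lit 9) 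
(.lf (nat_lit 515142) (.g (nat_lit 2404) (.e (nat_lit 188440) (nat_lit 20) (.e (nat_lit 3469) (nat_lit 217) (.e (nat_lit 696344) (nat_lit 8) (.e (nat_lit 172113) (nat_lit 10) (.e (nat_lit 434207) (nat_lit 18) (.e (nat_lit 6250) (nat_lit 337) (.e (nat_lit 7936) (nat_lit 166) .nil))))))) (.g (nat_lit 1) (.e (nat_lit 209319) (nat_lit 0) .nil) .nil))) 
(.lf (nat_lit 515654) (.g (nat_lit 2375) (.e (nat_lit 188455) (nat_lit 24) (.e (nat_lit 229666) (nat_lit 240) (.e (nat_lit 2651) (nat_lit 166) (.e (nat_lit 188439) (nat_lit 20) (.e (nat_lit 3406) (nat_lit 212) (.e (nat_lit 655380) (nat_lit 6) .nil)))))) (.g (nat_lit 1) (.e (nat_lit 211535) (nat_lit 0) .nil) .nil)))) (.nd (nat_lit 9) 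
(.lf (nat_lit 515398) (.g (nat_lit 1565) (.e (nat_lit 188451) (nat_lit 23) (.e (nat_lit 204846) (nat_lit 24) (.e (nat_lit 319533) (nat_lit 16) (.e (nat_lit 286720) (nat_lit 0) (.e (nat_lit 1685) (nat_lit 117) .nil))))) (.g (nat_lit 0) (.e (nat_lit 210710) (nat_lit 0) .nil) .nil))) 
(.lf (nat_lit 515910) (.g (nat_lit 1748) (.e (nat_lit 196653) (nat_lit 11) (.e (nat_lit 16463) (nat_lit 13) (.e (nat_lit 483341) (nat_lit 9) (.e (nat_lit 426107) (nat_lit 1) .nil)))) (.g (nat_lit 0) (.e (nat_lit 213738) (nat_lit 0) .nil) .nil))))) (.nd (nat_lit 8) (.nd (nat_lit 9) 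
(.lf (nat_lit 515270) (.g (nat_lit 1285) (.e (nat_lit 188444) (nat_lit 21) (.e (nat_lit 164348) (nat_lit 240) (.e (nat_lit 2648) (nat_lit 166) (.e (nat_lit 188430) (nat_lit 20) .nil)))) (.g (nat_lit 0) (.e (nat_lit 209833) (nat_lit 0) .nil) .nil))) 
(.lf (nat_lit 515782) (.g (nat_lit 1065) (.e (nat_lit 196626) (nat_lit 9) (.e (nat_lit 1400) (nat_lit 106) (.e (nat_lit 319537) (nat_lit 19) (.e (nat_lit 311315) (nat_lit 3) .nil)))) (.g (nat_lit 0) (.e (nat_lit 213388) (nat_lit 0) .nil) .nil)))) (.nd (nat_lit 9) 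
(.lf (nat_lit 515526) (.g (nat_lit 2185) (.e (nat_lit 188453) (nat_lit 24) (.e (nat_lit 229666) (nat_lit 240) (.e (nat_lit 2653) (nat_lit 166) (.e (nat_lit 188418) (nat_lit 0) (.e (nat_lit 2058) (nat_lit 142) (.e (nat_lit 704598) (nat_lit 6) .nil)))))) (.g (nat_lit 1) (.e (nat_lit 211151) (nat_lit 0) .nil) .nil))) 
(.lf (nat_lit 516038) (.g (nat_lit 2340) (.e (nat_lit 196654) (nat_lit 11) (.e (nat_lit 16436) (nat_lit 9) (.e (nat_lit 426482) (nat_lit 27) (.e (nat_lit 336388) (nat_lit 27) (.e (nat_lit 426108) (nat_lit 1) .nil))))) (.g (nat_lit 0) (.e (nat_lit 214046) (nat_lit 0) .nil) .nil))))))) (.nd (nat_lit 6) (.nd (nat_lit 7) (.nd (nat_lit 8) (.nd (nat_lit 9) 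
(.lf (nat_lit 515110) (.g (nat_lit 3966) (.e (nat_lit 188440) (nat_lit 20) (.e (nat_lit 3409) (nat_lit 212) (.e (nat_lit 655378) (nat_lit 4) (.e (nat_lit 172106) (nat_lit 10) (.e (nat_lit 434209) (nat_lit 18) (.e (nat_lit 5548) (nat_lit 306) (.e (nat_lit 2648) (nat_lit 166) .nil))))))) (.g (nat_lit 1) (.e (nat_lit 209165) (nat_lit 0) .nil) .nil))) 
(.lf (nat_lit 515622) (.g (nat_lit 485) (.e (nat_lit 188455) (nat_lit 24) (.e (nat_lit 229663) (nat_lit 240) (.e (nat_lit 2647) (nat_lit 166) .nil))) (.g (nat_lit 0) (.e (nat_lit 211428) (nat_lit 0) .nil) .nil)))) (.nd (nat_lit 9) 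
(.lf (nat_lit 515366) (.g (nat_lit 2222) (.e (nat_lit 188450) (nat_lit 23) (.e (nat_lit 204883) (nat_lit 33) (.e (nat_lit 401451) (nat_lit 12) (.e (nat_lit 475185) (nat_lit 29) (.e (nat_lit 557107) (nat_lit 15) .nil))))) (.g (nat_lit 1) (.e (nat_lit 210638) (nat_lit 0) .nil) .nil))) 
(.lf (nat_lit 515878) (.g (nat_lit 2230) (.e (nat_lit 196652) (nat_lit 11) (.e (nat_lit 16438) (nat_lit 9) (.e (nat_lit 426482) (nat_lit 27) (.e (nat_lit 336388) (nat_lit 27) (.e (nat_lit 426107) (nat_lit 1) .nil))))) (.g (nat_lit 0) (.e (nat_lit 213614) (nat_lit 0) .nil) .nil))))) (.nd (nat_lit 8) (.nd (nat_lit 9) 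
(.lf (nat_lit 515238) (.g (nat_lit 2877) (.e (nat_lit 188441) (nat_lit 20) (.e (nat_lit 3469) (nat_lit 217) (.e (nat_lit 696344) (nat_lit 8) (.e (nat_lit 172115) (nat_lit 10) (.e (nat_lit 434286) (nat_lit 42) (.e (nat_lit 696064) (nat_lit 10) .nil)))))) (.g (nat_lit 1) (.e (nat_lit 209615) (nat_lit 0) .nil) .nil))) 
(.lf (nat_lit 515750) (.g (nat_lit 1158) (.e (nat_lit 196617) (nat_lit 9) (.e (nat_lit 1669) (nat_lit 116) (.e (nat_lit 401437) (nat_lit 9) (.e (nat_lit 426402) (nat_lit 15) .nil)))) (.g (nat_lit 0) (.e (nat_lit 213217) (nat_lit 0) .nil) .nil)))) (.nd (nat_lit 9) 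
(.lf (nat_lit 515494) (.g (nat_lit 1288) (.e (nat_lit 188453) (nat_lit 24) (.e (nat_lit 229664) (nat_lit 240) (.e (nat_lit 2651) (nat_lit 166) (.e (nat_lit 188418) (nat_lit 0) .nil)))) (.g (nat_lit 0) (.e (nat_lit 211075) (nat_lit 0) .nil) .nil))) 
(.lf (nat_lit 516006) (.g (nat_lit 2491) (.e (nat_lit 196654) (nat_lit 11) (.e (nat_lit 16436) (nat_lit 9) (.e (nat_lit 426131) (nat_lit 3) (.e (nat_lit 204852) (nat_lit 26) (.e (nat_lit 336258) (nat_lit 15) (.e (nat_lit 3768) (nat_lit 229) (.e (nat_lit 794669) (nat_lit 22) .nil))))))) (.g (nat_lit 1) (.e (nat_lit 214006) (nat_lit 0) .nil) .nil)))))) 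
(.nd (nat_lit 7) (.nd (nat_lit 8) (.nd (nat_lit 9) 
(.lf (nat_lit 515174) (.g (nat_lit 1053) (.e (nat_lit 188441) (nat_lit 20) (.e (nat_lit 3406) (nat_lit 212) (.e (nat_lit 655363) (nat_lit 0) (.e (nat_lit 3004) (nat_lit 186) .nil)))) (.g (nat_lit 0) (.e (nat_lit 209393) (nat_lit 0) .nil) .nil))) 
(.lf (nat_lit 515686) (.g (nat_lit 569) (.e (nat_lit 188455) (nat_lit 24) (.e (nat_lit 229680) (nat_lit 244) (.e (nat_lit 163921) (nat_lit 14) (.e (nat_lit 450304) (nat_lit 4) .nil)))) (.g (nat_lit 0) (.e (nat_lit 211695) (nat_lit 0) .nil) .nil)))) (.nd (nat_lit 9) 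
(.lf (nat_lit 515430) (.g (nat_lit 2216) (.e (nat_lit 188452) (nat_lit 23) (.e (nat_lit 204830) (nat_lit 18) (.e (nat_lit 57663) (nat_lit 152) (.e (nat_lit 2630) (nat_lit 164) (.e (nat_lit 172039) (nat_lit 0) (.e (nat_lit 3527) (nat_lit 218) (.e (nat_lit 704597) (nat_lit 6) .nil))))))) (.g (nat_lit 1) (.e (nat_lit 210825) (nat_lit 0) .nil) .nil))) 
(.lf (nat_lit 515942) (.g (nat_lit 295) (.e (nat_lit 196654) (nat_lit 11) (.e (nat_lit 16415) (nat_lit 3) (.e (nat_lit 204813) (nat_lit 9) .nil))) (.g (nat_lit 0) (.e (nat_lit 213861) (nat_lit 0) .nil) .nil))))) (.nd (nat_lit 8) (.nd (nat_lit 9) 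
(.lf (nat_lit 515302) (.g (nat_lit 3177) (.e (nat_lit 188447) (nat_lit 22) (.e (nat_lit 196661) (nat_lit 12) (.e (nat_lit 57751) (nat_lit 201) (.e (nat_lit 3067) (nat_lit 190) (.e (nat_lit 475185) (nat_lit 29) (.e (nat_lit 557107) (nat_lit 15) .nil)))))) (.g (nat_lit 1) (.e (nat_lit 210298) (nat_lit 0) .nil) .nil))) 
(.lf (nat_lit 515814) (.g (nat_lit 2593) (.e (nat_lit 196626) (nat_lit 9) (.e (nat_lit 1400) (nat_lit 106) (.e (nat_lit 319534) (nat_lit 16) (.e (nat_lit 286732) (nat_lit 2) (.e (nat_lit 90134) (nat_lit 9) .nil))))) (.g (nat_lit 0) (.e (nat_lit 213422) (nat_lit 0) .nil) .nil)))) (.nd (nat_lit 9) 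
(.lf (nat_lit 515558) (.g (nat_lit 1889) (.e (nat_lit 188453) (nat_lit 24) (.e (nat_lit 229680) (nat_lit 244) (.e (nat_lit 163915) (nat_lit 12) (.e (nat_lit 426187) (nat_lit 9) (.e (nat_lit 426444) (nat_lit 19) (.e (nat_lit 114432) (nat_lit 6) .nil)))))) (.g (nat_lit 1) (.e (nat_lit 211252) (nat_lit 0) .nil) .nil))) 
(.lf (nat_lit 516070) (.g (nat_lit 1219) (.e (nat_lit 196654) (nat_lit 11) (.e (nat_lit 16438) (nat_lit 9) (.e (nat_lit 426530) (nat_lit 27) (.e (nat_lit 336390) (nat_lit 27) .nil)))) (.g (nat_lit 0) (.e (nat_lit 214091) (nat_lit 0) .nil) .nil)))))))) (.nd (nat_lit 5) (.nd (nat_lit 6) (.nd (nat_lit 7) (.nd (nat_lit 8) (.nd (nat_lit 9) 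
(.lf (nat_lit 515094) (.g (nat_lit 1490) (.e (nat_lit 188440) (nat_lit 20) (.e (nat_lit 3391) (nat_lit 210) (.e (nat_lit 639004) (nat_lit 13) (.e (nat_lit 1615) (nat_lit 113) (.e (nat_lit 376860) (nat_lit 21) (.e (nat_lit 57832) (nat_lit 250) (.e (nat_lit 7936) (nat_lit 166) .nil))))))) (.g (nat_lit 1) (.e (nat_lit 209077) (nat_lit 0) .nil) .nil))) 
(.lf (nat_lit 515606) (.g (nat_lit 887) (.e (nat_lit 188454) (nat_lit 24) (.e (nat_lit 229665) (nat_lit 240) (.e (nat_lit 2725) (nat_lit 172) (.e (nat_lit 237617) (nat_lit 12) .nil)))) (.g (nat_lit 0) (.e (nat_lit 211360) (nat_lit 0) .nil) .nil)))) (.nd (nat_lit 9) 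
(.lf (nat_lit 515350) (.g (nat_lit 4068) (.e (nat_lit 188450) (nat_lit 23) (.e (nat_lit 204846) (nat_lit 24) (.e (nat_lit 319532) (nat_lit 16) (.e (nat_lit 286733) (nat_lit 2) (.e (nat_lit 90176) (nat_lit 15) .nil))))) (.g (nat_lit 1) (.e (nat_lit 210548) (nat_lit 0) .nil) .nil))) 
(.lf (nat_lit 515862) (.g (nat_lit 1773) (.e (nat_lit 196637) (nat_lit 9) (.e (nat_lit 394) (nat_lit 32) (.e (nat_lit 426190) (nat_lit 9) (.e (nat_lit 426566) (nat_lit 34) (.e (nat_lit 393253) (nat_lit 18) .nil))))) (.g (nat_lit 0) (.e (nat_lit 213563) (nat_lit 0) .nil) .nil))))) (.nd (nat_lit 8) (.nd (nat_lit 9) 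
(.lf (nat_lit 515222) (.g (nat_lit 2177) (.e (nat_lit 188441) (nat_lit 20) (.e (nat_lit 3469) (nat_lit 217) (.e (nat_lit 696344) (nat_lit 8) (.e (nat_lit 172113) (nat_lit 10) (.e (nat_lit 434207) (nat_lit 18) (.e (nat_lit 6252) (nat_lit 337) (.e (nat_lit 2653) (nat_lit 166) .nil))))))) (.g (nat_lit 1) (.e (nat_lit 209599) (nat_lit 0) .nil) .nil))) 
(.lf (nat_lit 515734) (.g (nat_lit 1131) (.e (nat_lit 204544) (nat_lit 6) (.e (nat_lit 188440) (nat_lit 20) (.e (nat_lit 3579) (nat_lit 223) (.e (nat_lit 745475) (nat_lit 0) (.e (nat_lit 1559) (nat_lit 110) .nil))))) (.g (nat_lit 0) (.e (nat_lit 212972) (nat_lit 0) .nil) .nil)))) (.nd (nat_lit 9) 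
(.lf (nat_lit 515478) (.g (nat_lit 957) (.e (nat_lit 196352) (nat_lit 23) (.e (nat_lit 204884) (nat_lit 33) (.e (nat_lit 401454) (nat_lit 12) (.e (nat_lit 475184) (nat_lit 29) .nil)))) (.g (nat_lit 0) (.e (nat_lit 211015) (nat_lit 0) .nil) .nil))) 
(.lf (nat_lit 515990) (.g (nat_lit 1983) (.e (nat_lit 196654) (nat_lit 11) (.e (nat_lit 16433) (nat_lit 9) (.e (nat_lit 426568) (nat_lit 34) (.e (nat_lit 393253) (nat_lit 18) (.e (nat_lit 164326) (nat_lit 230) .nil))))) (.g (nat_lit 0) (.e (nat_lit 213984) (nat_lit 0) .nil) .nil)))))) (.nd (nat_lit 7) (.nd (nat_lit 8) (.nd (nat_lit 9) 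
(.lf (nat_lit 515158) (.g (nat_lit 2060) (.e (nat_lit 188441) (nat_lit 20) (.e (nat_lit 3238) (nat_lit 197) (.e (nat_lit 532523) (nat_lit 7) (.e (nat_lit 319511) (nat_lit 10) (.e (nat_lit 5293) (nat_lit 298) .nil))))) (.g (nat_lit 0) (.e (nat_lit 209344) (nat_lit 0) .nil) .nil))) 
(.lf (nat_lit 515670) (.g (nat_lit 2148) (.e (nat_lit 188455) (nat_lit 24) (.e (nat_lit 229678) (nat_lit 244) (.e (nat_lit 163915) (nat_lit 12) (.e (nat_lit 426188) (nat_lit 9) (.e (nat_lit 426444) (nat_lit 19) (.e (nat_lit 114432) (nat_lit 6) .nil)))))) (.g (nat_lit 1) (.e (nat_lit 211602) (nat_lit 0) .nil) .nil)))) (.nd (nat_lit 9) 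
(.lf (nat_lit 515414) (.g (nat_lit 3191) (.e (nat_lit 188451) (nat_lit 23) (.e (nat_lit 204849) (nat_lit 25) (.e (nat_lit 327715) (nat_lit 16) (.e (nat_lit 286733) (nat_lit 2) (.e (nat_lit 90178) (nat_lit 15) .nil))))) (.g (nat_lit 1) (.e (nat_lit 210736) (nat_lit 0) .nil) .nil))) 
(.lf (nat_lit 515926) (.g (nat_lit 1657) (.e (nat_lit 196653) (nat_lit 11) (.e (nat_lit 16468) (nat_lit 13) (.e (nat_lit 483341) (nat_lit 9) (.e (nat_lit 426100) (nat_lit 1) (.e (nat_lit 164330) (nat_lit 230) .nil))))) (.g (nat_lit 0) (.e (nat_lit 213754) (nat_lit 0) .nil) .nil))))) (.nd (nat_lit 8) (.nd (nat_lit 9) 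
(.lf (nat_lit 515286) (.g (nat_lit 2260) (.e (nat_lit 188446) (nat_lit 21) (.e (nat_lit 164345) (nat_lit 240) (.e (nat_lit 2618) (nat_lit 164) (.e (nat_lit 172118) (nat_lit 12) (.e (nat_lit 475198) (nat_lit 40) (.e (nat_lit 704598) (nat_lit 6) .nil)))))) (.g (nat_lit 1) (.e (nat_lit 210133) (nat_lit 0) .nil) .nil))) 
(.lf (nat_lit 515798) (.g (nat_lit 3237) (.e (nat_lit 196626) (nat_lit 9) (.e (nat_lit 1400) (nat_lit 106) (.e (nat_lit 319533) (nat_lit 16) (.e (nat_lit 286732) (nat_lit 2) (.e (nat_lit 90134) (nat_lit 9) .nil))))) (.g (nat_lit 0) (.e (nat_lit 213404) (nat_lit 0) .nil) .nil)))) (.nd (nat_lit 9) 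
(.lf (nat_lit 515542) (.g (nat_lit 2004) (.e (nat_lit 188453) (nat_lit 24) (.e (nat_lit 229678) (nat_lit 244) (.e (nat_lit 163915) (nat_lit 12) (.e (nat_lit 426187) (nat_lit 9) (.e (nat_lit 426444) (nat_lit 19) (.e (nat_lit 114432) (nat_lit 6) .nil)))))) (.g (nat_lit 1) (.e (nat_lit 211181) (nat_lit 0) .nil) .nil))) 
(.lf (nat_lit 516054) (.g (nat_lit 2261) (.e (nat_lit 196654) (nat_lit 11) (.e (nat_lit 16438) (nat_lit 9) (.e (nat_lit 426482) (nat_lit 27) (.e (nat_lit 336385) (nat_lit 27) (.e (nat_lit 426107) (nat_lit 1) .nil))))) (.g (nat_lit 0) (.e (nat_lit 214070) (nat_lit 0) .nil) .nil))))))) (.nd (nat_lit 6) (.nd (nat_lit 7) (.nd (nat_lit 8) (.nd (nat_lit 9) 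
(.lf (nat_lit 515126) (.g (nat_lit 1737) (.e (nat_lit 188440) (nat_lit 20) (.e (nat_lit 3469) (nat_lit 217) (.e (nat_lit 696344) (nat_lit 8) (.e (nat_lit 172106) (nat_lit 10) (.e (nat_lit 434202) (nat_lit 18) .nil))))) (.g (nat_lit 0) (.e (nat_lit 209303) (nat_lit 0) .nil) .nil))) 
(.lf (nat_lit 515638) (.g (nat_lit 2018) (.e (nat_lit 188455) (nat_lit 24) (.e (nat_lit 229665) (nat_lit 240) (.e (nat_lit 2630) (nat_lit 164) (.e (nat_lit 172113) (nat_lit 10) (.e (nat_lit 434271) (nat_lit 38) .nil))))) (.g (nat_lit 0) (.e (nat_lit 211492) (nat_lit 0) .nil) .nil)))) (.nd (nat_lit 9) 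
(.lf (nat_lit 515382) (.g (nat_lit 2852) (.e (nat_lit 188450) (nat_lit 23) (.e (nat_lit 204885) (nat_lit 33) (.e (nat_lit 401453) (nat_lit 12) (.e (nat_lit 475183) (nat_lit 29) (.e (nat_lit 557107) (nat_lit 15) .nil))))) (.g (nat_lit 1) (.e (nat_lit 210672) (nat_lit 0) .nil) .nil))) 
(.lf (nat_lit 515894) (.g (nat_lit 2501) (.e (nat_lit 196653) (nat_lit 11) (.e (nat_lit 16435) (nat_lit 9) (.e (nat_lit 426566) (nat_lit 34) (.e (nat_lit 393253) (nat_lit 18) (.e (nat_lit 164305) (nat_lit 226) .nil))))) (.g (nat_lit 0) (.e (nat_lit 213684) (nat_lit 0) .nil) .nil))))) (.nd (nat_lit 8) (.nd (nat_lit 9) 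
(.lf (nat_lit 515254) (.g (nat_lit 204) (.e (nat_lit 188444) (nat_lit 21) (.e (nat_lit 164347) (nat_lit 240) (.e (nat_lit 2650) (nat_lit 166) .nil))) (.g (nat_lit 0) (.e (nat_lit 209787) (nat_lit 0) .nil) .nil))) 
(.lf (nat_lit 515766) (.g (nat_lit 1986) (.e (nat_lit 196624) (nat_lit 9) (.e (nat_lit 375) (nat_lit 32) (.e (nat_lit 426201) (nat_lit 9) (.e (nat_lit 426568) (nat_lit 34) (.e (nat_lit 393253) (nat_lit 18) .nil))))) (.g (nat_lit 0) (.e (nat_lit 213283) (nat_lit 0) .nil) .nil)))) (.nd (nat_lit 9) 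
(.lf (nat_lit 515510) (.g (nat_lit 2033) (.e (nat_lit 188453) (nat_lit 24) (.e (nat_lit 229665) (nat_lit 240) (.e (nat_lit 2653) (nat_lit 166) (.e (nat_lit 188440) (nat_lit 20) (.e (nat_lit 3406) (nat_lit 212) (.e (nat_lit 655380) (nat_lit 6) .nil)))))) (.g (nat_lit 1) (.e (nat_lit 211120) (nat_lit 0) .nil) .nil))) 
(.lf (nat_lit 516022) (.g (nat_lit 2754) (.e (nat_lit 196654) (nat_lit 11) (.e (nat_lit 16436) (nat_lit 9) (.e (nat_lit 426131) (nat_lit 3) (.e (nat_lit 204882) (nat_lit 32) (.e (nat_lit 385107) (nat_lit 51) (.e (nat_lit 794665) (nat_lit 22) .nil)))))) (.g (nat_lit 1) (.e (nat_lit 214024) (nat_lit 0) .nil) .nil)))))) (.nd (nat_lit 7) (.nd (nat_lit 8) (.nd (nat_lit 9) 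
(.lf (nat_lit 515190) (.g (nat_lit 3635) (.e (nat_lit 188441) (nat_lit 20) (.e (nat_lit 3409) (nat_lit 212) (.e (nat_lit 655378) (nat_lit 4) (.e (nat_lit 172097) (nat_lit 9) (.e (nat_lit 426109) (nat_lit 1) (.e (nat_lit 164347) (nat_lit 240) (.e (nat_lit 2648) (nat_lit 166) .nil))))))) (.g (nat_lit 1) (.e (nat_lit 209482) (nat_lit 0) .nil) .nil))) 
(.lf (nat_lit 515702) (.g (nat_lit 1794) (.e (nat_lit 204544) (nat_lit 0) (.e (nat_lit 232) (nat_lit 21) (.e (nat_lit 335907) (nat_lit 0) (.e (nat_lit 1874) (nat_lit 126) .nil)))) (.g (nat_lit 0) (.e (nat_lit 212514) (nat_lit 0) .nil) .nil)))) (.nd (nat_lit 9) 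
(.lf (nat_lit 515446) (.g (nat_lit 3935) (.e (nat_lit 188452) (nat_lit 23) (.e (nat_lit 204846) (nat_lit 24) (.e (nat_lit 319532) (nat_lit 16) (.e (nat_lit 286733) (nat_lit 2) (.e (nat_lit 90177) (nat_lit 15) .nil))))) (.g (nat_lit 1) (.e (nat_lit 210870) (nat_lit 0) .nil) .nil))) 
(.lf (nat_lit 515958) (.g (nat_lit 3407) (.e (nat_lit 196654) (nat_lit 11) (.e (nat_lit 16416) (nat_lit 3) (.e (nat_lit 204813) (nat_lit 9) (.e (nat_lit 426133) (nat_lit 3) (.e (nat_lit 204813) (nat_lit 9) (.e (nat_lit 426114) (nat_lit 2) .nil)))))) (.g (nat_lit 1) (.e (nat_lit 213915) (nat_lit 0) .nil) .nil))))) (.nd (nat_lit 8) (.nd (nat_lit 9) 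
(.lf (nat_lit 515318) (.g (nat_lit 494) (.e (nat_lit 188450) (nat_lit 23) (.e (nat_lit 204809) (nat_lit 9) (.e (nat_lit 433920) (nat_lit 20) .nil))) (.g (nat_lit 0) (.e (nat_lit 210439) (nat_lit 0) .nil) .nil))) 
(.lf (nat_lit 515830) (.g (nat_lit 116) (.e (nat_lit 196628) (nat_lit 9) (.e (nat_lit 968) (nat_lit 81) (.e (nat_lit 6723) (nat_lit 362) .nil))) (.g (nat_lit 0) (.e (nat_lit 213462) (nat_lit 0) .nil) .nil)))) (.nd (nat_lit 9) 
(.lf (nat_lit 515574) (.g (nat_lit 1770) (.e (nat_lit 188453) (nat_lit 24) (.e (nat_lit 229681) (nat_lit 244) (.e (nat_lit 163920) (nat_lit 14) (.e (nat_lit 442377) (nat_lit 0) (.e (nat_lit 2059) (nat_lit 142) .nil))))) (.g (nat_lit 0) (.e (nat_lit 211301) (nat_lit 0) .nil) .nil))) 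
(.lf (nat_lit 516086) (.g (nat_lit 2342) (.e (nat_lit 196654) (nat_lit 11) (.e (nat_lit 16463) (nat_lit 13) (.e (nat_lit 483341) (nat_lit 9) (.e (nat_lit 426009) (nat_lit 0) (.e (nat_lit 2459) (nat_lit 157) .nil))))) (.g (nat_lit 0) (.e (nat_lit 214205) (nat_lit 0) .nil) .nil))))))))) (.nd (nat_lit 4) (.nd (nat_lit 5) (.nd (nat_lit 6) (.nd (nat_lit 7) (.nd (nat_lit 8) (.nd (nat_lit 9) 
(.lf (nat_lit 515086) (.g (nat_lit 2062) (.e (nat_lit 188440) (nat_lit 20) (.e (nat_lit 3289) (nat_lit 201) (.e (nat_lit 565251) (nat_lit 0) (.e (nat_lit 1586) (nat_lit 111) (.e (nat_lit 360450) (nat_lit 0) (.e (nat_lit 7686) (nat_lit 410) (.e (nat_lit 7936) (nat_lit 166) .nil))))))) (.g (nat_lit 1) (.e (nat_lit 209042) (nat_lit 0) .nil) .nil))) 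
(.lf (nat_lit 515598) (.g (nat_lit 1669) (.e (nat_lit 188454) (nat_lit 24) (.e (nat_lit 229665) (nat_lit 240) (.e (nat_lit 2651) (nat_lit 166) (.e (nat_lit 188439) (nat_lit 20) (.e (nat_lit 3407) (nat_lit 212) .nil))))) (.g (nat_lit 0) (.e (nat_lit 211350) (nat_lit 0) .nil) .nil)))) (.nd (nat_lit 9) 
(.lf (nat_lit 515342) (.g (nat_lit 3982) (.e (nat_lit 188450) (nat_lit 23) (.e (nat_lit 204846) (nat_lit 24) (.e (nat_lit 319529) (nat_lit 16) (.e (nat_lit 286733) (nat_lit 2) (.e (nat_lit 90176) (nat_lit 15) .nil))))) (.g (nat_lit 1) (.e (nat_lit 210530) (nat_lit 0) .nil) .nil))) 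
(.lf (nat_lit 515854) (.g (nat_lit 1828) (.e (nat_lit 196630) (nat_lit 9) (.e (nat_lit 1669) (nat_lit 116) (.e (nat_lit 401459) (nat_lit 13) (.e (nat_lit 483369) (nat_lit 20) .nil)))) (.g (nat_lit 0) (.e (nat_lit 213544) (nat_lit 0) .nil) .nil))))) (.nd (nat_lit 8) (.nd (nat_lit 9) 
(.lf (nat_lit 515214) (.g (nat_lit 2504) (.e (nat_lit 188441) (nat_lit 20) (.e (nat_lit 3469) (nat_lit 217) (.e (nat_lit 696344) (nat_lit 8) (.e (nat_lit 172107) (nat_lit 10) (.e (nat_lit 434286) (nat_lit 42) (.e (nat_lit 696064) (nat_lit 10) .nil)))))) (.g (nat_lit 1) (.e (nat_lit 209591) (nat_lit 0) .nil) .nil))) 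
(.lf (nat_lit 515726) (.g (nat_lit 1265) (.e (nat_lit 204544) (nat_lit 6) (.e (nat_lit 188434) (nat_lit 20) (.e (nat_lit 3578) (nat_lit 223) (.e (nat_lit 745476) (nat_lit 0) (.e (nat_lit 1572) (nat_lit 110) .nil))))) (.g (nat_lit 0) (.e (nat_lit 212955) (nat_lit 0) .nil) .nil)))) (.nd (nat_lit 9) 
(.lf (nat_lit 515470) (.g (nat_lit 2989) (.e (nat_lit 188452) (nat_lit 23) (.e (nat_lit 204885) (nat_lit 33) (.e (nat_lit 401453) (nat_lit 12) (.e (nat_lit 475185) (nat_lit 29) (.e (nat_lit 557108) (nat_lit 15) .nil))))) (.g (nat_lit 1) (.e (nat_lit 211007) (nat_lit 0) .nil) .nil))) 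
(.lf (nat_lit 515982) (.g (nat_lit 3363) (.e (nat_lit 196654) (nat_lit 11) (.e (nat_lit 16433) (nat_lit 9) (.e (nat_lit 426566) (nat_lit 34) (.e (nat_lit 393251) (nat_lit 18) (.e (nat_lit 164331) (nat_lit 230) (.e (nat_lit 163866) (nat_lit 2) .nil)))))) (.g (nat_lit 1) (.e (nat_lit 213972) (nat_lit 0) .nil) .nil)))))) (.nd (nat_lit 7) (.nd (nat_lit 8) (.nd (nat_lit 9) 
(.lf (nat_lit 515150) (.g (nat_lit 2578) (.e (nat_lit 188440) (nat_lit 20) (.e (nat_lit 3469) (nat_lit 217) (.e (nat_lit 696344) (nat_lit 8) (.e (nat_lit 172115) (nat_lit 10) (.e (nat_lit 434202) (nat_lit 18) (.e (nat_lit 6250) (nat_lit 337) (.e (nat_lit 7936) (nat_lit 166) .nil))))))) (.g (nat_lit 1) (.e (nat_lit 209327) (nat_lit 0) .nil) .nil))) 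
(.lf (nat_lit 515662) (.g (nat_lit 720) (.e (nat_lit 188455) (nat_lit 24) (.e (nat_lit 229678) (nat_lit 244) (.e (nat_lit 163901) (nat_lit 12) .nil))) (.g (nat_lit 0) (.e (nat_lit 211569) (nat_lit 0) .nil) .nil)))) (.nd (nat_lit 9) 
(.lf (nat_lit 515406) (.g (nat_lit 1869) (.e (nat_lit 188451) (nat_lit 23) (.e (nat_lit 204846) (nat_lit 24) (.e (nat_lit 319534) (nat_lit 16) (.e (nat_lit 286723) (nat_lit 0) .nil)))) (.g (nat_lit 0) (.e (nat_lit 210722) (nat_lit 0) .nil) .nil))) 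
(.lf (nat_lit 515918) (.g (nat_lit 1616) (.e (nat_lit 196653) (nat_lit 11) (.e (nat_lit 16465) (nat_lit 13) (.e (nat_lit 483341) (nat_lit 9) (.e (nat_lit 426100) (nat_lit 1) (.e (nat_lit 164332) (nat_lit 230) .nil))))) (.g (nat_lit 0) (.e (nat_lit 213746) (nat_lit 0) .nil) .nil))))) (.nd (nat_lit 8) (.nd (nat_lit 9) 
(.lf (nat_lit 515278) (.g (nat_lit 479) (.e (nat_lit 188445) (nat_lit 21) (.e (nat_lit 164348) (nat_lit 240) (.e (nat_lit 2650) (nat_lit 166) .nil))) (.g (nat_lit 0) (.e (nat_lit 209946) (nat_lit 0) .nil) .nil))) 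
(.lf (nat_lit 515790) (.g (nat_lit 2765) (.e (nat_lit 196626) (nat_lit 9) (.e (nat_lit 1400) (nat_lit 106) (.e (nat_lit 319531) (nat_lit 16) (.e (nat_lit 286733) (nat_lit 2) (.e (nat_lit 90128) (nat_lit 9) .nil))))) (.g (nat_lit 0) (.e (nat_lit 213396) (nat_lit 0) .nil) .nil)))) (.nd (nat_lit 9) 
(.lf (nat_lit 515534) (.g (nat_lit 1946) (.e (nat_lit 188453) (nat_lit 24) (.e (nat_lit 229678) (nat_lit 244) (.e (nat_lit 163902) (nat_lit 12) (.e (nat_lit 426319) (nat_lit 12) .nil)))) (.g (nat_lit 0) (.e (nat_lit 211171) (nat_lit 0) .nil) .nil))) 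
(.lf (nat_lit 516046) (.g (nat_lit 1789) (.e (nat_lit 196654) (nat_lit 11) (.e (nat_lit 16438) (nat_lit 9) (.e (nat_lit 426131) (nat_lit 3) (.e (nat_lit 204853) (nat_lit 26) (.e (nat_lit 336336) (nat_lit 20) .nil))))) (.g (nat_lit 0) (.e (nat_lit 214059) (nat_lit 0) .nil) .nil))))))) (.nd (nat_lit 6) (.nd (nat_lit 7) (.nd (nat_lit 8) (.nd (nat_lit 9) 
(.lf (nat_lit 515118) (.g (nat_lit 1972) (.e (nat_lit 188440) (nat_lit 20) (.e (nat_lit 3409) (nat_lit 212) (.e (nat_lit 655380) (nat_lit 6) (.e (nat_lit 188440) (nat_lit 20) (.e (nat_lit 3409) (nat_lit 212) (.e (nat_lit 655380) (nat_lit 6) .nil)))))) (.g (nat_lit 1) (.e (nat_lit 209173) (nat_lit 0) .nil) .nil))) 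
(.lf (nat_lit 515630) (.g (nat_lit 383) (.e (nat_lit 188455) (nat_lit 24) (.e (nat_lit 229663) (nat_lit 240) (.e (nat_lit 2653) (nat_lit 166) .nil))) (.g (nat_lit 0) (.e (nat_lit 211458) (nat_lit 0) .nil) .nil)))) (.nd (nat_lit 9) 
(.lf (nat_lit 515374) (.g (nat_lit 791) (.e (nat_lit 188450) (nat_lit 23) (.e (nat_lit 204885) (nat_lit 33) (.e (nat_lit 401434) (nat_lit 9) (.e (nat_lit 433920) (nat_lit 15) .nil)))) (.g (nat_lit 0) (.e (nat_lit 210651) (nat_lit 0) .nil) .nil))) 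
(.lf (nat_lit 515886) (.g (nat_lit 609) (.e (nat_lit 196653) (nat_lit 11) (.e (nat_lit 16433) (nat_lit 9) (.e (nat_lit 426568) (nat_lit 34) .nil))) (.g (nat_lit 0) (.e (nat_lit 213674) (nat_lit 0) .nil) .nil))))) (.nd (nat_lit 8) (.nd (nat_lit 9) 
(.lf (nat_lit 515246) (.g (nat_lit 930) (.e (nat_lit 188444) (nat_lit 21) (.e (nat_lit 164345) (nat_lit 240) (.e (nat_lit 2650) (nat_lit 166) (.e (nat_lit 188419) (nat_lit 0) .nil)))) (.g (nat_lit 0) (.e (nat_lit 209738) (nat_lit 0) .nil) .nil))) 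
(.lf (nat_lit 515758) (.g (nat_lit 2763) (.e (nat_lit 196623) (nat_lit 9) (.e (nat_lit 1400) (nat_lit 106) (.e (nat_lit 319534) (nat_lit 16) (.e (nat_lit 286734) (nat_lit 3) (.e (nat_lit 98381) (nat_lit 31) .nil))))) (.g (nat_lit 0) (.e (nat_lit 213269) (nat_lit 0) .nil) .nil)))) (.nd (nat_lit 9) 
(.lf (nat_lit 515502) (.g (nat_lit 2677) (.e (nat_lit 188453) (nat_lit 24) (.e (nat_lit 229665) (nat_lit 240) (.e (nat_lit 2651) (nat_lit 166) (.e (nat_lit 188417) (nat_lit 0) (.e (nat_lit 2148) (nat_lit 142) (.e (nat_lit 704597) (nat_lit 6) .nil)))))) (.g (nat_lit 1) (.e (nat_lit 211097) (nat_lit 0) .nil) .nil))) 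
(.lf (nat_lit 516014) (.g (nat_lit 2477) (.e (nat_lit 196654) (nat_lit 11) (.e (nat_lit 16436) (nat_lit 9) (.e (nat_lit 426131) (nat_lit 3) (.e (nat_lit 204854) (nat_lit 26) (.e (nat_lit 336336) (nat_lit 20) (.e (nat_lit 221211) (nat_lit 22) .nil)))))) (.g (nat_lit 1) (.e (nat_lit 214014) (nat_lit 0) .nil) .nil)))))) (.nd (nat_lit 7) (.nd (nat_lit 8) (.nd (nat_lit 9) 
(.lf (nat_lit 515182) (.g (nat_lit 1526) (.e (nat_lit 188441) (nat_lit 20) (.e (nat_lit 3408) (nat_lit 212) (.e (nat_lit 655364) (nat_lit 0) (.e (nat_lit 3004) (nat_lit 186) (.e (nat_lit 450304) (nat_lit 4) (.e (nat_lit 114432) (nat_lit 6) .nil)))))) (.g (nat_lit 1) (.e (nat_lit 209430) (nat_lit 0) .nil) .nil))) 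
(.lf (nat_lit 515694) (.g (nat_lit 1709) (.e (nat_lit 188455) (nat_lit 24) (.e (nat_lit 229681) (nat_lit 244) (.e (nat_lit 163920) (nat_lit 14) (.e (nat_lit 442377) (nat_lit 0) .nil)))) (.g (nat_lit 0) (.e (nat_lit 211723) (nat_lit 0) .nil) .nil)))) (.nd (nat_lit 9) 
(.lf (nat_lit 515438) (.g (nat_lit 1980) (.e (nat_lit 188452) (nat_lit 23) (.e (nat_lit 204845) (nat_lit 24) (.e (nat_lit 319534) (nat_lit 16) (.e (nat_lit 286722) (nat_lit 0) .nil)))) (.g (nat_lit 0) (.e (nat_lit 210849) (nat_lit 0) .nil) .nil))) 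
(.lf (nat_lit 515950) (.g (nat_lit 2284) (.e (nat_lit 196654) (nat_lit 11) (.e (nat_lit 16416) (nat_lit 3) (.e (nat_lit 204809) (nat_lit 9) (.e (nat_lit 426139) (nat_lit 3) (.e (nat_lit 204812) (nat_lit 9) (.e (nat_lit 426114) (nat_lit 2) .nil)))))) (.g (nat_lit 1) (.e (nat_lit 213895) (nat_lit 0) .nil) .nil))))) (.nd (nat_lit 8) (.nd (nat_lit 9) 
(.lf (nat_lit 515310) (.g (nat_lit 342) (.e (nat_lit 188449) (nat_lit 22) (.e (nat_lit 196630) (nat_lit 9) (.e (nat_lit 1669) (nat_lit 116) .nil))) (.g (nat_lit 0) (.e (nat_lit 210348) (nat_lit 0) .nil) .nil))) 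
(.lf (nat_lit 515822) (.g (nat_lit 941) (.e (nat_lit 196626) (nat_lit 9) (.e (nat_lit 1642) (nat_lit 114) (.e (nat_lit 385066) (nat_lit 26) (.e (nat_lit 532530) (nat_lit 9) .nil)))) (.g (nat_lit 0) (.e (nat_lit 213431) (nat_lit 0) .nil) .nil)))) (.nd (nat_lit 9) 
(.lf (nat_lit 515566) (.g (nat_lit 1623) (.e (nat_lit 188453) (nat_lit 24) (.e (nat_lit 229681) (nat_lit 244) (.e (nat_lit 163913) (nat_lit 12) (.e (nat_lit 426228) (nat_lit 9) (.e (nat_lit 426443) (nat_lit 19) (.e (nat_lit 114432) (nat_lit 6) .nil)))))) (.g (nat_lit 1) (.e (nat_lit 211290) (nat_lit 0) .nil) .nil))) 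
(.lf (nat_lit 516078) (.g (nat_lit 1543) (.e (nat_lit 196654) (nat_lit 11) (.e (nat_lit 16463) (nat_lit 13) (.e (nat_lit 483337) (nat_lit 9) (.e (nat_lit 426105) (nat_lit 1) .nil)))) (.g (nat_lit 0) (.e (nat_lit 214195) (nat_lit 0) .nil) .nil)))))))) (.nd (nat_lit 5) (.nd (nat_lit 6) (.nd (nat_lit 7) (.nd (nat_lit 8) (.nd (nat_lit 9) 
(.lf (nat_lit 515102) (.g (nat_lit 1709) (.e (nat_lit 188440) (nat_lit 20) (.e (nat_lit 3408) (nat_lit 212) (.e (nat_lit 655378) (nat_lit 4) (.e (nat_lit 172097) (nat_lit 9) (.e (nat_lit 426025) (nat_lit 0) (.e (nat_lit 3397) (nat_lit 211) (.e (nat_lit 647185) (nat_lit 6) .nil))))))) (.g (nat_lit 1) (.e (nat_lit 209134) (nat_lit 0) .nil) .nil))) 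
(.lf (nat_lit 515614) (.g (nat_lit 1247) (.e (nat_lit 188454) (nat_lit 24) (.e (nat_lit 229680) (nat_lit 244) (.e (nat_lit 163920) (nat_lit 14) (.e (nat_lit 442374) (nat_lit 0) .nil)))) (.g (nat_lit 0) (.e (nat_lit 211380) (nat_lit 0) .nil) .nil)))) (.nd (nat_lit 9) 
(.lf (nat_lit 515358) (.g (nat_lit 758) (.e (nat_lit 188450) (nat_lit 23) (.e (nat_lit 204855) (nat_lit 26) (.e (nat_lit 335990) (nat_lit 1) (.e (nat_lit 57926) (nat_lit 282) .nil)))) (.g (nat_lit 0) (.e (nat_lit 210592) (nat_lit 0) .nil) .nil))) 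
(.lf (nat_lit 515870) (.g (nat_lit 1360) (.e (nat_lit 196652) (nat_lit 11) (.e (nat_lit 16435) (nat_lit 9) (.e (nat_lit 426566) (nat_lit 34) (.e (nat_lit 393253) (nat_lit 18) .nil)))) (.g (nat_lit 0) (.e (nat_lit 213586) (nat_lit 0) .nil) .nil))))) (.nd (nat_lit 8) (.nd (nat_lit 9) 
(.lf (nat_lit 515230) (.g (nat_lit 2064) (.e (nat_lit 188441) (nat_lit 20) (.e (nat_lit 3469) (nat_lit 217) (.e (nat_lit 696344) (nat_lit 8) (.e (nat_lit 172113) (nat_lit 10) (.e (nat_lit 434285) (nat_lit 42) .nil))))) (.g (nat_lit 0) (.e (nat_lit 209607) (nat_lit 0) .nil) .nil))) 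
(.lf (nat_lit 515742) (.g (nat_lit 1397) (.e (nat_lit 196617) (nat_lit 9) (.e (nat_lit 423) (nat_lit 32) (.e (nat_lit 426188) (nat_lit 9) (.e (nat_lit 426566) (nat_lit 34) (.e (nat_lit 393254) (nat_lit 18) .nil))))) (.g (nat_lit 0) (.e (nat_lit 213197) (nat_lit 0) .nil) .nil)))) (.nd (nat_lit 9) 
(.lf (nat_lit 515486) (.g (nat_lit 4688) (.e (nat_lit 188453) (nat_lit 24) (.e (nat_lit 229663) (nat_lit 240) (.e (nat_lit 2630) (nat_lit 164) (.e (nat_lit 172120) (nat_lit 12) (.e (nat_lit 475198) (nat_lit 40) (.e (nat_lit 704599) (nat_lit 6) .nil)))))) (.g (nat_lit 1) (.e (nat_lit 211038) (nat_lit 0) .nil) .nil))) 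
(.lf (nat_lit 515998) (.g (nat_lit 3318) (.e (nat_lit 196654) (nat_lit 11) (.e (nat_lit 16434) (nat_lit 9) (.e (nat_lit 426566) (nat_lit 34) (.e (nat_lit 393253) (nat_lit 18) (.e (nat_lit 164332) (nat_lit 230) (.e (nat_lit 163866) (nat_lit 2) .nil)))))) (.g (nat_lit 1) (.e (nat_lit 213992) (nat_lit 0) .nil) .nil)))))) (.nd (nat_lit 7) (.nd (nat_lit 8) (.nd (nat_lit 9) 
(.lf (nat_lit 515166) (.g (nat_lit 1207) (.e (nat_lit 188441) (nat_lit 20) (.e (nat_lit 3288) (nat_lit 201) (.e (nat_lit 565267) (nat_lit 4) (.e (nat_lit 65610) (nat_lit 10) (.e (nat_lit 344183) (nat_lit 49) (.e (nat_lit 819221) (nat_lit 6) .nil)))))) (.g (nat_lit 1) (.e (nat_lit 209366) (nat_lit 0) .nil) .nil))) 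
(.lf (nat_lit 515678) (.g (nat_lit 713) (.e (nat_lit 188455) (nat_lit 24) (.e (nat_lit 229680) (nat_lit 244) (.e (nat_lit 163900) (nat_lit 12) (.e (nat_lit 426312) (nat_lit 12) .nil)))) (.g (nat_lit 0) (.e (nat_lit 211672) (nat_lit 0) .nil) .nil)))) (.nd (nat_lit 9) 
(.lf (nat_lit 515422) (.g (nat_lit 2962) (.e (nat_lit 188451) (nat_lit 23) (.e (nat_lit 204885) (nat_lit 33) (.e (nat_lit 401448) (nat_lit 10) (.e (nat_lit 434238) (nat_lit 25) (.e (nat_lit 548915) (nat_lit 20) .nil))))) (.g (nat_lit 1) (.e (nat_lit 210771) (nat_lit 0) .nil) .nil))) 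
(.lf (nat_lit 515934) (.g (nat_lit 2682) (.e (nat_lit 196653) (nat_lit 11) (.e (nat_lit 16473) (nat_lit 14) (.e (nat_lit 491539) (nat_lit 3) (.e (nat_lit 98384) (nat_lit 32) .nil)))) (.g (nat_lit 0) (.e (nat_lit 213770) (nat_lit 0) .nil) .nil))))) (.nd (nat_lit 8) (.nd (nat_lit 9) 
(.lf (nat_lit 515294) (.g (nat_lit 3071) (.e (nat_lit 188446) (nat_lit 21) (.e (nat_lit 164347) (nat_lit 240) (.e (nat_lit 2619) (nat_lit 164) (.e (nat_lit 172120) (nat_lit 12) (.e (nat_lit 475198) (nat_lit 40) (.e (nat_lit 704598) (nat_lit 6) .nil)))))) (.g (nat_lit 1) (.e (nat_lit 210182) (nat_lit 0) .nil) .nil))) 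
(.lf (nat_lit 515806) (.g (nat_lit 2638) (.e (nat_lit 196626) (nat_lit 9) (.e (nat_lit 1400) (nat_lit 106) (.e (nat_lit 319533) (nat_lit 16) (.e (nat_lit 286734) (nat_lit 3) (.e (nat_lit 98382) (nat_lit 31) .nil))))) (.g (nat_lit 0) (.e (nat_lit 213412) (nat_lit 0) .nil) .nil)))) (.nd (nat_lit 9) 
(.lf (nat_lit 515550) (.g (nat_lit 1847) (.e (nat_lit 188453) (nat_lit 24) (.e (nat_lit 229678) (nat_lit 244) (.e (nat_lit 163920) (nat_lit 14) (.e (nat_lit 442374) (nat_lit 0) (.e (nat_lit 2059) (nat_lit 142) .nil))))) (.g (nat_lit 0) (.e (nat_lit 211193) (nat_lit 0) .nil) .nil))) 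
(.lf (nat_lit 516062) (.g (nat_lit 2926) (.e (nat_lit 196654) (nat_lit 11) (.e (nat_lit 16438) (nat_lit 9) (.e (nat_lit 426482) (nat_lit 27) (.e (nat_lit 336389) (nat_lit 27) (.e (nat_lit 426108) (nat_lit 1) .nil))))) (.g (nat_lit 0) (.e (nat_lit 214081) (nat_lit 0) .nil) .nil))))))) (.nd (nat_lit 6) (.nd (nat_lit 7) (.nd (nat_lit 8) (.nd (nat_lit 9) 
(.lf (nat_lit 515134) (.g (nat_lit 1930) (.e (nat_lit 188440) (nat_lit 20) (.e (nat_lit 3469) (nat_lit 217) (.e (nat_lit 696344) (nat_lit 8) (.e (nat_lit 172106) (nat_lit 10) (.e (nat_lit 434287) (nat_lit 43) .nil))))) (.g (nat_lit 0) (.e (nat_lit 209311) (nat_lit 0) .nil) .nil))) 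
(.lf (nat_lit 515646) (.g (nat_lit 1790) (.e (nat_lit 188455) (nat_lit 24) (.e (nat_lit 229665) (nat_lit 240) (.e (nat_lit 2653) (nat_lit 166) (.e (nat_lit 188440) (nat_lit 20) (.e (nat_lit 3406) (nat_lit 212) (.e (nat_lit 655380) (nat_lit 6) .nil)))))) (.g (nat_lit 1) (.e (nat_lit 211516) (nat_lit 0) .nil) .nil)))) (.nd (nat_lit 9) 
(.lf (nat_lit 515390) (.g (nat_lit 371) (.e (nat_lit 188451) (nat_lit 23) (.e (nat_lit 204846) (nat_lit 24) (.e (nat_lit 319504) (nat_lit 10) .nil))) (.g (nat_lit 0) (.e (nat_lit 210696) (nat_lit 0) .nil) .nil))) 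
(.lf (nat_lit 515902) (.g (nat_lit 1279) (.e (nat_lit 196653) (nat_lit 11) (.e (nat_lit 16463) (nat_lit 13) (.e (nat_lit 483337) (nat_lit 9) (.e (nat_lit 426107) (nat_lit 1) (.e (nat_lit 164326) (nat_lit 230) .nil))))) (.g (nat_lit 0) (.e (nat_lit 213730) (nat_lit 0) .nil) .nil))))) (.nd (nat_lit 8) (.nd (nat_lit 9) 
(.lf (nat_lit 515262) (.g (nat_lit 3336) (.e (nat_lit 188444) (nat_lit 21) (.e (nat_lit 164348) (nat_lit 240) (.e (nat_lit 2619) (nat_lit 164) (.e (nat_lit 172120) (nat_lit 12) (.e (nat_lit 475199) (nat_lit 40) (.e (nat_lit 704598) (nat_lit 6) .nil)))))) (.g (nat_lit 1) (.e (nat_lit 209818) (nat_lit 0) .nil) .nil))) 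
(.lf (nat_lit 515774) (.g (nat_lit 1894) (.e (nat_lit 196624) (nat_lit 9) (.e (nat_lit 1277) (nat_lit 94) (.e (nat_lit 114719) (nat_lit 23) (.e (nat_lit 98367) (nat_lit 27) (.e (nat_lit 434234) (nat_lit 23) .nil))))) (.g (nat_lit 0) (.e (nat_lit 213363) (nat_lit 0) .nil) .nil)))) (.nd (nat_lit 9) 
(.lf (nat_lit 515518) (.g (nat_lit 2650) (.e (nat_lit 188453) (nat_lit 24) (.e (nat_lit 229666) (nat_lit 240) (.e (nat_lit 2630) (nat_lit 164) (.e (nat_lit 172118) (nat_lit 12) (.e (nat_lit 475198) (nat_lit 40) (.e (nat_lit 704599) (nat_lit 6) .nil)))))) (.g (nat_lit 1) (.e (nat_lit 211137) (nat_lit 0) .nil) .nil))) 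
(.lf (nat_lit 516030) (.g (nat_lit 514) (.e (nat_lit 196654) (nat_lit 11) (.e (nat_lit 16436) (nat_lit 9) (.e (nat_lit 426479) (nat_lit 27) .nil))) (.g (nat_lit 0) (.e (nat_lit 214038) (nat_lit 0) .nil) .nil)))))) (.nd (nat_lit 7) (.nd (nat_lit 8) (.nd (nat_lit 9) 
(.lf (nat_lit 515198) (.g (nat_lit 2999) (.e (nat_lit 188441) (nat_lit 20) (.e (nat_lit 3409) (nat_lit 212) (.e (nat_lit 655380) (nat_lit 6) (.e (nat_lit 188446) (nat_lit 21) (.e (nat_lit 164347) (nat_lit 240) (.e (nat_lit 2648) (nat_lit 166) .nil)))))) (.g (nat_lit 1) (.e (nat_lit 209491) (nat_lit 0) .nil) .nil))) 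
(.lf (nat_lit 515710) (.g (nat_lit 969) (.e (nat_lit 204544) (nat_lit 2) (.e (nat_lit 24665) (nat_lit 14) (.e (nat_lit 401467) (nat_lit 27) (.e (nat_lit 336408) (nat_lit 27) .nil)))) (.g (nat_lit 0) (.e (nat_lit 212611) (nat_lit 0) .nil) .nil)))) (.nd (nat_lit 9) 
(.lf (nat_lit 515454) (.g (nat_lit 2348) (.e (nat_lit 188452) (nat_lit 23) (.e (nat_lit 204879) (nat_lit 32) (.e (nat_lit 385094) (nat_lit 49) (.e (nat_lit 778318) (nat_lit 3) (.e (nat_lit 57476) (nat_lit 28) .nil))))) (.g (nat_lit 0) (.e (nat_lit 210931) (nat_lit 0) .nil) .nil))) 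
(.lf (nat_lit 515966) (.g (nat_lit 535) (.e (nat_lit 196654) (nat_lit 11) (.e (nat_lit 16416) (nat_lit 3) (.e (nat_lit 204837) (nat_lit 20) .nil))) (.g (nat_lit 0) (.e (nat_lit 213923) (nat_lit 0) .nil) .nil))))) (.nd (nat_lit 8) (.nd (nat_lit 9) 
(.lf (nat_lit 515326) (.g (nat_lit 1858) (.e (nat_lit 188450) (nat_lit 23) (.e (nat_lit 204830) (nat_lit 18) (.e (nat_lit 57663) (nat_lit 152) (.e (nat_lit 2630) (nat_lit 164) (.e (nat_lit 172039) (nat_lit 0) .nil))))) (.g (nat_lit 0) (.e (nat_lit 210480) (nat_lit 0) .nil) .nil))) 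
(.lf (nat_lit 515838) (.g (nat_lit 3288) (.e (nat_lit 196630) (nat_lit 9) (.e (nat_lit 1443) (nat_lit 108) (.e (nat_lit 336099) (nat_lit 9) (.e (nat_lit 336013) (nat_lit 2) (.e (nat_lit 90121) (nat_lit 9) .nil))))) (.g (nat_lit 0) (.e (nat_lit 213511) (nat_lit 0) .nil) .nil)))) (.nd (nat_lit 9) 
(.lf (nat_lit 515582) (.g (nat_lit 2774) (.e (nat_lit 188454) (nat_lit 24) (.e (nat_lit 229663) (nat_lit 240) (.e (nat_lit 2630) (nat_lit 164) (.e (nat_lit 172120) (nat_lit 12) (.e (nat_lit 475197) (nat_lit 40) (.e (nat_lit 704598) (nat_lit 6) .nil)))))) (.g (nat_lit 1) (.e (nat_lit 211325) (nat_lit 0) .nil) .nil))) 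
(.lf (nat_lit 516094) (.g (nat_lit 1566) (.e (nat_lit 196654) (nat_lit 11) (.e (nat_lit 16463) (nat_lit 13) (.e (nat_lit 483341) (nat_lit 9) (.e (nat_lit 426105) (nat_lit 1) (.e (nat_lit 164331) (nat_lit 230) .nil))))) (.g (nat_lit 0) (.e (nat_lit 214217) (nat_lit 0) .nil) .nil)))))))))))) 
(.nd (nat_lit 1) (.nd (nat_lit 2) (.nd (nat_lit 3) (.nd (nat_lit 4) (.nd (nat_lit 5) 
(.nd (nat_lit 6) (.nd (nat_lit 7) (.nd (nat_lit 8) (.nd (nat_lit 9) 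
(.lf (nat_lit 515073) (.g (nat_lit 2082) (.e (nat_lit 188440) (nat_lit 20) (.e (nat_lit 3307) (nat_lit 202) (.e (nat_lit 573474) (nat_lit 12) (.e (nat_lit 57574) (nat_lit 55) .nil)))) (.g (nat_lit 0) (.e (nat_lit 209026) (nat_lit 0) .nil) .nil))) 
(.lf (nat_lit 515585) (.g (nat_lit 1938) (.e (nat_lit 188454) (nat_lit 24) (.e (nat_lit 229663) (nat_lit 240) (.e (nat_lit 2651) (nat_lit 166) (.e (nat_lit 188420) (nat_lit 0) (.e (nat_lit 2058) (nat_lit 142) (.e (nat_lit 704598) (nat_lit 6) .nil)))))) (.g (nat_lit 1) (.e (nat_lit 211328) (nat_lit 0) .nil) .nil)))) (.nd (nat_lit 9) 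
(.lf (nat_lit 515329) (.g (nat_lit 593) (.e (nat_lit 188450) (nat_lit 23) (.e (nat_lit 204845) (nat_lit 24) (.e (nat_lit 319499) (nat_lit 10) .nil))) (.g (nat_lit 0) (.e (nat_lit 210494) (nat_lit 0) .nil) .nil))) 
(.lf (nat_lit 515841) (.g (nat_lit 1745) (.e (nat_lit 196630) (nat_lit 9) (.e (nat_lit 1504) (nat_lit 108) (.e (nat_lit 336204) (nat_lit 12) (.e (nat_lit 385074) (nat_lit 31) (.e (nat_lit 573487) (nat_lit 14) .nil))))) (.g (nat_lit 0) (.e (nat_lit 213514) (nat_lit 0) .nil) .nil))))) (.nd (nat_lit 8) (.nd (nat_lit 9) 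
(.lf (nat_lit 515201) (.g (nat_lit 3666) (.e (nat_lit 188441) (nat_lit 20) (.e (nat_lit 3409) (nat_lit 212) (.e (nat_lit 655380) (nat_lit 6) (.e (nat_lit 188455) (nat_lit 24) (.e (nat_lit 229663) (nat_lit 240) (.e (nat_lit 2653) (nat_lit 166) .nil)))))) (.g (nat_lit 1) (.e (nat_lit 209494) (nat_lit 0) .nil) .nil))) 
(.lf (nat_lit 515713) (.g (nat_lit 1232) (.e (nat_lit 204544) (nat_lit 2) (.e (nat_lit 24665) (nat_lit 14) (.e (nat_lit 409344) (nat_lit 27) (.e (nat_lit 336443) (nat_lit 32) (.e (nat_lit 466973) (nat_lit 22) .nil))))) (.g (nat_lit 0) (.e (nat_lit 212621) (nat_lit 0) .nil) .nil)))) (.nd (nat_lit 9) 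
(.lf (nat_lit 515457) (.g (nat_lit 653) (.e (nat_lit 188452) (nat_lit 23) (.e (nat_lit 204882) (nat_lit 32) (.e (nat_lit 385090) (nat_lit 49) .nil))) (.g (nat_lit 0) (.e (nat_lit 210951) (nat_lit 0) .nil) .nil))) 
(.lf (nat_lit 515969) (.g (nat_lit 4027) (.e (nat_lit 196654) (nat_lit 11) (.e (nat_lit 16416) (nat_lit 3) (.e (nat_lit 204837) (nat_lit 20) (.e (nat_lit 114718) (nat_lit 23) (.e (nat_lit 98333) (nat_lit 18) (.e (nat_lit 164327) (nat_lit 230) (.e (nat_lit 163871) (nat_lit 2) .nil))))))) (.g (nat_lit 1) (.e (nat_lit 213932) (nat_lit 0) .nil) .nil)))))) 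
(.nd (nat_lit 7) (.nd (nat_lit 8) (.nd (nat_lit 9) 
(.lf (nat_lit 515137) (.g (nat_lit 1152) (.e (nat_lit 188440) (nat_lit 20) (.e (nat_lit 3469) (nat_lit 217) (.e (nat_lit 696344) (nat_lit 8) (.e (nat_lit 172113) (nat_lit 10) .nil)))) (.g (nat_lit 0) (.e (nat_lit 209314) (nat_lit 0) .nil) .nil))) 
(.lf (nat_lit 515649) (.g (nat_lit 1984) (.e (nat_lit 188455) (nat_lit 24) (.e (nat_lit 229665) (nat_lit 240) (.e (nat_lit 2725) (nat_lit 172) (.e (nat_lit 237605) (nat_lit 9) (.e (nat_lit 426444) (nat_lit 19) (.e (nat_lit 114432) (nat_lit 6) .nil)))))) (.g (nat_lit 1) (.e (nat_lit 211525) (nat_lit 0) .nil) .nil)))) (.nd (nat_lit 9) 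
(.lf (nat_lit 515393) (.g (nat_lit 2020) (.e (nat_lit 188451) (nat_lit 23) (.e (nat_lit 204846) (nat_lit 24) (.e (nat_lit 319504) (nat_lit 10) (.e (nat_lit 5391) (nat_lit 301) .nil)))) (.g (nat_lit 0) (.e (nat_lit 210700) (nat_lit 0) .nil) .nil))) 
(.lf (nat_lit 515905) (.g (nat_lit 592) (.e (nat_lit 196653) (nat_lit 11) (.e (nat_lit 16463) (nat_lit 13) (.e (nat_lit 483341) (nat_lit 9) .nil))) (.g (nat_lit 0) (.e (nat_lit 213733) (nat_lit 0) .nil) .nil))))) (.nd (nat_lit 8) (.nd (nat_lit 9) 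
(.lf (nat_lit 515265) (.g (nat_lit 1686) (.e (nat_lit 188444) (nat_lit 21) (.e (nat_lit 164348) (nat_lit 240) (.e (nat_lit 2648) (nat_lit 166) (.e (nat_lit 188418) (nat_lit 0) (.e (nat_lit 2056) (nat_lit 142) (.e (nat_lit 704598) (nat_lit 6) .nil)))))) (.g (nat_lit 1) (.e (nat_lit 209827) (nat_lit 0) .nil) .nil))) 
(.lf (nat_lit 515777) (.g (nat_lit 1475) (.e (nat_lit 196626) (nat_lit 9) (.e (nat_lit 437) (nat_lit 32) (.e (nat_lit 426188) (nat_lit 9) (.e (nat_lit 426566) (nat_lit 34) (.e (nat_lit 393254) (nat_lit 18) .nil))))) (.g (nat_lit 0) (.e (nat_lit 213377) (nat_lit 0) .nil) .nil)))) (.nd (nat_lit 9) 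
(.lf (nat_lit 515521) (.g (nat_lit 2111) (.e (nat_lit 188453) (nat_lit 24) (.e (nat_lit 229666) (nat_lit 240) (.e (nat_lit 2651) (nat_lit 166) (.e (nat_lit 188420) (nat_lit 0) (.e (nat_lit 2056) (nat_lit 142) (.e (nat_lit 704598) (nat_lit 6) .nil)))))) (.g (nat_lit 1) (.e (nat_lit 211142) (nat_lit 0) .nil) .nil))) 
(.lf (nat_lit 516033) (.g (nat_lit 1781) (.e (nat_lit 196654) (nat_lit 11) (.e (nat_lit 16436) (nat_lit 9) (.e (nat_lit 426482) (nat_lit 27) (.e (nat_lit 336385) (nat_lit 27) .nil)))) (.g (nat_lit 0) (.e (nat_lit 214041) (nat_lit 0) .nil) .nil))))))) (.nd (nat_lit 6) (.nd (nat_lit 7) (.nd (nat_lit 8) (.nd (nat_lit 9) 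
(.lf (nat_lit 515105) (.g (nat_lit 1177) (.e (nat_lit 188440) (nat_lit 20) (.e (nat_lit 3408) (nat_lit 212) (.e (nat_lit 655380) (nat_lit 6) (.e (nat_lit 188417) (nat_lit 0) (.e (nat_lit 2148) (nat_lit 142) (.e (nat_lit 704597) (nat_lit 6) .nil)))))) (.g (nat_lit 1) (.e (nat_lit 209140) (nat_lit 0) .nil) .nil))) 
(.lf (nat_lit 515617) (.g (nat_lit 566) (.e (nat_lit 188455) (nat_lit 24) (.e (nat_lit 229663) (nat_lit 240) (.e (nat_lit 2497) (nat_lit 157) .nil))) (.g (nat_lit 0) (.e (nat_lit 211403) (nat_lit 0) .nil) .nil)))) (.nd (nat_lit 9) 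
(.lf (nat_lit 515361) (.g (nat_lit 2930) (.e (nat_lit 188450) (nat_lit 23) (.e (nat_lit 204863) (nat_lit 27) (.e (nat_lit 344169) (nat_lit 40) (.e (nat_lit 671748) (nat_lit 0) (.e (nat_lit 1047) (nat_lit 81) .nil))))) (.g (nat_lit 0) (.e (nat_lit 210611) (nat_lit 0) .nil) .nil))) 
(.lf (nat_lit 515873) (.g (nat_lit 1742) (.e (nat_lit 196652) (nat_lit 11) (.e (nat_lit 16438) (nat_lit 9) (.e (nat_lit 426482) (nat_lit 27) (.e (nat_lit 336385) (nat_lit 27) .nil)))) (.g (nat_lit 0) (.e (nat_lit 213609) (nat_lit 0) .nil) .nil))))) (.nd (nat_lit 8) (.nd (nat_lit 9) 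
(.lf (nat_lit 515233) (.g (nat_lit 2726) (.e (nat_lit 188441) (nat_lit 20) (.e (nat_lit 3469) (nat_lit 217) (.e (nat_lit 696344) (nat_lit 8) (.e (nat_lit 172115) (nat_lit 10) (.e (nat_lit 434202) (nat_lit 18) (.e (nat_lit 6250) (nat_lit 337) (.e (nat_lit 7936) (nat_lit 166) .nil))))))) (.g (nat_lit 1) (.e (nat_lit 209610) (nat_lit 0) .nil) .nil))) 
(.lf (nat_lit 515745) (.g (nat_lit 2173) (.e (nat_lit 196617) (nat_lit 9) (.e (nat_lit 1181) (nat_lit 87) (.e (nat_lit 57930) (nat_lit 282) (.e (nat_lit 163867) (nat_lit 2) (.e (nat_lit 196670) (nat_lit 14) .nil))))) (.g (nat_lit 0) (.e (nat_lit 213209) (nat_lit 0) .nil) .nil)))) (.nd (nat_lit 9) 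
(.lf (nat_lit 515489) (.g (nat_lit 1734) (.e (nat_lit 188453) (nat_lit 24) (.e (nat_lit 229663) (nat_lit 240) (.e (nat_lit 2651) (nat_lit 166) (.e (nat_lit 188418) (nat_lit 0) .nil)))) (.g (nat_lit 0) (.e (nat_lit 211046) (nat_lit 0) .nil) .nil))) 
(.lf (nat_lit 516001) (.g (nat_lit 466) (.e (nat_lit 196654) (nat_lit 11) (.e (nat_lit 16436) (nat_lit 9) (.e (nat_lit 426130) (nat_lit 3) .nil))) (.g (nat_lit 0) (.e (nat_lit 213999) (nat_lit 0) .nil) .nil)))))) (.nd (nat_lit 7) (.nd (nat_lit 8) (.nd (nat_lit 9) 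
(.lf (nat_lit 515169) (.g (nat_lit 1475) (.e (nat_lit 188441) (nat_lit 20) (.e (nat_lit 3289) (nat_lit 201) (.e (nat_lit 565269) (nat_lit 6) (.e (nat_lit 81938) (nat_lit 20) (.e (nat_lit 2389) (nat_lit 156) (.e (nat_lit 819221) (nat_lit 6) .nil)))))) (.g (nat_lit 1) (.e (nat_lit 209375) (nat_lit 0) .nil) .nil))) 
(.lf (nat_lit 515681) (.g (nat_lit 1787) (.e (nat_lit 188455) (nat_lit 24) (.e (nat_lit 229680) (nat_lit 244) (.e (nat_lit 163913) (nat_lit 12) (.e (nat_lit 426230) (nat_lit 9) (.e (nat_lit 426443) (nat_lit 19) (.e (nat_lit 114432) (nat_lit 6) .nil)))))) (.g (nat_lit 1) (.e (nat_lit 211675) (nat_lit 0) .nil) .nil)))) (.nd (nat_lit 9) 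
(.lf (nat_lit 515425) (.g (nat_lit 2231) (.e (nat_lit 188452) (nat_lit 23) (.e (nat_lit 212736) (nat_lit 10) (.e (nat_lit 434275) (nat_lit 39) (.e (nat_lit 663584) (nat_lit 12) (.e (nat_lit 164003) (nat_lit 40) (.e (nat_lit 655380) (nat_lit 6) .nil)))))) (.g (nat_lit 1) (.e (nat_lit 210786) (nat_lit 0) .nil) .nil))) 
(.lf (nat_lit 515937) (.g (nat_lit 1042) (.e (nat_lit 196654) (nat_lit 11) (.e (nat_lit 16412) (nat_lit 2) (.e (nat_lit 196653) (nat_lit 11) (.e (nat_lit 16411) (nat_lit 2) .nil)))) (.g (nat_lit 0) (.e (nat_lit 213816) (nat_lit 0) .nil) .nil))))) (.nd (nat_lit 8) (.nd (nat_lit 9) 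
(.lf (nat_lit 515297) (.g (nat_lit 1326) (.e (nat_lit 188446) (nat_lit 21) (.e (nat_lit 164347) (nat_lit 240) (.e (nat_lit 2650) (nat_lit 166) (.e (nat_lit 188420) (nat_lit 0) .nil)))) (.g (nat_lit 0) (.e (nat_lit 210204) (nat_lit 0) .nil) .nil))) 
(.lf (nat_lit 515809) (.g (nat_lit 2307) (.e (nat_lit 196626) (nat_lit 9) (.e (nat_lit 1400) (nat_lit 106) (.e (nat_lit 319533) (nat_lit 16) (.e (nat_lit 286735) (nat_lit 3) (.e (nat_lit 98381) (nat_lit 31) .nil))))) (.g (nat_lit 0) (.e (nat_lit 213415) (nat_lit 0) .nil) .nil)))) (.nd (nat_lit 9) 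
(.lf (nat_lit 515553) (.g (nat_lit 1653) (.e (nat_lit 188453) (nat_lit 24) (.e (nat_lit 229678) (nat_lit 244) (.e (nat_lit 163932) (nat_lit 17) (.e (nat_lit 474880) (nat_lit 4) .nil)))) (.g (nat_lit 0) (.e (nat_lit 211237) (nat_lit 0) .nil) .nil))) 
(.lf (nat_lit 516065) (.g (nat_lit 1592) (.e (nat_lit 196654) (nat_lit 11) (.e (nat_lit 16438) (nat_lit 9) (.e (nat_lit 426482) (nat_lit 27) (.e (nat_lit 336417) (nat_lit 27) .nil)))) (.g (nat_lit 0) (.e (nat_lit 214085) (nat_lit 0) .nil) .nil)))))))) (.nd (nat_lit 5) (.nd (nat_lit 6) (.nd (nat_lit 7) (.nd (nat_lit 8) (.nd (nat_lit 9) 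
(.lf (nat_lit 515089) (.g (nat_lit 1366) (.e (nat_lit 188440) (nat_lit 20) (.e (nat_lit 3289) (nat_lit 201) (.e (nat_lit 565269) (nat_lit 6) (.e (nat_lit 81942) (nat_lit 20) (.e (nat_lit 2390) (nat_lit 156) (.e (nat_lit 819221) (nat_lit 6) .nil)))))) (.g (nat_lit 1) (.e (nat_lit 209052) (nat_lit 0) .nil) .nil))) 
(.lf (nat_lit 515601) (.g (nat_lit 925) (.e (nat_lit 188454) (nat_lit 24) (.e (nat_lit 229665) (nat_lit 240) (.e (nat_lit 2653) (nat_lit 166) (.e (nat_lit 188418) (nat_lit 0) .nil)))) (.g (nat_lit 0) (.e (nat_lit 211355) (nat_lit 0) .nil) .nil)))) (.nd (nat_lit 9) 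
(.lf (nat_lit 515345) (.g (nat_lit 3734) (.e (nat_lit 188450) (nat_lit 23) (.e (nat_lit 204846) (nat_lit 24) (.e (nat_lit 319530) (nat_lit 16) (.e (nat_lit 286732) (nat_lit 2) (.e (nat_lit 90176) (nat_lit 15) .nil))))) (.g (nat_lit 1) (.e (nat_lit 210536) (nat_lit 0) .nil) .nil))) 
(.lf (nat_lit 515857) (.g (nat_lit 1680) (.e (nat_lit 196632) (nat_lit 9) (.e (nat_lit 1170) (nat_lit 87) (.e (nat_lit 57927) (nat_lit 282) (.e (nat_lit 163874) (nat_lit 3) (.e (nat_lit 204872) (nat_lit 30) .nil))))) (.g (nat_lit 0) (.e (nat_lit 213548) (nat_lit 0) .nil) .nil))))) (.nd (nat_lit 8) (.nd (nat_lit 9) 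
(.lf (nat_lit 515217) (.g (nat_lit 3281) (.e (nat_lit 188441) (nat_lit 20) (.e (nat_lit 3469) (nat_lit 217) (.e (nat_lit 696344) (nat_lit 8) (.e (nat_lit 172113) (nat_lit 10) (.e (nat_lit 434203) (nat_lit 18) (.e (nat_lit 6252) (nat_lit 337) (.e (nat_lit 7936) (nat_lit 166) .nil))))))) (.g (nat_lit 1) (.e (nat_lit 209594) (nat_lit 0) .nil) .nil))) 
(.lf (nat_lit 515729) (.g (nat_lit 1046) (.e (nat_lit 204544) (nat_lit 6) (.e (nat_lit 188439) (nat_lit 20) (.e (nat_lit 3579) (nat_lit 223) (.e (nat_lit 745475) (nat_lit 0) (.e (nat_lit 1559) (nat_lit 110) .nil))))) (.g (nat_lit 0) (.e (nat_lit 212964) (nat_lit 0) .nil) .nil)))) (.nd (nat_lit 9) 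
(.lf (nat_lit 515473) (.g (nat_lit 1899) (.e (nat_lit 196352) (nat_lit 23) (.e (nat_lit 204846) (nat_lit 24) (.e (nat_lit 319530) (nat_lit 16) (.e (nat_lit 286733) (nat_lit 2) .nil)))) (.g (nat_lit 0) (.e (nat_lit 211010) (nat_lit 0) .nil) .nil))) 
(.lf (nat_lit 515985) (.g (nat_lit 732) (.e (nat_lit 196654) (nat_lit 11) (.e (nat_lit 16433) (nat_lit 9) (.e (nat_lit 426567) (nat_lit 34) .nil))) (.g (nat_lit 0) (.e (nat_lit 213975) (nat_lit 0) .nil) .nil)))))) (.nd (nat_lit 7) (.nd (nat_lit 8) (.nd (nat_lit 9) 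
(.lf (nat_lit 515153) (.g (nat_lit 2826) (.e (nat_lit 188440) (nat_lit 20) (.e (nat_lit 3469) (nat_lit 217) (.e (nat_lit 696344) (nat_lit 8) (.e (nat_lit 172115) (nat_lit 10) (.e (nat_lit 434286) (nat_lit 42) (.e (nat_lit 696064) (nat_lit 10) .nil)))))) (.g (nat_lit 1) (.e (nat_lit 209330) (nat_lit 0) .nil) .nil))) 
(.lf (nat_lit 515665) (.g (nat_lit 1012) (.e (nat_lit 188455) (nat_lit 24) (.e (nat_lit 229678) (nat_lit 244) (.e (nat_lit 163904) (nat_lit 12) (.e (nat_lit 426233) (nat_lit 9) .nil)))) (.g (nat_lit 0) (.e (nat_lit 211580) (nat_lit 0) .nil) .nil)))) (.nd (nat_lit 9) 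
(.lf (nat_lit 515409) (.g (nat_lit 2995) (.e (nat_lit 188451) (nat_lit 23) (.e (nat_lit 204846) (nat_lit 24) (.e (nat_lit 319534) (nat_lit 16) (.e (nat_lit 286732) (nat_lit 2) (.e (nat_lit 90176) (nat_lit 15) .nil))))) (.g (nat_lit 1) (.e (nat_lit 210727) (nat_lit 0) .nil) .nil))) 
(.lf (nat_lit 515921) (.g (nat_lit 1989) (.e (nat_lit 196653) (nat_lit 11) (.e (nat_lit 16466) (nat_lit 13) (.e (nat_lit 483337) (nat_lit 9) (.e (nat_lit 426107) (nat_lit 1) (.e (nat_lit 164326) (nat_lit 230) .nil))))) (.g (nat_lit 0) (.e (nat_lit 213749) (nat_lit 0) .nil) .nil))))) (.nd (nat_lit 8) (.nd (nat_lit 9) 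
(.lf (nat_lit 515281) (.g (nat_lit 1334) (.e (nat_lit 188446) (nat_lit 21) (.e (nat_lit 164319) (nat_lit 228) (.e (nat_lit 57424) (nat_lit 14) (.e (nat_lit 352280) (nat_lit 20) .nil)))) (.g (nat_lit 0) (.e (nat_lit 210124) (nat_lit 0) .nil) .nil))) 
(.lf (nat_lit 515793) (.g (nat_lit 2020) (.e (nat_lit 196626) (nat_lit 9) (.e (nat_lit 1400) (nat_lit 106) (.e (nat_lit 319532) (nat_lit 16) (.e (nat_lit 286733) (nat_lit 2) (.e (nat_lit 90128) (nat_lit 9) .nil))))) (.g (nat_lit 0) (.e (nat_lit 213399) (nat_lit 0) .nil) .nil)))) (.nd (nat_lit 9) 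
(.lf (nat_lit 515537) (.g (nat_lit 1287) (.e (nat_lit 188453) (nat_lit 24) (.e (nat_lit 229678) (nat_lit 244) (.e (nat_lit 163908) (nat_lit 12) (.e (nat_lit 426211) (nat_lit 9) .nil)))) (.g (nat_lit 0) (.e (nat_lit 211175) (nat_lit 0) .nil) .nil))) 
(.lf (nat_lit 516049) (.g (nat_lit 1862) (.e (nat_lit 196654) (nat_lit 11) (.e (nat_lit 16438) (nat_lit 9) (.e (nat_lit 426131) (nat_lit 3) (.e (nat_lit 204881) (nat_lit 32) (.e (nat_lit 385109) (nat_lit 51) .nil))))) (.g (nat_lit 0) (.e (nat_lit 214062) (nat_lit 0) .nil) .nil))))))) (.nd (nat_lit 6) (.nd (nat_lit 7) (.nd (nat_lit 8) (.nd (nat_lit 9) 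
(.lf (nat_lit 515121) (.g (nat_lit 2851) (.e (nat_lit 188440) (nat_lit 20) (.e (nat_lit 3468) (nat_lit 217) (.e (nat_lit 696343) (nat_lit 8) (.e (nat_lit 172106) (nat_lit 10) (.e (nat_lit 434209) (nat_lit 18) (.e (nat_lit 6272) (nat_lit 337) (.e (nat_lit 2646) (nat_lit 166) .nil))))))) (.g (nat_lit 1) (.e (nat_lit 209210) (nat_lit 0) .nil) .nil))) 
(.lf (nat_lit 515633) (.g (nat_lit 3272) (.e (nat_lit 188455) (nat_lit 24) (.e (nat_lit 229664) (nat_lit 240) (.e (nat_lit 2630) (nat_lit 164) (.e (nat_lit 172120) (nat_lit 12) (.e (nat_lit 475198) (nat_lit 40) (.e (nat_lit 704599) (nat_lit 6) .nil)))))) (.g (nat_lit 1) (.e (nat_lit 211475) (nat_lit 0) .nil) .nil)))) (.nd (nat_lit 9) 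
(.lf (nat_lit 515377) (.g (nat_lit 3287) (.e (nat_lit 188450) (nat_lit 23) (.e (nat_lit 204885) (nat_lit 33) (.e (nat_lit 401450) (nat_lit 12) (.e (nat_lit 475185) (nat_lit 29) (.e (nat_lit 557107) (nat_lit 15) .nil))))) (.g (nat_lit 1) (.e (nat_lit 210667) (nat_lit 0) .nil) .nil))) 
(.lf (nat_lit 515889) (.g (nat_lit 2011) (.e (nat_lit 196653) (nat_lit 11) (.e (nat_lit 16434) (nat_lit 9) (.e (nat_lit 426566) (nat_lit 34) (.e (nat_lit 393253) (nat_lit 18) (.e (nat_lit 164327) (nat_lit 230) .nil))))) (.g (nat_lit 0) (.e (nat_lit 213678) (nat_lit 0) .nil) .nil))))) (.nd (nat_lit 8) (.nd (nat_lit 9) 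
(.lf (nat_lit 515249) (.g (nat_lit 2412) (.e (nat_lit 188444) (nat_lit 21) (.e (nat_lit 164347) (nat_lit 240) (.e (nat_lit 2619) (nat_lit 164) (.e (nat_lit 172118) (nat_lit 12) (.e (nat_lit 475198) (nat_lit 40) (.e (nat_lit 704598) (nat_lit 6) .nil)))))) (.g (nat_lit 1) (.e (nat_lit 209761) (nat_lit 0) .nil) .nil))) 
(.lf (nat_lit 515761) (.g (nat_lit 517) (.e (nat_lit 196624) (nat_lit 9) (.e (nat_lit 375) (nat_lit 32) (.e (nat_lit 426125) (nat_lit 2) .nil))) (.g (nat_lit 0) (.e (nat_lit 213272) (nat_lit 0) .nil) .nil)))) (.nd (nat_lit 9) 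
(.lf (nat_lit 515505) (.g (nat_lit 1495) (.e (nat_lit 188453) (nat_lit 24) (.e (nat_lit 229665) (nat_lit 240) (.e (nat_lit 2651) (nat_lit 166) (.e (nat_lit 188434) (nat_lit 20) .nil)))) (.g (nat_lit 0) (.e (nat_lit 211101) (nat_lit 0) .nil) .nil))) 
(.lf (nat_lit 516017) (.g (nat_lit 1898) (.e (nat_lit 196654) (nat_lit 11) (.e (nat_lit 16436) (nat_lit 9) (.e (nat_lit 426131) (nat_lit 3) (.e (nat_lit 204879) (nat_lit 32) .nil)))) (.g (nat_lit 0) (.e (nat_lit 214019) (nat_lit 0) .nil) .nil)))))) (.nd (nat_lit 7) (.nd (nat_lit 8) (.nd (nat_lit 9) 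
(.lf (nat_lit 515185) (.g (nat_lit 3419) (.e (nat_lit 188441) (nat_lit 20) (.e (nat_lit 3408) (nat_lit 212) (.e (nat_lit 655380) (nat_lit 6) (.e (nat_lit 188455) (nat_lit 24) (.e (nat_lit 229663) (nat_lit 240) (.e (nat_lit 2653) (nat_lit 166) .nil)))))) (.g (nat_lit 1) (.e (nat_lit 209454) (nat_lit 0) .nil) .nil))) 
(.lf (nat_lit 515697) (.g (nat_lit 2466) (.e (nat_lit 188455) (nat_lit 24) (.e (nat_lit 229708) (nat_lit 256) (.e (nat_lit 57400) (nat_lit 10) (.e (nat_lit 319533) (nat_lit 16) (.e (nat_lit 286724) (nat_lit 0) (.e (nat_lit 1927) (nat_lit 131) (.e (nat_lit 614420) (nat_lit 6) .nil))))))) (.g (nat_lit 1) (.e (nat_lit 211743) (nat_lit 0) .nil) .nil)))) (.nd (nat_lit 9) 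
(.lf (nat_lit 515441) (.g (nat_lit 970) (.e (nat_lit 188452) (nat_lit 23) (.e (nat_lit 204846) (nat_lit 24) (.e (nat_lit 319499) (nat_lit 10) .nil))) (.g (nat_lit 0) (.e (nat_lit 210852) (nat_lit 0) .nil) .nil))) 
(.lf (nat_lit 515953) (.g (nat_lit 2093) (.e (nat_lit 196654) (nat_lit 11) (.e (nat_lit 16416) (nat_lit 3) (.e (nat_lit 204813) (nat_lit 9) (.e (nat_lit 426116) (nat_lit 2) (.e (nat_lit 196653) (nat_lit 11) (.e (nat_lit 16410) (nat_lit 2) .nil)))))) (.g (nat_lit 1) (.e (nat_lit 213904) (nat_lit 0) .nil) .nil))))) (.nd (nat_lit 8) (.nd (nat_lit 9) 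
(.lf (nat_lit 515313) (.g (nat_lit 2245) (.e (nat_lit 188449) (nat_lit 22) (.e (nat_lit 196656) (nat_lit 11) (.e (nat_lit 16392) (nat_lit 0) (.e (nat_lit 2527) (nat_lit 157) .nil)))) (.g (nat_lit 0) (.e (nat_lit 210420) (nat_lit 0) .nil) .nil))) 
(.lf (nat_lit 515825) (.g (nat_lit 1800) (.e (nat_lit 196627) (nat_lit 9) (.e (nat_lit 1400) (nat_lit 106) (.e (nat_lit 319534) (nat_lit 16) (.e (nat_lit 286734) (nat_lit 3) .nil)))) (.g (nat_lit 0) (.e (nat_lit 213436) (nat_lit 0) .nil) .nil)))) (.nd (nat_lit 9) 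
(.lf (nat_lit 515569) (.g (nat_lit 1708) (.e (nat_lit 188453) (nat_lit 24) (.e (nat_lit 229681) (nat_lit 244) (.e (nat_lit 163915) (nat_lit 12) (.e (nat_lit 426188) (nat_lit 9) (.e (nat_lit 426444) (nat_lit 19) (.e (nat_lit 114432) (nat_lit 6) .nil)))))) (.g (nat_lit 1) (.e (nat_lit 211293) (nat_lit 0) .nil) .nil))) 
(.lf (nat_lit 516081) (.g (nat_lit 945) (.e (nat_lit 196654) (nat_lit 11) (.e (nat_lit 16463) (nat_lit 13) (.e (nat_lit 483337) (nat_lit 9) (.e (nat_lit 426108) (nat_lit 1) .nil)))) (.g (nat_lit 0) (.e (nat_lit 214198) (nat_lit 0) .nil) .nil))))))))) (.nd (nat_lit 4) (.nd (nat_lit 5) (.nd (nat_lit 6) (.nd (nat_lit 7) (.nd (nat_lit 8) (.nd (nat_lit 9) 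
(.lf (nat_lit 515081) (.g (nat_lit 4646) (.e (nat_lit 188440) (nat_lit 20) (.e (nat_lit 3307) (nat_lit 202) (.e (nat_lit 573477) (nat_lit 12) (.e (nat_lit 57575) (nat_lit 55) (.e (nat_lit 778466) (nat_lit 11) (.e (nat_lit 24603) (nat_lit 2) (.e (nat_lit 90176) (nat_lit 15) .nil))))))) (.g (nat_lit 1) (.e (nat_lit 209036) (nat_lit 0) .nil) .nil))) 
(.lf (nat_lit 515593) (.g (nat_lit 1581) (.e (nat_lit 188454) (nat_lit 24) (.e (nat_lit 229665) (nat_lit 240) (.e (nat_lit 2651) (nat_lit 166) (.e (nat_lit 188420) (nat_lit 0) (.e (nat_lit 2056) (nat_lit 142) .nil))))) (.g (nat_lit 0) (.e (nat_lit 211345) (nat_lit 0) .nil) .nil)))) (.nd (nat_lit 9) 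
(.lf (nat_lit 515337) (.g (nat_lit 974) (.e (nat_lit 188450) (nat_lit 23) (.e (nat_lit 204846) (nat_lit 24) (.e (nat_lit 319512) (nat_lit 10) .nil))) (.g (nat_lit 0) (.e (nat_lit 210523) (nat_lit 0) .nil) .nil))) 
(.lf (nat_lit 515849) (.g (nat_lit 306) (.e (nat_lit 196630) (nat_lit 9) (.e (nat_lit 1669) (nat_lit 116) (.e (nat_lit 401454) (nat_lit 12) .nil))) (.g (nat_lit 0) (.e (nat_lit 213523) (nat_lit 0) .nil) .nil))))) (.nd (nat_lit 8) (.nd (nat_lit 9) 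
(.lf (nat_lit 515209) (.g (nat_lit 2832) (.e (nat_lit 188441) (nat_lit 20) (.e (nat_lit 3469) (nat_lit 217) (.e (nat_lit 696344) (nat_lit 8) (.e (nat_lit 172106) (nat_lit 10) (.e (nat_lit 434209) (nat_lit 18) (.e (nat_lit 6272) (nat_lit 337) (.e (nat_lit 2646) (nat_lit 166) .nil))))))) (.g (nat_lit 1) (.e (nat_lit 209586) (nat_lit 0) .nil) .nil))) 
(.lf (nat_lit 515721) (.g (nat_lit 365) (.e (nat_lit 204544) (nat_lit 5) (.e (nat_lit 180288) (nat_lit 45) (.e (nat_lit 2580) (nat_lit 161) (.e (nat_lit 40965) (nat_lit 0) (.e (nat_lit 1568) (nat_lit 110) .nil))))) (.g (nat_lit 0) (.e (nat_lit 212936) (nat_lit 0) .nil) .nil)))) (.nd (nat_lit 9) 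
(.lf (nat_lit 515465) (.g (nat_lit 3598) (.e (nat_lit 188452) (nat_lit 23) (.e (nat_lit 204884) (nat_lit 33) (.e (nat_lit 401454) (nat_lit 12) (.e (nat_lit 475185) (nat_lit 29) (.e (nat_lit 557108) (nat_lit 15) .nil))))) (.g (nat_lit 1) (.e (nat_lit 210978) (nat_lit 0) .nil) .nil))) 
(.lf (nat_lit 515977) (.g (nat_lit 289) (.e (nat_lit 196654) (nat_lit 11) (.e (nat_lit 16417) (nat_lit 3) (.e (nat_lit 204835) (nat_lit 19) .nil))) (.g (nat_lit 0) (.e (nat_lit 213961) (nat_lit 0) .nil) .nil)))))) (.nd (nat_lit 7) (.nd (nat_lit 8) (.nd (nat_lit 9) 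
(.lf (nat_lit 515145) (.g (nat_lit 3696) (.e (nat_lit 188440) (nat_lit 20) (.e (nat_lit 3469) (nat_lit 217) (.e (nat_lit 696344) (nat_lit 8) (.e (nat_lit 172113) (nat_lit 10) (.e (nat_lit 434208) (nat_lit 18) (.e (nat_lit 6252) (nat_lit 337) (.e (nat_lit 7936) (nat_lit 166) .nil))))))) (.g (nat_lit 1) (.e (nat_lit 209322) (nat_lit 0) .nil) .nil))) 
(.lf (nat_lit 515657) (.g (nat_lit 2014) (.e (nat_lit 188455) (nat_lit 24) (.e (nat_lit 229677) (nat_lit 244) (.e (nat_lit 163903) (nat_lit 12) (.e (nat_lit 426320) (nat_lit 12) (.e (nat_lit 475198) (nat_lit 40) .nil))))) (.g (nat_lit 0) (.e (nat_lit 211541) (nat_lit 0) .nil) .nil)))) (.nd (nat_lit 9) 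
(.lf (nat_lit 515401) (.g (nat_lit 1429) (.e (nat_lit 188451) (nat_lit 23) (.e (nat_lit 204846) (nat_lit 24) (.e (nat_lit 319533) (nat_lit 16) (.e (nat_lit 286725) (nat_lit 0) .nil)))) (.g (nat_lit 0) (.e (nat_lit 210715) (nat_lit 0) .nil) .nil))) 
(.lf (nat_lit 515913) (.g (nat_lit 2029) (.e (nat_lit 196653) (nat_lit 11) (.e (nat_lit 16463) (nat_lit 13) (.e (nat_lit 483341) (nat_lit 9) (.e (nat_lit 426108) (nat_lit 1) .nil)))) (.g (nat_lit 0) (.e (nat_lit 213741) (nat_lit 0) .nil) .nil))))) (.nd (nat_lit 8) (.nd (nat_lit 9) 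
(.lf (nat_lit 515273) (.g (nat_lit 2128) (.e (nat_lit 188445) (nat_lit 21) (.e (nat_lit 164347) (nat_lit 240) (.e (nat_lit 2650) (nat_lit 166) (.e (nat_lit 188434) (nat_lit 20) (.e (nat_lit 3409) (nat_lit 212) (.e (nat_lit 655380) (nat_lit 6) .nil)))))) (.g (nat_lit 1) (.e (nat_lit 209927) (nat_lit 0) .nil) .nil))) 
(.lf (nat_lit 515785) (.g (nat_lit 1735) (.e (nat_lit 196626) (nat_lit 9) (.e (nat_lit 1400) (nat_lit 106) (.e (nat_lit 319528) (nat_lit 16) (.e (nat_lit 286735) (nat_lit 3) (.e (nat_lit 98381) (nat_lit 31) .nil))))) (.g (nat_lit 0) (.e (nat_lit 213391) (nat_lit 0) .nil) .nil)))) (.nd (nat_lit 9) 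
(.lf (nat_lit 515529) (.g (nat_lit 2351) (.e (nat_lit 188453) (nat_lit 24) (.e (nat_lit 229666) (nat_lit 240) (.e (nat_lit 2653) (nat_lit 166) (.e (nat_lit 188440) (nat_lit 20) (.e (nat_lit 3408) (nat_lit 212) (.e (nat_lit 655380) (nat_lit 6) .nil)))))) (.g (nat_lit 1) (.e (nat_lit 211154) (nat_lit 0) .nil) .nil))) 
(.lf (nat_lit 516041) (.g (nat_lit 1654) (.e (nat_lit 196654) (nat_lit 11) (.e (nat_lit 16437) (nat_lit 9) (.e (nat_lit 426568) (nat_lit 34) (.e (nat_lit 393253) (nat_lit 18) (.e (nat_lit 164325) (nat_lit 230) .nil))))) (.g (nat_lit 0) (.e (nat_lit 214054) (nat_lit 0) .nil) .nil))))))) (.nd (nat_lit 6) (.nd (nat_lit 7) (.nd (nat_lit 8) (.nd (nat_lit 9) 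
(.lf (nat_lit 515113) (.g (nat_lit 2902) (.e (nat_lit 188440) (nat_lit 20) (.e (nat_lit 3409) (nat_lit 212) (.e (nat_lit 655378) (nat_lit 4) (.e (nat_lit 172120) (nat_lit 12) (.e (nat_lit 475197) (nat_lit 40) (.e (nat_lit 704599) (nat_lit 6) .nil)))))) (.g (nat_lit 1) (.e (nat_lit 209168) (nat_lit 0) .nil) .nil))) 
(.lf (nat_lit 515625) (.g (nat_lit 1691) (.e (nat_lit 188455) (nat_lit 24) (.e (nat_lit 229663) (nat_lit 240) (.e (nat_lit 2651) (nat_lit 166) (.e (nat_lit 188418) (nat_lit 0) .nil)))) (.g (nat_lit 0) (.e (nat_lit 211436) (nat_lit 0) .nil) .nil)))) (.nd (nat_lit 9) 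
(.lf (nat_lit 515369) (.g (nat_lit 2452) (.e (nat_lit 188450) (nat_lit 23) (.e (nat_lit 204883) (nat_lit 33) (.e (nat_lit 401453) (nat_lit 12) (.e (nat_lit 475184) (nat_lit 29) (.e (nat_lit 557107) (nat_lit 15) .nil))))) (.g (nat_lit 1) (.e (nat_lit 210641) (nat_lit 0) .nil) .nil))) 
(.lf (nat_lit 515881) (.g (nat_lit 549) (.e (nat_lit 196653) (nat_lit 11) (.e (nat_lit 16388) (nat_lit 0) (.e (nat_lit 2528) (nat_lit 157) .nil))) (.g (nat_lit 0) (.e (nat_lit 213640) (nat_lit 0) .nil) .nil))))) (.nd (nat_lit 8) (.nd (nat_lit 9) 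
(.lf (nat_lit 515241) (.g (nat_lit 1421) (.e (nat_lit 196352) (nat_lit 20) (.e (nat_lit 3253) (nat_lit 197) (.e (nat_lit 532523) (nat_lit 7) (.e (nat_lit 327424) (nat_lit 16) .nil)))) (.g (nat_lit 0) (.e (nat_lit 209625) (nat_lit 0) .nil) .nil))) 
(.lf (nat_lit 515753) (.g (nat_lit 1615) (.e (nat_lit 196623) (nat_lit 9) (.e (nat_lit 392) (nat_lit 32) (.e (nat_lit 426188) (nat_lit 9) (.e (nat_lit 426566) (nat_lit 34) (.e (nat_lit 393254) (nat_lit 18) .nil))))) (.g (nat_lit 0) (.e (nat_lit 213253) (nat_lit 0) .nil) .nil)))) (.nd (nat_lit 9) 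
(.lf (nat_lit 515497) (.g (nat_lit 533) (.e (nat_lit 188453) (nat_lit 24) (.e (nat_lit 229665) (nat_lit 240) (.e (nat_lit 2622) (nat_lit 164) .nil))) (.g (nat_lit 0) (.e (nat_lit 211085) (nat_lit 0) .nil) .nil))) 
(.lf (nat_lit 516009) (.g (nat_lit 1764) (.e (nat_lit 196654) (nat_lit 11) (.e (nat_lit 16436) (nat_lit 9) (.e (nat_lit 426131) (nat_lit 3) (.e (nat_lit 204852) (nat_lit 26) (.e (nat_lit 336328) (nat_lit 19) .nil))))) (.g (nat_lit 0) (.e (nat_lit 214009) (nat_lit 0) .nil) .nil)))))) (.nd (nat_lit 7) (.nd (nat_lit 8) (.nd (nat_lit 9) 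
(.lf (nat_lit 515177) (.g (nat_lit 1691) (.e (nat_lit 188441) (nat_lit 20) (.e (nat_lit 3406) (nat_lit 212) (.e (nat_lit 655380) (nat_lit 6) (.e (nat_lit 188453) (nat_lit 24) (.e (nat_lit 229666) (nat_lit 240) (.e (nat_lit 2653) (nat_lit 166) .nil)))))) (.g (nat_lit 1) (.e (nat_lit 209410) (nat_lit 0) .nil) .nil))) 
(.lf (nat_lit 515689) (.g (nat_lit 1511) (.e (nat_lit 188455) (nat_lit 24) (.e (nat_lit 229680) (nat_lit 244) (.e (nat_lit 163932) (nat_lit 17) (.e (nat_lit 466947) (nat_lit 0) (.e (nat_lit 2057) (nat_lit 142) (.e (nat_lit 704598) (nat_lit 6) .nil)))))) (.g (nat_lit 1) (.e (nat_lit 211713) (nat_lit 0) .nil) .nil)))) (.nd (nat_lit 9) 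
(.lf (nat_lit 515433) (.g (nat_lit 540) (.e (nat_lit 188452) (nat_lit 23) (.e (nat_lit 204845) (nat_lit 24) (.e (nat_lit 319500) (nat_lit 10) .nil))) (.g (nat_lit 0) (.e (nat_lit 210837) (nat_lit 0) .nil) .nil))) 
(.lf (nat_lit 515945) (.g (nat_lit 1875) (.e (nat_lit 196654) (nat_lit 11) (.e (nat_lit 16416) (nat_lit 3) (.e (nat_lit 204809) (nat_lit 9) (.e (nat_lit 426114) (nat_lit 2) (.e (nat_lit 196654) (nat_lit 11) (.e (nat_lit 16411) (nat_lit 2) .nil)))))) (.g (nat_lit 1) (.e (nat_lit 213885) (nat_lit 0) .nil) .nil))))) (.nd (nat_lit 8) (.nd (nat_lit 9) 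
(.lf (nat_lit 515305) (.g (nat_lit 2247) (.e (nat_lit 188448) (nat_lit 22) (.e (nat_lit 196656) (nat_lit 11) (.e (nat_lit 16392) (nat_lit 0) (.e (nat_lit 2527) (nat_lit 157) .nil)))) (.g (nat_lit 0) (.e (nat_lit 210313) (nat_lit 0) .nil) .nil))) 
(.lf (nat_lit 515817) (.g (nat_lit 2557) (.e (nat_lit 196626) (nat_lit 9) (.e (nat_lit 1400) (nat_lit 106) (.e (nat_lit 319534) (nat_lit 16) (.e (nat_lit 286733) (nat_lit 2) (.e (nat_lit 90134) (nat_lit 9) .nil))))) (.g (nat_lit 0) (.e (nat_lit 213425) (nat_lit 0) .nil) .nil)))) (.nd (nat_lit 9) 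
(.lf (nat_lit 515561) (.g (nat_lit 2302) (.e (nat_lit 188453) (nat_lit 24) (.e (nat_lit 229680) (nat_lit 244) (.e (nat_lit 163919) (nat_lit 14) (.e (nat_lit 442371) (nat_lit 0) (.e (nat_lit 2148) (nat_lit 142) (.e (nat_lit 704597) (nat_lit 6) .nil)))))) (.g (nat_lit 1) (.e (nat_lit 211256) (nat_lit 0) .nil) .nil))) 
(.lf (nat_lit 516073) (.g (nat_lit 2822) (.e (nat_lit 196654) (nat_lit 11) (.e (nat_lit 16438) (nat_lit 9) (.e (nat_lit 426566) (nat_lit 34) (.e (nat_lit 393254) (nat_lit 18) (.e (nat_lit 164327) (nat_lit 230) .nil))))) (.g (nat_lit 0) (.e (nat_lit 214094) (nat_lit 0) .nil) .nil)))))))) (.nd (nat_lit 5) (.nd (nat_lit 6) (.nd (nat_lit 7) (.nd (nat_lit 8) (.nd (nat_lit 9) 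
(.lf (nat_lit 515097) (.g (nat_lit 1155) (.e (nat_lit 188440) (nat_lit 20) (.e (nat_lit 3406) (nat_lit 212) (.e (nat_lit 655378) (nat_lit 4) (.e (nat_lit 172112) (nat_lit 10) (.e (nat_lit 434272) (nat_lit 38) .nil))))) (.g (nat_lit 0) (.e (nat_lit 209100) (nat_lit 0) .nil) .nil))) 
(.lf (nat_lit 515609) (.g (nat_lit 1605) (.e (nat_lit 188454) (nat_lit 24) (.e (nat_lit 229666) (nat_lit 240) (.e (nat_lit 2630) (nat_lit 164) (.e (nat_lit 172120) (nat_lit 12) (.e (nat_lit 475199) (nat_lit 40) .nil))))) (.g (nat_lit 0) (.e (nat_lit 211363) (nat_lit 0) .nil) .nil)))) (.nd (nat_lit 9) 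
(.lf (nat_lit 515353) (.g (nat_lit 1736) (.e (nat_lit 188450) (nat_lit 23) (.e (nat_lit 204846) (nat_lit 24) (.e (nat_lit 319533) (nat_lit 16) (.e (nat_lit 286733) (nat_lit 2) .nil)))) (.g (nat_lit 0) (.e (nat_lit 210552) (nat_lit 0) .nil) .nil))) 
(.lf (nat_lit 515865) (.g (nat_lit 1128) (.e (nat_lit 196652) (nat_lit 11) (.e (nat_lit 16433) (nat_lit 9) (.e (nat_lit 426568) (nat_lit 34) (.e (nat_lit 393253) (nat_lit 18) .nil)))) (.g (nat_lit 0) (.e (nat_lit 213581) (nat_lit 0) .nil) .nil))))) (.nd (nat_lit 8) (.nd (nat_lit 9) 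
(.lf (nat_lit 515225) (.g (nat_lit 2926) (.e (nat_lit 188441) (nat_lit 20) (.e (nat_lit 3469) (nat_lit 217) (.e (nat_lit 696344) (nat_lit 8) (.e (nat_lit 172113) (nat_lit 10) (.e (nat_lit 434208) (nat_lit 18) (.e (nat_lit 6252) (nat_lit 337) (.e (nat_lit 2653) (nat_lit 166) .nil))))))) (.g (nat_lit 1) (.e (nat_lit 209602) (nat_lit 0) .nil) .nil))) 
(.lf (nat_lit 515737) (.g (nat_lit 774) (.e (nat_lit 204544) (nat_lit 6) (.e (nat_lit 188441) (nat_lit 20) (.e (nat_lit 3578) (nat_lit 223) (.e (nat_lit 745475) (nat_lit 0) (.e (nat_lit 1559) (nat_lit 110) .nil))))) (.g (nat_lit 0) (.e (nat_lit 212977) (nat_lit 0) .nil) .nil)))) (.nd (nat_lit 9) 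
(.lf (nat_lit 515481) (.g (nat_lit 2367) (.e (nat_lit 188453) (nat_lit 24) (.e (nat_lit 229663) (nat_lit 240) (.e (nat_lit 2621) (nat_lit 164) (.e (nat_lit 172120) (nat_lit 12) (.e (nat_lit 475197) (nat_lit 40) (.e (nat_lit 704598) (nat_lit 6) .nil)))))) (.g (nat_lit 1) (.e (nat_lit 211025) (nat_lit 0) .nil) .nil))) 
(.lf (nat_lit 515993) (.g (nat_lit 3270) (.e (nat_lit 196654) (nat_lit 11) (.e (nat_lit 16433) (nat_lit 9) (.e (nat_lit 426568) (nat_lit 34) (.e (nat_lit 393253) (nat_lit 18) (.e (nat_lit 164331) (nat_lit 230) (.e (nat_lit 163866) (nat_lit 2) .nil)))))) (.g (nat_lit 1) (.e (nat_lit 213987) (nat_lit 0) .nil) .nil)))))) (.nd (nat_lit 7) (.nd (nat_lit 8) (.nd (nat_lit 9) 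
(.lf (nat_lit 515161) (.g (nat_lit 3728) (.e (nat_lit 188441) (nat_lit 20) (.e (nat_lit 3270) (nat_lit 199) (.e (nat_lit 548913) (nat_lit 18) (.e (nat_lit 172120) (nat_lit 12) (.e (nat_lit 475184) (nat_lit 29) .nil))))) (.g (nat_lit 0) (.e (nat_lit 209347) (nat_lit 0) .nil) .nil))) 
(.lf (nat_lit 515673) (.g (nat_lit 596) (.e (nat_lit 188455) (nat_lit 24) (.e (nat_lit 229678) (nat_lit 244) (.e (nat_lit 163930) (nat_lit 17) .nil))) (.g (nat_lit 0) (.e (nat_lit 211648) (nat_lit 0) .nil) .nil)))) (.nd (nat_lit 9) 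
(.lf (nat_lit 515417) (.g (nat_lit 2069) (.e (nat_lit 188451) (nat_lit 23) (.e (nat_lit 204863) (nat_lit 27) (.e (nat_lit 344156) (nat_lit 36) (.e (nat_lit 638986) (nat_lit 5) .nil)))) (.g (nat_lit 0) (.e (nat_lit 210753) (nat_lit 0) .nil) .nil))) 
(.lf (nat_lit 515929) (.g (nat_lit 2175) (.e (nat_lit 196653) (nat_lit 11) (.e (nat_lit 16470) (nat_lit 14) (.e (nat_lit 491540) (nat_lit 3) .nil))) (.g (nat_lit 0) (.e (nat_lit 213757) (nat_lit 0) .nil) .nil))))) (.nd (nat_lit 8) (.nd (nat_lit 9) 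
(.lf (nat_lit 515289) (.g (nat_lit 957) (.e (nat_lit 188446) (nat_lit 21) (.e (nat_lit 164345) (nat_lit 240) (.e (nat_lit 2650) (nat_lit 166) (.e (nat_lit 188419) (nat_lit 0) .nil)))) (.g (nat_lit 0) (.e (nat_lit 210150) (nat_lit 0) .nil) .nil))) 
(.lf (nat_lit 515801) (.g (nat_lit 2439) (.e (nat_lit 196626) (nat_lit 9) (.e (nat_lit 1400) (nat_lit 106) (.e (nat_lit 319533) (nat_lit 16) (.e (nat_lit 286733) (nat_lit 2) (.e (nat_lit 90128) (nat_lit 9) .nil))))) (.g (nat_lit 0) (.e (nat_lit 213407) (nat_lit 0) .nil) .nil)))) (.nd (nat_lit 9) 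
(.lf (nat_lit 515545) (.g (nat_lit 505) (.e (nat_lit 188453) (nat_lit 24) (.e (nat_lit 229678) (nat_lit 244) (.e (nat_lit 163919) (nat_lit 14) .nil))) (.g (nat_lit 0) (.e (nat_lit 211186) (nat_lit 0) .nil) .nil))) 
(.lf (nat_lit 516057) (.g (nat_lit 2231) (.e (nat_lit 196654) (nat_lit 11) (.e (nat_lit 16438) (nat_lit 9) (.e (nat_lit 426482) (nat_lit 27) (.e (nat_lit 336386) (nat_lit 27) (.e (nat_lit 426108) (nat_lit 1) .nil))))) (.g (nat_lit 0) (.e (nat_lit 214075) (nat_lit 0) .nil) .nil))))))) (.nd (nat_lit 6) (.nd (nat_lit 7) (.nd (nat_lit 8) (.nd (nat_lit 9) 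
(.lf (nat_lit 515129) (.g (nat_lit 2625) (.e (nat_lit 188440) (nat_lit 20) (.e (nat_lit 3469) (nat_lit 217) (.e (nat_lit 696344) (nat_lit 8) (.e (nat_lit 172106) (nat_lit 10) (.e (nat_lit 434202) (nat_lit 18) (.e (nat_lit 6254) (nat_lit 337) (.e (nat_lit 7936) (nat_lit 166) .nil))))))) (.g (nat_lit 1) (.e (nat_lit 209306) (nat_lit 0) .nil) .nil))) 
(.lf (nat_lit 515641) (.g (nat_lit 2321) (.e (nat_lit 188455) (nat_lit 24) (.e (nat_lit 229665) (nat_lit 240) (.e (nat_lit 2630) (nat_lit 164) (.e (nat_lit 172118) (nat_lit 12) (.e (nat_lit 475198) (nat_lit 40) (.e (nat_lit 704598) (nat_lit 6) .nil)))))) (.g (nat_lit 1) (.e (nat_lit 211495) (nat_lit 0) .nil) .nil)))) (.nd (nat_lit 9) 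
(.lf (nat_lit 515385) (.g (nat_lit 447) (.e (nat_lit 188451) (nat_lit 23) (.e (nat_lit 204809) (nat_lit 9) (.e (nat_lit 426107) (nat_lit 1) .nil))) (.g (nat_lit 0) (.e (nat_lit 210676) (nat_lit 0) .nil) .nil))) 
(.lf (nat_lit 515897) (.g (nat_lit 621) (.e (nat_lit 196653) (nat_lit 11) (.e (nat_lit 16438) (nat_lit 9) (.e (nat_lit 426131) (nat_lit 3) .nil))) (.g (nat_lit 0) (.e (nat_lit 213695) (nat_lit 0) .nil) .nil))))) (.nd (nat_lit 8) (.nd (nat_lit 9) 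
(.lf (nat_lit 515257) (.g (nat_lit 1352) (.e (nat_lit 188444) (nat_lit 21) (.e (nat_lit 164347) (nat_lit 240) (.e (nat_lit 2650) (nat_lit 166) (.e (nat_lit 188431) (nat_lit 20) .nil)))) (.g (nat_lit 0) (.e (nat_lit 209791) (nat_lit 0) .nil) .nil))) 
(.lf (nat_lit 515769) (.g (nat_lit 457) (.e (nat_lit 196624) (nat_lit 9) (.e (nat_lit 411) (nat_lit 32) (.e (nat_lit 426212) (nat_lit 9) .nil))) (.g (nat_lit 0) (.e (nat_lit 213292) (nat_lit 0) .nil) .nil)))) (.nd (nat_lit 9) 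
(.lf (nat_lit 515513) (.g (nat_lit 2020) (.e (nat_lit 188453) (nat_lit 24) (.e (nat_lit 229665) (nat_lit 240) (.e (nat_lit 2725) (nat_lit 172) (.e (nat_lit 237601) (nat_lit 9) (.e (nat_lit 426444) (nat_lit 19) (.e (nat_lit 114432) (nat_lit 6) .nil)))))) (.g (nat_lit 1) (.e (nat_lit 211132) (nat_lit 0) .nil) .nil))) 
(.lf (nat_lit 516025) (.g (nat_lit 1600) (.e (nat_lit 196654) (nat_lit 11) (.e (nat_lit 16436) (nat_lit 9) (.e (nat_lit 426131) (nat_lit 3) (.e (nat_lit 204882) (nat_lit 32) (.e (nat_lit 385108) (nat_lit 51) .nil))))) (.g (nat_lit 0) (.e (nat_lit 214027) (nat_lit 0) .nil) .nil)))))) (.nd (nat_lit 7) (.nd (nat_lit 8) (.nd (nat_lit 9) 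
(.lf (nat_lit 515193) (.g (nat_lit 3974) (.e (nat_lit 188441) (nat_lit 20) (.e (nat_lit 3409) (nat_lit 212) (.e (nat_lit 655378) (nat_lit 4) (.e (nat_lit 172106) (nat_lit 10) (.e (nat_lit 434209) (nat_lit 18) (.e (nat_lit 5548) (nat_lit 306) (.e (nat_lit 2648) (nat_lit 166) .nil))))))) (.g (nat_lit 1) (.e (nat_lit 209485) (nat_lit 0) .nil) .nil))) 
(.lf (nat_lit 515705) (.g (nat_lit 806) (.e (nat_lit 204544) (nat_lit 2) (.e (nat_lit 24617) (nat_lit 7) (.e (nat_lit 319496) (nat_lit 10) (.e (nat_lit 804) (nat_lit 67) .nil)))) (.g (nat_lit 0) (.e (nat_lit 212545) (nat_lit 0) .nil) .nil)))) (.nd (nat_lit 9) 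
(.lf (nat_lit 515449) (.g (nat_lit 1298) (.e (nat_lit 188452) (nat_lit 23) (.e (nat_lit 204846) (nat_lit 24) (.e (nat_lit 319535) (nat_lit 17) (.e (nat_lit 294921) (nat_lit 0) .nil)))) (.g (nat_lit 0) (.e (nat_lit 210886) (nat_lit 0) .nil) .nil))) 
(.lf (nat_lit 515961) (.g (nat_lit 1215) (.e (nat_lit 196654) (nat_lit 11) (.e (nat_lit 16416) (nat_lit 3) (.e (nat_lit 204817) (nat_lit 17) .nil))) (.g (nat_lit 0) (.e (nat_lit 213918) (nat_lit 0) .nil) .nil))))) (.nd (nat_lit 8) (.nd (nat_lit 9) 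
(.lf (nat_lit 515321) (.g (nat_lit 781) (.e (nat_lit 188450) (nat_lit 23) (.e (nat_lit 204813) (nat_lit 9) (.e (nat_lit 433920) (nat_lit 20) .nil))) (.g (nat_lit 0) (.e (nat_lit 210452) (nat_lit 0) .nil) .nil))) 
(.lf (nat_lit 515833) (.g (nat_lit 1831) (.e (nat_lit 196630) (nat_lit 9) (.e (nat_lit 202) (nat_lit 17) (.e (nat_lit 253992) (nat_lit 11) (.e (nat_lit 16412) (nat_lit 2) (.e (nat_lit 196668) (nat_lit 14) .nil))))) (.g (nat_lit 0) (.e (nat_lit 213485) (nat_lit 0) .nil) .nil)))) (.nd (nat_lit 9) 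
(.lf (nat_lit 515577) (.g (nat_lit 1586) (.e (nat_lit 188454) (nat_lit 24) (.e (nat_lit 229663) (nat_lit 240) (.e (nat_lit 2622) (nat_lit 164) (.e (nat_lit 172119) (nat_lit 12) (.e (nat_lit 475199) (nat_lit 40) .nil))))) (.g (nat_lit 0) (.e (nat_lit 211316) (nat_lit 0) .nil) .nil))) 
(.lf (nat_lit 516089) (.g (nat_lit 1863) (.e (nat_lit 196654) (nat_lit 11) (.e (nat_lit 16463) (nat_lit 13) (.e (nat_lit 483341) (nat_lit 9) (.e (nat_lit 426028) (nat_lit 0) .nil)))) (.g (nat_lit 0) (.e (nat_lit 214208) (nat_lit 0) .nil) .nil)))))))))) (.nd (nat_lit 3) (.nd (nat_lit 4) (.nd (nat_lit 5) (.nd (nat_lit 6) (.nd (nat_lit 7) (.nd (nat_lit 8) (.nd (nat_lit 9) 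
(.lf (nat_lit 515077) (.g (nat_lit 3685) (.e (nat_lit 188440) (nat_lit 20) (.e (nat_lit 3307) (nat_lit 202) (.e (nat_lit 573475) (nat_lit 12) (.e (nat_lit 57574) (nat_lit 55) (.e (nat_lit 778466) (nat_lit 11) (.e (nat_lit 24603) (nat_lit 2) (.e (nat_lit 90175) (nat_lit 15) .nil))))))) (.g (nat_lit 1) (.e (nat_lit 209032) (nat_lit 0) .nil) .nil))) 
(.lf (nat_lit 515589) (.g (nat_lit 1336) (.e (nat_lit 188454) (nat_lit 24) (.e (nat_lit 229663) (nat_lit 240) (.e (nat_lit 2653) (nat_lit 166) (.e (nat_lit 188440) (nat_lit 20) .nil)))) (.g (nat_lit 0) (.e (nat_lit 211336) (nat_lit 0) .nil) .nil)))) (.nd (nat_lit 9) 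
(.lf (nat_lit 515333) (.g (nat_lit 1940) (.e (nat_lit 188450) (nat_lit 23) (.e (nat_lit 204846) (nat_lit 24) (.e (nat_lit 319504) (nat_lit 10) (.e (nat_lit 5351) (nat_lit 298) .nil)))) (.g (nat_lit 0) (.e (nat_lit 210514) (nat_lit 0) .nil) .nil))) 
(.lf (nat_lit 515845) (.g (nat_lit 3886) (.e (nat_lit 196630) (nat_lit 9) (.e (nat_lit 1667) (nat_lit 116) (.e (nat_lit 401451) (nat_lit 12) (.e (nat_lit 475185) (nat_lit 29) (.e (nat_lit 557101) (nat_lit 13) .nil))))) (.g (nat_lit 0) (.e (nat_lit 213518) (nat_lit 0) .nil) .nil))))) (.nd (nat_lit 8) (.nd (nat_lit 9) 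
(.lf (nat_lit 515205) (.g (nat_lit 1613) (.e (nat_lit 188441) (nat_lit 20) (.e (nat_lit 3469) (nat_lit 217) (.e (nat_lit 696344) (nat_lit 8) (.e (nat_lit 172105) (nat_lit 10) (.e (nat_lit 434286) (nat_lit 42) .nil))))) (.g (nat_lit 0) (.e (nat_lit 209582) (nat_lit 0) .nil) .nil))) 
(.lf (nat_lit 515717) (.g (nat_lit 2520) (.e (nat_lit 204544) (nat_lit 3) (.e (nat_lit 163843) (nat_lit 0) (.e (nat_lit 6421) (nat_lit 341) (.e (nat_lit 163941) (nat_lit 19) (.e (nat_lit 483341) (nat_lit 9) .nil))))) (.g (nat_lit 0) (.e (nat_lit 212626) (nat_lit 0) .nil) .nil)))) (.nd (nat_lit 9) 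
(.lf (nat_lit 515461) (.g (nat_lit 2080) (.e (nat_lit 188452) (nat_lit 23) (.e (nat_lit 204884) (nat_lit 33) (.e (nat_lit 401451) (nat_lit 12) (.e (nat_lit 475183) (nat_lit 29) .nil)))) (.g (nat_lit 0) (.e (nat_lit 210965) (nat_lit 0) .nil) .nil))) 
(.lf (nat_lit 515973) (.g (nat_lit 599) (.e (nat_lit 196654) (nat_lit 11) (.e (nat_lit 16416) (nat_lit 3) (.e (nat_lit 204838) (nat_lit 20) .nil))) (.g (nat_lit 0) (.e (nat_lit 213939) (nat_lit 0) .nil) .nil)))))) (.nd (nat_lit 7) (.nd (nat_lit 8) (.nd (nat_lit 9) 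
(.lf (nat_lit 515141) (.g (nat_lit 1876) (.e (nat_lit 188440) (nat_lit 20) (.e (nat_lit 3469) (nat_lit 217) (.e (nat_lit 696344) (nat_lit 8) (.e (nat_lit 172113) (nat_lit 10) (.e (nat_lit 434203) (nat_lit 18) (.e (nat_lit 6262) (nat_lit 337) (.e (nat_lit 7936) (nat_lit 166) .nil))))))) (.g (nat_lit 1) (.e (nat_lit 209318) (nat_lit 0) .nil) .nil))) 
(.lf (nat_lit 515653) (.g (nat_lit 1083) (.e (nat_lit 188455) (nat_lit 24) (.e (nat_lit 229666) (nat_lit 240) (.e (nat_lit 2651) (nat_lit 166) (.e (nat_lit 188418) (nat_lit 0) .nil)))) (.g (nat_lit 0) (.e (nat_lit 211533) (nat_lit 0) .nil) .nil)))) (.nd (nat_lit 9) 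
(.lf (nat_lit 515397) (.g (nat_lit 2978) (.e (nat_lit 188451) (nat_lit 23) (.e (nat_lit 204846) (nat_lit 24) (.e (nat_lit 319532) (nat_lit 16) (.e (nat_lit 286732) (nat_lit 2) (.e (nat_lit 90178) (nat_lit 15) .nil))))) (.g (nat_lit 1) (.e (nat_lit 210709) (nat_lit 0) .nil) .nil))) 
(.lf (nat_lit 515909) (.g (nat_lit 1333) (.e (nat_lit 196653) (nat_lit 11) (.e (nat_lit 16463) (nat_lit 13) (.e (nat_lit 483341) (nat_lit 9) (.e (nat_lit 426106) (nat_lit 1) .nil)))) (.g (nat_lit 0) (.e (nat_lit 213737) (nat_lit 0) .nil) .nil))))) (.nd (nat_lit 8) (.nd (nat_lit 9) 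
(.lf (nat_lit 515269) (.g (nat_lit 1309) (.e (nat_lit 188444) (nat_lit 21) (.e (nat_lit 164348) (nat_lit 240) (.e (nat_lit 2648) (nat_lit 166) (.e (nat_lit 188427) (nat_lit 20) .nil)))) (.g (nat_lit 0) (.e (nat_lit 209832) (nat_lit 0) .nil) .nil))) 
(.lf (nat_lit 515781) (.g (nat_lit 1634) (.e (nat_lit 196626) (nat_lit 9) (.e (nat_lit 1400) (nat_lit 106) (.e (nat_lit 319511) (nat_lit 10) (.e (nat_lit 5293) (nat_lit 298) (.e (nat_lit 1232) (nat_lit 91) .nil))))) (.g (nat_lit 0) (.e (nat_lit 213385) (nat_lit 0) .nil) .nil)))) (.nd (nat_lit 9) 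
(.lf (nat_lit 515525) (.g (nat_lit 2504) (.e (nat_lit 188453) (nat_lit 24) (.e (nat_lit 229666) (nat_lit 240) (.e (nat_lit 2651) (nat_lit 166) (.e (nat_lit 188439) (nat_lit 20) (.e (nat_lit 3408) (nat_lit 212) (.e (nat_lit 655380) (nat_lit 6) .nil)))))) (.g (nat_lit 1) (.e (nat_lit 211146) (nat_lit 0) .nil) .nil))) 
(.lf (nat_lit 516037) (.g (nat_lit 1781) (.e (nat_lit 196654) (nat_lit 11) (.e (nat_lit 16436) (nat_lit 9) (.e (nat_lit 426482) (nat_lit 27) (.e (nat_lit 336388) (nat_lit 27) .nil)))) (.g (nat_lit 0) (.e (nat_lit 214045) (nat_lit 0) .nil) .nil))))))) (.nd (nat_lit 6) (.nd (nat_lit 7) (.nd (nat_lit 8) (.nd (nat_lit 9) 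
(.lf (nat_lit 515109) (.g (nat_lit 1505) (.e (nat_lit 188440) (nat_lit 20) (.e (nat_lit 3409) (nat_lit 212) (.e (nat_lit 655364) (nat_lit 0) (.e (nat_lit 3004) (nat_lit 186) (.e (nat_lit 450304) (nat_lit 4) (.e (nat_lit 114432) (nat_lit 6) .nil)))))) (.g (nat_lit 1) (.e (nat_lit 209154) (nat_lit 0) .nil) .nil))) 
(.lf (nat_lit 515621) (.g (nat_lit 3381) (.e (nat_lit 188455) (nat_lit 24) (.e (nat_lit 229663) (nat_lit 240) (.e (nat_lit 2630) (nat_lit 164) (.e (nat_lit 172118) (nat_lit 12) (.e (nat_lit 475197) (nat_lit 40) (.e (nat_lit 704598) (nat_lit 6) .nil)))))) (.g (nat_lit 1) (.e (nat_lit 211425) (nat_lit 0) .nil) .nil)))) (.nd (nat_lit 9) 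
(.lf (nat_lit 515365) (.g (nat_lit 606) (.e (nat_lit 188450) (nat_lit 23) (.e (nat_lit 204882) (nat_lit 32) (.e (nat_lit 385100) (nat_lit 49) .nil))) (.g (nat_lit 0) (.e (nat_lit 210637) (nat_lit 0) .nil) .nil))) 
(.lf (nat_lit 515877) (.g (nat_lit 3029) (.e (nat_lit 196652) (nat_lit 11) (.e (nat_lit 16438) (nat_lit 9) (.e (nat_lit 426482) (nat_lit 27) (.e (nat_lit 336389) (nat_lit 27) (.e (nat_lit 426108) (nat_lit 1) .nil))))) (.g (nat_lit 0) (.e (nat_lit 213613) (nat_lit 0) .nil) .nil))))) (.nd (nat_lit 8) (.nd (nat_lit 9) 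
(.lf (nat_lit 515237) (.g (nat_lit 1800) (.e (nat_lit 188441) (nat_lit 20) (.e (nat_lit 3469) (nat_lit 217) (.e (nat_lit 696344) (nat_lit 8) (.e (nat_lit 172115) (nat_lit 10) (.e (nat_lit 434285) (nat_lit 42) .nil))))) (.g (nat_lit 0) (.e (nat_lit 209614) (nat_lit 0) .nil) .nil))) 
(.lf (nat_lit 515749) (.g (nat_lit 2184) (.e (nat_lit 196617) (nat_lit 9) (.e (nat_lit 1401) (nat_lit 106) (.e (nat_lit 319531) (nat_lit 16) (.e (nat_lit 286733) (nat_lit 2) (.e (nat_lit 90134) (nat_lit 9) .nil))))) (.g (nat_lit 0) (.e (nat_lit 213216) (nat_lit 0) .nil) .nil)))) (.nd (nat_lit 9) 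
(.lf (nat_lit 515493) (.g (nat_lit 2741) (.e (nat_lit 188453) (nat_lit 24) (.e (nat_lit 229663) (nat_lit 240) (.e (nat_lit 2653) (nat_lit 166) (.e (nat_lit 188441) (nat_lit 20) (.e (nat_lit 3406) (nat_lit 212) (.e (nat_lit 655380) (nat_lit 6) .nil)))))) (.g (nat_lit 1) (.e (nat_lit 211064) (nat_lit 0) .nil) .nil))) 
(.lf (nat_lit 516005) (.g (nat_lit 1838) (.e (nat_lit 196654) (nat_lit 11) (.e (nat_lit 16436) (nat_lit 9) (.e (nat_lit 426131) (nat_lit 3) (.e (nat_lit 204852) (nat_lit 26) (.e (nat_lit 336258) (nat_lit 15) .nil))))) (.g (nat_lit 0) (.e (nat_lit 214005) (nat_lit 0) .nil) .nil)))))) (.nd (nat_lit 7) (.nd (nat_lit 8) (.nd (nat_lit 9) 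
(.lf (nat_lit 515173) (.g (nat_lit 1622) (.e (nat_lit 188441) (nat_lit 20) (.e (nat_lit 3391) (nat_lit 210) (.e (nat_lit 639025) (nat_lit 20) (.e (nat_lit 131116) (nat_lit 9) (.e (nat_lit 335988) (nat_lit 1) (.e (nat_lit 57832) (nat_lit 250) (.e (nat_lit 7936) (nat_lit 166) .nil))))))) (.g (nat_lit 1) (.e (nat_lit 209389) (nat_lit 0) .nil) .nil))) 
(.lf (nat_lit 515685) (.g (nat_lit 1796) (.e (nat_lit 188455) (nat_lit 24) (.e (nat_lit 229680) (nat_lit 244) (.e (nat_lit 163920) (nat_lit 14) (.e (nat_lit 442377) (nat_lit 0) .nil)))) (.g (nat_lit 0) (.e (nat_lit 211683) (nat_lit 0) .nil) .nil)))) (.nd (nat_lit 9) 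
(.lf (nat_lit 515429) (.g (nat_lit 1874) (.e (nat_lit 188452) (nat_lit 23) (.e (nat_lit 204830) (nat_lit 18) (.e (nat_lit 57663) (nat_lit 152) (.e (nat_lit 2630) (nat_lit 164) (.e (nat_lit 172033) (nat_lit 0) .nil))))) (.g (nat_lit 0) (.e (nat_lit 210824) (nat_lit 0) .nil) .nil))) 
(.lf (nat_lit 515941) (.g (nat_lit 3358) (.e (nat_lit 196654) (nat_lit 11) (.e (nat_lit 16413) (nat_lit 2) (.e (nat_lit 196654) (nat_lit 11) (.e (nat_lit 16416) (nat_lit 3) (.e (nat_lit 204809) (nat_lit 9) (.e (nat_lit 426124) (nat_lit 2) .nil)))))) (.g (nat_lit 1) (.e (nat_lit 213853) (nat_lit 0) .nil) .nil))))) (.nd (nat_lit 8) (.nd (nat_lit 9) 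
(.lf (nat_lit 515301) (.g (nat_lit 2373) (.e (nat_lit 188447) (nat_lit 22) (.e (nat_lit 196661) (nat_lit 12) (.e (nat_lit 57750) (nat_lit 201) (.e (nat_lit 2856) (nat_lit 184) (.e (nat_lit 426402) (nat_lit 15) (.e (nat_lit 1848) (nat_lit 124) (.e (nat_lit 557108) (nat_lit 15) .nil))))))) (.g (nat_lit 1) (.e (nat_lit 210297) (nat_lit 0) .nil) .nil))) 
(.lf (nat_lit 515813) (.g (nat_lit 2504) (.e (nat_lit 196626) (nat_lit 9) (.e (nat_lit 1400) (nat_lit 106) (.e (nat_lit 319534) (nat_lit 16) (.e (nat_lit 286732) (nat_lit 2) (.e (nat_lit 90128) (nat_lit 9) .nil))))) (.g (nat_lit 0) (.e (nat_lit 213421) (nat_lit 0) .nil) .nil)))) (.nd (nat_lit 9) 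
(.lf (nat_lit 515557) (.g (nat_lit 2741) (.e (nat_lit 188453) (nat_lit 24) (.e (nat_lit 229680) (nat_lit 244) (.e (nat_lit 163913) (nat_lit 12) (.e (nat_lit 426318) (nat_lit 12) (.e (nat_lit 475199) (nat_lit 40) (.e (nat_lit 704598) (nat_lit 6) .nil)))))) (.g (nat_lit 1) (.e (nat_lit 211251) (nat_lit 0) .nil) .nil))) 
(.lf (nat_lit 516069) (.g (nat_lit 1798) (.e (nat_lit 196654) (nat_lit 11) (.e (nat_lit 16438) (nat_lit 9) (.e (nat_lit 426509) (nat_lit 27) (.e (nat_lit 336389) (nat_lit 27) (.e (nat_lit 426098) (nat_lit 1) .nil))))) (.g (nat_lit 0) (.e (nat_lit 214089) (nat_lit 0) .nil) .nil)))))))) (.nd (nat_lit 5) (.nd (nat_lit 6) (.nd (nat_lit 7) (.nd (nat_lit 8) (.nd (nat_lit 9) 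
(.lf (nat_lit 515093) (.g (nat_lit 2036) (.e (nat_lit 188440) (nat_lit 20) (.e (nat_lit 3390) (nat_lit 210) (.e (nat_lit 639025) (nat_lit 20) (.e (nat_lit 131116) (nat_lit 9) (.e (nat_lit 335988) (nat_lit 1) (.e (nat_lit 57832) (nat_lit 250) (.e (nat_lit 7936) (nat_lit 166) .nil))))))) (.g (nat_lit 1) (.e (nat_lit 209076) (nat_lit 0) .nil) .nil))) 
(.lf (nat_lit 515605) (.g (nat_lit 1026) (.e (nat_lit 188454) (nat_lit 24) (.e (nat_lit 229665) (nat_lit 240) (.e (nat_lit 2725) (nat_lit 172) (.e (nat_lit 237615) (nat_lit 12) .nil)))) (.g (nat_lit 0) (.e (nat_lit 211359) (nat_lit 0) .nil) .nil)))) (.nd (nat_lit 9) 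
(.lf (nat_lit 515349) (.g (nat_lit 2823) (.e (nat_lit 188450) (nat_lit 23) (.e (nat_lit 204846) (nat_lit 24) (.e (nat_lit 319532) (nat_lit 16) (.e (nat_lit 286732) (nat_lit 2) (.e (nat_lit 90178) (nat_lit 15) .nil))))) (.g (nat_lit 1) (.e (nat_lit 210547) (nat_lit 0) .nil) .nil))) 
(.lf (nat_lit 515861) (.g (nat_lit 2313) (.e (nat_lit 196635) (nat_lit 9) (.e (nat_lit 1182) (nat_lit 87) (.e (nat_lit 57931) (nat_lit 282) (.e (nat_lit 163873) (nat_lit 3) (.e (nat_lit 204872) (nat_lit 30) .nil))))) (.g (nat_lit 0) (.e (nat_lit 213561) (nat_lit 0) .nil) .nil))))) (.nd (nat_lit 8) (.nd (nat_lit 9) 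
(.lf (nat_lit 515221) (.g (nat_lit 2541) (.e (nat_lit 188441) (nat_lit 20) (.e (nat_lit 3469) (nat_lit 217) (.e (nat_lit 696344) (nat_lit 8) (.e (nat_lit 172113) (nat_lit 10) (.e (nat_lit 434207) (nat_lit 18) (.e (nat_lit 6250) (nat_lit 337) (.e (nat_lit 7936) (nat_lit 166) .nil))))))) (.g (nat_lit 1) (.e (nat_lit 209598) (nat_lit 0) .nil) .nil))) 
(.lf (nat_lit 515733) (.g (nat_lit 799) (.e (nat_lit 204544) (nat_lit 6) (.e (nat_lit 188440) (nat_lit 20) (.e (nat_lit 3578) (nat_lit 223) (.e (nat_lit 745475) (nat_lit 0) (.e (nat_lit 1572) (nat_lit 110) .nil))))) (.g (nat_lit 0) (.e (nat_lit 212970) (nat_lit 0) .nil) .nil)))) (.nd (nat_lit 9) 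
(.lf (nat_lit 515477) (.g (nat_lit 588) (.e (nat_lit 196352) (nat_lit 23) (.e (nat_lit 204882) (nat_lit 32) (.e (nat_lit 385102) (nat_lit 50) .nil))) (.g (nat_lit 0) (.e (nat_lit 211014) (nat_lit 0) .nil) .nil))) 
(.lf (nat_lit 515989) (.g (nat_lit 1107) (.e (nat_lit 196654) (nat_lit 11) (.e (nat_lit 16433) (nat_lit 9) (.e (nat_lit 426568) (nat_lit 34) (.e (nat_lit 393253) (nat_lit 18) .nil)))) (.g (nat_lit 0) (.e (nat_lit 213983) (nat_lit 0) .nil) .nil)))))) (.nd (nat_lit 7) (.nd (nat_lit 8) (.nd (nat_lit 9) 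
(.lf (nat_lit 515157) (.g (nat_lit 548) (.e (nat_lit 188440) (nat_lit 20) (.e (nat_lit 3579) (nat_lit 223) (.e (nat_lit 745493) (nat_lit 6) (.e (nat_lit 81946) (nat_lit 20) .nil)))) (.g (nat_lit 0) (.e (nat_lit 209342) (nat_lit 0) .nil) .nil))) 
(.lf (nat_lit 515669) (.g (nat_lit 1830) (.e (nat_lit 188455) (nat_lit 24) (.e (nat_lit 229678) (nat_lit 244) (.e (nat_lit 163915) (nat_lit 12) (.e (nat_lit 426187) (nat_lit 9) (.e (nat_lit 426444) (nat_lit 19) (.e (nat_lit 114432) (nat_lit 6) .nil)))))) (.g (nat_lit 1) (.e (nat_lit 211601) (nat_lit 0) .nil) .nil)))) (.nd (nat_lit 9) 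
(.lf (nat_lit 515413) (.g (nat_lit 2630) (.e (nat_lit 188451) (nat_lit 23) (.e (nat_lit 204846) (nat_lit 24) (.e (nat_lit 319536) (nat_lit 17) (.e (nat_lit 294928) (nat_lit 2) (.e (nat_lit 90178) (nat_lit 15) .nil))))) (.g (nat_lit 1) (.e (nat_lit 210733) (nat_lit 0) .nil) .nil))) 
(.lf (nat_lit 515925) (.g (nat_lit 1957) (.e (nat_lit 196653) (nat_lit 11) (.e (nat_lit 16468) (nat_lit 13) (.e (nat_lit 483337) (nat_lit 9) (.e (nat_lit 426107) (nat_lit 1) (.e (nat_lit 164326) (nat_lit 230) .nil))))) (.g (nat_lit 0) (.e (nat_lit 213753) (nat_lit 0) .nil) .nil))))) (.nd (nat_lit 8) (.nd (nat_lit 9) 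
(.lf (nat_lit 515285) (.g (nat_lit 1577) (.e (nat_lit 188446) (nat_lit 21) (.e (nat_lit 164319) (nat_lit 228) (.e (nat_lit 57424) (nat_lit 14) (.e (nat_lit 352318) (nat_lit 24) (.e (nat_lit 123146) (nat_lit 250) (.e (nat_lit 2652) (nat_lit 166) .nil)))))) (.g (nat_lit 1) (.e (nat_lit 210130) (nat_lit 0) .nil) .nil))) 
(.lf (nat_lit 515797) (.g (nat_lit 3121) (.e (nat_lit 196626) (nat_lit 9) (.e (nat_lit 1400) (nat_lit 106) (.e (nat_lit 319533) (nat_lit 16) (.e (nat_lit 286732) (nat_lit 2) (.e (nat_lit 90128) (nat_lit 9) .nil))))) (.g (nat_lit 0) (.e (nat_lit 213403) (nat_lit 0) .nil) .nil)))) (.nd (nat_lit 9) 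
(.lf (nat_lit 515541) (.g (nat_lit 2718) (.e (nat_lit 188453) (nat_lit 24) (.e (nat_lit 229678) (nat_lit 244) (.e (nat_lit 163913) (nat_lit 12) (.e (nat_lit 426230) (nat_lit 9) (.e (nat_lit 426443) (nat_lit 19) (.e (nat_lit 114432) (nat_lit 6) .nil)))))) (.g (nat_lit 1) (.e (nat_lit 211179) (nat_lit 0) .nil) .nil))) 
(.lf (nat_lit 516053) (.g (nat_lit 2261) (.e (nat_lit 196654) (nat_lit 11) (.e (nat_lit 16438) (nat_lit 9) (.e (nat_lit 426482) (nat_lit 27) (.e (nat_lit 336385) (nat_lit 27) (.e (nat_lit 426105) (nat_lit 1) .nil))))) (.g (nat_lit 0) (.e (nat_lit 214069) (nat_lit 0) .nil) .nil))))))) (.nd (nat_lit 6) (.nd (nat_lit 7) (.nd (nat_lit 8) (.nd (nat_lit 9) 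
(.lf (nat_lit 515125) (.g (nat_lit 1538) (.e (nat_lit 188440) (nat_lit 20) (.e (nat_lit 3469) (nat_lit 217) (.e (nat_lit 696344) (nat_lit 8) (.e (nat_lit 172105) (nat_lit 10) (.e (nat_lit 434286) (nat_lit 42) .nil))))) (.g (nat_lit 0) (.e (nat_lit 209302) (nat_lit 0) .nil) .nil))) 
(.lf (nat_lit 515637) (.g (nat_lit 1401) (.e (nat_lit 188455) (nat_lit 24) (.e (nat_lit 229664) (nat_lit 240) (.e (nat_lit 2651) (nat_lit 166) (.e (nat_lit 188418) (nat_lit 0) .nil)))) (.g (nat_lit 0) (.e (nat_lit 211483) (nat_lit 0) .nil) .nil)))) (.nd (nat_lit 9) 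
(.lf (nat_lit 515381) (.g (nat_lit 2827) (.e (nat_lit 188450) (nat_lit 23) (.e (nat_lit 204885) (nat_lit 33) (.e (nat_lit 401452) (nat_lit 12) (.e (nat_lit 475185) (nat_lit 29) (.e (nat_lit 557107) (nat_lit 15) .nil))))) (.g (nat_lit 1) (.e (nat_lit 210671) (nat_lit 0) .nil) .nil))) 
(.lf (nat_lit 515893) (.g (nat_lit 1207) (.e (nat_lit 196653) (nat_lit 11) (.e (nat_lit 16435) (nat_lit 9) (.e (nat_lit 426566) (nat_lit 34) (.e (nat_lit 393253) (nat_lit 18) .nil)))) (.g (nat_lit 0) (.e (nat_lit 213683) (nat_lit 0) .nil) .nil))))) (.nd (nat_lit 8) (.nd (nat_lit 9) 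
(.lf (nat_lit 515253) (.g (nat_lit 2004) (.e (nat_lit 188444) (nat_lit 21) (.e (nat_lit 164347) (nat_lit 240) (.e (nat_lit 2648) (nat_lit 166) (.e (nat_lit 188417) (nat_lit 0) (.e (nat_lit 2148) (nat_lit 142) (.e (nat_lit 704597) (nat_lit 6) .nil)))))) (.g (nat_lit 1) (.e (nat_lit 209772) (nat_lit 0) .nil) .nil))) 
(.lf (nat_lit 515765) (.g (nat_lit 2121) (.e (nat_lit 196624) (nat_lit 9) (.e (nat_lit 375) (nat_lit 32) (.e (nat_lit 426201) (nat_lit 9) (.e (nat_lit 426568) (nat_lit 34) (.e (nat_lit 393251) (nat_lit 18) .nil))))) (.g (nat_lit 0) (.e (nat_lit 213282) (nat_lit 0) .nil) .nil)))) (.nd (nat_lit 9) 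
(.lf (nat_lit 515509) (.g (nat_lit 1014) (.e (nat_lit 188453) (nat_lit 24) (.e (nat_lit 229665) (nat_lit 240) (.e (nat_lit 2653) (nat_lit 166) (.e (nat_lit 188416) (nat_lit 0) .nil)))) (.g (nat_lit 0) (.e (nat_lit 211119) (nat_lit 0) .nil) .nil))) 
(.lf (nat_lit 516021) (.g (nat_lit 2719) (.e (nat_lit 196654) (nat_lit 11) (.e (nat_lit 16436) (nat_lit 9) (.e (nat_lit 426131) (nat_lit 3) (.e (nat_lit 204880) (nat_lit 32) (.e (nat_lit 392960) (nat_lit 51) (.e (nat_lit 794669) (nat_lit 22) .nil)))))) (.g (nat_lit 1) (.e (nat_lit 214023) (nat_lit 0) .nil) .nil)))))) (.nd (nat_lit 7) (.nd (nat_lit 8) (.nd (nat_lit 9) 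
(.lf (nat_lit 515189) (.g (nat_lit 3577) (.e (nat_lit 188441) (nat_lit 20) (.e (nat_lit 3409) (nat_lit 212) (.e (nat_lit 655378) (nat_lit 4) (.e (nat_lit 172094) (nat_lit 9) (.e (nat_lit 426109) (nat_lit 1) (.e (nat_lit 164347) (nat_lit 240) (.e (nat_lit 2648) (nat_lit 166) .nil))))))) (.g (nat_lit 1) (.e (nat_lit 209480) (nat_lit 0) .nil) .nil))) 
(.lf (nat_lit 515701) (.g (nat_lit 2095) (.e (nat_lit 196616) (nat_lit 0) (.e (nat_lit 2856) (nat_lit 184) (.e (nat_lit 426436) (nat_lit 18) (.e (nat_lit 98377) (nat_lit 30) .nil)))) (.g (nat_lit 0) (.e (nat_lit 212510) (nat_lit 0) .nil) .nil)))) (.nd (nat_lit 9) 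
(.lf (nat_lit 515445) (.g (nat_lit 947) (.e (nat_lit 188452) (nat_lit 23) (.e (nat_lit 204846) (nat_lit 24) (.e (nat_lit 319511) (nat_lit 10) (.e (nat_lit 5293) (nat_lit 298) .nil)))) (.g (nat_lit 0) (.e (nat_lit 210859) (nat_lit 0) .nil) .nil))) 
(.lf (nat_lit 515957) (.g (nat_lit 2953) (.e (nat_lit 196654) (nat_lit 11) (.e (nat_lit 16416) (nat_lit 3) (.e (nat_lit 204813) (nat_lit 9) (.e (nat_lit 426124) (nat_lit 2) (.e (nat_lit 196656) (nat_lit 11) (.e (nat_lit 16411) (nat_lit 2) .nil)))))) (.g (nat_lit 1) (.e (nat_lit 213914) (nat_lit 0) .nil) .nil))))) (.nd (nat_lit 8) (.nd (nat_lit 9) 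
(.lf (nat_lit 515317) (.g (nat_lit 472) (.e (nat_lit 188450) (nat_lit 23) (.e (nat_lit 204809) (nat_lit 9) (.e (nat_lit 426108) (nat_lit 1) .nil))) (.g (nat_lit 0) (.e (nat_lit 210437) (nat_lit 0) .nil) .nil))) 
(.lf (nat_lit 515829) (.g (nat_lit 113) (.e (nat_lit 196628) (nat_lit 9) (.e (nat_lit 968) (nat_lit 81) (.e (nat_lit 6721) (nat_lit 362) .nil))) (.g (nat_lit 0) (.e (nat_lit 213458) (nat_lit 0) .nil) .nil)))) (.nd (nat_lit 9) 
(.lf (nat_lit 515573) (.g (nat_lit 2826) (.e (nat_lit 188453) (nat_lit 24) (.e (nat_lit 229681) (nat_lit 244) (.e (nat_lit 163920) (nat_lit 14) (.e (nat_lit 442374) (nat_lit 0) (.e (nat_lit 2059) (nat_lit 142) (.e (nat_lit 704599) (nat_lit 6) .nil)))))) (.g (nat_lit 1) (.e (nat_lit 211300) (nat_lit 0) .nil) .nil))) 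
(.lf (nat_lit 516085) (.g (nat_lit 1998) (.e (nat_lit 196654) (nat_lit 11) (.e (nat_lit 16463) (nat_lit 13) (.e (nat_lit 483341) (nat_lit 9) (.e (nat_lit 426009) (nat_lit 0) .nil)))) (.g (nat_lit 0) (.e (nat_lit 214204) (nat_lit 0) .nil) .nil))))))))) (.nd (nat_lit 4) (.nd (nat_lit 5) (.nd (nat_lit 6) (.nd (nat_lit 7) (.nd (nat_lit 8) (.nd (nat_lit 9) 
(.lf (nat_lit 515085) (.g (nat_lit 91) (.e (nat_lit 188440) (nat_lit 20) (.e (nat_lit 3289) (nat_lit 201) (.e (nat_lit 565251) (nat_lit 0) .nil))) (.g (nat_lit 0) (.e (nat_lit 209041) (nat_lit 0) .nil) .nil))) 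
(.lf (nat_lit 515597) (.g (nat_lit 1666) (.e (nat_lit 188454) (nat_lit 24) (.e (nat_lit 229665) (nat_lit 240) (.e (nat_lit 2651) (nat_lit 166) (.e (nat_lit 188439) (nat_lit 20) (.e (nat_lit 3406) (nat_lit 212) .nil))))) (.g (nat_lit 0) (.e (nat_lit 211349) (nat_lit 0) .nil) .nil)))) (.nd (nat_lit 9) 
(.lf (nat_lit 515341) (.g (nat_lit 2736) (.e (nat_lit 188450) (nat_lit 23) (.e (nat_lit 204846) (nat_lit 24) (.e (nat_lit 319528) (nat_lit 16) (.e (nat_lit 286733) (nat_lit 2) (.e (nat_lit 90178) (nat_lit 15) .nil))))) (.g (nat_lit 1) (.e (nat_lit 210528) (nat_lit 0) .nil) .nil))) 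
(.lf (nat_lit 515853) (.g (nat_lit 1395) (.e (nat_lit 196630) (nat_lit 9) (.e (nat_lit 1669) (nat_lit 116) (.e (nat_lit 401459) (nat_lit 13) (.e (nat_lit 483364) (nat_lit 18) .nil)))) (.g (nat_lit 0) (.e (nat_lit 213543) (nat_lit 0) .nil) .nil))))) (.nd (nat_lit 8) (.nd (nat_lit 9) 
(.lf (nat_lit 515213) (.g (nat_lit 1999) (.e (nat_lit 188441) (nat_lit 20) (.e (nat_lit 3469) (nat_lit 217) (.e (nat_lit 696344) (nat_lit 8) (.e (nat_lit 172106) (nat_lit 10) (.e (nat_lit 434287) (nat_lit 43) .nil))))) (.g (nat_lit 0) (.e (nat_lit 209590) (nat_lit 0) .nil) .nil))) 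
(.lf (nat_lit 515725) (.g (nat_lit 1213) (.e (nat_lit 204544) (nat_lit 6) (.e (nat_lit 188434) (nat_lit 20) (.e (nat_lit 3578) (nat_lit 223) (.e (nat_lit 745476) (nat_lit 0) (.e (nat_lit 1559) (nat_lit 110) .nil))))) (.g (nat_lit 0) (.e (nat_lit 212954) (nat_lit 0) .nil) .nil)))) (.nd (nat_lit 9) 
(.lf (nat_lit 515469) (.g (nat_lit 3311) (.e (nat_lit 188452) (nat_lit 23) (.e (nat_lit 204885) (nat_lit 33) (.e (nat_lit 401453) (nat_lit 12) (.e (nat_lit 475184) (nat_lit 29) (.e (nat_lit 557108) (nat_lit 15) .nil))))) (.g (nat_lit 1) (.e (nat_lit 211006) (nat_lit 0) .nil) .nil))) 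
(.lf (nat_lit 515981) (.g (nat_lit 462) (.e (nat_lit 196654) (nat_lit 11) (.e (nat_lit 16433) (nat_lit 9) (.e (nat_lit 426566) (nat_lit 34) .nil))) (.g (nat_lit 0) (.e (nat_lit 213971) (nat_lit 0) .nil) .nil)))))) (.nd (nat_lit 7) (.nd (nat_lit 8) (.nd (nat_lit 9) 
(.lf (nat_lit 515149) (.g (nat_lit 2631) (.e (nat_lit 188440) (nat_lit 20) (.e (nat_lit 3469) (nat_lit 217) (.e (nat_lit 696344) (nat_lit 8) (.e (nat_lit 172113) (nat_lit 10) (.e (nat_lit 434286) (nat_lit 42) (.e (nat_lit 696064) (nat_lit 10) .nil)))))) (.g (nat_lit 1) (.e (nat_lit 209326) (nat_lit 0) .nil) .nil))) 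
(.lf (nat_lit 515661) (.g (nat_lit 1371) (.e (nat_lit 188455) (nat_lit 24) (.e (nat_lit 229677) (nat_lit 244) (.e (nat_lit 163931) (nat_lit 17) (.e (nat_lit 466947) (nat_lit 0) (.e (nat_lit 2059) (nat_lit 142) .nil))))) (.g (nat_lit 0) (.e (nat_lit 211561) (nat_lit 0) .nil) .nil)))) (.nd (nat_lit 9) 
(.lf (nat_lit 515405) (.g (nat_lit 2057) (.e (nat_lit 188451) (nat_lit 23) (.e (nat_lit 204846) (nat_lit 24) (.e (nat_lit 319534) (nat_lit 16) (.e (nat_lit 286722) (nat_lit 0) (.e (nat_lit 1685) (nat_lit 117) .nil))))) (.g (nat_lit 0) (.e (nat_lit 210721) (nat_lit 0) .nil) .nil))) 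
(.lf (nat_lit 515917) (.g (nat_lit 1803) (.e (nat_lit 196653) (nat_lit 11) (.e (nat_lit 16464) (nat_lit 13) (.e (nat_lit 483341) (nat_lit 9) (.e (nat_lit 426108) (nat_lit 1) (.e (nat_lit 164329) (nat_lit 230) .nil))))) (.g (nat_lit 0) (.e (nat_lit 213745) (nat_lit 0) .nil) .nil))))) (.nd (nat_lit 8) (.nd (nat_lit 9) 
(.lf (nat_lit 515277) (.g (nat_lit 1091) (.e (nat_lit 188445) (nat_lit 21) (.e (nat_lit 164348) (nat_lit 240) (.e (nat_lit 2648) (nat_lit 166) (.e (nat_lit 188431) (nat_lit 20) .nil)))) (.g (nat_lit 0) (.e (nat_lit 209941) (nat_lit 0) .nil) .nil))) 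
(.lf (nat_lit 515789) (.g (nat_lit 2817) (.e (nat_lit 196626) (nat_lit 9) (.e (nat_lit 1400) (nat_lit 106) (.e (nat_lit 319530) (nat_lit 16) (.e (nat_lit 286733) (nat_lit 2) (.e (nat_lit 90175) (nat_lit 15) .nil))))) (.g (nat_lit 0) (.e (nat_lit 213395) (nat_lit 0) .nil) .nil)))) (.nd (nat_lit 9) 
(.lf (nat_lit 515533) (.g (nat_lit 1806) (.e (nat_lit 188453) (nat_lit 24) (.e (nat_lit 229678) (nat_lit 244) (.e (nat_lit 163902) (nat_lit 12) (.e (nat_lit 426233) (nat_lit 9) .nil)))) (.g (nat_lit 0) (.e (nat_lit 211170) (nat_lit 0) .nil) .nil))) 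
(.lf (nat_lit 516045) (.g (nat_lit 1565) (.e (nat_lit 196654) (nat_lit 11) (.e (nat_lit 16438) (nat_lit 9) (.e (nat_lit 426131) (nat_lit 3) (.e (nat_lit 204853) (nat_lit 26) .nil)))) (.g (nat_lit 0) (.e (nat_lit 214058) (nat_lit 0) .nil) .nil))))))) (.nd (nat_lit 6) (.nd (nat_lit 7) (.nd (nat_lit 8) (.nd (nat_lit 9) 
(.lf (nat_lit 515117) (.g (nat_lit 1779) (.e (nat_lit 188440) (nat_lit 20) (.e (nat_lit 3409) (nat_lit 212) (.e (nat_lit 655380) (nat_lit 6) (.e (nat_lit 188439) (nat_lit 20) (.e (nat_lit 3409) (nat_lit 212) (.e (nat_lit 655380) (nat_lit 6) .nil)))))) (.g (nat_lit 1) (.e (nat_lit 209172) (nat_lit 0) .nil) .nil))) 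
(.lf (nat_lit 515629) (.g (nat_lit 1750) (.e (nat_lit 188455) (nat_lit 24) (.e (nat_lit 229663) (nat_lit 240) (.e (nat_lit 2651) (nat_lit 166) (.e (nat_lit 188440) (nat_lit 20) .nil)))) (.g (nat_lit 0) (.e (nat_lit 211441) (nat_lit 0) .nil) .nil)))) (.nd (nat_lit 9) 
(.lf (nat_lit 515373) (.g (nat_lit 2656) (.e (nat_lit 188450) (nat_lit 23) (.e (nat_lit 204884) (nat_lit 33) (.e (nat_lit 401453) (nat_lit 12) (.e (nat_lit 475185) (nat_lit 29) (.e (nat_lit 557107) (nat_lit 15) .nil))))) (.g (nat_lit 1) (.e (nat_lit 210646) (nat_lit 0) .nil) .nil))) 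
(.lf (nat_lit 515885) (.g (nat_lit 1420) (.e (nat_lit 196653) (nat_lit 11) (.e (nat_lit 16433) (nat_lit 9) (.e (nat_lit 426566) (nat_lit 34) (.e (nat_lit 393253) (nat_lit 18) .nil)))) (.g (nat_lit 0) (.e (nat_lit 213673) (nat_lit 0) .nil) .nil))))) (.nd (nat_lit 8) (.nd (nat_lit 9) 
(.lf (nat_lit 515245) (.g (nat_lit 150) (.e (nat_lit 188444) (nat_lit 21) (.e (nat_lit 164345) (nat_lit 240) (.e (nat_lit 2650) (nat_lit 166) .nil))) (.g (nat_lit 0) (.e (nat_lit 209737) (nat_lit 0) .nil) .nil))) 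
(.lf (nat_lit 515757) (.g (nat_lit 2940) (.e (nat_lit 196623) (nat_lit 9) (.e (nat_lit 1400) (nat_lit 106) (.e (nat_lit 319533) (nat_lit 16) (.e (nat_lit 286734) (nat_lit 3) (.e (nat_lit 98381) (nat_lit 31) .nil))))) (.g (nat_lit 0) (.e (nat_lit 213268) (nat_lit 0) .nil) .nil)))) (.nd (nat_lit 9) 
(.lf (nat_lit 515501) (.g (nat_lit 1495) (.e (nat_lit 188453) (nat_lit 24) (.e (nat_lit 229665) (nat_lit 240) (.e (nat_lit 2651) (nat_lit 166) (.e (nat_lit 188416) (nat_lit 0) .nil)))) (.g (nat_lit 0) (.e (nat_lit 211093) (nat_lit 0) .nil) .nil))) 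
(.lf (nat_lit 516013) (.g (nat_lit 2330) (.e (nat_lit 196654) (nat_lit 11) (.e (nat_lit 16436) (nat_lit 9) (.e (nat_lit 426131) (nat_lit 3) (.e (nat_lit 204854) (nat_lit 26) (.e (nat_lit 336240) (nat_lit 15) (.e (nat_lit 3774) (nat_lit 229) (.e (nat_lit 794669) (nat_lit 22) .nil))))))) (.g (nat_lit 1) (.e (nat_lit 214013) (nat_lit 0) .nil) .nil)))))) 
(.nd (nat_lit 7) (.nd (nat_lit 8) (.nd (nat_lit 9) 
(.lf (nat_lit 515181) (.g (nat_lit 1383) (.e (nat_lit 188441) (nat_lit 20) (.e (nat_lit 3408) (nat_lit 212) (.e (nat_lit 655364) (nat_lit 0) (.e (nat_lit 2989) (nat_lit 186) (.e (nat_lit 450304) (nat_lit 4) (.e (nat_lit 114432) (nat_lit 6) .nil)))))) (.g (nat_lit 1) (.e (nat_lit 209425) (nat_lit 0) .nil) .nil))) 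
(.lf (nat_lit 515693) (.g (nat_lit 1700) (.e (nat_lit 188455) (nat_lit 24) (.e (nat_lit 229681) (nat_lit 244) (.e (nat_lit 163915) (nat_lit 12) (.e (nat_lit 426188) (nat_lit 9) (.e (nat_lit 426444) (nat_lit 19) (.e (nat_lit 114432) (nat_lit 6) .nil)))))) (.g (nat_lit 1) (.e (nat_lit 211720) (nat_lit 0) .nil) .nil)))) (.nd (nat_lit 9) 
(.lf (nat_lit 515437) (.g (nat_lit 2612) (.e (nat_lit 188452) (nat_lit 23) (.e (nat_lit 204845) (nat_lit 24) (.e (nat_lit 319529) (nat_lit 16) (.e (nat_lit 286733) (nat_lit 2) (.e (nat_lit 90176) (nat_lit 15) .nil))))) (.g (nat_lit 1) (.e (nat_lit 210841) (nat_lit 0) .nil) .nil))) 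
(.lf (nat_lit 515949) (.g (nat_lit 1736) (.e (nat_lit 196654) (nat_lit 11) (.e (nat_lit 16416) (nat_lit 3) (.e (nat_lit 204809) (nat_lit 9) (.e (nat_lit 426139) (nat_lit 3) (.e (nat_lit 204812) (nat_lit 9) .nil))))) (.g (nat_lit 0) (.e (nat_lit 213894) (nat_lit 0) .nil) .nil))))) (.nd (nat_lit 8) (.nd (nat_lit 9) 
(.lf (nat_lit 515309) (.g (nat_lit 391) (.e (nat_lit 188449) (nat_lit 22) (.e (nat_lit 196630) (nat_lit 9) (.e (nat_lit 1668) (nat_lit 116) .nil))) (.g (nat_lit 0) (.e (nat_lit 210347) (nat_lit 0) .nil) .nil))) 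
(.lf (nat_lit 515821) (.g (nat_lit 2309) (.e (nat_lit 196626) (nat_lit 9) (.e (nat_lit 1589) (nat_lit 111) (.e (nat_lit 360467) (nat_lit 3) (.e (nat_lit 516138) (nat_lit 7) (.e (nat_lit 409646) (nat_lit 18) .nil))))) (.g (nat_lit 0) (.e (nat_lit 213430) (nat_lit 0) .nil) .nil)))) (.nd (nat_lit 9) 
(.lf (nat_lit 515565) (.g (nat_lit 1676) (.e (nat_lit 188453) (nat_lit 24) (.e (nat_lit 229680) (nat_lit 244) (.e (nat_lit 163931) (nat_lit 17) (.e (nat_lit 466947) (nat_lit 0) (.e (nat_lit 2057) (nat_lit 142) (.e (nat_lit 704598) (nat_lit 6) .nil)))))) (.g (nat_lit 1) (.e (nat_lit 211287) (nat_lit 0) .nil) .nil))) 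
(.lf (nat_lit 516077) (.g (nat_lit 2972) (.e (nat_lit 196654) (nat_lit 11) (.e (nat_lit 16463) (nat_lit 13) (.e (nat_lit 483336) (nat_lit 9) (.e (nat_lit 426108) (nat_lit 1) (.e (nat_lit 164330) (nat_lit 230) (.e (nat_lit 163866) (nat_lit 2) .nil)))))) (.g (nat_lit 1) (.e (nat_lit 214194) (nat_lit 0) .nil) .nil)))))))) 
(.nd (nat_lit 5) (.nd (nat_lit 6) (.nd (nat_lit 7) (.nd (nat_lit 8) (.nd (nat_lit 9) 
(.lf (nat_lit 515101) (.g (nat_lit 1572) (.e (nat_lit 188440) (nat_lit 20) (.e (nat_lit 3408) (nat_lit 212) (.e (nat_lit 655364) (nat_lit 0) (.e (nat_lit 3004) (nat_lit 186) (.e (nat_lit 450304) (nat_lit 4) (.e (nat_lit 114432) (nat_lit 6) .nil)))))) (.g (nat_lit 1) (.e (nat_lit 209122) (nat_lit 0) .nil) .nil))) 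
(.lf (nat_lit 515613) (.g (nat_lit 205) (.e (nat_lit 188454) (nat_lit 24) (.e (nat_lit 229680) (nat_lit 244) (.e (nat_lit 163915) (nat_lit 12) .nil))) (.g (nat_lit 0) (.e (nat_lit 211378) (nat_lit 0) .nil) .nil)))) (.nd (nat_lit 9) 
(.lf (nat_lit 515357) (.g (nat_lit 1288) (.e (nat_lit 188450) (nat_lit 23) (.e (nat_lit 204849) (nat_lit 25) (.e (nat_lit 327717) (nat_lit 17) (.e (nat_lit 294926) (nat_lit 2) .nil)))) (.g (nat_lit 0) (.e (nat_lit 210569) (nat_lit 0) .nil) .nil))) 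
(.lf (nat_lit 515869) (.g (nat_lit 1998) (.e (nat_lit 196652) (nat_lit 11) (.e (nat_lit 16435) (nat_lit 9) (.e (nat_lit 426566) (nat_lit 34) (.e (nat_lit 393251) (nat_lit 18) (.e (nat_lit 164325) (nat_lit 230) .nil))))) (.g (nat_lit 0) (.e (nat_lit 213585) (nat_lit 0) .nil) .nil))))) (.nd (nat_lit 8) (.nd (nat_lit 9) 
(.lf (nat_lit 515229) (.g (nat_lit 1883) (.e (nat_lit 188441) (nat_lit 20) (.e (nat_lit 3469) (nat_lit 217) (.e (nat_lit 696344) (nat_lit 8) (.e (nat_lit 172113) (nat_lit 10) (.e (nat_lit 434208) (nat_lit 18) (.e (nat_lit 6262) (nat_lit 337) (.e (nat_lit 7936) (nat_lit 166) .nil))))))) (.g (nat_lit 1) (.e (nat_lit 209606) (nat_lit 0) .nil) .nil))) 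
(.lf (nat_lit 515741) (.g (nat_lit 1923) (.e (nat_lit 196617) (nat_lit 9) (.e (nat_lit 375) (nat_lit 32) (.e (nat_lit 426173) (nat_lit 7) (.e (nat_lit 409617) (nat_lit 10) (.e (nat_lit 604) (nat_lit 45) .nil))))) (.g (nat_lit 0) (.e (nat_lit 213194) (nat_lit 0) .nil) .nil)))) (.nd (nat_lit 9) 
(.lf (nat_lit 515485) (.g (nat_lit 1948) (.e (nat_lit 188453) (nat_lit 24) (.e (nat_lit 229663) (nat_lit 240) (.e (nat_lit 2630) (nat_lit 164) (.e (nat_lit 172115) (nat_lit 10) .nil)))) (.g (nat_lit 0) (.e (nat_lit 211036) (nat_lit 0) .nil) .nil))) 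
(.lf (nat_lit 515997) (.g (nat_lit 3244) (.e (nat_lit 196654) (nat_lit 11) (.e (nat_lit 16434) (nat_lit 9) (.e (nat_lit 426566) (nat_lit 34) (.e (nat_lit 393253) (nat_lit 18) (.e (nat_lit 164331) (nat_lit 230) (.e (nat_lit 163866) (nat_lit 2) .nil)))))) (.g (nat_lit 1) (.e (nat_lit 213991) (nat_lit 0) .nil) .nil)))))) (.nd (nat_lit 7) (.nd (nat_lit 8) (.nd (nat_lit 9) 
(.lf (nat_lit 515165) (.g (nat_lit 1613) (.e (nat_lit 188441) (nat_lit 20) (.e (nat_lit 3308) (nat_lit 202) (.e (nat_lit 573475) (nat_lit 12) (.e (nat_lit 57574) (nat_lit 55) .nil)))) (.g (nat_lit 0) (.e (nat_lit 209365) (nat_lit 0) .nil) .nil))) 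
(.lf (nat_lit 515677) (.g (nat_lit 1336) (.e (nat_lit 188455) (nat_lit 24) (.e (nat_lit 229679) (nat_lit 244) (.e (nat_lit 163915) (nat_lit 12) (.e (nat_lit 426188) (nat_lit 9) (.e (nat_lit 426444) (nat_lit 19) (.e (nat_lit 114432) (nat_lit 6) .nil)))))) (.g (nat_lit 1) (.e (nat_lit 211664) (nat_lit 0) .nil) .nil)))) (.nd (nat_lit 9) 
(.lf (nat_lit 515421) (.g (nat_lit 826) (.e (nat_lit 188451) (nat_lit 23) (.e (nat_lit 204882) (nat_lit 32) (.e (nat_lit 385104) (nat_lit 50) .nil))) (.g (nat_lit 0) (.e (nat_lit 210763) (nat_lit 0) .nil) .nil))) 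
(.lf (nat_lit 515933) (.g (nat_lit 2775) (.e (nat_lit 196653) (nat_lit 11) (.e (nat_lit 16473) (nat_lit 14) (.e (nat_lit 491526) (nat_lit 0) (.e (nat_lit 1774) (nat_lit 118) .nil)))) (.g (nat_lit 0) (.e (nat_lit 213763) (nat_lit 0) .nil) .nil))))) (.nd (nat_lit 8) (.nd (nat_lit 9) 
(.lf (nat_lit 515293) (.g (nat_lit 2872) (.e (nat_lit 188446) (nat_lit 21) (.e (nat_lit 164347) (nat_lit 240) (.e (nat_lit 2619) (nat_lit 164) (.e (nat_lit 172120) (nat_lit 12) (.e (nat_lit 475197) (nat_lit 40) (.e (nat_lit 704598) (nat_lit 6) .nil)))))) (.g (nat_lit 1) (.e (nat_lit 210181) (nat_lit 0) .nil) .nil))) 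
(.lf (nat_lit 515805) (.g (nat_lit 2771) (.e (nat_lit 196626) (nat_lit 9) (.e (nat_lit 1400) (nat_lit 106) (.e (nat_lit 319533) (nat_lit 16) (.e (nat_lit 286734) (nat_lit 3) (.e (nat_lit 106240) (nat_lit 26) .nil))))) (.g (nat_lit 0) (.e (nat_lit 213411) (nat_lit 0) .nil) .nil)))) (.nd (nat_lit 9) 
(.lf (nat_lit 515549) (.g (nat_lit 354) (.e (nat_lit 188453) (nat_lit 24) (.e (nat_lit 229678) (nat_lit 244) (.e (nat_lit 163920) (nat_lit 14) .nil))) (.g (nat_lit 0) (.e (nat_lit 211192) (nat_lit 0) .nil) .nil))) 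
(.lf (nat_lit 516061) (.g (nat_lit 2926) (.e (nat_lit 196654) (nat_lit 11) (.e (nat_lit 16438) (nat_lit 9) (.e (nat_lit 426482) (nat_lit 27) (.e (nat_lit 336389) (nat_lit 27) (.e (nat_lit 426107) (nat_lit 1) .nil))))) (.g (nat_lit 0) (.e (nat_lit 214080) (nat_lit 0) .nil) .nil))))))) (.nd (nat_lit 6) (.nd (nat_lit 7) (.nd (nat_lit 8) (.nd (nat_lit 9) 
(.lf (nat_lit 515133) (.g (nat_lit 2716) (.e (nat_lit 188440) (nat_lit 20) (.e (nat_lit 3469) (nat_lit 217) (.e (nat_lit 696344) (nat_lit 8) (.e (nat_lit 172106) (nat_lit 10) (.e (nat_lit 434286) (nat_lit 42) (.e (nat_lit 696064) (nat_lit 10) .nil)))))) (.g (nat_lit 1) (.e (nat_lit 209310) (nat_lit 0) .nil) .nil))) 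
(.lf (nat_lit 515645) (.g (nat_lit 1512) (.e (nat_lit 188455) (nat_lit 24) (.e (nat_lit 229665) (nat_lit 240) (.e (nat_lit 2651) (nat_lit 166) (.e (nat_lit 188418) (nat_lit 0) .nil)))) (.g (nat_lit 0) (.e (nat_lit 211505) (nat_lit 0) .nil) .nil)))) (.nd (nat_lit 9) 
(.lf (nat_lit 515389) (.g (nat_lit 1882) (.e (nat_lit 188451) (nat_lit 23) (.e (nat_lit 204845) (nat_lit 24) (.e (nat_lit 319531) (nat_lit 16) (.e (nat_lit 286722) (nat_lit 0) (.e (nat_lit 1691) (nat_lit 117) .nil))))) (.g (nat_lit 0) (.e (nat_lit 210693) (nat_lit 0) .nil) .nil))) 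
(.lf (nat_lit 515901) (.g (nat_lit 1813) (.e (nat_lit 196653) (nat_lit 11) (.e (nat_lit 16463) (nat_lit 13) (.e (nat_lit 483337) (nat_lit 9) (.e (nat_lit 426107) (nat_lit 1) (.e (nat_lit 164325) (nat_lit 230) .nil))))) (.g (nat_lit 0) (.e (nat_lit 213729) (nat_lit 0) .nil) .nil))))) (.nd (nat_lit 8) (.nd (nat_lit 9) 
(.lf (nat_lit 515261) (.g (nat_lit 3161) (.e (nat_lit 188444) (nat_lit 21) (.e (nat_lit 164348) (nat_lit 240) (.e (nat_lit 2619) (nat_lit 164) (.e (nat_lit 172120) (nat_lit 12) (.e (nat_lit 475198) (nat_lit 40) (.e (nat_lit 704598) (nat_lit 6) .nil)))))) (.g (nat_lit 1) (.e (nat_lit 209817) (nat_lit 0) .nil) .nil))) 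
(.lf (nat_lit 515773) (.g (nat_lit 1866) (.e (nat_lit 196624) (nat_lit 9) (.e (nat_lit 1277) (nat_lit 94) (.e (nat_lit 114719) (nat_lit 23) (.e (nat_lit 98367) (nat_lit 27) (.e (nat_lit 434232) (nat_lit 23) .nil))))) (.g (nat_lit 0) (.e (nat_lit 213362) (nat_lit 0) .nil) .nil)))) (.nd (nat_lit 9) 
(.lf (nat_lit 515517) (.g (nat_lit 2840) (.e (nat_lit 188453) (nat_lit 24) (.e (nat_lit 229666) (nat_lit 240) (.e (nat_lit 2630) (nat_lit 164) (.e (nat_lit 172113) (nat_lit 10) (.e (nat_lit 434272) (nat_lit 38) (.e (nat_lit 655380) (nat_lit 6) .nil)))))) (.g (nat_lit 1) (.e (nat_lit 211136) (nat_lit 0) .nil) .nil))) 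
(.lf (nat_lit 516029) (.g (nat_lit 665) (.e (nat_lit 196654) (nat_lit 11) (.e (nat_lit 16436) (nat_lit 9) (.e (nat_lit 426478) (nat_lit 27) .nil))) (.g (nat_lit 0) (.e (nat_lit 214037) (nat_lit 0) .nil) .nil)))))) (.nd (nat_lit 7) (.nd (nat_lit 8) (.nd (nat_lit 9) 
(.lf (nat_lit 515197) (.g (nat_lit 2269) (.e (nat_lit 188441) (nat_lit 20) (.e (nat_lit 3409) (nat_lit 212) (.e (nat_lit 655380) (nat_lit 6) (.e (nat_lit 188445) (nat_lit 21) (.e (nat_lit 164347) (nat_lit 240) (.e (nat_lit 2648) (nat_lit 166) .nil)))))) (.g (nat_lit 1) (.e (nat_lit 209490) (nat_lit 0) .nil) .nil))) 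
(.lf (nat_lit 515709) (.g (nat_lit 490) (.e (nat_lit 204544) (nat_lit 2) (.e (nat_lit 24664) (nat_lit 14) (.e (nat_lit 401472) (nat_lit 28) .nil))) (.g (nat_lit 0) (.e (nat_lit 212604) (nat_lit 0) .nil) .nil)))) (.nd (nat_lit 9) 
(.lf (nat_lit 515453) (.g (nat_lit 2882) (.e (nat_lit 188452) (nat_lit 23) (.e (nat_lit 204849) (nat_lit 25) (.e (nat_lit 327717) (nat_lit 17) (.e (nat_lit 294928) (nat_lit 2) (.e (nat_lit 90177) (nat_lit 15) .nil))))) (.g (nat_lit 1) (.e (nat_lit 210897) (nat_lit 0) .nil) .nil))) 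
(.lf (nat_lit 515965) (.g (nat_lit 1916) (.e (nat_lit 196654) (nat_lit 11) (.e (nat_lit 16416) (nat_lit 3) (.e (nat_lit 204836) (nat_lit 20) (.e (nat_lit 114718) (nat_lit 23) (.e (nat_lit 98333) (nat_lit 18) .nil))))) (.g (nat_lit 0) (.e (nat_lit 213922) (nat_lit 0) .nil) .nil))))) (.nd (nat_lit 8) (.nd (nat_lit 9) 
(.lf (nat_lit 515325) (.g (nat_lit 488) (.e (nat_lit 188450) (nat_lit 23) (.e (nat_lit 204830) (nat_lit 18) (.e (nat_lit 57663) (nat_lit 152) .nil))) (.g (nat_lit 0) (.e (nat_lit 210479) (nat_lit 0) .nil) .nil))) 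
(.lf (nat_lit 515837) (.g (nat_lit 1701) (.e (nat_lit 196630) (nat_lit 9) (.e (nat_lit 1393) (nat_lit 106) (.e (nat_lit 319531) (nat_lit 16) (.e (nat_lit 286733) (nat_lit 2) (.e (nat_lit 90134) (nat_lit 9) .nil))))) (.g (nat_lit 0) (.e (nat_lit 213510) (nat_lit 0) .nil) .nil)))) (.nd (nat_lit 9) 
(.lf (nat_lit 515581) (.g (nat_lit 1949) (.e (nat_lit 188454) (nat_lit 24) (.e (nat_lit 229663) (nat_lit 240) (.e (nat_lit 2630) (nat_lit 164) (.e (nat_lit 172118) (nat_lit 12) .nil)))) (.g (nat_lit 0) (.e (nat_lit 211324) (nat_lit 0) .nil) .nil))) 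
(.lf (nat_lit 516093) (.g (nat_lit 3452) (.e (nat_lit 196654) (nat_lit 11) (.e (nat_lit 16463) (nat_lit 13) (.e (nat_lit 483341) (nat_lit 9) (.e (nat_lit 426100) (nat_lit 1) (.e (nat_lit 164330) (nat_lit 230) (.e (nat_lit 163866) (nat_lit 2) .nil)))))) (.g (nat_lit 1) (.e (nat_lit 214216) (nat_lit 0) .nil) .nil))))))))))) 
(.nd (nat_lit 2) (.nd (nat_lit 3) (.nd (nat_lit 4) (.nd (nat_lit 5) (.nd (nat_lit 6) 
(.nd (nat_lit 7) (.nd (nat_lit 8) (.nd (nat_lit 9) 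
(.lf (nat_lit 515075) (.g (nat_lit 3164) (.e (nat_lit 188440) (nat_lit 20) (.e (nat_lit 3307) (nat_lit 202) (.e (nat_lit 573475) (nat_lit 12) (.e (nat_lit 57574) (nat_lit 55) (.e (nat_lit 778465) (nat_lit 11) (.e (nat_lit 24603) (nat_lit 2) (.e (nat_lit 90175) (nat_lit 15) .nil))))))) (.g (nat_lit 1) (.e (nat_lit 209030) (nat_lit 0) .nil) .nil))) 
(.lf (nat_lit 515587) (.g (nat_lit 1279) (.e (nat_lit 188454) (nat_lit 24) (.e (nat_lit 229663) (nat_lit 240) (.e (nat_lit 2653) (nat_lit 166) (.e (nat_lit 188418) (nat_lit 0) .nil)))) (.g (nat_lit 0) (.e (nat_lit 211333) (nat_lit 0) .nil) .nil)))) (.nd (nat_lit 9) 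
(.lf (nat_lit 515331) (.g (nat_lit 906) (.e (nat_lit 188450) (nat_lit 23) (.e (nat_lit 204846) (nat_lit 24) (.e (nat_lit 319500) (nat_lit 10) .nil))) (.g (nat_lit 0) (.e (nat_lit 210510) (nat_lit 0) .nil) .nil))) 
(.lf (nat_lit 515843) (.g (nat_lit 1397) (.e (nat_lit 196630) (nat_lit 9) (.e (nat_lit 1595) (nat_lit 111) (.e (nat_lit 360467) (nat_lit 3) (.e (nat_lit 516138) (nat_lit 7) .nil)))) (.g (nat_lit 0) (.e (nat_lit 213516) (nat_lit 0) .nil) .nil))))) (.nd (nat_lit 8) (.nd (nat_lit 9) 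
(.lf (nat_lit 515203) (.g (nat_lit 387) (.e (nat_lit 188441) (nat_lit 20) (.e (nat_lit 3469) (nat_lit 217) (.e (nat_lit 696344) (nat_lit 8) .nil))) (.g (nat_lit 0) (.e (nat_lit 209579) (nat_lit 0) .nil) .nil))) 
(.lf (nat_lit 515715) (.g (nat_lit 815) (.e (nat_lit 204544) (nat_lit 3) (.e (nat_lit 163843) (nat_lit 0) (.e (nat_lit 6420) (nat_lit 341) (.e (nat_lit 163902) (nat_lit 12) .nil)))) (.g (nat_lit 0) (.e (nat_lit 212624) (nat_lit 0) .nil) .nil)))) (.nd (nat_lit 9) 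
(.lf (nat_lit 515459) (.g (nat_lit 3642) (.e (nat_lit 188452) (nat_lit 23) (.e (nat_lit 204883) (nat_lit 33) (.e (nat_lit 401453) (nat_lit 12) (.e (nat_lit 475184) (nat_lit 29) (.e (nat_lit 557109) (nat_lit 15) .nil))))) (.g (nat_lit 1) (.e (nat_lit 210953) (nat_lit 0) .nil) .nil))) 
(.lf (nat_lit 515971) (.g (nat_lit 2008) (.e (nat_lit 196654) (nat_lit 11) (.e (nat_lit 16416) (nat_lit 3) (.e (nat_lit 204837) (nat_lit 20) (.e (nat_lit 114718) (nat_lit 23) (.e (nat_lit 98335) (nat_lit 18) .nil))))) (.g (nat_lit 0) (.e (nat_lit 213934) (nat_lit 0) .nil) .nil)))))) (.nd (nat_lit 7) (.nd (nat_lit 8) (.nd (nat_lit 9) 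
(.lf (nat_lit 515139) (.g (nat_lit 3176) (.e (nat_lit 188440) (nat_lit 20) (.e (nat_lit 3469) (nat_lit 217) (.e (nat_lit 696344) (nat_lit 8) (.e (nat_lit 172113) (nat_lit 10) (.e (nat_lit 434203) (nat_lit 18) (.e (nat_lit 6252) (nat_lit 337) (.e (nat_lit 7936) (nat_lit 166) .nil))))))) (.g (nat_lit 1) (.e (nat_lit 209316) (nat_lit 0) .nil) .nil))) 
(.lf (nat_lit 515651) (.g (nat_lit 1222) (.e (nat_lit 188455) (nat_lit 24) (.e (nat_lit 229666) (nat_lit 240) (.e (nat_lit 2630) (nat_lit 164) (.e (nat_lit 172113) (nat_lit 10) (.e (nat_lit 434270) (nat_lit 38) .nil))))) (.g (nat_lit 0) (.e (nat_lit 211527) (nat_lit 0) .nil) .nil)))) (.nd (nat_lit 9) 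
(.lf (nat_lit 515395) (.g (nat_lit 550) (.e (nat_lit 188451) (nat_lit 23) (.e (nat_lit 204846) (nat_lit 24) (.e (nat_lit 319505) (nat_lit 10) .nil))) (.g (nat_lit 0) (.e (nat_lit 210704) (nat_lit 0) .nil) .nil))) 
(.lf (nat_lit 515907) (.g (nat_lit 2005) (.e (nat_lit 196653) (nat_lit 11) (.e (nat_lit 16463) (nat_lit 13) (.e (nat_lit 483341) (nat_lit 9) (.e (nat_lit 426098) (nat_lit 1) .nil)))) (.g (nat_lit 0) (.e (nat_lit 213735) (nat_lit 0) .nil) .nil))))) (.nd (nat_lit 8) (.nd (nat_lit 9) 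
(.lf (nat_lit 515267) (.g (nat_lit 1947) (.e (nat_lit 188444) (nat_lit 21) (.e (nat_lit 164348) (nat_lit 240) (.e (nat_lit 2648) (nat_lit 166) (.e (nat_lit 188420) (nat_lit 0) (.e (nat_lit 2056) (nat_lit 142) (.e (nat_lit 704598) (nat_lit 6) .nil)))))) (.g (nat_lit 1) (.e (nat_lit 209829) (nat_lit 0) .nil) .nil))) 
(.lf (nat_lit 515779) (.g (nat_lit 2526) (.e (nat_lit 196626) (nat_lit 9) (.e (nat_lit 1401) (nat_lit 106) (.e (nat_lit 319531) (nat_lit 16) (.e (nat_lit 286733) (nat_lit 2) (.e (nat_lit 90128) (nat_lit 9) .nil))))) (.g (nat_lit 0) (.e (nat_lit 213381) (nat_lit 0) .nil) .nil)))) (.nd (nat_lit 9) 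
(.lf (nat_lit 515523) (.g (nat_lit 2485) (.e (nat_lit 188453) (nat_lit 24) (.e (nat_lit 229666) (nat_lit 240) (.e (nat_lit 2651) (nat_lit 166) (.e (nat_lit 188420) (nat_lit 0) (.e (nat_lit 2059) (nat_lit 142) (.e (nat_lit 704599) (nat_lit 6) .nil)))))) (.g (nat_lit 1) (.e (nat_lit 211144) (nat_lit 0) .nil) .nil))) 
(.lf (nat_lit 516035) (.g (nat_lit 1792) (.e (nat_lit 196654) (nat_lit 11) (.e (nat_lit 16436) (nat_lit 9) (.e (nat_lit 426482) (nat_lit 27) (.e (nat_lit 336389) (nat_lit 27) .nil)))) (.g (nat_lit 0) (.e (nat_lit 214043) (nat_lit 0) .nil) .nil))))))) (.nd (nat_lit 6) (.nd (nat_lit 7) (.nd (nat_lit 8) (.nd (nat_lit 9) 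
(.lf (nat_lit 515107) (.g (nat_lit 2877) (.e (nat_lit 188440) (nat_lit 20) (.e (nat_lit 3408) (nat_lit 212) (.e (nat_lit 655380) (nat_lit 6) (.e (nat_lit 188453) (nat_lit 24) (.e (nat_lit 229663) (nat_lit 240) (.e (nat_lit 2653) (nat_lit 166) .nil)))))) (.g (nat_lit 1) (.e (nat_lit 209146) (nat_lit 0) .nil) .nil))) 
(.lf (nat_lit 515619) (.g (nat_lit 1982) (.e (nat_lit 188455) (nat_lit 24) (.e (nat_lit 229663) (nat_lit 240) (.e (nat_lit 2630) (nat_lit 164) (.e (nat_lit 172095) (nat_lit 9) (.e (nat_lit 426025) (nat_lit 0) .nil))))) (.g (nat_lit 0) (.e (nat_lit 211416) (nat_lit 0) .nil) .nil)))) (.nd (nat_lit 9) 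
(.lf (nat_lit 515363) (.g (nat_lit 1853) (.e (nat_lit 188450) (nat_lit 23) (.e (nat_lit 204863) (nat_lit 27) (.e (nat_lit 344169) (nat_lit 40) (.e (nat_lit 671759) (nat_lit 3) (.e (nat_lit 57474) (nat_lit 28) .nil))))) (.g (nat_lit 0) (.e (nat_lit 210613) (nat_lit 0) .nil) .nil))) 
(.lf (nat_lit 515875) (.g (nat_lit 1742) (.e (nat_lit 196652) (nat_lit 11) (.e (nat_lit 16438) (nat_lit 9) (.e (nat_lit 426482) (nat_lit 27) (.e (nat_lit 336386) (nat_lit 27) .nil)))) (.g (nat_lit 0) (.e (nat_lit 213611) (nat_lit 0) .nil) .nil))))) (.nd (nat_lit 8) (.nd (nat_lit 9) 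
(.lf (nat_lit 515235) (.g (nat_lit 3900) (.e (nat_lit 188441) (nat_lit 20) (.e (nat_lit 3469) (nat_lit 217) (.e (nat_lit 696344) (nat_lit 8) (.e (nat_lit 172115) (nat_lit 10) (.e (nat_lit 434202) (nat_lit 18) (.e (nat_lit 6255) (nat_lit 337) (.e (nat_lit 2653) (nat_lit 166) .nil))))))) (.g (nat_lit 1) (.e (nat_lit 209612) (nat_lit 0) .nil) .nil))) 
(.lf (nat_lit 515747) (.g (nat_lit 2470) (.e (nat_lit 196617) (nat_lit 9) (.e (nat_lit 1181) (nat_lit 87) (.e (nat_lit 57931) (nat_lit 282) (.e (nat_lit 163874) (nat_lit 3) (.e (nat_lit 204872) (nat_lit 30) .nil))))) (.g (nat_lit 0) (.e (nat_lit 213212) (nat_lit 0) .nil) .nil)))) (.nd (nat_lit 9) 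
(.lf (nat_lit 515491) (.g (nat_lit 490) (.e (nat_lit 188453) (nat_lit 24) (.e (nat_lit 229663) (nat_lit 240) (.e (nat_lit 2653) (nat_lit 166) .nil))) (.g (nat_lit 0) (.e (nat_lit 211062) (nat_lit 0) .nil) .nil))) 
(.lf (nat_lit 516003) (.g (nat_lit 382) (.e (nat_lit 196654) (nat_lit 11) (.e (nat_lit 16436) (nat_lit 9) (.e (nat_lit 426131) (nat_lit 3) .nil))) (.g (nat_lit 0) (.e (nat_lit 214001) (nat_lit 0) .nil) .nil)))))) (.nd (nat_lit 7) (.nd (nat_lit 8) (.nd (nat_lit 9) 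
(.lf (nat_lit 515171) (.g (nat_lit 1379) (.e (nat_lit 188441) (nat_lit 20) (.e (nat_lit 3390) (nat_lit 210) (.e (nat_lit 639004) (nat_lit 13) (.e (nat_lit 1615) (nat_lit 113) (.e (nat_lit 376860) (nat_lit 21) (.e (nat_lit 57832) (nat_lit 250) (.e (nat_lit 7936) (nat_lit 166) .nil))))))) (.g (nat_lit 1) (.e (nat_lit 209377) (nat_lit 0) .nil) .nil))) 
(.lf (nat_lit 515683) (.g (nat_lit 1857) (.e (nat_lit 188455) (nat_lit 24) (.e (nat_lit 229680) (nat_lit 244) (.e (nat_lit 163915) (nat_lit 12) (.e (nat_lit 426188) (nat_lit 9) (.e (nat_lit 426444) (nat_lit 19) (.e (nat_lit 114432) (nat_lit 6) .nil)))))) (.g (nat_lit 1) (.e (nat_lit 211677) (nat_lit 0) .nil) .nil)))) (.nd (nat_lit 9) 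
(.lf (nat_lit 515427) (.g (nat_lit 918) (.e (nat_lit 188452) (nat_lit 23) (.e (nat_lit 204829) (nat_lit 18) (.e (nat_lit 57691) (nat_lit 156) .nil))) (.g (nat_lit 0) (.e (nat_lit 210820) (nat_lit 0) .nil) .nil))) 
(.lf (nat_lit 515939) (.g (nat_lit 2465) (.e (nat_lit 196654) (nat_lit 11) (.e (nat_lit 16412) (nat_lit 2) (.e (nat_lit 196654) (nat_lit 11) (.e (nat_lit 16416) (nat_lit 3) (.e (nat_lit 204809) (nat_lit 9) (.e (nat_lit 426114) (nat_lit 2) .nil)))))) (.g (nat_lit 1) (.e (nat_lit 213838) (nat_lit 0) .nil) .nil))))) (.nd (nat_lit 8) (.nd (nat_lit 9) 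
(.lf (nat_lit 515299) (.g (nat_lit 2302) (.e (nat_lit 188446) (nat_lit 21) (.e (nat_lit 164348) (nat_lit 240) (.e (nat_lit 2628) (nat_lit 164) (.e (nat_lit 172120) (nat_lit 12) (.e (nat_lit 475198) (nat_lit 40) (.e (nat_lit 704599) (nat_lit 6) .nil)))))) (.g (nat_lit 1) (.e (nat_lit 210240) (nat_lit 0) .nil) .nil))) 
(.lf (nat_lit 515811) (.g (nat_lit 2669) (.e (nat_lit 196626) (nat_lit 9) (.e (nat_lit 1400) (nat_lit 106) (.e (nat_lit 319534) (nat_lit 16) (.e (nat_lit 286722) (nat_lit 0) (.e (nat_lit 1685) (nat_lit 117) .nil))))) (.g (nat_lit 0) (.e (nat_lit 213418) (nat_lit 0) .nil) .nil)))) (.nd (nat_lit 9) 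
(.lf (nat_lit 515555) (.g (nat_lit 2106) (.e (nat_lit 188453) (nat_lit 24) (.e (nat_lit 229680) (nat_lit 244) (.e (nat_lit 163913) (nat_lit 12) (.e (nat_lit 426228) (nat_lit 9) (.e (nat_lit 426443) (nat_lit 19) (.e (nat_lit 114432) (nat_lit 6) .nil)))))) (.g (nat_lit 1) (.e (nat_lit 211249) (nat_lit 0) .nil) .nil))) 
(.lf (nat_lit 516067) (.g (nat_lit 542) (.e (nat_lit 196654) (nat_lit 11) (.e (nat_lit 16438) (nat_lit 9) (.e (nat_lit 426486) (nat_lit 27) .nil))) (.g (nat_lit 0) (.e (nat_lit 214087) (nat_lit 0) .nil) .nil)))))))) (.nd (nat_lit 5) (.nd (nat_lit 6) (.nd (nat_lit 7) (.nd (nat_lit 8) (.nd (nat_lit 9) 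
(.lf (nat_lit 515091) (.g (nat_lit 1846) (.e (nat_lit 188440) (nat_lit 20) (.e (nat_lit 3390) (nat_lit 210) (.e (nat_lit 639004) (nat_lit 13) (.e (nat_lit 1615) (nat_lit 113) (.e (nat_lit 376860) (nat_lit 21) (.e (nat_lit 57832) (nat_lit 250) (.e (nat_lit 7936) (nat_lit 166) .nil))))))) (.g (nat_lit 1) (.e (nat_lit 209057) (nat_lit 0) .nil) .nil))) 
(.lf (nat_lit 515603) (.g (nat_lit 1499) (.e (nat_lit 188454) (nat_lit 24) (.e (nat_lit 229665) (nat_lit 240) (.e (nat_lit 2653) (nat_lit 166) (.e (nat_lit 188441) (nat_lit 20) (.e (nat_lit 3408) (nat_lit 212) .nil))))) (.g (nat_lit 0) (.e (nat_lit 211357) (nat_lit 0) .nil) .nil)))) (.nd (nat_lit 9) 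
(.lf (nat_lit 515347) (.g (nat_lit 3383) (.e (nat_lit 188450) (nat_lit 23) (.e (nat_lit 204846) (nat_lit 24) (.e (nat_lit 319531) (nat_lit 16) (.e (nat_lit 286733) (nat_lit 2) (.e (nat_lit 90177) (nat_lit 15) .nil))))) (.g (nat_lit 1) (.e (nat_lit 210542) (nat_lit 0) .nil) .nil))) 
(.lf (nat_lit 515859) (.g (nat_lit 2013) (.e (nat_lit 196635) (nat_lit 9) (.e (nat_lit 426) (nat_lit 32) (.e (nat_lit 426190) (nat_lit 9) (.e (nat_lit 426566) (nat_lit 34) (.e (nat_lit 393253) (nat_lit 18) .nil))))) (.g (nat_lit 0) (.e (nat_lit 213554) (nat_lit 0) .nil) .nil))))) (.nd (nat_lit 8) (.nd (nat_lit 9) 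
(.lf (nat_lit 515219) (.g (nat_lit 4031) (.e (nat_lit 188441) (nat_lit 20) (.e (nat_lit 3469) (nat_lit 217) (.e (nat_lit 696344) (nat_lit 8) (.e (nat_lit 172113) (nat_lit 10) (.e (nat_lit 434203) (nat_lit 18) (.e (nat_lit 6255) (nat_lit 337) (.e (nat_lit 2653) (nat_lit 166) .nil))))))) (.g (nat_lit 1) (.e (nat_lit 209596) (nat_lit 0) .nil) .nil))) 
(.lf (nat_lit 515731) (.g (nat_lit 642) (.e (nat_lit 204544) (nat_lit 6) (.e (nat_lit 188440) (nat_lit 20) (.e (nat_lit 3578) (nat_lit 223) (.e (nat_lit 745474) (nat_lit 0) .nil)))) (.g (nat_lit 0) (.e (nat_lit 212968) (nat_lit 0) .nil) .nil)))) (.nd (nat_lit 9) 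
(.lf (nat_lit 515475) (.g (nat_lit 641) (.e (nat_lit 196352) (nat_lit 23) (.e (nat_lit 204846) (nat_lit 24) (.e (nat_lit 319532) (nat_lit 16) .nil))) (.g (nat_lit 0) (.e (nat_lit 211012) (nat_lit 0) .nil) .nil))) 
(.lf (nat_lit 515987) (.g (nat_lit 3169) (.e (nat_lit 196654) (nat_lit 11) (.e (nat_lit 16433) (nat_lit 9) (.e (nat_lit 426568) (nat_lit 34) (.e (nat_lit 393251) (nat_lit 18) (.e (nat_lit 164331) (nat_lit 230) (.e (nat_lit 163866) (nat_lit 2) .nil)))))) (.g (nat_lit 1) (.e (nat_lit 213981) (nat_lit 0) .nil) .nil)))))) (.nd (nat_lit 7) (.nd (nat_lit 8) (.nd (nat_lit 9) 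
(.lf (nat_lit 515155) (.g (nat_lit 398) (.e (nat_lit 188440) (nat_lit 20) (.e (nat_lit 3579) (nat_lit 223) (.e (nat_lit 745491) (nat_lit 4) .nil))) (.g (nat_lit 0) (.e (nat_lit 209339) (nat_lit 0) .nil) .nil))) 
(.lf (nat_lit 515667) (.g (nat_lit 2717) (.e (nat_lit 188455) (nat_lit 24) (.e (nat_lit 229678) (nat_lit 244) (.e (nat_lit 163913) (nat_lit 12) (.e (nat_lit 426228) (nat_lit 9) (.e (nat_lit 426443) (nat_lit 19) (.e (nat_lit 114432) (nat_lit 6) .nil)))))) (.g (nat_lit 1) (.e (nat_lit 211597) (nat_lit 0) .nil) .nil)))) (.nd (nat_lit 9) 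
(.lf (nat_lit 515411) (.g (nat_lit 2517) (.e (nat_lit 188451) (nat_lit 23) (.e (nat_lit 204846) (nat_lit 24) (.e (nat_lit 319535) (nat_lit 17) (.e (nat_lit 294928) (nat_lit 2) (.e (nat_lit 90176) (nat_lit 15) .nil))))) (.g (nat_lit 1) (.e (nat_lit 210731) (nat_lit 0) .nil) .nil))) 
(.lf (nat_lit 515923) (.g (nat_lit 1223) (.e (nat_lit 196653) (nat_lit 11) (.e (nat_lit 16466) (nat_lit 13) (.e (nat_lit 483341) (nat_lit 9) (.e (nat_lit 426106) (nat_lit 1) .nil)))) (.g (nat_lit 0) (.e (nat_lit 213751) (nat_lit 0) .nil) .nil))))) (.nd (nat_lit 8) (.nd (nat_lit 9) 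
(.lf (nat_lit 515283) (.g (nat_lit 1275) (.e (nat_lit 188446) (nat_lit 21) (.e (nat_lit 164319) (nat_lit 228) (.e (nat_lit 57424) (nat_lit 14) (.e (nat_lit 352302) (nat_lit 20) .nil)))) (.g (nat_lit 0) (.e (nat_lit 210128) (nat_lit 0) .nil) .nil))) 
(.lf (nat_lit 515795) (.g (nat_lit 1680) (.e (nat_lit 196626) (nat_lit 9) (.e (nat_lit 1400) (nat_lit 106) (.e (nat_lit 319532) (nat_lit 16) (.e (nat_lit 286734) (nat_lit 3) (.e (nat_lit 98382) (nat_lit 31) .nil))))) (.g (nat_lit 0) (.e (nat_lit 213401) (nat_lit 0) .nil) .nil)))) (.nd (nat_lit 9) 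
(.lf (nat_lit 515539) (.g (nat_lit 2706) (.e (nat_lit 188453) (nat_lit 24) (.e (nat_lit 229678) (nat_lit 244) (.e (nat_lit 163913) (nat_lit 12) (.e (nat_lit 426228) (nat_lit 9) (.e (nat_lit 426443) (nat_lit 19) (.e (nat_lit 114432) (nat_lit 6) .nil)))))) (.g (nat_lit 1) (.e (nat_lit 211177) (nat_lit 0) .nil) .nil))) 
(.lf (nat_lit 516051) (.g (nat_lit 1868) (.e (nat_lit 196654) (nat_lit 11) (.e (nat_lit 16438) (nat_lit 9) (.e (nat_lit 426131) (nat_lit 3) (.e (nat_lit 204882) (nat_lit 32) (.e (nat_lit 385109) (nat_lit 51) .nil))))) (.g (nat_lit 0) (.e (nat_lit 214064) (nat_lit 0) .nil) .nil))))))) (.nd (nat_lit 6) (.nd (nat_lit 7) (.nd (nat_lit 8) (.nd (nat_lit 9) 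
(.lf (nat_lit 515123) (.g (nat_lit 1565) (.e (nat_lit 188440) (nat_lit 20) (.e (nat_lit 3468) (nat_lit 217) (.e (nat_lit 696344) (nat_lit 8) (.e (nat_lit 172113) (nat_lit 10) (.e (nat_lit 434287) (nat_lit 43) .nil))))) (.g (nat_lit 0) (.e (nat_lit 209243) (nat_lit 0) .nil) .nil))) 
(.lf (nat_lit 515635) (.g (nat_lit 2308) (.e (nat_lit 188455) (nat_lit 24) (.e (nat_lit 229664) (nat_lit 240) (.e (nat_lit 2651) (nat_lit 166) (.e (nat_lit 188417) (nat_lit 0) (.e (nat_lit 2147) (nat_lit 142) (.e (nat_lit 704597) (nat_lit 6) .nil)))))) (.g (nat_lit 1) (.e (nat_lit 211481) (nat_lit 0) .nil) .nil)))) (.nd (nat_lit 9) 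
(.lf (nat_lit 515379) (.g (nat_lit 3221) (.e (nat_lit 188450) (nat_lit 23) (.e (nat_lit 204885) (nat_lit 33) (.e (nat_lit 401451) (nat_lit 12) (.e (nat_lit 475185) (nat_lit 29) (.e (nat_lit 557107) (nat_lit 15) .nil))))) (.g (nat_lit 1) (.e (nat_lit 210669) (nat_lit 0) .nil) .nil))) 
(.lf (nat_lit 515891) (.g (nat_lit 1194) (.e (nat_lit 196653) (nat_lit 11) (.e (nat_lit 16435) (nat_lit 9) (.e (nat_lit 426566) (nat_lit 34) (.e (nat_lit 393251) (nat_lit 18) .nil)))) (.g (nat_lit 0) (.e (nat_lit 213681) (nat_lit 0) .nil) .nil))))) (.nd (nat_lit 8) (.nd (nat_lit 9) 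
(.lf (nat_lit 515251) (.g (nat_lit 2986) (.e (nat_lit 188444) (nat_lit 21) (.e (nat_lit 164347) (nat_lit 240) (.e (nat_lit 2619) (nat_lit 164) (.e (nat_lit 172120) (nat_lit 12) (.e (nat_lit 475198) (nat_lit 40) (.e (nat_lit 704598) (nat_lit 6) .nil)))))) (.g (nat_lit 1) (.e (nat_lit 209763) (nat_lit 0) .nil) .nil))) 
(.lf (nat_lit 515763) (.g (nat_lit 1680) (.e (nat_lit 196624) (nat_lit 9) (.e (nat_lit 375) (nat_lit 32) (.e (nat_lit 426173) (nat_lit 7) (.e (nat_lit 409617) (nat_lit 10) (.e (nat_lit 604) (nat_lit 45) .nil))))) (.g (nat_lit 0) (.e (nat_lit 213280) (nat_lit 0) .nil) .nil)))) (.nd (nat_lit 9) 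
(.lf (nat_lit 515507) (.g (nat_lit 1495) (.e (nat_lit 188453) (nat_lit 24) (.e (nat_lit 229665) (nat_lit 240) (.e (nat_lit 2651) (nat_lit 166) (.e (nat_lit 188440) (nat_lit 20) .nil)))) (.g (nat_lit 0) (.e (nat_lit 211103) (nat_lit 0) .nil) .nil))) 
(.lf (nat_lit 516019) (.g (nat_lit 3024) (.e (nat_lit 196654) (nat_lit 11) (.e (nat_lit 16436) (nat_lit 9) (.e (nat_lit 426131) (nat_lit 3) (.e (nat_lit 204880) (nat_lit 32) (.e (nat_lit 385107) (nat_lit 51) (.e (nat_lit 794664) (nat_lit 22) .nil)))))) (.g (nat_lit 1) (.e (nat_lit 214021) (nat_lit 0) .nil) .nil)))))) (.nd (nat_lit 7) (.nd (nat_lit 8) (.nd (nat_lit 9) 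
(.lf (nat_lit 515187) (.g (nat_lit 1537) (.e (nat_lit 188441) (nat_lit 20) (.e (nat_lit 3409) (nat_lit 212) (.e (nat_lit 655364) (nat_lit 0) (.e (nat_lit 2989) (nat_lit 186) (.e (nat_lit 450304) (nat_lit 4) (.e (nat_lit 114432) (nat_lit 6) .nil)))))) (.g (nat_lit 1) (.e (nat_lit 209457) (nat_lit 0) .nil) .nil))) 
(.lf (nat_lit 515699) (.g (nat_lit 2487) (.e (nat_lit 188455) (nat_lit 24) (.e (nat_lit 229708) (nat_lit 256) (.e (nat_lit 57400) (nat_lit 10) (.e (nat_lit 319534) (nat_lit 16) (.e (nat_lit 286728) (nat_lit 0) (.e (nat_lit 1928) (nat_lit 131) (.e (nat_lit 614420) (nat_lit 6) .nil))))))) (.g (nat_lit 1) (.e (nat_lit 211746) (nat_lit 0) .nil) .nil)))) (.nd (nat_lit 9) 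
(.lf (nat_lit 515443) (.g (nat_lit 998) (.e (nat_lit 188452) (nat_lit 23) (.e (nat_lit 204846) (nat_lit 24) (.e (nat_lit 319502) (nat_lit 10) (.e (nat_lit 7936) (nat_lit 298) .nil)))) (.g (nat_lit 0) (.e (nat_lit 210854) (nat_lit 0) .nil) .nil))) 
(.lf (nat_lit 515955) (.g (nat_lit 3344) (.e (nat_lit 196654) (nat_lit 11) (.e (nat_lit 16416) (nat_lit 3) (.e (nat_lit 204813) (nat_lit 9) (.e (nat_lit 426124) (nat_lit 2) (.e (nat_lit 196654) (nat_lit 11) (.e (nat_lit 16410) (nat_lit 2) .nil)))))) (.g (nat_lit 1) (.e (nat_lit 213912) (nat_lit 0) .nil) .nil))))) (.nd (nat_lit 8) (.nd (nat_lit 9) 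
(.lf (nat_lit 515315) (.g (nat_lit 782) (.e (nat_lit 188449) (nat_lit 22) (.e (nat_lit 196666) (nat_lit 13) (.e (nat_lit 65641) (nat_lit 15) .nil))) (.g (nat_lit 0) (.e (nat_lit 210425) (nat_lit 0) .nil) .nil))) 
(.lf (nat_lit 515827) (.g (nat_lit 1519) (.e (nat_lit 196628) (nat_lit 9) (.e (nat_lit 397) (nat_lit 32) (.e (nat_lit 426188) (nat_lit 9) (.e (nat_lit 426566) (nat_lit 34) (.e (nat_lit 393254) (nat_lit 18) .nil))))) (.g (nat_lit 0) (.e (nat_lit 213443) (nat_lit 0) .nil) .nil)))) (.nd (nat_lit 9) 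
(.lf (nat_lit 515571) (.g (nat_lit 2590) (.e (nat_lit 188453) (nat_lit 24) (.e (nat_lit 229681) (nat_lit 244) (.e (nat_lit 163919) (nat_lit 14) (.e (nat_lit 442374) (nat_lit 0) (.e (nat_lit 2059) (nat_lit 142) (.e (nat_lit 704599) (nat_lit 6) .nil)))))) (.g (nat_lit 1) (.e (nat_lit 211296) (nat_lit 0) .nil) .nil))) 
(.lf (nat_lit 516083) (.g (nat_lit 861) (.e (nat_lit 196654) (nat_lit 11) (.e (nat_lit 16463) (nat_lit 13) (.e (nat_lit 483340) (nat_lit 9) .nil))) (.g (nat_lit 0) (.e (nat_lit 214201) (nat_lit 0) .nil) .nil))))))))) (.nd (nat_lit 4) (.nd (nat_lit 5) (.nd (nat_lit 6) (.nd (nat_lit 7) (.nd (nat_lit 8) (.nd (nat_lit 9) 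
(.lf (nat_lit 515083) (.g (nat_lit 1612) (.e (nat_lit 188440) (nat_lit 20) (.e (nat_lit 3308) (nat_lit 202) (.e (nat_lit 573475) (nat_lit 12) (.e (nat_lit 57574) (nat_lit 55) .nil)))) (.g (nat_lit 0) (.e (nat_lit 209038) (nat_lit 0) .nil) .nil))) 
(.lf (nat_lit 515595) (.g (nat_lit 1553) (.e (nat_lit 188454) (nat_lit 24) (.e (nat_lit 229665) (nat_lit 240) (.e (nat_lit 2651) (nat_lit 166) (.e (nat_lit 188420) (nat_lit 0) (.e (nat_lit 2058) (nat_lit 142) .nil))))) (.g (nat_lit 0) (.e (nat_lit 211347) (nat_lit 0) .nil) .nil)))) (.nd (nat_lit 9) 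
(.lf (nat_lit 515339) (.g (nat_lit 3761) (.e (nat_lit 188450) (nat_lit 23) (.e (nat_lit 204846) (nat_lit 24) (.e (nat_lit 319528) (nat_lit 16) (.e (nat_lit 286732) (nat_lit 2) (.e (nat_lit 90176) (nat_lit 15) .nil))))) (.g (nat_lit 1) (.e (nat_lit 210526) (nat_lit 0) .nil) .nil))) 
(.lf (nat_lit 515851) (.g (nat_lit 2558) (.e (nat_lit 196630) (nat_lit 9) (.e (nat_lit 1669) (nat_lit 116) (.e (nat_lit 401457) (nat_lit 13) (.e (nat_lit 483346) (nat_lit 17) (.e (nat_lit 2367) (nat_lit 153) .nil))))) (.g (nat_lit 0) (.e (nat_lit 213541) (nat_lit 0) .nil) .nil))))) (.nd (nat_lit 8) (.nd (nat_lit 9) 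
(.lf (nat_lit 515211) (.g (nat_lit 2578) (.e (nat_lit 188441) (nat_lit 20) (.e (nat_lit 3469) (nat_lit 217) (.e (nat_lit 696344) (nat_lit 8) (.e (nat_lit 172106) (nat_lit 10) (.e (nat_lit 434285) (nat_lit 42) (.e (nat_lit 696064) (nat_lit 10) .nil)))))) (.g (nat_lit 1) (.e (nat_lit 209588) (nat_lit 0) .nil) .nil))) 
(.lf (nat_lit 515723) (.g (nat_lit 839) (.e (nat_lit 204544) (nat_lit 6) (.e (nat_lit 188434) (nat_lit 20) (.e (nat_lit 3578) (nat_lit 223) (.e (nat_lit 745475) (nat_lit 0) (.e (nat_lit 1559) (nat_lit 110) .nil))))) (.g (nat_lit 0) (.e (nat_lit 212952) (nat_lit 0) .nil) .nil)))) (.nd (nat_lit 9) 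
(.lf (nat_lit 515467) (.g (nat_lit 4054) (.e (nat_lit 188452) (nat_lit 23) (.e (nat_lit 204885) (nat_lit 33) (.e (nat_lit 401451) (nat_lit 12) (.e (nat_lit 475184) (nat_lit 29) (.e (nat_lit 557108) (nat_lit 15) .nil))))) (.g (nat_lit 1) (.e (nat_lit 211004) (nat_lit 0) .nil) .nil))) 
(.lf (nat_lit 515979) (.g (nat_lit 2025) (.e (nat_lit 196654) (nat_lit 11) (.e (nat_lit 16433) (nat_lit 9) (.e (nat_lit 426480) (nat_lit 27) (.e (nat_lit 336389) (nat_lit 27) (.e (nat_lit 426098) (nat_lit 1) .nil))))) (.g (nat_lit 0) (.e (nat_lit 213968) (nat_lit 0) .nil) .nil)))))) (.nd (nat_lit 7) (.nd (nat_lit 8) (.nd (nat_lit 9) 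
(.lf (nat_lit 515147) (.g (nat_lit 1778) (.e (nat_lit 188440) (nat_lit 20) (.e (nat_lit 3469) (nat_lit 217) (.e (nat_lit 696344) (nat_lit 8) (.e (nat_lit 172113) (nat_lit 10) (.e (nat_lit 434208) (nat_lit 18) (.e (nat_lit 6262) (nat_lit 337) (.e (nat_lit 7936) (nat_lit 166) .nil))))))) (.g (nat_lit 1) (.e (nat_lit 209324) (nat_lit 0) .nil) .nil))) 
(.lf (nat_lit 515659) (.g (nat_lit 1652) (.e (nat_lit 188455) (nat_lit 24) (.e (nat_lit 229677) (nat_lit 244) (.e (nat_lit 163908) (nat_lit 12) (.e (nat_lit 426305) (nat_lit 12) (.e (nat_lit 475197) (nat_lit 40) .nil))))) (.g (nat_lit 0) (.e (nat_lit 211545) (nat_lit 0) .nil) .nil)))) (.nd (nat_lit 9) 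
(.lf (nat_lit 515403) (.g (nat_lit 3473) (.e (nat_lit 188451) (nat_lit 23) (.e (nat_lit 204846) (nat_lit 24) (.e (nat_lit 319533) (nat_lit 16) (.e (nat_lit 286732) (nat_lit 2) (.e (nat_lit 90176) (nat_lit 15) .nil))))) (.g (nat_lit 1) (.e (nat_lit 210717) (nat_lit 0) .nil) .nil))) 
(.lf (nat_lit 515915) (.g (nat_lit 1954) (.e (nat_lit 196653) (nat_lit 11) (.e (nat_lit 16463) (nat_lit 13) (.e (nat_lit 483341) (nat_lit 9) (.e (nat_lit 433920) (nat_lit 20) .nil)))) (.g (nat_lit 0) (.e (nat_lit 213743) (nat_lit 0) .nil) .nil))))) (.nd (nat_lit 8) (.nd (nat_lit 9) 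
(.lf (nat_lit 515275) (.g (nat_lit 602) (.e (nat_lit 188445) (nat_lit 21) (.e (nat_lit 164348) (nat_lit 240) (.e (nat_lit 2618) (nat_lit 164) .nil))) (.g (nat_lit 0) (.e (nat_lit 209933) (nat_lit 0) .nil) .nil))) 
(.lf (nat_lit 515787) (.g (nat_lit 2820) (.e (nat_lit 196626) (nat_lit 9) (.e (nat_lit 1400) (nat_lit 106) (.e (nat_lit 319530) (nat_lit 16) (.e (nat_lit 286733) (nat_lit 2) (.e (nat_lit 90128) (nat_lit 9) .nil))))) (.g (nat_lit 0) (.e (nat_lit 213393) (nat_lit 0) .nil) .nil)))) (.nd (nat_lit 9) 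
(.lf (nat_lit 515531) (.g (nat_lit 1557) (.e (nat_lit 188453) (nat_lit 24) (.e (nat_lit 229666) (nat_lit 240) (.e (nat_lit 2725) (nat_lit 172) (.e (nat_lit 237605) (nat_lit 9) (.e (nat_lit 426444) (nat_lit 19) (.e (nat_lit 114432) (nat_lit 6) .nil)))))) (.g (nat_lit 1) (.e (nat_lit 211161) (nat_lit 0) .nil) .nil))) 
(.lf (nat_lit 516043) (.g (nat_lit 1229) (.e (nat_lit 196654) (nat_lit 11) (.e (nat_lit 16438) (nat_lit 9) (.e (nat_lit 426131) (nat_lit 3) (.e (nat_lit 204852) (nat_lit 26) .nil)))) (.g (nat_lit 0) (.e (nat_lit 214056) (nat_lit 0) .nil) .nil))))))) (.nd (nat_lit 6) (.nd (nat_lit 7) (.nd (nat_lit 8) (.nd (nat_lit 9) 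
(.lf (nat_lit 515115) (.g (nat_lit 1580) (.e (nat_lit 188440) (nat_lit 20) (.e (nat_lit 3409) (nat_lit 212) (.e (nat_lit 655380) (nat_lit 6) (.e (nat_lit 188428) (nat_lit 20) (.e (nat_lit 3402) (nat_lit 211) (.e (nat_lit 647185) (nat_lit 6) .nil)))))) (.g (nat_lit 1) (.e (nat_lit 209170) (nat_lit 0) .nil) .nil))) 
(.lf (nat_lit 515627) (.g (nat_lit 1942) (.e (nat_lit 188455) (nat_lit 24) (.e (nat_lit 229663) (nat_lit 240) (.e (nat_lit 2651) (nat_lit 166) (.e (nat_lit 188418) (nat_lit 0) (.e (nat_lit 2059) (nat_lit 142) .nil))))) (.g (nat_lit 0) (.e (nat_lit 211438) (nat_lit 0) .nil) .nil)))) (.nd (nat_lit 9) 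
(.lf (nat_lit 515371) (.g (nat_lit 1620) (.e (nat_lit 188450) (nat_lit 23) (.e (nat_lit 204884) (nat_lit 33) (.e (nat_lit 401450) (nat_lit 12) (.e (nat_lit 475183) (nat_lit 29) .nil)))) (.g (nat_lit 0) (.e (nat_lit 210644) (nat_lit 0) .nil) .nil))) 
(.lf (nat_lit 515883) (.g (nat_lit 759) (.e (nat_lit 196653) (nat_lit 11) (.e (nat_lit 16406) (nat_lit 1) (.e (nat_lit 164398) (nat_lit 256) (.e (nat_lit 57407) (nat_lit 12) .nil)))) (.g (nat_lit 0) (.e (nat_lit 213643) (nat_lit 0) .nil) .nil))))) (.nd (nat_lit 8) (.nd (nat_lit 9) 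
(.lf (nat_lit 515243) (.g (nat_lit 186) (.e (nat_lit 188444) (nat_lit 21) (.e (nat_lit 164345) (nat_lit 240) (.e (nat_lit 2648) (nat_lit 166) .nil))) (.g (nat_lit 0) (.e (nat_lit 209728) (nat_lit 0) .nil) .nil))) 
(.lf (nat_lit 515755) (.g (nat_lit 1183) (.e (nat_lit 196623) (nat_lit 9) (.e (nat_lit 395) (nat_lit 32) (.e (nat_lit 426188) (nat_lit 9) (.e (nat_lit 426566) (nat_lit 34) .nil)))) (.g (nat_lit 0) (.e (nat_lit 213258) (nat_lit 0) .nil) .nil)))) (.nd (nat_lit 9) 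
(.lf (nat_lit 515499) (.g (nat_lit 1698) (.e (nat_lit 188453) (nat_lit 24) (.e (nat_lit 229665) (nat_lit 240) (.e (nat_lit 2630) (nat_lit 164) (.e (nat_lit 172118) (nat_lit 12) (.e (nat_lit 475197) (nat_lit 40) .nil))))) (.g (nat_lit 0) (.e (nat_lit 211089) (nat_lit 0) .nil) .nil))) 
(.lf (nat_lit 516011) (.g (nat_lit 2420) (.e (nat_lit 196654) (nat_lit 11) (.e (nat_lit 16436) (nat_lit 9) (.e (nat_lit 426131) (nat_lit 3) (.e (nat_lit 204852) (nat_lit 26) (.e (nat_lit 343808) (nat_lit 20) (.e (nat_lit 221210) (nat_lit 22) .nil)))))) (.g (nat_lit 1) (.e (nat_lit 214011) (nat_lit 0) .nil) .nil)))))) (.nd (nat_lit 7) (.nd (nat_lit 8) (.nd (nat_lit 9) 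
(.lf (nat_lit 515179) (.g (nat_lit 1121) (.e (nat_lit 188441) (nat_lit 20) (.e (nat_lit 3408) (nat_lit 212) (.e (nat_lit 655360) (nat_lit 0) (.e (nat_lit 3044) (nat_lit 189) (.e (nat_lit 474880) (nat_lit 4) (.e (nat_lit 114432) (nat_lit 6) .nil)))))) (.g (nat_lit 1) (.e (nat_lit 209412) (nat_lit 0) .nil) .nil))) 
(.lf (nat_lit 515691) (.g (nat_lit 1578) (.e (nat_lit 188455) (nat_lit 24) (.e (nat_lit 229681) (nat_lit 244) (.e (nat_lit 163913) (nat_lit 12) (.e (nat_lit 426230) (nat_lit 9) (.e (nat_lit 426443) (nat_lit 19) (.e (nat_lit 114432) (nat_lit 6) .nil)))))) (.g (nat_lit 1) (.e (nat_lit 211718) (nat_lit 0) .nil) .nil)))) (.nd (nat_lit 9) 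
(.lf (nat_lit 515435) (.g (nat_lit 534) (.e (nat_lit 188452) (nat_lit 23) (.e (nat_lit 204845) (nat_lit 24) (.e (nat_lit 319504) (nat_lit 10) .nil))) (.g (nat_lit 0) (.e (nat_lit 210839) (nat_lit 0) .nil) .nil))) 
(.lf (nat_lit 515947) (.g (nat_lit 1858) (.e (nat_lit 196654) (nat_lit 11) (.e (nat_lit 16416) (nat_lit 3) (.e (nat_lit 204809) (nat_lit 9) (.e (nat_lit 426123) (nat_lit 2) (.e (nat_lit 196654) (nat_lit 11) (.e (nat_lit 16411) (nat_lit 2) .nil)))))) (.g (nat_lit 1) (.e (nat_lit 213888) (nat_lit 0) .nil) .nil))))) (.nd (nat_lit 8) (.nd (nat_lit 9) 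
(.lf (nat_lit 515307) (.g (nat_lit 762) (.e (nat_lit 188448) (nat_lit 22) (.e (nat_lit 196656) (nat_lit 11) (.e (nat_lit 24320) (nat_lit 20) .nil))) (.g (nat_lit 0) (.e (nat_lit 210326) (nat_lit 0) .nil) .nil))) 
(.lf (nat_lit 515819) (.g (nat_lit 2393) (.e (nat_lit 196626) (nat_lit 9) (.e (nat_lit 1400) (nat_lit 106) (.e (nat_lit 319534) (nat_lit 16) (.e (nat_lit 286734) (nat_lit 3) (.e (nat_lit 98382) (nat_lit 31) .nil))))) (.g (nat_lit 0) (.e (nat_lit 213427) (nat_lit 0) .nil) .nil)))) (.nd (nat_lit 9) 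
(.lf (nat_lit 515563) (.g (nat_lit 3409) (.e (nat_lit 188453) (nat_lit 24) (.e (nat_lit 229680) (nat_lit 244) (.e (nat_lit 163920) (nat_lit 14) (.e (nat_lit 442374) (nat_lit 0) (.e (nat_lit 2059) (nat_lit 142) (.e (nat_lit 704598) (nat_lit 6) .nil)))))) (.g (nat_lit 1) (.e (nat_lit 211260) (nat_lit 0) .nil) .nil))) 
(.lf (nat_lit 516075) (.g (nat_lit 2186) (.e (nat_lit 196654) (nat_lit 11) (.e (nat_lit 16459) (nat_lit 12) (.e (nat_lit 475185) (nat_lit 29) (.e (nat_lit 557098) (nat_lit 13) .nil)))) (.g (nat_lit 0) (.e (nat_lit 214179) (nat_lit 0) .nil) .nil)))))))) (.nd (nat_lit 5) (.nd (nat_lit 6) (.nd (nat_lit 7) (.nd (nat_lit 8) (.nd (nat_lit 9) 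
(.lf (nat_lit 515099) (.g (nat_lit 1122) (.e (nat_lit 188440) (nat_lit 20) (.e (nat_lit 3408) (nat_lit 212) (.e (nat_lit 655363) (nat_lit 0) (.e (nat_lit 3004) (nat_lit 186) (.e (nat_lit 450304) (nat_lit 4) (.e (nat_lit 114432) (nat_lit 6) .nil)))))) (.g (nat_lit 1) (.e (nat_lit 209106) (nat_lit 0) .nil) .nil))) 
(.lf (nat_lit 515611) (.g (nat_lit 548) (.e (nat_lit 188454) (nat_lit 24) (.e (nat_lit 229678) (nat_lit 244) (.e (nat_lit 163915) (nat_lit 12) .nil))) (.g (nat_lit 0) (.e (nat_lit 211369) (nat_lit 0) .nil) .nil)))) (.nd (nat_lit 9) 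
(.lf (nat_lit 515355) (.g (nat_lit 2954) (.e (nat_lit 188450) (nat_lit 23) (.e (nat_lit 204846) (nat_lit 24) (.e (nat_lit 319534) (nat_lit 16) (.e (nat_lit 286733) (nat_lit 2) (.e (nat_lit 90178) (nat_lit 15) .nil))))) (.g (nat_lit 1) (.e (nat_lit 210558) (nat_lit 0) .nil) .nil))) 
(.lf (nat_lit 515867) (.g (nat_lit 2244) (.e (nat_lit 196652) (nat_lit 11) (.e (nat_lit 16434) (nat_lit 9) (.e (nat_lit 426566) (nat_lit 34) (.e (nat_lit 393251) (nat_lit 18) (.e (nat_lit 164332) (nat_lit 230) .nil))))) (.g (nat_lit 0) (.e (nat_lit 213583) (nat_lit 0) .nil) .nil))))) (.nd (nat_lit 8) (.nd (nat_lit 9) 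
(.lf (nat_lit 515227) (.g (nat_lit 2995) (.e (nat_lit 188441) (nat_lit 20) (.e (nat_lit 3469) (nat_lit 217) (.e (nat_lit 696344) (nat_lit 8) (.e (nat_lit 172113) (nat_lit 10) (.e (nat_lit 434208) (nat_lit 18) (.e (nat_lit 6254) (nat_lit 337) (.e (nat_lit 7936) (nat_lit 166) .nil))))))) (.g (nat_lit 1) (.e (nat_lit 209604) (nat_lit 0) .nil) .nil))) 
(.lf (nat_lit 515739) (.g (nat_lit 1104) (.e (nat_lit 204544) (nat_lit 6) (.e (nat_lit 188441) (nat_lit 20) (.e (nat_lit 3579) (nat_lit 223) (.e (nat_lit 745475) (nat_lit 0) (.e (nat_lit 1559) (nat_lit 110) .nil))))) (.g (nat_lit 0) (.e (nat_lit 212980) (nat_lit 0) .nil) .nil)))) (.nd (nat_lit 9) 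
(.lf (nat_lit 515483) (.g (nat_lit 564) (.e (nat_lit 188453) (nat_lit 24) (.e (nat_lit 229663) (nat_lit 240) (.e (nat_lit 2630) (nat_lit 164) .nil))) (.g (nat_lit 0) (.e (nat_lit 211027) (nat_lit 0) .nil) .nil))) 
(.lf (nat_lit 515995) (.g (nat_lit 2230) (.e (nat_lit 196654) (nat_lit 11) (.e (nat_lit 16434) (nat_lit 9) (.e (nat_lit 426566) (nat_lit 34) (.e (nat_lit 393253) (nat_lit 18) (.e (nat_lit 164329) (nat_lit 230) .nil))))) (.g (nat_lit 0) (.e (nat_lit 213989) (nat_lit 0) .nil) .nil)))))) (.nd (nat_lit 7) (.nd (nat_lit 8) (.nd (nat_lit 9) 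
(.lf (nat_lit 515163) (.g (nat_lit 2083) (.e (nat_lit 188441) (nat_lit 20) (.e (nat_lit 3271) (nat_lit 199) (.e (nat_lit 548913) (nat_lit 18) (.e (nat_lit 172126) (nat_lit 14) (.e (nat_lit 491536) (nat_lit 2) .nil))))) (.g (nat_lit 0) (.e (nat_lit 209352) (nat_lit 0) .nil) .nil))) 
(.lf (nat_lit 515675) (.g (nat_lit 1333) (.e (nat_lit 188455) (nat_lit 24) (.e (nat_lit 229679) (nat_lit 244) (.e (nat_lit 163908) (nat_lit 12) (.e (nat_lit 426286) (nat_lit 10) (.e (nat_lit 434272) (nat_lit 38) .nil))))) (.g (nat_lit 0) (.e (nat_lit 211662) (nat_lit 0) .nil) .nil)))) (.nd (nat_lit 9) 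
(.lf (nat_lit 515419) (.g (nat_lit 1489) (.e (nat_lit 188451) (nat_lit 23) (.e (nat_lit 204882) (nat_lit 32) (.e (nat_lit 385092) (nat_lit 49) (.e (nat_lit 778318) (nat_lit 3) .nil)))) (.g (nat_lit 0) (.e (nat_lit 210761) (nat_lit 0) .nil) .nil))) 
(.lf (nat_lit 515931) (.g (nat_lit 1186) (.e (nat_lit 196653) (nat_lit 11) (.e (nat_lit 16473) (nat_lit 14) (.e (nat_lit 491525) (nat_lit 0) .nil))) (.g (nat_lit 0) (.e (nat_lit 213761) (nat_lit 0) .nil) .nil))))) (.nd (nat_lit 8) (.nd (nat_lit 9) 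
(.lf (nat_lit 515291) (.g (nat_lit 2112) (.e (nat_lit 188446) (nat_lit 21) (.e (nat_lit 164347) (nat_lit 240) (.e (nat_lit 2619) (nat_lit 164) (.e (nat_lit 172097) (nat_lit 9) (.e (nat_lit 426025) (nat_lit 0) (.e (nat_lit 3397) (nat_lit 211) (.e (nat_lit 647185) (nat_lit 6) .nil))))))) (.g (nat_lit 1) (.e (nat_lit 210179) (nat_lit 0) .nil) .nil))) 
(.lf (nat_lit 515803) (.g (nat_lit 2912) (.e (nat_lit 196626) (nat_lit 9) (.e (nat_lit 1400) (nat_lit 106) (.e (nat_lit 319533) (nat_lit 16) (.e (nat_lit 286733) (nat_lit 2) (.e (nat_lit 90134) (nat_lit 9) .nil))))) (.g (nat_lit 0) (.e (nat_lit 213409) (nat_lit 0) .nil) .nil)))) (.nd (nat_lit 9) 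
(.lf (nat_lit 515547) (.g (nat_lit 1288) (.e (nat_lit 188453) (nat_lit 24) (.e (nat_lit 229678) (nat_lit 244) (.e (nat_lit 163919) (nat_lit 14) (.e (nat_lit 442374) (nat_lit 0) .nil)))) (.g (nat_lit 0) (.e (nat_lit 211188) (nat_lit 0) .nil) .nil))) 
(.lf (nat_lit 516059) (.g (nat_lit 2926) (.e (nat_lit 196654) (nat_lit 11) (.e (nat_lit 16438) (nat_lit 9) (.e (nat_lit 426482) (nat_lit 27) (.e (nat_lit 336389) (nat_lit 27) (.e (nat_lit 426099) (nat_lit 1) .nil))))) (.g (nat_lit 0) (.e (nat_lit 214078) (nat_lit 0) .nil) .nil))))))) (.nd (nat_lit 6) (.nd (nat_lit 7) (.nd (nat_lit 8) (.nd (nat_lit 9) 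
(.lf (nat_lit 515131) (.g (nat_lit 3261) (.e (nat_lit 188440) (nat_lit 20) (.e (nat_lit 3469) (nat_lit 217) (.e (nat_lit 696344) (nat_lit 8) (.e (nat_lit 172106) (nat_lit 10) (.e (nat_lit 434209) (nat_lit 18) (.e (nat_lit 6284) (nat_lit 337) (.e (nat_lit 2644) (nat_lit 166) .nil))))))) (.g (nat_lit 1) (.e (nat_lit 209308) (nat_lit 0) .nil) .nil))) 
(.lf (nat_lit 515643) (.g (nat_lit 301) (.e (nat_lit 188455) (nat_lit 24) (.e (nat_lit 229665) (nat_lit 240) (.e (nat_lit 2651) (nat_lit 166) .nil))) (.g (nat_lit 0) (.e (nat_lit 211499) (nat_lit 0) .nil) .nil)))) (.nd (nat_lit 9) 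
(.lf (nat_lit 515387) (.g (nat_lit 969) (.e (nat_lit 188451) (nat_lit 23) (.e (nat_lit 204821) (nat_lit 17) (.e (nat_lit 6114) (nat_lit 332) (.e (nat_lit 1361) (nat_lit 102) (.e (nat_lit 286722) (nat_lit 0) .nil))))) (.g (nat_lit 0) (.e (nat_lit 210683) (nat_lit 0) .nil) .nil))) 
(.lf (nat_lit 515899) (.g (nat_lit 1443) (.e (nat_lit 196653) (nat_lit 11) (.e (nat_lit 16463) (nat_lit 13) (.e (nat_lit 483337) (nat_lit 9) (.e (nat_lit 426098) (nat_lit 1) (.e (nat_lit 164325) (nat_lit 230) .nil))))) (.g (nat_lit 0) (.e (nat_lit 213727) (nat_lit 0) .nil) .nil))))) (.nd (nat_lit 8) (.nd (nat_lit 9) 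
(.lf (nat_lit 515259) (.g (nat_lit 2145) (.e (nat_lit 188444) (nat_lit 21) (.e (nat_lit 164348) (nat_lit 240) (.e (nat_lit 2619) (nat_lit 164) (.e (nat_lit 172097) (nat_lit 9) (.e (nat_lit 426025) (nat_lit 0) (.e (nat_lit 3397) (nat_lit 211) (.e (nat_lit 647185) (nat_lit 6) .nil))))))) (.g (nat_lit 1) (.e (nat_lit 209813) (nat_lit 0) .nil) .nil))) 
(.lf (nat_lit 515771) (.g (nat_lit 1796) (.e (nat_lit 196624) (nat_lit 9) (.e (nat_lit 1277) (nat_lit 94) (.e (nat_lit 114718) (nat_lit 23) (.e (nat_lit 98367) (nat_lit 27) (.e (nat_lit 434232) (nat_lit 23) .nil))))) (.g (nat_lit 0) (.e (nat_lit 213360) (nat_lit 0) .nil) .nil)))) (.nd (nat_lit 9) 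
(.lf (nat_lit 515515) (.g (nat_lit 2711) (.e (nat_lit 188453) (nat_lit 24) (.e (nat_lit 229665) (nat_lit 240) (.e (nat_lit 2725) (nat_lit 172) (.e (nat_lit 237619) (nat_lit 12) (.e (nat_lit 475199) (nat_lit 40) (.e (nat_lit 704598) (nat_lit 6) .nil)))))) (.g (nat_lit 1) (.e (nat_lit 211134) (nat_lit 0) .nil) .nil))) 
(.lf (nat_lit 516027) (.g (nat_lit 3088) (.e (nat_lit 196654) (nat_lit 11) (.e (nat_lit 16436) (nat_lit 9) (.e (nat_lit 426131) (nat_lit 3) (.e (nat_lit 204882) (nat_lit 32) (.e (nat_lit 385109) (nat_lit 51) (.e (nat_lit 794669) (nat_lit 22) .nil)))))) (.g (nat_lit 1) (.e (nat_lit 214029) (nat_lit 0) .nil) .nil)))))) (.nd (nat_lit 7) (.nd (nat_lit 8) (.nd (nat_lit 9) 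
(.lf (nat_lit 515195) (.g (nat_lit 3916) (.e (nat_lit 188441) (nat_lit 20) (.e (nat_lit 3409) (nat_lit 212) (.e (nat_lit 655378) (nat_lit 4) (.e (nat_lit 172115) (nat_lit 10) (.e (nat_lit 434209) (nat_lit 18) (.e (nat_lit 5548) (nat_lit 306) (.e (nat_lit 2648) (nat_lit 166) .nil))))))) (.g (nat_lit 1) (.e (nat_lit 209488) (nat_lit 0) .nil) .nil))) 
(.lf (nat_lit 515707) (.g (nat_lit 816) (.e (nat_lit 204544) (nat_lit 2) (.e (nat_lit 24657) (nat_lit 13) (.e (nat_lit 401152) (nat_lit 16) (.e (nat_lit 401436) (nat_lit 9) (.e (nat_lit 426128) (nat_lit 2) .nil))))) (.g (nat_lit 0) (.e (nat_lit 212583) (nat_lit 0) .nil) .nil)))) (.nd (nat_lit 9) 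
(.lf (nat_lit 515451) (.g (nat_lit 3843) (.e (nat_lit 188452) (nat_lit 23) (.e (nat_lit 204849) (nat_lit 25) (.e (nat_lit 327716) (nat_lit 16) (.e (nat_lit 286733) (nat_lit 2) (.e (nat_lit 90177) (nat_lit 15) .nil))))) (.g (nat_lit 1) (.e (nat_lit 210895) (nat_lit 0) .nil) .nil))) 
(.lf (nat_lit 515963) (.g (nat_lit 1516) (.e (nat_lit 196654) (nat_lit 11) (.e (nat_lit 16416) (nat_lit 3) (.e (nat_lit 204835) (nat_lit 19) (.e (nat_lit 106539) (nat_lit 12) .nil)))) (.g (nat_lit 0) (.e (nat_lit 213920) (nat_lit 0) .nil) .nil))))) (.nd (nat_lit 8) (.nd (nat_lit 9) 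
(.lf (nat_lit 515323) (.g (nat_lit 3145) (.e (nat_lit 188450) (nat_lit 23) (.e (nat_lit 204829) (nat_lit 18) (.e (nat_lit 57691) (nat_lit 156) (.e (nat_lit 163907) (nat_lit 12) (.e (nat_lit 425986) (nat_lit 0) .nil))))) (.g (nat_lit 0) (.e (nat_lit 210473) (nat_lit 0) .nil) .nil))) 
(.lf (nat_lit 515835) (.g (nat_lit 657) (.e (nat_lit 196630) (nat_lit 9) (.e (nat_lit 430) (nat_lit 32) (.e (nat_lit 426190) (nat_lit 9) (.e (nat_lit 426566) (nat_lit 34) .nil)))) (.g (nat_lit 0) (.e (nat_lit 213503) (nat_lit 0) .nil) .nil)))) (.nd (nat_lit 9) 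
(.lf (nat_lit 515579) (.g (nat_lit 2682) (.e (nat_lit 188454) (nat_lit 24) (.e (nat_lit 229663) (nat_lit 240) (.e (nat_lit 2630) (nat_lit 164) (.e (nat_lit 172113) (nat_lit 10) (.e (nat_lit 434271) (nat_lit 38) .nil))))) (.g (nat_lit 0) (.e (nat_lit 211321) (nat_lit 0) .nil) .nil))) 
(.lf (nat_lit 516091) (.g (nat_lit 2148) (.e (nat_lit 196654) (nat_lit 11) (.e (nat_lit 16463) (nat_lit 13) (.e (nat_lit 483341) (nat_lit 9) (.e (nat_lit 426053) (nat_lit 0) .nil)))) (.g (nat_lit 0) (.e (nat_lit 214212) (nat_lit 0) .nil) .nil)))))))))) (.nd (nat_lit 3) (.nd (nat_lit 4) (.nd (nat_lit 5) (.nd (nat_lit 6) (.nd (nat_lit 7) (.nd (nat_lit 8) (.nd (nat_lit 9) 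
(.lf (nat_lit 515079) (.g (nat_lit 3982) (.e (nat_lit 188440) (nat_lit 20) (.e (nat_lit 3307) (nat_lit 202) (.e (nat_lit 573477) (nat_lit 12) (.e (nat_lit 57574) (nat_lit 55) (.e (nat_lit 778465) (nat_lit 11) (.e (nat_lit 24603) (nat_lit 2) (.e (nat_lit 90175) (nat_lit 15) .nil))))))) (.g (nat_lit 1) (.e (nat_lit 209034) (nat_lit 0) .nil) .nil))) 
(.lf (nat_lit 515591) (.g (nat_lit 1110) (.e (nat_lit 188454) (nat_lit 24) (.e (nat_lit 229664) (nat_lit 240) (.e (nat_lit 2651) (nat_lit 166) (.e (nat_lit 188420) (nat_lit 0) (.e (nat_lit 2056) (nat_lit 142) .nil))))) (.g (nat_lit 0) (.e (nat_lit 211339) (nat_lit 0) .nil) .nil)))) (.nd (nat_lit 9) 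
(.lf (nat_lit 515335) (.g (nat_lit 1387) (.e (nat_lit 188450) (nat_lit 23) (.e (nat_lit 204846) (nat_lit 24) (.e (nat_lit 319504) (nat_lit 10) (.e (nat_lit 7936) (nat_lit 298) .nil)))) (.g (nat_lit 0) (.e (nat_lit 210516) (nat_lit 0) .nil) .nil))) 
(.lf (nat_lit 515847) (.g (nat_lit 2389) (.e (nat_lit 196630) (nat_lit 9) (.e (nat_lit 1669) (nat_lit 116) (.e (nat_lit 401437) (nat_lit 9) (.e (nat_lit 426364) (nat_lit 15) (.e (nat_lit 1859) (nat_lit 124) .nil))))) (.g (nat_lit 0) (.e (nat_lit 213521) (nat_lit 0) .nil) .nil))))) (.nd (nat_lit 8) (.nd (nat_lit 9) 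
(.lf (nat_lit 515207) (.g (nat_lit 2849) (.e (nat_lit 188441) (nat_lit 20) (.e (nat_lit 3469) (nat_lit 217) (.e (nat_lit 696344) (nat_lit 8) (.e (nat_lit 172106) (nat_lit 10) (.e (nat_lit 434202) (nat_lit 18) (.e (nat_lit 6254) (nat_lit 337) (.e (nat_lit 7936) (nat_lit 166) .nil))))))) (.g (nat_lit 1) (.e (nat_lit 209584) (nat_lit 0) .nil) .nil))) 
(.lf (nat_lit 515719) (.g (nat_lit 446) (.e (nat_lit 204544) (nat_lit 5) (.e (nat_lit 180285) (nat_lit 45) (.e (nat_lit 2580) (nat_lit 161) (.e (nat_lit 40965) (nat_lit 0) (.e (nat_lit 1568) (nat_lit 110) .nil))))) (.g (nat_lit 0) (.e (nat_lit 212930) (nat_lit 0) .nil) .nil)))) (.nd (nat_lit 9) 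
(.lf (nat_lit 515463) (.g (nat_lit 2592) (.e (nat_lit 188452) (nat_lit 23) (.e (nat_lit 204884) (nat_lit 33) (.e (nat_lit 401453) (nat_lit 12) (.e (nat_lit 475185) (nat_lit 29) (.e (nat_lit 557108) (nat_lit 15) .nil))))) (.g (nat_lit 1) (.e (nat_lit 210967) (nat_lit 0) .nil) .nil))) 
(.lf (nat_lit 515975) (.g (nat_lit 2007) (.e (nat_lit 196654) (nat_lit 11) (.e (nat_lit 16416) (nat_lit 3) (.e (nat_lit 204838) (nat_lit 20) (.e (nat_lit 114719) (nat_lit 23) (.e (nat_lit 98334) (nat_lit 18) .nil))))) (.g (nat_lit 0) (.e (nat_lit 213949) (nat_lit 0) .nil) .nil)))))) (.nd (nat_lit 7) (.nd (nat_lit 8) (.nd (nat_lit 9) 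
(.lf (nat_lit 515143) (.g (nat_lit 2947) (.e (nat_lit 188440) (nat_lit 20) (.e (nat_lit 3469) (nat_lit 217) (.e (nat_lit 696344) (nat_lit 8) (.e (nat_lit 172113) (nat_lit 10) (.e (nat_lit 434207) (nat_lit 18) (.e (nat_lit 6252) (nat_lit 337) (.e (nat_lit 7936) (nat_lit 166) .nil))))))) (.g (nat_lit 1) (.e (nat_lit 209320) (nat_lit 0) .nil) .nil))) 
(.lf (nat_lit 515655) (.g (nat_lit 1472) (.e (nat_lit 188455) (nat_lit 24) (.e (nat_lit 229666) (nat_lit 240) (.e (nat_lit 2725) (nat_lit 172) (.e (nat_lit 237601) (nat_lit 9) (.e (nat_lit 426444) (nat_lit 19) (.e (nat_lit 114432) (nat_lit 6) .nil)))))) (.g (nat_lit 1) (.e (nat_lit 211539) (nat_lit 0) .nil) .nil)))) (.nd (nat_lit 9) 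
(.lf (nat_lit 515399) (.g (nat_lit 1277) (.e (nat_lit 188451) (nat_lit 23) (.e (nat_lit 204846) (nat_lit 24) (.e (nat_lit 319533) (nat_lit 16) (.e (nat_lit 286723) (nat_lit 0) .nil)))) (.g (nat_lit 0) (.e (nat_lit 210712) (nat_lit 0) .nil) .nil))) 
(.lf (nat_lit 515911) (.g (nat_lit 2826) (.e (nat_lit 196653) (nat_lit 11) (.e (nat_lit 16463) (nat_lit 13) (.e (nat_lit 483341) (nat_lit 9) (.e (nat_lit 426107) (nat_lit 1) (.e (nat_lit 164322) (nat_lit 230) .nil))))) (.g (nat_lit 0) (.e (nat_lit 213739) (nat_lit 0) .nil) .nil))))) (.nd (nat_lit 8) (.nd (nat_lit 9) 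
(.lf (nat_lit 515271) (.g (nat_lit 435) (.e (nat_lit 188444) (nat_lit 21) (.e (nat_lit 164348) (nat_lit 240) (.e (nat_lit 2649) (nat_lit 166) .nil))) (.g (nat_lit 0) (.e (nat_lit 209852) (nat_lit 0) .nil) .nil))) 
(.lf (nat_lit 515783) (.g (nat_lit 1711) (.e (nat_lit 196626) (nat_lit 9) (.e (nat_lit 1400) (nat_lit 106) (.e (nat_lit 319528) (nat_lit 16) (.e (nat_lit 286733) (nat_lit 2) (.e (nat_lit 90134) (nat_lit 9) .nil))))) (.g (nat_lit 0) (.e (nat_lit 213389) (nat_lit 0) .nil) .nil)))) (.nd (nat_lit 9) 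
(.lf (nat_lit 515527) (.g (nat_lit 2253) (.e (nat_lit 188453) (nat_lit 24) (.e (nat_lit 229666) (nat_lit 240) (.e (nat_lit 2653) (nat_lit 166) (.e (nat_lit 188418) (nat_lit 0) (.e (nat_lit 2059) (nat_lit 142) (.e (nat_lit 704598) (nat_lit 6) .nil)))))) (.g (nat_lit 1) (.e (nat_lit 211152) (nat_lit 0) .nil) .nil))) 
(.lf (nat_lit 516039) (.g (nat_lit 1567) (.e (nat_lit 196654) (nat_lit 11) (.e (nat_lit 16436) (nat_lit 9) (.e (nat_lit 426564) (nat_lit 34) (.e (nat_lit 393251) (nat_lit 18) (.e (nat_lit 164325) (nat_lit 230) .nil))))) (.g (nat_lit 0) (.e (nat_lit 214047) (nat_lit 0) .nil) .nil))))))) (.nd (nat_lit 6) (.nd (nat_lit 7) (.nd (nat_lit 8) (.nd (nat_lit 9) 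
(.lf (nat_lit 515111) (.g (nat_lit 3832) (.e (nat_lit 188440) (nat_lit 20) (.e (nat_lit 3409) (nat_lit 212) (.e (nat_lit 655378) (nat_lit 4) (.e (nat_lit 172115) (nat_lit 10) (.e (nat_lit 434209) (nat_lit 18) (.e (nat_lit 5548) (nat_lit 306) (.e (nat_lit 2648) (nat_lit 166) .nil))))))) (.g (nat_lit 1) (.e (nat_lit 209166) (nat_lit 0) .nil) .nil))) 
(.lf (nat_lit 515623) (.g (nat_lit 427) (.e (nat_lit 188455) (nat_lit 24) (.e (nat_lit 229663) (nat_lit 240) (.e (nat_lit 2651) (nat_lit 166) .nil))) (.g (nat_lit 0) (.e (nat_lit 211430) (nat_lit 0) .nil) .nil)))) (.nd (nat_lit 9) 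
(.lf (nat_lit 515367) (.g (nat_lit 2796) (.e (nat_lit 188450) (nat_lit 23) (.e (nat_lit 204883) (nat_lit 33) (.e (nat_lit 401451) (nat_lit 12) (.e (nat_lit 475185) (nat_lit 29) (.e (nat_lit 557109) (nat_lit 15) .nil))))) (.g (nat_lit 1) (.e (nat_lit 210639) (nat_lit 0) .nil) .nil))) 
(.lf (nat_lit 515879) (.g (nat_lit 1828) (.e (nat_lit 196652) (nat_lit 11) (.e (nat_lit 16466) (nat_lit 13) (.e (nat_lit 483337) (nat_lit 9) (.e (nat_lit 426107) (nat_lit 1) (.e (nat_lit 164326) (nat_lit 230) .nil))))) (.g (nat_lit 0) (.e (nat_lit 213632) (nat_lit 0) .nil) .nil))))) (.nd (nat_lit 8) (.nd (nat_lit 9) 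
(.lf (nat_lit 515239) (.g (nat_lit 2513) (.e (nat_lit 188441) (nat_lit 20) (.e (nat_lit 3469) (nat_lit 217) (.e (nat_lit 696344) (nat_lit 8) (.e (nat_lit 172116) (nat_lit 10) (.e (nat_lit 434286) (nat_lit 42) (.e (nat_lit 696064) (nat_lit 10) .nil)))))) (.g (nat_lit 1) (.e (nat_lit 209616) (nat_lit 0) .nil) .nil))) 
(.lf (nat_lit 515751) (.g (nat_lit 1673) (.e (nat_lit 196619) (nat_lit 9) (.e (nat_lit 387) (nat_lit 32) (.e (nat_lit 426190) (nat_lit 9) (.e (nat_lit 426566) (nat_lit 34) (.e (nat_lit 393253) (nat_lit 18) .nil))))) (.g (nat_lit 0) (.e (nat_lit 213233) (nat_lit 0) .nil) .nil)))) (.nd (nat_lit 9) 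
(.lf (nat_lit 515495) (.g (nat_lit 282) (.e (nat_lit 188453) (nat_lit 24) (.e (nat_lit 229664) (nat_lit 240) (.e (nat_lit 7936) (nat_lit 166) .nil))) (.g (nat_lit 0) (.e (nat_lit 211083) (nat_lit 0) .nil) .nil))) 
(.lf (nat_lit 516007) (.g (nat_lit 3637) (.e (nat_lit 196654) (nat_lit 11) (.e (nat_lit 16436) (nat_lit 9) (.e (nat_lit 426131) (nat_lit 3) (.e (nat_lit 204852) (nat_lit 26) (.e (nat_lit 336258) (nat_lit 15) (.e (nat_lit 3774) (nat_lit 229) (.e (nat_lit 794669) (nat_lit 22) .nil))))))) (.g (nat_lit 1) (.e (nat_lit 214007) (nat_lit 0) .nil) .nil)))))) 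
(.nd (nat_lit 7) (.nd (nat_lit 8) (.nd (nat_lit 9) 
(.lf (nat_lit 515175) (.g (nat_lit 1297) (.e (nat_lit 188441) (nat_lit 20) (.e (nat_lit 3406) (nat_lit 212) (.e (nat_lit 655380) (nat_lit 6) (.e (nat_lit 188441) (nat_lit 20) (.e (nat_lit 3406) (nat_lit 212) .nil))))) (.g (nat_lit 0) (.e (nat_lit 209407) (nat_lit 0) .nil) .nil))) 
(.lf (nat_lit 515687) (.g (nat_lit 1475) (.e (nat_lit 188455) (nat_lit 24) (.e (nat_lit 229680) (nat_lit 244) (.e (nat_lit 163931) (nat_lit 17) (.e (nat_lit 466947) (nat_lit 0) (.e (nat_lit 2057) (nat_lit 142) (.e (nat_lit 704598) (nat_lit 6) .nil)))))) (.g (nat_lit 1) (.e (nat_lit 211711) (nat_lit 0) .nil) .nil)))) (.nd (nat_lit 9) 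
(.lf (nat_lit 515431) (.g (nat_lit 2462) (.e (nat_lit 188452) (nat_lit 23) (.e (nat_lit 204830) (nat_lit 18) (.e (nat_lit 57663) (nat_lit 152) (.e (nat_lit 2630) (nat_lit 164) (.e (nat_lit 172042) (nat_lit 0) (.e (nat_lit 3527) (nat_lit 218) (.e (nat_lit 704597) (nat_lit 6) .nil))))))) (.g (nat_lit 1) (.e (nat_lit 210826) (nat_lit 0) .nil) .nil))) 
(.lf (nat_lit 515943) (.g (nat_lit 1058) (.e (nat_lit 196654) (nat_lit 11) (.e (nat_lit 16416) (nat_lit 3) (.e (nat_lit 204803) (nat_lit 0) .nil))) (.g (nat_lit 0) (.e (nat_lit 213873) (nat_lit 0) .nil) .nil))))) (.nd (nat_lit 8) (.nd (nat_lit 9) 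
(.lf (nat_lit 515303) (.g (nat_lit 1559) (.e (nat_lit 188447) (nat_lit 22) (.e (nat_lit 196666) (nat_lit 13) (.e (nat_lit 65574) (nat_lit 4) (.e (nat_lit 123184) (nat_lit 264) (.e (nat_lit 1175) (nat_lit 87) .nil))))) (.g (nat_lit 0) (.e (nat_lit 210308) (nat_lit 0) .nil) .nil))) 
(.lf (nat_lit 515815) (.g (nat_lit 2864) (.e (nat_lit 196626) (nat_lit 9) (.e (nat_lit 1400) (nat_lit 106) (.e (nat_lit 319534) (nat_lit 16) (.e (nat_lit 286732) (nat_lit 2) (.e (nat_lit 90166) (nat_lit 13) .nil))))) (.g (nat_lit 0) (.e (nat_lit 213423) (nat_lit 0) .nil) .nil)))) (.nd (nat_lit 9) 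
(.lf (nat_lit 515559) (.g (nat_lit 2169) (.e (nat_lit 188453) (nat_lit 24) (.e (nat_lit 229680) (nat_lit 244) (.e (nat_lit 163915) (nat_lit 12) (.e (nat_lit 426188) (nat_lit 9) (.e (nat_lit 426444) (nat_lit 19) (.e (nat_lit 114432) (nat_lit 6) .nil)))))) (.g (nat_lit 1) (.e (nat_lit 211253) (nat_lit 0) .nil) .nil))) 
(.lf (nat_lit 516071) (.g (nat_lit 542) (.e (nat_lit 196654) (nat_lit 11) (.e (nat_lit 16438) (nat_lit 9) (.e (nat_lit 426564) (nat_lit 34) .nil))) (.g (nat_lit 0) (.e (nat_lit 214092) (nat_lit 0) .nil) .nil)))))))) (.nd (nat_lit 5) (.nd (nat_lit 6) (.nd (nat_lit 7) (.nd (nat_lit 8) (.nd (nat_lit 9) 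
(.lf (nat_lit 515095) (.g (nat_lit 2387) (.e (nat_lit 188440) (nat_lit 20) (.e (nat_lit 3391) (nat_lit 210) (.e (nat_lit 639025) (nat_lit 20) (.e (nat_lit 131116) (nat_lit 9) (.e (nat_lit 335988) (nat_lit 1) (.e (nat_lit 57830) (nat_lit 250) (.e (nat_lit 7936) (nat_lit 166) .nil))))))) (.g (nat_lit 1) (.e (nat_lit 209094) (nat_lit 0) .nil) .nil))) 
(.lf (nat_lit 515607) (.g (nat_lit 886) (.e (nat_lit 188454) (nat_lit 24) (.e (nat_lit 229666) (nat_lit 240) (.e (nat_lit 2630) (nat_lit 164) (.e (nat_lit 172120) (nat_lit 12) .nil)))) (.g (nat_lit 0) (.e (nat_lit 211361) (nat_lit 0) .nil) .nil)))) (.nd (nat_lit 9) 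
(.lf (nat_lit 515351) (.g (nat_lit 2857) (.e (nat_lit 188450) (nat_lit 23) (.e (nat_lit 204846) (nat_lit 24) (.e (nat_lit 319532) (nat_lit 16) (.e (nat_lit 286733) (nat_lit 2) (.e (nat_lit 90177) (nat_lit 15) .nil))))) (.g (nat_lit 1) (.e (nat_lit 210549) (nat_lit 0) .nil) .nil))) 
(.lf (nat_lit 515863) (.g (nat_lit 2560) (.e (nat_lit 196637) (nat_lit 9) (.e (nat_lit 1673) (nat_lit 116) (.e (nat_lit 401448) (nat_lit 10) (.e (nat_lit 434244) (nat_lit 28) (.e (nat_lit 573471) (nat_lit 11) .nil))))) (.g (nat_lit 0) (.e (nat_lit 213568) (nat_lit 0) .nil) .nil))))) (.nd (nat_lit 8) (.nd (nat_lit 9) 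
(.lf (nat_lit 515223) (.g (nat_lit 3052) (.e (nat_lit 188441) (nat_lit 20) (.e (nat_lit 3469) (nat_lit 217) (.e (nat_lit 696344) (nat_lit 8) (.e (nat_lit 172113) (nat_lit 10) (.e (nat_lit 434207) (nat_lit 18) (.e (nat_lit 6252) (nat_lit 337) (.e (nat_lit 7936) (nat_lit 166) .nil))))))) (.g (nat_lit 1) (.e (nat_lit 209600) (nat_lit 0) .nil) .nil))) 
(.lf (nat_lit 515735) (.g (nat_lit 1146) (.e (nat_lit 204544) (nat_lit 6) (.e (nat_lit 188440) (nat_lit 20) (.e (nat_lit 3579) (nat_lit 223) (.e (nat_lit 745475) (nat_lit 0) (.e (nat_lit 1572) (nat_lit 110) .nil))))) (.g (nat_lit 0) (.e (nat_lit 212973) (nat_lit 0) .nil) .nil)))) (.nd (nat_lit 9) 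
(.lf (nat_lit 515479) (.g (nat_lit 2794) (.e (nat_lit 188453) (nat_lit 24) (.e (nat_lit 229638) (nat_lit 228) (.e (nat_lit 57436) (nat_lit 17) (.e (nat_lit 376860) (nat_lit 21) (.e (nat_lit 57830) (nat_lit 250) (.e (nat_lit 7936) (nat_lit 166) .nil)))))) (.g (nat_lit 1) (.e (nat_lit 211018) (nat_lit 0) .nil) .nil))) 
(.lf (nat_lit 515991) (.g (nat_lit 3195) (.e (nat_lit 196654) (nat_lit 11) (.e (nat_lit 16433) (nat_lit 9) (.e (nat_lit 426568) (nat_lit 34) (.e (nat_lit 393253) (nat_lit 18) (.e (nat_lit 164327) (nat_lit 230) (.e (nat_lit 163866) (nat_lit 2) .nil)))))) (.g (nat_lit 1) (.e (nat_lit 213985) (nat_lit 0) .nil) .nil)))))) (.nd (nat_lit 7) (.nd (nat_lit 8) (.nd (nat_lit 9) 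
(.lf (nat_lit 515159) (.g (nat_lit 2459) (.e (nat_lit 188441) (nat_lit 20) (.e (nat_lit 3238) (nat_lit 197) (.e (nat_lit 532523) (nat_lit 7) (.e (nat_lit 319534) (nat_lit 16) (.e (nat_lit 286733) (nat_lit 2) .nil))))) (.g (nat_lit 0) (.e (nat_lit 209345) (nat_lit 0) .nil) .nil))) 
(.lf (nat_lit 515671) (.g (nat_lit 2995) (.e (nat_lit 188455) (nat_lit 24) (.e (nat_lit 229678) (nat_lit 244) (.e (nat_lit 163919) (nat_lit 14) (.e (nat_lit 442374) (nat_lit 0) (.e (nat_lit 2059) (nat_lit 142) (.e (nat_lit 704598) (nat_lit 6) .nil)))))) (.g (nat_lit 1) (.e (nat_lit 211606) (nat_lit 0) .nil) .nil)))) (.nd (nat_lit 9) 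
(.lf (nat_lit 515415) (.g (nat_lit 1211) (.e (nat_lit 188451) (nat_lit 23) (.e (nat_lit 204854) (nat_lit 26) (.e (nat_lit 336306) (nat_lit 15) .nil))) (.g (nat_lit 0) (.e (nat_lit 210739) (nat_lit 0) .nil) .nil))) 
(.lf (nat_lit 515927) (.g (nat_lit 1809) (.e (nat_lit 196653) (nat_lit 11) (.e (nat_lit 16468) (nat_lit 13) (.e (nat_lit 483341) (nat_lit 9) (.e (nat_lit 426107) (nat_lit 1) (.e (nat_lit 164326) (nat_lit 230) .nil))))) (.g (nat_lit 0) (.e (nat_lit 213755) (nat_lit 0) .nil) .nil))))) (.nd (nat_lit 8) (.nd (nat_lit 9) 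
(.lf (nat_lit 515287) (.g (nat_lit 2706) (.e (nat_lit 188446) (nat_lit 21) (.e (nat_lit 164345) (nat_lit 240) (.e (nat_lit 2619) (nat_lit 164) (.e (nat_lit 172120) (nat_lit 12) (.e (nat_lit 475198) (nat_lit 40) (.e (nat_lit 704598) (nat_lit 6) .nil)))))) (.g (nat_lit 1) (.e (nat_lit 210140) (nat_lit 0) .nil) .nil))) 
(.lf (nat_lit 515799) (.g (nat_lit 3464) (.e (nat_lit 196626) (nat_lit 9) (.e (nat_lit 1400) (nat_lit 106) (.e (nat_lit 319533) (nat_lit 16) (.e (nat_lit 286732) (nat_lit 2) (.e (nat_lit 90166) (nat_lit 13) .nil))))) (.g (nat_lit 0) (.e (nat_lit 213405) (nat_lit 0) .nil) .nil)))) (.nd (nat_lit 9) 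
(.lf (nat_lit 515543) (.g (nat_lit 2322) (.e (nat_lit 188453) (nat_lit 24) (.e (nat_lit 229678) (nat_lit 244) (.e (nat_lit 163915) (nat_lit 12) (.e (nat_lit 426188) (nat_lit 9) (.e (nat_lit 426444) (nat_lit 19) (.e (nat_lit 114432) (nat_lit 6) .nil)))))) (.g (nat_lit 1) (.e (nat_lit 211182) (nat_lit 0) .nil) .nil))) 
(.lf (nat_lit 516055) (.g (nat_lit 1592) (.e (nat_lit 196654) (nat_lit 11) (.e (nat_lit 16438) (nat_lit 9) (.e (nat_lit 426482) (nat_lit 27) (.e (nat_lit 336386) (nat_lit 27) .nil)))) (.g (nat_lit 0) (.e (nat_lit 214072) (nat_lit 0) .nil) .nil))))))) (.nd (nat_lit 6) (.nd (nat_lit 7) (.nd (nat_lit 8) (.nd (nat_lit 9) 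
(.lf (nat_lit 515127) (.g (nat_lit 2995) (.e (nat_lit 188440) (nat_lit 20) (.e (nat_lit 3469) (nat_lit 217) (.e (nat_lit 696344) (nat_lit 8) (.e (nat_lit 172106) (nat_lit 10) (.e (nat_lit 434202) (nat_lit 18) (.e (nat_lit 6250) (nat_lit 337) (.e (nat_lit 7936) (nat_lit 166) .nil))))))) (.g (nat_lit 1) (.e (nat_lit 209304) (nat_lit 0) .nil) .nil))) 
(.lf (nat_lit 515639) (.g (nat_lit 2015) (.e (nat_lit 188455) (nat_lit 24) (.e (nat_lit 229665) (nat_lit 240) (.e (nat_lit 2630) (nat_lit 164) (.e (nat_lit 172113) (nat_lit 10) (.e (nat_lit 434272) (nat_lit 38) (.e (nat_lit 655380) (nat_lit 6) .nil)))))) (.g (nat_lit 1) (.e (nat_lit 211493) (nat_lit 0) .nil) .nil)))) (.nd (nat_lit 9) 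
(.lf (nat_lit 515383) (.g (nat_lit 2664) (.e (nat_lit 188450) (nat_lit 23) (.e (nat_lit 204885) (nat_lit 33) (.e (nat_lit 401453) (nat_lit 12) (.e (nat_lit 475184) (nat_lit 29) (.e (nat_lit 557107) (nat_lit 15) .nil))))) (.g (nat_lit 1) (.e (nat_lit 210673) (nat_lit 0) .nil) .nil))) 
(.lf (nat_lit 515895) (.g (nat_lit 2097) (.e (nat_lit 196653) (nat_lit 11) (.e (nat_lit 16435) (nat_lit 9) (.e (nat_lit 426566) (nat_lit 34) (.e (nat_lit 393253) (nat_lit 18) (.e (nat_lit 164324) (nat_lit 230) .nil))))) (.g (nat_lit 0) (.e (nat_lit 213685) (nat_lit 0) .nil) .nil))))) (.nd (nat_lit 8) (.nd (nat_lit 9) 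
(.lf (nat_lit 515255) (.g (nat_lit 1046) (.e (nat_lit 188444) (nat_lit 21) (.e (nat_lit 164347) (nat_lit 240) (.e (nat_lit 2650) (nat_lit 166) (.e (nat_lit 196352) (nat_lit 0) .nil)))) (.g (nat_lit 0) (.e (nat_lit 209788) (nat_lit 0) .nil) .nil))) 
(.lf (nat_lit 515767) (.g (nat_lit 1650) (.e (nat_lit 196624) (nat_lit 9) (.e (nat_lit 411) (nat_lit 32) (.e (nat_lit 426195) (nat_lit 9) (.e (nat_lit 426568) (nat_lit 34) (.e (nat_lit 393253) (nat_lit 18) .nil))))) (.g (nat_lit 0) (.e (nat_lit 213289) (nat_lit 0) .nil) .nil)))) (.nd (nat_lit 9) 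
(.lf (nat_lit 515511) (.g (nat_lit 2241) (.e (nat_lit 188453) (nat_lit 24) (.e (nat_lit 229665) (nat_lit 240) (.e (nat_lit 2653) (nat_lit 166) (.e (nat_lit 188441) (nat_lit 20) (.e (nat_lit 3406) (nat_lit 212) (.e (nat_lit 655380) (nat_lit 6) .nil)))))) (.g (nat_lit 1) (.e (nat_lit 211121) (nat_lit 0) .nil) .nil))) 
(.lf (nat_lit 516023) (.g (nat_lit 2782) (.e (nat_lit 196654) (nat_lit 11) (.e (nat_lit 16436) (nat_lit 9) (.e (nat_lit 426131) (nat_lit 3) (.e (nat_lit 204882) (nat_lit 32) (.e (nat_lit 385107) (nat_lit 51) (.e (nat_lit 794666) (nat_lit 22) .nil)))))) (.g (nat_lit 1) (.e (nat_lit 214025) (nat_lit 0) .nil) .nil)))))) (.nd (nat_lit 7) (.nd (nat_lit 8) (.nd (nat_lit 9) 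
(.lf (nat_lit 515191) (.g (nat_lit 1042) (.e (nat_lit 188441) (nat_lit 20) (.e (nat_lit 3409) (nat_lit 212) (.e (nat_lit 655378) (nat_lit 4) (.e (nat_lit 172105) (nat_lit 10) .nil)))) (.g (nat_lit 0) (.e (nat_lit 209483) (nat_lit 0) .nil) .nil))) 
(.lf (nat_lit 515703) (.g (nat_lit 2728) (.e (nat_lit 204544) (nat_lit 0) (.e (nat_lit 232) (nat_lit 21) (.e (nat_lit 335907) (nat_lit 0) (.e (nat_lit 6218) (nat_lit 333) (.e (nat_lit 57606) (nat_lit 107) .nil))))) (.g (nat_lit 0) (.e (nat_lit 212515) (nat_lit 0) .nil) .nil)))) (.nd (nat_lit 9) 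
(.lf (nat_lit 515447) (.g (nat_lit 4112) (.e (nat_lit 188452) (nat_lit 23) (.e (nat_lit 204846) (nat_lit 24) (.e (nat_lit 319532) (nat_lit 16) (.e (nat_lit 286733) (nat_lit 2) (.e (nat_lit 90178) (nat_lit 15) .nil))))) (.g (nat_lit 1) (.e (nat_lit 210871) (nat_lit 0) .nil) .nil))) 
(.lf (nat_lit 515959) (.g (nat_lit 1707) (.e (nat_lit 196654) (nat_lit 11) (.e (nat_lit 16416) (nat_lit 3) (.e (nat_lit 204813) (nat_lit 9) (.e (nat_lit 426139) (nat_lit 3) (.e (nat_lit 204812) (nat_lit 9) .nil))))) (.g (nat_lit 0) (.e (nat_lit 213916) (nat_lit 0) .nil) .nil))))) (.nd (nat_lit 8) (.nd (nat_lit 9) 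
(.lf (nat_lit 515319) (.g (nat_lit 799) (.e (nat_lit 188450) (nat_lit 23) (.e (nat_lit 204813) (nat_lit 9) (.e (nat_lit 426107) (nat_lit 1) .nil))) (.g (nat_lit 0) (.e (nat_lit 210444) (nat_lit 0) .nil) .nil))) 
(.lf (nat_lit 515831) (.g (nat_lit 192) (.e (nat_lit 196628) (nat_lit 9) (.e (nat_lit 970) (nat_lit 81) (.e (nat_lit 6723) (nat_lit 362) .nil))) (.g (nat_lit 0) (.e (nat_lit 213476) (nat_lit 0) .nil) .nil)))) (.nd (nat_lit 9) 
(.lf (nat_lit 515575) (.g (nat_lit 1309) (.e (nat_lit 188453) (nat_lit 24) (.e (nat_lit 229681) (nat_lit 244) (.e (nat_lit 163931) (nat_lit 17) (.e (nat_lit 466947) (nat_lit 0) (.e (nat_lit 2057) (nat_lit 142) (.e (nat_lit 704598) (nat_lit 6) .nil)))))) (.g (nat_lit 1) (.e (nat_lit 211311) (nat_lit 0) .nil) .nil))) 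
(.lf (nat_lit 516087) (.g (nat_lit 2343) (.e (nat_lit 196654) (nat_lit 11) (.e (nat_lit 16463) (nat_lit 13) (.e (nat_lit 483341) (nat_lit 9) (.e (nat_lit 426009) (nat_lit 0) (.e (nat_lit 2536) (nat_lit 157) .nil))))) (.g (nat_lit 0) (.e (nat_lit 214206) (nat_lit 0) .nil) .nil))))))))) (.nd (nat_lit 4) (.nd (nat_lit 5) (.nd (nat_lit 6) (.nd (nat_lit 7) (.nd (nat_lit 8) (.nd (nat_lit 9) 
(.lf (nat_lit 515087) (.g (nat_lit 1459) (.e (nat_lit 188440) (nat_lit 20) (.e (nat_lit 3289) (nat_lit 201) (.e (nat_lit 565269) (nat_lit 6) (.e (nat_lit 81938) (nat_lit 20) (.e (nat_lit 2389) (nat_lit 156) (.e (nat_lit 819221) (nat_lit 6) .nil)))))) (.g (nat_lit 1) (.e (nat_lit 209050) (nat_lit 0) .nil) .nil))) 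
(.lf (nat_lit 515599) (.g (nat_lit 1686) (.e (nat_lit 188454) (nat_lit 24) (.e (nat_lit 229665) (nat_lit 240) (.e (nat_lit 2651) (nat_lit 166) (.e (nat_lit 188439) (nat_lit 20) (.e (nat_lit 3408) (nat_lit 212) .nil))))) (.g (nat_lit 0) (.e (nat_lit 211351) (nat_lit 0) .nil) .nil)))) (.nd (nat_lit 9) 
(.lf (nat_lit 515343) (.g (nat_lit 3519) (.e (nat_lit 188450) (nat_lit 23) (.e (nat_lit 204846) (nat_lit 24) (.e (nat_lit 319529) (nat_lit 16) (.e (nat_lit 286733) (nat_lit 2) (.e (nat_lit 90177) (nat_lit 15) .nil))))) (.g (nat_lit 1) (.e (nat_lit 210531) (nat_lit 0) .nil) .nil))) 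
(.lf (nat_lit 515855) (.g (nat_lit 2142) (.e (nat_lit 196630) (nat_lit 9) (.e (nat_lit 1669) (nat_lit 116) (.e (nat_lit 401459) (nat_lit 13) (.e (nat_lit 483370) (nat_lit 20) (.e (nat_lit 147464) (nat_lit 9) .nil))))) (.g (nat_lit 0) (.e (nat_lit 213545) (nat_lit 0) .nil) .nil))))) (.nd (nat_lit 8) (.nd (nat_lit 9) 
(.lf (nat_lit 515215) (.g (nat_lit 2461) (.e (nat_lit 188441) (nat_lit 20) (.e (nat_lit 3469) (nat_lit 217) (.e (nat_lit 696344) (nat_lit 8) (.e (nat_lit 172112) (nat_lit 10) (.e (nat_lit 434286) (nat_lit 42) (.e (nat_lit 696064) (nat_lit 10) .nil)))))) (.g (nat_lit 1) (.e (nat_lit 209592) (nat_lit 0) .nil) .nil))) 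
(.lf (nat_lit 515727) (.g (nat_lit 1291) (.e (nat_lit 204544) (nat_lit 6) (.e (nat_lit 188434) (nat_lit 20) (.e (nat_lit 3579) (nat_lit 223) (.e (nat_lit 745475) (nat_lit 0) (.e (nat_lit 1559) (nat_lit 110) .nil))))) (.g (nat_lit 0) (.e (nat_lit 212957) (nat_lit 0) .nil) .nil)))) (.nd (nat_lit 9) 
(.lf (nat_lit 515471) (.g (nat_lit 3931) (.e (nat_lit 188452) (nat_lit 23) (.e (nat_lit 204885) (nat_lit 33) (.e (nat_lit 401460) (nat_lit 14) (.e (nat_lit 491537) (nat_lit 2) (.e (nat_lit 90175) (nat_lit 15) .nil))))) (.g (nat_lit 1) (.e (nat_lit 211008) (nat_lit 0) .nil) .nil))) 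
(.lf (nat_lit 515983) (.g (nat_lit 2264) (.e (nat_lit 196654) (nat_lit 11) (.e (nat_lit 16433) (nat_lit 9) (.e (nat_lit 426566) (nat_lit 34) (.e (nat_lit 393253) (nat_lit 18) (.e (nat_lit 164322) (nat_lit 230) .nil))))) (.g (nat_lit 0) (.e (nat_lit 213973) (nat_lit 0) .nil) .nil)))))) (.nd (nat_lit 7) (.nd (nat_lit 8) (.nd (nat_lit 9) 
(.lf (nat_lit 515151) (.g (nat_lit 3463) (.e (nat_lit 188440) (nat_lit 20) (.e (nat_lit 3469) (nat_lit 217) (.e (nat_lit 696344) (nat_lit 8) (.e (nat_lit 172115) (nat_lit 10) (.e (nat_lit 434209) (nat_lit 18) (.e (nat_lit 6273) (nat_lit 337) (.e (nat_lit 2646) (nat_lit 166) .nil))))))) (.g (nat_lit 1) (.e (nat_lit 209328) (nat_lit 0) .nil) .nil))) 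
(.lf (nat_lit 515663) (.g (nat_lit 2522) (.e (nat_lit 188455) (nat_lit 24) (.e (nat_lit 229678) (nat_lit 244) (.e (nat_lit 163902) (nat_lit 12) (.e (nat_lit 426320) (nat_lit 12) (.e (nat_lit 475199) (nat_lit 40) .nil))))) (.g (nat_lit 0) (.e (nat_lit 211578) (nat_lit 0) .nil) .nil)))) (.nd (nat_lit 9) 
(.lf (nat_lit 515407) (.g (nat_lit 1158) (.e (nat_lit 188451) (nat_lit 23) (.e (nat_lit 204846) (nat_lit 24) (.e (nat_lit 319534) (nat_lit 16) (.e (nat_lit 286728) (nat_lit 0) .nil)))) (.g (nat_lit 0) (.e (nat_lit 210723) (nat_lit 0) .nil) .nil))) 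
(.lf (nat_lit 515919) (.g (nat_lit 1290) (.e (nat_lit 196653) (nat_lit 11) (.e (nat_lit 16465) (nat_lit 13) (.e (nat_lit 483341) (nat_lit 9) (.e (nat_lit 433920) (nat_lit 20) .nil)))) (.g (nat_lit 0) (.e (nat_lit 213747) (nat_lit 0) .nil) .nil))))) (.nd (nat_lit 8) (.nd (nat_lit 9) 
(.lf (nat_lit 515279) (.g (nat_lit 1168) (.e (nat_lit 188445) (nat_lit 21) (.e (nat_lit 164348) (nat_lit 240) (.e (nat_lit 2650) (nat_lit 166) (.e (nat_lit 188427) (nat_lit 20) .nil)))) (.g (nat_lit 0) (.e (nat_lit 209947) (nat_lit 0) .nil) .nil))) 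
(.lf (nat_lit 515791) (.g (nat_lit 2657) (.e (nat_lit 196626) (nat_lit 9) (.e (nat_lit 1400) (nat_lit 106) (.e (nat_lit 319531) (nat_lit 16) (.e (nat_lit 286733) (nat_lit 2) (.e (nat_lit 90134) (nat_lit 9) .nil))))) (.g (nat_lit 0) (.e (nat_lit 213397) (nat_lit 0) .nil) .nil)))) (.nd (nat_lit 9) 
(.lf (nat_lit 515535) (.g (nat_lit 1945) (.e (nat_lit 188453) (nat_lit 24) (.e (nat_lit 229678) (nat_lit 244) (.e (nat_lit 163902) (nat_lit 12) (.e (nat_lit 426320) (nat_lit 12) .nil)))) (.g (nat_lit 0) (.e (nat_lit 211172) (nat_lit 0) .nil) .nil))) 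
(.lf (nat_lit 516047) (.g (nat_lit 1210) (.e (nat_lit 196654) (nat_lit 11) (.e (nat_lit 16438) (nat_lit 9) (.e (nat_lit 426131) (nat_lit 3) (.e (nat_lit 204880) (nat_lit 32) .nil)))) (.g (nat_lit 0) (.e (nat_lit 214060) (nat_lit 0) .nil) .nil))))))) (.nd (nat_lit 6) (.nd (nat_lit 7) (.nd (nat_lit 8) (.nd (nat_lit 9) 
(.lf (nat_lit 515119) (.g (nat_lit 1420) (.e (nat_lit 188440) (nat_lit 20) (.e (nat_lit 3409) (nat_lit 212) (.e (nat_lit 655380) (nat_lit 6) (.e (nat_lit 188441) (nat_lit 20) (.e (nat_lit 3406) (nat_lit 212) (.e (nat_lit 655380) (nat_lit 6) .nil)))))) (.g (nat_lit 1) (.e (nat_lit 209174) (nat_lit 0) .nil) .nil))) 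
(.lf (nat_lit 515631) (.g (nat_lit 534) (.e (nat_lit 188455) (nat_lit 24) (.e (nat_lit 229663) (nat_lit 240) (.e (nat_lit 7936) (nat_lit 166) .nil))) (.g (nat_lit 0) (.e (nat_lit 211470) (nat_lit 0) .nil) .nil)))) (.nd (nat_lit 9) 
(.lf (nat_lit 515375) (.g (nat_lit 1485) (.e (nat_lit 188450) (nat_lit 23) (.e (nat_lit 204885) (nat_lit 33) (.e (nat_lit 401437) (nat_lit 9) (.e (nat_lit 426364) (nat_lit 15) .nil)))) (.g (nat_lit 0) (.e (nat_lit 210652) (nat_lit 0) .nil) .nil))) 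
(.lf (nat_lit 515887) (.g (nat_lit 861) (.e (nat_lit 196653) (nat_lit 11) (.e (nat_lit 16434) (nat_lit 9) (.e (nat_lit 426566) (nat_lit 34) (.e (nat_lit 393251) (nat_lit 18) .nil)))) (.g (nat_lit 0) (.e (nat_lit 213676) (nat_lit 0) .nil) .nil))))) (.nd (nat_lit 8) (.nd (nat_lit 9) 
(.lf (nat_lit 515247) (.g (nat_lit 2236) (.e (nat_lit 188444) (nat_lit 21) (.e (nat_lit 164346) (nat_lit 240) (.e (nat_lit 2628) (nat_lit 164) (.e (nat_lit 172120) (nat_lit 12) (.e (nat_lit 475198) (nat_lit 40) (.e (nat_lit 704598) (nat_lit 6) .nil)))))) (.g (nat_lit 1) (.e (nat_lit 209752) (nat_lit 0) .nil) .nil))) 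
(.lf (nat_lit 515759) (.g (nat_lit 2022) (.e (nat_lit 196623) (nat_lit 9) (.e (nat_lit 1669) (nat_lit 116) (.e (nat_lit 401459) (nat_lit 13) (.e (nat_lit 483343) (nat_lit 17) (.e (nat_lit 2367) (nat_lit 153) .nil))))) (.g (nat_lit 0) (.e (nat_lit 213270) (nat_lit 0) .nil) .nil)))) (.nd (nat_lit 9) 
(.lf (nat_lit 515503) (.g (nat_lit 1503) (.e (nat_lit 188453) (nat_lit 24) (.e (nat_lit 229665) (nat_lit 240) (.e (nat_lit 2651) (nat_lit 166) (.e (nat_lit 188418) (nat_lit 0) .nil)))) (.g (nat_lit 0) (.e (nat_lit 211098) (nat_lit 0) .nil) .nil))) 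
(.lf (nat_lit 516015) (.g (nat_lit 2056) (.e (nat_lit 196654) (nat_lit 11) (.e (nat_lit 16436) (nat_lit 9) (.e (nat_lit 426131) (nat_lit 3) (.e (nat_lit 204854) (nat_lit 26) (.e (nat_lit 343808) (nat_lit 20) .nil))))) (.g (nat_lit 0) (.e (nat_lit 214015) (nat_lit 0) .nil) .nil)))))) (.nd (nat_lit 7) (.nd (nat_lit 8) (.nd (nat_lit 9) 
(.lf (nat_lit 515183) (.g (nat_lit 3530) (.e (nat_lit 188441) (nat_lit 20) (.e (nat_lit 3408) (nat_lit 212) (.e (nat_lit 655380) (nat_lit 6) (.e (nat_lit 188453) (nat_lit 24) (.e (nat_lit 229663) (nat_lit 240) (.e (nat_lit 2653) (nat_lit 166) .nil)))))) (.g (nat_lit 1) (.e (nat_lit 209452) (nat_lit 0) .nil) .nil))) 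
(.lf (nat_lit 515695) (.g (nat_lit 1295) (.e (nat_lit 188455) (nat_lit 24) (.e (nat_lit 229681) (nat_lit 244) (.e (nat_lit 163931) (nat_lit 17) (.e (nat_lit 466947) (nat_lit 0) (.e (nat_lit 2057) (nat_lit 142) (.e (nat_lit 704598) (nat_lit 6) .nil)))))) (.g (nat_lit 1) (.e (nat_lit 211735) (nat_lit 0) .nil) .nil)))) (.nd (nat_lit 9) 
(.lf (nat_lit 515439) (.g (nat_lit 1671) (.e (nat_lit 188452) (nat_lit 23) (.e (nat_lit 204845) (nat_lit 24) (.e (nat_lit 319534) (nat_lit 16) (.e (nat_lit 286732) (nat_lit 2) .nil)))) (.g (nat_lit 0) (.e (nat_lit 210850) (nat_lit 0) .nil) .nil))) 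
(.lf (nat_lit 515951) (.g (nat_lit 387) (.e (nat_lit 196654) (nat_lit 11) (.e (nat_lit 16416) (nat_lit 3) (.e (nat_lit 204813) (nat_lit 9) .nil))) (.g (nat_lit 0) (.e (nat_lit 213902) (nat_lit 0) .nil) .nil))))) (.nd (nat_lit 8) (.nd (nat_lit 9) 
(.lf (nat_lit 515311) (.g (nat_lit 1013) (.e (nat_lit 188449) (nat_lit 22) (.e (nat_lit 196656) (nat_lit 11) (.e (nat_lit 16388) (nat_lit 0) .nil))) (.g (nat_lit 0) (.e (nat_lit 210418) (nat_lit 0) .nil) .nil))) 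
(.lf (nat_lit 515823) (.g (nat_lit 1983) (.e (nat_lit 196626) (nat_lit 9) (.e (nat_lit 1669) (nat_lit 116) (.e (nat_lit 401459) (nat_lit 13) (.e (nat_lit 483343) (nat_lit 17) (.e (nat_lit 2367) (nat_lit 153) .nil))))) (.g (nat_lit 0) (.e (nat_lit 213433) (nat_lit 0) .nil) .nil)))) (.nd (nat_lit 9) 
(.lf (nat_lit 515567) (.g (nat_lit 1596) (.e (nat_lit 188453) (nat_lit 24) (.e (nat_lit 229681) (nat_lit 244) (.e (nat_lit 163913) (nat_lit 12) (.e (nat_lit 426230) (nat_lit 9) (.e (nat_lit 426443) (nat_lit 19) (.e (nat_lit 114432) (nat_lit 6) .nil)))))) (.g (nat_lit 1) (.e (nat_lit 211291) (nat_lit 0) .nil) .nil))) 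
(.lf (nat_lit 516079) (.g (nat_lit 4645) (.e (nat_lit 196654) (nat_lit 11) (.e (nat_lit 16463) (nat_lit 13) (.e (nat_lit 483337) (nat_lit 9) (.e (nat_lit 426107) (nat_lit 1) (.e (nat_lit 164327) (nat_lit 230) (.e (nat_lit 163871) (nat_lit 2) .nil)))))) (.g (nat_lit 1) (.e (nat_lit 214196) (nat_lit 0) .nil) .nil)))))))) 
(.nd (nat_lit 5) (.nd (nat_lit 6) (.nd (nat_lit 7) (.nd (nat_lit 8) (.nd (nat_lit 9) 
(.lf (nat_lit 515103) (.g (nat_lit 2478) (.e (nat_lit 188440) (nat_lit 20) (.e (nat_lit 3408) (nat_lit 212) (.e (nat_lit 655378) (nat_lit 4) (.e (nat_lit 172113) (nat_lit 10) (.e (nat_lit 434272) (nat_lit 38) (.e (nat_lit 655380) (nat_lit 6) .nil)))))) (.g (nat_lit 1) (.e (nat_lit 209135) (nat_lit 0) .nil) .nil))) 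
(.lf (nat_lit 515615) (.g (nat_lit 2582) (.e (nat_lit 188455) (nat_lit 24) (.e (nat_lit 229638) (nat_lit 228) (.e (nat_lit 57436) (nat_lit 17) (.e (nat_lit 376860) (nat_lit 21) (.e (nat_lit 57830) (nat_lit 250) (.e (nat_lit 7936) (nat_lit 166) .nil)))))) (.g (nat_lit 1) (.e (nat_lit 211392) (nat_lit 0) .nil) .nil)))) (.nd (nat_lit 9) 
(.lf (nat_lit 515359) (.g (nat_lit 554) (.e (nat_lit 188450) (nat_lit 23) (.e (nat_lit 204859) (nat_lit 26) (.e (nat_lit 336277) (nat_lit 15) .nil))) (.g (nat_lit 0) (.e (nat_lit 210593) (nat_lit 0) .nil) .nil))) 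
(.lf (nat_lit 515871) (.g (nat_lit 2248) (.e (nat_lit 196652) (nat_lit 11) (.e (nat_lit 16435) (nat_lit 9) (.e (nat_lit 426566) (nat_lit 34) (.e (nat_lit 393253) (nat_lit 18) (.e (nat_lit 164324) (nat_lit 230) .nil))))) (.g (nat_lit 0) (.e (nat_lit 213587) (nat_lit 0) .nil) .nil))))) (.nd (nat_lit 8) (.nd (nat_lit 9) 
(.lf (nat_lit 515231) (.g (nat_lit 2671) (.e (nat_lit 188441) (nat_lit 20) (.e (nat_lit 3469) (nat_lit 217) (.e (nat_lit 696344) (nat_lit 8) (.e (nat_lit 172113) (nat_lit 10) (.e (nat_lit 434286) (nat_lit 42) (.e (nat_lit 696064) (nat_lit 10) .nil)))))) (.g (nat_lit 1) (.e (nat_lit 209608) (nat_lit 0) .nil) .nil))) 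
(.lf (nat_lit 515743) (.g (nat_lit 1395) (.e (nat_lit 196617) (nat_lit 9) (.e (nat_lit 427) (nat_lit 32) (.e (nat_lit 426188) (nat_lit 9) (.e (nat_lit 426566) (nat_lit 34) (.e (nat_lit 393254) (nat_lit 18) .nil))))) (.g (nat_lit 0) (.e (nat_lit 213198) (nat_lit 0) .nil) .nil)))) (.nd (nat_lit 9) 
(.lf (nat_lit 515487) (.g (nat_lit 471) (.e (nat_lit 188453) (nat_lit 24) (.e (nat_lit 229663) (nat_lit 240) (.e (nat_lit 2651) (nat_lit 166) .nil))) (.g (nat_lit 0) (.e (nat_lit 211040) (nat_lit 0) .nil) .nil))) 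
(.lf (nat_lit 515999) (.g (nat_lit 2640) (.e (nat_lit 196654) (nat_lit 11) (.e (nat_lit 16435) (nat_lit 9) (.e (nat_lit 426566) (nat_lit 34) (.e (nat_lit 393251) (nat_lit 18) (.e (nat_lit 164332) (nat_lit 230) .nil))))) (.g (nat_lit 0) (.e (nat_lit 213993) (nat_lit 0) .nil) .nil)))))) (.nd (nat_lit 7) (.nd (nat_lit 8) (.nd (nat_lit 9) 
(.lf (nat_lit 515167) (.g (nat_lit 2114) (.e (nat_lit 188441) (nat_lit 20) (.e (nat_lit 3289) (nat_lit 201) (.e (nat_lit 565251) (nat_lit 0) (.e (nat_lit 1586) (nat_lit 111) (.e (nat_lit 360450) (nat_lit 0) (.e (nat_lit 7686) (nat_lit 410) (.e (nat_lit 7936) (nat_lit 166) .nil))))))) (.g (nat_lit 1) (.e (nat_lit 209367) (nat_lit 0) .nil) .nil))) 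
(.lf (nat_lit 515679) (.g (nat_lit 1209) (.e (nat_lit 188455) (nat_lit 24) (.e (nat_lit 229680) (nat_lit 244) (.e (nat_lit 163902) (nat_lit 12) (.e (nat_lit 426233) (nat_lit 9) .nil)))) (.g (nat_lit 0) (.e (nat_lit 211673) (nat_lit 0) .nil) .nil)))) (.nd (nat_lit 9) 
(.lf (nat_lit 515423) (.g (nat_lit 357) (.e (nat_lit 188452) (nat_lit 23) (.e (nat_lit 204809) (nat_lit 9) (.e (nat_lit 426107) (nat_lit 1) .nil))) (.g (nat_lit 0) (.e (nat_lit 210776) (nat_lit 0) .nil) .nil))) 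
(.lf (nat_lit 515935) (.g (nat_lit 2322) (.e (nat_lit 196654) (nat_lit 11) (.e (nat_lit 16411) (nat_lit 2) (.e (nat_lit 196656) (nat_lit 11) (.e (nat_lit 16412) (nat_lit 2) (.e (nat_lit 196656) (nat_lit 11) (.e (nat_lit 16411) (nat_lit 2) .nil)))))) (.g (nat_lit 1) (.e (nat_lit 213796) (nat_lit 0) .nil) .nil))))) (.nd (nat_lit 8) (.nd (nat_lit 9) 
(.lf (nat_lit 515295) (.g (nat_lit 2405) (.e (nat_lit 188446) (nat_lit 21) (.e (nat_lit 164347) (nat_lit 240) (.e (nat_lit 2628) (nat_lit 164) (.e (nat_lit 172118) (nat_lit 12) (.e (nat_lit 475198) (nat_lit 40) (.e (nat_lit 704598) (nat_lit 6) .nil)))))) (.g (nat_lit 1) (.e (nat_lit 210186) (nat_lit 0) .nil) .nil))) 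
(.lf (nat_lit 515807) (.g (nat_lit 2907) (.e (nat_lit 196626) (nat_lit 9) (.e (nat_lit 1400) (nat_lit 106) (.e (nat_lit 319533) (nat_lit 16) (.e (nat_lit 286735) (nat_lit 3) (.e (nat_lit 106240) (nat_lit 26) .nil))))) (.g (nat_lit 0) (.e (nat_lit 213413) (nat_lit 0) .nil) .nil)))) (.nd (nat_lit 9) 
(.lf (nat_lit 515551) (.g (nat_lit 4355) (.e (nat_lit 188453) (nat_lit 24) (.e (nat_lit 229678) (nat_lit 244) (.e (nat_lit 163923) (nat_lit 15) (.e (nat_lit 450593) (nat_lit 16) (.e (nat_lit 655380) (nat_lit 6) .nil))))) (.g (nat_lit 1) (.e (nat_lit 211229) (nat_lit 0) .nil) .nil))) 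
(.lf (nat_lit 516063) (.g (nat_lit 1593) (.e (nat_lit 196654) (nat_lit 11) (.e (nat_lit 16438) (nat_lit 9) (.e (nat_lit 426482) (nat_lit 27) (.e (nat_lit 336388) (nat_lit 27) .nil)))) (.g (nat_lit 0) (.e (nat_lit 214082) (nat_lit 0) .nil) .nil))))))) (.nd (nat_lit 6) (.nd (nat_lit 7) (.nd (nat_lit 8) (.nd (nat_lit 9) 
(.lf (nat_lit 515135) (.g (nat_lit 2435) (.e (nat_lit 188440) (nat_lit 20) (.e (nat_lit 3469) (nat_lit 217) (.e (nat_lit 696344) (nat_lit 8) (.e (nat_lit 172107) (nat_lit 10) (.e (nat_lit 434286) (nat_lit 42) (.e (nat_lit 696064) (nat_lit 10) .nil)))))) (.g (nat_lit 1) (.e (nat_lit 209312) (nat_lit 0) .nil) .nil))) 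
(.lf (nat_lit 515647) (.g (nat_lit 1924) (.e (nat_lit 188455) (nat_lit 24) (.e (nat_lit 229665) (nat_lit 240) (.e (nat_lit 2653) (nat_lit 166) (.e (nat_lit 188441) (nat_lit 20) (.e (nat_lit 3406) (nat_lit 212) (.e (nat_lit 655380) (nat_lit 6) .nil)))))) (.g (nat_lit 1) (.e (nat_lit 211517) (nat_lit 0) .nil) .nil)))) (.nd (nat_lit 9) 
(.lf (nat_lit 515391) (.g (nat_lit 1715) (.e (nat_lit 188451) (nat_lit 23) (.e (nat_lit 204846) (nat_lit 24) (.e (nat_lit 319504) (nat_lit 10) (.e (nat_lit 5272) (nat_lit 298) .nil)))) (.g (nat_lit 0) (.e (nat_lit 210697) (nat_lit 0) .nil) .nil))) 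
(.lf (nat_lit 515903) (.g (nat_lit 1651) (.e (nat_lit 196653) (nat_lit 11) (.e (nat_lit 16463) (nat_lit 13) (.e (nat_lit 483337) (nat_lit 9) (.e (nat_lit 426108) (nat_lit 1) (.e (nat_lit 164330) (nat_lit 230) .nil))))) (.g (nat_lit 0) (.e (nat_lit 213731) (nat_lit 0) .nil) .nil))))) (.nd (nat_lit 8) (.nd (nat_lit 9) 
(.lf (nat_lit 515263) (.g (nat_lit 2925) (.e (nat_lit 188444) (nat_lit 21) (.e (nat_lit 164348) (nat_lit 240) (.e (nat_lit 2628) (nat_lit 164) (.e (nat_lit 172120) (nat_lit 12) (.e (nat_lit 475198) (nat_lit 40) (.e (nat_lit 704598) (nat_lit 6) .nil)))))) (.g (nat_lit 1) (.e (nat_lit 209821) (nat_lit 0) .nil) .nil))) 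
(.lf (nat_lit 515775) (.g (nat_lit 1198) (.e (nat_lit 196625) (nat_lit 9) (.e (nat_lit 1398) (nat_lit 106) (.e (nat_lit 319530) (nat_lit 16) (.e (nat_lit 286733) (nat_lit 2) .nil)))) (.g (nat_lit 0) (.e (nat_lit 213367) (nat_lit 0) .nil) .nil)))) (.nd (nat_lit 9) 
(.lf (nat_lit 515519) (.g (nat_lit 3156) (.e (nat_lit 188453) (nat_lit 24) (.e (nat_lit 229666) (nat_lit 240) (.e (nat_lit 2630) (nat_lit 164) (.e (nat_lit 172120) (nat_lit 12) (.e (nat_lit 475199) (nat_lit 40) (.e (nat_lit 704598) (nat_lit 6) .nil)))))) (.g (nat_lit 1) (.e (nat_lit 211139) (nat_lit 0) .nil) .nil))) 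
(.lf (nat_lit 516031) (.g (nat_lit 3354) (.e (nat_lit 196654) (nat_lit 11) (.e (nat_lit 16436) (nat_lit 9) (.e (nat_lit 426479) (nat_lit 27) (.e (nat_lit 336369) (nat_lit 27) (.e (nat_lit 426109) (nat_lit 1) (.e (nat_lit 164327) (nat_lit 230) (.e (nat_lit 163868) (nat_lit 2) .nil))))))) (.g (nat_lit 1) (.e (nat_lit 214039) (nat_lit 0) .nil) .nil)))))) 
(.nd (nat_lit 7) (.nd (nat_lit 8) (.nd (nat_lit 9) 
(.lf (nat_lit 515199) (.g (nat_lit 3699) (.e (nat_lit 188441) (nat_lit 20) (.e (nat_lit 3409) (nat_lit 212) (.e (nat_lit 655380) (nat_lit 6) (.e (nat_lit 188453) (nat_lit 24) (.e (nat_lit 229663) (nat_lit 240) (.e (nat_lit 2653) (nat_lit 166) .nil)))))) (.g (nat_lit 1) (.e (nat_lit 209492) (nat_lit 0) .nil) .nil))) 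
(.lf (nat_lit 515711) (.g (nat_lit 696) (.e (nat_lit 204544) (nat_lit 2) (.e (nat_lit 24665) (nat_lit 14) (.e (nat_lit 401469) (nat_lit 27) (.e (nat_lit 336403) (nat_lit 27) .nil)))) (.g (nat_lit 0) (.e (nat_lit 212613) (nat_lit 0) .nil) .nil)))) (.nd (nat_lit 9) 
(.lf (nat_lit 515455) (.g (nat_lit 1529) (.e (nat_lit 188452) (nat_lit 23) (.e (nat_lit 204880) (nat_lit 32) (.e (nat_lit 385098) (nat_lit 49) .nil))) (.g (nat_lit 0) (.e (nat_lit 210934) (nat_lit 0) .nil) .nil))) 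
(.lf (nat_lit 515967) (.g (nat_lit 1520) (.e (nat_lit 196654) (nat_lit 11) (.e (nat_lit 16416) (nat_lit 3) (.e (nat_lit 204837) (nat_lit 20) (.e (nat_lit 114708) (nat_lit 20) (.e (nat_lit 1800) (nat_lit 119) .nil))))) (.g (nat_lit 0) (.e (nat_lit 213924) (nat_lit 0) .nil) .nil))))) (.nd (nat_lit 8) (.nd (nat_lit 9) 
(.lf (nat_lit 515327) (.g (nat_lit 1913) (.e (nat_lit 188450) (nat_lit 23) (.e (nat_lit 204830) (nat_lit 18) (.e (nat_lit 57663) (nat_lit 152) (.e (nat_lit 2630) (nat_lit 164) (.e (nat_lit 172042) (nat_lit 0) (.e (nat_lit 3527) (nat_lit 218) (.e (nat_lit 704597) (nat_lit 6) .nil))))))) (.g (nat_lit 1) (.e (nat_lit 210481) (nat_lit 0) .nil) .nil))) 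
(.lf (nat_lit 515839) (.g (nat_lit 3435) (.e (nat_lit 196630) (nat_lit 9) (.e (nat_lit 1453) (nat_lit 108) (.e (nat_lit 336099) (nat_lit 9) (.e (nat_lit 336013) (nat_lit 2) (.e (nat_lit 90129) (nat_lit 9) (.e (nat_lit 2828) (nat_lit 182) (.e (nat_lit 409646) (nat_lit 18) (.e (nat_lit 303117) (nat_lit 2) .nil)))))))) (.g (nat_lit 1) (.e (nat_lit 213512) (nat_lit 0) .nil) .nil)))) (.nd (nat_lit 9) 
(.lf (nat_lit 515583) (.g (nat_lit 1233) (.e (nat_lit 188454) (nat_lit 24) (.e (nat_lit 229663) (nat_lit 240) (.e (nat_lit 2651) (nat_lit 166) (.e (nat_lit 188420) (nat_lit 0) .nil)))) (.g (nat_lit 0) (.e (nat_lit 211326) (nat_lit 0) .nil) .nil))) 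
(.lf (nat_lit 516095) (.g (nat_lit 1173) (.e (nat_lit 196654) (nat_lit 11) (.e (nat_lit 16463) (nat_lit 13) (.e (nat_lit 483341) (nat_lit 9) (.e (nat_lit 426106) (nat_lit 1) .nil)))) (.g (nat_lit 0) (.e (nat_lit 214218) (nat_lit 0) .nil) .nil)))))))))))))

noncomputable def tv5564 : DT := (.nd (nat_lit 0) (.nd (nat_lit 1) (.nd (nat_lit 2) (.nd (nat_lit 3) (.nd (nat_lit 4) (.nd (nat_lit 5) (.nd (nat_lit 6) (.nd (nat_lit 7) (.nd (nat_lit 8) (.nd (nat_lit 9) 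
(.lf (nat_lit 516096) (.g (nat_lit 1578) (.e (nat_lit 196654) (nat_lit 11) (.e (nat_lit 16463) (nat_lit 13) (.e (nat_lit 483341) (nat_lit 9) (.e (nat_lit 426106) (nat_lit 1) (.e (nat_lit 164323) (nat_lit 230) .nil))))) (.g (nat_lit 0) (.e (nat_lit 214219) (nat_lit 0) .nil) .nil))) 
(.lf (nat_lit 516608) (.g (nat_lit 3352) (.e (nat_lit 196666) (nat_lit 13) (.e (nat_lit 65610) (nat_lit 10) (.e (nat_lit 344117) (nat_lit 21) (.e (nat_lit 516097) (nat_lit 0) (.e (nat_lit 3336) (nat_lit 205) .nil))))) (.g (nat_lit 0) (.e (nat_lit 215346) (nat_lit 0) .nil) .nil)))) (.nd (nat_lit 9) 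
(.lf (nat_lit 516352) (.g (nat_lit 2290) (.e (nat_lit 196663) (nat_lit 13) (.e (nat_lit 65610) (nat_lit 10) (.e (nat_lit 344129) (nat_lit 26) (.e (nat_lit 557089) (nat_lit 12) .nil)))) (.g (nat_lit 0) (.e (nat_lit 214829) (nat_lit 0) .nil) .nil))) 
(.lf (nat_lit 516864) (.g (nat_lit 3613) (.e (nat_lit 196666) (nat_lit 13) (.e (nat_lit 65610) (nat_lit 10) (.e (nat_lit 344117) (nat_lit 21) (.e (nat_lit 516151) (nat_lit 9) (.e (nat_lit 426017) (nat_lit 0) (.e (nat_lit 3367) (nat_lit 208) (.e (nat_lit 622626) (nat_lit 13) (.e (nat_lit 2666) (nat_lit 167) .nil)))))))) (.g (nat_lit 1) (.e (nat_lit 215751) (nat_lit 0) .nil) .nil))))) 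
(.nd (nat_lit 8) (.nd (nat_lit 9) 
(.lf (nat_lit 516224) (.g (nat_lit 2913) (.e (nat_lit 196656) (nat_lit 11) (.e (nat_lit 16438) (nat_lit 9) (.e (nat_lit 426482) (nat_lit 27) (.e (nat_lit 336389) (nat_lit 27) (.e (nat_lit 426105) (nat_lit 1) .nil))))) (.g (nat_lit 0) (.e (nat_lit 214530) (nat_lit 0) .nil) .nil))) 
(.lf (nat_lit 516736) (.g (nat_lit 2651) (.e (nat_lit 196666) (nat_lit 13) (.e (nat_lit 65610) (nat_lit 10) (.e (nat_lit 344117) (nat_lit 21) (.e (nat_lit 516117) (nat_lit 1) .nil)))) (.g (nat_lit 0) (.e (nat_lit 215614) (nat_lit 0) .nil) .nil)))) (.nd (nat_lit 9) 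
(.lf (nat_lit 516480) (.g (nat_lit 752) (.e (nat_lit 196665) (nat_lit 13) (.e (nat_lit 65623) (nat_lit 12) (.e (nat_lit 385067) (nat_lit 26) (.e (nat_lit 532510) (nat_lit 2) .nil)))) (.g (nat_lit 0) (.e (nat_lit 215007) (nat_lit 0) .nil) .nil))) 
(.lf (nat_lit 516992) (.g (nat_lit 4066) (.e (nat_lit 196666) (nat_lit 13) (.e (nat_lit 65610) (nat_lit 10) (.e (nat_lit 344117) (nat_lit 21) (.e (nat_lit 516151) (nat_lit 9) (.e (nat_lit 426021) (nat_lit 0) (.e (nat_lit 3368) (nat_lit 208) (.e (nat_lit 622627) (nat_lit 13) (.e (nat_lit 2663) (nat_lit 167) .nil)))))))) (.g (nat_lit 1) (.e (nat_lit 215879) (nat_lit 0) .nil) .nil)))))) 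
(.nd (nat_lit 7) (.nd (nat_lit 8) (.nd (nat_lit 9) 
(.lf (nat_lit 516160) (.g (nat_lit 1281) (.e (nat_lit 196656) (nat_lit 11) (.e (nat_lit 16407) (nat_lit 1) (.e (nat_lit 164330) (nat_lit 230) (.e (nat_lit 171776) (nat_lit 62) .nil)))) (.g (nat_lit 0) (.e (nat_lit 214428) (nat_lit 0) .nil) .nil))) 
(.lf (nat_lit 516672) (.g (nat_lit 2188) (.e (nat_lit 196666) (nat_lit 13) (.e (nat_lit 65610) (nat_lit 10) (.e (nat_lit 344117) (nat_lit 21) (.e (nat_lit 516106) (nat_lit 0) (.e (nat_lit 2515) (nat_lit 157) .nil))))) (.g (nat_lit 0) (.e (nat_lit 215444) (nat_lit 0) .nil) .nil)))) (.nd (nat_lit 9) 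
(.lf (nat_lit 516416) (.g (nat_lit 1666) (.e (nat_lit 196664) (nat_lit 13) (.e (nat_lit 65571) (nat_lit 3) (.e (nat_lit 98341) (nat_lit 20) (.e (nat_lit 221215) (nat_lit 23) .nil)))) (.g (nat_lit 0) (.e (nat_lit 214910) (nat_lit 0) .nil) .nil))) 
(.lf (nat_lit 516928) (.g (nat_lit 3863) (.e (nat_lit 196666) (nat_lit 13) (.e (nat_lit 65610) (nat_lit 10) (.e (nat_lit 344117) (nat_lit 21) (.e (nat_lit 516151) (nat_lit 9) (.e (nat_lit 426020) (nat_lit 0) (.e (nat_lit 2439) (nat_lit 157) (.e (nat_lit 4817) (nat_lit 281) (.e (nat_lit 2477) (nat_lit 157) (.e (nat_lit 2663) (nat_lit 167) .nil))))))))) (.g (nat_lit 1) (.e (nat_lit 215815) (nat_lit 0) .nil) .nil))))) 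
(.nd (nat_lit 8) (.nd (nat_lit 9) 
(.lf (nat_lit 516288) (.g (nat_lit 1472) (.e (nat_lit 196661) (nat_lit 12) (.e (nat_lit 57711) (nat_lit 176) (.e (nat_lit 1370) (nat_lit 103) (.e (nat_lit 294931) (nat_lit 3) (.e (nat_lit 98381) (nat_lit 31) .nil))))) (.g (nat_lit 0) (.e (nat_lit 214728) (nat_lit 0) .nil) .nil))) 
(.lf (nat_lit 516800) (.g (nat_lit 4128) (.e (nat_lit 196666) (nat_lit 13) (.e (nat_lit 65610) (nat_lit 10) (.e (nat_lit 344117) (nat_lit 21) (.e (nat_lit 516151) (nat_lit 9) (.e (nat_lit 426017) (nat_lit 0) (.e (nat_lit 2401) (nat_lit 157) (.e (nat_lit 4829) (nat_lit 281) (.e (nat_lit 2416) (nat_lit 157) (.e (nat_lit 2666) (nat_lit 167) .nil))))))))) (.g (nat_lit 1) (.e (nat_lit 215687) (nat_lit 0) .nil) .nil)))) 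
(.nd (nat_lit 9) 
(.lf (nat_lit 516544) (.g (nat_lit 446) (.e (nat_lit 196666) (nat_lit 13) (.e (nat_lit 65571) (nat_lit 3) (.e (nat_lit 98341) (nat_lit 20) .nil))) (.g (nat_lit 0) (.e (nat_lit 215197) (nat_lit 0) .nil) .nil))) 
(.lf (nat_lit 517056) (.g (nat_lit 3522) (.e (nat_lit 196666) (nat_lit 13) (.e (nat_lit 65610) (nat_lit 10) (.e (nat_lit 344117) (nat_lit 21) (.e (nat_lit 516151) (nat_lit 9) (.e (nat_lit 426034) (nat_lit 0) (.e (nat_lit 2426) (nat_lit 157) (.e (nat_lit 4778) (nat_lit 281) (.e (nat_lit 2445) (nat_lit 157) (.e (nat_lit 2668) (nat_lit 167) .nil))))))))) (.g (nat_lit 1) (.e (nat_lit 215943) (nat_lit 0) .nil) .nil))))))) 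
(.nd (nat_lit 6) (.nd (nat_lit 7) (.nd (nat_lit 8) (.nd (nat_lit 9) 
(.lf (nat_lit 516128) (.g (nat_lit 2635) (.e (nat_lit 196655) (nat_lit 11) (.e (nat_lit 16435) (nat_lit 9) (.e (nat_lit 426516) (nat_lit 27) (.e (nat_lit 336387) (nat_lit 27) (.e (nat_lit 426107) (nat_lit 1) (.e (nat_lit 164326) (nat_lit 230) (.e (nat_lit 163868) (nat_lit 2) .nil))))))) (.g (nat_lit 1) (.e (nat_lit 214324) (nat_lit 0) .nil) .nil))) 
(.lf (nat_lit 516640) (.g (nat_lit 3302) (.e (nat_lit 196666) (nat_lit 13) (.e (nat_lit 65610) (nat_lit 10) (.e (nat_lit 344117) (nat_lit 21) (.e (nat_lit 516098) (nat_lit 0) (.e (nat_lit 7044) (nat_lit 377) (.e (nat_lit 2814) (nat_lit 181) (.e (nat_lit 311312) (nat_lit 2) .nil))))))) (.g (nat_lit 1) (.e (nat_lit 215390) (nat_lit 0) .nil) .nil)))) (.nd (nat_lit 9) 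
(.lf (nat_lit 516384) (.g (nat_lit 1531) (.e (nat_lit 196663) (nat_lit 13) (.e (nat_lit 65630) (nat_lit 14) (.e (nat_lit 401427) (nat_lit 3) (.e (nat_lit 204864) (nat_lit 27) .nil)))) (.g (nat_lit 0) (.e (nat_lit 214866) (nat_lit 0) .nil) .nil))) 
(.lf (nat_lit 516896) (.g (nat_lit 3157) (.e (nat_lit 196666) (nat_lit 13) (.e (nat_lit 65610) (nat_lit 10) (.e (nat_lit 344117) (nat_lit 21) (.e (nat_lit 516151) (nat_lit 9) (.e (nat_lit 426018) (nat_lit 0) (.e (nat_lit 2401) (nat_lit 157) (.e (nat_lit 4761) (nat_lit 281) (.e (nat_lit 2461) (nat_lit 157) (.e (nat_lit 2666) (nat_lit 167) .nil))))))))) (.g (nat_lit 1) (.e (nat_lit 215783) (nat_lit 0) .nil) .nil))))) 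
(.nd (nat_lit 8) (.nd (nat_lit 9) 
(.lf (nat_lit 516256) (.g (nat_lit 1978) (.e (nat_lit 196656) (nat_lit 11) (.e (nat_lit 16463) (nat_lit 13) (.e (nat_lit 483341) (nat_lit 9) (.e (nat_lit 426009) (nat_lit 0) .nil)))) (.g (nat_lit 0) (.e (nat_lit 214667) (nat_lit 0) .nil) .nil))) 
(.lf (nat_lit 516768) (.g (nat_lit 2290) (.e (nat_lit 196666) (nat_lit 13) (.e (nat_lit 65610) (nat_lit 10) (.e (nat_lit 344117) (nat_lit 21) (.e (nat_lit 516139) (nat_lit 7) (.e (nat_lit 409623) (nat_lit 10) .nil))))) (.g (nat_lit 0) (.e (nat_lit 215653) (nat_lit 0) .nil) .nil)))) (.nd (nat_lit 9) 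
(.lf (nat_lit 516512) (.g (nat_lit 1923) (.e (nat_lit 196665) (nat_lit 13) (.e (nat_lit 65637) (nat_lit 15) (.e (nat_lit 3253) (nat_lit 197) (.e (nat_lit 532503) (nat_lit 1) (.e (nat_lit 57850) (nat_lit 252) .nil))))) (.g (nat_lit 0) (.e (nat_lit 215051) (nat_lit 0) .nil) .nil))) 
(.lf (nat_lit 517024) (.g (nat_lit 3675) (.e (nat_lit 196666) (nat_lit 13) (.e (nat_lit 65610) (nat_lit 10) (.e (nat_lit 344117) (nat_lit 21) (.e (nat_lit 516151) (nat_lit 9) (.e (nat_lit 426022) (nat_lit 0) (.e (nat_lit 7936) (nat_lit 208) (.e (nat_lit 622622) (nat_lit 13) (.e (nat_lit 2662) (nat_lit 167) .nil)))))))) (.g (nat_lit 1) (.e (nat_lit 215911) (nat_lit 0) .nil) .nil)))))) 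
(.nd (nat_lit 7) (.nd (nat_lit 8) (.nd (nat_lit 9) 
(.lf (nat_lit 516192) (.g (nat_lit 663) (.e (nat_lit 196656) (nat_lit 11) (.e (nat_lit 16435) (nat_lit 9) (.e (nat_lit 426131) (nat_lit 3) .nil))) (.g (nat_lit 0) (.e (nat_lit 214490) (nat_lit 0) .nil) .nil))) 
(.lf (nat_lit 516704) (.g (nat_lit 2886) (.e (nat_lit 196666) (nat_lit 13) (.e (nat_lit 65610) (nat_lit 10) (.e (nat_lit 344117) (nat_lit 21) (.e (nat_lit 516106) (nat_lit 0) (.e (nat_lit 7014) (nat_lit 377) (.e (nat_lit 2807) (nat_lit 180) (.e (nat_lit 303116) (nat_lit 2) .nil))))))) (.g (nat_lit 1) (.e (nat_lit 215519) (nat_lit 0) .nil) .nil)))) (.nd (nat_lit 9) 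
(.lf (nat_lit 516448) (.g (nat_lit 1057) (.e (nat_lit 196665) (nat_lit 13) (.e (nat_lit 65569) (nat_lit 3) (.e (nat_lit 98342) (nat_lit 20) (.e (nat_lit 221215) (nat_lit 23) .nil)))) (.g (nat_lit 0) (.e (nat_lit 214950) (nat_lit 0) .nil) .nil))) 
(.lf (nat_lit 516960) (.g (nat_lit 3344) (.e (nat_lit 196666) (nat_lit 13) (.e (nat_lit 65610) (nat_lit 10) (.e (nat_lit 344117) (nat_lit 21) (.e (nat_lit 516151) (nat_lit 9) (.e (nat_lit 426020) (nat_lit 0) (.e (nat_lit 3373) (nat_lit 208) (.e (nat_lit 622620) (nat_lit 13) (.e (nat_lit 2668) (nat_lit 167) .nil)))))))) (.g (nat_lit 1) (.e (nat_lit 215847) (nat_lit 0) .nil) .nil))))) 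
(.nd (nat_lit 8) (.nd (nat_lit 9) 
(.lf (nat_lit 516320) (.g (nat_lit 972) (.e (nat_lit 196663) (nat_lit 13) (.e (nat_lit 65571) (nat_lit 3) (.e (nat_lit 98333) (nat_lit 18) .nil))) (.g (nat_lit 0) (.e (nat_lit 214787) (nat_lit 0) .nil) .nil))) 
(.lf (nat_lit 516832) (.g (nat_lit 4580) (.e (nat_lit 196666) (nat_lit 13) (.e (nat_lit 65610) (nat_lit 10) (.e (nat_lit 344117) (nat_lit 21) (.e (nat_lit 516151) (nat_lit 9) (.e (nat_lit 426017) (nat_lit 0) (.e (nat_lit 2411) (nat_lit 157) (.e (nat_lit 4847) (nat_lit 285) (.e (nat_lit 163869) (nat_lit 2) .nil)))))))) (.g (nat_lit 1) (.e (nat_lit 215719) (nat_lit 0) .nil) .nil)))) 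
(.nd (nat_lit 9) 
(.lf (nat_lit 516576) (.g (nat_lit 1005) (.e (nat_lit 196666) (nat_lit 13) (.e (nat_lit 65604) (nat_lit 9) (.e (nat_lit 336013) (nat_lit 2) (.e (nat_lit 90165) (nat_lit 12) .nil)))) (.g (nat_lit 0) (.e (nat_lit 215269) (nat_lit 0) .nil) .nil))) 
(.lf (nat_lit 517088) (.g (nat_lit 3385) (.e (nat_lit 196666) (nat_lit 13) (.e (nat_lit 65610) (nat_lit 10) (.e (nat_lit 344117) (nat_lit 21) (.e (nat_lit 516151) (nat_lit 9) (.e (nat_lit 426037) (nat_lit 0) (.e (nat_lit 2422) (nat_lit 157) (.e (nat_lit 4778) (nat_lit 281) (.e (nat_lit 2444) (nat_lit 157) (.e (nat_lit 2668) (nat_lit 167) .nil))))))))) (.g (nat_lit 1) (.e (nat_lit 215975) (nat_lit 0) .nil) .nil)))))))) 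
(.nd (nat_lit 5) (.nd (nat_lit 6) (.nd (nat_lit 7) (.nd (nat_lit 8) (.nd (nat_lit 9) 
(.lf (nat_lit 516112) (.g (nat_lit 3333) (.e (nat_lit 196654) (nat_lit 11) (.e (nat_lit 16466) (nat_lit 13) (.e (nat_lit 483341) (nat_lit 9) (.e (nat_lit 426106) (nat_lit 1) (.e (nat_lit 164327) (nat_lit 230) (.e (nat_lit 163871) (nat_lit 2) .nil)))))) (.g (nat_lit 1) (.e (nat_lit 214250) (nat_lit 0) .nil) .nil))) 
(.lf (nat_lit 516624) (.g (nat_lit 3805) (.e (nat_lit 196666) (nat_lit 13) (.e (nat_lit 65610) (nat_lit 10) (.e (nat_lit 344117) (nat_lit 21) (.e (nat_lit 516097) (nat_lit 0) (.e (nat_lit 7110) (nat_lit 380) (.e (nat_lit 164359) (nat_lit 246) (.e (nat_lit 2661) (nat_lit 167) .nil))))))) (.g (nat_lit 1) (.e (nat_lit 215370) (nat_lit 0) .nil) .nil)))) (.nd (nat_lit 9) 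
(.lf (nat_lit 516368) (.g (nat_lit 3931) (.e (nat_lit 196663) (nat_lit 13) (.e (nat_lit 65630) (nat_lit 14) (.e (nat_lit 401425) (nat_lit 2) (.e (nat_lit 196668) (nat_lit 14) (.e (nat_lit 73782) (nat_lit 32) (.e (nat_lit 2663) (nat_lit 167) .nil)))))) (.g (nat_lit 1) (.e (nat_lit 214850) (nat_lit 0) .nil) .nil))) 
(.lf (nat_lit 516880) (.g (nat_lit 3835) (.e (nat_lit 196666) (nat_lit 13) (.e (nat_lit 65610) (nat_lit 10) (.e (nat_lit 344117) (nat_lit 21) (.e (nat_lit 516151) (nat_lit 9) (.e (nat_lit 426017) (nat_lit 0) (.e (nat_lit 3373) (nat_lit 208) (.e (nat_lit 622620) (nat_lit 13) (.e (nat_lit 2668) (nat_lit 167) .nil)))))))) (.g (nat_lit 1) (.e (nat_lit 215767) (nat_lit 0) .nil) .nil))))) 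
(.nd (nat_lit 8) (.nd (nat_lit 9) 
(.lf (nat_lit 516240) (.g (nat_lit 3606) (.e (nat_lit 196656) (nat_lit 11) (.e (nat_lit 16448) (nat_lit 10) (.e (nat_lit 434231) (nat_lit 23) (.e (nat_lit 532529) (nat_lit 9) (.e (nat_lit 336328) (nat_lit 19) (.e (nat_lit 213000) (nat_lit 9) (.e (nat_lit 2667) (nat_lit 167) .nil))))))) (.g (nat_lit 1) (.e (nat_lit 214598) (nat_lit 0) .nil) .nil))) 
(.lf (nat_lit 516752) (.g (nat_lit 3146) (.e (nat_lit 196666) (nat_lit 13) (.e (nat_lit 65610) (nat_lit 10) (.e (nat_lit 344117) (nat_lit 21) (.e (nat_lit 516139) (nat_lit 7) (.e (nat_lit 409613) (nat_lit 10) (.e (nat_lit 5612) (nat_lit 312) (.e (nat_lit 2668) (nat_lit 167) .nil))))))) (.g (nat_lit 1) (.e (nat_lit 215637) (nat_lit 0) .nil) .nil)))) (.nd (nat_lit 9) 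
(.lf (nat_lit 516496) (.g (nat_lit 2653) (.e (nat_lit 196665) (nat_lit 13) (.e (nat_lit 65626) (nat_lit 13) (.e (nat_lit 393229) (nat_lit 9) (.e (nat_lit 335996) (nat_lit 1) (.e (nat_lit 57931) (nat_lit 282) (.e (nat_lit 163867) (nat_lit 2) .nil)))))) (.g (nat_lit 1) (.e (nat_lit 215033) (nat_lit 0) .nil) .nil))) 
(.lf (nat_lit 517008) (.g (nat_lit 3216) (.e (nat_lit 196666) (nat_lit 13) (.e (nat_lit 65610) (nat_lit 10) (.e (nat_lit 344117) (nat_lit 21) (.e (nat_lit 516151) (nat_lit 9) (.e (nat_lit 426022) (nat_lit 0) (.e (nat_lit 2397) (nat_lit 157) (.e (nat_lit 4761) (nat_lit 281) (.e (nat_lit 2463) (nat_lit 157) (.e (nat_lit 2666) (nat_lit 167) .nil))))))))) (.g (nat_lit 1) (.e (nat_lit 215895) (nat_lit 0) .nil) .nil)))))) 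
(.nd (nat_lit 7) (.nd (nat_lit 8) (.nd (nat_lit 9) 
(.lf (nat_lit 516176) (.g (nat_lit 2042) (.e (nat_lit 196656) (nat_lit 11) (.e (nat_lit 16416) (nat_lit 3) (.e (nat_lit 204812) (nat_lit 9) (.e (nat_lit 426116) (nat_lit 2) (.e (nat_lit 196654) (nat_lit 11) (.e (nat_lit 16411) (nat_lit 2) .nil)))))) (.g (nat_lit 1) (.e (nat_lit 214464) (nat_lit 0) .nil) .nil))) 
(.lf (nat_lit 516688) (.g (nat_lit 3333) (.e (nat_lit 196666) (nat_lit 13) (.e (nat_lit 65610) (nat_lit 10) (.e (nat_lit 344117) (nat_lit 21) (.e (nat_lit 516106) (nat_lit 0) (.e (nat_lit 6986) (nat_lit 377) (.e (nat_lit 2402) (nat_lit 157) (.e (nat_lit 7936) (nat_lit 312) (.e (nat_lit 2666) (nat_lit 167) .nil)))))))) (.g (nat_lit 1) (.e (nat_lit 215503) (nat_lit 0) .nil) .nil)))) 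
(.nd (nat_lit 9) 
(.lf (nat_lit 516432) (.g (nat_lit 2426) (.e (nat_lit 196664) (nat_lit 13) (.e (nat_lit 65619) (nat_lit 10) (.e (nat_lit 344129) (nat_lit 26) (.e (nat_lit 557084) (nat_lit 10) (.e (nat_lit 16128) (nat_lit 225) .nil))))) (.g (nat_lit 0) (.e (nat_lit 214929) (nat_lit 0) .nil) .nil))) 
(.lf (nat_lit 516944) (.g (nat_lit 4206) (.e (nat_lit 196666) (nat_lit 13) (.e (nat_lit 65610) (nat_lit 10) (.e (nat_lit 344117) (nat_lit 21) (.e (nat_lit 516151) (nat_lit 9) (.e (nat_lit 426020) (nat_lit 0) (.e (nat_lit 3367) (nat_lit 208) (.e (nat_lit 622627) (nat_lit 13) (.e (nat_lit 2663) (nat_lit 167) .nil)))))))) (.g (nat_lit 1) (.e (nat_lit 215831) (nat_lit 0) .nil) .nil))))) 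
(.nd (nat_lit 8) (.nd (nat_lit 9) 
(.lf (nat_lit 516304) (.g (nat_lit 2593) (.e (nat_lit 196662) (nat_lit 13) (.e (nat_lit 65610) (nat_lit 10) (.e (nat_lit 344129) (nat_lit 26) (.e (nat_lit 557090) (nat_lit 12) (.e (nat_lit 171776) (nat_lit 48) .nil))))) (.g (nat_lit 0) (.e (nat_lit 214763) (nat_lit 0) .nil) .nil))) 
(.lf (nat_lit 516816) (.g (nat_lit 4780) (.e (nat_lit 196666) (nat_lit 13) (.e (nat_lit 65610) (nat_lit 10) (.e (nat_lit 344117) (nat_lit 21) (.e (nat_lit 516151) (nat_lit 9) (.e (nat_lit 426017) (nat_lit 0) (.e (nat_lit 2418) (nat_lit 157) (.e (nat_lit 4849) (nat_lit 285) (.e (nat_lit 163870) (nat_lit 2) .nil)))))))) (.g (nat_lit 1) (.e (nat_lit 215703) (nat_lit 0) .nil) .nil)))) 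
(.nd (nat_lit 9) 
(.lf (nat_lit 516560) (.g (nat_lit 1178) (.e (nat_lit 196666) (nat_lit 13) (.e (nat_lit 65598) (nat_lit 9) (.e (nat_lit 336028) (nat_lit 3) (.e (nat_lit 98325) (nat_lit 17) .nil)))) (.g (nat_lit 0) (.e (nat_lit 215240) (nat_lit 0) .nil) .nil))) 
(.lf (nat_lit 517072) (.g (nat_lit 3977) (.e (nat_lit 196666) (nat_lit 13) (.e (nat_lit 65610) (nat_lit 10) (.e (nat_lit 344117) (nat_lit 21) (.e (nat_lit 516151) (nat_lit 9) (.e (nat_lit 426034) (nat_lit 0) (.e (nat_lit 3369) (nat_lit 208) (.e (nat_lit 622627) (nat_lit 13) (.e (nat_lit 2663) (nat_lit 167) .nil)))))))) (.g (nat_lit 1) (.e (nat_lit 215959) (nat_lit 0) .nil) .nil))))))) 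
(.nd (nat_lit 6) (.nd (nat_lit 7) (.nd (nat_lit 8) (.nd (nat_lit 9) 
(.lf (nat_lit 516144) (.g (nat_lit 3655) (.e (nat_lit 196655) (nat_lit 11) (.e (nat_lit 16465) (nat_lit 13) (.e (nat_lit 483341) (nat_lit 9) (.e (nat_lit 426107) (nat_lit 1) (.e (nat_lit 164326) (nat_lit 230) (.e (nat_lit 163871) (nat_lit 2) .nil)))))) (.g (nat_lit 1) (.e (nat_lit 214387) (nat_lit 0) .nil) .nil))) 
(.lf (nat_lit 516656) (.g (nat_lit 3060) (.e (nat_lit 196666) (nat_lit 13) (.e (nat_lit 65610) (nat_lit 10) (.e (nat_lit 344117) (nat_lit 21) (.e (nat_lit 516102) (nat_lit 0) (.e (nat_lit 7101) (nat_lit 380) (.e (nat_lit 164353) (nat_lit 246) (.e (nat_lit 7936) (nat_lit 167) .nil))))))) (.g (nat_lit 1) (.e (nat_lit 215410) (nat_lit 0) .nil) .nil)))) (.nd (nat_lit 9) 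
(.lf (nat_lit 516400) (.g (nat_lit 2274) (.e (nat_lit 196664) (nat_lit 13) (.e (nat_lit 65571) (nat_lit 3) (.e (nat_lit 98333) (nat_lit 18) (.e (nat_lit 164182) (nat_lit 154) (.e (nat_lit 57379) (nat_lit 3) .nil))))) (.g (nat_lit 0) (.e (nat_lit 214894) (nat_lit 0) .nil) .nil))) 
(.lf (nat_lit 516912) (.g (nat_lit 4251) (.e (nat_lit 196666) (nat_lit 13) (.e (nat_lit 65610) (nat_lit 10) (.e (nat_lit 344117) (nat_lit 21) (.e (nat_lit 516151) (nat_lit 9) (.e (nat_lit 426019) (nat_lit 0) (.e (nat_lit 3372) (nat_lit 208) (.e (nat_lit 622625) (nat_lit 13) (.e (nat_lit 2663) (nat_lit 167) .nil)))))))) (.g (nat_lit 1) (.e (nat_lit 215799) (nat_lit 0) .nil) .nil))))) 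
(.nd (nat_lit 8) (.nd (nat_lit 9) 
(.lf (nat_lit 516272) (.g (nat_lit 1306) (.e (nat_lit 196656) (nat_lit 11) (.e (nat_lit 16470) (nat_lit 14) (.e (nat_lit 491580) (nat_lit 27) .nil))) (.g (nat_lit 0) (.e (nat_lit 214688) (nat_lit 0) .nil) .nil))) 
(.lf (nat_lit 516784) (.g (nat_lit 3017) (.e (nat_lit 196666) (nat_lit 13) (.e (nat_lit 65610) (nat_lit 10) (.e (nat_lit 344117) (nat_lit 21) (.e (nat_lit 516151) (nat_lit 9) (.e (nat_lit 426003) (nat_lit 0) (.e (nat_lit 3372) (nat_lit 208) (.e (nat_lit 630528) (nat_lit 13) (.e (nat_lit 2666) (nat_lit 167) .nil)))))))) (.g (nat_lit 1) (.e (nat_lit 215671) (nat_lit 0) .nil) .nil)))) 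
(.nd (nat_lit 9) 
(.lf (nat_lit 516528) (.g (nat_lit 2365) (.e (nat_lit 196666) (nat_lit 13) (.e (nat_lit 65569) (nat_lit 3) (.e (nat_lit 98335) (nat_lit 18) (.e (nat_lit 164182) (nat_lit 154) (.e (nat_lit 57379) (nat_lit 3) .nil))))) (.g (nat_lit 0) (.e (nat_lit 215130) (nat_lit 0) .nil) .nil))) 
(.lf (nat_lit 517040) (.g (nat_lit 3215) (.e (nat_lit 196666) (nat_lit 13) (.e (nat_lit 65610) (nat_lit 10) (.e (nat_lit 344117) (nat_lit 21) (.e (nat_lit 516151) (nat_lit 9) (.e (nat_lit 426034) (nat_lit 0) (.e (nat_lit 2422) (nat_lit 157) (.e (nat_lit 4778) (nat_lit 281) (.e (nat_lit 2445) (nat_lit 157) (.e (nat_lit 2668) (nat_lit 167) .nil))))))))) (.g (nat_lit 1) (.e (nat_lit 215927) (nat_lit 0) .nil) .nil)))))) 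
(.nd (nat_lit 7) (.nd (nat_lit 8) (.nd (nat_lit 9) 
(.lf (nat_lit 516208) (.g (nat_lit 3133) (.e (nat_lit 196656) (nat_lit 11) (.e (nat_lit 16436) (nat_lit 9) (.e (nat_lit 426131) (nat_lit 3) (.e (nat_lit 204880) (nat_lit 32) (.e (nat_lit 385109) (nat_lit 51) (.e (nat_lit 794666) (nat_lit 22) .nil)))))) (.g (nat_lit 1) (.e (nat_lit 214513) (nat_lit 0) .nil) .nil))) 
(.lf (nat_lit 516720) (.g (nat_lit 2382) (.e (nat_lit 196666) (nat_lit 13) (.e (nat_lit 65610) (nat_lit 10) (.e (nat_lit 344117) (nat_lit 21) (.e (nat_lit 516106) (nat_lit 0) (.e (nat_lit 7112) (nat_lit 381) (.e (nat_lit 229685) (nat_lit 246) (.e (nat_lit 2654) (nat_lit 167) .nil))))))) (.g (nat_lit 1) (.e (nat_lit 215535) (nat_lit 0) .nil) .nil)))) (.nd (nat_lit 9) 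
(.lf (nat_lit 516464) (.g (nat_lit 3197) (.e (nat_lit 196665) (nat_lit 13) (.e (nat_lit 65598) (nat_lit 9) (.e (nat_lit 336013) (nat_lit 2) (.e (nat_lit 90165) (nat_lit 12) (.e (nat_lit 164211) (nat_lit 176) .nil))))) (.g (nat_lit 0) (.e (nat_lit 214979) (nat_lit 0) .nil) .nil))) 
(.lf (nat_lit 516976) (.g (nat_lit 3664) (.e (nat_lit 196666) (nat_lit 13) (.e (nat_lit 65610) (nat_lit 10) (.e (nat_lit 344117) (nat_lit 21) (.e (nat_lit 516151) (nat_lit 9) (.e (nat_lit 426021) (nat_lit 0) (.e (nat_lit 3366) (nat_lit 208) (.e (nat_lit 622624) (nat_lit 13) (.e (nat_lit 2668) (nat_lit 167) .nil)))))))) (.g (nat_lit 1) (.e (nat_lit 215863) (nat_lit 0) .nil) .nil))))) 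
(.nd (nat_lit 8) (.nd (nat_lit 9) 
(.lf (nat_lit 516336) (.g (nat_lit 910) (.e (nat_lit 196663) (nat_lit 13) (.e (nat_lit 65571) (nat_lit 3) (.e (nat_lit 98341) (nat_lit 20) .nil))) (.g (nat_lit 0) (.e (nat_lit 214803) (nat_lit 0) .nil) .nil))) 
(.lf (nat_lit 516848) (.g (nat_lit 4375) (.e (nat_lit 196666) (nat_lit 13) (.e (nat_lit 65610) (nat_lit 10) (.e (nat_lit 344117) (nat_lit 21) (.e (nat_lit 516151) (nat_lit 9) (.e (nat_lit 426017) (nat_lit 0) (.e (nat_lit 2415) (nat_lit 157) (.e (nat_lit 4827) (nat_lit 281) (.e (nat_lit 2477) (nat_lit 157) (.e (nat_lit 2663) (nat_lit 167) .nil))))))))) (.g (nat_lit 1) (.e (nat_lit 215735) (nat_lit 0) .nil) .nil)))) 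
(.nd (nat_lit 9) 
(.lf (nat_lit 516592) (.g (nat_lit 3371) (.e (nat_lit 196666) (nat_lit 13) (.e (nat_lit 65610) (nat_lit 10) (.e (nat_lit 344117) (nat_lit 21) (.e (nat_lit 516097) (nat_lit 0) (.e (nat_lit 2398) (nat_lit 157) .nil))))) (.g (nat_lit 0) (.e (nat_lit 215304) (nat_lit 0) .nil) .nil))) 
(.lf (nat_lit 517104) (.g (nat_lit 3525) (.e (nat_lit 196666) (nat_lit 13) (.e (nat_lit 65610) (nat_lit 10) (.e (nat_lit 344117) (nat_lit 21) (.e (nat_lit 516151) (nat_lit 9) (.e (nat_lit 426037) (nat_lit 0) (.e (nat_lit 2426) (nat_lit 157) (.e (nat_lit 4850) (nat_lit 286) (.e (nat_lit 229386) (nat_lit 2) .nil)))))))) (.g (nat_lit 1) (.e (nat_lit 215991) (nat_lit 0) .nil) .nil))))))))) 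
(.nd (nat_lit 4) (.nd (nat_lit 5) (.nd (nat_lit 6) (.nd (nat_lit 7) (.nd (nat_lit 8) 
(.nd (nat_lit 9) 
(.lf (nat_lit 516104) (.g (nat_lit 3711) (.e (nat_lit 196654) (nat_lit 11) (.e (nat_lit 16466) (nat_lit 13) (.e (nat_lit 483337) (nat_lit 9) (.e (nat_lit 426107) (nat_lit 1) (.e (nat_lit 164325) (nat_lit 230) (.e (nat_lit 163866) (nat_lit 2) .nil)))))) (.g (nat_lit 1) (.e (nat_lit 214241) (nat_lit 0) .nil) .nil))) 
(.lf (nat_lit 516616) (.g (nat_lit 3371) (.e (nat_lit 196666) (nat_lit 13) (.e (nat_lit 65610) (nat_lit 10) (.e (nat_lit 344117) (nat_lit 21) (.e (nat_lit 516097) (nat_lit 0) (.e (nat_lit 3360) (nat_lit 207) .nil))))) (.g (nat_lit 0) (.e (nat_lit 215362) (nat_lit 0) .nil) .nil)))) (.nd (nat_lit 9) 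
(.lf (nat_lit 516360) (.g (nat_lit 2331) (.e (nat_lit 196663) (nat_lit 13) (.e (nat_lit 65630) (nat_lit 14) (.e (nat_lit 401425) (nat_lit 2) (.e (nat_lit 196628) (nat_lit 9) (.e (nat_lit 1512) (nat_lit 108) (.e (nat_lit 335872) (nat_lit 0) (.e (nat_lit 6696) (nat_lit 357) (.e (nat_lit 2656) (nat_lit 167) .nil)))))))) (.g (nat_lit 1) (.e (nat_lit 214842) (nat_lit 0) .nil) .nil))) 
(.lf (nat_lit 516872) (.g (nat_lit 3954) (.e (nat_lit 196666) (nat_lit 13) (.e (nat_lit 65610) (nat_lit 10) (.e (nat_lit 344117) (nat_lit 21) (.e (nat_lit 516151) (nat_lit 9) (.e (nat_lit 426017) (nat_lit 0) (.e (nat_lit 3368) (nat_lit 208) (.e (nat_lit 622627) (nat_lit 13) (.e (nat_lit 2663) (nat_lit 167) .nil)))))))) (.g (nat_lit 1) (.e (nat_lit 215759) (nat_lit 0) .nil) .nil))))) 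
(.nd (nat_lit 8) (.nd (nat_lit 9) 
(.lf (nat_lit 516232) (.g (nat_lit 516) (.e (nat_lit 196656) (nat_lit 11) (.e (nat_lit 16448) (nat_lit 10) (.e (nat_lit 434231) (nat_lit 23) .nil))) (.g (nat_lit 0) (.e (nat_lit 214590) (nat_lit 0) .nil) .nil))) 
(.lf (nat_lit 516744) (.g (nat_lit 3761) (.e (nat_lit 196666) (nat_lit 13) (.e (nat_lit 65610) (nat_lit 10) (.e (nat_lit 344117) (nat_lit 21) (.e (nat_lit 516138) (nat_lit 7) (.e (nat_lit 409623) (nat_lit 10) (.e (nat_lit 5664) (nat_lit 312) (.e (nat_lit 2661) (nat_lit 167) .nil))))))) (.g (nat_lit 1) (.e (nat_lit 215629) (nat_lit 0) .nil) .nil)))) (.nd (nat_lit 9) 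
(.lf (nat_lit 516488) (.g (nat_lit 393) (.e (nat_lit 196665) (nat_lit 13) (.e (nat_lit 65626) (nat_lit 13) (.e (nat_lit 393225) (nat_lit 9) .nil))) (.g (nat_lit 0) (.e (nat_lit 215024) (nat_lit 0) .nil) .nil))) 
(.lf (nat_lit 517000) (.g (nat_lit 4718) (.e (nat_lit 196666) (nat_lit 13) (.e (nat_lit 65610) (nat_lit 10) (.e (nat_lit 344117) (nat_lit 21) (.e (nat_lit 516151) (nat_lit 9) (.e (nat_lit 426021) (nat_lit 0) (.e (nat_lit 3372) (nat_lit 208) (.e (nat_lit 630528) (nat_lit 13) (.e (nat_lit 2666) (nat_lit 167) .nil)))))))) (.g (nat_lit 1) (.e (nat_lit 215887) (nat_lit 0) .nil) .nil)))))) 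
(.nd (nat_lit 7) (.nd (nat_lit 8) (.nd (nat_lit 9) 
(.lf (nat_lit 516168) (.g (nat_lit 1897) (.e (nat_lit 196656) (nat_lit 11) (.e (nat_lit 16412) (nat_lit 2) (.e (nat_lit 196656) (nat_lit 11) (.e (nat_lit 16413) (nat_lit 2) .nil)))) (.g (nat_lit 0) (.e (nat_lit 214445) (nat_lit 0) .nil) .nil))) 
(.lf (nat_lit 516680) (.g (nat_lit 2584) (.e (nat_lit 196666) (nat_lit 13) (.e (nat_lit 65610) (nat_lit 10) (.e (nat_lit 344117) (nat_lit 21) (.e (nat_lit 516106) (nat_lit 0) (.e (nat_lit 3359) (nat_lit 207) .nil))))) (.g (nat_lit 0) (.e (nat_lit 215480) (nat_lit 0) .nil) .nil)))) (.nd (nat_lit 9) 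
(.lf (nat_lit 516424) (.g (nat_lit 2296) (.e (nat_lit 196664) (nat_lit 13) (.e (nat_lit 65571) (nat_lit 3) (.e (nat_lit 98342) (nat_lit 20) (.e (nat_lit 221215) (nat_lit 23) (.e (nat_lit 204831) (nat_lit 18) (.e (nat_lit 57931) (nat_lit 282) (.e (nat_lit 163866) (nat_lit 2) .nil))))))) (.g (nat_lit 1) (.e (nat_lit 214919) (nat_lit 0) .nil) .nil))) 
(.lf (nat_lit 516936) (.g (nat_lit 4484) (.e (nat_lit 196666) (nat_lit 13) (.e (nat_lit 65610) (nat_lit 10) (.e (nat_lit 344117) (nat_lit 21) (.e (nat_lit 516151) (nat_lit 9) (.e (nat_lit 426020) (nat_lit 0) (.e (nat_lit 3366) (nat_lit 208) (.e (nat_lit 622626) (nat_lit 13) (.e (nat_lit 2663) (nat_lit 167) .nil)))))))) (.g (nat_lit 1) (.e (nat_lit 215823) (nat_lit 0) .nil) .nil))))) 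
(.nd (nat_lit 8) (.nd (nat_lit 9) 
(.lf (nat_lit 516296) (.g (nat_lit 556) (.e (nat_lit 196662) (nat_lit 13) (.e (nat_lit 65568) (nat_lit 2) (.e (nat_lit 98048) (nat_lit 2) .nil))) (.g (nat_lit 0) (.e (nat_lit 214754) (nat_lit 0) .nil) .nil))) 
(.lf (nat_lit 516808) (.g (nat_lit 4279) (.e (nat_lit 196666) (nat_lit 13) (.e (nat_lit 65610) (nat_lit 10) (.e (nat_lit 344117) (nat_lit 21) (.e (nat_lit 516151) (nat_lit 9) (.e (nat_lit 426017) (nat_lit 0) (.e (nat_lit 2416) (nat_lit 157) (.e (nat_lit 4849) (nat_lit 285) (.e (nat_lit 163869) (nat_lit 2) .nil)))))))) (.g (nat_lit 1) (.e (nat_lit 215695) (nat_lit 0) .nil) .nil)))) 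
(.nd (nat_lit 9) 
(.lf (nat_lit 516552) (.g (nat_lit 338) (.e (nat_lit 196666) (nat_lit 13) (.e (nat_lit 65586) (nat_lit 7) (.e (nat_lit 319500) (nat_lit 10) .nil))) (.g (nat_lit 0) (.e (nat_lit 215210) (nat_lit 0) .nil) .nil))) 
(.lf (nat_lit 517064) (.g (nat_lit 4965) (.e (nat_lit 196666) (nat_lit 13) (.e (nat_lit 65610) (nat_lit 10) (.e (nat_lit 344117) (nat_lit 21) (.e (nat_lit 516151) (nat_lit 9) (.e (nat_lit 426034) (nat_lit 0) (.e (nat_lit 3366) (nat_lit 208) (.e (nat_lit 622626) (nat_lit 13) (.e (nat_lit 2663) (nat_lit 167) .nil)))))))) (.g (nat_lit 1) (.e (nat_lit 215951) (nat_lit 0) .nil) .nil))))))) 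
(.nd (nat_lit 6) (.nd (nat_lit 7) (.nd (nat_lit 8) (.nd (nat_lit 9) 
(.lf (nat_lit 516136) (.g (nat_lit 1102) (.e (nat_lit 196655) (nat_lit 11) (.e (nat_lit 16465) (nat_lit 13) (.e (nat_lit 483340) (nat_lit 9) (.e (nat_lit 426106) (nat_lit 1) (.e (nat_lit 164326) (nat_lit 230) .nil))))) (.g (nat_lit 0) (.e (nat_lit 214379) (nat_lit 0) .nil) .nil))) 
(.lf (nat_lit 516648) (.g (nat_lit 2995) (.e (nat_lit 196666) (nat_lit 13) (.e (nat_lit 65610) (nat_lit 10) (.e (nat_lit 344117) (nat_lit 21) (.e (nat_lit 516099) (nat_lit 0) (.e (nat_lit 7936) (nat_lit 380) (.e (nat_lit 164359) (nat_lit 246) (.e (nat_lit 2661) (nat_lit 167) .nil))))))) (.g (nat_lit 1) (.e (nat_lit 215402) (nat_lit 0) .nil) .nil)))) (.nd (nat_lit 9) 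
(.lf (nat_lit 516392) (.g (nat_lit 1733) (.e (nat_lit 196663) (nat_lit 13) (.e (nat_lit 65630) (nat_lit 14) (.e (nat_lit 401428) (nat_lit 3) (.e (nat_lit 204864) (nat_lit 27) (.e (nat_lit 352000) (nat_lit 0) .nil))))) (.g (nat_lit 0) (.e (nat_lit 214875) (nat_lit 0) .nil) .nil))) 
(.lf (nat_lit 516904) (.g (nat_lit 3478) (.e (nat_lit 196666) (nat_lit 13) (.e (nat_lit 65610) (nat_lit 10) (.e (nat_lit 344117) (nat_lit 21) (.e (nat_lit 516151) (nat_lit 9) (.e (nat_lit 426019) (nat_lit 0) (.e (nat_lit 3366) (nat_lit 208) (.e (nat_lit 622620) (nat_lit 13) (.e (nat_lit 2668) (nat_lit 167) .nil)))))))) (.g (nat_lit 1) (.e (nat_lit 215791) (nat_lit 0) .nil) .nil))))) 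
(.nd (nat_lit 8) (.nd (nat_lit 9) 
(.lf (nat_lit 516264) (.g (nat_lit 3344) (.e (nat_lit 196656) (nat_lit 11) (.e (nat_lit 16465) (nat_lit 13) (.e (nat_lit 483341) (nat_lit 9) (.e (nat_lit 426107) (nat_lit 1) (.e (nat_lit 164324) (nat_lit 230) (.e (nat_lit 163868) (nat_lit 2) .nil)))))) (.g (nat_lit 1) (.e (nat_lit 214676) (nat_lit 0) .nil) .nil))) 
(.lf (nat_lit 516776) (.g (nat_lit 3305) (.e (nat_lit 196666) (nat_lit 13) (.e (nat_lit 65610) (nat_lit 10) (.e (nat_lit 344117) (nat_lit 21) (.e (nat_lit 516142) (nat_lit 8) (.e (nat_lit 417817) (nat_lit 10) (.e (nat_lit 5666) (nat_lit 312) (.e (nat_lit 2654) (nat_lit 167) .nil))))))) (.g (nat_lit 1) (.e (nat_lit 215661) (nat_lit 0) .nil) .nil)))) (.nd (nat_lit 9) 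
(.lf (nat_lit 516520) (.g (nat_lit 5108) (.e (nat_lit 196666) (nat_lit 13) (.e (nat_lit 65569) (nat_lit 3) (.e (nat_lit 98333) (nat_lit 18) (.e (nat_lit 164182) (nat_lit 154) (.e (nat_lit 57379) (nat_lit 3) (.e (nat_lit 98338) (nat_lit 19) (.e (nat_lit 213013) (nat_lit 9) (.e (nat_lit 2666) (nat_lit 167) .nil)))))))) (.g (nat_lit 1) (.e (nat_lit 215088) (nat_lit 0) .nil) .nil))) 
(.lf (nat_lit 517032) (.g (nat_lit 3291) (.e (nat_lit 196666) (nat_lit 13) (.e (nat_lit 65610) (nat_lit 10) (.e (nat_lit 344117) (nat_lit 21) (.e (nat_lit 516151) (nat_lit 9) (.e (nat_lit 426026) (nat_lit 0) (.e (nat_lit 3368) (nat_lit 208) (.e (nat_lit 630528) (nat_lit 13) (.e (nat_lit 2666) (nat_lit 167) .nil)))))))) (.g (nat_lit 1) (.e (nat_lit 215919) (nat_lit 0) .nil) .nil)))))) 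
(.nd (nat_lit 7) (.nd (nat_lit 8) (.nd (nat_lit 9) 
(.lf (nat_lit 516200) (.g (nat_lit 2350) (.e (nat_lit 196656) (nat_lit 11) (.e (nat_lit 16436) (nat_lit 9) (.e (nat_lit 426131) (nat_lit 3) (.e (nat_lit 204854) (nat_lit 26) (.e (nat_lit 336240) (nat_lit 15) (.e (nat_lit 3774) (nat_lit 229) (.e (nat_lit 794669) (nat_lit 22) .nil))))))) (.g (nat_lit 1) (.e (nat_lit 214501) (nat_lit 0) .nil) .nil))) 
(.lf (nat_lit 516712) (.g (nat_lit 2669) (.e (nat_lit 196666) (nat_lit 13) (.e (nat_lit 65610) (nat_lit 10) (.e (nat_lit 344117) (nat_lit 21) (.e (nat_lit 516106) (nat_lit 0) (.e (nat_lit 7038) (nat_lit 377) (.e (nat_lit 2814) (nat_lit 181) (.e (nat_lit 311312) (nat_lit 2) .nil))))))) (.g (nat_lit 1) (.e (nat_lit 215527) (nat_lit 0) .nil) .nil)))) (.nd (nat_lit 9) 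
(.lf (nat_lit 516456) (.g (nat_lit 885) (.e (nat_lit 196665) (nat_lit 13) (.e (nat_lit 65590) (nat_lit 9) (.e (nat_lit 336456) (nat_lit 34) (.e (nat_lit 483364) (nat_lit 18) .nil)))) (.g (nat_lit 0) (.e (nat_lit 214961) (nat_lit 0) .nil) .nil))) 
(.lf (nat_lit 516968) (.g (nat_lit 4365) (.e (nat_lit 196666) (nat_lit 13) (.e (nat_lit 65610) (nat_lit 10) (.e (nat_lit 344117) (nat_lit 21) (.e (nat_lit 516151) (nat_lit 9) (.e (nat_lit 426020) (nat_lit 0) (.e (nat_lit 7936) (nat_lit 208) (.e (nat_lit 622627) (nat_lit 13) (.e (nat_lit 2666) (nat_lit 167) .nil)))))))) (.g (nat_lit 1) (.e (nat_lit 215855) (nat_lit 0) .nil) .nil))))) 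
(.nd (nat_lit 8) (.nd (nat_lit 9) 
(.lf (nat_lit 516328) (.g (nat_lit 2574) (.e (nat_lit 196663) (nat_lit 13) (.e (nat_lit 65571) (nat_lit 3) (.e (nat_lit 98333) (nat_lit 18) (.e (nat_lit 164183) (nat_lit 154) (.e (nat_lit 57378) (nat_lit 3) .nil))))) (.g (nat_lit 0) (.e (nat_lit 214795) (nat_lit 0) .nil) .nil))) 
(.lf (nat_lit 516840) (.g (nat_lit 4694) (.e (nat_lit 196666) (nat_lit 13) (.e (nat_lit 65610) (nat_lit 10) (.e (nat_lit 344117) (nat_lit 21) (.e (nat_lit 516151) (nat_lit 9) (.e (nat_lit 426017) (nat_lit 0) (.e (nat_lit 2412) (nat_lit 157) (.e (nat_lit 4847) (nat_lit 285) (.e (nat_lit 163869) (nat_lit 2) .nil)))))))) (.g (nat_lit 1) (.e (nat_lit 215727) (nat_lit 0) .nil) .nil)))) 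
(.nd (nat_lit 9) 
(.lf (nat_lit 516584) (.g (nat_lit 1700) (.e (nat_lit 196666) (nat_lit 13) (.e (nat_lit 65609) (nat_lit 10) (.e (nat_lit 344117) (nat_lit 21) (.e (nat_lit 516139) (nat_lit 7) (.e (nat_lit 409648) (nat_lit 18) .nil))))) (.g (nat_lit 0) (.e (nat_lit 215281) (nat_lit 0) .nil) .nil))) 
(.lf (nat_lit 517096) (.g (nat_lit 4524) (.e (nat_lit 196666) (nat_lit 13) (.e (nat_lit 65610) (nat_lit 10) (.e (nat_lit 344117) (nat_lit 21) (.e (nat_lit 516151) (nat_lit 9) (.e (nat_lit 426037) (nat_lit 0) (.e (nat_lit 2423) (nat_lit 157) (.e (nat_lit 4848) (nat_lit 285) (.e (nat_lit 163869) (nat_lit 2) .nil)))))))) (.g (nat_lit 1) (.e (nat_lit 215983) (nat_lit 0) .nil) .nil)))))))) 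
(.nd (nat_lit 5) (.nd (nat_lit 6) (.nd (nat_lit 7) (.nd (nat_lit 8) (.nd (nat_lit 9) 
(.lf (nat_lit 516120) (.g (nat_lit 2681) (.e (nat_lit 196654) (nat_lit 11) (.e (nat_lit 16473) (nat_lit 14) (.e (nat_lit 491539) (nat_lit 3) (.e (nat_lit 98384) (nat_lit 32) .nil)))) (.g (nat_lit 0) (.e (nat_lit 214282) (nat_lit 0) .nil) .nil))) 
(.lf (nat_lit 516632) (.g (nat_lit 2252) (.e (nat_lit 196666) (nat_lit 13) (.e (nat_lit 65610) (nat_lit 10) (.e (nat_lit 344117) (nat_lit 21) (.e (nat_lit 516098) (nat_lit 0) (.e (nat_lit 2407) (nat_lit 157) .nil))))) (.g (nat_lit 0) (.e (nat_lit 215382) (nat_lit 0) .nil) .nil)))) (.nd (nat_lit 9) 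
(.lf (nat_lit 516376) (.g (nat_lit 3720) (.e (nat_lit 196663) (nat_lit 13) (.e (nat_lit 65630) (nat_lit 14) (.e (nat_lit 401425) (nat_lit 2) (.e (nat_lit 196681) (nat_lit 17) (.e (nat_lit 131076) (nat_lit 0) (.e (nat_lit 6691) (nat_lit 357) (.e (nat_lit 2667) (nat_lit 167) .nil))))))) (.g (nat_lit 1) (.e (nat_lit 214858) (nat_lit 0) .nil) .nil))) 
(.lf (nat_lit 516888) (.g (nat_lit 4477) (.e (nat_lit 196666) (nat_lit 13) (.e (nat_lit 65610) (nat_lit 10) (.e (nat_lit 344117) (nat_lit 21) (.e (nat_lit 516151) (nat_lit 9) (.e (nat_lit 426017) (nat_lit 0) (.e (nat_lit 7936) (nat_lit 208) (.e (nat_lit 622620) (nat_lit 13) (.e (nat_lit 2666) (nat_lit 167) .nil)))))))) (.g (nat_lit 1) (.e (nat_lit 215775) (nat_lit 0) .nil) .nil))))) 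
(.nd (nat_lit 8) (.nd (nat_lit 9) 
(.lf (nat_lit 516248) (.g (nat_lit 1051) (.e (nat_lit 196656) (nat_lit 11) (.e (nat_lit 16448) (nat_lit 10) (.e (nat_lit 434234) (nat_lit 23) (.e (nat_lit 532564) (nat_lit 15) .nil)))) (.g (nat_lit 0) (.e (nat_lit 214610) (nat_lit 0) .nil) .nil))) 
(.lf (nat_lit 516760) (.g (nat_lit 3306) (.e (nat_lit 196666) (nat_lit 13) (.e (nat_lit 65610) (nat_lit 10) (.e (nat_lit 344117) (nat_lit 21) (.e (nat_lit 516139) (nat_lit 7) (.e (nat_lit 409618) (nat_lit 10) (.e (nat_lit 5647) (nat_lit 312) (.e (nat_lit 2661) (nat_lit 167) .nil))))))) (.g (nat_lit 1) (.e (nat_lit 215645) (nat_lit 0) .nil) .nil)))) (.nd (nat_lit 9) 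
(.lf (nat_lit 516504) (.g (nat_lit 467) (.e (nat_lit 196665) (nat_lit 13) (.e (nat_lit 65628) (nat_lit 14) (.e (nat_lit 401428) (nat_lit 3) .nil))) (.g (nat_lit 0) (.e (nat_lit 215043) (nat_lit 0) .nil) .nil))) 
(.lf (nat_lit 517016) (.g (nat_lit 3187) (.e (nat_lit 196666) (nat_lit 13) (.e (nat_lit 65610) (nat_lit 10) (.e (nat_lit 344117) (nat_lit 21) (.e (nat_lit 516151) (nat_lit 9) (.e (nat_lit 426022) (nat_lit 0) (.e (nat_lit 2403) (nat_lit 157) (.e (nat_lit 4824) (nat_lit 281) (.e (nat_lit 2416) (nat_lit 157) (.e (nat_lit 2666) (nat_lit 167) .nil))))))))) (.g (nat_lit 1) (.e (nat_lit 215903) (nat_lit 0) .nil) .nil)))))) 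
(.nd (nat_lit 7) (.nd (nat_lit 8) (.nd (nat_lit 9) 
(.lf (nat_lit 516184) (.g (nat_lit 1429) (.e (nat_lit 196656) (nat_lit 11) (.e (nat_lit 16425) (nat_lit 7) (.e (nat_lit 409617) (nat_lit 10) (.e (nat_lit 604) (nat_lit 45) .nil)))) (.g (nat_lit 0) (.e (nat_lit 214478) (nat_lit 0) .nil) .nil))) 
(.lf (nat_lit 516696) (.g (nat_lit 3147) (.e (nat_lit 196666) (nat_lit 13) (.e (nat_lit 65610) (nat_lit 10) (.e (nat_lit 344117) (nat_lit 21) (.e (nat_lit 516106) (nat_lit 0) (.e (nat_lit 6986) (nat_lit 377) (.e (nat_lit 7936) (nat_lit 181) (.e (nat_lit 311311) (nat_lit 2) .nil))))))) (.g (nat_lit 1) (.e (nat_lit 215511) (nat_lit 0) .nil) .nil)))) (.nd (nat_lit 9) 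
(.lf (nat_lit 516440) (.g (nat_lit 1719) (.e (nat_lit 196664) (nat_lit 13) (.e (nat_lit 65630) (nat_lit 14) (.e (nat_lit 401428) (nat_lit 3) (.e (nat_lit 204848) (nat_lit 25) .nil)))) (.g (nat_lit 0) (.e (nat_lit 214938) (nat_lit 0) .nil) .nil))) 
(.lf (nat_lit 516952) (.g (nat_lit 3332) (.e (nat_lit 196666) (nat_lit 13) (.e (nat_lit 65610) (nat_lit 10) (.e (nat_lit 344117) (nat_lit 21) (.e (nat_lit 516151) (nat_lit 9) (.e (nat_lit 426020) (nat_lit 0) (.e (nat_lit 3372) (nat_lit 208) (.e (nat_lit 622620) (nat_lit 13) (.e (nat_lit 2666) (nat_lit 167) .nil)))))))) (.g (nat_lit 1) (.e (nat_lit 215839) (nat_lit 0) .nil) .nil))))) 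
(.nd (nat_lit 8) (.nd (nat_lit 9) 
(.lf (nat_lit 516312) (.g (nat_lit 1928) (.e (nat_lit 196662) (nat_lit 13) (.e (nat_lit 65630) (nat_lit 14) (.e (nat_lit 401428) (nat_lit 3) (.e (nat_lit 204864) (nat_lit 27) .nil)))) (.g (nat_lit 0) (.e (nat_lit 214771) (nat_lit 0) .nil) .nil))) 
(.lf (nat_lit 516824) (.g (nat_lit 3488) (.e (nat_lit 196666) (nat_lit 13) (.e (nat_lit 65610) (nat_lit 10) (.e (nat_lit 344117) (nat_lit 21) (.e (nat_lit 516151) (nat_lit 9) (.e (nat_lit 426017) (nat_lit 0) (.e (nat_lit 2432) (nat_lit 157) (.e (nat_lit 4778) (nat_lit 281) (.e (nat_lit 2445) (nat_lit 157) (.e (nat_lit 2668) (nat_lit 167) .nil))))))))) (.g (nat_lit 1) (.e (nat_lit 215711) (nat_lit 0) .nil) .nil)))) 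
(.nd (nat_lit 9) 
(.lf (nat_lit 516568) (.g (nat_lit 2566) (.e (nat_lit 196666) (nat_lit 13) (.e (nat_lit 65599) (nat_lit 9) (.e (nat_lit 336013) (nat_lit 2) (.e (nat_lit 90165) (nat_lit 12) (.e (nat_lit 164210) (nat_lit 176) .nil))))) (.g (nat_lit 0) (.e (nat_lit 215253) (nat_lit 0) .nil) .nil))) 
(.lf (nat_lit 517080) (.g (nat_lit 4451) (.e (nat_lit 196666) (nat_lit 13) (.e (nat_lit 65610) (nat_lit 10) (.e (nat_lit 344117) (nat_lit 21) (.e (nat_lit 516151) (nat_lit 9) (.e (nat_lit 426034) (nat_lit 0) (.e (nat_lit 3370) (nat_lit 208) (.e (nat_lit 622627) (nat_lit 13) (.e (nat_lit 2663) (nat_lit 167) .nil)))))))) (.g (nat_lit 1) (.e (nat_lit 215967) (nat_lit 0) .nil) .nil))))))) 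
(.nd (nat_lit 6) (.nd (nat_lit 7) (.nd (nat_lit 8) (.nd (nat_lit 9) 
(.lf (nat_lit 516152) (.g (nat_lit 2593) (.e (nat_lit 196655) (nat_lit 11) (.e (nat_lit 16473) (nat_lit 14) (.e (nat_lit 491526) (nat_lit 0) (.e (nat_lit 7936) (nat_lit 121) .nil)))) (.g (nat_lit 0) (.e (nat_lit 214402) (nat_lit 0) .nil) .nil))) 
(.lf (nat_lit 516664) (.g (nat_lit 2584) (.e (nat_lit 196666) (nat_lit 13) (.e (nat_lit 65610) (nat_lit 10) (.e (nat_lit 344117) (nat_lit 21) (.e (nat_lit 516106) (nat_lit 0) (.e (nat_lit 2424) (nat_lit 157) .nil))))) (.g (nat_lit 0) (.e (nat_lit 215423) (nat_lit 0) .nil) .nil)))) (.nd (nat_lit 9) 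
(.lf (nat_lit 516408) (.g (nat_lit 2589) (.e (nat_lit 196664) (nat_lit 13) (.e (nat_lit 65571) (nat_lit 3) (.e (nat_lit 98334) (nat_lit 18) (.e (nat_lit 164182) (nat_lit 154) (.e (nat_lit 57379) (nat_lit 3) (.e (nat_lit 98342) (nat_lit 20) (.e (nat_lit 221212) (nat_lit 22) .nil))))))) (.g (nat_lit 1) (.e (nat_lit 214902) (nat_lit 0) .nil) .nil))) 
(.lf (nat_lit 516920) (.g (nat_lit 5067) (.e (nat_lit 196666) (nat_lit 13) (.e (nat_lit 65610) (nat_lit 10) (.e (nat_lit 344117) (nat_lit 21) (.e (nat_lit 516151) (nat_lit 9) (.e (nat_lit 426019) (nat_lit 0) (.e (nat_lit 7936) (nat_lit 208) (.e (nat_lit 622620) (nat_lit 13) (.e (nat_lit 2663) (nat_lit 167) .nil)))))))) (.g (nat_lit 1) (.e (nat_lit 215807) (nat_lit 0) .nil) .nil))))) 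
(.nd (nat_lit 8) (.nd (nat_lit 9) 
(.lf (nat_lit 516280) (.g (nat_lit 869) (.e (nat_lit 196656) (nat_lit 11) (.e (nat_lit 16473) (nat_lit 14) (.e (nat_lit 491538) (nat_lit 3) .nil))) (.g (nat_lit 0) (.e (nat_lit 214698) (nat_lit 0) .nil) .nil))) 
(.lf (nat_lit 516792) (.g (nat_lit 4598) (.e (nat_lit 196666) (nat_lit 13) (.e (nat_lit 65610) (nat_lit 10) (.e (nat_lit 344117) (nat_lit 21) (.e (nat_lit 516151) (nat_lit 9) (.e (nat_lit 426017) (nat_lit 0) (.e (nat_lit 2398) (nat_lit 157) (.e (nat_lit 4847) (nat_lit 285) (.e (nat_lit 163869) (nat_lit 2) .nil)))))))) (.g (nat_lit 1) (.e (nat_lit 215679) (nat_lit 0) .nil) .nil)))) 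
(.nd (nat_lit 9) 
(.lf (nat_lit 516536) (.g (nat_lit 735) (.e (nat_lit 196666) (nat_lit 13) (.e (nat_lit 65571) (nat_lit 3) (.e (nat_lit 98325) (nat_lit 17) .nil))) (.g (nat_lit 0) (.e (nat_lit 215155) (nat_lit 0) .nil) .nil))) 
(.lf (nat_lit 517048) (.g (nat_lit 3521) (.e (nat_lit 196666) (nat_lit 13) (.e (nat_lit 65610) (nat_lit 10) (.e (nat_lit 344117) (nat_lit 21) (.e (nat_lit 516151) (nat_lit 9) (.e (nat_lit 426034) (nat_lit 0) (.e (nat_lit 2424) (nat_lit 157) (.e (nat_lit 4849) (nat_lit 285) (.e (nat_lit 163869) (nat_lit 2) .nil)))))))) (.g (nat_lit 1) (.e (nat_lit 215935) (nat_lit 0) .nil) .nil)))))) 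
(.nd (nat_lit 7) (.nd (nat_lit 8) (.nd (nat_lit 9) 
(.lf (nat_lit 516216) (.g (nat_lit 2253) (.e (nat_lit 196656) (nat_lit 11) (.e (nat_lit 16436) (nat_lit 9) (.e (nat_lit 426482) (nat_lit 27) (.e (nat_lit 336388) (nat_lit 27) (.e (nat_lit 426100) (nat_lit 1) .nil))))) (.g (nat_lit 0) (.e (nat_lit 214522) (nat_lit 0) .nil) .nil))) 
(.lf (nat_lit 516728) (.g (nat_lit 2698) (.e (nat_lit 196666) (nat_lit 13) (.e (nat_lit 65610) (nat_lit 10) (.e (nat_lit 344117) (nat_lit 21) (.e (nat_lit 516108) (nat_lit 0) .nil)))) (.g (nat_lit 0) (.e (nat_lit 215543) (nat_lit 0) .nil) .nil)))) (.nd (nat_lit 9) 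
(.lf (nat_lit 516472) (.g (nat_lit 2853) (.e (nat_lit 196665) (nat_lit 13) (.e (nat_lit 65616) (nat_lit 10) (.e (nat_lit 344117) (nat_lit 21) (.e (nat_lit 516139) (nat_lit 7) (.e (nat_lit 409646) (nat_lit 18) .nil))))) (.g (nat_lit 0) (.e (nat_lit 214992) (nat_lit 0) .nil) .nil))) 
(.lf (nat_lit 516984) (.g (nat_lit 4834) (.e (nat_lit 196666) (nat_lit 13) (.e (nat_lit 65610) (nat_lit 10) (.e (nat_lit 344117) (nat_lit 21) (.e (nat_lit 516151) (nat_lit 9) (.e (nat_lit 426021) (nat_lit 0) (.e (nat_lit 3367) (nat_lit 208) (.e (nat_lit 622625) (nat_lit 13) (.e (nat_lit 2663) (nat_lit 167) .nil)))))))) (.g (nat_lit 1) (.e (nat_lit 215871) (nat_lit 0) .nil) .nil))))) 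
(.nd (nat_lit 8) (.nd (nat_lit 9) 
(.lf (nat_lit 516344) (.g (nat_lit 2365) (.e (nat_lit 196663) (nat_lit 13) (.e (nat_lit 65571) (nat_lit 3) (.e (nat_lit 98342) (nat_lit 20) (.e (nat_lit 221214) (nat_lit 23) (.e (nat_lit 204830) (nat_lit 18) (.e (nat_lit 57927) (nat_lit 282) (.e (nat_lit 163866) (nat_lit 2) .nil))))))) (.g (nat_lit 1) (.e (nat_lit 214817) (nat_lit 0) .nil) .nil))) 
(.lf (nat_lit 516856) (.g (nat_lit 3998) (.e (nat_lit 196666) (nat_lit 13) (.e (nat_lit 65610) (nat_lit 10) (.e (nat_lit 344117) (nat_lit 21) (.e (nat_lit 516151) (nat_lit 9) (.e (nat_lit 426017) (nat_lit 0) (.e (nat_lit 3366) (nat_lit 208) (.e (nat_lit 622625) (nat_lit 13) (.e (nat_lit 2663) (nat_lit 167) .nil)))))))) (.g (nat_lit 1) (.e (nat_lit 215743) (nat_lit 0) .nil) .nil)))) 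
(.nd (nat_lit 9) 
(.lf (nat_lit 516600) (.g (nat_lit 3332) (.e (nat_lit 196666) (nat_lit 13) (.e (nat_lit 65610) (nat_lit 10) (.e (nat_lit 344117) (nat_lit 21) (.e (nat_lit 516097) (nat_lit 0) (.e (nat_lit 2430) (nat_lit 157) .nil))))) (.g (nat_lit 0) (.e (nat_lit 215320) (nat_lit 0) .nil) .nil))) 
(.lf (nat_lit 517112) (.g (nat_lit 3460) (.e (nat_lit 196666) (nat_lit 13) (.e (nat_lit 65610) (nat_lit 10) (.e (nat_lit 344117) (nat_lit 21) (.e (nat_lit 516151) (nat_lit 9) (.e (nat_lit 426037) (nat_lit 0) (.e (nat_lit 3366) (nat_lit 208) (.e (nat_lit 622622) (nat_lit 13) (.e (nat_lit 2662) (nat_lit 167) .nil)))))))) (.g (nat_lit 1) (.e (nat_lit 215999) (nat_lit 0) .nil) .nil)))))))))) 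
(.nd (nat_lit 3) (.nd (nat_lit 4) (.nd (nat_lit 5) (.nd (nat_lit 6) (.nd (nat_lit 7) 
(.nd (nat_lit 8) (.nd (nat_lit 9) 
(.lf (nat_lit 516100) (.g (nat_lit 2409) (.e (nat_lit 196654) (nat_lit 11) (.e (nat_lit 16466) (nat_lit 13) (.e (nat_lit 483336) (nat_lit 9) (.e (nat_lit 426100) (nat_lit 1) (.e (nat_lit 164332) (nat_lit 230) (.e (nat_lit 163867) (nat_lit 2) .nil)))))) (.g (nat_lit 1) (.e (nat_lit 214237) (nat_lit 0) .nil) .nil))) 
(.lf (nat_lit 516612) (.g (nat_lit 3371) (.e (nat_lit 196666) (nat_lit 13) (.e (nat_lit 65610) (nat_lit 10) (.e (nat_lit 344117) (nat_lit 21) (.e (nat_lit 516097) (nat_lit 0) (.e (nat_lit 3356) (nat_lit 207) .nil))))) (.g (nat_lit 0) (.e (nat_lit 215355) (nat_lit 0) .nil) .nil)))) (.nd (nat_lit 9) 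
(.lf (nat_lit 516356) (.g (nat_lit 2408) (.e (nat_lit 196663) (nat_lit 13) (.e (nat_lit 65624) (nat_lit 12) (.e (nat_lit 385068) (nat_lit 26) (.e (nat_lit 532513) (nat_lit 3) (.e (nat_lit 114698) (nat_lit 11) .nil))))) (.g (nat_lit 0) (.e (nat_lit 214836) (nat_lit 0) .nil) .nil))) 
(.lf (nat_lit 516868) (.g (nat_lit 3896) (.e (nat_lit 196666) (nat_lit 13) (.e (nat_lit 65610) (nat_lit 10) (.e (nat_lit 344117) (nat_lit 21) (.e (nat_lit 516151) (nat_lit 9) (.e (nat_lit 426017) (nat_lit 0) (.e (nat_lit 3368) (nat_lit 208) (.e (nat_lit 622620) (nat_lit 13) (.e (nat_lit 2668) (nat_lit 167) .nil)))))))) (.g (nat_lit 1) (.e (nat_lit 215755) (nat_lit 0) .nil) .nil))))) 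
(.nd (nat_lit 8) (.nd (nat_lit 9) 
(.lf (nat_lit 516228) (.g (nat_lit 2114) (.e (nat_lit 196656) (nat_lit 11) (.e (nat_lit 16438) (nat_lit 9) (.e (nat_lit 426482) (nat_lit 27) (.e (nat_lit 336388) (nat_lit 27) (.e (nat_lit 426105) (nat_lit 1) .nil))))) (.g (nat_lit 0) (.e (nat_lit 214534) (nat_lit 0) .nil) .nil))) 
(.lf (nat_lit 516740) (.g (nat_lit 3009) (.e (nat_lit 196666) (nat_lit 13) (.e (nat_lit 65610) (nat_lit 10) (.e (nat_lit 344117) (nat_lit 21) (.e (nat_lit 516138) (nat_lit 7) (.e (nat_lit 409612) (nat_lit 10) (.e (nat_lit 5656) (nat_lit 312) (.e (nat_lit 2654) (nat_lit 167) .nil))))))) (.g (nat_lit 1) (.e (nat_lit 215625) (nat_lit 0) .nil) .nil)))) (.nd (nat_lit 9) 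
(.lf (nat_lit 516484) (.g (nat_lit 2997) (.e (nat_lit 196665) (nat_lit 13) (.e (nat_lit 65623) (nat_lit 12) (.e (nat_lit 385074) (nat_lit 31) (.e (nat_lit 573482) (nat_lit 13) (.e (nat_lit 65628) (nat_lit 14) .nil))))) (.g (nat_lit 0) (.e (nat_lit 215013) (nat_lit 0) .nil) .nil))) 
(.lf (nat_lit 516996) (.g (nat_lit 3869) (.e (nat_lit 196666) (nat_lit 13) (.e (nat_lit 65610) (nat_lit 10) (.e (nat_lit 344117) (nat_lit 21) (.e (nat_lit 516151) (nat_lit 9) (.e (nat_lit 426021) (nat_lit 0) (.e (nat_lit 3372) (nat_lit 208) (.e (nat_lit 622624) (nat_lit 13) (.e (nat_lit 2668) (nat_lit 167) .nil)))))))) (.g (nat_lit 1) (.e (nat_lit 215883) (nat_lit 0) .nil) .nil)))))) 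
(.nd (nat_lit 7) (.nd (nat_lit 8) (.nd (nat_lit 9) 
(.lf (nat_lit 516164) (.g (nat_lit 2510) (.e (nat_lit 196656) (nat_lit 11) (.e (nat_lit 16411) (nat_lit 2) (.e (nat_lit 196656) (nat_lit 11) (.e (nat_lit 16412) (nat_lit 2) (.e (nat_lit 196656) (nat_lit 11) (.e (nat_lit 16411) (nat_lit 2) .nil)))))) (.g (nat_lit 1) (.e (nat_lit 214436) (nat_lit 0) .nil) .nil))) 
(.lf (nat_lit 516676) (.g (nat_lit 2358) (.e (nat_lit 196666) (nat_lit 13) (.e (nat_lit 65610) (nat_lit 10) (.e (nat_lit 344117) (nat_lit 21) (.e (nat_lit 516106) (nat_lit 0) (.e (nat_lit 3337) (nat_lit 205) .nil))))) (.g (nat_lit 0) (.e (nat_lit 215453) (nat_lit 0) .nil) .nil)))) (.nd (nat_lit 9) 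
(.lf (nat_lit 516420) (.g (nat_lit 1644) (.e (nat_lit 196664) (nat_lit 13) (.e (nat_lit 65571) (nat_lit 3) (.e (nat_lit 98342) (nat_lit 20) (.e (nat_lit 221214) (nat_lit 23) .nil)))) (.g (nat_lit 0) (.e (nat_lit 214914) (nat_lit 0) .nil) .nil))) 
(.lf (nat_lit 516932) (.g (nat_lit 3350) (.e (nat_lit 196666) (nat_lit 13) (.e (nat_lit 65610) (nat_lit 10) (.e (nat_lit 344117) (nat_lit 21) (.e (nat_lit 516151) (nat_lit 9) (.e (nat_lit 426020) (nat_lit 0) (.e (nat_lit 3366) (nat_lit 208) (.e (nat_lit 622622) (nat_lit 13) (.e (nat_lit 2668) (nat_lit 167) .nil)))))))) (.g (nat_lit 1) (.e (nat_lit 215819) (nat_lit 0) .nil) .nil))))) 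
(.nd (nat_lit 8) (.nd (nat_lit 9) 
(.lf (nat_lit 516292) (.g (nat_lit 1419) (.e (nat_lit 196661) (nat_lit 12) (.e (nat_lit 57712) (nat_lit 176) (.e (nat_lit 1370) (nat_lit 103) (.e (nat_lit 294931) (nat_lit 3) (.e (nat_lit 98362) (nat_lit 26) .nil))))) (.g (nat_lit 0) (.e (nat_lit 214733) (nat_lit 0) .nil) .nil))) 
(.lf (nat_lit 516804) (.g (nat_lit 4626) (.e (nat_lit 196666) (nat_lit 13) (.e (nat_lit 65610) (nat_lit 10) (.e (nat_lit 344117) (nat_lit 21) (.e (nat_lit 516151) (nat_lit 9) (.e (nat_lit 426017) (nat_lit 0) (.e (nat_lit 2401) (nat_lit 157) (.e (nat_lit 4847) (nat_lit 285) (.e (nat_lit 163869) (nat_lit 2) .nil)))))))) (.g (nat_lit 1) (.e (nat_lit 215691) (nat_lit 0) .nil) .nil)))) 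
(.nd (nat_lit 9) 
(.lf (nat_lit 516548) (.g (nat_lit 5280) (.e (nat_lit 196666) (nat_lit 13) (.e (nat_lit 65571) (nat_lit 3) (.e (nat_lit 98342) (nat_lit 20) (.e (nat_lit 221214) (nat_lit 23) (.e (nat_lit 204830) (nat_lit 18) (.e (nat_lit 57931) (nat_lit 282) (.e (nat_lit 163869) (nat_lit 2) .nil))))))) (.g (nat_lit 1) (.e (nat_lit 215204) (nat_lit 0) .nil) .nil))) 
(.lf (nat_lit 517060) (.g (nat_lit 3235) (.e (nat_lit 196666) (nat_lit 13) (.e (nat_lit 65610) (nat_lit 10) (.e (nat_lit 344117) (nat_lit 21) (.e (nat_lit 516151) (nat_lit 9) (.e (nat_lit 426034) (nat_lit 0) (.e (nat_lit 3366) (nat_lit 208) (.e (nat_lit 622621) (nat_lit 13) (.e (nat_lit 2668) (nat_lit 167) .nil)))))))) (.g (nat_lit 1) (.e (nat_lit 215947) (nat_lit 0) .nil) .nil))))))) 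
(.nd (nat_lit 6) (.nd (nat_lit 7) (.nd (nat_lit 8) (.nd (nat_lit 9) 
(.lf (nat_lit 516132) (.g (nat_lit 1657) (.e (nat_lit 196655) (nat_lit 11) (.e (nat_lit 16435) (nat_lit 9) (.e (nat_lit 426566) (nat_lit 34) (.e (nat_lit 393252) (nat_lit 18) (.e (nat_lit 164331) (nat_lit 230) .nil))))) (.g (nat_lit 0) (.e (nat_lit 214328) (nat_lit 0) .nil) .nil))) 
(.lf (nat_lit 516644) (.g (nat_lit 2379) (.e (nat_lit 196666) (nat_lit 13) (.e (nat_lit 65610) (nat_lit 10) (.e (nat_lit 344117) (nat_lit 21) (.e (nat_lit 516099) (nat_lit 0) (.e (nat_lit 2416) (nat_lit 157) .nil))))) (.g (nat_lit 0) (.e (nat_lit 215394) (nat_lit 0) .nil) .nil)))) (.nd (nat_lit 9) 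
(.lf (nat_lit 516388) (.g (nat_lit 2397) (.e (nat_lit 196663) (nat_lit 13) (.e (nat_lit 65630) (nat_lit 14) (.e (nat_lit 401428) (nat_lit 3) (.e (nat_lit 204846) (nat_lit 24) (.e (nat_lit 319491) (nat_lit 0) .nil))))) (.g (nat_lit 0) (.e (nat_lit 214871) (nat_lit 0) .nil) .nil))) 
(.lf (nat_lit 516900) (.g (nat_lit 3800) (.e (nat_lit 196666) (nat_lit 13) (.e (nat_lit 65610) (nat_lit 10) (.e (nat_lit 344117) (nat_lit 21) (.e (nat_lit 516151) (nat_lit 9) (.e (nat_lit 426018) (nat_lit 0) (.e (nat_lit 2411) (nat_lit 157) (.e (nat_lit 4847) (nat_lit 285) (.e (nat_lit 163870) (nat_lit 2) .nil)))))))) (.g (nat_lit 1) (.e (nat_lit 215787) (nat_lit 0) .nil) .nil))))) 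
(.nd (nat_lit 8) (.nd (nat_lit 9) 
(.lf (nat_lit 516260) (.g (nat_lit 1568) (.e (nat_lit 196656) (nat_lit 11) (.e (nat_lit 16465) (nat_lit 13) (.e (nat_lit 483337) (nat_lit 9) (.e (nat_lit 426100) (nat_lit 1) (.e (nat_lit 164332) (nat_lit 230) .nil))))) (.g (nat_lit 0) (.e (nat_lit 214672) (nat_lit 0) .nil) .nil))) 
(.lf (nat_lit 516772) (.g (nat_lit 4131) (.e (nat_lit 196666) (nat_lit 13) (.e (nat_lit 65610) (nat_lit 10) (.e (nat_lit 344117) (nat_lit 21) (.e (nat_lit 516142) (nat_lit 8) (.e (nat_lit 417815) (nat_lit 10) (.e (nat_lit 5710) (nat_lit 312) (.e (nat_lit 2664) (nat_lit 167) .nil))))))) (.g (nat_lit 1) (.e (nat_lit 215657) (nat_lit 0) .nil) .nil)))) (.nd (nat_lit 9) 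
(.lf (nat_lit 516516) (.g (nat_lit 499) (.e (nat_lit 196666) (nat_lit 13) (.e (nat_lit 65568) (nat_lit 2) (.e (nat_lit 90165) (nat_lit 12) .nil))) (.g (nat_lit 0) (.e (nat_lit 215070) (nat_lit 0) .nil) .nil))) 
(.lf (nat_lit 517028) (.g (nat_lit 2727) (.e (nat_lit 196666) (nat_lit 13) (.e (nat_lit 65610) (nat_lit 10) (.e (nat_lit 344117) (nat_lit 21) (.e (nat_lit 516151) (nat_lit 9) (.e (nat_lit 426023) (nat_lit 0) (.e (nat_lit 2402) (nat_lit 157) (.e (nat_lit 4830) (nat_lit 281) (.e (nat_lit 2477) (nat_lit 157) (.e (nat_lit 2666) (nat_lit 167) .nil))))))))) (.g (nat_lit 1) (.e (nat_lit 215915) (nat_lit 0) .nil) .nil)))))) 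
(.nd (nat_lit 7) (.nd (nat_lit 8) (.nd (nat_lit 9) 
(.lf (nat_lit 516196) (.g (nat_lit 321) (.e (nat_lit 196656) (nat_lit 11) (.e (nat_lit 16436) (nat_lit 9) (.e (nat_lit 426131) (nat_lit 3) .nil))) (.g (nat_lit 0) (.e (nat_lit 214495) (nat_lit 0) .nil) .nil))) 
(.lf (nat_lit 516708) (.g (nat_lit 3388) (.e (nat_lit 196666) (nat_lit 13) (.e (nat_lit 65610) (nat_lit 10) (.e (nat_lit 344117) (nat_lit 21) (.e (nat_lit 516106) (nat_lit 0) (.e (nat_lit 7015) (nat_lit 377) (.e (nat_lit 2817) (nat_lit 181) (.e (nat_lit 311312) (nat_lit 2) .nil))))))) (.g (nat_lit 1) (.e (nat_lit 215523) (nat_lit 0) .nil) .nil)))) (.nd (nat_lit 9) 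
(.lf (nat_lit 516452) (.g (nat_lit 3128) (.e (nat_lit 196665) (nat_lit 13) (.e (nat_lit 65589) (nat_lit 9) (.e (nat_lit 336013) (nat_lit 2) (.e (nat_lit 90165) (nat_lit 12) (.e (nat_lit 164210) (nat_lit 176) (.e (nat_lit 2798) (nat_lit 180) (.e (nat_lit 303117) (nat_lit 2) .nil))))))) (.g (nat_lit 1) (.e (nat_lit 214957) (nat_lit 0) .nil) .nil))) 
(.lf (nat_lit 516964) (.g (nat_lit 4119) (.e (nat_lit 196666) (nat_lit 13) (.e (nat_lit 65610) (nat_lit 10) (.e (nat_lit 344117) (nat_lit 21) (.e (nat_lit 516151) (nat_lit 9) (.e (nat_lit 426020) (nat_lit 0) (.e (nat_lit 3373) (nat_lit 208) (.e (nat_lit 630528) (nat_lit 13) (.e (nat_lit 2666) (nat_lit 167) .nil)))))))) (.g (nat_lit 1) (.e (nat_lit 215851) (nat_lit 0) .nil) .nil))))) 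
(.nd (nat_lit 8) (.nd (nat_lit 9) 
(.lf (nat_lit 516324) (.g (nat_lit 2966) (.e (nat_lit 196663) (nat_lit 13) (.e (nat_lit 65571) (nat_lit 3) (.e (nat_lit 98333) (nat_lit 18) (.e (nat_lit 164179) (nat_lit 154) (.e (nat_lit 57378) (nat_lit 3) .nil))))) (.g (nat_lit 0) (.e (nat_lit 214791) (nat_lit 0) .nil) .nil))) 
(.lf (nat_lit 516836) (.g (nat_lit 4178) (.e (nat_lit 196666) (nat_lit 13) (.e (nat_lit 65610) (nat_lit 10) (.e (nat_lit 344117) (nat_lit 21) (.e (nat_lit 516151) (nat_lit 9) (.e (nat_lit 426017) (nat_lit 0) (.e (nat_lit 2412) (nat_lit 157) (.e (nat_lit 4824) (nat_lit 281) (.e (nat_lit 2416) (nat_lit 157) (.e (nat_lit 2666) (nat_lit 167) .nil))))))))) (.g (nat_lit 1) (.e (nat_lit 215723) (nat_lit 0) .nil) .nil)))) 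
(.nd (nat_lit 9) 
(.lf (nat_lit 516580) (.g (nat_lit 2636) (.e (nat_lit 196666) (nat_lit 13) (.e (nat_lit 65604) (nat_lit 9) (.e (nat_lit 336028) (nat_lit 3) (.e (nat_lit 98350) (nat_lit 24) (.e (nat_lit 409616) (nat_lit 10) .nil))))) (.g (nat_lit 0) (.e (nat_lit 215277) (nat_lit 0) .nil) .nil))) 
(.lf (nat_lit 517092) (.g (nat_lit 4422) (.e (nat_lit 196666) (nat_lit 13) (.e (nat_lit 65610) (nat_lit 10) (.e (nat_lit 344117) (nat_lit 21) (.e (nat_lit 516151) (nat_lit 9) (.e (nat_lit 426037) (nat_lit 0) (.e (nat_lit 2422) (nat_lit 157) (.e (nat_lit 4849) (nat_lit 285) (.e (nat_lit 163870) (nat_lit 2) .nil)))))))) (.g (nat_lit 1) (.e (nat_lit 215979) (nat_lit 0) .nil) .nil)))))))) 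
(.nd (nat_lit 5) (.nd (nat_lit 6) (.nd (nat_lit 7) (.nd (nat_lit 8) (.nd (nat_lit 9) 
(.lf (nat_lit 516116) (.g (nat_lit 3527) (.e (nat_lit 196654) (nat_lit 11) (.e (nat_lit 16466) (nat_lit 13) (.e (nat_lit 483341) (nat_lit 9) (.e (nat_lit 426107) (nat_lit 1) (.e (nat_lit 164331) (nat_lit 230) (.e (nat_lit 163867) (nat_lit 2) .nil)))))) (.g (nat_lit 1) (.e (nat_lit 214254) (nat_lit 0) .nil) .nil))) 
(.lf (nat_lit 516628) (.g (nat_lit 1619) (.e (nat_lit 196666) (nat_lit 13) (.e (nat_lit 65610) (nat_lit 10) (.e (nat_lit 344117) (nat_lit 21) (.e (nat_lit 516098) (nat_lit 0) .nil)))) (.g (nat_lit 0) (.e (nat_lit 215374) (nat_lit 0) .nil) .nil)))) (.nd (nat_lit 9) 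
(.lf (nat_lit 516372) (.g (nat_lit 2329) (.e (nat_lit 196663) (nat_lit 13) (.e (nat_lit 65630) (nat_lit 14) (.e (nat_lit 401425) (nat_lit 2) (.e (nat_lit 196677) (nat_lit 16) .nil)))) (.g (nat_lit 0) (.e (nat_lit 214854) (nat_lit 0) .nil) .nil))) 
(.lf (nat_lit 516884) (.g (nat_lit 5136) (.e (nat_lit 196666) (nat_lit 13) (.e (nat_lit 65610) (nat_lit 10) (.e (nat_lit 344117) (nat_lit 21) (.e (nat_lit 516151) (nat_lit 9) (.e (nat_lit 426017) (nat_lit 0) (.e (nat_lit 3373) (nat_lit 208) (.e (nat_lit 622626) (nat_lit 13) (.e (nat_lit 2663) (nat_lit 167) .nil)))))))) (.g (nat_lit 1) (.e (nat_lit 215771) (nat_lit 0) .nil) .nil))))) 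
(.nd (nat_lit 8) (.nd (nat_lit 9) 
(.lf (nat_lit 516244) (.g (nat_lit 693) (.e (nat_lit 196656) (nat_lit 11) (.e (nat_lit 16448) (nat_lit 10) (.e (nat_lit 434232) (nat_lit 23) .nil))) (.g (nat_lit 0) (.e (nat_lit 214606) (nat_lit 0) .nil) .nil))) 
(.lf (nat_lit 516756) (.g (nat_lit 2600) (.e (nat_lit 196666) (nat_lit 13) (.e (nat_lit 65610) (nat_lit 10) (.e (nat_lit 344117) (nat_lit 21) (.e (nat_lit 516139) (nat_lit 7) (.e (nat_lit 409615) (nat_lit 10) .nil))))) (.g (nat_lit 0) (.e (nat_lit 215641) (nat_lit 0) .nil) .nil)))) (.nd (nat_lit 9) 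
(.lf (nat_lit 516500) (.g (nat_lit 2433) (.e (nat_lit 196665) (nat_lit 13) (.e (nat_lit 65628) (nat_lit 14) (.e (nat_lit 401425) (nat_lit 2) (.e (nat_lit 196662) (nat_lit 13) .nil)))) (.g (nat_lit 0) (.e (nat_lit 215038) (nat_lit 0) .nil) .nil))) 
(.lf (nat_lit 517012) (.g (nat_lit 3257) (.e (nat_lit 196666) (nat_lit 13) (.e (nat_lit 65610) (nat_lit 10) (.e (nat_lit 344117) (nat_lit 21) (.e (nat_lit 516151) (nat_lit 9) (.e (nat_lit 426022) (nat_lit 0) (.e (nat_lit 2400) (nat_lit 157) (.e (nat_lit 4761) (nat_lit 281) (.e (nat_lit 2461) (nat_lit 157) (.e (nat_lit 2666) (nat_lit 167) .nil))))))))) (.g (nat_lit 1) (.e (nat_lit 215899) (nat_lit 0) .nil) .nil)))))) 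
(.nd (nat_lit 7) (.nd (nat_lit 8) (.nd (nat_lit 9) 
(.lf (nat_lit 516180) (.g (nat_lit 1457) (.e (nat_lit 196656) (nat_lit 11) (.e (nat_lit 16416) (nat_lit 3) (.e (nat_lit 204836) (nat_lit 20) (.e (nat_lit 114718) (nat_lit 23) .nil)))) (.g (nat_lit 0) (.e (nat_lit 214471) (nat_lit 0) .nil) .nil))) 
(.lf (nat_lit 516692) (.g (nat_lit 3260) (.e (nat_lit 196666) (nat_lit 13) (.e (nat_lit 65610) (nat_lit 10) (.e (nat_lit 344117) (nat_lit 21) (.e (nat_lit 516106) (nat_lit 0) (.e (nat_lit 6986) (nat_lit 377) (.e (nat_lit 2507) (nat_lit 157) (.e (nat_lit 5664) (nat_lit 312) (.e (nat_lit 2661) (nat_lit 167) .nil)))))))) (.g (nat_lit 1) (.e (nat_lit 215507) (nat_lit 0) .nil) .nil)))) 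
(.nd (nat_lit 9) 
(.lf (nat_lit 516436) (.g (nat_lit 328) (.e (nat_lit 196664) (nat_lit 13) (.e (nat_lit 65627) (nat_lit 13) (.e (nat_lit 393225) (nat_lit 9) .nil))) (.g (nat_lit 0) (.e (nat_lit 214933) (nat_lit 0) .nil) .nil))) 
(.lf (nat_lit 516948) (.g (nat_lit 4995) (.e (nat_lit 196666) (nat_lit 13) (.e (nat_lit 65610) (nat_lit 10) (.e (nat_lit 344117) (nat_lit 21) (.e (nat_lit 516151) (nat_lit 9) (.e (nat_lit 426020) (nat_lit 0) (.e (nat_lit 3368) (nat_lit 208) (.e (nat_lit 622625) (nat_lit 13) (.e (nat_lit 2663) (nat_lit 167) .nil)))))))) (.g (nat_lit 1) (.e (nat_lit 215835) (nat_lit 0) .nil) .nil))))) 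
(.nd (nat_lit 8) (.nd (nat_lit 9) 
(.lf (nat_lit 516308) (.g (nat_lit 2062) (.e (nat_lit 196662) (nat_lit 13) (.e (nat_lit 65630) (nat_lit 14) (.e (nat_lit 401425) (nat_lit 2) (.e (nat_lit 196670) (nat_lit 14) .nil)))) (.g (nat_lit 0) (.e (nat_lit 214767) (nat_lit 0) .nil) .nil))) 
(.lf (nat_lit 516820) (.g (nat_lit 4551) (.e (nat_lit 196666) (nat_lit 13) (.e (nat_lit 65610) (nat_lit 10) (.e (nat_lit 344117) (nat_lit 21) (.e (nat_lit 516151) (nat_lit 9) (.e (nat_lit 426017) (nat_lit 0) (.e (nat_lit 2430) (nat_lit 157) (.e (nat_lit 4849) (nat_lit 285) (.e (nat_lit 163870) (nat_lit 2) .nil)))))))) (.g (nat_lit 1) (.e (nat_lit 215707) (nat_lit 0) .nil) .nil)))) 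
(.nd (nat_lit 9) 
(.lf (nat_lit 516564) (.g (nat_lit 2680) (.e (nat_lit 196666) (nat_lit 13) (.e (nat_lit 65598) (nat_lit 9) (.e (nat_lit 336028) (nat_lit 3) (.e (nat_lit 98350) (nat_lit 24) (.e (nat_lit 409623) (nat_lit 10) .nil))))) (.g (nat_lit 0) (.e (nat_lit 215244) (nat_lit 0) .nil) .nil))) 
(.lf (nat_lit 517076) (.g (nat_lit 3802) (.e (nat_lit 196666) (nat_lit 13) (.e (nat_lit 65610) (nat_lit 10) (.e (nat_lit 344117) (nat_lit 21) (.e (nat_lit 516151) (nat_lit 9) (.e (nat_lit 426034) (nat_lit 0) (.e (nat_lit 3370) (nat_lit 208) (.e (nat_lit 622623) (nat_lit 13) (.e (nat_lit 2668) (nat_lit 167) .nil)))))))) (.g (nat_lit 1) (.e (nat_lit 215963) (nat_lit 0) .nil) .nil))))))) 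
(.nd (nat_lit 6) (.nd (nat_lit 7) (.nd (nat_lit 8) (.nd (nat_lit 9) 
(.lf (nat_lit 516148) (.g (nat_lit 1972) (.e (nat_lit 196655) (nat_lit 11) (.e (nat_lit 16470) (nat_lit 14) (.e (nat_lit 491540) (nat_lit 3) .nil))) (.g (nat_lit 0) (.e (nat_lit 214394) (nat_lit 0) .nil) .nil))) 
(.lf (nat_lit 516660) (.g (nat_lit 2735) (.e (nat_lit 196666) (nat_lit 13) (.e (nat_lit 65610) (nat_lit 10) (.e (nat_lit 344117) (nat_lit 21) (.e (nat_lit 516103) (nat_lit 0) .nil)))) (.g (nat_lit 0) (.e (nat_lit 215414) (nat_lit 0) .nil) .nil)))) (.nd (nat_lit 9) 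
(.lf (nat_lit 516404) (.g (nat_lit 1875) (.e (nat_lit 196664) (nat_lit 13) (.e (nat_lit 65571) (nat_lit 3) (.e (nat_lit 98334) (nat_lit 18) (.e (nat_lit 164180) (nat_lit 154) .nil)))) (.g (nat_lit 0) (.e (nat_lit 214898) (nat_lit 0) .nil) .nil))) 
(.lf (nat_lit 516916) (.g (nat_lit 4101) (.e (nat_lit 196666) (nat_lit 13) (.e (nat_lit 65610) (nat_lit 10) (.e (nat_lit 344117) (nat_lit 21) (.e (nat_lit 516151) (nat_lit 9) (.e (nat_lit 426019) (nat_lit 0) (.e (nat_lit 3373) (nat_lit 208) (.e (nat_lit 622620) (nat_lit 13) (.e (nat_lit 2663) (nat_lit 167) .nil)))))))) (.g (nat_lit 1) (.e (nat_lit 215803) (nat_lit 0) .nil) .nil))))) 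
(.nd (nat_lit 8) (.nd (nat_lit 9) 
(.lf (nat_lit 516276) (.g (nat_lit 2262) (.e (nat_lit 196656) (nat_lit 11) (.e (nat_lit 16473) (nat_lit 14) (.e (nat_lit 491526) (nat_lit 0) (.e (nat_lit 1774) (nat_lit 118) .nil)))) (.g (nat_lit 0) (.e (nat_lit 214692) (nat_lit 0) .nil) .nil))) 
(.lf (nat_lit 516788) (.g (nat_lit 3727) (.e (nat_lit 196666) (nat_lit 13) (.e (nat_lit 65610) (nat_lit 10) (.e (nat_lit 344117) (nat_lit 21) (.e (nat_lit 516151) (nat_lit 9) (.e (nat_lit 426017) (nat_lit 0) (.e (nat_lit 2398) (nat_lit 157) (.e (nat_lit 4824) (nat_lit 281) (.e (nat_lit 2416) (nat_lit 157) (.e (nat_lit 2666) (nat_lit 167) .nil))))))))) (.g (nat_lit 1) (.e (nat_lit 215675) (nat_lit 0) .nil) .nil)))) 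
(.nd (nat_lit 9) 
(.lf (nat_lit 516532) (.g (nat_lit 417) (.e (nat_lit 196666) (nat_lit 13) (.e (nat_lit 65569) (nat_lit 3) (.e (nat_lit 98342) (nat_lit 20) .nil))) (.g (nat_lit 0) (.e (nat_lit 215143) (nat_lit 0) .nil) .nil))) 
(.lf (nat_lit 517044) (.g (nat_lit 4246) (.e (nat_lit 196666) (nat_lit 13) (.e (nat_lit 65610) (nat_lit 10) (.e (nat_lit 344117) (nat_lit 21) (.e (nat_lit 516151) (nat_lit 9) (.e (nat_lit 426034) (nat_lit 0) (.e (nat_lit 2423) (nat_lit 157) (.e (nat_lit 4848) (nat_lit 285) (.e (nat_lit 163870) (nat_lit 2) .nil)))))))) (.g (nat_lit 1) (.e (nat_lit 215931) (nat_lit 0) .nil) .nil)))))) 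
(.nd (nat_lit 7) (.nd (nat_lit 8) (.nd (nat_lit 9) 
(.lf (nat_lit 516212) (.g (nat_lit 1967) (.e (nat_lit 196656) (nat_lit 11) (.e (nat_lit 16436) (nat_lit 9) (.e (nat_lit 426131) (nat_lit 3) (.e (nat_lit 204882) (nat_lit 32) (.e (nat_lit 385108) (nat_lit 51) (.e (nat_lit 794665) (nat_lit 22) .nil)))))) (.g (nat_lit 1) (.e (nat_lit 214517) (nat_lit 0) .nil) .nil))) 
(.lf (nat_lit 516724) (.g (nat_lit 3154) (.e (nat_lit 196666) (nat_lit 13) (.e (nat_lit 65610) (nat_lit 10) (.e (nat_lit 344117) (nat_lit 21) (.e (nat_lit 516106) (nat_lit 0) (.e (nat_lit 7112) (nat_lit 381) (.e (nat_lit 229690) (nat_lit 246) (.e (nat_lit 2664) (nat_lit 167) .nil))))))) (.g (nat_lit 1) (.e (nat_lit 215539) (nat_lit 0) .nil) .nil)))) (.nd (nat_lit 9) 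
(.lf (nat_lit 516468) (.g (nat_lit 2067) (.e (nat_lit 196665) (nat_lit 13) (.e (nat_lit 65604) (nat_lit 9) (.e (nat_lit 336013) (nat_lit 2) (.e (nat_lit 90165) (nat_lit 12) (.e (nat_lit 164210) (nat_lit 176) .nil))))) (.g (nat_lit 0) (.e (nat_lit 214986) (nat_lit 0) .nil) .nil))) 
(.lf (nat_lit 516980) (.g (nat_lit 4648) (.e (nat_lit 196666) (nat_lit 13) (.e (nat_lit 65610) (nat_lit 10) (.e (nat_lit 344117) (nat_lit 21) (.e (nat_lit 516151) (nat_lit 9) (.e (nat_lit 426021) (nat_lit 0) (.e (nat_lit 3366) (nat_lit 208) (.e (nat_lit 622627) (nat_lit 13) (.e (nat_lit 2666) (nat_lit 167) .nil)))))))) (.g (nat_lit 1) (.e (nat_lit 215867) (nat_lit 0) .nil) .nil))))) 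
(.nd (nat_lit 8) (.nd (nat_lit 9) 
(.lf (nat_lit 516340) (.g (nat_lit 682) (.e (nat_lit 196663) (nat_lit 13) (.e (nat_lit 65571) (nat_lit 3) (.e (nat_lit 98342) (nat_lit 20) .nil))) (.g (nat_lit 0) (.e (nat_lit 214808) (nat_lit 0) .nil) .nil))) 
(.lf (nat_lit 516852) (.g (nat_lit 3249) (.e (nat_lit 196666) (nat_lit 13) (.e (nat_lit 65610) (nat_lit 10) (.e (nat_lit 344117) (nat_lit 21) (.e (nat_lit 516151) (nat_lit 9) (.e (nat_lit 426017) (nat_lit 0) (.e (nat_lit 3366) (nat_lit 208) (.e (nat_lit 622620) (nat_lit 13) (.e (nat_lit 2666) (nat_lit 167) .nil)))))))) (.g (nat_lit 1) (.e (nat_lit 215739) (nat_lit 0) .nil) .nil)))) 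
(.nd (nat_lit 9) 
(.lf (nat_lit 516596) (.g (nat_lit 3371) (.e (nat_lit 196666) (nat_lit 13) (.e (nat_lit 65610) (nat_lit 10) (.e (nat_lit 344117) (nat_lit 21) (.e (nat_lit 516097) (nat_lit 0) (.e (nat_lit 2407) (nat_lit 157) .nil))))) (.g (nat_lit 0) (.e (nat_lit 215309) (nat_lit 0) .nil) .nil))) 
(.lf (nat_lit 517108) (.g (nat_lit 3904) (.e (nat_lit 196666) (nat_lit 13) (.e (nat_lit 65610) (nat_lit 10) (.e (nat_lit 344117) (nat_lit 21) (.e (nat_lit 516151) (nat_lit 9) (.e (nat_lit 426037) (nat_lit 0) (.e (nat_lit 2515) (nat_lit 157) (.e (nat_lit 5948) (nat_lit 322) (.e (nat_lit 65280) (nat_lit 63) .nil)))))))) (.g (nat_lit 1) (.e (nat_lit 215995) (nat_lit 0) .nil) .nil))))))))) 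
(.nd (nat_lit 4) (.nd (nat_lit 5) (.nd (nat_lit 6) (.nd (nat_lit 7) (.nd (nat_lit 8) 
(.nd (nat_lit 9) 
(.lf (nat_lit 516108) (.g (nat_lit 1250) (.e (nat_lit 196654) (nat_lit 11) (.e (nat_lit 16466) (nat_lit 13) (.e (nat_lit 483341) (nat_lit 9) (.e (nat_lit 426009) (nat_lit 0) .nil)))) (.g (nat_lit 0) (.e (nat_lit 214246) (nat_lit 0) .nil) .nil))) 
(.lf (nat_lit 516620) (.g (nat_lit 3498) (.e (nat_lit 196666) (nat_lit 13) (.e (nat_lit 65610) (nat_lit 10) (.e (nat_lit 344117) (nat_lit 21) (.e (nat_lit 516097) (nat_lit 0) (.e (nat_lit 7026) (nat_lit 377) (.e (nat_lit 2505) (nat_lit 157) (.e (nat_lit 5664) (nat_lit 312) (.e (nat_lit 2661) (nat_lit 167) .nil)))))))) (.g (nat_lit 1) (.e (nat_lit 215366) (nat_lit 0) .nil) .nil)))) 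
(.nd (nat_lit 9) 
(.lf (nat_lit 516364) (.g (nat_lit 2256) (.e (nat_lit 196663) (nat_lit 13) (.e (nat_lit 65630) (nat_lit 14) (.e (nat_lit 401425) (nat_lit 2) (.e (nat_lit 196665) (nat_lit 13) .nil)))) (.g (nat_lit 0) (.e (nat_lit 214846) (nat_lit 0) .nil) .nil))) 
(.lf (nat_lit 516876) (.g (nat_lit 3518) (.e (nat_lit 196666) (nat_lit 13) (.e (nat_lit 65610) (nat_lit 10) (.e (nat_lit 344117) (nat_lit 21) (.e (nat_lit 516151) (nat_lit 9) (.e (nat_lit 426017) (nat_lit 0) (.e (nat_lit 3372) (nat_lit 208) (.e (nat_lit 622626) (nat_lit 13) (.e (nat_lit 2666) (nat_lit 167) .nil)))))))) (.g (nat_lit 1) (.e (nat_lit 215763) (nat_lit 0) .nil) .nil))))) 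
(.nd (nat_lit 8) (.nd (nat_lit 9) 
(.lf (nat_lit 516236) (.g (nat_lit 1369) (.e (nat_lit 196656) (nat_lit 11) (.e (nat_lit 16448) (nat_lit 10) (.e (nat_lit 434231) (nat_lit 23) (.e (nat_lit 532529) (nat_lit 9) .nil)))) (.g (nat_lit 0) (.e (nat_lit 214594) (nat_lit 0) .nil) .nil))) 
(.lf (nat_lit 516748) (.g (nat_lit 4257) (.e (nat_lit 196666) (nat_lit 13) (.e (nat_lit 65610) (nat_lit 10) (.e (nat_lit 344117) (nat_lit 21) (.e (nat_lit 516139) (nat_lit 7) (.e (nat_lit 409612) (nat_lit 10) (.e (nat_lit 5710) (nat_lit 312) (.e (nat_lit 2663) (nat_lit 167) .nil))))))) (.g (nat_lit 1) (.e (nat_lit 215633) (nat_lit 0) .nil) .nil)))) (.nd (nat_lit 9) 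
(.lf (nat_lit 516492) (.g (nat_lit 1876) (.e (nat_lit 196665) (nat_lit 13) (.e (nat_lit 65626) (nat_lit 13) (.e (nat_lit 393225) (nat_lit 9) (.e (nat_lit 335988) (nat_lit 1) (.e (nat_lit 57927) (nat_lit 282) .nil))))) (.g (nat_lit 0) (.e (nat_lit 215028) (nat_lit 0) .nil) .nil))) 
(.lf (nat_lit 517004) (.g (nat_lit 4468) (.e (nat_lit 196666) (nat_lit 13) (.e (nat_lit 65610) (nat_lit 10) (.e (nat_lit 344117) (nat_lit 21) (.e (nat_lit 516151) (nat_lit 9) (.e (nat_lit 426021) (nat_lit 0) (.e (nat_lit 3373) (nat_lit 208) (.e (nat_lit 622625) (nat_lit 13) (.e (nat_lit 2663) (nat_lit 167) .nil)))))))) (.g (nat_lit 1) (.e (nat_lit 215891) (nat_lit 0) .nil) .nil)))))) 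
(.nd (nat_lit 7) (.nd (nat_lit 8) (.nd (nat_lit 9) 
(.lf (nat_lit 516172) (.g (nat_lit 2809) (.e (nat_lit 196656) (nat_lit 11) (.e (nat_lit 16416) (nat_lit 3) (.e (nat_lit 204809) (nat_lit 9) (.e (nat_lit 426116) (nat_lit 2) (.e (nat_lit 196654) (nat_lit 11) (.e (nat_lit 16411) (nat_lit 2) .nil)))))) (.g (nat_lit 1) (.e (nat_lit 214460) (nat_lit 0) .nil) .nil))) 
(.lf (nat_lit 516684) (.g (nat_lit 4116) (.e (nat_lit 196666) (nat_lit 13) (.e (nat_lit 65610) (nat_lit 10) (.e (nat_lit 344117) (nat_lit 21) (.e (nat_lit 516106) (nat_lit 0) (.e (nat_lit 6986) (nat_lit 377) (.e (nat_lit 2397) (nat_lit 157) (.e (nat_lit 5735) (nat_lit 312) (.e (nat_lit 2666) (nat_lit 167) .nil)))))))) (.g (nat_lit 1) (.e (nat_lit 215499) (nat_lit 0) .nil) .nil)))) 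
(.nd (nat_lit 9) 
(.lf (nat_lit 516428) (.g (nat_lit 2012) (.e (nat_lit 196664) (nat_lit 13) (.e (nat_lit 65610) (nat_lit 10) (.e (nat_lit 344117) (nat_lit 21) (.e (nat_lit 516106) (nat_lit 0) .nil)))) (.g (nat_lit 0) (.e (nat_lit 214925) (nat_lit 0) .nil) .nil))) 
(.lf (nat_lit 516940) (.g (nat_lit 3822) (.e (nat_lit 196666) (nat_lit 13) (.e (nat_lit 65610) (nat_lit 10) (.e (nat_lit 344117) (nat_lit 21) (.e (nat_lit 516151) (nat_lit 9) (.e (nat_lit 426020) (nat_lit 0) (.e (nat_lit 3367) (nat_lit 208) (.e (nat_lit 622621) (nat_lit 13) (.e (nat_lit 2668) (nat_lit 167) .nil)))))))) (.g (nat_lit 1) (.e (nat_lit 215827) (nat_lit 0) .nil) .nil))))) 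
(.nd (nat_lit 8) (.nd (nat_lit 9) 
(.lf (nat_lit 516300) (.g (nat_lit 2579) (.e (nat_lit 196662) (nat_lit 13) (.e (nat_lit 65598) (nat_lit 9) (.e (nat_lit 336013) (nat_lit 2) (.e (nat_lit 90130) (nat_lit 9) .nil)))) (.g (nat_lit 0) (.e (nat_lit 214758) (nat_lit 0) .nil) .nil))) 
(.lf (nat_lit 516812) (.g (nat_lit 4796) (.e (nat_lit 196666) (nat_lit 13) (.e (nat_lit 65610) (nat_lit 10) (.e (nat_lit 344117) (nat_lit 21) (.e (nat_lit 516151) (nat_lit 9) (.e (nat_lit 426017) (nat_lit 0) (.e (nat_lit 2417) (nat_lit 157) (.e (nat_lit 4849) (nat_lit 285) (.e (nat_lit 163870) (nat_lit 2) .nil)))))))) (.g (nat_lit 1) (.e (nat_lit 215699) (nat_lit 0) .nil) .nil)))) 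
(.nd (nat_lit 9) 
(.lf (nat_lit 516556) (.g (nat_lit 933) (.e (nat_lit 196666) (nat_lit 13) (.e (nat_lit 65589) (nat_lit 9) (.e (nat_lit 336028) (nat_lit 3) (.e (nat_lit 98325) (nat_lit 17) .nil)))) (.g (nat_lit 0) (.e (nat_lit 215217) (nat_lit 0) .nil) .nil))) 
(.lf (nat_lit 517068) (.g (nat_lit 3368) (.e (nat_lit 196666) (nat_lit 13) (.e (nat_lit 65610) (nat_lit 10) (.e (nat_lit 344117) (nat_lit 21) (.e (nat_lit 516151) (nat_lit 9) (.e (nat_lit 426034) (nat_lit 0) (.e (nat_lit 3369) (nat_lit 208) (.e (nat_lit 622623) (nat_lit 13) (.e (nat_lit 2668) (nat_lit 167) .nil)))))))) (.g (nat_lit 1) (.e (nat_lit 215955) (nat_lit 0) .nil) .nil))))))) 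
(.nd (nat_lit 6) (.nd (nat_lit 7) (.nd (nat_lit 8) (.nd (nat_lit 9) 
(.lf (nat_lit 516140) (.g (nat_lit 3574) (.e (nat_lit 196655) (nat_lit 11) (.e (nat_lit 16465) (nat_lit 13) (.e (nat_lit 483341) (nat_lit 9) (.e (nat_lit 426100) (nat_lit 1) (.e (nat_lit 164322) (nat_lit 230) (.e (nat_lit 163867) (nat_lit 2) .nil)))))) (.g (nat_lit 1) (.e (nat_lit 214383) (nat_lit 0) .nil) .nil))) 
(.lf (nat_lit 516652) (.g (nat_lit 1497) (.e (nat_lit 196666) (nat_lit 13) (.e (nat_lit 65610) (nat_lit 10) (.e (nat_lit 344117) (nat_lit 21) (.e (nat_lit 516102) (nat_lit 0) (.e (nat_lit 3332) (nat_lit 205) .nil))))) (.g (nat_lit 0) (.e (nat_lit 215406) (nat_lit 0) .nil) .nil)))) (.nd (nat_lit 9) 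
(.lf (nat_lit 516396) (.g (nat_lit 895) (.e (nat_lit 196664) (nat_lit 13) (.e (nat_lit 65571) (nat_lit 3) (.e (nat_lit 98333) (nat_lit 18) .nil))) (.g (nat_lit 0) (.e (nat_lit 214890) (nat_lit 0) .nil) .nil))) 
(.lf (nat_lit 516908) (.g (nat_lit 4338) (.e (nat_lit 196666) (nat_lit 13) (.e (nat_lit 65610) (nat_lit 10) (.e (nat_lit 344117) (nat_lit 21) (.e (nat_lit 516151) (nat_lit 9) (.e (nat_lit 426019) (nat_lit 0) (.e (nat_lit 3366) (nat_lit 208) (.e (nat_lit 622627) (nat_lit 13) (.e (nat_lit 2666) (nat_lit 167) .nil)))))))) (.g (nat_lit 1) (.e (nat_lit 215795) (nat_lit 0) .nil) .nil))))) 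
(.nd (nat_lit 8) (.nd (nat_lit 9) 
(.lf (nat_lit 516268) (.g (nat_lit 778) (.e (nat_lit 196656) (nat_lit 11) (.e (nat_lit 16469) (nat_lit 14) (.e (nat_lit 491540) (nat_lit 3) .nil))) (.g (nat_lit 0) (.e (nat_lit 214681) (nat_lit 0) .nil) .nil))) 
(.lf (nat_lit 516780) (.g (nat_lit 3499) (.e (nat_lit 196666) (nat_lit 13) (.e (nat_lit 65610) (nat_lit 10) (.e (nat_lit 344117) (nat_lit 21) (.e (nat_lit 516145) (nat_lit 9) (.e (nat_lit 426085) (nat_lit 0) (.e (nat_lit 3366) (nat_lit 208) (.e (nat_lit 622627) (nat_lit 13) (.e (nat_lit 2666) (nat_lit 167) .nil)))))))) (.g (nat_lit 1) (.e (nat_lit 215665) (nat_lit 0) .nil) .nil)))) 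
(.nd (nat_lit 9) 
(.lf (nat_lit 516524) (.g (nat_lit 4943) (.e (nat_lit 196666) (nat_lit 13) (.e (nat_lit 65569) (nat_lit 3) (.e (nat_lit 98334) (nat_lit 18) (.e (nat_lit 164183) (nat_lit 154) (.e (nat_lit 57378) (nat_lit 3) (.e (nat_lit 98338) (nat_lit 19) (.e (nat_lit 213013) (nat_lit 9) (.e (nat_lit 2666) (nat_lit 167) .nil)))))))) (.g (nat_lit 1) (.e (nat_lit 215124) (nat_lit 0) .nil) .nil))) 
(.lf (nat_lit 517036) (.g (nat_lit 3641) (.e (nat_lit 196666) (nat_lit 13) (.e (nat_lit 65610) (nat_lit 10) (.e (nat_lit 344117) (nat_lit 21) (.e (nat_lit 516151) (nat_lit 9) (.e (nat_lit 426036) (nat_lit 0) (.e (nat_lit 3366) (nat_lit 208) (.e (nat_lit 622627) (nat_lit 13) (.e (nat_lit 2663) (nat_lit 167) .nil)))))))) (.g (nat_lit 1) (.e (nat_lit 215923) (nat_lit 0) .nil) .nil)))))) 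
(.nd (nat_lit 7) (.nd (nat_lit 8) (.nd (nat_lit 9) 
(.lf (nat_lit 516204) (.g (nat_lit 926) (.e (nat_lit 196656) (nat_lit 11) (.e (nat_lit 16436) (nat_lit 9) (.e (nat_lit 426131) (nat_lit 3) (.e (nat_lit 204880) (nat_lit 32) .nil)))) (.g (nat_lit 0) (.e (nat_lit 214505) (nat_lit 0) .nil) .nil))) 
(.lf (nat_lit 516716) (.g (nat_lit 2356) (.e (nat_lit 196666) (nat_lit 13) (.e (nat_lit 65610) (nat_lit 10) (.e (nat_lit 344117) (nat_lit 21) (.e (nat_lit 516106) (nat_lit 0) (.e (nat_lit 7095) (nat_lit 380) (.e (nat_lit 164360) (nat_lit 246) (.e (nat_lit 2654) (nat_lit 167) .nil))))))) (.g (nat_lit 1) (.e (nat_lit 215531) (nat_lit 0) .nil) .nil)))) (.nd (nat_lit 9) 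
(.lf (nat_lit 516460) (.g (nat_lit 2958) (.e (nat_lit 196665) (nat_lit 13) (.e (nat_lit 65598) (nat_lit 9) (.e (nat_lit 336013) (nat_lit 2) (.e (nat_lit 90165) (nat_lit 12) (.e (nat_lit 164207) (nat_lit 176) .nil))))) (.g (nat_lit 0) (.e (nat_lit 214975) (nat_lit 0) .nil) .nil))) 
(.lf (nat_lit 516972) (.g (nat_lit 4744) (.e (nat_lit 196666) (nat_lit 13) (.e (nat_lit 65610) (nat_lit 10) (.e (nat_lit 344117) (nat_lit 21) (.e (nat_lit 516151) (nat_lit 9) (.e (nat_lit 426021) (nat_lit 0) (.e (nat_lit 3366) (nat_lit 208) (.e (nat_lit 622620) (nat_lit 13) (.e (nat_lit 2663) (nat_lit 167) .nil)))))))) (.g (nat_lit 1) (.e (nat_lit 215859) (nat_lit 0) .nil) .nil))))) 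
(.nd (nat_lit 8) (.nd (nat_lit 9) 
(.lf (nat_lit 516332) (.g (nat_lit 2590) (.e (nat_lit 196663) (nat_lit 13) (.e (nat_lit 65571) (nat_lit 3) (.e (nat_lit 98334) (nat_lit 18) (.e (nat_lit 164182) (nat_lit 154) (.e (nat_lit 57378) (nat_lit 3) .nil))))) (.g (nat_lit 0) (.e (nat_lit 214799) (nat_lit 0) .nil) .nil))) 
(.lf (nat_lit 516844) (.g (nat_lit 3937) (.e (nat_lit 196666) (nat_lit 13) (.e (nat_lit 65610) (nat_lit 10) (.e (nat_lit 344117) (nat_lit 21) (.e (nat_lit 516151) (nat_lit 9) (.e (nat_lit 426017) (nat_lit 0) (.e (nat_lit 2413) (nat_lit 157) (.e (nat_lit 4827) (nat_lit 281) (.e (nat_lit 2477) (nat_lit 157) (.e (nat_lit 2663) (nat_lit 167) .nil))))))))) (.g (nat_lit 1) (.e (nat_lit 215731) (nat_lit 0) .nil) .nil)))) 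
(.nd (nat_lit 9) 
(.lf (nat_lit 516588) (.g (nat_lit 4177) (.e (nat_lit 196666) (nat_lit 13) (.e (nat_lit 65610) (nat_lit 10) (.e (nat_lit 344116) (nat_lit 21) (.e (nat_lit 516139) (nat_lit 7) (.e (nat_lit 409616) (nat_lit 10) (.e (nat_lit 7936) (nat_lit 312) (.e (nat_lit 2666) (nat_lit 167) .nil))))))) (.g (nat_lit 1) (.e (nat_lit 215300) (nat_lit 0) .nil) .nil))) 
(.lf (nat_lit 517100) (.g (nat_lit 4095) (.e (nat_lit 196666) (nat_lit 13) (.e (nat_lit 65610) (nat_lit 10) (.e (nat_lit 344117) (nat_lit 21) (.e (nat_lit 516151) (nat_lit 9) (.e (nat_lit 426037) (nat_lit 0) (.e (nat_lit 2423) (nat_lit 157) (.e (nat_lit 7936) (nat_lit 285) (.e (nat_lit 163870) (nat_lit 2) .nil)))))))) (.g (nat_lit 1) (.e (nat_lit 215987) (nat_lit 0) .nil) .nil)))))))) 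
(.nd (nat_lit 5) (.nd (nat_lit 6) (.nd (nat_lit 7) (.nd (nat_lit 8) (.nd (nat_lit 9) 
(.lf (nat_lit 516124) (.g (nat_lit 589) (.e (nat_lit 196655) (nat_lit 11) (.e (nat_lit 16435) (nat_lit 9) (.e (nat_lit 426131) (nat_lit 3) .nil))) (.g (nat_lit 0) (.e (nat_lit 214318) (nat_lit 0) .nil) .nil))) 
(.lf (nat_lit 516636) (.g (nat_lit 2252) (.e (nat_lit 196666) (nat_lit 13) (.e (nat_lit 65610) (nat_lit 10) (.e (nat_lit 344117) (nat_lit 21) (.e (nat_lit 516098) (nat_lit 0) (.e (nat_lit 3333) (nat_lit 205) .nil))))) (.g (nat_lit 0) (.e (nat_lit 215386) (nat_lit 0) .nil) .nil)))) (.nd (nat_lit 9) 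
(.lf (nat_lit 516380) (.g (nat_lit 1564) (.e (nat_lit 196663) (nat_lit 13) (.e (nat_lit 65630) (nat_lit 14) (.e (nat_lit 401427) (nat_lit 3) (.e (nat_lit 212736) (nat_lit 5) .nil)))) (.g (nat_lit 0) (.e (nat_lit 214862) (nat_lit 0) .nil) .nil))) 
(.lf (nat_lit 516892) (.g (nat_lit 4386) (.e (nat_lit 196666) (nat_lit 13) (.e (nat_lit 65610) (nat_lit 10) (.e (nat_lit 344117) (nat_lit 21) (.e (nat_lit 516151) (nat_lit 9) (.e (nat_lit 426017) (nat_lit 0) (.e (nat_lit 7936) (nat_lit 208) (.e (nat_lit 622627) (nat_lit 13) (.e (nat_lit 2665) (nat_lit 167) .nil)))))))) (.g (nat_lit 1) (.e (nat_lit 215779) (nat_lit 0) .nil) .nil))))) 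
(.nd (nat_lit 8) (.nd (nat_lit 9) 
(.lf (nat_lit 516252) (.g (nat_lit 2128) (.e (nat_lit 196656) (nat_lit 11) (.e (nat_lit 16463) (nat_lit 13) (.e (nat_lit 483340) (nat_lit 9) (.e (nat_lit 426098) (nat_lit 1) (.e (nat_lit 164325) (nat_lit 230) .nil))))) (.g (nat_lit 0) (.e (nat_lit 214663) (nat_lit 0) .nil) .nil))) 
(.lf (nat_lit 516764) (.g (nat_lit 2808) (.e (nat_lit 196666) (nat_lit 13) (.e (nat_lit 65610) (nat_lit 10) (.e (nat_lit 344117) (nat_lit 21) (.e (nat_lit 516139) (nat_lit 7) (.e (nat_lit 409618) (nat_lit 10) (.e (nat_lit 5669) (nat_lit 312) (.e (nat_lit 2654) (nat_lit 167) .nil))))))) (.g (nat_lit 1) (.e (nat_lit 215649) (nat_lit 0) .nil) .nil)))) (.nd (nat_lit 9) 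
(.lf (nat_lit 516508) (.g (nat_lit 1224) (.e (nat_lit 196665) (nat_lit 13) (.e (nat_lit 65628) (nat_lit 14) (.e (nat_lit 401428) (nat_lit 3) (.e (nat_lit 204863) (nat_lit 27) .nil)))) (.g (nat_lit 0) (.e (nat_lit 215047) (nat_lit 0) .nil) .nil))) 
(.lf (nat_lit 517020) (.g (nat_lit 2918) (.e (nat_lit 196666) (nat_lit 13) (.e (nat_lit 65610) (nat_lit 10) (.e (nat_lit 344117) (nat_lit 21) (.e (nat_lit 516151) (nat_lit 9) (.e (nat_lit 426022) (nat_lit 0) (.e (nat_lit 3363) (nat_lit 208) (.e (nat_lit 622626) (nat_lit 13) (.e (nat_lit 2666) (nat_lit 167) .nil)))))))) (.g (nat_lit 1) (.e (nat_lit 215907) (nat_lit 0) .nil) .nil)))))) 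
(.nd (nat_lit 7) (.nd (nat_lit 8) (.nd (nat_lit 9) 
(.lf (nat_lit 516188) (.g (nat_lit 2389) (.e (nat_lit 196656) (nat_lit 11) (.e (nat_lit 16431) (nat_lit 9) (.e (nat_lit 426568) (nat_lit 34) (.e (nat_lit 393252) (nat_lit 18) (.e (nat_lit 164329) (nat_lit 230) .nil))))) (.g (nat_lit 0) (.e (nat_lit 214485) (nat_lit 0) .nil) .nil))) 
(.lf (nat_lit 516700) (.g (nat_lit 2813) (.e (nat_lit 196666) (nat_lit 13) (.e (nat_lit 65610) (nat_lit 10) (.e (nat_lit 344117) (nat_lit 21) (.e (nat_lit 516106) (nat_lit 0) (.e (nat_lit 7008) (nat_lit 377) (.e (nat_lit 2427) (nat_lit 157) (.e (nat_lit 5710) (nat_lit 312) (.e (nat_lit 2664) (nat_lit 167) .nil)))))))) (.g (nat_lit 1) (.e (nat_lit 215515) (nat_lit 0) .nil) .nil)))) 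
(.nd (nat_lit 9) 
(.lf (nat_lit 516444) (.g (nat_lit 466) (.e (nat_lit 196665) (nat_lit 13) (.e (nat_lit 65569) (nat_lit 3) (.e (nat_lit 98342) (nat_lit 20) .nil))) (.g (nat_lit 0) (.e (nat_lit 214946) (nat_lit 0) .nil) .nil))) 
(.lf (nat_lit 516956) (.g (nat_lit 5019) (.e (nat_lit 196666) (nat_lit 13) (.e (nat_lit 65610) (nat_lit 10) (.e (nat_lit 344117) (nat_lit 21) (.e (nat_lit 516151) (nat_lit 9) (.e (nat_lit 426020) (nat_lit 0) (.e (nat_lit 3372) (nat_lit 208) (.e (nat_lit 622626) (nat_lit 13) (.e (nat_lit 2663) (nat_lit 167) .nil)))))))) (.g (nat_lit 1) (.e (nat_lit 215843) (nat_lit 0) .nil) .nil))))) 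
(.nd (nat_lit 8) (.nd (nat_lit 9) 
(.lf (nat_lit 516316) (.g (nat_lit 1465) (.e (nat_lit 196663) (nat_lit 13) (.e (nat_lit 65569) (nat_lit 3) (.e (nat_lit 98342) (nat_lit 20) (.e (nat_lit 221214) (nat_lit 23) .nil)))) (.g (nat_lit 0) (.e (nat_lit 214777) (nat_lit 0) .nil) .nil))) 
(.lf (nat_lit 516828) (.g (nat_lit 3216) (.e (nat_lit 196666) (nat_lit 13) (.e (nat_lit 65610) (nat_lit 10) (.e (nat_lit 344117) (nat_lit 21) (.e (nat_lit 516151) (nat_lit 9) (.e (nat_lit 426017) (nat_lit 0) (.e (nat_lit 2411) (nat_lit 157) (.e (nat_lit 4761) (nat_lit 281) (.e (nat_lit 2433) (nat_lit 157) (.e (nat_lit 2668) (nat_lit 167) .nil))))))))) (.g (nat_lit 1) (.e (nat_lit 215715) (nat_lit 0) .nil) .nil)))) 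
(.nd (nat_lit 9) 
(.lf (nat_lit 516572) (.g (nat_lit 2137) (.e (nat_lit 196666) (nat_lit 13) (.e (nat_lit 65599) (nat_lit 9) (.e (nat_lit 336028) (nat_lit 3) (.e (nat_lit 98350) (nat_lit 24) (.e (nat_lit 409617) (nat_lit 10) .nil))))) (.g (nat_lit 0) (.e (nat_lit 215260) (nat_lit 0) .nil) .nil))) 
(.lf (nat_lit 517084) (.g (nat_lit 3987) (.e (nat_lit 196666) (nat_lit 13) (.e (nat_lit 65610) (nat_lit 10) (.e (nat_lit 344117) (nat_lit 21) (.e (nat_lit 516151) (nat_lit 9) (.e (nat_lit 426034) (nat_lit 0) (.e (nat_lit 3371) (nat_lit 208) (.e (nat_lit 622626) (nat_lit 13) (.e (nat_lit 2663) (nat_lit 167) .nil)))))))) (.g (nat_lit 1) (.e (nat_lit 215971) (nat_lit 0) .nil) .nil))))))) 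
(.nd (nat_lit 6) (.nd (nat_lit 7) (.nd (nat_lit 8) (.nd (nat_lit 9) 
(.lf (nat_lit 516156) (.g (nat_lit 452) (.e (nat_lit 196656) (nat_lit 11) (.e (nat_lit 16392) (nat_lit 0) (.e (nat_lit 3397) (nat_lit 211) .nil))) (.g (nat_lit 0) (.e (nat_lit 214419) (nat_lit 0) .nil) .nil))) 
(.lf (nat_lit 516668) (.g (nat_lit 2584) (.e (nat_lit 196666) (nat_lit 13) (.e (nat_lit 65610) (nat_lit 10) (.e (nat_lit 344117) (nat_lit 21) (.e (nat_lit 516106) (nat_lit 0) (.e (nat_lit 2446) (nat_lit 157) .nil))))) (.g (nat_lit 0) (.e (nat_lit 215438) (nat_lit 0) .nil) .nil)))) (.nd (nat_lit 9) 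
(.lf (nat_lit 516412) (.g (nat_lit 1023) (.e (nat_lit 196664) (nat_lit 13) (.e (nat_lit 65571) (nat_lit 3) (.e (nat_lit 98338) (nat_lit 19) .nil))) (.g (nat_lit 0) (.e (nat_lit 214906) (nat_lit 0) .nil) .nil))) 
(.lf (nat_lit 516924) (.g (nat_lit 5005) (.e (nat_lit 196666) (nat_lit 13) (.e (nat_lit 65610) (nat_lit 10) (.e (nat_lit 344117) (nat_lit 21) (.e (nat_lit 516151) (nat_lit 9) (.e (nat_lit 426019) (nat_lit 0) (.e (nat_lit 7936) (nat_lit 208) (.e (nat_lit 622627) (nat_lit 13) (.e (nat_lit 2663) (nat_lit 167) .nil)))))))) (.g (nat_lit 1) (.e (nat_lit 215811) (nat_lit 0) .nil) .nil))))) 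
(.nd (nat_lit 8) (.nd (nat_lit 9) 
(.lf (nat_lit 516284) (.g (nat_lit 570) (.e (nat_lit 204544) (nat_lit 11) (.e (nat_lit 16415) (nat_lit 3) (.e (nat_lit 204813) (nat_lit 9) .nil))) (.g (nat_lit 0) (.e (nat_lit 214707) (nat_lit 0) .nil) .nil))) 
(.lf (nat_lit 516796) (.g (nat_lit 4013) (.e (nat_lit 196666) (nat_lit 13) (.e (nat_lit 65610) (nat_lit 10) (.e (nat_lit 344117) (nat_lit 21) (.e (nat_lit 516151) (nat_lit 9) (.e (nat_lit 426017) (nat_lit 0) (.e (nat_lit 2401) (nat_lit 157) (.e (nat_lit 4824) (nat_lit 281) (.e (nat_lit 2416) (nat_lit 157) (.e (nat_lit 2666) (nat_lit 167) .nil))))))))) (.g (nat_lit 1) (.e (nat_lit 215683) (nat_lit 0) .nil) .nil)))) 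
(.nd (nat_lit 9) 
(.lf (nat_lit 516540) (.g (nat_lit 5234) (.e (nat_lit 196666) (nat_lit 13) (.e (nat_lit 65571) (nat_lit 3) (.e (nat_lit 98333) (nat_lit 18) (.e (nat_lit 164182) (nat_lit 154) (.e (nat_lit 57379) (nat_lit 3) (.e (nat_lit 98338) (nat_lit 19) (.e (nat_lit 213013) (nat_lit 9) (.e (nat_lit 2666) (nat_lit 167) .nil)))))))) (.g (nat_lit 1) (.e (nat_lit 215167) (nat_lit 0) .nil) .nil))) 
(.lf (nat_lit 517052) (.g (nat_lit 4059) (.e (nat_lit 196666) (nat_lit 13) (.e (nat_lit 65610) (nat_lit 10) (.e (nat_lit 344117) (nat_lit 21) (.e (nat_lit 516151) (nat_lit 9) (.e (nat_lit 426034) (nat_lit 0) (.e (nat_lit 2425) (nat_lit 157) (.e (nat_lit 4849) (nat_lit 285) (.e (nat_lit 163869) (nat_lit 2) .nil)))))))) (.g (nat_lit 1) (.e (nat_lit 215939) (nat_lit 0) .nil) .nil)))))) 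
(.nd (nat_lit 7) (.nd (nat_lit 8) (.nd (nat_lit 9) 
(.lf (nat_lit 516220) (.g (nat_lit 1627) (.e (nat_lit 196656) (nat_lit 11) (.e (nat_lit 16438) (nat_lit 9) (.e (nat_lit 426482) (nat_lit 27) (.e (nat_lit 336386) (nat_lit 27) .nil)))) (.g (nat_lit 0) (.e (nat_lit 214526) (nat_lit 0) .nil) .nil))) 
(.lf (nat_lit 516732) (.g (nat_lit 1202) (.e (nat_lit 196666) (nat_lit 13) (.e (nat_lit 65610) (nat_lit 10) (.e (nat_lit 344117) (nat_lit 21) (.e (nat_lit 516115) (nat_lit 1) .nil)))) (.g (nat_lit 0) (.e (nat_lit 215547) (nat_lit 0) .nil) .nil)))) (.nd (nat_lit 9) 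
(.lf (nat_lit 516476) (.g (nat_lit 1399) (.e (nat_lit 196665) (nat_lit 13) (.e (nat_lit 65619) (nat_lit 10) (.e (nat_lit 344117) (nat_lit 21) (.e (nat_lit 516106) (nat_lit 0) .nil)))) (.g (nat_lit 0) (.e (nat_lit 214998) (nat_lit 0) .nil) .nil))) 
(.lf (nat_lit 516988) (.g (nat_lit 4961) (.e (nat_lit 196666) (nat_lit 13) (.e (nat_lit 65610) (nat_lit 10) (.e (nat_lit 344117) (nat_lit 21) (.e (nat_lit 516151) (nat_lit 9) (.e (nat_lit 426021) (nat_lit 0) (.e (nat_lit 3368) (nat_lit 208) (.e (nat_lit 622620) (nat_lit 13) (.e (nat_lit 2663) (nat_lit 167) .nil)))))))) (.g (nat_lit 1) (.e (nat_lit 215875) (nat_lit 0) .nil) .nil))))) 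
(.nd (nat_lit 8) (.nd (nat_lit 9) 
(.lf (nat_lit 516348) (.g (nat_lit 4267) (.e (nat_lit 196663) (nat_lit 13) (.e (nat_lit 65571) (nat_lit 3) (.e (nat_lit 98342) (nat_lit 20) (.e (nat_lit 221215) (nat_lit 23) (.e (nat_lit 204830) (nat_lit 18) (.e (nat_lit 57927) (nat_lit 282) (.e (nat_lit 163868) (nat_lit 2) .nil))))))) (.g (nat_lit 1) (.e (nat_lit 214823) (nat_lit 0) .nil) .nil))) 
(.lf (nat_lit 516860) (.g (nat_lit 5180) (.e (nat_lit 196666) (nat_lit 13) (.e (nat_lit 65610) (nat_lit 10) (.e (nat_lit 344117) (nat_lit 21) (.e (nat_lit 516151) (nat_lit 9) (.e (nat_lit 426017) (nat_lit 0) (.e (nat_lit 3367) (nat_lit 208) (.e (nat_lit 622620) (nat_lit 13) (.e (nat_lit 2663) (nat_lit 167) .nil)))))))) (.g (nat_lit 1) (.e (nat_lit 215747) (nat_lit 0) .nil) .nil)))) 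
(.nd (nat_lit 9) 
(.lf (nat_lit 516604) (.g (nat_lit 3371) (.e (nat_lit 196666) (nat_lit 13) (.e (nat_lit 65610) (nat_lit 10) (.e (nat_lit 344117) (nat_lit 21) (.e (nat_lit 516097) (nat_lit 0) (.e (nat_lit 2415) (nat_lit 157) .nil))))) (.g (nat_lit 0) (.e (nat_lit 215340) (nat_lit 0) .nil) .nil))) 
(.lf (nat_lit 517116) (.g (nat_lit 4306) (.e (nat_lit 196666) (nat_lit 13) (.e (nat_lit 65610) (nat_lit 10) (.e (nat_lit 344117) (nat_lit 21) (.e (nat_lit 516151) (nat_lit 9) (.e (nat_lit 426037) (nat_lit 0) (.e (nat_lit 3366) (nat_lit 208) (.e (nat_lit 622627) (nat_lit 13) (.e (nat_lit 2665) (nat_lit 167) .nil)))))))) (.g (nat_lit 1) (.e (nat_lit 216003) (nat_lit 0) .nil) .nil))))))))))) 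
(.nd (nat_lit 2) (.nd (nat_lit 3) (.nd (nat_lit 4) (.nd (nat_lit 5) (.nd (nat_lit 6) 
(.nd (nat_lit 7) (.nd (nat_lit 8) (.nd (nat_lit 9) 
(.lf (nat_lit 516098) (.g (nat_lit 2899) (.e (nat_lit 196654) (nat_lit 11) (.e (nat_lit 16463) (nat_lit 13) (.e (nat_lit 483341) (nat_lit 9) (.e (nat_lit 426107) (nat_lit 1) (.e (nat_lit 164332) (nat_lit 230) .nil))))) (.g (nat_lit 0) (.e (nat_lit 214221) (nat_lit 0) .nil) .nil))) 
(.lf (nat_lit 516610) (.g (nat_lit 3274) (.e (nat_lit 196666) (nat_lit 13) (.e (nat_lit 65610) (nat_lit 10) (.e (nat_lit 344117) (nat_lit 21) (.e (nat_lit 516097) (nat_lit 0) (.e (nat_lit 3341) (nat_lit 205) .nil))))) (.g (nat_lit 0) (.e (nat_lit 215349) (nat_lit 0) .nil) .nil)))) (.nd (nat_lit 9) 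
(.lf (nat_lit 516354) (.g (nat_lit 1787) (.e (nat_lit 196663) (nat_lit 13) (.e (nat_lit 65619) (nat_lit 10) (.e (nat_lit 344117) (nat_lit 21) (.e (nat_lit 516138) (nat_lit 7) .nil)))) (.g (nat_lit 0) (.e (nat_lit 214831) (nat_lit 0) .nil) .nil))) 
(.lf (nat_lit 516866) (.g (nat_lit 3573) (.e (nat_lit 196666) (nat_lit 13) (.e (nat_lit 65610) (nat_lit 10) (.e (nat_lit 344117) (nat_lit 21) (.e (nat_lit 516151) (nat_lit 9) (.e (nat_lit 426017) (nat_lit 0) (.e (nat_lit 3367) (nat_lit 208) (.e (nat_lit 622627) (nat_lit 13) (.e (nat_lit 2666) (nat_lit 167) .nil)))))))) (.g (nat_lit 1) (.e (nat_lit 215753) (nat_lit 0) .nil) .nil))))) 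
(.nd (nat_lit 8) (.nd (nat_lit 9) 
(.lf (nat_lit 516226) (.g (nat_lit 2913) (.e (nat_lit 196656) (nat_lit 11) (.e (nat_lit 16438) (nat_lit 9) (.e (nat_lit 426482) (nat_lit 27) (.e (nat_lit 336389) (nat_lit 27) (.e (nat_lit 426108) (nat_lit 1) .nil))))) (.g (nat_lit 0) (.e (nat_lit 214532) (nat_lit 0) .nil) .nil))) 
(.lf (nat_lit 516738) (.g (nat_lit 2740) (.e (nat_lit 196666) (nat_lit 13) (.e (nat_lit 65610) (nat_lit 10) (.e (nat_lit 344117) (nat_lit 21) (.e (nat_lit 516119) (nat_lit 1) .nil)))) (.g (nat_lit 0) (.e (nat_lit 215618) (nat_lit 0) .nil) .nil)))) (.nd (nat_lit 9) 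
(.lf (nat_lit 516482) (.g (nat_lit 1161) (.e (nat_lit 196665) (nat_lit 13) (.e (nat_lit 65623) (nat_lit 12) (.e (nat_lit 385068) (nat_lit 26) (.e (nat_lit 532513) (nat_lit 3) .nil)))) (.g (nat_lit 0) (.e (nat_lit 215011) (nat_lit 0) .nil) .nil))) 
(.lf (nat_lit 516994) (.g (nat_lit 3373) (.e (nat_lit 196666) (nat_lit 13) (.e (nat_lit 65610) (nat_lit 10) (.e (nat_lit 344117) (nat_lit 21) (.e (nat_lit 516151) (nat_lit 9) (.e (nat_lit 426021) (nat_lit 0) (.e (nat_lit 3372) (nat_lit 208) (.e (nat_lit 622620) (nat_lit 13) (.e (nat_lit 2666) (nat_lit 167) .nil)))))))) (.g (nat_lit 1) (.e (nat_lit 215881) (nat_lit 0) .nil) .nil)))))) 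
(.nd (nat_lit 7) (.nd (nat_lit 8) (.nd (nat_lit 9) 
(.lf (nat_lit 516162) (.g (nat_lit 3114) (.e (nat_lit 196656) (nat_lit 11) (.e (nat_lit 16410) (nat_lit 2) (.e (nat_lit 196654) (nat_lit 11) (.e (nat_lit 16416) (nat_lit 3) (.e (nat_lit 204809) (nat_lit 9) (.e (nat_lit 426124) (nat_lit 2) .nil)))))) (.g (nat_lit 1) (.e (nat_lit 214433) (nat_lit 0) .nil) .nil))) 
(.lf (nat_lit 516674) (.g (nat_lit 2450) (.e (nat_lit 196666) (nat_lit 13) (.e (nat_lit 65610) (nat_lit 10) (.e (nat_lit 344117) (nat_lit 21) (.e (nat_lit 516106) (nat_lit 0) (.e (nat_lit 3335) (nat_lit 205) .nil))))) (.g (nat_lit 0) (.e (nat_lit 215449) (nat_lit 0) .nil) .nil)))) (.nd (nat_lit 9) 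
(.lf (nat_lit 516418) (.g (nat_lit 710) (.e (nat_lit 196664) (nat_lit 13) (.e (nat_lit 65571) (nat_lit 3) (.e (nat_lit 98342) (nat_lit 20) .nil))) (.g (nat_lit 0) (.e (nat_lit 214912) (nat_lit 0) .nil) .nil))) 
(.lf (nat_lit 516930) (.g (nat_lit 4751) (.e (nat_lit 196666) (nat_lit 13) (.e (nat_lit 65610) (nat_lit 10) (.e (nat_lit 344117) (nat_lit 21) (.e (nat_lit 516151) (nat_lit 9) (.e (nat_lit 426020) (nat_lit 0) (.e (nat_lit 3366) (nat_lit 208) (.e (nat_lit 622620) (nat_lit 13) (.e (nat_lit 2663) (nat_lit 167) .nil)))))))) (.g (nat_lit 1) (.e (nat_lit 215817) (nat_lit 0) .nil) .nil))))) 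
(.nd (nat_lit 8) (.nd (nat_lit 9) 
(.lf (nat_lit 516290) (.g (nat_lit 2154) (.e (nat_lit 196661) (nat_lit 12) (.e (nat_lit 57712) (nat_lit 176) (.e (nat_lit 1370) (nat_lit 103) (.e (nat_lit 302848) (nat_lit 2) .nil)))) (.g (nat_lit 0) (.e (nat_lit 214731) (nat_lit 0) .nil) .nil))) 
(.lf (nat_lit 516802) (.g (nat_lit 3284) (.e (nat_lit 196666) (nat_lit 13) (.e (nat_lit 65610) (nat_lit 10) (.e (nat_lit 344117) (nat_lit 21) (.e (nat_lit 516151) (nat_lit 9) (.e (nat_lit 426017) (nat_lit 0) (.e (nat_lit 2401) (nat_lit 157) (.e (nat_lit 4830) (nat_lit 281) (.e (nat_lit 2416) (nat_lit 157) (.e (nat_lit 2666) (nat_lit 167) .nil))))))))) (.g (nat_lit 1) (.e (nat_lit 215689) (nat_lit 0) .nil) .nil)))) 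
(.nd (nat_lit 9) 
(.lf (nat_lit 516546) (.g (nat_lit 2673) (.e (nat_lit 196666) (nat_lit 13) (.e (nat_lit 65571) (nat_lit 3) (.e (nat_lit 98341) (nat_lit 20) (.e (nat_lit 221215) (nat_lit 23) (.e (nat_lit 204828) (nat_lit 18) (.e (nat_lit 57931) (nat_lit 282) (.e (nat_lit 163869) (nat_lit 2) .nil))))))) (.g (nat_lit 1) (.e (nat_lit 215200) (nat_lit 0) .nil) .nil))) 
(.lf (nat_lit 517058) (.g (nat_lit 5232) (.e (nat_lit 196666) (nat_lit 13) (.e (nat_lit 65610) (nat_lit 10) (.e (nat_lit 344117) (nat_lit 21) (.e (nat_lit 516151) (nat_lit 9) (.e (nat_lit 426034) (nat_lit 0) (.e (nat_lit 3366) (nat_lit 208) (.e (nat_lit 622620) (nat_lit 13) (.e (nat_lit 2663) (nat_lit 167) .nil)))))))) (.g (nat_lit 1) (.e (nat_lit 215945) (nat_lit 0) .nil) .nil))))))) 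
(.nd (nat_lit 6) (.nd (nat_lit 7) (.nd (nat_lit 8) (.nd (nat_lit 9) 
(.lf (nat_lit 516130) (.g (nat_lit 1204) (.e (nat_lit 196655) (nat_lit 11) (.e (nat_lit 16435) (nat_lit 9) (.e (nat_lit 426514) (nat_lit 27) (.e (nat_lit 336387) (nat_lit 27) .nil)))) (.g (nat_lit 0) (.e (nat_lit 214326) (nat_lit 0) .nil) .nil))) 
(.lf (nat_lit 516642) (.g (nat_lit 3234) (.e (nat_lit 196666) (nat_lit 13) (.e (nat_lit 65610) (nat_lit 10) (.e (nat_lit 344117) (nat_lit 21) (.e (nat_lit 516098) (nat_lit 0) (.e (nat_lit 7118) (nat_lit 381) (.e (nat_lit 229686) (nat_lit 246) (.e (nat_lit 2661) (nat_lit 167) .nil))))))) (.g (nat_lit 1) (.e (nat_lit 215392) (nat_lit 0) .nil) .nil)))) (.nd (nat_lit 9) 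
(.lf (nat_lit 516386) (.g (nat_lit 1475) (.e (nat_lit 196663) (nat_lit 13) (.e (nat_lit 65630) (nat_lit 14) (.e (nat_lit 401428) (nat_lit 3) (.e (nat_lit 212736) (nat_lit 5) .nil)))) (.g (nat_lit 0) (.e (nat_lit 214869) (nat_lit 0) .nil) .nil))) 
(.lf (nat_lit 516898) (.g (nat_lit 3803) (.e (nat_lit 196666) (nat_lit 13) (.e (nat_lit 65610) (nat_lit 10) (.e (nat_lit 344117) (nat_lit 21) (.e (nat_lit 516151) (nat_lit 9) (.e (nat_lit 426018) (nat_lit 0) (.e (nat_lit 2401) (nat_lit 157) (.e (nat_lit 4847) (nat_lit 285) (.e (nat_lit 163870) (nat_lit 2) .nil)))))))) (.g (nat_lit 1) (.e (nat_lit 215785) (nat_lit 0) .nil) .nil))))) 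
(.nd (nat_lit 8) (.nd (nat_lit 9) 
(.lf (nat_lit 516258) (.g (nat_lit 2831) (.e (nat_lit 196656) (nat_lit 11) (.e (nat_lit 16463) (nat_lit 13) (.e (nat_lit 483341) (nat_lit 9) (.e (nat_lit 426107) (nat_lit 1) (.e (nat_lit 164332) (nat_lit 230) .nil))))) (.g (nat_lit 0) (.e (nat_lit 214669) (nat_lit 0) .nil) .nil))) 
(.lf (nat_lit 516770) (.g (nat_lit 1660) (.e (nat_lit 196666) (nat_lit 13) (.e (nat_lit 65610) (nat_lit 10) (.e (nat_lit 344117) (nat_lit 21) (.e (nat_lit 516141) (nat_lit 8) .nil)))) (.g (nat_lit 0) (.e (nat_lit 215655) (nat_lit 0) .nil) .nil)))) (.nd (nat_lit 9) 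
(.lf (nat_lit 516514) (.g (nat_lit 3086) (.e (nat_lit 196665) (nat_lit 13) (.e (nat_lit 65637) (nat_lit 15) (.e (nat_lit 3632) (nat_lit 227) (.e (nat_lit 778317) (nat_lit 3) (.e (nat_lit 57476) (nat_lit 28) .nil))))) (.g (nat_lit 0) (.e (nat_lit 215053) (nat_lit 0) .nil) .nil))) 
(.lf (nat_lit 517026) (.g (nat_lit 2967) (.e (nat_lit 196666) (nat_lit 13) (.e (nat_lit 65610) (nat_lit 10) (.e (nat_lit 344117) (nat_lit 21) (.e (nat_lit 516151) (nat_lit 9) (.e (nat_lit 426023) (nat_lit 0) (.e (nat_lit 2400) (nat_lit 157) (.e (nat_lit 4761) (nat_lit 281) (.e (nat_lit 2461) (nat_lit 157) (.e (nat_lit 2666) (nat_lit 167) .nil))))))))) (.g (nat_lit 1) (.e (nat_lit 215913) (nat_lit 0) .nil) .nil)))))) 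
(.nd (nat_lit 7) (.nd (nat_lit 8) (.nd (nat_lit 9) 
(.lf (nat_lit 516194) (.g (nat_lit 3826) (.e (nat_lit 196656) (nat_lit 11) (.e (nat_lit 16435) (nat_lit 9) (.e (nat_lit 426566) (nat_lit 34) (.e (nat_lit 393253) (nat_lit 18) (.e (nat_lit 164305) (nat_lit 226) (.e (nat_lit 2433) (nat_lit 157) (.e (nat_lit 2668) (nat_lit 167) .nil))))))) (.g (nat_lit 1) (.e (nat_lit 214492) (nat_lit 0) .nil) .nil))) 
(.lf (nat_lit 516706) (.g (nat_lit 2584) (.e (nat_lit 196666) (nat_lit 13) (.e (nat_lit 65610) (nat_lit 10) (.e (nat_lit 344117) (nat_lit 21) (.e (nat_lit 516106) (nat_lit 0) (.e (nat_lit 7015) (nat_lit 377) .nil))))) (.g (nat_lit 0) (.e (nat_lit 215521) (nat_lit 0) .nil) .nil)))) (.nd (nat_lit 9) 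
(.lf (nat_lit 516450) (.g (nat_lit 2734) (.e (nat_lit 196665) (nat_lit 13) (.e (nat_lit 65589) (nat_lit 9) (.e (nat_lit 336013) (nat_lit 2) (.e (nat_lit 90165) (nat_lit 12) (.e (nat_lit 164207) (nat_lit 176) .nil))))) (.g (nat_lit 0) (.e (nat_lit 214955) (nat_lit 0) .nil) .nil))) 
(.lf (nat_lit 516962) (.g (nat_lit 4430) (.e (nat_lit 196666) (nat_lit 13) (.e (nat_lit 65610) (nat_lit 10) (.e (nat_lit 344117) (nat_lit 21) (.e (nat_lit 516151) (nat_lit 9) (.e (nat_lit 426020) (nat_lit 0) (.e (nat_lit 3373) (nat_lit 208) (.e (nat_lit 622625) (nat_lit 13) (.e (nat_lit 2663) (nat_lit 167) .nil)))))))) (.g (nat_lit 1) (.e (nat_lit 215849) (nat_lit 0) .nil) .nil))))) 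
(.nd (nat_lit 8) (.nd (nat_lit 9) 
(.lf (nat_lit 516322) (.g (nat_lit 1883) (.e (nat_lit 196663) (nat_lit 13) (.e (nat_lit 65571) (nat_lit 3) (.e (nat_lit 98333) (nat_lit 18) (.e (nat_lit 164179) (nat_lit 154) .nil)))) (.g (nat_lit 0) (.e (nat_lit 214789) (nat_lit 0) .nil) .nil))) 
(.lf (nat_lit 516834) (.g (nat_lit 4357) (.e (nat_lit 196666) (nat_lit 13) (.e (nat_lit 65610) (nat_lit 10) (.e (nat_lit 344117) (nat_lit 21) (.e (nat_lit 516151) (nat_lit 9) (.e (nat_lit 426017) (nat_lit 0) (.e (nat_lit 2412) (nat_lit 157) (.e (nat_lit 4761) (nat_lit 281) (.e (nat_lit 2461) (nat_lit 157) (.e (nat_lit 2666) (nat_lit 167) .nil))))))))) (.g (nat_lit 1) (.e (nat_lit 215721) (nat_lit 0) .nil) .nil)))) 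
(.nd (nat_lit 9) 
(.lf (nat_lit 516578) (.g (nat_lit 2355) (.e (nat_lit 196666) (nat_lit 13) (.e (nat_lit 65604) (nat_lit 9) (.e (nat_lit 336028) (nat_lit 3) (.e (nat_lit 98349) (nat_lit 24) (.e (nat_lit 409617) (nat_lit 10) .nil))))) (.g (nat_lit 0) (.e (nat_lit 215274) (nat_lit 0) .nil) .nil))) 
(.lf (nat_lit 517090) (.g (nat_lit 4282) (.e (nat_lit 196666) (nat_lit 13) (.e (nat_lit 65610) (nat_lit 10) (.e (nat_lit 344117) (nat_lit 21) (.e (nat_lit 516151) (nat_lit 9) (.e (nat_lit 426037) (nat_lit 0) (.e (nat_lit 2422) (nat_lit 157) (.e (nat_lit 4848) (nat_lit 285) (.e (nat_lit 163870) (nat_lit 2) .nil)))))))) (.g (nat_lit 1) (.e (nat_lit 215977) (nat_lit 0) .nil) .nil)))))))) 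
(.nd (nat_lit 5) (.nd (nat_lit 6) (.nd (nat_lit 7) (.nd (nat_lit 8) (.nd (nat_lit 9) 
(.lf (nat_lit 516114) (.g (nat_lit 2188) (.e (nat_lit 196654) (nat_lit 11) (.e (nat_lit 16466) (nat_lit 13) (.e (nat_lit 483341) (nat_lit 9) (.e (nat_lit 426107) (nat_lit 1) (.e (nat_lit 164322) (nat_lit 230) .nil))))) (.g (nat_lit 0) (.e (nat_lit 214252) (nat_lit 0) .nil) .nil))) 
(.lf (nat_lit 516626) (.g (nat_lit 3477) (.e (nat_lit 196666) (nat_lit 13) (.e (nat_lit 65610) (nat_lit 10) (.e (nat_lit 344117) (nat_lit 21) (.e (nat_lit 516097) (nat_lit 0) (.e (nat_lit 7118) (nat_lit 381) (.e (nat_lit 229686) (nat_lit 246) (.e (nat_lit 2661) (nat_lit 167) .nil))))))) (.g (nat_lit 1) (.e (nat_lit 215372) (nat_lit 0) .nil) .nil)))) (.nd (nat_lit 9) 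
(.lf (nat_lit 516370) (.g (nat_lit 2828) (.e (nat_lit 196663) (nat_lit 13) (.e (nat_lit 65630) (nat_lit 14) (.e (nat_lit 401425) (nat_lit 2) (.e (nat_lit 196669) (nat_lit 14) (.e (nat_lit 73781) (nat_lit 32) .nil))))) (.g (nat_lit 0) (.e (nat_lit 214852) (nat_lit 0) .nil) .nil))) 
(.lf (nat_lit 516882) (.g (nat_lit 3517) (.e (nat_lit 196666) (nat_lit 13) (.e (nat_lit 65610) (nat_lit 10) (.e (nat_lit 344117) (nat_lit 21) (.e (nat_lit 516151) (nat_lit 9) (.e (nat_lit 426017) (nat_lit 0) (.e (nat_lit 3373) (nat_lit 208) (.e (nat_lit 622624) (nat_lit 13) (.e (nat_lit 2668) (nat_lit 167) .nil)))))))) (.g (nat_lit 1) (.e (nat_lit 215769) (nat_lit 0) .nil) .nil))))) 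
(.nd (nat_lit 8) (.nd (nat_lit 9) 
(.lf (nat_lit 516242) (.g (nat_lit 1364) (.e (nat_lit 196656) (nat_lit 11) (.e (nat_lit 16448) (nat_lit 10) (.e (nat_lit 434231) (nat_lit 23) (.e (nat_lit 532535) (nat_lit 9) .nil)))) (.g (nat_lit 0) (.e (nat_lit 214600) (nat_lit 0) .nil) .nil))) 
(.lf (nat_lit 516754) (.g (nat_lit 3399) (.e (nat_lit 196666) (nat_lit 13) (.e (nat_lit 65610) (nat_lit 10) (.e (nat_lit 344117) (nat_lit 21) (.e (nat_lit 516139) (nat_lit 7) (.e (nat_lit 409613) (nat_lit 10) (.e (nat_lit 5627) (nat_lit 312) (.e (nat_lit 2668) (nat_lit 167) .nil))))))) (.g (nat_lit 1) (.e (nat_lit 215639) (nat_lit 0) .nil) .nil)))) (.nd (nat_lit 9) 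
(.lf (nat_lit 516498) (.g (nat_lit 1795) (.e (nat_lit 196665) (nat_lit 13) (.e (nat_lit 65628) (nat_lit 14) (.e (nat_lit 401425) (nat_lit 2) (.e (nat_lit 196628) (nat_lit 9) .nil)))) (.g (nat_lit 0) (.e (nat_lit 215036) (nat_lit 0) .nil) .nil))) 
(.lf (nat_lit 517010) (.g (nat_lit 2664) (.e (nat_lit 196666) (nat_lit 13) (.e (nat_lit 65610) (nat_lit 10) (.e (nat_lit 344117) (nat_lit 21) (.e (nat_lit 516151) (nat_lit 9) (.e (nat_lit 426022) (nat_lit 0) (.e (nat_lit 2397) (nat_lit 157) (.e (nat_lit 4847) (nat_lit 285) (.e (nat_lit 163865) (nat_lit 2) .nil)))))))) (.g (nat_lit 1) (.e (nat_lit 215897) (nat_lit 0) .nil) .nil)))))) 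
(.nd (nat_lit 7) (.nd (nat_lit 8) (.nd (nat_lit 9) 
(.lf (nat_lit 516178) (.g (nat_lit 431) (.e (nat_lit 196656) (nat_lit 11) (.e (nat_lit 16416) (nat_lit 3) (.e (nat_lit 204813) (nat_lit 9) .nil))) (.g (nat_lit 0) (.e (nat_lit 214466) (nat_lit 0) .nil) .nil))) 
(.lf (nat_lit 516690) (.g (nat_lit 3973) (.e (nat_lit 196666) (nat_lit 13) (.e (nat_lit 65610) (nat_lit 10) (.e (nat_lit 344117) (nat_lit 21) (.e (nat_lit 516106) (nat_lit 0) (.e (nat_lit 6986) (nat_lit 377) (.e (nat_lit 2403) (nat_lit 157) (.e (nat_lit 7936) (nat_lit 312) (.e (nat_lit 2666) (nat_lit 167) .nil)))))))) (.g (nat_lit 1) (.e (nat_lit 215505) (nat_lit 0) .nil) .nil)))) 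
(.nd (nat_lit 9) 
(.lf (nat_lit 516434) (.g (nat_lit 2595) (.e (nat_lit 196664) (nat_lit 13) (.e (nat_lit 65624) (nat_lit 12) (.e (nat_lit 385074) (nat_lit 31) (.e (nat_lit 573489) (nat_lit 14) (.e (nat_lit 81664) (nat_lit 32) .nil))))) (.g (nat_lit 0) (.e (nat_lit 214931) (nat_lit 0) .nil) .nil))) 
(.lf (nat_lit 516946) (.g (nat_lit 4936) (.e (nat_lit 196666) (nat_lit 13) (.e (nat_lit 65610) (nat_lit 10) (.e (nat_lit 344117) (nat_lit 21) (.e (nat_lit 516151) (nat_lit 9) (.e (nat_lit 426020) (nat_lit 0) (.e (nat_lit 3368) (nat_lit 208) (.e (nat_lit 622620) (nat_lit 13) (.e (nat_lit 2663) (nat_lit 167) .nil)))))))) (.g (nat_lit 1) (.e (nat_lit 215833) (nat_lit 0) .nil) .nil))))) 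
(.nd (nat_lit 8) (.nd (nat_lit 9) 
(.lf (nat_lit 516306) (.g (nat_lit 1204) (.e (nat_lit 196662) (nat_lit 13) (.e (nat_lit 65623) (nat_lit 12) (.e (nat_lit 385068) (nat_lit 26) (.e (nat_lit 532515) (nat_lit 3) .nil)))) (.g (nat_lit 0) (.e (nat_lit 214765) (nat_lit 0) .nil) .nil))) 
(.lf (nat_lit 516818) (.g (nat_lit 3686) (.e (nat_lit 196666) (nat_lit 13) (.e (nat_lit 65610) (nat_lit 10) (.e (nat_lit 344117) (nat_lit 21) (.e (nat_lit 516151) (nat_lit 9) (.e (nat_lit 426017) (nat_lit 0) (.e (nat_lit 2430) (nat_lit 157) (.e (nat_lit 4848) (nat_lit 285) (.e (nat_lit 163870) (nat_lit 2) .nil)))))))) (.g (nat_lit 1) (.e (nat_lit 215705) (nat_lit 0) .nil) .nil)))) 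
(.nd (nat_lit 9) 
(.lf (nat_lit 516562) (.g (nat_lit 3059) (.e (nat_lit 196666) (nat_lit 13) (.e (nat_lit 65598) (nat_lit 9) (.e (nat_lit 336028) (nat_lit 3) (.e (nat_lit 98350) (nat_lit 24) (.e (nat_lit 409616) (nat_lit 10) .nil))))) (.g (nat_lit 0) (.e (nat_lit 215242) (nat_lit 0) .nil) .nil))) 
(.lf (nat_lit 517074) (.g (nat_lit 3218) (.e (nat_lit 196666) (nat_lit 13) (.e (nat_lit 65610) (nat_lit 10) (.e (nat_lit 344117) (nat_lit 21) (.e (nat_lit 516151) (nat_lit 9) (.e (nat_lit 426034) (nat_lit 0) (.e (nat_lit 3370) (nat_lit 208) (.e (nat_lit 622620) (nat_lit 13) (.e (nat_lit 2666) (nat_lit 167) .nil)))))))) (.g (nat_lit 1) (.e (nat_lit 215961) (nat_lit 0) .nil) .nil))))))) 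
(.nd (nat_lit 6) (.nd (nat_lit 7) (.nd (nat_lit 8) (.nd (nat_lit 9) 
(.lf (nat_lit 516146) (.g (nat_lit 1213) (.e (nat_lit 196655) (nat_lit 11) (.e (nat_lit 16465) (nat_lit 13) (.e (nat_lit 483341) (nat_lit 9) (.e (nat_lit 433920) (nat_lit 20) .nil)))) (.g (nat_lit 0) (.e (nat_lit 214389) (nat_lit 0) .nil) .nil))) 
(.lf (nat_lit 516658) (.g (nat_lit 4117) (.e (nat_lit 196666) (nat_lit 13) (.e (nat_lit 65610) (nat_lit 10) (.e (nat_lit 344117) (nat_lit 21) (.e (nat_lit 516102) (nat_lit 0) (.e (nat_lit 7107) (nat_lit 380) (.e (nat_lit 164358) (nat_lit 246) (.e (nat_lit 7936) (nat_lit 167) .nil))))))) (.g (nat_lit 1) (.e (nat_lit 215412) (nat_lit 0) .nil) .nil)))) (.nd (nat_lit 9) 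
(.lf (nat_lit 516402) (.g (nat_lit 2589) (.e (nat_lit 196664) (nat_lit 13) (.e (nat_lit 65571) (nat_lit 3) (.e (nat_lit 98333) (nat_lit 18) (.e (nat_lit 164183) (nat_lit 154) (.e (nat_lit 57378) (nat_lit 3) (.e (nat_lit 98342) (nat_lit 20) (.e (nat_lit 221212) (nat_lit 22) .nil))))))) (.g (nat_lit 1) (.e (nat_lit 214896) (nat_lit 0) .nil) .nil))) 
(.lf (nat_lit 516914) (.g (nat_lit 3699) (.e (nat_lit 196666) (nat_lit 13) (.e (nat_lit 65610) (nat_lit 10) (.e (nat_lit 344117) (nat_lit 21) (.e (nat_lit 516151) (nat_lit 9) (.e (nat_lit 426019) (nat_lit 0) (.e (nat_lit 3372) (nat_lit 208) (.e (nat_lit 622627) (nat_lit 13) (.e (nat_lit 2663) (nat_lit 167) .nil)))))))) (.g (nat_lit 1) (.e (nat_lit 215801) (nat_lit 0) .nil) .nil))))) 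
(.nd (nat_lit 8) (.nd (nat_lit 9) 
(.lf (nat_lit 516274) (.g (nat_lit 795) (.e (nat_lit 196656) (nat_lit 11) (.e (nat_lit 16473) (nat_lit 14) (.e (nat_lit 491525) (nat_lit 0) .nil))) (.g (nat_lit 0) (.e (nat_lit 214690) (nat_lit 0) .nil) .nil))) 
(.lf (nat_lit 516786) (.g (nat_lit 4727) (.e (nat_lit 196666) (nat_lit 13) (.e (nat_lit 65610) (nat_lit 10) (.e (nat_lit 344117) (nat_lit 21) (.e (nat_lit 516151) (nat_lit 9) (.e (nat_lit 426017) (nat_lit 0) (.e (nat_lit 2398) (nat_lit 157) (.e (nat_lit 4761) (nat_lit 281) (.e (nat_lit 2461) (nat_lit 157) (.e (nat_lit 2666) (nat_lit 167) .nil))))))))) (.g (nat_lit 1) (.e (nat_lit 215673) (nat_lit 0) .nil) .nil)))) 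
(.nd (nat_lit 9) 
(.lf (nat_lit 516530) (.g (nat_lit 2845) (.e (nat_lit 196666) (nat_lit 13) (.e (nat_lit 65569) (nat_lit 3) (.e (nat_lit 98341) (nat_lit 20) (.e (nat_lit 221213) (nat_lit 23) (.e (nat_lit 204830) (nat_lit 18) (.e (nat_lit 57927) (nat_lit 282) (.e (nat_lit 163869) (nat_lit 2) .nil))))))) (.g (nat_lit 1) (.e (nat_lit 215141) (nat_lit 0) .nil) .nil))) 
(.lf (nat_lit 517042) (.g (nat_lit 4202) (.e (nat_lit 196666) (nat_lit 13) (.e (nat_lit 65610) (nat_lit 10) (.e (nat_lit 344117) (nat_lit 21) (.e (nat_lit 516151) (nat_lit 9) (.e (nat_lit 426034) (nat_lit 0) (.e (nat_lit 2423) (nat_lit 157) (.e (nat_lit 4821) (nat_lit 281) (.e (nat_lit 2477) (nat_lit 157) (.e (nat_lit 2663) (nat_lit 167) .nil))))))))) (.g (nat_lit 1) (.e (nat_lit 215929) (nat_lit 0) .nil) .nil)))))) 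
(.nd (nat_lit 7) (.nd (nat_lit 8) (.nd (nat_lit 9) 
(.lf (nat_lit 516210) (.g (nat_lit 2637) (.e (nat_lit 196656) (nat_lit 11) (.e (nat_lit 16436) (nat_lit 9) (.e (nat_lit 426131) (nat_lit 3) (.e (nat_lit 204882) (nat_lit 32) (.e (nat_lit 385107) (nat_lit 51) (.e (nat_lit 794666) (nat_lit 22) .nil)))))) (.g (nat_lit 1) (.e (nat_lit 214515) (nat_lit 0) .nil) .nil))) 
(.lf (nat_lit 516722) (.g (nat_lit 2466) (.e (nat_lit 196666) (nat_lit 13) (.e (nat_lit 65610) (nat_lit 10) (.e (nat_lit 344117) (nat_lit 21) (.e (nat_lit 516106) (nat_lit 0) (.e (nat_lit 7112) (nat_lit 381) (.e (nat_lit 229686) (nat_lit 246) (.e (nat_lit 2654) (nat_lit 167) .nil))))))) (.g (nat_lit 1) (.e (nat_lit 215537) (nat_lit 0) .nil) .nil)))) (.nd (nat_lit 9) 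
(.lf (nat_lit 516466) (.g (nat_lit 2647) (.e (nat_lit 196665) (nat_lit 13) (.e (nat_lit 65598) (nat_lit 9) (.e (nat_lit 336028) (nat_lit 3) (.e (nat_lit 98350) (nat_lit 24) (.e (nat_lit 409643) (nat_lit 18) .nil))))) (.g (nat_lit 0) (.e (nat_lit 214981) (nat_lit 0) .nil) .nil))) 
(.lf (nat_lit 516978) (.g (nat_lit 4477) (.e (nat_lit 196666) (nat_lit 13) (.e (nat_lit 65610) (nat_lit 10) (.e (nat_lit 344117) (nat_lit 21) (.e (nat_lit 516151) (nat_lit 9) (.e (nat_lit 426021) (nat_lit 0) (.e (nat_lit 3366) (nat_lit 208) (.e (nat_lit 622626) (nat_lit 13) (.e (nat_lit 2663) (nat_lit 167) .nil)))))))) (.g (nat_lit 1) (.e (nat_lit 215865) (nat_lit 0) .nil) .nil))))) 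
(.nd (nat_lit 8) (.nd (nat_lit 9) 
(.lf (nat_lit 516338) (.g (nat_lit 3339) (.e (nat_lit 196663) (nat_lit 13) (.e (nat_lit 65571) (nat_lit 3) (.e (nat_lit 98341) (nat_lit 20) (.e (nat_lit 221214) (nat_lit 23) (.e (nat_lit 204829) (nat_lit 18) (.e (nat_lit 57926) (nat_lit 282) (.e (nat_lit 163868) (nat_lit 2) .nil))))))) (.g (nat_lit 1) (.e (nat_lit 214806) (nat_lit 0) .nil) .nil))) 
(.lf (nat_lit 516850) (.g (nat_lit 3993) (.e (nat_lit 196666) (nat_lit 13) (.e (nat_lit 65610) (nat_lit 10) (.e (nat_lit 344117) (nat_lit 21) (.e (nat_lit 516151) (nat_lit 9) (.e (nat_lit 426017) (nat_lit 0) (.e (nat_lit 2414) (nat_lit 157) (.e (nat_lit 4823) (nat_lit 281) (.e (nat_lit 2477) (nat_lit 157) (.e (nat_lit 2663) (nat_lit 167) .nil))))))))) (.g (nat_lit 1) (.e (nat_lit 215737) (nat_lit 0) .nil) .nil)))) 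
(.nd (nat_lit 9) 
(.lf (nat_lit 516594) (.g (nat_lit 3371) (.e (nat_lit 196666) (nat_lit 13) (.e (nat_lit 65610) (nat_lit 10) (.e (nat_lit 344117) (nat_lit 21) (.e (nat_lit 516097) (nat_lit 0) (.e (nat_lit 2399) (nat_lit 157) .nil))))) (.g (nat_lit 0) (.e (nat_lit 215306) (nat_lit 0) .nil) .nil))) 
(.lf (nat_lit 517106) (.g (nat_lit 3736) (.e (nat_lit 196666) (nat_lit 13) (.e (nat_lit 65610) (nat_lit 10) (.e (nat_lit 344117) (nat_lit 21) (.e (nat_lit 516151) (nat_lit 9) (.e (nat_lit 426037) (nat_lit 0) (.e (nat_lit 2427) (nat_lit 157) (.e (nat_lit 4778) (nat_lit 281) (.e (nat_lit 2445) (nat_lit 157) (.e (nat_lit 2668) (nat_lit 167) .nil))))))))) (.g (nat_lit 1) (.e (nat_lit 215993) (nat_lit 0) .nil) .nil))))))))) 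
(.nd (nat_lit 4) (.nd (nat_lit 5) (.nd (nat_lit 6) (.nd (nat_lit 7) (.nd (nat_lit 8) 
(.nd (nat_lit 9) 
(.lf (nat_lit 516106) (.g (nat_lit 684) (.e (nat_lit 196654) (nat_lit 11) (.e (nat_lit 16466) (nat_lit 13) (.e (nat_lit 483340) (nat_lit 9) .nil))) (.g (nat_lit 0) (.e (nat_lit 214244) (nat_lit 0) .nil) .nil))) 
(.lf (nat_lit 516618) (.g (nat_lit 4437) (.e (nat_lit 196666) (nat_lit 13) (.e (nat_lit 65610) (nat_lit 10) (.e (nat_lit 344117) (nat_lit 21) (.e (nat_lit 516097) (nat_lit 0) (.e (nat_lit 6949) (nat_lit 377) (.e (nat_lit 2816) (nat_lit 181) (.e (nat_lit 311311) (nat_lit 2) .nil))))))) (.g (nat_lit 1) (.e (nat_lit 215364) (nat_lit 0) .nil) .nil)))) (.nd (nat_lit 9) 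
(.lf (nat_lit 516362) (.g (nat_lit 3026) (.e (nat_lit 196663) (nat_lit 13) (.e (nat_lit 65630) (nat_lit 14) (.e (nat_lit 401425) (nat_lit 2) (.e (nat_lit 196630) (nat_lit 9) (.e (nat_lit 202) (nat_lit 17) .nil))))) (.g (nat_lit 0) (.e (nat_lit 214844) (nat_lit 0) .nil) .nil))) 
(.lf (nat_lit 516874) (.g (nat_lit 3520) (.e (nat_lit 196666) (nat_lit 13) (.e (nat_lit 65610) (nat_lit 10) (.e (nat_lit 344117) (nat_lit 21) (.e (nat_lit 516151) (nat_lit 9) (.e (nat_lit 426017) (nat_lit 0) (.e (nat_lit 3372) (nat_lit 208) (.e (nat_lit 622623) (nat_lit 13) (.e (nat_lit 2662) (nat_lit 167) .nil)))))))) (.g (nat_lit 1) (.e (nat_lit 215761) (nat_lit 0) .nil) .nil))))) 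
(.nd (nat_lit 8) (.nd (nat_lit 9) 
(.lf (nat_lit 516234) (.g (nat_lit 2528) (.e (nat_lit 196656) (nat_lit 11) (.e (nat_lit 16448) (nat_lit 10) (.e (nat_lit 434231) (nat_lit 23) (.e (nat_lit 532527) (nat_lit 9) (.e (nat_lit 336336) (nat_lit 20) .nil))))) (.g (nat_lit 0) (.e (nat_lit 214592) (nat_lit 0) .nil) .nil))) 
(.lf (nat_lit 516746) (.g (nat_lit 3773) (.e (nat_lit 196666) (nat_lit 13) (.e (nat_lit 65610) (nat_lit 10) (.e (nat_lit 344117) (nat_lit 21) (.e (nat_lit 516139) (nat_lit 7) (.e (nat_lit 409612) (nat_lit 10) (.e (nat_lit 5612) (nat_lit 312) (.e (nat_lit 2668) (nat_lit 167) .nil))))))) (.g (nat_lit 1) (.e (nat_lit 215631) (nat_lit 0) .nil) .nil)))) (.nd (nat_lit 9) 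
(.lf (nat_lit 516490) (.g (nat_lit 1834) (.e (nat_lit 196665) (nat_lit 13) (.e (nat_lit 65626) (nat_lit 13) (.e (nat_lit 393225) (nat_lit 9) (.e (nat_lit 335986) (nat_lit 1) (.e (nat_lit 57926) (nat_lit 282) .nil))))) (.g (nat_lit 0) (.e (nat_lit 215026) (nat_lit 0) .nil) .nil))) 
(.lf (nat_lit 517002) (.g (nat_lit 3382) (.e (nat_lit 196666) (nat_lit 13) (.e (nat_lit 65610) (nat_lit 10) (.e (nat_lit 344117) (nat_lit 21) (.e (nat_lit 516151) (nat_lit 9) (.e (nat_lit 426021) (nat_lit 0) (.e (nat_lit 3373) (nat_lit 208) (.e (nat_lit 622620) (nat_lit 13) (.e (nat_lit 2668) (nat_lit 167) .nil)))))))) (.g (nat_lit 1) (.e (nat_lit 215889) (nat_lit 0) .nil) .nil)))))) 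
(.nd (nat_lit 7) (.nd (nat_lit 8) (.nd (nat_lit 9) 
(.lf (nat_lit 516170) (.g (nat_lit 1094) (.e (nat_lit 196656) (nat_lit 11) (.e (nat_lit 16412) (nat_lit 2) (.e (nat_lit 196656) (nat_lit 11) (.e (nat_lit 16415) (nat_lit 3) .nil)))) (.g (nat_lit 0) (.e (nat_lit 214447) (nat_lit 0) .nil) .nil))) 
(.lf (nat_lit 516682) (.g (nat_lit 2621) (.e (nat_lit 196666) (nat_lit 13) (.e (nat_lit 65610) (nat_lit 10) (.e (nat_lit 344117) (nat_lit 21) (.e (nat_lit 516106) (nat_lit 0) (.e (nat_lit 6966) (nat_lit 377) (.e (nat_lit 2807) (nat_lit 180) (.e (nat_lit 303116) (nat_lit 2) .nil))))))) (.g (nat_lit 1) (.e (nat_lit 215497) (nat_lit 0) .nil) .nil)))) (.nd (nat_lit 9) 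
(.lf (nat_lit 516426) (.g (nat_lit 1969) (.e (nat_lit 196664) (nat_lit 13) (.e (nat_lit 65604) (nat_lit 9) (.e (nat_lit 336013) (nat_lit 2) (.e (nat_lit 90165) (nat_lit 12) (.e (nat_lit 171776) (nat_lit 176) .nil))))) (.g (nat_lit 0) (.e (nat_lit 214923) (nat_lit 0) .nil) .nil))) 
(.lf (nat_lit 516938) (.g (nat_lit 4654) (.e (nat_lit 196666) (nat_lit 13) (.e (nat_lit 65610) (nat_lit 10) (.e (nat_lit 344117) (nat_lit 21) (.e (nat_lit 516151) (nat_lit 9) (.e (nat_lit 426020) (nat_lit 0) (.e (nat_lit 3366) (nat_lit 208) (.e (nat_lit 622627) (nat_lit 13) (.e (nat_lit 2666) (nat_lit 167) .nil)))))))) (.g (nat_lit 1) (.e (nat_lit 215825) (nat_lit 0) .nil) .nil))))) 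
(.nd (nat_lit 8) (.nd (nat_lit 9) 
(.lf (nat_lit 516298) (.g (nat_lit 1057) (.e (nat_lit 196662) (nat_lit 13) (.e (nat_lit 65569) (nat_lit 3) (.e (nat_lit 98342) (nat_lit 20) (.e (nat_lit 221215) (nat_lit 23) .nil)))) (.g (nat_lit 0) (.e (nat_lit 214756) (nat_lit 0) .nil) .nil))) 
(.lf (nat_lit 516810) (.g (nat_lit 3629) (.e (nat_lit 196666) (nat_lit 13) (.e (nat_lit 65610) (nat_lit 10) (.e (nat_lit 344117) (nat_lit 21) (.e (nat_lit 516151) (nat_lit 9) (.e (nat_lit 426017) (nat_lit 0) (.e (nat_lit 2417) (nat_lit 157) (.e (nat_lit 4848) (nat_lit 285) (.e (nat_lit 163870) (nat_lit 2) .nil)))))))) (.g (nat_lit 1) (.e (nat_lit 215697) (nat_lit 0) .nil) .nil)))) 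
(.nd (nat_lit 9) 
(.lf (nat_lit 516554) (.g (nat_lit 1125) (.e (nat_lit 196666) (nat_lit 13) (.e (nat_lit 65589) (nat_lit 9) (.e (nat_lit 336013) (nat_lit 2) (.e (nat_lit 90165) (nat_lit 12) .nil)))) (.g (nat_lit 0) (.e (nat_lit 215214) (nat_lit 0) .nil) .nil))) 
(.lf (nat_lit 517066) (.g (nat_lit 3957) (.e (nat_lit 196666) (nat_lit 13) (.e (nat_lit 65610) (nat_lit 10) (.e (nat_lit 344117) (nat_lit 21) (.e (nat_lit 516151) (nat_lit 9) (.e (nat_lit 426034) (nat_lit 0) (.e (nat_lit 3369) (nat_lit 208) (.e (nat_lit 622620) (nat_lit 13) (.e (nat_lit 2663) (nat_lit 167) .nil)))))))) (.g (nat_lit 1) (.e (nat_lit 215953) (nat_lit 0) .nil) .nil))))))) 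
(.nd (nat_lit 6) (.nd (nat_lit 7) (.nd (nat_lit 8) (.nd (nat_lit 9) 
(.lf (nat_lit 516138) (.g (nat_lit 3597) (.e (nat_lit 196655) (nat_lit 11) (.e (nat_lit 16465) (nat_lit 13) (.e (nat_lit 483341) (nat_lit 9) (.e (nat_lit 426098) (nat_lit 1) (.e (nat_lit 164322) (nat_lit 230) (.e (nat_lit 163867) (nat_lit 2) .nil)))))) (.g (nat_lit 1) (.e (nat_lit 214381) (nat_lit 0) .nil) .nil))) 
(.lf (nat_lit 516650) (.g (nat_lit 1936) (.e (nat_lit 196666) (nat_lit 13) (.e (nat_lit 65610) (nat_lit 10) (.e (nat_lit 344117) (nat_lit 21) (.e (nat_lit 516101) (nat_lit 0) .nil)))) (.g (nat_lit 0) (.e (nat_lit 215404) (nat_lit 0) .nil) .nil)))) (.nd (nat_lit 9) 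
(.lf (nat_lit 516394) (.g (nat_lit 2409) (.e (nat_lit 196663) (nat_lit 13) (.e (nat_lit 65637) (nat_lit 15) (.e (nat_lit 3632) (nat_lit 227) (.e (nat_lit 778318) (nat_lit 3) (.e (nat_lit 57476) (nat_lit 28) .nil))))) (.g (nat_lit 0) (.e (nat_lit 214879) (nat_lit 0) .nil) .nil))) 
(.lf (nat_lit 516906) (.g (nat_lit 4164) (.e (nat_lit 196666) (nat_lit 13) (.e (nat_lit 65610) (nat_lit 10) (.e (nat_lit 344117) (nat_lit 21) (.e (nat_lit 516151) (nat_lit 9) (.e (nat_lit 426019) (nat_lit 0) (.e (nat_lit 3366) (nat_lit 208) (.e (nat_lit 622626) (nat_lit 13) (.e (nat_lit 2663) (nat_lit 167) .nil)))))))) (.g (nat_lit 1) (.e (nat_lit 215793) (nat_lit 0) .nil) .nil))))) 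
(.nd (nat_lit 8) (.nd (nat_lit 9) 
(.lf (nat_lit 516266) (.g (nat_lit 316) (.e (nat_lit 196656) (nat_lit 11) (.e (nat_lit 16465) (nat_lit 13) (.e (nat_lit 491264) (nat_lit 10) .nil))) (.g (nat_lit 0) (.e (nat_lit 214678) (nat_lit 0) .nil) .nil))) 
(.lf (nat_lit 516778) (.g (nat_lit 2587) (.e (nat_lit 196666) (nat_lit 13) (.e (nat_lit 65610) (nat_lit 10) (.e (nat_lit 344117) (nat_lit 21) (.e (nat_lit 516142) (nat_lit 8) (.e (nat_lit 417819) (nat_lit 10) (.e (nat_lit 5643) (nat_lit 312) (.e (nat_lit 2661) (nat_lit 167) .nil))))))) (.g (nat_lit 1) (.e (nat_lit 215663) (nat_lit 0) .nil) .nil)))) (.nd (nat_lit 9) 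
(.lf (nat_lit 516522) (.g (nat_lit 1551) (.e (nat_lit 196666) (nat_lit 13) (.e (nat_lit 65569) (nat_lit 3) (.e (nat_lit 98334) (nat_lit 18) (.e (nat_lit 164176) (nat_lit 154) .nil)))) (.g (nat_lit 0) (.e (nat_lit 215106) (nat_lit 0) .nil) .nil))) 
(.lf (nat_lit 517034) (.g (nat_lit 3630) (.e (nat_lit 196666) (nat_lit 13) (.e (nat_lit 65610) (nat_lit 10) (.e (nat_lit 344117) (nat_lit 21) (.e (nat_lit 516151) (nat_lit 9) (.e (nat_lit 426026) (nat_lit 0) (.e (nat_lit 7936) (nat_lit 208) (.e (nat_lit 622627) (nat_lit 13) (.e (nat_lit 2663) (nat_lit 167) .nil)))))))) (.g (nat_lit 1) (.e (nat_lit 215921) (nat_lit 0) .nil) .nil)))))) 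
(.nd (nat_lit 7) (.nd (nat_lit 8) (.nd (nat_lit 9) 
(.lf (nat_lit 516202) (.g (nat_lit 2481) (.e (nat_lit 196656) (nat_lit 11) (.e (nat_lit 16436) (nat_lit 9) (.e (nat_lit 426131) (nat_lit 3) (.e (nat_lit 204854) (nat_lit 26) (.e (nat_lit 343808) (nat_lit 20) (.e (nat_lit 221210) (nat_lit 22) .nil)))))) (.g (nat_lit 1) (.e (nat_lit 214503) (nat_lit 0) .nil) .nil))) 
(.lf (nat_lit 516714) (.g (nat_lit 2843) (.e (nat_lit 196666) (nat_lit 13) (.e (nat_lit 65610) (nat_lit 10) (.e (nat_lit 344117) (nat_lit 21) (.e (nat_lit 516106) (nat_lit 0) (.e (nat_lit 7095) (nat_lit 380) (.e (nat_lit 164356) (nat_lit 246) (.e (nat_lit 7936) (nat_lit 167) .nil))))))) (.g (nat_lit 1) (.e (nat_lit 215529) (nat_lit 0) .nil) .nil)))) (.nd (nat_lit 9) 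
(.lf (nat_lit 516458) (.g (nat_lit 2546) (.e (nat_lit 196665) (nat_lit 13) (.e (nat_lit 65598) (nat_lit 9) (.e (nat_lit 336013) (nat_lit 2) (.e (nat_lit 90161) (nat_lit 12) (.e (nat_lit 164212) (nat_lit 176) .nil))))) (.g (nat_lit 0) (.e (nat_lit 214973) (nat_lit 0) .nil) .nil))) 
(.lf (nat_lit 516970) (.g (nat_lit 3510) (.e (nat_lit 196666) (nat_lit 13) (.e (nat_lit 65610) (nat_lit 10) (.e (nat_lit 344117) (nat_lit 21) (.e (nat_lit 516151) (nat_lit 9) (.e (nat_lit 426021) (nat_lit 0) (.e (nat_lit 2418) (nat_lit 157) (.e (nat_lit 4849) (nat_lit 285) (.e (nat_lit 163869) (nat_lit 2) .nil)))))))) (.g (nat_lit 1) (.e (nat_lit 215857) (nat_lit 0) .nil) .nil))))) 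
(.nd (nat_lit 8) (.nd (nat_lit 9) 
(.lf (nat_lit 516330) (.g (nat_lit 932) (.e (nat_lit 196663) (nat_lit 13) (.e (nat_lit 65571) (nat_lit 3) (.e (nat_lit 98334) (nat_lit 18) .nil))) (.g (nat_lit 0) (.e (nat_lit 214797) (nat_lit 0) .nil) .nil))) 
(.lf (nat_lit 516842) (.g (nat_lit 3807) (.e (nat_lit 196666) (nat_lit 13) (.e (nat_lit 65610) (nat_lit 10) (.e (nat_lit 344117) (nat_lit 21) (.e (nat_lit 516151) (nat_lit 9) (.e (nat_lit 426017) (nat_lit 0) (.e (nat_lit 2413) (nat_lit 157) (.e (nat_lit 4823) (nat_lit 281) (.e (nat_lit 2477) (nat_lit 157) (.e (nat_lit 2663) (nat_lit 167) .nil))))))))) (.g (nat_lit 1) (.e (nat_lit 215729) (nat_lit 0) .nil) .nil)))) 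
(.nd (nat_lit 9) 
(.lf (nat_lit 516586) (.g (nat_lit 220) (.e (nat_lit 196666) (nat_lit 13) (.e (nat_lit 65610) (nat_lit 10) (.e (nat_lit 344090) (nat_lit 18) .nil))) (.g (nat_lit 0) (.e (nat_lit 215284) (nat_lit 0) .nil) .nil))) 
(.lf (nat_lit 517098) (.g (nat_lit 4765) (.e (nat_lit 196666) (nat_lit 13) (.e (nat_lit 65610) (nat_lit 10) (.e (nat_lit 344117) (nat_lit 21) (.e (nat_lit 516151) (nat_lit 9) (.e (nat_lit 426037) (nat_lit 0) (.e (nat_lit 2423) (nat_lit 157) (.e (nat_lit 4849) (nat_lit 285) (.e (nat_lit 163869) (nat_lit 2) .nil)))))))) (.g (nat_lit 1) (.e (nat_lit 215985) (nat_lit 0) .nil) .nil)))))))) 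
(.nd (nat_lit 5) (.nd (nat_lit 6) (.nd (nat_lit 7) (.nd (nat_lit 8) (.nd (nat_lit 9) 
(.lf (nat_lit 516122) (.g (nat_lit 2432) (.e (nat_lit 196655) (nat_lit 11) (.e (nat_lit 16432) (nat_lit 9) (.e (nat_lit 426566) (nat_lit 34) (.e (nat_lit 393254) (nat_lit 18) (.e (nat_lit 164332) (nat_lit 230) .nil))))) (.g (nat_lit 0) (.e (nat_lit 214316) (nat_lit 0) .nil) .nil))) 
(.lf (nat_lit 516634) (.g (nat_lit 2261) (.e (nat_lit 196666) (nat_lit 13) (.e (nat_lit 65610) (nat_lit 10) (.e (nat_lit 344117) (nat_lit 21) (.e (nat_lit 516098) (nat_lit 0) (.e (nat_lit 2412) (nat_lit 157) .nil))))) (.g (nat_lit 0) (.e (nat_lit 215384) (nat_lit 0) .nil) .nil)))) (.nd (nat_lit 9) 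
(.lf (nat_lit 516378) (.g (nat_lit 2764) (.e (nat_lit 196663) (nat_lit 13) (.e (nat_lit 65630) (nat_lit 14) (.e (nat_lit 401425) (nat_lit 2) (.e (nat_lit 196681) (nat_lit 17) (.e (nat_lit 131129) (nat_lit 14) .nil))))) (.g (nat_lit 0) (.e (nat_lit 214860) (nat_lit 0) .nil) .nil))) 
(.lf (nat_lit 516890) (.g (nat_lit 4561) (.e (nat_lit 196666) (nat_lit 13) (.e (nat_lit 65610) (nat_lit 10) (.e (nat_lit 344117) (nat_lit 21) (.e (nat_lit 516151) (nat_lit 9) (.e (nat_lit 426017) (nat_lit 0) (.e (nat_lit 7936) (nat_lit 208) (.e (nat_lit 622622) (nat_lit 13) (.e (nat_lit 2662) (nat_lit 167) .nil)))))))) (.g (nat_lit 1) (.e (nat_lit 215777) (nat_lit 0) .nil) .nil))))) 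
(.nd (nat_lit 8) (.nd (nat_lit 9) 
(.lf (nat_lit 516250) (.g (nat_lit 2323) (.e (nat_lit 196656) (nat_lit 11) (.e (nat_lit 16463) (nat_lit 13) (.e (nat_lit 483337) (nat_lit 9) (.e (nat_lit 426107) (nat_lit 1) (.e (nat_lit 164325) (nat_lit 230) .nil))))) (.g (nat_lit 0) (.e (nat_lit 214661) (nat_lit 0) .nil) .nil))) 
(.lf (nat_lit 516762) (.g (nat_lit 3358) (.e (nat_lit 196666) (nat_lit 13) (.e (nat_lit 65610) (nat_lit 10) (.e (nat_lit 344117) (nat_lit 21) (.e (nat_lit 516139) (nat_lit 7) (.e (nat_lit 409618) (nat_lit 10) (.e (nat_lit 5666) (nat_lit 312) (.e (nat_lit 2661) (nat_lit 167) .nil))))))) (.g (nat_lit 1) (.e (nat_lit 215647) (nat_lit 0) .nil) .nil)))) (.nd (nat_lit 9) 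
(.lf (nat_lit 516506) (.g (nat_lit 2474) (.e (nat_lit 196665) (nat_lit 13) (.e (nat_lit 65628) (nat_lit 14) (.e (nat_lit 401428) (nat_lit 3) (.e (nat_lit 204846) (nat_lit 24) (.e (nat_lit 319491) (nat_lit 0) .nil))))) (.g (nat_lit 0) (.e (nat_lit 215045) (nat_lit 0) .nil) .nil))) 
(.lf (nat_lit 517018) (.g (nat_lit 3293) (.e (nat_lit 196666) (nat_lit 13) (.e (nat_lit 65610) (nat_lit 10) (.e (nat_lit 344117) (nat_lit 21) (.e (nat_lit 516151) (nat_lit 9) (.e (nat_lit 426022) (nat_lit 0) (.e (nat_lit 2403) (nat_lit 157) (.e (nat_lit 4829) (nat_lit 281) (.e (nat_lit 2416) (nat_lit 157) (.e (nat_lit 2666) (nat_lit 167) .nil))))))))) (.g (nat_lit 1) (.e (nat_lit 215905) (nat_lit 0) .nil) .nil)))))) 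
(.nd (nat_lit 7) (.nd (nat_lit 8) (.nd (nat_lit 9) 
(.lf (nat_lit 516186) (.g (nat_lit 3386) (.e (nat_lit 196656) (nat_lit 11) (.e (nat_lit 16431) (nat_lit 9) (.e (nat_lit 426566) (nat_lit 34) (.e (nat_lit 393253) (nat_lit 18) (.e (nat_lit 164326) (nat_lit 230) .nil))))) (.g (nat_lit 0) (.e (nat_lit 214483) (nat_lit 0) .nil) .nil))) 
(.lf (nat_lit 516698) (.g (nat_lit 3248) (.e (nat_lit 196666) (nat_lit 13) (.e (nat_lit 65610) (nat_lit 10) (.e (nat_lit 344117) (nat_lit 21) (.e (nat_lit 516106) (nat_lit 0) (.e (nat_lit 7008) (nat_lit 377) (.e (nat_lit 2425) (nat_lit 157) (.e (nat_lit 5735) (nat_lit 312) (.e (nat_lit 2666) (nat_lit 167) .nil)))))))) (.g (nat_lit 1) (.e (nat_lit 215513) (nat_lit 0) .nil) .nil)))) 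
(.nd (nat_lit 9) 
(.lf (nat_lit 516442) (.g (nat_lit 468) (.e (nat_lit 196665) (nat_lit 13) (.e (nat_lit 65569) (nat_lit 3) (.e (nat_lit 98338) (nat_lit 19) .nil))) (.g (nat_lit 0) (.e (nat_lit 214944) (nat_lit 0) .nil) .nil))) 
(.lf (nat_lit 516954) (.g (nat_lit 3828) (.e (nat_lit 196666) (nat_lit 13) (.e (nat_lit 65610) (nat_lit 10) (.e (nat_lit 344117) (nat_lit 21) (.e (nat_lit 516151) (nat_lit 9) (.e (nat_lit 426020) (nat_lit 0) (.e (nat_lit 3372) (nat_lit 208) (.e (nat_lit 622624) (nat_lit 13) (.e (nat_lit 2668) (nat_lit 167) .nil)))))))) (.g (nat_lit 1) (.e (nat_lit 215841) (nat_lit 0) .nil) .nil))))) 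
(.nd (nat_lit 8) (.nd (nat_lit 9) 
(.lf (nat_lit 516314) (.g (nat_lit 466) (.e (nat_lit 196663) (nat_lit 13) (.e (nat_lit 65569) (nat_lit 3) (.e (nat_lit 98342) (nat_lit 20) .nil))) (.g (nat_lit 0) (.e (nat_lit 214775) (nat_lit 0) .nil) .nil))) 
(.lf (nat_lit 516826) (.g (nat_lit 3784) (.e (nat_lit 196666) (nat_lit 13) (.e (nat_lit 65610) (nat_lit 10) (.e (nat_lit 344117) (nat_lit 21) (.e (nat_lit 516151) (nat_lit 9) (.e (nat_lit 426017) (nat_lit 0) (.e (nat_lit 2450) (nat_lit 157) (.e (nat_lit 4756) (nat_lit 281) (.e (nat_lit 2517) (nat_lit 157) (.e (nat_lit 2663) (nat_lit 167) .nil))))))))) (.g (nat_lit 1) (.e (nat_lit 215713) (nat_lit 0) .nil) .nil)))) 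
(.nd (nat_lit 9) 
(.lf (nat_lit 516570) (.g (nat_lit 1056) (.e (nat_lit 196666) (nat_lit 13) (.e (nat_lit 65599) (nat_lit 9) (.e (nat_lit 336028) (nat_lit 3) (.e (nat_lit 98349) (nat_lit 24) .nil)))) (.g (nat_lit 0) (.e (nat_lit 215257) (nat_lit 0) .nil) .nil))) 
(.lf (nat_lit 517082) (.g (nat_lit 3885) (.e (nat_lit 196666) (nat_lit 13) (.e (nat_lit 65610) (nat_lit 10) (.e (nat_lit 344117) (nat_lit 21) (.e (nat_lit 516151) (nat_lit 9) (.e (nat_lit 426034) (nat_lit 0) (.e (nat_lit 3371) (nat_lit 208) (.e (nat_lit 622620) (nat_lit 13) (.e (nat_lit 2663) (nat_lit 167) .nil)))))))) (.g (nat_lit 1) (.e (nat_lit 215969) (nat_lit 0) .nil) .nil))))))) 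
(.nd (nat_lit 6) (.nd (nat_lit 7) (.nd (nat_lit 8) (.nd (nat_lit 9) 
(.lf (nat_lit 516154) (.g (nat_lit 1191) (.e (nat_lit 196655) (nat_lit 11) (.e (nat_lit 16473) (nat_lit 14) (.e (nat_lit 499456) (nat_lit 27) .nil))) (.g (nat_lit 0) (.e (nat_lit 214415) (nat_lit 0) .nil) .nil))) 
(.lf (nat_lit 516666) (.g (nat_lit 2576) (.e (nat_lit 196666) (nat_lit 13) (.e (nat_lit 65610) (nat_lit 10) (.e (nat_lit 344117) (nat_lit 21) (.e (nat_lit 516106) (nat_lit 0) (.e (nat_lit 2425) (nat_lit 157) .nil))))) (.g (nat_lit 0) (.e (nat_lit 215429) (nat_lit 0) .nil) .nil)))) (.nd (nat_lit 9) 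
(.lf (nat_lit 516410) (.g (nat_lit 1018) (.e (nat_lit 196664) (nat_lit 13) (.e (nat_lit 65571) (nat_lit 3) (.e (nat_lit 98335) (nat_lit 18) .nil))) (.g (nat_lit 0) (.e (nat_lit 214904) (nat_lit 0) .nil) .nil))) 
(.lf (nat_lit 516922) (.g (nat_lit 3370) (.e (nat_lit 196666) (nat_lit 13) (.e (nat_lit 65610) (nat_lit 10) (.e (nat_lit 344117) (nat_lit 21) (.e (nat_lit 516151) (nat_lit 9) (.e (nat_lit 426019) (nat_lit 0) (.e (nat_lit 7936) (nat_lit 208) (.e (nat_lit 622622) (nat_lit 13) (.e (nat_lit 2662) (nat_lit 167) .nil)))))))) (.g (nat_lit 1) (.e (nat_lit 215809) (nat_lit 0) .nil) .nil))))) 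
(.nd (nat_lit 8) (.nd (nat_lit 9) 
(.lf (nat_lit 516282) (.g (nat_lit 798) (.e (nat_lit 196656) (nat_lit 11) (.e (nat_lit 16473) (nat_lit 14) (.e (nat_lit 499456) (nat_lit 27) .nil))) (.g (nat_lit 0) (.e (nat_lit 214704) (nat_lit 0) .nil) .nil))) 
(.lf (nat_lit 516794) (.g (nat_lit 4543) (.e (nat_lit 196666) (nat_lit 13) (.e (nat_lit 65610) (nat_lit 10) (.e (nat_lit 344117) (nat_lit 21) (.e (nat_lit 516151) (nat_lit 9) (.e (nat_lit 426017) (nat_lit 0) (.e (nat_lit 2401) (nat_lit 157) (.e (nat_lit 4761) (nat_lit 281) (.e (nat_lit 2461) (nat_lit 157) (.e (nat_lit 2666) (nat_lit 167) .nil))))))))) (.g (nat_lit 1) (.e (nat_lit 215681) (nat_lit 0) .nil) .nil)))) 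
(.nd (nat_lit 9) 
(.lf (nat_lit 516538) (.g (nat_lit 4052) (.e (nat_lit 196666) (nat_lit 13) (.e (nat_lit 65571) (nat_lit 3) (.e (nat_lit 98333) (nat_lit 18) (.e (nat_lit 164179) (nat_lit 154) (.e (nat_lit 57377) (nat_lit 3) (.e (nat_lit 98338) (nat_lit 19) (.e (nat_lit 213013) (nat_lit 9) (.e (nat_lit 2666) (nat_lit 167) .nil)))))))) (.g (nat_lit 1) (.e (nat_lit 215162) (nat_lit 0) .nil) .nil))) 
(.lf (nat_lit 517050) (.g (nat_lit 4053) (.e (nat_lit 196666) (nat_lit 13) (.e (nat_lit 65610) (nat_lit 10) (.e (nat_lit 344117) (nat_lit 21) (.e (nat_lit 516151) (nat_lit 9) (.e (nat_lit 426034) (nat_lit 0) (.e (nat_lit 2425) (nat_lit 157) (.e (nat_lit 4821) (nat_lit 281) (.e (nat_lit 2477) (nat_lit 157) (.e (nat_lit 2663) (nat_lit 167) .nil))))))))) (.g (nat_lit 1) (.e (nat_lit 215937) (nat_lit 0) .nil) .nil)))))) 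
(.nd (nat_lit 7) (.nd (nat_lit 8) (.nd (nat_lit 9) 
(.lf (nat_lit 516218) (.g (nat_lit 1627) (.e (nat_lit 196656) (nat_lit 11) (.e (nat_lit 16438) (nat_lit 9) (.e (nat_lit 426482) (nat_lit 27) (.e (nat_lit 336385) (nat_lit 27) .nil)))) (.g (nat_lit 0) (.e (nat_lit 214524) (nat_lit 0) .nil) .nil))) 
(.lf (nat_lit 516730) (.g (nat_lit 2679) (.e (nat_lit 196666) (nat_lit 13) (.e (nat_lit 65610) (nat_lit 10) (.e (nat_lit 344117) (nat_lit 21) (.e (nat_lit 516112) (nat_lit 0) .nil)))) (.g (nat_lit 0) (.e (nat_lit 215545) (nat_lit 0) .nil) .nil)))) (.nd (nat_lit 9) 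
(.lf (nat_lit 516474) (.g (nat_lit 3330) (.e (nat_lit 196665) (nat_lit 13) (.e (nat_lit 65617) (nat_lit 10) (.e (nat_lit 344117) (nat_lit 21) (.e (nat_lit 516139) (nat_lit 7) (.e (nat_lit 409645) (nat_lit 18) .nil))))) (.g (nat_lit 0) (.e (nat_lit 214994) (nat_lit 0) .nil) .nil))) 
(.lf (nat_lit 516986) (.g (nat_lit 4248) (.e (nat_lit 196666) (nat_lit 13) (.e (nat_lit 65610) (nat_lit 10) (.e (nat_lit 344117) (nat_lit 21) (.e (nat_lit 516151) (nat_lit 9) (.e (nat_lit 426021) (nat_lit 0) (.e (nat_lit 3367) (nat_lit 208) (.e (nat_lit 622627) (nat_lit 13) (.e (nat_lit 2663) (nat_lit 167) .nil)))))))) (.g (nat_lit 1) (.e (nat_lit 215873) (nat_lit 0) .nil) .nil))))) 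
(.nd (nat_lit 8) (.nd (nat_lit 9) 
(.lf (nat_lit 516346) (.g (nat_lit 2251) (.e (nat_lit 196663) (nat_lit 13) (.e (nat_lit 65571) (nat_lit 3) (.e (nat_lit 98342) (nat_lit 20) (.e (nat_lit 221215) (nat_lit 23) (.e (nat_lit 204829) (nat_lit 18) (.e (nat_lit 57927) (nat_lit 282) (.e (nat_lit 163866) (nat_lit 2) .nil))))))) (.g (nat_lit 1) (.e (nat_lit 214821) (nat_lit 0) .nil) .nil))) 
(.lf (nat_lit 516858) (.g (nat_lit 4114) (.e (nat_lit 196666) (nat_lit 13) (.e (nat_lit 65610) (nat_lit 10) (.e (nat_lit 344117) (nat_lit 21) (.e (nat_lit 516151) (nat_lit 9) (.e (nat_lit 426017) (nat_lit 0) (.e (nat_lit 3366) (nat_lit 208) (.e (nat_lit 622627) (nat_lit 13) (.e (nat_lit 2665) (nat_lit 167) .nil)))))))) (.g (nat_lit 1) (.e (nat_lit 215745) (nat_lit 0) .nil) .nil)))) 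
(.nd (nat_lit 9) 
(.lf (nat_lit 516602) (.g (nat_lit 3579) (.e (nat_lit 196666) (nat_lit 13) (.e (nat_lit 65610) (nat_lit 10) (.e (nat_lit 344117) (nat_lit 21) (.e (nat_lit 516097) (nat_lit 0) (.e (nat_lit 2431) (nat_lit 157) (.e (nat_lit 4541) (nat_lit 267) (.e (nat_lit 163909) (nat_lit 12) (.e (nat_lit 426125) (nat_lit 2) .nil)))))))) (.g (nat_lit 1) (.e (nat_lit 215333) (nat_lit 0) .nil) .nil))) 
(.lf (nat_lit 517114) (.g (nat_lit 4195) (.e (nat_lit 196666) (nat_lit 13) (.e (nat_lit 65610) (nat_lit 10) (.e (nat_lit 344117) (nat_lit 21) (.e (nat_lit 516151) (nat_lit 9) (.e (nat_lit 426037) (nat_lit 0) (.e (nat_lit 3366) (nat_lit 208) (.e (nat_lit 622625) (nat_lit 13) (.e (nat_lit 2663) (nat_lit 167) .nil)))))))) (.g (nat_lit 1) (.e (nat_lit 216001) (nat_lit 0) .nil) .nil)))))))))) 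
(.nd (nat_lit 3) (.nd (nat_lit 4) (.nd (nat_lit 5) (.nd (nat_lit 6) (.nd (nat_lit 7) 
(.nd (nat_lit 8) (.nd (nat_lit 9) 
(.lf (nat_lit 516102) (.g (nat_lit 1634) (.e (nat_lit 196654) (nat_lit 11) (.e (nat_lit 16466) (nat_lit 13) (.e (nat_lit 483337) (nat_lit 9) (.e (nat_lit 426105) (nat_lit 1) .nil)))) (.g (nat_lit 0) (.e (nat_lit 214239) (nat_lit 0) .nil) .nil))) 
(.lf (nat_lit 516614) (.g (nat_lit 3260) (.e (nat_lit 196666) (nat_lit 13) (.e (nat_lit 65610) (nat_lit 10) (.e (nat_lit 344117) (nat_lit 21) (.e (nat_lit 516097) (nat_lit 0) (.e (nat_lit 3358) (nat_lit 207) .nil))))) (.g (nat_lit 0) (.e (nat_lit 215360) (nat_lit 0) .nil) .nil)))) (.nd (nat_lit 9) 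
(.lf (nat_lit 516358) (.g (nat_lit 1671) (.e (nat_lit 196663) (nat_lit 13) (.e (nat_lit 65625) (nat_lit 13) (.e (nat_lit 393229) (nat_lit 9) (.e (nat_lit 335995) (nat_lit 1) (.e (nat_lit 57931) (nat_lit 282) .nil))))) (.g (nat_lit 0) (.e (nat_lit 214838) (nat_lit 0) .nil) .nil))) 
(.lf (nat_lit 516870) (.g (nat_lit 4907) (.e (nat_lit 196666) (nat_lit 13) (.e (nat_lit 65610) (nat_lit 10) (.e (nat_lit 344117) (nat_lit 21) (.e (nat_lit 516151) (nat_lit 9) (.e (nat_lit 426017) (nat_lit 0) (.e (nat_lit 3368) (nat_lit 208) (.e (nat_lit 622625) (nat_lit 13) (.e (nat_lit 2663) (nat_lit 167) .nil)))))))) (.g (nat_lit 1) (.e (nat_lit 215757) (nat_lit 0) .nil) .nil))))) 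
(.nd (nat_lit 8) (.nd (nat_lit 9) 
(.lf (nat_lit 516230) (.g (nat_lit 2162) (.e (nat_lit 196656) (nat_lit 11) (.e (nat_lit 16438) (nat_lit 9) (.e (nat_lit 426482) (nat_lit 27) (.e (nat_lit 336412) (nat_lit 27) (.e (nat_lit 426098) (nat_lit 1) .nil))))) (.g (nat_lit 0) (.e (nat_lit 214536) (nat_lit 0) .nil) .nil))) 
(.lf (nat_lit 516742) (.g (nat_lit 3561) (.e (nat_lit 196666) (nat_lit 13) (.e (nat_lit 65610) (nat_lit 10) (.e (nat_lit 344117) (nat_lit 21) (.e (nat_lit 516138) (nat_lit 7) (.e (nat_lit 409616) (nat_lit 10) (.e (nat_lit 5627) (nat_lit 312) (.e (nat_lit 2668) (nat_lit 167) .nil))))))) (.g (nat_lit 1) (.e (nat_lit 215627) (nat_lit 0) .nil) .nil)))) (.nd (nat_lit 9) 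
(.lf (nat_lit 516486) (.g (nat_lit 2227) (.e (nat_lit 196665) (nat_lit 13) (.e (nat_lit 65625) (nat_lit 13) (.e (nat_lit 393225) (nat_lit 9) (.e (nat_lit 335995) (nat_lit 1) (.e (nat_lit 57924) (nat_lit 282) (.e (nat_lit 163867) (nat_lit 2) .nil)))))) (.g (nat_lit 1) (.e (nat_lit 215021) (nat_lit 0) .nil) .nil))) 
(.lf (nat_lit 516998) (.g (nat_lit 5060) (.e (nat_lit 196666) (nat_lit 13) (.e (nat_lit 65610) (nat_lit 10) (.e (nat_lit 344117) (nat_lit 21) (.e (nat_lit 516151) (nat_lit 9) (.e (nat_lit 426021) (nat_lit 0) (.e (nat_lit 3372) (nat_lit 208) (.e (nat_lit 622626) (nat_lit 13) (.e (nat_lit 2663) (nat_lit 167) .nil)))))))) (.g (nat_lit 1) (.e (nat_lit 215885) (nat_lit 0) .nil) .nil)))))) 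
(.nd (nat_lit 7) (.nd (nat_lit 8) (.nd (nat_lit 9) 
(.lf (nat_lit 516166) (.g (nat_lit 1398) (.e (nat_lit 196656) (nat_lit 11) (.e (nat_lit 16412) (nat_lit 2) (.e (nat_lit 196654) (nat_lit 11) (.e (nat_lit 16409) (nat_lit 2) .nil)))) (.g (nat_lit 0) (.e (nat_lit 214441) (nat_lit 0) .nil) .nil))) 
(.lf (nat_lit 516678) (.g (nat_lit 2085) (.e (nat_lit 196666) (nat_lit 13) (.e (nat_lit 65610) (nat_lit 10) (.e (nat_lit 344117) (nat_lit 21) (.e (nat_lit 516106) (nat_lit 0) (.e (nat_lit 3338) (nat_lit 205) .nil))))) (.g (nat_lit 0) (.e (nat_lit 215456) (nat_lit 0) .nil) .nil)))) (.nd (nat_lit 9) 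
(.lf (nat_lit 516422) (.g (nat_lit 3207) (.e (nat_lit 196664) (nat_lit 13) (.e (nat_lit 65571) (nat_lit 3) (.e (nat_lit 98342) (nat_lit 20) (.e (nat_lit 221214) (nat_lit 23) (.e (nat_lit 204830) (nat_lit 18) (.e (nat_lit 57927) (nat_lit 282) (.e (nat_lit 163869) (nat_lit 2) .nil))))))) (.g (nat_lit 1) (.e (nat_lit 214916) (nat_lit 0) .nil) .nil))) 
(.lf (nat_lit 516934) (.g (nat_lit 3671) (.e (nat_lit 196666) (nat_lit 13) (.e (nat_lit 65610) (nat_lit 10) (.e (nat_lit 344117) (nat_lit 21) (.e (nat_lit 516151) (nat_lit 9) (.e (nat_lit 426020) (nat_lit 0) (.e (nat_lit 3366) (nat_lit 208) (.e (nat_lit 622624) (nat_lit 13) (.e (nat_lit 2668) (nat_lit 167) .nil)))))))) (.g (nat_lit 1) (.e (nat_lit 215821) (nat_lit 0) .nil) .nil))))) 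
(.nd (nat_lit 8) (.nd (nat_lit 9) 
(.lf (nat_lit 516294) (.g (nat_lit 1412) (.e (nat_lit 196661) (nat_lit 12) (.e (nat_lit 57750) (nat_lit 201) (.e (nat_lit 2856) (nat_lit 184) (.e (nat_lit 426402) (nat_lit 15) .nil)))) (.g (nat_lit 0) (.e (nat_lit 214735) (nat_lit 0) .nil) .nil))) 
(.lf (nat_lit 516806) (.g (nat_lit 3910) (.e (nat_lit 196666) (nat_lit 13) (.e (nat_lit 65610) (nat_lit 10) (.e (nat_lit 344117) (nat_lit 21) (.e (nat_lit 516151) (nat_lit 9) (.e (nat_lit 426017) (nat_lit 0) (.e (nat_lit 2409) (nat_lit 157) (.e (nat_lit 4823) (nat_lit 281) (.e (nat_lit 2477) (nat_lit 157) (.e (nat_lit 2663) (nat_lit 167) .nil))))))))) (.g (nat_lit 1) (.e (nat_lit 215693) (nat_lit 0) .nil) .nil)))) 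
(.nd (nat_lit 9) 
(.lf (nat_lit 516550) (.g (nat_lit 4799) (.e (nat_lit 196666) (nat_lit 13) (.e (nat_lit 65571) (nat_lit 3) (.e (nat_lit 98342) (nat_lit 20) (.e (nat_lit 221215) (nat_lit 23) (.e (nat_lit 204831) (nat_lit 18) (.e (nat_lit 57931) (nat_lit 282) (.e (nat_lit 163869) (nat_lit 2) .nil))))))) (.g (nat_lit 1) (.e (nat_lit 215206) (nat_lit 0) .nil) .nil))) 
(.lf (nat_lit 517062) (.g (nat_lit 3831) (.e (nat_lit 196666) (nat_lit 13) (.e (nat_lit 65610) (nat_lit 10) (.e (nat_lit 344117) (nat_lit 21) (.e (nat_lit 516151) (nat_lit 9) (.e (nat_lit 426034) (nat_lit 0) (.e (nat_lit 3366) (nat_lit 208) (.e (nat_lit 622622) (nat_lit 13) (.e (nat_lit 2668) (nat_lit 167) .nil)))))))) (.g (nat_lit 1) (.e (nat_lit 215949) (nat_lit 0) .nil) .nil))))))) 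
(.nd (nat_lit 6) (.nd (nat_lit 7) (.nd (nat_lit 8) (.nd (nat_lit 9) 
(.lf (nat_lit 516134) (.g (nat_lit 1370) (.e (nat_lit 196655) (nat_lit 11) (.e (nat_lit 16435) (nat_lit 9) (.e (nat_lit 426567) (nat_lit 34) (.e (nat_lit 393254) (nat_lit 18) (.e (nat_lit 164332) (nat_lit 230) .nil))))) (.g (nat_lit 0) (.e (nat_lit 214330) (nat_lit 0) .nil) .nil))) 
(.lf (nat_lit 516646) (.g (nat_lit 2355) (.e (nat_lit 196666) (nat_lit 13) (.e (nat_lit 65610) (nat_lit 10) (.e (nat_lit 344117) (nat_lit 21) (.e (nat_lit 516099) (nat_lit 0) (.e (nat_lit 2497) (nat_lit 157) .nil))))) (.g (nat_lit 0) (.e (nat_lit 215397) (nat_lit 0) .nil) .nil)))) (.nd (nat_lit 9) 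
(.lf (nat_lit 516390) (.g (nat_lit 2197) (.e (nat_lit 196663) (nat_lit 13) (.e (nat_lit 65630) (nat_lit 14) (.e (nat_lit 401428) (nat_lit 3) (.e (nat_lit 204861) (nat_lit 26) (.e (nat_lit 335892) (nat_lit 0) .nil))))) (.g (nat_lit 0) (.e (nat_lit 214873) (nat_lit 0) .nil) .nil))) 
(.lf (nat_lit 516902) (.g (nat_lit 3604) (.e (nat_lit 196666) (nat_lit 13) (.e (nat_lit 65610) (nat_lit 10) (.e (nat_lit 344117) (nat_lit 21) (.e (nat_lit 516151) (nat_lit 9) (.e (nat_lit 426018) (nat_lit 0) (.e (nat_lit 2412) (nat_lit 157) (.e (nat_lit 4847) (nat_lit 285) (.e (nat_lit 163870) (nat_lit 2) .nil)))))))) (.g (nat_lit 1) (.e (nat_lit 215789) (nat_lit 0) .nil) .nil))))) 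
(.nd (nat_lit 8) (.nd (nat_lit 9) 
(.lf (nat_lit 516262) (.g (nat_lit 1553) (.e (nat_lit 196656) (nat_lit 11) (.e (nat_lit 16465) (nat_lit 13) (.e (nat_lit 483341) (nat_lit 9) (.e (nat_lit 426099) (nat_lit 1) .nil)))) (.g (nat_lit 0) (.e (nat_lit 214674) (nat_lit 0) .nil) .nil))) 
(.lf (nat_lit 516774) (.g (nat_lit 3397) (.e (nat_lit 196666) (nat_lit 13) (.e (nat_lit 65610) (nat_lit 10) (.e (nat_lit 344117) (nat_lit 21) (.e (nat_lit 516142) (nat_lit 8) (.e (nat_lit 417817) (nat_lit 10) (.e (nat_lit 5647) (nat_lit 312) (.e (nat_lit 2654) (nat_lit 167) .nil))))))) (.g (nat_lit 1) (.e (nat_lit 215659) (nat_lit 0) .nil) .nil)))) (.nd (nat_lit 9) 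
(.lf (nat_lit 516518) (.g (nat_lit 2607) (.e (nat_lit 196666) (nat_lit 13) (.e (nat_lit 65569) (nat_lit 3) (.e (nat_lit 98333) (nat_lit 18) (.e (nat_lit 164179) (nat_lit 154) (.e (nat_lit 57379) (nat_lit 3) .nil))))) (.g (nat_lit 0) (.e (nat_lit 215082) (nat_lit 0) .nil) .nil))) 
(.lf (nat_lit 517030) (.g (nat_lit 2495) (.e (nat_lit 196666) (nat_lit 13) (.e (nat_lit 65610) (nat_lit 10) (.e (nat_lit 344117) (nat_lit 21) (.e (nat_lit 516151) (nat_lit 9) (.e (nat_lit 426023) (nat_lit 0) (.e (nat_lit 7936) (nat_lit 208) (.e (nat_lit 622627) (nat_lit 13) (.e (nat_lit 2665) (nat_lit 167) .nil)))))))) (.g (nat_lit 1) (.e (nat_lit 215917) (nat_lit 0) .nil) .nil)))))) 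
(.nd (nat_lit 7) (.nd (nat_lit 8) (.nd (nat_lit 9) 
(.lf (nat_lit 516198) (.g (nat_lit 1763) (.e (nat_lit 196656) (nat_lit 11) (.e (nat_lit 16436) (nat_lit 9) (.e (nat_lit 426131) (nat_lit 3) (.e (nat_lit 204852) (nat_lit 26) (.e (nat_lit 336258) (nat_lit 15) .nil))))) (.g (nat_lit 0) (.e (nat_lit 214497) (nat_lit 0) .nil) .nil))) 
(.lf (nat_lit 516710) (.g (nat_lit 2544) (.e (nat_lit 196666) (nat_lit 13) (.e (nat_lit 65610) (nat_lit 10) (.e (nat_lit 344117) (nat_lit 21) (.e (nat_lit 516106) (nat_lit 0) (.e (nat_lit 7038) (nat_lit 377) .nil))))) (.g (nat_lit 0) (.e (nat_lit 215525) (nat_lit 0) .nil) .nil)))) (.nd (nat_lit 9) 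
(.lf (nat_lit 516454) (.g (nat_lit 2813) (.e (nat_lit 196665) (nat_lit 13) (.e (nat_lit 65589) (nat_lit 9) (.e (nat_lit 336013) (nat_lit 2) (.e (nat_lit 90165) (nat_lit 12) (.e (nat_lit 171776) (nat_lit 176) .nil))))) (.g (nat_lit 0) (.e (nat_lit 214959) (nat_lit 0) .nil) .nil))) 
(.lf (nat_lit 516966) (.g (nat_lit 3687) (.e (nat_lit 196666) (nat_lit 13) (.e (nat_lit 65610) (nat_lit 10) (.e (nat_lit 344117) (nat_lit 21) (.e (nat_lit 516151) (nat_lit 9) (.e (nat_lit 426020) (nat_lit 0) (.e (nat_lit 7936) (nat_lit 208) (.e (nat_lit 622622) (nat_lit 13) (.e (nat_lit 2662) (nat_lit 167) .nil)))))))) (.g (nat_lit 1) (.e (nat_lit 215853) (nat_lit 0) .nil) .nil))))) 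
(.nd (nat_lit 8) (.nd (nat_lit 9) 
(.lf (nat_lit 516326) (.g (nat_lit 2351) (.e (nat_lit 196663) (nat_lit 13) (.e (nat_lit 65571) (nat_lit 3) (.e (nat_lit 98333) (nat_lit 18) (.e (nat_lit 164182) (nat_lit 154) (.e (nat_lit 57379) (nat_lit 3) .nil))))) (.g (nat_lit 0) (.e (nat_lit 214793) (nat_lit 0) .nil) .nil))) 
(.lf (nat_lit 516838) (.g (nat_lit 3535) (.e (nat_lit 196666) (nat_lit 13) (.e (nat_lit 65610) (nat_lit 10) (.e (nat_lit 344117) (nat_lit 21) (.e (nat_lit 516151) (nat_lit 9) (.e (nat_lit 426017) (nat_lit 0) (.e (nat_lit 2412) (nat_lit 157) (.e (nat_lit 4825) (nat_lit 281) (.e (nat_lit 2416) (nat_lit 157) (.e (nat_lit 2666) (nat_lit 167) .nil))))))))) (.g (nat_lit 1) (.e (nat_lit 215725) (nat_lit 0) .nil) .nil)))) 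
(.nd (nat_lit 9) 
(.lf (nat_lit 516582) (.g (nat_lit 2906) (.e (nat_lit 196666) (nat_lit 13) (.e (nat_lit 65604) (nat_lit 9) (.e (nat_lit 336028) (nat_lit 3) (.e (nat_lit 98350) (nat_lit 24) (.e (nat_lit 409623) (nat_lit 10) .nil))))) (.g (nat_lit 0) (.e (nat_lit 215279) (nat_lit 0) .nil) .nil))) 
(.lf (nat_lit 517094) (.g (nat_lit 3362) (.e (nat_lit 196666) (nat_lit 13) (.e (nat_lit 65610) (nat_lit 10) (.e (nat_lit 344117) (nat_lit 21) (.e (nat_lit 516151) (nat_lit 9) (.e (nat_lit 426037) (nat_lit 0) (.e (nat_lit 2422) (nat_lit 157) (.e (nat_lit 4850) (nat_lit 286) (.e (nat_lit 229387) (nat_lit 2) .nil)))))))) (.g (nat_lit 1) (.e (nat_lit 215981) (nat_lit 0) .nil) .nil)))))))) 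
(.nd (nat_lit 5) (.nd (nat_lit 6) (.nd (nat_lit 7) (.nd (nat_lit 8) (.nd (nat_lit 9) 
(.lf (nat_lit 516118) (.g (nat_lit 2155) (.e (nat_lit 196654) (nat_lit 11) (.e (nat_lit 16470) (nat_lit 14) (.e (nat_lit 491540) (nat_lit 3) .nil))) (.g (nat_lit 0) (.e (nat_lit 214270) (nat_lit 0) .nil) .nil))) 
(.lf (nat_lit 516630) (.g (nat_lit 2252) (.e (nat_lit 196666) (nat_lit 13) (.e (nat_lit 65610) (nat_lit 10) (.e (nat_lit 344117) (nat_lit 21) (.e (nat_lit 516098) (nat_lit 0) (.e (nat_lit 2405) (nat_lit 157) .nil))))) (.g (nat_lit 0) (.e (nat_lit 215380) (nat_lit 0) .nil) .nil)))) (.nd (nat_lit 9) 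
(.lf (nat_lit 516374) (.g (nat_lit 3779) (.e (nat_lit 196663) (nat_lit 13) (.e (nat_lit 65630) (nat_lit 14) (.e (nat_lit 401425) (nat_lit 2) (.e (nat_lit 196681) (nat_lit 17) (.e (nat_lit 131072) (nat_lit 0) (.e (nat_lit 6696) (nat_lit 357) (.e (nat_lit 2667) (nat_lit 167) .nil))))))) (.g (nat_lit 1) (.e (nat_lit 214856) (nat_lit 0) .nil) .nil))) 
(.lf (nat_lit 516886) (.g (nat_lit 4610) (.e (nat_lit 196666) (nat_lit 13) (.e (nat_lit 65610) (nat_lit 10) (.e (nat_lit 344117) (nat_lit 21) (.e (nat_lit 516151) (nat_lit 9) (.e (nat_lit 426017) (nat_lit 0) (.e (nat_lit 3373) (nat_lit 208) (.e (nat_lit 630528) (nat_lit 13) (.e (nat_lit 2666) (nat_lit 167) .nil)))))))) (.g (nat_lit 1) (.e (nat_lit 215773) (nat_lit 0) .nil) .nil))))) 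
(.nd (nat_lit 8) (.nd (nat_lit 9) 
(.lf (nat_lit 516246) (.g (nat_lit 1051) (.e (nat_lit 196656) (nat_lit 11) (.e (nat_lit 16448) (nat_lit 10) (.e (nat_lit 434234) (nat_lit 23) (.e (nat_lit 532531) (nat_lit 9) .nil)))) (.g (nat_lit 0) (.e (nat_lit 214608) (nat_lit 0) .nil) .nil))) 
(.lf (nat_lit 516758) (.g (nat_lit 3164) (.e (nat_lit 196666) (nat_lit 13) (.e (nat_lit 65610) (nat_lit 10) (.e (nat_lit 344117) (nat_lit 21) (.e (nat_lit 516139) (nat_lit 7) (.e (nat_lit 409617) (nat_lit 10) (.e (nat_lit 5665) (nat_lit 312) (.e (nat_lit 2661) (nat_lit 167) .nil))))))) (.g (nat_lit 1) (.e (nat_lit 215643) (nat_lit 0) .nil) .nil)))) (.nd (nat_lit 9) 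
(.lf (nat_lit 516502) (.g (nat_lit 1963) (.e (nat_lit 196665) (nat_lit 13) (.e (nat_lit 65628) (nat_lit 14) (.e (nat_lit 401425) (nat_lit 2) (.e (nat_lit 196668) (nat_lit 14) .nil)))) (.g (nat_lit 0) (.e (nat_lit 215040) (nat_lit 0) .nil) .nil))) 
(.lf (nat_lit 517014) (.g (nat_lit 3895) (.e (nat_lit 196666) (nat_lit 13) (.e (nat_lit 65610) (nat_lit 10) (.e (nat_lit 344117) (nat_lit 21) (.e (nat_lit 516151) (nat_lit 9) (.e (nat_lit 426022) (nat_lit 0) (.e (nat_lit 2402) (nat_lit 157) (.e (nat_lit 4830) (nat_lit 281) (.e (nat_lit 2416) (nat_lit 157) (.e (nat_lit 2666) (nat_lit 167) .nil))))))))) (.g (nat_lit 1) (.e (nat_lit 215901) (nat_lit 0) .nil) .nil)))))) 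
(.nd (nat_lit 7) (.nd (nat_lit 8) (.nd (nat_lit 9) 
(.lf (nat_lit 516182) (.g (nat_lit 397) (.e (nat_lit 196656) (nat_lit 11) (.e (nat_lit 16425) (nat_lit 7) (.e (nat_lit 409616) (nat_lit 10) .nil))) (.g (nat_lit 0) (.e (nat_lit 214476) (nat_lit 0) .nil) .nil))) 
(.lf (nat_lit 516694) (.g (nat_lit 3299) (.e (nat_lit 196666) (nat_lit 13) (.e (nat_lit 65610) (nat_lit 10) (.e (nat_lit 344117) (nat_lit 21) (.e (nat_lit 516106) (nat_lit 0) (.e (nat_lit 6986) (nat_lit 377) (.e (nat_lit 2514) (nat_lit 157) (.e (nat_lit 5612) (nat_lit 312) (.e (nat_lit 2668) (nat_lit 167) .nil)))))))) (.g (nat_lit 1) (.e (nat_lit 215509) (nat_lit 0) .nil) .nil)))) 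
(.nd (nat_lit 9) 
(.lf (nat_lit 516438) (.g (nat_lit 2687) (.e (nat_lit 196664) (nat_lit 13) (.e (nat_lit 65630) (nat_lit 14) (.e (nat_lit 401425) (nat_lit 2) (.e (nat_lit 196661) (nat_lit 12) .nil)))) (.g (nat_lit 0) (.e (nat_lit 214936) (nat_lit 0) .nil) .nil))) 
(.lf (nat_lit 516950) (.g (nat_lit 4041) (.e (nat_lit 196666) (nat_lit 13) (.e (nat_lit 65610) (nat_lit 10) (.e (nat_lit 344117) (nat_lit 21) (.e (nat_lit 516151) (nat_lit 9) (.e (nat_lit 426020) (nat_lit 0) (.e (nat_lit 3368) (nat_lit 208) (.e (nat_lit 622627) (nat_lit 13) (.e (nat_lit 2663) (nat_lit 167) .nil)))))))) (.g (nat_lit 1) (.e (nat_lit 215837) (nat_lit 0) .nil) .nil))))) 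
(.nd (nat_lit 8) (.nd (nat_lit 9) 
(.lf (nat_lit 516310) (.g (nat_lit 1678) (.e (nat_lit 196662) (nat_lit 13) (.e (nat_lit 65630) (nat_lit 14) (.e (nat_lit 401428) (nat_lit 3) (.e (nat_lit 204863) (nat_lit 27) .nil)))) (.g (nat_lit 0) (.e (nat_lit 214769) (nat_lit 0) .nil) .nil))) 
(.lf (nat_lit 516822) (.g (nat_lit 3633) (.e (nat_lit 196666) (nat_lit 13) (.e (nat_lit 65610) (nat_lit 10) (.e (nat_lit 344117) (nat_lit 21) (.e (nat_lit 516151) (nat_lit 9) (.e (nat_lit 426017) (nat_lit 0) (.e (nat_lit 2431) (nat_lit 157) (.e (nat_lit 4849) (nat_lit 285) (.e (nat_lit 163869) (nat_lit 2) .nil)))))))) (.g (nat_lit 1) (.e (nat_lit 215709) (nat_lit 0) .nil) .nil)))) 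
(.nd (nat_lit 9) 
(.lf (nat_lit 516566) (.g (nat_lit 1117) (.e (nat_lit 196666) (nat_lit 13) (.e (nat_lit 65599) (nat_lit 9) (.e (nat_lit 336013) (nat_lit 2) (.e (nat_lit 90165) (nat_lit 12) .nil)))) (.g (nat_lit 0) (.e (nat_lit 215249) (nat_lit 0) .nil) .nil))) 
(.lf (nat_lit 517078) (.g (nat_lit 5212) (.e (nat_lit 196666) (nat_lit 13) (.e (nat_lit 65610) (nat_lit 10) (.e (nat_lit 344117) (nat_lit 21) (.e (nat_lit 516151) (nat_lit 9) (.e (nat_lit 426034) (nat_lit 0) (.e (nat_lit 3370) (nat_lit 208) (.e (nat_lit 622625) (nat_lit 13) (.e (nat_lit 2663) (nat_lit 167) .nil)))))))) (.g (nat_lit 1) (.e (nat_lit 215965) (nat_lit 0) .nil) .nil))))))) 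
(.nd (nat_lit 6) (.nd (nat_lit 7) (.nd (nat_lit 8) (.nd (nat_lit 9) 
(.lf (nat_lit 516150) (.g (nat_lit 1028) (.e (nat_lit 196655) (nat_lit 11) (.e (nat_lit 16473) (nat_lit 14) (.e (nat_lit 491526) (nat_lit 0) .nil))) (.g (nat_lit 0) (.e (nat_lit 214400) (nat_lit 0) .nil) .nil))) 
(.lf (nat_lit 516662) (.g (nat_lit 2584) (.e (nat_lit 196666) (nat_lit 13) (.e (nat_lit 65610) (nat_lit 10) (.e (nat_lit 344117) (nat_lit 21) (.e (nat_lit 516106) (nat_lit 0) (.e (nat_lit 2422) (nat_lit 157) .nil))))) (.g (nat_lit 0) (.e (nat_lit 215417) (nat_lit 0) .nil) .nil)))) (.nd (nat_lit 9) 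
(.lf (nat_lit 516406) (.g (nat_lit 2545) (.e (nat_lit 196664) (nat_lit 13) (.e (nat_lit 65571) (nat_lit 3) (.e (nat_lit 98334) (nat_lit 18) (.e (nat_lit 164182) (nat_lit 154) (.e (nat_lit 57378) (nat_lit 3) .nil))))) (.g (nat_lit 0) (.e (nat_lit 214900) (nat_lit 0) .nil) .nil))) 
(.lf (nat_lit 516918) (.g (nat_lit 4449) (.e (nat_lit 196666) (nat_lit 13) (.e (nat_lit 65610) (nat_lit 10) (.e (nat_lit 344117) (nat_lit 21) (.e (nat_lit 516151) (nat_lit 9) (.e (nat_lit 426019) (nat_lit 0) (.e (nat_lit 3373) (nat_lit 208) (.e (nat_lit 622626) (nat_lit 13) (.e (nat_lit 2663) (nat_lit 167) .nil)))))))) (.g (nat_lit 1) (.e (nat_lit 215805) (nat_lit 0) .nil) .nil))))) 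
(.nd (nat_lit 8) (.nd (nat_lit 9) 
(.lf (nat_lit 516278) (.g (nat_lit 2441) (.e (nat_lit 196656) (nat_lit 11) (.e (nat_lit 16473) (nat_lit 14) (.e (nat_lit 491526) (nat_lit 0) (.e (nat_lit 1840) (nat_lit 123) .nil)))) (.g (nat_lit 0) (.e (nat_lit 214694) (nat_lit 0) .nil) .nil))) 
(.lf (nat_lit 516790) (.g (nat_lit 3834) (.e (nat_lit 196666) (nat_lit 13) (.e (nat_lit 65610) (nat_lit 10) (.e (nat_lit 344117) (nat_lit 21) (.e (nat_lit 516151) (nat_lit 9) (.e (nat_lit 426017) (nat_lit 0) (.e (nat_lit 2398) (nat_lit 157) (.e (nat_lit 4829) (nat_lit 281) (.e (nat_lit 2416) (nat_lit 157) (.e (nat_lit 2666) (nat_lit 167) .nil))))))))) (.g (nat_lit 1) (.e (nat_lit 215677) (nat_lit 0) .nil) .nil)))) 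
(.nd (nat_lit 9) 
(.lf (nat_lit 516534) (.g (nat_lit 1328) (.e (nat_lit 196666) (nat_lit 13) (.e (nat_lit 65569) (nat_lit 3) (.e (nat_lit 98342) (nat_lit 20) (.e (nat_lit 221214) (nat_lit 23) .nil)))) (.g (nat_lit 0) (.e (nat_lit 215149) (nat_lit 0) .nil) .nil))) 
(.lf (nat_lit 517046) (.g (nat_lit 4316) (.e (nat_lit 196666) (nat_lit 13) (.e (nat_lit 65610) (nat_lit 10) (.e (nat_lit 344117) (nat_lit 21) (.e (nat_lit 516151) (nat_lit 9) (.e (nat_lit 426034) (nat_lit 0) (.e (nat_lit 2423) (nat_lit 157) (.e (nat_lit 4849) (nat_lit 285) (.e (nat_lit 163870) (nat_lit 2) .nil)))))))) (.g (nat_lit 1) (.e (nat_lit 215933) (nat_lit 0) .nil) .nil)))))) 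
(.nd (nat_lit 7) (.nd (nat_lit 8) (.nd (nat_lit 9) 
(.lf (nat_lit 516214) (.g (nat_lit 2035) (.e (nat_lit 196656) (nat_lit 11) (.e (nat_lit 16436) (nat_lit 9) (.e (nat_lit 426131) (nat_lit 3) (.e (nat_lit 204882) (nat_lit 32) (.e (nat_lit 392960) (nat_lit 51) (.e (nat_lit 794669) (nat_lit 22) .nil)))))) (.g (nat_lit 1) (.e (nat_lit 214519) (nat_lit 0) .nil) .nil))) 
(.lf (nat_lit 516726) (.g (nat_lit 2748) (.e (nat_lit 196666) (nat_lit 13) (.e (nat_lit 65610) (nat_lit 10) (.e (nat_lit 344117) (nat_lit 21) (.e (nat_lit 516106) (nat_lit 0) (.e (nat_lit 7936) (nat_lit 381) (.e (nat_lit 229686) (nat_lit 246) (.e (nat_lit 2661) (nat_lit 167) .nil))))))) (.g (nat_lit 1) (.e (nat_lit 215541) (nat_lit 0) .nil) .nil)))) (.nd (nat_lit 9) 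
(.lf (nat_lit 516470) (.g (nat_lit 2816) (.e (nat_lit 196665) (nat_lit 13) (.e (nat_lit 65608) (nat_lit 9) (.e (nat_lit 336021) (nat_lit 3) (.e (nat_lit 98350) (nat_lit 24) (.e (nat_lit 409645) (nat_lit 18) .nil))))) (.g (nat_lit 0) (.e (nat_lit 214989) (nat_lit 0) .nil) .nil))) 
(.lf (nat_lit 516982) (.g (nat_lit 3864) (.e (nat_lit 196666) (nat_lit 13) (.e (nat_lit 65610) (nat_lit 10) (.e (nat_lit 344117) (nat_lit 21) (.e (nat_lit 516151) (nat_lit 9) (.e (nat_lit 426021) (nat_lit 0) (.e (nat_lit 3367) (nat_lit 208) (.e (nat_lit 622621) (nat_lit 13) (.e (nat_lit 2668) (nat_lit 167) .nil)))))))) (.g (nat_lit 1) (.e (nat_lit 215869) (nat_lit 0) .nil) .nil))))) 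
(.nd (nat_lit 8) (.nd (nat_lit 9) 
(.lf (nat_lit 516342) (.g (nat_lit 1617) (.e (nat_lit 196663) (nat_lit 13) (.e (nat_lit 65571) (nat_lit 3) (.e (nat_lit 98342) (nat_lit 20) (.e (nat_lit 221214) (nat_lit 23) .nil)))) (.g (nat_lit 0) (.e (nat_lit 214815) (nat_lit 0) .nil) .nil))) 
(.lf (nat_lit 516854) (.g (nat_lit 3639) (.e (nat_lit 196666) (nat_lit 13) (.e (nat_lit 65610) (nat_lit 10) (.e (nat_lit 344117) (nat_lit 21) (.e (nat_lit 516151) (nat_lit 9) (.e (nat_lit 426017) (nat_lit 0) (.e (nat_lit 3366) (nat_lit 208) (.e (nat_lit 622622) (nat_lit 13) (.e (nat_lit 2668) (nat_lit 167) .nil)))))))) (.g (nat_lit 1) (.e (nat_lit 215741) (nat_lit 0) .nil) .nil)))) 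
(.nd (nat_lit 9) 
(.lf (nat_lit 516598) (.g (nat_lit 3371) (.e (nat_lit 196666) (nat_lit 13) (.e (nat_lit 65610) (nat_lit 10) (.e (nat_lit 344117) (nat_lit 21) (.e (nat_lit 516097) (nat_lit 0) (.e (nat_lit 2418) (nat_lit 157) .nil))))) (.g (nat_lit 0) (.e (nat_lit 215312) (nat_lit 0) .nil) .nil))) 
(.lf (nat_lit 517110) (.g (nat_lit 3446) (.e (nat_lit 196666) (nat_lit 13) (.e (nat_lit 65610) (nat_lit 10) (.e (nat_lit 344117) (nat_lit 21) (.e (nat_lit 516151) (nat_lit 9) (.e (nat_lit 426037) (nat_lit 0) (.e (nat_lit 3366) (nat_lit 208) (.e (nat_lit 622620) (nat_lit 13) (.e (nat_lit 2666) (nat_lit 167) .nil)))))))) (.g (nat_lit 1) (.e (nat_lit 215997) (nat_lit 0) .nil) .nil))))))))) 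
(.nd (nat_lit 4) (.nd (nat_lit 5) (.nd (nat_lit 6) (.nd (nat_lit 7) (.nd (nat_lit 8) 
(.nd (nat_lit 9) 
(.lf (nat_lit 516110) (.g (nat_lit 3161) (.e (nat_lit 196654) (nat_lit 11) (.e (nat_lit 16466) (nat_lit 13) (.e (nat_lit 483341) (nat_lit 9) (.e (nat_lit 426100) (nat_lit 1) (.e (nat_lit 164330) (nat_lit 230) (.e (nat_lit 163866) (nat_lit 2) .nil)))))) (.g (nat_lit 1) (.e (nat_lit 214248) (nat_lit 0) .nil) .nil))) 
(.lf (nat_lit 516622) (.g (nat_lit 3769) (.e (nat_lit 196666) (nat_lit 13) (.e (nat_lit 65610) (nat_lit 10) (.e (nat_lit 344117) (nat_lit 21) (.e (nat_lit 516097) (nat_lit 0) (.e (nat_lit 7073) (nat_lit 377) (.e (nat_lit 2797) (nat_lit 180) (.e (nat_lit 303116) (nat_lit 2) .nil))))))) (.g (nat_lit 1) (.e (nat_lit 215368) (nat_lit 0) .nil) .nil)))) (.nd (nat_lit 9) 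
(.lf (nat_lit 516366) (.g (nat_lit 2461) (.e (nat_lit 196663) (nat_lit 13) (.e (nat_lit 65630) (nat_lit 14) (.e (nat_lit 401425) (nat_lit 2) (.e (nat_lit 196667) (nat_lit 14) (.e (nat_lit 81664) (nat_lit 32) .nil))))) (.g (nat_lit 0) (.e (nat_lit 214848) (nat_lit 0) .nil) .nil))) 
(.lf (nat_lit 516878) (.g (nat_lit 3511) (.e (nat_lit 196666) (nat_lit 13) (.e (nat_lit 65610) (nat_lit 10) (.e (nat_lit 344117) (nat_lit 21) (.e (nat_lit 516151) (nat_lit 9) (.e (nat_lit 426017) (nat_lit 0) (.e (nat_lit 3372) (nat_lit 208) (.e (nat_lit 622627) (nat_lit 13) (.e (nat_lit 2666) (nat_lit 167) .nil)))))))) (.g (nat_lit 1) (.e (nat_lit 215765) (nat_lit 0) .nil) .nil))))) 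
(.nd (nat_lit 8) (.nd (nat_lit 9) 
(.lf (nat_lit 516238) (.g (nat_lit 2703) (.e (nat_lit 196656) (nat_lit 11) (.e (nat_lit 16448) (nat_lit 10) (.e (nat_lit 434231) (nat_lit 23) (.e (nat_lit 532529) (nat_lit 9) (.e (nat_lit 336258) (nat_lit 15) (.e (nat_lit 3774) (nat_lit 229) (.e (nat_lit 794666) (nat_lit 22) .nil))))))) (.g (nat_lit 1) (.e (nat_lit 214596) (nat_lit 0) .nil) .nil))) 
(.lf (nat_lit 516750) (.g (nat_lit 3501) (.e (nat_lit 196666) (nat_lit 13) (.e (nat_lit 65610) (nat_lit 10) (.e (nat_lit 344117) (nat_lit 21) (.e (nat_lit 516139) (nat_lit 7) (.e (nat_lit 409612) (nat_lit 10) (.e (nat_lit 7936) (nat_lit 312) (.e (nat_lit 2666) (nat_lit 167) .nil))))))) (.g (nat_lit 1) (.e (nat_lit 215635) (nat_lit 0) .nil) .nil)))) (.nd (nat_lit 9) 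
(.lf (nat_lit 516494) (.g (nat_lit 4073) (.e (nat_lit 196665) (nat_lit 13) (.e (nat_lit 65626) (nat_lit 13) (.e (nat_lit 393225) (nat_lit 9) (.e (nat_lit 335995) (nat_lit 1) (.e (nat_lit 57931) (nat_lit 282) (.e (nat_lit 163867) (nat_lit 2) .nil)))))) (.g (nat_lit 1) (.e (nat_lit 215030) (nat_lit 0) .nil) .nil))) 
(.lf (nat_lit 517006) (.g (nat_lit 4157) (.e (nat_lit 196666) (nat_lit 13) (.e (nat_lit 65610) (nat_lit 10) (.e (nat_lit 344117) (nat_lit 21) (.e (nat_lit 516151) (nat_lit 9) (.e (nat_lit 426021) (nat_lit 0) (.e (nat_lit 3373) (nat_lit 208) (.e (nat_lit 630528) (nat_lit 13) (.e (nat_lit 2666) (nat_lit 167) .nil)))))))) (.g (nat_lit 1) (.e (nat_lit 215893) (nat_lit 0) .nil) .nil)))))) 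
(.nd (nat_lit 7) (.nd (nat_lit 8) (.nd (nat_lit 9) 
(.lf (nat_lit 516174) (.g (nat_lit 2928) (.e (nat_lit 196656) (nat_lit 11) (.e (nat_lit 16416) (nat_lit 3) (.e (nat_lit 204809) (nat_lit 9) (.e (nat_lit 426124) (nat_lit 2) (.e (nat_lit 196654) (nat_lit 11) (.e (nat_lit 16411) (nat_lit 2) .nil)))))) (.g (nat_lit 1) (.e (nat_lit 214462) (nat_lit 0) .nil) .nil))) 
(.lf (nat_lit 516686) (.g (nat_lit 4018) (.e (nat_lit 196666) (nat_lit 13) (.e (nat_lit 65610) (nat_lit 10) (.e (nat_lit 344117) (nat_lit 21) (.e (nat_lit 516106) (nat_lit 0) (.e (nat_lit 6986) (nat_lit 377) (.e (nat_lit 2400) (nat_lit 157) (.e (nat_lit 7936) (nat_lit 312) (.e (nat_lit 2666) (nat_lit 167) .nil)))))))) (.g (nat_lit 1) (.e (nat_lit 215501) (nat_lit 0) .nil) .nil)))) 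
(.nd (nat_lit 9) 
(.lf (nat_lit 516430) (.g (nat_lit 1954) (.e (nat_lit 196664) (nat_lit 13) (.e (nat_lit 65619) (nat_lit 10) (.e (nat_lit 344117) (nat_lit 21) (.e (nat_lit 516097) (nat_lit 0) (.e (nat_lit 7073) (nat_lit 377) .nil))))) (.g (nat_lit 0) (.e (nat_lit 214927) (nat_lit 0) .nil) .nil))) 
(.lf (nat_lit 516942) (.g (nat_lit 4792) (.e (nat_lit 196666) (nat_lit 13) (.e (nat_lit 65610) (nat_lit 10) (.e (nat_lit 344117) (nat_lit 21) (.e (nat_lit 516151) (nat_lit 9) (.e (nat_lit 426020) (nat_lit 0) (.e (nat_lit 3367) (nat_lit 208) (.e (nat_lit 622625) (nat_lit 13) (.e (nat_lit 2663) (nat_lit 167) .nil)))))))) (.g (nat_lit 1) (.e (nat_lit 215829) (nat_lit 0) .nil) .nil))))) 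
(.nd (nat_lit 8) (.nd (nat_lit 9) 
(.lf (nat_lit 516302) (.g (nat_lit 1839) (.e (nat_lit 196662) (nat_lit 13) (.e (nat_lit 65610) (nat_lit 10) (.e (nat_lit 344129) (nat_lit 26) (.e (nat_lit 557070) (nat_lit 9) .nil)))) (.g (nat_lit 0) (.e (nat_lit 214761) (nat_lit 0) .nil) .nil))) 
(.lf (nat_lit 516814) (.g (nat_lit 4250) (.e (nat_lit 196666) (nat_lit 13) (.e (nat_lit 65610) (nat_lit 10) (.e (nat_lit 344117) (nat_lit 21) (.e (nat_lit 516151) (nat_lit 9) (.e (nat_lit 426017) (nat_lit 0) (.e (nat_lit 2418) (nat_lit 157) (.e (nat_lit 4848) (nat_lit 285) (.e (nat_lit 163870) (nat_lit 2) .nil)))))))) (.g (nat_lit 1) (.e (nat_lit 215701) (nat_lit 0) .nil) .nil)))) 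
(.nd (nat_lit 9) 
(.lf (nat_lit 516558) (.g (nat_lit 1403) (.e (nat_lit 196666) (nat_lit 13) (.e (nat_lit 65598) (nat_lit 9) (.e (nat_lit 336013) (nat_lit 2) (.e (nat_lit 90165) (nat_lit 12) .nil)))) (.g (nat_lit 0) (.e (nat_lit 215236) (nat_lit 0) .nil) .nil))) 
(.lf (nat_lit 517070) (.g (nat_lit 4523) (.e (nat_lit 196666) (nat_lit 13) (.e (nat_lit 65610) (nat_lit 10) (.e (nat_lit 344117) (nat_lit 21) (.e (nat_lit 516151) (nat_lit 9) (.e (nat_lit 426034) (nat_lit 0) (.e (nat_lit 3369) (nat_lit 208) (.e (nat_lit 622625) (nat_lit 13) (.e (nat_lit 2663) (nat_lit 167) .nil)))))))) (.g (nat_lit 1) (.e (nat_lit 215957) (nat_lit 0) .nil) .nil))))))) 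
(.nd (nat_lit 6) (.nd (nat_lit 7) (.nd (nat_lit 8) (.nd (nat_lit 9) 
(.lf (nat_lit 516142) (.g (nat_lit 4182) (.e (nat_lit 196655) (nat_lit 11) (.e (nat_lit 16465) (nat_lit 13) (.e (nat_lit 483341) (nat_lit 9) (.e (nat_lit 426106) (nat_lit 1) (.e (nat_lit 164322) (nat_lit 230) .nil))))) (.g (nat_lit 0) (.e (nat_lit 214385) (nat_lit 0) .nil) .nil))) 
(.lf (nat_lit 516654) (.g (nat_lit 3489) (.e (nat_lit 196666) (nat_lit 13) (.e (nat_lit 65610) (nat_lit 10) (.e (nat_lit 344117) (nat_lit 21) (.e (nat_lit 516102) (nat_lit 0) (.e (nat_lit 6989) (nat_lit 377) (.e (nat_lit 7936) (nat_lit 181) (.e (nat_lit 311311) (nat_lit 2) .nil))))))) (.g (nat_lit 1) (.e (nat_lit 215408) (nat_lit 0) .nil) .nil)))) (.nd (nat_lit 9) 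
(.lf (nat_lit 516398) (.g (nat_lit 1764) (.e (nat_lit 196664) (nat_lit 13) (.e (nat_lit 65571) (nat_lit 3) (.e (nat_lit 98333) (nat_lit 18) (.e (nat_lit 164179) (nat_lit 154) .nil)))) (.g (nat_lit 0) (.e (nat_lit 214892) (nat_lit 0) .nil) .nil))) 
(.lf (nat_lit 516910) (.g (nat_lit 3354) (.e (nat_lit 196666) (nat_lit 13) (.e (nat_lit 65610) (nat_lit 10) (.e (nat_lit 344117) (nat_lit 21) (.e (nat_lit 516151) (nat_lit 9) (.e (nat_lit 426019) (nat_lit 0) (.e (nat_lit 3372) (nat_lit 208) (.e (nat_lit 622621) (nat_lit 13) (.e (nat_lit 2668) (nat_lit 167) .nil)))))))) (.g (nat_lit 1) (.e (nat_lit 215797) (nat_lit 0) .nil) .nil))))) 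
(.nd (nat_lit 8) (.nd (nat_lit 9) 
(.lf (nat_lit 516270) (.g (nat_lit 1944) (.e (nat_lit 196656) (nat_lit 11) (.e (nat_lit 16470) (nat_lit 14) (.e (nat_lit 491540) (nat_lit 3) .nil))) (.g (nat_lit 0) (.e (nat_lit 214684) (nat_lit 0) .nil) .nil))) 
(.lf (nat_lit 516782) (.g (nat_lit 2835) (.e (nat_lit 196666) (nat_lit 13) (.e (nat_lit 65610) (nat_lit 10) (.e (nat_lit 344117) (nat_lit 21) (.e (nat_lit 516151) (nat_lit 9) (.e (nat_lit 426003) (nat_lit 0) (.e (nat_lit 3367) (nat_lit 208) (.e (nat_lit 630528) (nat_lit 13) (.e (nat_lit 2666) (nat_lit 167) .nil)))))))) (.g (nat_lit 1) (.e (nat_lit 215669) (nat_lit 0) .nil) .nil)))) 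
(.nd (nat_lit 9) 
(.lf (nat_lit 516526) (.g (nat_lit 2561) (.e (nat_lit 196666) (nat_lit 13) (.e (nat_lit 65569) (nat_lit 3) (.e (nat_lit 98335) (nat_lit 18) (.e (nat_lit 164179) (nat_lit 154) (.e (nat_lit 57376) (nat_lit 3) .nil))))) (.g (nat_lit 0) (.e (nat_lit 215127) (nat_lit 0) .nil) .nil))) 
(.lf (nat_lit 517038) (.g (nat_lit 3753) (.e (nat_lit 196666) (nat_lit 13) (.e (nat_lit 65610) (nat_lit 10) (.e (nat_lit 344117) (nat_lit 21) (.e (nat_lit 516151) (nat_lit 9) (.e (nat_lit 426034) (nat_lit 0) (.e (nat_lit 2416) (nat_lit 157) (.e (nat_lit 4849) (nat_lit 285) (.e (nat_lit 163869) (nat_lit 2) .nil)))))))) (.g (nat_lit 1) (.e (nat_lit 215925) (nat_lit 0) .nil) .nil)))))) 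
(.nd (nat_lit 7) (.nd (nat_lit 8) (.nd (nat_lit 9) 
(.lf (nat_lit 516206) (.g (nat_lit 2923) (.e (nat_lit 196656) (nat_lit 11) (.e (nat_lit 16436) (nat_lit 9) (.e (nat_lit 426131) (nat_lit 3) (.e (nat_lit 204880) (nat_lit 32) (.e (nat_lit 385096) (nat_lit 49) (.e (nat_lit 778388) (nat_lit 9) (.e (nat_lit 2666) (nat_lit 167) .nil))))))) (.g (nat_lit 1) (.e (nat_lit 214509) (nat_lit 0) .nil) .nil))) 
(.lf (nat_lit 516718) (.g (nat_lit 2383) (.e (nat_lit 196666) (nat_lit 13) (.e (nat_lit 65610) (nat_lit 10) (.e (nat_lit 344117) (nat_lit 21) (.e (nat_lit 516106) (nat_lit 0) (.e (nat_lit 7095) (nat_lit 380) (.e (nat_lit 164363) (nat_lit 246) (.e (nat_lit 2661) (nat_lit 167) .nil))))))) (.g (nat_lit 1) (.e (nat_lit 215533) (nat_lit 0) .nil) .nil)))) (.nd (nat_lit 9) 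
(.lf (nat_lit 516462) (.g (nat_lit 3417) (.e (nat_lit 196665) (nat_lit 13) (.e (nat_lit 65598) (nat_lit 9) (.e (nat_lit 336013) (nat_lit 2) (.e (nat_lit 90165) (nat_lit 12) (.e (nat_lit 164209) (nat_lit 176) (.e (nat_lit 2797) (nat_lit 180) (.e (nat_lit 303117) (nat_lit 2) .nil))))))) (.g (nat_lit 1) (.e (nat_lit 214977) (nat_lit 0) .nil) .nil))) 
(.lf (nat_lit 516974) (.g (nat_lit 3343) (.e (nat_lit 196666) (nat_lit 13) (.e (nat_lit 65610) (nat_lit 10) (.e (nat_lit 344117) (nat_lit 21) (.e (nat_lit 516151) (nat_lit 9) (.e (nat_lit 426021) (nat_lit 0) (.e (nat_lit 3366) (nat_lit 208) (.e (nat_lit 622622) (nat_lit 13) (.e (nat_lit 2668) (nat_lit 167) .nil)))))))) (.g (nat_lit 1) (.e (nat_lit 215861) (nat_lit 0) .nil) .nil))))) 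
(.nd (nat_lit 8) (.nd (nat_lit 9) 
(.lf (nat_lit 516334) (.g (nat_lit 1795) (.e (nat_lit 196663) (nat_lit 13) (.e (nat_lit 65571) (nat_lit 3) (.e (nat_lit 98334) (nat_lit 18) (.e (nat_lit 164183) (nat_lit 154) .nil)))) (.g (nat_lit 0) (.e (nat_lit 214801) (nat_lit 0) .nil) .nil))) 
(.lf (nat_lit 516846) (.g (nat_lit 3887) (.e (nat_lit 196666) (nat_lit 13) (.e (nat_lit 65610) (nat_lit 10) (.e (nat_lit 344117) (nat_lit 21) (.e (nat_lit 516151) (nat_lit 9) (.e (nat_lit 426017) (nat_lit 0) (.e (nat_lit 2415) (nat_lit 157) (.e (nat_lit 4823) (nat_lit 281) (.e (nat_lit 2477) (nat_lit 157) (.e (nat_lit 2663) (nat_lit 167) .nil))))))))) (.g (nat_lit 1) (.e (nat_lit 215733) (nat_lit 0) .nil) .nil)))) 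
(.nd (nat_lit 9) 
(.lf (nat_lit 516590) (.g (nat_lit 2920) (.e (nat_lit 196666) (nat_lit 13) (.e (nat_lit 65610) (nat_lit 10) (.e (nat_lit 344117) (nat_lit 21) (.e (nat_lit 516096) (nat_lit 0) (.e (nat_lit 7113) (nat_lit 381) (.e (nat_lit 229686) (nat_lit 246) (.e (nat_lit 2661) (nat_lit 167) .nil))))))) (.g (nat_lit 1) (.e (nat_lit 215302) (nat_lit 0) .nil) .nil))) 
(.lf (nat_lit 517102) (.g (nat_lit 3688) (.e (nat_lit 196666) (nat_lit 13) (.e (nat_lit 65610) (nat_lit 10) (.e (nat_lit 344117) (nat_lit 21) (.e (nat_lit 516151) (nat_lit 9) (.e (nat_lit 426037) (nat_lit 0) (.e (nat_lit 2426) (nat_lit 157) (.e (nat_lit 4778) (nat_lit 281) (.e (nat_lit 2444) (nat_lit 157) (.e (nat_lit 2668) (nat_lit 167) .nil))))))))) (.g (nat_lit 1) (.e (nat_lit 215989) (nat_lit 0) .nil) .nil)))))))) 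
(.nd (nat_lit 5) (.nd (nat_lit 6) (.nd (nat_lit 7) (.nd (nat_lit 8) (.nd (nat_lit 9) 
(.lf (nat_lit 516126) (.g (nat_lit 1267) (.e (nat_lit 196655) (nat_lit 11) (.e (nat_lit 16435) (nat_lit 9) (.e (nat_lit 426131) (nat_lit 3) (.e (nat_lit 204854) (nat_lit 26) .nil)))) (.g (nat_lit 0) (.e (nat_lit 214320) (nat_lit 0) .nil) .nil))) 
(.lf (nat_lit 516638) (.g (nat_lit 2252) (.e (nat_lit 196666) (nat_lit 13) (.e (nat_lit 65610) (nat_lit 10) (.e (nat_lit 344117) (nat_lit 21) (.e (nat_lit 516098) (nat_lit 0) (.e (nat_lit 3355) (nat_lit 207) .nil))))) (.g (nat_lit 0) (.e (nat_lit 215388) (nat_lit 0) .nil) .nil)))) (.nd (nat_lit 9) 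
(.lf (nat_lit 516382) (.g (nat_lit 1480) (.e (nat_lit 196663) (nat_lit 13) (.e (nat_lit 65630) (nat_lit 14) (.e (nat_lit 401427) (nat_lit 3) (.e (nat_lit 204863) (nat_lit 27) .nil)))) (.g (nat_lit 0) (.e (nat_lit 214864) (nat_lit 0) .nil) .nil))) 
(.lf (nat_lit 516894) (.g (nat_lit 2203) (.e (nat_lit 196666) (nat_lit 13) (.e (nat_lit 65610) (nat_lit 10) (.e (nat_lit 344117) (nat_lit 21) (.e (nat_lit 516151) (nat_lit 9) (.e (nat_lit 426018) (nat_lit 0) (.e (nat_lit 2398) (nat_lit 157) (.e (nat_lit 4761) (nat_lit 281) (.e (nat_lit 2433) (nat_lit 157) (.e (nat_lit 2668) (nat_lit 167) .nil))))))))) (.g (nat_lit 1) (.e (nat_lit 215781) (nat_lit 0) .nil) .nil))))) 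
(.nd (nat_lit 8) (.nd (nat_lit 9) 
(.lf (nat_lit 516254) (.g (nat_lit 1890) (.e (nat_lit 196656) (nat_lit 11) (.e (nat_lit 16463) (nat_lit 13) (.e (nat_lit 483340) (nat_lit 9) (.e (nat_lit 426107) (nat_lit 1) (.e (nat_lit 164325) (nat_lit 230) .nil))))) (.g (nat_lit 0) (.e (nat_lit 214665) (nat_lit 0) .nil) .nil))) 
(.lf (nat_lit 516766) (.g (nat_lit 3591) (.e (nat_lit 196666) (nat_lit 13) (.e (nat_lit 65610) (nat_lit 10) (.e (nat_lit 344117) (nat_lit 21) (.e (nat_lit 516139) (nat_lit 7) (.e (nat_lit 409618) (nat_lit 10) (.e (nat_lit 7936) (nat_lit 312) (.e (nat_lit 2666) (nat_lit 167) .nil))))))) (.g (nat_lit 1) (.e (nat_lit 215651) (nat_lit 0) .nil) .nil)))) (.nd (nat_lit 9) 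
(.lf (nat_lit 516510) (.g (nat_lit 1601) (.e (nat_lit 196665) (nat_lit 13) (.e (nat_lit 65637) (nat_lit 15) (.e (nat_lit 3253) (nat_lit 197) (.e (nat_lit 532501) (nat_lit 1) (.e (nat_lit 57852) (nat_lit 252) .nil))))) (.g (nat_lit 0) (.e (nat_lit 215049) (nat_lit 0) .nil) .nil))) 
(.lf (nat_lit 517022) (.g (nat_lit 2643) (.e (nat_lit 196666) (nat_lit 13) (.e (nat_lit 65610) (nat_lit 10) (.e (nat_lit 344117) (nat_lit 21) (.e (nat_lit 516151) (nat_lit 9) (.e (nat_lit 426022) (nat_lit 0) (.e (nat_lit 7936) (nat_lit 208) (.e (nat_lit 622620) (nat_lit 13) (.e (nat_lit 2665) (nat_lit 167) .nil)))))))) (.g (nat_lit 1) (.e (nat_lit 215909) (nat_lit 0) .nil) .nil)))))) 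
(.nd (nat_lit 7) (.nd (nat_lit 8) (.nd (nat_lit 9) 
(.lf (nat_lit 516190) (.g (nat_lit 1656) (.e (nat_lit 196656) (nat_lit 11) (.e (nat_lit 16432) (nat_lit 9) (.e (nat_lit 426566) (nat_lit 34) (.e (nat_lit 393254) (nat_lit 18) .nil)))) (.g (nat_lit 0) (.e (nat_lit 214487) (nat_lit 0) .nil) .nil))) 
(.lf (nat_lit 516702) (.g (nat_lit 2144) (.e (nat_lit 196666) (nat_lit 13) (.e (nat_lit 65610) (nat_lit 10) (.e (nat_lit 344117) (nat_lit 21) (.e (nat_lit 516106) (nat_lit 0) (.e (nat_lit 7008) (nat_lit 377) (.e (nat_lit 2505) (nat_lit 157) (.e (nat_lit 5664) (nat_lit 312) (.e (nat_lit 2661) (nat_lit 167) .nil)))))))) (.g (nat_lit 1) (.e (nat_lit 215517) (nat_lit 0) .nil) .nil)))) 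
(.nd (nat_lit 9) 
(.lf (nat_lit 516446) (.g (nat_lit 1465) (.e (nat_lit 196665) (nat_lit 13) (.e (nat_lit 65569) (nat_lit 3) (.e (nat_lit 98342) (nat_lit 20) (.e (nat_lit 221214) (nat_lit 23) .nil)))) (.g (nat_lit 0) (.e (nat_lit 214948) (nat_lit 0) .nil) .nil))) 
(.lf (nat_lit 516958) (.g (nat_lit 4677) (.e (nat_lit 196666) (nat_lit 13) (.e (nat_lit 65610) (nat_lit 10) (.e (nat_lit 344117) (nat_lit 21) (.e (nat_lit 516151) (nat_lit 9) (.e (nat_lit 426020) (nat_lit 0) (.e (nat_lit 3372) (nat_lit 208) (.e (nat_lit 630528) (nat_lit 13) (.e (nat_lit 2666) (nat_lit 167) .nil)))))))) (.g (nat_lit 1) (.e (nat_lit 215845) (nat_lit 0) .nil) .nil))))) 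
(.nd (nat_lit 8) (.nd (nat_lit 9) 
(.lf (nat_lit 516318) (.g (nat_lit 3207) (.e (nat_lit 196663) (nat_lit 13) (.e (nat_lit 65569) (nat_lit 3) (.e (nat_lit 98342) (nat_lit 20) (.e (nat_lit 221215) (nat_lit 23) (.e (nat_lit 204829) (nat_lit 18) (.e (nat_lit 57927) (nat_lit 282) (.e (nat_lit 163868) (nat_lit 2) .nil))))))) (.g (nat_lit 1) (.e (nat_lit 214780) (nat_lit 0) .nil) .nil))) 
(.lf (nat_lit 516830) (.g (nat_lit 3853) (.e (nat_lit 196666) (nat_lit 13) (.e (nat_lit 65610) (nat_lit 10) (.e (nat_lit 344117) (nat_lit 21) (.e (nat_lit 516151) (nat_lit 9) (.e (nat_lit 426017) (nat_lit 0) (.e (nat_lit 2411) (nat_lit 157) (.e (nat_lit 4761) (nat_lit 281) (.e (nat_lit 2463) (nat_lit 157) (.e (nat_lit 2666) (nat_lit 167) .nil))))))))) (.g (nat_lit 1) (.e (nat_lit 215717) (nat_lit 0) .nil) .nil)))) 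
(.nd (nat_lit 9) 
(.lf (nat_lit 516574) (.g (nat_lit 2335) (.e (nat_lit 196666) (nat_lit 13) (.e (nat_lit 65599) (nat_lit 9) (.e (nat_lit 336028) (nat_lit 3) (.e (nat_lit 98350) (nat_lit 24) (.e (nat_lit 417536) (nat_lit 18) .nil))))) (.g (nat_lit 0) (.e (nat_lit 215262) (nat_lit 0) .nil) .nil))) 
(.lf (nat_lit 517086) (.g (nat_lit 4505) (.e (nat_lit 196666) (nat_lit 13) (.e (nat_lit 65610) (nat_lit 10) (.e (nat_lit 344117) (nat_lit 21) (.e (nat_lit 516151) (nat_lit 9) (.e (nat_lit 426037) (nat_lit 0) (.e (nat_lit 2416) (nat_lit 157) (.e (nat_lit 4849) (nat_lit 285) (.e (nat_lit 163869) (nat_lit 2) .nil)))))))) (.g (nat_lit 1) (.e (nat_lit 215973) (nat_lit 0) .nil) .nil))))))) 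
(.nd (nat_lit 6) (.nd (nat_lit 7) (.nd (nat_lit 8) (.nd (nat_lit 9) 
(.lf (nat_lit 516158) (.g (nat_lit 962) (.e (nat_lit 196656) (nat_lit 11) (.e (nat_lit 16392) (nat_lit 0) (.e (nat_lit 3401) (nat_lit 211) (.e (nat_lit 647181) (nat_lit 3) (.e (nat_lit 171776) (nat_lit 189) .nil))))) (.g (nat_lit 0) (.e (nat_lit 214423) (nat_lit 0) .nil) .nil))) 
(.lf (nat_lit 516670) (.g (nat_lit 1873) (.e (nat_lit 196666) (nat_lit 13) (.e (nat_lit 65610) (nat_lit 10) (.e (nat_lit 344117) (nat_lit 21) (.e (nat_lit 516106) (nat_lit 0) (.e (nat_lit 2478) (nat_lit 157) (.e (nat_lit 4495) (nat_lit 263) (.e (nat_lit 2625) (nat_lit 164) (.e (nat_lit 172062) (nat_lit 2) .nil)))))))) (.g (nat_lit 1) (.e (nat_lit 215442) (nat_lit 0) .nil) .nil)))) 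
(.nd (nat_lit 9) 
(.lf (nat_lit 516414) (.g (nat_lit 1777) (.e (nat_lit 196664) (nat_lit 13) (.e (nat_lit 65571) (nat_lit 3) (.e (nat_lit 98341) (nat_lit 20) (.e (nat_lit 221214) (nat_lit 23) .nil)))) (.g (nat_lit 0) (.e (nat_lit 214908) (nat_lit 0) .nil) .nil))) 
(.lf (nat_lit 516926) (.g (nat_lit 3479) (.e (nat_lit 196666) (nat_lit 13) (.e (nat_lit 65610) (nat_lit 10) (.e (nat_lit 344117) (nat_lit 21) (.e (nat_lit 516151) (nat_lit 9) (.e (nat_lit 426020) (nat_lit 0) (.e (nat_lit 2418) (nat_lit 157) (.e (nat_lit 4849) (nat_lit 285) (.e (nat_lit 163869) (nat_lit 2) .nil)))))))) (.g (nat_lit 1) (.e (nat_lit 215813) (nat_lit 0) .nil) .nil))))) 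
(.nd (nat_lit 8) (.nd (nat_lit 9) 
(.lf (nat_lit 516286) (.g (nat_lit 1955) (.e (nat_lit 196661) (nat_lit 12) (.e (nat_lit 57711) (nat_lit 176) (.e (nat_lit 1348) (nat_lit 102) (.e (nat_lit 286735) (nat_lit 3) (.e (nat_lit 98381) (nat_lit 31) .nil))))) (.g (nat_lit 0) (.e (nat_lit 214726) (nat_lit 0) .nil) .nil))) 
(.lf (nat_lit 516798) (.g (nat_lit 3489) (.e (nat_lit 196666) (nat_lit 13) (.e (nat_lit 65610) (nat_lit 10) (.e (nat_lit 344117) (nat_lit 21) (.e (nat_lit 516151) (nat_lit 9) (.e (nat_lit 426017) (nat_lit 0) (.e (nat_lit 2401) (nat_lit 157) (.e (nat_lit 4825) (nat_lit 281) (.e (nat_lit 2416) (nat_lit 157) (.e (nat_lit 2666) (nat_lit 167) .nil))))))))) (.g (nat_lit 1) (.e (nat_lit 215685) (nat_lit 0) .nil) .nil)))) 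
(.nd (nat_lit 9) 
(.lf (nat_lit 516542) (.g (nat_lit 3590) (.e (nat_lit 196666) (nat_lit 13) (.e (nat_lit 65571) (nat_lit 3) (.e (nat_lit 98333) (nat_lit 18) (.e (nat_lit 164183) (nat_lit 154) (.e (nat_lit 57379) (nat_lit 3) (.e (nat_lit 98338) (nat_lit 19) (.e (nat_lit 213013) (nat_lit 9) (.e (nat_lit 2666) (nat_lit 167) .nil)))))))) (.g (nat_lit 1) (.e (nat_lit 215179) (nat_lit 0) .nil) .nil))) 
(.lf (nat_lit 517054) (.g (nat_lit 3922) (.e (nat_lit 196666) (nat_lit 13) (.e (nat_lit 65610) (nat_lit 10) (.e (nat_lit 344117) (nat_lit 21) (.e (nat_lit 516151) (nat_lit 9) (.e (nat_lit 426034) (nat_lit 0) (.e (nat_lit 2425) (nat_lit 157) (.e (nat_lit 7936) (nat_lit 285) (.e (nat_lit 163869) (nat_lit 2) .nil)))))))) (.g (nat_lit 1) (.e (nat_lit 215941) (nat_lit 0) .nil) .nil)))))) 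
(.nd (nat_lit 7) (.nd (nat_lit 8) (.nd (nat_lit 9) 
(.lf (nat_lit 516222) (.g (nat_lit 2594) (.e (nat_lit 196656) (nat_lit 11) (.e (nat_lit 16438) (nat_lit 9) (.e (nat_lit 426482) (nat_lit 27) (.e (nat_lit 336389) (nat_lit 27) (.e (nat_lit 426098) (nat_lit 1) .nil))))) (.g (nat_lit 0) (.e (nat_lit 214528) (nat_lit 0) .nil) .nil))) 
(.lf (nat_lit 516734) (.g (nat_lit 2597) (.e (nat_lit 196666) (nat_lit 13) (.e (nat_lit 65610) (nat_lit 10) (.e (nat_lit 344117) (nat_lit 21) (.e (nat_lit 516115) (nat_lit 1) (.e (nat_lit 171776) (nat_lit 278) .nil))))) (.g (nat_lit 0) (.e (nat_lit 215582) (nat_lit 0) .nil) .nil)))) (.nd (nat_lit 9) 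
(.lf (nat_lit 516478) (.g (nat_lit 1636) (.e (nat_lit 196665) (nat_lit 13) (.e (nat_lit 65623) (nat_lit 12) (.e (nat_lit 385066) (nat_lit 26) (.e (nat_lit 532513) (nat_lit 3) (.e (nat_lit 114698) (nat_lit 11) .nil))))) (.g (nat_lit 0) (.e (nat_lit 215004) (nat_lit 0) .nil) .nil))) 
(.lf (nat_lit 516990) (.g (nat_lit 5020) (.e (nat_lit 196666) (nat_lit 13) (.e (nat_lit 65610) (nat_lit 10) (.e (nat_lit 344117) (nat_lit 21) (.e (nat_lit 516151) (nat_lit 9) (.e (nat_lit 426021) (nat_lit 0) (.e (nat_lit 3368) (nat_lit 208) (.e (nat_lit 622625) (nat_lit 13) (.e (nat_lit 2663) (nat_lit 167) .nil)))))))) (.g (nat_lit 1) (.e (nat_lit 215877) (nat_lit 0) .nil) .nil))))) 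
(.nd (nat_lit 8) (.nd (nat_lit 9) 
(.lf (nat_lit 516350) (.g (nat_lit 1915) (.e (nat_lit 196663) (nat_lit 13) (.e (nat_lit 65610) (nat_lit 10) (.e (nat_lit 344117) (nat_lit 21) (.e (nat_lit 516102) (nat_lit 0) .nil)))) (.g (nat_lit 0) (.e (nat_lit 214827) (nat_lit 0) .nil) .nil))) 
(.lf (nat_lit 516862) (.g (nat_lit 3759) (.e (nat_lit 196666) (nat_lit 13) (.e (nat_lit 65610) (nat_lit 10) (.e (nat_lit 344117) (nat_lit 21) (.e (nat_lit 516151) (nat_lit 9) (.e (nat_lit 426017) (nat_lit 0) (.e (nat_lit 3367) (nat_lit 208) (.e (nat_lit 622624) (nat_lit 13) (.e (nat_lit 2662) (nat_lit 167) .nil)))))))) (.g (nat_lit 1) (.e (nat_lit 215749) (nat_lit 0) .nil) .nil)))) 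
(.nd (nat_lit 9) 
(.lf (nat_lit 516606) (.g (nat_lit 3215) (.e (nat_lit 196666) (nat_lit 13) (.e (nat_lit 65610) (nat_lit 10) (.e (nat_lit 344117) (nat_lit 21) (.e (nat_lit 516097) (nat_lit 0) (.e (nat_lit 3335) (nat_lit 205) .nil))))) (.g (nat_lit 0) (.e (nat_lit 215342) (nat_lit 0) .nil) .nil))) 
(.lf (nat_lit 517118) (.g (nat_lit 4084) (.e (nat_lit 196666) (nat_lit 13) (.e (nat_lit 65610) (nat_lit 10) (.e (nat_lit 344117) (nat_lit 21) (.e (nat_lit 516151) (nat_lit 9) (.e (nat_lit 426037) (nat_lit 0) (.e (nat_lit 3369) (nat_lit 208) (.e (nat_lit 622620) (nat_lit 13) (.e (nat_lit 2663) (nat_lit 167) .nil)))))))) (.g (nat_lit 1) (.e (nat_lit 216005) (nat_lit 0) .nil) .nil)))))))))))) 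
(.nd (nat_lit 1) (.nd (nat_lit 2) (.nd (nat_lit 3) (.nd (nat_lit 4) (.nd (nat_lit 5) 
(.nd (nat_lit 6) (.nd (nat_lit 7) (.nd (nat_lit 8) (.nd (nat_lit 9) 
(.lf (nat_lit 516097) (.g (nat_lit 2241) (.e (nat_lit 196654) (nat_lit 11) (.e (nat_lit 16463) (nat_lit 13) (.e (nat_lit 483341) (nat_lit 9) (.e (nat_lit 426107) (nat_lit 1) (.e (nat_lit 164322) (nat_lit 230) .nil))))) (.g (nat_lit 0) (.e (nat_lit 214220) (nat_lit 0) .nil) .nil))) 
(.lf (nat_lit 516609) (.g (nat_lit 3748) (.e (nat_lit 196666) (nat_lit 13) (.e (nat_lit 65610) (nat_lit 10) (.e (nat_lit 344117) (nat_lit 21) (.e (nat_lit 516097) (nat_lit 0) (.e (nat_lit 3336) (nat_lit 205) (.e (nat_lit 598065) (nat_lit 20) (.e (nat_lit 237589) (nat_lit 2) .nil))))))) (.g (nat_lit 1) (.e (nat_lit 215348) (nat_lit 0) .nil) .nil)))) (.nd (nat_lit 9) 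
(.lf (nat_lit 516353) (.g (nat_lit 1955) (.e (nat_lit 196663) (nat_lit 13) (.e (nat_lit 65610) (nat_lit 10) (.e (nat_lit 344129) (nat_lit 26) (.e (nat_lit 557090) (nat_lit 12) .nil)))) (.g (nat_lit 0) (.e (nat_lit 214830) (nat_lit 0) .nil) .nil))) 
(.lf (nat_lit 516865) (.g (nat_lit 4525) (.e (nat_lit 196666) (nat_lit 13) (.e (nat_lit 65610) (nat_lit 10) (.e (nat_lit 344117) (nat_lit 21) (.e (nat_lit 516151) (nat_lit 9) (.e (nat_lit 426017) (nat_lit 0) (.e (nat_lit 3367) (nat_lit 208) (.e (nat_lit 622627) (nat_lit 13) (.e (nat_lit 2663) (nat_lit 167) .nil)))))))) (.g (nat_lit 1) (.e (nat_lit 215752) (nat_lit 0) .nil) .nil))))) 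
(.nd (nat_lit 8) (.nd (nat_lit 9) 
(.lf (nat_lit 516225) (.g (nat_lit 2913) (.e (nat_lit 196656) (nat_lit 11) (.e (nat_lit 16438) (nat_lit 9) (.e (nat_lit 426482) (nat_lit 27) (.e (nat_lit 336389) (nat_lit 27) (.e (nat_lit 426107) (nat_lit 1) .nil))))) (.g (nat_lit 0) (.e (nat_lit 214531) (nat_lit 0) .nil) .nil))) 
(.lf (nat_lit 516737) (.g (nat_lit 2236) (.e (nat_lit 196666) (nat_lit 13) (.e (nat_lit 65610) (nat_lit 10) (.e (nat_lit 344117) (nat_lit 21) (.e (nat_lit 516118) (nat_lit 1) .nil)))) (.g (nat_lit 0) (.e (nat_lit 215617) (nat_lit 0) .nil) .nil)))) (.nd (nat_lit 9) 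
(.lf (nat_lit 516481) (.g (nat_lit 1275) (.e (nat_lit 196665) (nat_lit 13) (.e (nat_lit 65623) (nat_lit 12) (.e (nat_lit 385067) (nat_lit 26) (.e (nat_lit 532511) (nat_lit 2) (.e (nat_lit 106534) (nat_lit 11) .nil))))) (.g (nat_lit 0) (.e (nat_lit 215008) (nat_lit 0) .nil) .nil))) 
(.lf (nat_lit 516993) (.g (nat_lit 5162) (.e (nat_lit 196666) (nat_lit 13) (.e (nat_lit 65610) (nat_lit 10) (.e (nat_lit 344117) (nat_lit 21) (.e (nat_lit 516151) (nat_lit 9) (.e (nat_lit 426021) (nat_lit 0) (.e (nat_lit 3372) (nat_lit 208) (.e (nat_lit 622620) (nat_lit 13) (.e (nat_lit 2663) (nat_lit 167) .nil)))))))) (.g (nat_lit 1) (.e (nat_lit 215880) (nat_lit 0) .nil) .nil)))))) 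
(.nd (nat_lit 7) (.nd (nat_lit 8) (.nd (nat_lit 9) 
(.lf (nat_lit 516161) (.g (nat_lit 1585) (.e (nat_lit 196656) (nat_lit 11) (.e (nat_lit 16407) (nat_lit 1) (.e (nat_lit 164403) (nat_lit 256) (.e (nat_lit 57406) (nat_lit 12) (.e (nat_lit 336444) (nat_lit 32) .nil))))) (.g (nat_lit 0) (.e (nat_lit 214430) (nat_lit 0) .nil) .nil))) 
(.lf (nat_lit 516673) (.g (nat_lit 2038) (.e (nat_lit 196666) (nat_lit 13) (.e (nat_lit 65610) (nat_lit 10) (.e (nat_lit 344117) (nat_lit 21) (.e (nat_lit 516106) (nat_lit 0) (.e (nat_lit 7936) (nat_lit 157) .nil))))) (.g (nat_lit 0) (.e (nat_lit 215445) (nat_lit 0) .nil) .nil)))) (.nd (nat_lit 9) 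
(.lf (nat_lit 516417) (.g (nat_lit 2833) (.e (nat_lit 196664) (nat_lit 13) (.e (nat_lit 65571) (nat_lit 3) (.e (nat_lit 98341) (nat_lit 20) (.e (nat_lit 221215) (nat_lit 23) (.e (nat_lit 204831) (nat_lit 18) (.e (nat_lit 57931) (nat_lit 282) (.e (nat_lit 163869) (nat_lit 2) .nil))))))) (.g (nat_lit 1) (.e (nat_lit 214911) (nat_lit 0) .nil) .nil))) 
(.lf (nat_lit 516929) (.g (nat_lit 3944) (.e (nat_lit 196666) (nat_lit 13) (.e (nat_lit 65610) (nat_lit 10) (.e (nat_lit 344117) (nat_lit 21) (.e (nat_lit 516151) (nat_lit 9) (.e (nat_lit 426020) (nat_lit 0) (.e (nat_lit 2439) (nat_lit 157) (.e (nat_lit 7936) (nat_lit 285) (.e (nat_lit 163870) (nat_lit 2) .nil)))))))) (.g (nat_lit 1) (.e (nat_lit 215816) (nat_lit 0) .nil) .nil))))) 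
(.nd (nat_lit 8) (.nd (nat_lit 9) 
(.lf (nat_lit 516289) (.g (nat_lit 1989) (.e (nat_lit 196661) (nat_lit 12) (.e (nat_lit 57712) (nat_lit 176) (.e (nat_lit 1370) (nat_lit 103) (.e (nat_lit 294914) (nat_lit 0) .nil)))) (.g (nat_lit 0) (.e (nat_lit 214730) (nat_lit 0) .nil) .nil))) 
(.lf (nat_lit 516801) (.g (nat_lit 4338) (.e (nat_lit 196666) (nat_lit 13) (.e (nat_lit 65610) (nat_lit 10) (.e (nat_lit 344117) (nat_lit 21) (.e (nat_lit 516151) (nat_lit 9) (.e (nat_lit 426017) (nat_lit 0) (.e (nat_lit 2401) (nat_lit 157) (.e (nat_lit 4829) (nat_lit 281) (.e (nat_lit 2477) (nat_lit 157) (.e (nat_lit 2663) (nat_lit 167) .nil))))))))) (.g (nat_lit 1) (.e (nat_lit 215688) (nat_lit 0) .nil) .nil)))) 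
(.nd (nat_lit 9) 
(.lf (nat_lit 516545) (.g (nat_lit 5149) (.e (nat_lit 196666) (nat_lit 13) (.e (nat_lit 65571) (nat_lit 3) (.e (nat_lit 98341) (nat_lit 20) (.e (nat_lit 221214) (nat_lit 23) (.e (nat_lit 204829) (nat_lit 18) (.e (nat_lit 57931) (nat_lit 282) (.e (nat_lit 163869) (nat_lit 2) .nil))))))) (.g (nat_lit 1) (.e (nat_lit 215199) (nat_lit 0) .nil) .nil))) 
(.lf (nat_lit 517057) (.g (nat_lit 3334) (.e (nat_lit 196666) (nat_lit 13) (.e (nat_lit 65610) (nat_lit 10) (.e (nat_lit 344117) (nat_lit 21) (.e (nat_lit 516151) (nat_lit 9) (.e (nat_lit 426034) (nat_lit 0) (.e (nat_lit 2515) (nat_lit 157) (.e (nat_lit 5948) (nat_lit 322) (.e (nat_lit 65280) (nat_lit 63) .nil)))))))) (.g (nat_lit 1) (.e (nat_lit 215944) (nat_lit 0) .nil) .nil))))))) 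
(.nd (nat_lit 6) (.nd (nat_lit 7) (.nd (nat_lit 8) (.nd (nat_lit 9) 
(.lf (nat_lit 516129) (.g (nat_lit 2519) (.e (nat_lit 196655) (nat_lit 11) (.e (nat_lit 16435) (nat_lit 9) (.e (nat_lit 426516) (nat_lit 27) (.e (nat_lit 336387) (nat_lit 27) (.e (nat_lit 426107) (nat_lit 1) (.e (nat_lit 164326) (nat_lit 230) (.e (nat_lit 163871) (nat_lit 2) .nil))))))) (.g (nat_lit 1) (.e (nat_lit 214325) (nat_lit 0) .nil) .nil))) 
(.lf (nat_lit 516641) (.g (nat_lit 2694) (.e (nat_lit 196666) (nat_lit 13) (.e (nat_lit 65610) (nat_lit 10) (.e (nat_lit 344117) (nat_lit 21) (.e (nat_lit 516098) (nat_lit 0) (.e (nat_lit 7110) (nat_lit 380) (.e (nat_lit 164362) (nat_lit 246) (.e (nat_lit 2661) (nat_lit 167) .nil))))))) (.g (nat_lit 1) (.e (nat_lit 215391) (nat_lit 0) .nil) .nil)))) (.nd (nat_lit 9) 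
(.lf (nat_lit 516385) (.g (nat_lit 498) (.e (nat_lit 196663) (nat_lit 13) (.e (nat_lit 65630) (nat_lit 14) (.e (nat_lit 401428) (nat_lit 3) .nil))) (.g (nat_lit 0) (.e (nat_lit 214867) (nat_lit 0) .nil) .nil))) 
(.lf (nat_lit 516897) (.g (nat_lit 2742) (.e (nat_lit 196666) (nat_lit 13) (.e (nat_lit 65610) (nat_lit 10) (.e (nat_lit 344117) (nat_lit 21) (.e (nat_lit 516151) (nat_lit 9) (.e (nat_lit 426018) (nat_lit 0) (.e (nat_lit 2401) (nat_lit 157) (.e (nat_lit 4829) (nat_lit 281) (.e (nat_lit 2416) (nat_lit 157) (.e (nat_lit 2666) (nat_lit 167) .nil))))))))) (.g (nat_lit 1) (.e (nat_lit 215784) (nat_lit 0) .nil) .nil))))) 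
(.nd (nat_lit 8) (.nd (nat_lit 9) 
(.lf (nat_lit 516257) (.g (nat_lit 1708) (.e (nat_lit 196656) (nat_lit 11) (.e (nat_lit 16463) (nat_lit 13) (.e (nat_lit 483341) (nat_lit 9) (.e (nat_lit 426099) (nat_lit 1) .nil)))) (.g (nat_lit 0) (.e (nat_lit 214668) (nat_lit 0) .nil) .nil))) 
(.lf (nat_lit 516769) (.g (nat_lit 3515) (.e (nat_lit 196666) (nat_lit 13) (.e (nat_lit 65610) (nat_lit 10) (.e (nat_lit 344117) (nat_lit 21) (.e (nat_lit 516139) (nat_lit 7) (.e (nat_lit 409625) (nat_lit 10) (.e (nat_lit 5612) (nat_lit 312) (.e (nat_lit 2668) (nat_lit 167) .nil))))))) (.g (nat_lit 1) (.e (nat_lit 215654) (nat_lit 0) .nil) .nil)))) (.nd (nat_lit 9) 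
(.lf (nat_lit 516513) (.g (nat_lit 1689) (.e (nat_lit 196665) (nat_lit 13) (.e (nat_lit 65637) (nat_lit 15) (.e (nat_lit 3253) (nat_lit 197) (.e (nat_lit 532563) (nat_lit 15) (.e (nat_lit 385066) (nat_lit 26) .nil))))) (.g (nat_lit 0) (.e (nat_lit 215052) (nat_lit 0) .nil) .nil))) 
(.lf (nat_lit 517025) (.g (nat_lit 3329) (.e (nat_lit 196666) (nat_lit 13) (.e (nat_lit 65610) (nat_lit 10) (.e (nat_lit 344117) (nat_lit 21) (.e (nat_lit 516151) (nat_lit 9) (.e (nat_lit 426022) (nat_lit 0) (.e (nat_lit 7936) (nat_lit 208) (.e (nat_lit 630528) (nat_lit 13) (.e (nat_lit 2666) (nat_lit 167) .nil)))))))) (.g (nat_lit 1) (.e (nat_lit 215912) (nat_lit 0) .nil) .nil)))))) 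
(.nd (nat_lit 7) (.nd (nat_lit 8) (.nd (nat_lit 9) 
(.lf (nat_lit 516193) (.g (nat_lit 2574) (.e (nat_lit 196656) (nat_lit 11) (.e (nat_lit 16435) (nat_lit 9) (.e (nat_lit 426566) (nat_lit 34) (.e (nat_lit 393253) (nat_lit 18) (.e (nat_lit 164305) (nat_lit 226) .nil))))) (.g (nat_lit 0) (.e (nat_lit 214491) (nat_lit 0) .nil) .nil))) 
(.lf (nat_lit 516705) (.g (nat_lit 3297) (.e (nat_lit 196666) (nat_lit 13) (.e (nat_lit 65610) (nat_lit 10) (.e (nat_lit 344117) (nat_lit 21) (.e (nat_lit 516106) (nat_lit 0) (.e (nat_lit 7014) (nat_lit 377) (.e (nat_lit 2817) (nat_lit 181) (.e (nat_lit 311312) (nat_lit 2) .nil))))))) (.g (nat_lit 1) (.e (nat_lit 215520) (nat_lit 0) .nil) .nil)))) (.nd (nat_lit 9) 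
(.lf (nat_lit 516449) (.g (nat_lit 1579) (.e (nat_lit 196665) (nat_lit 13) (.e (nat_lit 65569) (nat_lit 3) (.e (nat_lit 98342) (nat_lit 20) (.e (nat_lit 221215) (nat_lit 23) (.e (nat_lit 204830) (nat_lit 18) .nil))))) (.g (nat_lit 0) (.e (nat_lit 214951) (nat_lit 0) .nil) .nil))) 
(.lf (nat_lit 516961) (.g (nat_lit 3260) (.e (nat_lit 196666) (nat_lit 13) (.e (nat_lit 65610) (nat_lit 10) (.e (nat_lit 344117) (nat_lit 21) (.e (nat_lit 516151) (nat_lit 9) (.e (nat_lit 426020) (nat_lit 0) (.e (nat_lit 3373) (nat_lit 208) (.e (nat_lit 622621) (nat_lit 13) (.e (nat_lit 2668) (nat_lit 167) .nil)))))))) (.g (nat_lit 1) (.e (nat_lit 215848) (nat_lit 0) .nil) .nil))))) 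
(.nd (nat_lit 8) (.nd (nat_lit 9) 
(.lf (nat_lit 516321) (.g (nat_lit 2404) (.e (nat_lit 196663) (nat_lit 13) (.e (nat_lit 65571) (nat_lit 3) (.e (nat_lit 98333) (nat_lit 18) (.e (nat_lit 164177) (nat_lit 154) (.e (nat_lit 57379) (nat_lit 3) .nil))))) (.g (nat_lit 0) (.e (nat_lit 214788) (nat_lit 0) .nil) .nil))) 
(.lf (nat_lit 516833) (.g (nat_lit 5095) (.e (nat_lit 196666) (nat_lit 13) (.e (nat_lit 65610) (nat_lit 10) (.e (nat_lit 344117) (nat_lit 21) (.e (nat_lit 516151) (nat_lit 9) (.e (nat_lit 426017) (nat_lit 0) (.e (nat_lit 2411) (nat_lit 157) (.e (nat_lit 4847) (nat_lit 285) (.e (nat_lit 163870) (nat_lit 2) .nil)))))))) (.g (nat_lit 1) (.e (nat_lit 215720) (nat_lit 0) .nil) .nil)))) 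
(.nd (nat_lit 9) 
(.lf (nat_lit 516577) (.g (nat_lit 1384) (.e (nat_lit 196666) (nat_lit 13) (.e (nat_lit 65604) (nat_lit 9) (.e (nat_lit 336028) (nat_lit 3) (.e (nat_lit 98349) (nat_lit 24) .nil)))) (.g (nat_lit 0) (.e (nat_lit 215273) (nat_lit 0) .nil) .nil))) 
(.lf (nat_lit 517089) (.g (nat_lit 3888) (.e (nat_lit 196666) (nat_lit 13) (.e (nat_lit 65610) (nat_lit 10) (.e (nat_lit 344117) (nat_lit 21) (.e (nat_lit 516151) (nat_lit 9) (.e (nat_lit 426037) (nat_lit 0) (.e (nat_lit 2422) (nat_lit 157) (.e (nat_lit 4848) (nat_lit 285) (.e (nat_lit 163869) (nat_lit 2) .nil)))))))) (.g (nat_lit 1) (.e (nat_lit 215976) (nat_lit 0) .nil) .nil)))))))) 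
(.nd (nat_lit 5) (.nd (nat_lit 6) (.nd (nat_lit 7) (.nd (nat_lit 8) (.nd (nat_lit 9) 
(.lf (nat_lit 516113) (.g (nat_lit 827) (.e (nat_lit 196654) (nat_lit 11) (.e (nat_lit 16466) (nat_lit 13) (.e (nat_lit 483341) (nat_lit 9) (.e (nat_lit 426107) (nat_lit 1) .nil)))) (.g (nat_lit 0) (.e (nat_lit 214251) (nat_lit 0) .nil) .nil))) 
(.lf (nat_lit 516625) (.g (nat_lit 3526) (.e (nat_lit 196666) (nat_lit 13) (.e (nat_lit 65610) (nat_lit 10) (.e (nat_lit 344117) (nat_lit 21) (.e (nat_lit 516097) (nat_lit 0) (.e (nat_lit 7111) (nat_lit 381) (.e (nat_lit 229686) (nat_lit 246) (.e (nat_lit 2661) (nat_lit 167) .nil))))))) (.g (nat_lit 1) (.e (nat_lit 215371) (nat_lit 0) .nil) .nil)))) (.nd (nat_lit 9) 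
(.lf (nat_lit 516369) (.g (nat_lit 3699) (.e (nat_lit 196663) (nat_lit 13) (.e (nat_lit 65630) (nat_lit 14) (.e (nat_lit 401425) (nat_lit 2) (.e (nat_lit 196668) (nat_lit 14) (.e (nat_lit 73782) (nat_lit 32) (.e (nat_lit 2664) (nat_lit 167) .nil)))))) (.g (nat_lit 1) (.e (nat_lit 214851) (nat_lit 0) .nil) .nil))) 
(.lf (nat_lit 516881) (.g (nat_lit 3751) (.e (nat_lit 196666) (nat_lit 13) (.e (nat_lit 65610) (nat_lit 10) (.e (nat_lit 344117) (nat_lit 21) (.e (nat_lit 516151) (nat_lit 9) (.e (nat_lit 426017) (nat_lit 0) (.e (nat_lit 3373) (nat_lit 208) (.e (nat_lit 622621) (nat_lit 13) (.e (nat_lit 2668) (nat_lit 167) .nil)))))))) (.g (nat_lit 1) (.e (nat_lit 215768) (nat_lit 0) .nil) .nil))))) 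
(.nd (nat_lit 8) (.nd (nat_lit 9) 
(.lf (nat_lit 516241) (.g (nat_lit 3934) (.e (nat_lit 196656) (nat_lit 11) (.e (nat_lit 16448) (nat_lit 10) (.e (nat_lit 434231) (nat_lit 23) (.e (nat_lit 532529) (nat_lit 9) (.e (nat_lit 336328) (nat_lit 19) (.e (nat_lit 213013) (nat_lit 9) (.e (nat_lit 2667) (nat_lit 167) .nil))))))) (.g (nat_lit 1) (.e (nat_lit 214599) (nat_lit 0) .nil) .nil))) 
(.lf (nat_lit 516753) (.g (nat_lit 3507) (.e (nat_lit 196666) (nat_lit 13) (.e (nat_lit 65610) (nat_lit 10) (.e (nat_lit 344117) (nat_lit 21) (.e (nat_lit 516139) (nat_lit 7) (.e (nat_lit 409613) (nat_lit 10) (.e (nat_lit 5613) (nat_lit 312) (.e (nat_lit 2668) (nat_lit 167) .nil))))))) (.g (nat_lit 1) (.e (nat_lit 215638) (nat_lit 0) .nil) .nil)))) (.nd (nat_lit 9) 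
(.lf (nat_lit 516497) (.g (nat_lit 1261) (.e (nat_lit 196665) (nat_lit 13) (.e (nat_lit 65626) (nat_lit 13) (.e (nat_lit 393251) (nat_lit 18) (.e (nat_lit 164183) (nat_lit 154) .nil)))) (.g (nat_lit 0) (.e (nat_lit 215035) (nat_lit 0) .nil) .nil))) 
(.lf (nat_lit 517009) (.g (nat_lit 2680) (.e (nat_lit 196666) (nat_lit 13) (.e (nat_lit 65610) (nat_lit 10) (.e (nat_lit 344117) (nat_lit 21) (.e (nat_lit 516151) (nat_lit 9) (.e (nat_lit 426022) (nat_lit 0) (.e (nat_lit 2397) (nat_lit 157) (.e (nat_lit 4762) (nat_lit 281) (.e (nat_lit 2463) (nat_lit 157) (.e (nat_lit 2666) (nat_lit 167) .nil))))))))) (.g (nat_lit 1) (.e (nat_lit 215896) (nat_lit 0) .nil) .nil)))))) 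
(.nd (nat_lit 7) (.nd (nat_lit 8) (.nd (nat_lit 9) 
(.lf (nat_lit 516177) (.g (nat_lit 1583) (.e (nat_lit 196656) (nat_lit 11) (.e (nat_lit 16416) (nat_lit 3) (.e (nat_lit 204812) (nat_lit 9) (.e (nat_lit 426139) (nat_lit 3) (.e (nat_lit 204813) (nat_lit 9) .nil))))) (.g (nat_lit 0) (.e (nat_lit 214465) (nat_lit 0) .nil) .nil))) 
(.lf (nat_lit 516689) (.g (nat_lit 3050) (.e (nat_lit 196666) (nat_lit 13) (.e (nat_lit 65610) (nat_lit 10) (.e (nat_lit 344117) (nat_lit 21) (.e (nat_lit 516106) (nat_lit 0) (.e (nat_lit 6986) (nat_lit 377) (.e (nat_lit 2403) (nat_lit 157) (.e (nat_lit 5714) (nat_lit 312) (.e (nat_lit 2664) (nat_lit 167) .nil)))))))) (.g (nat_lit 1) (.e (nat_lit 215504) (nat_lit 0) .nil) .nil)))) 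
(.nd (nat_lit 9) 
(.lf (nat_lit 516433) (.g (nat_lit 2667) (.e (nat_lit 196664) (nat_lit 13) (.e (nat_lit 65624) (nat_lit 12) (.e (nat_lit 385074) (nat_lit 31) (.e (nat_lit 573487) (nat_lit 14) (.e (nat_lit 81664) (nat_lit 32) .nil))))) (.g (nat_lit 0) (.e (nat_lit 214930) (nat_lit 0) .nil) .nil))) 
(.lf (nat_lit 516945) (.g (nat_lit 3254) (.e (nat_lit 196666) (nat_lit 13) (.e (nat_lit 65610) (nat_lit 10) (.e (nat_lit 344117) (nat_lit 21) (.e (nat_lit 516151) (nat_lit 9) (.e (nat_lit 426020) (nat_lit 0) (.e (nat_lit 3367) (nat_lit 208) (.e (nat_lit 622627) (nat_lit 13) (.e (nat_lit 2666) (nat_lit 167) .nil)))))))) (.g (nat_lit 1) (.e (nat_lit 215832) (nat_lit 0) .nil) .nil))))) 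
(.nd (nat_lit 8) (.nd (nat_lit 9) 
(.lf (nat_lit 516305) (.g (nat_lit 1460) (.e (nat_lit 196662) (nat_lit 13) (.e (nat_lit 65619) (nat_lit 10) (.e (nat_lit 344129) (nat_lit 26) (.e (nat_lit 557065) (nat_lit 9) .nil)))) (.g (nat_lit 0) (.e (nat_lit 214764) (nat_lit 0) .nil) .nil))) 
(.lf (nat_lit 516817) (.g (nat_lit 3798) (.e (nat_lit 196666) (nat_lit 13) (.e (nat_lit 65610) (nat_lit 10) (.e (nat_lit 344117) (nat_lit 21) (.e (nat_lit 516151) (nat_lit 9) (.e (nat_lit 426017) (nat_lit 0) (.e (nat_lit 2419) (nat_lit 157) (.e (nat_lit 4817) (nat_lit 281) (.e (nat_lit 2477) (nat_lit 157) (.e (nat_lit 2663) (nat_lit 167) .nil))))))))) (.g (nat_lit 1) (.e (nat_lit 215704) (nat_lit 0) .nil) .nil)))) 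
(.nd (nat_lit 9) 
(.lf (nat_lit 516561) (.g (nat_lit 1159) (.e (nat_lit 196666) (nat_lit 13) (.e (nat_lit 65598) (nat_lit 9) (.e (nat_lit 336028) (nat_lit 3) (.e (nat_lit 98350) (nat_lit 24) .nil)))) (.g (nat_lit 0) (.e (nat_lit 215241) (nat_lit 0) .nil) .nil))) 
(.lf (nat_lit 517073) (.g (nat_lit 5007) (.e (nat_lit 196666) (nat_lit 13) (.e (nat_lit 65610) (nat_lit 10) (.e (nat_lit 344117) (nat_lit 21) (.e (nat_lit 516151) (nat_lit 9) (.e (nat_lit 426034) (nat_lit 0) (.e (nat_lit 3370) (nat_lit 208) (.e (nat_lit 622620) (nat_lit 13) (.e (nat_lit 2663) (nat_lit 167) .nil)))))))) (.g (nat_lit 1) (.e (nat_lit 215960) (nat_lit 0) .nil) .nil))))))) 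
(.nd (nat_lit 6) (.nd (nat_lit 7) (.nd (nat_lit 8) (.nd (nat_lit 9) 
(.lf (nat_lit 516145) (.g (nat_lit 1213) (.e (nat_lit 196655) (nat_lit 11) (.e (nat_lit 16465) (nat_lit 13) (.e (nat_lit 483341) (nat_lit 9) (.e (nat_lit 433920) (nat_lit 1) .nil)))) (.g (nat_lit 0) (.e (nat_lit 214388) (nat_lit 0) .nil) .nil))) 
(.lf (nat_lit 516657) (.g (nat_lit 3504) (.e (nat_lit 196666) (nat_lit 13) (.e (nat_lit 65610) (nat_lit 10) (.e (nat_lit 344117) (nat_lit 21) (.e (nat_lit 516102) (nat_lit 0) (.e (nat_lit 7107) (nat_lit 380) (.e (nat_lit 164356) (nat_lit 246) (.e (nat_lit 7936) (nat_lit 167) .nil))))))) (.g (nat_lit 1) (.e (nat_lit 215411) (nat_lit 0) .nil) .nil)))) (.nd (nat_lit 9) 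
(.lf (nat_lit 516401) (.g (nat_lit 2497) (.e (nat_lit 196664) (nat_lit 13) (.e (nat_lit 65571) (nat_lit 3) (.e (nat_lit 98333) (nat_lit 18) (.e (nat_lit 164183) (nat_lit 154) (.e (nat_lit 57378) (nat_lit 3) .nil))))) (.g (nat_lit 0) (.e (nat_lit 214895) (nat_lit 0) .nil) .nil))) 
(.lf (nat_lit 516913) (.g (nat_lit 4864) (.e (nat_lit 196666) (nat_lit 13) (.e (nat_lit 65610) (nat_lit 10) (.e (nat_lit 344117) (nat_lit 21) (.e (nat_lit 516151) (nat_lit 9) (.e (nat_lit 426019) (nat_lit 0) (.e (nat_lit 3372) (nat_lit 208) (.e (nat_lit 622626) (nat_lit 13) (.e (nat_lit 2663) (nat_lit 167) .nil)))))))) (.g (nat_lit 1) (.e (nat_lit 215800) (nat_lit 0) .nil) .nil))))) 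
(.nd (nat_lit 8) (.nd (nat_lit 9) 
(.lf (nat_lit 516273) (.g (nat_lit 1306) (.e (nat_lit 196656) (nat_lit 11) (.e (nat_lit 16470) (nat_lit 14) (.e (nat_lit 491584) (nat_lit 28) .nil))) (.g (nat_lit 0) (.e (nat_lit 214689) (nat_lit 0) .nil) .nil))) 
(.lf (nat_lit 516785) (.g (nat_lit 3390) (.e (nat_lit 196666) (nat_lit 13) (.e (nat_lit 65610) (nat_lit 10) (.e (nat_lit 344117) (nat_lit 21) (.e (nat_lit 516151) (nat_lit 9) (.e (nat_lit 426017) (nat_lit 0) (.e (nat_lit 2398) (nat_lit 157) (.e (nat_lit 4761) (nat_lit 281) (.e (nat_lit 2433) (nat_lit 157) (.e (nat_lit 2668) (nat_lit 167) .nil))))))))) (.g (nat_lit 1) (.e (nat_lit 215672) (nat_lit 0) .nil) .nil)))) 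
(.nd (nat_lit 9) 
(.lf (nat_lit 516529) (.g (nat_lit 443) (.e (nat_lit 196666) (nat_lit 13) (.e (nat_lit 65569) (nat_lit 3) (.e (nat_lit 98341) (nat_lit 20) .nil))) (.g (nat_lit 0) (.e (nat_lit 215139) (nat_lit 0) .nil) .nil))) 
(.lf (nat_lit 517041) (.g (nat_lit 3669) (.e (nat_lit 196666) (nat_lit 13) (.e (nat_lit 65610) (nat_lit 10) (.e (nat_lit 344117) (nat_lit 21) (.e (nat_lit 516151) (nat_lit 9) (.e (nat_lit 426034) (nat_lit 0) (.e (nat_lit 2422) (nat_lit 157) (.e (nat_lit 4849) (nat_lit 285) (.e (nat_lit 163870) (nat_lit 2) .nil)))))))) (.g (nat_lit 1) (.e (nat_lit 215928) (nat_lit 0) .nil) .nil)))))) 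
(.nd (nat_lit 7) (.nd (nat_lit 8) (.nd (nat_lit 9) 
(.lf (nat_lit 516209) (.g (nat_lit 2689) (.e (nat_lit 196656) (nat_lit 11) (.e (nat_lit 16436) (nat_lit 9) (.e (nat_lit 426131) (nat_lit 3) (.e (nat_lit 204882) (nat_lit 32) (.e (nat_lit 385107) (nat_lit 51) (.e (nat_lit 794665) (nat_lit 22) .nil)))))) (.g (nat_lit 1) (.e (nat_lit 214514) (nat_lit 0) .nil) .nil))) 
(.lf (nat_lit 516721) (.g (nat_lit 2203) (.e (nat_lit 196666) (nat_lit 13) (.e (nat_lit 65610) (nat_lit 10) (.e (nat_lit 344117) (nat_lit 21) (.e (nat_lit 516106) (nat_lit 0) (.e (nat_lit 7112) (nat_lit 381) (.e (nat_lit 229685) (nat_lit 246) (.e (nat_lit 2661) (nat_lit 167) .nil))))))) (.g (nat_lit 1) (.e (nat_lit 215536) (nat_lit 0) .nil) .nil)))) (.nd (nat_lit 9) 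
(.lf (nat_lit 516465) (.g (nat_lit 2082) (.e (nat_lit 196665) (nat_lit 13) (.e (nat_lit 65598) (nat_lit 9) (.e (nat_lit 336028) (nat_lit 3) (.e (nat_lit 98349) (nat_lit 24) (.e (nat_lit 417536) (nat_lit 18) .nil))))) (.g (nat_lit 0) (.e (nat_lit 214980) (nat_lit 0) .nil) .nil))) 
(.lf (nat_lit 516977) (.g (nat_lit 3702) (.e (nat_lit 196666) (nat_lit 13) (.e (nat_lit 65610) (nat_lit 10) (.e (nat_lit 344117) (nat_lit 21) (.e (nat_lit 516151) (nat_lit 9) (.e (nat_lit 426021) (nat_lit 0) (.e (nat_lit 3366) (nat_lit 208) (.e (nat_lit 622625) (nat_lit 13) (.e (nat_lit 2663) (nat_lit 167) .nil)))))))) (.g (nat_lit 1) (.e (nat_lit 215864) (nat_lit 0) .nil) .nil))))) 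
(.nd (nat_lit 8) (.nd (nat_lit 9) 
(.lf (nat_lit 516337) (.g (nat_lit 1697) (.e (nat_lit 196663) (nat_lit 13) (.e (nat_lit 65571) (nat_lit 3) (.e (nat_lit 98341) (nat_lit 20) (.e (nat_lit 221214) (nat_lit 23) .nil)))) (.g (nat_lit 0) (.e (nat_lit 214804) (nat_lit 0) .nil) .nil))) 
(.lf (nat_lit 516849) (.g (nat_lit 4116) (.e (nat_lit 196666) (nat_lit 13) (.e (nat_lit 65610) (nat_lit 10) (.e (nat_lit 344117) (nat_lit 21) (.e (nat_lit 516151) (nat_lit 9) (.e (nat_lit 426017) (nat_lit 0) (.e (nat_lit 2415) (nat_lit 157) (.e (nat_lit 4828) (nat_lit 281) (.e (nat_lit 2477) (nat_lit 157) (.e (nat_lit 2663) (nat_lit 167) .nil))))))))) (.g (nat_lit 1) (.e (nat_lit 215736) (nat_lit 0) .nil) .nil)))) 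
(.nd (nat_lit 9) 
(.lf (nat_lit 516593) (.g (nat_lit 3371) (.e (nat_lit 196666) (nat_lit 13) (.e (nat_lit 65610) (nat_lit 10) (.e (nat_lit 344117) (nat_lit 21) (.e (nat_lit 516097) (nat_lit 0) (.e (nat_lit 2401) (nat_lit 157) .nil))))) (.g (nat_lit 0) (.e (nat_lit 215305) (nat_lit 0) .nil) .nil))) 
(.lf (nat_lit 517105) (.g (nat_lit 3693) (.e (nat_lit 196666) (nat_lit 13) (.e (nat_lit 65610) (nat_lit 10) (.e (nat_lit 344117) (nat_lit 21) (.e (nat_lit 516151) (nat_lit 9) (.e (nat_lit 426037) (nat_lit 0) (.e (nat_lit 2426) (nat_lit 157) (.e (nat_lit 4850) (nat_lit 286) (.e (nat_lit 229387) (nat_lit 2) .nil)))))))) (.g (nat_lit 1) (.e (nat_lit 215992) (nat_lit 0) .nil) .nil))))))))) 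
(.nd (nat_lit 4) (.nd (nat_lit 5) (.nd (nat_lit 6) (.nd (nat_lit 7) (.nd (nat_lit 8) 
(.nd (nat_lit 9) 
(.lf (nat_lit 516105) (.g (nat_lit 2702) (.e (nat_lit 196654) (nat_lit 11) (.e (nat_lit 16466) (nat_lit 13) (.e (nat_lit 483337) (nat_lit 9) (.e (nat_lit 426107) (nat_lit 1) (.e (nat_lit 164326) (nat_lit 230) (.e (nat_lit 163865) (nat_lit 2) .nil)))))) (.g (nat_lit 1) (.e (nat_lit 214242) (nat_lit 0) .nil) .nil))) 
(.lf (nat_lit 516617) (.g (nat_lit 3741) (.e (nat_lit 196666) (nat_lit 13) (.e (nat_lit 65610) (nat_lit 10) (.e (nat_lit 344117) (nat_lit 21) (.e (nat_lit 516097) (nat_lit 0) (.e (nat_lit 6948) (nat_lit 377) (.e (nat_lit 2816) (nat_lit 181) (.e (nat_lit 311312) (nat_lit 2) .nil))))))) (.g (nat_lit 1) (.e (nat_lit 215363) (nat_lit 0) .nil) .nil)))) (.nd (nat_lit 9) 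
(.lf (nat_lit 516361) (.g (nat_lit 1986) (.e (nat_lit 196663) (nat_lit 13) (.e (nat_lit 65630) (nat_lit 14) (.e (nat_lit 401425) (nat_lit 2) (.e (nat_lit 196628) (nat_lit 9) (.e (nat_lit 1600) (nat_lit 112) .nil))))) (.g (nat_lit 0) (.e (nat_lit 214843) (nat_lit 0) .nil) .nil))) 
(.lf (nat_lit 516873) (.g (nat_lit 3938) (.e (nat_lit 196666) (nat_lit 13) (.e (nat_lit 65610) (nat_lit 10) (.e (nat_lit 344117) (nat_lit 21) (.e (nat_lit 516151) (nat_lit 9) (.e (nat_lit 426017) (nat_lit 0) (.e (nat_lit 3372) (nat_lit 208) (.e (nat_lit 622620) (nat_lit 13) (.e (nat_lit 2666) (nat_lit 167) .nil)))))))) (.g (nat_lit 1) (.e (nat_lit 215760) (nat_lit 0) .nil) .nil))))) 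
(.nd (nat_lit 8) (.nd (nat_lit 9) 
(.lf (nat_lit 516233) (.g (nat_lit 1823) (.e (nat_lit 196656) (nat_lit 11) (.e (nat_lit 16448) (nat_lit 10) (.e (nat_lit 434231) (nat_lit 23) (.e (nat_lit 532527) (nat_lit 9) .nil)))) (.g (nat_lit 0) (.e (nat_lit 214591) (nat_lit 0) .nil) .nil))) 
(.lf (nat_lit 516745) (.g (nat_lit 3556) (.e (nat_lit 196666) (nat_lit 13) (.e (nat_lit 65610) (nat_lit 10) (.e (nat_lit 344117) (nat_lit 21) (.e (nat_lit 516139) (nat_lit 7) (.e (nat_lit 409609) (nat_lit 10) (.e (nat_lit 5735) (nat_lit 312) (.e (nat_lit 2666) (nat_lit 167) .nil))))))) (.g (nat_lit 1) (.e (nat_lit 215630) (nat_lit 0) .nil) .nil)))) (.nd (nat_lit 9) 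
(.lf (nat_lit 516489) (.g (nat_lit 2004) (.e (nat_lit 196665) (nat_lit 13) (.e (nat_lit 65626) (nat_lit 13) (.e (nat_lit 393225) (nat_lit 9) (.e (nat_lit 335986) (nat_lit 1) (.e (nat_lit 57924) (nat_lit 282) .nil))))) (.g (nat_lit 0) (.e (nat_lit 215025) (nat_lit 0) .nil) .nil))) 
(.lf (nat_lit 517001) (.g (nat_lit 4335) (.e (nat_lit 196666) (nat_lit 13) (.e (nat_lit 65610) (nat_lit 10) (.e (nat_lit 344117) (nat_lit 21) (.e (nat_lit 516151) (nat_lit 9) (.e (nat_lit 426021) (nat_lit 0) (.e (nat_lit 3373) (nat_lit 208) (.e (nat_lit 622620) (nat_lit 13) (.e (nat_lit 2663) (nat_lit 167) .nil)))))))) (.g (nat_lit 1) (.e (nat_lit 215888) (nat_lit 0) .nil) .nil)))))) 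
(.nd (nat_lit 7) (.nd (nat_lit 8) (.nd (nat_lit 9) 
(.lf (nat_lit 516169) (.g (nat_lit 1583) (.e (nat_lit 196656) (nat_lit 11) (.e (nat_lit 16412) (nat_lit 2) (.e (nat_lit 196656) (nat_lit 11) (.e (nat_lit 16414) (nat_lit 3) .nil)))) (.g (nat_lit 0) (.e (nat_lit 214446) (nat_lit 0) .nil) .nil))) 
(.lf (nat_lit 516681) (.g (nat_lit 2965) (.e (nat_lit 196666) (nat_lit 13) (.e (nat_lit 65610) (nat_lit 10) (.e (nat_lit 344117) (nat_lit 21) (.e (nat_lit 516106) (nat_lit 0) (.e (nat_lit 6966) (nat_lit 377) (.e (nat_lit 2506) (nat_lit 157) (.e (nat_lit 5664) (nat_lit 312) (.e (nat_lit 2661) (nat_lit 167) .nil)))))))) (.g (nat_lit 1) (.e (nat_lit 215496) (nat_lit 0) .nil) .nil)))) 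
(.nd (nat_lit 9) 
(.lf (nat_lit 516425) (.g (nat_lit 2534) (.e (nat_lit 196664) (nat_lit 13) (.e (nat_lit 65604) (nat_lit 9) (.e (nat_lit 336013) (nat_lit 2) (.e (nat_lit 90165) (nat_lit 12) (.e (nat_lit 164209) (nat_lit 176) (.e (nat_lit 2797) (nat_lit 180) (.e (nat_lit 303117) (nat_lit 2) .nil))))))) (.g (nat_lit 1) (.e (nat_lit 214922) (nat_lit 0) .nil) .nil))) 
(.lf (nat_lit 516937) (.g (nat_lit 3825) (.e (nat_lit 196666) (nat_lit 13) (.e (nat_lit 65610) (nat_lit 10) (.e (nat_lit 344117) (nat_lit 21) (.e (nat_lit 516151) (nat_lit 9) (.e (nat_lit 426020) (nat_lit 0) (.e (nat_lit 3366) (nat_lit 208) (.e (nat_lit 622627) (nat_lit 13) (.e (nat_lit 2665) (nat_lit 167) .nil)))))))) (.g (nat_lit 1) (.e (nat_lit 215824) (nat_lit 0) .nil) .nil))))) 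
(.nd (nat_lit 8) (.nd (nat_lit 9) 
(.lf (nat_lit 516297) (.g (nat_lit 1221) (.e (nat_lit 196662) (nat_lit 13) (.e (nat_lit 65569) (nat_lit 3) (.e (nat_lit 98334) (nat_lit 18) (.e (nat_lit 164182) (nat_lit 154) .nil)))) (.g (nat_lit 0) (.e (nat_lit 214755) (nat_lit 0) .nil) .nil))) 
(.lf (nat_lit 516809) (.g (nat_lit 4473) (.e (nat_lit 196666) (nat_lit 13) (.e (nat_lit 65610) (nat_lit 10) (.e (nat_lit 344117) (nat_lit 21) (.e (nat_lit 516151) (nat_lit 9) (.e (nat_lit 426017) (nat_lit 0) (.e (nat_lit 2416) (nat_lit 157) (.e (nat_lit 4849) (nat_lit 285) (.e (nat_lit 163870) (nat_lit 2) .nil)))))))) (.g (nat_lit 1) (.e (nat_lit 215696) (nat_lit 0) .nil) .nil)))) 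
(.nd (nat_lit 9) 
(.lf (nat_lit 516553) (.g (nat_lit 937) (.e (nat_lit 196666) (nat_lit 13) (.e (nat_lit 65586) (nat_lit 7) (.e (nat_lit 319500) (nat_lit 10) (.e (nat_lit 562) (nat_lit 41) .nil)))) (.g (nat_lit 0) (.e (nat_lit 215211) (nat_lit 0) .nil) .nil))) 
(.lf (nat_lit 517065) (.g (nat_lit 4305) (.e (nat_lit 196666) (nat_lit 13) (.e (nat_lit 65610) (nat_lit 10) (.e (nat_lit 344117) (nat_lit 21) (.e (nat_lit 516151) (nat_lit 9) (.e (nat_lit 426034) (nat_lit 0) (.e (nat_lit 3366) (nat_lit 208) (.e (nat_lit 622627) (nat_lit 13) (.e (nat_lit 2665) (nat_lit 167) .nil)))))))) (.g (nat_lit 1) (.e (nat_lit 215952) (nat_lit 0) .nil) .nil))))))) 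
(.nd (nat_lit 6) (.nd (nat_lit 7) (.nd (nat_lit 8) (.nd (nat_lit 9) 
(.lf (nat_lit 516137) (.g (nat_lit 1332) (.e (nat_lit 196655) (nat_lit 11) (.e (nat_lit 16465) (nat_lit 13) (.e (nat_lit 483341) (nat_lit 9) (.e (nat_lit 426097) (nat_lit 1) .nil)))) (.g (nat_lit 0) (.e (nat_lit 214380) (nat_lit 0) .nil) .nil))) 
(.lf (nat_lit 516649) (.g (nat_lit 2524) (.e (nat_lit 196666) (nat_lit 13) (.e (nat_lit 65610) (nat_lit 10) (.e (nat_lit 344117) (nat_lit 21) (.e (nat_lit 516100) (nat_lit 0) .nil)))) (.g (nat_lit 0) (.e (nat_lit 215403) (nat_lit 0) .nil) .nil)))) (.nd (nat_lit 9) 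
(.lf (nat_lit 516393) (.g (nat_lit 3606) (.e (nat_lit 196663) (nat_lit 13) (.e (nat_lit 65637) (nat_lit 15) (.e (nat_lit 3632) (nat_lit 227) (.e (nat_lit 778317) (nat_lit 3) (.e (nat_lit 57476) (nat_lit 28) .nil))))) (.g (nat_lit 0) (.e (nat_lit 214878) (nat_lit 0) .nil) .nil))) 
(.lf (nat_lit 516905) (.g (nat_lit 3351) (.e (nat_lit 196666) (nat_lit 13) (.e (nat_lit 65610) (nat_lit 10) (.e (nat_lit 344117) (nat_lit 21) (.e (nat_lit 516151) (nat_lit 9) (.e (nat_lit 426019) (nat_lit 0) (.e (nat_lit 3366) (nat_lit 208) (.e (nat_lit 622624) (nat_lit 13) (.e (nat_lit 2668) (nat_lit 167) .nil)))))))) (.g (nat_lit 1) (.e (nat_lit 215792) (nat_lit 0) .nil) .nil))))) 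
(.nd (nat_lit 8) (.nd (nat_lit 9) 
(.lf (nat_lit 516265) (.g (nat_lit 1317) (.e (nat_lit 196656) (nat_lit 11) (.e (nat_lit 16465) (nat_lit 13) (.e (nat_lit 483341) (nat_lit 9) (.e (nat_lit 433920) (nat_lit 20) .nil)))) (.g (nat_lit 0) (.e (nat_lit 214677) (nat_lit 0) .nil) .nil))) 
(.lf (nat_lit 516777) (.g (nat_lit 3250) (.e (nat_lit 196666) (nat_lit 13) (.e (nat_lit 65610) (nat_lit 10) (.e (nat_lit 344117) (nat_lit 21) (.e (nat_lit 516142) (nat_lit 8) (.e (nat_lit 417817) (nat_lit 10) (.e (nat_lit 5667) (nat_lit 312) (.e (nat_lit 2661) (nat_lit 167) .nil))))))) (.g (nat_lit 1) (.e (nat_lit 215662) (nat_lit 0) .nil) .nil)))) (.nd (nat_lit 9) 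
(.lf (nat_lit 516521) (.g (nat_lit 5040) (.e (nat_lit 196666) (nat_lit 13) (.e (nat_lit 65569) (nat_lit 3) (.e (nat_lit 98333) (nat_lit 18) (.e (nat_lit 164183) (nat_lit 154) (.e (nat_lit 57378) (nat_lit 3) (.e (nat_lit 98338) (nat_lit 19) (.e (nat_lit 213013) (nat_lit 9) (.e (nat_lit 2666) (nat_lit 167) .nil)))))))) (.g (nat_lit 1) (.e (nat_lit 215103) (nat_lit 0) .nil) .nil))) 
(.lf (nat_lit 517033) (.g (nat_lit 3650) (.e (nat_lit 196666) (nat_lit 13) (.e (nat_lit 65610) (nat_lit 10) (.e (nat_lit 344117) (nat_lit 21) (.e (nat_lit 516151) (nat_lit 9) (.e (nat_lit 426026) (nat_lit 0) (.e (nat_lit 7936) (nat_lit 208) (.e (nat_lit 622620) (nat_lit 13) (.e (nat_lit 2663) (nat_lit 167) .nil)))))))) (.g (nat_lit 1) (.e (nat_lit 215920) (nat_lit 0) .nil) .nil)))))) 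
(.nd (nat_lit 7) (.nd (nat_lit 8) (.nd (nat_lit 9) 
(.lf (nat_lit 516201) (.g (nat_lit 3109) (.e (nat_lit 196656) (nat_lit 11) (.e (nat_lit 16436) (nat_lit 9) (.e (nat_lit 426131) (nat_lit 3) (.e (nat_lit 204854) (nat_lit 26) (.e (nat_lit 336336) (nat_lit 20) (.e (nat_lit 221212) (nat_lit 22) .nil)))))) (.g (nat_lit 1) (.e (nat_lit 214502) (nat_lit 0) .nil) .nil))) 
(.lf (nat_lit 516713) (.g (nat_lit 2708) (.e (nat_lit 196666) (nat_lit 13) (.e (nat_lit 65610) (nat_lit 10) (.e (nat_lit 344117) (nat_lit 21) (.e (nat_lit 516106) (nat_lit 0) (.e (nat_lit 7936) (nat_lit 377) (.e (nat_lit 2440) (nat_lit 157) (.e (nat_lit 5627) (nat_lit 312) (.e (nat_lit 2668) (nat_lit 167) .nil)))))))) (.g (nat_lit 1) (.e (nat_lit 215528) (nat_lit 0) .nil) .nil)))) 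
(.nd (nat_lit 9) 
(.lf (nat_lit 516457) (.g (nat_lit 1902) (.e (nat_lit 196665) (nat_lit 13) (.e (nat_lit 65594) (nat_lit 9) (.e (nat_lit 336028) (nat_lit 3) (.e (nat_lit 98349) (nat_lit 24) (.e (nat_lit 409646) (nat_lit 18) .nil))))) (.g (nat_lit 0) (.e (nat_lit 214962) (nat_lit 0) .nil) .nil))) 
(.lf (nat_lit 516969) (.g (nat_lit 3341) (.e (nat_lit 196666) (nat_lit 13) (.e (nat_lit 65610) (nat_lit 10) (.e (nat_lit 344117) (nat_lit 21) (.e (nat_lit 516151) (nat_lit 9) (.e (nat_lit 426020) (nat_lit 0) (.e (nat_lit 7936) (nat_lit 208) (.e (nat_lit 630528) (nat_lit 13) (.e (nat_lit 2666) (nat_lit 167) .nil)))))))) (.g (nat_lit 1) (.e (nat_lit 215856) (nat_lit 0) .nil) .nil))))) 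
(.nd (nat_lit 8) (.nd (nat_lit 9) 
(.lf (nat_lit 516329) (.g (nat_lit 2653) (.e (nat_lit 196663) (nat_lit 13) (.e (nat_lit 65571) (nat_lit 3) (.e (nat_lit 98333) (nat_lit 18) (.e (nat_lit 164183) (nat_lit 154) (.e (nat_lit 57379) (nat_lit 3) .nil))))) (.g (nat_lit 0) (.e (nat_lit 214796) (nat_lit 0) .nil) .nil))) 
(.lf (nat_lit 516841) (.g (nat_lit 5157) (.e (nat_lit 196666) (nat_lit 13) (.e (nat_lit 65610) (nat_lit 10) (.e (nat_lit 344117) (nat_lit 21) (.e (nat_lit 516151) (nat_lit 9) (.e (nat_lit 426017) (nat_lit 0) (.e (nat_lit 2412) (nat_lit 157) (.e (nat_lit 4847) (nat_lit 285) (.e (nat_lit 163870) (nat_lit 2) .nil)))))))) (.g (nat_lit 1) (.e (nat_lit 215728) (nat_lit 0) .nil) .nil)))) 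
(.nd (nat_lit 9) 
(.lf (nat_lit 516585) (.g (nat_lit 431) (.e (nat_lit 196666) (nat_lit 13) (.e (nat_lit 65610) (nat_lit 10) (.e (nat_lit 344088) (nat_lit 18) .nil))) (.g (nat_lit 0) (.e (nat_lit 215282) (nat_lit 0) .nil) .nil))) 
(.lf (nat_lit 517097) (.g (nat_lit 4888) (.e (nat_lit 196666) (nat_lit 13) (.e (nat_lit 65610) (nat_lit 10) (.e (nat_lit 344117) (nat_lit 21) (.e (nat_lit 516151) (nat_lit 9) (.e (nat_lit 426037) (nat_lit 0) (.e (nat_lit 2423) (nat_lit 157) (.e (nat_lit 4848) (nat_lit 285) (.e (nat_lit 163870) (nat_lit 2) .nil)))))))) (.g (nat_lit 1) (.e (nat_lit 215984) (nat_lit 0) .nil) .nil)))))))) 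
(.nd (nat_lit 5) (.nd (nat_lit 6) (.nd (nat_lit 7) (.nd (nat_lit 8) (.nd (nat_lit 9) 
(.lf (nat_lit 516121) (.g (nat_lit 2704) (.e (nat_lit 196655) (nat_lit 11) (.e (nat_lit 16410) (nat_lit 2) (.e (nat_lit 196654) (nat_lit 11) (.e (nat_lit 16416) (nat_lit 3) (.e (nat_lit 204809) (nat_lit 9) (.e (nat_lit 426124) (nat_lit 2) .nil)))))) (.g (nat_lit 1) (.e (nat_lit 214294) (nat_lit 0) .nil) .nil))) 
(.lf (nat_lit 516633) (.g (nat_lit 2252) (.e (nat_lit 196666) (nat_lit 13) (.e (nat_lit 65610) (nat_lit 10) (.e (nat_lit 344117) (nat_lit 21) (.e (nat_lit 516098) (nat_lit 0) (.e (nat_lit 2411) (nat_lit 157) .nil))))) (.g (nat_lit 0) (.e (nat_lit 215383) (nat_lit 0) .nil) .nil)))) (.nd (nat_lit 9) 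
(.lf (nat_lit 516377) (.g (nat_lit 3107) (.e (nat_lit 196663) (nat_lit 13) (.e (nat_lit 65630) (nat_lit 14) (.e (nat_lit 401425) (nat_lit 2) (.e (nat_lit 196681) (nat_lit 17) (.e (nat_lit 131077) (nat_lit 0) .nil))))) (.g (nat_lit 0) (.e (nat_lit 214859) (nat_lit 0) .nil) .nil))) 
(.lf (nat_lit 516889) (.g (nat_lit 3437) (.e (nat_lit 196666) (nat_lit 13) (.e (nat_lit 65610) (nat_lit 10) (.e (nat_lit 344117) (nat_lit 21) (.e (nat_lit 516151) (nat_lit 9) (.e (nat_lit 426017) (nat_lit 0) (.e (nat_lit 7936) (nat_lit 208) (.e (nat_lit 622622) (nat_lit 13) (.e (nat_lit 2654) (nat_lit 167) .nil)))))))) (.g (nat_lit 1) (.e (nat_lit 215776) (nat_lit 0) .nil) .nil))))) 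
(.nd (nat_lit 8) (.nd (nat_lit 9) 
(.lf (nat_lit 516249) (.g (nat_lit 1304) (.e (nat_lit 196656) (nat_lit 11) (.e (nat_lit 16456) (nat_lit 12) (.e (nat_lit 475177) (nat_lit 24) (.e (nat_lit 524032) (nat_lit 18) .nil)))) (.g (nat_lit 0) (.e (nat_lit 214658) (nat_lit 0) .nil) .nil))) 
(.lf (nat_lit 516761) (.g (nat_lit 3199) (.e (nat_lit 196666) (nat_lit 13) (.e (nat_lit 65610) (nat_lit 10) (.e (nat_lit 344117) (nat_lit 21) (.e (nat_lit 516139) (nat_lit 7) (.e (nat_lit 409618) (nat_lit 10) (.e (nat_lit 5666) (nat_lit 312) (.e (nat_lit 2654) (nat_lit 167) .nil))))))) (.g (nat_lit 1) (.e (nat_lit 215646) (nat_lit 0) .nil) .nil)))) (.nd (nat_lit 9) 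
(.lf (nat_lit 516505) (.g (nat_lit 3785) (.e (nat_lit 196665) (nat_lit 13) (.e (nat_lit 65628) (nat_lit 14) (.e (nat_lit 401428) (nat_lit 3) (.e (nat_lit 204846) (nat_lit 24) (.e (nat_lit 319490) (nat_lit 0) (.e (nat_lit 5664) (nat_lit 312) (.e (nat_lit 2661) (nat_lit 167) .nil))))))) (.g (nat_lit 1) (.e (nat_lit 215044) (nat_lit 0) .nil) .nil))) 
(.lf (nat_lit 517017) (.g (nat_lit 3308) (.e (nat_lit 196666) (nat_lit 13) (.e (nat_lit 65610) (nat_lit 10) (.e (nat_lit 344117) (nat_lit 21) (.e (nat_lit 516151) (nat_lit 9) (.e (nat_lit 426022) (nat_lit 0) (.e (nat_lit 2403) (nat_lit 157) (.e (nat_lit 4825) (nat_lit 281) (.e (nat_lit 2478) (nat_lit 157) (.e (nat_lit 2666) (nat_lit 167) .nil))))))))) (.g (nat_lit 1) (.e (nat_lit 215904) (nat_lit 0) .nil) .nil)))))) 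
(.nd (nat_lit 7) (.nd (nat_lit 8) (.nd (nat_lit 9) 
(.lf (nat_lit 516185) (.g (nat_lit 538) (.e (nat_lit 196656) (nat_lit 11) (.e (nat_lit 16425) (nat_lit 7) (.e (nat_lit 409623) (nat_lit 10) .nil))) (.g (nat_lit 0) (.e (nat_lit 214480) (nat_lit 0) .nil) .nil))) 
(.lf (nat_lit 516697) (.g (nat_lit 3646) (.e (nat_lit 196666) (nat_lit 13) (.e (nat_lit 65610) (nat_lit 10) (.e (nat_lit 344117) (nat_lit 21) (.e (nat_lit 516106) (nat_lit 0) (.e (nat_lit 7008) (nat_lit 377) (.e (nat_lit 2424) (nat_lit 157) (.e (nat_lit 5735) (nat_lit 312) (.e (nat_lit 2666) (nat_lit 167) .nil)))))))) (.g (nat_lit 1) (.e (nat_lit 215512) (nat_lit 0) .nil) .nil)))) 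
(.nd (nat_lit 9) 
(.lf (nat_lit 516441) (.g (nat_lit 1818) (.e (nat_lit 196664) (nat_lit 13) (.e (nat_lit 65637) (nat_lit 15) (.e (nat_lit 3253) (nat_lit 197) (.e (nat_lit 532501) (nat_lit 1) (.e (nat_lit 57852) (nat_lit 252) .nil))))) (.g (nat_lit 0) (.e (nat_lit 214939) (nat_lit 0) .nil) .nil))) 
(.lf (nat_lit 516953) (.g (nat_lit 3509) (.e (nat_lit 196666) (nat_lit 13) (.e (nat_lit 65610) (nat_lit 10) (.e (nat_lit 344117) (nat_lit 21) (.e (nat_lit 516151) (nat_lit 9) (.e (nat_lit 426020) (nat_lit 0) (.e (nat_lit 3372) (nat_lit 208) (.e (nat_lit 622621) (nat_lit 13) (.e (nat_lit 2668) (nat_lit 167) .nil)))))))) (.g (nat_lit 1) (.e (nat_lit 215840) (nat_lit 0) .nil) .nil))))) 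
(.nd (nat_lit 8) (.nd (nat_lit 9) 
(.lf (nat_lit 516313) (.g (nat_lit 2061) (.e (nat_lit 196663) (nat_lit 13) (.e (nat_lit 65569) (nat_lit 3) (.e (nat_lit 98334) (nat_lit 18) (.e (nat_lit 164182) (nat_lit 154) (.e (nat_lit 57379) (nat_lit 3) .nil))))) (.g (nat_lit 0) (.e (nat_lit 214773) (nat_lit 0) .nil) .nil))) 
(.lf (nat_lit 516825) (.g (nat_lit 3347) (.e (nat_lit 196666) (nat_lit 13) (.e (nat_lit 65610) (nat_lit 10) (.e (nat_lit 344117) (nat_lit 21) (.e (nat_lit 516151) (nat_lit 9) (.e (nat_lit 426017) (nat_lit 0) (.e (nat_lit 2432) (nat_lit 157) (.e (nat_lit 4850) (nat_lit 286) (.e (nat_lit 229387) (nat_lit 2) .nil)))))))) (.g (nat_lit 1) (.e (nat_lit 215712) (nat_lit 0) .nil) .nil)))) 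
(.nd (nat_lit 9) 
(.lf (nat_lit 516569) (.g (nat_lit 786) (.e (nat_lit 196666) (nat_lit 13) (.e (nat_lit 65599) (nat_lit 9) (.e (nat_lit 336028) (nat_lit 3) (.e (nat_lit 98325) (nat_lit 17) .nil)))) (.g (nat_lit 0) (.e (nat_lit 215256) (nat_lit 0) .nil) .nil))) 
(.lf (nat_lit 517081) (.g (nat_lit 3499) (.e (nat_lit 196666) (nat_lit 13) (.e (nat_lit 65610) (nat_lit 10) (.e (nat_lit 344117) (nat_lit 21) (.e (nat_lit 516151) (nat_lit 9) (.e (nat_lit 426034) (nat_lit 0) (.e (nat_lit 3370) (nat_lit 208) (.e (nat_lit 622627) (nat_lit 13) (.e (nat_lit 2666) (nat_lit 167) .nil)))))))) (.g (nat_lit 1) (.e (nat_lit 215968) (nat_lit 0) .nil) .nil))))))) 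
(.nd (nat_lit 6) (.nd (nat_lit 7) (.nd (nat_lit 8) (.nd (nat_lit 9) 
(.lf (nat_lit 516153) (.g (nat_lit 3661) (.e (nat_lit 196655) (nat_lit 11) (.e (nat_lit 16473) (nat_lit 14) (.e (nat_lit 491539) (nat_lit 3) (.e (nat_lit 98384) (nat_lit 32) (.e (nat_lit 483072) (nat_lit 51) .nil))))) (.g (nat_lit 0) (.e (nat_lit 214410) (nat_lit 0) .nil) .nil))) 
(.lf (nat_lit 516665) (.g (nat_lit 2636) (.e (nat_lit 196666) (nat_lit 13) (.e (nat_lit 65610) (nat_lit 10) (.e (nat_lit 344117) (nat_lit 21) (.e (nat_lit 516106) (nat_lit 0) (.e (nat_lit 2424) (nat_lit 157) (.e (nat_lit 4516) (nat_lit 263) (.e (nat_lit 2618) (nat_lit 164) (.e (nat_lit 172064) (nat_lit 2) .nil)))))))) (.g (nat_lit 1) (.e (nat_lit 215427) (nat_lit 0) .nil) .nil)))) 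
(.nd (nat_lit 9) 
(.lf (nat_lit 516409) (.g (nat_lit 1750) (.e (nat_lit 196664) (nat_lit 13) (.e (nat_lit 65571) (nat_lit 3) (.e (nat_lit 98334) (nat_lit 18) (.e (nat_lit 164183) (nat_lit 154) .nil)))) (.g (nat_lit 0) (.e (nat_lit 214903) (nat_lit 0) .nil) .nil))) 
(.lf (nat_lit 516921) (.g (nat_lit 3288) (.e (nat_lit 196666) (nat_lit 13) (.e (nat_lit 65610) (nat_lit 10) (.e (nat_lit 344117) (nat_lit 21) (.e (nat_lit 516151) (nat_lit 9) (.e (nat_lit 426019) (nat_lit 0) (.e (nat_lit 7936) (nat_lit 208) (.e (nat_lit 622620) (nat_lit 13) (.e (nat_lit 2666) (nat_lit 167) .nil)))))))) (.g (nat_lit 1) (.e (nat_lit 215808) (nat_lit 0) .nil) .nil))))) 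
(.nd (nat_lit 8) (.nd (nat_lit 9) 
(.lf (nat_lit 516281) (.g (nat_lit 1628) (.e (nat_lit 196656) (nat_lit 11) (.e (nat_lit 16473) (nat_lit 14) (.e (nat_lit 491538) (nat_lit 3) (.e (nat_lit 98385) (nat_lit 32) .nil)))) (.g (nat_lit 0) (.e (nat_lit 214701) (nat_lit 0) .nil) .nil))) 
(.lf (nat_lit 516793) (.g (nat_lit 5144) (.e (nat_lit 196666) (nat_lit 13) (.e (nat_lit 65610) (nat_lit 10) (.e (nat_lit 344117) (nat_lit 21) (.e (nat_lit 516151) (nat_lit 9) (.e (nat_lit 426017) (nat_lit 0) (.e (nat_lit 2398) (nat_lit 157) (.e (nat_lit 4847) (nat_lit 285) (.e (nat_lit 163870) (nat_lit 2) .nil)))))))) (.g (nat_lit 1) (.e (nat_lit 215680) (nat_lit 0) .nil) .nil)))) 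
(.nd (nat_lit 9) 
(.lf (nat_lit 516537) (.g (nat_lit 3627) (.e (nat_lit 196666) (nat_lit 13) (.e (nat_lit 65571) (nat_lit 3) (.e (nat_lit 98332) (nat_lit 18) (.e (nat_lit 164182) (nat_lit 154) (.e (nat_lit 57379) (nat_lit 3) (.e (nat_lit 98338) (nat_lit 19) (.e (nat_lit 213013) (nat_lit 9) (.e (nat_lit 2666) (nat_lit 167) .nil)))))))) (.g (nat_lit 1) (.e (nat_lit 215157) (nat_lit 0) .nil) .nil))) 
(.lf (nat_lit 517049) (.g (nat_lit 3742) (.e (nat_lit 196666) (nat_lit 13) (.e (nat_lit 65610) (nat_lit 10) (.e (nat_lit 344117) (nat_lit 21) (.e (nat_lit 516151) (nat_lit 9) (.e (nat_lit 426034) (nat_lit 0) (.e (nat_lit 2424) (nat_lit 157) (.e (nat_lit 4849) (nat_lit 285) (.e (nat_lit 163870) (nat_lit 2) .nil)))))))) (.g (nat_lit 1) (.e (nat_lit 215936) (nat_lit 0) .nil) .nil)))))) 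
(.nd (nat_lit 7) (.nd (nat_lit 8) (.nd (nat_lit 9) 
(.lf (nat_lit 516217) (.g (nat_lit 640) (.e (nat_lit 196656) (nat_lit 11) (.e (nat_lit 16436) (nat_lit 9) (.e (nat_lit 426567) (nat_lit 34) .nil))) (.g (nat_lit 0) (.e (nat_lit 214523) (nat_lit 0) .nil) .nil))) 
(.lf (nat_lit 516729) (.g (nat_lit 2730) (.e (nat_lit 196666) (nat_lit 13) (.e (nat_lit 65610) (nat_lit 10) (.e (nat_lit 344117) (nat_lit 21) (.e (nat_lit 516110) (nat_lit 0) .nil)))) (.g (nat_lit 0) (.e (nat_lit 215544) (nat_lit 0) .nil) .nil)))) (.nd (nat_lit 9) 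
(.lf (nat_lit 516473) (.g (nat_lit 1534) (.e (nat_lit 196665) (nat_lit 13) (.e (nat_lit 65617) (nat_lit 10) (.e (nat_lit 344117) (nat_lit 21) (.e (nat_lit 516138) (nat_lit 7) .nil)))) (.g (nat_lit 0) (.e (nat_lit 214993) (nat_lit 0) .nil) .nil))) 
(.lf (nat_lit 516985) (.g (nat_lit 3341) (.e (nat_lit 196666) (nat_lit 13) (.e (nat_lit 65610) (nat_lit 10) (.e (nat_lit 344117) (nat_lit 21) (.e (nat_lit 516151) (nat_lit 9) (.e (nat_lit 426021) (nat_lit 0) (.e (nat_lit 3367) (nat_lit 208) (.e (nat_lit 622626) (nat_lit 13) (.e (nat_lit 2666) (nat_lit 167) .nil)))))))) (.g (nat_lit 1) (.e (nat_lit 215872) (nat_lit 0) .nil) .nil))))) 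
(.nd (nat_lit 8) (.nd (nat_lit 9) 
(.lf (nat_lit 516345) (.g (nat_lit 4570) (.e (nat_lit 196663) (nat_lit 13) (.e (nat_lit 65571) (nat_lit 3) (.e (nat_lit 98342) (nat_lit 20) (.e (nat_lit 221214) (nat_lit 23) (.e (nat_lit 204830) (nat_lit 18) (.e (nat_lit 57927) (nat_lit 282) (.e (nat_lit 163868) (nat_lit 2) .nil))))))) (.g (nat_lit 1) (.e (nat_lit 214818) (nat_lit 0) .nil) .nil))) 
(.lf (nat_lit 516857) (.g (nat_lit 4770) (.e (nat_lit 196666) (nat_lit 13) (.e (nat_lit 65610) (nat_lit 10) (.e (nat_lit 344117) (nat_lit 21) (.e (nat_lit 516151) (nat_lit 9) (.e (nat_lit 426017) (nat_lit 0) (.e (nat_lit 3366) (nat_lit 208) (.e (nat_lit 622626) (nat_lit 13) (.e (nat_lit 2663) (nat_lit 167) .nil)))))))) (.g (nat_lit 1) (.e (nat_lit 215744) (nat_lit 0) .nil) .nil)))) 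
(.nd (nat_lit 9) 
(.lf (nat_lit 516601) (.g (nat_lit 3372) (.e (nat_lit 196666) (nat_lit 13) (.e (nat_lit 65610) (nat_lit 10) (.e (nat_lit 344117) (nat_lit 21) (.e (nat_lit 516097) (nat_lit 0) (.e (nat_lit 2431) (nat_lit 157) .nil))))) (.g (nat_lit 0) (.e (nat_lit 215328) (nat_lit 0) .nil) .nil))) 
(.lf (nat_lit 517113) (.g (nat_lit 3836) (.e (nat_lit 196666) (nat_lit 13) (.e (nat_lit 65610) (nat_lit 10) (.e (nat_lit 344117) (nat_lit 21) (.e (nat_lit 516151) (nat_lit 9) (.e (nat_lit 426037) (nat_lit 0) (.e (nat_lit 3366) (nat_lit 208) (.e (nat_lit 622622) (nat_lit 13) (.e (nat_lit 2668) (nat_lit 167) .nil)))))))) (.g (nat_lit 1) (.e (nat_lit 216000) (nat_lit 0) .nil) .nil)))))))))) 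
(.nd (nat_lit 3) (.nd (nat_lit 4) (.nd (nat_lit 5) (.nd (nat_lit 6) (.nd (nat_lit 7) 
(.nd (nat_lit 8) (.nd (nat_lit 9) 
(.lf (nat_lit 516101) (.g (nat_lit 1891) (.e (nat_lit 196654) (nat_lit 11) (.e (nat_lit 16466) (nat_lit 13) (.e (nat_lit 483337) (nat_lit 9) (.e (nat_lit 426097) (nat_lit 1) (.e (nat_lit 164327) (nat_lit 230) .nil))))) (.g (nat_lit 0) (.e (nat_lit 214238) (nat_lit 0) .nil) .nil))) 
(.lf (nat_lit 516613) (.g (nat_lit 3371) (.e (nat_lit 196666) (nat_lit 13) (.e (nat_lit 65610) (nat_lit 10) (.e (nat_lit 344117) (nat_lit 21) (.e (nat_lit 516097) (nat_lit 0) (.e (nat_lit 3357) (nat_lit 207) .nil))))) (.g (nat_lit 0) (.e (nat_lit 215356) (nat_lit 0) .nil) .nil)))) (.nd (nat_lit 9) 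
(.lf (nat_lit 516357) (.g (nat_lit 1846) (.e (nat_lit 196663) (nat_lit 13) (.e (nat_lit 65624) (nat_lit 12) (.e (nat_lit 385068) (nat_lit 26) (.e (nat_lit 532515) (nat_lit 3) .nil)))) (.g (nat_lit 0) (.e (nat_lit 214837) (nat_lit 0) .nil) .nil))) 
(.lf (nat_lit 516869) (.g (nat_lit 3587) (.e (nat_lit 196666) (nat_lit 13) (.e (nat_lit 65610) (nat_lit 10) (.e (nat_lit 344117) (nat_lit 21) (.e (nat_lit 516151) (nat_lit 9) (.e (nat_lit 426017) (nat_lit 0) (.e (nat_lit 3368) (nat_lit 208) (.e (nat_lit 622621) (nat_lit 13) (.e (nat_lit 2668) (nat_lit 167) .nil)))))))) (.g (nat_lit 1) (.e (nat_lit 215756) (nat_lit 0) .nil) .nil))))) 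
(.nd (nat_lit 8) (.nd (nat_lit 9) 
(.lf (nat_lit 516229) (.g (nat_lit 1627) (.e (nat_lit 196656) (nat_lit 11) (.e (nat_lit 16438) (nat_lit 9) (.e (nat_lit 426482) (nat_lit 27) (.e (nat_lit 336417) (nat_lit 27) .nil)))) (.g (nat_lit 0) (.e (nat_lit 214535) (nat_lit 0) .nil) .nil))) 
(.lf (nat_lit 516741) (.g (nat_lit 2019) (.e (nat_lit 196666) (nat_lit 13) (.e (nat_lit 65610) (nat_lit 10) (.e (nat_lit 344117) (nat_lit 21) (.e (nat_lit 516138) (nat_lit 7) (.e (nat_lit 409613) (nat_lit 10) .nil))))) (.g (nat_lit 0) (.e (nat_lit 215626) (nat_lit 0) .nil) .nil)))) (.nd (nat_lit 9) 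
(.lf (nat_lit 516485) (.g (nat_lit 1821) (.e (nat_lit 196665) (nat_lit 13) (.e (nat_lit 65623) (nat_lit 12) (.e (nat_lit 385074) (nat_lit 31) (.e (nat_lit 573483) (nat_lit 13) .nil)))) (.g (nat_lit 0) (.e (nat_lit 215014) (nat_lit 0) .nil) .nil))) 
(.lf (nat_lit 516997) (.g (nat_lit 4447) (.e (nat_lit 196666) (nat_lit 13) (.e (nat_lit 65610) (nat_lit 10) (.e (nat_lit 344117) (nat_lit 21) (.e (nat_lit 516151) (nat_lit 9) (.e (nat_lit 426021) (nat_lit 0) (.e (nat_lit 3372) (nat_lit 208) (.e (nat_lit 622625) (nat_lit 13) (.e (nat_lit 2663) (nat_lit 167) .nil)))))))) (.g (nat_lit 1) (.e (nat_lit 215884) (nat_lit 0) .nil) .nil)))))) 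
(.nd (nat_lit 7) (.nd (nat_lit 8) (.nd (nat_lit 9) 
(.lf (nat_lit 516165) (.g (nat_lit 1232) (.e (nat_lit 196656) (nat_lit 11) (.e (nat_lit 16412) (nat_lit 2) (.e (nat_lit 196653) (nat_lit 11) (.e (nat_lit 16411) (nat_lit 2) .nil)))) (.g (nat_lit 0) (.e (nat_lit 214440) (nat_lit 0) .nil) .nil))) 
(.lf (nat_lit 516677) (.g (nat_lit 2694) (.e (nat_lit 196666) (nat_lit 13) (.e (nat_lit 65610) (nat_lit 10) (.e (nat_lit 344117) (nat_lit 21) (.e (nat_lit 516106) (nat_lit 0) (.e (nat_lit 3337) (nat_lit 205) (.e (nat_lit 598065) (nat_lit 20) (.e (nat_lit 237589) (nat_lit 2) .nil))))))) (.g (nat_lit 1) (.e (nat_lit 215455) (nat_lit 0) .nil) .nil)))) (.nd (nat_lit 9) 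
(.lf (nat_lit 516421) (.g (nat_lit 3171) (.e (nat_lit 196664) (nat_lit 13) (.e (nat_lit 65571) (nat_lit 3) (.e (nat_lit 98342) (nat_lit 20) (.e (nat_lit 221214) (nat_lit 23) (.e (nat_lit 204829) (nat_lit 18) (.e (nat_lit 57927) (nat_lit 282) (.e (nat_lit 163869) (nat_lit 2) .nil))))))) (.g (nat_lit 1) (.e (nat_lit 214915) (nat_lit 0) .nil) .nil))) 
(.lf (nat_lit 516933) (.g (nat_lit 3415) (.e (nat_lit 196666) (nat_lit 13) (.e (nat_lit 65610) (nat_lit 10) (.e (nat_lit 344117) (nat_lit 21) (.e (nat_lit 516151) (nat_lit 9) (.e (nat_lit 426020) (nat_lit 0) (.e (nat_lit 3366) (nat_lit 208) (.e (nat_lit 622623) (nat_lit 13) (.e (nat_lit 2668) (nat_lit 167) .nil)))))))) (.g (nat_lit 1) (.e (nat_lit 215820) (nat_lit 0) .nil) .nil))))) 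
(.nd (nat_lit 8) (.nd (nat_lit 9) 
(.lf (nat_lit 516293) (.g (nat_lit 2053) (.e (nat_lit 196661) (nat_lit 12) (.e (nat_lit 57750) (nat_lit 201) (.e (nat_lit 2856) (nat_lit 184) (.e (nat_lit 426364) (nat_lit 15) .nil)))) (.g (nat_lit 0) (.e (nat_lit 214734) (nat_lit 0) .nil) .nil))) 
(.lf (nat_lit 516805) (.g (nat_lit 5189) (.e (nat_lit 196666) (nat_lit 13) (.e (nat_lit 65610) (nat_lit 10) (.e (nat_lit 344117) (nat_lit 21) (.e (nat_lit 516151) (nat_lit 9) (.e (nat_lit 426017) (nat_lit 0) (.e (nat_lit 2401) (nat_lit 157) (.e (nat_lit 4847) (nat_lit 285) (.e (nat_lit 163870) (nat_lit 2) .nil)))))))) (.g (nat_lit 1) (.e (nat_lit 215692) (nat_lit 0) .nil) .nil)))) 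
(.nd (nat_lit 9) 
(.lf (nat_lit 516549) (.g (nat_lit 4972) (.e (nat_lit 196666) (nat_lit 13) (.e (nat_lit 65571) (nat_lit 3) (.e (nat_lit 98342) (nat_lit 20) (.e (nat_lit 221215) (nat_lit 23) (.e (nat_lit 204830) (nat_lit 18) (.e (nat_lit 57931) (nat_lit 282) (.e (nat_lit 163869) (nat_lit 2) .nil))))))) (.g (nat_lit 1) (.e (nat_lit 215205) (nat_lit 0) .nil) .nil))) 
(.lf (nat_lit 517061) (.g (nat_lit 3455) (.e (nat_lit 196666) (nat_lit 13) (.e (nat_lit 65610) (nat_lit 10) (.e (nat_lit 344117) (nat_lit 21) (.e (nat_lit 516151) (nat_lit 9) (.e (nat_lit 426034) (nat_lit 0) (.e (nat_lit 3366) (nat_lit 208) (.e (nat_lit 622622) (nat_lit 13) (.e (nat_lit 2662) (nat_lit 167) .nil)))))))) (.g (nat_lit 1) (.e (nat_lit 215948) (nat_lit 0) .nil) .nil))))))) 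
(.nd (nat_lit 6) (.nd (nat_lit 7) (.nd (nat_lit 8) (.nd (nat_lit 9) 
(.lf (nat_lit 516133) (.g (nat_lit 2592) (.e (nat_lit 196655) (nat_lit 11) (.e (nat_lit 16435) (nat_lit 9) (.e (nat_lit 426566) (nat_lit 34) (.e (nat_lit 393253) (nat_lit 18) (.e (nat_lit 164305) (nat_lit 226) (.e (nat_lit 2433) (nat_lit 157) (.e (nat_lit 2668) (nat_lit 167) .nil))))))) (.g (nat_lit 1) (.e (nat_lit 214329) (nat_lit 0) .nil) .nil))) 
(.lf (nat_lit 516645) (.g (nat_lit 2355) (.e (nat_lit 196666) (nat_lit 13) (.e (nat_lit 65610) (nat_lit 10) (.e (nat_lit 344117) (nat_lit 21) (.e (nat_lit 516099) (nat_lit 0) (.e (nat_lit 2492) (nat_lit 157) .nil))))) (.g (nat_lit 0) (.e (nat_lit 215396) (nat_lit 0) .nil) .nil)))) (.nd (nat_lit 9) 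
(.lf (nat_lit 516389) (.g (nat_lit 2212) (.e (nat_lit 196663) (nat_lit 13) (.e (nat_lit 65630) (nat_lit 14) (.e (nat_lit 401428) (nat_lit 3) (.e (nat_lit 204855) (nat_lit 26) (.e (nat_lit 336234) (nat_lit 14) .nil))))) (.g (nat_lit 0) (.e (nat_lit 214872) (nat_lit 0) .nil) .nil))) 
(.lf (nat_lit 516901) (.g (nat_lit 2800) (.e (nat_lit 196666) (nat_lit 13) (.e (nat_lit 65610) (nat_lit 10) (.e (nat_lit 344117) (nat_lit 21) (.e (nat_lit 516151) (nat_lit 9) (.e (nat_lit 426018) (nat_lit 0) (.e (nat_lit 2412) (nat_lit 157) (.e (nat_lit 4761) (nat_lit 281) (.e (nat_lit 2461) (nat_lit 157) (.e (nat_lit 2666) (nat_lit 167) .nil))))))))) (.g (nat_lit 1) (.e (nat_lit 215788) (nat_lit 0) .nil) .nil))))) 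
(.nd (nat_lit 8) (.nd (nat_lit 9) 
(.lf (nat_lit 516261) (.g (nat_lit 3572) (.e (nat_lit 196656) (nat_lit 11) (.e (nat_lit 16465) (nat_lit 13) (.e (nat_lit 483339) (nat_lit 9) (.e (nat_lit 426110) (nat_lit 1) (.e (nat_lit 164327) (nat_lit 230) (.e (nat_lit 163871) (nat_lit 2) .nil)))))) (.g (nat_lit 1) (.e (nat_lit 214673) (nat_lit 0) .nil) .nil))) 
(.lf (nat_lit 516773) (.g (nat_lit 3723) (.e (nat_lit 196666) (nat_lit 13) (.e (nat_lit 65610) (nat_lit 10) (.e (nat_lit 344117) (nat_lit 21) (.e (nat_lit 516142) (nat_lit 8) (.e (nat_lit 417815) (nat_lit 10) (.e (nat_lit 7936) (nat_lit 312) (.e (nat_lit 2666) (nat_lit 167) .nil))))))) (.g (nat_lit 1) (.e (nat_lit 215658) (nat_lit 0) .nil) .nil)))) (.nd (nat_lit 9) 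
(.lf (nat_lit 516517) (.g (nat_lit 1467) (.e (nat_lit 196666) (nat_lit 13) (.e (nat_lit 65569) (nat_lit 3) (.e (nat_lit 98333) (nat_lit 18) (.e (nat_lit 164177) (nat_lit 154) .nil)))) (.g (nat_lit 0) (.e (nat_lit 215074) (nat_lit 0) .nil) .nil))) 
(.lf (nat_lit 517029) (.g (nat_lit 2784) (.e (nat_lit 196666) (nat_lit 13) (.e (nat_lit 65610) (nat_lit 10) (.e (nat_lit 344117) (nat_lit 21) (.e (nat_lit 516151) (nat_lit 9) (.e (nat_lit 426023) (nat_lit 0) (.e (nat_lit 2403) (nat_lit 157) (.e (nat_lit 4761) (nat_lit 281) (.e (nat_lit 2463) (nat_lit 157) (.e (nat_lit 2666) (nat_lit 167) .nil))))))))) (.g (nat_lit 1) (.e (nat_lit 215916) (nat_lit 0) .nil) .nil)))))) 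
(.nd (nat_lit 7) (.nd (nat_lit 8) (.nd (nat_lit 9) 
(.lf (nat_lit 516197) (.g (nat_lit 922) (.e (nat_lit 196656) (nat_lit 11) (.e (nat_lit 16436) (nat_lit 9) (.e (nat_lit 426131) (nat_lit 3) (.e (nat_lit 204852) (nat_lit 26) .nil)))) (.g (nat_lit 0) (.e (nat_lit 214496) (nat_lit 0) .nil) .nil))) 
(.lf (nat_lit 516709) (.g (nat_lit 2102) (.e (nat_lit 196666) (nat_lit 13) (.e (nat_lit 65610) (nat_lit 10) (.e (nat_lit 344117) (nat_lit 21) (.e (nat_lit 516106) (nat_lit 0) (.e (nat_lit 7016) (nat_lit 377) (.e (nat_lit 2505) (nat_lit 157) (.e (nat_lit 5664) (nat_lit 312) (.e (nat_lit 2661) (nat_lit 167) .nil)))))))) (.g (nat_lit 1) (.e (nat_lit 215524) (nat_lit 0) .nil) .nil)))) 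
(.nd (nat_lit 9) 
(.lf (nat_lit 516453) (.g (nat_lit 2973) (.e (nat_lit 196665) (nat_lit 13) (.e (nat_lit 65589) (nat_lit 9) (.e (nat_lit 336013) (nat_lit 2) (.e (nat_lit 90165) (nat_lit 12) (.e (nat_lit 164211) (nat_lit 176) .nil))))) (.g (nat_lit 0) (.e (nat_lit 214958) (nat_lit 0) .nil) .nil))) 
(.lf (nat_lit 516965) (.g (nat_lit 3605) (.e (nat_lit 196666) (nat_lit 13) (.e (nat_lit 65610) (nat_lit 10) (.e (nat_lit 344117) (nat_lit 21) (.e (nat_lit 516151) (nat_lit 9) (.e (nat_lit 426020) (nat_lit 0) (.e (nat_lit 7936) (nat_lit 208) (.e (nat_lit 622620) (nat_lit 13) (.e (nat_lit 2666) (nat_lit 167) .nil)))))))) (.g (nat_lit 1) (.e (nat_lit 215852) (nat_lit 0) .nil) .nil))))) 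
(.nd (nat_lit 8) (.nd (nat_lit 9) 
(.lf (nat_lit 516325) (.g (nat_lit 2981) (.e (nat_lit 196663) (nat_lit 13) (.e (nat_lit 65571) (nat_lit 3) (.e (nat_lit 98333) (nat_lit 18) (.e (nat_lit 164179) (nat_lit 154) (.e (nat_lit 57379) (nat_lit 3) .nil))))) (.g (nat_lit 0) (.e (nat_lit 214792) (nat_lit 0) .nil) .nil))) 
(.lf (nat_lit 516837) (.g (nat_lit 4475) (.e (nat_lit 196666) (nat_lit 13) (.e (nat_lit 65610) (nat_lit 10) (.e (nat_lit 344117) (nat_lit 21) (.e (nat_lit 516151) (nat_lit 9) (.e (nat_lit 426017) (nat_lit 0) (.e (nat_lit 2412) (nat_lit 157) (.e (nat_lit 4824) (nat_lit 281) (.e (nat_lit 2477) (nat_lit 157) (.e (nat_lit 2663) (nat_lit 167) .nil))))))))) (.g (nat_lit 1) (.e (nat_lit 215724) (nat_lit 0) .nil) .nil)))) 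
(.nd (nat_lit 9) 
(.lf (nat_lit 516581) (.g (nat_lit 2414) (.e (nat_lit 196666) (nat_lit 13) (.e (nat_lit 65604) (nat_lit 9) (.e (nat_lit 336028) (nat_lit 3) (.e (nat_lit 98350) (nat_lit 24) (.e (nat_lit 409617) (nat_lit 10) .nil))))) (.g (nat_lit 0) (.e (nat_lit 215278) (nat_lit 0) .nil) .nil))) 
(.lf (nat_lit 517093) (.g (nat_lit 3194) (.e (nat_lit 196666) (nat_lit 13) (.e (nat_lit 65610) (nat_lit 10) (.e (nat_lit 344117) (nat_lit 21) (.e (nat_lit 516151) (nat_lit 9) (.e (nat_lit 426037) (nat_lit 0) (.e (nat_lit 2422) (nat_lit 157) (.e (nat_lit 4850) (nat_lit 286) (.e (nat_lit 229386) (nat_lit 2) .nil)))))))) (.g (nat_lit 1) (.e (nat_lit 215980) (nat_lit 0) .nil) .nil)))))))) 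
(.nd (nat_lit 5) (.nd (nat_lit 6) (.nd (nat_lit 7) (.nd (nat_lit 8) (.nd (nat_lit 9) 
(.lf (nat_lit 516117) (.g (nat_lit 2626) (.e (nat_lit 196654) (nat_lit 11) (.e (nat_lit 16466) (nat_lit 13) (.e (nat_lit 483341) (nat_lit 9) (.e (nat_lit 426107) (nat_lit 1) (.e (nat_lit 164332) (nat_lit 230) .nil))))) (.g (nat_lit 0) (.e (nat_lit 214255) (nat_lit 0) .nil) .nil))) 
(.lf (nat_lit 516629) (.g (nat_lit 2374) (.e (nat_lit 196666) (nat_lit 13) (.e (nat_lit 65610) (nat_lit 10) (.e (nat_lit 344117) (nat_lit 21) (.e (nat_lit 516098) (nat_lit 0) (.e (nat_lit 2401) (nat_lit 157) .nil))))) (.g (nat_lit 0) (.e (nat_lit 215376) (nat_lit 0) .nil) .nil)))) (.nd (nat_lit 9) 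
(.lf (nat_lit 516373) (.g (nat_lit 3605) (.e (nat_lit 196663) (nat_lit 13) (.e (nat_lit 65630) (nat_lit 14) (.e (nat_lit 401425) (nat_lit 2) (.e (nat_lit 196681) (nat_lit 17) (.e (nat_lit 131072) (nat_lit 0) .nil))))) (.g (nat_lit 0) (.e (nat_lit 214855) (nat_lit 0) .nil) .nil))) 
(.lf (nat_lit 516885) (.g (nat_lit 3666) (.e (nat_lit 196666) (nat_lit 13) (.e (nat_lit 65610) (nat_lit 10) (.e (nat_lit 344117) (nat_lit 21) (.e (nat_lit 516151) (nat_lit 9) (.e (nat_lit 426017) (nat_lit 0) (.e (nat_lit 3373) (nat_lit 208) (.e (nat_lit 622627) (nat_lit 13) (.e (nat_lit 2663) (nat_lit 167) .nil)))))))) (.g (nat_lit 1) (.e (nat_lit 215772) (nat_lit 0) .nil) .nil))))) 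
(.nd (nat_lit 8) (.nd (nat_lit 9) 
(.lf (nat_lit 516245) (.g (nat_lit 749) (.e (nat_lit 196656) (nat_lit 11) (.e (nat_lit 16448) (nat_lit 10) (.e (nat_lit 434234) (nat_lit 23) .nil))) (.g (nat_lit 0) (.e (nat_lit 214607) (nat_lit 0) .nil) .nil))) 
(.lf (nat_lit 516757) (.g (nat_lit 3072) (.e (nat_lit 196666) (nat_lit 13) (.e (nat_lit 65610) (nat_lit 10) (.e (nat_lit 344117) (nat_lit 21) (.e (nat_lit 516139) (nat_lit 7) (.e (nat_lit 409616) (nat_lit 10) (.e (nat_lit 5612) (nat_lit 312) (.e (nat_lit 2668) (nat_lit 167) .nil))))))) (.g (nat_lit 1) (.e (nat_lit 215642) (nat_lit 0) .nil) .nil)))) (.nd (nat_lit 9) 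
(.lf (nat_lit 516501) (.g (nat_lit 2416) (.e (nat_lit 196665) (nat_lit 13) (.e (nat_lit 65628) (nat_lit 14) (.e (nat_lit 401425) (nat_lit 2) (.e (nat_lit 196664) (nat_lit 13) .nil)))) (.g (nat_lit 0) (.e (nat_lit 215039) (nat_lit 0) .nil) .nil))) 
(.lf (nat_lit 517013) (.g (nat_lit 3088) (.e (nat_lit 196666) (nat_lit 13) (.e (nat_lit 65610) (nat_lit 10) (.e (nat_lit 344117) (nat_lit 21) (.e (nat_lit 516151) (nat_lit 9) (.e (nat_lit 426022) (nat_lit 0) (.e (nat_lit 2402) (nat_lit 157) (.e (nat_lit 4761) (nat_lit 281) (.e (nat_lit 2463) (nat_lit 157) (.e (nat_lit 2666) (nat_lit 167) .nil))))))))) (.g (nat_lit 1) (.e (nat_lit 215900) (nat_lit 0) .nil) .nil)))))) 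
(.nd (nat_lit 7) (.nd (nat_lit 8) (.nd (nat_lit 9) 
(.lf (nat_lit 516181) (.g (nat_lit 817) (.e (nat_lit 196656) (nat_lit 11) (.e (nat_lit 16416) (nat_lit 3) (.e (nat_lit 204838) (nat_lit 20) .nil))) (.g (nat_lit 0) (.e (nat_lit 214472) (nat_lit 0) .nil) .nil))) 
(.lf (nat_lit 516693) (.g (nat_lit 3017) (.e (nat_lit 196666) (nat_lit 13) (.e (nat_lit 65610) (nat_lit 10) (.e (nat_lit 344117) (nat_lit 21) (.e (nat_lit 516106) (nat_lit 0) (.e (nat_lit 6986) (nat_lit 377) (.e (nat_lit 2511) (nat_lit 157) (.e (nat_lit 5664) (nat_lit 312) (.e (nat_lit 2661) (nat_lit 167) .nil)))))))) (.g (nat_lit 1) (.e (nat_lit 215508) (nat_lit 0) .nil) .nil)))) 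
(.nd (nat_lit 9) 
(.lf (nat_lit 516437) (.g (nat_lit 652) (.e (nat_lit 196664) (nat_lit 13) (.e (nat_lit 65630) (nat_lit 14) (.e (nat_lit 401425) (nat_lit 2) .nil))) (.g (nat_lit 0) (.e (nat_lit 214935) (nat_lit 0) .nil) .nil))) 
(.lf (nat_lit 516949) (.g (nat_lit 5040) (.e (nat_lit 196666) (nat_lit 13) (.e (nat_lit 65610) (nat_lit 10) (.e (nat_lit 344117) (nat_lit 21) (.e (nat_lit 516151) (nat_lit 9) (.e (nat_lit 426020) (nat_lit 0) (.e (nat_lit 3368) (nat_lit 208) (.e (nat_lit 622626) (nat_lit 13) (.e (nat_lit 2663) (nat_lit 167) .nil)))))))) (.g (nat_lit 1) (.e (nat_lit 215836) (nat_lit 0) .nil) .nil))))) 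
(.nd (nat_lit 8) (.nd (nat_lit 9) 
(.lf (nat_lit 516309) (.g (nat_lit 1901) (.e (nat_lit 196662) (nat_lit 13) (.e (nat_lit 65630) (nat_lit 14) (.e (nat_lit 401428) (nat_lit 3) (.e (nat_lit 204846) (nat_lit 24) .nil)))) (.g (nat_lit 0) (.e (nat_lit 214768) (nat_lit 0) .nil) .nil))) 
(.lf (nat_lit 516821) (.g (nat_lit 3356) (.e (nat_lit 196666) (nat_lit 13) (.e (nat_lit 65610) (nat_lit 10) (.e (nat_lit 344117) (nat_lit 21) (.e (nat_lit 516151) (nat_lit 9) (.e (nat_lit 426017) (nat_lit 0) (.e (nat_lit 2430) (nat_lit 157) (.e (nat_lit 4850) (nat_lit 286) (.e (nat_lit 229387) (nat_lit 2) .nil)))))))) (.g (nat_lit 1) (.e (nat_lit 215708) (nat_lit 0) .nil) .nil)))) 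
(.nd (nat_lit 9) 
(.lf (nat_lit 516565) (.g (nat_lit 3225) (.e (nat_lit 196666) (nat_lit 13) (.e (nat_lit 65598) (nat_lit 9) (.e (nat_lit 336028) (nat_lit 3) (.e (nat_lit 98350) (nat_lit 24) (.e (nat_lit 409645) (nat_lit 18) .nil))))) (.g (nat_lit 0) (.e (nat_lit 215245) (nat_lit 0) .nil) .nil))) 
(.lf (nat_lit 517077) (.g (nat_lit 3516) (.e (nat_lit 196666) (nat_lit 13) (.e (nat_lit 65610) (nat_lit 10) (.e (nat_lit 344117) (nat_lit 21) (.e (nat_lit 516151) (nat_lit 9) (.e (nat_lit 426034) (nat_lit 0) (.e (nat_lit 3370) (nat_lit 208) (.e (nat_lit 622624) (nat_lit 13) (.e (nat_lit 2668) (nat_lit 167) .nil)))))))) (.g (nat_lit 1) (.e (nat_lit 215964) (nat_lit 0) .nil) .nil))))))) 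
(.nd (nat_lit 6) (.nd (nat_lit 7) (.nd (nat_lit 8) (.nd (nat_lit 9) 
(.lf (nat_lit 516149) (.g (nat_lit 3836) (.e (nat_lit 196655) (nat_lit 11) (.e (nat_lit 16470) (nat_lit 14) (.e (nat_lit 491540) (nat_lit 3) (.e (nat_lit 98384) (nat_lit 32) .nil)))) (.g (nat_lit 0) (.e (nat_lit 214395) (nat_lit 0) .nil) .nil))) 
(.lf (nat_lit 516661) (.g (nat_lit 928) (.e (nat_lit 196666) (nat_lit 13) (.e (nat_lit 65610) (nat_lit 10) (.e (nat_lit 344117) (nat_lit 21) (.e (nat_lit 516106) (nat_lit 0) .nil)))) (.g (nat_lit 0) (.e (nat_lit 215415) (nat_lit 0) .nil) .nil)))) (.nd (nat_lit 9) 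
(.lf (nat_lit 516405) (.g (nat_lit 1647) (.e (nat_lit 196664) (nat_lit 13) (.e (nat_lit 65571) (nat_lit 3) (.e (nat_lit 98334) (nat_lit 18) (.e (nat_lit 164182) (nat_lit 154) .nil)))) (.g (nat_lit 0) (.e (nat_lit 214899) (nat_lit 0) .nil) .nil))) 
(.lf (nat_lit 516917) (.g (nat_lit 4234) (.e (nat_lit 196666) (nat_lit 13) (.e (nat_lit 65610) (nat_lit 10) (.e (nat_lit 344117) (nat_lit 21) (.e (nat_lit 516151) (nat_lit 9) (.e (nat_lit 426019) (nat_lit 0) (.e (nat_lit 3373) (nat_lit 208) (.e (nat_lit 622625) (nat_lit 13) (.e (nat_lit 2663) (nat_lit 167) .nil)))))))) (.g (nat_lit 1) (.e (nat_lit 215804) (nat_lit 0) .nil) .nil))))) 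
(.nd (nat_lit 8) (.nd (nat_lit 9) 
(.lf (nat_lit 516277) (.g (nat_lit 2258) (.e (nat_lit 196656) (nat_lit 11) (.e (nat_lit 16473) (nat_lit 14) (.e (nat_lit 491526) (nat_lit 0) (.e (nat_lit 1788) (nat_lit 119) .nil)))) (.g (nat_lit 0) (.e (nat_lit 214693) (nat_lit 0) .nil) .nil))) 
(.lf (nat_lit 516789) (.g (nat_lit 4024) (.e (nat_lit 196666) (nat_lit 13) (.e (nat_lit 65610) (nat_lit 10) (.e (nat_lit 344117) (nat_lit 21) (.e (nat_lit 516151) (nat_lit 9) (.e (nat_lit 426017) (nat_lit 0) (.e (nat_lit 2398) (nat_lit 157) (.e (nat_lit 4824) (nat_lit 281) (.e (nat_lit 2477) (nat_lit 157) (.e (nat_lit 2663) (nat_lit 167) .nil))))))))) (.g (nat_lit 1) (.e (nat_lit 215676) (nat_lit 0) .nil) .nil)))) 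
(.nd (nat_lit 9) 
(.lf (nat_lit 516533) (.g (nat_lit 1297) (.e (nat_lit 196666) (nat_lit 13) (.e (nat_lit 65569) (nat_lit 3) (.e (nat_lit 98342) (nat_lit 20) (.e (nat_lit 221198) (nat_lit 20) .nil)))) (.g (nat_lit 0) (.e (nat_lit 215144) (nat_lit 0) .nil) .nil))) 
(.lf (nat_lit 517045) (.g (nat_lit 4123) (.e (nat_lit 196666) (nat_lit 13) (.e (nat_lit 65610) (nat_lit 10) (.e (nat_lit 344117) (nat_lit 21) (.e (nat_lit 516151) (nat_lit 9) (.e (nat_lit 426034) (nat_lit 0) (.e (nat_lit 2423) (nat_lit 157) (.e (nat_lit 4849) (nat_lit 285) (.e (nat_lit 163869) (nat_lit 2) .nil)))))))) (.g (nat_lit 1) (.e (nat_lit 215932) (nat_lit 0) .nil) .nil)))))) 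
(.nd (nat_lit 7) (.nd (nat_lit 8) (.nd (nat_lit 9) 
(.lf (nat_lit 516213) (.g (nat_lit 3190) (.e (nat_lit 196656) (nat_lit 11) (.e (nat_lit 16436) (nat_lit 9) (.e (nat_lit 426131) (nat_lit 3) (.e (nat_lit 204882) (nat_lit 32) (.e (nat_lit 385109) (nat_lit 51) (.e (nat_lit 794669) (nat_lit 22) .nil)))))) (.g (nat_lit 1) (.e (nat_lit 214518) (nat_lit 0) .nil) .nil))) 
(.lf (nat_lit 516725) (.g (nat_lit 3718) (.e (nat_lit 196666) (nat_lit 13) (.e (nat_lit 65610) (nat_lit 10) (.e (nat_lit 344117) (nat_lit 21) (.e (nat_lit 516106) (nat_lit 0) (.e (nat_lit 7112) (nat_lit 381) (.e (nat_lit 237312) (nat_lit 246) (.e (nat_lit 2666) (nat_lit 167) .nil))))))) (.g (nat_lit 1) (.e (nat_lit 215540) (nat_lit 0) .nil) .nil)))) (.nd (nat_lit 9) 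
(.lf (nat_lit 516469) (.g (nat_lit 2007) (.e (nat_lit 196665) (nat_lit 13) (.e (nat_lit 65606) (nat_lit 9) (.e (nat_lit 336027) (nat_lit 3) (.e (nat_lit 98350) (nat_lit 24) (.e (nat_lit 409648) (nat_lit 18) .nil))))) (.g (nat_lit 0) (.e (nat_lit 214987) (nat_lit 0) .nil) .nil))) 
(.lf (nat_lit 516981) (.g (nat_lit 4904) (.e (nat_lit 196666) (nat_lit 13) (.e (nat_lit 65610) (nat_lit 10) (.e (nat_lit 344117) (nat_lit 21) (.e (nat_lit 516151) (nat_lit 9) (.e (nat_lit 426021) (nat_lit 0) (.e (nat_lit 3367) (nat_lit 208) (.e (nat_lit 622620) (nat_lit 13) (.e (nat_lit 2663) (nat_lit 167) .nil)))))))) (.g (nat_lit 1) (.e (nat_lit 215868) (nat_lit 0) .nil) .nil))))) 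
(.nd (nat_lit 8) (.nd (nat_lit 9) 
(.lf (nat_lit 516341) (.g (nat_lit 1760) (.e (nat_lit 196663) (nat_lit 13) (.e (nat_lit 65571) (nat_lit 3) (.e (nat_lit 98342) (nat_lit 20) (.e (nat_lit 221198) (nat_lit 20) (.e (nat_lit 3241) (nat_lit 197) .nil))))) (.g (nat_lit 0) (.e (nat_lit 214809) (nat_lit 0) .nil) .nil))) 
(.lf (nat_lit 516853) (.g (nat_lit 3263) (.e (nat_lit 196666) (nat_lit 13) (.e (nat_lit 65610) (nat_lit 10) (.e (nat_lit 344117) (nat_lit 21) (.e (nat_lit 516151) (nat_lit 9) (.e (nat_lit 426017) (nat_lit 0) (.e (nat_lit 3366) (nat_lit 208) (.e (nat_lit 622622) (nat_lit 13) (.e (nat_lit 2662) (nat_lit 167) .nil)))))))) (.g (nat_lit 1) (.e (nat_lit 215740) (nat_lit 0) .nil) .nil)))) 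
(.nd (nat_lit 9) 
(.lf (nat_lit 516597) (.g (nat_lit 3371) (.e (nat_lit 196666) (nat_lit 13) (.e (nat_lit 65610) (nat_lit 10) (.e (nat_lit 344117) (nat_lit 21) (.e (nat_lit 516097) (nat_lit 0) (.e (nat_lit 2417) (nat_lit 157) .nil))))) (.g (nat_lit 0) (.e (nat_lit 215310) (nat_lit 0) .nil) .nil))) 
(.lf (nat_lit 517109) (.g (nat_lit 5237) (.e (nat_lit 196666) (nat_lit 13) (.e (nat_lit 65610) (nat_lit 10) (.e (nat_lit 344117) (nat_lit 21) (.e (nat_lit 516151) (nat_lit 9) (.e (nat_lit 426037) (nat_lit 0) (.e (nat_lit 3366) (nat_lit 208) (.e (nat_lit 622620) (nat_lit 13) (.e (nat_lit 2663) (nat_lit 167) .nil)))))))) (.g (nat_lit 1) (.e (nat_lit 215996) (nat_lit 0) .nil) .nil))))))))) 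
(.nd (nat_lit 4) (.nd (nat_lit 5) (.nd (nat_lit 6) (.nd (nat_lit 7) (.nd (nat_lit 8) 
(.nd (nat_lit 9) 
(.lf (nat_lit 516109) (.g (nat_lit 2857) (.e (nat_lit 196654) (nat_lit 11) (.e (nat_lit 16466) (nat_lit 13) (.e (nat_lit 483341) (nat_lit 9) (.e (nat_lit 426098) (nat_lit 1) (.e (nat_lit 164331) (nat_lit 230) (.e (nat_lit 163866) (nat_lit 2) .nil)))))) (.g (nat_lit 1) (.e (nat_lit 214247) (nat_lit 0) .nil) .nil))) 
(.lf (nat_lit 516621) (.g (nat_lit 4147) (.e (nat_lit 196666) (nat_lit 13) (.e (nat_lit 65610) (nat_lit 10) (.e (nat_lit 344117) (nat_lit 21) (.e (nat_lit 516097) (nat_lit 0) (.e (nat_lit 7026) (nat_lit 377) (.e (nat_lit 2804) (nat_lit 180) (.e (nat_lit 303117) (nat_lit 2) .nil))))))) (.g (nat_lit 1) (.e (nat_lit 215367) (nat_lit 0) .nil) .nil)))) (.nd (nat_lit 9) 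
(.lf (nat_lit 516365) (.g (nat_lit 3040) (.e (nat_lit 196663) (nat_lit 13) (.e (nat_lit 65630) (nat_lit 14) (.e (nat_lit 401425) (nat_lit 2) (.e (nat_lit 196666) (nat_lit 13) (.e (nat_lit 65628) (nat_lit 14) (.e (nat_lit 401424) (nat_lit 2) .nil)))))) (.g (nat_lit 1) (.e (nat_lit 214847) (nat_lit 0) .nil) .nil))) 
(.lf (nat_lit 516877) (.g (nat_lit 4463) (.e (nat_lit 196666) (nat_lit 13) (.e (nat_lit 65610) (nat_lit 10) (.e (nat_lit 344117) (nat_lit 21) (.e (nat_lit 516151) (nat_lit 9) (.e (nat_lit 426017) (nat_lit 0) (.e (nat_lit 3372) (nat_lit 208) (.e (nat_lit 622627) (nat_lit 13) (.e (nat_lit 2663) (nat_lit 167) .nil)))))))) (.g (nat_lit 1) (.e (nat_lit 215764) (nat_lit 0) .nil) .nil))))) 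
(.nd (nat_lit 8) (.nd (nat_lit 9) 
(.lf (nat_lit 516237) (.g (nat_lit 2541) (.e (nat_lit 196656) (nat_lit 11) (.e (nat_lit 16448) (nat_lit 10) (.e (nat_lit 434231) (nat_lit 23) (.e (nat_lit 532529) (nat_lit 9) (.e (nat_lit 336258) (nat_lit 15) .nil))))) (.g (nat_lit 0) (.e (nat_lit 214595) (nat_lit 0) .nil) .nil))) 
(.lf (nat_lit 516749) (.g (nat_lit 3848) (.e (nat_lit 196666) (nat_lit 13) (.e (nat_lit 65610) (nat_lit 10) (.e (nat_lit 344117) (nat_lit 21) (.e (nat_lit 516139) (nat_lit 7) (.e (nat_lit 409612) (nat_lit 10) (.e (nat_lit 5710) (nat_lit 312) (.e (nat_lit 2664) (nat_lit 167) .nil))))))) (.g (nat_lit 1) (.e (nat_lit 215634) (nat_lit 0) .nil) .nil)))) (.nd (nat_lit 9) 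
(.lf (nat_lit 516493) (.g (nat_lit 2302) (.e (nat_lit 196665) (nat_lit 13) (.e (nat_lit 65626) (nat_lit 13) (.e (nat_lit 393225) (nat_lit 9) (.e (nat_lit 335995) (nat_lit 1) (.e (nat_lit 57929) (nat_lit 282) (.e (nat_lit 163866) (nat_lit 2) .nil)))))) (.g (nat_lit 1) (.e (nat_lit 215029) (nat_lit 0) .nil) .nil))) 
(.lf (nat_lit 517005) (.g (nat_lit 4683) (.e (nat_lit 196666) (nat_lit 13) (.e (nat_lit 65610) (nat_lit 10) (.e (nat_lit 344117) (nat_lit 21) (.e (nat_lit 516151) (nat_lit 9) (.e (nat_lit 426021) (nat_lit 0) (.e (nat_lit 3373) (nat_lit 208) (.e (nat_lit 622626) (nat_lit 13) (.e (nat_lit 2663) (nat_lit 167) .nil)))))))) (.g (nat_lit 1) (.e (nat_lit 215892) (nat_lit 0) .nil) .nil)))))) 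
(.nd (nat_lit 7) (.nd (nat_lit 8) (.nd (nat_lit 9) 
(.lf (nat_lit 516173) (.g (nat_lit 2143) (.e (nat_lit 196656) (nat_lit 11) (.e (nat_lit 16416) (nat_lit 3) (.e (nat_lit 204809) (nat_lit 9) (.e (nat_lit 426123) (nat_lit 2) (.e (nat_lit 196654) (nat_lit 11) .nil))))) (.g (nat_lit 0) (.e (nat_lit 214461) (nat_lit 0) .nil) .nil))) 
(.lf (nat_lit 516685) (.g (nat_lit 3149) (.e (nat_lit 196666) (nat_lit 13) (.e (nat_lit 65610) (nat_lit 10) (.e (nat_lit 344117) (nat_lit 21) (.e (nat_lit 516106) (nat_lit 0) (.e (nat_lit 6986) (nat_lit 377) (.e (nat_lit 2400) (nat_lit 157) (.e (nat_lit 5734) (nat_lit 312) (.e (nat_lit 2666) (nat_lit 167) .nil)))))))) (.g (nat_lit 1) (.e (nat_lit 215500) (nat_lit 0) .nil) .nil)))) 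
(.nd (nat_lit 9) 
(.lf (nat_lit 516429) (.g (nat_lit 2508) (.e (nat_lit 196664) (nat_lit 13) (.e (nat_lit 65610) (nat_lit 10) (.e (nat_lit 344117) (nat_lit 21) (.e (nat_lit 516139) (nat_lit 7) .nil)))) (.g (nat_lit 0) (.e (nat_lit 214926) (nat_lit 0) .nil) .nil))) 
(.lf (nat_lit 516941) (.g (nat_lit 3458) (.e (nat_lit 196666) (nat_lit 13) (.e (nat_lit 65610) (nat_lit 10) (.e (nat_lit 344117) (nat_lit 21) (.e (nat_lit 516151) (nat_lit 9) (.e (nat_lit 426020) (nat_lit 0) (.e (nat_lit 3367) (nat_lit 208) (.e (nat_lit 622624) (nat_lit 13) (.e (nat_lit 2662) (nat_lit 167) .nil)))))))) (.g (nat_lit 1) (.e (nat_lit 215828) (nat_lit 0) .nil) .nil))))) 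
(.nd (nat_lit 8) (.nd (nat_lit 9) 
(.lf (nat_lit 516301) (.g (nat_lit 4083) (.e (nat_lit 196662) (nat_lit 13) (.e (nat_lit 65598) (nat_lit 9) (.e (nat_lit 336013) (nat_lit 2) (.e (nat_lit 90134) (nat_lit 9) (.e (nat_lit 2822) (nat_lit 182) .nil))))) (.g (nat_lit 0) (.e (nat_lit 214759) (nat_lit 0) .nil) .nil))) 
(.lf (nat_lit 516813) (.g (nat_lit 3856) (.e (nat_lit 196666) (nat_lit 13) (.e (nat_lit 65610) (nat_lit 10) (.e (nat_lit 344117) (nat_lit 21) (.e (nat_lit 516151) (nat_lit 9) (.e (nat_lit 426017) (nat_lit 0) (.e (nat_lit 2418) (nat_lit 157) (.e (nat_lit 4848) (nat_lit 285) (.e (nat_lit 163869) (nat_lit 2) .nil)))))))) (.g (nat_lit 1) (.e (nat_lit 215700) (nat_lit 0) .nil) .nil)))) 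
(.nd (nat_lit 9) 
(.lf (nat_lit 516557) (.g (nat_lit 2373) (.e (nat_lit 196666) (nat_lit 13) (.e (nat_lit 65589) (nat_lit 9) (.e (nat_lit 336028) (nat_lit 3) (.e (nat_lit 98350) (nat_lit 24) (.e (nat_lit 409616) (nat_lit 10) .nil))))) (.g (nat_lit 0) (.e (nat_lit 215218) (nat_lit 0) .nil) .nil))) 
(.lf (nat_lit 517069) (.g (nat_lit 3289) (.e (nat_lit 196666) (nat_lit 13) (.e (nat_lit 65610) (nat_lit 10) (.e (nat_lit 344117) (nat_lit 21) (.e (nat_lit 516151) (nat_lit 9) (.e (nat_lit 426034) (nat_lit 0) (.e (nat_lit 3369) (nat_lit 208) (.e (nat_lit 622624) (nat_lit 13) (.e (nat_lit 2668) (nat_lit 167) .nil)))))))) (.g (nat_lit 1) (.e (nat_lit 215956) (nat_lit 0) .nil) .nil))))))) 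
(.nd (nat_lit 6) (.nd (nat_lit 7) (.nd (nat_lit 8) (.nd (nat_lit 9) 
(.lf (nat_lit 516141) (.g (nat_lit 1283) (.e (nat_lit 196655) (nat_lit 11) (.e (nat_lit 16465) (nat_lit 13) (.e (nat_lit 483341) (nat_lit 9) (.e (nat_lit 426105) (nat_lit 1) .nil)))) (.g (nat_lit 0) (.e (nat_lit 214384) (nat_lit 0) .nil) .nil))) 
(.lf (nat_lit 516653) (.g (nat_lit 3631) (.e (nat_lit 196666) (nat_lit 13) (.e (nat_lit 65610) (nat_lit 10) (.e (nat_lit 344117) (nat_lit 21) (.e (nat_lit 516102) (nat_lit 0) (.e (nat_lit 6989) (nat_lit 377) (.e (nat_lit 2397) (nat_lit 157) (.e (nat_lit 5734) (nat_lit 312) (.e (nat_lit 2666) (nat_lit 167) .nil)))))))) (.g (nat_lit 1) (.e (nat_lit 215407) (nat_lit 0) .nil) .nil)))) 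
(.nd (nat_lit 9) 
(.lf (nat_lit 516397) (.g (nat_lit 2327) (.e (nat_lit 196664) (nat_lit 13) (.e (nat_lit 65571) (nat_lit 3) (.e (nat_lit 98333) (nat_lit 18) (.e (nat_lit 164177) (nat_lit 154) (.e (nat_lit 57379) (nat_lit 3) .nil))))) (.g (nat_lit 0) (.e (nat_lit 214891) (nat_lit 0) .nil) .nil))) 
(.lf (nat_lit 516909) (.g (nat_lit 4966) (.e (nat_lit 196666) (nat_lit 13) (.e (nat_lit 65610) (nat_lit 10) (.e (nat_lit 344117) (nat_lit 21) (.e (nat_lit 516151) (nat_lit 9) (.e (nat_lit 426019) (nat_lit 0) (.e (nat_lit 3372) (nat_lit 208) (.e (nat_lit 622620) (nat_lit 13) (.e (nat_lit 2663) (nat_lit 167) .nil)))))))) (.g (nat_lit 1) (.e (nat_lit 215796) (nat_lit 0) .nil) .nil))))) 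
(.nd (nat_lit 8) (.nd (nat_lit 9) 
(.lf (nat_lit 516269) (.g (nat_lit 4261) (.e (nat_lit 196656) (nat_lit 11) (.e (nat_lit 16470) (nat_lit 14) (.e (nat_lit 491537) (nat_lit 2) (.e (nat_lit 90165) (nat_lit 12) .nil)))) (.g (nat_lit 0) (.e (nat_lit 214683) (nat_lit 0) .nil) .nil))) 
(.lf (nat_lit 516781) (.g (nat_lit 2404) (.e (nat_lit 196666) (nat_lit 13) (.e (nat_lit 65610) (nat_lit 10) (.e (nat_lit 344117) (nat_lit 21) (.e (nat_lit 516151) (nat_lit 9) (.e (nat_lit 426003) (nat_lit 0) (.e (nat_lit 3366) (nat_lit 208) (.e (nat_lit 622627) (nat_lit 13) (.e (nat_lit 2665) (nat_lit 167) .nil)))))))) (.g (nat_lit 1) (.e (nat_lit 215668) (nat_lit 0) .nil) .nil)))) 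
(.nd (nat_lit 9) 
(.lf (nat_lit 516525) (.g (nat_lit 1537) (.e (nat_lit 196666) (nat_lit 13) (.e (nat_lit 65569) (nat_lit 3) (.e (nat_lit 98335) (nat_lit 18) (.e (nat_lit 164179) (nat_lit 154) .nil)))) (.g (nat_lit 0) (.e (nat_lit 215126) (nat_lit 0) .nil) .nil))) 
(.lf (nat_lit 517037) (.g (nat_lit 2632) (.e (nat_lit 196666) (nat_lit 13) (.e (nat_lit 65610) (nat_lit 10) (.e (nat_lit 344117) (nat_lit 21) (.e (nat_lit 516151) (nat_lit 9) (.e (nat_lit 426036) (nat_lit 0) (.e (nat_lit 3366) (nat_lit 208) (.e (nat_lit 622627) (nat_lit 13) (.e (nat_lit 2666) (nat_lit 167) .nil)))))))) (.g (nat_lit 1) (.e (nat_lit 215924) (nat_lit 0) .nil) .nil)))))) 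
(.nd (nat_lit 7) (.nd (nat_lit 8) (.nd (nat_lit 9) 
(.lf (nat_lit 516205) (.g (nat_lit 1778) (.e (nat_lit 196656) (nat_lit 11) (.e (nat_lit 16436) (nat_lit 9) (.e (nat_lit 426131) (nat_lit 3) (.e (nat_lit 204880) (nat_lit 32) (.e (nat_lit 385096) (nat_lit 49) .nil))))) (.g (nat_lit 0) (.e (nat_lit 214507) (nat_lit 0) .nil) .nil))) 
(.lf (nat_lit 516717) (.g (nat_lit 2552) (.e (nat_lit 196666) (nat_lit 13) (.e (nat_lit 65610) (nat_lit 10) (.e (nat_lit 344117) (nat_lit 21) (.e (nat_lit 516106) (nat_lit 0) (.e (nat_lit 7095) (nat_lit 380) (.e (nat_lit 164363) (nat_lit 246) (.e (nat_lit 2654) (nat_lit 167) .nil))))))) (.g (nat_lit 1) (.e (nat_lit 215532) (nat_lit 0) .nil) .nil)))) (.nd (nat_lit 9) 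
(.lf (nat_lit 516461) (.g (nat_lit 2420) (.e (nat_lit 196665) (nat_lit 13) (.e (nat_lit 65598) (nat_lit 9) (.e (nat_lit 336013) (nat_lit 2) (.e (nat_lit 90165) (nat_lit 12) (.e (nat_lit 164208) (nat_lit 176) .nil))))) (.g (nat_lit 0) (.e (nat_lit 214976) (nat_lit 0) .nil) .nil))) 
(.lf (nat_lit 516973) (.g (nat_lit 3791) (.e (nat_lit 196666) (nat_lit 13) (.e (nat_lit 65610) (nat_lit 10) (.e (nat_lit 344117) (nat_lit 21) (.e (nat_lit 516151) (nat_lit 9) (.e (nat_lit 426021) (nat_lit 0) (.e (nat_lit 3366) (nat_lit 208) (.e (nat_lit 622620) (nat_lit 13) (.e (nat_lit 2668) (nat_lit 167) .nil)))))))) (.g (nat_lit 1) (.e (nat_lit 215860) (nat_lit 0) .nil) .nil))))) 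
(.nd (nat_lit 8) (.nd (nat_lit 9) 
(.lf (nat_lit 516333) (.g (nat_lit 2467) (.e (nat_lit 196663) (nat_lit 13) (.e (nat_lit 65571) (nat_lit 3) (.e (nat_lit 98334) (nat_lit 18) (.e (nat_lit 164182) (nat_lit 154) (.e (nat_lit 57379) (nat_lit 3) .nil))))) (.g (nat_lit 0) (.e (nat_lit 214800) (nat_lit 0) .nil) .nil))) 
(.lf (nat_lit 516845) (.g (nat_lit 4290) (.e (nat_lit 196666) (nat_lit 13) (.e (nat_lit 65610) (nat_lit 10) (.e (nat_lit 344117) (nat_lit 21) (.e (nat_lit 516151) (nat_lit 9) (.e (nat_lit 426017) (nat_lit 0) (.e (nat_lit 2413) (nat_lit 157) (.e (nat_lit 4828) (nat_lit 281) (.e (nat_lit 2477) (nat_lit 157) (.e (nat_lit 2663) (nat_lit 167) .nil))))))))) (.g (nat_lit 1) (.e (nat_lit 215732) (nat_lit 0) .nil) .nil)))) 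
(.nd (nat_lit 9) 
(.lf (nat_lit 516589) (.g (nat_lit 1520) (.e (nat_lit 196666) (nat_lit 13) (.e (nat_lit 65610) (nat_lit 10) (.e (nat_lit 344117) (nat_lit 21) (.e (nat_lit 516096) (nat_lit 0) .nil)))) (.g (nat_lit 0) (.e (nat_lit 215301) (nat_lit 0) .nil) .nil))) 
(.lf (nat_lit 517101) (.g (nat_lit 3380) (.e (nat_lit 196666) (nat_lit 13) (.e (nat_lit 65610) (nat_lit 10) (.e (nat_lit 344117) (nat_lit 21) (.e (nat_lit 516151) (nat_lit 9) (.e (nat_lit 426037) (nat_lit 0) (.e (nat_lit 2426) (nat_lit 157) (.e (nat_lit 4758) (nat_lit 281) (.e (nat_lit 2517) (nat_lit 157) (.e (nat_lit 2664) (nat_lit 167) .nil))))))))) (.g (nat_lit 1) (.e (nat_lit 215988) (nat_lit 0) .nil) .nil)))))))) 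
(.nd (nat_lit 5) (.nd (nat_lit 6) (.nd (nat_lit 7) (.nd (nat_lit 8) (.nd (nat_lit 9) 
(.lf (nat_lit 516125) (.g (nat_lit 1304) (.e (nat_lit 196655) (nat_lit 11) (.e (nat_lit 16435) (nat_lit 9) (.e (nat_lit 426131) (nat_lit 3) (.e (nat_lit 204852) (nat_lit 26) .nil)))) (.g (nat_lit 0) (.e (nat_lit 214319) (nat_lit 0) .nil) .nil))) 
(.lf (nat_lit 516637) (.g (nat_lit 2252) (.e (nat_lit 196666) (nat_lit 13) (.e (nat_lit 65610) (nat_lit 10) (.e (nat_lit 344117) (nat_lit 21) (.e (nat_lit 516098) (nat_lit 0) (.e (nat_lit 3334) (nat_lit 205) .nil))))) (.g (nat_lit 0) (.e (nat_lit 215387) (nat_lit 0) .nil) .nil)))) (.nd (nat_lit 9) 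
(.lf (nat_lit 516381) (.g (nat_lit 1499) (.e (nat_lit 196663) (nat_lit 13) (.e (nat_lit 65630) (nat_lit 14) (.e (nat_lit 401427) (nat_lit 3) (.e (nat_lit 204858) (nat_lit 26) .nil)))) (.g (nat_lit 0) (.e (nat_lit 214863) (nat_lit 0) .nil) .nil))) 
(.lf (nat_lit 516893) (.g (nat_lit 4286) (.e (nat_lit 196666) (nat_lit 13) (.e (nat_lit 65610) (nat_lit 10) (.e (nat_lit 344117) (nat_lit 21) (.e (nat_lit 516151) (nat_lit 9) (.e (nat_lit 426017) (nat_lit 0) (.e (nat_lit 7936) (nat_lit 208) (.e (nat_lit 630528) (nat_lit 13) (.e (nat_lit 2666) (nat_lit 167) .nil)))))))) (.g (nat_lit 1) (.e (nat_lit 215780) (nat_lit 0) .nil) .nil))))) 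
(.nd (nat_lit 8) (.nd (nat_lit 9) 
(.lf (nat_lit 516253) (.g (nat_lit 1106) (.e (nat_lit 196656) (nat_lit 11) (.e (nat_lit 16463) (nat_lit 13) (.e (nat_lit 483340) (nat_lit 9) (.e (nat_lit 426107) (nat_lit 1) .nil)))) (.g (nat_lit 0) (.e (nat_lit 214664) (nat_lit 0) .nil) .nil))) 
(.lf (nat_lit 516765) (.g (nat_lit 2756) (.e (nat_lit 196666) (nat_lit 13) (.e (nat_lit 65610) (nat_lit 10) (.e (nat_lit 344117) (nat_lit 21) (.e (nat_lit 516139) (nat_lit 7) (.e (nat_lit 409618) (nat_lit 10) (.e (nat_lit 5669) (nat_lit 312) (.e (nat_lit 2661) (nat_lit 167) .nil))))))) (.g (nat_lit 1) (.e (nat_lit 215650) (nat_lit 0) .nil) .nil)))) (.nd (nat_lit 9) 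
(.lf (nat_lit 516509) (.g (nat_lit 1958) (.e (nat_lit 196665) (nat_lit 13) (.e (nat_lit 65628) (nat_lit 14) (.e (nat_lit 401428) (nat_lit 3) (.e (nat_lit 204863) (nat_lit 27) (.e (nat_lit 344068) (nat_lit 0) .nil))))) (.g (nat_lit 0) (.e (nat_lit 215048) (nat_lit 0) .nil) .nil))) 
(.lf (nat_lit 517021) (.g (nat_lit 3120) (.e (nat_lit 196666) (nat_lit 13) (.e (nat_lit 65610) (nat_lit 10) (.e (nat_lit 344117) (nat_lit 21) (.e (nat_lit 516151) (nat_lit 9) (.e (nat_lit 426022) (nat_lit 0) (.e (nat_lit 3363) (nat_lit 208) (.e (nat_lit 622627) (nat_lit 13) (.e (nat_lit 2666) (nat_lit 167) .nil)))))))) (.g (nat_lit 1) (.e (nat_lit 215908) (nat_lit 0) .nil) .nil)))))) 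
(.nd (nat_lit 7) (.nd (nat_lit 8) (.nd (nat_lit 9) 
(.lf (nat_lit 516189) (.g (nat_lit 2287) (.e (nat_lit 196656) (nat_lit 11) (.e (nat_lit 16431) (nat_lit 9) (.e (nat_lit 426568) (nat_lit 34) (.e (nat_lit 393252) (nat_lit 18) (.e (nat_lit 164330) (nat_lit 230) .nil))))) (.g (nat_lit 0) (.e (nat_lit 214486) (nat_lit 0) .nil) .nil))) 
(.lf (nat_lit 516701) (.g (nat_lit 2241) (.e (nat_lit 196666) (nat_lit 13) (.e (nat_lit 65610) (nat_lit 10) (.e (nat_lit 344117) (nat_lit 21) (.e (nat_lit 516106) (nat_lit 0) (.e (nat_lit 7008) (nat_lit 377) (.e (nat_lit 2458) (nat_lit 157) (.e (nat_lit 5667) (nat_lit 312) (.e (nat_lit 2661) (nat_lit 167) .nil)))))))) (.g (nat_lit 1) (.e (nat_lit 215516) (nat_lit 0) .nil) .nil)))) 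
(.nd (nat_lit 9) 
(.lf (nat_lit 516445) (.g (nat_lit 1496) (.e (nat_lit 196665) (nat_lit 13) (.e (nat_lit 65569) (nat_lit 3) (.e (nat_lit 98342) (nat_lit 20) (.e (nat_lit 221213) (nat_lit 23) .nil)))) (.g (nat_lit 0) (.e (nat_lit 214947) (nat_lit 0) .nil) .nil))) 
(.lf (nat_lit 516957) (.g (nat_lit 3854) (.e (nat_lit 196666) (nat_lit 13) (.e (nat_lit 65610) (nat_lit 10) (.e (nat_lit 344117) (nat_lit 21) (.e (nat_lit 516151) (nat_lit 9) (.e (nat_lit 426020) (nat_lit 0) (.e (nat_lit 3372) (nat_lit 208) (.e (nat_lit 622627) (nat_lit 13) (.e (nat_lit 2663) (nat_lit 167) .nil)))))))) (.g (nat_lit 1) (.e (nat_lit 215844) (nat_lit 0) .nil) .nil))))) 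
(.nd (nat_lit 8) (.nd (nat_lit 9) 
(.lf (nat_lit 516317) (.g (nat_lit 1057) (.e (nat_lit 196663) (nat_lit 13) (.e (nat_lit 65569) (nat_lit 3) (.e (nat_lit 98342) (nat_lit 20) (.e (nat_lit 221215) (nat_lit 23) .nil)))) (.g (nat_lit 0) (.e (nat_lit 214778) (nat_lit 0) .nil) .nil))) 
(.lf (nat_lit 516829) (.g (nat_lit 4553) (.e (nat_lit 196666) (nat_lit 13) (.e (nat_lit 65610) (nat_lit 10) (.e (nat_lit 344117) (nat_lit 21) (.e (nat_lit 516151) (nat_lit 9) (.e (nat_lit 426017) (nat_lit 0) (.e (nat_lit 2411) (nat_lit 157) (.e (nat_lit 4761) (nat_lit 281) (.e (nat_lit 2461) (nat_lit 157) (.e (nat_lit 2666) (nat_lit 167) .nil))))))))) (.g (nat_lit 1) (.e (nat_lit 215716) (nat_lit 0) .nil) .nil)))) 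
(.nd (nat_lit 9) 
(.lf (nat_lit 516573) (.g (nat_lit 2266) (.e (nat_lit 196666) (nat_lit 13) (.e (nat_lit 65599) (nat_lit 9) (.e (nat_lit 336028) (nat_lit 3) (.e (nat_lit 98350) (nat_lit 24) (.e (nat_lit 409623) (nat_lit 10) .nil))))) (.g (nat_lit 0) (.e (nat_lit 215261) (nat_lit 0) .nil) .nil))) 
(.lf (nat_lit 517085) (.g (nat_lit 3658) (.e (nat_lit 196666) (nat_lit 13) (.e (nat_lit 65610) (nat_lit 10) (.e (nat_lit 344117) (nat_lit 21) (.e (nat_lit 516151) (nat_lit 9) (.e (nat_lit 426037) (nat_lit 0) (.e (nat_lit 2416) (nat_lit 157) (.e (nat_lit 4848) (nat_lit 285) (.e (nat_lit 163870) (nat_lit 2) .nil)))))))) (.g (nat_lit 1) (.e (nat_lit 215972) (nat_lit 0) .nil) .nil))))))) 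
(.nd (nat_lit 6) (.nd (nat_lit 7) (.nd (nat_lit 8) (.nd (nat_lit 9) 
(.lf (nat_lit 516157) (.g (nat_lit 415) (.e (nat_lit 196656) (nat_lit 11) (.e (nat_lit 16392) (nat_lit 0) (.e (nat_lit 3399) (nat_lit 211) .nil))) (.g (nat_lit 0) (.e (nat_lit 214420) (nat_lit 0) .nil) .nil))) 
(.lf (nat_lit 516669) (.g (nat_lit 1849) (.e (nat_lit 196666) (nat_lit 13) (.e (nat_lit 65610) (nat_lit 10) (.e (nat_lit 344117) (nat_lit 21) (.e (nat_lit 516106) (nat_lit 0) (.e (nat_lit 2478) (nat_lit 157) .nil))))) (.g (nat_lit 0) (.e (nat_lit 215439) (nat_lit 0) .nil) .nil)))) (.nd (nat_lit 9) 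
(.lf (nat_lit 516413) (.g (nat_lit 958) (.e (nat_lit 196664) (nat_lit 13) (.e (nat_lit 65571) (nat_lit 3) (.e (nat_lit 98341) (nat_lit 20) .nil))) (.g (nat_lit 0) (.e (nat_lit 214907) (nat_lit 0) .nil) .nil))) 
(.lf (nat_lit 516925) (.g (nat_lit 4040) (.e (nat_lit 196666) (nat_lit 13) (.e (nat_lit 65610) (nat_lit 10) (.e (nat_lit 344117) (nat_lit 21) (.e (nat_lit 516151) (nat_lit 9) (.e (nat_lit 426019) (nat_lit 0) (.e (nat_lit 7936) (nat_lit 208) (.e (nat_lit 622627) (nat_lit 13) (.e (nat_lit 2666) (nat_lit 167) .nil)))))))) (.g (nat_lit 1) (.e (nat_lit 215812) (nat_lit 0) .nil) .nil))))) 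
(.nd (nat_lit 8) (.nd (nat_lit 9) 
(.lf (nat_lit 516285) (.g (nat_lit 2359) (.e (nat_lit 196658) (nat_lit 12) (.e (nat_lit 57712) (nat_lit 176) (.e (nat_lit 1370) (nat_lit 103) (.e (nat_lit 294931) (nat_lit 3) .nil)))) (.g (nat_lit 0) (.e (nat_lit 214710) (nat_lit 0) .nil) .nil))) 
(.lf (nat_lit 516797) (.g (nat_lit 4310) (.e (nat_lit 196666) (nat_lit 13) (.e (nat_lit 65610) (nat_lit 10) (.e (nat_lit 344117) (nat_lit 21) (.e (nat_lit 516151) (nat_lit 9) (.e (nat_lit 426017) (nat_lit 0) (.e (nat_lit 2401) (nat_lit 157) (.e (nat_lit 4824) (nat_lit 281) (.e (nat_lit 2477) (nat_lit 157) (.e (nat_lit 2663) (nat_lit 167) .nil))))))))) (.g (nat_lit 1) (.e (nat_lit 215684) (nat_lit 0) .nil) .nil)))) 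
(.nd (nat_lit 9) 
(.lf (nat_lit 516541) (.g (nat_lit 5366) (.e (nat_lit 196666) (nat_lit 13) (.e (nat_lit 65571) (nat_lit 3) (.e (nat_lit 98333) (nat_lit 18) (.e (nat_lit 164183) (nat_lit 154) (.e (nat_lit 57378) (nat_lit 3) (.e (nat_lit 98338) (nat_lit 19) (.e (nat_lit 213013) (nat_lit 9) (.e (nat_lit 2666) (nat_lit 167) .nil)))))))) (.g (nat_lit 1) (.e (nat_lit 215178) (nat_lit 0) .nil) .nil))) 
(.lf (nat_lit 517053) (.g (nat_lit 4280) (.e (nat_lit 196666) (nat_lit 13) (.e (nat_lit 65610) (nat_lit 10) (.e (nat_lit 344117) (nat_lit 21) (.e (nat_lit 516151) (nat_lit 9) (.e (nat_lit 426034) (nat_lit 0) (.e (nat_lit 2425) (nat_lit 157) (.e (nat_lit 4849) (nat_lit 285) (.e (nat_lit 163870) (nat_lit 2) .nil)))))))) (.g (nat_lit 1) (.e (nat_lit 215940) (nat_lit 0) .nil) .nil)))))) 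
(.nd (nat_lit 7) (.nd (nat_lit 8) (.nd (nat_lit 9) 
(.lf (nat_lit 516221) (.g (nat_lit 2200) (.e (nat_lit 196656) (nat_lit 11) (.e (nat_lit 16438) (nat_lit 9) (.e (nat_lit 426482) (nat_lit 27) (.e (nat_lit 336386) (nat_lit 27) (.e (nat_lit 426108) (nat_lit 1) .nil))))) (.g (nat_lit 0) (.e (nat_lit 214527) (nat_lit 0) .nil) .nil))) 
(.lf (nat_lit 516733) (.g (nat_lit 2412) (.e (nat_lit 196666) (nat_lit 13) (.e (nat_lit 65610) (nat_lit 10) (.e (nat_lit 344117) (nat_lit 21) (.e (nat_lit 516115) (nat_lit 1) (.e (nat_lit 164428) (nat_lit 278) .nil))))) (.g (nat_lit 0) (.e (nat_lit 215575) (nat_lit 0) .nil) .nil)))) (.nd (nat_lit 9) 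
(.lf (nat_lit 516477) (.g (nat_lit 2511) (.e (nat_lit 196665) (nat_lit 13) (.e (nat_lit 65619) (nat_lit 10) (.e (nat_lit 344117) (nat_lit 21) (.e (nat_lit 516106) (nat_lit 0) (.e (nat_lit 6998) (nat_lit 377) .nil))))) (.g (nat_lit 0) (.e (nat_lit 214999) (nat_lit 0) .nil) .nil))) 
(.lf (nat_lit 516989) (.g (nat_lit 3699) (.e (nat_lit 196666) (nat_lit 13) (.e (nat_lit 65610) (nat_lit 10) (.e (nat_lit 344117) (nat_lit 21) (.e (nat_lit 516151) (nat_lit 9) (.e (nat_lit 426021) (nat_lit 0) (.e (nat_lit 3368) (nat_lit 208) (.e (nat_lit 622621) (nat_lit 13) (.e (nat_lit 2668) (nat_lit 167) .nil)))))))) (.g (nat_lit 1) (.e (nat_lit 215876) (nat_lit 0) .nil) .nil))))) 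
(.nd (nat_lit 8) (.nd (nat_lit 9) 
(.lf (nat_lit 516349) (.g (nat_lit 3127) (.e (nat_lit 196663) (nat_lit 13) (.e (nat_lit 65571) (nat_lit 3) (.e (nat_lit 98342) (nat_lit 20) (.e (nat_lit 221215) (nat_lit 23) (.e (nat_lit 204830) (nat_lit 18) (.e (nat_lit 57927) (nat_lit 282) (.e (nat_lit 163869) (nat_lit 2) .nil))))))) (.g (nat_lit 1) (.e (nat_lit 214824) (nat_lit 0) .nil) .nil))) 
(.lf (nat_lit 516861) (.g (nat_lit 3392) (.e (nat_lit 196666) (nat_lit 13) (.e (nat_lit 65610) (nat_lit 10) (.e (nat_lit 344117) (nat_lit 21) (.e (nat_lit 516151) (nat_lit 9) (.e (nat_lit 426017) (nat_lit 0) (.e (nat_lit 3367) (nat_lit 208) (.e (nat_lit 622620) (nat_lit 13) (.e (nat_lit 2666) (nat_lit 167) .nil)))))))) (.g (nat_lit 1) (.e (nat_lit 215748) (nat_lit 0) .nil) .nil)))) 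
(.nd (nat_lit 9) 
(.lf (nat_lit 516605) (.g (nat_lit 3371) (.e (nat_lit 196666) (nat_lit 13) (.e (nat_lit 65610) (nat_lit 10) (.e (nat_lit 344117) (nat_lit 21) (.e (nat_lit 516097) (nat_lit 0) (.e (nat_lit 3333) (nat_lit 205) .nil))))) (.g (nat_lit 0) (.e (nat_lit 215341) (nat_lit 0) .nil) .nil))) 
(.lf (nat_lit 517117) (.g (nat_lit 3177) (.e (nat_lit 196666) (nat_lit 13) (.e (nat_lit 65610) (nat_lit 10) (.e (nat_lit 344117) (nat_lit 21) (.e (nat_lit 516151) (nat_lit 9) (.e (nat_lit 426037) (nat_lit 0) (.e (nat_lit 3366) (nat_lit 208) (.e (nat_lit 630528) (nat_lit 13) (.e (nat_lit 2666) (nat_lit 167) .nil)))))))) (.g (nat_lit 1) (.e (nat_lit 216004) (nat_lit 0) .nil) .nil))))))))))) 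
(.nd (nat_lit 2) (.nd (nat_lit 3) (.nd (nat_lit 4) (.nd (nat_lit 5) (.nd (nat_lit 6) 
(.nd (nat_lit 7) (.nd (nat_lit 8) (.nd (nat_lit 9) 
(.lf (nat_lit 516099) (.g (nat_lit 2316) (.e (nat_lit 196654) (nat_lit 11) (.e (nat_lit 16463) (nat_lit 13) (.e (nat_lit 483341) (nat_lit 9) (.e (nat_lit 426108) (nat_lit 1) (.e (nat_lit 164305) (nat_lit 226) .nil))))) (.g (nat_lit 0) (.e (nat_lit 214222) (nat_lit 0) .nil) .nil))) 
(.lf (nat_lit 516611) (.g (nat_lit 3236) (.e (nat_lit 196666) (nat_lit 13) (.e (nat_lit 65610) (nat_lit 10) (.e (nat_lit 344117) (nat_lit 21) (.e (nat_lit 516097) (nat_lit 0) (.e (nat_lit 3342) (nat_lit 205) .nil))))) (.g (nat_lit 0) (.e (nat_lit 215352) (nat_lit 0) .nil) .nil)))) (.nd (nat_lit 9) 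
(.lf (nat_lit 516355) (.g (nat_lit 830) (.e (nat_lit 196663) (nat_lit 13) (.e (nat_lit 65624) (nat_lit 12) (.e (nat_lit 385066) (nat_lit 26) .nil))) (.g (nat_lit 0) (.e (nat_lit 214834) (nat_lit 0) .nil) .nil))) 
(.lf (nat_lit 516867) (.g (nat_lit 4849) (.e (nat_lit 196666) (nat_lit 13) (.e (nat_lit 65610) (nat_lit 10) (.e (nat_lit 344117) (nat_lit 21) (.e (nat_lit 516151) (nat_lit 9) (.e (nat_lit 426017) (nat_lit 0) (.e (nat_lit 3368) (nat_lit 208) (.e (nat_lit 622620) (nat_lit 13) (.e (nat_lit 2663) (nat_lit 167) .nil)))))))) (.g (nat_lit 1) (.e (nat_lit 215754) (nat_lit 0) .nil) .nil))))) 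
(.nd (nat_lit 8) (.nd (nat_lit 9) 
(.lf (nat_lit 516227) (.g (nat_lit 1627) (.e (nat_lit 196656) (nat_lit 11) (.e (nat_lit 16438) (nat_lit 9) (.e (nat_lit 426482) (nat_lit 27) (.e (nat_lit 336388) (nat_lit 27) .nil)))) (.g (nat_lit 0) (.e (nat_lit 214533) (nat_lit 0) .nil) .nil))) 
(.lf (nat_lit 516739) (.g (nat_lit 2740) (.e (nat_lit 196666) (nat_lit 13) (.e (nat_lit 65610) (nat_lit 10) (.e (nat_lit 344117) (nat_lit 21) (.e (nat_lit 516120) (nat_lit 1) .nil)))) (.g (nat_lit 0) (.e (nat_lit 215620) (nat_lit 0) .nil) .nil)))) (.nd (nat_lit 9) 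
(.lf (nat_lit 516483) (.g (nat_lit 2489) (.e (nat_lit 196665) (nat_lit 13) (.e (nat_lit 65623) (nat_lit 12) (.e (nat_lit 385068) (nat_lit 26) (.e (nat_lit 532515) (nat_lit 3) (.e (nat_lit 114697) (nat_lit 11) (.e (nat_lit 426122) (nat_lit 2) .nil)))))) (.g (nat_lit 1) (.e (nat_lit 215012) (nat_lit 0) .nil) .nil))) 
(.lf (nat_lit 516995) (.g (nat_lit 3550) (.e (nat_lit 196666) (nat_lit 13) (.e (nat_lit 65610) (nat_lit 10) (.e (nat_lit 344117) (nat_lit 21) (.e (nat_lit 516151) (nat_lit 9) (.e (nat_lit 426021) (nat_lit 0) (.e (nat_lit 3372) (nat_lit 208) (.e (nat_lit 622621) (nat_lit 13) (.e (nat_lit 2668) (nat_lit 167) .nil)))))))) (.g (nat_lit 1) (.e (nat_lit 215882) (nat_lit 0) .nil) .nil)))))) 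
(.nd (nat_lit 7) (.nd (nat_lit 8) (.nd (nat_lit 9) 
(.lf (nat_lit 516163) (.g (nat_lit 2615) (.e (nat_lit 196656) (nat_lit 11) (.e (nat_lit 16411) (nat_lit 2) (.e (nat_lit 196656) (nat_lit 11) (.e (nat_lit 16412) (nat_lit 2) (.e (nat_lit 196654) (nat_lit 11) (.e (nat_lit 16411) (nat_lit 2) .nil)))))) (.g (nat_lit 1) (.e (nat_lit 214435) (nat_lit 0) .nil) .nil))) 
(.lf (nat_lit 516675) (.g (nat_lit 3265) (.e (nat_lit 196666) (nat_lit 13) (.e (nat_lit 65610) (nat_lit 10) (.e (nat_lit 344117) (nat_lit 21) (.e (nat_lit 516106) (nat_lit 0) (.e (nat_lit 3335) (nat_lit 205) (.e (nat_lit 598065) (nat_lit 20) (.e (nat_lit 237589) (nat_lit 2) .nil))))))) (.g (nat_lit 1) (.e (nat_lit 215452) (nat_lit 0) .nil) .nil)))) (.nd (nat_lit 9) 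
(.lf (nat_lit 516419) (.g (nat_lit 2322) (.e (nat_lit 196664) (nat_lit 13) (.e (nat_lit 65571) (nat_lit 3) (.e (nat_lit 98342) (nat_lit 20) (.e (nat_lit 221212) (nat_lit 22) (.e (nat_lit 196635) (nat_lit 9) .nil))))) (.g (nat_lit 0) (.e (nat_lit 214913) (nat_lit 0) .nil) .nil))) 
(.lf (nat_lit 516931) (.g (nat_lit 3798) (.e (nat_lit 196666) (nat_lit 13) (.e (nat_lit 65610) (nat_lit 10) (.e (nat_lit 344117) (nat_lit 21) (.e (nat_lit 516151) (nat_lit 9) (.e (nat_lit 426020) (nat_lit 0) (.e (nat_lit 3366) (nat_lit 208) (.e (nat_lit 622620) (nat_lit 13) (.e (nat_lit 2668) (nat_lit 167) .nil)))))))) (.g (nat_lit 1) (.e (nat_lit 215818) (nat_lit 0) .nil) .nil))))) 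
(.nd (nat_lit 8) (.nd (nat_lit 9) 
(.lf (nat_lit 516291) (.g (nat_lit 824) (.e (nat_lit 196661) (nat_lit 12) (.e (nat_lit 57712) (nat_lit 176) (.e (nat_lit 1370) (nat_lit 103) (.e (nat_lit 294931) (nat_lit 3) .nil)))) (.g (nat_lit 0) (.e (nat_lit 214732) (nat_lit 0) .nil) .nil))) 
(.lf (nat_lit 516803) (.g (nat_lit 4258) (.e (nat_lit 196666) (nat_lit 13) (.e (nat_lit 65610) (nat_lit 10) (.e (nat_lit 344117) (nat_lit 21) (.e (nat_lit 516151) (nat_lit 9) (.e (nat_lit 426017) (nat_lit 0) (.e (nat_lit 2401) (nat_lit 157) (.e (nat_lit 4830) (nat_lit 281) (.e (nat_lit 2477) (nat_lit 157) (.e (nat_lit 2663) (nat_lit 167) .nil))))))))) (.g (nat_lit 1) (.e (nat_lit 215690) (nat_lit 0) .nil) .nil)))) 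
(.nd (nat_lit 9) 
(.lf (nat_lit 516547) (.g (nat_lit 452) (.e (nat_lit 196666) (nat_lit 13) (.e (nat_lit 65571) (nat_lit 3) (.e (nat_lit 98342) (nat_lit 20) .nil))) (.g (nat_lit 0) (.e (nat_lit 215201) (nat_lit 0) .nil) .nil))) 
(.lf (nat_lit 517059) (.g (nat_lit 3441) (.e (nat_lit 196666) (nat_lit 13) (.e (nat_lit 65610) (nat_lit 10) (.e (nat_lit 344117) (nat_lit 21) (.e (nat_lit 516151) (nat_lit 9) (.e (nat_lit 426034) (nat_lit 0) (.e (nat_lit 3366) (nat_lit 208) (.e (nat_lit 622620) (nat_lit 13) (.e (nat_lit 2666) (nat_lit 167) .nil)))))))) (.g (nat_lit 1) (.e (nat_lit 215946) (nat_lit 0) .nil) .nil))))))) 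
(.nd (nat_lit 6) (.nd (nat_lit 7) (.nd (nat_lit 8) (.nd (nat_lit 9) 
(.lf (nat_lit 516131) (.g (nat_lit 1243) (.e (nat_lit 196655) (nat_lit 11) (.e (nat_lit 16435) (nat_lit 9) (.e (nat_lit 426515) (nat_lit 27) (.e (nat_lit 336387) (nat_lit 27) (.e (nat_lit 426107) (nat_lit 1) .nil))))) (.g (nat_lit 0) (.e (nat_lit 214327) (nat_lit 0) .nil) .nil))) 
(.lf (nat_lit 516643) (.g (nat_lit 2020) (.e (nat_lit 196666) (nat_lit 13) (.e (nat_lit 65610) (nat_lit 10) (.e (nat_lit 344117) (nat_lit 21) (.e (nat_lit 516099) (nat_lit 0) .nil)))) (.g (nat_lit 0) (.e (nat_lit 215393) (nat_lit 0) .nil) .nil)))) (.nd (nat_lit 9) 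
(.lf (nat_lit 516387) (.g (nat_lit 3732) (.e (nat_lit 196663) (nat_lit 13) (.e (nat_lit 65630) (nat_lit 14) (.e (nat_lit 401428) (nat_lit 3) (.e (nat_lit 204846) (nat_lit 24) (.e (nat_lit 319490) (nat_lit 0) (.e (nat_lit 5664) (nat_lit 312) (.e (nat_lit 2661) (nat_lit 167) .nil))))))) (.g (nat_lit 1) (.e (nat_lit 214870) (nat_lit 0) .nil) .nil))) 
(.lf (nat_lit 516899) (.g (nat_lit 3258) (.e (nat_lit 196666) (nat_lit 13) (.e (nat_lit 65610) (nat_lit 10) (.e (nat_lit 344117) (nat_lit 21) (.e (nat_lit 516151) (nat_lit 9) (.e (nat_lit 426018) (nat_lit 0) (.e (nat_lit 2411) (nat_lit 157) (.e (nat_lit 4761) (nat_lit 281) (.e (nat_lit 2461) (nat_lit 157) (.e (nat_lit 2666) (nat_lit 167) .nil))))))))) (.g (nat_lit 1) (.e (nat_lit 215786) (nat_lit 0) .nil) .nil))))) 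
(.nd (nat_lit 8) (.nd (nat_lit 9) 
(.lf (nat_lit 516259) (.g (nat_lit 1403) (.e (nat_lit 196656) (nat_lit 11) (.e (nat_lit 16465) (nat_lit 13) (.e (nat_lit 483337) (nat_lit 9) (.e (nat_lit 426098) (nat_lit 1) (.e (nat_lit 164325) (nat_lit 230) .nil))))) (.g (nat_lit 0) (.e (nat_lit 214671) (nat_lit 0) .nil) .nil))) 
(.lf (nat_lit 516771) (.g (nat_lit 3601) (.e (nat_lit 196666) (nat_lit 13) (.e (nat_lit 65610) (nat_lit 10) (.e (nat_lit 344117) (nat_lit 21) (.e (nat_lit 516141) (nat_lit 8) (.e (nat_lit 417814) (nat_lit 10) (.e (nat_lit 5710) (nat_lit 312) (.e (nat_lit 2664) (nat_lit 167) .nil))))))) (.g (nat_lit 1) (.e (nat_lit 215656) (nat_lit 0) .nil) .nil)))) (.nd (nat_lit 9) 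
(.lf (nat_lit 516515) (.g (nat_lit 2054) (.e (nat_lit 196665) (nat_lit 13) (.e (nat_lit 65637) (nat_lit 15) (.e (nat_lit 3632) (nat_lit 227) (.e (nat_lit 778318) (nat_lit 3) (.e (nat_lit 57476) (nat_lit 28) .nil))))) (.g (nat_lit 0) (.e (nat_lit 215054) (nat_lit 0) .nil) .nil))) 
(.lf (nat_lit 517027) (.g (nat_lit 2995) (.e (nat_lit 196666) (nat_lit 13) (.e (nat_lit 65610) (nat_lit 10) (.e (nat_lit 344117) (nat_lit 21) (.e (nat_lit 516151) (nat_lit 9) (.e (nat_lit 426023) (nat_lit 0) (.e (nat_lit 2402) (nat_lit 157) (.e (nat_lit 4761) (nat_lit 281) (.e (nat_lit 2463) (nat_lit 157) (.e (nat_lit 2666) (nat_lit 167) .nil))))))))) (.g (nat_lit 1) (.e (nat_lit 215914) (nat_lit 0) .nil) .nil)))))) 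
(.nd (nat_lit 7) (.nd (nat_lit 8) (.nd (nat_lit 9) 
(.lf (nat_lit 516195) (.g (nat_lit 4261) (.e (nat_lit 196656) (nat_lit 11) (.e (nat_lit 16435) (nat_lit 9) (.e (nat_lit 426566) (nat_lit 34) (.e (nat_lit 393253) (nat_lit 18) (.e (nat_lit 164327) (nat_lit 230) (.e (nat_lit 163871) (nat_lit 2) .nil)))))) (.g (nat_lit 1) (.e (nat_lit 214493) (nat_lit 0) .nil) .nil))) 
(.lf (nat_lit 516707) (.g (nat_lit 3128) (.e (nat_lit 196666) (nat_lit 13) (.e (nat_lit 65610) (nat_lit 10) (.e (nat_lit 344117) (nat_lit 21) (.e (nat_lit 516106) (nat_lit 0) (.e (nat_lit 7015) (nat_lit 377) (.e (nat_lit 2797) (nat_lit 180) (.e (nat_lit 303116) (nat_lit 2) .nil))))))) (.g (nat_lit 1) (.e (nat_lit 215522) (nat_lit 0) .nil) .nil)))) (.nd (nat_lit 9) 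
(.lf (nat_lit 516451) (.g (nat_lit 2899) (.e (nat_lit 196665) (nat_lit 13) (.e (nat_lit 65589) (nat_lit 9) (.e (nat_lit 336013) (nat_lit 2) (.e (nat_lit 90165) (nat_lit 12) (.e (nat_lit 164208) (nat_lit 176) .nil))))) (.g (nat_lit 0) (.e (nat_lit 214956) (nat_lit 0) .nil) .nil))) 
(.lf (nat_lit 516963) (.g (nat_lit 4645) (.e (nat_lit 196666) (nat_lit 13) (.e (nat_lit 65610) (nat_lit 10) (.e (nat_lit 344117) (nat_lit 21) (.e (nat_lit 516151) (nat_lit 9) (.e (nat_lit 426020) (nat_lit 0) (.e (nat_lit 3373) (nat_lit 208) (.e (nat_lit 622626) (nat_lit 13) (.e (nat_lit 2663) (nat_lit 167) .nil)))))))) (.g (nat_lit 1) (.e (nat_lit 215850) (nat_lit 0) .nil) .nil))))) 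
(.nd (nat_lit 8) (.nd (nat_lit 9) 
(.lf (nat_lit 516323) (.g (nat_lit 2816) (.e (nat_lit 196663) (nat_lit 13) (.e (nat_lit 65571) (nat_lit 3) (.e (nat_lit 98333) (nat_lit 18) (.e (nat_lit 164179) (nat_lit 154) (.e (nat_lit 57377) (nat_lit 3) .nil))))) (.g (nat_lit 0) (.e (nat_lit 214790) (nat_lit 0) .nil) .nil))) 
(.lf (nat_lit 516835) (.g (nat_lit 3657) (.e (nat_lit 196666) (nat_lit 13) (.e (nat_lit 65610) (nat_lit 10) (.e (nat_lit 344117) (nat_lit 21) (.e (nat_lit 516151) (nat_lit 9) (.e (nat_lit 426017) (nat_lit 0) (.e (nat_lit 2412) (nat_lit 157) (.e (nat_lit 4761) (nat_lit 281) (.e (nat_lit 2463) (nat_lit 157) (.e (nat_lit 2666) (nat_lit 167) .nil))))))))) (.g (nat_lit 1) (.e (nat_lit 215722) (nat_lit 0) .nil) .nil)))) 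
(.nd (nat_lit 9) 
(.lf (nat_lit 516579) (.g (nat_lit 1270) (.e (nat_lit 196666) (nat_lit 13) (.e (nat_lit 65604) (nat_lit 9) (.e (nat_lit 336028) (nat_lit 3) (.e (nat_lit 98350) (nat_lit 24) .nil)))) (.g (nat_lit 0) (.e (nat_lit 215276) (nat_lit 0) .nil) .nil))) 
(.lf (nat_lit 517091) (.g (nat_lit 4207) (.e (nat_lit 196666) (nat_lit 13) (.e (nat_lit 65610) (nat_lit 10) (.e (nat_lit 344117) (nat_lit 21) (.e (nat_lit 516151) (nat_lit 9) (.e (nat_lit 426037) (nat_lit 0) (.e (nat_lit 2422) (nat_lit 157) (.e (nat_lit 4849) (nat_lit 285) (.e (nat_lit 163869) (nat_lit 2) .nil)))))))) (.g (nat_lit 1) (.e (nat_lit 215978) (nat_lit 0) .nil) .nil)))))))) 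
(.nd (nat_lit 5) (.nd (nat_lit 6) (.nd (nat_lit 7) (.nd (nat_lit 8) (.nd (nat_lit 9) 
(.lf (nat_lit 516115) (.g (nat_lit 3357) (.e (nat_lit 196654) (nat_lit 11) (.e (nat_lit 16466) (nat_lit 13) (.e (nat_lit 483341) (nat_lit 9) (.e (nat_lit 426107) (nat_lit 1) (.e (nat_lit 164331) (nat_lit 230) (.e (nat_lit 163866) (nat_lit 2) .nil)))))) (.g (nat_lit 1) (.e (nat_lit 214253) (nat_lit 0) .nil) .nil))) 
(.lf (nat_lit 516627) (.g (nat_lit 4612) (.e (nat_lit 196666) (nat_lit 13) (.e (nat_lit 65610) (nat_lit 10) (.e (nat_lit 344117) (nat_lit 21) (.e (nat_lit 516097) (nat_lit 0) (.e (nat_lit 7583) (nat_lit 405) (.e (nat_lit 57750) (nat_lit 201) (.e (nat_lit 2664) (nat_lit 167) .nil))))))) (.g (nat_lit 1) (.e (nat_lit 215373) (nat_lit 0) .nil) .nil)))) (.nd (nat_lit 9) 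
(.lf (nat_lit 516371) (.g (nat_lit 2353) (.e (nat_lit 196663) (nat_lit 13) (.e (nat_lit 65630) (nat_lit 14) (.e (nat_lit 401425) (nat_lit 2) (.e (nat_lit 204544) (nat_lit 14) .nil)))) (.g (nat_lit 0) (.e (nat_lit 214853) (nat_lit 0) .nil) .nil))) 
(.lf (nat_lit 516883) (.g (nat_lit 4921) (.e (nat_lit 196666) (nat_lit 13) (.e (nat_lit 65610) (nat_lit 10) (.e (nat_lit 344117) (nat_lit 21) (.e (nat_lit 516151) (nat_lit 9) (.e (nat_lit 426017) (nat_lit 0) (.e (nat_lit 3373) (nat_lit 208) (.e (nat_lit 622625) (nat_lit 13) (.e (nat_lit 2663) (nat_lit 167) .nil)))))))) (.g (nat_lit 1) (.e (nat_lit 215770) (nat_lit 0) .nil) .nil))))) 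
(.nd (nat_lit 8) (.nd (nat_lit 9) 
(.lf (nat_lit 516243) (.g (nat_lit 1203) (.e (nat_lit 196656) (nat_lit 11) (.e (nat_lit 16448) (nat_lit 10) (.e (nat_lit 434231) (nat_lit 23) (.e (nat_lit 532563) (nat_lit 15) .nil)))) (.g (nat_lit 0) (.e (nat_lit 214605) (nat_lit 0) .nil) .nil))) 
(.lf (nat_lit 516755) (.g (nat_lit 3645) (.e (nat_lit 196666) (nat_lit 13) (.e (nat_lit 65610) (nat_lit 10) (.e (nat_lit 344117) (nat_lit 21) (.e (nat_lit 516139) (nat_lit 7) (.e (nat_lit 409614) (nat_lit 10) (.e (nat_lit 7936) (nat_lit 312) (.e (nat_lit 2666) (nat_lit 167) .nil))))))) (.g (nat_lit 1) (.e (nat_lit 215640) (nat_lit 0) .nil) .nil)))) (.nd (nat_lit 9) 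
(.lf (nat_lit 516499) (.g (nat_lit 2568) (.e (nat_lit 196665) (nat_lit 13) (.e (nat_lit 65628) (nat_lit 14) (.e (nat_lit 401425) (nat_lit 2) (.e (nat_lit 196628) (nat_lit 9) (.e (nat_lit 970) (nat_lit 81) .nil))))) (.g (nat_lit 0) (.e (nat_lit 215037) (nat_lit 0) .nil) .nil))) 
(.lf (nat_lit 517011) (.g (nat_lit 2813) (.e (nat_lit 196666) (nat_lit 13) (.e (nat_lit 65610) (nat_lit 10) (.e (nat_lit 344117) (nat_lit 21) (.e (nat_lit 516151) (nat_lit 9) (.e (nat_lit 426022) (nat_lit 0) (.e (nat_lit 2397) (nat_lit 157) (.e (nat_lit 4848) (nat_lit 285) (.e (nat_lit 163865) (nat_lit 2) .nil)))))))) (.g (nat_lit 1) (.e (nat_lit 215898) (nat_lit 0) .nil) .nil)))))) 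
(.nd (nat_lit 7) (.nd (nat_lit 8) (.nd (nat_lit 9) 
(.lf (nat_lit 516179) (.g (nat_lit 1199) (.e (nat_lit 196656) (nat_lit 11) (.e (nat_lit 16416) (nat_lit 3) (.e (nat_lit 204821) (nat_lit 17) .nil))) (.g (nat_lit 0) (.e (nat_lit 214470) (nat_lit 0) .nil) .nil))) 
(.lf (nat_lit 516691) (.g (nat_lit 2841) (.e (nat_lit 196666) (nat_lit 13) (.e (nat_lit 65610) (nat_lit 10) (.e (nat_lit 344117) (nat_lit 21) (.e (nat_lit 516106) (nat_lit 0) (.e (nat_lit 6986) (nat_lit 377) (.e (nat_lit 2410) (nat_lit 157) (.e (nat_lit 5664) (nat_lit 312) (.e (nat_lit 2661) (nat_lit 167) .nil)))))))) (.g (nat_lit 1) (.e (nat_lit 215506) (nat_lit 0) .nil) .nil)))) 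
(.nd (nat_lit 9) 
(.lf (nat_lit 516435) (.g (nat_lit 439) (.e (nat_lit 196664) (nat_lit 13) (.e (nat_lit 65627) (nat_lit 13) (.e (nat_lit 393221) (nat_lit 0) .nil))) (.g (nat_lit 0) (.e (nat_lit 214932) (nat_lit 0) .nil) .nil))) 
(.lf (nat_lit 516947) (.g (nat_lit 3674) (.e (nat_lit 196666) (nat_lit 13) (.e (nat_lit 65610) (nat_lit 10) (.e (nat_lit 344117) (nat_lit 21) (.e (nat_lit 516151) (nat_lit 9) (.e (nat_lit 426020) (nat_lit 0) (.e (nat_lit 3368) (nat_lit 208) (.e (nat_lit 622621) (nat_lit 13) (.e (nat_lit 2668) (nat_lit 167) .nil)))))))) (.g (nat_lit 1) (.e (nat_lit 215834) (nat_lit 0) .nil) .nil))))) 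
(.nd (nat_lit 8) (.nd (nat_lit 9) 
(.lf (nat_lit 516307) (.g (nat_lit 2076) (.e (nat_lit 196662) (nat_lit 13) (.e (nat_lit 65630) (nat_lit 14) (.e (nat_lit 401425) (nat_lit 2) (.e (nat_lit 196668) (nat_lit 14) .nil)))) (.g (nat_lit 0) (.e (nat_lit 214766) (nat_lit 0) .nil) .nil))) 
(.lf (nat_lit 516819) (.g (nat_lit 4330) (.e (nat_lit 196666) (nat_lit 13) (.e (nat_lit 65610) (nat_lit 10) (.e (nat_lit 344117) (nat_lit 21) (.e (nat_lit 516151) (nat_lit 9) (.e (nat_lit 426017) (nat_lit 0) (.e (nat_lit 2430) (nat_lit 157) (.e (nat_lit 4849) (nat_lit 285) (.e (nat_lit 163869) (nat_lit 2) .nil)))))))) (.g (nat_lit 1) (.e (nat_lit 215706) (nat_lit 0) .nil) .nil)))) 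
(.nd (nat_lit 9) 
(.lf (nat_lit 516563) (.g (nat_lit 2552) (.e (nat_lit 196666) (nat_lit 13) (.e (nat_lit 65598) (nat_lit 9) (.e (nat_lit 336028) (nat_lit 3) (.e (nat_lit 98350) (nat_lit 24) (.e (nat_lit 409617) (nat_lit 10) .nil))))) (.g (nat_lit 0) (.e (nat_lit 215243) (nat_lit 0) .nil) .nil))) 
(.lf (nat_lit 517075) (.g (nat_lit 3455) (.e (nat_lit 196666) (nat_lit 13) (.e (nat_lit 65610) (nat_lit 10) (.e (nat_lit 344117) (nat_lit 21) (.e (nat_lit 516151) (nat_lit 9) (.e (nat_lit 426034) (nat_lit 0) (.e (nat_lit 3370) (nat_lit 208) (.e (nat_lit 622622) (nat_lit 13) (.e (nat_lit 2668) (nat_lit 167) .nil)))))))) (.g (nat_lit 1) (.e (nat_lit 215962) (nat_lit 0) .nil) .nil))))))) 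
(.nd (nat_lit 6) (.nd (nat_lit 7) (.nd (nat_lit 8) (.nd (nat_lit 9) 
(.lf (nat_lit 516147) (.g (nat_lit 258) (.e (nat_lit 196655) (nat_lit 11) (.e (nat_lit 16465) (nat_lit 13) (.e (nat_lit 491264) (nat_lit 10) .nil))) (.g (nat_lit 0) (.e (nat_lit 214390) (nat_lit 0) .nil) .nil))) 
(.lf (nat_lit 516659) (.g (nat_lit 2749) (.e (nat_lit 196666) (nat_lit 13) (.e (nat_lit 65610) (nat_lit 10) (.e (nat_lit 344117) (nat_lit 21) (.e (nat_lit 516102) (nat_lit 0) (.e (nat_lit 7107) (nat_lit 380) (.e (nat_lit 164364) (nat_lit 246) (.e (nat_lit 7936) (nat_lit 167) .nil))))))) (.g (nat_lit 1) (.e (nat_lit 215413) (nat_lit 0) .nil) .nil)))) (.nd (nat_lit 9) 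
(.lf (nat_lit 516403) (.g (nat_lit 2576) (.e (nat_lit 196664) (nat_lit 13) (.e (nat_lit 65571) (nat_lit 3) (.e (nat_lit 98333) (nat_lit 18) (.e (nat_lit 164183) (nat_lit 154) (.e (nat_lit 57379) (nat_lit 3) .nil))))) (.g (nat_lit 0) (.e (nat_lit 214897) (nat_lit 0) .nil) .nil))) 
(.lf (nat_lit 516915) (.g (nat_lit 4522) (.e (nat_lit 196666) (nat_lit 13) (.e (nat_lit 65610) (nat_lit 10) (.e (nat_lit 344117) (nat_lit 21) (.e (nat_lit 516151) (nat_lit 9) (.e (nat_lit 426019) (nat_lit 0) (.e (nat_lit 3372) (nat_lit 208) (.e (nat_lit 630528) (nat_lit 13) (.e (nat_lit 2666) (nat_lit 167) .nil)))))))) (.g (nat_lit 1) (.e (nat_lit 215802) (nat_lit 0) .nil) .nil))))) 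
(.nd (nat_lit 8) (.nd (nat_lit 9) 
(.lf (nat_lit 516275) (.g (nat_lit 955) (.e (nat_lit 196656) (nat_lit 11) (.e (nat_lit 16473) (nat_lit 14) (.e (nat_lit 491526) (nat_lit 0) .nil))) (.g (nat_lit 0) (.e (nat_lit 214691) (nat_lit 0) .nil) .nil))) 
(.lf (nat_lit 516787) (.g (nat_lit 4027) (.e (nat_lit 196666) (nat_lit 13) (.e (nat_lit 65610) (nat_lit 10) (.e (nat_lit 344117) (nat_lit 21) (.e (nat_lit 516151) (nat_lit 9) (.e (nat_lit 426017) (nat_lit 0) (.e (nat_lit 2398) (nat_lit 157) (.e (nat_lit 4761) (nat_lit 281) (.e (nat_lit 2463) (nat_lit 157) (.e (nat_lit 2666) (nat_lit 167) .nil))))))))) (.g (nat_lit 1) (.e (nat_lit 215674) (nat_lit 0) .nil) .nil)))) 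
(.nd (nat_lit 9) 
(.lf (nat_lit 516531) (.g (nat_lit 3103) (.e (nat_lit 196666) (nat_lit 13) (.e (nat_lit 65569) (nat_lit 3) (.e (nat_lit 98341) (nat_lit 20) (.e (nat_lit 221215) (nat_lit 23) (.e (nat_lit 204830) (nat_lit 18) (.e (nat_lit 57929) (nat_lit 282) (.e (nat_lit 163869) (nat_lit 2) .nil))))))) (.g (nat_lit 1) (.e (nat_lit 215142) (nat_lit 0) .nil) .nil))) 
(.lf (nat_lit 517043) (.g (nat_lit 3882) (.e (nat_lit 196666) (nat_lit 13) (.e (nat_lit 65610) (nat_lit 10) (.e (nat_lit 344117) (nat_lit 21) (.e (nat_lit 516151) (nat_lit 9) (.e (nat_lit 426034) (nat_lit 0) (.e (nat_lit 2423) (nat_lit 157) (.e (nat_lit 4848) (nat_lit 285) (.e (nat_lit 163869) (nat_lit 2) .nil)))))))) (.g (nat_lit 1) (.e (nat_lit 215930) (nat_lit 0) .nil) .nil)))))) 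
(.nd (nat_lit 7) (.nd (nat_lit 8) (.nd (nat_lit 9) 
(.lf (nat_lit 516211) (.g (nat_lit 2842) (.e (nat_lit 196656) (nat_lit 11) (.e (nat_lit 16436) (nat_lit 9) (.e (nat_lit 426131) (nat_lit 3) (.e (nat_lit 204882) (nat_lit 32) (.e (nat_lit 385107) (nat_lit 51) (.e (nat_lit 794669) (nat_lit 22) .nil)))))) (.g (nat_lit 1) (.e (nat_lit 214516) (nat_lit 0) .nil) .nil))) 
(.lf (nat_lit 516723) (.g (nat_lit 3173) (.e (nat_lit 196666) (nat_lit 13) (.e (nat_lit 65610) (nat_lit 10) (.e (nat_lit 344117) (nat_lit 21) (.e (nat_lit 516106) (nat_lit 0) (.e (nat_lit 7112) (nat_lit 381) (.e (nat_lit 229687) (nat_lit 246) (.e (nat_lit 2654) (nat_lit 167) .nil))))))) (.g (nat_lit 1) (.e (nat_lit 215538) (nat_lit 0) .nil) .nil)))) (.nd (nat_lit 9) 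
(.lf (nat_lit 516467) (.g (nat_lit 2013) (.e (nat_lit 196665) (nat_lit 13) (.e (nat_lit 65599) (nat_lit 9) (.e (nat_lit 336028) (nat_lit 3) (.e (nat_lit 98349) (nat_lit 24) (.e (nat_lit 409644) (nat_lit 18) .nil))))) (.g (nat_lit 0) (.e (nat_lit 214983) (nat_lit 0) .nil) .nil))) 
(.lf (nat_lit 516979) (.g (nat_lit 3818) (.e (nat_lit 196666) (nat_lit 13) (.e (nat_lit 65610) (nat_lit 10) (.e (nat_lit 344117) (nat_lit 21) (.e (nat_lit 516151) (nat_lit 9) (.e (nat_lit 426021) (nat_lit 0) (.e (nat_lit 3366) (nat_lit 208) (.e (nat_lit 622627) (nat_lit 13) (.e (nat_lit 2665) (nat_lit 167) .nil)))))))) (.g (nat_lit 1) (.e (nat_lit 215866) (nat_lit 0) .nil) .nil))))) 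
(.nd (nat_lit 8) (.nd (nat_lit 9) 
(.lf (nat_lit 516339) (.g (nat_lit 1618) (.e (nat_lit 196663) (nat_lit 13) (.e (nat_lit 65571) (nat_lit 3) (.e (nat_lit 98341) (nat_lit 20) (.e (nat_lit 221215) (nat_lit 23) .nil)))) (.g (nat_lit 0) (.e (nat_lit 214807) (nat_lit 0) .nil) .nil))) 
(.lf (nat_lit 516851) (.g (nat_lit 5040) (.e (nat_lit 196666) (nat_lit 13) (.e (nat_lit 65610) (nat_lit 10) (.e (nat_lit 344117) (nat_lit 21) (.e (nat_lit 516151) (nat_lit 9) (.e (nat_lit 426017) (nat_lit 0) (.e (nat_lit 3366) (nat_lit 208) (.e (nat_lit 622620) (nat_lit 13) (.e (nat_lit 2663) (nat_lit 167) .nil)))))))) (.g (nat_lit 1) (.e (nat_lit 215738) (nat_lit 0) .nil) .nil)))) 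
(.nd (nat_lit 9) 
(.lf (nat_lit 516595) (.g (nat_lit 3372) (.e (nat_lit 196666) (nat_lit 13) (.e (nat_lit 65610) (nat_lit 10) (.e (nat_lit 344117) (nat_lit 21) (.e (nat_lit 516097) (nat_lit 0) (.e (nat_lit 2409) (nat_lit 157) .nil))))) (.g (nat_lit 0) (.e (nat_lit 215307) (nat_lit 0) .nil) .nil))) 
(.lf (nat_lit 517107) (.g (nat_lit 4159) (.e (nat_lit 196666) (nat_lit 13) (.e (nat_lit 65610) (nat_lit 10) (.e (nat_lit 344117) (nat_lit 21) (.e (nat_lit 516151) (nat_lit 9) (.e (nat_lit 426037) (nat_lit 0) (.e (nat_lit 2438) (nat_lit 157) (.e (nat_lit 4817) (nat_lit 281) (.e (nat_lit 2477) (nat_lit 157) (.e (nat_lit 2663) (nat_lit 167) .nil))))))))) (.g (nat_lit 1) (.e (nat_lit 215994) (nat_lit 0) .nil) .nil))))))))) 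
(.nd (nat_lit 4) (.nd (nat_lit 5) (.nd (nat_lit 6) (.nd (nat_lit 7) (.nd (nat_lit 8) 
(.nd (nat_lit 9) 
(.lf (nat_lit 516107) (.g (nat_lit 337) (.e (nat_lit 196654) (nat_lit 11) (.e (nat_lit 16466) (nat_lit 13) (.e (nat_lit 483341) (nat_lit 9) .nil))) (.g (nat_lit 0) (.e (nat_lit 214245) (nat_lit 0) .nil) .nil))) 
(.lf (nat_lit 516619) (.g (nat_lit 3953) (.e (nat_lit 196666) (nat_lit 13) (.e (nat_lit 65610) (nat_lit 10) (.e (nat_lit 344117) (nat_lit 21) (.e (nat_lit 516097) (nat_lit 0) (.e (nat_lit 7026) (nat_lit 377) (.e (nat_lit 2442) (nat_lit 157) (.e (nat_lit 5627) (nat_lit 312) (.e (nat_lit 2668) (nat_lit 167) .nil)))))))) (.g (nat_lit 1) (.e (nat_lit 215365) (nat_lit 0) .nil) .nil)))) 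
(.nd (nat_lit 9) 
(.lf (nat_lit 516363) (.g (nat_lit 2216) (.e (nat_lit 196663) (nat_lit 13) (.e (nat_lit 65630) (nat_lit 14) (.e (nat_lit 401425) (nat_lit 2) (.e (nat_lit 196661) (nat_lit 12) .nil)))) (.g (nat_lit 0) (.e (nat_lit 214845) (nat_lit 0) .nil) .nil))) 
(.lf (nat_lit 516875) (.g (nat_lit 5015) (.e (nat_lit 196666) (nat_lit 13) (.e (nat_lit 65610) (nat_lit 10) (.e (nat_lit 344117) (nat_lit 21) (.e (nat_lit 516151) (nat_lit 9) (.e (nat_lit 426017) (nat_lit 0) (.e (nat_lit 3372) (nat_lit 208) (.e (nat_lit 622625) (nat_lit 13) (.e (nat_lit 2663) (nat_lit 167) .nil)))))))) (.g (nat_lit 1) (.e (nat_lit 215762) (nat_lit 0) .nil) .nil))))) 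
(.nd (nat_lit 8) (.nd (nat_lit 9) 
(.lf (nat_lit 516235) (.g (nat_lit 2178) (.e (nat_lit 196656) (nat_lit 11) (.e (nat_lit 16448) (nat_lit 10) (.e (nat_lit 434231) (nat_lit 23) (.e (nat_lit 532528) (nat_lit 9) (.e (nat_lit 336336) (nat_lit 20) .nil))))) (.g (nat_lit 0) (.e (nat_lit 214593) (nat_lit 0) .nil) .nil))) 
(.lf (nat_lit 516747) (.g (nat_lit 3674) (.e (nat_lit 196666) (nat_lit 13) (.e (nat_lit 65610) (nat_lit 10) (.e (nat_lit 344117) (nat_lit 21) (.e (nat_lit 516139) (nat_lit 7) (.e (nat_lit 409612) (nat_lit 10) (.e (nat_lit 5616) (nat_lit 312) (.e (nat_lit 2668) (nat_lit 167) .nil))))))) (.g (nat_lit 1) (.e (nat_lit 215632) (nat_lit 0) .nil) .nil)))) (.nd (nat_lit 9) 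
(.lf (nat_lit 516491) (.g (nat_lit 1899) (.e (nat_lit 196665) (nat_lit 13) (.e (nat_lit 65626) (nat_lit 13) (.e (nat_lit 393225) (nat_lit 9) (.e (nat_lit 335986) (nat_lit 1) (.e (nat_lit 57927) (nat_lit 282) .nil))))) (.g (nat_lit 0) (.e (nat_lit 215027) (nat_lit 0) .nil) .nil))) 
(.lf (nat_lit 517003) (.g (nat_lit 3298) (.e (nat_lit 196666) (nat_lit 13) (.e (nat_lit 65610) (nat_lit 10) (.e (nat_lit 344117) (nat_lit 21) (.e (nat_lit 516151) (nat_lit 9) (.e (nat_lit 426021) (nat_lit 0) (.e (nat_lit 3373) (nat_lit 208) (.e (nat_lit 622621) (nat_lit 13) (.e (nat_lit 2668) (nat_lit 167) .nil)))))))) (.g (nat_lit 1) (.e (nat_lit 215890) (nat_lit 0) .nil) .nil)))))) 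
(.nd (nat_lit 7) (.nd (nat_lit 8) (.nd (nat_lit 9) 
(.lf (nat_lit 516171) (.g (nat_lit 430) (.e (nat_lit 196656) (nat_lit 11) (.e (nat_lit 16415) (nat_lit 3) (.e (nat_lit 204813) (nat_lit 9) .nil))) (.g (nat_lit 0) (.e (nat_lit 214451) (nat_lit 0) .nil) .nil))) 
(.lf (nat_lit 516683) (.g (nat_lit 3064) (.e (nat_lit 196666) (nat_lit 13) (.e (nat_lit 65610) (nat_lit 10) (.e (nat_lit 344117) (nat_lit 21) (.e (nat_lit 516106) (nat_lit 0) (.e (nat_lit 6986) (nat_lit 377) (.e (nat_lit 2397) (nat_lit 157) (.e (nat_lit 5664) (nat_lit 312) (.e (nat_lit 2661) (nat_lit 167) .nil)))))))) (.g (nat_lit 1) (.e (nat_lit 215498) (nat_lit 0) .nil) .nil)))) 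
(.nd (nat_lit 9) 
(.lf (nat_lit 516427) (.g (nat_lit 3168) (.e (nat_lit 196664) (nat_lit 13) (.e (nat_lit 65610) (nat_lit 10) (.e (nat_lit 344117) (nat_lit 21) (.e (nat_lit 516099) (nat_lit 0) .nil)))) (.g (nat_lit 0) (.e (nat_lit 214924) (nat_lit 0) .nil) .nil))) 
(.lf (nat_lit 516939) (.g (nat_lit 4862) (.e (nat_lit 196666) (nat_lit 13) (.e (nat_lit 65610) (nat_lit 10) (.e (nat_lit 344117) (nat_lit 21) (.e (nat_lit 516151) (nat_lit 9) (.e (nat_lit 426020) (nat_lit 0) (.e (nat_lit 3367) (nat_lit 208) (.e (nat_lit 622620) (nat_lit 13) (.e (nat_lit 2663) (nat_lit 167) .nil)))))))) (.g (nat_lit 1) (.e (nat_lit 215826) (nat_lit 0) .nil) .nil))))) 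
(.nd (nat_lit 8) (.nd (nat_lit 9) 
(.lf (nat_lit 516299) (.g (nat_lit 732) (.e (nat_lit 196662) (nat_lit 13) (.e (nat_lit 65571) (nat_lit 3) (.e (nat_lit 98342) (nat_lit 20) .nil))) (.g (nat_lit 0) (.e (nat_lit 214757) (nat_lit 0) .nil) .nil))) 
(.lf (nat_lit 516811) (.g (nat_lit 4587) (.e (nat_lit 196666) (nat_lit 13) (.e (nat_lit 65610) (nat_lit 10) (.e (nat_lit 344117) (nat_lit 21) (.e (nat_lit 516151) (nat_lit 9) (.e (nat_lit 426017) (nat_lit 0) (.e (nat_lit 2417) (nat_lit 157) (.e (nat_lit 4849) (nat_lit 285) (.e (nat_lit 163869) (nat_lit 2) .nil)))))))) (.g (nat_lit 1) (.e (nat_lit 215698) (nat_lit 0) .nil) .nil)))) 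
(.nd (nat_lit 9) 
(.lf (nat_lit 516555) (.g (nat_lit 2720) (.e (nat_lit 196666) (nat_lit 13) (.e (nat_lit 65589) (nat_lit 9) (.e (nat_lit 336013) (nat_lit 2) (.e (nat_lit 90165) (nat_lit 12) (.e (nat_lit 164207) (nat_lit 176) .nil))))) (.g (nat_lit 0) (.e (nat_lit 215215) (nat_lit 0) .nil) .nil))) 
(.lf (nat_lit 517067) (.g (nat_lit 3226) (.e (nat_lit 196666) (nat_lit 13) (.e (nat_lit 65610) (nat_lit 10) (.e (nat_lit 344117) (nat_lit 21) (.e (nat_lit 516151) (nat_lit 9) (.e (nat_lit 426034) (nat_lit 0) (.e (nat_lit 3369) (nat_lit 208) (.e (nat_lit 622621) (nat_lit 13) (.e (nat_lit 2668) (nat_lit 167) .nil)))))))) (.g (nat_lit 1) (.e (nat_lit 215954) (nat_lit 0) .nil) .nil))))))) 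
(.nd (nat_lit 6) (.nd (nat_lit 7) (.nd (nat_lit 8) (.nd (nat_lit 9) 
(.lf (nat_lit 516139) (.g (nat_lit 1391) (.e (nat_lit 196655) (nat_lit 11) (.e (nat_lit 16465) (nat_lit 13) (.e (nat_lit 483341) (nat_lit 9) (.e (nat_lit 426099) (nat_lit 1) .nil)))) (.g (nat_lit 0) (.e (nat_lit 214382) (nat_lit 0) .nil) .nil))) 
(.lf (nat_lit 516651) (.g (nat_lit 1078) (.e (nat_lit 196666) (nat_lit 13) (.e (nat_lit 65610) (nat_lit 10) (.e (nat_lit 344117) (nat_lit 21) (.e (nat_lit 516102) (nat_lit 0) .nil)))) (.g (nat_lit 0) (.e (nat_lit 215405) (nat_lit 0) .nil) .nil)))) (.nd (nat_lit 9) 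
(.lf (nat_lit 516395) (.g (nat_lit 970) (.e (nat_lit 196664) (nat_lit 13) (.e (nat_lit 65571) (nat_lit 3) (.e (nat_lit 98309) (nat_lit 0) .nil))) (.g (nat_lit 0) (.e (nat_lit 214885) (nat_lit 0) .nil) .nil))) 
(.lf (nat_lit 516907) (.g (nat_lit 3508) (.e (nat_lit 196666) (nat_lit 13) (.e (nat_lit 65610) (nat_lit 10) (.e (nat_lit 344117) (nat_lit 21) (.e (nat_lit 516151) (nat_lit 9) (.e (nat_lit 426019) (nat_lit 0) (.e (nat_lit 3366) (nat_lit 208) (.e (nat_lit 622627) (nat_lit 13) (.e (nat_lit 2665) (nat_lit 167) .nil)))))))) (.g (nat_lit 1) (.e (nat_lit 215794) (nat_lit 0) .nil) .nil))))) 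
(.nd (nat_lit 8) (.nd (nat_lit 9) 
(.lf (nat_lit 516267) (.g (nat_lit 2316) (.e (nat_lit 196656) (nat_lit 11) (.e (nat_lit 16466) (nat_lit 13) (.e (nat_lit 483341) (nat_lit 9) (.e (nat_lit 426107) (nat_lit 1) (.e (nat_lit 164322) (nat_lit 230) .nil))))) (.g (nat_lit 0) (.e (nat_lit 214679) (nat_lit 0) .nil) .nil))) 
(.lf (nat_lit 516779) (.g (nat_lit 1952) (.e (nat_lit 196666) (nat_lit 13) (.e (nat_lit 65610) (nat_lit 10) (.e (nat_lit 344117) (nat_lit 21) (.e (nat_lit 516142) (nat_lit 8) (.e (nat_lit 425728) (nat_lit 18) .nil))))) (.g (nat_lit 0) (.e (nat_lit 215664) (nat_lit 0) .nil) .nil)))) (.nd (nat_lit 9) 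
(.lf (nat_lit 516523) (.g (nat_lit 1831) (.e (nat_lit 196666) (nat_lit 13) (.e (nat_lit 65569) (nat_lit 3) (.e (nat_lit 98334) (nat_lit 18) (.e (nat_lit 164182) (nat_lit 154) (.e (nat_lit 57379) (nat_lit 3) .nil))))) (.g (nat_lit 0) (.e (nat_lit 215117) (nat_lit 0) .nil) .nil))) 
(.lf (nat_lit 517035) (.g (nat_lit 2665) (.e (nat_lit 196666) (nat_lit 13) (.e (nat_lit 65610) (nat_lit 10) (.e (nat_lit 344117) (nat_lit 21) (.e (nat_lit 516151) (nat_lit 9) (.e (nat_lit 426026) (nat_lit 0) (.e (nat_lit 7936) (nat_lit 208) (.e (nat_lit 622627) (nat_lit 13) (.e (nat_lit 2666) (nat_lit 167) .nil)))))))) (.g (nat_lit 1) (.e (nat_lit 215922) (nat_lit 0) .nil) .nil)))))) 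
(.nd (nat_lit 7) (.nd (nat_lit 8) (.nd (nat_lit 9) 
(.lf (nat_lit 516203) (.g (nat_lit 2448) (.e (nat_lit 196656) (nat_lit 11) (.e (nat_lit 16436) (nat_lit 9) (.e (nat_lit 426131) (nat_lit 3) (.e (nat_lit 204854) (nat_lit 26) (.e (nat_lit 343808) (nat_lit 20) (.e (nat_lit 221212) (nat_lit 22) .nil)))))) (.g (nat_lit 1) (.e (nat_lit 214504) (nat_lit 0) .nil) .nil))) 
(.lf (nat_lit 516715) (.g (nat_lit 3589) (.e (nat_lit 196666) (nat_lit 13) (.e (nat_lit 65610) (nat_lit 10) (.e (nat_lit 344117) (nat_lit 21) (.e (nat_lit 516106) (nat_lit 0) (.e (nat_lit 7095) (nat_lit 380) (.e (nat_lit 164358) (nat_lit 246) (.e (nat_lit 7936) (nat_lit 167) .nil))))))) (.g (nat_lit 1) (.e (nat_lit 215530) (nat_lit 0) .nil) .nil)))) (.nd (nat_lit 9) 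
(.lf (nat_lit 516459) (.g (nat_lit 1141) (.e (nat_lit 196665) (nat_lit 13) (.e (nat_lit 65598) (nat_lit 9) (.e (nat_lit 336013) (nat_lit 2) (.e (nat_lit 90165) (nat_lit 12) .nil)))) (.g (nat_lit 0) (.e (nat_lit 214974) (nat_lit 0) .nil) .nil))) 
(.lf (nat_lit 516971) (.g (nat_lit 3731) (.e (nat_lit 196666) (nat_lit 13) (.e (nat_lit 65610) (nat_lit 10) (.e (nat_lit 344117) (nat_lit 21) (.e (nat_lit 516151) (nat_lit 9) (.e (nat_lit 426021) (nat_lit 0) (.e (nat_lit 2418) (nat_lit 157) (.e (nat_lit 4849) (nat_lit 285) (.e (nat_lit 163870) (nat_lit 2) .nil)))))))) (.g (nat_lit 1) (.e (nat_lit 215858) (nat_lit 0) .nil) .nil))))) 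
(.nd (nat_lit 8) (.nd (nat_lit 9) 
(.lf (nat_lit 516331) (.g (nat_lit 1920) (.e (nat_lit 196663) (nat_lit 13) (.e (nat_lit 65571) (nat_lit 3) (.e (nat_lit 98334) (nat_lit 18) (.e (nat_lit 164180) (nat_lit 154) .nil)))) (.g (nat_lit 0) (.e (nat_lit 214798) (nat_lit 0) .nil) .nil))) 
(.lf (nat_lit 516843) (.g (nat_lit 4258) (.e (nat_lit 196666) (nat_lit 13) (.e (nat_lit 65610) (nat_lit 10) (.e (nat_lit 344117) (nat_lit 21) (.e (nat_lit 516151) (nat_lit 9) (.e (nat_lit 426017) (nat_lit 0) (.e (nat_lit 2413) (nat_lit 157) (.e (nat_lit 4826) (nat_lit 281) (.e (nat_lit 2477) (nat_lit 157) (.e (nat_lit 2663) (nat_lit 167) .nil))))))))) (.g (nat_lit 1) (.e (nat_lit 215730) (nat_lit 0) .nil) .nil)))) 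
(.nd (nat_lit 9) 
(.lf (nat_lit 516587) (.g (nat_lit 350) (.e (nat_lit 196666) (nat_lit 13) (.e (nat_lit 65610) (nat_lit 10) (.e (nat_lit 344116) (nat_lit 21) .nil))) (.g (nat_lit 0) (.e (nat_lit 215299) (nat_lit 0) .nil) .nil))) 
(.lf (nat_lit 517099) (.g (nat_lit 4958) (.e (nat_lit 196666) (nat_lit 13) (.e (nat_lit 65610) (nat_lit 10) (.e (nat_lit 344117) (nat_lit 21) (.e (nat_lit 516151) (nat_lit 9) (.e (nat_lit 426037) (nat_lit 0) (.e (nat_lit 2423) (nat_lit 157) (.e (nat_lit 4849) (nat_lit 285) (.e (nat_lit 163870) (nat_lit 2) .nil)))))))) (.g (nat_lit 1) (.e (nat_lit 215986) (nat_lit 0) .nil) .nil)))))))) 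
(.nd (nat_lit 5) (.nd (nat_lit 6) (.nd (nat_lit 7) (.nd (nat_lit 8) (.nd (nat_lit 9) 
(.lf (nat_lit 516123) (.g (nat_lit 1823) (.e (nat_lit 196655) (nat_lit 11) (.e (nat_lit 16433) (nat_lit 9) (.e (nat_lit 426568) (nat_lit 34) (.e (nat_lit 393254) (nat_lit 18) .nil)))) (.g (nat_lit 0) (.e (nat_lit 214317) (nat_lit 0) .nil) .nil))) 
(.lf (nat_lit 516635) (.g (nat_lit 2252) (.e (nat_lit 196666) (nat_lit 13) (.e (nat_lit 65610) (nat_lit 10) (.e (nat_lit 344117) (nat_lit 21) (.e (nat_lit 516098) (nat_lit 0) (.e (nat_lit 2413) (nat_lit 157) .nil))))) (.g (nat_lit 0) (.e (nat_lit 215385) (nat_lit 0) .nil) .nil)))) (.nd (nat_lit 9) 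
(.lf (nat_lit 516379) (.g (nat_lit 770) (.e (nat_lit 196663) (nat_lit 13) (.e (nat_lit 65630) (nat_lit 14) (.e (nat_lit 401426) (nat_lit 3) .nil))) (.g (nat_lit 0) (.e (nat_lit 214861) (nat_lit 0) .nil) .nil))) 
(.lf (nat_lit 516891) (.g (nat_lit 3555) (.e (nat_lit 196666) (nat_lit 13) (.e (nat_lit 65610) (nat_lit 10) (.e (nat_lit 344117) (nat_lit 21) (.e (nat_lit 516151) (nat_lit 9) (.e (nat_lit 426017) (nat_lit 0) (.e (nat_lit 7936) (nat_lit 208) (.e (nat_lit 622624) (nat_lit 13) (.e (nat_lit 2668) (nat_lit 167) .nil)))))))) (.g (nat_lit 1) (.e (nat_lit 215778) (nat_lit 0) .nil) .nil))))) 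
(.nd (nat_lit 8) (.nd (nat_lit 9) 
(.lf (nat_lit 516251) (.g (nat_lit 828) (.e (nat_lit 196656) (nat_lit 11) (.e (nat_lit 16463) (nat_lit 13) (.e (nat_lit 483340) (nat_lit 9) .nil))) (.g (nat_lit 0) (.e (nat_lit 214662) (nat_lit 0) .nil) .nil))) 
(.lf (nat_lit 516763) (.g (nat_lit 2930) (.e (nat_lit 196666) (nat_lit 13) (.e (nat_lit 65610) (nat_lit 10) (.e (nat_lit 344117) (nat_lit 21) (.e (nat_lit 516139) (nat_lit 7) (.e (nat_lit 409618) (nat_lit 10) (.e (nat_lit 5667) (nat_lit 312) (.e (nat_lit 2654) (nat_lit 167) .nil))))))) (.g (nat_lit 1) (.e (nat_lit 215648) (nat_lit 0) .nil) .nil)))) (.nd (nat_lit 9) 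
(.lf (nat_lit 516507) (.g (nat_lit 1231) (.e (nat_lit 196665) (nat_lit 13) (.e (nat_lit 65628) (nat_lit 14) (.e (nat_lit 401428) (nat_lit 3) (.e (nat_lit 204859) (nat_lit 26) .nil)))) (.g (nat_lit 0) (.e (nat_lit 215046) (nat_lit 0) .nil) .nil))) 
(.lf (nat_lit 517019) (.g (nat_lit 2974) (.e (nat_lit 196666) (nat_lit 13) (.e (nat_lit 65610) (nat_lit 10) (.e (nat_lit 344117) (nat_lit 21) (.e (nat_lit 516151) (nat_lit 9) (.e (nat_lit 426022) (nat_lit 0) (.e (nat_lit 2403) (nat_lit 157) (.e (nat_lit 4830) (nat_lit 281) (.e (nat_lit 2416) (nat_lit 157) (.e (nat_lit 2666) (nat_lit 167) .nil))))))))) (.g (nat_lit 1) (.e (nat_lit 215906) (nat_lit 0) .nil) .nil)))))) 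
(.nd (nat_lit 7) (.nd (nat_lit 8) (.nd (nat_lit 9) 
(.lf (nat_lit 516187) (.g (nat_lit 2496) (.e (nat_lit 196656) (nat_lit 11) (.e (nat_lit 16431) (nat_lit 9) (.e (nat_lit 426566) (nat_lit 34) (.e (nat_lit 393254) (nat_lit 18) .nil)))) (.g (nat_lit 0) (.e (nat_lit 214484) (nat_lit 0) .nil) .nil))) 
(.lf (nat_lit 516699) (.g (nat_lit 2945) (.e (nat_lit 196666) (nat_lit 13) (.e (nat_lit 65610) (nat_lit 10) (.e (nat_lit 344117) (nat_lit 21) (.e (nat_lit 516106) (nat_lit 0) (.e (nat_lit 7008) (nat_lit 377) (.e (nat_lit 2426) (nat_lit 157) (.e (nat_lit 5710) (nat_lit 312) (.e (nat_lit 2664) (nat_lit 167) .nil)))))))) (.g (nat_lit 1) (.e (nat_lit 215514) (nat_lit 0) .nil) .nil)))) 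
(.nd (nat_lit 9) 
(.lf (nat_lit 516443) (.g (nat_lit 474) (.e (nat_lit 196665) (nat_lit 13) (.e (nat_lit 65569) (nat_lit 3) (.e (nat_lit 98341) (nat_lit 20) .nil))) (.g (nat_lit 0) (.e (nat_lit 214945) (nat_lit 0) .nil) .nil))) 
(.lf (nat_lit 516955) (.g (nat_lit 4406) (.e (nat_lit 196666) (nat_lit 13) (.e (nat_lit 65610) (nat_lit 10) (.e (nat_lit 344117) (nat_lit 21) (.e (nat_lit 516151) (nat_lit 9) (.e (nat_lit 426020) (nat_lit 0) (.e (nat_lit 3372) (nat_lit 208) (.e (nat_lit 622625) (nat_lit 13) (.e (nat_lit 2663) (nat_lit 167) .nil)))))))) (.g (nat_lit 1) (.e (nat_lit 215842) (nat_lit 0) .nil) .nil))))) 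
(.nd (nat_lit 8) (.nd (nat_lit 9) 
(.lf (nat_lit 516315) (.g (nat_lit 2785) (.e (nat_lit 196663) (nat_lit 13) (.e (nat_lit 65569) (nat_lit 3) (.e (nat_lit 98342) (nat_lit 20) (.e (nat_lit 221213) (nat_lit 23) (.e (nat_lit 204830) (nat_lit 18) (.e (nat_lit 57927) (nat_lit 282) (.e (nat_lit 163868) (nat_lit 2) .nil))))))) (.g (nat_lit 1) (.e (nat_lit 214776) (nat_lit 0) .nil) .nil))) 
(.lf (nat_lit 516827) (.g (nat_lit 3819) (.e (nat_lit 196666) (nat_lit 13) (.e (nat_lit 65610) (nat_lit 10) (.e (nat_lit 344117) (nat_lit 21) (.e (nat_lit 516151) (nat_lit 9) (.e (nat_lit 426017) (nat_lit 0) (.e (nat_lit 2450) (nat_lit 157) (.e (nat_lit 4756) (nat_lit 281) (.e (nat_lit 2517) (nat_lit 157) (.e (nat_lit 2664) (nat_lit 167) .nil))))))))) (.g (nat_lit 1) (.e (nat_lit 215714) (nat_lit 0) .nil) .nil)))) 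
(.nd (nat_lit 9) 
(.lf (nat_lit 516571) (.g (nat_lit 2395) (.e (nat_lit 196666) (nat_lit 13) (.e (nat_lit 65599) (nat_lit 9) (.e (nat_lit 336028) (nat_lit 3) (.e (nat_lit 98350) (nat_lit 24) (.e (nat_lit 409616) (nat_lit 10) .nil))))) (.g (nat_lit 0) (.e (nat_lit 215259) (nat_lit 0) .nil) .nil))) 
(.lf (nat_lit 517083) (.g (nat_lit 4067) (.e (nat_lit 196666) (nat_lit 13) (.e (nat_lit 65610) (nat_lit 10) (.e (nat_lit 344117) (nat_lit 21) (.e (nat_lit 516151) (nat_lit 9) (.e (nat_lit 426034) (nat_lit 0) (.e (nat_lit 3371) (nat_lit 208) (.e (nat_lit 622625) (nat_lit 13) (.e (nat_lit 2663) (nat_lit 167) .nil)))))))) (.g (nat_lit 1) (.e (nat_lit 215970) (nat_lit 0) .nil) .nil))))))) 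
(.nd (nat_lit 6) (.nd (nat_lit 7) (.nd (nat_lit 8) (.nd (nat_lit 9) 
(.lf (nat_lit 516155) (.g (nat_lit 698) (.e (nat_lit 196656) (nat_lit 11) (.e (nat_lit 16392) (nat_lit 0) (.e (nat_lit 2527) (nat_lit 157) .nil))) (.g (nat_lit 0) (.e (nat_lit 214418) (nat_lit 0) .nil) .nil))) 
(.lf (nat_lit 516667) (.g (nat_lit 2557) (.e (nat_lit 196666) (nat_lit 13) (.e (nat_lit 65610) (nat_lit 10) (.e (nat_lit 344117) (nat_lit 21) (.e (nat_lit 516106) (nat_lit 0) (.e (nat_lit 2442) (nat_lit 157) .nil))))) (.g (nat_lit 0) (.e (nat_lit 215436) (nat_lit 0) .nil) .nil)))) (.nd (nat_lit 9) 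
(.lf (nat_lit 516411) (.g (nat_lit 2001) (.e (nat_lit 196664) (nat_lit 13) (.e (nat_lit 65571) (nat_lit 3) (.e (nat_lit 98335) (nat_lit 18) (.e (nat_lit 164183) (nat_lit 154) .nil)))) (.g (nat_lit 0) (.e (nat_lit 214905) (nat_lit 0) .nil) .nil))) 
(.lf (nat_lit 516923) (.g (nat_lit 3719) (.e (nat_lit 196666) (nat_lit 13) (.e (nat_lit 65610) (nat_lit 10) (.e (nat_lit 344117) (nat_lit 21) (.e (nat_lit 516151) (nat_lit 9) (.e (nat_lit 426019) (nat_lit 0) (.e (nat_lit 7936) (nat_lit 208) (.e (nat_lit 622622) (nat_lit 13) (.e (nat_lit 2668) (nat_lit 167) .nil)))))))) (.g (nat_lit 1) (.e (nat_lit 215810) (nat_lit 0) .nil) .nil))))) 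
(.nd (nat_lit 8) (.nd (nat_lit 9) 
(.lf (nat_lit 516283) (.g (nat_lit 1101) (.e (nat_lit 196656) (nat_lit 11) (.e (nat_lit 16473) (nat_lit 14) (.e (nat_lit 491584) (nat_lit 28) .nil))) (.g (nat_lit 0) (.e (nat_lit 214705) (nat_lit 0) .nil) .nil))) 
(.lf (nat_lit 516795) (.g (nat_lit 3843) (.e (nat_lit 196666) (nat_lit 13) (.e (nat_lit 65610) (nat_lit 10) (.e (nat_lit 344117) (nat_lit 21) (.e (nat_lit 516151) (nat_lit 9) (.e (nat_lit 426017) (nat_lit 0) (.e (nat_lit 2401) (nat_lit 157) (.e (nat_lit 4761) (nat_lit 281) (.e (nat_lit 2463) (nat_lit 157) (.e (nat_lit 2666) (nat_lit 167) .nil))))))))) (.g (nat_lit 1) (.e (nat_lit 215682) (nat_lit 0) .nil) .nil)))) 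
(.nd (nat_lit 9) 
(.lf (nat_lit 516539) (.g (nat_lit 4123) (.e (nat_lit 196666) (nat_lit 13) (.e (nat_lit 65571) (nat_lit 3) (.e (nat_lit 98333) (nat_lit 18) (.e (nat_lit 164179) (nat_lit 154) (.e (nat_lit 57377) (nat_lit 3) (.e (nat_lit 98341) (nat_lit 20) (.e (nat_lit 221210) (nat_lit 22) .nil))))))) (.g (nat_lit 1) (.e (nat_lit 215163) (nat_lit 0) .nil) .nil))) 
(.lf (nat_lit 517051) (.g (nat_lit 3831) (.e (nat_lit 196666) (nat_lit 13) (.e (nat_lit 65610) (nat_lit 10) (.e (nat_lit 344117) (nat_lit 21) (.e (nat_lit 516151) (nat_lit 9) (.e (nat_lit 426034) (nat_lit 0) (.e (nat_lit 2425) (nat_lit 157) (.e (nat_lit 4848) (nat_lit 285) (.e (nat_lit 163870) (nat_lit 2) .nil)))))))) (.g (nat_lit 1) (.e (nat_lit 215938) (nat_lit 0) .nil) .nil)))))) 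
(.nd (nat_lit 7) (.nd (nat_lit 8) (.nd (nat_lit 9) 
(.lf (nat_lit 516219) (.g (nat_lit 2230) (.e (nat_lit 196656) (nat_lit 11) (.e (nat_lit 16438) (nat_lit 9) (.e (nat_lit 426482) (nat_lit 27) (.e (nat_lit 336385) (nat_lit 27) (.e (nat_lit 426107) (nat_lit 1) .nil))))) (.g (nat_lit 0) (.e (nat_lit 214525) (nat_lit 0) .nil) .nil))) 
(.lf (nat_lit 516731) (.g (nat_lit 2110) (.e (nat_lit 196666) (nat_lit 13) (.e (nat_lit 65610) (nat_lit 10) (.e (nat_lit 344117) (nat_lit 21) (.e (nat_lit 516114) (nat_lit 1) .nil)))) (.g (nat_lit 0) (.e (nat_lit 215546) (nat_lit 0) .nil) .nil)))) (.nd (nat_lit 9) 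
(.lf (nat_lit 516475) (.g (nat_lit 1544) (.e (nat_lit 196665) (nat_lit 13) (.e (nat_lit 65617) (nat_lit 10) (.e (nat_lit 344132) (nat_lit 26) (.e (nat_lit 557094) (nat_lit 12) (.e (nat_lit 164022) (nat_lit 46) .nil))))) (.g (nat_lit 0) (.e (nat_lit 214995) (nat_lit 0) .nil) .nil))) 
(.lf (nat_lit 516987) (.g (nat_lit 3296) (.e (nat_lit 196666) (nat_lit 13) (.e (nat_lit 65610) (nat_lit 10) (.e (nat_lit 344117) (nat_lit 21) (.e (nat_lit 516151) (nat_lit 9) (.e (nat_lit 426021) (nat_lit 0) (.e (nat_lit 3367) (nat_lit 208) (.e (nat_lit 622627) (nat_lit 13) (.e (nat_lit 2666) (nat_lit 167) .nil)))))))) (.g (nat_lit 1) (.e (nat_lit 215874) (nat_lit 0) .nil) .nil))))) 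
(.nd (nat_lit 8) (.nd (nat_lit 9) 
(.lf (nat_lit 516347) (.g (nat_lit 4271) (.e (nat_lit 196663) (nat_lit 13) (.e (nat_lit 65571) (nat_lit 3) (.e (nat_lit 98342) (nat_lit 20) (.e (nat_lit 221215) (nat_lit 23) (.e (nat_lit 204829) (nat_lit 18) (.e (nat_lit 57927) (nat_lit 282) (.e (nat_lit 163868) (nat_lit 2) .nil))))))) (.g (nat_lit 1) (.e (nat_lit 214822) (nat_lit 0) .nil) .nil))) 
(.lf (nat_lit 516859) (.g (nat_lit 4941) (.e (nat_lit 196666) (nat_lit 13) (.e (nat_lit 65610) (nat_lit 10) (.e (nat_lit 344117) (nat_lit 21) (.e (nat_lit 516151) (nat_lit 9) (.e (nat_lit 426017) (nat_lit 0) (.e (nat_lit 3366) (nat_lit 208) (.e (nat_lit 622627) (nat_lit 13) (.e (nat_lit 2666) (nat_lit 167) .nil)))))))) (.g (nat_lit 1) (.e (nat_lit 215746) (nat_lit 0) .nil) .nil)))) 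
(.nd (nat_lit 9) 
(.lf (nat_lit 516603) (.g (nat_lit 3371) (.e (nat_lit 196666) (nat_lit 13) (.e (nat_lit 65610) (nat_lit 10) (.e (nat_lit 344117) (nat_lit 21) (.e (nat_lit 516097) (nat_lit 0) (.e (nat_lit 2411) (nat_lit 157) .nil))))) (.g (nat_lit 0) (.e (nat_lit 215338) (nat_lit 0) .nil) .nil))) 
(.lf (nat_lit 517115) (.g (nat_lit 4970) (.e (nat_lit 196666) (nat_lit 13) (.e (nat_lit 65610) (nat_lit 10) (.e (nat_lit 344117) (nat_lit 21) (.e (nat_lit 516151) (nat_lit 9) (.e (nat_lit 426037) (nat_lit 0) (.e (nat_lit 3366) (nat_lit 208) (.e (nat_lit 622626) (nat_lit 13) (.e (nat_lit 2663) (nat_lit 167) .nil)))))))) (.g (nat_lit 1) (.e (nat_lit 216002) (nat_lit 0) .nil) .nil)))))))))) 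
(.nd (nat_lit 3) (.nd (nat_lit 4) (.nd (nat_lit 5) (.nd (nat_lit 6) (.nd (nat_lit 7) 
(.nd (nat_lit 8) (.nd (nat_lit 9) 
(.lf (nat_lit 516103) (.g (nat_lit 2356) (.e (nat_lit 196654) (nat_lit 11) (.e (nat_lit 16466) (nat_lit 13) (.e (nat_lit 483337) (nat_lit 9) (.e (nat_lit 426107) (nat_lit 1) (.e (nat_lit 164324) (nat_lit 230) .nil))))) (.g (nat_lit 0) (.e (nat_lit 214240) (nat_lit 0) .nil) .nil))) 
(.lf (nat_lit 516615) (.g (nat_lit 4197) (.e (nat_lit 196666) (nat_lit 13) (.e (nat_lit 65610) (nat_lit 10) (.e (nat_lit 344117) (nat_lit 21) (.e (nat_lit 516097) (nat_lit 0) (.e (nat_lit 3358) (nat_lit 207) (.e (nat_lit 614423) (nat_lit 9) (.e (nat_lit 396) (nat_lit 32) (.e (nat_lit 426121) (nat_lit 2) .nil)))))))) (.g (nat_lit 1) (.e (nat_lit 215361) (nat_lit 0) .nil) .nil)))) (.nd (nat_lit 9) 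
(.lf (nat_lit 516359) (.g (nat_lit 2445) (.e (nat_lit 196663) (nat_lit 13) (.e (nat_lit 65630) (nat_lit 14) (.e (nat_lit 401425) (nat_lit 2) (.e (nat_lit 196626) (nat_lit 9) .nil)))) (.g (nat_lit 0) (.e (nat_lit 214841) (nat_lit 0) .nil) .nil))) 
(.lf (nat_lit 516871) (.g (nat_lit 4952) (.e (nat_lit 196666) (nat_lit 13) (.e (nat_lit 65610) (nat_lit 10) (.e (nat_lit 344117) (nat_lit 21) (.e (nat_lit 516151) (nat_lit 9) (.e (nat_lit 426017) (nat_lit 0) (.e (nat_lit 3368) (nat_lit 208) (.e (nat_lit 622626) (nat_lit 13) (.e (nat_lit 2663) (nat_lit 167) .nil)))))))) (.g (nat_lit 1) (.e (nat_lit 215758) (nat_lit 0) .nil) .nil))))) 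
(.nd (nat_lit 8) (.nd (nat_lit 9) 
(.lf (nat_lit 516231) (.g (nat_lit 1167) (.e (nat_lit 196656) (nat_lit 11) (.e (nat_lit 16438) (nat_lit 9) (.e (nat_lit 426530) (nat_lit 27) (.e (nat_lit 336390) (nat_lit 27) .nil)))) (.g (nat_lit 0) (.e (nat_lit 214537) (nat_lit 0) .nil) .nil))) 
(.lf (nat_lit 516743) (.g (nat_lit 3292) (.e (nat_lit 196666) (nat_lit 13) (.e (nat_lit 65610) (nat_lit 10) (.e (nat_lit 344117) (nat_lit 21) (.e (nat_lit 516138) (nat_lit 7) (.e (nat_lit 409618) (nat_lit 10) (.e (nat_lit 5667) (nat_lit 312) (.e (nat_lit 2661) (nat_lit 167) .nil))))))) (.g (nat_lit 1) (.e (nat_lit 215628) (nat_lit 0) .nil) .nil)))) (.nd (nat_lit 9) 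
(.lf (nat_lit 516487) (.g (nat_lit 1786) (.e (nat_lit 196665) (nat_lit 13) (.e (nat_lit 65625) (nat_lit 13) (.e (nat_lit 393225) (nat_lit 9) (.e (nat_lit 335995) (nat_lit 1) (.e (nat_lit 57931) (nat_lit 282) .nil))))) (.g (nat_lit 0) (.e (nat_lit 215022) (nat_lit 0) .nil) .nil))) 
(.lf (nat_lit 516999) (.g (nat_lit 3895) (.e (nat_lit 196666) (nat_lit 13) (.e (nat_lit 65610) (nat_lit 10) (.e (nat_lit 344117) (nat_lit 21) (.e (nat_lit 516151) (nat_lit 9) (.e (nat_lit 426021) (nat_lit 0) (.e (nat_lit 3372) (nat_lit 208) (.e (nat_lit 622627) (nat_lit 13) (.e (nat_lit 2663) (nat_lit 167) .nil)))))))) (.g (nat_lit 1) (.e (nat_lit 215886) (nat_lit 0) .nil) .nil)))))) 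
(.nd (nat_lit 7) (.nd (nat_lit 8) (.nd (nat_lit 9) 
(.lf (nat_lit 516167) (.g (nat_lit 1152) (.e (nat_lit 196656) (nat_lit 11) (.e (nat_lit 16412) (nat_lit 2) (.e (nat_lit 196654) (nat_lit 11) (.e (nat_lit 16417) (nat_lit 3) .nil)))) (.g (nat_lit 0) (.e (nat_lit 214443) (nat_lit 0) .nil) .nil))) 
(.lf (nat_lit 516679) (.g (nat_lit 2584) (.e (nat_lit 196666) (nat_lit 13) (.e (nat_lit 65610) (nat_lit 10) (.e (nat_lit 344117) (nat_lit 21) (.e (nat_lit 516106) (nat_lit 0) (.e (nat_lit 3356) (nat_lit 207) .nil))))) (.g (nat_lit 0) (.e (nat_lit 215465) (nat_lit 0) .nil) .nil)))) (.nd (nat_lit 9) 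
(.lf (nat_lit 516423) (.g (nat_lit 2890) (.e (nat_lit 196664) (nat_lit 13) (.e (nat_lit 65571) (nat_lit 3) (.e (nat_lit 98342) (nat_lit 20) (.e (nat_lit 221215) (nat_lit 23) (.e (nat_lit 204830) (nat_lit 18) (.e (nat_lit 57927) (nat_lit 282) (.e (nat_lit 163869) (nat_lit 2) .nil))))))) (.g (nat_lit 1) (.e (nat_lit 214918) (nat_lit 0) .nil) .nil))) 
(.lf (nat_lit 516935) (.g (nat_lit 3709) (.e (nat_lit 196666) (nat_lit 13) (.e (nat_lit 65610) (nat_lit 10) (.e (nat_lit 344117) (nat_lit 21) (.e (nat_lit 516151) (nat_lit 9) (.e (nat_lit 426020) (nat_lit 0) (.e (nat_lit 3366) (nat_lit 208) (.e (nat_lit 622625) (nat_lit 13) (.e (nat_lit 2663) (nat_lit 167) .nil)))))))) (.g (nat_lit 1) (.e (nat_lit 215822) (nat_lit 0) .nil) .nil))))) 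
(.nd (nat_lit 8) (.nd (nat_lit 9) 
(.lf (nat_lit 516295) (.g (nat_lit 1169) (.e (nat_lit 196661) (nat_lit 12) (.e (nat_lit 57750) (nat_lit 201) (.e (nat_lit 3067) (nat_lit 190) (.e (nat_lit 475184) (nat_lit 29) .nil)))) (.g (nat_lit 0) (.e (nat_lit 214737) (nat_lit 0) .nil) .nil))) 
(.lf (nat_lit 516807) (.g (nat_lit 3938) (.e (nat_lit 196666) (nat_lit 13) (.e (nat_lit 65610) (nat_lit 10) (.e (nat_lit 344117) (nat_lit 21) (.e (nat_lit 516151) (nat_lit 9) (.e (nat_lit 426017) (nat_lit 0) (.e (nat_lit 2407) (nat_lit 157) (.e (nat_lit 4823) (nat_lit 281) (.e (nat_lit 2477) (nat_lit 157) (.e (nat_lit 2663) (nat_lit 167) .nil))))))))) (.g (nat_lit 1) (.e (nat_lit 215694) (nat_lit 0) .nil) .nil)))) 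
(.nd (nat_lit 9) 
(.lf (nat_lit 516551) (.g (nat_lit 465) (.e (nat_lit 196666) (nat_lit 13) (.e (nat_lit 65586) (nat_lit 7) (.e (nat_lit 319498) (nat_lit 10) .nil))) (.g (nat_lit 0) (.e (nat_lit 215209) (nat_lit 0) .nil) .nil))) 
(.lf (nat_lit 517063) (.g (nat_lit 4190) (.e (nat_lit 196666) (nat_lit 13) (.e (nat_lit 65610) (nat_lit 10) (.e (nat_lit 344117) (nat_lit 21) (.e (nat_lit 516151) (nat_lit 9) (.e (nat_lit 426034) (nat_lit 0) (.e (nat_lit 3366) (nat_lit 208) (.e (nat_lit 622625) (nat_lit 13) (.e (nat_lit 2663) (nat_lit 167) .nil)))))))) (.g (nat_lit 1) (.e (nat_lit 215950) (nat_lit 0) .nil) .nil))))))) 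
(.nd (nat_lit 6) (.nd (nat_lit 7) (.nd (nat_lit 8) (.nd (nat_lit 9) 
(.lf (nat_lit 516135) (.g (nat_lit 2403) (.e (nat_lit 196655) (nat_lit 11) (.e (nat_lit 16437) (nat_lit 9) (.e (nat_lit 426566) (nat_lit 34) (.e (nat_lit 393254) (nat_lit 18) (.e (nat_lit 164326) (nat_lit 230) .nil))))) (.g (nat_lit 0) (.e (nat_lit 214341) (nat_lit 0) .nil) .nil))) 
(.lf (nat_lit 516647) (.g (nat_lit 2355) (.e (nat_lit 196666) (nat_lit 13) (.e (nat_lit 65610) (nat_lit 10) (.e (nat_lit 344117) (nat_lit 21) (.e (nat_lit 516099) (nat_lit 0) (.e (nat_lit 2519) (nat_lit 157) .nil))))) (.g (nat_lit 0) (.e (nat_lit 215398) (nat_lit 0) .nil) .nil)))) (.nd (nat_lit 9) 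
(.lf (nat_lit 516391) (.g (nat_lit 2239) (.e (nat_lit 196663) (nat_lit 13) (.e (nat_lit 65630) (nat_lit 14) (.e (nat_lit 401428) (nat_lit 3) (.e (nat_lit 204863) (nat_lit 27) (.e (nat_lit 344065) (nat_lit 0) .nil))))) (.g (nat_lit 0) (.e (nat_lit 214874) (nat_lit 0) .nil) .nil))) 
(.lf (nat_lit 516903) (.g (nat_lit 4431) (.e (nat_lit 196666) (nat_lit 13) (.e (nat_lit 65610) (nat_lit 10) (.e (nat_lit 344117) (nat_lit 21) (.e (nat_lit 516151) (nat_lit 9) (.e (nat_lit 426019) (nat_lit 0) (.e (nat_lit 3366) (nat_lit 208) (.e (nat_lit 622620) (nat_lit 13) (.e (nat_lit 2663) (nat_lit 167) .nil)))))))) (.g (nat_lit 1) (.e (nat_lit 215790) (nat_lit 0) .nil) .nil))))) 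
(.nd (nat_lit 8) (.nd (nat_lit 9) 
(.lf (nat_lit 516263) (.g (nat_lit 2629) (.e (nat_lit 196656) (nat_lit 11) (.e (nat_lit 16465) (nat_lit 13) (.e (nat_lit 483341) (nat_lit 9) (.e (nat_lit 426105) (nat_lit 1) (.e (nat_lit 164327) (nat_lit 230) .nil))))) (.g (nat_lit 0) (.e (nat_lit 214675) (nat_lit 0) .nil) .nil))) 
(.lf (nat_lit 516775) (.g (nat_lit 3377) (.e (nat_lit 196666) (nat_lit 13) (.e (nat_lit 65610) (nat_lit 10) (.e (nat_lit 344117) (nat_lit 21) (.e (nat_lit 516142) (nat_lit 8) (.e (nat_lit 417817) (nat_lit 10) (.e (nat_lit 5657) (nat_lit 312) (.e (nat_lit 2654) (nat_lit 167) .nil))))))) (.g (nat_lit 1) (.e (nat_lit 215660) (nat_lit 0) .nil) .nil)))) (.nd (nat_lit 9) 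
(.lf (nat_lit 516519) (.g (nat_lit 1266) (.e (nat_lit 196666) (nat_lit 13) (.e (nat_lit 65569) (nat_lit 3) (.e (nat_lit 98333) (nat_lit 18) (.e (nat_lit 164182) (nat_lit 154) .nil)))) (.g (nat_lit 0) (.e (nat_lit 215083) (nat_lit 0) .nil) .nil))) 
(.lf (nat_lit 517031) (.g (nat_lit 3001) (.e (nat_lit 196666) (nat_lit 13) (.e (nat_lit 65610) (nat_lit 10) (.e (nat_lit 344117) (nat_lit 21) (.e (nat_lit 516151) (nat_lit 9) (.e (nat_lit 426026) (nat_lit 0) (.e (nat_lit 3367) (nat_lit 208) (.e (nat_lit 630528) (nat_lit 13) (.e (nat_lit 2666) (nat_lit 167) .nil)))))))) (.g (nat_lit 1) (.e (nat_lit 215918) (nat_lit 0) .nil) .nil)))))) 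
(.nd (nat_lit 7) (.nd (nat_lit 8) (.nd (nat_lit 9) 
(.lf (nat_lit 516199) (.g (nat_lit 1918) (.e (nat_lit 196656) (nat_lit 11) (.e (nat_lit 16436) (nat_lit 9) (.e (nat_lit 426131) (nat_lit 3) (.e (nat_lit 204852) (nat_lit 26) (.e (nat_lit 336258) (nat_lit 15) (.e (nat_lit 3763) (nat_lit 229) (.e (nat_lit 794665) (nat_lit 22) .nil))))))) (.g (nat_lit 1) (.e (nat_lit 214498) (nat_lit 0) .nil) .nil))) 
(.lf (nat_lit 516711) (.g (nat_lit 3149) (.e (nat_lit 196666) (nat_lit 13) (.e (nat_lit 65610) (nat_lit 10) (.e (nat_lit 344117) (nat_lit 21) (.e (nat_lit 516106) (nat_lit 0) (.e (nat_lit 7038) (nat_lit 377) (.e (nat_lit 2505) (nat_lit 157) (.e (nat_lit 5626) (nat_lit 312) (.e (nat_lit 2668) (nat_lit 167) .nil)))))))) (.g (nat_lit 1) (.e (nat_lit 215526) (nat_lit 0) .nil) .nil)))) 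
(.nd (nat_lit 9) 
(.lf (nat_lit 516455) (.g (nat_lit 2871) (.e (nat_lit 196665) (nat_lit 13) (.e (nat_lit 65589) (nat_lit 9) (.e (nat_lit 336013) (nat_lit 2) (.e (nat_lit 90165) (nat_lit 12) (.e (nat_lit 171776) (nat_lit 176) (.e (nat_lit 2798) (nat_lit 180) (.e (nat_lit 303117) (nat_lit 2) .nil))))))) (.g (nat_lit 1) (.e (nat_lit 214960) (nat_lit 0) .nil) .nil))) 
(.lf (nat_lit 516967) (.g (nat_lit 3481) (.e (nat_lit 196666) (nat_lit 13) (.e (nat_lit 65610) (nat_lit 10) (.e (nat_lit 344117) (nat_lit 21) (.e (nat_lit 516151) (nat_lit 9) (.e (nat_lit 426020) (nat_lit 0) (.e (nat_lit 7936) (nat_lit 208) (.e (nat_lit 622627) (nat_lit 13) (.e (nat_lit 2665) (nat_lit 167) .nil)))))))) (.g (nat_lit 1) (.e (nat_lit 215854) (nat_lit 0) .nil) .nil))))) 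
(.nd (nat_lit 8) (.nd (nat_lit 9) 
(.lf (nat_lit 516327) (.g (nat_lit 1792) (.e (nat_lit 196663) (nat_lit 13) (.e (nat_lit 65571) (nat_lit 3) (.e (nat_lit 98333) (nat_lit 18) (.e (nat_lit 164183) (nat_lit 154) .nil)))) (.g (nat_lit 0) (.e (nat_lit 214794) (nat_lit 0) .nil) .nil))) 
(.lf (nat_lit 516839) (.g (nat_lit 4372) (.e (nat_lit 196666) (nat_lit 13) (.e (nat_lit 65610) (nat_lit 10) (.e (nat_lit 344117) (nat_lit 21) (.e (nat_lit 516151) (nat_lit 9) (.e (nat_lit 426017) (nat_lit 0) (.e (nat_lit 2412) (nat_lit 157) (.e (nat_lit 4825) (nat_lit 281) (.e (nat_lit 2477) (nat_lit 157) (.e (nat_lit 2663) (nat_lit 167) .nil))))))))) (.g (nat_lit 1) (.e (nat_lit 215726) (nat_lit 0) .nil) .nil)))) 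
(.nd (nat_lit 9) 
(.lf (nat_lit 516583) (.g (nat_lit 2855) (.e (nat_lit 196666) (nat_lit 13) (.e (nat_lit 65604) (nat_lit 9) (.e (nat_lit 336028) (nat_lit 3) (.e (nat_lit 98350) (nat_lit 24) (.e (nat_lit 409643) (nat_lit 18) .nil))))) (.g (nat_lit 0) (.e (nat_lit 215280) (nat_lit 0) .nil) .nil))) 
(.lf (nat_lit 517095) (.g (nat_lit 4844) (.e (nat_lit 196666) (nat_lit 13) (.e (nat_lit 65610) (nat_lit 10) (.e (nat_lit 344117) (nat_lit 21) (.e (nat_lit 516151) (nat_lit 9) (.e (nat_lit 426037) (nat_lit 0) (.e (nat_lit 2423) (nat_lit 157) (.e (nat_lit 4821) (nat_lit 281) (.e (nat_lit 2477) (nat_lit 157) (.e (nat_lit 2663) (nat_lit 167) .nil))))))))) (.g (nat_lit 1) (.e (nat_lit 215982) (nat_lit 0) .nil) .nil)))))))) 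
(.nd (nat_lit 5) (.nd (nat_lit 6) (.nd (nat_lit 7) (.nd (nat_lit 8) (.nd (nat_lit 9) 
(.lf (nat_lit 516119) (.g (nat_lit 1374) (.e (nat_lit 196654) (nat_lit 11) (.e (nat_lit 16473) (nat_lit 14) (.e (nat_lit 491526) (nat_lit 0) .nil))) (.g (nat_lit 0) (.e (nat_lit 214273) (nat_lit 0) .nil) .nil))) 
(.lf (nat_lit 516631) (.g (nat_lit 2253) (.e (nat_lit 196666) (nat_lit 13) (.e (nat_lit 65610) (nat_lit 10) (.e (nat_lit 344117) (nat_lit 21) (.e (nat_lit 516098) (nat_lit 0) (.e (nat_lit 2409) (nat_lit 157) .nil))))) (.g (nat_lit 0) (.e (nat_lit 215381) (nat_lit 0) .nil) .nil)))) (.nd (nat_lit 9) 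
(.lf (nat_lit 516375) (.g (nat_lit 3667) (.e (nat_lit 196663) (nat_lit 13) (.e (nat_lit 65630) (nat_lit 14) (.e (nat_lit 401425) (nat_lit 2) (.e (nat_lit 196681) (nat_lit 17) (.e (nat_lit 131073) (nat_lit 0) (.e (nat_lit 6691) (nat_lit 357) (.e (nat_lit 2656) (nat_lit 167) .nil))))))) (.g (nat_lit 1) (.e (nat_lit 214857) (nat_lit 0) .nil) .nil))) 
(.lf (nat_lit 516887) (.g (nat_lit 3536) (.e (nat_lit 196666) (nat_lit 13) (.e (nat_lit 65610) (nat_lit 10) (.e (nat_lit 344117) (nat_lit 21) (.e (nat_lit 516151) (nat_lit 9) (.e (nat_lit 426017) (nat_lit 0) (.e (nat_lit 7936) (nat_lit 208) (.e (nat_lit 622620) (nat_lit 13) (.e (nat_lit 2665) (nat_lit 167) .nil)))))))) (.g (nat_lit 1) (.e (nat_lit 215774) (nat_lit 0) .nil) .nil))))) 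
(.nd (nat_lit 8) (.nd (nat_lit 9) 
(.lf (nat_lit 516247) (.g (nat_lit 1687) (.e (nat_lit 196656) (nat_lit 11) (.e (nat_lit 16448) (nat_lit 10) (.e (nat_lit 434234) (nat_lit 23) (.e (nat_lit 532563) (nat_lit 15) (.e (nat_lit 385109) (nat_lit 51) .nil))))) (.g (nat_lit 0) (.e (nat_lit 214609) (nat_lit 0) .nil) .nil))) 
(.lf (nat_lit 516759) (.g (nat_lit 4877) (.e (nat_lit 196666) (nat_lit 13) (.e (nat_lit 65610) (nat_lit 10) (.e (nat_lit 344117) (nat_lit 21) (.e (nat_lit 516139) (nat_lit 7) (.e (nat_lit 409617) (nat_lit 10) (.e (nat_lit 7936) (nat_lit 312) (.e (nat_lit 2666) (nat_lit 167) .nil))))))) (.g (nat_lit 1) (.e (nat_lit 215644) (nat_lit 0) .nil) .nil)))) (.nd (nat_lit 9) 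
(.lf (nat_lit 516503) (.g (nat_lit 2800) (.e (nat_lit 196665) (nat_lit 13) (.e (nat_lit 65628) (nat_lit 14) (.e (nat_lit 401425) (nat_lit 2) (.e (nat_lit 196668) (nat_lit 14) (.e (nat_lit 73782) (nat_lit 32) .nil))))) (.g (nat_lit 0) (.e (nat_lit 215041) (nat_lit 0) .nil) .nil))) 
(.lf (nat_lit 517015) (.g (nat_lit 2858) (.e (nat_lit 196666) (nat_lit 13) (.e (nat_lit 65610) (nat_lit 10) (.e (nat_lit 344117) (nat_lit 21) (.e (nat_lit 516151) (nat_lit 9) (.e (nat_lit 426022) (nat_lit 0) (.e (nat_lit 2402) (nat_lit 157) (.e (nat_lit 4830) (nat_lit 281) (.e (nat_lit 2477) (nat_lit 157) (.e (nat_lit 2666) (nat_lit 167) .nil))))))))) (.g (nat_lit 1) (.e (nat_lit 215902) (nat_lit 0) .nil) .nil)))))) 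
(.nd (nat_lit 7) (.nd (nat_lit 8) (.nd (nat_lit 9) 
(.lf (nat_lit 516183) (.g (nat_lit 1392) (.e (nat_lit 196656) (nat_lit 11) (.e (nat_lit 16425) (nat_lit 7) (.e (nat_lit 409616) (nat_lit 10) (.e (nat_lit 858) (nat_lit 75) .nil)))) (.g (nat_lit 0) (.e (nat_lit 214477) (nat_lit 0) .nil) .nil))) 
(.lf (nat_lit 516695) (.g (nat_lit 3337) (.e (nat_lit 196666) (nat_lit 13) (.e (nat_lit 65610) (nat_lit 10) (.e (nat_lit 344117) (nat_lit 21) (.e (nat_lit 516106) (nat_lit 0) (.e (nat_lit 6986) (nat_lit 377) (.e (nat_lit 2810) (nat_lit 180) (.e (nat_lit 303116) (nat_lit 2) .nil))))))) (.g (nat_lit 1) (.e (nat_lit 215510) (nat_lit 0) .nil) .nil)))) (.nd (nat_lit 9) 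
(.lf (nat_lit 516439) (.g (nat_lit 1663) (.e (nat_lit 196664) (nat_lit 13) (.e (nat_lit 65630) (nat_lit 14) (.e (nat_lit 401428) (nat_lit 3) (.e (nat_lit 204846) (nat_lit 24) .nil)))) (.g (nat_lit 0) (.e (nat_lit 214937) (nat_lit 0) .nil) .nil))) 
(.lf (nat_lit 516951) (.g (nat_lit 5121) (.e (nat_lit 196666) (nat_lit 13) (.e (nat_lit 65610) (nat_lit 10) (.e (nat_lit 344117) (nat_lit 21) (.e (nat_lit 516151) (nat_lit 9) (.e (nat_lit 426020) (nat_lit 0) (.e (nat_lit 3372) (nat_lit 208) (.e (nat_lit 622620) (nat_lit 13) (.e (nat_lit 2663) (nat_lit 167) .nil)))))))) (.g (nat_lit 1) (.e (nat_lit 215838) (nat_lit 0) .nil) .nil))))) 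
(.nd (nat_lit 8) (.nd (nat_lit 9) 
(.lf (nat_lit 516311) (.g (nat_lit 2607) (.e (nat_lit 196662) (nat_lit 13) (.e (nat_lit 65630) (nat_lit 14) (.e (nat_lit 401428) (nat_lit 3) (.e (nat_lit 204863) (nat_lit 27) (.e (nat_lit 352000) (nat_lit 0) (.e (nat_lit 2668) (nat_lit 167) .nil)))))) (.g (nat_lit 1) (.e (nat_lit 214770) (nat_lit 0) .nil) .nil))) 
(.lf (nat_lit 516823) (.g (nat_lit 3854) (.e (nat_lit 196666) (nat_lit 13) (.e (nat_lit 65610) (nat_lit 10) (.e (nat_lit 344117) (nat_lit 21) (.e (nat_lit 516151) (nat_lit 9) (.e (nat_lit 426017) (nat_lit 0) (.e (nat_lit 2431) (nat_lit 157) (.e (nat_lit 4849) (nat_lit 285) (.e (nat_lit 163870) (nat_lit 2) .nil)))))))) (.g (nat_lit 1) (.e (nat_lit 215710) (nat_lit 0) .nil) .nil)))) 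
(.nd (nat_lit 9) 
(.lf (nat_lit 516567) (.g (nat_lit 2431) (.e (nat_lit 196666) (nat_lit 13) (.e (nat_lit 65599) (nat_lit 9) (.e (nat_lit 336013) (nat_lit 2) (.e (nat_lit 90165) (nat_lit 12) (.e (nat_lit 164207) (nat_lit 176) .nil))))) (.g (nat_lit 0) (.e (nat_lit 215250) (nat_lit 0) .nil) .nil))) 
(.lf (nat_lit 517079) (.g (nat_lit 3190) (.e (nat_lit 196666) (nat_lit 13) (.e (nat_lit 65610) (nat_lit 10) (.e (nat_lit 344117) (nat_lit 21) (.e (nat_lit 516151) (nat_lit 9) (.e (nat_lit 426034) (nat_lit 0) (.e (nat_lit 3370) (nat_lit 208) (.e (nat_lit 622626) (nat_lit 13) (.e (nat_lit 2666) (nat_lit 167) .nil)))))))) (.g (nat_lit 1) (.e (nat_lit 215966) (nat_lit 0) .nil) .nil))))))) 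
(.nd (nat_lit 6) (.nd (nat_lit 7) (.nd (nat_lit 8) (.nd (nat_lit 9) 
(.lf (nat_lit 516151) (.g (nat_lit 2542) (.e (nat_lit 196655) (nat_lit 11) (.e (nat_lit 16473) (nat_lit 14) (.e (nat_lit 491526) (nat_lit 0) (.e (nat_lit 1774) (nat_lit 118) .nil)))) (.g (nat_lit 0) (.e (nat_lit 214401) (nat_lit 0) .nil) .nil))) 
(.lf (nat_lit 516663) (.g (nat_lit 2584) (.e (nat_lit 196666) (nat_lit 13) (.e (nat_lit 65610) (nat_lit 10) (.e (nat_lit 344117) (nat_lit 21) (.e (nat_lit 516106) (nat_lit 0) (.e (nat_lit 2423) (nat_lit 157) .nil))))) (.g (nat_lit 0) (.e (nat_lit 215419) (nat_lit 0) .nil) .nil)))) (.nd (nat_lit 9) 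
(.lf (nat_lit 516407) (.g (nat_lit 2422) (.e (nat_lit 196664) (nat_lit 13) (.e (nat_lit 65571) (nat_lit 3) (.e (nat_lit 98334) (nat_lit 18) (.e (nat_lit 164182) (nat_lit 154) (.e (nat_lit 57379) (nat_lit 3) .nil))))) (.g (nat_lit 0) (.e (nat_lit 214901) (nat_lit 0) .nil) .nil))) 
(.lf (nat_lit 516919) (.g (nat_lit 3923) (.e (nat_lit 196666) (nat_lit 13) (.e (nat_lit 65610) (nat_lit 10) (.e (nat_lit 344117) (nat_lit 21) (.e (nat_lit 516151) (nat_lit 9) (.e (nat_lit 426019) (nat_lit 0) (.e (nat_lit 3373) (nat_lit 208) (.e (nat_lit 630528) (nat_lit 13) (.e (nat_lit 2666) (nat_lit 167) .nil)))))))) (.g (nat_lit 1) (.e (nat_lit 215806) (nat_lit 0) .nil) .nil))))) 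
(.nd (nat_lit 8) (.nd (nat_lit 9) 
(.lf (nat_lit 516279) (.g (nat_lit 3084) (.e (nat_lit 196656) (nat_lit 11) (.e (nat_lit 16473) (nat_lit 14) (.e (nat_lit 491526) (nat_lit 0) (.e (nat_lit 1842) (nat_lit 123) (.e (nat_lit 548887) (nat_lit 9) .nil))))) (.g (nat_lit 0) (.e (nat_lit 214696) (nat_lit 0) .nil) .nil))) 
(.lf (nat_lit 516791) (.g (nat_lit 4044) (.e (nat_lit 196666) (nat_lit 13) (.e (nat_lit 65610) (nat_lit 10) (.e (nat_lit 344117) (nat_lit 21) (.e (nat_lit 516151) (nat_lit 9) (.e (nat_lit 426017) (nat_lit 0) (.e (nat_lit 2398) (nat_lit 157) (.e (nat_lit 4829) (nat_lit 281) (.e (nat_lit 2477) (nat_lit 157) (.e (nat_lit 2663) (nat_lit 167) .nil))))))))) (.g (nat_lit 1) (.e (nat_lit 215678) (nat_lit 0) .nil) .nil)))) 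
(.nd (nat_lit 9) 
(.lf (nat_lit 516535) (.g (nat_lit 4743) (.e (nat_lit 196666) (nat_lit 13) (.e (nat_lit 65569) (nat_lit 3) (.e (nat_lit 98342) (nat_lit 20) (.e (nat_lit 221214) (nat_lit 23) (.e (nat_lit 204831) (nat_lit 18) (.e (nat_lit 57931) (nat_lit 282) (.e (nat_lit 163869) (nat_lit 2) .nil))))))) (.g (nat_lit 1) (.e (nat_lit 215151) (nat_lit 0) .nil) .nil))) 
(.lf (nat_lit 517047) (.g (nat_lit 3616) (.e (nat_lit 196666) (nat_lit 13) (.e (nat_lit 65610) (nat_lit 10) (.e (nat_lit 344117) (nat_lit 21) (.e (nat_lit 516151) (nat_lit 9) (.e (nat_lit 426034) (nat_lit 0) (.e (nat_lit 2424) (nat_lit 157) (.e (nat_lit 4848) (nat_lit 285) (.e (nat_lit 163870) (nat_lit 2) .nil)))))))) (.g (nat_lit 1) (.e (nat_lit 215934) (nat_lit 0) .nil) .nil)))))) 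
(.nd (nat_lit 7) (.nd (nat_lit 8) (.nd (nat_lit 9) 
(.lf (nat_lit 516215) (.g (nat_lit 1695) (.e (nat_lit 196656) (nat_lit 11) (.e (nat_lit 16436) (nat_lit 9) (.e (nat_lit 426482) (nat_lit 27) (.e (nat_lit 336388) (nat_lit 27) .nil)))) (.g (nat_lit 0) (.e (nat_lit 214521) (nat_lit 0) .nil) .nil))) 
(.lf (nat_lit 516727) (.g (nat_lit 2578) (.e (nat_lit 196666) (nat_lit 13) (.e (nat_lit 65610) (nat_lit 10) (.e (nat_lit 344117) (nat_lit 21) (.e (nat_lit 516107) (nat_lit 0) .nil)))) (.g (nat_lit 0) (.e (nat_lit 215542) (nat_lit 0) .nil) .nil)))) (.nd (nat_lit 9) 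
(.lf (nat_lit 516471) (.g (nat_lit 2245) (.e (nat_lit 196665) (nat_lit 13) (.e (nat_lit 65608) (nat_lit 9) (.e (nat_lit 336021) (nat_lit 3) (.e (nat_lit 98350) (nat_lit 24) (.e (nat_lit 409647) (nat_lit 18) .nil))))) (.g (nat_lit 0) (.e (nat_lit 214990) (nat_lit 0) .nil) .nil))) 
(.lf (nat_lit 516983) (.g (nat_lit 3500) (.e (nat_lit 196666) (nat_lit 13) (.e (nat_lit 65610) (nat_lit 10) (.e (nat_lit 344117) (nat_lit 21) (.e (nat_lit 516151) (nat_lit 9) (.e (nat_lit 426021) (nat_lit 0) (.e (nat_lit 3367) (nat_lit 208) (.e (nat_lit 622624) (nat_lit 13) (.e (nat_lit 2662) (nat_lit 167) .nil)))))))) (.g (nat_lit 1) (.e (nat_lit 215870) (nat_lit 0) .nil) .nil))))) 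
(.nd (nat_lit 8) (.nd (nat_lit 9) 
(.lf (nat_lit 516343) (.g (nat_lit 4606) (.e (nat_lit 196663) (nat_lit 13) (.e (nat_lit 65571) (nat_lit 3) (.e (nat_lit 98342) (nat_lit 20) (.e (nat_lit 221214) (nat_lit 23) (.e (nat_lit 204829) (nat_lit 18) (.e (nat_lit 57927) (nat_lit 282) (.e (nat_lit 163868) (nat_lit 2) .nil))))))) (.g (nat_lit 1) (.e (nat_lit 214816) (nat_lit 0) .nil) .nil))) 
(.lf (nat_lit 516855) (.g (nat_lit 3704) (.e (nat_lit 196666) (nat_lit 13) (.e (nat_lit 65610) (nat_lit 10) (.e (nat_lit 344117) (nat_lit 21) (.e (nat_lit 516151) (nat_lit 9) (.e (nat_lit 426017) (nat_lit 0) (.e (nat_lit 3366) (nat_lit 208) (.e (nat_lit 622623) (nat_lit 13) (.e (nat_lit 2668) (nat_lit 167) .nil)))))))) (.g (nat_lit 1) (.e (nat_lit 215742) (nat_lit 0) .nil) .nil)))) 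
(.nd (nat_lit 9) 
(.lf (nat_lit 516599) (.g (nat_lit 3605) (.e (nat_lit 196666) (nat_lit 13) (.e (nat_lit 65610) (nat_lit 10) (.e (nat_lit 344117) (nat_lit 21) (.e (nat_lit 516097) (nat_lit 0) (.e (nat_lit 2418) (nat_lit 157) (.e (nat_lit 4540) (nat_lit 267) (.e (nat_lit 163909) (nat_lit 12) (.e (nat_lit 426125) (nat_lit 2) .nil)))))))) (.g (nat_lit 1) (.e (nat_lit 215319) (nat_lit 0) .nil) .nil))) 
(.lf (nat_lit 517111) (.g (nat_lit 3240) (.e (nat_lit 196666) (nat_lit 13) (.e (nat_lit 65610) (nat_lit 10) (.e (nat_lit 344117) (nat_lit 21) (.e (nat_lit 516151) (nat_lit 9) (.e (nat_lit 426037) (nat_lit 0) (.e (nat_lit 3366) (nat_lit 208) (.e (nat_lit 622621) (nat_lit 13) (.e (nat_lit 2668) (nat_lit 167) .nil)))))))) (.g (nat_lit 1) (.e (nat_lit 215998) (nat_lit 0) .nil) .nil))))))))) 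
(.nd (nat_lit 4) (.nd (nat_lit 5) (.nd (nat_lit 6) (.nd (nat_lit 7) (.nd (nat_lit 8) 
(.nd (nat_lit 9) 
(.lf (nat_lit 516111) (.g (nat_lit 1793) (.e (nat_lit 196654) (nat_lit 11) (.e (nat_lit 16466) (nat_lit 13) (.e (nat_lit 483341) (nat_lit 9) (.e (nat_lit 426106) (nat_lit 1) (.e (nat_lit 164326) (nat_lit 230) (.e (nat_lit 163865) (nat_lit 2) .nil)))))) (.g (nat_lit 1) (.e (nat_lit 214249) (nat_lit 0) .nil) .nil))) 
(.lf (nat_lit 516623) (.g (nat_lit 3920) (.e (nat_lit 196666) (nat_lit 13) (.e (nat_lit 65610) (nat_lit 10) (.e (nat_lit 344117) (nat_lit 21) (.e (nat_lit 516097) (nat_lit 0) (.e (nat_lit 7110) (nat_lit 380) (.e (nat_lit 164351) (nat_lit 246) (.e (nat_lit 2668) (nat_lit 167) .nil))))))) (.g (nat_lit 1) (.e (nat_lit 215369) (nat_lit 0) .nil) .nil)))) (.nd (nat_lit 9) 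
(.lf (nat_lit 516367) (.g (nat_lit 2780) (.e (nat_lit 196663) (nat_lit 13) (.e (nat_lit 65630) (nat_lit 14) (.e (nat_lit 401425) (nat_lit 2) (.e (nat_lit 196668) (nat_lit 14) (.e (nat_lit 73781) (nat_lit 32) .nil))))) (.g (nat_lit 0) (.e (nat_lit 214849) (nat_lit 0) .nil) .nil))) 
(.lf (nat_lit 516879) (.g (nat_lit 4788) (.e (nat_lit 196666) (nat_lit 13) (.e (nat_lit 65610) (nat_lit 10) (.e (nat_lit 344117) (nat_lit 21) (.e (nat_lit 516151) (nat_lit 9) (.e (nat_lit 426017) (nat_lit 0) (.e (nat_lit 3373) (nat_lit 208) (.e (nat_lit 622620) (nat_lit 13) (.e (nat_lit 2663) (nat_lit 167) .nil)))))))) (.g (nat_lit 1) (.e (nat_lit 215766) (nat_lit 0) .nil) .nil))))) 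
(.nd (nat_lit 8) (.nd (nat_lit 9) 
(.lf (nat_lit 516239) (.g (nat_lit 2958) (.e (nat_lit 196656) (nat_lit 11) (.e (nat_lit 16448) (nat_lit 10) (.e (nat_lit 434231) (nat_lit 23) (.e (nat_lit 532529) (nat_lit 9) (.e (nat_lit 336258) (nat_lit 15) (.e (nat_lit 3774) (nat_lit 229) (.e (nat_lit 794669) (nat_lit 22) .nil))))))) (.g (nat_lit 1) (.e (nat_lit 214597) (nat_lit 0) .nil) .nil))) 
(.lf (nat_lit 516751) (.g (nat_lit 3873) (.e (nat_lit 196666) (nat_lit 13) (.e (nat_lit 65610) (nat_lit 10) (.e (nat_lit 344117) (nat_lit 21) (.e (nat_lit 516139) (nat_lit 7) (.e (nat_lit 409612) (nat_lit 10) (.e (nat_lit 7936) (nat_lit 312) (.e (nat_lit 2668) (nat_lit 167) .nil))))))) (.g (nat_lit 1) (.e (nat_lit 215636) (nat_lit 0) .nil) .nil)))) (.nd (nat_lit 9) 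
(.lf (nat_lit 516495) (.g (nat_lit 1234) (.e (nat_lit 196665) (nat_lit 13) (.e (nat_lit 65626) (nat_lit 13) (.e (nat_lit 393225) (nat_lit 9) (.e (nat_lit 343808) (nat_lit 1) .nil)))) (.g (nat_lit 0) (.e (nat_lit 215031) (nat_lit 0) .nil) .nil))) 
(.lf (nat_lit 517007) (.g (nat_lit 3916) (.e (nat_lit 196666) (nat_lit 13) (.e (nat_lit 65610) (nat_lit 10) (.e (nat_lit 344117) (nat_lit 21) (.e (nat_lit 516151) (nat_lit 9) (.e (nat_lit 426022) (nat_lit 0) (.e (nat_lit 2397) (nat_lit 157) (.e (nat_lit 4761) (nat_lit 281) (.e (nat_lit 2461) (nat_lit 157) (.e (nat_lit 2666) (nat_lit 167) .nil))))))))) (.g (nat_lit 1) (.e (nat_lit 215894) (nat_lit 0) .nil) .nil)))))) 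
(.nd (nat_lit 7) (.nd (nat_lit 8) (.nd (nat_lit 9) 
(.lf (nat_lit 516175) (.g (nat_lit 3274) (.e (nat_lit 196656) (nat_lit 11) (.e (nat_lit 16416) (nat_lit 3) (.e (nat_lit 204809) (nat_lit 9) (.e (nat_lit 426124) (nat_lit 2) (.e (nat_lit 196656) (nat_lit 11) (.e (nat_lit 16412) (nat_lit 2) .nil)))))) (.g (nat_lit 1) (.e (nat_lit 214463) (nat_lit 0) .nil) .nil))) 
(.lf (nat_lit 516687) (.g (nat_lit 2916) (.e (nat_lit 196666) (nat_lit 13) (.e (nat_lit 65610) (nat_lit 10) (.e (nat_lit 344117) (nat_lit 21) (.e (nat_lit 516106) (nat_lit 0) (.e (nat_lit 6986) (nat_lit 377) (.e (nat_lit 2402) (nat_lit 157) (.e (nat_lit 5714) (nat_lit 312) (.e (nat_lit 2664) (nat_lit 167) .nil)))))))) (.g (nat_lit 1) (.e (nat_lit 215502) (nat_lit 0) .nil) .nil)))) 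
(.nd (nat_lit 9) 
(.lf (nat_lit 516431) (.g (nat_lit 2617) (.e (nat_lit 196664) (nat_lit 13) (.e (nat_lit 65619) (nat_lit 10) (.e (nat_lit 344117) (nat_lit 21) (.e (nat_lit 516106) (nat_lit 0) (.e (nat_lit 7014) (nat_lit 377) .nil))))) (.g (nat_lit 0) (.e (nat_lit 214928) (nat_lit 0) .nil) .nil))) 
(.lf (nat_lit 516943) (.g (nat_lit 3299) (.e (nat_lit 196666) (nat_lit 13) (.e (nat_lit 65610) (nat_lit 10) (.e (nat_lit 344117) (nat_lit 21) (.e (nat_lit 516151) (nat_lit 9) (.e (nat_lit 426020) (nat_lit 0) (.e (nat_lit 3367) (nat_lit 208) (.e (nat_lit 622626) (nat_lit 13) (.e (nat_lit 2666) (nat_lit 167) .nil)))))))) (.g (nat_lit 1) (.e (nat_lit 215830) (nat_lit 0) .nil) .nil))))) 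
(.nd (nat_lit 8) (.nd (nat_lit 9) 
(.lf (nat_lit 516303) (.g (nat_lit 1894) (.e (nat_lit 196662) (nat_lit 13) (.e (nat_lit 65610) (nat_lit 10) (.e (nat_lit 344129) (nat_lit 26) (.e (nat_lit 557090) (nat_lit 12) .nil)))) (.g (nat_lit 0) (.e (nat_lit 214762) (nat_lit 0) .nil) .nil))) 
(.lf (nat_lit 516815) (.g (nat_lit 4559) (.e (nat_lit 196666) (nat_lit 13) (.e (nat_lit 65610) (nat_lit 10) (.e (nat_lit 344117) (nat_lit 21) (.e (nat_lit 516151) (nat_lit 9) (.e (nat_lit 426017) (nat_lit 0) (.e (nat_lit 2418) (nat_lit 157) (.e (nat_lit 4849) (nat_lit 285) (.e (nat_lit 163869) (nat_lit 2) .nil)))))))) (.g (nat_lit 1) (.e (nat_lit 215702) (nat_lit 0) .nil) .nil)))) 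
(.nd (nat_lit 9) 
(.lf (nat_lit 516559) (.g (nat_lit 3220) (.e (nat_lit 196666) (nat_lit 13) (.e (nat_lit 65598) (nat_lit 9) (.e (nat_lit 336013) (nat_lit 2) (.e (nat_lit 90165) (nat_lit 12) (.e (nat_lit 164207) (nat_lit 176) .nil))))) (.g (nat_lit 0) (.e (nat_lit 215237) (nat_lit 0) .nil) .nil))) 
(.lf (nat_lit 517071) (.g (nat_lit 4654) (.e (nat_lit 196666) (nat_lit 13) (.e (nat_lit 65610) (nat_lit 10) (.e (nat_lit 344117) (nat_lit 21) (.e (nat_lit 516151) (nat_lit 9) (.e (nat_lit 426034) (nat_lit 0) (.e (nat_lit 3369) (nat_lit 208) (.e (nat_lit 622626) (nat_lit 13) (.e (nat_lit 2663) (nat_lit 167) .nil)))))))) (.g (nat_lit 1) (.e (nat_lit 215958) (nat_lit 0) .nil) .nil))))))) 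
(.nd (nat_lit 6) (.nd (nat_lit 7) (.nd (nat_lit 8) (.nd (nat_lit 9) 
(.lf (nat_lit 516143) (.g (nat_lit 3746) (.e (nat_lit 196655) (nat_lit 11) (.e (nat_lit 16465) (nat_lit 13) (.e (nat_lit 483341) (nat_lit 9) (.e (nat_lit 426107) (nat_lit 1) (.e (nat_lit 164326) (nat_lit 230) (.e (nat_lit 163868) (nat_lit 2) .nil)))))) (.g (nat_lit 1) (.e (nat_lit 214386) (nat_lit 0) .nil) .nil))) 
(.lf (nat_lit 516655) (.g (nat_lit 2216) (.e (nat_lit 196666) (nat_lit 13) (.e (nat_lit 65610) (nat_lit 10) (.e (nat_lit 344117) (nat_lit 21) (.e (nat_lit 516102) (nat_lit 0) (.e (nat_lit 7100) (nat_lit 380) (.e (nat_lit 164359) (nat_lit 246) (.e (nat_lit 2661) (nat_lit 167) .nil))))))) (.g (nat_lit 1) (.e (nat_lit 215409) (nat_lit 0) .nil) .nil)))) (.nd (nat_lit 9) 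
(.lf (nat_lit 516399) (.g (nat_lit 2847) (.e (nat_lit 196664) (nat_lit 13) (.e (nat_lit 65571) (nat_lit 3) (.e (nat_lit 98333) (nat_lit 18) (.e (nat_lit 164179) (nat_lit 154) (.e (nat_lit 57378) (nat_lit 3) .nil))))) (.g (nat_lit 0) (.e (nat_lit 214893) (nat_lit 0) .nil) .nil))) 
(.lf (nat_lit 516911) (.g (nat_lit 3673) (.e (nat_lit 196666) (nat_lit 13) (.e (nat_lit 65610) (nat_lit 10) (.e (nat_lit 344117) (nat_lit 21) (.e (nat_lit 516151) (nat_lit 9) (.e (nat_lit 426019) (nat_lit 0) (.e (nat_lit 3372) (nat_lit 208) (.e (nat_lit 622624) (nat_lit 13) (.e (nat_lit 2668) (nat_lit 167) .nil)))))))) (.g (nat_lit 1) (.e (nat_lit 215798) (nat_lit 0) .nil) .nil))))) 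
(.nd (nat_lit 8) (.nd (nat_lit 9) 
(.lf (nat_lit 516271) (.g (nat_lit 3651) (.e (nat_lit 196656) (nat_lit 11) (.e (nat_lit 16470) (nat_lit 14) (.e (nat_lit 491540) (nat_lit 3) (.e (nat_lit 98384) (nat_lit 32) .nil)))) (.g (nat_lit 0) (.e (nat_lit 214685) (nat_lit 0) .nil) .nil))) 
(.lf (nat_lit 516783) (.g (nat_lit 2991) (.e (nat_lit 196666) (nat_lit 13) (.e (nat_lit 65610) (nat_lit 10) (.e (nat_lit 344117) (nat_lit 21) (.e (nat_lit 516151) (nat_lit 9) (.e (nat_lit 426003) (nat_lit 0) (.e (nat_lit 3368) (nat_lit 208) (.e (nat_lit 630528) (nat_lit 13) (.e (nat_lit 2666) (nat_lit 167) .nil)))))))) (.g (nat_lit 1) (.e (nat_lit 215670) (nat_lit 0) .nil) .nil)))) 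
(.nd (nat_lit 9) 
(.lf (nat_lit 516527) (.g (nat_lit 2551) (.e (nat_lit 196666) (nat_lit 13) (.e (nat_lit 65569) (nat_lit 3) (.e (nat_lit 98335) (nat_lit 18) (.e (nat_lit 164179) (nat_lit 154) (.e (nat_lit 57378) (nat_lit 3) .nil))))) (.g (nat_lit 0) (.e (nat_lit 215129) (nat_lit 0) .nil) .nil))) 
(.lf (nat_lit 517039) (.g (nat_lit 3947) (.e (nat_lit 196666) (nat_lit 13) (.e (nat_lit 65610) (nat_lit 10) (.e (nat_lit 344117) (nat_lit 21) (.e (nat_lit 516151) (nat_lit 9) (.e (nat_lit 426034) (nat_lit 0) (.e (nat_lit 2416) (nat_lit 157) (.e (nat_lit 4849) (nat_lit 285) (.e (nat_lit 163870) (nat_lit 2) .nil)))))))) (.g (nat_lit 1) (.e (nat_lit 215926) (nat_lit 0) .nil) .nil)))))) 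
(.nd (nat_lit 7) (.nd (nat_lit 8) (.nd (nat_lit 9) 
(.lf (nat_lit 516207) (.g (nat_lit 2473) (.e (nat_lit 196656) (nat_lit 11) (.e (nat_lit 16436) (nat_lit 9) (.e (nat_lit 426131) (nat_lit 3) (.e (nat_lit 204880) (nat_lit 32) (.e (nat_lit 385096) (nat_lit 49) (.e (nat_lit 778390) (nat_lit 9) (.e (nat_lit 2667) (nat_lit 167) .nil))))))) (.g (nat_lit 1) (.e (nat_lit 214510) (nat_lit 0) .nil) .nil))) 
(.lf (nat_lit 516719) (.g (nat_lit 3157) (.e (nat_lit 196666) (nat_lit 13) (.e (nat_lit 65610) (nat_lit 10) (.e (nat_lit 344117) (nat_lit 21) (.e (nat_lit 516106) (nat_lit 0) (.e (nat_lit 7095) (nat_lit 380) (.e (nat_lit 171776) (nat_lit 246) (.e (nat_lit 2666) (nat_lit 167) .nil))))))) (.g (nat_lit 1) (.e (nat_lit 215534) (nat_lit 0) .nil) .nil)))) (.nd (nat_lit 9) 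
(.lf (nat_lit 516463) (.g (nat_lit 2632) (.e (nat_lit 196665) (nat_lit 13) (.e (nat_lit 65598) (nat_lit 9) (.e (nat_lit 336013) (nat_lit 2) (.e (nat_lit 90165) (nat_lit 12) (.e (nat_lit 164210) (nat_lit 176) .nil))))) (.g (nat_lit 0) (.e (nat_lit 214978) (nat_lit 0) .nil) .nil))) 
(.lf (nat_lit 516975) (.g (nat_lit 3408) (.e (nat_lit 196666) (nat_lit 13) (.e (nat_lit 65610) (nat_lit 10) (.e (nat_lit 344117) (nat_lit 21) (.e (nat_lit 516151) (nat_lit 9) (.e (nat_lit 426021) (nat_lit 0) (.e (nat_lit 3366) (nat_lit 208) (.e (nat_lit 622623) (nat_lit 13) (.e (nat_lit 2668) (nat_lit 167) .nil)))))))) (.g (nat_lit 1) (.e (nat_lit 215862) (nat_lit 0) .nil) .nil))))) 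
(.nd (nat_lit 8) (.nd (nat_lit 9) 
(.lf (nat_lit 516335) (.g (nat_lit 1023) (.e (nat_lit 196663) (nat_lit 13) (.e (nat_lit 65571) (nat_lit 3) (.e (nat_lit 98338) (nat_lit 19) .nil))) (.g (nat_lit 0) (.e (nat_lit 214802) (nat_lit 0) .nil) .nil))) 
(.lf (nat_lit 516847) (.g (nat_lit 4442) (.e (nat_lit 196666) (nat_lit 13) (.e (nat_lit 65610) (nat_lit 10) (.e (nat_lit 344117) (nat_lit 21) (.e (nat_lit 516151) (nat_lit 9) (.e (nat_lit 426017) (nat_lit 0) (.e (nat_lit 2415) (nat_lit 157) (.e (nat_lit 4826) (nat_lit 281) (.e (nat_lit 2477) (nat_lit 157) (.e (nat_lit 2663) (nat_lit 167) .nil))))))))) (.g (nat_lit 1) (.e (nat_lit 215734) (nat_lit 0) .nil) .nil)))) 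
(.nd (nat_lit 9) 
(.lf (nat_lit 516591) (.g (nat_lit 2225) (.e (nat_lit 196666) (nat_lit 13) (.e (nat_lit 65610) (nat_lit 10) (.e (nat_lit 344117) (nat_lit 21) (.e (nat_lit 516097) (nat_lit 0) .nil)))) (.g (nat_lit 0) (.e (nat_lit 215303) (nat_lit 0) .nil) .nil))) 
(.lf (nat_lit 517103) (.g (nat_lit 3851) (.e (nat_lit 196666) (nat_lit 13) (.e (nat_lit 65610) (nat_lit 10) (.e (nat_lit 344117) (nat_lit 21) (.e (nat_lit 516151) (nat_lit 9) (.e (nat_lit 426037) (nat_lit 0) (.e (nat_lit 2426) (nat_lit 157) (.e (nat_lit 4778) (nat_lit 281) (.e (nat_lit 2477) (nat_lit 157) (.e (nat_lit 2663) (nat_lit 167) .nil))))))))) (.g (nat_lit 1) (.e (nat_lit 215990) (nat_lit 0) .nil) .nil)))))))) 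
(.nd (nat_lit 5) (.nd (nat_lit 6) (.nd (nat_lit 7) (.nd (nat_lit 8) (.nd (nat_lit 9) 
(.lf (nat_lit 516127) (.g (nat_lit 1393) (.e (nat_lit 196655) (nat_lit 11) (.e (nat_lit 16435) (nat_lit 9) (.e (nat_lit 426131) (nat_lit 3) (.e (nat_lit 204882) (nat_lit 32) .nil)))) (.g (nat_lit 0) (.e (nat_lit 214322) (nat_lit 0) .nil) .nil))) 
(.lf (nat_lit 516639) (.g (nat_lit 2252) (.e (nat_lit 196666) (nat_lit 13) (.e (nat_lit 65610) (nat_lit 10) (.e (nat_lit 344117) (nat_lit 21) (.e (nat_lit 516098) (nat_lit 0) (.e (nat_lit 3362) (nat_lit 207) .nil))))) (.g (nat_lit 0) (.e (nat_lit 215389) (nat_lit 0) .nil) .nil)))) (.nd (nat_lit 9) 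
(.lf (nat_lit 516383) (.g (nat_lit 2812) (.e (nat_lit 196663) (nat_lit 13) (.e (nat_lit 65630) (nat_lit 14) (.e (nat_lit 401427) (nat_lit 3) (.e (nat_lit 204863) (nat_lit 27) (.e (nat_lit 344068) (nat_lit 0) (.e (nat_lit 2663) (nat_lit 167) .nil)))))) (.g (nat_lit 1) (.e (nat_lit 214865) (nat_lit 0) .nil) .nil))) 
(.lf (nat_lit 516895) (.g (nat_lit 2840) (.e (nat_lit 196666) (nat_lit 13) (.e (nat_lit 65610) (nat_lit 10) (.e (nat_lit 344117) (nat_lit 21) (.e (nat_lit 516151) (nat_lit 9) (.e (nat_lit 426018) (nat_lit 0) (.e (nat_lit 2398) (nat_lit 157) (.e (nat_lit 4761) (nat_lit 281) (.e (nat_lit 2463) (nat_lit 157) (.e (nat_lit 2666) (nat_lit 167) .nil))))))))) (.g (nat_lit 1) (.e (nat_lit 215782) (nat_lit 0) .nil) .nil))))) 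
(.nd (nat_lit 8) (.nd (nat_lit 9) 
(.lf (nat_lit 516255) (.g (nat_lit 2178) (.e (nat_lit 196656) (nat_lit 11) (.e (nat_lit 16463) (nat_lit 13) (.e (nat_lit 483341) (nat_lit 9) (.e (nat_lit 426003) (nat_lit 0) .nil)))) (.g (nat_lit 0) (.e (nat_lit 214666) (nat_lit 0) .nil) .nil))) 
(.lf (nat_lit 516767) (.g (nat_lit 3853) (.e (nat_lit 196666) (nat_lit 13) (.e (nat_lit 65610) (nat_lit 10) (.e (nat_lit 344117) (nat_lit 21) (.e (nat_lit 516139) (nat_lit 7) (.e (nat_lit 409619) (nat_lit 10) (.e (nat_lit 5612) (nat_lit 312) (.e (nat_lit 2668) (nat_lit 167) .nil))))))) (.g (nat_lit 1) (.e (nat_lit 215652) (nat_lit 0) .nil) .nil)))) (.nd (nat_lit 9) 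
(.lf (nat_lit 516511) (.g (nat_lit 1441) (.e (nat_lit 196665) (nat_lit 13) (.e (nat_lit 65637) (nat_lit 15) (.e (nat_lit 3253) (nat_lit 197) (.e (nat_lit 532503) (nat_lit 1) (.e (nat_lit 57848) (nat_lit 252) .nil))))) (.g (nat_lit 0) (.e (nat_lit 215050) (nat_lit 0) .nil) .nil))) 
(.lf (nat_lit 517023) (.g (nat_lit 2551) (.e (nat_lit 196666) (nat_lit 13) (.e (nat_lit 65610) (nat_lit 10) (.e (nat_lit 344117) (nat_lit 21) (.e (nat_lit 516151) (nat_lit 9) (.e (nat_lit 426022) (nat_lit 0) (.e (nat_lit 7936) (nat_lit 208) (.e (nat_lit 622622) (nat_lit 13) (.e (nat_lit 2654) (nat_lit 167) .nil)))))))) (.g (nat_lit 1) (.e (nat_lit 215910) (nat_lit 0) .nil) .nil)))))) 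
(.nd (nat_lit 7) (.nd (nat_lit 8) (.nd (nat_lit 9) 
(.lf (nat_lit 516191) (.g (nat_lit 2382) (.e (nat_lit 196656) (nat_lit 11) (.e (nat_lit 16432) (nat_lit 9) (.e (nat_lit 426566) (nat_lit 34) (.e (nat_lit 393254) (nat_lit 18) (.e (nat_lit 164329) (nat_lit 230) .nil))))) (.g (nat_lit 0) (.e (nat_lit 214488) (nat_lit 0) .nil) .nil))) 
(.lf (nat_lit 516703) (.g (nat_lit 2751) (.e (nat_lit 196666) (nat_lit 13) (.e (nat_lit 65610) (nat_lit 10) (.e (nat_lit 344117) (nat_lit 21) (.e (nat_lit 516106) (nat_lit 0) (.e (nat_lit 7014) (nat_lit 377) (.e (nat_lit 2505) (nat_lit 157) (.e (nat_lit 5626) (nat_lit 312) (.e (nat_lit 2668) (nat_lit 167) .nil)))))))) (.g (nat_lit 1) (.e (nat_lit 215518) (nat_lit 0) .nil) .nil)))) 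
(.nd (nat_lit 9) 
(.lf (nat_lit 516447) (.g (nat_lit 1971) (.e (nat_lit 196665) (nat_lit 13) (.e (nat_lit 65569) (nat_lit 3) (.e (nat_lit 98342) (nat_lit 20) (.e (nat_lit 221214) (nat_lit 23) (.e (nat_lit 204830) (nat_lit 18) .nil))))) (.g (nat_lit 0) (.e (nat_lit 214949) (nat_lit 0) .nil) .nil))) 
(.lf (nat_lit 516959) (.g (nat_lit 4297) (.e (nat_lit 196666) (nat_lit 13) (.e (nat_lit 65610) (nat_lit 10) (.e (nat_lit 344117) (nat_lit 21) (.e (nat_lit 516151) (nat_lit 9) (.e (nat_lit 426020) (nat_lit 0) (.e (nat_lit 3373) (nat_lit 208) (.e (nat_lit 622620) (nat_lit 13) (.e (nat_lit 2663) (nat_lit 167) .nil)))))))) (.g (nat_lit 1) (.e (nat_lit 215846) (nat_lit 0) .nil) .nil))))) 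
(.nd (nat_lit 8) (.nd (nat_lit 9) 
(.lf (nat_lit 516319) (.g (nat_lit 970) (.e (nat_lit 196663) (nat_lit 13) (.e (nat_lit 65571) (nat_lit 3) (.e (nat_lit 98309) (nat_lit 0) .nil))) (.g (nat_lit 0) (.e (nat_lit 214781) (nat_lit 0) .nil) .nil))) 
(.lf (nat_lit 516831) (.g (nat_lit 3261) (.e (nat_lit 196666) (nat_lit 13) (.e (nat_lit 65610) (nat_lit 10) (.e (nat_lit 344117) (nat_lit 21) (.e (nat_lit 516151) (nat_lit 9) (.e (nat_lit 426017) (nat_lit 0) (.e (nat_lit 2411) (nat_lit 157) (.e (nat_lit 4829) (nat_lit 281) (.e (nat_lit 2416) (nat_lit 157) (.e (nat_lit 2666) (nat_lit 167) .nil))))))))) (.g (nat_lit 1) (.e (nat_lit 215718) (nat_lit 0) .nil) .nil)))) 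
(.nd (nat_lit 9) 
(.lf (nat_lit 516575) (.g (nat_lit 314) (.e (nat_lit 196666) (nat_lit 13) (.e (nat_lit 65599) (nat_lit 9) (.e (nat_lit 336267) (nat_lit 15) .nil))) (.g (nat_lit 0) (.e (nat_lit 215263) (nat_lit 0) .nil) .nil))) 
(.lf (nat_lit 517087) (.g (nat_lit 4699) (.e (nat_lit 196666) (nat_lit 13) (.e (nat_lit 65610) (nat_lit 10) (.e (nat_lit 344117) (nat_lit 21) (.e (nat_lit 516151) (nat_lit 9) (.e (nat_lit 426037) (nat_lit 0) (.e (nat_lit 2416) (nat_lit 157) (.e (nat_lit 4849) (nat_lit 285) (.e (nat_lit 163870) (nat_lit 2) .nil)))))))) (.g (nat_lit 1) (.e (nat_lit 215974) (nat_lit 0) .nil) .nil))))))) 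
(.nd (nat_lit 6) (.nd (nat_lit 7) (.nd (nat_lit 8) (.nd (nat_lit 9) 
(.lf (nat_lit 516159) (.g (nat_lit 2169) (.e (nat_lit 196656) (nat_lit 11) (.e (nat_lit 16405) (nat_lit 1) (.e (nat_lit 164398) (nat_lit 256) (.e (nat_lit 57406) (nat_lit 12) (.e (nat_lit 336444) (nat_lit 32) .nil))))) (.g (nat_lit 0) (.e (nat_lit 214426) (nat_lit 0) .nil) .nil))) 
(.lf (nat_lit 516671) (.g (nat_lit 2584) (.e (nat_lit 196666) (nat_lit 13) (.e (nat_lit 65610) (nat_lit 10) (.e (nat_lit 344117) (nat_lit 21) (.e (nat_lit 516106) (nat_lit 0) (.e (nat_lit 2505) (nat_lit 157) .nil))))) (.g (nat_lit 0) (.e (nat_lit 215443) (nat_lit 0) .nil) .nil)))) (.nd (nat_lit 9) 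
(.lf (nat_lit 516415) (.g (nat_lit 2343) (.e (nat_lit 196664) (nat_lit 13) (.e (nat_lit 65571) (nat_lit 3) (.e (nat_lit 98341) (nat_lit 20) (.e (nat_lit 221214) (nat_lit 23) (.e (nat_lit 204829) (nat_lit 18) (.e (nat_lit 57927) (nat_lit 282) (.e (nat_lit 163866) (nat_lit 2) .nil))))))) (.g (nat_lit 1) (.e (nat_lit 214909) (nat_lit 0) .nil) .nil))) 
(.lf (nat_lit 516927) (.g (nat_lit 3700) (.e (nat_lit 196666) (nat_lit 13) (.e (nat_lit 65610) (nat_lit 10) (.e (nat_lit 344117) (nat_lit 21) (.e (nat_lit 516151) (nat_lit 9) (.e (nat_lit 426020) (nat_lit 0) (.e (nat_lit 2418) (nat_lit 157) (.e (nat_lit 4849) (nat_lit 285) (.e (nat_lit 163870) (nat_lit 2) .nil)))))))) (.g (nat_lit 1) (.e (nat_lit 215814) (nat_lit 0) .nil) .nil))))) 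
(.nd (nat_lit 8) (.nd (nat_lit 9) 
(.lf (nat_lit 516287) (.g (nat_lit 1514) (.e (nat_lit 196661) (nat_lit 12) (.e (nat_lit 57711) (nat_lit 176) (.e (nat_lit 1370) (nat_lit 103) (.e (nat_lit 294931) (nat_lit 3) (.e (nat_lit 98369) (nat_lit 28) .nil))))) (.g (nat_lit 0) (.e (nat_lit 214727) (nat_lit 0) .nil) .nil))) 
(.lf (nat_lit 516799) (.g (nat_lit 4326) (.e (nat_lit 196666) (nat_lit 13) (.e (nat_lit 65610) (nat_lit 10) (.e (nat_lit 344117) (nat_lit 21) (.e (nat_lit 516151) (nat_lit 9) (.e (nat_lit 426017) (nat_lit 0) (.e (nat_lit 2401) (nat_lit 157) (.e (nat_lit 4825) (nat_lit 281) (.e (nat_lit 2477) (nat_lit 157) (.e (nat_lit 2663) (nat_lit 167) .nil))))))))) (.g (nat_lit 1) (.e (nat_lit 215686) (nat_lit 0) .nil) .nil)))) 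
(.nd (nat_lit 9) 
(.lf (nat_lit 516543) (.g (nat_lit 4699) (.e (nat_lit 196666) (nat_lit 13) (.e (nat_lit 65571) (nat_lit 3) (.e (nat_lit 98334) (nat_lit 18) (.e (nat_lit 164183) (nat_lit 154) (.e (nat_lit 57378) (nat_lit 3) (.e (nat_lit 98338) (nat_lit 19) (.e (nat_lit 213013) (nat_lit 9) (.e (nat_lit 2666) (nat_lit 167) .nil)))))))) (.g (nat_lit 1) (.e (nat_lit 215189) (nat_lit 0) .nil) .nil))) 
(.lf (nat_lit 517055) (.g (nat_lit 4253) (.e (nat_lit 196666) (nat_lit 13) (.e (nat_lit 65610) (nat_lit 10) (.e (nat_lit 344117) (nat_lit 21) (.e (nat_lit 516151) (nat_lit 9) (.e (nat_lit 426034) (nat_lit 0) (.e (nat_lit 2425) (nat_lit 157) (.e (nat_lit 7936) (nat_lit 285) (.e (nat_lit 163870) (nat_lit 2) .nil)))))))) (.g (nat_lit 1) (.e (nat_lit 215942) (nat_lit 0) .nil) .nil)))))) 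
(.nd (nat_lit 7) (.nd (nat_lit 8) (.nd (nat_lit 9) 
(.lf (nat_lit 516223) (.g (nat_lit 2913) (.e (nat_lit 196656) (nat_lit 11) (.e (nat_lit 16438) (nat_lit 9) (.e (nat_lit 426482) (nat_lit 27) (.e (nat_lit 336389) (nat_lit 27) (.e (nat_lit 426099) (nat_lit 1) .nil))))) (.g (nat_lit 0) (.e (nat_lit 214529) (nat_lit 0) .nil) .nil))) 
(.lf (nat_lit 516735) (.g (nat_lit 1181) (.e (nat_lit 196666) (nat_lit 13) (.e (nat_lit 65610) (nat_lit 10) (.e (nat_lit 344117) (nat_lit 21) (.e (nat_lit 516116) (nat_lit 1) .nil)))) (.g (nat_lit 0) (.e (nat_lit 215595) (nat_lit 0) .nil) .nil)))) (.nd (nat_lit 9) 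
(.lf (nat_lit 516479) (.g (nat_lit 1213) (.e (nat_lit 196665) (nat_lit 13) (.e (nat_lit 65623) (nat_lit 12) (.e (nat_lit 385067) (nat_lit 26) (.e (nat_lit 532508) (nat_lit 2) (.e (nat_lit 106534) (nat_lit 11) .nil))))) (.g (nat_lit 0) (.e (nat_lit 215006) (nat_lit 0) .nil) .nil))) 
(.lf (nat_lit 516991) (.g (nat_lit 5065) (.e (nat_lit 196666) (nat_lit 13) (.e (nat_lit 65610) (nat_lit 10) (.e (nat_lit 344117) (nat_lit 21) (.e (nat_lit 516151) (nat_lit 9) (.e (nat_lit 426021) (nat_lit 0) (.e (nat_lit 3368) (nat_lit 208) (.e (nat_lit 622626) (nat_lit 13) (.e (nat_lit 2663) (nat_lit 167) .nil)))))))) (.g (nat_lit 1) (.e (nat_lit 215878) (nat_lit 0) .nil) .nil))))) 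
(.nd (nat_lit 8) (.nd (nat_lit 9) 
(.lf (nat_lit 516351) (.g (nat_lit 2958) (.e (nat_lit 196663) (nat_lit 13) (.e (nat_lit 65610) (nat_lit 10) (.e (nat_lit 344117) (nat_lit 21) (.e (nat_lit 516106) (nat_lit 0) (.e (nat_lit 7936) (nat_lit 377) .nil))))) (.g (nat_lit 0) (.e (nat_lit 214828) (nat_lit 0) .nil) .nil))) 
(.lf (nat_lit 516863) (.g (nat_lit 5111) (.e (nat_lit 196666) (nat_lit 13) (.e (nat_lit 65610) (nat_lit 10) (.e (nat_lit 344117) (nat_lit 21) (.e (nat_lit 516151) (nat_lit 9) (.e (nat_lit 426017) (nat_lit 0) (.e (nat_lit 3367) (nat_lit 208) (.e (nat_lit 622625) (nat_lit 13) (.e (nat_lit 2663) (nat_lit 167) .nil)))))))) (.g (nat_lit 1) (.e (nat_lit 215750) (nat_lit 0) .nil) .nil)))) 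
(.nd (nat_lit 9) 
(.lf (nat_lit 516607) (.g (nat_lit 3286) (.e (nat_lit 196666) (nat_lit 13) (.e (nat_lit 65610) (nat_lit 10) (.e (nat_lit 344117) (nat_lit 21) (.e (nat_lit 516097) (nat_lit 0) (.e (nat_lit 3335) (nat_lit 205) (.e (nat_lit 598059) (nat_lit 16) (.e (nat_lit 172064) (nat_lit 2) .nil))))))) (.g (nat_lit 1) (.e (nat_lit 215345) (nat_lit 0) .nil) .nil))) 
(.lf (nat_lit 517119) (.g (nat_lit 3353) (.e (nat_lit 196666) (nat_lit 13) (.e (nat_lit 65610) (nat_lit 10) (.e (nat_lit 344117) (nat_lit 21) (.e (nat_lit 516151) (nat_lit 9) (.e (nat_lit 426037) (nat_lit 0) (.e (nat_lit 3369) (nat_lit 208) (.e (nat_lit 622621) (nat_lit 13) (.e (nat_lit 2668) (nat_lit 167) .nil)))))))) (.g (nat_lit 1) (.e (nat_lit 216006) (nat_lit 0) .nil) .nil)))))))))))))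


end

end Pool.Agent.Lib.MP_5854e1_co.Cz
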