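import Pool.Agent.Lib.MP_5854e1_co.DtD

/-!
# Windows and cells of the rings
-/

set_option autoImplicit false
set_option maxRecDepth 100000
set_option deprecated.oldSectionVars true

namespace Pool.Agent.Lib.MP_5854e1_co.Cz

open Pool.Agent.Lib.MP_5854e1_co

noncomputable section

noncomputable def tv5570 : DT := (.nd (nat_lit 0) (.nd (nat_lit 1) (.nd (nat_lit 2) (.nd (nat_lit 3) (.nd (nat_lit 4) (.nd (nat_lit 5) (.nd (nat_lit 6) (.nd (nat_lit 7) (.nd (nat_lit 8) (.nd (nat_lit 9) 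
(.lf (nat_lit 522240) (.g (nat_lit 2295) (.e (nat_lit 204850) (nat_lit 26) (.e (nat_lit 336013) (nat_lit 2) (.e (nat_lit 90165) (nat_lit 12) (.e (nat_lit 163849) (nat_lit 0) .nil)))) (.g (nat_lit 0) (.e (nat_lit 226715) (nat_lit 0) .nil) .nil))) 
(.lf (nat_lit 522752) (.g (nat_lit 1860) (.e (nat_lit 204858) (nat_lit 26) (.e (nat_lit 336228) (nat_lit 14) (.e (nat_lit 401425) (nat_lit 2) (.e (nat_lit 196668) (nat_lit 14) (.e (nat_lit 73782) (nat_lit 32) (.e (nat_lit 2681) (nat_lit 168) .nil)))))) (.g (nat_lit 1) (.e (nat_lit 228436) (nat_lit 0) .nil) .nil)))) (.nd (nat_lit 9) 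
(.lf (nat_lit 522496) (.g (nat_lit 1842) (.e (nat_lit 204853) (nat_lit 26) (.e (nat_lit 336324) (nat_lit 18) (.e (nat_lit 204854) (nat_lit 26) (.e (nat_lit 336316) (nat_lit 17) (.e (nat_lit 196664) (nat_lit 13) .nil))))) (.g (nat_lit 0) (.e (nat_lit 227439) (nat_lit 0) .nil) .nil))) 
(.lf (nat_lit 523008) (.g (nat_lit 1725) (.e (nat_lit 204861) (nat_lit 26) (.e (nat_lit 336213) (nat_lit 13) (.e (nat_lit 393225) (nat_lit 9) (.e (nat_lit 335893) (nat_lit 0) .nil)))) (.g (nat_lit 0) (.e (nat_lit 228980) (nat_lit 0) .nil) .nil))))) (.nd (nat_lit 8) (.nd (nat_lit 9) 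
(.lf (nat_lit 522368) (.g (nat_lit 1735) (.e (nat_lit 204852) (nat_lit 26) (.e (nat_lit 336324) (nat_lit 18) (.e (nat_lit 204881) (nat_lit 32) (.e (nat_lit 385066) (nat_lit 26) (.e (nat_lit 532532) (nat_lit 9) (.e (nat_lit 336322) (nat_lit 18) .nil)))))) (.g (nat_lit 1) (.e (nat_lit 227073) (nat_lit 0) .nil) .nil))) 
(.lf (nat_lit 522880) (.g (nat_lit 2774) (.e (nat_lit 204861) (nat_lit 26) (.e (nat_lit 336076) (nat_lit 9) (.e (nat_lit 336454) (nat_lit 34) (.e (nat_lit 483363) (nat_lit 18) (.e (nat_lit 57929) (nat_lit 282) (.e (nat_lit 163874) (nat_lit 3) .nil)))))) (.g (nat_lit 1) (.e (nat_lit 228749) (nat_lit 0) .nil) .nil)))) (.nd (nat_lit 9) 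
(.lf (nat_lit 522624) (.g (nat_lit 423) (.e (nat_lit 204855) (nat_lit 26) (.e (nat_lit 336061) (nat_lit 7) (.e (nat_lit 319499) (nat_lit 10) .nil))) (.g (nat_lit 0) (.e (nat_lit 227828) (nat_lit 0) .nil) .nil))) 
(.lf (nat_lit 523136) (.g (nat_lit 2678) (.e (nat_lit 204862) (nat_lit 27) (.e (nat_lit 344117) (nat_lit 21) (.e (nat_lit 516195) (nat_lit 26) (.e (nat_lit 336027) (nat_lit 3) (.e (nat_lit 98331) (nat_lit 17) .nil))))) (.g (nat_lit 0) (.e (nat_lit 229194) (nat_lit 0) .nil) .nil)))))) (.nd (nat_lit 7) (.nd (nat_lit 8) (.nd (nat_lit 9) 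
(.lf (nat_lit 522304) (.g (nat_lit 3486) (.e (nat_lit 204851) (nat_lit 26) (.e (nat_lit 336324) (nat_lit 18) (.e (nat_lit 204882) (nat_lit 32) (.e (nat_lit 385066) (nat_lit 26) (.e (nat_lit 532534) (nat_lit 9) (.e (nat_lit 336326) (nat_lit 18) .nil)))))) (.g (nat_lit 1) (.e (nat_lit 226849) (nat_lit 0) .nil) .nil))) 
(.lf (nat_lit 522816) (.g (nat_lit 776) (.e (nat_lit 204861) (nat_lit 26) (.e (nat_lit 336012) (nat_lit 2) (.e (nat_lit 90162) (nat_lit 12) .nil))) (.g (nat_lit 0) (.e (nat_lit 228633) (nat_lit 0) .nil) .nil)))) (.nd (nat_lit 9) 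
(.lf (nat_lit 522560) (.g (nat_lit 326) (.e (nat_lit 204854) (nat_lit 26) (.e (nat_lit 336211) (nat_lit 13) (.e (nat_lit 393253) (nat_lit 18) .nil))) (.g (nat_lit 0) (.e (nat_lit 227661) (nat_lit 0) .nil) .nil))) 
(.lf (nat_lit 523072) (.g (nat_lit 2050) (.e (nat_lit 204862) (nat_lit 27) (.e (nat_lit 344117) (nat_lit 21) (.e (nat_lit 516116) (nat_lit 1) (.e (nat_lit 164180) (nat_lit 154) .nil)))) (.g (nat_lit 0) (.e (nat_lit 229103) (nat_lit 0) .nil) .nil))))) (.nd (nat_lit 8) (.nd (nat_lit 9) 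
(.lf (nat_lit 522432) (.g (nat_lit 2714) (.e (nat_lit 204852) (nat_lit 26) (.e (nat_lit 336326) (nat_lit 18) (.e (nat_lit 204881) (nat_lit 32) (.e (nat_lit 385066) (nat_lit 26) (.e (nat_lit 532530) (nat_lit 9) (.e (nat_lit 336324) (nat_lit 18) .nil)))))) (.g (nat_lit 1) (.e (nat_lit 227287) (nat_lit 0) .nil) .nil))) 
(.lf (nat_lit 522944) (.g (nat_lit 3935) (.e (nat_lit 204861) (nat_lit 26) (.e (nat_lit 336186) (nat_lit 11) (.e (nat_lit 368676) (nat_lit 21) (.e (nat_lit 516185) (nat_lit 16) (.e (nat_lit 491572) (nat_lit 14) (.e (nat_lit 401427) (nat_lit 3) .nil)))))) (.g (nat_lit 1) (.e (nat_lit 228847) (nat_lit 0) .nil) .nil)))) (.nd (nat_lit 9) 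
(.lf (nat_lit 522688) (.g (nat_lit 3048) (.e (nat_lit 204855) (nat_lit 26) (.e (nat_lit 336176) (nat_lit 10) (.e (nat_lit 344130) (nat_lit 26) (.e (nat_lit 557090) (nat_lit 12) (.e (nat_lit 164016) (nat_lit 44) (.e (nat_lit 688138) (nat_lit 5) (.e (nat_lit 2887) (nat_lit 184) (.e (nat_lit 426134) (nat_lit 3) .nil)))))))) (.g (nat_lit 1) (.e (nat_lit 228161) (nat_lit 0) .nil) .nil))) 
(.lf (nat_lit 523200) (.g (nat_lit 3092) (.e (nat_lit 204862) (nat_lit 27) (.e (nat_lit 344129) (nat_lit 26) (.e (nat_lit 557103) (nat_lit 14) (.e (nat_lit 180250) (nat_lit 10) (.e (nat_lit 573476) (nat_lit 12) (.e (nat_lit 57511) (nat_lit 39) (.e (nat_lit 655104) (nat_lit 0) (.e (nat_lit 2684) (nat_lit 168) .nil)))))))) (.g (nat_lit 1) (.e (nat_lit 229272) (nat_lit 0) .nil) .nil))))))) 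
(.nd (nat_lit 6) (.nd (nat_lit 7) (.nd (nat_lit 8) (.nd (nat_lit 9) 
(.lf (nat_lit 522272) (.g (nat_lit 4279) (.e (nat_lit 204850) (nat_lit 26) (.e (nat_lit 336324) (nat_lit 18) (.e (nat_lit 204831) (nat_lit 18) (.e (nat_lit 57849) (nat_lit 252) .nil)))) (.g (nat_lit 0) (.e (nat_lit 226780) (nat_lit 0) .nil) .nil))) 
(.lf (nat_lit 522784) (.g (nat_lit 1879) (.e (nat_lit 204859) (nat_lit 26) (.e (nat_lit 336323) (nat_lit 18) (.e (nat_lit 204882) (nat_lit 32) (.e (nat_lit 385066) (nat_lit 26) (.e (nat_lit 532532) (nat_lit 9) (.e (nat_lit 336326) (nat_lit 18) .nil)))))) (.g (nat_lit 1) (.e (nat_lit 228499) (nat_lit 0) .nil) .nil)))) (.nd (nat_lit 9) 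
(.lf (nat_lit 522528) (.g (nat_lit 3089) (.e (nat_lit 204853) (nat_lit 26) (.e (nat_lit 336336) (nat_lit 20) (.e (nat_lit 221210) (nat_lit 22) (.e (nat_lit 196656) (nat_lit 11) (.e (nat_lit 16436) (nat_lit 9) (.e (nat_lit 426131) (nat_lit 3) .nil)))))) (.g (nat_lit 1) (.e (nat_lit 227522) (nat_lit 0) .nil) .nil))) 
(.lf (nat_lit 523040) (.g (nat_lit 3133) (.e (nat_lit 212736) (nat_lit 26) (.e (nat_lit 336099) (nat_lit 9) (.e (nat_lit 336013) (nat_lit 2) (.e (nat_lit 90179) (nat_lit 16) .nil)))) (.g (nat_lit 0) (.e (nat_lit 229035) (nat_lit 0) .nil) .nil))))) (.nd (nat_lit 8) (.nd (nat_lit 9) 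
(.lf (nat_lit 522400) (.g (nat_lit 1813) (.e (nat_lit 204852) (nat_lit 26) (.e (nat_lit 336326) (nat_lit 18) (.e (nat_lit 204852) (nat_lit 26) (.e (nat_lit 336316) (nat_lit 17) (.e (nat_lit 196630) (nat_lit 9) .nil))))) (.g (nat_lit 0) (.e (nat_lit 227175) (nat_lit 0) .nil) .nil))) 
(.lf (nat_lit 522912) (.g (nat_lit 2385) (.e (nat_lit 204861) (nat_lit 26) (.e (nat_lit 336107) (nat_lit 9) (.e (nat_lit 336028) (nat_lit 3) (.e (nat_lit 98350) (nat_lit 24) (.e (nat_lit 409646) (nat_lit 18) .nil))))) (.g (nat_lit 0) (.e (nat_lit 228794) (nat_lit 0) .nil) .nil)))) (.nd (nat_lit 9) 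
(.lf (nat_lit 522656) (.g (nat_lit 3759) (.e (nat_lit 204855) (nat_lit 26) (.e (nat_lit 336163) (nat_lit 10) (.e (nat_lit 344117) (nat_lit 21) (.e (nat_lit 516139) (nat_lit 7) (.e (nat_lit 409647) (nat_lit 18) (.e (nat_lit 303118) (nat_lit 3) .nil)))))) (.g (nat_lit 1) (.e (nat_lit 227950) (nat_lit 0) .nil) .nil))) 
(.lf (nat_lit 523168) (.g (nat_lit 3074) (.e (nat_lit 204862) (nat_lit 27) (.e (nat_lit 344129) (nat_lit 26) (.e (nat_lit 557097) (nat_lit 13) (.e (nat_lit 172133) (nat_lit 15) (.e (nat_lit 1800) (nat_lit 119) (.e (nat_lit 516119) (nat_lit 1) (.e (nat_lit 164345) (nat_lit 240) (.e (nat_lit 2426) (nat_lit 157) (.e (nat_lit 2678) (nat_lit 168) .nil))))))))) (.g (nat_lit 1) (.e (nat_lit 229239) (nat_lit 0) .nil) .nil)))))) 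
(.nd (nat_lit 7) (.nd (nat_lit 8) (.nd (nat_lit 9) 
(.lf (nat_lit 522336) (.g (nat_lit 3321) (.e (nat_lit 204852) (nat_lit 26) (.e (nat_lit 336324) (nat_lit 18) (.e (nat_lit 204831) (nat_lit 18) (.e (nat_lit 57852) (nat_lit 252) (.e (nat_lit 57377) (nat_lit 3) .nil))))) (.g (nat_lit 0) (.e (nat_lit 226994) (nat_lit 0) .nil) .nil))) 
(.lf (nat_lit 522848) (.g (nat_lit 3256) (.e (nat_lit 204861) (nat_lit 26) (.e (nat_lit 336075) (nat_lit 9) (.e (nat_lit 336370) (nat_lit 27) (.e (nat_lit 426499) (nat_lit 27) (.e (nat_lit 335986) (nat_lit 1) (.e (nat_lit 57927) (nat_lit 282) (.e (nat_lit 163874) (nat_lit 3) .nil))))))) (.g (nat_lit 1) (.e (nat_lit 228688) (nat_lit 0) .nil) .nil)))) (.nd (nat_lit 9) 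
(.lf (nat_lit 522592) (.g (nat_lit 1939) (.e (nat_lit 204854) (nat_lit 26) (.e (nat_lit 336326) (nat_lit 18) (.e (nat_lit 204854) (nat_lit 26) (.e (nat_lit 336240) (nat_lit 15) .nil)))) (.g (nat_lit 0) (.e (nat_lit 227746) (nat_lit 0) .nil) .nil))) 
(.lf (nat_lit 523104) (.g (nat_lit 1618) (.e (nat_lit 204862) (nat_lit 27) (.e (nat_lit 344117) (nat_lit 21) (.e (nat_lit 516129) (nat_lit 3) (.e (nat_lit 229120) (nat_lit 3) .nil)))) (.g (nat_lit 0) (.e (nat_lit 229149) (nat_lit 0) .nil) .nil))))) (.nd (nat_lit 8) (.nd (nat_lit 9) 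
(.lf (nat_lit 522464) (.g (nat_lit 1522) (.e (nat_lit 204853) (nat_lit 26) (.e (nat_lit 336019) (nat_lit 3) (.e (nat_lit 98341) (nat_lit 20) (.e (nat_lit 221214) (nat_lit 23) .nil)))) (.g (nat_lit 0) (.e (nat_lit 227404) (nat_lit 0) .nil) .nil))) 
(.lf (nat_lit 522976) (.g (nat_lit 3228) (.e (nat_lit 204861) (nat_lit 26) (.e (nat_lit 336194) (nat_lit 12) (.e (nat_lit 385068) (nat_lit 26) (.e (nat_lit 532515) (nat_lit 3) (.e (nat_lit 114694) (nat_lit 11) (.e (nat_lit 426139) (nat_lit 3) .nil)))))) (.g (nat_lit 1) (.e (nat_lit 228916) (nat_lit 0) .nil) .nil)))) (.nd (nat_lit 9) 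
(.lf (nat_lit 522720) (.g (nat_lit 3082) (.e (nat_lit 204855) (nat_lit 26) (.e (nat_lit 336176) (nat_lit 10) (.e (nat_lit 344133) (nat_lit 26) (.e (nat_lit 557091) (nat_lit 12) (.e (nat_lit 164017) (nat_lit 44) (.e (nat_lit 688139) (nat_lit 5) (.e (nat_lit 2887) (nat_lit 184) (.e (nat_lit 426134) (nat_lit 3) .nil)))))))) (.g (nat_lit 1) (.e (nat_lit 228308) (nat_lit 0) .nil) .nil))) 
(.lf (nat_lit 523232) (.g (nat_lit 3421) (.e (nat_lit 204862) (nat_lit 27) (.e (nat_lit 344129) (nat_lit 26) (.e (nat_lit 557105) (nat_lit 14) (.e (nat_lit 180252) (nat_lit 10) (.e (nat_lit 573474) (nat_lit 12) .nil))))) (.g (nat_lit 0) (.e (nat_lit 229305) (nat_lit 0) .nil) .nil)))))))) (.nd (nat_lit 5) (.nd (nat_lit 6) (.nd (nat_lit 7) (.nd (nat_lit 8) (.nd (nat_lit 9) 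
(.lf (nat_lit 522256) (.g (nat_lit 2145) (.e (nat_lit 204850) (nat_lit 26) (.e (nat_lit 336205) (nat_lit 12) (.e (nat_lit 385068) (nat_lit 26) (.e (nat_lit 532513) (nat_lit 3) (.e (nat_lit 122624) (nat_lit 11) (.e (nat_lit 426140) (nat_lit 3) .nil)))))) (.g (nat_lit 1) (.e (nat_lit 226755) (nat_lit 0) .nil) .nil))) 
(.lf (nat_lit 522768) (.g (nat_lit 1053) (.e (nat_lit 204859) (nat_lit 26) (.e (nat_lit 336206) (nat_lit 12) (.e (nat_lit 385067) (nat_lit 26) (.e (nat_lit 532510) (nat_lit 2) (.e (nat_lit 106534) (nat_lit 11) .nil))))) (.g (nat_lit 0) (.e (nat_lit 228468) (nat_lit 0) .nil) .nil)))) (.nd (nat_lit 9) 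
(.lf (nat_lit 522512) (.g (nat_lit 2907) (.e (nat_lit 204853) (nat_lit 26) (.e (nat_lit 336324) (nat_lit 18) (.e (nat_lit 204880) (nat_lit 32) (.e (nat_lit 385068) (nat_lit 26) (.e (nat_lit 532530) (nat_lit 9) (.e (nat_lit 336324) (nat_lit 18) .nil)))))) (.g (nat_lit 1) (.e (nat_lit 227456) (nat_lit 0) .nil) .nil))) 
(.lf (nat_lit 523024) (.g (nat_lit 2347) (.e (nat_lit 204861) (nat_lit 26) (.e (nat_lit 336220) (nat_lit 13) (.e (nat_lit 393229) (nat_lit 9) (.e (nat_lit 335996) (nat_lit 1) (.e (nat_lit 57931) (nat_lit 282) .nil))))) (.g (nat_lit 0) (.e (nat_lit 229007) (nat_lit 0) .nil) .nil))))) (.nd (nat_lit 8) (.nd (nat_lit 9) 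
(.lf (nat_lit 522384) (.g (nat_lit 2850) (.e (nat_lit 204852) (nat_lit 26) (.e (nat_lit 336324) (nat_lit 18) (.e (nat_lit 204882) (nat_lit 32) (.e (nat_lit 385068) (nat_lit 26) (.e (nat_lit 532528) (nat_lit 9) (.e (nat_lit 336324) (nat_lit 18) .nil)))))) (.g (nat_lit 1) (.e (nat_lit 227097) (nat_lit 0) .nil) .nil))) 
(.lf (nat_lit 522896) (.g (nat_lit 3496) (.e (nat_lit 204861) (nat_lit 26) (.e (nat_lit 336078) (nat_lit 9) (.e (nat_lit 336324) (nat_lit 18) (.e (nat_lit 204837) (nat_lit 20) (.e (nat_lit 114698) (nat_lit 11) (.e (nat_lit 426133) (nat_lit 3) .nil)))))) (.g (nat_lit 1) (.e (nat_lit 228775) (nat_lit 0) .nil) .nil)))) (.nd (nat_lit 9) 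
(.lf (nat_lit 522640) (.g (nat_lit 3372) (.e (nat_lit 204855) (nat_lit 26) (.e (nat_lit 336099) (nat_lit 9) (.e (nat_lit 336013) (nat_lit 2) (.e (nat_lit 90165) (nat_lit 12) (.e (nat_lit 164209) (nat_lit 176) .nil))))) (.g (nat_lit 0) (.e (nat_lit 227898) (nat_lit 0) .nil) .nil))) 
(.lf (nat_lit 523152) (.g (nat_lit 1486) (.e (nat_lit 204862) (nat_lit 27) (.e (nat_lit 344129) (nat_lit 26) (.e (nat_lit 557096) (nat_lit 13) (.e (nat_lit 179968) (nat_lit 18) .nil)))) (.g (nat_lit 0) (.e (nat_lit 229223) (nat_lit 0) .nil) .nil)))))) (.nd (nat_lit 7) (.nd (nat_lit 8) (.nd (nat_lit 9) 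
(.lf (nat_lit 522320) (.g (nat_lit 626) (.e (nat_lit 204852) (nat_lit 26) (.e (nat_lit 336316) (nat_lit 17) (.e (nat_lit 196662) (nat_lit 13) (.e (nat_lit 73472) (nat_lit 18) .nil)))) (.g (nat_lit 0) (.e (nat_lit 226942) (nat_lit 0) .nil) .nil))) 
(.lf (nat_lit 522832) (.g (nat_lit 2537) (.e (nat_lit 204861) (nat_lit 26) (.e (nat_lit 336073) (nat_lit 9) (.e (nat_lit 336028) (nat_lit 3) (.e (nat_lit 98350) (nat_lit 24) (.e (nat_lit 409645) (nat_lit 18) .nil))))) (.g (nat_lit 0) (.e (nat_lit 228666) (nat_lit 0) .nil) .nil)))) (.nd (nat_lit 9) 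
(.lf (nat_lit 522576) (.g (nat_lit 1172) (.e (nat_lit 204854) (nat_lit 26) (.e (nat_lit 336324) (nat_lit 18) (.e (nat_lit 204854) (nat_lit 26) (.e (nat_lit 336316) (nat_lit 17) .nil)))) (.g (nat_lit 0) (.e (nat_lit 227706) (nat_lit 0) .nil) .nil))) 
(.lf (nat_lit 523088) (.g (nat_lit 2472) (.e (nat_lit 204862) (nat_lit 27) (.e (nat_lit 344117) (nat_lit 21) (.e (nat_lit 516116) (nat_lit 1) (.e (nat_lit 164183) (nat_lit 154) (.e (nat_lit 57378) (nat_lit 3) .nil))))) (.g (nat_lit 0) (.e (nat_lit 229130) (nat_lit 0) .nil) .nil))))) (.nd (nat_lit 8) (.nd (nat_lit 9) 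
(.lf (nat_lit 522448) (.g (nat_lit 1918) (.e (nat_lit 204852) (nat_lit 26) (.e (nat_lit 336326) (nat_lit 18) (.e (nat_lit 204882) (nat_lit 32) (.e (nat_lit 385066) (nat_lit 26) (.e (nat_lit 532533) (nat_lit 9) (.e (nat_lit 336322) (nat_lit 18) .nil)))))) (.g (nat_lit 1) (.e (nat_lit 227312) (nat_lit 0) .nil) .nil))) 
(.lf (nat_lit 522960) (.g (nat_lit 3317) (.e (nat_lit 204861) (nat_lit 26) (.e (nat_lit 336194) (nat_lit 12) (.e (nat_lit 385066) (nat_lit 26) (.e (nat_lit 532515) (nat_lit 3) (.e (nat_lit 114694) (nat_lit 11) (.e (nat_lit 426139) (nat_lit 3) .nil)))))) (.g (nat_lit 1) (.e (nat_lit 228882) (nat_lit 0) .nil) .nil)))) (.nd (nat_lit 9) 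
(.lf (nat_lit 522704) (.g (nat_lit 374) (.e (nat_lit 204855) (nat_lit 26) (.e (nat_lit 336176) (nat_lit 10) (.e (nat_lit 344133) (nat_lit 26) .nil))) (.g (nat_lit 0) (.e (nat_lit 228222) (nat_lit 0) .nil) .nil))) 
(.lf (nat_lit 523216) (.g (nat_lit 3118) (.e (nat_lit 204862) (nat_lit 27) (.e (nat_lit 344129) (nat_lit 26) (.e (nat_lit 557104) (nat_lit 14) (.e (nat_lit 180252) (nat_lit 10) (.e (nat_lit 573474) (nat_lit 12) (.e (nat_lit 57507) (nat_lit 39) (.e (nat_lit 647175) (nat_lit 0) (.e (nat_lit 2684) (nat_lit 168) .nil)))))))) (.g (nat_lit 1) (.e (nat_lit 229289) (nat_lit 0) .nil) .nil))))))) 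
(.nd (nat_lit 6) (.nd (nat_lit 7) (.nd (nat_lit 8) (.nd (nat_lit 9) 
(.lf (nat_lit 522288) (.g (nat_lit 3049) (.e (nat_lit 204851) (nat_lit 26) (.e (nat_lit 336019) (nat_lit 3) (.e (nat_lit 98342) (nat_lit 20) (.e (nat_lit 221214) (nat_lit 23) (.e (nat_lit 204830) (nat_lit 18) (.e (nat_lit 57926) (nat_lit 282) (.e (nat_lit 163875) (nat_lit 3) .nil))))))) (.g (nat_lit 1) (.e (nat_lit 226820) (nat_lit 0) .nil) .nil))) 
(.lf (nat_lit 522800) (.g (nat_lit 621) (.e (nat_lit 204861) (nat_lit 26) (.e (nat_lit 335988) (nat_lit 1) (.e (nat_lit 57854) (nat_lit 252) .nil))) (.g (nat_lit 0) (.e (nat_lit 228542) (nat_lit 0) .nil) .nil)))) (.nd (nat_lit 9) 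
(.lf (nat_lit 522544) (.g (nat_lit 2601) (.e (nat_lit 204854) (nat_lit 26) (.e (nat_lit 336019) (nat_lit 3) (.e (nat_lit 98342) (nat_lit 20) (.e (nat_lit 221212) (nat_lit 22) (.e (nat_lit 196677) (nat_lit 16) .nil))))) (.g (nat_lit 0) (.e (nat_lit 227609) (nat_lit 0) .nil) .nil))) 
(.lf (nat_lit 523056) (.g (nat_lit 2293) (.e (nat_lit 204862) (nat_lit 27) (.e (nat_lit 344117) (nat_lit 21) (.e (nat_lit 516115) (nat_lit 1) (.e (nat_lit 164179) (nat_lit 154) (.e (nat_lit 57373) (nat_lit 2) .nil))))) (.g (nat_lit 0) (.e (nat_lit 229074) (nat_lit 0) .nil) .nil))))) (.nd (nat_lit 8) (.nd (nat_lit 9) 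
(.lf (nat_lit 522416) (.g (nat_lit 1645) (.e (nat_lit 204852) (nat_lit 26) (.e (nat_lit 336326) (nat_lit 18) (.e (nat_lit 204879) (nat_lit 32) (.e (nat_lit 385068) (nat_lit 26) (.e (nat_lit 532534) (nat_lit 9) (.e (nat_lit 336324) (nat_lit 18) .nil)))))) (.g (nat_lit 1) (.e (nat_lit 227269) (nat_lit 0) .nil) .nil))) 
(.lf (nat_lit 522928) (.g (nat_lit 1604) (.e (nat_lit 204861) (nat_lit 26) (.e (nat_lit 336186) (nat_lit 11) (.e (nat_lit 368676) (nat_lit 21) (.e (nat_lit 516169) (nat_lit 13) (.e (nat_lit 458774) (nat_lit 18) (.e (nat_lit 5939) (nat_lit 322) (.e (nat_lit 65280) (nat_lit 64) .nil))))))) (.g (nat_lit 1) (.e (nat_lit 228818) (nat_lit 0) .nil) .nil)))) (.nd (nat_lit 9) 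
(.lf (nat_lit 522672) (.g (nat_lit 4134) (.e (nat_lit 204855) (nat_lit 26) (.e (nat_lit 336176) (nat_lit 10) (.e (nat_lit 344117) (nat_lit 21) (.e (nat_lit 516139) (nat_lit 7) (.e (nat_lit 409646) (nat_lit 18) (.e (nat_lit 303118) (nat_lit 3) .nil)))))) (.g (nat_lit 1) (.e (nat_lit 227980) (nat_lit 0) .nil) .nil))) 
(.lf (nat_lit 523184) (.g (nat_lit 2870) (.e (nat_lit 204862) (nat_lit 27) (.e (nat_lit 344129) (nat_lit 26) (.e (nat_lit 557103) (nat_lit 14) (.e (nat_lit 180250) (nat_lit 10) (.e (nat_lit 573474) (nat_lit 12) (.e (nat_lit 57505) (nat_lit 39) (.e (nat_lit 655104) (nat_lit 0) (.e (nat_lit 2684) (nat_lit 168) .nil)))))))) (.g (nat_lit 1) (.e (nat_lit 229256) (nat_lit 0) .nil) .nil)))))) 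
(.nd (nat_lit 7) (.nd (nat_lit 8) (.nd (nat_lit 9) 
(.lf (nat_lit 522352) (.g (nat_lit 2015) (.e (nat_lit 204852) (nat_lit 26) (.e (nat_lit 336324) (nat_lit 18) (.e (nat_lit 204854) (nat_lit 26) (.e (nat_lit 336284) (nat_lit 15) (.e (nat_lit 3249) (nat_lit 197) .nil))))) (.g (nat_lit 0) (.e (nat_lit 227032) (nat_lit 0) .nil) .nil))) 
(.lf (nat_lit 522864) (.g (nat_lit 3196) (.e (nat_lit 204861) (nat_lit 26) (.e (nat_lit 336075) (nat_lit 9) (.e (nat_lit 336456) (nat_lit 34) (.e (nat_lit 483364) (nat_lit 18) (.e (nat_lit 57927) (nat_lit 282) (.e (nat_lit 163875) (nat_lit 3) .nil)))))) (.g (nat_lit 1) (.e (nat_lit 228718) (nat_lit 0) .nil) .nil)))) (.nd (nat_lit 9) 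
(.lf (nat_lit 522608) (.g (nat_lit 3218) (.e (nat_lit 204854) (nat_lit 26) (.e (nat_lit 336326) (nat_lit 18) (.e (nat_lit 204880) (nat_lit 32) (.e (nat_lit 385068) (nat_lit 26) (.e (nat_lit 532534) (nat_lit 9) (.e (nat_lit 336324) (nat_lit 18) .nil)))))) (.g (nat_lit 1) (.e (nat_lit 227785) (nat_lit 0) .nil) .nil))) 
(.lf (nat_lit 523120) (.g (nat_lit 2322) (.e (nat_lit 204862) (nat_lit 27) (.e (nat_lit 344117) (nat_lit 21) (.e (nat_lit 516130) (nat_lit 3) (.e (nat_lit 221215) (nat_lit 23) (.e (nat_lit 204814) (nat_lit 17) .nil))))) (.g (nat_lit 0) (.e (nat_lit 229165) (nat_lit 0) .nil) .nil))))) (.nd (nat_lit 8) (.nd (nat_lit 9) 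
(.lf (nat_lit 522480) (.g (nat_lit 4718) (.e (nat_lit 204853) (nat_lit 26) (.e (nat_lit 336324) (nat_lit 18) (.e (nat_lit 204831) (nat_lit 18) (.e (nat_lit 57852) (nat_lit 252) (.e (nat_lit 57376) (nat_lit 3) .nil))))) (.g (nat_lit 0) (.e (nat_lit 227422) (nat_lit 0) .nil) .nil))) 
(.lf (nat_lit 522992) (.g (nat_lit 1847) (.e (nat_lit 204861) (nat_lit 26) (.e (nat_lit 336195) (nat_lit 12) (.e (nat_lit 385066) (nat_lit 26) (.e (nat_lit 532515) (nat_lit 3) (.e (nat_lit 114698) (nat_lit 11) (.e (nat_lit 426138) (nat_lit 3) .nil)))))) (.g (nat_lit 1) (.e (nat_lit 228950) (nat_lit 0) .nil) .nil)))) (.nd (nat_lit 9) 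
(.lf (nat_lit 522736) (.g (nat_lit 1071) (.e (nat_lit 204855) (nat_lit 26) (.e (nat_lit 336218) (nat_lit 13) (.e (nat_lit 393229) (nat_lit 9) (.e (nat_lit 335986) (nat_lit 1) (.e (nat_lit 57927) (nat_lit 282) .nil))))) (.g (nat_lit 0) (.e (nat_lit 228370) (nat_lit 0) .nil) .nil))) 
(.lf (nat_lit 523248) (.g (nat_lit 1377) (.e (nat_lit 204862) (nat_lit 27) (.e (nat_lit 344130) (nat_lit 26) (.e (nat_lit 557103) (nat_lit 14) (.e (nat_lit 180240) (nat_lit 2) .nil)))) (.g (nat_lit 0) (.e (nat_lit 229321) (nat_lit 0) .nil) .nil))))))))) (.nd (nat_lit 4) (.nd (nat_lit 5) (.nd (nat_lit 6) (.nd (nat_lit 7) (.nd (nat_lit 8) (.nd (nat_lit 9) 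
(.lf (nat_lit 522248) (.g (nat_lit 1790) (.e (nat_lit 204850) (nat_lit 26) (.e (nat_lit 336028) (nat_lit 3) (.e (nat_lit 98334) (nat_lit 18) (.e (nat_lit 164182) (nat_lit 154) .nil)))) (.g (nat_lit 0) (.e (nat_lit 226742) (nat_lit 0) .nil) .nil))) 
(.lf (nat_lit 522760) (.g (nat_lit 1437) (.e (nat_lit 204859) (nat_lit 26) (.e (nat_lit 336017) (nat_lit 3) (.e (nat_lit 98342) (nat_lit 20) (.e (nat_lit 221215) (nat_lit 23) .nil)))) (.g (nat_lit 0) (.e (nat_lit 228450) (nat_lit 0) .nil) .nil)))) (.nd (nat_lit 9) 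
(.lf (nat_lit 522504) (.g (nat_lit 1750) (.e (nat_lit 204853) (nat_lit 26) (.e (nat_lit 336324) (nat_lit 18) (.e (nat_lit 204854) (nat_lit 26) (.e (nat_lit 336326) (nat_lit 18) (.e (nat_lit 204850) (nat_lit 26) .nil))))) (.g (nat_lit 0) (.e (nat_lit 227447) (nat_lit 0) .nil) .nil))) 
(.lf (nat_lit 523016) (.g (nat_lit 1830) (.e (nat_lit 204861) (nat_lit 26) (.e (nat_lit 336213) (nat_lit 13) (.e (nat_lit 393229) (nat_lit 9) (.e (nat_lit 335892) (nat_lit 0) .nil)))) (.g (nat_lit 0) (.e (nat_lit 228989) (nat_lit 0) .nil) .nil))))) (.nd (nat_lit 8) (.nd (nat_lit 9) 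
(.lf (nat_lit 522376) (.g (nat_lit 3633) (.e (nat_lit 204852) (nat_lit 26) (.e (nat_lit 336324) (nat_lit 18) (.e (nat_lit 204882) (nat_lit 32) (.e (nat_lit 385066) (nat_lit 26) (.e (nat_lit 532530) (nat_lit 9) (.e (nat_lit 336325) (nat_lit 18) .nil)))))) (.g (nat_lit 1) (.e (nat_lit 227088) (nat_lit 0) .nil) .nil))) 
(.lf (nat_lit 522888) (.g (nat_lit 2772) (.e (nat_lit 204861) (nat_lit 26) (.e (nat_lit 336077) (nat_lit 9) (.e (nat_lit 336324) (nat_lit 18) (.e (nat_lit 204835) (nat_lit 19) (.e (nat_lit 106536) (nat_lit 11) .nil))))) (.g (nat_lit 0) (.e (nat_lit 228762) (nat_lit 0) .nil) .nil)))) (.nd (nat_lit 9) 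
(.lf (nat_lit 522632) (.g (nat_lit 3014) (.e (nat_lit 204855) (nat_lit 26) (.e (nat_lit 336099) (nat_lit 9) (.e (nat_lit 336013) (nat_lit 2) (.e (nat_lit 90165) (nat_lit 12) (.e (nat_lit 164207) (nat_lit 176) (.e (nat_lit 2798) (nat_lit 180) (.e (nat_lit 303118) (nat_lit 3) .nil))))))) (.g (nat_lit 1) (.e (nat_lit 227890) (nat_lit 0) .nil) .nil))) 
(.lf (nat_lit 523144) (.g (nat_lit 2032) (.e (nat_lit 204862) (nat_lit 27) (.e (nat_lit 344119) (nat_lit 21) (.e (nat_lit 516120) (nat_lit 1) (.e (nat_lit 164183) (nat_lit 154) (.e (nat_lit 57375) (nat_lit 2) .nil))))) (.g (nat_lit 0) (.e (nat_lit 229205) (nat_lit 0) .nil) .nil)))))) (.nd (nat_lit 7) (.nd (nat_lit 8) (.nd (nat_lit 9) 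
(.lf (nat_lit 522312) (.g (nat_lit 2481) (.e (nat_lit 204852) (nat_lit 26) (.e (nat_lit 343808) (nat_lit 13) (.e (nat_lit 393229) (nat_lit 9) (.e (nat_lit 335995) (nat_lit 1) (.e (nat_lit 57931) (nat_lit 282) (.e (nat_lit 163874) (nat_lit 3) .nil)))))) (.g (nat_lit 1) (.e (nat_lit 226933) (nat_lit 0) .nil) .nil))) 
(.lf (nat_lit 522824) (.g (nat_lit 3002) (.e (nat_lit 204861) (nat_lit 26) (.e (nat_lit 336026) (nat_lit 3) (.e (nat_lit 98333) (nat_lit 18) (.e (nat_lit 164179) (nat_lit 154) (.e (nat_lit 57379) (nat_lit 3) (.e (nat_lit 98342) (nat_lit 20) (.e (nat_lit 221215) (nat_lit 23) .nil))))))) (.g (nat_lit 1) (.e (nat_lit 228652) (nat_lit 0) .nil) .nil)))) (.nd (nat_lit 9) 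
(.lf (nat_lit 522568) (.g (nat_lit 1090) (.e (nat_lit 204854) (nat_lit 26) (.e (nat_lit 336316) (nat_lit 17) (.e (nat_lit 196666) (nat_lit 13) (.e (nat_lit 65642) (nat_lit 15) .nil)))) (.g (nat_lit 0) (.e (nat_lit 227679) (nat_lit 0) .nil) .nil))) 
(.lf (nat_lit 523080) (.g (nat_lit 3491) (.e (nat_lit 204862) (nat_lit 27) (.e (nat_lit 344117) (nat_lit 21) (.e (nat_lit 516116) (nat_lit 1) (.e (nat_lit 164182) (nat_lit 154) (.e (nat_lit 57375) (nat_lit 2) (.e (nat_lit 90181) (nat_lit 16) (.e (nat_lit 229472) (nat_lit 57) (.e (nat_lit 794673) (nat_lit 23) .nil)))))))) (.g (nat_lit 1) (.e (nat_lit 229113) (nat_lit 0) .nil) .nil))))) 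
(.nd (nat_lit 8) (.nd (nat_lit 9) 
(.lf (nat_lit 522440) (.g (nat_lit 2890) (.e (nat_lit 204852) (nat_lit 26) (.e (nat_lit 336326) (nat_lit 18) (.e (nat_lit 204882) (nat_lit 32) (.e (nat_lit 385066) (nat_lit 26) (.e (nat_lit 532528) (nat_lit 9) (.e (nat_lit 336324) (nat_lit 18) .nil)))))) (.g (nat_lit 1) (.e (nat_lit 227304) (nat_lit 0) .nil) .nil))) 
(.lf (nat_lit 522952) (.g (nat_lit 1300) (.e (nat_lit 204861) (nat_lit 26) (.e (nat_lit 336194) (nat_lit 12) (.e (nat_lit 385066) (nat_lit 26) (.e (nat_lit 532481) (nat_lit 0) .nil)))) (.g (nat_lit 0) (.e (nat_lit 228869) (nat_lit 0) .nil) .nil)))) (.nd (nat_lit 9) 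
(.lf (nat_lit 522696) (.g (nat_lit 1373) (.e (nat_lit 204855) (nat_lit 26) (.e (nat_lit 336176) (nat_lit 10) (.e (nat_lit 344130) (nat_lit 26) (.e (nat_lit 557091) (nat_lit 12) .nil)))) (.g (nat_lit 0) (.e (nat_lit 228183) (nat_lit 0) .nil) .nil))) 
(.lf (nat_lit 523208) (.g (nat_lit 2279) (.e (nat_lit 204862) (nat_lit 27) (.e (nat_lit 344129) (nat_lit 26) (.e (nat_lit 557104) (nat_lit 14) (.e (nat_lit 180251) (nat_lit 10) (.e (nat_lit 573478) (nat_lit 12) .nil))))) (.g (nat_lit 0) (.e (nat_lit 229281) (nat_lit 0) .nil) .nil))))))) (.nd (nat_lit 6) (.nd (nat_lit 7) (.nd (nat_lit 8) (.nd (nat_lit 9) 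
(.lf (nat_lit 522280) (.g (nat_lit 1699) (.e (nat_lit 204850) (nat_lit 26) (.e (nat_lit 336336) (nat_lit 20) (.e (nat_lit 221212) (nat_lit 22) (.e (nat_lit 196656) (nat_lit 11) (.e (nat_lit 16436) (nat_lit 9) .nil))))) (.g (nat_lit 0) (.e (nat_lit 226804) (nat_lit 0) .nil) .nil))) 
(.lf (nat_lit 522792) (.g (nat_lit 1060) (.e (nat_lit 204861) (nat_lit 26) (.e (nat_lit 335986) (nat_lit 1) (.e (nat_lit 57847) (nat_lit 252) .nil))) (.g (nat_lit 0) (.e (nat_lit 228512) (nat_lit 0) .nil) .nil)))) (.nd (nat_lit 9) 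
(.lf (nat_lit 522536) (.g (nat_lit 3683) (.e (nat_lit 204854) (nat_lit 26) (.e (nat_lit 336019) (nat_lit 3) (.e (nat_lit 98341) (nat_lit 20) (.e (nat_lit 221214) (nat_lit 23) (.e (nat_lit 204831) (nat_lit 18) (.e (nat_lit 57931) (nat_lit 282) (.e (nat_lit 163874) (nat_lit 3) .nil))))))) (.g (nat_lit 1) (.e (nat_lit 227588) (nat_lit 0) .nil) .nil))) 
(.lf (nat_lit 523048) (.g (nat_lit 1400) (.e (nat_lit 204862) (nat_lit 27) (.e (nat_lit 344117) (nat_lit 21) (.e (nat_lit 516115) (nat_lit 1) (.e (nat_lit 164177) (nat_lit 154) .nil)))) (.g (nat_lit 0) (.e (nat_lit 229060) (nat_lit 0) .nil) .nil))))) (.nd (nat_lit 8) (.nd (nat_lit 9) 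
(.lf (nat_lit 522408) (.g (nat_lit 1975) (.e (nat_lit 204852) (nat_lit 26) (.e (nat_lit 336326) (nat_lit 18) (.e (nat_lit 204854) (nat_lit 26) (.e (nat_lit 336297) (nat_lit 15) .nil)))) (.g (nat_lit 0) (.e (nat_lit 227214) (nat_lit 0) .nil) .nil))) 
(.lf (nat_lit 522920) (.g (nat_lit 2304) (.e (nat_lit 204861) (nat_lit 26) (.e (nat_lit 336186) (nat_lit 11) (.e (nat_lit 368676) (nat_lit 21) (.e (nat_lit 516139) (nat_lit 7) (.e (nat_lit 417536) (nat_lit 18) (.e (nat_lit 303119) (nat_lit 3) .nil)))))) (.g (nat_lit 1) (.e (nat_lit 228806) (nat_lit 0) .nil) .nil)))) (.nd (nat_lit 9) 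
(.lf (nat_lit 522664) (.g (nat_lit 4152) (.e (nat_lit 204855) (nat_lit 26) (.e (nat_lit 336172) (nat_lit 10) (.e (nat_lit 344117) (nat_lit 21) (.e (nat_lit 516139) (nat_lit 7) (.e (nat_lit 409645) (nat_lit 18) (.e (nat_lit 303119) (nat_lit 3) .nil)))))) (.g (nat_lit 1) (.e (nat_lit 227959) (nat_lit 0) .nil) .nil))) 
(.lf (nat_lit 523176) (.g (nat_lit 2838) (.e (nat_lit 204862) (nat_lit 27) (.e (nat_lit 344129) (nat_lit 26) (.e (nat_lit 557103) (nat_lit 14) (.e (nat_lit 180243) (nat_lit 5) (.e (nat_lit 532503) (nat_lit 1) (.e (nat_lit 57704) (nat_lit 164) (.e (nat_lit 2515) (nat_lit 157) (.e (nat_lit 2681) (nat_lit 168) .nil)))))))) (.g (nat_lit 1) (.e (nat_lit 229247) (nat_lit 0) .nil) .nil)))))) 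
(.nd (nat_lit 7) (.nd (nat_lit 8) (.nd (nat_lit 9) 
(.lf (nat_lit 522344) (.g (nat_lit 3905) (.e (nat_lit 204852) (nat_lit 26) (.e (nat_lit 336324) (nat_lit 18) (.e (nat_lit 204831) (nat_lit 18) (.e (nat_lit 57854) (nat_lit 252) (.e (nat_lit 57378) (nat_lit 3) (.e (nat_lit 98338) (nat_lit 19) (.e (nat_lit 213013) (nat_lit 9) (.e (nat_lit 2684) (nat_lit 168) .nil)))))))) (.g (nat_lit 1) (.e (nat_lit 227005) (nat_lit 0) .nil) .nil))) 
(.lf (nat_lit 522856) (.g (nat_lit 3977) (.e (nat_lit 204861) (nat_lit 26) (.e (nat_lit 336075) (nat_lit 9) (.e (nat_lit 336454) (nat_lit 34) (.e (nat_lit 483363) (nat_lit 18) (.e (nat_lit 57931) (nat_lit 282) (.e (nat_lit 163874) (nat_lit 3) .nil)))))) (.g (nat_lit 1) (.e (nat_lit 228704) (nat_lit 0) .nil) .nil)))) (.nd (nat_lit 9) 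
(.lf (nat_lit 522600) (.g (nat_lit 1751) (.e (nat_lit 204854) (nat_lit 26) (.e (nat_lit 336326) (nat_lit 18) (.e (nat_lit 204880) (nat_lit 32) (.e (nat_lit 385057) (nat_lit 22) (.e (nat_lit 499966) (nat_lit 14) .nil))))) (.g (nat_lit 0) (.e (nat_lit 227776) (nat_lit 0) .nil) .nil))) 
(.lf (nat_lit 523112) (.g (nat_lit 1552) (.e (nat_lit 204862) (nat_lit 27) (.e (nat_lit 344117) (nat_lit 21) (.e (nat_lit 516130) (nat_lit 3) (.e (nat_lit 221207) (nat_lit 21) .nil)))) (.g (nat_lit 0) (.e (nat_lit 229157) (nat_lit 0) .nil) .nil))))) (.nd (nat_lit 8) (.nd (nat_lit 9) 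
(.lf (nat_lit 522472) (.g (nat_lit 1578) (.e (nat_lit 204853) (nat_lit 26) (.e (nat_lit 336019) (nat_lit 3) (.e (nat_lit 98342) (nat_lit 20) (.e (nat_lit 221213) (nat_lit 23) .nil)))) (.g (nat_lit 0) (.e (nat_lit 227412) (nat_lit 0) .nil) .nil))) 
(.lf (nat_lit 522984) (.g (nat_lit 2466) (.e (nat_lit 204861) (nat_lit 26) (.e (nat_lit 336194) (nat_lit 12) (.e (nat_lit 385072) (nat_lit 31) (.e (nat_lit 573485) (nat_lit 13) (.e (nat_lit 65628) (nat_lit 14) (.e (nat_lit 401428) (nat_lit 3) .nil)))))) (.g (nat_lit 1) (.e (nat_lit 228926) (nat_lit 0) .nil) .nil)))) (.nd (nat_lit 9) 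
(.lf (nat_lit 522728) (.g (nat_lit 1122) (.e (nat_lit 204855) (nat_lit 26) (.e (nat_lit 336178) (nat_lit 10) (.e (nat_lit 344117) (nat_lit 21) (.e (nat_lit 516138) (nat_lit 7) .nil)))) (.g (nat_lit 0) (.e (nat_lit 228335) (nat_lit 0) .nil) .nil))) 
(.lf (nat_lit 523240) (.g (nat_lit 2099) (.e (nat_lit 204862) (nat_lit 27) (.e (nat_lit 344130) (nat_lit 26) (.e (nat_lit 557097) (nat_lit 13) (.e (nat_lit 172064) (nat_lit 2) (.e (nat_lit 204544) (nat_lit 2) (.e (nat_lit 32512) (nat_lit 18) .nil)))))) (.g (nat_lit 1) (.e (nat_lit 229313) (nat_lit 0) .nil) .nil)))))))) 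
(.nd (nat_lit 5) (.nd (nat_lit 6) (.nd (nat_lit 7) (.nd (nat_lit 8) (.nd (nat_lit 9) 
(.lf (nat_lit 522264) (.g (nat_lit 2158) (.e (nat_lit 204850) (nat_lit 26) (.e (nat_lit 336228) (nat_lit 14) (.e (nat_lit 401425) (nat_lit 2) (.e (nat_lit 196628) (nat_lit 9) (.e (nat_lit 970) (nat_lit 81) .nil))))) (.g (nat_lit 0) (.e (nat_lit 226772) (nat_lit 0) .nil) .nil))) 
(.lf (nat_lit 522776) (.g (nat_lit 1827) (.e (nat_lit 204859) (nat_lit 26) (.e (nat_lit 336206) (nat_lit 12) (.e (nat_lit 385074) (nat_lit 31) (.e (nat_lit 573489) (nat_lit 14) (.e (nat_lit 81664) (nat_lit 32) (.e (nat_lit 2679) (nat_lit 168) .nil)))))) (.g (nat_lit 1) (.e (nat_lit 228483) (nat_lit 0) .nil) .nil)))) (.nd (nat_lit 9) 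
(.lf (nat_lit 522520) (.g (nat_lit 2756) (.e (nat_lit 204853) (nat_lit 26) (.e (nat_lit 336324) (nat_lit 18) (.e (nat_lit 204882) (nat_lit 32) (.e (nat_lit 385067) (nat_lit 26) (.e (nat_lit 532530) (nat_lit 9) (.e (nat_lit 336324) (nat_lit 18) .nil)))))) (.g (nat_lit 1) (.e (nat_lit 227464) (nat_lit 0) .nil) .nil))) 
(.lf (nat_lit 523032) (.g (nat_lit 2477) (.e (nat_lit 204861) (nat_lit 26) (.e (nat_lit 336231) (nat_lit 14) (.e (nat_lit 401423) (nat_lit 2) (.e (nat_lit 196668) (nat_lit 14) (.e (nat_lit 73782) (nat_lit 32) .nil))))) (.g (nat_lit 0) (.e (nat_lit 229022) (nat_lit 0) .nil) .nil))))) (.nd (nat_lit 8) (.nd (nat_lit 9) 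
(.lf (nat_lit 522392) (.g (nat_lit 2495) (.e (nat_lit 204852) (nat_lit 26) (.e (nat_lit 336326) (nat_lit 18) (.e (nat_lit 204830) (nat_lit 18) (.e (nat_lit 57852) (nat_lit 252) (.e (nat_lit 57376) (nat_lit 3) (.e (nat_lit 98338) (nat_lit 19) (.e (nat_lit 213013) (nat_lit 9) (.e (nat_lit 2684) (nat_lit 168) .nil)))))))) (.g (nat_lit 1) (.e (nat_lit 227116) (nat_lit 0) .nil) .nil))) 
(.lf (nat_lit 522904) (.g (nat_lit 519) (.e (nat_lit 204861) (nat_lit 26) (.e (nat_lit 336086) (nat_lit 9) (.e (nat_lit 336240) (nat_lit 15) .nil))) (.g (nat_lit 0) (.e (nat_lit 228783) (nat_lit 0) .nil) .nil)))) (.nd (nat_lit 9) 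
(.lf (nat_lit 522648) (.g (nat_lit 1203) (.e (nat_lit 204855) (nat_lit 26) (.e (nat_lit 336099) (nat_lit 9) (.e (nat_lit 336028) (nat_lit 3) (.e (nat_lit 98325) (nat_lit 17) .nil)))) (.g (nat_lit 0) (.e (nat_lit 227931) (nat_lit 0) .nil) .nil))) 
(.lf (nat_lit 523160) (.g (nat_lit 3373) (.e (nat_lit 204862) (nat_lit 27) (.e (nat_lit 344129) (nat_lit 26) (.e (nat_lit 557097) (nat_lit 13) (.e (nat_lit 172067) (nat_lit 3) (.e (nat_lit 204821) (nat_lit 17) (.e (nat_lit 2390) (nat_lit 156) (.e (nat_lit 819204) (nat_lit 0) (.e (nat_lit 2685) (nat_lit 168) .nil)))))))) (.g (nat_lit 1) (.e (nat_lit 229231) (nat_lit 0) .nil) .nil)))))) 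
(.nd (nat_lit 7) (.nd (nat_lit 8) (.nd (nat_lit 9) 
(.lf (nat_lit 522328) (.g (nat_lit 459) (.e (nat_lit 204852) (nat_lit 26) (.e (nat_lit 336324) (nat_lit 18) (.e (nat_lit 204831) (nat_lit 18) .nil))) (.g (nat_lit 0) (.e (nat_lit 226982) (nat_lit 0) .nil) .nil))) 
(.lf (nat_lit 522840) (.g (nat_lit 929) (.e (nat_lit 204861) (nat_lit 26) (.e (nat_lit 336075) (nat_lit 9) (.e (nat_lit 336324) (nat_lit 18) (.e (nat_lit 204834) (nat_lit 19) .nil)))) (.g (nat_lit 0) (.e (nat_lit 228677) (nat_lit 0) .nil) .nil)))) (.nd (nat_lit 9) 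
(.lf (nat_lit 522584) (.g (nat_lit 3760) (.e (nat_lit 204854) (nat_lit 26) (.e (nat_lit 336324) (nat_lit 18) (.e (nat_lit 204880) (nat_lit 32) (.e (nat_lit 385066) (nat_lit 26) (.e (nat_lit 532534) (nat_lit 9) (.e (nat_lit 336324) (nat_lit 18) .nil)))))) (.g (nat_lit 1) (.e (nat_lit 227720) (nat_lit 0) .nil) .nil))) 
(.lf (nat_lit 523096) (.g (nat_lit 2879) (.e (nat_lit 204862) (nat_lit 27) (.e (nat_lit 344117) (nat_lit 21) (.e (nat_lit 516118) (nat_lit 1) (.e (nat_lit 164183) (nat_lit 154) (.e (nat_lit 57373) (nat_lit 2) (.e (nat_lit 90181) (nat_lit 16) (.e (nat_lit 229472) (nat_lit 57) (.e (nat_lit 794673) (nat_lit 23) .nil)))))))) (.g (nat_lit 1) (.e (nat_lit 229139) (nat_lit 0) .nil) .nil))))) 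
(.nd (nat_lit 8) (.nd (nat_lit 9) 
(.lf (nat_lit 522456) (.g (nat_lit 3314) (.e (nat_lit 204852) (nat_lit 26) (.e (nat_lit 336326) (nat_lit 18) (.e (nat_lit 204882) (nat_lit 32) (.e (nat_lit 385068) (nat_lit 26) (.e (nat_lit 532530) (nat_lit 9) (.e (nat_lit 336324) (nat_lit 18) .nil)))))) (.g (nat_lit 1) (.e (nat_lit 227322) (nat_lit 0) .nil) .nil))) 
(.lf (nat_lit 522968) (.g (nat_lit 2704) (.e (nat_lit 204861) (nat_lit 26) (.e (nat_lit 336194) (nat_lit 12) (.e (nat_lit 385068) (nat_lit 26) (.e (nat_lit 532490) (nat_lit 0) (.e (nat_lit 2044) (nat_lit 142) .nil))))) (.g (nat_lit 0) (.e (nat_lit 228906) (nat_lit 0) .nil) .nil)))) (.nd (nat_lit 9) 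
(.lf (nat_lit 522712) (.g (nat_lit 1147) (.e (nat_lit 204855) (nat_lit 26) (.e (nat_lit 336176) (nat_lit 10) (.e (nat_lit 344133) (nat_lit 26) (.e (nat_lit 557091) (nat_lit 12) .nil)))) (.g (nat_lit 0) (.e (nat_lit 228266) (nat_lit 0) .nil) .nil))) 
(.lf (nat_lit 523224) (.g (nat_lit 3466) (.e (nat_lit 204862) (nat_lit 27) (.e (nat_lit 344129) (nat_lit 26) (.e (nat_lit 557104) (nat_lit 14) (.e (nat_lit 180252) (nat_lit 10) (.e (nat_lit 573475) (nat_lit 12) (.e (nat_lit 57506) (nat_lit 39) (.e (nat_lit 647175) (nat_lit 0) (.e (nat_lit 2684) (nat_lit 168) .nil)))))))) (.g (nat_lit 1) (.e (nat_lit 229297) (nat_lit 0) .nil) .nil))))))) 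
(.nd (nat_lit 6) (.nd (nat_lit 7) (.nd (nat_lit 8) (.nd (nat_lit 9) 
(.lf (nat_lit 522296) (.g (nat_lit 2126) (.e (nat_lit 204851) (nat_lit 26) (.e (nat_lit 336324) (nat_lit 18) (.e (nat_lit 204854) (nat_lit 26) (.e (nat_lit 336284) (nat_lit 15) .nil)))) (.g (nat_lit 0) (.e (nat_lit 226836) (nat_lit 0) .nil) .nil))) 
(.lf (nat_lit 522808) (.g (nat_lit 2423) (.e (nat_lit 204861) (nat_lit 26) (.e (nat_lit 335988) (nat_lit 1) (.e (nat_lit 57927) (nat_lit 282) (.e (nat_lit 163850) (nat_lit 0) (.e (nat_lit 7936) (nat_lit 200) (.e (nat_lit 557065) (nat_lit 9) (.e (nat_lit 3044) (nat_lit 189) (.e (nat_lit 466981) (nat_lit 23) .nil)))))))) (.g (nat_lit 1) (.e (nat_lit 228568) (nat_lit 0) .nil) .nil)))) 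
(.nd (nat_lit 9) 
(.lf (nat_lit 522552) (.g (nat_lit 3401) (.e (nat_lit 204854) (nat_lit 26) (.e (nat_lit 336019) (nat_lit 3) (.e (nat_lit 98342) (nat_lit 20) (.e (nat_lit 221215) (nat_lit 23) (.e (nat_lit 204828) (nat_lit 18) (.e (nat_lit 57927) (nat_lit 282) (.e (nat_lit 163874) (nat_lit 3) .nil))))))) (.g (nat_lit 1) (.e (nat_lit 227621) (nat_lit 0) .nil) .nil))) 
(.lf (nat_lit 523064) (.g (nat_lit 1193) (.e (nat_lit 204862) (nat_lit 27) (.e (nat_lit 344117) (nat_lit 21) (.e (nat_lit 516115) (nat_lit 1) (.e (nat_lit 164183) (nat_lit 154) .nil)))) (.g (nat_lit 0) (.e (nat_lit 229084) (nat_lit 0) .nil) .nil))))) (.nd (nat_lit 8) (.nd (nat_lit 9) 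
(.lf (nat_lit 522424) (.g (nat_lit 2786) (.e (nat_lit 204852) (nat_lit 26) (.e (nat_lit 336326) (nat_lit 18) (.e (nat_lit 204880) (nat_lit 32) (.e (nat_lit 385066) (nat_lit 26) (.e (nat_lit 532534) (nat_lit 9) (.e (nat_lit 336322) (nat_lit 18) .nil)))))) (.g (nat_lit 1) (.e (nat_lit 227279) (nat_lit 0) .nil) .nil))) 
(.lf (nat_lit 522936) (.g (nat_lit 1885) (.e (nat_lit 204861) (nat_lit 26) (.e (nat_lit 336186) (nat_lit 11) (.e (nat_lit 368676) (nat_lit 21) (.e (nat_lit 516171) (nat_lit 13) (.e (nat_lit 458774) (nat_lit 18) (.e (nat_lit 5936) (nat_lit 322) (.e (nat_lit 65280) (nat_lit 64) .nil))))))) (.g (nat_lit 1) (.e (nat_lit 228836) (nat_lit 0) .nil) .nil)))) (.nd (nat_lit 9) 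
(.lf (nat_lit 522680) (.g (nat_lit 1109) (.e (nat_lit 204855) (nat_lit 26) (.e (nat_lit 336176) (nat_lit 10) (.e (nat_lit 344130) (nat_lit 26) (.e (nat_lit 557067) (nat_lit 9) .nil)))) (.g (nat_lit 0) (.e (nat_lit 228026) (nat_lit 0) .nil) .nil))) 
(.lf (nat_lit 523192) (.g (nat_lit 3569) (.e (nat_lit 204862) (nat_lit 27) (.e (nat_lit 344129) (nat_lit 26) (.e (nat_lit 557103) (nat_lit 14) (.e (nat_lit 180250) (nat_lit 10) (.e (nat_lit 573475) (nat_lit 12) (.e (nat_lit 57507) (nat_lit 39) (.e (nat_lit 647170) (nat_lit 0) (.e (nat_lit 2685) (nat_lit 168) .nil)))))))) (.g (nat_lit 1) (.e (nat_lit 229264) (nat_lit 0) .nil) .nil)))))) 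
(.nd (nat_lit 7) (.nd (nat_lit 8) (.nd (nat_lit 9) 
(.lf (nat_lit 522360) (.g (nat_lit 3553) (.e (nat_lit 204852) (nat_lit 26) (.e (nat_lit 336324) (nat_lit 18) (.e (nat_lit 204880) (nat_lit 32) (.e (nat_lit 385066) (nat_lit 26) (.e (nat_lit 532530) (nat_lit 9) (.e (nat_lit 336324) (nat_lit 18) .nil)))))) (.g (nat_lit 1) (.e (nat_lit 227065) (nat_lit 0) .nil) .nil))) 
(.lf (nat_lit 522872) (.g (nat_lit 1247) (.e (nat_lit 204861) (nat_lit 26) (.e (nat_lit 336076) (nat_lit 9) (.e (nat_lit 336326) (nat_lit 18) (.e (nat_lit 204836) (nat_lit 20) .nil)))) (.g (nat_lit 0) (.e (nat_lit 228733) (nat_lit 0) .nil) .nil)))) (.nd (nat_lit 9) 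
(.lf (nat_lit 522616) (.g (nat_lit 3092) (.e (nat_lit 204854) (nat_lit 26) (.e (nat_lit 336326) (nat_lit 18) (.e (nat_lit 204882) (nat_lit 32) (.e (nat_lit 385068) (nat_lit 26) (.e (nat_lit 532528) (nat_lit 9) (.e (nat_lit 336324) (nat_lit 18) .nil)))))) (.g (nat_lit 1) (.e (nat_lit 227794) (nat_lit 0) .nil) .nil))) 
(.lf (nat_lit 523128) (.g (nat_lit 2891) (.e (nat_lit 204862) (nat_lit 27) (.e (nat_lit 344117) (nat_lit 21) (.e (nat_lit 516131) (nat_lit 3) (.e (nat_lit 221215) (nat_lit 23) (.e (nat_lit 204830) (nat_lit 18) (.e (nat_lit 57926) (nat_lit 282) (.e (nat_lit 163875) (nat_lit 3) .nil))))))) (.g (nat_lit 1) (.e (nat_lit 229173) (nat_lit 0) .nil) .nil))))) (.nd (nat_lit 8) (.nd (nat_lit 9) 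
(.lf (nat_lit 522488) (.g (nat_lit 1866) (.e (nat_lit 204853) (nat_lit 26) (.e (nat_lit 336324) (nat_lit 18) (.e (nat_lit 204852) (nat_lit 26) (.e (nat_lit 336316) (nat_lit 17) (.e (nat_lit 196665) (nat_lit 13) (.e (nat_lit 73472) (nat_lit 18) .nil)))))) (.g (nat_lit 1) (.e (nat_lit 227430) (nat_lit 0) .nil) .nil))) 
(.lf (nat_lit 523000) (.g (nat_lit 2587) (.e (nat_lit 204861) (nat_lit 26) (.e (nat_lit 336204) (nat_lit 12) (.e (nat_lit 385074) (nat_lit 31) (.e (nat_lit 573484) (nat_lit 13) .nil)))) (.g (nat_lit 0) (.e (nat_lit 228967) (nat_lit 0) .nil) .nil)))) (.nd (nat_lit 9) 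
(.lf (nat_lit 522744) (.g (nat_lit 2283) (.e (nat_lit 204857) (nat_lit 26) (.e (nat_lit 336228) (nat_lit 14) (.e (nat_lit 401425) (nat_lit 2) (.e (nat_lit 196665) (nat_lit 13) (.e (nat_lit 65628) (nat_lit 14) .nil))))) (.g (nat_lit 0) (.e (nat_lit 228416) (nat_lit 0) .nil) .nil))) 
(.lf (nat_lit 523256) (.g (nat_lit 3212) (.e (nat_lit 204862) (nat_lit 27) (.e (nat_lit 344130) (nat_lit 26) (.e (nat_lit 557103) (nat_lit 14) (.e (nat_lit 180250) (nat_lit 10) (.e (nat_lit 573475) (nat_lit 12) (.e (nat_lit 57506) (nat_lit 39) (.e (nat_lit 647175) (nat_lit 0) (.e (nat_lit 2684) (nat_lit 168) .nil)))))))) (.g (nat_lit 1) (.e (nat_lit 229329) (nat_lit 0) .nil) .nil)))))))))) 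
(.nd (nat_lit 3) (.nd (nat_lit 4) (.nd (nat_lit 5) (.nd (nat_lit 6) (.nd (nat_lit 7) 
(.nd (nat_lit 8) (.nd (nat_lit 9) 
(.lf (nat_lit 522244) (.g (nat_lit 774) (.e (nat_lit 204850) (nat_lit 26) (.e (nat_lit 336028) (nat_lit 3) (.e (nat_lit 106240) (nat_lit 7) .nil))) (.g (nat_lit 0) (.e (nat_lit 226735) (nat_lit 0) .nil) .nil))) 
(.lf (nat_lit 522756) (.g (nat_lit 554) (.e (nat_lit 204859) (nat_lit 26) (.e (nat_lit 336017) (nat_lit 3) (.e (nat_lit 98341) (nat_lit 20) .nil))) (.g (nat_lit 0) (.e (nat_lit 228446) (nat_lit 0) .nil) .nil)))) (.nd (nat_lit 9) 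
(.lf (nat_lit 522500) (.g (nat_lit 2570) (.e (nat_lit 204853) (nat_lit 26) (.e (nat_lit 336324) (nat_lit 18) (.e (nat_lit 204854) (nat_lit 26) (.e (nat_lit 336324) (nat_lit 18) (.e (nat_lit 204851) (nat_lit 26) .nil))))) (.g (nat_lit 0) (.e (nat_lit 227443) (nat_lit 0) .nil) .nil))) 
(.lf (nat_lit 523012) (.g (nat_lit 1627) (.e (nat_lit 204861) (nat_lit 26) (.e (nat_lit 336213) (nat_lit 13) (.e (nat_lit 393225) (nat_lit 9) (.e (nat_lit 335913) (nat_lit 0) .nil)))) (.g (nat_lit 0) (.e (nat_lit 228985) (nat_lit 0) .nil) .nil))))) (.nd (nat_lit 8) (.nd (nat_lit 9) 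
(.lf (nat_lit 522372) (.g (nat_lit 2830) (.e (nat_lit 204852) (nat_lit 26) (.e (nat_lit 336324) (nat_lit 18) (.e (nat_lit 204882) (nat_lit 32) (.e (nat_lit 385066) (nat_lit 26) (.e (nat_lit 532528) (nat_lit 9) (.e (nat_lit 336324) (nat_lit 18) .nil)))))) (.g (nat_lit 1) (.e (nat_lit 227084) (nat_lit 0) .nil) .nil))) 
(.lf (nat_lit 522884) (.g (nat_lit 3474) (.e (nat_lit 204861) (nat_lit 26) (.e (nat_lit 336076) (nat_lit 9) (.e (nat_lit 336454) (nat_lit 34) (.e (nat_lit 483365) (nat_lit 18) (.e (nat_lit 57929) (nat_lit 282) (.e (nat_lit 163873) (nat_lit 3) .nil)))))) (.g (nat_lit 1) (.e (nat_lit 228753) (nat_lit 0) .nil) .nil)))) (.nd (nat_lit 9) 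
(.lf (nat_lit 522628) (.g (nat_lit 3052) (.e (nat_lit 204855) (nat_lit 26) (.e (nat_lit 336099) (nat_lit 9) (.e (nat_lit 336013) (nat_lit 2) (.e (nat_lit 90162) (nat_lit 12) .nil)))) (.g (nat_lit 0) (.e (nat_lit 227886) (nat_lit 0) .nil) .nil))) 
(.lf (nat_lit 523140) (.g (nat_lit 1960) (.e (nat_lit 204862) (nat_lit 27) (.e (nat_lit 344118) (nat_lit 21) (.e (nat_lit 516129) (nat_lit 3) (.e (nat_lit 221210) (nat_lit 22) (.e (nat_lit 196660) (nat_lit 12) .nil))))) (.g (nat_lit 0) (.e (nat_lit 229201) (nat_lit 0) .nil) .nil)))))) (.nd (nat_lit 7) (.nd (nat_lit 8) (.nd (nat_lit 9) 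
(.lf (nat_lit 522308) (.g (nat_lit 1822) (.e (nat_lit 204852) (nat_lit 26) (.e (nat_lit 343808) (nat_lit 9) (.e (nat_lit 336324) (nat_lit 18) (.e (nat_lit 204837) (nat_lit 20) (.e (nat_lit 122624) (nat_lit 11) (.e (nat_lit 426129) (nat_lit 3) .nil)))))) (.g (nat_lit 1) (.e (nat_lit 226925) (nat_lit 0) .nil) .nil))) 
(.lf (nat_lit 522820) (.g (nat_lit 2831) (.e (nat_lit 204861) (nat_lit 26) (.e (nat_lit 336021) (nat_lit 3) (.e (nat_lit 98335) (nat_lit 18) (.e (nat_lit 164182) (nat_lit 154) (.e (nat_lit 57379) (nat_lit 3) .nil))))) (.g (nat_lit 0) (.e (nat_lit 228642) (nat_lit 0) .nil) .nil)))) (.nd (nat_lit 9) 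
(.lf (nat_lit 522564) (.g (nat_lit 2391) (.e (nat_lit 204854) (nat_lit 26) (.e (nat_lit 336306) (nat_lit 15) (.e (nat_lit 3238) (nat_lit 197) (.e (nat_lit 532529) (nat_lit 9) (.e (nat_lit 336316) (nat_lit 17) (.e (nat_lit 196628) (nat_lit 9) (.e (nat_lit 1471) (nat_lit 108) (.e (nat_lit 336323) (nat_lit 18) .nil)))))))) (.g (nat_lit 1) (.e (nat_lit 227668) (nat_lit 0) .nil) .nil))) 
(.lf (nat_lit 523076) (.g (nat_lit 1952) (.e (nat_lit 204862) (nat_lit 27) (.e (nat_lit 344117) (nat_lit 21) (.e (nat_lit 516116) (nat_lit 1) (.e (nat_lit 164182) (nat_lit 154) .nil)))) (.g (nat_lit 0) (.e (nat_lit 229107) (nat_lit 0) .nil) .nil))))) (.nd (nat_lit 8) (.nd (nat_lit 9) 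
(.lf (nat_lit 522436) (.g (nat_lit 2529) (.e (nat_lit 204852) (nat_lit 26) (.e (nat_lit 336326) (nat_lit 18) (.e (nat_lit 204881) (nat_lit 32) (.e (nat_lit 385066) (nat_lit 26) (.e (nat_lit 532534) (nat_lit 9) (.e (nat_lit 336324) (nat_lit 18) .nil)))))) (.g (nat_lit 1) (.e (nat_lit 227291) (nat_lit 0) .nil) .nil))) 
(.lf (nat_lit 522948) (.g (nat_lit 3137) (.e (nat_lit 204861) (nat_lit 26) (.e (nat_lit 336194) (nat_lit 12) (.e (nat_lit 385064) (nat_lit 26) (.e (nat_lit 532514) (nat_lit 3) (.e (nat_lit 114698) (nat_lit 11) (.e (nat_lit 426133) (nat_lit 3) .nil)))))) (.g (nat_lit 1) (.e (nat_lit 228854) (nat_lit 0) .nil) .nil)))) (.nd (nat_lit 9) 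
(.lf (nat_lit 522692) (.g (nat_lit 3470) (.e (nat_lit 204855) (nat_lit 26) (.e (nat_lit 336176) (nat_lit 10) (.e (nat_lit 344130) (nat_lit 26) (.e (nat_lit 557090) (nat_lit 12) (.e (nat_lit 164017) (nat_lit 44) (.e (nat_lit 688138) (nat_lit 5) (.e (nat_lit 2887) (nat_lit 184) (.e (nat_lit 426132) (nat_lit 3) .nil)))))))) (.g (nat_lit 1) (.e (nat_lit 228166) (nat_lit 0) .nil) .nil))) 
(.lf (nat_lit 523204) (.g (nat_lit 2071) (.e (nat_lit 204862) (nat_lit 27) (.e (nat_lit 344129) (nat_lit 26) (.e (nat_lit 557103) (nat_lit 14) (.e (nat_lit 180251) (nat_lit 10) .nil)))) (.g (nat_lit 0) (.e (nat_lit 229276) (nat_lit 0) .nil) .nil))))))) (.nd (nat_lit 6) (.nd (nat_lit 7) (.nd (nat_lit 8) (.nd (nat_lit 9) 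
(.lf (nat_lit 522276) (.g (nat_lit 5074) (.e (nat_lit 204850) (nat_lit 26) (.e (nat_lit 336324) (nat_lit 18) (.e (nat_lit 204831) (nat_lit 18) (.e (nat_lit 57852) (nat_lit 252) (.e (nat_lit 57378) (nat_lit 3) (.e (nat_lit 98342) (nat_lit 20) (.e (nat_lit 221215) (nat_lit 23) .nil))))))) (.g (nat_lit 1) (.e (nat_lit 226784) (nat_lit 0) .nil) .nil))) 
(.lf (nat_lit 522788) (.g (nat_lit 642) (.e (nat_lit 204860) (nat_lit 26) (.e (nat_lit 336214) (nat_lit 13) (.e (nat_lit 401152) (nat_lit 7) (.e (nat_lit 319530) (nat_lit 16) (.e (nat_lit 294656) (nat_lit 18) .nil))))) (.g (nat_lit 1) (.e (nat_lit 228507) (nat_lit 0) .nil) .nil)))) (.nd (nat_lit 9) 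
(.lf (nat_lit 522532) (.g (nat_lit 2819) (.e (nat_lit 204854) (nat_lit 26) (.e (nat_lit 336019) (nat_lit 3) (.e (nat_lit 98341) (nat_lit 20) (.e (nat_lit 221213) (nat_lit 23) (.e (nat_lit 204829) (nat_lit 18) (.e (nat_lit 57927) (nat_lit 282) (.e (nat_lit 163874) (nat_lit 3) .nil))))))) (.g (nat_lit 1) (.e (nat_lit 227584) (nat_lit 0) .nil) .nil))) 
(.lf (nat_lit 523044) (.g (nat_lit 1538) (.e (nat_lit 212736) (nat_lit 26) (.e (nat_lit 336204) (nat_lit 12) (.e (nat_lit 385074) (nat_lit 31) (.e (nat_lit 573489) (nat_lit 14) (.e (nat_lit 73782) (nat_lit 32) .nil))))) (.g (nat_lit 0) (.e (nat_lit 229039) (nat_lit 0) .nil) .nil))))) (.nd (nat_lit 8) (.nd (nat_lit 9) 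
(.lf (nat_lit 522404) (.g (nat_lit 292) (.e (nat_lit 204852) (nat_lit 26) (.e (nat_lit 336326) (nat_lit 18) (.e (nat_lit 204854) (nat_lit 26) .nil))) (.g (nat_lit 0) (.e (nat_lit 227195) (nat_lit 0) .nil) .nil))) 
(.lf (nat_lit 522916) (.g (nat_lit 712) (.e (nat_lit 204861) (nat_lit 26) (.e (nat_lit 336186) (nat_lit 11) (.e (nat_lit 368676) (nat_lit 21) (.e (nat_lit 516100) (nat_lit 0) .nil)))) (.g (nat_lit 0) (.e (nat_lit 228801) (nat_lit 0) .nil) .nil)))) (.nd (nat_lit 9) 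
(.lf (nat_lit 522660) (.g (nat_lit 4402) (.e (nat_lit 204855) (nat_lit 26) (.e (nat_lit 336163) (nat_lit 10) (.e (nat_lit 344119) (nat_lit 21) (.e (nat_lit 516139) (nat_lit 7) (.e (nat_lit 409648) (nat_lit 18) (.e (nat_lit 303118) (nat_lit 3) .nil)))))) (.g (nat_lit 1) (.e (nat_lit 227955) (nat_lit 0) .nil) .nil))) 
(.lf (nat_lit 523172) (.g (nat_lit 2558) (.e (nat_lit 204862) (nat_lit 27) (.e (nat_lit 344129) (nat_lit 26) (.e (nat_lit 557103) (nat_lit 14) (.e (nat_lit 180243) (nat_lit 5) (.e (nat_lit 532501) (nat_lit 1) (.e (nat_lit 57703) (nat_lit 164) (.e (nat_lit 2416) (nat_lit 157) (.e (nat_lit 2684) (nat_lit 168) .nil)))))))) (.g (nat_lit 1) (.e (nat_lit 229243) (nat_lit 0) .nil) .nil)))))) 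
(.nd (nat_lit 7) (.nd (nat_lit 8) (.nd (nat_lit 9) 
(.lf (nat_lit 522340) (.g (nat_lit 5019) (.e (nat_lit 204852) (nat_lit 26) (.e (nat_lit 336324) (nat_lit 18) (.e (nat_lit 204831) (nat_lit 18) (.e (nat_lit 57852) (nat_lit 252) (.e (nat_lit 57378) (nat_lit 3) (.e (nat_lit 98341) (nat_lit 20) (.e (nat_lit 221214) (nat_lit 23) .nil))))))) (.g (nat_lit 1) (.e (nat_lit 226998) (nat_lit 0) .nil) .nil))) 
(.lf (nat_lit 522852) (.g (nat_lit 1588) (.e (nat_lit 204861) (nat_lit 26) (.e (nat_lit 336075) (nat_lit 9) (.e (nat_lit 336452) (nat_lit 34) (.e (nat_lit 483363) (nat_lit 18) (.e (nat_lit 57927) (nat_lit 282) .nil))))) (.g (nat_lit 0) (.e (nat_lit 228695) (nat_lit 0) .nil) .nil)))) (.nd (nat_lit 9) 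
(.lf (nat_lit 522596) (.g (nat_lit 1817) (.e (nat_lit 204854) (nat_lit 26) (.e (nat_lit 336326) (nat_lit 18) (.e (nat_lit 204854) (nat_lit 26) (.e (nat_lit 336316) (nat_lit 17) (.e (nat_lit 196622) (nat_lit 9) .nil))))) (.g (nat_lit 0) (.e (nat_lit 227759) (nat_lit 0) .nil) .nil))) 
(.lf (nat_lit 523108) (.g (nat_lit 2402) (.e (nat_lit 204862) (nat_lit 27) (.e (nat_lit 344117) (nat_lit 21) (.e (nat_lit 516129) (nat_lit 3) (.e (nat_lit 221210) (nat_lit 22) (.e (nat_lit 196698) (nat_lit 19) .nil))))) (.g (nat_lit 0) (.e (nat_lit 229153) (nat_lit 0) .nil) .nil))))) (.nd (nat_lit 8) (.nd (nat_lit 9) 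
(.lf (nat_lit 522468) (.g (nat_lit 2595) (.e (nat_lit 204853) (nat_lit 26) (.e (nat_lit 336019) (nat_lit 3) (.e (nat_lit 98341) (nat_lit 20) (.e (nat_lit 221215) (nat_lit 23) (.e (nat_lit 204831) (nat_lit 18) (.e (nat_lit 57931) (nat_lit 282) (.e (nat_lit 163873) (nat_lit 3) .nil))))))) (.g (nat_lit 1) (.e (nat_lit 227408) (nat_lit 0) .nil) .nil))) 
(.lf (nat_lit 522980) (.g (nat_lit 2652) (.e (nat_lit 204861) (nat_lit 26) (.e (nat_lit 336194) (nat_lit 12) (.e (nat_lit 385072) (nat_lit 31) (.e (nat_lit 573481) (nat_lit 13) (.e (nat_lit 65628) (nat_lit 14) (.e (nat_lit 401428) (nat_lit 3) .nil)))))) (.g (nat_lit 1) (.e (nat_lit 228921) (nat_lit 0) .nil) .nil)))) (.nd (nat_lit 9) 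
(.lf (nat_lit 522724) (.g (nat_lit 1978) (.e (nat_lit 204855) (nat_lit 26) (.e (nat_lit 336176) (nat_lit 10) (.e (nat_lit 344133) (nat_lit 26) (.e (nat_lit 557094) (nat_lit 12) .nil)))) (.g (nat_lit 0) (.e (nat_lit 228327) (nat_lit 0) .nil) .nil))) 
(.lf (nat_lit 523236) (.g (nat_lit 3442) (.e (nat_lit 204862) (nat_lit 27) (.e (nat_lit 344129) (nat_lit 26) (.e (nat_lit 557105) (nat_lit 14) (.e (nat_lit 180252) (nat_lit 10) (.e (nat_lit 573474) (nat_lit 12) (.e (nat_lit 57508) (nat_lit 39) (.e (nat_lit 655104) (nat_lit 0) (.e (nat_lit 2684) (nat_lit 168) .nil)))))))) (.g (nat_lit 1) (.e (nat_lit 229309) (nat_lit 0) .nil) .nil)))))))) 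
(.nd (nat_lit 5) (.nd (nat_lit 6) (.nd (nat_lit 7) (.nd (nat_lit 8) (.nd (nat_lit 9) 
(.lf (nat_lit 522260) (.g (nat_lit 3389) (.e (nat_lit 204850) (nat_lit 26) (.e (nat_lit 336205) (nat_lit 12) (.e (nat_lit 385074) (nat_lit 31) (.e (nat_lit 573484) (nat_lit 13) (.e (nat_lit 65630) (nat_lit 14) (.e (nat_lit 401428) (nat_lit 3) .nil)))))) (.g (nat_lit 1) (.e (nat_lit 226760) (nat_lit 0) .nil) .nil))) 
(.lf (nat_lit 522772) (.g (nat_lit 2307) (.e (nat_lit 204859) (nat_lit 26) (.e (nat_lit 336206) (nat_lit 12) (.e (nat_lit 385068) (nat_lit 26) (.e (nat_lit 532515) (nat_lit 3) (.e (nat_lit 114697) (nat_lit 11) (.e (nat_lit 426137) (nat_lit 3) .nil)))))) (.g (nat_lit 1) (.e (nat_lit 228474) (nat_lit 0) .nil) .nil)))) (.nd (nat_lit 9) 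
(.lf (nat_lit 522516) (.g (nat_lit 2349) (.e (nat_lit 204853) (nat_lit 26) (.e (nat_lit 336324) (nat_lit 18) (.e (nat_lit 204882) (nat_lit 32) (.e (nat_lit 385065) (nat_lit 26) (.e (nat_lit 532530) (nat_lit 9) (.e (nat_lit 336326) (nat_lit 18) .nil)))))) (.g (nat_lit 1) (.e (nat_lit 227460) (nat_lit 0) .nil) .nil))) 
(.lf (nat_lit 523028) (.g (nat_lit 2955) (.e (nat_lit 204861) (nat_lit 26) (.e (nat_lit 336229) (nat_lit 14) (.e (nat_lit 401423) (nat_lit 2) (.e (nat_lit 196668) (nat_lit 14) (.e (nat_lit 73782) (nat_lit 32) (.e (nat_lit 2681) (nat_lit 168) .nil)))))) (.g (nat_lit 1) (.e (nat_lit 229014) (nat_lit 0) .nil) .nil))))) (.nd (nat_lit 8) (.nd (nat_lit 9) 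
(.lf (nat_lit 522388) (.g (nat_lit 1674) (.e (nat_lit 204852) (nat_lit 26) (.e (nat_lit 336325) (nat_lit 18) (.e (nat_lit 204880) (nat_lit 32) (.e (nat_lit 385066) (nat_lit 26) (.e (nat_lit 532532) (nat_lit 9) (.e (nat_lit 336326) (nat_lit 18) .nil)))))) (.g (nat_lit 1) (.e (nat_lit 227108) (nat_lit 0) .nil) .nil))) 
(.lf (nat_lit 522900) (.g (nat_lit 3479) (.e (nat_lit 204861) (nat_lit 26) (.e (nat_lit 336078) (nat_lit 9) (.e (nat_lit 336324) (nat_lit 18) (.e (nat_lit 204838) (nat_lit 20) (.e (nat_lit 114698) (nat_lit 11) (.e (nat_lit 426138) (nat_lit 3) .nil)))))) (.g (nat_lit 1) (.e (nat_lit 228779) (nat_lit 0) .nil) .nil)))) (.nd (nat_lit 9) 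
(.lf (nat_lit 522644) (.g (nat_lit 3356) (.e (nat_lit 204855) (nat_lit 26) (.e (nat_lit 336099) (nat_lit 9) (.e (nat_lit 336013) (nat_lit 2) (.e (nat_lit 90165) (nat_lit 12) (.e (nat_lit 164211) (nat_lit 176) .nil))))) (.g (nat_lit 0) (.e (nat_lit 227902) (nat_lit 0) .nil) .nil))) 
(.lf (nat_lit 523156) (.g (nat_lit 2392) (.e (nat_lit 204862) (nat_lit 27) (.e (nat_lit 344129) (nat_lit 26) (.e (nat_lit 557097) (nat_lit 13) (.e (nat_lit 172064) (nat_lit 2) (.e (nat_lit 196686) (nat_lit 18) .nil))))) (.g (nat_lit 0) (.e (nat_lit 229227) (nat_lit 0) .nil) .nil)))))) (.nd (nat_lit 7) (.nd (nat_lit 8) (.nd (nat_lit 9) 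
(.lf (nat_lit 522324) (.g (nat_lit 1731) (.e (nat_lit 204852) (nat_lit 26) (.e (nat_lit 336324) (nat_lit 18) (.e (nat_lit 204829) (nat_lit 18) (.e (nat_lit 57849) (nat_lit 252) (.e (nat_lit 57379) (nat_lit 3) .nil))))) (.g (nat_lit 0) (.e (nat_lit 226978) (nat_lit 0) .nil) .nil))) 
(.lf (nat_lit 522836) (.g (nat_lit 1989) (.e (nat_lit 204861) (nat_lit 26) (.e (nat_lit 336074) (nat_lit 9) (.e (nat_lit 336324) (nat_lit 18) (.e (nat_lit 204838) (nat_lit 20) (.e (nat_lit 114697) (nat_lit 11) (.e (nat_lit 426137) (nat_lit 3) .nil)))))) (.g (nat_lit 1) (.e (nat_lit 228670) (nat_lit 0) .nil) .nil)))) (.nd (nat_lit 9) 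
(.lf (nat_lit 522580) (.g (nat_lit 2451) (.e (nat_lit 204854) (nat_lit 26) (.e (nat_lit 336324) (nat_lit 18) (.e (nat_lit 204880) (nat_lit 32) (.e (nat_lit 385066) (nat_lit 26) (.e (nat_lit 532528) (nat_lit 9) (.e (nat_lit 336324) (nat_lit 18) .nil)))))) (.g (nat_lit 1) (.e (nat_lit 227716) (nat_lit 0) .nil) .nil))) 
(.lf (nat_lit 523092) (.g (nat_lit 2754) (.e (nat_lit 204862) (nat_lit 27) (.e (nat_lit 344117) (nat_lit 21) (.e (nat_lit 516118) (nat_lit 1) (.e (nat_lit 164179) (nat_lit 154) (.e (nat_lit 57377) (nat_lit 3) (.e (nat_lit 98321) (nat_lit 17) (.e (nat_lit 3771) (nat_lit 229) (.e (nat_lit 794673) (nat_lit 23) .nil)))))))) (.g (nat_lit 1) (.e (nat_lit 229134) (nat_lit 0) .nil) .nil))))) 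
(.nd (nat_lit 8) (.nd (nat_lit 9) 
(.lf (nat_lit 522452) (.g (nat_lit 3507) (.e (nat_lit 204852) (nat_lit 26) (.e (nat_lit 336326) (nat_lit 18) (.e (nat_lit 204882) (nat_lit 32) (.e (nat_lit 385066) (nat_lit 26) (.e (nat_lit 532534) (nat_lit 9) (.e (nat_lit 336325) (nat_lit 18) .nil)))))) (.g (nat_lit 1) (.e (nat_lit 227316) (nat_lit 0) .nil) .nil))) 
(.lf (nat_lit 522964) (.g (nat_lit 2423) (.e (nat_lit 204861) (nat_lit 26) (.e (nat_lit 336194) (nat_lit 12) (.e (nat_lit 385067) (nat_lit 26) (.e (nat_lit 532510) (nat_lit 2) (.e (nat_lit 106534) (nat_lit 11) (.e (nat_lit 16416) (nat_lit 3) .nil)))))) (.g (nat_lit 1) (.e (nat_lit 228886) (nat_lit 0) .nil) .nil)))) (.nd (nat_lit 9) 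
(.lf (nat_lit 522708) (.g (nat_lit 1727) (.e (nat_lit 204855) (nat_lit 26) (.e (nat_lit 336176) (nat_lit 10) (.e (nat_lit 344133) (nat_lit 26) (.e (nat_lit 557068) (nat_lit 9) (.e (nat_lit 290) (nat_lit 21) .nil))))) (.g (nat_lit 0) (.e (nat_lit 228235) (nat_lit 0) .nil) .nil))) 
(.lf (nat_lit 523220) (.g (nat_lit 4046) (.e (nat_lit 204862) (nat_lit 27) (.e (nat_lit 344129) (nat_lit 26) (.e (nat_lit 557104) (nat_lit 14) (.e (nat_lit 180252) (nat_lit 10) (.e (nat_lit 573474) (nat_lit 12) (.e (nat_lit 57508) (nat_lit 39) (.e (nat_lit 655104) (nat_lit 0) (.e (nat_lit 2684) (nat_lit 168) .nil)))))))) (.g (nat_lit 1) (.e (nat_lit 229293) (nat_lit 0) .nil) .nil))))))) 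
(.nd (nat_lit 6) (.nd (nat_lit 7) (.nd (nat_lit 8) (.nd (nat_lit 9) 
(.lf (nat_lit 522292) (.g (nat_lit 4569) (.e (nat_lit 204851) (nat_lit 26) (.e (nat_lit 336324) (nat_lit 18) (.e (nat_lit 204831) (nat_lit 18) (.e (nat_lit 57849) (nat_lit 252) .nil)))) (.g (nat_lit 0) (.e (nat_lit 226824) (nat_lit 0) .nil) .nil))) 
(.lf (nat_lit 522804) (.g (nat_lit 1279) (.e (nat_lit 204861) (nat_lit 26) (.e (nat_lit 335988) (nat_lit 1) (.e (nat_lit 57926) (nat_lit 282) (.e (nat_lit 163844) (nat_lit 0) .nil)))) (.g (nat_lit 0) (.e (nat_lit 228564) (nat_lit 0) .nil) .nil)))) (.nd (nat_lit 9) 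
(.lf (nat_lit 522548) (.g (nat_lit 1504) (.e (nat_lit 204854) (nat_lit 26) (.e (nat_lit 336019) (nat_lit 3) (.e (nat_lit 98342) (nat_lit 20) (.e (nat_lit 221214) (nat_lit 23) .nil)))) (.g (nat_lit 0) (.e (nat_lit 227616) (nat_lit 0) .nil) .nil))) 
(.lf (nat_lit 523060) (.g (nat_lit 3158) (.e (nat_lit 204862) (nat_lit 27) (.e (nat_lit 344117) (nat_lit 21) (.e (nat_lit 516115) (nat_lit 1) (.e (nat_lit 164179) (nat_lit 154) (.e (nat_lit 57377) (nat_lit 3) (.e (nat_lit 98319) (nat_lit 17) (.e (nat_lit 3771) (nat_lit 229) (.e (nat_lit 794673) (nat_lit 23) .nil)))))))) (.g (nat_lit 1) (.e (nat_lit 229080) (nat_lit 0) .nil) .nil))))) 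
(.nd (nat_lit 8) (.nd (nat_lit 9) 
(.lf (nat_lit 522420) (.g (nat_lit 3581) (.e (nat_lit 204852) (nat_lit 26) (.e (nat_lit 336326) (nat_lit 18) (.e (nat_lit 204880) (nat_lit 32) (.e (nat_lit 385066) (nat_lit 26) (.e (nat_lit 532530) (nat_lit 9) (.e (nat_lit 336326) (nat_lit 18) .nil)))))) (.g (nat_lit 1) (.e (nat_lit 227275) (nat_lit 0) .nil) .nil))) 
(.lf (nat_lit 522932) (.g (nat_lit 1778) (.e (nat_lit 204861) (nat_lit 26) (.e (nat_lit 336186) (nat_lit 11) (.e (nat_lit 368676) (nat_lit 21) (.e (nat_lit 516169) (nat_lit 13) (.e (nat_lit 458775) (nat_lit 18) (.e (nat_lit 5946) (nat_lit 322) (.e (nat_lit 65280) (nat_lit 64) .nil))))))) (.g (nat_lit 1) (.e (nat_lit 228824) (nat_lit 0) .nil) .nil)))) (.nd (nat_lit 9) 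
(.lf (nat_lit 522676) (.g (nat_lit 3243) (.e (nat_lit 204855) (nat_lit 26) (.e (nat_lit 336176) (nat_lit 10) (.e (nat_lit 344127) (nat_lit 26) (.e (nat_lit 557090) (nat_lit 12) (.e (nat_lit 164017) (nat_lit 44) (.e (nat_lit 688138) (nat_lit 5) (.e (nat_lit 2887) (nat_lit 184) (.e (nat_lit 426140) (nat_lit 3) .nil)))))))) (.g (nat_lit 1) (.e (nat_lit 228007) (nat_lit 0) .nil) .nil))) 
(.lf (nat_lit 523188) (.g (nat_lit 3999) (.e (nat_lit 204862) (nat_lit 27) (.e (nat_lit 344129) (nat_lit 26) (.e (nat_lit 557103) (nat_lit 14) (.e (nat_lit 180250) (nat_lit 10) (.e (nat_lit 573474) (nat_lit 12) (.e (nat_lit 57508) (nat_lit 39) (.e (nat_lit 647175) (nat_lit 0) (.e (nat_lit 2684) (nat_lit 168) .nil)))))))) (.g (nat_lit 1) (.e (nat_lit 229260) (nat_lit 0) .nil) .nil)))))) 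
(.nd (nat_lit 7) (.nd (nat_lit 8) (.nd (nat_lit 9) 
(.lf (nat_lit 522356) (.g (nat_lit 1435) (.e (nat_lit 204852) (nat_lit 26) (.e (nat_lit 336324) (nat_lit 18) (.e (nat_lit 204880) (nat_lit 32) (.e (nat_lit 385057) (nat_lit 22) .nil)))) (.g (nat_lit 0) (.e (nat_lit 227061) (nat_lit 0) .nil) .nil))) 
(.lf (nat_lit 522868) (.g (nat_lit 1861) (.e (nat_lit 204861) (nat_lit 26) (.e (nat_lit 336076) (nat_lit 9) (.e (nat_lit 336324) (nat_lit 18) (.e (nat_lit 204838) (nat_lit 20) (.e (nat_lit 114695) (nat_lit 11) .nil))))) (.g (nat_lit 0) (.e (nat_lit 228729) (nat_lit 0) .nil) .nil)))) (.nd (nat_lit 9) 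
(.lf (nat_lit 522612) (.g (nat_lit 2010) (.e (nat_lit 204854) (nat_lit 26) (.e (nat_lit 336326) (nat_lit 18) (.e (nat_lit 204882) (nat_lit 32) (.e (nat_lit 385066) (nat_lit 26) (.e (nat_lit 532527) (nat_lit 9) .nil))))) (.g (nat_lit 0) (.e (nat_lit 227789) (nat_lit 0) .nil) .nil))) 
(.lf (nat_lit 523124) (.g (nat_lit 2313) (.e (nat_lit 204862) (nat_lit 27) (.e (nat_lit 344117) (nat_lit 21) (.e (nat_lit 516130) (nat_lit 3) (.e (nat_lit 221215) (nat_lit 23) (.e (nat_lit 204839) (nat_lit 21) .nil))))) (.g (nat_lit 0) (.e (nat_lit 229169) (nat_lit 0) .nil) .nil))))) (.nd (nat_lit 8) (.nd (nat_lit 9) 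
(.lf (nat_lit 522484) (.g (nat_lit 4644) (.e (nat_lit 204853) (nat_lit 26) (.e (nat_lit 336324) (nat_lit 18) (.e (nat_lit 204831) (nat_lit 18) (.e (nat_lit 57854) (nat_lit 252) (.e (nat_lit 57373) (nat_lit 2) (.e (nat_lit 90164) (nat_lit 12) (.e (nat_lit 164060) (nat_lit 57) (.e (nat_lit 794671) (nat_lit 23) .nil)))))))) (.g (nat_lit 1) (.e (nat_lit 227426) (nat_lit 0) .nil) .nil))) 
(.lf (nat_lit 522996) (.g (nat_lit 2701) (.e (nat_lit 204861) (nat_lit 26) (.e (nat_lit 336203) (nat_lit 12) (.e (nat_lit 385072) (nat_lit 31) (.e (nat_lit 573481) (nat_lit 13) (.e (nat_lit 65630) (nat_lit 14) .nil))))) (.g (nat_lit 0) (.e (nat_lit 228955) (nat_lit 0) .nil) .nil)))) (.nd (nat_lit 9) 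
(.lf (nat_lit 522740) (.g (nat_lit 1196) (.e (nat_lit 204856) (nat_lit 26) (.e (nat_lit 336060) (nat_lit 7) (.e (nat_lit 319505) (nat_lit 10) (.e (nat_lit 584) (nat_lit 43) .nil)))) (.g (nat_lit 0) (.e (nat_lit 228409) (nat_lit 0) .nil) .nil))) 
(.lf (nat_lit 523252) (.g (nat_lit 2766) (.e (nat_lit 204862) (nat_lit 27) (.e (nat_lit 344130) (nat_lit 26) (.e (nat_lit 557103) (nat_lit 14) (.e (nat_lit 180250) (nat_lit 10) (.e (nat_lit 573473) (nat_lit 12) (.e (nat_lit 57508) (nat_lit 39) (.e (nat_lit 647168) (nat_lit 0) (.e (nat_lit 2685) (nat_lit 168) .nil)))))))) (.g (nat_lit 1) (.e (nat_lit 229325) (nat_lit 0) .nil) .nil))))))))) 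
(.nd (nat_lit 4) (.nd (nat_lit 5) (.nd (nat_lit 6) (.nd (nat_lit 7) (.nd (nat_lit 8) 
(.nd (nat_lit 9) 
(.lf (nat_lit 522252) (.g (nat_lit 1615) (.e (nat_lit 204850) (nat_lit 26) (.e (nat_lit 336028) (nat_lit 3) (.e (nat_lit 98342) (nat_lit 20) (.e (nat_lit 221215) (nat_lit 23) .nil)))) (.g (nat_lit 0) (.e (nat_lit 226747) (nat_lit 0) .nil) .nil))) 
(.lf (nat_lit 522764) (.g (nat_lit 3396) (.e (nat_lit 204859) (nat_lit 26) (.e (nat_lit 336206) (nat_lit 12) (.e (nat_lit 385066) (nat_lit 26) (.e (nat_lit 532513) (nat_lit 3) (.e (nat_lit 114698) (nat_lit 11) (.e (nat_lit 426139) (nat_lit 3) .nil)))))) (.g (nat_lit 1) (.e (nat_lit 228464) (nat_lit 0) .nil) .nil)))) (.nd (nat_lit 9) 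
(.lf (nat_lit 522508) (.g (nat_lit 2498) (.e (nat_lit 204853) (nat_lit 26) (.e (nat_lit 336324) (nat_lit 18) (.e (nat_lit 204880) (nat_lit 32) (.e (nat_lit 385066) (nat_lit 26) (.e (nat_lit 532530) (nat_lit 9) (.e (nat_lit 336326) (nat_lit 18) .nil)))))) (.g (nat_lit 1) (.e (nat_lit 227452) (nat_lit 0) .nil) .nil))) 
(.lf (nat_lit 523020) (.g (nat_lit 1684) (.e (nat_lit 204861) (nat_lit 26) (.e (nat_lit 336213) (nat_lit 13) (.e (nat_lit 393251) (nat_lit 18) (.e (nat_lit 164179) (nat_lit 154) (.e (nat_lit 65280) (nat_lit 12) .nil))))) (.g (nat_lit 0) (.e (nat_lit 229000) (nat_lit 0) .nil) .nil))))) (.nd (nat_lit 8) (.nd (nat_lit 9) 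
(.lf (nat_lit 522380) (.g (nat_lit 2572) (.e (nat_lit 204852) (nat_lit 26) (.e (nat_lit 336324) (nat_lit 18) (.e (nat_lit 204882) (nat_lit 32) (.e (nat_lit 385066) (nat_lit 26) (.e (nat_lit 532533) (nat_lit 9) (.e (nat_lit 336324) (nat_lit 18) .nil)))))) (.g (nat_lit 1) (.e (nat_lit 227092) (nat_lit 0) .nil) .nil))) 
(.lf (nat_lit 522892) (.g (nat_lit 3139) (.e (nat_lit 204861) (nat_lit 26) (.e (nat_lit 336078) (nat_lit 9) (.e (nat_lit 336324) (nat_lit 18) (.e (nat_lit 204835) (nat_lit 19) (.e (nat_lit 106536) (nat_lit 11) (.e (nat_lit 16415) (nat_lit 3) .nil)))))) (.g (nat_lit 1) (.e (nat_lit 228771) (nat_lit 0) .nil) .nil)))) (.nd (nat_lit 9) 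
(.lf (nat_lit 522636) (.g (nat_lit 2766) (.e (nat_lit 204855) (nat_lit 26) (.e (nat_lit 336099) (nat_lit 9) (.e (nat_lit 336013) (nat_lit 2) (.e (nat_lit 90165) (nat_lit 12) (.e (nat_lit 164208) (nat_lit 176) .nil))))) (.g (nat_lit 0) (.e (nat_lit 227894) (nat_lit 0) .nil) .nil))) 
(.lf (nat_lit 523148) (.g (nat_lit 2209) (.e (nat_lit 204862) (nat_lit 27) (.e (nat_lit 344129) (nat_lit 26) (.e (nat_lit 557096) (nat_lit 13) (.e (nat_lit 172064) (nat_lit 2) (.e (nat_lit 196661) (nat_lit 12) .nil))))) (.g (nat_lit 0) (.e (nat_lit 229219) (nat_lit 0) .nil) .nil)))))) (.nd (nat_lit 7) (.nd (nat_lit 8) (.nd (nat_lit 9) 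
(.lf (nat_lit 522316) (.g (nat_lit 2610) (.e (nat_lit 204852) (nat_lit 26) (.e (nat_lit 336310) (nat_lit 16) (.e (nat_lit 164183) (nat_lit 154) (.e (nat_lit 57378) (nat_lit 3) (.e (nat_lit 98334) (nat_lit 18) (.e (nat_lit 164305) (nat_lit 226) (.e (nat_lit 2725) (nat_lit 172) (.e (nat_lit 237594) (nat_lit 3) .nil)))))))) (.g (nat_lit 1) (.e (nat_lit 226938) (nat_lit 0) .nil) .nil))) 
(.lf (nat_lit 522828) (.g (nat_lit 2033) (.e (nat_lit 204861) (nat_lit 26) (.e (nat_lit 336027) (nat_lit 3) (.e (nat_lit 98335) (nat_lit 18) (.e (nat_lit 164179) (nat_lit 154) .nil)))) (.g (nat_lit 0) (.e (nat_lit 228661) (nat_lit 0) .nil) .nil)))) (.nd (nat_lit 9) 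
(.lf (nat_lit 522572) (.g (nat_lit 4553) (.e (nat_lit 204854) (nat_lit 26) (.e (nat_lit 336324) (nat_lit 18) (.e (nat_lit 204831) (nat_lit 18) (.e (nat_lit 57852) (nat_lit 252) .nil)))) (.g (nat_lit 0) (.e (nat_lit 227693) (nat_lit 0) .nil) .nil))) 
(.lf (nat_lit 523084) (.g (nat_lit 3619) (.e (nat_lit 204862) (nat_lit 27) (.e (nat_lit 344117) (nat_lit 21) (.e (nat_lit 516116) (nat_lit 1) (.e (nat_lit 164183) (nat_lit 154) (.e (nat_lit 57373) (nat_lit 2) (.e (nat_lit 90162) (nat_lit 12) (.e (nat_lit 164061) (nat_lit 57) (.e (nat_lit 794673) (nat_lit 23) .nil)))))))) (.g (nat_lit 1) (.e (nat_lit 229118) (nat_lit 0) .nil) .nil))))) 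
(.nd (nat_lit 8) (.nd (nat_lit 9) 
(.lf (nat_lit 522444) (.g (nat_lit 1647) (.e (nat_lit 204852) (nat_lit 26) (.e (nat_lit 336326) (nat_lit 18) (.e (nat_lit 204882) (nat_lit 32) (.e (nat_lit 385066) (nat_lit 26) (.e (nat_lit 532531) (nat_lit 9) (.e (nat_lit 336322) (nat_lit 18) .nil)))))) (.g (nat_lit 1) (.e (nat_lit 227308) (nat_lit 0) .nil) .nil))) 
(.lf (nat_lit 522956) (.g (nat_lit 3041) (.e (nat_lit 204861) (nat_lit 26) (.e (nat_lit 336194) (nat_lit 12) (.e (nat_lit 385066) (nat_lit 26) (.e (nat_lit 532513) (nat_lit 3) (.e (nat_lit 114697) (nat_lit 11) (.e (nat_lit 426137) (nat_lit 3) .nil)))))) (.g (nat_lit 1) (.e (nat_lit 228878) (nat_lit 0) .nil) .nil)))) (.nd (nat_lit 9) 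
(.lf (nat_lit 522700) (.g (nat_lit 1208) (.e (nat_lit 204855) (nat_lit 26) (.e (nat_lit 336176) (nat_lit 10) (.e (nat_lit 344132) (nat_lit 26) (.e (nat_lit 557089) (nat_lit 12) .nil)))) (.g (nat_lit 0) (.e (nat_lit 228202) (nat_lit 0) .nil) .nil))) 
(.lf (nat_lit 523212) (.g (nat_lit 3950) (.e (nat_lit 204862) (nat_lit 27) (.e (nat_lit 344129) (nat_lit 26) (.e (nat_lit 557104) (nat_lit 14) (.e (nat_lit 180252) (nat_lit 10) (.e (nat_lit 573473) (nat_lit 12) (.e (nat_lit 57511) (nat_lit 39) (.e (nat_lit 655104) (nat_lit 0) (.e (nat_lit 2684) (nat_lit 168) .nil)))))))) (.g (nat_lit 1) (.e (nat_lit 229285) (nat_lit 0) .nil) .nil))))))) 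
(.nd (nat_lit 6) (.nd (nat_lit 7) (.nd (nat_lit 8) (.nd (nat_lit 9) 
(.lf (nat_lit 522284) (.g (nat_lit 1556) (.e (nat_lit 204851) (nat_lit 26) (.e (nat_lit 336019) (nat_lit 3) (.e (nat_lit 98342) (nat_lit 20) (.e (nat_lit 221198) (nat_lit 20) .nil)))) (.g (nat_lit 0) (.e (nat_lit 226816) (nat_lit 0) .nil) .nil))) 
(.lf (nat_lit 522796) (.g (nat_lit 1484) (.e (nat_lit 204861) (nat_lit 26) (.e (nat_lit 335987) (nat_lit 1) (.e (nat_lit 57927) (nat_lit 282) (.e (nat_lit 163843) (nat_lit 0) (.e (nat_lit 7936) (nat_lit 200) .nil))))) (.g (nat_lit 0) (.e (nat_lit 228528) (nat_lit 0) .nil) .nil)))) (.nd (nat_lit 9) 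
(.lf (nat_lit 522540) (.g (nat_lit 2931) (.e (nat_lit 204854) (nat_lit 26) (.e (nat_lit 336019) (nat_lit 3) (.e (nat_lit 98341) (nat_lit 20) (.e (nat_lit 221215) (nat_lit 23) (.e (nat_lit 204830) (nat_lit 18) (.e (nat_lit 57929) (nat_lit 282) (.e (nat_lit 163874) (nat_lit 3) .nil))))))) (.g (nat_lit 1) (.e (nat_lit 227592) (nat_lit 0) .nil) .nil))) 
(.lf (nat_lit 523052) (.g (nat_lit 2426) (.e (nat_lit 204862) (nat_lit 27) (.e (nat_lit 344117) (nat_lit 21) (.e (nat_lit 516115) (nat_lit 1) (.e (nat_lit 164179) (nat_lit 154) (.e (nat_lit 57371) (nat_lit 2) (.e (nat_lit 90162) (nat_lit 12) (.e (nat_lit 164061) (nat_lit 57) (.e (nat_lit 794673) (nat_lit 23) .nil)))))))) (.g (nat_lit 1) (.e (nat_lit 229068) (nat_lit 0) .nil) .nil))))) 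
(.nd (nat_lit 8) (.nd (nat_lit 9) 
(.lf (nat_lit 522412) (.g (nat_lit 2669) (.e (nat_lit 204852) (nat_lit 26) (.e (nat_lit 336326) (nat_lit 18) (.e (nat_lit 204854) (nat_lit 26) (.e (nat_lit 336316) (nat_lit 17) (.e (nat_lit 196630) (nat_lit 9) (.e (nat_lit 1424) (nat_lit 108) (.e (nat_lit 336322) (nat_lit 18) .nil))))))) (.g (nat_lit 1) (.e (nat_lit 227220) (nat_lit 0) .nil) .nil))) 
(.lf (nat_lit 522924) (.g (nat_lit 1683) (.e (nat_lit 204861) (nat_lit 26) (.e (nat_lit 336186) (nat_lit 11) (.e (nat_lit 368676) (nat_lit 21) (.e (nat_lit 516169) (nat_lit 13) (.e (nat_lit 458774) (nat_lit 18) (.e (nat_lit 5934) (nat_lit 322) (.e (nat_lit 65280) (nat_lit 64) .nil))))))) (.g (nat_lit 1) (.e (nat_lit 228814) (nat_lit 0) .nil) .nil)))) (.nd (nat_lit 9) 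
(.lf (nat_lit 522668) (.g (nat_lit 4576) (.e (nat_lit 204855) (nat_lit 26) (.e (nat_lit 336176) (nat_lit 10) (.e (nat_lit 344117) (nat_lit 21) (.e (nat_lit 516139) (nat_lit 7) (.e (nat_lit 409643) (nat_lit 18) (.e (nat_lit 303118) (nat_lit 3) .nil)))))) (.g (nat_lit 1) (.e (nat_lit 227976) (nat_lit 0) .nil) .nil))) 
(.lf (nat_lit 523180) (.g (nat_lit 2071) (.e (nat_lit 204862) (nat_lit 27) (.e (nat_lit 344129) (nat_lit 26) (.e (nat_lit 557103) (nat_lit 14) (.e (nat_lit 180249) (nat_lit 10) .nil)))) (.g (nat_lit 0) (.e (nat_lit 229252) (nat_lit 0) .nil) .nil)))))) (.nd (nat_lit 7) (.nd (nat_lit 8) (.nd (nat_lit 9) 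
(.lf (nat_lit 522348) (.g (nat_lit 694) (.e (nat_lit 204852) (nat_lit 26) (.e (nat_lit 336324) (nat_lit 18) (.e (nat_lit 204852) (nat_lit 26) (.e (nat_lit 336316) (nat_lit 17) .nil)))) (.g (nat_lit 0) (.e (nat_lit 227011) (nat_lit 0) .nil) .nil))) 
(.lf (nat_lit 522860) (.g (nat_lit 3250) (.e (nat_lit 204861) (nat_lit 26) (.e (nat_lit 336075) (nat_lit 9) (.e (nat_lit 336454) (nat_lit 34) (.e (nat_lit 483365) (nat_lit 18) (.e (nat_lit 57929) (nat_lit 282) (.e (nat_lit 163873) (nat_lit 3) .nil)))))) (.g (nat_lit 1) (.e (nat_lit 228708) (nat_lit 0) .nil) .nil)))) (.nd (nat_lit 9) 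
(.lf (nat_lit 522604) (.g (nat_lit 3218) (.e (nat_lit 204854) (nat_lit 26) (.e (nat_lit 336326) (nat_lit 18) (.e (nat_lit 204880) (nat_lit 32) (.e (nat_lit 385066) (nat_lit 26) (.e (nat_lit 532531) (nat_lit 9) (.e (nat_lit 336324) (nat_lit 18) .nil)))))) (.g (nat_lit 1) (.e (nat_lit 227781) (nat_lit 0) .nil) .nil))) 
(.lf (nat_lit 523116) (.g (nat_lit 2338) (.e (nat_lit 204862) (nat_lit 27) (.e (nat_lit 344117) (nat_lit 21) (.e (nat_lit 516130) (nat_lit 3) (.e (nat_lit 221212) (nat_lit 22) (.e (nat_lit 196658) (nat_lit 12) (.e (nat_lit 57508) (nat_lit 39) (.e (nat_lit 647175) (nat_lit 0) (.e (nat_lit 2684) (nat_lit 168) .nil)))))))) (.g (nat_lit 1) (.e (nat_lit 229161) (nat_lit 0) .nil) .nil))))) 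
(.nd (nat_lit 8) (.nd (nat_lit 9) 
(.lf (nat_lit 522476) (.g (nat_lit 4052) (.e (nat_lit 204853) (nat_lit 26) (.e (nat_lit 336324) (nat_lit 18) (.e (nat_lit 204831) (nat_lit 18) (.e (nat_lit 57848) (nat_lit 252) .nil)))) (.g (nat_lit 0) (.e (nat_lit 227418) (nat_lit 0) .nil) .nil))) 
(.lf (nat_lit 522988) (.g (nat_lit 3853) (.e (nat_lit 204861) (nat_lit 26) (.e (nat_lit 336194) (nat_lit 12) (.e (nat_lit 385074) (nat_lit 31) (.e (nat_lit 573485) (nat_lit 13) (.e (nat_lit 65628) (nat_lit 14) (.e (nat_lit 401428) (nat_lit 3) .nil)))))) (.g (nat_lit 1) (.e (nat_lit 228939) (nat_lit 0) .nil) .nil)))) (.nd (nat_lit 9) 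
(.lf (nat_lit 522732) (.g (nat_lit 2042) (.e (nat_lit 204855) (nat_lit 26) (.e (nat_lit 336193) (nat_lit 12) (.e (nat_lit 385074) (nat_lit 31) (.e (nat_lit 573480) (nat_lit 13) .nil)))) (.g (nat_lit 0) (.e (nat_lit 228343) (nat_lit 0) .nil) .nil))) 
(.lf (nat_lit 523244) (.g (nat_lit 1273) (.e (nat_lit 204862) (nat_lit 27) (.e (nat_lit 344130) (nat_lit 26) (.e (nat_lit 557097) (nat_lit 13) (.e (nat_lit 172073) (nat_lit 5) (.e (nat_lit 245772) (nat_lit 2) .nil))))) (.g (nat_lit 0) (.e (nat_lit 229317) (nat_lit 0) .nil) .nil)))))))) (.nd (nat_lit 5) (.nd (nat_lit 6) (.nd (nat_lit 7) (.nd (nat_lit 8) (.nd (nat_lit 9) 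
(.lf (nat_lit 522268) (.g (nat_lit 4676) (.e (nat_lit 204850) (nat_lit 26) (.e (nat_lit 336324) (nat_lit 18) (.e (nat_lit 204831) (nat_lit 18) (.e (nat_lit 57844) (nat_lit 252) .nil)))) (.g (nat_lit 0) (.e (nat_lit 226776) (nat_lit 0) .nil) .nil))) 
(.lf (nat_lit 522780) (.g (nat_lit 2652) (.e (nat_lit 204859) (nat_lit 26) (.e (nat_lit 336235) (nat_lit 14) (.e (nat_lit 401425) (nat_lit 2) (.e (nat_lit 196666) (nat_lit 13) (.e (nat_lit 65628) (nat_lit 14) .nil))))) (.g (nat_lit 0) (.e (nat_lit 228494) (nat_lit 0) .nil) .nil)))) (.nd (nat_lit 9) 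
(.lf (nat_lit 522524) (.g (nat_lit 2790) (.e (nat_lit 204853) (nat_lit 26) (.e (nat_lit 336334) (nat_lit 20) (.e (nat_lit 221210) (nat_lit 22) (.e (nat_lit 196656) (nat_lit 11) (.e (nat_lit 16436) (nat_lit 9) (.e (nat_lit 426131) (nat_lit 3) .nil)))))) (.g (nat_lit 1) (.e (nat_lit 227476) (nat_lit 0) .nil) .nil))) 
(.lf (nat_lit 523036) (.g (nat_lit 2011) (.e (nat_lit 212736) (nat_lit 26) (.e (nat_lit 336088) (nat_lit 9) (.e (nat_lit 336324) (nat_lit 18) (.e (nat_lit 204838) (nat_lit 20) (.e (nat_lit 114698) (nat_lit 11) .nil))))) (.g (nat_lit 0) (.e (nat_lit 229029) (nat_lit 0) .nil) .nil))))) (.nd (nat_lit 8) (.nd (nat_lit 9) 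
(.lf (nat_lit 522396) (.g (nat_lit 2488) (.e (nat_lit 204852) (nat_lit 26) (.e (nat_lit 336326) (nat_lit 18) (.e (nat_lit 204831) (nat_lit 18) (.e (nat_lit 57847) (nat_lit 252) (.e (nat_lit 57377) (nat_lit 3) .nil))))) (.g (nat_lit 0) (.e (nat_lit 227126) (nat_lit 0) .nil) .nil))) 
(.lf (nat_lit 522908) (.g (nat_lit 3091) (.e (nat_lit 204861) (nat_lit 26) (.e (nat_lit 336088) (nat_lit 9) (.e (nat_lit 336324) (nat_lit 18) (.e (nat_lit 204837) (nat_lit 20) (.e (nat_lit 114697) (nat_lit 11) (.e (nat_lit 426138) (nat_lit 3) .nil)))))) (.g (nat_lit 1) (.e (nat_lit 228788) (nat_lit 0) .nil) .nil)))) (.nd (nat_lit 9) 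
(.lf (nat_lit 522652) (.g (nat_lit 2584) (.e (nat_lit 204855) (nat_lit 26) (.e (nat_lit 336099) (nat_lit 9) (.e (nat_lit 336028) (nat_lit 3) (.e (nat_lit 98350) (nat_lit 24) (.e (nat_lit 417536) (nat_lit 18) .nil))))) (.g (nat_lit 0) (.e (nat_lit 227937) (nat_lit 0) .nil) .nil))) 
(.lf (nat_lit 523164) (.g (nat_lit 3410) (.e (nat_lit 204862) (nat_lit 27) (.e (nat_lit 344129) (nat_lit 26) (.e (nat_lit 557097) (nat_lit 13) (.e (nat_lit 172067) (nat_lit 3) (.e (nat_lit 204830) (nat_lit 18) (.e (nat_lit 65280) (nat_lit 168) (.e (nat_lit 163875) (nat_lit 3) .nil))))))) (.g (nat_lit 1) (.e (nat_lit 229235) (nat_lit 0) .nil) .nil)))))) 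
(.nd (nat_lit 7) (.nd (nat_lit 8) (.nd (nat_lit 9) 
(.lf (nat_lit 522332) (.g (nat_lit 4497) (.e (nat_lit 204852) (nat_lit 26) (.e (nat_lit 336324) (nat_lit 18) (.e (nat_lit 204831) (nat_lit 18) (.e (nat_lit 57847) (nat_lit 252) (.e (nat_lit 57377) (nat_lit 3) .nil))))) (.g (nat_lit 0) (.e (nat_lit 226986) (nat_lit 0) .nil) .nil))) 
(.lf (nat_lit 522844) (.g (nat_lit 1994) (.e (nat_lit 204861) (nat_lit 26) (.e (nat_lit 336075) (nat_lit 9) (.e (nat_lit 336326) (nat_lit 18) (.e (nat_lit 204838) (nat_lit 20) (.e (nat_lit 114697) (nat_lit 11) (.e (nat_lit 426138) (nat_lit 3) .nil)))))) (.g (nat_lit 1) (.e (nat_lit 228684) (nat_lit 0) .nil) .nil)))) (.nd (nat_lit 9) 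
(.lf (nat_lit 522588) (.g (nat_lit 2496) (.e (nat_lit 204854) (nat_lit 26) (.e (nat_lit 336324) (nat_lit 18) (.e (nat_lit 204882) (nat_lit 32) (.e (nat_lit 385068) (nat_lit 26) (.e (nat_lit 532529) (nat_lit 9) (.e (nat_lit 336324) (nat_lit 18) .nil)))))) (.g (nat_lit 1) (.e (nat_lit 227727) (nat_lit 0) .nil) .nil))) 
(.lf (nat_lit 523100) (.g (nat_lit 3232) (.e (nat_lit 204862) (nat_lit 27) (.e (nat_lit 344117) (nat_lit 21) (.e (nat_lit 516120) (nat_lit 1) (.e (nat_lit 164183) (nat_lit 154) (.e (nat_lit 57375) (nat_lit 2) .nil))))) (.g (nat_lit 0) (.e (nat_lit 229145) (nat_lit 0) .nil) .nil))))) (.nd (nat_lit 8) (.nd (nat_lit 9) 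
(.lf (nat_lit 522460) (.g (nat_lit 1751) (.e (nat_lit 204852) (nat_lit 26) (.e (nat_lit 336336) (nat_lit 20) (.e (nat_lit 221201) (nat_lit 20) .nil))) (.g (nat_lit 0) (.e (nat_lit 227353) (nat_lit 0) .nil) .nil))) 
(.lf (nat_lit 522972) (.g (nat_lit 3272) (.e (nat_lit 204861) (nat_lit 26) (.e (nat_lit 336194) (nat_lit 12) (.e (nat_lit 385068) (nat_lit 26) (.e (nat_lit 532513) (nat_lit 3) (.e (nat_lit 114694) (nat_lit 11) (.e (nat_lit 426133) (nat_lit 3) .nil)))))) (.g (nat_lit 1) (.e (nat_lit 228912) (nat_lit 0) .nil) .nil)))) (.nd (nat_lit 9) 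
(.lf (nat_lit 522716) (.g (nat_lit 2141) (.e (nat_lit 204855) (nat_lit 26) (.e (nat_lit 336176) (nat_lit 10) (.e (nat_lit 344133) (nat_lit 26) (.e (nat_lit 557091) (nat_lit 12) (.e (nat_lit 164017) (nat_lit 44) .nil))))) (.g (nat_lit 0) (.e (nat_lit 228303) (nat_lit 0) .nil) .nil))) 
(.lf (nat_lit 523228) (.g (nat_lit 2542) (.e (nat_lit 204862) (nat_lit 27) (.e (nat_lit 344129) (nat_lit 26) (.e (nat_lit 557104) (nat_lit 14) (.e (nat_lit 180252) (nat_lit 10) (.e (nat_lit 573503) (nat_lit 18) .nil))))) (.g (nat_lit 0) (.e (nat_lit 229301) (nat_lit 0) .nil) .nil))))))) (.nd (nat_lit 6) (.nd (nat_lit 7) (.nd (nat_lit 8) (.nd (nat_lit 9) 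
(.lf (nat_lit 522300) (.g (nat_lit 3001) (.e (nat_lit 204851) (nat_lit 26) (.e (nat_lit 336324) (nat_lit 18) (.e (nat_lit 204881) (nat_lit 32) (.e (nat_lit 385066) (nat_lit 26) (.e (nat_lit 532534) (nat_lit 9) (.e (nat_lit 336326) (nat_lit 18) .nil)))))) (.g (nat_lit 1) (.e (nat_lit 226844) (nat_lit 0) .nil) .nil))) 
(.lf (nat_lit 522812) (.g (nat_lit 4606) (.e (nat_lit 204861) (nat_lit 26) (.e (nat_lit 336004) (nat_lit 2) (.e (nat_lit 90158) (nat_lit 11) (.e (nat_lit 24608) (nat_lit 3) (.e (nat_lit 98333) (nat_lit 18) (.e (nat_lit 164183) (nat_lit 154) (.e (nat_lit 65280) (nat_lit 64) .nil))))))) (.g (nat_lit 1) (.e (nat_lit 228611) (nat_lit 0) .nil) .nil)))) (.nd (nat_lit 9) 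
(.lf (nat_lit 522556) (.g (nat_lit 2396) (.e (nat_lit 204854) (nat_lit 26) (.e (nat_lit 336160) (nat_lit 10) (.e (nat_lit 344119) (nat_lit 21) (.e (nat_lit 516139) (nat_lit 7) (.e (nat_lit 409648) (nat_lit 18) (.e (nat_lit 311040) (nat_lit 3) .nil)))))) (.g (nat_lit 1) (.e (nat_lit 227631) (nat_lit 0) .nil) .nil))) 
(.lf (nat_lit 523068) (.g (nat_lit 3646) (.e (nat_lit 204862) (nat_lit 27) (.e (nat_lit 344117) (nat_lit 21) (.e (nat_lit 516115) (nat_lit 1) (.e (nat_lit 164183) (nat_lit 154) (.e (nat_lit 57379) (nat_lit 3) (.e (nat_lit 98321) (nat_lit 17) (.e (nat_lit 3771) (nat_lit 229) (.e (nat_lit 794673) (nat_lit 23) .nil)))))))) (.g (nat_lit 1) (.e (nat_lit 229096) (nat_lit 0) .nil) .nil))))) 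
(.nd (nat_lit 8) (.nd (nat_lit 9) 
(.lf (nat_lit 522428) (.g (nat_lit 3237) (.e (nat_lit 204852) (nat_lit 26) (.e (nat_lit 336326) (nat_lit 18) (.e (nat_lit 204880) (nat_lit 32) (.e (nat_lit 385068) (nat_lit 26) (.e (nat_lit 532530) (nat_lit 9) (.e (nat_lit 336324) (nat_lit 18) .nil)))))) (.g (nat_lit 1) (.e (nat_lit 227283) (nat_lit 0) .nil) .nil))) 
(.lf (nat_lit 522940) (.g (nat_lit 1800) (.e (nat_lit 204861) (nat_lit 26) (.e (nat_lit 336186) (nat_lit 11) (.e (nat_lit 368676) (nat_lit 21) (.e (nat_lit 516171) (nat_lit 13) (.e (nat_lit 458774) (nat_lit 18) (.e (nat_lit 5950) (nat_lit 322) (.e (nat_lit 65280) (nat_lit 64) .nil))))))) (.g (nat_lit 1) (.e (nat_lit 228840) (nat_lit 0) .nil) .nil)))) (.nd (nat_lit 9) 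
(.lf (nat_lit 522684) (.g (nat_lit 1372) (.e (nat_lit 204855) (nat_lit 26) (.e (nat_lit 336176) (nat_lit 10) (.e (nat_lit 344130) (nat_lit 26) (.e (nat_lit 557088) (nat_lit 12) .nil)))) (.g (nat_lit 0) (.e (nat_lit 228083) (nat_lit 0) .nil) .nil))) 
(.lf (nat_lit 523196) (.g (nat_lit 3378) (.e (nat_lit 204862) (nat_lit 27) (.e (nat_lit 344129) (nat_lit 26) (.e (nat_lit 557103) (nat_lit 14) (.e (nat_lit 180250) (nat_lit 10) (.e (nat_lit 573475) (nat_lit 12) (.e (nat_lit 57508) (nat_lit 39) (.e (nat_lit 647170) (nat_lit 0) (.e (nat_lit 2685) (nat_lit 168) .nil)))))))) (.g (nat_lit 1) (.e (nat_lit 229268) (nat_lit 0) .nil) .nil)))))) 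
(.nd (nat_lit 7) (.nd (nat_lit 8) (.nd (nat_lit 9) 
(.lf (nat_lit 522364) (.g (nat_lit 2776) (.e (nat_lit 204852) (nat_lit 26) (.e (nat_lit 336324) (nat_lit 18) (.e (nat_lit 204880) (nat_lit 32) (.e (nat_lit 385066) (nat_lit 26) (.e (nat_lit 532534) (nat_lit 9) (.e (nat_lit 336322) (nat_lit 18) .nil)))))) (.g (nat_lit 1) (.e (nat_lit 227069) (nat_lit 0) .nil) .nil))) 
(.lf (nat_lit 522876) (.g (nat_lit 3767) (.e (nat_lit 204861) (nat_lit 26) (.e (nat_lit 336076) (nat_lit 9) (.e (nat_lit 336366) (nat_lit 27) (.e (nat_lit 426499) (nat_lit 27) (.e (nat_lit 335986) (nat_lit 1) (.e (nat_lit 57927) (nat_lit 282) (.e (nat_lit 163874) (nat_lit 3) .nil))))))) (.g (nat_lit 1) (.e (nat_lit 228737) (nat_lit 0) .nil) .nil)))) (.nd (nat_lit 9) 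
(.lf (nat_lit 522620) (.g (nat_lit 604) (.e (nat_lit 204854) (nat_lit 26) (.e (nat_lit 336332) (nat_lit 19) (.e (nat_lit 212997) (nat_lit 0) .nil))) (.g (nat_lit 0) (.e (nat_lit 227798) (nat_lit 0) .nil) .nil))) 
(.lf (nat_lit 523132) (.g (nat_lit 2687) (.e (nat_lit 204862) (nat_lit 27) (.e (nat_lit 344117) (nat_lit 21) (.e (nat_lit 516195) (nat_lit 26) (.e (nat_lit 336027) (nat_lit 3) (.e (nat_lit 98321) (nat_lit 17) .nil))))) (.g (nat_lit 0) (.e (nat_lit 229190) (nat_lit 0) .nil) .nil))))) (.nd (nat_lit 8) (.nd (nat_lit 9) 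
(.lf (nat_lit 522492) (.g (nat_lit 958) (.e (nat_lit 204853) (nat_lit 26) (.e (nat_lit 336324) (nat_lit 18) (.e (nat_lit 204852) (nat_lit 26) (.e (nat_lit 336326) (nat_lit 18) .nil)))) (.g (nat_lit 0) (.e (nat_lit 227434) (nat_lit 0) .nil) .nil))) 
(.lf (nat_lit 523004) (.g (nat_lit 1943) (.e (nat_lit 204861) (nat_lit 26) (.e (nat_lit 336213) (nat_lit 13) (.e (nat_lit 393221) (nat_lit 0) (.e (nat_lit 6207) (nat_lit 333) (.e (nat_lit 57881) (nat_lit 270) (.e (nat_lit 174) (nat_lit 12) .nil)))))) (.g (nat_lit 1) (.e (nat_lit 228975) (nat_lit 0) .nil) .nil)))) (.nd (nat_lit 9) 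
(.lf (nat_lit 522748) (.g (nat_lit 2759) (.e (nat_lit 204858) (nat_lit 26) (.e (nat_lit 336164) (nat_lit 10) (.e (nat_lit 344117) (nat_lit 21) (.e (nat_lit 516106) (nat_lit 0) (.e (nat_lit 7936) (nat_lit 377) (.e (nat_lit 2797) (nat_lit 180) (.e (nat_lit 303119) (nat_lit 3) .nil))))))) (.g (nat_lit 1) (.e (nat_lit 228427) (nat_lit 0) .nil) .nil))) 
(.lf (nat_lit 523260) (.g (nat_lit 3053) (.e (nat_lit 204862) (nat_lit 27) (.e (nat_lit 344130) (nat_lit 26) (.e (nat_lit 557103) (nat_lit 14) (.e (nat_lit 180250) (nat_lit 10) (.e (nat_lit 573475) (nat_lit 12) (.e (nat_lit 57509) (nat_lit 39) (.e (nat_lit 655104) (nat_lit 0) (.e (nat_lit 2684) (nat_lit 168) .nil)))))))) (.g (nat_lit 1) (.e (nat_lit 229333) (nat_lit 0) .nil) .nil))))))))))) 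
(.nd (nat_lit 2) (.nd (nat_lit 3) (.nd (nat_lit 4) (.nd (nat_lit 5) (.nd (nat_lit 6) 
(.nd (nat_lit 7) (.nd (nat_lit 8) (.nd (nat_lit 9) 
(.lf (nat_lit 522242) (.g (nat_lit 1618) (.e (nat_lit 204850) (nat_lit 26) (.e (nat_lit 336019) (nat_lit 3) (.e (nat_lit 98342) (nat_lit 20) (.e (nat_lit 221214) (nat_lit 23) .nil)))) (.g (nat_lit 0) (.e (nat_lit 226732) (nat_lit 0) .nil) .nil))) 
(.lf (nat_lit 522754) (.g (nat_lit 2078) (.e (nat_lit 204858) (nat_lit 26) (.e (nat_lit 336295) (nat_lit 15) (.e (nat_lit 3632) (nat_lit 227) (.e (nat_lit 778318) (nat_lit 3) .nil)))) (.g (nat_lit 0) (.e (nat_lit 228439) (nat_lit 0) .nil) .nil)))) (.nd (nat_lit 9) 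
(.lf (nat_lit 522498) (.g (nat_lit 2496) (.e (nat_lit 204853) (nat_lit 26) (.e (nat_lit 336324) (nat_lit 18) (.e (nat_lit 204854) (nat_lit 26) (.e (nat_lit 336316) (nat_lit 17) (.e (nat_lit 196666) (nat_lit 13) (.e (nat_lit 73472) (nat_lit 18) .nil)))))) (.g (nat_lit 1) (.e (nat_lit 227441) (nat_lit 0) .nil) .nil))) 
(.lf (nat_lit 523010) (.g (nat_lit 2264) (.e (nat_lit 204861) (nat_lit 26) (.e (nat_lit 336213) (nat_lit 13) (.e (nat_lit 393225) (nat_lit 9) (.e (nat_lit 335895) (nat_lit 0) (.e (nat_lit 1102) (nat_lit 81) .nil))))) (.g (nat_lit 0) (.e (nat_lit 228982) (nat_lit 0) .nil) .nil))))) (.nd (nat_lit 8) (.nd (nat_lit 9) 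
(.lf (nat_lit 522370) (.g (nat_lit 1708) (.e (nat_lit 204852) (nat_lit 26) (.e (nat_lit 336324) (nat_lit 18) (.e (nat_lit 204881) (nat_lit 32) (.e (nat_lit 385066) (nat_lit 26) (.e (nat_lit 532532) (nat_lit 9) (.e (nat_lit 336326) (nat_lit 18) .nil)))))) (.g (nat_lit 1) (.e (nat_lit 227075) (nat_lit 0) .nil) .nil))) 
(.lf (nat_lit 522882) (.g (nat_lit 3540) (.e (nat_lit 204861) (nat_lit 26) (.e (nat_lit 336076) (nat_lit 9) (.e (nat_lit 336454) (nat_lit 34) (.e (nat_lit 483364) (nat_lit 18) (.e (nat_lit 57929) (nat_lit 282) (.e (nat_lit 163874) (nat_lit 3) .nil)))))) (.g (nat_lit 1) (.e (nat_lit 228751) (nat_lit 0) .nil) .nil)))) (.nd (nat_lit 9) 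
(.lf (nat_lit 522626) (.g (nat_lit 1970) (.e (nat_lit 204855) (nat_lit 26) (.e (nat_lit 336099) (nat_lit 9) (.e (nat_lit 336013) (nat_lit 2) (.e (nat_lit 90134) (nat_lit 9) .nil)))) (.g (nat_lit 0) (.e (nat_lit 227862) (nat_lit 0) .nil) .nil))) 
(.lf (nat_lit 523138) (.g (nat_lit 2662) (.e (nat_lit 204862) (nat_lit 27) (.e (nat_lit 344118) (nat_lit 21) (.e (nat_lit 516120) (nat_lit 1) (.e (nat_lit 164183) (nat_lit 154) (.e (nat_lit 57373) (nat_lit 2) (.e (nat_lit 90181) (nat_lit 16) (.e (nat_lit 229472) (nat_lit 57) (.e (nat_lit 794673) (nat_lit 23) .nil)))))))) (.g (nat_lit 1) (.e (nat_lit 229199) (nat_lit 0) .nil) .nil)))))) 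
(.nd (nat_lit 7) (.nd (nat_lit 8) (.nd (nat_lit 9) 
(.lf (nat_lit 522306) (.g (nat_lit 1965) (.e (nat_lit 204851) (nat_lit 26) (.e (nat_lit 336326) (nat_lit 18) (.e (nat_lit 204854) (nat_lit 26) (.e (nat_lit 336306) (nat_lit 15) (.e (nat_lit 3238) (nat_lit 197) .nil))))) (.g (nat_lit 0) (.e (nat_lit 226855) (nat_lit 0) .nil) .nil))) 
(.lf (nat_lit 522818) (.g (nat_lit 2208) (.e (nat_lit 204861) (nat_lit 26) (.e (nat_lit 336021) (nat_lit 3) (.e (nat_lit 98317) (nat_lit 9) (.e (nat_lit 336027) (nat_lit 3) (.e (nat_lit 98334) (nat_lit 18) .nil))))) (.g (nat_lit 0) (.e (nat_lit 228638) (nat_lit 0) .nil) .nil)))) (.nd (nat_lit 9) 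
(.lf (nat_lit 522562) (.g (nat_lit 3211) (.e (nat_lit 204854) (nat_lit 26) (.e (nat_lit 336236) (nat_lit 14) (.e (nat_lit 401425) (nat_lit 2) (.e (nat_lit 196666) (nat_lit 13) (.e (nat_lit 65628) (nat_lit 14) (.e (nat_lit 401428) (nat_lit 3) .nil)))))) (.g (nat_lit 1) (.e (nat_lit 227665) (nat_lit 0) .nil) .nil))) 
(.lf (nat_lit 523074) (.g (nat_lit 3934) (.e (nat_lit 204862) (nat_lit 27) (.e (nat_lit 344117) (nat_lit 21) (.e (nat_lit 516116) (nat_lit 1) (.e (nat_lit 164180) (nat_lit 154) (.e (nat_lit 57379) (nat_lit 3) (.e (nat_lit 98321) (nat_lit 17) (.e (nat_lit 3771) (nat_lit 229) (.e (nat_lit 794673) (nat_lit 23) .nil)))))))) (.g (nat_lit 1) (.e (nat_lit 229105) (nat_lit 0) .nil) .nil))))) 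
(.nd (nat_lit 8) (.nd (nat_lit 9) 
(.lf (nat_lit 522434) (.g (nat_lit 2689) (.e (nat_lit 204852) (nat_lit 26) (.e (nat_lit 336326) (nat_lit 18) (.e (nat_lit 204881) (nat_lit 32) (.e (nat_lit 385066) (nat_lit 26) (.e (nat_lit 532530) (nat_lit 9) (.e (nat_lit 336326) (nat_lit 18) .nil)))))) (.g (nat_lit 1) (.e (nat_lit 227289) (nat_lit 0) .nil) .nil))) 
(.lf (nat_lit 522946) (.g (nat_lit 434) (.e (nat_lit 204861) (nat_lit 26) (.e (nat_lit 336194) (nat_lit 12) (.e (nat_lit 385057) (nat_lit 22) .nil))) (.g (nat_lit 0) (.e (nat_lit 228852) (nat_lit 0) .nil) .nil)))) (.nd (nat_lit 9) 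
(.lf (nat_lit 522690) (.g (nat_lit 2909) (.e (nat_lit 204855) (nat_lit 26) (.e (nat_lit 336176) (nat_lit 10) (.e (nat_lit 344130) (nat_lit 26) (.e (nat_lit 557090) (nat_lit 12) (.e (nat_lit 164016) (nat_lit 44) (.e (nat_lit 688139) (nat_lit 5) (.e (nat_lit 2887) (nat_lit 184) (.e (nat_lit 426134) (nat_lit 3) .nil)))))))) (.g (nat_lit 1) (.e (nat_lit 228163) (nat_lit 0) .nil) .nil))) 
(.lf (nat_lit 523202) (.g (nat_lit 4126) (.e (nat_lit 204862) (nat_lit 27) (.e (nat_lit 344129) (nat_lit 26) (.e (nat_lit 557103) (nat_lit 14) (.e (nat_lit 180250) (nat_lit 10) (.e (nat_lit 573477) (nat_lit 12) (.e (nat_lit 57511) (nat_lit 39) (.e (nat_lit 655104) (nat_lit 0) (.e (nat_lit 2684) (nat_lit 168) .nil)))))))) (.g (nat_lit 1) (.e (nat_lit 229274) (nat_lit 0) .nil) .nil))))))) 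
(.nd (nat_lit 6) (.nd (nat_lit 7) (.nd (nat_lit 8) (.nd (nat_lit 9) 
(.lf (nat_lit 522274) (.g (nat_lit 5106) (.e (nat_lit 204850) (nat_lit 26) (.e (nat_lit 336324) (nat_lit 18) (.e (nat_lit 204831) (nat_lit 18) (.e (nat_lit 57852) (nat_lit 252) (.e (nat_lit 57361) (nat_lit 0) .nil))))) (.g (nat_lit 0) (.e (nat_lit 226782) (nat_lit 0) .nil) .nil))) 
(.lf (nat_lit 522786) (.g (nat_lit 1895) (.e (nat_lit 204860) (nat_lit 26) (.e (nat_lit 336204) (nat_lit 12) (.e (nat_lit 385074) (nat_lit 31) (.e (nat_lit 573487) (nat_lit 14) (.e (nat_lit 73782) (nat_lit 32) .nil))))) (.g (nat_lit 0) (.e (nat_lit 228505) (nat_lit 0) .nil) .nil)))) (.nd (nat_lit 9) 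
(.lf (nat_lit 522530) (.g (nat_lit 2791) (.e (nat_lit 204853) (nat_lit 26) (.e (nat_lit 336336) (nat_lit 20) (.e (nat_lit 221212) (nat_lit 22) (.e (nat_lit 196656) (nat_lit 11) (.e (nat_lit 16436) (nat_lit 9) (.e (nat_lit 426131) (nat_lit 3) .nil)))))) (.g (nat_lit 1) (.e (nat_lit 227537) (nat_lit 0) .nil) .nil))) 
(.lf (nat_lit 523042) (.g (nat_lit 1699) (.e (nat_lit 212736) (nat_lit 26) (.e (nat_lit 336204) (nat_lit 12) (.e (nat_lit 385074) (nat_lit 31) (.e (nat_lit 573487) (nat_lit 14) (.e (nat_lit 73781) (nat_lit 32) .nil))))) (.g (nat_lit 0) (.e (nat_lit 229037) (nat_lit 0) .nil) .nil))))) (.nd (nat_lit 8) (.nd (nat_lit 9) 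
(.lf (nat_lit 522402) (.g (nat_lit 2253) (.e (nat_lit 204852) (nat_lit 26) (.e (nat_lit 336326) (nat_lit 18) (.e (nat_lit 204853) (nat_lit 26) (.e (nat_lit 336324) (nat_lit 18) (.e (nat_lit 204852) (nat_lit 26) (.e (nat_lit 336325) (nat_lit 18) .nil)))))) (.g (nat_lit 1) (.e (nat_lit 227193) (nat_lit 0) .nil) .nil))) 
(.lf (nat_lit 522914) (.g (nat_lit 794) (.e (nat_lit 204861) (nat_lit 26) (.e (nat_lit 336186) (nat_lit 11) (.e (nat_lit 368676) (nat_lit 21) (.e (nat_lit 516097) (nat_lit 0) .nil)))) (.g (nat_lit 0) (.e (nat_lit 228796) (nat_lit 0) .nil) .nil)))) (.nd (nat_lit 9) 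
(.lf (nat_lit 522658) (.g (nat_lit 3432) (.e (nat_lit 204855) (nat_lit 26) (.e (nat_lit 336163) (nat_lit 10) (.e (nat_lit 344117) (nat_lit 21) (.e (nat_lit 516139) (nat_lit 7) (.e (nat_lit 409649) (nat_lit 18) (.e (nat_lit 303118) (nat_lit 3) .nil)))))) (.g (nat_lit 1) (.e (nat_lit 227952) (nat_lit 0) .nil) .nil))) 
(.lf (nat_lit 523170) (.g (nat_lit 1714) (.e (nat_lit 204862) (nat_lit 27) (.e (nat_lit 344129) (nat_lit 26) (.e (nat_lit 557097) (nat_lit 13) (.e (nat_lit 179968) (nat_lit 18) .nil)))) (.g (nat_lit 0) (.e (nat_lit 229241) (nat_lit 0) .nil) .nil)))))) (.nd (nat_lit 7) (.nd (nat_lit 8) (.nd (nat_lit 9) 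
(.lf (nat_lit 522338) (.g (nat_lit 4307) (.e (nat_lit 204852) (nat_lit 26) (.e (nat_lit 336324) (nat_lit 18) (.e (nat_lit 204831) (nat_lit 18) (.e (nat_lit 57852) (nat_lit 252) (.e (nat_lit 57378) (nat_lit 3) (.e (nat_lit 98338) (nat_lit 19) (.e (nat_lit 213013) (nat_lit 9) (.e (nat_lit 2684) (nat_lit 168) .nil)))))))) (.g (nat_lit 1) (.e (nat_lit 226996) (nat_lit 0) .nil) .nil))) 
(.lf (nat_lit 522850) (.g (nat_lit 814) (.e (nat_lit 204861) (nat_lit 26) (.e (nat_lit 336075) (nat_lit 9) (.e (nat_lit 336379) (nat_lit 27) (.e (nat_lit 426525) (nat_lit 27) .nil)))) (.g (nat_lit 0) (.e (nat_lit 228690) (nat_lit 0) .nil) .nil)))) (.nd (nat_lit 9) 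
(.lf (nat_lit 522594) (.g (nat_lit 2018) (.e (nat_lit 204854) (nat_lit 26) (.e (nat_lit 336326) (nat_lit 18) (.e (nat_lit 204854) (nat_lit 26) (.e (nat_lit 336259) (nat_lit 15) .nil)))) (.g (nat_lit 0) (.e (nat_lit 227751) (nat_lit 0) .nil) .nil))) 
(.lf (nat_lit 523106) (.g (nat_lit 3006) (.e (nat_lit 204862) (nat_lit 27) (.e (nat_lit 344117) (nat_lit 21) (.e (nat_lit 516129) (nat_lit 3) (.e (nat_lit 221210) (nat_lit 22) (.e (nat_lit 196658) (nat_lit 12) (.e (nat_lit 57508) (nat_lit 39) (.e (nat_lit 647170) (nat_lit 0) (.e (nat_lit 2685) (nat_lit 168) .nil)))))))) (.g (nat_lit 1) (.e (nat_lit 229151) (nat_lit 0) .nil) .nil))))) 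
(.nd (nat_lit 8) (.nd (nat_lit 9) 
(.lf (nat_lit 522466) (.g (nat_lit 1936) (.e (nat_lit 204853) (nat_lit 26) (.e (nat_lit 336019) (nat_lit 3) (.e (nat_lit 98341) (nat_lit 20) (.e (nat_lit 221214) (nat_lit 23) (.e (nat_lit 204830) (nat_lit 18) .nil))))) (.g (nat_lit 0) (.e (nat_lit 227406) (nat_lit 0) .nil) .nil))) 
(.lf (nat_lit 522978) (.g (nat_lit 3496) (.e (nat_lit 204861) (nat_lit 26) (.e (nat_lit 336194) (nat_lit 12) (.e (nat_lit 385068) (nat_lit 26) (.e (nat_lit 532515) (nat_lit 3) (.e (nat_lit 114698) (nat_lit 11) (.e (nat_lit 426139) (nat_lit 3) .nil)))))) (.g (nat_lit 1) (.e (nat_lit 228918) (nat_lit 0) .nil) .nil)))) (.nd (nat_lit 9) 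
(.lf (nat_lit 522722) (.g (nat_lit 1377) (.e (nat_lit 204855) (nat_lit 26) (.e (nat_lit 336176) (nat_lit 10) (.e (nat_lit 344133) (nat_lit 26) (.e (nat_lit 557092) (nat_lit 12) .nil)))) (.g (nat_lit 0) (.e (nat_lit 228325) (nat_lit 0) .nil) .nil))) 
(.lf (nat_lit 523234) (.g (nat_lit 3984) (.e (nat_lit 204862) (nat_lit 27) (.e (nat_lit 344129) (nat_lit 26) (.e (nat_lit 557105) (nat_lit 14) (.e (nat_lit 180252) (nat_lit 10) (.e (nat_lit 573474) (nat_lit 12) (.e (nat_lit 57507) (nat_lit 39) (.e (nat_lit 655104) (nat_lit 0) (.e (nat_lit 2684) (nat_lit 168) .nil)))))))) (.g (nat_lit 1) (.e (nat_lit 229307) (nat_lit 0) .nil) .nil)))))))) 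
(.nd (nat_lit 5) (.nd (nat_lit 6) (.nd (nat_lit 7) (.nd (nat_lit 8) (.nd (nat_lit 9) 
(.lf (nat_lit 522258) (.g (nat_lit 1984) (.e (nat_lit 204850) (nat_lit 26) (.e (nat_lit 336205) (nat_lit 12) (.e (nat_lit 385074) (nat_lit 31) (.e (nat_lit 573483) (nat_lit 13) (.e (nat_lit 65630) (nat_lit 14) .nil))))) (.g (nat_lit 0) (.e (nat_lit 226758) (nat_lit 0) .nil) .nil))) 
(.lf (nat_lit 522770) (.g (nat_lit 3358) (.e (nat_lit 204859) (nat_lit 26) (.e (nat_lit 336206) (nat_lit 12) (.e (nat_lit 385068) (nat_lit 26) (.e (nat_lit 532513) (nat_lit 3) (.e (nat_lit 114698) (nat_lit 11) (.e (nat_lit 426139) (nat_lit 3) .nil)))))) (.g (nat_lit 1) (.e (nat_lit 228472) (nat_lit 0) .nil) .nil)))) (.nd (nat_lit 9) 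
(.lf (nat_lit 522514) (.g (nat_lit 2842) (.e (nat_lit 204853) (nat_lit 26) (.e (nat_lit 336324) (nat_lit 18) (.e (nat_lit 204882) (nat_lit 32) (.e (nat_lit 385065) (nat_lit 26) (.e (nat_lit 532529) (nat_lit 9) (.e (nat_lit 336324) (nat_lit 18) .nil)))))) (.g (nat_lit 1) (.e (nat_lit 227458) (nat_lit 0) .nil) .nil))) 
(.lf (nat_lit 523026) (.g (nat_lit 934) (.e (nat_lit 204861) (nat_lit 26) (.e (nat_lit 336223) (nat_lit 13) (.e (nat_lit 393229) (nat_lit 9) .nil))) (.g (nat_lit 0) (.e (nat_lit 229012) (nat_lit 0) .nil) .nil))))) (.nd (nat_lit 8) (.nd (nat_lit 9) 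
(.lf (nat_lit 522386) (.g (nat_lit 3220) (.e (nat_lit 204852) (nat_lit 26) (.e (nat_lit 336325) (nat_lit 18) (.e (nat_lit 204880) (nat_lit 32) (.e (nat_lit 385066) (nat_lit 26) (.e (nat_lit 532530) (nat_lit 9) (.e (nat_lit 336326) (nat_lit 18) .nil)))))) (.g (nat_lit 1) (.e (nat_lit 227106) (nat_lit 0) .nil) .nil))) 
(.lf (nat_lit 522898) (.g (nat_lit 2853) (.e (nat_lit 204861) (nat_lit 26) (.e (nat_lit 336078) (nat_lit 9) (.e (nat_lit 336324) (nat_lit 18) (.e (nat_lit 204838) (nat_lit 20) (.e (nat_lit 114697) (nat_lit 11) (.e (nat_lit 426137) (nat_lit 3) .nil)))))) (.g (nat_lit 1) (.e (nat_lit 228777) (nat_lit 0) .nil) .nil)))) (.nd (nat_lit 9) 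
(.lf (nat_lit 522642) (.g (nat_lit 2980) (.e (nat_lit 204855) (nat_lit 26) (.e (nat_lit 336099) (nat_lit 9) (.e (nat_lit 336013) (nat_lit 2) (.e (nat_lit 90165) (nat_lit 12) (.e (nat_lit 164210) (nat_lit 176) (.e (nat_lit 2798) (nat_lit 180) (.e (nat_lit 303118) (nat_lit 3) .nil))))))) (.g (nat_lit 1) (.e (nat_lit 227900) (nat_lit 0) .nil) .nil))) 
(.lf (nat_lit 523154) (.g (nat_lit 3113) (.e (nat_lit 204862) (nat_lit 27) (.e (nat_lit 344129) (nat_lit 26) (.e (nat_lit 557097) (nat_lit 13) (.e (nat_lit 172064) (nat_lit 2) (.e (nat_lit 204544) (nat_lit 2) (.e (nat_lit 32512) (nat_lit 18) .nil)))))) (.g (nat_lit 1) (.e (nat_lit 229225) (nat_lit 0) .nil) .nil)))))) (.nd (nat_lit 7) (.nd (nat_lit 8) (.nd (nat_lit 9) 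
(.lf (nat_lit 522322) (.g (nat_lit 569) (.e (nat_lit 204852) (nat_lit 26) (.e (nat_lit 336320) (nat_lit 17) (.e (nat_lit 196628) (nat_lit 9) .nil))) (.g (nat_lit 0) (.e (nat_lit 226976) (nat_lit 0) .nil) .nil))) 
(.lf (nat_lit 522834) (.g (nat_lit 2704) (.e (nat_lit 204861) (nat_lit 26) (.e (nat_lit 336074) (nat_lit 9) (.e (nat_lit 336324) (nat_lit 18) (.e (nat_lit 204837) (nat_lit 20) (.e (nat_lit 114698) (nat_lit 11) (.e (nat_lit 426133) (nat_lit 3) .nil)))))) (.g (nat_lit 1) (.e (nat_lit 228668) (nat_lit 0) .nil) .nil)))) (.nd (nat_lit 9) 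
(.lf (nat_lit 522578) (.g (nat_lit 2371) (.e (nat_lit 204854) (nat_lit 26) (.e (nat_lit 336324) (nat_lit 18) (.e (nat_lit 204879) (nat_lit 32) (.e (nat_lit 385068) (nat_lit 26) (.e (nat_lit 532530) (nat_lit 9) (.e (nat_lit 336324) (nat_lit 18) .nil)))))) (.g (nat_lit 1) (.e (nat_lit 227713) (nat_lit 0) .nil) .nil))) 
(.lf (nat_lit 523090) (.g (nat_lit 3881) (.e (nat_lit 204862) (nat_lit 27) (.e (nat_lit 344117) (nat_lit 21) (.e (nat_lit 516116) (nat_lit 1) (.e (nat_lit 164183) (nat_lit 154) (.e (nat_lit 57379) (nat_lit 3) (.e (nat_lit 98321) (nat_lit 17) (.e (nat_lit 3771) (nat_lit 229) (.e (nat_lit 794673) (nat_lit 23) .nil)))))))) (.g (nat_lit 1) (.e (nat_lit 229132) (nat_lit 0) .nil) .nil))))) 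
(.nd (nat_lit 8) (.nd (nat_lit 9) 
(.lf (nat_lit 522450) (.g (nat_lit 2930) (.e (nat_lit 204852) (nat_lit 26) (.e (nat_lit 336326) (nat_lit 18) (.e (nat_lit 204882) (nat_lit 32) (.e (nat_lit 385066) (nat_lit 26) (.e (nat_lit 532534) (nat_lit 9) (.e (nat_lit 336322) (nat_lit 18) .nil)))))) (.g (nat_lit 1) (.e (nat_lit 227314) (nat_lit 0) .nil) .nil))) 
(.lf (nat_lit 522962) (.g (nat_lit 2493) (.e (nat_lit 204861) (nat_lit 26) (.e (nat_lit 336194) (nat_lit 12) (.e (nat_lit 385066) (nat_lit 26) (.e (nat_lit 532515) (nat_lit 3) (.e (nat_lit 114697) (nat_lit 11) (.e (nat_lit 426138) (nat_lit 3) .nil)))))) (.g (nat_lit 1) (.e (nat_lit 228884) (nat_lit 0) .nil) .nil)))) (.nd (nat_lit 9) 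
(.lf (nat_lit 522706) (.g (nat_lit 1978) (.e (nat_lit 204855) (nat_lit 26) (.e (nat_lit 336176) (nat_lit 10) (.e (nat_lit 344133) (nat_lit 26) (.e (nat_lit 557067) (nat_lit 9) .nil)))) (.g (nat_lit 0) (.e (nat_lit 228230) (nat_lit 0) .nil) .nil))) 
(.lf (nat_lit 523218) (.g (nat_lit 3689) (.e (nat_lit 204862) (nat_lit 27) (.e (nat_lit 344129) (nat_lit 26) (.e (nat_lit 557104) (nat_lit 14) (.e (nat_lit 180252) (nat_lit 10) (.e (nat_lit 573474) (nat_lit 12) (.e (nat_lit 57508) (nat_lit 39) (.e (nat_lit 647170) (nat_lit 0) (.e (nat_lit 2685) (nat_lit 168) .nil)))))))) (.g (nat_lit 1) (.e (nat_lit 229291) (nat_lit 0) .nil) .nil))))))) 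
(.nd (nat_lit 6) (.nd (nat_lit 7) (.nd (nat_lit 8) (.nd (nat_lit 9) 
(.lf (nat_lit 522290) (.g (nat_lit 2366) (.e (nat_lit 204851) (nat_lit 26) (.e (nat_lit 336019) (nat_lit 3) (.e (nat_lit 98342) (nat_lit 20) (.e (nat_lit 221215) (nat_lit 23) (.e (nat_lit 204821) (nat_lit 17) .nil))))) (.g (nat_lit 0) (.e (nat_lit 226822) (nat_lit 0) .nil) .nil))) 
(.lf (nat_lit 522802) (.g (nat_lit 947) (.e (nat_lit 204861) (nat_lit 26) (.e (nat_lit 335988) (nat_lit 1) (.e (nat_lit 57905) (nat_lit 278) .nil))) (.g (nat_lit 0) (.e (nat_lit 228558) (nat_lit 0) .nil) .nil)))) (.nd (nat_lit 9) 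
(.lf (nat_lit 522546) (.g (nat_lit 3418) (.e (nat_lit 204854) (nat_lit 26) (.e (nat_lit 336019) (nat_lit 3) (.e (nat_lit 98342) (nat_lit 20) (.e (nat_lit 221213) (nat_lit 23) (.e (nat_lit 204830) (nat_lit 18) (.e (nat_lit 57926) (nat_lit 282) (.e (nat_lit 163874) (nat_lit 3) .nil))))))) (.g (nat_lit 1) (.e (nat_lit 227614) (nat_lit 0) .nil) .nil))) 
(.lf (nat_lit 523058) (.g (nat_lit 3990) (.e (nat_lit 204862) (nat_lit 27) (.e (nat_lit 344117) (nat_lit 21) (.e (nat_lit 516115) (nat_lit 1) (.e (nat_lit 164179) (nat_lit 154) (.e (nat_lit 57375) (nat_lit 2) (.e (nat_lit 90181) (nat_lit 16) (.e (nat_lit 229472) (nat_lit 57) (.e (nat_lit 794673) (nat_lit 23) .nil)))))))) (.g (nat_lit 1) (.e (nat_lit 229078) (nat_lit 0) .nil) .nil))))) 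
(.nd (nat_lit 8) (.nd (nat_lit 9) 
(.lf (nat_lit 522418) (.g (nat_lit 3619) (.e (nat_lit 204852) (nat_lit 26) (.e (nat_lit 336326) (nat_lit 18) (.e (nat_lit 204880) (nat_lit 32) (.e (nat_lit 385066) (nat_lit 26) (.e (nat_lit 532530) (nat_lit 9) (.e (nat_lit 336324) (nat_lit 18) .nil)))))) (.g (nat_lit 1) (.e (nat_lit 227273) (nat_lit 0) .nil) .nil))) 
(.lf (nat_lit 522930) (.g (nat_lit 1894) (.e (nat_lit 204861) (nat_lit 26) (.e (nat_lit 336186) (nat_lit 11) (.e (nat_lit 368676) (nat_lit 21) (.e (nat_lit 516169) (nat_lit 13) (.e (nat_lit 458774) (nat_lit 18) (.e (nat_lit 5950) (nat_lit 322) (.e (nat_lit 65280) (nat_lit 64) .nil))))))) (.g (nat_lit 1) (.e (nat_lit 228820) (nat_lit 0) .nil) .nil)))) (.nd (nat_lit 9) 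
(.lf (nat_lit 522674) (.g (nat_lit 4243) (.e (nat_lit 204855) (nat_lit 26) (.e (nat_lit 336176) (nat_lit 10) (.e (nat_lit 344117) (nat_lit 21) (.e (nat_lit 516139) (nat_lit 7) (.e (nat_lit 417536) (nat_lit 18) (.e (nat_lit 303118) (nat_lit 3) .nil)))))) (.g (nat_lit 1) (.e (nat_lit 227982) (nat_lit 0) .nil) .nil))) 
(.lf (nat_lit 523186) (.g (nat_lit 4100) (.e (nat_lit 204862) (nat_lit 27) (.e (nat_lit 344129) (nat_lit 26) (.e (nat_lit 557103) (nat_lit 14) (.e (nat_lit 180250) (nat_lit 10) (.e (nat_lit 573474) (nat_lit 12) (.e (nat_lit 57507) (nat_lit 39) (.e (nat_lit 647170) (nat_lit 0) (.e (nat_lit 2685) (nat_lit 168) .nil)))))))) (.g (nat_lit 1) (.e (nat_lit 229258) (nat_lit 0) .nil) .nil)))))) 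
(.nd (nat_lit 7) (.nd (nat_lit 8) (.nd (nat_lit 9) 
(.lf (nat_lit 522354) (.g (nat_lit 2214) (.e (nat_lit 204852) (nat_lit 26) (.e (nat_lit 336324) (nat_lit 18) (.e (nat_lit 204854) (nat_lit 26) (.e (nat_lit 336316) (nat_lit 17) (.e (nat_lit 196630) (nat_lit 9) (.e (nat_lit 1424) (nat_lit 108) (.e (nat_lit 336322) (nat_lit 18) .nil))))))) (.g (nat_lit 1) (.e (nat_lit 227036) (nat_lit 0) .nil) .nil))) 
(.lf (nat_lit 522866) (.g (nat_lit 2188) (.e (nat_lit 204861) (nat_lit 26) (.e (nat_lit 336076) (nat_lit 9) (.e (nat_lit 336322) (nat_lit 18) (.e (nat_lit 204838) (nat_lit 20) (.e (nat_lit 114697) (nat_lit 11) (.e (nat_lit 426138) (nat_lit 3) .nil)))))) (.g (nat_lit 1) (.e (nat_lit 228722) (nat_lit 0) .nil) .nil)))) (.nd (nat_lit 9) 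
(.lf (nat_lit 522610) (.g (nat_lit 2525) (.e (nat_lit 204854) (nat_lit 26) (.e (nat_lit 336326) (nat_lit 18) (.e (nat_lit 204881) (nat_lit 32) (.e (nat_lit 385066) (nat_lit 26) (.e (nat_lit 532534) (nat_lit 9) (.e (nat_lit 336326) (nat_lit 18) .nil)))))) (.g (nat_lit 1) (.e (nat_lit 227787) (nat_lit 0) .nil) .nil))) 
(.lf (nat_lit 523122) (.g (nat_lit 2322) (.e (nat_lit 204862) (nat_lit 27) (.e (nat_lit 344117) (nat_lit 21) (.e (nat_lit 516130) (nat_lit 3) (.e (nat_lit 221215) (nat_lit 23) (.e (nat_lit 204825) (nat_lit 17) .nil))))) (.g (nat_lit 0) (.e (nat_lit 229167) (nat_lit 0) .nil) .nil))))) (.nd (nat_lit 8) (.nd (nat_lit 9) 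
(.lf (nat_lit 522482) (.g (nat_lit 3693) (.e (nat_lit 204853) (nat_lit 26) (.e (nat_lit 336324) (nat_lit 18) (.e (nat_lit 204831) (nat_lit 18) (.e (nat_lit 57854) (nat_lit 252) .nil)))) (.g (nat_lit 0) (.e (nat_lit 227424) (nat_lit 0) .nil) .nil))) 
(.lf (nat_lit 522994) (.g (nat_lit 589) (.e (nat_lit 204861) (nat_lit 26) (.e (nat_lit 336203) (nat_lit 12) (.e (nat_lit 385067) (nat_lit 26) .nil))) (.g (nat_lit 0) (.e (nat_lit 228953) (nat_lit 0) .nil) .nil)))) (.nd (nat_lit 9) 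
(.lf (nat_lit 522738) (.g (nat_lit 2673) (.e (nat_lit 204855) (nat_lit 26) (.e (nat_lit 336226) (nat_lit 14) (.e (nat_lit 401470) (nat_lit 27) (.e (nat_lit 336051) (nat_lit 6) (.e (nat_lit 147495) (nat_lit 11) (.e (nat_lit 32512) (nat_lit 18) .nil)))))) (.g (nat_lit 1) (.e (nat_lit 228399) (nat_lit 0) .nil) .nil))) 
(.lf (nat_lit 523250) (.g (nat_lit 2310) (.e (nat_lit 204862) (nat_lit 27) (.e (nat_lit 344130) (nat_lit 26) (.e (nat_lit 557103) (nat_lit 14) (.e (nat_lit 180243) (nat_lit 5) (.e (nat_lit 532504) (nat_lit 1) (.e (nat_lit 57703) (nat_lit 164) (.e (nat_lit 2515) (nat_lit 157) (.e (nat_lit 2681) (nat_lit 168) .nil)))))))) (.g (nat_lit 1) (.e (nat_lit 229323) (nat_lit 0) .nil) .nil))))))))) 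
(.nd (nat_lit 4) (.nd (nat_lit 5) (.nd (nat_lit 6) (.nd (nat_lit 7) (.nd (nat_lit 8) 
(.nd (nat_lit 9) 
(.lf (nat_lit 522250) (.g (nat_lit 701) (.e (nat_lit 204850) (nat_lit 26) (.e (nat_lit 336028) (nat_lit 3) (.e (nat_lit 98342) (nat_lit 20) .nil))) (.g (nat_lit 0) (.e (nat_lit 226744) (nat_lit 0) .nil) .nil))) 
(.lf (nat_lit 522762) (.g (nat_lit 1647) (.e (nat_lit 204859) (nat_lit 26) (.e (nat_lit 336118) (nat_lit 9) (.e (nat_lit 336323) (nat_lit 18) (.e (nat_lit 204838) (nat_lit 20) (.e (nat_lit 114697) (nat_lit 11) (.e (nat_lit 426138) (nat_lit 3) .nil)))))) (.g (nat_lit 1) (.e (nat_lit 228455) (nat_lit 0) .nil) .nil)))) (.nd (nat_lit 9) 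
(.lf (nat_lit 522506) (.g (nat_lit 3145) (.e (nat_lit 204853) (nat_lit 26) (.e (nat_lit 336324) (nat_lit 18) (.e (nat_lit 204854) (nat_lit 26) (.e (nat_lit 336326) (nat_lit 18) (.e (nat_lit 204854) (nat_lit 26) (.e (nat_lit 336324) (nat_lit 18) .nil)))))) (.g (nat_lit 1) (.e (nat_lit 227449) (nat_lit 0) .nil) .nil))) 
(.lf (nat_lit 523018) (.g (nat_lit 2030) (.e (nat_lit 204861) (nat_lit 26) (.e (nat_lit 336213) (nat_lit 13) (.e (nat_lit 393229) (nat_lit 9) (.e (nat_lit 336030) (nat_lit 4) .nil)))) (.g (nat_lit 0) (.e (nat_lit 228991) (nat_lit 0) .nil) .nil))))) (.nd (nat_lit 8) (.nd (nat_lit 9) 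
(.lf (nat_lit 522378) (.g (nat_lit 2508) (.e (nat_lit 204852) (nat_lit 26) (.e (nat_lit 336324) (nat_lit 18) (.e (nat_lit 204882) (nat_lit 32) (.e (nat_lit 385066) (nat_lit 26) (.e (nat_lit 532532) (nat_lit 9) (.e (nat_lit 336322) (nat_lit 18) .nil)))))) (.g (nat_lit 1) (.e (nat_lit 227090) (nat_lit 0) .nil) .nil))) 
(.lf (nat_lit 522890) (.g (nat_lit 3495) (.e (nat_lit 204861) (nat_lit 26) (.e (nat_lit 336077) (nat_lit 9) (.e (nat_lit 336454) (nat_lit 34) (.e (nat_lit 483365) (nat_lit 18) (.e (nat_lit 57930) (nat_lit 282) (.e (nat_lit 163873) (nat_lit 3) .nil)))))) (.g (nat_lit 1) (.e (nat_lit 228768) (nat_lit 0) .nil) .nil)))) (.nd (nat_lit 9) 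
(.lf (nat_lit 522634) (.g (nat_lit 3652) (.e (nat_lit 204855) (nat_lit 26) (.e (nat_lit 336099) (nat_lit 9) (.e (nat_lit 336013) (nat_lit 2) (.e (nat_lit 90165) (nat_lit 12) (.e (nat_lit 164207) (nat_lit 176) (.e (nat_lit 2804) (nat_lit 180) (.e (nat_lit 303118) (nat_lit 3) .nil))))))) (.g (nat_lit 1) (.e (nat_lit 227892) (nat_lit 0) .nil) .nil))) 
(.lf (nat_lit 523146) (.g (nat_lit 2554) (.e (nat_lit 204862) (nat_lit 27) (.e (nat_lit 344129) (nat_lit 26) (.e (nat_lit 557067) (nat_lit 9) (.e (nat_lit 2878) (nat_lit 184) (.e (nat_lit 426125) (nat_lit 2) .nil))))) (.g (nat_lit 0) (.e (nat_lit 229210) (nat_lit 0) .nil) .nil)))))) (.nd (nat_lit 7) (.nd (nat_lit 8) (.nd (nat_lit 9) 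
(.lf (nat_lit 522314) (.g (nat_lit 3374) (.e (nat_lit 204852) (nat_lit 26) (.e (nat_lit 336310) (nat_lit 16) (.e (nat_lit 164179) (nat_lit 154) (.e (nat_lit 57378) (nat_lit 3) (.e (nat_lit 98334) (nat_lit 18) (.e (nat_lit 164305) (nat_lit 226) (.e (nat_lit 2630) (nat_lit 164) (.e (nat_lit 172067) (nat_lit 3) .nil)))))))) (.g (nat_lit 1) (.e (nat_lit 226936) (nat_lit 0) .nil) .nil))) 
(.lf (nat_lit 522826) (.g (nat_lit 1967) (.e (nat_lit 204861) (nat_lit 26) (.e (nat_lit 336027) (nat_lit 3) (.e (nat_lit 98334) (nat_lit 18) (.e (nat_lit 164180) (nat_lit 154) .nil)))) (.g (nat_lit 0) (.e (nat_lit 228658) (nat_lit 0) .nil) .nil)))) (.nd (nat_lit 9) 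
(.lf (nat_lit 522570) (.g (nat_lit 5155) (.e (nat_lit 204854) (nat_lit 26) (.e (nat_lit 336324) (nat_lit 18) (.e (nat_lit 204831) (nat_lit 18) (.e (nat_lit 57848) (nat_lit 252) .nil)))) (.g (nat_lit 0) (.e (nat_lit 227691) (nat_lit 0) .nil) .nil))) 
(.lf (nat_lit 523082) (.g (nat_lit 1835) (.e (nat_lit 204862) (nat_lit 27) (.e (nat_lit 344117) (nat_lit 21) (.e (nat_lit 516116) (nat_lit 1) (.e (nat_lit 164183) (nat_lit 154) .nil)))) (.g (nat_lit 0) (.e (nat_lit 229115) (nat_lit 0) .nil) .nil))))) (.nd (nat_lit 8) (.nd (nat_lit 9) 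
(.lf (nat_lit 522442) (.g (nat_lit 3142) (.e (nat_lit 204852) (nat_lit 26) (.e (nat_lit 336326) (nat_lit 18) (.e (nat_lit 204882) (nat_lit 32) (.e (nat_lit 385066) (nat_lit 26) (.e (nat_lit 532529) (nat_lit 9) (.e (nat_lit 336326) (nat_lit 18) .nil)))))) (.g (nat_lit 1) (.e (nat_lit 227306) (nat_lit 0) .nil) .nil))) 
(.lf (nat_lit 522954) (.g (nat_lit 3206) (.e (nat_lit 204861) (nat_lit 26) (.e (nat_lit 336194) (nat_lit 12) (.e (nat_lit 385066) (nat_lit 26) (.e (nat_lit 532513) (nat_lit 3) (.e (nat_lit 114694) (nat_lit 11) (.e (nat_lit 426139) (nat_lit 3) .nil)))))) (.g (nat_lit 1) (.e (nat_lit 228876) (nat_lit 0) .nil) .nil)))) (.nd (nat_lit 9) 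
(.lf (nat_lit 522698) (.g (nat_lit 1445) (.e (nat_lit 204855) (nat_lit 26) (.e (nat_lit 336176) (nat_lit 10) (.e (nat_lit 344132) (nat_lit 26) (.e (nat_lit 557072) (nat_lit 9) (.e (nat_lit 290) (nat_lit 21) .nil))))) (.g (nat_lit 0) (.e (nat_lit 228193) (nat_lit 0) .nil) .nil))) 
(.lf (nat_lit 523210) (.g (nat_lit 2807) (.e (nat_lit 204862) (nat_lit 27) (.e (nat_lit 344129) (nat_lit 26) (.e (nat_lit 557104) (nat_lit 14) (.e (nat_lit 180252) (nat_lit 10) (.e (nat_lit 573473) (nat_lit 12) .nil))))) (.g (nat_lit 0) (.e (nat_lit 229283) (nat_lit 0) .nil) .nil))))))) (.nd (nat_lit 6) (.nd (nat_lit 7) (.nd (nat_lit 8) (.nd (nat_lit 9) 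
(.lf (nat_lit 522282) (.g (nat_lit 1488) (.e (nat_lit 204851) (nat_lit 26) (.e (nat_lit 336019) (nat_lit 3) (.e (nat_lit 98341) (nat_lit 20) (.e (nat_lit 221215) (nat_lit 23) .nil)))) (.g (nat_lit 0) (.e (nat_lit 226813) (nat_lit 0) .nil) .nil))) 
(.lf (nat_lit 522794) (.g (nat_lit 1609) (.e (nat_lit 204861) (nat_lit 26) (.e (nat_lit 335986) (nat_lit 1) (.e (nat_lit 57927) (nat_lit 282) (.e (nat_lit 171776) (nat_lit 63) .nil)))) (.g (nat_lit 0) (.e (nat_lit 228524) (nat_lit 0) .nil) .nil)))) (.nd (nat_lit 9) 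
(.lf (nat_lit 522538) (.g (nat_lit 3380) (.e (nat_lit 204854) (nat_lit 26) (.e (nat_lit 336019) (nat_lit 3) (.e (nat_lit 98341) (nat_lit 20) (.e (nat_lit 221215) (nat_lit 23) (.e (nat_lit 204829) (nat_lit 18) (.e (nat_lit 57927) (nat_lit 282) (.e (nat_lit 163874) (nat_lit 3) .nil))))))) (.g (nat_lit 1) (.e (nat_lit 227590) (nat_lit 0) .nil) .nil))) 
(.lf (nat_lit 523050) (.g (nat_lit 2953) (.e (nat_lit 204862) (nat_lit 27) (.e (nat_lit 344117) (nat_lit 21) (.e (nat_lit 516115) (nat_lit 1) (.e (nat_lit 164177) (nat_lit 154) (.e (nat_lit 57375) (nat_lit 2) (.e (nat_lit 90181) (nat_lit 16) (.e (nat_lit 229472) (nat_lit 57) (.e (nat_lit 794673) (nat_lit 23) .nil)))))))) (.g (nat_lit 1) (.e (nat_lit 229062) (nat_lit 0) .nil) .nil))))) 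
(.nd (nat_lit 8) (.nd (nat_lit 9) 
(.lf (nat_lit 522410) (.g (nat_lit 1074) (.e (nat_lit 204852) (nat_lit 26) (.e (nat_lit 336326) (nat_lit 18) (.e (nat_lit 204854) (nat_lit 26) (.e (nat_lit 336316) (nat_lit 17) .nil)))) (.g (nat_lit 0) (.e (nat_lit 227217) (nat_lit 0) .nil) .nil))) 
(.lf (nat_lit 522922) (.g (nat_lit 1754) (.e (nat_lit 204861) (nat_lit 26) (.e (nat_lit 336186) (nat_lit 11) (.e (nat_lit 368676) (nat_lit 21) (.e (nat_lit 516140) (nat_lit 8) (.e (nat_lit 425728) (nat_lit 19) .nil))))) (.g (nat_lit 0) (.e (nat_lit 228808) (nat_lit 0) .nil) .nil)))) (.nd (nat_lit 9) 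
(.lf (nat_lit 522666) (.g (nat_lit 3533) (.e (nat_lit 204855) (nat_lit 26) (.e (nat_lit 336173) (nat_lit 10) (.e (nat_lit 344117) (nat_lit 21) (.e (nat_lit 516139) (nat_lit 7) (.e (nat_lit 409643) (nat_lit 18) .nil))))) (.g (nat_lit 0) (.e (nat_lit 227963) (nat_lit 0) .nil) .nil))) 
(.lf (nat_lit 523178) (.g (nat_lit 2891) (.e (nat_lit 204862) (nat_lit 27) (.e (nat_lit 344129) (nat_lit 26) (.e (nat_lit 557103) (nat_lit 14) (.e (nat_lit 180243) (nat_lit 5) (.e (nat_lit 532504) (nat_lit 1) (.e (nat_lit 57703) (nat_lit 164) (.e (nat_lit 2422) (nat_lit 157) (.e (nat_lit 2685) (nat_lit 168) .nil)))))))) (.g (nat_lit 1) (.e (nat_lit 229249) (nat_lit 0) .nil) .nil)))))) 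
(.nd (nat_lit 7) (.nd (nat_lit 8) (.nd (nat_lit 9) 
(.lf (nat_lit 522346) (.g (nat_lit 4264) (.e (nat_lit 204852) (nat_lit 26) (.e (nat_lit 336324) (nat_lit 18) (.e (nat_lit 204831) (nat_lit 18) (.e (nat_lit 57854) (nat_lit 252) (.e (nat_lit 57378) (nat_lit 3) (.e (nat_lit 98342) (nat_lit 20) (.e (nat_lit 221214) (nat_lit 23) .nil))))))) (.g (nat_lit 1) (.e (nat_lit 227007) (nat_lit 0) .nil) .nil))) 
(.lf (nat_lit 522858) (.g (nat_lit 3431) (.e (nat_lit 204861) (nat_lit 26) (.e (nat_lit 336075) (nat_lit 9) (.e (nat_lit 336454) (nat_lit 34) (.e (nat_lit 483364) (nat_lit 18) (.e (nat_lit 57929) (nat_lit 282) (.e (nat_lit 163874) (nat_lit 3) .nil)))))) (.g (nat_lit 1) (.e (nat_lit 228706) (nat_lit 0) .nil) .nil)))) (.nd (nat_lit 9) 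
(.lf (nat_lit 522602) (.g (nat_lit 2256) (.e (nat_lit 204854) (nat_lit 26) (.e (nat_lit 336326) (nat_lit 18) (.e (nat_lit 204880) (nat_lit 32) (.e (nat_lit 385066) (nat_lit 26) (.e (nat_lit 532529) (nat_lit 9) (.e (nat_lit 336326) (nat_lit 18) .nil)))))) (.g (nat_lit 1) (.e (nat_lit 227779) (nat_lit 0) .nil) .nil))) 
(.lf (nat_lit 523114) (.g (nat_lit 1552) (.e (nat_lit 204862) (nat_lit 27) (.e (nat_lit 344117) (nat_lit 21) (.e (nat_lit 516130) (nat_lit 3) (.e (nat_lit 221209) (nat_lit 22) .nil)))) (.g (nat_lit 0) (.e (nat_lit 229159) (nat_lit 0) .nil) .nil))))) (.nd (nat_lit 8) (.nd (nat_lit 9) 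
(.lf (nat_lit 522474) (.g (nat_lit 1526) (.e (nat_lit 204853) (nat_lit 26) (.e (nat_lit 336019) (nat_lit 3) (.e (nat_lit 98342) (nat_lit 20) (.e (nat_lit 221215) (nat_lit 23) .nil)))) (.g (nat_lit 0) (.e (nat_lit 227414) (nat_lit 0) .nil) .nil))) 
(.lf (nat_lit 522986) (.g (nat_lit 1881) (.e (nat_lit 204861) (nat_lit 26) (.e (nat_lit 336194) (nat_lit 12) (.e (nat_lit 385074) (nat_lit 31) (.e (nat_lit 573479) (nat_lit 13) .nil)))) (.g (nat_lit 0) (.e (nat_lit 228936) (nat_lit 0) .nil) .nil)))) (.nd (nat_lit 9) 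
(.lf (nat_lit 522730) (.g (nat_lit 3052) (.e (nat_lit 204855) (nat_lit 26) (.e (nat_lit 336178) (nat_lit 10) (.e (nat_lit 344117) (nat_lit 21) (.e (nat_lit 516139) (nat_lit 7) (.e (nat_lit 417536) (nat_lit 18) (.e (nat_lit 303118) (nat_lit 3) .nil)))))) (.g (nat_lit 1) (.e (nat_lit 228337) (nat_lit 0) .nil) .nil))) 
(.lf (nat_lit 523242) (.g (nat_lit 2258) (.e (nat_lit 204862) (nat_lit 27) (.e (nat_lit 344130) (nat_lit 26) (.e (nat_lit 557097) (nat_lit 13) (.e (nat_lit 172067) (nat_lit 3) (.e (nat_lit 204821) (nat_lit 17) .nil))))) (.g (nat_lit 0) (.e (nat_lit 229315) (nat_lit 0) .nil) .nil)))))))) (.nd (nat_lit 5) (.nd (nat_lit 6) (.nd (nat_lit 7) (.nd (nat_lit 8) (.nd (nat_lit 9) 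
(.lf (nat_lit 522266) (.g (nat_lit 1824) (.e (nat_lit 204850) (nat_lit 26) (.e (nat_lit 336228) (nat_lit 14) (.e (nat_lit 401425) (nat_lit 2) (.e (nat_lit 196668) (nat_lit 14) (.e (nat_lit 73782) (nat_lit 32) .nil))))) (.g (nat_lit 0) (.e (nat_lit 226774) (nat_lit 0) .nil) .nil))) 
(.lf (nat_lit 522778) (.g (nat_lit 2208) (.e (nat_lit 204859) (nat_lit 26) (.e (nat_lit 336235) (nat_lit 14) (.e (nat_lit 401423) (nat_lit 2) (.e (nat_lit 196668) (nat_lit 14) (.e (nat_lit 73782) (nat_lit 32) .nil))))) (.g (nat_lit 0) (.e (nat_lit 228491) (nat_lit 0) .nil) .nil)))) (.nd (nat_lit 9) 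
(.lf (nat_lit 522522) (.g (nat_lit 3058) (.e (nat_lit 204853) (nat_lit 26) (.e (nat_lit 336324) (nat_lit 18) (.e (nat_lit 204882) (nat_lit 32) (.e (nat_lit 385068) (nat_lit 26) (.e (nat_lit 532530) (nat_lit 9) (.e (nat_lit 336324) (nat_lit 18) .nil)))))) (.g (nat_lit 1) (.e (nat_lit 227466) (nat_lit 0) .nil) .nil))) 
(.lf (nat_lit 523034) (.g (nat_lit 1321) (.e (nat_lit 212736) (nat_lit 26) (.e (nat_lit 336078) (nat_lit 9) (.e (nat_lit 336324) (nat_lit 18) (.e (nat_lit 204835) (nat_lit 19) .nil)))) (.g (nat_lit 0) (.e (nat_lit 229027) (nat_lit 0) .nil) .nil))))) (.nd (nat_lit 8) (.nd (nat_lit 9) 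
(.lf (nat_lit 522394) (.g (nat_lit 3349) (.e (nat_lit 204852) (nat_lit 26) (.e (nat_lit 336326) (nat_lit 18) (.e (nat_lit 204830) (nat_lit 18) (.e (nat_lit 57854) (nat_lit 252) (.e (nat_lit 57378) (nat_lit 3) (.e (nat_lit 98338) (nat_lit 19) (.e (nat_lit 213013) (nat_lit 9) (.e (nat_lit 2684) (nat_lit 168) .nil)))))))) (.g (nat_lit 1) (.e (nat_lit 227124) (nat_lit 0) .nil) .nil))) 
(.lf (nat_lit 522906) (.g (nat_lit 2319) (.e (nat_lit 204861) (nat_lit 26) (.e (nat_lit 336086) (nat_lit 9) (.e (nat_lit 336324) (nat_lit 18) (.e (nat_lit 204838) (nat_lit 20) (.e (nat_lit 114697) (nat_lit 11) (.e (nat_lit 426138) (nat_lit 3) .nil)))))) (.g (nat_lit 1) (.e (nat_lit 228786) (nat_lit 0) .nil) .nil)))) (.nd (nat_lit 9) 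
(.lf (nat_lit 522650) (.g (nat_lit 4211) (.e (nat_lit 204855) (nat_lit 26) (.e (nat_lit 336099) (nat_lit 9) (.e (nat_lit 336028) (nat_lit 3) (.e (nat_lit 98349) (nat_lit 24) (.e (nat_lit 409649) (nat_lit 18) (.e (nat_lit 303118) (nat_lit 3) .nil)))))) (.g (nat_lit 1) (.e (nat_lit 227933) (nat_lit 0) .nil) .nil))) 
(.lf (nat_lit 523162) (.g (nat_lit 4992) (.e (nat_lit 204862) (nat_lit 27) (.e (nat_lit 344129) (nat_lit 26) (.e (nat_lit 557097) (nat_lit 13) (.e (nat_lit 172067) (nat_lit 3) (.e (nat_lit 204821) (nat_lit 17) (.e (nat_lit 2391) (nat_lit 156) (.e (nat_lit 819204) (nat_lit 0) (.e (nat_lit 2685) (nat_lit 168) .nil)))))))) (.g (nat_lit 1) (.e (nat_lit 229233) (nat_lit 0) .nil) .nil)))))) 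
(.nd (nat_lit 7) (.nd (nat_lit 8) (.nd (nat_lit 9) 
(.lf (nat_lit 522330) (.g (nat_lit 3638) (.e (nat_lit 204852) (nat_lit 26) (.e (nat_lit 336324) (nat_lit 18) (.e (nat_lit 204831) (nat_lit 18) (.e (nat_lit 57846) (nat_lit 252) .nil)))) (.g (nat_lit 0) (.e (nat_lit 226984) (nat_lit 0) .nil) .nil))) 
(.lf (nat_lit 522842) (.g (nat_lit 2856) (.e (nat_lit 204861) (nat_lit 26) (.e (nat_lit 336075) (nat_lit 9) (.e (nat_lit 336324) (nat_lit 18) (.e (nat_lit 204838) (nat_lit 20) (.e (nat_lit 114698) (nat_lit 11) (.e (nat_lit 426137) (nat_lit 3) .nil)))))) (.g (nat_lit 1) (.e (nat_lit 228682) (nat_lit 0) .nil) .nil)))) (.nd (nat_lit 9) 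
(.lf (nat_lit 522586) (.g (nat_lit 3388) (.e (nat_lit 204854) (nat_lit 26) (.e (nat_lit 336324) (nat_lit 18) (.e (nat_lit 204880) (nat_lit 32) (.e (nat_lit 385068) (nat_lit 26) (.e (nat_lit 532530) (nat_lit 9) (.e (nat_lit 336326) (nat_lit 18) .nil)))))) (.g (nat_lit 1) (.e (nat_lit 227722) (nat_lit 0) .nil) .nil))) 
(.lf (nat_lit 523098) (.g (nat_lit 2896) (.e (nat_lit 204862) (nat_lit 27) (.e (nat_lit 344117) (nat_lit 21) (.e (nat_lit 516118) (nat_lit 1) (.e (nat_lit 164183) (nat_lit 154) (.e (nat_lit 57379) (nat_lit 3) (.e (nat_lit 98321) (nat_lit 17) (.e (nat_lit 3771) (nat_lit 229) (.e (nat_lit 794673) (nat_lit 23) .nil)))))))) (.g (nat_lit 1) (.e (nat_lit 229143) (nat_lit 0) .nil) .nil))))) 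
(.nd (nat_lit 8) (.nd (nat_lit 9) 
(.lf (nat_lit 522458) (.g (nat_lit 3204) (.e (nat_lit 204852) (nat_lit 26) (.e (nat_lit 336326) (nat_lit 18) (.e (nat_lit 204882) (nat_lit 32) (.e (nat_lit 385068) (nat_lit 26) (.e (nat_lit 532530) (nat_lit 9) (.e (nat_lit 336326) (nat_lit 18) .nil)))))) (.g (nat_lit 1) (.e (nat_lit 227324) (nat_lit 0) .nil) .nil))) 
(.lf (nat_lit 522970) (.g (nat_lit 2704) (.e (nat_lit 204861) (nat_lit 26) (.e (nat_lit 336194) (nat_lit 12) (.e (nat_lit 385068) (nat_lit 26) (.e (nat_lit 532490) (nat_lit 0) (.e (nat_lit 2155) (nat_lit 142) .nil))))) (.g (nat_lit 0) (.e (nat_lit 228909) (nat_lit 0) .nil) .nil)))) (.nd (nat_lit 9) 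
(.lf (nat_lit 522714) (.g (nat_lit 2712) (.e (nat_lit 204855) (nat_lit 26) (.e (nat_lit 336176) (nat_lit 10) (.e (nat_lit 344133) (nat_lit 26) (.e (nat_lit 557091) (nat_lit 12) (.e (nat_lit 164016) (nat_lit 44) (.e (nat_lit 688139) (nat_lit 5) (.e (nat_lit 2887) (nat_lit 184) (.e (nat_lit 426132) (nat_lit 3) .nil)))))))) (.g (nat_lit 1) (.e (nat_lit 228298) (nat_lit 0) .nil) .nil))) 
(.lf (nat_lit 523226) (.g (nat_lit 4606) (.e (nat_lit 204862) (nat_lit 27) (.e (nat_lit 344129) (nat_lit 26) (.e (nat_lit 557104) (nat_lit 14) (.e (nat_lit 180252) (nat_lit 10) (.e (nat_lit 573475) (nat_lit 12) (.e (nat_lit 57507) (nat_lit 39) (.e (nat_lit 655104) (nat_lit 0) (.e (nat_lit 2684) (nat_lit 168) .nil)))))))) (.g (nat_lit 1) (.e (nat_lit 229299) (nat_lit 0) .nil) .nil))))))) 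
(.nd (nat_lit 6) (.nd (nat_lit 7) (.nd (nat_lit 8) (.nd (nat_lit 9) 
(.lf (nat_lit 522298) (.g (nat_lit 3550) (.e (nat_lit 204851) (nat_lit 26) (.e (nat_lit 336324) (nat_lit 18) (.e (nat_lit 204880) (nat_lit 32) (.e (nat_lit 385066) (nat_lit 26) (.e (nat_lit 532530) (nat_lit 9) (.e (nat_lit 336326) (nat_lit 18) .nil)))))) (.g (nat_lit 1) (.e (nat_lit 226842) (nat_lit 0) .nil) .nil))) 
(.lf (nat_lit 522810) (.g (nat_lit 4488) (.e (nat_lit 204861) (nat_lit 26) (.e (nat_lit 336004) (nat_lit 2) (.e (nat_lit 90158) (nat_lit 11) (.e (nat_lit 24608) (nat_lit 3) (.e (nat_lit 98333) (nat_lit 18) (.e (nat_lit 164179) (nat_lit 154) (.e (nat_lit 65280) (nat_lit 64) .nil))))))) (.g (nat_lit 1) (.e (nat_lit 228609) (nat_lit 0) .nil) .nil)))) (.nd (nat_lit 9) 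
(.lf (nat_lit 522554) (.g (nat_lit 4680) (.e (nat_lit 204854) (nat_lit 26) (.e (nat_lit 336019) (nat_lit 3) (.e (nat_lit 98342) (nat_lit 20) (.e (nat_lit 221215) (nat_lit 23) (.e (nat_lit 204829) (nat_lit 18) (.e (nat_lit 57931) (nat_lit 282) (.e (nat_lit 163874) (nat_lit 3) .nil))))))) (.g (nat_lit 1) (.e (nat_lit 227623) (nat_lit 0) .nil) .nil))) 
(.lf (nat_lit 523066) (.g (nat_lit 2200) (.e (nat_lit 204862) (nat_lit 27) (.e (nat_lit 344117) (nat_lit 21) (.e (nat_lit 516115) (nat_lit 1) (.e (nat_lit 164183) (nat_lit 154) (.e (nat_lit 57375) (nat_lit 2) (.e (nat_lit 90162) (nat_lit 12) (.e (nat_lit 164061) (nat_lit 57) (.e (nat_lit 794673) (nat_lit 23) .nil)))))))) (.g (nat_lit 1) (.e (nat_lit 229092) (nat_lit 0) .nil) .nil))))) 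
(.nd (nat_lit 8) (.nd (nat_lit 9) 
(.lf (nat_lit 522426) (.g (nat_lit 3543) (.e (nat_lit 204852) (nat_lit 26) (.e (nat_lit 336326) (nat_lit 18) (.e (nat_lit 204880) (nat_lit 32) (.e (nat_lit 385066) (nat_lit 26) (.e (nat_lit 532534) (nat_lit 9) (.e (nat_lit 336325) (nat_lit 18) .nil)))))) (.g (nat_lit 1) (.e (nat_lit 227281) (nat_lit 0) .nil) .nil))) 
(.lf (nat_lit 522938) (.g (nat_lit 1943) (.e (nat_lit 204861) (nat_lit 26) (.e (nat_lit 336186) (nat_lit 11) (.e (nat_lit 368676) (nat_lit 21) (.e (nat_lit 516171) (nat_lit 13) (.e (nat_lit 458774) (nat_lit 18) (.e (nat_lit 5939) (nat_lit 322) (.e (nat_lit 65280) (nat_lit 64) .nil))))))) (.g (nat_lit 1) (.e (nat_lit 228838) (nat_lit 0) .nil) .nil)))) (.nd (nat_lit 9) 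
(.lf (nat_lit 522682) (.g (nat_lit 1752) (.e (nat_lit 204855) (nat_lit 26) (.e (nat_lit 336176) (nat_lit 10) (.e (nat_lit 344130) (nat_lit 26) (.e (nat_lit 557067) (nat_lit 9) (.e (nat_lit 290) (nat_lit 21) .nil))))) (.g (nat_lit 0) (.e (nat_lit 228045) (nat_lit 0) .nil) .nil))) 
(.lf (nat_lit 523194) (.g (nat_lit 3021) (.e (nat_lit 204862) (nat_lit 27) (.e (nat_lit 344129) (nat_lit 26) (.e (nat_lit 557103) (nat_lit 14) (.e (nat_lit 180250) (nat_lit 10) (.e (nat_lit 573475) (nat_lit 12) (.e (nat_lit 57507) (nat_lit 39) (.e (nat_lit 647176) (nat_lit 0) (.e (nat_lit 2684) (nat_lit 168) .nil)))))))) (.g (nat_lit 1) (.e (nat_lit 229266) (nat_lit 0) .nil) .nil)))))) 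
(.nd (nat_lit 7) (.nd (nat_lit 8) (.nd (nat_lit 9) 
(.lf (nat_lit 522362) (.g (nat_lit 2289) (.e (nat_lit 204852) (nat_lit 26) (.e (nat_lit 336324) (nat_lit 18) (.e (nat_lit 204880) (nat_lit 32) (.e (nat_lit 385066) (nat_lit 26) (.e (nat_lit 532532) (nat_lit 9) (.e (nat_lit 336322) (nat_lit 18) .nil)))))) (.g (nat_lit 1) (.e (nat_lit 227067) (nat_lit 0) .nil) .nil))) 
(.lf (nat_lit 522874) (.g (nat_lit 2788) (.e (nat_lit 204861) (nat_lit 26) (.e (nat_lit 336076) (nat_lit 9) (.e (nat_lit 336326) (nat_lit 18) (.e (nat_lit 204838) (nat_lit 20) (.e (nat_lit 114697) (nat_lit 11) (.e (nat_lit 426137) (nat_lit 3) .nil)))))) (.g (nat_lit 1) (.e (nat_lit 228735) (nat_lit 0) .nil) .nil)))) (.nd (nat_lit 9) 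
(.lf (nat_lit 522618) (.g (nat_lit 3487) (.e (nat_lit 204854) (nat_lit 26) (.e (nat_lit 336326) (nat_lit 18) (.e (nat_lit 204882) (nat_lit 32) (.e (nat_lit 385068) (nat_lit 26) (.e (nat_lit 532530) (nat_lit 9) (.e (nat_lit 336324) (nat_lit 18) .nil)))))) (.g (nat_lit 1) (.e (nat_lit 227796) (nat_lit 0) .nil) .nil))) 
(.lf (nat_lit 523130) (.g (nat_lit 1298) (.e (nat_lit 204862) (nat_lit 27) (.e (nat_lit 344117) (nat_lit 21) (.e (nat_lit 516195) (nat_lit 26) (.e (nat_lit 336027) (nat_lit 3) .nil)))) (.g (nat_lit 0) (.e (nat_lit 229188) (nat_lit 0) .nil) .nil))))) (.nd (nat_lit 8) (.nd (nat_lit 9) 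
(.lf (nat_lit 522490) (.g (nat_lit 1973) (.e (nat_lit 204853) (nat_lit 26) (.e (nat_lit 336324) (nat_lit 18) (.e (nat_lit 204852) (nat_lit 26) (.e (nat_lit 336316) (nat_lit 17) (.e (nat_lit 196681) (nat_lit 17) (.e (nat_lit 139008) (nat_lit 18) .nil)))))) (.g (nat_lit 1) (.e (nat_lit 227432) (nat_lit 0) .nil) .nil))) 
(.lf (nat_lit 523002) (.g (nat_lit 1257) (.e (nat_lit 204861) (nat_lit 26) (.e (nat_lit 336213) (nat_lit 13) (.e (nat_lit 393218) (nat_lit 0) .nil))) (.g (nat_lit 0) (.e (nat_lit 228971) (nat_lit 0) .nil) .nil)))) (.nd (nat_lit 9) 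
(.lf (nat_lit 522746) (.g (nat_lit 2155) (.e (nat_lit 204858) (nat_lit 26) (.e (nat_lit 336163) (nat_lit 10) (.e (nat_lit 344117) (nat_lit 21) (.e (nat_lit 516106) (nat_lit 0) (.e (nat_lit 7936) (nat_lit 377) .nil))))) (.g (nat_lit 0) (.e (nat_lit 228425) (nat_lit 0) .nil) .nil))) 
(.lf (nat_lit 523258) (.g (nat_lit 2780) (.e (nat_lit 204862) (nat_lit 27) (.e (nat_lit 344130) (nat_lit 26) (.e (nat_lit 557103) (nat_lit 14) (.e (nat_lit 180250) (nat_lit 10) (.e (nat_lit 573475) (nat_lit 12) (.e (nat_lit 57507) (nat_lit 39) (.e (nat_lit 647170) (nat_lit 0) (.e (nat_lit 2685) (nat_lit 168) .nil)))))))) (.g (nat_lit 1) (.e (nat_lit 229331) (nat_lit 0) .nil) .nil)))))))))) 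
(.nd (nat_lit 3) (.nd (nat_lit 4) (.nd (nat_lit 5) (.nd (nat_lit 6) (.nd (nat_lit 7) 
(.nd (nat_lit 8) (.nd (nat_lit 9) 
(.lf (nat_lit 522246) (.g (nat_lit 1743) (.e (nat_lit 204850) (nat_lit 26) (.e (nat_lit 336028) (nat_lit 3) (.e (nat_lit 98333) (nat_lit 18) (.e (nat_lit 164182) (nat_lit 154) .nil)))) (.g (nat_lit 0) (.e (nat_lit 226740) (nat_lit 0) .nil) .nil))) 
(.lf (nat_lit 522758) (.g (nat_lit 1678) (.e (nat_lit 204859) (nat_lit 26) (.e (nat_lit 336017) (nat_lit 3) (.e (nat_lit 98342) (nat_lit 20) (.e (nat_lit 221213) (nat_lit 23) .nil)))) (.g (nat_lit 0) (.e (nat_lit 228448) (nat_lit 0) .nil) .nil)))) (.nd (nat_lit 9) 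
(.lf (nat_lit 522502) (.g (nat_lit 2725) (.e (nat_lit 204853) (nat_lit 26) (.e (nat_lit 336324) (nat_lit 18) (.e (nat_lit 204854) (nat_lit 26) (.e (nat_lit 336324) (nat_lit 18) (.e (nat_lit 204854) (nat_lit 26) (.e (nat_lit 336326) (nat_lit 18) .nil)))))) (.g (nat_lit 1) (.e (nat_lit 227445) (nat_lit 0) .nil) .nil))) 
(.lf (nat_lit 523014) (.g (nat_lit 1829) (.e (nat_lit 204861) (nat_lit 26) (.e (nat_lit 336213) (nat_lit 13) (.e (nat_lit 393225) (nat_lit 9) (.e (nat_lit 335917) (nat_lit 0) (.e (nat_lit 1086) (nat_lit 81) .nil))))) (.g (nat_lit 0) (.e (nat_lit 228987) (nat_lit 0) .nil) .nil))))) (.nd (nat_lit 8) (.nd (nat_lit 9) 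
(.lf (nat_lit 522374) (.g (nat_lit 3201) (.e (nat_lit 204852) (nat_lit 26) (.e (nat_lit 336324) (nat_lit 18) (.e (nat_lit 204882) (nat_lit 32) (.e (nat_lit 385066) (nat_lit 26) (.e (nat_lit 532529) (nat_lit 9) (.e (nat_lit 336326) (nat_lit 18) .nil)))))) (.g (nat_lit 1) (.e (nat_lit 227086) (nat_lit 0) .nil) .nil))) 
(.lf (nat_lit 522886) (.g (nat_lit 3301) (.e (nat_lit 204861) (nat_lit 26) (.e (nat_lit 336076) (nat_lit 9) (.e (nat_lit 336454) (nat_lit 34) (.e (nat_lit 483366) (nat_lit 18) (.e (nat_lit 57931) (nat_lit 282) (.e (nat_lit 163873) (nat_lit 3) .nil)))))) (.g (nat_lit 1) (.e (nat_lit 228755) (nat_lit 0) .nil) .nil)))) (.nd (nat_lit 9) 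
(.lf (nat_lit 522630) (.g (nat_lit 3052) (.e (nat_lit 204855) (nat_lit 26) (.e (nat_lit 336099) (nat_lit 9) (.e (nat_lit 336013) (nat_lit 2) (.e (nat_lit 90164) (nat_lit 12) .nil)))) (.g (nat_lit 0) (.e (nat_lit 227888) (nat_lit 0) .nil) .nil))) 
(.lf (nat_lit 523142) (.g (nat_lit 1148) (.e (nat_lit 204862) (nat_lit 27) (.e (nat_lit 344119) (nat_lit 21) (.e (nat_lit 516120) (nat_lit 1) (.e (nat_lit 164183) (nat_lit 154) .nil)))) (.g (nat_lit 0) (.e (nat_lit 229203) (nat_lit 0) .nil) .nil)))))) (.nd (nat_lit 7) (.nd (nat_lit 8) (.nd (nat_lit 9) 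
(.lf (nat_lit 522310) (.g (nat_lit 1610) (.e (nat_lit 204852) (nat_lit 26) (.e (nat_lit 336208) (nat_lit 12) (.e (nat_lit 385074) (nat_lit 31) (.e (nat_lit 573480) (nat_lit 13) .nil)))) (.g (nat_lit 0) (.e (nat_lit 226931) (nat_lit 0) .nil) .nil))) 
(.lf (nat_lit 522822) (.g (nat_lit 2364) (.e (nat_lit 204861) (nat_lit 26) (.e (nat_lit 336025) (nat_lit 3) (.e (nat_lit 98335) (nat_lit 18) (.e (nat_lit 164179) (nat_lit 154) (.e (nat_lit 57379) (nat_lit 3) .nil))))) (.g (nat_lit 0) (.e (nat_lit 228649) (nat_lit 0) .nil) .nil)))) (.nd (nat_lit 9) 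
(.lf (nat_lit 522566) (.g (nat_lit 2455) (.e (nat_lit 204854) (nat_lit 26) (.e (nat_lit 336310) (nat_lit 16) (.e (nat_lit 164183) (nat_lit 154) (.e (nat_lit 57378) (nat_lit 3) (.e (nat_lit 98333) (nat_lit 18) (.e (nat_lit 164325) (nat_lit 230) (.e (nat_lit 163906) (nat_lit 12) (.e (nat_lit 426131) (nat_lit 3) .nil)))))))) (.g (nat_lit 1) (.e (nat_lit 227675) (nat_lit 0) .nil) .nil))) 
(.lf (nat_lit 523078) (.g (nat_lit 3605) (.e (nat_lit 204862) (nat_lit 27) (.e (nat_lit 344117) (nat_lit 21) (.e (nat_lit 516116) (nat_lit 1) (.e (nat_lit 164182) (nat_lit 154) (.e (nat_lit 57375) (nat_lit 2) (.e (nat_lit 90128) (nat_lit 9) (.e (nat_lit 2706) (nat_lit 170) (.e (nat_lit 221214) (nat_lit 23) .nil)))))))) (.g (nat_lit 1) (.e (nat_lit 229111) (nat_lit 0) .nil) .nil))))) 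
(.nd (nat_lit 8) (.nd (nat_lit 9) 
(.lf (nat_lit 522438) (.g (nat_lit 2552) (.e (nat_lit 204852) (nat_lit 26) (.e (nat_lit 336326) (nat_lit 18) (.e (nat_lit 204881) (nat_lit 32) (.e (nat_lit 385066) (nat_lit 26) (.e (nat_lit 532534) (nat_lit 9) (.e (nat_lit 336326) (nat_lit 18) .nil)))))) (.g (nat_lit 1) (.e (nat_lit 227293) (nat_lit 0) .nil) .nil))) 
(.lf (nat_lit 522950) (.g (nat_lit 410) (.e (nat_lit 204861) (nat_lit 26) (.e (nat_lit 336194) (nat_lit 12) (.e (nat_lit 385065) (nat_lit 26) .nil))) (.g (nat_lit 0) (.e (nat_lit 228856) (nat_lit 0) .nil) .nil)))) (.nd (nat_lit 9) 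
(.lf (nat_lit 522694) (.g (nat_lit 2964) (.e (nat_lit 204855) (nat_lit 26) (.e (nat_lit 336176) (nat_lit 10) (.e (nat_lit 344130) (nat_lit 26) (.e (nat_lit 557090) (nat_lit 12) (.e (nat_lit 164017) (nat_lit 44) (.e (nat_lit 688139) (nat_lit 5) (.e (nat_lit 2887) (nat_lit 184) (.e (nat_lit 426132) (nat_lit 3) .nil)))))))) (.g (nat_lit 1) (.e (nat_lit 228169) (nat_lit 0) .nil) .nil))) 
(.lf (nat_lit 523206) (.g (nat_lit 2720) (.e (nat_lit 204862) (nat_lit 27) (.e (nat_lit 344129) (nat_lit 26) (.e (nat_lit 557104) (nat_lit 14) (.e (nat_lit 180244) (nat_lit 5) (.e (nat_lit 532503) (nat_lit 1) .nil))))) (.g (nat_lit 0) (.e (nat_lit 229278) (nat_lit 0) .nil) .nil))))))) (.nd (nat_lit 6) (.nd (nat_lit 7) (.nd (nat_lit 8) (.nd (nat_lit 9) 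
(.lf (nat_lit 522278) (.g (nat_lit 4650) (.e (nat_lit 204850) (nat_lit 26) (.e (nat_lit 336324) (nat_lit 18) (.e (nat_lit 204831) (nat_lit 18) (.e (nat_lit 57854) (nat_lit 252) (.e (nat_lit 57378) (nat_lit 3) .nil))))) (.g (nat_lit 0) (.e (nat_lit 226786) (nat_lit 0) .nil) .nil))) 
(.lf (nat_lit 522790) (.g (nat_lit 534) (.e (nat_lit 204860) (nat_lit 26) (.e (nat_lit 336214) (nat_lit 13) (.e (nat_lit 401152) (nat_lit 7) (.e (nat_lit 319534) (nat_lit 16) (.e (nat_lit 294656) (nat_lit 18) .nil))))) (.g (nat_lit 0) (.e (nat_lit 228509) (nat_lit 0) .nil) .nil)))) (.nd (nat_lit 9) 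
(.lf (nat_lit 522534) (.g (nat_lit 1344) (.e (nat_lit 204854) (nat_lit 26) (.e (nat_lit 336019) (nat_lit 3) (.e (nat_lit 98341) (nat_lit 20) (.e (nat_lit 221214) (nat_lit 23) .nil)))) (.g (nat_lit 0) (.e (nat_lit 227586) (nat_lit 0) .nil) .nil))) 
(.lf (nat_lit 523046) (.g (nat_lit 1985) (.e (nat_lit 212736) (nat_lit 26) (.e (nat_lit 336324) (nat_lit 18) (.e (nat_lit 204882) (nat_lit 32) (.e (nat_lit 385066) (nat_lit 26) (.e (nat_lit 532530) (nat_lit 9) .nil))))) (.g (nat_lit 0) (.e (nat_lit 229048) (nat_lit 0) .nil) .nil))))) (.nd (nat_lit 8) (.nd (nat_lit 9) 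
(.lf (nat_lit 522406) (.g (nat_lit 1950) (.e (nat_lit 204852) (nat_lit 26) (.e (nat_lit 336326) (nat_lit 18) (.e (nat_lit 204854) (nat_lit 26) (.e (nat_lit 336245) (nat_lit 15) .nil)))) (.g (nat_lit 0) (.e (nat_lit 227205) (nat_lit 0) .nil) .nil))) 
(.lf (nat_lit 522918) (.g (nat_lit 3517) (.e (nat_lit 204861) (nat_lit 26) (.e (nat_lit 336186) (nat_lit 11) (.e (nat_lit 368676) (nat_lit 21) (.e (nat_lit 516139) (nat_lit 7) (.e (nat_lit 409647) (nat_lit 18) (.e (nat_lit 303118) (nat_lit 3) .nil)))))) (.g (nat_lit 1) (.e (nat_lit 228804) (nat_lit 0) .nil) .nil)))) (.nd (nat_lit 9) 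
(.lf (nat_lit 522662) (.g (nat_lit 3824) (.e (nat_lit 204855) (nat_lit 26) (.e (nat_lit 336167) (nat_lit 10) (.e (nat_lit 344117) (nat_lit 21) (.e (nat_lit 516139) (nat_lit 7) (.e (nat_lit 409645) (nat_lit 18) (.e (nat_lit 303119) (nat_lit 3) .nil)))))) (.g (nat_lit 1) (.e (nat_lit 227957) (nat_lit 0) .nil) .nil))) 
(.lf (nat_lit 523174) (.g (nat_lit 3211) (.e (nat_lit 204862) (nat_lit 27) (.e (nat_lit 344129) (nat_lit 26) (.e (nat_lit 557103) (nat_lit 14) (.e (nat_lit 180243) (nat_lit 5) (.e (nat_lit 532501) (nat_lit 1) (.e (nat_lit 57703) (nat_lit 164) (.e (nat_lit 2422) (nat_lit 157) (.e (nat_lit 2685) (nat_lit 168) .nil)))))))) (.g (nat_lit 1) (.e (nat_lit 229245) (nat_lit 0) .nil) .nil)))))) 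
(.nd (nat_lit 7) (.nd (nat_lit 8) (.nd (nat_lit 9) 
(.lf (nat_lit 522342) (.g (nat_lit 2287) (.e (nat_lit 204852) (nat_lit 26) (.e (nat_lit 336324) (nat_lit 18) (.e (nat_lit 204831) (nat_lit 18) (.e (nat_lit 57854) (nat_lit 252) .nil)))) (.g (nat_lit 0) (.e (nat_lit 227000) (nat_lit 0) .nil) .nil))) 
(.lf (nat_lit 522854) (.g (nat_lit 2607) (.e (nat_lit 204861) (nat_lit 26) (.e (nat_lit 336075) (nat_lit 9) (.e (nat_lit 336454) (nat_lit 34) (.e (nat_lit 483363) (nat_lit 18) (.e (nat_lit 57929) (nat_lit 282) (.e (nat_lit 163874) (nat_lit 3) .nil)))))) (.g (nat_lit 1) (.e (nat_lit 228702) (nat_lit 0) .nil) .nil)))) (.nd (nat_lit 9) 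
(.lf (nat_lit 522598) (.g (nat_lit 1418) (.e (nat_lit 204854) (nat_lit 26) (.e (nat_lit 336326) (nat_lit 18) (.e (nat_lit 204854) (nat_lit 26) (.e (nat_lit 343808) (nat_lit 18) .nil)))) (.g (nat_lit 0) (.e (nat_lit 227771) (nat_lit 0) .nil) .nil))) 
(.lf (nat_lit 523110) (.g (nat_lit 3875) (.e (nat_lit 204862) (nat_lit 27) (.e (nat_lit 344117) (nat_lit 21) (.e (nat_lit 516129) (nat_lit 3) (.e (nat_lit 221214) (nat_lit 23) (.e (nat_lit 204830) (nat_lit 18) (.e (nat_lit 57927) (nat_lit 282) (.e (nat_lit 163875) (nat_lit 3) .nil))))))) (.g (nat_lit 1) (.e (nat_lit 229155) (nat_lit 0) .nil) .nil))))) (.nd (nat_lit 8) (.nd (nat_lit 9) 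
(.lf (nat_lit 522470) (.g (nat_lit 1730) (.e (nat_lit 204853) (nat_lit 26) (.e (nat_lit 336019) (nat_lit 3) (.e (nat_lit 98342) (nat_lit 20) (.e (nat_lit 221211) (nat_lit 22) .nil)))) (.g (nat_lit 0) (.e (nat_lit 227410) (nat_lit 0) .nil) .nil))) 
(.lf (nat_lit 522982) (.g (nat_lit 3530) (.e (nat_lit 204861) (nat_lit 26) (.e (nat_lit 336194) (nat_lit 12) (.e (nat_lit 385072) (nat_lit 31) (.e (nat_lit 573482) (nat_lit 13) (.e (nat_lit 65628) (nat_lit 14) (.e (nat_lit 401428) (nat_lit 3) .nil)))))) (.g (nat_lit 1) (.e (nat_lit 228923) (nat_lit 0) .nil) .nil)))) (.nd (nat_lit 9) 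
(.lf (nat_lit 522726) (.g (nat_lit 3892) (.e (nat_lit 204855) (nat_lit 26) (.e (nat_lit 336175) (nat_lit 10) (.e (nat_lit 344117) (nat_lit 21) (.e (nat_lit 516139) (nat_lit 7) (.e (nat_lit 409645) (nat_lit 18) (.e (nat_lit 303119) (nat_lit 3) .nil)))))) (.g (nat_lit 1) (.e (nat_lit 228333) (nat_lit 0) .nil) .nil))) 
(.lf (nat_lit 523238) (.g (nat_lit 3800) (.e (nat_lit 204862) (nat_lit 27) (.e (nat_lit 344129) (nat_lit 26) (.e (nat_lit 557105) (nat_lit 14) (.e (nat_lit 180252) (nat_lit 10) (.e (nat_lit 573475) (nat_lit 12) (.e (nat_lit 57507) (nat_lit 39) (.e (nat_lit 655104) (nat_lit 0) (.e (nat_lit 2684) (nat_lit 168) .nil)))))))) (.g (nat_lit 1) (.e (nat_lit 229311) (nat_lit 0) .nil) .nil)))))))) 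
(.nd (nat_lit 5) (.nd (nat_lit 6) (.nd (nat_lit 7) (.nd (nat_lit 8) (.nd (nat_lit 9) 
(.lf (nat_lit 522262) (.g (nat_lit 2052) (.e (nat_lit 204850) (nat_lit 26) (.e (nat_lit 336205) (nat_lit 12) (.e (nat_lit 385074) (nat_lit 31) (.e (nat_lit 573488) (nat_lit 14) .nil)))) (.g (nat_lit 0) (.e (nat_lit 226762) (nat_lit 0) .nil) .nil))) 
(.lf (nat_lit 522774) (.g (nat_lit 2545) (.e (nat_lit 204859) (nat_lit 26) (.e (nat_lit 336206) (nat_lit 12) (.e (nat_lit 385074) (nat_lit 31) (.e (nat_lit 573487) (nat_lit 14) (.e (nat_lit 73781) (nat_lit 32) (.e (nat_lit 2681) (nat_lit 168) .nil)))))) (.g (nat_lit 1) (.e (nat_lit 228481) (nat_lit 0) .nil) .nil)))) (.nd (nat_lit 9) 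
(.lf (nat_lit 522518) (.g (nat_lit 3118) (.e (nat_lit 204853) (nat_lit 26) (.e (nat_lit 336324) (nat_lit 18) (.e (nat_lit 204882) (nat_lit 32) (.e (nat_lit 385066) (nat_lit 26) (.e (nat_lit 532534) (nat_lit 9) (.e (nat_lit 336324) (nat_lit 18) .nil)))))) (.g (nat_lit 1) (.e (nat_lit 227462) (nat_lit 0) .nil) .nil))) 
(.lf (nat_lit 523030) (.g (nat_lit 3685) (.e (nat_lit 204861) (nat_lit 26) (.e (nat_lit 336229) (nat_lit 14) (.e (nat_lit 401425) (nat_lit 2) (.e (nat_lit 196666) (nat_lit 13) (.e (nat_lit 65630) (nat_lit 14) (.e (nat_lit 401428) (nat_lit 3) .nil)))))) (.g (nat_lit 1) (.e (nat_lit 229017) (nat_lit 0) .nil) .nil))))) (.nd (nat_lit 8) (.nd (nat_lit 9) 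
(.lf (nat_lit 522390) (.g (nat_lit 3144) (.e (nat_lit 204852) (nat_lit 26) (.e (nat_lit 336325) (nat_lit 18) (.e (nat_lit 204880) (nat_lit 32) (.e (nat_lit 385066) (nat_lit 26) (.e (nat_lit 532534) (nat_lit 9) (.e (nat_lit 336326) (nat_lit 18) .nil)))))) (.g (nat_lit 1) (.e (nat_lit 227110) (nat_lit 0) .nil) .nil))) 
(.lf (nat_lit 522902) (.g (nat_lit 3242) (.e (nat_lit 204861) (nat_lit 26) (.e (nat_lit 336078) (nat_lit 9) (.e (nat_lit 336454) (nat_lit 34) (.e (nat_lit 483365) (nat_lit 18) (.e (nat_lit 57930) (nat_lit 282) (.e (nat_lit 163873) (nat_lit 3) .nil)))))) (.g (nat_lit 1) (.e (nat_lit 228781) (nat_lit 0) .nil) .nil)))) (.nd (nat_lit 9) 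
(.lf (nat_lit 522646) (.g (nat_lit 3624) (.e (nat_lit 204855) (nat_lit 26) (.e (nat_lit 336099) (nat_lit 9) (.e (nat_lit 336013) (nat_lit 2) (.e (nat_lit 90165) (nat_lit 12) (.e (nat_lit 171776) (nat_lit 176) (.e (nat_lit 2798) (nat_lit 180) (.e (nat_lit 303118) (nat_lit 3) .nil))))))) (.g (nat_lit 1) (.e (nat_lit 227904) (nat_lit 0) .nil) .nil))) 
(.lf (nat_lit 523158) (.g (nat_lit 3156) (.e (nat_lit 204862) (nat_lit 27) (.e (nat_lit 344129) (nat_lit 26) (.e (nat_lit 557097) (nat_lit 13) (.e (nat_lit 172065) (nat_lit 3) (.e (nat_lit 204821) (nat_lit 17) (.e (nat_lit 2391) (nat_lit 156) (.e (nat_lit 819203) (nat_lit 0) (.e (nat_lit 2685) (nat_lit 168) .nil)))))))) (.g (nat_lit 1) (.e (nat_lit 229229) (nat_lit 0) .nil) .nil)))))) 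
(.nd (nat_lit 7) (.nd (nat_lit 8) (.nd (nat_lit 9) 
(.lf (nat_lit 522326) (.g (nat_lit 2229) (.e (nat_lit 204852) (nat_lit 26) (.e (nat_lit 336324) (nat_lit 18) (.e (nat_lit 204830) (nat_lit 18) (.e (nat_lit 57852) (nat_lit 252) (.e (nat_lit 57378) (nat_lit 3) (.e (nat_lit 98338) (nat_lit 19) (.e (nat_lit 213013) (nat_lit 9) (.e (nat_lit 2684) (nat_lit 168) .nil)))))))) (.g (nat_lit 1) (.e (nat_lit 226980) (nat_lit 0) .nil) .nil))) 
(.lf (nat_lit 522838) (.g (nat_lit 927) (.e (nat_lit 204861) (nat_lit 26) (.e (nat_lit 336075) (nat_lit 9) (.e (nat_lit 336316) (nat_lit 17) (.e (nat_lit 196677) (nat_lit 16) .nil)))) (.g (nat_lit 0) (.e (nat_lit 228674) (nat_lit 0) .nil) .nil)))) (.nd (nat_lit 9) 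
(.lf (nat_lit 522582) (.g (nat_lit 2269) (.e (nat_lit 204854) (nat_lit 26) (.e (nat_lit 336324) (nat_lit 18) (.e (nat_lit 204880) (nat_lit 32) (.e (nat_lit 385066) (nat_lit 26) (.e (nat_lit 532529) (nat_lit 9) (.e (nat_lit 336326) (nat_lit 18) .nil)))))) (.g (nat_lit 1) (.e (nat_lit 227718) (nat_lit 0) .nil) .nil))) 
(.lf (nat_lit 523094) (.g (nat_lit 1734) (.e (nat_lit 204862) (nat_lit 27) (.e (nat_lit 344117) (nat_lit 21) (.e (nat_lit 516118) (nat_lit 1) (.e (nat_lit 164183) (nat_lit 154) .nil)))) (.g (nat_lit 0) (.e (nat_lit 229136) (nat_lit 0) .nil) .nil))))) (.nd (nat_lit 8) (.nd (nat_lit 9) 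
(.lf (nat_lit 522454) (.g (nat_lit 2927) (.e (nat_lit 204852) (nat_lit 26) (.e (nat_lit 336326) (nat_lit 18) (.e (nat_lit 204882) (nat_lit 32) (.e (nat_lit 385068) (nat_lit 26) (.e (nat_lit 532529) (nat_lit 9) (.e (nat_lit 336326) (nat_lit 18) .nil)))))) (.g (nat_lit 1) (.e (nat_lit 227320) (nat_lit 0) .nil) .nil))) 
(.lf (nat_lit 522966) (.g (nat_lit 1581) (.e (nat_lit 204861) (nat_lit 26) (.e (nat_lit 336194) (nat_lit 12) (.e (nat_lit 385068) (nat_lit 26) (.e (nat_lit 532481) (nat_lit 0) .nil)))) (.g (nat_lit 0) (.e (nat_lit 228902) (nat_lit 0) .nil) .nil)))) (.nd (nat_lit 9) 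
(.lf (nat_lit 522710) (.g (nat_lit 1137) (.e (nat_lit 204855) (nat_lit 26) (.e (nat_lit 336176) (nat_lit 10) (.e (nat_lit 344133) (nat_lit 26) (.e (nat_lit 557089) (nat_lit 12) .nil)))) (.g (nat_lit 0) (.e (nat_lit 228245) (nat_lit 0) .nil) .nil))) 
(.lf (nat_lit 523222) (.g (nat_lit 4179) (.e (nat_lit 204862) (nat_lit 27) (.e (nat_lit 344129) (nat_lit 26) (.e (nat_lit 557104) (nat_lit 14) (.e (nat_lit 180252) (nat_lit 10) (.e (nat_lit 573474) (nat_lit 12) (.e (nat_lit 57511) (nat_lit 39) (.e (nat_lit 655104) (nat_lit 0) (.e (nat_lit 2684) (nat_lit 168) .nil)))))))) (.g (nat_lit 1) (.e (nat_lit 229295) (nat_lit 0) .nil) .nil))))))) 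
(.nd (nat_lit 6) (.nd (nat_lit 7) (.nd (nat_lit 8) (.nd (nat_lit 9) 
(.lf (nat_lit 522294) (.g (nat_lit 4037) (.e (nat_lit 204851) (nat_lit 26) (.e (nat_lit 336324) (nat_lit 18) (.e (nat_lit 204831) (nat_lit 18) (.e (nat_lit 57854) (nat_lit 252) .nil)))) (.g (nat_lit 0) (.e (nat_lit 226826) (nat_lit 0) .nil) .nil))) 
(.lf (nat_lit 522806) (.g (nat_lit 1864) (.e (nat_lit 204861) (nat_lit 26) (.e (nat_lit 335988) (nat_lit 1) (.e (nat_lit 57927) (nat_lit 282) (.e (nat_lit 163843) (nat_lit 0) (.e (nat_lit 7936) (nat_lit 200) .nil))))) (.g (nat_lit 0) (.e (nat_lit 228566) (nat_lit 0) .nil) .nil)))) (.nd (nat_lit 9) 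
(.lf (nat_lit 522550) (.g (nat_lit 4105) (.e (nat_lit 204854) (nat_lit 26) (.e (nat_lit 336019) (nat_lit 3) (.e (nat_lit 98342) (nat_lit 20) (.e (nat_lit 221214) (nat_lit 23) (.e (nat_lit 204830) (nat_lit 18) (.e (nat_lit 57926) (nat_lit 282) (.e (nat_lit 163874) (nat_lit 3) .nil))))))) (.g (nat_lit 1) (.e (nat_lit 227618) (nat_lit 0) .nil) .nil))) 
(.lf (nat_lit 523062) (.g (nat_lit 2808) (.e (nat_lit 204862) (nat_lit 27) (.e (nat_lit 344117) (nat_lit 21) (.e (nat_lit 516115) (nat_lit 1) (.e (nat_lit 164179) (nat_lit 154) (.e (nat_lit 57379) (nat_lit 3) (.e (nat_lit 98321) (nat_lit 17) (.e (nat_lit 3771) (nat_lit 229) (.e (nat_lit 794673) (nat_lit 23) .nil)))))))) (.g (nat_lit 1) (.e (nat_lit 229082) (nat_lit 0) .nil) .nil))))) 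
(.nd (nat_lit 8) (.nd (nat_lit 9) 
(.lf (nat_lit 522422) (.g (nat_lit 2284) (.e (nat_lit 204852) (nat_lit 26) (.e (nat_lit 336326) (nat_lit 18) (.e (nat_lit 204880) (nat_lit 32) (.e (nat_lit 385066) (nat_lit 26) (.e (nat_lit 532532) (nat_lit 9) (.e (nat_lit 336322) (nat_lit 18) .nil)))))) (.g (nat_lit 1) (.e (nat_lit 227277) (nat_lit 0) .nil) .nil))) 
(.lf (nat_lit 522934) (.g (nat_lit 1553) (.e (nat_lit 204861) (nat_lit 26) (.e (nat_lit 336186) (nat_lit 11) (.e (nat_lit 368676) (nat_lit 21) (.e (nat_lit 516171) (nat_lit 13) (.e (nat_lit 458774) (nat_lit 18) (.e (nat_lit 5934) (nat_lit 322) (.e (nat_lit 65280) (nat_lit 64) .nil))))))) (.g (nat_lit 1) (.e (nat_lit 228834) (nat_lit 0) .nil) .nil)))) (.nd (nat_lit 9) 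
(.lf (nat_lit 522678) (.g (nat_lit 383) (.e (nat_lit 204855) (nat_lit 26) (.e (nat_lit 336176) (nat_lit 10) (.e (nat_lit 344130) (nat_lit 26) .nil))) (.g (nat_lit 0) (.e (nat_lit 228013) (nat_lit 0) .nil) .nil))) 
(.lf (nat_lit 523190) (.g (nat_lit 3970) (.e (nat_lit 204862) (nat_lit 27) (.e (nat_lit 344129) (nat_lit 26) (.e (nat_lit 557103) (nat_lit 14) (.e (nat_lit 180250) (nat_lit 10) (.e (nat_lit 573475) (nat_lit 12) (.e (nat_lit 57506) (nat_lit 39) (.e (nat_lit 647175) (nat_lit 0) (.e (nat_lit 2684) (nat_lit 168) .nil)))))))) (.g (nat_lit 1) (.e (nat_lit 229262) (nat_lit 0) .nil) .nil)))))) 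
(.nd (nat_lit 7) (.nd (nat_lit 8) (.nd (nat_lit 9) 
(.lf (nat_lit 522358) (.g (nat_lit 1414) (.e (nat_lit 204852) (nat_lit 26) (.e (nat_lit 336324) (nat_lit 18) (.e (nat_lit 204880) (nat_lit 32) (.e (nat_lit 385065) (nat_lit 26) .nil)))) (.g (nat_lit 0) (.e (nat_lit 227063) (nat_lit 0) .nil) .nil))) 
(.lf (nat_lit 522870) (.g (nat_lit 3188) (.e (nat_lit 204861) (nat_lit 26) (.e (nat_lit 336076) (nat_lit 9) (.e (nat_lit 336324) (nat_lit 18) (.e (nat_lit 204838) (nat_lit 20) (.e (nat_lit 114698) (nat_lit 11) (.e (nat_lit 426137) (nat_lit 3) .nil)))))) (.g (nat_lit 1) (.e (nat_lit 228731) (nat_lit 0) .nil) .nil)))) (.nd (nat_lit 9) 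
(.lf (nat_lit 522614) (.g (nat_lit 3295) (.e (nat_lit 204854) (nat_lit 26) (.e (nat_lit 336326) (nat_lit 18) (.e (nat_lit 204882) (nat_lit 32) (.e (nat_lit 385066) (nat_lit 26) (.e (nat_lit 532531) (nat_lit 9) (.e (nat_lit 336324) (nat_lit 18) .nil)))))) (.g (nat_lit 1) (.e (nat_lit 227791) (nat_lit 0) .nil) .nil))) 
(.lf (nat_lit 523126) (.g (nat_lit 2471) (.e (nat_lit 204862) (nat_lit 27) (.e (nat_lit 344117) (nat_lit 21) (.e (nat_lit 516131) (nat_lit 3) (.e (nat_lit 221212) (nat_lit 22) (.e (nat_lit 196660) (nat_lit 12) .nil))))) (.g (nat_lit 0) (.e (nat_lit 229171) (nat_lit 0) .nil) .nil))))) (.nd (nat_lit 8) (.nd (nat_lit 9) 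
(.lf (nat_lit 522486) (.g (nat_lit 1474) (.e (nat_lit 204853) (nat_lit 26) (.e (nat_lit 336324) (nat_lit 18) (.e (nat_lit 204852) (nat_lit 26) (.e (nat_lit 336316) (nat_lit 17) (.e (nat_lit 196663) (nat_lit 13) .nil))))) (.g (nat_lit 0) (.e (nat_lit 227428) (nat_lit 0) .nil) .nil))) 
(.lf (nat_lit 522998) (.g (nat_lit 3263) (.e (nat_lit 204861) (nat_lit 26) (.e (nat_lit 336203) (nat_lit 12) (.e (nat_lit 385073) (nat_lit 31) (.e (nat_lit 573482) (nat_lit 13) (.e (nat_lit 65630) (nat_lit 14) (.e (nat_lit 401428) (nat_lit 3) .nil)))))) (.g (nat_lit 1) (.e (nat_lit 228959) (nat_lit 0) .nil) .nil)))) (.nd (nat_lit 9) 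
(.lf (nat_lit 522742) (.g (nat_lit 1430) (.e (nat_lit 204856) (nat_lit 26) (.e (nat_lit 336228) (nat_lit 14) (.e (nat_lit 401425) (nat_lit 2) (.e (nat_lit 196628) (nat_lit 9) .nil)))) (.g (nat_lit 0) (.e (nat_lit 228413) (nat_lit 0) .nil) .nil))) 
(.lf (nat_lit 523254) (.g (nat_lit 4467) (.e (nat_lit 204862) (nat_lit 27) (.e (nat_lit 344130) (nat_lit 26) (.e (nat_lit 557103) (nat_lit 14) (.e (nat_lit 180250) (nat_lit 10) (.e (nat_lit 573474) (nat_lit 12) (.e (nat_lit 57507) (nat_lit 39) (.e (nat_lit 655104) (nat_lit 0) (.e (nat_lit 2684) (nat_lit 168) .nil)))))))) (.g (nat_lit 1) (.e (nat_lit 229327) (nat_lit 0) .nil) .nil))))))))) 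
(.nd (nat_lit 4) (.nd (nat_lit 5) (.nd (nat_lit 6) (.nd (nat_lit 7) (.nd (nat_lit 8) 
(.nd (nat_lit 9) 
(.lf (nat_lit 522254) (.g (nat_lit 2855) (.e (nat_lit 204850) (nat_lit 26) (.e (nat_lit 336164) (nat_lit 10) (.e (nat_lit 344117) (nat_lit 21) (.e (nat_lit 516106) (nat_lit 0) (.e (nat_lit 7936) (nat_lit 377) (.e (nat_lit 2797) (nat_lit 180) (.e (nat_lit 303119) (nat_lit 3) .nil))))))) (.g (nat_lit 1) (.e (nat_lit 226753) (nat_lit 0) .nil) .nil))) 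
(.lf (nat_lit 522766) (.g (nat_lit 2061) (.e (nat_lit 204859) (nat_lit 26) (.e (nat_lit 336206) (nat_lit 12) (.e (nat_lit 385066) (nat_lit 26) (.e (nat_lit 532515) (nat_lit 3) (.e (nat_lit 114697) (nat_lit 11) (.e (nat_lit 426137) (nat_lit 3) .nil)))))) (.g (nat_lit 1) (.e (nat_lit 228466) (nat_lit 0) .nil) .nil)))) (.nd (nat_lit 9) 
(.lf (nat_lit 522510) (.g (nat_lit 3075) (.e (nat_lit 204853) (nat_lit 26) (.e (nat_lit 336324) (nat_lit 18) (.e (nat_lit 204880) (nat_lit 32) (.e (nat_lit 385066) (nat_lit 26) (.e (nat_lit 532534) (nat_lit 9) (.e (nat_lit 336324) (nat_lit 18) .nil)))))) (.g (nat_lit 1) (.e (nat_lit 227454) (nat_lit 0) .nil) .nil))) 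
(.lf (nat_lit 523022) (.g (nat_lit 2077) (.e (nat_lit 204861) (nat_lit 26) (.e (nat_lit 336215) (nat_lit 13) (.e (nat_lit 393229) (nat_lit 9) (.e (nat_lit 335988) (nat_lit 1) (.e (nat_lit 57925) (nat_lit 282) .nil))))) (.g (nat_lit 0) (.e (nat_lit 229004) (nat_lit 0) .nil) .nil))))) (.nd (nat_lit 8) (.nd (nat_lit 9) 
(.lf (nat_lit 522382) (.g (nat_lit 3432) (.e (nat_lit 204852) (nat_lit 26) (.e (nat_lit 336324) (nat_lit 18) (.e (nat_lit 204882) (nat_lit 32) (.e (nat_lit 385066) (nat_lit 26) (.e (nat_lit 532534) (nat_lit 9) (.e (nat_lit 336324) (nat_lit 18) .nil)))))) (.g (nat_lit 1) (.e (nat_lit 227094) (nat_lit 0) .nil) .nil))) 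
(.lf (nat_lit 522894) (.g (nat_lit 2788) (.e (nat_lit 204861) (nat_lit 26) (.e (nat_lit 336078) (nat_lit 9) (.e (nat_lit 336324) (nat_lit 18) (.e (nat_lit 204837) (nat_lit 20) (.e (nat_lit 114697) (nat_lit 11) (.e (nat_lit 426137) (nat_lit 3) .nil)))))) (.g (nat_lit 1) (.e (nat_lit 228773) (nat_lit 0) .nil) .nil)))) (.nd (nat_lit 9) 
(.lf (nat_lit 522638) (.g (nat_lit 3132) (.e (nat_lit 204855) (nat_lit 26) (.e (nat_lit 336099) (nat_lit 9) (.e (nat_lit 336013) (nat_lit 2) (.e (nat_lit 90165) (nat_lit 12) (.e (nat_lit 164208) (nat_lit 176) (.e (nat_lit 2819) (nat_lit 181) (.e (nat_lit 311313) (nat_lit 3) .nil))))))) (.g (nat_lit 1) (.e (nat_lit 227896) (nat_lit 0) .nil) .nil))) 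
(.lf (nat_lit 523150) (.g (nat_lit 1548) (.e (nat_lit 204862) (nat_lit 27) (.e (nat_lit 344129) (nat_lit 26) (.e (nat_lit 557096) (nat_lit 13) (.e (nat_lit 172128) (nat_lit 15) .nil)))) (.g (nat_lit 0) (.e (nat_lit 229221) (nat_lit 0) .nil) .nil)))))) (.nd (nat_lit 7) (.nd (nat_lit 8) (.nd (nat_lit 9) 
(.lf (nat_lit 522318) (.g (nat_lit 3173) (.e (nat_lit 204852) (nat_lit 26) (.e (nat_lit 336310) (nat_lit 16) (.e (nat_lit 164183) (nat_lit 154) (.e (nat_lit 57379) (nat_lit 3) (.e (nat_lit 98334) (nat_lit 18) (.e (nat_lit 164305) (nat_lit 226) (.e (nat_lit 2725) (nat_lit 172) (.e (nat_lit 237592) (nat_lit 3) .nil)))))))) (.g (nat_lit 1) (.e (nat_lit 226940) (nat_lit 0) .nil) .nil))) 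
(.lf (nat_lit 522830) (.g (nat_lit 2948) (.e (nat_lit 204861) (nat_lit 26) (.e (nat_lit 336027) (nat_lit 3) (.e (nat_lit 98335) (nat_lit 18) (.e (nat_lit 164183) (nat_lit 154) (.e (nat_lit 57379) (nat_lit 3) .nil))))) (.g (nat_lit 0) (.e (nat_lit 228663) (nat_lit 0) .nil) .nil)))) (.nd (nat_lit 9) 
(.lf (nat_lit 522574) (.g (nat_lit 1861) (.e (nat_lit 204854) (nat_lit 26) (.e (nat_lit 336324) (nat_lit 18) (.e (nat_lit 204850) (nat_lit 26) (.e (nat_lit 336324) (nat_lit 18) (.e (nat_lit 204853) (nat_lit 26) .nil))))) (.g (nat_lit 0) (.e (nat_lit 227696) (nat_lit 0) .nil) .nil))) 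
(.lf (nat_lit 523086) (.g (nat_lit 2832) (.e (nat_lit 204862) (nat_lit 27) (.e (nat_lit 344117) (nat_lit 21) (.e (nat_lit 516116) (nat_lit 1) (.e (nat_lit 164183) (nat_lit 154) (.e (nat_lit 57375) (nat_lit 2) .nil))))) (.g (nat_lit 0) (.e (nat_lit 229127) (nat_lit 0) .nil) .nil))))) (.nd (nat_lit 8) (.nd (nat_lit 9) 
(.lf (nat_lit 522446) (.g (nat_lit 2447) (.e (nat_lit 204852) (nat_lit 26) (.e (nat_lit 336326) (nat_lit 18) (.e (nat_lit 204882) (nat_lit 32) (.e (nat_lit 385066) (nat_lit 26) (.e (nat_lit 532532) (nat_lit 9) (.e (nat_lit 336322) (nat_lit 18) .nil)))))) (.g (nat_lit 1) (.e (nat_lit 227310) (nat_lit 0) .nil) .nil))) 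
(.lf (nat_lit 522958) (.g (nat_lit 3859) (.e (nat_lit 204861) (nat_lit 26) (.e (nat_lit 336194) (nat_lit 12) (.e (nat_lit 385066) (nat_lit 26) (.e (nat_lit 532513) (nat_lit 3) (.e (nat_lit 114698) (nat_lit 11) (.e (nat_lit 426139) (nat_lit 3) .nil)))))) (.g (nat_lit 1) (.e (nat_lit 228880) (nat_lit 0) .nil) .nil)))) (.nd (nat_lit 9) 
(.lf (nat_lit 522702) (.g (nat_lit 967) (.e (nat_lit 204855) (nat_lit 26) (.e (nat_lit 336176) (nat_lit 10) (.e (nat_lit 344132) (nat_lit 26) (.e (nat_lit 557093) (nat_lit 12) .nil)))) (.g (nat_lit 0) (.e (nat_lit 228210) (nat_lit 0) .nil) .nil))) 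
(.lf (nat_lit 523214) (.g (nat_lit 4004) (.e (nat_lit 204862) (nat_lit 27) (.e (nat_lit 344129) (nat_lit 26) (.e (nat_lit 557104) (nat_lit 14) (.e (nat_lit 180252) (nat_lit 10) (.e (nat_lit 573474) (nat_lit 12) (.e (nat_lit 57506) (nat_lit 39) (.e (nat_lit 647175) (nat_lit 0) (.e (nat_lit 2684) (nat_lit 168) .nil)))))))) (.g (nat_lit 1) (.e (nat_lit 229287) (nat_lit 0) .nil) .nil))))))) 
(.nd (nat_lit 6) (.nd (nat_lit 7) (.nd (nat_lit 8) (.nd (nat_lit 9) 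
(.lf (nat_lit 522286) (.g (nat_lit 2527) (.e (nat_lit 204851) (nat_lit 26) (.e (nat_lit 336019) (nat_lit 3) (.e (nat_lit 98342) (nat_lit 20) (.e (nat_lit 221212) (nat_lit 22) (.e (nat_lit 196691) (nat_lit 18) .nil))))) (.g (nat_lit 0) (.e (nat_lit 226818) (nat_lit 0) .nil) .nil))) 
(.lf (nat_lit 522798) (.g (nat_lit 916) (.e (nat_lit 204861) (nat_lit 26) (.e (nat_lit 335988) (nat_lit 1) (.e (nat_lit 57830) (nat_lit 250) .nil))) (.g (nat_lit 0) (.e (nat_lit 228530) (nat_lit 0) .nil) .nil)))) (.nd (nat_lit 9) 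
(.lf (nat_lit 522542) (.g (nat_lit 1428) (.e (nat_lit 204854) (nat_lit 26) (.e (nat_lit 336019) (nat_lit 3) (.e (nat_lit 98342) (nat_lit 20) (.e (nat_lit 221198) (nat_lit 20) .nil)))) (.g (nat_lit 0) (.e (nat_lit 227597) (nat_lit 0) .nil) .nil))) 
(.lf (nat_lit 523054) (.g (nat_lit 2223) (.e (nat_lit 204862) (nat_lit 27) (.e (nat_lit 344117) (nat_lit 21) (.e (nat_lit 516115) (nat_lit 1) (.e (nat_lit 164179) (nat_lit 154) (.e (nat_lit 57372) (nat_lit 2) .nil))))) (.g (nat_lit 0) (.e (nat_lit 229072) (nat_lit 0) .nil) .nil))))) (.nd (nat_lit 8) (.nd (nat_lit 9) 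
(.lf (nat_lit 522414) (.g (nat_lit 2956) (.e (nat_lit 204852) (nat_lit 26) (.e (nat_lit 336326) (nat_lit 18) (.e (nat_lit 204854) (nat_lit 26) (.e (nat_lit 336324) (nat_lit 18) (.e (nat_lit 204853) (nat_lit 26) (.e (nat_lit 336324) (nat_lit 18) .nil)))))) (.g (nat_lit 1) (.e (nat_lit 227236) (nat_lit 0) .nil) .nil))) 
(.lf (nat_lit 522926) (.g (nat_lit 2047) (.e (nat_lit 204861) (nat_lit 26) (.e (nat_lit 336186) (nat_lit 11) (.e (nat_lit 368676) (nat_lit 21) (.e (nat_lit 516169) (nat_lit 13) (.e (nat_lit 458774) (nat_lit 18) (.e (nat_lit 5936) (nat_lit 322) (.e (nat_lit 65280) (nat_lit 64) .nil))))))) (.g (nat_lit 1) (.e (nat_lit 228816) (nat_lit 0) .nil) .nil)))) (.nd (nat_lit 9) 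
(.lf (nat_lit 522670) (.g (nat_lit 3574) (.e (nat_lit 204855) (nat_lit 26) (.e (nat_lit 336176) (nat_lit 10) (.e (nat_lit 344117) (nat_lit 21) (.e (nat_lit 516139) (nat_lit 7) (.e (nat_lit 409644) (nat_lit 18) (.e (nat_lit 303119) (nat_lit 3) .nil)))))) (.g (nat_lit 1) (.e (nat_lit 227978) (nat_lit 0) .nil) .nil))) 
(.lf (nat_lit 523182) (.g (nat_lit 3242) (.e (nat_lit 204862) (nat_lit 27) (.e (nat_lit 344129) (nat_lit 26) (.e (nat_lit 557103) (nat_lit 14) (.e (nat_lit 180250) (nat_lit 10) (.e (nat_lit 573473) (nat_lit 12) (.e (nat_lit 57507) (nat_lit 39) (.e (nat_lit 647170) (nat_lit 0) (.e (nat_lit 2685) (nat_lit 168) .nil)))))))) (.g (nat_lit 1) (.e (nat_lit 229254) (nat_lit 0) .nil) .nil)))))) 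
(.nd (nat_lit 7) (.nd (nat_lit 8) (.nd (nat_lit 9) 
(.lf (nat_lit 522350) (.g (nat_lit 2733) (.e (nat_lit 204852) (nat_lit 26) (.e (nat_lit 336324) (nat_lit 18) (.e (nat_lit 204853) (nat_lit 26) (.e (nat_lit 336324) (nat_lit 18) (.e (nat_lit 204852) (nat_lit 26) (.e (nat_lit 336325) (nat_lit 18) .nil)))))) (.g (nat_lit 1) (.e (nat_lit 227030) (nat_lit 0) .nil) .nil))) 
(.lf (nat_lit 522862) (.g (nat_lit 2947) (.e (nat_lit 204861) (nat_lit 26) (.e (nat_lit 336075) (nat_lit 9) (.e (nat_lit 336454) (nat_lit 34) (.e (nat_lit 483366) (nat_lit 18) (.e (nat_lit 57929) (nat_lit 282) (.e (nat_lit 163874) (nat_lit 3) .nil)))))) (.g (nat_lit 1) (.e (nat_lit 228710) (nat_lit 0) .nil) .nil)))) (.nd (nat_lit 9) 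
(.lf (nat_lit 522606) (.g (nat_lit 3438) (.e (nat_lit 204854) (nat_lit 26) (.e (nat_lit 336326) (nat_lit 18) (.e (nat_lit 204880) (nat_lit 32) (.e (nat_lit 385068) (nat_lit 26) (.e (nat_lit 532530) (nat_lit 9) (.e (nat_lit 336324) (nat_lit 18) .nil)))))) (.g (nat_lit 1) (.e (nat_lit 227783) (nat_lit 0) .nil) .nil))) 
(.lf (nat_lit 523118) (.g (nat_lit 3705) (.e (nat_lit 204862) (nat_lit 27) (.e (nat_lit 344117) (nat_lit 21) (.e (nat_lit 516130) (nat_lit 3) (.e (nat_lit 221213) (nat_lit 23) (.e (nat_lit 204829) (nat_lit 18) (.e (nat_lit 57926) (nat_lit 282) (.e (nat_lit 163875) (nat_lit 3) .nil))))))) (.g (nat_lit 1) (.e (nat_lit 229163) (nat_lit 0) .nil) .nil))))) (.nd (nat_lit 8) (.nd (nat_lit 9) 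
(.lf (nat_lit 522478) (.g (nat_lit 3536) (.e (nat_lit 204853) (nat_lit 26) (.e (nat_lit 336324) (nat_lit 18) (.e (nat_lit 204831) (nat_lit 18) (.e (nat_lit 57852) (nat_lit 252) .nil)))) (.g (nat_lit 0) (.e (nat_lit 227420) (nat_lit 0) .nil) .nil))) 
(.lf (nat_lit 522990) (.g (nat_lit 2228) (.e (nat_lit 204861) (nat_lit 26) (.e (nat_lit 336195) (nat_lit 12) (.e (nat_lit 385066) (nat_lit 26) (.e (nat_lit 532513) (nat_lit 3) (.e (nat_lit 114698) (nat_lit 11) (.e (nat_lit 426133) (nat_lit 3) .nil)))))) (.g (nat_lit 1) (.e (nat_lit 228948) (nat_lit 0) .nil) .nil)))) (.nd (nat_lit 9) 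
(.lf (nat_lit 522734) (.g (nat_lit 2361) (.e (nat_lit 204855) (nat_lit 26) (.e (nat_lit 336212) (nat_lit 13) (.e (nat_lit 393229) (nat_lit 9) (.e (nat_lit 335986) (nat_lit 1) (.e (nat_lit 57926) (nat_lit 282) .nil))))) (.g (nat_lit 0) (.e (nat_lit 228362) (nat_lit 0) .nil) .nil))) 
(.lf (nat_lit 523246) (.g (nat_lit 1065) (.e (nat_lit 204862) (nat_lit 27) (.e (nat_lit 344130) (nat_lit 26) (.e (nat_lit 557097) (nat_lit 13) (.e (nat_lit 179968) (nat_lit 17) .nil)))) (.g (nat_lit 0) (.e (nat_lit 229319) (nat_lit 0) .nil) .nil)))))))) (.nd (nat_lit 5) (.nd (nat_lit 6) (.nd (nat_lit 7) (.nd (nat_lit 8) (.nd (nat_lit 9) 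
(.lf (nat_lit 522270) (.g (nat_lit 4106) (.e (nat_lit 204850) (nat_lit 26) (.e (nat_lit 336324) (nat_lit 18) (.e (nat_lit 204831) (nat_lit 18) (.e (nat_lit 57847) (nat_lit 252) .nil)))) (.g (nat_lit 0) (.e (nat_lit 226778) (nat_lit 0) .nil) .nil))) 
(.lf (nat_lit 522782) (.g (nat_lit 1637) (.e (nat_lit 204859) (nat_lit 26) (.e (nat_lit 336235) (nat_lit 14) (.e (nat_lit 401425) (nat_lit 2) (.e (nat_lit 196668) (nat_lit 14) .nil)))) (.g (nat_lit 0) (.e (nat_lit 228496) (nat_lit 0) .nil) .nil)))) (.nd (nat_lit 9) 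
(.lf (nat_lit 522526) (.g (nat_lit 2580) (.e (nat_lit 204853) (nat_lit 26) (.e (nat_lit 336334) (nat_lit 20) (.e (nat_lit 221212) (nat_lit 22) (.e (nat_lit 196656) (nat_lit 11) (.e (nat_lit 16436) (nat_lit 9) (.e (nat_lit 426131) (nat_lit 3) .nil)))))) (.g (nat_lit 1) (.e (nat_lit 227490) (nat_lit 0) .nil) .nil))) 
(.lf (nat_lit 523038) (.g (nat_lit 2790) (.e (nat_lit 212736) (nat_lit 26) (.e (nat_lit 336099) (nat_lit 9) (.e (nat_lit 336013) (nat_lit 2) (.e (nat_lit 90161) (nat_lit 12) .nil)))) (.g (nat_lit 0) (.e (nat_lit 229033) (nat_lit 0) .nil) .nil))))) (.nd (nat_lit 8) (.nd (nat_lit 9) 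
(.lf (nat_lit 522398) (.g (nat_lit 1968) (.e (nat_lit 204852) (nat_lit 26) (.e (nat_lit 336326) (nat_lit 18) (.e (nat_lit 204831) (nat_lit 18) (.e (nat_lit 57852) (nat_lit 252) (.e (nat_lit 57378) (nat_lit 3) .nil))))) (.g (nat_lit 0) (.e (nat_lit 227145) (nat_lit 0) .nil) .nil))) 
(.lf (nat_lit 522910) (.g (nat_lit 2363) (.e (nat_lit 204861) (nat_lit 26) (.e (nat_lit 336088) (nat_lit 9) (.e (nat_lit 336324) (nat_lit 18) (.e (nat_lit 204838) (nat_lit 20) (.e (nat_lit 114696) (nat_lit 11) .nil))))) (.g (nat_lit 0) (.e (nat_lit 228790) (nat_lit 0) .nil) .nil)))) (.nd (nat_lit 9) 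
(.lf (nat_lit 522654) (.g (nat_lit 2814) (.e (nat_lit 204855) (nat_lit 26) (.e (nat_lit 336163) (nat_lit 10) (.e (nat_lit 344117) (nat_lit 21) (.e (nat_lit 516138) (nat_lit 7) (.e (nat_lit 409646) (nat_lit 18) (.e (nat_lit 303119) (nat_lit 3) .nil)))))) (.g (nat_lit 1) (.e (nat_lit 227948) (nat_lit 0) .nil) .nil))) 
(.lf (nat_lit 523166) (.g (nat_lit 1972) (.e (nat_lit 204862) (nat_lit 27) (.e (nat_lit 344129) (nat_lit 26) (.e (nat_lit 557097) (nat_lit 13) (.e (nat_lit 172129) (nat_lit 15) (.e (nat_lit 7936) (nat_lit 121) .nil))))) (.g (nat_lit 0) (.e (nat_lit 229237) (nat_lit 0) .nil) .nil)))))) (.nd (nat_lit 7) (.nd (nat_lit 8) (.nd (nat_lit 9) 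
(.lf (nat_lit 522334) (.g (nat_lit 2937) (.e (nat_lit 204852) (nat_lit 26) (.e (nat_lit 336324) (nat_lit 18) (.e (nat_lit 204831) (nat_lit 18) (.e (nat_lit 57849) (nat_lit 252) (.e (nat_lit 57377) (nat_lit 3) .nil))))) (.g (nat_lit 0) (.e (nat_lit 226990) (nat_lit 0) .nil) .nil))) 
(.lf (nat_lit 522846) (.g (nat_lit 3159) (.e (nat_lit 204861) (nat_lit 26) (.e (nat_lit 336075) (nat_lit 9) (.e (nat_lit 336366) (nat_lit 27) (.e (nat_lit 426499) (nat_lit 27) (.e (nat_lit 335986) (nat_lit 1) (.e (nat_lit 57927) (nat_lit 282) (.e (nat_lit 163875) (nat_lit 3) .nil))))))) (.g (nat_lit 1) (.e (nat_lit 228686) (nat_lit 0) .nil) .nil)))) (.nd (nat_lit 9) 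
(.lf (nat_lit 522590) (.g (nat_lit 1726) (.e (nat_lit 204854) (nat_lit 26) (.e (nat_lit 336325) (nat_lit 18) (.e (nat_lit 204880) (nat_lit 32) (.e (nat_lit 385068) (nat_lit 26) .nil)))) (.g (nat_lit 0) (.e (nat_lit 227736) (nat_lit 0) .nil) .nil))) 
(.lf (nat_lit 523102) (.g (nat_lit 2456) (.e (nat_lit 204862) (nat_lit 27) (.e (nat_lit 344117) (nat_lit 21) (.e (nat_lit 516123) (nat_lit 2) (.e (nat_lit 213013) (nat_lit 9) (.e (nat_lit 2663) (nat_lit 167) (.e (nat_lit 196698) (nat_lit 19) (.e (nat_lit 57883) (nat_lit 270) (.e (nat_lit 174) (nat_lit 12) .nil)))))))) (.g (nat_lit 1) (.e (nat_lit 229147) (nat_lit 0) .nil) .nil))))) 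
(.nd (nat_lit 8) (.nd (nat_lit 9) 
(.lf (nat_lit 522462) (.g (nat_lit 3317) (.e (nat_lit 204852) (nat_lit 26) (.e (nat_lit 336337) (nat_lit 20) (.e (nat_lit 221212) (nat_lit 22) (.e (nat_lit 196654) (nat_lit 11) (.e (nat_lit 16436) (nat_lit 9) (.e (nat_lit 426131) (nat_lit 3) .nil)))))) (.g (nat_lit 1) (.e (nat_lit 227400) (nat_lit 0) .nil) .nil))) 
(.lf (nat_lit 522974) (.g (nat_lit 2316) (.e (nat_lit 204861) (nat_lit 26) (.e (nat_lit 336194) (nat_lit 12) (.e (nat_lit 385068) (nat_lit 26) (.e (nat_lit 532514) (nat_lit 3) (.e (nat_lit 114698) (nat_lit 11) (.e (nat_lit 426139) (nat_lit 3) .nil)))))) (.g (nat_lit 1) (.e (nat_lit 228914) (nat_lit 0) .nil) .nil)))) (.nd (nat_lit 9) 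
(.lf (nat_lit 522718) (.g (nat_lit 3570) (.e (nat_lit 204855) (nat_lit 26) (.e (nat_lit 336176) (nat_lit 10) (.e (nat_lit 344133) (nat_lit 26) (.e (nat_lit 557091) (nat_lit 12) (.e (nat_lit 164017) (nat_lit 44) (.e (nat_lit 688138) (nat_lit 5) (.e (nat_lit 2887) (nat_lit 184) (.e (nat_lit 426134) (nat_lit 3) .nil)))))))) (.g (nat_lit 1) (.e (nat_lit 228305) (nat_lit 0) .nil) .nil))) 
(.lf (nat_lit 523230) (.g (nat_lit 3460) (.e (nat_lit 204862) (nat_lit 27) (.e (nat_lit 344129) (nat_lit 26) (.e (nat_lit 557105) (nat_lit 14) (.e (nat_lit 180252) (nat_lit 10) (.e (nat_lit 573473) (nat_lit 12) .nil))))) (.g (nat_lit 0) (.e (nat_lit 229303) (nat_lit 0) .nil) .nil))))))) (.nd (nat_lit 6) (.nd (nat_lit 7) (.nd (nat_lit 8) (.nd (nat_lit 9) 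
(.lf (nat_lit 522302) (.g (nat_lit 3813) (.e (nat_lit 204851) (nat_lit 26) (.e (nat_lit 336324) (nat_lit 18) (.e (nat_lit 204882) (nat_lit 32) (.e (nat_lit 385066) (nat_lit 26) (.e (nat_lit 532530) (nat_lit 9) (.e (nat_lit 336326) (nat_lit 18) .nil)))))) (.g (nat_lit 1) (.e (nat_lit 226847) (nat_lit 0) .nil) .nil))) 
(.lf (nat_lit 522814) (.g (nat_lit 4269) (.e (nat_lit 204861) (nat_lit 26) (.e (nat_lit 336004) (nat_lit 2) (.e (nat_lit 90158) (nat_lit 11) (.e (nat_lit 24608) (nat_lit 3) (.e (nat_lit 98335) (nat_lit 18) (.e (nat_lit 164183) (nat_lit 154) (.e (nat_lit 65280) (nat_lit 64) .nil))))))) (.g (nat_lit 1) (.e (nat_lit 228613) (nat_lit 0) .nil) .nil)))) (.nd (nat_lit 9) 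
(.lf (nat_lit 522558) (.g (nat_lit 4643) (.e (nat_lit 204854) (nat_lit 26) (.e (nat_lit 336208) (nat_lit 12) (.e (nat_lit 385074) (nat_lit 31) (.e (nat_lit 573482) (nat_lit 13) (.e (nat_lit 65628) (nat_lit 14) (.e (nat_lit 401428) (nat_lit 3) .nil)))))) (.g (nat_lit 1) (.e (nat_lit 227645) (nat_lit 0) .nil) .nil))) 
(.lf (nat_lit 523070) (.g (nat_lit 2388) (.e (nat_lit 204862) (nat_lit 27) (.e (nat_lit 344117) (nat_lit 21) (.e (nat_lit 516116) (nat_lit 1) (.e (nat_lit 164157) (nat_lit 152) (.e (nat_lit 1038) (nat_lit 81) .nil))))) (.g (nat_lit 0) (.e (nat_lit 229100) (nat_lit 0) .nil) .nil))))) (.nd (nat_lit 8) (.nd (nat_lit 9) 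
(.lf (nat_lit 522430) (.g (nat_lit 3138) (.e (nat_lit 204852) (nat_lit 26) (.e (nat_lit 336326) (nat_lit 18) (.e (nat_lit 204880) (nat_lit 32) (.e (nat_lit 385068) (nat_lit 26) (.e (nat_lit 532530) (nat_lit 9) (.e (nat_lit 336326) (nat_lit 18) .nil)))))) (.g (nat_lit 1) (.e (nat_lit 227285) (nat_lit 0) .nil) .nil))) 
(.lf (nat_lit 522942) (.g (nat_lit 1548) (.e (nat_lit 204861) (nat_lit 26) (.e (nat_lit 336186) (nat_lit 11) (.e (nat_lit 368676) (nat_lit 21) (.e (nat_lit 516171) (nat_lit 13) (.e (nat_lit 458775) (nat_lit 18) (.e (nat_lit 5946) (nat_lit 322) (.e (nat_lit 65280) (nat_lit 64) .nil))))))) (.g (nat_lit 1) (.e (nat_lit 228844) (nat_lit 0) .nil) .nil)))) (.nd (nat_lit 9) 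
(.lf (nat_lit 522686) (.g (nat_lit 3206) (.e (nat_lit 204855) (nat_lit 26) (.e (nat_lit 336176) (nat_lit 10) (.e (nat_lit 344130) (nat_lit 26) (.e (nat_lit 557089) (nat_lit 12) (.e (nat_lit 164017) (nat_lit 44) (.e (nat_lit 688139) (nat_lit 5) (.e (nat_lit 2887) (nat_lit 184) (.e (nat_lit 426134) (nat_lit 3) .nil)))))))) (.g (nat_lit 1) (.e (nat_lit 228096) (nat_lit 0) .nil) .nil))) 
(.lf (nat_lit 523198) (.g (nat_lit 3958) (.e (nat_lit 204862) (nat_lit 27) (.e (nat_lit 344129) (nat_lit 26) (.e (nat_lit 557103) (nat_lit 14) (.e (nat_lit 180250) (nat_lit 10) (.e (nat_lit 573475) (nat_lit 12) (.e (nat_lit 57508) (nat_lit 39) (.e (nat_lit 655104) (nat_lit 0) (.e (nat_lit 2684) (nat_lit 168) .nil)))))))) (.g (nat_lit 1) (.e (nat_lit 229270) (nat_lit 0) .nil) .nil)))))) 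
(.nd (nat_lit 7) (.nd (nat_lit 8) (.nd (nat_lit 9) 
(.lf (nat_lit 522366) (.g (nat_lit 3276) (.e (nat_lit 204852) (nat_lit 26) (.e (nat_lit 336324) (nat_lit 18) (.e (nat_lit 204880) (nat_lit 32) (.e (nat_lit 385068) (nat_lit 26) (.e (nat_lit 532530) (nat_lit 9) (.e (nat_lit 336325) (nat_lit 18) .nil)))))) (.g (nat_lit 1) (.e (nat_lit 227071) (nat_lit 0) .nil) .nil))) 
(.lf (nat_lit 522878) (.g (nat_lit 3328) (.e (nat_lit 204861) (nat_lit 26) (.e (nat_lit 336076) (nat_lit 9) (.e (nat_lit 336370) (nat_lit 27) (.e (nat_lit 426499) (nat_lit 27) (.e (nat_lit 335986) (nat_lit 1) (.e (nat_lit 57927) (nat_lit 282) (.e (nat_lit 163874) (nat_lit 3) .nil))))))) (.g (nat_lit 1) (.e (nat_lit 228740) (nat_lit 0) .nil) .nil)))) (.nd (nat_lit 9) 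
(.lf (nat_lit 522622) (.g (nat_lit 3293) (.e (nat_lit 204854) (nat_lit 26) (.e (nat_lit 336334) (nat_lit 20) (.e (nat_lit 221212) (nat_lit 22) (.e (nat_lit 196656) (nat_lit 11) (.e (nat_lit 16436) (nat_lit 9) (.e (nat_lit 426131) (nat_lit 3) .nil)))))) (.g (nat_lit 1) (.e (nat_lit 227801) (nat_lit 0) .nil) .nil))) 
(.lf (nat_lit 523134) (.g (nat_lit 2678) (.e (nat_lit 204862) (nat_lit 27) (.e (nat_lit 344117) (nat_lit 21) (.e (nat_lit 516195) (nat_lit 26) (.e (nat_lit 336027) (nat_lit 3) (.e (nat_lit 98326) (nat_lit 17) .nil))))) (.g (nat_lit 0) (.e (nat_lit 229192) (nat_lit 0) .nil) .nil))))) (.nd (nat_lit 8) (.nd (nat_lit 9) 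
(.lf (nat_lit 522494) (.g (nat_lit 2685) (.e (nat_lit 204853) (nat_lit 26) (.e (nat_lit 336324) (nat_lit 18) (.e (nat_lit 204852) (nat_lit 26) (.e (nat_lit 336326) (nat_lit 18) (.e (nat_lit 204852) (nat_lit 26) (.e (nat_lit 336324) (nat_lit 18) .nil)))))) (.g (nat_lit 1) (.e (nat_lit 227436) (nat_lit 0) .nil) .nil))) 
(.lf (nat_lit 523006) (.g (nat_lit 1126) (.e (nat_lit 204861) (nat_lit 26) (.e (nat_lit 336213) (nat_lit 13) (.e (nat_lit 401152) (nat_lit 7) (.e (nat_lit 319530) (nat_lit 16) (.e (nat_lit 294656) (nat_lit 18) .nil))))) (.g (nat_lit 1) (.e (nat_lit 228978) (nat_lit 0) .nil) .nil)))) (.nd (nat_lit 9) 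
(.lf (nat_lit 522750) (.g (nat_lit 2317) (.e (nat_lit 204858) (nat_lit 26) (.e (nat_lit 336228) (nat_lit 14) (.e (nat_lit 401425) (nat_lit 2) (.e (nat_lit 196665) (nat_lit 13) (.e (nat_lit 65628) (nat_lit 14) .nil))))) (.g (nat_lit 0) (.e (nat_lit 228434) (nat_lit 0) .nil) .nil))) 
(.lf (nat_lit 523262) (.g (nat_lit 2450) (.e (nat_lit 204862) (nat_lit 27) (.e (nat_lit 344130) (nat_lit 26) (.e (nat_lit 557103) (nat_lit 14) (.e (nat_lit 180250) (nat_lit 10) (.e (nat_lit 573477) (nat_lit 12) (.e (nat_lit 57509) (nat_lit 39) (.e (nat_lit 655104) (nat_lit 0) (.e (nat_lit 2684) (nat_lit 168) .nil)))))))) (.g (nat_lit 1) (.e (nat_lit 229335) (nat_lit 0) .nil) .nil)))))))))))) 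
(.nd (nat_lit 1) (.nd (nat_lit 2) (.nd (nat_lit 3) (.nd (nat_lit 4) (.nd (nat_lit 5) 
(.nd (nat_lit 6) (.nd (nat_lit 7) (.nd (nat_lit 8) (.nd (nat_lit 9) 
(.lf (nat_lit 522241) (.g (nat_lit 591) (.e (nat_lit 204850) (nat_lit 26) (.e (nat_lit 336019) (nat_lit 3) (.e (nat_lit 98342) (nat_lit 20) .nil))) (.g (nat_lit 0) (.e (nat_lit 226730) (nat_lit 0) .nil) .nil))) 
(.lf (nat_lit 522753) (.g (nat_lit 2235) (.e (nat_lit 204858) (nat_lit 26) (.e (nat_lit 336228) (nat_lit 14) (.e (nat_lit 401425) (nat_lit 2) (.e (nat_lit 196668) (nat_lit 14) (.e (nat_lit 73782) (nat_lit 32) (.e (nat_lit 2682) (nat_lit 168) .nil)))))) (.g (nat_lit 1) (.e (nat_lit 228437) (nat_lit 0) .nil) .nil)))) (.nd (nat_lit 9) 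
(.lf (nat_lit 522497) (.g (nat_lit 2286) (.e (nat_lit 204853) (nat_lit 26) (.e (nat_lit 336324) (nat_lit 18) (.e (nat_lit 204854) (nat_lit 26) (.e (nat_lit 336316) (nat_lit 17) (.e (nat_lit 196665) (nat_lit 13) (.e (nat_lit 73472) (nat_lit 18) .nil)))))) (.g (nat_lit 1) (.e (nat_lit 227440) (nat_lit 0) .nil) .nil))) 
(.lf (nat_lit 523009) (.g (nat_lit 1597) (.e (nat_lit 204861) (nat_lit 26) (.e (nat_lit 336213) (nat_lit 13) (.e (nat_lit 393225) (nat_lit 9) (.e (nat_lit 335895) (nat_lit 0) .nil)))) (.g (nat_lit 0) (.e (nat_lit 228981) (nat_lit 0) .nil) .nil))))) (.nd (nat_lit 8) (.nd (nat_lit 9) 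
(.lf (nat_lit 522369) (.g (nat_lit 2134) (.e (nat_lit 204852) (nat_lit 26) (.e (nat_lit 336324) (nat_lit 18) (.e (nat_lit 204881) (nat_lit 32) (.e (nat_lit 385066) (nat_lit 26) (.e (nat_lit 532532) (nat_lit 9) (.e (nat_lit 336325) (nat_lit 18) .nil)))))) (.g (nat_lit 1) (.e (nat_lit 227074) (nat_lit 0) .nil) .nil))) 
(.lf (nat_lit 522881) (.g (nat_lit 3654) (.e (nat_lit 204861) (nat_lit 26) (.e (nat_lit 336076) (nat_lit 9) (.e (nat_lit 336454) (nat_lit 34) (.e (nat_lit 483364) (nat_lit 18) (.e (nat_lit 57927) (nat_lit 282) (.e (nat_lit 163874) (nat_lit 3) .nil)))))) (.g (nat_lit 1) (.e (nat_lit 228750) (nat_lit 0) .nil) .nil)))) (.nd (nat_lit 9) 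
(.lf (nat_lit 522625) (.g (nat_lit 314) (.e (nat_lit 204855) (nat_lit 26) (.e (nat_lit 336099) (nat_lit 9) (.e (nat_lit 336013) (nat_lit 2) .nil))) (.g (nat_lit 0) (.e (nat_lit 227850) (nat_lit 0) .nil) .nil))) 
(.lf (nat_lit 523137) (.g (nat_lit 2058) (.e (nat_lit 204862) (nat_lit 27) (.e (nat_lit 344118) (nat_lit 21) (.e (nat_lit 516119) (nat_lit 1) (.e (nat_lit 164179) (nat_lit 154) (.e (nat_lit 57377) (nat_lit 3) (.e (nat_lit 98321) (nat_lit 17) (.e (nat_lit 3771) (nat_lit 229) (.e (nat_lit 794673) (nat_lit 23) .nil)))))))) (.g (nat_lit 1) (.e (nat_lit 229195) (nat_lit 0) .nil) .nil)))))) 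
(.nd (nat_lit 7) (.nd (nat_lit 8) (.nd (nat_lit 9) 
(.lf (nat_lit 522305) (.g (nat_lit 2736) (.e (nat_lit 204851) (nat_lit 26) (.e (nat_lit 336325) (nat_lit 18) (.e (nat_lit 204880) (nat_lit 32) (.e (nat_lit 385066) (nat_lit 26) (.e (nat_lit 532530) (nat_lit 9) (.e (nat_lit 336326) (nat_lit 18) .nil)))))) (.g (nat_lit 1) (.e (nat_lit 226850) (nat_lit 0) .nil) .nil))) 
(.lf (nat_lit 522817) (.g (nat_lit 784) (.e (nat_lit 204861) (nat_lit 26) (.e (nat_lit 336021) (nat_lit 3) (.e (nat_lit 98317) (nat_lit 9) .nil))) (.g (nat_lit 0) (.e (nat_lit 228637) (nat_lit 0) .nil) .nil)))) (.nd (nat_lit 9) 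
(.lf (nat_lit 522561) (.g (nat_lit 2788) (.e (nat_lit 204854) (nat_lit 26) (.e (nat_lit 336225) (nat_lit 14) (.e (nat_lit 401425) (nat_lit 2) (.e (nat_lit 196666) (nat_lit 13) (.e (nat_lit 65630) (nat_lit 14) .nil))))) (.g (nat_lit 0) (.e (nat_lit 227664) (nat_lit 0) .nil) .nil))) 
(.lf (nat_lit 523073) (.g (nat_lit 3616) (.e (nat_lit 204862) (nat_lit 27) (.e (nat_lit 344117) (nat_lit 21) (.e (nat_lit 516116) (nat_lit 1) (.e (nat_lit 164180) (nat_lit 154) (.e (nat_lit 57375) (nat_lit 2) (.e (nat_lit 90181) (nat_lit 16) (.e (nat_lit 229472) (nat_lit 57) (.e (nat_lit 794673) (nat_lit 23) .nil)))))))) (.g (nat_lit 1) (.e (nat_lit 229104) (nat_lit 0) .nil) .nil))))) 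
(.nd (nat_lit 8) (.nd (nat_lit 9) 
(.lf (nat_lit 522433) (.g (nat_lit 2476) (.e (nat_lit 204852) (nat_lit 26) (.e (nat_lit 336326) (nat_lit 18) (.e (nat_lit 204881) (nat_lit 32) (.e (nat_lit 385066) (nat_lit 26) (.e (nat_lit 532530) (nat_lit 9) (.e (nat_lit 336325) (nat_lit 18) .nil)))))) (.g (nat_lit 1) (.e (nat_lit 227288) (nat_lit 0) .nil) .nil))) 
(.lf (nat_lit 522945) (.g (nat_lit 3693) (.e (nat_lit 204861) (nat_lit 26) (.e (nat_lit 336186) (nat_lit 11) (.e (nat_lit 368676) (nat_lit 21) (.e (nat_lit 516185) (nat_lit 16) (.e (nat_lit 491572) (nat_lit 14) (.e (nat_lit 401428) (nat_lit 3) .nil)))))) (.g (nat_lit 1) (.e (nat_lit 228848) (nat_lit 0) .nil) .nil)))) (.nd (nat_lit 9) 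
(.lf (nat_lit 522689) (.g (nat_lit 2756) (.e (nat_lit 204855) (nat_lit 26) (.e (nat_lit 336176) (nat_lit 10) (.e (nat_lit 344130) (nat_lit 26) (.e (nat_lit 557090) (nat_lit 12) (.e (nat_lit 164016) (nat_lit 44) (.e (nat_lit 688139) (nat_lit 5) (.e (nat_lit 2887) (nat_lit 184) (.e (nat_lit 426132) (nat_lit 3) .nil)))))))) (.g (nat_lit 1) (.e (nat_lit 228162) (nat_lit 0) .nil) .nil))) 
(.lf (nat_lit 523201) (.g (nat_lit 3212) (.e (nat_lit 204862) (nat_lit 27) (.e (nat_lit 344129) (nat_lit 26) (.e (nat_lit 557103) (nat_lit 14) (.e (nat_lit 180250) (nat_lit 10) (.e (nat_lit 573477) (nat_lit 12) (.e (nat_lit 57509) (nat_lit 39) (.e (nat_lit 655104) (nat_lit 0) (.e (nat_lit 2684) (nat_lit 168) .nil)))))))) (.g (nat_lit 1) (.e (nat_lit 229273) (nat_lit 0) .nil) .nil))))))) 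
(.nd (nat_lit 6) (.nd (nat_lit 7) (.nd (nat_lit 8) (.nd (nat_lit 9) 
(.lf (nat_lit 522273) (.g (nat_lit 4008) (.e (nat_lit 204850) (nat_lit 26) (.e (nat_lit 336324) (nat_lit 18) (.e (nat_lit 204831) (nat_lit 18) (.e (nat_lit 57852) (nat_lit 252) .nil)))) (.g (nat_lit 0) (.e (nat_lit 226781) (nat_lit 0) .nil) .nil))) 
(.lf (nat_lit 522785) (.g (nat_lit 720) (.e (nat_lit 204860) (nat_lit 26) (.e (nat_lit 336184) (nat_lit 11) (.e (nat_lit 368676) (nat_lit 21) (.e (nat_lit 516138) (nat_lit 7) .nil)))) (.g (nat_lit 0) (.e (nat_lit 228502) (nat_lit 0) .nil) .nil)))) (.nd (nat_lit 9) 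
(.lf (nat_lit 522529) (.g (nat_lit 2856) (.e (nat_lit 204853) (nat_lit 26) (.e (nat_lit 336336) (nat_lit 20) (.e (nat_lit 221212) (nat_lit 22) (.e (nat_lit 196654) (nat_lit 11) (.e (nat_lit 16436) (nat_lit 9) (.e (nat_lit 426131) (nat_lit 3) .nil)))))) (.g (nat_lit 1) (.e (nat_lit 227536) (nat_lit 0) .nil) .nil))) 
(.lf (nat_lit 523041) (.g (nat_lit 1628) (.e (nat_lit 212736) (nat_lit 26) (.e (nat_lit 336158) (nat_lit 9) (.e (nat_lit 336012) (nat_lit 2) (.e (nat_lit 90181) (nat_lit 16) (.e (nat_lit 229569) (nat_lit 176) .nil))))) (.g (nat_lit 0) (.e (nat_lit 229036) (nat_lit 0) .nil) .nil))))) (.nd (nat_lit 8) (.nd (nat_lit 9) 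
(.lf (nat_lit 522401) (.g (nat_lit 2404) (.e (nat_lit 204852) (nat_lit 26) (.e (nat_lit 336326) (nat_lit 18) (.e (nat_lit 204852) (nat_lit 26) (.e (nat_lit 336326) (nat_lit 18) (.e (nat_lit 204853) (nat_lit 26) (.e (nat_lit 336324) (nat_lit 18) .nil)))))) (.g (nat_lit 1) (.e (nat_lit 227185) (nat_lit 0) .nil) .nil))) 
(.lf (nat_lit 522913) (.g (nat_lit 3738) (.e (nat_lit 204861) (nat_lit 26) (.e (nat_lit 336184) (nat_lit 11) (.e (nat_lit 368676) (nat_lit 21) (.e (nat_lit 516138) (nat_lit 7) (.e (nat_lit 409645) (nat_lit 18) (.e (nat_lit 303119) (nat_lit 3) .nil)))))) (.g (nat_lit 1) (.e (nat_lit 228795) (nat_lit 0) .nil) .nil)))) (.nd (nat_lit 9) 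
(.lf (nat_lit 522657) (.g (nat_lit 2449) (.e (nat_lit 204855) (nat_lit 26) (.e (nat_lit 336163) (nat_lit 10) (.e (nat_lit 344117) (nat_lit 21) (.e (nat_lit 516139) (nat_lit 7) (.e (nat_lit 409648) (nat_lit 18) (.e (nat_lit 303118) (nat_lit 3) .nil)))))) (.g (nat_lit 1) (.e (nat_lit 227951) (nat_lit 0) .nil) .nil))) 
(.lf (nat_lit 523169) (.g (nat_lit 2956) (.e (nat_lit 204862) (nat_lit 27) (.e (nat_lit 344129) (nat_lit 26) (.e (nat_lit 557097) (nat_lit 13) (.e (nat_lit 172133) (nat_lit 15) (.e (nat_lit 1800) (nat_lit 119) (.e (nat_lit 516119) (nat_lit 1) (.e (nat_lit 164345) (nat_lit 240) (.e (nat_lit 2515) (nat_lit 157) (.e (nat_lit 2681) (nat_lit 168) .nil))))))))) (.g (nat_lit 1) (.e (nat_lit 229240) (nat_lit 0) .nil) .nil)))))) 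
(.nd (nat_lit 7) (.nd (nat_lit 8) (.nd (nat_lit 9) 
(.lf (nat_lit 522337) (.g (nat_lit 3109) (.e (nat_lit 204852) (nat_lit 26) (.e (nat_lit 336324) (nat_lit 18) (.e (nat_lit 204831) (nat_lit 18) (.e (nat_lit 57852) (nat_lit 252) (.e (nat_lit 57378) (nat_lit 3) .nil))))) (.g (nat_lit 0) (.e (nat_lit 226995) (nat_lit 0) .nil) .nil))) 
(.lf (nat_lit 522849) (.g (nat_lit 2956) (.e (nat_lit 204861) (nat_lit 26) (.e (nat_lit 336075) (nat_lit 9) (.e (nat_lit 336370) (nat_lit 27) (.e (nat_lit 426499) (nat_lit 27) (.e (nat_lit 335986) (nat_lit 1) (.e (nat_lit 57927) (nat_lit 282) (.e (nat_lit 163875) (nat_lit 3) .nil))))))) (.g (nat_lit 1) (.e (nat_lit 228689) (nat_lit 0) .nil) .nil)))) (.nd (nat_lit 9) 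
(.lf (nat_lit 522593) (.g (nat_lit 1990) (.e (nat_lit 204854) (nat_lit 26) (.e (nat_lit 336326) (nat_lit 18) (.e (nat_lit 204854) (nat_lit 26) (.e (nat_lit 336245) (nat_lit 15) .nil)))) (.g (nat_lit 0) (.e (nat_lit 227748) (nat_lit 0) .nil) .nil))) 
(.lf (nat_lit 523105) (.g (nat_lit 2358) (.e (nat_lit 204862) (nat_lit 27) (.e (nat_lit 344117) (nat_lit 21) (.e (nat_lit 516129) (nat_lit 3) (.e (nat_lit 221210) (nat_lit 22) (.e (nat_lit 196658) (nat_lit 12) .nil))))) (.g (nat_lit 0) (.e (nat_lit 229150) (nat_lit 0) .nil) .nil))))) (.nd (nat_lit 8) (.nd (nat_lit 9) 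
(.lf (nat_lit 522465) (.g (nat_lit 2274) (.e (nat_lit 204853) (nat_lit 26) (.e (nat_lit 336019) (nat_lit 3) (.e (nat_lit 98341) (nat_lit 20) (.e (nat_lit 221214) (nat_lit 23) (.e (nat_lit 204821) (nat_lit 17) .nil))))) (.g (nat_lit 0) (.e (nat_lit 227405) (nat_lit 0) .nil) .nil))) 
(.lf (nat_lit 522977) (.g (nat_lit 3293) (.e (nat_lit 204861) (nat_lit 26) (.e (nat_lit 336194) (nat_lit 12) (.e (nat_lit 385068) (nat_lit 26) (.e (nat_lit 532515) (nat_lit 3) (.e (nat_lit 114697) (nat_lit 11) (.e (nat_lit 426133) (nat_lit 3) .nil)))))) (.g (nat_lit 1) (.e (nat_lit 228917) (nat_lit 0) .nil) .nil)))) (.nd (nat_lit 9) 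
(.lf (nat_lit 522721) (.g (nat_lit 1963) (.e (nat_lit 204855) (nat_lit 26) (.e (nat_lit 336176) (nat_lit 10) (.e (nat_lit 344133) (nat_lit 26) (.e (nat_lit 557091) (nat_lit 12) (.e (nat_lit 164022) (nat_lit 46) .nil))))) (.g (nat_lit 0) (.e (nat_lit 228319) (nat_lit 0) .nil) .nil))) 
(.lf (nat_lit 523233) (.g (nat_lit 3671) (.e (nat_lit 204862) (nat_lit 27) (.e (nat_lit 344129) (nat_lit 26) (.e (nat_lit 557105) (nat_lit 14) (.e (nat_lit 180252) (nat_lit 10) (.e (nat_lit 573474) (nat_lit 12) (.e (nat_lit 57506) (nat_lit 39) (.e (nat_lit 655104) (nat_lit 0) (.e (nat_lit 2684) (nat_lit 168) .nil)))))))) (.g (nat_lit 1) (.e (nat_lit 229306) (nat_lit 0) .nil) .nil)))))))) 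
(.nd (nat_lit 5) (.nd (nat_lit 6) (.nd (nat_lit 7) (.nd (nat_lit 8) (.nd (nat_lit 9) 
(.lf (nat_lit 522257) (.g (nat_lit 2066) (.e (nat_lit 204850) (nat_lit 26) (.e (nat_lit 336205) (nat_lit 12) (.e (nat_lit 385068) (nat_lit 26) (.e (nat_lit 532515) (nat_lit 3) (.e (nat_lit 122624) (nat_lit 11) (.e (nat_lit 426140) (nat_lit 3) .nil)))))) (.g (nat_lit 1) (.e (nat_lit 226756) (nat_lit 0) .nil) .nil))) 
(.lf (nat_lit 522769) (.g (nat_lit 1343) (.e (nat_lit 204859) (nat_lit 26) (.e (nat_lit 336206) (nat_lit 12) (.e (nat_lit 385068) (nat_lit 26) (.e (nat_lit 532486) (nat_lit 0) .nil)))) (.g (nat_lit 0) (.e (nat_lit 228471) (nat_lit 0) .nil) .nil)))) (.nd (nat_lit 9) 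
(.lf (nat_lit 522513) (.g (nat_lit 2701) (.e (nat_lit 204853) (nat_lit 26) (.e (nat_lit 336324) (nat_lit 18) (.e (nat_lit 204880) (nat_lit 32) (.e (nat_lit 385068) (nat_lit 26) (.e (nat_lit 532534) (nat_lit 9) (.e (nat_lit 336324) (nat_lit 18) .nil)))))) (.g (nat_lit 1) (.e (nat_lit 227457) (nat_lit 0) .nil) .nil))) 
(.lf (nat_lit 523025) (.g (nat_lit 1158) (.e (nat_lit 204861) (nat_lit 26) (.e (nat_lit 336222) (nat_lit 13) (.e (nat_lit 393252) (nat_lit 18) (.e (nat_lit 164182) (nat_lit 154) .nil)))) (.g (nat_lit 0) (.e (nat_lit 229008) (nat_lit 0) .nil) .nil))))) (.nd (nat_lit 8) (.nd (nat_lit 9) 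
(.lf (nat_lit 522385) (.g (nat_lit 3368) (.e (nat_lit 204852) (nat_lit 26) (.e (nat_lit 336324) (nat_lit 18) (.e (nat_lit 204882) (nat_lit 32) (.e (nat_lit 385068) (nat_lit 26) (.e (nat_lit 532530) (nat_lit 9) (.e (nat_lit 336324) (nat_lit 18) .nil)))))) (.g (nat_lit 1) (.e (nat_lit 227098) (nat_lit 0) .nil) .nil))) 
(.lf (nat_lit 522897) (.g (nat_lit 3408) (.e (nat_lit 204861) (nat_lit 26) (.e (nat_lit 336078) (nat_lit 9) (.e (nat_lit 336324) (nat_lit 18) (.e (nat_lit 204837) (nat_lit 20) (.e (nat_lit 114698) (nat_lit 11) (.e (nat_lit 426138) (nat_lit 3) .nil)))))) (.g (nat_lit 1) (.e (nat_lit 228776) (nat_lit 0) .nil) .nil)))) (.nd (nat_lit 9) 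
(.lf (nat_lit 522641) (.g (nat_lit 2726) (.e (nat_lit 204855) (nat_lit 26) (.e (nat_lit 336099) (nat_lit 9) (.e (nat_lit 336013) (nat_lit 2) (.e (nat_lit 90165) (nat_lit 12) (.e (nat_lit 164210) (nat_lit 176) .nil))))) (.g (nat_lit 0) (.e (nat_lit 227899) (nat_lit 0) .nil) .nil))) 
(.lf (nat_lit 523153) (.g (nat_lit 1830) (.e (nat_lit 204862) (nat_lit 27) (.e (nat_lit 344129) (nat_lit 26) (.e (nat_lit 557097) (nat_lit 13) (.e (nat_lit 172041) (nat_lit 0) .nil)))) (.g (nat_lit 0) (.e (nat_lit 229224) (nat_lit 0) .nil) .nil)))))) (.nd (nat_lit 7) (.nd (nat_lit 8) (.nd (nat_lit 9) 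
(.lf (nat_lit 522321) (.g (nat_lit 1032) (.e (nat_lit 204852) (nat_lit 26) (.e (nat_lit 336316) (nat_lit 17) (.e (nat_lit 196665) (nat_lit 13) (.e (nat_lit 65636) (nat_lit 15) (.e (nat_lit 3249) (nat_lit 197) .nil))))) (.g (nat_lit 0) (.e (nat_lit 226943) (nat_lit 0) .nil) .nil))) 
(.lf (nat_lit 522833) (.g (nat_lit 1944) (.e (nat_lit 204861) (nat_lit 26) (.e (nat_lit 336074) (nat_lit 9) (.e (nat_lit 336324) (nat_lit 18) (.e (nat_lit 204837) (nat_lit 20) (.e (nat_lit 114697) (nat_lit 11) (.e (nat_lit 426138) (nat_lit 3) .nil)))))) (.g (nat_lit 1) (.e (nat_lit 228667) (nat_lit 0) .nil) .nil)))) (.nd (nat_lit 9) 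
(.lf (nat_lit 522577) (.g (nat_lit 1860) (.e (nat_lit 204854) (nat_lit 26) (.e (nat_lit 336324) (nat_lit 18) (.e (nat_lit 204854) (nat_lit 26) (.e (nat_lit 336320) (nat_lit 17) .nil)))) (.g (nat_lit 0) (.e (nat_lit 227709) (nat_lit 0) .nil) .nil))) 
(.lf (nat_lit 523089) (.g (nat_lit 3810) (.e (nat_lit 204862) (nat_lit 27) (.e (nat_lit 344117) (nat_lit 21) (.e (nat_lit 516116) (nat_lit 1) (.e (nat_lit 164183) (nat_lit 154) (.e (nat_lit 57378) (nat_lit 3) (.e (nat_lit 98321) (nat_lit 17) (.e (nat_lit 3771) (nat_lit 229) (.e (nat_lit 794673) (nat_lit 23) .nil)))))))) (.g (nat_lit 1) (.e (nat_lit 229131) (nat_lit 0) .nil) .nil))))) 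
(.nd (nat_lit 8) (.nd (nat_lit 9) 
(.lf (nat_lit 522449) (.g (nat_lit 2667) (.e (nat_lit 204852) (nat_lit 26) (.e (nat_lit 336326) (nat_lit 18) (.e (nat_lit 204882) (nat_lit 32) (.e (nat_lit 385066) (nat_lit 26) (.e (nat_lit 532533) (nat_lit 9) (.e (nat_lit 336324) (nat_lit 18) .nil)))))) (.g (nat_lit 1) (.e (nat_lit 227313) (nat_lit 0) .nil) .nil))) 
(.lf (nat_lit 522961) (.g (nat_lit 3200) (.e (nat_lit 204861) (nat_lit 26) (.e (nat_lit 336194) (nat_lit 12) (.e (nat_lit 385066) (nat_lit 26) (.e (nat_lit 532515) (nat_lit 3) (.e (nat_lit 114697) (nat_lit 11) (.e (nat_lit 426133) (nat_lit 3) .nil)))))) (.g (nat_lit 1) (.e (nat_lit 228883) (nat_lit 0) .nil) .nil)))) (.nd (nat_lit 9) 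
(.lf (nat_lit 522705) (.g (nat_lit 1440) (.e (nat_lit 204855) (nat_lit 26) (.e (nat_lit 336176) (nat_lit 10) (.e (nat_lit 344133) (nat_lit 26) (.e (nat_lit 557065) (nat_lit 9) .nil)))) (.g (nat_lit 0) (.e (nat_lit 228224) (nat_lit 0) .nil) .nil))) 
(.lf (nat_lit 523217) (.g (nat_lit 3249) (.e (nat_lit 204862) (nat_lit 27) (.e (nat_lit 344129) (nat_lit 26) (.e (nat_lit 557104) (nat_lit 14) (.e (nat_lit 180252) (nat_lit 10) (.e (nat_lit 573474) (nat_lit 12) (.e (nat_lit 57508) (nat_lit 39) (.e (nat_lit 647168) (nat_lit 0) (.e (nat_lit 2685) (nat_lit 168) .nil)))))))) (.g (nat_lit 1) (.e (nat_lit 229290) (nat_lit 0) .nil) .nil))))))) 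
(.nd (nat_lit 6) (.nd (nat_lit 7) (.nd (nat_lit 8) (.nd (nat_lit 9) 
(.lf (nat_lit 522289) (.g (nat_lit 1526) (.e (nat_lit 204851) (nat_lit 26) (.e (nat_lit 336019) (nat_lit 3) (.e (nat_lit 98342) (nat_lit 20) (.e (nat_lit 221215) (nat_lit 23) .nil)))) (.g (nat_lit 0) (.e (nat_lit 226821) (nat_lit 0) .nil) .nil))) 
(.lf (nat_lit 522801) (.g (nat_lit 2160) (.e (nat_lit 204861) (nat_lit 26) (.e (nat_lit 335988) (nat_lit 1) (.e (nat_lit 57854) (nat_lit 252) (.e (nat_lit 57378) (nat_lit 3) (.e (nat_lit 98334) (nat_lit 18) .nil))))) (.g (nat_lit 0) (.e (nat_lit 228549) (nat_lit 0) .nil) .nil)))) (.nd (nat_lit 9) 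
(.lf (nat_lit 522545) (.g (nat_lit 3854) (.e (nat_lit 204854) (nat_lit 26) (.e (nat_lit 336019) (nat_lit 3) (.e (nat_lit 98342) (nat_lit 20) (.e (nat_lit 221213) (nat_lit 23) (.e (nat_lit 204829) (nat_lit 18) (.e (nat_lit 57931) (nat_lit 282) (.e (nat_lit 163874) (nat_lit 3) .nil))))))) (.g (nat_lit 1) (.e (nat_lit 227613) (nat_lit 0) .nil) .nil))) 
(.lf (nat_lit 523057) (.g (nat_lit 2347) (.e (nat_lit 204862) (nat_lit 27) (.e (nat_lit 344117) (nat_lit 21) (.e (nat_lit 516115) (nat_lit 1) (.e (nat_lit 164179) (nat_lit 154) (.e (nat_lit 57375) (nat_lit 2) .nil))))) (.g (nat_lit 0) (.e (nat_lit 229076) (nat_lit 0) .nil) .nil))))) (.nd (nat_lit 8) (.nd (nat_lit 9) 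
(.lf (nat_lit 522417) (.g (nat_lit 2165) (.e (nat_lit 204852) (nat_lit 26) (.e (nat_lit 336326) (nat_lit 18) (.e (nat_lit 204880) (nat_lit 32) (.e (nat_lit 385066) (nat_lit 26) (.e (nat_lit 532528) (nat_lit 9) (.e (nat_lit 336324) (nat_lit 18) .nil)))))) (.g (nat_lit 1) (.e (nat_lit 227272) (nat_lit 0) .nil) .nil))) 
(.lf (nat_lit 522929) (.g (nat_lit 2316) (.e (nat_lit 204861) (nat_lit 26) (.e (nat_lit 336186) (nat_lit 11) (.e (nat_lit 368676) (nat_lit 21) (.e (nat_lit 516169) (nat_lit 13) (.e (nat_lit 458774) (nat_lit 18) (.e (nat_lit 5946) (nat_lit 322) (.e (nat_lit 65280) (nat_lit 64) .nil))))))) (.g (nat_lit 1) (.e (nat_lit 228819) (nat_lit 0) .nil) .nil)))) (.nd (nat_lit 9) 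
(.lf (nat_lit 522673) (.g (nat_lit 4817) (.e (nat_lit 204855) (nat_lit 26) (.e (nat_lit 336176) (nat_lit 10) (.e (nat_lit 344117) (nat_lit 21) (.e (nat_lit 516139) (nat_lit 7) (.e (nat_lit 409648) (nat_lit 18) (.e (nat_lit 303118) (nat_lit 3) .nil)))))) (.g (nat_lit 1) (.e (nat_lit 227981) (nat_lit 0) .nil) .nil))) 
(.lf (nat_lit 523185) (.g (nat_lit 3841) (.e (nat_lit 204862) (nat_lit 27) (.e (nat_lit 344129) (nat_lit 26) (.e (nat_lit 557103) (nat_lit 14) (.e (nat_lit 180250) (nat_lit 10) (.e (nat_lit 573474) (nat_lit 12) (.e (nat_lit 57506) (nat_lit 39) (.e (nat_lit 655104) (nat_lit 0) (.e (nat_lit 2684) (nat_lit 168) .nil)))))))) (.g (nat_lit 1) (.e (nat_lit 229257) (nat_lit 0) .nil) .nil)))))) 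
(.nd (nat_lit 7) (.nd (nat_lit 8) (.nd (nat_lit 9) 
(.lf (nat_lit 522353) (.g (nat_lit 1164) (.e (nat_lit 204852) (nat_lit 26) (.e (nat_lit 336324) (nat_lit 18) (.e (nat_lit 204854) (nat_lit 26) (.e (nat_lit 336316) (nat_lit 17) .nil)))) (.g (nat_lit 0) (.e (nat_lit 227034) (nat_lit 0) .nil) .nil))) 
(.lf (nat_lit 522865) (.g (nat_lit 1768) (.e (nat_lit 204861) (nat_lit 26) (.e (nat_lit 336076) (nat_lit 9) (.e (nat_lit 336322) (nat_lit 18) (.e (nat_lit 204837) (nat_lit 20) (.e (nat_lit 114697) (nat_lit 11) (.e (nat_lit 426138) (nat_lit 3) .nil)))))) (.g (nat_lit 1) (.e (nat_lit 228721) (nat_lit 0) .nil) .nil)))) (.nd (nat_lit 9) 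
(.lf (nat_lit 522609) (.g (nat_lit 2663) (.e (nat_lit 204854) (nat_lit 26) (.e (nat_lit 336326) (nat_lit 18) (.e (nat_lit 204881) (nat_lit 32) (.e (nat_lit 385066) (nat_lit 26) (.e (nat_lit 532530) (nat_lit 9) (.e (nat_lit 336326) (nat_lit 18) .nil)))))) (.g (nat_lit 1) (.e (nat_lit 227786) (nat_lit 0) .nil) .nil))) 
(.lf (nat_lit 523121) (.g (nat_lit 2322) (.e (nat_lit 204862) (nat_lit 27) (.e (nat_lit 344117) (nat_lit 21) (.e (nat_lit 516130) (nat_lit 3) (.e (nat_lit 221215) (nat_lit 23) (.e (nat_lit 204817) (nat_lit 17) .nil))))) (.g (nat_lit 0) (.e (nat_lit 229166) (nat_lit 0) .nil) .nil))))) (.nd (nat_lit 8) (.nd (nat_lit 9) 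
(.lf (nat_lit 522481) (.g (nat_lit 4479) (.e (nat_lit 204853) (nat_lit 26) (.e (nat_lit 336324) (nat_lit 18) (.e (nat_lit 204831) (nat_lit 18) (.e (nat_lit 57852) (nat_lit 252) (.e (nat_lit 57378) (nat_lit 3) .nil))))) (.g (nat_lit 0) (.e (nat_lit 227423) (nat_lit 0) .nil) .nil))) 
(.lf (nat_lit 522993) (.g (nat_lit 1409) (.e (nat_lit 204861) (nat_lit 26) (.e (nat_lit 336201) (nat_lit 12) (.e (nat_lit 385074) (nat_lit 31) (.e (nat_lit 573482) (nat_lit 13) .nil)))) (.g (nat_lit 0) (.e (nat_lit 228951) (nat_lit 0) .nil) .nil)))) (.nd (nat_lit 9) 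
(.lf (nat_lit 522737) (.g (nat_lit 1419) (.e (nat_lit 204855) (nat_lit 26) (.e (nat_lit 336219) (nat_lit 13) (.e (nat_lit 393251) (nat_lit 18) (.e (nat_lit 164183) (nat_lit 154) (.e (nat_lit 57409) (nat_lit 12) .nil))))) (.g (nat_lit 0) (.e (nat_lit 228375) (nat_lit 0) .nil) .nil))) 
(.lf (nat_lit 523249) (.g (nat_lit 2481) (.e (nat_lit 204862) (nat_lit 27) (.e (nat_lit 344130) (nat_lit 26) (.e (nat_lit 557103) (nat_lit 14) (.e (nat_lit 180243) (nat_lit 5) (.e (nat_lit 532501) (nat_lit 1) (.e (nat_lit 57703) (nat_lit 164) (.e (nat_lit 2515) (nat_lit 157) (.e (nat_lit 2681) (nat_lit 168) .nil)))))))) (.g (nat_lit 1) (.e (nat_lit 229322) (nat_lit 0) .nil) .nil))))))))) 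
(.nd (nat_lit 4) (.nd (nat_lit 5) (.nd (nat_lit 6) (.nd (nat_lit 7) (.nd (nat_lit 8) 
(.nd (nat_lit 9) 
(.lf (nat_lit 522249) (.g (nat_lit 790) (.e (nat_lit 204850) (nat_lit 26) (.e (nat_lit 336028) (nat_lit 3) (.e (nat_lit 98341) (nat_lit 20) .nil))) (.g (nat_lit 0) (.e (nat_lit 226743) (nat_lit 0) .nil) .nil))) 
(.lf (nat_lit 522761) (.g (nat_lit 2599) (.e (nat_lit 204859) (nat_lit 26) (.e (nat_lit 336017) (nat_lit 3) (.e (nat_lit 98342) (nat_lit 20) (.e (nat_lit 221215) (nat_lit 23) (.e (nat_lit 204829) (nat_lit 18) (.e (nat_lit 57927) (nat_lit 282) (.e (nat_lit 163875) (nat_lit 3) .nil))))))) (.g (nat_lit 1) (.e (nat_lit 228451) (nat_lit 0) .nil) .nil)))) (.nd (nat_lit 9) 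
(.lf (nat_lit 522505) (.g (nat_lit 2898) (.e (nat_lit 204853) (nat_lit 26) (.e (nat_lit 336324) (nat_lit 18) (.e (nat_lit 204854) (nat_lit 26) (.e (nat_lit 336326) (nat_lit 18) (.e (nat_lit 204852) (nat_lit 26) (.e (nat_lit 336324) (nat_lit 18) .nil)))))) (.g (nat_lit 1) (.e (nat_lit 227448) (nat_lit 0) .nil) .nil))) 
(.lf (nat_lit 523017) (.g (nat_lit 2173) (.e (nat_lit 204861) (nat_lit 26) (.e (nat_lit 336213) (nat_lit 13) (.e (nat_lit 393229) (nat_lit 9) (.e (nat_lit 335892) (nat_lit 0) (.e (nat_lit 1032) (nat_lit 81) .nil))))) (.g (nat_lit 0) (.e (nat_lit 228990) (nat_lit 0) .nil) .nil))))) (.nd (nat_lit 8) (.nd (nat_lit 9) 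
(.lf (nat_lit 522377) (.g (nat_lit 1773) (.e (nat_lit 204852) (nat_lit 26) (.e (nat_lit 336324) (nat_lit 18) (.e (nat_lit 204882) (nat_lit 32) (.e (nat_lit 385066) (nat_lit 26) (.e (nat_lit 532531) (nat_lit 9) (.e (nat_lit 336322) (nat_lit 18) .nil)))))) (.g (nat_lit 1) (.e (nat_lit 227089) (nat_lit 0) .nil) .nil))) 
(.lf (nat_lit 522889) (.g (nat_lit 2688) (.e (nat_lit 204861) (nat_lit 26) (.e (nat_lit 336077) (nat_lit 9) (.e (nat_lit 336454) (nat_lit 34) (.e (nat_lit 483365) (nat_lit 18) (.e (nat_lit 57929) (nat_lit 282) (.e (nat_lit 163873) (nat_lit 3) .nil)))))) (.g (nat_lit 1) (.e (nat_lit 228767) (nat_lit 0) .nil) .nil)))) (.nd (nat_lit 9) 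
(.lf (nat_lit 522633) (.g (nat_lit 3121) (.e (nat_lit 204855) (nat_lit 26) (.e (nat_lit 336099) (nat_lit 9) (.e (nat_lit 336013) (nat_lit 2) (.e (nat_lit 90165) (nat_lit 12) (.e (nat_lit 164207) (nat_lit 176) (.e (nat_lit 2798) (nat_lit 180) (.e (nat_lit 303119) (nat_lit 3) .nil))))))) (.g (nat_lit 1) (.e (nat_lit 227891) (nat_lit 0) .nil) .nil))) 
(.lf (nat_lit 523145) (.g (nat_lit 589) (.e (nat_lit 204862) (nat_lit 27) (.e (nat_lit 344129) (nat_lit 26) (.e (nat_lit 557067) (nat_lit 9) .nil))) (.g (nat_lit 0) (.e (nat_lit 229207) (nat_lit 0) .nil) .nil)))))) (.nd (nat_lit 7) (.nd (nat_lit 8) (.nd (nat_lit 9) 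
(.lf (nat_lit 522313) (.g (nat_lit 2343) (.e (nat_lit 204852) (nat_lit 26) (.e (nat_lit 336310) (nat_lit 16) (.e (nat_lit 164177) (nat_lit 154) (.e (nat_lit 57379) (nat_lit 3) (.e (nat_lit 98334) (nat_lit 18) (.e (nat_lit 164305) (nat_lit 226) (.e (nat_lit 2725) (nat_lit 172) (.e (nat_lit 237592) (nat_lit 3) .nil)))))))) (.g (nat_lit 1) (.e (nat_lit 226934) (nat_lit 0) .nil) .nil))) 
(.lf (nat_lit 522825) (.g (nat_lit 1722) (.e (nat_lit 204861) (nat_lit 26) (.e (nat_lit 336027) (nat_lit 3) (.e (nat_lit 98333) (nat_lit 18) (.e (nat_lit 164183) (nat_lit 154) .nil)))) (.g (nat_lit 0) (.e (nat_lit 228654) (nat_lit 0) .nil) .nil)))) (.nd (nat_lit 9) 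
(.lf (nat_lit 522569) (.g (nat_lit 4611) (.e (nat_lit 204854) (nat_lit 26) (.e (nat_lit 336324) (nat_lit 18) (.e (nat_lit 204831) (nat_lit 18) (.e (nat_lit 57847) (nat_lit 252) .nil)))) (.g (nat_lit 0) (.e (nat_lit 227690) (nat_lit 0) .nil) .nil))) 
(.lf (nat_lit 523081) (.g (nat_lit 3265) (.e (nat_lit 204862) (nat_lit 27) (.e (nat_lit 344117) (nat_lit 21) (.e (nat_lit 516116) (nat_lit 1) (.e (nat_lit 164182) (nat_lit 154) (.e (nat_lit 57379) (nat_lit 3) (.e (nat_lit 98321) (nat_lit 17) (.e (nat_lit 3771) (nat_lit 229) (.e (nat_lit 794673) (nat_lit 23) .nil)))))))) (.g (nat_lit 1) (.e (nat_lit 229114) (nat_lit 0) .nil) .nil))))) 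
(.nd (nat_lit 8) (.nd (nat_lit 9) 
(.lf (nat_lit 522441) (.g (nat_lit 2241) (.e (nat_lit 204852) (nat_lit 26) (.e (nat_lit 336326) (nat_lit 18) (.e (nat_lit 204882) (nat_lit 32) (.e (nat_lit 385066) (nat_lit 26) (.e (nat_lit 532529) (nat_lit 9) (.e (nat_lit 336324) (nat_lit 18) .nil)))))) (.g (nat_lit 1) (.e (nat_lit 227305) (nat_lit 0) .nil) .nil))) 
(.lf (nat_lit 522953) (.g (nat_lit 2020) (.e (nat_lit 204861) (nat_lit 26) (.e (nat_lit 336194) (nat_lit 12) (.e (nat_lit 385066) (nat_lit 26) (.e (nat_lit 532482) (nat_lit 0) (.e (nat_lit 2115) (nat_lit 142) .nil))))) (.g (nat_lit 0) (.e (nat_lit 228875) (nat_lit 0) .nil) .nil)))) (.nd (nat_lit 9) 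
(.lf (nat_lit 522697) (.g (nat_lit 348) (.e (nat_lit 204855) (nat_lit 26) (.e (nat_lit 336176) (nat_lit 10) (.e (nat_lit 344132) (nat_lit 26) .nil))) (.g (nat_lit 0) (.e (nat_lit 228188) (nat_lit 0) .nil) .nil))) 
(.lf (nat_lit 523209) (.g (nat_lit 1745) (.e (nat_lit 204862) (nat_lit 27) (.e (nat_lit 344129) (nat_lit 26) (.e (nat_lit 557104) (nat_lit 14) (.e (nat_lit 180252) (nat_lit 10) .nil)))) (.g (nat_lit 0) (.e (nat_lit 229282) (nat_lit 0) .nil) .nil))))))) (.nd (nat_lit 6) (.nd (nat_lit 7) (.nd (nat_lit 8) (.nd (nat_lit 9) 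
(.lf (nat_lit 522281) (.g (nat_lit 1480) (.e (nat_lit 204851) (nat_lit 26) (.e (nat_lit 336019) (nat_lit 3) (.e (nat_lit 98341) (nat_lit 20) (.e (nat_lit 221213) (nat_lit 23) .nil)))) (.g (nat_lit 0) (.e (nat_lit 226812) (nat_lit 0) .nil) .nil))) 
(.lf (nat_lit 522793) (.g (nat_lit 2168) (.e (nat_lit 204861) (nat_lit 26) (.e (nat_lit 335986) (nat_lit 1) (.e (nat_lit 57847) (nat_lit 252) (.e (nat_lit 57379) (nat_lit 3) .nil)))) (.g (nat_lit 0) (.e (nat_lit 228515) (nat_lit 0) .nil) .nil)))) (.nd (nat_lit 9) 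
(.lf (nat_lit 522537) (.g (nat_lit 2272) (.e (nat_lit 204854) (nat_lit 26) (.e (nat_lit 336019) (nat_lit 3) (.e (nat_lit 98341) (nat_lit 20) (.e (nat_lit 221215) (nat_lit 23) (.e (nat_lit 204828) (nat_lit 18) .nil))))) (.g (nat_lit 0) (.e (nat_lit 227589) (nat_lit 0) .nil) .nil))) 
(.lf (nat_lit 523049) (.g (nat_lit 3164) (.e (nat_lit 204862) (nat_lit 27) (.e (nat_lit 344117) (nat_lit 21) (.e (nat_lit 516115) (nat_lit 1) (.e (nat_lit 164177) (nat_lit 154) (.e (nat_lit 57371) (nat_lit 2) (.e (nat_lit 90128) (nat_lit 9) (.e (nat_lit 2706) (nat_lit 170) (.e (nat_lit 221214) (nat_lit 23) .nil)))))))) (.g (nat_lit 1) (.e (nat_lit 229061) (nat_lit 0) .nil) .nil))))) 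
(.nd (nat_lit 8) (.nd (nat_lit 9) 
(.lf (nat_lit 522409) (.g (nat_lit 1706) (.e (nat_lit 204852) (nat_lit 26) (.e (nat_lit 336326) (nat_lit 18) (.e (nat_lit 204854) (nat_lit 26) (.e (nat_lit 336315) (nat_lit 17) .nil)))) (.g (nat_lit 0) (.e (nat_lit 227215) (nat_lit 0) .nil) .nil))) 
(.lf (nat_lit 522921) (.g (nat_lit 2089) (.e (nat_lit 204861) (nat_lit 26) (.e (nat_lit 336186) (nat_lit 11) (.e (nat_lit 368676) (nat_lit 21) (.e (nat_lit 516140) (nat_lit 8) (.e (nat_lit 417830) (nat_lit 19) (.e (nat_lit 311314) (nat_lit 3) .nil)))))) (.g (nat_lit 1) (.e (nat_lit 228807) (nat_lit 0) .nil) .nil)))) (.nd (nat_lit 9) 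
(.lf (nat_lit 522665) (.g (nat_lit 422) (.e (nat_lit 204855) (nat_lit 26) (.e (nat_lit 336173) (nat_lit 10) (.e (nat_lit 344117) (nat_lit 21) .nil))) (.g (nat_lit 0) (.e (nat_lit 227960) (nat_lit 0) .nil) .nil))) 
(.lf (nat_lit 523177) (.g (nat_lit 2554) (.e (nat_lit 204862) (nat_lit 27) (.e (nat_lit 344129) (nat_lit 26) (.e (nat_lit 557103) (nat_lit 14) (.e (nat_lit 180243) (nat_lit 5) (.e (nat_lit 532504) (nat_lit 1) .nil))))) (.g (nat_lit 0) (.e (nat_lit 229248) (nat_lit 0) .nil) .nil)))))) (.nd (nat_lit 7) (.nd (nat_lit 8) (.nd (nat_lit 9) 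
(.lf (nat_lit 522345) (.g (nat_lit 4385) (.e (nat_lit 204852) (nat_lit 26) (.e (nat_lit 336324) (nat_lit 18) (.e (nat_lit 204831) (nat_lit 18) (.e (nat_lit 57854) (nat_lit 252) (.e (nat_lit 57378) (nat_lit 3) (.e (nat_lit 98341) (nat_lit 20) (.e (nat_lit 221215) (nat_lit 23) .nil))))))) (.g (nat_lit 1) (.e (nat_lit 227006) (nat_lit 0) .nil) .nil))) 
(.lf (nat_lit 522857) (.g (nat_lit 3287) (.e (nat_lit 204861) (nat_lit 26) (.e (nat_lit 336075) (nat_lit 9) (.e (nat_lit 336454) (nat_lit 34) (.e (nat_lit 483364) (nat_lit 18) (.e (nat_lit 57925) (nat_lit 282) (.e (nat_lit 163875) (nat_lit 3) .nil)))))) (.g (nat_lit 1) (.e (nat_lit 228705) (nat_lit 0) .nil) .nil)))) (.nd (nat_lit 9) 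
(.lf (nat_lit 522601) (.g (nat_lit 2414) (.e (nat_lit 204854) (nat_lit 26) (.e (nat_lit 336326) (nat_lit 18) (.e (nat_lit 204880) (nat_lit 32) (.e (nat_lit 385066) (nat_lit 26) (.e (nat_lit 532528) (nat_lit 9) (.e (nat_lit 336324) (nat_lit 18) .nil)))))) (.g (nat_lit 1) (.e (nat_lit 227778) (nat_lit 0) .nil) .nil))) 
(.lf (nat_lit 523113) (.g (nat_lit 1552) (.e (nat_lit 204862) (nat_lit 27) (.e (nat_lit 344117) (nat_lit 21) (.e (nat_lit 516130) (nat_lit 3) (.e (nat_lit 221208) (nat_lit 21) .nil)))) (.g (nat_lit 0) (.e (nat_lit 229158) (nat_lit 0) .nil) .nil))))) (.nd (nat_lit 8) (.nd (nat_lit 9) 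
(.lf (nat_lit 522473) (.g (nat_lit 3343) (.e (nat_lit 204853) (nat_lit 26) (.e (nat_lit 336019) (nat_lit 3) (.e (nat_lit 98342) (nat_lit 20) (.e (nat_lit 221214) (nat_lit 23) (.e (nat_lit 204830) (nat_lit 18) (.e (nat_lit 57929) (nat_lit 282) (.e (nat_lit 163873) (nat_lit 3) .nil))))))) (.g (nat_lit 1) (.e (nat_lit 227413) (nat_lit 0) .nil) .nil))) 
(.lf (nat_lit 522985) (.g (nat_lit 3562) (.e (nat_lit 204861) (nat_lit 26) (.e (nat_lit 336194) (nat_lit 12) (.e (nat_lit 385073) (nat_lit 31) (.e (nat_lit 573482) (nat_lit 13) (.e (nat_lit 65630) (nat_lit 14) (.e (nat_lit 401428) (nat_lit 3) .nil)))))) (.g (nat_lit 1) (.e (nat_lit 228932) (nat_lit 0) .nil) .nil)))) (.nd (nat_lit 9) 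
(.lf (nat_lit 522729) (.g (nat_lit 3598) (.e (nat_lit 204855) (nat_lit 26) (.e (nat_lit 336178) (nat_lit 10) (.e (nat_lit 344117) (nat_lit 21) (.e (nat_lit 516138) (nat_lit 7) (.e (nat_lit 409645) (nat_lit 18) (.e (nat_lit 303119) (nat_lit 3) .nil)))))) (.g (nat_lit 1) (.e (nat_lit 228336) (nat_lit 0) .nil) .nil))) 
(.lf (nat_lit 523241) (.g (nat_lit 3299) (.e (nat_lit 204862) (nat_lit 27) (.e (nat_lit 344130) (nat_lit 26) (.e (nat_lit 557097) (nat_lit 13) (.e (nat_lit 172065) (nat_lit 3) (.e (nat_lit 204821) (nat_lit 17) (.e (nat_lit 2391) (nat_lit 156) (.e (nat_lit 819204) (nat_lit 0) (.e (nat_lit 2685) (nat_lit 168) .nil)))))))) (.g (nat_lit 1) (.e (nat_lit 229314) (nat_lit 0) .nil) .nil)))))))) 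
(.nd (nat_lit 5) (.nd (nat_lit 6) (.nd (nat_lit 7) (.nd (nat_lit 8) (.nd (nat_lit 9) 
(.lf (nat_lit 522265) (.g (nat_lit 2217) (.e (nat_lit 204850) (nat_lit 26) (.e (nat_lit 336228) (nat_lit 14) (.e (nat_lit 401425) (nat_lit 2) (.e (nat_lit 196665) (nat_lit 13) (.e (nat_lit 65628) (nat_lit 14) .nil))))) (.g (nat_lit 0) (.e (nat_lit 226773) (nat_lit 0) .nil) .nil))) 
(.lf (nat_lit 522777) (.g (nat_lit 1776) (.e (nat_lit 204859) (nat_lit 26) (.e (nat_lit 336209) (nat_lit 13) (.e (nat_lit 393221) (nat_lit 0) (.e (nat_lit 6209) (nat_lit 333) (.e (nat_lit 57883) (nat_lit 270) (.e (nat_lit 174) (nat_lit 12) .nil)))))) (.g (nat_lit 1) (.e (nat_lit 228486) (nat_lit 0) .nil) .nil)))) (.nd (nat_lit 9) 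
(.lf (nat_lit 522521) (.g (nat_lit 2139) (.e (nat_lit 204853) (nat_lit 26) (.e (nat_lit 336324) (nat_lit 18) (.e (nat_lit 204882) (nat_lit 32) (.e (nat_lit 385067) (nat_lit 26) (.e (nat_lit 532530) (nat_lit 9) (.e (nat_lit 336326) (nat_lit 18) .nil)))))) (.g (nat_lit 1) (.e (nat_lit 227465) (nat_lit 0) .nil) .nil))) 
(.lf (nat_lit 523033) (.g (nat_lit 2237) (.e (nat_lit 204861) (nat_lit 26) (.e (nat_lit 336232) (nat_lit 14) (.e (nat_lit 401423) (nat_lit 2) (.e (nat_lit 196668) (nat_lit 14) (.e (nat_lit 73782) (nat_lit 32) .nil))))) (.g (nat_lit 0) (.e (nat_lit 229026) (nat_lit 0) .nil) .nil))))) (.nd (nat_lit 8) (.nd (nat_lit 9) 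
(.lf (nat_lit 522393) (.g (nat_lit 2000) (.e (nat_lit 204852) (nat_lit 26) (.e (nat_lit 336326) (nat_lit 18) (.e (nat_lit 204830) (nat_lit 18) (.e (nat_lit 57852) (nat_lit 252) (.e (nat_lit 57378) (nat_lit 3) .nil))))) (.g (nat_lit 0) (.e (nat_lit 227118) (nat_lit 0) .nil) .nil))) 
(.lf (nat_lit 522905) (.g (nat_lit 2188) (.e (nat_lit 204861) (nat_lit 26) (.e (nat_lit 336086) (nat_lit 9) (.e (nat_lit 336324) (nat_lit 18) (.e (nat_lit 204837) (nat_lit 20) (.e (nat_lit 114697) (nat_lit 11) (.e (nat_lit 426138) (nat_lit 3) .nil)))))) (.g (nat_lit 1) (.e (nat_lit 228785) (nat_lit 0) .nil) .nil)))) (.nd (nat_lit 9) 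
(.lf (nat_lit 522649) (.g (nat_lit 4452) (.e (nat_lit 204855) (nat_lit 26) (.e (nat_lit 336099) (nat_lit 9) (.e (nat_lit 336028) (nat_lit 3) (.e (nat_lit 98349) (nat_lit 24) (.e (nat_lit 409645) (nat_lit 18) (.e (nat_lit 303118) (nat_lit 3) .nil)))))) (.g (nat_lit 1) (.e (nat_lit 227932) (nat_lit 0) .nil) .nil))) 
(.lf (nat_lit 523161) (.g (nat_lit 3377) (.e (nat_lit 204862) (nat_lit 27) (.e (nat_lit 344129) (nat_lit 26) (.e (nat_lit 557097) (nat_lit 13) (.e (nat_lit 172067) (nat_lit 3) (.e (nat_lit 204821) (nat_lit 17) (.e (nat_lit 2391) (nat_lit 156) (.e (nat_lit 819203) (nat_lit 0) (.e (nat_lit 2685) (nat_lit 168) .nil)))))))) (.g (nat_lit 1) (.e (nat_lit 229232) (nat_lit 0) .nil) .nil)))))) 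
(.nd (nat_lit 7) (.nd (nat_lit 8) (.nd (nat_lit 9) 
(.lf (nat_lit 522329) (.g (nat_lit 3910) (.e (nat_lit 204852) (nat_lit 26) (.e (nat_lit 336324) (nat_lit 18) (.e (nat_lit 204831) (nat_lit 18) (.e (nat_lit 57844) (nat_lit 252) .nil)))) (.g (nat_lit 0) (.e (nat_lit 226983) (nat_lit 0) .nil) .nil))) 
(.lf (nat_lit 522841) (.g (nat_lit 1114) (.e (nat_lit 204861) (nat_lit 26) (.e (nat_lit 336075) (nat_lit 9) (.e (nat_lit 336324) (nat_lit 18) (.e (nat_lit 204836) (nat_lit 20) .nil)))) (.g (nat_lit 0) (.e (nat_lit 228681) (nat_lit 0) .nil) .nil)))) (.nd (nat_lit 9) 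
(.lf (nat_lit 522585) (.g (nat_lit 2443) (.e (nat_lit 204854) (nat_lit 26) (.e (nat_lit 336324) (nat_lit 18) (.e (nat_lit 204880) (nat_lit 32) (.e (nat_lit 385068) (nat_lit 26) (.e (nat_lit 532528) (nat_lit 9) (.e (nat_lit 336324) (nat_lit 18) .nil)))))) (.g (nat_lit 1) (.e (nat_lit 227721) (nat_lit 0) .nil) .nil))) 
(.lf (nat_lit 523097) (.g (nat_lit 3000) (.e (nat_lit 204862) (nat_lit 27) (.e (nat_lit 344117) (nat_lit 21) (.e (nat_lit 516118) (nat_lit 1) (.e (nat_lit 164183) (nat_lit 154) (.e (nat_lit 57375) (nat_lit 2) (.e (nat_lit 90181) (nat_lit 16) (.e (nat_lit 229472) (nat_lit 57) (.e (nat_lit 794673) (nat_lit 23) .nil)))))))) (.g (nat_lit 1) (.e (nat_lit 229142) (nat_lit 0) .nil) .nil))))) 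
(.nd (nat_lit 8) (.nd (nat_lit 9) 
(.lf (nat_lit 522457) (.g (nat_lit 3375) (.e (nat_lit 204852) (nat_lit 26) (.e (nat_lit 336326) (nat_lit 18) (.e (nat_lit 204882) (nat_lit 32) (.e (nat_lit 385068) (nat_lit 26) (.e (nat_lit 532530) (nat_lit 9) (.e (nat_lit 336325) (nat_lit 18) .nil)))))) (.g (nat_lit 1) (.e (nat_lit 227323) (nat_lit 0) .nil) .nil))) 
(.lf (nat_lit 522969) (.g (nat_lit 2704) (.e (nat_lit 204861) (nat_lit 26) (.e (nat_lit 336194) (nat_lit 12) (.e (nat_lit 385068) (nat_lit 26) (.e (nat_lit 532490) (nat_lit 0) (.e (nat_lit 2087) (nat_lit 142) .nil))))) (.g (nat_lit 0) (.e (nat_lit 228907) (nat_lit 0) .nil) .nil)))) (.nd (nat_lit 9) 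
(.lf (nat_lit 522713) (.g (nat_lit 3047) (.e (nat_lit 204855) (nat_lit 26) (.e (nat_lit 336176) (nat_lit 10) (.e (nat_lit 344133) (nat_lit 26) (.e (nat_lit 557091) (nat_lit 12) (.e (nat_lit 164016) (nat_lit 44) (.e (nat_lit 688138) (nat_lit 5) (.e (nat_lit 2887) (nat_lit 184) (.e (nat_lit 426134) (nat_lit 3) .nil)))))))) (.g (nat_lit 1) (.e (nat_lit 228296) (nat_lit 0) .nil) .nil))) 
(.lf (nat_lit 523225) (.g (nat_lit 4071) (.e (nat_lit 204862) (nat_lit 27) (.e (nat_lit 344129) (nat_lit 26) (.e (nat_lit 557104) (nat_lit 14) (.e (nat_lit 180252) (nat_lit 10) (.e (nat_lit 573475) (nat_lit 12) (.e (nat_lit 57506) (nat_lit 39) (.e (nat_lit 655104) (nat_lit 0) (.e (nat_lit 2684) (nat_lit 168) .nil)))))))) (.g (nat_lit 1) (.e (nat_lit 229298) (nat_lit 0) .nil) .nil))))))) 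
(.nd (nat_lit 6) (.nd (nat_lit 7) (.nd (nat_lit 8) (.nd (nat_lit 9) 
(.lf (nat_lit 522297) (.g (nat_lit 1622) (.e (nat_lit 204851) (nat_lit 26) (.e (nat_lit 336324) (nat_lit 18) (.e (nat_lit 204880) (nat_lit 32) (.e (nat_lit 385065) (nat_lit 26) .nil)))) (.g (nat_lit 0) (.e (nat_lit 226841) (nat_lit 0) .nil) .nil))) 
(.lf (nat_lit 522809) (.g (nat_lit 2289) (.e (nat_lit 204861) (nat_lit 26) (.e (nat_lit 336003) (nat_lit 2) (.e (nat_lit 90158) (nat_lit 11) (.e (nat_lit 24608) (nat_lit 3) (.e (nat_lit 98334) (nat_lit 18) (.e (nat_lit 164183) (nat_lit 154) (.e (nat_lit 65280) (nat_lit 64) .nil))))))) (.g (nat_lit 1) (.e (nat_lit 228583) (nat_lit 0) .nil) .nil)))) (.nd (nat_lit 9) 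
(.lf (nat_lit 522553) (.g (nat_lit 3460) (.e (nat_lit 204854) (nat_lit 26) (.e (nat_lit 336019) (nat_lit 3) (.e (nat_lit 98342) (nat_lit 20) (.e (nat_lit 221215) (nat_lit 23) (.e (nat_lit 204828) (nat_lit 18) (.e (nat_lit 57931) (nat_lit 282) (.e (nat_lit 163874) (nat_lit 3) .nil))))))) (.g (nat_lit 1) (.e (nat_lit 227622) (nat_lit 0) .nil) .nil))) 
(.lf (nat_lit 523065) (.g (nat_lit 1769) (.e (nat_lit 204862) (nat_lit 27) (.e (nat_lit 344117) (nat_lit 21) (.e (nat_lit 516115) (nat_lit 1) (.e (nat_lit 164183) (nat_lit 154) (.e (nat_lit 57373) (nat_lit 2) .nil))))) (.g (nat_lit 0) (.e (nat_lit 229085) (nat_lit 0) .nil) .nil))))) (.nd (nat_lit 8) (.nd (nat_lit 9) 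
(.lf (nat_lit 522425) (.g (nat_lit 3486) (.e (nat_lit 204852) (nat_lit 26) (.e (nat_lit 336326) (nat_lit 18) (.e (nat_lit 204880) (nat_lit 32) (.e (nat_lit 385066) (nat_lit 26) (.e (nat_lit 532534) (nat_lit 9) (.e (nat_lit 336324) (nat_lit 18) .nil)))))) (.g (nat_lit 1) (.e (nat_lit 227280) (nat_lit 0) .nil) .nil))) 
(.lf (nat_lit 522937) (.g (nat_lit 1834) (.e (nat_lit 204861) (nat_lit 26) (.e (nat_lit 336186) (nat_lit 11) (.e (nat_lit 368676) (nat_lit 21) (.e (nat_lit 516171) (nat_lit 13) (.e (nat_lit 458774) (nat_lit 18) (.e (nat_lit 5938) (nat_lit 322) (.e (nat_lit 65280) (nat_lit 64) .nil))))))) (.g (nat_lit 1) (.e (nat_lit 228837) (nat_lit 0) .nil) .nil)))) (.nd (nat_lit 9) 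
(.lf (nat_lit 522681) (.g (nat_lit 2138) (.e (nat_lit 204855) (nat_lit 26) (.e (nat_lit 336176) (nat_lit 10) (.e (nat_lit 344130) (nat_lit 26) (.e (nat_lit 557067) (nat_lit 9) (.e (nat_lit 249) (nat_lit 21) .nil))))) (.g (nat_lit 0) (.e (nat_lit 228042) (nat_lit 0) .nil) .nil))) 
(.lf (nat_lit 523193) (.g (nat_lit 3185) (.e (nat_lit 204862) (nat_lit 27) (.e (nat_lit 344129) (nat_lit 26) (.e (nat_lit 557103) (nat_lit 14) (.e (nat_lit 180250) (nat_lit 10) (.e (nat_lit 573475) (nat_lit 12) (.e (nat_lit 57507) (nat_lit 39) (.e (nat_lit 647176) (nat_lit 0) (.e (nat_lit 2681) (nat_lit 168) .nil)))))))) (.g (nat_lit 1) (.e (nat_lit 229265) (nat_lit 0) .nil) .nil)))))) 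
(.nd (nat_lit 7) (.nd (nat_lit 8) (.nd (nat_lit 9) 
(.lf (nat_lit 522361) (.g (nat_lit 3374) (.e (nat_lit 204852) (nat_lit 26) (.e (nat_lit 336324) (nat_lit 18) (.e (nat_lit 204880) (nat_lit 32) (.e (nat_lit 385066) (nat_lit 26) (.e (nat_lit 532530) (nat_lit 9) (.e (nat_lit 336325) (nat_lit 18) .nil)))))) (.g (nat_lit 1) (.e (nat_lit 227066) (nat_lit 0) .nil) .nil))) 
(.lf (nat_lit 522873) (.g (nat_lit 2182) (.e (nat_lit 204861) (nat_lit 26) (.e (nat_lit 336076) (nat_lit 9) (.e (nat_lit 336326) (nat_lit 18) (.e (nat_lit 204837) (nat_lit 20) (.e (nat_lit 114697) (nat_lit 11) (.e (nat_lit 426138) (nat_lit 3) .nil)))))) (.g (nat_lit 1) (.e (nat_lit 228734) (nat_lit 0) .nil) .nil)))) (.nd (nat_lit 9) 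
(.lf (nat_lit 522617) (.g (nat_lit 2666) (.e (nat_lit 204854) (nat_lit 26) (.e (nat_lit 336326) (nat_lit 18) (.e (nat_lit 204882) (nat_lit 32) (.e (nat_lit 385068) (nat_lit 26) (.e (nat_lit 532529) (nat_lit 9) (.e (nat_lit 336326) (nat_lit 18) .nil)))))) (.g (nat_lit 1) (.e (nat_lit 227795) (nat_lit 0) .nil) .nil))) 
(.lf (nat_lit 523129) (.g (nat_lit 528) (.e (nat_lit 204862) (nat_lit 27) (.e (nat_lit 344117) (nat_lit 21) (.e (nat_lit 516195) (nat_lit 26) .nil))) (.g (nat_lit 0) (.e (nat_lit 229180) (nat_lit 0) .nil) .nil))))) (.nd (nat_lit 8) (.nd (nat_lit 9) 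
(.lf (nat_lit 522489) (.g (nat_lit 2109) (.e (nat_lit 204853) (nat_lit 26) (.e (nat_lit 336324) (nat_lit 18) (.e (nat_lit 204852) (nat_lit 26) (.e (nat_lit 336316) (nat_lit 17) (.e (nat_lit 196666) (nat_lit 13) (.e (nat_lit 73472) (nat_lit 18) .nil)))))) (.g (nat_lit 1) (.e (nat_lit 227431) (nat_lit 0) .nil) .nil))) 
(.lf (nat_lit 523001) (.g (nat_lit 4421) (.e (nat_lit 204861) (nat_lit 26) (.e (nat_lit 336204) (nat_lit 12) (.e (nat_lit 385074) (nat_lit 31) (.e (nat_lit 573485) (nat_lit 13) (.e (nat_lit 65630) (nat_lit 14) .nil))))) (.g (nat_lit 0) (.e (nat_lit 228968) (nat_lit 0) .nil) .nil)))) (.nd (nat_lit 9) 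
(.lf (nat_lit 522745) (.g (nat_lit 1857) (.e (nat_lit 204857) (nat_lit 26) (.e (nat_lit 336228) (nat_lit 14) (.e (nat_lit 401425) (nat_lit 2) (.e (nat_lit 196670) (nat_lit 14) (.e (nat_lit 73781) (nat_lit 32) .nil))))) (.g (nat_lit 0) (.e (nat_lit 228417) (nat_lit 0) .nil) .nil))) 
(.lf (nat_lit 523257) (.g (nat_lit 3770) (.e (nat_lit 204862) (nat_lit 27) (.e (nat_lit 344130) (nat_lit 26) (.e (nat_lit 557103) (nat_lit 14) (.e (nat_lit 180250) (nat_lit 10) (.e (nat_lit 573475) (nat_lit 12) (.e (nat_lit 57506) (nat_lit 39) (.e (nat_lit 655104) (nat_lit 0) (.e (nat_lit 2684) (nat_lit 168) .nil)))))))) (.g (nat_lit 1) (.e (nat_lit 229330) (nat_lit 0) .nil) .nil)))))))))) 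
(.nd (nat_lit 3) (.nd (nat_lit 4) (.nd (nat_lit 5) (.nd (nat_lit 6) (.nd (nat_lit 7) 
(.nd (nat_lit 8) (.nd (nat_lit 9) 
(.lf (nat_lit 522245) (.g (nat_lit 1797) (.e (nat_lit 204850) (nat_lit 26) (.e (nat_lit 336028) (nat_lit 3) (.e (nat_lit 98333) (nat_lit 18) (.e (nat_lit 164179) (nat_lit 154) .nil)))) (.g (nat_lit 0) (.e (nat_lit 226739) (nat_lit 0) .nil) .nil))) 
(.lf (nat_lit 522757) (.g (nat_lit 1472) (.e (nat_lit 204859) (nat_lit 26) (.e (nat_lit 336017) (nat_lit 3) (.e (nat_lit 98342) (nat_lit 20) (.e (nat_lit 221212) (nat_lit 22) .nil)))) (.g (nat_lit 0) (.e (nat_lit 228447) (nat_lit 0) .nil) .nil)))) (.nd (nat_lit 9) 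
(.lf (nat_lit 522501) (.g (nat_lit 3020) (.e (nat_lit 204853) (nat_lit 26) (.e (nat_lit 336324) (nat_lit 18) (.e (nat_lit 204854) (nat_lit 26) (.e (nat_lit 336324) (nat_lit 18) (.e (nat_lit 204852) (nat_lit 26) (.e (nat_lit 336324) (nat_lit 18) .nil)))))) (.g (nat_lit 1) (.e (nat_lit 227444) (nat_lit 0) .nil) .nil))) 
(.lf (nat_lit 523013) (.g (nat_lit 1672) (.e (nat_lit 204861) (nat_lit 26) (.e (nat_lit 336213) (nat_lit 13) (.e (nat_lit 393225) (nat_lit 9) (.e (nat_lit 335917) (nat_lit 0) .nil)))) (.g (nat_lit 0) (.e (nat_lit 228986) (nat_lit 0) .nil) .nil))))) (.nd (nat_lit 8) (.nd (nat_lit 9) 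
(.lf (nat_lit 522373) (.g (nat_lit 2230) (.e (nat_lit 204852) (nat_lit 26) (.e (nat_lit 336324) (nat_lit 18) (.e (nat_lit 204882) (nat_lit 32) (.e (nat_lit 385066) (nat_lit 26) (.e (nat_lit 532529) (nat_lit 9) (.e (nat_lit 336324) (nat_lit 18) .nil)))))) (.g (nat_lit 1) (.e (nat_lit 227085) (nat_lit 0) .nil) .nil))) 
(.lf (nat_lit 522885) (.g (nat_lit 3171) (.e (nat_lit 204861) (nat_lit 26) (.e (nat_lit 336076) (nat_lit 9) (.e (nat_lit 336454) (nat_lit 34) (.e (nat_lit 483366) (nat_lit 18) (.e (nat_lit 57929) (nat_lit 282) (.e (nat_lit 163874) (nat_lit 3) .nil)))))) (.g (nat_lit 1) (.e (nat_lit 228754) (nat_lit 0) .nil) .nil)))) (.nd (nat_lit 9) 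
(.lf (nat_lit 522629) (.g (nat_lit 3052) (.e (nat_lit 204855) (nat_lit 26) (.e (nat_lit 336099) (nat_lit 9) (.e (nat_lit 336013) (nat_lit 2) (.e (nat_lit 90163) (nat_lit 12) .nil)))) (.g (nat_lit 0) (.e (nat_lit 227887) (nat_lit 0) .nil) .nil))) 
(.lf (nat_lit 523141) (.g (nat_lit 1164) (.e (nat_lit 204862) (nat_lit 27) (.e (nat_lit 344119) (nat_lit 21) (.e (nat_lit 516115) (nat_lit 1) (.e (nat_lit 164179) (nat_lit 154) .nil)))) (.g (nat_lit 0) (.e (nat_lit 229202) (nat_lit 0) .nil) .nil)))))) (.nd (nat_lit 7) (.nd (nat_lit 8) (.nd (nat_lit 9) 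
(.lf (nat_lit 522309) (.g (nat_lit 2487) (.e (nat_lit 204852) (nat_lit 26) (.e (nat_lit 336208) (nat_lit 12) (.e (nat_lit 385068) (nat_lit 26) (.e (nat_lit 532513) (nat_lit 3) (.e (nat_lit 114695) (nat_lit 11) (.e (nat_lit 426129) (nat_lit 3) .nil)))))) (.g (nat_lit 1) (.e (nat_lit 226929) (nat_lit 0) .nil) .nil))) 
(.lf (nat_lit 522821) (.g (nat_lit 3119) (.e (nat_lit 204861) (nat_lit 26) (.e (nat_lit 336025) (nat_lit 3) (.e (nat_lit 98333) (nat_lit 18) (.e (nat_lit 164179) (nat_lit 154) (.e (nat_lit 57378) (nat_lit 3) (.e (nat_lit 98341) (nat_lit 20) (.e (nat_lit 221214) (nat_lit 23) .nil))))))) (.g (nat_lit 1) (.e (nat_lit 228646) (nat_lit 0) .nil) .nil)))) (.nd (nat_lit 9) 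
(.lf (nat_lit 522565) (.g (nat_lit 2412) (.e (nat_lit 204854) (nat_lit 26) (.e (nat_lit 336306) (nat_lit 15) (.e (nat_lit 3238) (nat_lit 197) (.e (nat_lit 532535) (nat_lit 9) (.e (nat_lit 343808) (nat_lit 18) .nil))))) (.g (nat_lit 0) (.e (nat_lit 227674) (nat_lit 0) .nil) .nil))) 
(.lf (nat_lit 523077) (.g (nat_lit 3245) (.e (nat_lit 204862) (nat_lit 27) (.e (nat_lit 344117) (nat_lit 21) (.e (nat_lit 516116) (nat_lit 1) (.e (nat_lit 164182) (nat_lit 154) (.e (nat_lit 57373) (nat_lit 2) .nil))))) (.g (nat_lit 0) (.e (nat_lit 229108) (nat_lit 0) .nil) .nil))))) (.nd (nat_lit 8) (.nd (nat_lit 9) 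
(.lf (nat_lit 522437) (.g (nat_lit 2671) (.e (nat_lit 204852) (nat_lit 26) (.e (nat_lit 336326) (nat_lit 18) (.e (nat_lit 204881) (nat_lit 32) (.e (nat_lit 385066) (nat_lit 26) (.e (nat_lit 532534) (nat_lit 9) (.e (nat_lit 336325) (nat_lit 18) .nil)))))) (.g (nat_lit 1) (.e (nat_lit 227292) (nat_lit 0) .nil) .nil))) 
(.lf (nat_lit 522949) (.g (nat_lit 1764) (.e (nat_lit 204861) (nat_lit 26) (.e (nat_lit 336194) (nat_lit 12) (.e (nat_lit 385064) (nat_lit 26) (.e (nat_lit 532515) (nat_lit 3) (.e (nat_lit 114698) (nat_lit 11) (.e (nat_lit 426133) (nat_lit 3) .nil)))))) (.g (nat_lit 1) (.e (nat_lit 228855) (nat_lit 0) .nil) .nil)))) (.nd (nat_lit 9) 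
(.lf (nat_lit 522693) (.g (nat_lit 3641) (.e (nat_lit 204855) (nat_lit 26) (.e (nat_lit 336176) (nat_lit 10) (.e (nat_lit 344130) (nat_lit 26) (.e (nat_lit 557090) (nat_lit 12) (.e (nat_lit 164017) (nat_lit 44) (.e (nat_lit 688138) (nat_lit 5) (.e (nat_lit 2887) (nat_lit 184) (.e (nat_lit 426134) (nat_lit 3) .nil)))))))) (.g (nat_lit 1) (.e (nat_lit 228167) (nat_lit 0) .nil) .nil))) 
(.lf (nat_lit 523205) (.g (nat_lit 2071) (.e (nat_lit 204862) (nat_lit 27) (.e (nat_lit 344129) (nat_lit 26) (.e (nat_lit 557103) (nat_lit 14) (.e (nat_lit 180252) (nat_lit 10) .nil)))) (.g (nat_lit 0) (.e (nat_lit 229277) (nat_lit 0) .nil) .nil))))))) (.nd (nat_lit 6) (.nd (nat_lit 7) (.nd (nat_lit 8) (.nd (nat_lit 9) 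
(.lf (nat_lit 522277) (.g (nat_lit 3978) (.e (nat_lit 204850) (nat_lit 26) (.e (nat_lit 336324) (nat_lit 18) (.e (nat_lit 204831) (nat_lit 18) (.e (nat_lit 57854) (nat_lit 252) .nil)))) (.g (nat_lit 0) (.e (nat_lit 226785) (nat_lit 0) .nil) .nil))) 
(.lf (nat_lit 522789) (.g (nat_lit 647) (.e (nat_lit 204860) (nat_lit 26) (.e (nat_lit 336214) (nat_lit 13) (.e (nat_lit 401152) (nat_lit 7) (.e (nat_lit 319533) (nat_lit 16) (.e (nat_lit 294656) (nat_lit 18) .nil))))) (.g (nat_lit 1) (.e (nat_lit 228508) (nat_lit 0) .nil) .nil)))) (.nd (nat_lit 9) 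
(.lf (nat_lit 522533) (.g (nat_lit 2537) (.e (nat_lit 204854) (nat_lit 26) (.e (nat_lit 336019) (nat_lit 3) (.e (nat_lit 98341) (nat_lit 20) (.e (nat_lit 221213) (nat_lit 23) (.e (nat_lit 204830) (nat_lit 18) (.e (nat_lit 57927) (nat_lit 282) (.e (nat_lit 163874) (nat_lit 3) .nil))))))) (.g (nat_lit 1) (.e (nat_lit 227585) (nat_lit 0) .nil) .nil))) 
(.lf (nat_lit 523045) (.g (nat_lit 1314) (.e (nat_lit 212736) (nat_lit 26) (.e (nat_lit 336324) (nat_lit 18) (.e (nat_lit 204882) (nat_lit 32) (.e (nat_lit 385066) (nat_lit 26) .nil)))) (.g (nat_lit 0) (.e (nat_lit 229047) (nat_lit 0) .nil) .nil))))) (.nd (nat_lit 8) (.nd (nat_lit 9) 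
(.lf (nat_lit 522405) (.g (nat_lit 1899) (.e (nat_lit 204852) (nat_lit 26) (.e (nat_lit 336326) (nat_lit 18) (.e (nat_lit 204854) (nat_lit 26) (.e (nat_lit 336240) (nat_lit 15) .nil)))) (.g (nat_lit 0) (.e (nat_lit 227202) (nat_lit 0) .nil) .nil))) 
(.lf (nat_lit 522917) (.g (nat_lit 2399) (.e (nat_lit 204861) (nat_lit 26) (.e (nat_lit 336186) (nat_lit 11) (.e (nat_lit 368676) (nat_lit 21) (.e (nat_lit 516138) (nat_lit 7) (.e (nat_lit 409643) (nat_lit 18) (.e (nat_lit 303119) (nat_lit 3) .nil)))))) (.g (nat_lit 1) (.e (nat_lit 228803) (nat_lit 0) .nil) .nil)))) (.nd (nat_lit 9) 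
(.lf (nat_lit 522661) (.g (nat_lit 4344) (.e (nat_lit 204855) (nat_lit 26) (.e (nat_lit 336163) (nat_lit 10) (.e (nat_lit 344119) (nat_lit 21) (.e (nat_lit 516139) (nat_lit 7) (.e (nat_lit 409649) (nat_lit 18) (.e (nat_lit 303118) (nat_lit 3) .nil)))))) (.g (nat_lit 1) (.e (nat_lit 227956) (nat_lit 0) .nil) .nil))) 
(.lf (nat_lit 523173) (.g (nat_lit 3014) (.e (nat_lit 204862) (nat_lit 27) (.e (nat_lit 344129) (nat_lit 26) (.e (nat_lit 557103) (nat_lit 14) (.e (nat_lit 180243) (nat_lit 5) (.e (nat_lit 532501) (nat_lit 1) (.e (nat_lit 57703) (nat_lit 164) (.e (nat_lit 2416) (nat_lit 157) (.e (nat_lit 2685) (nat_lit 168) .nil)))))))) (.g (nat_lit 1) (.e (nat_lit 229244) (nat_lit 0) .nil) .nil)))))) 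
(.nd (nat_lit 7) (.nd (nat_lit 8) (.nd (nat_lit 9) 
(.lf (nat_lit 522341) (.g (nat_lit 3640) (.e (nat_lit 204852) (nat_lit 26) (.e (nat_lit 336324) (nat_lit 18) (.e (nat_lit 204831) (nat_lit 18) (.e (nat_lit 57853) (nat_lit 252) .nil)))) (.g (nat_lit 0) (.e (nat_lit 226999) (nat_lit 0) .nil) .nil))) 
(.lf (nat_lit 522853) (.g (nat_lit 1604) (.e (nat_lit 204861) (nat_lit 26) (.e (nat_lit 336075) (nat_lit 9) (.e (nat_lit 336452) (nat_lit 34) (.e (nat_lit 483364) (nat_lit 18) (.e (nat_lit 57927) (nat_lit 282) .nil))))) (.g (nat_lit 0) (.e (nat_lit 228696) (nat_lit 0) .nil) .nil)))) (.nd (nat_lit 9) 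
(.lf (nat_lit 522597) (.g (nat_lit 2099) (.e (nat_lit 204854) (nat_lit 26) (.e (nat_lit 336326) (nat_lit 18) (.e (nat_lit 204854) (nat_lit 26) (.e (nat_lit 336320) (nat_lit 17) (.e (nat_lit 196628) (nat_lit 9) .nil))))) (.g (nat_lit 0) (.e (nat_lit 227765) (nat_lit 0) .nil) .nil))) 
(.lf (nat_lit 523109) (.g (nat_lit 4420) (.e (nat_lit 204862) (nat_lit 27) (.e (nat_lit 344117) (nat_lit 21) (.e (nat_lit 516129) (nat_lit 3) (.e (nat_lit 221214) (nat_lit 23) (.e (nat_lit 204830) (nat_lit 18) (.e (nat_lit 57926) (nat_lit 282) (.e (nat_lit 163875) (nat_lit 3) .nil))))))) (.g (nat_lit 1) (.e (nat_lit 229154) (nat_lit 0) .nil) .nil))))) (.nd (nat_lit 8) (.nd (nat_lit 9) 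
(.lf (nat_lit 522469) (.g (nat_lit 1556) (.e (nat_lit 204853) (nat_lit 26) (.e (nat_lit 336019) (nat_lit 3) (.e (nat_lit 98342) (nat_lit 20) (.e (nat_lit 221198) (nat_lit 20) .nil)))) (.g (nat_lit 0) (.e (nat_lit 227409) (nat_lit 0) .nil) .nil))) 
(.lf (nat_lit 522981) (.g (nat_lit 3295) (.e (nat_lit 204861) (nat_lit 26) (.e (nat_lit 336194) (nat_lit 12) (.e (nat_lit 385072) (nat_lit 31) (.e (nat_lit 573481) (nat_lit 13) (.e (nat_lit 65630) (nat_lit 14) (.e (nat_lit 401428) (nat_lit 3) .nil)))))) (.g (nat_lit 1) (.e (nat_lit 228922) (nat_lit 0) .nil) .nil)))) (.nd (nat_lit 9) 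
(.lf (nat_lit 522725) (.g (nat_lit 1978) (.e (nat_lit 204855) (nat_lit 26) (.e (nat_lit 336176) (nat_lit 10) (.e (nat_lit 344133) (nat_lit 26) (.e (nat_lit 557111) (nat_lit 16) .nil)))) (.g (nat_lit 0) (.e (nat_lit 228328) (nat_lit 0) .nil) .nil))) 
(.lf (nat_lit 523237) (.g (nat_lit 3588) (.e (nat_lit 204862) (nat_lit 27) (.e (nat_lit 344129) (nat_lit 26) (.e (nat_lit 557105) (nat_lit 14) (.e (nat_lit 180252) (nat_lit 10) (.e (nat_lit 573475) (nat_lit 12) .nil))))) (.g (nat_lit 0) (.e (nat_lit 229310) (nat_lit 0) .nil) .nil)))))))) (.nd (nat_lit 5) (.nd (nat_lit 6) (.nd (nat_lit 7) (.nd (nat_lit 8) (.nd (nat_lit 9) 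
(.lf (nat_lit 522261) (.g (nat_lit 2265) (.e (nat_lit 204850) (nat_lit 26) (.e (nat_lit 336205) (nat_lit 12) (.e (nat_lit 385074) (nat_lit 31) (.e (nat_lit 573487) (nat_lit 14) (.e (nat_lit 73781) (nat_lit 32) (.e (nat_lit 2681) (nat_lit 168) .nil)))))) (.g (nat_lit 1) (.e (nat_lit 226761) (nat_lit 0) .nil) .nil))) 
(.lf (nat_lit 522773) (.g (nat_lit 3065) (.e (nat_lit 204859) (nat_lit 26) (.e (nat_lit 336206) (nat_lit 12) (.e (nat_lit 385068) (nat_lit 26) (.e (nat_lit 532515) (nat_lit 3) (.e (nat_lit 114698) (nat_lit 11) (.e (nat_lit 426139) (nat_lit 3) .nil)))))) (.g (nat_lit 1) (.e (nat_lit 228475) (nat_lit 0) .nil) .nil)))) (.nd (nat_lit 9) 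
(.lf (nat_lit 522517) (.g (nat_lit 3495) (.e (nat_lit 204853) (nat_lit 26) (.e (nat_lit 336324) (nat_lit 18) (.e (nat_lit 204882) (nat_lit 32) (.e (nat_lit 385066) (nat_lit 26) (.e (nat_lit 532530) (nat_lit 9) (.e (nat_lit 336324) (nat_lit 18) .nil)))))) (.g (nat_lit 1) (.e (nat_lit 227461) (nat_lit 0) .nil) .nil))) 
(.lf (nat_lit 523029) (.g (nat_lit 3470) (.e (nat_lit 204861) (nat_lit 26) (.e (nat_lit 336229) (nat_lit 14) (.e (nat_lit 401423) (nat_lit 2) (.e (nat_lit 196668) (nat_lit 14) (.e (nat_lit 73782) (nat_lit 32) (.e (nat_lit 2682) (nat_lit 168) .nil)))))) (.g (nat_lit 1) (.e (nat_lit 229015) (nat_lit 0) .nil) .nil))))) (.nd (nat_lit 8) (.nd (nat_lit 9) 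
(.lf (nat_lit 522389) (.g (nat_lit 3301) (.e (nat_lit 204852) (nat_lit 26) (.e (nat_lit 336325) (nat_lit 18) (.e (nat_lit 204880) (nat_lit 32) (.e (nat_lit 385066) (nat_lit 26) (.e (nat_lit 532534) (nat_lit 9) (.e (nat_lit 336324) (nat_lit 18) .nil)))))) (.g (nat_lit 1) (.e (nat_lit 227109) (nat_lit 0) .nil) .nil))) 
(.lf (nat_lit 522901) (.g (nat_lit 481) (.e (nat_lit 204861) (nat_lit 26) (.e (nat_lit 336078) (nat_lit 9) (.e (nat_lit 336454) (nat_lit 34) .nil))) (.g (nat_lit 0) (.e (nat_lit 228780) (nat_lit 0) .nil) .nil)))) (.nd (nat_lit 9) 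
(.lf (nat_lit 522645) (.g (nat_lit 3418) (.e (nat_lit 204855) (nat_lit 26) (.e (nat_lit 336099) (nat_lit 9) (.e (nat_lit 336013) (nat_lit 2) (.e (nat_lit 90165) (nat_lit 12) (.e (nat_lit 164214) (nat_lit 176) .nil))))) (.g (nat_lit 0) (.e (nat_lit 227903) (nat_lit 0) .nil) .nil))) 
(.lf (nat_lit 523157) (.g (nat_lit 3156) (.e (nat_lit 204862) (nat_lit 27) (.e (nat_lit 344129) (nat_lit 26) (.e (nat_lit 557097) (nat_lit 13) (.e (nat_lit 172065) (nat_lit 3) (.e (nat_lit 204821) (nat_lit 17) (.e (nat_lit 2390) (nat_lit 156) (.e (nat_lit 819204) (nat_lit 0) (.e (nat_lit 2685) (nat_lit 168) .nil)))))))) (.g (nat_lit 1) (.e (nat_lit 229228) (nat_lit 0) .nil) .nil)))))) 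
(.nd (nat_lit 7) (.nd (nat_lit 8) (.nd (nat_lit 9) 
(.lf (nat_lit 522325) (.g (nat_lit 1102) (.e (nat_lit 204852) (nat_lit 26) (.e (nat_lit 336324) (nat_lit 18) (.e (nat_lit 204830) (nat_lit 18) (.e (nat_lit 57852) (nat_lit 252) .nil)))) (.g (nat_lit 0) (.e (nat_lit 226979) (nat_lit 0) .nil) .nil))) 
(.lf (nat_lit 522837) (.g (nat_lit 1942) (.e (nat_lit 204861) (nat_lit 26) (.e (nat_lit 336074) (nat_lit 9) (.e (nat_lit 336324) (nat_lit 18) (.e (nat_lit 204838) (nat_lit 20) (.e (nat_lit 114697) (nat_lit 11) (.e (nat_lit 426138) (nat_lit 3) .nil)))))) (.g (nat_lit 1) (.e (nat_lit 228671) (nat_lit 0) .nil) .nil)))) (.nd (nat_lit 9) 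
(.lf (nat_lit 522581) (.g (nat_lit 1941) (.e (nat_lit 204854) (nat_lit 26) (.e (nat_lit 336324) (nat_lit 18) (.e (nat_lit 204880) (nat_lit 32) (.e (nat_lit 385066) (nat_lit 26) (.e (nat_lit 532529) (nat_lit 9) (.e (nat_lit 336324) (nat_lit 18) .nil)))))) (.g (nat_lit 1) (.e (nat_lit 227717) (nat_lit 0) .nil) .nil))) 
(.lf (nat_lit 523093) (.g (nat_lit 1715) (.e (nat_lit 204862) (nat_lit 27) (.e (nat_lit 344117) (nat_lit 21) (.e (nat_lit 516118) (nat_lit 1) (.e (nat_lit 164182) (nat_lit 154) .nil)))) (.g (nat_lit 0) (.e (nat_lit 229135) (nat_lit 0) .nil) .nil))))) (.nd (nat_lit 8) (.nd (nat_lit 9) 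
(.lf (nat_lit 522453) (.g (nat_lit 2877) (.e (nat_lit 204852) (nat_lit 26) (.e (nat_lit 336326) (nat_lit 18) (.e (nat_lit 204882) (nat_lit 32) (.e (nat_lit 385068) (nat_lit 26) (.e (nat_lit 532528) (nat_lit 9) (.e (nat_lit 336324) (nat_lit 18) .nil)))))) (.g (nat_lit 1) (.e (nat_lit 227319) (nat_lit 0) .nil) .nil))) 
(.lf (nat_lit 522965) (.g (nat_lit 321) (.e (nat_lit 204861) (nat_lit 26) (.e (nat_lit 336194) (nat_lit 12) (.e (nat_lit 385068) (nat_lit 26) .nil))) (.g (nat_lit 0) (.e (nat_lit 228901) (nat_lit 0) .nil) .nil)))) (.nd (nat_lit 9) 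
(.lf (nat_lit 522709) (.g (nat_lit 1368) (.e (nat_lit 204855) (nat_lit 26) (.e (nat_lit 336176) (nat_lit 10) (.e (nat_lit 344133) (nat_lit 26) (.e (nat_lit 557085) (nat_lit 11) .nil)))) (.g (nat_lit 0) (.e (nat_lit 228239) (nat_lit 0) .nil) .nil))) 
(.lf (nat_lit 523221) (.g (nat_lit 4256) (.e (nat_lit 204862) (nat_lit 27) (.e (nat_lit 344129) (nat_lit 26) (.e (nat_lit 557104) (nat_lit 14) (.e (nat_lit 180252) (nat_lit 10) (.e (nat_lit 573474) (nat_lit 12) (.e (nat_lit 57509) (nat_lit 39) (.e (nat_lit 655104) (nat_lit 0) (.e (nat_lit 2684) (nat_lit 168) .nil)))))))) (.g (nat_lit 1) (.e (nat_lit 229294) (nat_lit 0) .nil) .nil))))))) 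
(.nd (nat_lit 6) (.nd (nat_lit 7) (.nd (nat_lit 8) (.nd (nat_lit 9) 
(.lf (nat_lit 522293) (.g (nat_lit 3932) (.e (nat_lit 204851) (nat_lit 26) (.e (nat_lit 336324) (nat_lit 18) (.e (nat_lit 204831) (nat_lit 18) (.e (nat_lit 57852) (nat_lit 252) .nil)))) (.g (nat_lit 0) (.e (nat_lit 226825) (nat_lit 0) .nil) .nil))) 
(.lf (nat_lit 522805) (.g (nat_lit 2318) (.e (nat_lit 204861) (nat_lit 26) (.e (nat_lit 335988) (nat_lit 1) (.e (nat_lit 57926) (nat_lit 282) (.e (nat_lit 163850) (nat_lit 0) (.e (nat_lit 7936) (nat_lit 200) (.e (nat_lit 557065) (nat_lit 9) (.e (nat_lit 3044) (nat_lit 189) (.e (nat_lit 466981) (nat_lit 23) .nil)))))))) (.g (nat_lit 1) (.e (nat_lit 228565) (nat_lit 0) .nil) .nil)))) 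
(.nd (nat_lit 9) 
(.lf (nat_lit 522549) (.g (nat_lit 4789) (.e (nat_lit 204854) (nat_lit 26) (.e (nat_lit 336019) (nat_lit 3) (.e (nat_lit 98342) (nat_lit 20) (.e (nat_lit 221214) (nat_lit 23) (.e (nat_lit 204829) (nat_lit 18) (.e (nat_lit 57931) (nat_lit 282) (.e (nat_lit 163874) (nat_lit 3) .nil))))))) (.g (nat_lit 1) (.e (nat_lit 227617) (nat_lit 0) .nil) .nil))) 
(.lf (nat_lit 523061) (.g (nat_lit 3945) (.e (nat_lit 204862) (nat_lit 27) (.e (nat_lit 344117) (nat_lit 21) (.e (nat_lit 516115) (nat_lit 1) (.e (nat_lit 164179) (nat_lit 154) (.e (nat_lit 57378) (nat_lit 3) (.e (nat_lit 98321) (nat_lit 17) (.e (nat_lit 3771) (nat_lit 229) (.e (nat_lit 794673) (nat_lit 23) .nil)))))))) (.g (nat_lit 1) (.e (nat_lit 229081) (nat_lit 0) .nil) .nil))))) 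
(.nd (nat_lit 8) (.nd (nat_lit 9) 
(.lf (nat_lit 522421) (.g (nat_lit 2966) (.e (nat_lit 204852) (nat_lit 26) (.e (nat_lit 336326) (nat_lit 18) (.e (nat_lit 204880) (nat_lit 32) (.e (nat_lit 385066) (nat_lit 26) (.e (nat_lit 532531) (nat_lit 9) (.e (nat_lit 336324) (nat_lit 18) .nil)))))) (.g (nat_lit 1) (.e (nat_lit 227276) (nat_lit 0) .nil) .nil))) 
(.lf (nat_lit 522933) (.g (nat_lit 1538) (.e (nat_lit 204861) (nat_lit 26) (.e (nat_lit 336186) (nat_lit 11) (.e (nat_lit 368676) (nat_lit 21) (.e (nat_lit 516169) (nat_lit 13) (.e (nat_lit 458775) (nat_lit 18) (.e (nat_lit 5953) (nat_lit 322) (.e (nat_lit 65280) (nat_lit 64) .nil))))))) (.g (nat_lit 1) (.e (nat_lit 228825) (nat_lit 0) .nil) .nil)))) (.nd (nat_lit 9) 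
(.lf (nat_lit 522677) (.g (nat_lit 2522) (.e (nat_lit 204855) (nat_lit 26) (.e (nat_lit 336176) (nat_lit 10) (.e (nat_lit 344127) (nat_lit 26) (.e (nat_lit 557090) (nat_lit 12) (.e (nat_lit 164020) (nat_lit 45) .nil))))) (.g (nat_lit 0) (.e (nat_lit 228009) (nat_lit 0) .nil) .nil))) 
(.lf (nat_lit 523189) (.g (nat_lit 3728) (.e (nat_lit 204862) (nat_lit 27) (.e (nat_lit 344129) (nat_lit 26) (.e (nat_lit 557103) (nat_lit 14) (.e (nat_lit 180250) (nat_lit 10) (.e (nat_lit 573474) (nat_lit 12) (.e (nat_lit 57508) (nat_lit 39) (.e (nat_lit 655104) (nat_lit 0) (.e (nat_lit 2684) (nat_lit 168) .nil)))))))) (.g (nat_lit 1) (.e (nat_lit 229261) (nat_lit 0) .nil) .nil)))))) 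
(.nd (nat_lit 7) (.nd (nat_lit 8) (.nd (nat_lit 9) 
(.lf (nat_lit 522357) (.g (nat_lit 2042) (.e (nat_lit 204852) (nat_lit 26) (.e (nat_lit 336324) (nat_lit 18) (.e (nat_lit 204880) (nat_lit 32) (.e (nat_lit 385057) (nat_lit 22) (.e (nat_lit 499966) (nat_lit 14) .nil))))) (.g (nat_lit 0) (.e (nat_lit 227062) (nat_lit 0) .nil) .nil))) 
(.lf (nat_lit 522869) (.g (nat_lit 3001) (.e (nat_lit 204861) (nat_lit 26) (.e (nat_lit 336076) (nat_lit 9) (.e (nat_lit 336324) (nat_lit 18) (.e (nat_lit 204838) (nat_lit 20) (.e (nat_lit 114697) (nat_lit 11) (.e (nat_lit 426138) (nat_lit 3) .nil)))))) (.g (nat_lit 1) (.e (nat_lit 228730) (nat_lit 0) .nil) .nil)))) (.nd (nat_lit 9) 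
(.lf (nat_lit 522613) (.g (nat_lit 4010) (.e (nat_lit 204854) (nat_lit 26) (.e (nat_lit 336326) (nat_lit 18) (.e (nat_lit 204882) (nat_lit 32) (.e (nat_lit 385066) (nat_lit 26) (.e (nat_lit 532530) (nat_lit 9) (.e (nat_lit 336324) (nat_lit 18) .nil)))))) (.g (nat_lit 1) (.e (nat_lit 227790) (nat_lit 0) .nil) .nil))) 
(.lf (nat_lit 523125) (.g (nat_lit 1879) (.e (nat_lit 204862) (nat_lit 27) (.e (nat_lit 344117) (nat_lit 21) (.e (nat_lit 516131) (nat_lit 3) (.e (nat_lit 221211) (nat_lit 22) .nil)))) (.g (nat_lit 0) (.e (nat_lit 229170) (nat_lit 0) .nil) .nil))))) (.nd (nat_lit 8) (.nd (nat_lit 9) 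
(.lf (nat_lit 522485) (.g (nat_lit 4453) (.e (nat_lit 204853) (nat_lit 26) (.e (nat_lit 336324) (nat_lit 18) (.e (nat_lit 204831) (nat_lit 18) (.e (nat_lit 57854) (nat_lit 252) (.e (nat_lit 57378) (nat_lit 3) .nil))))) (.g (nat_lit 0) (.e (nat_lit 227427) (nat_lit 0) .nil) .nil))) 
(.lf (nat_lit 522997) (.g (nat_lit 3169) (.e (nat_lit 204861) (nat_lit 26) (.e (nat_lit 336203) (nat_lit 12) (.e (nat_lit 385073) (nat_lit 31) (.e (nat_lit 573482) (nat_lit 13) (.e (nat_lit 65628) (nat_lit 14) (.e (nat_lit 401428) (nat_lit 3) .nil)))))) (.g (nat_lit 1) (.e (nat_lit 228958) (nat_lit 0) .nil) .nil)))) (.nd (nat_lit 9) 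
(.lf (nat_lit 522741) (.g (nat_lit 2083) (.e (nat_lit 204856) (nat_lit 26) (.e (nat_lit 336178) (nat_lit 10) (.e (nat_lit 344117) (nat_lit 21) (.e (nat_lit 516139) (nat_lit 7) (.e (nat_lit 409645) (nat_lit 18) (.e (nat_lit 303119) (nat_lit 3) .nil)))))) (.g (nat_lit 1) (.e (nat_lit 228412) (nat_lit 0) .nil) .nil))) 
(.lf (nat_lit 523253) (.g (nat_lit 3311) (.e (nat_lit 204862) (nat_lit 27) (.e (nat_lit 344130) (nat_lit 26) (.e (nat_lit 557103) (nat_lit 14) (.e (nat_lit 180250) (nat_lit 10) (.e (nat_lit 573474) (nat_lit 12) (.e (nat_lit 57507) (nat_lit 39) (.e (nat_lit 647170) (nat_lit 0) (.e (nat_lit 2685) (nat_lit 168) .nil)))))))) (.g (nat_lit 1) (.e (nat_lit 229326) (nat_lit 0) .nil) .nil))))))))) 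
(.nd (nat_lit 4) (.nd (nat_lit 5) (.nd (nat_lit 6) (.nd (nat_lit 7) (.nd (nat_lit 8) 
(.nd (nat_lit 9) 
(.lf (nat_lit 522253) (.g (nat_lit 1885) (.e (nat_lit 204850) (nat_lit 26) (.e (nat_lit 336164) (nat_lit 10) (.e (nat_lit 344117) (nat_lit 21) (.e (nat_lit 516099) (nat_lit 0) .nil)))) (.g (nat_lit 0) (.e (nat_lit 226752) (nat_lit 0) .nil) .nil))) 
(.lf (nat_lit 522765) (.g (nat_lit 1556) (.e (nat_lit 204859) (nat_lit 26) (.e (nat_lit 336206) (nat_lit 12) (.e (nat_lit 385066) (nat_lit 26) (.e (nat_lit 532513) (nat_lit 3) (.e (nat_lit 122624) (nat_lit 11) .nil))))) (.g (nat_lit 0) (.e (nat_lit 228465) (nat_lit 0) .nil) .nil)))) (.nd (nat_lit 9) 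
(.lf (nat_lit 522509) (.g (nat_lit 1804) (.e (nat_lit 204853) (nat_lit 26) (.e (nat_lit 336324) (nat_lit 18) (.e (nat_lit 204880) (nat_lit 32) (.e (nat_lit 385066) (nat_lit 26) (.e (nat_lit 532533) (nat_lit 9) (.e (nat_lit 336324) (nat_lit 18) .nil)))))) (.g (nat_lit 1) (.e (nat_lit 227453) (nat_lit 0) .nil) .nil))) 
(.lf (nat_lit 523021) (.g (nat_lit 595) (.e (nat_lit 204861) (nat_lit 26) (.e (nat_lit 336215) (nat_lit 13) (.e (nat_lit 393227) (nat_lit 9) .nil))) (.g (nat_lit 0) (.e (nat_lit 229003) (nat_lit 0) .nil) .nil))))) (.nd (nat_lit 8) (.nd (nat_lit 9) 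
(.lf (nat_lit 522381) (.g (nat_lit 2985) (.e (nat_lit 204852) (nat_lit 26) (.e (nat_lit 336324) (nat_lit 18) (.e (nat_lit 204882) (nat_lit 32) (.e (nat_lit 385066) (nat_lit 26) (.e (nat_lit 532534) (nat_lit 9) (.e (nat_lit 336322) (nat_lit 18) .nil)))))) (.g (nat_lit 1) (.e (nat_lit 227093) (nat_lit 0) .nil) .nil))) 
(.lf (nat_lit 522893) (.g (nat_lit 2107) (.e (nat_lit 204861) (nat_lit 26) (.e (nat_lit 336078) (nat_lit 9) (.e (nat_lit 336324) (nat_lit 18) (.e (nat_lit 204837) (nat_lit 20) (.e (nat_lit 114694) (nat_lit 11) .nil))))) (.g (nat_lit 0) (.e (nat_lit 228772) (nat_lit 0) .nil) .nil)))) (.nd (nat_lit 9) 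
(.lf (nat_lit 522637) (.g (nat_lit 2831) (.e (nat_lit 204855) (nat_lit 26) (.e (nat_lit 336099) (nat_lit 9) (.e (nat_lit 336013) (nat_lit 2) (.e (nat_lit 90165) (nat_lit 12) (.e (nat_lit 164208) (nat_lit 176) (.e (nat_lit 7936) (nat_lit 180) (.e (nat_lit 303118) (nat_lit 3) .nil))))))) (.g (nat_lit 1) (.e (nat_lit 227895) (nat_lit 0) .nil) .nil))) 
(.lf (nat_lit 523149) (.g (nat_lit 2645) (.e (nat_lit 204862) (nat_lit 27) (.e (nat_lit 344129) (nat_lit 26) (.e (nat_lit 557096) (nat_lit 13) (.e (nat_lit 172067) (nat_lit 3) (.e (nat_lit 204830) (nat_lit 18) .nil))))) (.g (nat_lit 0) (.e (nat_lit 229220) (nat_lit 0) .nil) .nil)))))) (.nd (nat_lit 7) (.nd (nat_lit 8) (.nd (nat_lit 9) 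
(.lf (nat_lit 522317) (.g (nat_lit 2153) (.e (nat_lit 204852) (nat_lit 26) (.e (nat_lit 336310) (nat_lit 16) (.e (nat_lit 164183) (nat_lit 154) (.e (nat_lit 57378) (nat_lit 3) (.e (nat_lit 98335) (nat_lit 18) (.e (nat_lit 164305) (nat_lit 226) (.e (nat_lit 2725) (nat_lit 172) (.e (nat_lit 237592) (nat_lit 3) .nil)))))))) (.g (nat_lit 1) (.e (nat_lit 226939) (nat_lit 0) .nil) .nil))) 
(.lf (nat_lit 522829) (.g (nat_lit 2003) (.e (nat_lit 204861) (nat_lit 26) (.e (nat_lit 336027) (nat_lit 3) (.e (nat_lit 98335) (nat_lit 18) (.e (nat_lit 164182) (nat_lit 154) .nil)))) (.g (nat_lit 0) (.e (nat_lit 228662) (nat_lit 0) .nil) .nil)))) (.nd (nat_lit 9) 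
(.lf (nat_lit 522573) (.g (nat_lit 4535) (.e (nat_lit 204854) (nat_lit 26) (.e (nat_lit 336324) (nat_lit 18) (.e (nat_lit 204831) (nat_lit 18) (.e (nat_lit 57854) (nat_lit 252) .nil)))) (.g (nat_lit 0) (.e (nat_lit 227694) (nat_lit 0) .nil) .nil))) 
(.lf (nat_lit 523085) (.g (nat_lit 4028) (.e (nat_lit 204862) (nat_lit 27) (.e (nat_lit 344117) (nat_lit 21) (.e (nat_lit 516116) (nat_lit 1) (.e (nat_lit 164183) (nat_lit 154) (.e (nat_lit 57373) (nat_lit 2) (.e (nat_lit 90181) (nat_lit 16) (.e (nat_lit 229472) (nat_lit 57) (.e (nat_lit 794673) (nat_lit 23) .nil)))))))) (.g (nat_lit 1) (.e (nat_lit 229124) (nat_lit 0) .nil) .nil))))) 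
(.nd (nat_lit 8) (.nd (nat_lit 9) 
(.lf (nat_lit 522445) (.g (nat_lit 3084) (.e (nat_lit 204852) (nat_lit 26) (.e (nat_lit 336326) (nat_lit 18) (.e (nat_lit 204882) (nat_lit 32) (.e (nat_lit 385066) (nat_lit 26) (.e (nat_lit 532531) (nat_lit 9) (.e (nat_lit 336324) (nat_lit 18) .nil)))))) (.g (nat_lit 1) (.e (nat_lit 227309) (nat_lit 0) .nil) .nil))) 
(.lf (nat_lit 522957) (.g (nat_lit 2708) (.e (nat_lit 204861) (nat_lit 26) (.e (nat_lit 336194) (nat_lit 12) (.e (nat_lit 385066) (nat_lit 26) (.e (nat_lit 532513) (nat_lit 3) (.e (nat_lit 114697) (nat_lit 11) (.e (nat_lit 426138) (nat_lit 3) .nil)))))) (.g (nat_lit 1) (.e (nat_lit 228879) (nat_lit 0) .nil) .nil)))) (.nd (nat_lit 9) 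
(.lf (nat_lit 522701) (.g (nat_lit 1195) (.e (nat_lit 204855) (nat_lit 26) (.e (nat_lit 336176) (nat_lit 10) (.e (nat_lit 344132) (nat_lit 26) (.e (nat_lit 557091) (nat_lit 12) .nil)))) (.g (nat_lit 0) (.e (nat_lit 228204) (nat_lit 0) .nil) .nil))) 
(.lf (nat_lit 523213) (.g (nat_lit 4283) (.e (nat_lit 204862) (nat_lit 27) (.e (nat_lit 344129) (nat_lit 26) (.e (nat_lit 557104) (nat_lit 14) (.e (nat_lit 180252) (nat_lit 10) (.e (nat_lit 573474) (nat_lit 12) (.e (nat_lit 57505) (nat_lit 39) (.e (nat_lit 655104) (nat_lit 0) (.e (nat_lit 2684) (nat_lit 168) .nil)))))))) (.g (nat_lit 1) (.e (nat_lit 229286) (nat_lit 0) .nil) .nil))))))) 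
(.nd (nat_lit 6) (.nd (nat_lit 7) (.nd (nat_lit 8) (.nd (nat_lit 9) 
(.lf (nat_lit 522285) (.g (nat_lit 1758) (.e (nat_lit 204851) (nat_lit 26) (.e (nat_lit 336019) (nat_lit 3) (.e (nat_lit 98342) (nat_lit 20) (.e (nat_lit 221212) (nat_lit 22) .nil)))) (.g (nat_lit 0) (.e (nat_lit 226817) (nat_lit 0) .nil) .nil))) 
(.lf (nat_lit 522797) (.g (nat_lit 644) (.e (nat_lit 204861) (nat_lit 26) (.e (nat_lit 335988) (nat_lit 1) (.e (nat_lit 65280) (nat_lit 241) .nil))) (.g (nat_lit 0) (.e (nat_lit 228529) (nat_lit 0) .nil) .nil)))) (.nd (nat_lit 9) 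
(.lf (nat_lit 522541) (.g (nat_lit 481) (.e (nat_lit 204854) (nat_lit 26) (.e (nat_lit 336019) (nat_lit 3) (.e (nat_lit 98342) (nat_lit 20) .nil))) (.g (nat_lit 0) (.e (nat_lit 227593) (nat_lit 0) .nil) .nil))) 
(.lf (nat_lit 523053) (.g (nat_lit 2374) (.e (nat_lit 204862) (nat_lit 27) (.e (nat_lit 344117) (nat_lit 21) (.e (nat_lit 516115) (nat_lit 1) (.e (nat_lit 164179) (nat_lit 154) (.e (nat_lit 57371) (nat_lit 2) (.e (nat_lit 90181) (nat_lit 16) (.e (nat_lit 229472) (nat_lit 57) (.e (nat_lit 794673) (nat_lit 23) .nil)))))))) (.g (nat_lit 1) (.e (nat_lit 229071) (nat_lit 0) .nil) .nil))))) 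
(.nd (nat_lit 8) (.nd (nat_lit 9) 
(.lf (nat_lit 522413) (.g (nat_lit 1617) (.e (nat_lit 204852) (nat_lit 26) (.e (nat_lit 336326) (nat_lit 18) (.e (nat_lit 204854) (nat_lit 26) (.e (nat_lit 336320) (nat_lit 17) .nil)))) (.g (nat_lit 0) (.e (nat_lit 227229) (nat_lit 0) .nil) .nil))) 
(.lf (nat_lit 522925) (.g (nat_lit 2056) (.e (nat_lit 204861) (nat_lit 26) (.e (nat_lit 336186) (nat_lit 11) (.e (nat_lit 368676) (nat_lit 21) (.e (nat_lit 516169) (nat_lit 13) (.e (nat_lit 458774) (nat_lit 18) (.e (nat_lit 5935) (nat_lit 322) (.e (nat_lit 65280) (nat_lit 64) .nil))))))) (.g (nat_lit 1) (.e (nat_lit 228815) (nat_lit 0) .nil) .nil)))) (.nd (nat_lit 9) 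
(.lf (nat_lit 522669) (.g (nat_lit 3331) (.e (nat_lit 204855) (nat_lit 26) (.e (nat_lit 336176) (nat_lit 10) (.e (nat_lit 344117) (nat_lit 21) (.e (nat_lit 516139) (nat_lit 7) (.e (nat_lit 409644) (nat_lit 18) (.e (nat_lit 303118) (nat_lit 3) .nil)))))) (.g (nat_lit 1) (.e (nat_lit 227977) (nat_lit 0) .nil) .nil))) 
(.lf (nat_lit 523181) (.g (nat_lit 3385) (.e (nat_lit 204862) (nat_lit 27) (.e (nat_lit 344129) (nat_lit 26) (.e (nat_lit 557103) (nat_lit 14) (.e (nat_lit 180250) (nat_lit 10) (.e (nat_lit 573473) (nat_lit 12) (.e (nat_lit 57506) (nat_lit 39) (.e (nat_lit 655104) (nat_lit 0) (.e (nat_lit 2684) (nat_lit 168) .nil)))))))) (.g (nat_lit 1) (.e (nat_lit 229253) (nat_lit 0) .nil) .nil)))))) 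
(.nd (nat_lit 7) (.nd (nat_lit 8) (.nd (nat_lit 9) 
(.lf (nat_lit 522349) (.g (nat_lit 1959) (.e (nat_lit 204852) (nat_lit 26) (.e (nat_lit 336324) (nat_lit 18) (.e (nat_lit 204852) (nat_lit 26) (.e (nat_lit 336316) (nat_lit 17) (.e (nat_lit 196630) (nat_lit 9) (.e (nat_lit 1424) (nat_lit 108) (.e (nat_lit 336322) (nat_lit 18) .nil))))))) (.g (nat_lit 1) (.e (nat_lit 227013) (nat_lit 0) .nil) .nil))) 
(.lf (nat_lit 522861) (.g (nat_lit 3208) (.e (nat_lit 204861) (nat_lit 26) (.e (nat_lit 336075) (nat_lit 9) (.e (nat_lit 336454) (nat_lit 34) (.e (nat_lit 483365) (nat_lit 18) (.e (nat_lit 57930) (nat_lit 282) (.e (nat_lit 163873) (nat_lit 3) .nil)))))) (.g (nat_lit 1) (.e (nat_lit 228709) (nat_lit 0) .nil) .nil)))) (.nd (nat_lit 9) 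
(.lf (nat_lit 522605) (.g (nat_lit 3713) (.e (nat_lit 204854) (nat_lit 26) (.e (nat_lit 336326) (nat_lit 18) (.e (nat_lit 204880) (nat_lit 32) (.e (nat_lit 385066) (nat_lit 26) (.e (nat_lit 532534) (nat_lit 9) (.e (nat_lit 336324) (nat_lit 18) .nil)))))) (.g (nat_lit 1) (.e (nat_lit 227782) (nat_lit 0) .nil) .nil))) 
(.lf (nat_lit 523117) (.g (nat_lit 1721) (.e (nat_lit 204862) (nat_lit 27) (.e (nat_lit 344117) (nat_lit 21) (.e (nat_lit 516130) (nat_lit 3) (.e (nat_lit 221212) (nat_lit 22) (.e (nat_lit 204544) (nat_lit 19) .nil))))) (.g (nat_lit 0) (.e (nat_lit 229162) (nat_lit 0) .nil) .nil))))) (.nd (nat_lit 8) (.nd (nat_lit 9) 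
(.lf (nat_lit 522477) (.g (nat_lit 3842) (.e (nat_lit 204853) (nat_lit 26) (.e (nat_lit 336324) (nat_lit 18) (.e (nat_lit 204831) (nat_lit 18) (.e (nat_lit 57849) (nat_lit 252) .nil)))) (.g (nat_lit 0) (.e (nat_lit 227419) (nat_lit 0) .nil) .nil))) 
(.lf (nat_lit 522989) (.g (nat_lit 1699) (.e (nat_lit 204861) (nat_lit 26) (.e (nat_lit 336195) (nat_lit 12) (.e (nat_lit 385066) (nat_lit 26) (.e (nat_lit 532481) (nat_lit 0) (.e (nat_lit 2044) (nat_lit 142) .nil))))) (.g (nat_lit 0) (.e (nat_lit 228946) (nat_lit 0) .nil) .nil)))) (.nd (nat_lit 9) 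
(.lf (nat_lit 522733) (.g (nat_lit 2600) (.e (nat_lit 204855) (nat_lit 26) (.e (nat_lit 336200) (nat_lit 12) (.e (nat_lit 385074) (nat_lit 31) (.e (nat_lit 573454) (nat_lit 9) (.e (nat_lit 968) (nat_lit 81) .nil))))) (.g (nat_lit 0) (.e (nat_lit 228358) (nat_lit 0) .nil) .nil))) 
(.lf (nat_lit 523245) (.g (nat_lit 1181) (.e (nat_lit 204862) (nat_lit 27) (.e (nat_lit 344130) (nat_lit 26) (.e (nat_lit 557097) (nat_lit 13) (.e (nat_lit 172131) (nat_lit 15) .nil)))) (.g (nat_lit 0) (.e (nat_lit 229318) (nat_lit 0) .nil) .nil)))))))) (.nd (nat_lit 5) (.nd (nat_lit 6) (.nd (nat_lit 7) (.nd (nat_lit 8) (.nd (nat_lit 9) 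
(.lf (nat_lit 522269) (.g (nat_lit 4129) (.e (nat_lit 204850) (nat_lit 26) (.e (nat_lit 336324) (nat_lit 18) (.e (nat_lit 204831) (nat_lit 18) (.e (nat_lit 57846) (nat_lit 252) .nil)))) (.g (nat_lit 0) (.e (nat_lit 226777) (nat_lit 0) .nil) .nil))) 
(.lf (nat_lit 522781) (.g (nat_lit 2697) (.e (nat_lit 204859) (nat_lit 26) (.e (nat_lit 336235) (nat_lit 14) (.e (nat_lit 401425) (nat_lit 2) (.e (nat_lit 196666) (nat_lit 13) (.e (nat_lit 65630) (nat_lit 14) (.e (nat_lit 401428) (nat_lit 3) .nil)))))) (.g (nat_lit 1) (.e (nat_lit 228495) (nat_lit 0) .nil) .nil)))) (.nd (nat_lit 9) 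
(.lf (nat_lit 522525) (.g (nat_lit 2493) (.e (nat_lit 204853) (nat_lit 26) (.e (nat_lit 336334) (nat_lit 20) (.e (nat_lit 221212) (nat_lit 22) (.e (nat_lit 196654) (nat_lit 11) (.e (nat_lit 16436) (nat_lit 9) (.e (nat_lit 426131) (nat_lit 3) .nil)))))) (.g (nat_lit 1) (.e (nat_lit 227489) (nat_lit 0) .nil) .nil))) 
(.lf (nat_lit 523037) (.g (nat_lit 2701) (.e (nat_lit 212736) (nat_lit 26) (.e (nat_lit 336099) (nat_lit 9) (.e (nat_lit 336013) (nat_lit 2) (.e (nat_lit 90121) (nat_lit 9) .nil)))) (.g (nat_lit 0) (.e (nat_lit 229030) (nat_lit 0) .nil) .nil))))) (.nd (nat_lit 8) (.nd (nat_lit 9) 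
(.lf (nat_lit 522397) (.g (nat_lit 2168) (.e (nat_lit 204852) (nat_lit 26) (.e (nat_lit 336326) (nat_lit 18) (.e (nat_lit 204831) (nat_lit 18) (.e (nat_lit 57847) (nat_lit 252) (.e (nat_lit 57379) (nat_lit 3) (.e (nat_lit 98338) (nat_lit 19) (.e (nat_lit 213013) (nat_lit 9) (.e (nat_lit 2684) (nat_lit 168) .nil)))))))) (.g (nat_lit 1) (.e (nat_lit 227129) (nat_lit 0) .nil) .nil))) 
(.lf (nat_lit 522909) (.g (nat_lit 1253) (.e (nat_lit 204861) (nat_lit 26) (.e (nat_lit 336088) (nat_lit 9) (.e (nat_lit 336324) (nat_lit 18) (.e (nat_lit 204838) (nat_lit 20) .nil)))) (.g (nat_lit 0) (.e (nat_lit 228789) (nat_lit 0) .nil) .nil)))) (.nd (nat_lit 9) 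
(.lf (nat_lit 522653) (.g (nat_lit 2872) (.e (nat_lit 204855) (nat_lit 26) (.e (nat_lit 336163) (nat_lit 10) (.e (nat_lit 344117) (nat_lit 21) (.e (nat_lit 516138) (nat_lit 7) (.e (nat_lit 409645) (nat_lit 18) (.e (nat_lit 303119) (nat_lit 3) .nil)))))) (.g (nat_lit 1) (.e (nat_lit 227947) (nat_lit 0) .nil) .nil))) 
(.lf (nat_lit 523165) (.g (nat_lit 1802) (.e (nat_lit 204862) (nat_lit 27) (.e (nat_lit 344129) (nat_lit 26) (.e (nat_lit 557097) (nat_lit 13) (.e (nat_lit 172127) (nat_lit 15) .nil)))) (.g (nat_lit 0) (.e (nat_lit 229236) (nat_lit 0) .nil) .nil)))))) (.nd (nat_lit 7) (.nd (nat_lit 8) (.nd (nat_lit 9) 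
(.lf (nat_lit 522333) (.g (nat_lit 3635) (.e (nat_lit 204852) (nat_lit 26) (.e (nat_lit 336324) (nat_lit 18) (.e (nat_lit 204831) (nat_lit 18) (.e (nat_lit 57848) (nat_lit 252) .nil)))) (.g (nat_lit 0) (.e (nat_lit 226987) (nat_lit 0) .nil) .nil))) 
(.lf (nat_lit 522845) (.g (nat_lit 3459) (.e (nat_lit 204861) (nat_lit 26) (.e (nat_lit 336075) (nat_lit 9) (.e (nat_lit 336366) (nat_lit 27) (.e (nat_lit 426499) (nat_lit 27) (.e (nat_lit 335986) (nat_lit 1) (.e (nat_lit 57927) (nat_lit 282) (.e (nat_lit 163874) (nat_lit 3) .nil))))))) (.g (nat_lit 1) (.e (nat_lit 228685) (nat_lit 0) .nil) .nil)))) (.nd (nat_lit 9) 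
(.lf (nat_lit 522589) (.g (nat_lit 2326) (.e (nat_lit 204854) (nat_lit 26) (.e (nat_lit 336324) (nat_lit 18) (.e (nat_lit 204882) (nat_lit 32) (.e (nat_lit 385068) (nat_lit 26) (.e (nat_lit 532533) (nat_lit 9) .nil))))) (.g (nat_lit 0) (.e (nat_lit 227728) (nat_lit 0) .nil) .nil))) 
(.lf (nat_lit 523101) (.g (nat_lit 1456) (.e (nat_lit 204862) (nat_lit 27) (.e (nat_lit 344117) (nat_lit 21) (.e (nat_lit 516122) (nat_lit 2) (.e (nat_lit 213053) (nat_lit 17) .nil)))) (.g (nat_lit 0) (.e (nat_lit 229146) (nat_lit 0) .nil) .nil))))) (.nd (nat_lit 8) (.nd (nat_lit 9) 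
(.lf (nat_lit 522461) (.g (nat_lit 424) (.e (nat_lit 204852) (nat_lit 26) (.e (nat_lit 336336) (nat_lit 20) (.e (nat_lit 221211) (nat_lit 22) .nil))) (.g (nat_lit 0) (.e (nat_lit 227375) (nat_lit 0) .nil) .nil))) 
(.lf (nat_lit 522973) (.g (nat_lit 2926) (.e (nat_lit 204861) (nat_lit 26) (.e (nat_lit 336194) (nat_lit 12) (.e (nat_lit 385068) (nat_lit 26) (.e (nat_lit 532513) (nat_lit 3) (.e (nat_lit 114697) (nat_lit 11) (.e (nat_lit 426137) (nat_lit 3) .nil)))))) (.g (nat_lit 1) (.e (nat_lit 228913) (nat_lit 0) .nil) .nil)))) (.nd (nat_lit 9) 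
(.lf (nat_lit 522717) (.g (nat_lit 3360) (.e (nat_lit 204855) (nat_lit 26) (.e (nat_lit 336176) (nat_lit 10) (.e (nat_lit 344133) (nat_lit 26) (.e (nat_lit 557091) (nat_lit 12) (.e (nat_lit 164017) (nat_lit 44) (.e (nat_lit 688138) (nat_lit 5) (.e (nat_lit 2887) (nat_lit 184) (.e (nat_lit 426132) (nat_lit 3) .nil)))))))) (.g (nat_lit 1) (.e (nat_lit 228304) (nat_lit 0) .nil) .nil))) 
(.lf (nat_lit 523229) (.g (nat_lit 1583) (.e (nat_lit 204862) (nat_lit 27) (.e (nat_lit 344129) (nat_lit 26) (.e (nat_lit 557105) (nat_lit 14) (.e (nat_lit 180251) (nat_lit 10) .nil)))) (.g (nat_lit 0) (.e (nat_lit 229302) (nat_lit 0) .nil) .nil))))))) (.nd (nat_lit 6) (.nd (nat_lit 7) (.nd (nat_lit 8) (.nd (nat_lit 9) 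
(.lf (nat_lit 522301) (.g (nat_lit 2644) (.e (nat_lit 204851) (nat_lit 26) (.e (nat_lit 336324) (nat_lit 18) (.e (nat_lit 204882) (nat_lit 32) (.e (nat_lit 385066) (nat_lit 26) (.e (nat_lit 532529) (nat_lit 9) (.e (nat_lit 336326) (nat_lit 18) .nil)))))) (.g (nat_lit 1) (.e (nat_lit 226846) (nat_lit 0) .nil) .nil))) 
(.lf (nat_lit 522813) (.g (nat_lit 4069) (.e (nat_lit 204861) (nat_lit 26) (.e (nat_lit 336004) (nat_lit 2) (.e (nat_lit 90158) (nat_lit 11) (.e (nat_lit 24608) (nat_lit 3) (.e (nat_lit 98334) (nat_lit 18) (.e (nat_lit 164183) (nat_lit 154) (.e (nat_lit 65280) (nat_lit 64) .nil))))))) (.g (nat_lit 1) (.e (nat_lit 228612) (nat_lit 0) .nil) .nil)))) (.nd (nat_lit 9) 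
(.lf (nat_lit 522557) (.g (nat_lit 3260) (.e (nat_lit 204854) (nat_lit 26) (.e (nat_lit 336208) (nat_lit 12) (.e (nat_lit 385074) (nat_lit 31) (.e (nat_lit 573480) (nat_lit 13) (.e (nat_lit 65630) (nat_lit 14) (.e (nat_lit 401428) (nat_lit 3) .nil)))))) (.g (nat_lit 1) (.e (nat_lit 227644) (nat_lit 0) .nil) .nil))) 
(.lf (nat_lit 523069) (.g (nat_lit 583) (.e (nat_lit 204862) (nat_lit 27) (.e (nat_lit 344117) (nat_lit 21) (.e (nat_lit 516116) (nat_lit 1) .nil))) (.g (nat_lit 0) (.e (nat_lit 229099) (nat_lit 0) .nil) .nil))))) (.nd (nat_lit 8) (.nd (nat_lit 9) 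
(.lf (nat_lit 522429) (.g (nat_lit 3234) (.e (nat_lit 204852) (nat_lit 26) (.e (nat_lit 336326) (nat_lit 18) (.e (nat_lit 204880) (nat_lit 32) (.e (nat_lit 385068) (nat_lit 26) (.e (nat_lit 532530) (nat_lit 9) (.e (nat_lit 336325) (nat_lit 18) .nil)))))) (.g (nat_lit 1) (.e (nat_lit 227284) (nat_lit 0) .nil) .nil))) 
(.lf (nat_lit 522941) (.g (nat_lit 2228) (.e (nat_lit 204861) (nat_lit 26) (.e (nat_lit 336186) (nat_lit 11) (.e (nat_lit 368676) (nat_lit 21) (.e (nat_lit 516171) (nat_lit 13) (.e (nat_lit 458774) (nat_lit 18) (.e (nat_lit 5951) (nat_lit 322) (.e (nat_lit 65280) (nat_lit 64) .nil))))))) (.g (nat_lit 1) (.e (nat_lit 228841) (nat_lit 0) .nil) .nil)))) (.nd (nat_lit 9) 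
(.lf (nat_lit 522685) (.g (nat_lit 1044) (.e (nat_lit 204855) (nat_lit 26) (.e (nat_lit 336176) (nat_lit 10) (.e (nat_lit 344130) (nat_lit 26) (.e (nat_lit 557089) (nat_lit 12) .nil)))) (.g (nat_lit 0) (.e (nat_lit 228084) (nat_lit 0) .nil) .nil))) 
(.lf (nat_lit 523197) (.g (nat_lit 4128) (.e (nat_lit 204862) (nat_lit 27) (.e (nat_lit 344129) (nat_lit 26) (.e (nat_lit 557103) (nat_lit 14) (.e (nat_lit 180250) (nat_lit 10) (.e (nat_lit 573475) (nat_lit 12) (.e (nat_lit 57508) (nat_lit 39) (.e (nat_lit 647175) (nat_lit 0) (.e (nat_lit 2684) (nat_lit 168) .nil)))))))) (.g (nat_lit 1) (.e (nat_lit 229269) (nat_lit 0) .nil) .nil)))))) 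
(.nd (nat_lit 7) (.nd (nat_lit 8) (.nd (nat_lit 9) 
(.lf (nat_lit 522365) (.g (nat_lit 3530) (.e (nat_lit 204852) (nat_lit 26) (.e (nat_lit 336324) (nat_lit 18) (.e (nat_lit 204880) (nat_lit 32) (.e (nat_lit 385066) (nat_lit 26) (.e (nat_lit 532534) (nat_lit 9) (.e (nat_lit 336325) (nat_lit 18) .nil)))))) (.g (nat_lit 1) (.e (nat_lit 227070) (nat_lit 0) .nil) .nil))) 
(.lf (nat_lit 522877) (.g (nat_lit 2685) (.e (nat_lit 204861) (nat_lit 26) (.e (nat_lit 336076) (nat_lit 9) (.e (nat_lit 336368) (nat_lit 27) (.e (nat_lit 426499) (nat_lit 27) (.e (nat_lit 335986) (nat_lit 1) (.e (nat_lit 57927) (nat_lit 282) (.e (nat_lit 163874) (nat_lit 3) .nil))))))) (.g (nat_lit 1) (.e (nat_lit 228739) (nat_lit 0) .nil) .nil)))) (.nd (nat_lit 9) 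
(.lf (nat_lit 522621) (.g (nat_lit 3200) (.e (nat_lit 204854) (nat_lit 26) (.e (nat_lit 336334) (nat_lit 20) (.e (nat_lit 221212) (nat_lit 22) (.e (nat_lit 196654) (nat_lit 11) (.e (nat_lit 16436) (nat_lit 9) (.e (nat_lit 426131) (nat_lit 3) .nil)))))) (.g (nat_lit 1) (.e (nat_lit 227800) (nat_lit 0) .nil) .nil))) 
(.lf (nat_lit 523133) (.g (nat_lit 2678) (.e (nat_lit 204862) (nat_lit 27) (.e (nat_lit 344117) (nat_lit 21) (.e (nat_lit 516195) (nat_lit 26) (.e (nat_lit 336027) (nat_lit 3) (.e (nat_lit 98322) (nat_lit 17) .nil))))) (.g (nat_lit 0) (.e (nat_lit 229191) (nat_lit 0) .nil) .nil))))) (.nd (nat_lit 8) (.nd (nat_lit 9) 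
(.lf (nat_lit 522493) (.g (nat_lit 1561) (.e (nat_lit 204853) (nat_lit 26) (.e (nat_lit 336324) (nat_lit 18) (.e (nat_lit 204852) (nat_lit 26) (.e (nat_lit 336326) (nat_lit 18) (.e (nat_lit 204850) (nat_lit 26) .nil))))) (.g (nat_lit 0) (.e (nat_lit 227435) (nat_lit 0) .nil) .nil))) 
(.lf (nat_lit 523005) (.g (nat_lit 2312) (.e (nat_lit 204861) (nat_lit 26) (.e (nat_lit 336213) (nat_lit 13) (.e (nat_lit 393221) (nat_lit 0) (.e (nat_lit 6209) (nat_lit 333) (.e (nat_lit 57883) (nat_lit 270) (.e (nat_lit 174) (nat_lit 12) .nil)))))) (.g (nat_lit 1) (.e (nat_lit 228976) (nat_lit 0) .nil) .nil)))) (.nd (nat_lit 9) 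
(.lf (nat_lit 522749) (.g (nat_lit 2060) (.e (nat_lit 204858) (nat_lit 26) (.e (nat_lit 336178) (nat_lit 10) (.e (nat_lit 344117) (nat_lit 21) (.e (nat_lit 516139) (nat_lit 7) (.e (nat_lit 409645) (nat_lit 18) (.e (nat_lit 303119) (nat_lit 3) .nil)))))) (.g (nat_lit 1) (.e (nat_lit 228428) (nat_lit 0) .nil) .nil))) 
(.lf (nat_lit 523261) (.g (nat_lit 2336) (.e (nat_lit 204862) (nat_lit 27) (.e (nat_lit 344130) (nat_lit 26) (.e (nat_lit 557103) (nat_lit 14) (.e (nat_lit 180250) (nat_lit 10) (.e (nat_lit 573476) (nat_lit 12) .nil))))) (.g (nat_lit 0) (.e (nat_lit 229334) (nat_lit 0) .nil) .nil))))))))))) 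
(.nd (nat_lit 2) (.nd (nat_lit 3) (.nd (nat_lit 4) (.nd (nat_lit 5) (.nd (nat_lit 6) 
(.nd (nat_lit 7) (.nd (nat_lit 8) (.nd (nat_lit 9) 
(.lf (nat_lit 522243) (.g (nat_lit 1526) (.e (nat_lit 204850) (nat_lit 26) (.e (nat_lit 336019) (nat_lit 3) (.e (nat_lit 98342) (nat_lit 20) (.e (nat_lit 221215) (nat_lit 23) .nil)))) (.g (nat_lit 0) (.e (nat_lit 226733) (nat_lit 0) .nil) .nil))) 
(.lf (nat_lit 522755) (.g (nat_lit 1957) (.e (nat_lit 204859) (nat_lit 26) (.e (nat_lit 336017) (nat_lit 3) (.e (nat_lit 98335) (nat_lit 18) (.e (nat_lit 164183) (nat_lit 154) (.e (nat_lit 57379) (nat_lit 3) .nil))))) (.g (nat_lit 0) (.e (nat_lit 228445) (nat_lit 0) .nil) .nil)))) (.nd (nat_lit 9) 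
(.lf (nat_lit 522499) (.g (nat_lit 2381) (.e (nat_lit 204853) (nat_lit 26) (.e (nat_lit 336324) (nat_lit 18) (.e (nat_lit 204854) (nat_lit 26) (.e (nat_lit 336316) (nat_lit 17) (.e (nat_lit 196681) (nat_lit 17) (.e (nat_lit 139008) (nat_lit 18) .nil)))))) (.g (nat_lit 1) (.e (nat_lit 227442) (nat_lit 0) .nil) .nil))) 
(.lf (nat_lit 523011) (.g (nat_lit 2263) (.e (nat_lit 204861) (nat_lit 26) (.e (nat_lit 336213) (nat_lit 13) (.e (nat_lit 393225) (nat_lit 9) (.e (nat_lit 335895) (nat_lit 0) (.e (nat_lit 1095) (nat_lit 81) .nil))))) (.g (nat_lit 0) (.e (nat_lit 228983) (nat_lit 0) .nil) .nil))))) (.nd (nat_lit 8) (.nd (nat_lit 9) 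
(.lf (nat_lit 522371) (.g (nat_lit 3260) (.e (nat_lit 204852) (nat_lit 26) (.e (nat_lit 336324) (nat_lit 18) (.e (nat_lit 204881) (nat_lit 32) (.e (nat_lit 385066) (nat_lit 26) (.e (nat_lit 532534) (nat_lit 9) (.e (nat_lit 336325) (nat_lit 18) .nil)))))) (.g (nat_lit 1) (.e (nat_lit 227076) (nat_lit 0) .nil) .nil))) 
(.lf (nat_lit 522883) (.g (nat_lit 3695) (.e (nat_lit 204861) (nat_lit 26) (.e (nat_lit 336076) (nat_lit 9) (.e (nat_lit 336454) (nat_lit 34) (.e (nat_lit 483364) (nat_lit 18) (.e (nat_lit 57931) (nat_lit 282) (.e (nat_lit 163873) (nat_lit 3) .nil)))))) (.g (nat_lit 1) (.e (nat_lit 228752) (nat_lit 0) .nil) .nil)))) (.nd (nat_lit 9) 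
(.lf (nat_lit 522627) (.g (nat_lit 2688) (.e (nat_lit 204855) (nat_lit 26) (.e (nat_lit 336099) (nat_lit 9) (.e (nat_lit 336013) (nat_lit 2) (.e (nat_lit 90161) (nat_lit 12) .nil)))) (.g (nat_lit 0) (.e (nat_lit 227885) (nat_lit 0) .nil) .nil))) 
(.lf (nat_lit 523139) (.g (nat_lit 2919) (.e (nat_lit 204862) (nat_lit 27) (.e (nat_lit 344118) (nat_lit 21) (.e (nat_lit 516120) (nat_lit 1) (.e (nat_lit 164183) (nat_lit 154) (.e (nat_lit 57375) (nat_lit 2) (.e (nat_lit 90181) (nat_lit 16) (.e (nat_lit 229472) (nat_lit 57) (.e (nat_lit 794673) (nat_lit 23) .nil)))))))) (.g (nat_lit 1) (.e (nat_lit 229200) (nat_lit 0) .nil) .nil)))))) 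
(.nd (nat_lit 7) (.nd (nat_lit 8) (.nd (nat_lit 9) 
(.lf (nat_lit 522307) (.g (nat_lit 547) (.e (nat_lit 204851) (nat_lit 26) (.e (nat_lit 336326) (nat_lit 18) (.e (nat_lit 204882) (nat_lit 32) .nil))) (.g (nat_lit 0) (.e (nat_lit 226859) (nat_lit 0) .nil) .nil))) 
(.lf (nat_lit 522819) (.g (nat_lit 2706) (.e (nat_lit 204861) (nat_lit 26) (.e (nat_lit 336021) (nat_lit 3) (.e (nat_lit 98334) (nat_lit 18) (.e (nat_lit 164182) (nat_lit 154) (.e (nat_lit 57379) (nat_lit 3) .nil))))) (.g (nat_lit 0) (.e (nat_lit 228641) (nat_lit 0) .nil) .nil)))) (.nd (nat_lit 9) 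
(.lf (nat_lit 522563) (.g (nat_lit 2198) (.e (nat_lit 204854) (nat_lit 26) (.e (nat_lit 336306) (nat_lit 15) (.e (nat_lit 3238) (nat_lit 197) (.e (nat_lit 532529) (nat_lit 9) (.e (nat_lit 336316) (nat_lit 17) (.e (nat_lit 196628) (nat_lit 9) (.e (nat_lit 1469) (nat_lit 108) (.e (nat_lit 336323) (nat_lit 18) .nil)))))))) (.g (nat_lit 1) (.e (nat_lit 227667) (nat_lit 0) .nil) .nil))) 
(.lf (nat_lit 523075) (.g (nat_lit 3969) (.e (nat_lit 204862) (nat_lit 27) (.e (nat_lit 344117) (nat_lit 21) (.e (nat_lit 516116) (nat_lit 1) (.e (nat_lit 164181) (nat_lit 154) (.e (nat_lit 57375) (nat_lit 2) (.e (nat_lit 90181) (nat_lit 16) (.e (nat_lit 229472) (nat_lit 57) (.e (nat_lit 794673) (nat_lit 23) .nil)))))))) (.g (nat_lit 1) (.e (nat_lit 229106) (nat_lit 0) .nil) .nil))))) 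
(.nd (nat_lit 8) (.nd (nat_lit 9) 
(.lf (nat_lit 522435) (.g (nat_lit 1542) (.e (nat_lit 204852) (nat_lit 26) (.e (nat_lit 336326) (nat_lit 18) (.e (nat_lit 204881) (nat_lit 32) (.e (nat_lit 385066) (nat_lit 26) (.e (nat_lit 532532) (nat_lit 9) (.e (nat_lit 336325) (nat_lit 18) .nil)))))) (.g (nat_lit 1) (.e (nat_lit 227290) (nat_lit 0) .nil) .nil))) 
(.lf (nat_lit 522947) (.g (nat_lit 1628) (.e (nat_lit 204861) (nat_lit 26) (.e (nat_lit 336194) (nat_lit 12) (.e (nat_lit 385064) (nat_lit 26) (.e (nat_lit 532513) (nat_lit 3) (.e (nat_lit 114698) (nat_lit 11) (.e (nat_lit 426138) (nat_lit 3) .nil)))))) (.g (nat_lit 1) (.e (nat_lit 228853) (nat_lit 0) .nil) .nil)))) (.nd (nat_lit 9) 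
(.lf (nat_lit 522691) (.g (nat_lit 2273) (.e (nat_lit 204855) (nat_lit 26) (.e (nat_lit 336176) (nat_lit 10) (.e (nat_lit 344130) (nat_lit 26) (.e (nat_lit 557090) (nat_lit 12) (.e (nat_lit 164017) (nat_lit 44) .nil))))) (.g (nat_lit 0) (.e (nat_lit 228165) (nat_lit 0) .nil) .nil))) 
(.lf (nat_lit 523203) (.g (nat_lit 2728) (.e (nat_lit 204862) (nat_lit 27) (.e (nat_lit 344129) (nat_lit 26) (.e (nat_lit 557103) (nat_lit 14) (.e (nat_lit 180250) (nat_lit 10) (.e (nat_lit 573478) (nat_lit 12) .nil))))) (.g (nat_lit 0) (.e (nat_lit 229275) (nat_lit 0) .nil) .nil))))))) (.nd (nat_lit 6) (.nd (nat_lit 7) (.nd (nat_lit 8) (.nd (nat_lit 9) 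
(.lf (nat_lit 522275) (.g (nat_lit 5190) (.e (nat_lit 204850) (nat_lit 26) (.e (nat_lit 336324) (nat_lit 18) (.e (nat_lit 204831) (nat_lit 18) (.e (nat_lit 57852) (nat_lit 252) (.e (nat_lit 57376) (nat_lit 3) .nil))))) (.g (nat_lit 0) (.e (nat_lit 226783) (nat_lit 0) .nil) .nil))) 
(.lf (nat_lit 522787) (.g (nat_lit 1134) (.e (nat_lit 204860) (nat_lit 26) (.e (nat_lit 336204) (nat_lit 12) (.e (nat_lit 385074) (nat_lit 31) (.e (nat_lit 573489) (nat_lit 14) .nil)))) (.g (nat_lit 0) (.e (nat_lit 228506) (nat_lit 0) .nil) .nil)))) (.nd (nat_lit 9) 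
(.lf (nat_lit 522531) (.g (nat_lit 432) (.e (nat_lit 204854) (nat_lit 26) (.e (nat_lit 336019) (nat_lit 3) (.e (nat_lit 98341) (nat_lit 20) .nil))) (.g (nat_lit 0) (.e (nat_lit 227575) (nat_lit 0) .nil) .nil))) 
(.lf (nat_lit 523043) (.g (nat_lit 895) (.e (nat_lit 212736) (nat_lit 26) (.e (nat_lit 336204) (nat_lit 12) (.e (nat_lit 385074) (nat_lit 31) (.e (nat_lit 573489) (nat_lit 14) .nil)))) (.g (nat_lit 0) (.e (nat_lit 229038) (nat_lit 0) .nil) .nil))))) (.nd (nat_lit 8) (.nd (nat_lit 9) 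
(.lf (nat_lit 522403) (.g (nat_lit 2643) (.e (nat_lit 204852) (nat_lit 26) (.e (nat_lit 336326) (nat_lit 18) (.e (nat_lit 204853) (nat_lit 26) (.e (nat_lit 336324) (nat_lit 18) (.e (nat_lit 204854) (nat_lit 26) (.e (nat_lit 336326) (nat_lit 18) .nil)))))) (.g (nat_lit 1) (.e (nat_lit 227194) (nat_lit 0) .nil) .nil))) 
(.lf (nat_lit 522915) (.g (nat_lit 1646) (.e (nat_lit 204861) (nat_lit 26) (.e (nat_lit 336186) (nat_lit 11) (.e (nat_lit 368676) (nat_lit 21) (.e (nat_lit 516097) (nat_lit 0) (.e (nat_lit 2430) (nat_lit 157) .nil))))) (.g (nat_lit 0) (.e (nat_lit 228797) (nat_lit 0) .nil) .nil)))) (.nd (nat_lit 9) 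
(.lf (nat_lit 522659) (.g (nat_lit 2592) (.e (nat_lit 204855) (nat_lit 26) (.e (nat_lit 336163) (nat_lit 10) (.e (nat_lit 344117) (nat_lit 21) (.e (nat_lit 516139) (nat_lit 7) (.e (nat_lit 417536) (nat_lit 18) .nil))))) (.g (nat_lit 0) (.e (nat_lit 227953) (nat_lit 0) .nil) .nil))) 
(.lf (nat_lit 523171) (.g (nat_lit 1730) (.e (nat_lit 204862) (nat_lit 27) (.e (nat_lit 344129) (nat_lit 26) (.e (nat_lit 557103) (nat_lit 14) (.e (nat_lit 188160) (nat_lit 1) .nil)))) (.g (nat_lit 0) (.e (nat_lit 229242) (nat_lit 0) .nil) .nil)))))) (.nd (nat_lit 7) (.nd (nat_lit 8) (.nd (nat_lit 9) 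
(.lf (nat_lit 522339) (.g (nat_lit 3228) (.e (nat_lit 204852) (nat_lit 26) (.e (nat_lit 336324) (nat_lit 18) (.e (nat_lit 204831) (nat_lit 18) (.e (nat_lit 57852) (nat_lit 252) (.e (nat_lit 57378) (nat_lit 3) (.e (nat_lit 98340) (nat_lit 20) (.e (nat_lit 221213) (nat_lit 23) .nil))))))) (.g (nat_lit 1) (.e (nat_lit 226997) (nat_lit 0) .nil) .nil))) 
(.lf (nat_lit 522851) (.g (nat_lit 1753) (.e (nat_lit 204861) (nat_lit 26) (.e (nat_lit 336075) (nat_lit 9) (.e (nat_lit 336452) (nat_lit 34) (.e (nat_lit 483363) (nat_lit 18) (.e (nat_lit 57926) (nat_lit 282) .nil))))) (.g (nat_lit 0) (.e (nat_lit 228694) (nat_lit 0) .nil) .nil)))) (.nd (nat_lit 9) 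
(.lf (nat_lit 522595) (.g (nat_lit 945) (.e (nat_lit 204854) (nat_lit 26) (.e (nat_lit 336326) (nat_lit 18) (.e (nat_lit 204854) (nat_lit 26) (.e (nat_lit 336316) (nat_lit 17) .nil)))) (.g (nat_lit 0) (.e (nat_lit 227758) (nat_lit 0) .nil) .nil))) 
(.lf (nat_lit 523107) (.g (nat_lit 2866) (.e (nat_lit 204862) (nat_lit 27) (.e (nat_lit 344117) (nat_lit 21) (.e (nat_lit 516129) (nat_lit 3) (.e (nat_lit 221210) (nat_lit 22) (.e (nat_lit 196658) (nat_lit 12) (.e (nat_lit 57511) (nat_lit 39) (.e (nat_lit 655104) (nat_lit 0) (.e (nat_lit 2684) (nat_lit 168) .nil)))))))) (.g (nat_lit 1) (.e (nat_lit 229152) (nat_lit 0) .nil) .nil))))) 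
(.nd (nat_lit 8) (.nd (nat_lit 9) 
(.lf (nat_lit 522467) (.g (nat_lit 1488) (.e (nat_lit 204853) (nat_lit 26) (.e (nat_lit 336019) (nat_lit 3) (.e (nat_lit 98341) (nat_lit 20) (.e (nat_lit 221215) (nat_lit 23) .nil)))) (.g (nat_lit 0) (.e (nat_lit 227407) (nat_lit 0) .nil) .nil))) 
(.lf (nat_lit 522979) (.g (nat_lit 1535) (.e (nat_lit 204861) (nat_lit 26) (.e (nat_lit 336194) (nat_lit 12) (.e (nat_lit 385070) (nat_lit 28) (.e (nat_lit 548898) (nat_lit 14) (.e (nat_lit 2741) (nat_lit 174) .nil))))) (.g (nat_lit 0) (.e (nat_lit 228919) (nat_lit 0) .nil) .nil)))) (.nd (nat_lit 9) 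
(.lf (nat_lit 522723) (.g (nat_lit 2043) (.e (nat_lit 204855) (nat_lit 26) (.e (nat_lit 336176) (nat_lit 10) (.e (nat_lit 344133) (nat_lit 26) (.e (nat_lit 557093) (nat_lit 12) .nil)))) (.g (nat_lit 0) (.e (nat_lit 228326) (nat_lit 0) .nil) .nil))) 
(.lf (nat_lit 523235) (.g (nat_lit 3663) (.e (nat_lit 204862) (nat_lit 27) (.e (nat_lit 344129) (nat_lit 26) (.e (nat_lit 557105) (nat_lit 14) (.e (nat_lit 180252) (nat_lit 10) (.e (nat_lit 573474) (nat_lit 12) (.e (nat_lit 57508) (nat_lit 39) (.e (nat_lit 647175) (nat_lit 0) (.e (nat_lit 2684) (nat_lit 168) .nil)))))))) (.g (nat_lit 1) (.e (nat_lit 229308) (nat_lit 0) .nil) .nil)))))))) 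
(.nd (nat_lit 5) (.nd (nat_lit 6) (.nd (nat_lit 7) (.nd (nat_lit 8) (.nd (nat_lit 9) 
(.lf (nat_lit 522259) (.g (nat_lit 3788) (.e (nat_lit 204850) (nat_lit 26) (.e (nat_lit 336205) (nat_lit 12) (.e (nat_lit 385074) (nat_lit 31) (.e (nat_lit 573484) (nat_lit 13) (.e (nat_lit 65628) (nat_lit 14) (.e (nat_lit 401428) (nat_lit 3) .nil)))))) (.g (nat_lit 1) (.e (nat_lit 226759) (nat_lit 0) .nil) .nil))) 
(.lf (nat_lit 522771) (.g (nat_lit 2875) (.e (nat_lit 204859) (nat_lit 26) (.e (nat_lit 336206) (nat_lit 12) (.e (nat_lit 385068) (nat_lit 26) (.e (nat_lit 532515) (nat_lit 3) (.e (nat_lit 114694) (nat_lit 11) (.e (nat_lit 426139) (nat_lit 3) .nil)))))) (.g (nat_lit 1) (.e (nat_lit 228473) (nat_lit 0) .nil) .nil)))) (.nd (nat_lit 9) 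
(.lf (nat_lit 522515) (.g (nat_lit 2841) (.e (nat_lit 204853) (nat_lit 26) (.e (nat_lit 336324) (nat_lit 18) (.e (nat_lit 204882) (nat_lit 32) (.e (nat_lit 385065) (nat_lit 26) (.e (nat_lit 532530) (nat_lit 9) (.e (nat_lit 336324) (nat_lit 18) .nil)))))) (.g (nat_lit 1) (.e (nat_lit 227459) (nat_lit 0) .nil) .nil))) 
(.lf (nat_lit 523027) (.g (nat_lit 2578) (.e (nat_lit 204861) (nat_lit 26) (.e (nat_lit 336226) (nat_lit 14) (.e (nat_lit 401425) (nat_lit 2) (.e (nat_lit 196666) (nat_lit 13) (.e (nat_lit 65630) (nat_lit 14) (.e (nat_lit 401428) (nat_lit 3) .nil)))))) (.g (nat_lit 1) (.e (nat_lit 229013) (nat_lit 0) .nil) .nil))))) (.nd (nat_lit 8) (.nd (nat_lit 9) 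
(.lf (nat_lit 522387) (.g (nat_lit 2064) (.e (nat_lit 204852) (nat_lit 26) (.e (nat_lit 336325) (nat_lit 18) (.e (nat_lit 204880) (nat_lit 32) (.e (nat_lit 385066) (nat_lit 26) (.e (nat_lit 532532) (nat_lit 9) (.e (nat_lit 336325) (nat_lit 18) .nil)))))) (.g (nat_lit 1) (.e (nat_lit 227107) (nat_lit 0) .nil) .nil))) 
(.lf (nat_lit 522899) (.g (nat_lit 2848) (.e (nat_lit 204861) (nat_lit 26) (.e (nat_lit 336078) (nat_lit 9) (.e (nat_lit 336324) (nat_lit 18) (.e (nat_lit 204838) (nat_lit 20) (.e (nat_lit 114697) (nat_lit 11) (.e (nat_lit 426138) (nat_lit 3) .nil)))))) (.g (nat_lit 1) (.e (nat_lit 228778) (nat_lit 0) .nil) .nil)))) (.nd (nat_lit 9) 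
(.lf (nat_lit 522643) (.g (nat_lit 2871) (.e (nat_lit 204855) (nat_lit 26) (.e (nat_lit 336099) (nat_lit 9) (.e (nat_lit 336013) (nat_lit 2) (.e (nat_lit 90165) (nat_lit 12) (.e (nat_lit 164210) (nat_lit 176) (.e (nat_lit 2808) (nat_lit 180) (.e (nat_lit 303118) (nat_lit 3) .nil))))))) (.g (nat_lit 1) (.e (nat_lit 227901) (nat_lit 0) .nil) .nil))) 
(.lf (nat_lit 523155) (.g (nat_lit 3007) (.e (nat_lit 204862) (nat_lit 27) (.e (nat_lit 344129) (nat_lit 26) (.e (nat_lit 557097) (nat_lit 13) (.e (nat_lit 172064) (nat_lit 2) (.e (nat_lit 196661) (nat_lit 12) (.e (nat_lit 57576) (nat_lit 60) (.e (nat_lit 819204) (nat_lit 0) (.e (nat_lit 2685) (nat_lit 168) .nil)))))))) (.g (nat_lit 1) (.e (nat_lit 229226) (nat_lit 0) .nil) .nil)))))) 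
(.nd (nat_lit 7) (.nd (nat_lit 8) (.nd (nat_lit 9) 
(.lf (nat_lit 522323) (.g (nat_lit 2190) (.e (nat_lit 204852) (nat_lit 26) (.e (nat_lit 336324) (nat_lit 18) (.e (nat_lit 204829) (nat_lit 18) (.e (nat_lit 57847) (nat_lit 252) (.e (nat_lit 57379) (nat_lit 3) .nil))))) (.g (nat_lit 0) (.e (nat_lit 226977) (nat_lit 0) .nil) .nil))) 
(.lf (nat_lit 522835) (.g (nat_lit 2587) (.e (nat_lit 204861) (nat_lit 26) (.e (nat_lit 336074) (nat_lit 9) (.e (nat_lit 336324) (nat_lit 18) (.e (nat_lit 204837) (nat_lit 20) (.e (nat_lit 114698) (nat_lit 11) (.e (nat_lit 426138) (nat_lit 3) .nil)))))) (.g (nat_lit 1) (.e (nat_lit 228669) (nat_lit 0) .nil) .nil)))) (.nd (nat_lit 9) 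
(.lf (nat_lit 522579) (.g (nat_lit 2061) (.e (nat_lit 204854) (nat_lit 26) (.e (nat_lit 336324) (nat_lit 18) (.e (nat_lit 204880) (nat_lit 32) (.e (nat_lit 385057) (nat_lit 22) (.e (nat_lit 499986) (nat_lit 14) .nil))))) (.g (nat_lit 0) (.e (nat_lit 227714) (nat_lit 0) .nil) .nil))) 
(.lf (nat_lit 523091) (.g (nat_lit 1710) (.e (nat_lit 204862) (nat_lit 27) (.e (nat_lit 344117) (nat_lit 21) (.e (nat_lit 516118) (nat_lit 1) (.e (nat_lit 164177) (nat_lit 154) .nil)))) (.g (nat_lit 0) (.e (nat_lit 229133) (nat_lit 0) .nil) .nil))))) (.nd (nat_lit 8) (.nd (nat_lit 9) 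
(.lf (nat_lit 522451) (.g (nat_lit 3479) (.e (nat_lit 204852) (nat_lit 26) (.e (nat_lit 336326) (nat_lit 18) (.e (nat_lit 204882) (nat_lit 32) (.e (nat_lit 385066) (nat_lit 26) (.e (nat_lit 532534) (nat_lit 9) (.e (nat_lit 336324) (nat_lit 18) .nil)))))) (.g (nat_lit 1) (.e (nat_lit 227315) (nat_lit 0) .nil) .nil))) 
(.lf (nat_lit 522963) (.g (nat_lit 3560) (.e (nat_lit 204861) (nat_lit 26) (.e (nat_lit 336194) (nat_lit 12) (.e (nat_lit 385066) (nat_lit 26) (.e (nat_lit 532515) (nat_lit 3) (.e (nat_lit 114698) (nat_lit 11) (.e (nat_lit 426139) (nat_lit 3) .nil)))))) (.g (nat_lit 1) (.e (nat_lit 228885) (nat_lit 0) .nil) .nil)))) (.nd (nat_lit 9) 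
(.lf (nat_lit 522707) (.g (nat_lit 1210) (.e (nat_lit 204855) (nat_lit 26) (.e (nat_lit 336176) (nat_lit 10) (.e (nat_lit 344133) (nat_lit 26) (.e (nat_lit 557068) (nat_lit 9) .nil)))) (.g (nat_lit 0) (.e (nat_lit 228231) (nat_lit 0) .nil) .nil))) 
(.lf (nat_lit 523219) (.g (nat_lit 4267) (.e (nat_lit 204862) (nat_lit 27) (.e (nat_lit 344129) (nat_lit 26) (.e (nat_lit 557104) (nat_lit 14) (.e (nat_lit 180252) (nat_lit 10) (.e (nat_lit 573474) (nat_lit 12) (.e (nat_lit 57508) (nat_lit 39) (.e (nat_lit 647175) (nat_lit 0) (.e (nat_lit 2684) (nat_lit 168) .nil)))))))) (.g (nat_lit 1) (.e (nat_lit 229292) (nat_lit 0) .nil) .nil))))))) 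
(.nd (nat_lit 6) (.nd (nat_lit 7) (.nd (nat_lit 8) (.nd (nat_lit 9) 
(.lf (nat_lit 522291) (.g (nat_lit 4074) (.e (nat_lit 204851) (nat_lit 26) (.e (nat_lit 336324) (nat_lit 18) (.e (nat_lit 204831) (nat_lit 18) (.e (nat_lit 57847) (nat_lit 252) .nil)))) (.g (nat_lit 0) (.e (nat_lit 226823) (nat_lit 0) .nil) .nil))) 
(.lf (nat_lit 522803) (.g (nat_lit 408) (.e (nat_lit 204861) (nat_lit 26) (.e (nat_lit 335988) (nat_lit 1) (.e (nat_lit 57926) (nat_lit 282) .nil))) (.g (nat_lit 0) (.e (nat_lit 228563) (nat_lit 0) .nil) .nil)))) (.nd (nat_lit 9) 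
(.lf (nat_lit 522547) (.g (nat_lit 2626) (.e (nat_lit 204854) (nat_lit 26) (.e (nat_lit 336019) (nat_lit 3) (.e (nat_lit 98342) (nat_lit 20) (.e (nat_lit 221213) (nat_lit 23) (.e (nat_lit 204831) (nat_lit 18) (.e (nat_lit 57931) (nat_lit 282) (.e (nat_lit 163874) (nat_lit 3) .nil))))))) (.g (nat_lit 1) (.e (nat_lit 227615) (nat_lit 0) .nil) .nil))) 
(.lf (nat_lit 523059) (.g (nat_lit 1963) (.e (nat_lit 204862) (nat_lit 27) (.e (nat_lit 344117) (nat_lit 21) (.e (nat_lit 516115) (nat_lit 1) (.e (nat_lit 164179) (nat_lit 154) (.e (nat_lit 57377) (nat_lit 3) .nil))))) (.g (nat_lit 0) (.e (nat_lit 229079) (nat_lit 0) .nil) .nil))))) (.nd (nat_lit 8) (.nd (nat_lit 9) 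
(.lf (nat_lit 522419) (.g (nat_lit 3411) (.e (nat_lit 204852) (nat_lit 26) (.e (nat_lit 336326) (nat_lit 18) (.e (nat_lit 204880) (nat_lit 32) (.e (nat_lit 385066) (nat_lit 26) (.e (nat_lit 532530) (nat_lit 9) (.e (nat_lit 336325) (nat_lit 18) .nil)))))) (.g (nat_lit 1) (.e (nat_lit 227274) (nat_lit 0) .nil) .nil))) 
(.lf (nat_lit 522931) (.g (nat_lit 2462) (.e (nat_lit 204861) (nat_lit 26) (.e (nat_lit 336186) (nat_lit 11) (.e (nat_lit 368676) (nat_lit 21) (.e (nat_lit 516169) (nat_lit 13) (.e (nat_lit 458774) (nat_lit 18) (.e (nat_lit 5951) (nat_lit 322) (.e (nat_lit 65280) (nat_lit 64) .nil))))))) (.g (nat_lit 1) (.e (nat_lit 228821) (nat_lit 0) .nil) .nil)))) (.nd (nat_lit 9) 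
(.lf (nat_lit 522675) (.g (nat_lit 364) (.e (nat_lit 204855) (nat_lit 26) (.e (nat_lit 336176) (nat_lit 10) (.e (nat_lit 344127) (nat_lit 26) .nil))) (.g (nat_lit 0) (.e (nat_lit 227991) (nat_lit 0) .nil) .nil))) 
(.lf (nat_lit 523187) (.g (nat_lit 5229) (.e (nat_lit 204862) (nat_lit 27) (.e (nat_lit 344129) (nat_lit 26) (.e (nat_lit 557103) (nat_lit 14) (.e (nat_lit 180250) (nat_lit 10) (.e (nat_lit 573474) (nat_lit 12) (.e (nat_lit 57507) (nat_lit 39) (.e (nat_lit 655104) (nat_lit 0) (.e (nat_lit 2684) (nat_lit 168) .nil)))))))) (.g (nat_lit 1) (.e (nat_lit 229259) (nat_lit 0) .nil) .nil)))))) 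
(.nd (nat_lit 7) (.nd (nat_lit 8) (.nd (nat_lit 9) 
(.lf (nat_lit 522355) (.g (nat_lit 2328) (.e (nat_lit 204852) (nat_lit 26) (.e (nat_lit 336324) (nat_lit 18) (.e (nat_lit 204854) (nat_lit 26) (.e (nat_lit 336326) (nat_lit 18) (.e (nat_lit 204853) (nat_lit 26) (.e (nat_lit 336324) (nat_lit 18) .nil)))))) (.g (nat_lit 1) (.e (nat_lit 227058) (nat_lit 0) .nil) .nil))) 
(.lf (nat_lit 522867) (.g (nat_lit 2972) (.e (nat_lit 204861) (nat_lit 26) (.e (nat_lit 336076) (nat_lit 9) (.e (nat_lit 336324) (nat_lit 18) (.e (nat_lit 204837) (nat_lit 20) (.e (nat_lit 114698) (nat_lit 11) (.e (nat_lit 426137) (nat_lit 3) .nil)))))) (.g (nat_lit 1) (.e (nat_lit 228728) (nat_lit 0) .nil) .nil)))) (.nd (nat_lit 9) 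
(.lf (nat_lit 522611) (.g (nat_lit 3179) (.e (nat_lit 204854) (nat_lit 26) (.e (nat_lit 336326) (nat_lit 18) (.e (nat_lit 204882) (nat_lit 32) (.e (nat_lit 385065) (nat_lit 26) (.e (nat_lit 532530) (nat_lit 9) (.e (nat_lit 336326) (nat_lit 18) .nil)))))) (.g (nat_lit 1) (.e (nat_lit 227788) (nat_lit 0) .nil) .nil))) 
(.lf (nat_lit 523123) (.g (nat_lit 4530) (.e (nat_lit 204862) (nat_lit 27) (.e (nat_lit 344117) (nat_lit 21) (.e (nat_lit 516130) (nat_lit 3) (.e (nat_lit 221215) (nat_lit 23) (.e (nat_lit 204829) (nat_lit 18) (.e (nat_lit 57927) (nat_lit 282) (.e (nat_lit 163875) (nat_lit 3) .nil))))))) (.g (nat_lit 1) (.e (nat_lit 229168) (nat_lit 0) .nil) .nil))))) (.nd (nat_lit 8) (.nd (nat_lit 9) 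
(.lf (nat_lit 522483) (.g (nat_lit 4521) (.e (nat_lit 204853) (nat_lit 26) (.e (nat_lit 336324) (nat_lit 18) (.e (nat_lit 204831) (nat_lit 18) (.e (nat_lit 57854) (nat_lit 252) (.e (nat_lit 57373) (nat_lit 2) (.e (nat_lit 90163) (nat_lit 12) (.e (nat_lit 164060) (nat_lit 57) (.e (nat_lit 794671) (nat_lit 23) .nil)))))))) (.g (nat_lit 1) (.e (nat_lit 227425) (nat_lit 0) .nil) .nil))) 
(.lf (nat_lit 522995) (.g (nat_lit 663) (.e (nat_lit 204861) (nat_lit 26) (.e (nat_lit 336203) (nat_lit 12) (.e (nat_lit 385068) (nat_lit 26) .nil))) (.g (nat_lit 0) (.e (nat_lit 228954) (nat_lit 0) .nil) .nil)))) (.nd (nat_lit 9) 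
(.lf (nat_lit 522739) (.g (nat_lit 1677) (.e (nat_lit 204856) (nat_lit 26) (.e (nat_lit 336028) (nat_lit 3) (.e (nat_lit 98342) (nat_lit 20) (.e (nat_lit 221215) (nat_lit 23) .nil)))) (.g (nat_lit 0) (.e (nat_lit 228408) (nat_lit 0) .nil) .nil))) 
(.lf (nat_lit 523251) (.g (nat_lit 2651) (.e (nat_lit 204862) (nat_lit 27) (.e (nat_lit 344130) (nat_lit 26) (.e (nat_lit 557103) (nat_lit 14) (.e (nat_lit 180250) (nat_lit 10) (.e (nat_lit 573473) (nat_lit 12) (.e (nat_lit 57506) (nat_lit 39) (.e (nat_lit 655104) (nat_lit 0) (.e (nat_lit 2684) (nat_lit 168) .nil)))))))) (.g (nat_lit 1) (.e (nat_lit 229324) (nat_lit 0) .nil) .nil))))))))) 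
(.nd (nat_lit 4) (.nd (nat_lit 5) (.nd (nat_lit 6) (.nd (nat_lit 7) (.nd (nat_lit 8) 
(.nd (nat_lit 9) 
(.lf (nat_lit 522251) (.g (nat_lit 1620) (.e (nat_lit 204850) (nat_lit 26) (.e (nat_lit 336028) (nat_lit 3) (.e (nat_lit 98342) (nat_lit 20) (.e (nat_lit 221214) (nat_lit 23) .nil)))) (.g (nat_lit 0) (.e (nat_lit 226746) (nat_lit 0) .nil) .nil))) 
(.lf (nat_lit 522763) (.g (nat_lit 2249) (.e (nat_lit 204859) (nat_lit 26) (.e (nat_lit 336206) (nat_lit 12) (.e (nat_lit 385066) (nat_lit 26) (.e (nat_lit 532513) (nat_lit 3) (.e (nat_lit 114697) (nat_lit 11) (.e (nat_lit 426137) (nat_lit 3) .nil)))))) (.g (nat_lit 1) (.e (nat_lit 228463) (nat_lit 0) .nil) .nil)))) (.nd (nat_lit 9) 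
(.lf (nat_lit 522507) (.g (nat_lit 3214) (.e (nat_lit 204853) (nat_lit 26) (.e (nat_lit 336324) (nat_lit 18) (.e (nat_lit 204880) (nat_lit 32) (.e (nat_lit 385066) (nat_lit 26) (.e (nat_lit 532530) (nat_lit 9) (.e (nat_lit 336324) (nat_lit 18) .nil)))))) (.g (nat_lit 1) (.e (nat_lit 227451) (nat_lit 0) .nil) .nil))) 
(.lf (nat_lit 523019) (.g (nat_lit 1818) (.e (nat_lit 204861) (nat_lit 26) (.e (nat_lit 336213) (nat_lit 13) (.e (nat_lit 393229) (nat_lit 9) (.e (nat_lit 336033) (nat_lit 4) .nil)))) (.g (nat_lit 0) (.e (nat_lit 228992) (nat_lit 0) .nil) .nil))))) (.nd (nat_lit 8) (.nd (nat_lit 9) 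
(.lf (nat_lit 522379) (.g (nat_lit 2048) (.e (nat_lit 204852) (nat_lit 26) (.e (nat_lit 336324) (nat_lit 18) (.e (nat_lit 204882) (nat_lit 32) (.e (nat_lit 385066) (nat_lit 26) (.e (nat_lit 532533) (nat_lit 9) (.e (nat_lit 336322) (nat_lit 18) .nil)))))) (.g (nat_lit 1) (.e (nat_lit 227091) (nat_lit 0) .nil) .nil))) 
(.lf (nat_lit 522891) (.g (nat_lit 3201) (.e (nat_lit 204861) (nat_lit 26) (.e (nat_lit 336078) (nat_lit 9) (.e (nat_lit 336324) (nat_lit 18) (.e (nat_lit 204835) (nat_lit 19) (.e (nat_lit 106534) (nat_lit 11) .nil))))) (.g (nat_lit 0) (.e (nat_lit 228770) (nat_lit 0) .nil) .nil)))) (.nd (nat_lit 9) 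
(.lf (nat_lit 522635) (.g (nat_lit 3485) (.e (nat_lit 204855) (nat_lit 26) (.e (nat_lit 336099) (nat_lit 9) (.e (nat_lit 336013) (nat_lit 2) (.e (nat_lit 90165) (nat_lit 12) (.e (nat_lit 164207) (nat_lit 176) (.e (nat_lit 2807) (nat_lit 180) (.e (nat_lit 303118) (nat_lit 3) .nil))))))) (.g (nat_lit 1) (.e (nat_lit 227893) (nat_lit 0) .nil) .nil))) 
(.lf (nat_lit 523147) (.g (nat_lit 2569) (.e (nat_lit 204862) (nat_lit 27) (.e (nat_lit 344129) (nat_lit 26) (.e (nat_lit 557096) (nat_lit 13) (.e (nat_lit 172064) (nat_lit 2) (.e (nat_lit 204544) (nat_lit 2) (.e (nat_lit 32512) (nat_lit 18) .nil)))))) (.g (nat_lit 1) (.e (nat_lit 229218) (nat_lit 0) .nil) .nil)))))) (.nd (nat_lit 7) (.nd (nat_lit 8) (.nd (nat_lit 9) 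
(.lf (nat_lit 522315) (.g (nat_lit 3306) (.e (nat_lit 204852) (nat_lit 26) (.e (nat_lit 336310) (nat_lit 16) (.e (nat_lit 164179) (nat_lit 154) (.e (nat_lit 57378) (nat_lit 3) (.e (nat_lit 98334) (nat_lit 18) (.e (nat_lit 164330) (nat_lit 230) (.e (nat_lit 163905) (nat_lit 12) (.e (nat_lit 426131) (nat_lit 3) .nil)))))))) (.g (nat_lit 1) (.e (nat_lit 226937) (nat_lit 0) .nil) .nil))) 
(.lf (nat_lit 522827) (.g (nat_lit 1957) (.e (nat_lit 204861) (nat_lit 26) (.e (nat_lit 336027) (nat_lit 3) (.e (nat_lit 98334) (nat_lit 18) (.e (nat_lit 164181) (nat_lit 154) .nil)))) (.g (nat_lit 0) (.e (nat_lit 228659) (nat_lit 0) .nil) .nil)))) (.nd (nat_lit 9) 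
(.lf (nat_lit 522571) (.g (nat_lit 4656) (.e (nat_lit 204854) (nat_lit 26) (.e (nat_lit 336324) (nat_lit 18) (.e (nat_lit 204831) (nat_lit 18) (.e (nat_lit 57849) (nat_lit 252) .nil)))) (.g (nat_lit 0) (.e (nat_lit 227692) (nat_lit 0) .nil) .nil))) 
(.lf (nat_lit 523083) (.g (nat_lit 2676) (.e (nat_lit 204862) (nat_lit 27) (.e (nat_lit 344117) (nat_lit 21) (.e (nat_lit 516116) (nat_lit 1) (.e (nat_lit 164183) (nat_lit 154) (.e (nat_lit 57373) (nat_lit 2) .nil))))) (.g (nat_lit 0) (.e (nat_lit 229116) (nat_lit 0) .nil) .nil))))) (.nd (nat_lit 8) (.nd (nat_lit 9) 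
(.lf (nat_lit 522443) (.g (nat_lit 3822) (.e (nat_lit 204852) (nat_lit 26) (.e (nat_lit 336326) (nat_lit 18) (.e (nat_lit 204882) (nat_lit 32) (.e (nat_lit 385066) (nat_lit 26) (.e (nat_lit 532530) (nat_lit 9) (.e (nat_lit 336324) (nat_lit 18) .nil)))))) (.g (nat_lit 1) (.e (nat_lit 227307) (nat_lit 0) .nil) .nil))) 
(.lf (nat_lit 522955) (.g (nat_lit 3320) (.e (nat_lit 204861) (nat_lit 26) (.e (nat_lit 336194) (nat_lit 12) (.e (nat_lit 385066) (nat_lit 26) (.e (nat_lit 532513) (nat_lit 3) (.e (nat_lit 114697) (nat_lit 11) (.e (nat_lit 426133) (nat_lit 3) .nil)))))) (.g (nat_lit 1) (.e (nat_lit 228877) (nat_lit 0) .nil) .nil)))) (.nd (nat_lit 9) 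
(.lf (nat_lit 522699) (.g (nat_lit 1297) (.e (nat_lit 204855) (nat_lit 26) (.e (nat_lit 336176) (nat_lit 10) (.e (nat_lit 344132) (nat_lit 26) (.e (nat_lit 557087) (nat_lit 11) .nil)))) (.g (nat_lit 0) (.e (nat_lit 228201) (nat_lit 0) .nil) .nil))) 
(.lf (nat_lit 523211) (.g (nat_lit 3119) (.e (nat_lit 204862) (nat_lit 27) (.e (nat_lit 344129) (nat_lit 26) (.e (nat_lit 557104) (nat_lit 14) (.e (nat_lit 180252) (nat_lit 10) (.e (nat_lit 573473) (nat_lit 12) (.e (nat_lit 57506) (nat_lit 39) (.e (nat_lit 655104) (nat_lit 0) (.e (nat_lit 2684) (nat_lit 168) .nil)))))))) (.g (nat_lit 1) (.e (nat_lit 229284) (nat_lit 0) .nil) .nil))))))) 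
(.nd (nat_lit 6) (.nd (nat_lit 7) (.nd (nat_lit 8) (.nd (nat_lit 9) 
(.lf (nat_lit 522283) (.g (nat_lit 591) (.e (nat_lit 204851) (nat_lit 26) (.e (nat_lit 336019) (nat_lit 3) (.e (nat_lit 98342) (nat_lit 20) .nil))) (.g (nat_lit 0) (.e (nat_lit 226814) (nat_lit 0) .nil) .nil))) 
(.lf (nat_lit 522795) (.g (nat_lit 2343) (.e (nat_lit 204861) (nat_lit 26) (.e (nat_lit 335987) (nat_lit 1) (.e (nat_lit 57854) (nat_lit 252) (.e (nat_lit 57378) (nat_lit 3) (.e (nat_lit 98335) (nat_lit 18) .nil))))) (.g (nat_lit 0) (.e (nat_lit 228527) (nat_lit 0) .nil) .nil)))) (.nd (nat_lit 9) 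
(.lf (nat_lit 522539) (.g (nat_lit 3467) (.e (nat_lit 204854) (nat_lit 26) (.e (nat_lit 336019) (nat_lit 3) (.e (nat_lit 98341) (nat_lit 20) (.e (nat_lit 221215) (nat_lit 23) (.e (nat_lit 204830) (nat_lit 18) (.e (nat_lit 57927) (nat_lit 282) (.e (nat_lit 163874) (nat_lit 3) .nil))))))) (.g (nat_lit 1) (.e (nat_lit 227591) (nat_lit 0) .nil) .nil))) 
(.lf (nat_lit 523051) (.g (nat_lit 2331) (.e (nat_lit 204862) (nat_lit 27) (.e (nat_lit 344117) (nat_lit 21) (.e (nat_lit 516115) (nat_lit 1) (.e (nat_lit 164177) (nat_lit 154) (.e (nat_lit 57379) (nat_lit 3) (.e (nat_lit 98321) (nat_lit 17) (.e (nat_lit 3771) (nat_lit 229) (.e (nat_lit 794673) (nat_lit 23) .nil)))))))) (.g (nat_lit 1) (.e (nat_lit 229063) (nat_lit 0) .nil) .nil))))) 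
(.nd (nat_lit 8) (.nd (nat_lit 9) 
(.lf (nat_lit 522411) (.g (nat_lit 1944) (.e (nat_lit 204852) (nat_lit 26) (.e (nat_lit 336326) (nat_lit 18) (.e (nat_lit 204854) (nat_lit 26) (.e (nat_lit 336316) (nat_lit 17) (.e (nat_lit 196630) (nat_lit 9) .nil))))) (.g (nat_lit 0) (.e (nat_lit 227219) (nat_lit 0) .nil) .nil))) 
(.lf (nat_lit 522923) (.g (nat_lit 3324) (.e (nat_lit 204861) (nat_lit 26) (.e (nat_lit 336186) (nat_lit 11) (.e (nat_lit 368676) (nat_lit 21) (.e (nat_lit 516141) (nat_lit 8) (.e (nat_lit 417830) (nat_lit 19) (.e (nat_lit 311315) (nat_lit 3) .nil)))))) (.g (nat_lit 1) (.e (nat_lit 228809) (nat_lit 0) .nil) .nil)))) (.nd (nat_lit 9) 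
(.lf (nat_lit 522667) (.g (nat_lit 2186) (.e (nat_lit 204855) (nat_lit 26) (.e (nat_lit 336173) (nat_lit 10) (.e (nat_lit 344117) (nat_lit 21) (.e (nat_lit 516139) (nat_lit 7) (.e (nat_lit 409646) (nat_lit 18) .nil))))) (.g (nat_lit 0) (.e (nat_lit 227964) (nat_lit 0) .nil) .nil))) 
(.lf (nat_lit 523179) (.g (nat_lit 3105) (.e (nat_lit 204862) (nat_lit 27) (.e (nat_lit 344129) (nat_lit 26) (.e (nat_lit 557103) (nat_lit 14) (.e (nat_lit 180243) (nat_lit 5) (.e (nat_lit 532504) (nat_lit 1) (.e (nat_lit 57703) (nat_lit 164) (.e (nat_lit 2515) (nat_lit 157) (.e (nat_lit 2681) (nat_lit 168) .nil)))))))) (.g (nat_lit 1) (.e (nat_lit 229250) (nat_lit 0) .nil) .nil)))))) 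
(.nd (nat_lit 7) (.nd (nat_lit 8) (.nd (nat_lit 9) 
(.lf (nat_lit 522347) (.g (nat_lit 3763) (.e (nat_lit 204852) (nat_lit 26) (.e (nat_lit 336324) (nat_lit 18) (.e (nat_lit 204831) (nat_lit 18) (.e (nat_lit 57854) (nat_lit 252) (.e (nat_lit 57378) (nat_lit 3) (.e (nat_lit 98342) (nat_lit 20) (.e (nat_lit 221215) (nat_lit 23) .nil))))))) (.g (nat_lit 1) (.e (nat_lit 227008) (nat_lit 0) .nil) .nil))) 
(.lf (nat_lit 522859) (.g (nat_lit 3479) (.e (nat_lit 204861) (nat_lit 26) (.e (nat_lit 336075) (nat_lit 9) (.e (nat_lit 336454) (nat_lit 34) (.e (nat_lit 483364) (nat_lit 18) (.e (nat_lit 57931) (nat_lit 282) (.e (nat_lit 163873) (nat_lit 3) .nil)))))) (.g (nat_lit 1) (.e (nat_lit 228707) (nat_lit 0) .nil) .nil)))) (.nd (nat_lit 9) 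
(.lf (nat_lit 522603) (.g (nat_lit 3848) (.e (nat_lit 204854) (nat_lit 26) (.e (nat_lit 336326) (nat_lit 18) (.e (nat_lit 204880) (nat_lit 32) (.e (nat_lit 385066) (nat_lit 26) (.e (nat_lit 532530) (nat_lit 9) (.e (nat_lit 336324) (nat_lit 18) .nil)))))) (.g (nat_lit 1) (.e (nat_lit 227780) (nat_lit 0) .nil) .nil))) 
(.lf (nat_lit 523115) (.g (nat_lit 1770) (.e (nat_lit 204862) (nat_lit 27) (.e (nat_lit 344117) (nat_lit 21) (.e (nat_lit 516130) (nat_lit 3) (.e (nat_lit 221211) (nat_lit 22) (.e (nat_lit 196698) (nat_lit 19) .nil))))) (.g (nat_lit 0) (.e (nat_lit 229160) (nat_lit 0) .nil) .nil))))) (.nd (nat_lit 8) (.nd (nat_lit 9) 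
(.lf (nat_lit 522475) (.g (nat_lit 3987) (.e (nat_lit 204853) (nat_lit 26) (.e (nat_lit 336324) (nat_lit 18) (.e (nat_lit 204831) (nat_lit 18) (.e (nat_lit 57847) (nat_lit 252) .nil)))) (.g (nat_lit 0) (.e (nat_lit 227417) (nat_lit 0) .nil) .nil))) 
(.lf (nat_lit 522987) (.g (nat_lit 2750) (.e (nat_lit 204861) (nat_lit 26) (.e (nat_lit 336194) (nat_lit 12) (.e (nat_lit 385074) (nat_lit 31) (.e (nat_lit 573481) (nat_lit 13) (.e (nat_lit 65630) (nat_lit 14) .nil))))) (.g (nat_lit 0) (.e (nat_lit 228937) (nat_lit 0) .nil) .nil)))) (.nd (nat_lit 9) 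
(.lf (nat_lit 522731) (.g (nat_lit 435) (.e (nat_lit 204855) (nat_lit 26) (.e (nat_lit 336193) (nat_lit 12) (.e (nat_lit 385068) (nat_lit 26) .nil))) (.g (nat_lit 0) (.e (nat_lit 228339) (nat_lit 0) .nil) .nil))) 
(.lf (nat_lit 523243) (.g (nat_lit 1142) (.e (nat_lit 204862) (nat_lit 27) (.e (nat_lit 344130) (nat_lit 26) (.e (nat_lit 557097) (nat_lit 13) (.e (nat_lit 172071) (nat_lit 5) .nil)))) (.g (nat_lit 0) (.e (nat_lit 229316) (nat_lit 0) .nil) .nil)))))))) (.nd (nat_lit 5) (.nd (nat_lit 6) (.nd (nat_lit 7) (.nd (nat_lit 8) (.nd (nat_lit 9) 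
(.lf (nat_lit 522267) (.g (nat_lit 2112) (.e (nat_lit 204850) (nat_lit 26) (.e (nat_lit 336282) (nat_lit 15) (.e (nat_lit 3632) (nat_lit 227) (.e (nat_lit 778317) (nat_lit 3) (.e (nat_lit 57477) (nat_lit 28) .nil))))) (.g (nat_lit 0) (.e (nat_lit 226775) (nat_lit 0) .nil) .nil))) 
(.lf (nat_lit 522779) (.g (nat_lit 1738) (.e (nat_lit 204859) (nat_lit 26) (.e (nat_lit 336235) (nat_lit 14) (.e (nat_lit 401425) (nat_lit 2) (.e (nat_lit 196628) (nat_lit 9) .nil)))) (.g (nat_lit 0) (.e (nat_lit 228492) (nat_lit 0) .nil) .nil)))) (.nd (nat_lit 9) 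
(.lf (nat_lit 522523) (.g (nat_lit 2869) (.e (nat_lit 204853) (nat_lit 26) (.e (nat_lit 336324) (nat_lit 18) (.e (nat_lit 204882) (nat_lit 32) (.e (nat_lit 385068) (nat_lit 26) (.e (nat_lit 532534) (nat_lit 9) (.e (nat_lit 336324) (nat_lit 18) .nil)))))) (.g (nat_lit 1) (.e (nat_lit 227467) (nat_lit 0) .nil) .nil))) 
(.lf (nat_lit 523035) (.g (nat_lit 1690) (.e (nat_lit 212736) (nat_lit 26) (.e (nat_lit 336088) (nat_lit 9) (.e (nat_lit 336324) (nat_lit 18) (.e (nat_lit 204837) (nat_lit 20) (.e (nat_lit 114698) (nat_lit 11) .nil))))) (.g (nat_lit 0) (.e (nat_lit 229028) (nat_lit 0) .nil) .nil))))) (.nd (nat_lit 8) (.nd (nat_lit 9) 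
(.lf (nat_lit 522395) (.g (nat_lit 2268) (.e (nat_lit 204852) (nat_lit 26) (.e (nat_lit 336326) (nat_lit 18) (.e (nat_lit 204831) (nat_lit 18) (.e (nat_lit 57830) (nat_lit 250) (.e (nat_lit 1016) (nat_lit 81) (.e (nat_lit 1251) (nat_lit 92) (.e (nat_lit 98321) (nat_lit 17) (.e (nat_lit 3771) (nat_lit 229) (.e (nat_lit 794673) (nat_lit 23) .nil))))))))) (.g (nat_lit 1) (.e (nat_lit 227125) (nat_lit 0) .nil) .nil))) 
(.lf (nat_lit 522907) (.g (nat_lit 1320) (.e (nat_lit 204861) (nat_lit 26) (.e (nat_lit 336088) (nat_lit 9) (.e (nat_lit 336240) (nat_lit 15) (.e (nat_lit 3309) (nat_lit 202) .nil)))) (.g (nat_lit 0) (.e (nat_lit 228787) (nat_lit 0) .nil) .nil)))) (.nd (nat_lit 9) 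
(.lf (nat_lit 522651) (.g (nat_lit 4402) (.e (nat_lit 204855) (nat_lit 26) (.e (nat_lit 336099) (nat_lit 9) (.e (nat_lit 336028) (nat_lit 3) (.e (nat_lit 98350) (nat_lit 24) (.e (nat_lit 409649) (nat_lit 18) (.e (nat_lit 303118) (nat_lit 3) .nil)))))) (.g (nat_lit 1) (.e (nat_lit 227936) (nat_lit 0) .nil) .nil))) 
(.lf (nat_lit 523163) (.g (nat_lit 3011) (.e (nat_lit 204862) (nat_lit 27) (.e (nat_lit 344129) (nat_lit 26) (.e (nat_lit 557097) (nat_lit 13) (.e (nat_lit 172067) (nat_lit 3) (.e (nat_lit 204829) (nat_lit 18) .nil))))) (.g (nat_lit 0) (.e (nat_lit 229234) (nat_lit 0) .nil) .nil)))))) (.nd (nat_lit 7) (.nd (nat_lit 8) (.nd (nat_lit 9) 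
(.lf (nat_lit 522331) (.g (nat_lit 2586) (.e (nat_lit 204852) (nat_lit 26) (.e (nat_lit 336324) (nat_lit 18) (.e (nat_lit 204831) (nat_lit 18) (.e (nat_lit 57847) (nat_lit 252) .nil)))) (.g (nat_lit 0) (.e (nat_lit 226985) (nat_lit 0) .nil) .nil))) 
(.lf (nat_lit 522843) (.g (nat_lit 1661) (.e (nat_lit 204861) (nat_lit 26) (.e (nat_lit 336075) (nat_lit 9) (.e (nat_lit 336326) (nat_lit 18) (.e (nat_lit 204837) (nat_lit 20) (.e (nat_lit 114697) (nat_lit 11) (.e (nat_lit 426138) (nat_lit 3) .nil)))))) (.g (nat_lit 1) (.e (nat_lit 228683) (nat_lit 0) .nil) .nil)))) (.nd (nat_lit 9) 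
(.lf (nat_lit 522587) (.g (nat_lit 3093) (.e (nat_lit 204854) (nat_lit 26) (.e (nat_lit 336324) (nat_lit 18) (.e (nat_lit 204882) (nat_lit 32) (.e (nat_lit 385066) (nat_lit 26) (.e (nat_lit 532529) (nat_lit 9) (.e (nat_lit 336326) (nat_lit 18) .nil)))))) (.g (nat_lit 1) (.e (nat_lit 227726) (nat_lit 0) .nil) .nil))) 
(.lf (nat_lit 523099) (.g (nat_lit 2348) (.e (nat_lit 204862) (nat_lit 27) (.e (nat_lit 344117) (nat_lit 21) (.e (nat_lit 516120) (nat_lit 1) (.e (nat_lit 164183) (nat_lit 154) .nil)))) (.g (nat_lit 0) (.e (nat_lit 229144) (nat_lit 0) .nil) .nil))))) (.nd (nat_lit 8) (.nd (nat_lit 9) 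
(.lf (nat_lit 522459) (.g (nat_lit 1279) (.e (nat_lit 204852) (nat_lit 26) (.e (nat_lit 336336) (nat_lit 20) (.e (nat_lit 221198) (nat_lit 20) .nil))) (.g (nat_lit 0) (.e (nat_lit 227351) (nat_lit 0) .nil) .nil))) 
(.lf (nat_lit 522971) (.g (nat_lit 2110) (.e (nat_lit 204861) (nat_lit 26) (.e (nat_lit 336194) (nat_lit 12) (.e (nat_lit 385068) (nat_lit 26) (.e (nat_lit 532501) (nat_lit 1) (.e (nat_lit 57743) (nat_lit 195) .nil))))) (.g (nat_lit 0) (.e (nat_lit 228911) (nat_lit 0) .nil) .nil)))) (.nd (nat_lit 9) 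
(.lf (nat_lit 522715) (.g (nat_lit 2904) (.e (nat_lit 204855) (nat_lit 26) (.e (nat_lit 336176) (nat_lit 10) (.e (nat_lit 344133) (nat_lit 26) (.e (nat_lit 557091) (nat_lit 12) (.e (nat_lit 164016) (nat_lit 44) (.e (nat_lit 688139) (nat_lit 5) (.e (nat_lit 2887) (nat_lit 184) (.e (nat_lit 426134) (nat_lit 3) .nil)))))))) (.g (nat_lit 1) (.e (nat_lit 228299) (nat_lit 0) .nil) .nil))) 
(.lf (nat_lit 523227) (.g (nat_lit 3271) (.e (nat_lit 204862) (nat_lit 27) (.e (nat_lit 344129) (nat_lit 26) (.e (nat_lit 557104) (nat_lit 14) (.e (nat_lit 180252) (nat_lit 10) (.e (nat_lit 573475) (nat_lit 12) (.e (nat_lit 57508) (nat_lit 39) (.e (nat_lit 647170) (nat_lit 0) (.e (nat_lit 2685) (nat_lit 168) .nil)))))))) (.g (nat_lit 1) (.e (nat_lit 229300) (nat_lit 0) .nil) .nil))))))) 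
(.nd (nat_lit 6) (.nd (nat_lit 7) (.nd (nat_lit 8) (.nd (nat_lit 9) 
(.lf (nat_lit 522299) (.g (nat_lit 3385) (.e (nat_lit 204851) (nat_lit 26) (.e (nat_lit 336324) (nat_lit 18) (.e (nat_lit 204880) (nat_lit 32) (.e (nat_lit 385066) (nat_lit 26) (.e (nat_lit 532534) (nat_lit 9) (.e (nat_lit 336326) (nat_lit 18) .nil)))))) (.g (nat_lit 1) (.e (nat_lit 226843) (nat_lit 0) .nil) .nil))) 
(.lf (nat_lit 522811) (.g (nat_lit 2788) (.e (nat_lit 204861) (nat_lit 26) (.e (nat_lit 336004) (nat_lit 2) (.e (nat_lit 90158) (nat_lit 11) (.e (nat_lit 24608) (nat_lit 3) (.e (nat_lit 98333) (nat_lit 18) (.e (nat_lit 164182) (nat_lit 154) (.e (nat_lit 65280) (nat_lit 64) .nil))))))) (.g (nat_lit 1) (.e (nat_lit 228610) (nat_lit 0) .nil) .nil)))) (.nd (nat_lit 9) 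
(.lf (nat_lit 522555) (.g (nat_lit 4202) (.e (nat_lit 204854) (nat_lit 26) (.e (nat_lit 336019) (nat_lit 3) (.e (nat_lit 98342) (nat_lit 20) (.e (nat_lit 221215) (nat_lit 23) (.e (nat_lit 204830) (nat_lit 18) (.e (nat_lit 57926) (nat_lit 282) (.e (nat_lit 163874) (nat_lit 3) .nil))))))) (.g (nat_lit 1) (.e (nat_lit 227624) (nat_lit 0) .nil) .nil))) 
(.lf (nat_lit 523067) (.g (nat_lit 3272) (.e (nat_lit 204862) (nat_lit 27) (.e (nat_lit 344117) (nat_lit 21) (.e (nat_lit 516115) (nat_lit 1) (.e (nat_lit 164183) (nat_lit 154) (.e (nat_lit 57378) (nat_lit 3) (.e (nat_lit 98319) (nat_lit 17) (.e (nat_lit 3771) (nat_lit 229) (.e (nat_lit 794673) (nat_lit 23) .nil)))))))) (.g (nat_lit 1) (.e (nat_lit 229095) (nat_lit 0) .nil) .nil))))) 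
(.nd (nat_lit 8) (.nd (nat_lit 9) 
(.lf (nat_lit 522427) (.g (nat_lit 3485) (.e (nat_lit 204852) (nat_lit 26) (.e (nat_lit 336326) (nat_lit 18) (.e (nat_lit 204880) (nat_lit 32) (.e (nat_lit 385066) (nat_lit 26) (.e (nat_lit 532534) (nat_lit 9) (.e (nat_lit 336326) (nat_lit 18) .nil)))))) (.g (nat_lit 1) (.e (nat_lit 227282) (nat_lit 0) .nil) .nil))) 
(.lf (nat_lit 522939) (.g (nat_lit 2269) (.e (nat_lit 204861) (nat_lit 26) (.e (nat_lit 336186) (nat_lit 11) (.e (nat_lit 368676) (nat_lit 21) (.e (nat_lit 516171) (nat_lit 13) (.e (nat_lit 458774) (nat_lit 18) (.e (nat_lit 5946) (nat_lit 322) (.e (nat_lit 65280) (nat_lit 64) .nil))))))) (.g (nat_lit 1) (.e (nat_lit 228839) (nat_lit 0) .nil) .nil)))) (.nd (nat_lit 9) 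
(.lf (nat_lit 522683) (.g (nat_lit 1102) (.e (nat_lit 204855) (nat_lit 26) (.e (nat_lit 336176) (nat_lit 10) (.e (nat_lit 344130) (nat_lit 26) (.e (nat_lit 557085) (nat_lit 11) .nil)))) (.g (nat_lit 0) (.e (nat_lit 228063) (nat_lit 0) .nil) .nil))) 
(.lf (nat_lit 523195) (.g (nat_lit 3189) (.e (nat_lit 204862) (nat_lit 27) (.e (nat_lit 344129) (nat_lit 26) (.e (nat_lit 557103) (nat_lit 14) (.e (nat_lit 180250) (nat_lit 10) (.e (nat_lit 573475) (nat_lit 12) (.e (nat_lit 57507) (nat_lit 39) (.e (nat_lit 655104) (nat_lit 0) (.e (nat_lit 2685) (nat_lit 168) .nil)))))))) (.g (nat_lit 1) (.e (nat_lit 229267) (nat_lit 0) .nil) .nil)))))) 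
(.nd (nat_lit 7) (.nd (nat_lit 8) (.nd (nat_lit 9) 
(.lf (nat_lit 522363) (.g (nat_lit 1777) (.e (nat_lit 204852) (nat_lit 26) (.e (nat_lit 336324) (nat_lit 18) (.e (nat_lit 204880) (nat_lit 32) (.e (nat_lit 385066) (nat_lit 26) (.e (nat_lit 532533) (nat_lit 9) (.e (nat_lit 336322) (nat_lit 18) .nil)))))) (.g (nat_lit 1) (.e (nat_lit 227068) (nat_lit 0) .nil) .nil))) 
(.lf (nat_lit 522875) (.g (nat_lit 2514) (.e (nat_lit 204861) (nat_lit 26) (.e (nat_lit 336076) (nat_lit 9) (.e (nat_lit 336326) (nat_lit 18) (.e (nat_lit 204838) (nat_lit 20) (.e (nat_lit 114697) (nat_lit 11) (.e (nat_lit 426138) (nat_lit 3) .nil)))))) (.g (nat_lit 1) (.e (nat_lit 228736) (nat_lit 0) .nil) .nil)))) (.nd (nat_lit 9) 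
(.lf (nat_lit 522619) (.g (nat_lit 3232) (.e (nat_lit 204854) (nat_lit 26) (.e (nat_lit 336326) (nat_lit 18) (.e (nat_lit 204882) (nat_lit 32) (.e (nat_lit 385068) (nat_lit 26) (.e (nat_lit 532530) (nat_lit 9) (.e (nat_lit 336326) (nat_lit 18) .nil)))))) (.g (nat_lit 1) (.e (nat_lit 227797) (nat_lit 0) .nil) .nil))) 
(.lf (nat_lit 523131) (.g (nat_lit 2664) (.e (nat_lit 204862) (nat_lit 27) (.e (nat_lit 344117) (nat_lit 21) (.e (nat_lit 516195) (nat_lit 26) (.e (nat_lit 336027) (nat_lit 3) (.e (nat_lit 98319) (nat_lit 17) .nil))))) (.g (nat_lit 0) (.e (nat_lit 229189) (nat_lit 0) .nil) .nil))))) (.nd (nat_lit 8) (.nd (nat_lit 9) 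
(.lf (nat_lit 522491) (.g (nat_lit 2646) (.e (nat_lit 204853) (nat_lit 26) (.e (nat_lit 336324) (nat_lit 18) (.e (nat_lit 204852) (nat_lit 26) (.e (nat_lit 336324) (nat_lit 18) (.e (nat_lit 204852) (nat_lit 26) (.e (nat_lit 336324) (nat_lit 18) .nil)))))) (.g (nat_lit 1) (.e (nat_lit 227433) (nat_lit 0) .nil) .nil))) 
(.lf (nat_lit 523003) (.g (nat_lit 1257) (.e (nat_lit 204861) (nat_lit 26) (.e (nat_lit 336213) (nat_lit 13) (.e (nat_lit 393220) (nat_lit 0) .nil))) (.g (nat_lit 0) (.e (nat_lit 228974) (nat_lit 0) .nil) .nil)))) (.nd (nat_lit 9) 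
(.lf (nat_lit 522747) (.g (nat_lit 1866) (.e (nat_lit 204858) (nat_lit 26) (.e (nat_lit 336164) (nat_lit 10) (.e (nat_lit 344117) (nat_lit 21) (.e (nat_lit 516099) (nat_lit 0) .nil)))) (.g (nat_lit 0) (.e (nat_lit 228426) (nat_lit 0) .nil) .nil))) 
(.lf (nat_lit 523259) (.g (nat_lit 3370) (.e (nat_lit 204862) (nat_lit 27) (.e (nat_lit 344130) (nat_lit 26) (.e (nat_lit 557103) (nat_lit 14) (.e (nat_lit 180250) (nat_lit 10) (.e (nat_lit 573475) (nat_lit 12) (.e (nat_lit 57508) (nat_lit 39) (.e (nat_lit 647175) (nat_lit 0) (.e (nat_lit 2684) (nat_lit 168) .nil)))))))) (.g (nat_lit 1) (.e (nat_lit 229332) (nat_lit 0) .nil) .nil)))))))))) 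
(.nd (nat_lit 3) (.nd (nat_lit 4) (.nd (nat_lit 5) (.nd (nat_lit 6) (.nd (nat_lit 7) 
(.nd (nat_lit 8) (.nd (nat_lit 9) 
(.lf (nat_lit 522247) (.g (nat_lit 1774) (.e (nat_lit 204850) (nat_lit 26) (.e (nat_lit 336028) (nat_lit 3) (.e (nat_lit 98333) (nat_lit 18) (.e (nat_lit 164183) (nat_lit 154) .nil)))) (.g (nat_lit 0) (.e (nat_lit 226741) (nat_lit 0) .nil) .nil))) 
(.lf (nat_lit 522759) (.g (nat_lit 1501) (.e (nat_lit 204859) (nat_lit 26) (.e (nat_lit 336017) (nat_lit 3) (.e (nat_lit 98342) (nat_lit 20) (.e (nat_lit 221214) (nat_lit 23) .nil)))) (.g (nat_lit 0) (.e (nat_lit 228449) (nat_lit 0) .nil) .nil)))) (.nd (nat_lit 9) 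
(.lf (nat_lit 522503) (.g (nat_lit 1199) (.e (nat_lit 204853) (nat_lit 26) (.e (nat_lit 336324) (nat_lit 18) (.e (nat_lit 204854) (nat_lit 26) (.e (nat_lit 336326) (nat_lit 18) .nil)))) (.g (nat_lit 0) (.e (nat_lit 227446) (nat_lit 0) .nil) .nil))) 
(.lf (nat_lit 523015) (.g (nat_lit 1724) (.e (nat_lit 204861) (nat_lit 26) (.e (nat_lit 336213) (nat_lit 13) (.e (nat_lit 393225) (nat_lit 9) (.e (nat_lit 336033) (nat_lit 4) .nil)))) (.g (nat_lit 0) (.e (nat_lit 228988) (nat_lit 0) .nil) .nil))))) (.nd (nat_lit 8) (.nd (nat_lit 9) 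
(.lf (nat_lit 522375) (.g (nat_lit 3805) (.e (nat_lit 204852) (nat_lit 26) (.e (nat_lit 336324) (nat_lit 18) (.e (nat_lit 204882) (nat_lit 32) (.e (nat_lit 385066) (nat_lit 26) (.e (nat_lit 532530) (nat_lit 9) (.e (nat_lit 336324) (nat_lit 18) .nil)))))) (.g (nat_lit 1) (.e (nat_lit 227087) (nat_lit 0) .nil) .nil))) 
(.lf (nat_lit 522887) (.g (nat_lit 2856) (.e (nat_lit 204861) (nat_lit 26) (.e (nat_lit 336077) (nat_lit 9) (.e (nat_lit 336324) (nat_lit 18) (.e (nat_lit 204835) (nat_lit 19) (.e (nat_lit 106534) (nat_lit 11) .nil))))) (.g (nat_lit 0) (.e (nat_lit 228761) (nat_lit 0) .nil) .nil)))) (.nd (nat_lit 9) 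
(.lf (nat_lit 522631) (.g (nat_lit 2978) (.e (nat_lit 204855) (nat_lit 26) (.e (nat_lit 336099) (nat_lit 9) (.e (nat_lit 336013) (nat_lit 2) (.e (nat_lit 90165) (nat_lit 12) (.e (nat_lit 164207) (nat_lit 176) .nil))))) (.g (nat_lit 0) (.e (nat_lit 227889) (nat_lit 0) .nil) .nil))) 
(.lf (nat_lit 523143) (.g (nat_lit 1965) (.e (nat_lit 204862) (nat_lit 27) (.e (nat_lit 344119) (nat_lit 21) (.e (nat_lit 516120) (nat_lit 1) (.e (nat_lit 164183) (nat_lit 154) (.e (nat_lit 57373) (nat_lit 2) .nil))))) (.g (nat_lit 0) (.e (nat_lit 229204) (nat_lit 0) .nil) .nil)))))) (.nd (nat_lit 7) (.nd (nat_lit 8) (.nd (nat_lit 9) 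
(.lf (nat_lit 522311) (.g (nat_lit 3714) (.e (nat_lit 204852) (nat_lit 26) (.e (nat_lit 336211) (nat_lit 13) (.e (nat_lit 393225) (nat_lit 9) (.e (nat_lit 335986) (nat_lit 1) (.e (nat_lit 57926) (nat_lit 282) (.e (nat_lit 163875) (nat_lit 3) .nil)))))) (.g (nat_lit 1) (.e (nat_lit 226932) (nat_lit 0) .nil) .nil))) 
(.lf (nat_lit 522823) (.g (nat_lit 2482) (.e (nat_lit 204861) (nat_lit 26) (.e (nat_lit 336026) (nat_lit 3) (.e (nat_lit 98333) (nat_lit 18) (.e (nat_lit 164179) (nat_lit 154) (.e (nat_lit 57379) (nat_lit 3) .nil))))) (.g (nat_lit 0) (.e (nat_lit 228651) (nat_lit 0) .nil) .nil)))) (.nd (nat_lit 9) 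
(.lf (nat_lit 522567) (.g (nat_lit 395) (.e (nat_lit 204854) (nat_lit 26) (.e (nat_lit 336316) (nat_lit 17) (.e (nat_lit 204544) (nat_lit 5) .nil))) (.g (nat_lit 0) (.e (nat_lit 227676) (nat_lit 0) .nil) .nil))) 
(.lf (nat_lit 523079) (.g (nat_lit 3776) (.e (nat_lit 204862) (nat_lit 27) (.e (nat_lit 344117) (nat_lit 21) (.e (nat_lit 516116) (nat_lit 1) (.e (nat_lit 164182) (nat_lit 154) (.e (nat_lit 57375) (nat_lit 2) (.e (nat_lit 90128) (nat_lit 9) (.e (nat_lit 2706) (nat_lit 170) (.e (nat_lit 221215) (nat_lit 23) .nil)))))))) (.g (nat_lit 1) (.e (nat_lit 229112) (nat_lit 0) .nil) .nil))))) 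
(.nd (nat_lit 8) (.nd (nat_lit 9) 
(.lf (nat_lit 522439) (.g (nat_lit 3130) (.e (nat_lit 204852) (nat_lit 26) (.e (nat_lit 336326) (nat_lit 18) (.e (nat_lit 204882) (nat_lit 32) (.e (nat_lit 385065) (nat_lit 26) (.e (nat_lit 532530) (nat_lit 9) (.e (nat_lit 336326) (nat_lit 18) .nil)))))) (.g (nat_lit 1) (.e (nat_lit 227302) (nat_lit 0) .nil) .nil))) 
(.lf (nat_lit 522951) (.g (nat_lit 382) (.e (nat_lit 204861) (nat_lit 26) (.e (nat_lit 336194) (nat_lit 12) (.e (nat_lit 385066) (nat_lit 26) .nil))) (.g (nat_lit 0) (.e (nat_lit 228868) (nat_lit 0) .nil) .nil)))) (.nd (nat_lit 9) 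
(.lf (nat_lit 522695) (.g (nat_lit 3114) (.e (nat_lit 204855) (nat_lit 26) (.e (nat_lit 336176) (nat_lit 10) (.e (nat_lit 344130) (nat_lit 26) (.e (nat_lit 557090) (nat_lit 12) (.e (nat_lit 164017) (nat_lit 44) (.e (nat_lit 688139) (nat_lit 5) (.e (nat_lit 2887) (nat_lit 184) (.e (nat_lit 426134) (nat_lit 3) .nil)))))))) (.g (nat_lit 1) (.e (nat_lit 228170) (nat_lit 0) .nil) .nil))) 
(.lf (nat_lit 523207) (.g (nat_lit 2499) (.e (nat_lit 204862) (nat_lit 27) (.e (nat_lit 344129) (nat_lit 26) (.e (nat_lit 557104) (nat_lit 14) (.e (nat_lit 180251) (nat_lit 10) (.e (nat_lit 573477) (nat_lit 12) .nil))))) (.g (nat_lit 0) (.e (nat_lit 229280) (nat_lit 0) .nil) .nil))))))) (.nd (nat_lit 6) (.nd (nat_lit 7) (.nd (nat_lit 8) (.nd (nat_lit 9) 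
(.lf (nat_lit 522279) (.g (nat_lit 1467) (.e (nat_lit 204850) (nat_lit 26) (.e (nat_lit 336324) (nat_lit 18) (.e (nat_lit 204882) (nat_lit 32) (.e (nat_lit 385068) (nat_lit 26) .nil)))) (.g (nat_lit 0) (.e (nat_lit 226794) (nat_lit 0) .nil) .nil))) 
(.lf (nat_lit 522791) (.g (nat_lit 820) (.e (nat_lit 204860) (nat_lit 26) (.e (nat_lit 336232) (nat_lit 14) (.e (nat_lit 401414) (nat_lit 0) .nil))) (.g (nat_lit 0) (.e (nat_lit 228510) (nat_lit 0) .nil) .nil)))) (.nd (nat_lit 9) 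
(.lf (nat_lit 522535) (.g (nat_lit 3658) (.e (nat_lit 204854) (nat_lit 26) (.e (nat_lit 336019) (nat_lit 3) (.e (nat_lit 98341) (nat_lit 20) (.e (nat_lit 221214) (nat_lit 23) (.e (nat_lit 204830) (nat_lit 18) (.e (nat_lit 57931) (nat_lit 282) (.e (nat_lit 163874) (nat_lit 3) .nil))))))) (.g (nat_lit 1) (.e (nat_lit 227587) (nat_lit 0) .nil) .nil))) 
(.lf (nat_lit 523047) (.g (nat_lit 2366) (.e (nat_lit 204862) (nat_lit 27) (.e (nat_lit 344117) (nat_lit 21) (.e (nat_lit 516097) (nat_lit 0) (.e (nat_lit 3605) (nat_lit 225) (.e (nat_lit 761899) (nat_lit 15) (.e (nat_lit 163977) (nat_lit 30) (.e (nat_lit 573482) (nat_lit 13) (.e (nat_lit 73472) (nat_lit 18) .nil)))))))) (.g (nat_lit 1) (.e (nat_lit 229055) (nat_lit 0) .nil) .nil))))) 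
(.nd (nat_lit 8) (.nd (nat_lit 9) 
(.lf (nat_lit 522407) (.g (nat_lit 1763) (.e (nat_lit 204852) (nat_lit 26) (.e (nat_lit 336326) (nat_lit 18) (.e (nat_lit 204854) (nat_lit 26) (.e (nat_lit 336258) (nat_lit 15) .nil)))) (.g (nat_lit 0) (.e (nat_lit 227207) (nat_lit 0) .nil) .nil))) 
(.lf (nat_lit 522919) (.g (nat_lit 1992) (.e (nat_lit 204861) (nat_lit 26) (.e (nat_lit 336186) (nat_lit 11) (.e (nat_lit 368676) (nat_lit 21) (.e (nat_lit 516139) (nat_lit 7) (.e (nat_lit 417536) (nat_lit 18) (.e (nat_lit 303118) (nat_lit 3) .nil)))))) (.g (nat_lit 1) (.e (nat_lit 228805) (nat_lit 0) .nil) .nil)))) (.nd (nat_lit 9) 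
(.lf (nat_lit 522663) (.g (nat_lit 2934) (.e (nat_lit 204855) (nat_lit 26) (.e (nat_lit 336171) (nat_lit 10) (.e (nat_lit 344131) (nat_lit 26) (.e (nat_lit 557090) (nat_lit 12) (.e (nat_lit 164020) (nat_lit 45) (.e (nat_lit 696344) (nat_lit 8) (.e (nat_lit 172067) (nat_lit 3) .nil))))))) (.g (nat_lit 1) (.e (nat_lit 227958) (nat_lit 0) .nil) .nil))) 
(.lf (nat_lit 523175) (.g (nat_lit 2730) (.e (nat_lit 204862) (nat_lit 27) (.e (nat_lit 344129) (nat_lit 26) (.e (nat_lit 557103) (nat_lit 14) (.e (nat_lit 180243) (nat_lit 5) (.e (nat_lit 532501) (nat_lit 1) (.e (nat_lit 57703) (nat_lit 164) (.e (nat_lit 2477) (nat_lit 157) (.e (nat_lit 2684) (nat_lit 168) .nil)))))))) (.g (nat_lit 1) (.e (nat_lit 229246) (nat_lit 0) .nil) .nil)))))) 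
(.nd (nat_lit 7) (.nd (nat_lit 8) (.nd (nat_lit 9) 
(.lf (nat_lit 522343) (.g (nat_lit 3479) (.e (nat_lit 204852) (nat_lit 26) (.e (nat_lit 336324) (nat_lit 18) (.e (nat_lit 204831) (nat_lit 18) (.e (nat_lit 57854) (nat_lit 252) (.e (nat_lit 57376) (nat_lit 3) .nil))))) (.g (nat_lit 0) (.e (nat_lit 227004) (nat_lit 0) .nil) .nil))) 
(.lf (nat_lit 522855) (.g (nat_lit 3570) (.e (nat_lit 204861) (nat_lit 26) (.e (nat_lit 336075) (nat_lit 9) (.e (nat_lit 336454) (nat_lit 34) (.e (nat_lit 483363) (nat_lit 18) (.e (nat_lit 57931) (nat_lit 282) (.e (nat_lit 163873) (nat_lit 3) .nil)))))) (.g (nat_lit 1) (.e (nat_lit 228703) (nat_lit 0) .nil) .nil)))) (.nd (nat_lit 9) 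
(.lf (nat_lit 522599) (.g (nat_lit 1823) (.e (nat_lit 204854) (nat_lit 26) (.e (nat_lit 336326) (nat_lit 18) (.e (nat_lit 204879) (nat_lit 32) (.e (nat_lit 385068) (nat_lit 26) (.e (nat_lit 532534) (nat_lit 9) (.e (nat_lit 336324) (nat_lit 18) .nil)))))) (.g (nat_lit 1) (.e (nat_lit 227775) (nat_lit 0) .nil) .nil))) 
(.lf (nat_lit 523111) (.g (nat_lit 4139) (.e (nat_lit 204862) (nat_lit 27) (.e (nat_lit 344117) (nat_lit 21) (.e (nat_lit 516129) (nat_lit 3) (.e (nat_lit 221215) (nat_lit 23) (.e (nat_lit 204830) (nat_lit 18) (.e (nat_lit 57926) (nat_lit 282) (.e (nat_lit 163875) (nat_lit 3) .nil))))))) (.g (nat_lit 1) (.e (nat_lit 229156) (nat_lit 0) .nil) .nil))))) (.nd (nat_lit 8) (.nd (nat_lit 9) 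
(.lf (nat_lit 522471) (.g (nat_lit 1758) (.e (nat_lit 204853) (nat_lit 26) (.e (nat_lit 336019) (nat_lit 3) (.e (nat_lit 98342) (nat_lit 20) (.e (nat_lit 221212) (nat_lit 22) .nil)))) (.g (nat_lit 0) (.e (nat_lit 227411) (nat_lit 0) .nil) .nil))) 
(.lf (nat_lit 522983) (.g (nat_lit 2903) (.e (nat_lit 204861) (nat_lit 26) (.e (nat_lit 336194) (nat_lit 12) (.e (nat_lit 385072) (nat_lit 31) (.e (nat_lit 573482) (nat_lit 13) (.e (nat_lit 65630) (nat_lit 14) (.e (nat_lit 401428) (nat_lit 3) .nil)))))) (.g (nat_lit 1) (.e (nat_lit 228924) (nat_lit 0) .nil) .nil)))) (.nd (nat_lit 9) 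
(.lf (nat_lit 522727) (.g (nat_lit 3711) (.e (nat_lit 204855) (nat_lit 26) (.e (nat_lit 336178) (nat_lit 10) (.e (nat_lit 344117) (nat_lit 21) (.e (nat_lit 516099) (nat_lit 0) (.e (nat_lit 7936) (nat_lit 377) .nil))))) (.g (nat_lit 0) (.e (nat_lit 228334) (nat_lit 0) .nil) .nil))) 
(.lf (nat_lit 523239) (.g (nat_lit 3360) (.e (nat_lit 204862) (nat_lit 27) (.e (nat_lit 344129) (nat_lit 26) (.e (nat_lit 557105) (nat_lit 14) (.e (nat_lit 180252) (nat_lit 10) (.e (nat_lit 573503) (nat_lit 18) .nil))))) (.g (nat_lit 0) (.e (nat_lit 229312) (nat_lit 0) .nil) .nil)))))))) (.nd (nat_lit 5) (.nd (nat_lit 6) (.nd (nat_lit 7) (.nd (nat_lit 8) (.nd (nat_lit 9) 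
(.lf (nat_lit 522263) (.g (nat_lit 357) (.e (nat_lit 204850) (nat_lit 26) (.e (nat_lit 336224) (nat_lit 13) (.e (nat_lit 393221) (nat_lit 0) .nil))) (.g (nat_lit 0) (.e (nat_lit 226763) (nat_lit 0) .nil) .nil))) 
(.lf (nat_lit 522775) (.g (nat_lit 1932) (.e (nat_lit 204859) (nat_lit 26) (.e (nat_lit 336206) (nat_lit 12) (.e (nat_lit 385074) (nat_lit 31) (.e (nat_lit 573487) (nat_lit 14) (.e (nat_lit 81664) (nat_lit 32) (.e (nat_lit 2679) (nat_lit 168) .nil)))))) (.g (nat_lit 1) (.e (nat_lit 228482) (nat_lit 0) .nil) .nil)))) (.nd (nat_lit 9) 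
(.lf (nat_lit 522519) (.g (nat_lit 2534) (.e (nat_lit 204853) (nat_lit 26) (.e (nat_lit 336324) (nat_lit 18) (.e (nat_lit 204882) (nat_lit 32) (.e (nat_lit 385066) (nat_lit 26) (.e (nat_lit 532534) (nat_lit 9) (.e (nat_lit 336326) (nat_lit 18) .nil)))))) (.g (nat_lit 1) (.e (nat_lit 227463) (nat_lit 0) .nil) .nil))) 
(.lf (nat_lit 523031) (.g (nat_lit 2424) (.e (nat_lit 204861) (nat_lit 26) (.e (nat_lit 336231) (nat_lit 14) (.e (nat_lit 401423) (nat_lit 2) (.e (nat_lit 196666) (nat_lit 13) (.e (nat_lit 65630) (nat_lit 14) .nil))))) (.g (nat_lit 0) (.e (nat_lit 229021) (nat_lit 0) .nil) .nil))))) (.nd (nat_lit 8) (.nd (nat_lit 9) 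
(.lf (nat_lit 522391) (.g (nat_lit 1110) (.e (nat_lit 204852) (nat_lit 26) (.e (nat_lit 336326) (nat_lit 18) (.e (nat_lit 204830) (nat_lit 18) (.e (nat_lit 57852) (nat_lit 252) .nil)))) (.g (nat_lit 0) (.e (nat_lit 227115) (nat_lit 0) .nil) .nil))) 
(.lf (nat_lit 522903) (.g (nat_lit 3015) (.e (nat_lit 204861) (nat_lit 26) (.e (nat_lit 336078) (nat_lit 9) (.e (nat_lit 336454) (nat_lit 34) (.e (nat_lit 483365) (nat_lit 18) (.e (nat_lit 57931) (nat_lit 282) (.e (nat_lit 163873) (nat_lit 3) .nil)))))) (.g (nat_lit 1) (.e (nat_lit 228782) (nat_lit 0) .nil) .nil)))) (.nd (nat_lit 9) 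
(.lf (nat_lit 522647) (.g (nat_lit 3783) (.e (nat_lit 204855) (nat_lit 26) (.e (nat_lit 336099) (nat_lit 9) (.e (nat_lit 336013) (nat_lit 2) (.e (nat_lit 90165) (nat_lit 12) (.e (nat_lit 171776) (nat_lit 176) (.e (nat_lit 2798) (nat_lit 180) (.e (nat_lit 303119) (nat_lit 3) .nil))))))) (.g (nat_lit 1) (.e (nat_lit 227905) (nat_lit 0) .nil) .nil))) 
(.lf (nat_lit 523159) (.g (nat_lit 1678) (.e (nat_lit 204862) (nat_lit 27) (.e (nat_lit 344129) (nat_lit 26) (.e (nat_lit 557097) (nat_lit 13) (.e (nat_lit 172066) (nat_lit 3) .nil)))) (.g (nat_lit 0) (.e (nat_lit 229230) (nat_lit 0) .nil) .nil)))))) (.nd (nat_lit 7) (.nd (nat_lit 8) (.nd (nat_lit 9) 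
(.lf (nat_lit 522327) (.g (nat_lit 1989) (.e (nat_lit 204852) (nat_lit 26) (.e (nat_lit 336324) (nat_lit 18) (.e (nat_lit 204830) (nat_lit 18) (.e (nat_lit 57854) (nat_lit 252) (.e (nat_lit 57378) (nat_lit 3) .nil))))) (.g (nat_lit 0) (.e (nat_lit 226981) (nat_lit 0) .nil) .nil))) 
(.lf (nat_lit 522839) (.g (nat_lit 933) (.e (nat_lit 204861) (nat_lit 26) (.e (nat_lit 336075) (nat_lit 9) (.e (nat_lit 336324) (nat_lit 18) (.e (nat_lit 204815) (nat_lit 17) .nil)))) (.g (nat_lit 0) (.e (nat_lit 228675) (nat_lit 0) .nil) .nil)))) (.nd (nat_lit 9) 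
(.lf (nat_lit 522583) (.g (nat_lit 3896) (.e (nat_lit 204854) (nat_lit 26) (.e (nat_lit 336324) (nat_lit 18) (.e (nat_lit 204880) (nat_lit 32) (.e (nat_lit 385066) (nat_lit 26) (.e (nat_lit 532530) (nat_lit 9) (.e (nat_lit 336324) (nat_lit 18) .nil)))))) (.g (nat_lit 1) (.e (nat_lit 227719) (nat_lit 0) .nil) .nil))) 
(.lf (nat_lit 523095) (.g (nat_lit 2486) (.e (nat_lit 204862) (nat_lit 27) (.e (nat_lit 344117) (nat_lit 21) (.e (nat_lit 516118) (nat_lit 1) (.e (nat_lit 164183) (nat_lit 154) (.e (nat_lit 57373) (nat_lit 2) .nil))))) (.g (nat_lit 0) (.e (nat_lit 229137) (nat_lit 0) .nil) .nil))))) (.nd (nat_lit 8) (.nd (nat_lit 9) 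
(.lf (nat_lit 522455) (.g (nat_lit 2315) (.e (nat_lit 204852) (nat_lit 26) (.e (nat_lit 336326) (nat_lit 18) (.e (nat_lit 204882) (nat_lit 32) (.e (nat_lit 385068) (nat_lit 26) (.e (nat_lit 532530) (nat_lit 9) (.e (nat_lit 336322) (nat_lit 18) .nil)))))) (.g (nat_lit 1) (.e (nat_lit 227321) (nat_lit 0) .nil) .nil))) 
(.lf (nat_lit 522967) (.g (nat_lit 1581) (.e (nat_lit 204861) (nat_lit 26) (.e (nat_lit 336194) (nat_lit 12) (.e (nat_lit 385068) (nat_lit 26) (.e (nat_lit 532490) (nat_lit 0) .nil)))) (.g (nat_lit 0) (.e (nat_lit 228905) (nat_lit 0) .nil) .nil)))) (.nd (nat_lit 9) 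
(.lf (nat_lit 522711) (.g (nat_lit 3282) (.e (nat_lit 204855) (nat_lit 26) (.e (nat_lit 336176) (nat_lit 10) (.e (nat_lit 344133) (nat_lit 26) (.e (nat_lit 557089) (nat_lit 12) (.e (nat_lit 164017) (nat_lit 44) (.e (nat_lit 688139) (nat_lit 5) (.e (nat_lit 2887) (nat_lit 184) (.e (nat_lit 426134) (nat_lit 3) .nil)))))))) (.g (nat_lit 1) (.e (nat_lit 228260) (nat_lit 0) .nil) .nil))) 
(.lf (nat_lit 523223) (.g (nat_lit 3051) (.e (nat_lit 204862) (nat_lit 27) (.e (nat_lit 344129) (nat_lit 26) (.e (nat_lit 557104) (nat_lit 14) (.e (nat_lit 180252) (nat_lit 10) (.e (nat_lit 573475) (nat_lit 12) (.e (nat_lit 57505) (nat_lit 39) (.e (nat_lit 655104) (nat_lit 0) (.e (nat_lit 2684) (nat_lit 168) .nil)))))))) (.g (nat_lit 1) (.e (nat_lit 229296) (nat_lit 0) .nil) .nil))))))) 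
(.nd (nat_lit 6) (.nd (nat_lit 7) (.nd (nat_lit 8) (.nd (nat_lit 9) 
(.lf (nat_lit 522295) (.g (nat_lit 2969) (.e (nat_lit 204851) (nat_lit 26) (.e (nat_lit 336324) (nat_lit 18) (.e (nat_lit 204853) (nat_lit 26) (.e (nat_lit 336324) (nat_lit 18) (.e (nat_lit 204854) (nat_lit 26) (.e (nat_lit 336326) (nat_lit 18) .nil)))))) (.g (nat_lit 1) (.e (nat_lit 226834) (nat_lit 0) .nil) .nil))) 
(.lf (nat_lit 522807) (.g (nat_lit 1729) (.e (nat_lit 204861) (nat_lit 26) (.e (nat_lit 335988) (nat_lit 1) (.e (nat_lit 57927) (nat_lit 282) (.e (nat_lit 163844) (nat_lit 0) (.e (nat_lit 7936) (nat_lit 200) .nil))))) (.g (nat_lit 0) (.e (nat_lit 228567) (nat_lit 0) .nil) .nil)))) (.nd (nat_lit 9) 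
(.lf (nat_lit 522551) (.g (nat_lit 4754) (.e (nat_lit 204854) (nat_lit 26) (.e (nat_lit 336019) (nat_lit 3) (.e (nat_lit 98342) (nat_lit 20) (.e (nat_lit 221214) (nat_lit 23) (.e (nat_lit 204831) (nat_lit 18) (.e (nat_lit 57931) (nat_lit 282) (.e (nat_lit 163874) (nat_lit 3) .nil))))))) (.g (nat_lit 1) (.e (nat_lit 227619) (nat_lit 0) .nil) .nil))) 
(.lf (nat_lit 523063) (.g (nat_lit 2467) (.e (nat_lit 204862) (nat_lit 27) (.e (nat_lit 344117) (nat_lit 21) (.e (nat_lit 516115) (nat_lit 1) (.e (nat_lit 164182) (nat_lit 154) (.e (nat_lit 57379) (nat_lit 3) (.e (nat_lit 98321) (nat_lit 17) (.e (nat_lit 3771) (nat_lit 229) (.e (nat_lit 794673) (nat_lit 23) .nil)))))))) (.g (nat_lit 1) (.e (nat_lit 229083) (nat_lit 0) .nil) .nil))))) 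
(.nd (nat_lit 8) (.nd (nat_lit 9) 
(.lf (nat_lit 522423) (.g (nat_lit 2384) (.e (nat_lit 204852) (nat_lit 26) (.e (nat_lit 336326) (nat_lit 18) (.e (nat_lit 204880) (nat_lit 32) (.e (nat_lit 385066) (nat_lit 26) (.e (nat_lit 532533) (nat_lit 9) (.e (nat_lit 336324) (nat_lit 18) .nil)))))) (.g (nat_lit 1) (.e (nat_lit 227278) (nat_lit 0) .nil) .nil))) 
(.lf (nat_lit 522935) (.g (nat_lit 1972) (.e (nat_lit 204861) (nat_lit 26) (.e (nat_lit 336186) (nat_lit 11) (.e (nat_lit 368676) (nat_lit 21) (.e (nat_lit 516171) (nat_lit 13) (.e (nat_lit 458774) (nat_lit 18) (.e (nat_lit 5935) (nat_lit 322) (.e (nat_lit 65280) (nat_lit 64) .nil))))))) (.g (nat_lit 1) (.e (nat_lit 228835) (nat_lit 0) .nil) .nil)))) (.nd (nat_lit 9) 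
(.lf (nat_lit 522679) (.g (nat_lit 1892) (.e (nat_lit 204855) (nat_lit 26) (.e (nat_lit 336176) (nat_lit 10) (.e (nat_lit 344130) (nat_lit 26) (.e (nat_lit 557065) (nat_lit 9) (.e (nat_lit 2399) (nat_lit 157) .nil))))) (.g (nat_lit 0) (.e (nat_lit 228019) (nat_lit 0) .nil) .nil))) 
(.lf (nat_lit 523191) (.g (nat_lit 4532) (.e (nat_lit 204862) (nat_lit 27) (.e (nat_lit 344129) (nat_lit 26) (.e (nat_lit 557103) (nat_lit 14) (.e (nat_lit 180250) (nat_lit 10) (.e (nat_lit 573475) (nat_lit 12) (.e (nat_lit 57506) (nat_lit 39) (.e (nat_lit 655104) (nat_lit 0) (.e (nat_lit 2684) (nat_lit 168) .nil)))))))) (.g (nat_lit 1) (.e (nat_lit 229263) (nat_lit 0) .nil) .nil)))))) 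
(.nd (nat_lit 7) (.nd (nat_lit 8) (.nd (nat_lit 9) 
(.lf (nat_lit 522359) (.g (nat_lit 2062) (.e (nat_lit 204852) (nat_lit 26) (.e (nat_lit 336324) (nat_lit 18) (.e (nat_lit 204880) (nat_lit 32) (.e (nat_lit 385066) (nat_lit 26) (.e (nat_lit 532528) (nat_lit 9) (.e (nat_lit 336324) (nat_lit 18) .nil)))))) (.g (nat_lit 1) (.e (nat_lit 227064) (nat_lit 0) .nil) .nil))) 
(.lf (nat_lit 522871) (.g (nat_lit 1157) (.e (nat_lit 204861) (nat_lit 26) (.e (nat_lit 336076) (nat_lit 9) (.e (nat_lit 336326) (nat_lit 18) (.e (nat_lit 204834) (nat_lit 19) .nil)))) (.g (nat_lit 0) (.e (nat_lit 228732) (nat_lit 0) .nil) .nil)))) (.nd (nat_lit 9) 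
(.lf (nat_lit 522615) (.g (nat_lit 3665) (.e (nat_lit 204854) (nat_lit 26) (.e (nat_lit 336326) (nat_lit 18) (.e (nat_lit 204882) (nat_lit 32) (.e (nat_lit 385066) (nat_lit 26) (.e (nat_lit 532534) (nat_lit 9) (.e (nat_lit 336324) (nat_lit 18) .nil)))))) (.g (nat_lit 1) (.e (nat_lit 227792) (nat_lit 0) .nil) .nil))) 
(.lf (nat_lit 523127) (.g (nat_lit 2312) (.e (nat_lit 204862) (nat_lit 27) (.e (nat_lit 344117) (nat_lit 21) (.e (nat_lit 516131) (nat_lit 3) (.e (nat_lit 221212) (nat_lit 22) (.e (nat_lit 196677) (nat_lit 16) .nil))))) (.g (nat_lit 0) (.e (nat_lit 229172) (nat_lit 0) .nil) .nil))))) (.nd (nat_lit 8) (.nd (nat_lit 9) 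
(.lf (nat_lit 522487) (.g (nat_lit 1541) (.e (nat_lit 204853) (nat_lit 26) (.e (nat_lit 336324) (nat_lit 18) (.e (nat_lit 204852) (nat_lit 26) (.e (nat_lit 336316) (nat_lit 17) (.e (nat_lit 196664) (nat_lit 13) (.e (nat_lit 73472) (nat_lit 18) .nil)))))) (.g (nat_lit 1) (.e (nat_lit 227429) (nat_lit 0) .nil) .nil))) 
(.lf (nat_lit 522999) (.g (nat_lit 2590) (.e (nat_lit 204861) (nat_lit 26) (.e (nat_lit 336203) (nat_lit 12) (.e (nat_lit 385074) (nat_lit 31) (.e (nat_lit 573482) (nat_lit 13) (.e (nat_lit 65628) (nat_lit 14) (.e (nat_lit 401428) (nat_lit 3) .nil)))))) (.g (nat_lit 1) (.e (nat_lit 228966) (nat_lit 0) .nil) .nil)))) (.nd (nat_lit 9) 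
(.lf (nat_lit 522743) (.g (nat_lit 1728) (.e (nat_lit 204856) (nat_lit 26) (.e (nat_lit 336228) (nat_lit 14) (.e (nat_lit 401425) (nat_lit 2) (.e (nat_lit 196665) (nat_lit 13) .nil)))) (.g (nat_lit 0) (.e (nat_lit 228414) (nat_lit 0) .nil) .nil))) 
(.lf (nat_lit 523255) (.g (nat_lit 3241) (.e (nat_lit 204862) (nat_lit 27) (.e (nat_lit 344130) (nat_lit 26) (.e (nat_lit 557103) (nat_lit 14) (.e (nat_lit 180250) (nat_lit 10) (.e (nat_lit 573474) (nat_lit 12) (.e (nat_lit 57508) (nat_lit 39) (.e (nat_lit 647175) (nat_lit 0) (.e (nat_lit 2684) (nat_lit 168) .nil)))))))) (.g (nat_lit 1) (.e (nat_lit 229328) (nat_lit 0) .nil) .nil))))))))) 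
(.nd (nat_lit 4) (.nd (nat_lit 5) (.nd (nat_lit 6) (.nd (nat_lit 7) (.nd (nat_lit 8) 
(.nd (nat_lit 9) 
(.lf (nat_lit 522255) (.g (nat_lit 2395) (.e (nat_lit 204850) (nat_lit 26) (.e (nat_lit 336178) (nat_lit 10) (.e (nat_lit 344117) (nat_lit 21) (.e (nat_lit 516106) (nat_lit 0) (.e (nat_lit 7936) (nat_lit 377) .nil))))) (.g (nat_lit 0) (.e (nat_lit 226754) (nat_lit 0) .nil) .nil))) 
(.lf (nat_lit 522767) (.g (nat_lit 1390) (.e (nat_lit 204859) (nat_lit 26) (.e (nat_lit 336206) (nat_lit 12) (.e (nat_lit 385066) (nat_lit 26) (.e (nat_lit 532515) (nat_lit 3) (.e (nat_lit 122624) (nat_lit 11) .nil))))) (.g (nat_lit 0) (.e (nat_lit 228467) (nat_lit 0) .nil) .nil)))) (.nd (nat_lit 9) 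
(.lf (nat_lit 522511) (.g (nat_lit 2454) (.e (nat_lit 204853) (nat_lit 26) (.e (nat_lit 336324) (nat_lit 18) (.e (nat_lit 204880) (nat_lit 32) (.e (nat_lit 385066) (nat_lit 26) (.e (nat_lit 532534) (nat_lit 9) (.e (nat_lit 336326) (nat_lit 18) .nil)))))) (.g (nat_lit 1) (.e (nat_lit 227455) (nat_lit 0) .nil) .nil))) 
(.lf (nat_lit 523023) (.g (nat_lit 462) (.e (nat_lit 204861) (nat_lit 26) (.e (nat_lit 336215) (nat_lit 13) (.e (nat_lit 401152) (nat_lit 9) .nil))) (.g (nat_lit 0) (.e (nat_lit 229005) (nat_lit 0) .nil) .nil))))) (.nd (nat_lit 8) (.nd (nat_lit 9) 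
(.lf (nat_lit 522383) (.g (nat_lit 3519) (.e (nat_lit 204852) (nat_lit 26) (.e (nat_lit 336324) (nat_lit 18) (.e (nat_lit 204882) (nat_lit 32) (.e (nat_lit 385066) (nat_lit 26) (.e (nat_lit 532534) (nat_lit 9) (.e (nat_lit 336325) (nat_lit 18) .nil)))))) (.g (nat_lit 1) (.e (nat_lit 227095) (nat_lit 0) .nil) .nil))) 
(.lf (nat_lit 522895) (.g (nat_lit 2780) (.e (nat_lit 204861) (nat_lit 26) (.e (nat_lit 336078) (nat_lit 9) (.e (nat_lit 336324) (nat_lit 18) (.e (nat_lit 204837) (nat_lit 20) (.e (nat_lit 114697) (nat_lit 11) (.e (nat_lit 426138) (nat_lit 3) .nil)))))) (.g (nat_lit 1) (.e (nat_lit 228774) (nat_lit 0) .nil) .nil)))) (.nd (nat_lit 9) 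
(.lf (nat_lit 522639) (.g (nat_lit 3811) (.e (nat_lit 204855) (nat_lit 26) (.e (nat_lit 336099) (nat_lit 9) (.e (nat_lit 336013) (nat_lit 2) (.e (nat_lit 90165) (nat_lit 12) (.e (nat_lit 164208) (nat_lit 176) (.e (nat_lit 2819) (nat_lit 181) (.e (nat_lit 311315) (nat_lit 3) .nil))))))) (.g (nat_lit 1) (.e (nat_lit 227897) (nat_lit 0) .nil) .nil))) 
(.lf (nat_lit 523151) (.g (nat_lit 2122) (.e (nat_lit 204862) (nat_lit 27) (.e (nat_lit 344129) (nat_lit 26) (.e (nat_lit 557096) (nat_lit 13) (.e (nat_lit 172133) (nat_lit 15) (.e (nat_lit 1800) (nat_lit 119) .nil))))) (.g (nat_lit 0) (.e (nat_lit 229222) (nat_lit 0) .nil) .nil)))))) (.nd (nat_lit 7) (.nd (nat_lit 8) (.nd (nat_lit 9) 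
(.lf (nat_lit 522319) (.g (nat_lit 423) (.e (nat_lit 204852) (nat_lit 26) (.e (nat_lit 336316) (nat_lit 17) (.e (nat_lit 196622) (nat_lit 9) .nil))) (.g (nat_lit 0) (.e (nat_lit 226941) (nat_lit 0) .nil) .nil))) 
(.lf (nat_lit 522831) (.g (nat_lit 2265) (.e (nat_lit 204861) (nat_lit 26) (.e (nat_lit 336073) (nat_lit 9) (.e (nat_lit 336013) (nat_lit 2) (.e (nat_lit 90165) (nat_lit 12) (.e (nat_lit 164210) (nat_lit 176) .nil))))) (.g (nat_lit 0) (.e (nat_lit 228665) (nat_lit 0) .nil) .nil)))) (.nd (nat_lit 9) 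
(.lf (nat_lit 522575) (.g (nat_lit 2026) (.e (nat_lit 204854) (nat_lit 26) (.e (nat_lit 336324) (nat_lit 18) (.e (nat_lit 204854) (nat_lit 26) (.e (nat_lit 336284) (nat_lit 15) .nil)))) (.g (nat_lit 0) (.e (nat_lit 227705) (nat_lit 0) .nil) .nil))) 
(.lf (nat_lit 523087) (.g (nat_lit 4341) (.e (nat_lit 204862) (nat_lit 27) (.e (nat_lit 344117) (nat_lit 21) (.e (nat_lit 516116) (nat_lit 1) (.e (nat_lit 164183) (nat_lit 154) (.e (nat_lit 57375) (nat_lit 2) (.e (nat_lit 90181) (nat_lit 16) (.e (nat_lit 229472) (nat_lit 57) (.e (nat_lit 794673) (nat_lit 23) .nil)))))))) (.g (nat_lit 1) (.e (nat_lit 229129) (nat_lit 0) .nil) .nil))))) 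
(.nd (nat_lit 8) (.nd (nat_lit 9) 
(.lf (nat_lit 522447) (.g (nat_lit 2509) (.e (nat_lit 204852) (nat_lit 26) (.e (nat_lit 336326) (nat_lit 18) (.e (nat_lit 204882) (nat_lit 32) (.e (nat_lit 385066) (nat_lit 26) (.e (nat_lit 532532) (nat_lit 9) (.e (nat_lit 336326) (nat_lit 18) .nil)))))) (.g (nat_lit 1) (.e (nat_lit 227311) (nat_lit 0) .nil) .nil))) 
(.lf (nat_lit 522959) (.g (nat_lit 3001) (.e (nat_lit 204861) (nat_lit 26) (.e (nat_lit 336194) (nat_lit 12) (.e (nat_lit 385066) (nat_lit 26) (.e (nat_lit 532515) (nat_lit 3) (.e (nat_lit 114694) (nat_lit 11) (.e (nat_lit 426133) (nat_lit 3) .nil)))))) (.g (nat_lit 1) (.e (nat_lit 228881) (nat_lit 0) .nil) .nil)))) (.nd (nat_lit 9) 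
(.lf (nat_lit 522703) (.g (nat_lit 917) (.e (nat_lit 204855) (nat_lit 26) (.e (nat_lit 336176) (nat_lit 10) (.e (nat_lit 344132) (nat_lit 26) (.e (nat_lit 557094) (nat_lit 12) .nil)))) (.g (nat_lit 0) (.e (nat_lit 228220) (nat_lit 0) .nil) .nil))) 
(.lf (nat_lit 523215) (.g (nat_lit 4378) (.e (nat_lit 204862) (nat_lit 27) (.e (nat_lit 344129) (nat_lit 26) (.e (nat_lit 557104) (nat_lit 14) (.e (nat_lit 180252) (nat_lit 10) (.e (nat_lit 573474) (nat_lit 12) (.e (nat_lit 57506) (nat_lit 39) (.e (nat_lit 655104) (nat_lit 0) (.e (nat_lit 2684) (nat_lit 168) .nil)))))))) (.g (nat_lit 1) (.e (nat_lit 229288) (nat_lit 0) .nil) .nil))))))) 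
(.nd (nat_lit 6) (.nd (nat_lit 7) (.nd (nat_lit 8) (.nd (nat_lit 9) 
(.lf (nat_lit 522287) (.g (nat_lit 2089) (.e (nat_lit 204851) (nat_lit 26) (.e (nat_lit 336019) (nat_lit 3) (.e (nat_lit 98342) (nat_lit 20) (.e (nat_lit 221214) (nat_lit 23) (.e (nat_lit 204830) (nat_lit 18) .nil))))) (.g (nat_lit 0) (.e (nat_lit 226819) (nat_lit 0) .nil) .nil))) 
(.lf (nat_lit 522799) (.g (nat_lit 788) (.e (nat_lit 204861) (nat_lit 26) (.e (nat_lit 335988) (nat_lit 1) (.e (nat_lit 57852) (nat_lit 252) .nil))) (.g (nat_lit 0) (.e (nat_lit 228537) (nat_lit 0) .nil) .nil)))) (.nd (nat_lit 9) 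
(.lf (nat_lit 522543) (.g (nat_lit 1561) (.e (nat_lit 204854) (nat_lit 26) (.e (nat_lit 336019) (nat_lit 3) (.e (nat_lit 98342) (nat_lit 20) (.e (nat_lit 221211) (nat_lit 22) .nil)))) (.g (nat_lit 0) (.e (nat_lit 227605) (nat_lit 0) .nil) .nil))) 
(.lf (nat_lit 523055) (.g (nat_lit 4367) (.e (nat_lit 204862) (nat_lit 27) (.e (nat_lit 344117) (nat_lit 21) (.e (nat_lit 516115) (nat_lit 1) (.e (nat_lit 164179) (nat_lit 154) (.e (nat_lit 57372) (nat_lit 2) (.e (nat_lit 90128) (nat_lit 9) (.e (nat_lit 2706) (nat_lit 170) (.e (nat_lit 221214) (nat_lit 23) .nil)))))))) (.g (nat_lit 1) (.e (nat_lit 229073) (nat_lit 0) .nil) .nil))))) 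
(.nd (nat_lit 8) (.nd (nat_lit 9) 
(.lf (nat_lit 522415) (.g (nat_lit 2401) (.e (nat_lit 204852) (nat_lit 26) (.e (nat_lit 336326) (nat_lit 18) (.e (nat_lit 204854) (nat_lit 26) (.e (nat_lit 336326) (nat_lit 18) (.e (nat_lit 204853) (nat_lit 26) (.e (nat_lit 336324) (nat_lit 18) .nil)))))) (.g (nat_lit 1) (.e (nat_lit 227242) (nat_lit 0) .nil) .nil))) 
(.lf (nat_lit 522927) (.g (nat_lit 1935) (.e (nat_lit 204861) (nat_lit 26) (.e (nat_lit 336186) (nat_lit 11) (.e (nat_lit 368676) (nat_lit 21) (.e (nat_lit 516169) (nat_lit 13) (.e (nat_lit 458774) (nat_lit 18) (.e (nat_lit 5938) (nat_lit 322) (.e (nat_lit 65280) (nat_lit 64) .nil))))))) (.g (nat_lit 1) (.e (nat_lit 228817) (nat_lit 0) .nil) .nil)))) (.nd (nat_lit 9) 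
(.lf (nat_lit 522671) (.g (nat_lit 5108) (.e (nat_lit 204855) (nat_lit 26) (.e (nat_lit 336176) (nat_lit 10) (.e (nat_lit 344117) (nat_lit 21) (.e (nat_lit 516139) (nat_lit 7) (.e (nat_lit 409645) (nat_lit 18) (.e (nat_lit 303118) (nat_lit 3) .nil)))))) (.g (nat_lit 1) (.e (nat_lit 227979) (nat_lit 0) .nil) .nil))) 
(.lf (nat_lit 523183) (.g (nat_lit 3527) (.e (nat_lit 204862) (nat_lit 27) (.e (nat_lit 344129) (nat_lit 26) (.e (nat_lit 557103) (nat_lit 14) (.e (nat_lit 180250) (nat_lit 10) (.e (nat_lit 573473) (nat_lit 12) (.e (nat_lit 57508) (nat_lit 39) (.e (nat_lit 647168) (nat_lit 0) (.e (nat_lit 2685) (nat_lit 168) .nil)))))))) (.g (nat_lit 1) (.e (nat_lit 229255) (nat_lit 0) .nil) .nil)))))) 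
(.nd (nat_lit 7) (.nd (nat_lit 8) (.nd (nat_lit 9) 
(.lf (nat_lit 522351) (.g (nat_lit 3170) (.e (nat_lit 204852) (nat_lit 26) (.e (nat_lit 336324) (nat_lit 18) (.e (nat_lit 204853) (nat_lit 26) (.e (nat_lit 336324) (nat_lit 18) (.e (nat_lit 204854) (nat_lit 26) (.e (nat_lit 336325) (nat_lit 18) .nil)))))) (.g (nat_lit 1) (.e (nat_lit 227031) (nat_lit 0) .nil) .nil))) 
(.lf (nat_lit 522863) (.g (nat_lit 3052) (.e (nat_lit 204861) (nat_lit 26) (.e (nat_lit 336075) (nat_lit 9) (.e (nat_lit 336454) (nat_lit 34) (.e (nat_lit 483366) (nat_lit 18) (.e (nat_lit 57931) (nat_lit 282) (.e (nat_lit 163873) (nat_lit 3) .nil)))))) (.g (nat_lit 1) (.e (nat_lit 228711) (nat_lit 0) .nil) .nil)))) (.nd (nat_lit 9) 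
(.lf (nat_lit 522607) (.g (nat_lit 3168) (.e (nat_lit 204854) (nat_lit 26) (.e (nat_lit 336326) (nat_lit 18) (.e (nat_lit 204880) (nat_lit 32) (.e (nat_lit 385068) (nat_lit 26) (.e (nat_lit 532530) (nat_lit 9) (.e (nat_lit 336326) (nat_lit 18) .nil)))))) (.g (nat_lit 1) (.e (nat_lit 227784) (nat_lit 0) .nil) .nil))) 
(.lf (nat_lit 523119) (.g (nat_lit 4595) (.e (nat_lit 204862) (nat_lit 27) (.e (nat_lit 344117) (nat_lit 21) (.e (nat_lit 516130) (nat_lit 3) (.e (nat_lit 221214) (nat_lit 23) (.e (nat_lit 204830) (nat_lit 18) (.e (nat_lit 57927) (nat_lit 282) (.e (nat_lit 163875) (nat_lit 3) .nil))))))) (.g (nat_lit 1) (.e (nat_lit 229164) (nat_lit 0) .nil) .nil))))) (.nd (nat_lit 8) (.nd (nat_lit 9) 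
(.lf (nat_lit 522479) (.g (nat_lit 4635) (.e (nat_lit 204853) (nat_lit 26) (.e (nat_lit 336324) (nat_lit 18) (.e (nat_lit 204831) (nat_lit 18) (.e (nat_lit 57852) (nat_lit 252) (.e (nat_lit 57361) (nat_lit 0) .nil))))) (.g (nat_lit 0) (.e (nat_lit 227421) (nat_lit 0) .nil) .nil))) 
(.lf (nat_lit 522991) (.g (nat_lit 2316) (.e (nat_lit 204861) (nat_lit 26) (.e (nat_lit 336195) (nat_lit 12) (.e (nat_lit 385066) (nat_lit 26) (.e (nat_lit 532513) (nat_lit 3) (.e (nat_lit 114698) (nat_lit 11) (.e (nat_lit 426138) (nat_lit 3) .nil)))))) (.g (nat_lit 1) (.e (nat_lit 228949) (nat_lit 0) .nil) .nil)))) (.nd (nat_lit 9) 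
(.lf (nat_lit 522735) (.g (nat_lit 1582) (.e (nat_lit 204855) (nat_lit 26) (.e (nat_lit 336212) (nat_lit 13) (.e (nat_lit 393251) (nat_lit 18) (.e (nat_lit 164183) (nat_lit 154) (.e (nat_lit 57410) (nat_lit 12) .nil))))) (.g (nat_lit 0) (.e (nat_lit 228366) (nat_lit 0) .nil) .nil))) 
(.lf (nat_lit 523247) (.g (nat_lit 1065) (.e (nat_lit 204862) (nat_lit 27) (.e (nat_lit 344130) (nat_lit 26) (.e (nat_lit 557097) (nat_lit 13) (.e (nat_lit 179968) (nat_lit 18) .nil)))) (.g (nat_lit 0) (.e (nat_lit 229320) (nat_lit 0) .nil) .nil)))))))) (.nd (nat_lit 5) (.nd (nat_lit 6) (.nd (nat_lit 7) (.nd (nat_lit 8) (.nd (nat_lit 9) 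
(.lf (nat_lit 522271) (.g (nat_lit 4643) (.e (nat_lit 204850) (nat_lit 26) (.e (nat_lit 336324) (nat_lit 18) (.e (nat_lit 204831) (nat_lit 18) (.e (nat_lit 57848) (nat_lit 252) .nil)))) (.g (nat_lit 0) (.e (nat_lit 226779) (nat_lit 0) .nil) .nil))) 
(.lf (nat_lit 522783) (.g (nat_lit 1540) (.e (nat_lit 204859) (nat_lit 26) (.e (nat_lit 336235) (nat_lit 14) (.e (nat_lit 401425) (nat_lit 2) (.e (nat_lit 196670) (nat_lit 14) .nil)))) (.g (nat_lit 0) (.e (nat_lit 228497) (nat_lit 0) .nil) .nil)))) (.nd (nat_lit 9) 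
(.lf (nat_lit 522527) (.g (nat_lit 3168) (.e (nat_lit 204853) (nat_lit 26) (.e (nat_lit 336336) (nat_lit 20) (.e (nat_lit 221210) (nat_lit 22) (.e (nat_lit 196654) (nat_lit 11) (.e (nat_lit 16436) (nat_lit 9) (.e (nat_lit 426131) (nat_lit 3) .nil)))))) (.g (nat_lit 1) (.e (nat_lit 227519) (nat_lit 0) .nil) .nil))) 
(.lf (nat_lit 523039) (.g (nat_lit 3141) (.e (nat_lit 212736) (nat_lit 26) (.e (nat_lit 336099) (nat_lit 9) (.e (nat_lit 336013) (nat_lit 2) (.e (nat_lit 90164) (nat_lit 12) .nil)))) (.g (nat_lit 0) (.e (nat_lit 229034) (nat_lit 0) .nil) .nil))))) (.nd (nat_lit 8) (.nd (nat_lit 9) 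
(.lf (nat_lit 522399) (.g (nat_lit 1800) (.e (nat_lit 204852) (nat_lit 26) (.e (nat_lit 336326) (nat_lit 18) (.e (nat_lit 204852) (nat_lit 26) (.e (nat_lit 336316) (nat_lit 17) (.e (nat_lit 196626) (nat_lit 9) .nil))))) (.g (nat_lit 0) (.e (nat_lit 227174) (nat_lit 0) .nil) .nil))) 
(.lf (nat_lit 522911) (.g (nat_lit 1361) (.e (nat_lit 204861) (nat_lit 26) (.e (nat_lit 336088) (nat_lit 9) (.e (nat_lit 336454) (nat_lit 34) (.e (nat_lit 483365) (nat_lit 18) .nil)))) (.g (nat_lit 0) (.e (nat_lit 228791) (nat_lit 0) .nil) .nil)))) (.nd (nat_lit 9) 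
(.lf (nat_lit 522655) (.g (nat_lit 3050) (.e (nat_lit 204855) (nat_lit 26) (.e (nat_lit 336163) (nat_lit 10) (.e (nat_lit 344117) (nat_lit 21) (.e (nat_lit 516139) (nat_lit 7) (.e (nat_lit 409643) (nat_lit 18) (.e (nat_lit 303119) (nat_lit 3) .nil)))))) (.g (nat_lit 1) (.e (nat_lit 227949) (nat_lit 0) .nil) .nil))) 
(.lf (nat_lit 523167) (.g (nat_lit 3171) (.e (nat_lit 204862) (nat_lit 27) (.e (nat_lit 344129) (nat_lit 26) (.e (nat_lit 557097) (nat_lit 13) (.e (nat_lit 172133) (nat_lit 15) (.e (nat_lit 1800) (nat_lit 119) (.e (nat_lit 516119) (nat_lit 1) (.e (nat_lit 164345) (nat_lit 240) (.e (nat_lit 2422) (nat_lit 157) (.e (nat_lit 2685) (nat_lit 168) .nil))))))))) (.g (nat_lit 1) (.e (nat_lit 229238) (nat_lit 0) .nil) .nil)))))) 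
(.nd (nat_lit 7) (.nd (nat_lit 8) (.nd (nat_lit 9) 
(.lf (nat_lit 522335) (.g (nat_lit 2166) (.e (nat_lit 204852) (nat_lit 26) (.e (nat_lit 336324) (nat_lit 18) (.e (nat_lit 204831) (nat_lit 18) (.e (nat_lit 57852) (nat_lit 252) .nil)))) (.g (nat_lit 0) (.e (nat_lit 226991) (nat_lit 0) .nil) .nil))) 
(.lf (nat_lit 522847) (.g (nat_lit 716) (.e (nat_lit 204861) (nat_lit 26) (.e (nat_lit 336075) (nat_lit 9) (.e (nat_lit 336367) (nat_lit 27) (.e (nat_lit 426533) (nat_lit 28) .nil)))) (.g (nat_lit 0) (.e (nat_lit 228687) (nat_lit 0) .nil) .nil)))) (.nd (nat_lit 9) 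
(.lf (nat_lit 522591) (.g (nat_lit 1764) (.e (nat_lit 204854) (nat_lit 26) (.e (nat_lit 336326) (nat_lit 18) (.e (nat_lit 204852) (nat_lit 26) (.e (nat_lit 336316) (nat_lit 17) (.e (nat_lit 196628) (nat_lit 9) .nil))))) (.g (nat_lit 0) (.e (nat_lit 227738) (nat_lit 0) .nil) .nil))) 
(.lf (nat_lit 523103) (.g (nat_lit 3816) (.e (nat_lit 204862) (nat_lit 27) (.e (nat_lit 344117) (nat_lit 21) (.e (nat_lit 516123) (nat_lit 2) (.e (nat_lit 213033) (nat_lit 12) (.e (nat_lit 163975) (nat_lit 30) (.e (nat_lit 573474) (nat_lit 12) (.e (nat_lit 57528) (nat_lit 46) (.e (nat_lit 704514) (nat_lit 0) (.e (nat_lit 2685) (nat_lit 168) .nil))))))))) (.g (nat_lit 1) (.e (nat_lit 229148) (nat_lit 0) .nil) .nil))))) 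
(.nd (nat_lit 8) (.nd (nat_lit 9) 
(.lf (nat_lit 522463) (.g (nat_lit 3228) (.e (nat_lit 204852) (nat_lit 26) (.e (nat_lit 336337) (nat_lit 20) (.e (nat_lit 221212) (nat_lit 22) (.e (nat_lit 196656) (nat_lit 11) (.e (nat_lit 16436) (nat_lit 9) (.e (nat_lit 426131) (nat_lit 3) .nil)))))) (.g (nat_lit 1) (.e (nat_lit 227402) (nat_lit 0) .nil) .nil))) 
(.lf (nat_lit 522975) (.g (nat_lit 2934) (.e (nat_lit 204861) (nat_lit 26) (.e (nat_lit 336194) (nat_lit 12) (.e (nat_lit 385068) (nat_lit 26) (.e (nat_lit 532515) (nat_lit 3) (.e (nat_lit 114694) (nat_lit 11) (.e (nat_lit 426133) (nat_lit 3) .nil)))))) (.g (nat_lit 1) (.e (nat_lit 228915) (nat_lit 0) .nil) .nil)))) (.nd (nat_lit 9) 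
(.lf (nat_lit 522719) (.g (nat_lit 2893) (.e (nat_lit 204855) (nat_lit 26) (.e (nat_lit 336176) (nat_lit 10) (.e (nat_lit 344133) (nat_lit 26) (.e (nat_lit 557091) (nat_lit 12) (.e (nat_lit 164017) (nat_lit 44) (.e (nat_lit 688139) (nat_lit 5) (.e (nat_lit 2887) (nat_lit 184) (.e (nat_lit 426132) (nat_lit 3) .nil)))))))) (.g (nat_lit 1) (.e (nat_lit 228307) (nat_lit 0) .nil) .nil))) 
(.lf (nat_lit 523231) (.g (nat_lit 3772) (.e (nat_lit 204862) (nat_lit 27) (.e (nat_lit 344129) (nat_lit 26) (.e (nat_lit 557105) (nat_lit 14) (.e (nat_lit 180252) (nat_lit 10) (.e (nat_lit 573473) (nat_lit 12) (.e (nat_lit 57507) (nat_lit 39) (.e (nat_lit 655104) (nat_lit 0) (.e (nat_lit 2684) (nat_lit 168) .nil)))))))) (.g (nat_lit 1) (.e (nat_lit 229304) (nat_lit 0) .nil) .nil))))))) 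
(.nd (nat_lit 6) (.nd (nat_lit 7) (.nd (nat_lit 8) (.nd (nat_lit 9) 
(.lf (nat_lit 522303) (.g (nat_lit 2078) (.e (nat_lit 204851) (nat_lit 26) (.e (nat_lit 336324) (nat_lit 18) (.e (nat_lit 204882) (nat_lit 32) (.e (nat_lit 385066) (nat_lit 26) (.e (nat_lit 532532) (nat_lit 9) .nil))))) (.g (nat_lit 0) (.e (nat_lit 226848) (nat_lit 0) .nil) .nil))) 
(.lf (nat_lit 522815) (.g (nat_lit 776) (.e (nat_lit 204861) (nat_lit 26) (.e (nat_lit 336012) (nat_lit 2) (.e (nat_lit 90130) (nat_lit 9) .nil))) (.g (nat_lit 0) (.e (nat_lit 228623) (nat_lit 0) .nil) .nil)))) (.nd (nat_lit 9) 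
(.lf (nat_lit 522559) (.g (nat_lit 1317) (.e (nat_lit 204854) (nat_lit 26) (.e (nat_lit 336211) (nat_lit 13) (.e (nat_lit 393251) (nat_lit 18) (.e (nat_lit 164185) (nat_lit 155) .nil)))) (.g (nat_lit 0) (.e (nat_lit 227659) (nat_lit 0) .nil) .nil))) 
(.lf (nat_lit 523071) (.g (nat_lit 2105) (.e (nat_lit 204862) (nat_lit 27) (.e (nat_lit 344117) (nat_lit 21) (.e (nat_lit 516116) (nat_lit 1) (.e (nat_lit 164176) (nat_lit 154) .nil)))) (.g (nat_lit 0) (.e (nat_lit 229102) (nat_lit 0) .nil) .nil))))) (.nd (nat_lit 8) (.nd (nat_lit 9) 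
(.lf (nat_lit 522431) (.g (nat_lit 3017) (.e (nat_lit 204852) (nat_lit 26) (.e (nat_lit 336326) (nat_lit 18) (.e (nat_lit 204880) (nat_lit 32) (.e (nat_lit 385068) (nat_lit 26) (.e (nat_lit 532534) (nat_lit 9) (.e (nat_lit 336324) (nat_lit 18) .nil)))))) (.g (nat_lit 1) (.e (nat_lit 227286) (nat_lit 0) .nil) .nil))) 
(.lf (nat_lit 522943) (.g (nat_lit 3413) (.e (nat_lit 204861) (nat_lit 26) (.e (nat_lit 336186) (nat_lit 11) (.e (nat_lit 368676) (nat_lit 21) (.e (nat_lit 516185) (nat_lit 16) (.e (nat_lit 491526) (nat_lit 0) (.e (nat_lit 6680) (nat_lit 357) (.e (nat_lit 2682) (nat_lit 168) .nil))))))) (.g (nat_lit 1) (.e (nat_lit 228846) (nat_lit 0) .nil) .nil)))) (.nd (nat_lit 9) 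
(.lf (nat_lit 522687) (.g (nat_lit 1052) (.e (nat_lit 204855) (nat_lit 26) (.e (nat_lit 336176) (nat_lit 10) (.e (nat_lit 344130) (nat_lit 26) (.e (nat_lit 557090) (nat_lit 12) .nil)))) (.g (nat_lit 0) (.e (nat_lit 228103) (nat_lit 0) .nil) .nil))) 
(.lf (nat_lit 523199) (.g (nat_lit 3815) (.e (nat_lit 204862) (nat_lit 27) (.e (nat_lit 344129) (nat_lit 26) (.e (nat_lit 557103) (nat_lit 14) (.e (nat_lit 180250) (nat_lit 10) (.e (nat_lit 573475) (nat_lit 12) (.e (nat_lit 57509) (nat_lit 39) (.e (nat_lit 655104) (nat_lit 0) (.e (nat_lit 2684) (nat_lit 168) .nil)))))))) (.g (nat_lit 1) (.e (nat_lit 229271) (nat_lit 0) .nil) .nil)))))) 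
(.nd (nat_lit 7) (.nd (nat_lit 8) (.nd (nat_lit 9) 
(.lf (nat_lit 522367) (.g (nat_lit 2995) (.e (nat_lit 204852) (nat_lit 26) (.e (nat_lit 336324) (nat_lit 18) (.e (nat_lit 204881) (nat_lit 32) (.e (nat_lit 385066) (nat_lit 26) (.e (nat_lit 532530) (nat_lit 9) (.e (nat_lit 336325) (nat_lit 18) .nil)))))) (.g (nat_lit 1) (.e (nat_lit 227072) (nat_lit 0) .nil) .nil))) 
(.lf (nat_lit 522879) (.g (nat_lit 562) (.e (nat_lit 204861) (nat_lit 26) (.e (nat_lit 336076) (nat_lit 9) (.e (nat_lit 336450) (nat_lit 33) (.e (nat_lit 483072) (nat_lit 17) .nil)))) (.g (nat_lit 0) (.e (nat_lit 228744) (nat_lit 0) .nil) .nil)))) (.nd (nat_lit 9) 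
(.lf (nat_lit 522623) (.g (nat_lit 1114) (.e (nat_lit 204855) (nat_lit 26) (.e (nat_lit 336020) (nat_lit 3) (.e (nat_lit 98342) (nat_lit 20) (.e (nat_lit 221214) (nat_lit 23) .nil)))) (.g (nat_lit 0) (.e (nat_lit 227826) (nat_lit 0) .nil) .nil))) 
(.lf (nat_lit 523135) (.g (nat_lit 2678) (.e (nat_lit 204862) (nat_lit 27) (.e (nat_lit 344117) (nat_lit 21) (.e (nat_lit 516195) (nat_lit 26) (.e (nat_lit 336027) (nat_lit 3) (.e (nat_lit 98329) (nat_lit 17) .nil))))) (.g (nat_lit 0) (.e (nat_lit 229193) (nat_lit 0) .nil) .nil))))) (.nd (nat_lit 8) (.nd (nat_lit 9) 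
(.lf (nat_lit 522495) (.g (nat_lit 1842) (.e (nat_lit 204853) (nat_lit 26) (.e (nat_lit 336324) (nat_lit 18) (.e (nat_lit 204854) (nat_lit 26) (.e (nat_lit 336316) (nat_lit 17) (.e (nat_lit 196663) (nat_lit 13) .nil))))) (.g (nat_lit 0) (.e (nat_lit 227438) (nat_lit 0) .nil) .nil))) 
(.lf (nat_lit 523007) (.g (nat_lit 1124) (.e (nat_lit 204861) (nat_lit 26) (.e (nat_lit 336213) (nat_lit 13) (.e (nat_lit 401152) (nat_lit 7) (.e (nat_lit 319533) (nat_lit 16) (.e (nat_lit 294656) (nat_lit 18) .nil))))) (.g (nat_lit 1) (.e (nat_lit 228979) (nat_lit 0) .nil) .nil)))) (.nd (nat_lit 9) 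
(.lf (nat_lit 522751) (.g (nat_lit 3583) (.e (nat_lit 204858) (nat_lit 26) (.e (nat_lit 336228) (nat_lit 14) (.e (nat_lit 401425) (nat_lit 2) (.e (nat_lit 196666) (nat_lit 13) (.e (nat_lit 65630) (nat_lit 14) (.e (nat_lit 401428) (nat_lit 3) .nil)))))) (.g (nat_lit 1) (.e (nat_lit 228435) (nat_lit 0) .nil) .nil))) 
(.lf (nat_lit 523263) (.g (nat_lit 3364) (.e (nat_lit 204862) (nat_lit 27) (.e (nat_lit 344130) (nat_lit 26) (.e (nat_lit 557103) (nat_lit 14) (.e (nat_lit 180250) (nat_lit 10) (.e (nat_lit 573477) (nat_lit 12) (.e (nat_lit 57511) (nat_lit 39) (.e (nat_lit 655104) (nat_lit 0) (.e (nat_lit 2684) (nat_lit 168) .nil)))))))) (.g (nat_lit 1) (.e (nat_lit 229336) (nat_lit 0) .nil) .nil)))))))))))))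

noncomputable def tv5571 : DT := (.nd (nat_lit 0) (.nd (nat_lit 1) (.nd (nat_lit 2) (.nd (nat_lit 3) (.nd (nat_lit 4) (.nd (nat_lit 5) (.nd (nat_lit 6) (.nd (nat_lit 7) (.nd (nat_lit 8) (.nd (nat_lit 9) 
(.lf (nat_lit 523264) (.g (nat_lit 2336) (.e (nat_lit 204862) (nat_lit 27) (.e (nat_lit 344130) (nat_lit 26) (.e (nat_lit 557103) (nat_lit 14) (.e (nat_lit 180250) (nat_lit 10) (.e (nat_lit 573495) (nat_lit 16) .nil))))) (.g (nat_lit 0) (.e (nat_lit 229337) (nat_lit 0) .nil) .nil))) 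
(.lf (nat_lit 523776) (.g (nat_lit 3408) (.e (nat_lit 204863) (nat_lit 27) (.e (nat_lit 344133) (nat_lit 26) (.e (nat_lit 557105) (nat_lit 14) (.e (nat_lit 180251) (nat_lit 10) (.e (nat_lit 573477) (nat_lit 12) (.e (nat_lit 57511) (nat_lit 39) (.e (nat_lit 647171) (nat_lit 0) (.e (nat_lit 2681) (nat_lit 168) .nil)))))))) (.g (nat_lit 1) (.e (nat_lit 229927) (nat_lit 0) .nil) .nil)))) 
(.nd (nat_lit 9) 
(.lf (nat_lit 523520) (.g (nat_lit 3193) (.e (nat_lit 204863) (nat_lit 27) (.e (nat_lit 344120) (nat_lit 21) (.e (nat_lit 516115) (nat_lit 1) (.e (nat_lit 164179) (nat_lit 154) (.e (nat_lit 57375) (nat_lit 2) (.e (nat_lit 90128) (nat_lit 9) (.e (nat_lit 2706) (nat_lit 170) (.e (nat_lit 221214) (nat_lit 23) .nil)))))))) (.g (nat_lit 1) (.e (nat_lit 229664) (nat_lit 0) .nil) .nil))) 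
(.lf (nat_lit 524032) (.g (nat_lit 512) (.e (nat_lit 204866) (nat_lit 28) (.e (nat_lit 352324) (nat_lit 26) (.e (nat_lit 147503) (nat_lit 12) .nil))) (.g (nat_lit 0) (.e (nat_lit 230451) (nat_lit 0) .nil) .nil))))) (.nd (nat_lit 8) (.nd (nat_lit 9) 
(.lf (nat_lit 523392) (.g (nat_lit 3496) (.e (nat_lit 204862) (nat_lit 27) (.e (nat_lit 344133) (nat_lit 26) (.e (nat_lit 557105) (nat_lit 14) (.e (nat_lit 180251) (nat_lit 10) (.e (nat_lit 573475) (nat_lit 12) (.e (nat_lit 57507) (nat_lit 39) (.e (nat_lit 655104) (nat_lit 0) (.e (nat_lit 2684) (nat_lit 168) .nil)))))))) (.g (nat_lit 1) (.e (nat_lit 229466) (nat_lit 0) .nil) .nil))) 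
(.lf (nat_lit 523904) (.g (nat_lit 3115) (.e (nat_lit 204864) (nat_lit 27) (.e (nat_lit 344132) (nat_lit 26) (.e (nat_lit 557105) (nat_lit 14) (.e (nat_lit 180252) (nat_lit 10) (.e (nat_lit 573473) (nat_lit 12) (.e (nat_lit 57508) (nat_lit 39) (.e (nat_lit 647170) (nat_lit 0) (.e (nat_lit 2680) (nat_lit 168) .nil)))))))) (.g (nat_lit 1) (.e (nat_lit 230090) (nat_lit 0) .nil) .nil)))) 
(.nd (nat_lit 9) 
(.lf (nat_lit 523648) (.g (nat_lit 3373) (.e (nat_lit 204863) (nat_lit 27) (.e (nat_lit 344132) (nat_lit 26) (.e (nat_lit 557100) (nat_lit 13) (.e (nat_lit 172065) (nat_lit 3) (.e (nat_lit 204821) (nat_lit 17) (.e (nat_lit 2391) (nat_lit 156) (.e (nat_lit 819203) (nat_lit 0) (.e (nat_lit 2685) (nat_lit 168) .nil)))))))) (.g (nat_lit 1) (.e (nat_lit 229796) (nat_lit 0) .nil) .nil))) 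
(.lf (nat_lit 524160) (.g (nat_lit 1618) (.e (nat_lit 204868) (nat_lit 29) (.e (nat_lit 360473) (nat_lit 8) (.e (nat_lit 557087) (nat_lit 11) (.e (nat_lit 24577) (nat_lit 0) (.e (nat_lit 7936) (nat_lit 357) .nil))))) (.g (nat_lit 0) (.e (nat_lit 230747) (nat_lit 0) .nil) .nil)))))) (.nd (nat_lit 7) (.nd (nat_lit 8) (.nd (nat_lit 9) 
(.lf (nat_lit 523328) (.g (nat_lit 3028) (.e (nat_lit 204862) (nat_lit 27) (.e (nat_lit 344132) (nat_lit 26) (.e (nat_lit 557105) (nat_lit 14) (.e (nat_lit 180252) (nat_lit 10) (.e (nat_lit 573475) (nat_lit 12) (.e (nat_lit 57507) (nat_lit 39) (.e (nat_lit 647170) (nat_lit 0) (.e (nat_lit 2685) (nat_lit 168) .nil)))))))) (.g (nat_lit 1) (.e (nat_lit 229401) (nat_lit 0) .nil) .nil))) 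
(.lf (nat_lit 523840) (.g (nat_lit 3501) (.e (nat_lit 204863) (nat_lit 27) (.e (nat_lit 344133) (nat_lit 26) (.e (nat_lit 557105) (nat_lit 14) (.e (nat_lit 180252) (nat_lit 10) (.e (nat_lit 573503) (nat_lit 18) (.e (nat_lit 1074) (nat_lit 81) (.e (nat_lit 5259) (nat_lit 298) (.e (nat_lit 174) (nat_lit 12) .nil)))))))) (.g (nat_lit 1) (.e (nat_lit 229991) (nat_lit 0) .nil) .nil)))) 
(.nd (nat_lit 9) 
(.lf (nat_lit 523584) (.g (nat_lit 2475) (.e (nat_lit 204863) (nat_lit 27) (.e (nat_lit 344130) (nat_lit 26) (.e (nat_lit 557103) (nat_lit 14) (.e (nat_lit 180250) (nat_lit 10) (.e (nat_lit 573475) (nat_lit 12) (.e (nat_lit 57508) (nat_lit 39) (.e (nat_lit 655104) (nat_lit 0) (.e (nat_lit 2684) (nat_lit 168) .nil)))))))) (.g (nat_lit 1) (.e (nat_lit 229732) (nat_lit 0) .nil) .nil))) 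
(.lf (nat_lit 524096) (.g (nat_lit 903) (.e (nat_lit 204868) (nat_lit 29) (.e (nat_lit 360466) (nat_lit 3) (.e (nat_lit 516184) (nat_lit 16) (.e (nat_lit 499456) (nat_lit 14) .nil)))) (.g (nat_lit 0) (.e (nat_lit 230664) (nat_lit 0) .nil) .nil))))) (.nd (nat_lit 8) (.nd (nat_lit 9) 
(.lf (nat_lit 523456) (.g (nat_lit 4759) (.e (nat_lit 204863) (nat_lit 27) (.e (nat_lit 344117) (nat_lit 21) (.e (nat_lit 516115) (nat_lit 1) (.e (nat_lit 164179) (nat_lit 154) (.e (nat_lit 57375) (nat_lit 2) (.e (nat_lit 90128) (nat_lit 9) (.e (nat_lit 2706) (nat_lit 170) (.e (nat_lit 221214) (nat_lit 23) .nil)))))))) (.g (nat_lit 1) (.e (nat_lit 229553) (nat_lit 0) .nil) .nil))) 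
(.lf (nat_lit 523968) (.g (nat_lit 2304) (.e (nat_lit 204865) (nat_lit 28) (.e (nat_lit 352262) (nat_lit 0) (.e (nat_lit 3253) (nat_lit 197) (.e (nat_lit 532515) (nat_lit 3) (.e (nat_lit 114698) (nat_lit 11) (.e (nat_lit 426138) (nat_lit 3) .nil)))))) (.g (nat_lit 1) (.e (nat_lit 230166) (nat_lit 0) .nil) .nil)))) (.nd (nat_lit 9) 
(.lf (nat_lit 523712) (.g (nat_lit 2683) (.e (nat_lit 204863) (nat_lit 27) (.e (nat_lit 344132) (nat_lit 26) (.e (nat_lit 557105) (nat_lit 14) (.e (nat_lit 180252) (nat_lit 10) (.e (nat_lit 573503) (nat_lit 18) (.e (nat_lit 1014) (nat_lit 81) (.e (nat_lit 5269) (nat_lit 298) (.e (nat_lit 174) (nat_lit 12) .nil)))))))) (.g (nat_lit 1) (.e (nat_lit 229861) (nat_lit 0) .nil) .nil))) 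
(.lf (nat_lit 524224) (.g (nat_lit 3252) (.e (nat_lit 204868) (nat_lit 29) (.e (nat_lit 360473) (nat_lit 8) (.e (nat_lit 557091) (nat_lit 12) (.e (nat_lit 163843) (nat_lit 0) (.e (nat_lit 6255) (nat_lit 337) (.e (nat_lit 2725) (nat_lit 172) (.e (nat_lit 237593) (nat_lit 3) .nil))))))) (.g (nat_lit 1) (.e (nat_lit 230819) (nat_lit 0) .nil) .nil))))))) 
(.nd (nat_lit 6) (.nd (nat_lit 7) (.nd (nat_lit 8) (.nd (nat_lit 9) 
(.lf (nat_lit 523296) (.g (nat_lit 3156) (.e (nat_lit 204862) (nat_lit 27) (.e (nat_lit 344132) (nat_lit 26) (.e (nat_lit 557100) (nat_lit 13) (.e (nat_lit 172065) (nat_lit 3) (.e (nat_lit 204821) (nat_lit 17) (.e (nat_lit 2391) (nat_lit 156) (.e (nat_lit 819203) (nat_lit 0) (.e (nat_lit 2685) (nat_lit 168) .nil)))))))) (.g (nat_lit 1) (.e (nat_lit 229369) (nat_lit 0) .nil) .nil))) 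
(.lf (nat_lit 523808) (.g (nat_lit 4089) (.e (nat_lit 204863) (nat_lit 27) (.e (nat_lit 344133) (nat_lit 26) (.e (nat_lit 557105) (nat_lit 14) (.e (nat_lit 180252) (nat_lit 10) (.e (nat_lit 573474) (nat_lit 12) (.e (nat_lit 57508) (nat_lit 39) (.e (nat_lit 647170) (nat_lit 0) (.e (nat_lit 2675) (nat_lit 168) .nil)))))))) (.g (nat_lit 1) (.e (nat_lit 229959) (nat_lit 0) .nil) .nil)))) 
(.nd (nat_lit 9) 
(.lf (nat_lit 523552) (.g (nat_lit 1861) (.e (nat_lit 204863) (nat_lit 27) (.e (nat_lit 344129) (nat_lit 26) (.e (nat_lit 557104) (nat_lit 14) (.e (nat_lit 180240) (nat_lit 2) .nil)))) (.g (nat_lit 0) (.e (nat_lit 229700) (nat_lit 0) .nil) .nil))) 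
(.lf (nat_lit 524064) (.g (nat_lit 3626) (.e (nat_lit 204868) (nat_lit 29) (.e (nat_lit 360466) (nat_lit 3) (.e (nat_lit 516138) (nat_lit 7) (.e (nat_lit 409649) (nat_lit 18) (.e (nat_lit 303119) (nat_lit 3) .nil))))) (.g (nat_lit 1) (.e (nat_lit 230551) (nat_lit 0) .nil) .nil))))) (.nd (nat_lit 8) (.nd (nat_lit 9) 
(.lf (nat_lit 523424) (.g (nat_lit 3289) (.e (nat_lit 204862) (nat_lit 27) (.e (nat_lit 344133) (nat_lit 26) (.e (nat_lit 557105) (nat_lit 14) (.e (nat_lit 180252) (nat_lit 10) (.e (nat_lit 573474) (nat_lit 12) (.e (nat_lit 57513) (nat_lit 40) (.e (nat_lit 663296) (nat_lit 0) (.e (nat_lit 2684) (nat_lit 168) .nil)))))))) (.g (nat_lit 1) (.e (nat_lit 229498) (nat_lit 0) .nil) .nil))) 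
(.lf (nat_lit 523936) (.g (nat_lit 2726) (.e (nat_lit 204864) (nat_lit 27) (.e (nat_lit 344133) (nat_lit 26) (.e (nat_lit 557103) (nat_lit 14) (.e (nat_lit 180250) (nat_lit 10) (.e (nat_lit 573473) (nat_lit 12) (.e (nat_lit 57508) (nat_lit 39) (.e (nat_lit 647168) (nat_lit 0) (.e (nat_lit 2685) (nat_lit 168) .nil)))))))) (.g (nat_lit 1) (.e (nat_lit 230122) (nat_lit 0) .nil) .nil)))) 
(.nd (nat_lit 9) 
(.lf (nat_lit 523680) (.g (nat_lit 2951) (.e (nat_lit 204863) (nat_lit 27) (.e (nat_lit 344132) (nat_lit 26) (.e (nat_lit 557105) (nat_lit 14) (.e (nat_lit 180252) (nat_lit 10) (.e (nat_lit 573474) (nat_lit 12) (.e (nat_lit 57348) (nat_lit 0) (.e (nat_lit 5444) (nat_lit 306) (.e (nat_lit 2433) (nat_lit 157) (.e (nat_lit 2685) (nat_lit 168) .nil))))))))) (.g (nat_lit 1) (.e (nat_lit 229829) (nat_lit 0) .nil) .nil))) 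
(.lf (nat_lit 524192) (.g (nat_lit 1041) (.e (nat_lit 204868) (nat_lit 29) (.e (nat_lit 360473) (nat_lit 8) (.e (nat_lit 557089) (nat_lit 12) (.e (nat_lit 163844) (nat_lit 0) .nil)))) (.g (nat_lit 0) (.e (nat_lit 230784) (nat_lit 0) .nil) .nil)))))) (.nd (nat_lit 7) (.nd (nat_lit 8) (.nd (nat_lit 9) 
(.lf (nat_lit 523360) (.g (nat_lit 2539) (.e (nat_lit 204862) (nat_lit 27) (.e (nat_lit 344133) (nat_lit 26) (.e (nat_lit 557103) (nat_lit 14) (.e (nat_lit 180250) (nat_lit 10) (.e (nat_lit 573473) (nat_lit 12) (.e (nat_lit 57507) (nat_lit 39) (.e (nat_lit 647176) (nat_lit 0) (.e (nat_lit 2681) (nat_lit 168) .nil)))))))) (.g (nat_lit 1) (.e (nat_lit 229434) (nat_lit 0) .nil) .nil))) 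
(.lf (nat_lit 523872) (.g (nat_lit 1913) (.e (nat_lit 204864) (nat_lit 27) (.e (nat_lit 344130) (nat_lit 26) (.e (nat_lit 557104) (nat_lit 14) (.e (nat_lit 180252) (nat_lit 10) (.e (nat_lit 573474) (nat_lit 12) (.e (nat_lit 57348) (nat_lit 0) (.e (nat_lit 5437) (nat_lit 306) (.e (nat_lit 2450) (nat_lit 157) (.e (nat_lit 2685) (nat_lit 168) .nil))))))))) (.g (nat_lit 1) (.e (nat_lit 230058) (nat_lit 0) .nil) .nil)))) 
(.nd (nat_lit 9) 
(.lf (nat_lit 523616) (.g (nat_lit 3321) (.e (nat_lit 204863) (nat_lit 27) (.e (nat_lit 344131) (nat_lit 26) (.e (nat_lit 557105) (nat_lit 14) (.e (nat_lit 180252) (nat_lit 10) (.e (nat_lit 573473) (nat_lit 12) (.e (nat_lit 57508) (nat_lit 39) (.e (nat_lit 647170) (nat_lit 0) (.e (nat_lit 2685) (nat_lit 168) .nil)))))))) (.g (nat_lit 1) (.e (nat_lit 229764) (nat_lit 0) .nil) .nil))) 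
(.lf (nat_lit 524128) (.g (nat_lit 2937) (.e (nat_lit 204868) (nat_lit 29) (.e (nat_lit 360473) (nat_lit 8) (.e (nat_lit 557066) (nat_lit 9) (.e (nat_lit 232) (nat_lit 21) (.e (nat_lit 336226) (nat_lit 14) .nil))))) (.g (nat_lit 0) (.e (nat_lit 230704) (nat_lit 0) .nil) .nil))))) (.nd (nat_lit 8) (.nd (nat_lit 9) 
(.lf (nat_lit 523488) (.g (nat_lit 2864) (.e (nat_lit 204863) (nat_lit 27) (.e (nat_lit 344117) (nat_lit 21) (.e (nat_lit 516129) (nat_lit 3) (.e (nat_lit 221210) (nat_lit 22) (.e (nat_lit 196658) (nat_lit 12) (.e (nat_lit 57508) (nat_lit 39) (.e (nat_lit 647176) (nat_lit 0) (.e (nat_lit 2681) (nat_lit 168) .nil)))))))) (.g (nat_lit 1) (.e (nat_lit 229613) (nat_lit 0) .nil) .nil))) 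
(.lf (nat_lit 524000) (.g (nat_lit 3416) (.e (nat_lit 204866) (nat_lit 28) (.e (nat_lit 352262) (nat_lit 0) (.e (nat_lit 3305) (nat_lit 202) (.e (nat_lit 573485) (nat_lit 13) (.e (nat_lit 65628) (nat_lit 14) (.e (nat_lit 401428) (nat_lit 3) .nil)))))) (.g (nat_lit 1) (.e (nat_lit 230278) (nat_lit 0) .nil) .nil)))) (.nd (nat_lit 9) 
(.lf (nat_lit 523744) (.g (nat_lit 4196) (.e (nat_lit 204863) (nat_lit 27) (.e (nat_lit 344133) (nat_lit 26) (.e (nat_lit 557103) (nat_lit 14) (.e (nat_lit 180243) (nat_lit 5) (.e (nat_lit 532501) (nat_lit 1) (.e (nat_lit 57703) (nat_lit 164) (.e (nat_lit 2515) (nat_lit 157) (.e (nat_lit 2681) (nat_lit 168) .nil)))))))) (.g (nat_lit 1) (.e (nat_lit 229895) (nat_lit 0) .nil) .nil))) 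
(.lf (nat_lit 524256) (.g (nat_lit 2006) (.e (nat_lit 204868) (nat_lit 29) (.e (nat_lit 360473) (nat_lit 8) (.e (nat_lit 557091) (nat_lit 12) (.e (nat_lit 164020) (nat_lit 45) (.e (nat_lit 696327) (nat_lit 5) .nil))))) (.g (nat_lit 0) (.e (nat_lit 230856) (nat_lit 0) .nil) .nil)))))))) (.nd (nat_lit 5) (.nd (nat_lit 6) (.nd (nat_lit 7) (.nd (nat_lit 8) (.nd (nat_lit 9) 
(.lf (nat_lit 523280) (.g (nat_lit 2379) (.e (nat_lit 204862) (nat_lit 27) (.e (nat_lit 344130) (nat_lit 26) (.e (nat_lit 557104) (nat_lit 14) (.e (nat_lit 180252) (nat_lit 10) (.e (nat_lit 573475) (nat_lit 12) (.e (nat_lit 57507) (nat_lit 39) (.e (nat_lit 647170) (nat_lit 0) (.e (nat_lit 2685) (nat_lit 168) .nil)))))))) (.g (nat_lit 1) (.e (nat_lit 229353) (nat_lit 0) .nil) .nil))) 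
(.lf (nat_lit 523792) (.g (nat_lit 3451) (.e (nat_lit 204863) (nat_lit 27) (.e (nat_lit 344133) (nat_lit 26) (.e (nat_lit 557105) (nat_lit 14) (.e (nat_lit 180252) (nat_lit 10) (.e (nat_lit 573474) (nat_lit 12) (.e (nat_lit 57348) (nat_lit 0) (.e (nat_lit 5436) (nat_lit 306) (.e (nat_lit 2433) (nat_lit 157) (.e (nat_lit 2685) (nat_lit 168) .nil))))))))) (.g (nat_lit 1) (.e (nat_lit 229943) (nat_lit 0) .nil) .nil)))) 
(.nd (nat_lit 9) 
(.lf (nat_lit 523536) (.g (nat_lit 3017) (.e (nat_lit 204863) (nat_lit 27) (.e (nat_lit 344129) (nat_lit 26) (.e (nat_lit 557103) (nat_lit 14) (.e (nat_lit 180243) (nat_lit 5) (.e (nat_lit 532503) (nat_lit 1) (.e (nat_lit 57704) (nat_lit 164) (.e (nat_lit 2515) (nat_lit 157) (.e (nat_lit 2681) (nat_lit 168) .nil)))))))) (.g (nat_lit 1) (.e (nat_lit 229684) (nat_lit 0) .nil) .nil))) 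
(.lf (nat_lit 524048) (.g (nat_lit 5377) (.e (nat_lit 204868) (nat_lit 29) (.e (nat_lit 360466) (nat_lit 3) (.e (nat_lit 516106) (nat_lit 0) (.e (nat_lit 6986) (nat_lit 377) (.e (nat_lit 2819) (nat_lit 181) (.e (nat_lit 311315) (nat_lit 3) .nil)))))) (.g (nat_lit 1) (.e (nat_lit 230518) (nat_lit 0) .nil) .nil))))) (.nd (nat_lit 8) (.nd (nat_lit 9) 
(.lf (nat_lit 523408) (.g (nat_lit 4736) (.e (nat_lit 204862) (nat_lit 27) (.e (nat_lit 344133) (nat_lit 26) (.e (nat_lit 557105) (nat_lit 14) (.e (nat_lit 180252) (nat_lit 10) (.e (nat_lit 573474) (nat_lit 12) (.e (nat_lit 57505) (nat_lit 39) (.e (nat_lit 655104) (nat_lit 0) (.e (nat_lit 2684) (nat_lit 168) .nil)))))))) (.g (nat_lit 1) (.e (nat_lit 229482) (nat_lit 0) .nil) .nil))) 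
(.lf (nat_lit 523920) (.g (nat_lit 2710) (.e (nat_lit 204864) (nat_lit 27) (.e (nat_lit 344133) (nat_lit 26) (.e (nat_lit 557096) (nat_lit 13) (.e (nat_lit 172133) (nat_lit 15) (.e (nat_lit 1800) (nat_lit 119) (.e (nat_lit 516119) (nat_lit 1) (.e (nat_lit 164345) (nat_lit 240) (.e (nat_lit 2426) (nat_lit 157) (.e (nat_lit 2678) (nat_lit 168) .nil))))))))) (.g (nat_lit 1) (.e (nat_lit 230106) (nat_lit 0) .nil) .nil)))) 
(.nd (nat_lit 9) 
(.lf (nat_lit 523664) (.g (nat_lit 3162) (.e (nat_lit 204863) (nat_lit 27) (.e (nat_lit 344132) (nat_lit 26) (.e (nat_lit 557105) (nat_lit 14) (.e (nat_lit 180252) (nat_lit 10) (.e (nat_lit 573473) (nat_lit 12) (.e (nat_lit 57506) (nat_lit 39) (.e (nat_lit 647176) (nat_lit 0) (.e (nat_lit 2681) (nat_lit 168) .nil)))))))) (.g (nat_lit 1) (.e (nat_lit 229813) (nat_lit 0) .nil) .nil))) 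
(.lf (nat_lit 524176) (.g (nat_lit 2245) (.e (nat_lit 204868) (nat_lit 29) (.e (nat_lit 360473) (nat_lit 8) (.e (nat_lit 557087) (nat_lit 11) (.e (nat_lit 24595) (nat_lit 0) (.e (nat_lit 7936) (nat_lit 357) .nil))))) (.g (nat_lit 0) (.e (nat_lit 230767) (nat_lit 0) .nil) .nil)))))) (.nd (nat_lit 7) (.nd (nat_lit 8) (.nd (nat_lit 9) 
(.lf (nat_lit 523344) (.g (nat_lit 2275) (.e (nat_lit 204862) (nat_lit 27) (.e (nat_lit 344133) (nat_lit 26) (.e (nat_lit 557098) (nat_lit 13) (.e (nat_lit 172133) (nat_lit 15) (.e (nat_lit 1800) (nat_lit 119) .nil))))) (.g (nat_lit 0) (.e (nat_lit 229418) (nat_lit 0) .nil) .nil))) 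
(.lf (nat_lit 523856) (.g (nat_lit 1105) (.e (nat_lit 204864) (nat_lit 27) (.e (nat_lit 344130) (nat_lit 26) (.e (nat_lit 557097) (nat_lit 13) (.e (nat_lit 172066) (nat_lit 3) .nil)))) (.g (nat_lit 0) (.e (nat_lit 230042) (nat_lit 0) .nil) .nil)))) (.nd (nat_lit 9) 
(.lf (nat_lit 523600) (.g (nat_lit 1980) (.e (nat_lit 204863) (nat_lit 27) (.e (nat_lit 344131) (nat_lit 26) (.e (nat_lit 557098) (nat_lit 13) (.e (nat_lit 172066) (nat_lit 3) (.e (nat_lit 204821) (nat_lit 17) .nil))))) (.g (nat_lit 0) (.e (nat_lit 229748) (nat_lit 0) .nil) .nil))) 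
(.lf (nat_lit 524112) (.g (nat_lit 2452) (.e (nat_lit 204868) (nat_lit 29) (.e (nat_lit 360467) (nat_lit 3) (.e (nat_lit 516139) (nat_lit 7) (.e (nat_lit 409617) (nat_lit 10) (.e (nat_lit 7936) (nat_lit 312) (.e (nat_lit 2685) (nat_lit 168) .nil)))))) (.g (nat_lit 1) (.e (nat_lit 230682) (nat_lit 0) .nil) .nil))))) (.nd (nat_lit 8) (.nd (nat_lit 9) 
(.lf (nat_lit 523472) (.g (nat_lit 1914) (.e (nat_lit 204863) (nat_lit 27) (.e (nat_lit 344117) (nat_lit 21) (.e (nat_lit 516116) (nat_lit 1) (.e (nat_lit 164181) (nat_lit 154) .nil)))) (.g (nat_lit 0) (.e (nat_lit 229583) (nat_lit 0) .nil) .nil))) 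
(.lf (nat_lit 523984) (.g (nat_lit 2257) (.e (nat_lit 204865) (nat_lit 28) (.e (nat_lit 352310) (nat_lit 22) (.e (nat_lit 90165) (nat_lit 12) (.e (nat_lit 164208) (nat_lit 176) (.e (nat_lit 2819) (nat_lit 181) (.e (nat_lit 311315) (nat_lit 3) .nil)))))) (.g (nat_lit 1) (.e (nat_lit 230227) (nat_lit 0) .nil) .nil)))) (.nd (nat_lit 9) 
(.lf (nat_lit 523728) (.g (nat_lit 2918) (.e (nat_lit 204863) (nat_lit 27) (.e (nat_lit 344133) (nat_lit 26) (.e (nat_lit 557098) (nat_lit 13) (.e (nat_lit 172064) (nat_lit 2) (.e (nat_lit 196661) (nat_lit 12) (.e (nat_lit 57576) (nat_lit 60) (.e (nat_lit 819204) (nat_lit 0) (.e (nat_lit 2685) (nat_lit 168) .nil)))))))) (.g (nat_lit 1) (.e (nat_lit 229879) (nat_lit 0) .nil) .nil))) 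
(.lf (nat_lit 524240) (.g (nat_lit 1902) (.e (nat_lit 204868) (nat_lit 29) (.e (nat_lit 360473) (nat_lit 8) (.e (nat_lit 557091) (nat_lit 12) (.e (nat_lit 163844) (nat_lit 0) (.e (nat_lit 6420) (nat_lit 341) .nil))))) (.g (nat_lit 0) (.e (nat_lit 230837) (nat_lit 0) .nil) .nil))))))) (.nd (nat_lit 6) (.nd (nat_lit 7) (.nd (nat_lit 8) (.nd (nat_lit 9) 
(.lf (nat_lit 523312) (.g (nat_lit 2048) (.e (nat_lit 204862) (nat_lit 27) (.e (nat_lit 344132) (nat_lit 26) (.e (nat_lit 557105) (nat_lit 14) (.e (nat_lit 180251) (nat_lit 10) (.e (nat_lit 573477) (nat_lit 12) .nil))))) (.g (nat_lit 0) (.e (nat_lit 229385) (nat_lit 0) .nil) .nil))) 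
(.lf (nat_lit 523824) (.g (nat_lit 4078) (.e (nat_lit 204863) (nat_lit 27) (.e (nat_lit 344133) (nat_lit 26) (.e (nat_lit 557105) (nat_lit 14) (.e (nat_lit 180252) (nat_lit 10) (.e (nat_lit 573475) (nat_lit 12) (.e (nat_lit 57506) (nat_lit 39) (.e (nat_lit 647176) (nat_lit 0) (.e (nat_lit 2681) (nat_lit 168) .nil)))))))) (.g (nat_lit 1) (.e (nat_lit 229975) (nat_lit 0) .nil) .nil)))) 
(.nd (nat_lit 9) 
(.lf (nat_lit 523568) (.g (nat_lit 2835) (.e (nat_lit 204863) (nat_lit 27) (.e (nat_lit 344129) (nat_lit 26) (.e (nat_lit 557104) (nat_lit 14) (.e (nat_lit 180252) (nat_lit 10) (.e (nat_lit 573475) (nat_lit 12) (.e (nat_lit 57508) (nat_lit 39) (.e (nat_lit 647176) (nat_lit 0) (.e (nat_lit 2681) (nat_lit 168) .nil)))))))) (.g (nat_lit 1) (.e (nat_lit 229716) (nat_lit 0) .nil) .nil))) 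
(.lf (nat_lit 524080) (.g (nat_lit 4179) (.e (nat_lit 204868) (nat_lit 29) (.e (nat_lit 360466) (nat_lit 3) (.e (nat_lit 516139) (nat_lit 7) (.e (nat_lit 409648) (nat_lit 18) (.e (nat_lit 303119) (nat_lit 3) .nil))))) (.g (nat_lit 1) (.e (nat_lit 230567) (nat_lit 0) .nil) .nil))))) (.nd (nat_lit 8) (.nd (nat_lit 9) 
(.lf (nat_lit 523440) (.g (nat_lit 1738) (.e (nat_lit 204862) (nat_lit 27) (.e (nat_lit 344160) (nat_lit 37) (.e (nat_lit 647190) (nat_lit 9) (.e (nat_lit 1239) (nat_lit 91) .nil)))) (.g (nat_lit 0) (.e (nat_lit 229517) (nat_lit 0) .nil) .nil))) 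
(.lf (nat_lit 523952) (.g (nat_lit 2742) (.e (nat_lit 204864) (nat_lit 27) (.e (nat_lit 344133) (nat_lit 26) (.e (nat_lit 557105) (nat_lit 14) (.e (nat_lit 180252) (nat_lit 10) (.e (nat_lit 573474) (nat_lit 12) (.e (nat_lit 57347) (nat_lit 0) (.e (nat_lit 5437) (nat_lit 306) (.e (nat_lit 2450) (nat_lit 157) (.e (nat_lit 2685) (nat_lit 168) .nil))))))))) (.g (nat_lit 1) (.e (nat_lit 230138) (nat_lit 0) .nil) .nil)))) 
(.nd (nat_lit 9) 
(.lf (nat_lit 523696) (.g (nat_lit 3604) (.e (nat_lit 204863) (nat_lit 27) (.e (nat_lit 344132) (nat_lit 26) (.e (nat_lit 557105) (nat_lit 14) (.e (nat_lit 180252) (nat_lit 10) (.e (nat_lit 573474) (nat_lit 12) (.e (nat_lit 57513) (nat_lit 40) (.e (nat_lit 655363) (nat_lit 0) (.e (nat_lit 2685) (nat_lit 168) .nil)))))))) (.g (nat_lit 1) (.e (nat_lit 229845) (nat_lit 0) .nil) .nil))) 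
(.lf (nat_lit 524208) (.g (nat_lit 3417) (.e (nat_lit 204868) (nat_lit 29) (.e (nat_lit 360473) (nat_lit 8) (.e (nat_lit 557089) (nat_lit 12) (.e (nat_lit 164020) (nat_lit 45) (.e (nat_lit 696343) (nat_lit 8) (.e (nat_lit 172065) (nat_lit 3) .nil)))))) (.g (nat_lit 1) (.e (nat_lit 230802) (nat_lit 0) .nil) .nil)))))) (.nd (nat_lit 7) (.nd (nat_lit 8) (.nd (nat_lit 9) 
(.lf (nat_lit 523376) (.g (nat_lit 2556) (.e (nat_lit 204862) (nat_lit 27) (.e (nat_lit 344133) (nat_lit 26) (.e (nat_lit 557103) (nat_lit 14) (.e (nat_lit 180250) (nat_lit 10) (.e (nat_lit 573475) (nat_lit 12) (.e (nat_lit 57507) (nat_lit 39) (.e (nat_lit 647176) (nat_lit 0) (.e (nat_lit 2684) (nat_lit 168) .nil)))))))) (.g (nat_lit 1) (.e (nat_lit 229450) (nat_lit 0) .nil) .nil))) 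
(.lf (nat_lit 523888) (.g (nat_lit 2385) (.e (nat_lit 204864) (nat_lit 27) (.e (nat_lit 344132) (nat_lit 26) (.e (nat_lit 557100) (nat_lit 13) (.e (nat_lit 172138) (nat_lit 15) (.e (nat_lit 1800) (nat_lit 119) .nil))))) (.g (nat_lit 0) (.e (nat_lit 230074) (nat_lit 0) .nil) .nil)))) (.nd (nat_lit 9) 
(.lf (nat_lit 523632) (.g (nat_lit 3660) (.e (nat_lit 204863) (nat_lit 27) (.e (nat_lit 344131) (nat_lit 26) (.e (nat_lit 557105) (nat_lit 14) (.e (nat_lit 180252) (nat_lit 10) (.e (nat_lit 573474) (nat_lit 12) (.e (nat_lit 57511) (nat_lit 39) (.e (nat_lit 655104) (nat_lit 0) (.e (nat_lit 2684) (nat_lit 168) .nil)))))))) (.g (nat_lit 1) (.e (nat_lit 229780) (nat_lit 0) .nil) .nil))) 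
(.lf (nat_lit 524144) (.g (nat_lit 414) (.e (nat_lit 204868) (nat_lit 29) (.e (nat_lit 360473) (nat_lit 8) (.e (nat_lit 557073) (nat_lit 9) .nil))) (.g (nat_lit 0) (.e (nat_lit 230726) (nat_lit 0) .nil) .nil))))) (.nd (nat_lit 8) (.nd (nat_lit 9) 
(.lf (nat_lit 523504) (.g (nat_lit 791) (.e (nat_lit 204863) (nat_lit 27) (.e (nat_lit 344117) (nat_lit 21) (.e (nat_lit 516195) (nat_lit 26) .nil))) (.g (nat_lit 0) (.e (nat_lit 229635) (nat_lit 0) .nil) .nil))) 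
(.lf (nat_lit 524016) (.g (nat_lit 750) (.e (nat_lit 204866) (nat_lit 28) (.e (nat_lit 352313) (nat_lit 23) (.e (nat_lit 98349) (nat_lit 24) (.e (nat_lit 417536) (nat_lit 18) .nil)))) (.g (nat_lit 0) (.e (nat_lit 230368) (nat_lit 0) .nil) .nil)))) (.nd (nat_lit 9) 
(.lf (nat_lit 523760) (.g (nat_lit 4165) (.e (nat_lit 204863) (nat_lit 27) (.e (nat_lit 344133) (nat_lit 26) (.e (nat_lit 557103) (nat_lit 14) (.e (nat_lit 180250) (nat_lit 10) (.e (nat_lit 573475) (nat_lit 12) (.e (nat_lit 57507) (nat_lit 39) (.e (nat_lit 655104) (nat_lit 0) (.e (nat_lit 2684) (nat_lit 168) .nil)))))))) (.g (nat_lit 1) (.e (nat_lit 229911) (nat_lit 0) .nil) .nil))) 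
(.lf (nat_lit 524272) (.g (nat_lit 2383) (.e (nat_lit 204868) (nat_lit 29) (.e (nat_lit 360473) (nat_lit 8) (.e (nat_lit 557094) (nat_lit 12) (.e (nat_lit 163849) (nat_lit 0) (.e (nat_lit 6254) (nat_lit 337) (.e (nat_lit 2725) (nat_lit 172) (.e (nat_lit 237592) (nat_lit 3) .nil))))))) (.g (nat_lit 1) (.e (nat_lit 230904) (nat_lit 0) .nil) .nil))))))))) 
(.nd (nat_lit 4) (.nd (nat_lit 5) (.nd (nat_lit 6) (.nd (nat_lit 7) (.nd (nat_lit 8) 
(.nd (nat_lit 9) 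
(.lf (nat_lit 523272) (.g (nat_lit 3587) (.e (nat_lit 204862) (nat_lit 27) (.e (nat_lit 344130) (nat_lit 26) (.e (nat_lit 557104) (nat_lit 14) (.e (nat_lit 180252) (nat_lit 10) (.e (nat_lit 573474) (nat_lit 12) (.e (nat_lit 57505) (nat_lit 39) (.e (nat_lit 655104) (nat_lit 0) (.e (nat_lit 2684) (nat_lit 168) .nil)))))))) (.g (nat_lit 1) (.e (nat_lit 229345) (nat_lit 0) .nil) .nil))) 
(.lf (nat_lit 523784) (.g (nat_lit 4044) (.e (nat_lit 204863) (nat_lit 27) (.e (nat_lit 344133) (nat_lit 26) (.e (nat_lit 557105) (nat_lit 14) (.e (nat_lit 180252) (nat_lit 10) (.e (nat_lit 573473) (nat_lit 12) (.e (nat_lit 57508) (nat_lit 39) (.e (nat_lit 647176) (nat_lit 0) (.e (nat_lit 2681) (nat_lit 168) .nil)))))))) (.g (nat_lit 1) (.e (nat_lit 229935) (nat_lit 0) .nil) .nil)))) 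
(.nd (nat_lit 9) 
(.lf (nat_lit 523528) (.g (nat_lit 2245) (.e (nat_lit 204863) (nat_lit 27) (.e (nat_lit 344129) (nat_lit 26) (.e (nat_lit 557096) (nat_lit 13) (.e (nat_lit 172067) (nat_lit 3) (.e (nat_lit 204821) (nat_lit 17) .nil))))) (.g (nat_lit 0) (.e (nat_lit 229676) (nat_lit 0) .nil) .nil))) 
(.lf (nat_lit 524040) (.g (nat_lit 1997) (.e (nat_lit 204867) (nat_lit 28) (.e (nat_lit 352315) (nat_lit 23) (.e (nat_lit 98350) (nat_lit 24) (.e (nat_lit 409623) (nat_lit 10) (.e (nat_lit 5664) (nat_lit 312) .nil))))) (.g (nat_lit 0) (.e (nat_lit 230470) (nat_lit 0) .nil) .nil))))) (.nd (nat_lit 8) (.nd (nat_lit 9) 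
(.lf (nat_lit 523400) (.g (nat_lit 3625) (.e (nat_lit 204862) (nat_lit 27) (.e (nat_lit 344133) (nat_lit 26) (.e (nat_lit 557105) (nat_lit 14) (.e (nat_lit 180252) (nat_lit 10) (.e (nat_lit 573473) (nat_lit 12) (.e (nat_lit 57508) (nat_lit 39) (.e (nat_lit 647170) (nat_lit 0) (.e (nat_lit 2685) (nat_lit 168) .nil)))))))) (.g (nat_lit 1) (.e (nat_lit 229474) (nat_lit 0) .nil) .nil))) 
(.lf (nat_lit 523912) (.g (nat_lit 3076) (.e (nat_lit 204864) (nat_lit 27) (.e (nat_lit 344132) (nat_lit 26) (.e (nat_lit 557105) (nat_lit 14) (.e (nat_lit 180252) (nat_lit 10) (.e (nat_lit 573474) (nat_lit 12) (.e (nat_lit 57508) (nat_lit 39) (.e (nat_lit 647170) (nat_lit 0) (.e (nat_lit 2680) (nat_lit 168) .nil)))))))) (.g (nat_lit 1) (.e (nat_lit 230098) (nat_lit 0) .nil) .nil)))) 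
(.nd (nat_lit 9) 
(.lf (nat_lit 523656) (.g (nat_lit 2848) (.e (nat_lit 204863) (nat_lit 27) (.e (nat_lit 344132) (nat_lit 26) (.e (nat_lit 557101) (nat_lit 13) (.e (nat_lit 172064) (nat_lit 2) (.e (nat_lit 204544) (nat_lit 2) (.e (nat_lit 32512) (nat_lit 18) .nil)))))) (.g (nat_lit 1) (.e (nat_lit 229805) (nat_lit 0) .nil) .nil))) 
(.lf (nat_lit 524168) (.g (nat_lit 1120) (.e (nat_lit 204868) (nat_lit 29) (.e (nat_lit 360473) (nat_lit 8) (.e (nat_lit 557087) (nat_lit 11) (.e (nat_lit 24584) (nat_lit 0) .nil)))) (.g (nat_lit 0) (.e (nat_lit 230757) (nat_lit 0) .nil) .nil)))))) (.nd (nat_lit 7) (.nd (nat_lit 8) (.nd (nat_lit 9) 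
(.lf (nat_lit 523336) (.g (nat_lit 2628) (.e (nat_lit 204862) (nat_lit 27) (.e (nat_lit 344133) (nat_lit 26) (.e (nat_lit 557098) (nat_lit 13) (.e (nat_lit 172064) (nat_lit 2) (.e (nat_lit 196686) (nat_lit 18) .nil))))) (.g (nat_lit 0) (.e (nat_lit 229410) (nat_lit 0) .nil) .nil))) 
(.lf (nat_lit 523848) (.g (nat_lit 979) (.e (nat_lit 204863) (nat_lit 27) (.e (nat_lit 344160) (nat_lit 37) (.e (nat_lit 647181) (nat_lit 3) (.e (nat_lit 171776) (nat_lit 28) .nil)))) (.g (nat_lit 0) (.e (nat_lit 230018) (nat_lit 0) .nil) .nil)))) (.nd (nat_lit 9) 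
(.lf (nat_lit 523592) (.g (nat_lit 3009) (.e (nat_lit 204863) (nat_lit 27) (.e (nat_lit 344130) (nat_lit 26) (.e (nat_lit 557104) (nat_lit 14) (.e (nat_lit 180252) (nat_lit 10) (.e (nat_lit 573474) (nat_lit 12) (.e (nat_lit 57506) (nat_lit 39) (.e (nat_lit 655104) (nat_lit 0) (.e (nat_lit 2684) (nat_lit 168) .nil)))))))) (.g (nat_lit 1) (.e (nat_lit 229740) (nat_lit 0) .nil) .nil))) 
(.lf (nat_lit 524104) (.g (nat_lit 1183) (.e (nat_lit 204868) (nat_lit 29) (.e (nat_lit 360467) (nat_lit 3) (.e (nat_lit 516139) (nat_lit 7) (.e (nat_lit 409616) (nat_lit 10) .nil)))) (.g (nat_lit 0) (.e (nat_lit 230674) (nat_lit 0) .nil) .nil))))) (.nd (nat_lit 8) (.nd (nat_lit 9) 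
(.lf (nat_lit 523464) (.g (nat_lit 3247) (.e (nat_lit 204863) (nat_lit 27) (.e (nat_lit 344117) (nat_lit 21) (.e (nat_lit 516115) (nat_lit 1) (.e (nat_lit 164183) (nat_lit 154) (.e (nat_lit 57378) (nat_lit 3) (.e (nat_lit 98319) (nat_lit 17) (.e (nat_lit 3771) (nat_lit 229) (.e (nat_lit 794673) (nat_lit 23) .nil)))))))) (.g (nat_lit 1) (.e (nat_lit 229574) (nat_lit 0) .nil) .nil))) 
(.lf (nat_lit 523976) (.g (nat_lit 3230) (.e (nat_lit 204865) (nat_lit 28) (.e (nat_lit 352277) (nat_lit 11) (.e (nat_lit 426500) (nat_lit 27) (.e (nat_lit 335988) (nat_lit 1) (.e (nat_lit 57926) (nat_lit 282) (.e (nat_lit 163875) (nat_lit 3) .nil)))))) (.g (nat_lit 1) (.e (nat_lit 230213) (nat_lit 0) .nil) .nil)))) (.nd (nat_lit 9) 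
(.lf (nat_lit 523720) (.g (nat_lit 2496) (.e (nat_lit 204863) (nat_lit 27) (.e (nat_lit 344133) (nat_lit 26) (.e (nat_lit 557096) (nat_lit 13) (.e (nat_lit 172064) (nat_lit 2) (.e (nat_lit 204544) (nat_lit 2) (.e (nat_lit 32512) (nat_lit 18) .nil)))))) (.g (nat_lit 1) (.e (nat_lit 229871) (nat_lit 0) .nil) .nil))) 
(.lf (nat_lit 524232) (.g (nat_lit 2048) (.e (nat_lit 204868) (nat_lit 29) (.e (nat_lit 360473) (nat_lit 8) (.e (nat_lit 557091) (nat_lit 12) (.e (nat_lit 163843) (nat_lit 0) (.e (nat_lit 6421) (nat_lit 341) .nil))))) (.g (nat_lit 0) (.e (nat_lit 230829) (nat_lit 0) .nil) .nil))))))) (.nd (nat_lit 6) (.nd (nat_lit 7) (.nd (nat_lit 8) (.nd (nat_lit 9) 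
(.lf (nat_lit 523304) (.g (nat_lit 3299) (.e (nat_lit 204862) (nat_lit 27) (.e (nat_lit 344132) (nat_lit 26) (.e (nat_lit 557101) (nat_lit 13) (.e (nat_lit 172065) (nat_lit 3) (.e (nat_lit 204821) (nat_lit 17) (.e (nat_lit 2391) (nat_lit 156) (.e (nat_lit 819204) (nat_lit 0) (.e (nat_lit 2685) (nat_lit 168) .nil)))))))) (.g (nat_lit 1) (.e (nat_lit 229377) (nat_lit 0) .nil) .nil))) 
(.lf (nat_lit 523816) (.g (nat_lit 3634) (.e (nat_lit 204863) (nat_lit 27) (.e (nat_lit 344133) (nat_lit 26) (.e (nat_lit 557105) (nat_lit 14) (.e (nat_lit 180252) (nat_lit 10) (.e (nat_lit 573474) (nat_lit 12) (.e (nat_lit 57510) (nat_lit 39) (.e (nat_lit 647173) (nat_lit 0) (.e (nat_lit 2681) (nat_lit 168) .nil)))))))) (.g (nat_lit 1) (.e (nat_lit 229967) (nat_lit 0) .nil) .nil)))) 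
(.nd (nat_lit 9) 
(.lf (nat_lit 523560) (.g (nat_lit 3785) (.e (nat_lit 204863) (nat_lit 27) (.e (nat_lit 344129) (nat_lit 26) (.e (nat_lit 557104) (nat_lit 14) (.e (nat_lit 180252) (nat_lit 10) (.e (nat_lit 573474) (nat_lit 12) (.e (nat_lit 57506) (nat_lit 39) (.e (nat_lit 655104) (nat_lit 0) (.e (nat_lit 2684) (nat_lit 168) .nil)))))))) (.g (nat_lit 1) (.e (nat_lit 229708) (nat_lit 0) .nil) .nil))) 
(.lf (nat_lit 524072) (.g (nat_lit 3253) (.e (nat_lit 204868) (nat_lit 29) (.e (nat_lit 360466) (nat_lit 3) (.e (nat_lit 516139) (nat_lit 7) (.e (nat_lit 409617) (nat_lit 10) (.e (nat_lit 5627) (nat_lit 312) (.e (nat_lit 2685) (nat_lit 168) .nil)))))) (.g (nat_lit 1) (.e (nat_lit 230559) (nat_lit 0) .nil) .nil))))) (.nd (nat_lit 8) (.nd (nat_lit 9) 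
(.lf (nat_lit 523432) (.g (nat_lit 4289) (.e (nat_lit 204862) (nat_lit 27) (.e (nat_lit 344133) (nat_lit 26) (.e (nat_lit 557105) (nat_lit 14) (.e (nat_lit 180252) (nat_lit 10) (.e (nat_lit 573475) (nat_lit 12) (.e (nat_lit 57508) (nat_lit 39) (.e (nat_lit 655104) (nat_lit 0) (.e (nat_lit 2684) (nat_lit 168) .nil)))))))) (.g (nat_lit 1) (.e (nat_lit 229506) (nat_lit 0) .nil) .nil))) 
(.lf (nat_lit 523944) (.g (nat_lit 3072) (.e (nat_lit 204864) (nat_lit 27) (.e (nat_lit 344133) (nat_lit 26) (.e (nat_lit 557105) (nat_lit 14) (.e (nat_lit 180252) (nat_lit 10) (.e (nat_lit 573449) (nat_lit 9) .nil))))) (.g (nat_lit 0) (.e (nat_lit 230130) (nat_lit 0) .nil) .nil)))) (.nd (nat_lit 9) 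
(.lf (nat_lit 523688) (.g (nat_lit 3403) (.e (nat_lit 204863) (nat_lit 27) (.e (nat_lit 344132) (nat_lit 26) (.e (nat_lit 557105) (nat_lit 14) (.e (nat_lit 180252) (nat_lit 10) (.e (nat_lit 573474) (nat_lit 12) (.e (nat_lit 57507) (nat_lit 39) (.e (nat_lit 655104) (nat_lit 0) (.e (nat_lit 2685) (nat_lit 168) .nil)))))))) (.g (nat_lit 1) (.e (nat_lit 229837) (nat_lit 0) .nil) .nil))) 
(.lf (nat_lit 524200) (.g (nat_lit 3000) (.e (nat_lit 204868) (nat_lit 29) (.e (nat_lit 360473) (nat_lit 8) (.e (nat_lit 557089) (nat_lit 12) (.e (nat_lit 163849) (nat_lit 0) (.e (nat_lit 6254) (nat_lit 337) (.e (nat_lit 2725) (nat_lit 172) (.e (nat_lit 237592) (nat_lit 3) .nil))))))) (.g (nat_lit 1) (.e (nat_lit 230793) (nat_lit 0) .nil) .nil)))))) 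
(.nd (nat_lit 7) (.nd (nat_lit 8) (.nd (nat_lit 9) 
(.lf (nat_lit 523368) (.g (nat_lit 3208) (.e (nat_lit 204862) (nat_lit 27) (.e (nat_lit 344133) (nat_lit 26) (.e (nat_lit 557103) (nat_lit 14) (.e (nat_lit 180250) (nat_lit 10) (.e (nat_lit 573474) (nat_lit 12) (.e (nat_lit 57507) (nat_lit 39) (.e (nat_lit 647176) (nat_lit 0) (.e (nat_lit 2681) (nat_lit 168) .nil)))))))) (.g (nat_lit 1) (.e (nat_lit 229442) (nat_lit 0) .nil) .nil))) 
(.lf (nat_lit 523880) (.g (nat_lit 1971) (.e (nat_lit 204864) (nat_lit 27) (.e (nat_lit 344132) (nat_lit 26) (.e (nat_lit 557100) (nat_lit 13) (.e (nat_lit 172064) (nat_lit 2) (.e (nat_lit 196686) (nat_lit 18) .nil))))) (.g (nat_lit 0) (.e (nat_lit 230066) (nat_lit 0) .nil) .nil)))) (.nd (nat_lit 9) 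
(.lf (nat_lit 523624) (.g (nat_lit 2798) (.e (nat_lit 204863) (nat_lit 27) (.e (nat_lit 344131) (nat_lit 26) (.e (nat_lit 557105) (nat_lit 14) (.e (nat_lit 180252) (nat_lit 10) (.e (nat_lit 573474) (nat_lit 12) (.e (nat_lit 57506) (nat_lit 39) (.e (nat_lit 647170) (nat_lit 0) (.e (nat_lit 2685) (nat_lit 168) .nil)))))))) (.g (nat_lit 1) (.e (nat_lit 229772) (nat_lit 0) .nil) .nil))) 
(.lf (nat_lit 524136) (.g (nat_lit 2141) (.e (nat_lit 204868) (nat_lit 29) (.e (nat_lit 360473) (nat_lit 8) (.e (nat_lit 557067) (nat_lit 9) (.e (nat_lit 290) (nat_lit 21) .nil)))) (.g (nat_lit 0) (.e (nat_lit 230715) (nat_lit 0) .nil) .nil))))) (.nd (nat_lit 8) (.nd (nat_lit 9) 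
(.lf (nat_lit 523496) (.g (nat_lit 2125) (.e (nat_lit 204863) (nat_lit 27) (.e (nat_lit 344117) (nat_lit 21) (.e (nat_lit 516130) (nat_lit 3) (.e (nat_lit 221212) (nat_lit 22) (.e (nat_lit 204544) (nat_lit 19) (.e (nat_lit 57883) (nat_lit 270) (.e (nat_lit 174) (nat_lit 12) .nil))))))) (.g (nat_lit 1) (.e (nat_lit 229621) (nat_lit 0) .nil) .nil))) 
(.lf (nat_lit 524008) (.g (nat_lit 1392) (.e (nat_lit 204866) (nat_lit 28) (.e (nat_lit 352277) (nat_lit 11) (.e (nat_lit 426098) (nat_lit 1) (.e (nat_lit 164178) (nat_lit 154) .nil)))) (.g (nat_lit 0) (.e (nat_lit 230306) (nat_lit 0) .nil) .nil)))) (.nd (nat_lit 9) 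
(.lf (nat_lit 523752) (.g (nat_lit 3629) (.e (nat_lit 204863) (nat_lit 27) (.e (nat_lit 344133) (nat_lit 26) (.e (nat_lit 557103) (nat_lit 14) (.e (nat_lit 180250) (nat_lit 10) (.e (nat_lit 573473) (nat_lit 12) (.e (nat_lit 57508) (nat_lit 39) (.e (nat_lit 655104) (nat_lit 0) (.e (nat_lit 2684) (nat_lit 168) .nil)))))))) (.g (nat_lit 1) (.e (nat_lit 229903) (nat_lit 0) .nil) .nil))) 
(.lf (nat_lit 524264) (.g (nat_lit 1522) (.e (nat_lit 204868) (nat_lit 29) (.e (nat_lit 360473) (nat_lit 8) (.e (nat_lit 557093) (nat_lit 12) (.e (nat_lit 164022) (nat_lit 46) (.e (nat_lit 704629) (nat_lit 9) .nil))))) (.g (nat_lit 0) (.e (nat_lit 230888) (nat_lit 0) .nil) .nil)))))))) (.nd (nat_lit 5) (.nd (nat_lit 6) (.nd (nat_lit 7) (.nd (nat_lit 8) (.nd (nat_lit 9) 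
(.lf (nat_lit 523288) (.g (nat_lit 1486) (.e (nat_lit 204862) (nat_lit 27) (.e (nat_lit 344132) (nat_lit 26) (.e (nat_lit 557100) (nat_lit 13) (.e (nat_lit 172042) (nat_lit 0) (.e (nat_lit 3289) (nat_lit 201) .nil))))) (.g (nat_lit 0) (.e (nat_lit 229361) (nat_lit 0) .nil) .nil))) 
(.lf (nat_lit 523800) (.g (nat_lit 4157) (.e (nat_lit 204863) (nat_lit 27) (.e (nat_lit 344133) (nat_lit 26) (.e (nat_lit 557105) (nat_lit 14) (.e (nat_lit 180252) (nat_lit 10) (.e (nat_lit 573474) (nat_lit 12) (.e (nat_lit 57506) (nat_lit 39) (.e (nat_lit 647170) (nat_lit 0) (.e (nat_lit 2685) (nat_lit 168) .nil)))))))) (.g (nat_lit 1) (.e (nat_lit 229951) (nat_lit 0) .nil) .nil)))) 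
(.nd (nat_lit 9) 
(.lf (nat_lit 523544) (.g (nat_lit 4135) (.e (nat_lit 204863) (nat_lit 27) (.e (nat_lit 344129) (nat_lit 26) (.e (nat_lit 557103) (nat_lit 14) (.e (nat_lit 180250) (nat_lit 10) (.e (nat_lit 573474) (nat_lit 12) (.e (nat_lit 57507) (nat_lit 39) (.e (nat_lit 655104) (nat_lit 0) (.e (nat_lit 2684) (nat_lit 168) .nil)))))))) (.g (nat_lit 1) (.e (nat_lit 229692) (nat_lit 0) .nil) .nil))) 
(.lf (nat_lit 524056) (.g (nat_lit 1004) (.e (nat_lit 204868) (nat_lit 29) (.e (nat_lit 360466) (nat_lit 3) (.e (nat_lit 516138) (nat_lit 7) (.e (nat_lit 409623) (nat_lit 10) .nil)))) (.g (nat_lit 0) (.e (nat_lit 230543) (nat_lit 0) .nil) .nil))))) (.nd (nat_lit 8) (.nd (nat_lit 9) 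
(.lf (nat_lit 523416) (.g (nat_lit 2909) (.e (nat_lit 204862) (nat_lit 27) (.e (nat_lit 344133) (nat_lit 26) (.e (nat_lit 557105) (nat_lit 14) (.e (nat_lit 180252) (nat_lit 10) (.e (nat_lit 573474) (nat_lit 12) (.e (nat_lit 57508) (nat_lit 39) (.e (nat_lit 647176) (nat_lit 0) (.e (nat_lit 2684) (nat_lit 168) .nil)))))))) (.g (nat_lit 1) (.e (nat_lit 229490) (nat_lit 0) .nil) .nil))) 
(.lf (nat_lit 523928) (.g (nat_lit 1912) (.e (nat_lit 204864) (nat_lit 27) (.e (nat_lit 344133) (nat_lit 26) (.e (nat_lit 557098) (nat_lit 13) (.e (nat_lit 172129) (nat_lit 15) .nil)))) (.g (nat_lit 0) (.e (nat_lit 230114) (nat_lit 0) .nil) .nil)))) (.nd (nat_lit 9) 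
(.lf (nat_lit 523672) (.g (nat_lit 2935) (.e (nat_lit 204863) (nat_lit 27) (.e (nat_lit 344132) (nat_lit 26) (.e (nat_lit 557105) (nat_lit 14) (.e (nat_lit 180252) (nat_lit 10) (.e (nat_lit 573473) (nat_lit 12) (.e (nat_lit 57511) (nat_lit 39) (.e (nat_lit 647171) (nat_lit 0) (.e (nat_lit 2675) (nat_lit 168) .nil)))))))) (.g (nat_lit 1) (.e (nat_lit 229821) (nat_lit 0) .nil) .nil))) 
(.lf (nat_lit 524184) (.g (nat_lit 2668) (.e (nat_lit 204868) (nat_lit 29) (.e (nat_lit 360473) (nat_lit 8) (.e (nat_lit 557089) (nat_lit 12) (.e (nat_lit 163843) (nat_lit 0) (.e (nat_lit 6255) (nat_lit 337) (.e (nat_lit 2725) (nat_lit 172) (.e (nat_lit 237592) (nat_lit 3) .nil))))))) (.g (nat_lit 1) (.e (nat_lit 230776) (nat_lit 0) .nil) .nil)))))) 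
(.nd (nat_lit 7) (.nd (nat_lit 8) (.nd (nat_lit 9) 
(.lf (nat_lit 523352) (.g (nat_lit 2262) (.e (nat_lit 204862) (nat_lit 27) (.e (nat_lit 344133) (nat_lit 26) (.e (nat_lit 557103) (nat_lit 14) (.e (nat_lit 180243) (nat_lit 5) (.e (nat_lit 532504) (nat_lit 1) .nil))))) (.g (nat_lit 0) (.e (nat_lit 229426) (nat_lit 0) .nil) .nil))) 
(.lf (nat_lit 523864) (.g (nat_lit 3214) (.e (nat_lit 204864) (nat_lit 27) (.e (nat_lit 344130) (nat_lit 26) (.e (nat_lit 557103) (nat_lit 14) (.e (nat_lit 180250) (nat_lit 10) (.e (nat_lit 573473) (nat_lit 12) (.e (nat_lit 57508) (nat_lit 39) (.e (nat_lit 647170) (nat_lit 0) (.e (nat_lit 2685) (nat_lit 168) .nil)))))))) (.g (nat_lit 1) (.e (nat_lit 230050) (nat_lit 0) .nil) .nil)))) 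
(.nd (nat_lit 9) 
(.lf (nat_lit 523608) (.g (nat_lit 2770) (.e (nat_lit 204863) (nat_lit 27) (.e (nat_lit 344131) (nat_lit 26) (.e (nat_lit 557103) (nat_lit 14) (.e (nat_lit 180250) (nat_lit 10) (.e (nat_lit 573473) (nat_lit 12) (.e (nat_lit 57508) (nat_lit 39) (.e (nat_lit 647170) (nat_lit 0) (.e (nat_lit 2685) (nat_lit 168) .nil)))))))) (.g (nat_lit 1) (.e (nat_lit 229756) (nat_lit 0) .nil) .nil))) 
(.lf (nat_lit 524120) (.g (nat_lit 935) (.e (nat_lit 204868) (nat_lit 29) (.e (nat_lit 360471) (nat_lit 7) (.e (nat_lit 548900) (nat_lit 14) (.e (nat_lit 7936) (nat_lit 5) .nil)))) (.g (nat_lit 0) (.e (nat_lit 230690) (nat_lit 0) .nil) .nil))))) (.nd (nat_lit 8) (.nd (nat_lit 9) 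
(.lf (nat_lit 523480) (.g (nat_lit 3754) (.e (nat_lit 204863) (nat_lit 27) (.e (nat_lit 344117) (nat_lit 21) (.e (nat_lit 516116) (nat_lit 1) (.e (nat_lit 164183) (nat_lit 154) (.e (nat_lit 57379) (nat_lit 3) (.e (nat_lit 98321) (nat_lit 17) (.e (nat_lit 3771) (nat_lit 229) (.e (nat_lit 794673) (nat_lit 23) .nil)))))))) (.g (nat_lit 1) (.e (nat_lit 229605) (nat_lit 0) .nil) .nil))) 
(.lf (nat_lit 523992) (.g (nat_lit 419) (.e (nat_lit 204865) (nat_lit 28) (.e (nat_lit 352315) (nat_lit 23) (.e (nat_lit 98350) (nat_lit 24) .nil))) (.g (nat_lit 0) (.e (nat_lit 230245) (nat_lit 0) .nil) .nil)))) (.nd (nat_lit 9) 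
(.lf (nat_lit 523736) (.g (nat_lit 3492) (.e (nat_lit 204863) (nat_lit 27) (.e (nat_lit 344133) (nat_lit 26) (.e (nat_lit 557098) (nat_lit 13) (.e (nat_lit 172133) (nat_lit 15) (.e (nat_lit 1800) (nat_lit 119) (.e (nat_lit 516119) (nat_lit 1) (.e (nat_lit 164345) (nat_lit 240) (.e (nat_lit 2426) (nat_lit 157) (.e (nat_lit 2678) (nat_lit 168) .nil))))))))) (.g (nat_lit 1) (.e (nat_lit 229887) (nat_lit 0) .nil) .nil))) 
(.lf (nat_lit 524248) (.g (nat_lit 1192) (.e (nat_lit 204868) (nat_lit 29) (.e (nat_lit 360473) (nat_lit 8) (.e (nat_lit 557091) (nat_lit 12) (.e (nat_lit 164016) (nat_lit 44) .nil)))) (.g (nat_lit 0) (.e (nat_lit 230848) (nat_lit 0) .nil) .nil))))))) (.nd (nat_lit 6) (.nd (nat_lit 7) (.nd (nat_lit 8) (.nd (nat_lit 9) 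
(.lf (nat_lit 523320) (.g (nat_lit 2375) (.e (nat_lit 204862) (nat_lit 27) (.e (nat_lit 344132) (nat_lit 26) (.e (nat_lit 557105) (nat_lit 14) (.e (nat_lit 180252) (nat_lit 10) (.e (nat_lit 573473) (nat_lit 12) (.e (nat_lit 57508) (nat_lit 39) (.e (nat_lit 655104) (nat_lit 0) (.e (nat_lit 2685) (nat_lit 168) .nil)))))))) (.g (nat_lit 1) (.e (nat_lit 229393) (nat_lit 0) .nil) .nil))) 
(.lf (nat_lit 523832) (.g (nat_lit 4454) (.e (nat_lit 204863) (nat_lit 27) (.e (nat_lit 344133) (nat_lit 26) (.e (nat_lit 557105) (nat_lit 14) (.e (nat_lit 180252) (nat_lit 10) (.e (nat_lit 573475) (nat_lit 12) (.e (nat_lit 57508) (nat_lit 39) (.e (nat_lit 647170) (nat_lit 0) (.e (nat_lit 2685) (nat_lit 168) .nil)))))))) (.g (nat_lit 1) (.e (nat_lit 229983) (nat_lit 0) .nil) .nil)))) 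
(.nd (nat_lit 9) 
(.lf (nat_lit 523576) (.g (nat_lit 3399) (.e (nat_lit 204863) (nat_lit 27) (.e (nat_lit 344130) (nat_lit 26) (.e (nat_lit 557103) (nat_lit 14) (.e (nat_lit 180250) (nat_lit 10) (.e (nat_lit 573473) (nat_lit 12) (.e (nat_lit 57507) (nat_lit 39) (.e (nat_lit 655104) (nat_lit 0) (.e (nat_lit 2684) (nat_lit 168) .nil)))))))) (.g (nat_lit 1) (.e (nat_lit 229724) (nat_lit 0) .nil) .nil))) 
(.lf (nat_lit 524088) (.g (nat_lit 1224) (.e (nat_lit 204868) (nat_lit 29) (.e (nat_lit 360466) (nat_lit 3) (.e (nat_lit 516142) (nat_lit 8) (.e (nat_lit 417818) (nat_lit 10) (.e (nat_lit 5670) (nat_lit 312) .nil))))) (.g (nat_lit 0) (.e (nat_lit 230583) (nat_lit 0) .nil) .nil))))) (.nd (nat_lit 8) (.nd (nat_lit 9) 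
(.lf (nat_lit 523448) (.g (nat_lit 2067) (.e (nat_lit 204863) (nat_lit 27) (.e (nat_lit 344117) (nat_lit 21) (.e (nat_lit 516097) (nat_lit 0) (.e (nat_lit 3605) (nat_lit 225) .nil)))) (.g (nat_lit 0) (.e (nat_lit 229535) (nat_lit 0) .nil) .nil))) 
(.lf (nat_lit 523960) (.g (nat_lit 3335) (.e (nat_lit 204864) (nat_lit 27) (.e (nat_lit 344133) (nat_lit 26) (.e (nat_lit 557105) (nat_lit 14) (.e (nat_lit 180252) (nat_lit 10) (.e (nat_lit 573475) (nat_lit 12) (.e (nat_lit 57507) (nat_lit 39) (.e (nat_lit 647170) (nat_lit 0) (.e (nat_lit 2685) (nat_lit 168) .nil)))))))) (.g (nat_lit 1) (.e (nat_lit 230146) (nat_lit 0) .nil) .nil)))) 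
(.nd (nat_lit 9) 
(.lf (nat_lit 523704) (.g (nat_lit 2433) (.e (nat_lit 204863) (nat_lit 27) (.e (nat_lit 344132) (nat_lit 26) (.e (nat_lit 557105) (nat_lit 14) (.e (nat_lit 180252) (nat_lit 10) (.e (nat_lit 573475) (nat_lit 12) (.e (nat_lit 57507) (nat_lit 39) (.e (nat_lit 655104) (nat_lit 0) (.e (nat_lit 2679) (nat_lit 168) .nil)))))))) (.g (nat_lit 1) (.e (nat_lit 229853) (nat_lit 0) .nil) .nil))) 
(.lf (nat_lit 524216) (.g (nat_lit 1326) (.e (nat_lit 204868) (nat_lit 29) (.e (nat_lit 360473) (nat_lit 8) (.e (nat_lit 557091) (nat_lit 12) (.e (nat_lit 163843) (nat_lit 0) .nil)))) (.g (nat_lit 0) (.e (nat_lit 230811) (nat_lit 0) .nil) .nil)))))) (.nd (nat_lit 7) (.nd (nat_lit 8) (.nd (nat_lit 9) 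
(.lf (nat_lit 523384) (.g (nat_lit 2725) (.e (nat_lit 204862) (nat_lit 27) (.e (nat_lit 344133) (nat_lit 26) (.e (nat_lit 557103) (nat_lit 14) (.e (nat_lit 180250) (nat_lit 10) (.e (nat_lit 573477) (nat_lit 12) (.e (nat_lit 57509) (nat_lit 39) (.e (nat_lit 655104) (nat_lit 0) (.e (nat_lit 2684) (nat_lit 168) .nil)))))))) (.g (nat_lit 1) (.e (nat_lit 229458) (nat_lit 0) .nil) .nil))) 
(.lf (nat_lit 523896) (.g (nat_lit 2596) (.e (nat_lit 204864) (nat_lit 27) (.e (nat_lit 344132) (nat_lit 26) (.e (nat_lit 557105) (nat_lit 14) (.e (nat_lit 180252) (nat_lit 10) (.e (nat_lit 573449) (nat_lit 9) .nil))))) (.g (nat_lit 0) (.e (nat_lit 230082) (nat_lit 0) .nil) .nil)))) (.nd (nat_lit 9) 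
(.lf (nat_lit 523640) (.g (nat_lit 2722) (.e (nat_lit 204863) (nat_lit 27) (.e (nat_lit 344131) (nat_lit 26) (.e (nat_lit 557105) (nat_lit 14) (.e (nat_lit 180252) (nat_lit 10) (.e (nat_lit 573503) (nat_lit 18) (.e (nat_lit 7936) (nat_lit 81) (.e (nat_lit 5259) (nat_lit 298) (.e (nat_lit 174) (nat_lit 12) .nil)))))))) (.g (nat_lit 1) (.e (nat_lit 229788) (nat_lit 0) .nil) .nil))) 
(.lf (nat_lit 524152) (.g (nat_lit 2547) (.e (nat_lit 204868) (nat_lit 29) (.e (nat_lit 360473) (nat_lit 8) (.e (nat_lit 557086) (nat_lit 11) (.e (nat_lit 24664) (nat_lit 14) (.e (nat_lit 401427) (nat_lit 3) .nil))))) (.g (nat_lit 1) (.e (nat_lit 230739) (nat_lit 0) .nil) .nil))))) (.nd (nat_lit 8) (.nd (nat_lit 9) 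
(.lf (nat_lit 523512) (.g (nat_lit 2345) (.e (nat_lit 204863) (nat_lit 27) (.e (nat_lit 344118) (nat_lit 21) (.e (nat_lit 516115) (nat_lit 1) (.e (nat_lit 164179) (nat_lit 154) (.e (nat_lit 57377) (nat_lit 3) .nil))))) (.g (nat_lit 0) (.e (nat_lit 229645) (nat_lit 0) .nil) .nil))) 
(.lf (nat_lit 524024) (.g (nat_lit 920) (.e (nat_lit 204866) (nat_lit 28) (.e (nat_lit 352315) (nat_lit 23) (.e (nat_lit 98350) (nat_lit 24) (.e (nat_lit 409644) (nat_lit 18) .nil)))) (.g (nat_lit 0) (.e (nat_lit 230410) (nat_lit 0) .nil) .nil)))) (.nd (nat_lit 9) 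
(.lf (nat_lit 523768) (.g (nat_lit 2697) (.e (nat_lit 204863) (nat_lit 27) (.e (nat_lit 344133) (nat_lit 26) (.e (nat_lit 557105) (nat_lit 14) (.e (nat_lit 188160) (nat_lit 1) (.e (nat_lit 499900) (nat_lit 7) (.e (nat_lit 32512) (nat_lit 18) .nil)))))) (.g (nat_lit 1) (.e (nat_lit 229919) (nat_lit 0) .nil) .nil))) 
(.lf (nat_lit 524280) (.g (nat_lit 1294) (.e (nat_lit 204868) (nat_lit 29) (.e (nat_lit 360474) (nat_lit 8) (.e (nat_lit 557085) (nat_lit 11) (.e (nat_lit 24580) (nat_lit 0) .nil)))) (.g (nat_lit 0) (.e (nat_lit 230925) (nat_lit 0) .nil) .nil)))))))))) (.nd (nat_lit 3) (.nd (nat_lit 4) (.nd (nat_lit 5) (.nd (nat_lit 6) (.nd (nat_lit 7) (.nd (nat_lit 8) (.nd (nat_lit 9) 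
(.lf (nat_lit 523268) (.g (nat_lit 2519) (.e (nat_lit 204862) (nat_lit 27) (.e (nat_lit 344130) (nat_lit 26) (.e (nat_lit 557104) (nat_lit 14) (.e (nat_lit 180252) (nat_lit 10) (.e (nat_lit 573473) (nat_lit 12) (.e (nat_lit 57508) (nat_lit 39) (.e (nat_lit 647170) (nat_lit 0) (.e (nat_lit 2685) (nat_lit 168) .nil)))))))) (.g (nat_lit 1) (.e (nat_lit 229341) (nat_lit 0) .nil) .nil))) 
(.lf (nat_lit 523780) (.g (nat_lit 4410) (.e (nat_lit 204863) (nat_lit 27) (.e (nat_lit 344133) (nat_lit 26) (.e (nat_lit 557105) (nat_lit 14) (.e (nat_lit 180252) (nat_lit 10) (.e (nat_lit 573473) (nat_lit 12) (.e (nat_lit 57507) (nat_lit 39) (.e (nat_lit 655104) (nat_lit 0) (.e (nat_lit 2684) (nat_lit 168) .nil)))))))) (.g (nat_lit 1) (.e (nat_lit 229931) (nat_lit 0) .nil) .nil)))) 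
(.nd (nat_lit 9) 
(.lf (nat_lit 523524) (.g (nat_lit 3058) (.e (nat_lit 204863) (nat_lit 27) (.e (nat_lit 344120) (nat_lit 21) (.e (nat_lit 516119) (nat_lit 1) (.e (nat_lit 164179) (nat_lit 154) (.e (nat_lit 57372) (nat_lit 2) (.e (nat_lit 90128) (nat_lit 9) (.e (nat_lit 2706) (nat_lit 170) (.e (nat_lit 221214) (nat_lit 23) .nil)))))))) (.g (nat_lit 1) (.e (nat_lit 229668) (nat_lit 0) .nil) .nil))) 
(.lf (nat_lit 524036) (.g (nat_lit 1703) (.e (nat_lit 204867) (nat_lit 28) (.e (nat_lit 352313) (nat_lit 23) (.e (nat_lit 98350) (nat_lit 24) (.e (nat_lit 409623) (nat_lit 10) (.e (nat_lit 5664) (nat_lit 312) .nil))))) (.g (nat_lit 0) (.e (nat_lit 230466) (nat_lit 0) .nil) .nil))))) (.nd (nat_lit 8) (.nd (nat_lit 9) 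
(.lf (nat_lit 523396) (.g (nat_lit 3348) (.e (nat_lit 204862) (nat_lit 27) (.e (nat_lit 344133) (nat_lit 26) (.e (nat_lit 557105) (nat_lit 14) (.e (nat_lit 180252) (nat_lit 10) (.e (nat_lit 573473) (nat_lit 12) (.e (nat_lit 57506) (nat_lit 39) (.e (nat_lit 655104) (nat_lit 0) (.e (nat_lit 2684) (nat_lit 168) .nil)))))))) (.g (nat_lit 1) (.e (nat_lit 229470) (nat_lit 0) .nil) .nil))) 
(.lf (nat_lit 523908) (.g (nat_lit 3004) (.e (nat_lit 204864) (nat_lit 27) (.e (nat_lit 344132) (nat_lit 26) (.e (nat_lit 557105) (nat_lit 14) (.e (nat_lit 180252) (nat_lit 10) (.e (nat_lit 573474) (nat_lit 12) (.e (nat_lit 57347) (nat_lit 0) (.e (nat_lit 5438) (nat_lit 306) (.e (nat_lit 2433) (nat_lit 157) (.e (nat_lit 2685) (nat_lit 168) .nil))))))))) (.g (nat_lit 1) (.e (nat_lit 230094) (nat_lit 0) .nil) .nil)))) 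
(.nd (nat_lit 9) 
(.lf (nat_lit 523652) (.g (nat_lit 2154) (.e (nat_lit 204863) (nat_lit 27) (.e (nat_lit 344132) (nat_lit 26) (.e (nat_lit 557100) (nat_lit 13) (.e (nat_lit 172134) (nat_lit 15) .nil)))) (.g (nat_lit 0) (.e (nat_lit 229800) (nat_lit 0) .nil) .nil))) 
(.lf (nat_lit 524164) (.g (nat_lit 2865) (.e (nat_lit 204868) (nat_lit 29) (.e (nat_lit 360473) (nat_lit 8) (.e (nat_lit 557087) (nat_lit 11) (.e (nat_lit 24580) (nat_lit 0) (.e (nat_lit 6624) (nat_lit 357) (.e (nat_lit 2675) (nat_lit 168) .nil)))))) (.g (nat_lit 1) (.e (nat_lit 230751) (nat_lit 0) .nil) .nil)))))) (.nd (nat_lit 7) (.nd (nat_lit 8) (.nd (nat_lit 9) 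
(.lf (nat_lit 523332) (.g (nat_lit 1681) (.e (nat_lit 204862) (nat_lit 27) (.e (nat_lit 344133) (nat_lit 26) (.e (nat_lit 557096) (nat_lit 13) (.e (nat_lit 172133) (nat_lit 15) (.e (nat_lit 7936) (nat_lit 121) .nil))))) (.g (nat_lit 0) (.e (nat_lit 229406) (nat_lit 0) .nil) .nil))) 
(.lf (nat_lit 523844) (.g (nat_lit 547) (.e (nat_lit 204863) (nat_lit 27) (.e (nat_lit 344169) (nat_lit 40) (.e (nat_lit 671748) (nat_lit 0) .nil))) (.g (nat_lit 0) (.e (nat_lit 229996) (nat_lit 0) .nil) .nil)))) (.nd (nat_lit 9) 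
(.lf (nat_lit 523588) (.g (nat_lit 2236) (.e (nat_lit 204863) (nat_lit 27) (.e (nat_lit 344130) (nat_lit 26) (.e (nat_lit 557104) (nat_lit 14) (.e (nat_lit 188160) (nat_lit 1) (.e (nat_lit 499900) (nat_lit 7) (.e (nat_lit 32512) (nat_lit 18) .nil)))))) (.g (nat_lit 1) (.e (nat_lit 229736) (nat_lit 0) .nil) .nil))) 
(.lf (nat_lit 524100) (.g (nat_lit 1160) (.e (nat_lit 204868) (nat_lit 29) (.e (nat_lit 360467) (nat_lit 3) (.e (nat_lit 516098) (nat_lit 0) (.e (nat_lit 7073) (nat_lit 377) .nil)))) (.g (nat_lit 0) (.e (nat_lit 230670) (nat_lit 0) .nil) .nil))))) (.nd (nat_lit 8) (.nd (nat_lit 9) 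
(.lf (nat_lit 523460) (.g (nat_lit 3927) (.e (nat_lit 204863) (nat_lit 27) (.e (nat_lit 344117) (nat_lit 21) (.e (nat_lit 516115) (nat_lit 1) (.e (nat_lit 164179) (nat_lit 154) (.e (nat_lit 57378) (nat_lit 3) (.e (nat_lit 98321) (nat_lit 17) (.e (nat_lit 3771) (nat_lit 229) (.e (nat_lit 794673) (nat_lit 23) .nil)))))))) (.g (nat_lit 1) (.e (nat_lit 229559) (nat_lit 0) .nil) .nil))) 
(.lf (nat_lit 523972) (.g (nat_lit 371) (.e (nat_lit 204865) (nat_lit 28) (.e (nat_lit 352277) (nat_lit 11) (.e (nat_lit 426098) (nat_lit 1) .nil))) (.g (nat_lit 0) (.e (nat_lit 230192) (nat_lit 0) .nil) .nil)))) (.nd (nat_lit 9) 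
(.lf (nat_lit 523716) (.g (nat_lit 2130) (.e (nat_lit 204863) (nat_lit 27) (.e (nat_lit 344132) (nat_lit 26) (.e (nat_lit 557105) (nat_lit 14) (.e (nat_lit 180252) (nat_lit 10) (.e (nat_lit 581376) (nat_lit 19) .nil))))) (.g (nat_lit 0) (.e (nat_lit 229865) (nat_lit 0) .nil) .nil))) 
(.lf (nat_lit 524228) (.g (nat_lit 3008) (.e (nat_lit 204868) (nat_lit 29) (.e (nat_lit 360473) (nat_lit 8) (.e (nat_lit 557091) (nat_lit 12) (.e (nat_lit 163843) (nat_lit 0) (.e (nat_lit 6418) (nat_lit 341) (.e (nat_lit 163900) (nat_lit 12) (.e (nat_lit 426140) (nat_lit 3) .nil))))))) (.g (nat_lit 1) (.e (nat_lit 230825) (nat_lit 0) .nil) .nil))))))) 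
(.nd (nat_lit 6) (.nd (nat_lit 7) (.nd (nat_lit 8) (.nd (nat_lit 9) 
(.lf (nat_lit 523300) (.g (nat_lit 1655) (.e (nat_lit 204862) (nat_lit 27) (.e (nat_lit 344132) (nat_lit 26) (.e (nat_lit 557100) (nat_lit 13) (.e (nat_lit 172138) (nat_lit 15) .nil)))) (.g (nat_lit 0) (.e (nat_lit 229373) (nat_lit 0) .nil) .nil))) 
(.lf (nat_lit 523812) (.g (nat_lit 3231) (.e (nat_lit 204863) (nat_lit 27) (.e (nat_lit 344133) (nat_lit 26) (.e (nat_lit 557105) (nat_lit 14) (.e (nat_lit 180252) (nat_lit 10) (.e (nat_lit 573474) (nat_lit 12) (.e (nat_lit 57509) (nat_lit 39) (.e (nat_lit 647172) (nat_lit 0) (.e (nat_lit 2681) (nat_lit 168) .nil)))))))) (.g (nat_lit 1) (.e (nat_lit 229963) (nat_lit 0) .nil) .nil)))) 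
(.nd (nat_lit 9) 
(.lf (nat_lit 523556) (.g (nat_lit 3404) (.e (nat_lit 204863) (nat_lit 27) (.e (nat_lit 344129) (nat_lit 26) (.e (nat_lit 557104) (nat_lit 14) (.e (nat_lit 180252) (nat_lit 10) (.e (nat_lit 573473) (nat_lit 12) (.e (nat_lit 57508) (nat_lit 39) (.e (nat_lit 647175) (nat_lit 0) (.e (nat_lit 2684) (nat_lit 168) .nil)))))))) (.g (nat_lit 1) (.e (nat_lit 229704) (nat_lit 0) .nil) .nil))) 
(.lf (nat_lit 524068) (.g (nat_lit 3072) (.e (nat_lit 204868) (nat_lit 29) (.e (nat_lit 360466) (nat_lit 3) (.e (nat_lit 516139) (nat_lit 7) (.e (nat_lit 409616) (nat_lit 10) (.e (nat_lit 5612) (nat_lit 312) (.e (nat_lit 2685) (nat_lit 168) .nil)))))) (.g (nat_lit 1) (.e (nat_lit 230555) (nat_lit 0) .nil) .nil))))) (.nd (nat_lit 8) (.nd (nat_lit 9) 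
(.lf (nat_lit 523428) (.g (nat_lit 3363) (.e (nat_lit 204862) (nat_lit 27) (.e (nat_lit 344133) (nat_lit 26) (.e (nat_lit 557105) (nat_lit 14) (.e (nat_lit 180252) (nat_lit 10) (.e (nat_lit 573475) (nat_lit 12) (.e (nat_lit 57507) (nat_lit 39) (.e (nat_lit 647176) (nat_lit 0) (.e (nat_lit 2681) (nat_lit 168) .nil)))))))) (.g (nat_lit 1) (.e (nat_lit 229502) (nat_lit 0) .nil) .nil))) 
(.lf (nat_lit 523940) (.g (nat_lit 2613) (.e (nat_lit 204864) (nat_lit 27) (.e (nat_lit 344133) (nat_lit 26) (.e (nat_lit 557103) (nat_lit 14) (.e (nat_lit 180250) (nat_lit 10) (.e (nat_lit 573475) (nat_lit 12) (.e (nat_lit 57508) (nat_lit 39) (.e (nat_lit 647170) (nat_lit 0) (.e (nat_lit 2685) (nat_lit 168) .nil)))))))) (.g (nat_lit 1) (.e (nat_lit 230126) (nat_lit 0) .nil) .nil)))) 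
(.nd (nat_lit 9) 
(.lf (nat_lit 523684) (.g (nat_lit 4183) (.e (nat_lit 204863) (nat_lit 27) (.e (nat_lit 344132) (nat_lit 26) (.e (nat_lit 557105) (nat_lit 14) (.e (nat_lit 180252) (nat_lit 10) (.e (nat_lit 573474) (nat_lit 12) (.e (nat_lit 57507) (nat_lit 39) (.e (nat_lit 647170) (nat_lit 0) (.e (nat_lit 2675) (nat_lit 168) .nil)))))))) (.g (nat_lit 1) (.e (nat_lit 229833) (nat_lit 0) .nil) .nil))) 
(.lf (nat_lit 524196) (.g (nat_lit 3938) (.e (nat_lit 204868) (nat_lit 29) (.e (nat_lit 360473) (nat_lit 8) (.e (nat_lit 557089) (nat_lit 12) (.e (nat_lit 163844) (nat_lit 0) (.e (nat_lit 6255) (nat_lit 337) (.e (nat_lit 2630) (nat_lit 164) (.e (nat_lit 172065) (nat_lit 3) .nil))))))) (.g (nat_lit 1) (.e (nat_lit 230788) (nat_lit 0) .nil) .nil)))))) 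
(.nd (nat_lit 7) (.nd (nat_lit 8) (.nd (nat_lit 9) 
(.lf (nat_lit 523364) (.g (nat_lit 2567) (.e (nat_lit 204862) (nat_lit 27) (.e (nat_lit 344133) (nat_lit 26) (.e (nat_lit 557103) (nat_lit 14) (.e (nat_lit 180250) (nat_lit 10) (.e (nat_lit 573473) (nat_lit 12) (.e (nat_lit 57508) (nat_lit 39) (.e (nat_lit 655104) (nat_lit 0) (.e (nat_lit 2685) (nat_lit 168) .nil)))))))) (.g (nat_lit 1) (.e (nat_lit 229438) (nat_lit 0) .nil) .nil))) 
(.lf (nat_lit 523876) (.g (nat_lit 1802) (.e (nat_lit 204864) (nat_lit 27) (.e (nat_lit 344130) (nat_lit 26) (.e (nat_lit 557104) (nat_lit 14) (.e (nat_lit 180252) (nat_lit 10) (.e (nat_lit 581376) (nat_lit 19) .nil))))) (.g (nat_lit 0) (.e (nat_lit 230062) (nat_lit 0) .nil) .nil)))) (.nd (nat_lit 9) 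
(.lf (nat_lit 523620) (.g (nat_lit 2339) (.e (nat_lit 204863) (nat_lit 27) (.e (nat_lit 344131) (nat_lit 26) (.e (nat_lit 557105) (nat_lit 14) (.e (nat_lit 180252) (nat_lit 10) (.e (nat_lit 573474) (nat_lit 12) (.e (nat_lit 57347) (nat_lit 0) (.e (nat_lit 5437) (nat_lit 306) (.e (nat_lit 2450) (nat_lit 157) (.e (nat_lit 2685) (nat_lit 168) .nil))))))))) (.g (nat_lit 1) (.e (nat_lit 229768) (nat_lit 0) .nil) .nil))) 
(.lf (nat_lit 524132) (.g (nat_lit 3865) (.e (nat_lit 204868) (nat_lit 29) (.e (nat_lit 360473) (nat_lit 8) (.e (nat_lit 557067) (nat_lit 9) (.e (nat_lit 214) (nat_lit 19) (.e (nat_lit 319492) (nat_lit 0) (.e (nat_lit 5626) (nat_lit 312) (.e (nat_lit 2685) (nat_lit 168) .nil))))))) (.g (nat_lit 1) (.e (nat_lit 230710) (nat_lit 0) .nil) .nil))))) (.nd (nat_lit 8) (.nd (nat_lit 9) 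
(.lf (nat_lit 523492) (.g (nat_lit 2114) (.e (nat_lit 204863) (nat_lit 27) (.e (nat_lit 344117) (nat_lit 21) (.e (nat_lit 516129) (nat_lit 3) (.e (nat_lit 221210) (nat_lit 22) (.e (nat_lit 204544) (nat_lit 19) .nil))))) (.g (nat_lit 0) (.e (nat_lit 229617) (nat_lit 0) .nil) .nil))) 
(.lf (nat_lit 524004) (.g (nat_lit 1179) (.e (nat_lit 204866) (nat_lit 28) (.e (nat_lit 352273) (nat_lit 11) (.e (nat_lit 426107) (nat_lit 1) (.e (nat_lit 164177) (nat_lit 154) .nil)))) (.g (nat_lit 0) (.e (nat_lit 230298) (nat_lit 0) .nil) .nil)))) (.nd (nat_lit 9) 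
(.lf (nat_lit 523748) (.g (nat_lit 3107) (.e (nat_lit 204863) (nat_lit 27) (.e (nat_lit 344133) (nat_lit 26) (.e (nat_lit 557103) (nat_lit 14) (.e (nat_lit 180250) (nat_lit 10) (.e (nat_lit 573473) (nat_lit 12) (.e (nat_lit 57507) (nat_lit 39) (.e (nat_lit 647170) (nat_lit 0) (.e (nat_lit 2685) (nat_lit 168) .nil)))))))) (.g (nat_lit 1) (.e (nat_lit 229899) (nat_lit 0) .nil) .nil))) 
(.lf (nat_lit 524260) (.g (nat_lit 3346) (.e (nat_lit 204868) (nat_lit 29) (.e (nat_lit 360473) (nat_lit 8) (.e (nat_lit 557091) (nat_lit 12) (.e (nat_lit 164022) (nat_lit 46) (.e (nat_lit 704629) (nat_lit 9) (.e (nat_lit 433) (nat_lit 32) (.e (nat_lit 426129) (nat_lit 3) .nil))))))) (.g (nat_lit 1) (.e (nat_lit 230872) (nat_lit 0) .nil) .nil)))))))) 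
(.nd (nat_lit 5) (.nd (nat_lit 6) (.nd (nat_lit 7) (.nd (nat_lit 8) (.nd (nat_lit 9) 
(.lf (nat_lit 523284) (.g (nat_lit 1547) (.e (nat_lit 204862) (nat_lit 27) (.e (nat_lit 344131) (nat_lit 26) (.e (nat_lit 557100) (nat_lit 13) (.e (nat_lit 172065) (nat_lit 3) .nil)))) (.g (nat_lit 0) (.e (nat_lit 229357) (nat_lit 0) .nil) .nil))) 
(.lf (nat_lit 523796) (.g (nat_lit 3099) (.e (nat_lit 204863) (nat_lit 27) (.e (nat_lit 344133) (nat_lit 26) (.e (nat_lit 557105) (nat_lit 14) (.e (nat_lit 180252) (nat_lit 10) (.e (nat_lit 573474) (nat_lit 12) (.e (nat_lit 57505) (nat_lit 39) (.e (nat_lit 647170) (nat_lit 0) (.e (nat_lit 2685) (nat_lit 168) .nil)))))))) (.g (nat_lit 1) (.e (nat_lit 229947) (nat_lit 0) .nil) .nil)))) 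
(.nd (nat_lit 9) 
(.lf (nat_lit 523540) (.g (nat_lit 3065) (.e (nat_lit 204863) (nat_lit 27) (.e (nat_lit 344129) (nat_lit 26) (.e (nat_lit 557103) (nat_lit 14) (.e (nat_lit 180250) (nat_lit 10) (.e (nat_lit 573473) (nat_lit 12) (.e (nat_lit 57507) (nat_lit 39) (.e (nat_lit 647176) (nat_lit 0) (.e (nat_lit 2681) (nat_lit 168) .nil)))))))) (.g (nat_lit 1) (.e (nat_lit 229688) (nat_lit 0) .nil) .nil))) 
(.lf (nat_lit 524052) (.g (nat_lit 2044) (.e (nat_lit 204868) (nat_lit 29) (.e (nat_lit 360466) (nat_lit 3) (.e (nat_lit 516138) (nat_lit 7) (.e (nat_lit 409617) (nat_lit 10) (.e (nat_lit 5612) (nat_lit 312) .nil))))) (.g (nat_lit 0) (.e (nat_lit 230539) (nat_lit 0) .nil) .nil))))) (.nd (nat_lit 8) (.nd (nat_lit 9) 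
(.lf (nat_lit 523412) (.g (nat_lit 3304) (.e (nat_lit 204862) (nat_lit 27) (.e (nat_lit 344133) (nat_lit 26) (.e (nat_lit 557105) (nat_lit 14) (.e (nat_lit 180252) (nat_lit 10) (.e (nat_lit 573474) (nat_lit 12) (.e (nat_lit 57507) (nat_lit 39) (.e (nat_lit 647176) (nat_lit 0) (.e (nat_lit 2684) (nat_lit 168) .nil)))))))) (.g (nat_lit 1) (.e (nat_lit 229486) (nat_lit 0) .nil) .nil))) 
(.lf (nat_lit 523924) (.g (nat_lit 1760) (.e (nat_lit 204864) (nat_lit 27) (.e (nat_lit 344133) (nat_lit 26) (.e (nat_lit 557098) (nat_lit 13) (.e (nat_lit 172065) (nat_lit 3) .nil)))) (.g (nat_lit 0) (.e (nat_lit 230110) (nat_lit 0) .nil) .nil)))) (.nd (nat_lit 9) 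
(.lf (nat_lit 523668) (.g (nat_lit 2460) (.e (nat_lit 204863) (nat_lit 27) (.e (nat_lit 344132) (nat_lit 26) (.e (nat_lit 557105) (nat_lit 14) (.e (nat_lit 180252) (nat_lit 10) (.e (nat_lit 573473) (nat_lit 12) (.e (nat_lit 57507) (nat_lit 39) (.e (nat_lit 647176) (nat_lit 0) (.e (nat_lit 2683) (nat_lit 168) .nil)))))))) (.g (nat_lit 1) (.e (nat_lit 229817) (nat_lit 0) .nil) .nil))) 
(.lf (nat_lit 524180) (.g (nat_lit 2414) (.e (nat_lit 204868) (nat_lit 29) (.e (nat_lit 360473) (nat_lit 8) (.e (nat_lit 557087) (nat_lit 11) (.e (nat_lit 24665) (nat_lit 14) (.e (nat_lit 409344) (nat_lit 3) .nil))))) (.g (nat_lit 1) (.e (nat_lit 230772) (nat_lit 0) .nil) .nil)))))) (.nd (nat_lit 7) (.nd (nat_lit 8) (.nd (nat_lit 9) 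
(.lf (nat_lit 523348) (.g (nat_lit 1942) (.e (nat_lit 204862) (nat_lit 27) (.e (nat_lit 344133) (nat_lit 26) (.e (nat_lit 557098) (nat_lit 13) (.e (nat_lit 172140) (nat_lit 22) (.e (nat_lit 139280) (nat_lit 4) .nil))))) (.g (nat_lit 0) (.e (nat_lit 229422) (nat_lit 0) .nil) .nil))) 
(.lf (nat_lit 523860) (.g (nat_lit 1497) (.e (nat_lit 204864) (nat_lit 27) (.e (nat_lit 344130) (nat_lit 26) (.e (nat_lit 557103) (nat_lit 14) (.e (nat_lit 180240) (nat_lit 2) .nil)))) (.g (nat_lit 0) (.e (nat_lit 230046) (nat_lit 0) .nil) .nil)))) (.nd (nat_lit 9) 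
(.lf (nat_lit 523604) (.g (nat_lit 1917) (.e (nat_lit 204863) (nat_lit 27) (.e (nat_lit 344131) (nat_lit 26) (.e (nat_lit 557103) (nat_lit 14) (.e (nat_lit 188160) (nat_lit 1) (.e (nat_lit 499900) (nat_lit 7) (.e (nat_lit 32512) (nat_lit 18) .nil)))))) (.g (nat_lit 1) (.e (nat_lit 229752) (nat_lit 0) .nil) .nil))) 
(.lf (nat_lit 524116) (.g (nat_lit 2255) (.e (nat_lit 204868) (nat_lit 29) (.e (nat_lit 360467) (nat_lit 3) (.e (nat_lit 516139) (nat_lit 7) (.e (nat_lit 409651) (nat_lit 19) .nil)))) (.g (nat_lit 0) (.e (nat_lit 230686) (nat_lit 0) .nil) .nil))))) (.nd (nat_lit 8) (.nd (nat_lit 9) 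
(.lf (nat_lit 523476) (.g (nat_lit 1538) (.e (nat_lit 204863) (nat_lit 27) (.e (nat_lit 344117) (nat_lit 21) (.e (nat_lit 516116) (nat_lit 1) (.e (nat_lit 164183) (nat_lit 154) .nil)))) (.g (nat_lit 0) (.e (nat_lit 229589) (nat_lit 0) .nil) .nil))) 
(.lf (nat_lit 523988) (.g (nat_lit 2881) (.e (nat_lit 204865) (nat_lit 28) (.e (nat_lit 352315) (nat_lit 23) (.e (nat_lit 98325) (nat_lit 17) (.e (nat_lit 6986) (nat_lit 377) (.e (nat_lit 2819) (nat_lit 181) (.e (nat_lit 311315) (nat_lit 3) .nil)))))) (.g (nat_lit 1) (.e (nat_lit 230241) (nat_lit 0) .nil) .nil)))) (.nd (nat_lit 9) 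
(.lf (nat_lit 523732) (.g (nat_lit 3159) (.e (nat_lit 204863) (nat_lit 27) (.e (nat_lit 344133) (nat_lit 26) (.e (nat_lit 557098) (nat_lit 13) (.e (nat_lit 172067) (nat_lit 3) (.e (nat_lit 204821) (nat_lit 17) (.e (nat_lit 2391) (nat_lit 156) (.e (nat_lit 819203) (nat_lit 0) (.e (nat_lit 2685) (nat_lit 168) .nil)))))))) (.g (nat_lit 1) (.e (nat_lit 229883) (nat_lit 0) .nil) .nil))) 
(.lf (nat_lit 524244) (.g (nat_lit 2332) (.e (nat_lit 204868) (nat_lit 29) (.e (nat_lit 360473) (nat_lit 8) (.e (nat_lit 557091) (nat_lit 12) (.e (nat_lit 163849) (nat_lit 0) (.e (nat_lit 6254) (nat_lit 337) (.e (nat_lit 2725) (nat_lit 172) (.e (nat_lit 237592) (nat_lit 3) .nil))))))) (.g (nat_lit 1) (.e (nat_lit 230842) (nat_lit 0) .nil) .nil))))))) 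
(.nd (nat_lit 6) (.nd (nat_lit 7) (.nd (nat_lit 8) (.nd (nat_lit 9) 
(.lf (nat_lit 523316) (.g (nat_lit 3199) (.e (nat_lit 204862) (nat_lit 27) (.e (nat_lit 344132) (nat_lit 26) (.e (nat_lit 557105) (nat_lit 14) (.e (nat_lit 180252) (nat_lit 10) (.e (nat_lit 573473) (nat_lit 12) (.e (nat_lit 57506) (nat_lit 39) (.e (nat_lit 655104) (nat_lit 0) (.e (nat_lit 2684) (nat_lit 168) .nil)))))))) (.g (nat_lit 1) (.e (nat_lit 229389) (nat_lit 0) .nil) .nil))) 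
(.lf (nat_lit 523828) (.g (nat_lit 4976) (.e (nat_lit 204863) (nat_lit 27) (.e (nat_lit 344133) (nat_lit 26) (.e (nat_lit 557105) (nat_lit 14) (.e (nat_lit 180252) (nat_lit 10) (.e (nat_lit 573475) (nat_lit 12) (.e (nat_lit 57507) (nat_lit 39) (.e (nat_lit 647176) (nat_lit 0) (.e (nat_lit 2681) (nat_lit 168) .nil)))))))) (.g (nat_lit 1) (.e (nat_lit 229979) (nat_lit 0) .nil) .nil)))) 
(.nd (nat_lit 9) 
(.lf (nat_lit 523572) (.g (nat_lit 1196) (.e (nat_lit 204863) (nat_lit 27) (.e (nat_lit 344130) (nat_lit 26) (.e (nat_lit 557097) (nat_lit 13) (.e (nat_lit 172071) (nat_lit 5) .nil)))) (.g (nat_lit 0) (.e (nat_lit 229720) (nat_lit 0) .nil) .nil))) 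
(.lf (nat_lit 524084) (.g (nat_lit 3369) (.e (nat_lit 204868) (nat_lit 29) (.e (nat_lit 360466) (nat_lit 3) (.e (nat_lit 516139) (nat_lit 7) (.e (nat_lit 409651) (nat_lit 19) (.e (nat_lit 311315) (nat_lit 3) .nil))))) (.g (nat_lit 1) (.e (nat_lit 230571) (nat_lit 0) .nil) .nil))))) (.nd (nat_lit 8) (.nd (nat_lit 9) 
(.lf (nat_lit 523444) (.g (nat_lit 420) (.e (nat_lit 204862) (nat_lit 27) (.e (nat_lit 344160) (nat_lit 37) (.e (nat_lit 647203) (nat_lit 14) .nil))) (.g (nat_lit 0) (.e (nat_lit 229528) (nat_lit 0) .nil) .nil))) 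
(.lf (nat_lit 523956) (.g (nat_lit 3570) (.e (nat_lit 204864) (nat_lit 27) (.e (nat_lit 344133) (nat_lit 26) (.e (nat_lit 557105) (nat_lit 14) (.e (nat_lit 180252) (nat_lit 10) (.e (nat_lit 573474) (nat_lit 12) (.e (nat_lit 57508) (nat_lit 39) (.e (nat_lit 647168) (nat_lit 0) (.e (nat_lit 2685) (nat_lit 168) .nil)))))))) (.g (nat_lit 1) (.e (nat_lit 230142) (nat_lit 0) .nil) .nil)))) 
(.nd (nat_lit 9) 
(.lf (nat_lit 523700) (.g (nat_lit 3482) (.e (nat_lit 204863) (nat_lit 27) (.e (nat_lit 344132) (nat_lit 26) (.e (nat_lit 557105) (nat_lit 14) (.e (nat_lit 180252) (nat_lit 10) (.e (nat_lit 573475) (nat_lit 12) (.e (nat_lit 57506) (nat_lit 39) (.e (nat_lit 647175) (nat_lit 0) (.e (nat_lit 2684) (nat_lit 168) .nil)))))))) (.g (nat_lit 1) (.e (nat_lit 229849) (nat_lit 0) .nil) .nil))) 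
(.lf (nat_lit 524212) (.g (nat_lit 2839) (.e (nat_lit 204868) (nat_lit 29) (.e (nat_lit 360473) (nat_lit 8) (.e (nat_lit 557090) (nat_lit 12) (.e (nat_lit 164020) (nat_lit 45) (.e (nat_lit 696343) (nat_lit 8) (.e (nat_lit 172065) (nat_lit 3) .nil)))))) (.g (nat_lit 1) (.e (nat_lit 230806) (nat_lit 0) .nil) .nil)))))) (.nd (nat_lit 7) (.nd (nat_lit 8) (.nd (nat_lit 9) 
(.lf (nat_lit 523380) (.g (nat_lit 3471) (.e (nat_lit 204862) (nat_lit 27) (.e (nat_lit 344133) (nat_lit 26) (.e (nat_lit 557103) (nat_lit 14) (.e (nat_lit 180250) (nat_lit 10) (.e (nat_lit 573475) (nat_lit 12) (.e (nat_lit 57508) (nat_lit 39) (.e (nat_lit 655104) (nat_lit 0) (.e (nat_lit 2684) (nat_lit 168) .nil)))))))) (.g (nat_lit 1) (.e (nat_lit 229454) (nat_lit 0) .nil) .nil))) 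
(.lf (nat_lit 523892) (.g (nat_lit 2828) (.e (nat_lit 204864) (nat_lit 27) (.e (nat_lit 344132) (nat_lit 26) (.e (nat_lit 557101) (nat_lit 13) (.e (nat_lit 172067) (nat_lit 3) (.e (nat_lit 204821) (nat_lit 17) (.e (nat_lit 2391) (nat_lit 156) (.e (nat_lit 819204) (nat_lit 0) (.e (nat_lit 2685) (nat_lit 168) .nil)))))))) (.g (nat_lit 1) (.e (nat_lit 230078) (nat_lit 0) .nil) .nil)))) 
(.nd (nat_lit 9) 
(.lf (nat_lit 523636) (.g (nat_lit 3624) (.e (nat_lit 204863) (nat_lit 27) (.e (nat_lit 344131) (nat_lit 26) (.e (nat_lit 557105) (nat_lit 14) (.e (nat_lit 180252) (nat_lit 10) (.e (nat_lit 573475) (nat_lit 12) (.e (nat_lit 57508) (nat_lit 39) (.e (nat_lit 647175) (nat_lit 0) (.e (nat_lit 2684) (nat_lit 168) .nil)))))))) (.g (nat_lit 1) (.e (nat_lit 229784) (nat_lit 0) .nil) .nil))) 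
(.lf (nat_lit 524148) (.g (nat_lit 1995) (.e (nat_lit 204868) (nat_lit 29) (.e (nat_lit 360473) (nat_lit 8) (.e (nat_lit 557085) (nat_lit 11) (.e (nat_lit 24665) (nat_lit 14) (.e (nat_lit 409344) (nat_lit 3) .nil))))) (.g (nat_lit 1) (.e (nat_lit 230734) (nat_lit 0) .nil) .nil))))) (.nd (nat_lit 8) (.nd (nat_lit 9) 
(.lf (nat_lit 523508) (.g (nat_lit 3119) (.e (nat_lit 204863) (nat_lit 27) (.e (nat_lit 344118) (nat_lit 21) (.e (nat_lit 516115) (nat_lit 1) (.e (nat_lit 164179) (nat_lit 154) (.e (nat_lit 57373) (nat_lit 2) (.e (nat_lit 90128) (nat_lit 9) (.e (nat_lit 2706) (nat_lit 170) (.e (nat_lit 221214) (nat_lit 23) .nil)))))))) (.g (nat_lit 1) (.e (nat_lit 229641) (nat_lit 0) .nil) .nil))) 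
(.lf (nat_lit 524020) (.g (nat_lit 781) (.e (nat_lit 204866) (nat_lit 28) (.e (nat_lit 352314) (nat_lit 23) (.e (nat_lit 98349) (nat_lit 24) (.e (nat_lit 417536) (nat_lit 18) .nil)))) (.g (nat_lit 0) (.e (nat_lit 230383) (nat_lit 0) .nil) .nil)))) (.nd (nat_lit 9) 
(.lf (nat_lit 523764) (.g (nat_lit 2617) (.e (nat_lit 204863) (nat_lit 27) (.e (nat_lit 344133) (nat_lit 26) (.e (nat_lit 557103) (nat_lit 14) (.e (nat_lit 180250) (nat_lit 10) (.e (nat_lit 573478) (nat_lit 12) (.e (nat_lit 57511) (nat_lit 39) (.e (nat_lit 655104) (nat_lit 0) (.e (nat_lit 2684) (nat_lit 168) .nil)))))))) (.g (nat_lit 1) (.e (nat_lit 229915) (nat_lit 0) .nil) .nil))) 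
(.lf (nat_lit 524276) (.g (nat_lit 375) (.e (nat_lit 204868) (nat_lit 29) (.e (nat_lit 360474) (nat_lit 8) (.e (nat_lit 557072) (nat_lit 9) .nil))) (.g (nat_lit 0) (.e (nat_lit 230920) (nat_lit 0) .nil) .nil))))))))) (.nd (nat_lit 4) (.nd (nat_lit 5) (.nd (nat_lit 6) (.nd (nat_lit 7) (.nd (nat_lit 8) (.nd (nat_lit 9) 
(.lf (nat_lit 523276) (.g (nat_lit 3560) (.e (nat_lit 204862) (nat_lit 27) (.e (nat_lit 344130) (nat_lit 26) (.e (nat_lit 557104) (nat_lit 14) (.e (nat_lit 180252) (nat_lit 10) (.e (nat_lit 573474) (nat_lit 12) (.e (nat_lit 57509) (nat_lit 39) (.e (nat_lit 655104) (nat_lit 0) (.e (nat_lit 2684) (nat_lit 168) .nil)))))))) (.g (nat_lit 1) (.e (nat_lit 229349) (nat_lit 0) .nil) .nil))) 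
(.lf (nat_lit 523788) (.g (nat_lit 4064) (.e (nat_lit 204863) (nat_lit 27) (.e (nat_lit 344133) (nat_lit 26) (.e (nat_lit 557105) (nat_lit 14) (.e (nat_lit 180252) (nat_lit 10) (.e (nat_lit 573473) (nat_lit 12) (.e (nat_lit 57511) (nat_lit 39) (.e (nat_lit 655104) (nat_lit 0) (.e (nat_lit 2684) (nat_lit 168) .nil)))))))) (.g (nat_lit 1) (.e (nat_lit 229939) (nat_lit 0) .nil) .nil)))) 
(.nd (nat_lit 9) 
(.lf (nat_lit 523532) (.g (nat_lit 1725) (.e (nat_lit 204863) (nat_lit 27) (.e (nat_lit 344129) (nat_lit 26) (.e (nat_lit 557103) (nat_lit 14) (.e (nat_lit 180240) (nat_lit 2) .nil)))) (.g (nat_lit 0) (.e (nat_lit 229680) (nat_lit 0) .nil) .nil))) 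
(.lf (nat_lit 524044) (.g (nat_lit 679) (.e (nat_lit 204868) (nat_lit 29) (.e (nat_lit 360451) (nat_lit 0) (.e (nat_lit 4011) (nat_lit 243) .nil))) (.g (nat_lit 0) (.e (nat_lit 230494) (nat_lit 0) .nil) .nil))))) (.nd (nat_lit 8) (.nd (nat_lit 9) 
(.lf (nat_lit 523404) (.g (nat_lit 3459) (.e (nat_lit 204862) (nat_lit 27) (.e (nat_lit 344133) (nat_lit 26) (.e (nat_lit 557105) (nat_lit 14) (.e (nat_lit 180252) (nat_lit 10) (.e (nat_lit 573474) (nat_lit 12) (.e (nat_lit 57347) (nat_lit 0) (.e (nat_lit 5438) (nat_lit 306) (.e (nat_lit 2433) (nat_lit 157) (.e (nat_lit 2685) (nat_lit 168) .nil))))))))) (.g (nat_lit 1) (.e (nat_lit 229478) (nat_lit 0) .nil) .nil))) 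
(.lf (nat_lit 523916) (.g (nat_lit 3046) (.e (nat_lit 204864) (nat_lit 27) (.e (nat_lit 344132) (nat_lit 26) (.e (nat_lit 557105) (nat_lit 14) (.e (nat_lit 180252) (nat_lit 10) (.e (nat_lit 573475) (nat_lit 12) (.e (nat_lit 57507) (nat_lit 39) (.e (nat_lit 655104) (nat_lit 0) (.e (nat_lit 2685) (nat_lit 168) .nil)))))))) (.g (nat_lit 1) (.e (nat_lit 230102) (nat_lit 0) .nil) .nil)))) 
(.nd (nat_lit 9) 
(.lf (nat_lit 523660) (.g (nat_lit 1324) (.e (nat_lit 204863) (nat_lit 27) (.e (nat_lit 344132) (nat_lit 26) (.e (nat_lit 557103) (nat_lit 14) (.e (nat_lit 188160) (nat_lit 1) .nil)))) (.g (nat_lit 0) (.e (nat_lit 229809) (nat_lit 0) .nil) .nil))) 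
(.lf (nat_lit 524172) (.g (nat_lit 2480) (.e (nat_lit 204868) (nat_lit 29) (.e (nat_lit 360473) (nat_lit 8) (.e (nat_lit 557087) (nat_lit 11) (.e (nat_lit 24589) (nat_lit 0) (.e (nat_lit 7936) (nat_lit 357) .nil))))) (.g (nat_lit 0) (.e (nat_lit 230763) (nat_lit 0) .nil) .nil)))))) (.nd (nat_lit 7) (.nd (nat_lit 8) (.nd (nat_lit 9) 
(.lf (nat_lit 523340) (.g (nat_lit 1686) (.e (nat_lit 204862) (nat_lit 27) (.e (nat_lit 344133) (nat_lit 26) (.e (nat_lit 557098) (nat_lit 13) (.e (nat_lit 172071) (nat_lit 5) .nil)))) (.g (nat_lit 0) (.e (nat_lit 229414) (nat_lit 0) .nil) .nil))) 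
(.lf (nat_lit 523852) (.g (nat_lit 1371) (.e (nat_lit 204863) (nat_lit 27) (.e (nat_lit 344160) (nat_lit 37) (.e (nat_lit 647195) (nat_lit 9) (.e (nat_lit 1234) (nat_lit 91) .nil)))) (.g (nat_lit 0) (.e (nat_lit 230026) (nat_lit 0) .nil) .nil)))) (.nd (nat_lit 9) 
(.lf (nat_lit 523596) (.g (nat_lit 2795) (.e (nat_lit 204863) (nat_lit 27) (.e (nat_lit 344130) (nat_lit 26) (.e (nat_lit 557104) (nat_lit 14) (.e (nat_lit 180252) (nat_lit 10) (.e (nat_lit 573475) (nat_lit 12) (.e (nat_lit 57507) (nat_lit 39) (.e (nat_lit 647176) (nat_lit 0) (.e (nat_lit 2681) (nat_lit 168) .nil)))))))) (.g (nat_lit 1) (.e (nat_lit 229744) (nat_lit 0) .nil) .nil))) 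
(.lf (nat_lit 524108) (.g (nat_lit 3017) (.e (nat_lit 204868) (nat_lit 29) (.e (nat_lit 360467) (nat_lit 3) (.e (nat_lit 516139) (nat_lit 7) (.e (nat_lit 409616) (nat_lit 10) (.e (nat_lit 5627) (nat_lit 312) (.e (nat_lit 2685) (nat_lit 168) .nil)))))) (.g (nat_lit 1) (.e (nat_lit 230678) (nat_lit 0) .nil) .nil))))) (.nd (nat_lit 8) (.nd (nat_lit 9) 
(.lf (nat_lit 523468) (.g (nat_lit 2152) (.e (nat_lit 204863) (nat_lit 27) (.e (nat_lit 344117) (nat_lit 21) (.e (nat_lit 516116) (nat_lit 1) (.e (nat_lit 164159) (nat_lit 152) (.e (nat_lit 1027) (nat_lit 81) .nil))))) (.g (nat_lit 0) (.e (nat_lit 229578) (nat_lit 0) .nil) .nil))) 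
(.lf (nat_lit 523980) (.g (nat_lit 1651) (.e (nat_lit 204865) (nat_lit 28) (.e (nat_lit 352277) (nat_lit 11) (.e (nat_lit 426500) (nat_lit 27) (.e (nat_lit 335995) (nat_lit 1) (.e (nat_lit 57930) (nat_lit 282) (.e (nat_lit 163874) (nat_lit 3) .nil)))))) (.g (nat_lit 1) (.e (nat_lit 230218) (nat_lit 0) .nil) .nil)))) (.nd (nat_lit 9) 
(.lf (nat_lit 523724) (.g (nat_lit 1687) (.e (nat_lit 204863) (nat_lit 27) (.e (nat_lit 344133) (nat_lit 26) (.e (nat_lit 557098) (nat_lit 13) (.e (nat_lit 172041) (nat_lit 0) .nil)))) (.g (nat_lit 0) (.e (nat_lit 229875) (nat_lit 0) .nil) .nil))) 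
(.lf (nat_lit 524236) (.g (nat_lit 2754) (.e (nat_lit 204868) (nat_lit 29) (.e (nat_lit 360473) (nat_lit 8) (.e (nat_lit 557091) (nat_lit 12) (.e (nat_lit 163844) (nat_lit 0) (.e (nat_lit 6254) (nat_lit 337) (.e (nat_lit 2725) (nat_lit 172) (.e (nat_lit 237592) (nat_lit 3) .nil))))))) (.g (nat_lit 1) (.e (nat_lit 230833) (nat_lit 0) .nil) .nil))))))) 
(.nd (nat_lit 6) (.nd (nat_lit 7) (.nd (nat_lit 8) (.nd (nat_lit 9) 
(.lf (nat_lit 523308) (.g (nat_lit 578) (.e (nat_lit 204862) (nat_lit 27) (.e (nat_lit 344132) (nat_lit 26) (.e (nat_lit 557103) (nat_lit 14) .nil))) (.g (nat_lit 0) (.e (nat_lit 229381) (nat_lit 0) .nil) .nil))) 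
(.lf (nat_lit 523820) (.g (nat_lit 3588) (.e (nat_lit 204863) (nat_lit 27) (.e (nat_lit 344133) (nat_lit 26) (.e (nat_lit 557105) (nat_lit 14) (.e (nat_lit 180252) (nat_lit 10) (.e (nat_lit 573474) (nat_lit 12) (.e (nat_lit 57513) (nat_lit 40) (.e (nat_lit 655362) (nat_lit 0) (.e (nat_lit 2685) (nat_lit 168) .nil)))))))) (.g (nat_lit 1) (.e (nat_lit 229971) (nat_lit 0) .nil) .nil)))) 
(.nd (nat_lit 9) 
(.lf (nat_lit 523564) (.g (nat_lit 3803) (.e (nat_lit 204863) (nat_lit 27) (.e (nat_lit 344129) (nat_lit 26) (.e (nat_lit 557104) (nat_lit 14) (.e (nat_lit 180252) (nat_lit 10) (.e (nat_lit 573474) (nat_lit 12) (.e (nat_lit 57508) (nat_lit 39) (.e (nat_lit 647175) (nat_lit 0) (.e (nat_lit 2684) (nat_lit 168) .nil)))))))) (.g (nat_lit 1) (.e (nat_lit 229712) (nat_lit 0) .nil) .nil))) 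
(.lf (nat_lit 524076) (.g (nat_lit 3364) (.e (nat_lit 204868) (nat_lit 29) (.e (nat_lit 360466) (nat_lit 3) (.e (nat_lit 516139) (nat_lit 7) (.e (nat_lit 409618) (nat_lit 10) (.e (nat_lit 5667) (nat_lit 312) (.e (nat_lit 2679) (nat_lit 168) .nil)))))) (.g (nat_lit 1) (.e (nat_lit 230563) (nat_lit 0) .nil) .nil))))) (.nd (nat_lit 8) (.nd (nat_lit 9) 
(.lf (nat_lit 523436) (.g (nat_lit 1836) (.e (nat_lit 204862) (nat_lit 27) (.e (nat_lit 344169) (nat_lit 40) (.e (nat_lit 671748) (nat_lit 0) (.e (nat_lit 1032) (nat_lit 81) (.e (nat_lit 1858) (nat_lit 124) .nil))))) (.g (nat_lit 0) (.e (nat_lit 229510) (nat_lit 0) .nil) .nil))) 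
(.lf (nat_lit 523948) (.g (nat_lit 3081) (.e (nat_lit 204864) (nat_lit 27) (.e (nat_lit 344133) (nat_lit 26) (.e (nat_lit 557105) (nat_lit 14) (.e (nat_lit 180252) (nat_lit 10) (.e (nat_lit 573458) (nat_lit 9) .nil))))) (.g (nat_lit 0) (.e (nat_lit 230134) (nat_lit 0) .nil) .nil)))) (.nd (nat_lit 9) 
(.lf (nat_lit 523692) (.g (nat_lit 3454) (.e (nat_lit 204863) (nat_lit 27) (.e (nat_lit 344132) (nat_lit 26) (.e (nat_lit 557105) (nat_lit 14) (.e (nat_lit 180252) (nat_lit 10) (.e (nat_lit 573474) (nat_lit 12) (.e (nat_lit 57508) (nat_lit 39) (.e (nat_lit 647177) (nat_lit 0) (.e (nat_lit 2682) (nat_lit 168) .nil)))))))) (.g (nat_lit 1) (.e (nat_lit 229841) (nat_lit 0) .nil) .nil))) 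
(.lf (nat_lit 524204) (.g (nat_lit 1728) (.e (nat_lit 204868) (nat_lit 29) (.e (nat_lit 360473) (nat_lit 8) (.e (nat_lit 557089) (nat_lit 12) (.e (nat_lit 164017) (nat_lit 44) (.e (nat_lit 688138) (nat_lit 5) .nil))))) (.g (nat_lit 0) (.e (nat_lit 230798) (nat_lit 0) .nil) .nil)))))) (.nd (nat_lit 7) (.nd (nat_lit 8) (.nd (nat_lit 9) 
(.lf (nat_lit 523372) (.g (nat_lit 3241) (.e (nat_lit 204862) (nat_lit 27) (.e (nat_lit 344133) (nat_lit 26) (.e (nat_lit 557103) (nat_lit 14) (.e (nat_lit 180250) (nat_lit 10) (.e (nat_lit 573474) (nat_lit 12) (.e (nat_lit 57508) (nat_lit 39) (.e (nat_lit 655104) (nat_lit 0) (.e (nat_lit 2684) (nat_lit 168) .nil)))))))) (.g (nat_lit 1) (.e (nat_lit 229446) (nat_lit 0) .nil) .nil))) 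
(.lf (nat_lit 523884) (.g (nat_lit 2855) (.e (nat_lit 204864) (nat_lit 27) (.e (nat_lit 344132) (nat_lit 26) (.e (nat_lit 557100) (nat_lit 13) (.e (nat_lit 172065) (nat_lit 3) (.e (nat_lit 204821) (nat_lit 17) (.e (nat_lit 2391) (nat_lit 156) (.e (nat_lit 819204) (nat_lit 0) (.e (nat_lit 2680) (nat_lit 168) .nil)))))))) (.g (nat_lit 1) (.e (nat_lit 230070) (nat_lit 0) .nil) .nil)))) 
(.nd (nat_lit 9) 
(.lf (nat_lit 523628) (.g (nat_lit 3848) (.e (nat_lit 204863) (nat_lit 27) (.e (nat_lit 344131) (nat_lit 26) (.e (nat_lit 557105) (nat_lit 14) (.e (nat_lit 180252) (nat_lit 10) (.e (nat_lit 573474) (nat_lit 12) (.e (nat_lit 57507) (nat_lit 39) (.e (nat_lit 647170) (nat_lit 0) (.e (nat_lit 2685) (nat_lit 168) .nil)))))))) (.g (nat_lit 1) (.e (nat_lit 229776) (nat_lit 0) .nil) .nil))) 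
(.lf (nat_lit 524140) (.g (nat_lit 397) (.e (nat_lit 204868) (nat_lit 29) (.e (nat_lit 360473) (nat_lit 8) (.e (nat_lit 557070) (nat_lit 9) .nil))) (.g (nat_lit 0) (.e (nat_lit 230721) (nat_lit 0) .nil) .nil))))) (.nd (nat_lit 8) (.nd (nat_lit 9) 
(.lf (nat_lit 523500) (.g (nat_lit 2531) (.e (nat_lit 204863) (nat_lit 27) (.e (nat_lit 344117) (nat_lit 21) (.e (nat_lit 516130) (nat_lit 3) (.e (nat_lit 221215) (nat_lit 23) (.e (nat_lit 204828) (nat_lit 18) (.e (nat_lit 57928) (nat_lit 282) (.e (nat_lit 163875) (nat_lit 3) .nil))))))) (.g (nat_lit 1) (.e (nat_lit 229625) (nat_lit 0) .nil) .nil))) 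
(.lf (nat_lit 524012) (.g (nat_lit 1854) (.e (nat_lit 204866) (nat_lit 28) (.e (nat_lit 352277) (nat_lit 11) (.e (nat_lit 426500) (nat_lit 27) (.e (nat_lit 335995) (nat_lit 1) (.e (nat_lit 57930) (nat_lit 282) (.e (nat_lit 163874) (nat_lit 3) .nil)))))) (.g (nat_lit 1) (.e (nat_lit 230334) (nat_lit 0) .nil) .nil)))) (.nd (nat_lit 9) 
(.lf (nat_lit 523756) (.g (nat_lit 4263) (.e (nat_lit 204863) (nat_lit 27) (.e (nat_lit 344133) (nat_lit 26) (.e (nat_lit 557103) (nat_lit 14) (.e (nat_lit 180250) (nat_lit 10) (.e (nat_lit 573474) (nat_lit 12) (.e (nat_lit 57507) (nat_lit 39) (.e (nat_lit 655104) (nat_lit 0) (.e (nat_lit 2684) (nat_lit 168) .nil)))))))) (.g (nat_lit 1) (.e (nat_lit 229907) (nat_lit 0) .nil) .nil))) 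
(.lf (nat_lit 524268) (.g (nat_lit 2314) (.e (nat_lit 204868) (nat_lit 29) (.e (nat_lit 360473) (nat_lit 8) (.e (nat_lit 557093) (nat_lit 12) (.e (nat_lit 164023) (nat_lit 46) (.e (nat_lit 704627) (nat_lit 9) (.e (nat_lit 375) (nat_lit 32) (.e (nat_lit 426140) (nat_lit 3) .nil))))))) (.g (nat_lit 1) (.e (nat_lit 230898) (nat_lit 0) .nil) .nil)))))))) 
(.nd (nat_lit 5) (.nd (nat_lit 6) (.nd (nat_lit 7) (.nd (nat_lit 8) (.nd (nat_lit 9) 
(.lf (nat_lit 523292) (.g (nat_lit 1560) (.e (nat_lit 204862) (nat_lit 27) (.e (nat_lit 344132) (nat_lit 26) (.e (nat_lit 557100) (nat_lit 13) (.e (nat_lit 172065) (nat_lit 3) .nil)))) (.g (nat_lit 0) (.e (nat_lit 229365) (nat_lit 0) .nil) .nil))) 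
(.lf (nat_lit 523804) (.g (nat_lit 4331) (.e (nat_lit 204863) (nat_lit 27) (.e (nat_lit 344133) (nat_lit 26) (.e (nat_lit 557105) (nat_lit 14) (.e (nat_lit 180252) (nat_lit 10) (.e (nat_lit 573474) (nat_lit 12) (.e (nat_lit 57507) (nat_lit 39) (.e (nat_lit 647170) (nat_lit 0) (.e (nat_lit 2675) (nat_lit 168) .nil)))))))) (.g (nat_lit 1) (.e (nat_lit 229955) (nat_lit 0) .nil) .nil)))) 
(.nd (nat_lit 9) 
(.lf (nat_lit 523548) (.g (nat_lit 3032) (.e (nat_lit 204863) (nat_lit 27) (.e (nat_lit 344129) (nat_lit 26) (.e (nat_lit 557103) (nat_lit 14) (.e (nat_lit 180250) (nat_lit 10) (.e (nat_lit 573477) (nat_lit 12) (.e (nat_lit 57511) (nat_lit 39) (.e (nat_lit 655104) (nat_lit 0) (.e (nat_lit 2684) (nat_lit 168) .nil)))))))) (.g (nat_lit 1) (.e (nat_lit 229696) (nat_lit 0) .nil) .nil))) 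
(.lf (nat_lit 524060) (.g (nat_lit 4371) (.e (nat_lit 204868) (nat_lit 29) (.e (nat_lit 360466) (nat_lit 3) (.e (nat_lit 516138) (nat_lit 7) (.e (nat_lit 409644) (nat_lit 18) (.e (nat_lit 303119) (nat_lit 3) .nil))))) (.g (nat_lit 1) (.e (nat_lit 230547) (nat_lit 0) .nil) .nil))))) (.nd (nat_lit 8) (.nd (nat_lit 9) 
(.lf (nat_lit 523420) (.g (nat_lit 3377) (.e (nat_lit 204862) (nat_lit 27) (.e (nat_lit 344133) (nat_lit 26) (.e (nat_lit 557105) (nat_lit 14) (.e (nat_lit 180252) (nat_lit 10) (.e (nat_lit 573474) (nat_lit 12) (.e (nat_lit 57511) (nat_lit 39) (.e (nat_lit 647168) (nat_lit 0) (.e (nat_lit 2685) (nat_lit 168) .nil)))))))) (.g (nat_lit 1) (.e (nat_lit 229494) (nat_lit 0) .nil) .nil))) 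
(.lf (nat_lit 523932) (.g (nat_lit 2527) (.e (nat_lit 204864) (nat_lit 27) (.e (nat_lit 344133) (nat_lit 26) (.e (nat_lit 557098) (nat_lit 13) (.e (nat_lit 179968) (nat_lit 15) (.e (nat_lit 1800) (nat_lit 119) (.e (nat_lit 516119) (nat_lit 1) (.e (nat_lit 164345) (nat_lit 240) (.e (nat_lit 2426) (nat_lit 157) (.e (nat_lit 2678) (nat_lit 168) .nil))))))))) (.g (nat_lit 1) (.e (nat_lit 230118) (nat_lit 0) .nil) .nil)))) 
(.nd (nat_lit 9) 
(.lf (nat_lit 523676) (.g (nat_lit 2896) (.e (nat_lit 204863) (nat_lit 27) (.e (nat_lit 344132) (nat_lit 26) (.e (nat_lit 557105) (nat_lit 14) (.e (nat_lit 180252) (nat_lit 10) (.e (nat_lit 573474) (nat_lit 12) (.e (nat_lit 57347) (nat_lit 0) (.e (nat_lit 5444) (nat_lit 306) (.e (nat_lit 2433) (nat_lit 157) (.e (nat_lit 2685) (nat_lit 168) .nil))))))))) (.g (nat_lit 1) (.e (nat_lit 229825) (nat_lit 0) .nil) .nil))) 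
(.lf (nat_lit 524188) (.g (nat_lit 2376) (.e (nat_lit 204868) (nat_lit 29) (.e (nat_lit 360473) (nat_lit 8) (.e (nat_lit 557089) (nat_lit 12) (.e (nat_lit 163843) (nat_lit 0) (.e (nat_lit 6416) (nat_lit 341) (.e (nat_lit 163908) (nat_lit 12) (.e (nat_lit 426132) (nat_lit 3) .nil))))))) (.g (nat_lit 1) (.e (nat_lit 230780) (nat_lit 0) .nil) .nil)))))) 
(.nd (nat_lit 7) (.nd (nat_lit 8) (.nd (nat_lit 9) 
(.lf (nat_lit 523356) (.g (nat_lit 3861) (.e (nat_lit 204862) (nat_lit 27) (.e (nat_lit 344133) (nat_lit 26) (.e (nat_lit 557103) (nat_lit 14) (.e (nat_lit 180244) (nat_lit 5) (.e (nat_lit 532499) (nat_lit 1) (.e (nat_lit 65280) (nat_lit 168) (.e (nat_lit 163875) (nat_lit 3) .nil))))))) (.g (nat_lit 1) (.e (nat_lit 229430) (nat_lit 0) .nil) .nil))) 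
(.lf (nat_lit 523868) (.g (nat_lit 1660) (.e (nat_lit 204864) (nat_lit 27) (.e (nat_lit 344130) (nat_lit 26) (.e (nat_lit 557104) (nat_lit 14) (.e (nat_lit 180240) (nat_lit 2) (.e (nat_lit 507918) (nat_lit 3) .nil))))) (.g (nat_lit 0) (.e (nat_lit 230054) (nat_lit 0) .nil) .nil)))) (.nd (nat_lit 9) 
(.lf (nat_lit 523612) (.g (nat_lit 2592) (.e (nat_lit 204863) (nat_lit 27) (.e (nat_lit 344131) (nat_lit 26) (.e (nat_lit 557103) (nat_lit 14) (.e (nat_lit 180250) (nat_lit 10) (.e (nat_lit 573475) (nat_lit 12) (.e (nat_lit 57508) (nat_lit 39) (.e (nat_lit 647175) (nat_lit 0) (.e (nat_lit 2684) (nat_lit 168) .nil)))))))) (.g (nat_lit 1) (.e (nat_lit 229760) (nat_lit 0) .nil) .nil))) 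
(.lf (nat_lit 524124) (.g (nat_lit 3657) (.e (nat_lit 204868) (nat_lit 29) (.e (nat_lit 360472) (nat_lit 8) (.e (nat_lit 557090) (nat_lit 12) (.e (nat_lit 164020) (nat_lit 45) (.e (nat_lit 696327) (nat_lit 5) (.e (nat_lit 2884) (nat_lit 184) (.e (nat_lit 426140) (nat_lit 3) .nil))))))) (.g (nat_lit 1) (.e (nat_lit 230697) (nat_lit 0) .nil) .nil))))) (.nd (nat_lit 8) (.nd (nat_lit 9) 
(.lf (nat_lit 523484) (.g (nat_lit 2587) (.e (nat_lit 204863) (nat_lit 27) (.e (nat_lit 344117) (nat_lit 21) (.e (nat_lit 516123) (nat_lit 2) (.e (nat_lit 213013) (nat_lit 9) (.e (nat_lit 2663) (nat_lit 167) (.e (nat_lit 196698) (nat_lit 19) (.e (nat_lit 57883) (nat_lit 270) (.e (nat_lit 174) (nat_lit 12) .nil)))))))) (.g (nat_lit 1) (.e (nat_lit 229609) (nat_lit 0) .nil) .nil))) 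
(.lf (nat_lit 523996) (.g (nat_lit 513) (.e (nat_lit 204865) (nat_lit 28) (.e (nat_lit 352315) (nat_lit 23) (.e (nat_lit 98352) (nat_lit 25) .nil))) (.g (nat_lit 0) (.e (nat_lit 230252) (nat_lit 0) .nil) .nil)))) (.nd (nat_lit 9) 
(.lf (nat_lit 523740) (.g (nat_lit 1740) (.e (nat_lit 204863) (nat_lit 27) (.e (nat_lit 344133) (nat_lit 26) (.e (nat_lit 557098) (nat_lit 13) (.e (nat_lit 172140) (nat_lit 22) (.e (nat_lit 139265) (nat_lit 0) .nil))))) (.g (nat_lit 0) (.e (nat_lit 229891) (nat_lit 0) .nil) .nil))) 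
(.lf (nat_lit 524252) (.g (nat_lit 3308) (.e (nat_lit 204868) (nat_lit 29) (.e (nat_lit 360473) (nat_lit 8) (.e (nat_lit 557091) (nat_lit 12) (.e (nat_lit 164017) (nat_lit 44) (.e (nat_lit 688138) (nat_lit 5) (.e (nat_lit 2887) (nat_lit 184) (.e (nat_lit 426135) (nat_lit 3) .nil))))))) (.g (nat_lit 1) (.e (nat_lit 230852) (nat_lit 0) .nil) .nil))))))) 
(.nd (nat_lit 6) (.nd (nat_lit 7) (.nd (nat_lit 8) (.nd (nat_lit 9) 
(.lf (nat_lit 523324) (.g (nat_lit 3480) (.e (nat_lit 204862) (nat_lit 27) (.e (nat_lit 344132) (nat_lit 26) (.e (nat_lit 557105) (nat_lit 14) (.e (nat_lit 180252) (nat_lit 10) (.e (nat_lit 573474) (nat_lit 12) (.e (nat_lit 57508) (nat_lit 39) (.e (nat_lit 647170) (nat_lit 0) (.e (nat_lit 2685) (nat_lit 168) .nil)))))))) (.g (nat_lit 1) (.e (nat_lit 229397) (nat_lit 0) .nil) .nil))) 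
(.lf (nat_lit 523836) (.g (nat_lit 3127) (.e (nat_lit 204863) (nat_lit 27) (.e (nat_lit 344133) (nat_lit 26) (.e (nat_lit 557105) (nat_lit 14) (.e (nat_lit 180252) (nat_lit 10) (.e (nat_lit 573475) (nat_lit 12) (.e (nat_lit 57508) (nat_lit 39) (.e (nat_lit 655104) (nat_lit 0) (.e (nat_lit 2685) (nat_lit 168) .nil)))))))) (.g (nat_lit 1) (.e (nat_lit 229987) (nat_lit 0) .nil) .nil)))) 
(.nd (nat_lit 9) 
(.lf (nat_lit 523580) (.g (nat_lit 2616) (.e (nat_lit 204863) (nat_lit 27) (.e (nat_lit 344130) (nat_lit 26) (.e (nat_lit 557103) (nat_lit 14) (.e (nat_lit 180250) (nat_lit 10) (.e (nat_lit 573475) (nat_lit 12) (.e (nat_lit 57506) (nat_lit 39) (.e (nat_lit 647175) (nat_lit 0) (.e (nat_lit 2684) (nat_lit 168) .nil)))))))) (.g (nat_lit 1) (.e (nat_lit 229728) (nat_lit 0) .nil) .nil))) 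
(.lf (nat_lit 524092) (.g (nat_lit 3708) (.e (nat_lit 204868) (nat_lit 29) (.e (nat_lit 360466) (nat_lit 3) (.e (nat_lit 516142) (nat_lit 8) (.e (nat_lit 417829) (nat_lit 18) (.e (nat_lit 303119) (nat_lit 3) .nil))))) (.g (nat_lit 1) (.e (nat_lit 230587) (nat_lit 0) .nil) .nil))))) (.nd (nat_lit 8) (.nd (nat_lit 9) 
(.lf (nat_lit 523452) (.g (nat_lit 3208) (.e (nat_lit 204863) (nat_lit 27) (.e (nat_lit 344117) (nat_lit 21) (.e (nat_lit 516115) (nat_lit 1) (.e (nat_lit 164179) (nat_lit 154) (.e (nat_lit 57372) (nat_lit 2) (.e (nat_lit 90128) (nat_lit 9) (.e (nat_lit 2705) (nat_lit 170) (.e (nat_lit 221214) (nat_lit 23) .nil)))))))) (.g (nat_lit 1) (.e (nat_lit 229545) (nat_lit 0) .nil) .nil))) 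
(.lf (nat_lit 523964) (.g (nat_lit 2448) (.e (nat_lit 204864) (nat_lit 27) (.e (nat_lit 344133) (nat_lit 26) (.e (nat_lit 557105) (nat_lit 14) (.e (nat_lit 180252) (nat_lit 10) (.e (nat_lit 581376) (nat_lit 19) .nil))))) (.g (nat_lit 0) (.e (nat_lit 230150) (nat_lit 0) .nil) .nil)))) (.nd (nat_lit 9) 
(.lf (nat_lit 523708) (.g (nat_lit 3008) (.e (nat_lit 204863) (nat_lit 27) (.e (nat_lit 344132) (nat_lit 26) (.e (nat_lit 557105) (nat_lit 14) (.e (nat_lit 180252) (nat_lit 10) (.e (nat_lit 573475) (nat_lit 12) (.e (nat_lit 57508) (nat_lit 39) (.e (nat_lit 655104) (nat_lit 0) (.e (nat_lit 2685) (nat_lit 168) .nil)))))))) (.g (nat_lit 1) (.e (nat_lit 229857) (nat_lit 0) .nil) .nil))) 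
(.lf (nat_lit 524220) (.g (nat_lit 3156) (.e (nat_lit 204868) (nat_lit 29) (.e (nat_lit 360473) (nat_lit 8) (.e (nat_lit 557091) (nat_lit 12) (.e (nat_lit 163843) (nat_lit 0) (.e (nat_lit 6254) (nat_lit 337) (.e (nat_lit 2725) (nat_lit 172) (.e (nat_lit 237593) (nat_lit 3) .nil))))))) (.g (nat_lit 1) (.e (nat_lit 230815) (nat_lit 0) .nil) .nil)))))) 
(.nd (nat_lit 7) (.nd (nat_lit 8) (.nd (nat_lit 9) 
(.lf (nat_lit 523388) (.g (nat_lit 1944) (.e (nat_lit 204862) (nat_lit 27) (.e (nat_lit 344133) (nat_lit 26) (.e (nat_lit 557105) (nat_lit 14) (.e (nat_lit 180245) (nat_lit 5) .nil)))) (.g (nat_lit 0) (.e (nat_lit 229462) (nat_lit 0) .nil) .nil))) 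
(.lf (nat_lit 523900) (.g (nat_lit 2852) (.e (nat_lit 204864) (nat_lit 27) (.e (nat_lit 344132) (nat_lit 26) (.e (nat_lit 557105) (nat_lit 14) (.e (nat_lit 180252) (nat_lit 10) (.e (nat_lit 573473) (nat_lit 12) (.e (nat_lit 57507) (nat_lit 39) (.e (nat_lit 655104) (nat_lit 0) (.e (nat_lit 2679) (nat_lit 168) .nil)))))))) (.g (nat_lit 1) (.e (nat_lit 230086) (nat_lit 0) .nil) .nil)))) 
(.nd (nat_lit 9) 
(.lf (nat_lit 523644) (.g (nat_lit 2201) (.e (nat_lit 204863) (nat_lit 27) (.e (nat_lit 344132) (nat_lit 26) (.e (nat_lit 557100) (nat_lit 13) (.e (nat_lit 172064) (nat_lit 2) (.e (nat_lit 196661) (nat_lit 12) .nil))))) (.g (nat_lit 0) (.e (nat_lit 229792) (nat_lit 0) .nil) .nil))) 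
(.lf (nat_lit 524156) (.g (nat_lit 1902) (.e (nat_lit 204868) (nat_lit 29) (.e (nat_lit 360473) (nat_lit 8) (.e (nat_lit 557086) (nat_lit 11) (.e (nat_lit 24665) (nat_lit 14) (.e (nat_lit 409344) (nat_lit 3) .nil))))) (.g (nat_lit 1) (.e (nat_lit 230743) (nat_lit 0) .nil) .nil))))) (.nd (nat_lit 8) (.nd (nat_lit 9) 
(.lf (nat_lit 523516) (.g (nat_lit 4295) (.e (nat_lit 204863) (nat_lit 27) (.e (nat_lit 344118) (nat_lit 21) (.e (nat_lit 516119) (nat_lit 1) (.e (nat_lit 164179) (nat_lit 154) (.e (nat_lit 57371) (nat_lit 2) (.e (nat_lit 90128) (nat_lit 9) (.e (nat_lit 2706) (nat_lit 170) (.e (nat_lit 221214) (nat_lit 23) .nil)))))))) (.g (nat_lit 1) (.e (nat_lit 229650) (nat_lit 0) .nil) .nil))) 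
(.lf (nat_lit 524028) (.g (nat_lit 783) (.e (nat_lit 204866) (nat_lit 28) (.e (nat_lit 352316) (nat_lit 24) (.e (nat_lit 123040) (nat_lit 140) (.e (nat_lit 1209) (nat_lit 89) .nil)))) (.g (nat_lit 0) (.e (nat_lit 230429) (nat_lit 0) .nil) .nil)))) (.nd (nat_lit 9) 
(.lf (nat_lit 523772) (.g (nat_lit 3375) (.e (nat_lit 204863) (nat_lit 27) (.e (nat_lit 344133) (nat_lit 26) (.e (nat_lit 557105) (nat_lit 14) (.e (nat_lit 180251) (nat_lit 10) (.e (nat_lit 573475) (nat_lit 12) (.e (nat_lit 57507) (nat_lit 39) (.e (nat_lit 647176) (nat_lit 0) (.e (nat_lit 2681) (nat_lit 168) .nil)))))))) (.g (nat_lit 1) (.e (nat_lit 229923) (nat_lit 0) .nil) .nil))) 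
(.lf (nat_lit 524284) (.g (nat_lit 1414) (.e (nat_lit 204868) (nat_lit 29) (.e (nat_lit 360474) (nat_lit 8) (.e (nat_lit 557093) (nat_lit 12) (.e (nat_lit 164023) (nat_lit 46) .nil)))) (.g (nat_lit 0) (.e (nat_lit 230931) (nat_lit 0) .nil) .nil))))))))))) (.nd (nat_lit 2) (.nd (nat_lit 3) (.nd (nat_lit 4) (.nd (nat_lit 5) (.nd (nat_lit 6) (.nd (nat_lit 7) (.nd (nat_lit 8) (.nd (nat_lit 9) 
(.lf (nat_lit 523266) (.g (nat_lit 1220) (.e (nat_lit 204862) (nat_lit 27) (.e (nat_lit 344130) (nat_lit 26) (.e (nat_lit 557104) (nat_lit 14) (.e (nat_lit 180245) (nat_lit 5) .nil)))) (.g (nat_lit 0) (.e (nat_lit 229339) (nat_lit 0) .nil) .nil))) 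
(.lf (nat_lit 523778) (.g (nat_lit 3207) (.e (nat_lit 204863) (nat_lit 27) (.e (nat_lit 344133) (nat_lit 26) (.e (nat_lit 557105) (nat_lit 14) (.e (nat_lit 180252) (nat_lit 10) (.e (nat_lit 573473) (nat_lit 12) (.e (nat_lit 57506) (nat_lit 39) (.e (nat_lit 655104) (nat_lit 0) (.e (nat_lit 2684) (nat_lit 168) .nil)))))))) (.g (nat_lit 1) (.e (nat_lit 229929) (nat_lit 0) .nil) .nil)))) 
(.nd (nat_lit 9) 
(.lf (nat_lit 523522) (.g (nat_lit 3358) (.e (nat_lit 204863) (nat_lit 27) (.e (nat_lit 344120) (nat_lit 21) (.e (nat_lit 516115) (nat_lit 1) (.e (nat_lit 164183) (nat_lit 154) (.e (nat_lit 57373) (nat_lit 2) (.e (nat_lit 90128) (nat_lit 9) (.e (nat_lit 2706) (nat_lit 170) (.e (nat_lit 221214) (nat_lit 23) .nil)))))))) (.g (nat_lit 1) (.e (nat_lit 229666) (nat_lit 0) .nil) .nil))) 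
(.lf (nat_lit 524034) (.g (nat_lit 2473) (.e (nat_lit 204867) (nat_lit 28) (.e (nat_lit 352312) (nat_lit 22) (.e (nat_lit 90165) (nat_lit 12) (.e (nat_lit 164208) (nat_lit 176) (.e (nat_lit 2810) (nat_lit 180) (.e (nat_lit 303119) (nat_lit 3) .nil)))))) (.g (nat_lit 1) (.e (nat_lit 230463) (nat_lit 0) .nil) .nil))))) (.nd (nat_lit 8) (.nd (nat_lit 9) 
(.lf (nat_lit 523394) (.g (nat_lit 3244) (.e (nat_lit 204862) (nat_lit 27) (.e (nat_lit 344133) (nat_lit 26) (.e (nat_lit 557105) (nat_lit 14) (.e (nat_lit 180251) (nat_lit 10) (.e (nat_lit 573478) (nat_lit 12) (.e (nat_lit 57511) (nat_lit 39) (.e (nat_lit 655104) (nat_lit 0) (.e (nat_lit 2684) (nat_lit 168) .nil)))))))) (.g (nat_lit 1) (.e (nat_lit 229468) (nat_lit 0) .nil) .nil))) 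
(.lf (nat_lit 523906) (.g (nat_lit 2824) (.e (nat_lit 204864) (nat_lit 27) (.e (nat_lit 344132) (nat_lit 26) (.e (nat_lit 557105) (nat_lit 14) (.e (nat_lit 180252) (nat_lit 10) (.e (nat_lit 573473) (nat_lit 12) (.e (nat_lit 57508) (nat_lit 39) (.e (nat_lit 655104) (nat_lit 0) (.e (nat_lit 2685) (nat_lit 168) .nil)))))))) (.g (nat_lit 1) (.e (nat_lit 230092) (nat_lit 0) .nil) .nil)))) 
(.nd (nat_lit 9) 
(.lf (nat_lit 523650) (.g (nat_lit 3586) (.e (nat_lit 204863) (nat_lit 27) (.e (nat_lit 344132) (nat_lit 26) (.e (nat_lit 557100) (nat_lit 13) (.e (nat_lit 172065) (nat_lit 3) (.e (nat_lit 204830) (nat_lit 18) (.e (nat_lit 57703) (nat_lit 164) (.e (nat_lit 2515) (nat_lit 157) (.e (nat_lit 2681) (nat_lit 168) .nil)))))))) (.g (nat_lit 1) (.e (nat_lit 229798) (nat_lit 0) .nil) .nil))) 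
(.lf (nat_lit 524162) (.g (nat_lit 840) (.e (nat_lit 204868) (nat_lit 29) (.e (nat_lit 360473) (nat_lit 8) (.e (nat_lit 557087) (nat_lit 11) (.e (nat_lit 24578) (nat_lit 0) .nil)))) (.g (nat_lit 0) (.e (nat_lit 230749) (nat_lit 0) .nil) .nil)))))) (.nd (nat_lit 7) (.nd (nat_lit 8) (.nd (nat_lit 9) 
(.lf (nat_lit 523330) (.g (nat_lit 3567) (.e (nat_lit 204862) (nat_lit 27) (.e (nat_lit 344132) (nat_lit 26) (.e (nat_lit 557105) (nat_lit 14) (.e (nat_lit 180252) (nat_lit 10) (.e (nat_lit 573475) (nat_lit 12) (.e (nat_lit 57508) (nat_lit 39) (.e (nat_lit 655104) (nat_lit 0) (.e (nat_lit 2684) (nat_lit 168) .nil)))))))) (.g (nat_lit 1) (.e (nat_lit 229403) (nat_lit 0) .nil) .nil))) 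
(.lf (nat_lit 523842) (.g (nat_lit 3761) (.e (nat_lit 204863) (nat_lit 27) (.e (nat_lit 344133) (nat_lit 26) (.e (nat_lit 557105) (nat_lit 14) (.e (nat_lit 180252) (nat_lit 10) (.e (nat_lit 573505) (nat_lit 18) .nil))))) (.g (nat_lit 0) (.e (nat_lit 229993) (nat_lit 0) .nil) .nil)))) (.nd (nat_lit 9) 
(.lf (nat_lit 523586) (.g (nat_lit 2178) (.e (nat_lit 204863) (nat_lit 27) (.e (nat_lit 344130) (nat_lit 26) (.e (nat_lit 557103) (nat_lit 14) (.e (nat_lit 180250) (nat_lit 10) (.e (nat_lit 573478) (nat_lit 12) .nil))))) (.g (nat_lit 0) (.e (nat_lit 229734) (nat_lit 0) .nil) .nil))) 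
(.lf (nat_lit 524098) (.g (nat_lit 2500) (.e (nat_lit 204868) (nat_lit 29) (.e (nat_lit 360466) (nat_lit 3) (.e (nat_lit 516185) (nat_lit 16) (.e (nat_lit 491528) (nat_lit 0) (.e (nat_lit 6680) (nat_lit 357) (.e (nat_lit 2682) (nat_lit 168) .nil)))))) (.g (nat_lit 1) (.e (nat_lit 230667) (nat_lit 0) .nil) .nil))))) (.nd (nat_lit 8) (.nd (nat_lit 9) 
(.lf (nat_lit 523458) (.g (nat_lit 3520) (.e (nat_lit 204863) (nat_lit 27) (.e (nat_lit 344117) (nat_lit 21) (.e (nat_lit 516115) (nat_lit 1) (.e (nat_lit 164179) (nat_lit 154) (.e (nat_lit 57377) (nat_lit 3) (.e (nat_lit 98321) (nat_lit 17) (.e (nat_lit 3771) (nat_lit 229) (.e (nat_lit 794673) (nat_lit 23) .nil)))))))) (.g (nat_lit 1) (.e (nat_lit 229557) (nat_lit 0) .nil) .nil))) 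
(.lf (nat_lit 523970) (.g (nat_lit 621) (.e (nat_lit 204865) (nat_lit 28) (.e (nat_lit 352267) (nat_lit 0) (.e (nat_lit 3305) (nat_lit 202) .nil))) (.g (nat_lit 0) (.e (nat_lit 230179) (nat_lit 0) .nil) .nil)))) (.nd (nat_lit 9) 
(.lf (nat_lit 523714) (.g (nat_lit 3733) (.e (nat_lit 204863) (nat_lit 27) (.e (nat_lit 344132) (nat_lit 26) (.e (nat_lit 557105) (nat_lit 14) (.e (nat_lit 180252) (nat_lit 10) (.e (nat_lit 573503) (nat_lit 18) (.e (nat_lit 7936) (nat_lit 81) (.e (nat_lit 5259) (nat_lit 298) (.e (nat_lit 174) (nat_lit 12) .nil)))))))) (.g (nat_lit 1) (.e (nat_lit 229863) (nat_lit 0) .nil) .nil))) 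
(.lf (nat_lit 524226) (.g (nat_lit 2359) (.e (nat_lit 204868) (nat_lit 29) (.e (nat_lit 360473) (nat_lit 8) (.e (nat_lit 557091) (nat_lit 12) (.e (nat_lit 163843) (nat_lit 0) (.e (nat_lit 6416) (nat_lit 341) .nil))))) (.g (nat_lit 0) (.e (nat_lit 230823) (nat_lit 0) .nil) .nil))))))) (.nd (nat_lit 6) (.nd (nat_lit 7) (.nd (nat_lit 8) (.nd (nat_lit 9) 
(.lf (nat_lit 523298) (.g (nat_lit 1863) (.e (nat_lit 204862) (nat_lit 27) (.e (nat_lit 344132) (nat_lit 26) (.e (nat_lit 557100) (nat_lit 13) (.e (nat_lit 172134) (nat_lit 15) .nil)))) (.g (nat_lit 0) (.e (nat_lit 229371) (nat_lit 0) .nil) .nil))) 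
(.lf (nat_lit 523810) (.g (nat_lit 3888) (.e (nat_lit 204863) (nat_lit 27) (.e (nat_lit 344133) (nat_lit 26) (.e (nat_lit 557105) (nat_lit 14) (.e (nat_lit 180252) (nat_lit 10) (.e (nat_lit 573474) (nat_lit 12) (.e (nat_lit 57508) (nat_lit 39) (.e (nat_lit 647177) (nat_lit 0) (.e (nat_lit 2682) (nat_lit 168) .nil)))))))) (.g (nat_lit 1) (.e (nat_lit 229961) (nat_lit 0) .nil) .nil)))) 
(.nd (nat_lit 9) 
(.lf (nat_lit 523554) (.g (nat_lit 2478) (.e (nat_lit 204863) (nat_lit 27) (.e (nat_lit 344129) (nat_lit 26) (.e (nat_lit 557104) (nat_lit 14) (.e (nat_lit 180244) (nat_lit 5) (.e (nat_lit 532503) (nat_lit 1) .nil))))) (.g (nat_lit 0) (.e (nat_lit 229702) (nat_lit 0) .nil) .nil))) 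
(.lf (nat_lit 524066) (.g (nat_lit 1872) (.e (nat_lit 204868) (nat_lit 29) (.e (nat_lit 360466) (nat_lit 3) (.e (nat_lit 516139) (nat_lit 7) (.e (nat_lit 409608) (nat_lit 10) .nil)))) (.g (nat_lit 0) (.e (nat_lit 230553) (nat_lit 0) .nil) .nil))))) (.nd (nat_lit 8) (.nd (nat_lit 9) 
(.lf (nat_lit 523426) (.g (nat_lit 4549) (.e (nat_lit 204862) (nat_lit 27) (.e (nat_lit 344133) (nat_lit 26) (.e (nat_lit 557105) (nat_lit 14) (.e (nat_lit 180252) (nat_lit 10) (.e (nat_lit 573475) (nat_lit 12) (.e (nat_lit 57506) (nat_lit 39) (.e (nat_lit 655104) (nat_lit 0) (.e (nat_lit 2684) (nat_lit 168) .nil)))))))) (.g (nat_lit 1) (.e (nat_lit 229500) (nat_lit 0) .nil) .nil))) 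
(.lf (nat_lit 523938) (.g (nat_lit 3335) (.e (nat_lit 204864) (nat_lit 27) (.e (nat_lit 344133) (nat_lit 26) (.e (nat_lit 557103) (nat_lit 14) (.e (nat_lit 180250) (nat_lit 10) (.e (nat_lit 573474) (nat_lit 12) (.e (nat_lit 57507) (nat_lit 39) (.e (nat_lit 647170) (nat_lit 0) (.e (nat_lit 2685) (nat_lit 168) .nil)))))))) (.g (nat_lit 1) (.e (nat_lit 230124) (nat_lit 0) .nil) .nil)))) 
(.nd (nat_lit 9) 
(.lf (nat_lit 523682) (.g (nat_lit 3754) (.e (nat_lit 204863) (nat_lit 27) (.e (nat_lit 344132) (nat_lit 26) (.e (nat_lit 557105) (nat_lit 14) (.e (nat_lit 180252) (nat_lit 10) (.e (nat_lit 573474) (nat_lit 12) (.e (nat_lit 57506) (nat_lit 39) (.e (nat_lit 647175) (nat_lit 0) (.e (nat_lit 2684) (nat_lit 168) .nil)))))))) (.g (nat_lit 1) (.e (nat_lit 229831) (nat_lit 0) .nil) .nil))) 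
(.lf (nat_lit 524194) (.g (nat_lit 3639) (.e (nat_lit 204868) (nat_lit 29) (.e (nat_lit 360473) (nat_lit 8) (.e (nat_lit 557089) (nat_lit 12) (.e (nat_lit 163844) (nat_lit 0) (.e (nat_lit 6254) (nat_lit 337) (.e (nat_lit 2630) (nat_lit 164) (.e (nat_lit 172065) (nat_lit 3) .nil))))))) (.g (nat_lit 1) (.e (nat_lit 230786) (nat_lit 0) .nil) .nil)))))) 
(.nd (nat_lit 7) (.nd (nat_lit 8) (.nd (nat_lit 9) 
(.lf (nat_lit 523362) (.g (nat_lit 3186) (.e (nat_lit 204862) (nat_lit 27) (.e (nat_lit 344133) (nat_lit 26) (.e (nat_lit 557103) (nat_lit 14) (.e (nat_lit 180250) (nat_lit 10) (.e (nat_lit 573473) (nat_lit 12) (.e (nat_lit 57508) (nat_lit 39) (.e (nat_lit 647168) (nat_lit 0) (.e (nat_lit 2685) (nat_lit 168) .nil)))))))) (.g (nat_lit 1) (.e (nat_lit 229436) (nat_lit 0) .nil) .nil))) 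
(.lf (nat_lit 523874) (.g (nat_lit 2088) (.e (nat_lit 204864) (nat_lit 27) (.e (nat_lit 344130) (nat_lit 26) (.e (nat_lit 557104) (nat_lit 14) (.e (nat_lit 180252) (nat_lit 10) (.e (nat_lit 573503) (nat_lit 18) (.e (nat_lit 1074) (nat_lit 81) (.e (nat_lit 5259) (nat_lit 298) (.e (nat_lit 174) (nat_lit 12) .nil)))))))) (.g (nat_lit 1) (.e (nat_lit 230060) (nat_lit 0) .nil) .nil)))) 
(.nd (nat_lit 9) 
(.lf (nat_lit 523618) (.g (nat_lit 2813) (.e (nat_lit 204863) (nat_lit 27) (.e (nat_lit 344131) (nat_lit 26) (.e (nat_lit 557105) (nat_lit 14) (.e (nat_lit 180252) (nat_lit 10) (.e (nat_lit 573473) (nat_lit 12) (.e (nat_lit 57511) (nat_lit 39) (.e (nat_lit 647171) (nat_lit 0) (.e (nat_lit 2681) (nat_lit 168) .nil)))))))) (.g (nat_lit 1) (.e (nat_lit 229766) (nat_lit 0) .nil) .nil))) 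
(.lf (nat_lit 524130) (.g (nat_lit 529) (.e (nat_lit 204868) (nat_lit 29) (.e (nat_lit 360473) (nat_lit 8) (.e (nat_lit 557067) (nat_lit 9) .nil))) (.g (nat_lit 0) (.e (nat_lit 230707) (nat_lit 0) .nil) .nil))))) (.nd (nat_lit 8) (.nd (nat_lit 9) 
(.lf (nat_lit 523490) (.g (nat_lit 2729) (.e (nat_lit 204863) (nat_lit 27) (.e (nat_lit 344117) (nat_lit 21) (.e (nat_lit 516129) (nat_lit 3) (.e (nat_lit 221210) (nat_lit 22) (.e (nat_lit 196660) (nat_lit 12) (.e (nat_lit 57507) (nat_lit 39) (.e (nat_lit 655104) (nat_lit 0) (.e (nat_lit 2684) (nat_lit 168) .nil)))))))) (.g (nat_lit 1) (.e (nat_lit 229615) (nat_lit 0) .nil) .nil))) 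
(.lf (nat_lit 524002) (.g (nat_lit 1639) (.e (nat_lit 204866) (nat_lit 28) (.e (nat_lit 352273) (nat_lit 11) (.e (nat_lit 426098) (nat_lit 1) (.e (nat_lit 164182) (nat_lit 154) (.e (nat_lit 57411) (nat_lit 12) .nil))))) (.g (nat_lit 0) (.e (nat_lit 230293) (nat_lit 0) .nil) .nil)))) (.nd (nat_lit 9) 
(.lf (nat_lit 523746) (.g (nat_lit 3806) (.e (nat_lit 204863) (nat_lit 27) (.e (nat_lit 344133) (nat_lit 26) (.e (nat_lit 557103) (nat_lit 14) (.e (nat_lit 180243) (nat_lit 5) (.e (nat_lit 532504) (nat_lit 1) (.e (nat_lit 57703) (nat_lit 164) (.e (nat_lit 2515) (nat_lit 157) (.e (nat_lit 2681) (nat_lit 168) .nil)))))))) (.g (nat_lit 1) (.e (nat_lit 229897) (nat_lit 0) .nil) .nil))) 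
(.lf (nat_lit 524258) (.g (nat_lit 3791) (.e (nat_lit 204868) (nat_lit 29) (.e (nat_lit 360473) (nat_lit 8) (.e (nat_lit 557091) (nat_lit 12) (.e (nat_lit 164022) (nat_lit 46) (.e (nat_lit 704629) (nat_lit 9) (.e (nat_lit 375) (nat_lit 32) (.e (nat_lit 426135) (nat_lit 3) .nil))))))) (.g (nat_lit 1) (.e (nat_lit 230866) (nat_lit 0) .nil) .nil)))))))) 
(.nd (nat_lit 5) (.nd (nat_lit 6) (.nd (nat_lit 7) (.nd (nat_lit 8) (.nd (nat_lit 9) 
(.lf (nat_lit 523282) (.g (nat_lit 3165) (.e (nat_lit 204862) (nat_lit 27) (.e (nat_lit 344130) (nat_lit 26) (.e (nat_lit 557104) (nat_lit 14) (.e (nat_lit 180252) (nat_lit 10) (.e (nat_lit 573475) (nat_lit 12) (.e (nat_lit 57509) (nat_lit 39) (.e (nat_lit 655104) (nat_lit 0) (.e (nat_lit 2684) (nat_lit 168) .nil)))))))) (.g (nat_lit 1) (.e (nat_lit 229355) (nat_lit 0) .nil) .nil))) 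
(.lf (nat_lit 523794) (.g (nat_lit 2866) (.e (nat_lit 204863) (nat_lit 27) (.e (nat_lit 344133) (nat_lit 26) (.e (nat_lit 557105) (nat_lit 14) (.e (nat_lit 180252) (nat_lit 10) (.e (nat_lit 573474) (nat_lit 12) (.e (nat_lit 57348) (nat_lit 0) (.e (nat_lit 5438) (nat_lit 306) (.e (nat_lit 2450) (nat_lit 157) (.e (nat_lit 2685) (nat_lit 168) .nil))))))))) (.g (nat_lit 1) (.e (nat_lit 229945) (nat_lit 0) .nil) .nil)))) 
(.nd (nat_lit 9) 
(.lf (nat_lit 523538) (.g (nat_lit 3152) (.e (nat_lit 204863) (nat_lit 27) (.e (nat_lit 344129) (nat_lit 26) (.e (nat_lit 557103) (nat_lit 14) (.e (nat_lit 180244) (nat_lit 5) (.e (nat_lit 532499) (nat_lit 1) (.e (nat_lit 57704) (nat_lit 164) (.e (nat_lit 2515) (nat_lit 157) (.e (nat_lit 2681) (nat_lit 168) .nil)))))))) (.g (nat_lit 1) (.e (nat_lit 229686) (nat_lit 0) .nil) .nil))) 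
(.lf (nat_lit 524050) (.g (nat_lit 656) (.e (nat_lit 204868) (nat_lit 29) (.e (nat_lit 360466) (nat_lit 3) (.e (nat_lit 516113) (nat_lit 0) .nil))) (.g (nat_lit 0) (.e (nat_lit 230521) (nat_lit 0) .nil) .nil))))) (.nd (nat_lit 8) (.nd (nat_lit 9) 
(.lf (nat_lit 523410) (.g (nat_lit 4466) (.e (nat_lit 204862) (nat_lit 27) (.e (nat_lit 344133) (nat_lit 26) (.e (nat_lit 557105) (nat_lit 14) (.e (nat_lit 180252) (nat_lit 10) (.e (nat_lit 573474) (nat_lit 12) (.e (nat_lit 57506) (nat_lit 39) (.e (nat_lit 647175) (nat_lit 0) (.e (nat_lit 2684) (nat_lit 168) .nil)))))))) (.g (nat_lit 1) (.e (nat_lit 229484) (nat_lit 0) .nil) .nil))) 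
(.lf (nat_lit 523922) (.g (nat_lit 2724) (.e (nat_lit 204864) (nat_lit 27) (.e (nat_lit 344133) (nat_lit 26) (.e (nat_lit 557098) (nat_lit 13) (.e (nat_lit 172064) (nat_lit 2) (.e (nat_lit 196661) (nat_lit 12) .nil))))) (.g (nat_lit 0) (.e (nat_lit 230108) (nat_lit 0) .nil) .nil)))) (.nd (nat_lit 9) 
(.lf (nat_lit 523666) (.g (nat_lit 2425) (.e (nat_lit 204863) (nat_lit 27) (.e (nat_lit 344132) (nat_lit 26) (.e (nat_lit 557105) (nat_lit 14) (.e (nat_lit 180252) (nat_lit 10) (.e (nat_lit 573473) (nat_lit 12) (.e (nat_lit 57507) (nat_lit 39) (.e (nat_lit 647168) (nat_lit 0) (.e (nat_lit 2685) (nat_lit 168) .nil)))))))) (.g (nat_lit 1) (.e (nat_lit 229815) (nat_lit 0) .nil) .nil))) 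
(.lf (nat_lit 524178) (.g (nat_lit 3109) (.e (nat_lit 204868) (nat_lit 29) (.e (nat_lit 360473) (nat_lit 8) (.e (nat_lit 557087) (nat_lit 11) (.e (nat_lit 24661) (nat_lit 14) (.e (nat_lit 401426) (nat_lit 3) .nil))))) (.g (nat_lit 0) (.e (nat_lit 230770) (nat_lit 0) .nil) .nil)))))) (.nd (nat_lit 7) (.nd (nat_lit 8) (.nd (nat_lit 9) 
(.lf (nat_lit 523346) (.g (nat_lit 1411) (.e (nat_lit 204862) (nat_lit 27) (.e (nat_lit 344133) (nat_lit 26) (.e (nat_lit 557098) (nat_lit 13) (.e (nat_lit 179968) (nat_lit 17) .nil)))) (.g (nat_lit 0) (.e (nat_lit 229420) (nat_lit 0) .nil) .nil))) 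
(.lf (nat_lit 523858) (.g (nat_lit 2726) (.e (nat_lit 204864) (nat_lit 27) (.e (nat_lit 344130) (nat_lit 26) (.e (nat_lit 557097) (nat_lit 13) (.e (nat_lit 172133) (nat_lit 15) (.e (nat_lit 1800) (nat_lit 119) (.e (nat_lit 516119) (nat_lit 1) (.e (nat_lit 164345) (nat_lit 240) (.e (nat_lit 2427) (nat_lit 157) (.e (nat_lit 2678) (nat_lit 168) .nil))))))))) (.g (nat_lit 1) (.e (nat_lit 230044) (nat_lit 0) .nil) .nil)))) 
(.nd (nat_lit 9) 
(.lf (nat_lit 523602) (.g (nat_lit 1774) (.e (nat_lit 204863) (nat_lit 27) (.e (nat_lit 344131) (nat_lit 26) (.e (nat_lit 557100) (nat_lit 13) (.e (nat_lit 172062) (nat_lit 2) .nil)))) (.g (nat_lit 0) (.e (nat_lit 229750) (nat_lit 0) .nil) .nil))) 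
(.lf (nat_lit 524114) (.g (nat_lit 2822) (.e (nat_lit 204868) (nat_lit 29) (.e (nat_lit 360467) (nat_lit 3) (.e (nat_lit 516139) (nat_lit 7) (.e (nat_lit 409650) (nat_lit 19) (.e (nat_lit 311314) (nat_lit 3) .nil))))) (.g (nat_lit 1) (.e (nat_lit 230684) (nat_lit 0) .nil) .nil))))) (.nd (nat_lit 8) (.nd (nat_lit 9) 
(.lf (nat_lit 523474) (.g (nat_lit 2962) (.e (nat_lit 204863) (nat_lit 27) (.e (nat_lit 344117) (nat_lit 21) (.e (nat_lit 516116) (nat_lit 1) (.e (nat_lit 164182) (nat_lit 154) (.e (nat_lit 57375) (nat_lit 2) .nil))))) (.g (nat_lit 0) (.e (nat_lit 229586) (nat_lit 0) .nil) .nil))) 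
(.lf (nat_lit 523986) (.g (nat_lit 873) (.e (nat_lit 204865) (nat_lit 28) (.e (nat_lit 352313) (nat_lit 23) (.e (nat_lit 98349) (nat_lit 24) (.e (nat_lit 417536) (nat_lit 18) .nil)))) (.g (nat_lit 0) (.e (nat_lit 230235) (nat_lit 0) .nil) .nil)))) (.nd (nat_lit 9) 
(.lf (nat_lit 523730) (.g (nat_lit 4211) (.e (nat_lit 204863) (nat_lit 27) (.e (nat_lit 344133) (nat_lit 26) (.e (nat_lit 557098) (nat_lit 13) (.e (nat_lit 172065) (nat_lit 3) (.e (nat_lit 204821) (nat_lit 17) (.e (nat_lit 2391) (nat_lit 156) (.e (nat_lit 819204) (nat_lit 0) (.e (nat_lit 2685) (nat_lit 168) .nil)))))))) (.g (nat_lit 1) (.e (nat_lit 229881) (nat_lit 0) .nil) .nil))) 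
(.lf (nat_lit 524242) (.g (nat_lit 3558) (.e (nat_lit 204868) (nat_lit 29) (.e (nat_lit 360473) (nat_lit 8) (.e (nat_lit 557091) (nat_lit 12) (.e (nat_lit 163847) (nat_lit 0) (.e (nat_lit 6254) (nat_lit 337) (.e (nat_lit 2630) (nat_lit 164) (.e (nat_lit 172065) (nat_lit 3) .nil))))))) (.g (nat_lit 1) (.e (nat_lit 230840) (nat_lit 0) .nil) .nil))))))) 
(.nd (nat_lit 6) (.nd (nat_lit 7) (.nd (nat_lit 8) (.nd (nat_lit 9) 
(.lf (nat_lit 523314) (.g (nat_lit 1957) (.e (nat_lit 204862) (nat_lit 27) (.e (nat_lit 344132) (nat_lit 26) (.e (nat_lit 557105) (nat_lit 14) (.e (nat_lit 180252) (nat_lit 10) (.e (nat_lit 573473) (nat_lit 12) .nil))))) (.g (nat_lit 0) (.e (nat_lit 229387) (nat_lit 0) .nil) .nil))) 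
(.lf (nat_lit 523826) (.g (nat_lit 3401) (.e (nat_lit 204863) (nat_lit 27) (.e (nat_lit 344133) (nat_lit 26) (.e (nat_lit 557105) (nat_lit 14) (.e (nat_lit 180252) (nat_lit 10) (.e (nat_lit 573475) (nat_lit 12) (.e (nat_lit 57507) (nat_lit 39) (.e (nat_lit 647170) (nat_lit 0) (.e (nat_lit 2675) (nat_lit 168) .nil)))))))) (.g (nat_lit 1) (.e (nat_lit 229977) (nat_lit 0) .nil) .nil)))) 
(.nd (nat_lit 9) 
(.lf (nat_lit 523570) (.g (nat_lit 3261) (.e (nat_lit 204863) (nat_lit 27) (.e (nat_lit 344129) (nat_lit 26) (.e (nat_lit 557104) (nat_lit 14) (.e (nat_lit 180252) (nat_lit 10) (.e (nat_lit 573475) (nat_lit 12) (.e (nat_lit 57509) (nat_lit 39) (.e (nat_lit 655104) (nat_lit 0) (.e (nat_lit 2684) (nat_lit 168) .nil)))))))) (.g (nat_lit 1) (.e (nat_lit 229718) (nat_lit 0) .nil) .nil))) 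
(.lf (nat_lit 524082) (.g (nat_lit 4257) (.e (nat_lit 204868) (nat_lit 29) (.e (nat_lit 360466) (nat_lit 3) (.e (nat_lit 516139) (nat_lit 7) (.e (nat_lit 409649) (nat_lit 18) (.e (nat_lit 303118) (nat_lit 3) .nil))))) (.g (nat_lit 1) (.e (nat_lit 230569) (nat_lit 0) .nil) .nil))))) (.nd (nat_lit 8) (.nd (nat_lit 9) 
(.lf (nat_lit 523442) (.g (nat_lit 1824) (.e (nat_lit 204862) (nat_lit 27) (.e (nat_lit 344160) (nat_lit 37) (.e (nat_lit 647195) (nat_lit 9) (.e (nat_lit 1238) (nat_lit 91) .nil)))) (.g (nat_lit 0) (.e (nat_lit 229524) (nat_lit 0) .nil) .nil))) 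
(.lf (nat_lit 523954) (.g (nat_lit 2860) (.e (nat_lit 204864) (nat_lit 27) (.e (nat_lit 344133) (nat_lit 26) (.e (nat_lit 557105) (nat_lit 14) (.e (nat_lit 180252) (nat_lit 10) (.e (nat_lit 573474) (nat_lit 12) (.e (nat_lit 57348) (nat_lit 0) (.e (nat_lit 5437) (nat_lit 306) (.e (nat_lit 2450) (nat_lit 157) (.e (nat_lit 2685) (nat_lit 168) .nil))))))))) (.g (nat_lit 1) (.e (nat_lit 230140) (nat_lit 0) .nil) .nil)))) 
(.nd (nat_lit 9) 
(.lf (nat_lit 523698) (.g (nat_lit 2950) (.e (nat_lit 204863) (nat_lit 27) (.e (nat_lit 344132) (nat_lit 26) (.e (nat_lit 557105) (nat_lit 14) (.e (nat_lit 180252) (nat_lit 10) (.e (nat_lit 573475) (nat_lit 12) (.e (nat_lit 57505) (nat_lit 39) (.e (nat_lit 655104) (nat_lit 0) (.e (nat_lit 2684) (nat_lit 168) .nil)))))))) (.g (nat_lit 1) (.e (nat_lit 229847) (nat_lit 0) .nil) .nil))) 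
(.lf (nat_lit 524210) (.g (nat_lit 2883) (.e (nat_lit 204868) (nat_lit 29) (.e (nat_lit 360473) (nat_lit 8) (.e (nat_lit 557090) (nat_lit 12) (.e (nat_lit 164020) (nat_lit 45) (.e (nat_lit 696327) (nat_lit 5) (.e (nat_lit 2884) (nat_lit 184) (.e (nat_lit 426140) (nat_lit 3) .nil))))))) (.g (nat_lit 1) (.e (nat_lit 230804) (nat_lit 0) .nil) .nil)))))) 
(.nd (nat_lit 7) (.nd (nat_lit 8) (.nd (nat_lit 9) 
(.lf (nat_lit 523378) (.g (nat_lit 3073) (.e (nat_lit 204862) (nat_lit 27) (.e (nat_lit 344133) (nat_lit 26) (.e (nat_lit 557103) (nat_lit 14) (.e (nat_lit 180250) (nat_lit 10) (.e (nat_lit 573475) (nat_lit 12) (.e (nat_lit 57508) (nat_lit 39) (.e (nat_lit 647170) (nat_lit 0) (.e (nat_lit 2685) (nat_lit 168) .nil)))))))) (.g (nat_lit 1) (.e (nat_lit 229452) (nat_lit 0) .nil) .nil))) 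
(.lf (nat_lit 523890) (.g (nat_lit 1894) (.e (nat_lit 204864) (nat_lit 27) (.e (nat_lit 344132) (nat_lit 26) (.e (nat_lit 557101) (nat_lit 13) (.e (nat_lit 172064) (nat_lit 2) (.e (nat_lit 196686) (nat_lit 18) .nil))))) (.g (nat_lit 0) (.e (nat_lit 230076) (nat_lit 0) .nil) .nil)))) (.nd (nat_lit 9) 
(.lf (nat_lit 523634) (.g (nat_lit 2943) (.e (nat_lit 204863) (nat_lit 27) (.e (nat_lit 344131) (nat_lit 26) (.e (nat_lit 557105) (nat_lit 14) (.e (nat_lit 180252) (nat_lit 10) (.e (nat_lit 573475) (nat_lit 12) (.e (nat_lit 57507) (nat_lit 39) (.e (nat_lit 647170) (nat_lit 0) (.e (nat_lit 2685) (nat_lit 168) .nil)))))))) (.g (nat_lit 1) (.e (nat_lit 229782) (nat_lit 0) .nil) .nil))) 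
(.lf (nat_lit 524146) (.g (nat_lit 652) (.e (nat_lit 204868) (nat_lit 29) (.e (nat_lit 360473) (nat_lit 8) (.e (nat_lit 557074) (nat_lit 9) .nil))) (.g (nat_lit 0) (.e (nat_lit 230728) (nat_lit 0) .nil) .nil))))) (.nd (nat_lit 8) (.nd (nat_lit 9) 
(.lf (nat_lit 523506) (.g (nat_lit 3825) (.e (nat_lit 204863) (nat_lit 27) (.e (nat_lit 344117) (nat_lit 21) (.e (nat_lit 516195) (nat_lit 26) (.e (nat_lit 336027) (nat_lit 3) (.e (nat_lit 98319) (nat_lit 17) (.e (nat_lit 2399) (nat_lit 157) (.e (nat_lit 6839) (nat_lit 369) (.e (nat_lit 163875) (nat_lit 3) .nil)))))))) (.g (nat_lit 1) (.e (nat_lit 229638) (nat_lit 0) .nil) .nil))) 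
(.lf (nat_lit 524018) (.g (nat_lit 3889) (.e (nat_lit 204866) (nat_lit 28) (.e (nat_lit 352313) (nat_lit 23) (.e (nat_lit 98350) (nat_lit 24) (.e (nat_lit 409649) (nat_lit 18) (.e (nat_lit 303118) (nat_lit 3) .nil))))) (.g (nat_lit 1) (.e (nat_lit 230378) (nat_lit 0) .nil) .nil)))) (.nd (nat_lit 9) 
(.lf (nat_lit 523762) (.g (nat_lit 3230) (.e (nat_lit 204863) (nat_lit 27) (.e (nat_lit 344133) (nat_lit 26) (.e (nat_lit 557103) (nat_lit 14) (.e (nat_lit 180250) (nat_lit 10) (.e (nat_lit 573475) (nat_lit 12) (.e (nat_lit 57508) (nat_lit 39) (.e (nat_lit 647176) (nat_lit 0) (.e (nat_lit 2681) (nat_lit 168) .nil)))))))) (.g (nat_lit 1) (.e (nat_lit 229913) (nat_lit 0) .nil) .nil))) 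
(.lf (nat_lit 524274) (.g (nat_lit 2578) (.e (nat_lit 204868) (nat_lit 29) (.e (nat_lit 360473) (nat_lit 8) (.e (nat_lit 557094) (nat_lit 12) (.e (nat_lit 164022) (nat_lit 46) (.e (nat_lit 704629) (nat_lit 9) (.e (nat_lit 411) (nat_lit 32) (.e (nat_lit 426136) (nat_lit 3) .nil))))))) (.g (nat_lit 1) (.e (nat_lit 230917) (nat_lit 0) .nil) .nil))))))))) 
(.nd (nat_lit 4) (.nd (nat_lit 5) (.nd (nat_lit 6) (.nd (nat_lit 7) (.nd (nat_lit 8) 
(.nd (nat_lit 9) 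
(.lf (nat_lit 523274) (.g (nat_lit 3198) (.e (nat_lit 204862) (nat_lit 27) (.e (nat_lit 344130) (nat_lit 26) (.e (nat_lit 557104) (nat_lit 14) (.e (nat_lit 180252) (nat_lit 10) (.e (nat_lit 573474) (nat_lit 12) (.e (nat_lit 57507) (nat_lit 39) (.e (nat_lit 647170) (nat_lit 0) (.e (nat_lit 2685) (nat_lit 168) .nil)))))))) (.g (nat_lit 1) (.e (nat_lit 229347) (nat_lit 0) .nil) .nil))) 
(.lf (nat_lit 523786) (.g (nat_lit 3438) (.e (nat_lit 204863) (nat_lit 27) (.e (nat_lit 344133) (nat_lit 26) (.e (nat_lit 557105) (nat_lit 14) (.e (nat_lit 180252) (nat_lit 10) (.e (nat_lit 573473) (nat_lit 12) (.e (nat_lit 57511) (nat_lit 39) (.e (nat_lit 647168) (nat_lit 0) (.e (nat_lit 2685) (nat_lit 168) .nil)))))))) (.g (nat_lit 1) (.e (nat_lit 229937) (nat_lit 0) .nil) .nil)))) 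
(.nd (nat_lit 9) 
(.lf (nat_lit 523530) (.g (nat_lit 2098) (.e (nat_lit 204863) (nat_lit 27) (.e (nat_lit 344129) (nat_lit 26) (.e (nat_lit 557097) (nat_lit 13) (.e (nat_lit 172064) (nat_lit 2) (.e (nat_lit 196661) (nat_lit 12) .nil))))) (.g (nat_lit 0) (.e (nat_lit 229678) (nat_lit 0) .nil) .nil))) 
(.lf (nat_lit 524042) (.g (nat_lit 649) (.e (nat_lit 204868) (nat_lit 29) (.e (nat_lit 360451) (nat_lit 0) (.e (nat_lit 3928) (nat_lit 239) .nil))) (.g (nat_lit 0) (.e (nat_lit 230492) (nat_lit 0) .nil) .nil))))) (.nd (nat_lit 8) (.nd (nat_lit 9) 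
(.lf (nat_lit 523402) (.g (nat_lit 3426) (.e (nat_lit 204862) (nat_lit 27) (.e (nat_lit 344133) (nat_lit 26) (.e (nat_lit 557105) (nat_lit 14) (.e (nat_lit 180252) (nat_lit 10) (.e (nat_lit 573474) (nat_lit 12) (.e (nat_lit 57347) (nat_lit 0) (.e (nat_lit 5436) (nat_lit 306) (.e (nat_lit 2433) (nat_lit 157) (.e (nat_lit 2685) (nat_lit 168) .nil))))))))) (.g (nat_lit 1) (.e (nat_lit 229476) (nat_lit 0) .nil) .nil))) 
(.lf (nat_lit 523914) (.g (nat_lit 2852) (.e (nat_lit 204864) (nat_lit 27) (.e (nat_lit 344132) (nat_lit 26) (.e (nat_lit 557105) (nat_lit 14) (.e (nat_lit 180252) (nat_lit 10) (.e (nat_lit 573475) (nat_lit 12) (.e (nat_lit 57506) (nat_lit 39) (.e (nat_lit 647170) (nat_lit 0) (.e (nat_lit 2685) (nat_lit 168) .nil)))))))) (.g (nat_lit 1) (.e (nat_lit 230100) (nat_lit 0) .nil) .nil)))) 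
(.nd (nat_lit 9) 
(.lf (nat_lit 523658) (.g (nat_lit 2373) (.e (nat_lit 204863) (nat_lit 27) (.e (nat_lit 344132) (nat_lit 26) (.e (nat_lit 557101) (nat_lit 13) (.e (nat_lit 172071) (nat_lit 5) (.e (nat_lit 245772) (nat_lit 2) (.e (nat_lit 32512) (nat_lit 18) .nil)))))) (.g (nat_lit 1) (.e (nat_lit 229807) (nat_lit 0) .nil) .nil))) 
(.lf (nat_lit 524170) (.g (nat_lit 2588) (.e (nat_lit 204868) (nat_lit 29) (.e (nat_lit 360473) (nat_lit 8) (.e (nat_lit 557087) (nat_lit 11) (.e (nat_lit 24585) (nat_lit 0) (.e (nat_lit 7936) (nat_lit 357) .nil))))) (.g (nat_lit 0) (.e (nat_lit 230761) (nat_lit 0) .nil) .nil)))))) (.nd (nat_lit 7) (.nd (nat_lit 8) (.nd (nat_lit 9) 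
(.lf (nat_lit 523338) (.g (nat_lit 3180) (.e (nat_lit 204862) (nat_lit 27) (.e (nat_lit 344133) (nat_lit 26) (.e (nat_lit 557098) (nat_lit 13) (.e (nat_lit 172066) (nat_lit 3) (.e (nat_lit 204821) (nat_lit 17) (.e (nat_lit 2391) (nat_lit 156) (.e (nat_lit 819204) (nat_lit 0) (.e (nat_lit 2685) (nat_lit 168) .nil)))))))) (.g (nat_lit 1) (.e (nat_lit 229412) (nat_lit 0) .nil) .nil))) 
(.lf (nat_lit 523850) (.g (nat_lit 1714) (.e (nat_lit 204863) (nat_lit 27) (.e (nat_lit 344160) (nat_lit 37) (.e (nat_lit 647190) (nat_lit 9) (.e (nat_lit 1304) (nat_lit 97) .nil)))) (.g (nat_lit 0) (.e (nat_lit 230023) (nat_lit 0) .nil) .nil)))) (.nd (nat_lit 9) 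
(.lf (nat_lit 523594) (.g (nat_lit 3217) (.e (nat_lit 204863) (nat_lit 27) (.e (nat_lit 344130) (nat_lit 26) (.e (nat_lit 557104) (nat_lit 14) (.e (nat_lit 180252) (nat_lit 10) (.e (nat_lit 573474) (nat_lit 12) (.e (nat_lit 57507) (nat_lit 39) (.e (nat_lit 655104) (nat_lit 0) (.e (nat_lit 2684) (nat_lit 168) .nil)))))))) (.g (nat_lit 1) (.e (nat_lit 229742) (nat_lit 0) .nil) .nil))) 
(.lf (nat_lit 524106) (.g (nat_lit 2647) (.e (nat_lit 204868) (nat_lit 29) (.e (nat_lit 360467) (nat_lit 3) (.e (nat_lit 516139) (nat_lit 7) (.e (nat_lit 409616) (nat_lit 10) (.e (nat_lit 5613) (nat_lit 312) .nil))))) (.g (nat_lit 0) (.e (nat_lit 230676) (nat_lit 0) .nil) .nil))))) (.nd (nat_lit 8) (.nd (nat_lit 9) 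
(.lf (nat_lit 523466) (.g (nat_lit 3621) (.e (nat_lit 204863) (nat_lit 27) (.e (nat_lit 344117) (nat_lit 21) (.e (nat_lit 516115) (nat_lit 1) (.e (nat_lit 164183) (nat_lit 154) (.e (nat_lit 57379) (nat_lit 3) (.e (nat_lit 98321) (nat_lit 17) (.e (nat_lit 3771) (nat_lit 229) (.e (nat_lit 794673) (nat_lit 23) .nil)))))))) (.g (nat_lit 1) (.e (nat_lit 229576) (nat_lit 0) .nil) .nil))) 
(.lf (nat_lit 523978) (.g (nat_lit 2713) (.e (nat_lit 204865) (nat_lit 28) (.e (nat_lit 352277) (nat_lit 11) (.e (nat_lit 426500) (nat_lit 27) (.e (nat_lit 335988) (nat_lit 1) (.e (nat_lit 57927) (nat_lit 282) (.e (nat_lit 163875) (nat_lit 3) .nil)))))) (.g (nat_lit 1) (.e (nat_lit 230215) (nat_lit 0) .nil) .nil)))) (.nd (nat_lit 9) 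
(.lf (nat_lit 523722) (.g (nat_lit 3251) (.e (nat_lit 204863) (nat_lit 27) (.e (nat_lit 344133) (nat_lit 26) (.e (nat_lit 557096) (nat_lit 13) (.e (nat_lit 172067) (nat_lit 3) (.e (nat_lit 204821) (nat_lit 17) (.e (nat_lit 2391) (nat_lit 156) (.e (nat_lit 819204) (nat_lit 0) (.e (nat_lit 2685) (nat_lit 168) .nil)))))))) (.g (nat_lit 1) (.e (nat_lit 229873) (nat_lit 0) .nil) .nil))) 
(.lf (nat_lit 524234) (.g (nat_lit 3573) (.e (nat_lit 204868) (nat_lit 29) (.e (nat_lit 360473) (nat_lit 8) (.e (nat_lit 557091) (nat_lit 12) (.e (nat_lit 163843) (nat_lit 0) (.e (nat_lit 6421) (nat_lit 341) (.e (nat_lit 171776) (nat_lit 12) (.e (nat_lit 426139) (nat_lit 3) .nil))))))) (.g (nat_lit 1) (.e (nat_lit 230831) (nat_lit 0) .nil) .nil))))))) 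
(.nd (nat_lit 6) (.nd (nat_lit 7) (.nd (nat_lit 8) (.nd (nat_lit 9) 
(.lf (nat_lit 523306) (.g (nat_lit 920) (.e (nat_lit 204862) (nat_lit 27) (.e (nat_lit 344132) (nat_lit 26) (.e (nat_lit 557101) (nat_lit 13) (.e (nat_lit 172073) (nat_lit 5) .nil)))) (.g (nat_lit 0) (.e (nat_lit 229379) (nat_lit 0) .nil) .nil))) 
(.lf (nat_lit 523818) (.g (nat_lit 3578) (.e (nat_lit 204863) (nat_lit 27) (.e (nat_lit 344133) (nat_lit 26) (.e (nat_lit 557105) (nat_lit 14) (.e (nat_lit 180252) (nat_lit 10) (.e (nat_lit 573474) (nat_lit 12) (.e (nat_lit 57511) (nat_lit 39) (.e (nat_lit 647177) (nat_lit 0) (.e (nat_lit 2682) (nat_lit 168) .nil)))))))) (.g (nat_lit 1) (.e (nat_lit 229969) (nat_lit 0) .nil) .nil)))) 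
(.nd (nat_lit 9) 
(.lf (nat_lit 523562) (.g (nat_lit 3198) (.e (nat_lit 204863) (nat_lit 27) (.e (nat_lit 344129) (nat_lit 26) (.e (nat_lit 557104) (nat_lit 14) (.e (nat_lit 180252) (nat_lit 10) (.e (nat_lit 573474) (nat_lit 12) (.e (nat_lit 57508) (nat_lit 39) (.e (nat_lit 647170) (nat_lit 0) (.e (nat_lit 2685) (nat_lit 168) .nil)))))))) (.g (nat_lit 1) (.e (nat_lit 229710) (nat_lit 0) .nil) .nil))) 
(.lf (nat_lit 524074) (.g (nat_lit 3459) (.e (nat_lit 204868) (nat_lit 29) (.e (nat_lit 360466) (nat_lit 3) (.e (nat_lit 516139) (nat_lit 7) (.e (nat_lit 409617) (nat_lit 10) (.e (nat_lit 7936) (nat_lit 312) (.e (nat_lit 2684) (nat_lit 168) .nil)))))) (.g (nat_lit 1) (.e (nat_lit 230561) (nat_lit 0) .nil) .nil))))) (.nd (nat_lit 8) (.nd (nat_lit 9) 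
(.lf (nat_lit 523434) (.g (nat_lit 2994) (.e (nat_lit 204862) (nat_lit 27) (.e (nat_lit 344133) (nat_lit 26) (.e (nat_lit 557105) (nat_lit 14) (.e (nat_lit 180252) (nat_lit 10) (.e (nat_lit 573503) (nat_lit 18) .nil))))) (.g (nat_lit 0) (.e (nat_lit 229508) (nat_lit 0) .nil) .nil))) 
(.lf (nat_lit 523946) (.g (nat_lit 3380) (.e (nat_lit 204864) (nat_lit 27) (.e (nat_lit 344133) (nat_lit 26) (.e (nat_lit 557105) (nat_lit 14) (.e (nat_lit 180252) (nat_lit 10) (.e (nat_lit 573452) (nat_lit 9) .nil))))) (.g (nat_lit 0) (.e (nat_lit 230132) (nat_lit 0) .nil) .nil)))) (.nd (nat_lit 9) 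
(.lf (nat_lit 523690) (.g (nat_lit 3941) (.e (nat_lit 204863) (nat_lit 27) (.e (nat_lit 344132) (nat_lit 26) (.e (nat_lit 557105) (nat_lit 14) (.e (nat_lit 180252) (nat_lit 10) (.e (nat_lit 573474) (nat_lit 12) (.e (nat_lit 57508) (nat_lit 39) (.e (nat_lit 647170) (nat_lit 0) (.e (nat_lit 2675) (nat_lit 168) .nil)))))))) (.g (nat_lit 1) (.e (nat_lit 229839) (nat_lit 0) .nil) .nil))) 
(.lf (nat_lit 524202) (.g (nat_lit 1120) (.e (nat_lit 204868) (nat_lit 29) (.e (nat_lit 360473) (nat_lit 8) (.e (nat_lit 557089) (nat_lit 12) (.e (nat_lit 163850) (nat_lit 0) .nil)))) (.g (nat_lit 0) (.e (nat_lit 230795) (nat_lit 0) .nil) .nil)))))) (.nd (nat_lit 7) (.nd (nat_lit 8) (.nd (nat_lit 9) 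
(.lf (nat_lit 523370) (.g (nat_lit 2944) (.e (nat_lit 204862) (nat_lit 27) (.e (nat_lit 344133) (nat_lit 26) (.e (nat_lit 557103) (nat_lit 14) (.e (nat_lit 180250) (nat_lit 10) (.e (nat_lit 573474) (nat_lit 12) (.e (nat_lit 57508) (nat_lit 39) (.e (nat_lit 647170) (nat_lit 0) (.e (nat_lit 2685) (nat_lit 168) .nil)))))))) (.g (nat_lit 1) (.e (nat_lit 229444) (nat_lit 0) .nil) .nil))) 
(.lf (nat_lit 523882) (.g (nat_lit 2905) (.e (nat_lit 204864) (nat_lit 27) (.e (nat_lit 344132) (nat_lit 26) (.e (nat_lit 557100) (nat_lit 13) (.e (nat_lit 172065) (nat_lit 3) (.e (nat_lit 204821) (nat_lit 17) (.e (nat_lit 2390) (nat_lit 156) (.e (nat_lit 819204) (nat_lit 0) (.e (nat_lit 2685) (nat_lit 168) .nil)))))))) (.g (nat_lit 1) (.e (nat_lit 230068) (nat_lit 0) .nil) .nil)))) 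
(.nd (nat_lit 9) 
(.lf (nat_lit 523626) (.g (nat_lit 3579) (.e (nat_lit 204863) (nat_lit 27) (.e (nat_lit 344131) (nat_lit 26) (.e (nat_lit 557105) (nat_lit 14) (.e (nat_lit 180252) (nat_lit 10) (.e (nat_lit 573474) (nat_lit 12) (.e (nat_lit 57506) (nat_lit 39) (.e (nat_lit 647175) (nat_lit 0) (.e (nat_lit 2684) (nat_lit 168) .nil)))))))) (.g (nat_lit 1) (.e (nat_lit 229774) (nat_lit 0) .nil) .nil))) 
(.lf (nat_lit 524138) (.g (nat_lit 401) (.e (nat_lit 204868) (nat_lit 29) (.e (nat_lit 360473) (nat_lit 8) (.e (nat_lit 557068) (nat_lit 9) .nil))) (.g (nat_lit 0) (.e (nat_lit 230719) (nat_lit 0) .nil) .nil))))) (.nd (nat_lit 8) (.nd (nat_lit 9) 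
(.lf (nat_lit 523498) (.g (nat_lit 3317) (.e (nat_lit 204863) (nat_lit 27) (.e (nat_lit 344117) (nat_lit 21) (.e (nat_lit 516130) (nat_lit 3) (.e (nat_lit 221214) (nat_lit 23) (.e (nat_lit 204829) (nat_lit 18) (.e (nat_lit 57928) (nat_lit 282) (.e (nat_lit 163875) (nat_lit 3) .nil))))))) (.g (nat_lit 1) (.e (nat_lit 229623) (nat_lit 0) .nil) .nil))) 
(.lf (nat_lit 524010) (.g (nat_lit 2993) (.e (nat_lit 204866) (nat_lit 28) (.e (nat_lit 352277) (nat_lit 11) (.e (nat_lit 426500) (nat_lit 27) (.e (nat_lit 335986) (nat_lit 1) (.e (nat_lit 57927) (nat_lit 282) (.e (nat_lit 163875) (nat_lit 3) .nil)))))) (.g (nat_lit 1) (.e (nat_lit 230328) (nat_lit 0) .nil) .nil)))) (.nd (nat_lit 9) 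
(.lf (nat_lit 523754) (.g (nat_lit 3444) (.e (nat_lit 204863) (nat_lit 27) (.e (nat_lit 344133) (nat_lit 26) (.e (nat_lit 557103) (nat_lit 14) (.e (nat_lit 180250) (nat_lit 10) (.e (nat_lit 573473) (nat_lit 12) (.e (nat_lit 57511) (nat_lit 39) (.e (nat_lit 655104) (nat_lit 0) (.e (nat_lit 2684) (nat_lit 168) .nil)))))))) (.g (nat_lit 1) (.e (nat_lit 229905) (nat_lit 0) .nil) .nil))) 
(.lf (nat_lit 524266) (.g (nat_lit 2852) (.e (nat_lit 204868) (nat_lit 29) (.e (nat_lit 360473) (nat_lit 8) (.e (nat_lit 557093) (nat_lit 12) (.e (nat_lit 164022) (nat_lit 46) (.e (nat_lit 704629) (nat_lit 9) (.e (nat_lit 411) (nat_lit 32) (.e (nat_lit 426136) (nat_lit 3) .nil))))))) (.g (nat_lit 1) (.e (nat_lit 230894) (nat_lit 0) .nil) .nil)))))))) 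
(.nd (nat_lit 5) (.nd (nat_lit 6) (.nd (nat_lit 7) (.nd (nat_lit 8) (.nd (nat_lit 9) 
(.lf (nat_lit 523290) (.g (nat_lit 2126) (.e (nat_lit 204862) (nat_lit 27) (.e (nat_lit 344132) (nat_lit 26) (.e (nat_lit 557100) (nat_lit 13) (.e (nat_lit 172062) (nat_lit 2) (.e (nat_lit 196661) (nat_lit 12) .nil))))) (.g (nat_lit 0) (.e (nat_lit 229363) (nat_lit 0) .nil) .nil))) 
(.lf (nat_lit 523802) (.g (nat_lit 4427) (.e (nat_lit 204863) (nat_lit 27) (.e (nat_lit 344133) (nat_lit 26) (.e (nat_lit 557105) (nat_lit 14) (.e (nat_lit 180252) (nat_lit 10) (.e (nat_lit 573474) (nat_lit 12) (.e (nat_lit 57506) (nat_lit 39) (.e (nat_lit 647175) (nat_lit 0) (.e (nat_lit 2684) (nat_lit 168) .nil)))))))) (.g (nat_lit 1) (.e (nat_lit 229953) (nat_lit 0) .nil) .nil)))) 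
(.nd (nat_lit 9) 
(.lf (nat_lit 523546) (.g (nat_lit 3163) (.e (nat_lit 204863) (nat_lit 27) (.e (nat_lit 344129) (nat_lit 26) (.e (nat_lit 557103) (nat_lit 14) (.e (nat_lit 180250) (nat_lit 10) (.e (nat_lit 573475) (nat_lit 12) (.e (nat_lit 57508) (nat_lit 39) (.e (nat_lit 647175) (nat_lit 0) (.e (nat_lit 2684) (nat_lit 168) .nil)))))))) (.g (nat_lit 1) (.e (nat_lit 229694) (nat_lit 0) .nil) .nil))) 
(.lf (nat_lit 524058) (.g (nat_lit 3761) (.e (nat_lit 204868) (nat_lit 29) (.e (nat_lit 360466) (nat_lit 3) (.e (nat_lit 516138) (nat_lit 7) (.e (nat_lit 409643) (nat_lit 18) (.e (nat_lit 303119) (nat_lit 3) .nil))))) (.g (nat_lit 1) (.e (nat_lit 230545) (nat_lit 0) .nil) .nil))))) (.nd (nat_lit 8) (.nd (nat_lit 9) 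
(.lf (nat_lit 523418) (.g (nat_lit 4708) (.e (nat_lit 204862) (nat_lit 27) (.e (nat_lit 344133) (nat_lit 26) (.e (nat_lit 557105) (nat_lit 14) (.e (nat_lit 180252) (nat_lit 10) (.e (nat_lit 573474) (nat_lit 12) (.e (nat_lit 57509) (nat_lit 39) (.e (nat_lit 655104) (nat_lit 0) (.e (nat_lit 2684) (nat_lit 168) .nil)))))))) (.g (nat_lit 1) (.e (nat_lit 229492) (nat_lit 0) .nil) .nil))) 
(.lf (nat_lit 523930) (.g (nat_lit 4294) (.e (nat_lit 204864) (nat_lit 27) (.e (nat_lit 344133) (nat_lit 26) (.e (nat_lit 557098) (nat_lit 13) (.e (nat_lit 172133) (nat_lit 15) (.e (nat_lit 1800) (nat_lit 119) (.e (nat_lit 516119) (nat_lit 1) (.e (nat_lit 164345) (nat_lit 240) (.e (nat_lit 2426) (nat_lit 157) (.e (nat_lit 2678) (nat_lit 168) .nil))))))))) (.g (nat_lit 1) (.e (nat_lit 230116) (nat_lit 0) .nil) .nil)))) 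
(.nd (nat_lit 9) 
(.lf (nat_lit 523674) (.g (nat_lit 3356) (.e (nat_lit 204863) (nat_lit 27) (.e (nat_lit 344132) (nat_lit 26) (.e (nat_lit 557105) (nat_lit 14) (.e (nat_lit 180252) (nat_lit 10) (.e (nat_lit 573474) (nat_lit 12) (.e (nat_lit 57347) (nat_lit 0) (.e (nat_lit 5437) (nat_lit 306) (.e (nat_lit 2450) (nat_lit 157) (.e (nat_lit 2685) (nat_lit 168) .nil))))))))) (.g (nat_lit 1) (.e (nat_lit 229823) (nat_lit 0) .nil) .nil))) 
(.lf (nat_lit 524186) (.g (nat_lit 3081) (.e (nat_lit 204868) (nat_lit 29) (.e (nat_lit 360473) (nat_lit 8) (.e (nat_lit 557089) (nat_lit 12) (.e (nat_lit 163843) (nat_lit 0) (.e (nat_lit 6255) (nat_lit 337) (.e (nat_lit 2725) (nat_lit 172) (.e (nat_lit 237594) (nat_lit 3) .nil))))))) (.g (nat_lit 1) (.e (nat_lit 230778) (nat_lit 0) .nil) .nil)))))) 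
(.nd (nat_lit 7) (.nd (nat_lit 8) (.nd (nat_lit 9) 
(.lf (nat_lit 523354) (.g (nat_lit 2616) (.e (nat_lit 204862) (nat_lit 27) (.e (nat_lit 344133) (nat_lit 26) (.e (nat_lit 557103) (nat_lit 14) (.e (nat_lit 180243) (nat_lit 5) (.e (nat_lit 532504) (nat_lit 1) (.e (nat_lit 57703) (nat_lit 164) (.e (nat_lit 2515) (nat_lit 157) (.e (nat_lit 2681) (nat_lit 168) .nil)))))))) (.g (nat_lit 1) (.e (nat_lit 229428) (nat_lit 0) .nil) .nil))) 
(.lf (nat_lit 523866) (.g (nat_lit 2551) (.e (nat_lit 204864) (nat_lit 27) (.e (nat_lit 344130) (nat_lit 26) (.e (nat_lit 557103) (nat_lit 14) (.e (nat_lit 180250) (nat_lit 10) (.e (nat_lit 573475) (nat_lit 12) (.e (nat_lit 57508) (nat_lit 39) (.e (nat_lit 647170) (nat_lit 0) (.e (nat_lit 2685) (nat_lit 168) .nil)))))))) (.g (nat_lit 1) (.e (nat_lit 230052) (nat_lit 0) .nil) .nil)))) 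
(.nd (nat_lit 9) 
(.lf (nat_lit 523610) (.g (nat_lit 2881) (.e (nat_lit 204863) (nat_lit 27) (.e (nat_lit 344131) (nat_lit 26) (.e (nat_lit 557103) (nat_lit 14) (.e (nat_lit 180250) (nat_lit 10) (.e (nat_lit 573475) (nat_lit 12) (.e (nat_lit 57507) (nat_lit 39) (.e (nat_lit 647176) (nat_lit 0) (.e (nat_lit 2681) (nat_lit 168) .nil)))))))) (.g (nat_lit 1) (.e (nat_lit 229758) (nat_lit 0) .nil) .nil))) 
(.lf (nat_lit 524122) (.g (nat_lit 2039) (.e (nat_lit 204868) (nat_lit 29) (.e (nat_lit 360471) (nat_lit 7) (.e (nat_lit 548890) (nat_lit 10) (.e (nat_lit 73781) (nat_lit 32) (.e (nat_lit 2682) (nat_lit 168) .nil))))) (.g (nat_lit 1) (.e (nat_lit 230695) (nat_lit 0) .nil) .nil))))) (.nd (nat_lit 8) (.nd (nat_lit 9) 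
(.lf (nat_lit 523482) (.g (nat_lit 2346) (.e (nat_lit 204863) (nat_lit 27) (.e (nat_lit 344117) (nat_lit 21) (.e (nat_lit 516120) (nat_lit 1) (.e (nat_lit 164183) (nat_lit 154) .nil)))) (.g (nat_lit 0) (.e (nat_lit 229607) (nat_lit 0) .nil) .nil))) 
(.lf (nat_lit 523994) (.g (nat_lit 1721) (.e (nat_lit 204865) (nat_lit 28) (.e (nat_lit 352315) (nat_lit 23) (.e (nat_lit 98350) (nat_lit 24) (.e (nat_lit 409643) (nat_lit 18) .nil)))) (.g (nat_lit 0) (.e (nat_lit 230248) (nat_lit 0) .nil) .nil)))) (.nd (nat_lit 9) 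
(.lf (nat_lit 523738) (.g (nat_lit 2835) (.e (nat_lit 204863) (nat_lit 27) (.e (nat_lit 344133) (nat_lit 26) (.e (nat_lit 557098) (nat_lit 13) (.e (nat_lit 172133) (nat_lit 15) (.e (nat_lit 1800) (nat_lit 119) (.e (nat_lit 516119) (nat_lit 1) (.e (nat_lit 164345) (nat_lit 240) (.e (nat_lit 2458) (nat_lit 157) (.e (nat_lit 2683) (nat_lit 168) .nil))))))))) (.g (nat_lit 1) (.e (nat_lit 229889) (nat_lit 0) .nil) .nil))) 
(.lf (nat_lit 524250) (.g (nat_lit 2632) (.e (nat_lit 204868) (nat_lit 29) (.e (nat_lit 360473) (nat_lit 8) (.e (nat_lit 557091) (nat_lit 12) (.e (nat_lit 164017) (nat_lit 44) (.e (nat_lit 688138) (nat_lit 5) (.e (nat_lit 2887) (nat_lit 184) (.e (nat_lit 426132) (nat_lit 3) .nil))))))) (.g (nat_lit 1) (.e (nat_lit 230850) (nat_lit 0) .nil) .nil))))))) 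
(.nd (nat_lit 6) (.nd (nat_lit 7) (.nd (nat_lit 8) (.nd (nat_lit 9) 
(.lf (nat_lit 523322) (.g (nat_lit 4181) (.e (nat_lit 204862) (nat_lit 27) (.e (nat_lit 344132) (nat_lit 26) (.e (nat_lit 557105) (nat_lit 14) (.e (nat_lit 180252) (nat_lit 10) (.e (nat_lit 573474) (nat_lit 12) (.e (nat_lit 57507) (nat_lit 39) (.e (nat_lit 655104) (nat_lit 0) (.e (nat_lit 2684) (nat_lit 168) .nil)))))))) (.g (nat_lit 1) (.e (nat_lit 229395) (nat_lit 0) .nil) .nil))) 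
(.lf (nat_lit 523834) (.g (nat_lit 3590) (.e (nat_lit 204863) (nat_lit 27) (.e (nat_lit 344133) (nat_lit 26) (.e (nat_lit 557105) (nat_lit 14) (.e (nat_lit 180252) (nat_lit 10) (.e (nat_lit 573475) (nat_lit 12) (.e (nat_lit 57508) (nat_lit 39) (.e (nat_lit 647177) (nat_lit 0) (.e (nat_lit 2682) (nat_lit 168) .nil)))))))) (.g (nat_lit 1) (.e (nat_lit 229985) (nat_lit 0) .nil) .nil)))) 
(.nd (nat_lit 9) 
(.lf (nat_lit 523578) (.g (nat_lit 3438) (.e (nat_lit 204863) (nat_lit 27) (.e (nat_lit 344130) (nat_lit 26) (.e (nat_lit 557103) (nat_lit 14) (.e (nat_lit 180250) (nat_lit 10) (.e (nat_lit 573474) (nat_lit 12) (.e (nat_lit 57507) (nat_lit 39) (.e (nat_lit 647176) (nat_lit 0) (.e (nat_lit 2681) (nat_lit 168) .nil)))))))) (.g (nat_lit 1) (.e (nat_lit 229726) (nat_lit 0) .nil) .nil))) 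
(.lf (nat_lit 524090) (.g (nat_lit 4055) (.e (nat_lit 204868) (nat_lit 29) (.e (nat_lit 360466) (nat_lit 3) (.e (nat_lit 516142) (nat_lit 8) (.e (nat_lit 417820) (nat_lit 10) (.e (nat_lit 5664) (nat_lit 312) (.e (nat_lit 2679) (nat_lit 168) .nil)))))) (.g (nat_lit 1) (.e (nat_lit 230585) (nat_lit 0) .nil) .nil))))) (.nd (nat_lit 8) (.nd (nat_lit 9) 
(.lf (nat_lit 523450) (.g (nat_lit 2156) (.e (nat_lit 204863) (nat_lit 27) (.e (nat_lit 344117) (nat_lit 21) (.e (nat_lit 516115) (nat_lit 1) (.e (nat_lit 164153) (nat_lit 152) (.e (nat_lit 1027) (nat_lit 81) .nil))))) (.g (nat_lit 0) (.e (nat_lit 229539) (nat_lit 0) .nil) .nil))) 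
(.lf (nat_lit 523962) (.g (nat_lit 3655) (.e (nat_lit 204864) (nat_lit 27) (.e (nat_lit 344133) (nat_lit 26) (.e (nat_lit 557105) (nat_lit 14) (.e (nat_lit 180252) (nat_lit 10) (.e (nat_lit 573495) (nat_lit 16) .nil))))) (.g (nat_lit 0) (.e (nat_lit 230148) (nat_lit 0) .nil) .nil)))) (.nd (nat_lit 9) 
(.lf (nat_lit 523706) (.g (nat_lit 4331) (.e (nat_lit 204863) (nat_lit 27) (.e (nat_lit 344132) (nat_lit 26) (.e (nat_lit 557105) (nat_lit 14) (.e (nat_lit 180252) (nat_lit 10) (.e (nat_lit 573475) (nat_lit 12) (.e (nat_lit 57508) (nat_lit 39) (.e (nat_lit 647170) (nat_lit 0) (.e (nat_lit 2685) (nat_lit 168) .nil)))))))) (.g (nat_lit 1) (.e (nat_lit 229855) (nat_lit 0) .nil) .nil))) 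
(.lf (nat_lit 524218) (.g (nat_lit 2366) (.e (nat_lit 204868) (nat_lit 29) (.e (nat_lit 360473) (nat_lit 8) (.e (nat_lit 557091) (nat_lit 12) (.e (nat_lit 163843) (nat_lit 0) (.e (nat_lit 6254) (nat_lit 337) .nil))))) (.g (nat_lit 0) (.e (nat_lit 230813) (nat_lit 0) .nil) .nil)))))) (.nd (nat_lit 7) (.nd (nat_lit 8) (.nd (nat_lit 9) 
(.lf (nat_lit 523386) (.g (nat_lit 1570) (.e (nat_lit 204862) (nat_lit 27) (.e (nat_lit 344133) (nat_lit 26) (.e (nat_lit 557103) (nat_lit 14) (.e (nat_lit 180252) (nat_lit 10) .nil)))) (.g (nat_lit 0) (.e (nat_lit 229460) (nat_lit 0) .nil) .nil))) 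
(.lf (nat_lit 523898) (.g (nat_lit 2643) (.e (nat_lit 204864) (nat_lit 27) (.e (nat_lit 344132) (nat_lit 26) (.e (nat_lit 557105) (nat_lit 14) (.e (nat_lit 180252) (nat_lit 10) (.e (nat_lit 573452) (nat_lit 9) .nil))))) (.g (nat_lit 0) (.e (nat_lit 230084) (nat_lit 0) .nil) .nil)))) (.nd (nat_lit 9) 
(.lf (nat_lit 523642) (.g (nat_lit 2319) (.e (nat_lit 204863) (nat_lit 27) (.e (nat_lit 344132) (nat_lit 26) (.e (nat_lit 557100) (nat_lit 13) (.e (nat_lit 172062) (nat_lit 2) (.e (nat_lit 204544) (nat_lit 2) .nil))))) (.g (nat_lit 0) (.e (nat_lit 229790) (nat_lit 0) .nil) .nil))) 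
(.lf (nat_lit 524154) (.g (nat_lit 2569) (.e (nat_lit 204868) (nat_lit 29) (.e (nat_lit 360473) (nat_lit 8) (.e (nat_lit 557086) (nat_lit 11) (.e (nat_lit 24665) (nat_lit 14) (.e (nat_lit 401426) (nat_lit 3) .nil))))) (.g (nat_lit 1) (.e (nat_lit 230741) (nat_lit 0) .nil) .nil))))) (.nd (nat_lit 8) (.nd (nat_lit 9) 
(.lf (nat_lit 523514) (.g (nat_lit 3171) (.e (nat_lit 204863) (nat_lit 27) (.e (nat_lit 344118) (nat_lit 21) (.e (nat_lit 516117) (nat_lit 1) (.e (nat_lit 164183) (nat_lit 154) (.e (nat_lit 57373) (nat_lit 2) (.e (nat_lit 90128) (nat_lit 9) (.e (nat_lit 2706) (nat_lit 170) (.e (nat_lit 221214) (nat_lit 23) .nil)))))))) (.g (nat_lit 1) (.e (nat_lit 229647) (nat_lit 0) .nil) .nil))) 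
(.lf (nat_lit 524026) (.g (nat_lit 4254) (.e (nat_lit 204866) (nat_lit 28) (.e (nat_lit 352315) (nat_lit 23) (.e (nat_lit 98350) (nat_lit 24) (.e (nat_lit 409647) (nat_lit 18) (.e (nat_lit 303118) (nat_lit 3) .nil))))) (.g (nat_lit 1) (.e (nat_lit 230412) (nat_lit 0) .nil) .nil)))) (.nd (nat_lit 9) 
(.lf (nat_lit 523770) (.g (nat_lit 1897) (.e (nat_lit 204863) (nat_lit 27) (.e (nat_lit 344133) (nat_lit 26) (.e (nat_lit 557105) (nat_lit 14) (.e (nat_lit 180241) (nat_lit 4) .nil)))) (.g (nat_lit 0) (.e (nat_lit 229921) (nat_lit 0) .nil) .nil))) 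
(.lf (nat_lit 524282) (.g (nat_lit 2154) (.e (nat_lit 204868) (nat_lit 29) (.e (nat_lit 360474) (nat_lit 8) (.e (nat_lit 557089) (nat_lit 12) (.e (nat_lit 164020) (nat_lit 45) .nil)))) (.g (nat_lit 0) (.e (nat_lit 230928) (nat_lit 0) .nil) .nil)))))))))) (.nd (nat_lit 3) (.nd (nat_lit 4) (.nd (nat_lit 5) (.nd (nat_lit 6) (.nd (nat_lit 7) (.nd (nat_lit 8) (.nd (nat_lit 9) 
(.lf (nat_lit 523270) (.g (nat_lit 3127) (.e (nat_lit 204862) (nat_lit 27) (.e (nat_lit 344130) (nat_lit 26) (.e (nat_lit 557104) (nat_lit 14) (.e (nat_lit 180252) (nat_lit 10) (.e (nat_lit 573473) (nat_lit 12) (.e (nat_lit 57508) (nat_lit 39) (.e (nat_lit 655104) (nat_lit 0) (.e (nat_lit 2684) (nat_lit 168) .nil)))))))) (.g (nat_lit 1) (.e (nat_lit 229343) (nat_lit 0) .nil) .nil))) 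
(.lf (nat_lit 523782) (.g (nat_lit 3632) (.e (nat_lit 204863) (nat_lit 27) (.e (nat_lit 344133) (nat_lit 26) (.e (nat_lit 557105) (nat_lit 14) (.e (nat_lit 180252) (nat_lit 10) (.e (nat_lit 573473) (nat_lit 12) (.e (nat_lit 57508) (nat_lit 39) (.e (nat_lit 647168) (nat_lit 0) (.e (nat_lit 2685) (nat_lit 168) .nil)))))))) (.g (nat_lit 1) (.e (nat_lit 229933) (nat_lit 0) .nil) .nil)))) 
(.nd (nat_lit 9) 
(.lf (nat_lit 523526) (.g (nat_lit 2310) (.e (nat_lit 204863) (nat_lit 27) (.e (nat_lit 344127) (nat_lit 26) (.e (nat_lit 557104) (nat_lit 14) (.e (nat_lit 180252) (nat_lit 10) (.e (nat_lit 573473) (nat_lit 12) (.e (nat_lit 57507) (nat_lit 39) (.e (nat_lit 655104) (nat_lit 0) (.e (nat_lit 2684) (nat_lit 168) .nil)))))))) (.g (nat_lit 1) (.e (nat_lit 229670) (nat_lit 0) .nil) .nil))) 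
(.lf (nat_lit 524038) (.g (nat_lit 689) (.e (nat_lit 204867) (nat_lit 28) (.e (nat_lit 352315) (nat_lit 23) (.e (nat_lit 98328) (nat_lit 17) .nil))) (.g (nat_lit 0) (.e (nat_lit 230468) (nat_lit 0) .nil) .nil))))) (.nd (nat_lit 8) (.nd (nat_lit 9) 
(.lf (nat_lit 523398) (.g (nat_lit 4551) (.e (nat_lit 204862) (nat_lit 27) (.e (nat_lit 344133) (nat_lit 26) (.e (nat_lit 557105) (nat_lit 14) (.e (nat_lit 180252) (nat_lit 10) (.e (nat_lit 573473) (nat_lit 12) (.e (nat_lit 57507) (nat_lit 39) (.e (nat_lit 655104) (nat_lit 0) (.e (nat_lit 2684) (nat_lit 168) .nil)))))))) (.g (nat_lit 1) (.e (nat_lit 229472) (nat_lit 0) .nil) .nil))) 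
(.lf (nat_lit 523910) (.g (nat_lit 3318) (.e (nat_lit 204864) (nat_lit 27) (.e (nat_lit 344132) (nat_lit 26) (.e (nat_lit 557105) (nat_lit 14) (.e (nat_lit 180252) (nat_lit 10) (.e (nat_lit 573474) (nat_lit 12) (.e (nat_lit 57507) (nat_lit 39) (.e (nat_lit 647170) (nat_lit 0) (.e (nat_lit 2680) (nat_lit 168) .nil)))))))) (.g (nat_lit 1) (.e (nat_lit 230096) (nat_lit 0) .nil) .nil)))) 
(.nd (nat_lit 9) 
(.lf (nat_lit 523654) (.g (nat_lit 1786) (.e (nat_lit 204863) (nat_lit 27) (.e (nat_lit 344132) (nat_lit 26) (.e (nat_lit 557100) (nat_lit 13) (.e (nat_lit 179968) (nat_lit 15) .nil)))) (.g (nat_lit 0) (.e (nat_lit 229802) (nat_lit 0) .nil) .nil))) 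
(.lf (nat_lit 524166) (.g (nat_lit 1897) (.e (nat_lit 204868) (nat_lit 29) (.e (nat_lit 360473) (nat_lit 8) (.e (nat_lit 557087) (nat_lit 11) (.e (nat_lit 24581) (nat_lit 0) (.e (nat_lit 7936) (nat_lit 357) (.e (nat_lit 2679) (nat_lit 168) .nil)))))) (.g (nat_lit 1) (.e (nat_lit 230755) (nat_lit 0) .nil) .nil)))))) (.nd (nat_lit 7) (.nd (nat_lit 8) (.nd (nat_lit 9) 
(.lf (nat_lit 523334) (.g (nat_lit 1593) (.e (nat_lit 204862) (nat_lit 27) (.e (nat_lit 344133) (nat_lit 26) (.e (nat_lit 557098) (nat_lit 13) (.e (nat_lit 172051) (nat_lit 0) .nil)))) (.g (nat_lit 0) (.e (nat_lit 229408) (nat_lit 0) .nil) .nil))) 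
(.lf (nat_lit 523846) (.g (nat_lit 1743) (.e (nat_lit 204863) (nat_lit 27) (.e (nat_lit 344169) (nat_lit 40) (.e (nat_lit 671759) (nat_lit 3) (.e (nat_lit 57474) (nat_lit 28) (.e (nat_lit 557101) (nat_lit 13) .nil))))) (.g (nat_lit 0) (.e (nat_lit 229998) (nat_lit 0) .nil) .nil)))) (.nd (nat_lit 9) 
(.lf (nat_lit 523590) (.g (nat_lit 2454) (.e (nat_lit 204863) (nat_lit 27) (.e (nat_lit 344130) (nat_lit 26) (.e (nat_lit 557104) (nat_lit 14) (.e (nat_lit 180252) (nat_lit 10) (.e (nat_lit 573473) (nat_lit 12) (.e (nat_lit 57508) (nat_lit 39) (.e (nat_lit 655104) (nat_lit 0) (.e (nat_lit 2684) (nat_lit 168) .nil)))))))) (.g (nat_lit 1) (.e (nat_lit 229738) (nat_lit 0) .nil) .nil))) 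
(.lf (nat_lit 524102) (.g (nat_lit 283) (.e (nat_lit 204868) (nat_lit 29) (.e (nat_lit 360467) (nat_lit 3) (.e (nat_lit 516139) (nat_lit 7) .nil))) (.g (nat_lit 0) (.e (nat_lit 230672) (nat_lit 0) .nil) .nil))))) (.nd (nat_lit 8) (.nd (nat_lit 9) 
(.lf (nat_lit 523462) (.g (nat_lit 3864) (.e (nat_lit 204863) (nat_lit 27) (.e (nat_lit 344117) (nat_lit 21) (.e (nat_lit 516115) (nat_lit 1) (.e (nat_lit 164182) (nat_lit 154) (.e (nat_lit 57375) (nat_lit 2) (.e (nat_lit 90128) (nat_lit 9) (.e (nat_lit 2706) (nat_lit 170) (.e (nat_lit 221214) (nat_lit 23) .nil)))))))) (.g (nat_lit 1) (.e (nat_lit 229561) (nat_lit 0) .nil) .nil))) 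
(.lf (nat_lit 523974) (.g (nat_lit 2757) (.e (nat_lit 204865) (nat_lit 28) (.e (nat_lit 352277) (nat_lit 11) (.e (nat_lit 426500) (nat_lit 27) (.e (nat_lit 335986) (nat_lit 1) (.e (nat_lit 57927) (nat_lit 282) (.e (nat_lit 163875) (nat_lit 3) .nil)))))) (.g (nat_lit 1) (.e (nat_lit 230207) (nat_lit 0) .nil) .nil)))) (.nd (nat_lit 9) 
(.lf (nat_lit 523718) (.g (nat_lit 2519) (.e (nat_lit 204863) (nat_lit 27) (.e (nat_lit 344132) (nat_lit 26) (.e (nat_lit 557105) (nat_lit 14) (.e (nat_lit 180252) (nat_lit 10) (.e (nat_lit 581376) (nat_lit 19) (.e (nat_lit 57881) (nat_lit 270) (.e (nat_lit 174) (nat_lit 12) .nil))))))) (.g (nat_lit 1) (.e (nat_lit 229867) (nat_lit 0) .nil) .nil))) 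
(.lf (nat_lit 524230) (.g (nat_lit 2358) (.e (nat_lit 204868) (nat_lit 29) (.e (nat_lit 360473) (nat_lit 8) (.e (nat_lit 557091) (nat_lit 12) (.e (nat_lit 163843) (nat_lit 0) (.e (nat_lit 6420) (nat_lit 341) .nil))))) (.g (nat_lit 0) (.e (nat_lit 230827) (nat_lit 0) .nil) .nil))))))) (.nd (nat_lit 6) (.nd (nat_lit 7) (.nd (nat_lit 8) (.nd (nat_lit 9) 
(.lf (nat_lit 523302) (.g (nat_lit 1621) (.e (nat_lit 204862) (nat_lit 27) (.e (nat_lit 344132) (nat_lit 26) (.e (nat_lit 557101) (nat_lit 13) (.e (nat_lit 172051) (nat_lit 0) (.e (nat_lit 3289) (nat_lit 201) (.e (nat_lit 565265) (nat_lit 4) (.e (nat_lit 73472) (nat_lit 18) .nil))))))) (.g (nat_lit 1) (.e (nat_lit 229375) (nat_lit 0) .nil) .nil))) 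
(.lf (nat_lit 523814) (.g (nat_lit 3182) (.e (nat_lit 204863) (nat_lit 27) (.e (nat_lit 344133) (nat_lit 26) (.e (nat_lit 557105) (nat_lit 14) (.e (nat_lit 180252) (nat_lit 10) (.e (nat_lit 573474) (nat_lit 12) (.e (nat_lit 57510) (nat_lit 39) (.e (nat_lit 647168) (nat_lit 0) (.e (nat_lit 2685) (nat_lit 168) .nil)))))))) (.g (nat_lit 1) (.e (nat_lit 229965) (nat_lit 0) .nil) .nil)))) 
(.nd (nat_lit 9) 
(.lf (nat_lit 523558) (.g (nat_lit 3357) (.e (nat_lit 204863) (nat_lit 27) (.e (nat_lit 344129) (nat_lit 26) (.e (nat_lit 557104) (nat_lit 14) (.e (nat_lit 180252) (nat_lit 10) (.e (nat_lit 573473) (nat_lit 12) (.e (nat_lit 57511) (nat_lit 39) (.e (nat_lit 655104) (nat_lit 0) (.e (nat_lit 2684) (nat_lit 168) .nil)))))))) (.g (nat_lit 1) (.e (nat_lit 229706) (nat_lit 0) .nil) .nil))) 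
(.lf (nat_lit 524070) (.g (nat_lit 3373) (.e (nat_lit 204868) (nat_lit 29) (.e (nat_lit 360466) (nat_lit 3) (.e (nat_lit 516139) (nat_lit 7) (.e (nat_lit 409616) (nat_lit 10) (.e (nat_lit 5665) (nat_lit 312) (.e (nat_lit 2679) (nat_lit 168) .nil)))))) (.g (nat_lit 1) (.e (nat_lit 230557) (nat_lit 0) .nil) .nil))))) (.nd (nat_lit 8) (.nd (nat_lit 9) 
(.lf (nat_lit 523430) (.g (nat_lit 3447) (.e (nat_lit 204862) (nat_lit 27) (.e (nat_lit 344133) (nat_lit 26) (.e (nat_lit 557105) (nat_lit 14) (.e (nat_lit 180252) (nat_lit 10) (.e (nat_lit 573475) (nat_lit 12) (.e (nat_lit 57508) (nat_lit 39) (.e (nat_lit 647168) (nat_lit 0) (.e (nat_lit 2685) (nat_lit 168) .nil)))))))) (.g (nat_lit 1) (.e (nat_lit 229504) (nat_lit 0) .nil) .nil))) 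
(.lf (nat_lit 523942) (.g (nat_lit 1875) (.e (nat_lit 204864) (nat_lit 27) (.e (nat_lit 344133) (nat_lit 26) (.e (nat_lit 557105) (nat_lit 14) (.e (nat_lit 180245) (nat_lit 5) .nil)))) (.g (nat_lit 0) (.e (nat_lit 230128) (nat_lit 0) .nil) .nil)))) (.nd (nat_lit 9) 
(.lf (nat_lit 523686) (.g (nat_lit 3459) (.e (nat_lit 204863) (nat_lit 27) (.e (nat_lit 344132) (nat_lit 26) (.e (nat_lit 557105) (nat_lit 14) (.e (nat_lit 180252) (nat_lit 10) (.e (nat_lit 573474) (nat_lit 12) (.e (nat_lit 57507) (nat_lit 39) (.e (nat_lit 647177) (nat_lit 0) (.e (nat_lit 2682) (nat_lit 168) .nil)))))))) (.g (nat_lit 1) (.e (nat_lit 229835) (nat_lit 0) .nil) .nil))) 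
(.lf (nat_lit 524198) (.g (nat_lit 1047) (.e (nat_lit 204868) (nat_lit 29) (.e (nat_lit 360473) (nat_lit 8) (.e (nat_lit 557089) (nat_lit 12) (.e (nat_lit 163848) (nat_lit 0) .nil)))) (.g (nat_lit 0) (.e (nat_lit 230791) (nat_lit 0) .nil) .nil)))))) (.nd (nat_lit 7) (.nd (nat_lit 8) (.nd (nat_lit 9) 
(.lf (nat_lit 523366) (.g (nat_lit 3354) (.e (nat_lit 204862) (nat_lit 27) (.e (nat_lit 344133) (nat_lit 26) (.e (nat_lit 557103) (nat_lit 14) (.e (nat_lit 180250) (nat_lit 10) (.e (nat_lit 573474) (nat_lit 12) (.e (nat_lit 57506) (nat_lit 39) (.e (nat_lit 655104) (nat_lit 0) (.e (nat_lit 2684) (nat_lit 168) .nil)))))))) (.g (nat_lit 1) (.e (nat_lit 229440) (nat_lit 0) .nil) .nil))) 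
(.lf (nat_lit 523878) (.g (nat_lit 2157) (.e (nat_lit 204864) (nat_lit 27) (.e (nat_lit 344130) (nat_lit 26) (.e (nat_lit 557104) (nat_lit 14) (.e (nat_lit 180252) (nat_lit 10) (.e (nat_lit 581376) (nat_lit 19) (.e (nat_lit 57881) (nat_lit 270) (.e (nat_lit 174) (nat_lit 12) .nil))))))) (.g (nat_lit 1) (.e (nat_lit 230064) (nat_lit 0) .nil) .nil)))) (.nd (nat_lit 9) 
(.lf (nat_lit 523622) (.g (nat_lit 2457) (.e (nat_lit 204863) (nat_lit 27) (.e (nat_lit 344131) (nat_lit 26) (.e (nat_lit 557105) (nat_lit 14) (.e (nat_lit 180252) (nat_lit 10) (.e (nat_lit 573474) (nat_lit 12) (.e (nat_lit 57348) (nat_lit 0) (.e (nat_lit 5437) (nat_lit 306) (.e (nat_lit 2450) (nat_lit 157) (.e (nat_lit 2685) (nat_lit 168) .nil))))))))) (.g (nat_lit 1) (.e (nat_lit 229770) (nat_lit 0) .nil) .nil))) 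
(.lf (nat_lit 524134) (.g (nat_lit 2135) (.e (nat_lit 204868) (nat_lit 29) (.e (nat_lit 360473) (nat_lit 8) (.e (nat_lit 557067) (nat_lit 9) (.e (nat_lit 220) (nat_lit 20) .nil)))) (.g (nat_lit 0) (.e (nat_lit 230713) (nat_lit 0) .nil) .nil))))) (.nd (nat_lit 8) (.nd (nat_lit 9) 
(.lf (nat_lit 523494) (.g (nat_lit 1603) (.e (nat_lit 204863) (nat_lit 27) (.e (nat_lit 344117) (nat_lit 21) (.e (nat_lit 516130) (nat_lit 3) (.e (nat_lit 221212) (nat_lit 22) (.e (nat_lit 196658) (nat_lit 12) .nil))))) (.g (nat_lit 0) (.e (nat_lit 229619) (nat_lit 0) .nil) .nil))) 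
(.lf (nat_lit 524006) (.g (nat_lit 1154) (.e (nat_lit 204866) (nat_lit 28) (.e (nat_lit 352274) (nat_lit 11) (.e (nat_lit 426108) (nat_lit 1) (.e (nat_lit 164183) (nat_lit 154) .nil)))) (.g (nat_lit 0) (.e (nat_lit 230301) (nat_lit 0) .nil) .nil)))) (.nd (nat_lit 9) 
(.lf (nat_lit 523750) (.g (nat_lit 3877) (.e (nat_lit 204863) (nat_lit 27) (.e (nat_lit 344133) (nat_lit 26) (.e (nat_lit 557103) (nat_lit 14) (.e (nat_lit 180250) (nat_lit 10) (.e (nat_lit 573473) (nat_lit 12) (.e (nat_lit 57508) (nat_lit 39) (.e (nat_lit 647170) (nat_lit 0) (.e (nat_lit 2685) (nat_lit 168) .nil)))))))) (.g (nat_lit 1) (.e (nat_lit 229901) (nat_lit 0) .nil) .nil))) 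
(.lf (nat_lit 524262) (.g (nat_lit 429) (.e (nat_lit 204868) (nat_lit 29) (.e (nat_lit 360473) (nat_lit 8) (.e (nat_lit 557093) (nat_lit 12) .nil))) (.g (nat_lit 0) (.e (nat_lit 230876) (nat_lit 0) .nil) .nil)))))))) (.nd (nat_lit 5) (.nd (nat_lit 6) (.nd (nat_lit 7) (.nd (nat_lit 8) (.nd (nat_lit 9) 
(.lf (nat_lit 523286) (.g (nat_lit 2095) (.e (nat_lit 204862) (nat_lit 27) (.e (nat_lit 344131) (nat_lit 26) (.e (nat_lit 557105) (nat_lit 14) (.e (nat_lit 180252) (nat_lit 10) (.e (nat_lit 573474) (nat_lit 12) .nil))))) (.g (nat_lit 0) (.e (nat_lit 229359) (nat_lit 0) .nil) .nil))) 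
(.lf (nat_lit 523798) (.g (nat_lit 2998) (.e (nat_lit 204863) (nat_lit 27) (.e (nat_lit 344133) (nat_lit 26) (.e (nat_lit 557105) (nat_lit 14) (.e (nat_lit 180252) (nat_lit 10) (.e (nat_lit 573474) (nat_lit 12) (.e (nat_lit 57506) (nat_lit 39) (.e (nat_lit 647168) (nat_lit 0) (.e (nat_lit 2685) (nat_lit 168) .nil)))))))) (.g (nat_lit 1) (.e (nat_lit 229949) (nat_lit 0) .nil) .nil)))) 
(.nd (nat_lit 9) 
(.lf (nat_lit 523542) (.g (nat_lit 3352) (.e (nat_lit 204863) (nat_lit 27) (.e (nat_lit 344129) (nat_lit 26) (.e (nat_lit 557103) (nat_lit 14) (.e (nat_lit 180250) (nat_lit 10) (.e (nat_lit 573473) (nat_lit 12) (.e (nat_lit 57511) (nat_lit 39) (.e (nat_lit 655104) (nat_lit 0) (.e (nat_lit 2684) (nat_lit 168) .nil)))))))) (.g (nat_lit 1) (.e (nat_lit 229690) (nat_lit 0) .nil) .nil))) 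
(.lf (nat_lit 524054) (.g (nat_lit 2400) (.e (nat_lit 204868) (nat_lit 29) (.e (nat_lit 360466) (nat_lit 3) (.e (nat_lit 516138) (nat_lit 7) (.e (nat_lit 409617) (nat_lit 10) (.e (nat_lit 7936) (nat_lit 312) (.e (nat_lit 2685) (nat_lit 168) .nil)))))) (.g (nat_lit 1) (.e (nat_lit 230541) (nat_lit 0) .nil) .nil))))) (.nd (nat_lit 8) (.nd (nat_lit 9) 
(.lf (nat_lit 523414) (.g (nat_lit 3944) (.e (nat_lit 204862) (nat_lit 27) (.e (nat_lit 344133) (nat_lit 26) (.e (nat_lit 557105) (nat_lit 14) (.e (nat_lit 180252) (nat_lit 10) (.e (nat_lit 573474) (nat_lit 12) (.e (nat_lit 57508) (nat_lit 39) (.e (nat_lit 647168) (nat_lit 0) (.e (nat_lit 2685) (nat_lit 168) .nil)))))))) (.g (nat_lit 1) (.e (nat_lit 229488) (nat_lit 0) .nil) .nil))) 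
(.lf (nat_lit 523926) (.g (nat_lit 2652) (.e (nat_lit 204864) (nat_lit 27) (.e (nat_lit 344133) (nat_lit 26) (.e (nat_lit 557098) (nat_lit 13) (.e (nat_lit 172067) (nat_lit 3) (.e (nat_lit 204821) (nat_lit 17) .nil))))) (.g (nat_lit 0) (.e (nat_lit 230112) (nat_lit 0) .nil) .nil)))) (.nd (nat_lit 9) 
(.lf (nat_lit 523670) (.g (nat_lit 2321) (.e (nat_lit 204863) (nat_lit 27) (.e (nat_lit 344132) (nat_lit 26) (.e (nat_lit 557105) (nat_lit 14) (.e (nat_lit 180252) (nat_lit 10) (.e (nat_lit 573473) (nat_lit 12) (.e (nat_lit 57508) (nat_lit 39) (.e (nat_lit 647171) (nat_lit 0) (.e (nat_lit 2681) (nat_lit 168) .nil)))))))) (.g (nat_lit 1) (.e (nat_lit 229819) (nat_lit 0) .nil) .nil))) 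
(.lf (nat_lit 524182) (.g (nat_lit 1158) (.e (nat_lit 204868) (nat_lit 29) (.e (nat_lit 360473) (nat_lit 8) (.e (nat_lit 557089) (nat_lit 12) (.e (nat_lit 163843) (nat_lit 0) .nil)))) (.g (nat_lit 0) (.e (nat_lit 230774) (nat_lit 0) .nil) .nil)))))) (.nd (nat_lit 7) (.nd (nat_lit 8) (.nd (nat_lit 9) 
(.lf (nat_lit 523350) (.g (nat_lit 2557) (.e (nat_lit 204862) (nat_lit 27) (.e (nat_lit 344133) (nat_lit 26) (.e (nat_lit 557103) (nat_lit 14) (.e (nat_lit 180243) (nat_lit 5) (.e (nat_lit 532501) (nat_lit 1) (.e (nat_lit 57703) (nat_lit 164) (.e (nat_lit 2416) (nat_lit 157) (.e (nat_lit 2685) (nat_lit 168) .nil)))))))) (.g (nat_lit 1) (.e (nat_lit 229424) (nat_lit 0) .nil) .nil))) 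
(.lf (nat_lit 523862) (.g (nat_lit 2443) (.e (nat_lit 204864) (nat_lit 27) (.e (nat_lit 344130) (nat_lit 26) (.e (nat_lit 557103) (nat_lit 14) (.e (nat_lit 180250) (nat_lit 10) (.e (nat_lit 573473) (nat_lit 12) (.e (nat_lit 57507) (nat_lit 39) (.e (nat_lit 647170) (nat_lit 0) (.e (nat_lit 2685) (nat_lit 168) .nil)))))))) (.g (nat_lit 1) (.e (nat_lit 230048) (nat_lit 0) .nil) .nil)))) 
(.nd (nat_lit 9) 
(.lf (nat_lit 523606) (.g (nat_lit 2644) (.e (nat_lit 204863) (nat_lit 27) (.e (nat_lit 344131) (nat_lit 26) (.e (nat_lit 557103) (nat_lit 14) (.e (nat_lit 180243) (nat_lit 5) (.e (nat_lit 532504) (nat_lit 1) (.e (nat_lit 57703) (nat_lit 164) (.e (nat_lit 2515) (nat_lit 157) (.e (nat_lit 2681) (nat_lit 168) .nil)))))))) (.g (nat_lit 1) (.e (nat_lit 229754) (nat_lit 0) .nil) .nil))) 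
(.lf (nat_lit 524118) (.g (nat_lit 484) (.e (nat_lit 204868) (nat_lit 29) (.e (nat_lit 360467) (nat_lit 3) (.e (nat_lit 516142) (nat_lit 8) .nil))) (.g (nat_lit 0) (.e (nat_lit 230688) (nat_lit 0) .nil) .nil))))) (.nd (nat_lit 8) (.nd (nat_lit 9) 
(.lf (nat_lit 523478) (.g (nat_lit 2165) (.e (nat_lit 204863) (nat_lit 27) (.e (nat_lit 344117) (nat_lit 21) (.e (nat_lit 516116) (nat_lit 1) (.e (nat_lit 164183) (nat_lit 154) (.e (nat_lit 57378) (nat_lit 3) .nil))))) (.g (nat_lit 0) (.e (nat_lit 229603) (nat_lit 0) .nil) .nil))) 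
(.lf (nat_lit 523990) (.g (nat_lit 1428) (.e (nat_lit 204865) (nat_lit 28) (.e (nat_lit 352315) (nat_lit 23) (.e (nat_lit 98349) (nat_lit 24) (.e (nat_lit 409647) (nat_lit 18) .nil)))) (.g (nat_lit 0) (.e (nat_lit 230243) (nat_lit 0) .nil) .nil)))) (.nd (nat_lit 9) 
(.lf (nat_lit 523734) (.g (nat_lit 2119) (.e (nat_lit 204863) (nat_lit 27) (.e (nat_lit 344133) (nat_lit 26) (.e (nat_lit 557098) (nat_lit 13) (.e (nat_lit 172133) (nat_lit 15) (.e (nat_lit 1800) (nat_lit 119) .nil))))) (.g (nat_lit 0) (.e (nat_lit 229885) (nat_lit 0) .nil) .nil))) 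
(.lf (nat_lit 524246) (.g (nat_lit 2809) (.e (nat_lit 204868) (nat_lit 29) (.e (nat_lit 360473) (nat_lit 8) (.e (nat_lit 557091) (nat_lit 12) (.e (nat_lit 163850) (nat_lit 0) (.e (nat_lit 6425) (nat_lit 342) (.e (nat_lit 229402) (nat_lit 12) (.e (nat_lit 426136) (nat_lit 3) .nil))))))) (.g (nat_lit 1) (.e (nat_lit 230845) (nat_lit 0) .nil) .nil))))))) 
(.nd (nat_lit 6) (.nd (nat_lit 7) (.nd (nat_lit 8) (.nd (nat_lit 9) 
(.lf (nat_lit 523318) (.g (nat_lit 2679) (.e (nat_lit 204862) (nat_lit 27) (.e (nat_lit 344132) (nat_lit 26) (.e (nat_lit 557105) (nat_lit 14) (.e (nat_lit 180252) (nat_lit 10) (.e (nat_lit 573473) (nat_lit 12) (.e (nat_lit 57507) (nat_lit 39) (.e (nat_lit 655104) (nat_lit 0) (.e (nat_lit 2685) (nat_lit 168) .nil)))))))) (.g (nat_lit 1) (.e (nat_lit 229391) (nat_lit 0) .nil) .nil))) 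
(.lf (nat_lit 523830) (.g (nat_lit 3661) (.e (nat_lit 204863) (nat_lit 27) (.e (nat_lit 344133) (nat_lit 26) (.e (nat_lit 557105) (nat_lit 14) (.e (nat_lit 180252) (nat_lit 10) (.e (nat_lit 573475) (nat_lit 12) (.e (nat_lit 57507) (nat_lit 39) (.e (nat_lit 655104) (nat_lit 0) (.e (nat_lit 2685) (nat_lit 168) .nil)))))))) (.g (nat_lit 1) (.e (nat_lit 229981) (nat_lit 0) .nil) .nil)))) 
(.nd (nat_lit 9) 
(.lf (nat_lit 523574) (.g (nat_lit 3289) (.e (nat_lit 204863) (nat_lit 27) (.e (nat_lit 344130) (nat_lit 26) (.e (nat_lit 557103) (nat_lit 14) (.e (nat_lit 180243) (nat_lit 5) (.e (nat_lit 532501) (nat_lit 1) (.e (nat_lit 57703) (nat_lit 164) (.e (nat_lit 2515) (nat_lit 157) (.e (nat_lit 2681) (nat_lit 168) .nil)))))))) (.g (nat_lit 1) (.e (nat_lit 229722) (nat_lit 0) .nil) .nil))) 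
(.lf (nat_lit 524086) (.g (nat_lit 3023) (.e (nat_lit 204868) (nat_lit 29) (.e (nat_lit 360466) (nat_lit 3) (.e (nat_lit 516141) (nat_lit 8) (.e (nat_lit 417830) (nat_lit 19) (.e (nat_lit 311315) (nat_lit 3) .nil))))) (.g (nat_lit 1) (.e (nat_lit 230576) (nat_lit 0) .nil) .nil))))) (.nd (nat_lit 8) (.nd (nat_lit 9) 
(.lf (nat_lit 523446) (.g (nat_lit 2182) (.e (nat_lit 204863) (nat_lit 27) (.e (nat_lit 344068) (nat_lit 0) (.e (nat_lit 2664) (nat_lit 167) (.e (nat_lit 196668) (nat_lit 14) (.e (nat_lit 73782) (nat_lit 32) (.e (nat_lit 2682) (nat_lit 168) .nil)))))) (.g (nat_lit 1) (.e (nat_lit 229530) (nat_lit 0) .nil) .nil))) 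
(.lf (nat_lit 523958) (.g (nat_lit 3003) (.e (nat_lit 204864) (nat_lit 27) (.e (nat_lit 344133) (nat_lit 26) (.e (nat_lit 557105) (nat_lit 14) (.e (nat_lit 180252) (nat_lit 10) (.e (nat_lit 573474) (nat_lit 12) (.e (nat_lit 57511) (nat_lit 39) (.e (nat_lit 647168) (nat_lit 0) (.e (nat_lit 2685) (nat_lit 168) .nil)))))))) (.g (nat_lit 1) (.e (nat_lit 230144) (nat_lit 0) .nil) .nil)))) 
(.nd (nat_lit 9) 
(.lf (nat_lit 523702) (.g (nat_lit 2470) (.e (nat_lit 204863) (nat_lit 27) (.e (nat_lit 344132) (nat_lit 26) (.e (nat_lit 557105) (nat_lit 14) (.e (nat_lit 180252) (nat_lit 10) (.e (nat_lit 573475) (nat_lit 12) (.e (nat_lit 57507) (nat_lit 39) (.e (nat_lit 647176) (nat_lit 0) (.e (nat_lit 2683) (nat_lit 168) .nil)))))))) (.g (nat_lit 1) (.e (nat_lit 229851) (nat_lit 0) .nil) .nil))) 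
(.lf (nat_lit 524214) (.g (nat_lit 1355) (.e (nat_lit 204868) (nat_lit 29) (.e (nat_lit 360473) (nat_lit 8) (.e (nat_lit 557091) (nat_lit 12) (.e (nat_lit 163840) (nat_lit 0) .nil)))) (.g (nat_lit 0) (.e (nat_lit 230808) (nat_lit 0) .nil) .nil)))))) (.nd (nat_lit 7) (.nd (nat_lit 8) (.nd (nat_lit 9) 
(.lf (nat_lit 523382) (.g (nat_lit 2605) (.e (nat_lit 204862) (nat_lit 27) (.e (nat_lit 344133) (nat_lit 26) (.e (nat_lit 557103) (nat_lit 14) (.e (nat_lit 180250) (nat_lit 10) (.e (nat_lit 573476) (nat_lit 12) (.e (nat_lit 57511) (nat_lit 39) (.e (nat_lit 655104) (nat_lit 0) (.e (nat_lit 2684) (nat_lit 168) .nil)))))))) (.g (nat_lit 1) (.e (nat_lit 229456) (nat_lit 0) .nil) .nil))) 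
(.lf (nat_lit 523894) (.g (nat_lit 1510) (.e (nat_lit 204864) (nat_lit 27) (.e (nat_lit 344132) (nat_lit 26) (.e (nat_lit 557105) (nat_lit 14) (.e (nat_lit 188160) (nat_lit 3) .nil)))) (.g (nat_lit 0) (.e (nat_lit 230080) (nat_lit 0) .nil) .nil)))) (.nd (nat_lit 9) 
(.lf (nat_lit 523638) (.g (nat_lit 3362) (.e (nat_lit 204863) (nat_lit 27) (.e (nat_lit 344131) (nat_lit 26) (.e (nat_lit 557105) (nat_lit 14) (.e (nat_lit 180252) (nat_lit 10) (.e (nat_lit 573475) (nat_lit 12) (.e (nat_lit 57509) (nat_lit 39) (.e (nat_lit 655104) (nat_lit 0) (.e (nat_lit 2684) (nat_lit 168) .nil)))))))) (.g (nat_lit 1) (.e (nat_lit 229786) (nat_lit 0) .nil) .nil))) 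
(.lf (nat_lit 524150) (.g (nat_lit 3387) (.e (nat_lit 204868) (nat_lit 29) (.e (nat_lit 360473) (nat_lit 8) (.e (nat_lit 557086) (nat_lit 11) (.e (nat_lit 24662) (nat_lit 14) (.e (nat_lit 401428) (nat_lit 3) .nil))))) (.g (nat_lit 1) (.e (nat_lit 230737) (nat_lit 0) .nil) .nil))))) (.nd (nat_lit 8) (.nd (nat_lit 9) 
(.lf (nat_lit 523510) (.g (nat_lit 3443) (.e (nat_lit 204863) (nat_lit 27) (.e (nat_lit 344118) (nat_lit 21) (.e (nat_lit 516115) (nat_lit 1) (.e (nat_lit 164179) (nat_lit 154) (.e (nat_lit 57375) (nat_lit 2) (.e (nat_lit 90128) (nat_lit 9) (.e (nat_lit 2706) (nat_lit 170) (.e (nat_lit 221214) (nat_lit 23) .nil)))))))) (.g (nat_lit 1) (.e (nat_lit 229643) (nat_lit 0) .nil) .nil))) 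
(.lf (nat_lit 524022) (.g (nat_lit 920) (.e (nat_lit 204866) (nat_lit 28) (.e (nat_lit 352314) (nat_lit 23) (.e (nat_lit 98350) (nat_lit 24) (.e (nat_lit 417536) (nat_lit 18) .nil)))) (.g (nat_lit 0) (.e (nat_lit 230390) (nat_lit 0) .nil) .nil)))) (.nd (nat_lit 9) 
(.lf (nat_lit 523766) (.g (nat_lit 1721) (.e (nat_lit 204863) (nat_lit 27) (.e (nat_lit 344133) (nat_lit 26) (.e (nat_lit 557103) (nat_lit 14) (.e (nat_lit 180248) (nat_lit 9) .nil)))) (.g (nat_lit 0) (.e (nat_lit 229917) (nat_lit 0) .nil) .nil))) 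
(.lf (nat_lit 524278) (.g (nat_lit 1482) (.e (nat_lit 204868) (nat_lit 29) (.e (nat_lit 360474) (nat_lit 8) (.e (nat_lit 557072) (nat_lit 9) (.e (nat_lit 2741) (nat_lit 174) (.e (nat_lit 253990) (nat_lit 11) .nil))))) (.g (nat_lit 0) (.e (nat_lit 230923) (nat_lit 0) .nil) .nil))))))))) (.nd (nat_lit 4) (.nd (nat_lit 5) (.nd (nat_lit 6) (.nd (nat_lit 7) (.nd (nat_lit 8) (.nd (nat_lit 9) 
(.lf (nat_lit 523278) (.g (nat_lit 1808) (.e (nat_lit 204862) (nat_lit 27) (.e (nat_lit 344130) (nat_lit 26) (.e (nat_lit 557104) (nat_lit 14) (.e (nat_lit 180252) (nat_lit 10) (.e (nat_lit 573475) (nat_lit 12) .nil))))) (.g (nat_lit 0) (.e (nat_lit 229351) (nat_lit 0) .nil) .nil))) 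
(.lf (nat_lit 523790) (.g (nat_lit 3424) (.e (nat_lit 204863) (nat_lit 27) (.e (nat_lit 344133) (nat_lit 26) (.e (nat_lit 557105) (nat_lit 14) (.e (nat_lit 180252) (nat_lit 10) (.e (nat_lit 573474) (nat_lit 12) (.e (nat_lit 57347) (nat_lit 0) (.e (nat_lit 5438) (nat_lit 306) (.e (nat_lit 2450) (nat_lit 157) (.e (nat_lit 2685) (nat_lit 168) .nil))))))))) (.g (nat_lit 1) (.e (nat_lit 229941) (nat_lit 0) .nil) .nil)))) 
(.nd (nat_lit 9) 
(.lf (nat_lit 523534) (.g (nat_lit 2654) (.e (nat_lit 204863) (nat_lit 27) (.e (nat_lit 344129) (nat_lit 26) (.e (nat_lit 557103) (nat_lit 14) (.e (nat_lit 180243) (nat_lit 5) (.e (nat_lit 532501) (nat_lit 1) .nil))))) (.g (nat_lit 0) (.e (nat_lit 229682) (nat_lit 0) .nil) .nil))) 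
(.lf (nat_lit 524046) (.g (nat_lit 1224) (.e (nat_lit 204868) (nat_lit 29) (.e (nat_lit 360466) (nat_lit 3) (.e (nat_lit 516097) (nat_lit 0) (.e (nat_lit 7109) (nat_lit 380) .nil)))) (.g (nat_lit 0) (.e (nat_lit 230510) (nat_lit 0) .nil) .nil))))) (.nd (nat_lit 8) (.nd (nat_lit 9) 
(.lf (nat_lit 523406) (.g (nat_lit 2948) (.e (nat_lit 204862) (nat_lit 27) (.e (nat_lit 344133) (nat_lit 26) (.e (nat_lit 557105) (nat_lit 14) (.e (nat_lit 180252) (nat_lit 10) (.e (nat_lit 573474) (nat_lit 12) (.e (nat_lit 57348) (nat_lit 0) (.e (nat_lit 5437) (nat_lit 306) (.e (nat_lit 2461) (nat_lit 157) (.e (nat_lit 2684) (nat_lit 168) .nil))))))))) (.g (nat_lit 1) (.e (nat_lit 229480) (nat_lit 0) .nil) .nil))) 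
(.lf (nat_lit 523918) (.g (nat_lit 3237) (.e (nat_lit 204864) (nat_lit 27) (.e (nat_lit 344132) (nat_lit 26) (.e (nat_lit 557105) (nat_lit 14) (.e (nat_lit 180252) (nat_lit 10) (.e (nat_lit 573503) (nat_lit 18) (.e (nat_lit 7936) (nat_lit 81) (.e (nat_lit 5259) (nat_lit 298) (.e (nat_lit 174) (nat_lit 12) .nil)))))))) (.g (nat_lit 1) (.e (nat_lit 230104) (nat_lit 0) .nil) .nil)))) 
(.nd (nat_lit 9) 
(.lf (nat_lit 523662) (.g (nat_lit 2552) (.e (nat_lit 204863) (nat_lit 27) (.e (nat_lit 344132) (nat_lit 26) (.e (nat_lit 557105) (nat_lit 14) (.e (nat_lit 180251) (nat_lit 10) (.e (nat_lit 573477) (nat_lit 12) (.e (nat_lit 57511) (nat_lit 39) (.e (nat_lit 647171) (nat_lit 0) (.e (nat_lit 2681) (nat_lit 168) .nil)))))))) (.g (nat_lit 1) (.e (nat_lit 229811) (nat_lit 0) .nil) .nil))) 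
(.lf (nat_lit 524174) (.g (nat_lit 2695) (.e (nat_lit 204868) (nat_lit 29) (.e (nat_lit 360473) (nat_lit 8) (.e (nat_lit 557087) (nat_lit 11) (.e (nat_lit 24591) (nat_lit 0) (.e (nat_lit 7936) (nat_lit 357) (.e (nat_lit 2685) (nat_lit 168) .nil)))))) (.g (nat_lit 1) (.e (nat_lit 230765) (nat_lit 0) .nil) .nil)))))) (.nd (nat_lit 7) (.nd (nat_lit 8) (.nd (nat_lit 9) 
(.lf (nat_lit 523342) (.g (nat_lit 2209) (.e (nat_lit 204862) (nat_lit 27) (.e (nat_lit 344133) (nat_lit 26) (.e (nat_lit 557098) (nat_lit 13) (.e (nat_lit 172131) (nat_lit 15) (.e (nat_lit 7936) (nat_lit 121) .nil))))) (.g (nat_lit 0) (.e (nat_lit 229416) (nat_lit 0) .nil) .nil))) 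
(.lf (nat_lit 523854) (.g (nat_lit 1224) (.e (nat_lit 204863) (nat_lit 27) (.e (nat_lit 344161) (nat_lit 37) (.e (nat_lit 647195) (nat_lit 9) (.e (nat_lit 1234) (nat_lit 91) .nil)))) (.g (nat_lit 0) (.e (nat_lit 230039) (nat_lit 0) .nil) .nil)))) (.nd (nat_lit 9) 
(.lf (nat_lit 523598) (.g (nat_lit 2492) (.e (nat_lit 204863) (nat_lit 27) (.e (nat_lit 344130) (nat_lit 26) (.e (nat_lit 557104) (nat_lit 14) (.e (nat_lit 180252) (nat_lit 10) (.e (nat_lit 573475) (nat_lit 12) (.e (nat_lit 57509) (nat_lit 39) (.e (nat_lit 655104) (nat_lit 0) (.e (nat_lit 2684) (nat_lit 168) .nil)))))))) (.g (nat_lit 1) (.e (nat_lit 229746) (nat_lit 0) .nil) .nil))) 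
(.lf (nat_lit 524110) (.g (nat_lit 1944) (.e (nat_lit 204868) (nat_lit 29) (.e (nat_lit 360467) (nat_lit 3) (.e (nat_lit 516139) (nat_lit 7) (.e (nat_lit 409617) (nat_lit 10) (.e (nat_lit 5616) (nat_lit 312) .nil))))) (.g (nat_lit 0) (.e (nat_lit 230680) (nat_lit 0) .nil) .nil))))) (.nd (nat_lit 8) (.nd (nat_lit 9) 
(.lf (nat_lit 523470) (.g (nat_lit 3460) (.e (nat_lit 204863) (nat_lit 27) (.e (nat_lit 344117) (nat_lit 21) (.e (nat_lit 516116) (nat_lit 1) (.e (nat_lit 164176) (nat_lit 154) (.e (nat_lit 57375) (nat_lit 2) (.e (nat_lit 90128) (nat_lit 9) (.e (nat_lit 2706) (nat_lit 170) (.e (nat_lit 221214) (nat_lit 23) .nil)))))))) (.g (nat_lit 1) (.e (nat_lit 229580) (nat_lit 0) .nil) .nil))) 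
(.lf (nat_lit 523982) (.g (nat_lit 1536) (.e (nat_lit 204865) (nat_lit 28) (.e (nat_lit 352277) (nat_lit 11) (.e (nat_lit 426500) (nat_lit 27) (.e (nat_lit 335996) (nat_lit 1) (.e (nat_lit 57929) (nat_lit 282) (.e (nat_lit 163872) (nat_lit 3) .nil)))))) (.g (nat_lit 1) (.e (nat_lit 230222) (nat_lit 0) .nil) .nil)))) (.nd (nat_lit 9) 
(.lf (nat_lit 523726) (.g (nat_lit 2260) (.e (nat_lit 204863) (nat_lit 27) (.e (nat_lit 344133) (nat_lit 26) (.e (nat_lit 557098) (nat_lit 13) (.e (nat_lit 172051) (nat_lit 0) (.e (nat_lit 3289) (nat_lit 201) (.e (nat_lit 565265) (nat_lit 4) (.e (nat_lit 73472) (nat_lit 18) .nil))))))) (.g (nat_lit 1) (.e (nat_lit 229877) (nat_lit 0) .nil) .nil))) 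
(.lf (nat_lit 524238) (.g (nat_lit 1906) (.e (nat_lit 204868) (nat_lit 29) (.e (nat_lit 360473) (nat_lit 8) (.e (nat_lit 557091) (nat_lit 12) (.e (nat_lit 163844) (nat_lit 0) (.e (nat_lit 6416) (nat_lit 341) .nil))))) (.g (nat_lit 0) (.e (nat_lit 230835) (nat_lit 0) .nil) .nil))))))) (.nd (nat_lit 6) (.nd (nat_lit 7) (.nd (nat_lit 8) (.nd (nat_lit 9) 
(.lf (nat_lit 523310) (.g (nat_lit 1543) (.e (nat_lit 204862) (nat_lit 27) (.e (nat_lit 344132) (nat_lit 26) (.e (nat_lit 557105) (nat_lit 14) (.e (nat_lit 180245) (nat_lit 5) .nil)))) (.g (nat_lit 0) (.e (nat_lit 229383) (nat_lit 0) .nil) .nil))) 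
(.lf (nat_lit 523822) (.g (nat_lit 3384) (.e (nat_lit 204863) (nat_lit 27) (.e (nat_lit 344133) (nat_lit 26) (.e (nat_lit 557105) (nat_lit 14) (.e (nat_lit 180252) (nat_lit 10) (.e (nat_lit 573475) (nat_lit 12) (.e (nat_lit 57505) (nat_lit 39) (.e (nat_lit 655104) (nat_lit 0) (.e (nat_lit 2684) (nat_lit 168) .nil)))))))) (.g (nat_lit 1) (.e (nat_lit 229973) (nat_lit 0) .nil) .nil)))) 
(.nd (nat_lit 9) 
(.lf (nat_lit 523566) (.g (nat_lit 3435) (.e (nat_lit 204863) (nat_lit 27) (.e (nat_lit 344129) (nat_lit 26) (.e (nat_lit 557104) (nat_lit 14) (.e (nat_lit 180252) (nat_lit 10) (.e (nat_lit 573475) (nat_lit 12) (.e (nat_lit 57507) (nat_lit 39) (.e (nat_lit 647176) (nat_lit 0) (.e (nat_lit 2681) (nat_lit 168) .nil)))))))) (.g (nat_lit 1) (.e (nat_lit 229714) (nat_lit 0) .nil) .nil))) 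
(.lf (nat_lit 524078) (.g (nat_lit 4256) (.e (nat_lit 204868) (nat_lit 29) (.e (nat_lit 360466) (nat_lit 3) (.e (nat_lit 516139) (nat_lit 7) (.e (nat_lit 409623) (nat_lit 10) (.e (nat_lit 5664) (nat_lit 312) (.e (nat_lit 2679) (nat_lit 168) .nil)))))) (.g (nat_lit 1) (.e (nat_lit 230565) (nat_lit 0) .nil) .nil))))) (.nd (nat_lit 8) (.nd (nat_lit 9) 
(.lf (nat_lit 523438) (.g (nat_lit 1759) (.e (nat_lit 204862) (nat_lit 27) (.e (nat_lit 344169) (nat_lit 40) (.e (nat_lit 671759) (nat_lit 3) (.e (nat_lit 57474) (nat_lit 28) (.e (nat_lit 557095) (nat_lit 13) .nil))))) (.g (nat_lit 0) (.e (nat_lit 229512) (nat_lit 0) .nil) .nil))) 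
(.lf (nat_lit 523950) (.g (nat_lit 3251) (.e (nat_lit 204864) (nat_lit 27) (.e (nat_lit 344133) (nat_lit 26) (.e (nat_lit 557105) (nat_lit 14) (.e (nat_lit 180252) (nat_lit 10) (.e (nat_lit 573473) (nat_lit 12) (.e (nat_lit 57508) (nat_lit 39) (.e (nat_lit 647170) (nat_lit 0) (.e (nat_lit 2685) (nat_lit 168) .nil)))))))) (.g (nat_lit 1) (.e (nat_lit 230136) (nat_lit 0) .nil) .nil)))) 
(.nd (nat_lit 9) 
(.lf (nat_lit 523694) (.g (nat_lit 3552) (.e (nat_lit 204863) (nat_lit 27) (.e (nat_lit 344132) (nat_lit 26) (.e (nat_lit 557105) (nat_lit 14) (.e (nat_lit 180252) (nat_lit 10) (.e (nat_lit 573474) (nat_lit 12) (.e (nat_lit 57511) (nat_lit 39) (.e (nat_lit 647168) (nat_lit 0) (.e (nat_lit 2685) (nat_lit 168) .nil)))))))) (.g (nat_lit 1) (.e (nat_lit 229843) (nat_lit 0) .nil) .nil))) 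
(.lf (nat_lit 524206) (.g (nat_lit 3000) (.e (nat_lit 204868) (nat_lit 29) (.e (nat_lit 360473) (nat_lit 8) (.e (nat_lit 557089) (nat_lit 12) (.e (nat_lit 164017) (nat_lit 44) (.e (nat_lit 688138) (nat_lit 5) (.e (nat_lit 2887) (nat_lit 184) (.e (nat_lit 426136) (nat_lit 3) .nil))))))) (.g (nat_lit 1) (.e (nat_lit 230800) (nat_lit 0) .nil) .nil)))))) 
(.nd (nat_lit 7) (.nd (nat_lit 8) (.nd (nat_lit 9) 
(.lf (nat_lit 523374) (.g (nat_lit 3510) (.e (nat_lit 204862) (nat_lit 27) (.e (nat_lit 344133) (nat_lit 26) (.e (nat_lit 557103) (nat_lit 14) (.e (nat_lit 180250) (nat_lit 10) (.e (nat_lit 573475) (nat_lit 12) (.e (nat_lit 57506) (nat_lit 39) (.e (nat_lit 647175) (nat_lit 0) (.e (nat_lit 2684) (nat_lit 168) .nil)))))))) (.g (nat_lit 1) (.e (nat_lit 229448) (nat_lit 0) .nil) .nil))) 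
(.lf (nat_lit 523886) (.g (nat_lit 1980) (.e (nat_lit 204864) (nat_lit 27) (.e (nat_lit 344132) (nat_lit 26) (.e (nat_lit 557100) (nat_lit 13) (.e (nat_lit 172137) (nat_lit 15) .nil)))) (.g (nat_lit 0) (.e (nat_lit 230072) (nat_lit 0) .nil) .nil)))) (.nd (nat_lit 9) 
(.lf (nat_lit 523630) (.g (nat_lit 2492) (.e (nat_lit 204863) (nat_lit 27) (.e (nat_lit 344131) (nat_lit 26) (.e (nat_lit 557105) (nat_lit 14) (.e (nat_lit 180252) (nat_lit 10) (.e (nat_lit 573474) (nat_lit 12) (.e (nat_lit 57508) (nat_lit 39) (.e (nat_lit 647170) (nat_lit 0) (.e (nat_lit 2675) (nat_lit 168) .nil)))))))) (.g (nat_lit 1) (.e (nat_lit 229778) (nat_lit 0) .nil) .nil))) 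
(.lf (nat_lit 524142) (.g (nat_lit 797) (.e (nat_lit 204868) (nat_lit 29) (.e (nat_lit 360473) (nat_lit 8) (.e (nat_lit 557072) (nat_lit 9) (.e (nat_lit 290) (nat_lit 21) .nil)))) (.g (nat_lit 0) (.e (nat_lit 230724) (nat_lit 0) .nil) .nil))))) (.nd (nat_lit 8) (.nd (nat_lit 9) 
(.lf (nat_lit 523502) (.g (nat_lit 3079) (.e (nat_lit 204863) (nat_lit 27) (.e (nat_lit 344117) (nat_lit 21) (.e (nat_lit 516130) (nat_lit 3) (.e (nat_lit 221215) (nat_lit 23) (.e (nat_lit 204830) (nat_lit 18) (.e (nat_lit 57926) (nat_lit 282) (.e (nat_lit 163872) (nat_lit 3) .nil))))))) (.g (nat_lit 1) (.e (nat_lit 229627) (nat_lit 0) .nil) .nil))) 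
(.lf (nat_lit 524014) (.g (nat_lit 2163) (.e (nat_lit 204866) (nat_lit 28) (.e (nat_lit 352292) (nat_lit 20) (.e (nat_lit 1788) (nat_lit 119) (.e (nat_lit 516139) (nat_lit 7) (.e (nat_lit 409643) (nat_lit 18) .nil))))) (.g (nat_lit 0) (.e (nat_lit 230346) (nat_lit 0) .nil) .nil)))) (.nd (nat_lit 9) 
(.lf (nat_lit 523758) (.g (nat_lit 3566) (.e (nat_lit 204863) (nat_lit 27) (.e (nat_lit 344133) (nat_lit 26) (.e (nat_lit 557103) (nat_lit 14) (.e (nat_lit 180250) (nat_lit 10) (.e (nat_lit 573475) (nat_lit 12) (.e (nat_lit 57506) (nat_lit 39) (.e (nat_lit 655104) (nat_lit 0) (.e (nat_lit 2684) (nat_lit 168) .nil)))))))) (.g (nat_lit 1) (.e (nat_lit 229909) (nat_lit 0) .nil) .nil))) 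
(.lf (nat_lit 524270) (.g (nat_lit 2998) (.e (nat_lit 204868) (nat_lit 29) (.e (nat_lit 360473) (nat_lit 8) (.e (nat_lit 557094) (nat_lit 12) (.e (nat_lit 163847) (nat_lit 0) (.e (nat_lit 6254) (nat_lit 337) (.e (nat_lit 2630) (nat_lit 164) (.e (nat_lit 172065) (nat_lit 3) .nil))))))) (.g (nat_lit 1) (.e (nat_lit 230902) (nat_lit 0) .nil) .nil)))))))) 
(.nd (nat_lit 5) (.nd (nat_lit 6) (.nd (nat_lit 7) (.nd (nat_lit 8) (.nd (nat_lit 9) 
(.lf (nat_lit 523294) (.g (nat_lit 2556) (.e (nat_lit 204862) (nat_lit 27) (.e (nat_lit 344132) (nat_lit 26) (.e (nat_lit 557100) (nat_lit 13) (.e (nat_lit 172065) (nat_lit 3) (.e (nat_lit 204821) (nat_lit 17) .nil))))) (.g (nat_lit 0) (.e (nat_lit 229367) (nat_lit 0) .nil) .nil))) 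
(.lf (nat_lit 523806) (.g (nat_lit 3146) (.e (nat_lit 204863) (nat_lit 27) (.e (nat_lit 344133) (nat_lit 26) (.e (nat_lit 557105) (nat_lit 14) (.e (nat_lit 180252) (nat_lit 10) (.e (nat_lit 573474) (nat_lit 12) (.e (nat_lit 57507) (nat_lit 39) (.e (nat_lit 647176) (nat_lit 0) (.e (nat_lit 2684) (nat_lit 168) .nil)))))))) (.g (nat_lit 1) (.e (nat_lit 229957) (nat_lit 0) .nil) .nil)))) 
(.nd (nat_lit 9) 
(.lf (nat_lit 523550) (.g (nat_lit 1564) (.e (nat_lit 204863) (nat_lit 27) (.e (nat_lit 344129) (nat_lit 26) (.e (nat_lit 557104) (nat_lit 14) (.e (nat_lit 188160) (nat_lit 1) .nil)))) (.g (nat_lit 0) (.e (nat_lit 229698) (nat_lit 0) .nil) .nil))) 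
(.lf (nat_lit 524062) (.g (nat_lit 4136) (.e (nat_lit 204868) (nat_lit 29) (.e (nat_lit 360466) (nat_lit 3) (.e (nat_lit 516138) (nat_lit 7) (.e (nat_lit 409648) (nat_lit 18) (.e (nat_lit 303118) (nat_lit 3) .nil))))) (.g (nat_lit 1) (.e (nat_lit 230549) (nat_lit 0) .nil) .nil))))) (.nd (nat_lit 8) (.nd (nat_lit 9) 
(.lf (nat_lit 523422) (.g (nat_lit 3006) (.e (nat_lit 204862) (nat_lit 27) (.e (nat_lit 344133) (nat_lit 26) (.e (nat_lit 557105) (nat_lit 14) (.e (nat_lit 180252) (nat_lit 10) (.e (nat_lit 573474) (nat_lit 12) (.e (nat_lit 57513) (nat_lit 40) (.e (nat_lit 655362) (nat_lit 0) (.e (nat_lit 2685) (nat_lit 168) .nil)))))))) (.g (nat_lit 1) (.e (nat_lit 229496) (nat_lit 0) .nil) .nil))) 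
(.lf (nat_lit 523934) (.g (nat_lit 2577) (.e (nat_lit 204864) (nat_lit 27) (.e (nat_lit 344133) (nat_lit 26) (.e (nat_lit 557103) (nat_lit 14) (.e (nat_lit 180243) (nat_lit 5) (.e (nat_lit 532501) (nat_lit 1) .nil))))) (.g (nat_lit 0) (.e (nat_lit 230120) (nat_lit 0) .nil) .nil)))) (.nd (nat_lit 9) 
(.lf (nat_lit 523678) (.g (nat_lit 3474) (.e (nat_lit 204863) (nat_lit 27) (.e (nat_lit 344132) (nat_lit 26) (.e (nat_lit 557105) (nat_lit 14) (.e (nat_lit 180252) (nat_lit 10) (.e (nat_lit 573474) (nat_lit 12) (.e (nat_lit 57348) (nat_lit 0) (.e (nat_lit 5437) (nat_lit 306) (.e (nat_lit 2450) (nat_lit 157) (.e (nat_lit 2685) (nat_lit 168) .nil))))))))) (.g (nat_lit 1) (.e (nat_lit 229827) (nat_lit 0) .nil) .nil))) 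
(.lf (nat_lit 524190) (.g (nat_lit 2437) (.e (nat_lit 204868) (nat_lit 29) (.e (nat_lit 360473) (nat_lit 8) (.e (nat_lit 557089) (nat_lit 12) (.e (nat_lit 163843) (nat_lit 0) (.e (nat_lit 6420) (nat_lit 341) (.e (nat_lit 163908) (nat_lit 12) (.e (nat_lit 426132) (nat_lit 3) .nil))))))) (.g (nat_lit 1) (.e (nat_lit 230782) (nat_lit 0) .nil) .nil)))))) 
(.nd (nat_lit 7) (.nd (nat_lit 8) (.nd (nat_lit 9) 
(.lf (nat_lit 523358) (.g (nat_lit 1570) (.e (nat_lit 204862) (nat_lit 27) (.e (nat_lit 344133) (nat_lit 26) (.e (nat_lit 557103) (nat_lit 14) (.e (nat_lit 180249) (nat_lit 10) .nil)))) (.g (nat_lit 0) (.e (nat_lit 229432) (nat_lit 0) .nil) .nil))) 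
(.lf (nat_lit 523870) (.g (nat_lit 2260) (.e (nat_lit 204864) (nat_lit 27) (.e (nat_lit 344130) (nat_lit 26) (.e (nat_lit 557104) (nat_lit 14) (.e (nat_lit 180252) (nat_lit 10) (.e (nat_lit 573473) (nat_lit 12) (.e (nat_lit 57507) (nat_lit 39) (.e (nat_lit 647170) (nat_lit 0) (.e (nat_lit 2685) (nat_lit 168) .nil)))))))) (.g (nat_lit 1) (.e (nat_lit 230056) (nat_lit 0) .nil) .nil)))) 
(.nd (nat_lit 9) 
(.lf (nat_lit 523614) (.g (nat_lit 2557) (.e (nat_lit 204863) (nat_lit 27) (.e (nat_lit 344131) (nat_lit 26) (.e (nat_lit 557103) (nat_lit 14) (.e (nat_lit 180250) (nat_lit 10) (.e (nat_lit 573478) (nat_lit 12) (.e (nat_lit 57509) (nat_lit 39) (.e (nat_lit 655104) (nat_lit 0) (.e (nat_lit 2684) (nat_lit 168) .nil)))))))) (.g (nat_lit 1) (.e (nat_lit 229762) (nat_lit 0) .nil) .nil))) 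
(.lf (nat_lit 524126) (.g (nat_lit 3746) (.e (nat_lit 204868) (nat_lit 29) (.e (nat_lit 360472) (nat_lit 8) (.e (nat_lit 557090) (nat_lit 12) (.e (nat_lit 164020) (nat_lit 45) (.e (nat_lit 696330) (nat_lit 5) (.e (nat_lit 2884) (nat_lit 184) (.e (nat_lit 426140) (nat_lit 3) .nil))))))) (.g (nat_lit 1) (.e (nat_lit 230699) (nat_lit 0) .nil) .nil))))) (.nd (nat_lit 8) (.nd (nat_lit 9) 
(.lf (nat_lit 523486) (.g (nat_lit 1423) (.e (nat_lit 204863) (nat_lit 27) (.e (nat_lit 344117) (nat_lit 21) (.e (nat_lit 516129) (nat_lit 3) (.e (nat_lit 221206) (nat_lit 21) .nil)))) (.g (nat_lit 0) (.e (nat_lit 229611) (nat_lit 0) .nil) .nil))) 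
(.lf (nat_lit 523998) (.g (nat_lit 313) (.e (nat_lit 204866) (nat_lit 28) (.e (nat_lit 352262) (nat_lit 0) (.e (nat_lit 3253) (nat_lit 197) .nil))) (.g (nat_lit 0) (.e (nat_lit 230269) (nat_lit 0) .nil) .nil)))) (.nd (nat_lit 9) 
(.lf (nat_lit 523742) (.g (nat_lit 2770) (.e (nat_lit 204863) (nat_lit 27) (.e (nat_lit 344133) (nat_lit 26) (.e (nat_lit 557103) (nat_lit 14) (.e (nat_lit 188160) (nat_lit 1) (.e (nat_lit 499900) (nat_lit 7) (.e (nat_lit 32512) (nat_lit 18) .nil)))))) (.g (nat_lit 1) (.e (nat_lit 229893) (nat_lit 0) .nil) .nil))) 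
(.lf (nat_lit 524254) (.g (nat_lit 1216) (.e (nat_lit 204868) (nat_lit 29) (.e (nat_lit 360473) (nat_lit 8) (.e (nat_lit 557091) (nat_lit 12) (.e (nat_lit 164018) (nat_lit 45) .nil)))) (.g (nat_lit 0) (.e (nat_lit 230854) (nat_lit 0) .nil) .nil))))))) (.nd (nat_lit 6) (.nd (nat_lit 7) (.nd (nat_lit 8) (.nd (nat_lit 9) 
(.lf (nat_lit 523326) (.g (nat_lit 3704) (.e (nat_lit 204862) (nat_lit 27) (.e (nat_lit 344132) (nat_lit 26) (.e (nat_lit 557105) (nat_lit 14) (.e (nat_lit 180252) (nat_lit 10) (.e (nat_lit 573474) (nat_lit 12) (.e (nat_lit 57511) (nat_lit 39) (.e (nat_lit 655104) (nat_lit 0) (.e (nat_lit 2684) (nat_lit 168) .nil)))))))) (.g (nat_lit 1) (.e (nat_lit 229399) (nat_lit 0) .nil) .nil))) 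
(.lf (nat_lit 523838) (.g (nat_lit 3514) (.e (nat_lit 204863) (nat_lit 27) (.e (nat_lit 344133) (nat_lit 26) (.e (nat_lit 557105) (nat_lit 14) (.e (nat_lit 180252) (nat_lit 10) (.e (nat_lit 573495) (nat_lit 16) .nil))))) (.g (nat_lit 0) (.e (nat_lit 229989) (nat_lit 0) .nil) .nil)))) (.nd (nat_lit 9) 
(.lf (nat_lit 523582) (.g (nat_lit 3648) (.e (nat_lit 204863) (nat_lit 27) (.e (nat_lit 344130) (nat_lit 26) (.e (nat_lit 557103) (nat_lit 14) (.e (nat_lit 180250) (nat_lit 10) (.e (nat_lit 573475) (nat_lit 12) (.e (nat_lit 57507) (nat_lit 39) (.e (nat_lit 655104) (nat_lit 0) (.e (nat_lit 2684) (nat_lit 168) .nil)))))))) (.g (nat_lit 1) (.e (nat_lit 229730) (nat_lit 0) .nil) .nil))) 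
(.lf (nat_lit 524094) (.g (nat_lit 3503) (.e (nat_lit 204868) (nat_lit 29) (.e (nat_lit 360466) (nat_lit 3) (.e (nat_lit 516142) (nat_lit 8) (.e (nat_lit 417830) (nat_lit 19) (.e (nat_lit 311315) (nat_lit 3) .nil))))) (.g (nat_lit 1) (.e (nat_lit 230589) (nat_lit 0) .nil) .nil))))) (.nd (nat_lit 8) (.nd (nat_lit 9) 
(.lf (nat_lit 523454) (.g (nat_lit 2477) (.e (nat_lit 204863) (nat_lit 27) (.e (nat_lit 344117) (nat_lit 21) (.e (nat_lit 516115) (nat_lit 1) (.e (nat_lit 164179) (nat_lit 154) (.e (nat_lit 57375) (nat_lit 2) .nil))))) (.g (nat_lit 0) (.e (nat_lit 229551) (nat_lit 0) .nil) .nil))) 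
(.lf (nat_lit 523966) (.g (nat_lit 2409) (.e (nat_lit 204865) (nat_lit 28) (.e (nat_lit 352262) (nat_lit 0) (.e (nat_lit 3253) (nat_lit 197) (.e (nat_lit 532515) (nat_lit 3) (.e (nat_lit 114694) (nat_lit 11) (.e (nat_lit 426139) (nat_lit 3) .nil)))))) (.g (nat_lit 1) (.e (nat_lit 230164) (nat_lit 0) .nil) .nil)))) (.nd (nat_lit 9) 
(.lf (nat_lit 523710) (.g (nat_lit 2204) (.e (nat_lit 204863) (nat_lit 27) (.e (nat_lit 344132) (nat_lit 26) (.e (nat_lit 557105) (nat_lit 14) (.e (nat_lit 180252) (nat_lit 10) (.e (nat_lit 573475) (nat_lit 12) (.e (nat_lit 57513) (nat_lit 40) (.e (nat_lit 655362) (nat_lit 0) (.e (nat_lit 2685) (nat_lit 168) .nil)))))))) (.g (nat_lit 1) (.e (nat_lit 229859) (nat_lit 0) .nil) .nil))) 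
(.lf (nat_lit 524222) (.g (nat_lit 2931) (.e (nat_lit 204868) (nat_lit 29) (.e (nat_lit 360473) (nat_lit 8) (.e (nat_lit 557091) (nat_lit 12) (.e (nat_lit 163843) (nat_lit 0) (.e (nat_lit 6255) (nat_lit 337) (.e (nat_lit 2630) (nat_lit 164) (.e (nat_lit 172066) (nat_lit 3) .nil))))))) (.g (nat_lit 1) (.e (nat_lit 230817) (nat_lit 0) .nil) .nil)))))) 
(.nd (nat_lit 7) (.nd (nat_lit 8) (.nd (nat_lit 9) 
(.lf (nat_lit 523390) (.g (nat_lit 1809) (.e (nat_lit 204862) (nat_lit 27) (.e (nat_lit 344133) (nat_lit 26) (.e (nat_lit 557105) (nat_lit 14) (.e (nat_lit 180251) (nat_lit 10) .nil)))) (.g (nat_lit 0) (.e (nat_lit 229464) (nat_lit 0) .nil) .nil))) 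
(.lf (nat_lit 523902) (.g (nat_lit 2007) (.e (nat_lit 204864) (nat_lit 27) (.e (nat_lit 344132) (nat_lit 26) (.e (nat_lit 557105) (nat_lit 14) (.e (nat_lit 180252) (nat_lit 10) (.e (nat_lit 573473) (nat_lit 12) (.e (nat_lit 57508) (nat_lit 39) (.e (nat_lit 647168) (nat_lit 0) (.e (nat_lit 2678) (nat_lit 168) .nil)))))))) (.g (nat_lit 1) (.e (nat_lit 230088) (nat_lit 0) .nil) .nil)))) 
(.nd (nat_lit 9) 
(.lf (nat_lit 523646) (.g (nat_lit 1616) (.e (nat_lit 204863) (nat_lit 27) (.e (nat_lit 344132) (nat_lit 26) (.e (nat_lit 557100) (nat_lit 13) (.e (nat_lit 172065) (nat_lit 3) .nil)))) (.g (nat_lit 0) (.e (nat_lit 229794) (nat_lit 0) .nil) .nil))) 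
(.lf (nat_lit 524158) (.g (nat_lit 1521) (.e (nat_lit 204868) (nat_lit 29) (.e (nat_lit 360473) (nat_lit 8) (.e (nat_lit 557087) (nat_lit 11) (.e (nat_lit 24576) (nat_lit 0) .nil)))) (.g (nat_lit 0) (.e (nat_lit 230745) (nat_lit 0) .nil) .nil))))) (.nd (nat_lit 8) (.nd (nat_lit 9) 
(.lf (nat_lit 523518) (.g (nat_lit 2302) (.e (nat_lit 204863) (nat_lit 27) (.e (nat_lit 344118) (nat_lit 21) (.e (nat_lit 516120) (nat_lit 1) (.e (nat_lit 164183) (nat_lit 154) (.e (nat_lit 57378) (nat_lit 3) (.e (nat_lit 98319) (nat_lit 17) (.e (nat_lit 3771) (nat_lit 229) (.e (nat_lit 794673) (nat_lit 23) .nil)))))))) (.g (nat_lit 1) (.e (nat_lit 229662) (nat_lit 0) .nil) .nil))) 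
(.lf (nat_lit 524030) (.g (nat_lit 667) (.e (nat_lit 204866) (nat_lit 28) (.e (nat_lit 352324) (nat_lit 26) (.e (nat_lit 147491) (nat_lit 10) .nil))) (.g (nat_lit 0) (.e (nat_lit 230439) (nat_lit 0) .nil) .nil)))) (.nd (nat_lit 9) 
(.lf (nat_lit 523774) (.g (nat_lit 2776) (.e (nat_lit 204863) (nat_lit 27) (.e (nat_lit 344133) (nat_lit 26) (.e (nat_lit 557105) (nat_lit 14) (.e (nat_lit 180251) (nat_lit 10) (.e (nat_lit 573477) (nat_lit 12) (.e (nat_lit 57509) (nat_lit 39) (.e (nat_lit 655104) (nat_lit 0) (.e (nat_lit 2684) (nat_lit 168) .nil)))))))) (.g (nat_lit 1) (.e (nat_lit 229925) (nat_lit 0) .nil) .nil))) 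
(.lf (nat_lit 524286) (.g (nat_lit 940) (.e (nat_lit 204868) (nat_lit 29) (.e (nat_lit 360474) (nat_lit 8) (.e (nat_lit 557094) (nat_lit 12) (.e (nat_lit 164022) (nat_lit 46) .nil)))) (.g (nat_lit 0) (.e (nat_lit 230934) (nat_lit 0) .nil) .nil)))))))))))) 
(.nd (nat_lit 1) (.nd (nat_lit 2) (.nd (nat_lit 3) (.nd (nat_lit 4) (.nd (nat_lit 5) 
(.nd (nat_lit 6) (.nd (nat_lit 7) (.nd (nat_lit 8) (.nd (nat_lit 9) 
(.lf (nat_lit 523265) (.g (nat_lit 1310) (.e (nat_lit 204862) (nat_lit 27) (.e (nat_lit 344130) (nat_lit 26) (.e (nat_lit 557104) (nat_lit 14) (.e (nat_lit 180240) (nat_lit 2) .nil)))) (.g (nat_lit 0) (.e (nat_lit 229338) (nat_lit 0) .nil) .nil))) 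
(.lf (nat_lit 523777) (.g (nat_lit 3099) (.e (nat_lit 204863) (nat_lit 27) (.e (nat_lit 344133) (nat_lit 26) (.e (nat_lit 557105) (nat_lit 14) (.e (nat_lit 180251) (nat_lit 10) (.e (nat_lit 573478) (nat_lit 12) (.e (nat_lit 57511) (nat_lit 39) (.e (nat_lit 655104) (nat_lit 0) (.e (nat_lit 2684) (nat_lit 168) .nil)))))))) (.g (nat_lit 1) (.e (nat_lit 229928) (nat_lit 0) .nil) .nil)))) 
(.nd (nat_lit 9) 
(.lf (nat_lit 523521) (.g (nat_lit 2799) (.e (nat_lit 204863) (nat_lit 27) (.e (nat_lit 344120) (nat_lit 21) (.e (nat_lit 516115) (nat_lit 1) (.e (nat_lit 164179) (nat_lit 154) (.e (nat_lit 57375) (nat_lit 2) (.e (nat_lit 90128) (nat_lit 9) (.e (nat_lit 2706) (nat_lit 170) (.e (nat_lit 221215) (nat_lit 23) .nil)))))))) (.g (nat_lit 1) (.e (nat_lit 229665) (nat_lit 0) .nil) .nil))) 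
(.lf (nat_lit 524033) (.g (nat_lit 428) (.e (nat_lit 204867) (nat_lit 28) (.e (nat_lit 352312) (nat_lit 22) (.e (nat_lit 90165) (nat_lit 12) .nil))) (.g (nat_lit 0) (.e (nat_lit 230462) (nat_lit 0) .nil) .nil))))) (.nd (nat_lit 8) (.nd (nat_lit 9) 
(.lf (nat_lit 523393) (.g (nat_lit 2921) (.e (nat_lit 204862) (nat_lit 27) (.e (nat_lit 344133) (nat_lit 26) (.e (nat_lit 557105) (nat_lit 14) (.e (nat_lit 180251) (nat_lit 10) (.e (nat_lit 573477) (nat_lit 12) (.e (nat_lit 57509) (nat_lit 39) (.e (nat_lit 655104) (nat_lit 0) (.e (nat_lit 2684) (nat_lit 168) .nil)))))))) (.g (nat_lit 1) (.e (nat_lit 229467) (nat_lit 0) .nil) .nil))) 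
(.lf (nat_lit 523905) (.g (nat_lit 3966) (.e (nat_lit 204864) (nat_lit 27) (.e (nat_lit 344132) (nat_lit 26) (.e (nat_lit 557105) (nat_lit 14) (.e (nat_lit 180252) (nat_lit 10) (.e (nat_lit 573473) (nat_lit 12) (.e (nat_lit 57508) (nat_lit 39) (.e (nat_lit 647170) (nat_lit 0) (.e (nat_lit 2685) (nat_lit 168) .nil)))))))) (.g (nat_lit 1) (.e (nat_lit 230091) (nat_lit 0) .nil) .nil)))) 
(.nd (nat_lit 9) 
(.lf (nat_lit 523649) (.g (nat_lit 4992) (.e (nat_lit 204863) (nat_lit 27) (.e (nat_lit 344132) (nat_lit 26) (.e (nat_lit 557100) (nat_lit 13) (.e (nat_lit 172065) (nat_lit 3) (.e (nat_lit 204821) (nat_lit 17) (.e (nat_lit 2391) (nat_lit 156) (.e (nat_lit 819204) (nat_lit 0) (.e (nat_lit 2685) (nat_lit 168) .nil)))))))) (.g (nat_lit 1) (.e (nat_lit 229797) (nat_lit 0) .nil) .nil))) 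
(.lf (nat_lit 524161) (.g (nat_lit 1986) (.e (nat_lit 204868) (nat_lit 29) (.e (nat_lit 360473) (nat_lit 8) (.e (nat_lit 557087) (nat_lit 11) (.e (nat_lit 24577) (nat_lit 0) (.e (nat_lit 7936) (nat_lit 357) (.e (nat_lit 2684) (nat_lit 168) .nil)))))) (.g (nat_lit 1) (.e (nat_lit 230748) (nat_lit 0) .nil) .nil)))))) (.nd (nat_lit 7) (.nd (nat_lit 8) (.nd (nat_lit 9) 
(.lf (nat_lit 523329) (.g (nat_lit 3206) (.e (nat_lit 204862) (nat_lit 27) (.e (nat_lit 344132) (nat_lit 26) (.e (nat_lit 557105) (nat_lit 14) (.e (nat_lit 180252) (nat_lit 10) (.e (nat_lit 573475) (nat_lit 12) (.e (nat_lit 57508) (nat_lit 39) (.e (nat_lit 647170) (nat_lit 0) (.e (nat_lit 2685) (nat_lit 168) .nil)))))))) (.g (nat_lit 1) (.e (nat_lit 229402) (nat_lit 0) .nil) .nil))) 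
(.lf (nat_lit 523841) (.g (nat_lit 4003) (.e (nat_lit 204863) (nat_lit 27) (.e (nat_lit 344133) (nat_lit 26) (.e (nat_lit 557105) (nat_lit 14) (.e (nat_lit 180252) (nat_lit 10) (.e (nat_lit 573503) (nat_lit 18) (.e (nat_lit 7936) (nat_lit 81) (.e (nat_lit 5259) (nat_lit 298) (.e (nat_lit 174) (nat_lit 12) .nil)))))))) (.g (nat_lit 1) (.e (nat_lit 229992) (nat_lit 0) .nil) .nil)))) 
(.nd (nat_lit 9) 
(.lf (nat_lit 523585) (.g (nat_lit 2643) (.e (nat_lit 204863) (nat_lit 27) (.e (nat_lit 344130) (nat_lit 26) (.e (nat_lit 557103) (nat_lit 14) (.e (nat_lit 180250) (nat_lit 10) (.e (nat_lit 573477) (nat_lit 12) (.e (nat_lit 57511) (nat_lit 39) (.e (nat_lit 655104) (nat_lit 0) (.e (nat_lit 2684) (nat_lit 168) .nil)))))))) (.g (nat_lit 1) (.e (nat_lit 229733) (nat_lit 0) .nil) .nil))) 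
(.lf (nat_lit 524097) (.g (nat_lit 2100) (.e (nat_lit 204868) (nat_lit 29) (.e (nat_lit 360466) (nat_lit 3) (.e (nat_lit 516185) (nat_lit 16) (.e (nat_lit 491526) (nat_lit 0) (.e (nat_lit 6676) (nat_lit 357) .nil))))) (.g (nat_lit 0) (.e (nat_lit 230665) (nat_lit 0) .nil) .nil))))) (.nd (nat_lit 8) (.nd (nat_lit 9) 
(.lf (nat_lit 523457) (.g (nat_lit 2407) (.e (nat_lit 204863) (nat_lit 27) (.e (nat_lit 344117) (nat_lit 21) (.e (nat_lit 516115) (nat_lit 1) (.e (nat_lit 164179) (nat_lit 154) (.e (nat_lit 57376) (nat_lit 3) .nil))))) (.g (nat_lit 0) (.e (nat_lit 229556) (nat_lit 0) .nil) .nil))) 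
(.lf (nat_lit 523969) (.g (nat_lit 3077) (.e (nat_lit 204865) (nat_lit 28) (.e (nat_lit 352262) (nat_lit 0) (.e (nat_lit 3305) (nat_lit 202) (.e (nat_lit 573485) (nat_lit 13) (.e (nat_lit 65628) (nat_lit 14) (.e (nat_lit 401428) (nat_lit 3) .nil)))))) (.g (nat_lit 1) (.e (nat_lit 230170) (nat_lit 0) .nil) .nil)))) (.nd (nat_lit 9) 
(.lf (nat_lit 523713) (.g (nat_lit 3231) (.e (nat_lit 204863) (nat_lit 27) (.e (nat_lit 344132) (nat_lit 26) (.e (nat_lit 557105) (nat_lit 14) (.e (nat_lit 180252) (nat_lit 10) (.e (nat_lit 573503) (nat_lit 18) (.e (nat_lit 1074) (nat_lit 81) (.e (nat_lit 5259) (nat_lit 298) (.e (nat_lit 174) (nat_lit 12) .nil)))))))) (.g (nat_lit 1) (.e (nat_lit 229862) (nat_lit 0) .nil) .nil))) 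
(.lf (nat_lit 524225) (.g (nat_lit 4034) (.e (nat_lit 204868) (nat_lit 29) (.e (nat_lit 360473) (nat_lit 8) (.e (nat_lit 557091) (nat_lit 12) (.e (nat_lit 163843) (nat_lit 0) (.e (nat_lit 6255) (nat_lit 337) (.e (nat_lit 2725) (nat_lit 172) (.e (nat_lit 237594) (nat_lit 3) .nil))))))) (.g (nat_lit 1) (.e (nat_lit 230820) (nat_lit 0) .nil) .nil))))))) 
(.nd (nat_lit 6) (.nd (nat_lit 7) (.nd (nat_lit 8) (.nd (nat_lit 9) 
(.lf (nat_lit 523297) (.g (nat_lit 2046) (.e (nat_lit 204862) (nat_lit 27) (.e (nat_lit 344132) (nat_lit 26) (.e (nat_lit 557100) (nat_lit 13) (.e (nat_lit 172071) (nat_lit 5) (.e (nat_lit 245772) (nat_lit 2) .nil))))) (.g (nat_lit 0) (.e (nat_lit 229370) (nat_lit 0) .nil) .nil))) 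
(.lf (nat_lit 523809) (.g (nat_lit 4951) (.e (nat_lit 204863) (nat_lit 27) (.e (nat_lit 344133) (nat_lit 26) (.e (nat_lit 557105) (nat_lit 14) (.e (nat_lit 180252) (nat_lit 10) (.e (nat_lit 573474) (nat_lit 12) (.e (nat_lit 57508) (nat_lit 39) (.e (nat_lit 647170) (nat_lit 0) (.e (nat_lit 2685) (nat_lit 168) .nil)))))))) (.g (nat_lit 1) (.e (nat_lit 229960) (nat_lit 0) .nil) .nil)))) 
(.nd (nat_lit 9) 
(.lf (nat_lit 523553) (.g (nat_lit 1812) (.e (nat_lit 204863) (nat_lit 27) (.e (nat_lit 344129) (nat_lit 26) (.e (nat_lit 557104) (nat_lit 14) (.e (nat_lit 180244) (nat_lit 5) .nil)))) (.g (nat_lit 0) (.e (nat_lit 229701) (nat_lit 0) .nil) .nil))) 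
(.lf (nat_lit 524065) (.g (nat_lit 2582) (.e (nat_lit 204868) (nat_lit 29) (.e (nat_lit 360466) (nat_lit 3) (.e (nat_lit 516138) (nat_lit 7) (.e (nat_lit 409651) (nat_lit 19) (.e (nat_lit 311314) (nat_lit 3) .nil))))) (.g (nat_lit 1) (.e (nat_lit 230552) (nat_lit 0) .nil) .nil))))) (.nd (nat_lit 8) (.nd (nat_lit 9) 
(.lf (nat_lit 523425) (.g (nat_lit 3525) (.e (nat_lit 204862) (nat_lit 27) (.e (nat_lit 344133) (nat_lit 26) (.e (nat_lit 557105) (nat_lit 14) (.e (nat_lit 180252) (nat_lit 10) (.e (nat_lit 573475) (nat_lit 12) (.e (nat_lit 57505) (nat_lit 39) (.e (nat_lit 655104) (nat_lit 0) (.e (nat_lit 2684) (nat_lit 168) .nil)))))))) (.g (nat_lit 1) (.e (nat_lit 229499) (nat_lit 0) .nil) .nil))) 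
(.lf (nat_lit 523937) (.g (nat_lit 2361) (.e (nat_lit 204864) (nat_lit 27) (.e (nat_lit 344133) (nat_lit 26) (.e (nat_lit 557103) (nat_lit 14) (.e (nat_lit 180250) (nat_lit 10) (.e (nat_lit 573473) (nat_lit 12) (.e (nat_lit 57508) (nat_lit 39) (.e (nat_lit 647170) (nat_lit 0) (.e (nat_lit 2680) (nat_lit 168) .nil)))))))) (.g (nat_lit 1) (.e (nat_lit 230123) (nat_lit 0) .nil) .nil)))) 
(.nd (nat_lit 9) 
(.lf (nat_lit 523681) (.g (nat_lit 3133) (.e (nat_lit 204863) (nat_lit 27) (.e (nat_lit 344132) (nat_lit 26) (.e (nat_lit 557105) (nat_lit 14) (.e (nat_lit 180252) (nat_lit 10) (.e (nat_lit 573474) (nat_lit 12) (.e (nat_lit 57506) (nat_lit 39) (.e (nat_lit 647170) (nat_lit 0) (.e (nat_lit 2675) (nat_lit 168) .nil)))))))) (.g (nat_lit 1) (.e (nat_lit 229830) (nat_lit 0) .nil) .nil))) 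
(.lf (nat_lit 524193) (.g (nat_lit 1431) (.e (nat_lit 204868) (nat_lit 29) (.e (nat_lit 360473) (nat_lit 8) (.e (nat_lit 557089) (nat_lit 12) (.e (nat_lit 163844) (nat_lit 0) (.e (nat_lit 6250) (nat_lit 337) .nil))))) (.g (nat_lit 0) (.e (nat_lit 230785) (nat_lit 0) .nil) .nil)))))) (.nd (nat_lit 7) (.nd (nat_lit 8) (.nd (nat_lit 9) 
(.lf (nat_lit 523361) (.g (nat_lit 2571) (.e (nat_lit 204862) (nat_lit 27) (.e (nat_lit 344133) (nat_lit 26) (.e (nat_lit 557103) (nat_lit 14) (.e (nat_lit 180250) (nat_lit 10) (.e (nat_lit 573473) (nat_lit 12) (.e (nat_lit 57507) (nat_lit 39) (.e (nat_lit 655104) (nat_lit 0) (.e (nat_lit 2685) (nat_lit 168) .nil)))))))) (.g (nat_lit 1) (.e (nat_lit 229435) (nat_lit 0) .nil) .nil))) 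
(.lf (nat_lit 523873) (.g (nat_lit 2717) (.e (nat_lit 204864) (nat_lit 27) (.e (nat_lit 344130) (nat_lit 26) (.e (nat_lit 557104) (nat_lit 14) (.e (nat_lit 180252) (nat_lit 10) (.e (nat_lit 573474) (nat_lit 12) (.e (nat_lit 57508) (nat_lit 39) (.e (nat_lit 647168) (nat_lit 0) (.e (nat_lit 2685) (nat_lit 168) .nil)))))))) (.g (nat_lit 1) (.e (nat_lit 230059) (nat_lit 0) .nil) .nil)))) 
(.nd (nat_lit 9) 
(.lf (nat_lit 523617) (.g (nat_lit 2567) (.e (nat_lit 204863) (nat_lit 27) (.e (nat_lit 344131) (nat_lit 26) (.e (nat_lit 557105) (nat_lit 14) (.e (nat_lit 180252) (nat_lit 10) (.e (nat_lit 573473) (nat_lit 12) (.e (nat_lit 57511) (nat_lit 39) (.e (nat_lit 647168) (nat_lit 0) (.e (nat_lit 2685) (nat_lit 168) .nil)))))))) (.g (nat_lit 1) (.e (nat_lit 229765) (nat_lit 0) .nil) .nil))) 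
(.lf (nat_lit 524129) (.g (nat_lit 980) (.e (nat_lit 204868) (nat_lit 29) (.e (nat_lit 360473) (nat_lit 8) (.e (nat_lit 557066) (nat_lit 9) (.e (nat_lit 268) (nat_lit 21) .nil)))) (.g (nat_lit 0) (.e (nat_lit 230705) (nat_lit 0) .nil) .nil))))) (.nd (nat_lit 8) (.nd (nat_lit 9) 
(.lf (nat_lit 523489) (.g (nat_lit 3171) (.e (nat_lit 204863) (nat_lit 27) (.e (nat_lit 344117) (nat_lit 21) (.e (nat_lit 516129) (nat_lit 3) (.e (nat_lit 221210) (nat_lit 22) (.e (nat_lit 196658) (nat_lit 12) (.e (nat_lit 57508) (nat_lit 39) (.e (nat_lit 655104) (nat_lit 0) (.e (nat_lit 2684) (nat_lit 168) .nil)))))))) (.g (nat_lit 1) (.e (nat_lit 229614) (nat_lit 0) .nil) .nil))) 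
(.lf (nat_lit 524001) (.g (nat_lit 2226) (.e (nat_lit 204866) (nat_lit 28) (.e (nat_lit 352265) (nat_lit 0) (.e (nat_lit 3305) (nat_lit 202) (.e (nat_lit 573485) (nat_lit 13) (.e (nat_lit 65630) (nat_lit 14) (.e (nat_lit 401428) (nat_lit 3) .nil)))))) (.g (nat_lit 1) (.e (nat_lit 230286) (nat_lit 0) .nil) .nil)))) (.nd (nat_lit 9) 
(.lf (nat_lit 523745) (.g (nat_lit 3415) (.e (nat_lit 204863) (nat_lit 27) (.e (nat_lit 344133) (nat_lit 26) (.e (nat_lit 557103) (nat_lit 14) (.e (nat_lit 180243) (nat_lit 5) (.e (nat_lit 532503) (nat_lit 1) (.e (nat_lit 57704) (nat_lit 164) (.e (nat_lit 2515) (nat_lit 157) (.e (nat_lit 2681) (nat_lit 168) .nil)))))))) (.g (nat_lit 1) (.e (nat_lit 229896) (nat_lit 0) .nil) .nil))) 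
(.lf (nat_lit 524257) (.g (nat_lit 1173) (.e (nat_lit 204868) (nat_lit 29) (.e (nat_lit 360473) (nat_lit 8) (.e (nat_lit 557091) (nat_lit 12) (.e (nat_lit 164022) (nat_lit 46) .nil)))) (.g (nat_lit 0) (.e (nat_lit 230857) (nat_lit 0) .nil) .nil)))))))) (.nd (nat_lit 5) (.nd (nat_lit 6) (.nd (nat_lit 7) (.nd (nat_lit 8) (.nd (nat_lit 9) 
(.lf (nat_lit 523281) (.g (nat_lit 3315) (.e (nat_lit 204862) (nat_lit 27) (.e (nat_lit 344130) (nat_lit 26) (.e (nat_lit 557104) (nat_lit 14) (.e (nat_lit 180252) (nat_lit 10) (.e (nat_lit 573475) (nat_lit 12) (.e (nat_lit 57508) (nat_lit 39) (.e (nat_lit 647175) (nat_lit 0) (.e (nat_lit 2684) (nat_lit 168) .nil)))))))) (.g (nat_lit 1) (.e (nat_lit 229354) (nat_lit 0) .nil) .nil))) 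
(.lf (nat_lit 523793) (.g (nat_lit 3483) (.e (nat_lit 204863) (nat_lit 27) (.e (nat_lit 344133) (nat_lit 26) (.e (nat_lit 557105) (nat_lit 14) (.e (nat_lit 180252) (nat_lit 10) (.e (nat_lit 573474) (nat_lit 12) (.e (nat_lit 57348) (nat_lit 0) (.e (nat_lit 5438) (nat_lit 306) (.e (nat_lit 2433) (nat_lit 157) (.e (nat_lit 2685) (nat_lit 168) .nil))))))))) (.g (nat_lit 1) (.e (nat_lit 229944) (nat_lit 0) .nil) .nil)))) 
(.nd (nat_lit 9) 
(.lf (nat_lit 523537) (.g (nat_lit 3284) (.e (nat_lit 204863) (nat_lit 27) (.e (nat_lit 344129) (nat_lit 26) (.e (nat_lit 557103) (nat_lit 14) (.e (nat_lit 180243) (nat_lit 5) (.e (nat_lit 532504) (nat_lit 1) (.e (nat_lit 57703) (nat_lit 164) (.e (nat_lit 2515) (nat_lit 157) (.e (nat_lit 2681) (nat_lit 168) .nil)))))))) (.g (nat_lit 1) (.e (nat_lit 229685) (nat_lit 0) .nil) .nil))) 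
(.lf (nat_lit 524049) (.g (nat_lit 1587) (.e (nat_lit 204868) (nat_lit 29) (.e (nat_lit 360466) (nat_lit 3) (.e (nat_lit 516106) (nat_lit 0) (.e (nat_lit 7095) (nat_lit 380) .nil)))) (.g (nat_lit 0) (.e (nat_lit 230519) (nat_lit 0) .nil) .nil))))) (.nd (nat_lit 8) (.nd (nat_lit 9) 
(.lf (nat_lit 523409) (.g (nat_lit 3589) (.e (nat_lit 204862) (nat_lit 27) (.e (nat_lit 344133) (nat_lit 26) (.e (nat_lit 557105) (nat_lit 14) (.e (nat_lit 180252) (nat_lit 10) (.e (nat_lit 573474) (nat_lit 12) (.e (nat_lit 57506) (nat_lit 39) (.e (nat_lit 647170) (nat_lit 0) (.e (nat_lit 2685) (nat_lit 168) .nil)))))))) (.g (nat_lit 1) (.e (nat_lit 229483) (nat_lit 0) .nil) .nil))) 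
(.lf (nat_lit 523921) (.g (nat_lit 2185) (.e (nat_lit 204864) (nat_lit 27) (.e (nat_lit 344133) (nat_lit 26) (.e (nat_lit 557096) (nat_lit 13) (.e (nat_lit 172133) (nat_lit 15) (.e (nat_lit 1800) (nat_lit 119) (.e (nat_lit 516119) (nat_lit 1) (.e (nat_lit 164345) (nat_lit 240) (.e (nat_lit 2426) (nat_lit 157) (.e (nat_lit 2680) (nat_lit 168) .nil))))))))) (.g (nat_lit 1) (.e (nat_lit 230107) (nat_lit 0) .nil) .nil)))) 
(.nd (nat_lit 9) 
(.lf (nat_lit 523665) (.g (nat_lit 3346) (.e (nat_lit 204863) (nat_lit 27) (.e (nat_lit 344132) (nat_lit 26) (.e (nat_lit 557105) (nat_lit 14) (.e (nat_lit 180252) (nat_lit 10) (.e (nat_lit 573473) (nat_lit 12) (.e (nat_lit 57506) (nat_lit 39) (.e (nat_lit 655104) (nat_lit 0) (.e (nat_lit 2684) (nat_lit 168) .nil)))))))) (.g (nat_lit 1) (.e (nat_lit 229814) (nat_lit 0) .nil) .nil))) 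
(.lf (nat_lit 524177) (.g (nat_lit 2382) (.e (nat_lit 204868) (nat_lit 29) (.e (nat_lit 360473) (nat_lit 8) (.e (nat_lit 557087) (nat_lit 11) (.e (nat_lit 24595) (nat_lit 0) (.e (nat_lit 7936) (nat_lit 357) (.e (nat_lit 2685) (nat_lit 168) .nil)))))) (.g (nat_lit 1) (.e (nat_lit 230768) (nat_lit 0) .nil) .nil)))))) (.nd (nat_lit 7) (.nd (nat_lit 8) (.nd (nat_lit 9) 
(.lf (nat_lit 523345) (.g (nat_lit 2351) (.e (nat_lit 204862) (nat_lit 27) (.e (nat_lit 344133) (nat_lit 26) (.e (nat_lit 557098) (nat_lit 13) (.e (nat_lit 172133) (nat_lit 15) (.e (nat_lit 1800) (nat_lit 119) (.e (nat_lit 516119) (nat_lit 1) (.e (nat_lit 164345) (nat_lit 240) (.e (nat_lit 2426) (nat_lit 157) (.e (nat_lit 2678) (nat_lit 168) .nil))))))))) (.g (nat_lit 1) (.e (nat_lit 229419) (nat_lit 0) .nil) .nil))) 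
(.lf (nat_lit 523857) (.g (nat_lit 3742) (.e (nat_lit 204864) (nat_lit 27) (.e (nat_lit 344130) (nat_lit 26) (.e (nat_lit 557097) (nat_lit 13) (.e (nat_lit 172133) (nat_lit 15) (.e (nat_lit 1800) (nat_lit 119) (.e (nat_lit 516119) (nat_lit 1) (.e (nat_lit 164345) (nat_lit 240) (.e (nat_lit 2426) (nat_lit 157) (.e (nat_lit 2678) (nat_lit 168) .nil))))))))) (.g (nat_lit 1) (.e (nat_lit 230043) (nat_lit 0) .nil) .nil)))) 
(.nd (nat_lit 9) 
(.lf (nat_lit 523601) (.g (nat_lit 3251) (.e (nat_lit 204863) (nat_lit 27) (.e (nat_lit 344131) (nat_lit 26) (.e (nat_lit 557098) (nat_lit 13) (.e (nat_lit 172067) (nat_lit 3) (.e (nat_lit 204821) (nat_lit 17) (.e (nat_lit 2391) (nat_lit 156) (.e (nat_lit 819204) (nat_lit 0) (.e (nat_lit 2685) (nat_lit 168) .nil)))))))) (.g (nat_lit 1) (.e (nat_lit 229749) (nat_lit 0) .nil) .nil))) 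
(.lf (nat_lit 524113) (.g (nat_lit 3840) (.e (nat_lit 204868) (nat_lit 29) (.e (nat_lit 360467) (nat_lit 3) (.e (nat_lit 516139) (nat_lit 7) (.e (nat_lit 409649) (nat_lit 18) (.e (nat_lit 303118) (nat_lit 3) .nil))))) (.g (nat_lit 1) (.e (nat_lit 230683) (nat_lit 0) .nil) .nil))))) (.nd (nat_lit 8) (.nd (nat_lit 9) 
(.lf (nat_lit 523473) (.g (nat_lit 3774) (.e (nat_lit 204863) (nat_lit 27) (.e (nat_lit 344117) (nat_lit 21) (.e (nat_lit 516116) (nat_lit 1) (.e (nat_lit 164182) (nat_lit 154) (.e (nat_lit 57373) (nat_lit 2) (.e (nat_lit 90128) (nat_lit 9) (.e (nat_lit 2706) (nat_lit 170) (.e (nat_lit 221214) (nat_lit 23) .nil)))))))) (.g (nat_lit 1) (.e (nat_lit 229584) (nat_lit 0) .nil) .nil))) 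
(.lf (nat_lit 523985) (.g (nat_lit 2642) (.e (nat_lit 204865) (nat_lit 28) (.e (nat_lit 352312) (nat_lit 22) (.e (nat_lit 90165) (nat_lit 12) (.e (nat_lit 164208) (nat_lit 176) (.e (nat_lit 2819) (nat_lit 181) (.e (nat_lit 311315) (nat_lit 3) .nil)))))) (.g (nat_lit 1) (.e (nat_lit 230234) (nat_lit 0) .nil) .nil)))) (.nd (nat_lit 9) 
(.lf (nat_lit 523729) (.g (nat_lit 2599) (.e (nat_lit 204863) (nat_lit 27) (.e (nat_lit 344133) (nat_lit 26) (.e (nat_lit 557098) (nat_lit 13) (.e (nat_lit 172064) (nat_lit 2) (.e (nat_lit 196686) (nat_lit 18) .nil))))) (.g (nat_lit 0) (.e (nat_lit 229880) (nat_lit 0) .nil) .nil))) 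
(.lf (nat_lit 524241) (.g (nat_lit 1165) (.e (nat_lit 204868) (nat_lit 29) (.e (nat_lit 360473) (nat_lit 8) (.e (nat_lit 557091) (nat_lit 12) (.e (nat_lit 163847) (nat_lit 0) .nil)))) (.g (nat_lit 0) (.e (nat_lit 230839) (nat_lit 0) .nil) .nil))))))) (.nd (nat_lit 6) (.nd (nat_lit 7) (.nd (nat_lit 8) (.nd (nat_lit 9) 
(.lf (nat_lit 523313) (.g (nat_lit 2603) (.e (nat_lit 204862) (nat_lit 27) (.e (nat_lit 344132) (nat_lit 26) (.e (nat_lit 557105) (nat_lit 14) (.e (nat_lit 180251) (nat_lit 10) (.e (nat_lit 573477) (nat_lit 12) (.e (nat_lit 57511) (nat_lit 39) (.e (nat_lit 655104) (nat_lit 0) (.e (nat_lit 2684) (nat_lit 168) .nil)))))))) (.g (nat_lit 1) (.e (nat_lit 229386) (nat_lit 0) .nil) .nil))) 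
(.lf (nat_lit 523825) (.g (nat_lit 4408) (.e (nat_lit 204863) (nat_lit 27) (.e (nat_lit 344133) (nat_lit 26) (.e (nat_lit 557105) (nat_lit 14) (.e (nat_lit 180252) (nat_lit 10) (.e (nat_lit 573475) (nat_lit 12) (.e (nat_lit 57506) (nat_lit 39) (.e (nat_lit 655104) (nat_lit 0) (.e (nat_lit 2684) (nat_lit 168) .nil)))))))) (.g (nat_lit 1) (.e (nat_lit 229976) (nat_lit 0) .nil) .nil)))) 
(.nd (nat_lit 9) 
(.lf (nat_lit 523569) (.g (nat_lit 3237) (.e (nat_lit 204863) (nat_lit 27) (.e (nat_lit 344129) (nat_lit 26) (.e (nat_lit 557104) (nat_lit 14) (.e (nat_lit 180252) (nat_lit 10) (.e (nat_lit 573475) (nat_lit 12) (.e (nat_lit 57508) (nat_lit 39) (.e (nat_lit 655104) (nat_lit 0) (.e (nat_lit 2684) (nat_lit 168) .nil)))))))) (.g (nat_lit 1) (.e (nat_lit 229717) (nat_lit 0) .nil) .nil))) 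
(.lf (nat_lit 524081) (.g (nat_lit 1952) (.e (nat_lit 204868) (nat_lit 29) (.e (nat_lit 360466) (nat_lit 3) (.e (nat_lit 516139) (nat_lit 7) (.e (nat_lit 409648) (nat_lit 18) (.e (nat_lit 311040) (nat_lit 3) .nil))))) (.g (nat_lit 1) (.e (nat_lit 230568) (nat_lit 0) .nil) .nil))))) (.nd (nat_lit 8) (.nd (nat_lit 9) 
(.lf (nat_lit 523441) (.g (nat_lit 1804) (.e (nat_lit 204862) (nat_lit 27) (.e (nat_lit 344160) (nat_lit 37) (.e (nat_lit 647195) (nat_lit 9) (.e (nat_lit 1234) (nat_lit 91) .nil)))) (.g (nat_lit 0) (.e (nat_lit 229521) (nat_lit 0) .nil) .nil))) 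
(.lf (nat_lit 523953) (.g (nat_lit 3085) (.e (nat_lit 204864) (nat_lit 27) (.e (nat_lit 344133) (nat_lit 26) (.e (nat_lit 557105) (nat_lit 14) (.e (nat_lit 180252) (nat_lit 10) (.e (nat_lit 573474) (nat_lit 12) (.e (nat_lit 57347) (nat_lit 0) (.e (nat_lit 5438) (nat_lit 306) (.e (nat_lit 2433) (nat_lit 157) (.e (nat_lit 2685) (nat_lit 168) .nil))))))))) (.g (nat_lit 1) (.e (nat_lit 230139) (nat_lit 0) .nil) .nil)))) 
(.nd (nat_lit 9) 
(.lf (nat_lit 523697) (.g (nat_lit 2291) (.e (nat_lit 204863) (nat_lit 27) (.e (nat_lit 344132) (nat_lit 26) (.e (nat_lit 557105) (nat_lit 14) (.e (nat_lit 180252) (nat_lit 10) (.e (nat_lit 573475) (nat_lit 12) (.e (nat_lit 57360) (nat_lit 0) (.e (nat_lit 5448) (nat_lit 306) (.e (nat_lit 2433) (nat_lit 157) (.e (nat_lit 2685) (nat_lit 168) .nil))))))))) (.g (nat_lit 1) (.e (nat_lit 229846) (nat_lit 0) .nil) .nil))) 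
(.lf (nat_lit 524209) (.g (nat_lit 3664) (.e (nat_lit 204868) (nat_lit 29) (.e (nat_lit 360473) (nat_lit 8) (.e (nat_lit 557089) (nat_lit 12) (.e (nat_lit 164020) (nat_lit 45) (.e (nat_lit 696344) (nat_lit 8) (.e (nat_lit 172065) (nat_lit 3) .nil)))))) (.g (nat_lit 1) (.e (nat_lit 230803) (nat_lit 0) .nil) .nil)))))) (.nd (nat_lit 7) (.nd (nat_lit 8) (.nd (nat_lit 9) 
(.lf (nat_lit 523377) (.g (nat_lit 2633) (.e (nat_lit 204862) (nat_lit 27) (.e (nat_lit 344133) (nat_lit 26) (.e (nat_lit 557103) (nat_lit 14) (.e (nat_lit 180250) (nat_lit 10) (.e (nat_lit 573475) (nat_lit 12) (.e (nat_lit 57508) (nat_lit 39) (.e (nat_lit 647168) (nat_lit 0) (.e (nat_lit 2685) (nat_lit 168) .nil)))))))) (.g (nat_lit 1) (.e (nat_lit 229451) (nat_lit 0) .nil) .nil))) 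
(.lf (nat_lit 523889) (.g (nat_lit 2446) (.e (nat_lit 204864) (nat_lit 27) (.e (nat_lit 344132) (nat_lit 26) (.e (nat_lit 557100) (nat_lit 13) (.e (nat_lit 172138) (nat_lit 15) (.e (nat_lit 1800) (nat_lit 119) (.e (nat_lit 516119) (nat_lit 1) (.e (nat_lit 164345) (nat_lit 240) (.e (nat_lit 2426) (nat_lit 157) (.e (nat_lit 2680) (nat_lit 168) .nil))))))))) (.g (nat_lit 1) (.e (nat_lit 230075) (nat_lit 0) .nil) .nil)))) 
(.nd (nat_lit 9) 
(.lf (nat_lit 523633) (.g (nat_lit 3585) (.e (nat_lit 204863) (nat_lit 27) (.e (nat_lit 344131) (nat_lit 26) (.e (nat_lit 557105) (nat_lit 14) (.e (nat_lit 180252) (nat_lit 10) (.e (nat_lit 573475) (nat_lit 12) (.e (nat_lit 57506) (nat_lit 39) (.e (nat_lit 655104) (nat_lit 0) (.e (nat_lit 2684) (nat_lit 168) .nil)))))))) (.g (nat_lit 1) (.e (nat_lit 229781) (nat_lit 0) .nil) .nil))) 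
(.lf (nat_lit 524145) (.g (nat_lit 2463) (.e (nat_lit 204868) (nat_lit 29) (.e (nat_lit 360473) (nat_lit 8) (.e (nat_lit 557073) (nat_lit 9) (.e (nat_lit 220) (nat_lit 20) (.e (nat_lit 327700) (nat_lit 8) (.e (nat_lit 303118) (nat_lit 3) .nil)))))) (.g (nat_lit 1) (.e (nat_lit 230727) (nat_lit 0) .nil) .nil))))) (.nd (nat_lit 8) (.nd (nat_lit 9) 
(.lf (nat_lit 523505) (.g (nat_lit 2995) (.e (nat_lit 204863) (nat_lit 27) (.e (nat_lit 344117) (nat_lit 21) (.e (nat_lit 516195) (nat_lit 26) (.e (nat_lit 336027) (nat_lit 3) (.e (nat_lit 98319) (nat_lit 17) .nil))))) (.g (nat_lit 0) (.e (nat_lit 229637) (nat_lit 0) .nil) .nil))) 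
(.lf (nat_lit 524017) (.g (nat_lit 3850) (.e (nat_lit 204866) (nat_lit 28) (.e (nat_lit 352313) (nat_lit 23) (.e (nat_lit 98350) (nat_lit 24) (.e (nat_lit 409647) (nat_lit 18) (.e (nat_lit 303118) (nat_lit 3) .nil))))) (.g (nat_lit 1) (.e (nat_lit 230377) (nat_lit 0) .nil) .nil)))) (.nd (nat_lit 9) 
(.lf (nat_lit 523761) (.g (nat_lit 2905) (.e (nat_lit 204863) (nat_lit 27) (.e (nat_lit 344133) (nat_lit 26) (.e (nat_lit 557103) (nat_lit 14) (.e (nat_lit 180250) (nat_lit 10) (.e (nat_lit 573475) (nat_lit 12) (.e (nat_lit 57507) (nat_lit 39) (.e (nat_lit 655104) (nat_lit 0) (.e (nat_lit 2685) (nat_lit 168) .nil)))))))) (.g (nat_lit 1) (.e (nat_lit 229912) (nat_lit 0) .nil) .nil))) 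
(.lf (nat_lit 524273) (.g (nat_lit 2794) (.e (nat_lit 204868) (nat_lit 29) (.e (nat_lit 360473) (nat_lit 8) (.e (nat_lit 557094) (nat_lit 12) (.e (nat_lit 163849) (nat_lit 0) (.e (nat_lit 6254) (nat_lit 337) (.e (nat_lit 2725) (nat_lit 172) (.e (nat_lit 237594) (nat_lit 3) .nil))))))) (.g (nat_lit 1) (.e (nat_lit 230905) (nat_lit 0) .nil) .nil))))))))) 
(.nd (nat_lit 4) (.nd (nat_lit 5) (.nd (nat_lit 6) (.nd (nat_lit 7) (.nd (nat_lit 8) 
(.nd (nat_lit 9) 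
(.lf (nat_lit 523273) (.g (nat_lit 3312) (.e (nat_lit 204862) (nat_lit 27) (.e (nat_lit 344130) (nat_lit 26) (.e (nat_lit 557104) (nat_lit 14) (.e (nat_lit 180252) (nat_lit 10) (.e (nat_lit 573474) (nat_lit 12) (.e (nat_lit 57506) (nat_lit 39) (.e (nat_lit 647175) (nat_lit 0) (.e (nat_lit 2684) (nat_lit 168) .nil)))))))) (.g (nat_lit 1) (.e (nat_lit 229346) (nat_lit 0) .nil) .nil))) 
(.lf (nat_lit 523785) (.g (nat_lit 2866) (.e (nat_lit 204863) (nat_lit 27) (.e (nat_lit 344133) (nat_lit 26) (.e (nat_lit 557105) (nat_lit 14) (.e (nat_lit 180252) (nat_lit 10) (.e (nat_lit 573473) (nat_lit 12) (.e (nat_lit 57508) (nat_lit 39) (.e (nat_lit 655104) (nat_lit 0) (.e (nat_lit 2685) (nat_lit 168) .nil)))))))) (.g (nat_lit 1) (.e (nat_lit 229936) (nat_lit 0) .nil) .nil)))) 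
(.nd (nat_lit 9) 
(.lf (nat_lit 523529) (.g (nat_lit 2775) (.e (nat_lit 204863) (nat_lit 27) (.e (nat_lit 344129) (nat_lit 26) (.e (nat_lit 557097) (nat_lit 13) (.e (nat_lit 172064) (nat_lit 2) (.e (nat_lit 204544) (nat_lit 2) (.e (nat_lit 32512) (nat_lit 18) .nil)))))) (.g (nat_lit 1) (.e (nat_lit 229677) (nat_lit 0) .nil) .nil))) 
(.lf (nat_lit 524041) (.g (nat_lit 1508) (.e (nat_lit 204867) (nat_lit 28) (.e (nat_lit 352315) (nat_lit 23) (.e (nat_lit 98350) (nat_lit 24) (.e (nat_lit 417536) (nat_lit 18) .nil)))) (.g (nat_lit 0) (.e (nat_lit 230471) (nat_lit 0) .nil) .nil))))) (.nd (nat_lit 8) (.nd (nat_lit 9) 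
(.lf (nat_lit 523401) (.g (nat_lit 4205) (.e (nat_lit 204862) (nat_lit 27) (.e (nat_lit 344133) (nat_lit 26) (.e (nat_lit 557105) (nat_lit 14) (.e (nat_lit 180252) (nat_lit 10) (.e (nat_lit 573473) (nat_lit 12) (.e (nat_lit 57511) (nat_lit 39) (.e (nat_lit 655104) (nat_lit 0) (.e (nat_lit 2684) (nat_lit 168) .nil)))))))) (.g (nat_lit 1) (.e (nat_lit 229475) (nat_lit 0) .nil) .nil))) 
(.lf (nat_lit 523913) (.g (nat_lit 3929) (.e (nat_lit 204864) (nat_lit 27) (.e (nat_lit 344132) (nat_lit 26) (.e (nat_lit 557105) (nat_lit 14) (.e (nat_lit 180252) (nat_lit 10) (.e (nat_lit 573474) (nat_lit 12) (.e (nat_lit 57508) (nat_lit 39) (.e (nat_lit 647170) (nat_lit 0) (.e (nat_lit 2685) (nat_lit 168) .nil)))))))) (.g (nat_lit 1) (.e (nat_lit 230099) (nat_lit 0) .nil) .nil)))) 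
(.nd (nat_lit 9) 
(.lf (nat_lit 523657) (.g (nat_lit 2019) (.e (nat_lit 204863) (nat_lit 27) (.e (nat_lit 344132) (nat_lit 26) (.e (nat_lit 557101) (nat_lit 13) (.e (nat_lit 172064) (nat_lit 2) (.e (nat_lit 196686) (nat_lit 18) .nil))))) (.g (nat_lit 0) (.e (nat_lit 229806) (nat_lit 0) .nil) .nil))) 
(.lf (nat_lit 524169) (.g (nat_lit 2652) (.e (nat_lit 204868) (nat_lit 29) (.e (nat_lit 360473) (nat_lit 8) (.e (nat_lit 557087) (nat_lit 11) (.e (nat_lit 24584) (nat_lit 0) (.e (nat_lit 6651) (nat_lit 357) .nil))))) (.g (nat_lit 0) (.e (nat_lit 230759) (nat_lit 0) .nil) .nil)))))) (.nd (nat_lit 7) (.nd (nat_lit 8) (.nd (nat_lit 9) 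
(.lf (nat_lit 523337) (.g (nat_lit 1760) (.e (nat_lit 204862) (nat_lit 27) (.e (nat_lit 344133) (nat_lit 26) (.e (nat_lit 557098) (nat_lit 13) (.e (nat_lit 172066) (nat_lit 3) .nil)))) (.g (nat_lit 0) (.e (nat_lit 229411) (nat_lit 0) .nil) .nil))) 
(.lf (nat_lit 523849) (.g (nat_lit 1645) (.e (nat_lit 204863) (nat_lit 27) (.e (nat_lit 344160) (nat_lit 37) (.e (nat_lit 647190) (nat_lit 9) (.e (nat_lit 50) (nat_lit 0) .nil)))) (.g (nat_lit 0) (.e (nat_lit 230021) (nat_lit 0) .nil) .nil)))) (.nd (nat_lit 9) 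
(.lf (nat_lit 523593) (.g (nat_lit 2983) (.e (nat_lit 204863) (nat_lit 27) (.e (nat_lit 344130) (nat_lit 26) (.e (nat_lit 557104) (nat_lit 14) (.e (nat_lit 180252) (nat_lit 10) (.e (nat_lit 573474) (nat_lit 12) (.e (nat_lit 57507) (nat_lit 39) (.e (nat_lit 647176) (nat_lit 0) (.e (nat_lit 2681) (nat_lit 168) .nil)))))))) (.g (nat_lit 1) (.e (nat_lit 229741) (nat_lit 0) .nil) .nil))) 
(.lf (nat_lit 524105) (.g (nat_lit 2575) (.e (nat_lit 204868) (nat_lit 29) (.e (nat_lit 360467) (nat_lit 3) (.e (nat_lit 516139) (nat_lit 7) (.e (nat_lit 409616) (nat_lit 10) (.e (nat_lit 5612) (nat_lit 312) (.e (nat_lit 2685) (nat_lit 168) .nil)))))) (.g (nat_lit 1) (.e (nat_lit 230675) (nat_lit 0) .nil) .nil))))) (.nd (nat_lit 8) (.nd (nat_lit 9) 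
(.lf (nat_lit 523465) (.g (nat_lit 3440) (.e (nat_lit 204863) (nat_lit 27) (.e (nat_lit 344117) (nat_lit 21) (.e (nat_lit 516115) (nat_lit 1) (.e (nat_lit 164183) (nat_lit 154) (.e (nat_lit 57378) (nat_lit 3) (.e (nat_lit 98321) (nat_lit 17) (.e (nat_lit 3771) (nat_lit 229) (.e (nat_lit 794673) (nat_lit 23) .nil)))))))) (.g (nat_lit 1) (.e (nat_lit 229575) (nat_lit 0) .nil) .nil))) 
(.lf (nat_lit 523977) (.g (nat_lit 2810) (.e (nat_lit 204865) (nat_lit 28) (.e (nat_lit 352277) (nat_lit 11) (.e (nat_lit 426500) (nat_lit 27) (.e (nat_lit 335988) (nat_lit 1) (.e (nat_lit 57927) (nat_lit 282) (.e (nat_lit 163873) (nat_lit 3) .nil)))))) (.g (nat_lit 1) (.e (nat_lit 230214) (nat_lit 0) .nil) .nil)))) (.nd (nat_lit 9) 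
(.lf (nat_lit 523721) (.g (nat_lit 1899) (.e (nat_lit 204863) (nat_lit 27) (.e (nat_lit 344133) (nat_lit 26) (.e (nat_lit 557096) (nat_lit 13) (.e (nat_lit 172064) (nat_lit 2) (.e (nat_lit 196661) (nat_lit 12) .nil))))) (.g (nat_lit 0) (.e (nat_lit 229872) (nat_lit 0) .nil) .nil))) 
(.lf (nat_lit 524233) (.g (nat_lit 2768) (.e (nat_lit 204868) (nat_lit 29) (.e (nat_lit 360473) (nat_lit 8) (.e (nat_lit 557091) (nat_lit 12) (.e (nat_lit 163843) (nat_lit 0) (.e (nat_lit 6421) (nat_lit 341) (.e (nat_lit 163911) (nat_lit 12) (.e (nat_lit 426135) (nat_lit 3) .nil))))))) (.g (nat_lit 1) (.e (nat_lit 230830) (nat_lit 0) .nil) .nil))))))) 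
(.nd (nat_lit 6) (.nd (nat_lit 7) (.nd (nat_lit 8) (.nd (nat_lit 9) 
(.lf (nat_lit 523305) (.g (nat_lit 1569) (.e (nat_lit 204862) (nat_lit 27) (.e (nat_lit 344132) (nat_lit 26) (.e (nat_lit 557101) (nat_lit 13) (.e (nat_lit 172071) (nat_lit 5) (.e (nat_lit 245772) (nat_lit 2) (.e (nat_lit 32512) (nat_lit 18) .nil)))))) (.g (nat_lit 1) (.e (nat_lit 229378) (nat_lit 0) .nil) .nil))) 
(.lf (nat_lit 523817) (.g (nat_lit 3326) (.e (nat_lit 204863) (nat_lit 27) (.e (nat_lit 344133) (nat_lit 26) (.e (nat_lit 557105) (nat_lit 14) (.e (nat_lit 180252) (nat_lit 10) (.e (nat_lit 573474) (nat_lit 12) (.e (nat_lit 57510) (nat_lit 39) (.e (nat_lit 655104) (nat_lit 0) (.e (nat_lit 2684) (nat_lit 168) .nil)))))))) (.g (nat_lit 1) (.e (nat_lit 229968) (nat_lit 0) .nil) .nil)))) 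
(.nd (nat_lit 9) 
(.lf (nat_lit 523561) (.g (nat_lit 3993) (.e (nat_lit 204863) (nat_lit 27) (.e (nat_lit 344129) (nat_lit 26) (.e (nat_lit 557104) (nat_lit 14) (.e (nat_lit 180252) (nat_lit 10) (.e (nat_lit 573474) (nat_lit 12) (.e (nat_lit 57507) (nat_lit 39) (.e (nat_lit 655104) (nat_lit 0) (.e (nat_lit 2684) (nat_lit 168) .nil)))))))) (.g (nat_lit 1) (.e (nat_lit 229709) (nat_lit 0) .nil) .nil))) 
(.lf (nat_lit 524073) (.g (nat_lit 2487) (.e (nat_lit 204868) (nat_lit 29) (.e (nat_lit 360466) (nat_lit 3) (.e (nat_lit 516139) (nat_lit 7) (.e (nat_lit 409617) (nat_lit 10) (.e (nat_lit 5710) (nat_lit 312) .nil))))) (.g (nat_lit 0) (.e (nat_lit 230560) (nat_lit 0) .nil) .nil))))) (.nd (nat_lit 8) (.nd (nat_lit 9) 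
(.lf (nat_lit 523433) (.g (nat_lit 4326) (.e (nat_lit 204862) (nat_lit 27) (.e (nat_lit 344133) (nat_lit 26) (.e (nat_lit 557105) (nat_lit 14) (.e (nat_lit 180252) (nat_lit 10) (.e (nat_lit 573475) (nat_lit 12) (.e (nat_lit 57509) (nat_lit 39) (.e (nat_lit 655104) (nat_lit 0) (.e (nat_lit 2684) (nat_lit 168) .nil)))))))) (.g (nat_lit 1) (.e (nat_lit 229507) (nat_lit 0) .nil) .nil))) 
(.lf (nat_lit 523945) (.g (nat_lit 2792) (.e (nat_lit 204864) (nat_lit 27) (.e (nat_lit 344133) (nat_lit 26) (.e (nat_lit 557105) (nat_lit 14) (.e (nat_lit 180252) (nat_lit 10) (.e (nat_lit 573451) (nat_lit 9) .nil))))) (.g (nat_lit 0) (.e (nat_lit 230131) (nat_lit 0) .nil) .nil)))) (.nd (nat_lit 9) 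
(.lf (nat_lit 523689) (.g (nat_lit 4112) (.e (nat_lit 204863) (nat_lit 27) (.e (nat_lit 344132) (nat_lit 26) (.e (nat_lit 557105) (nat_lit 14) (.e (nat_lit 180252) (nat_lit 10) (.e (nat_lit 573474) (nat_lit 12) (.e (nat_lit 57508) (nat_lit 39) (.e (nat_lit 647168) (nat_lit 0) (.e (nat_lit 2685) (nat_lit 168) .nil)))))))) (.g (nat_lit 1) (.e (nat_lit 229838) (nat_lit 0) .nil) .nil))) 
(.lf (nat_lit 524201) (.g (nat_lit 2939) (.e (nat_lit 204868) (nat_lit 29) (.e (nat_lit 360473) (nat_lit 8) (.e (nat_lit 557089) (nat_lit 12) (.e (nat_lit 163849) (nat_lit 0) (.e (nat_lit 6255) (nat_lit 337) (.e (nat_lit 2725) (nat_lit 172) (.e (nat_lit 237592) (nat_lit 3) .nil))))))) (.g (nat_lit 1) (.e (nat_lit 230794) (nat_lit 0) .nil) .nil)))))) 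
(.nd (nat_lit 7) (.nd (nat_lit 8) (.nd (nat_lit 9) 
(.lf (nat_lit 523369) (.g (nat_lit 2982) (.e (nat_lit 204862) (nat_lit 27) (.e (nat_lit 344133) (nat_lit 26) (.e (nat_lit 557103) (nat_lit 14) (.e (nat_lit 180250) (nat_lit 10) (.e (nat_lit 573474) (nat_lit 12) (.e (nat_lit 57507) (nat_lit 39) (.e (nat_lit 655104) (nat_lit 0) (.e (nat_lit 2685) (nat_lit 168) .nil)))))))) (.g (nat_lit 1) (.e (nat_lit 229443) (nat_lit 0) .nil) .nil))) 
(.lf (nat_lit 523881) (.g (nat_lit 2674) (.e (nat_lit 204864) (nat_lit 27) (.e (nat_lit 344132) (nat_lit 26) (.e (nat_lit 557100) (nat_lit 13) (.e (nat_lit 172065) (nat_lit 3) (.e (nat_lit 204821) (nat_lit 17) .nil))))) (.g (nat_lit 0) (.e (nat_lit 230067) (nat_lit 0) .nil) .nil)))) (.nd (nat_lit 9) 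
(.lf (nat_lit 523625) (.g (nat_lit 3024) (.e (nat_lit 204863) (nat_lit 27) (.e (nat_lit 344131) (nat_lit 26) (.e (nat_lit 557105) (nat_lit 14) (.e (nat_lit 180252) (nat_lit 10) (.e (nat_lit 573474) (nat_lit 12) (.e (nat_lit 57506) (nat_lit 39) (.e (nat_lit 647176) (nat_lit 0) (.e (nat_lit 2681) (nat_lit 168) .nil)))))))) (.g (nat_lit 1) (.e (nat_lit 229773) (nat_lit 0) .nil) .nil))) 
(.lf (nat_lit 524137) (.g (nat_lit 1907) (.e (nat_lit 204868) (nat_lit 29) (.e (nat_lit 360473) (nat_lit 8) (.e (nat_lit 557067) (nat_lit 9) (.e (nat_lit 2739) (nat_lit 174) .nil)))) (.g (nat_lit 0) (.e (nat_lit 230718) (nat_lit 0) .nil) .nil))))) (.nd (nat_lit 8) (.nd (nat_lit 9) 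
(.lf (nat_lit 523497) (.g (nat_lit 2986) (.e (nat_lit 204863) (nat_lit 27) (.e (nat_lit 344117) (nat_lit 21) (.e (nat_lit 516130) (nat_lit 3) (.e (nat_lit 221213) (nat_lit 23) (.e (nat_lit 204830) (nat_lit 18) (.e (nat_lit 57925) (nat_lit 282) (.e (nat_lit 163875) (nat_lit 3) .nil))))))) (.g (nat_lit 1) (.e (nat_lit 229622) (nat_lit 0) .nil) .nil))) 
(.lf (nat_lit 524009) (.g (nat_lit 362) (.e (nat_lit 204866) (nat_lit 28) (.e (nat_lit 352277) (nat_lit 11) (.e (nat_lit 426500) (nat_lit 27) .nil))) (.g (nat_lit 0) (.e (nat_lit 230325) (nat_lit 0) .nil) .nil)))) (.nd (nat_lit 9) 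
(.lf (nat_lit 523753) (.g (nat_lit 3149) (.e (nat_lit 204863) (nat_lit 27) (.e (nat_lit 344133) (nat_lit 26) (.e (nat_lit 557103) (nat_lit 14) (.e (nat_lit 180250) (nat_lit 10) (.e (nat_lit 573473) (nat_lit 12) (.e (nat_lit 57511) (nat_lit 39) (.e (nat_lit 647171) (nat_lit 0) (.e (nat_lit 2681) (nat_lit 168) .nil)))))))) (.g (nat_lit 1) (.e (nat_lit 229904) (nat_lit 0) .nil) .nil))) 
(.lf (nat_lit 524265) (.g (nat_lit 3479) (.e (nat_lit 204868) (nat_lit 29) (.e (nat_lit 360473) (nat_lit 8) (.e (nat_lit 557093) (nat_lit 12) (.e (nat_lit 164022) (nat_lit 46) (.e (nat_lit 704629) (nat_lit 9) (.e (nat_lit 375) (nat_lit 32) (.e (nat_lit 426135) (nat_lit 3) .nil))))))) (.g (nat_lit 1) (.e (nat_lit 230891) (nat_lit 0) .nil) .nil)))))))) 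
(.nd (nat_lit 5) (.nd (nat_lit 6) (.nd (nat_lit 7) (.nd (nat_lit 8) (.nd (nat_lit 9) 
(.lf (nat_lit 523289) (.g (nat_lit 2070) (.e (nat_lit 204862) (nat_lit 27) (.e (nat_lit 344132) (nat_lit 26) (.e (nat_lit 557100) (nat_lit 13) (.e (nat_lit 172049) (nat_lit 0) (.e (nat_lit 3289) (nat_lit 201) .nil))))) (.g (nat_lit 0) (.e (nat_lit 229362) (nat_lit 0) .nil) .nil))) 
(.lf (nat_lit 523801) (.g (nat_lit 4481) (.e (nat_lit 204863) (nat_lit 27) (.e (nat_lit 344133) (nat_lit 26) (.e (nat_lit 557105) (nat_lit 14) (.e (nat_lit 180252) (nat_lit 10) (.e (nat_lit 573474) (nat_lit 12) (.e (nat_lit 57506) (nat_lit 39) (.e (nat_lit 647176) (nat_lit 0) (.e (nat_lit 2681) (nat_lit 168) .nil)))))))) (.g (nat_lit 1) (.e (nat_lit 229952) (nat_lit 0) .nil) .nil)))) 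
(.nd (nat_lit 9) 
(.lf (nat_lit 523545) (.g (nat_lit 4037) (.e (nat_lit 204863) (nat_lit 27) (.e (nat_lit 344129) (nat_lit 26) (.e (nat_lit 557103) (nat_lit 14) (.e (nat_lit 180250) (nat_lit 10) (.e (nat_lit 573475) (nat_lit 12) (.e (nat_lit 57507) (nat_lit 39) (.e (nat_lit 655104) (nat_lit 0) (.e (nat_lit 2684) (nat_lit 168) .nil)))))))) (.g (nat_lit 1) (.e (nat_lit 229693) (nat_lit 0) .nil) .nil))) 
(.lf (nat_lit 524057) (.g (nat_lit 2889) (.e (nat_lit 204868) (nat_lit 29) (.e (nat_lit 360466) (nat_lit 3) (.e (nat_lit 516138) (nat_lit 7) (.e (nat_lit 409643) (nat_lit 18) (.e (nat_lit 303118) (nat_lit 3) .nil))))) (.g (nat_lit 1) (.e (nat_lit 230544) (nat_lit 0) .nil) .nil))))) (.nd (nat_lit 8) (.nd (nat_lit 9) 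
(.lf (nat_lit 523417) (.g (nat_lit 3039) (.e (nat_lit 204862) (nat_lit 27) (.e (nat_lit 344133) (nat_lit 26) (.e (nat_lit 557105) (nat_lit 14) (.e (nat_lit 180252) (nat_lit 10) (.e (nat_lit 573474) (nat_lit 12) (.e (nat_lit 57508) (nat_lit 39) (.e (nat_lit 655104) (nat_lit 0) (.e (nat_lit 2685) (nat_lit 168) .nil)))))))) (.g (nat_lit 1) (.e (nat_lit 229491) (nat_lit 0) .nil) .nil))) 
(.lf (nat_lit 523929) (.g (nat_lit 1912) (.e (nat_lit 204864) (nat_lit 27) (.e (nat_lit 344133) (nat_lit 26) (.e (nat_lit 557098) (nat_lit 13) (.e (nat_lit 172132) (nat_lit 15) .nil)))) (.g (nat_lit 0) (.e (nat_lit 230115) (nat_lit 0) .nil) .nil)))) (.nd (nat_lit 9) 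
(.lf (nat_lit 523673) (.g (nat_lit 2776) (.e (nat_lit 204863) (nat_lit 27) (.e (nat_lit 344132) (nat_lit 26) (.e (nat_lit 557105) (nat_lit 14) (.e (nat_lit 180252) (nat_lit 10) (.e (nat_lit 573473) (nat_lit 12) (.e (nat_lit 57511) (nat_lit 39) (.e (nat_lit 647171) (nat_lit 0) (.e (nat_lit 2683) (nat_lit 168) .nil)))))))) (.g (nat_lit 1) (.e (nat_lit 229822) (nat_lit 0) .nil) .nil))) 
(.lf (nat_lit 524185) (.g (nat_lit 2287) (.e (nat_lit 204868) (nat_lit 29) (.e (nat_lit 360473) (nat_lit 8) (.e (nat_lit 557089) (nat_lit 12) (.e (nat_lit 163843) (nat_lit 0) (.e (nat_lit 6255) (nat_lit 337) (.e (nat_lit 2725) (nat_lit 172) (.e (nat_lit 237593) (nat_lit 3) .nil))))))) (.g (nat_lit 1) (.e (nat_lit 230777) (nat_lit 0) .nil) .nil)))))) 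
(.nd (nat_lit 7) (.nd (nat_lit 8) (.nd (nat_lit 9) 
(.lf (nat_lit 523353) (.g (nat_lit 2364) (.e (nat_lit 204862) (nat_lit 27) (.e (nat_lit 344133) (nat_lit 26) (.e (nat_lit 557103) (nat_lit 14) (.e (nat_lit 180243) (nat_lit 5) (.e (nat_lit 532504) (nat_lit 1) (.e (nat_lit 57703) (nat_lit 164) (.e (nat_lit 2422) (nat_lit 157) (.e (nat_lit 2685) (nat_lit 168) .nil)))))))) (.g (nat_lit 1) (.e (nat_lit 229427) (nat_lit 0) .nil) .nil))) 
(.lf (nat_lit 523865) (.g (nat_lit 3273) (.e (nat_lit 204864) (nat_lit 27) (.e (nat_lit 344130) (nat_lit 26) (.e (nat_lit 557103) (nat_lit 14) (.e (nat_lit 180250) (nat_lit 10) (.e (nat_lit 573474) (nat_lit 12) (.e (nat_lit 57507) (nat_lit 39) (.e (nat_lit 647170) (nat_lit 0) (.e (nat_lit 2685) (nat_lit 168) .nil)))))))) (.g (nat_lit 1) (.e (nat_lit 230051) (nat_lit 0) .nil) .nil)))) 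
(.nd (nat_lit 9) 
(.lf (nat_lit 523609) (.g (nat_lit 3171) (.e (nat_lit 204863) (nat_lit 27) (.e (nat_lit 344131) (nat_lit 26) (.e (nat_lit 557103) (nat_lit 14) (.e (nat_lit 180250) (nat_lit 10) (.e (nat_lit 573474) (nat_lit 12) (.e (nat_lit 57507) (nat_lit 39) (.e (nat_lit 647176) (nat_lit 0) (.e (nat_lit 2681) (nat_lit 168) .nil)))))))) (.g (nat_lit 1) (.e (nat_lit 229757) (nat_lit 0) .nil) .nil))) 
(.lf (nat_lit 524121) (.g (nat_lit 1446) (.e (nat_lit 204868) (nat_lit 29) (.e (nat_lit 360471) (nat_lit 7) (.e (nat_lit 548874) (nat_lit 5) (.e (nat_lit 1413) (nat_lit 108) .nil)))) (.g (nat_lit 0) (.e (nat_lit 230691) (nat_lit 0) .nil) .nil))))) (.nd (nat_lit 8) (.nd (nat_lit 9) 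
(.lf (nat_lit 523481) (.g (nat_lit 2232) (.e (nat_lit 204863) (nat_lit 27) (.e (nat_lit 344117) (nat_lit 21) (.e (nat_lit 516118) (nat_lit 1) (.e (nat_lit 164179) (nat_lit 154) (.e (nat_lit 57377) (nat_lit 3) .nil))))) (.g (nat_lit 0) (.e (nat_lit 229606) (nat_lit 0) .nil) .nil))) 
(.lf (nat_lit 523993) (.g (nat_lit 1816) (.e (nat_lit 204865) (nat_lit 28) (.e (nat_lit 352315) (nat_lit 23) (.e (nat_lit 98350) (nat_lit 24) (.e (nat_lit 409616) (nat_lit 10) .nil)))) (.g (nat_lit 0) (.e (nat_lit 230246) (nat_lit 0) .nil) .nil)))) (.nd (nat_lit 9) 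
(.lf (nat_lit 523737) (.g (nat_lit 3226) (.e (nat_lit 204863) (nat_lit 27) (.e (nat_lit 344133) (nat_lit 26) (.e (nat_lit 557098) (nat_lit 13) (.e (nat_lit 172133) (nat_lit 15) (.e (nat_lit 1800) (nat_lit 119) (.e (nat_lit 516119) (nat_lit 1) (.e (nat_lit 164345) (nat_lit 240) (.e (nat_lit 2458) (nat_lit 157) (.e (nat_lit 2681) (nat_lit 168) .nil))))))))) (.g (nat_lit 1) (.e (nat_lit 229888) (nat_lit 0) .nil) .nil))) 
(.lf (nat_lit 524249) (.g (nat_lit 1554) (.e (nat_lit 204868) (nat_lit 29) (.e (nat_lit 360473) (nat_lit 8) (.e (nat_lit 557091) (nat_lit 12) (.e (nat_lit 164017) (nat_lit 44) .nil)))) (.g (nat_lit 0) (.e (nat_lit 230849) (nat_lit 0) .nil) .nil))))))) (.nd (nat_lit 6) (.nd (nat_lit 7) (.nd (nat_lit 8) (.nd (nat_lit 9) 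
(.lf (nat_lit 523321) (.g (nat_lit 3491) (.e (nat_lit 204862) (nat_lit 27) (.e (nat_lit 344132) (nat_lit 26) (.e (nat_lit 557105) (nat_lit 14) (.e (nat_lit 180252) (nat_lit 10) (.e (nat_lit 573474) (nat_lit 12) (.e (nat_lit 57506) (nat_lit 39) (.e (nat_lit 647175) (nat_lit 0) (.e (nat_lit 2684) (nat_lit 168) .nil)))))))) (.g (nat_lit 1) (.e (nat_lit 229394) (nat_lit 0) .nil) .nil))) 
(.lf (nat_lit 523833) (.g (nat_lit 4447) (.e (nat_lit 204863) (nat_lit 27) (.e (nat_lit 344133) (nat_lit 26) (.e (nat_lit 557105) (nat_lit 14) (.e (nat_lit 180252) (nat_lit 10) (.e (nat_lit 573475) (nat_lit 12) (.e (nat_lit 57508) (nat_lit 39) (.e (nat_lit 647175) (nat_lit 0) (.e (nat_lit 2684) (nat_lit 168) .nil)))))))) (.g (nat_lit 1) (.e (nat_lit 229984) (nat_lit 0) .nil) .nil)))) 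
(.nd (nat_lit 9) 
(.lf (nat_lit 523577) (.g (nat_lit 2981) (.e (nat_lit 204863) (nat_lit 27) (.e (nat_lit 344130) (nat_lit 26) (.e (nat_lit 557103) (nat_lit 14) (.e (nat_lit 180250) (nat_lit 10) (.e (nat_lit 573473) (nat_lit 12) (.e (nat_lit 57508) (nat_lit 39) (.e (nat_lit 647170) (nat_lit 0) (.e (nat_lit 2685) (nat_lit 168) .nil)))))))) (.g (nat_lit 1) (.e (nat_lit 229725) (nat_lit 0) .nil) .nil))) 
(.lf (nat_lit 524089) (.g (nat_lit 2220) (.e (nat_lit 204868) (nat_lit 29) (.e (nat_lit 360466) (nat_lit 3) (.e (nat_lit 516142) (nat_lit 8) (.e (nat_lit 417820) (nat_lit 10) (.e (nat_lit 5640) (nat_lit 312) (.e (nat_lit 2679) (nat_lit 168) .nil)))))) (.g (nat_lit 1) (.e (nat_lit 230584) (nat_lit 0) .nil) .nil))))) (.nd (nat_lit 8) (.nd (nat_lit 9) 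
(.lf (nat_lit 523449) (.g (nat_lit 2485) (.e (nat_lit 204863) (nat_lit 27) (.e (nat_lit 344117) (nat_lit 21) (.e (nat_lit 516097) (nat_lit 0) (.e (nat_lit 3605) (nat_lit 225) (.e (nat_lit 761899) (nat_lit 15) .nil))))) (.g (nat_lit 0) (.e (nat_lit 229536) (nat_lit 0) .nil) .nil))) 
(.lf (nat_lit 523961) (.g (nat_lit 3073) (.e (nat_lit 204864) (nat_lit 27) (.e (nat_lit 344133) (nat_lit 26) (.e (nat_lit 557105) (nat_lit 14) (.e (nat_lit 180252) (nat_lit 10) (.e (nat_lit 573475) (nat_lit 12) (.e (nat_lit 57508) (nat_lit 39) (.e (nat_lit 647168) (nat_lit 0) (.e (nat_lit 2685) (nat_lit 168) .nil)))))))) (.g (nat_lit 1) (.e (nat_lit 230147) (nat_lit 0) .nil) .nil)))) 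
(.nd (nat_lit 9) 
(.lf (nat_lit 523705) (.g (nat_lit 3667) (.e (nat_lit 204863) (nat_lit 27) (.e (nat_lit 344132) (nat_lit 26) (.e (nat_lit 557105) (nat_lit 14) (.e (nat_lit 180252) (nat_lit 10) (.e (nat_lit 573475) (nat_lit 12) (.e (nat_lit 57508) (nat_lit 39) (.e (nat_lit 647170) (nat_lit 0) (.e (nat_lit 2675) (nat_lit 168) .nil)))))))) (.g (nat_lit 1) (.e (nat_lit 229854) (nat_lit 0) .nil) .nil))) 
(.lf (nat_lit 524217) (.g (nat_lit 2414) (.e (nat_lit 204868) (nat_lit 29) (.e (nat_lit 360473) (nat_lit 8) (.e (nat_lit 557091) (nat_lit 12) (.e (nat_lit 163843) (nat_lit 0) (.e (nat_lit 6250) (nat_lit 337) .nil))))) (.g (nat_lit 0) (.e (nat_lit 230812) (nat_lit 0) .nil) .nil)))))) (.nd (nat_lit 7) (.nd (nat_lit 8) (.nd (nat_lit 9) 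
(.lf (nat_lit 523385) (.g (nat_lit 2353) (.e (nat_lit 204862) (nat_lit 27) (.e (nat_lit 344133) (nat_lit 26) (.e (nat_lit 557103) (nat_lit 14) (.e (nat_lit 180250) (nat_lit 10) (.e (nat_lit 573477) (nat_lit 12) (.e (nat_lit 57511) (nat_lit 39) (.e (nat_lit 647168) (nat_lit 0) (.e (nat_lit 2685) (nat_lit 168) .nil)))))))) (.g (nat_lit 1) (.e (nat_lit 229459) (nat_lit 0) .nil) .nil))) 
(.lf (nat_lit 523897) (.g (nat_lit 2327) (.e (nat_lit 204864) (nat_lit 27) (.e (nat_lit 344132) (nat_lit 26) (.e (nat_lit 557105) (nat_lit 14) (.e (nat_lit 180252) (nat_lit 10) (.e (nat_lit 573451) (nat_lit 9) .nil))))) (.g (nat_lit 0) (.e (nat_lit 230083) (nat_lit 0) .nil) .nil)))) (.nd (nat_lit 9) 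
(.lf (nat_lit 523641) (.g (nat_lit 2154) (.e (nat_lit 204863) (nat_lit 27) (.e (nat_lit 344132) (nat_lit 26) (.e (nat_lit 557100) (nat_lit 13) (.e (nat_lit 172041) (nat_lit 0) .nil)))) (.g (nat_lit 0) (.e (nat_lit 229789) (nat_lit 0) .nil) .nil))) 
(.lf (nat_lit 524153) (.g (nat_lit 2664) (.e (nat_lit 204868) (nat_lit 29) (.e (nat_lit 360473) (nat_lit 8) (.e (nat_lit 557086) (nat_lit 11) (.e (nat_lit 24664) (nat_lit 14) (.e (nat_lit 401428) (nat_lit 3) .nil))))) (.g (nat_lit 1) (.e (nat_lit 230740) (nat_lit 0) .nil) .nil))))) (.nd (nat_lit 8) (.nd (nat_lit 9) 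
(.lf (nat_lit 523513) (.g (nat_lit 2463) (.e (nat_lit 204863) (nat_lit 27) (.e (nat_lit 344118) (nat_lit 21) (.e (nat_lit 516115) (nat_lit 1) (.e (nat_lit 164179) (nat_lit 154) (.e (nat_lit 57378) (nat_lit 3) .nil))))) (.g (nat_lit 0) (.e (nat_lit 229646) (nat_lit 0) .nil) .nil))) 
(.lf (nat_lit 524025) (.g (nat_lit 4139) (.e (nat_lit 204866) (nat_lit 28) (.e (nat_lit 352315) (nat_lit 23) (.e (nat_lit 98350) (nat_lit 24) (.e (nat_lit 409646) (nat_lit 18) (.e (nat_lit 303119) (nat_lit 3) .nil))))) (.g (nat_lit 1) (.e (nat_lit 230411) (nat_lit 0) .nil) .nil)))) (.nd (nat_lit 9) 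
(.lf (nat_lit 523769) (.g (nat_lit 1721) (.e (nat_lit 204863) (nat_lit 27) (.e (nat_lit 344133) (nat_lit 26) (.e (nat_lit 557105) (nat_lit 14) (.e (nat_lit 180245) (nat_lit 5) .nil)))) (.g (nat_lit 0) (.e (nat_lit 229920) (nat_lit 0) .nil) .nil))) 
(.lf (nat_lit 524281) (.g (nat_lit 591) (.e (nat_lit 204868) (nat_lit 29) (.e (nat_lit 360474) (nat_lit 8) (.e (nat_lit 557088) (nat_lit 12) .nil))) (.g (nat_lit 0) (.e (nat_lit 230926) (nat_lit 0) .nil) .nil)))))))))) (.nd (nat_lit 3) (.nd (nat_lit 4) (.nd (nat_lit 5) (.nd (nat_lit 6) (.nd (nat_lit 7) (.nd (nat_lit 8) (.nd (nat_lit 9) 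
(.lf (nat_lit 523269) (.g (nat_lit 3210) (.e (nat_lit 204862) (nat_lit 27) (.e (nat_lit 344130) (nat_lit 26) (.e (nat_lit 557104) (nat_lit 14) (.e (nat_lit 180252) (nat_lit 10) (.e (nat_lit 573473) (nat_lit 12) (.e (nat_lit 57508) (nat_lit 39) (.e (nat_lit 647175) (nat_lit 0) (.e (nat_lit 2684) (nat_lit 168) .nil)))))))) (.g (nat_lit 1) (.e (nat_lit 229342) (nat_lit 0) .nil) .nil))) 
(.lf (nat_lit 523781) (.g (nat_lit 3170) (.e (nat_lit 204863) (nat_lit 27) (.e (nat_lit 344133) (nat_lit 26) (.e (nat_lit 557105) (nat_lit 14) (.e (nat_lit 180252) (nat_lit 10) (.e (nat_lit 573473) (nat_lit 12) (.e (nat_lit 57507) (nat_lit 39) (.e (nat_lit 655104) (nat_lit 0) (.e (nat_lit 2685) (nat_lit 168) .nil)))))))) (.g (nat_lit 1) (.e (nat_lit 229932) (nat_lit 0) .nil) .nil)))) 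
(.nd (nat_lit 9) 
(.lf (nat_lit 523525) (.g (nat_lit 2285) (.e (nat_lit 204863) (nat_lit 27) (.e (nat_lit 344120) (nat_lit 21) (.e (nat_lit 516131) (nat_lit 3) (.e (nat_lit 221215) (nat_lit 23) (.e (nat_lit 204830) (nat_lit 18) (.e (nat_lit 57926) (nat_lit 282) (.e (nat_lit 163874) (nat_lit 3) .nil))))))) (.g (nat_lit 1) (.e (nat_lit 229669) (nat_lit 0) .nil) .nil))) 
(.lf (nat_lit 524037) (.g (nat_lit 1529) (.e (nat_lit 204867) (nat_lit 28) (.e (nat_lit 352313) (nat_lit 23) (.e (nat_lit 98350) (nat_lit 24) (.e (nat_lit 417536) (nat_lit 18) .nil)))) (.g (nat_lit 0) (.e (nat_lit 230467) (nat_lit 0) .nil) .nil))))) (.nd (nat_lit 8) (.nd (nat_lit 9) 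
(.lf (nat_lit 523397) (.g (nat_lit 3141) (.e (nat_lit 204862) (nat_lit 27) (.e (nat_lit 344133) (nat_lit 26) (.e (nat_lit 557105) (nat_lit 14) (.e (nat_lit 180252) (nat_lit 10) (.e (nat_lit 573473) (nat_lit 12) (.e (nat_lit 57507) (nat_lit 39) (.e (nat_lit 647170) (nat_lit 0) (.e (nat_lit 2685) (nat_lit 168) .nil)))))))) (.g (nat_lit 1) (.e (nat_lit 229471) (nat_lit 0) .nil) .nil))) 
(.lf (nat_lit 523909) (.g (nat_lit 3134) (.e (nat_lit 204864) (nat_lit 27) (.e (nat_lit 344132) (nat_lit 26) (.e (nat_lit 557105) (nat_lit 14) (.e (nat_lit 180252) (nat_lit 10) (.e (nat_lit 573474) (nat_lit 12) (.e (nat_lit 57506) (nat_lit 39) (.e (nat_lit 647170) (nat_lit 0) (.e (nat_lit 2685) (nat_lit 168) .nil)))))))) (.g (nat_lit 1) (.e (nat_lit 230095) (nat_lit 0) .nil) .nil)))) 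
(.nd (nat_lit 9) 
(.lf (nat_lit 523653) (.g (nat_lit 2262) (.e (nat_lit 204863) (nat_lit 27) (.e (nat_lit 344132) (nat_lit 26) (.e (nat_lit 557100) (nat_lit 13) (.e (nat_lit 172138) (nat_lit 15) (.e (nat_lit 7936) (nat_lit 121) .nil))))) (.g (nat_lit 0) (.e (nat_lit 229801) (nat_lit 0) .nil) .nil))) 
(.lf (nat_lit 524165) (.g (nat_lit 2385) (.e (nat_lit 204868) (nat_lit 29) (.e (nat_lit 360473) (nat_lit 8) (.e (nat_lit 557087) (nat_lit 11) (.e (nat_lit 24580) (nat_lit 0) (.e (nat_lit 7936) (nat_lit 357) (.e (nat_lit 2684) (nat_lit 168) .nil)))))) (.g (nat_lit 1) (.e (nat_lit 230753) (nat_lit 0) .nil) .nil)))))) (.nd (nat_lit 7) (.nd (nat_lit 8) (.nd (nat_lit 9) 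
(.lf (nat_lit 523333) (.g (nat_lit 1066) (.e (nat_lit 204862) (nat_lit 27) (.e (nat_lit 344133) (nat_lit 26) (.e (nat_lit 557096) (nat_lit 13) (.e (nat_lit 172140) (nat_lit 22) .nil)))) (.g (nat_lit 0) (.e (nat_lit 229407) (nat_lit 0) .nil) .nil))) 
(.lf (nat_lit 523845) (.g (nat_lit 616) (.e (nat_lit 204863) (nat_lit 27) (.e (nat_lit 344169) (nat_lit 40) (.e (nat_lit 671751) (nat_lit 0) .nil))) (.g (nat_lit 0) (.e (nat_lit 229997) (nat_lit 0) .nil) .nil)))) (.nd (nat_lit 9) 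
(.lf (nat_lit 523589) (.g (nat_lit 2296) (.e (nat_lit 204863) (nat_lit 27) (.e (nat_lit 344130) (nat_lit 26) (.e (nat_lit 557104) (nat_lit 14) (.e (nat_lit 180252) (nat_lit 10) (.e (nat_lit 573473) (nat_lit 12) (.e (nat_lit 57508) (nat_lit 39) (.e (nat_lit 647170) (nat_lit 0) (.e (nat_lit 2685) (nat_lit 168) .nil)))))))) (.g (nat_lit 1) (.e (nat_lit 229737) (nat_lit 0) .nil) .nil))) 
(.lf (nat_lit 524101) (.g (nat_lit 415) (.e (nat_lit 204868) (nat_lit 29) (.e (nat_lit 360467) (nat_lit 3) (.e (nat_lit 516138) (nat_lit 7) .nil))) (.g (nat_lit 0) (.e (nat_lit 230671) (nat_lit 0) .nil) .nil))))) (.nd (nat_lit 8) (.nd (nat_lit 9) 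
(.lf (nat_lit 523461) (.g (nat_lit 2790) (.e (nat_lit 204863) (nat_lit 27) (.e (nat_lit 344117) (nat_lit 21) (.e (nat_lit 516115) (nat_lit 1) (.e (nat_lit 164179) (nat_lit 154) (.e (nat_lit 57379) (nat_lit 3) (.e (nat_lit 98321) (nat_lit 17) (.e (nat_lit 3771) (nat_lit 229) (.e (nat_lit 794673) (nat_lit 23) .nil)))))))) (.g (nat_lit 1) (.e (nat_lit 229560) (nat_lit 0) .nil) .nil))) 
(.lf (nat_lit 523973) (.g (nat_lit 2998) (.e (nat_lit 204865) (nat_lit 28) (.e (nat_lit 352277) (nat_lit 11) (.e (nat_lit 426500) (nat_lit 27) (.e (nat_lit 335986) (nat_lit 1) (.e (nat_lit 57927) (nat_lit 282) (.e (nat_lit 163873) (nat_lit 3) .nil)))))) (.g (nat_lit 1) (.e (nat_lit 230206) (nat_lit 0) .nil) .nil)))) (.nd (nat_lit 9) 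
(.lf (nat_lit 523717) (.g (nat_lit 2411) (.e (nat_lit 204863) (nat_lit 27) (.e (nat_lit 344132) (nat_lit 26) (.e (nat_lit 557105) (nat_lit 14) (.e (nat_lit 180252) (nat_lit 10) (.e (nat_lit 581376) (nat_lit 19) (.e (nat_lit 57878) (nat_lit 270) (.e (nat_lit 174) (nat_lit 12) .nil))))))) (.g (nat_lit 1) (.e (nat_lit 229866) (nat_lit 0) .nil) .nil))) 
(.lf (nat_lit 524229) (.g (nat_lit 2963) (.e (nat_lit 204868) (nat_lit 29) (.e (nat_lit 360473) (nat_lit 8) (.e (nat_lit 557091) (nat_lit 12) (.e (nat_lit 163843) (nat_lit 0) (.e (nat_lit 6418) (nat_lit 341) (.e (nat_lit 163908) (nat_lit 12) (.e (nat_lit 426132) (nat_lit 3) .nil))))))) (.g (nat_lit 1) (.e (nat_lit 230826) (nat_lit 0) .nil) .nil))))))) 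
(.nd (nat_lit 6) (.nd (nat_lit 7) (.nd (nat_lit 8) (.nd (nat_lit 9) 
(.lf (nat_lit 523301) (.g (nat_lit 1690) (.e (nat_lit 204862) (nat_lit 27) (.e (nat_lit 344132) (nat_lit 26) (.e (nat_lit 557100) (nat_lit 13) (.e (nat_lit 179968) (nat_lit 15) .nil)))) (.g (nat_lit 0) (.e (nat_lit 229374) (nat_lit 0) .nil) .nil))) 
(.lf (nat_lit 523813) (.g (nat_lit 4567) (.e (nat_lit 204863) (nat_lit 27) (.e (nat_lit 344133) (nat_lit 26) (.e (nat_lit 557105) (nat_lit 14) (.e (nat_lit 180252) (nat_lit 10) (.e (nat_lit 573474) (nat_lit 12) (.e (nat_lit 57509) (nat_lit 39) (.e (nat_lit 655104) (nat_lit 0) (.e (nat_lit 2684) (nat_lit 168) .nil)))))))) (.g (nat_lit 1) (.e (nat_lit 229964) (nat_lit 0) .nil) .nil)))) 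
(.nd (nat_lit 9) 
(.lf (nat_lit 523557) (.g (nat_lit 3196) (.e (nat_lit 204863) (nat_lit 27) (.e (nat_lit 344129) (nat_lit 26) (.e (nat_lit 557104) (nat_lit 14) (.e (nat_lit 180252) (nat_lit 10) (.e (nat_lit 573473) (nat_lit 12) (.e (nat_lit 57508) (nat_lit 39) (.e (nat_lit 655104) (nat_lit 0) (.e (nat_lit 2684) (nat_lit 168) .nil)))))))) (.g (nat_lit 1) (.e (nat_lit 229705) (nat_lit 0) .nil) .nil))) 
(.lf (nat_lit 524069) (.g (nat_lit 2054) (.e (nat_lit 204868) (nat_lit 29) (.e (nat_lit 360466) (nat_lit 3) (.e (nat_lit 516139) (nat_lit 7) (.e (nat_lit 409616) (nat_lit 10) (.e (nat_lit 5615) (nat_lit 312) .nil))))) (.g (nat_lit 0) (.e (nat_lit 230556) (nat_lit 0) .nil) .nil))))) (.nd (nat_lit 8) (.nd (nat_lit 9) 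
(.lf (nat_lit 523429) (.g (nat_lit 3278) (.e (nat_lit 204862) (nat_lit 27) (.e (nat_lit 344133) (nat_lit 26) (.e (nat_lit 557105) (nat_lit 14) (.e (nat_lit 180252) (nat_lit 10) (.e (nat_lit 573475) (nat_lit 12) (.e (nat_lit 57507) (nat_lit 39) (.e (nat_lit 655104) (nat_lit 0) (.e (nat_lit 2685) (nat_lit 168) .nil)))))))) (.g (nat_lit 1) (.e (nat_lit 229503) (nat_lit 0) .nil) .nil))) 
(.lf (nat_lit 523941) (.g (nat_lit 2328) (.e (nat_lit 204864) (nat_lit 27) (.e (nat_lit 344133) (nat_lit 26) (.e (nat_lit 557103) (nat_lit 14) (.e (nat_lit 180250) (nat_lit 10) (.e (nat_lit 581376) (nat_lit 19) .nil))))) (.g (nat_lit 0) (.e (nat_lit 230127) (nat_lit 0) .nil) .nil)))) (.nd (nat_lit 9) 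
(.lf (nat_lit 523685) (.g (nat_lit 4764) (.e (nat_lit 204863) (nat_lit 27) (.e (nat_lit 344132) (nat_lit 26) (.e (nat_lit 557105) (nat_lit 14) (.e (nat_lit 180252) (nat_lit 10) (.e (nat_lit 573474) (nat_lit 12) (.e (nat_lit 57507) (nat_lit 39) (.e (nat_lit 647176) (nat_lit 0) (.e (nat_lit 2681) (nat_lit 168) .nil)))))))) (.g (nat_lit 1) (.e (nat_lit 229834) (nat_lit 0) .nil) .nil))) 
(.lf (nat_lit 524197) (.g (nat_lit 1336) (.e (nat_lit 204868) (nat_lit 29) (.e (nat_lit 360473) (nat_lit 8) (.e (nat_lit 557089) (nat_lit 12) (.e (nat_lit 163847) (nat_lit 0) .nil)))) (.g (nat_lit 0) (.e (nat_lit 230790) (nat_lit 0) .nil) .nil)))))) (.nd (nat_lit 7) (.nd (nat_lit 8) (.nd (nat_lit 9) 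
(.lf (nat_lit 523365) (.g (nat_lit 2637) (.e (nat_lit 204862) (nat_lit 27) (.e (nat_lit 344133) (nat_lit 26) (.e (nat_lit 557103) (nat_lit 14) (.e (nat_lit 180250) (nat_lit 10) (.e (nat_lit 573473) (nat_lit 12) (.e (nat_lit 57511) (nat_lit 39) (.e (nat_lit 647168) (nat_lit 0) (.e (nat_lit 2685) (nat_lit 168) .nil)))))))) (.g (nat_lit 1) (.e (nat_lit 229439) (nat_lit 0) .nil) .nil))) 
(.lf (nat_lit 523877) (.g (nat_lit 2048) (.e (nat_lit 204864) (nat_lit 27) (.e (nat_lit 344130) (nat_lit 26) (.e (nat_lit 557104) (nat_lit 14) (.e (nat_lit 180252) (nat_lit 10) (.e (nat_lit 581376) (nat_lit 19) (.e (nat_lit 57878) (nat_lit 270) (.e (nat_lit 174) (nat_lit 12) .nil))))))) (.g (nat_lit 1) (.e (nat_lit 230063) (nat_lit 0) .nil) .nil)))) (.nd (nat_lit 9) 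
(.lf (nat_lit 523621) (.g (nat_lit 2682) (.e (nat_lit 204863) (nat_lit 27) (.e (nat_lit 344131) (nat_lit 26) (.e (nat_lit 557105) (nat_lit 14) (.e (nat_lit 180252) (nat_lit 10) (.e (nat_lit 573474) (nat_lit 12) (.e (nat_lit 57347) (nat_lit 0) (.e (nat_lit 5438) (nat_lit 306) (.e (nat_lit 2433) (nat_lit 157) (.e (nat_lit 2685) (nat_lit 168) .nil))))))))) (.g (nat_lit 1) (.e (nat_lit 229769) (nat_lit 0) .nil) .nil))) 
(.lf (nat_lit 524133) (.g (nat_lit 3749) (.e (nat_lit 204868) (nat_lit 29) (.e (nat_lit 360473) (nat_lit 8) (.e (nat_lit 557067) (nat_lit 9) (.e (nat_lit 214) (nat_lit 19) (.e (nat_lit 319493) (nat_lit 0) (.e (nat_lit 5626) (nat_lit 312) (.e (nat_lit 2685) (nat_lit 168) .nil))))))) (.g (nat_lit 1) (.e (nat_lit 230711) (nat_lit 0) .nil) .nil))))) (.nd (nat_lit 8) (.nd (nat_lit 9) 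
(.lf (nat_lit 523493) (.g (nat_lit 3715) (.e (nat_lit 204863) (nat_lit 27) (.e (nat_lit 344117) (nat_lit 21) (.e (nat_lit 516129) (nat_lit 3) (.e (nat_lit 221215) (nat_lit 23) (.e (nat_lit 204830) (nat_lit 18) (.e (nat_lit 57926) (nat_lit 282) (.e (nat_lit 163875) (nat_lit 3) .nil))))))) (.g (nat_lit 1) (.e (nat_lit 229618) (nat_lit 0) .nil) .nil))) 
(.lf (nat_lit 524005) (.g (nat_lit 1877) (.e (nat_lit 204866) (nat_lit 28) (.e (nat_lit 352273) (nat_lit 11) (.e (nat_lit 426107) (nat_lit 1) (.e (nat_lit 164182) (nat_lit 154) (.e (nat_lit 57411) (nat_lit 12) .nil))))) (.g (nat_lit 0) (.e (nat_lit 230299) (nat_lit 0) .nil) .nil)))) (.nd (nat_lit 9) 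
(.lf (nat_lit 523749) (.g (nat_lit 3017) (.e (nat_lit 204863) (nat_lit 27) (.e (nat_lit 344133) (nat_lit 26) (.e (nat_lit 557103) (nat_lit 14) (.e (nat_lit 180250) (nat_lit 10) (.e (nat_lit 573473) (nat_lit 12) (.e (nat_lit 57508) (nat_lit 39) (.e (nat_lit 647170) (nat_lit 0) (.e (nat_lit 2675) (nat_lit 168) .nil)))))))) (.g (nat_lit 1) (.e (nat_lit 229900) (nat_lit 0) .nil) .nil))) 
(.lf (nat_lit 524261) (.g (nat_lit 1111) (.e (nat_lit 204868) (nat_lit 29) (.e (nat_lit 360473) (nat_lit 8) (.e (nat_lit 557091) (nat_lit 12) (.e (nat_lit 171776) (nat_lit 46) .nil)))) (.g (nat_lit 0) (.e (nat_lit 230873) (nat_lit 0) .nil) .nil)))))))) (.nd (nat_lit 5) (.nd (nat_lit 6) (.nd (nat_lit 7) (.nd (nat_lit 8) (.nd (nat_lit 9) 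
(.lf (nat_lit 523285) (.g (nat_lit 1165) (.e (nat_lit 204862) (nat_lit 27) (.e (nat_lit 344131) (nat_lit 26) (.e (nat_lit 557103) (nat_lit 14) (.e (nat_lit 180250) (nat_lit 10) .nil)))) (.g (nat_lit 0) (.e (nat_lit 229358) (nat_lit 0) .nil) .nil))) 
(.lf (nat_lit 523797) (.g (nat_lit 4595) (.e (nat_lit 204863) (nat_lit 27) (.e (nat_lit 344133) (nat_lit 26) (.e (nat_lit 557105) (nat_lit 14) (.e (nat_lit 180252) (nat_lit 10) (.e (nat_lit 573474) (nat_lit 12) (.e (nat_lit 57505) (nat_lit 39) (.e (nat_lit 655104) (nat_lit 0) (.e (nat_lit 2684) (nat_lit 168) .nil)))))))) (.g (nat_lit 1) (.e (nat_lit 229948) (nat_lit 0) .nil) .nil)))) 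
(.nd (nat_lit 9) 
(.lf (nat_lit 523541) (.g (nat_lit 3036) (.e (nat_lit 204863) (nat_lit 27) (.e (nat_lit 344129) (nat_lit 26) (.e (nat_lit 557103) (nat_lit 14) (.e (nat_lit 180250) (nat_lit 10) (.e (nat_lit 573473) (nat_lit 12) (.e (nat_lit 57508) (nat_lit 39) (.e (nat_lit 647176) (nat_lit 0) (.e (nat_lit 2681) (nat_lit 168) .nil)))))))) (.g (nat_lit 1) (.e (nat_lit 229689) (nat_lit 0) .nil) .nil))) 
(.lf (nat_lit 524053) (.g (nat_lit 2035) (.e (nat_lit 204868) (nat_lit 29) (.e (nat_lit 360466) (nat_lit 3) (.e (nat_lit 516138) (nat_lit 7) (.e (nat_lit 409617) (nat_lit 10) (.e (nat_lit 5665) (nat_lit 312) .nil))))) (.g (nat_lit 0) (.e (nat_lit 230540) (nat_lit 0) .nil) .nil))))) (.nd (nat_lit 8) (.nd (nat_lit 9) 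
(.lf (nat_lit 523413) (.g (nat_lit 3362) (.e (nat_lit 204862) (nat_lit 27) (.e (nat_lit 344133) (nat_lit 26) (.e (nat_lit 557105) (nat_lit 14) (.e (nat_lit 180252) (nat_lit 10) (.e (nat_lit 573474) (nat_lit 12) (.e (nat_lit 57507) (nat_lit 39) (.e (nat_lit 655104) (nat_lit 0) (.e (nat_lit 2685) (nat_lit 168) .nil)))))))) (.g (nat_lit 1) (.e (nat_lit 229487) (nat_lit 0) .nil) .nil))) 
(.lf (nat_lit 523925) (.g (nat_lit 3180) (.e (nat_lit 204864) (nat_lit 27) (.e (nat_lit 344133) (nat_lit 26) (.e (nat_lit 557098) (nat_lit 13) (.e (nat_lit 172065) (nat_lit 3) (.e (nat_lit 204821) (nat_lit 17) (.e (nat_lit 2391) (nat_lit 156) (.e (nat_lit 819204) (nat_lit 0) (.e (nat_lit 2685) (nat_lit 168) .nil)))))))) (.g (nat_lit 1) (.e (nat_lit 230111) (nat_lit 0) .nil) .nil)))) 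
(.nd (nat_lit 9) 
(.lf (nat_lit 523669) (.g (nat_lit 2515) (.e (nat_lit 204863) (nat_lit 27) (.e (nat_lit 344132) (nat_lit 26) (.e (nat_lit 557105) (nat_lit 14) (.e (nat_lit 180252) (nat_lit 10) (.e (nat_lit 573473) (nat_lit 12) (.e (nat_lit 57507) (nat_lit 39) (.e (nat_lit 655104) (nat_lit 0) (.e (nat_lit 2679) (nat_lit 168) .nil)))))))) (.g (nat_lit 1) (.e (nat_lit 229818) (nat_lit 0) .nil) .nil))) 
(.lf (nat_lit 524181) (.g (nat_lit 271) (.e (nat_lit 204868) (nat_lit 29) (.e (nat_lit 360473) (nat_lit 8) (.e (nat_lit 557089) (nat_lit 12) .nil))) (.g (nat_lit 0) (.e (nat_lit 230773) (nat_lit 0) .nil) .nil)))))) (.nd (nat_lit 7) (.nd (nat_lit 8) (.nd (nat_lit 9) 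
(.lf (nat_lit 523349) (.g (nat_lit 1989) (.e (nat_lit 204862) (nat_lit 27) (.e (nat_lit 344133) (nat_lit 26) (.e (nat_lit 557103) (nat_lit 14) (.e (nat_lit 188160) (nat_lit 1) (.e (nat_lit 499900) (nat_lit 7) (.e (nat_lit 32512) (nat_lit 18) .nil)))))) (.g (nat_lit 1) (.e (nat_lit 229423) (nat_lit 0) .nil) .nil))) 
(.lf (nat_lit 523861) (.g (nat_lit 2783) (.e (nat_lit 204864) (nat_lit 27) (.e (nat_lit 344130) (nat_lit 26) (.e (nat_lit 557103) (nat_lit 14) (.e (nat_lit 180243) (nat_lit 5) (.e (nat_lit 532504) (nat_lit 1) (.e (nat_lit 65280) (nat_lit 168) (.e (nat_lit 163874) (nat_lit 3) .nil))))))) (.g (nat_lit 1) (.e (nat_lit 230047) (nat_lit 0) .nil) .nil)))) (.nd (nat_lit 9) 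
(.lf (nat_lit 523605) (.g (nat_lit 2934) (.e (nat_lit 204863) (nat_lit 27) (.e (nat_lit 344131) (nat_lit 26) (.e (nat_lit 557103) (nat_lit 14) (.e (nat_lit 180243) (nat_lit 5) (.e (nat_lit 532501) (nat_lit 1) (.e (nat_lit 57703) (nat_lit 164) (.e (nat_lit 2515) (nat_lit 157) (.e (nat_lit 2681) (nat_lit 168) .nil)))))))) (.g (nat_lit 1) (.e (nat_lit 229753) (nat_lit 0) .nil) .nil))) 
(.lf (nat_lit 524117) (.g (nat_lit 533) (.e (nat_lit 204868) (nat_lit 29) (.e (nat_lit 360467) (nat_lit 3) (.e (nat_lit 516141) (nat_lit 8) .nil))) (.g (nat_lit 0) (.e (nat_lit 230687) (nat_lit 0) .nil) .nil))))) (.nd (nat_lit 8) (.nd (nat_lit 9) 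
(.lf (nat_lit 523477) (.g (nat_lit 2368) (.e (nat_lit 204863) (nat_lit 27) (.e (nat_lit 344117) (nat_lit 21) (.e (nat_lit 516116) (nat_lit 1) (.e (nat_lit 164183) (nat_lit 154) (.e (nat_lit 57373) (nat_lit 2) .nil))))) (.g (nat_lit 0) (.e (nat_lit 229590) (nat_lit 0) .nil) .nil))) 
(.lf (nat_lit 523989) (.g (nat_lit 1521) (.e (nat_lit 204865) (nat_lit 28) (.e (nat_lit 352315) (nat_lit 23) (.e (nat_lit 98349) (nat_lit 24) (.e (nat_lit 409643) (nat_lit 18) .nil)))) (.g (nat_lit 0) (.e (nat_lit 230242) (nat_lit 0) .nil) .nil)))) (.nd (nat_lit 9) 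
(.lf (nat_lit 523733) (.g (nat_lit 4788) (.e (nat_lit 204863) (nat_lit 27) (.e (nat_lit 344133) (nat_lit 26) (.e (nat_lit 557098) (nat_lit 13) (.e (nat_lit 172067) (nat_lit 3) (.e (nat_lit 204821) (nat_lit 17) (.e (nat_lit 2391) (nat_lit 156) (.e (nat_lit 819204) (nat_lit 0) (.e (nat_lit 2685) (nat_lit 168) .nil)))))))) (.g (nat_lit 1) (.e (nat_lit 229884) (nat_lit 0) .nil) .nil))) 
(.lf (nat_lit 524245) (.g (nat_lit 1499) (.e (nat_lit 204868) (nat_lit 29) (.e (nat_lit 360473) (nat_lit 8) (.e (nat_lit 557091) (nat_lit 12) (.e (nat_lit 163850) (nat_lit 0) .nil)))) (.g (nat_lit 0) (.e (nat_lit 230843) (nat_lit 0) .nil) .nil))))))) (.nd (nat_lit 6) (.nd (nat_lit 7) (.nd (nat_lit 8) (.nd (nat_lit 9) 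
(.lf (nat_lit 523317) (.g (nat_lit 2624) (.e (nat_lit 204862) (nat_lit 27) (.e (nat_lit 344132) (nat_lit 26) (.e (nat_lit 557105) (nat_lit 14) (.e (nat_lit 180252) (nat_lit 10) (.e (nat_lit 573473) (nat_lit 12) (.e (nat_lit 57507) (nat_lit 39) (.e (nat_lit 647176) (nat_lit 0) (.e (nat_lit 2681) (nat_lit 168) .nil)))))))) (.g (nat_lit 1) (.e (nat_lit 229390) (nat_lit 0) .nil) .nil))) 
(.lf (nat_lit 523829) (.g (nat_lit 4901) (.e (nat_lit 204863) (nat_lit 27) (.e (nat_lit 344133) (nat_lit 26) (.e (nat_lit 557105) (nat_lit 14) (.e (nat_lit 180252) (nat_lit 10) (.e (nat_lit 573475) (nat_lit 12) (.e (nat_lit 57507) (nat_lit 39) (.e (nat_lit 655104) (nat_lit 0) (.e (nat_lit 2684) (nat_lit 168) .nil)))))))) (.g (nat_lit 1) (.e (nat_lit 229980) (nat_lit 0) .nil) .nil)))) 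
(.nd (nat_lit 9) 
(.lf (nat_lit 523573) (.g (nat_lit 3004) (.e (nat_lit 204863) (nat_lit 27) (.e (nat_lit 344130) (nat_lit 26) (.e (nat_lit 557103) (nat_lit 14) (.e (nat_lit 180243) (nat_lit 5) (.e (nat_lit 532499) (nat_lit 1) (.e (nat_lit 65280) (nat_lit 168) (.e (nat_lit 163875) (nat_lit 3) .nil))))))) (.g (nat_lit 1) (.e (nat_lit 229721) (nat_lit 0) .nil) .nil))) 
(.lf (nat_lit 524085) (.g (nat_lit 2827) (.e (nat_lit 204868) (nat_lit 29) (.e (nat_lit 360466) (nat_lit 3) (.e (nat_lit 516141) (nat_lit 8) (.e (nat_lit 417828) (nat_lit 18) (.e (nat_lit 303118) (nat_lit 3) .nil))))) (.g (nat_lit 1) (.e (nat_lit 230575) (nat_lit 0) .nil) .nil))))) (.nd (nat_lit 8) (.nd (nat_lit 9) 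
(.lf (nat_lit 523445) (.g (nat_lit 2312) (.e (nat_lit 204863) (nat_lit 27) (.e (nat_lit 344068) (nat_lit 0) (.e (nat_lit 2663) (nat_lit 167) (.e (nat_lit 196670) (nat_lit 14) (.e (nat_lit 73781) (nat_lit 32) .nil))))) (.g (nat_lit 0) (.e (nat_lit 229529) (nat_lit 0) .nil) .nil))) 
(.lf (nat_lit 523957) (.g (nat_lit 3157) (.e (nat_lit 204864) (nat_lit 27) (.e (nat_lit 344133) (nat_lit 26) (.e (nat_lit 557105) (nat_lit 14) (.e (nat_lit 180252) (nat_lit 10) (.e (nat_lit 573474) (nat_lit 12) (.e (nat_lit 57508) (nat_lit 39) (.e (nat_lit 647170) (nat_lit 0) (.e (nat_lit 2680) (nat_lit 168) .nil)))))))) (.g (nat_lit 1) (.e (nat_lit 230143) (nat_lit 0) .nil) .nil)))) 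
(.nd (nat_lit 9) 
(.lf (nat_lit 523701) (.g (nat_lit 3476) (.e (nat_lit 204863) (nat_lit 27) (.e (nat_lit 344132) (nat_lit 26) (.e (nat_lit 557105) (nat_lit 14) (.e (nat_lit 180252) (nat_lit 10) (.e (nat_lit 573475) (nat_lit 12) (.e (nat_lit 57507) (nat_lit 39) (.e (nat_lit 647170) (nat_lit 0) (.e (nat_lit 2675) (nat_lit 168) .nil)))))))) (.g (nat_lit 1) (.e (nat_lit 229850) (nat_lit 0) .nil) .nil))) 
(.lf (nat_lit 524213) (.g (nat_lit 394) (.e (nat_lit 204868) (nat_lit 29) (.e (nat_lit 360473) (nat_lit 8) (.e (nat_lit 557091) (nat_lit 12) .nil))) (.g (nat_lit 0) (.e (nat_lit 230807) (nat_lit 0) .nil) .nil)))))) (.nd (nat_lit 7) (.nd (nat_lit 8) (.nd (nat_lit 9) 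
(.lf (nat_lit 523381) (.g (nat_lit 3328) (.e (nat_lit 204862) (nat_lit 27) (.e (nat_lit 344133) (nat_lit 26) (.e (nat_lit 557103) (nat_lit 14) (.e (nat_lit 180250) (nat_lit 10) (.e (nat_lit 573475) (nat_lit 12) (.e (nat_lit 57509) (nat_lit 39) (.e (nat_lit 655104) (nat_lit 0) (.e (nat_lit 2684) (nat_lit 168) .nil)))))))) (.g (nat_lit 1) (.e (nat_lit 229455) (nat_lit 0) .nil) .nil))) 
(.lf (nat_lit 523893) (.g (nat_lit 2176) (.e (nat_lit 204864) (nat_lit 27) (.e (nat_lit 344132) (nat_lit 26) (.e (nat_lit 557101) (nat_lit 13) (.e (nat_lit 172136) (nat_lit 15) (.e (nat_lit 1800) (nat_lit 119) (.e (nat_lit 516119) (nat_lit 1) (.e (nat_lit 164345) (nat_lit 240) (.e (nat_lit 2426) (nat_lit 157) (.e (nat_lit 2678) (nat_lit 168) .nil))))))))) (.g (nat_lit 1) (.e (nat_lit 230079) (nat_lit 0) .nil) .nil)))) 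
(.nd (nat_lit 9) 
(.lf (nat_lit 523637) (.g (nat_lit 3325) (.e (nat_lit 204863) (nat_lit 27) (.e (nat_lit 344131) (nat_lit 26) (.e (nat_lit 557105) (nat_lit 14) (.e (nat_lit 180252) (nat_lit 10) (.e (nat_lit 573475) (nat_lit 12) (.e (nat_lit 57508) (nat_lit 39) (.e (nat_lit 655104) (nat_lit 0) (.e (nat_lit 2684) (nat_lit 168) .nil)))))))) (.g (nat_lit 1) (.e (nat_lit 229785) (nat_lit 0) .nil) .nil))) 
(.lf (nat_lit 524149) (.g (nat_lit 370) (.e (nat_lit 204868) (nat_lit 29) (.e (nat_lit 360473) (nat_lit 8) (.e (nat_lit 557086) (nat_lit 11) .nil))) (.g (nat_lit 0) (.e (nat_lit 230735) (nat_lit 0) .nil) .nil))))) (.nd (nat_lit 8) (.nd (nat_lit 9) 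
(.lf (nat_lit 523509) (.g (nat_lit 2900) (.e (nat_lit 204863) (nat_lit 27) (.e (nat_lit 344118) (nat_lit 21) (.e (nat_lit 516115) (nat_lit 1) (.e (nat_lit 164179) (nat_lit 154) (.e (nat_lit 57373) (nat_lit 2) (.e (nat_lit 90128) (nat_lit 9) (.e (nat_lit 2706) (nat_lit 170) (.e (nat_lit 221215) (nat_lit 23) .nil)))))))) (.g (nat_lit 1) (.e (nat_lit 229642) (nat_lit 0) .nil) .nil))) 
(.lf (nat_lit 524021) (.g (nat_lit 3647) (.e (nat_lit 204866) (nat_lit 28) (.e (nat_lit 352314) (nat_lit 23) (.e (nat_lit 98350) (nat_lit 24) (.e (nat_lit 409647) (nat_lit 18) (.e (nat_lit 303118) (nat_lit 3) .nil))))) (.g (nat_lit 1) (.e (nat_lit 230389) (nat_lit 0) .nil) .nil)))) (.nd (nat_lit 9) 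
(.lf (nat_lit 523765) (.g (nat_lit 2349) (.e (nat_lit 204863) (nat_lit 27) (.e (nat_lit 344133) (nat_lit 26) (.e (nat_lit 557103) (nat_lit 14) (.e (nat_lit 180250) (nat_lit 10) (.e (nat_lit 581376) (nat_lit 19) .nil))))) (.g (nat_lit 0) (.e (nat_lit 229916) (nat_lit 0) .nil) .nil))) 
(.lf (nat_lit 524277) (.g (nat_lit 1073) (.e (nat_lit 204868) (nat_lit 29) (.e (nat_lit 360474) (nat_lit 8) (.e (nat_lit 557072) (nat_lit 9) (.e (nat_lit 290) (nat_lit 21) .nil)))) (.g (nat_lit 0) (.e (nat_lit 230921) (nat_lit 0) .nil) .nil))))))))) (.nd (nat_lit 4) (.nd (nat_lit 5) (.nd (nat_lit 6) (.nd (nat_lit 7) (.nd (nat_lit 8) (.nd (nat_lit 9) 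
(.lf (nat_lit 523277) (.g (nat_lit 3483) (.e (nat_lit 204862) (nat_lit 27) (.e (nat_lit 344130) (nat_lit 26) (.e (nat_lit 557104) (nat_lit 14) (.e (nat_lit 180252) (nat_lit 10) (.e (nat_lit 573474) (nat_lit 12) (.e (nat_lit 57511) (nat_lit 39) (.e (nat_lit 655104) (nat_lit 0) (.e (nat_lit 2684) (nat_lit 168) .nil)))))))) (.g (nat_lit 1) (.e (nat_lit 229350) (nat_lit 0) .nil) .nil))) 
(.lf (nat_lit 523789) (.g (nat_lit 3698) (.e (nat_lit 204863) (nat_lit 27) (.e (nat_lit 344133) (nat_lit 26) (.e (nat_lit 557105) (nat_lit 14) (.e (nat_lit 180252) (nat_lit 10) (.e (nat_lit 573474) (nat_lit 12) (.e (nat_lit 57347) (nat_lit 0) (.e (nat_lit 5437) (nat_lit 306) (.e (nat_lit 2450) (nat_lit 157) (.e (nat_lit 2685) (nat_lit 168) .nil))))))))) (.g (nat_lit 1) (.e (nat_lit 229940) (nat_lit 0) .nil) .nil)))) 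
(.nd (nat_lit 9) 
(.lf (nat_lit 523533) (.g (nat_lit 3388) (.e (nat_lit 204863) (nat_lit 27) (.e (nat_lit 344129) (nat_lit 26) (.e (nat_lit 557103) (nat_lit 14) (.e (nat_lit 180243) (nat_lit 5) (.e (nat_lit 532499) (nat_lit 1) (.e (nat_lit 65280) (nat_lit 168) (.e (nat_lit 163875) (nat_lit 3) .nil))))))) (.g (nat_lit 1) (.e (nat_lit 229681) (nat_lit 0) .nil) .nil))) 
(.lf (nat_lit 524045) (.g (nat_lit 2405) (.e (nat_lit 204868) (nat_lit 29) (.e (nat_lit 360466) (nat_lit 3) (.e (nat_lit 516096) (nat_lit 0) (.e (nat_lit 6989) (nat_lit 377) (.e (nat_lit 2819) (nat_lit 181) (.e (nat_lit 311315) (nat_lit 3) .nil)))))) (.g (nat_lit 1) (.e (nat_lit 230507) (nat_lit 0) .nil) .nil))))) (.nd (nat_lit 8) (.nd (nat_lit 9) 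
(.lf (nat_lit 523405) (.g (nat_lit 3234) (.e (nat_lit 204862) (nat_lit 27) (.e (nat_lit 344133) (nat_lit 26) (.e (nat_lit 557105) (nat_lit 14) (.e (nat_lit 180252) (nat_lit 10) (.e (nat_lit 573474) (nat_lit 12) (.e (nat_lit 57348) (nat_lit 0) (.e (nat_lit 5437) (nat_lit 306) (.e (nat_lit 2450) (nat_lit 157) (.e (nat_lit 2685) (nat_lit 168) .nil))))))))) (.g (nat_lit 1) (.e (nat_lit 229479) (nat_lit 0) .nil) .nil))) 
(.lf (nat_lit 523917) (.g (nat_lit 3215) (.e (nat_lit 204864) (nat_lit 27) (.e (nat_lit 344132) (nat_lit 26) (.e (nat_lit 557105) (nat_lit 14) (.e (nat_lit 180252) (nat_lit 10) (.e (nat_lit 573475) (nat_lit 12) (.e (nat_lit 57508) (nat_lit 39) (.e (nat_lit 647168) (nat_lit 0) (.e (nat_lit 2685) (nat_lit 168) .nil)))))))) (.g (nat_lit 1) (.e (nat_lit 230103) (nat_lit 0) .nil) .nil)))) 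
(.nd (nat_lit 9) 
(.lf (nat_lit 523661) (.g (nat_lit 2371) (.e (nat_lit 204863) (nat_lit 27) (.e (nat_lit 344132) (nat_lit 26) (.e (nat_lit 557105) (nat_lit 14) (.e (nat_lit 180251) (nat_lit 10) (.e (nat_lit 573477) (nat_lit 12) (.e (nat_lit 57511) (nat_lit 39) (.e (nat_lit 647168) (nat_lit 0) (.e (nat_lit 2685) (nat_lit 168) .nil)))))))) (.g (nat_lit 1) (.e (nat_lit 229810) (nat_lit 0) .nil) .nil))) 
(.lf (nat_lit 524173) (.g (nat_lit 2689) (.e (nat_lit 204868) (nat_lit 29) (.e (nat_lit 360473) (nat_lit 8) (.e (nat_lit 557087) (nat_lit 11) (.e (nat_lit 24590) (nat_lit 0) (.e (nat_lit 7936) (nat_lit 357) .nil))))) (.g (nat_lit 0) (.e (nat_lit 230764) (nat_lit 0) .nil) .nil)))))) (.nd (nat_lit 7) (.nd (nat_lit 8) (.nd (nat_lit 9) 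
(.lf (nat_lit 523341) (.g (nat_lit 2120) (.e (nat_lit 204862) (nat_lit 27) (.e (nat_lit 344133) (nat_lit 26) (.e (nat_lit 557098) (nat_lit 13) (.e (nat_lit 172129) (nat_lit 15) (.e (nat_lit 7936) (nat_lit 121) .nil))))) (.g (nat_lit 0) (.e (nat_lit 229415) (nat_lit 0) .nil) .nil))) 
(.lf (nat_lit 523853) (.g (nat_lit 1636) (.e (nat_lit 204863) (nat_lit 27) (.e (nat_lit 344160) (nat_lit 37) (.e (nat_lit 647195) (nat_lit 9) (.e (nat_lit 1238) (nat_lit 91) .nil)))) (.g (nat_lit 0) (.e (nat_lit 230028) (nat_lit 0) .nil) .nil)))) (.nd (nat_lit 9) 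
(.lf (nat_lit 523597) (.g (nat_lit 3244) (.e (nat_lit 204863) (nat_lit 27) (.e (nat_lit 344130) (nat_lit 26) (.e (nat_lit 557104) (nat_lit 14) (.e (nat_lit 180252) (nat_lit 10) (.e (nat_lit 573475) (nat_lit 12) (.e (nat_lit 57507) (nat_lit 39) (.e (nat_lit 655104) (nat_lit 0) (.e (nat_lit 2684) (nat_lit 168) .nil)))))))) (.g (nat_lit 1) (.e (nat_lit 229745) (nat_lit 0) .nil) .nil))) 
(.lf (nat_lit 524109) (.g (nat_lit 2647) (.e (nat_lit 204868) (nat_lit 29) (.e (nat_lit 360467) (nat_lit 3) (.e (nat_lit 516139) (nat_lit 7) (.e (nat_lit 409616) (nat_lit 10) (.e (nat_lit 5665) (nat_lit 312) .nil))))) (.g (nat_lit 0) (.e (nat_lit 230679) (nat_lit 0) .nil) .nil))))) (.nd (nat_lit 8) (.nd (nat_lit 9) 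
(.lf (nat_lit 523469) (.g (nat_lit 3660) (.e (nat_lit 204863) (nat_lit 27) (.e (nat_lit 344117) (nat_lit 21) (.e (nat_lit 516116) (nat_lit 1) (.e (nat_lit 164176) (nat_lit 154) (.e (nat_lit 57372) (nat_lit 2) (.e (nat_lit 90128) (nat_lit 9) (.e (nat_lit 2706) (nat_lit 170) (.e (nat_lit 221214) (nat_lit 23) .nil)))))))) (.g (nat_lit 1) (.e (nat_lit 229579) (nat_lit 0) .nil) .nil))) 
(.lf (nat_lit 523981) (.g (nat_lit 3110) (.e (nat_lit 204865) (nat_lit 28) (.e (nat_lit 352277) (nat_lit 11) (.e (nat_lit 426500) (nat_lit 27) (.e (nat_lit 335995) (nat_lit 1) (.e (nat_lit 57931) (nat_lit 282) (.e (nat_lit 163873) (nat_lit 3) .nil)))))) (.g (nat_lit 1) (.e (nat_lit 230219) (nat_lit 0) .nil) .nil)))) (.nd (nat_lit 9) 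
(.lf (nat_lit 523725) (.g (nat_lit 1692) (.e (nat_lit 204863) (nat_lit 27) (.e (nat_lit 344133) (nat_lit 26) (.e (nat_lit 557098) (nat_lit 13) (.e (nat_lit 172048) (nat_lit 0) .nil)))) (.g (nat_lit 0) (.e (nat_lit 229876) (nat_lit 0) .nil) .nil))) 
(.lf (nat_lit 524237) (.g (nat_lit 2749) (.e (nat_lit 204868) (nat_lit 29) (.e (nat_lit 360473) (nat_lit 8) (.e (nat_lit 557091) (nat_lit 12) (.e (nat_lit 163844) (nat_lit 0) (.e (nat_lit 6255) (nat_lit 337) (.e (nat_lit 2725) (nat_lit 172) (.e (nat_lit 237592) (nat_lit 3) .nil))))))) (.g (nat_lit 1) (.e (nat_lit 230834) (nat_lit 0) .nil) .nil))))))) 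
(.nd (nat_lit 6) (.nd (nat_lit 7) (.nd (nat_lit 8) (.nd (nat_lit 9) 
(.lf (nat_lit 523309) (.g (nat_lit 2326) (.e (nat_lit 204862) (nat_lit 27) (.e (nat_lit 344132) (nat_lit 26) (.e (nat_lit 557103) (nat_lit 14) (.e (nat_lit 180250) (nat_lit 10) (.e (nat_lit 573475) (nat_lit 12) (.e (nat_lit 57507) (nat_lit 39) (.e (nat_lit 655104) (nat_lit 0) (.e (nat_lit 2684) (nat_lit 168) .nil)))))))) (.g (nat_lit 1) (.e (nat_lit 229382) (nat_lit 0) .nil) .nil))) 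
(.lf (nat_lit 523821) (.g (nat_lit 3148) (.e (nat_lit 204863) (nat_lit 27) (.e (nat_lit 344133) (nat_lit 26) (.e (nat_lit 557105) (nat_lit 14) (.e (nat_lit 180252) (nat_lit 10) (.e (nat_lit 573474) (nat_lit 12) (.e (nat_lit 57513) (nat_lit 40) (.e (nat_lit 663296) (nat_lit 0) (.e (nat_lit 2684) (nat_lit 168) .nil)))))))) (.g (nat_lit 1) (.e (nat_lit 229972) (nat_lit 0) .nil) .nil)))) 
(.nd (nat_lit 9) 
(.lf (nat_lit 523565) (.g (nat_lit 3002) (.e (nat_lit 204863) (nat_lit 27) (.e (nat_lit 344129) (nat_lit 26) (.e (nat_lit 557104) (nat_lit 14) (.e (nat_lit 180252) (nat_lit 10) (.e (nat_lit 573475) (nat_lit 12) (.e (nat_lit 57506) (nat_lit 39) (.e (nat_lit 647175) (nat_lit 0) (.e (nat_lit 2684) (nat_lit 168) .nil)))))))) (.g (nat_lit 1) (.e (nat_lit 229713) (nat_lit 0) .nil) .nil))) 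
(.lf (nat_lit 524077) (.g (nat_lit 2056) (.e (nat_lit 204868) (nat_lit 29) (.e (nat_lit 360466) (nat_lit 3) (.e (nat_lit 516139) (nat_lit 7) (.e (nat_lit 409623) (nat_lit 10) (.e (nat_lit 5626) (nat_lit 312) .nil))))) (.g (nat_lit 0) (.e (nat_lit 230564) (nat_lit 0) .nil) .nil))))) (.nd (nat_lit 8) (.nd (nat_lit 9) 
(.lf (nat_lit 523437) (.g (nat_lit 1560) (.e (nat_lit 204862) (nat_lit 27) (.e (nat_lit 344169) (nat_lit 40) (.e (nat_lit 671748) (nat_lit 0) (.e (nat_lit 1047) (nat_lit 81) .nil)))) (.g (nat_lit 0) (.e (nat_lit 229511) (nat_lit 0) .nil) .nil))) 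
(.lf (nat_lit 523949) (.g (nat_lit 3865) (.e (nat_lit 204864) (nat_lit 27) (.e (nat_lit 344133) (nat_lit 26) (.e (nat_lit 557105) (nat_lit 14) (.e (nat_lit 180252) (nat_lit 10) (.e (nat_lit 573459) (nat_lit 9) .nil))))) (.g (nat_lit 0) (.e (nat_lit 230135) (nat_lit 0) .nil) .nil)))) (.nd (nat_lit 9) 
(.lf (nat_lit 523693) (.g (nat_lit 3080) (.e (nat_lit 204863) (nat_lit 27) (.e (nat_lit 344132) (nat_lit 26) (.e (nat_lit 557105) (nat_lit 14) (.e (nat_lit 180252) (nat_lit 10) (.e (nat_lit 573474) (nat_lit 12) (.e (nat_lit 57508) (nat_lit 39) (.e (nat_lit 655104) (nat_lit 0) (.e (nat_lit 2685) (nat_lit 168) .nil)))))))) (.g (nat_lit 1) (.e (nat_lit 229842) (nat_lit 0) .nil) .nil))) 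
(.lf (nat_lit 524205) (.g (nat_lit 3614) (.e (nat_lit 204868) (nat_lit 29) (.e (nat_lit 360473) (nat_lit 8) (.e (nat_lit 557089) (nat_lit 12) (.e (nat_lit 164017) (nat_lit 44) (.e (nat_lit 688138) (nat_lit 5) (.e (nat_lit 2887) (nat_lit 184) (.e (nat_lit 426135) (nat_lit 3) .nil))))))) (.g (nat_lit 1) (.e (nat_lit 230799) (nat_lit 0) .nil) .nil)))))) 
(.nd (nat_lit 7) (.nd (nat_lit 8) (.nd (nat_lit 9) 
(.lf (nat_lit 523373) (.g (nat_lit 2543) (.e (nat_lit 204862) (nat_lit 27) (.e (nat_lit 344133) (nat_lit 26) (.e (nat_lit 557103) (nat_lit 14) (.e (nat_lit 180250) (nat_lit 10) (.e (nat_lit 573475) (nat_lit 12) (.e (nat_lit 57506) (nat_lit 39) (.e (nat_lit 647170) (nat_lit 0) (.e (nat_lit 2685) (nat_lit 168) .nil)))))))) (.g (nat_lit 1) (.e (nat_lit 229447) (nat_lit 0) .nil) .nil))) 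
(.lf (nat_lit 523885) (.g (nat_lit 4520) (.e (nat_lit 204864) (nat_lit 27) (.e (nat_lit 344132) (nat_lit 26) (.e (nat_lit 557100) (nat_lit 13) (.e (nat_lit 172065) (nat_lit 3) (.e (nat_lit 204821) (nat_lit 17) (.e (nat_lit 2391) (nat_lit 156) (.e (nat_lit 819204) (nat_lit 0) (.e (nat_lit 2685) (nat_lit 168) .nil)))))))) (.g (nat_lit 1) (.e (nat_lit 230071) (nat_lit 0) .nil) .nil)))) 
(.nd (nat_lit 9) 
(.lf (nat_lit 523629) (.g (nat_lit 3818) (.e (nat_lit 204863) (nat_lit 27) (.e (nat_lit 344131) (nat_lit 26) (.e (nat_lit 557105) (nat_lit 14) (.e (nat_lit 180252) (nat_lit 10) (.e (nat_lit 573474) (nat_lit 12) (.e (nat_lit 57507) (nat_lit 39) (.e (nat_lit 647176) (nat_lit 0) (.e (nat_lit 2681) (nat_lit 168) .nil)))))))) (.g (nat_lit 1) (.e (nat_lit 229777) (nat_lit 0) .nil) .nil))) 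
(.lf (nat_lit 524141) (.g (nat_lit 2620) (.e (nat_lit 204868) (nat_lit 29) (.e (nat_lit 360473) (nat_lit 8) (.e (nat_lit 557072) (nat_lit 9) (.e (nat_lit 220) (nat_lit 20) (.e (nat_lit 327700) (nat_lit 8) (.e (nat_lit 303118) (nat_lit 3) .nil)))))) (.g (nat_lit 1) (.e (nat_lit 230723) (nat_lit 0) .nil) .nil))))) (.nd (nat_lit 8) (.nd (nat_lit 9) 
(.lf (nat_lit 523501) (.g (nat_lit 2403) (.e (nat_lit 204863) (nat_lit 27) (.e (nat_lit 344117) (nat_lit 21) (.e (nat_lit 516130) (nat_lit 3) (.e (nat_lit 221215) (nat_lit 23) (.e (nat_lit 204829) (nat_lit 18) (.e (nat_lit 57926) (nat_lit 282) (.e (nat_lit 163872) (nat_lit 3) .nil))))))) (.g (nat_lit 1) (.e (nat_lit 229626) (nat_lit 0) .nil) .nil))) 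
(.lf (nat_lit 524013) (.g (nat_lit 1838) (.e (nat_lit 204866) (nat_lit 28) (.e (nat_lit 352280) (nat_lit 20) (.e (nat_lit 1788) (nat_lit 119) (.e (nat_lit 516139) (nat_lit 7) (.e (nat_lit 417536) (nat_lit 18) .nil))))) (.g (nat_lit 0) (.e (nat_lit 230345) (nat_lit 0) .nil) .nil)))) (.nd (nat_lit 9) 
(.lf (nat_lit 523757) (.g (nat_lit 3223) (.e (nat_lit 204863) (nat_lit 27) (.e (nat_lit 344133) (nat_lit 26) (.e (nat_lit 557103) (nat_lit 14) (.e (nat_lit 180250) (nat_lit 10) (.e (nat_lit 573475) (nat_lit 12) (.e (nat_lit 57506) (nat_lit 39) (.e (nat_lit 647176) (nat_lit 0) (.e (nat_lit 2681) (nat_lit 168) .nil)))))))) (.g (nat_lit 1) (.e (nat_lit 229908) (nat_lit 0) .nil) .nil))) 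
(.lf (nat_lit 524269) (.g (nat_lit 388) (.e (nat_lit 204868) (nat_lit 29) (.e (nat_lit 360473) (nat_lit 8) (.e (nat_lit 557094) (nat_lit 12) .nil))) (.g (nat_lit 0) (.e (nat_lit 230901) (nat_lit 0) .nil) .nil)))))))) (.nd (nat_lit 5) (.nd (nat_lit 6) (.nd (nat_lit 7) (.nd (nat_lit 8) (.nd (nat_lit 9) 
(.lf (nat_lit 523293) (.g (nat_lit 2447) (.e (nat_lit 204862) (nat_lit 27) (.e (nat_lit 344132) (nat_lit 26) (.e (nat_lit 557100) (nat_lit 13) (.e (nat_lit 172065) (nat_lit 3) (.e (nat_lit 204815) (nat_lit 17) .nil))))) (.g (nat_lit 0) (.e (nat_lit 229366) (nat_lit 0) .nil) .nil))) 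
(.lf (nat_lit 523805) (.g (nat_lit 5207) (.e (nat_lit 204863) (nat_lit 27) (.e (nat_lit 344133) (nat_lit 26) (.e (nat_lit 557105) (nat_lit 14) (.e (nat_lit 180252) (nat_lit 10) (.e (nat_lit 573474) (nat_lit 12) (.e (nat_lit 57507) (nat_lit 39) (.e (nat_lit 647170) (nat_lit 0) (.e (nat_lit 2685) (nat_lit 168) .nil)))))))) (.g (nat_lit 1) (.e (nat_lit 229956) (nat_lit 0) .nil) .nil)))) 
(.nd (nat_lit 9) 
(.lf (nat_lit 523549) (.g (nat_lit 3128) (.e (nat_lit 204863) (nat_lit 27) (.e (nat_lit 344129) (nat_lit 26) (.e (nat_lit 557103) (nat_lit 14) (.e (nat_lit 180250) (nat_lit 10) (.e (nat_lit 573478) (nat_lit 12) (.e (nat_lit 57509) (nat_lit 39) (.e (nat_lit 655104) (nat_lit 0) (.e (nat_lit 2684) (nat_lit 168) .nil)))))))) (.g (nat_lit 1) (.e (nat_lit 229697) (nat_lit 0) .nil) .nil))) 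
(.lf (nat_lit 524061) (.g (nat_lit 3419) (.e (nat_lit 204868) (nat_lit 29) (.e (nat_lit 360466) (nat_lit 3) (.e (nat_lit 516138) (nat_lit 7) (.e (nat_lit 409647) (nat_lit 18) (.e (nat_lit 303118) (nat_lit 3) .nil))))) (.g (nat_lit 1) (.e (nat_lit 230548) (nat_lit 0) .nil) .nil))))) (.nd (nat_lit 8) (.nd (nat_lit 9) 
(.lf (nat_lit 523421) (.g (nat_lit 4649) (.e (nat_lit 204862) (nat_lit 27) (.e (nat_lit 344133) (nat_lit 26) (.e (nat_lit 557105) (nat_lit 14) (.e (nat_lit 180252) (nat_lit 10) (.e (nat_lit 573474) (nat_lit 12) (.e (nat_lit 57511) (nat_lit 39) (.e (nat_lit 655104) (nat_lit 0) (.e (nat_lit 2684) (nat_lit 168) .nil)))))))) (.g (nat_lit 1) (.e (nat_lit 229495) (nat_lit 0) .nil) .nil))) 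
(.lf (nat_lit 523933) (.g (nat_lit 1941) (.e (nat_lit 204864) (nat_lit 27) (.e (nat_lit 344133) (nat_lit 26) (.e (nat_lit 557103) (nat_lit 14) (.e (nat_lit 180240) (nat_lit 2) .nil)))) (.g (nat_lit 0) (.e (nat_lit 230119) (nat_lit 0) .nil) .nil)))) (.nd (nat_lit 9) 
(.lf (nat_lit 523677) (.g (nat_lit 3109) (.e (nat_lit 204863) (nat_lit 27) (.e (nat_lit 344132) (nat_lit 26) (.e (nat_lit 557105) (nat_lit 14) (.e (nat_lit 180252) (nat_lit 10) (.e (nat_lit 573474) (nat_lit 12) (.e (nat_lit 57348) (nat_lit 0) (.e (nat_lit 5436) (nat_lit 306) (.e (nat_lit 2433) (nat_lit 157) (.e (nat_lit 2685) (nat_lit 168) .nil))))))))) (.g (nat_lit 1) (.e (nat_lit 229826) (nat_lit 0) .nil) .nil))) 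
(.lf (nat_lit 524189) (.g (nat_lit 2171) (.e (nat_lit 204868) (nat_lit 29) (.e (nat_lit 360473) (nat_lit 8) (.e (nat_lit 557089) (nat_lit 12) (.e (nat_lit 163843) (nat_lit 0) (.e (nat_lit 6418) (nat_lit 341) .nil))))) (.g (nat_lit 0) (.e (nat_lit 230781) (nat_lit 0) .nil) .nil)))))) (.nd (nat_lit 7) (.nd (nat_lit 8) (.nd (nat_lit 9) 
(.lf (nat_lit 523357) (.g (nat_lit 2569) (.e (nat_lit 204862) (nat_lit 27) (.e (nat_lit 344133) (nat_lit 26) (.e (nat_lit 557103) (nat_lit 14) (.e (nat_lit 180244) (nat_lit 5) (.e (nat_lit 532503) (nat_lit 1) (.e (nat_lit 57704) (nat_lit 164) (.e (nat_lit 2515) (nat_lit 157) (.e (nat_lit 2681) (nat_lit 168) .nil)))))))) (.g (nat_lit 1) (.e (nat_lit 229431) (nat_lit 0) .nil) .nil))) 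
(.lf (nat_lit 523869) (.g (nat_lit 2084) (.e (nat_lit 204864) (nat_lit 27) (.e (nat_lit 344130) (nat_lit 26) (.e (nat_lit 557104) (nat_lit 14) (.e (nat_lit 180252) (nat_lit 10) (.e (nat_lit 573459) (nat_lit 9) .nil))))) (.g (nat_lit 0) (.e (nat_lit 230055) (nat_lit 0) .nil) .nil)))) (.nd (nat_lit 9) 
(.lf (nat_lit 523613) (.g (nat_lit 2461) (.e (nat_lit 204863) (nat_lit 27) (.e (nat_lit 344131) (nat_lit 26) (.e (nat_lit 557103) (nat_lit 14) (.e (nat_lit 180250) (nat_lit 10) (.e (nat_lit 573477) (nat_lit 12) (.e (nat_lit 57511) (nat_lit 39) (.e (nat_lit 655104) (nat_lit 0) (.e (nat_lit 2684) (nat_lit 168) .nil)))))))) (.g (nat_lit 1) (.e (nat_lit 229761) (nat_lit 0) .nil) .nil))) 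
(.lf (nat_lit 524125) (.g (nat_lit 3138) (.e (nat_lit 204868) (nat_lit 29) (.e (nat_lit 360472) (nat_lit 8) (.e (nat_lit 557090) (nat_lit 12) (.e (nat_lit 164020) (nat_lit 45) (.e (nat_lit 696330) (nat_lit 5) .nil))))) (.g (nat_lit 0) (.e (nat_lit 230698) (nat_lit 0) .nil) .nil))))) (.nd (nat_lit 8) (.nd (nat_lit 9) 
(.lf (nat_lit 523485) (.g (nat_lit 4295) (.e (nat_lit 204863) (nat_lit 27) (.e (nat_lit 344117) (nat_lit 21) (.e (nat_lit 516123) (nat_lit 2) (.e (nat_lit 213033) (nat_lit 12) (.e (nat_lit 163976) (nat_lit 30) (.e (nat_lit 573474) (nat_lit 12) (.e (nat_lit 57528) (nat_lit 46) (.e (nat_lit 704514) (nat_lit 0) (.e (nat_lit 2685) (nat_lit 168) .nil))))))))) (.g (nat_lit 1) (.e (nat_lit 229610) (nat_lit 0) .nil) .nil))) 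
(.lf (nat_lit 523997) (.g (nat_lit 693) (.e (nat_lit 204866) (nat_lit 28) (.e (nat_lit 352261) (nat_lit 0) (.e (nat_lit 3302) (nat_lit 202) (.e (nat_lit 573479) (nat_lit 13) .nil)))) (.g (nat_lit 0) (.e (nat_lit 230265) (nat_lit 0) .nil) .nil)))) (.nd (nat_lit 9) 
(.lf (nat_lit 523741) (.g (nat_lit 1490) (.e (nat_lit 204863) (nat_lit 27) (.e (nat_lit 344133) (nat_lit 26) (.e (nat_lit 557103) (nat_lit 14) (.e (nat_lit 188160) (nat_lit 1) .nil)))) (.g (nat_lit 0) (.e (nat_lit 229892) (nat_lit 0) .nil) .nil))) 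
(.lf (nat_lit 524253) (.g (nat_lit 2821) (.e (nat_lit 204868) (nat_lit 29) (.e (nat_lit 360473) (nat_lit 8) (.e (nat_lit 557091) (nat_lit 12) (.e (nat_lit 164017) (nat_lit 44) (.e (nat_lit 688139) (nat_lit 5) (.e (nat_lit 2887) (nat_lit 184) (.e (nat_lit 426135) (nat_lit 3) .nil))))))) (.g (nat_lit 1) (.e (nat_lit 230853) (nat_lit 0) .nil) .nil))))))) 
(.nd (nat_lit 6) (.nd (nat_lit 7) (.nd (nat_lit 8) (.nd (nat_lit 9) 
(.lf (nat_lit 523325) (.g (nat_lit 3639) (.e (nat_lit 204862) (nat_lit 27) (.e (nat_lit 344132) (nat_lit 26) (.e (nat_lit 557105) (nat_lit 14) (.e (nat_lit 180252) (nat_lit 10) (.e (nat_lit 573474) (nat_lit 12) (.e (nat_lit 57508) (nat_lit 39) (.e (nat_lit 655104) (nat_lit 0) (.e (nat_lit 2684) (nat_lit 168) .nil)))))))) (.g (nat_lit 1) (.e (nat_lit 229398) (nat_lit 0) .nil) .nil))) 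
(.lf (nat_lit 523837) (.g (nat_lit 4185) (.e (nat_lit 204863) (nat_lit 27) (.e (nat_lit 344133) (nat_lit 26) (.e (nat_lit 557105) (nat_lit 14) (.e (nat_lit 180252) (nat_lit 10) (.e (nat_lit 573475) (nat_lit 12) (.e (nat_lit 57509) (nat_lit 39) (.e (nat_lit 655104) (nat_lit 0) (.e (nat_lit 2684) (nat_lit 168) .nil)))))))) (.g (nat_lit 1) (.e (nat_lit 229988) (nat_lit 0) .nil) .nil)))) 
(.nd (nat_lit 9) 
(.lf (nat_lit 523581) (.g (nat_lit 3148) (.e (nat_lit 204863) (nat_lit 27) (.e (nat_lit 344130) (nat_lit 26) (.e (nat_lit 557103) (nat_lit 14) (.e (nat_lit 180250) (nat_lit 10) (.e (nat_lit 573475) (nat_lit 12) (.e (nat_lit 57507) (nat_lit 39) (.e (nat_lit 647176) (nat_lit 0) (.e (nat_lit 2681) (nat_lit 168) .nil)))))))) (.g (nat_lit 1) (.e (nat_lit 229729) (nat_lit 0) .nil) .nil))) 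
(.lf (nat_lit 524093) (.g (nat_lit 3443) (.e (nat_lit 204868) (nat_lit 29) (.e (nat_lit 360466) (nat_lit 3) (.e (nat_lit 516142) (nat_lit 8) (.e (nat_lit 417830) (nat_lit 19) (.e (nat_lit 311314) (nat_lit 3) .nil))))) (.g (nat_lit 1) (.e (nat_lit 230588) (nat_lit 0) .nil) .nil))))) (.nd (nat_lit 8) (.nd (nat_lit 9) 
(.lf (nat_lit 523453) (.g (nat_lit 4832) (.e (nat_lit 204863) (nat_lit 27) (.e (nat_lit 344117) (nat_lit 21) (.e (nat_lit 516115) (nat_lit 1) (.e (nat_lit 164179) (nat_lit 154) (.e (nat_lit 57372) (nat_lit 2) (.e (nat_lit 90128) (nat_lit 9) (.e (nat_lit 2706) (nat_lit 170) (.e (nat_lit 221215) (nat_lit 23) .nil)))))))) (.g (nat_lit 1) (.e (nat_lit 229546) (nat_lit 0) .nil) .nil))) 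
(.lf (nat_lit 523965) (.g (nat_lit 2613) (.e (nat_lit 204865) (nat_lit 28) (.e (nat_lit 352262) (nat_lit 0) (.e (nat_lit 3253) (nat_lit 197) (.e (nat_lit 532513) (nat_lit 3) (.e (nat_lit 114694) (nat_lit 11) (.e (nat_lit 426139) (nat_lit 3) .nil)))))) (.g (nat_lit 1) (.e (nat_lit 230161) (nat_lit 0) .nil) .nil)))) (.nd (nat_lit 9) 
(.lf (nat_lit 523709) (.g (nat_lit 2337) (.e (nat_lit 204863) (nat_lit 27) (.e (nat_lit 344132) (nat_lit 26) (.e (nat_lit 557105) (nat_lit 14) (.e (nat_lit 180252) (nat_lit 10) (.e (nat_lit 573475) (nat_lit 12) (.e (nat_lit 57509) (nat_lit 39) (.e (nat_lit 647172) (nat_lit 0) (.e (nat_lit 2683) (nat_lit 168) .nil)))))))) (.g (nat_lit 1) (.e (nat_lit 229858) (nat_lit 0) .nil) .nil))) 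
(.lf (nat_lit 524221) (.g (nat_lit 2198) (.e (nat_lit 204868) (nat_lit 29) (.e (nat_lit 360473) (nat_lit 8) (.e (nat_lit 557091) (nat_lit 12) (.e (nat_lit 163843) (nat_lit 0) (.e (nat_lit 6255) (nat_lit 337) .nil))))) (.g (nat_lit 0) (.e (nat_lit 230816) (nat_lit 0) .nil) .nil)))))) (.nd (nat_lit 7) (.nd (nat_lit 8) (.nd (nat_lit 9) 
(.lf (nat_lit 523389) (.g (nat_lit 2120) (.e (nat_lit 204862) (nat_lit 27) (.e (nat_lit 344133) (nat_lit 26) (.e (nat_lit 557105) (nat_lit 14) (.e (nat_lit 180250) (nat_lit 10) .nil)))) (.g (nat_lit 0) (.e (nat_lit 229463) (nat_lit 0) .nil) .nil))) 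
(.lf (nat_lit 523901) (.g (nat_lit 3128) (.e (nat_lit 204864) (nat_lit 27) (.e (nat_lit 344132) (nat_lit 26) (.e (nat_lit 557105) (nat_lit 14) (.e (nat_lit 180252) (nat_lit 10) (.e (nat_lit 573473) (nat_lit 12) (.e (nat_lit 57507) (nat_lit 39) (.e (nat_lit 655104) (nat_lit 0) (.e (nat_lit 2685) (nat_lit 168) .nil)))))))) (.g (nat_lit 1) (.e (nat_lit 230087) (nat_lit 0) .nil) .nil)))) 
(.nd (nat_lit 9) 
(.lf (nat_lit 523645) (.g (nat_lit 2208) (.e (nat_lit 204863) (nat_lit 27) (.e (nat_lit 344132) (nat_lit 26) (.e (nat_lit 557100) (nat_lit 13) (.e (nat_lit 172064) (nat_lit 2) (.e (nat_lit 196686) (nat_lit 18) .nil))))) (.g (nat_lit 0) (.e (nat_lit 229793) (nat_lit 0) .nil) .nil))) 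
(.lf (nat_lit 524157) (.g (nat_lit 267) (.e (nat_lit 204868) (nat_lit 29) (.e (nat_lit 360473) (nat_lit 8) (.e (nat_lit 557087) (nat_lit 11) .nil))) (.g (nat_lit 0) (.e (nat_lit 230744) (nat_lit 0) .nil) .nil))))) (.nd (nat_lit 8) (.nd (nat_lit 9) 
(.lf (nat_lit 523517) (.g (nat_lit 2795) (.e (nat_lit 204863) (nat_lit 27) (.e (nat_lit 344118) (nat_lit 21) (.e (nat_lit 516119) (nat_lit 1) (.e (nat_lit 164179) (nat_lit 154) (.e (nat_lit 57377) (nat_lit 3) (.e (nat_lit 98321) (nat_lit 17) (.e (nat_lit 3771) (nat_lit 229) (.e (nat_lit 794673) (nat_lit 23) .nil)))))))) (.g (nat_lit 1) (.e (nat_lit 229651) (nat_lit 0) .nil) .nil))) 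
(.lf (nat_lit 524029) (.g (nat_lit 772) (.e (nat_lit 204866) (nat_lit 28) (.e (nat_lit 352318) (nat_lit 24) (.e (nat_lit 123042) (nat_lit 140) .nil))) (.g (nat_lit 0) (.e (nat_lit 230432) (nat_lit 0) .nil) .nil)))) (.nd (nat_lit 9) 
(.lf (nat_lit 523773) (.g (nat_lit 3351) (.e (nat_lit 204863) (nat_lit 27) (.e (nat_lit 344133) (nat_lit 26) (.e (nat_lit 557105) (nat_lit 14) (.e (nat_lit 180251) (nat_lit 10) (.e (nat_lit 573475) (nat_lit 12) (.e (nat_lit 57507) (nat_lit 39) (.e (nat_lit 655104) (nat_lit 0) (.e (nat_lit 2684) (nat_lit 168) .nil)))))))) (.g (nat_lit 1) (.e (nat_lit 229924) (nat_lit 0) .nil) .nil))) 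
(.lf (nat_lit 524285) (.g (nat_lit 485) (.e (nat_lit 204868) (nat_lit 29) (.e (nat_lit 360474) (nat_lit 8) (.e (nat_lit 557094) (nat_lit 12) .nil))) (.g (nat_lit 0) (.e (nat_lit 230933) (nat_lit 0) .nil) .nil))))))))))) (.nd (nat_lit 2) (.nd (nat_lit 3) (.nd (nat_lit 4) (.nd (nat_lit 5) (.nd (nat_lit 6) (.nd (nat_lit 7) (.nd (nat_lit 8) (.nd (nat_lit 9) 
(.lf (nat_lit 523267) (.g (nat_lit 2457) (.e (nat_lit 204862) (nat_lit 27) (.e (nat_lit 344130) (nat_lit 26) (.e (nat_lit 557104) (nat_lit 14) (.e (nat_lit 180252) (nat_lit 10) (.e (nat_lit 573473) (nat_lit 12) (.e (nat_lit 57506) (nat_lit 39) (.e (nat_lit 655104) (nat_lit 0) (.e (nat_lit 2684) (nat_lit 168) .nil)))))))) (.g (nat_lit 1) (.e (nat_lit 229340) (nat_lit 0) .nil) .nil))) 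
(.lf (nat_lit 523779) (.g (nat_lit 3709) (.e (nat_lit 204863) (nat_lit 27) (.e (nat_lit 344133) (nat_lit 26) (.e (nat_lit 557105) (nat_lit 14) (.e (nat_lit 180252) (nat_lit 10) (.e (nat_lit 573473) (nat_lit 12) (.e (nat_lit 57507) (nat_lit 39) (.e (nat_lit 647170) (nat_lit 0) (.e (nat_lit 2685) (nat_lit 168) .nil)))))))) (.g (nat_lit 1) (.e (nat_lit 229930) (nat_lit 0) .nil) .nil)))) 
(.nd (nat_lit 9) 
(.lf (nat_lit 523523) (.g (nat_lit 1922) (.e (nat_lit 204863) (nat_lit 27) (.e (nat_lit 344120) (nat_lit 21) (.e (nat_lit 516119) (nat_lit 1) (.e (nat_lit 164179) (nat_lit 154) (.e (nat_lit 57371) (nat_lit 2) .nil))))) (.g (nat_lit 0) (.e (nat_lit 229667) (nat_lit 0) .nil) .nil))) 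
(.lf (nat_lit 524035) (.g (nat_lit 3163) (.e (nat_lit 204867) (nat_lit 28) (.e (nat_lit 352312) (nat_lit 22) (.e (nat_lit 90165) (nat_lit 12) (.e (nat_lit 164210) (nat_lit 176) (.e (nat_lit 2798) (nat_lit 180) (.e (nat_lit 303119) (nat_lit 3) .nil)))))) (.g (nat_lit 1) (.e (nat_lit 230464) (nat_lit 0) .nil) .nil))))) (.nd (nat_lit 8) (.nd (nat_lit 9) 
(.lf (nat_lit 523395) (.g (nat_lit 3070) (.e (nat_lit 204862) (nat_lit 27) (.e (nat_lit 344133) (nat_lit 26) (.e (nat_lit 557105) (nat_lit 14) (.e (nat_lit 180252) (nat_lit 10) (.e (nat_lit 573473) (nat_lit 12) .nil))))) (.g (nat_lit 0) (.e (nat_lit 229469) (nat_lit 0) .nil) .nil))) 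
(.lf (nat_lit 523907) (.g (nat_lit 3256) (.e (nat_lit 204864) (nat_lit 27) (.e (nat_lit 344132) (nat_lit 26) (.e (nat_lit 557105) (nat_lit 14) (.e (nat_lit 180252) (nat_lit 10) (.e (nat_lit 573473) (nat_lit 12) (.e (nat_lit 57511) (nat_lit 39) (.e (nat_lit 647168) (nat_lit 0) (.e (nat_lit 2685) (nat_lit 168) .nil)))))))) (.g (nat_lit 1) (.e (nat_lit 230093) (nat_lit 0) .nil) .nil)))) 
(.nd (nat_lit 9) 
(.lf (nat_lit 523651) (.g (nat_lit 1556) (.e (nat_lit 204863) (nat_lit 27) (.e (nat_lit 344132) (nat_lit 26) (.e (nat_lit 557100) (nat_lit 13) (.e (nat_lit 172067) (nat_lit 3) .nil)))) (.g (nat_lit 0) (.e (nat_lit 229799) (nat_lit 0) .nil) .nil))) 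
(.lf (nat_lit 524163) (.g (nat_lit 2179) (.e (nat_lit 204868) (nat_lit 29) (.e (nat_lit 360473) (nat_lit 8) (.e (nat_lit 557087) (nat_lit 11) (.e (nat_lit 24579) (nat_lit 0) (.e (nat_lit 7936) (nat_lit 357) (.e (nat_lit 2684) (nat_lit 168) .nil)))))) (.g (nat_lit 1) (.e (nat_lit 230750) (nat_lit 0) .nil) .nil)))))) (.nd (nat_lit 7) (.nd (nat_lit 8) (.nd (nat_lit 9) 
(.lf (nat_lit 523331) (.g (nat_lit 1917) (.e (nat_lit 204862) (nat_lit 27) (.e (nat_lit 344132) (nat_lit 26) (.e (nat_lit 557105) (nat_lit 14) (.e (nat_lit 180252) (nat_lit 10) (.e (nat_lit 573503) (nat_lit 18) .nil))))) (.g (nat_lit 0) (.e (nat_lit 229404) (nat_lit 0) .nil) .nil))) 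
(.lf (nat_lit 523843) (.g (nat_lit 2512) (.e (nat_lit 204863) (nat_lit 27) (.e (nat_lit 344168) (nat_lit 40) (.e (nat_lit 671759) (nat_lit 3) (.e (nat_lit 57479) (nat_lit 28) (.e (nat_lit 557096) (nat_lit 13) .nil))))) (.g (nat_lit 0) (.e (nat_lit 229994) (nat_lit 0) .nil) .nil)))) (.nd (nat_lit 9) 
(.lf (nat_lit 523587) (.g (nat_lit 2739) (.e (nat_lit 204863) (nat_lit 27) (.e (nat_lit 344130) (nat_lit 26) (.e (nat_lit 557103) (nat_lit 14) (.e (nat_lit 180250) (nat_lit 10) (.e (nat_lit 573478) (nat_lit 12) (.e (nat_lit 57509) (nat_lit 39) (.e (nat_lit 655104) (nat_lit 0) (.e (nat_lit 2684) (nat_lit 168) .nil)))))))) (.g (nat_lit 1) (.e (nat_lit 229735) (nat_lit 0) .nil) .nil))) 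
(.lf (nat_lit 524099) (.g (nat_lit 3179) (.e (nat_lit 204868) (nat_lit 29) (.e (nat_lit 360466) (nat_lit 3) (.e (nat_lit 516185) (nat_lit 16) (.e (nat_lit 491572) (nat_lit 14) (.e (nat_lit 401428) (nat_lit 3) .nil))))) (.g (nat_lit 1) (.e (nat_lit 230669) (nat_lit 0) .nil) .nil))))) (.nd (nat_lit 8) (.nd (nat_lit 9) 
(.lf (nat_lit 523459) (.g (nat_lit 3022) (.e (nat_lit 204863) (nat_lit 27) (.e (nat_lit 344117) (nat_lit 21) (.e (nat_lit 516115) (nat_lit 1) (.e (nat_lit 164179) (nat_lit 154) (.e (nat_lit 57378) (nat_lit 3) (.e (nat_lit 98319) (nat_lit 17) (.e (nat_lit 3771) (nat_lit 229) (.e (nat_lit 794673) (nat_lit 23) .nil)))))))) (.g (nat_lit 1) (.e (nat_lit 229558) (nat_lit 0) .nil) .nil))) 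
(.lf (nat_lit 523971) (.g (nat_lit 224) (.e (nat_lit 204865) (nat_lit 28) (.e (nat_lit 352273) (nat_lit 11) (.e (nat_lit 426107) (nat_lit 1) .nil))) (.g (nat_lit 0) (.e (nat_lit 230188) (nat_lit 0) .nil) .nil)))) (.nd (nat_lit 9) 
(.lf (nat_lit 523715) (.g (nat_lit 3148) (.e (nat_lit 204863) (nat_lit 27) (.e (nat_lit 344132) (nat_lit 26) (.e (nat_lit 557105) (nat_lit 14) (.e (nat_lit 180252) (nat_lit 10) (.e (nat_lit 573505) (nat_lit 18) .nil))))) (.g (nat_lit 0) (.e (nat_lit 229864) (nat_lit 0) .nil) .nil))) 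
(.lf (nat_lit 524227) (.g (nat_lit 2492) (.e (nat_lit 204868) (nat_lit 29) (.e (nat_lit 360473) (nat_lit 8) (.e (nat_lit 557091) (nat_lit 12) (.e (nat_lit 163843) (nat_lit 0) (.e (nat_lit 6418) (nat_lit 341) .nil))))) (.g (nat_lit 0) (.e (nat_lit 230824) (nat_lit 0) .nil) .nil))))))) (.nd (nat_lit 6) (.nd (nat_lit 7) (.nd (nat_lit 8) (.nd (nat_lit 9) 
(.lf (nat_lit 523299) (.g (nat_lit 2068) (.e (nat_lit 204862) (nat_lit 27) (.e (nat_lit 344132) (nat_lit 26) (.e (nat_lit 557100) (nat_lit 13) (.e (nat_lit 172137) (nat_lit 15) (.e (nat_lit 7936) (nat_lit 121) .nil))))) (.g (nat_lit 0) (.e (nat_lit 229372) (nat_lit 0) .nil) .nil))) 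
(.lf (nat_lit 523811) (.g (nat_lit 3422) (.e (nat_lit 204863) (nat_lit 27) (.e (nat_lit 344133) (nat_lit 26) (.e (nat_lit 557105) (nat_lit 14) (.e (nat_lit 180252) (nat_lit 10) (.e (nat_lit 573474) (nat_lit 12) (.e (nat_lit 57508) (nat_lit 39) (.e (nat_lit 655104) (nat_lit 0) (.e (nat_lit 2685) (nat_lit 168) .nil)))))))) (.g (nat_lit 1) (.e (nat_lit 229962) (nat_lit 0) .nil) .nil)))) 
(.nd (nat_lit 9) 
(.lf (nat_lit 523555) (.g (nat_lit 3061) (.e (nat_lit 204863) (nat_lit 27) (.e (nat_lit 344129) (nat_lit 26) (.e (nat_lit 557104) (nat_lit 14) (.e (nat_lit 180252) (nat_lit 10) (.e (nat_lit 573473) (nat_lit 12) (.e (nat_lit 57507) (nat_lit 39) (.e (nat_lit 647176) (nat_lit 0) (.e (nat_lit 2681) (nat_lit 168) .nil)))))))) (.g (nat_lit 1) (.e (nat_lit 229703) (nat_lit 0) .nil) .nil))) 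
(.lf (nat_lit 524067) (.g (nat_lit 1882) (.e (nat_lit 204868) (nat_lit 29) (.e (nat_lit 360466) (nat_lit 3) (.e (nat_lit 516139) (nat_lit 7) (.e (nat_lit 409614) (nat_lit 10) .nil)))) (.g (nat_lit 0) (.e (nat_lit 230554) (nat_lit 0) .nil) .nil))))) (.nd (nat_lit 8) (.nd (nat_lit 9) 
(.lf (nat_lit 523427) (.g (nat_lit 3709) (.e (nat_lit 204862) (nat_lit 27) (.e (nat_lit 344133) (nat_lit 26) (.e (nat_lit 557105) (nat_lit 14) (.e (nat_lit 180252) (nat_lit 10) (.e (nat_lit 573475) (nat_lit 12) (.e (nat_lit 57507) (nat_lit 39) (.e (nat_lit 647170) (nat_lit 0) (.e (nat_lit 2685) (nat_lit 168) .nil)))))))) (.g (nat_lit 1) (.e (nat_lit 229501) (nat_lit 0) .nil) .nil))) 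
(.lf (nat_lit 523939) (.g (nat_lit 2424) (.e (nat_lit 204864) (nat_lit 27) (.e (nat_lit 344133) (nat_lit 26) (.e (nat_lit 557103) (nat_lit 14) (.e (nat_lit 180250) (nat_lit 10) (.e (nat_lit 573475) (nat_lit 12) (.e (nat_lit 57507) (nat_lit 39) (.e (nat_lit 655104) (nat_lit 0) (.e (nat_lit 2685) (nat_lit 168) .nil)))))))) (.g (nat_lit 1) (.e (nat_lit 230125) (nat_lit 0) .nil) .nil)))) 
(.nd (nat_lit 9) 
(.lf (nat_lit 523683) (.g (nat_lit 3187) (.e (nat_lit 204863) (nat_lit 27) (.e (nat_lit 344132) (nat_lit 26) (.e (nat_lit 557105) (nat_lit 14) (.e (nat_lit 180252) (nat_lit 10) (.e (nat_lit 573474) (nat_lit 12) (.e (nat_lit 57507) (nat_lit 39) (.e (nat_lit 647168) (nat_lit 0) (.e (nat_lit 2685) (nat_lit 168) .nil)))))))) (.g (nat_lit 1) (.e (nat_lit 229832) (nat_lit 0) .nil) .nil))) 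
(.lf (nat_lit 524195) (.g (nat_lit 3104) (.e (nat_lit 204868) (nat_lit 29) (.e (nat_lit 360473) (nat_lit 8) (.e (nat_lit 557089) (nat_lit 12) (.e (nat_lit 163844) (nat_lit 0) (.e (nat_lit 6254) (nat_lit 337) (.e (nat_lit 2725) (nat_lit 172) (.e (nat_lit 237592) (nat_lit 3) .nil))))))) (.g (nat_lit 1) (.e (nat_lit 230787) (nat_lit 0) .nil) .nil)))))) 
(.nd (nat_lit 7) (.nd (nat_lit 8) (.nd (nat_lit 9) 
(.lf (nat_lit 523363) (.g (nat_lit 2510) (.e (nat_lit 204862) (nat_lit 27) (.e (nat_lit 344133) (nat_lit 26) (.e (nat_lit 557103) (nat_lit 14) (.e (nat_lit 180250) (nat_lit 10) (.e (nat_lit 573473) (nat_lit 12) (.e (nat_lit 57508) (nat_lit 39) (.e (nat_lit 647176) (nat_lit 0) (.e (nat_lit 2681) (nat_lit 168) .nil)))))))) (.g (nat_lit 1) (.e (nat_lit 229437) (nat_lit 0) .nil) .nil))) 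
(.lf (nat_lit 523875) (.g (nat_lit 2607) (.e (nat_lit 204864) (nat_lit 27) (.e (nat_lit 344130) (nat_lit 26) (.e (nat_lit 557104) (nat_lit 14) (.e (nat_lit 180252) (nat_lit 10) (.e (nat_lit 573503) (nat_lit 18) (.e (nat_lit 7936) (nat_lit 81) (.e (nat_lit 5259) (nat_lit 298) (.e (nat_lit 174) (nat_lit 12) .nil)))))))) (.g (nat_lit 1) (.e (nat_lit 230061) (nat_lit 0) .nil) .nil)))) 
(.nd (nat_lit 9) 
(.lf (nat_lit 523619) (.g (nat_lit 2649) (.e (nat_lit 204863) (nat_lit 27) (.e (nat_lit 344131) (nat_lit 26) (.e (nat_lit 557105) (nat_lit 14) (.e (nat_lit 180252) (nat_lit 10) (.e (nat_lit 573474) (nat_lit 12) (.e (nat_lit 57347) (nat_lit 0) (.e (nat_lit 5436) (nat_lit 306) (.e (nat_lit 2433) (nat_lit 157) (.e (nat_lit 2685) (nat_lit 168) .nil))))))))) (.g (nat_lit 1) (.e (nat_lit 229767) (nat_lit 0) .nil) .nil))) 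
(.lf (nat_lit 524131) (.g (nat_lit 3866) (.e (nat_lit 204868) (nat_lit 29) (.e (nat_lit 360473) (nat_lit 8) (.e (nat_lit 557067) (nat_lit 9) (.e (nat_lit 214) (nat_lit 19) (.e (nat_lit 319491) (nat_lit 0) (.e (nat_lit 5626) (nat_lit 312) (.e (nat_lit 2685) (nat_lit 168) .nil))))))) (.g (nat_lit 1) (.e (nat_lit 230709) (nat_lit 0) .nil) .nil))))) (.nd (nat_lit 8) (.nd (nat_lit 9) 
(.lf (nat_lit 523491) (.g (nat_lit 2397) (.e (nat_lit 204863) (nat_lit 27) (.e (nat_lit 344117) (nat_lit 21) (.e (nat_lit 516129) (nat_lit 3) (.e (nat_lit 221210) (nat_lit 22) (.e (nat_lit 196698) (nat_lit 19) (.e (nat_lit 57883) (nat_lit 270) (.e (nat_lit 174) (nat_lit 12) .nil))))))) (.g (nat_lit 1) (.e (nat_lit 229616) (nat_lit 0) .nil) .nil))) 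
(.lf (nat_lit 524003) (.g (nat_lit 1323) (.e (nat_lit 204866) (nat_lit 28) (.e (nat_lit 352273) (nat_lit 11) (.e (nat_lit 426100) (nat_lit 1) (.e (nat_lit 164182) (nat_lit 154) .nil)))) (.g (nat_lit 0) (.e (nat_lit 230294) (nat_lit 0) .nil) .nil)))) (.nd (nat_lit 9) 
(.lf (nat_lit 523747) (.g (nat_lit 2852) (.e (nat_lit 204863) (nat_lit 27) (.e (nat_lit 344133) (nat_lit 26) (.e (nat_lit 557103) (nat_lit 14) (.e (nat_lit 180244) (nat_lit 5) (.e (nat_lit 532490) (nat_lit 0) (.e (nat_lit 2391) (nat_lit 156) (.e (nat_lit 819204) (nat_lit 0) (.e (nat_lit 2685) (nat_lit 168) .nil)))))))) (.g (nat_lit 1) (.e (nat_lit 229898) (nat_lit 0) .nil) .nil))) 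
(.lf (nat_lit 524259) (.g (nat_lit 3188) (.e (nat_lit 204868) (nat_lit 29) (.e (nat_lit 360473) (nat_lit 8) (.e (nat_lit 557091) (nat_lit 12) (.e (nat_lit 164022) (nat_lit 46) (.e (nat_lit 704629) (nat_lit 9) (.e (nat_lit 411) (nat_lit 32) (.e (nat_lit 426136) (nat_lit 3) .nil))))))) (.g (nat_lit 1) (.e (nat_lit 230870) (nat_lit 0) .nil) .nil)))))))) 
(.nd (nat_lit 5) (.nd (nat_lit 6) (.nd (nat_lit 7) (.nd (nat_lit 8) (.nd (nat_lit 9) 
(.lf (nat_lit 523283) (.g (nat_lit 1610) (.e (nat_lit 204862) (nat_lit 27) (.e (nat_lit 344130) (nat_lit 26) (.e (nat_lit 557104) (nat_lit 14) (.e (nat_lit 180252) (nat_lit 10) (.e (nat_lit 573503) (nat_lit 18) .nil))))) (.g (nat_lit 0) (.e (nat_lit 229356) (nat_lit 0) .nil) .nil))) 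
(.lf (nat_lit 523795) (.g (nat_lit 3293) (.e (nat_lit 204863) (nat_lit 27) (.e (nat_lit 344133) (nat_lit 26) (.e (nat_lit 557105) (nat_lit 14) (.e (nat_lit 180252) (nat_lit 10) (.e (nat_lit 573474) (nat_lit 12) (.e (nat_lit 57348) (nat_lit 0) (.e (nat_lit 5444) (nat_lit 306) (.e (nat_lit 2433) (nat_lit 157) (.e (nat_lit 2685) (nat_lit 168) .nil))))))))) (.g (nat_lit 1) (.e (nat_lit 229946) (nat_lit 0) .nil) .nil)))) 
(.nd (nat_lit 9) 
(.lf (nat_lit 523539) (.g (nat_lit 3167) (.e (nat_lit 204863) (nat_lit 27) (.e (nat_lit 344129) (nat_lit 26) (.e (nat_lit 557103) (nat_lit 14) (.e (nat_lit 180244) (nat_lit 5) (.e (nat_lit 532503) (nat_lit 1) (.e (nat_lit 57704) (nat_lit 164) (.e (nat_lit 2515) (nat_lit 157) (.e (nat_lit 2681) (nat_lit 168) .nil)))))))) (.g (nat_lit 1) (.e (nat_lit 229687) (nat_lit 0) .nil) .nil))) 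
(.lf (nat_lit 524051) (.g (nat_lit 333) (.e (nat_lit 204868) (nat_lit 29) (.e (nat_lit 360466) (nat_lit 3) (.e (nat_lit 516115) (nat_lit 1) .nil))) (.g (nat_lit 0) (.e (nat_lit 230522) (nat_lit 0) .nil) .nil))))) (.nd (nat_lit 8) (.nd (nat_lit 9) 
(.lf (nat_lit 523411) (.g (nat_lit 3012) (.e (nat_lit 204862) (nat_lit 27) (.e (nat_lit 344133) (nat_lit 26) (.e (nat_lit 557105) (nat_lit 14) (.e (nat_lit 180252) (nat_lit 10) (.e (nat_lit 573474) (nat_lit 12) (.e (nat_lit 57507) (nat_lit 39) (.e (nat_lit 647168) (nat_lit 0) (.e (nat_lit 2685) (nat_lit 168) .nil)))))))) (.g (nat_lit 1) (.e (nat_lit 229485) (nat_lit 0) .nil) .nil))) 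
(.lf (nat_lit 523923) (.g (nat_lit 2749) (.e (nat_lit 204864) (nat_lit 27) (.e (nat_lit 344133) (nat_lit 26) (.e (nat_lit 557098) (nat_lit 13) (.e (nat_lit 172064) (nat_lit 2) (.e (nat_lit 196686) (nat_lit 18) .nil))))) (.g (nat_lit 0) (.e (nat_lit 230109) (nat_lit 0) .nil) .nil)))) (.nd (nat_lit 9) 
(.lf (nat_lit 523667) (.g (nat_lit 3481) (.e (nat_lit 204863) (nat_lit 27) (.e (nat_lit 344132) (nat_lit 26) (.e (nat_lit 557105) (nat_lit 14) (.e (nat_lit 180252) (nat_lit 10) (.e (nat_lit 573473) (nat_lit 12) (.e (nat_lit 57507) (nat_lit 39) (.e (nat_lit 647170) (nat_lit 0) (.e (nat_lit 2675) (nat_lit 168) .nil)))))))) (.g (nat_lit 1) (.e (nat_lit 229816) (nat_lit 0) .nil) .nil))) 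
(.lf (nat_lit 524179) (.g (nat_lit 2222) (.e (nat_lit 204868) (nat_lit 29) (.e (nat_lit 360473) (nat_lit 8) (.e (nat_lit 557087) (nat_lit 11) (.e (nat_lit 24662) (nat_lit 14) (.e (nat_lit 401426) (nat_lit 3) .nil))))) (.g (nat_lit 1) (.e (nat_lit 230771) (nat_lit 0) .nil) .nil)))))) (.nd (nat_lit 7) (.nd (nat_lit 8) (.nd (nat_lit 9) 
(.lf (nat_lit 523347) (.g (nat_lit 1411) (.e (nat_lit 204862) (nat_lit 27) (.e (nat_lit 344133) (nat_lit 26) (.e (nat_lit 557098) (nat_lit 13) (.e (nat_lit 179968) (nat_lit 18) .nil)))) (.g (nat_lit 0) (.e (nat_lit 229421) (nat_lit 0) .nil) .nil))) 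
(.lf (nat_lit 523859) (.g (nat_lit 2610) (.e (nat_lit 204864) (nat_lit 27) (.e (nat_lit 344130) (nat_lit 26) (.e (nat_lit 557097) (nat_lit 13) (.e (nat_lit 172133) (nat_lit 15) (.e (nat_lit 1800) (nat_lit 119) (.e (nat_lit 516119) (nat_lit 1) (.e (nat_lit 164345) (nat_lit 240) (.e (nat_lit 2427) (nat_lit 157) (.e (nat_lit 2680) (nat_lit 168) .nil))))))))) (.g (nat_lit 1) (.e (nat_lit 230045) (nat_lit 0) .nil) .nil)))) 
(.nd (nat_lit 9) 
(.lf (nat_lit 523603) (.g (nat_lit 1993) (.e (nat_lit 204863) (nat_lit 27) (.e (nat_lit 344131) (nat_lit 26) (.e (nat_lit 557100) (nat_lit 13) (.e (nat_lit 172064) (nat_lit 2) (.e (nat_lit 204544) (nat_lit 2) .nil))))) (.g (nat_lit 0) (.e (nat_lit 229751) (nat_lit 0) .nil) .nil))) 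
(.lf (nat_lit 524115) (.g (nat_lit 2298) (.e (nat_lit 204868) (nat_lit 29) (.e (nat_lit 360467) (nat_lit 3) (.e (nat_lit 516139) (nat_lit 7) (.e (nat_lit 409650) (nat_lit 19) (.e (nat_lit 311315) (nat_lit 3) .nil))))) (.g (nat_lit 0) (.e (nat_lit 230685) (nat_lit 0) .nil) .nil))))) (.nd (nat_lit 8) (.nd (nat_lit 9) 
(.lf (nat_lit 523475) (.g (nat_lit 3108) (.e (nat_lit 204863) (nat_lit 27) (.e (nat_lit 344117) (nat_lit 21) (.e (nat_lit 516116) (nat_lit 1) (.e (nat_lit 164182) (nat_lit 154) (.e (nat_lit 57379) (nat_lit 3) (.e (nat_lit 98321) (nat_lit 17) (.e (nat_lit 3771) (nat_lit 229) (.e (nat_lit 794673) (nat_lit 23) .nil)))))))) (.g (nat_lit 1) (.e (nat_lit 229588) (nat_lit 0) .nil) .nil))) 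
(.lf (nat_lit 523987) (.g (nat_lit 1565) (.e (nat_lit 204865) (nat_lit 28) (.e (nat_lit 352313) (nat_lit 23) (.e (nat_lit 98350) (nat_lit 24) (.e (nat_lit 417536) (nat_lit 18) .nil)))) (.g (nat_lit 0) (.e (nat_lit 230237) (nat_lit 0) .nil) .nil)))) (.nd (nat_lit 9) 
(.lf (nat_lit 523731) (.g (nat_lit 3159) (.e (nat_lit 204863) (nat_lit 27) (.e (nat_lit 344133) (nat_lit 26) (.e (nat_lit 557098) (nat_lit 13) (.e (nat_lit 172067) (nat_lit 3) (.e (nat_lit 204821) (nat_lit 17) (.e (nat_lit 2390) (nat_lit 156) (.e (nat_lit 819204) (nat_lit 0) (.e (nat_lit 2685) (nat_lit 168) .nil)))))))) (.g (nat_lit 1) (.e (nat_lit 229882) (nat_lit 0) .nil) .nil))) 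
(.lf (nat_lit 524243) (.g (nat_lit 1570) (.e (nat_lit 204868) (nat_lit 29) (.e (nat_lit 360473) (nat_lit 8) (.e (nat_lit 557091) (nat_lit 12) (.e (nat_lit 163849) (nat_lit 0) .nil)))) (.g (nat_lit 0) (.e (nat_lit 230841) (nat_lit 0) .nil) .nil))))))) (.nd (nat_lit 6) (.nd (nat_lit 7) (.nd (nat_lit 8) (.nd (nat_lit 9) 
(.lf (nat_lit 523315) (.g (nat_lit 2666) (.e (nat_lit 204862) (nat_lit 27) (.e (nat_lit 344132) (nat_lit 26) (.e (nat_lit 557105) (nat_lit 14) (.e (nat_lit 180252) (nat_lit 10) (.e (nat_lit 573473) (nat_lit 12) (.e (nat_lit 57506) (nat_lit 39) (.e (nat_lit 647175) (nat_lit 0) (.e (nat_lit 2684) (nat_lit 168) .nil)))))))) (.g (nat_lit 1) (.e (nat_lit 229388) (nat_lit 0) .nil) .nil))) 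
(.lf (nat_lit 523827) (.g (nat_lit 4277) (.e (nat_lit 204863) (nat_lit 27) (.e (nat_lit 344133) (nat_lit 26) (.e (nat_lit 557105) (nat_lit 14) (.e (nat_lit 180252) (nat_lit 10) (.e (nat_lit 573475) (nat_lit 12) (.e (nat_lit 57507) (nat_lit 39) (.e (nat_lit 647170) (nat_lit 0) (.e (nat_lit 2685) (nat_lit 168) .nil)))))))) (.g (nat_lit 1) (.e (nat_lit 229978) (nat_lit 0) .nil) .nil)))) 
(.nd (nat_lit 9) 
(.lf (nat_lit 523571) (.g (nat_lit 2516) (.e (nat_lit 204863) (nat_lit 27) (.e (nat_lit 344130) (nat_lit 26) (.e (nat_lit 557097) (nat_lit 13) (.e (nat_lit 172064) (nat_lit 2) (.e (nat_lit 204544) (nat_lit 2) (.e (nat_lit 32512) (nat_lit 18) .nil)))))) (.g (nat_lit 1) (.e (nat_lit 229719) (nat_lit 0) .nil) .nil))) 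
(.lf (nat_lit 524083) (.g (nat_lit 3837) (.e (nat_lit 204868) (nat_lit 29) (.e (nat_lit 360466) (nat_lit 3) (.e (nat_lit 516139) (nat_lit 7) (.e (nat_lit 409650) (nat_lit 19) (.e (nat_lit 311315) (nat_lit 3) .nil))))) (.g (nat_lit 1) (.e (nat_lit 230570) (nat_lit 0) .nil) .nil))))) (.nd (nat_lit 8) (.nd (nat_lit 9) 
(.lf (nat_lit 523443) (.g (nat_lit 1810) (.e (nat_lit 204862) (nat_lit 27) (.e (nat_lit 344160) (nat_lit 37) (.e (nat_lit 647195) (nat_lit 9) (.e (nat_lit 1302) (nat_lit 97) .nil)))) (.g (nat_lit 0) (.e (nat_lit 229525) (nat_lit 0) .nil) .nil))) 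
(.lf (nat_lit 523955) (.g (nat_lit 2988) (.e (nat_lit 204864) (nat_lit 27) (.e (nat_lit 344133) (nat_lit 26) (.e (nat_lit 557105) (nat_lit 14) (.e (nat_lit 180252) (nat_lit 10) (.e (nat_lit 573474) (nat_lit 12) (.e (nat_lit 57507) (nat_lit 39) (.e (nat_lit 655104) (nat_lit 0) (.e (nat_lit 2685) (nat_lit 168) .nil)))))))) (.g (nat_lit 1) (.e (nat_lit 230141) (nat_lit 0) .nil) .nil)))) 
(.nd (nat_lit 9) 
(.lf (nat_lit 523699) (.g (nat_lit 2851) (.e (nat_lit 204863) (nat_lit 27) (.e (nat_lit 344132) (nat_lit 26) (.e (nat_lit 557105) (nat_lit 14) (.e (nat_lit 180252) (nat_lit 10) (.e (nat_lit 573475) (nat_lit 12) (.e (nat_lit 57506) (nat_lit 39) (.e (nat_lit 647170) (nat_lit 0) (.e (nat_lit 2675) (nat_lit 168) .nil)))))))) (.g (nat_lit 1) (.e (nat_lit 229848) (nat_lit 0) .nil) .nil))) 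
(.lf (nat_lit 524211) (.g (nat_lit 2453) (.e (nat_lit 204868) (nat_lit 29) (.e (nat_lit 360473) (nat_lit 8) (.e (nat_lit 557090) (nat_lit 12) (.e (nat_lit 164020) (nat_lit 45) (.e (nat_lit 696342) (nat_lit 8) .nil))))) (.g (nat_lit 0) (.e (nat_lit 230805) (nat_lit 0) .nil) .nil)))))) (.nd (nat_lit 7) (.nd (nat_lit 8) (.nd (nat_lit 9) 
(.lf (nat_lit 523379) (.g (nat_lit 3668) (.e (nat_lit 204862) (nat_lit 27) (.e (nat_lit 344133) (nat_lit 26) (.e (nat_lit 557103) (nat_lit 14) (.e (nat_lit 180250) (nat_lit 10) (.e (nat_lit 573475) (nat_lit 12) (.e (nat_lit 57508) (nat_lit 39) (.e (nat_lit 647175) (nat_lit 0) (.e (nat_lit 2684) (nat_lit 168) .nil)))))))) (.g (nat_lit 1) (.e (nat_lit 229453) (nat_lit 0) .nil) .nil))) 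
(.lf (nat_lit 523891) (.g (nat_lit 2381) (.e (nat_lit 204864) (nat_lit 27) (.e (nat_lit 344132) (nat_lit 26) (.e (nat_lit 557101) (nat_lit 13) (.e (nat_lit 172067) (nat_lit 3) (.e (nat_lit 204815) (nat_lit 17) .nil))))) (.g (nat_lit 0) (.e (nat_lit 230077) (nat_lit 0) .nil) .nil)))) (.nd (nat_lit 9) 
(.lf (nat_lit 523635) (.g (nat_lit 2967) (.e (nat_lit 204863) (nat_lit 27) (.e (nat_lit 344131) (nat_lit 26) (.e (nat_lit 557105) (nat_lit 14) (.e (nat_lit 180252) (nat_lit 10) (.e (nat_lit 573475) (nat_lit 12) (.e (nat_lit 57508) (nat_lit 39) (.e (nat_lit 647176) (nat_lit 0) (.e (nat_lit 2681) (nat_lit 168) .nil)))))))) (.g (nat_lit 1) (.e (nat_lit 229783) (nat_lit 0) .nil) .nil))) 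
(.lf (nat_lit 524147) (.g (nat_lit 2394) (.e (nat_lit 204868) (nat_lit 29) (.e (nat_lit 360473) (nat_lit 8) (.e (nat_lit 557085) (nat_lit 11) (.e (nat_lit 24664) (nat_lit 14) (.e (nat_lit 401427) (nat_lit 3) .nil))))) (.g (nat_lit 1) (.e (nat_lit 230733) (nat_lit 0) .nil) .nil))))) (.nd (nat_lit 8) (.nd (nat_lit 9) 
(.lf (nat_lit 523507) (.g (nat_lit 3532) (.e (nat_lit 204863) (nat_lit 27) (.e (nat_lit 344117) (nat_lit 21) (.e (nat_lit 516195) (nat_lit 26) (.e (nat_lit 336027) (nat_lit 3) (.e (nat_lit 98333) (nat_lit 18) (.e (nat_lit 171776) (nat_lit 162) (.e (nat_lit 163875) (nat_lit 3) .nil))))))) (.g (nat_lit 1) (.e (nat_lit 229639) (nat_lit 0) .nil) .nil))) 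
(.lf (nat_lit 524019) (.g (nat_lit 4025) (.e (nat_lit 204866) (nat_lit 28) (.e (nat_lit 352313) (nat_lit 23) (.e (nat_lit 98350) (nat_lit 24) (.e (nat_lit 409649) (nat_lit 18) (.e (nat_lit 303119) (nat_lit 3) .nil))))) (.g (nat_lit 1) (.e (nat_lit 230379) (nat_lit 0) .nil) .nil)))) (.nd (nat_lit 9) 
(.lf (nat_lit 523763) (.g (nat_lit 2849) (.e (nat_lit 204863) (nat_lit 27) (.e (nat_lit 344133) (nat_lit 26) (.e (nat_lit 557103) (nat_lit 14) (.e (nat_lit 180250) (nat_lit 10) (.e (nat_lit 573475) (nat_lit 12) (.e (nat_lit 57509) (nat_lit 39) (.e (nat_lit 655104) (nat_lit 0) (.e (nat_lit 2684) (nat_lit 168) .nil)))))))) (.g (nat_lit 1) (.e (nat_lit 229914) (nat_lit 0) .nil) .nil))) 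
(.lf (nat_lit 524275) (.g (nat_lit 2770) (.e (nat_lit 204868) (nat_lit 29) (.e (nat_lit 360473) (nat_lit 8) (.e (nat_lit 557094) (nat_lit 12) (.e (nat_lit 164022) (nat_lit 46) (.e (nat_lit 704629) (nat_lit 9) (.e (nat_lit 433) (nat_lit 32) (.e (nat_lit 426129) (nat_lit 3) .nil))))))) (.g (nat_lit 1) (.e (nat_lit 230919) (nat_lit 0) .nil) .nil))))))))) 
(.nd (nat_lit 4) (.nd (nat_lit 5) (.nd (nat_lit 6) (.nd (nat_lit 7) (.nd (nat_lit 8) 
(.nd (nat_lit 9) 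
(.lf (nat_lit 523275) (.g (nat_lit 2505) (.e (nat_lit 204862) (nat_lit 27) (.e (nat_lit 344130) (nat_lit 26) (.e (nat_lit 557104) (nat_lit 14) (.e (nat_lit 180252) (nat_lit 10) (.e (nat_lit 573474) (nat_lit 12) (.e (nat_lit 57508) (nat_lit 39) (.e (nat_lit 647168) (nat_lit 0) (.e (nat_lit 2685) (nat_lit 168) .nil)))))))) (.g (nat_lit 1) (.e (nat_lit 229348) (nat_lit 0) .nil) .nil))) 
(.lf (nat_lit 523787) (.g (nat_lit 3782) (.e (nat_lit 204863) (nat_lit 27) (.e (nat_lit 344133) (nat_lit 26) (.e (nat_lit 557105) (nat_lit 14) (.e (nat_lit 180252) (nat_lit 10) (.e (nat_lit 573473) (nat_lit 12) (.e (nat_lit 57511) (nat_lit 39) (.e (nat_lit 647171) (nat_lit 0) (.e (nat_lit 2681) (nat_lit 168) .nil)))))))) (.g (nat_lit 1) (.e (nat_lit 229938) (nat_lit 0) .nil) .nil)))) 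
(.nd (nat_lit 9) 
(.lf (nat_lit 523531) (.g (nat_lit 1756) (.e (nat_lit 204863) (nat_lit 27) (.e (nat_lit 344129) (nat_lit 26) (.e (nat_lit 557103) (nat_lit 14) (.e (nat_lit 180225) (nat_lit 0) .nil)))) (.g (nat_lit 0) (.e (nat_lit 229679) (nat_lit 0) .nil) .nil))) 
(.lf (nat_lit 524043) (.g (nat_lit 1244) (.e (nat_lit 204868) (nat_lit 29) (.e (nat_lit 360451) (nat_lit 0) (.e (nat_lit 4009) (nat_lit 243) (.e (nat_lit 171776) (nat_lit 66) .nil)))) (.g (nat_lit 0) (.e (nat_lit 230493) (nat_lit 0) .nil) .nil))))) (.nd (nat_lit 8) (.nd (nat_lit 9) 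
(.lf (nat_lit 523403) (.g (nat_lit 3116) (.e (nat_lit 204862) (nat_lit 27) (.e (nat_lit 344133) (nat_lit 26) (.e (nat_lit 557105) (nat_lit 14) (.e (nat_lit 180252) (nat_lit 10) (.e (nat_lit 573474) (nat_lit 12) (.e (nat_lit 57347) (nat_lit 0) (.e (nat_lit 5437) (nat_lit 306) (.e (nat_lit 2450) (nat_lit 157) (.e (nat_lit 2685) (nat_lit 168) .nil))))))))) (.g (nat_lit 1) (.e (nat_lit 229477) (nat_lit 0) .nil) .nil))) 
(.lf (nat_lit 523915) (.g (nat_lit 2770) (.e (nat_lit 204864) (nat_lit 27) (.e (nat_lit 344132) (nat_lit 26) (.e (nat_lit 557105) (nat_lit 14) (.e (nat_lit 180252) (nat_lit 10) (.e (nat_lit 573475) (nat_lit 12) (.e (nat_lit 57507) (nat_lit 39) (.e (nat_lit 655104) (nat_lit 0) (.e (nat_lit 2679) (nat_lit 168) .nil)))))))) (.g (nat_lit 1) (.e (nat_lit 230101) (nat_lit 0) .nil) .nil)))) 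
(.nd (nat_lit 9) 
(.lf (nat_lit 523659) (.g (nat_lit 2538) (.e (nat_lit 204863) (nat_lit 27) (.e (nat_lit 344132) (nat_lit 26) (.e (nat_lit 557101) (nat_lit 13) (.e (nat_lit 172073) (nat_lit 5) (.e (nat_lit 245772) (nat_lit 2) (.e (nat_lit 32512) (nat_lit 18) .nil)))))) (.g (nat_lit 1) (.e (nat_lit 229808) (nat_lit 0) .nil) .nil))) 
(.lf (nat_lit 524171) (.g (nat_lit 2656) (.e (nat_lit 204868) (nat_lit 29) (.e (nat_lit 360473) (nat_lit 8) (.e (nat_lit 557087) (nat_lit 11) (.e (nat_lit 24587) (nat_lit 0) (.e (nat_lit 7936) (nat_lit 357) .nil))))) (.g (nat_lit 0) (.e (nat_lit 230762) (nat_lit 0) .nil) .nil)))))) (.nd (nat_lit 7) (.nd (nat_lit 8) (.nd (nat_lit 9) 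
(.lf (nat_lit 523339) (.g (nat_lit 4211) (.e (nat_lit 204862) (nat_lit 27) (.e (nat_lit 344133) (nat_lit 26) (.e (nat_lit 557098) (nat_lit 13) (.e (nat_lit 172067) (nat_lit 3) (.e (nat_lit 204821) (nat_lit 17) (.e (nat_lit 2391) (nat_lit 156) (.e (nat_lit 819204) (nat_lit 0) (.e (nat_lit 2685) (nat_lit 168) .nil)))))))) (.g (nat_lit 1) (.e (nat_lit 229413) (nat_lit 0) .nil) .nil))) 
(.lf (nat_lit 523851) (.g (nat_lit 386) (.e (nat_lit 204863) (nat_lit 27) (.e (nat_lit 344160) (nat_lit 37) (.e (nat_lit 647195) (nat_lit 9) .nil))) (.g (nat_lit 0) (.e (nat_lit 230024) (nat_lit 0) .nil) .nil)))) (.nd (nat_lit 9) 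
(.lf (nat_lit 523595) (.g (nat_lit 3027) (.e (nat_lit 204863) (nat_lit 27) (.e (nat_lit 344130) (nat_lit 26) (.e (nat_lit 557104) (nat_lit 14) (.e (nat_lit 180252) (nat_lit 10) (.e (nat_lit 573474) (nat_lit 12) (.e (nat_lit 57508) (nat_lit 39) (.e (nat_lit 647175) (nat_lit 0) (.e (nat_lit 2684) (nat_lit 168) .nil)))))))) (.g (nat_lit 1) (.e (nat_lit 229743) (nat_lit 0) .nil) .nil))) 
(.lf (nat_lit 524107) (.g (nat_lit 2647) (.e (nat_lit 204868) (nat_lit 29) (.e (nat_lit 360467) (nat_lit 3) (.e (nat_lit 516139) (nat_lit 7) (.e (nat_lit 409616) (nat_lit 10) (.e (nat_lit 5616) (nat_lit 312) .nil))))) (.g (nat_lit 0) (.e (nat_lit 230677) (nat_lit 0) .nil) .nil))))) (.nd (nat_lit 8) (.nd (nat_lit 9) 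
(.lf (nat_lit 523467) (.g (nat_lit 521) (.e (nat_lit 204863) (nat_lit 27) (.e (nat_lit 344117) (nat_lit 21) (.e (nat_lit 516116) (nat_lit 1) .nil))) (.g (nat_lit 0) (.e (nat_lit 229577) (nat_lit 0) .nil) .nil))) 
(.lf (nat_lit 523979) (.g (nat_lit 1338) (.e (nat_lit 204865) (nat_lit 28) (.e (nat_lit 352277) (nat_lit 11) (.e (nat_lit 426500) (nat_lit 27) (.e (nat_lit 335995) (nat_lit 1) (.e (nat_lit 57929) (nat_lit 282) .nil))))) (.g (nat_lit 0) (.e (nat_lit 230217) (nat_lit 0) .nil) .nil)))) (.nd (nat_lit 9) 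
(.lf (nat_lit 523723) (.g (nat_lit 1172) (.e (nat_lit 204863) (nat_lit 27) (.e (nat_lit 344133) (nat_lit 26) (.e (nat_lit 557096) (nat_lit 13) (.e (nat_lit 172140) (nat_lit 22) .nil)))) (.g (nat_lit 0) (.e (nat_lit 229874) (nat_lit 0) .nil) .nil))) 
(.lf (nat_lit 524235) (.g (nat_lit 1433) (.e (nat_lit 204868) (nat_lit 29) (.e (nat_lit 360473) (nat_lit 8) (.e (nat_lit 557091) (nat_lit 12) (.e (nat_lit 163844) (nat_lit 0) .nil)))) (.g (nat_lit 0) (.e (nat_lit 230832) (nat_lit 0) .nil) .nil))))))) (.nd (nat_lit 6) (.nd (nat_lit 7) (.nd (nat_lit 8) (.nd (nat_lit 9) 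
(.lf (nat_lit 523307) (.g (nat_lit 1740) (.e (nat_lit 204862) (nat_lit 27) (.e (nat_lit 344132) (nat_lit 26) (.e (nat_lit 557101) (nat_lit 13) (.e (nat_lit 172073) (nat_lit 5) (.e (nat_lit 245772) (nat_lit 2) (.e (nat_lit 32512) (nat_lit 18) .nil)))))) (.g (nat_lit 1) (.e (nat_lit 229380) (nat_lit 0) .nil) .nil))) 
(.lf (nat_lit 523819) (.g (nat_lit 4508) (.e (nat_lit 204863) (nat_lit 27) (.e (nat_lit 344133) (nat_lit 26) (.e (nat_lit 557105) (nat_lit 14) (.e (nat_lit 180252) (nat_lit 10) (.e (nat_lit 573474) (nat_lit 12) (.e (nat_lit 57511) (nat_lit 39) (.e (nat_lit 655104) (nat_lit 0) (.e (nat_lit 2684) (nat_lit 168) .nil)))))))) (.g (nat_lit 1) (.e (nat_lit 229970) (nat_lit 0) .nil) .nil)))) 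
(.nd (nat_lit 9) 
(.lf (nat_lit 523563) (.g (nat_lit 3245) (.e (nat_lit 204863) (nat_lit 27) (.e (nat_lit 344129) (nat_lit 26) (.e (nat_lit 557104) (nat_lit 14) (.e (nat_lit 180252) (nat_lit 10) (.e (nat_lit 573474) (nat_lit 12) (.e (nat_lit 57508) (nat_lit 39) (.e (nat_lit 647176) (nat_lit 0) (.e (nat_lit 2681) (nat_lit 168) .nil)))))))) (.g (nat_lit 1) (.e (nat_lit 229711) (nat_lit 0) .nil) .nil))) 
(.lf (nat_lit 524075) (.g (nat_lit 3210) (.e (nat_lit 204868) (nat_lit 29) (.e (nat_lit 360466) (nat_lit 3) (.e (nat_lit 516139) (nat_lit 7) (.e (nat_lit 409617) (nat_lit 10) (.e (nat_lit 7936) (nat_lit 312) (.e (nat_lit 2685) (nat_lit 168) .nil)))))) (.g (nat_lit 1) (.e (nat_lit 230562) (nat_lit 0) .nil) .nil))))) (.nd (nat_lit 8) (.nd (nat_lit 9) 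
(.lf (nat_lit 523435) (.g (nat_lit 2511) (.e (nat_lit 204862) (nat_lit 27) (.e (nat_lit 344133) (nat_lit 26) (.e (nat_lit 557105) (nat_lit 14) (.e (nat_lit 180248) (nat_lit 9) (.e (nat_lit 565265) (nat_lit 4) .nil))))) (.g (nat_lit 0) (.e (nat_lit 229509) (nat_lit 0) .nil) .nil))) 
(.lf (nat_lit 523947) (.g (nat_lit 3890) (.e (nat_lit 204864) (nat_lit 27) (.e (nat_lit 344133) (nat_lit 26) (.e (nat_lit 557105) (nat_lit 14) (.e (nat_lit 180252) (nat_lit 10) (.e (nat_lit 573453) (nat_lit 9) .nil))))) (.g (nat_lit 0) (.e (nat_lit 230133) (nat_lit 0) .nil) .nil)))) (.nd (nat_lit 9) 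
(.lf (nat_lit 523691) (.g (nat_lit 4377) (.e (nat_lit 204863) (nat_lit 27) (.e (nat_lit 344132) (nat_lit 26) (.e (nat_lit 557105) (nat_lit 14) (.e (nat_lit 180252) (nat_lit 10) (.e (nat_lit 573474) (nat_lit 12) (.e (nat_lit 57508) (nat_lit 39) (.e (nat_lit 647176) (nat_lit 0) (.e (nat_lit 2681) (nat_lit 168) .nil)))))))) (.g (nat_lit 1) (.e (nat_lit 229840) (nat_lit 0) .nil) .nil))) 
(.lf (nat_lit 524203) (.g (nat_lit 1010) (.e (nat_lit 204868) (nat_lit 29) (.e (nat_lit 360473) (nat_lit 8) (.e (nat_lit 557089) (nat_lit 12) (.e (nat_lit 164017) (nat_lit 44) .nil)))) (.g (nat_lit 0) (.e (nat_lit 230797) (nat_lit 0) .nil) .nil)))))) (.nd (nat_lit 7) (.nd (nat_lit 8) (.nd (nat_lit 9) 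
(.lf (nat_lit 523371) (.g (nat_lit 3539) (.e (nat_lit 204862) (nat_lit 27) (.e (nat_lit 344133) (nat_lit 26) (.e (nat_lit 557103) (nat_lit 14) (.e (nat_lit 180250) (nat_lit 10) (.e (nat_lit 573474) (nat_lit 12) (.e (nat_lit 57508) (nat_lit 39) (.e (nat_lit 647175) (nat_lit 0) (.e (nat_lit 2684) (nat_lit 168) .nil)))))))) (.g (nat_lit 1) (.e (nat_lit 229445) (nat_lit 0) .nil) .nil))) 
(.lf (nat_lit 523883) (.g (nat_lit 2888) (.e (nat_lit 204864) (nat_lit 27) (.e (nat_lit 344132) (nat_lit 26) (.e (nat_lit 557100) (nat_lit 13) (.e (nat_lit 172065) (nat_lit 3) (.e (nat_lit 204821) (nat_lit 17) (.e (nat_lit 2391) (nat_lit 156) (.e (nat_lit 819203) (nat_lit 0) (.e (nat_lit 2685) (nat_lit 168) .nil)))))))) (.g (nat_lit 1) (.e (nat_lit 230069) (nat_lit 0) .nil) .nil)))) 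
(.nd (nat_lit 9) 
(.lf (nat_lit 523627) (.g (nat_lit 2734) (.e (nat_lit 204863) (nat_lit 27) (.e (nat_lit 344131) (nat_lit 26) (.e (nat_lit 557105) (nat_lit 14) (.e (nat_lit 180252) (nat_lit 10) (.e (nat_lit 573474) (nat_lit 12) (.e (nat_lit 57507) (nat_lit 39) (.e (nat_lit 647170) (nat_lit 0) (.e (nat_lit 2675) (nat_lit 168) .nil)))))))) (.g (nat_lit 1) (.e (nat_lit 229775) (nat_lit 0) .nil) .nil))) 
(.lf (nat_lit 524139) (.g (nat_lit 2540) (.e (nat_lit 204868) (nat_lit 29) (.e (nat_lit 360473) (nat_lit 8) (.e (nat_lit 557068) (nat_lit 9) (.e (nat_lit 220) (nat_lit 20) (.e (nat_lit 327700) (nat_lit 8) (.e (nat_lit 303118) (nat_lit 3) .nil)))))) (.g (nat_lit 1) (.e (nat_lit 230720) (nat_lit 0) .nil) .nil))))) (.nd (nat_lit 8) (.nd (nat_lit 9) 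
(.lf (nat_lit 523499) (.g (nat_lit 4835) (.e (nat_lit 204863) (nat_lit 27) (.e (nat_lit 344117) (nat_lit 21) (.e (nat_lit 516130) (nat_lit 3) (.e (nat_lit 221214) (nat_lit 23) (.e (nat_lit 204830) (nat_lit 18) (.e (nat_lit 57926) (nat_lit 282) (.e (nat_lit 163875) (nat_lit 3) .nil))))))) (.g (nat_lit 1) (.e (nat_lit 229624) (nat_lit 0) .nil) .nil))) 
(.lf (nat_lit 524011) (.g (nat_lit 3492) (.e (nat_lit 204866) (nat_lit 28) (.e (nat_lit 352277) (nat_lit 11) (.e (nat_lit 426500) (nat_lit 27) (.e (nat_lit 335988) (nat_lit 1) (.e (nat_lit 57926) (nat_lit 282) (.e (nat_lit 163875) (nat_lit 3) .nil)))))) (.g (nat_lit 1) (.e (nat_lit 230330) (nat_lit 0) .nil) .nil)))) (.nd (nat_lit 9) 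
(.lf (nat_lit 523755) (.g (nat_lit 3125) (.e (nat_lit 204863) (nat_lit 27) (.e (nat_lit 344133) (nat_lit 26) (.e (nat_lit 557103) (nat_lit 14) (.e (nat_lit 180250) (nat_lit 10) (.e (nat_lit 573474) (nat_lit 12) (.e (nat_lit 57507) (nat_lit 39) (.e (nat_lit 647170) (nat_lit 0) (.e (nat_lit 2675) (nat_lit 168) .nil)))))))) (.g (nat_lit 1) (.e (nat_lit 229906) (nat_lit 0) .nil) .nil))) 
(.lf (nat_lit 524267) (.g (nat_lit 1947) (.e (nat_lit 204868) (nat_lit 29) (.e (nat_lit 360473) (nat_lit 8) (.e (nat_lit 557093) (nat_lit 12) (.e (nat_lit 164023) (nat_lit 46) (.e (nat_lit 704626) (nat_lit 9) .nil))))) (.g (nat_lit 0) (.e (nat_lit 230896) (nat_lit 0) .nil) .nil)))))))) (.nd (nat_lit 5) (.nd (nat_lit 6) (.nd (nat_lit 7) (.nd (nat_lit 8) (.nd (nat_lit 9) 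
(.lf (nat_lit 523291) (.g (nat_lit 2189) (.e (nat_lit 204862) (nat_lit 27) (.e (nat_lit 344132) (nat_lit 26) (.e (nat_lit 557100) (nat_lit 13) (.e (nat_lit 172064) (nat_lit 2) (.e (nat_lit 204544) (nat_lit 2) (.e (nat_lit 32512) (nat_lit 18) .nil)))))) (.g (nat_lit 1) (.e (nat_lit 229364) (nat_lit 0) .nil) .nil))) 
(.lf (nat_lit 523803) (.g (nat_lit 3535) (.e (nat_lit 204863) (nat_lit 27) (.e (nat_lit 344133) (nat_lit 26) (.e (nat_lit 557105) (nat_lit 14) (.e (nat_lit 180252) (nat_lit 10) (.e (nat_lit 573474) (nat_lit 12) (.e (nat_lit 57507) (nat_lit 39) (.e (nat_lit 647168) (nat_lit 0) (.e (nat_lit 2685) (nat_lit 168) .nil)))))))) (.g (nat_lit 1) (.e (nat_lit 229954) (nat_lit 0) .nil) .nil)))) 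
(.nd (nat_lit 9) 
(.lf (nat_lit 523547) (.g (nat_lit 2476) (.e (nat_lit 204863) (nat_lit 27) (.e (nat_lit 344129) (nat_lit 26) (.e (nat_lit 557103) (nat_lit 14) (.e (nat_lit 180250) (nat_lit 10) (.e (nat_lit 573477) (nat_lit 12) .nil))))) (.g (nat_lit 0) (.e (nat_lit 229695) (nat_lit 0) .nil) .nil))) 
(.lf (nat_lit 524059) (.g (nat_lit 2524) (.e (nat_lit 204868) (nat_lit 29) (.e (nat_lit 360466) (nat_lit 3) (.e (nat_lit 516138) (nat_lit 7) (.e (nat_lit 409644) (nat_lit 18) (.e (nat_lit 303118) (nat_lit 3) .nil))))) (.g (nat_lit 1) (.e (nat_lit 230546) (nat_lit 0) .nil) .nil))))) (.nd (nat_lit 8) (.nd (nat_lit 9) 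
(.lf (nat_lit 523419) (.g (nat_lit 3467) (.e (nat_lit 204862) (nat_lit 27) (.e (nat_lit 344133) (nat_lit 26) (.e (nat_lit 557105) (nat_lit 14) (.e (nat_lit 180252) (nat_lit 10) (.e (nat_lit 573474) (nat_lit 12) (.e (nat_lit 57510) (nat_lit 39) (.e (nat_lit 655104) (nat_lit 0) (.e (nat_lit 2684) (nat_lit 168) .nil)))))))) (.g (nat_lit 1) (.e (nat_lit 229493) (nat_lit 0) .nil) .nil))) 
(.lf (nat_lit 523931) (.g (nat_lit 3278) (.e (nat_lit 204864) (nat_lit 27) (.e (nat_lit 344133) (nat_lit 26) (.e (nat_lit 557098) (nat_lit 13) (.e (nat_lit 172133) (nat_lit 15) (.e (nat_lit 1800) (nat_lit 119) (.e (nat_lit 516119) (nat_lit 1) (.e (nat_lit 164345) (nat_lit 240) (.e (nat_lit 2427) (nat_lit 157) (.e (nat_lit 2678) (nat_lit 168) .nil))))))))) (.g (nat_lit 1) (.e (nat_lit 230117) (nat_lit 0) .nil) .nil)))) 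
(.nd (nat_lit 9) 
(.lf (nat_lit 523675) (.g (nat_lit 3082) (.e (nat_lit 204863) (nat_lit 27) (.e (nat_lit 344132) (nat_lit 26) (.e (nat_lit 557105) (nat_lit 14) (.e (nat_lit 180252) (nat_lit 10) (.e (nat_lit 573474) (nat_lit 12) (.e (nat_lit 57347) (nat_lit 0) (.e (nat_lit 5438) (nat_lit 306) (.e (nat_lit 2450) (nat_lit 157) (.e (nat_lit 2685) (nat_lit 168) .nil))))))))) (.g (nat_lit 1) (.e (nat_lit 229824) (nat_lit 0) .nil) .nil))) 
(.lf (nat_lit 524187) (.g (nat_lit 2445) (.e (nat_lit 204868) (nat_lit 29) (.e (nat_lit 360473) (nat_lit 8) (.e (nat_lit 557089) (nat_lit 12) (.e (nat_lit 163843) (nat_lit 0) (.e (nat_lit 6416) (nat_lit 341) (.e (nat_lit 163900) (nat_lit 12) (.e (nat_lit 426140) (nat_lit 3) .nil))))))) (.g (nat_lit 1) (.e (nat_lit 230779) (nat_lit 0) .nil) .nil)))))) 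
(.nd (nat_lit 7) (.nd (nat_lit 8) (.nd (nat_lit 9) 
(.lf (nat_lit 523355) (.g (nat_lit 2652) (.e (nat_lit 204862) (nat_lit 27) (.e (nat_lit 344133) (nat_lit 26) (.e (nat_lit 557103) (nat_lit 14) (.e (nat_lit 180244) (nat_lit 5) (.e (nat_lit 532490) (nat_lit 0) (.e (nat_lit 2391) (nat_lit 156) (.e (nat_lit 819204) (nat_lit 0) (.e (nat_lit 2685) (nat_lit 168) .nil)))))))) (.g (nat_lit 1) (.e (nat_lit 229429) (nat_lit 0) .nil) .nil))) 
(.lf (nat_lit 523867) (.g (nat_lit 2207) (.e (nat_lit 204864) (nat_lit 27) (.e (nat_lit 344130) (nat_lit 26) (.e (nat_lit 557103) (nat_lit 14) (.e (nat_lit 180250) (nat_lit 10) (.e (nat_lit 581376) (nat_lit 19) .nil))))) (.g (nat_lit 0) (.e (nat_lit 230053) (nat_lit 0) .nil) .nil)))) (.nd (nat_lit 9) 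
(.lf (nat_lit 523611) (.g (nat_lit 3466) (.e (nat_lit 204863) (nat_lit 27) (.e (nat_lit 344131) (nat_lit 26) (.e (nat_lit 557103) (nat_lit 14) (.e (nat_lit 180250) (nat_lit 10) (.e (nat_lit 573475) (nat_lit 12) (.e (nat_lit 57507) (nat_lit 39) (.e (nat_lit 655104) (nat_lit 0) (.e (nat_lit 2684) (nat_lit 168) .nil)))))))) (.g (nat_lit 1) (.e (nat_lit 229759) (nat_lit 0) .nil) .nil))) 
(.lf (nat_lit 524123) (.g (nat_lit 2105) (.e (nat_lit 204868) (nat_lit 29) (.e (nat_lit 360471) (nat_lit 7) (.e (nat_lit 548890) (nat_lit 10) (.e (nat_lit 73782) (nat_lit 32) (.e (nat_lit 2682) (nat_lit 168) .nil))))) (.g (nat_lit 1) (.e (nat_lit 230696) (nat_lit 0) .nil) .nil))))) (.nd (nat_lit 8) (.nd (nat_lit 9) 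
(.lf (nat_lit 523483) (.g (nat_lit 942) (.e (nat_lit 204863) (nat_lit 27) (.e (nat_lit 344117) (nat_lit 21) (.e (nat_lit 516123) (nat_lit 2) (.e (nat_lit 220928) (nat_lit 0) .nil)))) (.g (nat_lit 0) (.e (nat_lit 229608) (nat_lit 0) .nil) .nil))) 
(.lf (nat_lit 523995) (.g (nat_lit 3773) (.e (nat_lit 204865) (nat_lit 28) (.e (nat_lit 352315) (nat_lit 23) (.e (nat_lit 98350) (nat_lit 24) (.e (nat_lit 409649) (nat_lit 18) (.e (nat_lit 303118) (nat_lit 3) .nil))))) (.g (nat_lit 1) (.e (nat_lit 230249) (nat_lit 0) .nil) .nil)))) (.nd (nat_lit 9) 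
(.lf (nat_lit 523739) (.g (nat_lit 3815) (.e (nat_lit 204863) (nat_lit 27) (.e (nat_lit 344133) (nat_lit 26) (.e (nat_lit 557098) (nat_lit 13) (.e (nat_lit 172133) (nat_lit 15) (.e (nat_lit 1800) (nat_lit 119) (.e (nat_lit 516119) (nat_lit 1) (.e (nat_lit 164345) (nat_lit 240) (.e (nat_lit 2515) (nat_lit 157) (.e (nat_lit 2681) (nat_lit 168) .nil))))))))) (.g (nat_lit 1) (.e (nat_lit 229890) (nat_lit 0) .nil) .nil))) 
(.lf (nat_lit 524251) (.g (nat_lit 3119) (.e (nat_lit 204868) (nat_lit 29) (.e (nat_lit 360473) (nat_lit 8) (.e (nat_lit 557091) (nat_lit 12) (.e (nat_lit 164017) (nat_lit 44) (.e (nat_lit 688138) (nat_lit 5) (.e (nat_lit 2887) (nat_lit 184) (.e (nat_lit 426134) (nat_lit 3) .nil))))))) (.g (nat_lit 1) (.e (nat_lit 230851) (nat_lit 0) .nil) .nil))))))) 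
(.nd (nat_lit 6) (.nd (nat_lit 7) (.nd (nat_lit 8) (.nd (nat_lit 9) 
(.lf (nat_lit 523323) (.g (nat_lit 3040) (.e (nat_lit 204862) (nat_lit 27) (.e (nat_lit 344132) (nat_lit 26) (.e (nat_lit 557105) (nat_lit 14) (.e (nat_lit 180252) (nat_lit 10) (.e (nat_lit 573474) (nat_lit 12) (.e (nat_lit 57508) (nat_lit 39) (.e (nat_lit 647168) (nat_lit 0) (.e (nat_lit 2685) (nat_lit 168) .nil)))))))) (.g (nat_lit 1) (.e (nat_lit 229396) (nat_lit 0) .nil) .nil))) 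
(.lf (nat_lit 523835) (.g (nat_lit 4148) (.e (nat_lit 204863) (nat_lit 27) (.e (nat_lit 344133) (nat_lit 26) (.e (nat_lit 557105) (nat_lit 14) (.e (nat_lit 180252) (nat_lit 10) (.e (nat_lit 573475) (nat_lit 12) (.e (nat_lit 57508) (nat_lit 39) (.e (nat_lit 655104) (nat_lit 0) (.e (nat_lit 2684) (nat_lit 168) .nil)))))))) (.g (nat_lit 1) (.e (nat_lit 229986) (nat_lit 0) .nil) .nil)))) 
(.nd (nat_lit 9) 
(.lf (nat_lit 523579) (.g (nat_lit 3746) (.e (nat_lit 204863) (nat_lit 27) (.e (nat_lit 344130) (nat_lit 26) (.e (nat_lit 557103) (nat_lit 14) (.e (nat_lit 180250) (nat_lit 10) (.e (nat_lit 573474) (nat_lit 12) (.e (nat_lit 57507) (nat_lit 39) (.e (nat_lit 655104) (nat_lit 0) (.e (nat_lit 2684) (nat_lit 168) .nil)))))))) (.g (nat_lit 1) (.e (nat_lit 229727) (nat_lit 0) .nil) .nil))) 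
(.lf (nat_lit 524091) (.g (nat_lit 3789) (.e (nat_lit 204868) (nat_lit 29) (.e (nat_lit 360466) (nat_lit 3) (.e (nat_lit 516142) (nat_lit 8) (.e (nat_lit 417828) (nat_lit 18) (.e (nat_lit 303118) (nat_lit 3) .nil))))) (.g (nat_lit 1) (.e (nat_lit 230586) (nat_lit 0) .nil) .nil))))) (.nd (nat_lit 8) (.nd (nat_lit 9) 
(.lf (nat_lit 523451) (.g (nat_lit 4132) (.e (nat_lit 204863) (nat_lit 27) (.e (nat_lit 344117) (nat_lit 21) (.e (nat_lit 516115) (nat_lit 1) (.e (nat_lit 164177) (nat_lit 154) (.e (nat_lit 57372) (nat_lit 2) (.e (nat_lit 90128) (nat_lit 9) (.e (nat_lit 2706) (nat_lit 170) (.e (nat_lit 221214) (nat_lit 23) .nil)))))))) (.g (nat_lit 1) (.e (nat_lit 229540) (nat_lit 0) .nil) .nil))) 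
(.lf (nat_lit 523963) (.g (nat_lit 3236) (.e (nat_lit 204864) (nat_lit 27) (.e (nat_lit 344133) (nat_lit 26) (.e (nat_lit 557105) (nat_lit 14) (.e (nat_lit 180252) (nat_lit 10) (.e (nat_lit 573503) (nat_lit 18) (.e (nat_lit 7936) (nat_lit 81) (.e (nat_lit 5259) (nat_lit 298) (.e (nat_lit 174) (nat_lit 12) .nil)))))))) (.g (nat_lit 1) (.e (nat_lit 230149) (nat_lit 0) .nil) .nil)))) 
(.nd (nat_lit 9) 
(.lf (nat_lit 523707) (.g (nat_lit 3379) (.e (nat_lit 204863) (nat_lit 27) (.e (nat_lit 344132) (nat_lit 26) (.e (nat_lit 557105) (nat_lit 14) (.e (nat_lit 180252) (nat_lit 10) (.e (nat_lit 573475) (nat_lit 12) (.e (nat_lit 57508) (nat_lit 39) (.e (nat_lit 647177) (nat_lit 0) (.e (nat_lit 2682) (nat_lit 168) .nil)))))))) (.g (nat_lit 1) (.e (nat_lit 229856) (nat_lit 0) .nil) .nil))) 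
(.lf (nat_lit 524219) (.g (nat_lit 3439) (.e (nat_lit 204868) (nat_lit 29) (.e (nat_lit 360473) (nat_lit 8) (.e (nat_lit 557091) (nat_lit 12) (.e (nat_lit 163843) (nat_lit 0) (.e (nat_lit 6254) (nat_lit 337) (.e (nat_lit 2725) (nat_lit 172) (.e (nat_lit 237592) (nat_lit 3) .nil))))))) (.g (nat_lit 1) (.e (nat_lit 230814) (nat_lit 0) .nil) .nil)))))) 
(.nd (nat_lit 7) (.nd (nat_lit 8) (.nd (nat_lit 9) 
(.lf (nat_lit 523387) (.g (nat_lit 1633) (.e (nat_lit 204862) (nat_lit 27) (.e (nat_lit 344133) (nat_lit 26) (.e (nat_lit 557105) (nat_lit 14) (.e (nat_lit 188160) (nat_lit 1) .nil)))) (.g (nat_lit 0) (.e (nat_lit 229461) (nat_lit 0) .nil) .nil))) 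
(.lf (nat_lit 523899) (.g (nat_lit 3428) (.e (nat_lit 204864) (nat_lit 27) (.e (nat_lit 344132) (nat_lit 26) (.e (nat_lit 557105) (nat_lit 14) (.e (nat_lit 180252) (nat_lit 10) (.e (nat_lit 573453) (nat_lit 9) .nil))))) (.g (nat_lit 0) (.e (nat_lit 230085) (nat_lit 0) .nil) .nil)))) (.nd (nat_lit 9) 
(.lf (nat_lit 523643) (.g (nat_lit 2958) (.e (nat_lit 204863) (nat_lit 27) (.e (nat_lit 344132) (nat_lit 26) (.e (nat_lit 557100) (nat_lit 13) (.e (nat_lit 172064) (nat_lit 2) (.e (nat_lit 204544) (nat_lit 2) (.e (nat_lit 32512) (nat_lit 18) .nil)))))) (.g (nat_lit 1) (.e (nat_lit 229791) (nat_lit 0) .nil) .nil))) 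
(.lf (nat_lit 524155) (.g (nat_lit 2364) (.e (nat_lit 204868) (nat_lit 29) (.e (nat_lit 360473) (nat_lit 8) (.e (nat_lit 557086) (nat_lit 11) (.e (nat_lit 24665) (nat_lit 14) (.e (nat_lit 401427) (nat_lit 3) .nil))))) (.g (nat_lit 1) (.e (nat_lit 230742) (nat_lit 0) .nil) .nil))))) (.nd (nat_lit 8) (.nd (nat_lit 9) 
(.lf (nat_lit 523515) (.g (nat_lit 1931) (.e (nat_lit 204863) (nat_lit 27) (.e (nat_lit 344118) (nat_lit 21) (.e (nat_lit 516119) (nat_lit 1) (.e (nat_lit 164179) (nat_lit 154) (.e (nat_lit 57371) (nat_lit 2) .nil))))) (.g (nat_lit 0) (.e (nat_lit 229649) (nat_lit 0) .nil) .nil))) 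
(.lf (nat_lit 524027) (.g (nat_lit 616) (.e (nat_lit 204866) (nat_lit 28) (.e (nat_lit 352316) (nat_lit 24) (.e (nat_lit 123040) (nat_lit 140) .nil))) (.g (nat_lit 0) (.e (nat_lit 230428) (nat_lit 0) .nil) .nil)))) (.nd (nat_lit 9) 
(.lf (nat_lit 523771) (.g (nat_lit 3133) (.e (nat_lit 204863) (nat_lit 27) (.e (nat_lit 344133) (nat_lit 26) (.e (nat_lit 557105) (nat_lit 14) (.e (nat_lit 180251) (nat_lit 10) (.e (nat_lit 573473) (nat_lit 12) .nil))))) (.g (nat_lit 0) (.e (nat_lit 229922) (nat_lit 0) .nil) .nil))) 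
(.lf (nat_lit 524283) (.g (nat_lit 506) (.e (nat_lit 204868) (nat_lit 29) (.e (nat_lit 360474) (nat_lit 8) (.e (nat_lit 557093) (nat_lit 12) .nil))) (.g (nat_lit 0) (.e (nat_lit 230929) (nat_lit 0) .nil) .nil)))))))))) (.nd (nat_lit 3) (.nd (nat_lit 4) (.nd (nat_lit 5) (.nd (nat_lit 6) (.nd (nat_lit 7) (.nd (nat_lit 8) (.nd (nat_lit 9) 
(.lf (nat_lit 523271) (.g (nat_lit 3288) (.e (nat_lit 204862) (nat_lit 27) (.e (nat_lit 344130) (nat_lit 26) (.e (nat_lit 557104) (nat_lit 14) (.e (nat_lit 180252) (nat_lit 10) (.e (nat_lit 573473) (nat_lit 12) (.e (nat_lit 57511) (nat_lit 39) (.e (nat_lit 655104) (nat_lit 0) (.e (nat_lit 2684) (nat_lit 168) .nil)))))))) (.g (nat_lit 1) (.e (nat_lit 229344) (nat_lit 0) .nil) .nil))) 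
(.lf (nat_lit 523783) (.g (nat_lit 3332) (.e (nat_lit 204863) (nat_lit 27) (.e (nat_lit 344133) (nat_lit 26) (.e (nat_lit 557105) (nat_lit 14) (.e (nat_lit 180252) (nat_lit 10) (.e (nat_lit 573473) (nat_lit 12) (.e (nat_lit 57508) (nat_lit 39) (.e (nat_lit 647170) (nat_lit 0) (.e (nat_lit 2675) (nat_lit 168) .nil)))))))) (.g (nat_lit 1) (.e (nat_lit 229934) (nat_lit 0) .nil) .nil)))) 
(.nd (nat_lit 9) 
(.lf (nat_lit 523527) (.g (nat_lit 2159) (.e (nat_lit 204863) (nat_lit 27) (.e (nat_lit 344129) (nat_lit 26) (.e (nat_lit 557067) (nat_lit 9) (.e (nat_lit 2878) (nat_lit 184) .nil)))) (.g (nat_lit 0) (.e (nat_lit 229672) (nat_lit 0) .nil) .nil))) 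
(.lf (nat_lit 524039) (.g (nat_lit 1370) (.e (nat_lit 204867) (nat_lit 28) (.e (nat_lit 352315) (nat_lit 23) (.e (nat_lit 98349) (nat_lit 24) (.e (nat_lit 417536) (nat_lit 18) .nil)))) (.g (nat_lit 0) (.e (nat_lit 230469) (nat_lit 0) .nil) .nil))))) (.nd (nat_lit 8) (.nd (nat_lit 9) 
(.lf (nat_lit 523399) (.g (nat_lit 3116) (.e (nat_lit 204862) (nat_lit 27) (.e (nat_lit 344133) (nat_lit 26) (.e (nat_lit 557105) (nat_lit 14) (.e (nat_lit 180252) (nat_lit 10) (.e (nat_lit 573473) (nat_lit 12) (.e (nat_lit 57508) (nat_lit 39) (.e (nat_lit 647168) (nat_lit 0) (.e (nat_lit 2685) (nat_lit 168) .nil)))))))) (.g (nat_lit 1) (.e (nat_lit 229473) (nat_lit 0) .nil) .nil))) 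
(.lf (nat_lit 523911) (.g (nat_lit 4184) (.e (nat_lit 204864) (nat_lit 27) (.e (nat_lit 344132) (nat_lit 26) (.e (nat_lit 557105) (nat_lit 14) (.e (nat_lit 180252) (nat_lit 10) (.e (nat_lit 573474) (nat_lit 12) (.e (nat_lit 57507) (nat_lit 39) (.e (nat_lit 647170) (nat_lit 0) (.e (nat_lit 2685) (nat_lit 168) .nil)))))))) (.g (nat_lit 1) (.e (nat_lit 230097) (nat_lit 0) .nil) .nil)))) 
(.nd (nat_lit 9) 
(.lf (nat_lit 523655) (.g (nat_lit 2446) (.e (nat_lit 204863) (nat_lit 27) (.e (nat_lit 344132) (nat_lit 26) (.e (nat_lit 557101) (nat_lit 13) (.e (nat_lit 172051) (nat_lit 0) (.e (nat_lit 3289) (nat_lit 201) (.e (nat_lit 565265) (nat_lit 4) (.e (nat_lit 73472) (nat_lit 18) .nil))))))) (.g (nat_lit 1) (.e (nat_lit 229804) (nat_lit 0) .nil) .nil))) 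
(.lf (nat_lit 524167) (.g (nat_lit 2562) (.e (nat_lit 204868) (nat_lit 29) (.e (nat_lit 360473) (nat_lit 8) (.e (nat_lit 557087) (nat_lit 11) (.e (nat_lit 24582) (nat_lit 0) (.e (nat_lit 7936) (nat_lit 357) .nil))))) (.g (nat_lit 0) (.e (nat_lit 230756) (nat_lit 0) .nil) .nil)))))) (.nd (nat_lit 7) (.nd (nat_lit 8) (.nd (nat_lit 9) 
(.lf (nat_lit 523335) (.g (nat_lit 2579) (.e (nat_lit 204862) (nat_lit 27) (.e (nat_lit 344133) (nat_lit 26) (.e (nat_lit 557098) (nat_lit 13) (.e (nat_lit 172064) (nat_lit 2) (.e (nat_lit 204544) (nat_lit 2) (.e (nat_lit 32512) (nat_lit 18) .nil)))))) (.g (nat_lit 1) (.e (nat_lit 229409) (nat_lit 0) .nil) .nil))) 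
(.lf (nat_lit 523847) (.g (nat_lit 883) (.e (nat_lit 204863) (nat_lit 27) (.e (nat_lit 344169) (nat_lit 40) (.e (nat_lit 671759) (nat_lit 3) (.e (nat_lit 57479) (nat_lit 28) .nil)))) (.g (nat_lit 0) (.e (nat_lit 229999) (nat_lit 0) .nil) .nil)))) (.nd (nat_lit 9) 
(.lf (nat_lit 523591) (.g (nat_lit 2615) (.e (nat_lit 204863) (nat_lit 27) (.e (nat_lit 344130) (nat_lit 26) (.e (nat_lit 557104) (nat_lit 14) (.e (nat_lit 180252) (nat_lit 10) (.e (nat_lit 573473) (nat_lit 12) (.e (nat_lit 57511) (nat_lit 39) (.e (nat_lit 655104) (nat_lit 0) (.e (nat_lit 2684) (nat_lit 168) .nil)))))))) (.g (nat_lit 1) (.e (nat_lit 229739) (nat_lit 0) .nil) .nil))) 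
(.lf (nat_lit 524103) (.g (nat_lit 2477) (.e (nat_lit 204868) (nat_lit 29) (.e (nat_lit 360467) (nat_lit 3) (.e (nat_lit 516139) (nat_lit 7) (.e (nat_lit 409615) (nat_lit 10) .nil)))) (.g (nat_lit 0) (.e (nat_lit 230673) (nat_lit 0) .nil) .nil))))) (.nd (nat_lit 8) (.nd (nat_lit 9) 
(.lf (nat_lit 523463) (.g (nat_lit 1835) (.e (nat_lit 204863) (nat_lit 27) (.e (nat_lit 344117) (nat_lit 21) (.e (nat_lit 516115) (nat_lit 1) (.e (nat_lit 164183) (nat_lit 154) (.e (nat_lit 57373) (nat_lit 2) .nil))))) (.g (nat_lit 0) (.e (nat_lit 229563) (nat_lit 0) .nil) .nil))) 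
(.lf (nat_lit 523975) (.g (nat_lit 960) (.e (nat_lit 204865) (nat_lit 28) (.e (nat_lit 352277) (nat_lit 11) (.e (nat_lit 426500) (nat_lit 27) (.e (nat_lit 335987) (nat_lit 1) (.e (nat_lit 57925) (nat_lit 282) .nil))))) (.g (nat_lit 0) (.e (nat_lit 230208) (nat_lit 0) .nil) .nil)))) (.nd (nat_lit 9) 
(.lf (nat_lit 523719) (.g (nat_lit 2487) (.e (nat_lit 204863) (nat_lit 27) (.e (nat_lit 344132) (nat_lit 26) (.e (nat_lit 557105) (nat_lit 14) (.e (nat_lit 180252) (nat_lit 10) (.e (nat_lit 581376) (nat_lit 19) (.e (nat_lit 57883) (nat_lit 270) (.e (nat_lit 174) (nat_lit 12) .nil))))))) (.g (nat_lit 1) (.e (nat_lit 229868) (nat_lit 0) .nil) .nil))) 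
(.lf (nat_lit 524231) (.g (nat_lit 2498) (.e (nat_lit 204868) (nat_lit 29) (.e (nat_lit 360473) (nat_lit 8) (.e (nat_lit 557091) (nat_lit 12) (.e (nat_lit 163843) (nat_lit 0) (.e (nat_lit 6420) (nat_lit 341) (.e (nat_lit 163908) (nat_lit 12) (.e (nat_lit 426136) (nat_lit 3) .nil))))))) (.g (nat_lit 1) (.e (nat_lit 230828) (nat_lit 0) .nil) .nil))))))) 
(.nd (nat_lit 6) (.nd (nat_lit 7) (.nd (nat_lit 8) (.nd (nat_lit 9) 
(.lf (nat_lit 523303) (.g (nat_lit 1959) (.e (nat_lit 204862) (nat_lit 27) (.e (nat_lit 344132) (nat_lit 26) (.e (nat_lit 557101) (nat_lit 13) (.e (nat_lit 172064) (nat_lit 2) (.e (nat_lit 204544) (nat_lit 2) (.e (nat_lit 32512) (nat_lit 18) .nil)))))) (.g (nat_lit 1) (.e (nat_lit 229376) (nat_lit 0) .nil) .nil))) 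
(.lf (nat_lit 523815) (.g (nat_lit 3310) (.e (nat_lit 204863) (nat_lit 27) (.e (nat_lit 344133) (nat_lit 26) (.e (nat_lit 557105) (nat_lit 14) (.e (nat_lit 180252) (nat_lit 10) (.e (nat_lit 573474) (nat_lit 12) (.e (nat_lit 57510) (nat_lit 39) (.e (nat_lit 647172) (nat_lit 0) (.e (nat_lit 2681) (nat_lit 168) .nil)))))))) (.g (nat_lit 1) (.e (nat_lit 229966) (nat_lit 0) .nil) .nil)))) 
(.nd (nat_lit 9) 
(.lf (nat_lit 523559) (.g (nat_lit 2941) (.e (nat_lit 204863) (nat_lit 27) (.e (nat_lit 344129) (nat_lit 26) (.e (nat_lit 557104) (nat_lit 14) (.e (nat_lit 180252) (nat_lit 10) (.e (nat_lit 573474) (nat_lit 12) (.e (nat_lit 57506) (nat_lit 39) (.e (nat_lit 647176) (nat_lit 0) (.e (nat_lit 2681) (nat_lit 168) .nil)))))))) (.g (nat_lit 1) (.e (nat_lit 229707) (nat_lit 0) .nil) .nil))) 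
(.lf (nat_lit 524071) (.g (nat_lit 2557) (.e (nat_lit 204868) (nat_lit 29) (.e (nat_lit 360466) (nat_lit 3) (.e (nat_lit 516139) (nat_lit 7) (.e (nat_lit 409617) (nat_lit 10) (.e (nat_lit 5616) (nat_lit 312) .nil))))) (.g (nat_lit 0) (.e (nat_lit 230558) (nat_lit 0) .nil) .nil))))) (.nd (nat_lit 8) (.nd (nat_lit 9) 
(.lf (nat_lit 523431) (.g (nat_lit 4486) (.e (nat_lit 204862) (nat_lit 27) (.e (nat_lit 344133) (nat_lit 26) (.e (nat_lit 557105) (nat_lit 14) (.e (nat_lit 180252) (nat_lit 10) (.e (nat_lit 573475) (nat_lit 12) (.e (nat_lit 57508) (nat_lit 39) (.e (nat_lit 647175) (nat_lit 0) (.e (nat_lit 2684) (nat_lit 168) .nil)))))))) (.g (nat_lit 1) (.e (nat_lit 229505) (nat_lit 0) .nil) .nil))) 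
(.lf (nat_lit 523943) (.g (nat_lit 3902) (.e (nat_lit 204864) (nat_lit 27) (.e (nat_lit 344133) (nat_lit 26) (.e (nat_lit 557105) (nat_lit 14) (.e (nat_lit 180252) (nat_lit 10) (.e (nat_lit 573448) (nat_lit 9) .nil))))) (.g (nat_lit 0) (.e (nat_lit 230129) (nat_lit 0) .nil) .nil)))) (.nd (nat_lit 9) 
(.lf (nat_lit 523687) (.g (nat_lit 4328) (.e (nat_lit 204863) (nat_lit 27) (.e (nat_lit 344132) (nat_lit 26) (.e (nat_lit 557105) (nat_lit 14) (.e (nat_lit 180252) (nat_lit 10) (.e (nat_lit 573474) (nat_lit 12) (.e (nat_lit 57507) (nat_lit 39) (.e (nat_lit 655104) (nat_lit 0) (.e (nat_lit 2684) (nat_lit 168) .nil)))))))) (.g (nat_lit 1) (.e (nat_lit 229836) (nat_lit 0) .nil) .nil))) 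
(.lf (nat_lit 524199) (.g (nat_lit 1040) (.e (nat_lit 204868) (nat_lit 29) (.e (nat_lit 360473) (nat_lit 8) (.e (nat_lit 557089) (nat_lit 12) (.e (nat_lit 163849) (nat_lit 0) .nil)))) (.g (nat_lit 0) (.e (nat_lit 230792) (nat_lit 0) .nil) .nil)))))) (.nd (nat_lit 7) (.nd (nat_lit 8) (.nd (nat_lit 9) 
(.lf (nat_lit 523367) (.g (nat_lit 3795) (.e (nat_lit 204862) (nat_lit 27) (.e (nat_lit 344133) (nat_lit 26) (.e (nat_lit 557103) (nat_lit 14) (.e (nat_lit 180250) (nat_lit 10) (.e (nat_lit 573474) (nat_lit 12) (.e (nat_lit 57507) (nat_lit 39) (.e (nat_lit 647170) (nat_lit 0) (.e (nat_lit 2685) (nat_lit 168) .nil)))))))) (.g (nat_lit 1) (.e (nat_lit 229441) (nat_lit 0) .nil) .nil))) 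
(.lf (nat_lit 523879) (.g (nat_lit 2125) (.e (nat_lit 204864) (nat_lit 27) (.e (nat_lit 344130) (nat_lit 26) (.e (nat_lit 557104) (nat_lit 14) (.e (nat_lit 180252) (nat_lit 10) (.e (nat_lit 581376) (nat_lit 19) (.e (nat_lit 57883) (nat_lit 270) (.e (nat_lit 174) (nat_lit 12) .nil))))))) (.g (nat_lit 1) (.e (nat_lit 230065) (nat_lit 0) .nil) .nil)))) (.nd (nat_lit 9) 
(.lf (nat_lit 523623) (.g (nat_lit 3747) (.e (nat_lit 204863) (nat_lit 27) (.e (nat_lit 344131) (nat_lit 26) (.e (nat_lit 557105) (nat_lit 14) (.e (nat_lit 180252) (nat_lit 10) (.e (nat_lit 573474) (nat_lit 12) (.e (nat_lit 57505) (nat_lit 39) (.e (nat_lit 655104) (nat_lit 0) (.e (nat_lit 2684) (nat_lit 168) .nil)))))))) (.g (nat_lit 1) (.e (nat_lit 229771) (nat_lit 0) .nil) .nil))) 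
(.lf (nat_lit 524135) (.g (nat_lit 1980) (.e (nat_lit 204868) (nat_lit 29) (.e (nat_lit 360473) (nat_lit 8) (.e (nat_lit 557067) (nat_lit 9) (.e (nat_lit 249) (nat_lit 21) .nil)))) (.g (nat_lit 0) (.e (nat_lit 230714) (nat_lit 0) .nil) .nil))))) (.nd (nat_lit 8) (.nd (nat_lit 9) 
(.lf (nat_lit 523495) (.g (nat_lit 2093) (.e (nat_lit 204863) (nat_lit 27) (.e (nat_lit 344117) (nat_lit 21) (.e (nat_lit 516130) (nat_lit 3) (.e (nat_lit 221212) (nat_lit 22) (.e (nat_lit 204544) (nat_lit 19) (.e (nat_lit 57878) (nat_lit 270) (.e (nat_lit 174) (nat_lit 12) .nil))))))) (.g (nat_lit 1) (.e (nat_lit 229620) (nat_lit 0) .nil) .nil))) 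
(.lf (nat_lit 524007) (.g (nat_lit 444) (.e (nat_lit 204866) (nat_lit 28) (.e (nat_lit 352277) (nat_lit 11) (.e (nat_lit 426098) (nat_lit 1) .nil))) (.g (nat_lit 0) (.e (nat_lit 230304) (nat_lit 0) .nil) .nil)))) (.nd (nat_lit 9) 
(.lf (nat_lit 523751) (.g (nat_lit 3836) (.e (nat_lit 204863) (nat_lit 27) (.e (nat_lit 344133) (nat_lit 26) (.e (nat_lit 557103) (nat_lit 14) (.e (nat_lit 180250) (nat_lit 10) (.e (nat_lit 573473) (nat_lit 12) (.e (nat_lit 57508) (nat_lit 39) (.e (nat_lit 647175) (nat_lit 0) (.e (nat_lit 2684) (nat_lit 168) .nil)))))))) (.g (nat_lit 1) (.e (nat_lit 229902) (nat_lit 0) .nil) .nil))) 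
(.lf (nat_lit 524263) (.g (nat_lit 2634) (.e (nat_lit 204868) (nat_lit 29) (.e (nat_lit 360473) (nat_lit 8) (.e (nat_lit 557093) (nat_lit 12) (.e (nat_lit 163849) (nat_lit 0) (.e (nat_lit 6254) (nat_lit 337) (.e (nat_lit 2725) (nat_lit 172) (.e (nat_lit 237592) (nat_lit 3) .nil))))))) (.g (nat_lit 1) (.e (nat_lit 230877) (nat_lit 0) .nil) .nil)))))))) 
(.nd (nat_lit 5) (.nd (nat_lit 6) (.nd (nat_lit 7) (.nd (nat_lit 8) (.nd (nat_lit 9) 
(.lf (nat_lit 523287) (.g (nat_lit 2302) (.e (nat_lit 204862) (nat_lit 27) (.e (nat_lit 344131) (nat_lit 26) (.e (nat_lit 557105) (nat_lit 14) (.e (nat_lit 180252) (nat_lit 10) (.e (nat_lit 573474) (nat_lit 12) (.e (nat_lit 57508) (nat_lit 39) (.e (nat_lit 647175) (nat_lit 0) (.e (nat_lit 2684) (nat_lit 168) .nil)))))))) (.g (nat_lit 1) (.e (nat_lit 229360) (nat_lit 0) .nil) .nil))) 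
(.lf (nat_lit 523799) (.g (nat_lit 3281) (.e (nat_lit 204863) (nat_lit 27) (.e (nat_lit 344133) (nat_lit 26) (.e (nat_lit 557105) (nat_lit 14) (.e (nat_lit 180252) (nat_lit 10) (.e (nat_lit 573474) (nat_lit 12) (.e (nat_lit 57506) (nat_lit 39) (.e (nat_lit 647170) (nat_lit 0) (.e (nat_lit 2675) (nat_lit 168) .nil)))))))) (.g (nat_lit 1) (.e (nat_lit 229950) (nat_lit 0) .nil) .nil)))) 
(.nd (nat_lit 9) 
(.lf (nat_lit 523543) (.g (nat_lit 3698) (.e (nat_lit 204863) (nat_lit 27) (.e (nat_lit 344129) (nat_lit 26) (.e (nat_lit 557103) (nat_lit 14) (.e (nat_lit 180250) (nat_lit 10) (.e (nat_lit 573474) (nat_lit 12) (.e (nat_lit 57507) (nat_lit 39) (.e (nat_lit 647176) (nat_lit 0) (.e (nat_lit 2681) (nat_lit 168) .nil)))))))) (.g (nat_lit 1) (.e (nat_lit 229691) (nat_lit 0) .nil) .nil))) 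
(.lf (nat_lit 524055) (.g (nat_lit 3223) (.e (nat_lit 204868) (nat_lit 29) (.e (nat_lit 360466) (nat_lit 3) (.e (nat_lit 516138) (nat_lit 7) (.e (nat_lit 409618) (nat_lit 10) (.e (nat_lit 5667) (nat_lit 312) (.e (nat_lit 2679) (nat_lit 168) .nil)))))) (.g (nat_lit 1) (.e (nat_lit 230542) (nat_lit 0) .nil) .nil))))) (.nd (nat_lit 8) (.nd (nat_lit 9) 
(.lf (nat_lit 523415) (.g (nat_lit 3275) (.e (nat_lit 204862) (nat_lit 27) (.e (nat_lit 344133) (nat_lit 26) (.e (nat_lit 557105) (nat_lit 14) (.e (nat_lit 180252) (nat_lit 10) (.e (nat_lit 573474) (nat_lit 12) (.e (nat_lit 57508) (nat_lit 39) (.e (nat_lit 647176) (nat_lit 0) (.e (nat_lit 2681) (nat_lit 168) .nil)))))))) (.g (nat_lit 1) (.e (nat_lit 229489) (nat_lit 0) .nil) .nil))) 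
(.lf (nat_lit 523927) (.g (nat_lit 2107) (.e (nat_lit 204864) (nat_lit 27) (.e (nat_lit 344133) (nat_lit 26) (.e (nat_lit 557098) (nat_lit 13) (.e (nat_lit 172128) (nat_lit 15) (.e (nat_lit 7936) (nat_lit 121) .nil))))) (.g (nat_lit 0) (.e (nat_lit 230113) (nat_lit 0) .nil) .nil)))) (.nd (nat_lit 9) 
(.lf (nat_lit 523671) (.g (nat_lit 3320) (.e (nat_lit 204863) (nat_lit 27) (.e (nat_lit 344132) (nat_lit 26) (.e (nat_lit 557105) (nat_lit 14) (.e (nat_lit 180252) (nat_lit 10) (.e (nat_lit 573473) (nat_lit 12) (.e (nat_lit 57508) (nat_lit 39) (.e (nat_lit 655104) (nat_lit 0) (.e (nat_lit 2685) (nat_lit 168) .nil)))))))) (.g (nat_lit 1) (.e (nat_lit 229820) (nat_lit 0) .nil) .nil))) 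
(.lf (nat_lit 524183) (.g (nat_lit 2419) (.e (nat_lit 204868) (nat_lit 29) (.e (nat_lit 360473) (nat_lit 8) (.e (nat_lit 557089) (nat_lit 12) (.e (nat_lit 163843) (nat_lit 0) (.e (nat_lit 6254) (nat_lit 337) (.e (nat_lit 2725) (nat_lit 172) (.e (nat_lit 237592) (nat_lit 3) .nil))))))) (.g (nat_lit 1) (.e (nat_lit 230775) (nat_lit 0) .nil) .nil)))))) 
(.nd (nat_lit 7) (.nd (nat_lit 8) (.nd (nat_lit 9) 
(.lf (nat_lit 523351) (.g (nat_lit 2754) (.e (nat_lit 204862) (nat_lit 27) (.e (nat_lit 344133) (nat_lit 26) (.e (nat_lit 557103) (nat_lit 14) (.e (nat_lit 180243) (nat_lit 5) (.e (nat_lit 532501) (nat_lit 1) (.e (nat_lit 57703) (nat_lit 164) (.e (nat_lit 2422) (nat_lit 157) (.e (nat_lit 2685) (nat_lit 168) .nil)))))))) (.g (nat_lit 1) (.e (nat_lit 229425) (nat_lit 0) .nil) .nil))) 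
(.lf (nat_lit 523863) (.g (nat_lit 2363) (.e (nat_lit 204864) (nat_lit 27) (.e (nat_lit 344130) (nat_lit 26) (.e (nat_lit 557103) (nat_lit 14) (.e (nat_lit 180250) (nat_lit 10) (.e (nat_lit 573473) (nat_lit 12) (.e (nat_lit 57508) (nat_lit 39) (.e (nat_lit 647170) (nat_lit 0) (.e (nat_lit 2680) (nat_lit 168) .nil)))))))) (.g (nat_lit 1) (.e (nat_lit 230049) (nat_lit 0) .nil) .nil)))) 
(.nd (nat_lit 9) 
(.lf (nat_lit 523607) (.g (nat_lit 3236) (.e (nat_lit 204863) (nat_lit 27) (.e (nat_lit 344131) (nat_lit 26) (.e (nat_lit 557103) (nat_lit 14) (.e (nat_lit 180250) (nat_lit 10) (.e (nat_lit 573473) (nat_lit 12) (.e (nat_lit 57507) (nat_lit 39) (.e (nat_lit 655104) (nat_lit 0) (.e (nat_lit 2684) (nat_lit 168) .nil)))))))) (.g (nat_lit 1) (.e (nat_lit 229755) (nat_lit 0) .nil) .nil))) 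
(.lf (nat_lit 524119) (.g (nat_lit 3545) (.e (nat_lit 204868) (nat_lit 29) (.e (nat_lit 360468) (nat_lit 3) (.e (nat_lit 516139) (nat_lit 7) (.e (nat_lit 409623) (nat_lit 10) (.e (nat_lit 5664) (nat_lit 312) (.e (nat_lit 2679) (nat_lit 168) .nil)))))) (.g (nat_lit 1) (.e (nat_lit 230689) (nat_lit 0) .nil) .nil))))) (.nd (nat_lit 8) (.nd (nat_lit 9) 
(.lf (nat_lit 523479) (.g (nat_lit 3683) (.e (nat_lit 204863) (nat_lit 27) (.e (nat_lit 344117) (nat_lit 21) (.e (nat_lit 516116) (nat_lit 1) (.e (nat_lit 164183) (nat_lit 154) (.e (nat_lit 57378) (nat_lit 3) (.e (nat_lit 98321) (nat_lit 17) (.e (nat_lit 3771) (nat_lit 229) (.e (nat_lit 794673) (nat_lit 23) .nil)))))))) (.g (nat_lit 1) (.e (nat_lit 229604) (nat_lit 0) .nil) .nil))) 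
(.lf (nat_lit 523991) (.g (nat_lit 1435) (.e (nat_lit 204865) (nat_lit 28) (.e (nat_lit 352315) (nat_lit 23) (.e (nat_lit 98349) (nat_lit 24) (.e (nat_lit 417536) (nat_lit 18) .nil)))) (.g (nat_lit 0) (.e (nat_lit 230244) (nat_lit 0) .nil) .nil)))) (.nd (nat_lit 9) 
(.lf (nat_lit 523735) (.g (nat_lit 2933) (.e (nat_lit 204863) (nat_lit 27) (.e (nat_lit 344133) (nat_lit 26) (.e (nat_lit 557098) (nat_lit 13) (.e (nat_lit 172133) (nat_lit 15) (.e (nat_lit 1800) (nat_lit 119) (.e (nat_lit 516119) (nat_lit 1) (.e (nat_lit 164345) (nat_lit 240) (.e (nat_lit 2422) (nat_lit 157) (.e (nat_lit 2685) (nat_lit 168) .nil))))))))) (.g (nat_lit 1) (.e (nat_lit 229886) (nat_lit 0) .nil) .nil))) 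
(.lf (nat_lit 524247) (.g (nat_lit 1193) (.e (nat_lit 204868) (nat_lit 29) (.e (nat_lit 360473) (nat_lit 8) (.e (nat_lit 557091) (nat_lit 12) (.e (nat_lit 163852) (nat_lit 0) .nil)))) (.g (nat_lit 0) (.e (nat_lit 230847) (nat_lit 0) .nil) .nil))))))) (.nd (nat_lit 6) (.nd (nat_lit 7) (.nd (nat_lit 8) (.nd (nat_lit 9) 
(.lf (nat_lit 523319) (.g (nat_lit 2276) (.e (nat_lit 204862) (nat_lit 27) (.e (nat_lit 344132) (nat_lit 26) (.e (nat_lit 557105) (nat_lit 14) (.e (nat_lit 180252) (nat_lit 10) (.e (nat_lit 573473) (nat_lit 12) (.e (nat_lit 57508) (nat_lit 39) (.e (nat_lit 647176) (nat_lit 0) (.e (nat_lit 2681) (nat_lit 168) .nil)))))))) (.g (nat_lit 1) (.e (nat_lit 229392) (nat_lit 0) .nil) .nil))) 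
(.lf (nat_lit 523831) (.g (nat_lit 3592) (.e (nat_lit 204863) (nat_lit 27) (.e (nat_lit 344133) (nat_lit 26) (.e (nat_lit 557105) (nat_lit 14) (.e (nat_lit 180252) (nat_lit 10) (.e (nat_lit 573475) (nat_lit 12) (.e (nat_lit 57508) (nat_lit 39) (.e (nat_lit 647170) (nat_lit 0) (.e (nat_lit 2675) (nat_lit 168) .nil)))))))) (.g (nat_lit 1) (.e (nat_lit 229982) (nat_lit 0) .nil) .nil)))) 
(.nd (nat_lit 9) 
(.lf (nat_lit 523575) (.g (nat_lit 3118) (.e (nat_lit 204863) (nat_lit 27) (.e (nat_lit 344130) (nat_lit 26) (.e (nat_lit 557103) (nat_lit 14) (.e (nat_lit 180243) (nat_lit 5) (.e (nat_lit 532504) (nat_lit 1) (.e (nat_lit 57703) (nat_lit 164) (.e (nat_lit 2515) (nat_lit 157) (.e (nat_lit 2681) (nat_lit 168) .nil)))))))) (.g (nat_lit 1) (.e (nat_lit 229723) (nat_lit 0) .nil) .nil))) 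
(.lf (nat_lit 524087) (.g (nat_lit 3047) (.e (nat_lit 204868) (nat_lit 29) (.e (nat_lit 360466) (nat_lit 3) (.e (nat_lit 516142) (nat_lit 8) (.e (nat_lit 417817) (nat_lit 10) (.e (nat_lit 5647) (nat_lit 312) (.e (nat_lit 2679) (nat_lit 168) .nil)))))) (.g (nat_lit 1) (.e (nat_lit 230579) (nat_lit 0) .nil) .nil))))) (.nd (nat_lit 8) (.nd (nat_lit 9) 
(.lf (nat_lit 523447) (.g (nat_lit 514) (.e (nat_lit 204863) (nat_lit 27) (.e (nat_lit 344107) (nat_lit 19) (.e (nat_lit 499732) (nat_lit 0) .nil))) (.g (nat_lit 0) (.e (nat_lit 229534) (nat_lit 0) .nil) .nil))) 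
(.lf (nat_lit 523959) (.g (nat_lit 2990) (.e (nat_lit 204864) (nat_lit 27) (.e (nat_lit 344133) (nat_lit 26) (.e (nat_lit 557105) (nat_lit 14) (.e (nat_lit 180252) (nat_lit 10) (.e (nat_lit 573474) (nat_lit 12) (.e (nat_lit 57513) (nat_lit 40) (.e (nat_lit 655363) (nat_lit 0) (.e (nat_lit 2685) (nat_lit 168) .nil)))))))) (.g (nat_lit 1) (.e (nat_lit 230145) (nat_lit 0) .nil) .nil)))) 
(.nd (nat_lit 9) 
(.lf (nat_lit 523703) (.g (nat_lit 2413) (.e (nat_lit 204863) (nat_lit 27) (.e (nat_lit 344132) (nat_lit 26) (.e (nat_lit 557105) (nat_lit 14) (.e (nat_lit 180252) (nat_lit 10) (.e (nat_lit 573475) (nat_lit 12) (.e (nat_lit 57507) (nat_lit 39) (.e (nat_lit 647176) (nat_lit 0) (.e (nat_lit 2684) (nat_lit 168) .nil)))))))) (.g (nat_lit 1) (.e (nat_lit 229852) (nat_lit 0) .nil) .nil))) 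
(.lf (nat_lit 524215) (.g (nat_lit 1582) (.e (nat_lit 204868) (nat_lit 29) (.e (nat_lit 360473) (nat_lit 8) (.e (nat_lit 557091) (nat_lit 12) (.e (nat_lit 163841) (nat_lit 0) .nil)))) (.g (nat_lit 0) (.e (nat_lit 230809) (nat_lit 0) .nil) .nil)))))) (.nd (nat_lit 7) (.nd (nat_lit 8) (.nd (nat_lit 9) 
(.lf (nat_lit 523383) (.g (nat_lit 1964) (.e (nat_lit 204862) (nat_lit 27) (.e (nat_lit 344133) (nat_lit 26) (.e (nat_lit 557103) (nat_lit 14) (.e (nat_lit 180250) (nat_lit 10) (.e (nat_lit 573477) (nat_lit 12) .nil))))) (.g (nat_lit 0) (.e (nat_lit 229457) (nat_lit 0) .nil) .nil))) 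
(.lf (nat_lit 523895) (.g (nat_lit 3440) (.e (nat_lit 204864) (nat_lit 27) (.e (nat_lit 344132) (nat_lit 26) (.e (nat_lit 557105) (nat_lit 14) (.e (nat_lit 180252) (nat_lit 10) (.e (nat_lit 573448) (nat_lit 9) .nil))))) (.g (nat_lit 0) (.e (nat_lit 230081) (nat_lit 0) .nil) .nil)))) (.nd (nat_lit 9) 
(.lf (nat_lit 523639) (.g (nat_lit 2773) (.e (nat_lit 204863) (nat_lit 27) (.e (nat_lit 344131) (nat_lit 26) (.e (nat_lit 557105) (nat_lit 14) (.e (nat_lit 180252) (nat_lit 10) (.e (nat_lit 573495) (nat_lit 16) .nil))))) (.g (nat_lit 0) (.e (nat_lit 229787) (nat_lit 0) .nil) .nil))) 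
(.lf (nat_lit 524151) (.g (nat_lit 2452) (.e (nat_lit 204868) (nat_lit 29) (.e (nat_lit 360473) (nat_lit 8) (.e (nat_lit 557086) (nat_lit 11) (.e (nat_lit 24664) (nat_lit 14) (.e (nat_lit 401426) (nat_lit 3) .nil))))) (.g (nat_lit 1) (.e (nat_lit 230738) (nat_lit 0) .nil) .nil))))) (.nd (nat_lit 8) (.nd (nat_lit 9) 
(.lf (nat_lit 523511) (.g (nat_lit 3195) (.e (nat_lit 204863) (nat_lit 27) (.e (nat_lit 344118) (nat_lit 21) (.e (nat_lit 516115) (nat_lit 1) (.e (nat_lit 164179) (nat_lit 154) (.e (nat_lit 57375) (nat_lit 2) (.e (nat_lit 90128) (nat_lit 9) (.e (nat_lit 2706) (nat_lit 170) (.e (nat_lit 221215) (nat_lit 23) .nil)))))))) (.g (nat_lit 1) (.e (nat_lit 229644) (nat_lit 0) .nil) .nil))) 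
(.lf (nat_lit 524023) (.g (nat_lit 3303) (.e (nat_lit 204866) (nat_lit 28) (.e (nat_lit 352315) (nat_lit 23) (.e (nat_lit 98349) (nat_lit 24) (.e (nat_lit 409649) (nat_lit 18) (.e (nat_lit 303119) (nat_lit 3) .nil))))) (.g (nat_lit 1) (.e (nat_lit 230399) (nat_lit 0) .nil) .nil)))) (.nd (nat_lit 9) 
(.lf (nat_lit 523767) (.g (nat_lit 1667) (.e (nat_lit 204863) (nat_lit 27) (.e (nat_lit 344133) (nat_lit 26) (.e (nat_lit 557104) (nat_lit 14) (.e (nat_lit 180252) (nat_lit 10) .nil)))) (.g (nat_lit 0) (.e (nat_lit 229918) (nat_lit 0) .nil) .nil))) 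
(.lf (nat_lit 524279) (.g (nat_lit 528) (.e (nat_lit 204868) (nat_lit 29) (.e (nat_lit 360474) (nat_lit 8) (.e (nat_lit 557073) (nat_lit 9) .nil))) (.g (nat_lit 0) (.e (nat_lit 230924) (nat_lit 0) .nil) .nil))))))))) (.nd (nat_lit 4) (.nd (nat_lit 5) (.nd (nat_lit 6) (.nd (nat_lit 7) (.nd (nat_lit 8) (.nd (nat_lit 9) 
(.lf (nat_lit 523279) (.g (nat_lit 3382) (.e (nat_lit 204862) (nat_lit 27) (.e (nat_lit 344130) (nat_lit 26) (.e (nat_lit 557104) (nat_lit 14) (.e (nat_lit 180252) (nat_lit 10) (.e (nat_lit 573475) (nat_lit 12) (.e (nat_lit 57506) (nat_lit 39) (.e (nat_lit 655104) (nat_lit 0) (.e (nat_lit 2684) (nat_lit 168) .nil)))))))) (.g (nat_lit 1) (.e (nat_lit 229352) (nat_lit 0) .nil) .nil))) 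
(.lf (nat_lit 523791) (.g (nat_lit 3238) (.e (nat_lit 204863) (nat_lit 27) (.e (nat_lit 344133) (nat_lit 26) (.e (nat_lit 557105) (nat_lit 14) (.e (nat_lit 180252) (nat_lit 10) (.e (nat_lit 573474) (nat_lit 12) (.e (nat_lit 57347) (nat_lit 0) (.e (nat_lit 5444) (nat_lit 306) (.e (nat_lit 2433) (nat_lit 157) (.e (nat_lit 2685) (nat_lit 168) .nil))))))))) (.g (nat_lit 1) (.e (nat_lit 229942) (nat_lit 0) .nil) .nil)))) 
(.nd (nat_lit 9) 
(.lf (nat_lit 523535) (.g (nat_lit 3604) (.e (nat_lit 204863) (nat_lit 27) (.e (nat_lit 344129) (nat_lit 26) (.e (nat_lit 557103) (nat_lit 14) (.e (nat_lit 180243) (nat_lit 5) (.e (nat_lit 532501) (nat_lit 1) (.e (nat_lit 57703) (nat_lit 164) (.e (nat_lit 2515) (nat_lit 157) (.e (nat_lit 2681) (nat_lit 168) .nil)))))))) (.g (nat_lit 1) (.e (nat_lit 229683) (nat_lit 0) .nil) .nil))) 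
(.lf (nat_lit 524047) (.g (nat_lit 1817) (.e (nat_lit 204868) (nat_lit 29) (.e (nat_lit 360466) (nat_lit 3) (.e (nat_lit 516097) (nat_lit 0) (.e (nat_lit 7110) (nat_lit 380) (.e (nat_lit 164359) (nat_lit 246) .nil))))) (.g (nat_lit 0) (.e (nat_lit 230512) (nat_lit 0) .nil) .nil))))) (.nd (nat_lit 8) (.nd (nat_lit 9) 
(.lf (nat_lit 523407) (.g (nat_lit 2901) (.e (nat_lit 204862) (nat_lit 27) (.e (nat_lit 344133) (nat_lit 26) (.e (nat_lit 557105) (nat_lit 14) (.e (nat_lit 180252) (nat_lit 10) (.e (nat_lit 573474) (nat_lit 12) (.e (nat_lit 57348) (nat_lit 0) (.e (nat_lit 5438) (nat_lit 306) (.e (nat_lit 2433) (nat_lit 157) (.e (nat_lit 2685) (nat_lit 168) .nil))))))))) (.g (nat_lit 1) (.e (nat_lit 229481) (nat_lit 0) .nil) .nil))) 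
(.lf (nat_lit 523919) (.g (nat_lit 2422) (.e (nat_lit 204864) (nat_lit 27) (.e (nat_lit 344132) (nat_lit 26) (.e (nat_lit 557105) (nat_lit 14) (.e (nat_lit 180252) (nat_lit 10) (.e (nat_lit 581376) (nat_lit 19) .nil))))) (.g (nat_lit 0) (.e (nat_lit 230105) (nat_lit 0) .nil) .nil)))) (.nd (nat_lit 9) 
(.lf (nat_lit 523663) (.g (nat_lit 2688) (.e (nat_lit 204863) (nat_lit 27) (.e (nat_lit 344132) (nat_lit 26) (.e (nat_lit 557105) (nat_lit 14) (.e (nat_lit 180251) (nat_lit 10) (.e (nat_lit 573477) (nat_lit 12) (.e (nat_lit 57511) (nat_lit 39) (.e (nat_lit 655104) (nat_lit 0) (.e (nat_lit 2684) (nat_lit 168) .nil)))))))) (.g (nat_lit 1) (.e (nat_lit 229812) (nat_lit 0) .nil) .nil))) 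
(.lf (nat_lit 524175) (.g (nat_lit 2718) (.e (nat_lit 204868) (nat_lit 29) (.e (nat_lit 360473) (nat_lit 8) (.e (nat_lit 557087) (nat_lit 11) (.e (nat_lit 24593) (nat_lit 0) (.e (nat_lit 7936) (nat_lit 357) .nil))))) (.g (nat_lit 0) (.e (nat_lit 230766) (nat_lit 0) .nil) .nil)))))) (.nd (nat_lit 7) (.nd (nat_lit 8) (.nd (nat_lit 9) 
(.lf (nat_lit 523343) (.g (nat_lit 2257) (.e (nat_lit 204862) (nat_lit 27) (.e (nat_lit 344133) (nat_lit 26) (.e (nat_lit 557098) (nat_lit 13) (.e (nat_lit 172132) (nat_lit 15) (.e (nat_lit 7936) (nat_lit 121) .nil))))) (.g (nat_lit 0) (.e (nat_lit 229417) (nat_lit 0) .nil) .nil))) 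
(.lf (nat_lit 523855) (.g (nat_lit 1694) (.e (nat_lit 204864) (nat_lit 27) (.e (nat_lit 344117) (nat_lit 21) (.e (nat_lit 516123) (nat_lit 2) (.e (nat_lit 213033) (nat_lit 12) .nil)))) (.g (nat_lit 0) (.e (nat_lit 230041) (nat_lit 0) .nil) .nil)))) (.nd (nat_lit 9) 
(.lf (nat_lit 523599) (.g (nat_lit 2598) (.e (nat_lit 204863) (nat_lit 27) (.e (nat_lit 344131) (nat_lit 26) (.e (nat_lit 557098) (nat_lit 13) (.e (nat_lit 172064) (nat_lit 2) (.e (nat_lit 204544) (nat_lit 2) (.e (nat_lit 32512) (nat_lit 18) .nil)))))) (.g (nat_lit 1) (.e (nat_lit 229747) (nat_lit 0) .nil) .nil))) 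
(.lf (nat_lit 524111) (.g (nat_lit 1857) (.e (nat_lit 204868) (nat_lit 29) (.e (nat_lit 360467) (nat_lit 3) (.e (nat_lit 516139) (nat_lit 7) (.e (nat_lit 409617) (nat_lit 10) (.e (nat_lit 7936) (nat_lit 312) .nil))))) (.g (nat_lit 0) (.e (nat_lit 230681) (nat_lit 0) .nil) .nil))))) (.nd (nat_lit 8) (.nd (nat_lit 9) 
(.lf (nat_lit 523471) (.g (nat_lit 3806) (.e (nat_lit 204863) (nat_lit 27) (.e (nat_lit 344117) (nat_lit 21) (.e (nat_lit 516116) (nat_lit 1) (.e (nat_lit 164180) (nat_lit 154) (.e (nat_lit 57379) (nat_lit 3) (.e (nat_lit 98321) (nat_lit 17) (.e (nat_lit 3771) (nat_lit 229) (.e (nat_lit 794673) (nat_lit 23) .nil)))))))) (.g (nat_lit 1) (.e (nat_lit 229582) (nat_lit 0) .nil) .nil))) 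
(.lf (nat_lit 523983) (.g (nat_lit 2995) (.e (nat_lit 204865) (nat_lit 28) (.e (nat_lit 352277) (nat_lit 11) (.e (nat_lit 426500) (nat_lit 27) (.e (nat_lit 335996) (nat_lit 1) (.e (nat_lit 57931) (nat_lit 282) (.e (nat_lit 163873) (nat_lit 3) .nil)))))) (.g (nat_lit 1) (.e (nat_lit 230223) (nat_lit 0) .nil) .nil)))) (.nd (nat_lit 9) 
(.lf (nat_lit 523727) (.g (nat_lit 3357) (.e (nat_lit 204863) (nat_lit 27) (.e (nat_lit 344133) (nat_lit 26) (.e (nat_lit 557098) (nat_lit 13) (.e (nat_lit 172064) (nat_lit 2) (.e (nat_lit 204544) (nat_lit 2) (.e (nat_lit 32512) (nat_lit 18) .nil)))))) (.g (nat_lit 1) (.e (nat_lit 229878) (nat_lit 0) .nil) .nil))) 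
(.lf (nat_lit 524239) (.g (nat_lit 2455) (.e (nat_lit 204868) (nat_lit 29) (.e (nat_lit 360473) (nat_lit 8) (.e (nat_lit 557091) (nat_lit 12) (.e (nat_lit 163844) (nat_lit 0) (.e (nat_lit 6418) (nat_lit 341) (.e (nat_lit 163908) (nat_lit 12) (.e (nat_lit 426132) (nat_lit 3) .nil))))))) (.g (nat_lit 1) (.e (nat_lit 230836) (nat_lit 0) .nil) .nil))))))) 
(.nd (nat_lit 6) (.nd (nat_lit 7) (.nd (nat_lit 8) (.nd (nat_lit 9) 
(.lf (nat_lit 523311) (.g (nat_lit 1180) (.e (nat_lit 204862) (nat_lit 27) (.e (nat_lit 344132) (nat_lit 26) (.e (nat_lit 557105) (nat_lit 14) (.e (nat_lit 180251) (nat_lit 10) .nil)))) (.g (nat_lit 0) (.e (nat_lit 229384) (nat_lit 0) .nil) .nil))) 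
(.lf (nat_lit 523823) (.g (nat_lit 3652) (.e (nat_lit 204863) (nat_lit 27) (.e (nat_lit 344133) (nat_lit 26) (.e (nat_lit 557105) (nat_lit 14) (.e (nat_lit 180252) (nat_lit 10) (.e (nat_lit 573475) (nat_lit 12) (.e (nat_lit 57506) (nat_lit 39) (.e (nat_lit 647170) (nat_lit 0) (.e (nat_lit 2685) (nat_lit 168) .nil)))))))) (.g (nat_lit 1) (.e (nat_lit 229974) (nat_lit 0) .nil) .nil)))) 
(.nd (nat_lit 9) 
(.lf (nat_lit 523567) (.g (nat_lit 4013) (.e (nat_lit 204863) (nat_lit 27) (.e (nat_lit 344129) (nat_lit 26) (.e (nat_lit 557104) (nat_lit 14) (.e (nat_lit 180252) (nat_lit 10) (.e (nat_lit 573475) (nat_lit 12) (.e (nat_lit 57507) (nat_lit 39) (.e (nat_lit 655104) (nat_lit 0) (.e (nat_lit 2684) (nat_lit 168) .nil)))))))) (.g (nat_lit 1) (.e (nat_lit 229715) (nat_lit 0) .nil) .nil))) 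
(.lf (nat_lit 524079) (.g (nat_lit 3929) (.e (nat_lit 204868) (nat_lit 29) (.e (nat_lit 360466) (nat_lit 3) (.e (nat_lit 516139) (nat_lit 7) (.e (nat_lit 409647) (nat_lit 18) (.e (nat_lit 303118) (nat_lit 3) .nil))))) (.g (nat_lit 1) (.e (nat_lit 230566) (nat_lit 0) .nil) .nil))))) (.nd (nat_lit 8) (.nd (nat_lit 9) 
(.lf (nat_lit 523439) (.g (nat_lit 2612) (.e (nat_lit 204862) (nat_lit 27) (.e (nat_lit 344169) (nat_lit 40) (.e (nat_lit 671759) (nat_lit 3) (.e (nat_lit 57479) (nat_lit 28) (.e (nat_lit 557096) (nat_lit 13) (.e (nat_lit 172096) (nat_lit 9) (.e (nat_lit 426140) (nat_lit 3) .nil))))))) (.g (nat_lit 1) (.e (nat_lit 229513) (nat_lit 0) .nil) .nil))) 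
(.lf (nat_lit 523951) (.g (nat_lit 3052) (.e (nat_lit 204864) (nat_lit 27) (.e (nat_lit 344133) (nat_lit 26) (.e (nat_lit 557105) (nat_lit 14) (.e (nat_lit 180252) (nat_lit 10) (.e (nat_lit 573474) (nat_lit 12) (.e (nat_lit 57347) (nat_lit 0) (.e (nat_lit 5436) (nat_lit 306) (.e (nat_lit 2433) (nat_lit 157) (.e (nat_lit 2685) (nat_lit 168) .nil))))))))) (.g (nat_lit 1) (.e (nat_lit 230137) (nat_lit 0) .nil) .nil)))) 
(.nd (nat_lit 9) 
(.lf (nat_lit 523695) (.g (nat_lit 3712) (.e (nat_lit 204863) (nat_lit 27) (.e (nat_lit 344132) (nat_lit 26) (.e (nat_lit 557105) (nat_lit 14) (.e (nat_lit 180252) (nat_lit 10) (.e (nat_lit 573474) (nat_lit 12) (.e (nat_lit 57511) (nat_lit 39) (.e (nat_lit 647171) (nat_lit 0) (.e (nat_lit 2681) (nat_lit 168) .nil)))))))) (.g (nat_lit 1) (.e (nat_lit 229844) (nat_lit 0) .nil) .nil))) 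
(.lf (nat_lit 524207) (.g (nat_lit 1336) (.e (nat_lit 204868) (nat_lit 29) (.e (nat_lit 360473) (nat_lit 8) (.e (nat_lit 557089) (nat_lit 12) (.e (nat_lit 164018) (nat_lit 45) .nil)))) (.g (nat_lit 0) (.e (nat_lit 230801) (nat_lit 0) .nil) .nil)))))) (.nd (nat_lit 7) (.nd (nat_lit 8) (.nd (nat_lit 9) 
(.lf (nat_lit 523375) (.g (nat_lit 3264) (.e (nat_lit 204862) (nat_lit 27) (.e (nat_lit 344133) (nat_lit 26) (.e (nat_lit 557103) (nat_lit 14) (.e (nat_lit 180250) (nat_lit 10) (.e (nat_lit 573475) (nat_lit 12) (.e (nat_lit 57507) (nat_lit 39) (.e (nat_lit 647170) (nat_lit 0) (.e (nat_lit 2685) (nat_lit 168) .nil)))))))) (.g (nat_lit 1) (.e (nat_lit 229449) (nat_lit 0) .nil) .nil))) 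
(.lf (nat_lit 523887) (.g (nat_lit 1801) (.e (nat_lit 204864) (nat_lit 27) (.e (nat_lit 344132) (nat_lit 26) (.e (nat_lit 557100) (nat_lit 13) (.e (nat_lit 172138) (nat_lit 15) .nil)))) (.g (nat_lit 0) (.e (nat_lit 230073) (nat_lit 0) .nil) .nil)))) (.nd (nat_lit 9) 
(.lf (nat_lit 523631) (.g (nat_lit 3719) (.e (nat_lit 204863) (nat_lit 27) (.e (nat_lit 344131) (nat_lit 26) (.e (nat_lit 557105) (nat_lit 14) (.e (nat_lit 180252) (nat_lit 10) (.e (nat_lit 573474) (nat_lit 12) (.e (nat_lit 57509) (nat_lit 39) (.e (nat_lit 655104) (nat_lit 0) (.e (nat_lit 2684) (nat_lit 168) .nil)))))))) (.g (nat_lit 1) (.e (nat_lit 229779) (nat_lit 0) .nil) .nil))) 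
(.lf (nat_lit 524143) (.g (nat_lit 1052) (.e (nat_lit 204868) (nat_lit 29) (.e (nat_lit 360473) (nat_lit 8) (.e (nat_lit 557072) (nat_lit 9) (.e (nat_lit 2741) (nat_lit 174) .nil)))) (.g (nat_lit 0) (.e (nat_lit 230725) (nat_lit 0) .nil) .nil))))) (.nd (nat_lit 8) (.nd (nat_lit 9) 
(.lf (nat_lit 523503) (.g (nat_lit 4671) (.e (nat_lit 204863) (nat_lit 27) (.e (nat_lit 344117) (nat_lit 21) (.e (nat_lit 516130) (nat_lit 3) (.e (nat_lit 221215) (nat_lit 23) (.e (nat_lit 204830) (nat_lit 18) (.e (nat_lit 57926) (nat_lit 282) (.e (nat_lit 163875) (nat_lit 3) .nil))))))) (.g (nat_lit 1) (.e (nat_lit 229628) (nat_lit 0) .nil) .nil))) 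
(.lf (nat_lit 524015) (.g (nat_lit 2169) (.e (nat_lit 204866) (nat_lit 28) (.e (nat_lit 352292) (nat_lit 20) (.e (nat_lit 1788) (nat_lit 119) (.e (nat_lit 516139) (nat_lit 7) (.e (nat_lit 417536) (nat_lit 18) .nil))))) (.g (nat_lit 0) (.e (nat_lit 230347) (nat_lit 0) .nil) .nil)))) (.nd (nat_lit 9) 
(.lf (nat_lit 523759) (.g (nat_lit 4176) (.e (nat_lit 204863) (nat_lit 27) (.e (nat_lit 344133) (nat_lit 26) (.e (nat_lit 557103) (nat_lit 14) (.e (nat_lit 180250) (nat_lit 10) (.e (nat_lit 573475) (nat_lit 12) (.e (nat_lit 57507) (nat_lit 39) (.e (nat_lit 647176) (nat_lit 0) (.e (nat_lit 2681) (nat_lit 168) .nil)))))))) (.g (nat_lit 1) (.e (nat_lit 229910) (nat_lit 0) .nil) .nil))) 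
(.lf (nat_lit 524271) (.g (nat_lit 3260) (.e (nat_lit 204868) (nat_lit 29) (.e (nat_lit 360473) (nat_lit 8) (.e (nat_lit 557094) (nat_lit 12) (.e (nat_lit 163847) (nat_lit 0) (.e (nat_lit 6255) (nat_lit 337) (.e (nat_lit 2630) (nat_lit 164) (.e (nat_lit 172065) (nat_lit 3) .nil))))))) (.g (nat_lit 1) (.e (nat_lit 230903) (nat_lit 0) .nil) .nil)))))))) 
(.nd (nat_lit 5) (.nd (nat_lit 6) (.nd (nat_lit 7) (.nd (nat_lit 8) (.nd (nat_lit 9) 
(.lf (nat_lit 523295) (.g (nat_lit 3156) (.e (nat_lit 204862) (nat_lit 27) (.e (nat_lit 344132) (nat_lit 26) (.e (nat_lit 557100) (nat_lit 13) (.e (nat_lit 172065) (nat_lit 3) (.e (nat_lit 204821) (nat_lit 17) (.e (nat_lit 2390) (nat_lit 156) (.e (nat_lit 819204) (nat_lit 0) (.e (nat_lit 2685) (nat_lit 168) .nil)))))))) (.g (nat_lit 1) (.e (nat_lit 229368) (nat_lit 0) .nil) .nil))) 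
(.lf (nat_lit 523807) (.g (nat_lit 3893) (.e (nat_lit 204863) (nat_lit 27) (.e (nat_lit 344133) (nat_lit 26) (.e (nat_lit 557105) (nat_lit 14) (.e (nat_lit 180252) (nat_lit 10) (.e (nat_lit 573474) (nat_lit 12) (.e (nat_lit 57507) (nat_lit 39) (.e (nat_lit 647177) (nat_lit 0) (.e (nat_lit 2682) (nat_lit 168) .nil)))))))) (.g (nat_lit 1) (.e (nat_lit 229958) (nat_lit 0) .nil) .nil)))) 
(.nd (nat_lit 9) 
(.lf (nat_lit 523551) (.g (nat_lit 2695) (.e (nat_lit 204863) (nat_lit 27) (.e (nat_lit 344129) (nat_lit 26) (.e (nat_lit 557104) (nat_lit 14) (.e (nat_lit 188160) (nat_lit 1) (.e (nat_lit 499900) (nat_lit 7) (.e (nat_lit 32512) (nat_lit 18) .nil)))))) (.g (nat_lit 1) (.e (nat_lit 229699) (nat_lit 0) .nil) .nil))) 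
(.lf (nat_lit 524063) (.g (nat_lit 3734) (.e (nat_lit 204868) (nat_lit 29) (.e (nat_lit 360466) (nat_lit 3) (.e (nat_lit 516138) (nat_lit 7) (.e (nat_lit 409648) (nat_lit 18) (.e (nat_lit 303119) (nat_lit 3) .nil))))) (.g (nat_lit 1) (.e (nat_lit 230550) (nat_lit 0) .nil) .nil))))) (.nd (nat_lit 8) (.nd (nat_lit 9) 
(.lf (nat_lit 523423) (.g (nat_lit 3364) (.e (nat_lit 204862) (nat_lit 27) (.e (nat_lit 344133) (nat_lit 26) (.e (nat_lit 557105) (nat_lit 14) (.e (nat_lit 180252) (nat_lit 10) (.e (nat_lit 573474) (nat_lit 12) (.e (nat_lit 57513) (nat_lit 40) (.e (nat_lit 655363) (nat_lit 0) (.e (nat_lit 2685) (nat_lit 168) .nil)))))))) (.g (nat_lit 1) (.e (nat_lit 229497) (nat_lit 0) .nil) .nil))) 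
(.lf (nat_lit 523935) (.g (nat_lit 2441) (.e (nat_lit 204864) (nat_lit 27) (.e (nat_lit 344133) (nat_lit 26) (.e (nat_lit 557103) (nat_lit 14) (.e (nat_lit 180250) (nat_lit 10) (.e (nat_lit 573473) (nat_lit 12) (.e (nat_lit 57507) (nat_lit 39) (.e (nat_lit 647170) (nat_lit 0) (.e (nat_lit 2685) (nat_lit 168) .nil)))))))) (.g (nat_lit 1) (.e (nat_lit 230121) (nat_lit 0) .nil) .nil)))) 
(.nd (nat_lit 9) 
(.lf (nat_lit 523679) (.g (nat_lit 3141) (.e (nat_lit 204863) (nat_lit 27) (.e (nat_lit 344132) (nat_lit 26) (.e (nat_lit 557105) (nat_lit 14) (.e (nat_lit 180252) (nat_lit 10) (.e (nat_lit 573474) (nat_lit 12) (.e (nat_lit 57348) (nat_lit 0) (.e (nat_lit 5438) (nat_lit 306) (.e (nat_lit 2433) (nat_lit 157) (.e (nat_lit 2685) (nat_lit 168) .nil))))))))) (.g (nat_lit 1) (.e (nat_lit 229828) (nat_lit 0) .nil) .nil))) 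
(.lf (nat_lit 524191) (.g (nat_lit 2466) (.e (nat_lit 204868) (nat_lit 29) (.e (nat_lit 360473) (nat_lit 8) (.e (nat_lit 557089) (nat_lit 12) (.e (nat_lit 163843) (nat_lit 0) (.e (nat_lit 6421) (nat_lit 341) (.e (nat_lit 163911) (nat_lit 12) (.e (nat_lit 426135) (nat_lit 3) .nil))))))) (.g (nat_lit 1) (.e (nat_lit 230783) (nat_lit 0) .nil) .nil)))))) 
(.nd (nat_lit 7) (.nd (nat_lit 8) (.nd (nat_lit 9) 
(.lf (nat_lit 523359) (.g (nat_lit 2359) (.e (nat_lit 204862) (nat_lit 27) (.e (nat_lit 344133) (nat_lit 26) (.e (nat_lit 557103) (nat_lit 14) (.e (nat_lit 180250) (nat_lit 10) (.e (nat_lit 573473) (nat_lit 12) (.e (nat_lit 57506) (nat_lit 39) (.e (nat_lit 647175) (nat_lit 0) (.e (nat_lit 2684) (nat_lit 168) .nil)))))))) (.g (nat_lit 1) (.e (nat_lit 229433) (nat_lit 0) .nil) .nil))) 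
(.lf (nat_lit 523871) (.g (nat_lit 2222) (.e (nat_lit 204864) (nat_lit 27) (.e (nat_lit 344130) (nat_lit 26) (.e (nat_lit 557104) (nat_lit 14) (.e (nat_lit 180252) (nat_lit 10) (.e (nat_lit 573473) (nat_lit 12) (.e (nat_lit 57508) (nat_lit 39) (.e (nat_lit 647168) (nat_lit 0) (.e (nat_lit 2685) (nat_lit 168) .nil)))))))) (.g (nat_lit 1) (.e (nat_lit 230057) (nat_lit 0) .nil) .nil)))) 
(.nd (nat_lit 9) 
(.lf (nat_lit 523615) (.g (nat_lit 2128) (.e (nat_lit 204863) (nat_lit 27) (.e (nat_lit 344131) (nat_lit 26) (.e (nat_lit 557105) (nat_lit 14) (.e (nat_lit 180251) (nat_lit 10) (.e (nat_lit 573478) (nat_lit 12) (.e (nat_lit 57509) (nat_lit 39) (.e (nat_lit 655104) (nat_lit 0) (.e (nat_lit 2684) (nat_lit 168) .nil)))))))) (.g (nat_lit 1) (.e (nat_lit 229763) (nat_lit 0) .nil) .nil))) 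
(.lf (nat_lit 524127) (.g (nat_lit 499) (.e (nat_lit 204868) (nat_lit 29) (.e (nat_lit 360473) (nat_lit 8) (.e (nat_lit 557065) (nat_lit 9) .nil))) (.g (nat_lit 0) (.e (nat_lit 230700) (nat_lit 0) .nil) .nil))))) (.nd (nat_lit 8) (.nd (nat_lit 9) 
(.lf (nat_lit 523487) (.g (nat_lit 2170) (.e (nat_lit 204863) (nat_lit 27) (.e (nat_lit 344117) (nat_lit 21) (.e (nat_lit 516129) (nat_lit 3) (.e (nat_lit 221210) (nat_lit 22) (.e (nat_lit 196658) (nat_lit 12) .nil))))) (.g (nat_lit 0) (.e (nat_lit 229612) (nat_lit 0) .nil) .nil))) 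
(.lf (nat_lit 523999) (.g (nat_lit 688) (.e (nat_lit 204866) (nat_lit 28) (.e (nat_lit 352262) (nat_lit 0) (.e (nat_lit 3295) (nat_lit 202) (.e (nat_lit 573481) (nat_lit 13) .nil)))) (.g (nat_lit 0) (.e (nat_lit 230273) (nat_lit 0) .nil) .nil)))) (.nd (nat_lit 9) 
(.lf (nat_lit 523743) (.g (nat_lit 2870) (.e (nat_lit 204863) (nat_lit 27) (.e (nat_lit 344133) (nat_lit 26) (.e (nat_lit 557103) (nat_lit 14) (.e (nat_lit 180243) (nat_lit 5) (.e (nat_lit 532501) (nat_lit 1) (.e (nat_lit 57703) (nat_lit 164) (.e (nat_lit 2422) (nat_lit 157) (.e (nat_lit 2685) (nat_lit 168) .nil)))))))) (.g (nat_lit 1) (.e (nat_lit 229894) (nat_lit 0) .nil) .nil))) 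
(.lf (nat_lit 524255) (.g (nat_lit 3372) (.e (nat_lit 204868) (nat_lit 29) (.e (nat_lit 360473) (nat_lit 8) (.e (nat_lit 557091) (nat_lit 12) (.e (nat_lit 164018) (nat_lit 45) (.e (nat_lit 696344) (nat_lit 8) (.e (nat_lit 172065) (nat_lit 3) .nil)))))) (.g (nat_lit 1) (.e (nat_lit 230855) (nat_lit 0) .nil) .nil))))))) (.nd (nat_lit 6) (.nd (nat_lit 7) (.nd (nat_lit 8) (.nd (nat_lit 9) 
(.lf (nat_lit 523327) (.g (nat_lit 3219) (.e (nat_lit 204862) (nat_lit 27) (.e (nat_lit 344132) (nat_lit 26) (.e (nat_lit 557105) (nat_lit 14) (.e (nat_lit 180252) (nat_lit 10) (.e (nat_lit 573475) (nat_lit 12) (.e (nat_lit 57506) (nat_lit 39) (.e (nat_lit 647175) (nat_lit 0) (.e (nat_lit 2684) (nat_lit 168) .nil)))))))) (.g (nat_lit 1) (.e (nat_lit 229400) (nat_lit 0) .nil) .nil))) 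
(.lf (nat_lit 523839) (.g (nat_lit 2769) (.e (nat_lit 204863) (nat_lit 27) (.e (nat_lit 344133) (nat_lit 26) (.e (nat_lit 557105) (nat_lit 14) (.e (nat_lit 180252) (nat_lit 10) (.e (nat_lit 573503) (nat_lit 18) .nil))))) (.g (nat_lit 0) (.e (nat_lit 229990) (nat_lit 0) .nil) .nil)))) (.nd (nat_lit 9) 
(.lf (nat_lit 523583) (.g (nat_lit 2774) (.e (nat_lit 204863) (nat_lit 27) (.e (nat_lit 344130) (nat_lit 26) (.e (nat_lit 557103) (nat_lit 14) (.e (nat_lit 180250) (nat_lit 10) (.e (nat_lit 573475) (nat_lit 12) (.e (nat_lit 57508) (nat_lit 39) (.e (nat_lit 647175) (nat_lit 0) (.e (nat_lit 2684) (nat_lit 168) .nil)))))))) (.g (nat_lit 1) (.e (nat_lit 229731) (nat_lit 0) .nil) .nil))) 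
(.lf (nat_lit 524095) (.g (nat_lit 2974) (.e (nat_lit 204868) (nat_lit 29) (.e (nat_lit 360466) (nat_lit 3) (.e (nat_lit 516184) (nat_lit 16) (.e (nat_lit 491572) (nat_lit 14) (.e (nat_lit 401428) (nat_lit 3) .nil))))) (.g (nat_lit 1) (.e (nat_lit 230663) (nat_lit 0) .nil) .nil))))) (.nd (nat_lit 8) (.nd (nat_lit 9) 
(.lf (nat_lit 523455) (.g (nat_lit 3147) (.e (nat_lit 204863) (nat_lit 27) (.e (nat_lit 344117) (nat_lit 21) (.e (nat_lit 516115) (nat_lit 1) (.e (nat_lit 164179) (nat_lit 154) (.e (nat_lit 57375) (nat_lit 2) (.e (nat_lit 90128) (nat_lit 9) (.e (nat_lit 2705) (nat_lit 170) (.e (nat_lit 221214) (nat_lit 23) .nil)))))))) (.g (nat_lit 1) (.e (nat_lit 229552) (nat_lit 0) .nil) .nil))) 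
(.lf (nat_lit 523967) (.g (nat_lit 2329) (.e (nat_lit 204865) (nat_lit 28) (.e (nat_lit 352262) (nat_lit 0) (.e (nat_lit 3253) (nat_lit 197) (.e (nat_lit 532515) (nat_lit 3) (.e (nat_lit 114697) (nat_lit 11) (.e (nat_lit 426139) (nat_lit 3) .nil)))))) (.g (nat_lit 1) (.e (nat_lit 230165) (nat_lit 0) .nil) .nil)))) (.nd (nat_lit 9) 
(.lf (nat_lit 523711) (.g (nat_lit 2718) (.e (nat_lit 204863) (nat_lit 27) (.e (nat_lit 344132) (nat_lit 26) (.e (nat_lit 557105) (nat_lit 14) (.e (nat_lit 180252) (nat_lit 10) (.e (nat_lit 573503) (nat_lit 18) (.e (nat_lit 1014) (nat_lit 81) (.e (nat_lit 5260) (nat_lit 298) (.e (nat_lit 174) (nat_lit 12) .nil)))))))) (.g (nat_lit 1) (.e (nat_lit 229860) (nat_lit 0) .nil) .nil))) 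
(.lf (nat_lit 524223) (.g (nat_lit 3633) (.e (nat_lit 204868) (nat_lit 29) (.e (nat_lit 360473) (nat_lit 8) (.e (nat_lit 557091) (nat_lit 12) (.e (nat_lit 163843) (nat_lit 0) (.e (nat_lit 6255) (nat_lit 337) (.e (nat_lit 2725) (nat_lit 172) (.e (nat_lit 237592) (nat_lit 3) .nil))))))) (.g (nat_lit 1) (.e (nat_lit 230818) (nat_lit 0) .nil) .nil)))))) 
(.nd (nat_lit 7) (.nd (nat_lit 8) (.nd (nat_lit 9) 
(.lf (nat_lit 523391) (.g (nat_lit 3356) (.e (nat_lit 204862) (nat_lit 27) (.e (nat_lit 344133) (nat_lit 26) (.e (nat_lit 557105) (nat_lit 14) (.e (nat_lit 180251) (nat_lit 10) (.e (nat_lit 573473) (nat_lit 12) .nil))))) (.g (nat_lit 0) (.e (nat_lit 229465) (nat_lit 0) .nil) .nil))) 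
(.lf (nat_lit 523903) (.g (nat_lit 3457) (.e (nat_lit 204864) (nat_lit 27) (.e (nat_lit 344132) (nat_lit 26) (.e (nat_lit 557105) (nat_lit 14) (.e (nat_lit 180252) (nat_lit 10) (.e (nat_lit 573473) (nat_lit 12) (.e (nat_lit 57508) (nat_lit 39) (.e (nat_lit 647168) (nat_lit 0) (.e (nat_lit 2685) (nat_lit 168) .nil)))))))) (.g (nat_lit 1) (.e (nat_lit 230089) (nat_lit 0) .nil) .nil)))) 
(.nd (nat_lit 9) 
(.lf (nat_lit 523647) (.g (nat_lit 3377) (.e (nat_lit 204863) (nat_lit 27) (.e (nat_lit 344132) (nat_lit 26) (.e (nat_lit 557100) (nat_lit 13) (.e (nat_lit 172065) (nat_lit 3) (.e (nat_lit 204821) (nat_lit 17) (.e (nat_lit 2390) (nat_lit 156) (.e (nat_lit 819204) (nat_lit 0) (.e (nat_lit 2685) (nat_lit 168) .nil)))))))) (.g (nat_lit 1) (.e (nat_lit 229795) (nat_lit 0) .nil) .nil))) 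
(.lf (nat_lit 524159) (.g (nat_lit 2464) (.e (nat_lit 204868) (nat_lit 29) (.e (nat_lit 360473) (nat_lit 8) (.e (nat_lit 557087) (nat_lit 11) (.e (nat_lit 24576) (nat_lit 0) (.e (nat_lit 6617) (nat_lit 357) .nil))))) (.g (nat_lit 0) (.e (nat_lit 230746) (nat_lit 0) .nil) .nil))))) (.nd (nat_lit 8) (.nd (nat_lit 9) 
(.lf (nat_lit 523519) (.g (nat_lit 2869) (.e (nat_lit 204863) (nat_lit 27) (.e (nat_lit 344120) (nat_lit 21) (.e (nat_lit 516115) (nat_lit 1) (.e (nat_lit 164179) (nat_lit 154) (.e (nat_lit 57373) (nat_lit 2) (.e (nat_lit 90128) (nat_lit 9) (.e (nat_lit 2706) (nat_lit 170) (.e (nat_lit 221214) (nat_lit 23) .nil)))))))) (.g (nat_lit 1) (.e (nat_lit 229663) (nat_lit 0) .nil) .nil))) 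
(.lf (nat_lit 524031) (.g (nat_lit 772) (.e (nat_lit 204866) (nat_lit 28) (.e (nat_lit 352324) (nat_lit 26) (.e (nat_lit 147500) (nat_lit 12) .nil))) (.g (nat_lit 0) (.e (nat_lit 230447) (nat_lit 0) .nil) .nil)))) (.nd (nat_lit 9) 
(.lf (nat_lit 523775) (.g (nat_lit 3064) (.e (nat_lit 204863) (nat_lit 27) (.e (nat_lit 344133) (nat_lit 26) (.e (nat_lit 557105) (nat_lit 14) (.e (nat_lit 180251) (nat_lit 10) (.e (nat_lit 573477) (nat_lit 12) (.e (nat_lit 57511) (nat_lit 39) (.e (nat_lit 647168) (nat_lit 0) (.e (nat_lit 2685) (nat_lit 168) .nil)))))))) (.g (nat_lit 1) (.e (nat_lit 229926) (nat_lit 0) .nil) .nil))) 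
(.lf (nat_lit 524287) (.g (nat_lit 1195) (.e (nat_lit 204868) (nat_lit 29) (.e (nat_lit 360475) (nat_lit 8) (.e (nat_lit 557064) (nat_lit 9) .nil))) (.g (nat_lit 0) (.e (nat_lit 230937) (nat_lit 0) .nil) .nil)))))))))))))

noncomputable def tv5572 : DT := (.nd (nat_lit 0) (.nd (nat_lit 1) (.nd (nat_lit 2) (.nd (nat_lit 3) (.nd (nat_lit 4) (.nd (nat_lit 5) (.nd (nat_lit 6) (.nd (nat_lit 7) (.nd (nat_lit 8) (.nd (nat_lit 9) 
(.lf (nat_lit 524288) (.g (nat_lit 965) (.e (nat_lit 204868) (nat_lit 29) (.e (nat_lit 360475) (nat_lit 8) (.e (nat_lit 557065) (nat_lit 9) .nil))) (.g (nat_lit 0) (.e (nat_lit 230938) (nat_lit 0) .nil) .nil))) 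
(.lf (nat_lit 524800) (.g (nat_lit 687) (.e (nat_lit 204870) (nat_lit 29) (.e (nat_lit 360466) (nat_lit 3) (.e (nat_lit 516102) (nat_lit 0) .nil))) (.g (nat_lit 0) (.e (nat_lit 231692) (nat_lit 0) .nil) .nil)))) (.nd (nat_lit 9) 
(.lf (nat_lit 524544) (.g (nat_lit 3717) (.e (nat_lit 204869) (nat_lit 29) (.e (nat_lit 360474) (nat_lit 8) (.e (nat_lit 557091) (nat_lit 12) (.e (nat_lit 164020) (nat_lit 45) (.e (nat_lit 696327) (nat_lit 5) (.e (nat_lit 2876) (nat_lit 184) (.e (nat_lit 426136) (nat_lit 3) .nil))))))) (.g (nat_lit 1) (.e (nat_lit 231356) (nat_lit 0) .nil) .nil))) 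
(.lf (nat_lit 525056) (.g (nat_lit 2051) (.e (nat_lit 204879) (nat_lit 32) (.e (nat_lit 385066) (nat_lit 26) (.e (nat_lit 532530) (nat_lit 9) (.e (nat_lit 336326) (nat_lit 18) (.e (nat_lit 204852) (nat_lit 26) .nil))))) (.g (nat_lit 0) (.e (nat_lit 232173) (nat_lit 0) .nil) .nil))))) (.nd (nat_lit 8) (.nd (nat_lit 9) 
(.lf (nat_lit 524416) (.g (nat_lit 577) (.e (nat_lit 204869) (nat_lit 29) (.e (nat_lit 360473) (nat_lit 8) (.e (nat_lit 557093) (nat_lit 12) .nil))) (.g (nat_lit 0) (.e (nat_lit 231171) (nat_lit 0) .nil) .nil))) 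
(.lf (nat_lit 524928) (.g (nat_lit 2730) (.e (nat_lit 204876) (nat_lit 31) (.e (nat_lit 376842) (nat_lit 11) (.e (nat_lit 426408) (nat_lit 15) (.e (nat_lit 6207) (nat_lit 333) (.e (nat_lit 57883) (nat_lit 270) (.e (nat_lit 174) (nat_lit 12) .nil)))))) (.g (nat_lit 1) (.e (nat_lit 231959) (nat_lit 0) .nil) .nil)))) (.nd (nat_lit 9) 
(.lf (nat_lit 524672) (.g (nat_lit 4608) (.e (nat_lit 204869) (nat_lit 29) (.e (nat_lit 360475) (nat_lit 8) (.e (nat_lit 557085) (nat_lit 11) (.e (nat_lit 24664) (nat_lit 14) (.e (nat_lit 401427) (nat_lit 3) .nil))))) (.g (nat_lit 1) (.e (nat_lit 231505) (nat_lit 0) .nil) .nil))) 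
(.lf (nat_lit 525184) (.g (nat_lit 3555) (.e (nat_lit 204880) (nat_lit 32) (.e (nat_lit 385068) (nat_lit 26) (.e (nat_lit 532563) (nat_lit 15) (.e (nat_lit 385066) (nat_lit 26) (.e (nat_lit 532530) (nat_lit 9) (.e (nat_lit 336324) (nat_lit 18) .nil)))))) (.g (nat_lit 1) (.e (nat_lit 232381) (nat_lit 0) .nil) .nil)))))) (.nd (nat_lit 7) (.nd (nat_lit 8) (.nd (nat_lit 9) 
(.lf (nat_lit 524352) (.g (nat_lit 528) (.e (nat_lit 204869) (nat_lit 29) (.e (nat_lit 360450) (nat_lit 0) (.e (nat_lit 4157) (nat_lit 250) (.e (nat_lit 229486) (nat_lit 73) .nil)))) (.g (nat_lit 0) (.e (nat_lit 231017) (nat_lit 0) .nil) .nil))) 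
(.lf (nat_lit 524864) (.g (nat_lit 1441) (.e (nat_lit 204873) (nat_lit 30) (.e (nat_lit 368676) (nat_lit 21) (.e (nat_lit 516120) (nat_lit 1) (.e (nat_lit 164183) (nat_lit 154) .nil)))) (.g (nat_lit 0) (.e (nat_lit 231840) (nat_lit 0) .nil) .nil)))) (.nd (nat_lit 9) 
(.lf (nat_lit 524608) (.g (nat_lit 3275) (.e (nat_lit 204869) (nat_lit 29) (.e (nat_lit 360474) (nat_lit 8) (.e (nat_lit 557093) (nat_lit 12) (.e (nat_lit 164022) (nat_lit 46) (.e (nat_lit 704629) (nat_lit 9) (.e (nat_lit 388) (nat_lit 32) (.e (nat_lit 426137) (nat_lit 3) .nil))))))) (.g (nat_lit 1) (.e (nat_lit 231426) (nat_lit 0) .nil) .nil))) 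
(.lf (nat_lit 525120) (.g (nat_lit 3335) (.e (nat_lit 204880) (nat_lit 32) (.e (nat_lit 385066) (nat_lit 26) (.e (nat_lit 532534) (nat_lit 9) (.e (nat_lit 336326) (nat_lit 18) (.e (nat_lit 204852) (nat_lit 26) (.e (nat_lit 336324) (nat_lit 18) .nil)))))) (.g (nat_lit 1) (.e (nat_lit 232286) (nat_lit 0) .nil) .nil))))) (.nd (nat_lit 8) (.nd (nat_lit 9) 
(.lf (nat_lit 524480) (.g (nat_lit 4036) (.e (nat_lit 204869) (nat_lit 29) (.e (nat_lit 360474) (nat_lit 8) (.e (nat_lit 557091) (nat_lit 12) (.e (nat_lit 163841) (nat_lit 0) (.e (nat_lit 6254) (nat_lit 337) (.e (nat_lit 2725) (nat_lit 172) (.e (nat_lit 237594) (nat_lit 3) .nil))))))) (.g (nat_lit 1) (.e (nat_lit 231254) (nat_lit 0) .nil) .nil))) 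
(.lf (nat_lit 524992) (.g (nat_lit 1439) (.e (nat_lit 204877) (nat_lit 31) (.e (nat_lit 376842) (nat_lit 11) (.e (nat_lit 426408) (nat_lit 15) (.e (nat_lit 6215) (nat_lit 333) .nil)))) (.g (nat_lit 0) (.e (nat_lit 232069) (nat_lit 0) .nil) .nil)))) (.nd (nat_lit 9) 
(.lf (nat_lit 524736) (.g (nat_lit 2694) (.e (nat_lit 204869) (nat_lit 29) (.e (nat_lit 360475) (nat_lit 8) (.e (nat_lit 557090) (nat_lit 12) (.e (nat_lit 163849) (nat_lit 0) .nil)))) (.g (nat_lit 0) (.e (nat_lit 231605) (nat_lit 0) .nil) .nil))) 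
(.lf (nat_lit 525248) (.g (nat_lit 2155) (.e (nat_lit 204882) (nat_lit 32) (.e (nat_lit 385065) (nat_lit 26) (.e (nat_lit 532529) (nat_lit 9) (.e (nat_lit 336316) (nat_lit 17) (.e (nat_lit 196628) (nat_lit 9) .nil))))) (.g (nat_lit 0) (.e (nat_lit 232630) (nat_lit 0) .nil) .nil))))))) (.nd (nat_lit 6) (.nd (nat_lit 7) (.nd (nat_lit 8) (.nd (nat_lit 9) 
(.lf (nat_lit 524320) (.g (nat_lit 2054) (.e (nat_lit 204868) (nat_lit 29) (.e (nat_lit 360475) (nat_lit 8) (.e (nat_lit 557089) (nat_lit 12) (.e (nat_lit 163843) (nat_lit 0) .nil)))) (.g (nat_lit 0) (.e (nat_lit 230977) (nat_lit 0) .nil) .nil))) 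
(.lf (nat_lit 524832) (.g (nat_lit 840) (.e (nat_lit 204872) (nat_lit 30) (.e (nat_lit 368676) (nat_lit 21) (.e (nat_lit 516097) (nat_lit 0) .nil))) (.g (nat_lit 0) (.e (nat_lit 231752) (nat_lit 0) .nil) .nil)))) (.nd (nat_lit 9) 
(.lf (nat_lit 524576) (.g (nat_lit 1601) (.e (nat_lit 204869) (nat_lit 29) (.e (nat_lit 360474) (nat_lit 8) (.e (nat_lit 557091) (nat_lit 12) (.e (nat_lit 164022) (nat_lit 46) .nil)))) (.g (nat_lit 0) (.e (nat_lit 231391) (nat_lit 0) .nil) .nil))) 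
(.lf (nat_lit 525088) (.g (nat_lit 2900) (.e (nat_lit 204880) (nat_lit 32) (.e (nat_lit 385066) (nat_lit 26) (.e (nat_lit 532504) (nat_lit 1) (.e (nat_lit 57851) (nat_lit 252) (.e (nat_lit 57354) (nat_lit 0) .nil))))) (.g (nat_lit 0) (.e (nat_lit 232223) (nat_lit 0) .nil) .nil))))) (.nd (nat_lit 8) (.nd (nat_lit 9) 
(.lf (nat_lit 524448) (.g (nat_lit 4743) (.e (nat_lit 204869) (nat_lit 29) (.e (nat_lit 360474) (nat_lit 8) (.e (nat_lit 557089) (nat_lit 12) (.e (nat_lit 163843) (nat_lit 0) (.e (nat_lit 6254) (nat_lit 337) (.e (nat_lit 2725) (nat_lit 172) (.e (nat_lit 237593) (nat_lit 3) .nil))))))) (.g (nat_lit 1) (.e (nat_lit 231220) (nat_lit 0) .nil) .nil))) 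
(.lf (nat_lit 524960) (.g (nat_lit 3198) (.e (nat_lit 204877) (nat_lit 31) (.e (nat_lit 376835) (nat_lit 0) (.e (nat_lit 3304) (nat_lit 202) (.e (nat_lit 573485) (nat_lit 13) (.e (nat_lit 65628) (nat_lit 14) (.e (nat_lit 401428) (nat_lit 3) .nil)))))) (.g (nat_lit 1) (.e (nat_lit 232015) (nat_lit 0) .nil) .nil)))) (.nd (nat_lit 9) 
(.lf (nat_lit 524704) (.g (nat_lit 4511) (.e (nat_lit 204869) (nat_lit 29) (.e (nat_lit 360475) (nat_lit 8) (.e (nat_lit 557089) (nat_lit 12) (.e (nat_lit 163843) (nat_lit 0) (.e (nat_lit 6420) (nat_lit 341) (.e (nat_lit 163843) (nat_lit 0) (.e (nat_lit 7936) (nat_lit 388) (.e (nat_lit 2685) (nat_lit 168) .nil)))))))) (.g (nat_lit 1) (.e (nat_lit 231538) (nat_lit 0) .nil) .nil))) 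
(.lf (nat_lit 525216) (.g (nat_lit 2581) (.e (nat_lit 204881) (nat_lit 32) (.e (nat_lit 385066) (nat_lit 26) (.e (nat_lit 532534) (nat_lit 9) (.e (nat_lit 336324) (nat_lit 18) (.e (nat_lit 204854) (nat_lit 26) (.e (nat_lit 336326) (nat_lit 18) .nil)))))) (.g (nat_lit 1) (.e (nat_lit 232524) (nat_lit 0) .nil) .nil)))))) (.nd (nat_lit 7) (.nd (nat_lit 8) (.nd (nat_lit 9) 
(.lf (nat_lit 524384) (.g (nat_lit 2770) (.e (nat_lit 204869) (nat_lit 29) (.e (nat_lit 360472) (nat_lit 8) (.e (nat_lit 557090) (nat_lit 12) (.e (nat_lit 163843) (nat_lit 0) (.e (nat_lit 6255) (nat_lit 337) .nil))))) (.g (nat_lit 0) (.e (nat_lit 231139) (nat_lit 0) .nil) .nil))) 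
(.lf (nat_lit 524896) (.g (nat_lit 2342) (.e (nat_lit 204876) (nat_lit 31) (.e (nat_lit 376835) (nat_lit 0) (.e (nat_lit 3253) (nat_lit 197) (.e (nat_lit 532515) (nat_lit 3) (.e (nat_lit 114698) (nat_lit 11) (.e (nat_lit 426138) (nat_lit 3) .nil)))))) (.g (nat_lit 1) (.e (nat_lit 231908) (nat_lit 0) .nil) .nil)))) (.nd (nat_lit 9) 
(.lf (nat_lit 524640) (.g (nat_lit 1189) (.e (nat_lit 204869) (nat_lit 29) (.e (nat_lit 360474) (nat_lit 8) (.e (nat_lit 557110) (nat_lit 16) .nil))) (.g (nat_lit 0) (.e (nat_lit 231458) (nat_lit 0) .nil) .nil))) 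
(.lf (nat_lit 525152) (.g (nat_lit 3358) (.e (nat_lit 204880) (nat_lit 32) (.e (nat_lit 385068) (nat_lit 26) (.e (nat_lit 532501) (nat_lit 1) (.e (nat_lit 57851) (nat_lit 252) (.e (nat_lit 57347) (nat_lit 0) .nil))))) (.g (nat_lit 0) (.e (nat_lit 232335) (nat_lit 0) .nil) .nil))))) (.nd (nat_lit 8) (.nd (nat_lit 9) 
(.lf (nat_lit 524512) (.g (nat_lit 2360) (.e (nat_lit 204869) (nat_lit 29) (.e (nat_lit 360474) (nat_lit 8) (.e (nat_lit 557091) (nat_lit 12) (.e (nat_lit 163848) (nat_lit 0) .nil)))) (.g (nat_lit 0) (.e (nat_lit 231310) (nat_lit 0) .nil) .nil))) 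
(.lf (nat_lit 525024) (.g (nat_lit 1838) (.e (nat_lit 204877) (nat_lit 31) (.e (nat_lit 376865) (nat_lit 22) (.e (nat_lit 90172) (nat_lit 14) (.e (nat_lit 180229) (nat_lit 0) (.e (nat_lit 5950) (nat_lit 322) .nil))))) (.g (nat_lit 0) (.e (nat_lit 232117) (nat_lit 0) .nil) .nil)))) (.nd (nat_lit 9) 
(.lf (nat_lit 524768) (.g (nat_lit 5247) (.e (nat_lit 204869) (nat_lit 29) (.e (nat_lit 360475) (nat_lit 8) (.e (nat_lit 557091) (nat_lit 12) (.e (nat_lit 164017) (nat_lit 44) (.e (nat_lit 688138) (nat_lit 5) (.e (nat_lit 2887) (nat_lit 184) (.e (nat_lit 426134) (nat_lit 3) .nil))))))) (.g (nat_lit 1) (.e (nat_lit 231654) (nat_lit 0) .nil) .nil))) 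
(.lf (nat_lit 525280) (.g (nat_lit 3261) (.e (nat_lit 204882) (nat_lit 32) (.e (nat_lit 385066) (nat_lit 26) (.e (nat_lit 532532) (nat_lit 9) (.e (nat_lit 336324) (nat_lit 18) (.e (nat_lit 204852) (nat_lit 26) (.e (nat_lit 336326) (nat_lit 18) .nil)))))) (.g (nat_lit 1) (.e (nat_lit 232682) (nat_lit 0) .nil) .nil)))))))) 
(.nd (nat_lit 5) (.nd (nat_lit 6) (.nd (nat_lit 7) (.nd (nat_lit 8) (.nd (nat_lit 9) 
(.lf (nat_lit 524304) (.g (nat_lit 1997) (.e (nat_lit 204868) (nat_lit 29) (.e (nat_lit 360475) (nat_lit 8) (.e (nat_lit 557087) (nat_lit 11) (.e (nat_lit 24576) (nat_lit 0) .nil)))) (.g (nat_lit 0) (.e (nat_lit 230959) (nat_lit 0) .nil) .nil))) 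
(.lf (nat_lit 524816) (.g (nat_lit 325) (.e (nat_lit 204870) (nat_lit 29) (.e (nat_lit 360473) (nat_lit 8) (.e (nat_lit 557091) (nat_lit 12) .nil))) (.g (nat_lit 0) (.e (nat_lit 231716) (nat_lit 0) .nil) .nil)))) (.nd (nat_lit 9) 
(.lf (nat_lit 524560) (.g (nat_lit 5355) (.e (nat_lit 204869) (nat_lit 29) (.e (nat_lit 360474) (nat_lit 8) (.e (nat_lit 557091) (nat_lit 12) (.e (nat_lit 164020) (nat_lit 45) (.e (nat_lit 696330) (nat_lit 5) (.e (nat_lit 2868) (nat_lit 184) (.e (nat_lit 426135) (nat_lit 3) .nil))))))) (.g (nat_lit 1) (.e (nat_lit 231372) (nat_lit 0) .nil) .nil))) 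
(.lf (nat_lit 525072) (.g (nat_lit 2468) (.e (nat_lit 204879) (nat_lit 32) (.e (nat_lit 385068) (nat_lit 26) (.e (nat_lit 532530) (nat_lit 9) (.e (nat_lit 336326) (nat_lit 18) (.e (nat_lit 204854) (nat_lit 26) .nil))))) (.g (nat_lit 0) (.e (nat_lit 232189) (nat_lit 0) .nil) .nil))))) (.nd (nat_lit 8) (.nd (nat_lit 9) 
(.lf (nat_lit 524432) (.g (nat_lit 1120) (.e (nat_lit 204869) (nat_lit 29) (.e (nat_lit 360474) (nat_lit 8) (.e (nat_lit 557078) (nat_lit 9) .nil))) (.g (nat_lit 0) (.e (nat_lit 231199) (nat_lit 0) .nil) .nil))) 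
(.lf (nat_lit 524944) (.g (nat_lit 1361) (.e (nat_lit 204876) (nat_lit 31) (.e (nat_lit 376862) (nat_lit 22) (.e (nat_lit 90185) (nat_lit 17) (.e (nat_lit 237585) (nat_lit 1) (.e (nat_lit 164401) (nat_lit 256) .nil))))) (.g (nat_lit 0) (.e (nat_lit 231980) (nat_lit 0) .nil) .nil)))) (.nd (nat_lit 9) 
(.lf (nat_lit 524688) (.g (nat_lit 3907) (.e (nat_lit 204869) (nat_lit 29) (.e (nat_lit 360475) (nat_lit 8) (.e (nat_lit 557087) (nat_lit 11) (.e (nat_lit 24584) (nat_lit 0) (.e (nat_lit 6651) (nat_lit 357) (.e (nat_lit 2682) (nat_lit 168) .nil)))))) (.g (nat_lit 1) (.e (nat_lit 231521) (nat_lit 0) .nil) .nil))) 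
(.lf (nat_lit 525200) (.g (nat_lit 1931) (.e (nat_lit 204881) (nat_lit 32) (.e (nat_lit 385066) (nat_lit 26) (.e (nat_lit 532530) (nat_lit 9) (.e (nat_lit 336316) (nat_lit 17) (.e (nat_lit 196681) (nat_lit 17) (.e (nat_lit 139008) (nat_lit 18) .nil)))))) (.g (nat_lit 1) (.e (nat_lit 232504) (nat_lit 0) .nil) .nil)))))) (.nd (nat_lit 7) (.nd (nat_lit 8) (.nd (nat_lit 9) 
(.lf (nat_lit 524368) (.g (nat_lit 1753) (.e (nat_lit 204869) (nat_lit 29) (.e (nat_lit 360467) (nat_lit 3) (.e (nat_lit 516139) (nat_lit 7) (.e (nat_lit 417536) (nat_lit 18) .nil)))) (.g (nat_lit 0) (.e (nat_lit 231093) (nat_lit 0) .nil) .nil))) 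
(.lf (nat_lit 524880) (.g (nat_lit 1550) (.e (nat_lit 204875) (nat_lit 31) (.e (nat_lit 376842) (nat_lit 11) (.e (nat_lit 426098) (nat_lit 1) (.e (nat_lit 164182) (nat_lit 154) .nil)))) (.g (nat_lit 0) (.e (nat_lit 231887) (nat_lit 0) .nil) .nil)))) (.nd (nat_lit 9) 
(.lf (nat_lit 524624) (.g (nat_lit 4618) (.e (nat_lit 204869) (nat_lit 29) (.e (nat_lit 360474) (nat_lit 8) (.e (nat_lit 557094) (nat_lit 12) (.e (nat_lit 163849) (nat_lit 0) (.e (nat_lit 6420) (nat_lit 341) (.e (nat_lit 163850) (nat_lit 0) (.e (nat_lit 7936) (nat_lit 388) (.e (nat_lit 2684) (nat_lit 168) .nil)))))))) (.g (nat_lit 1) (.e (nat_lit 231442) (nat_lit 0) .nil) .nil))) 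
(.lf (nat_lit 525136) (.g (nat_lit 3094) (.e (nat_lit 204880) (nat_lit 32) (.e (nat_lit 385066) (nat_lit 26) (.e (nat_lit 532565) (nat_lit 15) (.e (nat_lit 385065) (nat_lit 26) (.e (nat_lit 532529) (nat_lit 9) (.e (nat_lit 336326) (nat_lit 18) .nil)))))) (.g (nat_lit 1) (.e (nat_lit 232313) (nat_lit 0) .nil) .nil))))) (.nd (nat_lit 8) (.nd (nat_lit 9) 
(.lf (nat_lit 524496) (.g (nat_lit 4657) (.e (nat_lit 204869) (nat_lit 29) (.e (nat_lit 360474) (nat_lit 8) (.e (nat_lit 557091) (nat_lit 12) (.e (nat_lit 163843) (nat_lit 0) (.e (nat_lit 6421) (nat_lit 341) (.e (nat_lit 171776) (nat_lit 12) (.e (nat_lit 426139) (nat_lit 3) .nil))))))) (.g (nat_lit 1) (.e (nat_lit 231291) (nat_lit 0) .nil) .nil))) 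
(.lf (nat_lit 525008) (.g (nat_lit 209) (.e (nat_lit 204877) (nat_lit 31) (.e (nat_lit 376855) (nat_lit 20) (.e (nat_lit 7936) (nat_lit 121) .nil))) (.g (nat_lit 0) (.e (nat_lit 232086) (nat_lit 0) .nil) .nil)))) (.nd (nat_lit 9) 
(.lf (nat_lit 524752) (.g (nat_lit 4416) (.e (nat_lit 204869) (nat_lit 29) (.e (nat_lit 360475) (nat_lit 8) (.e (nat_lit 557091) (nat_lit 12) (.e (nat_lit 163843) (nat_lit 0) (.e (nat_lit 6420) (nat_lit 341) (.e (nat_lit 163843) (nat_lit 0) (.e (nat_lit 7366) (nat_lit 388) (.e (nat_lit 2684) (nat_lit 168) .nil)))))))) (.g (nat_lit 1) (.e (nat_lit 231635) (nat_lit 0) .nil) .nil))) 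
(.lf (nat_lit 525264) (.g (nat_lit 2756) (.e (nat_lit 204882) (nat_lit 32) (.e (nat_lit 385066) (nat_lit 26) (.e (nat_lit 532529) (nat_lit 9) (.e (nat_lit 336324) (nat_lit 18) (.e (nat_lit 204854) (nat_lit 26) (.e (nat_lit 336324) (nat_lit 18) .nil)))))) (.g (nat_lit 1) (.e (nat_lit 232666) (nat_lit 0) .nil) .nil))))))) (.nd (nat_lit 6) (.nd (nat_lit 7) (.nd (nat_lit 8) (.nd (nat_lit 9) 
(.lf (nat_lit 524336) (.g (nat_lit 2162) (.e (nat_lit 204868) (nat_lit 29) (.e (nat_lit 360475) (nat_lit 8) (.e (nat_lit 557091) (nat_lit 12) (.e (nat_lit 163841) (nat_lit 0) .nil)))) (.g (nat_lit 0) (.e (nat_lit 230994) (nat_lit 0) .nil) .nil))) 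
(.lf (nat_lit 524848) (.g (nat_lit 1421) (.e (nat_lit 204872) (nat_lit 30) (.e (nat_lit 368676) (nat_lit 21) (.e (nat_lit 516131) (nat_lit 3) (.e (nat_lit 221212) (nat_lit 22) (.e (nat_lit 196632) (nat_lit 9) .nil))))) (.g (nat_lit 0) (.e (nat_lit 231792) (nat_lit 0) .nil) .nil)))) (.nd (nat_lit 9) 
(.lf (nat_lit 524592) (.g (nat_lit 253) (.e (nat_lit 204869) (nat_lit 29) (.e (nat_lit 360474) (nat_lit 8) (.e (nat_lit 557093) (nat_lit 12) .nil))) (.g (nat_lit 0) (.e (nat_lit 231409) (nat_lit 0) .nil) .nil))) 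
(.lf (nat_lit 525104) (.g (nat_lit 397) (.e (nat_lit 204880) (nat_lit 32) (.e (nat_lit 385066) (nat_lit 26) (.e (nat_lit 532532) (nat_lit 9) .nil))) (.g (nat_lit 0) (.e (nat_lit 232244) (nat_lit 0) .nil) .nil))))) (.nd (nat_lit 8) (.nd (nat_lit 9) 
(.lf (nat_lit 524464) (.g (nat_lit 3108) (.e (nat_lit 204869) (nat_lit 29) (.e (nat_lit 360474) (nat_lit 8) (.e (nat_lit 557089) (nat_lit 12) (.e (nat_lit 163850) (nat_lit 0) (.e (nat_lit 6428) (nat_lit 342) (.e (nat_lit 229406) (nat_lit 12) (.e (nat_lit 426137) (nat_lit 3) .nil))))))) (.g (nat_lit 1) (.e (nat_lit 231238) (nat_lit 0) .nil) .nil))) 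
(.lf (nat_lit 524976) (.g (nat_lit 1563) (.e (nat_lit 204877) (nat_lit 31) (.e (nat_lit 376842) (nat_lit 11) (.e (nat_lit 426099) (nat_lit 1) (.e (nat_lit 164183) (nat_lit 154) (.e (nat_lit 57409) (nat_lit 12) .nil))))) (.g (nat_lit 0) (.e (nat_lit 232050) (nat_lit 0) .nil) .nil)))) (.nd (nat_lit 9) 
(.lf (nat_lit 524720) (.g (nat_lit 448) (.e (nat_lit 204869) (nat_lit 29) (.e (nat_lit 360475) (nat_lit 8) (.e (nat_lit 557090) (nat_lit 12) .nil))) (.g (nat_lit 0) (.e (nat_lit 231556) (nat_lit 0) .nil) .nil))) 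
(.lf (nat_lit 525232) (.g (nat_lit 1685) (.e (nat_lit 204881) (nat_lit 32) (.e (nat_lit 385068) (nat_lit 26) (.e (nat_lit 532504) (nat_lit 1) (.e (nat_lit 57854) (nat_lit 252) .nil)))) (.g (nat_lit 0) (.e (nat_lit 232542) (nat_lit 0) .nil) .nil)))))) (.nd (nat_lit 7) (.nd (nat_lit 8) (.nd (nat_lit 9) 
(.lf (nat_lit 524400) (.g (nat_lit 2214) (.e (nat_lit 204869) (nat_lit 29) (.e (nat_lit 360473) (nat_lit 8) (.e (nat_lit 557087) (nat_lit 11) (.e (nat_lit 24663) (nat_lit 14) (.e (nat_lit 401426) (nat_lit 3) .nil))))) (.g (nat_lit 0) (.e (nat_lit 231155) (nat_lit 0) .nil) .nil))) 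
(.lf (nat_lit 524912) (.g (nat_lit 549) (.e (nat_lit 204876) (nat_lit 31) (.e (nat_lit 376842) (nat_lit 11) (.e (nat_lit 426099) (nat_lit 1) .nil))) (.g (nat_lit 0) (.e (nat_lit 231940) (nat_lit 0) .nil) .nil)))) (.nd (nat_lit 9) 
(.lf (nat_lit 524656) (.g (nat_lit 727) (.e (nat_lit 204869) (nat_lit 29) (.e (nat_lit 360475) (nat_lit 8) (.e (nat_lit 557071) (nat_lit 9) .nil))) (.g (nat_lit 0) (.e (nat_lit 231485) (nat_lit 0) .nil) .nil))) 
(.lf (nat_lit 525168) (.g (nat_lit 1955) (.e (nat_lit 204880) (nat_lit 32) (.e (nat_lit 385068) (nat_lit 26) (.e (nat_lit 532529) (nat_lit 9) (.e (nat_lit 336326) (nat_lit 18) .nil)))) (.g (nat_lit 0) (.e (nat_lit 232363) (nat_lit 0) .nil) .nil))))) (.nd (nat_lit 8) (.nd (nat_lit 9) 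
(.lf (nat_lit 524528) (.g (nat_lit 3712) (.e (nat_lit 204869) (nat_lit 29) (.e (nat_lit 360474) (nat_lit 8) (.e (nat_lit 557091) (nat_lit 12) (.e (nat_lit 164017) (nat_lit 44) (.e (nat_lit 688138) (nat_lit 5) (.e (nat_lit 2852) (nat_lit 184) (.e (nat_lit 433920) (nat_lit 3) .nil))))))) (.g (nat_lit 1) (.e (nat_lit 231338) (nat_lit 0) .nil) .nil))) 
(.lf (nat_lit 525040) (.g (nat_lit 2382) (.e (nat_lit 204877) (nat_lit 31) (.e (nat_lit 376869) (nat_lit 23) (.e (nat_lit 98350) (nat_lit 24) (.e (nat_lit 409645) (nat_lit 18) (.e (nat_lit 303119) (nat_lit 3) .nil))))) (.g (nat_lit 0) (.e (nat_lit 232136) (nat_lit 0) .nil) .nil)))) (.nd (nat_lit 9) 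
(.lf (nat_lit 524784) (.g (nat_lit 3440) (.e (nat_lit 204869) (nat_lit 29) (.e (nat_lit 360475) (nat_lit 8) (.e (nat_lit 557091) (nat_lit 12) (.e (nat_lit 164022) (nat_lit 46) (.e (nat_lit 704629) (nat_lit 9) (.e (nat_lit 388) (nat_lit 32) (.e (nat_lit 426137) (nat_lit 3) .nil))))))) (.g (nat_lit 1) (.e (nat_lit 231670) (nat_lit 0) .nil) .nil))) 
(.lf (nat_lit 525296) (.g (nat_lit 2931) (.e (nat_lit 204882) (nat_lit 32) (.e (nat_lit 385066) (nat_lit 26) (.e (nat_lit 532562) (nat_lit 15) (.e (nat_lit 385068) (nat_lit 26) (.e (nat_lit 532530) (nat_lit 9) (.e (nat_lit 336324) (nat_lit 18) .nil)))))) (.g (nat_lit 1) (.e (nat_lit 232700) (nat_lit 0) .nil) .nil))))))))) 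
(.nd (nat_lit 4) (.nd (nat_lit 5) (.nd (nat_lit 6) (.nd (nat_lit 7) (.nd (nat_lit 8) 
(.nd (nat_lit 9) 
(.lf (nat_lit 524296) (.g (nat_lit 1435) (.e (nat_lit 204868) (nat_lit 29) (.e (nat_lit 360475) (nat_lit 8) (.e (nat_lit 557073) (nat_lit 9) (.e (nat_lit 290) (nat_lit 21) .nil)))) (.g (nat_lit 0) (.e (nat_lit 230948) (nat_lit 0) .nil) .nil))) 
(.lf (nat_lit 524808) (.g (nat_lit 3605) (.e (nat_lit 204870) (nat_lit 29) (.e (nat_lit 360467) (nat_lit 3) (.e (nat_lit 516139) (nat_lit 7) (.e (nat_lit 409648) (nat_lit 18) (.e (nat_lit 303119) (nat_lit 3) .nil))))) (.g (nat_lit 1) (.e (nat_lit 231704) (nat_lit 0) .nil) .nil)))) (.nd (nat_lit 9) 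
(.lf (nat_lit 524552) (.g (nat_lit 3536) (.e (nat_lit 204869) (nat_lit 29) (.e (nat_lit 360474) (nat_lit 8) (.e (nat_lit 557091) (nat_lit 12) (.e (nat_lit 164020) (nat_lit 45) (.e (nat_lit 696328) (nat_lit 5) (.e (nat_lit 2888) (nat_lit 184) (.e (nat_lit 426136) (nat_lit 3) .nil))))))) (.g (nat_lit 1) (.e (nat_lit 231364) (nat_lit 0) .nil) .nil))) 
(.lf (nat_lit 525064) (.g (nat_lit 2111) (.e (nat_lit 204879) (nat_lit 32) (.e (nat_lit 385068) (nat_lit 26) (.e (nat_lit 532503) (nat_lit 1) (.e (nat_lit 57847) (nat_lit 252) (.e (nat_lit 57379) (nat_lit 3) .nil))))) (.g (nat_lit 0) (.e (nat_lit 232181) (nat_lit 0) .nil) .nil))))) (.nd (nat_lit 8) (.nd (nat_lit 9) 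
(.lf (nat_lit 524424) (.g (nat_lit 301) (.e (nat_lit 204869) (nat_lit 29) (.e (nat_lit 360474) (nat_lit 8) (.e (nat_lit 557070) (nat_lit 9) .nil))) (.g (nat_lit 0) (.e (nat_lit 231186) (nat_lit 0) .nil) .nil))) 
(.lf (nat_lit 524936) (.g (nat_lit 3534) (.e (nat_lit 204876) (nat_lit 31) (.e (nat_lit 376842) (nat_lit 11) (.e (nat_lit 426497) (nat_lit 27) (.e (nat_lit 335988) (nat_lit 1) (.e (nat_lit 57926) (nat_lit 282) (.e (nat_lit 163875) (nat_lit 3) .nil)))))) (.g (nat_lit 1) (.e (nat_lit 231970) (nat_lit 0) .nil) .nil)))) (.nd (nat_lit 9) 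
(.lf (nat_lit 524680) (.g (nat_lit 1757) (.e (nat_lit 204869) (nat_lit 29) (.e (nat_lit 360475) (nat_lit 8) (.e (nat_lit 557086) (nat_lit 11) (.e (nat_lit 24663) (nat_lit 14) (.e (nat_lit 401426) (nat_lit 3) .nil))))) (.g (nat_lit 0) (.e (nat_lit 231513) (nat_lit 0) .nil) .nil))) 
(.lf (nat_lit 525192) (.g (nat_lit 2917) (.e (nat_lit 204880) (nat_lit 32) (.e (nat_lit 385068) (nat_lit 26) (.e (nat_lit 532566) (nat_lit 15) (.e (nat_lit 385066) (nat_lit 26) (.e (nat_lit 532534) (nat_lit 9) (.e (nat_lit 336324) (nat_lit 18) .nil)))))) (.g (nat_lit 1) (.e (nat_lit 232389) (nat_lit 0) .nil) .nil)))))) (.nd (nat_lit 7) (.nd (nat_lit 8) (.nd (nat_lit 9) 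
(.lf (nat_lit 524360) (.g (nat_lit 549) (.e (nat_lit 204869) (nat_lit 29) (.e (nat_lit 360466) (nat_lit 3) (.e (nat_lit 516138) (nat_lit 7) .nil))) (.g (nat_lit 0) (.e (nat_lit 231067) (nat_lit 0) .nil) .nil))) 
(.lf (nat_lit 524872) (.g (nat_lit 2089) (.e (nat_lit 204873) (nat_lit 30) (.e (nat_lit 368676) (nat_lit 21) (.e (nat_lit 516131) (nat_lit 3) (.e (nat_lit 221215) (nat_lit 23) (.e (nat_lit 204828) (nat_lit 18) (.e (nat_lit 57929) (nat_lit 282) (.e (nat_lit 163874) (nat_lit 3) .nil))))))) (.g (nat_lit 1) (.e (nat_lit 231870) (nat_lit 0) .nil) .nil)))) (.nd (nat_lit 9) 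
(.lf (nat_lit 524616) (.g (nat_lit 3394) (.e (nat_lit 204869) (nat_lit 29) (.e (nat_lit 360474) (nat_lit 8) (.e (nat_lit 557093) (nat_lit 12) (.e (nat_lit 164023) (nat_lit 46) (.e (nat_lit 704648) (nat_lit 9) (.e (nat_lit 430) (nat_lit 32) (.e (nat_lit 426137) (nat_lit 3) .nil))))))) (.g (nat_lit 1) (.e (nat_lit 231434) (nat_lit 0) .nil) .nil))) 
(.lf (nat_lit 525128) (.g (nat_lit 3672) (.e (nat_lit 204880) (nat_lit 32) (.e (nat_lit 385066) (nat_lit 26) (.e (nat_lit 532563) (nat_lit 15) (.e (nat_lit 385066) (nat_lit 26) (.e (nat_lit 532534) (nat_lit 9) (.e (nat_lit 336324) (nat_lit 18) .nil)))))) (.g (nat_lit 1) (.e (nat_lit 232305) (nat_lit 0) .nil) .nil))))) (.nd (nat_lit 8) (.nd (nat_lit 9) 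
(.lf (nat_lit 524488) (.g (nat_lit 2980) (.e (nat_lit 204869) (nat_lit 29) (.e (nat_lit 360474) (nat_lit 8) (.e (nat_lit 557091) (nat_lit 12) (.e (nat_lit 163843) (nat_lit 0) (.e (nat_lit 6252) (nat_lit 337) (.e (nat_lit 2725) (nat_lit 172) (.e (nat_lit 237592) (nat_lit 3) .nil))))))) (.g (nat_lit 1) (.e (nat_lit 231278) (nat_lit 0) .nil) .nil))) 
(.lf (nat_lit 525000) (.g (nat_lit 2955) (.e (nat_lit 204877) (nat_lit 31) (.e (nat_lit 376842) (nat_lit 11) (.e (nat_lit 426500) (nat_lit 27) (.e (nat_lit 335986) (nat_lit 1) (.e (nat_lit 57927) (nat_lit 282) (.e (nat_lit 163874) (nat_lit 3) .nil)))))) (.g (nat_lit 1) (.e (nat_lit 232078) (nat_lit 0) .nil) .nil)))) (.nd (nat_lit 9) 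
(.lf (nat_lit 524744) (.g (nat_lit 3659) (.e (nat_lit 204869) (nat_lit 29) (.e (nat_lit 360475) (nat_lit 8) (.e (nat_lit 557091) (nat_lit 12) (.e (nat_lit 163843) (nat_lit 0) (.e (nat_lit 6250) (nat_lit 337) (.e (nat_lit 2725) (nat_lit 172) (.e (nat_lit 237594) (nat_lit 3) .nil))))))) (.g (nat_lit 1) (.e (nat_lit 231625) (nat_lit 0) .nil) .nil))) 
(.lf (nat_lit 525256) (.g (nat_lit 3509) (.e (nat_lit 204882) (nat_lit 32) (.e (nat_lit 385065) (nat_lit 26) (.e (nat_lit 532563) (nat_lit 15) (.e (nat_lit 385066) (nat_lit 26) (.e (nat_lit 532534) (nat_lit 9) (.e (nat_lit 336326) (nat_lit 18) .nil)))))) (.g (nat_lit 1) (.e (nat_lit 232655) (nat_lit 0) .nil) .nil))))))) (.nd (nat_lit 6) (.nd (nat_lit 7) (.nd (nat_lit 8) (.nd (nat_lit 9) 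
(.lf (nat_lit 524328) (.g (nat_lit 1686) (.e (nat_lit 204868) (nat_lit 29) (.e (nat_lit 360475) (nat_lit 8) (.e (nat_lit 557089) (nat_lit 12) (.e (nat_lit 171776) (nat_lit 48) .nil)))) (.g (nat_lit 0) (.e (nat_lit 230985) (nat_lit 0) .nil) .nil))) 
(.lf (nat_lit 524840) (.g (nat_lit 633) (.e (nat_lit 204872) (nat_lit 30) (.e (nat_lit 368676) (nat_lit 21) (.e (nat_lit 516124) (nat_lit 2) .nil))) (.g (nat_lit 0) (.e (nat_lit 231777) (nat_lit 0) .nil) .nil)))) (.nd (nat_lit 9) 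
(.lf (nat_lit 524584) (.g (nat_lit 4465) (.e (nat_lit 204869) (nat_lit 29) (.e (nat_lit 360474) (nat_lit 8) (.e (nat_lit 557091) (nat_lit 12) (.e (nat_lit 164022) (nat_lit 46) (.e (nat_lit 704628) (nat_lit 9) (.e (nat_lit 440) (nat_lit 32) (.e (nat_lit 426139) (nat_lit 3) .nil))))))) (.g (nat_lit 1) (.e (nat_lit 231399) (nat_lit 0) .nil) .nil))) 
(.lf (nat_lit 525096) (.g (nat_lit 3051) (.e (nat_lit 204880) (nat_lit 32) (.e (nat_lit 385066) (nat_lit 26) (.e (nat_lit 532530) (nat_lit 9) (.e (nat_lit 336324) (nat_lit 18) (.e (nat_lit 204854) (nat_lit 26) (.e (nat_lit 336322) (nat_lit 18) .nil)))))) (.g (nat_lit 1) (.e (nat_lit 232236) (nat_lit 0) .nil) .nil))))) (.nd (nat_lit 8) (.nd (nat_lit 9) 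
(.lf (nat_lit 524456) (.g (nat_lit 4252) (.e (nat_lit 204869) (nat_lit 29) (.e (nat_lit 360474) (nat_lit 8) (.e (nat_lit 557089) (nat_lit 12) (.e (nat_lit 163848) (nat_lit 0) (.e (nat_lit 6252) (nat_lit 337) (.e (nat_lit 2725) (nat_lit 172) (.e (nat_lit 237592) (nat_lit 3) .nil))))))) (.g (nat_lit 1) (.e (nat_lit 231229) (nat_lit 0) .nil) .nil))) 
(.lf (nat_lit 524968) (.g (nat_lit 1949) (.e (nat_lit 204877) (nat_lit 31) (.e (nat_lit 376842) (nat_lit 11) (.e (nat_lit 426098) (nat_lit 1) (.e (nat_lit 164148) (nat_lit 152) (.e (nat_lit 1204) (nat_lit 88) .nil))))) (.g (nat_lit 0) (.e (nat_lit 232042) (nat_lit 0) .nil) .nil)))) (.nd (nat_lit 9) 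
(.lf (nat_lit 524712) (.g (nat_lit 5423) (.e (nat_lit 204869) (nat_lit 29) (.e (nat_lit 360475) (nat_lit 8) (.e (nat_lit 557089) (nat_lit 12) (.e (nat_lit 163850) (nat_lit 0) (.e (nat_lit 6425) (nat_lit 342) (.e (nat_lit 229401) (nat_lit 12) (.e (nat_lit 426135) (nat_lit 3) .nil))))))) (.g (nat_lit 1) (.e (nat_lit 231546) (nat_lit 0) .nil) .nil))) 
(.lf (nat_lit 525224) (.g (nat_lit 2654) (.e (nat_lit 204881) (nat_lit 32) (.e (nat_lit 385066) (nat_lit 26) (.e (nat_lit 532566) (nat_lit 15) (.e (nat_lit 385066) (nat_lit 26) (.e (nat_lit 532534) (nat_lit 9) (.e (nat_lit 336324) (nat_lit 18) .nil)))))) (.g (nat_lit 1) (.e (nat_lit 232533) (nat_lit 0) .nil) .nil)))))) (.nd (nat_lit 7) (.nd (nat_lit 8) (.nd (nat_lit 9) 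
(.lf (nat_lit 524392) (.g (nat_lit 518) (.e (nat_lit 204869) (nat_lit 29) (.e (nat_lit 360473) (nat_lit 8) (.e (nat_lit 557073) (nat_lit 9) .nil))) (.g (nat_lit 0) (.e (nat_lit 231147) (nat_lit 0) .nil) .nil))) 
(.lf (nat_lit 524904) (.g (nat_lit 1947) (.e (nat_lit 204876) (nat_lit 31) (.e (nat_lit 376842) (nat_lit 11) (.e (nat_lit 426098) (nat_lit 1) (.e (nat_lit 164148) (nat_lit 152) (.e (nat_lit 1204) (nat_lit 88) .nil))))) (.g (nat_lit 0) (.e (nat_lit 231932) (nat_lit 0) .nil) .nil)))) (.nd (nat_lit 9) 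
(.lf (nat_lit 524648) (.g (nat_lit 4698) (.e (nat_lit 204869) (nat_lit 29) (.e (nat_lit 360475) (nat_lit 8) (.e (nat_lit 557067) (nat_lit 9) (.e (nat_lit 214) (nat_lit 19) (.e (nat_lit 319493) (nat_lit 0) (.e (nat_lit 5626) (nat_lit 312) (.e (nat_lit 2685) (nat_lit 168) .nil))))))) (.g (nat_lit 1) (.e (nat_lit 231476) (nat_lit 0) .nil) .nil))) 
(.lf (nat_lit 525160) (.g (nat_lit 2774) (.e (nat_lit 204880) (nat_lit 32) (.e (nat_lit 385068) (nat_lit 26) (.e (nat_lit 532503) (nat_lit 1) (.e (nat_lit 57847) (nat_lit 252) (.e (nat_lit 57377) (nat_lit 3) .nil))))) (.g (nat_lit 0) (.e (nat_lit 232345) (nat_lit 0) .nil) .nil))))) (.nd (nat_lit 8) (.nd (nat_lit 9) 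
(.lf (nat_lit 524520) (.g (nat_lit 3363) (.e (nat_lit 204869) (nat_lit 29) (.e (nat_lit 360474) (nat_lit 8) (.e (nat_lit 557091) (nat_lit 12) (.e (nat_lit 163850) (nat_lit 0) (.e (nat_lit 6273) (nat_lit 337) (.e (nat_lit 2722) (nat_lit 172) (.e (nat_lit 237593) (nat_lit 3) .nil))))))) (.g (nat_lit 1) (.e (nat_lit 231318) (nat_lit 0) .nil) .nil))) 
(.lf (nat_lit 525032) (.g (nat_lit 2421) (.e (nat_lit 204877) (nat_lit 31) (.e (nat_lit 376865) (nat_lit 22) (.e (nat_lit 90181) (nat_lit 16) (.e (nat_lit 229577) (nat_lit 179) (.e (nat_lit 164351) (nat_lit 246) (.e (nat_lit 2685) (nat_lit 168) .nil)))))) (.g (nat_lit 1) (.e (nat_lit 232128) (nat_lit 0) .nil) .nil)))) (.nd (nat_lit 9) 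
(.lf (nat_lit 524776) (.g (nat_lit 4973) (.e (nat_lit 204869) (nat_lit 29) (.e (nat_lit 360475) (nat_lit 8) (.e (nat_lit 557091) (nat_lit 12) (.e (nat_lit 164022) (nat_lit 46) (.e (nat_lit 704627) (nat_lit 9) (.e (nat_lit 375) (nat_lit 32) (.e (nat_lit 426135) (nat_lit 3) .nil))))))) (.g (nat_lit 1) (.e (nat_lit 231662) (nat_lit 0) .nil) .nil))) 
(.lf (nat_lit 525288) (.g (nat_lit 3384) (.e (nat_lit 204882) (nat_lit 32) (.e (nat_lit 385066) (nat_lit 26) (.e (nat_lit 532534) (nat_lit 9) (.e (nat_lit 336316) (nat_lit 17) (.e (nat_lit 196681) (nat_lit 17) (.e (nat_lit 139008) (nat_lit 18) .nil)))))) (.g (nat_lit 1) (.e (nat_lit 232691) (nat_lit 0) .nil) .nil)))))))) 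
(.nd (nat_lit 5) (.nd (nat_lit 6) (.nd (nat_lit 7) (.nd (nat_lit 8) (.nd (nat_lit 9) 
(.lf (nat_lit 524312) (.g (nat_lit 3546) (.e (nat_lit 204868) (nat_lit 29) (.e (nat_lit 360475) (nat_lit 8) (.e (nat_lit 557087) (nat_lit 11) (.e (nat_lit 24662) (nat_lit 14) (.e (nat_lit 401427) (nat_lit 3) .nil))))) (.g (nat_lit 0) (.e (nat_lit 230969) (nat_lit 0) .nil) .nil))) 
(.lf (nat_lit 524824) (.g (nat_lit 1959) (.e (nat_lit 212736) (nat_lit 29) (.e (nat_lit 360475) (nat_lit 8) (.e (nat_lit 557090) (nat_lit 12) (.e (nat_lit 171776) (nat_lit 48) .nil)))) (.g (nat_lit 0) (.e (nat_lit 231732) (nat_lit 0) .nil) .nil)))) (.nd (nat_lit 9) 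
(.lf (nat_lit 524568) (.g (nat_lit 4506) (.e (nat_lit 204869) (nat_lit 29) (.e (nat_lit 360474) (nat_lit 8) (.e (nat_lit 557091) (nat_lit 12) (.e (nat_lit 164020) (nat_lit 45) (.e (nat_lit 696330) (nat_lit 5) (.e (nat_lit 2884) (nat_lit 184) (.e (nat_lit 426135) (nat_lit 3) .nil))))))) (.g (nat_lit 1) (.e (nat_lit 231380) (nat_lit 0) .nil) .nil))) 
(.lf (nat_lit 525080) (.g (nat_lit 1905) (.e (nat_lit 204880) (nat_lit 32) (.e (nat_lit 385065) (nat_lit 26) (.e (nat_lit 532563) (nat_lit 15) (.e (nat_lit 385068) (nat_lit 26) (.e (nat_lit 532530) (nat_lit 9) .nil))))) (.g (nat_lit 0) (.e (nat_lit 232203) (nat_lit 0) .nil) .nil))))) (.nd (nat_lit 8) (.nd (nat_lit 9) 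
(.lf (nat_lit 524440) (.g (nat_lit 1574) (.e (nat_lit 204869) (nat_lit 29) (.e (nat_lit 360474) (nat_lit 8) (.e (nat_lit 557085) (nat_lit 11) (.e (nat_lit 32512) (nat_lit 14) .nil)))) (.g (nat_lit 0) (.e (nat_lit 231211) (nat_lit 0) .nil) .nil))) 
(.lf (nat_lit 524952) (.g (nat_lit 1744) (.e (nat_lit 204876) (nat_lit 31) (.e (nat_lit 376869) (nat_lit 23) (.e (nat_lit 98350) (nat_lit 24) (.e (nat_lit 409643) (nat_lit 18) .nil)))) (.g (nat_lit 0) (.e (nat_lit 231998) (nat_lit 0) .nil) .nil)))) (.nd (nat_lit 9) 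
(.lf (nat_lit 524696) (.g (nat_lit 3316) (.e (nat_lit 204869) (nat_lit 29) (.e (nat_lit 360475) (nat_lit 8) (.e (nat_lit 557087) (nat_lit 11) (.e (nat_lit 24662) (nat_lit 14) (.e (nat_lit 409344) (nat_lit 3) .nil))))) (.g (nat_lit 1) (.e (nat_lit 231529) (nat_lit 0) .nil) .nil))) 
(.lf (nat_lit 525208) (.g (nat_lit 1589) (.e (nat_lit 204881) (nat_lit 32) (.e (nat_lit 385066) (nat_lit 26) (.e (nat_lit 532530) (nat_lit 9) (.e (nat_lit 336326) (nat_lit 18) (.e (nat_lit 204859) (nat_lit 26) .nil))))) (.g (nat_lit 0) (.e (nat_lit 232512) (nat_lit 0) .nil) .nil)))))) (.nd (nat_lit 7) (.nd (nat_lit 8) (.nd (nat_lit 9) 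
(.lf (nat_lit 524376) (.g (nat_lit 1070) (.e (nat_lit 204869) (nat_lit 29) (.e (nat_lit 360472) (nat_lit 8) (.e (nat_lit 557066) (nat_lit 9) (.e (nat_lit 268) (nat_lit 21) .nil)))) (.g (nat_lit 0) (.e (nat_lit 231131) (nat_lit 0) .nil) .nil))) 
(.lf (nat_lit 524888) (.g (nat_lit 1512) (.e (nat_lit 204875) (nat_lit 31) (.e (nat_lit 376865) (nat_lit 22) (.e (nat_lit 90185) (nat_lit 17) (.e (nat_lit 237584) (nat_lit 1) .nil)))) (.g (nat_lit 0) (.e (nat_lit 231899) (nat_lit 0) .nil) .nil)))) (.nd (nat_lit 9) 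
(.lf (nat_lit 524632) (.g (nat_lit 3431) (.e (nat_lit 204869) (nat_lit 29) (.e (nat_lit 360474) (nat_lit 8) (.e (nat_lit 557094) (nat_lit 12) (.e (nat_lit 164022) (nat_lit 46) (.e (nat_lit 704628) (nat_lit 9) (.e (nat_lit 398) (nat_lit 32) (.e (nat_lit 426137) (nat_lit 3) .nil))))))) (.g (nat_lit 1) (.e (nat_lit 231450) (nat_lit 0) .nil) .nil))) 
(.lf (nat_lit 525144) (.g (nat_lit 2009) (.e (nat_lit 204880) (nat_lit 32) (.e (nat_lit 385066) (nat_lit 26) (.e (nat_lit 532566) (nat_lit 15) (.e (nat_lit 385066) (nat_lit 26) (.e (nat_lit 532532) (nat_lit 9) (.e (nat_lit 336325) (nat_lit 18) .nil)))))) (.g (nat_lit 1) (.e (nat_lit 232322) (nat_lit 0) .nil) .nil))))) (.nd (nat_lit 8) (.nd (nat_lit 9) 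
(.lf (nat_lit 524504) (.g (nat_lit 4279) (.e (nat_lit 204869) (nat_lit 29) (.e (nat_lit 360474) (nat_lit 8) (.e (nat_lit 557091) (nat_lit 12) (.e (nat_lit 163844) (nat_lit 0) (.e (nat_lit 6255) (nat_lit 337) (.e (nat_lit 2725) (nat_lit 172) (.e (nat_lit 237594) (nat_lit 3) .nil))))))) (.g (nat_lit 1) (.e (nat_lit 231302) (nat_lit 0) .nil) .nil))) 
(.lf (nat_lit 525016) (.g (nat_lit 392) (.e (nat_lit 204877) (nat_lit 31) (.e (nat_lit 376865) (nat_lit 22) (.e (nat_lit 90130) (nat_lit 9) .nil))) (.g (nat_lit 0) (.e (nat_lit 232102) (nat_lit 0) .nil) .nil)))) (.nd (nat_lit 9) 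
(.lf (nat_lit 524760) (.g (nat_lit 3922) (.e (nat_lit 204869) (nat_lit 29) (.e (nat_lit 360475) (nat_lit 8) (.e (nat_lit 557091) (nat_lit 12) (.e (nat_lit 163847) (nat_lit 0) (.e (nat_lit 6255) (nat_lit 337) (.e (nat_lit 2725) (nat_lit 172) (.e (nat_lit 237592) (nat_lit 3) .nil))))))) (.g (nat_lit 1) (.e (nat_lit 231643) (nat_lit 0) .nil) .nil))) 
(.lf (nat_lit 525272) (.g (nat_lit 3661) (.e (nat_lit 204882) (nat_lit 32) (.e (nat_lit 385066) (nat_lit 26) (.e (nat_lit 532530) (nat_lit 9) (.e (nat_lit 336326) (nat_lit 18) (.e (nat_lit 204852) (nat_lit 26) (.e (nat_lit 336326) (nat_lit 18) .nil)))))) (.g (nat_lit 1) (.e (nat_lit 232674) (nat_lit 0) .nil) .nil))))))) (.nd (nat_lit 6) (.nd (nat_lit 7) (.nd (nat_lit 8) (.nd (nat_lit 9) 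
(.lf (nat_lit 524344) (.g (nat_lit 2204) (.e (nat_lit 204868) (nat_lit 29) (.e (nat_lit 360475) (nat_lit 8) (.e (nat_lit 557091) (nat_lit 12) (.e (nat_lit 163844) (nat_lit 0) .nil)))) (.g (nat_lit 0) (.e (nat_lit 231003) (nat_lit 0) .nil) .nil))) 
(.lf (nat_lit 524856) (.g (nat_lit 824) (.e (nat_lit 204873) (nat_lit 30) (.e (nat_lit 368676) (nat_lit 21) (.e (nat_lit 516115) (nat_lit 1) .nil))) (.g (nat_lit 0) (.e (nat_lit 231820) (nat_lit 0) .nil) .nil)))) (.nd (nat_lit 9) 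
(.lf (nat_lit 524600) (.g (nat_lit 4229) (.e (nat_lit 204869) (nat_lit 29) (.e (nat_lit 360474) (nat_lit 8) (.e (nat_lit 557093) (nat_lit 12) (.e (nat_lit 164022) (nat_lit 46) (.e (nat_lit 704628) (nat_lit 9) (.e (nat_lit 373) (nat_lit 32) (.e (nat_lit 426135) (nat_lit 3) .nil))))))) (.g (nat_lit 1) (.e (nat_lit 231417) (nat_lit 0) .nil) .nil))) 
(.lf (nat_lit 525112) (.g (nat_lit 1729) (.e (nat_lit 204880) (nat_lit 32) (.e (nat_lit 385066) (nat_lit 26) (.e (nat_lit 532534) (nat_lit 9) (.e (nat_lit 336316) (nat_lit 17) (.e (nat_lit 196622) (nat_lit 9) .nil))))) (.g (nat_lit 0) (.e (nat_lit 232277) (nat_lit 0) .nil) .nil))))) (.nd (nat_lit 8) (.nd (nat_lit 9) 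
(.lf (nat_lit 524472) (.g (nat_lit 3695) (.e (nat_lit 204869) (nat_lit 29) (.e (nat_lit 360474) (nat_lit 8) (.e (nat_lit 557091) (nat_lit 12) (.e (nat_lit 163840) (nat_lit 0) (.e (nat_lit 6255) (nat_lit 337) (.e (nat_lit 2725) (nat_lit 172) (.e (nat_lit 237592) (nat_lit 3) .nil))))))) (.g (nat_lit 1) (.e (nat_lit 231246) (nat_lit 0) .nil) .nil))) 
(.lf (nat_lit 524984) (.g (nat_lit 1648) (.e (nat_lit 204877) (nat_lit 31) (.e (nat_lit 376842) (nat_lit 11) (.e (nat_lit 426406) (nat_lit 15) (.e (nat_lit 6207) (nat_lit 333) (.e (nat_lit 57879) (nat_lit 270) (.e (nat_lit 174) (nat_lit 12) .nil)))))) (.g (nat_lit 1) (.e (nat_lit 232059) (nat_lit 0) .nil) .nil)))) (.nd (nat_lit 9) 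
(.lf (nat_lit 524728) (.g (nat_lit 3415) (.e (nat_lit 204869) (nat_lit 29) (.e (nat_lit 360475) (nat_lit 8) (.e (nat_lit 557090) (nat_lit 12) (.e (nat_lit 163843) (nat_lit 0) (.e (nat_lit 6416) (nat_lit 341) .nil))))) (.g (nat_lit 0) (.e (nat_lit 231587) (nat_lit 0) .nil) .nil))) 
(.lf (nat_lit 525240) (.g (nat_lit 2605) (.e (nat_lit 204881) (nat_lit 32) (.e (nat_lit 385107) (nat_lit 51) (.e (nat_lit 794666) (nat_lit 22) (.e (nat_lit 196654) (nat_lit 11) (.e (nat_lit 16436) (nat_lit 9) (.e (nat_lit 426131) (nat_lit 3) .nil)))))) (.g (nat_lit 1) (.e (nat_lit 232564) (nat_lit 0) .nil) .nil)))))) (.nd (nat_lit 7) (.nd (nat_lit 8) (.nd (nat_lit 9) 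
(.lf (nat_lit 524408) (.g (nat_lit 408) (.e (nat_lit 204869) (nat_lit 29) (.e (nat_lit 360473) (nat_lit 8) (.e (nat_lit 557091) (nat_lit 12) .nil))) (.g (nat_lit 0) (.e (nat_lit 231163) (nat_lit 0) .nil) .nil))) 
(.lf (nat_lit 524920) (.g (nat_lit 1833) (.e (nat_lit 204876) (nat_lit 31) (.e (nat_lit 376842) (nat_lit 11) (.e (nat_lit 426107) (nat_lit 1) (.e (nat_lit 164179) (nat_lit 154) (.e (nat_lit 57405) (nat_lit 12) .nil))))) (.g (nat_lit 0) (.e (nat_lit 231948) (nat_lit 0) .nil) .nil)))) (.nd (nat_lit 9) 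
(.lf (nat_lit 524664) (.g (nat_lit 558) (.e (nat_lit 204869) (nat_lit 29) (.e (nat_lit 360475) (nat_lit 8) (.e (nat_lit 564992) (nat_lit 9) .nil))) (.g (nat_lit 0) (.e (nat_lit 231495) (nat_lit 0) .nil) .nil))) 
(.lf (nat_lit 525176) (.g (nat_lit 2820) (.e (nat_lit 204880) (nat_lit 32) (.e (nat_lit 385068) (nat_lit 26) (.e (nat_lit 532530) (nat_lit 9) (.e (nat_lit 336326) (nat_lit 18) (.e (nat_lit 204854) (nat_lit 26) (.e (nat_lit 336322) (nat_lit 18) .nil)))))) (.g (nat_lit 1) (.e (nat_lit 232371) (nat_lit 0) .nil) .nil))))) (.nd (nat_lit 8) (.nd (nat_lit 9) 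
(.lf (nat_lit 524536) (.g (nat_lit 5412) (.e (nat_lit 204869) (nat_lit 29) (.e (nat_lit 360474) (nat_lit 8) (.e (nat_lit 557091) (nat_lit 12) (.e (nat_lit 164017) (nat_lit 44) (.e (nat_lit 688139) (nat_lit 5) (.e (nat_lit 2887) (nat_lit 184) (.e (nat_lit 426135) (nat_lit 3) .nil))))))) (.g (nat_lit 1) (.e (nat_lit 231346) (nat_lit 0) .nil) .nil))) 
(.lf (nat_lit 525048) (.g (nat_lit 2575) (.e (nat_lit 204878) (nat_lit 31) (.e (nat_lit 376866) (nat_lit 23) (.e (nat_lit 98350) (nat_lit 24) (.e (nat_lit 409645) (nat_lit 18) (.e (nat_lit 303119) (nat_lit 3) .nil))))) (.g (nat_lit 0) (.e (nat_lit 232164) (nat_lit 0) .nil) .nil)))) (.nd (nat_lit 9) 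
(.lf (nat_lit 524792) (.g (nat_lit 1058) (.e (nat_lit 204869) (nat_lit 29) (.e (nat_lit 360475) (nat_lit 8) (.e (nat_lit 557110) (nat_lit 16) .nil))) (.g (nat_lit 0) (.e (nat_lit 231678) (nat_lit 0) .nil) .nil))) 
(.lf (nat_lit 525304) (.g (nat_lit 3103) (.e (nat_lit 204882) (nat_lit 32) (.e (nat_lit 385066) (nat_lit 26) (.e (nat_lit 532565) (nat_lit 15) (.e (nat_lit 385065) (nat_lit 26) (.e (nat_lit 532535) (nat_lit 9) (.e (nat_lit 343808) (nat_lit 18) .nil)))))) (.g (nat_lit 1) (.e (nat_lit 232711) (nat_lit 0) .nil) .nil)))))))))) 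
(.nd (nat_lit 3) (.nd (nat_lit 4) (.nd (nat_lit 5) (.nd (nat_lit 6) (.nd (nat_lit 7) 
(.nd (nat_lit 8) (.nd (nat_lit 9) 
(.lf (nat_lit 524292) (.g (nat_lit 1679) (.e (nat_lit 204868) (nat_lit 29) (.e (nat_lit 360475) (nat_lit 8) (.e (nat_lit 557068) (nat_lit 9) (.e (nat_lit 249) (nat_lit 21) .nil)))) (.g (nat_lit 0) (.e (nat_lit 230944) (nat_lit 0) .nil) .nil))) 
(.lf (nat_lit 524804) (.g (nat_lit 1881) (.e (nat_lit 204870) (nat_lit 29) (.e (nat_lit 360467) (nat_lit 3) (.e (nat_lit 516139) (nat_lit 7) (.e (nat_lit 409617) (nat_lit 10) (.e (nat_lit 5616) (nat_lit 312) .nil))))) (.g (nat_lit 0) (.e (nat_lit 231699) (nat_lit 0) .nil) .nil)))) (.nd (nat_lit 9) 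
(.lf (nat_lit 524548) (.g (nat_lit 3457) (.e (nat_lit 204869) (nat_lit 29) (.e (nat_lit 360474) (nat_lit 8) (.e (nat_lit 557091) (nat_lit 12) (.e (nat_lit 164020) (nat_lit 45) (.e (nat_lit 696328) (nat_lit 5) (.e (nat_lit 2842) (nat_lit 184) (.e (nat_lit 426136) (nat_lit 3) .nil))))))) (.g (nat_lit 1) (.e (nat_lit 231360) (nat_lit 0) .nil) .nil))) 
(.lf (nat_lit 525060) (.g (nat_lit 1955) (.e (nat_lit 204879) (nat_lit 32) (.e (nat_lit 385066) (nat_lit 26) (.e (nat_lit 532534) (nat_lit 9) (.e (nat_lit 336325) (nat_lit 18) .nil)))) (.g (nat_lit 0) (.e (nat_lit 232177) (nat_lit 0) .nil) .nil))))) (.nd (nat_lit 8) (.nd (nat_lit 9) 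
(.lf (nat_lit 524420) (.g (nat_lit 525) (.e (nat_lit 204869) (nat_lit 29) (.e (nat_lit 360473) (nat_lit 8) (.e (nat_lit 557094) (nat_lit 12) .nil))) (.g (nat_lit 0) (.e (nat_lit 231175) (nat_lit 0) .nil) .nil))) 
(.lf (nat_lit 524932) (.g (nat_lit 1423) (.e (nat_lit 204876) (nat_lit 31) (.e (nat_lit 376842) (nat_lit 11) (.e (nat_lit 426408) (nat_lit 15) (.e (nat_lit 6215) (nat_lit 333) .nil)))) (.g (nat_lit 0) (.e (nat_lit 231963) (nat_lit 0) .nil) .nil)))) (.nd (nat_lit 9) 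
(.lf (nat_lit 524676) (.g (nat_lit 3441) (.e (nat_lit 204869) (nat_lit 29) (.e (nat_lit 360475) (nat_lit 8) (.e (nat_lit 557086) (nat_lit 11) (.e (nat_lit 24661) (nat_lit 14) (.e (nat_lit 401428) (nat_lit 3) .nil))))) (.g (nat_lit 1) (.e (nat_lit 231509) (nat_lit 0) .nil) .nil))) 
(.lf (nat_lit 525188) (.g (nat_lit 3445) (.e (nat_lit 204880) (nat_lit 32) (.e (nat_lit 385068) (nat_lit 26) (.e (nat_lit 532563) (nat_lit 15) (.e (nat_lit 385068) (nat_lit 26) (.e (nat_lit 532530) (nat_lit 9) (.e (nat_lit 336324) (nat_lit 18) .nil)))))) (.g (nat_lit 1) (.e (nat_lit 232385) (nat_lit 0) .nil) .nil)))))) (.nd (nat_lit 7) (.nd (nat_lit 8) (.nd (nat_lit 9) 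
(.lf (nat_lit 524356) (.g (nat_lit 906) (.e (nat_lit 204869) (nat_lit 29) (.e (nat_lit 360452) (nat_lit 0) (.e (nat_lit 3982) (nat_lit 239) (.e (nat_lit 1197) (nat_lit 88) .nil)))) (.g (nat_lit 0) (.e (nat_lit 231054) (nat_lit 0) .nil) .nil))) 
(.lf (nat_lit 524868) (.g (nat_lit 528) (.e (nat_lit 204873) (nat_lit 30) (.e (nat_lit 368676) (nat_lit 21) (.e (nat_lit 516131) (nat_lit 3) .nil))) (.g (nat_lit 0) (.e (nat_lit 231850) (nat_lit 0) .nil) .nil)))) (.nd (nat_lit 9) 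
(.lf (nat_lit 524612) (.g (nat_lit 2383) (.e (nat_lit 204869) (nat_lit 29) (.e (nat_lit 360474) (nat_lit 8) (.e (nat_lit 557093) (nat_lit 12) (.e (nat_lit 164022) (nat_lit 46) (.e (nat_lit 704629) (nat_lit 9) (.e (nat_lit 433) (nat_lit 32) (.e (nat_lit 433920) (nat_lit 3) .nil))))))) (.g (nat_lit 1) (.e (nat_lit 231430) (nat_lit 0) .nil) .nil))) 
(.lf (nat_lit 525124) (.g (nat_lit 2483) (.e (nat_lit 204880) (nat_lit 32) (.e (nat_lit 385066) (nat_lit 26) (.e (nat_lit 532562) (nat_lit 15) (.e (nat_lit 385068) (nat_lit 26) (.e (nat_lit 532530) (nat_lit 9) (.e (nat_lit 336324) (nat_lit 18) .nil)))))) (.g (nat_lit 1) (.e (nat_lit 232301) (nat_lit 0) .nil) .nil))))) (.nd (nat_lit 8) (.nd (nat_lit 9) 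
(.lf (nat_lit 524484) (.g (nat_lit 1410) (.e (nat_lit 204869) (nat_lit 29) (.e (nat_lit 360474) (nat_lit 8) (.e (nat_lit 557091) (nat_lit 12) (.e (nat_lit 163843) (nat_lit 0) .nil)))) (.g (nat_lit 0) (.e (nat_lit 231265) (nat_lit 0) .nil) .nil))) 
(.lf (nat_lit 524996) (.g (nat_lit 3674) (.e (nat_lit 204877) (nat_lit 31) (.e (nat_lit 376842) (nat_lit 11) (.e (nat_lit 426497) (nat_lit 27) (.e (nat_lit 335988) (nat_lit 1) (.e (nat_lit 57926) (nat_lit 282) (.e (nat_lit 163875) (nat_lit 3) .nil)))))) (.g (nat_lit 1) (.e (nat_lit 232074) (nat_lit 0) .nil) .nil)))) (.nd (nat_lit 9) 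
(.lf (nat_lit 524740) (.g (nat_lit 2482) (.e (nat_lit 204869) (nat_lit 29) (.e (nat_lit 360475) (nat_lit 8) (.e (nat_lit 557090) (nat_lit 12) (.e (nat_lit 171776) (nat_lit 48) .nil)))) (.g (nat_lit 0) (.e (nat_lit 231621) (nat_lit 0) .nil) .nil))) 
(.lf (nat_lit 525252) (.g (nat_lit 3717) (.e (nat_lit 204882) (nat_lit 32) (.e (nat_lit 385065) (nat_lit 26) (.e (nat_lit 532563) (nat_lit 15) (.e (nat_lit 385066) (nat_lit 26) (.e (nat_lit 532530) (nat_lit 9) (.e (nat_lit 336324) (nat_lit 18) .nil)))))) (.g (nat_lit 1) (.e (nat_lit 232651) (nat_lit 0) .nil) .nil))))))) (.nd (nat_lit 6) (.nd (nat_lit 7) (.nd (nat_lit 8) (.nd (nat_lit 9) 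
(.lf (nat_lit 524324) (.g (nat_lit 1937) (.e (nat_lit 204868) (nat_lit 29) (.e (nat_lit 360475) (nat_lit 8) (.e (nat_lit 557089) (nat_lit 12) (.e (nat_lit 163849) (nat_lit 0) .nil)))) (.g (nat_lit 0) (.e (nat_lit 230981) (nat_lit 0) .nil) .nil))) 
(.lf (nat_lit 524836) (.g (nat_lit 2545) (.e (nat_lit 204872) (nat_lit 30) (.e (nat_lit 368676) (nat_lit 21) (.e (nat_lit 516115) (nat_lit 1) (.e (nat_lit 164179) (nat_lit 154) (.e (nat_lit 57378) (nat_lit 3) .nil))))) (.g (nat_lit 0) (.e (nat_lit 231762) (nat_lit 0) .nil) .nil)))) (.nd (nat_lit 9) 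
(.lf (nat_lit 524580) (.g (nat_lit 3112) (.e (nat_lit 204869) (nat_lit 29) (.e (nat_lit 360474) (nat_lit 8) (.e (nat_lit 557091) (nat_lit 12) (.e (nat_lit 164022) (nat_lit 46) (.e (nat_lit 704627) (nat_lit 9) (.e (nat_lit 391) (nat_lit 32) (.e (nat_lit 426137) (nat_lit 3) .nil))))))) (.g (nat_lit 1) (.e (nat_lit 231395) (nat_lit 0) .nil) .nil))) 
(.lf (nat_lit 525092) (.g (nat_lit 1214) (.e (nat_lit 204880) (nat_lit 32) (.e (nat_lit 385066) (nat_lit 26) (.e (nat_lit 532529) (nat_lit 9) (.e (nat_lit 336325) (nat_lit 18) .nil)))) (.g (nat_lit 0) (.e (nat_lit 232231) (nat_lit 0) .nil) .nil))))) (.nd (nat_lit 8) (.nd (nat_lit 9) 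
(.lf (nat_lit 524452) (.g (nat_lit 2774) (.e (nat_lit 204869) (nat_lit 29) (.e (nat_lit 360474) (nat_lit 8) (.e (nat_lit 557089) (nat_lit 12) (.e (nat_lit 163843) (nat_lit 0) (.e (nat_lit 6420) (nat_lit 341) (.e (nat_lit 163843) (nat_lit 0) (.e (nat_lit 7936) (nat_lit 388) (.e (nat_lit 2684) (nat_lit 168) .nil)))))))) (.g (nat_lit 1) (.e (nat_lit 231224) (nat_lit 0) .nil) .nil))) 
(.lf (nat_lit 524964) (.g (nat_lit 1766) (.e (nat_lit 204877) (nat_lit 31) (.e (nat_lit 376839) (nat_lit 11) (.e (nat_lit 426503) (nat_lit 27) (.e (nat_lit 335986) (nat_lit 1) (.e (nat_lit 57927) (nat_lit 282) (.e (nat_lit 163874) (nat_lit 3) .nil)))))) (.g (nat_lit 1) (.e (nat_lit 232035) (nat_lit 0) .nil) .nil)))) (.nd (nat_lit 9) 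
(.lf (nat_lit 524708) (.g (nat_lit 4707) (.e (nat_lit 204869) (nat_lit 29) (.e (nat_lit 360475) (nat_lit 8) (.e (nat_lit 557089) (nat_lit 12) (.e (nat_lit 163844) (nat_lit 0) (.e (nat_lit 6255) (nat_lit 337) (.e (nat_lit 2725) (nat_lit 172) (.e (nat_lit 237594) (nat_lit 3) .nil))))))) (.g (nat_lit 1) (.e (nat_lit 231542) (nat_lit 0) .nil) .nil))) 
(.lf (nat_lit 525220) (.g (nat_lit 3218) (.e (nat_lit 204881) (nat_lit 32) (.e (nat_lit 385066) (nat_lit 26) (.e (nat_lit 532534) (nat_lit 9) (.e (nat_lit 336326) (nat_lit 18) (.e (nat_lit 204854) (nat_lit 26) (.e (nat_lit 336324) (nat_lit 18) .nil)))))) (.g (nat_lit 1) (.e (nat_lit 232528) (nat_lit 0) .nil) .nil)))))) (.nd (nat_lit 7) (.nd (nat_lit 8) (.nd (nat_lit 9) 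
(.lf (nat_lit 524388) (.g (nat_lit 3827) (.e (nat_lit 204869) (nat_lit 29) (.e (nat_lit 360472) (nat_lit 8) (.e (nat_lit 557090) (nat_lit 12) (.e (nat_lit 164020) (nat_lit 45) (.e (nat_lit 696330) (nat_lit 5) (.e (nat_lit 2878) (nat_lit 184) (.e (nat_lit 426140) (nat_lit 3) .nil))))))) (.g (nat_lit 1) (.e (nat_lit 231143) (nat_lit 0) .nil) .nil))) 
(.lf (nat_lit 524900) (.g (nat_lit 3127) (.e (nat_lit 204876) (nat_lit 31) (.e (nat_lit 376835) (nat_lit 0) (.e (nat_lit 3305) (nat_lit 202) (.e (nat_lit 573485) (nat_lit 13) (.e (nat_lit 65628) (nat_lit 14) (.e (nat_lit 401428) (nat_lit 3) .nil)))))) (.g (nat_lit 1) (.e (nat_lit 231919) (nat_lit 0) .nil) .nil)))) (.nd (nat_lit 9) 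
(.lf (nat_lit 524644) (.g (nat_lit 176) (.e (nat_lit 204869) (nat_lit 29) (.e (nat_lit 360475) (nat_lit 8) (.e (nat_lit 557066) (nat_lit 9) .nil))) (.g (nat_lit 0) (.e (nat_lit 231469) (nat_lit 0) .nil) .nil))) 
(.lf (nat_lit 525156) (.g (nat_lit 3159) (.e (nat_lit 204880) (nat_lit 32) (.e (nat_lit 385068) (nat_lit 26) (.e (nat_lit 532501) (nat_lit 1) (.e (nat_lit 57852) (nat_lit 252) (.e (nat_lit 57378) (nat_lit 3) .nil))))) (.g (nat_lit 0) (.e (nat_lit 232340) (nat_lit 0) .nil) .nil))))) (.nd (nat_lit 8) (.nd (nat_lit 9) 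
(.lf (nat_lit 524516) (.g (nat_lit 4234) (.e (nat_lit 204869) (nat_lit 29) (.e (nat_lit 360474) (nat_lit 8) (.e (nat_lit 557091) (nat_lit 12) (.e (nat_lit 163849) (nat_lit 0) (.e (nat_lit 6255) (nat_lit 337) (.e (nat_lit 2725) (nat_lit 172) (.e (nat_lit 237593) (nat_lit 3) .nil))))))) (.g (nat_lit 1) (.e (nat_lit 231314) (nat_lit 0) .nil) .nil))) 
(.lf (nat_lit 525028) (.g (nat_lit 703) (.e (nat_lit 204877) (nat_lit 31) (.e (nat_lit 376865) (nat_lit 22) (.e (nat_lit 90173) (nat_lit 14) .nil))) (.g (nat_lit 0) (.e (nat_lit 232121) (nat_lit 0) .nil) .nil)))) (.nd (nat_lit 9) 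
(.lf (nat_lit 524772) (.g (nat_lit 4372) (.e (nat_lit 204869) (nat_lit 29) (.e (nat_lit 360475) (nat_lit 8) (.e (nat_lit 557091) (nat_lit 12) (.e (nat_lit 164020) (nat_lit 45) (.e (nat_lit 696327) (nat_lit 5) (.e (nat_lit 2884) (nat_lit 184) (.e (nat_lit 426140) (nat_lit 3) .nil))))))) (.g (nat_lit 1) (.e (nat_lit 231658) (nat_lit 0) .nil) .nil))) 
(.lf (nat_lit 525284) (.g (nat_lit 355) (.e (nat_lit 204882) (nat_lit 32) (.e (nat_lit 385066) (nat_lit 26) (.e (nat_lit 532533) (nat_lit 9) .nil))) (.g (nat_lit 0) (.e (nat_lit 232686) (nat_lit 0) .nil) .nil)))))))) (.nd (nat_lit 5) (.nd (nat_lit 6) (.nd (nat_lit 7) (.nd (nat_lit 8) (.nd (nat_lit 9) 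
(.lf (nat_lit 524308) (.g (nat_lit 1524) (.e (nat_lit 204868) (nat_lit 29) (.e (nat_lit 360475) (nat_lit 8) (.e (nat_lit 557087) (nat_lit 11) (.e (nat_lit 24588) (nat_lit 0) .nil)))) (.g (nat_lit 0) (.e (nat_lit 230965) (nat_lit 0) .nil) .nil))) 
(.lf (nat_lit 524820) (.g (nat_lit 1890) (.e (nat_lit 212736) (nat_lit 29) (.e (nat_lit 360466) (nat_lit 3) (.e (nat_lit 516139) (nat_lit 7) (.e (nat_lit 409648) (nat_lit 18) (.e (nat_lit 303118) (nat_lit 3) .nil))))) (.g (nat_lit 0) (.e (nat_lit 231724) (nat_lit 0) .nil) .nil)))) (.nd (nat_lit 9) 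
(.lf (nat_lit 524564) (.g (nat_lit 4417) (.e (nat_lit 204869) (nat_lit 29) (.e (nat_lit 360474) (nat_lit 8) (.e (nat_lit 557091) (nat_lit 12) (.e (nat_lit 164020) (nat_lit 45) (.e (nat_lit 696330) (nat_lit 5) (.e (nat_lit 2879) (nat_lit 184) (.e (nat_lit 426136) (nat_lit 3) .nil))))))) (.g (nat_lit 1) (.e (nat_lit 231376) (nat_lit 0) .nil) .nil))) 
(.lf (nat_lit 525076) (.g (nat_lit 2281) (.e (nat_lit 204879) (nat_lit 32) (.e (nat_lit 385105) (nat_lit 50) (.e (nat_lit 786473) (nat_lit 27) (.e (nat_lit 336051) (nat_lit 6) (.e (nat_lit 147467) (nat_lit 9) .nil))))) (.g (nat_lit 0) (.e (nat_lit 232195) (nat_lit 0) .nil) .nil))))) (.nd (nat_lit 8) (.nd (nat_lit 9) 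
(.lf (nat_lit 524436) (.g (nat_lit 4654) (.e (nat_lit 204869) (nat_lit 29) (.e (nat_lit 360474) (nat_lit 8) (.e (nat_lit 557085) (nat_lit 11) (.e (nat_lit 24580) (nat_lit 0) (.e (nat_lit 6665) (nat_lit 357) (.e (nat_lit 7936) (nat_lit 168) .nil)))))) (.g (nat_lit 1) (.e (nat_lit 231207) (nat_lit 0) .nil) .nil))) 
(.lf (nat_lit 524948) (.g (nat_lit 1483) (.e (nat_lit 204876) (nat_lit 31) (.e (nat_lit 376867) (nat_lit 23) (.e (nat_lit 98350) (nat_lit 24) (.e (nat_lit 417536) (nat_lit 18) .nil)))) (.g (nat_lit 0) (.e (nat_lit 231992) (nat_lit 0) .nil) .nil)))) (.nd (nat_lit 9) 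
(.lf (nat_lit 524692) (.g (nat_lit 3569) (.e (nat_lit 204869) (nat_lit 29) (.e (nat_lit 360475) (nat_lit 8) (.e (nat_lit 557087) (nat_lit 11) (.e (nat_lit 24661) (nat_lit 14) (.e (nat_lit 401426) (nat_lit 3) .nil))))) (.g (nat_lit 1) (.e (nat_lit 231525) (nat_lit 0) .nil) .nil))) 
(.lf (nat_lit 525204) (.g (nat_lit 2768) (.e (nat_lit 204881) (nat_lit 32) (.e (nat_lit 385066) (nat_lit 26) (.e (nat_lit 532530) (nat_lit 9) (.e (nat_lit 336324) (nat_lit 18) (.e (nat_lit 204854) (nat_lit 26) (.e (nat_lit 336326) (nat_lit 18) .nil)))))) (.g (nat_lit 1) (.e (nat_lit 232508) (nat_lit 0) .nil) .nil)))))) (.nd (nat_lit 7) (.nd (nat_lit 8) (.nd (nat_lit 9) 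
(.lf (nat_lit 524372) (.g (nat_lit 4213) (.e (nat_lit 204869) (nat_lit 29) (.e (nat_lit 360468) (nat_lit 3) (.e (nat_lit 516139) (nat_lit 7) (.e (nat_lit 409645) (nat_lit 18) (.e (nat_lit 303119) (nat_lit 3) .nil))))) (.g (nat_lit 1) (.e (nat_lit 231118) (nat_lit 0) .nil) .nil))) 
(.lf (nat_lit 524884) (.g (nat_lit 2248) (.e (nat_lit 204875) (nat_lit 31) (.e (nat_lit 376842) (nat_lit 11) (.e (nat_lit 426108) (nat_lit 1) (.e (nat_lit 164183) (nat_lit 154) (.e (nat_lit 57409) (nat_lit 12) .nil))))) (.g (nat_lit 0) (.e (nat_lit 231891) (nat_lit 0) .nil) .nil)))) (.nd (nat_lit 9) 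
(.lf (nat_lit 524628) (.g (nat_lit 2543) (.e (nat_lit 204869) (nat_lit 29) (.e (nat_lit 360474) (nat_lit 8) (.e (nat_lit 557094) (nat_lit 12) (.e (nat_lit 164022) (nat_lit 46) (.e (nat_lit 704628) (nat_lit 9) (.e (nat_lit 370) (nat_lit 32) (.e (nat_lit 426136) (nat_lit 3) .nil))))))) (.g (nat_lit 1) (.e (nat_lit 231446) (nat_lit 0) .nil) .nil))) 
(.lf (nat_lit 525140) (.g (nat_lit 2942) (.e (nat_lit 204880) (nat_lit 32) (.e (nat_lit 385066) (nat_lit 26) (.e (nat_lit 532565) (nat_lit 15) (.e (nat_lit 385068) (nat_lit 26) (.e (nat_lit 532530) (nat_lit 9) (.e (nat_lit 336325) (nat_lit 18) .nil)))))) (.g (nat_lit 1) (.e (nat_lit 232318) (nat_lit 0) .nil) .nil))))) (.nd (nat_lit 8) (.nd (nat_lit 9) 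
(.lf (nat_lit 524500) (.g (nat_lit 4244) (.e (nat_lit 204869) (nat_lit 29) (.e (nat_lit 360474) (nat_lit 8) (.e (nat_lit 557091) (nat_lit 12) (.e (nat_lit 163844) (nat_lit 0) (.e (nat_lit 6254) (nat_lit 337) (.e (nat_lit 2725) (nat_lit 172) (.e (nat_lit 237592) (nat_lit 3) .nil))))))) (.g (nat_lit 1) (.e (nat_lit 231298) (nat_lit 0) .nil) .nil))) 
(.lf (nat_lit 525012) (.g (nat_lit 134) (.e (nat_lit 204877) (nat_lit 31) (.e (nat_lit 376864) (nat_lit 22) (.e (nat_lit 90165) (nat_lit 12) .nil))) (.g (nat_lit 0) (.e (nat_lit 232097) (nat_lit 0) .nil) .nil)))) (.nd (nat_lit 9) 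
(.lf (nat_lit 524756) (.g (nat_lit 4059) (.e (nat_lit 204869) (nat_lit 29) (.e (nat_lit 360475) (nat_lit 8) (.e (nat_lit 557091) (nat_lit 12) (.e (nat_lit 163844) (nat_lit 0) (.e (nat_lit 6255) (nat_lit 337) (.e (nat_lit 2725) (nat_lit 172) (.e (nat_lit 237592) (nat_lit 3) .nil))))))) (.g (nat_lit 1) (.e (nat_lit 231639) (nat_lit 0) .nil) .nil))) 
(.lf (nat_lit 525268) (.g (nat_lit 3339) (.e (nat_lit 204882) (nat_lit 32) (.e (nat_lit 385066) (nat_lit 26) (.e (nat_lit 532530) (nat_lit 9) (.e (nat_lit 336316) (nat_lit 17) (.e (nat_lit 196681) (nat_lit 17) (.e (nat_lit 139008) (nat_lit 18) .nil)))))) (.g (nat_lit 1) (.e (nat_lit 232670) (nat_lit 0) .nil) .nil))))))) (.nd (nat_lit 6) (.nd (nat_lit 7) (.nd (nat_lit 8) (.nd (nat_lit 9) 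
(.lf (nat_lit 524340) (.g (nat_lit 4302) (.e (nat_lit 204868) (nat_lit 29) (.e (nat_lit 360475) (nat_lit 8) (.e (nat_lit 557091) (nat_lit 12) (.e (nat_lit 163843) (nat_lit 0) (.e (nat_lit 6255) (nat_lit 337) (.e (nat_lit 2725) (nat_lit 172) (.e (nat_lit 237592) (nat_lit 3) .nil))))))) (.g (nat_lit 1) (.e (nat_lit 230998) (nat_lit 0) .nil) .nil))) 
(.lf (nat_lit 524852) (.g (nat_lit 890) (.e (nat_lit 204872) (nat_lit 30) (.e (nat_lit 368676) (nat_lit 21) (.e (nat_lit 516131) (nat_lit 3) (.e (nat_lit 221215) (nat_lit 23) .nil)))) (.g (nat_lit 0) (.e (nat_lit 231800) (nat_lit 0) .nil) .nil)))) (.nd (nat_lit 9) 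
(.lf (nat_lit 524596) (.g (nat_lit 2972) (.e (nat_lit 204869) (nat_lit 29) (.e (nat_lit 360474) (nat_lit 8) (.e (nat_lit 557093) (nat_lit 12) (.e (nat_lit 164022) (nat_lit 46) (.e (nat_lit 704626) (nat_lit 9) (.e (nat_lit 399) (nat_lit 32) (.e (nat_lit 426137) (nat_lit 3) .nil))))))) (.g (nat_lit 1) (.e (nat_lit 231413) (nat_lit 0) .nil) .nil))) 
(.lf (nat_lit 525108) (.g (nat_lit 2350) (.e (nat_lit 204880) (nat_lit 32) (.e (nat_lit 385066) (nat_lit 26) (.e (nat_lit 532532) (nat_lit 9) (.e (nat_lit 336326) (nat_lit 18) (.e (nat_lit 204852) (nat_lit 26) (.e (nat_lit 336326) (nat_lit 18) .nil)))))) (.g (nat_lit 1) (.e (nat_lit 232248) (nat_lit 0) .nil) .nil))))) (.nd (nat_lit 8) (.nd (nat_lit 9) 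
(.lf (nat_lit 524468) (.g (nat_lit 4042) (.e (nat_lit 204869) (nat_lit 29) (.e (nat_lit 360474) (nat_lit 8) (.e (nat_lit 557089) (nat_lit 12) (.e (nat_lit 164017) (nat_lit 44) (.e (nat_lit 688139) (nat_lit 5) (.e (nat_lit 2887) (nat_lit 184) (.e (nat_lit 426136) (nat_lit 3) .nil))))))) (.g (nat_lit 1) (.e (nat_lit 231242) (nat_lit 0) .nil) .nil))) 
(.lf (nat_lit 524980) (.g (nat_lit 1599) (.e (nat_lit 204877) (nat_lit 31) (.e (nat_lit 376842) (nat_lit 11) (.e (nat_lit 426107) (nat_lit 1) (.e (nat_lit 164149) (nat_lit 152) (.e (nat_lit 1204) (nat_lit 88) .nil))))) (.g (nat_lit 0) (.e (nat_lit 232054) (nat_lit 0) .nil) .nil)))) (.nd (nat_lit 9) 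
(.lf (nat_lit 524724) (.g (nat_lit 4380) (.e (nat_lit 204869) (nat_lit 29) (.e (nat_lit 360475) (nat_lit 8) (.e (nat_lit 557090) (nat_lit 12) (.e (nat_lit 163843) (nat_lit 0) (.e (nat_lit 6254) (nat_lit 337) (.e (nat_lit 2725) (nat_lit 172) (.e (nat_lit 237592) (nat_lit 3) .nil))))))) (.g (nat_lit 1) (.e (nat_lit 231578) (nat_lit 0) .nil) .nil))) 
(.lf (nat_lit 525236) (.g (nat_lit 1585) (.e (nat_lit 204881) (nat_lit 32) (.e (nat_lit 385105) (nat_lit 50) (.e (nat_lit 786450) (nat_lit 15) (.e (nat_lit 1846) (nat_lit 124) .nil)))) (.g (nat_lit 0) (.e (nat_lit 232547) (nat_lit 0) .nil) .nil)))))) (.nd (nat_lit 7) (.nd (nat_lit 8) (.nd (nat_lit 9) 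
(.lf (nat_lit 524404) (.g (nat_lit 1335) (.e (nat_lit 204869) (nat_lit 29) (.e (nat_lit 360473) (nat_lit 8) (.e (nat_lit 557089) (nat_lit 12) (.e (nat_lit 163844) (nat_lit 0) .nil)))) (.g (nat_lit 0) (.e (nat_lit 231159) (nat_lit 0) .nil) .nil))) 
(.lf (nat_lit 524916) (.g (nat_lit 1473) (.e (nat_lit 204876) (nat_lit 31) (.e (nat_lit 376842) (nat_lit 11) (.e (nat_lit 426100) (nat_lit 1) (.e (nat_lit 164183) (nat_lit 154) (.e (nat_lit 57410) (nat_lit 12) .nil))))) (.g (nat_lit 0) (.e (nat_lit 231944) (nat_lit 0) .nil) .nil)))) (.nd (nat_lit 9) 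
(.lf (nat_lit 524660) (.g (nat_lit 1047) (.e (nat_lit 204869) (nat_lit 29) (.e (nat_lit 360475) (nat_lit 8) (.e (nat_lit 557075) (nat_lit 9) .nil))) (.g (nat_lit 0) (.e (nat_lit 231490) (nat_lit 0) .nil) .nil))) 
(.lf (nat_lit 525172) (.g (nat_lit 3250) (.e (nat_lit 204880) (nat_lit 32) (.e (nat_lit 385068) (nat_lit 26) (.e (nat_lit 532530) (nat_lit 9) (.e (nat_lit 336324) (nat_lit 18) (.e (nat_lit 204852) (nat_lit 26) (.e (nat_lit 336324) (nat_lit 18) .nil)))))) (.g (nat_lit 1) (.e (nat_lit 232367) (nat_lit 0) .nil) .nil))))) (.nd (nat_lit 8) (.nd (nat_lit 9) 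
(.lf (nat_lit 524532) (.g (nat_lit 5336) (.e (nat_lit 204869) (nat_lit 29) (.e (nat_lit 360474) (nat_lit 8) (.e (nat_lit 557091) (nat_lit 12) (.e (nat_lit 164017) (nat_lit 44) (.e (nat_lit 688138) (nat_lit 5) (.e (nat_lit 2887) (nat_lit 184) (.e (nat_lit 426136) (nat_lit 3) .nil))))))) (.g (nat_lit 1) (.e (nat_lit 231342) (nat_lit 0) .nil) .nil))) 
(.lf (nat_lit 525044) (.g (nat_lit 2114) (.e (nat_lit 204878) (nat_lit 31) (.e (nat_lit 376842) (nat_lit 11) (.e (nat_lit 426100) (nat_lit 1) (.e (nat_lit 164183) (nat_lit 154) .nil)))) (.g (nat_lit 0) (.e (nat_lit 232140) (nat_lit 0) .nil) .nil)))) (.nd (nat_lit 9) 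
(.lf (nat_lit 524788) (.g (nat_lit 1048) (.e (nat_lit 204869) (nat_lit 29) (.e (nat_lit 360475) (nat_lit 8) (.e (nat_lit 557093) (nat_lit 12) .nil))) (.g (nat_lit 0) (.e (nat_lit 231674) (nat_lit 0) .nil) .nil))) 
(.lf (nat_lit 525300) (.g (nat_lit 2479) (.e (nat_lit 204882) (nat_lit 32) (.e (nat_lit 385066) (nat_lit 26) (.e (nat_lit 532563) (nat_lit 15) (.e (nat_lit 385066) (nat_lit 26) (.e (nat_lit 532533) (nat_lit 9) (.e (nat_lit 336324) (nat_lit 18) .nil)))))) (.g (nat_lit 1) (.e (nat_lit 232707) (nat_lit 0) .nil) .nil))))))))) 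
(.nd (nat_lit 4) (.nd (nat_lit 5) (.nd (nat_lit 6) (.nd (nat_lit 7) (.nd (nat_lit 8) 
(.nd (nat_lit 9) 
(.lf (nat_lit 524300) (.g (nat_lit 3488) (.e (nat_lit 204868) (nat_lit 29) (.e (nat_lit 360475) (nat_lit 8) (.e (nat_lit 557086) (nat_lit 11) (.e (nat_lit 24580) (nat_lit 0) (.e (nat_lit 6617) (nat_lit 357) (.e (nat_lit 2685) (nat_lit 168) .nil)))))) (.g (nat_lit 1) (.e (nat_lit 230955) (nat_lit 0) .nil) .nil))) 
(.lf (nat_lit 524812) (.g (nat_lit 638) (.e (nat_lit 204870) (nat_lit 29) (.e (nat_lit 360473) (nat_lit 8) (.e (nat_lit 557072) (nat_lit 9) .nil))) (.g (nat_lit 0) (.e (nat_lit 231711) (nat_lit 0) .nil) .nil)))) (.nd (nat_lit 9) 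
(.lf (nat_lit 524556) (.g (nat_lit 4393) (.e (nat_lit 204869) (nat_lit 29) (.e (nat_lit 360474) (nat_lit 8) (.e (nat_lit 557091) (nat_lit 12) (.e (nat_lit 164020) (nat_lit 45) (.e (nat_lit 696329) (nat_lit 5) (.e (nat_lit 2842) (nat_lit 184) (.e (nat_lit 426135) (nat_lit 3) .nil))))))) (.g (nat_lit 1) (.e (nat_lit 231368) (nat_lit 0) .nil) .nil))) 
(.lf (nat_lit 525068) (.g (nat_lit 2351) (.e (nat_lit 204879) (nat_lit 32) (.e (nat_lit 385068) (nat_lit 26) (.e (nat_lit 532530) (nat_lit 9) (.e (nat_lit 336322) (nat_lit 18) .nil)))) (.g (nat_lit 0) (.e (nat_lit 232185) (nat_lit 0) .nil) .nil))))) (.nd (nat_lit 8) (.nd (nat_lit 9) 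
(.lf (nat_lit 524428) (.g (nat_lit 169) (.e (nat_lit 204869) (nat_lit 29) (.e (nat_lit 360474) (nat_lit 8) (.e (nat_lit 557073) (nat_lit 9) .nil))) (.g (nat_lit 0) (.e (nat_lit 231193) (nat_lit 0) .nil) .nil))) 
(.lf (nat_lit 524940) (.g (nat_lit 3138) (.e (nat_lit 204876) (nat_lit 31) (.e (nat_lit 376842) (nat_lit 11) (.e (nat_lit 426500) (nat_lit 27) (.e (nat_lit 335986) (nat_lit 1) (.e (nat_lit 57926) (nat_lit 282) (.e (nat_lit 163875) (nat_lit 3) .nil)))))) (.g (nat_lit 1) (.e (nat_lit 231974) (nat_lit 0) .nil) .nil)))) (.nd (nat_lit 9) 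
(.lf (nat_lit 524684) (.g (nat_lit 2897) (.e (nat_lit 204869) (nat_lit 29) (.e (nat_lit 360475) (nat_lit 8) (.e (nat_lit 557087) (nat_lit 11) (.e (nat_lit 24577) (nat_lit 0) (.e (nat_lit 7936) (nat_lit 357) (.e (nat_lit 2684) (nat_lit 168) .nil)))))) (.g (nat_lit 1) (.e (nat_lit 231517) (nat_lit 0) .nil) .nil))) 
(.lf (nat_lit 525196) (.g (nat_lit 1446) (.e (nat_lit 204880) (nat_lit 32) (.e (nat_lit 385094) (nat_lit 49) (.e (nat_lit 778318) (nat_lit 3) (.e (nat_lit 57476) (nat_lit 28) .nil)))) (.g (nat_lit 0) (.e (nat_lit 232403) (nat_lit 0) .nil) .nil)))))) (.nd (nat_lit 7) (.nd (nat_lit 8) (.nd (nat_lit 9) 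
(.lf (nat_lit 524364) (.g (nat_lit 506) (.e (nat_lit 204869) (nat_lit 29) (.e (nat_lit 360467) (nat_lit 3) (.e (nat_lit 516138) (nat_lit 7) .nil))) (.g (nat_lit 0) (.e (nat_lit 231083) (nat_lit 0) .nil) .nil))) 
(.lf (nat_lit 524876) (.g (nat_lit 2293) (.e (nat_lit 204874) (nat_lit 30) (.e (nat_lit 368676) (nat_lit 21) (.e (nat_lit 516129) (nat_lit 3) (.e (nat_lit 221214) (nat_lit 23) .nil)))) (.g (nat_lit 0) (.e (nat_lit 231883) (nat_lit 0) .nil) .nil)))) (.nd (nat_lit 9) 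
(.lf (nat_lit 524620) (.g (nat_lit 3582) (.e (nat_lit 204869) (nat_lit 29) (.e (nat_lit 360474) (nat_lit 8) (.e (nat_lit 557094) (nat_lit 12) (.e (nat_lit 163847) (nat_lit 0) (.e (nat_lit 6255) (nat_lit 337) (.e (nat_lit 2725) (nat_lit 172) (.e (nat_lit 237593) (nat_lit 3) .nil))))))) (.g (nat_lit 1) (.e (nat_lit 231438) (nat_lit 0) .nil) .nil))) 
(.lf (nat_lit 525132) (.g (nat_lit 2913) (.e (nat_lit 204880) (nat_lit 32) (.e (nat_lit 385066) (nat_lit 26) (.e (nat_lit 532564) (nat_lit 15) (.e (nat_lit 385066) (nat_lit 26) (.e (nat_lit 532530) (nat_lit 9) (.e (nat_lit 336325) (nat_lit 18) .nil)))))) (.g (nat_lit 1) (.e (nat_lit 232309) (nat_lit 0) .nil) .nil))))) (.nd (nat_lit 8) (.nd (nat_lit 9) 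
(.lf (nat_lit 524492) (.g (nat_lit 4907) (.e (nat_lit 204869) (nat_lit 29) (.e (nat_lit 360474) (nat_lit 8) (.e (nat_lit 557091) (nat_lit 12) (.e (nat_lit 163843) (nat_lit 0) (.e (nat_lit 6254) (nat_lit 337) (.e (nat_lit 2725) (nat_lit 172) (.e (nat_lit 237594) (nat_lit 3) .nil))))))) (.g (nat_lit 1) (.e (nat_lit 231283) (nat_lit 0) .nil) .nil))) 
(.lf (nat_lit 525004) (.g (nat_lit 3118) (.e (nat_lit 204877) (nat_lit 31) (.e (nat_lit 376842) (nat_lit 11) (.e (nat_lit 426500) (nat_lit 27) (.e (nat_lit 335996) (nat_lit 1) (.e (nat_lit 57929) (nat_lit 282) (.e (nat_lit 163874) (nat_lit 3) .nil)))))) (.g (nat_lit 1) (.e (nat_lit 232082) (nat_lit 0) .nil) .nil)))) (.nd (nat_lit 9) 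
(.lf (nat_lit 524748) (.g (nat_lit 5529) (.e (nat_lit 204869) (nat_lit 29) (.e (nat_lit 360475) (nat_lit 8) (.e (nat_lit 557091) (nat_lit 12) (.e (nat_lit 163843) (nat_lit 0) (.e (nat_lit 6255) (nat_lit 337) (.e (nat_lit 2725) (nat_lit 172) (.e (nat_lit 237594) (nat_lit 3) .nil))))))) (.g (nat_lit 1) (.e (nat_lit 231630) (nat_lit 0) .nil) .nil))) 
(.lf (nat_lit 525260) (.g (nat_lit 3472) (.e (nat_lit 204882) (nat_lit 32) (.e (nat_lit 385065) (nat_lit 26) (.e (nat_lit 532563) (nat_lit 15) (.e (nat_lit 385068) (nat_lit 26) (.e (nat_lit 532534) (nat_lit 9) (.e (nat_lit 336324) (nat_lit 18) .nil)))))) (.g (nat_lit 1) (.e (nat_lit 232659) (nat_lit 0) .nil) .nil))))))) (.nd (nat_lit 6) (.nd (nat_lit 7) (.nd (nat_lit 8) (.nd (nat_lit 9) 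
(.lf (nat_lit 524332) (.g (nat_lit 1130) (.e (nat_lit 204868) (nat_lit 29) (.e (nat_lit 360475) (nat_lit 8) (.e (nat_lit 557090) (nat_lit 12) (.e (nat_lit 164020) (nat_lit 45) .nil)))) (.g (nat_lit 0) (.e (nat_lit 230990) (nat_lit 0) .nil) .nil))) 
(.lf (nat_lit 524844) (.g (nat_lit 950) (.e (nat_lit 204872) (nat_lit 30) (.e (nat_lit 368676) (nat_lit 21) (.e (nat_lit 516131) (nat_lit 3) (.e (nat_lit 221198) (nat_lit 20) .nil)))) (.g (nat_lit 0) (.e (nat_lit 231786) (nat_lit 0) .nil) .nil)))) (.nd (nat_lit 9) 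
(.lf (nat_lit 524588) (.g (nat_lit 3306) (.e (nat_lit 204869) (nat_lit 29) (.e (nat_lit 360474) (nat_lit 8) (.e (nat_lit 557091) (nat_lit 12) (.e (nat_lit 164022) (nat_lit 46) (.e (nat_lit 704629) (nat_lit 9) (.e (nat_lit 391) (nat_lit 32) (.e (nat_lit 426137) (nat_lit 3) .nil))))))) (.g (nat_lit 1) (.e (nat_lit 231403) (nat_lit 0) .nil) .nil))) 
(.lf (nat_lit 525100) (.g (nat_lit 3646) (.e (nat_lit 204880) (nat_lit 32) (.e (nat_lit 385066) (nat_lit 26) (.e (nat_lit 532530) (nat_lit 9) (.e (nat_lit 336326) (nat_lit 18) (.e (nat_lit 204854) (nat_lit 26) (.e (nat_lit 336325) (nat_lit 18) .nil)))))) (.g (nat_lit 1) (.e (nat_lit 232240) (nat_lit 0) .nil) .nil))))) (.nd (nat_lit 8) (.nd (nat_lit 9) 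
(.lf (nat_lit 524460) (.g (nat_lit 3546) (.e (nat_lit 204869) (nat_lit 29) (.e (nat_lit 360474) (nat_lit 8) (.e (nat_lit 557089) (nat_lit 12) (.e (nat_lit 163849) (nat_lit 0) (.e (nat_lit 6420) (nat_lit 341) (.e (nat_lit 163850) (nat_lit 0) (.e (nat_lit 7936) (nat_lit 388) (.e (nat_lit 2684) (nat_lit 168) .nil)))))))) (.g (nat_lit 1) (.e (nat_lit 231233) (nat_lit 0) .nil) .nil))) 
(.lf (nat_lit 524972) (.g (nat_lit 1713) (.e (nat_lit 204877) (nat_lit 31) (.e (nat_lit 376842) (nat_lit 11) (.e (nat_lit 426098) (nat_lit 1) (.e (nat_lit 164180) (nat_lit 154) .nil)))) (.g (nat_lit 0) (.e (nat_lit 232046) (nat_lit 0) .nil) .nil)))) (.nd (nat_lit 9) 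
(.lf (nat_lit 524716) (.g (nat_lit 4054) (.e (nat_lit 204869) (nat_lit 29) (.e (nat_lit 360475) (nat_lit 8) (.e (nat_lit 557089) (nat_lit 12) (.e (nat_lit 164017) (nat_lit 44) (.e (nat_lit 688139) (nat_lit 5) (.e (nat_lit 2887) (nat_lit 184) (.e (nat_lit 433920) (nat_lit 3) .nil))))))) (.g (nat_lit 1) (.e (nat_lit 231552) (nat_lit 0) .nil) .nil))) 
(.lf (nat_lit 525228) (.g (nat_lit 2330) (.e (nat_lit 204881) (nat_lit 32) (.e (nat_lit 385068) (nat_lit 26) (.e (nat_lit 532501) (nat_lit 1) (.e (nat_lit 57852) (nat_lit 252) .nil)))) (.g (nat_lit 0) (.e (nat_lit 232537) (nat_lit 0) .nil) .nil)))))) (.nd (nat_lit 7) (.nd (nat_lit 8) (.nd (nat_lit 9) 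
(.lf (nat_lit 524396) (.g (nat_lit 1711) (.e (nat_lit 204869) (nat_lit 29) (.e (nat_lit 360473) (nat_lit 8) (.e (nat_lit 557087) (nat_lit 11) (.e (nat_lit 24584) (nat_lit 0) .nil)))) (.g (nat_lit 0) (.e (nat_lit 231151) (nat_lit 0) .nil) .nil))) 
(.lf (nat_lit 524908) (.g (nat_lit 834) (.e (nat_lit 204876) (nat_lit 31) (.e (nat_lit 376842) (nat_lit 11) (.e (nat_lit 426098) (nat_lit 1) (.e (nat_lit 164179) (nat_lit 154) .nil)))) (.g (nat_lit 0) (.e (nat_lit 231936) (nat_lit 0) .nil) .nil)))) (.nd (nat_lit 9) 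
(.lf (nat_lit 524652) (.g (nat_lit 4076) (.e (nat_lit 204869) (nat_lit 29) (.e (nat_lit 360475) (nat_lit 8) (.e (nat_lit 557068) (nat_lit 9) (.e (nat_lit 22) (nat_lit 0) (.e (nat_lit 6236) (nat_lit 335) (.e (nat_lit 164359) (nat_lit 246) (.e (nat_lit 2679) (nat_lit 168) .nil))))))) (.g (nat_lit 1) (.e (nat_lit 231481) (nat_lit 0) .nil) .nil))) 
(.lf (nat_lit 525164) (.g (nat_lit 3293) (.e (nat_lit 204880) (nat_lit 32) (.e (nat_lit 385068) (nat_lit 26) (.e (nat_lit 532504) (nat_lit 1) (.e (nat_lit 57852) (nat_lit 252) (.e (nat_lit 57377) (nat_lit 3) (.e (nat_lit 98338) (nat_lit 19) (.e (nat_lit 213013) (nat_lit 9) (.e (nat_lit 2684) (nat_lit 168) .nil)))))))) (.g (nat_lit 1) (.e (nat_lit 232355) (nat_lit 0) .nil) .nil))))) 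
(.nd (nat_lit 8) (.nd (nat_lit 9) 
(.lf (nat_lit 524524) (.g (nat_lit 5385) (.e (nat_lit 204869) (nat_lit 29) (.e (nat_lit 360474) (nat_lit 8) (.e (nat_lit 557091) (nat_lit 12) (.e (nat_lit 163850) (nat_lit 0) (.e (nat_lit 6425) (nat_lit 342) (.e (nat_lit 229402) (nat_lit 12) (.e (nat_lit 426136) (nat_lit 3) .nil))))))) (.g (nat_lit 1) (.e (nat_lit 231329) (nat_lit 0) .nil) .nil))) 
(.lf (nat_lit 525036) (.g (nat_lit 1407) (.e (nat_lit 204877) (nat_lit 31) (.e (nat_lit 376865) (nat_lit 22) (.e (nat_lit 90185) (nat_lit 17) (.e (nat_lit 237585) (nat_lit 1) .nil)))) (.g (nat_lit 0) (.e (nat_lit 232132) (nat_lit 0) .nil) .nil)))) (.nd (nat_lit 9) 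
(.lf (nat_lit 524780) (.g (nat_lit 4147) (.e (nat_lit 204869) (nat_lit 29) (.e (nat_lit 360475) (nat_lit 8) (.e (nat_lit 557091) (nat_lit 12) (.e (nat_lit 164022) (nat_lit 46) (.e (nat_lit 704628) (nat_lit 9) (.e (nat_lit 399) (nat_lit 32) (.e (nat_lit 426137) (nat_lit 3) .nil))))))) (.g (nat_lit 1) (.e (nat_lit 231666) (nat_lit 0) .nil) .nil))) 
(.lf (nat_lit 525292) (.g (nat_lit 2296) (.e (nat_lit 204882) (nat_lit 32) (.e (nat_lit 385066) (nat_lit 26) (.e (nat_lit 532534) (nat_lit 9) (.e (nat_lit 336326) (nat_lit 18) (.e (nat_lit 204854) (nat_lit 26) (.e (nat_lit 343808) (nat_lit 18) .nil)))))) (.g (nat_lit 1) (.e (nat_lit 232695) (nat_lit 0) .nil) .nil)))))))) 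
(.nd (nat_lit 5) (.nd (nat_lit 6) (.nd (nat_lit 7) (.nd (nat_lit 8) (.nd (nat_lit 9) 
(.lf (nat_lit 524316) (.g (nat_lit 3163) (.e (nat_lit 204868) (nat_lit 29) (.e (nat_lit 360475) (nat_lit 8) (.e (nat_lit 557087) (nat_lit 11) (.e (nat_lit 24665) (nat_lit 14) (.e (nat_lit 409344) (nat_lit 3) .nil))))) (.g (nat_lit 1) (.e (nat_lit 230973) (nat_lit 0) .nil) .nil))) 
(.lf (nat_lit 524828) (.g (nat_lit 1231) (.e (nat_lit 204871) (nat_lit 30) (.e (nat_lit 368676) (nat_lit 21) (.e (nat_lit 516131) (nat_lit 3) .nil))) (.g (nat_lit 0) (.e (nat_lit 231746) (nat_lit 0) .nil) .nil)))) (.nd (nat_lit 9) 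
(.lf (nat_lit 524572) (.g (nat_lit 2247) (.e (nat_lit 204869) (nat_lit 29) (.e (nat_lit 360474) (nat_lit 8) (.e (nat_lit 557091) (nat_lit 12) (.e (nat_lit 164020) (nat_lit 45) (.e (nat_lit 696336) (nat_lit 5) (.e (nat_lit 2906) (nat_lit 184) (.e (nat_lit 426137) (nat_lit 3) .nil))))))) (.g (nat_lit 1) (.e (nat_lit 231384) (nat_lit 0) .nil) .nil))) 
(.lf (nat_lit 525084) (.g (nat_lit 2538) (.e (nat_lit 204880) (nat_lit 32) (.e (nat_lit 385066) (nat_lit 26) (.e (nat_lit 532501) (nat_lit 1) (.e (nat_lit 57830) (nat_lit 250) (.e (nat_lit 999) (nat_lit 81) (.e (nat_lit 1256) (nat_lit 92) (.e (nat_lit 98321) (nat_lit 17) (.e (nat_lit 3771) (nat_lit 229) (.e (nat_lit 794673) (nat_lit 23) .nil))))))))) (.g (nat_lit 1) (.e (nat_lit 232211) (nat_lit 0) .nil) .nil))))) 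
(.nd (nat_lit 8) (.nd (nat_lit 9) 
(.lf (nat_lit 524444) (.g (nat_lit 3236) (.e (nat_lit 204869) (nat_lit 29) (.e (nat_lit 360474) (nat_lit 8) (.e (nat_lit 557087) (nat_lit 11) (.e (nat_lit 24663) (nat_lit 14) (.e (nat_lit 401428) (nat_lit 3) .nil))))) (.g (nat_lit 1) (.e (nat_lit 231216) (nat_lit 0) .nil) .nil))) 
(.lf (nat_lit 524956) (.g (nat_lit 2352) (.e (nat_lit 204877) (nat_lit 31) (.e (nat_lit 376835) (nat_lit 0) (.e (nat_lit 3253) (nat_lit 197) (.e (nat_lit 532513) (nat_lit 3) (.e (nat_lit 114697) (nat_lit 11) (.e (nat_lit 426138) (nat_lit 3) .nil)))))) (.g (nat_lit 1) (.e (nat_lit 232008) (nat_lit 0) .nil) .nil)))) (.nd (nat_lit 9) 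
(.lf (nat_lit 524700) (.g (nat_lit 227) (.e (nat_lit 204869) (nat_lit 29) (.e (nat_lit 360475) (nat_lit 8) (.e (nat_lit 557089) (nat_lit 12) .nil))) (.g (nat_lit 0) (.e (nat_lit 231533) (nat_lit 0) .nil) .nil))) 
(.lf (nat_lit 525212) (.g (nat_lit 2227) (.e (nat_lit 204881) (nat_lit 32) (.e (nat_lit 385066) (nat_lit 26) (.e (nat_lit 532534) (nat_lit 9) (.e (nat_lit 336316) (nat_lit 17) (.e (nat_lit 196681) (nat_lit 17) (.e (nat_lit 139008) (nat_lit 18) .nil)))))) (.g (nat_lit 1) (.e (nat_lit 232520) (nat_lit 0) .nil) .nil)))))) (.nd (nat_lit 7) (.nd (nat_lit 8) (.nd (nat_lit 9) 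
(.lf (nat_lit 524380) (.g (nat_lit 4228) (.e (nat_lit 204869) (nat_lit 29) (.e (nat_lit 360472) (nat_lit 8) (.e (nat_lit 557087) (nat_lit 11) (.e (nat_lit 24665) (nat_lit 14) (.e (nat_lit 401427) (nat_lit 3) .nil))))) (.g (nat_lit 1) (.e (nat_lit 231135) (nat_lit 0) .nil) .nil))) 
(.lf (nat_lit 524892) (.g (nat_lit 1432) (.e (nat_lit 204876) (nat_lit 31) (.e (nat_lit 376835) (nat_lit 0) (.e (nat_lit 3253) (nat_lit 197) (.e (nat_lit 532513) (nat_lit 3) (.e (nat_lit 114695) (nat_lit 11) .nil))))) (.g (nat_lit 0) (.e (nat_lit 231904) (nat_lit 0) .nil) .nil)))) (.nd (nat_lit 9) 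
(.lf (nat_lit 524636) (.g (nat_lit 2750) (.e (nat_lit 204869) (nat_lit 29) (.e (nat_lit 360474) (nat_lit 8) (.e (nat_lit 557094) (nat_lit 12) (.e (nat_lit 164022) (nat_lit 46) (.e (nat_lit 704629) (nat_lit 9) (.e (nat_lit 389) (nat_lit 32) (.e (nat_lit 426137) (nat_lit 3) .nil))))))) (.g (nat_lit 1) (.e (nat_lit 231454) (nat_lit 0) .nil) .nil))) 
(.lf (nat_lit 525148) (.g (nat_lit 4040) (.e (nat_lit 204880) (nat_lit 32) (.e (nat_lit 385068) (nat_lit 26) (.e (nat_lit 532499) (nat_lit 1) (.e (nat_lit 57847) (nat_lit 252) (.e (nat_lit 57377) (nat_lit 3) .nil))))) (.g (nat_lit 0) (.e (nat_lit 232326) (nat_lit 0) .nil) .nil))))) (.nd (nat_lit 8) (.nd (nat_lit 9) 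
(.lf (nat_lit 524508) (.g (nat_lit 4277) (.e (nat_lit 204869) (nat_lit 29) (.e (nat_lit 360474) (nat_lit 8) (.e (nat_lit 557091) (nat_lit 12) (.e (nat_lit 163847) (nat_lit 0) (.e (nat_lit 6254) (nat_lit 337) (.e (nat_lit 2725) (nat_lit 172) (.e (nat_lit 237593) (nat_lit 3) .nil))))))) (.g (nat_lit 1) (.e (nat_lit 231306) (nat_lit 0) .nil) .nil))) 
(.lf (nat_lit 525020) (.g (nat_lit 483) (.e (nat_lit 204877) (nat_lit 31) (.e (nat_lit 376865) (nat_lit 22) (.e (nat_lit 90172) (nat_lit 14) .nil))) (.g (nat_lit 0) (.e (nat_lit 232112) (nat_lit 0) .nil) .nil)))) (.nd (nat_lit 9) 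
(.lf (nat_lit 524764) (.g (nat_lit 4866) (.e (nat_lit 204869) (nat_lit 29) (.e (nat_lit 360475) (nat_lit 8) (.e (nat_lit 557091) (nat_lit 12) (.e (nat_lit 163850) (nat_lit 0) (.e (nat_lit 6425) (nat_lit 342) (.e (nat_lit 229401) (nat_lit 12) (.e (nat_lit 426136) (nat_lit 3) .nil))))))) (.g (nat_lit 1) (.e (nat_lit 231648) (nat_lit 0) .nil) .nil))) 
(.lf (nat_lit 525276) (.g (nat_lit 781) (.e (nat_lit 204882) (nat_lit 32) (.e (nat_lit 385066) (nat_lit 26) (.e (nat_lit 532531) (nat_lit 9) (.e (nat_lit 336325) (nat_lit 18) .nil)))) (.g (nat_lit 0) (.e (nat_lit 232678) (nat_lit 0) .nil) .nil))))))) (.nd (nat_lit 6) (.nd (nat_lit 7) (.nd (nat_lit 8) (.nd (nat_lit 9) 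
(.lf (nat_lit 524348) (.g (nat_lit 2901) (.e (nat_lit 204868) (nat_lit 29) (.e (nat_lit 360475) (nat_lit 8) (.e (nat_lit 557091) (nat_lit 12) (.e (nat_lit 163850) (nat_lit 0) (.e (nat_lit 6425) (nat_lit 342) .nil))))) (.g (nat_lit 0) (.e (nat_lit 231007) (nat_lit 0) .nil) .nil))) 
(.lf (nat_lit 524860) (.g (nat_lit 1038) (.e (nat_lit 204873) (nat_lit 30) (.e (nat_lit 368676) (nat_lit 21) (.e (nat_lit 516118) (nat_lit 1) .nil))) (.g (nat_lit 0) (.e (nat_lit 231833) (nat_lit 0) .nil) .nil)))) (.nd (nat_lit 9) 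
(.lf (nat_lit 524604) (.g (nat_lit 4076) (.e (nat_lit 204869) (nat_lit 29) (.e (nat_lit 360474) (nat_lit 8) (.e (nat_lit 557093) (nat_lit 12) (.e (nat_lit 164022) (nat_lit 46) (.e (nat_lit 704629) (nat_lit 9) (.e (nat_lit 370) (nat_lit 32) (.e (nat_lit 426135) (nat_lit 3) .nil))))))) (.g (nat_lit 1) (.e (nat_lit 231422) (nat_lit 0) .nil) .nil))) 
(.lf (nat_lit 525116) (.g (nat_lit 3080) (.e (nat_lit 204880) (nat_lit 32) (.e (nat_lit 385066) (nat_lit 26) (.e (nat_lit 532534) (nat_lit 9) (.e (nat_lit 336325) (nat_lit 18) (.e (nat_lit 204852) (nat_lit 26) (.e (nat_lit 336325) (nat_lit 18) .nil)))))) (.g (nat_lit 1) (.e (nat_lit 232282) (nat_lit 0) .nil) .nil))))) (.nd (nat_lit 8) (.nd (nat_lit 9) 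
(.lf (nat_lit 524476) (.g (nat_lit 3958) (.e (nat_lit 204869) (nat_lit 29) (.e (nat_lit 360474) (nat_lit 8) (.e (nat_lit 557091) (nat_lit 12) (.e (nat_lit 163841) (nat_lit 0) (.e (nat_lit 6252) (nat_lit 337) (.e (nat_lit 2725) (nat_lit 172) (.e (nat_lit 237592) (nat_lit 3) .nil))))))) (.g (nat_lit 1) (.e (nat_lit 231250) (nat_lit 0) .nil) .nil))) 
(.lf (nat_lit 524988) (.g (nat_lit 1287) (.e (nat_lit 204877) (nat_lit 31) (.e (nat_lit 376842) (nat_lit 11) (.e (nat_lit 426408) (nat_lit 15) (.e (nat_lit 6208) (nat_lit 333) .nil)))) (.g (nat_lit 0) (.e (nat_lit 232065) (nat_lit 0) .nil) .nil)))) (.nd (nat_lit 9) 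
(.lf (nat_lit 524732) (.g (nat_lit 5202) (.e (nat_lit 204869) (nat_lit 29) (.e (nat_lit 360475) (nat_lit 8) (.e (nat_lit 557090) (nat_lit 12) (.e (nat_lit 163844) (nat_lit 0) (.e (nat_lit 6254) (nat_lit 337) (.e (nat_lit 2725) (nat_lit 172) (.e (nat_lit 237593) (nat_lit 3) .nil))))))) (.g (nat_lit 1) (.e (nat_lit 231598) (nat_lit 0) .nil) .nil))) 
(.lf (nat_lit 525244) (.g (nat_lit 2781) (.e (nat_lit 204881) (nat_lit 32) (.e (nat_lit 385109) (nat_lit 51) (.e (nat_lit 794665) (nat_lit 22) (.e (nat_lit 196654) (nat_lit 11) (.e (nat_lit 16436) (nat_lit 9) (.e (nat_lit 426131) (nat_lit 3) .nil)))))) (.g (nat_lit 1) (.e (nat_lit 232598) (nat_lit 0) .nil) .nil)))))) (.nd (nat_lit 7) (.nd (nat_lit 8) (.nd (nat_lit 9) 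
(.lf (nat_lit 524412) (.g (nat_lit 2524) (.e (nat_lit 204869) (nat_lit 29) (.e (nat_lit 360473) (nat_lit 8) (.e (nat_lit 557091) (nat_lit 12) (.e (nat_lit 164020) (nat_lit 45) (.e (nat_lit 696343) (nat_lit 8) .nil))))) (.g (nat_lit 0) (.e (nat_lit 231167) (nat_lit 0) .nil) .nil))) 
(.lf (nat_lit 524924) (.g (nat_lit 1549) (.e (nat_lit 204876) (nat_lit 31) (.e (nat_lit 376842) (nat_lit 11) (.e (nat_lit 426406) (nat_lit 15) (.e (nat_lit 6207) (nat_lit 333) (.e (nat_lit 57879) (nat_lit 270) (.e (nat_lit 174) (nat_lit 12) .nil)))))) (.g (nat_lit 1) (.e (nat_lit 231953) (nat_lit 0) .nil) .nil)))) (.nd (nat_lit 9) 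
(.lf (nat_lit 524668) (.g (nat_lit 1190) (.e (nat_lit 204869) (nat_lit 29) (.e (nat_lit 360475) (nat_lit 8) (.e (nat_lit 557085) (nat_lit 11) (.e (nat_lit 24580) (nat_lit 0) .nil)))) (.g (nat_lit 0) (.e (nat_lit 231501) (nat_lit 0) .nil) .nil))) 
(.lf (nat_lit 525180) (.g (nat_lit 1744) (.e (nat_lit 204880) (nat_lit 32) (.e (nat_lit 385068) (nat_lit 26) (.e (nat_lit 532534) (nat_lit 9) (.e (nat_lit 336322) (nat_lit 18) .nil)))) (.g (nat_lit 0) (.e (nat_lit 232375) (nat_lit 0) .nil) .nil))))) (.nd (nat_lit 8) (.nd (nat_lit 9) 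
(.lf (nat_lit 524540) (.g (nat_lit 4460) (.e (nat_lit 204869) (nat_lit 29) (.e (nat_lit 360474) (nat_lit 8) (.e (nat_lit 557091) (nat_lit 12) (.e (nat_lit 164020) (nat_lit 45) (.e (nat_lit 696327) (nat_lit 5) (.e (nat_lit 2842) (nat_lit 184) (.e (nat_lit 426135) (nat_lit 3) .nil))))))) (.g (nat_lit 1) (.e (nat_lit 231352) (nat_lit 0) .nil) .nil))) 
(.lf (nat_lit 525052) (.g (nat_lit 1160) (.e (nat_lit 204879) (nat_lit 32) (.e (nat_lit 385066) (nat_lit 26) (.e (nat_lit 532530) (nat_lit 9) (.e (nat_lit 336316) (nat_lit 17) .nil)))) (.g (nat_lit 0) (.e (nat_lit 232169) (nat_lit 0) .nil) .nil)))) (.nd (nat_lit 9) 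
(.lf (nat_lit 524796) (.g (nat_lit 2396) (.e (nat_lit 204870) (nat_lit 29) (.e (nat_lit 360463) (nat_lit 1) (.e (nat_lit 499846) (nat_lit 5) (.e (nat_lit 2829) (nat_lit 182) (.e (nat_lit 409646) (nat_lit 18) (.e (nat_lit 303119) (nat_lit 3) .nil)))))) (.g (nat_lit 1) (.e (nat_lit 231688) (nat_lit 0) .nil) .nil))) 
(.lf (nat_lit 525308) (.g (nat_lit 1057) (.e (nat_lit 204882) (nat_lit 32) (.e (nat_lit 385067) (nat_lit 26) (.e (nat_lit 532531) (nat_lit 9) (.e (nat_lit 336324) (nat_lit 18) (.e (nat_lit 204852) (nat_lit 26) .nil))))) (.g (nat_lit 0) (.e (nat_lit 232724) (nat_lit 0) .nil) .nil))))))))))) 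
(.nd (nat_lit 2) (.nd (nat_lit 3) (.nd (nat_lit 4) (.nd (nat_lit 5) (.nd (nat_lit 6) 
(.nd (nat_lit 7) (.nd (nat_lit 8) (.nd (nat_lit 9) 
(.lf (nat_lit 524290) (.g (nat_lit 1099) (.e (nat_lit 204868) (nat_lit 29) (.e (nat_lit 360475) (nat_lit 8) (.e (nat_lit 557067) (nat_lit 9) .nil))) (.g (nat_lit 0) (.e (nat_lit 230942) (nat_lit 0) .nil) .nil))) 
(.lf (nat_lit 524802) (.g (nat_lit 2675) (.e (nat_lit 204870) (nat_lit 29) (.e (nat_lit 360467) (nat_lit 3) (.e (nat_lit 516139) (nat_lit 7) (.e (nat_lit 409616) (nat_lit 10) (.e (nat_lit 5616) (nat_lit 312) .nil))))) (.g (nat_lit 0) (.e (nat_lit 231696) (nat_lit 0) .nil) .nil)))) (.nd (nat_lit 9) 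
(.lf (nat_lit 524546) (.g (nat_lit 3651) (.e (nat_lit 204869) (nat_lit 29) (.e (nat_lit 360474) (nat_lit 8) (.e (nat_lit 557091) (nat_lit 12) (.e (nat_lit 164020) (nat_lit 45) (.e (nat_lit 696327) (nat_lit 5) (.e (nat_lit 2886) (nat_lit 184) (.e (nat_lit 426136) (nat_lit 3) .nil))))))) (.g (nat_lit 1) (.e (nat_lit 231358) (nat_lit 0) .nil) .nil))) 
(.lf (nat_lit 525058) (.g (nat_lit 2030) (.e (nat_lit 204879) (nat_lit 32) (.e (nat_lit 385066) (nat_lit 26) (.e (nat_lit 532534) (nat_lit 9) (.e (nat_lit 336316) (nat_lit 17) (.e (nat_lit 196665) (nat_lit 13) .nil))))) (.g (nat_lit 0) (.e (nat_lit 232175) (nat_lit 0) .nil) .nil))))) (.nd (nat_lit 8) (.nd (nat_lit 9) 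
(.lf (nat_lit 524418) (.g (nat_lit 1843) (.e (nat_lit 204869) (nat_lit 29) (.e (nat_lit 360473) (nat_lit 8) (.e (nat_lit 557093) (nat_lit 12) (.e (nat_lit 164022) (nat_lit 46) (.e (nat_lit 704629) (nat_lit 9) .nil))))) (.g (nat_lit 0) (.e (nat_lit 231173) (nat_lit 0) .nil) .nil))) 
(.lf (nat_lit 524930) (.g (nat_lit 2721) (.e (nat_lit 204876) (nat_lit 31) (.e (nat_lit 376842) (nat_lit 11) (.e (nat_lit 426408) (nat_lit 15) (.e (nat_lit 6209) (nat_lit 333) (.e (nat_lit 57881) (nat_lit 270) (.e (nat_lit 174) (nat_lit 12) .nil)))))) (.g (nat_lit 1) (.e (nat_lit 231961) (nat_lit 0) .nil) .nil)))) (.nd (nat_lit 9) 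
(.lf (nat_lit 524674) (.g (nat_lit 4097) (.e (nat_lit 204869) (nat_lit 29) (.e (nat_lit 360475) (nat_lit 8) (.e (nat_lit 557086) (nat_lit 11) (.e (nat_lit 24580) (nat_lit 0) (.e (nat_lit 6665) (nat_lit 357) (.e (nat_lit 7936) (nat_lit 168) .nil)))))) (.g (nat_lit 1) (.e (nat_lit 231507) (nat_lit 0) .nil) .nil))) 
(.lf (nat_lit 525186) (.g (nat_lit 3449) (.e (nat_lit 204880) (nat_lit 32) (.e (nat_lit 385068) (nat_lit 26) (.e (nat_lit 532563) (nat_lit 15) (.e (nat_lit 385066) (nat_lit 26) (.e (nat_lit 532534) (nat_lit 9) (.e (nat_lit 336324) (nat_lit 18) .nil)))))) (.g (nat_lit 1) (.e (nat_lit 232383) (nat_lit 0) .nil) .nil)))))) (.nd (nat_lit 7) (.nd (nat_lit 8) (.nd (nat_lit 9) 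
(.lf (nat_lit 524354) (.g (nat_lit 536) (.e (nat_lit 204869) (nat_lit 29) (.e (nat_lit 360451) (nat_lit 0) (.e (nat_lit 7936) (nat_lit 253) .nil))) (.g (nat_lit 0) (.e (nat_lit 231029) (nat_lit 0) .nil) .nil))) 
(.lf (nat_lit 524866) (.g (nat_lit 600) (.e (nat_lit 204873) (nat_lit 30) (.e (nat_lit 368676) (nat_lit 21) (.e (nat_lit 516129) (nat_lit 3) .nil))) (.g (nat_lit 0) (.e (nat_lit 231845) (nat_lit 0) .nil) .nil)))) (.nd (nat_lit 9) 
(.lf (nat_lit 524610) (.g (nat_lit 4805) (.e (nat_lit 204869) (nat_lit 29) (.e (nat_lit 360474) (nat_lit 8) (.e (nat_lit 557093) (nat_lit 12) (.e (nat_lit 164022) (nat_lit 46) (.e (nat_lit 704629) (nat_lit 9) (.e (nat_lit 411) (nat_lit 32) (.e (nat_lit 426136) (nat_lit 3) .nil))))))) (.g (nat_lit 1) (.e (nat_lit 231428) (nat_lit 0) .nil) .nil))) 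
(.lf (nat_lit 525122) (.g (nat_lit 3499) (.e (nat_lit 204880) (nat_lit 32) (.e (nat_lit 385066) (nat_lit 26) (.e (nat_lit 532534) (nat_lit 9) (.e (nat_lit 336326) (nat_lit 18) (.e (nat_lit 204854) (nat_lit 26) (.e (nat_lit 336325) (nat_lit 18) .nil)))))) (.g (nat_lit 1) (.e (nat_lit 232288) (nat_lit 0) .nil) .nil))))) (.nd (nat_lit 8) (.nd (nat_lit 9) 
(.lf (nat_lit 524482) (.g (nat_lit 4209) (.e (nat_lit 204869) (nat_lit 29) (.e (nat_lit 360474) (nat_lit 8) (.e (nat_lit 557091) (nat_lit 12) (.e (nat_lit 163841) (nat_lit 0) (.e (nat_lit 6255) (nat_lit 337) (.e (nat_lit 2725) (nat_lit 172) (.e (nat_lit 237593) (nat_lit 3) .nil))))))) (.g (nat_lit 1) (.e (nat_lit 231256) (nat_lit 0) .nil) .nil))) 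
(.lf (nat_lit 524994) (.g (nat_lit 2773) (.e (nat_lit 204877) (nat_lit 31) (.e (nat_lit 376842) (nat_lit 11) (.e (nat_lit 426497) (nat_lit 27) (.e (nat_lit 335986) (nat_lit 1) (.e (nat_lit 57926) (nat_lit 282) (.e (nat_lit 163875) (nat_lit 3) .nil)))))) (.g (nat_lit 1) (.e (nat_lit 232072) (nat_lit 0) .nil) .nil)))) (.nd (nat_lit 9) 
(.lf (nat_lit 524738) (.g (nat_lit 3217) (.e (nat_lit 204869) (nat_lit 29) (.e (nat_lit 360475) (nat_lit 8) (.e (nat_lit 557090) (nat_lit 12) (.e (nat_lit 164020) (nat_lit 45) (.e (nat_lit 696343) (nat_lit 8) (.e (nat_lit 172067) (nat_lit 3) .nil)))))) (.g (nat_lit 1) (.e (nat_lit 231617) (nat_lit 0) .nil) .nil))) 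
(.lf (nat_lit 525250) (.g (nat_lit 1025) (.e (nat_lit 204882) (nat_lit 32) (.e (nat_lit 385065) (nat_lit 26) (.e (nat_lit 532530) (nat_lit 9) (.e (nat_lit 336326) (nat_lit 18) .nil)))) (.g (nat_lit 0) (.e (nat_lit 232644) (nat_lit 0) .nil) .nil))))))) (.nd (nat_lit 6) (.nd (nat_lit 7) (.nd (nat_lit 8) (.nd (nat_lit 9) 
(.lf (nat_lit 524322) (.g (nat_lit 2221) (.e (nat_lit 204868) (nat_lit 29) (.e (nat_lit 360475) (nat_lit 8) (.e (nat_lit 557089) (nat_lit 12) (.e (nat_lit 163847) (nat_lit 0) .nil)))) (.g (nat_lit 0) (.e (nat_lit 230979) (nat_lit 0) .nil) .nil))) 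
(.lf (nat_lit 524834) (.g (nat_lit 730) (.e (nat_lit 204872) (nat_lit 30) (.e (nat_lit 368676) (nat_lit 21) (.e (nat_lit 516115) (nat_lit 1) .nil))) (.g (nat_lit 0) (.e (nat_lit 231758) (nat_lit 0) .nil) .nil)))) (.nd (nat_lit 9) 
(.lf (nat_lit 524578) (.g (nat_lit 2984) (.e (nat_lit 204869) (nat_lit 29) (.e (nat_lit 360474) (nat_lit 8) (.e (nat_lit 557091) (nat_lit 12) (.e (nat_lit 164022) (nat_lit 46) (.e (nat_lit 704626) (nat_lit 9) (.e (nat_lit 398) (nat_lit 32) (.e (nat_lit 426137) (nat_lit 3) .nil))))))) (.g (nat_lit 1) (.e (nat_lit 231393) (nat_lit 0) .nil) .nil))) 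
(.lf (nat_lit 525090) (.g (nat_lit 3068) (.e (nat_lit 204880) (nat_lit 32) (.e (nat_lit 385066) (nat_lit 26) (.e (nat_lit 532504) (nat_lit 1) (.e (nat_lit 57854) (nat_lit 252) (.e (nat_lit 57378) (nat_lit 3) (.e (nat_lit 98338) (nat_lit 19) (.e (nat_lit 213013) (nat_lit 9) (.e (nat_lit 2684) (nat_lit 168) .nil)))))))) (.g (nat_lit 1) (.e (nat_lit 232229) (nat_lit 0) .nil) .nil))))) 
(.nd (nat_lit 8) (.nd (nat_lit 9) 
(.lf (nat_lit 524450) (.g (nat_lit 4753) (.e (nat_lit 204869) (nat_lit 29) (.e (nat_lit 360474) (nat_lit 8) (.e (nat_lit 557089) (nat_lit 12) (.e (nat_lit 163843) (nat_lit 0) (.e (nat_lit 6255) (nat_lit 337) (.e (nat_lit 2725) (nat_lit 172) (.e (nat_lit 237592) (nat_lit 3) .nil))))))) (.g (nat_lit 1) (.e (nat_lit 231222) (nat_lit 0) .nil) .nil))) 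
(.lf (nat_lit 524962) (.g (nat_lit 3187) (.e (nat_lit 204877) (nat_lit 31) (.e (nat_lit 376835) (nat_lit 0) (.e (nat_lit 3305) (nat_lit 202) (.e (nat_lit 573485) (nat_lit 13) (.e (nat_lit 65628) (nat_lit 14) (.e (nat_lit 401428) (nat_lit 3) .nil)))))) (.g (nat_lit 1) (.e (nat_lit 232024) (nat_lit 0) .nil) .nil)))) (.nd (nat_lit 9) 
(.lf (nat_lit 524706) (.g (nat_lit 3229) (.e (nat_lit 204869) (nat_lit 29) (.e (nat_lit 360475) (nat_lit 8) (.e (nat_lit 557089) (nat_lit 12) (.e (nat_lit 163843) (nat_lit 0) (.e (nat_lit 6420) (nat_lit 341) (.e (nat_lit 163908) (nat_lit 12) (.e (nat_lit 426132) (nat_lit 3) .nil))))))) (.g (nat_lit 1) (.e (nat_lit 231540) (nat_lit 0) .nil) .nil))) 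
(.lf (nat_lit 525218) (.g (nat_lit 1732) (.e (nat_lit 204881) (nat_lit 32) (.e (nat_lit 385066) (nat_lit 26) (.e (nat_lit 532534) (nat_lit 9) (.e (nat_lit 336326) (nat_lit 18) (.e (nat_lit 204850) (nat_lit 26) .nil))))) (.g (nat_lit 0) (.e (nat_lit 232526) (nat_lit 0) .nil) .nil)))))) (.nd (nat_lit 7) (.nd (nat_lit 8) (.nd (nat_lit 9) 
(.lf (nat_lit 524386) (.g (nat_lit 1683) (.e (nat_lit 204869) (nat_lit 29) (.e (nat_lit 360472) (nat_lit 8) (.e (nat_lit 557090) (nat_lit 12) (.e (nat_lit 163847) (nat_lit 0) .nil)))) (.g (nat_lit 0) (.e (nat_lit 231141) (nat_lit 0) .nil) .nil))) 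
(.lf (nat_lit 524898) (.g (nat_lit 3508) (.e (nat_lit 204876) (nat_lit 31) (.e (nat_lit 376835) (nat_lit 0) (.e (nat_lit 3304) (nat_lit 202) (.e (nat_lit 573482) (nat_lit 13) (.e (nat_lit 65630) (nat_lit 14) (.e (nat_lit 401428) (nat_lit 3) .nil)))))) (.g (nat_lit 1) (.e (nat_lit 231911) (nat_lit 0) .nil) .nil)))) (.nd (nat_lit 9) 
(.lf (nat_lit 524642) (.g (nat_lit 360) (.e (nat_lit 204869) (nat_lit 29) (.e (nat_lit 360475) (nat_lit 8) (.e (nat_lit 557065) (nat_lit 9) .nil))) (.g (nat_lit 0) (.e (nat_lit 231466) (nat_lit 0) .nil) .nil))) 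
(.lf (nat_lit 525154) (.g (nat_lit 3272) (.e (nat_lit 204880) (nat_lit 32) (.e (nat_lit 385068) (nat_lit 26) (.e (nat_lit 532501) (nat_lit 1) (.e (nat_lit 57852) (nat_lit 252) (.e (nat_lit 57361) (nat_lit 0) .nil))))) (.g (nat_lit 0) (.e (nat_lit 232337) (nat_lit 0) .nil) .nil))))) (.nd (nat_lit 8) (.nd (nat_lit 9) 
(.lf (nat_lit 524514) (.g (nat_lit 4248) (.e (nat_lit 204869) (nat_lit 29) (.e (nat_lit 360474) (nat_lit 8) (.e (nat_lit 557091) (nat_lit 12) (.e (nat_lit 163849) (nat_lit 0) (.e (nat_lit 6254) (nat_lit 337) (.e (nat_lit 2725) (nat_lit 172) (.e (nat_lit 237592) (nat_lit 3) .nil))))))) (.g (nat_lit 1) (.e (nat_lit 231312) (nat_lit 0) .nil) .nil))) 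
(.lf (nat_lit 525026) (.g (nat_lit 2413) (.e (nat_lit 204877) (nat_lit 31) (.e (nat_lit 376865) (nat_lit 22) (.e (nat_lit 90172) (nat_lit 14) (.e (nat_lit 180233) (nat_lit 0) (.e (nat_lit 5949) (nat_lit 322) (.e (nat_lit 65280) (nat_lit 64) .nil)))))) (.g (nat_lit 1) (.e (nat_lit 232119) (nat_lit 0) .nil) .nil)))) (.nd (nat_lit 9) 
(.lf (nat_lit 524770) (.g (nat_lit 3907) (.e (nat_lit 204869) (nat_lit 29) (.e (nat_lit 360475) (nat_lit 8) (.e (nat_lit 557091) (nat_lit 12) (.e (nat_lit 164018) (nat_lit 45) (.e (nat_lit 696330) (nat_lit 5) (.e (nat_lit 2884) (nat_lit 184) (.e (nat_lit 426140) (nat_lit 3) .nil))))))) (.g (nat_lit 1) (.e (nat_lit 231656) (nat_lit 0) .nil) .nil))) 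
(.lf (nat_lit 525282) (.g (nat_lit 2554) (.e (nat_lit 204882) (nat_lit 32) (.e (nat_lit 385066) (nat_lit 26) (.e (nat_lit 532532) (nat_lit 9) (.e (nat_lit 336326) (nat_lit 18) (.e (nat_lit 204852) (nat_lit 26) (.e (nat_lit 336324) (nat_lit 18) .nil)))))) (.g (nat_lit 1) (.e (nat_lit 232684) (nat_lit 0) .nil) .nil)))))))) 
(.nd (nat_lit 5) (.nd (nat_lit 6) (.nd (nat_lit 7) (.nd (nat_lit 8) (.nd (nat_lit 9) 
(.lf (nat_lit 524306) (.g (nat_lit 2155) (.e (nat_lit 204868) (nat_lit 29) (.e (nat_lit 360475) (nat_lit 8) (.e (nat_lit 557087) (nat_lit 11) (.e (nat_lit 24583) (nat_lit 0) .nil)))) (.g (nat_lit 0) (.e (nat_lit 230962) (nat_lit 0) .nil) .nil))) 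
(.lf (nat_lit 524818) (.g (nat_lit 1509) (.e (nat_lit 204870) (nat_lit 29) (.e (nat_lit 360473) (nat_lit 8) (.e (nat_lit 557091) (nat_lit 12) (.e (nat_lit 164022) (nat_lit 46) .nil)))) (.g (nat_lit 0) (.e (nat_lit 231721) (nat_lit 0) .nil) .nil)))) (.nd (nat_lit 9) 
(.lf (nat_lit 524562) (.g (nat_lit 4916) (.e (nat_lit 204869) (nat_lit 29) (.e (nat_lit 360474) (nat_lit 8) (.e (nat_lit 557091) (nat_lit 12) (.e (nat_lit 164020) (nat_lit 45) (.e (nat_lit 696330) (nat_lit 5) (.e (nat_lit 2878) (nat_lit 184) (.e (nat_lit 426135) (nat_lit 3) .nil))))))) (.g (nat_lit 1) (.e (nat_lit 231374) (nat_lit 0) .nil) .nil))) 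
(.lf (nat_lit 525074) (.g (nat_lit 1763) (.e (nat_lit 204879) (nat_lit 32) (.e (nat_lit 385068) (nat_lit 26) (.e (nat_lit 532534) (nat_lit 9) (.e (nat_lit 336326) (nat_lit 18) .nil)))) (.g (nat_lit 0) (.e (nat_lit 232191) (nat_lit 0) .nil) .nil))))) (.nd (nat_lit 8) (.nd (nat_lit 9) 
(.lf (nat_lit 524434) (.g (nat_lit 3597) (.e (nat_lit 204869) (nat_lit 29) (.e (nat_lit 360474) (nat_lit 8) (.e (nat_lit 557085) (nat_lit 11) (.e (nat_lit 24580) (nat_lit 0) (.e (nat_lit 6624) (nat_lit 357) (.e (nat_lit 2675) (nat_lit 168) .nil)))))) (.g (nat_lit 1) (.e (nat_lit 231205) (nat_lit 0) .nil) .nil))) 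
(.lf (nat_lit 524946) (.g (nat_lit 1355) (.e (nat_lit 204876) (nat_lit 31) (.e (nat_lit 376865) (nat_lit 22) (.e (nat_lit 90185) (nat_lit 17) (.e (nat_lit 237584) (nat_lit 1) .nil)))) (.g (nat_lit 0) (.e (nat_lit 231989) (nat_lit 0) .nil) .nil)))) (.nd (nat_lit 9) 
(.lf (nat_lit 524690) (.g (nat_lit 3389) (.e (nat_lit 204869) (nat_lit 29) (.e (nat_lit 360475) (nat_lit 8) (.e (nat_lit 557087) (nat_lit 11) (.e (nat_lit 24584) (nat_lit 0) (.e (nat_lit 6677) (nat_lit 357) (.e (nat_lit 2681) (nat_lit 168) .nil)))))) (.g (nat_lit 1) (.e (nat_lit 231523) (nat_lit 0) .nil) .nil))) 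
(.lf (nat_lit 525202) (.g (nat_lit 3208) (.e (nat_lit 204881) (nat_lit 32) (.e (nat_lit 385066) (nat_lit 26) (.e (nat_lit 532530) (nat_lit 9) (.e (nat_lit 336324) (nat_lit 18) (.e (nat_lit 204852) (nat_lit 26) (.e (nat_lit 336324) (nat_lit 18) .nil)))))) (.g (nat_lit 1) (.e (nat_lit 232506) (nat_lit 0) .nil) .nil)))))) (.nd (nat_lit 7) (.nd (nat_lit 8) (.nd (nat_lit 9) 
(.lf (nat_lit 524370) (.g (nat_lit 4039) (.e (nat_lit 204869) (nat_lit 29) (.e (nat_lit 360468) (nat_lit 3) (.e (nat_lit 516139) (nat_lit 7) (.e (nat_lit 409623) (nat_lit 10) (.e (nat_lit 5664) (nat_lit 312) (.e (nat_lit 2679) (nat_lit 168) .nil)))))) (.g (nat_lit 1) (.e (nat_lit 231114) (nat_lit 0) .nil) .nil))) 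
(.lf (nat_lit 524882) (.g (nat_lit 1175) (.e (nat_lit 204875) (nat_lit 31) (.e (nat_lit 376842) (nat_lit 11) (.e (nat_lit 426100) (nat_lit 1) .nil))) (.g (nat_lit 0) (.e (nat_lit 231889) (nat_lit 0) .nil) .nil)))) (.nd (nat_lit 9) 
(.lf (nat_lit 524626) (.g (nat_lit 2817) (.e (nat_lit 204869) (nat_lit 29) (.e (nat_lit 360474) (nat_lit 8) (.e (nat_lit 557094) (nat_lit 12) (.e (nat_lit 164022) (nat_lit 46) (.e (nat_lit 704626) (nat_lit 9) (.e (nat_lit 416) (nat_lit 32) (.e (nat_lit 426137) (nat_lit 3) .nil))))))) (.g (nat_lit 1) (.e (nat_lit 231444) (nat_lit 0) .nil) .nil))) 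
(.lf (nat_lit 525138) (.g (nat_lit 3344) (.e (nat_lit 204880) (nat_lit 32) (.e (nat_lit 385066) (nat_lit 26) (.e (nat_lit 532565) (nat_lit 15) (.e (nat_lit 385066) (nat_lit 26) (.e (nat_lit 532530) (nat_lit 9) (.e (nat_lit 336324) (nat_lit 18) .nil)))))) (.g (nat_lit 1) (.e (nat_lit 232315) (nat_lit 0) .nil) .nil))))) (.nd (nat_lit 8) (.nd (nat_lit 9) 
(.lf (nat_lit 524498) (.g (nat_lit 3292) (.e (nat_lit 204869) (nat_lit 29) (.e (nat_lit 360474) (nat_lit 8) (.e (nat_lit 557091) (nat_lit 12) (.e (nat_lit 163844) (nat_lit 0) (.e (nat_lit 6250) (nat_lit 337) (.e (nat_lit 2725) (nat_lit 172) (.e (nat_lit 237593) (nat_lit 3) .nil))))))) (.g (nat_lit 1) (.e (nat_lit 231296) (nat_lit 0) .nil) .nil))) 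
(.lf (nat_lit 525010) (.g (nat_lit 2168) (.e (nat_lit 204877) (nat_lit 31) (.e (nat_lit 376855) (nat_lit 20) (.e (nat_lit 1800) (nat_lit 119) (.e (nat_lit 516139) (nat_lit 7) (.e (nat_lit 409616) (nat_lit 10) (.e (nat_lit 7936) (nat_lit 312) (.e (nat_lit 2674) (nat_lit 168) .nil))))))) (.g (nat_lit 1) (.e (nat_lit 232088) (nat_lit 0) .nil) .nil)))) (.nd (nat_lit 9) 
(.lf (nat_lit 524754) (.g (nat_lit 5163) (.e (nat_lit 204869) (nat_lit 29) (.e (nat_lit 360475) (nat_lit 8) (.e (nat_lit 557091) (nat_lit 12) (.e (nat_lit 163844) (nat_lit 0) (.e (nat_lit 6254) (nat_lit 337) (.e (nat_lit 2725) (nat_lit 172) (.e (nat_lit 237593) (nat_lit 3) .nil))))))) (.g (nat_lit 1) (.e (nat_lit 231637) (nat_lit 0) .nil) .nil))) 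
(.lf (nat_lit 525266) (.g (nat_lit 2925) (.e (nat_lit 204882) (nat_lit 32) (.e (nat_lit 385066) (nat_lit 26) (.e (nat_lit 532529) (nat_lit 9) (.e (nat_lit 336326) (nat_lit 18) (.e (nat_lit 204854) (nat_lit 26) (.e (nat_lit 336326) (nat_lit 18) .nil)))))) (.g (nat_lit 1) (.e (nat_lit 232668) (nat_lit 0) .nil) .nil))))))) (.nd (nat_lit 6) (.nd (nat_lit 7) (.nd (nat_lit 8) (.nd (nat_lit 9) 
(.lf (nat_lit 524338) (.g (nat_lit 4112) (.e (nat_lit 204868) (nat_lit 29) (.e (nat_lit 360475) (nat_lit 8) (.e (nat_lit 557091) (nat_lit 12) (.e (nat_lit 163843) (nat_lit 0) (.e (nat_lit 6254) (nat_lit 337) (.e (nat_lit 2725) (nat_lit 172) (.e (nat_lit 237592) (nat_lit 3) .nil))))))) (.g (nat_lit 1) (.e (nat_lit 230996) (nat_lit 0) .nil) .nil))) 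
(.lf (nat_lit 524850) (.g (nat_lit 1501) (.e (nat_lit 204872) (nat_lit 30) (.e (nat_lit 368676) (nat_lit 21) (.e (nat_lit 516131) (nat_lit 3) (.e (nat_lit 221212) (nat_lit 22) (.e (nat_lit 196677) (nat_lit 16) .nil))))) (.g (nat_lit 0) (.e (nat_lit 231797) (nat_lit 0) .nil) .nil)))) (.nd (nat_lit 9) 
(.lf (nat_lit 524594) (.g (nat_lit 4036) (.e (nat_lit 204869) (nat_lit 29) (.e (nat_lit 360474) (nat_lit 8) (.e (nat_lit 557093) (nat_lit 12) (.e (nat_lit 163849) (nat_lit 0) (.e (nat_lit 6254) (nat_lit 337) (.e (nat_lit 2725) (nat_lit 172) (.e (nat_lit 237593) (nat_lit 3) .nil))))))) (.g (nat_lit 1) (.e (nat_lit 231411) (nat_lit 0) .nil) .nil))) 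
(.lf (nat_lit 525106) (.g (nat_lit 2840) (.e (nat_lit 204880) (nat_lit 32) (.e (nat_lit 385066) (nat_lit 26) (.e (nat_lit 532532) (nat_lit 9) (.e (nat_lit 336324) (nat_lit 18) (.e (nat_lit 204854) (nat_lit 26) (.e (nat_lit 336322) (nat_lit 18) .nil)))))) (.g (nat_lit 1) (.e (nat_lit 232246) (nat_lit 0) .nil) .nil))))) (.nd (nat_lit 8) (.nd (nat_lit 9) 
(.lf (nat_lit 524466) (.g (nat_lit 5033) (.e (nat_lit 204869) (nat_lit 29) (.e (nat_lit 360474) (nat_lit 8) (.e (nat_lit 557089) (nat_lit 12) (.e (nat_lit 164017) (nat_lit 44) (.e (nat_lit 688138) (nat_lit 5) (.e (nat_lit 2887) (nat_lit 184) (.e (nat_lit 426135) (nat_lit 3) .nil))))))) (.g (nat_lit 1) (.e (nat_lit 231240) (nat_lit 0) .nil) .nil))) 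
(.lf (nat_lit 524978) (.g (nat_lit 346) (.e (nat_lit 204877) (nat_lit 31) (.e (nat_lit 376842) (nat_lit 11) (.e (nat_lit 426100) (nat_lit 1) .nil))) (.g (nat_lit 0) (.e (nat_lit 232052) (nat_lit 0) .nil) .nil)))) (.nd (nat_lit 9) 
(.lf (nat_lit 524722) (.g (nat_lit 2645) (.e (nat_lit 204869) (nat_lit 29) (.e (nat_lit 360475) (nat_lit 8) (.e (nat_lit 557090) (nat_lit 12) (.e (nat_lit 163842) (nat_lit 0) .nil)))) (.g (nat_lit 0) (.e (nat_lit 231558) (nat_lit 0) .nil) .nil))) 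
(.lf (nat_lit 525234) (.g (nat_lit 2552) (.e (nat_lit 204881) (nat_lit 32) (.e (nat_lit 385068) (nat_lit 26) (.e (nat_lit 532530) (nat_lit 9) (.e (nat_lit 336325) (nat_lit 18) .nil)))) (.g (nat_lit 0) (.e (nat_lit 232544) (nat_lit 0) .nil) .nil)))))) (.nd (nat_lit 7) (.nd (nat_lit 8) (.nd (nat_lit 9) 
(.lf (nat_lit 524402) (.g (nat_lit 376) (.e (nat_lit 204869) (nat_lit 29) (.e (nat_lit 360473) (nat_lit 8) (.e (nat_lit 557089) (nat_lit 12) .nil))) (.g (nat_lit 0) (.e (nat_lit 231157) (nat_lit 0) .nil) .nil))) 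
(.lf (nat_lit 524914) (.g (nat_lit 1788) (.e (nat_lit 204876) (nat_lit 31) (.e (nat_lit 376842) (nat_lit 11) (.e (nat_lit 426100) (nat_lit 1) (.e (nat_lit 164161) (nat_lit 152) (.e (nat_lit 1187) (nat_lit 88) .nil))))) (.g (nat_lit 0) (.e (nat_lit 231942) (nat_lit 0) .nil) .nil)))) (.nd (nat_lit 9) 
(.lf (nat_lit 524658) (.g (nat_lit 344) (.e (nat_lit 204869) (nat_lit 29) (.e (nat_lit 360475) (nat_lit 8) (.e (nat_lit 557073) (nat_lit 9) .nil))) (.g (nat_lit 0) (.e (nat_lit 231488) (nat_lit 0) .nil) .nil))) 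
(.lf (nat_lit 525170) (.g (nat_lit 2636) (.e (nat_lit 204880) (nat_lit 32) (.e (nat_lit 385068) (nat_lit 26) (.e (nat_lit 532530) (nat_lit 9) (.e (nat_lit 336316) (nat_lit 17) (.e (nat_lit 196681) (nat_lit 17) .nil))))) (.g (nat_lit 0) (.e (nat_lit 232365) (nat_lit 0) .nil) .nil))))) (.nd (nat_lit 8) (.nd (nat_lit 9) 
(.lf (nat_lit 524530) (.g (nat_lit 5503) (.e (nat_lit 204869) (nat_lit 29) (.e (nat_lit 360474) (nat_lit 8) (.e (nat_lit 557091) (nat_lit 12) (.e (nat_lit 164017) (nat_lit 44) (.e (nat_lit 688138) (nat_lit 5) (.e (nat_lit 2887) (nat_lit 184) (.e (nat_lit 426134) (nat_lit 3) .nil))))))) (.g (nat_lit 1) (.e (nat_lit 231340) (nat_lit 0) .nil) .nil))) 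
(.lf (nat_lit 525042) (.g (nat_lit 944) (.e (nat_lit 204877) (nat_lit 31) (.e (nat_lit 376869) (nat_lit 23) (.e (nat_lit 98365) (nat_lit 26) (.e (nat_lit 426099) (nat_lit 1) .nil)))) (.g (nat_lit 0) (.e (nat_lit 232138) (nat_lit 0) .nil) .nil)))) (.nd (nat_lit 9) 
(.lf (nat_lit 524786) (.g (nat_lit 3227) (.e (nat_lit 204869) (nat_lit 29) (.e (nat_lit 360475) (nat_lit 8) (.e (nat_lit 557091) (nat_lit 12) (.e (nat_lit 164022) (nat_lit 46) (.e (nat_lit 704629) (nat_lit 9) (.e (nat_lit 433) (nat_lit 32) (.e (nat_lit 433920) (nat_lit 3) .nil))))))) (.g (nat_lit 1) (.e (nat_lit 231672) (nat_lit 0) .nil) .nil))) 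
(.lf (nat_lit 525298) (.g (nat_lit 1374) (.e (nat_lit 204882) (nat_lit 32) (.e (nat_lit 385066) (nat_lit 26) (.e (nat_lit 532563) (nat_lit 15) (.e (nat_lit 385057) (nat_lit 22) .nil)))) (.g (nat_lit 0) (.e (nat_lit 232702) (nat_lit 0) .nil) .nil))))))))) (.nd (nat_lit 4) (.nd (nat_lit 5) (.nd (nat_lit 6) (.nd (nat_lit 7) (.nd (nat_lit 8) (.nd (nat_lit 9) 
(.lf (nat_lit 524298) (.g (nat_lit 1994) (.e (nat_lit 204868) (nat_lit 29) (.e (nat_lit 360475) (nat_lit 8) (.e (nat_lit 557085) (nat_lit 11) (.e (nat_lit 24580) (nat_lit 0) .nil)))) (.g (nat_lit 0) (.e (nat_lit 230953) (nat_lit 0) .nil) .nil))) 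
(.lf (nat_lit 524810) (.g (nat_lit 958) (.e (nat_lit 204870) (nat_lit 29) (.e (nat_lit 360467) (nat_lit 3) (.e (nat_lit 516139) (nat_lit 7) (.e (nat_lit 409649) (nat_lit 18) .nil)))) (.g (nat_lit 0) (.e (nat_lit 231706) (nat_lit 0) .nil) .nil)))) (.nd (nat_lit 9) 
(.lf (nat_lit 524554) (.g (nat_lit 4741) (.e (nat_lit 204869) (nat_lit 29) (.e (nat_lit 360474) (nat_lit 8) (.e (nat_lit 557091) (nat_lit 12) (.e (nat_lit 164020) (nat_lit 45) (.e (nat_lit 696328) (nat_lit 5) (.e (nat_lit 2884) (nat_lit 184) (.e (nat_lit 426135) (nat_lit 3) .nil))))))) (.g (nat_lit 1) (.e (nat_lit 231366) (nat_lit 0) .nil) .nil))) 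
(.lf (nat_lit 525066) (.g (nat_lit 3026) (.e (nat_lit 204879) (nat_lit 32) (.e (nat_lit 385068) (nat_lit 26) (.e (nat_lit 532504) (nat_lit 1) (.e (nat_lit 57852) (nat_lit 252) (.e (nat_lit 57376) (nat_lit 3) .nil))))) (.g (nat_lit 0) (.e (nat_lit 232183) (nat_lit 0) .nil) .nil))))) (.nd (nat_lit 8) (.nd (nat_lit 9) 
(.lf (nat_lit 524426) (.g (nat_lit 532) (.e (nat_lit 204869) (nat_lit 29) (.e (nat_lit 360474) (nat_lit 8) (.e (nat_lit 557071) (nat_lit 9) .nil))) (.g (nat_lit 0) (.e (nat_lit 231190) (nat_lit 0) .nil) .nil))) 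
(.lf (nat_lit 524938) (.g (nat_lit 2708) (.e (nat_lit 204876) (nat_lit 31) (.e (nat_lit 376842) (nat_lit 11) (.e (nat_lit 426497) (nat_lit 27) (.e (nat_lit 335996) (nat_lit 1) (.e (nat_lit 57931) (nat_lit 282) (.e (nat_lit 163874) (nat_lit 3) .nil)))))) (.g (nat_lit 1) (.e (nat_lit 231972) (nat_lit 0) .nil) .nil)))) (.nd (nat_lit 9) 
(.lf (nat_lit 524682) (.g (nat_lit 4161) (.e (nat_lit 204869) (nat_lit 29) (.e (nat_lit 360475) (nat_lit 8) (.e (nat_lit 557086) (nat_lit 11) (.e (nat_lit 24665) (nat_lit 14) (.e (nat_lit 409344) (nat_lit 3) .nil))))) (.g (nat_lit 1) (.e (nat_lit 231515) (nat_lit 0) .nil) .nil))) 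
(.lf (nat_lit 525194) (.g (nat_lit 2779) (.e (nat_lit 204880) (nat_lit 32) (.e (nat_lit 385068) (nat_lit 26) (.e (nat_lit 532566) (nat_lit 15) (.e (nat_lit 385068) (nat_lit 26) (.e (nat_lit 532534) (nat_lit 9) (.e (nat_lit 336324) (nat_lit 18) .nil)))))) (.g (nat_lit 1) (.e (nat_lit 232391) (nat_lit 0) .nil) .nil)))))) (.nd (nat_lit 7) (.nd (nat_lit 8) (.nd (nat_lit 9) 
(.lf (nat_lit 524362) (.g (nat_lit 2127) (.e (nat_lit 204869) (nat_lit 29) (.e (nat_lit 360466) (nat_lit 3) (.e (nat_lit 516139) (nat_lit 7) (.e (nat_lit 409648) (nat_lit 18) (.e (nat_lit 311040) (nat_lit 3) .nil))))) (.g (nat_lit 1) (.e (nat_lit 231074) (nat_lit 0) .nil) .nil))) 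
(.lf (nat_lit 524874) (.g (nat_lit 2113) (.e (nat_lit 204874) (nat_lit 30) (.e (nat_lit 368676) (nat_lit 21) (.e (nat_lit 516100) (nat_lit 0) (.e (nat_lit 3771) (nat_lit 229) .nil)))) (.g (nat_lit 0) (.e (nat_lit 231881) (nat_lit 0) .nil) .nil)))) (.nd (nat_lit 9) 
(.lf (nat_lit 524618) (.g (nat_lit 3853) (.e (nat_lit 204869) (nat_lit 29) (.e (nat_lit 360474) (nat_lit 8) (.e (nat_lit 557094) (nat_lit 12) (.e (nat_lit 163847) (nat_lit 0) (.e (nat_lit 6254) (nat_lit 337) (.e (nat_lit 2725) (nat_lit 172) (.e (nat_lit 237593) (nat_lit 3) .nil))))))) (.g (nat_lit 1) (.e (nat_lit 231436) (nat_lit 0) .nil) .nil))) 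
(.lf (nat_lit 525130) (.g (nat_lit 3534) (.e (nat_lit 204880) (nat_lit 32) (.e (nat_lit 385066) (nat_lit 26) (.e (nat_lit 532563) (nat_lit 15) (.e (nat_lit 385068) (nat_lit 26) (.e (nat_lit 532530) (nat_lit 9) (.e (nat_lit 336325) (nat_lit 18) .nil)))))) (.g (nat_lit 1) (.e (nat_lit 232307) (nat_lit 0) .nil) .nil))))) (.nd (nat_lit 8) (.nd (nat_lit 9) 
(.lf (nat_lit 524490) (.g (nat_lit 3316) (.e (nat_lit 204869) (nat_lit 29) (.e (nat_lit 360474) (nat_lit 8) (.e (nat_lit 557091) (nat_lit 12) (.e (nat_lit 163843) (nat_lit 0) (.e (nat_lit 6252) (nat_lit 337) (.e (nat_lit 2725) (nat_lit 172) (.e (nat_lit 237594) (nat_lit 3) .nil))))))) (.g (nat_lit 1) (.e (nat_lit 231280) (nat_lit 0) .nil) .nil))) 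
(.lf (nat_lit 525002) (.g (nat_lit 2801) (.e (nat_lit 204877) (nat_lit 31) (.e (nat_lit 376842) (nat_lit 11) (.e (nat_lit 426500) (nat_lit 27) (.e (nat_lit 335995) (nat_lit 1) (.e (nat_lit 57929) (nat_lit 282) (.e (nat_lit 163874) (nat_lit 3) .nil)))))) (.g (nat_lit 1) (.e (nat_lit 232080) (nat_lit 0) .nil) .nil)))) (.nd (nat_lit 9) 
(.lf (nat_lit 524746) (.g (nat_lit 3788) (.e (nat_lit 204869) (nat_lit 29) (.e (nat_lit 360475) (nat_lit 8) (.e (nat_lit 557091) (nat_lit 12) (.e (nat_lit 163843) (nat_lit 0) (.e (nat_lit 6252) (nat_lit 337) (.e (nat_lit 2725) (nat_lit 172) (.e (nat_lit 237594) (nat_lit 3) .nil))))))) (.g (nat_lit 1) (.e (nat_lit 231627) (nat_lit 0) .nil) .nil))) 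
(.lf (nat_lit 525258) (.g (nat_lit 3695) (.e (nat_lit 204882) (nat_lit 32) (.e (nat_lit 385065) (nat_lit 26) (.e (nat_lit 532563) (nat_lit 15) (.e (nat_lit 385068) (nat_lit 26) (.e (nat_lit 532530) (nat_lit 9) (.e (nat_lit 336324) (nat_lit 18) .nil)))))) (.g (nat_lit 1) (.e (nat_lit 232657) (nat_lit 0) .nil) .nil))))))) (.nd (nat_lit 6) (.nd (nat_lit 7) (.nd (nat_lit 8) (.nd (nat_lit 9) 
(.lf (nat_lit 524330) (.g (nat_lit 2557) (.e (nat_lit 204868) (nat_lit 29) (.e (nat_lit 360475) (nat_lit 8) (.e (nat_lit 557090) (nat_lit 12) (.e (nat_lit 163844) (nat_lit 0) .nil)))) (.g (nat_lit 0) (.e (nat_lit 230988) (nat_lit 0) .nil) .nil))) 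
(.lf (nat_lit 524842) (.g (nat_lit 1101) (.e (nat_lit 204872) (nat_lit 30) (.e (nat_lit 368676) (nat_lit 21) (.e (nat_lit 516129) (nat_lit 3) (.e (nat_lit 221210) (nat_lit 22) .nil)))) (.g (nat_lit 0) (.e (nat_lit 231782) (nat_lit 0) .nil) .nil)))) (.nd (nat_lit 9) 
(.lf (nat_lit 524586) (.g (nat_lit 2983) (.e (nat_lit 204869) (nat_lit 29) (.e (nat_lit 360474) (nat_lit 8) (.e (nat_lit 557091) (nat_lit 12) (.e (nat_lit 164022) (nat_lit 46) (.e (nat_lit 704629) (nat_lit 9) (.e (nat_lit 388) (nat_lit 32) (.e (nat_lit 426137) (nat_lit 3) .nil))))))) (.g (nat_lit 1) (.e (nat_lit 231401) (nat_lit 0) .nil) .nil))) 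
(.lf (nat_lit 525098) (.g (nat_lit 1792) (.e (nat_lit 204880) (nat_lit 32) (.e (nat_lit 385066) (nat_lit 26) (.e (nat_lit 532530) (nat_lit 9) (.e (nat_lit 336326) (nat_lit 18) (.e (nat_lit 204850) (nat_lit 26) .nil))))) (.g (nat_lit 0) (.e (nat_lit 232238) (nat_lit 0) .nil) .nil))))) (.nd (nat_lit 8) (.nd (nat_lit 9) 
(.lf (nat_lit 524458) (.g (nat_lit 3747) (.e (nat_lit 204869) (nat_lit 29) (.e (nat_lit 360474) (nat_lit 8) (.e (nat_lit 557089) (nat_lit 12) (.e (nat_lit 163848) (nat_lit 0) (.e (nat_lit 6255) (nat_lit 337) (.e (nat_lit 2725) (nat_lit 172) (.e (nat_lit 237593) (nat_lit 3) .nil))))))) (.g (nat_lit 1) (.e (nat_lit 231231) (nat_lit 0) .nil) .nil))) 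
(.lf (nat_lit 524970) (.g (nat_lit 2106) (.e (nat_lit 204877) (nat_lit 31) (.e (nat_lit 376842) (nat_lit 11) (.e (nat_lit 426098) (nat_lit 1) (.e (nat_lit 164163) (nat_lit 152) (.e (nat_lit 1190) (nat_lit 88) .nil))))) (.g (nat_lit 0) (.e (nat_lit 232044) (nat_lit 0) .nil) .nil)))) (.nd (nat_lit 9) 
(.lf (nat_lit 524714) (.g (nat_lit 5104) (.e (nat_lit 204869) (nat_lit 29) (.e (nat_lit 360475) (nat_lit 8) (.e (nat_lit 557089) (nat_lit 12) (.e (nat_lit 163850) (nat_lit 0) (.e (nat_lit 6425) (nat_lit 342) (.e (nat_lit 229402) (nat_lit 12) (.e (nat_lit 426134) (nat_lit 3) .nil))))))) (.g (nat_lit 1) (.e (nat_lit 231548) (nat_lit 0) .nil) .nil))) 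
(.lf (nat_lit 525226) (.g (nat_lit 2434) (.e (nat_lit 204881) (nat_lit 32) (.e (nat_lit 385066) (nat_lit 26) (.e (nat_lit 532566) (nat_lit 15) (.e (nat_lit 385068) (nat_lit 26) (.e (nat_lit 532534) (nat_lit 9) (.e (nat_lit 336324) (nat_lit 18) .nil)))))) (.g (nat_lit 1) (.e (nat_lit 232535) (nat_lit 0) .nil) .nil)))))) (.nd (nat_lit 7) (.nd (nat_lit 8) (.nd (nat_lit 9) 
(.lf (nat_lit 524394) (.g (nat_lit 453) (.e (nat_lit 204869) (nat_lit 29) (.e (nat_lit 360473) (nat_lit 8) (.e (nat_lit 557087) (nat_lit 11) .nil))) (.g (nat_lit 0) (.e (nat_lit 231149) (nat_lit 0) .nil) .nil))) 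
(.lf (nat_lit 524906) (.g (nat_lit 1058) (.e (nat_lit 204876) (nat_lit 31) (.e (nat_lit 376842) (nat_lit 11) (.e (nat_lit 426098) (nat_lit 1) (.e (nat_lit 164153) (nat_lit 152) .nil)))) (.g (nat_lit 0) (.e (nat_lit 231934) (nat_lit 0) .nil) .nil)))) (.nd (nat_lit 9) 
(.lf (nat_lit 524650) (.g (nat_lit 352) (.e (nat_lit 204869) (nat_lit 29) (.e (nat_lit 360475) (nat_lit 8) (.e (nat_lit 557068) (nat_lit 9) .nil))) (.g (nat_lit 0) (.e (nat_lit 231478) (nat_lit 0) .nil) .nil))) 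
(.lf (nat_lit 525162) (.g (nat_lit 2564) (.e (nat_lit 204880) (nat_lit 32) (.e (nat_lit 385068) (nat_lit 26) (.e (nat_lit 532503) (nat_lit 1) (.e (nat_lit 57854) (nat_lit 252) (.e (nat_lit 57378) (nat_lit 3) .nil))))) (.g (nat_lit 0) (.e (nat_lit 232351) (nat_lit 0) .nil) .nil))))) (.nd (nat_lit 8) (.nd (nat_lit 9) 
(.lf (nat_lit 524522) (.g (nat_lit 3679) (.e (nat_lit 204869) (nat_lit 29) (.e (nat_lit 360474) (nat_lit 8) (.e (nat_lit 557091) (nat_lit 12) (.e (nat_lit 163850) (nat_lit 0) (.e (nat_lit 6273) (nat_lit 337) (.e (nat_lit 2729) (nat_lit 172) (.e (nat_lit 237594) (nat_lit 3) .nil))))))) (.g (nat_lit 1) (.e (nat_lit 231320) (nat_lit 0) .nil) .nil))) 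
(.lf (nat_lit 525034) (.g (nat_lit 1601) (.e (nat_lit 204877) (nat_lit 31) (.e (nat_lit 376865) (nat_lit 22) (.e (nat_lit 90185) (nat_lit 17) (.e (nat_lit 237582) (nat_lit 1) .nil)))) (.g (nat_lit 0) (.e (nat_lit 232130) (nat_lit 0) .nil) .nil)))) (.nd (nat_lit 9) 
(.lf (nat_lit 524778) (.g (nat_lit 5750) (.e (nat_lit 204869) (nat_lit 29) (.e (nat_lit 360475) (nat_lit 8) (.e (nat_lit 557091) (nat_lit 12) (.e (nat_lit 164022) (nat_lit 46) (.e (nat_lit 704628) (nat_lit 9) (.e (nat_lit 373) (nat_lit 32) (.e (nat_lit 426135) (nat_lit 3) .nil))))))) (.g (nat_lit 1) (.e (nat_lit 231664) (nat_lit 0) .nil) .nil))) 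
(.lf (nat_lit 525290) (.g (nat_lit 3431) (.e (nat_lit 204882) (nat_lit 32) (.e (nat_lit 385066) (nat_lit 26) (.e (nat_lit 532534) (nat_lit 9) (.e (nat_lit 336326) (nat_lit 18) (.e (nat_lit 204852) (nat_lit 26) (.e (nat_lit 336326) (nat_lit 18) .nil)))))) (.g (nat_lit 1) (.e (nat_lit 232693) (nat_lit 0) .nil) .nil)))))))) 
(.nd (nat_lit 5) (.nd (nat_lit 6) (.nd (nat_lit 7) (.nd (nat_lit 8) (.nd (nat_lit 9) 
(.lf (nat_lit 524314) (.g (nat_lit 3327) (.e (nat_lit 204868) (nat_lit 29) (.e (nat_lit 360475) (nat_lit 8) (.e (nat_lit 557087) (nat_lit 11) (.e (nat_lit 24664) (nat_lit 14) (.e (nat_lit 401426) (nat_lit 3) .nil))))) (.g (nat_lit 1) (.e (nat_lit 230971) (nat_lit 0) .nil) .nil))) 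
(.lf (nat_lit 524826) (.g (nat_lit 963) (.e (nat_lit 204871) (nat_lit 30) (.e (nat_lit 368676) (nat_lit 21) (.e (nat_lit 516115) (nat_lit 1) .nil))) (.g (nat_lit 0) (.e (nat_lit 231741) (nat_lit 0) .nil) .nil)))) (.nd (nat_lit 9) 
(.lf (nat_lit 524570) (.g (nat_lit 5228) (.e (nat_lit 204869) (nat_lit 29) (.e (nat_lit 360474) (nat_lit 8) (.e (nat_lit 557091) (nat_lit 12) (.e (nat_lit 164020) (nat_lit 45) (.e (nat_lit 696334) (nat_lit 5) (.e (nat_lit 2861) (nat_lit 184) (.e (nat_lit 426131) (nat_lit 3) .nil))))))) (.g (nat_lit 1) (.e (nat_lit 231382) (nat_lit 0) .nil) .nil))) 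
(.lf (nat_lit 525082) (.g (nat_lit 4288) (.e (nat_lit 204880) (nat_lit 32) (.e (nat_lit 385066) (nat_lit 26) (.e (nat_lit 532499) (nat_lit 1) (.e (nat_lit 57847) (nat_lit 252) (.e (nat_lit 57377) (nat_lit 3) .nil))))) (.g (nat_lit 0) (.e (nat_lit 232205) (nat_lit 0) .nil) .nil))))) (.nd (nat_lit 8) (.nd (nat_lit 9) 
(.lf (nat_lit 524442) (.g (nat_lit 4210) (.e (nat_lit 204869) (nat_lit 29) (.e (nat_lit 360474) (nat_lit 8) (.e (nat_lit 557087) (nat_lit 11) (.e (nat_lit 24662) (nat_lit 14) (.e (nat_lit 401428) (nat_lit 3) .nil))))) (.g (nat_lit 1) (.e (nat_lit 231214) (nat_lit 0) .nil) .nil))) 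
(.lf (nat_lit 524954) (.g (nat_lit 2472) (.e (nat_lit 204876) (nat_lit 31) (.e (nat_lit 376869) (nat_lit 23) (.e (nat_lit 98350) (nat_lit 24) (.e (nat_lit 409649) (nat_lit 18) (.e (nat_lit 303119) (nat_lit 3) .nil))))) (.g (nat_lit 0) (.e (nat_lit 232000) (nat_lit 0) .nil) .nil)))) (.nd (nat_lit 9) 
(.lf (nat_lit 524698) (.g (nat_lit 1712) (.e (nat_lit 204869) (nat_lit 29) (.e (nat_lit 360475) (nat_lit 8) (.e (nat_lit 557087) (nat_lit 11) (.e (nat_lit 32512) (nat_lit 14) .nil)))) (.g (nat_lit 0) (.e (nat_lit 231531) (nat_lit 0) .nil) .nil))) 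
(.lf (nat_lit 525210) (.g (nat_lit 874) (.e (nat_lit 204881) (nat_lit 32) (.e (nat_lit 385066) (nat_lit 26) (.e (nat_lit 532533) (nat_lit 9) (.e (nat_lit 336325) (nat_lit 18) .nil)))) (.g (nat_lit 0) (.e (nat_lit 232514) (nat_lit 0) .nil) .nil)))))) (.nd (nat_lit 7) (.nd (nat_lit 8) (.nd (nat_lit 9) 
(.lf (nat_lit 524378) (.g (nat_lit 734) (.e (nat_lit 204869) (nat_lit 29) (.e (nat_lit 360472) (nat_lit 8) (.e (nat_lit 557070) (nat_lit 9) (.e (nat_lit 7936) (nat_lit 21) .nil)))) (.g (nat_lit 0) (.e (nat_lit 231133) (nat_lit 0) .nil) .nil))) 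
(.lf (nat_lit 524890) (.g (nat_lit 1391) (.e (nat_lit 204875) (nat_lit 31) (.e (nat_lit 376867) (nat_lit 23) (.e (nat_lit 98350) (nat_lit 24) (.e (nat_lit 409643) (nat_lit 18) .nil)))) (.g (nat_lit 0) (.e (nat_lit 231901) (nat_lit 0) .nil) .nil)))) (.nd (nat_lit 9) 
(.lf (nat_lit 524634) (.g (nat_lit 3675) (.e (nat_lit 204869) (nat_lit 29) (.e (nat_lit 360474) (nat_lit 8) (.e (nat_lit 557094) (nat_lit 12) (.e (nat_lit 164022) (nat_lit 46) (.e (nat_lit 704629) (nat_lit 9) (.e (nat_lit 373) (nat_lit 32) (.e (nat_lit 426135) (nat_lit 3) .nil))))))) (.g (nat_lit 1) (.e (nat_lit 231452) (nat_lit 0) .nil) .nil))) 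
(.lf (nat_lit 525146) (.g (nat_lit 2649) (.e (nat_lit 204880) (nat_lit 32) (.e (nat_lit 385066) (nat_lit 26) (.e (nat_lit 532566) (nat_lit 15) (.e (nat_lit 385068) (nat_lit 26) (.e (nat_lit 532530) (nat_lit 9) (.e (nat_lit 336325) (nat_lit 18) .nil)))))) (.g (nat_lit 1) (.e (nat_lit 232324) (nat_lit 0) .nil) .nil))))) (.nd (nat_lit 8) (.nd (nat_lit 9) 
(.lf (nat_lit 524506) (.g (nat_lit 2027) (.e (nat_lit 204869) (nat_lit 29) (.e (nat_lit 360474) (nat_lit 8) (.e (nat_lit 557091) (nat_lit 12) (.e (nat_lit 163846) (nat_lit 0) .nil)))) (.g (nat_lit 0) (.e (nat_lit 231304) (nat_lit 0) .nil) .nil))) 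
(.lf (nat_lit 525018) (.g (nat_lit 645) (.e (nat_lit 204877) (nat_lit 31) (.e (nat_lit 376865) (nat_lit 22) (.e (nat_lit 90131) (nat_lit 9) .nil))) (.g (nat_lit 0) (.e (nat_lit 232104) (nat_lit 0) .nil) .nil)))) (.nd (nat_lit 9) 
(.lf (nat_lit 524762) (.g (nat_lit 4265) (.e (nat_lit 204869) (nat_lit 29) (.e (nat_lit 360475) (nat_lit 8) (.e (nat_lit 557091) (nat_lit 12) (.e (nat_lit 163850) (nat_lit 0) (.e (nat_lit 6425) (nat_lit 342) (.e (nat_lit 229401) (nat_lit 12) (.e (nat_lit 426134) (nat_lit 3) .nil))))))) (.g (nat_lit 1) (.e (nat_lit 231646) (nat_lit 0) .nil) .nil))) 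
(.lf (nat_lit 525274) (.g (nat_lit 2027) (.e (nat_lit 204882) (nat_lit 32) (.e (nat_lit 385066) (nat_lit 26) (.e (nat_lit 532530) (nat_lit 9) (.e (nat_lit 336326) (nat_lit 18) (.e (nat_lit 204855) (nat_lit 26) .nil))))) (.g (nat_lit 0) (.e (nat_lit 232676) (nat_lit 0) .nil) .nil))))))) (.nd (nat_lit 6) (.nd (nat_lit 7) (.nd (nat_lit 8) (.nd (nat_lit 9) 
(.lf (nat_lit 524346) (.g (nat_lit 2268) (.e (nat_lit 204868) (nat_lit 29) (.e (nat_lit 360475) (nat_lit 8) (.e (nat_lit 557091) (nat_lit 12) (.e (nat_lit 163849) (nat_lit 0) .nil)))) (.g (nat_lit 0) (.e (nat_lit 231005) (nat_lit 0) .nil) .nil))) 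
(.lf (nat_lit 524858) (.g (nat_lit 1464) (.e (nat_lit 204873) (nat_lit 30) (.e (nat_lit 368676) (nat_lit 21) (.e (nat_lit 516115) (nat_lit 1) (.e (nat_lit 164179) (nat_lit 154) .nil)))) (.g (nat_lit 0) (.e (nat_lit 231822) (nat_lit 0) .nil) .nil)))) (.nd (nat_lit 9) 
(.lf (nat_lit 524602) (.g (nat_lit 3835) (.e (nat_lit 204869) (nat_lit 29) (.e (nat_lit 360474) (nat_lit 8) (.e (nat_lit 557093) (nat_lit 12) (.e (nat_lit 164022) (nat_lit 46) (.e (nat_lit 704628) (nat_lit 9) (.e (nat_lit 399) (nat_lit 32) (.e (nat_lit 426137) (nat_lit 3) .nil))))))) (.g (nat_lit 1) (.e (nat_lit 231419) (nat_lit 0) .nil) .nil))) 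
(.lf (nat_lit 525114) (.g (nat_lit 3418) (.e (nat_lit 204880) (nat_lit 32) (.e (nat_lit 385066) (nat_lit 26) (.e (nat_lit 532534) (nat_lit 9) (.e (nat_lit 336324) (nat_lit 18) (.e (nat_lit 204852) (nat_lit 26) (.e (nat_lit 336324) (nat_lit 18) .nil)))))) (.g (nat_lit 1) (.e (nat_lit 232280) (nat_lit 0) .nil) .nil))))) (.nd (nat_lit 8) (.nd (nat_lit 9) 
(.lf (nat_lit 524474) (.g (nat_lit 4080) (.e (nat_lit 204869) (nat_lit 29) (.e (nat_lit 360474) (nat_lit 8) (.e (nat_lit 557091) (nat_lit 12) (.e (nat_lit 163840) (nat_lit 0) (.e (nat_lit 6421) (nat_lit 341) (.e (nat_lit 171776) (nat_lit 12) (.e (nat_lit 426139) (nat_lit 3) .nil))))))) (.g (nat_lit 1) (.e (nat_lit 231248) (nat_lit 0) .nil) .nil))) 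
(.lf (nat_lit 524986) (.g (nat_lit 407) (.e (nat_lit 204877) (nat_lit 31) (.e (nat_lit 376842) (nat_lit 11) (.e (nat_lit 426408) (nat_lit 15) .nil))) (.g (nat_lit 0) (.e (nat_lit 232061) (nat_lit 0) .nil) .nil)))) (.nd (nat_lit 9) 
(.lf (nat_lit 524730) (.g (nat_lit 2457) (.e (nat_lit 204869) (nat_lit 29) (.e (nat_lit 360475) (nat_lit 8) (.e (nat_lit 557090) (nat_lit 12) (.e (nat_lit 163844) (nat_lit 0) .nil)))) (.g (nat_lit 0) (.e (nat_lit 231591) (nat_lit 0) .nil) .nil))) 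
(.lf (nat_lit 525242) (.g (nat_lit 2676) (.e (nat_lit 204881) (nat_lit 32) (.e (nat_lit 385107) (nat_lit 51) (.e (nat_lit 794669) (nat_lit 22) (.e (nat_lit 196654) (nat_lit 11) (.e (nat_lit 16436) (nat_lit 9) (.e (nat_lit 426131) (nat_lit 3) .nil)))))) (.g (nat_lit 1) (.e (nat_lit 232576) (nat_lit 0) .nil) .nil)))))) (.nd (nat_lit 7) (.nd (nat_lit 8) (.nd (nat_lit 9) 
(.lf (nat_lit 524410) (.g (nat_lit 2696) (.e (nat_lit 204869) (nat_lit 29) (.e (nat_lit 360473) (nat_lit 8) (.e (nat_lit 557091) (nat_lit 12) (.e (nat_lit 163843) (nat_lit 0) (.e (nat_lit 6255) (nat_lit 337) .nil))))) (.g (nat_lit 0) (.e (nat_lit 231165) (nat_lit 0) .nil) .nil))) 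
(.lf (nat_lit 524922) (.g (nat_lit 1154) (.e (nat_lit 204876) (nat_lit 31) (.e (nat_lit 376842) (nat_lit 11) (.e (nat_lit 426387) (nat_lit 15) (.e (nat_lit 6214) (nat_lit 333) .nil)))) (.g (nat_lit 0) (.e (nat_lit 231951) (nat_lit 0) .nil) .nil)))) (.nd (nat_lit 9) 
(.lf (nat_lit 524666) (.g (nat_lit 493) (.e (nat_lit 204869) (nat_lit 29) (.e (nat_lit 360475) (nat_lit 8) (.e (nat_lit 557083) (nat_lit 10) .nil))) (.g (nat_lit 0) (.e (nat_lit 231497) (nat_lit 0) .nil) .nil))) 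
(.lf (nat_lit 525178) (.g (nat_lit 836) (.e (nat_lit 204880) (nat_lit 32) (.e (nat_lit 385068) (nat_lit 26) (.e (nat_lit 532533) (nat_lit 9) .nil))) (.g (nat_lit 0) (.e (nat_lit 232373) (nat_lit 0) .nil) .nil))))) (.nd (nat_lit 8) (.nd (nat_lit 9) 
(.lf (nat_lit 524538) (.g (nat_lit 3395) (.e (nat_lit 204869) (nat_lit 29) (.e (nat_lit 360474) (nat_lit 8) (.e (nat_lit 557091) (nat_lit 12) (.e (nat_lit 164017) (nat_lit 44) (.e (nat_lit 696064) (nat_lit 12) (.e (nat_lit 237593) (nat_lit 3) .nil)))))) (.g (nat_lit 1) (.e (nat_lit 231348) (nat_lit 0) .nil) .nil))) 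
(.lf (nat_lit 525050) (.g (nat_lit 1705) (.e (nat_lit 204878) (nat_lit 31) (.e (nat_lit 376869) (nat_lit 23) (.e (nat_lit 98323) (nat_lit 17) (.e (nat_lit 6989) (nat_lit 377) (.e (nat_lit 2810) (nat_lit 180) .nil))))) (.g (nat_lit 0) (.e (nat_lit 232166) (nat_lit 0) .nil) .nil)))) (.nd (nat_lit 9) 
(.lf (nat_lit 524794) (.g (nat_lit 1812) (.e (nat_lit 204870) (nat_lit 29) (.e (nat_lit 360463) (nat_lit 1) (.e (nat_lit 499846) (nat_lit 5) (.e (nat_lit 2829) (nat_lit 182) (.e (nat_lit 409643) (nat_lit 18) (.e (nat_lit 303119) (nat_lit 3) .nil)))))) (.g (nat_lit 1) (.e (nat_lit 231686) (nat_lit 0) .nil) .nil))) 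
(.lf (nat_lit 525306) (.g (nat_lit 2953) (.e (nat_lit 204882) (nat_lit 32) (.e (nat_lit 385066) (nat_lit 26) (.e (nat_lit 532565) (nat_lit 15) (.e (nat_lit 385067) (nat_lit 26) (.e (nat_lit 532530) (nat_lit 9) (.e (nat_lit 336324) (nat_lit 18) .nil)))))) (.g (nat_lit 1) (.e (nat_lit 232713) (nat_lit 0) .nil) .nil)))))))))) 
(.nd (nat_lit 3) (.nd (nat_lit 4) (.nd (nat_lit 5) (.nd (nat_lit 6) (.nd (nat_lit 7) 
(.nd (nat_lit 8) (.nd (nat_lit 9) 
(.lf (nat_lit 524294) (.g (nat_lit 1679) (.e (nat_lit 204868) (nat_lit 29) (.e (nat_lit 360475) (nat_lit 8) (.e (nat_lit 557068) (nat_lit 9) (.e (nat_lit 2739) (nat_lit 174) .nil)))) (.g (nat_lit 0) (.e (nat_lit 230946) (nat_lit 0) .nil) .nil))) 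
(.lf (nat_lit 524806) (.g (nat_lit 3471) (.e (nat_lit 204870) (nat_lit 29) (.e (nat_lit 360467) (nat_lit 3) (.e (nat_lit 516139) (nat_lit 7) (.e (nat_lit 409646) (nat_lit 18) (.e (nat_lit 303119) (nat_lit 3) .nil))))) (.g (nat_lit 1) (.e (nat_lit 231702) (nat_lit 0) .nil) .nil)))) (.nd (nat_lit 9) 
(.lf (nat_lit 524550) (.g (nat_lit 3396) (.e (nat_lit 204869) (nat_lit 29) (.e (nat_lit 360474) (nat_lit 8) (.e (nat_lit 557091) (nat_lit 12) (.e (nat_lit 164020) (nat_lit 45) (.e (nat_lit 696328) (nat_lit 5) (.e (nat_lit 2879) (nat_lit 184) (.e (nat_lit 426136) (nat_lit 3) .nil))))))) (.g (nat_lit 1) (.e (nat_lit 231362) (nat_lit 0) .nil) .nil))) 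
(.lf (nat_lit 525062) (.g (nat_lit 2423) (.e (nat_lit 204879) (nat_lit 32) (.e (nat_lit 385068) (nat_lit 26) (.e (nat_lit 532501) (nat_lit 1) (.e (nat_lit 57851) (nat_lit 252) .nil)))) (.g (nat_lit 0) (.e (nat_lit 232179) (nat_lit 0) .nil) .nil))))) (.nd (nat_lit 8) (.nd (nat_lit 9) 
(.lf (nat_lit 524422) (.g (nat_lit 1192) (.e (nat_lit 204869) (nat_lit 29) (.e (nat_lit 360474) (nat_lit 8) (.e (nat_lit 557067) (nat_lit 9) .nil))) (.g (nat_lit 0) (.e (nat_lit 231184) (nat_lit 0) .nil) .nil))) 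
(.lf (nat_lit 524934) (.g (nat_lit 2642) (.e (nat_lit 204876) (nat_lit 31) (.e (nat_lit 376842) (nat_lit 11) (.e (nat_lit 426497) (nat_lit 27) (.e (nat_lit 335986) (nat_lit 1) (.e (nat_lit 57926) (nat_lit 282) (.e (nat_lit 163875) (nat_lit 3) .nil)))))) (.g (nat_lit 1) (.e (nat_lit 231968) (nat_lit 0) .nil) .nil)))) (.nd (nat_lit 9) 
(.lf (nat_lit 524678) (.g (nat_lit 2250) (.e (nat_lit 204869) (nat_lit 29) (.e (nat_lit 360475) (nat_lit 8) (.e (nat_lit 557086) (nat_lit 11) (.e (nat_lit 24662) (nat_lit 14) (.e (nat_lit 401427) (nat_lit 3) .nil))))) (.g (nat_lit 0) (.e (nat_lit 231511) (nat_lit 0) .nil) .nil))) 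
(.lf (nat_lit 525190) (.g (nat_lit 3067) (.e (nat_lit 204880) (nat_lit 32) (.e (nat_lit 385068) (nat_lit 26) (.e (nat_lit 532566) (nat_lit 15) (.e (nat_lit 385066) (nat_lit 26) (.e (nat_lit 532530) (nat_lit 9) (.e (nat_lit 336324) (nat_lit 18) .nil)))))) (.g (nat_lit 1) (.e (nat_lit 232387) (nat_lit 0) .nil) .nil)))))) (.nd (nat_lit 7) (.nd (nat_lit 8) (.nd (nat_lit 9) 
(.lf (nat_lit 524358) (.g (nat_lit 548) (.e (nat_lit 204869) (nat_lit 29) (.e (nat_lit 360466) (nat_lit 3) (.e (nat_lit 516117) (nat_lit 1) .nil))) (.g (nat_lit 0) (.e (nat_lit 231065) (nat_lit 0) .nil) .nil))) 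
(.lf (nat_lit 524870) (.g (nat_lit 3801) (.e (nat_lit 204873) (nat_lit 30) (.e (nat_lit 368676) (nat_lit 21) (.e (nat_lit 516131) (nat_lit 3) (.e (nat_lit 221213) (nat_lit 23) (.e (nat_lit 204830) (nat_lit 18) (.e (nat_lit 57926) (nat_lit 282) (.e (nat_lit 163875) (nat_lit 3) .nil))))))) (.g (nat_lit 1) (.e (nat_lit 231867) (nat_lit 0) .nil) .nil)))) (.nd (nat_lit 9) 
(.lf (nat_lit 524614) (.g (nat_lit 3131) (.e (nat_lit 204869) (nat_lit 29) (.e (nat_lit 360474) (nat_lit 8) (.e (nat_lit 557093) (nat_lit 12) (.e (nat_lit 164022) (nat_lit 46) (.e (nat_lit 704647) (nat_lit 9) (.e (nat_lit 430) (nat_lit 32) (.e (nat_lit 426137) (nat_lit 3) .nil))))))) (.g (nat_lit 1) (.e (nat_lit 231432) (nat_lit 0) .nil) .nil))) 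
(.lf (nat_lit 525126) (.g (nat_lit 3394) (.e (nat_lit 204880) (nat_lit 32) (.e (nat_lit 385066) (nat_lit 26) (.e (nat_lit 532563) (nat_lit 15) (.e (nat_lit 385066) (nat_lit 26) (.e (nat_lit 532530) (nat_lit 9) (.e (nat_lit 336325) (nat_lit 18) .nil)))))) (.g (nat_lit 1) (.e (nat_lit 232303) (nat_lit 0) .nil) .nil))))) (.nd (nat_lit 8) (.nd (nat_lit 9) 
(.lf (nat_lit 524486) (.g (nat_lit 3416) (.e (nat_lit 204869) (nat_lit 29) (.e (nat_lit 360474) (nat_lit 8) (.e (nat_lit 557091) (nat_lit 12) (.e (nat_lit 163843) (nat_lit 0) (.e (nat_lit 6250) (nat_lit 337) (.e (nat_lit 2725) (nat_lit 172) (.e (nat_lit 237593) (nat_lit 3) .nil))))))) (.g (nat_lit 1) (.e (nat_lit 231276) (nat_lit 0) .nil) .nil))) 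
(.lf (nat_lit 524998) (.g (nat_lit 2828) (.e (nat_lit 204877) (nat_lit 31) (.e (nat_lit 376842) (nat_lit 11) (.e (nat_lit 426497) (nat_lit 27) (.e (nat_lit 335996) (nat_lit 1) (.e (nat_lit 57931) (nat_lit 282) (.e (nat_lit 163874) (nat_lit 3) .nil)))))) (.g (nat_lit 1) (.e (nat_lit 232076) (nat_lit 0) .nil) .nil)))) (.nd (nat_lit 9) 
(.lf (nat_lit 524742) (.g (nat_lit 1440) (.e (nat_lit 204869) (nat_lit 29) (.e (nat_lit 360475) (nat_lit 8) (.e (nat_lit 557091) (nat_lit 12) (.e (nat_lit 163841) (nat_lit 0) .nil)))) (.g (nat_lit 0) (.e (nat_lit 231623) (nat_lit 0) .nil) .nil))) 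
(.lf (nat_lit 525254) (.g (nat_lit 2232) (.e (nat_lit 204882) (nat_lit 32) (.e (nat_lit 385065) (nat_lit 26) (.e (nat_lit 532563) (nat_lit 15) (.e (nat_lit 385066) (nat_lit 26) (.e (nat_lit 532533) (nat_lit 9) (.e (nat_lit 336324) (nat_lit 18) .nil)))))) (.g (nat_lit 1) (.e (nat_lit 232653) (nat_lit 0) .nil) .nil))))))) (.nd (nat_lit 6) (.nd (nat_lit 7) (.nd (nat_lit 8) (.nd (nat_lit 9) 
(.lf (nat_lit 524326) (.g (nat_lit 2550) (.e (nat_lit 204868) (nat_lit 29) (.e (nat_lit 360475) (nat_lit 8) (.e (nat_lit 557089) (nat_lit 12) (.e (nat_lit 163850) (nat_lit 0) (.e (nat_lit 6425) (nat_lit 342) .nil))))) (.g (nat_lit 0) (.e (nat_lit 230983) (nat_lit 0) .nil) .nil))) 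
(.lf (nat_lit 524838) (.g (nat_lit 958) (.e (nat_lit 204872) (nat_lit 30) (.e (nat_lit 368676) (nat_lit 21) (.e (nat_lit 516118) (nat_lit 1) .nil))) (.g (nat_lit 0) (.e (nat_lit 231771) (nat_lit 0) .nil) .nil)))) (.nd (nat_lit 9) 
(.lf (nat_lit 524582) (.g (nat_lit 3745) (.e (nat_lit 204869) (nat_lit 29) (.e (nat_lit 360474) (nat_lit 8) (.e (nat_lit 557091) (nat_lit 12) (.e (nat_lit 164022) (nat_lit 46) (.e (nat_lit 704628) (nat_lit 9) (.e (nat_lit 399) (nat_lit 32) (.e (nat_lit 426137) (nat_lit 3) .nil))))))) (.g (nat_lit 1) (.e (nat_lit 231397) (nat_lit 0) .nil) .nil))) 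
(.lf (nat_lit 525094) (.g (nat_lit 390) (.e (nat_lit 204880) (nat_lit 32) (.e (nat_lit 385066) (nat_lit 26) (.e (nat_lit 532530) (nat_lit 9) .nil))) (.g (nat_lit 0) (.e (nat_lit 232233) (nat_lit 0) .nil) .nil))))) (.nd (nat_lit 8) (.nd (nat_lit 9) 
(.lf (nat_lit 524454) (.g (nat_lit 3236) (.e (nat_lit 204869) (nat_lit 29) (.e (nat_lit 360474) (nat_lit 8) (.e (nat_lit 557089) (nat_lit 12) (.e (nat_lit 163844) (nat_lit 0) (.e (nat_lit 6252) (nat_lit 337) (.e (nat_lit 2725) (nat_lit 172) (.e (nat_lit 237594) (nat_lit 3) .nil))))))) (.g (nat_lit 1) (.e (nat_lit 231227) (nat_lit 0) .nil) .nil))) 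
(.lf (nat_lit 524966) (.g (nat_lit 3020) (.e (nat_lit 204877) (nat_lit 31) (.e (nat_lit 376840) (nat_lit 11) (.e (nat_lit 426503) (nat_lit 27) (.e (nat_lit 335986) (nat_lit 1) (.e (nat_lit 57926) (nat_lit 282) (.e (nat_lit 163875) (nat_lit 3) .nil)))))) (.g (nat_lit 1) (.e (nat_lit 232037) (nat_lit 0) .nil) .nil)))) (.nd (nat_lit 9) 
(.lf (nat_lit 524710) (.g (nat_lit 4038) (.e (nat_lit 204869) (nat_lit 29) (.e (nat_lit 360475) (nat_lit 8) (.e (nat_lit 557089) (nat_lit 12) (.e (nat_lit 163849) (nat_lit 0) (.e (nat_lit 6255) (nat_lit 337) (.e (nat_lit 2725) (nat_lit 172) (.e (nat_lit 237592) (nat_lit 3) .nil))))))) (.g (nat_lit 1) (.e (nat_lit 231544) (nat_lit 0) .nil) .nil))) 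
(.lf (nat_lit 525222) (.g (nat_lit 393) (.e (nat_lit 204881) (nat_lit 32) (.e (nat_lit 385066) (nat_lit 26) (.e (nat_lit 532566) (nat_lit 15) .nil))) (.g (nat_lit 0) (.e (nat_lit 232531) (nat_lit 0) .nil) .nil)))))) (.nd (nat_lit 7) (.nd (nat_lit 8) (.nd (nat_lit 9) 
(.lf (nat_lit 524390) (.g (nat_lit 1371) (.e (nat_lit 204869) (nat_lit 29) (.e (nat_lit 360473) (nat_lit 8) (.e (nat_lit 557070) (nat_lit 9) (.e (nat_lit 296) (nat_lit 22) .nil)))) (.g (nat_lit 0) (.e (nat_lit 231145) (nat_lit 0) .nil) .nil))) 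
(.lf (nat_lit 524902) (.g (nat_lit 2942) (.e (nat_lit 204876) (nat_lit 31) (.e (nat_lit 376840) (nat_lit 11) (.e (nat_lit 426503) (nat_lit 27) (.e (nat_lit 335986) (nat_lit 1) (.e (nat_lit 57926) (nat_lit 282) (.e (nat_lit 163875) (nat_lit 3) .nil)))))) (.g (nat_lit 1) (.e (nat_lit 231928) (nat_lit 0) .nil) .nil)))) (.nd (nat_lit 9) 
(.lf (nat_lit 524646) (.g (nat_lit 4815) (.e (nat_lit 204869) (nat_lit 29) (.e (nat_lit 360475) (nat_lit 8) (.e (nat_lit 557067) (nat_lit 9) (.e (nat_lit 214) (nat_lit 19) (.e (nat_lit 319491) (nat_lit 0) (.e (nat_lit 5626) (nat_lit 312) (.e (nat_lit 2685) (nat_lit 168) .nil))))))) (.g (nat_lit 1) (.e (nat_lit 231474) (nat_lit 0) .nil) .nil))) 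
(.lf (nat_lit 525158) (.g (nat_lit 1750) (.e (nat_lit 204880) (nat_lit 32) (.e (nat_lit 385068) (nat_lit 26) (.e (nat_lit 532503) (nat_lit 1) (.e (nat_lit 57844) (nat_lit 252) .nil)))) (.g (nat_lit 0) (.e (nat_lit 232343) (nat_lit 0) .nil) .nil))))) (.nd (nat_lit 8) (.nd (nat_lit 9) 
(.lf (nat_lit 524518) (.g (nat_lit 1292) (.e (nat_lit 204869) (nat_lit 29) (.e (nat_lit 360474) (nat_lit 8) (.e (nat_lit 557091) (nat_lit 12) (.e (nat_lit 163850) (nat_lit 0) .nil)))) (.g (nat_lit 0) (.e (nat_lit 231316) (nat_lit 0) .nil) .nil))) 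
(.lf (nat_lit 525030) (.g (nat_lit 1621) (.e (nat_lit 204877) (nat_lit 31) (.e (nat_lit 376865) (nat_lit 22) (.e (nat_lit 90174) (nat_lit 14) (.e (nat_lit 180225) (nat_lit 0) .nil)))) (.g (nat_lit 0) (.e (nat_lit 232123) (nat_lit 0) .nil) .nil)))) (.nd (nat_lit 9) 
(.lf (nat_lit 524774) (.g (nat_lit 4762) (.e (nat_lit 204869) (nat_lit 29) (.e (nat_lit 360475) (nat_lit 8) (.e (nat_lit 557091) (nat_lit 12) (.e (nat_lit 164020) (nat_lit 45) (.e (nat_lit 696344) (nat_lit 8) (.e (nat_lit 172067) (nat_lit 3) .nil)))))) (.g (nat_lit 1) (.e (nat_lit 231660) (nat_lit 0) .nil) .nil))) 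
(.lf (nat_lit 525286) (.g (nat_lit 3102) (.e (nat_lit 204882) (nat_lit 32) (.e (nat_lit 385066) (nat_lit 26) (.e (nat_lit 532533) (nat_lit 9) (.e (nat_lit 336324) (nat_lit 18) (.e (nat_lit 204854) (nat_lit 26) (.e (nat_lit 336326) (nat_lit 18) .nil)))))) (.g (nat_lit 1) (.e (nat_lit 232688) (nat_lit 0) .nil) .nil)))))))) 
(.nd (nat_lit 5) (.nd (nat_lit 6) (.nd (nat_lit 7) (.nd (nat_lit 8) (.nd (nat_lit 9) 
(.lf (nat_lit 524310) (.g (nat_lit 2157) (.e (nat_lit 204868) (nat_lit 29) (.e (nat_lit 360475) (nat_lit 8) (.e (nat_lit 557087) (nat_lit 11) (.e (nat_lit 24594) (nat_lit 0) .nil)))) (.g (nat_lit 0) (.e (nat_lit 230967) (nat_lit 0) .nil) .nil))) 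
(.lf (nat_lit 524822) (.g (nat_lit 1911) (.e (nat_lit 212736) (nat_lit 29) (.e (nat_lit 360467) (nat_lit 3) (.e (nat_lit 516139) (nat_lit 7) (.e (nat_lit 409644) (nat_lit 18) .nil)))) (.g (nat_lit 0) (.e (nat_lit 231726) (nat_lit 0) .nil) .nil)))) (.nd (nat_lit 9) 
(.lf (nat_lit 524566) (.g (nat_lit 4376) (.e (nat_lit 204869) (nat_lit 29) (.e (nat_lit 360474) (nat_lit 8) (.e (nat_lit 557091) (nat_lit 12) (.e (nat_lit 164020) (nat_lit 45) (.e (nat_lit 696330) (nat_lit 5) (.e (nat_lit 2888) (nat_lit 184) (.e (nat_lit 426136) (nat_lit 3) .nil))))))) (.g (nat_lit 1) (.e (nat_lit 231378) (nat_lit 0) .nil) .nil))) 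
(.lf (nat_lit 525078) (.g (nat_lit 979) (.e (nat_lit 204879) (nat_lit 32) (.e (nat_lit 385109) (nat_lit 51) (.e (nat_lit 794665) (nat_lit 22) .nil))) (.g (nat_lit 0) (.e (nat_lit 232197) (nat_lit 0) .nil) .nil))))) (.nd (nat_lit 8) (.nd (nat_lit 9) 
(.lf (nat_lit 524438) (.g (nat_lit 2181) (.e (nat_lit 204869) (nat_lit 29) (.e (nat_lit 360474) (nat_lit 8) (.e (nat_lit 557085) (nat_lit 11) (.e (nat_lit 24663) (nat_lit 14) (.e (nat_lit 401426) (nat_lit 3) .nil))))) (.g (nat_lit 0) (.e (nat_lit 231209) (nat_lit 0) .nil) .nil))) 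
(.lf (nat_lit 524950) (.g (nat_lit 1062) (.e (nat_lit 204876) (nat_lit 31) (.e (nat_lit 376868) (nat_lit 23) (.e (nat_lit 98350) (nat_lit 24) (.e (nat_lit 417536) (nat_lit 18) .nil)))) (.g (nat_lit 0) (.e (nat_lit 231996) (nat_lit 0) .nil) .nil)))) (.nd (nat_lit 9) 
(.lf (nat_lit 524694) (.g (nat_lit 3596) (.e (nat_lit 204869) (nat_lit 29) (.e (nat_lit 360475) (nat_lit 8) (.e (nat_lit 557087) (nat_lit 11) (.e (nat_lit 24662) (nat_lit 14) (.e (nat_lit 401427) (nat_lit 3) .nil))))) (.g (nat_lit 1) (.e (nat_lit 231527) (nat_lit 0) .nil) .nil))) 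
(.lf (nat_lit 525206) (.g (nat_lit 3093) (.e (nat_lit 204881) (nat_lit 32) (.e (nat_lit 385066) (nat_lit 26) (.e (nat_lit 532530) (nat_lit 9) (.e (nat_lit 336326) (nat_lit 18) (.e (nat_lit 204852) (nat_lit 26) (.e (nat_lit 336324) (nat_lit 18) .nil)))))) (.g (nat_lit 1) (.e (nat_lit 232510) (nat_lit 0) .nil) .nil)))))) (.nd (nat_lit 7) (.nd (nat_lit 8) (.nd (nat_lit 9) 
(.lf (nat_lit 524374) (.g (nat_lit 3103) (.e (nat_lit 204869) (nat_lit 29) (.e (nat_lit 360468) (nat_lit 3) (.e (nat_lit 516139) (nat_lit 7) (.e (nat_lit 409648) (nat_lit 18) (.e (nat_lit 311040) (nat_lit 3) .nil))))) (.g (nat_lit 1) (.e (nat_lit 231120) (nat_lit 0) .nil) .nil))) 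
(.lf (nat_lit 524886) (.g (nat_lit 1290) (.e (nat_lit 204875) (nat_lit 31) (.e (nat_lit 376862) (nat_lit 22) (.e (nat_lit 90185) (nat_lit 17) (.e (nat_lit 237584) (nat_lit 1) .nil)))) (.g (nat_lit 0) (.e (nat_lit 231895) (nat_lit 0) .nil) .nil)))) (.nd (nat_lit 9) 
(.lf (nat_lit 524630) (.g (nat_lit 3613) (.e (nat_lit 204869) (nat_lit 29) (.e (nat_lit 360474) (nat_lit 8) (.e (nat_lit 557094) (nat_lit 12) (.e (nat_lit 164022) (nat_lit 46) (.e (nat_lit 704628) (nat_lit 9) (.e (nat_lit 391) (nat_lit 32) (.e (nat_lit 426137) (nat_lit 3) .nil))))))) (.g (nat_lit 1) (.e (nat_lit 231448) (nat_lit 0) .nil) .nil))) 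
(.lf (nat_lit 525142) (.g (nat_lit 1858) (.e (nat_lit 204880) (nat_lit 32) (.e (nat_lit 385066) (nat_lit 26) (.e (nat_lit 532566) (nat_lit 15) (.e (nat_lit 385066) (nat_lit 26) (.e (nat_lit 532529) (nat_lit 9) (.e (nat_lit 336326) (nat_lit 18) .nil)))))) (.g (nat_lit 1) (.e (nat_lit 232320) (nat_lit 0) .nil) .nil))))) (.nd (nat_lit 8) (.nd (nat_lit 9) 
(.lf (nat_lit 524502) (.g (nat_lit 4403) (.e (nat_lit 204869) (nat_lit 29) (.e (nat_lit 360474) (nat_lit 8) (.e (nat_lit 557091) (nat_lit 12) (.e (nat_lit 163844) (nat_lit 0) (.e (nat_lit 6254) (nat_lit 337) (.e (nat_lit 2725) (nat_lit 172) (.e (nat_lit 237594) (nat_lit 3) .nil))))))) (.g (nat_lit 1) (.e (nat_lit 231300) (nat_lit 0) .nil) .nil))) 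
(.lf (nat_lit 525014) (.g (nat_lit 705) (.e (nat_lit 204877) (nat_lit 31) (.e (nat_lit 376865) (nat_lit 22) (.e (nat_lit 90121) (nat_lit 9) .nil))) (.g (nat_lit 0) (.e (nat_lit 232099) (nat_lit 0) .nil) .nil)))) (.nd (nat_lit 9) 
(.lf (nat_lit 524758) (.g (nat_lit 5327) (.e (nat_lit 204869) (nat_lit 29) (.e (nat_lit 360475) (nat_lit 8) (.e (nat_lit 557091) (nat_lit 12) (.e (nat_lit 163844) (nat_lit 0) (.e (nat_lit 6420) (nat_lit 341) (.e (nat_lit 163843) (nat_lit 0) (.e (nat_lit 7936) (nat_lit 388) (.e (nat_lit 2685) (nat_lit 168) .nil)))))))) (.g (nat_lit 1) (.e (nat_lit 231641) (nat_lit 0) .nil) .nil))) 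
(.lf (nat_lit 525270) (.g (nat_lit 3617) (.e (nat_lit 204882) (nat_lit 32) (.e (nat_lit 385066) (nat_lit 26) (.e (nat_lit 532530) (nat_lit 9) (.e (nat_lit 336325) (nat_lit 18) (.e (nat_lit 204852) (nat_lit 26) (.e (nat_lit 336326) (nat_lit 18) .nil)))))) (.g (nat_lit 1) (.e (nat_lit 232672) (nat_lit 0) .nil) .nil))))))) (.nd (nat_lit 6) (.nd (nat_lit 7) (.nd (nat_lit 8) (.nd (nat_lit 9) 
(.lf (nat_lit 524342) (.g (nat_lit 4261) (.e (nat_lit 204868) (nat_lit 29) (.e (nat_lit 360475) (nat_lit 8) (.e (nat_lit 557091) (nat_lit 12) (.e (nat_lit 163843) (nat_lit 0) (.e (nat_lit 6418) (nat_lit 341) (.e (nat_lit 163908) (nat_lit 12) (.e (nat_lit 426132) (nat_lit 3) .nil))))))) (.g (nat_lit 1) (.e (nat_lit 231001) (nat_lit 0) .nil) .nil))) 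
(.lf (nat_lit 524854) (.g (nat_lit 1498) (.e (nat_lit 204872) (nat_lit 30) (.e (nat_lit 368676) (nat_lit 21) (.e (nat_lit 516195) (nat_lit 26) (.e (nat_lit 336027) (nat_lit 3) .nil)))) (.g (nat_lit 0) (.e (nat_lit 231806) (nat_lit 0) .nil) .nil)))) (.nd (nat_lit 9) 
(.lf (nat_lit 524598) (.g (nat_lit 3071) (.e (nat_lit 204869) (nat_lit 29) (.e (nat_lit 360474) (nat_lit 8) (.e (nat_lit 557093) (nat_lit 12) (.e (nat_lit 164022) (nat_lit 46) (.e (nat_lit 704627) (nat_lit 9) (.e (nat_lit 398) (nat_lit 32) (.e (nat_lit 426137) (nat_lit 3) .nil))))))) (.g (nat_lit 1) (.e (nat_lit 231415) (nat_lit 0) .nil) .nil))) 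
(.lf (nat_lit 525110) (.g (nat_lit 2908) (.e (nat_lit 204880) (nat_lit 32) (.e (nat_lit 385066) (nat_lit 26) (.e (nat_lit 532533) (nat_lit 9) (.e (nat_lit 336324) (nat_lit 18) (.e (nat_lit 204854) (nat_lit 26) (.e (nat_lit 336324) (nat_lit 18) .nil)))))) (.g (nat_lit 1) (.e (nat_lit 232253) (nat_lit 0) .nil) .nil))))) (.nd (nat_lit 8) (.nd (nat_lit 9) 
(.lf (nat_lit 524470) (.g (nat_lit 399) (.e (nat_lit 204869) (nat_lit 29) (.e (nat_lit 360474) (nat_lit 8) (.e (nat_lit 557091) (nat_lit 12) .nil))) (.g (nat_lit 0) (.e (nat_lit 231244) (nat_lit 0) .nil) .nil))) 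
(.lf (nat_lit 524982) (.g (nat_lit 1156) (.e (nat_lit 204877) (nat_lit 31) (.e (nat_lit 376842) (nat_lit 11) (.e (nat_lit 426387) (nat_lit 15) (.e (nat_lit 6214) (nat_lit 333) .nil)))) (.g (nat_lit 0) (.e (nat_lit 232056) (nat_lit 0) .nil) .nil)))) (.nd (nat_lit 9) 
(.lf (nat_lit 524726) (.g (nat_lit 4571) (.e (nat_lit 204869) (nat_lit 29) (.e (nat_lit 360475) (nat_lit 8) (.e (nat_lit 557090) (nat_lit 12) (.e (nat_lit 163843) (nat_lit 0) (.e (nat_lit 6255) (nat_lit 337) (.e (nat_lit 2725) (nat_lit 172) (.e (nat_lit 237592) (nat_lit 3) .nil))))))) (.g (nat_lit 1) (.e (nat_lit 231581) (nat_lit 0) .nil) .nil))) 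
(.lf (nat_lit 525238) (.g (nat_lit 2631) (.e (nat_lit 204881) (nat_lit 32) (.e (nat_lit 385107) (nat_lit 51) (.e (nat_lit 794665) (nat_lit 22) (.e (nat_lit 196654) (nat_lit 11) (.e (nat_lit 16436) (nat_lit 9) (.e (nat_lit 426131) (nat_lit 3) .nil)))))) (.g (nat_lit 1) (.e (nat_lit 232555) (nat_lit 0) .nil) .nil)))))) (.nd (nat_lit 7) (.nd (nat_lit 8) (.nd (nat_lit 9) 
(.lf (nat_lit 524406) (.g (nat_lit 2363) (.e (nat_lit 204869) (nat_lit 29) (.e (nat_lit 360473) (nat_lit 8) (.e (nat_lit 557090) (nat_lit 12) (.e (nat_lit 164020) (nat_lit 45) (.e (nat_lit 696342) (nat_lit 8) .nil))))) (.g (nat_lit 0) (.e (nat_lit 231161) (nat_lit 0) .nil) .nil))) 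
(.lf (nat_lit 524918) (.g (nat_lit 1236) (.e (nat_lit 204876) (nat_lit 31) (.e (nat_lit 376842) (nat_lit 11) (.e (nat_lit 426106) (nat_lit 1) (.e (nat_lit 164183) (nat_lit 154) (.e (nat_lit 57410) (nat_lit 12) .nil))))) (.g (nat_lit 0) (.e (nat_lit 231946) (nat_lit 0) .nil) .nil)))) (.nd (nat_lit 9) 
(.lf (nat_lit 524662) (.g (nat_lit 1048) (.e (nat_lit 204869) (nat_lit 29) (.e (nat_lit 360475) (nat_lit 8) (.e (nat_lit 557078) (nat_lit 9) .nil))) (.g (nat_lit 0) (.e (nat_lit 231492) (nat_lit 0) .nil) .nil))) 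
(.lf (nat_lit 525174) (.g (nat_lit 1547) (.e (nat_lit 204880) (nat_lit 32) (.e (nat_lit 385068) (nat_lit 26) (.e (nat_lit 532530) (nat_lit 9) (.e (nat_lit 336326) (nat_lit 18) .nil)))) (.g (nat_lit 0) (.e (nat_lit 232369) (nat_lit 0) .nil) .nil))))) (.nd (nat_lit 8) (.nd (nat_lit 9) 
(.lf (nat_lit 524534) (.g (nat_lit 3312) (.e (nat_lit 204869) (nat_lit 29) (.e (nat_lit 360474) (nat_lit 8) (.e (nat_lit 557091) (nat_lit 12) (.e (nat_lit 164017) (nat_lit 44) (.e (nat_lit 688138) (nat_lit 5) (.e (nat_lit 2906) (nat_lit 184) (.e (nat_lit 426137) (nat_lit 3) .nil))))))) (.g (nat_lit 1) (.e (nat_lit 231344) (nat_lit 0) .nil) .nil))) 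
(.lf (nat_lit 525046) (.g (nat_lit 862) (.e (nat_lit 204878) (nat_lit 31) (.e (nat_lit 376842) (nat_lit 11) (.e (nat_lit 426500) (nat_lit 27) .nil))) (.g (nat_lit 0) (.e (nat_lit 232142) (nat_lit 0) .nil) .nil)))) (.nd (nat_lit 9) 
(.lf (nat_lit 524790) (.g (nat_lit 1436) (.e (nat_lit 204869) (nat_lit 29) (.e (nat_lit 360475) (nat_lit 8) (.e (nat_lit 557093) (nat_lit 12) (.e (nat_lit 164023) (nat_lit 46) .nil)))) (.g (nat_lit 0) (.e (nat_lit 231676) (nat_lit 0) .nil) .nil))) 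
(.lf (nat_lit 525302) (.g (nat_lit 2271) (.e (nat_lit 204882) (nat_lit 32) (.e (nat_lit 385066) (nat_lit 26) (.e (nat_lit 532563) (nat_lit 15) (.e (nat_lit 385068) (nat_lit 26) (.e (nat_lit 532534) (nat_lit 9) (.e (nat_lit 336326) (nat_lit 18) .nil)))))) (.g (nat_lit 1) (.e (nat_lit 232709) (nat_lit 0) .nil) .nil))))))))) 
(.nd (nat_lit 4) (.nd (nat_lit 5) (.nd (nat_lit 6) (.nd (nat_lit 7) (.nd (nat_lit 8) 
(.nd (nat_lit 9) 
(.lf (nat_lit 524302) (.g (nat_lit 3491) (.e (nat_lit 204868) (nat_lit 29) (.e (nat_lit 360475) (nat_lit 8) (.e (nat_lit 557086) (nat_lit 11) (.e (nat_lit 24664) (nat_lit 14) (.e (nat_lit 401426) (nat_lit 3) .nil))))) (.g (nat_lit 1) (.e (nat_lit 230957) (nat_lit 0) .nil) .nil))) 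
(.lf (nat_lit 524814) (.g (nat_lit 578) (.e (nat_lit 204870) (nat_lit 29) (.e (nat_lit 360473) (nat_lit 8) (.e (nat_lit 557087) (nat_lit 11) .nil))) (.g (nat_lit 0) (.e (nat_lit 231713) (nat_lit 0) .nil) .nil)))) (.nd (nat_lit 9) 
(.lf (nat_lit 524558) (.g (nat_lit 4464) (.e (nat_lit 204869) (nat_lit 29) (.e (nat_lit 360474) (nat_lit 8) (.e (nat_lit 557091) (nat_lit 12) (.e (nat_lit 164020) (nat_lit 45) (.e (nat_lit 696329) (nat_lit 5) (.e (nat_lit 2869) (nat_lit 184) (.e (nat_lit 426135) (nat_lit 3) .nil))))))) (.g (nat_lit 1) (.e (nat_lit 231370) (nat_lit 0) .nil) .nil))) 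
(.lf (nat_lit 525070) (.g (nat_lit 2221) (.e (nat_lit 204879) (nat_lit 32) (.e (nat_lit 385068) (nat_lit 26) (.e (nat_lit 532530) (nat_lit 9) (.e (nat_lit 336325) (nat_lit 18) .nil)))) (.g (nat_lit 0) (.e (nat_lit 232187) (nat_lit 0) .nil) .nil))))) (.nd (nat_lit 8) (.nd (nat_lit 9) 
(.lf (nat_lit 524430) (.g (nat_lit 1189) (.e (nat_lit 204869) (nat_lit 29) (.e (nat_lit 360474) (nat_lit 8) (.e (nat_lit 557075) (nat_lit 9) .nil))) (.g (nat_lit 0) (.e (nat_lit 231197) (nat_lit 0) .nil) .nil))) 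
(.lf (nat_lit 524942) (.g (nat_lit 2446) (.e (nat_lit 204876) (nat_lit 31) (.e (nat_lit 376842) (nat_lit 11) (.e (nat_lit 426521) (nat_lit 27) (.e (nat_lit 335988) (nat_lit 1) (.e (nat_lit 57927) (nat_lit 282) (.e (nat_lit 163875) (nat_lit 3) .nil)))))) (.g (nat_lit 1) (.e (nat_lit 231976) (nat_lit 0) .nil) .nil)))) (.nd (nat_lit 9) 
(.lf (nat_lit 524686) (.g (nat_lit 4243) (.e (nat_lit 204869) (nat_lit 29) (.e (nat_lit 360475) (nat_lit 8) (.e (nat_lit 557087) (nat_lit 11) (.e (nat_lit 24580) (nat_lit 0) (.e (nat_lit 6665) (nat_lit 357) (.e (nat_lit 7936) (nat_lit 168) .nil)))))) (.g (nat_lit 1) (.e (nat_lit 231519) (nat_lit 0) .nil) .nil))) 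
(.lf (nat_lit 525198) (.g (nat_lit 1346) (.e (nat_lit 204881) (nat_lit 32) (.e (nat_lit 385066) (nat_lit 26) (.e (nat_lit 532530) (nat_lit 9) (.e (nat_lit 336316) (nat_lit 17) (.e (nat_lit 196663) (nat_lit 13) .nil))))) (.g (nat_lit 0) (.e (nat_lit 232502) (nat_lit 0) .nil) .nil)))))) (.nd (nat_lit 7) (.nd (nat_lit 8) (.nd (nat_lit 9) 
(.lf (nat_lit 524366) (.g (nat_lit 1631) (.e (nat_lit 204869) (nat_lit 29) (.e (nat_lit 360467) (nat_lit 3) (.e (nat_lit 516139) (nat_lit 7) (.e (nat_lit 409616) (nat_lit 10) (.e (nat_lit 7936) (nat_lit 312) .nil))))) (.g (nat_lit 0) (.e (nat_lit 231089) (nat_lit 0) .nil) .nil))) 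
(.lf (nat_lit 524878) (.g (nat_lit 2867) (.e (nat_lit 204874) (nat_lit 30) (.e (nat_lit 368676) (nat_lit 21) (.e (nat_lit 516131) (nat_lit 3) (.e (nat_lit 221215) (nat_lit 23) (.e (nat_lit 204829) (nat_lit 18) .nil))))) (.g (nat_lit 0) (.e (nat_lit 231885) (nat_lit 0) .nil) .nil)))) (.nd (nat_lit 9) 
(.lf (nat_lit 524622) (.g (nat_lit 3190) (.e (nat_lit 204869) (nat_lit 29) (.e (nat_lit 360474) (nat_lit 8) (.e (nat_lit 557094) (nat_lit 12) (.e (nat_lit 163849) (nat_lit 0) (.e (nat_lit 6254) (nat_lit 337) (.e (nat_lit 2725) (nat_lit 172) (.e (nat_lit 237592) (nat_lit 3) .nil))))))) (.g (nat_lit 1) (.e (nat_lit 231440) (nat_lit 0) .nil) .nil))) 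
(.lf (nat_lit 525134) (.g (nat_lit 1866) (.e (nat_lit 204880) (nat_lit 32) (.e (nat_lit 385066) (nat_lit 26) (.e (nat_lit 532565) (nat_lit 15) (.e (nat_lit 385065) (nat_lit 26) (.e (nat_lit 532529) (nat_lit 9) (.e (nat_lit 336322) (nat_lit 18) .nil)))))) (.g (nat_lit 1) (.e (nat_lit 232311) (nat_lit 0) .nil) .nil))))) (.nd (nat_lit 8) (.nd (nat_lit 9) 
(.lf (nat_lit 524494) (.g (nat_lit 4940) (.e (nat_lit 204869) (nat_lit 29) (.e (nat_lit 360474) (nat_lit 8) (.e (nat_lit 557091) (nat_lit 12) (.e (nat_lit 163843) (nat_lit 0) (.e (nat_lit 6255) (nat_lit 337) (.e (nat_lit 2725) (nat_lit 172) (.e (nat_lit 237594) (nat_lit 3) .nil))))))) (.g (nat_lit 1) (.e (nat_lit 231286) (nat_lit 0) .nil) .nil))) 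
(.lf (nat_lit 525006) (.g (nat_lit 649) (.e (nat_lit 204877) (nat_lit 31) (.e (nat_lit 376842) (nat_lit 11) (.e (nat_lit 426521) (nat_lit 27) .nil))) (.g (nat_lit 0) (.e (nat_lit 232084) (nat_lit 0) .nil) .nil)))) (.nd (nat_lit 9) 
(.lf (nat_lit 524750) (.g (nat_lit 4239) (.e (nat_lit 204869) (nat_lit 29) (.e (nat_lit 360475) (nat_lit 8) (.e (nat_lit 557091) (nat_lit 12) (.e (nat_lit 163843) (nat_lit 0) (.e (nat_lit 6416) (nat_lit 341) (.e (nat_lit 163850) (nat_lit 0) (.e (nat_lit 7936) (nat_lit 388) (.e (nat_lit 2684) (nat_lit 168) .nil)))))))) (.g (nat_lit 1) (.e (nat_lit 231633) (nat_lit 0) .nil) .nil))) 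
(.lf (nat_lit 525262) (.g (nat_lit 3098) (.e (nat_lit 204882) (nat_lit 32) (.e (nat_lit 385066) (nat_lit 26) (.e (nat_lit 532528) (nat_lit 9) (.e (nat_lit 336324) (nat_lit 18) (.e (nat_lit 204854) (nat_lit 26) (.e (nat_lit 336326) (nat_lit 18) .nil)))))) (.g (nat_lit 1) (.e (nat_lit 232664) (nat_lit 0) .nil) .nil))))))) (.nd (nat_lit 6) (.nd (nat_lit 7) (.nd (nat_lit 8) (.nd (nat_lit 9) 
(.lf (nat_lit 524334) (.g (nat_lit 571) (.e (nat_lit 204868) (nat_lit 29) (.e (nat_lit 360475) (nat_lit 8) (.e (nat_lit 557091) (nat_lit 12) .nil))) (.g (nat_lit 0) (.e (nat_lit 230992) (nat_lit 0) .nil) .nil))) 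
(.lf (nat_lit 524846) (.g (nat_lit 967) (.e (nat_lit 204872) (nat_lit 30) (.e (nat_lit 368676) (nat_lit 21) (.e (nat_lit 516131) (nat_lit 3) (.e (nat_lit 221212) (nat_lit 22) .nil)))) (.g (nat_lit 0) (.e (nat_lit 231790) (nat_lit 0) .nil) .nil)))) (.nd (nat_lit 9) 
(.lf (nat_lit 524590) (.g (nat_lit 1529) (.e (nat_lit 204869) (nat_lit 29) (.e (nat_lit 360474) (nat_lit 8) (.e (nat_lit 557091) (nat_lit 12) (.e (nat_lit 171776) (nat_lit 46) .nil)))) (.g (nat_lit 0) (.e (nat_lit 231405) (nat_lit 0) .nil) .nil))) 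
(.lf (nat_lit 525102) (.g (nat_lit 2715) (.e (nat_lit 204880) (nat_lit 32) (.e (nat_lit 385066) (nat_lit 26) (.e (nat_lit 532531) (nat_lit 9) (.e (nat_lit 336324) (nat_lit 18) (.e (nat_lit 204854) (nat_lit 26) (.e (nat_lit 336322) (nat_lit 18) .nil)))))) (.g (nat_lit 1) (.e (nat_lit 232242) (nat_lit 0) .nil) .nil))))) (.nd (nat_lit 8) (.nd (nat_lit 9) 
(.lf (nat_lit 524462) (.g (nat_lit 4719) (.e (nat_lit 204869) (nat_lit 29) (.e (nat_lit 360474) (nat_lit 8) (.e (nat_lit 557089) (nat_lit 12) (.e (nat_lit 163850) (nat_lit 0) (.e (nat_lit 6425) (nat_lit 342) (.e (nat_lit 229402) (nat_lit 12) (.e (nat_lit 426136) (nat_lit 3) .nil))))))) (.g (nat_lit 1) (.e (nat_lit 231236) (nat_lit 0) .nil) .nil))) 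
(.lf (nat_lit 524974) (.g (nat_lit 1532) (.e (nat_lit 204877) (nat_lit 31) (.e (nat_lit 376842) (nat_lit 11) (.e (nat_lit 426098) (nat_lit 1) (.e (nat_lit 164183) (nat_lit 154) (.e (nat_lit 65280) (nat_lit 12) .nil))))) (.g (nat_lit 0) (.e (nat_lit 232048) (nat_lit 0) .nil) .nil)))) (.nd (nat_lit 9) 
(.lf (nat_lit 524718) (.g (nat_lit 4443) (.e (nat_lit 204869) (nat_lit 29) (.e (nat_lit 360475) (nat_lit 8) (.e (nat_lit 557089) (nat_lit 12) (.e (nat_lit 164020) (nat_lit 45) (.e (nat_lit 696344) (nat_lit 8) (.e (nat_lit 172065) (nat_lit 3) .nil)))))) (.g (nat_lit 1) (.e (nat_lit 231554) (nat_lit 0) .nil) .nil))) 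
(.lf (nat_lit 525230) (.g (nat_lit 1724) (.e (nat_lit 204881) (nat_lit 32) (.e (nat_lit 385068) (nat_lit 26) (.e (nat_lit 532503) (nat_lit 1) (.e (nat_lit 57847) (nat_lit 252) .nil)))) (.g (nat_lit 0) (.e (nat_lit 232539) (nat_lit 0) .nil) .nil)))))) (.nd (nat_lit 7) (.nd (nat_lit 8) (.nd (nat_lit 9) 
(.lf (nat_lit 524398) (.g (nat_lit 4431) (.e (nat_lit 204869) (nat_lit 29) (.e (nat_lit 360473) (nat_lit 8) (.e (nat_lit 557087) (nat_lit 11) (.e (nat_lit 24661) (nat_lit 14) (.e (nat_lit 401427) (nat_lit 3) .nil))))) (.g (nat_lit 1) (.e (nat_lit 231153) (nat_lit 0) .nil) .nil))) 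
(.lf (nat_lit 524910) (.g (nat_lit 1690) (.e (nat_lit 204876) (nat_lit 31) (.e (nat_lit 376842) (nat_lit 11) (.e (nat_lit 426098) (nat_lit 1) (.e (nat_lit 164180) (nat_lit 154) .nil)))) (.g (nat_lit 0) (.e (nat_lit 231938) (nat_lit 0) .nil) .nil)))) (.nd (nat_lit 9) 
(.lf (nat_lit 524654) (.g (nat_lit 1009) (.e (nat_lit 204869) (nat_lit 29) (.e (nat_lit 360475) (nat_lit 8) (.e (nat_lit 557069) (nat_lit 9) .nil))) (.g (nat_lit 0) (.e (nat_lit 231483) (nat_lit 0) .nil) .nil))) 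
(.lf (nat_lit 525166) (.g (nat_lit 1116) (.e (nat_lit 204880) (nat_lit 32) (.e (nat_lit 385068) (nat_lit 26) (.e (nat_lit 532528) (nat_lit 9) .nil))) (.g (nat_lit 0) (.e (nat_lit 232361) (nat_lit 0) .nil) .nil))))) (.nd (nat_lit 8) (.nd (nat_lit 9) 
(.lf (nat_lit 524526) (.g (nat_lit 3860) (.e (nat_lit 204869) (nat_lit 29) (.e (nat_lit 360474) (nat_lit 8) (.e (nat_lit 557091) (nat_lit 12) (.e (nat_lit 163850) (nat_lit 0) (.e (nat_lit 6428) (nat_lit 342) (.e (nat_lit 229404) (nat_lit 12) (.e (nat_lit 426137) (nat_lit 3) .nil))))))) (.g (nat_lit 1) (.e (nat_lit 231331) (nat_lit 0) .nil) .nil))) 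
(.lf (nat_lit 525038) (.g (nat_lit 1058) (.e (nat_lit 204877) (nat_lit 31) (.e (nat_lit 376867) (nat_lit 23) (.e (nat_lit 98350) (nat_lit 24) (.e (nat_lit 409646) (nat_lit 18) .nil)))) (.g (nat_lit 0) (.e (nat_lit 232134) (nat_lit 0) .nil) .nil)))) (.nd (nat_lit 9) 
(.lf (nat_lit 524782) (.g (nat_lit 6605) (.e (nat_lit 204869) (nat_lit 29) (.e (nat_lit 360475) (nat_lit 8) (.e (nat_lit 557091) (nat_lit 12) (.e (nat_lit 164022) (nat_lit 46) (.e (nat_lit 704629) (nat_lit 9) (.e (nat_lit 375) (nat_lit 32) (.e (nat_lit 426135) (nat_lit 3) .nil))))))) (.g (nat_lit 1) (.e (nat_lit 231668) (nat_lit 0) .nil) .nil))) 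
(.lf (nat_lit 525294) (.g (nat_lit 1765) (.e (nat_lit 204882) (nat_lit 32) (.e (nat_lit 385066) (nat_lit 26) (.e (nat_lit 532534) (nat_lit 9) (.e (nat_lit 343808) (nat_lit 18) .nil)))) (.g (nat_lit 0) (.e (nat_lit 232697) (nat_lit 0) .nil) .nil)))))))) (.nd (nat_lit 5) (.nd (nat_lit 6) (.nd (nat_lit 7) (.nd (nat_lit 8) (.nd (nat_lit 9) 
(.lf (nat_lit 524318) (.g (nat_lit 1130) (.e (nat_lit 204868) (nat_lit 29) (.e (nat_lit 360475) (nat_lit 8) (.e (nat_lit 557088) (nat_lit 12) .nil))) (.g (nat_lit 0) (.e (nat_lit 230975) (nat_lit 0) .nil) .nil))) 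
(.lf (nat_lit 524830) (.g (nat_lit 2716) (.e (nat_lit 204871) (nat_lit 30) (.e (nat_lit 368676) (nat_lit 21) (.e (nat_lit 516131) (nat_lit 3) (.e (nat_lit 221212) (nat_lit 22) (.e (nat_lit 196691) (nat_lit 18) .nil))))) (.g (nat_lit 0) (.e (nat_lit 231749) (nat_lit 0) .nil) .nil)))) (.nd (nat_lit 9) 
(.lf (nat_lit 524574) (.g (nat_lit 3240) (.e (nat_lit 204869) (nat_lit 29) (.e (nat_lit 360474) (nat_lit 8) (.e (nat_lit 557091) (nat_lit 12) (.e (nat_lit 164020) (nat_lit 45) (.e (nat_lit 696348) (nat_lit 12) (.e (nat_lit 237593) (nat_lit 3) .nil)))))) (.g (nat_lit 1) (.e (nat_lit 231389) (nat_lit 0) .nil) .nil))) 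
(.lf (nat_lit 525086) (.g (nat_lit 5165) (.e (nat_lit 204880) (nat_lit 32) (.e (nat_lit 385066) (nat_lit 26) (.e (nat_lit 532502) (nat_lit 1) (.e (nat_lit 57854) (nat_lit 252) (.e (nat_lit 57378) (nat_lit 3) (.e (nat_lit 98338) (nat_lit 19) (.e (nat_lit 213013) (nat_lit 9) (.e (nat_lit 2684) (nat_lit 168) .nil)))))))) (.g (nat_lit 1) (.e (nat_lit 232219) (nat_lit 0) .nil) .nil))))) 
(.nd (nat_lit 8) (.nd (nat_lit 9) 
(.lf (nat_lit 524446) (.g (nat_lit 162) (.e (nat_lit 204869) (nat_lit 29) (.e (nat_lit 360474) (nat_lit 8) (.e (nat_lit 557089) (nat_lit 12) .nil))) (.g (nat_lit 0) (.e (nat_lit 231218) (nat_lit 0) .nil) .nil))) 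
(.lf (nat_lit 524958) (.g (nat_lit 3855) (.e (nat_lit 204877) (nat_lit 31) (.e (nat_lit 376835) (nat_lit 0) (.e (nat_lit 3304) (nat_lit 202) (.e (nat_lit 573482) (nat_lit 13) (.e (nat_lit 65628) (nat_lit 14) (.e (nat_lit 401428) (nat_lit 3) .nil)))))) (.g (nat_lit 1) (.e (nat_lit 232012) (nat_lit 0) .nil) .nil)))) (.nd (nat_lit 9) 
(.lf (nat_lit 524702) (.g (nat_lit 3743) (.e (nat_lit 204869) (nat_lit 29) (.e (nat_lit 360475) (nat_lit 8) (.e (nat_lit 557089) (nat_lit 12) (.e (nat_lit 163843) (nat_lit 0) (.e (nat_lit 6255) (nat_lit 337) (.e (nat_lit 2725) (nat_lit 172) (.e (nat_lit 237592) (nat_lit 3) .nil))))))) (.g (nat_lit 1) (.e (nat_lit 231535) (nat_lit 0) .nil) .nil))) 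
(.lf (nat_lit 525214) (.g (nat_lit 3067) (.e (nat_lit 204881) (nat_lit 32) (.e (nat_lit 385066) (nat_lit 26) (.e (nat_lit 532534) (nat_lit 9) (.e (nat_lit 336324) (nat_lit 18) (.e (nat_lit 204852) (nat_lit 26) (.e (nat_lit 336324) (nat_lit 18) .nil)))))) (.g (nat_lit 1) (.e (nat_lit 232522) (nat_lit 0) .nil) .nil)))))) (.nd (nat_lit 7) (.nd (nat_lit 8) (.nd (nat_lit 9) 
(.lf (nat_lit 524382) (.g (nat_lit 1715) (.e (nat_lit 204869) (nat_lit 29) (.e (nat_lit 360472) (nat_lit 8) (.e (nat_lit 557090) (nat_lit 12) (.e (nat_lit 163843) (nat_lit 0) .nil)))) (.g (nat_lit 0) (.e (nat_lit 231137) (nat_lit 0) .nil) .nil))) 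
(.lf (nat_lit 524894) (.g (nat_lit 2304) (.e (nat_lit 204876) (nat_lit 31) (.e (nat_lit 376835) (nat_lit 0) (.e (nat_lit 3253) (nat_lit 197) (.e (nat_lit 532513) (nat_lit 3) (.e (nat_lit 114697) (nat_lit 11) (.e (nat_lit 426138) (nat_lit 3) .nil)))))) (.g (nat_lit 1) (.e (nat_lit 231906) (nat_lit 0) .nil) .nil)))) (.nd (nat_lit 9) 
(.lf (nat_lit 524638) (.g (nat_lit 3823) (.e (nat_lit 204869) (nat_lit 29) (.e (nat_lit 360474) (nat_lit 8) (.e (nat_lit 557094) (nat_lit 12) (.e (nat_lit 164022) (nat_lit 46) (.e (nat_lit 704629) (nat_lit 9) (.e (nat_lit 416) (nat_lit 32) (.e (nat_lit 426137) (nat_lit 3) .nil))))))) (.g (nat_lit 1) (.e (nat_lit 231456) (nat_lit 0) .nil) .nil))) 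
(.lf (nat_lit 525150) (.g (nat_lit 2675) (.e (nat_lit 204880) (nat_lit 32) (.e (nat_lit 385068) (nat_lit 26) (.e (nat_lit 532499) (nat_lit 1) (.e (nat_lit 57849) (nat_lit 252) (.e (nat_lit 57377) (nat_lit 3) .nil))))) (.g (nat_lit 0) (.e (nat_lit 232330) (nat_lit 0) .nil) .nil))))) (.nd (nat_lit 8) (.nd (nat_lit 9) 
(.lf (nat_lit 524510) (.g (nat_lit 3908) (.e (nat_lit 204869) (nat_lit 29) (.e (nat_lit 360474) (nat_lit 8) (.e (nat_lit 557091) (nat_lit 12) (.e (nat_lit 163847) (nat_lit 0) (.e (nat_lit 6255) (nat_lit 337) (.e (nat_lit 2725) (nat_lit 172) (.e (nat_lit 237593) (nat_lit 3) .nil))))))) (.g (nat_lit 1) (.e (nat_lit 231308) (nat_lit 0) .nil) .nil))) 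
(.lf (nat_lit 525022) (.g (nat_lit 1363) (.e (nat_lit 204877) (nat_lit 31) (.e (nat_lit 376865) (nat_lit 22) (.e (nat_lit 90172) (nat_lit 14) (.e (nat_lit 180227) (nat_lit 0) .nil)))) (.g (nat_lit 0) (.e (nat_lit 232115) (nat_lit 0) .nil) .nil)))) (.nd (nat_lit 9) 
(.lf (nat_lit 524766) (.g (nat_lit 3724) (.e (nat_lit 204869) (nat_lit 29) (.e (nat_lit 360475) (nat_lit 8) (.e (nat_lit 557091) (nat_lit 12) (.e (nat_lit 163850) (nat_lit 0) (.e (nat_lit 6428) (nat_lit 342) (.e (nat_lit 229405) (nat_lit 12) (.e (nat_lit 426129) (nat_lit 3) .nil))))))) (.g (nat_lit 1) (.e (nat_lit 231650) (nat_lit 0) .nil) .nil))) 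
(.lf (nat_lit 525278) (.g (nat_lit 1348) (.e (nat_lit 204882) (nat_lit 32) (.e (nat_lit 385066) (nat_lit 26) (.e (nat_lit 532532) (nat_lit 9) (.e (nat_lit 336316) (nat_lit 17) (.e (nat_lit 196664) (nat_lit 13) .nil))))) (.g (nat_lit 0) (.e (nat_lit 232680) (nat_lit 0) .nil) .nil))))))) (.nd (nat_lit 6) (.nd (nat_lit 7) (.nd (nat_lit 8) (.nd (nat_lit 9) 
(.lf (nat_lit 524350) (.g (nat_lit 3555) (.e (nat_lit 204868) (nat_lit 29) (.e (nat_lit 360475) (nat_lit 8) (.e (nat_lit 557091) (nat_lit 12) (.e (nat_lit 164022) (nat_lit 46) (.e (nat_lit 704629) (nat_lit 9) (.e (nat_lit 375) (nat_lit 32) (.e (nat_lit 426135) (nat_lit 3) .nil))))))) (.g (nat_lit 1) (.e (nat_lit 231010) (nat_lit 0) .nil) .nil))) 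
(.lf (nat_lit 524862) (.g (nat_lit 882) (.e (nat_lit 204873) (nat_lit 30) (.e (nat_lit 368676) (nat_lit 21) (.e (nat_lit 516119) (nat_lit 1) .nil))) (.g (nat_lit 0) (.e (nat_lit 231838) (nat_lit 0) .nil) .nil)))) (.nd (nat_lit 9) 
(.lf (nat_lit 524606) (.g (nat_lit 3604) (.e (nat_lit 204869) (nat_lit 29) (.e (nat_lit 360474) (nat_lit 8) (.e (nat_lit 557093) (nat_lit 12) (.e (nat_lit 164022) (nat_lit 46) (.e (nat_lit 704629) (nat_lit 9) (.e (nat_lit 373) (nat_lit 32) (.e (nat_lit 426136) (nat_lit 3) .nil))))))) (.g (nat_lit 1) (.e (nat_lit 231424) (nat_lit 0) .nil) .nil))) 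
(.lf (nat_lit 525118) (.g (nat_lit 1728) (.e (nat_lit 204880) (nat_lit 32) (.e (nat_lit 385066) (nat_lit 26) (.e (nat_lit 532534) (nat_lit 9) (.e (nat_lit 336326) (nat_lit 18) (.e (nat_lit 204850) (nat_lit 26) .nil))))) (.g (nat_lit 0) (.e (nat_lit 232284) (nat_lit 0) .nil) .nil))))) (.nd (nat_lit 8) (.nd (nat_lit 9) 
(.lf (nat_lit 524478) (.g (nat_lit 3880) (.e (nat_lit 204869) (nat_lit 29) (.e (nat_lit 360474) (nat_lit 8) (.e (nat_lit 557091) (nat_lit 12) (.e (nat_lit 163841) (nat_lit 0) (.e (nat_lit 6254) (nat_lit 337) (.e (nat_lit 2725) (nat_lit 172) (.e (nat_lit 237592) (nat_lit 3) .nil))))))) (.g (nat_lit 1) (.e (nat_lit 231252) (nat_lit 0) .nil) .nil))) 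
(.lf (nat_lit 524990) (.g (nat_lit 2379) (.e (nat_lit 204877) (nat_lit 31) (.e (nat_lit 376842) (nat_lit 11) (.e (nat_lit 426408) (nat_lit 15) (.e (nat_lit 6209) (nat_lit 333) (.e (nat_lit 57883) (nat_lit 270) (.e (nat_lit 174) (nat_lit 12) .nil)))))) (.g (nat_lit 1) (.e (nat_lit 232067) (nat_lit 0) .nil) .nil)))) (.nd (nat_lit 9) 
(.lf (nat_lit 524734) (.g (nat_lit 5227) (.e (nat_lit 204869) (nat_lit 29) (.e (nat_lit 360475) (nat_lit 8) (.e (nat_lit 557090) (nat_lit 12) (.e (nat_lit 163844) (nat_lit 0) (.e (nat_lit 6255) (nat_lit 337) (.e (nat_lit 2725) (nat_lit 172) (.e (nat_lit 237593) (nat_lit 3) .nil))))))) (.g (nat_lit 1) (.e (nat_lit 231600) (nat_lit 0) .nil) .nil))) 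
(.lf (nat_lit 525246) (.g (nat_lit 2738) (.e (nat_lit 204881) (nat_lit 32) (.e (nat_lit 385109) (nat_lit 51) (.e (nat_lit 794666) (nat_lit 22) (.e (nat_lit 196654) (nat_lit 11) (.e (nat_lit 16436) (nat_lit 9) (.e (nat_lit 426131) (nat_lit 3) .nil)))))) (.g (nat_lit 1) (.e (nat_lit 232607) (nat_lit 0) .nil) .nil)))))) (.nd (nat_lit 7) (.nd (nat_lit 8) (.nd (nat_lit 9) 
(.lf (nat_lit 524414) (.g (nat_lit 1235) (.e (nat_lit 204869) (nat_lit 29) (.e (nat_lit 360473) (nat_lit 8) (.e (nat_lit 557091) (nat_lit 12) (.e (nat_lit 164022) (nat_lit 46) .nil)))) (.g (nat_lit 0) (.e (nat_lit 231169) (nat_lit 0) .nil) .nil))) 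
(.lf (nat_lit 524926) (.g (nat_lit 1251) (.e (nat_lit 204876) (nat_lit 31) (.e (nat_lit 376842) (nat_lit 11) (.e (nat_lit 426408) (nat_lit 15) (.e (nat_lit 6112) (nat_lit 332) .nil)))) (.g (nat_lit 0) (.e (nat_lit 231957) (nat_lit 0) .nil) .nil)))) (.nd (nat_lit 9) 
(.lf (nat_lit 524670) (.g (nat_lit 5377) (.e (nat_lit 204869) (nat_lit 29) (.e (nat_lit 360475) (nat_lit 8) (.e (nat_lit 557085) (nat_lit 11) (.e (nat_lit 24661) (nat_lit 14) (.e (nat_lit 401428) (nat_lit 3) .nil))))) (.g (nat_lit 1) (.e (nat_lit 231503) (nat_lit 0) .nil) .nil))) 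
(.lf (nat_lit 525182) (.g (nat_lit 3386) (.e (nat_lit 204880) (nat_lit 32) (.e (nat_lit 385068) (nat_lit 26) (.e (nat_lit 532534) (nat_lit 9) (.e (nat_lit 336324) (nat_lit 18) (.e (nat_lit 204854) (nat_lit 26) (.e (nat_lit 336324) (nat_lit 18) .nil)))))) (.g (nat_lit 1) (.e (nat_lit 232377) (nat_lit 0) .nil) .nil))))) (.nd (nat_lit 8) (.nd (nat_lit 9) 
(.lf (nat_lit 524542) (.g (nat_lit 3354) (.e (nat_lit 204869) (nat_lit 29) (.e (nat_lit 360474) (nat_lit 8) (.e (nat_lit 557091) (nat_lit 12) (.e (nat_lit 164020) (nat_lit 45) (.e (nat_lit 696327) (nat_lit 5) (.e (nat_lit 2868) (nat_lit 184) (.e (nat_lit 426136) (nat_lit 3) .nil))))))) (.g (nat_lit 1) (.e (nat_lit 231354) (nat_lit 0) .nil) .nil))) 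
(.lf (nat_lit 525054) (.g (nat_lit 1799) (.e (nat_lit 204879) (nat_lit 32) (.e (nat_lit 385066) (nat_lit 26) (.e (nat_lit 532530) (nat_lit 9) (.e (nat_lit 336324) (nat_lit 18) (.e (nat_lit 204852) (nat_lit 26) .nil))))) (.g (nat_lit 0) (.e (nat_lit 232171) (nat_lit 0) .nil) .nil)))) (.nd (nat_lit 9) 
(.lf (nat_lit 524798) (.g (nat_lit 2221) (.e (nat_lit 204870) (nat_lit 29) (.e (nat_lit 360463) (nat_lit 1) (.e (nat_lit 499846) (nat_lit 5) (.e (nat_lit 2829) (nat_lit 182) (.e (nat_lit 409648) (nat_lit 18) (.e (nat_lit 303118) (nat_lit 3) .nil)))))) (.g (nat_lit 1) (.e (nat_lit 231690) (nat_lit 0) .nil) .nil))) 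
(.lf (nat_lit 525310) (.g (nat_lit 2669) (.e (nat_lit 204882) (nat_lit 32) (.e (nat_lit 385067) (nat_lit 26) (.e (nat_lit 532563) (nat_lit 15) (.e (nat_lit 385066) (nat_lit 26) (.e (nat_lit 532531) (nat_lit 9) (.e (nat_lit 336324) (nat_lit 18) .nil)))))) (.g (nat_lit 1) (.e (nat_lit 232728) (nat_lit 0) .nil) .nil)))))))))))) 
(.nd (nat_lit 1) (.nd (nat_lit 2) (.nd (nat_lit 3) (.nd (nat_lit 4) (.nd (nat_lit 5) 
(.nd (nat_lit 6) (.nd (nat_lit 7) (.nd (nat_lit 8) (.nd (nat_lit 9) 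
(.lf (nat_lit 524289) (.g (nat_lit 604) (.e (nat_lit 204868) (nat_lit 29) (.e (nat_lit 360475) (nat_lit 8) (.e (nat_lit 557066) (nat_lit 9) .nil))) (.g (nat_lit 0) (.e (nat_lit 230940) (nat_lit 0) .nil) .nil))) 
(.lf (nat_lit 524801) (.g (nat_lit 3307) (.e (nat_lit 204870) (nat_lit 29) (.e (nat_lit 360467) (nat_lit 3) (.e (nat_lit 516138) (nat_lit 7) (.e (nat_lit 409646) (nat_lit 18) (.e (nat_lit 303119) (nat_lit 3) .nil))))) (.g (nat_lit 1) (.e (nat_lit 231693) (nat_lit 0) .nil) .nil)))) (.nd (nat_lit 9) 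
(.lf (nat_lit 524545) (.g (nat_lit 3536) (.e (nat_lit 204869) (nat_lit 29) (.e (nat_lit 360474) (nat_lit 8) (.e (nat_lit 557091) (nat_lit 12) (.e (nat_lit 164020) (nat_lit 45) (.e (nat_lit 696327) (nat_lit 5) (.e (nat_lit 2879) (nat_lit 184) (.e (nat_lit 426136) (nat_lit 3) .nil))))))) (.g (nat_lit 1) (.e (nat_lit 231357) (nat_lit 0) .nil) .nil))) 
(.lf (nat_lit 525057) (.g (nat_lit 1533) (.e (nat_lit 204879) (nat_lit 32) (.e (nat_lit 385066) (nat_lit 26) (.e (nat_lit 532534) (nat_lit 9) (.e (nat_lit 336316) (nat_lit 17) .nil)))) (.g (nat_lit 0) (.e (nat_lit 232174) (nat_lit 0) .nil) .nil))))) (.nd (nat_lit 8) (.nd (nat_lit 9) 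
(.lf (nat_lit 524417) (.g (nat_lit 1161) (.e (nat_lit 204869) (nat_lit 29) (.e (nat_lit 360473) (nat_lit 8) (.e (nat_lit 557093) (nat_lit 12) (.e (nat_lit 163853) (nat_lit 0) .nil)))) (.g (nat_lit 0) (.e (nat_lit 231172) (nat_lit 0) .nil) .nil))) 
(.lf (nat_lit 524929) (.g (nat_lit 1280) (.e (nat_lit 204876) (nat_lit 31) (.e (nat_lit 376842) (nat_lit 11) (.e (nat_lit 426408) (nat_lit 15) (.e (nat_lit 6208) (nat_lit 333) .nil)))) (.g (nat_lit 0) (.e (nat_lit 231960) (nat_lit 0) .nil) .nil)))) (.nd (nat_lit 9) 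
(.lf (nat_lit 524673) (.g (nat_lit 4221) (.e (nat_lit 204869) (nat_lit 29) (.e (nat_lit 360475) (nat_lit 8) (.e (nat_lit 557085) (nat_lit 11) (.e (nat_lit 24665) (nat_lit 14) (.e (nat_lit 409344) (nat_lit 3) .nil))))) (.g (nat_lit 1) (.e (nat_lit 231506) (nat_lit 0) .nil) .nil))) 
(.lf (nat_lit 525185) (.g (nat_lit 1859) (.e (nat_lit 204880) (nat_lit 32) (.e (nat_lit 385068) (nat_lit 26) (.e (nat_lit 532563) (nat_lit 15) (.e (nat_lit 385066) (nat_lit 26) (.e (nat_lit 532533) (nat_lit 9) (.e (nat_lit 336324) (nat_lit 18) .nil)))))) (.g (nat_lit 1) (.e (nat_lit 232382) (nat_lit 0) .nil) .nil)))))) (.nd (nat_lit 7) (.nd (nat_lit 8) (.nd (nat_lit 9) 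
(.lf (nat_lit 524353) (.g (nat_lit 535) (.e (nat_lit 204869) (nat_lit 29) (.e (nat_lit 360450) (nat_lit 0) (.e (nat_lit 4159) (nat_lit 250) (.e (nat_lit 237312) (nat_lit 72) .nil)))) (.g (nat_lit 0) (.e (nat_lit 231018) (nat_lit 0) .nil) .nil))) 
(.lf (nat_lit 524865) (.g (nat_lit 720) (.e (nat_lit 204873) (nat_lit 30) (.e (nat_lit 368676) (nat_lit 21) (.e (nat_lit 516124) (nat_lit 2) .nil))) (.g (nat_lit 0) (.e (nat_lit 231842) (nat_lit 0) .nil) .nil)))) (.nd (nat_lit 9) 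
(.lf (nat_lit 524609) (.g (nat_lit 3327) (.e (nat_lit 204869) (nat_lit 29) (.e (nat_lit 360474) (nat_lit 8) (.e (nat_lit 557093) (nat_lit 12) (.e (nat_lit 164022) (nat_lit 46) (.e (nat_lit 704629) (nat_lit 9) (.e (nat_lit 389) (nat_lit 32) (.e (nat_lit 426137) (nat_lit 3) .nil))))))) (.g (nat_lit 1) (.e (nat_lit 231427) (nat_lit 0) .nil) .nil))) 
(.lf (nat_lit 525121) (.g (nat_lit 3592) (.e (nat_lit 204880) (nat_lit 32) (.e (nat_lit 385066) (nat_lit 26) (.e (nat_lit 532534) (nat_lit 9) (.e (nat_lit 336326) (nat_lit 18) (.e (nat_lit 204854) (nat_lit 26) (.e (nat_lit 336324) (nat_lit 18) .nil)))))) (.g (nat_lit 1) (.e (nat_lit 232287) (nat_lit 0) .nil) .nil))))) (.nd (nat_lit 8) (.nd (nat_lit 9) 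
(.lf (nat_lit 524481) (.g (nat_lit 3880) (.e (nat_lit 204869) (nat_lit 29) (.e (nat_lit 360474) (nat_lit 8) (.e (nat_lit 557091) (nat_lit 12) (.e (nat_lit 163841) (nat_lit 0) (.e (nat_lit 6255) (nat_lit 337) (.e (nat_lit 2725) (nat_lit 172) (.e (nat_lit 237592) (nat_lit 3) .nil))))))) (.g (nat_lit 1) (.e (nat_lit 231255) (nat_lit 0) .nil) .nil))) 
(.lf (nat_lit 524993) (.g (nat_lit 2777) (.e (nat_lit 204877) (nat_lit 31) (.e (nat_lit 376842) (nat_lit 11) (.e (nat_lit 426497) (nat_lit 27) (.e (nat_lit 335986) (nat_lit 1) (.e (nat_lit 57926) (nat_lit 282) (.e (nat_lit 163874) (nat_lit 3) .nil)))))) (.g (nat_lit 1) (.e (nat_lit 232071) (nat_lit 0) .nil) .nil)))) (.nd (nat_lit 9) 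
(.lf (nat_lit 524737) (.g (nat_lit 2480) (.e (nat_lit 204869) (nat_lit 29) (.e (nat_lit 360475) (nat_lit 8) (.e (nat_lit 557090) (nat_lit 12) (.e (nat_lit 163850) (nat_lit 0) .nil)))) (.g (nat_lit 0) (.e (nat_lit 231606) (nat_lit 0) .nil) .nil))) 
(.lf (nat_lit 525249) (.g (nat_lit 1830) (.e (nat_lit 204882) (nat_lit 32) (.e (nat_lit 385065) (nat_lit 26) (.e (nat_lit 532529) (nat_lit 9) (.e (nat_lit 336326) (nat_lit 18) (.e (nat_lit 204853) (nat_lit 26) .nil))))) (.g (nat_lit 0) (.e (nat_lit 232634) (nat_lit 0) .nil) .nil))))))) (.nd (nat_lit 6) (.nd (nat_lit 7) (.nd (nat_lit 8) (.nd (nat_lit 9) 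
(.lf (nat_lit 524321) (.g (nat_lit 1920) (.e (nat_lit 204868) (nat_lit 29) (.e (nat_lit 360475) (nat_lit 8) (.e (nat_lit 557089) (nat_lit 12) (.e (nat_lit 163844) (nat_lit 0) .nil)))) (.g (nat_lit 0) (.e (nat_lit 230978) (nat_lit 0) .nil) .nil))) 
(.lf (nat_lit 524833) (.g (nat_lit 625) (.e (nat_lit 204872) (nat_lit 30) (.e (nat_lit 368676) (nat_lit 21) (.e (nat_lit 516100) (nat_lit 0) .nil))) (.g (nat_lit 0) (.e (nat_lit 231755) (nat_lit 0) .nil) .nil)))) (.nd (nat_lit 9) 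
(.lf (nat_lit 524577) (.g (nat_lit 3166) (.e (nat_lit 204869) (nat_lit 29) (.e (nat_lit 360474) (nat_lit 8) (.e (nat_lit 557091) (nat_lit 12) (.e (nat_lit 164022) (nat_lit 46) (.e (nat_lit 704626) (nat_lit 9) (.e (nat_lit 391) (nat_lit 32) (.e (nat_lit 426137) (nat_lit 3) .nil))))))) (.g (nat_lit 1) (.e (nat_lit 231392) (nat_lit 0) .nil) .nil))) 
(.lf (nat_lit 525089) (.g (nat_lit 3102) (.e (nat_lit 204880) (nat_lit 32) (.e (nat_lit 385066) (nat_lit 26) (.e (nat_lit 532504) (nat_lit 1) (.e (nat_lit 57852) (nat_lit 252) (.e (nat_lit 57377) (nat_lit 3) (.e (nat_lit 98338) (nat_lit 19) (.e (nat_lit 213013) (nat_lit 9) (.e (nat_lit 2684) (nat_lit 168) .nil)))))))) (.g (nat_lit 1) (.e (nat_lit 232226) (nat_lit 0) .nil) .nil))))) 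
(.nd (nat_lit 8) (.nd (nat_lit 9) 
(.lf (nat_lit 524449) (.g (nat_lit 4763) (.e (nat_lit 204869) (nat_lit 29) (.e (nat_lit 360474) (nat_lit 8) (.e (nat_lit 557089) (nat_lit 12) (.e (nat_lit 163843) (nat_lit 0) (.e (nat_lit 6254) (nat_lit 337) (.e (nat_lit 2725) (nat_lit 172) (.e (nat_lit 237594) (nat_lit 3) .nil))))))) (.g (nat_lit 1) (.e (nat_lit 231221) (nat_lit 0) .nil) .nil))) 
(.lf (nat_lit 524961) (.g (nat_lit 2896) (.e (nat_lit 204877) (nat_lit 31) (.e (nat_lit 376835) (nat_lit 0) (.e (nat_lit 3304) (nat_lit 202) (.e (nat_lit 573485) (nat_lit 13) (.e (nat_lit 65630) (nat_lit 14) (.e (nat_lit 401428) (nat_lit 3) .nil)))))) (.g (nat_lit 1) (.e (nat_lit 232016) (nat_lit 0) .nil) .nil)))) (.nd (nat_lit 9) 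
(.lf (nat_lit 524705) (.g (nat_lit 4438) (.e (nat_lit 204869) (nat_lit 29) (.e (nat_lit 360475) (nat_lit 8) (.e (nat_lit 557089) (nat_lit 12) (.e (nat_lit 163843) (nat_lit 0) (.e (nat_lit 6420) (nat_lit 341) (.e (nat_lit 163850) (nat_lit 0) (.e (nat_lit 7936) (nat_lit 388) (.e (nat_lit 2684) (nat_lit 168) .nil)))))))) (.g (nat_lit 1) (.e (nat_lit 231539) (nat_lit 0) .nil) .nil))) 
(.lf (nat_lit 525217) (.g (nat_lit 1192) (.e (nat_lit 204881) (nat_lit 32) (.e (nat_lit 385066) (nat_lit 26) (.e (nat_lit 532534) (nat_lit 9) (.e (nat_lit 336326) (nat_lit 18) .nil)))) (.g (nat_lit 0) (.e (nat_lit 232525) (nat_lit 0) .nil) .nil)))))) (.nd (nat_lit 7) (.nd (nat_lit 8) (.nd (nat_lit 9) 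
(.lf (nat_lit 524385) (.g (nat_lit 2121) (.e (nat_lit 204869) (nat_lit 29) (.e (nat_lit 360472) (nat_lit 8) (.e (nat_lit 557090) (nat_lit 12) (.e (nat_lit 163844) (nat_lit 0) .nil)))) (.g (nat_lit 0) (.e (nat_lit 231140) (nat_lit 0) .nil) .nil))) 
(.lf (nat_lit 524897) (.g (nat_lit 3791) (.e (nat_lit 204876) (nat_lit 31) (.e (nat_lit 376835) (nat_lit 0) (.e (nat_lit 3304) (nat_lit 202) (.e (nat_lit 573482) (nat_lit 13) (.e (nat_lit 65628) (nat_lit 14) (.e (nat_lit 401428) (nat_lit 3) .nil)))))) (.g (nat_lit 1) (.e (nat_lit 231910) (nat_lit 0) .nil) .nil)))) (.nd (nat_lit 9) 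
(.lf (nat_lit 524641) (.g (nat_lit 591) (.e (nat_lit 204869) (nat_lit 29) (.e (nat_lit 360475) (nat_lit 8) (.e (nat_lit 557064) (nat_lit 9) .nil))) (.g (nat_lit 0) (.e (nat_lit 231465) (nat_lit 0) .nil) .nil))) 
(.lf (nat_lit 525153) (.g (nat_lit 3271) (.e (nat_lit 204880) (nat_lit 32) (.e (nat_lit 385068) (nat_lit 26) (.e (nat_lit 532501) (nat_lit 1) (.e (nat_lit 57851) (nat_lit 252) (.e (nat_lit 57354) (nat_lit 0) .nil))))) (.g (nat_lit 0) (.e (nat_lit 232336) (nat_lit 0) .nil) .nil))))) (.nd (nat_lit 8) (.nd (nat_lit 9) 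
(.lf (nat_lit 524513) (.g (nat_lit 1707) (.e (nat_lit 204869) (nat_lit 29) (.e (nat_lit 360474) (nat_lit 8) (.e (nat_lit 557091) (nat_lit 12) (.e (nat_lit 163849) (nat_lit 0) .nil)))) (.g (nat_lit 0) (.e (nat_lit 231311) (nat_lit 0) .nil) .nil))) 
(.lf (nat_lit 525025) (.g (nat_lit 2400) (.e (nat_lit 204877) (nat_lit 31) (.e (nat_lit 376865) (nat_lit 22) (.e (nat_lit 90172) (nat_lit 14) (.e (nat_lit 180233) (nat_lit 0) (.e (nat_lit 5948) (nat_lit 322) (.e (nat_lit 65280) (nat_lit 64) .nil)))))) (.g (nat_lit 1) (.e (nat_lit 232118) (nat_lit 0) .nil) .nil)))) (.nd (nat_lit 9) 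
(.lf (nat_lit 524769) (.g (nat_lit 3944) (.e (nat_lit 204869) (nat_lit 29) (.e (nat_lit 360475) (nat_lit 8) (.e (nat_lit 557091) (nat_lit 12) (.e (nat_lit 164018) (nat_lit 45) (.e (nat_lit 696327) (nat_lit 5) (.e (nat_lit 2884) (nat_lit 184) (.e (nat_lit 426140) (nat_lit 3) .nil))))))) (.g (nat_lit 1) (.e (nat_lit 231655) (nat_lit 0) .nil) .nil))) 
(.lf (nat_lit 525281) (.g (nat_lit 3422) (.e (nat_lit 204882) (nat_lit 32) (.e (nat_lit 385066) (nat_lit 26) (.e (nat_lit 532532) (nat_lit 9) (.e (nat_lit 336324) (nat_lit 18) (.e (nat_lit 204854) (nat_lit 26) (.e (nat_lit 336326) (nat_lit 18) .nil)))))) (.g (nat_lit 1) (.e (nat_lit 232683) (nat_lit 0) .nil) .nil)))))))) 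
(.nd (nat_lit 5) (.nd (nat_lit 6) (.nd (nat_lit 7) (.nd (nat_lit 8) (.nd (nat_lit 9) 
(.lf (nat_lit 524305) (.g (nat_lit 2705) (.e (nat_lit 204868) (nat_lit 29) (.e (nat_lit 360475) (nat_lit 8) (.e (nat_lit 557087) (nat_lit 11) (.e (nat_lit 24580) (nat_lit 0) (.e (nat_lit 6624) (nat_lit 357) (.e (nat_lit 2675) (nat_lit 168) .nil)))))) (.g (nat_lit 1) (.e (nat_lit 230960) (nat_lit 0) .nil) .nil))) 
(.lf (nat_lit 524817) (.g (nat_lit 1859) (.e (nat_lit 204870) (nat_lit 29) (.e (nat_lit 360473) (nat_lit 8) (.e (nat_lit 557091) (nat_lit 12) (.e (nat_lit 163843) (nat_lit 0) .nil)))) (.g (nat_lit 0) (.e (nat_lit 231717) (nat_lit 0) .nil) .nil)))) (.nd (nat_lit 9) 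
(.lf (nat_lit 524561) (.g (nat_lit 5203) (.e (nat_lit 204869) (nat_lit 29) (.e (nat_lit 360474) (nat_lit 8) (.e (nat_lit 557091) (nat_lit 12) (.e (nat_lit 164020) (nat_lit 45) (.e (nat_lit 696330) (nat_lit 5) (.e (nat_lit 2869) (nat_lit 184) (.e (nat_lit 426135) (nat_lit 3) .nil))))))) (.g (nat_lit 1) (.e (nat_lit 231373) (nat_lit 0) .nil) .nil))) 
(.lf (nat_lit 525073) (.g (nat_lit 1769) (.e (nat_lit 204879) (nat_lit 32) (.e (nat_lit 385068) (nat_lit 26) (.e (nat_lit 532534) (nat_lit 9) (.e (nat_lit 336325) (nat_lit 18) .nil)))) (.g (nat_lit 0) (.e (nat_lit 232190) (nat_lit 0) .nil) .nil))))) (.nd (nat_lit 8) (.nd (nat_lit 9) 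
(.lf (nat_lit 524433) (.g (nat_lit 1110) (.e (nat_lit 204869) (nat_lit 29) (.e (nat_lit 360474) (nat_lit 8) (.e (nat_lit 557080) (nat_lit 9) .nil))) (.g (nat_lit 0) (.e (nat_lit 231201) (nat_lit 0) .nil) .nil))) 
(.lf (nat_lit 524945) (.g (nat_lit 853) (.e (nat_lit 204876) (nat_lit 31) (.e (nat_lit 376865) (nat_lit 22) (.e (nat_lit 90165) (nat_lit 12) .nil))) (.g (nat_lit 0) (.e (nat_lit 231985) (nat_lit 0) .nil) .nil)))) (.nd (nat_lit 9) 
(.lf (nat_lit 524689) (.g (nat_lit 3781) (.e (nat_lit 204869) (nat_lit 29) (.e (nat_lit 360475) (nat_lit 8) (.e (nat_lit 557087) (nat_lit 11) (.e (nat_lit 24584) (nat_lit 0) (.e (nat_lit 6676) (nat_lit 357) (.e (nat_lit 2682) (nat_lit 168) .nil)))))) (.g (nat_lit 1) (.e (nat_lit 231522) (nat_lit 0) .nil) .nil))) 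
(.lf (nat_lit 525201) (.g (nat_lit 1201) (.e (nat_lit 204881) (nat_lit 32) (.e (nat_lit 385066) (nat_lit 26) (.e (nat_lit 532530) (nat_lit 9) (.e (nat_lit 336324) (nat_lit 18) .nil)))) (.g (nat_lit 0) (.e (nat_lit 232505) (nat_lit 0) .nil) .nil)))))) (.nd (nat_lit 7) (.nd (nat_lit 8) (.nd (nat_lit 9) 
(.lf (nat_lit 524369) (.g (nat_lit 606) (.e (nat_lit 204869) (nat_lit 29) (.e (nat_lit 360467) (nat_lit 3) (.e (nat_lit 516140) (nat_lit 8) .nil))) (.g (nat_lit 0) (.e (nat_lit 231097) (nat_lit 0) .nil) .nil))) 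
(.lf (nat_lit 524881) (.g (nat_lit 1176) (.e (nat_lit 204875) (nat_lit 31) (.e (nat_lit 376842) (nat_lit 11) (.e (nat_lit 426099) (nat_lit 1) .nil))) (.g (nat_lit 0) (.e (nat_lit 231888) (nat_lit 0) .nil) .nil)))) (.nd (nat_lit 9) 
(.lf (nat_lit 524625) (.g (nat_lit 2729) (.e (nat_lit 204869) (nat_lit 29) (.e (nat_lit 360474) (nat_lit 8) (.e (nat_lit 557094) (nat_lit 12) (.e (nat_lit 164022) (nat_lit 46) (.e (nat_lit 704626) (nat_lit 9) (.e (nat_lit 398) (nat_lit 32) (.e (nat_lit 426137) (nat_lit 3) .nil))))))) (.g (nat_lit 1) (.e (nat_lit 231443) (nat_lit 0) .nil) .nil))) 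
(.lf (nat_lit 525137) (.g (nat_lit 2465) (.e (nat_lit 204880) (nat_lit 32) (.e (nat_lit 385066) (nat_lit 26) (.e (nat_lit 532565) (nat_lit 15) (.e (nat_lit 385065) (nat_lit 26) (.e (nat_lit 532530) (nat_lit 9) (.e (nat_lit 336325) (nat_lit 18) .nil)))))) (.g (nat_lit 1) (.e (nat_lit 232314) (nat_lit 0) .nil) .nil))))) (.nd (nat_lit 8) (.nd (nat_lit 9) 
(.lf (nat_lit 524497) (.g (nat_lit 1519) (.e (nat_lit 204869) (nat_lit 29) (.e (nat_lit 360474) (nat_lit 8) (.e (nat_lit 557091) (nat_lit 12) (.e (nat_lit 163844) (nat_lit 0) .nil)))) (.g (nat_lit 0) (.e (nat_lit 231292) (nat_lit 0) .nil) .nil))) 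
(.lf (nat_lit 525009) (.g (nat_lit 2075) (.e (nat_lit 204877) (nat_lit 31) (.e (nat_lit 376855) (nat_lit 20) (.e (nat_lit 1800) (nat_lit 119) (.e (nat_lit 516139) (nat_lit 7) (.e (nat_lit 409616) (nat_lit 10) (.e (nat_lit 7936) (nat_lit 312) (.e (nat_lit 2672) (nat_lit 168) .nil))))))) (.g (nat_lit 1) (.e (nat_lit 232087) (nat_lit 0) .nil) .nil)))) (.nd (nat_lit 9) 
(.lf (nat_lit 524753) (.g (nat_lit 5755) (.e (nat_lit 204869) (nat_lit 29) (.e (nat_lit 360475) (nat_lit 8) (.e (nat_lit 557091) (nat_lit 12) (.e (nat_lit 163843) (nat_lit 0) (.e (nat_lit 6421) (nat_lit 341) (.e (nat_lit 163911) (nat_lit 12) (.e (nat_lit 426135) (nat_lit 3) .nil))))))) (.g (nat_lit 1) (.e (nat_lit 231636) (nat_lit 0) .nil) .nil))) 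
(.lf (nat_lit 525265) (.g (nat_lit 2579) (.e (nat_lit 204882) (nat_lit 32) (.e (nat_lit 385066) (nat_lit 26) (.e (nat_lit 532529) (nat_lit 9) (.e (nat_lit 336324) (nat_lit 18) (.e (nat_lit 204854) (nat_lit 26) (.e (nat_lit 336326) (nat_lit 18) .nil)))))) (.g (nat_lit 1) (.e (nat_lit 232667) (nat_lit 0) .nil) .nil))))))) (.nd (nat_lit 6) (.nd (nat_lit 7) (.nd (nat_lit 8) (.nd (nat_lit 9) 
(.lf (nat_lit 524337) (.g (nat_lit 1981) (.e (nat_lit 204868) (nat_lit 29) (.e (nat_lit 360475) (nat_lit 8) (.e (nat_lit 557091) (nat_lit 12) (.e (nat_lit 163843) (nat_lit 0) .nil)))) (.g (nat_lit 0) (.e (nat_lit 230995) (nat_lit 0) .nil) .nil))) 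
(.lf (nat_lit 524849) (.g (nat_lit 1956) (.e (nat_lit 204872) (nat_lit 30) (.e (nat_lit 368676) (nat_lit 21) (.e (nat_lit 516131) (nat_lit 3) (.e (nat_lit 221212) (nat_lit 22) (.e (nat_lit 196635) (nat_lit 9) .nil))))) (.g (nat_lit 0) (.e (nat_lit 231793) (nat_lit 0) .nil) .nil)))) (.nd (nat_lit 9) 
(.lf (nat_lit 524593) (.g (nat_lit 3516) (.e (nat_lit 204869) (nat_lit 29) (.e (nat_lit 360474) (nat_lit 8) (.e (nat_lit 557093) (nat_lit 12) (.e (nat_lit 163849) (nat_lit 0) (.e (nat_lit 6254) (nat_lit 337) (.e (nat_lit 2725) (nat_lit 172) (.e (nat_lit 237592) (nat_lit 3) .nil))))))) (.g (nat_lit 1) (.e (nat_lit 231410) (nat_lit 0) .nil) .nil))) 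
(.lf (nat_lit 525105) (.g (nat_lit 2878) (.e (nat_lit 204880) (nat_lit 32) (.e (nat_lit 385066) (nat_lit 26) (.e (nat_lit 532532) (nat_lit 9) (.e (nat_lit 336324) (nat_lit 18) (.e (nat_lit 204852) (nat_lit 26) (.e (nat_lit 336325) (nat_lit 18) .nil)))))) (.g (nat_lit 1) (.e (nat_lit 232245) (nat_lit 0) .nil) .nil))))) (.nd (nat_lit 8) (.nd (nat_lit 9) 
(.lf (nat_lit 524465) (.g (nat_lit 3536) (.e (nat_lit 204869) (nat_lit 29) (.e (nat_lit 360474) (nat_lit 8) (.e (nat_lit 557089) (nat_lit 12) (.e (nat_lit 164017) (nat_lit 44) (.e (nat_lit 688138) (nat_lit 5) (.e (nat_lit 2887) (nat_lit 184) (.e (nat_lit 426132) (nat_lit 3) .nil))))))) (.g (nat_lit 1) (.e (nat_lit 231239) (nat_lit 0) .nil) .nil))) 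
(.lf (nat_lit 524977) (.g (nat_lit 1631) (.e (nat_lit 204877) (nat_lit 31) (.e (nat_lit 376842) (nat_lit 11) (.e (nat_lit 426099) (nat_lit 1) (.e (nat_lit 164183) (nat_lit 154) (.e (nat_lit 57410) (nat_lit 12) .nil))))) (.g (nat_lit 0) (.e (nat_lit 232051) (nat_lit 0) .nil) .nil)))) (.nd (nat_lit 9) 
(.lf (nat_lit 524721) (.g (nat_lit 2727) (.e (nat_lit 204869) (nat_lit 29) (.e (nat_lit 360475) (nat_lit 8) (.e (nat_lit 557090) (nat_lit 12) (.e (nat_lit 163841) (nat_lit 0) .nil)))) (.g (nat_lit 0) (.e (nat_lit 231557) (nat_lit 0) .nil) .nil))) 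
(.lf (nat_lit 525233) (.g (nat_lit 2610) (.e (nat_lit 204881) (nat_lit 32) (.e (nat_lit 385068) (nat_lit 26) (.e (nat_lit 532530) (nat_lit 9) (.e (nat_lit 336324) (nat_lit 18) (.e (nat_lit 204854) (nat_lit 26) .nil))))) (.g (nat_lit 0) (.e (nat_lit 232543) (nat_lit 0) .nil) .nil)))))) (.nd (nat_lit 7) (.nd (nat_lit 8) (.nd (nat_lit 9) 
(.lf (nat_lit 524401) (.g (nat_lit 2059) (.e (nat_lit 204869) (nat_lit 29) (.e (nat_lit 360473) (nat_lit 8) (.e (nat_lit 557087) (nat_lit 11) (.e (nat_lit 24664) (nat_lit 14) (.e (nat_lit 401426) (nat_lit 3) .nil))))) (.g (nat_lit 0) (.e (nat_lit 231156) (nat_lit 0) .nil) .nil))) 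
(.lf (nat_lit 524913) (.g (nat_lit 374) (.e (nat_lit 204876) (nat_lit 31) (.e (nat_lit 376842) (nat_lit 11) (.e (nat_lit 426100) (nat_lit 1) .nil))) (.g (nat_lit 0) (.e (nat_lit 231941) (nat_lit 0) .nil) .nil)))) (.nd (nat_lit 9) 
(.lf (nat_lit 524657) (.g (nat_lit 1038) (.e (nat_lit 204869) (nat_lit 29) (.e (nat_lit 360475) (nat_lit 8) (.e (nat_lit 557072) (nat_lit 9) .nil))) (.g (nat_lit 0) (.e (nat_lit 231486) (nat_lit 0) .nil) .nil))) 
(.lf (nat_lit 525169) (.g (nat_lit 1723) (.e (nat_lit 204880) (nat_lit 32) (.e (nat_lit 385068) (nat_lit 26) (.e (nat_lit 532530) (nat_lit 9) (.e (nat_lit 336316) (nat_lit 17) .nil)))) (.g (nat_lit 0) (.e (nat_lit 232364) (nat_lit 0) .nil) .nil))))) (.nd (nat_lit 8) (.nd (nat_lit 9) 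
(.lf (nat_lit 524529) (.g (nat_lit 4342) (.e (nat_lit 204869) (nat_lit 29) (.e (nat_lit 360474) (nat_lit 8) (.e (nat_lit 557091) (nat_lit 12) (.e (nat_lit 164017) (nat_lit 44) (.e (nat_lit 688138) (nat_lit 5) (.e (nat_lit 2887) (nat_lit 184) (.e (nat_lit 426132) (nat_lit 3) .nil))))))) (.g (nat_lit 1) (.e (nat_lit 231339) (nat_lit 0) .nil) .nil))) 
(.lf (nat_lit 525041) (.g (nat_lit 2485) (.e (nat_lit 204877) (nat_lit 31) (.e (nat_lit 376869) (nat_lit 23) (.e (nat_lit 98350) (nat_lit 24) (.e (nat_lit 409650) (nat_lit 19) (.e (nat_lit 311315) (nat_lit 3) .nil))))) (.g (nat_lit 0) (.e (nat_lit 232137) (nat_lit 0) .nil) .nil)))) (.nd (nat_lit 9) 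
(.lf (nat_lit 524785) (.g (nat_lit 3492) (.e (nat_lit 204869) (nat_lit 29) (.e (nat_lit 360475) (nat_lit 8) (.e (nat_lit 557091) (nat_lit 12) (.e (nat_lit 164022) (nat_lit 46) (.e (nat_lit 704629) (nat_lit 9) (.e (nat_lit 389) (nat_lit 32) (.e (nat_lit 426137) (nat_lit 3) .nil))))))) (.g (nat_lit 1) (.e (nat_lit 231671) (nat_lit 0) .nil) .nil))) 
(.lf (nat_lit 525297) (.g (nat_lit 2369) (.e (nat_lit 204882) (nat_lit 32) (.e (nat_lit 385066) (nat_lit 26) (.e (nat_lit 532562) (nat_lit 15) (.e (nat_lit 385068) (nat_lit 26) (.e (nat_lit 532534) (nat_lit 9) (.e (nat_lit 336324) (nat_lit 18) .nil)))))) (.g (nat_lit 1) (.e (nat_lit 232701) (nat_lit 0) .nil) .nil))))))))) 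
(.nd (nat_lit 4) (.nd (nat_lit 5) (.nd (nat_lit 6) (.nd (nat_lit 7) (.nd (nat_lit 8) 
(.nd (nat_lit 9) 
(.lf (nat_lit 524297) (.g (nat_lit 2153) (.e (nat_lit 204868) (nat_lit 29) (.e (nat_lit 360475) (nat_lit 8) (.e (nat_lit 557085) (nat_lit 11) (.e (nat_lit 24579) (nat_lit 0) .nil)))) (.g (nat_lit 0) (.e (nat_lit 230952) (nat_lit 0) .nil) .nil))) 
(.lf (nat_lit 524809) (.g (nat_lit 1752) (.e (nat_lit 204870) (nat_lit 29) (.e (nat_lit 360467) (nat_lit 3) (.e (nat_lit 516139) (nat_lit 7) (.e (nat_lit 409648) (nat_lit 18) (.e (nat_lit 311040) (nat_lit 3) .nil))))) (.g (nat_lit 1) (.e (nat_lit 231705) (nat_lit 0) .nil) .nil)))) (.nd (nat_lit 9) 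
(.lf (nat_lit 524553) (.g (nat_lit 3384) (.e (nat_lit 204869) (nat_lit 29) (.e (nat_lit 360474) (nat_lit 8) (.e (nat_lit 557091) (nat_lit 12) (.e (nat_lit 164020) (nat_lit 45) (.e (nat_lit 696328) (nat_lit 5) (.e (nat_lit 2894) (nat_lit 184) (.e (nat_lit 426136) (nat_lit 3) .nil))))))) (.g (nat_lit 1) (.e (nat_lit 231365) (nat_lit 0) .nil) .nil))) 
(.lf (nat_lit 525065) (.g (nat_lit 3287) (.e (nat_lit 204879) (nat_lit 32) (.e (nat_lit 385068) (nat_lit 26) (.e (nat_lit 532504) (nat_lit 1) (.e (nat_lit 57851) (nat_lit 252) (.e (nat_lit 57354) (nat_lit 0) .nil))))) (.g (nat_lit 0) (.e (nat_lit 232182) (nat_lit 0) .nil) .nil))))) (.nd (nat_lit 8) (.nd (nat_lit 9) 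
(.lf (nat_lit 524425) (.g (nat_lit 4526) (.e (nat_lit 204869) (nat_lit 29) (.e (nat_lit 360474) (nat_lit 8) (.e (nat_lit 557070) (nat_lit 9) (.e (nat_lit 2744) (nat_lit 174) (.e (nat_lit 253991) (nat_lit 11) (.e (nat_lit 24320) (nat_lit 3) .nil)))))) (.g (nat_lit 1) (.e (nat_lit 231189) (nat_lit 0) .nil) .nil))) 
(.lf (nat_lit 524937) (.g (nat_lit 3225) (.e (nat_lit 204876) (nat_lit 31) (.e (nat_lit 376842) (nat_lit 11) (.e (nat_lit 426497) (nat_lit 27) (.e (nat_lit 335988) (nat_lit 1) (.e (nat_lit 57931) (nat_lit 282) (.e (nat_lit 163874) (nat_lit 3) .nil)))))) (.g (nat_lit 1) (.e (nat_lit 231971) (nat_lit 0) .nil) .nil)))) (.nd (nat_lit 9) 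
(.lf (nat_lit 524681) (.g (nat_lit 3411) (.e (nat_lit 204869) (nat_lit 29) (.e (nat_lit 360475) (nat_lit 8) (.e (nat_lit 557086) (nat_lit 11) (.e (nat_lit 24664) (nat_lit 14) (.e (nat_lit 409344) (nat_lit 3) .nil))))) (.g (nat_lit 1) (.e (nat_lit 231514) (nat_lit 0) .nil) .nil))) 
(.lf (nat_lit 525193) (.g (nat_lit 2964) (.e (nat_lit 204880) (nat_lit 32) (.e (nat_lit 385068) (nat_lit 26) (.e (nat_lit 532566) (nat_lit 15) (.e (nat_lit 385068) (nat_lit 26) (.e (nat_lit 532530) (nat_lit 9) (.e (nat_lit 336324) (nat_lit 18) .nil)))))) (.g (nat_lit 1) (.e (nat_lit 232390) (nat_lit 0) .nil) .nil)))))) (.nd (nat_lit 7) (.nd (nat_lit 8) (.nd (nat_lit 9) 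
(.lf (nat_lit 524361) (.g (nat_lit 2612) (.e (nat_lit 204869) (nat_lit 29) (.e (nat_lit 360466) (nat_lit 3) (.e (nat_lit 516139) (nat_lit 7) (.e (nat_lit 409647) (nat_lit 18) (.e (nat_lit 303118) (nat_lit 3) .nil))))) (.g (nat_lit 1) (.e (nat_lit 231073) (nat_lit 0) .nil) .nil))) 
(.lf (nat_lit 524873) (.g (nat_lit 4337) (.e (nat_lit 204873) (nat_lit 30) (.e (nat_lit 368676) (nat_lit 21) (.e (nat_lit 516131) (nat_lit 3) (.e (nat_lit 221215) (nat_lit 23) (.e (nat_lit 204830) (nat_lit 18) (.e (nat_lit 57926) (nat_lit 282) (.e (nat_lit 163875) (nat_lit 3) .nil))))))) (.g (nat_lit 1) (.e (nat_lit 231871) (nat_lit 0) .nil) .nil)))) (.nd (nat_lit 9) 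
(.lf (nat_lit 524617) (.g (nat_lit 220) (.e (nat_lit 204869) (nat_lit 29) (.e (nat_lit 360474) (nat_lit 8) (.e (nat_lit 557094) (nat_lit 12) .nil))) (.g (nat_lit 0) (.e (nat_lit 231435) (nat_lit 0) .nil) .nil))) 
(.lf (nat_lit 525129) (.g (nat_lit 3552) (.e (nat_lit 204880) (nat_lit 32) (.e (nat_lit 385066) (nat_lit 26) (.e (nat_lit 532563) (nat_lit 15) (.e (nat_lit 385066) (nat_lit 26) (.e (nat_lit 532534) (nat_lit 9) (.e (nat_lit 336325) (nat_lit 18) .nil)))))) (.g (nat_lit 1) (.e (nat_lit 232306) (nat_lit 0) .nil) .nil))))) (.nd (nat_lit 8) (.nd (nat_lit 9) 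
(.lf (nat_lit 524489) (.g (nat_lit 3597) (.e (nat_lit 204869) (nat_lit 29) (.e (nat_lit 360474) (nat_lit 8) (.e (nat_lit 557091) (nat_lit 12) (.e (nat_lit 163843) (nat_lit 0) (.e (nat_lit 6252) (nat_lit 337) (.e (nat_lit 2725) (nat_lit 172) (.e (nat_lit 237593) (nat_lit 3) .nil))))))) (.g (nat_lit 1) (.e (nat_lit 231279) (nat_lit 0) .nil) .nil))) 
(.lf (nat_lit 525001) (.g (nat_lit 2933) (.e (nat_lit 204877) (nat_lit 31) (.e (nat_lit 376842) (nat_lit 11) (.e (nat_lit 426500) (nat_lit 27) (.e (nat_lit 335988) (nat_lit 1) (.e (nat_lit 57927) (nat_lit 282) (.e (nat_lit 163874) (nat_lit 3) .nil)))))) (.g (nat_lit 1) (.e (nat_lit 232079) (nat_lit 0) .nil) .nil)))) (.nd (nat_lit 9) 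
(.lf (nat_lit 524745) (.g (nat_lit 3046) (.e (nat_lit 204869) (nat_lit 29) (.e (nat_lit 360475) (nat_lit 8) (.e (nat_lit 557091) (nat_lit 12) (.e (nat_lit 163843) (nat_lit 0) (.e (nat_lit 6252) (nat_lit 337) (.e (nat_lit 2725) (nat_lit 172) (.e (nat_lit 237592) (nat_lit 3) .nil))))))) (.g (nat_lit 1) (.e (nat_lit 231626) (nat_lit 0) .nil) .nil))) 
(.lf (nat_lit 525257) (.g (nat_lit 2674) (.e (nat_lit 204882) (nat_lit 32) (.e (nat_lit 385065) (nat_lit 26) (.e (nat_lit 532563) (nat_lit 15) (.e (nat_lit 385068) (nat_lit 26) (.e (nat_lit 532528) (nat_lit 9) .nil))))) (.g (nat_lit 0) (.e (nat_lit 232656) (nat_lit 0) .nil) .nil))))))) (.nd (nat_lit 6) (.nd (nat_lit 7) (.nd (nat_lit 8) (.nd (nat_lit 9) 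
(.lf (nat_lit 524329) (.g (nat_lit 2313) (.e (nat_lit 204868) (nat_lit 29) (.e (nat_lit 360475) (nat_lit 8) (.e (nat_lit 557090) (nat_lit 12) (.e (nat_lit 163843) (nat_lit 0) .nil)))) (.g (nat_lit 0) (.e (nat_lit 230987) (nat_lit 0) .nil) .nil))) 
(.lf (nat_lit 524841) (.g (nat_lit 522) (.e (nat_lit 204872) (nat_lit 30) (.e (nat_lit 368676) (nat_lit 21) (.e (nat_lit 516129) (nat_lit 3) .nil))) (.g (nat_lit 0) (.e (nat_lit 231779) (nat_lit 0) .nil) .nil)))) (.nd (nat_lit 9) 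
(.lf (nat_lit 524585) (.g (nat_lit 3680) (.e (nat_lit 204869) (nat_lit 29) (.e (nat_lit 360474) (nat_lit 8) (.e (nat_lit 557091) (nat_lit 12) (.e (nat_lit 164022) (nat_lit 46) (.e (nat_lit 704628) (nat_lit 9) (.e (nat_lit 416) (nat_lit 32) (.e (nat_lit 426137) (nat_lit 3) .nil))))))) (.g (nat_lit 1) (.e (nat_lit 231400) (nat_lit 0) .nil) .nil))) 
(.lf (nat_lit 525097) (.g (nat_lit 1228) (.e (nat_lit 204880) (nat_lit 32) (.e (nat_lit 385066) (nat_lit 26) (.e (nat_lit 532530) (nat_lit 9) (.e (nat_lit 336326) (nat_lit 18) .nil)))) (.g (nat_lit 0) (.e (nat_lit 232237) (nat_lit 0) .nil) .nil))))) (.nd (nat_lit 8) (.nd (nat_lit 9) 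
(.lf (nat_lit 524457) (.g (nat_lit 4582) (.e (nat_lit 204869) (nat_lit 29) (.e (nat_lit 360474) (nat_lit 8) (.e (nat_lit 557089) (nat_lit 12) (.e (nat_lit 163848) (nat_lit 0) (.e (nat_lit 6252) (nat_lit 337) (.e (nat_lit 2725) (nat_lit 172) (.e (nat_lit 237594) (nat_lit 3) .nil))))))) (.g (nat_lit 1) (.e (nat_lit 231230) (nat_lit 0) .nil) .nil))) 
(.lf (nat_lit 524969) (.g (nat_lit 1723) (.e (nat_lit 204877) (nat_lit 31) (.e (nat_lit 376842) (nat_lit 11) (.e (nat_lit 426098) (nat_lit 1) (.e (nat_lit 164150) (nat_lit 152) .nil)))) (.g (nat_lit 0) (.e (nat_lit 232043) (nat_lit 0) .nil) .nil)))) (.nd (nat_lit 9) 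
(.lf (nat_lit 524713) (.g (nat_lit 4375) (.e (nat_lit 204869) (nat_lit 29) (.e (nat_lit 360475) (nat_lit 8) (.e (nat_lit 557089) (nat_lit 12) (.e (nat_lit 163850) (nat_lit 0) (.e (nat_lit 6425) (nat_lit 342) (.e (nat_lit 229401) (nat_lit 12) (.e (nat_lit 426136) (nat_lit 3) .nil))))))) (.g (nat_lit 1) (.e (nat_lit 231547) (nat_lit 0) .nil) .nil))) 
(.lf (nat_lit 525225) (.g (nat_lit 2634) (.e (nat_lit 204881) (nat_lit 32) (.e (nat_lit 385066) (nat_lit 26) (.e (nat_lit 532566) (nat_lit 15) (.e (nat_lit 385068) (nat_lit 26) (.e (nat_lit 532530) (nat_lit 9) (.e (nat_lit 336324) (nat_lit 18) .nil)))))) (.g (nat_lit 1) (.e (nat_lit 232534) (nat_lit 0) .nil) .nil)))))) (.nd (nat_lit 7) (.nd (nat_lit 8) (.nd (nat_lit 9) 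
(.lf (nat_lit 524393) (.g (nat_lit 523) (.e (nat_lit 204869) (nat_lit 29) (.e (nat_lit 360473) (nat_lit 8) (.e (nat_lit 557084) (nat_lit 10) .nil))) (.g (nat_lit 0) (.e (nat_lit 231148) (nat_lit 0) .nil) .nil))) 
(.lf (nat_lit 524905) (.g (nat_lit 1716) (.e (nat_lit 204876) (nat_lit 31) (.e (nat_lit 376842) (nat_lit 11) (.e (nat_lit 426098) (nat_lit 1) (.e (nat_lit 164150) (nat_lit 152) .nil)))) (.g (nat_lit 0) (.e (nat_lit 231933) (nat_lit 0) .nil) .nil)))) (.nd (nat_lit 9) 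
(.lf (nat_lit 524649) (.g (nat_lit 2005) (.e (nat_lit 204869) (nat_lit 29) (.e (nat_lit 360475) (nat_lit 8) (.e (nat_lit 557067) (nat_lit 9) (.e (nat_lit 251) (nat_lit 21) .nil)))) (.g (nat_lit 0) (.e (nat_lit 231477) (nat_lit 0) .nil) .nil))) 
(.lf (nat_lit 525161) (.g (nat_lit 2653) (.e (nat_lit 204880) (nat_lit 32) (.e (nat_lit 385068) (nat_lit 26) (.e (nat_lit 532503) (nat_lit 1) (.e (nat_lit 57849) (nat_lit 252) (.e (nat_lit 57377) (nat_lit 3) .nil))))) (.g (nat_lit 0) (.e (nat_lit 232350) (nat_lit 0) .nil) .nil))))) (.nd (nat_lit 8) (.nd (nat_lit 9) 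
(.lf (nat_lit 524521) (.g (nat_lit 2984) (.e (nat_lit 204869) (nat_lit 29) (.e (nat_lit 360474) (nat_lit 8) (.e (nat_lit 557091) (nat_lit 12) (.e (nat_lit 163850) (nat_lit 0) (.e (nat_lit 6273) (nat_lit 337) (.e (nat_lit 2729) (nat_lit 172) (.e (nat_lit 237592) (nat_lit 3) .nil))))))) (.g (nat_lit 1) (.e (nat_lit 231319) (nat_lit 0) .nil) .nil))) 
(.lf (nat_lit 525033) (.g (nat_lit 2993) (.e (nat_lit 204877) (nat_lit 31) (.e (nat_lit 376865) (nat_lit 22) (.e (nat_lit 90181) (nat_lit 16) (.e (nat_lit 229577) (nat_lit 179) (.e (nat_lit 164362) (nat_lit 246) (.e (nat_lit 2679) (nat_lit 168) .nil)))))) (.g (nat_lit 1) (.e (nat_lit 232129) (nat_lit 0) .nil) .nil)))) (.nd (nat_lit 9) 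
(.lf (nat_lit 524777) (.g (nat_lit 3501) (.e (nat_lit 204869) (nat_lit 29) (.e (nat_lit 360475) (nat_lit 8) (.e (nat_lit 557091) (nat_lit 12) (.e (nat_lit 164022) (nat_lit 46) (.e (nat_lit 704627) (nat_lit 9) (.e (nat_lit 391) (nat_lit 32) (.e (nat_lit 426137) (nat_lit 3) .nil))))))) (.g (nat_lit 1) (.e (nat_lit 231663) (nat_lit 0) .nil) .nil))) 
(.lf (nat_lit 525289) (.g (nat_lit 1247) (.e (nat_lit 204882) (nat_lit 32) (.e (nat_lit 385066) (nat_lit 26) (.e (nat_lit 532534) (nat_lit 9) (.e (nat_lit 336326) (nat_lit 18) .nil)))) (.g (nat_lit 0) (.e (nat_lit 232692) (nat_lit 0) .nil) .nil)))))))) (.nd (nat_lit 5) (.nd (nat_lit 6) (.nd (nat_lit 7) (.nd (nat_lit 8) (.nd (nat_lit 9) 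
(.lf (nat_lit 524313) (.g (nat_lit 3710) (.e (nat_lit 204868) (nat_lit 29) (.e (nat_lit 360475) (nat_lit 8) (.e (nat_lit 557087) (nat_lit 11) (.e (nat_lit 24662) (nat_lit 14) (.e (nat_lit 409344) (nat_lit 3) .nil))))) (.g (nat_lit 0) (.e (nat_lit 230970) (nat_lit 0) .nil) .nil))) 
(.lf (nat_lit 524825) (.g (nat_lit 1740) (.e (nat_lit 212736) (nat_lit 29) (.e (nat_lit 360475) (nat_lit 8) (.e (nat_lit 557091) (nat_lit 12) (.e (nat_lit 171776) (nat_lit 48) .nil)))) (.g (nat_lit 0) (.e (nat_lit 231733) (nat_lit 0) .nil) .nil)))) (.nd (nat_lit 9) 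
(.lf (nat_lit 524569) (.g (nat_lit 4561) (.e (nat_lit 204869) (nat_lit 29) (.e (nat_lit 360474) (nat_lit 8) (.e (nat_lit 557091) (nat_lit 12) (.e (nat_lit 164020) (nat_lit 45) (.e (nat_lit 696330) (nat_lit 5) (.e (nat_lit 2885) (nat_lit 184) (.e (nat_lit 426135) (nat_lit 3) .nil))))))) (.g (nat_lit 1) (.e (nat_lit 231381) (nat_lit 0) .nil) .nil))) 
(.lf (nat_lit 525081) (.g (nat_lit 1204) (.e (nat_lit 204880) (nat_lit 32) (.e (nat_lit 385066) (nat_lit 26) (.e (nat_lit 532499) (nat_lit 1) (.e (nat_lit 57847) (nat_lit 252) .nil)))) (.g (nat_lit 0) (.e (nat_lit 232204) (nat_lit 0) .nil) .nil))))) (.nd (nat_lit 8) (.nd (nat_lit 9) 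
(.lf (nat_lit 524441) (.g (nat_lit 4054) (.e (nat_lit 204869) (nat_lit 29) (.e (nat_lit 360474) (nat_lit 8) (.e (nat_lit 557086) (nat_lit 11) (.e (nat_lit 24662) (nat_lit 14) (.e (nat_lit 401428) (nat_lit 3) .nil))))) (.g (nat_lit 1) (.e (nat_lit 231212) (nat_lit 0) .nil) .nil))) 
(.lf (nat_lit 524953) (.g (nat_lit 2562) (.e (nat_lit 204876) (nat_lit 31) (.e (nat_lit 376869) (nat_lit 23) (.e (nat_lit 98350) (nat_lit 24) (.e (nat_lit 409645) (nat_lit 18) (.e (nat_lit 303119) (nat_lit 3) .nil))))) (.g (nat_lit 0) (.e (nat_lit 231999) (nat_lit 0) .nil) .nil)))) (.nd (nat_lit 9) 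
(.lf (nat_lit 524697) (.g (nat_lit 3895) (.e (nat_lit 204869) (nat_lit 29) (.e (nat_lit 360475) (nat_lit 8) (.e (nat_lit 557087) (nat_lit 11) (.e (nat_lit 24665) (nat_lit 14) (.e (nat_lit 409344) (nat_lit 3) .nil))))) (.g (nat_lit 1) (.e (nat_lit 231530) (nat_lit 0) .nil) .nil))) 
(.lf (nat_lit 525209) (.g (nat_lit 1545) (.e (nat_lit 204881) (nat_lit 32) (.e (nat_lit 385066) (nat_lit 26) (.e (nat_lit 532533) (nat_lit 9) (.e (nat_lit 336324) (nat_lit 18) (.e (nat_lit 204852) (nat_lit 26) .nil))))) (.g (nat_lit 0) (.e (nat_lit 232513) (nat_lit 0) .nil) .nil)))))) (.nd (nat_lit 7) (.nd (nat_lit 8) (.nd (nat_lit 9) 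
(.lf (nat_lit 524377) (.g (nat_lit 254) (.e (nat_lit 204869) (nat_lit 29) (.e (nat_lit 360472) (nat_lit 8) (.e (nat_lit 557070) (nat_lit 9) .nil))) (.g (nat_lit 0) (.e (nat_lit 231132) (nat_lit 0) .nil) .nil))) 
(.lf (nat_lit 524889) (.g (nat_lit 1542) (.e (nat_lit 204875) (nat_lit 31) (.e (nat_lit 376865) (nat_lit 22) (.e (nat_lit 90185) (nat_lit 17) (.e (nat_lit 237585) (nat_lit 1) (.e (nat_lit 164401) (nat_lit 256) .nil))))) (.g (nat_lit 0) (.e (nat_lit 231900) (nat_lit 0) .nil) .nil)))) (.nd (nat_lit 9) 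
(.lf (nat_lit 524633) (.g (nat_lit 2835) (.e (nat_lit 204869) (nat_lit 29) (.e (nat_lit 360474) (nat_lit 8) (.e (nat_lit 557094) (nat_lit 12) (.e (nat_lit 164022) (nat_lit 46) (.e (nat_lit 704629) (nat_lit 9) (.e (nat_lit 370) (nat_lit 32) (.e (nat_lit 426136) (nat_lit 3) .nil))))))) (.g (nat_lit 1) (.e (nat_lit 231451) (nat_lit 0) .nil) .nil))) 
(.lf (nat_lit 525145) (.g (nat_lit 2424) (.e (nat_lit 204880) (nat_lit 32) (.e (nat_lit 385066) (nat_lit 26) (.e (nat_lit 532566) (nat_lit 15) (.e (nat_lit 385066) (nat_lit 26) (.e (nat_lit 532534) (nat_lit 9) (.e (nat_lit 336322) (nat_lit 18) .nil)))))) (.g (nat_lit 1) (.e (nat_lit 232323) (nat_lit 0) .nil) .nil))))) (.nd (nat_lit 8) (.nd (nat_lit 9) 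
(.lf (nat_lit 524505) (.g (nat_lit 1640) (.e (nat_lit 204869) (nat_lit 29) (.e (nat_lit 360474) (nat_lit 8) (.e (nat_lit 557091) (nat_lit 12) (.e (nat_lit 163845) (nat_lit 0) .nil)))) (.g (nat_lit 0) (.e (nat_lit 231303) (nat_lit 0) .nil) .nil))) 
(.lf (nat_lit 525017) (.g (nat_lit 3861) (.e (nat_lit 204877) (nat_lit 31) (.e (nat_lit 376865) (nat_lit 22) (.e (nat_lit 90130) (nat_lit 9) (.e (nat_lit 2830) (nat_lit 182) (.e (nat_lit 409649) (nat_lit 18) (.e (nat_lit 303118) (nat_lit 3) .nil)))))) (.g (nat_lit 1) (.e (nat_lit 232103) (nat_lit 0) .nil) .nil)))) (.nd (nat_lit 9) 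
(.lf (nat_lit 524761) (.g (nat_lit 4831) (.e (nat_lit 204869) (nat_lit 29) (.e (nat_lit 360475) (nat_lit 8) (.e (nat_lit 557091) (nat_lit 12) (.e (nat_lit 163850) (nat_lit 0) (.e (nat_lit 6425) (nat_lit 342) (.e (nat_lit 229399) (nat_lit 12) (.e (nat_lit 426135) (nat_lit 3) .nil))))))) (.g (nat_lit 1) (.e (nat_lit 231645) (nat_lit 0) .nil) .nil))) 
(.lf (nat_lit 525273) (.g (nat_lit 3693) (.e (nat_lit 204882) (nat_lit 32) (.e (nat_lit 385066) (nat_lit 26) (.e (nat_lit 532530) (nat_lit 9) (.e (nat_lit 336326) (nat_lit 18) (.e (nat_lit 204854) (nat_lit 26) (.e (nat_lit 336326) (nat_lit 18) .nil)))))) (.g (nat_lit 1) (.e (nat_lit 232675) (nat_lit 0) .nil) .nil))))))) (.nd (nat_lit 6) (.nd (nat_lit 7) (.nd (nat_lit 8) (.nd (nat_lit 9) 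
(.lf (nat_lit 524345) (.g (nat_lit 1689) (.e (nat_lit 204868) (nat_lit 29) (.e (nat_lit 360475) (nat_lit 8) (.e (nat_lit 557091) (nat_lit 12) (.e (nat_lit 163847) (nat_lit 0) .nil)))) (.g (nat_lit 0) (.e (nat_lit 231004) (nat_lit 0) .nil) .nil))) 
(.lf (nat_lit 524857) (.g (nat_lit 1666) (.e (nat_lit 204873) (nat_lit 30) (.e (nat_lit 368676) (nat_lit 21) (.e (nat_lit 516115) (nat_lit 1) (.e (nat_lit 164177) (nat_lit 154) .nil)))) (.g (nat_lit 0) (.e (nat_lit 231821) (nat_lit 0) .nil) .nil)))) (.nd (nat_lit 9) 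
(.lf (nat_lit 524601) (.g (nat_lit 3520) (.e (nat_lit 204869) (nat_lit 29) (.e (nat_lit 360474) (nat_lit 8) (.e (nat_lit 557093) (nat_lit 12) (.e (nat_lit 164022) (nat_lit 46) (.e (nat_lit 704628) (nat_lit 9) (.e (nat_lit 373) (nat_lit 32) (.e (nat_lit 426136) (nat_lit 3) .nil))))))) (.g (nat_lit 1) (.e (nat_lit 231418) (nat_lit 0) .nil) .nil))) 
(.lf (nat_lit 525113) (.g (nat_lit 2615) (.e (nat_lit 204880) (nat_lit 32) (.e (nat_lit 385066) (nat_lit 26) (.e (nat_lit 532534) (nat_lit 9) (.e (nat_lit 336316) (nat_lit 17) (.e (nat_lit 196681) (nat_lit 17) (.e (nat_lit 139008) (nat_lit 18) .nil)))))) (.g (nat_lit 1) (.e (nat_lit 232279) (nat_lit 0) .nil) .nil))))) (.nd (nat_lit 8) (.nd (nat_lit 9) 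
(.lf (nat_lit 524473) (.g (nat_lit 4012) (.e (nat_lit 204869) (nat_lit 29) (.e (nat_lit 360474) (nat_lit 8) (.e (nat_lit 557091) (nat_lit 12) (.e (nat_lit 163840) (nat_lit 0) (.e (nat_lit 6255) (nat_lit 337) (.e (nat_lit 2725) (nat_lit 172) (.e (nat_lit 237593) (nat_lit 3) .nil))))))) (.g (nat_lit 1) (.e (nat_lit 231247) (nat_lit 0) .nil) .nil))) 
(.lf (nat_lit 524985) (.g (nat_lit 1570) (.e (nat_lit 204877) (nat_lit 31) (.e (nat_lit 376842) (nat_lit 11) (.e (nat_lit 426406) (nat_lit 15) (.e (nat_lit 6209) (nat_lit 333) (.e (nat_lit 57879) (nat_lit 270) (.e (nat_lit 174) (nat_lit 12) .nil)))))) (.g (nat_lit 1) (.e (nat_lit 232060) (nat_lit 0) .nil) .nil)))) (.nd (nat_lit 9) 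
(.lf (nat_lit 524729) (.g (nat_lit 3417) (.e (nat_lit 204869) (nat_lit 29) (.e (nat_lit 360475) (nat_lit 8) (.e (nat_lit 557090) (nat_lit 12) (.e (nat_lit 163843) (nat_lit 0) (.e (nat_lit 6420) (nat_lit 341) .nil))))) (.g (nat_lit 0) (.e (nat_lit 231588) (nat_lit 0) .nil) .nil))) 
(.lf (nat_lit 525241) (.g (nat_lit 2511) (.e (nat_lit 204881) (nat_lit 32) (.e (nat_lit 385107) (nat_lit 51) (.e (nat_lit 794666) (nat_lit 22) (.e (nat_lit 196656) (nat_lit 11) (.e (nat_lit 16436) (nat_lit 9) (.e (nat_lit 426131) (nat_lit 3) .nil)))))) (.g (nat_lit 1) (.e (nat_lit 232566) (nat_lit 0) .nil) .nil)))))) (.nd (nat_lit 7) (.nd (nat_lit 8) (.nd (nat_lit 9) 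
(.lf (nat_lit 524409) (.g (nat_lit 1824) (.e (nat_lit 204869) (nat_lit 29) (.e (nat_lit 360473) (nat_lit 8) (.e (nat_lit 557091) (nat_lit 12) (.e (nat_lit 163843) (nat_lit 0) .nil)))) (.g (nat_lit 0) (.e (nat_lit 231164) (nat_lit 0) .nil) .nil))) 
(.lf (nat_lit 524921) (.g (nat_lit 793) (.e (nat_lit 204876) (nat_lit 31) (.e (nat_lit 376842) (nat_lit 11) (.e (nat_lit 426158) (nat_lit 6) .nil))) (.g (nat_lit 0) (.e (nat_lit 231950) (nat_lit 0) .nil) .nil)))) (.nd (nat_lit 9) 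
(.lf (nat_lit 524665) (.g (nat_lit 982) (.e (nat_lit 204869) (nat_lit 29) (.e (nat_lit 360475) (nat_lit 8) (.e (nat_lit 557082) (nat_lit 10) .nil))) (.g (nat_lit 0) (.e (nat_lit 231496) (nat_lit 0) .nil) .nil))) 
(.lf (nat_lit 525177) (.g (nat_lit 2142) (.e (nat_lit 204880) (nat_lit 32) (.e (nat_lit 385068) (nat_lit 26) (.e (nat_lit 532530) (nat_lit 9) (.e (nat_lit 336326) (nat_lit 18) (.e (nat_lit 212736) (nat_lit 26) .nil))))) (.g (nat_lit 0) (.e (nat_lit 232372) (nat_lit 0) .nil) .nil))))) (.nd (nat_lit 8) (.nd (nat_lit 9) 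
(.lf (nat_lit 524537) (.g (nat_lit 4705) (.e (nat_lit 204869) (nat_lit 29) (.e (nat_lit 360474) (nat_lit 8) (.e (nat_lit 557091) (nat_lit 12) (.e (nat_lit 164017) (nat_lit 44) (.e (nat_lit 688139) (nat_lit 5) (.e (nat_lit 2887) (nat_lit 184) (.e (nat_lit 433920) (nat_lit 3) .nil))))))) (.g (nat_lit 1) (.e (nat_lit 231347) (nat_lit 0) .nil) .nil))) 
(.lf (nat_lit 525049) (.g (nat_lit 1414) (.e (nat_lit 204878) (nat_lit 31) (.e (nat_lit 376867) (nat_lit 23) (.e (nat_lit 98350) (nat_lit 24) (.e (nat_lit 417536) (nat_lit 18) .nil)))) (.g (nat_lit 0) (.e (nat_lit 232165) (nat_lit 0) .nil) .nil)))) (.nd (nat_lit 9) 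
(.lf (nat_lit 524793) (.g (nat_lit 767) (.e (nat_lit 204869) (nat_lit 29) (.e (nat_lit 360475) (nat_lit 8) (.e (nat_lit 557111) (nat_lit 16) .nil))) (.g (nat_lit 0) (.e (nat_lit 231679) (nat_lit 0) .nil) .nil))) 
(.lf (nat_lit 525305) (.g (nat_lit 3476) (.e (nat_lit 204882) (nat_lit 32) (.e (nat_lit 385066) (nat_lit 26) (.e (nat_lit 532565) (nat_lit 15) (.e (nat_lit 385066) (nat_lit 26) (.e (nat_lit 532530) (nat_lit 9) (.e (nat_lit 336324) (nat_lit 18) .nil)))))) (.g (nat_lit 1) (.e (nat_lit 232712) (nat_lit 0) .nil) .nil)))))))))) 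
(.nd (nat_lit 3) (.nd (nat_lit 4) (.nd (nat_lit 5) (.nd (nat_lit 6) (.nd (nat_lit 7) 
(.nd (nat_lit 8) (.nd (nat_lit 9) 
(.lf (nat_lit 524293) (.g (nat_lit 1442) (.e (nat_lit 204868) (nat_lit 29) (.e (nat_lit 360475) (nat_lit 8) (.e (nat_lit 557068) (nat_lit 9) (.e (nat_lit 290) (nat_lit 21) .nil)))) (.g (nat_lit 0) (.e (nat_lit 230945) (nat_lit 0) .nil) .nil))) 
(.lf (nat_lit 524805) (.g (nat_lit 3461) (.e (nat_lit 204870) (nat_lit 29) (.e (nat_lit 360467) (nat_lit 3) (.e (nat_lit 516139) (nat_lit 7) (.e (nat_lit 409645) (nat_lit 18) (.e (nat_lit 303119) (nat_lit 3) .nil))))) (.g (nat_lit 1) (.e (nat_lit 231701) (nat_lit 0) .nil) .nil)))) (.nd (nat_lit 9) 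
(.lf (nat_lit 524549) (.g (nat_lit 3342) (.e (nat_lit 204869) (nat_lit 29) (.e (nat_lit 360474) (nat_lit 8) (.e (nat_lit 557091) (nat_lit 12) (.e (nat_lit 164020) (nat_lit 45) (.e (nat_lit 696328) (nat_lit 5) (.e (nat_lit 2876) (nat_lit 184) (.e (nat_lit 426136) (nat_lit 3) .nil))))))) (.g (nat_lit 1) (.e (nat_lit 231361) (nat_lit 0) .nil) .nil))) 
(.lf (nat_lit 525061) (.g (nat_lit 1658) (.e (nat_lit 204879) (nat_lit 32) (.e (nat_lit 385066) (nat_lit 26) (.e (nat_lit 532534) (nat_lit 9) (.e (nat_lit 336326) (nat_lit 18) .nil)))) (.g (nat_lit 0) (.e (nat_lit 232178) (nat_lit 0) .nil) .nil))))) (.nd (nat_lit 8) (.nd (nat_lit 9) 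
(.lf (nat_lit 524421) (.g (nat_lit 577) (.e (nat_lit 204869) (nat_lit 29) (.e (nat_lit 360474) (nat_lit 8) (.e (nat_lit 557064) (nat_lit 9) .nil))) (.g (nat_lit 0) (.e (nat_lit 231182) (nat_lit 0) .nil) .nil))) 
(.lf (nat_lit 524933) (.g (nat_lit 2655) (.e (nat_lit 204876) (nat_lit 31) (.e (nat_lit 376842) (nat_lit 11) (.e (nat_lit 426497) (nat_lit 27) (.e (nat_lit 335986) (nat_lit 1) (.e (nat_lit 57926) (nat_lit 282) (.e (nat_lit 163874) (nat_lit 3) .nil)))))) (.g (nat_lit 1) (.e (nat_lit 231967) (nat_lit 0) .nil) .nil)))) (.nd (nat_lit 9) 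
(.lf (nat_lit 524677) (.g (nat_lit 2263) (.e (nat_lit 204869) (nat_lit 29) (.e (nat_lit 360475) (nat_lit 8) (.e (nat_lit 557086) (nat_lit 11) (.e (nat_lit 24662) (nat_lit 14) (.e (nat_lit 401426) (nat_lit 3) .nil))))) (.g (nat_lit 0) (.e (nat_lit 231510) (nat_lit 0) .nil) .nil))) 
(.lf (nat_lit 525189) (.g (nat_lit 3245) (.e (nat_lit 204880) (nat_lit 32) (.e (nat_lit 385068) (nat_lit 26) (.e (nat_lit 532563) (nat_lit 15) (.e (nat_lit 385068) (nat_lit 26) (.e (nat_lit 532534) (nat_lit 9) (.e (nat_lit 336324) (nat_lit 18) .nil)))))) (.g (nat_lit 1) (.e (nat_lit 232386) (nat_lit 0) .nil) .nil)))))) (.nd (nat_lit 7) (.nd (nat_lit 8) (.nd (nat_lit 9) 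
(.lf (nat_lit 524357) (.g (nat_lit 2985) (.e (nat_lit 204869) (nat_lit 29) (.e (nat_lit 360465) (nat_lit 3) (.e (nat_lit 516139) (nat_lit 7) (.e (nat_lit 409648) (nat_lit 18) (.e (nat_lit 303118) (nat_lit 3) .nil))))) (.g (nat_lit 1) (.e (nat_lit 231058) (nat_lit 0) .nil) .nil))) 
(.lf (nat_lit 524869) (.g (nat_lit 969) (.e (nat_lit 204873) (nat_lit 30) (.e (nat_lit 368676) (nat_lit 21) (.e (nat_lit 516131) (nat_lit 3) (.e (nat_lit 221198) (nat_lit 20) .nil)))) (.g (nat_lit 0) (.e (nat_lit 231852) (nat_lit 0) .nil) .nil)))) (.nd (nat_lit 9) 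
(.lf (nat_lit 524613) (.g (nat_lit 3925) (.e (nat_lit 204869) (nat_lit 29) (.e (nat_lit 360474) (nat_lit 8) (.e (nat_lit 557093) (nat_lit 12) (.e (nat_lit 164022) (nat_lit 46) (.e (nat_lit 704629) (nat_lit 9) (.e (nat_lit 435) (nat_lit 32) (.e (nat_lit 426137) (nat_lit 3) .nil))))))) (.g (nat_lit 1) (.e (nat_lit 231431) (nat_lit 0) .nil) .nil))) 
(.lf (nat_lit 525125) (.g (nat_lit 3780) (.e (nat_lit 204880) (nat_lit 32) (.e (nat_lit 385066) (nat_lit 26) (.e (nat_lit 532563) (nat_lit 15) (.e (nat_lit 385066) (nat_lit 26) (.e (nat_lit 532530) (nat_lit 9) (.e (nat_lit 336324) (nat_lit 18) .nil)))))) (.g (nat_lit 1) (.e (nat_lit 232302) (nat_lit 0) .nil) .nil))))) (.nd (nat_lit 8) (.nd (nat_lit 9) 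
(.lf (nat_lit 524485) (.g (nat_lit 2852) (.e (nat_lit 204869) (nat_lit 29) (.e (nat_lit 360474) (nat_lit 8) (.e (nat_lit 557091) (nat_lit 12) (.e (nat_lit 163843) (nat_lit 0) (.e (nat_lit 6250) (nat_lit 337) (.e (nat_lit 2725) (nat_lit 172) (.e (nat_lit 237592) (nat_lit 3) .nil))))))) (.g (nat_lit 1) (.e (nat_lit 231275) (nat_lit 0) .nil) .nil))) 
(.lf (nat_lit 524997) (.g (nat_lit 3348) (.e (nat_lit 204877) (nat_lit 31) (.e (nat_lit 376842) (nat_lit 11) (.e (nat_lit 426497) (nat_lit 27) (.e (nat_lit 335988) (nat_lit 1) (.e (nat_lit 57931) (nat_lit 282) (.e (nat_lit 163874) (nat_lit 3) .nil)))))) (.g (nat_lit 1) (.e (nat_lit 232075) (nat_lit 0) .nil) .nil)))) (.nd (nat_lit 9) 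
(.lf (nat_lit 524741) (.g (nat_lit 320) (.e (nat_lit 204869) (nat_lit 29) (.e (nat_lit 360475) (nat_lit 8) (.e (nat_lit 557091) (nat_lit 12) .nil))) (.g (nat_lit 0) (.e (nat_lit 231622) (nat_lit 0) .nil) .nil))) 
(.lf (nat_lit 525253) (.g (nat_lit 3619) (.e (nat_lit 204882) (nat_lit 32) (.e (nat_lit 385065) (nat_lit 26) (.e (nat_lit 532563) (nat_lit 15) (.e (nat_lit 385066) (nat_lit 26) (.e (nat_lit 532530) (nat_lit 9) (.e (nat_lit 336326) (nat_lit 18) .nil)))))) (.g (nat_lit 1) (.e (nat_lit 232652) (nat_lit 0) .nil) .nil))))))) (.nd (nat_lit 6) (.nd (nat_lit 7) (.nd (nat_lit 8) (.nd (nat_lit 9) 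
(.lf (nat_lit 524325) (.g (nat_lit 1967) (.e (nat_lit 204868) (nat_lit 29) (.e (nat_lit 360475) (nat_lit 8) (.e (nat_lit 557089) (nat_lit 12) (.e (nat_lit 163850) (nat_lit 0) .nil)))) (.g (nat_lit 0) (.e (nat_lit 230982) (nat_lit 0) .nil) .nil))) 
(.lf (nat_lit 524837) (.g (nat_lit 2566) (.e (nat_lit 204872) (nat_lit 30) (.e (nat_lit 368676) (nat_lit 21) (.e (nat_lit 516115) (nat_lit 1) (.e (nat_lit 164179) (nat_lit 154) (.e (nat_lit 57379) (nat_lit 3) .nil))))) (.g (nat_lit 0) (.e (nat_lit 231763) (nat_lit 0) .nil) .nil)))) (.nd (nat_lit 9) 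
(.lf (nat_lit 524581) (.g (nat_lit 3915) (.e (nat_lit 204869) (nat_lit 29) (.e (nat_lit 360474) (nat_lit 8) (.e (nat_lit 557091) (nat_lit 12) (.e (nat_lit 164022) (nat_lit 46) (.e (nat_lit 704628) (nat_lit 9) (.e (nat_lit 391) (nat_lit 32) (.e (nat_lit 426137) (nat_lit 3) .nil))))))) (.g (nat_lit 1) (.e (nat_lit 231396) (nat_lit 0) .nil) .nil))) 
(.lf (nat_lit 525093) (.g (nat_lit 1216) (.e (nat_lit 204880) (nat_lit 32) (.e (nat_lit 385066) (nat_lit 26) (.e (nat_lit 532529) (nat_lit 9) (.e (nat_lit 336326) (nat_lit 18) .nil)))) (.g (nat_lit 0) (.e (nat_lit 232232) (nat_lit 0) .nil) .nil))))) (.nd (nat_lit 8) (.nd (nat_lit 9) 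
(.lf (nat_lit 524453) (.g (nat_lit 3288) (.e (nat_lit 204869) (nat_lit 29) (.e (nat_lit 360474) (nat_lit 8) (.e (nat_lit 557089) (nat_lit 12) (.e (nat_lit 163844) (nat_lit 0) (.e (nat_lit 6250) (nat_lit 337) (.e (nat_lit 2725) (nat_lit 172) (.e (nat_lit 237594) (nat_lit 3) .nil))))))) (.g (nat_lit 1) (.e (nat_lit 231226) (nat_lit 0) .nil) .nil))) 
(.lf (nat_lit 524965) (.g (nat_lit 3272) (.e (nat_lit 204877) (nat_lit 31) (.e (nat_lit 376840) (nat_lit 11) (.e (nat_lit 426503) (nat_lit 27) (.e (nat_lit 335986) (nat_lit 1) (.e (nat_lit 57926) (nat_lit 282) (.e (nat_lit 163874) (nat_lit 3) .nil)))))) (.g (nat_lit 1) (.e (nat_lit 232036) (nat_lit 0) .nil) .nil)))) (.nd (nat_lit 9) 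
(.lf (nat_lit 524709) (.g (nat_lit 4781) (.e (nat_lit 204869) (nat_lit 29) (.e (nat_lit 360475) (nat_lit 8) (.e (nat_lit 557089) (nat_lit 12) (.e (nat_lit 163844) (nat_lit 0) (.e (nat_lit 6418) (nat_lit 341) (.e (nat_lit 163850) (nat_lit 0) (.e (nat_lit 7936) (nat_lit 388) (.e (nat_lit 2684) (nat_lit 168) .nil)))))))) (.g (nat_lit 1) (.e (nat_lit 231543) (nat_lit 0) .nil) .nil))) 
(.lf (nat_lit 525221) (.g (nat_lit 2521) (.e (nat_lit 204881) (nat_lit 32) (.e (nat_lit 385066) (nat_lit 26) (.e (nat_lit 532565) (nat_lit 15) (.e (nat_lit 385065) (nat_lit 26) (.e (nat_lit 532529) (nat_lit 9) (.e (nat_lit 336324) (nat_lit 18) .nil)))))) (.g (nat_lit 1) (.e (nat_lit 232530) (nat_lit 0) .nil) .nil)))))) (.nd (nat_lit 7) (.nd (nat_lit 8) (.nd (nat_lit 9) 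
(.lf (nat_lit 524389) (.g (nat_lit 1838) (.e (nat_lit 204869) (nat_lit 29) (.e (nat_lit 360472) (nat_lit 8) (.e (nat_lit 557090) (nat_lit 12) (.e (nat_lit 164022) (nat_lit 46) .nil)))) (.g (nat_lit 0) (.e (nat_lit 231144) (nat_lit 0) .nil) .nil))) 
(.lf (nat_lit 524901) (.g (nat_lit 3091) (.e (nat_lit 204876) (nat_lit 31) (.e (nat_lit 376840) (nat_lit 11) (.e (nat_lit 426503) (nat_lit 27) (.e (nat_lit 335986) (nat_lit 1) (.e (nat_lit 57926) (nat_lit 282) (.e (nat_lit 163874) (nat_lit 3) .nil)))))) (.g (nat_lit 1) (.e (nat_lit 231927) (nat_lit 0) .nil) .nil)))) (.nd (nat_lit 9) 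
(.lf (nat_lit 524645) (.g (nat_lit 395) (.e (nat_lit 204869) (nat_lit 29) (.e (nat_lit 360475) (nat_lit 8) (.e (nat_lit 557067) (nat_lit 9) .nil))) (.g (nat_lit 0) (.e (nat_lit 231472) (nat_lit 0) .nil) .nil))) 
(.lf (nat_lit 525157) (.g (nat_lit 4361) (.e (nat_lit 204880) (nat_lit 32) (.e (nat_lit 385068) (nat_lit 26) (.e (nat_lit 532501) (nat_lit 1) (.e (nat_lit 57852) (nat_lit 252) (.e (nat_lit 57378) (nat_lit 3) (.e (nat_lit 98338) (nat_lit 19) (.e (nat_lit 213013) (nat_lit 9) (.e (nat_lit 2684) (nat_lit 168) .nil)))))))) (.g (nat_lit 1) (.e (nat_lit 232341) (nat_lit 0) .nil) .nil))))) 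
(.nd (nat_lit 8) (.nd (nat_lit 9) 
(.lf (nat_lit 524517) (.g (nat_lit 4207) (.e (nat_lit 204869) (nat_lit 29) (.e (nat_lit 360474) (nat_lit 8) (.e (nat_lit 557091) (nat_lit 12) (.e (nat_lit 163849) (nat_lit 0) (.e (nat_lit 6255) (nat_lit 337) (.e (nat_lit 2725) (nat_lit 172) (.e (nat_lit 237594) (nat_lit 3) .nil))))))) (.g (nat_lit 1) (.e (nat_lit 231315) (nat_lit 0) .nil) .nil))) 
(.lf (nat_lit 525029) (.g (nat_lit 683) (.e (nat_lit 204877) (nat_lit 31) (.e (nat_lit 376865) (nat_lit 22) (.e (nat_lit 90174) (nat_lit 14) .nil))) (.g (nat_lit 0) (.e (nat_lit 232122) (nat_lit 0) .nil) .nil)))) (.nd (nat_lit 9) 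
(.lf (nat_lit 524773) (.g (nat_lit 4669) (.e (nat_lit 204869) (nat_lit 29) (.e (nat_lit 360475) (nat_lit 8) (.e (nat_lit 557091) (nat_lit 12) (.e (nat_lit 164020) (nat_lit 45) (.e (nat_lit 696344) (nat_lit 8) (.e (nat_lit 172065) (nat_lit 3) .nil)))))) (.g (nat_lit 1) (.e (nat_lit 231659) (nat_lit 0) .nil) .nil))) 
(.lf (nat_lit 525285) (.g (nat_lit 3188) (.e (nat_lit 204882) (nat_lit 32) (.e (nat_lit 385066) (nat_lit 26) (.e (nat_lit 532533) (nat_lit 9) (.e (nat_lit 336324) (nat_lit 18) (.e (nat_lit 204854) (nat_lit 26) (.e (nat_lit 336324) (nat_lit 18) .nil)))))) (.g (nat_lit 1) (.e (nat_lit 232687) (nat_lit 0) .nil) .nil)))))))) 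
(.nd (nat_lit 5) (.nd (nat_lit 6) (.nd (nat_lit 7) (.nd (nat_lit 8) (.nd (nat_lit 9) 
(.lf (nat_lit 524309) (.g (nat_lit 2091) (.e (nat_lit 204868) (nat_lit 29) (.e (nat_lit 360475) (nat_lit 8) (.e (nat_lit 557087) (nat_lit 11) (.e (nat_lit 24589) (nat_lit 0) .nil)))) (.g (nat_lit 0) (.e (nat_lit 230966) (nat_lit 0) .nil) .nil))) 
(.lf (nat_lit 524821) (.g (nat_lit 1360) (.e (nat_lit 212736) (nat_lit 29) (.e (nat_lit 360467) (nat_lit 3) (.e (nat_lit 516139) (nat_lit 7) (.e (nat_lit 409643) (nat_lit 18) .nil)))) (.g (nat_lit 0) (.e (nat_lit 231725) (nat_lit 0) .nil) .nil)))) (.nd (nat_lit 9) 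
(.lf (nat_lit 524565) (.g (nat_lit 4761) (.e (nat_lit 204869) (nat_lit 29) (.e (nat_lit 360474) (nat_lit 8) (.e (nat_lit 557091) (nat_lit 12) (.e (nat_lit 164020) (nat_lit 45) (.e (nat_lit 696330) (nat_lit 5) (.e (nat_lit 2888) (nat_lit 184) (.e (nat_lit 426135) (nat_lit 3) .nil))))))) (.g (nat_lit 1) (.e (nat_lit 231377) (nat_lit 0) .nil) .nil))) 
(.lf (nat_lit 525077) (.g (nat_lit 632) (.e (nat_lit 204879) (nat_lit 32) (.e (nat_lit 385106) (nat_lit 50) (.e (nat_lit 786473) (nat_lit 27) .nil))) (.g (nat_lit 0) (.e (nat_lit 232196) (nat_lit 0) .nil) .nil))))) (.nd (nat_lit 8) (.nd (nat_lit 9) 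
(.lf (nat_lit 524437) (.g (nat_lit 6638) (.e (nat_lit 204869) (nat_lit 29) (.e (nat_lit 360474) (nat_lit 8) (.e (nat_lit 557085) (nat_lit 11) (.e (nat_lit 24584) (nat_lit 0) (.e (nat_lit 6666) (nat_lit 357) (.e (nat_lit 2682) (nat_lit 168) .nil)))))) (.g (nat_lit 1) (.e (nat_lit 231208) (nat_lit 0) .nil) .nil))) 
(.lf (nat_lit 524949) (.g (nat_lit 2260) (.e (nat_lit 204876) (nat_lit 31) (.e (nat_lit 376868) (nat_lit 23) (.e (nat_lit 98350) (nat_lit 24) (.e (nat_lit 409623) (nat_lit 10) (.e (nat_lit 5664) (nat_lit 312) (.e (nat_lit 2679) (nat_lit 168) .nil)))))) (.g (nat_lit 1) (.e (nat_lit 231995) (nat_lit 0) .nil) .nil)))) (.nd (nat_lit 9) 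
(.lf (nat_lit 524693) (.g (nat_lit 3129) (.e (nat_lit 204869) (nat_lit 29) (.e (nat_lit 360475) (nat_lit 8) (.e (nat_lit 557087) (nat_lit 11) (.e (nat_lit 24662) (nat_lit 14) (.e (nat_lit 401426) (nat_lit 3) .nil))))) (.g (nat_lit 1) (.e (nat_lit 231526) (nat_lit 0) .nil) .nil))) 
(.lf (nat_lit 525205) (.g (nat_lit 1808) (.e (nat_lit 204881) (nat_lit 32) (.e (nat_lit 385066) (nat_lit 26) (.e (nat_lit 532530) (nat_lit 9) (.e (nat_lit 336326) (nat_lit 18) (.e (nat_lit 204850) (nat_lit 26) .nil))))) (.g (nat_lit 0) (.e (nat_lit 232509) (nat_lit 0) .nil) .nil)))))) (.nd (nat_lit 7) (.nd (nat_lit 8) (.nd (nat_lit 9) 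
(.lf (nat_lit 524373) (.g (nat_lit 4159) (.e (nat_lit 204869) (nat_lit 29) (.e (nat_lit 360468) (nat_lit 3) (.e (nat_lit 516139) (nat_lit 7) (.e (nat_lit 409646) (nat_lit 18) (.e (nat_lit 303119) (nat_lit 3) .nil))))) (.g (nat_lit 1) (.e (nat_lit 231119) (nat_lit 0) .nil) .nil))) 
(.lf (nat_lit 524885) (.g (nat_lit 1449) (.e (nat_lit 204875) (nat_lit 31) (.e (nat_lit 376842) (nat_lit 11) (.e (nat_lit 426500) (nat_lit 27) (.e (nat_lit 335996) (nat_lit 1) .nil)))) (.g (nat_lit 0) (.e (nat_lit 231893) (nat_lit 0) .nil) .nil)))) (.nd (nat_lit 9) 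
(.lf (nat_lit 524629) (.g (nat_lit 3042) (.e (nat_lit 204869) (nat_lit 29) (.e (nat_lit 360474) (nat_lit 8) (.e (nat_lit 557094) (nat_lit 12) (.e (nat_lit 164022) (nat_lit 46) (.e (nat_lit 704628) (nat_lit 9) (.e (nat_lit 373) (nat_lit 32) (.e (nat_lit 426136) (nat_lit 3) .nil))))))) (.g (nat_lit 1) (.e (nat_lit 231447) (nat_lit 0) .nil) .nil))) 
(.lf (nat_lit 525141) (.g (nat_lit 390) (.e (nat_lit 204880) (nat_lit 32) (.e (nat_lit 385066) (nat_lit 26) (.e (nat_lit 532566) (nat_lit 15) .nil))) (.g (nat_lit 0) (.e (nat_lit 232319) (nat_lit 0) .nil) .nil))))) (.nd (nat_lit 8) (.nd (nat_lit 9) 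
(.lf (nat_lit 524501) (.g (nat_lit 4496) (.e (nat_lit 204869) (nat_lit 29) (.e (nat_lit 360474) (nat_lit 8) (.e (nat_lit 557091) (nat_lit 12) (.e (nat_lit 163844) (nat_lit 0) (.e (nat_lit 6254) (nat_lit 337) (.e (nat_lit 2725) (nat_lit 172) (.e (nat_lit 237593) (nat_lit 3) .nil))))))) (.g (nat_lit 1) (.e (nat_lit 231299) (nat_lit 0) .nil) .nil))) 
(.lf (nat_lit 525013) (.g (nat_lit 2449) (.e (nat_lit 204877) (nat_lit 31) (.e (nat_lit 376864) (nat_lit 22) (.e (nat_lit 90165) (nat_lit 12) (.e (nat_lit 164208) (nat_lit 176) (.e (nat_lit 2819) (nat_lit 181) (.e (nat_lit 311315) (nat_lit 3) .nil)))))) (.g (nat_lit 1) (.e (nat_lit 232098) (nat_lit 0) .nil) .nil)))) (.nd (nat_lit 9) 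
(.lf (nat_lit 524757) (.g (nat_lit 4315) (.e (nat_lit 204869) (nat_lit 29) (.e (nat_lit 360475) (nat_lit 8) (.e (nat_lit 557091) (nat_lit 12) (.e (nat_lit 163844) (nat_lit 0) (.e (nat_lit 6420) (nat_lit 341) (.e (nat_lit 163843) (nat_lit 0) (.e (nat_lit 7936) (nat_lit 388) (.e (nat_lit 2684) (nat_lit 168) .nil)))))))) (.g (nat_lit 1) (.e (nat_lit 231640) (nat_lit 0) .nil) .nil))) 
(.lf (nat_lit 525269) (.g (nat_lit 1825) (.e (nat_lit 204882) (nat_lit 32) (.e (nat_lit 385066) (nat_lit 26) (.e (nat_lit 532530) (nat_lit 9) (.e (nat_lit 336322) (nat_lit 18) .nil)))) (.g (nat_lit 0) (.e (nat_lit 232671) (nat_lit 0) .nil) .nil))))))) (.nd (nat_lit 6) (.nd (nat_lit 7) (.nd (nat_lit 8) (.nd (nat_lit 9) 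
(.lf (nat_lit 524341) (.g (nat_lit 4267) (.e (nat_lit 204868) (nat_lit 29) (.e (nat_lit 360475) (nat_lit 8) (.e (nat_lit 557091) (nat_lit 12) (.e (nat_lit 163843) (nat_lit 0) (.e (nat_lit 6255) (nat_lit 337) (.e (nat_lit 2725) (nat_lit 172) (.e (nat_lit 237594) (nat_lit 3) .nil))))))) (.g (nat_lit 1) (.e (nat_lit 230999) (nat_lit 0) .nil) .nil))) 
(.lf (nat_lit 524853) (.g (nat_lit 1937) (.e (nat_lit 204872) (nat_lit 30) (.e (nat_lit 368676) (nat_lit 21) (.e (nat_lit 516131) (nat_lit 3) (.e (nat_lit 221215) (nat_lit 23) (.e (nat_lit 204821) (nat_lit 17) .nil))))) (.g (nat_lit 0) (.e (nat_lit 231801) (nat_lit 0) .nil) .nil)))) (.nd (nat_lit 9) 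
(.lf (nat_lit 524597) (.g (nat_lit 3001) (.e (nat_lit 204869) (nat_lit 29) (.e (nat_lit 360474) (nat_lit 8) (.e (nat_lit 557093) (nat_lit 12) (.e (nat_lit 164022) (nat_lit 46) (.e (nat_lit 704626) (nat_lit 9) (.e (nat_lit 435) (nat_lit 32) (.e (nat_lit 426137) (nat_lit 3) .nil))))))) (.g (nat_lit 1) (.e (nat_lit 231414) (nat_lit 0) .nil) .nil))) 
(.lf (nat_lit 525109) (.g (nat_lit 2279) (.e (nat_lit 204880) (nat_lit 32) (.e (nat_lit 385066) (nat_lit 26) (.e (nat_lit 532533) (nat_lit 9) (.e (nat_lit 336324) (nat_lit 18) (.e (nat_lit 204852) (nat_lit 26) (.e (nat_lit 336324) (nat_lit 18) .nil)))))) (.g (nat_lit 1) (.e (nat_lit 232252) (nat_lit 0) .nil) .nil))))) (.nd (nat_lit 8) (.nd (nat_lit 9) 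
(.lf (nat_lit 524469) (.g (nat_lit 771) (.e (nat_lit 204869) (nat_lit 29) (.e (nat_lit 360474) (nat_lit 8) (.e (nat_lit 557090) (nat_lit 12) .nil))) (.g (nat_lit 0) (.e (nat_lit 231243) (nat_lit 0) .nil) .nil))) 
(.lf (nat_lit 524981) (.g (nat_lit 799) (.e (nat_lit 204877) (nat_lit 31) (.e (nat_lit 376842) (nat_lit 11) (.e (nat_lit 426158) (nat_lit 6) .nil))) (.g (nat_lit 0) (.e (nat_lit 232055) (nat_lit 0) .nil) .nil)))) (.nd (nat_lit 9) 
(.lf (nat_lit 524725) (.g (nat_lit 5101) (.e (nat_lit 204869) (nat_lit 29) (.e (nat_lit 360475) (nat_lit 8) (.e (nat_lit 557090) (nat_lit 12) (.e (nat_lit 163843) (nat_lit 0) (.e (nat_lit 6254) (nat_lit 337) (.e (nat_lit 2725) (nat_lit 172) (.e (nat_lit 237593) (nat_lit 3) .nil))))))) (.g (nat_lit 1) (.e (nat_lit 231579) (nat_lit 0) .nil) .nil))) 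
(.lf (nat_lit 525237) (.g (nat_lit 1368) (.e (nat_lit 204881) (nat_lit 32) (.e (nat_lit 385105) (nat_lit 50) (.e (nat_lit 786450) (nat_lit 15) (.e (nat_lit 1853) (nat_lit 124) .nil)))) (.g (nat_lit 0) (.e (nat_lit 232548) (nat_lit 0) .nil) .nil)))))) (.nd (nat_lit 7) (.nd (nat_lit 8) (.nd (nat_lit 9) 
(.lf (nat_lit 524405) (.g (nat_lit 1280) (.e (nat_lit 204869) (nat_lit 29) (.e (nat_lit 360473) (nat_lit 8) (.e (nat_lit 557089) (nat_lit 12) (.e (nat_lit 164020) (nat_lit 45) .nil)))) (.g (nat_lit 0) (.e (nat_lit 231160) (nat_lit 0) .nil) .nil))) 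
(.lf (nat_lit 524917) (.g (nat_lit 1439) (.e (nat_lit 204876) (nat_lit 31) (.e (nat_lit 376842) (nat_lit 11) (.e (nat_lit 426106) (nat_lit 1) (.e (nat_lit 164179) (nat_lit 154) (.e (nat_lit 57405) (nat_lit 12) .nil))))) (.g (nat_lit 0) (.e (nat_lit 231945) (nat_lit 0) .nil) .nil)))) (.nd (nat_lit 9) 
(.lf (nat_lit 524661) (.g (nat_lit 1048) (.e (nat_lit 204869) (nat_lit 29) (.e (nat_lit 360475) (nat_lit 8) (.e (nat_lit 557076) (nat_lit 9) .nil))) (.g (nat_lit 0) (.e (nat_lit 231491) (nat_lit 0) .nil) .nil))) 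
(.lf (nat_lit 525173) (.g (nat_lit 3593) (.e (nat_lit 204880) (nat_lit 32) (.e (nat_lit 385068) (nat_lit 26) (.e (nat_lit 532530) (nat_lit 9) (.e (nat_lit 336324) (nat_lit 18) (.e (nat_lit 204854) (nat_lit 26) (.e (nat_lit 336324) (nat_lit 18) .nil)))))) (.g (nat_lit 1) (.e (nat_lit 232368) (nat_lit 0) .nil) .nil))))) (.nd (nat_lit 8) (.nd (nat_lit 9) 
(.lf (nat_lit 524533) (.g (nat_lit 5169) (.e (nat_lit 204869) (nat_lit 29) (.e (nat_lit 360474) (nat_lit 8) (.e (nat_lit 557091) (nat_lit 12) (.e (nat_lit 164017) (nat_lit 44) (.e (nat_lit 688138) (nat_lit 5) (.e (nat_lit 2887) (nat_lit 184) (.e (nat_lit 433920) (nat_lit 3) .nil))))))) (.g (nat_lit 1) (.e (nat_lit 231343) (nat_lit 0) .nil) .nil))) 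
(.lf (nat_lit 525045) (.g (nat_lit 1773) (.e (nat_lit 204878) (nat_lit 31) (.e (nat_lit 376842) (nat_lit 11) (.e (nat_lit 426108) (nat_lit 1) (.e (nat_lit 164182) (nat_lit 154) .nil)))) (.g (nat_lit 0) (.e (nat_lit 232141) (nat_lit 0) .nil) .nil)))) (.nd (nat_lit 9) 
(.lf (nat_lit 524789) (.g (nat_lit 1672) (.e (nat_lit 204869) (nat_lit 29) (.e (nat_lit 360475) (nat_lit 8) (.e (nat_lit 557093) (nat_lit 12) (.e (nat_lit 164022) (nat_lit 46) .nil)))) (.g (nat_lit 0) (.e (nat_lit 231675) (nat_lit 0) .nil) .nil))) 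
(.lf (nat_lit 525301) (.g (nat_lit 3782) (.e (nat_lit 204882) (nat_lit 32) (.e (nat_lit 385066) (nat_lit 26) (.e (nat_lit 532563) (nat_lit 15) (.e (nat_lit 385066) (nat_lit 26) (.e (nat_lit 532534) (nat_lit 9) (.e (nat_lit 336326) (nat_lit 18) .nil)))))) (.g (nat_lit 1) (.e (nat_lit 232708) (nat_lit 0) .nil) .nil))))))))) 
(.nd (nat_lit 4) (.nd (nat_lit 5) (.nd (nat_lit 6) (.nd (nat_lit 7) (.nd (nat_lit 8) 
(.nd (nat_lit 9) 
(.lf (nat_lit 524301) (.g (nat_lit 2964) (.e (nat_lit 204868) (nat_lit 29) (.e (nat_lit 360475) (nat_lit 8) (.e (nat_lit 557086) (nat_lit 11) (.e (nat_lit 24662) (nat_lit 14) (.e (nat_lit 401426) (nat_lit 3) .nil))))) (.g (nat_lit 0) (.e (nat_lit 230956) (nat_lit 0) .nil) .nil))) 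
(.lf (nat_lit 524813) (.g (nat_lit 612) (.e (nat_lit 204870) (nat_lit 29) (.e (nat_lit 360473) (nat_lit 8) (.e (nat_lit 557086) (nat_lit 11) .nil))) (.g (nat_lit 0) (.e (nat_lit 231712) (nat_lit 0) .nil) .nil)))) (.nd (nat_lit 9) 
(.lf (nat_lit 524557) (.g (nat_lit 4315) (.e (nat_lit 204869) (nat_lit 29) (.e (nat_lit 360474) (nat_lit 8) (.e (nat_lit 557091) (nat_lit 12) (.e (nat_lit 164020) (nat_lit 45) (.e (nat_lit 696329) (nat_lit 5) (.e (nat_lit 2868) (nat_lit 184) (.e (nat_lit 426135) (nat_lit 3) .nil))))))) (.g (nat_lit 1) (.e (nat_lit 231369) (nat_lit 0) .nil) .nil))) 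
(.lf (nat_lit 525069) (.g (nat_lit 2352) (.e (nat_lit 204879) (nat_lit 32) (.e (nat_lit 385068) (nat_lit 26) (.e (nat_lit 532530) (nat_lit 9) (.e (nat_lit 336324) (nat_lit 18) (.e (nat_lit 204854) (nat_lit 26) (.e (nat_lit 336326) (nat_lit 18) .nil)))))) (.g (nat_lit 1) (.e (nat_lit 232186) (nat_lit 0) .nil) .nil))))) (.nd (nat_lit 8) (.nd (nat_lit 9) 
(.lf (nat_lit 524429) (.g (nat_lit 3115) (.e (nat_lit 204869) (nat_lit 29) (.e (nat_lit 360474) (nat_lit 8) (.e (nat_lit 557073) (nat_lit 9) (.e (nat_lit 22) (nat_lit 0) (.e (nat_lit 6232) (nat_lit 335) (.e (nat_lit 164359) (nat_lit 246) (.e (nat_lit 2679) (nat_lit 168) .nil))))))) (.g (nat_lit 1) (.e (nat_lit 231194) (nat_lit 0) .nil) .nil))) 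
(.lf (nat_lit 524941) (.g (nat_lit 3223) (.e (nat_lit 204876) (nat_lit 31) (.e (nat_lit 376842) (nat_lit 11) (.e (nat_lit 426521) (nat_lit 27) (.e (nat_lit 335988) (nat_lit 1) (.e (nat_lit 57926) (nat_lit 282) (.e (nat_lit 163875) (nat_lit 3) .nil)))))) (.g (nat_lit 1) (.e (nat_lit 231975) (nat_lit 0) .nil) .nil)))) (.nd (nat_lit 9) 
(.lf (nat_lit 524685) (.g (nat_lit 3246) (.e (nat_lit 204869) (nat_lit 29) (.e (nat_lit 360475) (nat_lit 8) (.e (nat_lit 557087) (nat_lit 11) (.e (nat_lit 24580) (nat_lit 0) (.e (nat_lit 6665) (nat_lit 357) (.e (nat_lit 2679) (nat_lit 168) .nil)))))) (.g (nat_lit 1) (.e (nat_lit 231518) (nat_lit 0) .nil) .nil))) 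
(.lf (nat_lit 525197) (.g (nat_lit 3444) (.e (nat_lit 204880) (nat_lit 32) (.e (nat_lit 385109) (nat_lit 51) (.e (nat_lit 794669) (nat_lit 22) (.e (nat_lit 196654) (nat_lit 11) (.e (nat_lit 16436) (nat_lit 9) (.e (nat_lit 426131) (nat_lit 3) .nil)))))) (.g (nat_lit 1) (.e (nat_lit 232493) (nat_lit 0) .nil) .nil)))))) (.nd (nat_lit 7) (.nd (nat_lit 8) (.nd (nat_lit 9) 
(.lf (nat_lit 524365) (.g (nat_lit 1840) (.e (nat_lit 204869) (nat_lit 29) (.e (nat_lit 360467) (nat_lit 3) (.e (nat_lit 516138) (nat_lit 7) (.e (nat_lit 409648) (nat_lit 18) .nil)))) (.g (nat_lit 0) (.e (nat_lit 231084) (nat_lit 0) .nil) .nil))) 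
(.lf (nat_lit 524877) (.g (nat_lit 1370) (.e (nat_lit 204874) (nat_lit 30) (.e (nat_lit 368676) (nat_lit 21) (.e (nat_lit 516131) (nat_lit 3) .nil))) (.g (nat_lit 0) (.e (nat_lit 231884) (nat_lit 0) .nil) .nil)))) (.nd (nat_lit 9) 
(.lf (nat_lit 524621) (.g (nat_lit 2901) (.e (nat_lit 204869) (nat_lit 29) (.e (nat_lit 360474) (nat_lit 8) (.e (nat_lit 557094) (nat_lit 12) (.e (nat_lit 163847) (nat_lit 0) (.e (nat_lit 6420) (nat_lit 341) (.e (nat_lit 163843) (nat_lit 0) (.e (nat_lit 7936) (nat_lit 388) (.e (nat_lit 2685) (nat_lit 168) .nil)))))))) (.g (nat_lit 1) (.e (nat_lit 231439) (nat_lit 0) .nil) .nil))) 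
(.lf (nat_lit 525133) (.g (nat_lit 3193) (.e (nat_lit 204880) (nat_lit 32) (.e (nat_lit 385066) (nat_lit 26) (.e (nat_lit 532564) (nat_lit 15) (.e (nat_lit 385066) (nat_lit 26) (.e (nat_lit 532534) (nat_lit 9) (.e (nat_lit 336325) (nat_lit 18) .nil)))))) (.g (nat_lit 1) (.e (nat_lit 232310) (nat_lit 0) .nil) .nil))))) (.nd (nat_lit 8) (.nd (nat_lit 9) 
(.lf (nat_lit 524493) (.g (nat_lit 4927) (.e (nat_lit 204869) (nat_lit 29) (.e (nat_lit 360474) (nat_lit 8) (.e (nat_lit 557091) (nat_lit 12) (.e (nat_lit 163843) (nat_lit 0) (.e (nat_lit 6255) (nat_lit 337) (.e (nat_lit 2725) (nat_lit 172) (.e (nat_lit 237593) (nat_lit 3) .nil))))))) (.g (nat_lit 1) (.e (nat_lit 231285) (nat_lit 0) .nil) .nil))) 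
(.lf (nat_lit 525005) (.g (nat_lit 3134) (.e (nat_lit 204877) (nat_lit 31) (.e (nat_lit 376842) (nat_lit 11) (.e (nat_lit 426500) (nat_lit 27) (.e (nat_lit 335996) (nat_lit 1) (.e (nat_lit 57931) (nat_lit 282) (.e (nat_lit 163874) (nat_lit 3) .nil)))))) (.g (nat_lit 1) (.e (nat_lit 232083) (nat_lit 0) .nil) .nil)))) (.nd (nat_lit 9) 
(.lf (nat_lit 524749) (.g (nat_lit 4491) (.e (nat_lit 204869) (nat_lit 29) (.e (nat_lit 360475) (nat_lit 8) (.e (nat_lit 557091) (nat_lit 12) (.e (nat_lit 163843) (nat_lit 0) (.e (nat_lit 6416) (nat_lit 341) (.e (nat_lit 163843) (nat_lit 0) (.e (nat_lit 7936) (nat_lit 388) (.e (nat_lit 2685) (nat_lit 168) .nil)))))))) (.g (nat_lit 1) (.e (nat_lit 231632) (nat_lit 0) .nil) .nil))) 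
(.lf (nat_lit 525261) (.g (nat_lit 3206) (.e (nat_lit 204882) (nat_lit 32) (.e (nat_lit 385066) (nat_lit 26) (.e (nat_lit 532528) (nat_lit 9) (.e (nat_lit 336324) (nat_lit 18) (.e (nat_lit 204854) (nat_lit 26) (.e (nat_lit 336324) (nat_lit 18) .nil)))))) (.g (nat_lit 1) (.e (nat_lit 232663) (nat_lit 0) .nil) .nil))))))) (.nd (nat_lit 6) (.nd (nat_lit 7) (.nd (nat_lit 8) (.nd (nat_lit 9) 
(.lf (nat_lit 524333) (.g (nat_lit 2232) (.e (nat_lit 204868) (nat_lit 29) (.e (nat_lit 360475) (nat_lit 8) (.e (nat_lit 557090) (nat_lit 12) (.e (nat_lit 164020) (nat_lit 45) (.e (nat_lit 696342) (nat_lit 8) .nil))))) (.g (nat_lit 0) (.e (nat_lit 230991) (nat_lit 0) .nil) .nil))) 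
(.lf (nat_lit 524845) (.g (nat_lit 964) (.e (nat_lit 204872) (nat_lit 30) (.e (nat_lit 368676) (nat_lit 21) (.e (nat_lit 516131) (nat_lit 3) (.e (nat_lit 221211) (nat_lit 22) .nil)))) (.g (nat_lit 0) (.e (nat_lit 231787) (nat_lit 0) .nil) .nil)))) (.nd (nat_lit 9) 
(.lf (nat_lit 524589) (.g (nat_lit 4196) (.e (nat_lit 204869) (nat_lit 29) (.e (nat_lit 360474) (nat_lit 8) (.e (nat_lit 557091) (nat_lit 12) (.e (nat_lit 164022) (nat_lit 46) (.e (nat_lit 704629) (nat_lit 9) (.e (nat_lit 416) (nat_lit 32) (.e (nat_lit 426137) (nat_lit 3) .nil))))))) (.g (nat_lit 1) (.e (nat_lit 231404) (nat_lit 0) .nil) .nil))) 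
(.lf (nat_lit 525101) (.g (nat_lit 2122) (.e (nat_lit 204880) (nat_lit 32) (.e (nat_lit 385066) (nat_lit 26) (.e (nat_lit 532530) (nat_lit 9) (.e (nat_lit 336326) (nat_lit 18) (.e (nat_lit 212736) (nat_lit 26) (.e (nat_lit 336323) (nat_lit 18) .nil)))))) (.g (nat_lit 1) (.e (nat_lit 232241) (nat_lit 0) .nil) .nil))))) (.nd (nat_lit 8) (.nd (nat_lit 9) 
(.lf (nat_lit 524461) (.g (nat_lit 3402) (.e (nat_lit 204869) (nat_lit 29) (.e (nat_lit 360474) (nat_lit 8) (.e (nat_lit 557089) (nat_lit 12) (.e (nat_lit 163850) (nat_lit 0) (.e (nat_lit 6273) (nat_lit 337) (.e (nat_lit 2729) (nat_lit 172) (.e (nat_lit 237593) (nat_lit 3) .nil))))))) (.g (nat_lit 1) (.e (nat_lit 231234) (nat_lit 0) .nil) .nil))) 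
(.lf (nat_lit 524973) (.g (nat_lit 1604) (.e (nat_lit 204877) (nat_lit 31) (.e (nat_lit 376842) (nat_lit 11) (.e (nat_lit 426098) (nat_lit 1) (.e (nat_lit 164183) (nat_lit 154) (.e (nat_lit 57410) (nat_lit 12) .nil))))) (.g (nat_lit 0) (.e (nat_lit 232047) (nat_lit 0) .nil) .nil)))) (.nd (nat_lit 9) 
(.lf (nat_lit 524717) (.g (nat_lit 4150) (.e (nat_lit 204869) (nat_lit 29) (.e (nat_lit 360475) (nat_lit 8) (.e (nat_lit 557089) (nat_lit 12) (.e (nat_lit 164020) (nat_lit 45) (.e (nat_lit 696327) (nat_lit 5) (.e (nat_lit 2884) (nat_lit 184) (.e (nat_lit 426140) (nat_lit 3) .nil))))))) (.g (nat_lit 1) (.e (nat_lit 231553) (nat_lit 0) .nil) .nil))) 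
(.lf (nat_lit 525229) (.g (nat_lit 1769) (.e (nat_lit 204881) (nat_lit 32) (.e (nat_lit 385068) (nat_lit 26) (.e (nat_lit 532501) (nat_lit 1) (.e (nat_lit 57854) (nat_lit 252) .nil)))) (.g (nat_lit 0) (.e (nat_lit 232538) (nat_lit 0) .nil) .nil)))))) (.nd (nat_lit 7) (.nd (nat_lit 8) (.nd (nat_lit 9) 
(.lf (nat_lit 524397) (.g (nat_lit 3125) (.e (nat_lit 204869) (nat_lit 29) (.e (nat_lit 360473) (nat_lit 8) (.e (nat_lit 557087) (nat_lit 11) (.e (nat_lit 24589) (nat_lit 0) (.e (nat_lit 6676) (nat_lit 357) .nil))))) (.g (nat_lit 0) (.e (nat_lit 231152) (nat_lit 0) .nil) .nil))) 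
(.lf (nat_lit 524909) (.g (nat_lit 1542) (.e (nat_lit 204876) (nat_lit 31) (.e (nat_lit 376842) (nat_lit 11) (.e (nat_lit 426098) (nat_lit 1) (.e (nat_lit 164179) (nat_lit 154) (.e (nat_lit 65280) (nat_lit 12) .nil))))) (.g (nat_lit 0) (.e (nat_lit 231937) (nat_lit 0) .nil) .nil)))) (.nd (nat_lit 9) 
(.lf (nat_lit 524653) (.g (nat_lit 4598) (.e (nat_lit 204869) (nat_lit 29) (.e (nat_lit 360475) (nat_lit 8) (.e (nat_lit 557068) (nat_lit 9) (.e (nat_lit 220) (nat_lit 20) (.e (nat_lit 327700) (nat_lit 8) (.e (nat_lit 303118) (nat_lit 3) .nil)))))) (.g (nat_lit 1) (.e (nat_lit 231482) (nat_lit 0) .nil) .nil))) 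
(.lf (nat_lit 525165) (.g (nat_lit 4705) (.e (nat_lit 204880) (nat_lit 32) (.e (nat_lit 385068) (nat_lit 26) (.e (nat_lit 532504) (nat_lit 1) (.e (nat_lit 57852) (nat_lit 252) (.e (nat_lit 57378) (nat_lit 3) (.e (nat_lit 98338) (nat_lit 19) (.e (nat_lit 213013) (nat_lit 9) (.e (nat_lit 2684) (nat_lit 168) .nil)))))))) (.g (nat_lit 1) (.e (nat_lit 232360) (nat_lit 0) .nil) .nil))))) 
(.nd (nat_lit 8) (.nd (nat_lit 9) 
(.lf (nat_lit 524525) (.g (nat_lit 2928) (.e (nat_lit 204869) (nat_lit 29) (.e (nat_lit 360474) (nat_lit 8) (.e (nat_lit 557091) (nat_lit 12) (.e (nat_lit 163850) (nat_lit 0) (.e (nat_lit 6427) (nat_lit 342) (.e (nat_lit 229404) (nat_lit 12) (.e (nat_lit 426137) (nat_lit 3) .nil))))))) (.g (nat_lit 1) (.e (nat_lit 231330) (nat_lit 0) .nil) .nil))) 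
(.lf (nat_lit 525037) (.g (nat_lit 1184) (.e (nat_lit 204877) (nat_lit 31) (.e (nat_lit 376866) (nat_lit 23) (.e (nat_lit 98350) (nat_lit 24) (.e (nat_lit 417536) (nat_lit 18) .nil)))) (.g (nat_lit 0) (.e (nat_lit 232133) (nat_lit 0) .nil) .nil)))) (.nd (nat_lit 9) 
(.lf (nat_lit 524781) (.g (nat_lit 4134) (.e (nat_lit 204869) (nat_lit 29) (.e (nat_lit 360475) (nat_lit 8) (.e (nat_lit 557091) (nat_lit 12) (.e (nat_lit 164022) (nat_lit 46) (.e (nat_lit 704628) (nat_lit 9) (.e (nat_lit 398) (nat_lit 32) (.e (nat_lit 426137) (nat_lit 3) .nil))))))) (.g (nat_lit 1) (.e (nat_lit 231667) (nat_lit 0) .nil) .nil))) 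
(.lf (nat_lit 525293) (.g (nat_lit 2241) (.e (nat_lit 204882) (nat_lit 32) (.e (nat_lit 385066) (nat_lit 26) (.e (nat_lit 532534) (nat_lit 9) (.e (nat_lit 336326) (nat_lit 18) (.e (nat_lit 212736) (nat_lit 26) (.e (nat_lit 336323) (nat_lit 18) .nil)))))) (.g (nat_lit 1) (.e (nat_lit 232696) (nat_lit 0) .nil) .nil)))))))) 
(.nd (nat_lit 5) (.nd (nat_lit 6) (.nd (nat_lit 7) (.nd (nat_lit 8) (.nd (nat_lit 9) 
(.lf (nat_lit 524317) (.g (nat_lit 1117) (.e (nat_lit 204868) (nat_lit 29) (.e (nat_lit 360475) (nat_lit 8) (.e (nat_lit 564992) (nat_lit 11) .nil))) (.g (nat_lit 0) (.e (nat_lit 230974) (nat_lit 0) .nil) .nil))) 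
(.lf (nat_lit 524829) (.g (nat_lit 1943) (.e (nat_lit 204871) (nat_lit 30) (.e (nat_lit 368676) (nat_lit 21) (.e (nat_lit 516131) (nat_lit 3) (.e (nat_lit 221212) (nat_lit 22) .nil)))) (.g (nat_lit 0) (.e (nat_lit 231748) (nat_lit 0) .nil) .nil)))) (.nd (nat_lit 9) 
(.lf (nat_lit 524573) (.g (nat_lit 4038) (.e (nat_lit 204869) (nat_lit 29) (.e (nat_lit 360474) (nat_lit 8) (.e (nat_lit 557091) (nat_lit 12) (.e (nat_lit 164020) (nat_lit 45) (.e (nat_lit 696344) (nat_lit 8) (.e (nat_lit 179968) (nat_lit 3) .nil)))))) (.g (nat_lit 1) (.e (nat_lit 231388) (nat_lit 0) .nil) .nil))) 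
(.lf (nat_lit 525085) (.g (nat_lit 3763) (.e (nat_lit 204880) (nat_lit 32) (.e (nat_lit 385066) (nat_lit 26) (.e (nat_lit 532501) (nat_lit 1) (.e (nat_lit 57852) (nat_lit 252) (.e (nat_lit 57377) (nat_lit 3) (.e (nat_lit 98338) (nat_lit 19) (.e (nat_lit 213013) (nat_lit 9) (.e (nat_lit 2684) (nat_lit 168) .nil)))))))) (.g (nat_lit 1) (.e (nat_lit 232214) (nat_lit 0) .nil) .nil))))) 
(.nd (nat_lit 8) (.nd (nat_lit 9) 
(.lf (nat_lit 524445) (.g (nat_lit 631) (.e (nat_lit 204869) (nat_lit 29) (.e (nat_lit 360474) (nat_lit 8) (.e (nat_lit 557088) (nat_lit 12) .nil))) (.g (nat_lit 0) (.e (nat_lit 231217) (nat_lit 0) .nil) .nil))) 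
(.lf (nat_lit 524957) (.g (nat_lit 2394) (.e (nat_lit 204877) (nat_lit 31) (.e (nat_lit 376835) (nat_lit 0) (.e (nat_lit 3253) (nat_lit 197) (.e (nat_lit 532515) (nat_lit 3) (.e (nat_lit 114698) (nat_lit 11) (.e (nat_lit 426138) (nat_lit 3) .nil)))))) (.g (nat_lit 1) (.e (nat_lit 232009) (nat_lit 0) .nil) .nil)))) (.nd (nat_lit 9) 
(.lf (nat_lit 524701) (.g (nat_lit 3497) (.e (nat_lit 204869) (nat_lit 29) (.e (nat_lit 360475) (nat_lit 8) (.e (nat_lit 557089) (nat_lit 12) (.e (nat_lit 163843) (nat_lit 0) (.e (nat_lit 6254) (nat_lit 337) (.e (nat_lit 2725) (nat_lit 172) (.e (nat_lit 237592) (nat_lit 3) .nil))))))) (.g (nat_lit 1) (.e (nat_lit 231534) (nat_lit 0) .nil) .nil))) 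
(.lf (nat_lit 525213) (.g (nat_lit 1944) (.e (nat_lit 204881) (nat_lit 32) (.e (nat_lit 385066) (nat_lit 26) (.e (nat_lit 532534) (nat_lit 9) (.e (nat_lit 336322) (nat_lit 18) .nil)))) (.g (nat_lit 0) (.e (nat_lit 232521) (nat_lit 0) .nil) .nil)))))) (.nd (nat_lit 7) (.nd (nat_lit 8) (.nd (nat_lit 9) 
(.lf (nat_lit 524381) (.g (nat_lit 218) (.e (nat_lit 204869) (nat_lit 29) (.e (nat_lit 360472) (nat_lit 8) (.e (nat_lit 557090) (nat_lit 12) .nil))) (.g (nat_lit 0) (.e (nat_lit 231136) (nat_lit 0) .nil) .nil))) 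
(.lf (nat_lit 524893) (.g (nat_lit 2226) (.e (nat_lit 204876) (nat_lit 31) (.e (nat_lit 376835) (nat_lit 0) (.e (nat_lit 3253) (nat_lit 197) (.e (nat_lit 532513) (nat_lit 3) (.e (nat_lit 114696) (nat_lit 11) (.e (nat_lit 426129) (nat_lit 3) .nil)))))) (.g (nat_lit 1) (.e (nat_lit 231905) (nat_lit 0) .nil) .nil)))) (.nd (nat_lit 9) 
(.lf (nat_lit 524637) (.g (nat_lit 4048) (.e (nat_lit 204869) (nat_lit 29) (.e (nat_lit 360474) (nat_lit 8) (.e (nat_lit 557094) (nat_lit 12) (.e (nat_lit 164022) (nat_lit 46) (.e (nat_lit 704629) (nat_lit 9) (.e (nat_lit 411) (nat_lit 32) (.e (nat_lit 426136) (nat_lit 3) .nil))))))) (.g (nat_lit 1) (.e (nat_lit 231455) (nat_lit 0) .nil) .nil))) 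
(.lf (nat_lit 525149) (.g (nat_lit 2375) (.e (nat_lit 204880) (nat_lit 32) (.e (nat_lit 385068) (nat_lit 26) (.e (nat_lit 532499) (nat_lit 1) (.e (nat_lit 57847) (nat_lit 252) (.e (nat_lit 57379) (nat_lit 3) .nil))))) (.g (nat_lit 0) (.e (nat_lit 232327) (nat_lit 0) .nil) .nil))))) (.nd (nat_lit 8) (.nd (nat_lit 9) 
(.lf (nat_lit 524509) (.g (nat_lit 4184) (.e (nat_lit 204869) (nat_lit 29) (.e (nat_lit 360474) (nat_lit 8) (.e (nat_lit 557091) (nat_lit 12) (.e (nat_lit 163847) (nat_lit 0) (.e (nat_lit 6254) (nat_lit 337) (.e (nat_lit 2725) (nat_lit 172) (.e (nat_lit 237594) (nat_lit 3) .nil))))))) (.g (nat_lit 1) (.e (nat_lit 231307) (nat_lit 0) .nil) .nil))) 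
(.lf (nat_lit 525021) (.g (nat_lit 1334) (.e (nat_lit 204877) (nat_lit 31) (.e (nat_lit 376865) (nat_lit 22) (.e (nat_lit 90172) (nat_lit 14) (.e (nat_lit 180225) (nat_lit 0) .nil)))) (.g (nat_lit 0) (.e (nat_lit 232113) (nat_lit 0) .nil) .nil)))) (.nd (nat_lit 9) 
(.lf (nat_lit 524765) (.g (nat_lit 5323) (.e (nat_lit 204869) (nat_lit 29) (.e (nat_lit 360475) (nat_lit 8) (.e (nat_lit 557091) (nat_lit 12) (.e (nat_lit 163850) (nat_lit 0) (.e (nat_lit 6425) (nat_lit 342) (.e (nat_lit 229402) (nat_lit 12) (.e (nat_lit 426134) (nat_lit 3) .nil))))))) (.g (nat_lit 1) (.e (nat_lit 231649) (nat_lit 0) .nil) .nil))) 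
(.lf (nat_lit 525277) (.g (nat_lit 332) (.e (nat_lit 204882) (nat_lit 32) (.e (nat_lit 385066) (nat_lit 26) (.e (nat_lit 532532) (nat_lit 9) .nil))) (.g (nat_lit 0) (.e (nat_lit 232679) (nat_lit 0) .nil) .nil))))))) (.nd (nat_lit 6) (.nd (nat_lit 7) (.nd (nat_lit 8) (.nd (nat_lit 9) 
(.lf (nat_lit 524349) (.g (nat_lit 4030) (.e (nat_lit 204868) (nat_lit 29) (.e (nat_lit 360475) (nat_lit 8) (.e (nat_lit 557091) (nat_lit 12) (.e (nat_lit 164020) (nat_lit 45) (.e (nat_lit 696343) (nat_lit 8) (.e (nat_lit 172065) (nat_lit 3) .nil)))))) (.g (nat_lit 1) (.e (nat_lit 231009) (nat_lit 0) .nil) .nil))) 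
(.lf (nat_lit 524861) (.g (nat_lit 1583) (.e (nat_lit 204873) (nat_lit 30) (.e (nat_lit 368676) (nat_lit 21) (.e (nat_lit 516118) (nat_lit 1) (.e (nat_lit 164183) (nat_lit 154) .nil)))) (.g (nat_lit 0) (.e (nat_lit 231835) (nat_lit 0) .nil) .nil)))) (.nd (nat_lit 9) 
(.lf (nat_lit 524605) (.g (nat_lit 4222) (.e (nat_lit 204869) (nat_lit 29) (.e (nat_lit 360474) (nat_lit 8) (.e (nat_lit 557093) (nat_lit 12) (.e (nat_lit 164022) (nat_lit 46) (.e (nat_lit 704629) (nat_lit 9) (.e (nat_lit 373) (nat_lit 32) (.e (nat_lit 426135) (nat_lit 3) .nil))))))) (.g (nat_lit 1) (.e (nat_lit 231423) (nat_lit 0) .nil) .nil))) 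
(.lf (nat_lit 525117) (.g (nat_lit 1187) (.e (nat_lit 204880) (nat_lit 32) (.e (nat_lit 385066) (nat_lit 26) (.e (nat_lit 532534) (nat_lit 9) (.e (nat_lit 336326) (nat_lit 18) .nil)))) (.g (nat_lit 0) (.e (nat_lit 232283) (nat_lit 0) .nil) .nil))))) (.nd (nat_lit 8) (.nd (nat_lit 9) 
(.lf (nat_lit 524477) (.g (nat_lit 4294) (.e (nat_lit 204869) (nat_lit 29) (.e (nat_lit 360474) (nat_lit 8) (.e (nat_lit 557091) (nat_lit 12) (.e (nat_lit 163841) (nat_lit 0) (.e (nat_lit 6252) (nat_lit 337) (.e (nat_lit 2725) (nat_lit 172) (.e (nat_lit 237594) (nat_lit 3) .nil))))))) (.g (nat_lit 1) (.e (nat_lit 231251) (nat_lit 0) .nil) .nil))) 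
(.lf (nat_lit 524989) (.g (nat_lit 2786) (.e (nat_lit 204877) (nat_lit 31) (.e (nat_lit 376842) (nat_lit 11) (.e (nat_lit 426408) (nat_lit 15) (.e (nat_lit 6209) (nat_lit 333) (.e (nat_lit 57881) (nat_lit 270) (.e (nat_lit 174) (nat_lit 12) .nil)))))) (.g (nat_lit 1) (.e (nat_lit 232066) (nat_lit 0) .nil) .nil)))) (.nd (nat_lit 9) 
(.lf (nat_lit 524733) (.g (nat_lit 4640) (.e (nat_lit 204869) (nat_lit 29) (.e (nat_lit 360475) (nat_lit 8) (.e (nat_lit 557090) (nat_lit 12) (.e (nat_lit 163844) (nat_lit 0) (.e (nat_lit 6255) (nat_lit 337) (.e (nat_lit 2725) (nat_lit 172) (.e (nat_lit 237592) (nat_lit 3) .nil))))))) (.g (nat_lit 1) (.e (nat_lit 231599) (nat_lit 0) .nil) .nil))) 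
(.lf (nat_lit 525245) (.g (nat_lit 2612) (.e (nat_lit 204881) (nat_lit 32) (.e (nat_lit 385109) (nat_lit 51) (.e (nat_lit 794665) (nat_lit 22) (.e (nat_lit 196656) (nat_lit 11) (.e (nat_lit 16436) (nat_lit 9) (.e (nat_lit 426131) (nat_lit 3) .nil)))))) (.g (nat_lit 1) (.e (nat_lit 232599) (nat_lit 0) .nil) .nil)))))) (.nd (nat_lit 7) (.nd (nat_lit 8) (.nd (nat_lit 9) 
(.lf (nat_lit 524413) (.g (nat_lit 2517) (.e (nat_lit 204869) (nat_lit 29) (.e (nat_lit 360473) (nat_lit 8) (.e (nat_lit 557091) (nat_lit 12) (.e (nat_lit 164020) (nat_lit 45) (.e (nat_lit 696344) (nat_lit 8) .nil))))) (.g (nat_lit 0) (.e (nat_lit 231168) (nat_lit 0) .nil) .nil))) 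
(.lf (nat_lit 524925) (.g (nat_lit 1469) (.e (nat_lit 204876) (nat_lit 31) (.e (nat_lit 376842) (nat_lit 11) (.e (nat_lit 426406) (nat_lit 15) (.e (nat_lit 6209) (nat_lit 333) (.e (nat_lit 57879) (nat_lit 270) (.e (nat_lit 174) (nat_lit 12) .nil)))))) (.g (nat_lit 1) (.e (nat_lit 231954) (nat_lit 0) .nil) .nil)))) (.nd (nat_lit 9) 
(.lf (nat_lit 524669) (.g (nat_lit 4308) (.e (nat_lit 204869) (nat_lit 29) (.e (nat_lit 360475) (nat_lit 8) (.e (nat_lit 557085) (nat_lit 11) (.e (nat_lit 24580) (nat_lit 0) (.e (nat_lit 6665) (nat_lit 357) (.e (nat_lit 7936) (nat_lit 168) .nil)))))) (.g (nat_lit 1) (.e (nat_lit 231502) (nat_lit 0) .nil) .nil))) 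
(.lf (nat_lit 525181) (.g (nat_lit 3042) (.e (nat_lit 204880) (nat_lit 32) (.e (nat_lit 385068) (nat_lit 26) (.e (nat_lit 532534) (nat_lit 9) (.e (nat_lit 336324) (nat_lit 18) (.e (nat_lit 204852) (nat_lit 26) (.e (nat_lit 336324) (nat_lit 18) .nil)))))) (.g (nat_lit 1) (.e (nat_lit 232376) (nat_lit 0) .nil) .nil))))) (.nd (nat_lit 8) (.nd (nat_lit 9) 
(.lf (nat_lit 524541) (.g (nat_lit 4121) (.e (nat_lit 204869) (nat_lit 29) (.e (nat_lit 360474) (nat_lit 8) (.e (nat_lit 557091) (nat_lit 12) (.e (nat_lit 164020) (nat_lit 45) (.e (nat_lit 696327) (nat_lit 5) (.e (nat_lit 2842) (nat_lit 184) (.e (nat_lit 426136) (nat_lit 3) .nil))))))) (.g (nat_lit 1) (.e (nat_lit 231353) (nat_lit 0) .nil) .nil))) 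
(.lf (nat_lit 525053) (.g (nat_lit 1842) (.e (nat_lit 204879) (nat_lit 32) (.e (nat_lit 385066) (nat_lit 26) (.e (nat_lit 532530) (nat_lit 9) (.e (nat_lit 336316) (nat_lit 17) (.e (nat_lit 196665) (nat_lit 13) .nil))))) (.g (nat_lit 0) (.e (nat_lit 232170) (nat_lit 0) .nil) .nil)))) (.nd (nat_lit 9) 
(.lf (nat_lit 524797) (.g (nat_lit 2018) (.e (nat_lit 204870) (nat_lit 29) (.e (nat_lit 360463) (nat_lit 1) (.e (nat_lit 499846) (nat_lit 5) (.e (nat_lit 2829) (nat_lit 182) (.e (nat_lit 409647) (nat_lit 18) (.e (nat_lit 303119) (nat_lit 3) .nil)))))) (.g (nat_lit 1) (.e (nat_lit 231689) (nat_lit 0) .nil) .nil))) 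
(.lf (nat_lit 525309) (.g (nat_lit 3316) (.e (nat_lit 204882) (nat_lit 32) (.e (nat_lit 385067) (nat_lit 26) (.e (nat_lit 532563) (nat_lit 15) (.e (nat_lit 385066) (nat_lit 26) (.e (nat_lit 532530) (nat_lit 9) (.e (nat_lit 336326) (nat_lit 18) .nil)))))) (.g (nat_lit 1) (.e (nat_lit 232727) (nat_lit 0) .nil) .nil))))))))))) 
(.nd (nat_lit 2) (.nd (nat_lit 3) (.nd (nat_lit 4) (.nd (nat_lit 5) (.nd (nat_lit 6) 
(.nd (nat_lit 7) (.nd (nat_lit 8) (.nd (nat_lit 9) 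
(.lf (nat_lit 524291) (.g (nat_lit 663) (.e (nat_lit 204868) (nat_lit 29) (.e (nat_lit 360475) (nat_lit 8) (.e (nat_lit 557068) (nat_lit 9) .nil))) (.g (nat_lit 0) (.e (nat_lit 230943) (nat_lit 0) .nil) .nil))) 
(.lf (nat_lit 524803) (.g (nat_lit 2607) (.e (nat_lit 204870) (nat_lit 29) (.e (nat_lit 360467) (nat_lit 3) (.e (nat_lit 516139) (nat_lit 7) (.e (nat_lit 409616) (nat_lit 10) (.e (nat_lit 5628) (nat_lit 312) (.e (nat_lit 2685) (nat_lit 168) .nil)))))) (.g (nat_lit 1) (.e (nat_lit 231698) (nat_lit 0) .nil) .nil)))) (.nd (nat_lit 9) 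
(.lf (nat_lit 524547) (.g (nat_lit 3629) (.e (nat_lit 204869) (nat_lit 29) (.e (nat_lit 360474) (nat_lit 8) (.e (nat_lit 557091) (nat_lit 12) (.e (nat_lit 164020) (nat_lit 45) (.e (nat_lit 696327) (nat_lit 5) (.e (nat_lit 2894) (nat_lit 184) (.e (nat_lit 426136) (nat_lit 3) .nil))))))) (.g (nat_lit 1) (.e (nat_lit 231359) (nat_lit 0) .nil) .nil))) 
(.lf (nat_lit 525059) (.g (nat_lit 1837) (.e (nat_lit 204879) (nat_lit 32) (.e (nat_lit 385066) (nat_lit 26) (.e (nat_lit 532534) (nat_lit 9) (.e (nat_lit 336324) (nat_lit 18) .nil)))) (.g (nat_lit 0) (.e (nat_lit 232176) (nat_lit 0) .nil) .nil))))) (.nd (nat_lit 8) (.nd (nat_lit 9) 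
(.lf (nat_lit 524419) (.g (nat_lit 1935) (.e (nat_lit 204869) (nat_lit 29) (.e (nat_lit 360473) (nat_lit 8) (.e (nat_lit 557093) (nat_lit 12) (.e (nat_lit 164023) (nat_lit 46) (.e (nat_lit 704647) (nat_lit 9) .nil))))) (.g (nat_lit 0) (.e (nat_lit 231174) (nat_lit 0) .nil) .nil))) 
(.lf (nat_lit 524931) (.g (nat_lit 1423) (.e (nat_lit 204876) (nat_lit 31) (.e (nat_lit 376842) (nat_lit 11) (.e (nat_lit 426408) (nat_lit 15) (.e (nat_lit 6214) (nat_lit 333) .nil)))) (.g (nat_lit 0) (.e (nat_lit 231962) (nat_lit 0) .nil) .nil)))) (.nd (nat_lit 9) 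
(.lf (nat_lit 524675) (.g (nat_lit 4523) (.e (nat_lit 204869) (nat_lit 29) (.e (nat_lit 360475) (nat_lit 8) (.e (nat_lit 557086) (nat_lit 11) (.e (nat_lit 24588) (nat_lit 0) (.e (nat_lit 6680) (nat_lit 357) (.e (nat_lit 2682) (nat_lit 168) .nil)))))) (.g (nat_lit 1) (.e (nat_lit 231508) (nat_lit 0) .nil) .nil))) 
(.lf (nat_lit 525187) (.g (nat_lit 3338) (.e (nat_lit 204880) (nat_lit 32) (.e (nat_lit 385068) (nat_lit 26) (.e (nat_lit 532563) (nat_lit 15) (.e (nat_lit 385066) (nat_lit 26) (.e (nat_lit 532534) (nat_lit 9) (.e (nat_lit 336326) (nat_lit 18) .nil)))))) (.g (nat_lit 1) (.e (nat_lit 232384) (nat_lit 0) .nil) .nil)))))) (.nd (nat_lit 7) (.nd (nat_lit 8) (.nd (nat_lit 9) 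
(.lf (nat_lit 524355) (.g (nat_lit 566) (.e (nat_lit 204869) (nat_lit 29) (.e (nat_lit 360451) (nat_lit 0) (.e (nat_lit 4046) (nat_lit 245) .nil))) (.g (nat_lit 0) (.e (nat_lit 231031) (nat_lit 0) .nil) .nil))) 
(.lf (nat_lit 524867) (.g (nat_lit 2449) (.e (nat_lit 204873) (nat_lit 30) (.e (nat_lit 368676) (nat_lit 21) (.e (nat_lit 516129) (nat_lit 3) (.e (nat_lit 221215) (nat_lit 23) (.e (nat_lit 204831) (nat_lit 18) (.e (nat_lit 57931) (nat_lit 282) (.e (nat_lit 163874) (nat_lit 3) .nil))))))) (.g (nat_lit 1) (.e (nat_lit 231849) (nat_lit 0) .nil) .nil)))) (.nd (nat_lit 9) 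
(.lf (nat_lit 524611) (.g (nat_lit 3899) (.e (nat_lit 204869) (nat_lit 29) (.e (nat_lit 360474) (nat_lit 8) (.e (nat_lit 557093) (nat_lit 12) (.e (nat_lit 164022) (nat_lit 46) (.e (nat_lit 704629) (nat_lit 9) (.e (nat_lit 436) (nat_lit 32) (.e (nat_lit 426137) (nat_lit 3) .nil))))))) (.g (nat_lit 1) (.e (nat_lit 231429) (nat_lit 0) .nil) .nil))) 
(.lf (nat_lit 525123) (.g (nat_lit 2053) (.e (nat_lit 204880) (nat_lit 32) (.e (nat_lit 385066) (nat_lit 26) (.e (nat_lit 532534) (nat_lit 9) (.e (nat_lit 336326) (nat_lit 18) (.e (nat_lit 212736) (nat_lit 26) (.e (nat_lit 336323) (nat_lit 18) .nil)))))) (.g (nat_lit 1) (.e (nat_lit 232289) (nat_lit 0) .nil) .nil))))) (.nd (nat_lit 8) (.nd (nat_lit 9) 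
(.lf (nat_lit 524483) (.g (nat_lit 4170) (.e (nat_lit 204869) (nat_lit 29) (.e (nat_lit 360474) (nat_lit 8) (.e (nat_lit 557091) (nat_lit 12) (.e (nat_lit 163841) (nat_lit 0) (.e (nat_lit 6255) (nat_lit 337) (.e (nat_lit 2725) (nat_lit 172) (.e (nat_lit 237594) (nat_lit 3) .nil))))))) (.g (nat_lit 1) (.e (nat_lit 231257) (nat_lit 0) .nil) .nil))) 
(.lf (nat_lit 524995) (.g (nat_lit 3700) (.e (nat_lit 204877) (nat_lit 31) (.e (nat_lit 376842) (nat_lit 11) (.e (nat_lit 426497) (nat_lit 27) (.e (nat_lit 335988) (nat_lit 1) (.e (nat_lit 57926) (nat_lit 282) (.e (nat_lit 163874) (nat_lit 3) .nil)))))) (.g (nat_lit 1) (.e (nat_lit 232073) (nat_lit 0) .nil) .nil)))) (.nd (nat_lit 9) 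
(.lf (nat_lit 524739) (.g (nat_lit 4351) (.e (nat_lit 204869) (nat_lit 29) (.e (nat_lit 360475) (nat_lit 8) (.e (nat_lit 557090) (nat_lit 12) (.e (nat_lit 164020) (nat_lit 45) (.e (nat_lit 696344) (nat_lit 8) (.e (nat_lit 179968) (nat_lit 3) .nil)))))) (.g (nat_lit 1) (.e (nat_lit 231618) (nat_lit 0) .nil) .nil))) 
(.lf (nat_lit 525251) (.g (nat_lit 3459) (.e (nat_lit 204882) (nat_lit 32) (.e (nat_lit 385065) (nat_lit 26) (.e (nat_lit 532530) (nat_lit 9) (.e (nat_lit 336326) (nat_lit 18) (.e (nat_lit 204854) (nat_lit 26) (.e (nat_lit 336324) (nat_lit 18) .nil)))))) (.g (nat_lit 1) (.e (nat_lit 232645) (nat_lit 0) .nil) .nil))))))) (.nd (nat_lit 6) (.nd (nat_lit 7) (.nd (nat_lit 8) (.nd (nat_lit 9) 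
(.lf (nat_lit 524323) (.g (nat_lit 1906) (.e (nat_lit 204868) (nat_lit 29) (.e (nat_lit 360475) (nat_lit 8) (.e (nat_lit 557089) (nat_lit 12) (.e (nat_lit 163848) (nat_lit 0) .nil)))) (.g (nat_lit 0) (.e (nat_lit 230980) (nat_lit 0) .nil) .nil))) 
(.lf (nat_lit 524835) (.g (nat_lit 1192) (.e (nat_lit 204872) (nat_lit 30) (.e (nat_lit 368676) (nat_lit 21) (.e (nat_lit 516115) (nat_lit 1) (.e (nat_lit 164179) (nat_lit 154) .nil)))) (.g (nat_lit 0) (.e (nat_lit 231759) (nat_lit 0) .nil) .nil)))) (.nd (nat_lit 9) 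
(.lf (nat_lit 524579) (.g (nat_lit 3075) (.e (nat_lit 204869) (nat_lit 29) (.e (nat_lit 360474) (nat_lit 8) (.e (nat_lit 557091) (nat_lit 12) (.e (nat_lit 164022) (nat_lit 46) (.e (nat_lit 704626) (nat_lit 9) (.e (nat_lit 416) (nat_lit 32) (.e (nat_lit 426137) (nat_lit 3) .nil))))))) (.g (nat_lit 1) (.e (nat_lit 231394) (nat_lit 0) .nil) .nil))) 
(.lf (nat_lit 525091) (.g (nat_lit 726) (.e (nat_lit 204880) (nat_lit 32) (.e (nat_lit 385066) (nat_lit 26) (.e (nat_lit 532528) (nat_lit 9) (.e (nat_lit 336325) (nat_lit 18) .nil)))) (.g (nat_lit 0) (.e (nat_lit 232230) (nat_lit 0) .nil) .nil))))) (.nd (nat_lit 8) (.nd (nat_lit 9) 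
(.lf (nat_lit 524451) (.g (nat_lit 2702) (.e (nat_lit 204869) (nat_lit 29) (.e (nat_lit 360474) (nat_lit 8) (.e (nat_lit 557089) (nat_lit 12) (.e (nat_lit 163843) (nat_lit 0) (.e (nat_lit 6418) (nat_lit 341) (.e (nat_lit 163850) (nat_lit 0) (.e (nat_lit 7936) (nat_lit 388) (.e (nat_lit 2684) (nat_lit 168) .nil)))))))) (.g (nat_lit 1) (.e (nat_lit 231223) (nat_lit 0) .nil) .nil))) 
(.lf (nat_lit 524963) (.g (nat_lit 2923) (.e (nat_lit 204877) (nat_lit 31) (.e (nat_lit 376835) (nat_lit 0) (.e (nat_lit 3305) (nat_lit 202) (.e (nat_lit 573485) (nat_lit 13) (.e (nat_lit 65630) (nat_lit 14) (.e (nat_lit 401428) (nat_lit 3) .nil)))))) (.g (nat_lit 1) (.e (nat_lit 232025) (nat_lit 0) .nil) .nil)))) (.nd (nat_lit 9) 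
(.lf (nat_lit 524707) (.g (nat_lit 4193) (.e (nat_lit 204869) (nat_lit 29) (.e (nat_lit 360475) (nat_lit 8) (.e (nat_lit 557089) (nat_lit 12) (.e (nat_lit 163844) (nat_lit 0) (.e (nat_lit 6255) (nat_lit 337) (.e (nat_lit 2725) (nat_lit 172) (.e (nat_lit 237592) (nat_lit 3) .nil))))))) (.g (nat_lit 1) (.e (nat_lit 231541) (nat_lit 0) .nil) .nil))) 
(.lf (nat_lit 525219) (.g (nat_lit 2994) (.e (nat_lit 204881) (nat_lit 32) (.e (nat_lit 385066) (nat_lit 26) (.e (nat_lit 532534) (nat_lit 9) (.e (nat_lit 336326) (nat_lit 18) (.e (nat_lit 204852) (nat_lit 26) (.e (nat_lit 336324) (nat_lit 18) .nil)))))) (.g (nat_lit 1) (.e (nat_lit 232527) (nat_lit 0) .nil) .nil)))))) (.nd (nat_lit 7) (.nd (nat_lit 8) (.nd (nat_lit 9) 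
(.lf (nat_lit 524387) (.g (nat_lit 2662) (.e (nat_lit 204869) (nat_lit 29) (.e (nat_lit 360472) (nat_lit 8) (.e (nat_lit 557090) (nat_lit 12) (.e (nat_lit 164020) (nat_lit 45) (.e (nat_lit 696327) (nat_lit 5) .nil))))) (.g (nat_lit 0) (.e (nat_lit 231142) (nat_lit 0) .nil) .nil))) 
(.lf (nat_lit 524899) (.g (nat_lit 3156) (.e (nat_lit 204876) (nat_lit 31) (.e (nat_lit 376835) (nat_lit 0) (.e (nat_lit 3304) (nat_lit 202) (.e (nat_lit 573485) (nat_lit 13) (.e (nat_lit 65628) (nat_lit 14) (.e (nat_lit 401428) (nat_lit 3) .nil)))))) (.g (nat_lit 1) (.e (nat_lit 231913) (nat_lit 0) .nil) .nil)))) (.nd (nat_lit 9) 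
(.lf (nat_lit 524643) (.g (nat_lit 3530) (.e (nat_lit 204869) (nat_lit 29) (.e (nat_lit 360475) (nat_lit 8) (.e (nat_lit 557065) (nat_lit 9) (.e (nat_lit 214) (nat_lit 19) (.e (nat_lit 319492) (nat_lit 0) (.e (nat_lit 5626) (nat_lit 312) (.e (nat_lit 2685) (nat_lit 168) .nil))))))) (.g (nat_lit 1) (.e (nat_lit 231467) (nat_lit 0) .nil) .nil))) 
(.lf (nat_lit 525155) (.g (nat_lit 3501) (.e (nat_lit 204880) (nat_lit 32) (.e (nat_lit 385068) (nat_lit 26) (.e (nat_lit 532501) (nat_lit 1) (.e (nat_lit 57852) (nat_lit 252) (.e (nat_lit 57377) (nat_lit 3) .nil))))) (.g (nat_lit 0) (.e (nat_lit 232339) (nat_lit 0) .nil) .nil))))) (.nd (nat_lit 8) (.nd (nat_lit 9) 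
(.lf (nat_lit 524515) (.g (nat_lit 4514) (.e (nat_lit 204869) (nat_lit 29) (.e (nat_lit 360474) (nat_lit 8) (.e (nat_lit 557091) (nat_lit 12) (.e (nat_lit 163849) (nat_lit 0) (.e (nat_lit 6254) (nat_lit 337) (.e (nat_lit 2725) (nat_lit 172) (.e (nat_lit 237593) (nat_lit 3) .nil))))))) (.g (nat_lit 1) (.e (nat_lit 231313) (nat_lit 0) .nil) .nil))) 
(.lf (nat_lit 525027) (.g (nat_lit 1216) (.e (nat_lit 204877) (nat_lit 31) (.e (nat_lit 376865) (nat_lit 22) (.e (nat_lit 90172) (nat_lit 14) (.e (nat_lit 180258) (nat_lit 16) .nil)))) (.g (nat_lit 0) (.e (nat_lit 232120) (nat_lit 0) .nil) .nil)))) (.nd (nat_lit 9) 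
(.lf (nat_lit 524771) (.g (nat_lit 4098) (.e (nat_lit 204869) (nat_lit 29) (.e (nat_lit 360475) (nat_lit 8) (.e (nat_lit 557091) (nat_lit 12) (.e (nat_lit 164018) (nat_lit 45) (.e (nat_lit 696344) (nat_lit 8) (.e (nat_lit 172065) (nat_lit 3) .nil)))))) (.g (nat_lit 1) (.e (nat_lit 231657) (nat_lit 0) .nil) .nil))) 
(.lf (nat_lit 525283) (.g (nat_lit 2751) (.e (nat_lit 204882) (nat_lit 32) (.e (nat_lit 385066) (nat_lit 26) (.e (nat_lit 532532) (nat_lit 9) (.e (nat_lit 336326) (nat_lit 18) (.e (nat_lit 204854) (nat_lit 26) (.e (nat_lit 336324) (nat_lit 18) .nil)))))) (.g (nat_lit 1) (.e (nat_lit 232685) (nat_lit 0) .nil) .nil)))))))) 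
(.nd (nat_lit 5) (.nd (nat_lit 6) (.nd (nat_lit 7) (.nd (nat_lit 8) (.nd (nat_lit 9) 
(.lf (nat_lit 524307) (.g (nat_lit 1658) (.e (nat_lit 204868) (nat_lit 29) (.e (nat_lit 360475) (nat_lit 8) (.e (nat_lit 557087) (nat_lit 11) (.e (nat_lit 24584) (nat_lit 0) .nil)))) (.g (nat_lit 0) (.e (nat_lit 230963) (nat_lit 0) .nil) .nil))) 
(.lf (nat_lit 524819) (.g (nat_lit 596) (.e (nat_lit 212736) (nat_lit 29) (.e (nat_lit 360466) (nat_lit 3) (.e (nat_lit 516138) (nat_lit 7) .nil))) (.g (nat_lit 0) (.e (nat_lit 231723) (nat_lit 0) .nil) .nil)))) (.nd (nat_lit 9) 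
(.lf (nat_lit 524563) (.g (nat_lit 4583) (.e (nat_lit 204869) (nat_lit 29) (.e (nat_lit 360474) (nat_lit 8) (.e (nat_lit 557091) (nat_lit 12) (.e (nat_lit 164020) (nat_lit 45) (.e (nat_lit 696330) (nat_lit 5) (.e (nat_lit 2879) (nat_lit 184) (.e (nat_lit 426135) (nat_lit 3) .nil))))))) (.g (nat_lit 1) (.e (nat_lit 231375) (nat_lit 0) .nil) .nil))) 
(.lf (nat_lit 525075) (.g (nat_lit 2678) (.e (nat_lit 204879) (nat_lit 32) (.e (nat_lit 385094) (nat_lit 49) (.e (nat_lit 778318) (nat_lit 3) (.e (nat_lit 57476) (nat_lit 28) (.e (nat_lit 557108) (nat_lit 15) .nil))))) (.g (nat_lit 0) (.e (nat_lit 232193) (nat_lit 0) .nil) .nil))))) (.nd (nat_lit 8) (.nd (nat_lit 9) 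
(.lf (nat_lit 524435) (.g (nat_lit 3202) (.e (nat_lit 204869) (nat_lit 29) (.e (nat_lit 360474) (nat_lit 8) (.e (nat_lit 557085) (nat_lit 11) (.e (nat_lit 24580) (nat_lit 0) (.e (nat_lit 6665) (nat_lit 357) (.e (nat_lit 2679) (nat_lit 168) .nil)))))) (.g (nat_lit 1) (.e (nat_lit 231206) (nat_lit 0) .nil) .nil))) 
(.lf (nat_lit 524947) (.g (nat_lit 1745) (.e (nat_lit 204876) (nat_lit 31) (.e (nat_lit 376865) (nat_lit 22) (.e (nat_lit 90185) (nat_lit 17) (.e (nat_lit 237585) (nat_lit 1) (.e (nat_lit 164401) (nat_lit 256) .nil))))) (.g (nat_lit 0) (.e (nat_lit 231990) (nat_lit 0) .nil) .nil)))) (.nd (nat_lit 9) 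
(.lf (nat_lit 524691) (.g (nat_lit 2513) (.e (nat_lit 204869) (nat_lit 29) (.e (nat_lit 360475) (nat_lit 8) (.e (nat_lit 557087) (nat_lit 11) (.e (nat_lit 24589) (nat_lit 0) (.e (nat_lit 7936) (nat_lit 357) .nil))))) (.g (nat_lit 0) (.e (nat_lit 231524) (nat_lit 0) .nil) .nil))) 
(.lf (nat_lit 525203) (.g (nat_lit 3514) (.e (nat_lit 204881) (nat_lit 32) (.e (nat_lit 385066) (nat_lit 26) (.e (nat_lit 532530) (nat_lit 9) (.e (nat_lit 336324) (nat_lit 18) (.e (nat_lit 204854) (nat_lit 26) (.e (nat_lit 336324) (nat_lit 18) .nil)))))) (.g (nat_lit 1) (.e (nat_lit 232507) (nat_lit 0) .nil) .nil)))))) (.nd (nat_lit 7) (.nd (nat_lit 8) (.nd (nat_lit 9) 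
(.lf (nat_lit 524371) (.g (nat_lit 3249) (.e (nat_lit 204869) (nat_lit 29) (.e (nat_lit 360468) (nat_lit 3) (.e (nat_lit 516139) (nat_lit 7) (.e (nat_lit 409643) (nat_lit 18) (.e (nat_lit 303119) (nat_lit 3) .nil))))) (.g (nat_lit 1) (.e (nat_lit 231117) (nat_lit 0) .nil) .nil))) 
(.lf (nat_lit 524883) (.g (nat_lit 816) (.e (nat_lit 204875) (nat_lit 31) (.e (nat_lit 376842) (nat_lit 11) (.e (nat_lit 426107) (nat_lit 1) .nil))) (.g (nat_lit 0) (.e (nat_lit 231890) (nat_lit 0) .nil) .nil)))) (.nd (nat_lit 9) 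
(.lf (nat_lit 524627) (.g (nat_lit 2768) (.e (nat_lit 204869) (nat_lit 29) (.e (nat_lit 360474) (nat_lit 8) (.e (nat_lit 557094) (nat_lit 12) (.e (nat_lit 164022) (nat_lit 46) (.e (nat_lit 704627) (nat_lit 9) (.e (nat_lit 391) (nat_lit 32) (.e (nat_lit 426137) (nat_lit 3) .nil))))))) (.g (nat_lit 1) (.e (nat_lit 231445) (nat_lit 0) .nil) .nil))) 
(.lf (nat_lit 525139) (.g (nat_lit 2742) (.e (nat_lit 204880) (nat_lit 32) (.e (nat_lit 385066) (nat_lit 26) (.e (nat_lit 532565) (nat_lit 15) (.e (nat_lit 385066) (nat_lit 26) (.e (nat_lit 532530) (nat_lit 9) (.e (nat_lit 336325) (nat_lit 18) .nil)))))) (.g (nat_lit 1) (.e (nat_lit 232316) (nat_lit 0) .nil) .nil))))) (.nd (nat_lit 8) (.nd (nat_lit 9) 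
(.lf (nat_lit 524499) (.g (nat_lit 3294) (.e (nat_lit 204869) (nat_lit 29) (.e (nat_lit 360474) (nat_lit 8) (.e (nat_lit 557091) (nat_lit 12) (.e (nat_lit 163844) (nat_lit 0) (.e (nat_lit 6252) (nat_lit 337) (.e (nat_lit 2725) (nat_lit 172) (.e (nat_lit 237593) (nat_lit 3) .nil))))))) (.g (nat_lit 1) (.e (nat_lit 231297) (nat_lit 0) .nil) .nil))) 
(.lf (nat_lit 525011) (.g (nat_lit 200) (.e (nat_lit 204877) (nat_lit 31) (.e (nat_lit 376864) (nat_lit 22) (.e (nat_lit 90133) (nat_lit 9) .nil))) (.g (nat_lit 0) (.e (nat_lit 232096) (nat_lit 0) .nil) .nil)))) (.nd (nat_lit 9) 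
(.lf (nat_lit 524755) (.g (nat_lit 4631) (.e (nat_lit 204869) (nat_lit 29) (.e (nat_lit 360475) (nat_lit 8) (.e (nat_lit 557091) (nat_lit 12) (.e (nat_lit 163844) (nat_lit 0) (.e (nat_lit 6254) (nat_lit 337) (.e (nat_lit 2725) (nat_lit 172) (.e (nat_lit 237594) (nat_lit 3) .nil))))))) (.g (nat_lit 1) (.e (nat_lit 231638) (nat_lit 0) .nil) .nil))) 
(.lf (nat_lit 525267) (.g (nat_lit 1624) (.e (nat_lit 204882) (nat_lit 32) (.e (nat_lit 385066) (nat_lit 26) (.e (nat_lit 532530) (nat_lit 9) (.e (nat_lit 336316) (nat_lit 17) (.e (nat_lit 196662) (nat_lit 13) .nil))))) (.g (nat_lit 0) (.e (nat_lit 232669) (nat_lit 0) .nil) .nil))))))) (.nd (nat_lit 6) (.nd (nat_lit 7) (.nd (nat_lit 8) (.nd (nat_lit 9) 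
(.lf (nat_lit 524339) (.g (nat_lit 2830) (.e (nat_lit 204868) (nat_lit 29) (.e (nat_lit 360475) (nat_lit 8) (.e (nat_lit 557091) (nat_lit 12) (.e (nat_lit 163843) (nat_lit 0) (.e (nat_lit 6255) (nat_lit 337) .nil))))) (.g (nat_lit 0) (.e (nat_lit 230997) (nat_lit 0) .nil) .nil))) 
(.lf (nat_lit 524851) (.g (nat_lit 987) (.e (nat_lit 204872) (nat_lit 30) (.e (nat_lit 368676) (nat_lit 21) (.e (nat_lit 516131) (nat_lit 3) (.e (nat_lit 221214) (nat_lit 23) .nil)))) (.g (nat_lit 0) (.e (nat_lit 231799) (nat_lit 0) .nil) .nil)))) (.nd (nat_lit 9) 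
(.lf (nat_lit 524595) (.g (nat_lit 3886) (.e (nat_lit 204869) (nat_lit 29) (.e (nat_lit 360474) (nat_lit 8) (.e (nat_lit 557093) (nat_lit 12) (.e (nat_lit 163849) (nat_lit 0) (.e (nat_lit 6255) (nat_lit 337) (.e (nat_lit 2725) (nat_lit 172) (.e (nat_lit 237593) (nat_lit 3) .nil))))))) (.g (nat_lit 1) (.e (nat_lit 231412) (nat_lit 0) .nil) .nil))) 
(.lf (nat_lit 525107) (.g (nat_lit 3189) (.e (nat_lit 204880) (nat_lit 32) (.e (nat_lit 385066) (nat_lit 26) (.e (nat_lit 532532) (nat_lit 9) (.e (nat_lit 336324) (nat_lit 18) (.e (nat_lit 204854) (nat_lit 26) (.e (nat_lit 336325) (nat_lit 18) .nil)))))) (.g (nat_lit 1) (.e (nat_lit 232247) (nat_lit 0) .nil) .nil))))) (.nd (nat_lit 8) (.nd (nat_lit 9) 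
(.lf (nat_lit 524467) (.g (nat_lit 4119) (.e (nat_lit 204869) (nat_lit 29) (.e (nat_lit 360474) (nat_lit 8) (.e (nat_lit 557089) (nat_lit 12) (.e (nat_lit 164017) (nat_lit 44) (.e (nat_lit 688138) (nat_lit 5) (.e (nat_lit 2887) (nat_lit 184) (.e (nat_lit 433920) (nat_lit 3) .nil))))))) (.g (nat_lit 1) (.e (nat_lit 231241) (nat_lit 0) .nil) .nil))) 
(.lf (nat_lit 524979) (.g (nat_lit 1403) (.e (nat_lit 204877) (nat_lit 31) (.e (nat_lit 376842) (nat_lit 11) (.e (nat_lit 426106) (nat_lit 1) (.e (nat_lit 164179) (nat_lit 154) (.e (nat_lit 57405) (nat_lit 12) .nil))))) (.g (nat_lit 0) (.e (nat_lit 232053) (nat_lit 0) .nil) .nil)))) (.nd (nat_lit 9) 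
(.lf (nat_lit 524723) (.g (nat_lit 3555) (.e (nat_lit 204869) (nat_lit 29) (.e (nat_lit 360475) (nat_lit 8) (.e (nat_lit 557090) (nat_lit 12) (.e (nat_lit 163843) (nat_lit 0) (.e (nat_lit 6252) (nat_lit 337) .nil))))) (.g (nat_lit 0) (.e (nat_lit 231576) (nat_lit 0) .nil) .nil))) 
(.lf (nat_lit 525235) (.g (nat_lit 1627) (.e (nat_lit 204881) (nat_lit 32) (.e (nat_lit 385068) (nat_lit 26) (.e (nat_lit 532534) (nat_lit 9) (.e (nat_lit 336324) (nat_lit 18) .nil)))) (.g (nat_lit 0) (.e (nat_lit 232545) (nat_lit 0) .nil) .nil)))))) (.nd (nat_lit 7) (.nd (nat_lit 8) (.nd (nat_lit 9) 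
(.lf (nat_lit 524403) (.g (nat_lit 2087) (.e (nat_lit 204869) (nat_lit 29) (.e (nat_lit 360473) (nat_lit 8) (.e (nat_lit 557089) (nat_lit 12) (.e (nat_lit 163843) (nat_lit 0) (.e (nat_lit 6421) (nat_lit 341) .nil))))) (.g (nat_lit 0) (.e (nat_lit 231158) (nat_lit 0) .nil) .nil))) 
(.lf (nat_lit 524915) (.g (nat_lit 1585) (.e (nat_lit 204876) (nat_lit 31) (.e (nat_lit 376842) (nat_lit 11) (.e (nat_lit 426100) (nat_lit 1) (.e (nat_lit 164161) (nat_lit 152) (.e (nat_lit 7936) (nat_lit 88) .nil))))) (.g (nat_lit 0) (.e (nat_lit 231943) (nat_lit 0) .nil) .nil)))) (.nd (nat_lit 9) 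
(.lf (nat_lit 524659) (.g (nat_lit 494) (.e (nat_lit 204869) (nat_lit 29) (.e (nat_lit 360475) (nat_lit 8) (.e (nat_lit 557074) (nat_lit 9) .nil))) (.g (nat_lit 0) (.e (nat_lit 231489) (nat_lit 0) .nil) .nil))) 
(.lf (nat_lit 525171) (.g (nat_lit 2256) (.e (nat_lit 204880) (nat_lit 32) (.e (nat_lit 385068) (nat_lit 26) (.e (nat_lit 532530) (nat_lit 9) (.e (nat_lit 336322) (nat_lit 18) (.e (nat_lit 204852) (nat_lit 26) .nil))))) (.g (nat_lit 0) (.e (nat_lit 232366) (nat_lit 0) .nil) .nil))))) (.nd (nat_lit 8) (.nd (nat_lit 9) 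
(.lf (nat_lit 524531) (.g (nat_lit 5868) (.e (nat_lit 204869) (nat_lit 29) (.e (nat_lit 360474) (nat_lit 8) (.e (nat_lit 557091) (nat_lit 12) (.e (nat_lit 164017) (nat_lit 44) (.e (nat_lit 688138) (nat_lit 5) (.e (nat_lit 2887) (nat_lit 184) (.e (nat_lit 426135) (nat_lit 3) .nil))))))) (.g (nat_lit 1) (.e (nat_lit 231341) (nat_lit 0) .nil) .nil))) 
(.lf (nat_lit 525043) (.g (nat_lit 2149) (.e (nat_lit 204878) (nat_lit 31) (.e (nat_lit 376842) (nat_lit 11) (.e (nat_lit 426100) (nat_lit 1) (.e (nat_lit 164182) (nat_lit 154) .nil)))) (.g (nat_lit 0) (.e (nat_lit 232139) (nat_lit 0) .nil) .nil)))) (.nd (nat_lit 9) 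
(.lf (nat_lit 524787) (.g (nat_lit 816) (.e (nat_lit 204869) (nat_lit 29) (.e (nat_lit 360475) (nat_lit 8) (.e (nat_lit 557092) (nat_lit 12) .nil))) (.g (nat_lit 0) (.e (nat_lit 231673) (nat_lit 0) .nil) .nil))) 
(.lf (nat_lit 525299) (.g (nat_lit 3992) (.e (nat_lit 204882) (nat_lit 32) (.e (nat_lit 385066) (nat_lit 26) (.e (nat_lit 532563) (nat_lit 15) (.e (nat_lit 385066) (nat_lit 26) (.e (nat_lit 532530) (nat_lit 9) (.e (nat_lit 336324) (nat_lit 18) .nil)))))) (.g (nat_lit 1) (.e (nat_lit 232706) (nat_lit 0) .nil) .nil))))))))) 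
(.nd (nat_lit 4) (.nd (nat_lit 5) (.nd (nat_lit 6) (.nd (nat_lit 7) (.nd (nat_lit 8) 
(.nd (nat_lit 9) 
(.lf (nat_lit 524299) (.g (nat_lit 3401) (.e (nat_lit 204868) (nat_lit 29) (.e (nat_lit 360475) (nat_lit 8) (.e (nat_lit 557085) (nat_lit 11) (.e (nat_lit 24661) (nat_lit 14) (.e (nat_lit 401428) (nat_lit 3) .nil))))) (.g (nat_lit 0) (.e (nat_lit 230954) (nat_lit 0) .nil) .nil))) 
(.lf (nat_lit 524811) (.g (nat_lit 1478) (.e (nat_lit 204870) (nat_lit 29) (.e (nat_lit 360471) (nat_lit 7) (.e (nat_lit 548874) (nat_lit 5) (.e (nat_lit 1464) (nat_lit 108) .nil)))) (.g (nat_lit 0) (.e (nat_lit 231709) (nat_lit 0) .nil) .nil)))) (.nd (nat_lit 9) 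
(.lf (nat_lit 524555) (.g (nat_lit 1984) (.e (nat_lit 204869) (nat_lit 29) (.e (nat_lit 360474) (nat_lit 8) (.e (nat_lit 557091) (nat_lit 12) (.e (nat_lit 164020) (nat_lit 45) (.e (nat_lit 696328) (nat_lit 5) (.e (nat_lit 2914) (nat_lit 184) (.e (nat_lit 426137) (nat_lit 3) .nil))))))) (.g (nat_lit 1) (.e (nat_lit 231367) (nat_lit 0) .nil) .nil))) 
(.lf (nat_lit 525067) (.g (nat_lit 1988) (.e (nat_lit 204879) (nat_lit 32) (.e (nat_lit 385068) (nat_lit 26) (.e (nat_lit 532530) (nat_lit 9) (.e (nat_lit 336316) (nat_lit 17) .nil)))) (.g (nat_lit 0) (.e (nat_lit 232184) (nat_lit 0) .nil) .nil))))) (.nd (nat_lit 8) (.nd (nat_lit 9) 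
(.lf (nat_lit 524427) (.g (nat_lit 217) (.e (nat_lit 204869) (nat_lit 29) (.e (nat_lit 360474) (nat_lit 8) (.e (nat_lit 557072) (nat_lit 9) .nil))) (.g (nat_lit 0) (.e (nat_lit 231191) (nat_lit 0) .nil) .nil))) 
(.lf (nat_lit 524939) (.g (nat_lit 435) (.e (nat_lit 204876) (nat_lit 31) (.e (nat_lit 376842) (nat_lit 11) (.e (nat_lit 426500) (nat_lit 27) .nil))) (.g (nat_lit 0) (.e (nat_lit 231973) (nat_lit 0) .nil) .nil)))) (.nd (nat_lit 9) 
(.lf (nat_lit 524683) (.g (nat_lit 1211) (.e (nat_lit 204869) (nat_lit 29) (.e (nat_lit 360475) (nat_lit 8) (.e (nat_lit 557086) (nat_lit 11) (.e (nat_lit 32512) (nat_lit 14) .nil)))) (.g (nat_lit 0) (.e (nat_lit 231516) (nat_lit 0) .nil) .nil))) 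
(.lf (nat_lit 525195) (.g (nat_lit 1183) (.e (nat_lit 204880) (nat_lit 32) (.e (nat_lit 385093) (nat_lit 49) (.e (nat_lit 778318) (nat_lit 3) (.e (nat_lit 57476) (nat_lit 28) .nil)))) (.g (nat_lit 0) (.e (nat_lit 232395) (nat_lit 0) .nil) .nil)))))) (.nd (nat_lit 7) (.nd (nat_lit 8) (.nd (nat_lit 9) 
(.lf (nat_lit 524363) (.g (nat_lit 3932) (.e (nat_lit 204869) (nat_lit 29) (.e (nat_lit 360466) (nat_lit 3) (.e (nat_lit 516139) (nat_lit 7) (.e (nat_lit 409649) (nat_lit 18) (.e (nat_lit 303118) (nat_lit 3) .nil))))) (.g (nat_lit 1) (.e (nat_lit 231075) (nat_lit 0) .nil) .nil))) 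
(.lf (nat_lit 524875) (.g (nat_lit 1366) (.e (nat_lit 204874) (nat_lit 30) (.e (nat_lit 368676) (nat_lit 21) (.e (nat_lit 516129) (nat_lit 3) .nil))) (.g (nat_lit 0) (.e (nat_lit 231882) (nat_lit 0) .nil) .nil)))) (.nd (nat_lit 9) 
(.lf (nat_lit 524619) (.g (nat_lit 3234) (.e (nat_lit 204869) (nat_lit 29) (.e (nat_lit 360474) (nat_lit 8) (.e (nat_lit 557094) (nat_lit 12) (.e (nat_lit 163847) (nat_lit 0) (.e (nat_lit 6255) (nat_lit 337) (.e (nat_lit 2725) (nat_lit 172) (.e (nat_lit 237592) (nat_lit 3) .nil))))))) (.g (nat_lit 1) (.e (nat_lit 231437) (nat_lit 0) .nil) .nil))) 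
(.lf (nat_lit 525131) (.g (nat_lit 3427) (.e (nat_lit 204880) (nat_lit 32) (.e (nat_lit 385066) (nat_lit 26) (.e (nat_lit 532564) (nat_lit 15) (.e (nat_lit 385066) (nat_lit 26) (.e (nat_lit 532530) (nat_lit 9) (.e (nat_lit 336324) (nat_lit 18) .nil)))))) (.g (nat_lit 1) (.e (nat_lit 232308) (nat_lit 0) .nil) .nil))))) (.nd (nat_lit 8) (.nd (nat_lit 9) 
(.lf (nat_lit 524491) (.g (nat_lit 5002) (.e (nat_lit 204869) (nat_lit 29) (.e (nat_lit 360474) (nat_lit 8) (.e (nat_lit 557091) (nat_lit 12) (.e (nat_lit 163843) (nat_lit 0) (.e (nat_lit 6254) (nat_lit 337) (.e (nat_lit 2725) (nat_lit 172) (.e (nat_lit 237593) (nat_lit 3) .nil))))))) (.g (nat_lit 1) (.e (nat_lit 231282) (nat_lit 0) .nil) .nil))) 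
(.lf (nat_lit 525003) (.g (nat_lit 3150) (.e (nat_lit 204877) (nat_lit 31) (.e (nat_lit 376842) (nat_lit 11) (.e (nat_lit 426500) (nat_lit 27) (.e (nat_lit 335995) (nat_lit 1) (.e (nat_lit 57931) (nat_lit 282) (.e (nat_lit 163874) (nat_lit 3) .nil)))))) (.g (nat_lit 1) (.e (nat_lit 232081) (nat_lit 0) .nil) .nil)))) (.nd (nat_lit 9) 
(.lf (nat_lit 524747) (.g (nat_lit 4969) (.e (nat_lit 204869) (nat_lit 29) (.e (nat_lit 360475) (nat_lit 8) (.e (nat_lit 557091) (nat_lit 12) (.e (nat_lit 163843) (nat_lit 0) (.e (nat_lit 6255) (nat_lit 337) (.e (nat_lit 2725) (nat_lit 172) (.e (nat_lit 237591) (nat_lit 3) .nil))))))) (.g (nat_lit 1) (.e (nat_lit 231629) (nat_lit 0) .nil) .nil))) 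
(.lf (nat_lit 525259) (.g (nat_lit 3557) (.e (nat_lit 204882) (nat_lit 32) (.e (nat_lit 385065) (nat_lit 26) (.e (nat_lit 532563) (nat_lit 15) (.e (nat_lit 385068) (nat_lit 26) (.e (nat_lit 532530) (nat_lit 9) (.e (nat_lit 336326) (nat_lit 18) .nil)))))) (.g (nat_lit 1) (.e (nat_lit 232658) (nat_lit 0) .nil) .nil))))))) (.nd (nat_lit 6) (.nd (nat_lit 7) (.nd (nat_lit 8) (.nd (nat_lit 9) 
(.lf (nat_lit 524331) (.g (nat_lit 2841) (.e (nat_lit 204868) (nat_lit 29) (.e (nat_lit 360475) (nat_lit 8) (.e (nat_lit 557090) (nat_lit 12) (.e (nat_lit 164017) (nat_lit 44) .nil)))) (.g (nat_lit 0) (.e (nat_lit 230989) (nat_lit 0) .nil) .nil))) 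
(.lf (nat_lit 524843) (.g (nat_lit 471) (.e (nat_lit 204872) (nat_lit 30) (.e (nat_lit 368676) (nat_lit 21) (.e (nat_lit 516131) (nat_lit 3) .nil))) (.g (nat_lit 0) (.e (nat_lit 231783) (nat_lit 0) .nil) .nil)))) (.nd (nat_lit 9) 
(.lf (nat_lit 524587) (.g (nat_lit 3035) (.e (nat_lit 204869) (nat_lit 29) (.e (nat_lit 360474) (nat_lit 8) (.e (nat_lit 557091) (nat_lit 12) (.e (nat_lit 164022) (nat_lit 46) (.e (nat_lit 704629) (nat_lit 9) (.e (nat_lit 389) (nat_lit 32) (.e (nat_lit 426137) (nat_lit 3) .nil))))))) (.g (nat_lit 1) (.e (nat_lit 231402) (nat_lit 0) .nil) .nil))) 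
(.lf (nat_lit 525099) (.g (nat_lit 2184) (.e (nat_lit 204880) (nat_lit 32) (.e (nat_lit 385066) (nat_lit 26) (.e (nat_lit 532530) (nat_lit 9) (.e (nat_lit 336326) (nat_lit 18) (.e (nat_lit 204852) (nat_lit 26) (.e (nat_lit 336322) (nat_lit 18) .nil)))))) (.g (nat_lit 1) (.e (nat_lit 232239) (nat_lit 0) .nil) .nil))))) (.nd (nat_lit 8) (.nd (nat_lit 9) 
(.lf (nat_lit 524459) (.g (nat_lit 3836) (.e (nat_lit 204869) (nat_lit 29) (.e (nat_lit 360474) (nat_lit 8) (.e (nat_lit 557089) (nat_lit 12) (.e (nat_lit 163848) (nat_lit 0) (.e (nat_lit 6255) (nat_lit 337) (.e (nat_lit 2725) (nat_lit 172) (.e (nat_lit 237594) (nat_lit 3) .nil))))))) (.g (nat_lit 1) (.e (nat_lit 231232) (nat_lit 0) .nil) .nil))) 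
(.lf (nat_lit 524971) (.g (nat_lit 1522) (.e (nat_lit 204877) (nat_lit 31) (.e (nat_lit 376842) (nat_lit 11) (.e (nat_lit 426098) (nat_lit 1) (.e (nat_lit 164179) (nat_lit 154) (.e (nat_lit 65280) (nat_lit 12) .nil))))) (.g (nat_lit 0) (.e (nat_lit 232045) (nat_lit 0) .nil) .nil)))) (.nd (nat_lit 9) 
(.lf (nat_lit 524715) (.g (nat_lit 4473) (.e (nat_lit 204869) (nat_lit 29) (.e (nat_lit 360475) (nat_lit 8) (.e (nat_lit 557089) (nat_lit 12) (.e (nat_lit 164017) (nat_lit 44) (.e (nat_lit 688138) (nat_lit 5) (.e (nat_lit 2887) (nat_lit 184) (.e (nat_lit 433920) (nat_lit 3) .nil))))))) (.g (nat_lit 1) (.e (nat_lit 231551) (nat_lit 0) .nil) .nil))) 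
(.lf (nat_lit 525227) (.g (nat_lit 3822) (.e (nat_lit 204881) (nat_lit 32) (.e (nat_lit 385068) (nat_lit 26) (.e (nat_lit 532501) (nat_lit 1) (.e (nat_lit 57851) (nat_lit 252) (.e (nat_lit 57354) (nat_lit 0) .nil))))) (.g (nat_lit 0) (.e (nat_lit 232536) (nat_lit 0) .nil) .nil)))))) (.nd (nat_lit 7) (.nd (nat_lit 8) (.nd (nat_lit 9) 
(.lf (nat_lit 524395) (.g (nat_lit 3337) (.e (nat_lit 204869) (nat_lit 29) (.e (nat_lit 360473) (nat_lit 8) (.e (nat_lit 557087) (nat_lit 11) (.e (nat_lit 24580) (nat_lit 0) (.e (nat_lit 6665) (nat_lit 357) (.e (nat_lit 7936) (nat_lit 168) .nil)))))) (.g (nat_lit 1) (.e (nat_lit 231150) (nat_lit 0) .nil) .nil))) 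
(.lf (nat_lit 524907) (.g (nat_lit 1796) (.e (nat_lit 204876) (nat_lit 31) (.e (nat_lit 376842) (nat_lit 11) (.e (nat_lit 426098) (nat_lit 1) (.e (nat_lit 164161) (nat_lit 152) .nil)))) (.g (nat_lit 0) (.e (nat_lit 231935) (nat_lit 0) .nil) .nil)))) (.nd (nat_lit 9) 
(.lf (nat_lit 524651) (.g (nat_lit 4047) (.e (nat_lit 204869) (nat_lit 29) (.e (nat_lit 360475) (nat_lit 8) (.e (nat_lit 557068) (nat_lit 9) (.e (nat_lit 22) (nat_lit 0) (.e (nat_lit 6232) (nat_lit 335) (.e (nat_lit 164359) (nat_lit 246) (.e (nat_lit 2679) (nat_lit 168) .nil))))))) (.g (nat_lit 1) (.e (nat_lit 231480) (nat_lit 0) .nil) .nil))) 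
(.lf (nat_lit 525163) (.g (nat_lit 2788) (.e (nat_lit 204880) (nat_lit 32) (.e (nat_lit 385068) (nat_lit 26) (.e (nat_lit 532504) (nat_lit 1) (.e (nat_lit 57852) (nat_lit 252) (.e (nat_lit 57354) (nat_lit 0) .nil))))) (.g (nat_lit 0) (.e (nat_lit 232352) (nat_lit 0) .nil) .nil))))) (.nd (nat_lit 8) (.nd (nat_lit 9) 
(.lf (nat_lit 524523) (.g (nat_lit 4349) (.e (nat_lit 204869) (nat_lit 29) (.e (nat_lit 360474) (nat_lit 8) (.e (nat_lit 557091) (nat_lit 12) (.e (nat_lit 163850) (nat_lit 0) (.e (nat_lit 6425) (nat_lit 342) (.e (nat_lit 229401) (nat_lit 12) (.e (nat_lit 426136) (nat_lit 3) .nil))))))) (.g (nat_lit 1) (.e (nat_lit 231328) (nat_lit 0) .nil) .nil))) 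
(.lf (nat_lit 525035) (.g (nat_lit 1677) (.e (nat_lit 204877) (nat_lit 31) (.e (nat_lit 376865) (nat_lit 22) (.e (nat_lit 90185) (nat_lit 17) (.e (nat_lit 237584) (nat_lit 1) .nil)))) (.g (nat_lit 0) (.e (nat_lit 232131) (nat_lit 0) .nil) .nil)))) (.nd (nat_lit 9) 
(.lf (nat_lit 524779) (.g (nat_lit 4317) (.e (nat_lit 204869) (nat_lit 29) (.e (nat_lit 360475) (nat_lit 8) (.e (nat_lit 557091) (nat_lit 12) (.e (nat_lit 164022) (nat_lit 46) (.e (nat_lit 704628) (nat_lit 9) (.e (nat_lit 391) (nat_lit 32) (.e (nat_lit 426137) (nat_lit 3) .nil))))))) (.g (nat_lit 1) (.e (nat_lit 231665) (nat_lit 0) .nil) .nil))) 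
(.lf (nat_lit 525291) (.g (nat_lit 3462) (.e (nat_lit 204882) (nat_lit 32) (.e (nat_lit 385066) (nat_lit 26) (.e (nat_lit 532534) (nat_lit 9) (.e (nat_lit 336326) (nat_lit 18) (.e (nat_lit 204854) (nat_lit 26) (.e (nat_lit 336326) (nat_lit 18) .nil)))))) (.g (nat_lit 1) (.e (nat_lit 232694) (nat_lit 0) .nil) .nil)))))))) 
(.nd (nat_lit 5) (.nd (nat_lit 6) (.nd (nat_lit 7) (.nd (nat_lit 8) (.nd (nat_lit 9) 
(.lf (nat_lit 524315) (.g (nat_lit 2945) (.e (nat_lit 204868) (nat_lit 29) (.e (nat_lit 360475) (nat_lit 8) (.e (nat_lit 557087) (nat_lit 11) (.e (nat_lit 24664) (nat_lit 14) (.e (nat_lit 409344) (nat_lit 3) .nil))))) (.g (nat_lit 0) (.e (nat_lit 230972) (nat_lit 0) .nil) .nil))) 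
(.lf (nat_lit 524827) (.g (nat_lit 1340) (.e (nat_lit 204871) (nat_lit 30) (.e (nat_lit 368676) (nat_lit 21) (.e (nat_lit 516129) (nat_lit 3) .nil))) (.g (nat_lit 0) (.e (nat_lit 231744) (nat_lit 0) .nil) .nil)))) (.nd (nat_lit 9) 
(.lf (nat_lit 524571) (.g (nat_lit 3633) (.e (nat_lit 204869) (nat_lit 29) (.e (nat_lit 360474) (nat_lit 8) (.e (nat_lit 557091) (nat_lit 12) (.e (nat_lit 164020) (nat_lit 45) (.e (nat_lit 696336) (nat_lit 5) (.e (nat_lit 2863) (nat_lit 184) (.e (nat_lit 426136) (nat_lit 3) .nil))))))) (.g (nat_lit 1) (.e (nat_lit 231383) (nat_lit 0) .nil) .nil))) 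
(.lf (nat_lit 525083) (.g (nat_lit 2915) (.e (nat_lit 204880) (nat_lit 32) (.e (nat_lit 385066) (nat_lit 26) (.e (nat_lit 532499) (nat_lit 1) (.e (nat_lit 57847) (nat_lit 252) (.e (nat_lit 57379) (nat_lit 3) .nil))))) (.g (nat_lit 0) (.e (nat_lit 232206) (nat_lit 0) .nil) .nil))))) (.nd (nat_lit 8) (.nd (nat_lit 9) 
(.lf (nat_lit 524443) (.g (nat_lit 2476) (.e (nat_lit 204869) (nat_lit 29) (.e (nat_lit 360474) (nat_lit 8) (.e (nat_lit 557087) (nat_lit 11) (.e (nat_lit 24663) (nat_lit 14) (.e (nat_lit 401427) (nat_lit 3) .nil))))) (.g (nat_lit 1) (.e (nat_lit 231215) (nat_lit 0) .nil) .nil))) 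
(.lf (nat_lit 524955) (.g (nat_lit 1418) (.e (nat_lit 204877) (nat_lit 31) (.e (nat_lit 376835) (nat_lit 0) (.e (nat_lit 3253) (nat_lit 197) (.e (nat_lit 532513) (nat_lit 3) (.e (nat_lit 114695) (nat_lit 11) .nil))))) (.g (nat_lit 0) (.e (nat_lit 232007) (nat_lit 0) .nil) .nil)))) (.nd (nat_lit 9) 
(.lf (nat_lit 524699) (.g (nat_lit 1061) (.e (nat_lit 204869) (nat_lit 29) (.e (nat_lit 360475) (nat_lit 8) (.e (nat_lit 557088) (nat_lit 12) .nil))) (.g (nat_lit 0) (.e (nat_lit 231532) (nat_lit 0) .nil) .nil))) 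
(.lf (nat_lit 525211) (.g (nat_lit 1744) (.e (nat_lit 204881) (nat_lit 32) (.e (nat_lit 385066) (nat_lit 26) (.e (nat_lit 532534) (nat_lit 9) (.e (nat_lit 336316) (nat_lit 17) (.e (nat_lit 196663) (nat_lit 13) .nil))))) (.g (nat_lit 0) (.e (nat_lit 232519) (nat_lit 0) .nil) .nil)))))) (.nd (nat_lit 7) (.nd (nat_lit 8) (.nd (nat_lit 9) 
(.lf (nat_lit 524379) (.g (nat_lit 3943) (.e (nat_lit 204869) (nat_lit 29) (.e (nat_lit 360472) (nat_lit 8) (.e (nat_lit 557087) (nat_lit 11) (.e (nat_lit 24661) (nat_lit 14) (.e (nat_lit 401428) (nat_lit 3) .nil))))) (.g (nat_lit 1) (.e (nat_lit 231134) (nat_lit 0) .nil) .nil))) 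
(.lf (nat_lit 524891) (.g (nat_lit 2440) (.e (nat_lit 204875) (nat_lit 31) (.e (nat_lit 376869) (nat_lit 23) (.e (nat_lit 98350) (nat_lit 24) (.e (nat_lit 409649) (nat_lit 18) (.e (nat_lit 303119) (nat_lit 3) .nil))))) (.g (nat_lit 0) (.e (nat_lit 231902) (nat_lit 0) .nil) .nil)))) (.nd (nat_lit 9) 
(.lf (nat_lit 524635) (.g (nat_lit 2999) (.e (nat_lit 204869) (nat_lit 29) (.e (nat_lit 360474) (nat_lit 8) (.e (nat_lit 557094) (nat_lit 12) (.e (nat_lit 164022) (nat_lit 46) (.e (nat_lit 704629) (nat_lit 9) (.e (nat_lit 386) (nat_lit 32) (.e (nat_lit 433920) (nat_lit 3) .nil))))))) (.g (nat_lit 1) (.e (nat_lit 231453) (nat_lit 0) .nil) .nil))) 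
(.lf (nat_lit 525147) (.g (nat_lit 3138) (.e (nat_lit 204880) (nat_lit 32) (.e (nat_lit 385068) (nat_lit 26) (.e (nat_lit 532499) (nat_lit 1) (.e (nat_lit 57847) (nat_lit 252) (.e (nat_lit 57345) (nat_lit 0) .nil))))) (.g (nat_lit 0) (.e (nat_lit 232325) (nat_lit 0) .nil) .nil))))) (.nd (nat_lit 8) (.nd (nat_lit 9) 
(.lf (nat_lit 524507) (.g (nat_lit 1515) (.e (nat_lit 204869) (nat_lit 29) (.e (nat_lit 360474) (nat_lit 8) (.e (nat_lit 557091) (nat_lit 12) (.e (nat_lit 163847) (nat_lit 0) .nil)))) (.g (nat_lit 0) (.e (nat_lit 231305) (nat_lit 0) .nil) .nil))) 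
(.lf (nat_lit 525019) (.g (nat_lit 702) (.e (nat_lit 204877) (nat_lit 31) (.e (nat_lit 376865) (nat_lit 22) (.e (nat_lit 90133) (nat_lit 9) .nil))) (.g (nat_lit 0) (.e (nat_lit 232105) (nat_lit 0) .nil) .nil)))) (.nd (nat_lit 9) 
(.lf (nat_lit 524763) (.g (nat_lit 5795) (.e (nat_lit 204869) (nat_lit 29) (.e (nat_lit 360475) (nat_lit 8) (.e (nat_lit 557091) (nat_lit 12) (.e (nat_lit 163850) (nat_lit 0) (.e (nat_lit 6425) (nat_lit 342) (.e (nat_lit 229401) (nat_lit 12) (.e (nat_lit 426135) (nat_lit 3) .nil))))))) (.g (nat_lit 1) (.e (nat_lit 231647) (nat_lit 0) .nil) .nil))) 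
(.lf (nat_lit 525275) (.g (nat_lit 2511) (.e (nat_lit 204882) (nat_lit 32) (.e (nat_lit 385066) (nat_lit 26) (.e (nat_lit 532530) (nat_lit 9) (.e (nat_lit 336326) (nat_lit 18) (.e (nat_lit 212736) (nat_lit 26) (.e (nat_lit 336323) (nat_lit 18) .nil)))))) (.g (nat_lit 1) (.e (nat_lit 232677) (nat_lit 0) .nil) .nil))))))) (.nd (nat_lit 6) (.nd (nat_lit 7) (.nd (nat_lit 8) (.nd (nat_lit 9) 
(.lf (nat_lit 524347) (.g (nat_lit 2486) (.e (nat_lit 204868) (nat_lit 29) (.e (nat_lit 360475) (nat_lit 8) (.e (nat_lit 557091) (nat_lit 12) (.e (nat_lit 163849) (nat_lit 0) (.e (nat_lit 6421) (nat_lit 341) .nil))))) (.g (nat_lit 0) (.e (nat_lit 231006) (nat_lit 0) .nil) .nil))) 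
(.lf (nat_lit 524859) (.g (nat_lit 589) (.e (nat_lit 204873) (nat_lit 30) (.e (nat_lit 368676) (nat_lit 21) (.e (nat_lit 516117) (nat_lit 1) .nil))) (.g (nat_lit 0) (.e (nat_lit 231830) (nat_lit 0) .nil) .nil)))) (.nd (nat_lit 9) 
(.lf (nat_lit 524603) (.g (nat_lit 3843) (.e (nat_lit 204869) (nat_lit 29) (.e (nat_lit 360474) (nat_lit 8) (.e (nat_lit 557093) (nat_lit 12) (.e (nat_lit 164022) (nat_lit 46) (.e (nat_lit 704628) (nat_lit 9) (.e (nat_lit 398) (nat_lit 32) (.e (nat_lit 426137) (nat_lit 3) .nil))))))) (.g (nat_lit 1) (.e (nat_lit 231420) (nat_lit 0) .nil) .nil))) 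
(.lf (nat_lit 525115) (.g (nat_lit 3011) (.e (nat_lit 204880) (nat_lit 32) (.e (nat_lit 385066) (nat_lit 26) (.e (nat_lit 532534) (nat_lit 9) (.e (nat_lit 336324) (nat_lit 18) (.e (nat_lit 204854) (nat_lit 26) (.e (nat_lit 336322) (nat_lit 18) .nil)))))) (.g (nat_lit 1) (.e (nat_lit 232281) (nat_lit 0) .nil) .nil))))) (.nd (nat_lit 8) (.nd (nat_lit 9) 
(.lf (nat_lit 524475) (.g (nat_lit 1534) (.e (nat_lit 204869) (nat_lit 29) (.e (nat_lit 360474) (nat_lit 8) (.e (nat_lit 557091) (nat_lit 12) (.e (nat_lit 163841) (nat_lit 0) .nil)))) (.g (nat_lit 0) (.e (nat_lit 231249) (nat_lit 0) .nil) .nil))) 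
(.lf (nat_lit 524987) (.g (nat_lit 2792) (.e (nat_lit 204877) (nat_lit 31) (.e (nat_lit 376842) (nat_lit 11) (.e (nat_lit 426408) (nat_lit 15) (.e (nat_lit 6207) (nat_lit 333) (.e (nat_lit 57883) (nat_lit 270) (.e (nat_lit 174) (nat_lit 12) .nil)))))) (.g (nat_lit 1) (.e (nat_lit 232064) (nat_lit 0) .nil) .nil)))) (.nd (nat_lit 9) 
(.lf (nat_lit 524731) (.g (nat_lit 4493) (.e (nat_lit 204869) (nat_lit 29) (.e (nat_lit 360475) (nat_lit 8) (.e (nat_lit 557090) (nat_lit 12) (.e (nat_lit 163844) (nat_lit 0) (.e (nat_lit 6254) (nat_lit 337) (.e (nat_lit 2725) (nat_lit 172) (.e (nat_lit 237592) (nat_lit 3) .nil))))))) (.g (nat_lit 1) (.e (nat_lit 231597) (nat_lit 0) .nil) .nil))) 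
(.lf (nat_lit 525243) (.g (nat_lit 2610) (.e (nat_lit 204881) (nat_lit 32) (.e (nat_lit 385107) (nat_lit 51) (.e (nat_lit 794669) (nat_lit 22) (.e (nat_lit 196656) (nat_lit 11) (.e (nat_lit 16436) (nat_lit 9) (.e (nat_lit 426131) (nat_lit 3) .nil)))))) (.g (nat_lit 1) (.e (nat_lit 232579) (nat_lit 0) .nil) .nil)))))) (.nd (nat_lit 7) (.nd (nat_lit 8) (.nd (nat_lit 9) 
(.lf (nat_lit 524411) (.g (nat_lit 1316) (.e (nat_lit 204869) (nat_lit 29) (.e (nat_lit 360473) (nat_lit 8) (.e (nat_lit 557091) (nat_lit 12) (.e (nat_lit 164018) (nat_lit 45) .nil)))) (.g (nat_lit 0) (.e (nat_lit 231166) (nat_lit 0) .nil) .nil))) 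
(.lf (nat_lit 524923) (.g (nat_lit 1434) (.e (nat_lit 204876) (nat_lit 31) (.e (nat_lit 376842) (nat_lit 11) (.e (nat_lit 426406) (nat_lit 15) (.e (nat_lit 6207) (nat_lit 333) (.e (nat_lit 57878) (nat_lit 270) (.e (nat_lit 174) (nat_lit 12) .nil)))))) (.g (nat_lit 1) (.e (nat_lit 231952) (nat_lit 0) .nil) .nil)))) (.nd (nat_lit 9) 
(.lf (nat_lit 524667) (.g (nat_lit 1308) (.e (nat_lit 204869) (nat_lit 29) (.e (nat_lit 360475) (nat_lit 8) (.e (nat_lit 557083) (nat_lit 10) (.e (nat_lit 8533) (nat_lit 225) .nil)))) (.g (nat_lit 0) (.e (nat_lit 231499) (nat_lit 0) .nil) .nil))) 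
(.lf (nat_lit 525179) (.g (nat_lit 1553) (.e (nat_lit 204880) (nat_lit 32) (.e (nat_lit 385068) (nat_lit 26) (.e (nat_lit 532534) (nat_lit 9) (.e (nat_lit 336316) (nat_lit 17) .nil)))) (.g (nat_lit 0) (.e (nat_lit 232374) (nat_lit 0) .nil) .nil))))) (.nd (nat_lit 8) (.nd (nat_lit 9) 
(.lf (nat_lit 524539) (.g (nat_lit 1816) (.e (nat_lit 204869) (nat_lit 29) (.e (nat_lit 360474) (nat_lit 8) (.e (nat_lit 557091) (nat_lit 12) (.e (nat_lit 164018) (nat_lit 45) .nil)))) (.g (nat_lit 0) (.e (nat_lit 231349) (nat_lit 0) .nil) .nil))) 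
(.lf (nat_lit 525051) (.g (nat_lit 1379) (.e (nat_lit 204878) (nat_lit 31) (.e (nat_lit 376869) (nat_lit 23) (.e (nat_lit 98350) (nat_lit 24) (.e (nat_lit 409623) (nat_lit 10) .nil)))) (.g (nat_lit 0) (.e (nat_lit 232167) (nat_lit 0) .nil) .nil)))) (.nd (nat_lit 9) 
(.lf (nat_lit 524795) (.g (nat_lit 2018) (.e (nat_lit 204870) (nat_lit 29) (.e (nat_lit 360463) (nat_lit 1) (.e (nat_lit 499846) (nat_lit 5) (.e (nat_lit 2829) (nat_lit 182) (.e (nat_lit 409644) (nat_lit 18) (.e (nat_lit 303119) (nat_lit 3) .nil)))))) (.g (nat_lit 1) (.e (nat_lit 231687) (nat_lit 0) .nil) .nil))) 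
(.lf (nat_lit 525307) (.g (nat_lit 3334) (.e (nat_lit 204882) (nat_lit 32) (.e (nat_lit 385066) (nat_lit 26) (.e (nat_lit 532565) (nat_lit 15) (.e (nat_lit 385068) (nat_lit 26) (.e (nat_lit 532530) (nat_lit 9) (.e (nat_lit 336324) (nat_lit 18) .nil)))))) (.g (nat_lit 1) (.e (nat_lit 232714) (nat_lit 0) .nil) .nil)))))))))) 
(.nd (nat_lit 3) (.nd (nat_lit 4) (.nd (nat_lit 5) (.nd (nat_lit 6) (.nd (nat_lit 7) 
(.nd (nat_lit 8) (.nd (nat_lit 9) 
(.lf (nat_lit 524295) (.g (nat_lit 933) (.e (nat_lit 204868) (nat_lit 29) (.e (nat_lit 360475) (nat_lit 8) (.e (nat_lit 557073) (nat_lit 9) .nil))) (.g (nat_lit 0) (.e (nat_lit 230947) (nat_lit 0) .nil) .nil))) 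
(.lf (nat_lit 524807) (.g (nat_lit 2661) (.e (nat_lit 204870) (nat_lit 29) (.e (nat_lit 360467) (nat_lit 3) (.e (nat_lit 516139) (nat_lit 7) (.e (nat_lit 409647) (nat_lit 18) (.e (nat_lit 303118) (nat_lit 3) .nil))))) (.g (nat_lit 1) (.e (nat_lit 231703) (nat_lit 0) .nil) .nil)))) (.nd (nat_lit 9) 
(.lf (nat_lit 524551) (.g (nat_lit 3246) (.e (nat_lit 204869) (nat_lit 29) (.e (nat_lit 360474) (nat_lit 8) (.e (nat_lit 557091) (nat_lit 12) (.e (nat_lit 164020) (nat_lit 45) (.e (nat_lit 696328) (nat_lit 5) (.e (nat_lit 2886) (nat_lit 184) (.e (nat_lit 426136) (nat_lit 3) .nil))))))) (.g (nat_lit 1) (.e (nat_lit 231363) (nat_lit 0) .nil) .nil))) 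
(.lf (nat_lit 525063) (.g (nat_lit 3664) (.e (nat_lit 204879) (nat_lit 32) (.e (nat_lit 385068) (nat_lit 26) (.e (nat_lit 532501) (nat_lit 1) (.e (nat_lit 57852) (nat_lit 252) (.e (nat_lit 57376) (nat_lit 3) .nil))))) (.g (nat_lit 0) (.e (nat_lit 232180) (nat_lit 0) .nil) .nil))))) (.nd (nat_lit 8) (.nd (nat_lit 9) 
(.lf (nat_lit 524423) (.g (nat_lit 176) (.e (nat_lit 204869) (nat_lit 29) (.e (nat_lit 360474) (nat_lit 8) (.e (nat_lit 557068) (nat_lit 9) .nil))) (.g (nat_lit 0) (.e (nat_lit 231185) (nat_lit 0) .nil) .nil))) 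
(.lf (nat_lit 524935) (.g (nat_lit 3574) (.e (nat_lit 204876) (nat_lit 31) (.e (nat_lit 376842) (nat_lit 11) (.e (nat_lit 426497) (nat_lit 27) (.e (nat_lit 335988) (nat_lit 1) (.e (nat_lit 57926) (nat_lit 282) (.e (nat_lit 163874) (nat_lit 3) .nil)))))) (.g (nat_lit 1) (.e (nat_lit 231969) (nat_lit 0) .nil) .nil)))) (.nd (nat_lit 9) 
(.lf (nat_lit 524679) (.g (nat_lit 4837) (.e (nat_lit 204869) (nat_lit 29) (.e (nat_lit 360475) (nat_lit 8) (.e (nat_lit 557086) (nat_lit 11) (.e (nat_lit 24662) (nat_lit 14) (.e (nat_lit 401428) (nat_lit 3) .nil))))) (.g (nat_lit 1) (.e (nat_lit 231512) (nat_lit 0) .nil) .nil))) 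
(.lf (nat_lit 525191) (.g (nat_lit 2571) (.e (nat_lit 204880) (nat_lit 32) (.e (nat_lit 385068) (nat_lit 26) (.e (nat_lit 532566) (nat_lit 15) (.e (nat_lit 385066) (nat_lit 26) (.e (nat_lit 532532) (nat_lit 9) (.e (nat_lit 336324) (nat_lit 18) .nil)))))) (.g (nat_lit 1) (.e (nat_lit 232388) (nat_lit 0) .nil) .nil)))))) (.nd (nat_lit 7) (.nd (nat_lit 8) (.nd (nat_lit 9) 
(.lf (nat_lit 524359) (.g (nat_lit 512) (.e (nat_lit 204869) (nat_lit 29) (.e (nat_lit 360466) (nat_lit 3) (.e (nat_lit 516120) (nat_lit 1) .nil))) (.g (nat_lit 0) (.e (nat_lit 231066) (nat_lit 0) .nil) .nil))) 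
(.lf (nat_lit 524871) (.g (nat_lit 921) (.e (nat_lit 204873) (nat_lit 30) (.e (nat_lit 368676) (nat_lit 21) (.e (nat_lit 516131) (nat_lit 3) (.e (nat_lit 221215) (nat_lit 23) .nil)))) (.g (nat_lit 0) (.e (nat_lit 231868) (nat_lit 0) .nil) .nil)))) (.nd (nat_lit 9) 
(.lf (nat_lit 524615) (.g (nat_lit 3699) (.e (nat_lit 204869) (nat_lit 29) (.e (nat_lit 360474) (nat_lit 8) (.e (nat_lit 557093) (nat_lit 12) (.e (nat_lit 164023) (nat_lit 46) (.e (nat_lit 704629) (nat_lit 9) (.e (nat_lit 375) (nat_lit 32) (.e (nat_lit 426140) (nat_lit 3) .nil))))))) (.g (nat_lit 1) (.e (nat_lit 231433) (nat_lit 0) .nil) .nil))) 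
(.lf (nat_lit 525127) (.g (nat_lit 2123) (.e (nat_lit 204880) (nat_lit 32) (.e (nat_lit 385066) (nat_lit 26) (.e (nat_lit 532563) (nat_lit 15) (.e (nat_lit 385066) (nat_lit 26) (.e (nat_lit 532533) (nat_lit 9) (.e (nat_lit 336324) (nat_lit 18) .nil)))))) (.g (nat_lit 1) (.e (nat_lit 232304) (nat_lit 0) .nil) .nil))))) (.nd (nat_lit 8) (.nd (nat_lit 9) 
(.lf (nat_lit 524487) (.g (nat_lit 3187) (.e (nat_lit 204869) (nat_lit 29) (.e (nat_lit 360474) (nat_lit 8) (.e (nat_lit 557091) (nat_lit 12) (.e (nat_lit 163843) (nat_lit 0) (.e (nat_lit 6250) (nat_lit 337) (.e (nat_lit 2725) (nat_lit 172) (.e (nat_lit 237594) (nat_lit 3) .nil))))))) (.g (nat_lit 1) (.e (nat_lit 231277) (nat_lit 0) .nil) .nil))) 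
(.lf (nat_lit 524999) (.g (nat_lit 416) (.e (nat_lit 204877) (nat_lit 31) (.e (nat_lit 376842) (nat_lit 11) (.e (nat_lit 426500) (nat_lit 27) .nil))) (.g (nat_lit 0) (.e (nat_lit 232077) (nat_lit 0) .nil) .nil)))) (.nd (nat_lit 9) 
(.lf (nat_lit 524743) (.g (nat_lit 4327) (.e (nat_lit 204869) (nat_lit 29) (.e (nat_lit 360475) (nat_lit 8) (.e (nat_lit 557091) (nat_lit 12) (.e (nat_lit 163843) (nat_lit 0) (.e (nat_lit 6250) (nat_lit 337) (.e (nat_lit 2725) (nat_lit 172) (.e (nat_lit 237593) (nat_lit 3) .nil))))))) (.g (nat_lit 1) (.e (nat_lit 231624) (nat_lit 0) .nil) .nil))) 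
(.lf (nat_lit 525255) (.g (nat_lit 3615) (.e (nat_lit 204882) (nat_lit 32) (.e (nat_lit 385065) (nat_lit 26) (.e (nat_lit 532563) (nat_lit 15) (.e (nat_lit 385066) (nat_lit 26) (.e (nat_lit 532534) (nat_lit 9) (.e (nat_lit 336324) (nat_lit 18) .nil)))))) (.g (nat_lit 1) (.e (nat_lit 232654) (nat_lit 0) .nil) .nil))))))) (.nd (nat_lit 6) (.nd (nat_lit 7) (.nd (nat_lit 8) (.nd (nat_lit 9) 
(.lf (nat_lit 524327) (.g (nat_lit 1686) (.e (nat_lit 204868) (nat_lit 29) (.e (nat_lit 360475) (nat_lit 8) (.e (nat_lit 557089) (nat_lit 12) (.e (nat_lit 171776) (nat_lit 46) .nil)))) (.g (nat_lit 0) (.e (nat_lit 230984) (nat_lit 0) .nil) .nil))) 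
(.lf (nat_lit 524839) (.g (nat_lit 1390) (.e (nat_lit 204872) (nat_lit 30) (.e (nat_lit 368676) (nat_lit 21) (.e (nat_lit 516118) (nat_lit 1) (.e (nat_lit 164183) (nat_lit 154) .nil)))) (.g (nat_lit 0) (.e (nat_lit 231773) (nat_lit 0) .nil) .nil)))) (.nd (nat_lit 9) 
(.lf (nat_lit 524583) (.g (nat_lit 3732) (.e (nat_lit 204869) (nat_lit 29) (.e (nat_lit 360474) (nat_lit 8) (.e (nat_lit 557091) (nat_lit 12) (.e (nat_lit 164022) (nat_lit 46) (.e (nat_lit 704628) (nat_lit 9) (.e (nat_lit 398) (nat_lit 32) (.e (nat_lit 426137) (nat_lit 3) .nil))))))) (.g (nat_lit 1) (.e (nat_lit 231398) (nat_lit 0) .nil) .nil))) 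
(.lf (nat_lit 525095) (.g (nat_lit 2326) (.e (nat_lit 204880) (nat_lit 32) (.e (nat_lit 385066) (nat_lit 26) (.e (nat_lit 532530) (nat_lit 9) (.e (nat_lit 336316) (nat_lit 17) (.e (nat_lit 196681) (nat_lit 17) (.e (nat_lit 139008) (nat_lit 18) .nil)))))) (.g (nat_lit 1) (.e (nat_lit 232235) (nat_lit 0) .nil) .nil))))) (.nd (nat_lit 8) (.nd (nat_lit 9) 
(.lf (nat_lit 524455) (.g (nat_lit 3588) (.e (nat_lit 204869) (nat_lit 29) (.e (nat_lit 360474) (nat_lit 8) (.e (nat_lit 557089) (nat_lit 12) (.e (nat_lit 163844) (nat_lit 0) (.e (nat_lit 6420) (nat_lit 341) (.e (nat_lit 163850) (nat_lit 0) (.e (nat_lit 7936) (nat_lit 388) (.e (nat_lit 2684) (nat_lit 168) .nil)))))))) (.g (nat_lit 1) (.e (nat_lit 231228) (nat_lit 0) .nil) .nil))) 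
(.lf (nat_lit 524967) (.g (nat_lit 635) (.e (nat_lit 204877) (nat_lit 31) (.e (nat_lit 376842) (nat_lit 11) (.e (nat_lit 426014) (nat_lit 0) .nil))) (.g (nat_lit 0) (.e (nat_lit 232038) (nat_lit 0) .nil) .nil)))) (.nd (nat_lit 9) 
(.lf (nat_lit 524711) (.g (nat_lit 4533) (.e (nat_lit 204869) (nat_lit 29) (.e (nat_lit 360475) (nat_lit 8) (.e (nat_lit 557089) (nat_lit 12) (.e (nat_lit 163849) (nat_lit 0) (.e (nat_lit 6255) (nat_lit 337) (.e (nat_lit 2725) (nat_lit 172) (.e (nat_lit 237594) (nat_lit 3) .nil))))))) (.g (nat_lit 1) (.e (nat_lit 231545) (nat_lit 0) .nil) .nil))) 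
(.lf (nat_lit 525223) (.g (nat_lit 2808) (.e (nat_lit 204881) (nat_lit 32) (.e (nat_lit 385066) (nat_lit 26) (.e (nat_lit 532566) (nat_lit 15) (.e (nat_lit 385066) (nat_lit 26) (.e (nat_lit 532530) (nat_lit 9) (.e (nat_lit 336324) (nat_lit 18) .nil)))))) (.g (nat_lit 1) (.e (nat_lit 232532) (nat_lit 0) .nil) .nil)))))) (.nd (nat_lit 7) (.nd (nat_lit 8) (.nd (nat_lit 9) 
(.lf (nat_lit 524391) (.g (nat_lit 512) (.e (nat_lit 204869) (nat_lit 29) (.e (nat_lit 360473) (nat_lit 8) (.e (nat_lit 557072) (nat_lit 9) .nil))) (.g (nat_lit 0) (.e (nat_lit 231146) (nat_lit 0) .nil) .nil))) 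
(.lf (nat_lit 524903) (.g (nat_lit 598) (.e (nat_lit 204876) (nat_lit 31) (.e (nat_lit 376842) (nat_lit 11) (.e (nat_lit 426014) (nat_lit 0) .nil))) (.g (nat_lit 0) (.e (nat_lit 231929) (nat_lit 0) .nil) .nil)))) (.nd (nat_lit 9) 
(.lf (nat_lit 524647) (.g (nat_lit 4779) (.e (nat_lit 204869) (nat_lit 29) (.e (nat_lit 360475) (nat_lit 8) (.e (nat_lit 557067) (nat_lit 9) (.e (nat_lit 214) (nat_lit 19) (.e (nat_lit 319492) (nat_lit 0) (.e (nat_lit 5626) (nat_lit 312) (.e (nat_lit 2685) (nat_lit 168) .nil))))))) (.g (nat_lit 1) (.e (nat_lit 231475) (nat_lit 0) .nil) .nil))) 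
(.lf (nat_lit 525159) (.g (nat_lit 1155) (.e (nat_lit 204880) (nat_lit 32) (.e (nat_lit 385068) (nat_lit 26) (.e (nat_lit 532503) (nat_lit 1) (.e (nat_lit 57847) (nat_lit 252) .nil)))) (.g (nat_lit 0) (.e (nat_lit 232344) (nat_lit 0) .nil) .nil))))) (.nd (nat_lit 8) (.nd (nat_lit 9) 
(.lf (nat_lit 524519) (.g (nat_lit 3165) (.e (nat_lit 204869) (nat_lit 29) (.e (nat_lit 360474) (nat_lit 8) (.e (nat_lit 557091) (nat_lit 12) (.e (nat_lit 163850) (nat_lit 0) (.e (nat_lit 6272) (nat_lit 337) (.e (nat_lit 2722) (nat_lit 172) (.e (nat_lit 237593) (nat_lit 3) .nil))))))) (.g (nat_lit 1) (.e (nat_lit 231317) (nat_lit 0) .nil) .nil))) 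
(.lf (nat_lit 525031) (.g (nat_lit 1638) (.e (nat_lit 204877) (nat_lit 31) (.e (nat_lit 376865) (nat_lit 22) (.e (nat_lit 90174) (nat_lit 14) (.e (nat_lit 180258) (nat_lit 16) .nil)))) (.g (nat_lit 0) (.e (nat_lit 232125) (nat_lit 0) .nil) .nil)))) (.nd (nat_lit 9) 
(.lf (nat_lit 524775) (.g (nat_lit 3423) (.e (nat_lit 204869) (nat_lit 29) (.e (nat_lit 360475) (nat_lit 8) (.e (nat_lit 557091) (nat_lit 12) (.e (nat_lit 164022) (nat_lit 46) (.e (nat_lit 704626) (nat_lit 9) (.e (nat_lit 398) (nat_lit 32) (.e (nat_lit 426137) (nat_lit 3) .nil))))))) (.g (nat_lit 1) (.e (nat_lit 231661) (nat_lit 0) .nil) .nil))) 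
(.lf (nat_lit 525287) (.g (nat_lit 1784) (.e (nat_lit 204882) (nat_lit 32) (.e (nat_lit 385066) (nat_lit 26) (.e (nat_lit 532534) (nat_lit 9) (.e (nat_lit 336316) (nat_lit 17) (.e (nat_lit 196662) (nat_lit 13) .nil))))) (.g (nat_lit 0) (.e (nat_lit 232690) (nat_lit 0) .nil) .nil)))))))) (.nd (nat_lit 5) (.nd (nat_lit 6) (.nd (nat_lit 7) (.nd (nat_lit 8) (.nd (nat_lit 9) 
(.lf (nat_lit 524311) (.g (nat_lit 3624) (.e (nat_lit 204868) (nat_lit 29) (.e (nat_lit 360475) (nat_lit 8) (.e (nat_lit 557087) (nat_lit 11) (.e (nat_lit 24661) (nat_lit 14) (.e (nat_lit 401426) (nat_lit 3) .nil))))) (.g (nat_lit 0) (.e (nat_lit 230968) (nat_lit 0) .nil) .nil))) 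
(.lf (nat_lit 524823) (.g (nat_lit 2492) (.e (nat_lit 212736) (nat_lit 29) (.e (nat_lit 360467) (nat_lit 3) (.e (nat_lit 516139) (nat_lit 7) (.e (nat_lit 409647) (nat_lit 18) (.e (nat_lit 303118) (nat_lit 3) .nil))))) (.g (nat_lit 0) (.e (nat_lit 231727) (nat_lit 0) .nil) .nil)))) (.nd (nat_lit 9) 
(.lf (nat_lit 524567) (.g (nat_lit 5023) (.e (nat_lit 204869) (nat_lit 29) (.e (nat_lit 360474) (nat_lit 8) (.e (nat_lit 557091) (nat_lit 12) (.e (nat_lit 164020) (nat_lit 45) (.e (nat_lit 696330) (nat_lit 5) (.e (nat_lit 2894) (nat_lit 184) (.e (nat_lit 426135) (nat_lit 3) .nil))))))) (.g (nat_lit 1) (.e (nat_lit 231379) (nat_lit 0) .nil) .nil))) 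
(.lf (nat_lit 525079) (.g (nat_lit 1683) (.e (nat_lit 204880) (nat_lit 32) (.e (nat_lit 385065) (nat_lit 26) (.e (nat_lit 532530) (nat_lit 9) (.e (nat_lit 336326) (nat_lit 18) (.e (nat_lit 204854) (nat_lit 26) .nil))))) (.g (nat_lit 0) (.e (nat_lit 232202) (nat_lit 0) .nil) .nil))))) (.nd (nat_lit 8) (.nd (nat_lit 9) 
(.lf (nat_lit 524439) (.g (nat_lit 4488) (.e (nat_lit 204869) (nat_lit 29) (.e (nat_lit 360474) (nat_lit 8) (.e (nat_lit 557085) (nat_lit 11) (.e (nat_lit 24665) (nat_lit 14) (.e (nat_lit 409344) (nat_lit 3) .nil))))) (.g (nat_lit 1) (.e (nat_lit 231210) (nat_lit 0) .nil) .nil))) 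
(.lf (nat_lit 524951) (.g (nat_lit 1968) (.e (nat_lit 204876) (nat_lit 31) (.e (nat_lit 376869) (nat_lit 23) (.e (nat_lit 98350) (nat_lit 24) (.e (nat_lit 409623) (nat_lit 10) (.e (nat_lit 5664) (nat_lit 312) .nil))))) (.g (nat_lit 0) (.e (nat_lit 231997) (nat_lit 0) .nil) .nil)))) (.nd (nat_lit 9) 
(.lf (nat_lit 524695) (.g (nat_lit 4586) (.e (nat_lit 204869) (nat_lit 29) (.e (nat_lit 360475) (nat_lit 8) (.e (nat_lit 557087) (nat_lit 11) (.e (nat_lit 24662) (nat_lit 14) (.e (nat_lit 401428) (nat_lit 3) .nil))))) (.g (nat_lit 1) (.e (nat_lit 231528) (nat_lit 0) .nil) .nil))) 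
(.lf (nat_lit 525207) (.g (nat_lit 3362) (.e (nat_lit 204881) (nat_lit 32) (.e (nat_lit 385066) (nat_lit 26) (.e (nat_lit 532530) (nat_lit 9) (.e (nat_lit 336326) (nat_lit 18) (.e (nat_lit 204854) (nat_lit 26) (.e (nat_lit 336324) (nat_lit 18) .nil)))))) (.g (nat_lit 1) (.e (nat_lit 232511) (nat_lit 0) .nil) .nil)))))) (.nd (nat_lit 7) (.nd (nat_lit 8) (.nd (nat_lit 9) 
(.lf (nat_lit 524375) (.g (nat_lit 451) (.e (nat_lit 204869) (nat_lit 29) (.e (nat_lit 360477) (nat_lit 11) (.e (nat_lit 581659) (nat_lit 9) .nil))) (.g (nat_lit 0) (.e (nat_lit 231130) (nat_lit 0) .nil) .nil))) 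
(.lf (nat_lit 524887) (.g (nat_lit 1373) (.e (nat_lit 204875) (nat_lit 31) (.e (nat_lit 376862) (nat_lit 22) (.e (nat_lit 90185) (nat_lit 17) (.e (nat_lit 237585) (nat_lit 1) (.e (nat_lit 164401) (nat_lit 256) .nil))))) (.g (nat_lit 0) (.e (nat_lit 231896) (nat_lit 0) .nil) .nil)))) (.nd (nat_lit 9) 
(.lf (nat_lit 524631) (.g (nat_lit 3448) (.e (nat_lit 204869) (nat_lit 29) (.e (nat_lit 360474) (nat_lit 8) (.e (nat_lit 557094) (nat_lit 12) (.e (nat_lit 164022) (nat_lit 46) (.e (nat_lit 704628) (nat_lit 9) (.e (nat_lit 399) (nat_lit 32) (.e (nat_lit 426137) (nat_lit 3) .nil))))))) (.g (nat_lit 1) (.e (nat_lit 231449) (nat_lit 0) .nil) .nil))) 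
(.lf (nat_lit 525143) (.g (nat_lit 1822) (.e (nat_lit 204880) (nat_lit 32) (.e (nat_lit 385066) (nat_lit 26) (.e (nat_lit 532566) (nat_lit 15) (.e (nat_lit 385066) (nat_lit 26) (.e (nat_lit 532532) (nat_lit 9) (.e (nat_lit 336322) (nat_lit 18) .nil)))))) (.g (nat_lit 1) (.e (nat_lit 232321) (nat_lit 0) .nil) .nil))))) (.nd (nat_lit 8) (.nd (nat_lit 9) 
(.lf (nat_lit 524503) (.g (nat_lit 4292) (.e (nat_lit 204869) (nat_lit 29) (.e (nat_lit 360474) (nat_lit 8) (.e (nat_lit 557091) (nat_lit 12) (.e (nat_lit 163844) (nat_lit 0) (.e (nat_lit 6255) (nat_lit 337) (.e (nat_lit 2725) (nat_lit 172) (.e (nat_lit 237593) (nat_lit 3) .nil))))))) (.g (nat_lit 1) (.e (nat_lit 231301) (nat_lit 0) .nil) .nil))) 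
(.lf (nat_lit 525015) (.g (nat_lit 705) (.e (nat_lit 204877) (nat_lit 31) (.e (nat_lit 376865) (nat_lit 22) (.e (nat_lit 90123) (nat_lit 9) .nil))) (.g (nat_lit 0) (.e (nat_lit 232100) (nat_lit 0) .nil) .nil)))) (.nd (nat_lit 9) 
(.lf (nat_lit 524759) (.g (nat_lit 5203) (.e (nat_lit 204869) (nat_lit 29) (.e (nat_lit 360475) (nat_lit 8) (.e (nat_lit 557091) (nat_lit 12) (.e (nat_lit 163844) (nat_lit 0) (.e (nat_lit 6420) (nat_lit 341) (.e (nat_lit 163850) (nat_lit 0) (.e (nat_lit 7936) (nat_lit 388) (.e (nat_lit 2684) (nat_lit 168) .nil)))))))) (.g (nat_lit 1) (.e (nat_lit 231642) (nat_lit 0) .nil) .nil))) 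
(.lf (nat_lit 525271) (.g (nat_lit 1307) (.e (nat_lit 204882) (nat_lit 32) (.e (nat_lit 385066) (nat_lit 26) (.e (nat_lit 532530) (nat_lit 9) (.e (nat_lit 336326) (nat_lit 18) .nil)))) (.g (nat_lit 0) (.e (nat_lit 232673) (nat_lit 0) .nil) .nil))))))) (.nd (nat_lit 6) (.nd (nat_lit 7) (.nd (nat_lit 8) (.nd (nat_lit 9) 
(.lf (nat_lit 524343) (.g (nat_lit 2829) (.e (nat_lit 204868) (nat_lit 29) (.e (nat_lit 360475) (nat_lit 8) (.e (nat_lit 557091) (nat_lit 12) (.e (nat_lit 163843) (nat_lit 0) (.e (nat_lit 6420) (nat_lit 341) .nil))))) (.g (nat_lit 0) (.e (nat_lit 231002) (nat_lit 0) .nil) .nil))) 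
(.lf (nat_lit 524855) (.g (nat_lit 1126) (.e (nat_lit 204873) (nat_lit 30) (.e (nat_lit 368676) (nat_lit 21) (.e (nat_lit 516097) (nat_lit 0) .nil))) (.g (nat_lit 0) (.e (nat_lit 231811) (nat_lit 0) .nil) .nil)))) (.nd (nat_lit 9) 
(.lf (nat_lit 524599) (.g (nat_lit 3034) (.e (nat_lit 204869) (nat_lit 29) (.e (nat_lit 360474) (nat_lit 8) (.e (nat_lit 557093) (nat_lit 12) (.e (nat_lit 164022) (nat_lit 46) (.e (nat_lit 704628) (nat_lit 9) (.e (nat_lit 370) (nat_lit 32) (.e (nat_lit 426136) (nat_lit 3) .nil))))))) (.g (nat_lit 1) (.e (nat_lit 231416) (nat_lit 0) .nil) .nil))) 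
(.lf (nat_lit 525111) (.g (nat_lit 2860) (.e (nat_lit 204880) (nat_lit 32) (.e (nat_lit 385066) (nat_lit 26) (.e (nat_lit 532533) (nat_lit 9) (.e (nat_lit 336324) (nat_lit 18) (.e (nat_lit 204854) (nat_lit 26) (.e (nat_lit 336326) (nat_lit 18) .nil)))))) (.g (nat_lit 1) (.e (nat_lit 232254) (nat_lit 0) .nil) .nil))))) (.nd (nat_lit 8) (.nd (nat_lit 9) 
(.lf (nat_lit 524471) (.g (nat_lit 1919) (.e (nat_lit 204869) (nat_lit 29) (.e (nat_lit 360474) (nat_lit 8) (.e (nat_lit 557091) (nat_lit 12) (.e (nat_lit 163840) (nat_lit 0) .nil)))) (.g (nat_lit 0) (.e (nat_lit 231245) (nat_lit 0) .nil) .nil))) 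
(.lf (nat_lit 524983) (.g (nat_lit 1531) (.e (nat_lit 204877) (nat_lit 31) (.e (nat_lit 376842) (nat_lit 11) (.e (nat_lit 426406) (nat_lit 15) (.e (nat_lit 6207) (nat_lit 333) (.e (nat_lit 57878) (nat_lit 270) (.e (nat_lit 174) (nat_lit 12) .nil)))))) (.g (nat_lit 1) (.e (nat_lit 232058) (nat_lit 0) .nil) .nil)))) (.nd (nat_lit 9) 
(.lf (nat_lit 524727) (.g (nat_lit 5159) (.e (nat_lit 204869) (nat_lit 29) (.e (nat_lit 360475) (nat_lit 8) (.e (nat_lit 557090) (nat_lit 12) (.e (nat_lit 163843) (nat_lit 0) (.e (nat_lit 6255) (nat_lit 337) (.e (nat_lit 2725) (nat_lit 172) (.e (nat_lit 237593) (nat_lit 3) .nil))))))) (.g (nat_lit 1) (.e (nat_lit 231582) (nat_lit 0) .nil) .nil))) 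
(.lf (nat_lit 525239) (.g (nat_lit 2558) (.e (nat_lit 204881) (nat_lit 32) (.e (nat_lit 385107) (nat_lit 51) (.e (nat_lit 794665) (nat_lit 22) (.e (nat_lit 196656) (nat_lit 11) (.e (nat_lit 16436) (nat_lit 9) (.e (nat_lit 426131) (nat_lit 3) .nil)))))) (.g (nat_lit 1) (.e (nat_lit 232556) (nat_lit 0) .nil) .nil)))))) (.nd (nat_lit 7) (.nd (nat_lit 8) (.nd (nat_lit 9) 
(.lf (nat_lit 524407) (.g (nat_lit 3329) (.e (nat_lit 204869) (nat_lit 29) (.e (nat_lit 360473) (nat_lit 8) (.e (nat_lit 557090) (nat_lit 12) (.e (nat_lit 164020) (nat_lit 45) (.e (nat_lit 696343) (nat_lit 8) (.e (nat_lit 172065) (nat_lit 3) .nil)))))) (.g (nat_lit 1) (.e (nat_lit 231162) (nat_lit 0) .nil) .nil))) 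
(.lf (nat_lit 524919) (.g (nat_lit 1422) (.e (nat_lit 204876) (nat_lit 31) (.e (nat_lit 376842) (nat_lit 11) (.e (nat_lit 426107) (nat_lit 1) (.e (nat_lit 164149) (nat_lit 152) .nil)))) (.g (nat_lit 0) (.e (nat_lit 231947) (nat_lit 0) .nil) .nil)))) (.nd (nat_lit 9) 
(.lf (nat_lit 524663) (.g (nat_lit 987) (.e (nat_lit 204869) (nat_lit 29) (.e (nat_lit 360475) (nat_lit 8) (.e (nat_lit 557079) (nat_lit 9) .nil))) (.g (nat_lit 0) (.e (nat_lit 231493) (nat_lit 0) .nil) .nil))) 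
(.lf (nat_lit 525175) (.g (nat_lit 2270) (.e (nat_lit 204880) (nat_lit 32) (.e (nat_lit 385068) (nat_lit 26) (.e (nat_lit 532530) (nat_lit 9) (.e (nat_lit 336326) (nat_lit 18) (.e (nat_lit 204850) (nat_lit 26) .nil))))) (.g (nat_lit 0) (.e (nat_lit 232370) (nat_lit 0) .nil) .nil))))) (.nd (nat_lit 8) (.nd (nat_lit 9) 
(.lf (nat_lit 524535) (.g (nat_lit 3567) (.e (nat_lit 204869) (nat_lit 29) (.e (nat_lit 360474) (nat_lit 8) (.e (nat_lit 557091) (nat_lit 12) (.e (nat_lit 164017) (nat_lit 44) (.e (nat_lit 688139) (nat_lit 5) (.e (nat_lit 2852) (nat_lit 184) (.e (nat_lit 433920) (nat_lit 3) .nil))))))) (.g (nat_lit 1) (.e (nat_lit 231345) (nat_lit 0) .nil) .nil))) 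
(.lf (nat_lit 525047) (.g (nat_lit 944) (.e (nat_lit 204878) (nat_lit 31) (.e (nat_lit 376855) (nat_lit 20) (.e (nat_lit 1856) (nat_lit 124) (.e (nat_lit 557093) (nat_lit 12) .nil)))) (.g (nat_lit 0) (.e (nat_lit 232144) (nat_lit 0) .nil) .nil)))) (.nd (nat_lit 9) 
(.lf (nat_lit 524791) (.g (nat_lit 794) (.e (nat_lit 204869) (nat_lit 29) (.e (nat_lit 360475) (nat_lit 8) (.e (nat_lit 557094) (nat_lit 12) .nil))) (.g (nat_lit 0) (.e (nat_lit 231677) (nat_lit 0) .nil) .nil))) 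
(.lf (nat_lit 525303) (.g (nat_lit 3333) (.e (nat_lit 204882) (nat_lit 32) (.e (nat_lit 385066) (nat_lit 26) (.e (nat_lit 532565) (nat_lit 15) (.e (nat_lit 385065) (nat_lit 26) (.e (nat_lit 532529) (nat_lit 9) (.e (nat_lit 336324) (nat_lit 18) .nil)))))) (.g (nat_lit 1) (.e (nat_lit 232710) (nat_lit 0) .nil) .nil))))))))) 
(.nd (nat_lit 4) (.nd (nat_lit 5) (.nd (nat_lit 6) (.nd (nat_lit 7) (.nd (nat_lit 8) 
(.nd (nat_lit 9) 
(.lf (nat_lit 524303) (.g (nat_lit 3553) (.e (nat_lit 204868) (nat_lit 29) (.e (nat_lit 360475) (nat_lit 8) (.e (nat_lit 557086) (nat_lit 11) (.e (nat_lit 24665) (nat_lit 14) (.e (nat_lit 401426) (nat_lit 3) .nil))))) (.g (nat_lit 1) (.e (nat_lit 230958) (nat_lit 0) .nil) .nil))) 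
(.lf (nat_lit 524815) (.g (nat_lit 1405) (.e (nat_lit 204870) (nat_lit 29) (.e (nat_lit 360473) (nat_lit 8) (.e (nat_lit 557087) (nat_lit 11) (.e (nat_lit 24665) (nat_lit 14) .nil)))) (.g (nat_lit 0) (.e (nat_lit 231714) (nat_lit 0) .nil) .nil)))) (.nd (nat_lit 9) 
(.lf (nat_lit 524559) (.g (nat_lit 5065) (.e (nat_lit 204869) (nat_lit 29) (.e (nat_lit 360474) (nat_lit 8) (.e (nat_lit 557091) (nat_lit 12) (.e (nat_lit 164020) (nat_lit 45) (.e (nat_lit 696330) (nat_lit 5) (.e (nat_lit 2842) (nat_lit 184) (.e (nat_lit 426135) (nat_lit 3) .nil))))))) (.g (nat_lit 1) (.e (nat_lit 231371) (nat_lit 0) .nil) .nil))) 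
(.lf (nat_lit 525071) (.g (nat_lit 2498) (.e (nat_lit 204879) (nat_lit 32) (.e (nat_lit 385068) (nat_lit 26) (.e (nat_lit 532530) (nat_lit 9) (.e (nat_lit 336326) (nat_lit 18) (.e (nat_lit 204852) (nat_lit 26) .nil))))) (.g (nat_lit 0) (.e (nat_lit 232188) (nat_lit 0) .nil) .nil))))) (.nd (nat_lit 8) (.nd (nat_lit 9) 
(.lf (nat_lit 524431) (.g (nat_lit 1078) (.e (nat_lit 204869) (nat_lit 29) (.e (nat_lit 360474) (nat_lit 8) (.e (nat_lit 557076) (nat_lit 9) .nil))) (.g (nat_lit 0) (.e (nat_lit 231198) (nat_lit 0) .nil) .nil))) 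
(.lf (nat_lit 524943) (.g (nat_lit 1063) (.e (nat_lit 204876) (nat_lit 31) (.e (nat_lit 376862) (nat_lit 22) (.e (nat_lit 90185) (nat_lit 17) (.e (nat_lit 237584) (nat_lit 1) .nil)))) (.g (nat_lit 0) (.e (nat_lit 231979) (nat_lit 0) .nil) .nil)))) (.nd (nat_lit 9) 
(.lf (nat_lit 524687) (.g (nat_lit 2862) (.e (nat_lit 204869) (nat_lit 29) (.e (nat_lit 360475) (nat_lit 8) (.e (nat_lit 557087) (nat_lit 11) (.e (nat_lit 24580) (nat_lit 0) (.e (nat_lit 6696) (nat_lit 357) (.e (nat_lit 2684) (nat_lit 168) .nil)))))) (.g (nat_lit 1) (.e (nat_lit 231520) (nat_lit 0) .nil) .nil))) 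
(.lf (nat_lit 525199) (.g (nat_lit 1346) (.e (nat_lit 204881) (nat_lit 32) (.e (nat_lit 385066) (nat_lit 26) (.e (nat_lit 532530) (nat_lit 9) (.e (nat_lit 336316) (nat_lit 17) (.e (nat_lit 196664) (nat_lit 13) .nil))))) (.g (nat_lit 0) (.e (nat_lit 232503) (nat_lit 0) .nil) .nil)))))) (.nd (nat_lit 7) (.nd (nat_lit 8) (.nd (nat_lit 9) 
(.lf (nat_lit 524367) (.g (nat_lit 3445) (.e (nat_lit 204869) (nat_lit 29) (.e (nat_lit 360467) (nat_lit 3) (.e (nat_lit 516139) (nat_lit 7) (.e (nat_lit 409648) (nat_lit 18) (.e (nat_lit 311040) (nat_lit 3) .nil))))) (.g (nat_lit 1) (.e (nat_lit 231092) (nat_lit 0) .nil) .nil))) 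
(.lf (nat_lit 524879) (.g (nat_lit 2915) (.e (nat_lit 204874) (nat_lit 30) (.e (nat_lit 368676) (nat_lit 21) (.e (nat_lit 516131) (nat_lit 3) (.e (nat_lit 221215) (nat_lit 23) (.e (nat_lit 204831) (nat_lit 18) .nil))))) (.g (nat_lit 0) (.e (nat_lit 231886) (nat_lit 0) .nil) .nil)))) (.nd (nat_lit 9) 
(.lf (nat_lit 524623) (.g (nat_lit 3594) (.e (nat_lit 204869) (nat_lit 29) (.e (nat_lit 360474) (nat_lit 8) (.e (nat_lit 557094) (nat_lit 12) (.e (nat_lit 163849) (nat_lit 0) (.e (nat_lit 6255) (nat_lit 337) (.e (nat_lit 2725) (nat_lit 172) (.e (nat_lit 237593) (nat_lit 3) .nil))))))) (.g (nat_lit 1) (.e (nat_lit 231441) (nat_lit 0) .nil) .nil))) 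
(.lf (nat_lit 525135) (.g (nat_lit 2048) (.e (nat_lit 204880) (nat_lit 32) (.e (nat_lit 385066) (nat_lit 26) (.e (nat_lit 532565) (nat_lit 15) (.e (nat_lit 385065) (nat_lit 26) (.e (nat_lit 532529) (nat_lit 9) (.e (nat_lit 336325) (nat_lit 18) .nil)))))) (.g (nat_lit 1) (.e (nat_lit 232312) (nat_lit 0) .nil) .nil))))) (.nd (nat_lit 8) (.nd (nat_lit 9) 
(.lf (nat_lit 524495) (.g (nat_lit 4140) (.e (nat_lit 204869) (nat_lit 29) (.e (nat_lit 360474) (nat_lit 8) (.e (nat_lit 557091) (nat_lit 12) (.e (nat_lit 163843) (nat_lit 0) (.e (nat_lit 6420) (nat_lit 341) (.e (nat_lit 163850) (nat_lit 0) (.e (nat_lit 7936) (nat_lit 388) (.e (nat_lit 2684) (nat_lit 168) .nil)))))))) (.g (nat_lit 1) (.e (nat_lit 231290) (nat_lit 0) .nil) .nil))) 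
(.lf (nat_lit 525007) (.g (nat_lit 2489) (.e (nat_lit 204877) (nat_lit 31) (.e (nat_lit 376842) (nat_lit 11) (.e (nat_lit 426521) (nat_lit 27) (.e (nat_lit 335988) (nat_lit 1) (.e (nat_lit 57927) (nat_lit 282) (.e (nat_lit 163875) (nat_lit 3) .nil)))))) (.g (nat_lit 1) (.e (nat_lit 232085) (nat_lit 0) .nil) .nil)))) (.nd (nat_lit 9) 
(.lf (nat_lit 524751) (.g (nat_lit 3522) (.e (nat_lit 204869) (nat_lit 29) (.e (nat_lit 360475) (nat_lit 8) (.e (nat_lit 557091) (nat_lit 12) (.e (nat_lit 163843) (nat_lit 0) (.e (nat_lit 6418) (nat_lit 341) (.e (nat_lit 171776) (nat_lit 12) (.e (nat_lit 426139) (nat_lit 3) .nil))))))) (.g (nat_lit 1) (.e (nat_lit 231634) (nat_lit 0) .nil) .nil))) 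
(.lf (nat_lit 525263) (.g (nat_lit 2588) (.e (nat_lit 204882) (nat_lit 32) (.e (nat_lit 385066) (nat_lit 26) (.e (nat_lit 532529) (nat_lit 9) (.e (nat_lit 336316) (nat_lit 17) (.e (nat_lit 196681) (nat_lit 17) (.e (nat_lit 139008) (nat_lit 18) .nil)))))) (.g (nat_lit 1) (.e (nat_lit 232665) (nat_lit 0) .nil) .nil))))))) (.nd (nat_lit 6) (.nd (nat_lit 7) (.nd (nat_lit 8) (.nd (nat_lit 9) 
(.lf (nat_lit 524335) (.g (nat_lit 1933) (.e (nat_lit 204868) (nat_lit 29) (.e (nat_lit 360475) (nat_lit 8) (.e (nat_lit 557091) (nat_lit 12) (.e (nat_lit 163840) (nat_lit 0) .nil)))) (.g (nat_lit 0) (.e (nat_lit 230993) (nat_lit 0) .nil) .nil))) 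
(.lf (nat_lit 524847) (.g (nat_lit 1616) (.e (nat_lit 204872) (nat_lit 30) (.e (nat_lit 368676) (nat_lit 21) (.e (nat_lit 516131) (nat_lit 3) (.e (nat_lit 221212) (nat_lit 22) (.e (nat_lit 196625) (nat_lit 9) .nil))))) (.g (nat_lit 0) (.e (nat_lit 231791) (nat_lit 0) .nil) .nil)))) (.nd (nat_lit 9) 
(.lf (nat_lit 524591) (.g (nat_lit 741) (.e (nat_lit 204869) (nat_lit 29) (.e (nat_lit 360474) (nat_lit 8) (.e (nat_lit 557092) (nat_lit 12) .nil))) (.g (nat_lit 0) (.e (nat_lit 231408) (nat_lit 0) .nil) .nil))) 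
(.lf (nat_lit 525103) (.g (nat_lit 3072) (.e (nat_lit 204880) (nat_lit 32) (.e (nat_lit 385066) (nat_lit 26) (.e (nat_lit 532531) (nat_lit 9) (.e (nat_lit 336324) (nat_lit 18) (.e (nat_lit 204854) (nat_lit 26) (.e (nat_lit 336325) (nat_lit 18) .nil)))))) (.g (nat_lit 1) (.e (nat_lit 232243) (nat_lit 0) .nil) .nil))))) (.nd (nat_lit 8) (.nd (nat_lit 9) 
(.lf (nat_lit 524463) (.g (nat_lit 5049) (.e (nat_lit 204869) (nat_lit 29) (.e (nat_lit 360474) (nat_lit 8) (.e (nat_lit 557089) (nat_lit 12) (.e (nat_lit 163850) (nat_lit 0) (.e (nat_lit 6425) (nat_lit 342) (.e (nat_lit 237312) (nat_lit 12) (.e (nat_lit 426139) (nat_lit 3) .nil))))))) (.g (nat_lit 1) (.e (nat_lit 231237) (nat_lit 0) .nil) .nil))) 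
(.lf (nat_lit 524975) (.g (nat_lit 728) (.e (nat_lit 204877) (nat_lit 31) (.e (nat_lit 376842) (nat_lit 11) (.e (nat_lit 426099) (nat_lit 1) .nil))) (.g (nat_lit 0) (.e (nat_lit 232049) (nat_lit 0) .nil) .nil)))) (.nd (nat_lit 9) 
(.lf (nat_lit 524719) (.g (nat_lit 1289) (.e (nat_lit 204869) (nat_lit 29) (.e (nat_lit 360475) (nat_lit 8) (.e (nat_lit 557089) (nat_lit 12) (.e (nat_lit 164021) (nat_lit 46) .nil)))) (.g (nat_lit 0) (.e (nat_lit 231555) (nat_lit 0) .nil) .nil))) 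
(.lf (nat_lit 525231) (.g (nat_lit 3568) (.e (nat_lit 204881) (nat_lit 32) (.e (nat_lit 385068) (nat_lit 26) (.e (nat_lit 532504) (nat_lit 1) (.e (nat_lit 57851) (nat_lit 252) (.e (nat_lit 57354) (nat_lit 0) .nil))))) (.g (nat_lit 0) (.e (nat_lit 232541) (nat_lit 0) .nil) .nil)))))) (.nd (nat_lit 7) (.nd (nat_lit 8) (.nd (nat_lit 9) 
(.lf (nat_lit 524399) (.g (nat_lit 3419) (.e (nat_lit 204869) (nat_lit 29) (.e (nat_lit 360473) (nat_lit 8) (.e (nat_lit 557087) (nat_lit 11) (.e (nat_lit 24662) (nat_lit 14) (.e (nat_lit 401427) (nat_lit 3) .nil))))) (.g (nat_lit 0) (.e (nat_lit 231154) (nat_lit 0) .nil) .nil))) 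
(.lf (nat_lit 524911) (.g (nat_lit 1623) (.e (nat_lit 204876) (nat_lit 31) (.e (nat_lit 376842) (nat_lit 11) (.e (nat_lit 426098) (nat_lit 1) (.e (nat_lit 164183) (nat_lit 154) (.e (nat_lit 57410) (nat_lit 12) .nil))))) (.g (nat_lit 0) (.e (nat_lit 231939) (nat_lit 0) .nil) .nil)))) (.nd (nat_lit 9) 
(.lf (nat_lit 524655) (.g (nat_lit 566) (.e (nat_lit 204869) (nat_lit 29) (.e (nat_lit 360475) (nat_lit 8) (.e (nat_lit 557070) (nat_lit 9) .nil))) (.g (nat_lit 0) (.e (nat_lit 231484) (nat_lit 0) .nil) .nil))) 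
(.lf (nat_lit 525167) (.g (nat_lit 1082) (.e (nat_lit 204880) (nat_lit 32) (.e (nat_lit 385068) (nat_lit 26) (.e (nat_lit 532529) (nat_lit 9) .nil))) (.g (nat_lit 0) (.e (nat_lit 232362) (nat_lit 0) .nil) .nil))))) (.nd (nat_lit 8) (.nd (nat_lit 9) 
(.lf (nat_lit 524527) (.g (nat_lit 1813) (.e (nat_lit 204869) (nat_lit 29) (.e (nat_lit 360474) (nat_lit 8) (.e (nat_lit 557091) (nat_lit 12) (.e (nat_lit 163852) (nat_lit 0) .nil)))) (.g (nat_lit 0) (.e (nat_lit 231333) (nat_lit 0) .nil) .nil))) 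
(.lf (nat_lit 525039) (.g (nat_lit 1530) (.e (nat_lit 204877) (nat_lit 31) (.e (nat_lit 376867) (nat_lit 23) (.e (nat_lit 98350) (nat_lit 24) (.e (nat_lit 417536) (nat_lit 18) .nil)))) (.g (nat_lit 0) (.e (nat_lit 232135) (nat_lit 0) .nil) .nil)))) (.nd (nat_lit 9) 
(.lf (nat_lit 524783) (.g (nat_lit 4260) (.e (nat_lit 204869) (nat_lit 29) (.e (nat_lit 360475) (nat_lit 8) (.e (nat_lit 557091) (nat_lit 12) (.e (nat_lit 164022) (nat_lit 46) (.e (nat_lit 704629) (nat_lit 9) (.e (nat_lit 386) (nat_lit 32) (.e (nat_lit 433920) (nat_lit 3) .nil))))))) (.g (nat_lit 1) (.e (nat_lit 231669) (nat_lit 0) .nil) .nil))) 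
(.lf (nat_lit 525295) (.g (nat_lit 2107) (.e (nat_lit 204882) (nat_lit 32) (.e (nat_lit 385066) (nat_lit 26) (.e (nat_lit 532562) (nat_lit 15) (.e (nat_lit 385066) (nat_lit 26) (.e (nat_lit 532530) (nat_lit 9) (.e (nat_lit 336324) (nat_lit 18) .nil)))))) (.g (nat_lit 1) (.e (nat_lit 232699) (nat_lit 0) .nil) .nil)))))))) 
(.nd (nat_lit 5) (.nd (nat_lit 6) (.nd (nat_lit 7) (.nd (nat_lit 8) (.nd (nat_lit 9) 
(.lf (nat_lit 524319) (.g (nat_lit 617) (.e (nat_lit 204868) (nat_lit 29) (.e (nat_lit 360475) (nat_lit 8) (.e (nat_lit 557089) (nat_lit 12) .nil))) (.g (nat_lit 0) (.e (nat_lit 230976) (nat_lit 0) .nil) .nil))) 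
(.lf (nat_lit 524831) (.g (nat_lit 2746) (.e (nat_lit 204871) (nat_lit 30) (.e (nat_lit 368676) (nat_lit 21) (.e (nat_lit 516131) (nat_lit 3) (.e (nat_lit 221215) (nat_lit 23) (.e (nat_lit 204829) (nat_lit 18) .nil))))) (.g (nat_lit 0) (.e (nat_lit 231750) (nat_lit 0) .nil) .nil)))) (.nd (nat_lit 9) 
(.lf (nat_lit 524575) (.g (nat_lit 1497) (.e (nat_lit 204869) (nat_lit 29) (.e (nat_lit 360474) (nat_lit 8) (.e (nat_lit 557091) (nat_lit 12) (.e (nat_lit 164021) (nat_lit 46) .nil)))) (.g (nat_lit 0) (.e (nat_lit 231390) (nat_lit 0) .nil) .nil))) 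
(.lf (nat_lit 525087) (.g (nat_lit 3116) (.e (nat_lit 204880) (nat_lit 32) (.e (nat_lit 385066) (nat_lit 26) (.e (nat_lit 532503) (nat_lit 1) (.e (nat_lit 57849) (nat_lit 252) (.e (nat_lit 57377) (nat_lit 3) (.e (nat_lit 98338) (nat_lit 19) (.e (nat_lit 213013) (nat_lit 9) (.e (nat_lit 2684) (nat_lit 168) .nil)))))))) (.g (nat_lit 1) (.e (nat_lit 232221) (nat_lit 0) .nil) .nil))))) 
(.nd (nat_lit 8) (.nd (nat_lit 9) 
(.lf (nat_lit 524447) (.g (nat_lit 4600) (.e (nat_lit 204869) (nat_lit 29) (.e (nat_lit 360474) (nat_lit 8) (.e (nat_lit 557089) (nat_lit 12) (.e (nat_lit 163843) (nat_lit 0) (.e (nat_lit 6254) (nat_lit 337) (.e (nat_lit 2725) (nat_lit 172) (.e (nat_lit 237592) (nat_lit 3) .nil))))))) (.g (nat_lit 1) (.e (nat_lit 231219) (nat_lit 0) .nil) .nil))) 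
(.lf (nat_lit 524959) (.g (nat_lit 3634) (.e (nat_lit 204877) (nat_lit 31) (.e (nat_lit 376835) (nat_lit 0) (.e (nat_lit 3304) (nat_lit 202) (.e (nat_lit 573482) (nat_lit 13) (.e (nat_lit 65630) (nat_lit 14) (.e (nat_lit 401428) (nat_lit 3) .nil)))))) (.g (nat_lit 1) (.e (nat_lit 232013) (nat_lit 0) .nil) .nil)))) (.nd (nat_lit 9) 
(.lf (nat_lit 524703) (.g (nat_lit 3168) (.e (nat_lit 204869) (nat_lit 29) (.e (nat_lit 360475) (nat_lit 8) (.e (nat_lit 557089) (nat_lit 12) (.e (nat_lit 163843) (nat_lit 0) (.e (nat_lit 6416) (nat_lit 341) (.e (nat_lit 163908) (nat_lit 12) (.e (nat_lit 426132) (nat_lit 3) .nil))))))) (.g (nat_lit 1) (.e (nat_lit 231537) (nat_lit 0) .nil) .nil))) 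
(.lf (nat_lit 525215) (.g (nat_lit 3372) (.e (nat_lit 204881) (nat_lit 32) (.e (nat_lit 385066) (nat_lit 26) (.e (nat_lit 532534) (nat_lit 9) (.e (nat_lit 336324) (nat_lit 18) (.e (nat_lit 204854) (nat_lit 26) (.e (nat_lit 336324) (nat_lit 18) .nil)))))) (.g (nat_lit 1) (.e (nat_lit 232523) (nat_lit 0) .nil) .nil)))))) (.nd (nat_lit 7) (.nd (nat_lit 8) (.nd (nat_lit 9) 
(.lf (nat_lit 524383) (.g (nat_lit 2745) (.e (nat_lit 204869) (nat_lit 29) (.e (nat_lit 360472) (nat_lit 8) (.e (nat_lit 557090) (nat_lit 12) (.e (nat_lit 163843) (nat_lit 0) (.e (nat_lit 6254) (nat_lit 337) .nil))))) (.g (nat_lit 0) (.e (nat_lit 231138) (nat_lit 0) .nil) .nil))) 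
(.lf (nat_lit 524895) (.g (nat_lit 1961) (.e (nat_lit 204876) (nat_lit 31) (.e (nat_lit 376835) (nat_lit 0) (.e (nat_lit 3253) (nat_lit 197) (.e (nat_lit 532515) (nat_lit 3) (.e (nat_lit 114695) (nat_lit 11) (.e (nat_lit 426129) (nat_lit 3) .nil)))))) (.g (nat_lit 1) (.e (nat_lit 231907) (nat_lit 0) .nil) .nil)))) (.nd (nat_lit 9) 
(.lf (nat_lit 524639) (.g (nat_lit 1999) (.e (nat_lit 204869) (nat_lit 29) (.e (nat_lit 360474) (nat_lit 8) (.e (nat_lit 557094) (nat_lit 12) (.e (nat_lit 164022) (nat_lit 46) (.e (nat_lit 704629) (nat_lit 9) (.e (nat_lit 433) (nat_lit 32) (.e (nat_lit 433920) (nat_lit 3) .nil))))))) (.g (nat_lit 1) (.e (nat_lit 231457) (nat_lit 0) .nil) .nil))) 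
(.lf (nat_lit 525151) (.g (nat_lit 2247) (.e (nat_lit 204880) (nat_lit 32) (.e (nat_lit 385068) (nat_lit 26) (.e (nat_lit 532501) (nat_lit 1) (.e (nat_lit 57851) (nat_lit 252) .nil)))) (.g (nat_lit 0) (.e (nat_lit 232334) (nat_lit 0) .nil) .nil))))) (.nd (nat_lit 8) (.nd (nat_lit 9) 
(.lf (nat_lit 524511) (.g (nat_lit 3886) (.e (nat_lit 204869) (nat_lit 29) (.e (nat_lit 360474) (nat_lit 8) (.e (nat_lit 557091) (nat_lit 12) (.e (nat_lit 163847) (nat_lit 0) (.e (nat_lit 6255) (nat_lit 337) (.e (nat_lit 2725) (nat_lit 172) (.e (nat_lit 237594) (nat_lit 3) .nil))))))) (.g (nat_lit 1) (.e (nat_lit 231309) (nat_lit 0) .nil) .nil))) 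
(.lf (nat_lit 525023) (.g (nat_lit 1242) (.e (nat_lit 204877) (nat_lit 31) (.e (nat_lit 376865) (nat_lit 22) (.e (nat_lit 90172) (nat_lit 14) (.e (nat_lit 180229) (nat_lit 0) .nil)))) (.g (nat_lit 0) (.e (nat_lit 232116) (nat_lit 0) .nil) .nil)))) (.nd (nat_lit 9) 
(.lf (nat_lit 524767) (.g (nat_lit 4653) (.e (nat_lit 204869) (nat_lit 29) (.e (nat_lit 360475) (nat_lit 8) (.e (nat_lit 557091) (nat_lit 12) (.e (nat_lit 164016) (nat_lit 44) (.e (nat_lit 688138) (nat_lit 5) (.e (nat_lit 2887) (nat_lit 184) (.e (nat_lit 426134) (nat_lit 3) .nil))))))) (.g (nat_lit 1) (.e (nat_lit 231653) (nat_lit 0) .nil) .nil))) 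
(.lf (nat_lit 525279) (.g (nat_lit 2336) (.e (nat_lit 204882) (nat_lit 32) (.e (nat_lit 385066) (nat_lit 26) (.e (nat_lit 532532) (nat_lit 9) (.e (nat_lit 336316) (nat_lit 17) (.e (nat_lit 196681) (nat_lit 17) (.e (nat_lit 139008) (nat_lit 18) .nil)))))) (.g (nat_lit 1) (.e (nat_lit 232681) (nat_lit 0) .nil) .nil))))))) (.nd (nat_lit 6) (.nd (nat_lit 7) (.nd (nat_lit 8) (.nd (nat_lit 9) 
(.lf (nat_lit 524351) (.g (nat_lit 3877) (.e (nat_lit 204868) (nat_lit 29) (.e (nat_lit 360475) (nat_lit 8) (.e (nat_lit 557091) (nat_lit 12) (.e (nat_lit 164022) (nat_lit 46) (.e (nat_lit 704629) (nat_lit 9) (.e (nat_lit 433) (nat_lit 32) (.e (nat_lit 426129) (nat_lit 3) .nil))))))) (.g (nat_lit 1) (.e (nat_lit 231011) (nat_lit 0) .nil) .nil))) 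
(.lf (nat_lit 524863) (.g (nat_lit 1558) (.e (nat_lit 204873) (nat_lit 30) (.e (nat_lit 368676) (nat_lit 21) (.e (nat_lit 516119) (nat_lit 1) (.e (nat_lit 164179) (nat_lit 154) .nil)))) (.g (nat_lit 0) (.e (nat_lit 231839) (nat_lit 0) .nil) .nil)))) (.nd (nat_lit 9) 
(.lf (nat_lit 524607) (.g (nat_lit 3351) (.e (nat_lit 204869) (nat_lit 29) (.e (nat_lit 360474) (nat_lit 8) (.e (nat_lit 557093) (nat_lit 12) (.e (nat_lit 164022) (nat_lit 46) (.e (nat_lit 704629) (nat_lit 9) (.e (nat_lit 386) (nat_lit 32) (.e (nat_lit 433920) (nat_lit 3) .nil))))))) (.g (nat_lit 1) (.e (nat_lit 231425) (nat_lit 0) .nil) .nil))) 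
(.lf (nat_lit 525119) (.g (nat_lit 2063) (.e (nat_lit 204880) (nat_lit 32) (.e (nat_lit 385066) (nat_lit 26) (.e (nat_lit 532534) (nat_lit 9) (.e (nat_lit 336326) (nat_lit 18) (.e (nat_lit 204852) (nat_lit 26) (.e (nat_lit 336322) (nat_lit 18) .nil)))))) (.g (nat_lit 1) (.e (nat_lit 232285) (nat_lit 0) .nil) .nil))))) (.nd (nat_lit 8) (.nd (nat_lit 9) 
(.lf (nat_lit 524479) (.g (nat_lit 4129) (.e (nat_lit 204869) (nat_lit 29) (.e (nat_lit 360474) (nat_lit 8) (.e (nat_lit 557091) (nat_lit 12) (.e (nat_lit 163841) (nat_lit 0) (.e (nat_lit 6254) (nat_lit 337) (.e (nat_lit 2725) (nat_lit 172) (.e (nat_lit 237593) (nat_lit 3) .nil))))))) (.g (nat_lit 1) (.e (nat_lit 231253) (nat_lit 0) .nil) .nil))) 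
(.lf (nat_lit 524991) (.g (nat_lit 1439) (.e (nat_lit 204877) (nat_lit 31) (.e (nat_lit 376842) (nat_lit 11) (.e (nat_lit 426408) (nat_lit 15) (.e (nat_lit 6214) (nat_lit 333) .nil)))) (.g (nat_lit 0) (.e (nat_lit 232068) (nat_lit 0) .nil) .nil)))) (.nd (nat_lit 9) 
(.lf (nat_lit 524735) (.g (nat_lit 2733) (.e (nat_lit 204869) (nat_lit 29) (.e (nat_lit 360475) (nat_lit 8) (.e (nat_lit 557090) (nat_lit 12) (.e (nat_lit 163847) (nat_lit 0) .nil)))) (.g (nat_lit 0) (.e (nat_lit 231602) (nat_lit 0) .nil) .nil))) 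
(.lf (nat_lit 525247) (.g (nat_lit 2615) (.e (nat_lit 204881) (nat_lit 32) (.e (nat_lit 385109) (nat_lit 51) (.e (nat_lit 794666) (nat_lit 22) (.e (nat_lit 196656) (nat_lit 11) (.e (nat_lit 16436) (nat_lit 9) (.e (nat_lit 426131) (nat_lit 3) .nil)))))) (.g (nat_lit 1) (.e (nat_lit 232609) (nat_lit 0) .nil) .nil)))))) (.nd (nat_lit 7) (.nd (nat_lit 8) (.nd (nat_lit 9) 
(.lf (nat_lit 524415) (.g (nat_lit 1310) (.e (nat_lit 204869) (nat_lit 29) (.e (nat_lit 360473) (nat_lit 8) (.e (nat_lit 557091) (nat_lit 12) (.e (nat_lit 171776) (nat_lit 48) .nil)))) (.g (nat_lit 0) (.e (nat_lit 231170) (nat_lit 0) .nil) .nil))) 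
(.lf (nat_lit 524927) (.g (nat_lit 1560) (.e (nat_lit 204876) (nat_lit 31) (.e (nat_lit 376842) (nat_lit 11) (.e (nat_lit 426408) (nat_lit 15) (.e (nat_lit 6112) (nat_lit 332) (.e (nat_lit 7936) (nat_lit 81) .nil))))) (.g (nat_lit 0) (.e (nat_lit 231958) (nat_lit 0) .nil) .nil)))) (.nd (nat_lit 9) 
(.lf (nat_lit 524671) (.g (nat_lit 5721) (.e (nat_lit 204869) (nat_lit 29) (.e (nat_lit 360475) (nat_lit 8) (.e (nat_lit 557085) (nat_lit 11) (.e (nat_lit 24662) (nat_lit 14) (.e (nat_lit 401428) (nat_lit 3) .nil))))) (.g (nat_lit 1) (.e (nat_lit 231504) (nat_lit 0) .nil) .nil))) 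
(.lf (nat_lit 525183) (.g (nat_lit 1523) (.e (nat_lit 204880) (nat_lit 32) (.e (nat_lit 385068) (nat_lit 26) (.e (nat_lit 532534) (nat_lit 9) (.e (nat_lit 336326) (nat_lit 18) .nil)))) (.g (nat_lit 0) (.e (nat_lit 232378) (nat_lit 0) .nil) .nil))))) (.nd (nat_lit 8) (.nd (nat_lit 9) 
(.lf (nat_lit 524543) (.g (nat_lit 3374) (.e (nat_lit 204869) (nat_lit 29) (.e (nat_lit 360474) (nat_lit 8) (.e (nat_lit 557091) (nat_lit 12) (.e (nat_lit 164020) (nat_lit 45) (.e (nat_lit 696327) (nat_lit 5) (.e (nat_lit 2874) (nat_lit 184) (.e (nat_lit 426136) (nat_lit 3) .nil))))))) (.g (nat_lit 1) (.e (nat_lit 231355) (nat_lit 0) .nil) .nil))) 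
(.lf (nat_lit 525055) (.g (nat_lit 1841) (.e (nat_lit 204879) (nat_lit 32) (.e (nat_lit 385066) (nat_lit 26) (.e (nat_lit 532530) (nat_lit 9) (.e (nat_lit 336325) (nat_lit 18) .nil)))) (.g (nat_lit 0) (.e (nat_lit 232172) (nat_lit 0) .nil) .nil)))) (.nd (nat_lit 9) 
(.lf (nat_lit 524799) (.g (nat_lit 2140) (.e (nat_lit 204870) (nat_lit 29) (.e (nat_lit 360463) (nat_lit 1) (.e (nat_lit 499846) (nat_lit 5) (.e (nat_lit 2829) (nat_lit 182) (.e (nat_lit 409648) (nat_lit 18) (.e (nat_lit 303119) (nat_lit 3) .nil)))))) (.g (nat_lit 1) (.e (nat_lit 231691) (nat_lit 0) .nil) .nil))) 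
(.lf (nat_lit 525311) (.g (nat_lit 2833) (.e (nat_lit 204882) (nat_lit 32) (.e (nat_lit 385067) (nat_lit 26) (.e (nat_lit 532563) (nat_lit 15) (.e (nat_lit 385066) (nat_lit 26) (.e (nat_lit 532532) (nat_lit 9) (.e (nat_lit 336324) (nat_lit 18) .nil)))))) (.g (nat_lit 1) (.e (nat_lit 232729) (nat_lit 0) .nil) .nil)))))))))))))

noncomputable def tv5573 : DT := (.nd (nat_lit 0) (.nd (nat_lit 1) (.nd (nat_lit 2) (.nd (nat_lit 3) (.nd (nat_lit 4) (.nd (nat_lit 5) (.nd (nat_lit 6) (.nd (nat_lit 7) (.nd (nat_lit 8) (.nd (nat_lit 9) 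
(.lf (nat_lit 525312) (.g (nat_lit 3207) (.e (nat_lit 204882) (nat_lit 32) (.e (nat_lit 385067) (nat_lit 26) (.e (nat_lit 532563) (nat_lit 15) (.e (nat_lit 385066) (nat_lit 26) (.e (nat_lit 532534) (nat_lit 9) (.e (nat_lit 336326) (nat_lit 18) .nil)))))) (.g (nat_lit 1) (.e (nat_lit 232730) (nat_lit 0) .nil) .nil))) 
(.lf (nat_lit 525824) (.g (nat_lit 2369) (.e (nat_lit 213030) (nat_lit 11) (.e (nat_lit 24604) (nat_lit 2) (.e (nat_lit 90178) (nat_lit 15) (.e (nat_lit 188418) (nat_lit 0) (.e (nat_lit 1800) (nat_lit 119) (.e (nat_lit 516124) (nat_lit 2) .nil)))))) (.g (nat_lit 1) (.e (nat_lit 233784) (nat_lit 0) .nil) .nil)))) (.nd (nat_lit 9) 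
(.lf (nat_lit 525568) (.g (nat_lit 2857) (.e (nat_lit 204885) (nat_lit 33) (.e (nat_lit 401448) (nat_lit 10) (.e (nat_lit 434231) (nat_lit 23) (.e (nat_lit 532569) (nat_lit 16) (.e (nat_lit 401445) (nat_lit 9) .nil))))) (.g (nat_lit 0) (.e (nat_lit 233322) (nat_lit 0) .nil) .nil))) 
(.lf (nat_lit 526080) (.g (nat_lit 3198) (.e (nat_lit 213030) (nat_lit 11) (.e (nat_lit 24630) (nat_lit 9) (.e (nat_lit 336443) (nat_lit 32) (.e (nat_lit 466969) (nat_lit 21) (.e (nat_lit 164327) (nat_lit 230) (.e (nat_lit 163882) (nat_lit 4) .nil)))))) (.g (nat_lit 1) (.e (nat_lit 234075) (nat_lit 0) .nil) .nil))))) (.nd (nat_lit 8) (.nd (nat_lit 9) 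
(.lf (nat_lit 525440) (.g (nat_lit 1544) (.e (nat_lit 204883) (nat_lit 33) (.e (nat_lit 401459) (nat_lit 13) (.e (nat_lit 483344) (nat_lit 17) (.e (nat_lit 2368) (nat_lit 153) .nil)))) (.g (nat_lit 0) (.e (nat_lit 232925) (nat_lit 0) .nil) .nil))) 
(.lf (nat_lit 525952) (.g (nat_lit 2638) (.e (nat_lit 213030) (nat_lit 11) (.e (nat_lit 24617) (nat_lit 7) (.e (nat_lit 319534) (nat_lit 16) (.e (nat_lit 286756) (nat_lit 10) (.e (nat_lit 344097) (nat_lit 18) (.e (nat_lit 5194) (nat_lit 294) (.e (nat_lit 65280) (nat_lit 65) .nil))))))) (.g (nat_lit 1) (.e (nat_lit 233927) (nat_lit 0) .nil) .nil)))) (.nd (nat_lit 9) 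
(.lf (nat_lit 525696) (.g (nat_lit 1720) (.e (nat_lit 220928) (nat_lit 5) (.e (nat_lit 73781) (nat_lit 32) (.e (nat_lit 2856) (nat_lit 184) (.e (nat_lit 426555) (nat_lit 32) (.e (nat_lit 384768) (nat_lit 4) .nil))))) (.g (nat_lit 0) (.e (nat_lit 233583) (nat_lit 0) .nil) .nil))) 
(.lf (nat_lit 526208) (.g (nat_lit 1551) (.e (nat_lit 213031) (nat_lit 11) (.e (nat_lit 24608) (nat_lit 3) (.e (nat_lit 98365) (nat_lit 26) (.e (nat_lit 426307) (nat_lit 12) .nil)))) (.g (nat_lit 0) (.e (nat_lit 234298) (nat_lit 0) .nil) .nil)))))) (.nd (nat_lit 7) (.nd (nat_lit 8) (.nd (nat_lit 9) 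
(.lf (nat_lit 525376) (.g (nat_lit 1626) (.e (nat_lit 204883) (nat_lit 33) (.e (nat_lit 401434) (nat_lit 9) (.e (nat_lit 426125) (nat_lit 2) (.e (nat_lit 196661) (nat_lit 12) .nil)))) (.g (nat_lit 0) (.e (nat_lit 232808) (nat_lit 0) .nil) .nil))) 
(.lf (nat_lit 525888) (.g (nat_lit 1991) (.e (nat_lit 213030) (nat_lit 11) (.e (nat_lit 24617) (nat_lit 7) (.e (nat_lit 319530) (nat_lit 16) (.e (nat_lit 286759) (nat_lit 12) (.e (nat_lit 385092) (nat_lit 49) .nil))))) (.g (nat_lit 0) (.e (nat_lit 233862) (nat_lit 0) .nil) .nil)))) (.nd (nat_lit 9) 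
(.lf (nat_lit 525632) (.g (nat_lit 1944) (.e (nat_lit 204885) (nat_lit 33) (.e (nat_lit 401451) (nat_lit 12) (.e (nat_lit 475179) (nat_lit 24) .nil))) (.g (nat_lit 0) (.e (nat_lit 233487) (nat_lit 0) .nil) .nil))) 
(.lf (nat_lit 526144) (.g (nat_lit 2153) (.e (nat_lit 213030) (nat_lit 11) (.e (nat_lit 24659) (nat_lit 13) (.e (nat_lit 393271) (nat_lit 23) (.e (nat_lit 426448) (nat_lit 20) (.e (nat_lit 122624) (nat_lit 4) .nil))))) (.g (nat_lit 1) (.e (nat_lit 234142) (nat_lit 0) .nil) .nil))))) (.nd (nat_lit 8) (.nd (nat_lit 9) 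
(.lf (nat_lit 525504) (.g (nat_lit 1216) (.e (nat_lit 204885) (nat_lit 33) (.e (nat_lit 401434) (nat_lit 9) (.e (nat_lit 426140) (nat_lit 3) (.e (nat_lit 204821) (nat_lit 17) .nil)))) (.g (nat_lit 0) (.e (nat_lit 233115) (nat_lit 0) .nil) .nil))) 
(.lf (nat_lit 526016) (.g (nat_lit 3057) (.e (nat_lit 213030) (nat_lit 11) (.e (nat_lit 24626) (nat_lit 9) (.e (nat_lit 336443) (nat_lit 32) (.e (nat_lit 466969) (nat_lit 21) (.e (nat_lit 164327) (nat_lit 230) (.e (nat_lit 163882) (nat_lit 4) .nil)))))) (.g (nat_lit 1) (.e (nat_lit 233993) (nat_lit 0) .nil) .nil)))) (.nd (nat_lit 9) 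
(.lf (nat_lit 525760) (.g (nat_lit 1385) (.e (nat_lit 220928) (nat_lit 6) (.e (nat_lit 81957) (nat_lit 24) (.e (nat_lit 123195) (nat_lit 266) (.e (nat_lit 57418) (nat_lit 12) .nil)))) (.g (nat_lit 0) (.e (nat_lit 233653) (nat_lit 0) .nil) .nil))) 
(.lf (nat_lit 526272) (.g (nat_lit 2212) (.e (nat_lit 213032) (nat_lit 11) (.e (nat_lit 24604) (nat_lit 2) (.e (nat_lit 90185) (nat_lit 17) (.e (nat_lit 237618) (nat_lit 12) .nil)))) (.g (nat_lit 0) (.e (nat_lit 234439) (nat_lit 0) .nil) .nil))))))) (.nd (nat_lit 6) (.nd (nat_lit 7) (.nd (nat_lit 8) (.nd (nat_lit 9) 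
(.lf (nat_lit 525344) (.g (nat_lit 2158) (.e (nat_lit 204882) (nat_lit 32) (.e (nat_lit 385068) (nat_lit 26) (.e (nat_lit 532530) (nat_lit 9) (.e (nat_lit 336326) (nat_lit 18) (.e (nat_lit 212736) (nat_lit 26) (.e (nat_lit 336323) (nat_lit 18) .nil)))))) (.g (nat_lit 1) (.e (nat_lit 232765) (nat_lit 0) .nil) .nil))) 
(.lf (nat_lit 525856) (.g (nat_lit 3055) (.e (nat_lit 213030) (nat_lit 11) (.e (nat_lit 24608) (nat_lit 3) (.e (nat_lit 98365) (nat_lit 26) (.e (nat_lit 426306) (nat_lit 12) (.e (nat_lit 475179) (nat_lit 24) (.e (nat_lit 516126) (nat_lit 2) .nil)))))) (.g (nat_lit 1) (.e (nat_lit 233817) (nat_lit 0) .nil) .nil)))) (.nd (nat_lit 9) 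
(.lf (nat_lit 525600) (.g (nat_lit 4064) (.e (nat_lit 204885) (nat_lit 33) (.e (nat_lit 401448) (nat_lit 10) (.e (nat_lit 434244) (nat_lit 28) (.e (nat_lit 573471) (nat_lit 11) (.e (nat_lit 16436) (nat_lit 9) (.e (nat_lit 426131) (nat_lit 3) .nil)))))) (.g (nat_lit 1) (.e (nat_lit 233394) (nat_lit 0) .nil) .nil))) 
(.lf (nat_lit 526112) (.g (nat_lit 1786) (.e (nat_lit 213030) (nat_lit 11) (.e (nat_lit 24656) (nat_lit 13) (.e (nat_lit 393268) (nat_lit 23) (.e (nat_lit 426448) (nat_lit 20) (.e (nat_lit 122624) (nat_lit 4) .nil))))) (.g (nat_lit 0) (.e (nat_lit 234110) (nat_lit 0) .nil) .nil))))) (.nd (nat_lit 8) (.nd (nat_lit 9) 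
(.lf (nat_lit 525472) (.g (nat_lit 3874) (.e (nat_lit 204884) (nat_lit 33) (.e (nat_lit 401453) (nat_lit 12) (.e (nat_lit 475183) (nat_lit 29) (.e (nat_lit 557108) (nat_lit 15) (.e (nat_lit 188452) (nat_lit 23) .nil))))) (.g (nat_lit 1) (.e (nat_lit 233054) (nat_lit 0) .nil) .nil))) 
(.lf (nat_lit 525984) (.g (nat_lit 2642) (.e (nat_lit 213030) (nat_lit 11) (.e (nat_lit 24617) (nat_lit 7) (.e (nat_lit 319534) (nat_lit 16) (.e (nat_lit 286759) (nat_lit 12) (.e (nat_lit 385107) (nat_lit 51) (.e (nat_lit 794680) (nat_lit 24) .nil)))))) (.g (nat_lit 1) (.e (nat_lit 233959) (nat_lit 0) .nil) .nil)))) (.nd (nat_lit 9) 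
(.lf (nat_lit 525728) (.g (nat_lit 1507) (.e (nat_lit 220928) (nat_lit 6) (.e (nat_lit 81922) (nat_lit 0) (.e (nat_lit 3747) (nat_lit 228) (.e (nat_lit 786480) (nat_lit 29) (.e (nat_lit 360192) (nat_lit 4) .nil))))) (.g (nat_lit 0) (.e (nat_lit 233617) (nat_lit 0) .nil) .nil))) 
(.lf (nat_lit 526240) (.g (nat_lit 1624) (.e (nat_lit 213031) (nat_lit 11) (.e (nat_lit 24660) (nat_lit 13) (.e (nat_lit 393281) (nat_lit 23) (.e (nat_lit 426098) (nat_lit 1) (.e (nat_lit 164325) (nat_lit 230) .nil))))) (.g (nat_lit 0) (.e (nat_lit 234332) (nat_lit 0) .nil) .nil)))))) (.nd (nat_lit 7) (.nd (nat_lit 8) (.nd (nat_lit 9) 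
(.lf (nat_lit 525408) (.g (nat_lit 3042) (.e (nat_lit 204883) (nat_lit 33) (.e (nat_lit 401454) (nat_lit 12) (.e (nat_lit 475185) (nat_lit 29) (.e (nat_lit 557097) (nat_lit 13) (.e (nat_lit 172097) (nat_lit 9) .nil))))) (.g (nat_lit 0) (.e (nat_lit 232881) (nat_lit 0) .nil) .nil))) 
(.lf (nat_lit 525920) (.g (nat_lit 2735) (.e (nat_lit 213030) (nat_lit 11) (.e (nat_lit 24617) (nat_lit 7) (.e (nat_lit 319533) (nat_lit 16) (.e (nat_lit 286753) (nat_lit 10) (.e (nat_lit 344168) (nat_lit 40) (.e (nat_lit 671774) (nat_lit 9) (.e (nat_lit 2699) (nat_lit 169) .nil))))))) (.g (nat_lit 1) (.e (nat_lit 233895) (nat_lit 0) .nil) .nil)))) (.nd (nat_lit 9) 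
(.lf (nat_lit 525664) (.g (nat_lit 2734) (.e (nat_lit 220928) (nat_lit 3) (.e (nat_lit 57475) (nat_lit 28) (.e (nat_lit 557100) (nat_lit 13) (.e (nat_lit 172106) (nat_lit 10) (.e (nat_lit 434231) (nat_lit 23) .nil))))) (.g (nat_lit 0) (.e (nat_lit 233545) (nat_lit 0) .nil) .nil))) 
(.lf (nat_lit 526176) (.g (nat_lit 2496) (.e (nat_lit 213030) (nat_lit 11) (.e (nat_lit 24660) (nat_lit 13) (.e (nat_lit 393282) (nat_lit 24) (.e (nat_lit 434209) (nat_lit 18) (.e (nat_lit 5224) (nat_lit 296) (.e (nat_lit 163881) (nat_lit 4) .nil)))))) (.g (nat_lit 1) (.e (nat_lit 234174) (nat_lit 0) .nil) .nil))))) (.nd (nat_lit 8) (.nd (nat_lit 9) 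
(.lf (nat_lit 525536) (.g (nat_lit 2640) (.e (nat_lit 204885) (nat_lit 33) (.e (nat_lit 401448) (nat_lit 10) (.e (nat_lit 434231) (nat_lit 23) (.e (nat_lit 532481) (nat_lit 0) (.e (nat_lit 6720) (nat_lit 361) .nil))))) (.g (nat_lit 0) (.e (nat_lit 233290) (nat_lit 0) .nil) .nil))) 
(.lf (nat_lit 526048) (.g (nat_lit 472) (.e (nat_lit 213030) (nat_lit 11) (.e (nat_lit 24628) (nat_lit 9) (.e (nat_lit 336443) (nat_lit 32) .nil))) (.g (nat_lit 0) (.e (nat_lit 234025) (nat_lit 0) .nil) .nil)))) (.nd (nat_lit 9) 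
(.lf (nat_lit 525792) (.g (nat_lit 1631) (.e (nat_lit 213013) (nat_lit 9) (.e (nat_lit 2684) (nat_lit 168) (.e (nat_lit 204830) (nat_lit 18) (.e (nat_lit 57924) (nat_lit 282) (.e (nat_lit 163871) (nat_lit 2) .nil))))) (.g (nat_lit 0) (.e (nat_lit 233711) (nat_lit 0) .nil) .nil))) 
(.lf (nat_lit 526304) (.g (nat_lit 699) (.e (nat_lit 213032) (nat_lit 11) (.e (nat_lit 24608) (nat_lit 3) (.e (nat_lit 98363) (nat_lit 26) (.e (nat_lit 426230) (nat_lit 9) .nil)))) (.g (nat_lit 0) (.e (nat_lit 234472) (nat_lit 0) .nil) .nil)))))))) (.nd (nat_lit 5) (.nd (nat_lit 6) (.nd (nat_lit 7) (.nd (nat_lit 8) (.nd (nat_lit 9) 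
(.lf (nat_lit 525328) (.g (nat_lit 1641) (.e (nat_lit 204882) (nat_lit 32) (.e (nat_lit 385068) (nat_lit 26) (.e (nat_lit 532529) (nat_lit 9) (.e (nat_lit 336325) (nat_lit 18) .nil)))) (.g (nat_lit 0) (.e (nat_lit 232749) (nat_lit 0) .nil) .nil))) 
(.lf (nat_lit 525840) (.g (nat_lit 1808) (.e (nat_lit 213030) (nat_lit 11) (.e (nat_lit 24607) (nat_lit 3) (.e (nat_lit 98365) (nat_lit 26) (.e (nat_lit 426188) (nat_lit 9) (.e (nat_lit 426434) (nat_lit 18) .nil))))) (.g (nat_lit 0) (.e (nat_lit 233800) (nat_lit 0) .nil) .nil)))) (.nd (nat_lit 9) 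
(.lf (nat_lit 525584) (.g (nat_lit 3027) (.e (nat_lit 204885) (nat_lit 33) (.e (nat_lit 401448) (nat_lit 10) (.e (nat_lit 434232) (nat_lit 23) (.e (nat_lit 532566) (nat_lit 15) (.e (nat_lit 385106) (nat_lit 50) (.e (nat_lit 794368) (nat_lit 3) .nil)))))) (.g (nat_lit 1) (.e (nat_lit 233338) (nat_lit 0) .nil) .nil))) 
(.lf (nat_lit 526096) (.g (nat_lit 1382) (.e (nat_lit 213030) (nat_lit 11) (.e (nat_lit 24650) (nat_lit 12) (.e (nat_lit 385109) (nat_lit 51) (.e (nat_lit 802560) (nat_lit 1) .nil)))) (.g (nat_lit 0) (.e (nat_lit 234094) (nat_lit 0) .nil) .nil))))) (.nd (nat_lit 8) (.nd (nat_lit 9) 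
(.lf (nat_lit 525456) (.g (nat_lit 3288) (.e (nat_lit 204884) (nat_lit 33) (.e (nat_lit 401448) (nat_lit 10) (.e (nat_lit 434231) (nat_lit 23) (.e (nat_lit 532523) (nat_lit 7) (.e (nat_lit 319538) (nat_lit 19) .nil))))) (.g (nat_lit 0) (.e (nat_lit 232980) (nat_lit 0) .nil) .nil))) 
(.lf (nat_lit 525968) (.g (nat_lit 2264) (.e (nat_lit 213030) (nat_lit 11) (.e (nat_lit 24617) (nat_lit 7) (.e (nat_lit 319534) (nat_lit 16) (.e (nat_lit 286756) (nat_lit 10) (.e (nat_lit 344169) (nat_lit 40) (.e (nat_lit 671768) (nat_lit 9) (.e (nat_lit 2700) (nat_lit 169) .nil))))))) (.g (nat_lit 1) (.e (nat_lit 233943) (nat_lit 0) .nil) .nil)))) (.nd (nat_lit 9) 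
(.lf (nat_lit 525712) (.g (nat_lit 1592) (.e (nat_lit 220928) (nat_lit 5) (.e (nat_lit 73782) (nat_lit 32) (.e (nat_lit 2857) (nat_lit 184) (.e (nat_lit 426542) (nat_lit 29) (.e (nat_lit 360192) (nat_lit 4) .nil))))) (.g (nat_lit 0) (.e (nat_lit 233599) (nat_lit 0) .nil) .nil))) 
(.lf (nat_lit 526224) (.g (nat_lit 1889) (.e (nat_lit 213031) (nat_lit 11) (.e (nat_lit 24655) (nat_lit 13) (.e (nat_lit 393280) (nat_lit 23) (.e (nat_lit 426098) (nat_lit 1) (.e (nat_lit 164325) (nat_lit 230) .nil))))) (.g (nat_lit 0) (.e (nat_lit 234314) (nat_lit 0) .nil) .nil)))))) (.nd (nat_lit 7) (.nd (nat_lit 8) (.nd (nat_lit 9) 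
(.lf (nat_lit 525392) (.g (nat_lit 2996) (.e (nat_lit 204883) (nat_lit 33) (.e (nat_lit 401451) (nat_lit 12) (.e (nat_lit 475185) (nat_lit 29) (.e (nat_lit 557098) (nat_lit 13) .nil)))) (.g (nat_lit 0) (.e (nat_lit 232842) (nat_lit 0) .nil) .nil))) 
(.lf (nat_lit 525904) (.g (nat_lit 1258) (.e (nat_lit 213030) (nat_lit 11) (.e (nat_lit 24617) (nat_lit 7) (.e (nat_lit 319532) (nat_lit 16) (.e (nat_lit 286759) (nat_lit 12) (.e (nat_lit 385094) (nat_lit 49) .nil))))) (.g (nat_lit 0) (.e (nat_lit 233878) (nat_lit 0) .nil) .nil)))) (.nd (nat_lit 9) 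
(.lf (nat_lit 525648) (.g (nat_lit 4861) (.e (nat_lit 212736) (nat_lit 33) (.e (nat_lit 401451) (nat_lit 12) (.e (nat_lit 475185) (nat_lit 29) (.e (nat_lit 557098) (nat_lit 13) (.e (nat_lit 172097) (nat_lit 9) .nil))))) (.g (nat_lit 0) (.e (nat_lit 233523) (nat_lit 0) .nil) .nil))) 
(.lf (nat_lit 526160) (.g (nat_lit 1612) (.e (nat_lit 213030) (nat_lit 11) (.e (nat_lit 24660) (nat_lit 13) (.e (nat_lit 393267) (nat_lit 23) (.e (nat_lit 426446) (nat_lit 20) (.e (nat_lit 122624) (nat_lit 4) .nil))))) (.g (nat_lit 1) (.e (nat_lit 234158) (nat_lit 0) .nil) .nil))))) (.nd (nat_lit 8) (.nd (nat_lit 9) 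
(.lf (nat_lit 525520) (.g (nat_lit 5401) (.e (nat_lit 204885) (nat_lit 33) (.e (nat_lit 401446) (nat_lit 10) (.e (nat_lit 434231) (nat_lit 23) (.e (nat_lit 532523) (nat_lit 7) (.e (nat_lit 319538) (nat_lit 19) (.e (nat_lit 311315) (nat_lit 3) .nil)))))) (.g (nat_lit 1) (.e (nat_lit 233156) (nat_lit 0) .nil) .nil))) 
(.lf (nat_lit 526032) (.g (nat_lit 2753) (.e (nat_lit 213030) (nat_lit 11) (.e (nat_lit 24627) (nat_lit 9) (.e (nat_lit 336443) (nat_lit 32) (.e (nat_lit 466969) (nat_lit 21) (.e (nat_lit 164326) (nat_lit 230) (.e (nat_lit 163879) (nat_lit 4) .nil)))))) (.g (nat_lit 1) (.e (nat_lit 234009) (nat_lit 0) .nil) .nil)))) (.nd (nat_lit 9) 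
(.lf (nat_lit 525776) (.g (nat_lit 1491) (.e (nat_lit 220928) (nat_lit 6) (.e (nat_lit 81959) (nat_lit 24) (.e (nat_lit 123218) (nat_lit 278) (.e (nat_lit 2612) (nat_lit 163) (.e (nat_lit 164237) (nat_lit 187) .nil))))) (.g (nat_lit 0) (.e (nat_lit 233669) (nat_lit 0) .nil) .nil))) 
(.lf (nat_lit 526288) (.g (nat_lit 1868) (.e (nat_lit 213032) (nat_lit 11) (.e (nat_lit 24607) (nat_lit 3) (.e (nat_lit 98365) (nat_lit 26) (.e (nat_lit 426308) (nat_lit 12) (.e (nat_lit 475177) (nat_lit 24) .nil))))) (.g (nat_lit 0) (.e (nat_lit 234455) (nat_lit 0) .nil) .nil))))))) (.nd (nat_lit 6) (.nd (nat_lit 7) (.nd (nat_lit 8) (.nd (nat_lit 9) 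
(.lf (nat_lit 525360) (.g (nat_lit 3087) (.e (nat_lit 204882) (nat_lit 32) (.e (nat_lit 385068) (nat_lit 26) (.e (nat_lit 532566) (nat_lit 15) (.e (nat_lit 385068) (nat_lit 26) (.e (nat_lit 532530) (nat_lit 9) (.e (nat_lit 336324) (nat_lit 18) .nil)))))) (.g (nat_lit 1) (.e (nat_lit 232785) (nat_lit 0) .nil) .nil))) 
(.lf (nat_lit 525872) (.g (nat_lit 2184) (.e (nat_lit 213030) (nat_lit 11) (.e (nat_lit 24609) (nat_lit 3) (.e (nat_lit 98373) (nat_lit 29) (.e (nat_lit 458496) (nat_lit 8) (.e (nat_lit 557065) (nat_lit 9) (.e (nat_lit 2692) (nat_lit 169) .nil)))))) (.g (nat_lit 1) (.e (nat_lit 233835) (nat_lit 0) .nil) .nil)))) (.nd (nat_lit 9) 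
(.lf (nat_lit 525616) (.g (nat_lit 3260) (.e (nat_lit 204885) (nat_lit 33) (.e (nat_lit 401448) (nat_lit 10) (.e (nat_lit 434246) (nat_lit 28) (.e (nat_lit 573471) (nat_lit 11) (.e (nat_lit 16446) (nat_lit 9) (.e (nat_lit 426133) (nat_lit 3) .nil)))))) (.g (nat_lit 1) (.e (nat_lit 233433) (nat_lit 0) .nil) .nil))) 
(.lf (nat_lit 526128) (.g (nat_lit 746) (.e (nat_lit 213030) (nat_lit 11) (.e (nat_lit 24657) (nat_lit 13) (.e (nat_lit 393274) (nat_lit 23) .nil))) (.g (nat_lit 0) (.e (nat_lit 234126) (nat_lit 0) .nil) .nil))))) (.nd (nat_lit 8) (.nd (nat_lit 9) 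
(.lf (nat_lit 525488) (.g (nat_lit 738) (.e (nat_lit 204884) (nat_lit 33) (.e (nat_lit 401459) (nat_lit 13) (.e (nat_lit 483347) (nat_lit 17) .nil))) (.g (nat_lit 0) (.e (nat_lit 233084) (nat_lit 0) .nil) .nil))) 
(.lf (nat_lit 526000) (.g (nat_lit 2558) (.e (nat_lit 213030) (nat_lit 11) (.e (nat_lit 24625) (nat_lit 9) (.e (nat_lit 336443) (nat_lit 32) (.e (nat_lit 466969) (nat_lit 21) (.e (nat_lit 164326) (nat_lit 230) (.e (nat_lit 163882) (nat_lit 4) .nil)))))) (.g (nat_lit 1) (.e (nat_lit 233977) (nat_lit 0) .nil) .nil)))) (.nd (nat_lit 9) 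
(.lf (nat_lit 525744) (.g (nat_lit 879) (.e (nat_lit 220928) (nat_lit 6) (.e (nat_lit 81938) (nat_lit 20) (.e (nat_lit 2006) (nat_lit 138) (.e (nat_lit 671764) (nat_lit 6) (.e (nat_lit 89856) (nat_lit 4) .nil))))) (.g (nat_lit 0) (.e (nat_lit 233637) (nat_lit 0) .nil) .nil))) 
(.lf (nat_lit 526256) (.g (nat_lit 2263) (.e (nat_lit 213032) (nat_lit 11) (.e (nat_lit 24604) (nat_lit 2) (.e (nat_lit 90170) (nat_lit 13) (.e (nat_lit 172120) (nat_lit 12) (.e (nat_lit 475178) (nat_lit 24) .nil))))) (.g (nat_lit 0) (.e (nat_lit 234407) (nat_lit 0) .nil) .nil)))))) (.nd (nat_lit 7) (.nd (nat_lit 8) (.nd (nat_lit 9) 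
(.lf (nat_lit 525424) (.g (nat_lit 823) (.e (nat_lit 204883) (nat_lit 33) (.e (nat_lit 401457) (nat_lit 13) (.e (nat_lit 483350) (nat_lit 17) .nil))) (.g (nat_lit 0) (.e (nat_lit 232899) (nat_lit 0) .nil) .nil))) 
(.lf (nat_lit 525936) (.g (nat_lit 3001) (.e (nat_lit 213030) (nat_lit 11) (.e (nat_lit 24617) (nat_lit 7) (.e (nat_lit 319533) (nat_lit 16) (.e (nat_lit 286759) (nat_lit 12) (.e (nat_lit 385107) (nat_lit 51) (.e (nat_lit 794677) (nat_lit 24) .nil)))))) (.g (nat_lit 1) (.e (nat_lit 233911) (nat_lit 0) .nil) .nil)))) (.nd (nat_lit 9) 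
(.lf (nat_lit 525680) (.g (nat_lit 1582) (.e (nat_lit 220928) (nat_lit 4) (.e (nat_lit 65630) (nat_lit 14) (.e (nat_lit 401438) (nat_lit 9) (.e (nat_lit 426540) (nat_lit 29) (.e (nat_lit 360192) (nat_lit 4) .nil))))) (.g (nat_lit 0) (.e (nat_lit 233567) (nat_lit 0) .nil) .nil))) 
(.lf (nat_lit 526192) (.g (nat_lit 2440) (.e (nat_lit 213030) (nat_lit 11) (.e (nat_lit 24661) (nat_lit 14) (.e (nat_lit 401454) (nat_lit 12) (.e (nat_lit 475209) (nat_lit 41) .nil)))) (.g (nat_lit 0) (.e (nat_lit 234195) (nat_lit 0) .nil) .nil))))) (.nd (nat_lit 8) (.nd (nat_lit 9) 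
(.lf (nat_lit 525552) (.g (nat_lit 4358) (.e (nat_lit 204885) (nat_lit 33) (.e (nat_lit 401448) (nat_lit 10) (.e (nat_lit 434231) (nat_lit 23) (.e (nat_lit 532523) (nat_lit 7) (.e (nat_lit 319538) (nat_lit 19) (.e (nat_lit 311314) (nat_lit 3) .nil)))))) (.g (nat_lit 1) (.e (nat_lit 233306) (nat_lit 0) .nil) .nil))) 
(.lf (nat_lit 526064) (.g (nat_lit 2154) (.e (nat_lit 213030) (nat_lit 11) (.e (nat_lit 24629) (nat_lit 9) (.e (nat_lit 336434) (nat_lit 30) (.e (nat_lit 450564) (nat_lit 0) (.e (nat_lit 5224) (nat_lit 296) (.e (nat_lit 163879) (nat_lit 4) .nil)))))) (.g (nat_lit 1) (.e (nat_lit 234042) (nat_lit 0) .nil) .nil)))) (.nd (nat_lit 9) 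
(.lf (nat_lit 525808) (.g (nat_lit 2480) (.e (nat_lit 213019) (nat_lit 9) (.e (nat_lit 2684) (nat_lit 168) (.e (nat_lit 204829) (nat_lit 18) (.e (nat_lit 57931) (nat_lit 282) (.e (nat_lit 163867) (nat_lit 2) .nil))))) (.g (nat_lit 0) (.e (nat_lit 233762) (nat_lit 0) .nil) .nil))) 
(.lf (nat_lit 526320) (.g (nat_lit 2819) (.e (nat_lit 213032) (nat_lit 11) (.e (nat_lit 24608) (nat_lit 3) (.e (nat_lit 98369) (nat_lit 28) (.e (nat_lit 442374) (nat_lit 0) (.e (nat_lit 1800) (nat_lit 119) (.e (nat_lit 516124) (nat_lit 2) .nil)))))) (.g (nat_lit 1) (.e (nat_lit 234490) (nat_lit 0) .nil) .nil))))))))) 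
(.nd (nat_lit 4) (.nd (nat_lit 5) (.nd (nat_lit 6) (.nd (nat_lit 7) (.nd (nat_lit 8) 
(.nd (nat_lit 9) 
(.lf (nat_lit 525320) (.g (nat_lit 3797) (.e (nat_lit 204882) (nat_lit 32) (.e (nat_lit 385068) (nat_lit 26) (.e (nat_lit 532501) (nat_lit 1) (.e (nat_lit 57852) (nat_lit 252) (.e (nat_lit 57361) (nat_lit 0) .nil))))) (.g (nat_lit 0) (.e (nat_lit 232739) (nat_lit 0) .nil) .nil))) 
(.lf (nat_lit 525832) (.g (nat_lit 1422) (.e (nat_lit 213030) (nat_lit 11) (.e (nat_lit 24605) (nat_lit 2) (.e (nat_lit 90176) (nat_lit 15) (.e (nat_lit 188418) (nat_lit 0) (.e (nat_lit 1800) (nat_lit 119) .nil))))) (.g (nat_lit 0) (.e (nat_lit 233792) (nat_lit 0) .nil) .nil)))) (.nd (nat_lit 9) 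
(.lf (nat_lit 525576) (.g (nat_lit 3927) (.e (nat_lit 204885) (nat_lit 33) (.e (nat_lit 401448) (nat_lit 10) (.e (nat_lit 434232) (nat_lit 23) (.e (nat_lit 532523) (nat_lit 7) (.e (nat_lit 319538) (nat_lit 19) (.e (nat_lit 311315) (nat_lit 3) .nil)))))) (.g (nat_lit 1) (.e (nat_lit 233330) (nat_lit 0) .nil) .nil))) 
(.lf (nat_lit 526088) (.g (nat_lit 2627) (.e (nat_lit 213030) (nat_lit 11) (.e (nat_lit 24630) (nat_lit 9) (.e (nat_lit 336443) (nat_lit 32) (.e (nat_lit 466971) (nat_lit 21) (.e (nat_lit 164326) (nat_lit 230) (.e (nat_lit 163881) (nat_lit 4) .nil)))))) (.g (nat_lit 1) (.e (nat_lit 234083) (nat_lit 0) .nil) .nil))))) (.nd (nat_lit 8) (.nd (nat_lit 9) 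
(.lf (nat_lit 525448) (.g (nat_lit 1848) (.e (nat_lit 204883) (nat_lit 33) (.e (nat_lit 401459) (nat_lit 13) (.e (nat_lit 483350) (nat_lit 17) (.e (nat_lit 2370) (nat_lit 154) .nil)))) (.g (nat_lit 0) (.e (nat_lit 232939) (nat_lit 0) .nil) .nil))) 
(.lf (nat_lit 525960) (.g (nat_lit 2594) (.e (nat_lit 213030) (nat_lit 11) (.e (nat_lit 24617) (nat_lit 7) (.e (nat_lit 319534) (nat_lit 16) (.e (nat_lit 286756) (nat_lit 10) (.e (nat_lit 344168) (nat_lit 40) (.e (nat_lit 671769) (nat_lit 9) (.e (nat_lit 2700) (nat_lit 169) .nil))))))) (.g (nat_lit 1) (.e (nat_lit 233935) (nat_lit 0) .nil) .nil)))) (.nd (nat_lit 9) 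
(.lf (nat_lit 525704) (.g (nat_lit 1826) (.e (nat_lit 220928) (nat_lit 5) (.e (nat_lit 73781) (nat_lit 32) (.e (nat_lit 3090) (nat_lit 191) (.e (nat_lit 483380) (nat_lit 23) (.e (nat_lit 343808) (nat_lit 19) .nil))))) (.g (nat_lit 0) (.e (nat_lit 233591) (nat_lit 0) .nil) .nil))) 
(.lf (nat_lit 526216) (.g (nat_lit 1241) (.e (nat_lit 213031) (nat_lit 11) (.e (nat_lit 24627) (nat_lit 9) (.e (nat_lit 336432) (nat_lit 30) (.e (nat_lit 450565) (nat_lit 0) .nil)))) (.g (nat_lit 0) (.e (nat_lit 234306) (nat_lit 0) .nil) .nil)))))) (.nd (nat_lit 7) (.nd (nat_lit 8) (.nd (nat_lit 9) 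
(.lf (nat_lit 525384) (.g (nat_lit 4840) (.e (nat_lit 204883) (nat_lit 33) (.e (nat_lit 401448) (nat_lit 10) (.e (nat_lit 434231) (nat_lit 23) (.e (nat_lit 532569) (nat_lit 16) (.e (nat_lit 401434) (nat_lit 9) (.e (nat_lit 426140) (nat_lit 3) .nil)))))) (.g (nat_lit 1) (.e (nat_lit 232820) (nat_lit 0) .nil) .nil))) 
(.lf (nat_lit 525896) (.g (nat_lit 2542) (.e (nat_lit 213030) (nat_lit 11) (.e (nat_lit 24617) (nat_lit 7) (.e (nat_lit 319531) (nat_lit 16) (.e (nat_lit 286759) (nat_lit 12) (.e (nat_lit 385092) (nat_lit 49) (.e (nat_lit 778336) (nat_lit 9) (.e (nat_lit 2700) (nat_lit 169) .nil))))))) (.g (nat_lit 1) (.e (nat_lit 233870) (nat_lit 0) .nil) .nil)))) (.nd (nat_lit 9) 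
(.lf (nat_lit 525640) (.g (nat_lit 4012) (.e (nat_lit 204885) (nat_lit 33) (.e (nat_lit 401451) (nat_lit 12) (.e (nat_lit 475185) (nat_lit 29) (.e (nat_lit 557107) (nat_lit 15) (.e (nat_lit 188452) (nat_lit 23) .nil))))) (.g (nat_lit 1) (.e (nat_lit 233500) (nat_lit 0) .nil) .nil))) 
(.lf (nat_lit 526152) (.g (nat_lit 2935) (.e (nat_lit 213030) (nat_lit 11) (.e (nat_lit 24659) (nat_lit 13) (.e (nat_lit 393281) (nat_lit 23) (.e (nat_lit 426100) (nat_lit 1) (.e (nat_lit 164332) (nat_lit 230) (.e (nat_lit 163880) (nat_lit 4) .nil)))))) (.g (nat_lit 1) (.e (nat_lit 234150) (nat_lit 0) .nil) .nil))))) (.nd (nat_lit 8) (.nd (nat_lit 9) 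
(.lf (nat_lit 525512) (.g (nat_lit 491) (.e (nat_lit 204885) (nat_lit 33) (.e (nat_lit 401437) (nat_lit 9) (.e (nat_lit 426402) (nat_lit 15) .nil))) (.g (nat_lit 0) (.e (nat_lit 233131) (nat_lit 0) .nil) .nil))) 
(.lf (nat_lit 526024) (.g (nat_lit 2481) (.e (nat_lit 213030) (nat_lit 11) (.e (nat_lit 24626) (nat_lit 9) (.e (nat_lit 336443) (nat_lit 32) (.e (nat_lit 466972) (nat_lit 21) (.e (nat_lit 164329) (nat_lit 230) (.e (nat_lit 163878) (nat_lit 4) .nil)))))) (.g (nat_lit 1) (.e (nat_lit 234001) (nat_lit 0) .nil) .nil)))) (.nd (nat_lit 9) 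
(.lf (nat_lit 525768) (.g (nat_lit 2644) (.e (nat_lit 220928) (nat_lit 6) (.e (nat_lit 81959) (nat_lit 24) (.e (nat_lit 123182) (nat_lit 264) (.e (nat_lit 1296) (nat_lit 96) (.e (nat_lit 131109) (nat_lit 9) .nil))))) (.g (nat_lit 0) (.e (nat_lit 233661) (nat_lit 0) .nil) .nil))) 
(.lf (nat_lit 526280) (.g (nat_lit 627) (.e (nat_lit 213032) (nat_lit 11) (.e (nat_lit 24607) (nat_lit 3) (.e (nat_lit 98362) (nat_lit 26) .nil))) (.g (nat_lit 0) (.e (nat_lit 234447) (nat_lit 0) .nil) .nil))))))) (.nd (nat_lit 6) (.nd (nat_lit 7) (.nd (nat_lit 8) (.nd (nat_lit 9) 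
(.lf (nat_lit 525352) (.g (nat_lit 2193) (.e (nat_lit 204882) (nat_lit 32) (.e (nat_lit 385068) (nat_lit 26) (.e (nat_lit 532535) (nat_lit 9) (.e (nat_lit 343808) (nat_lit 18) .nil)))) (.g (nat_lit 0) (.e (nat_lit 232774) (nat_lit 0) .nil) .nil))) 
(.lf (nat_lit 525864) (.g (nat_lit 2476) (.e (nat_lit 213030) (nat_lit 11) (.e (nat_lit 24608) (nat_lit 3) (.e (nat_lit 98381) (nat_lit 31) (.e (nat_lit 466947) (nat_lit 0) (.e (nat_lit 1800) (nat_lit 119) (.e (nat_lit 516126) (nat_lit 2) .nil)))))) (.g (nat_lit 1) (.e (nat_lit 233826) (nat_lit 0) .nil) .nil)))) (.nd (nat_lit 9) 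
(.lf (nat_lit 525608) (.g (nat_lit 2834) (.e (nat_lit 204885) (nat_lit 33) (.e (nat_lit 401448) (nat_lit 10) (.e (nat_lit 434245) (nat_lit 28) (.e (nat_lit 573471) (nat_lit 11) (.e (nat_lit 16444) (nat_lit 9) (.e (nat_lit 426129) (nat_lit 3) .nil)))))) (.g (nat_lit 1) (.e (nat_lit 233417) (nat_lit 0) .nil) .nil))) 
(.lf (nat_lit 526120) (.g (nat_lit 1195) (.e (nat_lit 213030) (nat_lit 11) (.e (nat_lit 24657) (nat_lit 13) (.e (nat_lit 393271) (nat_lit 23) (.e (nat_lit 426112) (nat_lit 1) .nil)))) (.g (nat_lit 0) (.e (nat_lit 234118) (nat_lit 0) .nil) .nil))))) (.nd (nat_lit 8) (.nd (nat_lit 9) 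
(.lf (nat_lit 525480) (.g (nat_lit 3405) (.e (nat_lit 204884) (nat_lit 33) (.e (nat_lit 401459) (nat_lit 13) (.e (nat_lit 483337) (nat_lit 9) (.e (nat_lit 426108) (nat_lit 1) (.e (nat_lit 164406) (nat_lit 258) .nil))))) (.g (nat_lit 0) (.e (nat_lit 233072) (nat_lit 0) .nil) .nil))) 
(.lf (nat_lit 525992) (.g (nat_lit 2538) (.e (nat_lit 213030) (nat_lit 11) (.e (nat_lit 24623) (nat_lit 9) (.e (nat_lit 336443) (nat_lit 32) (.e (nat_lit 466972) (nat_lit 21) (.e (nat_lit 164332) (nat_lit 230) .nil))))) (.g (nat_lit 0) (.e (nat_lit 233968) (nat_lit 0) .nil) .nil)))) (.nd (nat_lit 9) 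
(.lf (nat_lit 525736) (.g (nat_lit 599) (.e (nat_lit 220928) (nat_lit 6) (.e (nat_lit 81933) (nat_lit 20) (.e (nat_lit 1998) (nat_lit 137) (.e (nat_lit 663569) (nat_lit 6) (.e (nat_lit 89856) (nat_lit 4) .nil))))) (.g (nat_lit 0) (.e (nat_lit 233629) (nat_lit 0) .nil) .nil))) 
(.lf (nat_lit 526248) (.g (nat_lit 3571) (.e (nat_lit 213032) (nat_lit 11) (.e (nat_lit 24599) (nat_lit 1) (.e (nat_lit 57688) (nat_lit 156) (.e (nat_lit 163932) (nat_lit 17) (.e (nat_lit 466972) (nat_lit 21) (.e (nat_lit 164183) (nat_lit 154) (.e (nat_lit 65280) (nat_lit 65) .nil))))))) (.g (nat_lit 1) (.e (nat_lit 234396) (nat_lit 0) .nil) .nil)))))) 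
(.nd (nat_lit 7) (.nd (nat_lit 8) (.nd (nat_lit 9) 
(.lf (nat_lit 525416) (.g (nat_lit 2028) (.e (nat_lit 204883) (nat_lit 33) (.e (nat_lit 401457) (nat_lit 13) (.e (nat_lit 483341) (nat_lit 9) (.e (nat_lit 426009) (nat_lit 0) .nil)))) (.g (nat_lit 0) (.e (nat_lit 232891) (nat_lit 0) .nil) .nil))) 
(.lf (nat_lit 525928) (.g (nat_lit 3076) (.e (nat_lit 213030) (nat_lit 11) (.e (nat_lit 24617) (nat_lit 7) (.e (nat_lit 319533) (nat_lit 16) (.e (nat_lit 286753) (nat_lit 10) (.e (nat_lit 344169) (nat_lit 40) (.e (nat_lit 671774) (nat_lit 9) (.e (nat_lit 2698) (nat_lit 169) .nil))))))) (.g (nat_lit 1) (.e (nat_lit 233903) (nat_lit 0) .nil) .nil)))) (.nd (nat_lit 9) 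
(.lf (nat_lit 525672) (.g (nat_lit 695) (.e (nat_lit 220928) (nat_lit 4) (.e (nat_lit 65628) (nat_lit 14) (.e (nat_lit 401456) (nat_lit 13) .nil))) (.g (nat_lit 0) (.e (nat_lit 233559) (nat_lit 0) .nil) .nil))) 
(.lf (nat_lit 526184) (.g (nat_lit 2149) (.e (nat_lit 213030) (nat_lit 11) (.e (nat_lit 24660) (nat_lit 13) (.e (nat_lit 393284) (nat_lit 24) (.e (nat_lit 434209) (nat_lit 18) (.e (nat_lit 5223) (nat_lit 296) (.e (nat_lit 163882) (nat_lit 4) .nil)))))) (.g (nat_lit 1) (.e (nat_lit 234183) (nat_lit 0) .nil) .nil))))) (.nd (nat_lit 8) (.nd (nat_lit 9) 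
(.lf (nat_lit 525544) (.g (nat_lit 3092) (.e (nat_lit 204885) (nat_lit 33) (.e (nat_lit 401448) (nat_lit 10) (.e (nat_lit 434231) (nat_lit 23) (.e (nat_lit 532490) (nat_lit 0) (.e (nat_lit 6674) (nat_lit 357) (.e (nat_lit 2939) (nat_lit 184) (.e (nat_lit 426129) (nat_lit 3) .nil))))))) (.g (nat_lit 1) (.e (nat_lit 233298) (nat_lit 0) .nil) .nil))) 
(.lf (nat_lit 526056) (.g (nat_lit 2710) (.e (nat_lit 213030) (nat_lit 11) (.e (nat_lit 24628) (nat_lit 9) (.e (nat_lit 336443) (nat_lit 32) (.e (nat_lit 466971) (nat_lit 21) (.e (nat_lit 164326) (nat_lit 230) (.e (nat_lit 163882) (nat_lit 4) .nil)))))) (.g (nat_lit 1) (.e (nat_lit 234033) (nat_lit 0) .nil) .nil)))) (.nd (nat_lit 9) 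
(.lf (nat_lit 525800) (.g (nat_lit 1885) (.e (nat_lit 213022) (nat_lit 9) (.e (nat_lit 2681) (nat_lit 168) (.e (nat_lit 204829) (nat_lit 18) (.e (nat_lit 57927) (nat_lit 282) (.e (nat_lit 163871) (nat_lit 2) .nil))))) (.g (nat_lit 0) (.e (nat_lit 233740) (nat_lit 0) .nil) .nil))) 
(.lf (nat_lit 526312) (.g (nat_lit 1783) (.e (nat_lit 213032) (nat_lit 11) (.e (nat_lit 24608) (nat_lit 3) (.e (nat_lit 98365) (nat_lit 26) (.e (nat_lit 426188) (nat_lit 9) (.e (nat_lit 426438) (nat_lit 18) .nil))))) (.g (nat_lit 0) (.e (nat_lit 234481) (nat_lit 0) .nil) .nil)))))))) (.nd (nat_lit 5) (.nd (nat_lit 6) (.nd (nat_lit 7) (.nd (nat_lit 8) (.nd (nat_lit 9) 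
(.lf (nat_lit 525336) (.g (nat_lit 2926) (.e (nat_lit 204882) (nat_lit 32) (.e (nat_lit 385068) (nat_lit 26) (.e (nat_lit 532530) (nat_lit 9) (.e (nat_lit 336316) (nat_lit 17) (.e (nat_lit 196666) (nat_lit 13) (.e (nat_lit 73472) (nat_lit 18) .nil)))))) (.g (nat_lit 1) (.e (nat_lit 232757) (nat_lit 0) .nil) .nil))) 
(.lf (nat_lit 525848) (.g (nat_lit 709) (.e (nat_lit 213030) (nat_lit 11) (.e (nat_lit 24607) (nat_lit 3) (.e (nat_lit 98369) (nat_lit 28) .nil))) (.g (nat_lit 0) (.e (nat_lit 233808) (nat_lit 0) .nil) .nil)))) (.nd (nat_lit 9) 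
(.lf (nat_lit 525592) (.g (nat_lit 686) (.e (nat_lit 204885) (nat_lit 33) (.e (nat_lit 401448) (nat_lit 10) (.e (nat_lit 434234) (nat_lit 23) .nil))) (.g (nat_lit 0) (.e (nat_lit 233346) (nat_lit 0) .nil) .nil))) 
(.lf (nat_lit 526104) (.g (nat_lit 2163) (.e (nat_lit 213030) (nat_lit 11) (.e (nat_lit 24655) (nat_lit 13) (.e (nat_lit 393273) (nat_lit 23) (.e (nat_lit 426448) (nat_lit 20) (.e (nat_lit 122624) (nat_lit 4) .nil))))) (.g (nat_lit 1) (.e (nat_lit 234102) (nat_lit 0) .nil) .nil))))) (.nd (nat_lit 8) (.nd (nat_lit 9) 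
(.lf (nat_lit 525464) (.g (nat_lit 4848) (.e (nat_lit 204884) (nat_lit 33) (.e (nat_lit 401450) (nat_lit 12) (.e (nat_lit 475185) (nat_lit 29) (.e (nat_lit 557109) (nat_lit 15) (.e (nat_lit 188452) (nat_lit 23) .nil))))) (.g (nat_lit 1) (.e (nat_lit 233045) (nat_lit 0) .nil) .nil))) 
(.lf (nat_lit 525976) (.g (nat_lit 3414) (.e (nat_lit 213030) (nat_lit 11) (.e (nat_lit 24617) (nat_lit 7) (.e (nat_lit 319534) (nat_lit 16) (.e (nat_lit 286756) (nat_lit 10) (.e (nat_lit 344169) (nat_lit 40) (.e (nat_lit 671774) (nat_lit 9) (.e (nat_lit 2699) (nat_lit 169) .nil))))))) (.g (nat_lit 1) (.e (nat_lit 233951) (nat_lit 0) .nil) .nil)))) (.nd (nat_lit 9) 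
(.lf (nat_lit 525720) (.g (nat_lit 1537) (.e (nat_lit 220928) (nat_lit 5) (.e (nat_lit 73782) (nat_lit 32) (.e (nat_lit 3090) (nat_lit 191) (.e (nat_lit 483380) (nat_lit 23) (.e (nat_lit 343808) (nat_lit 19) .nil))))) (.g (nat_lit 0) (.e (nat_lit 233607) (nat_lit 0) .nil) .nil))) 
(.lf (nat_lit 526232) (.g (nat_lit 1186) (.e (nat_lit 213031) (nat_lit 11) (.e (nat_lit 24657) (nat_lit 13) (.e (nat_lit 393271) (nat_lit 23) (.e (nat_lit 426448) (nat_lit 20) .nil)))) (.g (nat_lit 0) (.e (nat_lit 234324) (nat_lit 0) .nil) .nil)))))) (.nd (nat_lit 7) (.nd (nat_lit 8) (.nd (nat_lit 9) 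
(.lf (nat_lit 525400) (.g (nat_lit 4209) (.e (nat_lit 204883) (nat_lit 33) (.e (nat_lit 401453) (nat_lit 12) (.e (nat_lit 475185) (nat_lit 29) (.e (nat_lit 557098) (nat_lit 13) (.e (nat_lit 172097) (nat_lit 9) (.e (nat_lit 426140) (nat_lit 3) .nil)))))) (.g (nat_lit 1) (.e (nat_lit 232850) (nat_lit 0) .nil) .nil))) 
(.lf (nat_lit 525912) (.g (nat_lit 1692) (.e (nat_lit 213030) (nat_lit 11) (.e (nat_lit 24617) (nat_lit 7) (.e (nat_lit 319533) (nat_lit 16) (.e (nat_lit 286752) (nat_lit 10) (.e (nat_lit 344169) (nat_lit 40) .nil))))) (.g (nat_lit 0) (.e (nat_lit 233887) (nat_lit 0) .nil) .nil)))) (.nd (nat_lit 9) 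
(.lf (nat_lit 525656) (.g (nat_lit 1879) (.e (nat_lit 212736) (nat_lit 33) (.e (nat_lit 401453) (nat_lit 12) (.e (nat_lit 475185) (nat_lit 29) (.e (nat_lit 557107) (nat_lit 15) .nil)))) (.g (nat_lit 0) (.e (nat_lit 233531) (nat_lit 0) .nil) .nil))) 
(.lf (nat_lit 526168) (.g (nat_lit 743) (.e (nat_lit 213030) (nat_lit 11) (.e (nat_lit 24660) (nat_lit 13) (.e (nat_lit 393274) (nat_lit 23) (.e (nat_lit 426097) (nat_lit 1) .nil)))) (.g (nat_lit 0) (.e (nat_lit 234166) (nat_lit 0) .nil) .nil))))) (.nd (nat_lit 8) (.nd (nat_lit 9) 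
(.lf (nat_lit 525528) (.g (nat_lit 1011) (.e (nat_lit 204885) (nat_lit 33) (.e (nat_lit 401448) (nat_lit 10) (.e (nat_lit 434220) (nat_lit 19) .nil))) (.g (nat_lit 0) (.e (nat_lit 233277) (nat_lit 0) .nil) .nil))) 
(.lf (nat_lit 526040) (.g (nat_lit 2653) (.e (nat_lit 213030) (nat_lit 11) (.e (nat_lit 24627) (nat_lit 9) (.e (nat_lit 336443) (nat_lit 32) (.e (nat_lit 466971) (nat_lit 21) (.e (nat_lit 164326) (nat_lit 230) (.e (nat_lit 163879) (nat_lit 4) .nil)))))) (.g (nat_lit 1) (.e (nat_lit 234017) (nat_lit 0) .nil) .nil)))) (.nd (nat_lit 9) 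
(.lf (nat_lit 525784) (.g (nat_lit 1373) (.e (nat_lit 213013) (nat_lit 9) (.e (nat_lit 2610) (nat_lit 163) (.e (nat_lit 164347) (nat_lit 240) (.e (nat_lit 2640) (nat_lit 165) .nil)))) (.g (nat_lit 0) (.e (nat_lit 233688) (nat_lit 0) .nil) .nil))) 
(.lf (nat_lit 526296) (.g (nat_lit 3613) (.e (nat_lit 213032) (nat_lit 11) (.e (nat_lit 24608) (nat_lit 3) (.e (nat_lit 98356) (nat_lit 26) (.e (nat_lit 426320) (nat_lit 12) (.e (nat_lit 475179) (nat_lit 24) (.e (nat_lit 516124) (nat_lit 2) .nil)))))) (.g (nat_lit 1) (.e (nat_lit 234464) (nat_lit 0) .nil) .nil))))))) (.nd (nat_lit 6) (.nd (nat_lit 7) (.nd (nat_lit 8) (.nd (nat_lit 9) 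
(.lf (nat_lit 525368) (.g (nat_lit 1622) (.e (nat_lit 204882) (nat_lit 32) (.e (nat_lit 385106) (nat_lit 50) (.e (nat_lit 786473) (nat_lit 27) (.e (nat_lit 336420) (nat_lit 28) .nil)))) (.g (nat_lit 0) (.e (nat_lit 232795) (nat_lit 0) .nil) .nil))) 
(.lf (nat_lit 525880) (.g (nat_lit 1056) (.e (nat_lit 213030) (nat_lit 11) (.e (nat_lit 24617) (nat_lit 7) (.e (nat_lit 319529) (nat_lit 16) (.e (nat_lit 286746) (nat_lit 9) .nil)))) (.g (nat_lit 0) (.e (nat_lit 233853) (nat_lit 0) .nil) .nil)))) (.nd (nat_lit 9) 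
(.lf (nat_lit 525624) (.g (nat_lit 3521) (.e (nat_lit 204885) (nat_lit 33) (.e (nat_lit 401448) (nat_lit 10) (.e (nat_lit 434248) (nat_lit 28) (.e (nat_lit 573471) (nat_lit 11) (.e (nat_lit 16444) (nat_lit 9) (.e (nat_lit 426129) (nat_lit 3) .nil)))))) (.g (nat_lit 1) (.e (nat_lit 233462) (nat_lit 0) .nil) .nil))) 
(.lf (nat_lit 526136) (.g (nat_lit 2693) (.e (nat_lit 213030) (nat_lit 11) (.e (nat_lit 24658) (nat_lit 13) (.e (nat_lit 393281) (nat_lit 23) (.e (nat_lit 426098) (nat_lit 1) (.e (nat_lit 164327) (nat_lit 230) (.e (nat_lit 163881) (nat_lit 4) .nil)))))) (.g (nat_lit 1) (.e (nat_lit 234134) (nat_lit 0) .nil) .nil))))) (.nd (nat_lit 8) (.nd (nat_lit 9) 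
(.lf (nat_lit 525496) (.g (nat_lit 2635) (.e (nat_lit 204885) (nat_lit 33) (.e (nat_lit 401434) (nat_lit 9) (.e (nat_lit 426125) (nat_lit 2) (.e (nat_lit 196661) (nat_lit 12) (.e (nat_lit 57711) (nat_lit 176) (.e (nat_lit 1376) (nat_lit 104) (.e (nat_lit 303119) (nat_lit 3) .nil))))))) (.g (nat_lit 1) (.e (nat_lit 233099) (nat_lit 0) .nil) .nil))) 
(.lf (nat_lit 526008) (.g (nat_lit 1955) (.e (nat_lit 213030) (nat_lit 11) (.e (nat_lit 24625) (nat_lit 9) (.e (nat_lit 336443) (nat_lit 32) (.e (nat_lit 466971) (nat_lit 21) (.e (nat_lit 164329) (nat_lit 230) .nil))))) (.g (nat_lit 0) (.e (nat_lit 233985) (nat_lit 0) .nil) .nil)))) (.nd (nat_lit 9) 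
(.lf (nat_lit 525752) (.g (nat_lit 902) (.e (nat_lit 220928) (nat_lit 6) (.e (nat_lit 81946) (nat_lit 20) (.e (nat_lit 2006) (nat_lit 138) (.e (nat_lit 671764) (nat_lit 6) (.e (nat_lit 89856) (nat_lit 4) .nil))))) (.g (nat_lit 0) (.e (nat_lit 233645) (nat_lit 0) .nil) .nil))) 
(.lf (nat_lit 526264) (.g (nat_lit 2784) (.e (nat_lit 213032) (nat_lit 11) (.e (nat_lit 24604) (nat_lit 2) (.e (nat_lit 90178) (nat_lit 15) (.e (nat_lit 188418) (nat_lit 0) (.e (nat_lit 1800) (nat_lit 119) (.e (nat_lit 516124) (nat_lit 2) .nil)))))) (.g (nat_lit 1) (.e (nat_lit 234426) (nat_lit 0) .nil) .nil)))))) (.nd (nat_lit 7) (.nd (nat_lit 8) (.nd (nat_lit 9) 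
(.lf (nat_lit 525432) (.g (nat_lit 1006) (.e (nat_lit 204883) (nat_lit 33) (.e (nat_lit 401459) (nat_lit 13) (.e (nat_lit 483337) (nat_lit 9) .nil))) (.g (nat_lit 0) (.e (nat_lit 232915) (nat_lit 0) .nil) .nil))) 
(.lf (nat_lit 525944) (.g (nat_lit 2151) (.e (nat_lit 213030) (nat_lit 11) (.e (nat_lit 24617) (nat_lit 7) (.e (nat_lit 319534) (nat_lit 16) (.e (nat_lit 286749) (nat_lit 9) (.e (nat_lit 343808) (nat_lit 20) .nil))))) (.g (nat_lit 0) (.e (nat_lit 233919) (nat_lit 0) .nil) .nil)))) (.nd (nat_lit 9) 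
(.lf (nat_lit 525688) (.g (nat_lit 1596) (.e (nat_lit 220928) (nat_lit 4) (.e (nat_lit 65630) (nat_lit 14) (.e (nat_lit 401457) (nat_lit 13) (.e (nat_lit 483382) (nat_lit 23) .nil)))) (.g (nat_lit 0) (.e (nat_lit 233575) (nat_lit 0) .nil) .nil))) 
(.lf (nat_lit 526200) (.g (nat_lit 1834) (.e (nat_lit 213031) (nat_lit 11) (.e (nat_lit 24607) (nat_lit 3) (.e (nat_lit 98365) (nat_lit 26) (.e (nat_lit 426306) (nat_lit 12) (.e (nat_lit 475175) (nat_lit 24) .nil))))) (.g (nat_lit 0) (.e (nat_lit 234290) (nat_lit 0) .nil) .nil))))) (.nd (nat_lit 8) (.nd (nat_lit 9) 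
(.lf (nat_lit 525560) (.g (nat_lit 2405) (.e (nat_lit 204885) (nat_lit 33) (.e (nat_lit 401448) (nat_lit 10) (.e (nat_lit 434231) (nat_lit 23) (.e (nat_lit 532568) (nat_lit 16) (.e (nat_lit 401436) (nat_lit 9) .nil))))) (.g (nat_lit 0) (.e (nat_lit 233314) (nat_lit 0) .nil) .nil))) 
(.lf (nat_lit 526072) (.g (nat_lit 1608) (.e (nat_lit 213030) (nat_lit 11) (.e (nat_lit 24629) (nat_lit 9) (.e (nat_lit 336443) (nat_lit 32) (.e (nat_lit 466971) (nat_lit 21) (.e (nat_lit 164329) (nat_lit 230) .nil))))) (.g (nat_lit 0) (.e (nat_lit 234050) (nat_lit 0) .nil) .nil)))) (.nd (nat_lit 9) 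
(.lf (nat_lit 525816) (.g (nat_lit 1567) (.e (nat_lit 213030) (nat_lit 11) (.e (nat_lit 24602) (nat_lit 2) (.e (nat_lit 90185) (nat_lit 17) (.e (nat_lit 237618) (nat_lit 12) .nil)))) (.g (nat_lit 0) (.e (nat_lit 233776) (nat_lit 0) .nil) .nil))) 
(.lf (nat_lit 526328) (.g (nat_lit 1348) (.e (nat_lit 213032) (nat_lit 11) (.e (nat_lit 24608) (nat_lit 3) (.e (nat_lit 98373) (nat_lit 29) (.e (nat_lit 458496) (nat_lit 8) .nil)))) (.g (nat_lit 0) (.e (nat_lit 234514) (nat_lit 0) .nil) .nil)))))))))) (.nd (nat_lit 3) (.nd (nat_lit 4) (.nd (nat_lit 5) (.nd (nat_lit 6) (.nd (nat_lit 7) (.nd (nat_lit 8) (.nd (nat_lit 9) 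
(.lf (nat_lit 525316) (.g (nat_lit 3646) (.e (nat_lit 204882) (nat_lit 32) (.e (nat_lit 385068) (nat_lit 26) (.e (nat_lit 532499) (nat_lit 1) (.e (nat_lit 57847) (nat_lit 252) (.e (nat_lit 57348) (nat_lit 0) .nil))))) (.g (nat_lit 0) (.e (nat_lit 232735) (nat_lit 0) .nil) .nil))) 
(.lf (nat_lit 525828) (.g (nat_lit 2535) (.e (nat_lit 213030) (nat_lit 11) (.e (nat_lit 24605) (nat_lit 2) (.e (nat_lit 90169) (nat_lit 13) (.e (nat_lit 172119) (nat_lit 12) (.e (nat_lit 475179) (nat_lit 24) (.e (nat_lit 516127) (nat_lit 2) .nil)))))) (.g (nat_lit 1) (.e (nat_lit 233788) (nat_lit 0) .nil) .nil)))) (.nd (nat_lit 9) 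
(.lf (nat_lit 525572) (.g (nat_lit 2945) (.e (nat_lit 204885) (nat_lit 33) (.e (nat_lit 401448) (nat_lit 10) (.e (nat_lit 434232) (nat_lit 23) (.e (nat_lit 532522) (nat_lit 7) (.e (nat_lit 319538) (nat_lit 19) (.e (nat_lit 311315) (nat_lit 3) .nil)))))) (.g (nat_lit 1) (.e (nat_lit 233326) (nat_lit 0) .nil) .nil))) 
(.lf (nat_lit 526084) (.g (nat_lit 2773) (.e (nat_lit 213030) (nat_lit 11) (.e (nat_lit 24630) (nat_lit 9) (.e (nat_lit 336443) (nat_lit 32) (.e (nat_lit 466971) (nat_lit 21) (.e (nat_lit 164325) (nat_lit 230) (.e (nat_lit 163879) (nat_lit 4) .nil)))))) (.g (nat_lit 1) (.e (nat_lit 234079) (nat_lit 0) .nil) .nil))))) (.nd (nat_lit 8) (.nd (nat_lit 9) 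
(.lf (nat_lit 525444) (.g (nat_lit 1544) (.e (nat_lit 204883) (nat_lit 33) (.e (nat_lit 401459) (nat_lit 13) (.e (nat_lit 483344) (nat_lit 17) (.e (nat_lit 2373) (nat_lit 154) .nil)))) (.g (nat_lit 0) (.e (nat_lit 232929) (nat_lit 0) .nil) .nil))) 
(.lf (nat_lit 525956) (.g (nat_lit 2508) (.e (nat_lit 213030) (nat_lit 11) (.e (nat_lit 24617) (nat_lit 7) (.e (nat_lit 319534) (nat_lit 16) (.e (nat_lit 286756) (nat_lit 10) (.e (nat_lit 352000) (nat_lit 39) (.e (nat_lit 663580) (nat_lit 9) (.e (nat_lit 2698) (nat_lit 169) .nil))))))) (.g (nat_lit 1) (.e (nat_lit 233931) (nat_lit 0) .nil) .nil)))) (.nd (nat_lit 9) 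
(.lf (nat_lit 525700) (.g (nat_lit 972) (.e (nat_lit 220928) (nat_lit 5) (.e (nat_lit 73781) (nat_lit 32) (.e (nat_lit 3088) (nat_lit 191) (.e (nat_lit 483384) (nat_lit 23) .nil)))) (.g (nat_lit 0) (.e (nat_lit 233587) (nat_lit 0) .nil) .nil))) 
(.lf (nat_lit 526212) (.g (nat_lit 1137) (.e (nat_lit 213031) (nat_lit 11) (.e (nat_lit 24624) (nat_lit 9) (.e (nat_lit 336443) (nat_lit 32) (.e (nat_lit 466972) (nat_lit 21) .nil)))) (.g (nat_lit 0) (.e (nat_lit 234302) (nat_lit 0) .nil) .nil)))))) (.nd (nat_lit 7) (.nd (nat_lit 8) (.nd (nat_lit 9) 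
(.lf (nat_lit 525380) (.g (nat_lit 2406) (.e (nat_lit 204883) (nat_lit 33) (.e (nat_lit 401434) (nat_lit 9) (.e (nat_lit 426140) (nat_lit 3) (.e (nat_lit 204885) (nat_lit 33) (.e (nat_lit 401434) (nat_lit 9) (.e (nat_lit 426140) (nat_lit 3) .nil)))))) (.g (nat_lit 1) (.e (nat_lit 232813) (nat_lit 0) .nil) .nil))) 
(.lf (nat_lit 525892) (.g (nat_lit 2978) (.e (nat_lit 213030) (nat_lit 11) (.e (nat_lit 24617) (nat_lit 7) (.e (nat_lit 319530) (nat_lit 16) (.e (nat_lit 286759) (nat_lit 12) (.e (nat_lit 385107) (nat_lit 51) (.e (nat_lit 794677) (nat_lit 24) .nil)))))) (.g (nat_lit 1) (.e (nat_lit 233866) (nat_lit 0) .nil) .nil)))) (.nd (nat_lit 9) 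
(.lf (nat_lit 525636) (.g (nat_lit 4286) (.e (nat_lit 204885) (nat_lit 33) (.e (nat_lit 401451) (nat_lit 12) (.e (nat_lit 475184) (nat_lit 29) (.e (nat_lit 557107) (nat_lit 15) (.e (nat_lit 188452) (nat_lit 23) .nil))))) (.g (nat_lit 1) (.e (nat_lit 233493) (nat_lit 0) .nil) .nil))) 
(.lf (nat_lit 526148) (.g (nat_lit 169) (.e (nat_lit 213030) (nat_lit 11) (.e (nat_lit 24659) (nat_lit 13) (.e (nat_lit 393277) (nat_lit 23) .nil))) (.g (nat_lit 0) (.e (nat_lit 234146) (nat_lit 0) .nil) .nil))))) (.nd (nat_lit 8) (.nd (nat_lit 9) 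
(.lf (nat_lit 525508) (.g (nat_lit 3288) (.e (nat_lit 204885) (nat_lit 33) (.e (nat_lit 401434) (nat_lit 9) (.e (nat_lit 426140) (nat_lit 3) (.e (nat_lit 204846) (nat_lit 24) (.e (nat_lit 319505) (nat_lit 10) (.e (nat_lit 5714) (nat_lit 312) (.e (nat_lit 2681) (nat_lit 168) .nil))))))) (.g (nat_lit 1) (.e (nat_lit 233124) (nat_lit 0) .nil) .nil))) 
(.lf (nat_lit 526020) (.g (nat_lit 2680) (.e (nat_lit 213030) (nat_lit 11) (.e (nat_lit 24626) (nat_lit 9) (.e (nat_lit 336443) (nat_lit 32) (.e (nat_lit 466971) (nat_lit 21) (.e (nat_lit 164325) (nat_lit 230) (.e (nat_lit 163881) (nat_lit 4) .nil)))))) (.g (nat_lit 1) (.e (nat_lit 233997) (nat_lit 0) .nil) .nil)))) (.nd (nat_lit 9) 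
(.lf (nat_lit 525764) (.g (nat_lit 2050) (.e (nat_lit 220928) (nat_lit 6) (.e (nat_lit 81959) (nat_lit 24) (.e (nat_lit 123182) (nat_lit 264) (.e (nat_lit 1068) (nat_lit 81) .nil)))) (.g (nat_lit 0) (.e (nat_lit 233657) (nat_lit 0) .nil) .nil))) 
(.lf (nat_lit 526276) (.g (nat_lit 1428) (.e (nat_lit 213032) (nat_lit 11) (.e (nat_lit 24605) (nat_lit 2) (.e (nat_lit 90170) (nat_lit 13) (.e (nat_lit 172092) (nat_lit 9) .nil)))) (.g (nat_lit 0) (.e (nat_lit 234443) (nat_lit 0) .nil) .nil))))))) (.nd (nat_lit 6) (.nd (nat_lit 7) (.nd (nat_lit 8) (.nd (nat_lit 9) 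
(.lf (nat_lit 525348) (.g (nat_lit 2366) (.e (nat_lit 204882) (nat_lit 32) (.e (nat_lit 385068) (nat_lit 26) (.e (nat_lit 532534) (nat_lit 9) (.e (nat_lit 336316) (nat_lit 17) (.e (nat_lit 196664) (nat_lit 13) (.e (nat_lit 73472) (nat_lit 18) .nil)))))) (.g (nat_lit 1) (.e (nat_lit 232769) (nat_lit 0) .nil) .nil))) 
(.lf (nat_lit 525860) (.g (nat_lit 1020) (.e (nat_lit 213030) (nat_lit 11) (.e (nat_lit 24608) (nat_lit 3) (.e (nat_lit 98371) (nat_lit 28) (.e (nat_lit 450304) (nat_lit 3) .nil)))) (.g (nat_lit 0) (.e (nat_lit 233821) (nat_lit 0) .nil) .nil)))) (.nd (nat_lit 9) 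
(.lf (nat_lit 525604) (.g (nat_lit 359) (.e (nat_lit 204885) (nat_lit 33) (.e (nat_lit 401448) (nat_lit 10) (.e (nat_lit 434245) (nat_lit 28) .nil))) (.g (nat_lit 0) (.e (nat_lit 233398) (nat_lit 0) .nil) .nil))) 
(.lf (nat_lit 526116) (.g (nat_lit 2371) (.e (nat_lit 213030) (nat_lit 11) (.e (nat_lit 24656) (nat_lit 13) (.e (nat_lit 393281) (nat_lit 23) (.e (nat_lit 426100) (nat_lit 1) (.e (nat_lit 164330) (nat_lit 230) (.e (nat_lit 163880) (nat_lit 4) .nil)))))) (.g (nat_lit 1) (.e (nat_lit 234114) (nat_lit 0) .nil) .nil))))) (.nd (nat_lit 8) (.nd (nat_lit 9) 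
(.lf (nat_lit 525476) (.g (nat_lit 567) (.e (nat_lit 204884) (nat_lit 33) (.e (nat_lit 401458) (nat_lit 13) (.e (nat_lit 483350) (nat_lit 17) .nil))) (.g (nat_lit 0) (.e (nat_lit 233067) (nat_lit 0) .nil) .nil))) 
(.lf (nat_lit 525988) (.g (nat_lit 1705) (.e (nat_lit 213030) (nat_lit 11) (.e (nat_lit 24623) (nat_lit 9) (.e (nat_lit 336443) (nat_lit 32) (.e (nat_lit 466971) (nat_lit 21) .nil)))) (.g (nat_lit 0) (.e (nat_lit 233964) (nat_lit 0) .nil) .nil)))) (.nd (nat_lit 9) 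
(.lf (nat_lit 525732) (.g (nat_lit 1473) (.e (nat_lit 220928) (nat_lit 6) (.e (nat_lit 81924) (nat_lit 0) (.e (nat_lit 3747) (nat_lit 228) (.e (nat_lit 786480) (nat_lit 29) (.e (nat_lit 360192) (nat_lit 4) .nil))))) (.g (nat_lit 0) (.e (nat_lit 233624) (nat_lit 0) .nil) .nil))) 
(.lf (nat_lit 526244) (.g (nat_lit 2612) (.e (nat_lit 213031) (nat_lit 11) (.e (nat_lit 24665) (nat_lit 14) (.e (nat_lit 401460) (nat_lit 14) (.e (nat_lit 491565) (nat_lit 12) .nil)))) (.g (nat_lit 0) (.e (nat_lit 234381) (nat_lit 0) .nil) .nil)))))) (.nd (nat_lit 7) (.nd (nat_lit 8) (.nd (nat_lit 9) 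
(.lf (nat_lit 525412) (.g (nat_lit 4195) (.e (nat_lit 204883) (nat_lit 33) (.e (nat_lit 401454) (nat_lit 12) (.e (nat_lit 475185) (nat_lit 29) (.e (nat_lit 557101) (nat_lit 13) (.e (nat_lit 172097) (nat_lit 9) (.e (nat_lit 426140) (nat_lit 3) .nil)))))) (.g (nat_lit 1) (.e (nat_lit 232885) (nat_lit 0) .nil) .nil))) 
(.lf (nat_lit 525924) (.g (nat_lit 3350) (.e (nat_lit 213030) (nat_lit 11) (.e (nat_lit 24617) (nat_lit 7) (.e (nat_lit 319533) (nat_lit 16) (.e (nat_lit 286753) (nat_lit 10) (.e (nat_lit 344169) (nat_lit 40) (.e (nat_lit 671770) (nat_lit 9) (.e (nat_lit 2686) (nat_lit 169) .nil))))))) (.g (nat_lit 1) (.e (nat_lit 233899) (nat_lit 0) .nil) .nil)))) (.nd (nat_lit 9) 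
(.lf (nat_lit 525668) (.g (nat_lit 1707) (.e (nat_lit 220928) (nat_lit 4) (.e (nat_lit 65628) (nat_lit 14) (.e (nat_lit 401437) (nat_lit 9) (.e (nat_lit 426542) (nat_lit 29) (.e (nat_lit 360192) (nat_lit 4) .nil))))) (.g (nat_lit 0) (.e (nat_lit 233555) (nat_lit 0) .nil) .nil))) 
(.lf (nat_lit 526180) (.g (nat_lit 2287) (.e (nat_lit 213030) (nat_lit 11) (.e (nat_lit 24660) (nat_lit 13) (.e (nat_lit 393283) (nat_lit 24) (.e (nat_lit 434209) (nat_lit 18) (.e (nat_lit 5224) (nat_lit 296) (.e (nat_lit 163881) (nat_lit 4) .nil)))))) (.g (nat_lit 1) (.e (nat_lit 234178) (nat_lit 0) .nil) .nil))))) (.nd (nat_lit 8) (.nd (nat_lit 9) 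
(.lf (nat_lit 525540) (.g (nat_lit 1182) (.e (nat_lit 204885) (nat_lit 33) (.e (nat_lit 401448) (nat_lit 10) (.e (nat_lit 434231) (nat_lit 23) (.e (nat_lit 532490) (nat_lit 0) .nil)))) (.g (nat_lit 0) (.e (nat_lit 233294) (nat_lit 0) .nil) .nil))) 
(.lf (nat_lit 526052) (.g (nat_lit 3035) (.e (nat_lit 213030) (nat_lit 11) (.e (nat_lit 24628) (nat_lit 9) (.e (nat_lit 336443) (nat_lit 32) (.e (nat_lit 466969) (nat_lit 21) (.e (nat_lit 164327) (nat_lit 230) (.e (nat_lit 163879) (nat_lit 4) .nil)))))) (.g (nat_lit 1) (.e (nat_lit 234029) (nat_lit 0) .nil) .nil)))) (.nd (nat_lit 9) 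
(.lf (nat_lit 525796) (.g (nat_lit 2003) (.e (nat_lit 213022) (nat_lit 9) (.e (nat_lit 2610) (nat_lit 163) (.e (nat_lit 164345) (nat_lit 240) (.e (nat_lit 2638) (nat_lit 165) (.e (nat_lit 188160) (nat_lit 38) .nil))))) (.g (nat_lit 0) (.e (nat_lit 233723) (nat_lit 0) .nil) .nil))) 
(.lf (nat_lit 526308) (.g (nat_lit 2037) (.e (nat_lit 213032) (nat_lit 11) (.e (nat_lit 24608) (nat_lit 3) (.e (nat_lit 98365) (nat_lit 26) (.e (nat_lit 426187) (nat_lit 9) (.e (nat_lit 426436) (nat_lit 18) (.e (nat_lit 106240) (nat_lit 19) .nil)))))) (.g (nat_lit 1) (.e (nat_lit 234477) (nat_lit 0) .nil) .nil)))))))) 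
(.nd (nat_lit 5) (.nd (nat_lit 6) (.nd (nat_lit 7) (.nd (nat_lit 8) (.nd (nat_lit 9) 
(.lf (nat_lit 525332) (.g (nat_lit 2362) (.e (nat_lit 204882) (nat_lit 32) (.e (nat_lit 385068) (nat_lit 26) (.e (nat_lit 532530) (nat_lit 9) (.e (nat_lit 336316) (nat_lit 17) (.e (nat_lit 196662) (nat_lit 13) .nil))))) (.g (nat_lit 0) (.e (nat_lit 232753) (nat_lit 0) .nil) .nil))) 
(.lf (nat_lit 525844) (.g (nat_lit 2782) (.e (nat_lit 213030) (nat_lit 11) (.e (nat_lit 24607) (nat_lit 3) (.e (nat_lit 98365) (nat_lit 26) (.e (nat_lit 426306) (nat_lit 12) (.e (nat_lit 475177) (nat_lit 24) (.e (nat_lit 516127) (nat_lit 2) .nil)))))) (.g (nat_lit 1) (.e (nat_lit 233804) (nat_lit 0) .nil) .nil)))) (.nd (nat_lit 9) 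
(.lf (nat_lit 525588) (.g (nat_lit 2339) (.e (nat_lit 204885) (nat_lit 33) (.e (nat_lit 401448) (nat_lit 10) (.e (nat_lit 434232) (nat_lit 23) (.e (nat_lit 532568) (nat_lit 16) (.e (nat_lit 401442) (nat_lit 9) (.e (nat_lit 426135) (nat_lit 3) .nil)))))) (.g (nat_lit 1) (.e (nat_lit 233342) (nat_lit 0) .nil) .nil))) 
(.lf (nat_lit 526100) (.g (nat_lit 2807) (.e (nat_lit 213030) (nat_lit 11) (.e (nat_lit 24654) (nat_lit 13) (.e (nat_lit 393294) (nat_lit 26) (.e (nat_lit 475214) (nat_lit 42) (.e (nat_lit 728832) (nat_lit 4) .nil))))) (.g (nat_lit 1) (.e (nat_lit 234098) (nat_lit 0) .nil) .nil))))) (.nd (nat_lit 8) (.nd (nat_lit 9) 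
(.lf (nat_lit 525460) (.g (nat_lit 824) (.e (nat_lit 204884) (nat_lit 33) (.e (nat_lit 401448) (nat_lit 10) (.e (nat_lit 434232) (nat_lit 23) .nil))) (.g (nat_lit 0) (.e (nat_lit 232988) (nat_lit 0) .nil) .nil))) 
(.lf (nat_lit 525972) (.g (nat_lit 2593) (.e (nat_lit 213030) (nat_lit 11) (.e (nat_lit 24617) (nat_lit 7) (.e (nat_lit 319534) (nat_lit 16) (.e (nat_lit 286756) (nat_lit 10) (.e (nat_lit 344169) (nat_lit 40) (.e (nat_lit 671771) (nat_lit 9) (.e (nat_lit 2700) (nat_lit 169) .nil))))))) (.g (nat_lit 1) (.e (nat_lit 233947) (nat_lit 0) .nil) .nil)))) (.nd (nat_lit 9) 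
(.lf (nat_lit 525716) (.g (nat_lit 1084) (.e (nat_lit 220928) (nat_lit 5) (.e (nat_lit 73782) (nat_lit 32) (.e (nat_lit 3088) (nat_lit 191) (.e (nat_lit 483379) (nat_lit 23) .nil)))) (.g (nat_lit 0) (.e (nat_lit 233603) (nat_lit 0) .nil) .nil))) 
(.lf (nat_lit 526228) (.g (nat_lit 763) (.e (nat_lit 213031) (nat_lit 11) (.e (nat_lit 24657) (nat_lit 13) (.e (nat_lit 393268) (nat_lit 23) .nil))) (.g (nat_lit 0) (.e (nat_lit 234320) (nat_lit 0) .nil) .nil)))))) (.nd (nat_lit 7) (.nd (nat_lit 8) (.nd (nat_lit 9) 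
(.lf (nat_lit 525396) (.g (nat_lit 3896) (.e (nat_lit 204883) (nat_lit 33) (.e (nat_lit 401453) (nat_lit 12) (.e (nat_lit 475183) (nat_lit 29) (.e (nat_lit 557108) (nat_lit 15) (.e (nat_lit 188452) (nat_lit 23) .nil))))) (.g (nat_lit 1) (.e (nat_lit 232846) (nat_lit 0) .nil) .nil))) 
(.lf (nat_lit 525908) (.g (nat_lit 2412) (.e (nat_lit 213030) (nat_lit 11) (.e (nat_lit 24617) (nat_lit 7) (.e (nat_lit 319533) (nat_lit 16) (.e (nat_lit 286748) (nat_lit 9) (.e (nat_lit 343808) (nat_lit 20) .nil))))) (.g (nat_lit 0) (.e (nat_lit 233883) (nat_lit 0) .nil) .nil)))) (.nd (nat_lit 9) 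
(.lf (nat_lit 525652) (.g (nat_lit 1551) (.e (nat_lit 212736) (nat_lit 33) (.e (nat_lit 401452) (nat_lit 12) (.e (nat_lit 475185) (nat_lit 29) (.e (nat_lit 557107) (nat_lit 15) .nil)))) (.g (nat_lit 0) (.e (nat_lit 233527) (nat_lit 0) .nil) .nil))) 
(.lf (nat_lit 526164) (.g (nat_lit 2281) (.e (nat_lit 213030) (nat_lit 11) (.e (nat_lit 24660) (nat_lit 13) (.e (nat_lit 393271) (nat_lit 23) (.e (nat_lit 426112) (nat_lit 1) (.e (nat_lit 164326) (nat_lit 230) (.e (nat_lit 163879) (nat_lit 4) .nil)))))) (.g (nat_lit 1) (.e (nat_lit 234162) (nat_lit 0) .nil) .nil))))) (.nd (nat_lit 8) (.nd (nat_lit 9) 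
(.lf (nat_lit 525524) (.g (nat_lit 4189) (.e (nat_lit 204885) (nat_lit 33) (.e (nat_lit 401446) (nat_lit 10) (.e (nat_lit 434233) (nat_lit 23) (.e (nat_lit 532523) (nat_lit 7) (.e (nat_lit 319538) (nat_lit 19) (.e (nat_lit 311315) (nat_lit 3) .nil)))))) (.g (nat_lit 1) (.e (nat_lit 233171) (nat_lit 0) .nil) .nil))) 
(.lf (nat_lit 526036) (.g (nat_lit 2908) (.e (nat_lit 213030) (nat_lit 11) (.e (nat_lit 24627) (nat_lit 9) (.e (nat_lit 336443) (nat_lit 32) (.e (nat_lit 466969) (nat_lit 21) (.e (nat_lit 164327) (nat_lit 230) (.e (nat_lit 163882) (nat_lit 4) .nil)))))) (.g (nat_lit 1) (.e (nat_lit 234013) (nat_lit 0) .nil) .nil)))) (.nd (nat_lit 9) 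
(.lf (nat_lit 525780) (.g (nat_lit 1842) (.e (nat_lit 213010) (nat_lit 9) (.e (nat_lit 2663) (nat_lit 167) (.e (nat_lit 196656) (nat_lit 11) (.e (nat_lit 16448) (nat_lit 10) .nil)))) (.g (nat_lit 0) (.e (nat_lit 233683) (nat_lit 0) .nil) .nil))) 
(.lf (nat_lit 526292) (.g (nat_lit 944) (.e (nat_lit 213032) (nat_lit 11) (.e (nat_lit 24608) (nat_lit 3) (.e (nat_lit 98355) (nat_lit 26) .nil))) (.g (nat_lit 0) (.e (nat_lit 234460) (nat_lit 0) .nil) .nil))))))) (.nd (nat_lit 6) (.nd (nat_lit 7) (.nd (nat_lit 8) (.nd (nat_lit 9) 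
(.lf (nat_lit 525364) (.g (nat_lit 635) (.e (nat_lit 204882) (nat_lit 32) (.e (nat_lit 385105) (nat_lit 50) (.e (nat_lit 786473) (nat_lit 27) .nil))) (.g (nat_lit 0) (.e (nat_lit 232791) (nat_lit 0) .nil) .nil))) 
(.lf (nat_lit 525876) (.g (nat_lit 1704) (.e (nat_lit 213030) (nat_lit 11) (.e (nat_lit 24617) (nat_lit 7) (.e (nat_lit 319528) (nat_lit 16) (.e (nat_lit 286748) (nat_lit 9) (.e (nat_lit 343808) (nat_lit 20) .nil))))) (.g (nat_lit 0) (.e (nat_lit 233849) (nat_lit 0) .nil) .nil)))) (.nd (nat_lit 9) 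
(.lf (nat_lit 525620) (.g (nat_lit 1713) (.e (nat_lit 204885) (nat_lit 33) (.e (nat_lit 401448) (nat_lit 10) (.e (nat_lit 434248) (nat_lit 28) (.e (nat_lit 573470) (nat_lit 11) .nil)))) (.g (nat_lit 0) (.e (nat_lit 233458) (nat_lit 0) .nil) .nil))) 
(.lf (nat_lit 526132) (.g (nat_lit 2291) (.e (nat_lit 213030) (nat_lit 11) (.e (nat_lit 24657) (nat_lit 13) (.e (nat_lit 393294) (nat_lit 26) (.e (nat_lit 475212) (nat_lit 42) (.e (nat_lit 728832) (nat_lit 4) .nil))))) (.g (nat_lit 1) (.e (nat_lit 234130) (nat_lit 0) .nil) .nil))))) (.nd (nat_lit 8) (.nd (nat_lit 9) 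
(.lf (nat_lit 525492) (.g (nat_lit 2091) (.e (nat_lit 204884) (nat_lit 33) (.e (nat_lit 401460) (nat_lit 14) (.e (nat_lit 491537) (nat_lit 2) (.e (nat_lit 90176) (nat_lit 15) (.e (nat_lit 188450) (nat_lit 23) .nil))))) (.g (nat_lit 0) (.e (nat_lit 233092) (nat_lit 0) .nil) .nil))) 
(.lf (nat_lit 526004) (.g (nat_lit 2563) (.e (nat_lit 213030) (nat_lit 11) (.e (nat_lit 24625) (nat_lit 9) (.e (nat_lit 336443) (nat_lit 32) (.e (nat_lit 466971) (nat_lit 21) (.e (nat_lit 164325) (nat_lit 230) (.e (nat_lit 163881) (nat_lit 4) .nil)))))) (.g (nat_lit 1) (.e (nat_lit 233981) (nat_lit 0) .nil) .nil)))) (.nd (nat_lit 9) 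
(.lf (nat_lit 525748) (.g (nat_lit 588) (.e (nat_lit 220928) (nat_lit 6) (.e (nat_lit 81943) (nat_lit 20) (.e (nat_lit 2004) (nat_lit 138) (.e (nat_lit 671764) (nat_lit 6) (.e (nat_lit 89856) (nat_lit 4) .nil))))) (.g (nat_lit 0) (.e (nat_lit 233641) (nat_lit 0) .nil) .nil))) 
(.lf (nat_lit 526260) (.g (nat_lit 793) (.e (nat_lit 213032) (nat_lit 11) (.e (nat_lit 24604) (nat_lit 2) (.e (nat_lit 90176) (nat_lit 15) (.e (nat_lit 196352) (nat_lit 3) .nil)))) (.g (nat_lit 0) (.e (nat_lit 234415) (nat_lit 0) .nil) .nil)))))) (.nd (nat_lit 7) (.nd (nat_lit 8) (.nd (nat_lit 9) 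
(.lf (nat_lit 525428) (.g (nat_lit 1740) (.e (nat_lit 204883) (nat_lit 33) (.e (nat_lit 401458) (nat_lit 13) (.e (nat_lit 483350) (nat_lit 17) (.e (nat_lit 2372) (nat_lit 154) .nil)))) (.g (nat_lit 0) (.e (nat_lit 232909) (nat_lit 0) .nil) .nil))) 
(.lf (nat_lit 525940) (.g (nat_lit 1984) (.e (nat_lit 213030) (nat_lit 11) (.e (nat_lit 24617) (nat_lit 7) (.e (nat_lit 319534) (nat_lit 16) (.e (nat_lit 286745) (nat_lit 9) .nil)))) (.g (nat_lit 0) (.e (nat_lit 233915) (nat_lit 0) .nil) .nil)))) (.nd (nat_lit 9) 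
(.lf (nat_lit 525684) (.g (nat_lit 1055) (.e (nat_lit 220928) (nat_lit 4) (.e (nat_lit 65630) (nat_lit 14) (.e (nat_lit 401456) (nat_lit 13) (.e (nat_lit 483385) (nat_lit 23) .nil)))) (.g (nat_lit 0) (.e (nat_lit 233571) (nat_lit 0) .nil) .nil))) 
(.lf (nat_lit 526196) (.g (nat_lit 1172) (.e (nat_lit 213031) (nat_lit 11) (.e (nat_lit 24604) (nat_lit 2) (.e (nat_lit 90185) (nat_lit 17) (.e (nat_lit 237616) (nat_lit 12) .nil)))) (.g (nat_lit 0) (.e (nat_lit 234286) (nat_lit 0) .nil) .nil))))) (.nd (nat_lit 8) (.nd (nat_lit 9) 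
(.lf (nat_lit 525556) (.g (nat_lit 2955) (.e (nat_lit 204885) (nat_lit 33) (.e (nat_lit 401448) (nat_lit 10) (.e (nat_lit 434231) (nat_lit 23) (.e (nat_lit 532567) (nat_lit 16) (.e (nat_lit 401436) (nat_lit 9) (.e (nat_lit 426131) (nat_lit 3) .nil)))))) (.g (nat_lit 1) (.e (nat_lit 233310) (nat_lit 0) .nil) .nil))) 
(.lf (nat_lit 526068) (.g (nat_lit 3222) (.e (nat_lit 213030) (nat_lit 11) (.e (nat_lit 24629) (nat_lit 9) (.e (nat_lit 336443) (nat_lit 32) (.e (nat_lit 466969) (nat_lit 21) (.e (nat_lit 164332) (nat_lit 230) (.e (nat_lit 163880) (nat_lit 4) .nil)))))) (.g (nat_lit 1) (.e (nat_lit 234046) (nat_lit 0) .nil) .nil)))) (.nd (nat_lit 9) 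
(.lf (nat_lit 525812) (.g (nat_lit 2544) (.e (nat_lit 213020) (nat_lit 9) (.e (nat_lit 2610) (nat_lit 163) (.e (nat_lit 164347) (nat_lit 240) (.e (nat_lit 2638) (nat_lit 165) (.e (nat_lit 188160) (nat_lit 38) .nil))))) (.g (nat_lit 0) (.e (nat_lit 233766) (nat_lit 0) .nil) .nil))) 
(.lf (nat_lit 526324) (.g (nat_lit 1226) (.e (nat_lit 213032) (nat_lit 11) (.e (nat_lit 24608) (nat_lit 3) (.e (nat_lit 98372) (nat_lit 29) (.e (nat_lit 450584) (nat_lit 9) .nil)))) (.g (nat_lit 0) (.e (nat_lit 234504) (nat_lit 0) .nil) .nil))))))))) (.nd (nat_lit 4) (.nd (nat_lit 5) (.nd (nat_lit 6) (.nd (nat_lit 7) (.nd (nat_lit 8) (.nd (nat_lit 9) 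
(.lf (nat_lit 525324) (.g (nat_lit 1093) (.e (nat_lit 204882) (nat_lit 32) (.e (nat_lit 385068) (nat_lit 26) (.e (nat_lit 532527) (nat_lit 9) .nil))) (.g (nat_lit 0) (.e (nat_lit 232745) (nat_lit 0) .nil) .nil))) 
(.lf (nat_lit 525836) (.g (nat_lit 1281) (.e (nat_lit 213030) (nat_lit 11) (.e (nat_lit 24605) (nat_lit 2) (.e (nat_lit 90185) (nat_lit 17) (.e (nat_lit 237618) (nat_lit 12) .nil)))) (.g (nat_lit 0) (.e (nat_lit 233796) (nat_lit 0) .nil) .nil)))) (.nd (nat_lit 9) 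
(.lf (nat_lit 525580) (.g (nat_lit 3876) (.e (nat_lit 204885) (nat_lit 33) (.e (nat_lit 401448) (nat_lit 10) (.e (nat_lit 434232) (nat_lit 23) (.e (nat_lit 532563) (nat_lit 15) (.e (nat_lit 385105) (nat_lit 50) (.e (nat_lit 794368) (nat_lit 3) .nil)))))) (.g (nat_lit 1) (.e (nat_lit 233334) (nat_lit 0) .nil) .nil))) 
(.lf (nat_lit 526092) (.g (nat_lit 2929) (.e (nat_lit 213030) (nat_lit 11) (.e (nat_lit 24630) (nat_lit 9) (.e (nat_lit 336443) (nat_lit 32) (.e (nat_lit 466972) (nat_lit 21) (.e (nat_lit 164331) (nat_lit 230) (.e (nat_lit 163878) (nat_lit 4) .nil)))))) (.g (nat_lit 1) (.e (nat_lit 234087) (nat_lit 0) .nil) .nil))))) (.nd (nat_lit 8) (.nd (nat_lit 9) 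
(.lf (nat_lit 525452) (.g (nat_lit 670) (.e (nat_lit 204884) (nat_lit 33) (.e (nat_lit 401435) (nat_lit 9) (.e (nat_lit 426392) (nat_lit 15) .nil))) (.g (nat_lit 0) (.e (nat_lit 232954) (nat_lit 0) .nil) .nil))) 
(.lf (nat_lit 525964) (.g (nat_lit 2538) (.e (nat_lit 213030) (nat_lit 11) (.e (nat_lit 24617) (nat_lit 7) (.e (nat_lit 319534) (nat_lit 16) (.e (nat_lit 286756) (nat_lit 10) (.e (nat_lit 344168) (nat_lit 40) (.e (nat_lit 671773) (nat_lit 9) (.e (nat_lit 2698) (nat_lit 169) .nil))))))) (.g (nat_lit 1) (.e (nat_lit 233939) (nat_lit 0) .nil) .nil)))) (.nd (nat_lit 9) 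
(.lf (nat_lit 525708) (.g (nat_lit 1914) (.e (nat_lit 220928) (nat_lit 5) (.e (nat_lit 73782) (nat_lit 32) (.e (nat_lit 2856) (nat_lit 184) (.e (nat_lit 426540) (nat_lit 29) (.e (nat_lit 360192) (nat_lit 4) .nil))))) (.g (nat_lit 0) (.e (nat_lit 233595) (nat_lit 0) .nil) .nil))) 
(.lf (nat_lit 526220) (.g (nat_lit 917) (.e (nat_lit 213031) (nat_lit 11) (.e (nat_lit 24655) (nat_lit 13) (.e (nat_lit 393270) (nat_lit 23) .nil))) (.g (nat_lit 0) (.e (nat_lit 234310) (nat_lit 0) .nil) .nil)))))) (.nd (nat_lit 7) (.nd (nat_lit 8) (.nd (nat_lit 9) 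
(.lf (nat_lit 525388) (.g (nat_lit 1263) (.e (nat_lit 204883) (nat_lit 33) (.e (nat_lit 401451) (nat_lit 12) (.e (nat_lit 475183) (nat_lit 29) .nil))) (.g (nat_lit 0) (.e (nat_lit 232835) (nat_lit 0) .nil) .nil))) 
(.lf (nat_lit 525900) (.g (nat_lit 2628) (.e (nat_lit 213030) (nat_lit 11) (.e (nat_lit 24617) (nat_lit 7) (.e (nat_lit 319531) (nat_lit 16) (.e (nat_lit 286759) (nat_lit 12) (.e (nat_lit 385107) (nat_lit 51) (.e (nat_lit 794680) (nat_lit 24) .nil)))))) (.g (nat_lit 1) (.e (nat_lit 233874) (nat_lit 0) .nil) .nil)))) (.nd (nat_lit 9) 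
(.lf (nat_lit 525644) (.g (nat_lit 4784) (.e (nat_lit 204885) (nat_lit 33) (.e (nat_lit 401453) (nat_lit 12) (.e (nat_lit 475183) (nat_lit 29) (.e (nat_lit 557109) (nat_lit 15) (.e (nat_lit 188452) (nat_lit 23) .nil))))) (.g (nat_lit 1) (.e (nat_lit 233505) (nat_lit 0) .nil) .nil))) 
(.lf (nat_lit 526156) (.g (nat_lit 1830) (.e (nat_lit 213030) (nat_lit 11) (.e (nat_lit 24659) (nat_lit 13) (.e (nat_lit 393291) (nat_lit 26) (.e (nat_lit 475214) (nat_lit 42) (.e (nat_lit 728832) (nat_lit 4) .nil))))) (.g (nat_lit 1) (.e (nat_lit 234154) (nat_lit 0) .nil) .nil))))) (.nd (nat_lit 8) (.nd (nat_lit 9) 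
(.lf (nat_lit 525516) (.g (nat_lit 1647) (.e (nat_lit 204885) (nat_lit 33) (.e (nat_lit 401446) (nat_lit 10) (.e (nat_lit 434231) (nat_lit 23) (.e (nat_lit 532522) (nat_lit 7) .nil)))) (.g (nat_lit 0) (.e (nat_lit 233151) (nat_lit 0) .nil) .nil))) 
(.lf (nat_lit 526028) (.g (nat_lit 1685) (.e (nat_lit 213030) (nat_lit 11) (.e (nat_lit 24627) (nat_lit 9) (.e (nat_lit 336432) (nat_lit 30) (.e (nat_lit 450565) (nat_lit 0) (.e (nat_lit 5224) (nat_lit 296) .nil))))) (.g (nat_lit 0) (.e (nat_lit 234005) (nat_lit 0) .nil) .nil)))) (.nd (nat_lit 9) 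
(.lf (nat_lit 525772) (.g (nat_lit 886) (.e (nat_lit 220928) (nat_lit 6) (.e (nat_lit 81959) (nat_lit 24) (.e (nat_lit 123184) (nat_lit 264) (.e (nat_lit 1296) (nat_lit 96) .nil)))) (.g (nat_lit 0) (.e (nat_lit 233665) (nat_lit 0) .nil) .nil))) 
(.lf (nat_lit 526284) (.g (nat_lit 3088) (.e (nat_lit 213032) (nat_lit 11) (.e (nat_lit 24607) (nat_lit 3) (.e (nat_lit 98365) (nat_lit 26) (.e (nat_lit 426306) (nat_lit 12) (.e (nat_lit 475177) (nat_lit 24) (.e (nat_lit 516124) (nat_lit 2) .nil)))))) (.g (nat_lit 1) (.e (nat_lit 234451) (nat_lit 0) .nil) .nil))))))) (.nd (nat_lit 6) (.nd (nat_lit 7) (.nd (nat_lit 8) (.nd (nat_lit 9) 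
(.lf (nat_lit 525356) (.g (nat_lit 3560) (.e (nat_lit 204882) (nat_lit 32) (.e (nat_lit 385068) (nat_lit 26) (.e (nat_lit 532563) (nat_lit 15) (.e (nat_lit 385068) (nat_lit 26) (.e (nat_lit 532530) (nat_lit 9) (.e (nat_lit 336324) (nat_lit 18) .nil)))))) (.g (nat_lit 1) (.e (nat_lit 232781) (nat_lit 0) .nil) .nil))) 
(.lf (nat_lit 525868) (.g (nat_lit 1747) (.e (nat_lit 213030) (nat_lit 11) (.e (nat_lit 24609) (nat_lit 3) (.e (nat_lit 98365) (nat_lit 26) (.e (nat_lit 426308) (nat_lit 12) (.e (nat_lit 475177) (nat_lit 24) .nil))))) (.g (nat_lit 0) (.e (nat_lit 233831) (nat_lit 0) .nil) .nil)))) (.nd (nat_lit 9) 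
(.lf (nat_lit 525612) (.g (nat_lit 3354) (.e (nat_lit 204885) (nat_lit 33) (.e (nat_lit 401448) (nat_lit 10) (.e (nat_lit 434246) (nat_lit 28) (.e (nat_lit 573471) (nat_lit 11) (.e (nat_lit 16433) (nat_lit 9) (.e (nat_lit 426131) (nat_lit 3) .nil)))))) (.g (nat_lit 1) (.e (nat_lit 233429) (nat_lit 0) .nil) .nil))) 
(.lf (nat_lit 526124) (.g (nat_lit 3303) (.e (nat_lit 213030) (nat_lit 11) (.e (nat_lit 24657) (nat_lit 13) (.e (nat_lit 393271) (nat_lit 23) (.e (nat_lit 426112) (nat_lit 1) (.e (nat_lit 164327) (nat_lit 230) (.e (nat_lit 163879) (nat_lit 4) .nil)))))) (.g (nat_lit 1) (.e (nat_lit 234122) (nat_lit 0) .nil) .nil))))) (.nd (nat_lit 8) (.nd (nat_lit 9) 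
(.lf (nat_lit 525484) (.g (nat_lit 916) (.e (nat_lit 204884) (nat_lit 33) (.e (nat_lit 401459) (nat_lit 13) (.e (nat_lit 483344) (nat_lit 17) .nil))) (.g (nat_lit 0) (.e (nat_lit 233076) (nat_lit 0) .nil) .nil))) 
(.lf (nat_lit 525996) (.g (nat_lit 2673) (.e (nat_lit 213030) (nat_lit 11) (.e (nat_lit 24624) (nat_lit 9) (.e (nat_lit 336443) (nat_lit 32) (.e (nat_lit 466972) (nat_lit 21) (.e (nat_lit 164332) (nat_lit 230) (.e (nat_lit 163880) (nat_lit 4) .nil)))))) (.g (nat_lit 1) (.e (nat_lit 233972) (nat_lit 0) .nil) .nil)))) (.nd (nat_lit 9) 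
(.lf (nat_lit 525740) (.g (nat_lit 935) (.e (nat_lit 220928) (nat_lit 6) (.e (nat_lit 81935) (nat_lit 20) (.e (nat_lit 1998) (nat_lit 137) (.e (nat_lit 663569) (nat_lit 6) (.e (nat_lit 89856) (nat_lit 4) .nil))))) (.g (nat_lit 0) (.e (nat_lit 233633) (nat_lit 0) .nil) .nil))) 
(.lf (nat_lit 526252) (.g (nat_lit 1531) (.e (nat_lit 213032) (nat_lit 11) (.e (nat_lit 24604) (nat_lit 2) (.e (nat_lit 90169) (nat_lit 13) (.e (nat_lit 172119) (nat_lit 12) (.e (nat_lit 475179) (nat_lit 24) .nil))))) (.g (nat_lit 0) (.e (nat_lit 234400) (nat_lit 0) .nil) .nil)))))) (.nd (nat_lit 7) (.nd (nat_lit 8) (.nd (nat_lit 9) 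
(.lf (nat_lit 525420) (.g (nat_lit 1973) (.e (nat_lit 204883) (nat_lit 33) (.e (nat_lit 401457) (nat_lit 13) (.e (nat_lit 483346) (nat_lit 17) (.e (nat_lit 2367) (nat_lit 153) .nil)))) (.g (nat_lit 0) (.e (nat_lit 232895) (nat_lit 0) .nil) .nil))) 
(.lf (nat_lit 525932) (.g (nat_lit 1531) (.e (nat_lit 213030) (nat_lit 11) (.e (nat_lit 24617) (nat_lit 7) (.e (nat_lit 319533) (nat_lit 16) (.e (nat_lit 286754) (nat_lit 10) .nil)))) (.g (nat_lit 0) (.e (nat_lit 233907) (nat_lit 0) .nil) .nil)))) (.nd (nat_lit 9) 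
(.lf (nat_lit 525676) (.g (nat_lit 1761) (.e (nat_lit 220928) (nat_lit 4) (.e (nat_lit 65630) (nat_lit 14) (.e (nat_lit 401437) (nat_lit 9) (.e (nat_lit 426538) (nat_lit 29) .nil)))) (.g (nat_lit 0) (.e (nat_lit 233563) (nat_lit 0) .nil) .nil))) 
(.lf (nat_lit 526188) (.g (nat_lit 1443) (.e (nat_lit 213030) (nat_lit 11) (.e (nat_lit 24660) (nat_lit 13) (.e (nat_lit 393290) (nat_lit 26) (.e (nat_lit 475212) (nat_lit 42) (.e (nat_lit 728832) (nat_lit 4) .nil))))) (.g (nat_lit 0) (.e (nat_lit 234191) (nat_lit 0) .nil) .nil))))) (.nd (nat_lit 8) (.nd (nat_lit 9) 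
(.lf (nat_lit 525548) (.g (nat_lit 1780) (.e (nat_lit 204885) (nat_lit 33) (.e (nat_lit 401448) (nat_lit 10) (.e (nat_lit 434231) (nat_lit 23) (.e (nat_lit 532522) (nat_lit 7) .nil)))) (.g (nat_lit 0) (.e (nat_lit 233302) (nat_lit 0) .nil) .nil))) 
(.lf (nat_lit 526060) (.g (nat_lit 2614) (.e (nat_lit 213030) (nat_lit 11) (.e (nat_lit 24629) (nat_lit 9) (.e (nat_lit 336431) (nat_lit 29) (.e (nat_lit 442421) (nat_lit 21) (.e (nat_lit 164326) (nat_lit 230) (.e (nat_lit 163879) (nat_lit 4) .nil)))))) (.g (nat_lit 1) (.e (nat_lit 234037) (nat_lit 0) .nil) .nil)))) (.nd (nat_lit 9) 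
(.lf (nat_lit 525804) (.g (nat_lit 2437) (.e (nat_lit 213019) (nat_lit 9) (.e (nat_lit 2610) (nat_lit 163) (.e (nat_lit 164347) (nat_lit 240) (.e (nat_lit 2638) (nat_lit 165) (.e (nat_lit 188160) (nat_lit 38) .nil))))) (.g (nat_lit 0) (.e (nat_lit 233752) (nat_lit 0) .nil) .nil))) 
(.lf (nat_lit 526316) (.g (nat_lit 3350) (.e (nat_lit 213032) (nat_lit 11) (.e (nat_lit 24608) (nat_lit 3) (.e (nat_lit 98365) (nat_lit 26) (.e (nat_lit 426306) (nat_lit 12) (.e (nat_lit 475177) (nat_lit 24) (.e (nat_lit 516121) (nat_lit 2) .nil)))))) (.g (nat_lit 1) (.e (nat_lit 234485) (nat_lit 0) .nil) .nil)))))))) 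
(.nd (nat_lit 5) (.nd (nat_lit 6) (.nd (nat_lit 7) (.nd (nat_lit 8) (.nd (nat_lit 9) 
(.lf (nat_lit 525340) (.g (nat_lit 1177) (.e (nat_lit 204882) (nat_lit 32) (.e (nat_lit 385068) (nat_lit 26) (.e (nat_lit 532530) (nat_lit 9) (.e (nat_lit 336326) (nat_lit 18) .nil)))) (.g (nat_lit 0) (.e (nat_lit 232761) (nat_lit 0) .nil) .nil))) 
(.lf (nat_lit 525852) (.g (nat_lit 1613) (.e (nat_lit 213030) (nat_lit 11) (.e (nat_lit 24608) (nat_lit 3) (.e (nat_lit 98365) (nat_lit 26) (.e (nat_lit 426306) (nat_lit 12) (.e (nat_lit 475175) (nat_lit 24) .nil))))) (.g (nat_lit 0) (.e (nat_lit 233813) (nat_lit 0) .nil) .nil)))) (.nd (nat_lit 9) 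
(.lf (nat_lit 525596) (.g (nat_lit 248) (.e (nat_lit 204885) (nat_lit 33) (.e (nat_lit 401448) (nat_lit 10) (.e (nat_lit 434244) (nat_lit 28) .nil))) (.g (nat_lit 0) (.e (nat_lit 233365) (nat_lit 0) .nil) .nil))) 
(.lf (nat_lit 526108) (.g (nat_lit 952) (.e (nat_lit 213030) (nat_lit 11) (.e (nat_lit 24655) (nat_lit 13) (.e (nat_lit 393293) (nat_lit 26) .nil))) (.g (nat_lit 0) (.e (nat_lit 234106) (nat_lit 0) .nil) .nil))))) (.nd (nat_lit 8) (.nd (nat_lit 9) 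
(.lf (nat_lit 525468) (.g (nat_lit 3419) (.e (nat_lit 204884) (nat_lit 33) (.e (nat_lit 401451) (nat_lit 12) (.e (nat_lit 475185) (nat_lit 29) (.e (nat_lit 557107) (nat_lit 15) (.e (nat_lit 188452) (nat_lit 23) .nil))))) (.g (nat_lit 0) (.e (nat_lit 233050) (nat_lit 0) .nil) .nil))) 
(.lf (nat_lit 525980) (.g (nat_lit 2534) (.e (nat_lit 213030) (nat_lit 11) (.e (nat_lit 24617) (nat_lit 7) (.e (nat_lit 319534) (nat_lit 16) (.e (nat_lit 286759) (nat_lit 12) (.e (nat_lit 385092) (nat_lit 49) (.e (nat_lit 778336) (nat_lit 9) (.e (nat_lit 2700) (nat_lit 169) .nil))))))) (.g (nat_lit 1) (.e (nat_lit 233955) (nat_lit 0) .nil) .nil)))) (.nd (nat_lit 9) 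
(.lf (nat_lit 525724) (.g (nat_lit 178) (.e (nat_lit 220928) (nat_lit 6) (.e (nat_lit 81921) (nat_lit 0) (.e (nat_lit 3716) (nat_lit 227) (.e (nat_lit 778325) (nat_lit 6) (.e (nat_lit 89856) (nat_lit 4) .nil))))) (.g (nat_lit 0) (.e (nat_lit 233611) (nat_lit 0) .nil) .nil))) 
(.lf (nat_lit 526236) (.g (nat_lit 694) (.e (nat_lit 213031) (nat_lit 11) (.e (nat_lit 24657) (nat_lit 13) (.e (nat_lit 393291) (nat_lit 26) .nil))) (.g (nat_lit 0) (.e (nat_lit 234328) (nat_lit 0) .nil) .nil)))))) (.nd (nat_lit 7) (.nd (nat_lit 8) (.nd (nat_lit 9) 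
(.lf (nat_lit 525404) (.g (nat_lit 4044) (.e (nat_lit 204883) (nat_lit 33) (.e (nat_lit 401454) (nat_lit 12) (.e (nat_lit 475183) (nat_lit 29) (.e (nat_lit 557098) (nat_lit 13) (.e (nat_lit 172097) (nat_lit 9) (.e (nat_lit 426140) (nat_lit 3) .nil)))))) (.g (nat_lit 1) (.e (nat_lit 232872) (nat_lit 0) .nil) .nil))) 
(.lf (nat_lit 525916) (.g (nat_lit 2605) (.e (nat_lit 213030) (nat_lit 11) (.e (nat_lit 24617) (nat_lit 7) (.e (nat_lit 319533) (nat_lit 16) (.e (nat_lit 286753) (nat_lit 10) (.e (nat_lit 344097) (nat_lit 18) (.e (nat_lit 5203) (nat_lit 294) (.e (nat_lit 65280) (nat_lit 65) .nil))))))) (.g (nat_lit 1) (.e (nat_lit 233891) (nat_lit 0) .nil) .nil)))) (.nd (nat_lit 9) 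
(.lf (nat_lit 525660) (.g (nat_lit 4669) (.e (nat_lit 220928) (nat_lit 2) (.e (nat_lit 16415) (nat_lit 3) (.e (nat_lit 204885) (nat_lit 33) (.e (nat_lit 401451) (nat_lit 12) (.e (nat_lit 475177) (nat_lit 24) .nil))))) (.g (nat_lit 0) (.e (nat_lit 233537) (nat_lit 0) .nil) .nil))) 
(.lf (nat_lit 526172) (.g (nat_lit 1124) (.e (nat_lit 213030) (nat_lit 11) (.e (nat_lit 24660) (nat_lit 13) (.e (nat_lit 393279) (nat_lit 23) (.e (nat_lit 426445) (nat_lit 20) (.e (nat_lit 122624) (nat_lit 4) .nil))))) (.g (nat_lit 1) (.e (nat_lit 234170) (nat_lit 0) .nil) .nil))))) (.nd (nat_lit 8) (.nd (nat_lit 9) 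
(.lf (nat_lit 525532) (.g (nat_lit 875) (.e (nat_lit 204885) (nat_lit 33) (.e (nat_lit 401448) (nat_lit 10) (.e (nat_lit 434230) (nat_lit 23) .nil))) (.g (nat_lit 0) (.e (nat_lit 233286) (nat_lit 0) .nil) .nil))) 
(.lf (nat_lit 526044) (.g (nat_lit 2875) (.e (nat_lit 213030) (nat_lit 11) (.e (nat_lit 24627) (nat_lit 9) (.e (nat_lit 336443) (nat_lit 32) (.e (nat_lit 466971) (nat_lit 21) (.e (nat_lit 164327) (nat_lit 230) (.e (nat_lit 163882) (nat_lit 4) .nil)))))) (.g (nat_lit 1) (.e (nat_lit 234021) (nat_lit 0) .nil) .nil)))) (.nd (nat_lit 9) 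
(.lf (nat_lit 525788) (.g (nat_lit 1716) (.e (nat_lit 213013) (nat_lit 9) (.e (nat_lit 2667) (nat_lit 167) (.e (nat_lit 196668) (nat_lit 14) (.e (nat_lit 73747) (nat_lit 3) (.e (nat_lit 516119) (nat_lit 1) .nil))))) (.g (nat_lit 0) (.e (nat_lit 233704) (nat_lit 0) .nil) .nil))) 
(.lf (nat_lit 526300) (.g (nat_lit 1037) (.e (nat_lit 213032) (nat_lit 11) (.e (nat_lit 24608) (nat_lit 3) (.e (nat_lit 98358) (nat_lit 26) .nil))) (.g (nat_lit 0) (.e (nat_lit 234468) (nat_lit 0) .nil) .nil))))))) (.nd (nat_lit 6) (.nd (nat_lit 7) (.nd (nat_lit 8) (.nd (nat_lit 9) 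
(.lf (nat_lit 525372) (.g (nat_lit 847) (.e (nat_lit 204882) (nat_lit 32) (.e (nat_lit 385109) (nat_lit 51) (.e (nat_lit 794668) (nat_lit 22) .nil))) (.g (nat_lit 0) (.e (nat_lit 232800) (nat_lit 0) .nil) .nil))) 
(.lf (nat_lit 525884) (.g (nat_lit 2434) (.e (nat_lit 213030) (nat_lit 11) (.e (nat_lit 24617) (nat_lit 7) (.e (nat_lit 319529) (nat_lit 16) (.e (nat_lit 286759) (nat_lit 12) (.e (nat_lit 385107) (nat_lit 51) (.e (nat_lit 794680) (nat_lit 24) .nil)))))) (.g (nat_lit 1) (.e (nat_lit 233857) (nat_lit 0) .nil) .nil)))) (.nd (nat_lit 9) 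
(.lf (nat_lit 525628) (.g (nat_lit 4625) (.e (nat_lit 204885) (nat_lit 33) (.e (nat_lit 401450) (nat_lit 12) (.e (nat_lit 475185) (nat_lit 29) (.e (nat_lit 557109) (nat_lit 15) (.e (nat_lit 188452) (nat_lit 23) .nil))))) (.g (nat_lit 1) (.e (nat_lit 233472) (nat_lit 0) .nil) .nil))) 
(.lf (nat_lit 526140) (.g (nat_lit 1613) (.e (nat_lit 213030) (nat_lit 11) (.e (nat_lit 24659) (nat_lit 13) (.e (nat_lit 393270) (nat_lit 23) (.e (nat_lit 426448) (nat_lit 20) (.e (nat_lit 122624) (nat_lit 4) .nil))))) (.g (nat_lit 0) (.e (nat_lit 234138) (nat_lit 0) .nil) .nil))))) (.nd (nat_lit 8) (.nd (nat_lit 9) 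
(.lf (nat_lit 525500) (.g (nat_lit 2148) (.e (nat_lit 204885) (nat_lit 33) (.e (nat_lit 401434) (nat_lit 9) (.e (nat_lit 426125) (nat_lit 2) (.e (nat_lit 196661) (nat_lit 12) (.e (nat_lit 57748) (nat_lit 201) .nil))))) (.g (nat_lit 0) (.e (nat_lit 233107) (nat_lit 0) .nil) .nil))) 
(.lf (nat_lit 526012) (.g (nat_lit 875) (.e (nat_lit 213030) (nat_lit 11) (.e (nat_lit 24625) (nat_lit 9) (.e (nat_lit 336444) (nat_lit 32) .nil))) (.g (nat_lit 0) (.e (nat_lit 233989) (nat_lit 0) .nil) .nil)))) (.nd (nat_lit 9) 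
(.lf (nat_lit 525756) (.g (nat_lit 1166) (.e (nat_lit 220928) (nat_lit 6) (.e (nat_lit 81957) (nat_lit 24) (.e (nat_lit 123182) (nat_lit 264) (.e (nat_lit 1296) (nat_lit 96) .nil)))) (.g (nat_lit 0) (.e (nat_lit 233649) (nat_lit 0) .nil) .nil))) 
(.lf (nat_lit 526268) (.g (nat_lit 2308) (.e (nat_lit 213032) (nat_lit 11) (.e (nat_lit 24604) (nat_lit 2) (.e (nat_lit 90185) (nat_lit 17) (.e (nat_lit 237603) (nat_lit 9) .nil)))) (.g (nat_lit 0) (.e (nat_lit 234435) (nat_lit 0) .nil) .nil)))))) (.nd (nat_lit 7) (.nd (nat_lit 8) (.nd (nat_lit 9) 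
(.lf (nat_lit 525436) (.g (nat_lit 503) (.e (nat_lit 204883) (nat_lit 33) (.e (nat_lit 401459) (nat_lit 13) (.e (nat_lit 483344) (nat_lit 17) .nil))) (.g (nat_lit 0) (.e (nat_lit 232919) (nat_lit 0) .nil) .nil))) 
(.lf (nat_lit 525948) (.g (nat_lit 1947) (.e (nat_lit 213030) (nat_lit 11) (.e (nat_lit 24617) (nat_lit 7) (.e (nat_lit 319534) (nat_lit 16) (.e (nat_lit 286752) (nat_lit 10) .nil)))) (.g (nat_lit 0) (.e (nat_lit 233923) (nat_lit 0) .nil) .nil)))) (.nd (nat_lit 9) 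
(.lf (nat_lit 525692) (.g (nat_lit 1123) (.e (nat_lit 220928) (nat_lit 5) (.e (nat_lit 73781) (nat_lit 32) (.e (nat_lit 2855) (nat_lit 184) (.e (nat_lit 426542) (nat_lit 29) (.e (nat_lit 360192) (nat_lit 4) .nil))))) (.g (nat_lit 0) (.e (nat_lit 233579) (nat_lit 0) .nil) .nil))) 
(.lf (nat_lit 526204) (.g (nat_lit 1762) (.e (nat_lit 213031) (nat_lit 11) (.e (nat_lit 24608) (nat_lit 3) (.e (nat_lit 98365) (nat_lit 26) (.e (nat_lit 426187) (nat_lit 9) (.e (nat_lit 426438) (nat_lit 18) .nil))))) (.g (nat_lit 0) (.e (nat_lit 234294) (nat_lit 0) .nil) .nil))))) (.nd (nat_lit 8) (.nd (nat_lit 9) 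
(.lf (nat_lit 525564) (.g (nat_lit 4048) (.e (nat_lit 204885) (nat_lit 33) (.e (nat_lit 401448) (nat_lit 10) (.e (nat_lit 434231) (nat_lit 23) (.e (nat_lit 532569) (nat_lit 16) (.e (nat_lit 401440) (nat_lit 9) (.e (nat_lit 426134) (nat_lit 3) .nil)))))) (.g (nat_lit 1) (.e (nat_lit 233318) (nat_lit 0) .nil) .nil))) 
(.lf (nat_lit 526076) (.g (nat_lit 2929) (.e (nat_lit 213030) (nat_lit 11) (.e (nat_lit 24630) (nat_lit 9) (.e (nat_lit 336443) (nat_lit 32) (.e (nat_lit 466969) (nat_lit 21) (.e (nat_lit 164325) (nat_lit 230) (.e (nat_lit 163879) (nat_lit 4) .nil)))))) (.g (nat_lit 1) (.e (nat_lit 234071) (nat_lit 0) .nil) .nil)))) (.nd (nat_lit 9) 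
(.lf (nat_lit 525820) (.g (nat_lit 1314) (.e (nat_lit 213030) (nat_lit 11) (.e (nat_lit 24604) (nat_lit 2) (.e (nat_lit 90172) (nat_lit 14) (.e (nat_lit 188160) (nat_lit 41) .nil)))) (.g (nat_lit 0) (.e (nat_lit 233780) (nat_lit 0) .nil) .nil))) 
(.lf (nat_lit 526332) (.g (nat_lit 440) (.e (nat_lit 213032) (nat_lit 11) (.e (nat_lit 24608) (nat_lit 3) (.e (nat_lit 98381) (nat_lit 31) .nil))) (.g (nat_lit 0) (.e (nat_lit 234523) (nat_lit 0) .nil) .nil))))))))))) (.nd (nat_lit 2) (.nd (nat_lit 3) (.nd (nat_lit 4) (.nd (nat_lit 5) (.nd (nat_lit 6) (.nd (nat_lit 7) (.nd (nat_lit 8) (.nd (nat_lit 9) 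
(.lf (nat_lit 525314) (.g (nat_lit 2114) (.e (nat_lit 204882) (nat_lit 32) (.e (nat_lit 385067) (nat_lit 26) (.e (nat_lit 532563) (nat_lit 15) (.e (nat_lit 385068) (nat_lit 26) (.e (nat_lit 532534) (nat_lit 9) .nil))))) (.g (nat_lit 0) (.e (nat_lit 232732) (nat_lit 0) .nil) .nil))) 
(.lf (nat_lit 525826) (.g (nat_lit 2486) (.e (nat_lit 213030) (nat_lit 11) (.e (nat_lit 24604) (nat_lit 2) (.e (nat_lit 90185) (nat_lit 17) (.e (nat_lit 237616) (nat_lit 12) (.e (nat_lit 475177) (nat_lit 24) (.e (nat_lit 516125) (nat_lit 2) .nil)))))) (.g (nat_lit 1) (.e (nat_lit 233786) (nat_lit 0) .nil) .nil)))) (.nd (nat_lit 9) 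
(.lf (nat_lit 525570) (.g (nat_lit 1977) (.e (nat_lit 204885) (nat_lit 33) (.e (nat_lit 401448) (nat_lit 10) (.e (nat_lit 434232) (nat_lit 23) (.e (nat_lit 532490) (nat_lit 0) (.e (nat_lit 6114) (nat_lit 332) .nil))))) (.g (nat_lit 0) (.e (nat_lit 233324) (nat_lit 0) .nil) .nil))) 
(.lf (nat_lit 526082) (.g (nat_lit 2807) (.e (nat_lit 213030) (nat_lit 11) (.e (nat_lit 24630) (nat_lit 9) (.e (nat_lit 336443) (nat_lit 32) (.e (nat_lit 466969) (nat_lit 21) (.e (nat_lit 164331) (nat_lit 230) (.e (nat_lit 163878) (nat_lit 4) .nil)))))) (.g (nat_lit 1) (.e (nat_lit 234077) (nat_lit 0) .nil) .nil))))) (.nd (nat_lit 8) (.nd (nat_lit 9) 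
(.lf (nat_lit 525442) (.g (nat_lit 1544) (.e (nat_lit 204883) (nat_lit 33) (.e (nat_lit 401459) (nat_lit 13) (.e (nat_lit 483344) (nat_lit 17) (.e (nat_lit 2369) (nat_lit 153) .nil)))) (.g (nat_lit 0) (.e (nat_lit 232927) (nat_lit 0) .nil) .nil))) 
(.lf (nat_lit 525954) (.g (nat_lit 3234) (.e (nat_lit 213030) (nat_lit 11) (.e (nat_lit 24617) (nat_lit 7) (.e (nat_lit 319534) (nat_lit 16) (.e (nat_lit 286756) (nat_lit 10) (.e (nat_lit 344097) (nat_lit 18) (.e (nat_lit 5203) (nat_lit 294) (.e (nat_lit 65280) (nat_lit 65) .nil))))))) (.g (nat_lit 1) (.e (nat_lit 233929) (nat_lit 0) .nil) .nil)))) (.nd (nat_lit 9) 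
(.lf (nat_lit 525698) (.g (nat_lit 1471) (.e (nat_lit 220928) (nat_lit 5) (.e (nat_lit 73781) (nat_lit 32) (.e (nat_lit 2857) (nat_lit 184) (.e (nat_lit 426542) (nat_lit 29) (.e (nat_lit 360192) (nat_lit 4) .nil))))) (.g (nat_lit 0) (.e (nat_lit 233585) (nat_lit 0) .nil) .nil))) 
(.lf (nat_lit 526210) (.g (nat_lit 1752) (.e (nat_lit 213031) (nat_lit 11) (.e (nat_lit 24624) (nat_lit 9) (.e (nat_lit 336443) (nat_lit 32) (.e (nat_lit 466969) (nat_lit 21) (.e (nat_lit 164327) (nat_lit 230) .nil))))) (.g (nat_lit 0) (.e (nat_lit 234300) (nat_lit 0) .nil) .nil)))))) (.nd (nat_lit 7) (.nd (nat_lit 8) (.nd (nat_lit 9) 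
(.lf (nat_lit 525378) (.g (nat_lit 1449) (.e (nat_lit 204883) (nat_lit 33) (.e (nat_lit 401434) (nat_lit 9) (.e (nat_lit 426140) (nat_lit 3) (.e (nat_lit 204821) (nat_lit 17) .nil)))) (.g (nat_lit 0) (.e (nat_lit 232811) (nat_lit 0) .nil) .nil))) 
(.lf (nat_lit 525890) (.g (nat_lit 2494) (.e (nat_lit 213030) (nat_lit 11) (.e (nat_lit 24617) (nat_lit 7) (.e (nat_lit 319530) (nat_lit 16) (.e (nat_lit 286759) (nat_lit 12) (.e (nat_lit 385092) (nat_lit 49) (.e (nat_lit 778336) (nat_lit 9) (.e (nat_lit 2700) (nat_lit 169) .nil))))))) (.g (nat_lit 1) (.e (nat_lit 233864) (nat_lit 0) .nil) .nil)))) (.nd (nat_lit 9) 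
(.lf (nat_lit 525634) (.g (nat_lit 5721) (.e (nat_lit 204885) (nat_lit 33) (.e (nat_lit 401451) (nat_lit 12) (.e (nat_lit 475183) (nat_lit 29) (.e (nat_lit 557109) (nat_lit 15) (.e (nat_lit 188452) (nat_lit 23) .nil))))) (.g (nat_lit 1) (.e (nat_lit 233490) (nat_lit 0) .nil) .nil))) 
(.lf (nat_lit 526146) (.g (nat_lit 978) (.e (nat_lit 213030) (nat_lit 11) (.e (nat_lit 24659) (nat_lit 13) (.e (nat_lit 393274) (nat_lit 23) (.e (nat_lit 426097) (nat_lit 1) (.e (nat_lit 164326) (nat_lit 230) .nil))))) (.g (nat_lit 0) (.e (nat_lit 234144) (nat_lit 0) .nil) .nil))))) (.nd (nat_lit 8) (.nd (nat_lit 9) 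
(.lf (nat_lit 525506) (.g (nat_lit 3227) (.e (nat_lit 204885) (nat_lit 33) (.e (nat_lit 401434) (nat_lit 9) (.e (nat_lit 426140) (nat_lit 3) (.e (nat_lit 204845) (nat_lit 24) (.e (nat_lit 319538) (nat_lit 19) (.e (nat_lit 311314) (nat_lit 3) .nil)))))) (.g (nat_lit 1) (.e (nat_lit 233122) (nat_lit 0) .nil) .nil))) 
(.lf (nat_lit 526018) (.g (nat_lit 3237) (.e (nat_lit 213030) (nat_lit 11) (.e (nat_lit 24626) (nat_lit 9) (.e (nat_lit 336443) (nat_lit 32) (.e (nat_lit 466969) (nat_lit 21) (.e (nat_lit 164332) (nat_lit 230) (.e (nat_lit 163880) (nat_lit 4) .nil)))))) (.g (nat_lit 1) (.e (nat_lit 233995) (nat_lit 0) .nil) .nil)))) (.nd (nat_lit 9) 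
(.lf (nat_lit 525762) (.g (nat_lit 1925) (.e (nat_lit 220928) (nat_lit 6) (.e (nat_lit 81957) (nat_lit 24) (.e (nat_lit 123197) (nat_lit 266) (.e (nat_lit 57406) (nat_lit 12) (.e (nat_lit 336120) (nat_lit 9) .nil))))) (.g (nat_lit 0) (.e (nat_lit 233655) (nat_lit 0) .nil) .nil))) 
(.lf (nat_lit 526274) (.g (nat_lit 779) (.e (nat_lit 213032) (nat_lit 11) (.e (nat_lit 24605) (nat_lit 2) (.e (nat_lit 90165) (nat_lit 12) (.e (nat_lit 164249) (nat_lit 201) .nil)))) (.g (nat_lit 0) (.e (nat_lit 234441) (nat_lit 0) .nil) .nil))))))) (.nd (nat_lit 6) (.nd (nat_lit 7) (.nd (nat_lit 8) (.nd (nat_lit 9) 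
(.lf (nat_lit 525346) (.g (nat_lit 1019) (.e (nat_lit 204882) (nat_lit 32) (.e (nat_lit 385068) (nat_lit 26) (.e (nat_lit 532533) (nat_lit 9) .nil))) (.g (nat_lit 0) (.e (nat_lit 232767) (nat_lit 0) .nil) .nil))) 
(.lf (nat_lit 525858) (.g (nat_lit 1128) (.e (nat_lit 213030) (nat_lit 11) (.e (nat_lit 24608) (nat_lit 3) (.e (nat_lit 98365) (nat_lit 26) (.e (nat_lit 426307) (nat_lit 12) .nil)))) (.g (nat_lit 0) (.e (nat_lit 233819) (nat_lit 0) .nil) .nil)))) (.nd (nat_lit 9) 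
(.lf (nat_lit 525602) (.g (nat_lit 3417) (.e (nat_lit 204885) (nat_lit 33) (.e (nat_lit 401448) (nat_lit 10) (.e (nat_lit 434244) (nat_lit 28) (.e (nat_lit 573471) (nat_lit 11) (.e (nat_lit 16444) (nat_lit 9) (.e (nat_lit 426129) (nat_lit 3) .nil)))))) (.g (nat_lit 1) (.e (nat_lit 233396) (nat_lit 0) .nil) .nil))) 
(.lf (nat_lit 526114) (.g (nat_lit 2086) (.e (nat_lit 213030) (nat_lit 11) (.e (nat_lit 24656) (nat_lit 13) (.e (nat_lit 393281) (nat_lit 23) (.e (nat_lit 426098) (nat_lit 1) (.e (nat_lit 164325) (nat_lit 230) (.e (nat_lit 163881) (nat_lit 4) .nil)))))) (.g (nat_lit 1) (.e (nat_lit 234112) (nat_lit 0) .nil) .nil))))) (.nd (nat_lit 8) (.nd (nat_lit 9) 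
(.lf (nat_lit 525474) (.g (nat_lit 2694) (.e (nat_lit 204884) (nat_lit 33) (.e (nat_lit 401454) (nat_lit 12) (.e (nat_lit 475185) (nat_lit 29) (.e (nat_lit 557098) (nat_lit 13) (.e (nat_lit 172097) (nat_lit 9) .nil))))) (.g (nat_lit 0) (.e (nat_lit 233061) (nat_lit 0) .nil) .nil))) 
(.lf (nat_lit 525986) (.g (nat_lit 1705) (.e (nat_lit 213030) (nat_lit 11) (.e (nat_lit 24623) (nat_lit 9) (.e (nat_lit 336443) (nat_lit 32) (.e (nat_lit 466969) (nat_lit 21) .nil)))) (.g (nat_lit 0) (.e (nat_lit 233962) (nat_lit 0) .nil) .nil)))) (.nd (nat_lit 9) 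
(.lf (nat_lit 525730) (.g (nat_lit 319) (.e (nat_lit 220928) (nat_lit 6) (.e (nat_lit 81924) (nat_lit 0) (.e (nat_lit 3630) (nat_lit 227) (.e (nat_lit 778326) (nat_lit 6) (.e (nat_lit 89856) (nat_lit 4) .nil))))) (.g (nat_lit 0) (.e (nat_lit 233621) (nat_lit 0) .nil) .nil))) 
(.lf (nat_lit 526242) (.g (nat_lit 1612) (.e (nat_lit 213031) (nat_lit 11) (.e (nat_lit 24660) (nat_lit 13) (.e (nat_lit 393282) (nat_lit 24) (.e (nat_lit 434209) (nat_lit 18) (.e (nat_lit 5224) (nat_lit 296) .nil))))) (.g (nat_lit 0) (.e (nat_lit 234334) (nat_lit 0) .nil) .nil)))))) (.nd (nat_lit 7) (.nd (nat_lit 8) (.nd (nat_lit 9) 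
(.lf (nat_lit 525410) (.g (nat_lit 4782) (.e (nat_lit 204883) (nat_lit 33) (.e (nat_lit 401454) (nat_lit 12) (.e (nat_lit 475185) (nat_lit 29) (.e (nat_lit 557098) (nat_lit 13) (.e (nat_lit 172097) (nat_lit 9) (.e (nat_lit 426140) (nat_lit 3) .nil)))))) (.g (nat_lit 1) (.e (nat_lit 232883) (nat_lit 0) .nil) .nil))) 
(.lf (nat_lit 525922) (.g (nat_lit 2555) (.e (nat_lit 213030) (nat_lit 11) (.e (nat_lit 24617) (nat_lit 7) (.e (nat_lit 319533) (nat_lit 16) (.e (nat_lit 286753) (nat_lit 10) (.e (nat_lit 344169) (nat_lit 40) (.e (nat_lit 671768) (nat_lit 9) (.e (nat_lit 2700) (nat_lit 169) .nil))))))) (.g (nat_lit 1) (.e (nat_lit 233897) (nat_lit 0) .nil) .nil)))) (.nd (nat_lit 9) 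
(.lf (nat_lit 525666) (.g (nat_lit 1523) (.e (nat_lit 220928) (nat_lit 4) (.e (nat_lit 65628) (nat_lit 14) (.e (nat_lit 401437) (nat_lit 9) (.e (nat_lit 426538) (nat_lit 29) .nil)))) (.g (nat_lit 0) (.e (nat_lit 233553) (nat_lit 0) .nil) .nil))) 
(.lf (nat_lit 526178) (.g (nat_lit 1964) (.e (nat_lit 213030) (nat_lit 11) (.e (nat_lit 24660) (nat_lit 13) (.e (nat_lit 393283) (nat_lit 24) (.e (nat_lit 434209) (nat_lit 18) (.e (nat_lit 5223) (nat_lit 296) (.e (nat_lit 163881) (nat_lit 4) .nil)))))) (.g (nat_lit 1) (.e (nat_lit 234176) (nat_lit 0) .nil) .nil))))) (.nd (nat_lit 8) (.nd (nat_lit 9) 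
(.lf (nat_lit 525538) (.g (nat_lit 1280) (.e (nat_lit 204885) (nat_lit 33) (.e (nat_lit 401448) (nat_lit 10) (.e (nat_lit 434231) (nat_lit 23) (.e (nat_lit 532482) (nat_lit 0) .nil)))) (.g (nat_lit 0) (.e (nat_lit 233292) (nat_lit 0) .nil) .nil))) 
(.lf (nat_lit 526050) (.g (nat_lit 2616) (.e (nat_lit 213030) (nat_lit 11) (.e (nat_lit 24628) (nat_lit 9) (.e (nat_lit 336443) (nat_lit 32) (.e (nat_lit 466969) (nat_lit 21) (.e (nat_lit 164326) (nat_lit 230) (.e (nat_lit 163881) (nat_lit 4) .nil)))))) (.g (nat_lit 1) (.e (nat_lit 234027) (nat_lit 0) .nil) .nil)))) (.nd (nat_lit 9) 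
(.lf (nat_lit 525794) (.g (nat_lit 1505) (.e (nat_lit 213017) (nat_lit 9) (.e (nat_lit 2610) (nat_lit 163) (.e (nat_lit 164347) (nat_lit 240) (.e (nat_lit 2639) (nat_lit 165) .nil)))) (.g (nat_lit 0) (.e (nat_lit 233720) (nat_lit 0) .nil) .nil))) 
(.lf (nat_lit 526306) (.g (nat_lit 1035) (.e (nat_lit 213032) (nat_lit 11) (.e (nat_lit 24608) (nat_lit 3) (.e (nat_lit 98365) (nat_lit 26) (.e (nat_lit 426187) (nat_lit 9) .nil)))) (.g (nat_lit 0) (.e (nat_lit 234475) (nat_lit 0) .nil) .nil)))))))) (.nd (nat_lit 5) (.nd (nat_lit 6) (.nd (nat_lit 7) (.nd (nat_lit 8) (.nd (nat_lit 9) 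
(.lf (nat_lit 525330) (.g (nat_lit 2399) (.e (nat_lit 204882) (nat_lit 32) (.e (nat_lit 385068) (nat_lit 26) (.e (nat_lit 532529) (nat_lit 9) (.e (nat_lit 336326) (nat_lit 18) (.e (nat_lit 204859) (nat_lit 26) .nil))))) (.g (nat_lit 0) (.e (nat_lit 232751) (nat_lit 0) .nil) .nil))) 
(.lf (nat_lit 525842) (.g (nat_lit 2875) (.e (nat_lit 213030) (nat_lit 11) (.e (nat_lit 24607) (nat_lit 3) (.e (nat_lit 98365) (nat_lit 26) (.e (nat_lit 426306) (nat_lit 12) (.e (nat_lit 475177) (nat_lit 24) (.e (nat_lit 516124) (nat_lit 2) .nil)))))) (.g (nat_lit 1) (.e (nat_lit 233802) (nat_lit 0) .nil) .nil)))) (.nd (nat_lit 9) 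
(.lf (nat_lit 525586) (.g (nat_lit 3242) (.e (nat_lit 204885) (nat_lit 33) (.e (nat_lit 401448) (nat_lit 10) (.e (nat_lit 434232) (nat_lit 23) (.e (nat_lit 532568) (nat_lit 16) (.e (nat_lit 401436) (nat_lit 9) (.e (nat_lit 426131) (nat_lit 3) .nil)))))) (.g (nat_lit 1) (.e (nat_lit 233340) (nat_lit 0) .nil) .nil))) 
(.lf (nat_lit 526098) (.g (nat_lit 2943) (.e (nat_lit 213030) (nat_lit 11) (.e (nat_lit 24654) (nat_lit 13) (.e (nat_lit 393271) (nat_lit 23) (.e (nat_lit 426448) (nat_lit 20) (.e (nat_lit 122624) (nat_lit 4) .nil))))) (.g (nat_lit 1) (.e (nat_lit 234096) (nat_lit 0) .nil) .nil))))) (.nd (nat_lit 8) (.nd (nat_lit 9) 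
(.lf (nat_lit 525458) (.g (nat_lit 3159) (.e (nat_lit 204884) (nat_lit 33) (.e (nat_lit 401448) (nat_lit 10) (.e (nat_lit 434231) (nat_lit 23) (.e (nat_lit 532569) (nat_lit 16) (.e (nat_lit 401440) (nat_lit 9) .nil))))) (.g (nat_lit 0) (.e (nat_lit 232985) (nat_lit 0) .nil) .nil))) 
(.lf (nat_lit 525970) (.g (nat_lit 3031) (.e (nat_lit 213030) (nat_lit 11) (.e (nat_lit 24617) (nat_lit 7) (.e (nat_lit 319534) (nat_lit 16) (.e (nat_lit 286756) (nat_lit 10) (.e (nat_lit 344169) (nat_lit 40) (.e (nat_lit 671770) (nat_lit 9) (.e (nat_lit 2686) (nat_lit 169) .nil))))))) (.g (nat_lit 1) (.e (nat_lit 233945) (nat_lit 0) .nil) .nil)))) (.nd (nat_lit 9) 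
(.lf (nat_lit 525714) (.g (nat_lit 713) (.e (nat_lit 220928) (nat_lit 5) (.e (nat_lit 73782) (nat_lit 32) (.e (nat_lit 3087) (nat_lit 191) (.e (nat_lit 483379) (nat_lit 23) .nil)))) (.g (nat_lit 0) (.e (nat_lit 233601) (nat_lit 0) .nil) .nil))) 
(.lf (nat_lit 526226) (.g (nat_lit 1431) (.e (nat_lit 213031) (nat_lit 11) (.e (nat_lit 24655) (nat_lit 13) (.e (nat_lit 393281) (nat_lit 23) (.e (nat_lit 426098) (nat_lit 1) .nil)))) (.g (nat_lit 0) (.e (nat_lit 234316) (nat_lit 0) .nil) .nil)))))) (.nd (nat_lit 7) (.nd (nat_lit 8) (.nd (nat_lit 9) 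
(.lf (nat_lit 525394) (.g (nat_lit 3644) (.e (nat_lit 204883) (nat_lit 33) (.e (nat_lit 401452) (nat_lit 12) (.e (nat_lit 475185) (nat_lit 29) (.e (nat_lit 557098) (nat_lit 13) (.e (nat_lit 172097) (nat_lit 9) .nil))))) (.g (nat_lit 0) (.e (nat_lit 232844) (nat_lit 0) .nil) .nil))) 
(.lf (nat_lit 525906) (.g (nat_lit 2418) (.e (nat_lit 213030) (nat_lit 11) (.e (nat_lit 24617) (nat_lit 7) (.e (nat_lit 319532) (nat_lit 16) (.e (nat_lit 286759) (nat_lit 12) (.e (nat_lit 385107) (nat_lit 51) (.e (nat_lit 794680) (nat_lit 24) .nil)))))) (.g (nat_lit 1) (.e (nat_lit 233880) (nat_lit 0) .nil) .nil)))) (.nd (nat_lit 9) 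
(.lf (nat_lit 525650) (.g (nat_lit 3710) (.e (nat_lit 212736) (nat_lit 33) (.e (nat_lit 401451) (nat_lit 12) (.e (nat_lit 475185) (nat_lit 29) (.e (nat_lit 557109) (nat_lit 15) (.e (nat_lit 188450) (nat_lit 23) .nil))))) (.g (nat_lit 0) (.e (nat_lit 233525) (nat_lit 0) .nil) .nil))) 
(.lf (nat_lit 526162) (.g (nat_lit 1996) (.e (nat_lit 213030) (nat_lit 11) (.e (nat_lit 24660) (nat_lit 13) (.e (nat_lit 393268) (nat_lit 23) (.e (nat_lit 426448) (nat_lit 20) (.e (nat_lit 122624) (nat_lit 4) .nil))))) (.g (nat_lit 1) (.e (nat_lit 234160) (nat_lit 0) .nil) .nil))))) (.nd (nat_lit 8) (.nd (nat_lit 9) 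
(.lf (nat_lit 525522) (.g (nat_lit 3951) (.e (nat_lit 204885) (nat_lit 33) (.e (nat_lit 401446) (nat_lit 10) (.e (nat_lit 434233) (nat_lit 23) (.e (nat_lit 532523) (nat_lit 7) (.e (nat_lit 319505) (nat_lit 10) (.e (nat_lit 5714) (nat_lit 312) (.e (nat_lit 2682) (nat_lit 168) .nil))))))) (.g (nat_lit 1) (.e (nat_lit 233169) (nat_lit 0) .nil) .nil))) 
(.lf (nat_lit 526034) (.g (nat_lit 2920) (.e (nat_lit 213030) (nat_lit 11) (.e (nat_lit 24627) (nat_lit 9) (.e (nat_lit 336443) (nat_lit 32) (.e (nat_lit 466969) (nat_lit 21) (.e (nat_lit 164327) (nat_lit 230) (.e (nat_lit 163879) (nat_lit 4) .nil)))))) (.g (nat_lit 1) (.e (nat_lit 234011) (nat_lit 0) .nil) .nil)))) (.nd (nat_lit 9) 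
(.lf (nat_lit 525778) (.g (nat_lit 1951) (.e (nat_lit 213000) (nat_lit 9) (.e (nat_lit 2666) (nat_lit 167) (.e (nat_lit 196656) (nat_lit 11) (.e (nat_lit 16436) (nat_lit 9) (.e (nat_lit 426131) (nat_lit 3) .nil))))) (.g (nat_lit 0) (.e (nat_lit 233676) (nat_lit 0) .nil) .nil))) 
(.lf (nat_lit 526290) (.g (nat_lit 627) (.e (nat_lit 213032) (nat_lit 11) (.e (nat_lit 24607) (nat_lit 3) (.e (nat_lit 98382) (nat_lit 31) .nil))) (.g (nat_lit 0) (.e (nat_lit 234457) (nat_lit 0) .nil) .nil))))))) (.nd (nat_lit 6) (.nd (nat_lit 7) (.nd (nat_lit 8) (.nd (nat_lit 9) 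
(.lf (nat_lit 525362) (.g (nat_lit 2905) (.e (nat_lit 204882) (nat_lit 32) (.e (nat_lit 385068) (nat_lit 26) (.e (nat_lit 532566) (nat_lit 15) (.e (nat_lit 385068) (nat_lit 26) (.e (nat_lit 532534) (nat_lit 9) (.e (nat_lit 336324) (nat_lit 18) .nil)))))) (.g (nat_lit 1) (.e (nat_lit 232787) (nat_lit 0) .nil) .nil))) 
(.lf (nat_lit 525874) (.g (nat_lit 2119) (.e (nat_lit 213030) (nat_lit 11) (.e (nat_lit 24609) (nat_lit 3) (.e (nat_lit 98381) (nat_lit 31) (.e (nat_lit 466947) (nat_lit 0) (.e (nat_lit 1800) (nat_lit 119) (.e (nat_lit 516127) (nat_lit 2) .nil)))))) (.g (nat_lit 1) (.e (nat_lit 233837) (nat_lit 0) .nil) .nil)))) (.nd (nat_lit 9) 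
(.lf (nat_lit 525618) (.g (nat_lit 1442) (.e (nat_lit 204885) (nat_lit 33) (.e (nat_lit 401448) (nat_lit 10) (.e (nat_lit 434247) (nat_lit 28) (.e (nat_lit 573471) (nat_lit 11) .nil)))) (.g (nat_lit 0) (.e (nat_lit 233446) (nat_lit 0) .nil) .nil))) 
(.lf (nat_lit 526130) (.g (nat_lit 1764) (.e (nat_lit 213030) (nat_lit 11) (.e (nat_lit 24657) (nat_lit 13) (.e (nat_lit 393281) (nat_lit 23) (.e (nat_lit 426108) (nat_lit 1) (.e (nat_lit 164329) (nat_lit 230) .nil))))) (.g (nat_lit 0) (.e (nat_lit 234128) (nat_lit 0) .nil) .nil))))) (.nd (nat_lit 8) (.nd (nat_lit 9) 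
(.lf (nat_lit 525490) (.g (nat_lit 2139) (.e (nat_lit 204884) (nat_lit 33) (.e (nat_lit 401459) (nat_lit 13) (.e (nat_lit 483350) (nat_lit 17) (.e (nat_lit 7936) (nat_lit 153) .nil)))) (.g (nat_lit 0) (.e (nat_lit 233088) (nat_lit 0) .nil) .nil))) 
(.lf (nat_lit 526002) (.g (nat_lit 2715) (.e (nat_lit 213030) (nat_lit 11) (.e (nat_lit 24625) (nat_lit 9) (.e (nat_lit 336443) (nat_lit 32) (.e (nat_lit 466969) (nat_lit 21) (.e (nat_lit 164330) (nat_lit 230) (.e (nat_lit 163880) (nat_lit 4) .nil)))))) (.g (nat_lit 1) (.e (nat_lit 233979) (nat_lit 0) .nil) .nil)))) (.nd (nat_lit 9) 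
(.lf (nat_lit 525746) (.g (nat_lit 509) (.e (nat_lit 220928) (nat_lit 6) (.e (nat_lit 81939) (nat_lit 20) (.e (nat_lit 2006) (nat_lit 138) (.e (nat_lit 671764) (nat_lit 6) (.e (nat_lit 89856) (nat_lit 4) .nil))))) (.g (nat_lit 0) (.e (nat_lit 233639) (nat_lit 0) .nil) .nil))) 
(.lf (nat_lit 526258) (.g (nat_lit 457) (.e (nat_lit 213032) (nat_lit 11) (.e (nat_lit 24604) (nat_lit 2) (.e (nat_lit 90174) (nat_lit 14) .nil))) (.g (nat_lit 0) (.e (nat_lit 234411) (nat_lit 0) .nil) .nil)))))) (.nd (nat_lit 7) (.nd (nat_lit 8) (.nd (nat_lit 9) 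
(.lf (nat_lit 525426) (.g (nat_lit 749) (.e (nat_lit 204883) (nat_lit 33) (.e (nat_lit 401458) (nat_lit 13) (.e (nat_lit 491264) (nat_lit 10) .nil))) (.g (nat_lit 0) (.e (nat_lit 232902) (nat_lit 0) .nil) .nil))) 
(.lf (nat_lit 525938) (.g (nat_lit 2097) (.e (nat_lit 213030) (nat_lit 11) (.e (nat_lit 24617) (nat_lit 7) (.e (nat_lit 319534) (nat_lit 16) (.e (nat_lit 286742) (nat_lit 9) .nil)))) (.g (nat_lit 0) (.e (nat_lit 233913) (nat_lit 0) .nil) .nil)))) (.nd (nat_lit 9) 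
(.lf (nat_lit 525682) (.g (nat_lit 375) (.e (nat_lit 220928) (nat_lit 4) (.e (nat_lit 65630) (nat_lit 14) (.e (nat_lit 401456) (nat_lit 13) .nil))) (.g (nat_lit 0) (.e (nat_lit 233569) (nat_lit 0) .nil) .nil))) 
(.lf (nat_lit 526194) (.g (nat_lit 1103) (.e (nat_lit 213030) (nat_lit 11) (.e (nat_lit 24665) (nat_lit 14) (.e (nat_lit 401444) (nat_lit 9) .nil))) (.g (nat_lit 0) (.e (nat_lit 234211) (nat_lit 0) .nil) .nil))))) (.nd (nat_lit 8) (.nd (nat_lit 9) 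
(.lf (nat_lit 525554) (.g (nat_lit 2759) (.e (nat_lit 204885) (nat_lit 33) (.e (nat_lit 401448) (nat_lit 10) (.e (nat_lit 434231) (nat_lit 23) (.e (nat_lit 532525) (nat_lit 8) (.e (nat_lit 327718) (nat_lit 19) (.e (nat_lit 311314) (nat_lit 3) .nil)))))) (.g (nat_lit 1) (.e (nat_lit 233308) (nat_lit 0) .nil) .nil))) 
(.lf (nat_lit 526066) (.g (nat_lit 2632) (.e (nat_lit 213030) (nat_lit 11) (.e (nat_lit 24629) (nat_lit 9) (.e (nat_lit 336443) (nat_lit 32) (.e (nat_lit 466969) (nat_lit 21) (.e (nat_lit 164326) (nat_lit 230) (.e (nat_lit 163879) (nat_lit 4) .nil)))))) (.g (nat_lit 1) (.e (nat_lit 234044) (nat_lit 0) .nil) .nil)))) (.nd (nat_lit 9) 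
(.lf (nat_lit 525810) (.g (nat_lit 2212) (.e (nat_lit 213019) (nat_lit 9) (.e (nat_lit 2684) (nat_lit 168) (.e (nat_lit 204830) (nat_lit 18) (.e (nat_lit 57927) (nat_lit 282) (.e (nat_lit 163866) (nat_lit 2) .nil))))) (.g (nat_lit 0) (.e (nat_lit 233764) (nat_lit 0) .nil) .nil))) 
(.lf (nat_lit 526322) (.g (nat_lit 814) (.e (nat_lit 213032) (nat_lit 11) (.e (nat_lit 24608) (nat_lit 3) (.e (nat_lit 98371) (nat_lit 28) .nil))) (.g (nat_lit 0) (.e (nat_lit 234500) (nat_lit 0) .nil) .nil))))))))) (.nd (nat_lit 4) (.nd (nat_lit 5) (.nd (nat_lit 6) (.nd (nat_lit 7) (.nd (nat_lit 8) (.nd (nat_lit 9) 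
(.lf (nat_lit 525322) (.g (nat_lit 1745) (.e (nat_lit 204882) (nat_lit 32) (.e (nat_lit 385068) (nat_lit 26) (.e (nat_lit 532503) (nat_lit 1) (.e (nat_lit 57848) (nat_lit 252) .nil)))) (.g (nat_lit 0) (.e (nat_lit 232741) (nat_lit 0) .nil) .nil))) 
(.lf (nat_lit 525834) (.g (nat_lit 2312) (.e (nat_lit 213030) (nat_lit 11) (.e (nat_lit 24605) (nat_lit 2) (.e (nat_lit 90178) (nat_lit 15) (.e (nat_lit 188418) (nat_lit 0) (.e (nat_lit 1800) (nat_lit 119) (.e (nat_lit 516124) (nat_lit 2) .nil)))))) (.g (nat_lit 1) (.e (nat_lit 233794) (nat_lit 0) .nil) .nil)))) (.nd (nat_lit 9) 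
(.lf (nat_lit 525578) (.g (nat_lit 2081) (.e (nat_lit 204885) (nat_lit 33) (.e (nat_lit 401448) (nat_lit 10) (.e (nat_lit 434232) (nat_lit 23) (.e (nat_lit 532526) (nat_lit 8) (.e (nat_lit 327718) (nat_lit 19) (.e (nat_lit 311314) (nat_lit 3) .nil)))))) (.g (nat_lit 1) (.e (nat_lit 233332) (nat_lit 0) .nil) .nil))) 
(.lf (nat_lit 526090) (.g (nat_lit 1860) (.e (nat_lit 213030) (nat_lit 11) (.e (nat_lit 24630) (nat_lit 9) (.e (nat_lit 336443) (nat_lit 32) (.e (nat_lit 466971) (nat_lit 21) (.e (nat_lit 164329) (nat_lit 230) .nil))))) (.g (nat_lit 0) (.e (nat_lit 234085) (nat_lit 0) .nil) .nil))))) (.nd (nat_lit 8) (.nd (nat_lit 9) 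
(.lf (nat_lit 525450) (.g (nat_lit 564) (.e (nat_lit 204883) (nat_lit 33) (.e (nat_lit 401459) (nat_lit 13) (.e (nat_lit 483354) (nat_lit 17) .nil))) (.g (nat_lit 0) (.e (nat_lit 232942) (nat_lit 0) .nil) .nil))) 
(.lf (nat_lit 525962) (.g (nat_lit 2580) (.e (nat_lit 213030) (nat_lit 11) (.e (nat_lit 24617) (nat_lit 7) (.e (nat_lit 319534) (nat_lit 16) (.e (nat_lit 286756) (nat_lit 10) (.e (nat_lit 344168) (nat_lit 40) (.e (nat_lit 671771) (nat_lit 9) (.e (nat_lit 2694) (nat_lit 169) .nil))))))) (.g (nat_lit 1) (.e (nat_lit 233937) (nat_lit 0) .nil) .nil)))) (.nd (nat_lit 9) 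
(.lf (nat_lit 525706) (.g (nat_lit 1261) (.e (nat_lit 220928) (nat_lit 5) (.e (nat_lit 73781) (nat_lit 32) (.e (nat_lit 3090) (nat_lit 191) (.e (nat_lit 483391) (nat_lit 23) .nil)))) (.g (nat_lit 0) (.e (nat_lit 233593) (nat_lit 0) .nil) .nil))) 
(.lf (nat_lit 526218) (.g (nat_lit 2340) (.e (nat_lit 213031) (nat_lit 11) (.e (nat_lit 24628) (nat_lit 9) (.e (nat_lit 336443) (nat_lit 32) (.e (nat_lit 466972) (nat_lit 21) (.e (nat_lit 164332) (nat_lit 230) .nil))))) (.g (nat_lit 0) (.e (nat_lit 234308) (nat_lit 0) .nil) .nil)))))) (.nd (nat_lit 7) (.nd (nat_lit 8) (.nd (nat_lit 9) 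
(.lf (nat_lit 525386) (.g (nat_lit 3710) (.e (nat_lit 204883) (nat_lit 33) (.e (nat_lit 401450) (nat_lit 12) (.e (nat_lit 475185) (nat_lit 29) (.e (nat_lit 557098) (nat_lit 13) (.e (nat_lit 172097) (nat_lit 9) .nil))))) (.g (nat_lit 0) (.e (nat_lit 232833) (nat_lit 0) .nil) .nil))) 
(.lf (nat_lit 525898) (.g (nat_lit 2710) (.e (nat_lit 213030) (nat_lit 11) (.e (nat_lit 24617) (nat_lit 7) (.e (nat_lit 319531) (nat_lit 16) (.e (nat_lit 286759) (nat_lit 12) (.e (nat_lit 385107) (nat_lit 51) (.e (nat_lit 794676) (nat_lit 24) .nil)))))) (.g (nat_lit 1) (.e (nat_lit 233872) (nat_lit 0) .nil) .nil)))) (.nd (nat_lit 9) 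
(.lf (nat_lit 525642) (.g (nat_lit 4586) (.e (nat_lit 204885) (nat_lit 33) (.e (nat_lit 401451) (nat_lit 12) (.e (nat_lit 475185) (nat_lit 29) (.e (nat_lit 557109) (nat_lit 15) (.e (nat_lit 188452) (nat_lit 23) .nil))))) (.g (nat_lit 1) (.e (nat_lit 233502) (nat_lit 0) .nil) .nil))) 
(.lf (nat_lit 526154) (.g (nat_lit 2158) (.e (nat_lit 213030) (nat_lit 11) (.e (nat_lit 24659) (nat_lit 13) (.e (nat_lit 393283) (nat_lit 24) (.e (nat_lit 434209) (nat_lit 18) (.e (nat_lit 5223) (nat_lit 296) (.e (nat_lit 163881) (nat_lit 4) .nil)))))) (.g (nat_lit 1) (.e (nat_lit 234152) (nat_lit 0) .nil) .nil))))) (.nd (nat_lit 8) (.nd (nat_lit 9) 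
(.lf (nat_lit 525514) (.g (nat_lit 1066) (.e (nat_lit 204885) (nat_lit 33) (.e (nat_lit 401446) (nat_lit 10) (.e (nat_lit 434231) (nat_lit 23) (.e (nat_lit 532490) (nat_lit 0) .nil)))) (.g (nat_lit 0) (.e (nat_lit 233147) (nat_lit 0) .nil) .nil))) 
(.lf (nat_lit 526026) (.g (nat_lit 767) (.e (nat_lit 213030) (nat_lit 11) (.e (nat_lit 24627) (nat_lit 9) (.e (nat_lit 336426) (nat_lit 29) .nil))) (.g (nat_lit 0) (.e (nat_lit 234003) (nat_lit 0) .nil) .nil)))) (.nd (nat_lit 9) 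
(.lf (nat_lit 525770) (.g (nat_lit 1716) (.e (nat_lit 220928) (nat_lit 6) (.e (nat_lit 81959) (nat_lit 24) (.e (nat_lit 123183) (nat_lit 264) (.e (nat_lit 1296) (nat_lit 96) (.e (nat_lit 131105) (nat_lit 9) .nil))))) (.g (nat_lit 0) (.e (nat_lit 233663) (nat_lit 0) .nil) .nil))) 
(.lf (nat_lit 526282) (.g (nat_lit 2282) (.e (nat_lit 213032) (nat_lit 11) (.e (nat_lit 24607) (nat_lit 3) (.e (nat_lit 98365) (nat_lit 26) (.e (nat_lit 426188) (nat_lit 9) (.e (nat_lit 426434) (nat_lit 18) (.e (nat_lit 98337) (nat_lit 19) .nil)))))) (.g (nat_lit 1) (.e (nat_lit 234449) (nat_lit 0) .nil) .nil))))))) (.nd (nat_lit 6) (.nd (nat_lit 7) (.nd (nat_lit 8) (.nd (nat_lit 9) 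
(.lf (nat_lit 525354) (.g (nat_lit 1568) (.e (nat_lit 204882) (nat_lit 32) (.e (nat_lit 385068) (nat_lit 26) (.e (nat_lit 532563) (nat_lit 15) (.e (nat_lit 385066) (nat_lit 26) (.e (nat_lit 532532) (nat_lit 9) (.e (nat_lit 343808) (nat_lit 18) .nil)))))) (.g (nat_lit 1) (.e (nat_lit 232779) (nat_lit 0) .nil) .nil))) 
(.lf (nat_lit 525866) (.g (nat_lit 1330) (.e (nat_lit 213030) (nat_lit 11) (.e (nat_lit 24609) (nat_lit 3) (.e (nat_lit 98365) (nat_lit 26) (.e (nat_lit 426188) (nat_lit 9) (.e (nat_lit 426434) (nat_lit 18) .nil))))) (.g (nat_lit 0) (.e (nat_lit 233829) (nat_lit 0) .nil) .nil)))) (.nd (nat_lit 9) 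
(.lf (nat_lit 525610) (.g (nat_lit 394) (.e (nat_lit 204885) (nat_lit 33) (.e (nat_lit 401448) (nat_lit 10) (.e (nat_lit 434246) (nat_lit 28) .nil))) (.g (nat_lit 0) (.e (nat_lit 233419) (nat_lit 0) .nil) .nil))) 
(.lf (nat_lit 526122) (.g (nat_lit 2499) (.e (nat_lit 213030) (nat_lit 11) (.e (nat_lit 24657) (nat_lit 13) (.e (nat_lit 393271) (nat_lit 23) (.e (nat_lit 426112) (nat_lit 1) (.e (nat_lit 164326) (nat_lit 230) (.e (nat_lit 163881) (nat_lit 4) .nil)))))) (.g (nat_lit 1) (.e (nat_lit 234120) (nat_lit 0) .nil) .nil))))) (.nd (nat_lit 8) (.nd (nat_lit 9) 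
(.lf (nat_lit 525482) (.g (nat_lit 1067) (.e (nat_lit 204884) (nat_lit 33) (.e (nat_lit 401459) (nat_lit 13) (.e (nat_lit 491264) (nat_lit 10) .nil))) (.g (nat_lit 0) (.e (nat_lit 233074) (nat_lit 0) .nil) .nil))) 
(.lf (nat_lit 525994) (.g (nat_lit 1872) (.e (nat_lit 213030) (nat_lit 11) (.e (nat_lit 24624) (nat_lit 9) (.e (nat_lit 336443) (nat_lit 32) (.e (nat_lit 466969) (nat_lit 21) (.e (nat_lit 164329) (nat_lit 230) .nil))))) (.g (nat_lit 0) (.e (nat_lit 233970) (nat_lit 0) .nil) .nil)))) (.nd (nat_lit 9) 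
(.lf (nat_lit 525738) (.g (nat_lit 931) (.e (nat_lit 220928) (nat_lit 6) (.e (nat_lit 81935) (nat_lit 20) (.e (nat_lit 1994) (nat_lit 137) (.e (nat_lit 663569) (nat_lit 6) (.e (nat_lit 89856) (nat_lit 4) .nil))))) (.g (nat_lit 0) (.e (nat_lit 233631) (nat_lit 0) .nil) .nil))) 
(.lf (nat_lit 526250) (.g (nat_lit 1862) (.e (nat_lit 213032) (nat_lit 11) (.e (nat_lit 24603) (nat_lit 2) (.e (nat_lit 90185) (nat_lit 17) (.e (nat_lit 237601) (nat_lit 9) (.e (nat_lit 426436) (nat_lit 18) (.e (nat_lit 98338) (nat_lit 19) .nil)))))) (.g (nat_lit 1) (.e (nat_lit 234398) (nat_lit 0) .nil) .nil)))))) (.nd (nat_lit 7) (.nd (nat_lit 8) (.nd (nat_lit 9) 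
(.lf (nat_lit 525418) (.g (nat_lit 2298) (.e (nat_lit 204883) (nat_lit 33) (.e (nat_lit 401457) (nat_lit 13) (.e (nat_lit 483341) (nat_lit 9) (.e (nat_lit 426106) (nat_lit 1) .nil)))) (.g (nat_lit 0) (.e (nat_lit 232893) (nat_lit 0) .nil) .nil))) 
(.lf (nat_lit 525930) (.g (nat_lit 3080) (.e (nat_lit 213030) (nat_lit 11) (.e (nat_lit 24617) (nat_lit 7) (.e (nat_lit 319533) (nat_lit 16) (.e (nat_lit 286753) (nat_lit 10) (.e (nat_lit 344169) (nat_lit 40) (.e (nat_lit 671776) (nat_lit 9) (.e (nat_lit 2686) (nat_lit 169) .nil))))))) (.g (nat_lit 1) (.e (nat_lit 233905) (nat_lit 0) .nil) .nil)))) (.nd (nat_lit 9) 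
(.lf (nat_lit 525674) (.g (nat_lit 2480) (.e (nat_lit 220928) (nat_lit 4) (.e (nat_lit 65628) (nat_lit 14) (.e (nat_lit 401457) (nat_lit 13) (.e (nat_lit 483383) (nat_lit 23) (.e (nat_lit 336330) (nat_lit 19) .nil))))) (.g (nat_lit 0) (.e (nat_lit 233561) (nat_lit 0) .nil) .nil))) 
(.lf (nat_lit 526186) (.g (nat_lit 1920) (.e (nat_lit 213030) (nat_lit 11) (.e (nat_lit 24660) (nat_lit 13) (.e (nat_lit 393284) (nat_lit 24) (.e (nat_lit 434209) (nat_lit 18) (.e (nat_lit 5224) (nat_lit 296) (.e (nat_lit 163881) (nat_lit 4) .nil)))))) (.g (nat_lit 1) (.e (nat_lit 234185) (nat_lit 0) .nil) .nil))))) (.nd (nat_lit 8) (.nd (nat_lit 9) 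
(.lf (nat_lit 525546) (.g (nat_lit 2876) (.e (nat_lit 204885) (nat_lit 33) (.e (nat_lit 401448) (nat_lit 10) (.e (nat_lit 434231) (nat_lit 23) (.e (nat_lit 532490) (nat_lit 0) (.e (nat_lit 7936) (nat_lit 361) (.e (nat_lit 172066) (nat_lit 3) .nil)))))) (.g (nat_lit 1) (.e (nat_lit 233300) (nat_lit 0) .nil) .nil))) 
(.lf (nat_lit 526058) (.g (nat_lit 2449) (.e (nat_lit 213030) (nat_lit 11) (.e (nat_lit 24629) (nat_lit 9) (.e (nat_lit 336426) (nat_lit 29) (.e (nat_lit 442421) (nat_lit 21) (.e (nat_lit 164326) (nat_lit 230) (.e (nat_lit 163881) (nat_lit 4) .nil)))))) (.g (nat_lit 1) (.e (nat_lit 234035) (nat_lit 0) .nil) .nil)))) (.nd (nat_lit 9) 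
(.lf (nat_lit 525802) (.g (nat_lit 1562) (.e (nat_lit 213019) (nat_lit 9) (.e (nat_lit 2610) (nat_lit 163) (.e (nat_lit 164345) (nat_lit 240) (.e (nat_lit 2638) (nat_lit 165) (.e (nat_lit 188160) (nat_lit 38) .nil))))) (.g (nat_lit 0) (.e (nat_lit 233745) (nat_lit 0) .nil) .nil))) 
(.lf (nat_lit 526314) (.g (nat_lit 1742) (.e (nat_lit 213032) (nat_lit 11) (.e (nat_lit 24608) (nat_lit 3) (.e (nat_lit 98365) (nat_lit 26) (.e (nat_lit 426306) (nat_lit 12) (.e (nat_lit 475175) (nat_lit 24) .nil))))) (.g (nat_lit 0) (.e (nat_lit 234483) (nat_lit 0) .nil) .nil)))))))) (.nd (nat_lit 5) (.nd (nat_lit 6) (.nd (nat_lit 7) (.nd (nat_lit 8) (.nd (nat_lit 9) 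
(.lf (nat_lit 525338) (.g (nat_lit 1916) (.e (nat_lit 204882) (nat_lit 32) (.e (nat_lit 385068) (nat_lit 26) (.e (nat_lit 532530) (nat_lit 9) (.e (nat_lit 336318) (nat_lit 17) .nil)))) (.g (nat_lit 0) (.e (nat_lit 232759) (nat_lit 0) .nil) .nil))) 
(.lf (nat_lit 525850) (.g (nat_lit 2442) (.e (nat_lit 213030) (nat_lit 11) (.e (nat_lit 24608) (nat_lit 3) (.e (nat_lit 98356) (nat_lit 26) (.e (nat_lit 426320) (nat_lit 12) (.e (nat_lit 475179) (nat_lit 24) .nil))))) (.g (nat_lit 0) (.e (nat_lit 233810) (nat_lit 0) .nil) .nil)))) (.nd (nat_lit 9) 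
(.lf (nat_lit 525594) (.g (nat_lit 2635) (.e (nat_lit 204885) (nat_lit 33) (.e (nat_lit 401448) (nat_lit 10) (.e (nat_lit 434234) (nat_lit 23) (.e (nat_lit 532523) (nat_lit 7) (.e (nat_lit 319537) (nat_lit 19) (.e (nat_lit 311315) (nat_lit 3) .nil)))))) (.g (nat_lit 1) (.e (nat_lit 233348) (nat_lit 0) .nil) .nil))) 
(.lf (nat_lit 526106) (.g (nat_lit 2019) (.e (nat_lit 213030) (nat_lit 11) (.e (nat_lit 24655) (nat_lit 13) (.e (nat_lit 393281) (nat_lit 23) (.e (nat_lit 426108) (nat_lit 1) (.e (nat_lit 164329) (nat_lit 230) .nil))))) (.g (nat_lit 0) (.e (nat_lit 234104) (nat_lit 0) .nil) .nil))))) (.nd (nat_lit 8) (.nd (nat_lit 9) 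
(.lf (nat_lit 525466) (.g (nat_lit 3714) (.e (nat_lit 204884) (nat_lit 33) (.e (nat_lit 401451) (nat_lit 12) (.e (nat_lit 475185) (nat_lit 29) (.e (nat_lit 557098) (nat_lit 13) .nil)))) (.g (nat_lit 0) (.e (nat_lit 233047) (nat_lit 0) .nil) .nil))) 
(.lf (nat_lit 525978) (.g (nat_lit 2716) (.e (nat_lit 213030) (nat_lit 11) (.e (nat_lit 24617) (nat_lit 7) (.e (nat_lit 319534) (nat_lit 16) (.e (nat_lit 286756) (nat_lit 10) (.e (nat_lit 344169) (nat_lit 40) (.e (nat_lit 671776) (nat_lit 9) (.e (nat_lit 2693) (nat_lit 169) .nil))))))) (.g (nat_lit 1) (.e (nat_lit 233953) (nat_lit 0) .nil) .nil)))) (.nd (nat_lit 9) 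
(.lf (nat_lit 525722) (.g (nat_lit 429) (.e (nat_lit 220928) (nat_lit 6) (.e (nat_lit 81920) (nat_lit 0) (.e (nat_lit 3715) (nat_lit 227) (.e (nat_lit 778325) (nat_lit 6) (.e (nat_lit 89856) (nat_lit 4) .nil))))) (.g (nat_lit 0) (.e (nat_lit 233609) (nat_lit 0) .nil) .nil))) 
(.lf (nat_lit 526234) (.g (nat_lit 809) (.e (nat_lit 213031) (nat_lit 11) (.e (nat_lit 24657) (nat_lit 13) (.e (nat_lit 393281) (nat_lit 23) .nil))) (.g (nat_lit 0) (.e (nat_lit 234326) (nat_lit 0) .nil) .nil)))))) (.nd (nat_lit 7) (.nd (nat_lit 8) (.nd (nat_lit 9) 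
(.lf (nat_lit 525402) (.g (nat_lit 1469) (.e (nat_lit 204883) (nat_lit 33) (.e (nat_lit 401454) (nat_lit 12) (.e (nat_lit 475177) (nat_lit 24) .nil))) (.g (nat_lit 0) (.e (nat_lit 232865) (nat_lit 0) .nil) .nil))) 
(.lf (nat_lit 525914) (.g (nat_lit 2743) (.e (nat_lit 213030) (nat_lit 11) (.e (nat_lit 24617) (nat_lit 7) (.e (nat_lit 319533) (nat_lit 16) (.e (nat_lit 286753) (nat_lit 10) (.e (nat_lit 344097) (nat_lit 18) (.e (nat_lit 5194) (nat_lit 294) (.e (nat_lit 65280) (nat_lit 65) .nil))))))) (.g (nat_lit 1) (.e (nat_lit 233889) (nat_lit 0) .nil) .nil)))) (.nd (nat_lit 9) 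
(.lf (nat_lit 525658) (.g (nat_lit 1043) (.e (nat_lit 220928) (nat_lit 2) (.e (nat_lit 16415) (nat_lit 3) (.e (nat_lit 204884) (nat_lit 33) (.e (nat_lit 401454) (nat_lit 12) .nil)))) (.g (nat_lit 0) (.e (nat_lit 233535) (nat_lit 0) .nil) .nil))) 
(.lf (nat_lit 526170) (.g (nat_lit 1885) (.e (nat_lit 213030) (nat_lit 11) (.e (nat_lit 24660) (nat_lit 13) (.e (nat_lit 393275) (nat_lit 23) (.e (nat_lit 426109) (nat_lit 1) (.e (nat_lit 164326) (nat_lit 230) (.e (nat_lit 163881) (nat_lit 4) .nil)))))) (.g (nat_lit 1) (.e (nat_lit 234168) (nat_lit 0) .nil) .nil))))) (.nd (nat_lit 8) (.nd (nat_lit 9) 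
(.lf (nat_lit 525530) (.g (nat_lit 1011) (.e (nat_lit 204885) (nat_lit 33) (.e (nat_lit 401448) (nat_lit 10) (.e (nat_lit 434223) (nat_lit 19) .nil))) (.g (nat_lit 0) (.e (nat_lit 233280) (nat_lit 0) .nil) .nil))) 
(.lf (nat_lit 526042) (.g (nat_lit 2846) (.e (nat_lit 213030) (nat_lit 11) (.e (nat_lit 24627) (nat_lit 9) (.e (nat_lit 336443) (nat_lit 32) (.e (nat_lit 466971) (nat_lit 21) (.e (nat_lit 164327) (nat_lit 230) (.e (nat_lit 163879) (nat_lit 4) .nil)))))) (.g (nat_lit 1) (.e (nat_lit 234019) (nat_lit 0) .nil) .nil)))) (.nd (nat_lit 9) 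
(.lf (nat_lit 525786) (.g (nat_lit 3287) (.e (nat_lit 213013) (nat_lit 9) (.e (nat_lit 2666) (nat_lit 167) (.e (nat_lit 196666) (nat_lit 13) (.e (nat_lit 65569) (nat_lit 3) (.e (nat_lit 98335) (nat_lit 18) .nil))))) (.g (nat_lit 0) (.e (nat_lit 233699) (nat_lit 0) .nil) .nil))) 
(.lf (nat_lit 526298) (.g (nat_lit 3280) (.e (nat_lit 213032) (nat_lit 11) (.e (nat_lit 24608) (nat_lit 3) (.e (nat_lit 98356) (nat_lit 26) (.e (nat_lit 426320) (nat_lit 12) (.e (nat_lit 475179) (nat_lit 24) (.e (nat_lit 516127) (nat_lit 2) .nil)))))) (.g (nat_lit 1) (.e (nat_lit 234466) (nat_lit 0) .nil) .nil))))))) (.nd (nat_lit 6) (.nd (nat_lit 7) (.nd (nat_lit 8) (.nd (nat_lit 9) 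
(.lf (nat_lit 525370) (.g (nat_lit 2995) (.e (nat_lit 204882) (nat_lit 32) (.e (nat_lit 385108) (nat_lit 51) (.e (nat_lit 794666) (nat_lit 22) (.e (nat_lit 196654) (nat_lit 11) (.e (nat_lit 16436) (nat_lit 9) (.e (nat_lit 426131) (nat_lit 3) .nil)))))) (.g (nat_lit 1) (.e (nat_lit 232797) (nat_lit 0) .nil) .nil))) 
(.lf (nat_lit 525882) (.g (nat_lit 2418) (.e (nat_lit 213030) (nat_lit 11) (.e (nat_lit 24617) (nat_lit 7) (.e (nat_lit 319529) (nat_lit 16) (.e (nat_lit 286759) (nat_lit 12) (.e (nat_lit 385107) (nat_lit 51) (.e (nat_lit 794677) (nat_lit 24) .nil)))))) (.g (nat_lit 1) (.e (nat_lit 233855) (nat_lit 0) .nil) .nil)))) (.nd (nat_lit 9) 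
(.lf (nat_lit 525626) (.g (nat_lit 1022) (.e (nat_lit 204885) (nat_lit 33) (.e (nat_lit 401448) (nat_lit 10) (.e (nat_lit 434249) (nat_lit 29) .nil))) (.g (nat_lit 0) (.e (nat_lit 233464) (nat_lit 0) .nil) .nil))) 
(.lf (nat_lit 526138) (.g (nat_lit 2243) (.e (nat_lit 213030) (nat_lit 11) (.e (nat_lit 24659) (nat_lit 13) (.e (nat_lit 393268) (nat_lit 23) (.e (nat_lit 426448) (nat_lit 20) (.e (nat_lit 122624) (nat_lit 4) .nil))))) (.g (nat_lit 1) (.e (nat_lit 234136) (nat_lit 0) .nil) .nil))))) (.nd (nat_lit 8) (.nd (nat_lit 9) 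
(.lf (nat_lit 525498) (.g (nat_lit 2863) (.e (nat_lit 204885) (nat_lit 33) (.e (nat_lit 401434) (nat_lit 9) (.e (nat_lit 426125) (nat_lit 2) (.e (nat_lit 196661) (nat_lit 12) (.e (nat_lit 57714) (nat_lit 176) (.e (nat_lit 1383) (nat_lit 105) (.e (nat_lit 311314) (nat_lit 3) .nil))))))) (.g (nat_lit 1) (.e (nat_lit 233102) (nat_lit 0) .nil) .nil))) 
(.lf (nat_lit 526010) (.g (nat_lit 2976) (.e (nat_lit 213030) (nat_lit 11) (.e (nat_lit 24625) (nat_lit 9) (.e (nat_lit 336443) (nat_lit 32) (.e (nat_lit 466972) (nat_lit 21) (.e (nat_lit 164330) (nat_lit 230) (.e (nat_lit 163880) (nat_lit 4) .nil)))))) (.g (nat_lit 1) (.e (nat_lit 233987) (nat_lit 0) .nil) .nil)))) (.nd (nat_lit 9) 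
(.lf (nat_lit 525754) (.g (nat_lit 1005) (.e (nat_lit 220928) (nat_lit 6) (.e (nat_lit 81947) (nat_lit 20) (.e (nat_lit 2005) (nat_lit 138) (.e (nat_lit 671764) (nat_lit 6) (.e (nat_lit 89856) (nat_lit 4) .nil))))) (.g (nat_lit 0) (.e (nat_lit 233647) (nat_lit 0) .nil) .nil))) 
(.lf (nat_lit 526266) (.g (nat_lit 455) (.e (nat_lit 213032) (nat_lit 11) (.e (nat_lit 24604) (nat_lit 2) (.e (nat_lit 90185) (nat_lit 17) .nil))) (.g (nat_lit 0) (.e (nat_lit 234433) (nat_lit 0) .nil) .nil)))))) (.nd (nat_lit 7) (.nd (nat_lit 8) (.nd (nat_lit 9) 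
(.lf (nat_lit 525434) (.g (nat_lit 654) (.e (nat_lit 204883) (nat_lit 33) (.e (nat_lit 401459) (nat_lit 13) (.e (nat_lit 483343) (nat_lit 17) .nil))) (.g (nat_lit 0) (.e (nat_lit 232917) (nat_lit 0) .nil) .nil))) 
(.lf (nat_lit 525946) (.g (nat_lit 2282) (.e (nat_lit 213030) (nat_lit 11) (.e (nat_lit 24617) (nat_lit 7) (.e (nat_lit 319534) (nat_lit 16) (.e (nat_lit 286749) (nat_lit 9) (.e (nat_lit 343808) (nat_lit 20) (.e (nat_lit 221219) (nat_lit 24) .nil)))))) (.g (nat_lit 1) (.e (nat_lit 233921) (nat_lit 0) .nil) .nil)))) (.nd (nat_lit 9) 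
(.lf (nat_lit 525690) (.g (nat_lit 2667) (.e (nat_lit 220928) (nat_lit 4) (.e (nat_lit 65630) (nat_lit 14) (.e (nat_lit 401457) (nat_lit 13) (.e (nat_lit 483383) (nat_lit 23) (.e (nat_lit 336330) (nat_lit 19) .nil))))) (.g (nat_lit 0) (.e (nat_lit 233577) (nat_lit 0) .nil) .nil))) 
(.lf (nat_lit 526202) (.g (nat_lit 638) (.e (nat_lit 213031) (nat_lit 11) (.e (nat_lit 24608) (nat_lit 3) (.e (nat_lit 98363) (nat_lit 26) .nil))) (.g (nat_lit 0) (.e (nat_lit 234292) (nat_lit 0) .nil) .nil))))) (.nd (nat_lit 8) (.nd (nat_lit 9) 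
(.lf (nat_lit 525562) (.g (nat_lit 1275) (.e (nat_lit 204885) (nat_lit 33) (.e (nat_lit 401448) (nat_lit 10) (.e (nat_lit 434231) (nat_lit 23) (.e (nat_lit 532569) (nat_lit 16) .nil)))) (.g (nat_lit 0) (.e (nat_lit 233316) (nat_lit 0) .nil) .nil))) 
(.lf (nat_lit 526074) (.g (nat_lit 1539) (.e (nat_lit 213030) (nat_lit 11) (.e (nat_lit 24630) (nat_lit 9) (.e (nat_lit 336443) (nat_lit 32) (.e (nat_lit 466968) (nat_lit 21) .nil)))) (.g (nat_lit 0) (.e (nat_lit 234069) (nat_lit 0) .nil) .nil)))) (.nd (nat_lit 9) 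
(.lf (nat_lit 525818) (.g (nat_lit 2622) (.e (nat_lit 213030) (nat_lit 11) (.e (nat_lit 24604) (nat_lit 2) (.e (nat_lit 90170) (nat_lit 13) (.e (nat_lit 172120) (nat_lit 12) (.e (nat_lit 475177) (nat_lit 24) .nil))))) (.g (nat_lit 0) (.e (nat_lit 233778) (nat_lit 0) .nil) .nil))) 
(.lf (nat_lit 526330) (.g (nat_lit 3110) (.e (nat_lit 213032) (nat_lit 11) (.e (nat_lit 24608) (nat_lit 3) (.e (nat_lit 98373) (nat_lit 29) (.e (nat_lit 450584) (nat_lit 9) (.e (nat_lit 565275) (nat_lit 9) (.e (nat_lit 7936) (nat_lit 169) .nil)))))) (.g (nat_lit 1) (.e (nat_lit 234516) (nat_lit 0) .nil) .nil)))))))))) 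
(.nd (nat_lit 3) (.nd (nat_lit 4) (.nd (nat_lit 5) (.nd (nat_lit 6) (.nd (nat_lit 7) 
(.nd (nat_lit 8) (.nd (nat_lit 9) 
(.lf (nat_lit 525318) (.g (nat_lit 3738) (.e (nat_lit 204882) (nat_lit 32) (.e (nat_lit 385068) (nat_lit 26) (.e (nat_lit 532501) (nat_lit 1) (.e (nat_lit 57851) (nat_lit 252) (.e (nat_lit 57347) (nat_lit 0) .nil))))) (.g (nat_lit 0) (.e (nat_lit 232737) (nat_lit 0) .nil) .nil))) 
(.lf (nat_lit 525830) (.g (nat_lit 2369) (.e (nat_lit 213030) (nat_lit 11) (.e (nat_lit 24605) (nat_lit 2) (.e (nat_lit 90170) (nat_lit 13) (.e (nat_lit 172113) (nat_lit 10) (.e (nat_lit 442112) (nat_lit 26) (.e (nat_lit 557065) (nat_lit 9) (.e (nat_lit 2700) (nat_lit 169) .nil))))))) (.g (nat_lit 1) (.e (nat_lit 233790) (nat_lit 0) .nil) .nil)))) (.nd (nat_lit 9) 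
(.lf (nat_lit 525574) (.g (nat_lit 2867) (.e (nat_lit 204885) (nat_lit 33) (.e (nat_lit 401448) (nat_lit 10) (.e (nat_lit 434232) (nat_lit 23) (.e (nat_lit 532523) (nat_lit 7) (.e (nat_lit 319511) (nat_lit 10) (.e (nat_lit 5664) (nat_lit 312) (.e (nat_lit 2679) (nat_lit 168) .nil))))))) (.g (nat_lit 1) (.e (nat_lit 233328) (nat_lit 0) .nil) .nil))) 
(.lf (nat_lit 526086) (.g (nat_lit 2964) (.e (nat_lit 213030) (nat_lit 11) (.e (nat_lit 24630) (nat_lit 9) (.e (nat_lit 336443) (nat_lit 32) (.e (nat_lit 466971) (nat_lit 21) (.e (nat_lit 164325) (nat_lit 230) (.e (nat_lit 163882) (nat_lit 4) .nil)))))) (.g (nat_lit 1) (.e (nat_lit 234081) (nat_lit 0) .nil) .nil))))) (.nd (nat_lit 8) (.nd (nat_lit 9) 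
(.lf (nat_lit 525446) (.g (nat_lit 507) (.e (nat_lit 204883) (nat_lit 33) (.e (nat_lit 401459) (nat_lit 13) (.e (nat_lit 483350) (nat_lit 17) .nil))) (.g (nat_lit 0) (.e (nat_lit 232932) (nat_lit 0) .nil) .nil))) 
(.lf (nat_lit 525958) (.g (nat_lit 1964) (.e (nat_lit 213030) (nat_lit 11) (.e (nat_lit 24617) (nat_lit 7) (.e (nat_lit 319534) (nat_lit 16) (.e (nat_lit 286756) (nat_lit 10) (.e (nat_lit 344168) (nat_lit 40) .nil))))) (.g (nat_lit 0) (.e (nat_lit 233933) (nat_lit 0) .nil) .nil)))) (.nd (nat_lit 9) 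
(.lf (nat_lit 525702) (.g (nat_lit 2047) (.e (nat_lit 220928) (nat_lit 5) (.e (nat_lit 73781) (nat_lit 32) (.e (nat_lit 3090) (nat_lit 191) (.e (nat_lit 483380) (nat_lit 23) (.e (nat_lit 336327) (nat_lit 19) .nil))))) (.g (nat_lit 0) (.e (nat_lit 233589) (nat_lit 0) .nil) .nil))) 
(.lf (nat_lit 526214) (.g (nat_lit 812) (.e (nat_lit 213031) (nat_lit 11) (.e (nat_lit 24625) (nat_lit 9) (.e (nat_lit 336443) (nat_lit 32) .nil))) (.g (nat_lit 0) (.e (nat_lit 234304) (nat_lit 0) .nil) .nil)))))) (.nd (nat_lit 7) (.nd (nat_lit 8) (.nd (nat_lit 9) 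
(.lf (nat_lit 525382) (.g (nat_lit 788) (.e (nat_lit 204883) (nat_lit 33) (.e (nat_lit 401437) (nat_lit 9) (.e (nat_lit 426364) (nat_lit 15) .nil))) (.g (nat_lit 0) (.e (nat_lit 232817) (nat_lit 0) .nil) .nil))) 
(.lf (nat_lit 525894) (.g (nat_lit 1767) (.e (nat_lit 213030) (nat_lit 11) (.e (nat_lit 24617) (nat_lit 7) (.e (nat_lit 319531) (nat_lit 16) (.e (nat_lit 286748) (nat_lit 9) (.e (nat_lit 343808) (nat_lit 20) .nil))))) (.g (nat_lit 0) (.e (nat_lit 233868) (nat_lit 0) .nil) .nil)))) (.nd (nat_lit 9) 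
(.lf (nat_lit 525638) (.g (nat_lit 3200) (.e (nat_lit 204885) (nat_lit 33) (.e (nat_lit 401451) (nat_lit 12) (.e (nat_lit 475185) (nat_lit 29) (.e (nat_lit 557098) (nat_lit 13) .nil)))) (.g (nat_lit 0) (.e (nat_lit 233497) (nat_lit 0) .nil) .nil))) 
(.lf (nat_lit 526150) (.g (nat_lit 2423) (.e (nat_lit 213030) (nat_lit 11) (.e (nat_lit 24659) (nat_lit 13) (.e (nat_lit 393281) (nat_lit 23) (.e (nat_lit 426098) (nat_lit 1) (.e (nat_lit 164327) (nat_lit 230) (.e (nat_lit 163881) (nat_lit 4) .nil)))))) (.g (nat_lit 1) (.e (nat_lit 234148) (nat_lit 0) .nil) .nil))))) (.nd (nat_lit 8) (.nd (nat_lit 9) 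
(.lf (nat_lit 525510) (.g (nat_lit 583) (.e (nat_lit 204885) (nat_lit 33) (.e (nat_lit 401435) (nat_lit 9) (.e (nat_lit 426399) (nat_lit 15) .nil))) (.g (nat_lit 0) (.e (nat_lit 233129) (nat_lit 0) .nil) .nil))) 
(.lf (nat_lit 526022) (.g (nat_lit 2667) (.e (nat_lit 213030) (nat_lit 11) (.e (nat_lit 24626) (nat_lit 9) (.e (nat_lit 336443) (nat_lit 32) (.e (nat_lit 466971) (nat_lit 21) (.e (nat_lit 164326) (nat_lit 230) (.e (nat_lit 163882) (nat_lit 4) .nil)))))) (.g (nat_lit 1) (.e (nat_lit 233999) (nat_lit 0) .nil) .nil)))) (.nd (nat_lit 9) 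
(.lf (nat_lit 525766) (.g (nat_lit 1919) (.e (nat_lit 220928) (nat_lit 6) (.e (nat_lit 81959) (nat_lit 24) (.e (nat_lit 123182) (nat_lit 264) (.e (nat_lit 1223) (nat_lit 90) .nil)))) (.g (nat_lit 0) (.e (nat_lit 233659) (nat_lit 0) .nil) .nil))) 
(.lf (nat_lit 526278) (.g (nat_lit 1514) (.e (nat_lit 213032) (nat_lit 11) (.e (nat_lit 24605) (nat_lit 2) (.e (nat_lit 90170) (nat_lit 13) (.e (nat_lit 172118) (nat_lit 12) (.e (nat_lit 475177) (nat_lit 24) .nil))))) (.g (nat_lit 0) (.e (nat_lit 234445) (nat_lit 0) .nil) .nil))))))) (.nd (nat_lit 6) (.nd (nat_lit 7) (.nd (nat_lit 8) (.nd (nat_lit 9) 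
(.lf (nat_lit 525350) (.g (nat_lit 3067) (.e (nat_lit 204882) (nat_lit 32) (.e (nat_lit 385068) (nat_lit 26) (.e (nat_lit 532534) (nat_lit 9) (.e (nat_lit 336316) (nat_lit 17) (.e (nat_lit 196666) (nat_lit 13) (.e (nat_lit 73472) (nat_lit 18) .nil)))))) (.g (nat_lit 1) (.e (nat_lit 232771) (nat_lit 0) .nil) .nil))) 
(.lf (nat_lit 525862) (.g (nat_lit 2457) (.e (nat_lit 213030) (nat_lit 11) (.e (nat_lit 24608) (nat_lit 3) (.e (nat_lit 98380) (nat_lit 31) (.e (nat_lit 466947) (nat_lit 0) (.e (nat_lit 1800) (nat_lit 119) (.e (nat_lit 516126) (nat_lit 2) .nil)))))) (.g (nat_lit 1) (.e (nat_lit 233824) (nat_lit 0) .nil) .nil)))) (.nd (nat_lit 9) 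
(.lf (nat_lit 525606) (.g (nat_lit 2467) (.e (nat_lit 204885) (nat_lit 33) (.e (nat_lit 401448) (nat_lit 10) (.e (nat_lit 434245) (nat_lit 28) (.e (nat_lit 573471) (nat_lit 11) (.e (nat_lit 16440) (nat_lit 9) (.e (nat_lit 426140) (nat_lit 3) .nil)))))) (.g (nat_lit 1) (.e (nat_lit 233415) (nat_lit 0) .nil) .nil))) 
(.lf (nat_lit 526118) (.g (nat_lit 2114) (.e (nat_lit 213030) (nat_lit 11) (.e (nat_lit 24657) (nat_lit 13) (.e (nat_lit 393268) (nat_lit 23) (.e (nat_lit 426448) (nat_lit 20) (.e (nat_lit 122624) (nat_lit 4) .nil))))) (.g (nat_lit 1) (.e (nat_lit 234116) (nat_lit 0) .nil) .nil))))) (.nd (nat_lit 8) (.nd (nat_lit 9) 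
(.lf (nat_lit 525478) (.g (nat_lit 1083) (.e (nat_lit 204884) (nat_lit 33) (.e (nat_lit 401459) (nat_lit 13) (.e (nat_lit 483337) (nat_lit 9) .nil))) (.g (nat_lit 0) (.e (nat_lit 233070) (nat_lit 0) .nil) .nil))) 
(.lf (nat_lit 525990) (.g (nat_lit 1763) (.e (nat_lit 213030) (nat_lit 11) (.e (nat_lit 24623) (nat_lit 9) (.e (nat_lit 336443) (nat_lit 32) (.e (nat_lit 466972) (nat_lit 21) .nil)))) (.g (nat_lit 0) (.e (nat_lit 233966) (nat_lit 0) .nil) .nil)))) (.nd (nat_lit 9) 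
(.lf (nat_lit 525734) (.g (nat_lit 717) (.e (nat_lit 220928) (nat_lit 6) (.e (nat_lit 81931) (nat_lit 20) (.e (nat_lit 1994) (nat_lit 137) (.e (nat_lit 663569) (nat_lit 6) (.e (nat_lit 89856) (nat_lit 4) .nil))))) (.g (nat_lit 0) (.e (nat_lit 233627) (nat_lit 0) .nil) .nil))) 
(.lf (nat_lit 526246) (.g (nat_lit 3938) (.e (nat_lit 213032) (nat_lit 11) (.e (nat_lit 24597) (nat_lit 1) (.e (nat_lit 57688) (nat_lit 156) (.e (nat_lit 163933) (nat_lit 17) (.e (nat_lit 466972) (nat_lit 21) (.e (nat_lit 164183) (nat_lit 154) (.e (nat_lit 65280) (nat_lit 65) .nil))))))) (.g (nat_lit 1) (.e (nat_lit 234394) (nat_lit 0) .nil) .nil)))))) 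
(.nd (nat_lit 7) (.nd (nat_lit 8) (.nd (nat_lit 9) 
(.lf (nat_lit 525414) (.g (nat_lit 1103) (.e (nat_lit 204883) (nat_lit 33) (.e (nat_lit 401457) (nat_lit 13) (.e (nat_lit 483339) (nat_lit 9) .nil))) (.g (nat_lit 0) (.e (nat_lit 232889) (nat_lit 0) .nil) .nil))) 
(.lf (nat_lit 525926) (.g (nat_lit 2774) (.e (nat_lit 213030) (nat_lit 11) (.e (nat_lit 24617) (nat_lit 7) (.e (nat_lit 319533) (nat_lit 16) (.e (nat_lit 286753) (nat_lit 10) (.e (nat_lit 344169) (nat_lit 40) (.e (nat_lit 671771) (nat_lit 9) (.e (nat_lit 2700) (nat_lit 169) .nil))))))) (.g (nat_lit 1) (.e (nat_lit 233901) (nat_lit 0) .nil) .nil)))) (.nd (nat_lit 9) 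
(.lf (nat_lit 525670) (.g (nat_lit 1449) (.e (nat_lit 220928) (nat_lit 4) (.e (nat_lit 65628) (nat_lit 14) (.e (nat_lit 401438) (nat_lit 9) (.e (nat_lit 426540) (nat_lit 29) (.e (nat_lit 360192) (nat_lit 4) .nil))))) (.g (nat_lit 0) (.e (nat_lit 233557) (nat_lit 0) .nil) .nil))) 
(.lf (nat_lit 526182) (.g (nat_lit 2150) (.e (nat_lit 213030) (nat_lit 11) (.e (nat_lit 24660) (nat_lit 13) (.e (nat_lit 393284) (nat_lit 24) (.e (nat_lit 434209) (nat_lit 18) (.e (nat_lit 5223) (nat_lit 296) (.e (nat_lit 163879) (nat_lit 4) .nil)))))) (.g (nat_lit 1) (.e (nat_lit 234181) (nat_lit 0) .nil) .nil))))) (.nd (nat_lit 8) (.nd (nat_lit 9) 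
(.lf (nat_lit 525542) (.g (nat_lit 2659) (.e (nat_lit 204885) (nat_lit 33) (.e (nat_lit 401448) (nat_lit 10) (.e (nat_lit 434231) (nat_lit 23) (.e (nat_lit 532490) (nat_lit 0) (.e (nat_lit 6114) (nat_lit 332) .nil))))) (.g (nat_lit 0) (.e (nat_lit 233296) (nat_lit 0) .nil) .nil))) 
(.lf (nat_lit 526054) (.g (nat_lit 3443) (.e (nat_lit 213030) (nat_lit 11) (.e (nat_lit 24628) (nat_lit 9) (.e (nat_lit 336443) (nat_lit 32) (.e (nat_lit 466969) (nat_lit 21) (.e (nat_lit 164332) (nat_lit 230) (.e (nat_lit 163878) (nat_lit 4) .nil)))))) (.g (nat_lit 1) (.e (nat_lit 234031) (nat_lit 0) .nil) .nil)))) (.nd (nat_lit 9) 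
(.lf (nat_lit 525798) (.g (nat_lit 1144) (.e (nat_lit 213022) (nat_lit 9) (.e (nat_lit 2610) (nat_lit 163) (.e (nat_lit 164345) (nat_lit 240) (.e (nat_lit 2640) (nat_lit 165) .nil)))) (.g (nat_lit 0) (.e (nat_lit 233725) (nat_lit 0) .nil) .nil))) 
(.lf (nat_lit 526310) (.g (nat_lit 3114) (.e (nat_lit 213032) (nat_lit 11) (.e (nat_lit 24608) (nat_lit 3) (.e (nat_lit 98365) (nat_lit 26) (.e (nat_lit 426188) (nat_lit 9) (.e (nat_lit 426428) (nat_lit 17) (.e (nat_lit 90134) (nat_lit 9) (.e (nat_lit 7936) (nat_lit 169) .nil))))))) (.g (nat_lit 1) (.e (nat_lit 234479) (nat_lit 0) .nil) .nil)))))))) 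
(.nd (nat_lit 5) (.nd (nat_lit 6) (.nd (nat_lit 7) (.nd (nat_lit 8) (.nd (nat_lit 9) 
(.lf (nat_lit 525334) (.g (nat_lit 2782) (.e (nat_lit 204882) (nat_lit 32) (.e (nat_lit 385068) (nat_lit 26) (.e (nat_lit 532530) (nat_lit 9) (.e (nat_lit 336316) (nat_lit 17) (.e (nat_lit 196664) (nat_lit 13) (.e (nat_lit 73472) (nat_lit 18) .nil)))))) (.g (nat_lit 1) (.e (nat_lit 232755) (nat_lit 0) .nil) .nil))) 
(.lf (nat_lit 525846) (.g (nat_lit 2689) (.e (nat_lit 213030) (nat_lit 11) (.e (nat_lit 24607) (nat_lit 3) (.e (nat_lit 98365) (nat_lit 26) (.e (nat_lit 426306) (nat_lit 12) (.e (nat_lit 475179) (nat_lit 24) (.e (nat_lit 516126) (nat_lit 2) .nil)))))) (.g (nat_lit 1) (.e (nat_lit 233806) (nat_lit 0) .nil) .nil)))) (.nd (nat_lit 9) 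
(.lf (nat_lit 525590) (.g (nat_lit 2055) (.e (nat_lit 204885) (nat_lit 33) (.e (nat_lit 401448) (nat_lit 10) (.e (nat_lit 434232) (nat_lit 23) (.e (nat_lit 532569) (nat_lit 16) (.e (nat_lit 401440) (nat_lit 9) (.e (nat_lit 426134) (nat_lit 3) .nil)))))) (.g (nat_lit 1) (.e (nat_lit 233344) (nat_lit 0) .nil) .nil))) 
(.lf (nat_lit 526102) (.g (nat_lit 472) (.e (nat_lit 213030) (nat_lit 11) (.e (nat_lit 24655) (nat_lit 13) (.e (nat_lit 393273) (nat_lit 23) .nil))) (.g (nat_lit 0) (.e (nat_lit 234100) (nat_lit 0) .nil) .nil))))) (.nd (nat_lit 8) (.nd (nat_lit 9) 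
(.lf (nat_lit 525462) (.g (nat_lit 3312) (.e (nat_lit 204884) (nat_lit 33) (.e (nat_lit 401450) (nat_lit 12) (.e (nat_lit 475183) (nat_lit 29) (.e (nat_lit 557108) (nat_lit 15) (.e (nat_lit 188452) (nat_lit 23) .nil))))) (.g (nat_lit 1) (.e (nat_lit 233043) (nat_lit 0) .nil) .nil))) 
(.lf (nat_lit 525974) (.g (nat_lit 2503) (.e (nat_lit 213030) (nat_lit 11) (.e (nat_lit 24617) (nat_lit 7) (.e (nat_lit 319534) (nat_lit 16) (.e (nat_lit 286756) (nat_lit 10) (.e (nat_lit 344169) (nat_lit 40) (.e (nat_lit 671773) (nat_lit 9) (.e (nat_lit 2699) (nat_lit 169) .nil))))))) (.g (nat_lit 1) (.e (nat_lit 233949) (nat_lit 0) .nil) .nil)))) (.nd (nat_lit 9) 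
(.lf (nat_lit 525718) (.g (nat_lit 1226) (.e (nat_lit 220928) (nat_lit 5) (.e (nat_lit 73782) (nat_lit 32) (.e (nat_lit 3088) (nat_lit 191) (.e (nat_lit 483384) (nat_lit 23) (.e (nat_lit 336332) (nat_lit 19) .nil))))) (.g (nat_lit 0) (.e (nat_lit 233605) (nat_lit 0) .nil) .nil))) 
(.lf (nat_lit 526230) (.g (nat_lit 1761) (.e (nat_lit 213031) (nat_lit 11) (.e (nat_lit 24657) (nat_lit 13) (.e (nat_lit 393271) (nat_lit 23) (.e (nat_lit 426112) (nat_lit 1) (.e (nat_lit 164327) (nat_lit 230) .nil))))) (.g (nat_lit 0) (.e (nat_lit 234322) (nat_lit 0) .nil) .nil)))))) (.nd (nat_lit 7) (.nd (nat_lit 8) (.nd (nat_lit 9) 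
(.lf (nat_lit 525398) (.g (nat_lit 3407) (.e (nat_lit 204883) (nat_lit 33) (.e (nat_lit 401453) (nat_lit 12) (.e (nat_lit 475184) (nat_lit 29) (.e (nat_lit 557098) (nat_lit 13) (.e (nat_lit 172097) (nat_lit 9) (.e (nat_lit 426140) (nat_lit 3) .nil)))))) (.g (nat_lit 1) (.e (nat_lit 232848) (nat_lit 0) .nil) .nil))) 
(.lf (nat_lit 525910) (.g (nat_lit 1995) (.e (nat_lit 213030) (nat_lit 11) (.e (nat_lit 24617) (nat_lit 7) (.e (nat_lit 319533) (nat_lit 16) (.e (nat_lit 286751) (nat_lit 10) .nil)))) (.g (nat_lit 0) (.e (nat_lit 233885) (nat_lit 0) .nil) .nil)))) (.nd (nat_lit 9) 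
(.lf (nat_lit 525654) (.g (nat_lit 1136) (.e (nat_lit 212736) (nat_lit 33) (.e (nat_lit 401453) (nat_lit 12) (.e (nat_lit 475183) (nat_lit 29) (.e (nat_lit 557101) (nat_lit 13) .nil)))) (.g (nat_lit 0) (.e (nat_lit 233529) (nat_lit 0) .nil) .nil))) 
(.lf (nat_lit 526166) (.g (nat_lit 2337) (.e (nat_lit 213030) (nat_lit 11) (.e (nat_lit 24660) (nat_lit 13) (.e (nat_lit 393271) (nat_lit 23) (.e (nat_lit 426112) (nat_lit 1) (.e (nat_lit 164326) (nat_lit 230) (.e (nat_lit 163882) (nat_lit 4) .nil)))))) (.g (nat_lit 1) (.e (nat_lit 234164) (nat_lit 0) .nil) .nil))))) (.nd (nat_lit 8) (.nd (nat_lit 9) 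
(.lf (nat_lit 525526) (.g (nat_lit 1294) (.e (nat_lit 204885) (nat_lit 33) (.e (nat_lit 401448) (nat_lit 10) (.e (nat_lit 434217) (nat_lit 19) (.e (nat_lit 500056) (nat_lit 17) (.e (nat_lit 65280) (nat_lit 208) .nil))))) (.g (nat_lit 0) (.e (nat_lit 233275) (nat_lit 0) .nil) .nil))) 
(.lf (nat_lit 526038) (.g (nat_lit 2612) (.e (nat_lit 213030) (nat_lit 11) (.e (nat_lit 24627) (nat_lit 9) (.e (nat_lit 336443) (nat_lit 32) (.e (nat_lit 466971) (nat_lit 21) (.e (nat_lit 164325) (nat_lit 230) (.e (nat_lit 163879) (nat_lit 4) .nil)))))) (.g (nat_lit 1) (.e (nat_lit 234015) (nat_lit 0) .nil) .nil)))) (.nd (nat_lit 9) 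
(.lf (nat_lit 525782) (.g (nat_lit 2560) (.e (nat_lit 213013) (nat_lit 9) (.e (nat_lit 2610) (nat_lit 163) (.e (nat_lit 164347) (nat_lit 240) (.e (nat_lit 2638) (nat_lit 165) (.e (nat_lit 188160) (nat_lit 38) (.e (nat_lit 122936) (nat_lit 23) (.e (nat_lit 516131) (nat_lit 3) (.e (nat_lit 221218) (nat_lit 24) .nil)))))))) (.g (nat_lit 1) (.e (nat_lit 233686) (nat_lit 0) .nil) .nil))) 
(.lf (nat_lit 526294) (.g (nat_lit 1573) (.e (nat_lit 213032) (nat_lit 11) (.e (nat_lit 24608) (nat_lit 3) (.e (nat_lit 98356) (nat_lit 26) (.e (nat_lit 426320) (nat_lit 12) .nil)))) (.g (nat_lit 0) (.e (nat_lit 234462) (nat_lit 0) .nil) .nil))))))) (.nd (nat_lit 6) (.nd (nat_lit 7) (.nd (nat_lit 8) (.nd (nat_lit 9) 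
(.lf (nat_lit 525366) (.g (nat_lit 1787) (.e (nat_lit 204882) (nat_lit 32) (.e (nat_lit 385106) (nat_lit 50) (.e (nat_lit 786450) (nat_lit 15) (.e (nat_lit 1853) (nat_lit 124) (.e (nat_lit 557107) (nat_lit 15) .nil))))) (.g (nat_lit 0) (.e (nat_lit 232793) (nat_lit 0) .nil) .nil))) 
(.lf (nat_lit 525878) (.g (nat_lit 2452) (.e (nat_lit 213030) (nat_lit 11) (.e (nat_lit 24617) (nat_lit 7) (.e (nat_lit 319528) (nat_lit 16) (.e (nat_lit 286759) (nat_lit 12) (.e (nat_lit 385092) (nat_lit 49) (.e (nat_lit 778336) (nat_lit 9) (.e (nat_lit 2700) (nat_lit 169) .nil))))))) (.g (nat_lit 1) (.e (nat_lit 233851) (nat_lit 0) .nil) .nil)))) (.nd (nat_lit 9) 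
(.lf (nat_lit 525622) (.g (nat_lit 3904) (.e (nat_lit 204885) (nat_lit 33) (.e (nat_lit 401448) (nat_lit 10) (.e (nat_lit 434248) (nat_lit 28) (.e (nat_lit 573471) (nat_lit 11) (.e (nat_lit 16439) (nat_lit 9) (.e (nat_lit 426132) (nat_lit 3) .nil)))))) (.g (nat_lit 1) (.e (nat_lit 233460) (nat_lit 0) .nil) .nil))) 
(.lf (nat_lit 526134) (.g (nat_lit 465) (.e (nat_lit 213030) (nat_lit 11) (.e (nat_lit 24658) (nat_lit 13) (.e (nat_lit 393281) (nat_lit 23) .nil))) (.g (nat_lit 0) (.e (nat_lit 234132) (nat_lit 0) .nil) .nil))))) (.nd (nat_lit 8) (.nd (nat_lit 9) 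
(.lf (nat_lit 525494) (.g (nat_lit 1039) (.e (nat_lit 204885) (nat_lit 33) (.e (nat_lit 401434) (nat_lit 9) (.e (nat_lit 426125) (nat_lit 2) (.e (nat_lit 196661) (nat_lit 12) .nil)))) (.g (nat_lit 0) (.e (nat_lit 233097) (nat_lit 0) .nil) .nil))) 
(.lf (nat_lit 526006) (.g (nat_lit 2467) (.e (nat_lit 213030) (nat_lit 11) (.e (nat_lit 24625) (nat_lit 9) (.e (nat_lit 336443) (nat_lit 32) (.e (nat_lit 466971) (nat_lit 21) (.e (nat_lit 164326) (nat_lit 230) (.e (nat_lit 163882) (nat_lit 4) .nil)))))) (.g (nat_lit 1) (.e (nat_lit 233983) (nat_lit 0) .nil) .nil)))) (.nd (nat_lit 9) 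
(.lf (nat_lit 525750) (.g (nat_lit 776) (.e (nat_lit 220928) (nat_lit 6) (.e (nat_lit 81943) (nat_lit 20) (.e (nat_lit 2006) (nat_lit 138) (.e (nat_lit 671764) (nat_lit 6) (.e (nat_lit 89856) (nat_lit 4) .nil))))) (.g (nat_lit 0) (.e (nat_lit 233643) (nat_lit 0) .nil) .nil))) 
(.lf (nat_lit 526262) (.g (nat_lit 3169) (.e (nat_lit 213032) (nat_lit 11) (.e (nat_lit 24604) (nat_lit 2) (.e (nat_lit 90176) (nat_lit 15) (.e (nat_lit 188439) (nat_lit 20) (.e (nat_lit 7936) (nat_lit 200) (.e (nat_lit 557065) (nat_lit 9) (.e (nat_lit 2691) (nat_lit 169) .nil))))))) (.g (nat_lit 1) (.e (nat_lit 234418) (nat_lit 0) .nil) .nil)))))) 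
(.nd (nat_lit 7) (.nd (nat_lit 8) (.nd (nat_lit 9) 
(.lf (nat_lit 525430) (.g (nat_lit 939) (.e (nat_lit 204883) (nat_lit 33) (.e (nat_lit 401458) (nat_lit 13) (.e (nat_lit 483351) (nat_lit 17) .nil))) (.g (nat_lit 0) (.e (nat_lit 232912) (nat_lit 0) .nil) .nil))) 
(.lf (nat_lit 525942) (.g (nat_lit 2472) (.e (nat_lit 213030) (nat_lit 11) (.e (nat_lit 24617) (nat_lit 7) (.e (nat_lit 319534) (nat_lit 16) (.e (nat_lit 286749) (nat_lit 9) (.e (nat_lit 335997) (nat_lit 1) (.e (nat_lit 57845) (nat_lit 252) (.e (nat_lit 65280) (nat_lit 65) .nil))))))) (.g (nat_lit 1) (.e (nat_lit 233917) (nat_lit 0) .nil) .nil)))) (.nd (nat_lit 9) 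
(.lf (nat_lit 525686) (.g (nat_lit 434) (.e (nat_lit 220928) (nat_lit 4) (.e (nat_lit 65630) (nat_lit 14) (.e (nat_lit 401457) (nat_lit 13) .nil))) (.g (nat_lit 0) (.e (nat_lit 233573) (nat_lit 0) .nil) .nil))) 
(.lf (nat_lit 526198) (.g (nat_lit 1080) (.e (nat_lit 213031) (nat_lit 11) (.e (nat_lit 24607) (nat_lit 3) (.e (nat_lit 98365) (nat_lit 26) (.e (nat_lit 426188) (nat_lit 9) .nil)))) (.g (nat_lit 0) (.e (nat_lit 234288) (nat_lit 0) .nil) .nil))))) (.nd (nat_lit 8) (.nd (nat_lit 9) 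
(.lf (nat_lit 525558) (.g (nat_lit 2572) (.e (nat_lit 204885) (nat_lit 33) (.e (nat_lit 401448) (nat_lit 10) (.e (nat_lit 434231) (nat_lit 23) (.e (nat_lit 532568) (nat_lit 16) (.e (nat_lit 401434) (nat_lit 9) (.e (nat_lit 426140) (nat_lit 3) .nil)))))) (.g (nat_lit 1) (.e (nat_lit 233312) (nat_lit 0) .nil) .nil))) 
(.lf (nat_lit 526070) (.g (nat_lit 2508) (.e (nat_lit 213030) (nat_lit 11) (.e (nat_lit 24629) (nat_lit 9) (.e (nat_lit 336443) (nat_lit 32) (.e (nat_lit 466971) (nat_lit 21) (.e (nat_lit 164326) (nat_lit 230) (.e (nat_lit 163879) (nat_lit 4) .nil)))))) (.g (nat_lit 1) (.e (nat_lit 234048) (nat_lit 0) .nil) .nil)))) (.nd (nat_lit 9) 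
(.lf (nat_lit 525814) (.g (nat_lit 1427) (.e (nat_lit 213030) (nat_lit 11) (.e (nat_lit 24601) (nat_lit 2) (.e (nat_lit 90185) (nat_lit 17) (.e (nat_lit 237601) (nat_lit 9) (.e (nat_lit 426436) (nat_lit 18) .nil))))) (.g (nat_lit 0) (.e (nat_lit 233774) (nat_lit 0) .nil) .nil))) 
(.lf (nat_lit 526326) (.g (nat_lit 2596) (.e (nat_lit 213032) (nat_lit 11) (.e (nat_lit 24608) (nat_lit 3) (.e (nat_lit 98372) (nat_lit 29) (.e (nat_lit 450584) (nat_lit 9) (.e (nat_lit 565275) (nat_lit 9) (.e (nat_lit 7936) (nat_lit 169) .nil)))))) (.g (nat_lit 1) (.e (nat_lit 234506) (nat_lit 0) .nil) .nil))))))))) 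
(.nd (nat_lit 4) (.nd (nat_lit 5) (.nd (nat_lit 6) (.nd (nat_lit 7) (.nd (nat_lit 8) 
(.nd (nat_lit 9) 
(.lf (nat_lit 525326) (.g (nat_lit 2837) (.e (nat_lit 204882) (nat_lit 32) (.e (nat_lit 385068) (nat_lit 26) (.e (nat_lit 532529) (nat_lit 9) (.e (nat_lit 336316) (nat_lit 17) (.e (nat_lit 196665) (nat_lit 13) .nil))))) (.g (nat_lit 0) (.e (nat_lit 232747) (nat_lit 0) .nil) .nil))) 
(.lf (nat_lit 525838) (.g (nat_lit 1044) (.e (nat_lit 213030) (nat_lit 11) (.e (nat_lit 24607) (nat_lit 3) (.e (nat_lit 98363) (nat_lit 26) (.e (nat_lit 426318) (nat_lit 12) .nil)))) (.g (nat_lit 0) (.e (nat_lit 233798) (nat_lit 0) .nil) .nil)))) (.nd (nat_lit 9) 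
(.lf (nat_lit 525582) (.g (nat_lit 2588) (.e (nat_lit 204885) (nat_lit 33) (.e (nat_lit 401448) (nat_lit 10) (.e (nat_lit 434232) (nat_lit 23) (.e (nat_lit 532566) (nat_lit 15) (.e (nat_lit 385104) (nat_lit 50) (.e (nat_lit 794368) (nat_lit 3) .nil)))))) (.g (nat_lit 1) (.e (nat_lit 233336) (nat_lit 0) .nil) .nil))) 
(.lf (nat_lit 526094) (.g (nat_lit 1894) (.e (nat_lit 213030) (nat_lit 11) (.e (nat_lit 24638) (nat_lit 9) (.e (nat_lit 336387) (nat_lit 27) (.e (nat_lit 426306) (nat_lit 12) (.e (nat_lit 475214) (nat_lit 42) .nil))))) (.g (nat_lit 0) (.e (nat_lit 234090) (nat_lit 0) .nil) .nil))))) (.nd (nat_lit 8) (.nd (nat_lit 9) 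
(.lf (nat_lit 525454) (.g (nat_lit 852) (.e (nat_lit 204884) (nat_lit 33) (.e (nat_lit 401448) (nat_lit 10) (.e (nat_lit 434219) (nat_lit 19) .nil))) (.g (nat_lit 0) (.e (nat_lit 232968) (nat_lit 0) .nil) .nil))) 
(.lf (nat_lit 525966) (.g (nat_lit 3352) (.e (nat_lit 213030) (nat_lit 11) (.e (nat_lit 24617) (nat_lit 7) (.e (nat_lit 319534) (nat_lit 16) (.e (nat_lit 286756) (nat_lit 10) (.e (nat_lit 344168) (nat_lit 40) (.e (nat_lit 671774) (nat_lit 9) (.e (nat_lit 2698) (nat_lit 169) .nil))))))) (.g (nat_lit 1) (.e (nat_lit 233941) (nat_lit 0) .nil) .nil)))) (.nd (nat_lit 9) 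
(.lf (nat_lit 525710) (.g (nat_lit 1779) (.e (nat_lit 220928) (nat_lit 5) (.e (nat_lit 73782) (nat_lit 32) (.e (nat_lit 2856) (nat_lit 184) (.e (nat_lit 426555) (nat_lit 32) (.e (nat_lit 384768) (nat_lit 4) .nil))))) (.g (nat_lit 0) (.e (nat_lit 233597) (nat_lit 0) .nil) .nil))) 
(.lf (nat_lit 526222) (.g (nat_lit 1423) (.e (nat_lit 213031) (nat_lit 11) (.e (nat_lit 24655) (nat_lit 13) (.e (nat_lit 393273) (nat_lit 23) (.e (nat_lit 426446) (nat_lit 20) .nil)))) (.g (nat_lit 0) (.e (nat_lit 234312) (nat_lit 0) .nil) .nil)))))) (.nd (nat_lit 7) (.nd (nat_lit 8) (.nd (nat_lit 9) 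
(.lf (nat_lit 525390) (.g (nat_lit 2341) (.e (nat_lit 204883) (nat_lit 33) (.e (nat_lit 401451) (nat_lit 12) (.e (nat_lit 475184) (nat_lit 29) (.e (nat_lit 557098) (nat_lit 13) (.e (nat_lit 172097) (nat_lit 9) .nil))))) (.g (nat_lit 0) (.e (nat_lit 232837) (nat_lit 0) .nil) .nil))) 
(.lf (nat_lit 525902) (.g (nat_lit 982) (.e (nat_lit 213030) (nat_lit 11) (.e (nat_lit 24617) (nat_lit 7) (.e (nat_lit 319532) (nat_lit 16) (.e (nat_lit 286747) (nat_lit 9) .nil)))) (.g (nat_lit 0) (.e (nat_lit 233876) (nat_lit 0) .nil) .nil)))) (.nd (nat_lit 9) 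
(.lf (nat_lit 525646) (.g (nat_lit 4515) (.e (nat_lit 204885) (nat_lit 33) (.e (nat_lit 401460) (nat_lit 14) (.e (nat_lit 491536) (nat_lit 2) (.e (nat_lit 90177) (nat_lit 15) (.e (nat_lit 188452) (nat_lit 23) .nil))))) (.g (nat_lit 1) (.e (nat_lit 233521) (nat_lit 0) .nil) .nil))) 
(.lf (nat_lit 526158) (.g (nat_lit 1719) (.e (nat_lit 213030) (nat_lit 11) (.e (nat_lit 24659) (nat_lit 13) (.e (nat_lit 393293) (nat_lit 26) (.e (nat_lit 475212) (nat_lit 42) (.e (nat_lit 728832) (nat_lit 4) .nil))))) (.g (nat_lit 1) (.e (nat_lit 234156) (nat_lit 0) .nil) .nil))))) (.nd (nat_lit 8) (.nd (nat_lit 9) 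
(.lf (nat_lit 525518) (.g (nat_lit 3485) (.e (nat_lit 204885) (nat_lit 33) (.e (nat_lit 401446) (nat_lit 10) (.e (nat_lit 434231) (nat_lit 23) (.e (nat_lit 532523) (nat_lit 7) (.e (nat_lit 319537) (nat_lit 19) (.e (nat_lit 311315) (nat_lit 3) .nil)))))) (.g (nat_lit 1) (.e (nat_lit 233154) (nat_lit 0) .nil) .nil))) 
(.lf (nat_lit 526030) (.g (nat_lit 2853) (.e (nat_lit 213030) (nat_lit 11) (.e (nat_lit 24627) (nat_lit 9) (.e (nat_lit 336443) (nat_lit 32) (.e (nat_lit 466969) (nat_lit 21) (.e (nat_lit 164325) (nat_lit 230) (.e (nat_lit 163881) (nat_lit 4) .nil)))))) (.g (nat_lit 1) (.e (nat_lit 234007) (nat_lit 0) .nil) .nil)))) (.nd (nat_lit 9) 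
(.lf (nat_lit 525774) (.g (nat_lit 1896) (.e (nat_lit 220928) (nat_lit 6) (.e (nat_lit 81959) (nat_lit 24) (.e (nat_lit 123195) (nat_lit 266) (.e (nat_lit 57406) (nat_lit 12) .nil)))) (.g (nat_lit 0) (.e (nat_lit 233667) (nat_lit 0) .nil) .nil))) 
(.lf (nat_lit 526286) (.g (nat_lit 3295) (.e (nat_lit 213032) (nat_lit 11) (.e (nat_lit 24607) (nat_lit 3) (.e (nat_lit 98365) (nat_lit 26) (.e (nat_lit 426306) (nat_lit 12) (.e (nat_lit 475177) (nat_lit 24) (.e (nat_lit 516127) (nat_lit 2) .nil)))))) (.g (nat_lit 1) (.e (nat_lit 234453) (nat_lit 0) .nil) .nil))))))) (.nd (nat_lit 6) (.nd (nat_lit 7) (.nd (nat_lit 8) (.nd (nat_lit 9) 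
(.lf (nat_lit 525358) (.g (nat_lit 1145) (.e (nat_lit 204882) (nat_lit 32) (.e (nat_lit 385068) (nat_lit 26) (.e (nat_lit 532566) (nat_lit 15) (.e (nat_lit 385066) (nat_lit 26) (.e (nat_lit 532532) (nat_lit 9) (.e (nat_lit 343808) (nat_lit 18) .nil)))))) (.g (nat_lit 1) (.e (nat_lit 232783) (nat_lit 0) .nil) .nil))) 
(.lf (nat_lit 525870) (.g (nat_lit 2308) (.e (nat_lit 213030) (nat_lit 11) (.e (nat_lit 24609) (nat_lit 3) (.e (nat_lit 98370) (nat_lit 28) (.e (nat_lit 442374) (nat_lit 0) (.e (nat_lit 1800) (nat_lit 119) (.e (nat_lit 516127) (nat_lit 2) .nil)))))) (.g (nat_lit 1) (.e (nat_lit 233833) (nat_lit 0) .nil) .nil)))) (.nd (nat_lit 9) 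
(.lf (nat_lit 525614) (.g (nat_lit 3696) (.e (nat_lit 204885) (nat_lit 33) (.e (nat_lit 401448) (nat_lit 10) (.e (nat_lit 434246) (nat_lit 28) (.e (nat_lit 573471) (nat_lit 11) (.e (nat_lit 16436) (nat_lit 9) (.e (nat_lit 426131) (nat_lit 3) .nil)))))) (.g (nat_lit 1) (.e (nat_lit 233431) (nat_lit 0) .nil) .nil))) 
(.lf (nat_lit 526126) (.g (nat_lit 1957) (.e (nat_lit 213030) (nat_lit 11) (.e (nat_lit 24657) (nat_lit 13) (.e (nat_lit 393271) (nat_lit 23) (.e (nat_lit 426446) (nat_lit 20) (.e (nat_lit 122624) (nat_lit 4) .nil))))) (.g (nat_lit 0) (.e (nat_lit 234124) (nat_lit 0) .nil) .nil))))) (.nd (nat_lit 8) (.nd (nat_lit 9) 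
(.lf (nat_lit 525486) (.g (nat_lit 2013) (.e (nat_lit 204884) (nat_lit 33) (.e (nat_lit 401459) (nat_lit 13) (.e (nat_lit 483344) (nat_lit 17) (.e (nat_lit 2369) (nat_lit 153) .nil)))) (.g (nat_lit 0) (.e (nat_lit 233082) (nat_lit 0) .nil) .nil))) 
(.lf (nat_lit 525998) (.g (nat_lit 2714) (.e (nat_lit 213030) (nat_lit 11) (.e (nat_lit 24625) (nat_lit 9) (.e (nat_lit 336443) (nat_lit 32) (.e (nat_lit 466969) (nat_lit 21) (.e (nat_lit 164325) (nat_lit 230) (.e (nat_lit 163881) (nat_lit 4) .nil)))))) (.g (nat_lit 1) (.e (nat_lit 233975) (nat_lit 0) .nil) .nil)))) (.nd (nat_lit 9) 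
(.lf (nat_lit 525742) (.g (nat_lit 730) (.e (nat_lit 220928) (nat_lit 6) (.e (nat_lit 81938) (nat_lit 20) (.e (nat_lit 2003) (nat_lit 138) (.e (nat_lit 671764) (nat_lit 6) .nil)))) (.g (nat_lit 0) (.e (nat_lit 233635) (nat_lit 0) .nil) .nil))) 
(.lf (nat_lit 526254) (.g (nat_lit 2109) (.e (nat_lit 213032) (nat_lit 11) (.e (nat_lit 24604) (nat_lit 2) (.e (nat_lit 90170) (nat_lit 13) (.e (nat_lit 172118) (nat_lit 12) .nil)))) (.g (nat_lit 0) (.e (nat_lit 234404) (nat_lit 0) .nil) .nil)))))) (.nd (nat_lit 7) (.nd (nat_lit 8) (.nd (nat_lit 9) 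
(.lf (nat_lit 525422) (.g (nat_lit 2030) (.e (nat_lit 204883) (nat_lit 33) (.e (nat_lit 401457) (nat_lit 13) (.e (nat_lit 483346) (nat_lit 17) (.e (nat_lit 2369) (nat_lit 153) .nil)))) (.g (nat_lit 0) (.e (nat_lit 232897) (nat_lit 0) .nil) .nil))) 
(.lf (nat_lit 525934) (.g (nat_lit 1569) (.e (nat_lit 213030) (nat_lit 11) (.e (nat_lit 24617) (nat_lit 7) (.e (nat_lit 319533) (nat_lit 16) (.e (nat_lit 286758) (nat_lit 12) (.e (nat_lit 385092) (nat_lit 49) .nil))))) (.g (nat_lit 0) (.e (nat_lit 233909) (nat_lit 0) .nil) .nil)))) (.nd (nat_lit 9) 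
(.lf (nat_lit 525678) (.g (nat_lit 1846) (.e (nat_lit 220928) (nat_lit 4) (.e (nat_lit 65630) (nat_lit 14) (.e (nat_lit 401437) (nat_lit 9) (.e (nat_lit 426542) (nat_lit 29) (.e (nat_lit 360192) (nat_lit 4) .nil))))) (.g (nat_lit 0) (.e (nat_lit 233565) (nat_lit 0) .nil) .nil))) 
(.lf (nat_lit 526190) (.g (nat_lit 1719) (.e (nat_lit 213030) (nat_lit 11) (.e (nat_lit 24660) (nat_lit 13) (.e (nat_lit 393292) (nat_lit 26) (.e (nat_lit 475212) (nat_lit 42) (.e (nat_lit 728832) (nat_lit 4) .nil))))) (.g (nat_lit 1) (.e (nat_lit 234193) (nat_lit 0) .nil) .nil))))) (.nd (nat_lit 8) (.nd (nat_lit 9) 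
(.lf (nat_lit 525550) (.g (nat_lit 3616) (.e (nat_lit 204885) (nat_lit 33) (.e (nat_lit 401448) (nat_lit 10) (.e (nat_lit 434231) (nat_lit 23) (.e (nat_lit 532522) (nat_lit 7) (.e (nat_lit 319538) (nat_lit 19) (.e (nat_lit 311315) (nat_lit 3) .nil)))))) (.g (nat_lit 1) (.e (nat_lit 233304) (nat_lit 0) .nil) .nil))) 
(.lf (nat_lit 526062) (.g (nat_lit 2026) (.e (nat_lit 213030) (nat_lit 11) (.e (nat_lit 24629) (nat_lit 9) (.e (nat_lit 336432) (nat_lit 30) (.e (nat_lit 450565) (nat_lit 0) (.e (nat_lit 5224) (nat_lit 296) (.e (nat_lit 163881) (nat_lit 4) .nil)))))) (.g (nat_lit 1) (.e (nat_lit 234039) (nat_lit 0) .nil) .nil)))) (.nd (nat_lit 9) 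
(.lf (nat_lit 525806) (.g (nat_lit 2249) (.e (nat_lit 213019) (nat_lit 9) (.e (nat_lit 2610) (nat_lit 163) (.e (nat_lit 164347) (nat_lit 240) (.e (nat_lit 2640) (nat_lit 165) (.e (nat_lit 188160) (nat_lit 38) (.e (nat_lit 122936) (nat_lit 23) (.e (nat_lit 516131) (nat_lit 3) (.e (nat_lit 221218) (nat_lit 24) .nil)))))))) (.g (nat_lit 1) (.e (nat_lit 233755) (nat_lit 0) .nil) .nil))) 
(.lf (nat_lit 526318) (.g (nat_lit 1260) (.e (nat_lit 213032) (nat_lit 11) (.e (nat_lit 24608) (nat_lit 3) (.e (nat_lit 98365) (nat_lit 26) (.e (nat_lit 426308) (nat_lit 12) .nil)))) (.g (nat_lit 0) (.e (nat_lit 234487) (nat_lit 0) .nil) .nil)))))))) (.nd (nat_lit 5) (.nd (nat_lit 6) (.nd (nat_lit 7) (.nd (nat_lit 8) (.nd (nat_lit 9) 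
(.lf (nat_lit 525342) (.g (nat_lit 2381) (.e (nat_lit 204882) (nat_lit 32) (.e (nat_lit 385068) (nat_lit 26) (.e (nat_lit 532530) (nat_lit 9) (.e (nat_lit 336326) (nat_lit 18) (.e (nat_lit 204855) (nat_lit 26) (.e (nat_lit 343808) (nat_lit 18) .nil)))))) (.g (nat_lit 1) (.e (nat_lit 232763) (nat_lit 0) .nil) .nil))) 
(.lf (nat_lit 525854) (.g (nat_lit 2034) (.e (nat_lit 213030) (nat_lit 11) (.e (nat_lit 24608) (nat_lit 3) (.e (nat_lit 98365) (nat_lit 26) (.e (nat_lit 426306) (nat_lit 12) (.e (nat_lit 475175) (nat_lit 24) (.e (nat_lit 516127) (nat_lit 2) .nil)))))) (.g (nat_lit 1) (.e (nat_lit 233815) (nat_lit 0) .nil) .nil)))) (.nd (nat_lit 9) 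
(.lf (nat_lit 525598) (.g (nat_lit 1635) (.e (nat_lit 204885) (nat_lit 33) (.e (nat_lit 401448) (nat_lit 10) (.e (nat_lit 434244) (nat_lit 28) (.e (nat_lit 573470) (nat_lit 11) .nil)))) (.g (nat_lit 0) (.e (nat_lit 233392) (nat_lit 0) .nil) .nil))) 
(.lf (nat_lit 526110) (.g (nat_lit 2291) (.e (nat_lit 213030) (nat_lit 11) (.e (nat_lit 24655) (nat_lit 13) (.e (nat_lit 393296) (nat_lit 26) (.e (nat_lit 475212) (nat_lit 42) (.e (nat_lit 728832) (nat_lit 4) .nil))))) (.g (nat_lit 1) (.e (nat_lit 234108) (nat_lit 0) .nil) .nil))))) (.nd (nat_lit 8) (.nd (nat_lit 9) 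
(.lf (nat_lit 525470) (.g (nat_lit 3546) (.e (nat_lit 204884) (nat_lit 33) (.e (nat_lit 401451) (nat_lit 12) (.e (nat_lit 475185) (nat_lit 29) (.e (nat_lit 557109) (nat_lit 15) (.e (nat_lit 188450) (nat_lit 23) .nil))))) (.g (nat_lit 0) (.e (nat_lit 233052) (nat_lit 0) .nil) .nil))) 
(.lf (nat_lit 525982) (.g (nat_lit 2628) (.e (nat_lit 213030) (nat_lit 11) (.e (nat_lit 24617) (nat_lit 7) (.e (nat_lit 319534) (nat_lit 16) (.e (nat_lit 286759) (nat_lit 12) (.e (nat_lit 385107) (nat_lit 51) (.e (nat_lit 794677) (nat_lit 24) .nil)))))) (.g (nat_lit 1) (.e (nat_lit 233957) (nat_lit 0) .nil) .nil)))) (.nd (nat_lit 9) 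
(.lf (nat_lit 525726) (.g (nat_lit 903) (.e (nat_lit 220928) (nat_lit 6) (.e (nat_lit 81922) (nat_lit 0) (.e (nat_lit 3631) (nat_lit 227) (.e (nat_lit 778326) (nat_lit 6) (.e (nat_lit 89856) (nat_lit 4) .nil))))) (.g (nat_lit 0) (.e (nat_lit 233613) (nat_lit 0) .nil) .nil))) 
(.lf (nat_lit 526238) (.g (nat_lit 1165) (.e (nat_lit 213031) (nat_lit 11) (.e (nat_lit 24660) (nat_lit 13) (.e (nat_lit 393271) (nat_lit 23) (.e (nat_lit 426112) (nat_lit 1) .nil)))) (.g (nat_lit 0) (.e (nat_lit 234330) (nat_lit 0) .nil) .nil)))))) (.nd (nat_lit 7) (.nd (nat_lit 8) (.nd (nat_lit 9) 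
(.lf (nat_lit 525406) (.g (nat_lit 422) (.e (nat_lit 204883) (nat_lit 33) (.e (nat_lit 401454) (nat_lit 12) (.e (nat_lit 475184) (nat_lit 29) .nil))) (.g (nat_lit 0) (.e (nat_lit 232875) (nat_lit 0) .nil) .nil))) 
(.lf (nat_lit 525918) (.g (nat_lit 2119) (.e (nat_lit 213030) (nat_lit 11) (.e (nat_lit 24617) (nat_lit 7) (.e (nat_lit 319533) (nat_lit 16) (.e (nat_lit 286753) (nat_lit 10) (.e (nat_lit 344168) (nat_lit 40) (.e (nat_lit 671773) (nat_lit 9) (.e (nat_lit 2699) (nat_lit 169) .nil))))))) (.g (nat_lit 1) (.e (nat_lit 233893) (nat_lit 0) .nil) .nil)))) (.nd (nat_lit 9) 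
(.lf (nat_lit 525662) (.g (nat_lit 3102) (.e (nat_lit 220928) (nat_lit 2) (.e (nat_lit 16416) (nat_lit 3) (.e (nat_lit 204884) (nat_lit 33) (.e (nat_lit 401454) (nat_lit 12) (.e (nat_lit 475179) (nat_lit 24) .nil))))) (.g (nat_lit 0) (.e (nat_lit 233539) (nat_lit 0) .nil) .nil))) 
(.lf (nat_lit 526174) (.g (nat_lit 2121) (.e (nat_lit 213030) (nat_lit 11) (.e (nat_lit 24660) (nat_lit 13) (.e (nat_lit 393282) (nat_lit 24) (.e (nat_lit 434209) (nat_lit 18) (.e (nat_lit 5223) (nat_lit 296) (.e (nat_lit 163881) (nat_lit 4) .nil)))))) (.g (nat_lit 1) (.e (nat_lit 234172) (nat_lit 0) .nil) .nil))))) (.nd (nat_lit 8) (.nd (nat_lit 9) 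
(.lf (nat_lit 525534) (.g (nat_lit 328) (.e (nat_lit 204885) (nat_lit 33) (.e (nat_lit 401448) (nat_lit 10) (.e (nat_lit 434231) (nat_lit 23) .nil))) (.g (nat_lit 0) (.e (nat_lit 233288) (nat_lit 0) .nil) .nil))) 
(.lf (nat_lit 526046) (.g (nat_lit 2453) (.e (nat_lit 213030) (nat_lit 11) (.e (nat_lit 24627) (nat_lit 9) (.e (nat_lit 336443) (nat_lit 32) (.e (nat_lit 466972) (nat_lit 21) (.e (nat_lit 164329) (nat_lit 230) (.e (nat_lit 163878) (nat_lit 4) .nil)))))) (.g (nat_lit 1) (.e (nat_lit 234023) (nat_lit 0) .nil) .nil)))) (.nd (nat_lit 9) 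
(.lf (nat_lit 525790) (.g (nat_lit 2244) (.e (nat_lit 213013) (nat_lit 9) (.e (nat_lit 2684) (nat_lit 168) (.e (nat_lit 204829) (nat_lit 18) (.e (nat_lit 57931) (nat_lit 282) (.e (nat_lit 163866) (nat_lit 2) .nil))))) (.g (nat_lit 0) (.e (nat_lit 233709) (nat_lit 0) .nil) .nil))) 
(.lf (nat_lit 526302) (.g (nat_lit 1218) (.e (nat_lit 213032) (nat_lit 11) (.e (nat_lit 24608) (nat_lit 3) (.e (nat_lit 98362) (nat_lit 26) (.e (nat_lit 426310) (nat_lit 12) .nil)))) (.g (nat_lit 0) (.e (nat_lit 234470) (nat_lit 0) .nil) .nil))))))) (.nd (nat_lit 6) (.nd (nat_lit 7) (.nd (nat_lit 8) (.nd (nat_lit 9) 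
(.lf (nat_lit 525374) (.g (nat_lit 2301) (.e (nat_lit 212736) (nat_lit 32) (.e (nat_lit 385094) (nat_lit 49) (.e (nat_lit 778318) (nat_lit 3) (.e (nat_lit 57476) (nat_lit 28) (.e (nat_lit 557097) (nat_lit 13) .nil))))) (.g (nat_lit 0) (.e (nat_lit 232806) (nat_lit 0) .nil) .nil))) 
(.lf (nat_lit 525886) (.g (nat_lit 2149) (.e (nat_lit 213030) (nat_lit 11) (.e (nat_lit 24617) (nat_lit 7) (.e (nat_lit 319530) (nat_lit 16) (.e (nat_lit 286748) (nat_lit 9) (.e (nat_lit 343808) (nat_lit 20) (.e (nat_lit 221217) (nat_lit 24) .nil)))))) (.g (nat_lit 1) (.e (nat_lit 233860) (nat_lit 0) .nil) .nil)))) (.nd (nat_lit 9) 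
(.lf (nat_lit 525630) (.g (nat_lit 2155) (.e (nat_lit 204885) (nat_lit 33) (.e (nat_lit 401451) (nat_lit 12) (.e (nat_lit 475177) (nat_lit 24) .nil))) (.g (nat_lit 0) (.e (nat_lit 233485) (nat_lit 0) .nil) .nil))) 
(.lf (nat_lit 526142) (.g (nat_lit 1846) (.e (nat_lit 213030) (nat_lit 11) (.e (nat_lit 24659) (nat_lit 13) (.e (nat_lit 393271) (nat_lit 23) (.e (nat_lit 426112) (nat_lit 1) (.e (nat_lit 164326) (nat_lit 230) (.e (nat_lit 163881) (nat_lit 4) .nil)))))) (.g (nat_lit 1) (.e (nat_lit 234140) (nat_lit 0) .nil) .nil))))) (.nd (nat_lit 8) (.nd (nat_lit 9) 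
(.lf (nat_lit 525502) (.g (nat_lit 2678) (.e (nat_lit 204885) (nat_lit 33) (.e (nat_lit 401434) (nat_lit 9) (.e (nat_lit 426125) (nat_lit 2) (.e (nat_lit 196661) (nat_lit 12) (.e (nat_lit 57750) (nat_lit 201) .nil))))) (.g (nat_lit 0) (.e (nat_lit 233109) (nat_lit 0) .nil) .nil))) 
(.lf (nat_lit 526014) (.g (nat_lit 2633) (.e (nat_lit 213030) (nat_lit 11) (.e (nat_lit 24626) (nat_lit 9) (.e (nat_lit 336443) (nat_lit 32) (.e (nat_lit 466969) (nat_lit 21) (.e (nat_lit 164326) (nat_lit 230) (.e (nat_lit 163881) (nat_lit 4) .nil)))))) (.g (nat_lit 1) (.e (nat_lit 233991) (nat_lit 0) .nil) .nil)))) (.nd (nat_lit 9) 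
(.lf (nat_lit 525758) (.g (nat_lit 1061) (.e (nat_lit 220928) (nat_lit 6) (.e (nat_lit 81957) (nat_lit 24) (.e (nat_lit 123184) (nat_lit 264) (.e (nat_lit 1296) (nat_lit 96) .nil)))) (.g (nat_lit 0) (.e (nat_lit 233651) (nat_lit 0) .nil) .nil))) 
(.lf (nat_lit 526270) (.g (nat_lit 1988) (.e (nat_lit 213032) (nat_lit 11) (.e (nat_lit 24604) (nat_lit 2) (.e (nat_lit 90185) (nat_lit 17) (.e (nat_lit 237605) (nat_lit 9) (.e (nat_lit 426436) (nat_lit 18) (.e (nat_lit 106240) (nat_lit 19) .nil)))))) (.g (nat_lit 1) (.e (nat_lit 234437) (nat_lit 0) .nil) .nil)))))) (.nd (nat_lit 7) (.nd (nat_lit 8) (.nd (nat_lit 9) 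
(.lf (nat_lit 525438) (.g (nat_lit 1544) (.e (nat_lit 204883) (nat_lit 33) (.e (nat_lit 401459) (nat_lit 13) (.e (nat_lit 483344) (nat_lit 17) (.e (nat_lit 2366) (nat_lit 153) .nil)))) (.g (nat_lit 0) (.e (nat_lit 232923) (nat_lit 0) .nil) .nil))) 
(.lf (nat_lit 525950) (.g (nat_lit 2715) (.e (nat_lit 213030) (nat_lit 11) (.e (nat_lit 24617) (nat_lit 7) (.e (nat_lit 319534) (nat_lit 16) (.e (nat_lit 286756) (nat_lit 10) (.e (nat_lit 344090) (nat_lit 18) (.e (nat_lit 5896) (nat_lit 320) (.e (nat_lit 2508) (nat_lit 157) (.e (nat_lit 2693) (nat_lit 169) .nil)))))))) (.g (nat_lit 1) (.e (nat_lit 233925) (nat_lit 0) .nil) .nil)))) 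
(.nd (nat_lit 9) 
(.lf (nat_lit 525694) (.g (nat_lit 1852) (.e (nat_lit 220928) (nat_lit 5) (.e (nat_lit 73781) (nat_lit 32) (.e (nat_lit 2856) (nat_lit 184) (.e (nat_lit 426540) (nat_lit 29) (.e (nat_lit 360192) (nat_lit 4) .nil))))) (.g (nat_lit 0) (.e (nat_lit 233581) (nat_lit 0) .nil) .nil))) 
(.lf (nat_lit 526206) (.g (nat_lit 2148) (.e (nat_lit 213031) (nat_lit 11) (.e (nat_lit 24608) (nat_lit 3) (.e (nat_lit 98365) (nat_lit 26) (.e (nat_lit 426188) (nat_lit 9) (.e (nat_lit 426438) (nat_lit 18) .nil))))) (.g (nat_lit 0) (.e (nat_lit 234296) (nat_lit 0) .nil) .nil))))) (.nd (nat_lit 8) (.nd (nat_lit 9) 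
(.lf (nat_lit 525566) (.g (nat_lit 3400) (.e (nat_lit 204885) (nat_lit 33) (.e (nat_lit 401448) (nat_lit 10) (.e (nat_lit 434231) (nat_lit 23) (.e (nat_lit 532569) (nat_lit 16) (.e (nat_lit 401440) (nat_lit 9) (.e (nat_lit 426136) (nat_lit 3) .nil)))))) (.g (nat_lit 1) (.e (nat_lit 233320) (nat_lit 0) .nil) .nil))) 
(.lf (nat_lit 526078) (.g (nat_lit 2900) (.e (nat_lit 213030) (nat_lit 11) (.e (nat_lit 24630) (nat_lit 9) (.e (nat_lit 336443) (nat_lit 32) (.e (nat_lit 466969) (nat_lit 21) (.e (nat_lit 164326) (nat_lit 230) (.e (nat_lit 163879) (nat_lit 4) .nil)))))) (.g (nat_lit 1) (.e (nat_lit 234073) (nat_lit 0) .nil) .nil)))) (.nd (nat_lit 9) 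
(.lf (nat_lit 525822) (.g (nat_lit 1240) (.e (nat_lit 213030) (nat_lit 11) (.e (nat_lit 24604) (nat_lit 2) (.e (nat_lit 90176) (nat_lit 15) (.e (nat_lit 188420) (nat_lit 0) (.e (nat_lit 1784) (nat_lit 119) .nil))))) (.g (nat_lit 0) (.e (nat_lit 233782) (nat_lit 0) .nil) .nil))) 
(.lf (nat_lit 526334) (.g (nat_lit 1037) (.e (nat_lit 213032) (nat_lit 11) (.e (nat_lit 24608) (nat_lit 3) (.e (nat_lit 98382) (nat_lit 31) .nil))) (.g (nat_lit 0) (.e (nat_lit 234530) (nat_lit 0) .nil) .nil)))))))))))) (.nd (nat_lit 1) (.nd (nat_lit 2) (.nd (nat_lit 3) (.nd (nat_lit 4) (.nd (nat_lit 5) (.nd (nat_lit 6) (.nd (nat_lit 7) (.nd (nat_lit 8) (.nd (nat_lit 9) 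
(.lf (nat_lit 525313) (.g (nat_lit 2410) (.e (nat_lit 204882) (nat_lit 32) (.e (nat_lit 385067) (nat_lit 26) (.e (nat_lit 532563) (nat_lit 15) (.e (nat_lit 385068) (nat_lit 26) (.e (nat_lit 532530) (nat_lit 9) (.e (nat_lit 336324) (nat_lit 18) .nil)))))) (.g (nat_lit 1) (.e (nat_lit 232731) (nat_lit 0) .nil) .nil))) 
(.lf (nat_lit 525825) (.g (nat_lit 2246) (.e (nat_lit 213030) (nat_lit 11) (.e (nat_lit 24604) (nat_lit 2) (.e (nat_lit 90178) (nat_lit 15) (.e (nat_lit 188418) (nat_lit 0) (.e (nat_lit 1800) (nat_lit 119) (.e (nat_lit 516126) (nat_lit 2) .nil)))))) (.g (nat_lit 1) (.e (nat_lit 233785) (nat_lit 0) .nil) .nil)))) (.nd (nat_lit 9) 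
(.lf (nat_lit 525569) (.g (nat_lit 498) (.e (nat_lit 204885) (nat_lit 33) (.e (nat_lit 401448) (nat_lit 10) (.e (nat_lit 434232) (nat_lit 23) .nil))) (.g (nat_lit 0) (.e (nat_lit 233323) (nat_lit 0) .nil) .nil))) 
(.lf (nat_lit 526081) (.g (nat_lit 3019) (.e (nat_lit 213030) (nat_lit 11) (.e (nat_lit 24630) (nat_lit 9) (.e (nat_lit 336443) (nat_lit 32) (.e (nat_lit 466969) (nat_lit 21) (.e (nat_lit 164330) (nat_lit 230) (.e (nat_lit 163880) (nat_lit 4) .nil)))))) (.g (nat_lit 1) (.e (nat_lit 234076) (nat_lit 0) .nil) .nil))))) (.nd (nat_lit 8) (.nd (nat_lit 9) 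
(.lf (nat_lit 525441) (.g (nat_lit 1593) (.e (nat_lit 204883) (nat_lit 33) (.e (nat_lit 401459) (nat_lit 13) (.e (nat_lit 483344) (nat_lit 17) (.e (nat_lit 2368) (nat_lit 153) (.e (nat_lit 794683) (nat_lit 25) .nil))))) (.g (nat_lit 0) (.e (nat_lit 232926) (nat_lit 0) .nil) .nil))) 
(.lf (nat_lit 525953) (.g (nat_lit 3680) (.e (nat_lit 213030) (nat_lit 11) (.e (nat_lit 24617) (nat_lit 7) (.e (nat_lit 319534) (nat_lit 16) (.e (nat_lit 286756) (nat_lit 10) (.e (nat_lit 344097) (nat_lit 18) (.e (nat_lit 5195) (nat_lit 294) (.e (nat_lit 65280) (nat_lit 65) .nil))))))) (.g (nat_lit 1) (.e (nat_lit 233928) (nat_lit 0) .nil) .nil)))) (.nd (nat_lit 9) 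
(.lf (nat_lit 525697) (.g (nat_lit 1292) (.e (nat_lit 220928) (nat_lit 5) (.e (nat_lit 73781) (nat_lit 32) (.e (nat_lit 2857) (nat_lit 184) (.e (nat_lit 426540) (nat_lit 29) (.e (nat_lit 360192) (nat_lit 4) .nil))))) (.g (nat_lit 0) (.e (nat_lit 233584) (nat_lit 0) .nil) .nil))) 
(.lf (nat_lit 526209) (.g (nat_lit 782) (.e (nat_lit 213031) (nat_lit 11) (.e (nat_lit 24622) (nat_lit 8) (.e (nat_lit 327708) (nat_lit 10) (.e (nat_lit 5404) (nat_lit 302) .nil)))) (.g (nat_lit 0) (.e (nat_lit 234299) (nat_lit 0) .nil) .nil)))))) (.nd (nat_lit 7) (.nd (nat_lit 8) (.nd (nat_lit 9) 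
(.lf (nat_lit 525377) (.g (nat_lit 2799) (.e (nat_lit 204883) (nat_lit 33) (.e (nat_lit 401434) (nat_lit 9) (.e (nat_lit 426125) (nat_lit 2) (.e (nat_lit 196661) (nat_lit 12) (.e (nat_lit 57711) (nat_lit 176) .nil))))) (.g (nat_lit 0) (.e (nat_lit 232809) (nat_lit 0) .nil) .nil))) 
(.lf (nat_lit 525889) (.g (nat_lit 2464) (.e (nat_lit 213030) (nat_lit 11) (.e (nat_lit 24617) (nat_lit 7) (.e (nat_lit 319530) (nat_lit 16) (.e (nat_lit 286759) (nat_lit 12) (.e (nat_lit 385092) (nat_lit 49) (.e (nat_lit 778336) (nat_lit 9) (.e (nat_lit 2690) (nat_lit 169) .nil))))))) (.g (nat_lit 1) (.e (nat_lit 233863) (nat_lit 0) .nil) .nil)))) (.nd (nat_lit 9) 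
(.lf (nat_lit 525633) (.g (nat_lit 589) (.e (nat_lit 204885) (nat_lit 33) (.e (nat_lit 401451) (nat_lit 12) (.e (nat_lit 475183) (nat_lit 29) .nil))) (.g (nat_lit 0) (.e (nat_lit 233489) (nat_lit 0) .nil) .nil))) 
(.lf (nat_lit 526145) (.g (nat_lit 1589) (.e (nat_lit 213030) (nat_lit 11) (.e (nat_lit 24659) (nat_lit 13) (.e (nat_lit 393272) (nat_lit 23) (.e (nat_lit 426448) (nat_lit 20) (.e (nat_lit 122624) (nat_lit 4) .nil))))) (.g (nat_lit 1) (.e (nat_lit 234143) (nat_lit 0) .nil) .nil))))) (.nd (nat_lit 8) (.nd (nat_lit 9) 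
(.lf (nat_lit 525505) (.g (nat_lit 2114) (.e (nat_lit 204885) (nat_lit 33) (.e (nat_lit 401434) (nat_lit 9) (.e (nat_lit 426140) (nat_lit 3) (.e (nat_lit 204821) (nat_lit 17) (.e (nat_lit 7936) (nat_lit 364) (.e (nat_lit 237592) (nat_lit 3) .nil)))))) (.g (nat_lit 1) (.e (nat_lit 233118) (nat_lit 0) .nil) .nil))) 
(.lf (nat_lit 526017) (.g (nat_lit 2434) (.e (nat_lit 213030) (nat_lit 11) (.e (nat_lit 24626) (nat_lit 9) (.e (nat_lit 336443) (nat_lit 32) (.e (nat_lit 466969) (nat_lit 21) (.e (nat_lit 164329) (nat_lit 230) (.e (nat_lit 163878) (nat_lit 4) .nil)))))) (.g (nat_lit 1) (.e (nat_lit 233994) (nat_lit 0) .nil) .nil)))) (.nd (nat_lit 9) 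
(.lf (nat_lit 525761) (.g (nat_lit 1398) (.e (nat_lit 220928) (nat_lit 6) (.e (nat_lit 81957) (nat_lit 24) (.e (nat_lit 123195) (nat_lit 266) (.e (nat_lit 57419) (nat_lit 12) .nil)))) (.g (nat_lit 0) (.e (nat_lit 233654) (nat_lit 0) .nil) .nil))) 
(.lf (nat_lit 526273) (.g (nat_lit 2823) (.e (nat_lit 213032) (nat_lit 11) (.e (nat_lit 24604) (nat_lit 2) (.e (nat_lit 90185) (nat_lit 17) (.e (nat_lit 237619) (nat_lit 12) (.e (nat_lit 475177) (nat_lit 24) (.e (nat_lit 516122) (nat_lit 2) .nil)))))) (.g (nat_lit 1) (.e (nat_lit 234440) (nat_lit 0) .nil) .nil))))))) (.nd (nat_lit 6) (.nd (nat_lit 7) (.nd (nat_lit 8) (.nd (nat_lit 9) 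
(.lf (nat_lit 525345) (.g (nat_lit 985) (.e (nat_lit 204882) (nat_lit 32) (.e (nat_lit 385068) (nat_lit 26) (.e (nat_lit 532532) (nat_lit 9) .nil))) (.g (nat_lit 0) (.e (nat_lit 232766) (nat_lit 0) .nil) .nil))) 
(.lf (nat_lit 525857) (.g (nat_lit 3004) (.e (nat_lit 213030) (nat_lit 11) (.e (nat_lit 24608) (nat_lit 3) (.e (nat_lit 98365) (nat_lit 26) (.e (nat_lit 426306) (nat_lit 12) (.e (nat_lit 475179) (nat_lit 24) (.e (nat_lit 516127) (nat_lit 2) .nil)))))) (.g (nat_lit 1) (.e (nat_lit 233818) (nat_lit 0) .nil) .nil)))) (.nd (nat_lit 9) 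
(.lf (nat_lit 525601) (.g (nat_lit 2751) (.e (nat_lit 204885) (nat_lit 33) (.e (nat_lit 401448) (nat_lit 10) (.e (nat_lit 434244) (nat_lit 28) (.e (nat_lit 573471) (nat_lit 11) (.e (nat_lit 16442) (nat_lit 9) (.e (nat_lit 426135) (nat_lit 3) .nil)))))) (.g (nat_lit 1) (.e (nat_lit 233395) (nat_lit 0) .nil) .nil))) 
(.lf (nat_lit 526113) (.g (nat_lit 2953) (.e (nat_lit 213030) (nat_lit 11) (.e (nat_lit 24656) (nat_lit 13) (.e (nat_lit 393271) (nat_lit 23) (.e (nat_lit 426112) (nat_lit 1) (.e (nat_lit 164327) (nat_lit 230) (.e (nat_lit 163879) (nat_lit 4) .nil)))))) (.g (nat_lit 1) (.e (nat_lit 234111) (nat_lit 0) .nil) .nil))))) (.nd (nat_lit 8) (.nd (nat_lit 9) 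
(.lf (nat_lit 525473) (.g (nat_lit 4952) (.e (nat_lit 204884) (nat_lit 33) (.e (nat_lit 401454) (nat_lit 12) (.e (nat_lit 475183) (nat_lit 29) (.e (nat_lit 557109) (nat_lit 15) (.e (nat_lit 188452) (nat_lit 23) .nil))))) (.g (nat_lit 1) (.e (nat_lit 233060) (nat_lit 0) .nil) .nil))) 
(.lf (nat_lit 525985) (.g (nat_lit 494) (.e (nat_lit 213030) (nat_lit 11) (.e (nat_lit 24617) (nat_lit 7) (.e (nat_lit 319535) (nat_lit 17) .nil))) (.g (nat_lit 0) (.e (nat_lit 233960) (nat_lit 0) .nil) .nil)))) (.nd (nat_lit 9) 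
(.lf (nat_lit 525729) (.g (nat_lit 1224) (.e (nat_lit 220928) (nat_lit 6) (.e (nat_lit 81922) (nat_lit 0) (.e (nat_lit 3748) (nat_lit 228) (.e (nat_lit 786478) (nat_lit 29) (.e (nat_lit 360192) (nat_lit 4) .nil))))) (.g (nat_lit 0) (.e (nat_lit 233618) (nat_lit 0) .nil) .nil))) 
(.lf (nat_lit 526241) (.g (nat_lit 1532) (.e (nat_lit 213031) (nat_lit 11) (.e (nat_lit 24660) (nat_lit 13) (.e (nat_lit 393281) (nat_lit 23) (.e (nat_lit 426098) (nat_lit 1) (.e (nat_lit 164327) (nat_lit 230) .nil))))) (.g (nat_lit 0) (.e (nat_lit 234333) (nat_lit 0) .nil) .nil)))))) (.nd (nat_lit 7) (.nd (nat_lit 8) (.nd (nat_lit 9) 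
(.lf (nat_lit 525409) (.g (nat_lit 3241) (.e (nat_lit 204883) (nat_lit 33) (.e (nat_lit 401454) (nat_lit 12) (.e (nat_lit 475185) (nat_lit 29) (.e (nat_lit 557098) (nat_lit 13) (.e (nat_lit 172096) (nat_lit 9) .nil))))) (.g (nat_lit 0) (.e (nat_lit 232882) (nat_lit 0) .nil) .nil))) 
(.lf (nat_lit 525921) (.g (nat_lit 1847) (.e (nat_lit 213030) (nat_lit 11) (.e (nat_lit 24617) (nat_lit 7) (.e (nat_lit 319533) (nat_lit 16) (.e (nat_lit 286753) (nat_lit 10) (.e (nat_lit 344169) (nat_lit 40) .nil))))) (.g (nat_lit 0) (.e (nat_lit 233896) (nat_lit 0) .nil) .nil)))) (.nd (nat_lit 9) 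
(.lf (nat_lit 525665) (.g (nat_lit 1973) (.e (nat_lit 220928) (nat_lit 3) (.e (nat_lit 57480) (nat_lit 28) (.e (nat_lit 557098) (nat_lit 13) (.e (nat_lit 172097) (nat_lit 9) (.e (nat_lit 426140) (nat_lit 3) .nil))))) (.g (nat_lit 0) (.e (nat_lit 233552) (nat_lit 0) .nil) .nil))) 
(.lf (nat_lit 526177) (.g (nat_lit 2582) (.e (nat_lit 213030) (nat_lit 11) (.e (nat_lit 24660) (nat_lit 13) (.e (nat_lit 393282) (nat_lit 24) (.e (nat_lit 434209) (nat_lit 18) (.e (nat_lit 5224) (nat_lit 296) (.e (nat_lit 163882) (nat_lit 4) .nil)))))) (.g (nat_lit 1) (.e (nat_lit 234175) (nat_lit 0) .nil) .nil))))) (.nd (nat_lit 8) (.nd (nat_lit 9) 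
(.lf (nat_lit 525537) (.g (nat_lit 2915) (.e (nat_lit 204885) (nat_lit 33) (.e (nat_lit 401448) (nat_lit 10) (.e (nat_lit 434231) (nat_lit 23) (.e (nat_lit 532481) (nat_lit 0) (.e (nat_lit 6720) (nat_lit 361) (.e (nat_lit 172065) (nat_lit 3) .nil)))))) (.g (nat_lit 1) (.e (nat_lit 233291) (nat_lit 0) .nil) .nil))) 
(.lf (nat_lit 526049) (.g (nat_lit 2931) (.e (nat_lit 213030) (nat_lit 11) (.e (nat_lit 24628) (nat_lit 9) (.e (nat_lit 336443) (nat_lit 32) (.e (nat_lit 466969) (nat_lit 21) (.e (nat_lit 164325) (nat_lit 230) (.e (nat_lit 163879) (nat_lit 4) .nil)))))) (.g (nat_lit 1) (.e (nat_lit 234026) (nat_lit 0) .nil) .nil)))) (.nd (nat_lit 9) 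
(.lf (nat_lit 525793) (.g (nat_lit 1485) (.e (nat_lit 213013) (nat_lit 9) (.e (nat_lit 2684) (nat_lit 168) (.e (nat_lit 204830) (nat_lit 18) (.e (nat_lit 57927) (nat_lit 282) .nil)))) (.g (nat_lit 0) (.e (nat_lit 233712) (nat_lit 0) .nil) .nil))) 
(.lf (nat_lit 526305) (.g (nat_lit 996) (.e (nat_lit 213032) (nat_lit 11) (.e (nat_lit 24608) (nat_lit 3) (.e (nat_lit 98364) (nat_lit 26) .nil))) (.g (nat_lit 0) (.e (nat_lit 234473) (nat_lit 0) .nil) .nil)))))))) (.nd (nat_lit 5) (.nd (nat_lit 6) (.nd (nat_lit 7) (.nd (nat_lit 8) (.nd (nat_lit 9) 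
(.lf (nat_lit 525329) (.g (nat_lit 2450) (.e (nat_lit 204882) (nat_lit 32) (.e (nat_lit 385068) (nat_lit 26) (.e (nat_lit 532529) (nat_lit 9) (.e (nat_lit 336326) (nat_lit 18) (.e (nat_lit 204851) (nat_lit 26) .nil))))) (.g (nat_lit 0) (.e (nat_lit 232750) (nat_lit 0) .nil) .nil))) 
(.lf (nat_lit 525841) (.g (nat_lit 1765) (.e (nat_lit 213030) (nat_lit 11) (.e (nat_lit 24607) (nat_lit 3) (.e (nat_lit 98365) (nat_lit 26) (.e (nat_lit 426306) (nat_lit 12) (.e (nat_lit 475175) (nat_lit 24) .nil))))) (.g (nat_lit 0) (.e (nat_lit 233801) (nat_lit 0) .nil) .nil)))) (.nd (nat_lit 9) 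
(.lf (nat_lit 525585) (.g (nat_lit 3437) (.e (nat_lit 204885) (nat_lit 33) (.e (nat_lit 401448) (nat_lit 10) (.e (nat_lit 434232) (nat_lit 23) (.e (nat_lit 532567) (nat_lit 16) (.e (nat_lit 401436) (nat_lit 9) (.e (nat_lit 426131) (nat_lit 3) .nil)))))) (.g (nat_lit 1) (.e (nat_lit 233339) (nat_lit 0) .nil) .nil))) 
(.lf (nat_lit 526097) (.g (nat_lit 2695) (.e (nat_lit 213030) (nat_lit 11) (.e (nat_lit 24654) (nat_lit 13) (.e (nat_lit 393268) (nat_lit 23) (.e (nat_lit 426448) (nat_lit 20) (.e (nat_lit 122624) (nat_lit 4) .nil))))) (.g (nat_lit 0) (.e (nat_lit 234095) (nat_lit 0) .nil) .nil))))) (.nd (nat_lit 8) (.nd (nat_lit 9) 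
(.lf (nat_lit 525457) (.g (nat_lit 2674) (.e (nat_lit 204884) (nat_lit 33) (.e (nat_lit 401448) (nat_lit 10) (.e (nat_lit 434231) (nat_lit 23) (.e (nat_lit 532569) (nat_lit 16) (.e (nat_lit 401434) (nat_lit 9) .nil))))) (.g (nat_lit 0) (.e (nat_lit 232983) (nat_lit 0) .nil) .nil))) 
(.lf (nat_lit 525969) (.g (nat_lit 2435) (.e (nat_lit 213030) (nat_lit 11) (.e (nat_lit 24617) (nat_lit 7) (.e (nat_lit 319534) (nat_lit 16) (.e (nat_lit 286756) (nat_lit 10) (.e (nat_lit 344169) (nat_lit 40) (.e (nat_lit 671769) (nat_lit 9) (.e (nat_lit 2700) (nat_lit 169) .nil))))))) (.g (nat_lit 1) (.e (nat_lit 233944) (nat_lit 0) .nil) .nil)))) (.nd (nat_lit 9) 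
(.lf (nat_lit 525713) (.g (nat_lit 437) (.e (nat_lit 220928) (nat_lit 5) (.e (nat_lit 73782) (nat_lit 32) (.e (nat_lit 3087) (nat_lit 191) .nil))) (.g (nat_lit 0) (.e (nat_lit 233600) (nat_lit 0) .nil) .nil))) 
(.lf (nat_lit 526225) (.g (nat_lit 839) (.e (nat_lit 213031) (nat_lit 11) (.e (nat_lit 24655) (nat_lit 13) (.e (nat_lit 393281) (nat_lit 23) .nil))) (.g (nat_lit 0) (.e (nat_lit 234315) (nat_lit 0) .nil) .nil)))))) (.nd (nat_lit 7) (.nd (nat_lit 8) (.nd (nat_lit 9) 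
(.lf (nat_lit 525393) (.g (nat_lit 4221) (.e (nat_lit 204883) (nat_lit 33) (.e (nat_lit 401451) (nat_lit 12) (.e (nat_lit 475185) (nat_lit 29) (.e (nat_lit 557098) (nat_lit 13) (.e (nat_lit 172097) (nat_lit 9) .nil))))) (.g (nat_lit 0) (.e (nat_lit 232843) (nat_lit 0) .nil) .nil))) 
(.lf (nat_lit 525905) (.g (nat_lit 2434) (.e (nat_lit 213030) (nat_lit 11) (.e (nat_lit 24617) (nat_lit 7) (.e (nat_lit 319532) (nat_lit 16) (.e (nat_lit 286759) (nat_lit 12) (.e (nat_lit 385107) (nat_lit 51) (.e (nat_lit 794677) (nat_lit 24) .nil)))))) (.g (nat_lit 1) (.e (nat_lit 233879) (nat_lit 0) .nil) .nil)))) (.nd (nat_lit 9) 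
(.lf (nat_lit 525649) (.g (nat_lit 2828) (.e (nat_lit 212736) (nat_lit 33) (.e (nat_lit 401451) (nat_lit 12) (.e (nat_lit 475185) (nat_lit 29) (.e (nat_lit 557107) (nat_lit 15) .nil)))) (.g (nat_lit 0) (.e (nat_lit 233524) (nat_lit 0) .nil) .nil))) 
(.lf (nat_lit 526161) (.g (nat_lit 1804) (.e (nat_lit 213030) (nat_lit 11) (.e (nat_lit 24660) (nat_lit 13) (.e (nat_lit 393267) (nat_lit 23) (.e (nat_lit 426448) (nat_lit 20) (.e (nat_lit 122624) (nat_lit 4) .nil))))) (.g (nat_lit 1) (.e (nat_lit 234159) (nat_lit 0) .nil) .nil))))) (.nd (nat_lit 8) (.nd (nat_lit 9) 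
(.lf (nat_lit 525521) (.g (nat_lit 467) (.e (nat_lit 204885) (nat_lit 33) (.e (nat_lit 401446) (nat_lit 10) (.e (nat_lit 434233) (nat_lit 23) .nil))) (.g (nat_lit 0) (.e (nat_lit 233166) (nat_lit 0) .nil) .nil))) 
(.lf (nat_lit 526033) (.g (nat_lit 2561) (.e (nat_lit 213030) (nat_lit 11) (.e (nat_lit 24627) (nat_lit 9) (.e (nat_lit 336443) (nat_lit 32) (.e (nat_lit 466969) (nat_lit 21) (.e (nat_lit 164326) (nat_lit 230) (.e (nat_lit 163881) (nat_lit 4) .nil)))))) (.g (nat_lit 1) (.e (nat_lit 234010) (nat_lit 0) .nil) .nil)))) (.nd (nat_lit 9) 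
(.lf (nat_lit 525777) (.g (nat_lit 1522) (.e (nat_lit 213000) (nat_lit 9) (.e (nat_lit 225) (nat_lit 21) (.e (nat_lit 336456) (nat_lit 34) (.e (nat_lit 483372) (nat_lit 21) .nil)))) (.g (nat_lit 0) (.e (nat_lit 233673) (nat_lit 0) .nil) .nil))) 
(.lf (nat_lit 526289) (.g (nat_lit 1097) (.e (nat_lit 213032) (nat_lit 11) (.e (nat_lit 24607) (nat_lit 3) (.e (nat_lit 98369) (nat_lit 28) (.e (nat_lit 442374) (nat_lit 0) .nil)))) (.g (nat_lit 0) (.e (nat_lit 234456) (nat_lit 0) .nil) .nil))))))) (.nd (nat_lit 6) (.nd (nat_lit 7) (.nd (nat_lit 8) (.nd (nat_lit 9) 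
(.lf (nat_lit 525361) (.g (nat_lit 2936) (.e (nat_lit 204882) (nat_lit 32) (.e (nat_lit 385068) (nat_lit 26) (.e (nat_lit 532566) (nat_lit 15) (.e (nat_lit 385068) (nat_lit 26) (.e (nat_lit 532530) (nat_lit 9) (.e (nat_lit 336326) (nat_lit 18) .nil)))))) (.g (nat_lit 1) (.e (nat_lit 232786) (nat_lit 0) .nil) .nil))) 
(.lf (nat_lit 525873) (.g (nat_lit 2061) (.e (nat_lit 213030) (nat_lit 11) (.e (nat_lit 24609) (nat_lit 3) (.e (nat_lit 98380) (nat_lit 31) (.e (nat_lit 466947) (nat_lit 0) (.e (nat_lit 1800) (nat_lit 119) (.e (nat_lit 516127) (nat_lit 2) .nil)))))) (.g (nat_lit 1) (.e (nat_lit 233836) (nat_lit 0) .nil) .nil)))) (.nd (nat_lit 9) 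
(.lf (nat_lit 525617) (.g (nat_lit 1414) (.e (nat_lit 204885) (nat_lit 33) (.e (nat_lit 401448) (nat_lit 10) (.e (nat_lit 434247) (nat_lit 28) (.e (nat_lit 573469) (nat_lit 11) .nil)))) (.g (nat_lit 0) (.e (nat_lit 233445) (nat_lit 0) .nil) .nil))) 
(.lf (nat_lit 526129) (.g (nat_lit 2438) (.e (nat_lit 213030) (nat_lit 11) (.e (nat_lit 24657) (nat_lit 13) (.e (nat_lit 393281) (nat_lit 23) (.e (nat_lit 426100) (nat_lit 1) (.e (nat_lit 164332) (nat_lit 230) (.e (nat_lit 163880) (nat_lit 4) .nil)))))) (.g (nat_lit 1) (.e (nat_lit 234127) (nat_lit 0) .nil) .nil))))) (.nd (nat_lit 8) (.nd (nat_lit 9) 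
(.lf (nat_lit 525489) (.g (nat_lit 953) (.e (nat_lit 204884) (nat_lit 33) (.e (nat_lit 401459) (nat_lit 13) (.e (nat_lit 483350) (nat_lit 17) .nil))) (.g (nat_lit 0) (.e (nat_lit 233085) (nat_lit 0) .nil) .nil))) 
(.lf (nat_lit 526001) (.g (nat_lit 2690) (.e (nat_lit 213030) (nat_lit 11) (.e (nat_lit 24625) (nat_lit 9) (.e (nat_lit 336443) (nat_lit 32) (.e (nat_lit 466969) (nat_lit 21) (.e (nat_lit 164327) (nat_lit 230) (.e (nat_lit 163881) (nat_lit 4) .nil)))))) (.g (nat_lit 1) (.e (nat_lit 233978) (nat_lit 0) .nil) .nil)))) (.nd (nat_lit 9) 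
(.lf (nat_lit 525745) (.g (nat_lit 538) (.e (nat_lit 220928) (nat_lit 6) (.e (nat_lit 81939) (nat_lit 20) (.e (nat_lit 2005) (nat_lit 138) (.e (nat_lit 671764) (nat_lit 6) (.e (nat_lit 89856) (nat_lit 4) .nil))))) (.g (nat_lit 0) (.e (nat_lit 233638) (nat_lit 0) .nil) .nil))) 
(.lf (nat_lit 526257) (.g (nat_lit 2854) (.e (nat_lit 213032) (nat_lit 11) (.e (nat_lit 24604) (nat_lit 2) (.e (nat_lit 90170) (nat_lit 13) (.e (nat_lit 172120) (nat_lit 12) (.e (nat_lit 475179) (nat_lit 24) (.e (nat_lit 516124) (nat_lit 2) .nil)))))) (.g (nat_lit 1) (.e (nat_lit 234408) (nat_lit 0) .nil) .nil)))))) (.nd (nat_lit 7) (.nd (nat_lit 8) (.nd (nat_lit 9) 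
(.lf (nat_lit 525425) (.g (nat_lit 1089) (.e (nat_lit 204883) (nat_lit 33) (.e (nat_lit 401457) (nat_lit 13) (.e (nat_lit 483370) (nat_lit 20) .nil))) (.g (nat_lit 0) (.e (nat_lit 232901) (nat_lit 0) .nil) .nil))) 
(.lf (nat_lit 525937) (.g (nat_lit 2978) (.e (nat_lit 213030) (nat_lit 11) (.e (nat_lit 24617) (nat_lit 7) (.e (nat_lit 319533) (nat_lit 16) (.e (nat_lit 286759) (nat_lit 12) (.e (nat_lit 385107) (nat_lit 51) (.e (nat_lit 794680) (nat_lit 24) .nil)))))) (.g (nat_lit 1) (.e (nat_lit 233912) (nat_lit 0) .nil) .nil)))) (.nd (nat_lit 9) 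
(.lf (nat_lit 525681) (.g (nat_lit 1681) (.e (nat_lit 220928) (nat_lit 4) (.e (nat_lit 65630) (nat_lit 14) (.e (nat_lit 401438) (nat_lit 9) (.e (nat_lit 426542) (nat_lit 29) (.e (nat_lit 360192) (nat_lit 4) .nil))))) (.g (nat_lit 0) (.e (nat_lit 233568) (nat_lit 0) .nil) .nil))) 
(.lf (nat_lit 526193) (.g (nat_lit 2803) (.e (nat_lit 213030) (nat_lit 11) (.e (nat_lit 24661) (nat_lit 14) (.e (nat_lit 401454) (nat_lit 12) (.e (nat_lit 475210) (nat_lit 41) .nil)))) (.g (nat_lit 0) (.e (nat_lit 234196) (nat_lit 0) .nil) .nil))))) (.nd (nat_lit 8) (.nd (nat_lit 9) 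
(.lf (nat_lit 525553) (.g (nat_lit 5521) (.e (nat_lit 204885) (nat_lit 33) (.e (nat_lit 401448) (nat_lit 10) (.e (nat_lit 434231) (nat_lit 23) (.e (nat_lit 532523) (nat_lit 7) (.e (nat_lit 319538) (nat_lit 19) (.e (nat_lit 311315) (nat_lit 3) .nil)))))) (.g (nat_lit 1) (.e (nat_lit 233307) (nat_lit 0) .nil) .nil))) 
(.lf (nat_lit 526065) (.g (nat_lit 2662) (.e (nat_lit 213030) (nat_lit 11) (.e (nat_lit 24629) (nat_lit 9) (.e (nat_lit 336443) (nat_lit 32) (.e (nat_lit 466969) (nat_lit 21) (.e (nat_lit 164325) (nat_lit 230) (.e (nat_lit 163879) (nat_lit 4) .nil)))))) (.g (nat_lit 1) (.e (nat_lit 234043) (nat_lit 0) .nil) .nil)))) (.nd (nat_lit 9) 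
(.lf (nat_lit 525809) (.g (nat_lit 1589) (.e (nat_lit 213019) (nat_lit 9) (.e (nat_lit 2684) (nat_lit 168) (.e (nat_lit 204830) (nat_lit 18) (.e (nat_lit 57927) (nat_lit 282) .nil)))) (.g (nat_lit 0) (.e (nat_lit 233763) (nat_lit 0) .nil) .nil))) 
(.lf (nat_lit 526321) (.g (nat_lit 3099) (.e (nat_lit 213032) (nat_lit 11) (.e (nat_lit 24608) (nat_lit 3) (.e (nat_lit 98370) (nat_lit 28) (.e (nat_lit 442374) (nat_lit 0) (.e (nat_lit 1800) (nat_lit 119) (.e (nat_lit 516124) (nat_lit 2) .nil)))))) (.g (nat_lit 1) (.e (nat_lit 234491) (nat_lit 0) .nil) .nil))))))))) 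
(.nd (nat_lit 4) (.nd (nat_lit 5) (.nd (nat_lit 6) (.nd (nat_lit 7) (.nd (nat_lit 8) 
(.nd (nat_lit 9) 
(.lf (nat_lit 525321) (.g (nat_lit 3955) (.e (nat_lit 204882) (nat_lit 32) (.e (nat_lit 385068) (nat_lit 26) (.e (nat_lit 532501) (nat_lit 1) (.e (nat_lit 57852) (nat_lit 252) (.e (nat_lit 57376) (nat_lit 3) .nil))))) (.g (nat_lit 0) (.e (nat_lit 232740) (nat_lit 0) .nil) .nil))) 
(.lf (nat_lit 525833) (.g (nat_lit 1933) (.e (nat_lit 213030) (nat_lit 11) (.e (nat_lit 24605) (nat_lit 2) (.e (nat_lit 90176) (nat_lit 15) (.e (nat_lit 188420) (nat_lit 0) (.e (nat_lit 1800) (nat_lit 119) (.e (nat_lit 516127) (nat_lit 2) .nil)))))) (.g (nat_lit 1) (.e (nat_lit 233793) (nat_lit 0) .nil) .nil)))) (.nd (nat_lit 9) 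
(.lf (nat_lit 525577) (.g (nat_lit 2291) (.e (nat_lit 204885) (nat_lit 33) (.e (nat_lit 401448) (nat_lit 10) (.e (nat_lit 434232) (nat_lit 23) (.e (nat_lit 532525) (nat_lit 8) (.e (nat_lit 327718) (nat_lit 19) (.e (nat_lit 311315) (nat_lit 3) .nil)))))) (.g (nat_lit 1) (.e (nat_lit 233331) (nat_lit 0) .nil) .nil))) 
(.lf (nat_lit 526089) (.g (nat_lit 3173) (.e (nat_lit 213030) (nat_lit 11) (.e (nat_lit 24630) (nat_lit 9) (.e (nat_lit 336443) (nat_lit 32) (.e (nat_lit 466971) (nat_lit 21) (.e (nat_lit 164327) (nat_lit 230) (.e (nat_lit 163882) (nat_lit 4) .nil)))))) (.g (nat_lit 1) (.e (nat_lit 234084) (nat_lit 0) .nil) .nil))))) (.nd (nat_lit 8) (.nd (nat_lit 9) 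
(.lf (nat_lit 525449) (.g (nat_lit 1874) (.e (nat_lit 204883) (nat_lit 33) (.e (nat_lit 401459) (nat_lit 13) (.e (nat_lit 483350) (nat_lit 17) (.e (nat_lit 2375) (nat_lit 154) .nil)))) (.g (nat_lit 0) (.e (nat_lit 232941) (nat_lit 0) .nil) .nil))) 
(.lf (nat_lit 525961) (.g (nat_lit 3005) (.e (nat_lit 213030) (nat_lit 11) (.e (nat_lit 24617) (nat_lit 7) (.e (nat_lit 319534) (nat_lit 16) (.e (nat_lit 286756) (nat_lit 10) (.e (nat_lit 344168) (nat_lit 40) (.e (nat_lit 671771) (nat_lit 9) (.e (nat_lit 2686) (nat_lit 169) .nil))))))) (.g (nat_lit 1) (.e (nat_lit 233936) (nat_lit 0) .nil) .nil)))) (.nd (nat_lit 9) 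
(.lf (nat_lit 525705) (.g (nat_lit 1310) (.e (nat_lit 220928) (nat_lit 5) (.e (nat_lit 73781) (nat_lit 32) (.e (nat_lit 3090) (nat_lit 191) (.e (nat_lit 483386) (nat_lit 23) .nil)))) (.g (nat_lit 0) (.e (nat_lit 233592) (nat_lit 0) .nil) .nil))) 
(.lf (nat_lit 526217) (.g (nat_lit 2169) (.e (nat_lit 213031) (nat_lit 11) (.e (nat_lit 24628) (nat_lit 9) (.e (nat_lit 336443) (nat_lit 32) (.e (nat_lit 466969) (nat_lit 21) (.e (nat_lit 164332) (nat_lit 230) .nil))))) (.g (nat_lit 0) (.e (nat_lit 234307) (nat_lit 0) .nil) .nil)))))) (.nd (nat_lit 7) (.nd (nat_lit 8) (.nd (nat_lit 9) 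
(.lf (nat_lit 525385) (.g (nat_lit 770) (.e (nat_lit 204883) (nat_lit 33) (.e (nat_lit 401448) (nat_lit 10) (.e (nat_lit 434232) (nat_lit 23) .nil))) (.g (nat_lit 0) (.e (nat_lit 232821) (nat_lit 0) .nil) .nil))) 
(.lf (nat_lit 525897) (.g (nat_lit 1477) (.e (nat_lit 213030) (nat_lit 11) (.e (nat_lit 24617) (nat_lit 7) (.e (nat_lit 319531) (nat_lit 16) (.e (nat_lit 286759) (nat_lit 12) (.e (nat_lit 385094) (nat_lit 49) .nil))))) (.g (nat_lit 0) (.e (nat_lit 233871) (nat_lit 0) .nil) .nil)))) (.nd (nat_lit 9) 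
(.lf (nat_lit 525641) (.g (nat_lit 3584) (.e (nat_lit 204885) (nat_lit 33) (.e (nat_lit 401451) (nat_lit 12) (.e (nat_lit 475185) (nat_lit 29) (.e (nat_lit 557109) (nat_lit 15) (.e (nat_lit 188450) (nat_lit 23) .nil))))) (.g (nat_lit 1) (.e (nat_lit 233501) (nat_lit 0) .nil) .nil))) 
(.lf (nat_lit 526153) (.g (nat_lit 1437) (.e (nat_lit 213030) (nat_lit 11) (.e (nat_lit 24659) (nat_lit 13) (.e (nat_lit 393282) (nat_lit 24) (.e (nat_lit 434209) (nat_lit 18) (.e (nat_lit 5223) (nat_lit 296) .nil))))) (.g (nat_lit 0) (.e (nat_lit 234151) (nat_lit 0) .nil) .nil))))) (.nd (nat_lit 8) (.nd (nat_lit 9) 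
(.lf (nat_lit 525513) (.g (nat_lit 2595) (.e (nat_lit 204885) (nat_lit 33) (.e (nat_lit 401440) (nat_lit 9) (.e (nat_lit 426412) (nat_lit 15) (.e (nat_lit 1856) (nat_lit 124) (.e (nat_lit 557107) (nat_lit 15) .nil))))) (.g (nat_lit 0) (.e (nat_lit 233134) (nat_lit 0) .nil) .nil))) 
(.lf (nat_lit 526025) (.g (nat_lit 3408) (.e (nat_lit 213030) (nat_lit 11) (.e (nat_lit 24626) (nat_lit 9) (.e (nat_lit 336443) (nat_lit 32) (.e (nat_lit 466972) (nat_lit 21) (.e (nat_lit 164332) (nat_lit 230) (.e (nat_lit 163880) (nat_lit 4) .nil)))))) (.g (nat_lit 1) (.e (nat_lit 234002) (nat_lit 0) .nil) .nil)))) (.nd (nat_lit 9) 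
(.lf (nat_lit 525769) (.g (nat_lit 292) (.e (nat_lit 220928) (nat_lit 6) (.e (nat_lit 81959) (nat_lit 24) (.e (nat_lit 123183) (nat_lit 264) .nil))) (.g (nat_lit 0) (.e (nat_lit 233662) (nat_lit 0) .nil) .nil))) 
(.lf (nat_lit 526281) (.g (nat_lit 2709) (.e (nat_lit 213032) (nat_lit 11) (.e (nat_lit 24607) (nat_lit 3) (.e (nat_lit 98365) (nat_lit 26) (.e (nat_lit 426187) (nat_lit 9) (.e (nat_lit 426436) (nat_lit 18) (.e (nat_lit 98338) (nat_lit 19) .nil)))))) (.g (nat_lit 1) (.e (nat_lit 234448) (nat_lit 0) .nil) .nil))))))) (.nd (nat_lit 6) (.nd (nat_lit 7) (.nd (nat_lit 8) (.nd (nat_lit 9) 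
(.lf (nat_lit 525353) (.g (nat_lit 3682) (.e (nat_lit 204882) (nat_lit 32) (.e (nat_lit 385068) (nat_lit 26) (.e (nat_lit 532563) (nat_lit 15) (.e (nat_lit 385066) (nat_lit 26) (.e (nat_lit 532530) (nat_lit 9) (.e (nat_lit 336324) (nat_lit 18) .nil)))))) (.g (nat_lit 1) (.e (nat_lit 232778) (nat_lit 0) .nil) .nil))) 
(.lf (nat_lit 525865) (.g (nat_lit 719) (.e (nat_lit 213030) (nat_lit 11) (.e (nat_lit 24609) (nat_lit 3) (.e (nat_lit 98358) (nat_lit 26) (.e (nat_lit 426227) (nat_lit 9) .nil)))) (.g (nat_lit 0) (.e (nat_lit 233827) (nat_lit 0) .nil) .nil)))) (.nd (nat_lit 9) 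
(.lf (nat_lit 525609) (.g (nat_lit 2363) (.e (nat_lit 204885) (nat_lit 33) (.e (nat_lit 401448) (nat_lit 10) (.e (nat_lit 434245) (nat_lit 28) (.e (nat_lit 573471) (nat_lit 11) (.e (nat_lit 16445) (nat_lit 9) .nil))))) (.g (nat_lit 0) (.e (nat_lit 233418) (nat_lit 0) .nil) .nil))) 
(.lf (nat_lit 526121) (.g (nat_lit 2757) (.e (nat_lit 213030) (nat_lit 11) (.e (nat_lit 24657) (nat_lit 13) (.e (nat_lit 393271) (nat_lit 23) (.e (nat_lit 426112) (nat_lit 1) (.e (nat_lit 164326) (nat_lit 230) (.e (nat_lit 163879) (nat_lit 4) .nil)))))) (.g (nat_lit 1) (.e (nat_lit 234119) (nat_lit 0) .nil) .nil))))) (.nd (nat_lit 8) (.nd (nat_lit 9) 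
(.lf (nat_lit 525481) (.g (nat_lit 1430) (.e (nat_lit 204884) (nat_lit 33) (.e (nat_lit 401459) (nat_lit 13) (.e (nat_lit 483341) (nat_lit 9) .nil))) (.g (nat_lit 0) (.e (nat_lit 233073) (nat_lit 0) .nil) .nil))) 
(.lf (nat_lit 525993) (.g (nat_lit 2049) (.e (nat_lit 213030) (nat_lit 11) (.e (nat_lit 24624) (nat_lit 9) (.e (nat_lit 336443) (nat_lit 32) (.e (nat_lit 466969) (nat_lit 21) (.e (nat_lit 164322) (nat_lit 230) .nil))))) (.g (nat_lit 0) (.e (nat_lit 233969) (nat_lit 0) .nil) .nil)))) (.nd (nat_lit 9) 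
(.lf (nat_lit 525737) (.g (nat_lit 680) (.e (nat_lit 220928) (nat_lit 6) (.e (nat_lit 81933) (nat_lit 20) (.e (nat_lit 1999) (nat_lit 137) (.e (nat_lit 663569) (nat_lit 6) (.e (nat_lit 89856) (nat_lit 4) .nil))))) (.g (nat_lit 0) (.e (nat_lit 233630) (nat_lit 0) .nil) .nil))) 
(.lf (nat_lit 526249) (.g (nat_lit 4064) (.e (nat_lit 213032) (nat_lit 11) (.e (nat_lit 24599) (nat_lit 1) (.e (nat_lit 57688) (nat_lit 156) (.e (nat_lit 163933) (nat_lit 17) (.e (nat_lit 466972) (nat_lit 21) (.e (nat_lit 164183) (nat_lit 154) (.e (nat_lit 65280) (nat_lit 65) .nil))))))) (.g (nat_lit 1) (.e (nat_lit 234397) (nat_lit 0) .nil) .nil)))))) 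
(.nd (nat_lit 7) (.nd (nat_lit 8) (.nd (nat_lit 9) 
(.lf (nat_lit 525417) (.g (nat_lit 3330) (.e (nat_lit 204883) (nat_lit 33) (.e (nat_lit 401457) (nat_lit 13) (.e (nat_lit 483341) (nat_lit 9) (.e (nat_lit 426011) (nat_lit 0) (.e (nat_lit 2399) (nat_lit 157) .nil))))) (.g (nat_lit 0) (.e (nat_lit 232892) (nat_lit 0) .nil) .nil))) 
(.lf (nat_lit 525929) (.g (nat_lit 3332) (.e (nat_lit 213030) (nat_lit 11) (.e (nat_lit 24617) (nat_lit 7) (.e (nat_lit 319533) (nat_lit 16) (.e (nat_lit 286753) (nat_lit 10) (.e (nat_lit 344169) (nat_lit 40) (.e (nat_lit 671774) (nat_lit 9) (.e (nat_lit 2699) (nat_lit 169) .nil))))))) (.g (nat_lit 1) (.e (nat_lit 233904) (nat_lit 0) .nil) .nil)))) (.nd (nat_lit 9) 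
(.lf (nat_lit 525673) (.g (nat_lit 1608) (.e (nat_lit 220928) (nat_lit 4) (.e (nat_lit 65628) (nat_lit 14) (.e (nat_lit 401457) (nat_lit 13) (.e (nat_lit 483382) (nat_lit 23) (.e (nat_lit 336332) (nat_lit 19) .nil))))) (.g (nat_lit 0) (.e (nat_lit 233560) (nat_lit 0) .nil) .nil))) 
(.lf (nat_lit 526185) (.g (nat_lit 1768) (.e (nat_lit 213030) (nat_lit 11) (.e (nat_lit 24660) (nat_lit 13) (.e (nat_lit 393284) (nat_lit 24) (.e (nat_lit 434209) (nat_lit 18) (.e (nat_lit 5224) (nat_lit 296) (.e (nat_lit 163879) (nat_lit 4) .nil)))))) (.g (nat_lit 1) (.e (nat_lit 234184) (nat_lit 0) .nil) .nil))))) (.nd (nat_lit 8) (.nd (nat_lit 9) 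
(.lf (nat_lit 525545) (.g (nat_lit 2502) (.e (nat_lit 204885) (nat_lit 33) (.e (nat_lit 401448) (nat_lit 10) (.e (nat_lit 434231) (nat_lit 23) (.e (nat_lit 532490) (nat_lit 0) (.e (nat_lit 7936) (nat_lit 361) .nil))))) (.g (nat_lit 0) (.e (nat_lit 233299) (nat_lit 0) .nil) .nil))) 
(.lf (nat_lit 526057) (.g (nat_lit 2965) (.e (nat_lit 213030) (nat_lit 11) (.e (nat_lit 24628) (nat_lit 9) (.e (nat_lit 336443) (nat_lit 32) (.e (nat_lit 466971) (nat_lit 21) (.e (nat_lit 164327) (nat_lit 230) (.e (nat_lit 163879) (nat_lit 4) .nil)))))) (.g (nat_lit 1) (.e (nat_lit 234034) (nat_lit 0) .nil) .nil)))) (.nd (nat_lit 9) 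
(.lf (nat_lit 525801) (.g (nat_lit 1503) (.e (nat_lit 213023) (nat_lit 9) (.e (nat_lit 2610) (nat_lit 163) (.e (nat_lit 164347) (nat_lit 240) (.e (nat_lit 2640) (nat_lit 165) .nil)))) (.g (nat_lit 0) (.e (nat_lit 233741) (nat_lit 0) .nil) .nil))) 
(.lf (nat_lit 526313) (.g (nat_lit 1778) (.e (nat_lit 213032) (nat_lit 11) (.e (nat_lit 24608) (nat_lit 3) (.e (nat_lit 98365) (nat_lit 26) (.e (nat_lit 426306) (nat_lit 12) (.e (nat_lit 475169) (nat_lit 22) .nil))))) (.g (nat_lit 0) (.e (nat_lit 234482) (nat_lit 0) .nil) .nil)))))))) (.nd (nat_lit 5) (.nd (nat_lit 6) (.nd (nat_lit 7) (.nd (nat_lit 8) (.nd (nat_lit 9) 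
(.lf (nat_lit 525337) (.g (nat_lit 2998) (.e (nat_lit 204882) (nat_lit 32) (.e (nat_lit 385068) (nat_lit 26) (.e (nat_lit 532530) (nat_lit 9) (.e (nat_lit 336316) (nat_lit 17) (.e (nat_lit 196681) (nat_lit 17) (.e (nat_lit 139008) (nat_lit 18) .nil)))))) (.g (nat_lit 1) (.e (nat_lit 232758) (nat_lit 0) .nil) .nil))) 
(.lf (nat_lit 525849) (.g (nat_lit 573) (.e (nat_lit 213030) (nat_lit 11) (.e (nat_lit 24608) (nat_lit 3) (.e (nat_lit 98354) (nat_lit 26) .nil))) (.g (nat_lit 0) (.e (nat_lit 233809) (nat_lit 0) .nil) .nil)))) (.nd (nat_lit 9) 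
(.lf (nat_lit 525593) (.g (nat_lit 901) (.e (nat_lit 204885) (nat_lit 33) (.e (nat_lit 401448) (nat_lit 10) (.e (nat_lit 434234) (nat_lit 23) (.e (nat_lit 532490) (nat_lit 0) .nil)))) (.g (nat_lit 0) (.e (nat_lit 233347) (nat_lit 0) .nil) .nil))) 
(.lf (nat_lit 526105) (.g (nat_lit 2616) (.e (nat_lit 213030) (nat_lit 11) (.e (nat_lit 24655) (nat_lit 13) (.e (nat_lit 393281) (nat_lit 23) (.e (nat_lit 426100) (nat_lit 1) (.e (nat_lit 164332) (nat_lit 230) (.e (nat_lit 163880) (nat_lit 4) .nil)))))) (.g (nat_lit 1) (.e (nat_lit 234103) (nat_lit 0) .nil) .nil))))) (.nd (nat_lit 8) (.nd (nat_lit 9) 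
(.lf (nat_lit 525465) (.g (nat_lit 908) (.e (nat_lit 204884) (nat_lit 33) (.e (nat_lit 401451) (nat_lit 12) (.e (nat_lit 475184) (nat_lit 29) .nil))) (.g (nat_lit 0) (.e (nat_lit 233046) (nat_lit 0) .nil) .nil))) 
(.lf (nat_lit 525977) (.g (nat_lit 2546) (.e (nat_lit 213030) (nat_lit 11) (.e (nat_lit 24617) (nat_lit 7) (.e (nat_lit 319534) (nat_lit 16) (.e (nat_lit 286756) (nat_lit 10) (.e (nat_lit 344169) (nat_lit 40) (.e (nat_lit 671776) (nat_lit 9) (.e (nat_lit 2686) (nat_lit 169) .nil))))))) (.g (nat_lit 1) (.e (nat_lit 233952) (nat_lit 0) .nil) .nil)))) (.nd (nat_lit 9) 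
(.lf (nat_lit 525721) (.g (nat_lit 1320) (.e (nat_lit 220928) (nat_lit 5) (.e (nat_lit 73782) (nat_lit 32) (.e (nat_lit 3090) (nat_lit 191) (.e (nat_lit 483386) (nat_lit 23) (.e (nat_lit 343808) (nat_lit 19) .nil))))) (.g (nat_lit 0) (.e (nat_lit 233608) (nat_lit 0) .nil) .nil))) 
(.lf (nat_lit 526233) (.g (nat_lit 896) (.e (nat_lit 213031) (nat_lit 11) (.e (nat_lit 24657) (nat_lit 13) (.e (nat_lit 393274) (nat_lit 23) .nil))) (.g (nat_lit 0) (.e (nat_lit 234325) (nat_lit 0) .nil) .nil)))))) (.nd (nat_lit 7) (.nd (nat_lit 8) (.nd (nat_lit 9) 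
(.lf (nat_lit 525401) (.g (nat_lit 4042) (.e (nat_lit 204883) (nat_lit 33) (.e (nat_lit 401453) (nat_lit 12) (.e (nat_lit 475185) (nat_lit 29) (.e (nat_lit 557101) (nat_lit 13) (.e (nat_lit 172097) (nat_lit 9) (.e (nat_lit 426140) (nat_lit 3) .nil)))))) (.g (nat_lit 1) (.e (nat_lit 232851) (nat_lit 0) .nil) .nil))) 
(.lf (nat_lit 525913) (.g (nat_lit 1159) (.e (nat_lit 213030) (nat_lit 11) (.e (nat_lit 24617) (nat_lit 7) (.e (nat_lit 319533) (nat_lit 16) (.e (nat_lit 286753) (nat_lit 10) .nil)))) (.g (nat_lit 0) (.e (nat_lit 233888) (nat_lit 0) .nil) .nil)))) (.nd (nat_lit 9) 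
(.lf (nat_lit 525657) (.g (nat_lit 718) (.e (nat_lit 212996) (nat_lit 0) (.e (nat_lit 1021) (nat_lit 81) (.e (nat_lit 1855) (nat_lit 124) (.e (nat_lit 557107) (nat_lit 15) .nil)))) (.g (nat_lit 0) (.e (nat_lit 233533) (nat_lit 0) .nil) .nil))) 
(.lf (nat_lit 526169) (.g (nat_lit 2042) (.e (nat_lit 213030) (nat_lit 11) (.e (nat_lit 24660) (nat_lit 13) (.e (nat_lit 393275) (nat_lit 23) (.e (nat_lit 426109) (nat_lit 1) (.e (nat_lit 164326) (nat_lit 230) (.e (nat_lit 163879) (nat_lit 4) .nil)))))) (.g (nat_lit 1) (.e (nat_lit 234167) (nat_lit 0) .nil) .nil))))) (.nd (nat_lit 8) (.nd (nat_lit 9) 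
(.lf (nat_lit 525529) (.g (nat_lit 793) (.e (nat_lit 204885) (nat_lit 33) (.e (nat_lit 401448) (nat_lit 10) (.e (nat_lit 434221) (nat_lit 19) (.e (nat_lit 499965) (nat_lit 14) .nil)))) (.g (nat_lit 0) (.e (nat_lit 233279) (nat_lit 0) .nil) .nil))) 
(.lf (nat_lit 526041) (.g (nat_lit 2457) (.e (nat_lit 213030) (nat_lit 11) (.e (nat_lit 24627) (nat_lit 9) (.e (nat_lit 336443) (nat_lit 32) (.e (nat_lit 466971) (nat_lit 21) (.e (nat_lit 164326) (nat_lit 230) (.e (nat_lit 163881) (nat_lit 4) .nil)))))) (.g (nat_lit 1) (.e (nat_lit 234018) (nat_lit 0) .nil) .nil)))) (.nd (nat_lit 9) 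
(.lf (nat_lit 525785) (.g (nat_lit 1976) (.e (nat_lit 213013) (nat_lit 9) (.e (nat_lit 2610) (nat_lit 163) (.e (nat_lit 164347) (nat_lit 240) (.e (nat_lit 2640) (nat_lit 165) (.e (nat_lit 188160) (nat_lit 38) (.e (nat_lit 122936) (nat_lit 23) (.e (nat_lit 516131) (nat_lit 3) (.e (nat_lit 221218) (nat_lit 24) .nil)))))))) (.g (nat_lit 1) (.e (nat_lit 233689) (nat_lit 0) .nil) .nil))) 
(.lf (nat_lit 526297) (.g (nat_lit 3239) (.e (nat_lit 213032) (nat_lit 11) (.e (nat_lit 24608) (nat_lit 3) (.e (nat_lit 98356) (nat_lit 26) (.e (nat_lit 426320) (nat_lit 12) (.e (nat_lit 475179) (nat_lit 24) (.e (nat_lit 516126) (nat_lit 2) .nil)))))) (.g (nat_lit 1) (.e (nat_lit 234465) (nat_lit 0) .nil) .nil))))))) (.nd (nat_lit 6) (.nd (nat_lit 7) (.nd (nat_lit 8) (.nd (nat_lit 9) 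
(.lf (nat_lit 525369) (.g (nat_lit 672) (.e (nat_lit 204882) (nat_lit 32) (.e (nat_lit 385107) (nat_lit 51) (.e (nat_lit 794668) (nat_lit 22) .nil))) (.g (nat_lit 0) (.e (nat_lit 232796) (nat_lit 0) .nil) .nil))) 
(.lf (nat_lit 525881) (.g (nat_lit 1641) (.e (nat_lit 213030) (nat_lit 11) (.e (nat_lit 24617) (nat_lit 7) (.e (nat_lit 319529) (nat_lit 16) (.e (nat_lit 286748) (nat_lit 9) (.e (nat_lit 343808) (nat_lit 20) .nil))))) (.g (nat_lit 0) (.e (nat_lit 233854) (nat_lit 0) .nil) .nil)))) (.nd (nat_lit 9) 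
(.lf (nat_lit 525625) (.g (nat_lit 4041) (.e (nat_lit 204885) (nat_lit 33) (.e (nat_lit 401448) (nat_lit 10) (.e (nat_lit 434248) (nat_lit 28) (.e (nat_lit 573471) (nat_lit 11) (.e (nat_lit 16446) (nat_lit 9) (.e (nat_lit 426133) (nat_lit 3) .nil)))))) (.g (nat_lit 1) (.e (nat_lit 233463) (nat_lit 0) .nil) .nil))) 
(.lf (nat_lit 526137) (.g (nat_lit 1475) (.e (nat_lit 213030) (nat_lit 11) (.e (nat_lit 24659) (nat_lit 13) (.e (nat_lit 393266) (nat_lit 23) (.e (nat_lit 426109) (nat_lit 1) (.e (nat_lit 164326) (nat_lit 230) (.e (nat_lit 163882) (nat_lit 4) .nil)))))) (.g (nat_lit 1) (.e (nat_lit 234135) (nat_lit 0) .nil) .nil))))) (.nd (nat_lit 8) (.nd (nat_lit 9) 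
(.lf (nat_lit 525497) (.g (nat_lit 2593) (.e (nat_lit 204885) (nat_lit 33) (.e (nat_lit 401434) (nat_lit 9) (.e (nat_lit 426125) (nat_lit 2) (.e (nat_lit 196661) (nat_lit 12) (.e (nat_lit 57712) (nat_lit 176) (.e (nat_lit 1376) (nat_lit 104) (.e (nat_lit 303118) (nat_lit 3) .nil))))))) (.g (nat_lit 1) (.e (nat_lit 233101) (nat_lit 0) .nil) .nil))) 
(.lf (nat_lit 526009) (.g (nat_lit 2359) (.e (nat_lit 213030) (nat_lit 11) (.e (nat_lit 24625) (nat_lit 9) (.e (nat_lit 336443) (nat_lit 32) (.e (nat_lit 466972) (nat_lit 21) (.e (nat_lit 164322) (nat_lit 230) .nil))))) (.g (nat_lit 0) (.e (nat_lit 233986) (nat_lit 0) .nil) .nil)))) (.nd (nat_lit 9) 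
(.lf (nat_lit 525753) (.g (nat_lit 373) (.e (nat_lit 220928) (nat_lit 6) (.e (nat_lit 81947) (nat_lit 20) (.e (nat_lit 2003) (nat_lit 138) .nil))) (.g (nat_lit 0) (.e (nat_lit 233646) (nat_lit 0) .nil) .nil))) 
(.lf (nat_lit 526265) (.g (nat_lit 1961) (.e (nat_lit 213032) (nat_lit 11) (.e (nat_lit 24604) (nat_lit 2) (.e (nat_lit 90178) (nat_lit 15) (.e (nat_lit 188455) (nat_lit 24) (.e (nat_lit 229520) (nat_lit 126) .nil))))) (.g (nat_lit 0) (.e (nat_lit 234428) (nat_lit 0) .nil) .nil)))))) (.nd (nat_lit 7) (.nd (nat_lit 8) (.nd (nat_lit 9) 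
(.lf (nat_lit 525433) (.g (nat_lit 897) (.e (nat_lit 204883) (nat_lit 33) (.e (nat_lit 401459) (nat_lit 13) (.e (nat_lit 491264) (nat_lit 10) .nil))) (.g (nat_lit 0) (.e (nat_lit 232916) (nat_lit 0) .nil) .nil))) 
(.lf (nat_lit 525945) (.g (nat_lit 2226) (.e (nat_lit 213030) (nat_lit 11) (.e (nat_lit 24617) (nat_lit 7) (.e (nat_lit 319534) (nat_lit 16) (.e (nat_lit 286749) (nat_lit 9) (.e (nat_lit 343808) (nat_lit 20) (.e (nat_lit 221218) (nat_lit 24) .nil)))))) (.g (nat_lit 1) (.e (nat_lit 233920) (nat_lit 0) .nil) .nil)))) (.nd (nat_lit 9) 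
(.lf (nat_lit 525689) (.g (nat_lit 1972) (.e (nat_lit 220928) (nat_lit 4) (.e (nat_lit 65630) (nat_lit 14) (.e (nat_lit 401457) (nat_lit 13) (.e (nat_lit 483382) (nat_lit 23) (.e (nat_lit 336332) (nat_lit 19) .nil))))) (.g (nat_lit 0) (.e (nat_lit 233576) (nat_lit 0) .nil) .nil))) 
(.lf (nat_lit 526201) (.g (nat_lit 705) (.e (nat_lit 213031) (nat_lit 11) (.e (nat_lit 24607) (nat_lit 3) (.e (nat_lit 98369) (nat_lit 28) .nil))) (.g (nat_lit 0) (.e (nat_lit 234291) (nat_lit 0) .nil) .nil))))) (.nd (nat_lit 8) (.nd (nat_lit 9) 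
(.lf (nat_lit 525561) (.g (nat_lit 2589) (.e (nat_lit 204885) (nat_lit 33) (.e (nat_lit 401448) (nat_lit 10) (.e (nat_lit 434231) (nat_lit 23) (.e (nat_lit 532568) (nat_lit 16) (.e (nat_lit 401442) (nat_lit 9) .nil))))) (.g (nat_lit 0) (.e (nat_lit 233315) (nat_lit 0) .nil) .nil))) 
(.lf (nat_lit 526073) (.g (nat_lit 3318) (.e (nat_lit 213030) (nat_lit 11) (.e (nat_lit 24629) (nat_lit 9) (.e (nat_lit 336443) (nat_lit 32) (.e (nat_lit 466972) (nat_lit 21) (.e (nat_lit 164332) (nat_lit 230) (.e (nat_lit 163880) (nat_lit 4) .nil)))))) (.g (nat_lit 1) (.e (nat_lit 234051) (nat_lit 0) .nil) .nil)))) (.nd (nat_lit 9) 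
(.lf (nat_lit 525817) (.g (nat_lit 2491) (.e (nat_lit 213030) (nat_lit 11) (.e (nat_lit 24604) (nat_lit 2) (.e (nat_lit 90170) (nat_lit 13) (.e (nat_lit 172118) (nat_lit 12) .nil)))) (.g (nat_lit 0) (.e (nat_lit 233777) (nat_lit 0) .nil) .nil))) 
(.lf (nat_lit 526329) (.g (nat_lit 3449) (.e (nat_lit 213032) (nat_lit 11) (.e (nat_lit 24608) (nat_lit 3) (.e (nat_lit 98373) (nat_lit 29) (.e (nat_lit 450584) (nat_lit 9) (.e (nat_lit 565275) (nat_lit 9) (.e (nat_lit 2695) (nat_lit 169) .nil)))))) (.g (nat_lit 1) (.e (nat_lit 234515) (nat_lit 0) .nil) .nil)))))))))) 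
(.nd (nat_lit 3) (.nd (nat_lit 4) (.nd (nat_lit 5) (.nd (nat_lit 6) (.nd (nat_lit 7) 
(.nd (nat_lit 8) (.nd (nat_lit 9) 
(.lf (nat_lit 525317) (.g (nat_lit 2710) (.e (nat_lit 204882) (nat_lit 32) (.e (nat_lit 385068) (nat_lit 26) (.e (nat_lit 532501) (nat_lit 1) (.e (nat_lit 57851) (nat_lit 252) .nil)))) (.g (nat_lit 0) (.e (nat_lit 232736) (nat_lit 0) .nil) .nil))) 
(.lf (nat_lit 525829) (.g (nat_lit 1878) (.e (nat_lit 213030) (nat_lit 11) (.e (nat_lit 24605) (nat_lit 2) (.e (nat_lit 90170) (nat_lit 13) (.e (nat_lit 172113) (nat_lit 10) (.e (nat_lit 442112) (nat_lit 26) (.e (nat_lit 557065) (nat_lit 9) (.e (nat_lit 2692) (nat_lit 169) .nil))))))) (.g (nat_lit 1) (.e (nat_lit 233789) (nat_lit 0) .nil) .nil)))) (.nd (nat_lit 9) 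
(.lf (nat_lit 525573) (.g (nat_lit 3094) (.e (nat_lit 204885) (nat_lit 33) (.e (nat_lit 401448) (nat_lit 10) (.e (nat_lit 434232) (nat_lit 23) (.e (nat_lit 532523) (nat_lit 7) (.e (nat_lit 319505) (nat_lit 10) (.e (nat_lit 5714) (nat_lit 312) (.e (nat_lit 2682) (nat_lit 168) .nil))))))) (.g (nat_lit 1) (.e (nat_lit 233327) (nat_lit 0) .nil) .nil))) 
(.lf (nat_lit 526085) (.g (nat_lit 2840) (.e (nat_lit 213030) (nat_lit 11) (.e (nat_lit 24630) (nat_lit 9) (.e (nat_lit 336443) (nat_lit 32) (.e (nat_lit 466971) (nat_lit 21) (.e (nat_lit 164325) (nat_lit 230) (.e (nat_lit 163881) (nat_lit 4) .nil)))))) (.g (nat_lit 1) (.e (nat_lit 234080) (nat_lit 0) .nil) .nil))))) (.nd (nat_lit 8) (.nd (nat_lit 9) 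
(.lf (nat_lit 525445) (.g (nat_lit 1544) (.e (nat_lit 204883) (nat_lit 33) (.e (nat_lit 401459) (nat_lit 13) (.e (nat_lit 483344) (nat_lit 17) (.e (nat_lit 2376) (nat_lit 154) .nil)))) (.g (nat_lit 0) (.e (nat_lit 232930) (nat_lit 0) .nil) .nil))) 
(.lf (nat_lit 525957) (.g (nat_lit 2678) (.e (nat_lit 213030) (nat_lit 11) (.e (nat_lit 24617) (nat_lit 7) (.e (nat_lit 319534) (nat_lit 16) (.e (nat_lit 286756) (nat_lit 10) (.e (nat_lit 352000) (nat_lit 39) (.e (nat_lit 663580) (nat_lit 9) (.e (nat_lit 2699) (nat_lit 169) .nil))))))) (.g (nat_lit 1) (.e (nat_lit 233932) (nat_lit 0) .nil) .nil)))) (.nd (nat_lit 9) 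
(.lf (nat_lit 525701) (.g (nat_lit 767) (.e (nat_lit 220928) (nat_lit 5) (.e (nat_lit 73781) (nat_lit 32) (.e (nat_lit 3089) (nat_lit 191) (.e (nat_lit 483391) (nat_lit 23) .nil)))) (.g (nat_lit 0) (.e (nat_lit 233588) (nat_lit 0) .nil) .nil))) 
(.lf (nat_lit 526213) (.g (nat_lit 910) (.e (nat_lit 213031) (nat_lit 11) (.e (nat_lit 24625) (nat_lit 9) (.e (nat_lit 336426) (nat_lit 29) .nil))) (.g (nat_lit 0) (.e (nat_lit 234303) (nat_lit 0) .nil) .nil)))))) (.nd (nat_lit 7) (.nd (nat_lit 8) (.nd (nat_lit 9) 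
(.lf (nat_lit 525381) (.g (nat_lit 539) (.e (nat_lit 204883) (nat_lit 33) (.e (nat_lit 401435) (nat_lit 9) (.e (nat_lit 426402) (nat_lit 15) .nil))) (.g (nat_lit 0) (.e (nat_lit 232814) (nat_lit 0) .nil) .nil))) 
(.lf (nat_lit 525893) (.g (nat_lit 3001) (.e (nat_lit 213030) (nat_lit 11) (.e (nat_lit 24617) (nat_lit 7) (.e (nat_lit 319530) (nat_lit 16) (.e (nat_lit 286759) (nat_lit 12) (.e (nat_lit 385107) (nat_lit 51) (.e (nat_lit 794680) (nat_lit 24) .nil)))))) (.g (nat_lit 1) (.e (nat_lit 233867) (nat_lit 0) .nil) .nil)))) (.nd (nat_lit 9) 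
(.lf (nat_lit 525637) (.g (nat_lit 4837) (.e (nat_lit 204885) (nat_lit 33) (.e (nat_lit 401451) (nat_lit 12) (.e (nat_lit 475184) (nat_lit 29) (.e (nat_lit 557109) (nat_lit 15) (.e (nat_lit 188452) (nat_lit 23) .nil))))) (.g (nat_lit 1) (.e (nat_lit 233494) (nat_lit 0) .nil) .nil))) 
(.lf (nat_lit 526149) (.g (nat_lit 2279) (.e (nat_lit 213030) (nat_lit 11) (.e (nat_lit 24659) (nat_lit 13) (.e (nat_lit 393281) (nat_lit 23) (.e (nat_lit 426098) (nat_lit 1) (.e (nat_lit 164327) (nat_lit 230) (.e (nat_lit 163879) (nat_lit 4) .nil)))))) (.g (nat_lit 1) (.e (nat_lit 234147) (nat_lit 0) .nil) .nil))))) (.nd (nat_lit 8) (.nd (nat_lit 9) 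
(.lf (nat_lit 525509) (.g (nat_lit 2958) (.e (nat_lit 204885) (nat_lit 33) (.e (nat_lit 401434) (nat_lit 9) (.e (nat_lit 426140) (nat_lit 3) (.e (nat_lit 204846) (nat_lit 24) (.e (nat_lit 319537) (nat_lit 19) (.e (nat_lit 311315) (nat_lit 3) .nil)))))) (.g (nat_lit 1) (.e (nat_lit 233128) (nat_lit 0) .nil) .nil))) 
(.lf (nat_lit 526021) (.g (nat_lit 2471) (.e (nat_lit 213030) (nat_lit 11) (.e (nat_lit 24626) (nat_lit 9) (.e (nat_lit 336443) (nat_lit 32) (.e (nat_lit 466971) (nat_lit 21) (.e (nat_lit 164326) (nat_lit 230) (.e (nat_lit 163881) (nat_lit 4) .nil)))))) (.g (nat_lit 1) (.e (nat_lit 233998) (nat_lit 0) .nil) .nil)))) (.nd (nat_lit 9) 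
(.lf (nat_lit 525765) (.g (nat_lit 2269) (.e (nat_lit 220928) (nat_lit 6) (.e (nat_lit 81959) (nat_lit 24) (.e (nat_lit 123182) (nat_lit 264) (.e (nat_lit 1193) (nat_lit 88) .nil)))) (.g (nat_lit 0) (.e (nat_lit 233658) (nat_lit 0) .nil) .nil))) 
(.lf (nat_lit 526277) (.g (nat_lit 2002) (.e (nat_lit 213032) (nat_lit 11) (.e (nat_lit 24605) (nat_lit 2) (.e (nat_lit 90170) (nat_lit 13) (.e (nat_lit 172113) (nat_lit 10) (.e (nat_lit 442112) (nat_lit 26) (.e (nat_lit 557065) (nat_lit 9) (.e (nat_lit 2700) (nat_lit 169) .nil))))))) (.g (nat_lit 1) (.e (nat_lit 234444) (nat_lit 0) .nil) .nil))))))) 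
(.nd (nat_lit 6) (.nd (nat_lit 7) (.nd (nat_lit 8) (.nd (nat_lit 9) 
(.lf (nat_lit 525349) (.g (nat_lit 3011) (.e (nat_lit 204882) (nat_lit 32) (.e (nat_lit 385068) (nat_lit 26) (.e (nat_lit 532534) (nat_lit 9) (.e (nat_lit 336316) (nat_lit 17) (.e (nat_lit 196665) (nat_lit 13) (.e (nat_lit 73472) (nat_lit 18) .nil)))))) (.g (nat_lit 1) (.e (nat_lit 232770) (nat_lit 0) .nil) .nil))) 
(.lf (nat_lit 525861) (.g (nat_lit 2551) (.e (nat_lit 213030) (nat_lit 11) (.e (nat_lit 24608) (nat_lit 3) (.e (nat_lit 98380) (nat_lit 31) (.e (nat_lit 466947) (nat_lit 0) (.e (nat_lit 1800) (nat_lit 119) (.e (nat_lit 516124) (nat_lit 2) .nil)))))) (.g (nat_lit 1) (.e (nat_lit 233823) (nat_lit 0) .nil) .nil)))) (.nd (nat_lit 9) 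
(.lf (nat_lit 525605) (.g (nat_lit 2040) (.e (nat_lit 204885) (nat_lit 33) (.e (nat_lit 401448) (nat_lit 10) (.e (nat_lit 434245) (nat_lit 28) (.e (nat_lit 573469) (nat_lit 11) (.e (nat_lit 16436) (nat_lit 9) (.e (nat_lit 426131) (nat_lit 3) .nil)))))) (.g (nat_lit 1) (.e (nat_lit 233414) (nat_lit 0) .nil) .nil))) 
(.lf (nat_lit 526117) (.g (nat_lit 1414) (.e (nat_lit 213030) (nat_lit 11) (.e (nat_lit 24656) (nat_lit 13) (.e (nat_lit 393291) (nat_lit 26) (.e (nat_lit 475214) (nat_lit 42) (.e (nat_lit 728832) (nat_lit 4) .nil))))) (.g (nat_lit 0) (.e (nat_lit 234115) (nat_lit 0) .nil) .nil))))) (.nd (nat_lit 8) (.nd (nat_lit 9) 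
(.lf (nat_lit 525477) (.g (nat_lit 2808) (.e (nat_lit 204884) (nat_lit 33) (.e (nat_lit 401459) (nat_lit 13) (.e (nat_lit 483336) (nat_lit 9) (.e (nat_lit 426011) (nat_lit 0) (.e (nat_lit 2399) (nat_lit 157) .nil))))) (.g (nat_lit 0) (.e (nat_lit 233069) (nat_lit 0) .nil) .nil))) 
(.lf (nat_lit 525989) (.g (nat_lit 2368) (.e (nat_lit 213030) (nat_lit 11) (.e (nat_lit 24623) (nat_lit 9) (.e (nat_lit 336443) (nat_lit 32) (.e (nat_lit 466971) (nat_lit 21) (.e (nat_lit 164322) (nat_lit 230) .nil))))) (.g (nat_lit 0) (.e (nat_lit 233965) (nat_lit 0) .nil) .nil)))) (.nd (nat_lit 9) 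
(.lf (nat_lit 525733) (.g (nat_lit 1102) (.e (nat_lit 220928) (nat_lit 6) (.e (nat_lit 81924) (nat_lit 0) (.e (nat_lit 3748) (nat_lit 228) (.e (nat_lit 786478) (nat_lit 29) (.e (nat_lit 360192) (nat_lit 4) .nil))))) (.g (nat_lit 0) (.e (nat_lit 233625) (nat_lit 0) .nil) .nil))) 
(.lf (nat_lit 526245) (.g (nat_lit 3475) (.e (nat_lit 213032) (nat_lit 11) (.e (nat_lit 24597) (nat_lit 1) (.e (nat_lit 57688) (nat_lit 156) (.e (nat_lit 163932) (nat_lit 17) (.e (nat_lit 466972) (nat_lit 21) (.e (nat_lit 164183) (nat_lit 154) (.e (nat_lit 65280) (nat_lit 65) .nil))))))) (.g (nat_lit 1) (.e (nat_lit 234393) (nat_lit 0) .nil) .nil)))))) 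
(.nd (nat_lit 7) (.nd (nat_lit 8) (.nd (nat_lit 9) 
(.lf (nat_lit 525413) (.g (nat_lit 1835) (.e (nat_lit 204883) (nat_lit 33) (.e (nat_lit 401456) (nat_lit 13) (.e (nat_lit 483341) (nat_lit 9) (.e (nat_lit 426009) (nat_lit 0) .nil)))) (.g (nat_lit 0) (.e (nat_lit 232887) (nat_lit 0) .nil) .nil))) 
(.lf (nat_lit 525925) (.g (nat_lit 3601) (.e (nat_lit 213030) (nat_lit 11) (.e (nat_lit 24617) (nat_lit 7) (.e (nat_lit 319533) (nat_lit 16) (.e (nat_lit 286753) (nat_lit 10) (.e (nat_lit 344169) (nat_lit 40) (.e (nat_lit 671770) (nat_lit 9) (.e (nat_lit 2700) (nat_lit 169) .nil))))))) (.g (nat_lit 1) (.e (nat_lit 233900) (nat_lit 0) .nil) .nil)))) (.nd (nat_lit 9) 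
(.lf (nat_lit 525669) (.g (nat_lit 1638) (.e (nat_lit 220928) (nat_lit 4) (.e (nat_lit 65628) (nat_lit 14) (.e (nat_lit 401437) (nat_lit 9) (.e (nat_lit 426555) (nat_lit 32) (.e (nat_lit 384768) (nat_lit 4) .nil))))) (.g (nat_lit 0) (.e (nat_lit 233556) (nat_lit 0) .nil) .nil))) 
(.lf (nat_lit 526181) (.g (nat_lit 2371) (.e (nat_lit 213030) (nat_lit 11) (.e (nat_lit 24660) (nat_lit 13) (.e (nat_lit 393283) (nat_lit 24) (.e (nat_lit 434209) (nat_lit 18) (.e (nat_lit 5224) (nat_lit 296) (.e (nat_lit 163882) (nat_lit 4) .nil)))))) (.g (nat_lit 1) (.e (nat_lit 234179) (nat_lit 0) .nil) .nil))))) (.nd (nat_lit 8) (.nd (nat_lit 9) 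
(.lf (nat_lit 525541) (.g (nat_lit 2936) (.e (nat_lit 204885) (nat_lit 33) (.e (nat_lit 401448) (nat_lit 10) (.e (nat_lit 434231) (nat_lit 23) (.e (nat_lit 532490) (nat_lit 0) (.e (nat_lit 6092) (nat_lit 332) (.e (nat_lit 1374) (nat_lit 104) (.e (nat_lit 303119) (nat_lit 3) .nil))))))) (.g (nat_lit 1) (.e (nat_lit 233295) (nat_lit 0) .nil) .nil))) 
(.lf (nat_lit 526053) (.g (nat_lit 2510) (.e (nat_lit 213030) (nat_lit 11) (.e (nat_lit 24628) (nat_lit 9) (.e (nat_lit 336443) (nat_lit 32) (.e (nat_lit 466969) (nat_lit 21) (.e (nat_lit 164329) (nat_lit 230) (.e (nat_lit 163878) (nat_lit 4) .nil)))))) (.g (nat_lit 1) (.e (nat_lit 234030) (nat_lit 0) .nil) .nil)))) (.nd (nat_lit 9) 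
(.lf (nat_lit 525797) (.g (nat_lit 1147) (.e (nat_lit 213022) (nat_lit 9) (.e (nat_lit 2610) (nat_lit 163) (.e (nat_lit 164345) (nat_lit 240) (.e (nat_lit 2639) (nat_lit 165) .nil)))) (.g (nat_lit 0) (.e (nat_lit 233724) (nat_lit 0) .nil) .nil))) 
(.lf (nat_lit 526309) (.g (nat_lit 1844) (.e (nat_lit 213032) (nat_lit 11) (.e (nat_lit 24608) (nat_lit 3) (.e (nat_lit 98365) (nat_lit 26) (.e (nat_lit 426188) (nat_lit 9) (.e (nat_lit 426428) (nat_lit 17) .nil))))) (.g (nat_lit 0) (.e (nat_lit 234478) (nat_lit 0) .nil) .nil)))))))) (.nd (nat_lit 5) (.nd (nat_lit 6) (.nd (nat_lit 7) (.nd (nat_lit 8) (.nd (nat_lit 9) 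
(.lf (nat_lit 525333) (.g (nat_lit 2403) (.e (nat_lit 204882) (nat_lit 32) (.e (nat_lit 385068) (nat_lit 26) (.e (nat_lit 532530) (nat_lit 9) (.e (nat_lit 336316) (nat_lit 17) (.e (nat_lit 196663) (nat_lit 13) (.e (nat_lit 73472) (nat_lit 18) .nil)))))) (.g (nat_lit 1) (.e (nat_lit 232754) (nat_lit 0) .nil) .nil))) 
(.lf (nat_lit 525845) (.g (nat_lit 2842) (.e (nat_lit 213030) (nat_lit 11) (.e (nat_lit 24607) (nat_lit 3) (.e (nat_lit 98365) (nat_lit 26) (.e (nat_lit 426306) (nat_lit 12) (.e (nat_lit 475179) (nat_lit 24) (.e (nat_lit 516124) (nat_lit 2) .nil)))))) (.g (nat_lit 1) (.e (nat_lit 233805) (nat_lit 0) .nil) .nil)))) (.nd (nat_lit 9) 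
(.lf (nat_lit 525589) (.g (nat_lit 1864) (.e (nat_lit 204885) (nat_lit 33) (.e (nat_lit 401448) (nat_lit 10) (.e (nat_lit 434232) (nat_lit 23) (.e (nat_lit 532569) (nat_lit 16) (.e (nat_lit 401440) (nat_lit 9) (.e (nat_lit 426132) (nat_lit 3) .nil)))))) (.g (nat_lit 1) (.e (nat_lit 233343) (nat_lit 0) .nil) .nil))) 
(.lf (nat_lit 526101) (.g (nat_lit 1638) (.e (nat_lit 213030) (nat_lit 11) (.e (nat_lit 24655) (nat_lit 13) (.e (nat_lit 393268) (nat_lit 23) (.e (nat_lit 426448) (nat_lit 20) .nil)))) (.g (nat_lit 0) (.e (nat_lit 234099) (nat_lit 0) .nil) .nil))))) (.nd (nat_lit 8) (.nd (nat_lit 9) 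
(.lf (nat_lit 525461) (.g (nat_lit 1278) (.e (nat_lit 204884) (nat_lit 33) (.e (nat_lit 401448) (nat_lit 10) (.e (nat_lit 434232) (nat_lit 23) (.e (nat_lit 532523) (nat_lit 7) .nil)))) (.g (nat_lit 0) (.e (nat_lit 232989) (nat_lit 0) .nil) .nil))) 
(.lf (nat_lit 525973) (.g (nat_lit 2347) (.e (nat_lit 213030) (nat_lit 11) (.e (nat_lit 24617) (nat_lit 7) (.e (nat_lit 319534) (nat_lit 16) (.e (nat_lit 286756) (nat_lit 10) (.e (nat_lit 344169) (nat_lit 40) (.e (nat_lit 671773) (nat_lit 9) (.e (nat_lit 2698) (nat_lit 169) .nil))))))) (.g (nat_lit 1) (.e (nat_lit 233948) (nat_lit 0) .nil) .nil)))) (.nd (nat_lit 9) 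
(.lf (nat_lit 525717) (.g (nat_lit 1017) (.e (nat_lit 220928) (nat_lit 5) (.e (nat_lit 73782) (nat_lit 32) (.e (nat_lit 3088) (nat_lit 191) (.e (nat_lit 483384) (nat_lit 23) .nil)))) (.g (nat_lit 0) (.e (nat_lit 233604) (nat_lit 0) .nil) .nil))) 
(.lf (nat_lit 526229) (.g (nat_lit 1350) (.e (nat_lit 213031) (nat_lit 11) (.e (nat_lit 24657) (nat_lit 13) (.e (nat_lit 393271) (nat_lit 23) (.e (nat_lit 426112) (nat_lit 1) .nil)))) (.g (nat_lit 0) (.e (nat_lit 234321) (nat_lit 0) .nil) .nil)))))) (.nd (nat_lit 7) (.nd (nat_lit 8) (.nd (nat_lit 9) 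
(.lf (nat_lit 525397) (.g (nat_lit 4315) (.e (nat_lit 204883) (nat_lit 33) (.e (nat_lit 401453) (nat_lit 12) (.e (nat_lit 475183) (nat_lit 29) (.e (nat_lit 557109) (nat_lit 15) (.e (nat_lit 188452) (nat_lit 23) .nil))))) (.g (nat_lit 1) (.e (nat_lit 232847) (nat_lit 0) .nil) .nil))) 
(.lf (nat_lit 525909) (.g (nat_lit 2041) (.e (nat_lit 213030) (nat_lit 11) (.e (nat_lit 24617) (nat_lit 7) (.e (nat_lit 319533) (nat_lit 16) (.e (nat_lit 286750) (nat_lit 9) .nil)))) (.g (nat_lit 0) (.e (nat_lit 233884) (nat_lit 0) .nil) .nil)))) (.nd (nat_lit 9) 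
(.lf (nat_lit 525653) (.g (nat_lit 1508) (.e (nat_lit 212736) (nat_lit 33) (.e (nat_lit 401452) (nat_lit 12) (.e (nat_lit 475185) (nat_lit 29) (.e (nat_lit 557109) (nat_lit 15) .nil)))) (.g (nat_lit 0) (.e (nat_lit 233528) (nat_lit 0) .nil) .nil))) 
(.lf (nat_lit 526165) (.g (nat_lit 2129) (.e (nat_lit 213030) (nat_lit 11) (.e (nat_lit 24660) (nat_lit 13) (.e (nat_lit 393271) (nat_lit 23) (.e (nat_lit 426112) (nat_lit 1) (.e (nat_lit 164326) (nat_lit 230) (.e (nat_lit 163881) (nat_lit 4) .nil)))))) (.g (nat_lit 1) (.e (nat_lit 234163) (nat_lit 0) .nil) .nil))))) (.nd (nat_lit 8) (.nd (nat_lit 9) 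
(.lf (nat_lit 525525) (.g (nat_lit 656) (.e (nat_lit 204885) (nat_lit 33) (.e (nat_lit 401448) (nat_lit 10) (.e (nat_lit 434211) (nat_lit 18) .nil))) (.g (nat_lit 0) (.e (nat_lit 233270) (nat_lit 0) .nil) .nil))) 
(.lf (nat_lit 526037) (.g (nat_lit 2975) (.e (nat_lit 213030) (nat_lit 11) (.e (nat_lit 24627) (nat_lit 9) (.e (nat_lit 336443) (nat_lit 32) (.e (nat_lit 466969) (nat_lit 21) (.e (nat_lit 164330) (nat_lit 230) (.e (nat_lit 163880) (nat_lit 4) .nil)))))) (.g (nat_lit 1) (.e (nat_lit 234014) (nat_lit 0) .nil) .nil)))) (.nd (nat_lit 9) 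
(.lf (nat_lit 525781) (.g (nat_lit 1828) (.e (nat_lit 213013) (nat_lit 9) (.e (nat_lit 2610) (nat_lit 163) (.e (nat_lit 164345) (nat_lit 240) (.e (nat_lit 2638) (nat_lit 165) (.e (nat_lit 188160) (nat_lit 38) .nil))))) (.g (nat_lit 0) (.e (nat_lit 233684) (nat_lit 0) .nil) .nil))) 
(.lf (nat_lit 526293) (.g (nat_lit 626) (.e (nat_lit 213032) (nat_lit 11) (.e (nat_lit 24608) (nat_lit 3) (.e (nat_lit 98356) (nat_lit 26) .nil))) (.g (nat_lit 0) (.e (nat_lit 234461) (nat_lit 0) .nil) .nil))))))) (.nd (nat_lit 6) (.nd (nat_lit 7) (.nd (nat_lit 8) (.nd (nat_lit 9) 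
(.lf (nat_lit 525365) (.g (nat_lit 1832) (.e (nat_lit 204882) (nat_lit 32) (.e (nat_lit 385105) (nat_lit 50) (.e (nat_lit 786473) (nat_lit 27) (.e (nat_lit 336420) (nat_lit 28) .nil)))) (.g (nat_lit 0) (.e (nat_lit 232792) (nat_lit 0) .nil) .nil))) 
(.lf (nat_lit 525877) (.g (nat_lit 2422) (.e (nat_lit 213030) (nat_lit 11) (.e (nat_lit 24617) (nat_lit 7) (.e (nat_lit 319528) (nat_lit 16) (.e (nat_lit 286759) (nat_lit 12) (.e (nat_lit 385092) (nat_lit 49) (.e (nat_lit 778336) (nat_lit 9) (.e (nat_lit 2690) (nat_lit 169) .nil))))))) (.g (nat_lit 1) (.e (nat_lit 233850) (nat_lit 0) .nil) .nil)))) (.nd (nat_lit 9) 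
(.lf (nat_lit 525621) (.g (nat_lit 1136) (.e (nat_lit 204885) (nat_lit 33) (.e (nat_lit 401448) (nat_lit 10) (.e (nat_lit 434248) (nat_lit 28) (.e (nat_lit 573471) (nat_lit 11) .nil)))) (.g (nat_lit 0) (.e (nat_lit 233459) (nat_lit 0) .nil) .nil))) 
(.lf (nat_lit 526133) (.g (nat_lit 2638) (.e (nat_lit 213030) (nat_lit 11) (.e (nat_lit 24657) (nat_lit 13) (.e (nat_lit 393294) (nat_lit 26) (.e (nat_lit 475214) (nat_lit 42) (.e (nat_lit 728832) (nat_lit 4) .nil))))) (.g (nat_lit 1) (.e (nat_lit 234131) (nat_lit 0) .nil) .nil))))) (.nd (nat_lit 8) (.nd (nat_lit 9) 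
(.lf (nat_lit 525493) (.g (nat_lit 2918) (.e (nat_lit 204885) (nat_lit 33) (.e (nat_lit 401434) (nat_lit 9) (.e (nat_lit 426125) (nat_lit 2) (.e (nat_lit 196630) (nat_lit 9) (.e (nat_lit 1669) (nat_lit 116) .nil))))) (.g (nat_lit 0) (.e (nat_lit 233096) (nat_lit 0) .nil) .nil))) 
(.lf (nat_lit 526005) (.g (nat_lit 2561) (.e (nat_lit 213030) (nat_lit 11) (.e (nat_lit 24625) (nat_lit 9) (.e (nat_lit 336443) (nat_lit 32) (.e (nat_lit 466971) (nat_lit 21) (.e (nat_lit 164325) (nat_lit 230) (.e (nat_lit 163882) (nat_lit 4) .nil)))))) (.g (nat_lit 1) (.e (nat_lit 233982) (nat_lit 0) .nil) .nil)))) (.nd (nat_lit 9) 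
(.lf (nat_lit 525749) (.g (nat_lit 682) (.e (nat_lit 220928) (nat_lit 6) (.e (nat_lit 81943) (nat_lit 20) (.e (nat_lit 2005) (nat_lit 138) (.e (nat_lit 671764) (nat_lit 6) (.e (nat_lit 89856) (nat_lit 4) .nil))))) (.g (nat_lit 0) (.e (nat_lit 233642) (nat_lit 0) .nil) .nil))) 
(.lf (nat_lit 526261) (.g (nat_lit 2887) (.e (nat_lit 213032) (nat_lit 11) (.e (nat_lit 24604) (nat_lit 2) (.e (nat_lit 90176) (nat_lit 15) (.e (nat_lit 188439) (nat_lit 20) (.e (nat_lit 7936) (nat_lit 200) (.e (nat_lit 557065) (nat_lit 9) (.e (nat_lit 2686) (nat_lit 169) .nil))))))) (.g (nat_lit 1) (.e (nat_lit 234417) (nat_lit 0) .nil) .nil)))))) 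
(.nd (nat_lit 7) (.nd (nat_lit 8) (.nd (nat_lit 9) 
(.lf (nat_lit 525429) (.g (nat_lit 1743) (.e (nat_lit 204883) (nat_lit 33) (.e (nat_lit 401458) (nat_lit 13) (.e (nat_lit 483350) (nat_lit 17) (.e (nat_lit 2375) (nat_lit 154) .nil)))) (.g (nat_lit 0) (.e (nat_lit 232911) (nat_lit 0) .nil) .nil))) 
(.lf (nat_lit 525941) (.g (nat_lit 2413) (.e (nat_lit 213030) (nat_lit 11) (.e (nat_lit 24617) (nat_lit 7) (.e (nat_lit 319534) (nat_lit 16) (.e (nat_lit 286749) (nat_lit 9) (.e (nat_lit 335997) (nat_lit 1) (.e (nat_lit 57844) (nat_lit 252) (.e (nat_lit 65280) (nat_lit 65) .nil))))))) (.g (nat_lit 1) (.e (nat_lit 233916) (nat_lit 0) .nil) .nil)))) (.nd (nat_lit 9) 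
(.lf (nat_lit 525685) (.g (nat_lit 1284) (.e (nat_lit 220928) (nat_lit 4) (.e (nat_lit 65630) (nat_lit 14) (.e (nat_lit 401456) (nat_lit 13) (.e (nat_lit 483391) (nat_lit 23) .nil)))) (.g (nat_lit 0) (.e (nat_lit 233572) (nat_lit 0) .nil) .nil))) 
(.lf (nat_lit 526197) (.g (nat_lit 655) (.e (nat_lit 213031) (nat_lit 11) (.e (nat_lit 24607) (nat_lit 3) (.e (nat_lit 98363) (nat_lit 26) .nil))) (.g (nat_lit 0) (.e (nat_lit 234287) (nat_lit 0) .nil) .nil))))) (.nd (nat_lit 8) (.nd (nat_lit 9) 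
(.lf (nat_lit 525557) (.g (nat_lit 1514) (.e (nat_lit 204885) (nat_lit 33) (.e (nat_lit 401448) (nat_lit 10) (.e (nat_lit 434231) (nat_lit 23) (.e (nat_lit 532568) (nat_lit 16) .nil)))) (.g (nat_lit 0) (.e (nat_lit 233311) (nat_lit 0) .nil) .nil))) 
(.lf (nat_lit 526069) (.g (nat_lit 2472) (.e (nat_lit 213030) (nat_lit 11) (.e (nat_lit 24629) (nat_lit 9) (.e (nat_lit 336443) (nat_lit 32) (.e (nat_lit 466971) (nat_lit 21) (.e (nat_lit 164325) (nat_lit 230) (.e (nat_lit 163879) (nat_lit 4) .nil)))))) (.g (nat_lit 1) (.e (nat_lit 234047) (nat_lit 0) .nil) .nil)))) (.nd (nat_lit 9) 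
(.lf (nat_lit 525813) (.g (nat_lit 3404) (.e (nat_lit 220928) (nat_lit 9) (.e (nat_lit 226) (nat_lit 21) (.e (nat_lit 336456) (nat_lit 34) (.e (nat_lit 483372) (nat_lit 21) (.e (nat_lit 319504) (nat_lit 10) .nil))))) (.g (nat_lit 0) (.e (nat_lit 233768) (nat_lit 0) .nil) .nil))) 
(.lf (nat_lit 526325) (.g (nat_lit 2526) (.e (nat_lit 213032) (nat_lit 11) (.e (nat_lit 24608) (nat_lit 3) (.e (nat_lit 98372) (nat_lit 29) (.e (nat_lit 450584) (nat_lit 9) (.e (nat_lit 565275) (nat_lit 9) (.e (nat_lit 2695) (nat_lit 169) .nil)))))) (.g (nat_lit 1) (.e (nat_lit 234505) (nat_lit 0) .nil) .nil))))))))) 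
(.nd (nat_lit 4) (.nd (nat_lit 5) (.nd (nat_lit 6) (.nd (nat_lit 7) (.nd (nat_lit 8) 
(.nd (nat_lit 9) 
(.lf (nat_lit 525325) (.g (nat_lit 2865) (.e (nat_lit 204882) (nat_lit 32) (.e (nat_lit 385068) (nat_lit 26) (.e (nat_lit 532529) (nat_lit 9) (.e (nat_lit 336316) (nat_lit 17) (.e (nat_lit 196664) (nat_lit 13) .nil))))) (.g (nat_lit 0) (.e (nat_lit 232746) (nat_lit 0) .nil) .nil))) 
(.lf (nat_lit 525837) (.g (nat_lit 672) (.e (nat_lit 213030) (nat_lit 11) (.e (nat_lit 24607) (nat_lit 3) (.e (nat_lit 98363) (nat_lit 26) .nil))) (.g (nat_lit 0) (.e (nat_lit 233797) (nat_lit 0) .nil) .nil)))) (.nd (nat_lit 9) 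
(.lf (nat_lit 525581) (.g (nat_lit 2589) (.e (nat_lit 204885) (nat_lit 33) (.e (nat_lit 401448) (nat_lit 10) (.e (nat_lit 434232) (nat_lit 23) (.e (nat_lit 532563) (nat_lit 15) (.e (nat_lit 385106) (nat_lit 50) (.e (nat_lit 794368) (nat_lit 3) .nil)))))) (.g (nat_lit 1) (.e (nat_lit 233335) (nat_lit 0) .nil) .nil))) 
(.lf (nat_lit 526093) (.g (nat_lit 1343) (.e (nat_lit 213030) (nat_lit 11) (.e (nat_lit 24631) (nat_lit 9) (.e (nat_lit 336389) (nat_lit 27) (.e (nat_lit 426308) (nat_lit 12) .nil)))) (.g (nat_lit 0) (.e (nat_lit 234089) (nat_lit 0) .nil) .nil))))) (.nd (nat_lit 8) (.nd (nat_lit 9) 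
(.lf (nat_lit 525453) (.g (nat_lit 1350) (.e (nat_lit 204884) (nat_lit 33) (.e (nat_lit 401448) (nat_lit 10) (.e (nat_lit 434200) (nat_lit 18) (.e (nat_lit 4186) (nat_lit 251) .nil)))) (.g (nat_lit 0) (.e (nat_lit 232964) (nat_lit 0) .nil) .nil))) 
(.lf (nat_lit 525965) (.g (nat_lit 2694) (.e (nat_lit 213030) (nat_lit 11) (.e (nat_lit 24617) (nat_lit 7) (.e (nat_lit 319534) (nat_lit 16) (.e (nat_lit 286756) (nat_lit 10) (.e (nat_lit 344168) (nat_lit 40) (.e (nat_lit 671773) (nat_lit 9) (.e (nat_lit 2699) (nat_lit 169) .nil))))))) (.g (nat_lit 1) (.e (nat_lit 233940) (nat_lit 0) .nil) .nil)))) (.nd (nat_lit 9) 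
(.lf (nat_lit 525709) (.g (nat_lit 2020) (.e (nat_lit 220928) (nat_lit 5) (.e (nat_lit 73782) (nat_lit 32) (.e (nat_lit 2856) (nat_lit 184) (.e (nat_lit 426542) (nat_lit 29) (.e (nat_lit 360192) (nat_lit 4) .nil))))) (.g (nat_lit 0) (.e (nat_lit 233596) (nat_lit 0) .nil) .nil))) 
(.lf (nat_lit 526221) (.g (nat_lit 2153) (.e (nat_lit 213031) (nat_lit 11) (.e (nat_lit 24655) (nat_lit 13) (.e (nat_lit 393271) (nat_lit 23) (.e (nat_lit 426112) (nat_lit 1) .nil)))) (.g (nat_lit 0) (.e (nat_lit 234311) (nat_lit 0) .nil) .nil)))))) (.nd (nat_lit 7) (.nd (nat_lit 8) (.nd (nat_lit 9) 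
(.lf (nat_lit 525389) (.g (nat_lit 921) (.e (nat_lit 204883) (nat_lit 33) (.e (nat_lit 401451) (nat_lit 12) (.e (nat_lit 475184) (nat_lit 29) .nil))) (.g (nat_lit 0) (.e (nat_lit 232836) (nat_lit 0) .nil) .nil))) 
(.lf (nat_lit 525901) (.g (nat_lit 1987) (.e (nat_lit 213030) (nat_lit 11) (.e (nat_lit 24617) (nat_lit 7) (.e (nat_lit 319532) (nat_lit 16) (.e (nat_lit 286743) (nat_lit 9) (.e (nat_lit 336337) (nat_lit 20) (.e (nat_lit 221217) (nat_lit 24) .nil)))))) (.g (nat_lit 1) (.e (nat_lit 233875) (nat_lit 0) .nil) .nil)))) (.nd (nat_lit 9) 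
(.lf (nat_lit 525645) (.g (nat_lit 2974) (.e (nat_lit 204885) (nat_lit 33) (.e (nat_lit 401460) (nat_lit 14) (.e (nat_lit 491536) (nat_lit 2) (.e (nat_lit 90176) (nat_lit 15) (.e (nat_lit 188450) (nat_lit 23) .nil))))) (.g (nat_lit 1) (.e (nat_lit 233520) (nat_lit 0) .nil) .nil))) 
(.lf (nat_lit 526157) (.g (nat_lit 1164) (.e (nat_lit 213030) (nat_lit 11) (.e (nat_lit 24659) (nat_lit 13) (.e (nat_lit 393292) (nat_lit 26) (.e (nat_lit 475212) (nat_lit 42) (.e (nat_lit 728832) (nat_lit 4) .nil))))) (.g (nat_lit 0) (.e (nat_lit 234155) (nat_lit 0) .nil) .nil))))) (.nd (nat_lit 8) (.nd (nat_lit 9) 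
(.lf (nat_lit 525517) (.g (nat_lit 2747) (.e (nat_lit 204885) (nat_lit 33) (.e (nat_lit 401446) (nat_lit 10) (.e (nat_lit 434231) (nat_lit 23) (.e (nat_lit 532522) (nat_lit 7) (.e (nat_lit 319538) (nat_lit 19) (.e (nat_lit 311315) (nat_lit 3) .nil)))))) (.g (nat_lit 1) (.e (nat_lit 233152) (nat_lit 0) .nil) .nil))) 
(.lf (nat_lit 526029) (.g (nat_lit 2802) (.e (nat_lit 213030) (nat_lit 11) (.e (nat_lit 24627) (nat_lit 9) (.e (nat_lit 336443) (nat_lit 32) (.e (nat_lit 466969) (nat_lit 21) (.e (nat_lit 164325) (nat_lit 230) (.e (nat_lit 163879) (nat_lit 4) .nil)))))) (.g (nat_lit 1) (.e (nat_lit 234006) (nat_lit 0) .nil) .nil)))) (.nd (nat_lit 9) 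
(.lf (nat_lit 525773) (.g (nat_lit 843) (.e (nat_lit 220928) (nat_lit 6) (.e (nat_lit 81959) (nat_lit 24) (.e (nat_lit 123185) (nat_lit 264) (.e (nat_lit 1223) (nat_lit 90) .nil)))) (.g (nat_lit 0) (.e (nat_lit 233666) (nat_lit 0) .nil) .nil))) 
(.lf (nat_lit 526285) (.g (nat_lit 3070) (.e (nat_lit 213032) (nat_lit 11) (.e (nat_lit 24607) (nat_lit 3) (.e (nat_lit 98365) (nat_lit 26) (.e (nat_lit 426306) (nat_lit 12) (.e (nat_lit 475177) (nat_lit 24) (.e (nat_lit 516125) (nat_lit 2) .nil)))))) (.g (nat_lit 1) (.e (nat_lit 234452) (nat_lit 0) .nil) .nil))))))) (.nd (nat_lit 6) (.nd (nat_lit 7) (.nd (nat_lit 8) (.nd (nat_lit 9) 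
(.lf (nat_lit 525357) (.g (nat_lit 3363) (.e (nat_lit 204882) (nat_lit 32) (.e (nat_lit 385068) (nat_lit 26) (.e (nat_lit 532563) (nat_lit 15) (.e (nat_lit 385068) (nat_lit 26) (.e (nat_lit 532534) (nat_lit 9) (.e (nat_lit 336324) (nat_lit 18) .nil)))))) (.g (nat_lit 1) (.e (nat_lit 232782) (nat_lit 0) .nil) .nil))) 
(.lf (nat_lit 525869) (.g (nat_lit 2051) (.e (nat_lit 213030) (nat_lit 11) (.e (nat_lit 24609) (nat_lit 3) (.e (nat_lit 98369) (nat_lit 28) (.e (nat_lit 442374) (nat_lit 0) (.e (nat_lit 1800) (nat_lit 119) (.e (nat_lit 516127) (nat_lit 2) .nil)))))) (.g (nat_lit 1) (.e (nat_lit 233832) (nat_lit 0) .nil) .nil)))) (.nd (nat_lit 9) 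
(.lf (nat_lit 525613) (.g (nat_lit 2329) (.e (nat_lit 204885) (nat_lit 33) (.e (nat_lit 401448) (nat_lit 10) (.e (nat_lit 434246) (nat_lit 28) (.e (nat_lit 573471) (nat_lit 11) (.e (nat_lit 16433) (nat_lit 9) (.e (nat_lit 433920) (nat_lit 3) .nil)))))) (.g (nat_lit 1) (.e (nat_lit 233430) (nat_lit 0) .nil) .nil))) 
(.lf (nat_lit 526125) (.g (nat_lit 2973) (.e (nat_lit 213030) (nat_lit 11) (.e (nat_lit 24657) (nat_lit 13) (.e (nat_lit 393271) (nat_lit 23) (.e (nat_lit 426112) (nat_lit 1) (.e (nat_lit 164327) (nat_lit 230) (.e (nat_lit 163881) (nat_lit 4) .nil)))))) (.g (nat_lit 1) (.e (nat_lit 234123) (nat_lit 0) .nil) .nil))))) (.nd (nat_lit 8) (.nd (nat_lit 9) 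
(.lf (nat_lit 525485) (.g (nat_lit 2013) (.e (nat_lit 204884) (nat_lit 33) (.e (nat_lit 401459) (nat_lit 13) (.e (nat_lit 483344) (nat_lit 17) (.e (nat_lit 2368) (nat_lit 153) .nil)))) (.g (nat_lit 0) (.e (nat_lit 233081) (nat_lit 0) .nil) .nil))) 
(.lf (nat_lit 525997) (.g (nat_lit 1988) (.e (nat_lit 213030) (nat_lit 11) (.e (nat_lit 24625) (nat_lit 9) (.e (nat_lit 336426) (nat_lit 29) (.e (nat_lit 442421) (nat_lit 21) (.e (nat_lit 164326) (nat_lit 230) .nil))))) (.g (nat_lit 0) (.e (nat_lit 233973) (nat_lit 0) .nil) .nil)))) (.nd (nat_lit 9) 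
(.lf (nat_lit 525741) (.g (nat_lit 962) (.e (nat_lit 220928) (nat_lit 6) (.e (nat_lit 81935) (nat_lit 20) (.e (nat_lit 1999) (nat_lit 137) (.e (nat_lit 663569) (nat_lit 6) (.e (nat_lit 89856) (nat_lit 4) .nil))))) (.g (nat_lit 0) (.e (nat_lit 233634) (nat_lit 0) .nil) .nil))) 
(.lf (nat_lit 526253) (.g (nat_lit 2519) (.e (nat_lit 213032) (nat_lit 11) (.e (nat_lit 24604) (nat_lit 2) (.e (nat_lit 90170) (nat_lit 13) (.e (nat_lit 172106) (nat_lit 10) (.e (nat_lit 434241) (nat_lit 27) .nil))))) (.g (nat_lit 0) (.e (nat_lit 234402) (nat_lit 0) .nil) .nil)))))) (.nd (nat_lit 7) (.nd (nat_lit 8) (.nd (nat_lit 9) 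
(.lf (nat_lit 525421) (.g (nat_lit 2066) (.e (nat_lit 204883) (nat_lit 33) (.e (nat_lit 401457) (nat_lit 13) (.e (nat_lit 483346) (nat_lit 17) (.e (nat_lit 2368) (nat_lit 153) .nil)))) (.g (nat_lit 0) (.e (nat_lit 232896) (nat_lit 0) .nil) .nil))) 
(.lf (nat_lit 525933) (.g (nat_lit 1286) (.e (nat_lit 213030) (nat_lit 11) (.e (nat_lit 24617) (nat_lit 7) (.e (nat_lit 319533) (nat_lit 16) (.e (nat_lit 286758) (nat_lit 12) .nil)))) (.g (nat_lit 0) (.e (nat_lit 233908) (nat_lit 0) .nil) .nil)))) (.nd (nat_lit 9) 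
(.lf (nat_lit 525677) (.g (nat_lit 2090) (.e (nat_lit 220928) (nat_lit 4) (.e (nat_lit 65630) (nat_lit 14) (.e (nat_lit 401437) (nat_lit 9) (.e (nat_lit 426540) (nat_lit 29) (.e (nat_lit 360192) (nat_lit 4) .nil))))) (.g (nat_lit 0) (.e (nat_lit 233564) (nat_lit 0) .nil) .nil))) 
(.lf (nat_lit 526189) (.g (nat_lit 1954) (.e (nat_lit 213030) (nat_lit 11) (.e (nat_lit 24660) (nat_lit 13) (.e (nat_lit 393291) (nat_lit 26) (.e (nat_lit 475214) (nat_lit 42) (.e (nat_lit 728832) (nat_lit 4) .nil))))) (.g (nat_lit 1) (.e (nat_lit 234192) (nat_lit 0) .nil) .nil))))) (.nd (nat_lit 8) (.nd (nat_lit 9) 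
(.lf (nat_lit 525549) (.g (nat_lit 3164) (.e (nat_lit 204885) (nat_lit 33) (.e (nat_lit 401448) (nat_lit 10) (.e (nat_lit 434231) (nat_lit 23) (.e (nat_lit 532522) (nat_lit 7) (.e (nat_lit 319537) (nat_lit 19) (.e (nat_lit 311315) (nat_lit 3) .nil)))))) (.g (nat_lit 1) (.e (nat_lit 233303) (nat_lit 0) .nil) .nil))) 
(.lf (nat_lit 526061) (.g (nat_lit 2076) (.e (nat_lit 213030) (nat_lit 11) (.e (nat_lit 24629) (nat_lit 9) (.e (nat_lit 336432) (nat_lit 30) (.e (nat_lit 450565) (nat_lit 0) (.e (nat_lit 5224) (nat_lit 296) (.e (nat_lit 163879) (nat_lit 4) .nil)))))) (.g (nat_lit 1) (.e (nat_lit 234038) (nat_lit 0) .nil) .nil)))) (.nd (nat_lit 9) 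
(.lf (nat_lit 525805) (.g (nat_lit 2889) (.e (nat_lit 213019) (nat_lit 9) (.e (nat_lit 2610) (nat_lit 163) (.e (nat_lit 164347) (nat_lit 240) (.e (nat_lit 2638) (nat_lit 165) (.e (nat_lit 188160) (nat_lit 38) (.e (nat_lit 122936) (nat_lit 23) (.e (nat_lit 516131) (nat_lit 3) (.e (nat_lit 221218) (nat_lit 24) .nil)))))))) (.g (nat_lit 1) (.e (nat_lit 233753) (nat_lit 0) .nil) .nil))) 
(.lf (nat_lit 526317) (.g (nat_lit 1260) (.e (nat_lit 213032) (nat_lit 11) (.e (nat_lit 24608) (nat_lit 3) (.e (nat_lit 98365) (nat_lit 26) (.e (nat_lit 426307) (nat_lit 12) .nil)))) (.g (nat_lit 0) (.e (nat_lit 234486) (nat_lit 0) .nil) .nil)))))))) (.nd (nat_lit 5) (.nd (nat_lit 6) (.nd (nat_lit 7) (.nd (nat_lit 8) (.nd (nat_lit 9) 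
(.lf (nat_lit 525341) (.g (nat_lit 2769) (.e (nat_lit 204882) (nat_lit 32) (.e (nat_lit 385068) (nat_lit 26) (.e (nat_lit 532530) (nat_lit 9) (.e (nat_lit 336326) (nat_lit 18) (.e (nat_lit 204854) (nat_lit 26) (.e (nat_lit 343808) (nat_lit 18) .nil)))))) (.g (nat_lit 1) (.e (nat_lit 232762) (nat_lit 0) .nil) .nil))) 
(.lf (nat_lit 525853) (.g (nat_lit 2211) (.e (nat_lit 213030) (nat_lit 11) (.e (nat_lit 24608) (nat_lit 3) (.e (nat_lit 98365) (nat_lit 26) (.e (nat_lit 426306) (nat_lit 12) (.e (nat_lit 475175) (nat_lit 24) (.e (nat_lit 516124) (nat_lit 2) .nil)))))) (.g (nat_lit 1) (.e (nat_lit 233814) (nat_lit 0) .nil) .nil)))) (.nd (nat_lit 9) 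
(.lf (nat_lit 525597) (.g (nat_lit 2295) (.e (nat_lit 204885) (nat_lit 33) (.e (nat_lit 401448) (nat_lit 10) (.e (nat_lit 434244) (nat_lit 28) (.e (nat_lit 573469) (nat_lit 11) (.e (nat_lit 16436) (nat_lit 9) (.e (nat_lit 426131) (nat_lit 3) .nil)))))) (.g (nat_lit 1) (.e (nat_lit 233391) (nat_lit 0) .nil) .nil))) 
(.lf (nat_lit 526109) (.g (nat_lit 1431) (.e (nat_lit 213030) (nat_lit 11) (.e (nat_lit 24655) (nat_lit 13) (.e (nat_lit 393296) (nat_lit 26) (.e (nat_lit 475205) (nat_lit 40) .nil)))) (.g (nat_lit 0) (.e (nat_lit 234107) (nat_lit 0) .nil) .nil))))) (.nd (nat_lit 8) (.nd (nat_lit 9) 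
(.lf (nat_lit 525469) (.g (nat_lit 4416) (.e (nat_lit 204884) (nat_lit 33) (.e (nat_lit 401451) (nat_lit 12) (.e (nat_lit 475185) (nat_lit 29) (.e (nat_lit 557108) (nat_lit 15) (.e (nat_lit 188452) (nat_lit 23) .nil))))) (.g (nat_lit 0) (.e (nat_lit 233051) (nat_lit 0) .nil) .nil))) 
(.lf (nat_lit 525981) (.g (nat_lit 1402) (.e (nat_lit 213030) (nat_lit 11) (.e (nat_lit 24617) (nat_lit 7) (.e (nat_lit 319534) (nat_lit 16) (.e (nat_lit 286759) (nat_lit 12) (.e (nat_lit 385094) (nat_lit 49) .nil))))) (.g (nat_lit 0) (.e (nat_lit 233956) (nat_lit 0) .nil) .nil)))) (.nd (nat_lit 9) 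
(.lf (nat_lit 525725) (.g (nat_lit 360) (.e (nat_lit 220928) (nat_lit 6) (.e (nat_lit 81922) (nat_lit 0) (.e (nat_lit 3630) (nat_lit 227) (.e (nat_lit 778326) (nat_lit 6) (.e (nat_lit 89856) (nat_lit 4) .nil))))) (.g (nat_lit 0) (.e (nat_lit 233612) (nat_lit 0) .nil) .nil))) 
(.lf (nat_lit 526237) (.g (nat_lit 1237) (.e (nat_lit 213031) (nat_lit 11) (.e (nat_lit 24657) (nat_lit 13) (.e (nat_lit 393294) (nat_lit 26) (.e (nat_lit 475214) (nat_lit 42) .nil)))) (.g (nat_lit 0) (.e (nat_lit 234329) (nat_lit 0) .nil) .nil)))))) (.nd (nat_lit 7) (.nd (nat_lit 8) (.nd (nat_lit 9) 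
(.lf (nat_lit 525405) (.g (nat_lit 3958) (.e (nat_lit 204883) (nat_lit 33) (.e (nat_lit 401454) (nat_lit 12) (.e (nat_lit 475183) (nat_lit 29) (.e (nat_lit 557101) (nat_lit 13) (.e (nat_lit 172097) (nat_lit 9) (.e (nat_lit 426140) (nat_lit 3) .nil)))))) (.g (nat_lit 1) (.e (nat_lit 232873) (nat_lit 0) .nil) .nil))) 
(.lf (nat_lit 525917) (.g (nat_lit 3214) (.e (nat_lit 213030) (nat_lit 11) (.e (nat_lit 24617) (nat_lit 7) (.e (nat_lit 319533) (nat_lit 16) (.e (nat_lit 286753) (nat_lit 10) (.e (nat_lit 344168) (nat_lit 40) (.e (nat_lit 671771) (nat_lit 9) (.e (nat_lit 2700) (nat_lit 169) .nil))))))) (.g (nat_lit 1) (.e (nat_lit 233892) (nat_lit 0) .nil) .nil)))) (.nd (nat_lit 9) 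
(.lf (nat_lit 525661) (.g (nat_lit 3661) (.e (nat_lit 220928) (nat_lit 2) (.e (nat_lit 16416) (nat_lit 3) (.e (nat_lit 204884) (nat_lit 33) (.e (nat_lit 401454) (nat_lit 12) (.e (nat_lit 475178) (nat_lit 24) .nil))))) (.g (nat_lit 0) (.e (nat_lit 233538) (nat_lit 0) .nil) .nil))) 
(.lf (nat_lit 526173) (.g (nat_lit 1160) (.e (nat_lit 213030) (nat_lit 11) (.e (nat_lit 24660) (nat_lit 13) (.e (nat_lit 393279) (nat_lit 23) (.e (nat_lit 426447) (nat_lit 20) (.e (nat_lit 122624) (nat_lit 4) .nil))))) (.g (nat_lit 1) (.e (nat_lit 234171) (nat_lit 0) .nil) .nil))))) (.nd (nat_lit 8) (.nd (nat_lit 9) 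
(.lf (nat_lit 525533) (.g (nat_lit 2312) (.e (nat_lit 204885) (nat_lit 33) (.e (nat_lit 401448) (nat_lit 10) (.e (nat_lit 434230) (nat_lit 23) (.e (nat_lit 532569) (nat_lit 16) (.e (nat_lit 401440) (nat_lit 9) .nil))))) (.g (nat_lit 0) (.e (nat_lit 233287) (nat_lit 0) .nil) .nil))) 
(.lf (nat_lit 526045) (.g (nat_lit 1811) (.e (nat_lit 213030) (nat_lit 11) (.e (nat_lit 24627) (nat_lit 9) (.e (nat_lit 336443) (nat_lit 32) (.e (nat_lit 466971) (nat_lit 21) (.e (nat_lit 164329) (nat_lit 230) .nil))))) (.g (nat_lit 0) (.e (nat_lit 234022) (nat_lit 0) .nil) .nil)))) (.nd (nat_lit 9) 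
(.lf (nat_lit 525789) (.g (nat_lit 2253) (.e (nat_lit 213013) (nat_lit 9) (.e (nat_lit 2681) (nat_lit 168) (.e (nat_lit 204830) (nat_lit 18) (.e (nat_lit 57852) (nat_lit 252) (.e (nat_lit 57373) (nat_lit 2) .nil))))) (.g (nat_lit 0) (.e (nat_lit 233708) (nat_lit 0) .nil) .nil))) 
(.lf (nat_lit 526301) (.g (nat_lit 2134) (.e (nat_lit 213032) (nat_lit 11) (.e (nat_lit 24608) (nat_lit 3) (.e (nat_lit 98358) (nat_lit 26) (.e (nat_lit 426320) (nat_lit 12) .nil)))) (.g (nat_lit 0) (.e (nat_lit 234469) (nat_lit 0) .nil) .nil))))))) (.nd (nat_lit 6) (.nd (nat_lit 7) (.nd (nat_lit 8) (.nd (nat_lit 9) 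
(.lf (nat_lit 525373) (.g (nat_lit 1494) (.e (nat_lit 212736) (nat_lit 32) (.e (nat_lit 385093) (nat_lit 49) (.e (nat_lit 778318) (nat_lit 3) (.e (nat_lit 57474) (nat_lit 28) .nil)))) (.g (nat_lit 0) (.e (nat_lit 232805) (nat_lit 0) .nil) .nil))) 
(.lf (nat_lit 525885) (.g (nat_lit 2009) (.e (nat_lit 213030) (nat_lit 11) (.e (nat_lit 24617) (nat_lit 7) (.e (nat_lit 319530) (nat_lit 16) (.e (nat_lit 286743) (nat_lit 9) (.e (nat_lit 336337) (nat_lit 20) (.e (nat_lit 221217) (nat_lit 24) .nil)))))) (.g (nat_lit 1) (.e (nat_lit 233859) (nat_lit 0) .nil) .nil)))) (.nd (nat_lit 9) 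
(.lf (nat_lit 525629) (.g (nat_lit 2175) (.e (nat_lit 204885) (nat_lit 33) (.e (nat_lit 401451) (nat_lit 12) (.e (nat_lit 475176) (nat_lit 24) .nil))) (.g (nat_lit 0) (.e (nat_lit 233484) (nat_lit 0) .nil) .nil))) 
(.lf (nat_lit 526141) (.g (nat_lit 1954) (.e (nat_lit 213030) (nat_lit 11) (.e (nat_lit 24659) (nat_lit 13) (.e (nat_lit 393271) (nat_lit 23) (.e (nat_lit 426112) (nat_lit 1) (.e (nat_lit 164326) (nat_lit 230) (.e (nat_lit 163879) (nat_lit 4) .nil)))))) (.g (nat_lit 1) (.e (nat_lit 234139) (nat_lit 0) .nil) .nil))))) (.nd (nat_lit 8) (.nd (nat_lit 9) 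
(.lf (nat_lit 525501) (.g (nat_lit 2099) (.e (nat_lit 204885) (nat_lit 33) (.e (nat_lit 401434) (nat_lit 9) (.e (nat_lit 426125) (nat_lit 2) (.e (nat_lit 196661) (nat_lit 12) (.e (nat_lit 57749) (nat_lit 201) .nil))))) (.g (nat_lit 0) (.e (nat_lit 233108) (nat_lit 0) .nil) .nil))) 
(.lf (nat_lit 526013) (.g (nat_lit 2550) (.e (nat_lit 213030) (nat_lit 11) (.e (nat_lit 24626) (nat_lit 9) (.e (nat_lit 336443) (nat_lit 32) (.e (nat_lit 466969) (nat_lit 21) (.e (nat_lit 164322) (nat_lit 230) (.e (nat_lit 163878) (nat_lit 4) .nil)))))) (.g (nat_lit 1) (.e (nat_lit 233990) (nat_lit 0) .nil) .nil)))) (.nd (nat_lit 9) 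
(.lf (nat_lit 525757) (.g (nat_lit 1219) (.e (nat_lit 220928) (nat_lit 6) (.e (nat_lit 81957) (nat_lit 24) (.e (nat_lit 123183) (nat_lit 264) (.e (nat_lit 1296) (nat_lit 96) (.e (nat_lit 131105) (nat_lit 9) .nil))))) (.g (nat_lit 0) (.e (nat_lit 233650) (nat_lit 0) .nil) .nil))) 
(.lf (nat_lit 526269) (.g (nat_lit 1020) (.e (nat_lit 213032) (nat_lit 11) (.e (nat_lit 24604) (nat_lit 2) (.e (nat_lit 90185) (nat_lit 17) (.e (nat_lit 237605) (nat_lit 9) .nil)))) (.g (nat_lit 0) (.e (nat_lit 234436) (nat_lit 0) .nil) .nil)))))) (.nd (nat_lit 7) (.nd (nat_lit 8) (.nd (nat_lit 9) 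
(.lf (nat_lit 525437) (.g (nat_lit 1544) (.e (nat_lit 204883) (nat_lit 33) (.e (nat_lit 401459) (nat_lit 13) (.e (nat_lit 483344) (nat_lit 17) (.e (nat_lit 2363) (nat_lit 153) .nil)))) (.g (nat_lit 0) (.e (nat_lit 232922) (nat_lit 0) .nil) .nil))) 
(.lf (nat_lit 525949) (.g (nat_lit 962) (.e (nat_lit 213030) (nat_lit 11) (.e (nat_lit 24617) (nat_lit 7) (.e (nat_lit 319534) (nat_lit 16) (.e (nat_lit 286756) (nat_lit 10) .nil)))) (.g (nat_lit 0) (.e (nat_lit 233924) (nat_lit 0) .nil) .nil)))) (.nd (nat_lit 9) 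
(.lf (nat_lit 525693) (.g (nat_lit 1320) (.e (nat_lit 220928) (nat_lit 5) (.e (nat_lit 73781) (nat_lit 32) (.e (nat_lit 2856) (nat_lit 184) (.e (nat_lit 426538) (nat_lit 29) .nil)))) (.g (nat_lit 0) (.e (nat_lit 233580) (nat_lit 0) .nil) .nil))) 
(.lf (nat_lit 526205) (.g (nat_lit 1433) (.e (nat_lit 213031) (nat_lit 11) (.e (nat_lit 24608) (nat_lit 3) (.e (nat_lit 98365) (nat_lit 26) (.e (nat_lit 426188) (nat_lit 9) .nil)))) (.g (nat_lit 0) (.e (nat_lit 234295) (nat_lit 0) .nil) .nil))))) (.nd (nat_lit 8) (.nd (nat_lit 9) 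
(.lf (nat_lit 525565) (.g (nat_lit 3583) (.e (nat_lit 204885) (nat_lit 33) (.e (nat_lit 401448) (nat_lit 10) (.e (nat_lit 434231) (nat_lit 23) (.e (nat_lit 532569) (nat_lit 16) (.e (nat_lit 401440) (nat_lit 9) (.e (nat_lit 426135) (nat_lit 3) .nil)))))) (.g (nat_lit 1) (.e (nat_lit 233319) (nat_lit 0) .nil) .nil))) 
(.lf (nat_lit 526077) (.g (nat_lit 2993) (.e (nat_lit 213030) (nat_lit 11) (.e (nat_lit 24630) (nat_lit 9) (.e (nat_lit 336443) (nat_lit 32) (.e (nat_lit 466969) (nat_lit 21) (.e (nat_lit 164325) (nat_lit 230) (.e (nat_lit 163881) (nat_lit 4) .nil)))))) (.g (nat_lit 1) (.e (nat_lit 234072) (nat_lit 0) .nil) .nil)))) (.nd (nat_lit 9) 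
(.lf (nat_lit 525821) (.g (nat_lit 1480) (.e (nat_lit 213030) (nat_lit 11) (.e (nat_lit 24604) (nat_lit 2) (.e (nat_lit 90176) (nat_lit 15) (.e (nat_lit 188418) (nat_lit 0) (.e (nat_lit 1800) (nat_lit 119) .nil))))) (.g (nat_lit 0) (.e (nat_lit 233781) (nat_lit 0) .nil) .nil))) 
(.lf (nat_lit 526333) (.g (nat_lit 3183) (.e (nat_lit 213032) (nat_lit 11) (.e (nat_lit 24608) (nat_lit 3) (.e (nat_lit 98381) (nat_lit 31) (.e (nat_lit 466967) (nat_lit 20) (.e (nat_lit 7936) (nat_lit 200) (.e (nat_lit 557065) (nat_lit 9) (.e (nat_lit 2700) (nat_lit 169) .nil))))))) (.g (nat_lit 1) (.e (nat_lit 234528) (nat_lit 0) .nil) .nil))))))))))) 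
(.nd (nat_lit 2) (.nd (nat_lit 3) (.nd (nat_lit 4) (.nd (nat_lit 5) (.nd (nat_lit 6) 
(.nd (nat_lit 7) (.nd (nat_lit 8) (.nd (nat_lit 9) 
(.lf (nat_lit 525315) (.g (nat_lit 3640) (.e (nat_lit 204882) (nat_lit 32) (.e (nat_lit 385068) (nat_lit 26) (.e (nat_lit 532499) (nat_lit 1) (.e (nat_lit 57847) (nat_lit 252) (.e (nat_lit 57345) (nat_lit 0) .nil))))) (.g (nat_lit 0) (.e (nat_lit 232734) (nat_lit 0) .nil) .nil))) 
(.lf (nat_lit 525827) (.g (nat_lit 2578) (.e (nat_lit 213030) (nat_lit 11) (.e (nat_lit 24604) (nat_lit 2) (.e (nat_lit 90185) (nat_lit 17) (.e (nat_lit 237619) (nat_lit 12) (.e (nat_lit 475177) (nat_lit 24) (.e (nat_lit 516125) (nat_lit 2) .nil)))))) (.g (nat_lit 1) (.e (nat_lit 233787) (nat_lit 0) .nil) .nil)))) (.nd (nat_lit 9) 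
(.lf (nat_lit 525571) (.g (nat_lit 2236) (.e (nat_lit 204885) (nat_lit 33) (.e (nat_lit 401448) (nat_lit 10) (.e (nat_lit 434232) (nat_lit 23) (.e (nat_lit 532522) (nat_lit 7) (.e (nat_lit 319537) (nat_lit 19) (.e (nat_lit 311315) (nat_lit 3) .nil)))))) (.g (nat_lit 1) (.e (nat_lit 233325) (nat_lit 0) .nil) .nil))) 
(.lf (nat_lit 526083) (.g (nat_lit 1680) (.e (nat_lit 213030) (nat_lit 11) (.e (nat_lit 24630) (nat_lit 9) (.e (nat_lit 336443) (nat_lit 32) (.e (nat_lit 466970) (nat_lit 21) .nil)))) (.g (nat_lit 0) (.e (nat_lit 234078) (nat_lit 0) .nil) .nil))))) (.nd (nat_lit 8) (.nd (nat_lit 9) 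
(.lf (nat_lit 525443) (.g (nat_lit 1623) (.e (nat_lit 204883) (nat_lit 33) (.e (nat_lit 401459) (nat_lit 13) (.e (nat_lit 483344) (nat_lit 17) (.e (nat_lit 7936) (nat_lit 153) .nil)))) (.g (nat_lit 0) (.e (nat_lit 232928) (nat_lit 0) .nil) .nil))) 
(.lf (nat_lit 525955) (.g (nat_lit 2385) (.e (nat_lit 213030) (nat_lit 11) (.e (nat_lit 24617) (nat_lit 7) (.e (nat_lit 319534) (nat_lit 16) (.e (nat_lit 286756) (nat_lit 10) (.e (nat_lit 344153) (nat_lit 35) (.e (nat_lit 630808) (nat_lit 13) (.e (nat_lit 182) (nat_lit 13) .nil))))))) (.g (nat_lit 1) (.e (nat_lit 233930) (nat_lit 0) .nil) .nil)))) (.nd (nat_lit 9) 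
(.lf (nat_lit 525699) (.g (nat_lit 537) (.e (nat_lit 220928) (nat_lit 5) (.e (nat_lit 73781) (nat_lit 32) (.e (nat_lit 3087) (nat_lit 191) (.e (nat_lit 483391) (nat_lit 23) .nil)))) (.g (nat_lit 0) (.e (nat_lit 233586) (nat_lit 0) .nil) .nil))) 
(.lf (nat_lit 526211) (.g (nat_lit 1649) (.e (nat_lit 213031) (nat_lit 11) (.e (nat_lit 24624) (nat_lit 9) (.e (nat_lit 336443) (nat_lit 32) (.e (nat_lit 466971) (nat_lit 21) (.e (nat_lit 164327) (nat_lit 230) .nil))))) (.g (nat_lit 0) (.e (nat_lit 234301) (nat_lit 0) .nil) .nil)))))) (.nd (nat_lit 7) (.nd (nat_lit 8) (.nd (nat_lit 9) 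
(.lf (nat_lit 525379) (.g (nat_lit 2054) (.e (nat_lit 204883) (nat_lit 33) (.e (nat_lit 401434) (nat_lit 9) (.e (nat_lit 426140) (nat_lit 3) (.e (nat_lit 204883) (nat_lit 33) (.e (nat_lit 401434) (nat_lit 9) (.e (nat_lit 426140) (nat_lit 3) .nil)))))) (.g (nat_lit 1) (.e (nat_lit 232812) (nat_lit 0) .nil) .nil))) 
(.lf (nat_lit 525891) (.g (nat_lit 1765) (.e (nat_lit 213030) (nat_lit 11) (.e (nat_lit 24617) (nat_lit 7) (.e (nat_lit 319530) (nat_lit 16) (.e (nat_lit 286759) (nat_lit 12) (.e (nat_lit 385094) (nat_lit 49) .nil))))) (.g (nat_lit 0) (.e (nat_lit 233865) (nat_lit 0) .nil) .nil)))) (.nd (nat_lit 9) 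
(.lf (nat_lit 525635) (.g (nat_lit 3387) (.e (nat_lit 204885) (nat_lit 33) (.e (nat_lit 401451) (nat_lit 12) (.e (nat_lit 475184) (nat_lit 29) (.e (nat_lit 557107) (nat_lit 15) (.e (nat_lit 188450) (nat_lit 23) .nil))))) (.g (nat_lit 1) (.e (nat_lit 233492) (nat_lit 0) .nil) .nil))) 
(.lf (nat_lit 526147) (.g (nat_lit 874) (.e (nat_lit 213030) (nat_lit 11) (.e (nat_lit 24659) (nat_lit 13) (.e (nat_lit 393275) (nat_lit 23) (.e (nat_lit 426109) (nat_lit 1) (.e (nat_lit 164326) (nat_lit 230) .nil))))) (.g (nat_lit 0) (.e (nat_lit 234145) (nat_lit 0) .nil) .nil))))) (.nd (nat_lit 8) (.nd (nat_lit 9) 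
(.lf (nat_lit 525507) (.g (nat_lit 2696) (.e (nat_lit 204885) (nat_lit 33) (.e (nat_lit 401434) (nat_lit 9) (.e (nat_lit 426140) (nat_lit 3) (.e (nat_lit 204846) (nat_lit 24) (.e (nat_lit 319504) (nat_lit 10) (.e (nat_lit 5714) (nat_lit 312) (.e (nat_lit 2681) (nat_lit 168) .nil))))))) (.g (nat_lit 1) (.e (nat_lit 233123) (nat_lit 0) .nil) .nil))) 
(.lf (nat_lit 526019) (.g (nat_lit 3118) (.e (nat_lit 213030) (nat_lit 11) (.e (nat_lit 24626) (nat_lit 9) (.e (nat_lit 336443) (nat_lit 32) (.e (nat_lit 466971) (nat_lit 21) (.e (nat_lit 164322) (nat_lit 230) (.e (nat_lit 163878) (nat_lit 4) .nil)))))) (.g (nat_lit 1) (.e (nat_lit 233996) (nat_lit 0) .nil) .nil)))) (.nd (nat_lit 9) 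
(.lf (nat_lit 525763) (.g (nat_lit 622) (.e (nat_lit 220928) (nat_lit 6) (.e (nat_lit 81957) (nat_lit 24) (.e (nat_lit 123218) (nat_lit 278) .nil))) (.g (nat_lit 0) (.e (nat_lit 233656) (nat_lit 0) .nil) .nil))) 
(.lf (nat_lit 526275) (.g (nat_lit 1271) (.e (nat_lit 213032) (nat_lit 11) (.e (nat_lit 24605) (nat_lit 2) (.e (nat_lit 90169) (nat_lit 13) (.e (nat_lit 172119) (nat_lit 12) (.e (nat_lit 475177) (nat_lit 24) .nil))))) (.g (nat_lit 0) (.e (nat_lit 234442) (nat_lit 0) .nil) .nil))))))) (.nd (nat_lit 6) (.nd (nat_lit 7) (.nd (nat_lit 8) (.nd (nat_lit 9) 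
(.lf (nat_lit 525347) (.g (nat_lit 2327) (.e (nat_lit 204882) (nat_lit 32) (.e (nat_lit 385068) (nat_lit 26) (.e (nat_lit 532534) (nat_lit 9) (.e (nat_lit 336316) (nat_lit 17) (.e (nat_lit 196663) (nat_lit 13) .nil))))) (.g (nat_lit 0) (.e (nat_lit 232768) (nat_lit 0) .nil) .nil))) 
(.lf (nat_lit 525859) (.g (nat_lit 2383) (.e (nat_lit 213030) (nat_lit 11) (.e (nat_lit 24608) (nat_lit 3) (.e (nat_lit 98369) (nat_lit 28) (.e (nat_lit 442374) (nat_lit 0) (.e (nat_lit 1800) (nat_lit 119) (.e (nat_lit 516126) (nat_lit 2) .nil)))))) (.g (nat_lit 1) (.e (nat_lit 233820) (nat_lit 0) .nil) .nil)))) (.nd (nat_lit 9) 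
(.lf (nat_lit 525603) (.g (nat_lit 3136) (.e (nat_lit 204885) (nat_lit 33) (.e (nat_lit 401448) (nat_lit 10) (.e (nat_lit 434244) (nat_lit 28) (.e (nat_lit 573471) (nat_lit 11) (.e (nat_lit 16445) (nat_lit 9) (.e (nat_lit 426133) (nat_lit 3) .nil)))))) (.g (nat_lit 1) (.e (nat_lit 233397) (nat_lit 0) .nil) .nil))) 
(.lf (nat_lit 526115) (.g (nat_lit 2084) (.e (nat_lit 213030) (nat_lit 11) (.e (nat_lit 24656) (nat_lit 13) (.e (nat_lit 393281) (nat_lit 23) (.e (nat_lit 426098) (nat_lit 1) (.e (nat_lit 164325) (nat_lit 230) (.e (nat_lit 163882) (nat_lit 4) .nil)))))) (.g (nat_lit 1) (.e (nat_lit 234113) (nat_lit 0) .nil) .nil))))) (.nd (nat_lit 8) (.nd (nat_lit 9) 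
(.lf (nat_lit 525475) (.g (nat_lit 2427) (.e (nat_lit 204884) (nat_lit 33) (.e (nat_lit 401454) (nat_lit 12) (.e (nat_lit 475185) (nat_lit 29) (.e (nat_lit 557101) (nat_lit 13) (.e (nat_lit 172097) (nat_lit 9) .nil))))) (.g (nat_lit 0) (.e (nat_lit 233062) (nat_lit 0) .nil) .nil))) 
(.lf (nat_lit 525987) (.g (nat_lit 2450) (.e (nat_lit 213030) (nat_lit 11) (.e (nat_lit 24623) (nat_lit 9) (.e (nat_lit 336443) (nat_lit 32) (.e (nat_lit 466969) (nat_lit 21) (.e (nat_lit 164332) (nat_lit 230) .nil))))) (.g (nat_lit 0) (.e (nat_lit 233963) (nat_lit 0) .nil) .nil)))) (.nd (nat_lit 9) 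
(.lf (nat_lit 525731) (.g (nat_lit 750) (.e (nat_lit 220928) (nat_lit 6) (.e (nat_lit 81924) (nat_lit 0) (.e (nat_lit 3631) (nat_lit 227) (.e (nat_lit 778326) (nat_lit 6) (.e (nat_lit 89856) (nat_lit 4) .nil))))) (.g (nat_lit 0) (.e (nat_lit 233622) (nat_lit 0) .nil) .nil))) 
(.lf (nat_lit 526243) (.g (nat_lit 1406) (.e (nat_lit 213031) (nat_lit 11) (.e (nat_lit 24665) (nat_lit 14) (.e (nat_lit 401444) (nat_lit 9) .nil))) (.g (nat_lit 0) (.e (nat_lit 234346) (nat_lit 0) .nil) .nil)))))) (.nd (nat_lit 7) (.nd (nat_lit 8) (.nd (nat_lit 9) 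
(.lf (nat_lit 525411) (.g (nat_lit 2450) (.e (nat_lit 204883) (nat_lit 33) (.e (nat_lit 401454) (nat_lit 12) (.e (nat_lit 475185) (nat_lit 29) (.e (nat_lit 557098) (nat_lit 13) (.e (nat_lit 179968) (nat_lit 9) .nil))))) (.g (nat_lit 0) (.e (nat_lit 232884) (nat_lit 0) .nil) .nil))) 
(.lf (nat_lit 525923) (.g (nat_lit 2679) (.e (nat_lit 213030) (nat_lit 11) (.e (nat_lit 24617) (nat_lit 7) (.e (nat_lit 319533) (nat_lit 16) (.e (nat_lit 286753) (nat_lit 10) (.e (nat_lit 344169) (nat_lit 40) (.e (nat_lit 671769) (nat_lit 9) (.e (nat_lit 2700) (nat_lit 169) .nil))))))) (.g (nat_lit 1) (.e (nat_lit 233898) (nat_lit 0) .nil) .nil)))) (.nd (nat_lit 9) 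
(.lf (nat_lit 525667) (.g (nat_lit 1954) (.e (nat_lit 220928) (nat_lit 4) (.e (nat_lit 65628) (nat_lit 14) (.e (nat_lit 401437) (nat_lit 9) (.e (nat_lit 426540) (nat_lit 29) (.e (nat_lit 360192) (nat_lit 4) .nil))))) (.g (nat_lit 0) (.e (nat_lit 233554) (nat_lit 0) .nil) .nil))) 
(.lf (nat_lit 526179) (.g (nat_lit 2221) (.e (nat_lit 213030) (nat_lit 11) (.e (nat_lit 24660) (nat_lit 13) (.e (nat_lit 393283) (nat_lit 24) (.e (nat_lit 434209) (nat_lit 18) (.e (nat_lit 5224) (nat_lit 296) (.e (nat_lit 163879) (nat_lit 4) .nil)))))) (.g (nat_lit 1) (.e (nat_lit 234177) (nat_lit 0) .nil) .nil))))) (.nd (nat_lit 8) (.nd (nat_lit 9) 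
(.lf (nat_lit 525539) (.g (nat_lit 1998) (.e (nat_lit 204885) (nat_lit 33) (.e (nat_lit 401448) (nat_lit 10) (.e (nat_lit 434231) (nat_lit 23) (.e (nat_lit 532483) (nat_lit 0) .nil)))) (.g (nat_lit 0) (.e (nat_lit 233293) (nat_lit 0) .nil) .nil))) 
(.lf (nat_lit 526051) (.g (nat_lit 2851) (.e (nat_lit 213030) (nat_lit 11) (.e (nat_lit 24628) (nat_lit 9) (.e (nat_lit 336443) (nat_lit 32) (.e (nat_lit 466969) (nat_lit 21) (.e (nat_lit 164326) (nat_lit 230) (.e (nat_lit 163882) (nat_lit 4) .nil)))))) (.g (nat_lit 1) (.e (nat_lit 234028) (nat_lit 0) .nil) .nil)))) (.nd (nat_lit 9) 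
(.lf (nat_lit 525795) (.g (nat_lit 2191) (.e (nat_lit 213017) (nat_lit 9) (.e (nat_lit 2663) (nat_lit 167) (.e (nat_lit 196654) (nat_lit 11) (.e (nat_lit 16436) (nat_lit 9) (.e (nat_lit 426131) (nat_lit 3) .nil))))) (.g (nat_lit 0) (.e (nat_lit 233721) (nat_lit 0) .nil) .nil))) 
(.lf (nat_lit 526307) (.g (nat_lit 2690) (.e (nat_lit 213032) (nat_lit 11) (.e (nat_lit 24608) (nat_lit 3) (.e (nat_lit 98365) (nat_lit 26) (.e (nat_lit 426187) (nat_lit 9) (.e (nat_lit 426428) (nat_lit 17) (.e (nat_lit 90134) (nat_lit 9) (.e (nat_lit 7936) (nat_lit 169) .nil))))))) (.g (nat_lit 1) (.e (nat_lit 234476) (nat_lit 0) .nil) .nil)))))))) 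
(.nd (nat_lit 5) (.nd (nat_lit 6) (.nd (nat_lit 7) (.nd (nat_lit 8) (.nd (nat_lit 9) 
(.lf (nat_lit 525331) (.g (nat_lit 1646) (.e (nat_lit 204882) (nat_lit 32) (.e (nat_lit 385068) (nat_lit 26) (.e (nat_lit 532530) (nat_lit 9) (.e (nat_lit 336315) (nat_lit 17) .nil)))) (.g (nat_lit 0) (.e (nat_lit 232752) (nat_lit 0) .nil) .nil))) 
(.lf (nat_lit 525843) (.g (nat_lit 2754) (.e (nat_lit 213030) (nat_lit 11) (.e (nat_lit 24607) (nat_lit 3) (.e (nat_lit 98365) (nat_lit 26) (.e (nat_lit 426306) (nat_lit 12) (.e (nat_lit 475177) (nat_lit 24) (.e (nat_lit 516126) (nat_lit 2) .nil)))))) (.g (nat_lit 1) (.e (nat_lit 233803) (nat_lit 0) .nil) .nil)))) (.nd (nat_lit 9) 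
(.lf (nat_lit 525587) (.g (nat_lit 1659) (.e (nat_lit 204885) (nat_lit 33) (.e (nat_lit 401448) (nat_lit 10) (.e (nat_lit 434232) (nat_lit 23) (.e (nat_lit 532568) (nat_lit 16) (.e (nat_lit 401440) (nat_lit 9) .nil))))) (.g (nat_lit 0) (.e (nat_lit 233341) (nat_lit 0) .nil) .nil))) 
(.lf (nat_lit 526099) (.g (nat_lit 1342) (.e (nat_lit 213030) (nat_lit 11) (.e (nat_lit 24654) (nat_lit 13) (.e (nat_lit 393293) (nat_lit 26) (.e (nat_lit 475212) (nat_lit 42) (.e (nat_lit 728832) (nat_lit 4) .nil))))) (.g (nat_lit 0) (.e (nat_lit 234097) (nat_lit 0) .nil) .nil))))) (.nd (nat_lit 8) (.nd (nat_lit 9) 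
(.lf (nat_lit 525459) (.g (nat_lit 3209) (.e (nat_lit 204884) (nat_lit 33) (.e (nat_lit 401448) (nat_lit 10) (.e (nat_lit 434231) (nat_lit 23) (.e (nat_lit 532569) (nat_lit 16) (.e (nat_lit 401440) (nat_lit 9) (.e (nat_lit 426136) (nat_lit 3) .nil)))))) (.g (nat_lit 1) (.e (nat_lit 232986) (nat_lit 0) .nil) .nil))) 
(.lf (nat_lit 525971) (.g (nat_lit 3639) (.e (nat_lit 213030) (nat_lit 11) (.e (nat_lit 24617) (nat_lit 7) (.e (nat_lit 319534) (nat_lit 16) (.e (nat_lit 286756) (nat_lit 10) (.e (nat_lit 344169) (nat_lit 40) (.e (nat_lit 671770) (nat_lit 9) (.e (nat_lit 2700) (nat_lit 169) .nil))))))) (.g (nat_lit 1) (.e (nat_lit 233946) (nat_lit 0) .nil) .nil)))) (.nd (nat_lit 9) 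
(.lf (nat_lit 525715) (.g (nat_lit 713) (.e (nat_lit 220928) (nat_lit 5) (.e (nat_lit 73782) (nat_lit 32) (.e (nat_lit 3087) (nat_lit 191) (.e (nat_lit 483391) (nat_lit 23) .nil)))) (.g (nat_lit 0) (.e (nat_lit 233602) (nat_lit 0) .nil) .nil))) 
(.lf (nat_lit 526227) (.g (nat_lit 1573) (.e (nat_lit 213031) (nat_lit 11) (.e (nat_lit 24655) (nat_lit 13) (.e (nat_lit 393281) (nat_lit 23) (.e (nat_lit 426105) (nat_lit 1) .nil)))) (.g (nat_lit 0) (.e (nat_lit 234317) (nat_lit 0) .nil) .nil)))))) (.nd (nat_lit 7) (.nd (nat_lit 8) (.nd (nat_lit 9) 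
(.lf (nat_lit 525395) (.g (nat_lit 3726) (.e (nat_lit 204883) (nat_lit 33) (.e (nat_lit 401453) (nat_lit 12) (.e (nat_lit 475183) (nat_lit 29) (.e (nat_lit 557101) (nat_lit 13) (.e (nat_lit 172097) (nat_lit 9) (.e (nat_lit 426140) (nat_lit 3) .nil)))))) (.g (nat_lit 1) (.e (nat_lit 232845) (nat_lit 0) .nil) .nil))) 
(.lf (nat_lit 525907) (.g (nat_lit 2716) (.e (nat_lit 213030) (nat_lit 11) (.e (nat_lit 24617) (nat_lit 7) (.e (nat_lit 319533) (nat_lit 16) (.e (nat_lit 286745) (nat_lit 9) (.e (nat_lit 343808) (nat_lit 20) (.e (nat_lit 221219) (nat_lit 24) .nil)))))) (.g (nat_lit 1) (.e (nat_lit 233882) (nat_lit 0) .nil) .nil)))) (.nd (nat_lit 9) 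
(.lf (nat_lit 525651) (.g (nat_lit 1949) (.e (nat_lit 212736) (nat_lit 33) (.e (nat_lit 401452) (nat_lit 12) (.e (nat_lit 475185) (nat_lit 29) (.e (nat_lit 557101) (nat_lit 13) (.e (nat_lit 172097) (nat_lit 9) .nil))))) (.g (nat_lit 0) (.e (nat_lit 233526) (nat_lit 0) .nil) .nil))) 
(.lf (nat_lit 526163) (.g (nat_lit 1341) (.e (nat_lit 213030) (nat_lit 11) (.e (nat_lit 24660) (nat_lit 13) (.e (nat_lit 393269) (nat_lit 23) (.e (nat_lit 426448) (nat_lit 20) (.e (nat_lit 122624) (nat_lit 4) .nil))))) (.g (nat_lit 0) (.e (nat_lit 234161) (nat_lit 0) .nil) .nil))))) (.nd (nat_lit 8) (.nd (nat_lit 9) 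
(.lf (nat_lit 525523) (.g (nat_lit 3673) (.e (nat_lit 204885) (nat_lit 33) (.e (nat_lit 401446) (nat_lit 10) (.e (nat_lit 434233) (nat_lit 23) (.e (nat_lit 532523) (nat_lit 7) (.e (nat_lit 319537) (nat_lit 19) (.e (nat_lit 311315) (nat_lit 3) .nil)))))) (.g (nat_lit 1) (.e (nat_lit 233170) (nat_lit 0) .nil) .nil))) 
(.lf (nat_lit 526035) (.g (nat_lit 2826) (.e (nat_lit 213030) (nat_lit 11) (.e (nat_lit 24627) (nat_lit 9) (.e (nat_lit 336443) (nat_lit 32) (.e (nat_lit 466969) (nat_lit 21) (.e (nat_lit 164327) (nat_lit 230) (.e (nat_lit 163881) (nat_lit 4) .nil)))))) (.g (nat_lit 1) (.e (nat_lit 234012) (nat_lit 0) .nil) .nil)))) (.nd (nat_lit 9) 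
(.lf (nat_lit 525779) (.g (nat_lit 216) (.e (nat_lit 213007) (nat_lit 9) (.e (nat_lit 2744) (nat_lit 174) (.e (nat_lit 253991) (nat_lit 11) .nil))) (.g (nat_lit 0) (.e (nat_lit 233680) (nat_lit 0) .nil) .nil))) 
(.lf (nat_lit 526291) (.g (nat_lit 580) (.e (nat_lit 213032) (nat_lit 11) (.e (nat_lit 24608) (nat_lit 3) (.e (nat_lit 98354) (nat_lit 26) .nil))) (.g (nat_lit 0) (.e (nat_lit 234458) (nat_lit 0) .nil) .nil))))))) (.nd (nat_lit 6) (.nd (nat_lit 7) (.nd (nat_lit 8) (.nd (nat_lit 9) 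
(.lf (nat_lit 525363) (.g (nat_lit 731) (.e (nat_lit 204882) (nat_lit 32) (.e (nat_lit 385105) (nat_lit 50) (.e (nat_lit 786450) (nat_lit 15) .nil))) (.g (nat_lit 0) (.e (nat_lit 232789) (nat_lit 0) .nil) .nil))) 
(.lf (nat_lit 525875) (.g (nat_lit 1581) (.e (nat_lit 213030) (nat_lit 11) (.e (nat_lit 24616) (nat_lit 7) (.e (nat_lit 319530) (nat_lit 16) (.e (nat_lit 286748) (nat_lit 9) (.e (nat_lit 343808) (nat_lit 20) .nil))))) (.g (nat_lit 0) (.e (nat_lit 233838) (nat_lit 0) .nil) .nil)))) (.nd (nat_lit 9) 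
(.lf (nat_lit 525619) (.g (nat_lit 1869) (.e (nat_lit 204885) (nat_lit 33) (.e (nat_lit 401448) (nat_lit 10) (.e (nat_lit 434248) (nat_lit 28) (.e (nat_lit 573469) (nat_lit 11) .nil)))) (.g (nat_lit 0) (.e (nat_lit 233457) (nat_lit 0) .nil) .nil))) 
(.lf (nat_lit 526131) (.g (nat_lit 2177) (.e (nat_lit 213030) (nat_lit 11) (.e (nat_lit 24657) (nat_lit 13) (.e (nat_lit 393291) (nat_lit 26) (.e (nat_lit 475214) (nat_lit 42) (.e (nat_lit 728832) (nat_lit 4) .nil))))) (.g (nat_lit 1) (.e (nat_lit 234129) (nat_lit 0) .nil) .nil))))) (.nd (nat_lit 8) (.nd (nat_lit 9) 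
(.lf (nat_lit 525491) (.g (nat_lit 999) (.e (nat_lit 204884) (nat_lit 33) (.e (nat_lit 401459) (nat_lit 13) (.e (nat_lit 483354) (nat_lit 17) .nil))) (.g (nat_lit 0) (.e (nat_lit 233089) (nat_lit 0) .nil) .nil))) 
(.lf (nat_lit 526003) (.g (nat_lit 3320) (.e (nat_lit 213030) (nat_lit 11) (.e (nat_lit 24625) (nat_lit 9) (.e (nat_lit 336443) (nat_lit 32) (.e (nat_lit 466969) (nat_lit 21) (.e (nat_lit 164332) (nat_lit 230) (.e (nat_lit 163878) (nat_lit 4) .nil)))))) (.g (nat_lit 1) (.e (nat_lit 233980) (nat_lit 0) .nil) .nil)))) (.nd (nat_lit 9) 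
(.lf (nat_lit 525747) (.g (nat_lit 648) (.e (nat_lit 220928) (nat_lit 6) (.e (nat_lit 81943) (nat_lit 20) (.e (nat_lit 2003) (nat_lit 138) (.e (nat_lit 671764) (nat_lit 6) (.e (nat_lit 89856) (nat_lit 4) .nil))))) (.g (nat_lit 0) (.e (nat_lit 233640) (nat_lit 0) .nil) .nil))) 
(.lf (nat_lit 526259) (.g (nat_lit 314) (.e (nat_lit 213032) (nat_lit 11) (.e (nat_lit 24604) (nat_lit 2) (.e (nat_lit 90176) (nat_lit 15) .nil))) (.g (nat_lit 0) (.e (nat_lit 234412) (nat_lit 0) .nil) .nil)))))) (.nd (nat_lit 7) (.nd (nat_lit 8) (.nd (nat_lit 9) 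
(.lf (nat_lit 525427) (.g (nat_lit 1740) (.e (nat_lit 204883) (nat_lit 33) (.e (nat_lit 401458) (nat_lit 13) (.e (nat_lit 483350) (nat_lit 17) (.e (nat_lit 2362) (nat_lit 153) .nil)))) (.g (nat_lit 0) (.e (nat_lit 232907) (nat_lit 0) .nil) .nil))) 
(.lf (nat_lit 525939) (.g (nat_lit 2034) (.e (nat_lit 213030) (nat_lit 11) (.e (nat_lit 24617) (nat_lit 7) (.e (nat_lit 319534) (nat_lit 16) (.e (nat_lit 286744) (nat_lit 9) .nil)))) (.g (nat_lit 0) (.e (nat_lit 233914) (nat_lit 0) .nil) .nil)))) (.nd (nat_lit 9) 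
(.lf (nat_lit 525683) (.g (nat_lit 1445) (.e (nat_lit 220928) (nat_lit 4) (.e (nat_lit 65630) (nat_lit 14) (.e (nat_lit 401456) (nat_lit 13) (.e (nat_lit 483380) (nat_lit 23) (.e (nat_lit 336332) (nat_lit 19) .nil))))) (.g (nat_lit 0) (.e (nat_lit 233570) (nat_lit 0) .nil) .nil))) 
(.lf (nat_lit 526195) (.g (nat_lit 1842) (.e (nat_lit 213030) (nat_lit 11) (.e (nat_lit 24665) (nat_lit 14) (.e (nat_lit 401460) (nat_lit 14) (.e (nat_lit 491565) (nat_lit 12) .nil)))) (.g (nat_lit 0) (.e (nat_lit 234252) (nat_lit 0) .nil) .nil))))) (.nd (nat_lit 8) (.nd (nat_lit 9) 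
(.lf (nat_lit 525555) (.g (nat_lit 3339) (.e (nat_lit 204885) (nat_lit 33) (.e (nat_lit 401448) (nat_lit 10) (.e (nat_lit 434231) (nat_lit 23) (.e (nat_lit 532526) (nat_lit 8) (.e (nat_lit 327718) (nat_lit 19) (.e (nat_lit 311315) (nat_lit 3) .nil)))))) (.g (nat_lit 1) (.e (nat_lit 233309) (nat_lit 0) .nil) .nil))) 
(.lf (nat_lit 526067) (.g (nat_lit 2752) (.e (nat_lit 213030) (nat_lit 11) (.e (nat_lit 24629) (nat_lit 9) (.e (nat_lit 336443) (nat_lit 32) (.e (nat_lit 466969) (nat_lit 21) (.e (nat_lit 164327) (nat_lit 230) (.e (nat_lit 163879) (nat_lit 4) .nil)))))) (.g (nat_lit 1) (.e (nat_lit 234045) (nat_lit 0) .nil) .nil)))) (.nd (nat_lit 9) 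
(.lf (nat_lit 525811) (.g (nat_lit 1888) (.e (nat_lit 213019) (nat_lit 9) (.e (nat_lit 2684) (nat_lit 168) (.e (nat_lit 204831) (nat_lit 18) (.e (nat_lit 57931) (nat_lit 282) (.e (nat_lit 163866) (nat_lit 2) .nil))))) (.g (nat_lit 0) (.e (nat_lit 233765) (nat_lit 0) .nil) .nil))) 
(.lf (nat_lit 526323) (.g (nat_lit 1289) (.e (nat_lit 213032) (nat_lit 11) (.e (nat_lit 24608) (nat_lit 3) (.e (nat_lit 98372) (nat_lit 29) (.e (nat_lit 458496) (nat_lit 8) .nil)))) (.g (nat_lit 0) (.e (nat_lit 234503) (nat_lit 0) .nil) .nil))))))))) (.nd (nat_lit 4) (.nd (nat_lit 5) (.nd (nat_lit 6) (.nd (nat_lit 7) (.nd (nat_lit 8) (.nd (nat_lit 9) 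
(.lf (nat_lit 525323) (.g (nat_lit 2461) (.e (nat_lit 204882) (nat_lit 32) (.e (nat_lit 385068) (nat_lit 26) (.e (nat_lit 532504) (nat_lit 1) (.e (nat_lit 57829) (nat_lit 250) (.e (nat_lit 1183) (nat_lit 87) .nil))))) (.g (nat_lit 0) (.e (nat_lit 232742) (nat_lit 0) .nil) .nil))) 
(.lf (nat_lit 525835) (.g (nat_lit 2189) (.e (nat_lit 213030) (nat_lit 11) (.e (nat_lit 24605) (nat_lit 2) (.e (nat_lit 90178) (nat_lit 15) (.e (nat_lit 188418) (nat_lit 0) (.e (nat_lit 1800) (nat_lit 119) (.e (nat_lit 516127) (nat_lit 2) .nil)))))) (.g (nat_lit 1) (.e (nat_lit 233795) (nat_lit 0) .nil) .nil)))) (.nd (nat_lit 9) 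
(.lf (nat_lit 525579) (.g (nat_lit 2079) (.e (nat_lit 204885) (nat_lit 33) (.e (nat_lit 401448) (nat_lit 10) (.e (nat_lit 434232) (nat_lit 23) (.e (nat_lit 532562) (nat_lit 15) (.e (nat_lit 385105) (nat_lit 50) (.e (nat_lit 794368) (nat_lit 3) .nil)))))) (.g (nat_lit 1) (.e (nat_lit 233333) (nat_lit 0) .nil) .nil))) 
(.lf (nat_lit 526091) (.g (nat_lit 3310) (.e (nat_lit 213030) (nat_lit 11) (.e (nat_lit 24630) (nat_lit 9) (.e (nat_lit 336443) (nat_lit 32) (.e (nat_lit 466972) (nat_lit 21) (.e (nat_lit 164330) (nat_lit 230) (.e (nat_lit 163880) (nat_lit 4) .nil)))))) (.g (nat_lit 1) (.e (nat_lit 234086) (nat_lit 0) .nil) .nil))))) (.nd (nat_lit 8) (.nd (nat_lit 9) 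
(.lf (nat_lit 525451) (.g (nat_lit 1123) (.e (nat_lit 204883) (nat_lit 33) (.e (nat_lit 401459) (nat_lit 13) (.e (nat_lit 483369) (nat_lit 20) .nil))) (.g (nat_lit 0) (.e (nat_lit 232948) (nat_lit 0) .nil) .nil))) 
(.lf (nat_lit 525963) (.g (nat_lit 3817) (.e (nat_lit 213030) (nat_lit 11) (.e (nat_lit 24617) (nat_lit 7) (.e (nat_lit 319534) (nat_lit 16) (.e (nat_lit 286756) (nat_lit 10) (.e (nat_lit 344168) (nat_lit 40) (.e (nat_lit 671771) (nat_lit 9) (.e (nat_lit 2700) (nat_lit 169) .nil))))))) (.g (nat_lit 1) (.e (nat_lit 233938) (nat_lit 0) .nil) .nil)))) (.nd (nat_lit 9) 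
(.lf (nat_lit 525707) (.g (nat_lit 1189) (.e (nat_lit 220928) (nat_lit 5) (.e (nat_lit 73782) (nat_lit 32) (.e (nat_lit 2855) (nat_lit 184) (.e (nat_lit 426542) (nat_lit 29) (.e (nat_lit 360192) (nat_lit 4) .nil))))) (.g (nat_lit 0) (.e (nat_lit 233594) (nat_lit 0) .nil) .nil))) 
(.lf (nat_lit 526219) (.g (nat_lit 931) (.e (nat_lit 213031) (nat_lit 11) (.e (nat_lit 24655) (nat_lit 13) (.e (nat_lit 393266) (nat_lit 23) .nil))) (.g (nat_lit 0) (.e (nat_lit 234309) (nat_lit 0) .nil) .nil)))))) (.nd (nat_lit 7) (.nd (nat_lit 8) (.nd (nat_lit 9) 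
(.lf (nat_lit 525387) (.g (nat_lit 3109) (.e (nat_lit 204883) (nat_lit 33) (.e (nat_lit 401450) (nat_lit 12) (.e (nat_lit 475185) (nat_lit 29) (.e (nat_lit 557107) (nat_lit 15) (.e (nat_lit 188450) (nat_lit 23) .nil))))) (.g (nat_lit 0) (.e (nat_lit 232834) (nat_lit 0) .nil) .nil))) 
(.lf (nat_lit 525899) (.g (nat_lit 2642) (.e (nat_lit 213030) (nat_lit 11) (.e (nat_lit 24617) (nat_lit 7) (.e (nat_lit 319531) (nat_lit 16) (.e (nat_lit 286759) (nat_lit 12) (.e (nat_lit 385107) (nat_lit 51) (.e (nat_lit 794677) (nat_lit 24) .nil)))))) (.g (nat_lit 1) (.e (nat_lit 233873) (nat_lit 0) .nil) .nil)))) (.nd (nat_lit 9) 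
(.lf (nat_lit 525643) (.g (nat_lit 1245) (.e (nat_lit 204885) (nat_lit 33) (.e (nat_lit 401452) (nat_lit 12) (.e (nat_lit 475183) (nat_lit 29) (.e (nat_lit 557107) (nat_lit 15) .nil)))) (.g (nat_lit 0) (.e (nat_lit 233504) (nat_lit 0) .nil) .nil))) 
(.lf (nat_lit 526155) (.g (nat_lit 2353) (.e (nat_lit 213030) (nat_lit 11) (.e (nat_lit 24659) (nat_lit 13) (.e (nat_lit 393283) (nat_lit 24) (.e (nat_lit 434209) (nat_lit 18) (.e (nat_lit 5224) (nat_lit 296) (.e (nat_lit 163879) (nat_lit 4) .nil)))))) (.g (nat_lit 1) (.e (nat_lit 234153) (nat_lit 0) .nil) .nil))))) (.nd (nat_lit 8) (.nd (nat_lit 9) 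
(.lf (nat_lit 525515) (.g (nat_lit 3052) (.e (nat_lit 204885) (nat_lit 33) (.e (nat_lit 401446) (nat_lit 10) (.e (nat_lit 434231) (nat_lit 23) (.e (nat_lit 532490) (nat_lit 0) (.e (nat_lit 6114) (nat_lit 332) (.e (nat_lit 1378) (nat_lit 104) (.e (nat_lit 303118) (nat_lit 3) .nil))))))) (.g (nat_lit 1) (.e (nat_lit 233148) (nat_lit 0) .nil) .nil))) 
(.lf (nat_lit 526027) (.g (nat_lit 767) (.e (nat_lit 213030) (nat_lit 11) (.e (nat_lit 24627) (nat_lit 9) (.e (nat_lit 336430) (nat_lit 29) .nil))) (.g (nat_lit 0) (.e (nat_lit 234004) (nat_lit 0) .nil) .nil)))) (.nd (nat_lit 9) 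
(.lf (nat_lit 525771) (.g (nat_lit 1721) (.e (nat_lit 220928) (nat_lit 6) (.e (nat_lit 81959) (nat_lit 24) (.e (nat_lit 123183) (nat_lit 264) (.e (nat_lit 1296) (nat_lit 96) (.e (nat_lit 131109) (nat_lit 9) .nil))))) (.g (nat_lit 0) (.e (nat_lit 233664) (nat_lit 0) .nil) .nil))) 
(.lf (nat_lit 526283) (.g (nat_lit 2932) (.e (nat_lit 213032) (nat_lit 11) (.e (nat_lit 24607) (nat_lit 3) (.e (nat_lit 98365) (nat_lit 26) (.e (nat_lit 426188) (nat_lit 9) (.e (nat_lit 426436) (nat_lit 18) (.e (nat_lit 98338) (nat_lit 19) .nil)))))) (.g (nat_lit 1) (.e (nat_lit 234450) (nat_lit 0) .nil) .nil))))))) (.nd (nat_lit 6) (.nd (nat_lit 7) (.nd (nat_lit 8) (.nd (nat_lit 9) 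
(.lf (nat_lit 525355) (.g (nat_lit 2177) (.e (nat_lit 204882) (nat_lit 32) (.e (nat_lit 385068) (nat_lit 26) (.e (nat_lit 532563) (nat_lit 15) (.e (nat_lit 385066) (nat_lit 26) (.e (nat_lit 532533) (nat_lit 9) (.e (nat_lit 336324) (nat_lit 18) .nil)))))) (.g (nat_lit 1) (.e (nat_lit 232780) (nat_lit 0) .nil) .nil))) 
(.lf (nat_lit 525867) (.g (nat_lit 1496) (.e (nat_lit 213030) (nat_lit 11) (.e (nat_lit 24609) (nat_lit 3) (.e (nat_lit 98365) (nat_lit 26) (.e (nat_lit 426198) (nat_lit 9) (.e (nat_lit 426436) (nat_lit 18) .nil))))) (.g (nat_lit 0) (.e (nat_lit 233830) (nat_lit 0) .nil) .nil)))) (.nd (nat_lit 9) 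
(.lf (nat_lit 525611) (.g (nat_lit 1823) (.e (nat_lit 204885) (nat_lit 33) (.e (nat_lit 401448) (nat_lit 10) (.e (nat_lit 434246) (nat_lit 28) (.e (nat_lit 573471) (nat_lit 11) (.e (nat_lit 16433) (nat_lit 9) (.e (nat_lit 426130) (nat_lit 3) .nil)))))) (.g (nat_lit 1) (.e (nat_lit 233428) (nat_lit 0) .nil) .nil))) 
(.lf (nat_lit 526123) (.g (nat_lit 2744) (.e (nat_lit 213030) (nat_lit 11) (.e (nat_lit 24657) (nat_lit 13) (.e (nat_lit 393271) (nat_lit 23) (.e (nat_lit 426112) (nat_lit 1) (.e (nat_lit 164326) (nat_lit 230) (.e (nat_lit 163882) (nat_lit 4) .nil)))))) (.g (nat_lit 1) (.e (nat_lit 234121) (nat_lit 0) .nil) .nil))))) (.nd (nat_lit 8) (.nd (nat_lit 9) 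
(.lf (nat_lit 525483) (.g (nat_lit 974) (.e (nat_lit 204884) (nat_lit 33) (.e (nat_lit 401459) (nat_lit 13) (.e (nat_lit 483343) (nat_lit 17) .nil))) (.g (nat_lit 0) (.e (nat_lit 233075) (nat_lit 0) .nil) .nil))) 
(.lf (nat_lit 525995) (.g (nat_lit 2578) (.e (nat_lit 213030) (nat_lit 11) (.e (nat_lit 24624) (nat_lit 9) (.e (nat_lit 336443) (nat_lit 32) (.e (nat_lit 466971) (nat_lit 21) (.e (nat_lit 164322) (nat_lit 230) (.e (nat_lit 163878) (nat_lit 4) .nil)))))) (.g (nat_lit 1) (.e (nat_lit 233971) (nat_lit 0) .nil) .nil)))) (.nd (nat_lit 9) 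
(.lf (nat_lit 525739) (.g (nat_lit 822) (.e (nat_lit 220928) (nat_lit 6) (.e (nat_lit 81935) (nat_lit 20) (.e (nat_lit 1996) (nat_lit 137) (.e (nat_lit 663569) (nat_lit 6) (.e (nat_lit 89856) (nat_lit 4) .nil))))) (.g (nat_lit 0) (.e (nat_lit 233632) (nat_lit 0) .nil) .nil))) 
(.lf (nat_lit 526251) (.g (nat_lit 1687) (.e (nat_lit 213032) (nat_lit 11) (.e (nat_lit 24604) (nat_lit 2) (.e (nat_lit 90168) (nat_lit 13) (.e (nat_lit 172120) (nat_lit 12) (.e (nat_lit 475179) (nat_lit 24) .nil))))) (.g (nat_lit 0) (.e (nat_lit 234399) (nat_lit 0) .nil) .nil)))))) (.nd (nat_lit 7) (.nd (nat_lit 8) (.nd (nat_lit 9) 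
(.lf (nat_lit 525419) (.g (nat_lit 1014) (.e (nat_lit 204883) (nat_lit 33) (.e (nat_lit 401457) (nat_lit 13) (.e (nat_lit 483345) (nat_lit 17) .nil))) (.g (nat_lit 0) (.e (nat_lit 232894) (nat_lit 0) .nil) .nil))) 
(.lf (nat_lit 525931) (.g (nat_lit 3209) (.e (nat_lit 213030) (nat_lit 11) (.e (nat_lit 24617) (nat_lit 7) (.e (nat_lit 319533) (nat_lit 16) (.e (nat_lit 286753) (nat_lit 10) (.e (nat_lit 344169) (nat_lit 40) (.e (nat_lit 671776) (nat_lit 9) (.e (nat_lit 2693) (nat_lit 169) .nil))))))) (.g (nat_lit 1) (.e (nat_lit 233906) (nat_lit 0) .nil) .nil)))) (.nd (nat_lit 9) 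
(.lf (nat_lit 525675) (.g (nat_lit 1488) (.e (nat_lit 220928) (nat_lit 4) (.e (nat_lit 65630) (nat_lit 14) (.e (nat_lit 401435) (nat_lit 9) (.e (nat_lit 426540) (nat_lit 29) (.e (nat_lit 360192) (nat_lit 4) .nil))))) (.g (nat_lit 0) (.e (nat_lit 233562) (nat_lit 0) .nil) .nil))) 
(.lf (nat_lit 526187) (.g (nat_lit 2019) (.e (nat_lit 213030) (nat_lit 11) (.e (nat_lit 24660) (nat_lit 13) (.e (nat_lit 393284) (nat_lit 24) (.e (nat_lit 434209) (nat_lit 18) (.e (nat_lit 5224) (nat_lit 296) (.e (nat_lit 163882) (nat_lit 4) .nil)))))) (.g (nat_lit 1) (.e (nat_lit 234186) (nat_lit 0) .nil) .nil))))) (.nd (nat_lit 8) (.nd (nat_lit 9) 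
(.lf (nat_lit 525547) (.g (nat_lit 2502) (.e (nat_lit 204885) (nat_lit 33) (.e (nat_lit 401448) (nat_lit 10) (.e (nat_lit 434231) (nat_lit 23) (.e (nat_lit 532490) (nat_lit 0) (.e (nat_lit 7936) (nat_lit 364) .nil))))) (.g (nat_lit 0) (.e (nat_lit 233301) (nat_lit 0) .nil) .nil))) 
(.lf (nat_lit 526059) (.g (nat_lit 715) (.e (nat_lit 213030) (nat_lit 11) (.e (nat_lit 24629) (nat_lit 9) (.e (nat_lit 336430) (nat_lit 29) (.e (nat_lit 450304) (nat_lit 5) .nil)))) (.g (nat_lit 0) (.e (nat_lit 234036) (nat_lit 0) .nil) .nil)))) (.nd (nat_lit 9) 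
(.lf (nat_lit 525803) (.g (nat_lit 445) (.e (nat_lit 213019) (nat_lit 9) (.e (nat_lit 2610) (nat_lit 163) (.e (nat_lit 164347) (nat_lit 240) .nil))) (.g (nat_lit 0) (.e (nat_lit 233747) (nat_lit 0) .nil) .nil))) 
(.lf (nat_lit 526315) (.g (nat_lit 2147) (.e (nat_lit 213032) (nat_lit 11) (.e (nat_lit 24608) (nat_lit 3) (.e (nat_lit 98365) (nat_lit 26) (.e (nat_lit 426306) (nat_lit 12) (.e (nat_lit 475175) (nat_lit 24) (.e (nat_lit 516124) (nat_lit 2) .nil)))))) (.g (nat_lit 1) (.e (nat_lit 234484) (nat_lit 0) .nil) .nil)))))))) 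
(.nd (nat_lit 5) (.nd (nat_lit 6) (.nd (nat_lit 7) (.nd (nat_lit 8) (.nd (nat_lit 9) 
(.lf (nat_lit 525339) (.g (nat_lit 2619) (.e (nat_lit 204882) (nat_lit 32) (.e (nat_lit 385068) (nat_lit 26) (.e (nat_lit 532530) (nat_lit 9) (.e (nat_lit 336320) (nat_lit 17) (.e (nat_lit 196665) (nat_lit 13) .nil))))) (.g (nat_lit 0) (.e (nat_lit 232760) (nat_lit 0) .nil) .nil))) 
(.lf (nat_lit 525851) (.g (nat_lit 1668) (.e (nat_lit 213030) (nat_lit 11) (.e (nat_lit 24608) (nat_lit 3) (.e (nat_lit 98365) (nat_lit 26) (.e (nat_lit 426188) (nat_lit 9) (.e (nat_lit 426434) (nat_lit 18) .nil))))) (.g (nat_lit 0) (.e (nat_lit 233812) (nat_lit 0) .nil) .nil)))) (.nd (nat_lit 9) 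
(.lf (nat_lit 525595) (.g (nat_lit 3812) (.e (nat_lit 204885) (nat_lit 33) (.e (nat_lit 401448) (nat_lit 10) (.e (nat_lit 434238) (nat_lit 25) (.e (nat_lit 548913) (nat_lit 18) (.e (nat_lit 172097) (nat_lit 9) (.e (nat_lit 426140) (nat_lit 3) .nil)))))) (.g (nat_lit 1) (.e (nat_lit 233359) (nat_lit 0) .nil) .nil))) 
(.lf (nat_lit 526107) (.g (nat_lit 1742) (.e (nat_lit 213030) (nat_lit 11) (.e (nat_lit 24655) (nat_lit 13) (.e (nat_lit 393291) (nat_lit 26) (.e (nat_lit 475214) (nat_lit 42) .nil)))) (.g (nat_lit 0) (.e (nat_lit 234105) (nat_lit 0) .nil) .nil))))) (.nd (nat_lit 8) (.nd (nat_lit 9) 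
(.lf (nat_lit 525467) (.g (nat_lit 2697) (.e (nat_lit 204884) (nat_lit 33) (.e (nat_lit 401451) (nat_lit 12) (.e (nat_lit 475185) (nat_lit 29) (.e (nat_lit 557107) (nat_lit 15) (.e (nat_lit 188450) (nat_lit 23) .nil))))) (.g (nat_lit 0) (.e (nat_lit 233049) (nat_lit 0) .nil) .nil))) 
(.lf (nat_lit 525979) (.g (nat_lit 2028) (.e (nat_lit 213030) (nat_lit 11) (.e (nat_lit 24617) (nat_lit 7) (.e (nat_lit 319534) (nat_lit 16) (.e (nat_lit 286758) (nat_lit 12) .nil)))) (.g (nat_lit 0) (.e (nat_lit 233954) (nat_lit 0) .nil) .nil)))) (.nd (nat_lit 9) 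
(.lf (nat_lit 525723) (.g (nat_lit 423) (.e (nat_lit 220928) (nat_lit 6) (.e (nat_lit 81921) (nat_lit 0) (.e (nat_lit 3715) (nat_lit 227) (.e (nat_lit 778325) (nat_lit 6) (.e (nat_lit 89856) (nat_lit 4) .nil))))) (.g (nat_lit 0) (.e (nat_lit 233610) (nat_lit 0) .nil) .nil))) 
(.lf (nat_lit 526235) (.g (nat_lit 2426) (.e (nat_lit 213031) (nat_lit 11) (.e (nat_lit 24657) (nat_lit 13) (.e (nat_lit 393281) (nat_lit 23) (.e (nat_lit 426098) (nat_lit 1) (.e (nat_lit 164325) (nat_lit 230) (.e (nat_lit 163882) (nat_lit 4) .nil)))))) (.g (nat_lit 1) (.e (nat_lit 234327) (nat_lit 0) .nil) .nil)))))) (.nd (nat_lit 7) (.nd (nat_lit 8) (.nd (nat_lit 9) 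
(.lf (nat_lit 525403) (.g (nat_lit 869) (.e (nat_lit 204883) (nat_lit 33) (.e (nat_lit 401454) (nat_lit 12) (.e (nat_lit 475179) (nat_lit 24) .nil))) (.g (nat_lit 0) (.e (nat_lit 232867) (nat_lit 0) .nil) .nil))) 
(.lf (nat_lit 525915) (.g (nat_lit 3743) (.e (nat_lit 213030) (nat_lit 11) (.e (nat_lit 24617) (nat_lit 7) (.e (nat_lit 319533) (nat_lit 16) (.e (nat_lit 286753) (nat_lit 10) (.e (nat_lit 344097) (nat_lit 18) (.e (nat_lit 5195) (nat_lit 294) (.e (nat_lit 65280) (nat_lit 65) .nil))))))) (.g (nat_lit 1) (.e (nat_lit 233890) (nat_lit 0) .nil) .nil)))) (.nd (nat_lit 9) 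
(.lf (nat_lit 525659) (.g (nat_lit 3508) (.e (nat_lit 220928) (nat_lit 2) (.e (nat_lit 16415) (nat_lit 3) (.e (nat_lit 204884) (nat_lit 33) (.e (nat_lit 401454) (nat_lit 12) (.e (nat_lit 475176) (nat_lit 24) .nil))))) (.g (nat_lit 0) (.e (nat_lit 233536) (nat_lit 0) .nil) .nil))) 
(.lf (nat_lit 526171) (.g (nat_lit 2537) (.e (nat_lit 213030) (nat_lit 11) (.e (nat_lit 24660) (nat_lit 13) (.e (nat_lit 393279) (nat_lit 23) (.e (nat_lit 426110) (nat_lit 1) (.e (nat_lit 164327) (nat_lit 230) (.e (nat_lit 163882) (nat_lit 4) .nil)))))) (.g (nat_lit 1) (.e (nat_lit 234169) (nat_lit 0) .nil) .nil))))) (.nd (nat_lit 8) (.nd (nat_lit 9) 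
(.lf (nat_lit 525531) (.g (nat_lit 1114) (.e (nat_lit 204885) (nat_lit 33) (.e (nat_lit 401448) (nat_lit 10) (.e (nat_lit 434223) (nat_lit 19) (.e (nat_lit 500056) (nat_lit 17) .nil)))) (.g (nat_lit 0) (.e (nat_lit 233281) (nat_lit 0) .nil) .nil))) 
(.lf (nat_lit 526043) (.g (nat_lit 2784) (.e (nat_lit 213030) (nat_lit 11) (.e (nat_lit 24627) (nat_lit 9) (.e (nat_lit 336443) (nat_lit 32) (.e (nat_lit 466971) (nat_lit 21) (.e (nat_lit 164327) (nat_lit 230) (.e (nat_lit 163881) (nat_lit 4) .nil)))))) (.g (nat_lit 1) (.e (nat_lit 234020) (nat_lit 0) .nil) .nil)))) (.nd (nat_lit 9) 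
(.lf (nat_lit 525787) (.g (nat_lit 3522) (.e (nat_lit 213013) (nat_lit 9) (.e (nat_lit 2666) (nat_lit 167) (.e (nat_lit 196666) (nat_lit 13) (.e (nat_lit 65570) (nat_lit 3) (.e (nat_lit 98333) (nat_lit 18) .nil))))) (.g (nat_lit 0) (.e (nat_lit 233700) (nat_lit 0) .nil) .nil))) 
(.lf (nat_lit 526299) (.g (nat_lit 1532) (.e (nat_lit 213032) (nat_lit 11) (.e (nat_lit 24608) (nat_lit 3) (.e (nat_lit 98356) (nat_lit 26) (.e (nat_lit 433920) (nat_lit 12) .nil)))) (.g (nat_lit 0) (.e (nat_lit 234467) (nat_lit 0) .nil) .nil))))))) (.nd (nat_lit 6) (.nd (nat_lit 7) (.nd (nat_lit 8) (.nd (nat_lit 9) 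
(.lf (nat_lit 525371) (.g (nat_lit 847) (.e (nat_lit 204882) (nat_lit 32) (.e (nat_lit 385109) (nat_lit 51) (.e (nat_lit 794663) (nat_lit 22) .nil))) (.g (nat_lit 0) (.e (nat_lit 232798) (nat_lit 0) .nil) .nil))) 
(.lf (nat_lit 525883) (.g (nat_lit 2234) (.e (nat_lit 213030) (nat_lit 11) (.e (nat_lit 24617) (nat_lit 7) (.e (nat_lit 319529) (nat_lit 16) (.e (nat_lit 286759) (nat_lit 12) (.e (nat_lit 385107) (nat_lit 51) (.e (nat_lit 794679) (nat_lit 24) .nil)))))) (.g (nat_lit 1) (.e (nat_lit 233856) (nat_lit 0) .nil) .nil)))) (.nd (nat_lit 9) 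
(.lf (nat_lit 525627) (.g (nat_lit 5377) (.e (nat_lit 204885) (nat_lit 33) (.e (nat_lit 401450) (nat_lit 12) (.e (nat_lit 475183) (nat_lit 29) (.e (nat_lit 557109) (nat_lit 15) (.e (nat_lit 188452) (nat_lit 23) .nil))))) (.g (nat_lit 1) (.e (nat_lit 233471) (nat_lit 0) .nil) .nil))) 
(.lf (nat_lit 526139) (.g (nat_lit 1083) (.e (nat_lit 213030) (nat_lit 11) (.e (nat_lit 24659) (nat_lit 13) (.e (nat_lit 393269) (nat_lit 23) (.e (nat_lit 426448) (nat_lit 20) (.e (nat_lit 122624) (nat_lit 4) .nil))))) (.g (nat_lit 0) (.e (nat_lit 234137) (nat_lit 0) .nil) .nil))))) (.nd (nat_lit 8) (.nd (nat_lit 9) 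
(.lf (nat_lit 525499) (.g (nat_lit 2893) (.e (nat_lit 204885) (nat_lit 33) (.e (nat_lit 401434) (nat_lit 9) (.e (nat_lit 426125) (nat_lit 2) (.e (nat_lit 196661) (nat_lit 12) (.e (nat_lit 57714) (nat_lit 176) (.e (nat_lit 1383) (nat_lit 105) (.e (nat_lit 311315) (nat_lit 3) .nil))))))) (.g (nat_lit 1) (.e (nat_lit 233103) (nat_lit 0) .nil) .nil))) 
(.lf (nat_lit 526011) (.g (nat_lit 3439) (.e (nat_lit 213030) (nat_lit 11) (.e (nat_lit 24625) (nat_lit 9) (.e (nat_lit 336443) (nat_lit 32) (.e (nat_lit 466972) (nat_lit 21) (.e (nat_lit 164332) (nat_lit 230) (.e (nat_lit 163878) (nat_lit 4) .nil)))))) (.g (nat_lit 1) (.e (nat_lit 233988) (nat_lit 0) .nil) .nil)))) (.nd (nat_lit 9) 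
(.lf (nat_lit 525755) (.g (nat_lit 1063) (.e (nat_lit 220928) (nat_lit 6) (.e (nat_lit 81947) (nat_lit 20) (.e (nat_lit 2006) (nat_lit 138) (.e (nat_lit 671764) (nat_lit 6) (.e (nat_lit 89856) (nat_lit 4) .nil))))) (.g (nat_lit 0) (.e (nat_lit 233648) (nat_lit 0) .nil) .nil))) 
(.lf (nat_lit 526267) (.g (nat_lit 1848) (.e (nat_lit 213032) (nat_lit 11) (.e (nat_lit 24604) (nat_lit 2) (.e (nat_lit 90185) (nat_lit 17) (.e (nat_lit 237601) (nat_lit 9) (.e (nat_lit 426436) (nat_lit 18) (.e (nat_lit 106240) (nat_lit 19) .nil)))))) (.g (nat_lit 1) (.e (nat_lit 234434) (nat_lit 0) .nil) .nil)))))) (.nd (nat_lit 7) (.nd (nat_lit 8) (.nd (nat_lit 9) 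
(.lf (nat_lit 525435) (.g (nat_lit 1093) (.e (nat_lit 204883) (nat_lit 33) (.e (nat_lit 401459) (nat_lit 13) (.e (nat_lit 483343) (nat_lit 17) (.e (nat_lit 2369) (nat_lit 153) .nil)))) (.g (nat_lit 0) (.e (nat_lit 232918) (nat_lit 0) .nil) .nil))) 
(.lf (nat_lit 525947) (.g (nat_lit 1844) (.e (nat_lit 213030) (nat_lit 11) (.e (nat_lit 24617) (nat_lit 7) (.e (nat_lit 319534) (nat_lit 16) (.e (nat_lit 286748) (nat_lit 9) (.e (nat_lit 343808) (nat_lit 20) .nil))))) (.g (nat_lit 0) (.e (nat_lit 233922) (nat_lit 0) .nil) .nil)))) (.nd (nat_lit 9) 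
(.lf (nat_lit 525691) (.g (nat_lit 1649) (.e (nat_lit 220928) (nat_lit 4) (.e (nat_lit 65630) (nat_lit 14) (.e (nat_lit 401457) (nat_lit 13) (.e (nat_lit 483384) (nat_lit 23) .nil)))) (.g (nat_lit 0) (.e (nat_lit 233578) (nat_lit 0) .nil) .nil))) 
(.lf (nat_lit 526203) (.g (nat_lit 1468) (.e (nat_lit 213031) (nat_lit 11) (.e (nat_lit 24608) (nat_lit 3) (.e (nat_lit 98365) (nat_lit 26) (.e (nat_lit 426187) (nat_lit 9) .nil)))) (.g (nat_lit 0) (.e (nat_lit 234293) (nat_lit 0) .nil) .nil))))) (.nd (nat_lit 8) (.nd (nat_lit 9) 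
(.lf (nat_lit 525563) (.g (nat_lit 3685) (.e (nat_lit 204885) (nat_lit 33) (.e (nat_lit 401448) (nat_lit 10) (.e (nat_lit 434231) (nat_lit 23) (.e (nat_lit 532569) (nat_lit 16) (.e (nat_lit 401435) (nat_lit 9) (.e (nat_lit 426131) (nat_lit 3) .nil)))))) (.g (nat_lit 1) (.e (nat_lit 233317) (nat_lit 0) .nil) .nil))) 
(.lf (nat_lit 526075) (.g (nat_lit 2521) (.e (nat_lit 213030) (nat_lit 11) (.e (nat_lit 24630) (nat_lit 9) (.e (nat_lit 336443) (nat_lit 32) (.e (nat_lit 466969) (nat_lit 21) (.e (nat_lit 164322) (nat_lit 230) (.e (nat_lit 163878) (nat_lit 4) .nil)))))) (.g (nat_lit 1) (.e (nat_lit 234070) (nat_lit 0) .nil) .nil)))) (.nd (nat_lit 9) 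
(.lf (nat_lit 525819) (.g (nat_lit 2216) (.e (nat_lit 213030) (nat_lit 11) (.e (nat_lit 24604) (nat_lit 2) (.e (nat_lit 90170) (nat_lit 13) (.e (nat_lit 172120) (nat_lit 12) (.e (nat_lit 475179) (nat_lit 24) .nil))))) (.g (nat_lit 0) (.e (nat_lit 233779) (nat_lit 0) .nil) .nil))) 
(.lf (nat_lit 526331) (.g (nat_lit 401) (.e (nat_lit 213032) (nat_lit 11) (.e (nat_lit 24608) (nat_lit 3) (.e (nat_lit 98380) (nat_lit 31) .nil))) (.g (nat_lit 0) (.e (nat_lit 234519) (nat_lit 0) .nil) .nil)))))))))) (.nd (nat_lit 3) (.nd (nat_lit 4) (.nd (nat_lit 5) (.nd (nat_lit 6) (.nd (nat_lit 7) (.nd (nat_lit 8) (.nd (nat_lit 9) 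
(.lf (nat_lit 525319) (.g (nat_lit 3839) (.e (nat_lit 204882) (nat_lit 32) (.e (nat_lit 385068) (nat_lit 26) (.e (nat_lit 532501) (nat_lit 1) (.e (nat_lit 57852) (nat_lit 252) (.e (nat_lit 57354) (nat_lit 0) .nil))))) (.g (nat_lit 0) (.e (nat_lit 232738) (nat_lit 0) .nil) .nil))) 
(.lf (nat_lit 525831) (.g (nat_lit 991) (.e (nat_lit 213030) (nat_lit 11) (.e (nat_lit 24605) (nat_lit 2) (.e (nat_lit 90174) (nat_lit 14) (.e (nat_lit 188160) (nat_lit 41) .nil)))) (.g (nat_lit 0) (.e (nat_lit 233791) (nat_lit 0) .nil) .nil)))) (.nd (nat_lit 9) 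
(.lf (nat_lit 525575) (.g (nat_lit 3440) (.e (nat_lit 204885) (nat_lit 33) (.e (nat_lit 401448) (nat_lit 10) (.e (nat_lit 434232) (nat_lit 23) (.e (nat_lit 532523) (nat_lit 7) (.e (nat_lit 319537) (nat_lit 19) (.e (nat_lit 311315) (nat_lit 3) .nil)))))) (.g (nat_lit 1) (.e (nat_lit 233329) (nat_lit 0) .nil) .nil))) 
(.lf (nat_lit 526087) (.g (nat_lit 2803) (.e (nat_lit 213030) (nat_lit 11) (.e (nat_lit 24630) (nat_lit 9) (.e (nat_lit 336443) (nat_lit 32) (.e (nat_lit 466971) (nat_lit 21) (.e (nat_lit 164326) (nat_lit 230) (.e (nat_lit 163879) (nat_lit 4) .nil)))))) (.g (nat_lit 1) (.e (nat_lit 234082) (nat_lit 0) .nil) .nil))))) (.nd (nat_lit 8) (.nd (nat_lit 9) 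
(.lf (nat_lit 525447) (.g (nat_lit 1874) (.e (nat_lit 204883) (nat_lit 33) (.e (nat_lit 401459) (nat_lit 13) (.e (nat_lit 483350) (nat_lit 17) (.e (nat_lit 2362) (nat_lit 153) .nil)))) (.g (nat_lit 0) (.e (nat_lit 232938) (nat_lit 0) .nil) .nil))) 
(.lf (nat_lit 525959) (.g (nat_lit 2545) (.e (nat_lit 213030) (nat_lit 11) (.e (nat_lit 24617) (nat_lit 7) (.e (nat_lit 319534) (nat_lit 16) (.e (nat_lit 286756) (nat_lit 10) (.e (nat_lit 344168) (nat_lit 40) (.e (nat_lit 671768) (nat_lit 9) (.e (nat_lit 2700) (nat_lit 169) .nil))))))) (.g (nat_lit 1) (.e (nat_lit 233934) (nat_lit 0) .nil) .nil)))) (.nd (nat_lit 9) 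
(.lf (nat_lit 525703) (.g (nat_lit 2043) (.e (nat_lit 220928) (nat_lit 5) (.e (nat_lit 73781) (nat_lit 32) (.e (nat_lit 3090) (nat_lit 191) (.e (nat_lit 483380) (nat_lit 23) (.e (nat_lit 336330) (nat_lit 19) .nil))))) (.g (nat_lit 0) (.e (nat_lit 233590) (nat_lit 0) .nil) .nil))) 
(.lf (nat_lit 526215) (.g (nat_lit 1082) (.e (nat_lit 213031) (nat_lit 11) (.e (nat_lit 24626) (nat_lit 9) (.e (nat_lit 336443) (nat_lit 32) (.e (nat_lit 466969) (nat_lit 21) .nil)))) (.g (nat_lit 0) (.e (nat_lit 234305) (nat_lit 0) .nil) .nil)))))) (.nd (nat_lit 7) (.nd (nat_lit 8) (.nd (nat_lit 9) 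
(.lf (nat_lit 525383) (.g (nat_lit 1064) (.e (nat_lit 204883) (nat_lit 33) (.e (nat_lit 401437) (nat_lit 9) (.e (nat_lit 426402) (nat_lit 15) (.e (nat_lit 1847) (nat_lit 124) .nil)))) (.g (nat_lit 0) (.e (nat_lit 232818) (nat_lit 0) .nil) .nil))) 
(.lf (nat_lit 525895) (.g (nat_lit 2527) (.e (nat_lit 213030) (nat_lit 11) (.e (nat_lit 24617) (nat_lit 7) (.e (nat_lit 319531) (nat_lit 16) (.e (nat_lit 286759) (nat_lit 12) (.e (nat_lit 385092) (nat_lit 49) (.e (nat_lit 778336) (nat_lit 9) (.e (nat_lit 2690) (nat_lit 169) .nil))))))) (.g (nat_lit 1) (.e (nat_lit 233869) (nat_lit 0) .nil) .nil)))) (.nd (nat_lit 9) 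
(.lf (nat_lit 525639) (.g (nat_lit 3432) (.e (nat_lit 204885) (nat_lit 33) (.e (nat_lit 401451) (nat_lit 12) (.e (nat_lit 475185) (nat_lit 29) (.e (nat_lit 557101) (nat_lit 13) (.e (nat_lit 172097) (nat_lit 9) .nil))))) (.g (nat_lit 0) (.e (nat_lit 233498) (nat_lit 0) .nil) .nil))) 
(.lf (nat_lit 526151) (.g (nat_lit 2586) (.e (nat_lit 213030) (nat_lit 11) (.e (nat_lit 24659) (nat_lit 13) (.e (nat_lit 393281) (nat_lit 23) (.e (nat_lit 426098) (nat_lit 1) (.e (nat_lit 164327) (nat_lit 230) (.e (nat_lit 163882) (nat_lit 4) .nil)))))) (.g (nat_lit 1) (.e (nat_lit 234149) (nat_lit 0) .nil) .nil))))) (.nd (nat_lit 8) (.nd (nat_lit 9) 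
(.lf (nat_lit 525511) (.g (nat_lit 576) (.e (nat_lit 204885) (nat_lit 33) (.e (nat_lit 401437) (nat_lit 9) (.e (nat_lit 426364) (nat_lit 15) .nil))) (.g (nat_lit 0) (.e (nat_lit 233130) (nat_lit 0) .nil) .nil))) 
(.lf (nat_lit 526023) (.g (nat_lit 1813) (.e (nat_lit 213030) (nat_lit 11) (.e (nat_lit 24626) (nat_lit 9) (.e (nat_lit 336443) (nat_lit 32) (.e (nat_lit 466971) (nat_lit 21) (.e (nat_lit 164329) (nat_lit 230) .nil))))) (.g (nat_lit 0) (.e (nat_lit 234000) (nat_lit 0) .nil) .nil)))) (.nd (nat_lit 9) 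
(.lf (nat_lit 525767) (.g (nat_lit 2708) (.e (nat_lit 220928) (nat_lit 6) (.e (nat_lit 81959) (nat_lit 24) (.e (nat_lit 123182) (nat_lit 264) (.e (nat_lit 1296) (nat_lit 96) (.e (nat_lit 131105) (nat_lit 9) .nil))))) (.g (nat_lit 0) (.e (nat_lit 233660) (nat_lit 0) .nil) .nil))) 
(.lf (nat_lit 526279) (.g (nat_lit 1356) (.e (nat_lit 213032) (nat_lit 11) (.e (nat_lit 24605) (nat_lit 2) (.e (nat_lit 90185) (nat_lit 17) (.e (nat_lit 237618) (nat_lit 12) .nil)))) (.g (nat_lit 0) (.e (nat_lit 234446) (nat_lit 0) .nil) .nil))))))) (.nd (nat_lit 6) (.nd (nat_lit 7) (.nd (nat_lit 8) (.nd (nat_lit 9) 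
(.lf (nat_lit 525351) (.g (nat_lit 3147) (.e (nat_lit 204882) (nat_lit 32) (.e (nat_lit 385068) (nat_lit 26) (.e (nat_lit 532534) (nat_lit 9) (.e (nat_lit 336316) (nat_lit 17) (.e (nat_lit 196681) (nat_lit 17) (.e (nat_lit 139008) (nat_lit 18) .nil)))))) (.g (nat_lit 1) (.e (nat_lit 232772) (nat_lit 0) .nil) .nil))) 
(.lf (nat_lit 525863) (.g (nat_lit 2585) (.e (nat_lit 213030) (nat_lit 11) (.e (nat_lit 24608) (nat_lit 3) (.e (nat_lit 98381) (nat_lit 31) (.e (nat_lit 466947) (nat_lit 0) (.e (nat_lit 1800) (nat_lit 119) (.e (nat_lit 516124) (nat_lit 2) .nil)))))) (.g (nat_lit 1) (.e (nat_lit 233825) (nat_lit 0) .nil) .nil)))) (.nd (nat_lit 9) 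
(.lf (nat_lit 525607) (.g (nat_lit 2211) (.e (nat_lit 204885) (nat_lit 33) (.e (nat_lit 401448) (nat_lit 10) (.e (nat_lit 434245) (nat_lit 28) (.e (nat_lit 573471) (nat_lit 11) (.e (nat_lit 16442) (nat_lit 9) (.e (nat_lit 426135) (nat_lit 3) .nil)))))) (.g (nat_lit 1) (.e (nat_lit 233416) (nat_lit 0) .nil) .nil))) 
(.lf (nat_lit 526119) (.g (nat_lit 917) (.e (nat_lit 213030) (nat_lit 11) (.e (nat_lit 24657) (nat_lit 13) (.e (nat_lit 393269) (nat_lit 23) .nil))) (.g (nat_lit 0) (.e (nat_lit 234117) (nat_lit 0) .nil) .nil))))) (.nd (nat_lit 8) (.nd (nat_lit 9) 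
(.lf (nat_lit 525479) (.g (nat_lit 3480) (.e (nat_lit 204884) (nat_lit 33) (.e (nat_lit 401459) (nat_lit 13) (.e (nat_lit 483337) (nat_lit 9) (.e (nat_lit 426107) (nat_lit 1) (.e (nat_lit 164406) (nat_lit 258) .nil))))) (.g (nat_lit 0) (.e (nat_lit 233071) (nat_lit 0) .nil) .nil))) 
(.lf (nat_lit 525991) (.g (nat_lit 2690) (.e (nat_lit 213030) (nat_lit 11) (.e (nat_lit 24623) (nat_lit 9) (.e (nat_lit 336443) (nat_lit 32) (.e (nat_lit 466972) (nat_lit 21) (.e (nat_lit 164330) (nat_lit 230) .nil))))) (.g (nat_lit 0) (.e (nat_lit 233967) (nat_lit 0) .nil) .nil)))) (.nd (nat_lit 9) 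
(.lf (nat_lit 525735) (.g (nat_lit 832) (.e (nat_lit 220928) (nat_lit 6) (.e (nat_lit 81931) (nat_lit 20) (.e (nat_lit 1999) (nat_lit 137) (.e (nat_lit 663569) (nat_lit 6) (.e (nat_lit 89856) (nat_lit 4) .nil))))) (.g (nat_lit 0) (.e (nat_lit 233628) (nat_lit 0) .nil) .nil))) 
(.lf (nat_lit 526247) (.g (nat_lit 2595) (.e (nat_lit 213032) (nat_lit 11) (.e (nat_lit 24599) (nat_lit 1) (.e (nat_lit 57687) (nat_lit 156) (.e (nat_lit 163933) (nat_lit 17) (.e (nat_lit 466972) (nat_lit 21) (.e (nat_lit 164183) (nat_lit 154) (.e (nat_lit 65280) (nat_lit 65) .nil))))))) (.g (nat_lit 1) (.e (nat_lit 234395) (nat_lit 0) .nil) .nil)))))) 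
(.nd (nat_lit 7) (.nd (nat_lit 8) (.nd (nat_lit 9) 
(.lf (nat_lit 525415) (.g (nat_lit 1103) (.e (nat_lit 204883) (nat_lit 33) (.e (nat_lit 401457) (nat_lit 13) (.e (nat_lit 483341) (nat_lit 9) .nil))) (.g (nat_lit 0) (.e (nat_lit 232890) (nat_lit 0) .nil) .nil))) 
(.lf (nat_lit 525927) (.g (nat_lit 2501) (.e (nat_lit 213030) (nat_lit 11) (.e (nat_lit 24617) (nat_lit 7) (.e (nat_lit 319533) (nat_lit 16) (.e (nat_lit 286753) (nat_lit 10) (.e (nat_lit 344169) (nat_lit 40) (.e (nat_lit 671773) (nat_lit 9) (.e (nat_lit 2699) (nat_lit 169) .nil))))))) (.g (nat_lit 1) (.e (nat_lit 233902) (nat_lit 0) .nil) .nil)))) (.nd (nat_lit 9) 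
(.lf (nat_lit 525671) (.g (nat_lit 1523) (.e (nat_lit 220928) (nat_lit 4) (.e (nat_lit 65628) (nat_lit 14) (.e (nat_lit 401438) (nat_lit 9) (.e (nat_lit 426542) (nat_lit 29) (.e (nat_lit 360192) (nat_lit 4) .nil))))) (.g (nat_lit 0) (.e (nat_lit 233558) (nat_lit 0) .nil) .nil))) 
(.lf (nat_lit 526183) (.g (nat_lit 1903) (.e (nat_lit 213030) (nat_lit 11) (.e (nat_lit 24660) (nat_lit 13) (.e (nat_lit 393284) (nat_lit 24) (.e (nat_lit 434209) (nat_lit 18) (.e (nat_lit 5223) (nat_lit 296) (.e (nat_lit 163881) (nat_lit 4) .nil)))))) (.g (nat_lit 1) (.e (nat_lit 234182) (nat_lit 0) .nil) .nil))))) (.nd (nat_lit 8) (.nd (nat_lit 9) 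
(.lf (nat_lit 525543) (.g (nat_lit 3127) (.e (nat_lit 204885) (nat_lit 33) (.e (nat_lit 401448) (nat_lit 10) (.e (nat_lit 434231) (nat_lit 23) (.e (nat_lit 532490) (nat_lit 0) (.e (nat_lit 6674) (nat_lit 357) (.e (nat_lit 2936) (nat_lit 184) (.e (nat_lit 426129) (nat_lit 3) .nil))))))) (.g (nat_lit 1) (.e (nat_lit 233297) (nat_lit 0) .nil) .nil))) 
(.lf (nat_lit 526055) (.g (nat_lit 2477) (.e (nat_lit 213030) (nat_lit 11) (.e (nat_lit 24628) (nat_lit 9) (.e (nat_lit 336443) (nat_lit 32) (.e (nat_lit 466971) (nat_lit 21) (.e (nat_lit 164326) (nat_lit 230) (.e (nat_lit 163881) (nat_lit 4) .nil)))))) (.g (nat_lit 1) (.e (nat_lit 234032) (nat_lit 0) .nil) .nil)))) (.nd (nat_lit 9) 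
(.lf (nat_lit 525799) (.g (nat_lit 1507) (.e (nat_lit 213022) (nat_lit 9) (.e (nat_lit 2610) (nat_lit 163) (.e (nat_lit 164347) (nat_lit 240) (.e (nat_lit 2639) (nat_lit 165) .nil)))) (.g (nat_lit 0) (.e (nat_lit 233729) (nat_lit 0) .nil) .nil))) 
(.lf (nat_lit 526311) (.g (nat_lit 2184) (.e (nat_lit 213032) (nat_lit 11) (.e (nat_lit 24608) (nat_lit 3) (.e (nat_lit 98365) (nat_lit 26) (.e (nat_lit 426188) (nat_lit 9) (.e (nat_lit 426436) (nat_lit 18) (.e (nat_lit 106240) (nat_lit 19) .nil)))))) (.g (nat_lit 1) (.e (nat_lit 234480) (nat_lit 0) .nil) .nil)))))))) 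
(.nd (nat_lit 5) (.nd (nat_lit 6) (.nd (nat_lit 7) (.nd (nat_lit 8) (.nd (nat_lit 9) 
(.lf (nat_lit 525335) (.g (nat_lit 2855) (.e (nat_lit 204882) (nat_lit 32) (.e (nat_lit 385068) (nat_lit 26) (.e (nat_lit 532530) (nat_lit 9) (.e (nat_lit 336316) (nat_lit 17) (.e (nat_lit 196665) (nat_lit 13) (.e (nat_lit 73472) (nat_lit 18) .nil)))))) (.g (nat_lit 1) (.e (nat_lit 232756) (nat_lit 0) .nil) .nil))) 
(.lf (nat_lit 525847) (.g (nat_lit 2637) (.e (nat_lit 213030) (nat_lit 11) (.e (nat_lit 24607) (nat_lit 3) (.e (nat_lit 98365) (nat_lit 26) (.e (nat_lit 426306) (nat_lit 12) (.e (nat_lit 475179) (nat_lit 24) (.e (nat_lit 516127) (nat_lit 2) .nil)))))) (.g (nat_lit 1) (.e (nat_lit 233807) (nat_lit 0) .nil) .nil)))) (.nd (nat_lit 9) 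
(.lf (nat_lit 525591) (.g (nat_lit 2096) (.e (nat_lit 204885) (nat_lit 33) (.e (nat_lit 401448) (nat_lit 10) (.e (nat_lit 434232) (nat_lit 23) (.e (nat_lit 532569) (nat_lit 16) (.e (nat_lit 401440) (nat_lit 9) (.e (nat_lit 426135) (nat_lit 3) .nil)))))) (.g (nat_lit 1) (.e (nat_lit 233345) (nat_lit 0) .nil) .nil))) 
(.lf (nat_lit 526103) (.g (nat_lit 1758) (.e (nat_lit 213030) (nat_lit 11) (.e (nat_lit 24655) (nat_lit 13) (.e (nat_lit 393273) (nat_lit 23) (.e (nat_lit 426446) (nat_lit 20) (.e (nat_lit 122624) (nat_lit 4) .nil))))) (.g (nat_lit 0) (.e (nat_lit 234101) (nat_lit 0) .nil) .nil))))) (.nd (nat_lit 8) (.nd (nat_lit 9) 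
(.lf (nat_lit 525463) (.g (nat_lit 4019) (.e (nat_lit 204884) (nat_lit 33) (.e (nat_lit 401450) (nat_lit 12) (.e (nat_lit 475185) (nat_lit 29) (.e (nat_lit 557108) (nat_lit 15) (.e (nat_lit 188452) (nat_lit 23) .nil))))) (.g (nat_lit 1) (.e (nat_lit 233044) (nat_lit 0) .nil) .nil))) 
(.lf (nat_lit 525975) (.g (nat_lit 3367) (.e (nat_lit 213030) (nat_lit 11) (.e (nat_lit 24617) (nat_lit 7) (.e (nat_lit 319534) (nat_lit 16) (.e (nat_lit 286756) (nat_lit 10) (.e (nat_lit 344169) (nat_lit 40) (.e (nat_lit 671774) (nat_lit 9) (.e (nat_lit 2698) (nat_lit 169) .nil))))))) (.g (nat_lit 1) (.e (nat_lit 233950) (nat_lit 0) .nil) .nil)))) (.nd (nat_lit 9) 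
(.lf (nat_lit 525719) (.g (nat_lit 792) (.e (nat_lit 220928) (nat_lit 5) (.e (nat_lit 73782) (nat_lit 32) (.e (nat_lit 3089) (nat_lit 191) (.e (nat_lit 483391) (nat_lit 23) .nil)))) (.g (nat_lit 0) (.e (nat_lit 233606) (nat_lit 0) .nil) .nil))) 
(.lf (nat_lit 526231) (.g (nat_lit 1610) (.e (nat_lit 213031) (nat_lit 11) (.e (nat_lit 24657) (nat_lit 13) (.e (nat_lit 393271) (nat_lit 23) (.e (nat_lit 426446) (nat_lit 20) .nil)))) (.g (nat_lit 0) (.e (nat_lit 234323) (nat_lit 0) .nil) .nil)))))) (.nd (nat_lit 7) (.nd (nat_lit 8) (.nd (nat_lit 9) 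
(.lf (nat_lit 525399) (.g (nat_lit 3310) (.e (nat_lit 204883) (nat_lit 33) (.e (nat_lit 401453) (nat_lit 12) (.e (nat_lit 475184) (nat_lit 29) (.e (nat_lit 557101) (nat_lit 13) (.e (nat_lit 172097) (nat_lit 9) (.e (nat_lit 426140) (nat_lit 3) .nil)))))) (.g (nat_lit 1) (.e (nat_lit 232849) (nat_lit 0) .nil) .nil))) 
(.lf (nat_lit 525911) (.g (nat_lit 1643) (.e (nat_lit 213030) (nat_lit 11) (.e (nat_lit 24617) (nat_lit 7) (.e (nat_lit 319533) (nat_lit 16) (.e (nat_lit 286752) (nat_lit 10) .nil)))) (.g (nat_lit 0) (.e (nat_lit 233886) (nat_lit 0) .nil) .nil)))) (.nd (nat_lit 9) 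
(.lf (nat_lit 525655) (.g (nat_lit 2587) (.e (nat_lit 212736) (nat_lit 33) (.e (nat_lit 401453) (nat_lit 12) (.e (nat_lit 475185) (nat_lit 29) (.e (nat_lit 557101) (nat_lit 13) (.e (nat_lit 172097) (nat_lit 9) .nil))))) (.g (nat_lit 0) (.e (nat_lit 233530) (nat_lit 0) .nil) .nil))) 
(.lf (nat_lit 526167) (.g (nat_lit 2073) (.e (nat_lit 213030) (nat_lit 11) (.e (nat_lit 24660) (nat_lit 13) (.e (nat_lit 393271) (nat_lit 23) (.e (nat_lit 426448) (nat_lit 20) (.e (nat_lit 122624) (nat_lit 4) .nil))))) (.g (nat_lit 1) (.e (nat_lit 234165) (nat_lit 0) .nil) .nil))))) (.nd (nat_lit 8) (.nd (nat_lit 9) 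
(.lf (nat_lit 525527) (.g (nat_lit 1175) (.e (nat_lit 204885) (nat_lit 33) (.e (nat_lit 401448) (nat_lit 10) (.e (nat_lit 434219) (nat_lit 19) (.e (nat_lit 499965) (nat_lit 14) .nil)))) (.g (nat_lit 0) (.e (nat_lit 233276) (nat_lit 0) .nil) .nil))) 
(.lf (nat_lit 526039) (.g (nat_lit 2646) (.e (nat_lit 213030) (nat_lit 11) (.e (nat_lit 24627) (nat_lit 9) (.e (nat_lit 336443) (nat_lit 32) (.e (nat_lit 466971) (nat_lit 21) (.e (nat_lit 164325) (nat_lit 230) (.e (nat_lit 163882) (nat_lit 4) .nil)))))) (.g (nat_lit 1) (.e (nat_lit 234016) (nat_lit 0) .nil) .nil)))) (.nd (nat_lit 9) 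
(.lf (nat_lit 525783) (.g (nat_lit 1395) (.e (nat_lit 213013) (nat_lit 9) (.e (nat_lit 2610) (nat_lit 163) (.e (nat_lit 164347) (nat_lit 240) (.e (nat_lit 2639) (nat_lit 165) .nil)))) (.g (nat_lit 0) (.e (nat_lit 233687) (nat_lit 0) .nil) .nil))) 
(.lf (nat_lit 526295) (.g (nat_lit 3437) (.e (nat_lit 213032) (nat_lit 11) (.e (nat_lit 24608) (nat_lit 3) (.e (nat_lit 98356) (nat_lit 26) (.e (nat_lit 426320) (nat_lit 12) (.e (nat_lit 475179) (nat_lit 24) (.e (nat_lit 516122) (nat_lit 2) .nil)))))) (.g (nat_lit 1) (.e (nat_lit 234463) (nat_lit 0) .nil) .nil))))))) (.nd (nat_lit 6) (.nd (nat_lit 7) (.nd (nat_lit 8) (.nd (nat_lit 9) 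
(.lf (nat_lit 525367) (.g (nat_lit 632) (.e (nat_lit 204882) (nat_lit 32) (.e (nat_lit 385106) (nat_lit 50) (.e (nat_lit 786473) (nat_lit 27) .nil))) (.g (nat_lit 0) (.e (nat_lit 232794) (nat_lit 0) .nil) .nil))) 
(.lf (nat_lit 525879) (.g (nat_lit 1353) (.e (nat_lit 213030) (nat_lit 11) (.e (nat_lit 24617) (nat_lit 7) (.e (nat_lit 319528) (nat_lit 16) (.e (nat_lit 286759) (nat_lit 12) (.e (nat_lit 385094) (nat_lit 49) .nil))))) (.g (nat_lit 0) (.e (nat_lit 233852) (nat_lit 0) .nil) .nil)))) (.nd (nat_lit 9) 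
(.lf (nat_lit 525623) (.g (nat_lit 2939) (.e (nat_lit 204885) (nat_lit 33) (.e (nat_lit 401448) (nat_lit 10) (.e (nat_lit 434248) (nat_lit 28) (.e (nat_lit 573471) (nat_lit 11) (.e (nat_lit 16442) (nat_lit 9) (.e (nat_lit 426135) (nat_lit 3) .nil)))))) (.g (nat_lit 1) (.e (nat_lit 233461) (nat_lit 0) .nil) .nil))) 
(.lf (nat_lit 526135) (.g (nat_lit 2546) (.e (nat_lit 213030) (nat_lit 11) (.e (nat_lit 24658) (nat_lit 13) (.e (nat_lit 393281) (nat_lit 23) (.e (nat_lit 426098) (nat_lit 1) (.e (nat_lit 164325) (nat_lit 230) (.e (nat_lit 163879) (nat_lit 4) .nil)))))) (.g (nat_lit 1) (.e (nat_lit 234133) (nat_lit 0) .nil) .nil))))) (.nd (nat_lit 8) (.nd (nat_lit 9) 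
(.lf (nat_lit 525495) (.g (nat_lit 2458) (.e (nat_lit 204885) (nat_lit 33) (.e (nat_lit 401434) (nat_lit 9) (.e (nat_lit 426125) (nat_lit 2) (.e (nat_lit 196661) (nat_lit 12) (.e (nat_lit 57711) (nat_lit 176) .nil))))) (.g (nat_lit 0) (.e (nat_lit 233098) (nat_lit 0) .nil) .nil))) 
(.lf (nat_lit 526007) (.g (nat_lit 2685) (.e (nat_lit 213030) (nat_lit 11) (.e (nat_lit 24625) (nat_lit 9) (.e (nat_lit 336443) (nat_lit 32) (.e (nat_lit 466971) (nat_lit 21) (.e (nat_lit 164327) (nat_lit 230) (.e (nat_lit 163881) (nat_lit 4) .nil)))))) (.g (nat_lit 1) (.e (nat_lit 233984) (nat_lit 0) .nil) .nil)))) (.nd (nat_lit 9) 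
(.lf (nat_lit 525751) (.g (nat_lit 984) (.e (nat_lit 220928) (nat_lit 6) (.e (nat_lit 81946) (nat_lit 20) (.e (nat_lit 2005) (nat_lit 138) (.e (nat_lit 671764) (nat_lit 6) (.e (nat_lit 89856) (nat_lit 4) .nil))))) (.g (nat_lit 0) (.e (nat_lit 233644) (nat_lit 0) .nil) .nil))) 
(.lf (nat_lit 526263) (.g (nat_lit 3348) (.e (nat_lit 213032) (nat_lit 11) (.e (nat_lit 24604) (nat_lit 2) (.e (nat_lit 90176) (nat_lit 15) (.e (nat_lit 188439) (nat_lit 20) (.e (nat_lit 7936) (nat_lit 200) (.e (nat_lit 557074) (nat_lit 9) (.e (nat_lit 2695) (nat_lit 169) .nil))))))) (.g (nat_lit 1) (.e (nat_lit 234420) (nat_lit 0) .nil) .nil)))))) 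
(.nd (nat_lit 7) (.nd (nat_lit 8) (.nd (nat_lit 9) 
(.lf (nat_lit 525431) (.g (nat_lit 1328) (.e (nat_lit 204883) (nat_lit 33) (.e (nat_lit 401459) (nat_lit 13) (.e (nat_lit 483336) (nat_lit 9) .nil))) (.g (nat_lit 0) (.e (nat_lit 232914) (nat_lit 0) .nil) .nil))) 
(.lf (nat_lit 525943) (.g (nat_lit 2238) (.e (nat_lit 213030) (nat_lit 11) (.e (nat_lit 24617) (nat_lit 7) (.e (nat_lit 319534) (nat_lit 16) (.e (nat_lit 286749) (nat_lit 9) (.e (nat_lit 335997) (nat_lit 1) (.e (nat_lit 57848) (nat_lit 252) (.e (nat_lit 65280) (nat_lit 65) .nil))))))) (.g (nat_lit 1) (.e (nat_lit 233918) (nat_lit 0) .nil) .nil)))) (.nd (nat_lit 9) 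
(.lf (nat_lit 525687) (.g (nat_lit 1976) (.e (nat_lit 220928) (nat_lit 4) (.e (nat_lit 65630) (nat_lit 14) (.e (nat_lit 401457) (nat_lit 13) (.e (nat_lit 483379) (nat_lit 23) .nil)))) (.g (nat_lit 0) (.e (nat_lit 233574) (nat_lit 0) .nil) .nil))) 
(.lf (nat_lit 526199) (.g (nat_lit 1003) (.e (nat_lit 213031) (nat_lit 11) (.e (nat_lit 24607) (nat_lit 3) (.e (nat_lit 98365) (nat_lit 26) (.e (nat_lit 426306) (nat_lit 12) .nil)))) (.g (nat_lit 0) (.e (nat_lit 234289) (nat_lit 0) .nil) .nil))))) (.nd (nat_lit 8) (.nd (nat_lit 9) 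
(.lf (nat_lit 525559) (.g (nat_lit 2573) (.e (nat_lit 204885) (nat_lit 33) (.e (nat_lit 401448) (nat_lit 10) (.e (nat_lit 434231) (nat_lit 23) (.e (nat_lit 532568) (nat_lit 16) (.e (nat_lit 401435) (nat_lit 9) .nil))))) (.g (nat_lit 0) (.e (nat_lit 233313) (nat_lit 0) .nil) .nil))) 
(.lf (nat_lit 526071) (.g (nat_lit 2672) (.e (nat_lit 213030) (nat_lit 11) (.e (nat_lit 24629) (nat_lit 9) (.e (nat_lit 336443) (nat_lit 32) (.e (nat_lit 466971) (nat_lit 21) (.e (nat_lit 164327) (nat_lit 230) (.e (nat_lit 163879) (nat_lit 4) .nil)))))) (.g (nat_lit 1) (.e (nat_lit 234049) (nat_lit 0) .nil) .nil)))) (.nd (nat_lit 9) 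
(.lf (nat_lit 525815) (.g (nat_lit 1656) (.e (nat_lit 213030) (nat_lit 11) (.e (nat_lit 24601) (nat_lit 2) (.e (nat_lit 90185) (nat_lit 17) (.e (nat_lit 237605) (nat_lit 9) (.e (nat_lit 426436) (nat_lit 18) .nil))))) (.g (nat_lit 0) (.e (nat_lit 233775) (nat_lit 0) .nil) .nil))) 
(.lf (nat_lit 526327) (.g (nat_lit 3100) (.e (nat_lit 213032) (nat_lit 11) (.e (nat_lit 24608) (nat_lit 3) (.e (nat_lit 98373) (nat_lit 29) (.e (nat_lit 450563) (nat_lit 0) (.e (nat_lit 7936) (nat_lit 249) .nil))))) (.g (nat_lit 0) (.e (nat_lit 234510) (nat_lit 0) .nil) .nil))))))))) (.nd (nat_lit 4) (.nd (nat_lit 5) (.nd (nat_lit 6) (.nd (nat_lit 7) (.nd (nat_lit 8) (.nd (nat_lit 9) 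
(.lf (nat_lit 525327) (.g (nat_lit 2878) (.e (nat_lit 204882) (nat_lit 32) (.e (nat_lit 385068) (nat_lit 26) (.e (nat_lit 532529) (nat_lit 9) (.e (nat_lit 336316) (nat_lit 17) (.e (nat_lit 196681) (nat_lit 17) (.e (nat_lit 139008) (nat_lit 18) .nil)))))) (.g (nat_lit 1) (.e (nat_lit 232748) (nat_lit 0) .nil) .nil))) 
(.lf (nat_lit 525839) (.g (nat_lit 1333) (.e (nat_lit 213030) (nat_lit 11) (.e (nat_lit 24607) (nat_lit 3) (.e (nat_lit 98365) (nat_lit 26) (.e (nat_lit 426187) (nat_lit 9) (.e (nat_lit 426434) (nat_lit 18) .nil))))) (.g (nat_lit 0) (.e (nat_lit 233799) (nat_lit 0) .nil) .nil)))) (.nd (nat_lit 9) 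
(.lf (nat_lit 525583) (.g (nat_lit 2571) (.e (nat_lit 204885) (nat_lit 33) (.e (nat_lit 401448) (nat_lit 10) (.e (nat_lit 434232) (nat_lit 23) (.e (nat_lit 532566) (nat_lit 15) (.e (nat_lit 385105) (nat_lit 50) (.e (nat_lit 794368) (nat_lit 3) .nil)))))) (.g (nat_lit 1) (.e (nat_lit 233337) (nat_lit 0) .nil) .nil))) 
(.lf (nat_lit 526095) (.g (nat_lit 1516) (.e (nat_lit 213030) (nat_lit 11) (.e (nat_lit 24648) (nat_lit 12) (.e (nat_lit 385109) (nat_lit 51) (.e (nat_lit 802560) (nat_lit 1) .nil)))) (.g (nat_lit 0) (.e (nat_lit 234091) (nat_lit 0) .nil) .nil))))) (.nd (nat_lit 8) (.nd (nat_lit 9) 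
(.lf (nat_lit 525455) (.g (nat_lit 636) (.e (nat_lit 204884) (nat_lit 33) (.e (nat_lit 401448) (nat_lit 10) (.e (nat_lit 434231) (nat_lit 23) .nil))) (.g (nat_lit 0) (.e (nat_lit 232972) (nat_lit 0) .nil) .nil))) 
(.lf (nat_lit 525967) (.g (nat_lit 1743) (.e (nat_lit 213030) (nat_lit 11) (.e (nat_lit 24617) (nat_lit 7) (.e (nat_lit 319534) (nat_lit 16) (.e (nat_lit 286756) (nat_lit 10) (.e (nat_lit 344169) (nat_lit 40) .nil))))) (.g (nat_lit 0) (.e (nat_lit 233942) (nat_lit 0) .nil) .nil)))) (.nd (nat_lit 9) 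
(.lf (nat_lit 525711) (.g (nat_lit 1389) (.e (nat_lit 220928) (nat_lit 5) (.e (nat_lit 73782) (nat_lit 32) (.e (nat_lit 2857) (nat_lit 184) (.e (nat_lit 426540) (nat_lit 29) (.e (nat_lit 360192) (nat_lit 4) .nil))))) (.g (nat_lit 0) (.e (nat_lit 233598) (nat_lit 0) .nil) .nil))) 
(.lf (nat_lit 526223) (.g (nat_lit 931) (.e (nat_lit 213031) (nat_lit 11) (.e (nat_lit 24655) (nat_lit 13) (.e (nat_lit 393275) (nat_lit 23) .nil))) (.g (nat_lit 0) (.e (nat_lit 234313) (nat_lit 0) .nil) .nil)))))) (.nd (nat_lit 7) (.nd (nat_lit 8) (.nd (nat_lit 9) 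
(.lf (nat_lit 525391) (.g (nat_lit 3958) (.e (nat_lit 204883) (nat_lit 33) (.e (nat_lit 401451) (nat_lit 12) (.e (nat_lit 475185) (nat_lit 29) (.e (nat_lit 557097) (nat_lit 13) .nil)))) (.g (nat_lit 0) (.e (nat_lit 232841) (nat_lit 0) .nil) .nil))) 
(.lf (nat_lit 525903) (.g (nat_lit 1663) (.e (nat_lit 213030) (nat_lit 11) (.e (nat_lit 24617) (nat_lit 7) (.e (nat_lit 319532) (nat_lit 16) (.e (nat_lit 286748) (nat_lit 9) (.e (nat_lit 343808) (nat_lit 20) .nil))))) (.g (nat_lit 0) (.e (nat_lit 233877) (nat_lit 0) .nil) .nil)))) (.nd (nat_lit 9) 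
(.lf (nat_lit 525647) (.g (nat_lit 3179) (.e (nat_lit 204885) (nat_lit 33) (.e (nat_lit 401460) (nat_lit 14) (.e (nat_lit 491537) (nat_lit 2) (.e (nat_lit 90176) (nat_lit 15) (.e (nat_lit 188450) (nat_lit 23) .nil))))) (.g (nat_lit 1) (.e (nat_lit 233522) (nat_lit 0) .nil) .nil))) 
(.lf (nat_lit 526159) (.g (nat_lit 1938) (.e (nat_lit 213030) (nat_lit 11) (.e (nat_lit 24659) (nat_lit 13) (.e (nat_lit 393294) (nat_lit 26) (.e (nat_lit 475214) (nat_lit 42) (.e (nat_lit 728832) (nat_lit 4) .nil))))) (.g (nat_lit 1) (.e (nat_lit 234157) (nat_lit 0) .nil) .nil))))) (.nd (nat_lit 8) (.nd (nat_lit 9) 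
(.lf (nat_lit 525519) (.g (nat_lit 4623) (.e (nat_lit 204885) (nat_lit 33) (.e (nat_lit 401446) (nat_lit 10) (.e (nat_lit 434231) (nat_lit 23) (.e (nat_lit 532523) (nat_lit 7) (.e (nat_lit 319538) (nat_lit 19) (.e (nat_lit 311314) (nat_lit 3) .nil)))))) (.g (nat_lit 1) (.e (nat_lit 233155) (nat_lit 0) .nil) .nil))) 
(.lf (nat_lit 526031) (.g (nat_lit 2843) (.e (nat_lit 213030) (nat_lit 11) (.e (nat_lit 24627) (nat_lit 9) (.e (nat_lit 336443) (nat_lit 32) (.e (nat_lit 466969) (nat_lit 21) (.e (nat_lit 164325) (nat_lit 230) (.e (nat_lit 163882) (nat_lit 4) .nil)))))) (.g (nat_lit 1) (.e (nat_lit 234008) (nat_lit 0) .nil) .nil)))) (.nd (nat_lit 9) 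
(.lf (nat_lit 525775) (.g (nat_lit 1609) (.e (nat_lit 220928) (nat_lit 6) (.e (nat_lit 81959) (nat_lit 24) (.e (nat_lit 123195) (nat_lit 266) (.e (nat_lit 57418) (nat_lit 12) .nil)))) (.g (nat_lit 0) (.e (nat_lit 233668) (nat_lit 0) .nil) .nil))) 
(.lf (nat_lit 526287) (.g (nat_lit 3190) (.e (nat_lit 213032) (nat_lit 11) (.e (nat_lit 24607) (nat_lit 3) (.e (nat_lit 98365) (nat_lit 26) (.e (nat_lit 426306) (nat_lit 12) (.e (nat_lit 475179) (nat_lit 24) (.e (nat_lit 516124) (nat_lit 2) .nil)))))) (.g (nat_lit 1) (.e (nat_lit 234454) (nat_lit 0) .nil) .nil))))))) (.nd (nat_lit 6) (.nd (nat_lit 7) (.nd (nat_lit 8) (.nd (nat_lit 9) 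
(.lf (nat_lit 525359) (.g (nat_lit 1446) (.e (nat_lit 204882) (nat_lit 32) (.e (nat_lit 385068) (nat_lit 26) (.e (nat_lit 532566) (nat_lit 15) (.e (nat_lit 385066) (nat_lit 26) (.e (nat_lit 532533) (nat_lit 9) (.e (nat_lit 343808) (nat_lit 18) .nil)))))) (.g (nat_lit 1) (.e (nat_lit 232784) (nat_lit 0) .nil) .nil))) 
(.lf (nat_lit 525871) (.g (nat_lit 1900) (.e (nat_lit 213030) (nat_lit 11) (.e (nat_lit 24609) (nat_lit 3) (.e (nat_lit 98372) (nat_lit 29) (.e (nat_lit 458496) (nat_lit 8) (.e (nat_lit 557065) (nat_lit 9) (.e (nat_lit 2692) (nat_lit 169) .nil)))))) (.g (nat_lit 1) (.e (nat_lit 233834) (nat_lit 0) .nil) .nil)))) (.nd (nat_lit 9) 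
(.lf (nat_lit 525615) (.g (nat_lit 2814) (.e (nat_lit 204885) (nat_lit 33) (.e (nat_lit 401448) (nat_lit 10) (.e (nat_lit 434246) (nat_lit 28) (.e (nat_lit 573471) (nat_lit 11) (.e (nat_lit 16444) (nat_lit 9) (.e (nat_lit 426129) (nat_lit 3) .nil)))))) (.g (nat_lit 1) (.e (nat_lit 233432) (nat_lit 0) .nil) .nil))) 
(.lf (nat_lit 526127) (.g (nat_lit 2613) (.e (nat_lit 213030) (nat_lit 11) (.e (nat_lit 24657) (nat_lit 13) (.e (nat_lit 393271) (nat_lit 23) (.e (nat_lit 426448) (nat_lit 20) (.e (nat_lit 122624) (nat_lit 4) .nil))))) (.g (nat_lit 1) (.e (nat_lit 234125) (nat_lit 0) .nil) .nil))))) (.nd (nat_lit 8) (.nd (nat_lit 9) 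
(.lf (nat_lit 525487) (.g (nat_lit 2082) (.e (nat_lit 204884) (nat_lit 33) (.e (nat_lit 401459) (nat_lit 13) (.e (nat_lit 483344) (nat_lit 17) (.e (nat_lit 7936) (nat_lit 153) .nil)))) (.g (nat_lit 0) (.e (nat_lit 233083) (nat_lit 0) .nil) .nil))) 
(.lf (nat_lit 525999) (.g (nat_lit 2722) (.e (nat_lit 213030) (nat_lit 11) (.e (nat_lit 24625) (nat_lit 9) (.e (nat_lit 336443) (nat_lit 32) (.e (nat_lit 466969) (nat_lit 21) (.e (nat_lit 164325) (nat_lit 230) (.e (nat_lit 163882) (nat_lit 4) .nil)))))) (.g (nat_lit 1) (.e (nat_lit 233976) (nat_lit 0) .nil) .nil)))) (.nd (nat_lit 9) 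
(.lf (nat_lit 525743) (.g (nat_lit 582) (.e (nat_lit 220928) (nat_lit 6) (.e (nat_lit 81938) (nat_lit 20) (.e (nat_lit 2005) (nat_lit 138) (.e (nat_lit 671764) (nat_lit 6) .nil)))) (.g (nat_lit 0) (.e (nat_lit 233636) (nat_lit 0) .nil) .nil))) 
(.lf (nat_lit 526255) (.g (nat_lit 3208) (.e (nat_lit 213032) (nat_lit 11) (.e (nat_lit 24604) (nat_lit 2) (.e (nat_lit 90170) (nat_lit 13) (.e (nat_lit 172118) (nat_lit 12) (.e (nat_lit 475179) (nat_lit 24) .nil))))) (.g (nat_lit 0) (.e (nat_lit 234405) (nat_lit 0) .nil) .nil)))))) (.nd (nat_lit 7) (.nd (nat_lit 8) (.nd (nat_lit 9) 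
(.lf (nat_lit 525423) (.g (nat_lit 1324) (.e (nat_lit 204883) (nat_lit 33) (.e (nat_lit 401457) (nat_lit 13) (.e (nat_lit 483346) (nat_lit 17) (.e (nat_lit 7936) (nat_lit 153) .nil)))) (.g (nat_lit 0) (.e (nat_lit 232898) (nat_lit 0) .nil) .nil))) 
(.lf (nat_lit 525935) (.g (nat_lit 2521) (.e (nat_lit 213030) (nat_lit 11) (.e (nat_lit 24617) (nat_lit 7) (.e (nat_lit 319533) (nat_lit 16) (.e (nat_lit 286759) (nat_lit 12) (.e (nat_lit 385107) (nat_lit 51) (.e (nat_lit 794676) (nat_lit 24) .nil)))))) (.g (nat_lit 1) (.e (nat_lit 233910) (nat_lit 0) .nil) .nil)))) (.nd (nat_lit 9) 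
(.lf (nat_lit 525679) (.g (nat_lit 1771) (.e (nat_lit 220928) (nat_lit 4) (.e (nat_lit 65630) (nat_lit 14) (.e (nat_lit 401437) (nat_lit 9) (.e (nat_lit 426555) (nat_lit 32) (.e (nat_lit 384768) (nat_lit 4) .nil))))) (.g (nat_lit 0) (.e (nat_lit 233566) (nat_lit 0) .nil) .nil))) 
(.lf (nat_lit 526191) (.g (nat_lit 2067) (.e (nat_lit 213030) (nat_lit 11) (.e (nat_lit 24660) (nat_lit 13) (.e (nat_lit 393294) (nat_lit 26) (.e (nat_lit 475214) (nat_lit 42) (.e (nat_lit 728832) (nat_lit 4) .nil))))) (.g (nat_lit 1) (.e (nat_lit 234194) (nat_lit 0) .nil) .nil))))) (.nd (nat_lit 8) (.nd (nat_lit 9) 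
(.lf (nat_lit 525551) (.g (nat_lit 3756) (.e (nat_lit 204885) (nat_lit 33) (.e (nat_lit 401448) (nat_lit 10) (.e (nat_lit 434231) (nat_lit 23) (.e (nat_lit 532523) (nat_lit 7) (.e (nat_lit 319537) (nat_lit 19) .nil))))) (.g (nat_lit 0) (.e (nat_lit 233305) (nat_lit 0) .nil) .nil))) 
(.lf (nat_lit 526063) (.g (nat_lit 1280) (.e (nat_lit 213030) (nat_lit 11) (.e (nat_lit 24629) (nat_lit 9) (.e (nat_lit 336434) (nat_lit 30) (.e (nat_lit 450564) (nat_lit 0) (.e (nat_lit 5223) (nat_lit 296) (.e (nat_lit 163879) (nat_lit 4) .nil)))))) (.g (nat_lit 1) (.e (nat_lit 234040) (nat_lit 0) .nil) .nil)))) (.nd (nat_lit 9) 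
(.lf (nat_lit 525807) (.g (nat_lit 2353) (.e (nat_lit 213019) (nat_lit 9) (.e (nat_lit 2681) (nat_lit 168) (.e (nat_lit 204829) (nat_lit 18) (.e (nat_lit 57931) (nat_lit 282) (.e (nat_lit 163866) (nat_lit 2) .nil))))) (.g (nat_lit 0) (.e (nat_lit 233761) (nat_lit 0) .nil) .nil))) 
(.lf (nat_lit 526319) (.g (nat_lit 322) (.e (nat_lit 213032) (nat_lit 11) (.e (nat_lit 24608) (nat_lit 3) (.e (nat_lit 98369) (nat_lit 28) .nil))) (.g (nat_lit 0) (.e (nat_lit 234489) (nat_lit 0) .nil) .nil)))))))) (.nd (nat_lit 5) (.nd (nat_lit 6) (.nd (nat_lit 7) (.nd (nat_lit 8) (.nd (nat_lit 9) 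
(.lf (nat_lit 525343) (.g (nat_lit 2634) (.e (nat_lit 204882) (nat_lit 32) (.e (nat_lit 385068) (nat_lit 26) (.e (nat_lit 532530) (nat_lit 9) (.e (nat_lit 336326) (nat_lit 18) (.e (nat_lit 204859) (nat_lit 26) (.e (nat_lit 343808) (nat_lit 18) .nil)))))) (.g (nat_lit 1) (.e (nat_lit 232764) (nat_lit 0) .nil) .nil))) 
(.lf (nat_lit 525855) (.g (nat_lit 3024) (.e (nat_lit 213030) (nat_lit 11) (.e (nat_lit 24608) (nat_lit 3) (.e (nat_lit 98365) (nat_lit 26) (.e (nat_lit 426306) (nat_lit 12) (.e (nat_lit 475177) (nat_lit 24) (.e (nat_lit 516125) (nat_lit 2) .nil)))))) (.g (nat_lit 1) (.e (nat_lit 233816) (nat_lit 0) .nil) .nil)))) (.nd (nat_lit 9) 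
(.lf (nat_lit 525599) (.g (nat_lit 2291) (.e (nat_lit 204885) (nat_lit 33) (.e (nat_lit 401448) (nat_lit 10) (.e (nat_lit 434244) (nat_lit 28) (.e (nat_lit 573470) (nat_lit 11) (.e (nat_lit 16436) (nat_lit 9) .nil))))) (.g (nat_lit 0) (.e (nat_lit 233393) (nat_lit 0) .nil) .nil))) 
(.lf (nat_lit 526111) (.g (nat_lit 1380) (.e (nat_lit 213030) (nat_lit 11) (.e (nat_lit 24655) (nat_lit 13) (.e (nat_lit 393296) (nat_lit 26) (.e (nat_lit 475215) (nat_lit 43) .nil)))) (.g (nat_lit 0) (.e (nat_lit 234109) (nat_lit 0) .nil) .nil))))) (.nd (nat_lit 8) (.nd (nat_lit 9) 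
(.lf (nat_lit 525471) (.g (nat_lit 2394) (.e (nat_lit 204884) (nat_lit 33) (.e (nat_lit 401453) (nat_lit 12) (.e (nat_lit 475183) (nat_lit 29) (.e (nat_lit 557107) (nat_lit 15) (.e (nat_lit 188450) (nat_lit 23) .nil))))) (.g (nat_lit 1) (.e (nat_lit 233053) (nat_lit 0) .nil) .nil))) 
(.lf (nat_lit 525983) (.g (nat_lit 2710) (.e (nat_lit 213030) (nat_lit 11) (.e (nat_lit 24617) (nat_lit 7) (.e (nat_lit 319534) (nat_lit 16) (.e (nat_lit 286759) (nat_lit 12) (.e (nat_lit 385107) (nat_lit 51) (.e (nat_lit 794679) (nat_lit 24) .nil)))))) (.g (nat_lit 1) (.e (nat_lit 233958) (nat_lit 0) .nil) .nil)))) (.nd (nat_lit 9) 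
(.lf (nat_lit 525727) (.g (nat_lit 1275) (.e (nat_lit 220928) (nat_lit 6) (.e (nat_lit 81922) (nat_lit 0) (.e (nat_lit 3747) (nat_lit 228) (.e (nat_lit 786473) (nat_lit 27) (.e (nat_lit 336121) (nat_lit 9) .nil))))) (.g (nat_lit 0) (.e (nat_lit 233616) (nat_lit 0) .nil) .nil))) 
(.lf (nat_lit 526239) (.g (nat_lit 1677) (.e (nat_lit 213031) (nat_lit 11) (.e (nat_lit 24660) (nat_lit 13) (.e (nat_lit 393271) (nat_lit 23) (.e (nat_lit 426112) (nat_lit 1) (.e (nat_lit 164327) (nat_lit 230) .nil))))) (.g (nat_lit 0) (.e (nat_lit 234331) (nat_lit 0) .nil) .nil)))))) (.nd (nat_lit 7) (.nd (nat_lit 8) (.nd (nat_lit 9) 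
(.lf (nat_lit 525407) (.g (nat_lit 3423) (.e (nat_lit 204883) (nat_lit 33) (.e (nat_lit 401454) (nat_lit 12) (.e (nat_lit 475184) (nat_lit 29) (.e (nat_lit 557101) (nat_lit 13) (.e (nat_lit 172097) (nat_lit 9) (.e (nat_lit 426140) (nat_lit 3) .nil)))))) (.g (nat_lit 1) (.e (nat_lit 232876) (nat_lit 0) .nil) .nil))) 
(.lf (nat_lit 525919) (.g (nat_lit 2465) (.e (nat_lit 213030) (nat_lit 11) (.e (nat_lit 24617) (nat_lit 7) (.e (nat_lit 319533) (nat_lit 16) (.e (nat_lit 286753) (nat_lit 10) (.e (nat_lit 344168) (nat_lit 40) (.e (nat_lit 671774) (nat_lit 9) (.e (nat_lit 2698) (nat_lit 169) .nil))))))) (.g (nat_lit 1) (.e (nat_lit 233894) (nat_lit 0) .nil) .nil)))) (.nd (nat_lit 9) 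
(.lf (nat_lit 525663) (.g (nat_lit 1294) (.e (nat_lit 220928) (nat_lit 3) (.e (nat_lit 57464) (nat_lit 23) (.e (nat_lit 516115) (nat_lit 1) (.e (nat_lit 164325) (nat_lit 230) .nil)))) (.g (nat_lit 0) (.e (nat_lit 233542) (nat_lit 0) .nil) .nil))) 
(.lf (nat_lit 526175) (.g (nat_lit 2384) (.e (nat_lit 213030) (nat_lit 11) (.e (nat_lit 24660) (nat_lit 13) (.e (nat_lit 393282) (nat_lit 24) (.e (nat_lit 434209) (nat_lit 18) (.e (nat_lit 5224) (nat_lit 296) (.e (nat_lit 163879) (nat_lit 4) .nil)))))) (.g (nat_lit 1) (.e (nat_lit 234173) (nat_lit 0) .nil) .nil))))) (.nd (nat_lit 8) (.nd (nat_lit 9) 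
(.lf (nat_lit 525535) (.g (nat_lit 1469) (.e (nat_lit 204885) (nat_lit 33) (.e (nat_lit 401448) (nat_lit 10) (.e (nat_lit 434231) (nat_lit 23) (.e (nat_lit 532481) (nat_lit 0) .nil)))) (.g (nat_lit 0) (.e (nat_lit 233289) (nat_lit 0) .nil) .nil))) 
(.lf (nat_lit 526047) (.g (nat_lit 3221) (.e (nat_lit 213030) (nat_lit 11) (.e (nat_lit 24627) (nat_lit 9) (.e (nat_lit 336443) (nat_lit 32) (.e (nat_lit 466972) (nat_lit 21) (.e (nat_lit 164330) (nat_lit 230) (.e (nat_lit 163880) (nat_lit 4) .nil)))))) (.g (nat_lit 1) (.e (nat_lit 234024) (nat_lit 0) .nil) .nil)))) (.nd (nat_lit 9) 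
(.lf (nat_lit 525791) (.g (nat_lit 2290) (.e (nat_lit 213013) (nat_lit 9) (.e (nat_lit 2684) (nat_lit 168) (.e (nat_lit 204829) (nat_lit 18) (.e (nat_lit 57931) (nat_lit 282) (.e (nat_lit 163867) (nat_lit 2) .nil))))) (.g (nat_lit 0) (.e (nat_lit 233710) (nat_lit 0) .nil) .nil))) 
(.lf (nat_lit 526303) (.g (nat_lit 377) (.e (nat_lit 213032) (nat_lit 11) (.e (nat_lit 24608) (nat_lit 3) (.e (nat_lit 98363) (nat_lit 26) .nil))) (.g (nat_lit 0) (.e (nat_lit 234471) (nat_lit 0) .nil) .nil))))))) (.nd (nat_lit 6) (.nd (nat_lit 7) (.nd (nat_lit 8) (.nd (nat_lit 9) 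
(.lf (nat_lit 525375) (.g (nat_lit 1663) (.e (nat_lit 212736) (nat_lit 32) (.e (nat_lit 385105) (nat_lit 50) (.e (nat_lit 786450) (nat_lit 15) (.e (nat_lit 1853) (nat_lit 124) .nil)))) (.g (nat_lit 0) (.e (nat_lit 232807) (nat_lit 0) .nil) .nil))) 
(.lf (nat_lit 525887) (.g (nat_lit 983) (.e (nat_lit 213030) (nat_lit 11) (.e (nat_lit 24617) (nat_lit 7) (.e (nat_lit 319530) (nat_lit 16) (.e (nat_lit 286759) (nat_lit 12) .nil)))) (.g (nat_lit 0) (.e (nat_lit 233861) (nat_lit 0) .nil) .nil)))) (.nd (nat_lit 9) 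
(.lf (nat_lit 525631) (.g (nat_lit 1972) (.e (nat_lit 204885) (nat_lit 33) (.e (nat_lit 401451) (nat_lit 12) (.e (nat_lit 475178) (nat_lit 24) .nil))) (.g (nat_lit 0) (.e (nat_lit 233486) (nat_lit 0) .nil) .nil))) 
(.lf (nat_lit 526143) (.g (nat_lit 2034) (.e (nat_lit 213030) (nat_lit 11) (.e (nat_lit 24659) (nat_lit 13) (.e (nat_lit 393271) (nat_lit 23) (.e (nat_lit 426112) (nat_lit 1) (.e (nat_lit 164326) (nat_lit 230) (.e (nat_lit 163882) (nat_lit 4) .nil)))))) (.g (nat_lit 1) (.e (nat_lit 234141) (nat_lit 0) .nil) .nil))))) (.nd (nat_lit 8) (.nd (nat_lit 9) 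
(.lf (nat_lit 525503) (.g (nat_lit 2366) (.e (nat_lit 204885) (nat_lit 33) (.e (nat_lit 401434) (nat_lit 9) (.e (nat_lit 426125) (nat_lit 2) (.e (nat_lit 196661) (nat_lit 12) (.e (nat_lit 65280) (nat_lit 208) (.e (nat_lit 237591) (nat_lit 3) .nil)))))) (.g (nat_lit 1) (.e (nat_lit 233111) (nat_lit 0) .nil) .nil))) 
(.lf (nat_lit 526015) (.g (nat_lit 2831) (.e (nat_lit 213030) (nat_lit 11) (.e (nat_lit 24626) (nat_lit 9) (.e (nat_lit 336443) (nat_lit 32) (.e (nat_lit 466969) (nat_lit 21) (.e (nat_lit 164326) (nat_lit 230) (.e (nat_lit 163882) (nat_lit 4) .nil)))))) (.g (nat_lit 1) (.e (nat_lit 233992) (nat_lit 0) .nil) .nil)))) (.nd (nat_lit 9) 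
(.lf (nat_lit 525759) (.g (nat_lit 781) (.e (nat_lit 220928) (nat_lit 6) (.e (nat_lit 81957) (nat_lit 24) (.e (nat_lit 123185) (nat_lit 264) (.e (nat_lit 1223) (nat_lit 90) .nil)))) (.g (nat_lit 0) (.e (nat_lit 233652) (nat_lit 0) .nil) .nil))) 
(.lf (nat_lit 526271) (.g (nat_lit 2173) (.e (nat_lit 213032) (nat_lit 11) (.e (nat_lit 24604) (nat_lit 2) (.e (nat_lit 90185) (nat_lit 17) (.e (nat_lit 237605) (nat_lit 9) (.e (nat_lit 426438) (nat_lit 18) (.e (nat_lit 98338) (nat_lit 19) .nil)))))) (.g (nat_lit 1) (.e (nat_lit 234438) (nat_lit 0) .nil) .nil)))))) (.nd (nat_lit 7) (.nd (nat_lit 8) (.nd (nat_lit 9) 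
(.lf (nat_lit 525439) (.g (nat_lit 1580) (.e (nat_lit 204883) (nat_lit 33) (.e (nat_lit 401459) (nat_lit 13) (.e (nat_lit 483344) (nat_lit 17) (.e (nat_lit 2367) (nat_lit 153) .nil)))) (.g (nat_lit 0) (.e (nat_lit 232924) (nat_lit 0) .nil) .nil))) 
(.lf (nat_lit 525951) (.g (nat_lit 2239) (.e (nat_lit 213030) (nat_lit 11) (.e (nat_lit 24617) (nat_lit 7) (.e (nat_lit 319534) (nat_lit 16) (.e (nat_lit 286756) (nat_lit 10) (.e (nat_lit 344097) (nat_lit 18) (.e (nat_lit 5190) (nat_lit 294) (.e (nat_lit 65280) (nat_lit 65) .nil))))))) (.g (nat_lit 1) (.e (nat_lit 233926) (nat_lit 0) .nil) .nil)))) (.nd (nat_lit 9) 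
(.lf (nat_lit 525695) (.g (nat_lit 1963) (.e (nat_lit 220928) (nat_lit 5) (.e (nat_lit 73781) (nat_lit 32) (.e (nat_lit 2856) (nat_lit 184) (.e (nat_lit 426542) (nat_lit 29) (.e (nat_lit 360192) (nat_lit 4) .nil))))) (.g (nat_lit 0) (.e (nat_lit 233582) (nat_lit 0) .nil) .nil))) 
(.lf (nat_lit 526207) (.g (nat_lit 2044) (.e (nat_lit 213031) (nat_lit 11) (.e (nat_lit 24608) (nat_lit 3) (.e (nat_lit 98365) (nat_lit 26) (.e (nat_lit 426306) (nat_lit 12) (.e (nat_lit 475177) (nat_lit 24) .nil))))) (.g (nat_lit 0) (.e (nat_lit 234297) (nat_lit 0) .nil) .nil))))) (.nd (nat_lit 8) (.nd (nat_lit 9) 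
(.lf (nat_lit 525567) (.g (nat_lit 2697) (.e (nat_lit 204885) (nat_lit 33) (.e (nat_lit 401448) (nat_lit 10) (.e (nat_lit 434231) (nat_lit 23) (.e (nat_lit 532569) (nat_lit 16) (.e (nat_lit 401444) (nat_lit 9) (.e (nat_lit 426129) (nat_lit 3) .nil)))))) (.g (nat_lit 1) (.e (nat_lit 233321) (nat_lit 0) .nil) .nil))) 
(.lf (nat_lit 526079) (.g (nat_lit 2728) (.e (nat_lit 213030) (nat_lit 11) (.e (nat_lit 24630) (nat_lit 9) (.e (nat_lit 336443) (nat_lit 32) (.e (nat_lit 466969) (nat_lit 21) (.e (nat_lit 164326) (nat_lit 230) (.e (nat_lit 163881) (nat_lit 4) .nil)))))) (.g (nat_lit 1) (.e (nat_lit 234074) (nat_lit 0) .nil) .nil)))) (.nd (nat_lit 9) 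
(.lf (nat_lit 525823) (.g (nat_lit 2243) (.e (nat_lit 213030) (nat_lit 11) (.e (nat_lit 24604) (nat_lit 2) (.e (nat_lit 90176) (nat_lit 15) (.e (nat_lit 188420) (nat_lit 0) (.e (nat_lit 1800) (nat_lit 119) (.e (nat_lit 516126) (nat_lit 2) .nil)))))) (.g (nat_lit 1) (.e (nat_lit 233783) (nat_lit 0) .nil) .nil))) 
(.lf (nat_lit 526335) (.g (nat_lit 1295) (.e (nat_lit 213032) (nat_lit 11) (.e (nat_lit 24609) (nat_lit 3) (.e (nat_lit 98356) (nat_lit 26) (.e (nat_lit 426320) (nat_lit 12) .nil)))) (.g (nat_lit 0) (.e (nat_lit 234531) (nat_lit 0) .nil) .nil)))))))))))))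

noncomputable def tv5574 : DT := (.nd (nat_lit 0) (.nd (nat_lit 1) (.nd (nat_lit 2) (.nd (nat_lit 3) (.nd (nat_lit 4) (.nd (nat_lit 5) (.nd (nat_lit 6) (.nd (nat_lit 7) (.nd (nat_lit 8) (.nd (nat_lit 9) 
(.lf (nat_lit 526336) (.g (nat_lit 1402) (.e (nat_lit 213032) (nat_lit 11) (.e (nat_lit 24609) (nat_lit 3) (.e (nat_lit 98358) (nat_lit 26) (.e (nat_lit 426319) (nat_lit 12) .nil)))) (.g (nat_lit 0) (.e (nat_lit 234533) (nat_lit 0) .nil) .nil))) 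
(.lf (nat_lit 526848) (.g (nat_lit 1977) (.e (nat_lit 221193) (nat_lit 11) (.e (nat_lit 336074) (nat_lit 9) (.e (nat_lit 336443) (nat_lit 32) (.e (nat_lit 466972) (nat_lit 21) (.e (nat_lit 164330) (nat_lit 230) .nil))))) (.g (nat_lit 0) (.e (nat_lit 235424) (nat_lit 0) .nil) .nil)))) (.nd (nat_lit 9) 
(.lf (nat_lit 526592) (.g (nat_lit 2040) (.e (nat_lit 213033) (nat_lit 12) (.e (nat_lit 163976) (nat_lit 30) (.e (nat_lit 573474) (nat_lit 12) (.e (nat_lit 57528) (nat_lit 46) .nil)))) (.g (nat_lit 0) (.e (nat_lit 235015) (nat_lit 0) .nil) .nil))) 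
(.lf (nat_lit 527104) (.g (nat_lit 1159) (.e (nat_lit 221206) (nat_lit 21) (.e (nat_lit 164324) (nat_lit 230) (.e (nat_lit 163932) (nat_lit 17) (.e (nat_lit 474880) (nat_lit 13) .nil)))) (.g (nat_lit 0) (.e (nat_lit 235859) (nat_lit 0) .nil) .nil))))) (.nd (nat_lit 8) (.nd (nat_lit 9) 
(.lf (nat_lit 526464) (.g (nat_lit 386) (.e (nat_lit 213032) (nat_lit 11) (.e (nat_lit 24655) (nat_lit 13) (.e (nat_lit 393281) (nat_lit 23) .nil))) (.g (nat_lit 0) (.e (nat_lit 234734) (nat_lit 0) .nil) .nil))) 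
(.lf (nat_lit 526976) (.g (nat_lit 727) (.e (nat_lit 229120) (nat_lit 11) (.e (nat_lit 336019) (nat_lit 3) (.e (nat_lit 98369) (nat_lit 28) .nil))) (.g (nat_lit 0) (.e (nat_lit 235589) (nat_lit 0) .nil) .nil)))) (.nd (nat_lit 9) 
(.lf (nat_lit 526720) (.g (nat_lit 1550) (.e (nat_lit 229120) (nat_lit 5) (.e (nat_lit 114698) (nat_lit 11) (.e (nat_lit 426198) (nat_lit 9) (.e (nat_lit 426542) (nat_lit 29) (.e (nat_lit 360192) (nat_lit 5) .nil))))) (.g (nat_lit 0) (.e (nat_lit 235281) (nat_lit 0) .nil) .nil))) 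
(.lf (nat_lit 527232) (.g (nat_lit 2965) (.e (nat_lit 221210) (nat_lit 22) (.e (nat_lit 196656) (nat_lit 11) (.e (nat_lit 16436) (nat_lit 9) (.e (nat_lit 426131) (nat_lit 3) (.e (nat_lit 204852) (nat_lit 26) (.e (nat_lit 343808) (nat_lit 20) .nil)))))) (.g (nat_lit 1) (.e (nat_lit 237301) (nat_lit 0) .nil) .nil)))))) (.nd (nat_lit 7) (.nd (nat_lit 8) (.nd (nat_lit 9) 
(.lf (nat_lit 526400) (.g (nat_lit 2705) (.e (nat_lit 213032) (nat_lit 11) (.e (nat_lit 24627) (nat_lit 9) (.e (nat_lit 336443) (nat_lit 32) (.e (nat_lit 466971) (nat_lit 21) (.e (nat_lit 164325) (nat_lit 230) (.e (nat_lit 163879) (nat_lit 4) .nil)))))) (.g (nat_lit 1) (.e (nat_lit 234604) (nat_lit 0) .nil) .nil))) 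
(.lf (nat_lit 526912) (.g (nat_lit 577) (.e (nat_lit 221194) (nat_lit 11) (.e (nat_lit 336076) (nat_lit 9) (.e (nat_lit 336366) (nat_lit 27) .nil))) (.g (nat_lit 0) (.e (nat_lit 235508) (nat_lit 0) .nil) .nil)))) (.nd (nat_lit 9) 
(.lf (nat_lit 526656) (.g (nat_lit 1922) (.e (nat_lit 213037) (nat_lit 13) (.e (nat_lit 229433) (nat_lit 25) (.e (nat_lit 532499) (nat_lit 1) (.e (nat_lit 57926) (nat_lit 282) (.e (nat_lit 163869) (nat_lit 2) .nil))))) (.g (nat_lit 0) (.e (nat_lit 235137) (nat_lit 0) .nil) .nil))) 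
(.lf (nat_lit 527168) (.g (nat_lit 1450) (.e (nat_lit 221208) (nat_lit 21) (.e (nat_lit 164330) (nat_lit 230) (.e (nat_lit 163846) (nat_lit 0) (.e (nat_lit 6989) (nat_lit 377) (.e (nat_lit 977) (nat_lit 81) (.e (nat_lit 5629) (nat_lit 312) (.e (nat_lit 311) (nat_lit 23) (.e (nat_lit 360192) (nat_lit 5) .nil)))))))) (.g (nat_lit 1) (.e (nat_lit 236860) (nat_lit 0) .nil) .nil))))) 
(.nd (nat_lit 8) (.nd (nat_lit 9) 
(.lf (nat_lit 526528) (.g (nat_lit 1650) (.e (nat_lit 213032) (nat_lit 11) (.e (nat_lit 24658) (nat_lit 13) (.e (nat_lit 393295) (nat_lit 26) (.e (nat_lit 475212) (nat_lit 42) (.e (nat_lit 728832) (nat_lit 4) .nil))))) (.g (nat_lit 0) (.e (nat_lit 234832) (nat_lit 0) .nil) .nil))) 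
(.lf (nat_lit 527040) (.g (nat_lit 2263) (.e (nat_lit 221202) (nat_lit 20) (.e (nat_lit 3249) (nat_lit 197) (.e (nat_lit 532499) (nat_lit 1) (.e (nat_lit 57926) (nat_lit 282) (.e (nat_lit 163871) (nat_lit 2) .nil))))) (.g (nat_lit 0) (.e (nat_lit 235691) (nat_lit 0) .nil) .nil)))) (.nd (nat_lit 9) 
(.lf (nat_lit 526784) (.g (nat_lit 1238) (.e (nat_lit 221190) (nat_lit 11) (.e (nat_lit 336078) (nat_lit 9) (.e (nat_lit 336443) (nat_lit 32) (.e (nat_lit 466972) (nat_lit 21) .nil)))) (.g (nat_lit 0) (.e (nat_lit 235346) (nat_lit 0) .nil) .nil))) 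
(.lf (nat_lit 527296) (.g (nat_lit 1875) (.e (nat_lit 221210) (nat_lit 22) (.e (nat_lit 196668) (nat_lit 14) (.e (nat_lit 73747) (nat_lit 3) (.e (nat_lit 516115) (nat_lit 1) (.e (nat_lit 164179) (nat_lit 154) .nil))))) (.g (nat_lit 0) (.e (nat_lit 237603) (nat_lit 0) .nil) .nil))))))) (.nd (nat_lit 6) (.nd (nat_lit 7) (.nd (nat_lit 8) (.nd (nat_lit 9) 
(.lf (nat_lit 526368) (.g (nat_lit 2802) (.e (nat_lit 213032) (nat_lit 11) (.e (nat_lit 24625) (nat_lit 9) (.e (nat_lit 336443) (nat_lit 32) (.e (nat_lit 466971) (nat_lit 21) (.e (nat_lit 164322) (nat_lit 230) (.e (nat_lit 163878) (nat_lit 4) .nil)))))) (.g (nat_lit 1) (.e (nat_lit 234572) (nat_lit 0) .nil) .nil))) 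
(.lf (nat_lit 526880) (.g (nat_lit 1719) (.e (nat_lit 221194) (nat_lit 11) (.e (nat_lit 336012) (nat_lit 2) (.e (nat_lit 90172) (nat_lit 14) (.e (nat_lit 180285) (nat_lit 45) (.e (nat_lit 2429) (nat_lit 157) (.e (nat_lit 598) (nat_lit 45) (.e (nat_lit 540416) (nat_lit 20) .nil))))))) (.g (nat_lit 1) (.e (nat_lit 235473) (nat_lit 0) .nil) .nil)))) (.nd (nat_lit 9) 
(.lf (nat_lit 526624) (.g (nat_lit 3599) (.e (nat_lit 213034) (nat_lit 12) (.e (nat_lit 163979) (nat_lit 30) (.e (nat_lit 573474) (nat_lit 12) (.e (nat_lit 57528) (nat_lit 46) (.e (nat_lit 704514) (nat_lit 0) .nil))))) (.g (nat_lit 0) (.e (nat_lit 235083) (nat_lit 0) .nil) .nil))) 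
(.lf (nat_lit 527136) (.g (nat_lit 1069) (.e (nat_lit 221207) (nat_lit 21) (.e (nat_lit 164322) (nat_lit 230) (.e (nat_lit 163919) (nat_lit 14) (.e (nat_lit 450304) (nat_lit 16) .nil)))) (.g (nat_lit 0) (.e (nat_lit 236290) (nat_lit 0) .nil) .nil))))) (.nd (nat_lit 8) (.nd (nat_lit 9) 
(.lf (nat_lit 526496) (.g (nat_lit 3052) (.e (nat_lit 213032) (nat_lit 11) (.e (nat_lit 24657) (nat_lit 13) (.e (nat_lit 393271) (nat_lit 23) (.e (nat_lit 426112) (nat_lit 1) (.e (nat_lit 164327) (nat_lit 230) (.e (nat_lit 163879) (nat_lit 4) .nil)))))) (.g (nat_lit 1) (.e (nat_lit 234773) (nat_lit 0) .nil) .nil))) 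
(.lf (nat_lit 527008) (.g (nat_lit 1536) (.e (nat_lit 229120) (nat_lit 12) (.e (nat_lit 344107) (nat_lit 19) (.e (nat_lit 499915) (nat_lit 9) (.e (nat_lit 172120) (nat_lit 12) (.e (nat_lit 475179) (nat_lit 24) .nil))))) (.g (nat_lit 0) (.e (nat_lit 235650) (nat_lit 0) .nil) .nil)))) (.nd (nat_lit 9) 
(.lf (nat_lit 526752) (.g (nat_lit 1107) (.e (nat_lit 229120) (nat_lit 5) (.e (nat_lit 114698) (nat_lit 11) (.e (nat_lit 426333) (nat_lit 13) (.e (nat_lit 483391) (nat_lit 23) (.e (nat_lit 343808) (nat_lit 20) .nil))))) (.g (nat_lit 0) (.e (nat_lit 235314) (nat_lit 0) .nil) .nil))) 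
(.lf (nat_lit 527264) (.g (nat_lit 2454) (.e (nat_lit 221210) (nat_lit 22) (.e (nat_lit 196668) (nat_lit 14) (.e (nat_lit 73746) (nat_lit 3) (.e (nat_lit 516115) (nat_lit 1) (.e (nat_lit 164177) (nat_lit 154) (.e (nat_lit 57379) (nat_lit 3) (.e (nat_lit 98340) (nat_lit 20) .nil))))))) (.g (nat_lit 1) (.e (nat_lit 237475) (nat_lit 0) .nil) .nil)))))) 
(.nd (nat_lit 7) (.nd (nat_lit 8) (.nd (nat_lit 9) 
(.lf (nat_lit 526432) (.g (nat_lit 2283) (.e (nat_lit 213032) (nat_lit 11) (.e (nat_lit 24629) (nat_lit 9) (.e (nat_lit 336443) (nat_lit 32) (.e (nat_lit 466971) (nat_lit 21) (.e (nat_lit 164325) (nat_lit 230) (.e (nat_lit 163879) (nat_lit 4) .nil)))))) (.g (nat_lit 1) (.e (nat_lit 234671) (nat_lit 0) .nil) .nil))) 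
(.lf (nat_lit 526944) (.g (nat_lit 2219) (.e (nat_lit 221194) (nat_lit 11) (.e (nat_lit 336088) (nat_lit 9) (.e (nat_lit 336370) (nat_lit 27) (.e (nat_lit 426317) (nat_lit 12) (.e (nat_lit 475214) (nat_lit 42) (.e (nat_lit 728832) (nat_lit 5) .nil)))))) (.g (nat_lit 1) (.e (nat_lit 235540) (nat_lit 0) .nil) .nil)))) (.nd (nat_lit 9) 
(.lf (nat_lit 526688) (.g (nat_lit 2291) (.e (nat_lit 229120) (nat_lit 4) (.e (nat_lit 106536) (nat_lit 11) (.e (nat_lit 16434) (nat_lit 9) (.e (nat_lit 426555) (nat_lit 32) (.e (nat_lit 384768) (nat_lit 5) .nil))))) (.g (nat_lit 0) (.e (nat_lit 235240) (nat_lit 0) .nil) .nil))) 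
(.lf (nat_lit 527200) (.g (nat_lit 1479) (.e (nat_lit 221208) (nat_lit 21) (.e (nat_lit 164402) (nat_lit 256) (.e (nat_lit 57424) (nat_lit 14) (.e (nat_lit 352315) (nat_lit 23) .nil)))) (.g (nat_lit 0) (.e (nat_lit 237112) (nat_lit 0) .nil) .nil))))) (.nd (nat_lit 8) (.nd (nat_lit 9) 
(.lf (nat_lit 526560) (.g (nat_lit 1951) (.e (nat_lit 213032) (nat_lit 11) (.e (nat_lit 24660) (nat_lit 13) (.e (nat_lit 393284) (nat_lit 24) (.e (nat_lit 434209) (nat_lit 18) (.e (nat_lit 5223) (nat_lit 296) (.e (nat_lit 163881) (nat_lit 4) .nil)))))) (.g (nat_lit 1) (.e (nat_lit 234874) (nat_lit 0) .nil) .nil))) 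
(.lf (nat_lit 527072) (.g (nat_lit 4374) (.e (nat_lit 221204) (nat_lit 20) (.e (nat_lit 3253) (nat_lit 197) (.e (nat_lit 532499) (nat_lit 1) (.e (nat_lit 57927) (nat_lit 282) (.e (nat_lit 163874) (nat_lit 3) (.e (nat_lit 204854) (nat_lit 26) (.e (nat_lit 336019) (nat_lit 3) (.e (nat_lit 98341) (nat_lit 20) .nil)))))))) (.g (nat_lit 1) (.e (nat_lit 235726) (nat_lit 0) .nil) .nil)))) 
(.nd (nat_lit 9) 
(.lf (nat_lit 526816) (.g (nat_lit 1724) (.e (nat_lit 221192) (nat_lit 11) (.e (nat_lit 336153) (nat_lit 9) (.e (nat_lit 336442) (nat_lit 32) (.e (nat_lit 466969) (nat_lit 21) (.e (nat_lit 164330) (nat_lit 230) (.e (nat_lit 163884) (nat_lit 5) .nil)))))) (.g (nat_lit 1) (.e (nat_lit 235383) (nat_lit 0) .nil) .nil))) 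
(.lf (nat_lit 527328) (.g (nat_lit 2445) (.e (nat_lit 221210) (nat_lit 22) (.e (nat_lit 196668) (nat_lit 14) (.e (nat_lit 73747) (nat_lit 3) (.e (nat_lit 516120) (nat_lit 1) (.e (nat_lit 164176) (nat_lit 154) .nil))))) (.g (nat_lit 0) (.e (nat_lit 237836) (nat_lit 0) .nil) .nil)))))))) (.nd (nat_lit 5) (.nd (nat_lit 6) (.nd (nat_lit 7) (.nd (nat_lit 8) (.nd (nat_lit 9) 
(.lf (nat_lit 526352) (.g (nat_lit 1769) (.e (nat_lit 213032) (nat_lit 11) (.e (nat_lit 24624) (nat_lit 9) (.e (nat_lit 336443) (nat_lit 32) (.e (nat_lit 466971) (nat_lit 21) (.e (nat_lit 164325) (nat_lit 230) .nil))))) (.g (nat_lit 0) (.e (nat_lit 234551) (nat_lit 0) .nil) .nil))) 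
(.lf (nat_lit 526864) (.g (nat_lit 3236) (.e (nat_lit 221193) (nat_lit 11) (.e (nat_lit 336077) (nat_lit 9) (.e (nat_lit 336443) (nat_lit 32) (.e (nat_lit 466972) (nat_lit 21) (.e (nat_lit 164332) (nat_lit 230) (.e (nat_lit 163885) (nat_lit 5) .nil)))))) (.g (nat_lit 1) (.e (nat_lit 235440) (nat_lit 0) .nil) .nil)))) (.nd (nat_lit 9) 
(.lf (nat_lit 526608) (.g (nat_lit 3099) (.e (nat_lit 213033) (nat_lit 12) (.e (nat_lit 163979) (nat_lit 30) (.e (nat_lit 573474) (nat_lit 12) (.e (nat_lit 57546) (nat_lit 47) .nil)))) (.g (nat_lit 0) (.e (nat_lit 235049) (nat_lit 0) .nil) .nil))) 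
(.lf (nat_lit 527120) (.g (nat_lit 1509) (.e (nat_lit 221206) (nat_lit 21) (.e (nat_lit 164330) (nat_lit 230) (.e (nat_lit 163905) (nat_lit 12) (.e (nat_lit 426227) (nat_lit 9) (.e (nat_lit 433920) (nat_lit 32) (.e (nat_lit 384768) (nat_lit 5) .nil)))))) (.g (nat_lit 1) (.e (nat_lit 236085) (nat_lit 0) .nil) .nil))))) (.nd (nat_lit 8) (.nd (nat_lit 9) 
(.lf (nat_lit 526480) (.g (nat_lit 2601) (.e (nat_lit 213032) (nat_lit 11) (.e (nat_lit 24655) (nat_lit 13) (.e (nat_lit 393296) (nat_lit 26) (.e (nat_lit 475214) (nat_lit 42) (.e (nat_lit 728832) (nat_lit 4) .nil))))) (.g (nat_lit 1) (.e (nat_lit 234757) (nat_lit 0) .nil) .nil))) 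
(.lf (nat_lit 526992) (.g (nat_lit 1775) (.e (nat_lit 229120) (nat_lit 11) (.e (nat_lit 336454) (nat_lit 34) (.e (nat_lit 483380) (nat_lit 23) (.e (nat_lit 336326) (nat_lit 18) (.e (nat_lit 212736) (nat_lit 3) .nil))))) (.g (nat_lit 0) (.e (nat_lit 235630) (nat_lit 0) .nil) .nil)))) (.nd (nat_lit 9) 
(.lf (nat_lit 526736) (.g (nat_lit 2606) (.e (nat_lit 229120) (nat_lit 5) (.e (nat_lit 114698) (nat_lit 11) (.e (nat_lit 426325) (nat_lit 13) (.e (nat_lit 483378) (nat_lit 23) .nil)))) (.g (nat_lit 0) (.e (nat_lit 235297) (nat_lit 0) .nil) .nil))) 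
(.lf (nat_lit 527248) (.g (nat_lit 4139) (.e (nat_lit 221210) (nat_lit 22) (.e (nat_lit 196666) (nat_lit 13) (.e (nat_lit 65569) (nat_lit 3) (.e (nat_lit 98334) (nat_lit 18) (.e (nat_lit 164182) (nat_lit 154) (.e (nat_lit 57379) (nat_lit 3) (.e (nat_lit 98342) (nat_lit 20) .nil))))))) (.g (nat_lit 1) (.e (nat_lit 237399) (nat_lit 0) .nil) .nil)))))) 
(.nd (nat_lit 7) (.nd (nat_lit 8) (.nd (nat_lit 9) 
(.lf (nat_lit 526416) (.g (nat_lit 2743) (.e (nat_lit 213032) (nat_lit 11) (.e (nat_lit 24628) (nat_lit 9) (.e (nat_lit 336443) (nat_lit 32) (.e (nat_lit 466972) (nat_lit 21) (.e (nat_lit 164322) (nat_lit 230) (.e (nat_lit 163878) (nat_lit 4) .nil)))))) (.g (nat_lit 1) (.e (nat_lit 234654) (nat_lit 0) .nil) .nil))) 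
(.lf (nat_lit 526928) (.g (nat_lit 2525) (.e (nat_lit 221194) (nat_lit 11) (.e (nat_lit 336084) (nat_lit 9) (.e (nat_lit 336443) (nat_lit 32) (.e (nat_lit 466971) (nat_lit 21) (.e (nat_lit 164324) (nat_lit 230) (.e (nat_lit 163886) (nat_lit 5) .nil)))))) (.g (nat_lit 1) (.e (nat_lit 235524) (nat_lit 0) .nil) .nil)))) (.nd (nat_lit 9) 
(.lf (nat_lit 526672) (.g (nat_lit 2039) (.e (nat_lit 229120) (nat_lit 2) (.e (nat_lit 90158) (nat_lit 11) (.e (nat_lit 24628) (nat_lit 9) (.e (nat_lit 336454) (nat_lit 34) (.e (nat_lit 491264) (nat_lit 3) .nil))))) (.g (nat_lit 0) (.e (nat_lit 235216) (nat_lit 0) .nil) .nil))) 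
(.lf (nat_lit 527184) (.g (nat_lit 753) (.e (nat_lit 221208) (nat_lit 21) (.e (nat_lit 164330) (nat_lit 230) (.e (nat_lit 163917) (nat_lit 13) .nil))) (.g (nat_lit 0) (.e (nat_lit 236930) (nat_lit 0) .nil) .nil))))) (.nd (nat_lit 8) (.nd (nat_lit 9) 
(.lf (nat_lit 526544) (.g (nat_lit 2230) (.e (nat_lit 213032) (nat_lit 11) (.e (nat_lit 24659) (nat_lit 13) (.e (nat_lit 393283) (nat_lit 24) (.e (nat_lit 434209) (nat_lit 18) (.e (nat_lit 5223) (nat_lit 296) (.e (nat_lit 163879) (nat_lit 4) .nil)))))) (.g (nat_lit 1) (.e (nat_lit 234850) (nat_lit 0) .nil) .nil))) 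
(.lf (nat_lit 527056) (.g (nat_lit 1719) (.e (nat_lit 221203) (nat_lit 20) (.e (nat_lit 3253) (nat_lit 197) (.e (nat_lit 532501) (nat_lit 1) (.e (nat_lit 57931) (nat_lit 282) .nil)))) (.g (nat_lit 0) (.e (nat_lit 235709) (nat_lit 0) .nil) .nil)))) (.nd (nat_lit 9) 
(.lf (nat_lit 526800) (.g (nat_lit 282) (.e (nat_lit 221192) (nat_lit 11) (.e (nat_lit 336121) (nat_lit 9) (.e (nat_lit 336440) (nat_lit 32) (.e (nat_lit 474880) (nat_lit 5) .nil)))) (.g (nat_lit 0) (.e (nat_lit 235367) (nat_lit 0) .nil) .nil))) 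
(.lf (nat_lit 527312) (.g (nat_lit 2655) (.e (nat_lit 221210) (nat_lit 22) (.e (nat_lit 196668) (nat_lit 14) (.e (nat_lit 73747) (nat_lit 3) (.e (nat_lit 516117) (nat_lit 1) (.e (nat_lit 164181) (nat_lit 154) (.e (nat_lit 57379) (nat_lit 3) (.e (nat_lit 98340) (nat_lit 20) .nil))))))) (.g (nat_lit 1) (.e (nat_lit 237720) (nat_lit 0) .nil) .nil))))))) 
(.nd (nat_lit 6) (.nd (nat_lit 7) (.nd (nat_lit 8) (.nd (nat_lit 9) 
(.lf (nat_lit 526384) (.g (nat_lit 2785) (.e (nat_lit 213032) (nat_lit 11) (.e (nat_lit 24626) (nat_lit 9) (.e (nat_lit 336443) (nat_lit 32) (.e (nat_lit 466971) (nat_lit 21) (.e (nat_lit 164326) (nat_lit 230) (.e (nat_lit 163881) (nat_lit 4) .nil)))))) (.g (nat_lit 1) (.e (nat_lit 234588) (nat_lit 0) .nil) .nil))) 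
(.lf (nat_lit 526896) (.g (nat_lit 3471) (.e (nat_lit 221194) (nat_lit 11) (.e (nat_lit 336027) (nat_lit 3) (.e (nat_lit 98373) (nat_lit 29) (.e (nat_lit 450562) (nat_lit 0) (.e (nat_lit 4000) (nat_lit 241) .nil))))) (.g (nat_lit 0) (.e (nat_lit 235492) (nat_lit 0) .nil) .nil)))) (.nd (nat_lit 9) 
(.lf (nat_lit 526640) (.g (nat_lit 2025) (.e (nat_lit 213035) (nat_lit 12) (.e (nat_lit 163978) (nat_lit 30) (.e (nat_lit 573478) (nat_lit 12) (.e (nat_lit 57546) (nat_lit 47) .nil)))) (.g (nat_lit 0) (.e (nat_lit 235111) (nat_lit 0) .nil) .nil))) 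
(.lf (nat_lit 527152) (.g (nat_lit 1059) (.e (nat_lit 221207) (nat_lit 21) (.e (nat_lit 164325) (nat_lit 230) (.e (nat_lit 163932) (nat_lit 17) (.e (nat_lit 474880) (nat_lit 16) .nil)))) (.g (nat_lit 0) (.e (nat_lit 236556) (nat_lit 0) .nil) .nil))))) (.nd (nat_lit 8) (.nd (nat_lit 9) 
(.lf (nat_lit 526512) (.g (nat_lit 2895) (.e (nat_lit 213032) (nat_lit 11) (.e (nat_lit 24658) (nat_lit 13) (.e (nat_lit 393281) (nat_lit 23) (.e (nat_lit 426098) (nat_lit 1) (.e (nat_lit 164325) (nat_lit 230) (.e (nat_lit 163877) (nat_lit 4) .nil)))))) (.g (nat_lit 1) (.e (nat_lit 234807) (nat_lit 0) .nil) .nil))) 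
(.lf (nat_lit 527024) (.g (nat_lit 2075) (.e (nat_lit 229120) (nat_lit 17) (.e (nat_lit 385068) (nat_lit 26) (.e (nat_lit 532560) (nat_lit 14) (.e (nat_lit 376859) (nat_lit 21) (.e (nat_lit 57685) (nat_lit 156) .nil))))) (.g (nat_lit 0) (.e (nat_lit 235666) (nat_lit 0) .nil) .nil)))) (.nd (nat_lit 9) 
(.lf (nat_lit 526768) (.g (nat_lit 1406) (.e (nat_lit 229120) (nat_lit 5) (.e (nat_lit 114698) (nat_lit 11) (.e (nat_lit 426335) (nat_lit 13) (.e (nat_lit 483393) (nat_lit 23) (.e (nat_lit 343808) (nat_lit 20) .nil))))) (.g (nat_lit 0) (.e (nat_lit 235330) (nat_lit 0) .nil) .nil))) 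
(.lf (nat_lit 527280) (.g (nat_lit 3779) (.e (nat_lit 221210) (nat_lit 22) (.e (nat_lit 196668) (nat_lit 14) (.e (nat_lit 73746) (nat_lit 3) (.e (nat_lit 516120) (nat_lit 1) (.e (nat_lit 164182) (nat_lit 154) (.e (nat_lit 57379) (nat_lit 3) (.e (nat_lit 98340) (nat_lit 20) .nil))))))) (.g (nat_lit 1) (.e (nat_lit 237558) (nat_lit 0) .nil) .nil)))))) 
(.nd (nat_lit 7) (.nd (nat_lit 8) (.nd (nat_lit 9) 
(.lf (nat_lit 526448) (.g (nat_lit 1551) (.e (nat_lit 213032) (nat_lit 11) (.e (nat_lit 24655) (nat_lit 13) (.e (nat_lit 393267) (nat_lit 23) (.e (nat_lit 426448) (nat_lit 20) (.e (nat_lit 122624) (nat_lit 4) .nil))))) (.g (nat_lit 0) (.e (nat_lit 234718) (nat_lit 0) .nil) .nil))) 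
(.lf (nat_lit 526960) (.g (nat_lit 2098) (.e (nat_lit 221194) (nat_lit 11) (.e (nat_lit 336088) (nat_lit 9) (.e (nat_lit 336415) (nat_lit 27) (.e (nat_lit 426306) (nat_lit 12) (.e (nat_lit 475214) (nat_lit 42) .nil))))) (.g (nat_lit 0) (.e (nat_lit 235556) (nat_lit 0) .nil) .nil)))) (.nd (nat_lit 9) 
(.lf (nat_lit 526704) (.g (nat_lit 1723) (.e (nat_lit 229120) (nat_lit 5) (.e (nat_lit 114698) (nat_lit 11) (.e (nat_lit 426186) (nat_lit 9) (.e (nat_lit 426555) (nat_lit 32) (.e (nat_lit 384768) (nat_lit 5) .nil))))) (.g (nat_lit 0) (.e (nat_lit 235264) (nat_lit 0) .nil) .nil))) 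
(.lf (nat_lit 527216) (.g (nat_lit 1292) (.e (nat_lit 221210) (nat_lit 22) (.e (nat_lit 196654) (nat_lit 11) (.e (nat_lit 16436) (nat_lit 9) (.e (nat_lit 426130) (nat_lit 3) .nil)))) (.g (nat_lit 0) (.e (nat_lit 237251) (nat_lit 0) .nil) .nil))))) (.nd (nat_lit 8) (.nd (nat_lit 9) 
(.lf (nat_lit 526576) (.g (nat_lit 1173) (.e (nat_lit 220928) (nat_lit 11) (.e (nat_lit 24608) (nat_lit 3) (.e (nat_lit 98363) (nat_lit 26) (.e (nat_lit 426318) (nat_lit 12) (.e (nat_lit 475179) (nat_lit 24) .nil))))) (.g (nat_lit 0) (.e (nat_lit 234993) (nat_lit 0) .nil) .nil))) 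
(.lf (nat_lit 527088) (.g (nat_lit 1573) (.e (nat_lit 221204) (nat_lit 20) (.e (nat_lit 3253) (nat_lit 197) (.e (nat_lit 532503) (nat_lit 1) (.e (nat_lit 57924) (nat_lit 282) .nil)))) (.g (nat_lit 0) (.e (nat_lit 235742) (nat_lit 0) .nil) .nil)))) (.nd (nat_lit 9) 
(.lf (nat_lit 526832) (.g (nat_lit 2182) (.e (nat_lit 221193) (nat_lit 11) (.e (nat_lit 336027) (nat_lit 3) (.e (nat_lit 98356) (nat_lit 26) (.e (nat_lit 426320) (nat_lit 12) (.e (nat_lit 475179) (nat_lit 24) .nil))))) (.g (nat_lit 0) (.e (nat_lit 235408) (nat_lit 0) .nil) .nil))) 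
(.lf (nat_lit 527344) (.g (nat_lit 1772) (.e (nat_lit 221210) (nat_lit 22) (.e (nat_lit 196670) (nat_lit 14) (.e (nat_lit 73746) (nat_lit 3) (.e (nat_lit 516115) (nat_lit 1) (.e (nat_lit 164182) (nat_lit 154) .nil))))) (.g (nat_lit 0) (.e (nat_lit 237933) (nat_lit 0) .nil) .nil))))))))) (.nd (nat_lit 4) (.nd (nat_lit 5) (.nd (nat_lit 6) (.nd (nat_lit 7) (.nd (nat_lit 8) (.nd (nat_lit 9) 
(.lf (nat_lit 526344) (.g (nat_lit 1862) (.e (nat_lit 213032) (nat_lit 11) (.e (nat_lit 24609) (nat_lit 3) (.e (nat_lit 98365) (nat_lit 26) (.e (nat_lit 426308) (nat_lit 12) (.e (nat_lit 475177) (nat_lit 24) .nil))))) (.g (nat_lit 0) (.e (nat_lit 234541) (nat_lit 0) .nil) .nil))) 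
(.lf (nat_lit 526856) (.g (nat_lit 2417) (.e (nat_lit 221193) (nat_lit 11) (.e (nat_lit 336077) (nat_lit 9) (.e (nat_lit 336443) (nat_lit 32) (.e (nat_lit 466969) (nat_lit 21) (.e (nat_lit 164324) (nat_lit 230) (.e (nat_lit 163886) (nat_lit 5) .nil)))))) (.g (nat_lit 1) (.e (nat_lit 235432) (nat_lit 0) .nil) .nil)))) (.nd (nat_lit 9) 
(.lf (nat_lit 526600) (.g (nat_lit 1812) (.e (nat_lit 213033) (nat_lit 12) (.e (nat_lit 163978) (nat_lit 30) (.e (nat_lit 573477) (nat_lit 12) (.e (nat_lit 57548) (nat_lit 47) .nil)))) (.g (nat_lit 0) (.e (nat_lit 235031) (nat_lit 0) .nil) .nil))) 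
(.lf (nat_lit 527112) (.g (nat_lit 534) (.e (nat_lit 221206) (nat_lit 21) (.e (nat_lit 164325) (nat_lit 230) (.e (nat_lit 163936) (nat_lit 18) .nil))) (.g (nat_lit 0) (.e (nat_lit 235995) (nat_lit 0) .nil) .nil))))) (.nd (nat_lit 8) (.nd (nat_lit 9) 
(.lf (nat_lit 526472) (.g (nat_lit 1938) (.e (nat_lit 213032) (nat_lit 11) (.e (nat_lit 24655) (nat_lit 13) (.e (nat_lit 393292) (nat_lit 26) (.e (nat_lit 475212) (nat_lit 42) (.e (nat_lit 728832) (nat_lit 4) .nil))))) (.g (nat_lit 1) (.e (nat_lit 234746) (nat_lit 0) .nil) .nil))) 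
(.lf (nat_lit 526984) (.g (nat_lit 924) (.e (nat_lit 229120) (nat_lit 11) (.e (nat_lit 336083) (nat_lit 9) (.e (nat_lit 336443) (nat_lit 32) (.e (nat_lit 466971) (nat_lit 21) .nil)))) (.g (nat_lit 0) (.e (nat_lit 235597) (nat_lit 0) .nil) .nil)))) (.nd (nat_lit 9) 
(.lf (nat_lit 526728) (.g (nat_lit 2161) (.e (nat_lit 229120) (nat_lit 5) (.e (nat_lit 114698) (nat_lit 11) (.e (nat_lit 426200) (nat_lit 9) (.e (nat_lit 426509) (nat_lit 27) (.e (nat_lit 336083) (nat_lit 9) .nil))))) (.g (nat_lit 0) (.e (nat_lit 235289) (nat_lit 0) .nil) .nil))) 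
(.lf (nat_lit 527240) (.g (nat_lit 2281) (.e (nat_lit 221210) (nat_lit 22) (.e (nat_lit 196656) (nat_lit 11) (.e (nat_lit 16459) (nat_lit 12) (.e (nat_lit 475177) (nat_lit 24) (.e (nat_lit 524032) (nat_lit 18) .nil))))) (.g (nat_lit 0) (.e (nat_lit 237363) (nat_lit 0) .nil) .nil)))))) (.nd (nat_lit 7) (.nd (nat_lit 8) (.nd (nat_lit 9) 
(.lf (nat_lit 526408) (.g (nat_lit 936) (.e (nat_lit 213032) (nat_lit 11) (.e (nat_lit 24628) (nat_lit 9) (.e (nat_lit 336443) (nat_lit 32) (.e (nat_lit 466969) (nat_lit 21) .nil)))) (.g (nat_lit 0) (.e (nat_lit 234645) (nat_lit 0) .nil) .nil))) 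
(.lf (nat_lit 526920) (.g (nat_lit 3294) (.e (nat_lit 221194) (nat_lit 11) (.e (nat_lit 336077) (nat_lit 9) (.e (nat_lit 336443) (nat_lit 32) (.e (nat_lit 466971) (nat_lit 21) (.e (nat_lit 164322) (nat_lit 230) (.e (nat_lit 163885) (nat_lit 5) .nil)))))) (.g (nat_lit 1) (.e (nat_lit 235516) (nat_lit 0) .nil) .nil)))) (.nd (nat_lit 9) 
(.lf (nat_lit 526664) (.g (nat_lit 2486) (.e (nat_lit 213039) (nat_lit 14) (.e (nat_lit 2777) (nat_lit 178) (.e (nat_lit 286759) (nat_lit 12) (.e (nat_lit 385106) (nat_lit 50) (.e (nat_lit 786485) (nat_lit 32) .nil))))) (.g (nat_lit 0) (.e (nat_lit 235146) (nat_lit 0) .nil) .nil))) 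
(.lf (nat_lit 527176) (.g (nat_lit 353) (.e (nat_lit 221208) (nat_lit 21) (.e (nat_lit 164330) (nat_lit 230) (.e (nat_lit 163905) (nat_lit 12) .nil))) (.g (nat_lit 0) (.e (nat_lit 236874) (nat_lit 0) .nil) .nil))))) (.nd (nat_lit 8) (.nd (nat_lit 9) 
(.lf (nat_lit 526536) (.g (nat_lit 2352) (.e (nat_lit 213032) (nat_lit 11) (.e (nat_lit 24659) (nat_lit 13) (.e (nat_lit 393271) (nat_lit 23) (.e (nat_lit 426448) (nat_lit 20) (.e (nat_lit 122624) (nat_lit 4) .nil))))) (.g (nat_lit 1) (.e (nat_lit 234842) (nat_lit 0) .nil) .nil))) 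
(.lf (nat_lit 527048) (.g (nat_lit 1754) (.e (nat_lit 221203) (nat_lit 20) (.e (nat_lit 3253) (nat_lit 197) (.e (nat_lit 532499) (nat_lit 1) (.e (nat_lit 57931) (nat_lit 282) .nil)))) (.g (nat_lit 0) (.e (nat_lit 235699) (nat_lit 0) .nil) .nil)))) (.nd (nat_lit 9) 
(.lf (nat_lit 526792) (.g (nat_lit 1837) (.e (nat_lit 221191) (nat_lit 11) (.e (nat_lit 336153) (nat_lit 9) (.e (nat_lit 336442) (nat_lit 32) (.e (nat_lit 466969) (nat_lit 21) (.e (nat_lit 164330) (nat_lit 230) (.e (nat_lit 163885) (nat_lit 5) .nil)))))) (.g (nat_lit 1) (.e (nat_lit 235358) (nat_lit 0) .nil) .nil))) 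
(.lf (nat_lit 527304) (.g (nat_lit 1963) (.e (nat_lit 221210) (nat_lit 22) (.e (nat_lit 196668) (nat_lit 14) (.e (nat_lit 73747) (nat_lit 3) (.e (nat_lit 516115) (nat_lit 1) (.e (nat_lit 164183) (nat_lit 154) .nil))))) (.g (nat_lit 0) (.e (nat_lit 237657) (nat_lit 0) .nil) .nil))))))) (.nd (nat_lit 6) (.nd (nat_lit 7) (.nd (nat_lit 8) (.nd (nat_lit 9) 
(.lf (nat_lit 526376) (.g (nat_lit 3062) (.e (nat_lit 213032) (nat_lit 11) (.e (nat_lit 24625) (nat_lit 9) (.e (nat_lit 336443) (nat_lit 32) (.e (nat_lit 466972) (nat_lit 21) (.e (nat_lit 164332) (nat_lit 230) (.e (nat_lit 163877) (nat_lit 4) .nil)))))) (.g (nat_lit 1) (.e (nat_lit 234580) (nat_lit 0) .nil) .nil))) 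
(.lf (nat_lit 526888) (.g (nat_lit 1183) (.e (nat_lit 221194) (nat_lit 11) (.e (nat_lit 336012) (nat_lit 2) (.e (nat_lit 90174) (nat_lit 14) (.e (nat_lit 180288) (nat_lit 45) .nil)))) (.g (nat_lit 0) (.e (nat_lit 235482) (nat_lit 0) .nil) .nil)))) (.nd (nat_lit 9) 
(.lf (nat_lit 526632) (.g (nat_lit 2935) (.e (nat_lit 213035) (nat_lit 12) (.e (nat_lit 163977) (nat_lit 30) (.e (nat_lit 573474) (nat_lit 12) (.e (nat_lit 57528) (nat_lit 46) .nil)))) (.g (nat_lit 0) (.e (nat_lit 235096) (nat_lit 0) .nil) .nil))) 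
(.lf (nat_lit 527144) (.g (nat_lit 2822) (.e (nat_lit 221207) (nat_lit 21) (.e (nat_lit 164325) (nat_lit 230) (.e (nat_lit 163903) (nat_lit 12) (.e (nat_lit 426233) (nat_lit 9) (.e (nat_lit 426552) (nat_lit 32) (.e (nat_lit 384768) (nat_lit 5) .nil)))))) (.g (nat_lit 1) (.e (nat_lit 236446) (nat_lit 0) .nil) .nil))))) (.nd (nat_lit 8) (.nd (nat_lit 9) 
(.lf (nat_lit 526504) (.g (nat_lit 2341) (.e (nat_lit 213032) (nat_lit 11) (.e (nat_lit 24657) (nat_lit 13) (.e (nat_lit 393291) (nat_lit 26) (.e (nat_lit 475214) (nat_lit 42) (.e (nat_lit 728832) (nat_lit 4) .nil))))) (.g (nat_lit 1) (.e (nat_lit 234782) (nat_lit 0) .nil) .nil))) 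
(.lf (nat_lit 527016) (.g (nat_lit 1955) (.e (nat_lit 229120) (nat_lit 17) (.e (nat_lit 385066) (nat_lit 26) (.e (nat_lit 532560) (nat_lit 14) (.e (nat_lit 376859) (nat_lit 21) (.e (nat_lit 57686) (nat_lit 156) .nil))))) (.g (nat_lit 0) (.e (nat_lit 235658) (nat_lit 0) .nil) .nil)))) (.nd (nat_lit 9) 
(.lf (nat_lit 526760) (.g (nat_lit 2405) (.e (nat_lit 229120) (nat_lit 5) (.e (nat_lit 114698) (nat_lit 11) (.e (nat_lit 426335) (nat_lit 13) (.e (nat_lit 483378) (nat_lit 23) (.e (nat_lit 343808) (nat_lit 20) .nil))))) (.g (nat_lit 0) (.e (nat_lit 235322) (nat_lit 0) .nil) .nil))) 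
(.lf (nat_lit 527272) (.g (nat_lit 1870) (.e (nat_lit 221210) (nat_lit 22) (.e (nat_lit 196668) (nat_lit 14) (.e (nat_lit 73746) (nat_lit 3) (.e (nat_lit 516119) (nat_lit 1) (.e (nat_lit 164176) (nat_lit 154) .nil))))) (.g (nat_lit 0) (.e (nat_lit 237520) (nat_lit 0) .nil) .nil)))))) (.nd (nat_lit 7) (.nd (nat_lit 8) (.nd (nat_lit 9) 
(.lf (nat_lit 526440) (.g (nat_lit 1028) (.e (nat_lit 213032) (nat_lit 11) (.e (nat_lit 24630) (nat_lit 9) (.e (nat_lit 336443) (nat_lit 32) (.e (nat_lit 466971) (nat_lit 21) .nil)))) (.g (nat_lit 0) (.e (nat_lit 234689) (nat_lit 0) .nil) .nil))) 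
(.lf (nat_lit 526952) (.g (nat_lit 1524) (.e (nat_lit 221194) (nat_lit 11) (.e (nat_lit 336088) (nat_lit 9) (.e (nat_lit 336391) (nat_lit 27) (.e (nat_lit 426187) (nat_lit 9) (.e (nat_lit 426448) (nat_lit 20) .nil))))) (.g (nat_lit 0) (.e (nat_lit 235548) (nat_lit 0) .nil) .nil)))) (.nd (nat_lit 9) 
(.lf (nat_lit 526696) (.g (nat_lit 504) (.e (nat_lit 229120) (nat_lit 5) (.e (nat_lit 114696) (nat_lit 11) (.e (nat_lit 426232) (nat_lit 9) (.e (nat_lit 426554) (nat_lit 32) (.e (nat_lit 384768) (nat_lit 5) .nil))))) (.g (nat_lit 0) (.e (nat_lit 235249) (nat_lit 0) .nil) .nil))) 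
(.lf (nat_lit 527208) (.g (nat_lit 3460) (.e (nat_lit 221208) (nat_lit 21) (.e (nat_lit 164402) (nat_lit 256) (.e (nat_lit 57427) (nat_lit 15) (.e (nat_lit 360474) (nat_lit 8) (.e (nat_lit 557072) (nat_lit 9) (.e (nat_lit 2717) (nat_lit 171) (.e (nat_lit 229680) (nat_lit 244) (.e (nat_lit 163885) (nat_lit 5) .nil)))))))) (.g (nat_lit 1) (.e (nat_lit 237120) (nat_lit 0) .nil) .nil))))) 
(.nd (nat_lit 8) (.nd (nat_lit 9) 
(.lf (nat_lit 526568) (.g (nat_lit 4394) (.e (nat_lit 213032) (nat_lit 11) (.e (nat_lit 24661) (nat_lit 14) (.e (nat_lit 401454) (nat_lit 12) (.e (nat_lit 475209) (nat_lit 41) (.e (nat_lit 712732) (nat_lit 20) (.e (nat_lit 221217) (nat_lit 24) .nil)))))) (.g (nat_lit 1) (.e (nat_lit 234885) (nat_lit 0) .nil) .nil))) 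
(.lf (nat_lit 527080) (.g (nat_lit 1233) (.e (nat_lit 221204) (nat_lit 20) (.e (nat_lit 3253) (nat_lit 197) (.e (nat_lit 532501) (nat_lit 1) (.e (nat_lit 57926) (nat_lit 282) .nil)))) (.g (nat_lit 0) (.e (nat_lit 235734) (nat_lit 0) .nil) .nil)))) (.nd (nat_lit 9) 
(.lf (nat_lit 526824) (.g (nat_lit 2009) (.e (nat_lit 221192) (nat_lit 11) (.e (nat_lit 336153) (nat_lit 9) (.e (nat_lit 336442) (nat_lit 32) (.e (nat_lit 466972) (nat_lit 21) (.e (nat_lit 164331) (nat_lit 230) (.e (nat_lit 163884) (nat_lit 5) .nil)))))) (.g (nat_lit 1) (.e (nat_lit 235391) (nat_lit 0) .nil) .nil))) 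
(.lf (nat_lit 527336) (.g (nat_lit 3643) (.e (nat_lit 221210) (nat_lit 22) (.e (nat_lit 196668) (nat_lit 14) (.e (nat_lit 73747) (nat_lit 3) (.e (nat_lit 516120) (nat_lit 1) (.e (nat_lit 164183) (nat_lit 154) (.e (nat_lit 57378) (nat_lit 3) (.e (nat_lit 98340) (nat_lit 20) .nil))))))) (.g (nat_lit 1) (.e (nat_lit 237873) (nat_lit 0) .nil) .nil)))))))) 
(.nd (nat_lit 5) (.nd (nat_lit 6) (.nd (nat_lit 7) (.nd (nat_lit 8) (.nd (nat_lit 9) 
(.lf (nat_lit 526360) (.g (nat_lit 848) (.e (nat_lit 213032) (nat_lit 11) (.e (nat_lit 24625) (nat_lit 9) (.e (nat_lit 336441) (nat_lit 32) (.e (nat_lit 474880) (nat_lit 5) .nil)))) (.g (nat_lit 0) (.e (nat_lit 234564) (nat_lit 0) .nil) .nil))) 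
(.lf (nat_lit 526872) (.g (nat_lit 1545) (.e (nat_lit 221193) (nat_lit 11) (.e (nat_lit 336086) (nat_lit 9) (.e (nat_lit 336444) (nat_lit 32) (.e (nat_lit 466971) (nat_lit 21) (.e (nat_lit 164324) (nat_lit 230) (.e (nat_lit 163886) (nat_lit 5) .nil)))))) (.g (nat_lit 1) (.e (nat_lit 235448) (nat_lit 0) .nil) .nil)))) (.nd (nat_lit 9) 
(.lf (nat_lit 526616) (.g (nat_lit 2036) (.e (nat_lit 213034) (nat_lit 12) (.e (nat_lit 163964) (nat_lit 25) (.e (nat_lit 532501) (nat_lit 1) (.e (nat_lit 57926) (nat_lit 282) (.e (nat_lit 163869) (nat_lit 2) .nil))))) (.g (nat_lit 0) (.e (nat_lit 235064) (nat_lit 0) .nil) .nil))) 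
(.lf (nat_lit 527128) (.g (nat_lit 1682) (.e (nat_lit 221206) (nat_lit 21) (.e (nat_lit 164332) (nat_lit 230) (.e (nat_lit 163905) (nat_lit 12) (.e (nat_lit 426226) (nat_lit 9) (.e (nat_lit 426554) (nat_lit 32) (.e (nat_lit 384768) (nat_lit 5) .nil)))))) (.g (nat_lit 1) (.e (nat_lit 236226) (nat_lit 0) .nil) .nil))))) (.nd (nat_lit 8) (.nd (nat_lit 9) 
(.lf (nat_lit 526488) (.g (nat_lit 1897) (.e (nat_lit 213032) (nat_lit 11) (.e (nat_lit 24656) (nat_lit 13) (.e (nat_lit 393291) (nat_lit 26) (.e (nat_lit 475214) (nat_lit 42) (.e (nat_lit 728832) (nat_lit 4) .nil))))) (.g (nat_lit 1) (.e (nat_lit 234765) (nat_lit 0) .nil) .nil))) 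
(.lf (nat_lit 527000) (.g (nat_lit 1696) (.e (nat_lit 229120) (nat_lit 11) (.e (nat_lit 336454) (nat_lit 34) (.e (nat_lit 483405) (nat_lit 26) (.e (nat_lit 385066) (nat_lit 26) (.e (nat_lit 540416) (nat_lit 20) .nil))))) (.g (nat_lit 0) (.e (nat_lit 235638) (nat_lit 0) .nil) .nil)))) (.nd (nat_lit 9) 
(.lf (nat_lit 526744) (.g (nat_lit 458) (.e (nat_lit 229120) (nat_lit 5) (.e (nat_lit 114698) (nat_lit 11) (.e (nat_lit 426327) (nat_lit 13) .nil))) (.g (nat_lit 0) (.e (nat_lit 235305) (nat_lit 0) .nil) .nil))) 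
(.lf (nat_lit 527256) (.g (nat_lit 3126) (.e (nat_lit 221210) (nat_lit 22) (.e (nat_lit 196666) (nat_lit 13) (.e (nat_lit 65571) (nat_lit 3) (.e (nat_lit 98333) (nat_lit 18) (.e (nat_lit 164179) (nat_lit 154) (.e (nat_lit 57379) (nat_lit 3) (.e (nat_lit 98342) (nat_lit 20) .nil))))))) (.g (nat_lit 1) (.e (nat_lit 237419) (nat_lit 0) .nil) .nil)))))) 
(.nd (nat_lit 7) (.nd (nat_lit 8) (.nd (nat_lit 9) 
(.lf (nat_lit 526424) (.g (nat_lit 1242) (.e (nat_lit 213032) (nat_lit 11) (.e (nat_lit 24629) (nat_lit 9) (.e (nat_lit 336434) (nat_lit 30) (.e (nat_lit 450564) (nat_lit 0) (.e (nat_lit 5223) (nat_lit 296) (.e (nat_lit 163881) (nat_lit 4) .nil)))))) (.g (nat_lit 1) (.e (nat_lit 234662) (nat_lit 0) .nil) .nil))) 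
(.lf (nat_lit 526936) (.g (nat_lit 575) (.e (nat_lit 221194) (nat_lit 11) (.e (nat_lit 336087) (nat_lit 9) (.e (nat_lit 336368) (nat_lit 27) (.e (nat_lit 426195) (nat_lit 9) .nil)))) (.g (nat_lit 0) (.e (nat_lit 235532) (nat_lit 0) .nil) .nil)))) (.nd (nat_lit 9) 
(.lf (nat_lit 526680) (.g (nat_lit 1651) (.e (nat_lit 229120) (nat_lit 2) (.e (nat_lit 90160) (nat_lit 11) (.e (nat_lit 24669) (nat_lit 15) (.e (nat_lit 3253) (nat_lit 197) (.e (nat_lit 532533) (nat_lit 9) .nil))))) (.g (nat_lit 0) (.e (nat_lit 235227) (nat_lit 0) .nil) .nil))) 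
(.lf (nat_lit 527192) (.g (nat_lit 1533) (.e (nat_lit 221208) (nat_lit 21) (.e (nat_lit 164332) (nat_lit 230) (.e (nat_lit 163905) (nat_lit 12) (.e (nat_lit 426256) (nat_lit 9) .nil)))) (.g (nat_lit 0) (.e (nat_lit 237072) (nat_lit 0) .nil) .nil))))) (.nd (nat_lit 8) (.nd (nat_lit 9) 
(.lf (nat_lit 526552) (.g (nat_lit 1896) (.e (nat_lit 213032) (nat_lit 11) (.e (nat_lit 24660) (nat_lit 13) (.e (nat_lit 393267) (nat_lit 23) (.e (nat_lit 426448) (nat_lit 20) (.e (nat_lit 122624) (nat_lit 4) .nil))))) (.g (nat_lit 1) (.e (nat_lit 234861) (nat_lit 0) .nil) .nil))) 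
(.lf (nat_lit 527064) (.g (nat_lit 2144) (.e (nat_lit 221204) (nat_lit 20) (.e (nat_lit 3253) (nat_lit 197) (.e (nat_lit 532499) (nat_lit 1) (.e (nat_lit 57926) (nat_lit 282) (.e (nat_lit 163870) (nat_lit 2) .nil))))) (.g (nat_lit 0) (.e (nat_lit 235718) (nat_lit 0) .nil) .nil)))) (.nd (nat_lit 9) 
(.lf (nat_lit 526808) (.g (nat_lit 2120) (.e (nat_lit 221192) (nat_lit 11) (.e (nat_lit 336152) (nat_lit 9) (.e (nat_lit 336442) (nat_lit 32) (.e (nat_lit 466972) (nat_lit 21) (.e (nat_lit 164331) (nat_lit 230) (.e (nat_lit 163884) (nat_lit 5) .nil)))))) (.g (nat_lit 1) (.e (nat_lit 235375) (nat_lit 0) .nil) .nil))) 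
(.lf (nat_lit 527320) (.g (nat_lit 1915) (.e (nat_lit 221210) (nat_lit 22) (.e (nat_lit 196668) (nat_lit 14) (.e (nat_lit 73747) (nat_lit 3) (.e (nat_lit 516119) (nat_lit 1) (.e (nat_lit 164176) (nat_lit 154) .nil))))) (.g (nat_lit 0) (.e (nat_lit 237755) (nat_lit 0) .nil) .nil))))))) (.nd (nat_lit 6) (.nd (nat_lit 7) (.nd (nat_lit 8) (.nd (nat_lit 9) 
(.lf (nat_lit 526392) (.g (nat_lit 2548) (.e (nat_lit 213032) (nat_lit 11) (.e (nat_lit 24627) (nat_lit 9) (.e (nat_lit 336443) (nat_lit 32) (.e (nat_lit 466969) (nat_lit 21) (.e (nat_lit 164325) (nat_lit 230) (.e (nat_lit 163877) (nat_lit 4) .nil)))))) (.g (nat_lit 1) (.e (nat_lit 234596) (nat_lit 0) .nil) .nil))) 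
(.lf (nat_lit 526904) (.g (nat_lit 2996) (.e (nat_lit 221194) (nat_lit 11) (.e (nat_lit 336074) (nat_lit 9) (.e (nat_lit 336443) (nat_lit 32) (.e (nat_lit 466972) (nat_lit 21) (.e (nat_lit 164322) (nat_lit 230) (.e (nat_lit 163885) (nat_lit 5) .nil)))))) (.g (nat_lit 1) (.e (nat_lit 235500) (nat_lit 0) .nil) .nil)))) (.nd (nat_lit 9) 
(.lf (nat_lit 526648) (.g (nat_lit 2135) (.e (nat_lit 213035) (nat_lit 12) (.e (nat_lit 163979) (nat_lit 30) (.e (nat_lit 573475) (nat_lit 12) (.e (nat_lit 57527) (nat_lit 46) .nil)))) (.g (nat_lit 0) (.e (nat_lit 235125) (nat_lit 0) .nil) .nil))) 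
(.lf (nat_lit 527160) (.g (nat_lit 976) (.e (nat_lit 221207) (nat_lit 21) (.e (nat_lit 164331) (nat_lit 230) (.e (nat_lit 163931) (nat_lit 17) (.e (nat_lit 474880) (nat_lit 13) .nil)))) (.g (nat_lit 0) (.e (nat_lit 236653) (nat_lit 0) .nil) .nil))))) (.nd (nat_lit 8) (.nd (nat_lit 9) 
(.lf (nat_lit 526520) (.g (nat_lit 1190) (.e (nat_lit 213032) (nat_lit 11) (.e (nat_lit 24658) (nat_lit 13) (.e (nat_lit 393289) (nat_lit 25) (.e (nat_lit 458774) (nat_lit 18) .nil)))) (.g (nat_lit 0) (.e (nat_lit 234824) (nat_lit 0) .nil) .nil))) 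
(.lf (nat_lit 527032) (.g (nat_lit 2502) (.e (nat_lit 221195) (nat_lit 20) (.e (nat_lit 3238) (nat_lit 197) (.e (nat_lit 532500) (nat_lit 1) (.e (nat_lit 57927) (nat_lit 282) (.e (nat_lit 163869) (nat_lit 2) .nil))))) (.g (nat_lit 0) (.e (nat_lit 235675) (nat_lit 0) .nil) .nil)))) (.nd (nat_lit 9) 
(.lf (nat_lit 526776) (.g (nat_lit 1860) (.e (nat_lit 221190) (nat_lit 11) (.e (nat_lit 336076) (nat_lit 9) (.e (nat_lit 336443) (nat_lit 32) (.e (nat_lit 466972) (nat_lit 21) (.e (nat_lit 164329) (nat_lit 230) .nil))))) (.g (nat_lit 0) (.e (nat_lit 235338) (nat_lit 0) .nil) .nil))) 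
(.lf (nat_lit 527288) (.g (nat_lit 2457) (.e (nat_lit 221210) (nat_lit 22) (.e (nat_lit 196668) (nat_lit 14) (.e (nat_lit 73747) (nat_lit 3) (.e (nat_lit 516115) (nat_lit 1) (.e (nat_lit 164152) (nat_lit 152) .nil))))) (.g (nat_lit 0) (.e (nat_lit 237580) (nat_lit 0) .nil) .nil)))))) (.nd (nat_lit 7) (.nd (nat_lit 8) (.nd (nat_lit 9) 
(.lf (nat_lit 526456) (.g (nat_lit 2401) (.e (nat_lit 213032) (nat_lit 11) (.e (nat_lit 24655) (nat_lit 13) (.e (nat_lit 393273) (nat_lit 23) (.e (nat_lit 426446) (nat_lit 20) (.e (nat_lit 122624) (nat_lit 4) .nil))))) (.g (nat_lit 1) (.e (nat_lit 234726) (nat_lit 0) .nil) .nil))) 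
(.lf (nat_lit 526968) (.g (nat_lit 1361) (.e (nat_lit 221194) (nat_lit 11) (.e (nat_lit 336204) (nat_lit 12) (.e (nat_lit 385030) (nat_lit 8) (.e (nat_lit 2857) (nat_lit 184) .nil)))) (.g (nat_lit 0) (.e (nat_lit 235564) (nat_lit 0) .nil) .nil)))) (.nd (nat_lit 9) 
(.lf (nat_lit 526712) (.g (nat_lit 1496) (.e (nat_lit 229120) (nat_lit 5) (.e (nat_lit 114698) (nat_lit 11) (.e (nat_lit 426196) (nat_lit 9) (.e (nat_lit 426542) (nat_lit 29) (.e (nat_lit 360192) (nat_lit 5) .nil))))) (.g (nat_lit 0) (.e (nat_lit 235272) (nat_lit 0) .nil) .nil))) 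
(.lf (nat_lit 527224) (.g (nat_lit 1069) (.e (nat_lit 221210) (nat_lit 22) (.e (nat_lit 196656) (nat_lit 11) (.e (nat_lit 16424) (nat_lit 7) (.e (nat_lit 409617) (nat_lit 10) .nil)))) (.g (nat_lit 0) (.e (nat_lit 237286) (nat_lit 0) .nil) .nil))))) (.nd (nat_lit 8) (.nd (nat_lit 9) 
(.lf (nat_lit 526584) (.g (nat_lit 627) (.e (nat_lit 220928) (nat_lit 11) (.e (nat_lit 24658) (nat_lit 13) (.e (nat_lit 393281) (nat_lit 23) .nil))) (.g (nat_lit 0) (.e (nat_lit 235001) (nat_lit 0) .nil) .nil))) 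
(.lf (nat_lit 527096) (.g (nat_lit 1734) (.e (nat_lit 221204) (nat_lit 20) (.e (nat_lit 3253) (nat_lit 197) (.e (nat_lit 532504) (nat_lit 1) (.e (nat_lit 57924) (nat_lit 282) .nil)))) (.g (nat_lit 0) (.e (nat_lit 235750) (nat_lit 0) .nil) .nil)))) (.nd (nat_lit 9) 
(.lf (nat_lit 526840) (.g (nat_lit 856) (.e (nat_lit 221193) (nat_lit 11) (.e (nat_lit 336027) (nat_lit 3) (.e (nat_lit 98381) (nat_lit 31) (.e (nat_lit 474880) (nat_lit 3) .nil)))) (.g (nat_lit 0) (.e (nat_lit 235416) (nat_lit 0) .nil) .nil))) 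
(.lf (nat_lit 527352) (.g (nat_lit 3042) (.e (nat_lit 221210) (nat_lit 22) (.e (nat_lit 196670) (nat_lit 14) (.e (nat_lit 73746) (nat_lit 3) (.e (nat_lit 516117) (nat_lit 1) (.e (nat_lit 164183) (nat_lit 154) (.e (nat_lit 57379) (nat_lit 3) (.e (nat_lit 98340) (nat_lit 20) .nil))))))) (.g (nat_lit 1) (.e (nat_lit 238000) (nat_lit 0) .nil) .nil)))))))))) 
(.nd (nat_lit 3) (.nd (nat_lit 4) (.nd (nat_lit 5) (.nd (nat_lit 6) (.nd (nat_lit 7) 
(.nd (nat_lit 8) (.nd (nat_lit 9) 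
(.lf (nat_lit 526340) (.g (nat_lit 2193) (.e (nat_lit 213032) (nat_lit 11) (.e (nat_lit 24609) (nat_lit 3) (.e (nat_lit 98365) (nat_lit 26) (.e (nat_lit 426188) (nat_lit 9) (.e (nat_lit 426436) (nat_lit 18) (.e (nat_lit 98338) (nat_lit 19) .nil)))))) (.g (nat_lit 1) (.e (nat_lit 234537) (nat_lit 0) .nil) .nil))) 
(.lf (nat_lit 526852) (.g (nat_lit 1927) (.e (nat_lit 221193) (nat_lit 11) (.e (nat_lit 336075) (nat_lit 9) (.e (nat_lit 336443) (nat_lit 32) (.e (nat_lit 466972) (nat_lit 21) (.e (nat_lit 164330) (nat_lit 230) .nil))))) (.g (nat_lit 0) (.e (nat_lit 235428) (nat_lit 0) .nil) .nil)))) (.nd (nat_lit 9) 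
(.lf (nat_lit 526596) (.g (nat_lit 2018) (.e (nat_lit 213033) (nat_lit 12) (.e (nat_lit 163976) (nat_lit 30) (.e (nat_lit 573474) (nat_lit 12) (.e (nat_lit 57544) (nat_lit 47) .nil)))) (.g (nat_lit 0) (.e (nat_lit 235019) (nat_lit 0) .nil) .nil))) 
(.lf (nat_lit 527108) (.g (nat_lit 1928) (.e (nat_lit 221206) (nat_lit 21) (.e (nat_lit 164325) (nat_lit 230) (.e (nat_lit 163903) (nat_lit 12) (.e (nat_lit 426254) (nat_lit 9) .nil)))) (.g (nat_lit 0) (.e (nat_lit 235905) (nat_lit 0) .nil) .nil))))) (.nd (nat_lit 8) (.nd (nat_lit 9) 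
(.lf (nat_lit 526468) (.g (nat_lit 3043) (.e (nat_lit 213032) (nat_lit 11) (.e (nat_lit 24655) (nat_lit 13) (.e (nat_lit 393281) (nat_lit 23) (.e (nat_lit 426108) (nat_lit 1) (.e (nat_lit 164330) (nat_lit 230) (.e (nat_lit 163877) (nat_lit 4) .nil)))))) (.g (nat_lit 1) (.e (nat_lit 234738) (nat_lit 0) .nil) .nil))) 
(.lf (nat_lit 526980) (.g (nat_lit 632) (.e (nat_lit 229120) (nat_lit 11) (.e (nat_lit 336028) (nat_lit 3) (.e (nat_lit 98365) (nat_lit 26) .nil))) (.g (nat_lit 0) (.e (nat_lit 235593) (nat_lit 0) .nil) .nil)))) (.nd (nat_lit 9) 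
(.lf (nat_lit 526724) (.g (nat_lit 322) (.e (nat_lit 229120) (nat_lit 5) (.e (nat_lit 114698) (nat_lit 11) (.e (nat_lit 426200) (nat_lit 9) .nil))) (.g (nat_lit 0) (.e (nat_lit 235285) (nat_lit 0) .nil) .nil))) 
(.lf (nat_lit 527236) (.g (nat_lit 3690) (.e (nat_lit 221210) (nat_lit 22) (.e (nat_lit 196656) (nat_lit 11) (.e (nat_lit 16448) (nat_lit 10) (.e (nat_lit 434231) (nat_lit 23) (.e (nat_lit 532535) (nat_lit 9) (.e (nat_lit 343808) (nat_lit 20) .nil)))))) (.g (nat_lit 1) (.e (nat_lit 237341) (nat_lit 0) .nil) .nil)))))) (.nd (nat_lit 7) (.nd (nat_lit 8) (.nd (nat_lit 9) 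
(.lf (nat_lit 526404) (.g (nat_lit 2789) (.e (nat_lit 213032) (nat_lit 11) (.e (nat_lit 24627) (nat_lit 9) (.e (nat_lit 336443) (nat_lit 32) (.e (nat_lit 466972) (nat_lit 21) (.e (nat_lit 164332) (nat_lit 230) (.e (nat_lit 163877) (nat_lit 4) .nil)))))) (.g (nat_lit 1) (.e (nat_lit 234608) (nat_lit 0) .nil) .nil))) 
(.lf (nat_lit 526916) (.g (nat_lit 1559) (.e (nat_lit 221194) (nat_lit 11) (.e (nat_lit 336077) (nat_lit 9) (.e (nat_lit 336443) (nat_lit 32) (.e (nat_lit 466969) (nat_lit 21) (.e (nat_lit 164326) (nat_lit 230) (.e (nat_lit 163886) (nat_lit 5) .nil)))))) (.g (nat_lit 1) (.e (nat_lit 235512) (nat_lit 0) .nil) .nil)))) (.nd (nat_lit 9) 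
(.lf (nat_lit 526660) (.g (nat_lit 2117) (.e (nat_lit 213039) (nat_lit 14) (.e (nat_lit 2777) (nat_lit 178) (.e (nat_lit 286759) (nat_lit 12) (.e (nat_lit 385094) (nat_lit 49) (.e (nat_lit 778327) (nat_lit 6) .nil))))) (.g (nat_lit 0) (.e (nat_lit 235142) (nat_lit 0) .nil) .nil))) 
(.lf (nat_lit 527172) (.g (nat_lit 1163) (.e (nat_lit 221208) (nat_lit 21) (.e (nat_lit 164330) (nat_lit 230) (.e (nat_lit 163902) (nat_lit 12) (.e (nat_lit 426229) (nat_lit 9) .nil)))) (.g (nat_lit 0) (.e (nat_lit 236866) (nat_lit 0) .nil) .nil))))) (.nd (nat_lit 8) (.nd (nat_lit 9) 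
(.lf (nat_lit 526532) (.g (nat_lit 1443) (.e (nat_lit 213032) (nat_lit 11) (.e (nat_lit 24659) (nat_lit 13) (.e (nat_lit 393266) (nat_lit 23) (.e (nat_lit 426109) (nat_lit 1) (.e (nat_lit 164326) (nat_lit 230) (.e (nat_lit 163881) (nat_lit 4) .nil)))))) (.g (nat_lit 1) (.e (nat_lit 234838) (nat_lit 0) .nil) .nil))) 
(.lf (nat_lit 527044) (.g (nat_lit 1614) (.e (nat_lit 221203) (nat_lit 20) (.e (nat_lit 3253) (nat_lit 197) (.e (nat_lit 532499) (nat_lit 1) (.e (nat_lit 57927) (nat_lit 282) .nil)))) (.g (nat_lit 0) (.e (nat_lit 235695) (nat_lit 0) .nil) .nil)))) (.nd (nat_lit 9) 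
(.lf (nat_lit 526788) (.g (nat_lit 1874) (.e (nat_lit 221191) (nat_lit 11) (.e (nat_lit 336152) (nat_lit 9) (.e (nat_lit 336442) (nat_lit 32) (.e (nat_lit 466969) (nat_lit 21) (.e (nat_lit 164330) (nat_lit 230) (.e (nat_lit 163885) (nat_lit 5) .nil)))))) (.g (nat_lit 1) (.e (nat_lit 235354) (nat_lit 0) .nil) .nil))) 
(.lf (nat_lit 527300) (.g (nat_lit 2542) (.e (nat_lit 221210) (nat_lit 22) (.e (nat_lit 196668) (nat_lit 14) (.e (nat_lit 73747) (nat_lit 3) (.e (nat_lit 516115) (nat_lit 1) (.e (nat_lit 164181) (nat_lit 154) .nil))))) (.g (nat_lit 0) (.e (nat_lit 237639) (nat_lit 0) .nil) .nil))))))) (.nd (nat_lit 6) (.nd (nat_lit 7) (.nd (nat_lit 8) (.nd (nat_lit 9) 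
(.lf (nat_lit 526372) (.g (nat_lit 2921) (.e (nat_lit 213032) (nat_lit 11) (.e (nat_lit 24625) (nat_lit 9) (.e (nat_lit 336443) (nat_lit 32) (.e (nat_lit 466971) (nat_lit 21) (.e (nat_lit 164327) (nat_lit 230) (.e (nat_lit 163877) (nat_lit 4) .nil)))))) (.g (nat_lit 1) (.e (nat_lit 234576) (nat_lit 0) .nil) .nil))) 
(.lf (nat_lit 526884) (.g (nat_lit 2318) (.e (nat_lit 221194) (nat_lit 11) (.e (nat_lit 336012) (nat_lit 2) (.e (nat_lit 90172) (nat_lit 14) (.e (nat_lit 180285) (nat_lit 45) (.e (nat_lit 2570) (nat_lit 160) (.e (nat_lit 32777) (nat_lit 5) (.e (nat_lit 7936) (nat_lit 14) .nil))))))) (.g (nat_lit 1) (.e (nat_lit 235477) (nat_lit 0) .nil) .nil)))) (.nd (nat_lit 9) 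
(.lf (nat_lit 526628) (.g (nat_lit 2118) (.e (nat_lit 213034) (nat_lit 12) (.e (nat_lit 163979) (nat_lit 30) (.e (nat_lit 573475) (nat_lit 12) (.e (nat_lit 57543) (nat_lit 47) .nil)))) (.g (nat_lit 0) (.e (nat_lit 235088) (nat_lit 0) .nil) .nil))) 
(.lf (nat_lit 527140) (.g (nat_lit 1394) (.e (nat_lit 221207) (nat_lit 21) (.e (nat_lit 164324) (nat_lit 230) (.e (nat_lit 163920) (nat_lit 14) (.e (nat_lit 450304) (nat_lit 16) .nil)))) (.g (nat_lit 0) (.e (nat_lit 236334) (nat_lit 0) .nil) .nil))))) (.nd (nat_lit 8) (.nd (nat_lit 9) 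
(.lf (nat_lit 526500) (.g (nat_lit 1167) (.e (nat_lit 213032) (nat_lit 11) (.e (nat_lit 24657) (nat_lit 13) (.e (nat_lit 393274) (nat_lit 23) (.e (nat_lit 426097) (nat_lit 1) .nil)))) (.g (nat_lit 0) (.e (nat_lit 234777) (nat_lit 0) .nil) .nil))) 
(.lf (nat_lit 527012) (.g (nat_lit 1562) (.e (nat_lit 229120) (nat_lit 17) (.e (nat_lit 385065) (nat_lit 26) (.e (nat_lit 532550) (nat_lit 12) (.e (nat_lit 360448) (nat_lit 0) .nil)))) (.g (nat_lit 0) (.e (nat_lit 235654) (nat_lit 0) .nil) .nil)))) (.nd (nat_lit 9) 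
(.lf (nat_lit 526756) (.g (nat_lit 932) (.e (nat_lit 229120) (nat_lit 5) (.e (nat_lit 114698) (nat_lit 11) (.e (nat_lit 426334) (nat_lit 13) (.e (nat_lit 483391) (nat_lit 23) (.e (nat_lit 336333) (nat_lit 20) .nil))))) (.g (nat_lit 0) (.e (nat_lit 235318) (nat_lit 0) .nil) .nil))) 
(.lf (nat_lit 527268) (.g (nat_lit 3134) (.e (nat_lit 221210) (nat_lit 22) (.e (nat_lit 196668) (nat_lit 14) (.e (nat_lit 73746) (nat_lit 3) (.e (nat_lit 516115) (nat_lit 1) (.e (nat_lit 164183) (nat_lit 154) (.e (nat_lit 57378) (nat_lit 3) (.e (nat_lit 98340) (nat_lit 20) .nil))))))) (.g (nat_lit 1) (.e (nat_lit 237498) (nat_lit 0) .nil) .nil)))))) 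
(.nd (nat_lit 7) (.nd (nat_lit 8) (.nd (nat_lit 9) 
(.lf (nat_lit 526436) (.g (nat_lit 3273) (.e (nat_lit 213032) (nat_lit 11) (.e (nat_lit 24629) (nat_lit 9) (.e (nat_lit 336443) (nat_lit 32) (.e (nat_lit 466972) (nat_lit 21) (.e (nat_lit 164332) (nat_lit 230) (.e (nat_lit 163880) (nat_lit 4) .nil)))))) (.g (nat_lit 1) (.e (nat_lit 234675) (nat_lit 0) .nil) .nil))) 
(.lf (nat_lit 526948) (.g (nat_lit 2523) (.e (nat_lit 221194) (nat_lit 11) (.e (nat_lit 336088) (nat_lit 9) (.e (nat_lit 336383) (nat_lit 27) (.e (nat_lit 426306) (nat_lit 12) (.e (nat_lit 475214) (nat_lit 42) (.e (nat_lit 728832) (nat_lit 5) .nil)))))) (.g (nat_lit 1) (.e (nat_lit 235544) (nat_lit 0) .nil) .nil)))) (.nd (nat_lit 9) 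
(.lf (nat_lit 526692) (.g (nat_lit 1386) (.e (nat_lit 229120) (nat_lit 4) (.e (nat_lit 106536) (nat_lit 11) (.e (nat_lit 16467) (nat_lit 13) (.e (nat_lit 483386) (nat_lit 23) (.e (nat_lit 343808) (nat_lit 20) .nil))))) (.g (nat_lit 0) (.e (nat_lit 235244) (nat_lit 0) .nil) .nil))) 
(.lf (nat_lit 527204) (.g (nat_lit 1245) (.e (nat_lit 221208) (nat_lit 21) (.e (nat_lit 164402) (nat_lit 256) (.e (nat_lit 57427) (nat_lit 15) (.e (nat_lit 360468) (nat_lit 3) .nil)))) (.g (nat_lit 0) (.e (nat_lit 237116) (nat_lit 0) .nil) .nil))))) (.nd (nat_lit 8) (.nd (nat_lit 9) 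
(.lf (nat_lit 526564) (.g (nat_lit 2024) (.e (nat_lit 213032) (nat_lit 11) (.e (nat_lit 24660) (nat_lit 13) (.e (nat_lit 393291) (nat_lit 26) (.e (nat_lit 475214) (nat_lit 42) (.e (nat_lit 728832) (nat_lit 4) .nil))))) (.g (nat_lit 1) (.e (nat_lit 234878) (nat_lit 0) .nil) .nil))) 
(.lf (nat_lit 527076) (.g (nat_lit 1423) (.e (nat_lit 221204) (nat_lit 20) (.e (nat_lit 3253) (nat_lit 197) (.e (nat_lit 532499) (nat_lit 1) (.e (nat_lit 57931) (nat_lit 282) .nil)))) (.g (nat_lit 0) (.e (nat_lit 235730) (nat_lit 0) .nil) .nil)))) (.nd (nat_lit 9) 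
(.lf (nat_lit 526820) (.g (nat_lit 1966) (.e (nat_lit 221192) (nat_lit 11) (.e (nat_lit 336153) (nat_lit 9) (.e (nat_lit 336442) (nat_lit 32) (.e (nat_lit 466971) (nat_lit 21) (.e (nat_lit 164327) (nat_lit 230) (.e (nat_lit 163884) (nat_lit 5) .nil)))))) (.g (nat_lit 1) (.e (nat_lit 235387) (nat_lit 0) .nil) .nil))) 
(.lf (nat_lit 527332) (.g (nat_lit 3614) (.e (nat_lit 221210) (nat_lit 22) (.e (nat_lit 196668) (nat_lit 14) (.e (nat_lit 73747) (nat_lit 3) (.e (nat_lit 516120) (nat_lit 1) (.e (nat_lit 164182) (nat_lit 154) (.e (nat_lit 57379) (nat_lit 3) (.e (nat_lit 98340) (nat_lit 20) .nil))))))) (.g (nat_lit 1) (.e (nat_lit 237845) (nat_lit 0) .nil) .nil)))))))) 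
(.nd (nat_lit 5) (.nd (nat_lit 6) (.nd (nat_lit 7) (.nd (nat_lit 8) (.nd (nat_lit 9) 
(.lf (nat_lit 526356) (.g (nat_lit 1578) (.e (nat_lit 213032) (nat_lit 11) (.e (nat_lit 24625) (nat_lit 9) (.e (nat_lit 336336) (nat_lit 20) (.e (nat_lit 229120) (nat_lit 1) .nil)))) (.g (nat_lit 0) (.e (nat_lit 234555) (nat_lit 0) .nil) .nil))) 
(.lf (nat_lit 526868) (.g (nat_lit 3172) (.e (nat_lit 221193) (nat_lit 11) (.e (nat_lit 336084) (nat_lit 9) (.e (nat_lit 336443) (nat_lit 32) (.e (nat_lit 466969) (nat_lit 21) (.e (nat_lit 164332) (nat_lit 230) (.e (nat_lit 163885) (nat_lit 5) .nil)))))) (.g (nat_lit 1) (.e (nat_lit 235444) (nat_lit 0) .nil) .nil)))) (.nd (nat_lit 9) 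
(.lf (nat_lit 526612) (.g (nat_lit 2012) (.e (nat_lit 213033) (nat_lit 12) (.e (nat_lit 163979) (nat_lit 30) (.e (nat_lit 573475) (nat_lit 12) (.e (nat_lit 57546) (nat_lit 47) .nil)))) (.g (nat_lit 0) (.e (nat_lit 235057) (nat_lit 0) .nil) .nil))) 
(.lf (nat_lit 527124) (.g (nat_lit 682) (.e (nat_lit 221206) (nat_lit 21) (.e (nat_lit 164330) (nat_lit 230) (.e (nat_lit 163917) (nat_lit 13) .nil))) (.g (nat_lit 0) (.e (nat_lit 236124) (nat_lit 0) .nil) .nil))))) (.nd (nat_lit 8) (.nd (nat_lit 9) 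
(.lf (nat_lit 526484) (.g (nat_lit 2377) (.e (nat_lit 213032) (nat_lit 11) (.e (nat_lit 24656) (nat_lit 13) (.e (nat_lit 393281) (nat_lit 23) (.e (nat_lit 426098) (nat_lit 1) (.e (nat_lit 164325) (nat_lit 230) (.e (nat_lit 163881) (nat_lit 4) .nil)))))) (.g (nat_lit 1) (.e (nat_lit 234761) (nat_lit 0) .nil) .nil))) 
(.lf (nat_lit 526996) (.g (nat_lit 2104) (.e (nat_lit 229120) (nat_lit 11) (.e (nat_lit 336454) (nat_lit 34) (.e (nat_lit 483383) (nat_lit 23) (.e (nat_lit 336324) (nat_lit 18) (.e (nat_lit 212736) (nat_lit 3) .nil))))) (.g (nat_lit 0) (.e (nat_lit 235634) (nat_lit 0) .nil) .nil)))) (.nd (nat_lit 9) 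
(.lf (nat_lit 526740) (.g (nat_lit 950) (.e (nat_lit 229120) (nat_lit 5) (.e (nat_lit 114698) (nat_lit 11) (.e (nat_lit 426325) (nat_lit 13) (.e (nat_lit 491264) (nat_lit 23) .nil)))) (.g (nat_lit 0) (.e (nat_lit 235301) (nat_lit 0) .nil) .nil))) 
(.lf (nat_lit 527252) (.g (nat_lit 1548) (.e (nat_lit 221210) (nat_lit 22) (.e (nat_lit 196666) (nat_lit 13) (.e (nat_lit 65570) (nat_lit 3) (.e (nat_lit 98333) (nat_lit 18) .nil)))) (.g (nat_lit 0) (.e (nat_lit 237404) (nat_lit 0) .nil) .nil)))))) (.nd (nat_lit 7) (.nd (nat_lit 8) (.nd (nat_lit 9) 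
(.lf (nat_lit 526420) (.g (nat_lit 2986) (.e (nat_lit 213032) (nat_lit 11) (.e (nat_lit 24628) (nat_lit 9) (.e (nat_lit 336443) (nat_lit 32) (.e (nat_lit 466972) (nat_lit 21) (.e (nat_lit 164331) (nat_lit 230) (.e (nat_lit 163878) (nat_lit 4) .nil)))))) (.g (nat_lit 1) (.e (nat_lit 234658) (nat_lit 0) .nil) .nil))) 
(.lf (nat_lit 526932) (.g (nat_lit 726) (.e (nat_lit 221194) (nat_lit 11) (.e (nat_lit 336086) (nat_lit 9) (.e (nat_lit 336444) (nat_lit 32) (.e (nat_lit 466969) (nat_lit 21) .nil)))) (.g (nat_lit 0) (.e (nat_lit 235528) (nat_lit 0) .nil) .nil)))) (.nd (nat_lit 9) 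
(.lf (nat_lit 526676) (.g (nat_lit 998) (.e (nat_lit 229120) (nat_lit 2) (.e (nat_lit 90159) (nat_lit 11) (.e (nat_lit 24657) (nat_lit 13) (.e (nat_lit 393227) (nat_lit 9) .nil)))) (.g (nat_lit 0) (.e (nat_lit 235220) (nat_lit 0) .nil) .nil))) 
(.lf (nat_lit 527188) (.g (nat_lit 1690) (.e (nat_lit 221208) (nat_lit 21) (.e (nat_lit 164332) (nat_lit 230) (.e (nat_lit 163905) (nat_lit 12) (.e (nat_lit 426227) (nat_lit 9) (.e (nat_lit 433920) (nat_lit 29) (.e (nat_lit 360192) (nat_lit 5) .nil)))))) (.g (nat_lit 1) (.e (nat_lit 237066) (nat_lit 0) .nil) .nil))))) (.nd (nat_lit 8) (.nd (nat_lit 9) 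
(.lf (nat_lit 526548) (.g (nat_lit 1268) (.e (nat_lit 213032) (nat_lit 11) (.e (nat_lit 24659) (nat_lit 13) (.e (nat_lit 393293) (nat_lit 26) (.e (nat_lit 475214) (nat_lit 42) (.e (nat_lit 728832) (nat_lit 4) .nil))))) (.g (nat_lit 0) (.e (nat_lit 234857) (nat_lit 0) .nil) .nil))) 
(.lf (nat_lit 527060) (.g (nat_lit 1811) (.e (nat_lit 221203) (nat_lit 20) (.e (nat_lit 3253) (nat_lit 197) (.e (nat_lit 532504) (nat_lit 1) (.e (nat_lit 57931) (nat_lit 282) .nil)))) (.g (nat_lit 0) (.e (nat_lit 235713) (nat_lit 0) .nil) .nil)))) (.nd (nat_lit 9) 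
(.lf (nat_lit 526804) (.g (nat_lit 1854) (.e (nat_lit 221192) (nat_lit 11) (.e (nat_lit 336152) (nat_lit 9) (.e (nat_lit 336442) (nat_lit 32) (.e (nat_lit 466971) (nat_lit 21) (.e (nat_lit 164325) (nat_lit 230) (.e (nat_lit 163884) (nat_lit 5) .nil)))))) (.g (nat_lit 1) (.e (nat_lit 235371) (nat_lit 0) .nil) .nil))) 
(.lf (nat_lit 527316) (.g (nat_lit 1156) (.e (nat_lit 221210) (nat_lit 22) (.e (nat_lit 196668) (nat_lit 14) (.e (nat_lit 73747) (nat_lit 3) (.e (nat_lit 516119) (nat_lit 1) .nil)))) (.g (nat_lit 0) (.e (nat_lit 237751) (nat_lit 0) .nil) .nil))))))) (.nd (nat_lit 6) (.nd (nat_lit 7) (.nd (nat_lit 8) (.nd (nat_lit 9) 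
(.lf (nat_lit 526388) (.g (nat_lit 1098) (.e (nat_lit 213032) (nat_lit 11) (.e (nat_lit 24627) (nat_lit 9) (.e (nat_lit 336426) (nat_lit 29) (.e (nat_lit 442421) (nat_lit 21) .nil)))) (.g (nat_lit 0) (.e (nat_lit 234592) (nat_lit 0) .nil) .nil))) 
(.lf (nat_lit 526900) (.g (nat_lit 3165) (.e (nat_lit 221194) (nat_lit 11) (.e (nat_lit 336074) (nat_lit 9) (.e (nat_lit 336443) (nat_lit 32) (.e (nat_lit 466969) (nat_lit 21) (.e (nat_lit 164324) (nat_lit 230) (.e (nat_lit 163885) (nat_lit 5) .nil)))))) (.g (nat_lit 1) (.e (nat_lit 235496) (nat_lit 0) .nil) .nil)))) (.nd (nat_lit 9) 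
(.lf (nat_lit 526644) (.g (nat_lit 3599) (.e (nat_lit 213035) (nat_lit 12) (.e (nat_lit 163979) (nat_lit 30) (.e (nat_lit 573474) (nat_lit 12) (.e (nat_lit 57528) (nat_lit 46) (.e (nat_lit 704514) (nat_lit 0) .nil))))) (.g (nat_lit 0) (.e (nat_lit 235117) (nat_lit 0) .nil) .nil))) 
(.lf (nat_lit 527156) (.g (nat_lit 1397) (.e (nat_lit 221207) (nat_lit 21) (.e (nat_lit 164326) (nat_lit 230) (.e (nat_lit 163903) (nat_lit 12) (.e (nat_lit 426233) (nat_lit 9) .nil)))) (.g (nat_lit 0) (.e (nat_lit 236575) (nat_lit 0) .nil) .nil))))) (.nd (nat_lit 8) (.nd (nat_lit 9) 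
(.lf (nat_lit 526516) (.g (nat_lit 2189) (.e (nat_lit 213032) (nat_lit 11) (.e (nat_lit 24658) (nat_lit 13) (.e (nat_lit 393281) (nat_lit 23) (.e (nat_lit 426100) (nat_lit 1) (.e (nat_lit 164322) (nat_lit 230) (.e (nat_lit 163878) (nat_lit 4) .nil)))))) (.g (nat_lit 1) (.e (nat_lit 234815) (nat_lit 0) .nil) .nil))) 
(.lf (nat_lit 527028) (.g (nat_lit 2086) (.e (nat_lit 221195) (nat_lit 20) (.e (nat_lit 3238) (nat_lit 197) (.e (nat_lit 532499) (nat_lit 1) (.e (nat_lit 57927) (nat_lit 282) (.e (nat_lit 163874) (nat_lit 3) .nil))))) (.g (nat_lit 0) (.e (nat_lit 235671) (nat_lit 0) .nil) .nil)))) (.nd (nat_lit 9) 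
(.lf (nat_lit 526772) (.g (nat_lit 3115) (.e (nat_lit 221190) (nat_lit 11) (.e (nat_lit 336011) (nat_lit 2) (.e (nat_lit 90170) (nat_lit 13) (.e (nat_lit 172118) (nat_lit 12) (.e (nat_lit 475177) (nat_lit 24) (.e (nat_lit 516131) (nat_lit 3) .nil)))))) (.g (nat_lit 1) (.e (nat_lit 235334) (nat_lit 0) .nil) .nil))) 
(.lf (nat_lit 527284) (.g (nat_lit 3462) (.e (nat_lit 221210) (nat_lit 22) (.e (nat_lit 196668) (nat_lit 14) (.e (nat_lit 73746) (nat_lit 3) (.e (nat_lit 516120) (nat_lit 1) (.e (nat_lit 164183) (nat_lit 154) (.e (nat_lit 57379) (nat_lit 3) (.e (nat_lit 98340) (nat_lit 20) .nil))))))) (.g (nat_lit 1) (.e (nat_lit 237573) (nat_lit 0) .nil) .nil)))))) 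
(.nd (nat_lit 7) (.nd (nat_lit 8) (.nd (nat_lit 9) 
(.lf (nat_lit 526452) (.g (nat_lit 2079) (.e (nat_lit 213032) (nat_lit 11) (.e (nat_lit 24655) (nat_lit 13) (.e (nat_lit 393270) (nat_lit 23) (.e (nat_lit 426448) (nat_lit 20) (.e (nat_lit 122624) (nat_lit 4) .nil))))) (.g (nat_lit 1) (.e (nat_lit 234722) (nat_lit 0) .nil) .nil))) 
(.lf (nat_lit 526964) (.g (nat_lit 3202) (.e (nat_lit 221194) (nat_lit 11) (.e (nat_lit 336194) (nat_lit 12) (.e (nat_lit 385109) (nat_lit 51) (.e (nat_lit 794683) (nat_lit 25) .nil)))) (.g (nat_lit 0) (.e (nat_lit 235560) (nat_lit 0) .nil) .nil)))) (.nd (nat_lit 9) 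
(.lf (nat_lit 526708) (.g (nat_lit 1181) (.e (nat_lit 229120) (nat_lit 5) (.e (nat_lit 114698) (nat_lit 11) (.e (nat_lit 426189) (nat_lit 9) (.e (nat_lit 426555) (nat_lit 32) (.e (nat_lit 384768) (nat_lit 5) .nil))))) (.g (nat_lit 0) (.e (nat_lit 235268) (nat_lit 0) .nil) .nil))) 
(.lf (nat_lit 527220) (.g (nat_lit 1961) (.e (nat_lit 221210) (nat_lit 22) (.e (nat_lit 196654) (nat_lit 11) (.e (nat_lit 16438) (nat_lit 9) (.e (nat_lit 426131) (nat_lit 3) (.e (nat_lit 204854) (nat_lit 26) .nil))))) (.g (nat_lit 0) (.e (nat_lit 237255) (nat_lit 0) .nil) .nil))))) (.nd (nat_lit 8) (.nd (nat_lit 9) 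
(.lf (nat_lit 526580) (.g (nat_lit 2104) (.e (nat_lit 220928) (nat_lit 11) (.e (nat_lit 24608) (nat_lit 3) (.e (nat_lit 98365) (nat_lit 26) (.e (nat_lit 426306) (nat_lit 12) (.e (nat_lit 475175) (nat_lit 24) .nil))))) (.g (nat_lit 0) (.e (nat_lit 234997) (nat_lit 0) .nil) .nil))) 
(.lf (nat_lit 527092) (.g (nat_lit 1820) (.e (nat_lit 221204) (nat_lit 20) (.e (nat_lit 3253) (nat_lit 197) (.e (nat_lit 532503) (nat_lit 1) (.e (nat_lit 57931) (nat_lit 282) (.e (nat_lit 163867) (nat_lit 2) .nil))))) (.g (nat_lit 0) (.e (nat_lit 235746) (nat_lit 0) .nil) .nil)))) (.nd (nat_lit 9) 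
(.lf (nat_lit 526836) (.g (nat_lit 3386) (.e (nat_lit 221193) (nat_lit 11) (.e (nat_lit 336027) (nat_lit 3) (.e (nat_lit 98365) (nat_lit 26) (.e (nat_lit 426306) (nat_lit 12) (.e (nat_lit 475179) (nat_lit 24) (.e (nat_lit 516129) (nat_lit 3) .nil)))))) (.g (nat_lit 1) (.e (nat_lit 235412) (nat_lit 0) .nil) .nil))) 
(.lf (nat_lit 527348) (.g (nat_lit 2326) (.e (nat_lit 221210) (nat_lit 22) (.e (nat_lit 196670) (nat_lit 14) (.e (nat_lit 73746) (nat_lit 3) (.e (nat_lit 516117) (nat_lit 1) (.e (nat_lit 164160) (nat_lit 152) .nil))))) (.g (nat_lit 0) (.e (nat_lit 237965) (nat_lit 0) .nil) .nil))))))))) (.nd (nat_lit 4) (.nd (nat_lit 5) (.nd (nat_lit 6) (.nd (nat_lit 7) (.nd (nat_lit 8) (.nd (nat_lit 9) 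
(.lf (nat_lit 526348) (.g (nat_lit 1705) (.e (nat_lit 213032) (nat_lit 11) (.e (nat_lit 24623) (nat_lit 9) (.e (nat_lit 336443) (nat_lit 32) (.e (nat_lit 466971) (nat_lit 21) .nil)))) (.g (nat_lit 0) (.e (nat_lit 234547) (nat_lit 0) .nil) .nil))) 
(.lf (nat_lit 526860) (.g (nat_lit 3152) (.e (nat_lit 221193) (nat_lit 11) (.e (nat_lit 336077) (nat_lit 9) (.e (nat_lit 336443) (nat_lit 32) (.e (nat_lit 466969) (nat_lit 21) (.e (nat_lit 164332) (nat_lit 230) (.e (nat_lit 163885) (nat_lit 5) .nil)))))) (.g (nat_lit 1) (.e (nat_lit 235436) (nat_lit 0) .nil) .nil)))) (.nd (nat_lit 9) 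
(.lf (nat_lit 526604) (.g (nat_lit 3017) (.e (nat_lit 213033) (nat_lit 12) (.e (nat_lit 163979) (nat_lit 30) (.e (nat_lit 573474) (nat_lit 12) (.e (nat_lit 57528) (nat_lit 46) .nil)))) (.g (nat_lit 0) (.e (nat_lit 235039) (nat_lit 0) .nil) .nil))) 
(.lf (nat_lit 527116) (.g (nat_lit 691) (.e (nat_lit 221206) (nat_lit 21) (.e (nat_lit 164330) (nat_lit 230) (.e (nat_lit 163900) (nat_lit 12) .nil))) (.g (nat_lit 0) (.e (nat_lit 236074) (nat_lit 0) .nil) .nil))))) (.nd (nat_lit 8) (.nd (nat_lit 9) 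
(.lf (nat_lit 526476) (.g (nat_lit 2144) (.e (nat_lit 213032) (nat_lit 11) (.e (nat_lit 24655) (nat_lit 13) (.e (nat_lit 393295) (nat_lit 26) (.e (nat_lit 475214) (nat_lit 42) (.e (nat_lit 728832) (nat_lit 4) .nil))))) (.g (nat_lit 1) (.e (nat_lit 234750) (nat_lit 0) .nil) .nil))) 
(.lf (nat_lit 526988) (.g (nat_lit 1589) (.e (nat_lit 229120) (nat_lit 11) (.e (nat_lit 336454) (nat_lit 34) (.e (nat_lit 483375) (nat_lit 22) (.e (nat_lit 327705) (nat_lit 10) (.e (nat_lit 578) (nat_lit 43) .nil))))) (.g (nat_lit 0) (.e (nat_lit 235626) (nat_lit 0) .nil) .nil)))) (.nd (nat_lit 9) 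
(.lf (nat_lit 526732) (.g (nat_lit 1928) (.e (nat_lit 229120) (nat_lit 5) (.e (nat_lit 114698) (nat_lit 11) (.e (nat_lit 426200) (nat_lit 9) (.e (nat_lit 426555) (nat_lit 32) (.e (nat_lit 384768) (nat_lit 5) .nil))))) (.g (nat_lit 0) (.e (nat_lit 235293) (nat_lit 0) .nil) .nil))) 
(.lf (nat_lit 527244) (.g (nat_lit 517) (.e (nat_lit 221210) (nat_lit 22) (.e (nat_lit 196666) (nat_lit 13) (.e (nat_lit 65569) (nat_lit 3) .nil))) (.g (nat_lit 0) (.e (nat_lit 237375) (nat_lit 0) .nil) .nil)))))) (.nd (nat_lit 7) (.nd (nat_lit 8) (.nd (nat_lit 9) 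
(.lf (nat_lit 526412) (.g (nat_lit 870) (.e (nat_lit 213032) (nat_lit 11) (.e (nat_lit 24628) (nat_lit 9) (.e (nat_lit 336443) (nat_lit 32) (.e (nat_lit 466971) (nat_lit 21) .nil)))) (.g (nat_lit 0) (.e (nat_lit 234650) (nat_lit 0) .nil) .nil))) 
(.lf (nat_lit 526924) (.g (nat_lit 3359) (.e (nat_lit 221194) (nat_lit 11) (.e (nat_lit 336077) (nat_lit 9) (.e (nat_lit 336443) (nat_lit 32) (.e (nat_lit 466972) (nat_lit 21) (.e (nat_lit 164331) (nat_lit 230) (.e (nat_lit 163885) (nat_lit 5) .nil)))))) (.g (nat_lit 1) (.e (nat_lit 235520) (nat_lit 0) .nil) .nil)))) (.nd (nat_lit 9) 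
(.lf (nat_lit 526668) (.g (nat_lit 169) (.e (nat_lit 229120) (nat_lit 0) (.e (nat_lit 6244) (nat_lit 336) (.e (nat_lit 229644) (nat_lit 232) (.e (nat_lit 464) (nat_lit 34) (.e (nat_lit 450304) (nat_lit 5) .nil))))) (.g (nat_lit 0) (.e (nat_lit 235211) (nat_lit 0) .nil) .nil))) 
(.lf (nat_lit 527180) (.g (nat_lit 1022) (.e (nat_lit 221208) (nat_lit 21) (.e (nat_lit 164330) (nat_lit 230) (.e (nat_lit 163913) (nat_lit 12) (.e (nat_lit 426228) (nat_lit 9) .nil)))) (.g (nat_lit 0) (.e (nat_lit 236896) (nat_lit 0) .nil) .nil))))) (.nd (nat_lit 8) (.nd (nat_lit 9) 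
(.lf (nat_lit 526540) (.g (nat_lit 2941) (.e (nat_lit 213032) (nat_lit 11) (.e (nat_lit 24659) (nat_lit 13) (.e (nat_lit 393281) (nat_lit 23) (.e (nat_lit 426100) (nat_lit 1) (.e (nat_lit 164332) (nat_lit 230) (.e (nat_lit 163880) (nat_lit 4) .nil)))))) (.g (nat_lit 1) (.e (nat_lit 234846) (nat_lit 0) .nil) .nil))) 
(.lf (nat_lit 527052) (.g (nat_lit 1673) (.e (nat_lit 221203) (nat_lit 20) (.e (nat_lit 3253) (nat_lit 197) (.e (nat_lit 532501) (nat_lit 1) (.e (nat_lit 57927) (nat_lit 282) .nil)))) (.g (nat_lit 0) (.e (nat_lit 235704) (nat_lit 0) .nil) .nil)))) (.nd (nat_lit 9) 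
(.lf (nat_lit 526796) (.g (nat_lit 2333) (.e (nat_lit 221191) (nat_lit 11) (.e (nat_lit 336153) (nat_lit 9) (.e (nat_lit 336442) (nat_lit 32) (.e (nat_lit 466972) (nat_lit 21) (.e (nat_lit 164332) (nat_lit 230) (.e (nat_lit 163885) (nat_lit 5) .nil)))))) (.g (nat_lit 1) (.e (nat_lit 235362) (nat_lit 0) .nil) .nil))) 
(.lf (nat_lit 527308) (.g (nat_lit 1993) (.e (nat_lit 221210) (nat_lit 22) (.e (nat_lit 196668) (nat_lit 14) (.e (nat_lit 73747) (nat_lit 3) (.e (nat_lit 516117) (nat_lit 1) (.e (nat_lit 164165) (nat_lit 152) .nil))))) (.g (nat_lit 0) (.e (nat_lit 237705) (nat_lit 0) .nil) .nil))))))) (.nd (nat_lit 6) (.nd (nat_lit 7) (.nd (nat_lit 8) (.nd (nat_lit 9) 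
(.lf (nat_lit 526380) (.g (nat_lit 3069) (.e (nat_lit 213032) (nat_lit 11) (.e (nat_lit 24626) (nat_lit 9) (.e (nat_lit 336443) (nat_lit 32) (.e (nat_lit 466969) (nat_lit 21) (.e (nat_lit 164327) (nat_lit 230) (.e (nat_lit 163881) (nat_lit 4) .nil)))))) (.g (nat_lit 1) (.e (nat_lit 234584) (nat_lit 0) .nil) .nil))) 
(.lf (nat_lit 526892) (.g (nat_lit 2797) (.e (nat_lit 221194) (nat_lit 11) (.e (nat_lit 336027) (nat_lit 3) (.e (nat_lit 98358) (nat_lit 26) (.e (nat_lit 426320) (nat_lit 12) (.e (nat_lit 475179) (nat_lit 24) .nil))))) (.g (nat_lit 0) (.e (nat_lit 235488) (nat_lit 0) .nil) .nil)))) (.nd (nat_lit 9) 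
(.lf (nat_lit 526636) (.g (nat_lit 977) (.e (nat_lit 213035) (nat_lit 12) (.e (nat_lit 163978) (nat_lit 30) (.e (nat_lit 573477) (nat_lit 12) .nil))) (.g (nat_lit 0) (.e (nat_lit 235106) (nat_lit 0) .nil) .nil))) 
(.lf (nat_lit 527148) (.g (nat_lit 1206) (.e (nat_lit 221207) (nat_lit 21) (.e (nat_lit 164325) (nat_lit 230) (.e (nat_lit 163905) (nat_lit 12) (.e (nat_lit 426227) (nat_lit 9) .nil)))) (.g (nat_lit 0) (.e (nat_lit 236466) (nat_lit 0) .nil) .nil))))) (.nd (nat_lit 8) (.nd (nat_lit 9) 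
(.lf (nat_lit 526508) (.g (nat_lit 1894) (.e (nat_lit 213032) (nat_lit 11) (.e (nat_lit 24657) (nat_lit 13) (.e (nat_lit 393294) (nat_lit 26) (.e (nat_lit 475212) (nat_lit 42) (.e (nat_lit 728832) (nat_lit 4) .nil))))) (.g (nat_lit 0) (.e (nat_lit 234786) (nat_lit 0) .nil) .nil))) 
(.lf (nat_lit 527020) (.g (nat_lit 1671) (.e (nat_lit 229120) (nat_lit 17) (.e (nat_lit 385068) (nat_lit 26) (.e (nat_lit 532560) (nat_lit 14) (.e (nat_lit 376857) (nat_lit 21) .nil)))) (.g (nat_lit 0) (.e (nat_lit 235662) (nat_lit 0) .nil) .nil)))) (.nd (nat_lit 9) 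
(.lf (nat_lit 526764) (.g (nat_lit 2216) (.e (nat_lit 229120) (nat_lit 5) (.e (nat_lit 114698) (nat_lit 11) (.e (nat_lit 426335) (nat_lit 13) (.e (nat_lit 483389) (nat_lit 23) .nil)))) (.g (nat_lit 0) (.e (nat_lit 235326) (nat_lit 0) .nil) .nil))) 
(.lf (nat_lit 527276) (.g (nat_lit 2737) (.e (nat_lit 221210) (nat_lit 22) (.e (nat_lit 196668) (nat_lit 14) (.e (nat_lit 73746) (nat_lit 3) (.e (nat_lit 516119) (nat_lit 1) (.e (nat_lit 164183) (nat_lit 154) (.e (nat_lit 57378) (nat_lit 3) (.e (nat_lit 98342) (nat_lit 20) .nil))))))) (.g (nat_lit 1) (.e (nat_lit 237545) (nat_lit 0) .nil) .nil)))))) 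
(.nd (nat_lit 7) (.nd (nat_lit 8) (.nd (nat_lit 9) 
(.lf (nat_lit 526444) (.g (nat_lit 275) (.e (nat_lit 213032) (nat_lit 11) (.e (nat_lit 24654) (nat_lit 13) (.e (nat_lit 393270) (nat_lit 23) .nil))) (.g (nat_lit 0) (.e (nat_lit 234714) (nat_lit 0) .nil) .nil))) 
(.lf (nat_lit 526956) (.g (nat_lit 2712) (.e (nat_lit 221194) (nat_lit 11) (.e (nat_lit 336088) (nat_lit 9) (.e (nat_lit 336419) (nat_lit 27) (.e (nat_lit 426306) (nat_lit 12) (.e (nat_lit 475214) (nat_lit 42) (.e (nat_lit 728832) (nat_lit 5) .nil)))))) (.g (nat_lit 1) (.e (nat_lit 235552) (nat_lit 0) .nil) .nil)))) (.nd (nat_lit 9) 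
(.lf (nat_lit 526700) (.g (nat_lit 471) (.e (nat_lit 229120) (nat_lit 5) (.e (nat_lit 114696) (nat_lit 11) (.e (nat_lit 426262) (nat_lit 9) (.e (nat_lit 426541) (nat_lit 29) (.e (nat_lit 360192) (nat_lit 5) .nil))))) (.g (nat_lit 0) (.e (nat_lit 235253) (nat_lit 0) .nil) .nil))) 
(.lf (nat_lit 527212) (.g (nat_lit 2471) (.e (nat_lit 221208) (nat_lit 21) (.e (nat_lit 164402) (nat_lit 256) (.e (nat_lit 57427) (nat_lit 15) (.e (nat_lit 360475) (nat_lit 8) (.e (nat_lit 557068) (nat_lit 9) .nil))))) (.g (nat_lit 0) (.e (nat_lit 237124) (nat_lit 0) .nil) .nil))))) (.nd (nat_lit 8) (.nd (nat_lit 9) 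
(.lf (nat_lit 526572) (.g (nat_lit 2358) (.e (nat_lit 213032) (nat_lit 11) (.e (nat_lit 24665) (nat_lit 14) (.e (nat_lit 401444) (nat_lit 9) (.e (nat_lit 425984) (nat_lit 0) .nil)))) (.g (nat_lit 0) (.e (nat_lit 234914) (nat_lit 0) .nil) .nil))) 
(.lf (nat_lit 527084) (.g (nat_lit 1846) (.e (nat_lit 221204) (nat_lit 20) (.e (nat_lit 3253) (nat_lit 197) (.e (nat_lit 532501) (nat_lit 1) (.e (nat_lit 57927) (nat_lit 282) (.e (nat_lit 163875) (nat_lit 3) .nil))))) (.g (nat_lit 0) (.e (nat_lit 235738) (nat_lit 0) .nil) .nil)))) (.nd (nat_lit 9) 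
(.lf (nat_lit 526828) (.g (nat_lit 3137) (.e (nat_lit 221193) (nat_lit 11) (.e (nat_lit 336010) (nat_lit 2) (.e (nat_lit 90170) (nat_lit 13) (.e (nat_lit 172120) (nat_lit 12) (.e (nat_lit 475179) (nat_lit 24) (.e (nat_lit 516129) (nat_lit 3) .nil)))))) (.g (nat_lit 1) (.e (nat_lit 235404) (nat_lit 0) .nil) .nil))) 
(.lf (nat_lit 527340) (.g (nat_lit 2173) (.e (nat_lit 221210) (nat_lit 22) (.e (nat_lit 196670) (nat_lit 14) (.e (nat_lit 73746) (nat_lit 3) (.e (nat_lit 516115) (nat_lit 1) (.e (nat_lit 164178) (nat_lit 154) .nil))))) (.g (nat_lit 0) (.e (nat_lit 237908) (nat_lit 0) .nil) .nil)))))))) (.nd (nat_lit 5) (.nd (nat_lit 6) (.nd (nat_lit 7) (.nd (nat_lit 8) (.nd (nat_lit 9) 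
(.lf (nat_lit 526364) (.g (nat_lit 2805) (.e (nat_lit 213032) (nat_lit 11) (.e (nat_lit 24625) (nat_lit 9) (.e (nat_lit 336443) (nat_lit 32) (.e (nat_lit 466969) (nat_lit 21) (.e (nat_lit 164326) (nat_lit 230) (.e (nat_lit 163879) (nat_lit 4) .nil)))))) (.g (nat_lit 1) (.e (nat_lit 234568) (nat_lit 0) .nil) .nil))) 
(.lf (nat_lit 526876) (.g (nat_lit 1574) (.e (nat_lit 221193) (nat_lit 11) (.e (nat_lit 336087) (nat_lit 9) (.e (nat_lit 336444) (nat_lit 32) (.e (nat_lit 466971) (nat_lit 21) (.e (nat_lit 164324) (nat_lit 230) (.e (nat_lit 163886) (nat_lit 5) .nil)))))) (.g (nat_lit 1) (.e (nat_lit 235452) (nat_lit 0) .nil) .nil)))) (.nd (nat_lit 9) 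
(.lf (nat_lit 526620) (.g (nat_lit 3098) (.e (nat_lit 213034) (nat_lit 12) (.e (nat_lit 163978) (nat_lit 30) (.e (nat_lit 573475) (nat_lit 12) (.e (nat_lit 57543) (nat_lit 47) .nil)))) (.g (nat_lit 0) (.e (nat_lit 235074) (nat_lit 0) .nil) .nil))) 
(.lf (nat_lit 527132) (.g (nat_lit 872) (.e (nat_lit 221206) (nat_lit 21) (.e (nat_lit 164332) (nat_lit 230) (.e (nat_lit 163934) (nat_lit 17) (.e (nat_lit 474880) (nat_lit 13) .nil)))) (.g (nat_lit 0) (.e (nat_lit 236260) (nat_lit 0) .nil) .nil))))) (.nd (nat_lit 8) (.nd (nat_lit 9) 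
(.lf (nat_lit 526492) (.g (nat_lit 2309) (.e (nat_lit 213032) (nat_lit 11) (.e (nat_lit 24657) (nat_lit 13) (.e (nat_lit 393268) (nat_lit 23) (.e (nat_lit 426448) (nat_lit 20) (.e (nat_lit 122624) (nat_lit 4) .nil))))) (.g (nat_lit 1) (.e (nat_lit 234769) (nat_lit 0) .nil) .nil))) 
(.lf (nat_lit 527004) (.g (nat_lit 1637) (.e (nat_lit 229120) (nat_lit 11) (.e (nat_lit 336456) (nat_lit 34) (.e (nat_lit 483406) (nat_lit 26) (.e (nat_lit 385066) (nat_lit 26) .nil)))) (.g (nat_lit 0) (.e (nat_lit 235642) (nat_lit 0) .nil) .nil)))) (.nd (nat_lit 9) 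
(.lf (nat_lit 526748) (.g (nat_lit 1368) (.e (nat_lit 229120) (nat_lit 5) (.e (nat_lit 114698) (nat_lit 11) (.e (nat_lit 426327) (nat_lit 13) (.e (nat_lit 483391) (nat_lit 23) (.e (nat_lit 336335) (nat_lit 20) .nil))))) (.g (nat_lit 0) (.e (nat_lit 235309) (nat_lit 0) .nil) .nil))) 
(.lf (nat_lit 527260) (.g (nat_lit 704) (.e (nat_lit 221210) (nat_lit 22) (.e (nat_lit 196666) (nat_lit 13) (.e (nat_lit 65577) (nat_lit 5) .nil))) (.g (nat_lit 0) (.e (nat_lit 237428) (nat_lit 0) .nil) .nil)))))) (.nd (nat_lit 7) (.nd (nat_lit 8) (.nd (nat_lit 9) 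
(.lf (nat_lit 526428) (.g (nat_lit 2678) (.e (nat_lit 213032) (nat_lit 11) (.e (nat_lit 24629) (nat_lit 9) (.e (nat_lit 336443) (nat_lit 32) (.e (nat_lit 466969) (nat_lit 21) (.e (nat_lit 164326) (nat_lit 230) (.e (nat_lit 163881) (nat_lit 4) .nil)))))) (.g (nat_lit 1) (.e (nat_lit 234667) (nat_lit 0) .nil) .nil))) 
(.lf (nat_lit 526940) (.g (nat_lit 2988) (.e (nat_lit 221194) (nat_lit 11) (.e (nat_lit 336087) (nat_lit 9) (.e (nat_lit 336431) (nat_lit 29) (.e (nat_lit 442421) (nat_lit 21) (.e (nat_lit 164326) (nat_lit 230) (.e (nat_lit 163884) (nat_lit 5) .nil)))))) (.g (nat_lit 1) (.e (nat_lit 235536) (nat_lit 0) .nil) .nil)))) (.nd (nat_lit 9) 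
(.lf (nat_lit 526684) (.g (nat_lit 315) (.e (nat_lit 229120) (nat_lit 3) (.e (nat_lit 98315) (nat_lit 9) (.e (nat_lit 336116) (nat_lit 9) (.e (nat_lit 336453) (nat_lit 34) .nil)))) (.g (nat_lit 0) (.e (nat_lit 235233) (nat_lit 0) .nil) .nil))) 
(.lf (nat_lit 527196) (.g (nat_lit 3726) (.e (nat_lit 221208) (nat_lit 21) (.e (nat_lit 164401) (nat_lit 256) (.e (nat_lit 57427) (nat_lit 15) (.e (nat_lit 360474) (nat_lit 8) (.e (nat_lit 557091) (nat_lit 12) (.e (nat_lit 164003) (nat_lit 40) (.e (nat_lit 655360) (nat_lit 0) (.e (nat_lit 2710) (nat_lit 170) .nil)))))))) (.g (nat_lit 1) (.e (nat_lit 237108) (nat_lit 0) .nil) .nil))))) 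
(.nd (nat_lit 8) (.nd (nat_lit 9) 
(.lf (nat_lit 526556) (.g (nat_lit 2144) (.e (nat_lit 213032) (nat_lit 11) (.e (nat_lit 24660) (nat_lit 13) (.e (nat_lit 393271) (nat_lit 23) (.e (nat_lit 426448) (nat_lit 20) (.e (nat_lit 122624) (nat_lit 4) .nil))))) (.g (nat_lit 1) (.e (nat_lit 234865) (nat_lit 0) .nil) .nil))) 
(.lf (nat_lit 527068) (.g (nat_lit 1276) (.e (nat_lit 221204) (nat_lit 20) (.e (nat_lit 3253) (nat_lit 197) (.e (nat_lit 532499) (nat_lit 1) (.e (nat_lit 57927) (nat_lit 282) .nil)))) (.g (nat_lit 0) (.e (nat_lit 235722) (nat_lit 0) .nil) .nil)))) (.nd (nat_lit 9) 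
(.lf (nat_lit 526812) (.g (nat_lit 1607) (.e (nat_lit 221192) (nat_lit 11) (.e (nat_lit 336153) (nat_lit 9) (.e (nat_lit 336442) (nat_lit 32) (.e (nat_lit 466969) (nat_lit 21) (.e (nat_lit 164326) (nat_lit 230) (.e (nat_lit 163884) (nat_lit 5) .nil)))))) (.g (nat_lit 1) (.e (nat_lit 235379) (nat_lit 0) .nil) .nil))) 
(.lf (nat_lit 527324) (.g (nat_lit 2445) (.e (nat_lit 221210) (nat_lit 22) (.e (nat_lit 196668) (nat_lit 14) (.e (nat_lit 73747) (nat_lit 3) (.e (nat_lit 516119) (nat_lit 1) (.e (nat_lit 164180) (nat_lit 154) (.e (nat_lit 57378) (nat_lit 3) (.e (nat_lit 98340) (nat_lit 20) .nil))))))) (.g (nat_lit 1) (.e (nat_lit 237823) (nat_lit 0) .nil) .nil))))))) 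
(.nd (nat_lit 6) (.nd (nat_lit 7) (.nd (nat_lit 8) (.nd (nat_lit 9) 
(.lf (nat_lit 526396) (.g (nat_lit 2761) (.e (nat_lit 213032) (nat_lit 11) (.e (nat_lit 24627) (nat_lit 9) (.e (nat_lit 336443) (nat_lit 32) (.e (nat_lit 466969) (nat_lit 21) (.e (nat_lit 164330) (nat_lit 230) (.e (nat_lit 163877) (nat_lit 4) .nil)))))) (.g (nat_lit 1) (.e (nat_lit 234600) (nat_lit 0) .nil) .nil))) 
(.lf (nat_lit 526908) (.g (nat_lit 3871) (.e (nat_lit 221194) (nat_lit 11) (.e (nat_lit 336075) (nat_lit 9) (.e (nat_lit 336443) (nat_lit 32) (.e (nat_lit 466969) (nat_lit 21) (.e (nat_lit 164332) (nat_lit 230) (.e (nat_lit 163885) (nat_lit 5) .nil)))))) (.g (nat_lit 1) (.e (nat_lit 235504) (nat_lit 0) .nil) .nil)))) (.nd (nat_lit 9) 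
(.lf (nat_lit 526652) (.g (nat_lit 2135) (.e (nat_lit 213035) (nat_lit 12) (.e (nat_lit 163979) (nat_lit 30) (.e (nat_lit 573475) (nat_lit 12) (.e (nat_lit 57544) (nat_lit 47) .nil)))) (.g (nat_lit 0) (.e (nat_lit 235129) (nat_lit 0) .nil) .nil))) 
(.lf (nat_lit 527164) (.g (nat_lit 2017) (.e (nat_lit 221207) (nat_lit 21) (.e (nat_lit 164332) (nat_lit 230) (.e (nat_lit 163905) (nat_lit 12) (.e (nat_lit 426226) (nat_lit 9) .nil)))) (.g (nat_lit 0) (.e (nat_lit 236667) (nat_lit 0) .nil) .nil))))) (.nd (nat_lit 8) (.nd (nat_lit 9) 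
(.lf (nat_lit 526524) (.g (nat_lit 1954) (.e (nat_lit 213032) (nat_lit 11) (.e (nat_lit 24658) (nat_lit 13) (.e (nat_lit 393293) (nat_lit 26) (.e (nat_lit 475212) (nat_lit 42) (.e (nat_lit 728832) (nat_lit 4) .nil))))) (.g (nat_lit 1) (.e (nat_lit 234828) (nat_lit 0) .nil) .nil))) 
(.lf (nat_lit 527036) (.g (nat_lit 3522) (.e (nat_lit 221198) (nat_lit 20) (.e (nat_lit 3464) (nat_lit 217) (.e (nat_lit 696343) (nat_lit 8) (.e (nat_lit 172126) (nat_lit 14) (.e (nat_lit 491566) (nat_lit 12) (.e (nat_lit 385107) (nat_lit 51) (.e (nat_lit 794683) (nat_lit 25) .nil))))))) (.g (nat_lit 1) (.e (nat_lit 235684) (nat_lit 0) .nil) .nil)))) (.nd (nat_lit 9) 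
(.lf (nat_lit 526780) (.g (nat_lit 1210) (.e (nat_lit 221190) (nat_lit 11) (.e (nat_lit 336078) (nat_lit 9) (.e (nat_lit 336443) (nat_lit 32) (.e (nat_lit 466971) (nat_lit 21) .nil)))) (.g (nat_lit 0) (.e (nat_lit 235342) (nat_lit 0) .nil) .nil))) 
(.lf (nat_lit 527292) (.g (nat_lit 2542) (.e (nat_lit 221210) (nat_lit 22) (.e (nat_lit 196668) (nat_lit 14) (.e (nat_lit 73747) (nat_lit 3) (.e (nat_lit 516115) (nat_lit 1) (.e (nat_lit 164176) (nat_lit 154) .nil))))) (.g (nat_lit 0) (.e (nat_lit 237584) (nat_lit 0) .nil) .nil)))))) (.nd (nat_lit 7) (.nd (nat_lit 8) (.nd (nat_lit 9) 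
(.lf (nat_lit 526460) (.g (nat_lit 819) (.e (nat_lit 213032) (nat_lit 11) (.e (nat_lit 24655) (nat_lit 13) (.e (nat_lit 393278) (nat_lit 23) .nil))) (.g (nat_lit 0) (.e (nat_lit 234730) (nat_lit 0) .nil) .nil))) 
(.lf (nat_lit 526972) (.g (nat_lit 1628) (.e (nat_lit 221194) (nat_lit 11) (.e (nat_lit 336223) (nat_lit 13) (.e (nat_lit 393234) (nat_lit 17) (.e (nat_lit 7310) (nat_lit 388) .nil)))) (.g (nat_lit 0) (.e (nat_lit 235568) (nat_lit 0) .nil) .nil)))) (.nd (nat_lit 9) 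
(.lf (nat_lit 526716) (.g (nat_lit 1464) (.e (nat_lit 229120) (nat_lit 5) (.e (nat_lit 114698) (nat_lit 11) (.e (nat_lit 426197) (nat_lit 9) (.e (nat_lit 426542) (nat_lit 29) (.e (nat_lit 360192) (nat_lit 5) .nil))))) (.g (nat_lit 0) (.e (nat_lit 235277) (nat_lit 0) .nil) .nil))) 
(.lf (nat_lit 527228) (.g (nat_lit 2965) (.e (nat_lit 221210) (nat_lit 22) (.e (nat_lit 196656) (nat_lit 11) (.e (nat_lit 16425) (nat_lit 7) (.e (nat_lit 409617) (nat_lit 10) (.e (nat_lit 604) (nat_lit 45) (.e (nat_lit 532501) (nat_lit 1) (.e (nat_lit 57931) (nat_lit 282) (.e (nat_lit 163885) (nat_lit 5) .nil)))))))) (.g (nat_lit 1) (.e (nat_lit 237292) (nat_lit 0) .nil) .nil))))) 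
(.nd (nat_lit 8) (.nd (nat_lit 9) 
(.lf (nat_lit 526588) (.g (nat_lit 2334) (.e (nat_lit 213033) (nat_lit 12) (.e (nat_lit 163975) (nat_lit 30) (.e (nat_lit 573474) (nat_lit 12) (.e (nat_lit 57528) (nat_lit 46) .nil)))) (.g (nat_lit 0) (.e (nat_lit 235008) (nat_lit 0) .nil) .nil))) 
(.lf (nat_lit 527100) (.g (nat_lit 1449) (.e (nat_lit 221204) (nat_lit 20) (.e (nat_lit 3305) (nat_lit 202) (.e (nat_lit 573477) (nat_lit 12) (.e (nat_lit 57548) (nat_lit 47) .nil)))) (.g (nat_lit 0) (.e (nat_lit 235754) (nat_lit 0) .nil) .nil)))) (.nd (nat_lit 9) 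
(.lf (nat_lit 526844) (.g (nat_lit 1789) (.e (nat_lit 221193) (nat_lit 11) (.e (nat_lit 336074) (nat_lit 9) (.e (nat_lit 336443) (nat_lit 32) (.e (nat_lit 466969) (nat_lit 21) (.e (nat_lit 164330) (nat_lit 230) .nil))))) (.g (nat_lit 0) (.e (nat_lit 235420) (nat_lit 0) .nil) .nil))) 
(.lf (nat_lit 527356) (.g (nat_lit 1843) (.e (nat_lit 221210) (nat_lit 22) (.e (nat_lit 196670) (nat_lit 14) (.e (nat_lit 73746) (nat_lit 3) (.e (nat_lit 516119) (nat_lit 1) (.e (nat_lit 164176) (nat_lit 154) .nil))))) (.g (nat_lit 0) (.e (nat_lit 238016) (nat_lit 0) .nil) .nil))))))))))) 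
(.nd (nat_lit 2) (.nd (nat_lit 3) (.nd (nat_lit 4) (.nd (nat_lit 5) (.nd (nat_lit 6) 
(.nd (nat_lit 7) (.nd (nat_lit 8) (.nd (nat_lit 9) 
(.lf (nat_lit 526338) (.g (nat_lit 1152) (.e (nat_lit 213032) (nat_lit 11) (.e (nat_lit 24609) (nat_lit 3) (.e (nat_lit 98359) (nat_lit 26) (.e (nat_lit 426312) (nat_lit 12) .nil)))) (.g (nat_lit 0) (.e (nat_lit 234535) (nat_lit 0) .nil) .nil))) 
(.lf (nat_lit 526850) (.g (nat_lit 2103) (.e (nat_lit 221193) (nat_lit 11) (.e (nat_lit 336075) (nat_lit 9) (.e (nat_lit 336443) (nat_lit 32) (.e (nat_lit 466971) (nat_lit 21) (.e (nat_lit 164332) (nat_lit 230) (.e (nat_lit 163885) (nat_lit 5) .nil)))))) (.g (nat_lit 1) (.e (nat_lit 235426) (nat_lit 0) .nil) .nil)))) (.nd (nat_lit 9) 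
(.lf (nat_lit 526594) (.g (nat_lit 2017) (.e (nat_lit 213033) (nat_lit 12) (.e (nat_lit 163976) (nat_lit 30) (.e (nat_lit 573474) (nat_lit 12) (.e (nat_lit 57543) (nat_lit 47) (.e (nat_lit 712727) (nat_lit 17) .nil))))) (.g (nat_lit 0) (.e (nat_lit 235017) (nat_lit 0) .nil) .nil))) 
(.lf (nat_lit 527106) (.g (nat_lit 1652) (.e (nat_lit 221206) (nat_lit 21) (.e (nat_lit 164325) (nat_lit 230) (.e (nat_lit 163903) (nat_lit 12) (.e (nat_lit 426229) (nat_lit 9) .nil)))) (.g (nat_lit 0) (.e (nat_lit 235901) (nat_lit 0) .nil) .nil))))) (.nd (nat_lit 8) (.nd (nat_lit 9) 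
(.lf (nat_lit 526466) (.g (nat_lit 2789) (.e (nat_lit 213032) (nat_lit 11) (.e (nat_lit 24655) (nat_lit 13) (.e (nat_lit 393281) (nat_lit 23) (.e (nat_lit 426098) (nat_lit 1) (.e (nat_lit 164327) (nat_lit 230) (.e (nat_lit 163877) (nat_lit 4) .nil)))))) (.g (nat_lit 1) (.e (nat_lit 234736) (nat_lit 0) .nil) .nil))) 
(.lf (nat_lit 526978) (.g (nat_lit 1374) (.e (nat_lit 229120) (nat_lit 11) (.e (nat_lit 336028) (nat_lit 3) (.e (nat_lit 98354) (nat_lit 26) (.e (nat_lit 426317) (nat_lit 12) (.e (nat_lit 475177) (nat_lit 24) .nil))))) (.g (nat_lit 0) (.e (nat_lit 235591) (nat_lit 0) .nil) .nil)))) (.nd (nat_lit 9) 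
(.lf (nat_lit 526722) (.g (nat_lit 1175) (.e (nat_lit 229120) (nat_lit 5) (.e (nat_lit 114698) (nat_lit 11) (.e (nat_lit 426199) (nat_lit 9) (.e (nat_lit 426543) (nat_lit 29) (.e (nat_lit 360192) (nat_lit 5) .nil))))) (.g (nat_lit 0) (.e (nat_lit 235283) (nat_lit 0) .nil) .nil))) 
(.lf (nat_lit 527234) (.g (nat_lit 3476) (.e (nat_lit 221210) (nat_lit 22) (.e (nat_lit 196656) (nat_lit 11) (.e (nat_lit 16448) (nat_lit 10) (.e (nat_lit 434231) (nat_lit 23) (.e (nat_lit 532529) (nat_lit 9) (.e (nat_lit 336337) (nat_lit 20) .nil)))))) (.g (nat_lit 1) (.e (nat_lit 237339) (nat_lit 0) .nil) .nil)))))) (.nd (nat_lit 7) (.nd (nat_lit 8) (.nd (nat_lit 9) 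
(.lf (nat_lit 526402) (.g (nat_lit 2952) (.e (nat_lit 213032) (nat_lit 11) (.e (nat_lit 24627) (nat_lit 9) (.e (nat_lit 336443) (nat_lit 32) (.e (nat_lit 466972) (nat_lit 21) (.e (nat_lit 164330) (nat_lit 230) (.e (nat_lit 163877) (nat_lit 4) .nil)))))) (.g (nat_lit 1) (.e (nat_lit 234606) (nat_lit 0) .nil) .nil))) 
(.lf (nat_lit 526914) (.g (nat_lit 919) (.e (nat_lit 221194) (nat_lit 11) (.e (nat_lit 336076) (nat_lit 9) (.e (nat_lit 336428) (nat_lit 29) (.e (nat_lit 450304) (nat_lit 5) .nil)))) (.g (nat_lit 0) (.e (nat_lit 235510) (nat_lit 0) .nil) .nil)))) (.nd (nat_lit 9) 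
(.lf (nat_lit 526658) (.g (nat_lit 3055) (.e (nat_lit 213037) (nat_lit 13) (.e (nat_lit 229433) (nat_lit 25) (.e (nat_lit 532501) (nat_lit 1) (.e (nat_lit 57851) (nat_lit 252) (.e (nat_lit 57377) (nat_lit 3) .nil))))) (.g (nat_lit 0) (.e (nat_lit 235139) (nat_lit 0) .nil) .nil))) 
(.lf (nat_lit 527170) (.g (nat_lit 1163) (.e (nat_lit 221208) (nat_lit 21) (.e (nat_lit 164330) (nat_lit 230) (.e (nat_lit 163902) (nat_lit 12) (.e (nat_lit 426226) (nat_lit 9) .nil)))) (.g (nat_lit 0) (.e (nat_lit 236864) (nat_lit 0) .nil) .nil))))) (.nd (nat_lit 8) (.nd (nat_lit 9) 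
(.lf (nat_lit 526530) (.g (nat_lit 2177) (.e (nat_lit 213032) (nat_lit 11) (.e (nat_lit 24658) (nat_lit 13) (.e (nat_lit 393296) (nat_lit 26) (.e (nat_lit 475212) (nat_lit 42) (.e (nat_lit 728832) (nat_lit 4) .nil))))) (.g (nat_lit 1) (.e (nat_lit 234835) (nat_lit 0) .nil) .nil))) 
(.lf (nat_lit 527042) (.g (nat_lit 1754) (.e (nat_lit 221203) (nat_lit 20) (.e (nat_lit 3253) (nat_lit 197) (.e (nat_lit 532499) (nat_lit 1) (.e (nat_lit 57926) (nat_lit 282) .nil)))) (.g (nat_lit 0) (.e (nat_lit 235693) (nat_lit 0) .nil) .nil)))) (.nd (nat_lit 9) 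
(.lf (nat_lit 526786) (.g (nat_lit 1799) (.e (nat_lit 221191) (nat_lit 11) (.e (nat_lit 336152) (nat_lit 9) (.e (nat_lit 336442) (nat_lit 32) (.e (nat_lit 466969) (nat_lit 21) (.e (nat_lit 164325) (nat_lit 230) (.e (nat_lit 163886) (nat_lit 5) .nil)))))) (.g (nat_lit 1) (.e (nat_lit 235352) (nat_lit 0) .nil) .nil))) 
(.lf (nat_lit 527298) (.g (nat_lit 3159) (.e (nat_lit 221210) (nat_lit 22) (.e (nat_lit 196668) (nat_lit 14) (.e (nat_lit 73747) (nat_lit 3) (.e (nat_lit 516115) (nat_lit 1) (.e (nat_lit 164180) (nat_lit 154) (.e (nat_lit 57379) (nat_lit 3) (.e (nat_lit 98341) (nat_lit 20) .nil))))))) (.g (nat_lit 1) (.e (nat_lit 237637) (nat_lit 0) .nil) .nil))))))) 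
(.nd (nat_lit 6) (.nd (nat_lit 7) (.nd (nat_lit 8) (.nd (nat_lit 9) 
(.lf (nat_lit 526370) (.g (nat_lit 2673) (.e (nat_lit 213032) (nat_lit 11) (.e (nat_lit 24625) (nat_lit 9) (.e (nat_lit 336443) (nat_lit 32) (.e (nat_lit 466971) (nat_lit 21) (.e (nat_lit 164325) (nat_lit 230) (.e (nat_lit 163879) (nat_lit 4) .nil)))))) (.g (nat_lit 1) (.e (nat_lit 234574) (nat_lit 0) .nil) .nil))) 
(.lf (nat_lit 526882) (.g (nat_lit 2473) (.e (nat_lit 221194) (nat_lit 11) (.e (nat_lit 336012) (nat_lit 2) (.e (nat_lit 90172) (nat_lit 14) (.e (nat_lit 180285) (nat_lit 45) (.e (nat_lit 2568) (nat_lit 160) (.e (nat_lit 32773) (nat_lit 5) (.e (nat_lit 7936) (nat_lit 14) .nil))))))) (.g (nat_lit 1) (.e (nat_lit 235475) (nat_lit 0) .nil) .nil)))) (.nd (nat_lit 9) 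
(.lf (nat_lit 526626) (.g (nat_lit 3015) (.e (nat_lit 213034) (nat_lit 12) (.e (nat_lit 163979) (nat_lit 30) (.e (nat_lit 573474) (nat_lit 12) (.e (nat_lit 57544) (nat_lit 47) .nil)))) (.g (nat_lit 0) (.e (nat_lit 235086) (nat_lit 0) .nil) .nil))) 
(.lf (nat_lit 527138) (.g (nat_lit 944) (.e (nat_lit 221207) (nat_lit 21) (.e (nat_lit 164322) (nat_lit 230) (.e (nat_lit 163931) (nat_lit 17) (.e (nat_lit 474880) (nat_lit 16) .nil)))) (.g (nat_lit 0) (.e (nat_lit 236305) (nat_lit 0) .nil) .nil))))) (.nd (nat_lit 8) (.nd (nat_lit 9) 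
(.lf (nat_lit 526498) (.g (nat_lit 2653) (.e (nat_lit 213032) (nat_lit 11) (.e (nat_lit 24657) (nat_lit 13) (.e (nat_lit 393271) (nat_lit 23) (.e (nat_lit 426448) (nat_lit 20) (.e (nat_lit 122624) (nat_lit 4) .nil))))) (.g (nat_lit 1) (.e (nat_lit 234775) (nat_lit 0) .nil) .nil))) 
(.lf (nat_lit 527010) (.g (nat_lit 1828) (.e (nat_lit 229120) (nat_lit 12) (.e (nat_lit 344117) (nat_lit 21) (.e (nat_lit 516099) (nat_lit 0) (.e (nat_lit 7319) (nat_lit 388) (.e (nat_lit 3067) (nat_lit 190) .nil))))) (.g (nat_lit 0) (.e (nat_lit 235652) (nat_lit 0) .nil) .nil)))) (.nd (nat_lit 9) 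
(.lf (nat_lit 526754) (.g (nat_lit 1041) (.e (nat_lit 229120) (nat_lit 5) (.e (nat_lit 114698) (nat_lit 11) (.e (nat_lit 426334) (nat_lit 13) (.e (nat_lit 483378) (nat_lit 23) .nil)))) (.g (nat_lit 0) (.e (nat_lit 235316) (nat_lit 0) .nil) .nil))) 
(.lf (nat_lit 527266) (.g (nat_lit 4478) (.e (nat_lit 221210) (nat_lit 22) (.e (nat_lit 196668) (nat_lit 14) (.e (nat_lit 73746) (nat_lit 3) (.e (nat_lit 516115) (nat_lit 1) (.e (nat_lit 164179) (nat_lit 154) (.e (nat_lit 57379) (nat_lit 3) (.e (nat_lit 98342) (nat_lit 20) .nil))))))) (.g (nat_lit 1) (.e (nat_lit 237488) (nat_lit 0) .nil) .nil)))))) 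
(.nd (nat_lit 7) (.nd (nat_lit 8) (.nd (nat_lit 9) 
(.lf (nat_lit 526434) (.g (nat_lit 2537) (.e (nat_lit 213032) (nat_lit 11) (.e (nat_lit 24629) (nat_lit 9) (.e (nat_lit 336443) (nat_lit 32) (.e (nat_lit 466971) (nat_lit 21) (.e (nat_lit 164326) (nat_lit 230) (.e (nat_lit 163881) (nat_lit 4) .nil)))))) (.g (nat_lit 1) (.e (nat_lit 234673) (nat_lit 0) .nil) .nil))) 
(.lf (nat_lit 526946) (.g (nat_lit 693) (.e (nat_lit 221194) (nat_lit 11) (.e (nat_lit 336088) (nat_lit 9) (.e (nat_lit 336379) (nat_lit 27) .nil))) (.g (nat_lit 0) (.e (nat_lit 235542) (nat_lit 0) .nil) .nil)))) (.nd (nat_lit 9) 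
(.lf (nat_lit 526690) (.g (nat_lit 471) (.e (nat_lit 229120) (nat_lit 4) (.e (nat_lit 106536) (nat_lit 11) (.e (nat_lit 16467) (nat_lit 13) .nil))) (.g (nat_lit 0) (.e (nat_lit 235242) (nat_lit 0) .nil) .nil))) 
(.lf (nat_lit 527202) (.g (nat_lit 2563) (.e (nat_lit 221208) (nat_lit 21) (.e (nat_lit 164402) (nat_lit 256) (.e (nat_lit 57424) (nat_lit 14) (.e (nat_lit 352321) (nat_lit 25) (.e (nat_lit 139292) (nat_lit 11) (.e (nat_lit 32512) (nat_lit 20) .nil)))))) (.g (nat_lit 1) (.e (nat_lit 237114) (nat_lit 0) .nil) .nil))))) (.nd (nat_lit 8) (.nd (nat_lit 9) 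
(.lf (nat_lit 526562) (.g (nat_lit 1831) (.e (nat_lit 213032) (nat_lit 11) (.e (nat_lit 24660) (nat_lit 13) (.e (nat_lit 393284) (nat_lit 24) (.e (nat_lit 434209) (nat_lit 18) (.e (nat_lit 5224) (nat_lit 296) (.e (nat_lit 163881) (nat_lit 4) .nil)))))) (.g (nat_lit 1) (.e (nat_lit 234876) (nat_lit 0) .nil) .nil))) 
(.lf (nat_lit 527074) (.g (nat_lit 1975) (.e (nat_lit 221204) (nat_lit 20) (.e (nat_lit 3253) (nat_lit 197) (.e (nat_lit 532499) (nat_lit 1) (.e (nat_lit 57927) (nat_lit 282) (.e (nat_lit 163875) (nat_lit 3) .nil))))) (.g (nat_lit 0) (.e (nat_lit 235728) (nat_lit 0) .nil) .nil)))) (.nd (nat_lit 9) 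
(.lf (nat_lit 526818) (.g (nat_lit 1870) (.e (nat_lit 221192) (nat_lit 11) (.e (nat_lit 336153) (nat_lit 9) (.e (nat_lit 336442) (nat_lit 32) (.e (nat_lit 466969) (nat_lit 21) (.e (nat_lit 164332) (nat_lit 230) (.e (nat_lit 163884) (nat_lit 5) .nil)))))) (.g (nat_lit 1) (.e (nat_lit 235385) (nat_lit 0) .nil) .nil))) 
(.lf (nat_lit 527330) (.g (nat_lit 3357) (.e (nat_lit 221210) (nat_lit 22) (.e (nat_lit 196668) (nat_lit 14) (.e (nat_lit 73747) (nat_lit 3) (.e (nat_lit 516120) (nat_lit 1) (.e (nat_lit 164181) (nat_lit 154) (.e (nat_lit 57378) (nat_lit 3) (.e (nat_lit 98342) (nat_lit 20) .nil))))))) (.g (nat_lit 1) (.e (nat_lit 237839) (nat_lit 0) .nil) .nil)))))))) 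
(.nd (nat_lit 5) (.nd (nat_lit 6) (.nd (nat_lit 7) (.nd (nat_lit 8) (.nd (nat_lit 9) 
(.lf (nat_lit 526354) (.g (nat_lit 2648) (.e (nat_lit 213032) (nat_lit 11) (.e (nat_lit 24624) (nat_lit 9) (.e (nat_lit 336443) (nat_lit 32) (.e (nat_lit 466971) (nat_lit 21) (.e (nat_lit 164326) (nat_lit 230) (.e (nat_lit 163881) (nat_lit 4) .nil)))))) (.g (nat_lit 1) (.e (nat_lit 234553) (nat_lit 0) .nil) .nil))) 
(.lf (nat_lit 526866) (.g (nat_lit 2903) (.e (nat_lit 221193) (nat_lit 11) (.e (nat_lit 336084) (nat_lit 9) (.e (nat_lit 336443) (nat_lit 32) (.e (nat_lit 466969) (nat_lit 21) (.e (nat_lit 164327) (nat_lit 230) (.e (nat_lit 163884) (nat_lit 5) .nil)))))) (.g (nat_lit 1) (.e (nat_lit 235442) (nat_lit 0) .nil) .nil)))) (.nd (nat_lit 9) 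
(.lf (nat_lit 526610) (.g (nat_lit 2138) (.e (nat_lit 213033) (nat_lit 12) (.e (nat_lit 163979) (nat_lit 30) (.e (nat_lit 573475) (nat_lit 12) (.e (nat_lit 57528) (nat_lit 46) .nil)))) (.g (nat_lit 0) (.e (nat_lit 235053) (nat_lit 0) .nil) .nil))) 
(.lf (nat_lit 527122) (.g (nat_lit 373) (.e (nat_lit 221206) (nat_lit 21) (.e (nat_lit 164330) (nat_lit 230) (.e (nat_lit 163915) (nat_lit 12) .nil))) (.g (nat_lit 0) (.e (nat_lit 236106) (nat_lit 0) .nil) .nil))))) (.nd (nat_lit 8) (.nd (nat_lit 9) 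
(.lf (nat_lit 526482) (.g (nat_lit 2822) (.e (nat_lit 213032) (nat_lit 11) (.e (nat_lit 24656) (nat_lit 13) (.e (nat_lit 393271) (nat_lit 23) (.e (nat_lit 426112) (nat_lit 1) (.e (nat_lit 164327) (nat_lit 230) (.e (nat_lit 163881) (nat_lit 4) .nil)))))) (.g (nat_lit 1) (.e (nat_lit 234759) (nat_lit 0) .nil) .nil))) 
(.lf (nat_lit 526994) (.g (nat_lit 1661) (.e (nat_lit 229120) (nat_lit 11) (.e (nat_lit 336454) (nat_lit 34) (.e (nat_lit 483382) (nat_lit 23) (.e (nat_lit 336324) (nat_lit 18) (.e (nat_lit 212736) (nat_lit 3) .nil))))) (.g (nat_lit 0) (.e (nat_lit 235632) (nat_lit 0) .nil) .nil)))) (.nd (nat_lit 9) 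
(.lf (nat_lit 526738) (.g (nat_lit 1414) (.e (nat_lit 229120) (nat_lit 5) (.e (nat_lit 114698) (nat_lit 11) (.e (nat_lit 426325) (nat_lit 13) (.e (nat_lit 483381) (nat_lit 23) .nil)))) (.g (nat_lit 0) (.e (nat_lit 235299) (nat_lit 0) .nil) .nil))) 
(.lf (nat_lit 527250) (.g (nat_lit 2266) (.e (nat_lit 221210) (nat_lit 22) (.e (nat_lit 196666) (nat_lit 13) (.e (nat_lit 65569) (nat_lit 3) (.e (nat_lit 98335) (nat_lit 18) (.e (nat_lit 164179) (nat_lit 154) .nil))))) (.g (nat_lit 0) (.e (nat_lit 237402) (nat_lit 0) .nil) .nil)))))) (.nd (nat_lit 7) (.nd (nat_lit 8) (.nd (nat_lit 9) 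
(.lf (nat_lit 526418) (.g (nat_lit 2591) (.e (nat_lit 213032) (nat_lit 11) (.e (nat_lit 24628) (nat_lit 9) (.e (nat_lit 336443) (nat_lit 32) (.e (nat_lit 466972) (nat_lit 21) (.e (nat_lit 164329) (nat_lit 230) (.e (nat_lit 163878) (nat_lit 4) .nil)))))) (.g (nat_lit 1) (.e (nat_lit 234656) (nat_lit 0) .nil) .nil))) 
(.lf (nat_lit 526930) (.g (nat_lit 2426) (.e (nat_lit 221194) (nat_lit 11) (.e (nat_lit 336084) (nat_lit 9) (.e (nat_lit 336443) (nat_lit 32) (.e (nat_lit 466972) (nat_lit 21) (.e (nat_lit 164322) (nat_lit 230) (.e (nat_lit 163884) (nat_lit 5) .nil)))))) (.g (nat_lit 1) (.e (nat_lit 235526) (nat_lit 0) .nil) .nil)))) (.nd (nat_lit 9) 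
(.lf (nat_lit 526674) (.g (nat_lit 1909) (.e (nat_lit 229120) (nat_lit 2) (.e (nat_lit 90158) (nat_lit 11) (.e (nat_lit 24630) (nat_lit 9) (.e (nat_lit 336454) (nat_lit 34) (.e (nat_lit 491264) (nat_lit 3) .nil))))) (.g (nat_lit 0) (.e (nat_lit 235218) (nat_lit 0) .nil) .nil))) 
(.lf (nat_lit 527186) (.g (nat_lit 1380) (.e (nat_lit 221208) (nat_lit 21) (.e (nat_lit 164332) (nat_lit 230) (.e (nat_lit 163905) (nat_lit 12) (.e (nat_lit 426226) (nat_lit 9) .nil)))) (.g (nat_lit 0) (.e (nat_lit 237061) (nat_lit 0) .nil) .nil))))) (.nd (nat_lit 8) (.nd (nat_lit 9) 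
(.lf (nat_lit 526546) (.g (nat_lit 2033) (.e (nat_lit 213032) (nat_lit 11) (.e (nat_lit 24659) (nat_lit 13) (.e (nat_lit 393291) (nat_lit 26) (.e (nat_lit 475214) (nat_lit 42) (.e (nat_lit 728832) (nat_lit 4) .nil))))) (.g (nat_lit 1) (.e (nat_lit 234855) (nat_lit 0) .nil) .nil))) 
(.lf (nat_lit 527058) (.g (nat_lit 2272) (.e (nat_lit 221203) (nat_lit 20) (.e (nat_lit 3253) (nat_lit 197) (.e (nat_lit 532503) (nat_lit 1) (.e (nat_lit 57931) (nat_lit 282) (.e (nat_lit 163866) (nat_lit 2) .nil))))) (.g (nat_lit 0) (.e (nat_lit 235711) (nat_lit 0) .nil) .nil)))) (.nd (nat_lit 9) 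
(.lf (nat_lit 526802) (.g (nat_lit 1963) (.e (nat_lit 221192) (nat_lit 11) (.e (nat_lit 336152) (nat_lit 9) (.e (nat_lit 336442) (nat_lit 32) (.e (nat_lit 466969) (nat_lit 21) (.e (nat_lit 164327) (nat_lit 230) (.e (nat_lit 163884) (nat_lit 5) .nil)))))) (.g (nat_lit 1) (.e (nat_lit 235369) (nat_lit 0) .nil) .nil))) 
(.lf (nat_lit 527314) (.g (nat_lit 3114) (.e (nat_lit 221210) (nat_lit 22) (.e (nat_lit 196668) (nat_lit 14) (.e (nat_lit 73747) (nat_lit 3) (.e (nat_lit 516117) (nat_lit 1) (.e (nat_lit 164183) (nat_lit 154) (.e (nat_lit 57378) (nat_lit 3) (.e (nat_lit 98340) (nat_lit 20) .nil))))))) (.g (nat_lit 1) (.e (nat_lit 237739) (nat_lit 0) .nil) .nil))))))) 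
(.nd (nat_lit 6) (.nd (nat_lit 7) (.nd (nat_lit 8) (.nd (nat_lit 9) 
(.lf (nat_lit 526386) (.g (nat_lit 3501) (.e (nat_lit 213032) (nat_lit 11) (.e (nat_lit 24626) (nat_lit 9) (.e (nat_lit 336443) (nat_lit 32) (.e (nat_lit 466972) (nat_lit 21) (.e (nat_lit 164330) (nat_lit 230) (.e (nat_lit 163880) (nat_lit 4) .nil)))))) (.g (nat_lit 1) (.e (nat_lit 234590) (nat_lit 0) .nil) .nil))) 
(.lf (nat_lit 526898) (.g (nat_lit 792) (.e (nat_lit 221194) (nat_lit 11) (.e (nat_lit 336027) (nat_lit 3) (.e (nat_lit 98379) (nat_lit 31) .nil))) (.g (nat_lit 0) (.e (nat_lit 235494) (nat_lit 0) .nil) .nil)))) (.nd (nat_lit 9) 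
(.lf (nat_lit 526642) (.g (nat_lit 991) (.e (nat_lit 213035) (nat_lit 12) (.e (nat_lit 163979) (nat_lit 30) (.e (nat_lit 573474) (nat_lit 12) .nil))) (.g (nat_lit 0) (.e (nat_lit 235115) (nat_lit 0) .nil) .nil))) 
(.lf (nat_lit 527154) (.g (nat_lit 1177) (.e (nat_lit 221207) (nat_lit 21) (.e (nat_lit 164326) (nat_lit 230) (.e (nat_lit 163903) (nat_lit 12) (.e (nat_lit 426227) (nat_lit 9) .nil)))) (.g (nat_lit 0) (.e (nat_lit 236573) (nat_lit 0) .nil) .nil))))) (.nd (nat_lit 8) (.nd (nat_lit 9) 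
(.lf (nat_lit 526514) (.g (nat_lit 1910) (.e (nat_lit 213032) (nat_lit 11) (.e (nat_lit 24658) (nat_lit 13) (.e (nat_lit 393281) (nat_lit 23) (.e (nat_lit 426099) (nat_lit 1) (.e (nat_lit 164330) (nat_lit 230) (.e (nat_lit 171776) (nat_lit 4) .nil)))))) (.g (nat_lit 1) (.e (nat_lit 234810) (nat_lit 0) .nil) .nil))) 
(.lf (nat_lit 527026) (.g (nat_lit 2605) (.e (nat_lit 221195) (nat_lit 20) (.e (nat_lit 3238) (nat_lit 197) (.e (nat_lit 532499) (nat_lit 1) (.e (nat_lit 57926) (nat_lit 282) (.e (nat_lit 163869) (nat_lit 2) .nil))))) (.g (nat_lit 0) (.e (nat_lit 235668) (nat_lit 0) .nil) .nil)))) (.nd (nat_lit 9) 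
(.lf (nat_lit 526770) (.g (nat_lit 940) (.e (nat_lit 221190) (nat_lit 11) (.e (nat_lit 336002) (nat_lit 2) (.e (nat_lit 90185) (nat_lit 17) (.e (nat_lit 237619) (nat_lit 12) .nil)))) (.g (nat_lit 0) (.e (nat_lit 235332) (nat_lit 0) .nil) .nil))) 
(.lf (nat_lit 527282) (.g (nat_lit 4715) (.e (nat_lit 221210) (nat_lit 22) (.e (nat_lit 196668) (nat_lit 14) (.e (nat_lit 73746) (nat_lit 3) (.e (nat_lit 516120) (nat_lit 1) (.e (nat_lit 164182) (nat_lit 154) (.e (nat_lit 57379) (nat_lit 3) (.e (nat_lit 98342) (nat_lit 20) .nil))))))) (.g (nat_lit 1) (.e (nat_lit 237560) (nat_lit 0) .nil) .nil)))))) 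
(.nd (nat_lit 7) (.nd (nat_lit 8) (.nd (nat_lit 9) 
(.lf (nat_lit 526450) (.g (nat_lit 2034) (.e (nat_lit 213032) (nat_lit 11) (.e (nat_lit 24655) (nat_lit 13) (.e (nat_lit 393269) (nat_lit 23) (.e (nat_lit 426448) (nat_lit 20) (.e (nat_lit 122624) (nat_lit 4) .nil))))) (.g (nat_lit 1) (.e (nat_lit 234720) (nat_lit 0) .nil) .nil))) 
(.lf (nat_lit 526962) (.g (nat_lit 913) (.e (nat_lit 221194) (nat_lit 11) (.e (nat_lit 336194) (nat_lit 12) (.e (nat_lit 385030) (nat_lit 8) .nil))) (.g (nat_lit 0) (.e (nat_lit 235558) (nat_lit 0) .nil) .nil)))) (.nd (nat_lit 9) 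
(.lf (nat_lit 526706) (.g (nat_lit 1020) (.e (nat_lit 229120) (nat_lit 5) (.e (nat_lit 114698) (nat_lit 11) (.e (nat_lit 426188) (nat_lit 9) (.e (nat_lit 426553) (nat_lit 32) .nil)))) (.g (nat_lit 0) (.e (nat_lit 235266) (nat_lit 0) .nil) .nil))) 
(.lf (nat_lit 527218) (.g (nat_lit 3118) (.e (nat_lit 221210) (nat_lit 22) (.e (nat_lit 196654) (nat_lit 11) (.e (nat_lit 16436) (nat_lit 9) (.e (nat_lit 426131) (nat_lit 3) (.e (nat_lit 204854) (nat_lit 26) (.e (nat_lit 336337) (nat_lit 20) .nil)))))) (.g (nat_lit 1) (.e (nat_lit 237253) (nat_lit 0) .nil) .nil))))) (.nd (nat_lit 8) (.nd (nat_lit 9) 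
(.lf (nat_lit 526578) (.g (nat_lit 1350) (.e (nat_lit 220928) (nat_lit 11) (.e (nat_lit 24608) (nat_lit 3) (.e (nat_lit 98365) (nat_lit 26) (.e (nat_lit 426187) (nat_lit 9) .nil)))) (.g (nat_lit 0) (.e (nat_lit 234995) (nat_lit 0) .nil) .nil))) 
(.lf (nat_lit 527090) (.g (nat_lit 1571) (.e (nat_lit 221204) (nat_lit 20) (.e (nat_lit 3253) (nat_lit 197) (.e (nat_lit 532503) (nat_lit 1) (.e (nat_lit 57930) (nat_lit 282) .nil)))) (.g (nat_lit 0) (.e (nat_lit 235744) (nat_lit 0) .nil) .nil)))) (.nd (nat_lit 9) 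
(.lf (nat_lit 526834) (.g (nat_lit 2945) (.e (nat_lit 221193) (nat_lit 11) (.e (nat_lit 336027) (nat_lit 3) (.e (nat_lit 98363) (nat_lit 26) (.e (nat_lit 426318) (nat_lit 12) (.e (nat_lit 475179) (nat_lit 24) (.e (nat_lit 516129) (nat_lit 3) .nil)))))) (.g (nat_lit 1) (.e (nat_lit 235410) (nat_lit 0) .nil) .nil))) 
(.lf (nat_lit 527346) (.g (nat_lit 4808) (.e (nat_lit 221210) (nat_lit 22) (.e (nat_lit 196670) (nat_lit 14) (.e (nat_lit 73746) (nat_lit 3) (.e (nat_lit 516115) (nat_lit 1) (.e (nat_lit 164182) (nat_lit 154) (.e (nat_lit 57379) (nat_lit 3) (.e (nat_lit 98342) (nat_lit 20) .nil))))))) (.g (nat_lit 1) (.e (nat_lit 237938) (nat_lit 0) .nil) .nil))))))))) 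
(.nd (nat_lit 4) (.nd (nat_lit 5) (.nd (nat_lit 6) (.nd (nat_lit 7) (.nd (nat_lit 8) 
(.nd (nat_lit 9) 
(.lf (nat_lit 526346) (.g (nat_lit 1612) (.e (nat_lit 213032) (nat_lit 11) (.e (nat_lit 24617) (nat_lit 7) (.e (nat_lit 319533) (nat_lit 16) (.e (nat_lit 286743) (nat_lit 9) .nil)))) (.g (nat_lit 0) (.e (nat_lit 234545) (nat_lit 0) .nil) .nil))) 
(.lf (nat_lit 526858) (.g (nat_lit 2871) (.e (nat_lit 221193) (nat_lit 11) (.e (nat_lit 336077) (nat_lit 9) (.e (nat_lit 336443) (nat_lit 32) (.e (nat_lit 466969) (nat_lit 21) (.e (nat_lit 164327) (nat_lit 230) (.e (nat_lit 163884) (nat_lit 5) .nil)))))) (.g (nat_lit 1) (.e (nat_lit 235434) (nat_lit 0) .nil) .nil)))) (.nd (nat_lit 9) 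
(.lf (nat_lit 526602) (.g (nat_lit 991) (.e (nat_lit 213033) (nat_lit 12) (.e (nat_lit 163979) (nat_lit 30) (.e (nat_lit 573474) (nat_lit 12) .nil))) (.g (nat_lit 0) (.e (nat_lit 235037) (nat_lit 0) .nil) .nil))) 
(.lf (nat_lit 527114) (.g (nat_lit 1292) (.e (nat_lit 221206) (nat_lit 21) (.e (nat_lit 164327) (nat_lit 230) (.e (nat_lit 163907) (nat_lit 12) (.e (nat_lit 426227) (nat_lit 9) .nil)))) (.g (nat_lit 0) (.e (nat_lit 236020) (nat_lit 0) .nil) .nil))))) (.nd (nat_lit 8) (.nd (nat_lit 9) 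
(.lf (nat_lit 526474) (.g (nat_lit 2067) (.e (nat_lit 213032) (nat_lit 11) (.e (nat_lit 24655) (nat_lit 13) (.e (nat_lit 393293) (nat_lit 26) (.e (nat_lit 475212) (nat_lit 42) (.e (nat_lit 728832) (nat_lit 4) .nil))))) (.g (nat_lit 1) (.e (nat_lit 234748) (nat_lit 0) .nil) .nil))) 
(.lf (nat_lit 526986) (.g (nat_lit 681) (.e (nat_lit 229120) (nat_lit 11) (.e (nat_lit 336084) (nat_lit 9) (.e (nat_lit 336443) (nat_lit 32) (.e (nat_lit 466971) (nat_lit 21) .nil)))) (.g (nat_lit 0) (.e (nat_lit 235599) (nat_lit 0) .nil) .nil)))) (.nd (nat_lit 9) 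
(.lf (nat_lit 526730) (.g (nat_lit 1521) (.e (nat_lit 229120) (nat_lit 5) (.e (nat_lit 114698) (nat_lit 11) (.e (nat_lit 426200) (nat_lit 9) (.e (nat_lit 426515) (nat_lit 27) .nil)))) (.g (nat_lit 0) (.e (nat_lit 235291) (nat_lit 0) .nil) .nil))) 
(.lf (nat_lit 527242) (.g (nat_lit 630) (.e (nat_lit 221210) (nat_lit 22) (.e (nat_lit 196666) (nat_lit 13) (.e (nat_lit 65546) (nat_lit 0) .nil))) (.g (nat_lit 0) (.e (nat_lit 237370) (nat_lit 0) .nil) .nil)))))) (.nd (nat_lit 7) (.nd (nat_lit 8) (.nd (nat_lit 9) 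
(.lf (nat_lit 526410) (.g (nat_lit 3193) (.e (nat_lit 213032) (nat_lit 11) (.e (nat_lit 24628) (nat_lit 9) (.e (nat_lit 336443) (nat_lit 32) (.e (nat_lit 466969) (nat_lit 21) (.e (nat_lit 164330) (nat_lit 230) (.e (nat_lit 163877) (nat_lit 4) .nil)))))) (.g (nat_lit 1) (.e (nat_lit 234648) (nat_lit 0) .nil) .nil))) 
(.lf (nat_lit 526922) (.g (nat_lit 2898) (.e (nat_lit 221194) (nat_lit 11) (.e (nat_lit 336077) (nat_lit 9) (.e (nat_lit 336443) (nat_lit 32) (.e (nat_lit 466971) (nat_lit 21) (.e (nat_lit 164331) (nat_lit 230) (.e (nat_lit 163885) (nat_lit 5) .nil)))))) (.g (nat_lit 1) (.e (nat_lit 235518) (nat_lit 0) .nil) .nil)))) (.nd (nat_lit 9) 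
(.lf (nat_lit 526666) (.g (nat_lit 1000) (.e (nat_lit 221188) (nat_lit 0) (.e (nat_lit 6112) (nat_lit 332) (.e (nat_lit 2777) (nat_lit 178) (.e (nat_lit 286771) (nat_lit 29) .nil)))) (.g (nat_lit 0) (.e (nat_lit 235208) (nat_lit 0) .nil) .nil))) 
(.lf (nat_lit 527178) (.g (nat_lit 427) (.e (nat_lit 221208) (nat_lit 21) (.e (nat_lit 164330) (nat_lit 230) (.e (nat_lit 163913) (nat_lit 12) .nil))) (.g (nat_lit 0) (.e (nat_lit 236894) (nat_lit 0) .nil) .nil))))) (.nd (nat_lit 8) (.nd (nat_lit 9) 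
(.lf (nat_lit 526538) (.g (nat_lit 1762) (.e (nat_lit 213032) (nat_lit 11) (.e (nat_lit 24659) (nat_lit 13) (.e (nat_lit 393272) (nat_lit 23) (.e (nat_lit 426448) (nat_lit 20) (.e (nat_lit 122624) (nat_lit 4) .nil))))) (.g (nat_lit 1) (.e (nat_lit 234844) (nat_lit 0) .nil) .nil))) 
(.lf (nat_lit 527050) (.g (nat_lit 2437) (.e (nat_lit 221203) (nat_lit 20) (.e (nat_lit 3253) (nat_lit 197) (.e (nat_lit 532501) (nat_lit 1) (.e (nat_lit 57926) (nat_lit 282) (.e (nat_lit 163874) (nat_lit 3) .nil))))) (.g (nat_lit 0) (.e (nat_lit 235702) (nat_lit 0) .nil) .nil)))) (.nd (nat_lit 9) 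
(.lf (nat_lit 526794) (.g (nat_lit 1802) (.e (nat_lit 221191) (nat_lit 11) (.e (nat_lit 336153) (nat_lit 9) (.e (nat_lit 336442) (nat_lit 32) (.e (nat_lit 466972) (nat_lit 21) (.e (nat_lit 164329) (nat_lit 230) (.e (nat_lit 163885) (nat_lit 5) .nil)))))) (.g (nat_lit 1) (.e (nat_lit 235360) (nat_lit 0) .nil) .nil))) 
(.lf (nat_lit 527306) (.g (nat_lit 2095) (.e (nat_lit 221210) (nat_lit 22) (.e (nat_lit 196668) (nat_lit 14) (.e (nat_lit 73747) (nat_lit 3) (.e (nat_lit 516116) (nat_lit 1) (.e (nat_lit 164180) (nat_lit 154) .nil))))) (.g (nat_lit 0) (.e (nat_lit 237702) (nat_lit 0) .nil) .nil))))))) (.nd (nat_lit 6) (.nd (nat_lit 7) (.nd (nat_lit 8) (.nd (nat_lit 9) 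
(.lf (nat_lit 526378) (.g (nat_lit 3143) (.e (nat_lit 213032) (nat_lit 11) (.e (nat_lit 24626) (nat_lit 9) (.e (nat_lit 336443) (nat_lit 32) (.e (nat_lit 466969) (nat_lit 21) (.e (nat_lit 164325) (nat_lit 230) (.e (nat_lit 163881) (nat_lit 4) .nil)))))) (.g (nat_lit 1) (.e (nat_lit 234582) (nat_lit 0) .nil) .nil))) 
(.lf (nat_lit 526890) (.g (nat_lit 1986) (.e (nat_lit 221194) (nat_lit 11) (.e (nat_lit 336020) (nat_lit 3) (.e (nat_lit 98365) (nat_lit 26) (.e (nat_lit 426188) (nat_lit 9) (.e (nat_lit 426437) (nat_lit 18) .nil))))) (.g (nat_lit 0) (.e (nat_lit 235484) (nat_lit 0) .nil) .nil)))) (.nd (nat_lit 9) 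
(.lf (nat_lit 526634) (.g (nat_lit 3083) (.e (nat_lit 213035) (nat_lit 12) (.e (nat_lit 163978) (nat_lit 30) (.e (nat_lit 573475) (nat_lit 12) (.e (nat_lit 57543) (nat_lit 47) .nil)))) (.g (nat_lit 0) (.e (nat_lit 235103) (nat_lit 0) .nil) .nil))) 
(.lf (nat_lit 527146) (.g (nat_lit 2016) (.e (nat_lit 221207) (nat_lit 21) (.e (nat_lit 164325) (nat_lit 230) (.e (nat_lit 163903) (nat_lit 12) (.e (nat_lit 426254) (nat_lit 9) .nil)))) (.g (nat_lit 0) (.e (nat_lit 236450) (nat_lit 0) .nil) .nil))))) (.nd (nat_lit 8) (.nd (nat_lit 9) 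
(.lf (nat_lit 526506) (.g (nat_lit 1177) (.e (nat_lit 213032) (nat_lit 11) (.e (nat_lit 24657) (nat_lit 13) (.e (nat_lit 393292) (nat_lit 26) (.e (nat_lit 475214) (nat_lit 42) .nil)))) (.g (nat_lit 0) (.e (nat_lit 234784) (nat_lit 0) .nil) .nil))) 
(.lf (nat_lit 527018) (.g (nat_lit 1281) (.e (nat_lit 229120) (nat_lit 17) (.e (nat_lit 385068) (nat_lit 26) (.e (nat_lit 532558) (nat_lit 14) (.e (nat_lit 376858) (nat_lit 21) .nil)))) (.g (nat_lit 0) (.e (nat_lit 235660) (nat_lit 0) .nil) .nil)))) (.nd (nat_lit 9) 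
(.lf (nat_lit 526762) (.g (nat_lit 2158) (.e (nat_lit 229120) (nat_lit 5) (.e (nat_lit 114698) (nat_lit 11) (.e (nat_lit 426335) (nat_lit 13) (.e (nat_lit 483386) (nat_lit 23) (.e (nat_lit 343808) (nat_lit 20) .nil))))) (.g (nat_lit 0) (.e (nat_lit 235324) (nat_lit 0) .nil) .nil))) 
(.lf (nat_lit 527274) (.g (nat_lit 3948) (.e (nat_lit 221210) (nat_lit 22) (.e (nat_lit 196668) (nat_lit 14) (.e (nat_lit 73746) (nat_lit 3) (.e (nat_lit 516119) (nat_lit 1) (.e (nat_lit 164179) (nat_lit 154) (.e (nat_lit 57379) (nat_lit 3) (.e (nat_lit 98342) (nat_lit 20) .nil))))))) (.g (nat_lit 1) (.e (nat_lit 237543) (nat_lit 0) .nil) .nil)))))) 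
(.nd (nat_lit 7) (.nd (nat_lit 8) (.nd (nat_lit 9) 
(.lf (nat_lit 526442) (.g (nat_lit 2462) (.e (nat_lit 213032) (nat_lit 11) (.e (nat_lit 24631) (nat_lit 9) (.e (nat_lit 336389) (nat_lit 27) (.e (nat_lit 426306) (nat_lit 12) (.e (nat_lit 475214) (nat_lit 42) .nil))))) (.g (nat_lit 0) (.e (nat_lit 234693) (nat_lit 0) .nil) .nil))) 
(.lf (nat_lit 526954) (.g (nat_lit 2721) (.e (nat_lit 221194) (nat_lit 11) (.e (nat_lit 336088) (nat_lit 9) (.e (nat_lit 336391) (nat_lit 27) (.e (nat_lit 426306) (nat_lit 12) (.e (nat_lit 475214) (nat_lit 42) (.e (nat_lit 728832) (nat_lit 5) .nil)))))) (.g (nat_lit 1) (.e (nat_lit 235550) (nat_lit 0) .nil) .nil)))) (.nd (nat_lit 9) 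
(.lf (nat_lit 526698) (.g (nat_lit 535) (.e (nat_lit 229120) (nat_lit 5) (.e (nat_lit 114696) (nat_lit 11) (.e (nat_lit 426260) (nat_lit 9) (.e (nat_lit 426554) (nat_lit 32) (.e (nat_lit 384768) (nat_lit 5) .nil))))) (.g (nat_lit 0) (.e (nat_lit 235251) (nat_lit 0) .nil) .nil))) 
(.lf (nat_lit 527210) (.g (nat_lit 4648) (.e (nat_lit 221208) (nat_lit 21) (.e (nat_lit 164402) (nat_lit 256) (.e (nat_lit 57427) (nat_lit 15) (.e (nat_lit 360474) (nat_lit 8) (.e (nat_lit 557091) (nat_lit 12) (.e (nat_lit 164003) (nat_lit 40) (.e (nat_lit 655364) (nat_lit 0) (.e (nat_lit 2707) (nat_lit 170) .nil)))))))) (.g (nat_lit 1) (.e (nat_lit 237122) (nat_lit 0) .nil) .nil))))) 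
(.nd (nat_lit 8) (.nd (nat_lit 9) 
(.lf (nat_lit 526570) (.g (nat_lit 827) (.e (nat_lit 213032) (nat_lit 11) (.e (nat_lit 24664) (nat_lit 14) (.e (nat_lit 401460) (nat_lit 14) .nil))) (.g (nat_lit 0) (.e (nat_lit 234907) (nat_lit 0) .nil) .nil))) 
(.lf (nat_lit 527082) (.g (nat_lit 1232) (.e (nat_lit 221204) (nat_lit 20) (.e (nat_lit 3253) (nat_lit 197) (.e (nat_lit 532501) (nat_lit 1) (.e (nat_lit 57927) (nat_lit 282) .nil)))) (.g (nat_lit 0) (.e (nat_lit 235736) (nat_lit 0) .nil) .nil)))) (.nd (nat_lit 9) 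
(.lf (nat_lit 526826) (.g (nat_lit 1969) (.e (nat_lit 221192) (nat_lit 11) (.e (nat_lit 336235) (nat_lit 14) (.e (nat_lit 401454) (nat_lit 12) (.e (nat_lit 475209) (nat_lit 41) .nil)))) (.g (nat_lit 0) (.e (nat_lit 235393) (nat_lit 0) .nil) .nil))) 
(.lf (nat_lit 527338) (.g (nat_lit 419) (.e (nat_lit 221210) (nat_lit 22) (.e (nat_lit 196670) (nat_lit 14) (.e (nat_lit 73746) (nat_lit 3) .nil))) (.g (nat_lit 0) (.e (nat_lit 237900) (nat_lit 0) .nil) .nil)))))))) (.nd (nat_lit 5) (.nd (nat_lit 6) (.nd (nat_lit 7) (.nd (nat_lit 8) (.nd (nat_lit 9) 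
(.lf (nat_lit 526362) (.g (nat_lit 2788) (.e (nat_lit 213032) (nat_lit 11) (.e (nat_lit 24625) (nat_lit 9) (.e (nat_lit 336443) (nat_lit 32) (.e (nat_lit 466969) (nat_lit 21) (.e (nat_lit 164325) (nat_lit 230) (.e (nat_lit 163877) (nat_lit 4) .nil)))))) (.g (nat_lit 1) (.e (nat_lit 234566) (nat_lit 0) .nil) .nil))) 
(.lf (nat_lit 526874) (.g (nat_lit 1136) (.e (nat_lit 221193) (nat_lit 11) (.e (nat_lit 336087) (nat_lit 9) (.e (nat_lit 336430) (nat_lit 29) (.e (nat_lit 442421) (nat_lit 21) .nil)))) (.g (nat_lit 0) (.e (nat_lit 235450) (nat_lit 0) .nil) .nil)))) (.nd (nat_lit 9) 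
(.lf (nat_lit 526618) (.g (nat_lit 2938) (.e (nat_lit 213034) (nat_lit 12) (.e (nat_lit 163977) (nat_lit 30) (.e (nat_lit 573474) (nat_lit 12) (.e (nat_lit 57544) (nat_lit 47) .nil)))) (.g (nat_lit 0) (.e (nat_lit 235069) (nat_lit 0) .nil) .nil))) 
(.lf (nat_lit 527130) (.g (nat_lit 1680) (.e (nat_lit 221206) (nat_lit 21) (.e (nat_lit 164332) (nat_lit 230) (.e (nat_lit 163905) (nat_lit 12) (.e (nat_lit 426227) (nat_lit 9) (.e (nat_lit 433920) (nat_lit 32) (.e (nat_lit 384768) (nat_lit 5) .nil)))))) (.g (nat_lit 1) (.e (nat_lit 236231) (nat_lit 0) .nil) .nil))))) (.nd (nat_lit 8) (.nd (nat_lit 9) 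
(.lf (nat_lit 526490) (.g (nat_lit 952) (.e (nat_lit 213032) (nat_lit 11) (.e (nat_lit 24657) (nat_lit 13) (.e (nat_lit 393266) (nat_lit 23) .nil))) (.g (nat_lit 0) (.e (nat_lit 234767) (nat_lit 0) .nil) .nil))) 
(.lf (nat_lit 527002) (.g (nat_lit 746) (.e (nat_lit 229120) (nat_lit 11) (.e (nat_lit 336454) (nat_lit 34) (.e (nat_lit 483407) (nat_lit 26) .nil))) (.g (nat_lit 0) (.e (nat_lit 235640) (nat_lit 0) .nil) .nil)))) (.nd (nat_lit 9) 
(.lf (nat_lit 526746) (.g (nat_lit 1866) (.e (nat_lit 229120) (nat_lit 5) (.e (nat_lit 114698) (nat_lit 11) (.e (nat_lit 426327) (nat_lit 13) (.e (nat_lit 483386) (nat_lit 23) (.e (nat_lit 343808) (nat_lit 20) .nil))))) (.g (nat_lit 0) (.e (nat_lit 235307) (nat_lit 0) .nil) .nil))) 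
(.lf (nat_lit 527258) (.g (nat_lit 2705) (.e (nat_lit 221210) (nat_lit 22) (.e (nat_lit 196666) (nat_lit 13) (.e (nat_lit 65571) (nat_lit 3) (.e (nat_lit 98334) (nat_lit 18) (.e (nat_lit 164182) (nat_lit 154) (.e (nat_lit 57379) (nat_lit 3) (.e (nat_lit 98340) (nat_lit 20) .nil))))))) (.g (nat_lit 1) (.e (nat_lit 237424) (nat_lit 0) .nil) .nil)))))) 
(.nd (nat_lit 7) (.nd (nat_lit 8) (.nd (nat_lit 9) 
(.lf (nat_lit 526426) (.g (nat_lit 2477) (.e (nat_lit 213032) (nat_lit 11) (.e (nat_lit 24629) (nat_lit 9) (.e (nat_lit 336443) (nat_lit 32) (.e (nat_lit 466969) (nat_lit 21) (.e (nat_lit 164325) (nat_lit 230) (.e (nat_lit 163879) (nat_lit 4) .nil)))))) (.g (nat_lit 1) (.e (nat_lit 234665) (nat_lit 0) .nil) .nil))) 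
(.lf (nat_lit 526938) (.g (nat_lit 2322) (.e (nat_lit 221194) (nat_lit 11) (.e (nat_lit 336087) (nat_lit 9) (.e (nat_lit 336384) (nat_lit 27) (.e (nat_lit 426306) (nat_lit 12) (.e (nat_lit 475214) (nat_lit 42) (.e (nat_lit 728832) (nat_lit 5) .nil)))))) (.g (nat_lit 1) (.e (nat_lit 235534) (nat_lit 0) .nil) .nil)))) (.nd (nat_lit 9) 
(.lf (nat_lit 526682) (.g (nat_lit 479) (.e (nat_lit 229120) (nat_lit 3) (.e (nat_lit 98314) (nat_lit 9) (.e (nat_lit 336116) (nat_lit 9) (.e (nat_lit 336453) (nat_lit 34) (.e (nat_lit 491264) (nat_lit 3) .nil))))) (.g (nat_lit 0) (.e (nat_lit 235231) (nat_lit 0) .nil) .nil))) 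
(.lf (nat_lit 527194) (.g (nat_lit 3179) (.e (nat_lit 221208) (nat_lit 21) (.e (nat_lit 164401) (nat_lit 256) (.e (nat_lit 57427) (nat_lit 15) (.e (nat_lit 360474) (nat_lit 8) (.e (nat_lit 557072) (nat_lit 9) (.e (nat_lit 2717) (nat_lit 171) (.e (nat_lit 229678) (nat_lit 244) (.e (nat_lit 163885) (nat_lit 5) .nil)))))))) (.g (nat_lit 1) (.e (nat_lit 237106) (nat_lit 0) .nil) .nil))))) 
(.nd (nat_lit 8) (.nd (nat_lit 9) 
(.lf (nat_lit 526554) (.g (nat_lit 494) (.e (nat_lit 213032) (nat_lit 11) (.e (nat_lit 24660) (nat_lit 13) (.e (nat_lit 393269) (nat_lit 23) .nil))) (.g (nat_lit 0) (.e (nat_lit 234863) (nat_lit 0) .nil) .nil))) 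
(.lf (nat_lit 527066) (.g (nat_lit 2125) (.e (nat_lit 221204) (nat_lit 20) (.e (nat_lit 3253) (nat_lit 197) (.e (nat_lit 532499) (nat_lit 1) (.e (nat_lit 57926) (nat_lit 282) (.e (nat_lit 163874) (nat_lit 3) .nil))))) (.g (nat_lit 0) (.e (nat_lit 235720) (nat_lit 0) .nil) .nil)))) (.nd (nat_lit 9) 
(.lf (nat_lit 526810) (.g (nat_lit 1900) (.e (nat_lit 221192) (nat_lit 11) (.e (nat_lit 336153) (nat_lit 9) (.e (nat_lit 336442) (nat_lit 32) (.e (nat_lit 466969) (nat_lit 21) (.e (nat_lit 164324) (nat_lit 230) (.e (nat_lit 163884) (nat_lit 5) .nil)))))) (.g (nat_lit 1) (.e (nat_lit 235377) (nat_lit 0) .nil) .nil))) 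
(.lf (nat_lit 527322) (.g (nat_lit 2234) (.e (nat_lit 221210) (nat_lit 22) (.e (nat_lit 196668) (nat_lit 14) (.e (nat_lit 73747) (nat_lit 3) (.e (nat_lit 516119) (nat_lit 1) (.e (nat_lit 164177) (nat_lit 154) (.e (nat_lit 57379) (nat_lit 3) (.e (nat_lit 98340) (nat_lit 20) .nil))))))) (.g (nat_lit 1) (.e (nat_lit 237775) (nat_lit 0) .nil) .nil))))))) 
(.nd (nat_lit 6) (.nd (nat_lit 7) (.nd (nat_lit 8) (.nd (nat_lit 9) 
(.lf (nat_lit 526394) (.g (nat_lit 2855) (.e (nat_lit 213032) (nat_lit 11) (.e (nat_lit 24627) (nat_lit 9) (.e (nat_lit 336443) (nat_lit 32) (.e (nat_lit 466969) (nat_lit 21) (.e (nat_lit 164326) (nat_lit 230) (.e (nat_lit 163879) (nat_lit 4) .nil)))))) (.g (nat_lit 1) (.e (nat_lit 234598) (nat_lit 0) .nil) .nil))) 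
(.lf (nat_lit 526906) (.g (nat_lit 3207) (.e (nat_lit 221194) (nat_lit 11) (.e (nat_lit 336075) (nat_lit 9) (.e (nat_lit 336443) (nat_lit 32) (.e (nat_lit 466969) (nat_lit 21) (.e (nat_lit 164324) (nat_lit 230) (.e (nat_lit 163885) (nat_lit 5) .nil)))))) (.g (nat_lit 1) (.e (nat_lit 235502) (nat_lit 0) .nil) .nil)))) (.nd (nat_lit 9) 
(.lf (nat_lit 526650) (.g (nat_lit 2135) (.e (nat_lit 213035) (nat_lit 12) (.e (nat_lit 163979) (nat_lit 30) (.e (nat_lit 573475) (nat_lit 12) (.e (nat_lit 57530) (nat_lit 46) .nil)))) (.g (nat_lit 0) (.e (nat_lit 235127) (nat_lit 0) .nil) .nil))) 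
(.lf (nat_lit 527162) (.g (nat_lit 992) (.e (nat_lit 221207) (nat_lit 21) (.e (nat_lit 164331) (nat_lit 230) (.e (nat_lit 163932) (nat_lit 17) (.e (nat_lit 474880) (nat_lit 13) .nil)))) (.g (nat_lit 0) (.e (nat_lit 236663) (nat_lit 0) .nil) .nil))))) (.nd (nat_lit 8) (.nd (nat_lit 9) 
(.lf (nat_lit 526522) (.g (nat_lit 1830) (.e (nat_lit 213032) (nat_lit 11) (.e (nat_lit 24658) (nat_lit 13) (.e (nat_lit 393292) (nat_lit 26) (.e (nat_lit 475212) (nat_lit 42) (.e (nat_lit 728832) (nat_lit 4) .nil))))) (.g (nat_lit 1) (.e (nat_lit 234826) (nat_lit 0) .nil) .nil))) 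
(.lf (nat_lit 527034) (.g (nat_lit 2120) (.e (nat_lit 221196) (nat_lit 20) (.e (nat_lit 3242) (nat_lit 197) (.e (nat_lit 532499) (nat_lit 1) (.e (nat_lit 57927) (nat_lit 282) (.e (nat_lit 163871) (nat_lit 2) .nil))))) (.g (nat_lit 0) (.e (nat_lit 235678) (nat_lit 0) .nil) .nil)))) (.nd (nat_lit 9) 
(.lf (nat_lit 526778) (.g (nat_lit 1727) (.e (nat_lit 221190) (nat_lit 11) (.e (nat_lit 336078) (nat_lit 9) (.e (nat_lit 336443) (nat_lit 32) (.e (nat_lit 466968) (nat_lit 21) .nil)))) (.g (nat_lit 0) (.e (nat_lit 235340) (nat_lit 0) .nil) .nil))) 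
(.lf (nat_lit 527290) (.g (nat_lit 2506) (.e (nat_lit 221210) (nat_lit 22) (.e (nat_lit 196668) (nat_lit 14) (.e (nat_lit 73747) (nat_lit 3) (.e (nat_lit 516115) (nat_lit 1) (.e (nat_lit 164157) (nat_lit 152) .nil))))) (.g (nat_lit 0) (.e (nat_lit 237582) (nat_lit 0) .nil) .nil)))))) (.nd (nat_lit 7) (.nd (nat_lit 8) (.nd (nat_lit 9) 
(.lf (nat_lit 526458) (.g (nat_lit 643) (.e (nat_lit 213032) (nat_lit 11) (.e (nat_lit 24655) (nat_lit 13) (.e (nat_lit 393274) (nat_lit 23) .nil))) (.g (nat_lit 0) (.e (nat_lit 234728) (nat_lit 0) .nil) .nil))) 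
(.lf (nat_lit 526970) (.g (nat_lit 2861) (.e (nat_lit 221194) (nat_lit 11) (.e (nat_lit 336221) (nat_lit 13) (.e (nat_lit 393281) (nat_lit 23) (.e (nat_lit 426099) (nat_lit 1) (.e (nat_lit 164332) (nat_lit 230) (.e (nat_lit 163885) (nat_lit 5) .nil)))))) (.g (nat_lit 1) (.e (nat_lit 235566) (nat_lit 0) .nil) .nil)))) (.nd (nat_lit 9) 
(.lf (nat_lit 526714) (.g (nat_lit 761) (.e (nat_lit 229120) (nat_lit 5) (.e (nat_lit 114698) (nat_lit 11) (.e (nat_lit 426197) (nat_lit 9) (.e (nat_lit 426539) (nat_lit 29) .nil)))) (.g (nat_lit 0) (.e (nat_lit 235275) (nat_lit 0) .nil) .nil))) 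
(.lf (nat_lit 527226) (.g (nat_lit 2086) (.e (nat_lit 221210) (nat_lit 22) (.e (nat_lit 196656) (nat_lit 11) (.e (nat_lit 16425) (nat_lit 7) (.e (nat_lit 409617) (nat_lit 10) (.e (nat_lit 604) (nat_lit 45) .nil))))) (.g (nat_lit 0) (.e (nat_lit 237289) (nat_lit 0) .nil) .nil))))) (.nd (nat_lit 8) (.nd (nat_lit 9) 
(.lf (nat_lit 526586) (.g (nat_lit 4205) (.e (nat_lit 213033) (nat_lit 12) (.e (nat_lit 163962) (nat_lit 25) (.e (nat_lit 532499) (nat_lit 1) (.e (nat_lit 57927) (nat_lit 282) (.e (nat_lit 163869) (nat_lit 2) (.e (nat_lit 196670) (nat_lit 14) (.e (nat_lit 73746) (nat_lit 3) (.e (nat_lit 516127) (nat_lit 2) .nil)))))))) (.g (nat_lit 1) (.e (nat_lit 235006) (nat_lit 0) .nil) .nil))) 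
(.lf (nat_lit 527098) (.g (nat_lit 1591) (.e (nat_lit 221204) (nat_lit 20) (.e (nat_lit 3253) (nat_lit 197) (.e (nat_lit 532504) (nat_lit 1) (.e (nat_lit 57931) (nat_lit 282) .nil)))) (.g (nat_lit 0) (.e (nat_lit 235752) (nat_lit 0) .nil) .nil)))) (.nd (nat_lit 9) 
(.lf (nat_lit 526842) (.g (nat_lit 1781) (.e (nat_lit 221193) (nat_lit 11) (.e (nat_lit 336074) (nat_lit 9) (.e (nat_lit 336443) (nat_lit 32) (.e (nat_lit 466969) (nat_lit 21) (.e (nat_lit 164326) (nat_lit 230) .nil))))) (.g (nat_lit 0) (.e (nat_lit 235418) (nat_lit 0) .nil) .nil))) 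
(.lf (nat_lit 527354) (.g (nat_lit 4141) (.e (nat_lit 221210) (nat_lit 22) (.e (nat_lit 196670) (nat_lit 14) (.e (nat_lit 73746) (nat_lit 3) (.e (nat_lit 516118) (nat_lit 1) (.e (nat_lit 164179) (nat_lit 154) (.e (nat_lit 57377) (nat_lit 3) (.e (nat_lit 98341) (nat_lit 20) .nil))))))) (.g (nat_lit 1) (.e (nat_lit 238009) (nat_lit 0) .nil) .nil)))))))))) 
(.nd (nat_lit 3) (.nd (nat_lit 4) (.nd (nat_lit 5) (.nd (nat_lit 6) (.nd (nat_lit 7) 
(.nd (nat_lit 8) (.nd (nat_lit 9) 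
(.lf (nat_lit 526342) (.g (nat_lit 1516) (.e (nat_lit 213032) (nat_lit 11) (.e (nat_lit 24609) (nat_lit 3) (.e (nat_lit 98365) (nat_lit 26) (.e (nat_lit 426306) (nat_lit 12) (.e (nat_lit 475175) (nat_lit 24) .nil))))) (.g (nat_lit 0) (.e (nat_lit 234539) (nat_lit 0) .nil) .nil))) 
(.lf (nat_lit 526854) (.g (nat_lit 2359) (.e (nat_lit 221193) (nat_lit 11) (.e (nat_lit 336075) (nat_lit 9) (.e (nat_lit 336443) (nat_lit 32) (.e (nat_lit 466972) (nat_lit 21) (.e (nat_lit 164332) (nat_lit 230) (.e (nat_lit 163885) (nat_lit 5) .nil)))))) (.g (nat_lit 1) (.e (nat_lit 235430) (nat_lit 0) .nil) .nil)))) (.nd (nat_lit 9) 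
(.lf (nat_lit 526598) (.g (nat_lit 2934) (.e (nat_lit 213033) (nat_lit 12) (.e (nat_lit 163977) (nat_lit 30) (.e (nat_lit 573474) (nat_lit 12) (.e (nat_lit 57528) (nat_lit 46) .nil)))) (.g (nat_lit 0) (.e (nat_lit 235023) (nat_lit 0) .nil) .nil))) 
(.lf (nat_lit 527110) (.g (nat_lit 1657) (.e (nat_lit 221206) (nat_lit 21) (.e (nat_lit 164325) (nat_lit 230) (.e (nat_lit 163907) (nat_lit 12) (.e (nat_lit 426227) (nat_lit 9) (.e (nat_lit 433920) (nat_lit 32) .nil))))) (.g (nat_lit 0) (.e (nat_lit 235915) (nat_lit 0) .nil) .nil))))) (.nd (nat_lit 8) (.nd (nat_lit 9) 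
(.lf (nat_lit 526470) (.g (nat_lit 2692) (.e (nat_lit 213032) (nat_lit 11) (.e (nat_lit 24655) (nat_lit 13) (.e (nat_lit 393290) (nat_lit 26) (.e (nat_lit 475214) (nat_lit 42) (.e (nat_lit 728832) (nat_lit 4) .nil))))) (.g (nat_lit 1) (.e (nat_lit 234744) (nat_lit 0) .nil) .nil))) 
(.lf (nat_lit 526982) (.g (nat_lit 946) (.e (nat_lit 229120) (nat_lit 11) (.e (nat_lit 336075) (nat_lit 9) (.e (nat_lit 336443) (nat_lit 32) (.e (nat_lit 466969) (nat_lit 21) .nil)))) (.g (nat_lit 0) (.e (nat_lit 235595) (nat_lit 0) .nil) .nil)))) (.nd (nat_lit 9) 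
(.lf (nat_lit 526726) (.g (nat_lit 1338) (.e (nat_lit 229120) (nat_lit 5) (.e (nat_lit 114698) (nat_lit 11) (.e (nat_lit 426200) (nat_lit 9) (.e (nat_lit 426494) (nat_lit 27) .nil)))) (.g (nat_lit 0) (.e (nat_lit 235287) (nat_lit 0) .nil) .nil))) 
(.lf (nat_lit 527238) (.g (nat_lit 2224) (.e (nat_lit 221210) (nat_lit 22) (.e (nat_lit 196656) (nat_lit 11) (.e (nat_lit 16448) (nat_lit 10) (.e (nat_lit 434232) (nat_lit 23) (.e (nat_lit 532531) (nat_lit 9) .nil))))) (.g (nat_lit 0) (.e (nat_lit 237343) (nat_lit 0) .nil) .nil)))))) (.nd (nat_lit 7) (.nd (nat_lit 8) (.nd (nat_lit 9) 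
(.lf (nat_lit 526406) (.g (nat_lit 733) (.e (nat_lit 213032) (nat_lit 11) (.e (nat_lit 24628) (nat_lit 9) (.e (nat_lit 336434) (nat_lit 30) .nil))) (.g (nat_lit 0) (.e (nat_lit 234643) (nat_lit 0) .nil) .nil))) 
(.lf (nat_lit 526918) (.g (nat_lit 3245) (.e (nat_lit 221194) (nat_lit 11) (.e (nat_lit 336077) (nat_lit 9) (.e (nat_lit 336443) (nat_lit 32) (.e (nat_lit 466969) (nat_lit 21) (.e (nat_lit 164331) (nat_lit 230) (.e (nat_lit 163885) (nat_lit 5) .nil)))))) (.g (nat_lit 1) (.e (nat_lit 235514) (nat_lit 0) .nil) .nil)))) (.nd (nat_lit 9) 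
(.lf (nat_lit 526662) (.g (nat_lit 2491) (.e (nat_lit 213039) (nat_lit 14) (.e (nat_lit 2777) (nat_lit 178) (.e (nat_lit 286759) (nat_lit 12) (.e (nat_lit 385106) (nat_lit 50) (.e (nat_lit 786479) (nat_lit 29) .nil))))) (.g (nat_lit 0) (.e (nat_lit 235144) (nat_lit 0) .nil) .nil))) 
(.lf (nat_lit 527174) (.g (nat_lit 1598) (.e (nat_lit 221208) (nat_lit 21) (.e (nat_lit 164330) (nat_lit 230) (.e (nat_lit 163902) (nat_lit 12) (.e (nat_lit 426233) (nat_lit 9) (.e (nat_lit 426552) (nat_lit 32) (.e (nat_lit 384768) (nat_lit 5) .nil)))))) (.g (nat_lit 1) (.e (nat_lit 236868) (nat_lit 0) .nil) .nil))))) (.nd (nat_lit 8) (.nd (nat_lit 9) 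
(.lf (nat_lit 526534) (.g (nat_lit 2383) (.e (nat_lit 213032) (nat_lit 11) (.e (nat_lit 24659) (nat_lit 13) (.e (nat_lit 393268) (nat_lit 23) (.e (nat_lit 426448) (nat_lit 20) (.e (nat_lit 122624) (nat_lit 4) .nil))))) (.g (nat_lit 1) (.e (nat_lit 234840) (nat_lit 0) .nil) .nil))) 
(.lf (nat_lit 527046) (.g (nat_lit 2379) (.e (nat_lit 221203) (nat_lit 20) (.e (nat_lit 3253) (nat_lit 197) (.e (nat_lit 532499) (nat_lit 1) (.e (nat_lit 57927) (nat_lit 282) (.e (nat_lit 163871) (nat_lit 2) .nil))))) (.g (nat_lit 0) (.e (nat_lit 235697) (nat_lit 0) .nil) .nil)))) (.nd (nat_lit 9) 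
(.lf (nat_lit 526790) (.g (nat_lit 1764) (.e (nat_lit 221191) (nat_lit 11) (.e (nat_lit 336153) (nat_lit 9) (.e (nat_lit 336442) (nat_lit 32) (.e (nat_lit 466969) (nat_lit 21) (.e (nat_lit 164325) (nat_lit 230) (.e (nat_lit 163886) (nat_lit 5) .nil)))))) (.g (nat_lit 1) (.e (nat_lit 235356) (nat_lit 0) .nil) .nil))) 
(.lf (nat_lit 527302) (.g (nat_lit 3887) (.e (nat_lit 221210) (nat_lit 22) (.e (nat_lit 196668) (nat_lit 14) (.e (nat_lit 73747) (nat_lit 3) (.e (nat_lit 516115) (nat_lit 1) (.e (nat_lit 164182) (nat_lit 154) (.e (nat_lit 57378) (nat_lit 3) (.e (nat_lit 98340) (nat_lit 20) .nil))))))) (.g (nat_lit 1) (.e (nat_lit 237655) (nat_lit 0) .nil) .nil))))))) 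
(.nd (nat_lit 6) (.nd (nat_lit 7) (.nd (nat_lit 8) (.nd (nat_lit 9) 
(.lf (nat_lit 526374) (.g (nat_lit 1739) (.e (nat_lit 213032) (nat_lit 11) (.e (nat_lit 24625) (nat_lit 9) (.e (nat_lit 336443) (nat_lit 32) (.e (nat_lit 466972) (nat_lit 21) (.e (nat_lit 164329) (nat_lit 230) .nil))))) (.g (nat_lit 0) (.e (nat_lit 234578) (nat_lit 0) .nil) .nil))) 
(.lf (nat_lit 526886) (.g (nat_lit 1545) (.e (nat_lit 221194) (nat_lit 11) (.e (nat_lit 336012) (nat_lit 2) (.e (nat_lit 90172) (nat_lit 14) (.e (nat_lit 180291) (nat_lit 48) .nil)))) (.g (nat_lit 0) (.e (nat_lit 235479) (nat_lit 0) .nil) .nil)))) (.nd (nat_lit 9) 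
(.lf (nat_lit 526630) (.g (nat_lit 2441) (.e (nat_lit 213035) (nat_lit 12) (.e (nat_lit 163963) (nat_lit 25) (.e (nat_lit 532499) (nat_lit 1) (.e (nat_lit 57847) (nat_lit 252) (.e (nat_lit 57370) (nat_lit 2) .nil))))) (.g (nat_lit 0) (.e (nat_lit 235092) (nat_lit 0) .nil) .nil))) 
(.lf (nat_lit 527142) (.g (nat_lit 1982) (.e (nat_lit 221207) (nat_lit 21) (.e (nat_lit 164325) (nat_lit 230) (.e (nat_lit 163903) (nat_lit 12) (.e (nat_lit 426226) (nat_lit 9) (.e (nat_lit 426554) (nat_lit 32) (.e (nat_lit 384768) (nat_lit 5) .nil)))))) (.g (nat_lit 1) (.e (nat_lit 236441) (nat_lit 0) .nil) .nil))))) (.nd (nat_lit 8) (.nd (nat_lit 9) 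
(.lf (nat_lit 526502) (.g (nat_lit 954) (.e (nat_lit 213032) (nat_lit 11) (.e (nat_lit 24657) (nat_lit 13) (.e (nat_lit 393280) (nat_lit 23) .nil))) (.g (nat_lit 0) (.e (nat_lit 234779) (nat_lit 0) .nil) .nil))) 
(.lf (nat_lit 527014) (.g (nat_lit 994) (.e (nat_lit 229120) (nat_lit 17) (.e (nat_lit 385066) (nat_lit 26) (.e (nat_lit 532558) (nat_lit 14) (.e (nat_lit 376858) (nat_lit 21) .nil)))) (.g (nat_lit 0) (.e (nat_lit 235656) (nat_lit 0) .nil) .nil)))) (.nd (nat_lit 9) 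
(.lf (nat_lit 526758) (.g (nat_lit 903) (.e (nat_lit 229120) (nat_lit 5) (.e (nat_lit 114698) (nat_lit 11) (.e (nat_lit 426335) (nat_lit 13) (.e (nat_lit 483346) (nat_lit 17) .nil)))) (.g (nat_lit 0) (.e (nat_lit 235320) (nat_lit 0) .nil) .nil))) 
(.lf (nat_lit 527270) (.g (nat_lit 1999) (.e (nat_lit 221210) (nat_lit 22) (.e (nat_lit 196668) (nat_lit 14) (.e (nat_lit 73746) (nat_lit 3) (.e (nat_lit 516117) (nat_lit 1) (.e (nat_lit 164176) (nat_lit 154) .nil))))) (.g (nat_lit 0) (.e (nat_lit 237500) (nat_lit 0) .nil) .nil)))))) (.nd (nat_lit 7) (.nd (nat_lit 8) (.nd (nat_lit 9) 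
(.lf (nat_lit 526438) (.g (nat_lit 1538) (.e (nat_lit 213032) (nat_lit 11) (.e (nat_lit 24630) (nat_lit 9) (.e (nat_lit 336443) (nat_lit 32) (.e (nat_lit 466968) (nat_lit 21) .nil)))) (.g (nat_lit 0) (.e (nat_lit 234687) (nat_lit 0) .nil) .nil))) 
(.lf (nat_lit 526950) (.g (nat_lit 2416) (.e (nat_lit 221194) (nat_lit 11) (.e (nat_lit 336088) (nat_lit 9) (.e (nat_lit 336382) (nat_lit 27) (.e (nat_lit 426306) (nat_lit 12) (.e (nat_lit 475214) (nat_lit 42) (.e (nat_lit 728832) (nat_lit 5) .nil)))))) (.g (nat_lit 1) (.e (nat_lit 235546) (nat_lit 0) .nil) .nil)))) (.nd (nat_lit 9) 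
(.lf (nat_lit 526694) (.g (nat_lit 1014) (.e (nat_lit 229120) (nat_lit 4) (.e (nat_lit 106536) (nat_lit 11) (.e (nat_lit 16467) (nat_lit 13) (.e (nat_lit 483391) (nat_lit 23) (.e (nat_lit 336335) (nat_lit 20) .nil))))) (.g (nat_lit 0) (.e (nat_lit 235246) (nat_lit 0) .nil) .nil))) 
(.lf (nat_lit 527206) (.g (nat_lit 1518) (.e (nat_lit 221208) (nat_lit 21) (.e (nat_lit 164402) (nat_lit 256) (.e (nat_lit 57427) (nat_lit 15) (.e (nat_lit 360468) (nat_lit 3) (.e (nat_lit 516198) (nat_lit 26) .nil))))) (.g (nat_lit 0) (.e (nat_lit 237118) (nat_lit 0) .nil) .nil))))) (.nd (nat_lit 8) (.nd (nat_lit 9) 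
(.lf (nat_lit 526566) (.g (nat_lit 2135) (.e (nat_lit 213032) (nat_lit 11) (.e (nat_lit 24660) (nat_lit 13) (.e (nat_lit 393294) (nat_lit 26) (.e (nat_lit 475214) (nat_lit 42) (.e (nat_lit 728832) (nat_lit 4) .nil))))) (.g (nat_lit 1) (.e (nat_lit 234880) (nat_lit 0) .nil) .nil))) 
(.lf (nat_lit 527078) (.g (nat_lit 407) (.e (nat_lit 221204) (nat_lit 20) (.e (nat_lit 3253) (nat_lit 197) (.e (nat_lit 532501) (nat_lit 1) .nil))) (.g (nat_lit 0) (.e (nat_lit 235732) (nat_lit 0) .nil) .nil)))) (.nd (nat_lit 9) 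
(.lf (nat_lit 526822) (.g (nat_lit 1660) (.e (nat_lit 221192) (nat_lit 11) (.e (nat_lit 336153) (nat_lit 9) (.e (nat_lit 336442) (nat_lit 32) (.e (nat_lit 466972) (nat_lit 21) (.e (nat_lit 164329) (nat_lit 230) (.e (nat_lit 163884) (nat_lit 5) .nil)))))) (.g (nat_lit 1) (.e (nat_lit 235389) (nat_lit 0) .nil) .nil))) 
(.lf (nat_lit 527334) (.g (nat_lit 4499) (.e (nat_lit 221210) (nat_lit 22) (.e (nat_lit 196668) (nat_lit 14) (.e (nat_lit 73747) (nat_lit 3) (.e (nat_lit 516120) (nat_lit 1) (.e (nat_lit 164182) (nat_lit 154) (.e (nat_lit 57379) (nat_lit 3) (.e (nat_lit 98342) (nat_lit 20) .nil))))))) (.g (nat_lit 1) (.e (nat_lit 237847) (nat_lit 0) .nil) .nil)))))))) 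
(.nd (nat_lit 5) (.nd (nat_lit 6) (.nd (nat_lit 7) (.nd (nat_lit 8) (.nd (nat_lit 9) 
(.lf (nat_lit 526358) (.g (nat_lit 2318) (.e (nat_lit 213032) (nat_lit 11) (.e (nat_lit 24625) (nat_lit 9) (.e (nat_lit 336432) (nat_lit 30) (.e (nat_lit 450565) (nat_lit 0) (.e (nat_lit 5224) (nat_lit 296) (.e (nat_lit 163877) (nat_lit 4) .nil)))))) (.g (nat_lit 1) (.e (nat_lit 234562) (nat_lit 0) .nil) .nil))) 
(.lf (nat_lit 526870) (.g (nat_lit 2561) (.e (nat_lit 221193) (nat_lit 11) (.e (nat_lit 336084) (nat_lit 9) (.e (nat_lit 336443) (nat_lit 32) (.e (nat_lit 466971) (nat_lit 21) (.e (nat_lit 164327) (nat_lit 230) (.e (nat_lit 163886) (nat_lit 5) .nil)))))) (.g (nat_lit 1) (.e (nat_lit 235446) (nat_lit 0) .nil) .nil)))) (.nd (nat_lit 9) 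
(.lf (nat_lit 526614) (.g (nat_lit 2024) (.e (nat_lit 213034) (nat_lit 12) (.e (nat_lit 163963) (nat_lit 25) (.e (nat_lit 532499) (nat_lit 1) (.e (nat_lit 57926) (nat_lit 282) (.e (nat_lit 163869) (nat_lit 2) .nil))))) (.g (nat_lit 0) (.e (nat_lit 235060) (nat_lit 0) .nil) .nil))) 
(.lf (nat_lit 527126) (.g (nat_lit 2073) (.e (nat_lit 221206) (nat_lit 21) (.e (nat_lit 164330) (nat_lit 230) (.e (nat_lit 171776) (nat_lit 66) (.e (nat_lit 114714) (nat_lit 22) (.e (nat_lit 90185) (nat_lit 17) (.e (nat_lit 237582) (nat_lit 1) (.e (nat_lit 164332) (nat_lit 230) (.e (nat_lit 163884) (nat_lit 5) .nil)))))))) (.g (nat_lit 1) (.e (nat_lit 236184) (nat_lit 0) .nil) .nil))))) 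
(.nd (nat_lit 8) (.nd (nat_lit 9) 
(.lf (nat_lit 526486) (.g (nat_lit 2216) (.e (nat_lit 213032) (nat_lit 11) (.e (nat_lit 24656) (nat_lit 13) (.e (nat_lit 393281) (nat_lit 23) (.e (nat_lit 426098) (nat_lit 1) (.e (nat_lit 164327) (nat_lit 230) (.e (nat_lit 163881) (nat_lit 4) .nil)))))) (.g (nat_lit 1) (.e (nat_lit 234763) (nat_lit 0) .nil) .nil))) 
(.lf (nat_lit 526998) (.g (nat_lit 757) (.e (nat_lit 229120) (nat_lit 11) (.e (nat_lit 336454) (nat_lit 34) (.e (nat_lit 483384) (nat_lit 23) .nil))) (.g (nat_lit 0) (.e (nat_lit 235636) (nat_lit 0) .nil) .nil)))) (.nd (nat_lit 9) 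
(.lf (nat_lit 526742) (.g (nat_lit 828) (.e (nat_lit 229120) (nat_lit 5) (.e (nat_lit 114698) (nat_lit 11) (.e (nat_lit 426326) (nat_lit 13) (.e (nat_lit 483386) (nat_lit 23) .nil)))) (.g (nat_lit 0) (.e (nat_lit 235303) (nat_lit 0) .nil) .nil))) 
(.lf (nat_lit 527254) (.g (nat_lit 2336) (.e (nat_lit 221210) (nat_lit 22) (.e (nat_lit 196666) (nat_lit 13) (.e (nat_lit 65571) (nat_lit 3) (.e (nat_lit 98332) (nat_lit 18) (.e (nat_lit 164182) (nat_lit 154) .nil))))) (.g (nat_lit 0) (.e (nat_lit 237412) (nat_lit 0) .nil) .nil)))))) (.nd (nat_lit 7) (.nd (nat_lit 8) (.nd (nat_lit 9) 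
(.lf (nat_lit 526422) (.g (nat_lit 2621) (.e (nat_lit 213032) (nat_lit 11) (.e (nat_lit 24629) (nat_lit 9) (.e (nat_lit 336431) (nat_lit 29) (.e (nat_lit 442421) (nat_lit 21) (.e (nat_lit 164326) (nat_lit 230) (.e (nat_lit 163881) (nat_lit 4) .nil)))))) (.g (nat_lit 1) (.e (nat_lit 234660) (nat_lit 0) .nil) .nil))) 
(.lf (nat_lit 526934) (.g (nat_lit 1445) (.e (nat_lit 221194) (nat_lit 11) (.e (nat_lit 336086) (nat_lit 9) (.e (nat_lit 336444) (nat_lit 32) (.e (nat_lit 466971) (nat_lit 21) (.e (nat_lit 164331) (nat_lit 230) .nil))))) (.g (nat_lit 0) (.e (nat_lit 235530) (nat_lit 0) .nil) .nil)))) (.nd (nat_lit 9) 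
(.lf (nat_lit 526678) (.g (nat_lit 1171) (.e (nat_lit 229120) (nat_lit 2) (.e (nat_lit 90160) (nat_lit 11) (.e (nat_lit 24657) (nat_lit 13) (.e (nat_lit 393227) (nat_lit 9) .nil)))) (.g (nat_lit 0) (.e (nat_lit 235224) (nat_lit 0) .nil) .nil))) 
(.lf (nat_lit 527190) (.g (nat_lit 1779) (.e (nat_lit 221208) (nat_lit 21) (.e (nat_lit 164332) (nat_lit 230) (.e (nat_lit 163905) (nat_lit 12) (.e (nat_lit 426233) (nat_lit 9) (.e (nat_lit 426552) (nat_lit 32) (.e (nat_lit 384768) (nat_lit 5) .nil)))))) (.g (nat_lit 1) (.e (nat_lit 237070) (nat_lit 0) .nil) .nil))))) (.nd (nat_lit 8) (.nd (nat_lit 9) 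
(.lf (nat_lit 526550) (.g (nat_lit 1177) (.e (nat_lit 213032) (nat_lit 11) (.e (nat_lit 24659) (nat_lit 13) (.e (nat_lit 393296) (nat_lit 26) (.e (nat_lit 475214) (nat_lit 42) .nil)))) (.g (nat_lit 0) (.e (nat_lit 234859) (nat_lit 0) .nil) .nil))) 
(.lf (nat_lit 527062) (.g (nat_lit 2399) (.e (nat_lit 221203) (nat_lit 20) (.e (nat_lit 3253) (nat_lit 197) (.e (nat_lit 532504) (nat_lit 1) (.e (nat_lit 57931) (nat_lit 282) (.e (nat_lit 163874) (nat_lit 3) .nil))))) (.g (nat_lit 0) (.e (nat_lit 235715) (nat_lit 0) .nil) .nil)))) (.nd (nat_lit 9) 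
(.lf (nat_lit 526806) (.g (nat_lit 2079) (.e (nat_lit 221192) (nat_lit 11) (.e (nat_lit 336152) (nat_lit 9) (.e (nat_lit 336442) (nat_lit 32) (.e (nat_lit 466971) (nat_lit 21) (.e (nat_lit 164327) (nat_lit 230) (.e (nat_lit 163884) (nat_lit 5) .nil)))))) (.g (nat_lit 1) (.e (nat_lit 235373) (nat_lit 0) .nil) .nil))) 
(.lf (nat_lit 527318) (.g (nat_lit 2217) (.e (nat_lit 221210) (nat_lit 22) (.e (nat_lit 196668) (nat_lit 14) (.e (nat_lit 73747) (nat_lit 3) (.e (nat_lit 516119) (nat_lit 1) (.e (nat_lit 164157) (nat_lit 152) .nil))))) (.g (nat_lit 0) (.e (nat_lit 237753) (nat_lit 0) .nil) .nil))))))) (.nd (nat_lit 6) (.nd (nat_lit 7) (.nd (nat_lit 8) (.nd (nat_lit 9) 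
(.lf (nat_lit 526390) (.g (nat_lit 641) (.e (nat_lit 213032) (nat_lit 11) (.e (nat_lit 24627) (nat_lit 9) (.e (nat_lit 336430) (nat_lit 29) .nil))) (.g (nat_lit 0) (.e (nat_lit 234594) (nat_lit 0) .nil) .nil))) 
(.lf (nat_lit 526902) (.g (nat_lit 2853) (.e (nat_lit 221194) (nat_lit 11) (.e (nat_lit 336074) (nat_lit 9) (.e (nat_lit 336443) (nat_lit 32) (.e (nat_lit 466971) (nat_lit 21) (.e (nat_lit 164325) (nat_lit 230) (.e (nat_lit 163886) (nat_lit 5) .nil)))))) (.g (nat_lit 1) (.e (nat_lit 235498) (nat_lit 0) .nil) .nil)))) (.nd (nat_lit 9) 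
(.lf (nat_lit 526646) (.g (nat_lit 3015) (.e (nat_lit 213035) (nat_lit 12) (.e (nat_lit 163979) (nat_lit 30) (.e (nat_lit 573474) (nat_lit 12) (.e (nat_lit 57544) (nat_lit 47) .nil)))) (.g (nat_lit 0) (.e (nat_lit 235121) (nat_lit 0) .nil) .nil))) 
(.lf (nat_lit 527158) (.g (nat_lit 566) (.e (nat_lit 221207) (nat_lit 21) (.e (nat_lit 164331) (nat_lit 230) (.e (nat_lit 163915) (nat_lit 12) .nil))) (.g (nat_lit 0) (.e (nat_lit 236632) (nat_lit 0) .nil) .nil))))) (.nd (nat_lit 8) (.nd (nat_lit 9) 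
(.lf (nat_lit 526518) (.g (nat_lit 2278) (.e (nat_lit 213032) (nat_lit 11) (.e (nat_lit 24658) (nat_lit 13) (.e (nat_lit 393281) (nat_lit 23) (.e (nat_lit 426100) (nat_lit 1) (.e (nat_lit 164332) (nat_lit 230) (.e (nat_lit 171776) (nat_lit 4) .nil)))))) (.g (nat_lit 1) (.e (nat_lit 234817) (nat_lit 0) .nil) .nil))) 
(.lf (nat_lit 527030) (.g (nat_lit 2625) (.e (nat_lit 221195) (nat_lit 20) (.e (nat_lit 3238) (nat_lit 197) (.e (nat_lit 532500) (nat_lit 1) (.e (nat_lit 57926) (nat_lit 282) (.e (nat_lit 163869) (nat_lit 2) .nil))))) (.g (nat_lit 0) (.e (nat_lit 235673) (nat_lit 0) .nil) .nil)))) (.nd (nat_lit 9) 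
(.lf (nat_lit 526774) (.g (nat_lit 1312) (.e (nat_lit 221190) (nat_lit 11) (.e (nat_lit 336012) (nat_lit 2) (.e (nat_lit 90176) (nat_lit 15) (.e (nat_lit 188418) (nat_lit 0) .nil)))) (.g (nat_lit 0) (.e (nat_lit 235336) (nat_lit 0) .nil) .nil))) 
(.lf (nat_lit 527286) (.g (nat_lit 2337) (.e (nat_lit 221210) (nat_lit 22) (.e (nat_lit 196668) (nat_lit 14) (.e (nat_lit 73747) (nat_lit 3) (.e (nat_lit 516097) (nat_lit 0) (.e (nat_lit 3453) (nat_lit 216) .nil))))) (.g (nat_lit 0) (.e (nat_lit 237575) (nat_lit 0) .nil) .nil)))))) (.nd (nat_lit 7) (.nd (nat_lit 8) (.nd (nat_lit 9) 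
(.lf (nat_lit 526454) (.g (nat_lit 2046) (.e (nat_lit 213032) (nat_lit 11) (.e (nat_lit 24655) (nat_lit 13) (.e (nat_lit 393272) (nat_lit 23) (.e (nat_lit 426448) (nat_lit 20) (.e (nat_lit 122624) (nat_lit 4) .nil))))) (.g (nat_lit 1) (.e (nat_lit 234724) (nat_lit 0) .nil) .nil))) 
(.lf (nat_lit 526966) (.g (nat_lit 798) (.e (nat_lit 221194) (nat_lit 11) (.e (nat_lit 336203) (nat_lit 12) (.e (nat_lit 385030) (nat_lit 8) .nil))) (.g (nat_lit 0) (.e (nat_lit 235562) (nat_lit 0) .nil) .nil)))) (.nd (nat_lit 9) 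
(.lf (nat_lit 526710) (.g (nat_lit 1373) (.e (nat_lit 229120) (nat_lit 5) (.e (nat_lit 114698) (nat_lit 11) (.e (nat_lit 426190) (nat_lit 9) (.e (nat_lit 426555) (nat_lit 32) (.e (nat_lit 384768) (nat_lit 5) .nil))))) (.g (nat_lit 0) (.e (nat_lit 235270) (nat_lit 0) .nil) .nil))) 
(.lf (nat_lit 527222) (.g (nat_lit 2004) (.e (nat_lit 221210) (nat_lit 22) (.e (nat_lit 196654) (nat_lit 11) (.e (nat_lit 16459) (nat_lit 12) (.e (nat_lit 475177) (nat_lit 24) (.e (nat_lit 524032) (nat_lit 18) .nil))))) (.g (nat_lit 0) (.e (nat_lit 237266) (nat_lit 0) .nil) .nil))))) (.nd (nat_lit 8) (.nd (nat_lit 9) 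
(.lf (nat_lit 526582) (.g (nat_lit 533) (.e (nat_lit 220928) (nat_lit 11) (.e (nat_lit 24608) (nat_lit 3) (.e (nat_lit 98380) (nat_lit 31) .nil))) (.g (nat_lit 0) (.e (nat_lit 234999) (nat_lit 0) .nil) .nil))) 
(.lf (nat_lit 527094) (.g (nat_lit 2527) (.e (nat_lit 221204) (nat_lit 20) (.e (nat_lit 3253) (nat_lit 197) (.e (nat_lit 532504) (nat_lit 1) (.e (nat_lit 57852) (nat_lit 252) (.e (nat_lit 57373) (nat_lit 2) .nil))))) (.g (nat_lit 0) (.e (nat_lit 235748) (nat_lit 0) .nil) .nil)))) (.nd (nat_lit 9) 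
(.lf (nat_lit 526838) (.g (nat_lit 826) (.e (nat_lit 221193) (nat_lit 11) (.e (nat_lit 336027) (nat_lit 3) (.e (nat_lit 98371) (nat_lit 28) .nil))) (.g (nat_lit 0) (.e (nat_lit 235414) (nat_lit 0) .nil) .nil))) 
(.lf (nat_lit 527350) (.g (nat_lit 2633) (.e (nat_lit 221210) (nat_lit 22) (.e (nat_lit 196670) (nat_lit 14) (.e (nat_lit 73746) (nat_lit 3) (.e (nat_lit 516117) (nat_lit 1) (.e (nat_lit 164180) (nat_lit 154) (.e (nat_lit 57378) (nat_lit 3) (.e (nat_lit 98340) (nat_lit 20) .nil))))))) (.g (nat_lit 1) (.e (nat_lit 237974) (nat_lit 0) .nil) .nil))))))))) 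
(.nd (nat_lit 4) (.nd (nat_lit 5) (.nd (nat_lit 6) (.nd (nat_lit 7) (.nd (nat_lit 8) 
(.nd (nat_lit 9) 
(.lf (nat_lit 526350) (.g (nat_lit 2780) (.e (nat_lit 213032) (nat_lit 11) (.e (nat_lit 24624) (nat_lit 9) (.e (nat_lit 336443) (nat_lit 32) (.e (nat_lit 466969) (nat_lit 21) (.e (nat_lit 164326) (nat_lit 230) (.e (nat_lit 163881) (nat_lit 4) .nil)))))) (.g (nat_lit 1) (.e (nat_lit 234549) (nat_lit 0) .nil) .nil))) 
(.lf (nat_lit 526862) (.g (nat_lit 2559) (.e (nat_lit 221193) (nat_lit 11) (.e (nat_lit 336077) (nat_lit 9) (.e (nat_lit 336443) (nat_lit 32) (.e (nat_lit 466971) (nat_lit 21) (.e (nat_lit 164327) (nat_lit 230) (.e (nat_lit 163886) (nat_lit 5) .nil)))))) (.g (nat_lit 1) (.e (nat_lit 235438) (nat_lit 0) .nil) .nil)))) (.nd (nat_lit 9) 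
(.lf (nat_lit 526606) (.g (nat_lit 3090) (.e (nat_lit 213033) (nat_lit 12) (.e (nat_lit 163979) (nat_lit 30) (.e (nat_lit 573474) (nat_lit 12) (.e (nat_lit 57543) (nat_lit 47) .nil)))) (.g (nat_lit 0) (.e (nat_lit 235044) (nat_lit 0) .nil) .nil))) 
(.lf (nat_lit 527118) (.g (nat_lit 1183) (.e (nat_lit 221206) (nat_lit 21) (.e (nat_lit 164330) (nat_lit 230) (.e (nat_lit 163902) (nat_lit 12) (.e (nat_lit 426229) (nat_lit 9) .nil)))) (.g (nat_lit 0) (.e (nat_lit 236077) (nat_lit 0) .nil) .nil))))) (.nd (nat_lit 8) (.nd (nat_lit 9) 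
(.lf (nat_lit 526478) (.g (nat_lit 2638) (.e (nat_lit 213032) (nat_lit 11) (.e (nat_lit 24655) (nat_lit 13) (.e (nat_lit 393296) (nat_lit 26) (.e (nat_lit 475212) (nat_lit 42) (.e (nat_lit 728832) (nat_lit 4) .nil))))) (.g (nat_lit 1) (.e (nat_lit 234755) (nat_lit 0) .nil) .nil))) 
(.lf (nat_lit 526990) (.g (nat_lit 2098) (.e (nat_lit 229120) (nat_lit 11) (.e (nat_lit 336454) (nat_lit 34) (.e (nat_lit 483380) (nat_lit 23) (.e (nat_lit 336316) (nat_lit 17) (.e (nat_lit 196622) (nat_lit 9) .nil))))) (.g (nat_lit 0) (.e (nat_lit 235628) (nat_lit 0) .nil) .nil)))) (.nd (nat_lit 9) 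
(.lf (nat_lit 526734) (.g (nat_lit 692) (.e (nat_lit 229120) (nat_lit 5) (.e (nat_lit 114698) (nat_lit 11) (.e (nat_lit 426315) (nat_lit 12) .nil))) (.g (nat_lit 0) (.e (nat_lit 235295) (nat_lit 0) .nil) .nil))) 
(.lf (nat_lit 527246) (.g (nat_lit 3931) (.e (nat_lit 221210) (nat_lit 22) (.e (nat_lit 196666) (nat_lit 13) (.e (nat_lit 65569) (nat_lit 3) (.e (nat_lit 98333) (nat_lit 18) (.e (nat_lit 164179) (nat_lit 154) (.e (nat_lit 57378) (nat_lit 3) (.e (nat_lit 98342) (nat_lit 20) .nil))))))) (.g (nat_lit 1) (.e (nat_lit 237388) (nat_lit 0) .nil) .nil)))))) 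
(.nd (nat_lit 7) (.nd (nat_lit 8) (.nd (nat_lit 9) 
(.lf (nat_lit 526414) (.g (nat_lit 2884) (.e (nat_lit 213032) (nat_lit 11) (.e (nat_lit 24628) (nat_lit 9) (.e (nat_lit 336443) (nat_lit 32) (.e (nat_lit 466971) (nat_lit 21) (.e (nat_lit 164326) (nat_lit 230) (.e (nat_lit 163879) (nat_lit 4) .nil)))))) (.g (nat_lit 1) (.e (nat_lit 234652) (nat_lit 0) .nil) .nil))) 
(.lf (nat_lit 526926) (.g (nat_lit 2626) (.e (nat_lit 221194) (nat_lit 11) (.e (nat_lit 336084) (nat_lit 9) (.e (nat_lit 336443) (nat_lit 32) (.e (nat_lit 466969) (nat_lit 21) (.e (nat_lit 164324) (nat_lit 230) (.e (nat_lit 163886) (nat_lit 5) .nil)))))) (.g (nat_lit 1) (.e (nat_lit 235522) (nat_lit 0) .nil) .nil)))) (.nd (nat_lit 9) 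
(.lf (nat_lit 526670) (.g (nat_lit 956) (.e (nat_lit 229120) (nat_lit 2) (.e (nat_lit 90157) (nat_lit 11) (.e (nat_lit 24657) (nat_lit 13) (.e (nat_lit 393227) (nat_lit 9) .nil)))) (.g (nat_lit 0) (.e (nat_lit 235214) (nat_lit 0) .nil) .nil))) 
(.lf (nat_lit 527182) (.g (nat_lit 385) (.e (nat_lit 221208) (nat_lit 21) (.e (nat_lit 164330) (nat_lit 230) (.e (nat_lit 163915) (nat_lit 12) .nil))) (.g (nat_lit 0) (.e (nat_lit 236904) (nat_lit 0) .nil) .nil))))) (.nd (nat_lit 8) (.nd (nat_lit 9) 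
(.lf (nat_lit 526542) (.g (nat_lit 1418) (.e (nat_lit 213032) (nat_lit 11) (.e (nat_lit 24659) (nat_lit 13) (.e (nat_lit 393282) (nat_lit 24) (.e (nat_lit 434209) (nat_lit 18) (.e (nat_lit 5223) (nat_lit 296) .nil))))) (.g (nat_lit 0) (.e (nat_lit 234848) (nat_lit 0) .nil) .nil))) 
(.lf (nat_lit 527054) (.g (nat_lit 2218) (.e (nat_lit 221203) (nat_lit 20) (.e (nat_lit 3253) (nat_lit 197) (.e (nat_lit 532501) (nat_lit 1) (.e (nat_lit 57927) (nat_lit 282) (.e (nat_lit 163874) (nat_lit 3) .nil))))) (.g (nat_lit 0) (.e (nat_lit 235706) (nat_lit 0) .nil) .nil)))) (.nd (nat_lit 9) 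
(.lf (nat_lit 526798) (.g (nat_lit 3278) (.e (nat_lit 221191) (nat_lit 11) (.e (nat_lit 336235) (nat_lit 14) (.e (nat_lit 401454) (nat_lit 12) (.e (nat_lit 475210) (nat_lit 41) (.e (nat_lit 712722) (nat_lit 15) .nil))))) (.g (nat_lit 0) (.e (nat_lit 235365) (nat_lit 0) .nil) .nil))) 
(.lf (nat_lit 527310) (.g (nat_lit 2014) (.e (nat_lit 221210) (nat_lit 22) (.e (nat_lit 196668) (nat_lit 14) (.e (nat_lit 73747) (nat_lit 3) (.e (nat_lit 516117) (nat_lit 1) (.e (nat_lit 164176) (nat_lit 154) .nil))))) (.g (nat_lit 0) (.e (nat_lit 237707) (nat_lit 0) .nil) .nil))))))) (.nd (nat_lit 6) (.nd (nat_lit 7) (.nd (nat_lit 8) (.nd (nat_lit 9) 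
(.lf (nat_lit 526382) (.g (nat_lit 3466) (.e (nat_lit 213032) (nat_lit 11) (.e (nat_lit 24626) (nat_lit 9) (.e (nat_lit 336443) (nat_lit 32) (.e (nat_lit 466969) (nat_lit 21) (.e (nat_lit 164332) (nat_lit 230) (.e (nat_lit 163878) (nat_lit 4) .nil)))))) (.g (nat_lit 1) (.e (nat_lit 234586) (nat_lit 0) .nil) .nil))) 
(.lf (nat_lit 526894) (.g (nat_lit 2131) (.e (nat_lit 221194) (nat_lit 11) (.e (nat_lit 336027) (nat_lit 3) (.e (nat_lit 98367) (nat_lit 27) (.e (nat_lit 434197) (nat_lit 16) (.e (nat_lit 164096) (nat_lit 86) .nil))))) (.g (nat_lit 0) (.e (nat_lit 235490) (nat_lit 0) .nil) .nil)))) (.nd (nat_lit 9) 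
(.lf (nat_lit 526638) (.g (nat_lit 1025) (.e (nat_lit 213035) (nat_lit 12) (.e (nat_lit 163978) (nat_lit 30) (.e (nat_lit 573478) (nat_lit 12) .nil))) (.g (nat_lit 0) (.e (nat_lit 235109) (nat_lit 0) .nil) .nil))) 
(.lf (nat_lit 527150) (.g (nat_lit 1271) (.e (nat_lit 221207) (nat_lit 21) (.e (nat_lit 164325) (nat_lit 230) (.e (nat_lit 163919) (nat_lit 14) (.e (nat_lit 450304) (nat_lit 16) .nil)))) (.g (nat_lit 0) (.e (nat_lit 236488) (nat_lit 0) .nil) .nil))))) (.nd (nat_lit 8) (.nd (nat_lit 9) 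
(.lf (nat_lit 526510) (.g (nat_lit 424) (.e (nat_lit 213032) (nat_lit 11) (.e (nat_lit 24658) (nat_lit 13) (.e (nat_lit 393281) (nat_lit 23) .nil))) (.g (nat_lit 0) (.e (nat_lit 234805) (nat_lit 0) .nil) .nil))) 
(.lf (nat_lit 527022) (.g (nat_lit 1719) (.e (nat_lit 229120) (nat_lit 17) (.e (nat_lit 385068) (nat_lit 26) (.e (nat_lit 532560) (nat_lit 14) (.e (nat_lit 376858) (nat_lit 21) .nil)))) (.g (nat_lit 0) (.e (nat_lit 235664) (nat_lit 0) .nil) .nil)))) (.nd (nat_lit 9) 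
(.lf (nat_lit 526766) (.g (nat_lit 1742) (.e (nat_lit 229120) (nat_lit 5) (.e (nat_lit 114698) (nat_lit 11) (.e (nat_lit 426335) (nat_lit 13) (.e (nat_lit 483391) (nat_lit 23) (.e (nat_lit 343808) (nat_lit 20) .nil))))) (.g (nat_lit 0) (.e (nat_lit 235328) (nat_lit 0) .nil) .nil))) 
(.lf (nat_lit 527278) (.g (nat_lit 2145) (.e (nat_lit 221210) (nat_lit 22) (.e (nat_lit 196668) (nat_lit 14) (.e (nat_lit 73746) (nat_lit 3) (.e (nat_lit 516120) (nat_lit 1) (.e (nat_lit 164176) (nat_lit 154) .nil))))) (.g (nat_lit 0) (.e (nat_lit 237547) (nat_lit 0) .nil) .nil)))))) (.nd (nat_lit 7) (.nd (nat_lit 8) (.nd (nat_lit 9) 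
(.lf (nat_lit 526446) (.g (nat_lit 2692) (.e (nat_lit 213032) (nat_lit 11) (.e (nat_lit 24654) (nat_lit 13) (.e (nat_lit 393294) (nat_lit 26) (.e (nat_lit 475214) (nat_lit 42) (.e (nat_lit 728832) (nat_lit 4) .nil))))) (.g (nat_lit 1) (.e (nat_lit 234716) (nat_lit 0) .nil) .nil))) 
(.lf (nat_lit 526958) (.g (nat_lit 666) (.e (nat_lit 221194) (nat_lit 11) (.e (nat_lit 336088) (nat_lit 9) (.e (nat_lit 336415) (nat_lit 27) .nil))) (.g (nat_lit 0) (.e (nat_lit 235554) (nat_lit 0) .nil) .nil)))) (.nd (nat_lit 9) 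
(.lf (nat_lit 526702) (.g (nat_lit 1275) (.e (nat_lit 229120) (nat_lit 5) (.e (nat_lit 114697) (nat_lit 11) (.e (nat_lit 426198) (nat_lit 9) (.e (nat_lit 426540) (nat_lit 29) (.e (nat_lit 360192) (nat_lit 5) .nil))))) (.g (nat_lit 0) (.e (nat_lit 235255) (nat_lit 0) .nil) .nil))) 
(.lf (nat_lit 527214) (.g (nat_lit 536) (.e (nat_lit 221209) (nat_lit 22) (.e (nat_lit 196668) (nat_lit 14) (.e (nat_lit 73747) (nat_lit 3) .nil))) (.g (nat_lit 0) (.e (nat_lit 237128) (nat_lit 0) .nil) .nil))))) (.nd (nat_lit 8) (.nd (nat_lit 9) 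
(.lf (nat_lit 526574) (.g (nat_lit 1810) (.e (nat_lit 220928) (nat_lit 11) (.e (nat_lit 24607) (nat_lit 3) (.e (nat_lit 98365) (nat_lit 26) (.e (nat_lit 426306) (nat_lit 12) (.e (nat_lit 475178) (nat_lit 24) .nil))))) (.g (nat_lit 0) (.e (nat_lit 234991) (nat_lit 0) .nil) .nil))) 
(.lf (nat_lit 527086) (.g (nat_lit 1376) (.e (nat_lit 221204) (nat_lit 20) (.e (nat_lit 3253) (nat_lit 197) (.e (nat_lit 532501) (nat_lit 1) (.e (nat_lit 57931) (nat_lit 282) .nil)))) (.g (nat_lit 0) (.e (nat_lit 235740) (nat_lit 0) .nil) .nil)))) (.nd (nat_lit 9) 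
(.lf (nat_lit 526830) (.g (nat_lit 2089) (.e (nat_lit 221193) (nat_lit 11) (.e (nat_lit 336026) (nat_lit 3) (.e (nat_lit 98363) (nat_lit 26) (.e (nat_lit 426318) (nat_lit 12) (.e (nat_lit 475179) (nat_lit 24) (.e (nat_lit 516131) (nat_lit 3) .nil)))))) (.g (nat_lit 1) (.e (nat_lit 235406) (nat_lit 0) .nil) .nil))) 
(.lf (nat_lit 527342) (.g (nat_lit 2476) (.e (nat_lit 221210) (nat_lit 22) (.e (nat_lit 196670) (nat_lit 14) (.e (nat_lit 73746) (nat_lit 3) (.e (nat_lit 516115) (nat_lit 1) (.e (nat_lit 164180) (nat_lit 154) .nil))))) (.g (nat_lit 0) (.e (nat_lit 237931) (nat_lit 0) .nil) .nil)))))))) (.nd (nat_lit 5) (.nd (nat_lit 6) (.nd (nat_lit 7) (.nd (nat_lit 8) (.nd (nat_lit 9) 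
(.lf (nat_lit 526366) (.g (nat_lit 2980) (.e (nat_lit 213032) (nat_lit 11) (.e (nat_lit 24625) (nat_lit 9) (.e (nat_lit 336443) (nat_lit 32) (.e (nat_lit 466969) (nat_lit 21) (.e (nat_lit 164327) (nat_lit 230) (.e (nat_lit 163879) (nat_lit 4) .nil)))))) (.g (nat_lit 1) (.e (nat_lit 234570) (nat_lit 0) .nil) .nil))) 
(.lf (nat_lit 526878) (.g (nat_lit 2161) (.e (nat_lit 221194) (nat_lit 11) (.e (nat_lit 336012) (nat_lit 2) (.e (nat_lit 90172) (nat_lit 14) (.e (nat_lit 180285) (nat_lit 45) (.e (nat_lit 2422) (nat_lit 157) (.e (nat_lit 595) (nat_lit 45) (.e (nat_lit 540416) (nat_lit 20) .nil))))))) (.g (nat_lit 1) (.e (nat_lit 235471) (nat_lit 0) .nil) .nil)))) (.nd (nat_lit 9) 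
(.lf (nat_lit 526622) (.g (nat_lit 1099) (.e (nat_lit 213034) (nat_lit 12) (.e (nat_lit 163978) (nat_lit 30) (.e (nat_lit 573478) (nat_lit 12) .nil))) (.g (nat_lit 0) (.e (nat_lit 235078) (nat_lit 0) .nil) .nil))) 
(.lf (nat_lit 527134) (.g (nat_lit 1940) (.e (nat_lit 221206) (nat_lit 21) (.e (nat_lit 164403) (nat_lit 256) (.e (nat_lit 57435) (nat_lit 17) (.e (nat_lit 376868) (nat_lit 23) .nil)))) (.g (nat_lit 0) (.e (nat_lit 236270) (nat_lit 0) .nil) .nil))))) (.nd (nat_lit 8) (.nd (nat_lit 9) 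
(.lf (nat_lit 526494) (.g (nat_lit 1500) (.e (nat_lit 213032) (nat_lit 11) (.e (nat_lit 24657) (nat_lit 13) (.e (nat_lit 393271) (nat_lit 23) (.e (nat_lit 426111) (nat_lit 1) .nil)))) (.g (nat_lit 0) (.e (nat_lit 234771) (nat_lit 0) .nil) .nil))) 
(.lf (nat_lit 527006) (.g (nat_lit 2190) (.e (nat_lit 229120) (nat_lit 11) (.e (nat_lit 336456) (nat_lit 34) (.e (nat_lit 483413) (nat_lit 27) (.e (nat_lit 401424) (nat_lit 2) .nil)))) (.g (nat_lit 0) (.e (nat_lit 235644) (nat_lit 0) .nil) .nil)))) (.nd (nat_lit 9) 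
(.lf (nat_lit 526750) (.g (nat_lit 535) (.e (nat_lit 229120) (nat_lit 5) (.e (nat_lit 114698) (nat_lit 11) (.e (nat_lit 426333) (nat_lit 13) .nil))) (.g (nat_lit 0) (.e (nat_lit 235312) (nat_lit 0) .nil) .nil))) 
(.lf (nat_lit 527262) (.g (nat_lit 2431) (.e (nat_lit 221210) (nat_lit 22) (.e (nat_lit 196668) (nat_lit 14) (.e (nat_lit 81664) (nat_lit 5) (.e (nat_lit 532583) (nat_lit 26) (.e (nat_lit 426011) (nat_lit 0) (.e (nat_lit 3211) (nat_lit 195) (.e (nat_lit 516129) (nat_lit 3) .nil))))))) (.g (nat_lit 1) (.e (nat_lit 237460) (nat_lit 0) .nil) .nil)))))) 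
(.nd (nat_lit 7) (.nd (nat_lit 8) (.nd (nat_lit 9) 
(.lf (nat_lit 526430) (.g (nat_lit 3179) (.e (nat_lit 213032) (nat_lit 11) (.e (nat_lit 24629) (nat_lit 9) (.e (nat_lit 336443) (nat_lit 32) (.e (nat_lit 466969) (nat_lit 21) (.e (nat_lit 164332) (nat_lit 230) (.e (nat_lit 163880) (nat_lit 4) .nil)))))) (.g (nat_lit 1) (.e (nat_lit 234669) (nat_lit 0) .nil) .nil))) 
(.lf (nat_lit 526942) (.g (nat_lit 663) (.e (nat_lit 221194) (nat_lit 11) (.e (nat_lit 336088) (nat_lit 9) (.e (nat_lit 336366) (nat_lit 27) .nil))) (.g (nat_lit 0) (.e (nat_lit 235538) (nat_lit 0) .nil) .nil)))) (.nd (nat_lit 9) 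
(.lf (nat_lit 526686) (.g (nat_lit 536) (.e (nat_lit 229120) (nat_lit 4) (.e (nat_lit 106534) (nat_lit 11) (.e (nat_lit 16462) (nat_lit 13) .nil))) (.g (nat_lit 0) (.e (nat_lit 235238) (nat_lit 0) .nil) .nil))) 
(.lf (nat_lit 527198) (.g (nat_lit 3364) (.e (nat_lit 221208) (nat_lit 21) (.e (nat_lit 164402) (nat_lit 256) (.e (nat_lit 57424) (nat_lit 14) (.e (nat_lit 352312) (nat_lit 22) (.e (nat_lit 90157) (nat_lit 11) (.e (nat_lit 32512) (nat_lit 20) .nil)))))) (.g (nat_lit 1) (.e (nat_lit 237110) (nat_lit 0) .nil) .nil))))) (.nd (nat_lit 8) (.nd (nat_lit 9) 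
(.lf (nat_lit 526558) (.g (nat_lit 1223) (.e (nat_lit 213032) (nat_lit 11) (.e (nat_lit 24660) (nat_lit 13) (.e (nat_lit 393279) (nat_lit 23) (.e (nat_lit 426447) (nat_lit 20) (.e (nat_lit 122624) (nat_lit 4) .nil))))) (.g (nat_lit 1) (.e (nat_lit 234867) (nat_lit 0) .nil) .nil))) 
(.lf (nat_lit 527070) (.g (nat_lit 1950) (.e (nat_lit 221204) (nat_lit 20) (.e (nat_lit 3253) (nat_lit 197) (.e (nat_lit 532499) (nat_lit 1) (.e (nat_lit 57927) (nat_lit 282) (.e (nat_lit 163869) (nat_lit 2) .nil))))) (.g (nat_lit 0) (.e (nat_lit 235724) (nat_lit 0) .nil) .nil)))) (.nd (nat_lit 9) 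
(.lf (nat_lit 526814) (.g (nat_lit 1721) (.e (nat_lit 221192) (nat_lit 11) (.e (nat_lit 336153) (nat_lit 9) (.e (nat_lit 336442) (nat_lit 32) (.e (nat_lit 466969) (nat_lit 21) (.e (nat_lit 164327) (nat_lit 230) (.e (nat_lit 163886) (nat_lit 5) .nil)))))) (.g (nat_lit 1) (.e (nat_lit 235381) (nat_lit 0) .nil) .nil))) 
(.lf (nat_lit 527326) (.g (nat_lit 2896) (.e (nat_lit 221210) (nat_lit 22) (.e (nat_lit 196668) (nat_lit 14) (.e (nat_lit 73747) (nat_lit 3) (.e (nat_lit 516119) (nat_lit 1) (.e (nat_lit 164183) (nat_lit 154) (.e (nat_lit 57378) (nat_lit 3) (.e (nat_lit 98340) (nat_lit 20) .nil))))))) (.g (nat_lit 1) (.e (nat_lit 237834) (nat_lit 0) .nil) .nil))))))) 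
(.nd (nat_lit 6) (.nd (nat_lit 7) (.nd (nat_lit 8) (.nd (nat_lit 9) 
(.lf (nat_lit 526398) (.g (nat_lit 2680) (.e (nat_lit 213032) (nat_lit 11) (.e (nat_lit 24627) (nat_lit 9) (.e (nat_lit 336443) (nat_lit 32) (.e (nat_lit 466969) (nat_lit 21) (.e (nat_lit 164332) (nat_lit 230) (.e (nat_lit 163877) (nat_lit 4) .nil)))))) (.g (nat_lit 1) (.e (nat_lit 234602) (nat_lit 0) .nil) .nil))) 
(.lf (nat_lit 526910) (.g (nat_lit 3383) (.e (nat_lit 221194) (nat_lit 11) (.e (nat_lit 336075) (nat_lit 9) (.e (nat_lit 336443) (nat_lit 32) (.e (nat_lit 466971) (nat_lit 21) (.e (nat_lit 164331) (nat_lit 230) (.e (nat_lit 163884) (nat_lit 5) .nil)))))) (.g (nat_lit 1) (.e (nat_lit 235506) (nat_lit 0) .nil) .nil)))) (.nd (nat_lit 9) 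
(.lf (nat_lit 526654) (.g (nat_lit 795) (.e (nat_lit 213035) (nat_lit 12) (.e (nat_lit 164057) (nat_lit 56) (.e (nat_lit 786477) (nat_lit 28) (.e (nat_lit 344177) (nat_lit 43) .nil)))) (.g (nat_lit 0) (.e (nat_lit 235132) (nat_lit 0) .nil) .nil))) 
(.lf (nat_lit 527166) (.g (nat_lit 667) (.e (nat_lit 221207) (nat_lit 21) (.e (nat_lit 164332) (nat_lit 230) (.e (nat_lit 163931) (nat_lit 17) .nil))) (.g (nat_lit 0) (.e (nat_lit 236676) (nat_lit 0) .nil) .nil))))) (.nd (nat_lit 8) (.nd (nat_lit 9) 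
(.lf (nat_lit 526526) (.g (nat_lit 1742) (.e (nat_lit 213032) (nat_lit 11) (.e (nat_lit 24658) (nat_lit 13) (.e (nat_lit 393294) (nat_lit 26) (.e (nat_lit 475212) (nat_lit 42) .nil)))) (.g (nat_lit 0) (.e (nat_lit 234830) (nat_lit 0) .nil) .nil))) 
(.lf (nat_lit 527038) (.g (nat_lit 1492) (.e (nat_lit 221202) (nat_lit 20) (.e (nat_lit 3249) (nat_lit 197) (.e (nat_lit 532499) (nat_lit 1) (.e (nat_lit 57926) (nat_lit 282) .nil)))) (.g (nat_lit 0) (.e (nat_lit 235689) (nat_lit 0) .nil) .nil)))) (.nd (nat_lit 9) 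
(.lf (nat_lit 526782) (.g (nat_lit 1769) (.e (nat_lit 221190) (nat_lit 11) (.e (nat_lit 336078) (nat_lit 9) (.e (nat_lit 336443) (nat_lit 32) (.e (nat_lit 466971) (nat_lit 21) (.e (nat_lit 164325) (nat_lit 230) .nil))))) (.g (nat_lit 0) (.e (nat_lit 235344) (nat_lit 0) .nil) .nil))) 
(.lf (nat_lit 527294) (.g (nat_lit 3770) (.e (nat_lit 221210) (nat_lit 22) (.e (nat_lit 196668) (nat_lit 14) (.e (nat_lit 73747) (nat_lit 3) (.e (nat_lit 516115) (nat_lit 1) (.e (nat_lit 164177) (nat_lit 154) (.e (nat_lit 57379) (nat_lit 3) (.e (nat_lit 98340) (nat_lit 20) .nil))))))) (.g (nat_lit 1) (.e (nat_lit 237597) (nat_lit 0) .nil) .nil)))))) 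
(.nd (nat_lit 7) (.nd (nat_lit 8) (.nd (nat_lit 9) 
(.lf (nat_lit 526462) (.g (nat_lit 1791) (.e (nat_lit 213032) (nat_lit 11) (.e (nat_lit 24655) (nat_lit 13) (.e (nat_lit 393280) (nat_lit 23) (.e (nat_lit 426098) (nat_lit 1) (.e (nat_lit 164325) (nat_lit 230) .nil))))) (.g (nat_lit 0) (.e (nat_lit 234732) (nat_lit 0) .nil) .nil))) 
(.lf (nat_lit 526974) (.g (nat_lit 2900) (.e (nat_lit 221194) (nat_lit 11) (.e (nat_lit 336231) (nat_lit 14) (.e (nat_lit 401460) (nat_lit 14) (.e (nat_lit 491565) (nat_lit 12) (.e (nat_lit 385109) (nat_lit 51) .nil))))) (.g (nat_lit 0) (.e (nat_lit 235571) (nat_lit 0) .nil) .nil)))) (.nd (nat_lit 9) 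
(.lf (nat_lit 526718) (.g (nat_lit 2136) (.e (nat_lit 229120) (nat_lit 5) (.e (nat_lit 114698) (nat_lit 11) (.e (nat_lit 426198) (nat_lit 9) (.e (nat_lit 426482) (nat_lit 27) (.e (nat_lit 336089) (nat_lit 9) .nil))))) (.g (nat_lit 0) (.e (nat_lit 235279) (nat_lit 0) .nil) .nil))) 
(.lf (nat_lit 527230) (.g (nat_lit 2203) (.e (nat_lit 221210) (nat_lit 22) (.e (nat_lit 196656) (nat_lit 11) (.e (nat_lit 16436) (nat_lit 9) (.e (nat_lit 426131) (nat_lit 3) (.e (nat_lit 204850) (nat_lit 26) (.e (nat_lit 343808) (nat_lit 20) .nil)))))) (.g (nat_lit 1) (.e (nat_lit 237299) (nat_lit 0) .nil) .nil))))) (.nd (nat_lit 8) (.nd (nat_lit 9) 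
(.lf (nat_lit 526590) (.g (nat_lit 2215) (.e (nat_lit 213033) (nat_lit 12) (.e (nat_lit 163976) (nat_lit 30) (.e (nat_lit 573474) (nat_lit 12) (.e (nat_lit 57527) (nat_lit 46) (.e (nat_lit 704514) (nat_lit 0) .nil))))) (.g (nat_lit 0) (.e (nat_lit 235013) (nat_lit 0) .nil) .nil))) 
(.lf (nat_lit 527102) (.g (nat_lit 1082) (.e (nat_lit 221206) (nat_lit 21) (.e (nat_lit 164322) (nat_lit 230) (.e (nat_lit 163908) (nat_lit 12) (.e (nat_lit 426195) (nat_lit 9) .nil)))) (.g (nat_lit 0) (.e (nat_lit 235811) (nat_lit 0) .nil) .nil)))) (.nd (nat_lit 9) 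
(.lf (nat_lit 526846) (.g (nat_lit 1823) (.e (nat_lit 221193) (nat_lit 11) (.e (nat_lit 336074) (nat_lit 9) (.e (nat_lit 336443) (nat_lit 32) (.e (nat_lit 466971) (nat_lit 21) (.e (nat_lit 164331) (nat_lit 230) .nil))))) (.g (nat_lit 0) (.e (nat_lit 235422) (nat_lit 0) .nil) .nil))) 
(.lf (nat_lit 527358) (.g (nat_lit 1854) (.e (nat_lit 221210) (nat_lit 22) (.e (nat_lit 196670) (nat_lit 14) (.e (nat_lit 73746) (nat_lit 3) (.e (nat_lit 516119) (nat_lit 1) (.e (nat_lit 164178) (nat_lit 154) .nil))))) (.g (nat_lit 0) (.e (nat_lit 238028) (nat_lit 0) .nil) .nil)))))))))))) 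
(.nd (nat_lit 1) (.nd (nat_lit 2) (.nd (nat_lit 3) (.nd (nat_lit 4) (.nd (nat_lit 5) 
(.nd (nat_lit 6) (.nd (nat_lit 7) (.nd (nat_lit 8) (.nd (nat_lit 9) 
(.lf (nat_lit 526337) (.g (nat_lit 977) (.e (nat_lit 213032) (nat_lit 11) (.e (nat_lit 24609) (nat_lit 3) (.e (nat_lit 98359) (nat_lit 26) (.e (nat_lit 426305) (nat_lit 12) .nil)))) (.g (nat_lit 0) (.e (nat_lit 234534) (nat_lit 0) .nil) .nil))) 
(.lf (nat_lit 526849) (.g (nat_lit 1750) (.e (nat_lit 221193) (nat_lit 11) (.e (nat_lit 336075) (nat_lit 9) (.e (nat_lit 336443) (nat_lit 32) (.e (nat_lit 466971) (nat_lit 21) (.e (nat_lit 164332) (nat_lit 230) .nil))))) (.g (nat_lit 0) (.e (nat_lit 235425) (nat_lit 0) .nil) .nil)))) (.nd (nat_lit 9) 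
(.lf (nat_lit 526593) (.g (nat_lit 2545) (.e (nat_lit 213033) (nat_lit 12) (.e (nat_lit 163976) (nat_lit 30) (.e (nat_lit 573474) (nat_lit 12) (.e (nat_lit 57528) (nat_lit 46) (.e (nat_lit 704513) (nat_lit 0) .nil))))) (.g (nat_lit 0) (.e (nat_lit 235016) (nat_lit 0) .nil) .nil))) 
(.lf (nat_lit 527105) (.g (nat_lit 1642) (.e (nat_lit 221206) (nat_lit 21) (.e (nat_lit 164325) (nat_lit 230) (.e (nat_lit 163903) (nat_lit 12) (.e (nat_lit 426226) (nat_lit 9) .nil)))) (.g (nat_lit 0) (.e (nat_lit 235899) (nat_lit 0) .nil) .nil))))) (.nd (nat_lit 8) (.nd (nat_lit 9) 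
(.lf (nat_lit 526465) (.g (nat_lit 2244) (.e (nat_lit 213032) (nat_lit 11) (.e (nat_lit 24655) (nat_lit 13) (.e (nat_lit 393281) (nat_lit 23) (.e (nat_lit 426098) (nat_lit 1) (.e (nat_lit 164325) (nat_lit 230) (.e (nat_lit 163879) (nat_lit 4) .nil)))))) (.g (nat_lit 1) (.e (nat_lit 234735) (nat_lit 0) .nil) .nil))) 
(.lf (nat_lit 526977) (.g (nat_lit 626) (.e (nat_lit 229120) (nat_lit 11) (.e (nat_lit 336020) (nat_lit 3) (.e (nat_lit 98369) (nat_lit 28) (.e (nat_lit 450304) (nat_lit 3) .nil)))) (.g (nat_lit 0) (.e (nat_lit 235590) (nat_lit 0) .nil) .nil)))) (.nd (nat_lit 9) 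
(.lf (nat_lit 526721) (.g (nat_lit 1426) (.e (nat_lit 229120) (nat_lit 5) (.e (nat_lit 114698) (nat_lit 11) (.e (nat_lit 426198) (nat_lit 9) (.e (nat_lit 426555) (nat_lit 32) (.e (nat_lit 384768) (nat_lit 5) .nil))))) (.g (nat_lit 0) (.e (nat_lit 235282) (nat_lit 0) .nil) .nil))) 
(.lf (nat_lit 527233) (.g (nat_lit 2659) (.e (nat_lit 221210) (nat_lit 22) (.e (nat_lit 196656) (nat_lit 11) (.e (nat_lit 16448) (nat_lit 10) (.e (nat_lit 434231) (nat_lit 23) (.e (nat_lit 532528) (nat_lit 9) (.e (nat_lit 336334) (nat_lit 20) .nil)))))) (.g (nat_lit 1) (.e (nat_lit 237338) (nat_lit 0) .nil) .nil)))))) (.nd (nat_lit 7) (.nd (nat_lit 8) (.nd (nat_lit 9) 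
(.lf (nat_lit 526401) (.g (nat_lit 2750) (.e (nat_lit 213032) (nat_lit 11) (.e (nat_lit 24627) (nat_lit 9) (.e (nat_lit 336443) (nat_lit 32) (.e (nat_lit 466971) (nat_lit 21) (.e (nat_lit 164326) (nat_lit 230) (.e (nat_lit 163879) (nat_lit 4) .nil)))))) (.g (nat_lit 1) (.e (nat_lit 234605) (nat_lit 0) .nil) .nil))) 
(.lf (nat_lit 526913) (.g (nat_lit 574) (.e (nat_lit 221194) (nat_lit 11) (.e (nat_lit 336076) (nat_lit 9) (.e (nat_lit 336392) (nat_lit 27) .nil))) (.g (nat_lit 0) (.e (nat_lit 235509) (nat_lit 0) .nil) .nil)))) (.nd (nat_lit 9) 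
(.lf (nat_lit 526657) (.g (nat_lit 1970) (.e (nat_lit 213037) (nat_lit 13) (.e (nat_lit 229433) (nat_lit 25) (.e (nat_lit 532499) (nat_lit 1) (.e (nat_lit 57926) (nat_lit 282) (.e (nat_lit 163871) (nat_lit 2) .nil))))) (.g (nat_lit 0) (.e (nat_lit 235138) (nat_lit 0) .nil) .nil))) 
(.lf (nat_lit 527169) (.g (nat_lit 691) (.e (nat_lit 221208) (nat_lit 21) (.e (nat_lit 164330) (nat_lit 230) (.e (nat_lit 163900) (nat_lit 12) .nil))) (.g (nat_lit 0) (.e (nat_lit 236861) (nat_lit 0) .nil) .nil))))) (.nd (nat_lit 8) (.nd (nat_lit 9) 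
(.lf (nat_lit 526529) (.g (nat_lit 1897) (.e (nat_lit 213032) (nat_lit 11) (.e (nat_lit 24658) (nat_lit 13) (.e (nat_lit 393295) (nat_lit 26) (.e (nat_lit 475214) (nat_lit 42) (.e (nat_lit 728832) (nat_lit 4) .nil))))) (.g (nat_lit 1) (.e (nat_lit 234833) (nat_lit 0) .nil) .nil))) 
(.lf (nat_lit 527041) (.g (nat_lit 4621) (.e (nat_lit 221202) (nat_lit 20) (.e (nat_lit 3249) (nat_lit 197) (.e (nat_lit 532499) (nat_lit 1) (.e (nat_lit 57927) (nat_lit 282) (.e (nat_lit 163869) (nat_lit 2) (.e (nat_lit 196670) (nat_lit 14) (.e (nat_lit 73746) (nat_lit 3) (.e (nat_lit 516129) (nat_lit 3) .nil)))))))) (.g (nat_lit 1) (.e (nat_lit 235692) (nat_lit 0) .nil) .nil)))) 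
(.nd (nat_lit 9) 
(.lf (nat_lit 526785) (.g (nat_lit 2453) (.e (nat_lit 221190) (nat_lit 11) (.e (nat_lit 336078) (nat_lit 9) (.e (nat_lit 336443) (nat_lit 32) (.e (nat_lit 466972) (nat_lit 21) (.e (nat_lit 164332) (nat_lit 230) (.e (nat_lit 163885) (nat_lit 5) .nil)))))) (.g (nat_lit 1) (.e (nat_lit 235347) (nat_lit 0) .nil) .nil))) 
(.lf (nat_lit 527297) (.g (nat_lit 4962) (.e (nat_lit 221210) (nat_lit 22) (.e (nat_lit 196668) (nat_lit 14) (.e (nat_lit 73747) (nat_lit 3) (.e (nat_lit 516115) (nat_lit 1) (.e (nat_lit 164179) (nat_lit 154) (.e (nat_lit 57378) (nat_lit 3) (.e (nat_lit 98340) (nat_lit 20) .nil))))))) (.g (nat_lit 1) (.e (nat_lit 237636) (nat_lit 0) .nil) .nil))))))) 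
(.nd (nat_lit 6) (.nd (nat_lit 7) (.nd (nat_lit 8) (.nd (nat_lit 9) 
(.lf (nat_lit 526369) (.g (nat_lit 2655) (.e (nat_lit 213032) (nat_lit 11) (.e (nat_lit 24625) (nat_lit 9) (.e (nat_lit 336443) (nat_lit 32) (.e (nat_lit 466971) (nat_lit 21) (.e (nat_lit 164325) (nat_lit 230) (.e (nat_lit 163877) (nat_lit 4) .nil)))))) (.g (nat_lit 1) (.e (nat_lit 234573) (nat_lit 0) .nil) .nil))) 
(.lf (nat_lit 526881) (.g (nat_lit 2104) (.e (nat_lit 221194) (nat_lit 11) (.e (nat_lit 336012) (nat_lit 2) (.e (nat_lit 90172) (nat_lit 14) (.e (nat_lit 180285) (nat_lit 45) (.e (nat_lit 2468) (nat_lit 157) (.e (nat_lit 597) (nat_lit 45) (.e (nat_lit 540416) (nat_lit 20) .nil))))))) (.g (nat_lit 1) (.e (nat_lit 235474) (nat_lit 0) .nil) .nil)))) (.nd (nat_lit 9) 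
(.lf (nat_lit 526625) (.g (nat_lit 3090) (.e (nat_lit 213034) (nat_lit 12) (.e (nat_lit 163979) (nat_lit 30) (.e (nat_lit 573474) (nat_lit 12) (.e (nat_lit 57543) (nat_lit 47) .nil)))) (.g (nat_lit 0) (.e (nat_lit 235085) (nat_lit 0) .nil) .nil))) 
(.lf (nat_lit 527137) (.g (nat_lit 944) (.e (nat_lit 221207) (nat_lit 21) (.e (nat_lit 164322) (nat_lit 230) (.e (nat_lit 163931) (nat_lit 17) (.e (nat_lit 474880) (nat_lit 13) .nil)))) (.g (nat_lit 0) (.e (nat_lit 236304) (nat_lit 0) .nil) .nil))))) (.nd (nat_lit 8) (.nd (nat_lit 9) 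
(.lf (nat_lit 526497) (.g (nat_lit 2012) (.e (nat_lit 213032) (nat_lit 11) (.e (nat_lit 24657) (nat_lit 13) (.e (nat_lit 393271) (nat_lit 23) (.e (nat_lit 426446) (nat_lit 20) (.e (nat_lit 122624) (nat_lit 4) .nil))))) (.g (nat_lit 0) (.e (nat_lit 234774) (nat_lit 0) .nil) .nil))) 
(.lf (nat_lit 527009) (.g (nat_lit 935) (.e (nat_lit 229120) (nat_lit 12) (.e (nat_lit 344107) (nat_lit 19) (.e (nat_lit 499941) (nat_lit 13) (.e (nat_lit 237605) (nat_lit 9) (.e (nat_lit 426438) (nat_lit 18) .nil))))) (.g (nat_lit 0) (.e (nat_lit 235651) (nat_lit 0) .nil) .nil)))) (.nd (nat_lit 9) 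
(.lf (nat_lit 526753) (.g (nat_lit 447) (.e (nat_lit 229120) (nat_lit 5) (.e (nat_lit 114698) (nat_lit 11) (.e (nat_lit 426334) (nat_lit 13) .nil))) (.g (nat_lit 0) (.e (nat_lit 235315) (nat_lit 0) .nil) .nil))) 
(.lf (nat_lit 527265) (.g (nat_lit 2514) (.e (nat_lit 221210) (nat_lit 22) (.e (nat_lit 196668) (nat_lit 14) (.e (nat_lit 73746) (nat_lit 3) (.e (nat_lit 516115) (nat_lit 1) (.e (nat_lit 164178) (nat_lit 154) .nil))))) (.g (nat_lit 0) (.e (nat_lit 237476) (nat_lit 0) .nil) .nil)))))) (.nd (nat_lit 7) (.nd (nat_lit 8) (.nd (nat_lit 9) 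
(.lf (nat_lit 526433) (.g (nat_lit 2325) (.e (nat_lit 213032) (nat_lit 11) (.e (nat_lit 24629) (nat_lit 9) (.e (nat_lit 336443) (nat_lit 32) (.e (nat_lit 466971) (nat_lit 21) (.e (nat_lit 164326) (nat_lit 230) (.e (nat_lit 163879) (nat_lit 4) .nil)))))) (.g (nat_lit 1) (.e (nat_lit 234672) (nat_lit 0) .nil) .nil))) 
(.lf (nat_lit 526945) (.g (nat_lit 708) (.e (nat_lit 221194) (nat_lit 11) (.e (nat_lit 336088) (nat_lit 9) (.e (nat_lit 336369) (nat_lit 27) .nil))) (.g (nat_lit 0) (.e (nat_lit 235541) (nat_lit 0) .nil) .nil)))) (.nd (nat_lit 9) 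
(.lf (nat_lit 526689) (.g (nat_lit 1724) (.e (nat_lit 229120) (nat_lit 4) (.e (nat_lit 106536) (nat_lit 11) (.e (nat_lit 16435) (nat_lit 9) (.e (nat_lit 426555) (nat_lit 32) (.e (nat_lit 384768) (nat_lit 5) .nil))))) (.g (nat_lit 0) (.e (nat_lit 235241) (nat_lit 0) .nil) .nil))) 
(.lf (nat_lit 527201) (.g (nat_lit 2341) (.e (nat_lit 221208) (nat_lit 21) (.e (nat_lit 164402) (nat_lit 256) (.e (nat_lit 57424) (nat_lit 14) (.e (nat_lit 352315) (nat_lit 23) (.e (nat_lit 98314) (nat_lit 9) .nil))))) (.g (nat_lit 0) (.e (nat_lit 237113) (nat_lit 0) .nil) .nil))))) (.nd (nat_lit 8) (.nd (nat_lit 9) 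
(.lf (nat_lit 526561) (.g (nat_lit 2084) (.e (nat_lit 213032) (nat_lit 11) (.e (nat_lit 24660) (nat_lit 13) (.e (nat_lit 393284) (nat_lit 24) (.e (nat_lit 434209) (nat_lit 18) (.e (nat_lit 5223) (nat_lit 296) (.e (nat_lit 163882) (nat_lit 4) .nil)))))) (.g (nat_lit 1) (.e (nat_lit 234875) (nat_lit 0) .nil) .nil))) 
(.lf (nat_lit 527073) (.g (nat_lit 5085) (.e (nat_lit 221204) (nat_lit 20) (.e (nat_lit 3253) (nat_lit 197) (.e (nat_lit 532499) (nat_lit 1) (.e (nat_lit 57927) (nat_lit 282) (.e (nat_lit 163874) (nat_lit 3) (.e (nat_lit 204863) (nat_lit 27) (.e (nat_lit 344117) (nat_lit 21) (.e (nat_lit 516130) (nat_lit 3) .nil)))))))) (.g (nat_lit 1) (.e (nat_lit 235727) (nat_lit 0) .nil) .nil)))) 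
(.nd (nat_lit 9) 
(.lf (nat_lit 526817) (.g (nat_lit 2038) (.e (nat_lit 221192) (nat_lit 11) (.e (nat_lit 336153) (nat_lit 9) (.e (nat_lit 336442) (nat_lit 32) (.e (nat_lit 466969) (nat_lit 21) (.e (nat_lit 164331) (nat_lit 230) (.e (nat_lit 163884) (nat_lit 5) .nil)))))) (.g (nat_lit 1) (.e (nat_lit 235384) (nat_lit 0) .nil) .nil))) 
(.lf (nat_lit 527329) (.g (nat_lit 2511) (.e (nat_lit 221210) (nat_lit 22) (.e (nat_lit 196668) (nat_lit 14) (.e (nat_lit 73747) (nat_lit 3) (.e (nat_lit 516120) (nat_lit 1) (.e (nat_lit 164181) (nat_lit 154) .nil))))) (.g (nat_lit 0) (.e (nat_lit 237837) (nat_lit 0) .nil) .nil)))))))) (.nd (nat_lit 5) (.nd (nat_lit 6) (.nd (nat_lit 7) (.nd (nat_lit 8) (.nd (nat_lit 9) 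
(.lf (nat_lit 526353) (.g (nat_lit 2766) (.e (nat_lit 213032) (nat_lit 11) (.e (nat_lit 24624) (nat_lit 9) (.e (nat_lit 336443) (nat_lit 32) (.e (nat_lit 466971) (nat_lit 21) (.e (nat_lit 164325) (nat_lit 230) (.e (nat_lit 163881) (nat_lit 4) .nil)))))) (.g (nat_lit 1) (.e (nat_lit 234552) (nat_lit 0) .nil) .nil))) 
(.lf (nat_lit 526865) (.g (nat_lit 715) (.e (nat_lit 221193) (nat_lit 11) (.e (nat_lit 336084) (nat_lit 9) (.e (nat_lit 336430) (nat_lit 29) (.e (nat_lit 442421) (nat_lit 21) .nil)))) (.g (nat_lit 0) (.e (nat_lit 235441) (nat_lit 0) .nil) .nil)))) (.nd (nat_lit 9) 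
(.lf (nat_lit 526609) (.g (nat_lit 2121) (.e (nat_lit 213033) (nat_lit 12) (.e (nat_lit 163979) (nat_lit 30) (.e (nat_lit 573475) (nat_lit 12) (.e (nat_lit 57527) (nat_lit 46) .nil)))) (.g (nat_lit 0) (.e (nat_lit 235052) (nat_lit 0) .nil) .nil))) 
(.lf (nat_lit 527121) (.g (nat_lit 412) (.e (nat_lit 221206) (nat_lit 21) (.e (nat_lit 164330) (nat_lit 230) (.e (nat_lit 163913) (nat_lit 12) .nil))) (.g (nat_lit 0) (.e (nat_lit 236098) (nat_lit 0) .nil) .nil))))) (.nd (nat_lit 8) (.nd (nat_lit 9) 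
(.lf (nat_lit 526481) (.g (nat_lit 2272) (.e (nat_lit 213032) (nat_lit 11) (.e (nat_lit 24656) (nat_lit 13) (.e (nat_lit 393268) (nat_lit 23) (.e (nat_lit 426448) (nat_lit 20) (.e (nat_lit 122624) (nat_lit 4) .nil))))) (.g (nat_lit 1) (.e (nat_lit 234758) (nat_lit 0) .nil) .nil))) 
(.lf (nat_lit 526993) (.g (nat_lit 601) (.e (nat_lit 229120) (nat_lit 11) (.e (nat_lit 336454) (nat_lit 34) (.e (nat_lit 483382) (nat_lit 23) .nil))) (.g (nat_lit 0) (.e (nat_lit 235631) (nat_lit 0) .nil) .nil)))) (.nd (nat_lit 9) 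
(.lf (nat_lit 526737) (.g (nat_lit 1825) (.e (nat_lit 229120) (nat_lit 5) (.e (nat_lit 114698) (nat_lit 11) (.e (nat_lit 426325) (nat_lit 13) (.e (nat_lit 483379) (nat_lit 23) (.e (nat_lit 336334) (nat_lit 20) .nil))))) (.g (nat_lit 0) (.e (nat_lit 235298) (nat_lit 0) .nil) .nil))) 
(.lf (nat_lit 527249) (.g (nat_lit 2537) (.e (nat_lit 221210) (nat_lit 22) (.e (nat_lit 196666) (nat_lit 13) (.e (nat_lit 65569) (nat_lit 3) (.e (nat_lit 98334) (nat_lit 18) (.e (nat_lit 164183) (nat_lit 154) (.e (nat_lit 57378) (nat_lit 3) (.e (nat_lit 98340) (nat_lit 20) .nil))))))) (.g (nat_lit 1) (.e (nat_lit 237401) (nat_lit 0) .nil) .nil)))))) 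
(.nd (nat_lit 7) (.nd (nat_lit 8) (.nd (nat_lit 9) 
(.lf (nat_lit 526417) (.g (nat_lit 1710) (.e (nat_lit 213032) (nat_lit 11) (.e (nat_lit 24628) (nat_lit 9) (.e (nat_lit 336443) (nat_lit 32) (.e (nat_lit 466972) (nat_lit 21) (.e (nat_lit 164329) (nat_lit 230) .nil))))) (.g (nat_lit 0) (.e (nat_lit 234655) (nat_lit 0) .nil) .nil))) 
(.lf (nat_lit 526929) (.g (nat_lit 2757) (.e (nat_lit 221194) (nat_lit 11) (.e (nat_lit 336084) (nat_lit 9) (.e (nat_lit 336443) (nat_lit 32) (.e (nat_lit 466971) (nat_lit 21) (.e (nat_lit 164325) (nat_lit 230) (.e (nat_lit 163885) (nat_lit 5) .nil)))))) (.g (nat_lit 1) (.e (nat_lit 235525) (nat_lit 0) .nil) .nil)))) (.nd (nat_lit 9) 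
(.lf (nat_lit 526673) (.g (nat_lit 1936) (.e (nat_lit 229120) (nat_lit 2) (.e (nat_lit 90158) (nat_lit 11) (.e (nat_lit 24628) (nat_lit 9) (.e (nat_lit 336456) (nat_lit 34) (.e (nat_lit 491264) (nat_lit 3) .nil))))) (.g (nat_lit 0) (.e (nat_lit 235217) (nat_lit 0) .nil) .nil))) 
(.lf (nat_lit 527185) (.g (nat_lit 523) (.e (nat_lit 221208) (nat_lit 21) (.e (nat_lit 164331) (nat_lit 230) (.e (nat_lit 163915) (nat_lit 12) .nil))) (.g (nat_lit 0) (.e (nat_lit 237017) (nat_lit 0) .nil) .nil))))) (.nd (nat_lit 8) (.nd (nat_lit 9) 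
(.lf (nat_lit 526545) (.g (nat_lit 2262) (.e (nat_lit 213032) (nat_lit 11) (.e (nat_lit 24659) (nat_lit 13) (.e (nat_lit 393283) (nat_lit 24) (.e (nat_lit 434209) (nat_lit 18) (.e (nat_lit 5224) (nat_lit 296) (.e (nat_lit 163879) (nat_lit 4) .nil)))))) (.g (nat_lit 1) (.e (nat_lit 234851) (nat_lit 0) .nil) .nil))) 
(.lf (nat_lit 527057) (.g (nat_lit 1801) (.e (nat_lit 221203) (nat_lit 20) (.e (nat_lit 3253) (nat_lit 197) (.e (nat_lit 532503) (nat_lit 1) (.e (nat_lit 57929) (nat_lit 282) .nil)))) (.g (nat_lit 0) (.e (nat_lit 235710) (nat_lit 0) .nil) .nil)))) (.nd (nat_lit 9) 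
(.lf (nat_lit 526801) (.g (nat_lit 1669) (.e (nat_lit 221192) (nat_lit 11) (.e (nat_lit 336152) (nat_lit 9) (.e (nat_lit 336442) (nat_lit 32) (.e (nat_lit 466969) (nat_lit 21) (.e (nat_lit 164326) (nat_lit 230) (.e (nat_lit 163884) (nat_lit 5) .nil)))))) (.g (nat_lit 1) (.e (nat_lit 235368) (nat_lit 0) .nil) .nil))) 
(.lf (nat_lit 527313) (.g (nat_lit 3550) (.e (nat_lit 221210) (nat_lit 22) (.e (nat_lit 196668) (nat_lit 14) (.e (nat_lit 73747) (nat_lit 3) (.e (nat_lit 516117) (nat_lit 1) (.e (nat_lit 164182) (nat_lit 154) (.e (nat_lit 57379) (nat_lit 3) (.e (nat_lit 98340) (nat_lit 20) .nil))))))) (.g (nat_lit 1) (.e (nat_lit 237723) (nat_lit 0) .nil) .nil))))))) 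
(.nd (nat_lit 6) (.nd (nat_lit 7) (.nd (nat_lit 8) (.nd (nat_lit 9) 
(.lf (nat_lit 526385) (.g (nat_lit 2955) (.e (nat_lit 213032) (nat_lit 11) (.e (nat_lit 24626) (nat_lit 9) (.e (nat_lit 336443) (nat_lit 32) (.e (nat_lit 466971) (nat_lit 21) (.e (nat_lit 164327) (nat_lit 230) (.e (nat_lit 163881) (nat_lit 4) .nil)))))) (.g (nat_lit 1) (.e (nat_lit 234589) (nat_lit 0) .nil) .nil))) 
(.lf (nat_lit 526897) (.g (nat_lit 2494) (.e (nat_lit 221194) (nat_lit 11) (.e (nat_lit 336027) (nat_lit 3) (.e (nat_lit 98373) (nat_lit 29) (.e (nat_lit 450583) (nat_lit 7) (.e (nat_lit 548876) (nat_lit 5) .nil))))) (.g (nat_lit 0) (.e (nat_lit 235493) (nat_lit 0) .nil) .nil)))) (.nd (nat_lit 9) 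
(.lf (nat_lit 526641) (.g (nat_lit 2138) (.e (nat_lit 213035) (nat_lit 12) (.e (nat_lit 163978) (nat_lit 30) (.e (nat_lit 573478) (nat_lit 12) (.e (nat_lit 57548) (nat_lit 47) .nil)))) (.g (nat_lit 0) (.e (nat_lit 235112) (nat_lit 0) .nil) .nil))) 
(.lf (nat_lit 527153) (.g (nat_lit 1254) (.e (nat_lit 221207) (nat_lit 21) (.e (nat_lit 164326) (nat_lit 230) (.e (nat_lit 163903) (nat_lit 12) (.e (nat_lit 426226) (nat_lit 9) .nil)))) (.g (nat_lit 0) (.e (nat_lit 236572) (nat_lit 0) .nil) .nil))))) (.nd (nat_lit 8) (.nd (nat_lit 9) 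
(.lf (nat_lit 526513) (.g (nat_lit 2779) (.e (nat_lit 213032) (nat_lit 11) (.e (nat_lit 24658) (nat_lit 13) (.e (nat_lit 393281) (nat_lit 23) (.e (nat_lit 426098) (nat_lit 1) (.e (nat_lit 164325) (nat_lit 230) (.e (nat_lit 163879) (nat_lit 4) .nil)))))) (.g (nat_lit 1) (.e (nat_lit 234808) (nat_lit 0) .nil) .nil))) 
(.lf (nat_lit 527025) (.g (nat_lit 2075) (.e (nat_lit 229120) (nat_lit 17) (.e (nat_lit 385068) (nat_lit 26) (.e (nat_lit 532560) (nat_lit 14) (.e (nat_lit 376860) (nat_lit 21) (.e (nat_lit 57685) (nat_lit 156) .nil))))) (.g (nat_lit 0) (.e (nat_lit 235667) (nat_lit 0) .nil) .nil)))) (.nd (nat_lit 9) 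
(.lf (nat_lit 526769) (.g (nat_lit 1093) (.e (nat_lit 229120) (nat_lit 5) (.e (nat_lit 114698) (nat_lit 11) (.e (nat_lit 426335) (nat_lit 13) (.e (nat_lit 491264) (nat_lit 23) .nil)))) (.g (nat_lit 0) (.e (nat_lit 235331) (nat_lit 0) .nil) .nil))) 
(.lf (nat_lit 527281) (.g (nat_lit 4897) (.e (nat_lit 221210) (nat_lit 22) (.e (nat_lit 196668) (nat_lit 14) (.e (nat_lit 73746) (nat_lit 3) (.e (nat_lit 516120) (nat_lit 1) (.e (nat_lit 164182) (nat_lit 154) (.e (nat_lit 57379) (nat_lit 3) (.e (nat_lit 98341) (nat_lit 20) .nil))))))) (.g (nat_lit 1) (.e (nat_lit 237559) (nat_lit 0) .nil) .nil)))))) 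
(.nd (nat_lit 7) (.nd (nat_lit 8) (.nd (nat_lit 9) 
(.lf (nat_lit 526449) (.g (nat_lit 2664) (.e (nat_lit 213032) (nat_lit 11) (.e (nat_lit 24655) (nat_lit 13) (.e (nat_lit 393268) (nat_lit 23) (.e (nat_lit 426448) (nat_lit 20) (.e (nat_lit 122624) (nat_lit 4) .nil))))) (.g (nat_lit 1) (.e (nat_lit 234719) (nat_lit 0) .nil) .nil))) 
(.lf (nat_lit 526961) (.g (nat_lit 1416) (.e (nat_lit 221194) (nat_lit 11) (.e (nat_lit 336088) (nat_lit 9) (.e (nat_lit 336432) (nat_lit 30) (.e (nat_lit 450565) (nat_lit 0) .nil)))) (.g (nat_lit 0) (.e (nat_lit 235557) (nat_lit 0) .nil) .nil)))) (.nd (nat_lit 9) 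
(.lf (nat_lit 526705) (.g (nat_lit 1383) (.e (nat_lit 229120) (nat_lit 5) (.e (nat_lit 114698) (nat_lit 11) (.e (nat_lit 426188) (nat_lit 9) (.e (nat_lit 426538) (nat_lit 29) (.e (nat_lit 360192) (nat_lit 5) .nil))))) (.g (nat_lit 0) (.e (nat_lit 235265) (nat_lit 0) .nil) .nil))) 
(.lf (nat_lit 527217) (.g (nat_lit 2514) (.e (nat_lit 221210) (nat_lit 22) (.e (nat_lit 196654) (nat_lit 11) (.e (nat_lit 16436) (nat_lit 9) (.e (nat_lit 426131) (nat_lit 3) (.e (nat_lit 204850) (nat_lit 26) .nil))))) (.g (nat_lit 0) (.e (nat_lit 237252) (nat_lit 0) .nil) .nil))))) (.nd (nat_lit 8) (.nd (nat_lit 9) 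
(.lf (nat_lit 526577) (.g (nat_lit 667) (.e (nat_lit 220928) (nat_lit 11) (.e (nat_lit 24608) (nat_lit 3) (.e (nat_lit 98365) (nat_lit 26) .nil))) (.g (nat_lit 0) (.e (nat_lit 234994) (nat_lit 0) .nil) .nil))) 
(.lf (nat_lit 527089) (.g (nat_lit 1506) (.e (nat_lit 221204) (nat_lit 20) (.e (nat_lit 3253) (nat_lit 197) (.e (nat_lit 532503) (nat_lit 1) (.e (nat_lit 57929) (nat_lit 282) .nil)))) (.g (nat_lit 0) (.e (nat_lit 235743) (nat_lit 0) .nil) .nil)))) (.nd (nat_lit 9) 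
(.lf (nat_lit 526833) (.g (nat_lit 435) (.e (nat_lit 221193) (nat_lit 11) (.e (nat_lit 336027) (nat_lit 3) (.e (nat_lit 98363) (nat_lit 26) .nil))) (.g (nat_lit 0) (.e (nat_lit 235409) (nat_lit 0) .nil) .nil))) 
(.lf (nat_lit 527345) (.g (nat_lit 3704) (.e (nat_lit 221210) (nat_lit 22) (.e (nat_lit 196670) (nat_lit 14) (.e (nat_lit 73746) (nat_lit 3) (.e (nat_lit 516115) (nat_lit 1) (.e (nat_lit 164182) (nat_lit 154) (.e (nat_lit 57379) (nat_lit 3) (.e (nat_lit 98340) (nat_lit 20) .nil))))))) (.g (nat_lit 1) (.e (nat_lit 237937) (nat_lit 0) .nil) .nil))))))))) 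
(.nd (nat_lit 4) (.nd (nat_lit 5) (.nd (nat_lit 6) (.nd (nat_lit 7) (.nd (nat_lit 8) 
(.nd (nat_lit 9) 
(.lf (nat_lit 526345) (.g (nat_lit 2857) (.e (nat_lit 213032) (nat_lit 11) (.e (nat_lit 24609) (nat_lit 3) (.e (nat_lit 98373) (nat_lit 29) (.e (nat_lit 450584) (nat_lit 9) (.e (nat_lit 565275) (nat_lit 9) (.e (nat_lit 2695) (nat_lit 169) .nil)))))) (.g (nat_lit 1) (.e (nat_lit 234544) (nat_lit 0) .nil) .nil))) 
(.lf (nat_lit 526857) (.g (nat_lit 1633) (.e (nat_lit 221193) (nat_lit 11) (.e (nat_lit 336077) (nat_lit 9) (.e (nat_lit 336443) (nat_lit 32) (.e (nat_lit 466969) (nat_lit 21) (.e (nat_lit 164326) (nat_lit 230) (.e (nat_lit 163886) (nat_lit 5) .nil)))))) (.g (nat_lit 1) (.e (nat_lit 235433) (nat_lit 0) .nil) .nil)))) (.nd (nat_lit 9) 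
(.lf (nat_lit 526601) (.g (nat_lit 809) (.e (nat_lit 213033) (nat_lit 12) (.e (nat_lit 163978) (nat_lit 30) (.e (nat_lit 573478) (nat_lit 12) .nil))) (.g (nat_lit 0) (.e (nat_lit 235032) (nat_lit 0) .nil) .nil))) 
(.lf (nat_lit 527113) (.g (nat_lit 1158) (.e (nat_lit 221206) (nat_lit 21) (.e (nat_lit 164326) (nat_lit 230) (.e (nat_lit 163903) (nat_lit 12) (.e (nat_lit 426227) (nat_lit 9) .nil)))) (.g (nat_lit 0) (.e (nat_lit 236002) (nat_lit 0) .nil) .nil))))) (.nd (nat_lit 8) (.nd (nat_lit 9) 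
(.lf (nat_lit 526473) (.g (nat_lit 2130) (.e (nat_lit 213032) (nat_lit 11) (.e (nat_lit 24655) (nat_lit 13) (.e (nat_lit 393292) (nat_lit 26) (.e (nat_lit 475214) (nat_lit 42) (.e (nat_lit 728832) (nat_lit 4) .nil))))) (.g (nat_lit 1) (.e (nat_lit 234747) (nat_lit 0) .nil) .nil))) 
(.lf (nat_lit 526985) (.g (nat_lit 995) (.e (nat_lit 229120) (nat_lit 11) (.e (nat_lit 336083) (nat_lit 9) (.e (nat_lit 336443) (nat_lit 32) (.e (nat_lit 466972) (nat_lit 21) .nil)))) (.g (nat_lit 0) (.e (nat_lit 235598) (nat_lit 0) .nil) .nil)))) (.nd (nat_lit 9) 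
(.lf (nat_lit 526729) (.g (nat_lit 2161) (.e (nat_lit 229120) (nat_lit 5) (.e (nat_lit 114698) (nat_lit 11) (.e (nat_lit 426200) (nat_lit 9) (.e (nat_lit 426509) (nat_lit 27) (.e (nat_lit 336089) (nat_lit 9) .nil))))) (.g (nat_lit 0) (.e (nat_lit 235290) (nat_lit 0) .nil) .nil))) 
(.lf (nat_lit 527241) (.g (nat_lit 2126) (.e (nat_lit 221210) (nat_lit 22) (.e (nat_lit 196663) (nat_lit 13) (.e (nat_lit 65571) (nat_lit 3) (.e (nat_lit 98333) (nat_lit 18) (.e (nat_lit 164182) (nat_lit 154) .nil))))) (.g (nat_lit 0) (.e (nat_lit 237369) (nat_lit 0) .nil) .nil)))))) (.nd (nat_lit 7) (.nd (nat_lit 8) (.nd (nat_lit 9) 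
(.lf (nat_lit 526409) (.g (nat_lit 2267) (.e (nat_lit 213032) (nat_lit 11) (.e (nat_lit 24628) (nat_lit 9) (.e (nat_lit 336443) (nat_lit 32) (.e (nat_lit 466969) (nat_lit 21) (.e (nat_lit 164326) (nat_lit 230) (.e (nat_lit 163877) (nat_lit 4) .nil)))))) (.g (nat_lit 1) (.e (nat_lit 234647) (nat_lit 0) .nil) .nil))) 
(.lf (nat_lit 526921) (.g (nat_lit 2323) (.e (nat_lit 221194) (nat_lit 11) (.e (nat_lit 336077) (nat_lit 9) (.e (nat_lit 336443) (nat_lit 32) (.e (nat_lit 466971) (nat_lit 21) (.e (nat_lit 164324) (nat_lit 230) (.e (nat_lit 163886) (nat_lit 5) .nil)))))) (.g (nat_lit 1) (.e (nat_lit 235517) (nat_lit 0) .nil) .nil)))) (.nd (nat_lit 9) 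
(.lf (nat_lit 526665) (.g (nat_lit 1499) (.e (nat_lit 213053) (nat_lit 17) (.e (nat_lit 164294) (nat_lit 224) (.e (nat_lit 164269) (nat_lit 221) (.e (nat_lit 2542) (nat_lit 158) (.e (nat_lit 8446) (nat_lit 140) (.e (nat_lit 57424) (nat_lit 14) (.e (nat_lit 360192) (nat_lit 4) .nil))))))) (.g (nat_lit 1) (.e (nat_lit 235199) (nat_lit 0) .nil) .nil))) 
(.lf (nat_lit 527177) (.g (nat_lit 1505) (.e (nat_lit 221208) (nat_lit 21) (.e (nat_lit 164330) (nat_lit 230) (.e (nat_lit 163905) (nat_lit 12) (.e (nat_lit 426227) (nat_lit 9) (.e (nat_lit 433920) (nat_lit 29) (.e (nat_lit 360192) (nat_lit 5) .nil)))))) (.g (nat_lit 1) (.e (nat_lit 236879) (nat_lit 0) .nil) .nil))))) (.nd (nat_lit 8) (.nd (nat_lit 9) 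
(.lf (nat_lit 526537) (.g (nat_lit 188) (.e (nat_lit 213032) (nat_lit 11) (.e (nat_lit 24659) (nat_lit 13) (.e (nat_lit 393272) (nat_lit 23) .nil))) (.g (nat_lit 0) (.e (nat_lit 234843) (nat_lit 0) .nil) .nil))) 
(.lf (nat_lit 527049) (.g (nat_lit 1673) (.e (nat_lit 221203) (nat_lit 20) (.e (nat_lit 3253) (nat_lit 197) (.e (nat_lit 532501) (nat_lit 1) (.e (nat_lit 57926) (nat_lit 282) .nil)))) (.g (nat_lit 0) (.e (nat_lit 235700) (nat_lit 0) .nil) .nil)))) (.nd (nat_lit 9) 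
(.lf (nat_lit 526793) (.g (nat_lit 2306) (.e (nat_lit 221191) (nat_lit 11) (.e (nat_lit 336153) (nat_lit 9) (.e (nat_lit 336442) (nat_lit 32) (.e (nat_lit 466969) (nat_lit 21) (.e (nat_lit 164331) (nat_lit 230) (.e (nat_lit 163885) (nat_lit 5) .nil)))))) (.g (nat_lit 1) (.e (nat_lit 235359) (nat_lit 0) .nil) .nil))) 
(.lf (nat_lit 527305) (.g (nat_lit 4019) (.e (nat_lit 221210) (nat_lit 22) (.e (nat_lit 196668) (nat_lit 14) (.e (nat_lit 73747) (nat_lit 3) (.e (nat_lit 516115) (nat_lit 1) (.e (nat_lit 164183) (nat_lit 154) (.e (nat_lit 57379) (nat_lit 3) (.e (nat_lit 98340) (nat_lit 20) .nil))))))) (.g (nat_lit 1) (.e (nat_lit 237701) (nat_lit 0) .nil) .nil))))))) 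
(.nd (nat_lit 6) (.nd (nat_lit 7) (.nd (nat_lit 8) (.nd (nat_lit 9) 
(.lf (nat_lit 526377) (.g (nat_lit 724) (.e (nat_lit 213032) (nat_lit 11) (.e (nat_lit 24625) (nat_lit 9) (.e (nat_lit 336444) (nat_lit 32) (.e (nat_lit 474880) (nat_lit 5) .nil)))) (.g (nat_lit 0) (.e (nat_lit 234581) (nat_lit 0) .nil) .nil))) 
(.lf (nat_lit 526889) (.g (nat_lit 1869) (.e (nat_lit 221194) (nat_lit 11) (.e (nat_lit 336012) (nat_lit 2) (.e (nat_lit 90174) (nat_lit 14) (.e (nat_lit 180288) (nat_lit 45) (.e (nat_lit 2570) (nat_lit 160) (.e (nat_lit 32777) (nat_lit 5) (.e (nat_lit 7936) (nat_lit 14) .nil))))))) (.g (nat_lit 1) (.e (nat_lit 235483) (nat_lit 0) .nil) .nil)))) (.nd (nat_lit 9) 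
(.lf (nat_lit 526633) (.g (nat_lit 852) (.e (nat_lit 213035) (nat_lit 12) (.e (nat_lit 163978) (nat_lit 30) (.e (nat_lit 573475) (nat_lit 12) .nil))) (.g (nat_lit 0) (.e (nat_lit 235102) (nat_lit 0) .nil) .nil))) 
(.lf (nat_lit 527145) (.g (nat_lit 2852) (.e (nat_lit 221207) (nat_lit 21) (.e (nat_lit 164325) (nat_lit 230) (.e (nat_lit 163903) (nat_lit 12) (.e (nat_lit 426233) (nat_lit 9) (.e (nat_lit 426554) (nat_lit 32) (.e (nat_lit 384768) (nat_lit 5) .nil)))))) (.g (nat_lit 1) (.e (nat_lit 236447) (nat_lit 0) .nil) .nil))))) (.nd (nat_lit 8) (.nd (nat_lit 9) 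
(.lf (nat_lit 526505) (.g (nat_lit 954) (.e (nat_lit 213032) (nat_lit 11) (.e (nat_lit 24657) (nat_lit 13) (.e (nat_lit 393292) (nat_lit 26) .nil))) (.g (nat_lit 0) (.e (nat_lit 234783) (nat_lit 0) .nil) .nil))) 
(.lf (nat_lit 527017) (.g (nat_lit 520) (.e (nat_lit 229120) (nat_lit 17) (.e (nat_lit 385068) (nat_lit 26) (.e (nat_lit 532558) (nat_lit 14) .nil))) (.g (nat_lit 0) (.e (nat_lit 235659) (nat_lit 0) .nil) .nil)))) (.nd (nat_lit 9) 
(.lf (nat_lit 526761) (.g (nat_lit 1600) (.e (nat_lit 229120) (nat_lit 5) (.e (nat_lit 114698) (nat_lit 11) (.e (nat_lit 426335) (nat_lit 13) (.e (nat_lit 483381) (nat_lit 23) .nil)))) (.g (nat_lit 0) (.e (nat_lit 235323) (nat_lit 0) .nil) .nil))) 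
(.lf (nat_lit 527273) (.g (nat_lit 2285) (.e (nat_lit 221210) (nat_lit 22) (.e (nat_lit 196668) (nat_lit 14) (.e (nat_lit 73746) (nat_lit 3) (.e (nat_lit 516119) (nat_lit 1) (.e (nat_lit 164176) (nat_lit 154) (.e (nat_lit 57379) (nat_lit 3) (.e (nat_lit 98340) (nat_lit 20) .nil))))))) (.g (nat_lit 1) (.e (nat_lit 237526) (nat_lit 0) .nil) .nil)))))) 
(.nd (nat_lit 7) (.nd (nat_lit 8) (.nd (nat_lit 9) 
(.lf (nat_lit 526441) (.g (nat_lit 2670) (.e (nat_lit 213032) (nat_lit 11) (.e (nat_lit 24630) (nat_lit 9) (.e (nat_lit 336443) (nat_lit 32) (.e (nat_lit 466971) (nat_lit 21) (.e (nat_lit 164322) (nat_lit 230) (.e (nat_lit 163878) (nat_lit 4) .nil)))))) (.g (nat_lit 1) (.e (nat_lit 234690) (nat_lit 0) .nil) .nil))) 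
(.lf (nat_lit 526953) (.g (nat_lit 2074) (.e (nat_lit 221194) (nat_lit 11) (.e (nat_lit 336088) (nat_lit 9) (.e (nat_lit 336391) (nat_lit 27) (.e (nat_lit 426188) (nat_lit 9) (.e (nat_lit 426448) (nat_lit 20) .nil))))) (.g (nat_lit 0) (.e (nat_lit 235549) (nat_lit 0) .nil) .nil)))) (.nd (nat_lit 9) 
(.lf (nat_lit 526697) (.g (nat_lit 491) (.e (nat_lit 229120) (nat_lit 5) (.e (nat_lit 114696) (nat_lit 11) (.e (nat_lit 426234) (nat_lit 9) (.e (nat_lit 426554) (nat_lit 32) (.e (nat_lit 384768) (nat_lit 5) .nil))))) (.g (nat_lit 0) (.e (nat_lit 235250) (nat_lit 0) .nil) .nil))) 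
(.lf (nat_lit 527209) (.g (nat_lit 3790) (.e (nat_lit 221208) (nat_lit 21) (.e (nat_lit 164402) (nat_lit 256) (.e (nat_lit 57427) (nat_lit 15) (.e (nat_lit 360474) (nat_lit 8) (.e (nat_lit 557091) (nat_lit 12) (.e (nat_lit 164002) (nat_lit 40) (.e (nat_lit 655360) (nat_lit 0) (.e (nat_lit 2710) (nat_lit 170) .nil)))))))) (.g (nat_lit 1) (.e (nat_lit 237121) (nat_lit 0) .nil) .nil))))) 
(.nd (nat_lit 8) (.nd (nat_lit 9) 
(.lf (nat_lit 526569) (.g (nat_lit 4232) (.e (nat_lit 213032) (nat_lit 11) (.e (nat_lit 24661) (nat_lit 14) (.e (nat_lit 401454) (nat_lit 12) (.e (nat_lit 475210) (nat_lit 41) (.e (nat_lit 712732) (nat_lit 20) (.e (nat_lit 221219) (nat_lit 24) .nil)))))) (.g (nat_lit 1) (.e (nat_lit 234886) (nat_lit 0) .nil) .nil))) 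
(.lf (nat_lit 527081) (.g (nat_lit 1953) (.e (nat_lit 221204) (nat_lit 20) (.e (nat_lit 3253) (nat_lit 197) (.e (nat_lit 532501) (nat_lit 1) (.e (nat_lit 57926) (nat_lit 282) (.e (nat_lit 163875) (nat_lit 3) .nil))))) (.g (nat_lit 0) (.e (nat_lit 235735) (nat_lit 0) .nil) .nil)))) (.nd (nat_lit 9) 
(.lf (nat_lit 526825) (.g (nat_lit 1973) (.e (nat_lit 221192) (nat_lit 11) (.e (nat_lit 336153) (nat_lit 9) (.e (nat_lit 336442) (nat_lit 32) (.e (nat_lit 466972) (nat_lit 21) (.e (nat_lit 164332) (nat_lit 230) (.e (nat_lit 163884) (nat_lit 5) .nil)))))) (.g (nat_lit 1) (.e (nat_lit 235392) (nat_lit 0) .nil) .nil))) 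
(.lf (nat_lit 527337) (.g (nat_lit 2390) (.e (nat_lit 221210) (nat_lit 22) (.e (nat_lit 196668) (nat_lit 14) (.e (nat_lit 73747) (nat_lit 3) (.e (nat_lit 516120) (nat_lit 1) (.e (nat_lit 164184) (nat_lit 155) .nil))))) (.g (nat_lit 0) (.e (nat_lit 237874) (nat_lit 0) .nil) .nil)))))))) (.nd (nat_lit 5) (.nd (nat_lit 6) (.nd (nat_lit 7) (.nd (nat_lit 8) (.nd (nat_lit 9) 
(.lf (nat_lit 526361) (.g (nat_lit 487) (.e (nat_lit 213032) (nat_lit 11) (.e (nat_lit 24625) (nat_lit 9) (.e (nat_lit 336443) (nat_lit 32) .nil))) (.g (nat_lit 0) (.e (nat_lit 234565) (nat_lit 0) .nil) .nil))) 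
(.lf (nat_lit 526873) (.g (nat_lit 1819) (.e (nat_lit 221193) (nat_lit 11) (.e (nat_lit 336087) (nat_lit 9) (.e (nat_lit 336426) (nat_lit 29) (.e (nat_lit 442421) (nat_lit 21) (.e (nat_lit 164324) (nat_lit 230) (.e (nat_lit 163886) (nat_lit 5) .nil)))))) (.g (nat_lit 1) (.e (nat_lit 235449) (nat_lit 0) .nil) .nil)))) (.nd (nat_lit 9) 
(.lf (nat_lit 526617) (.g (nat_lit 2934) (.e (nat_lit 213034) (nat_lit 12) (.e (nat_lit 163977) (nat_lit 30) (.e (nat_lit 573474) (nat_lit 12) (.e (nat_lit 57528) (nat_lit 46) .nil)))) (.g (nat_lit 0) (.e (nat_lit 235067) (nat_lit 0) .nil) .nil))) 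
(.lf (nat_lit 527129) (.g (nat_lit 1694) (.e (nat_lit 221206) (nat_lit 21) (.e (nat_lit 164332) (nat_lit 230) (.e (nat_lit 163905) (nat_lit 12) (.e (nat_lit 426227) (nat_lit 9) (.e (nat_lit 433920) (nat_lit 29) (.e (nat_lit 360192) (nat_lit 5) .nil)))))) (.g (nat_lit 1) (.e (nat_lit 236230) (nat_lit 0) .nil) .nil))))) (.nd (nat_lit 8) (.nd (nat_lit 9) 
(.lf (nat_lit 526489) (.g (nat_lit 2144) (.e (nat_lit 213032) (nat_lit 11) (.e (nat_lit 24656) (nat_lit 13) (.e (nat_lit 393294) (nat_lit 26) (.e (nat_lit 475214) (nat_lit 42) (.e (nat_lit 728832) (nat_lit 4) .nil))))) (.g (nat_lit 1) (.e (nat_lit 234766) (nat_lit 0) .nil) .nil))) 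
(.lf (nat_lit 527001) (.g (nat_lit 2376) (.e (nat_lit 229120) (nat_lit 11) (.e (nat_lit 336454) (nat_lit 34) (.e (nat_lit 483406) (nat_lit 26) (.e (nat_lit 385066) (nat_lit 26) (.e (nat_lit 540416) (nat_lit 20) .nil))))) (.g (nat_lit 0) (.e (nat_lit 235639) (nat_lit 0) .nil) .nil)))) (.nd (nat_lit 9) 
(.lf (nat_lit 526745) (.g (nat_lit 1391) (.e (nat_lit 229120) (nat_lit 5) (.e (nat_lit 114698) (nat_lit 11) (.e (nat_lit 426327) (nat_lit 13) (.e (nat_lit 483381) (nat_lit 23) .nil)))) (.g (nat_lit 0) (.e (nat_lit 235306) (nat_lit 0) .nil) .nil))) 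
(.lf (nat_lit 527257) (.g (nat_lit 1507) (.e (nat_lit 221210) (nat_lit 22) (.e (nat_lit 196666) (nat_lit 13) (.e (nat_lit 65571) (nat_lit 3) (.e (nat_lit 98334) (nat_lit 18) .nil)))) (.g (nat_lit 0) (.e (nat_lit 237422) (nat_lit 0) .nil) .nil)))))) (.nd (nat_lit 7) (.nd (nat_lit 8) (.nd (nat_lit 9) 
(.lf (nat_lit 526425) (.g (nat_lit 2027) (.e (nat_lit 213032) (nat_lit 11) (.e (nat_lit 24629) (nat_lit 9) (.e (nat_lit 336434) (nat_lit 30) (.e (nat_lit 450564) (nat_lit 0) (.e (nat_lit 5224) (nat_lit 296) (.e (nat_lit 163879) (nat_lit 4) .nil)))))) (.g (nat_lit 1) (.e (nat_lit 234664) (nat_lit 0) .nil) .nil))) 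
(.lf (nat_lit 526937) (.g (nat_lit 1646) (.e (nat_lit 221194) (nat_lit 11) (.e (nat_lit 336087) (nat_lit 9) (.e (nat_lit 336369) (nat_lit 27) (.e (nat_lit 426201) (nat_lit 9) (.e (nat_lit 426448) (nat_lit 20) .nil))))) (.g (nat_lit 0) (.e (nat_lit 235533) (nat_lit 0) .nil) .nil)))) (.nd (nat_lit 9) 
(.lf (nat_lit 526681) (.g (nat_lit 1262) (.e (nat_lit 229120) (nat_lit 3) (.e (nat_lit 98313) (nat_lit 9) (.e (nat_lit 343808) (nat_lit 18) (.e (nat_lit 204863) (nat_lit 27) (.e (nat_lit 344120) (nat_lit 21) .nil))))) (.g (nat_lit 0) (.e (nat_lit 235230) (nat_lit 0) .nil) .nil))) 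
(.lf (nat_lit 527193) (.g (nat_lit 1088) (.e (nat_lit 221208) (nat_lit 21) (.e (nat_lit 164401) (nat_lit 256) (.e (nat_lit 57427) (nat_lit 15) (.e (nat_lit 360468) (nat_lit 3) .nil)))) (.g (nat_lit 0) (.e (nat_lit 237105) (nat_lit 0) .nil) .nil))))) (.nd (nat_lit 8) (.nd (nat_lit 9) 
(.lf (nat_lit 526553) (.g (nat_lit 2063) (.e (nat_lit 213032) (nat_lit 11) (.e (nat_lit 24660) (nat_lit 13) (.e (nat_lit 393268) (nat_lit 23) (.e (nat_lit 426448) (nat_lit 20) (.e (nat_lit 122624) (nat_lit 4) .nil))))) (.g (nat_lit 1) (.e (nat_lit 234862) (nat_lit 0) .nil) .nil))) 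
(.lf (nat_lit 527065) (.g (nat_lit 2116) (.e (nat_lit 221204) (nat_lit 20) (.e (nat_lit 3253) (nat_lit 197) (.e (nat_lit 532499) (nat_lit 1) (.e (nat_lit 57926) (nat_lit 282) (.e (nat_lit 163871) (nat_lit 2) .nil))))) (.g (nat_lit 0) (.e (nat_lit 235719) (nat_lit 0) .nil) .nil)))) (.nd (nat_lit 9) 
(.lf (nat_lit 526809) (.g (nat_lit 2084) (.e (nat_lit 221192) (nat_lit 11) (.e (nat_lit 336152) (nat_lit 9) (.e (nat_lit 336442) (nat_lit 32) (.e (nat_lit 466972) (nat_lit 21) (.e (nat_lit 164332) (nat_lit 230) (.e (nat_lit 163884) (nat_lit 5) .nil)))))) (.g (nat_lit 1) (.e (nat_lit 235376) (nat_lit 0) .nil) .nil))) 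
(.lf (nat_lit 527321) (.g (nat_lit 3641) (.e (nat_lit 221210) (nat_lit 22) (.e (nat_lit 196668) (nat_lit 14) (.e (nat_lit 73747) (nat_lit 3) (.e (nat_lit 516119) (nat_lit 1) (.e (nat_lit 164176) (nat_lit 154) (.e (nat_lit 57379) (nat_lit 3) (.e (nat_lit 98340) (nat_lit 20) .nil))))))) (.g (nat_lit 1) (.e (nat_lit 237769) (nat_lit 0) .nil) .nil))))))) 
(.nd (nat_lit 6) (.nd (nat_lit 7) (.nd (nat_lit 8) (.nd (nat_lit 9) 
(.lf (nat_lit 526393) (.g (nat_lit 2894) (.e (nat_lit 213032) (nat_lit 11) (.e (nat_lit 24627) (nat_lit 9) (.e (nat_lit 336443) (nat_lit 32) (.e (nat_lit 466969) (nat_lit 21) (.e (nat_lit 164325) (nat_lit 230) (.e (nat_lit 163879) (nat_lit 4) .nil)))))) (.g (nat_lit 1) (.e (nat_lit 234597) (nat_lit 0) .nil) .nil))) 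
(.lf (nat_lit 526905) (.g (nat_lit 1421) (.e (nat_lit 221194) (nat_lit 11) (.e (nat_lit 336075) (nat_lit 9) (.e (nat_lit 336443) (nat_lit 32) (.e (nat_lit 466968) (nat_lit 21) .nil)))) (.g (nat_lit 0) (.e (nat_lit 235501) (nat_lit 0) .nil) .nil)))) (.nd (nat_lit 9) 
(.lf (nat_lit 526649) (.g (nat_lit 2411) (.e (nat_lit 213035) (nat_lit 12) (.e (nat_lit 163979) (nat_lit 30) (.e (nat_lit 573475) (nat_lit 12) (.e (nat_lit 57528) (nat_lit 46) (.e (nat_lit 704514) (nat_lit 0) .nil))))) (.g (nat_lit 0) (.e (nat_lit 235126) (nat_lit 0) .nil) .nil))) 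
(.lf (nat_lit 527161) (.g (nat_lit 976) (.e (nat_lit 221207) (nat_lit 21) (.e (nat_lit 164331) (nat_lit 230) (.e (nat_lit 163931) (nat_lit 17) (.e (nat_lit 474880) (nat_lit 16) .nil)))) (.g (nat_lit 0) (.e (nat_lit 236654) (nat_lit 0) .nil) .nil))))) (.nd (nat_lit 8) (.nd (nat_lit 9) 
(.lf (nat_lit 526521) (.g (nat_lit 2305) (.e (nat_lit 213032) (nat_lit 11) (.e (nat_lit 24658) (nat_lit 13) (.e (nat_lit 393291) (nat_lit 26) (.e (nat_lit 475214) (nat_lit 42) (.e (nat_lit 728832) (nat_lit 4) .nil))))) (.g (nat_lit 1) (.e (nat_lit 234825) (nat_lit 0) .nil) .nil))) 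
(.lf (nat_lit 527033) (.g (nat_lit 1560) (.e (nat_lit 221195) (nat_lit 20) (.e (nat_lit 3613) (nat_lit 226) (.e (nat_lit 770072) (nat_lit 8) (.e (nat_lit 65629) (nat_lit 14) (.e (nat_lit 401454) (nat_lit 12) .nil))))) (.g (nat_lit 0) (.e (nat_lit 235677) (nat_lit 0) .nil) .nil)))) (.nd (nat_lit 9) 
(.lf (nat_lit 526777) (.g (nat_lit 1432) (.e (nat_lit 221190) (nat_lit 11) (.e (nat_lit 336077) (nat_lit 9) (.e (nat_lit 336443) (nat_lit 32) (.e (nat_lit 466969) (nat_lit 21) (.e (nat_lit 164327) (nat_lit 230) (.e (nat_lit 163886) (nat_lit 5) .nil)))))) (.g (nat_lit 1) (.e (nat_lit 235339) (nat_lit 0) .nil) .nil))) 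
(.lf (nat_lit 527289) (.g (nat_lit 2542) (.e (nat_lit 221210) (nat_lit 22) (.e (nat_lit 196668) (nat_lit 14) (.e (nat_lit 73747) (nat_lit 3) (.e (nat_lit 516115) (nat_lit 1) (.e (nat_lit 164154) (nat_lit 152) .nil))))) (.g (nat_lit 0) (.e (nat_lit 237581) (nat_lit 0) .nil) .nil)))))) (.nd (nat_lit 7) (.nd (nat_lit 8) (.nd (nat_lit 9) 
(.lf (nat_lit 526457) (.g (nat_lit 2862) (.e (nat_lit 213032) (nat_lit 11) (.e (nat_lit 24655) (nat_lit 13) (.e (nat_lit 393273) (nat_lit 23) (.e (nat_lit 426448) (nat_lit 20) (.e (nat_lit 122624) (nat_lit 4) .nil))))) (.g (nat_lit 1) (.e (nat_lit 234727) (nat_lit 0) .nil) .nil))) 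
(.lf (nat_lit 526969) (.g (nat_lit 1361) (.e (nat_lit 221194) (nat_lit 11) (.e (nat_lit 336204) (nat_lit 12) (.e (nat_lit 385030) (nat_lit 8) (.e (nat_lit 3065) (nat_lit 190) .nil)))) (.g (nat_lit 0) (.e (nat_lit 235565) (nat_lit 0) .nil) .nil)))) (.nd (nat_lit 9) 
(.lf (nat_lit 526713) (.g (nat_lit 539) (.e (nat_lit 229120) (nat_lit 5) (.e (nat_lit 114698) (nat_lit 11) (.e (nat_lit 426197) (nat_lit 9) .nil))) (.g (nat_lit 0) (.e (nat_lit 235274) (nat_lit 0) .nil) .nil))) 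
(.lf (nat_lit 527225) (.g (nat_lit 2469) (.e (nat_lit 221210) (nat_lit 22) (.e (nat_lit 196656) (nat_lit 11) (.e (nat_lit 16425) (nat_lit 7) (.e (nat_lit 409617) (nat_lit 10) (.e (nat_lit 595) (nat_lit 45) .nil))))) (.g (nat_lit 0) (.e (nat_lit 237288) (nat_lit 0) .nil) .nil))))) (.nd (nat_lit 8) (.nd (nat_lit 9) 
(.lf (nat_lit 526585) (.g (nat_lit 2269) (.e (nat_lit 213033) (nat_lit 12) (.e (nat_lit 163962) (nat_lit 25) (.e (nat_lit 532499) (nat_lit 1) (.e (nat_lit 57926) (nat_lit 282) (.e (nat_lit 163869) (nat_lit 2) .nil))))) (.g (nat_lit 0) (.e (nat_lit 235004) (nat_lit 0) .nil) .nil))) 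
(.lf (nat_lit 527097) (.g (nat_lit 1594) (.e (nat_lit 221204) (nat_lit 20) (.e (nat_lit 3253) (nat_lit 197) (.e (nat_lit 532504) (nat_lit 1) (.e (nat_lit 57929) (nat_lit 282) .nil)))) (.g (nat_lit 0) (.e (nat_lit 235751) (nat_lit 0) .nil) .nil)))) (.nd (nat_lit 9) 
(.lf (nat_lit 526841) (.g (nat_lit 1883) (.e (nat_lit 221193) (nat_lit 11) (.e (nat_lit 336074) (nat_lit 9) (.e (nat_lit 336443) (nat_lit 32) (.e (nat_lit 466969) (nat_lit 21) (.e (nat_lit 164322) (nat_lit 230) .nil))))) (.g (nat_lit 0) (.e (nat_lit 235417) (nat_lit 0) .nil) .nil))) 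
(.lf (nat_lit 527353) (.g (nat_lit 1233) (.e (nat_lit 221210) (nat_lit 22) (.e (nat_lit 196670) (nat_lit 14) (.e (nat_lit 73746) (nat_lit 3) (.e (nat_lit 516118) (nat_lit 1) .nil)))) (.g (nat_lit 0) (.e (nat_lit 238001) (nat_lit 0) .nil) .nil)))))))))) (.nd (nat_lit 3) (.nd (nat_lit 4) (.nd (nat_lit 5) (.nd (nat_lit 6) (.nd (nat_lit 7) (.nd (nat_lit 8) (.nd (nat_lit 9) 
(.lf (nat_lit 526341) (.g (nat_lit 1610) (.e (nat_lit 213032) (nat_lit 11) (.e (nat_lit 24609) (nat_lit 3) (.e (nat_lit 98365) (nat_lit 26) (.e (nat_lit 426198) (nat_lit 9) (.e (nat_lit 426436) (nat_lit 18) .nil))))) (.g (nat_lit 0) (.e (nat_lit 234538) (nat_lit 0) .nil) .nil))) 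
(.lf (nat_lit 526853) (.g (nat_lit 2253) (.e (nat_lit 221193) (nat_lit 11) (.e (nat_lit 336075) (nat_lit 9) (.e (nat_lit 336443) (nat_lit 32) (.e (nat_lit 466972) (nat_lit 21) (.e (nat_lit 164331) (nat_lit 230) (.e (nat_lit 163885) (nat_lit 5) .nil)))))) (.g (nat_lit 1) (.e (nat_lit 235429) (nat_lit 0) .nil) .nil)))) (.nd (nat_lit 9) 
(.lf (nat_lit 526597) (.g (nat_lit 1497) (.e (nat_lit 213033) (nat_lit 12) (.e (nat_lit 163976) (nat_lit 30) (.e (nat_lit 573474) (nat_lit 12) (.e (nat_lit 57546) (nat_lit 47) .nil)))) (.g (nat_lit 0) (.e (nat_lit 235020) (nat_lit 0) .nil) .nil))) 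
(.lf (nat_lit 527109) (.g (nat_lit 1206) (.e (nat_lit 221206) (nat_lit 21) (.e (nat_lit 164325) (nat_lit 230) (.e (nat_lit 163905) (nat_lit 12) (.e (nat_lit 426227) (nat_lit 9) .nil)))) (.g (nat_lit 0) (.e (nat_lit 235912) (nat_lit 0) .nil) .nil))))) (.nd (nat_lit 8) (.nd (nat_lit 9) 
(.lf (nat_lit 526469) (.g (nat_lit 2807) (.e (nat_lit 213032) (nat_lit 11) (.e (nat_lit 24655) (nat_lit 13) (.e (nat_lit 393290) (nat_lit 26) (.e (nat_lit 475212) (nat_lit 42) (.e (nat_lit 728832) (nat_lit 4) .nil))))) (.g (nat_lit 1) (.e (nat_lit 234743) (nat_lit 0) .nil) .nil))) 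
(.lf (nat_lit 526981) (.g (nat_lit 1465) (.e (nat_lit 229120) (nat_lit 11) (.e (nat_lit 336028) (nat_lit 3) (.e (nat_lit 98365) (nat_lit 26) (.e (nat_lit 426306) (nat_lit 12) .nil)))) (.g (nat_lit 0) (.e (nat_lit 235594) (nat_lit 0) .nil) .nil)))) (.nd (nat_lit 9) 
(.lf (nat_lit 526725) (.g (nat_lit 1837) (.e (nat_lit 229120) (nat_lit 5) (.e (nat_lit 114698) (nat_lit 11) (.e (nat_lit 426200) (nat_lit 9) (.e (nat_lit 426493) (nat_lit 27) (.e (nat_lit 336075) (nat_lit 9) .nil))))) (.g (nat_lit 0) (.e (nat_lit 235286) (nat_lit 0) .nil) .nil))) 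
(.lf (nat_lit 527237) (.g (nat_lit 1813) (.e (nat_lit 221210) (nat_lit 22) (.e (nat_lit 196656) (nat_lit 11) (.e (nat_lit 16448) (nat_lit 10) (.e (nat_lit 434232) (nat_lit 23) .nil)))) (.g (nat_lit 0) (.e (nat_lit 237342) (nat_lit 0) .nil) .nil)))))) (.nd (nat_lit 7) (.nd (nat_lit 8) (.nd (nat_lit 9) 
(.lf (nat_lit 526405) (.g (nat_lit 1362) (.e (nat_lit 213032) (nat_lit 11) (.e (nat_lit 24628) (nat_lit 9) (.e (nat_lit 336432) (nat_lit 30) (.e (nat_lit 450565) (nat_lit 0) .nil)))) (.g (nat_lit 0) (.e (nat_lit 234642) (nat_lit 0) .nil) .nil))) 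
(.lf (nat_lit 526917) (.g (nat_lit 2874) (.e (nat_lit 221194) (nat_lit 11) (.e (nat_lit 336077) (nat_lit 9) (.e (nat_lit 336443) (nat_lit 32) (.e (nat_lit 466969) (nat_lit 21) (.e (nat_lit 164329) (nat_lit 230) (.e (nat_lit 163885) (nat_lit 5) .nil)))))) (.g (nat_lit 1) (.e (nat_lit 235513) (nat_lit 0) .nil) .nil)))) (.nd (nat_lit 9) 
(.lf (nat_lit 526661) (.g (nat_lit 3446) (.e (nat_lit 213039) (nat_lit 14) (.e (nat_lit 2777) (nat_lit 178) (.e (nat_lit 286759) (nat_lit 12) (.e (nat_lit 385106) (nat_lit 50) (.e (nat_lit 786478) (nat_lit 29) (.e (nat_lit 360192) (nat_lit 4) .nil)))))) (.g (nat_lit 1) (.e (nat_lit 235143) (nat_lit 0) .nil) .nil))) 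
(.lf (nat_lit 527173) (.g (nat_lit 1175) (.e (nat_lit 221208) (nat_lit 21) (.e (nat_lit 164330) (nat_lit 230) (.e (nat_lit 163902) (nat_lit 12) (.e (nat_lit 426233) (nat_lit 9) .nil)))) (.g (nat_lit 0) (.e (nat_lit 236867) (nat_lit 0) .nil) .nil))))) (.nd (nat_lit 8) (.nd (nat_lit 9) 
(.lf (nat_lit 526533) (.g (nat_lit 1309) (.e (nat_lit 213032) (nat_lit 11) (.e (nat_lit 24659) (nat_lit 13) (.e (nat_lit 393267) (nat_lit 23) (.e (nat_lit 426448) (nat_lit 20) (.e (nat_lit 122624) (nat_lit 4) .nil))))) (.g (nat_lit 0) (.e (nat_lit 234839) (nat_lit 0) .nil) .nil))) 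
(.lf (nat_lit 527045) (.g (nat_lit 2290) (.e (nat_lit 221203) (nat_lit 20) (.e (nat_lit 3253) (nat_lit 197) (.e (nat_lit 532499) (nat_lit 1) (.e (nat_lit 57927) (nat_lit 282) (.e (nat_lit 163868) (nat_lit 2) .nil))))) (.g (nat_lit 0) (.e (nat_lit 235696) (nat_lit 0) .nil) .nil)))) (.nd (nat_lit 9) 
(.lf (nat_lit 526789) (.g (nat_lit 2009) (.e (nat_lit 221191) (nat_lit 11) (.e (nat_lit 336152) (nat_lit 9) (.e (nat_lit 336442) (nat_lit 32) (.e (nat_lit 466971) (nat_lit 21) (.e (nat_lit 164327) (nat_lit 230) (.e (nat_lit 163886) (nat_lit 5) .nil)))))) (.g (nat_lit 1) (.e (nat_lit 235355) (nat_lit 0) .nil) .nil))) 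
(.lf (nat_lit 527301) (.g (nat_lit 1729) (.e (nat_lit 221210) (nat_lit 22) (.e (nat_lit 196668) (nat_lit 14) (.e (nat_lit 73747) (nat_lit 3) (.e (nat_lit 516115) (nat_lit 1) (.e (nat_lit 164182) (nat_lit 154) .nil))))) (.g (nat_lit 0) (.e (nat_lit 237640) (nat_lit 0) .nil) .nil))))))) (.nd (nat_lit 6) (.nd (nat_lit 7) (.nd (nat_lit 8) (.nd (nat_lit 9) 
(.lf (nat_lit 526373) (.g (nat_lit 2950) (.e (nat_lit 213032) (nat_lit 11) (.e (nat_lit 24625) (nat_lit 9) (.e (nat_lit 336443) (nat_lit 32) (.e (nat_lit 466971) (nat_lit 21) (.e (nat_lit 164327) (nat_lit 230) (.e (nat_lit 163879) (nat_lit 4) .nil)))))) (.g (nat_lit 1) (.e (nat_lit 234577) (nat_lit 0) .nil) .nil))) 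
(.lf (nat_lit 526885) (.g (nat_lit 1835) (.e (nat_lit 221194) (nat_lit 11) (.e (nat_lit 336012) (nat_lit 2) (.e (nat_lit 90172) (nat_lit 14) (.e (nat_lit 180285) (nat_lit 45) (.e (nat_lit 2571) (nat_lit 160) (.e (nat_lit 32777) (nat_lit 5) (.e (nat_lit 7936) (nat_lit 14) .nil))))))) (.g (nat_lit 1) (.e (nat_lit 235478) (nat_lit 0) .nil) .nil)))) (.nd (nat_lit 9) 
(.lf (nat_lit 526629) (.g (nat_lit 2106) (.e (nat_lit 213034) (nat_lit 12) (.e (nat_lit 163979) (nat_lit 30) (.e (nat_lit 573475) (nat_lit 12) (.e (nat_lit 57546) (nat_lit 47) .nil)))) (.g (nat_lit 0) (.e (nat_lit 235090) (nat_lit 0) .nil) .nil))) 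
(.lf (nat_lit 527141) (.g (nat_lit 552) (.e (nat_lit 221207) (nat_lit 21) (.e (nat_lit 164324) (nat_lit 230) (.e (nat_lit 163932) (nat_lit 17) .nil))) (.g (nat_lit 0) (.e (nat_lit 236347) (nat_lit 0) .nil) .nil))))) (.nd (nat_lit 8) (.nd (nat_lit 9) 
(.lf (nat_lit 526501) (.g (nat_lit 590) (.e (nat_lit 213032) (nat_lit 11) (.e (nat_lit 24657) (nat_lit 13) (.e (nat_lit 393279) (nat_lit 23) .nil))) (.g (nat_lit 0) (.e (nat_lit 234778) (nat_lit 0) .nil) .nil))) 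
(.lf (nat_lit 527013) (.g (nat_lit 1553) (.e (nat_lit 229120) (nat_lit 17) (.e (nat_lit 385065) (nat_lit 26) (.e (nat_lit 532550) (nat_lit 12) (.e (nat_lit 360454) (nat_lit 0) .nil)))) (.g (nat_lit 0) (.e (nat_lit 235655) (nat_lit 0) .nil) .nil)))) (.nd (nat_lit 9) 
(.lf (nat_lit 526757) (.g (nat_lit 1037) (.e (nat_lit 229120) (nat_lit 5) (.e (nat_lit 114698) (nat_lit 11) (.e (nat_lit 426334) (nat_lit 13) (.e (nat_lit 483391) (nat_lit 23) (.e (nat_lit 343808) (nat_lit 20) .nil))))) (.g (nat_lit 0) (.e (nat_lit 235319) (nat_lit 0) .nil) .nil))) 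
(.lf (nat_lit 527269) (.g (nat_lit 2840) (.e (nat_lit 221210) (nat_lit 22) (.e (nat_lit 196668) (nat_lit 14) (.e (nat_lit 73746) (nat_lit 3) (.e (nat_lit 516115) (nat_lit 1) (.e (nat_lit 164183) (nat_lit 154) (.e (nat_lit 57379) (nat_lit 3) (.e (nat_lit 98340) (nat_lit 20) .nil))))))) (.g (nat_lit 1) (.e (nat_lit 237499) (nat_lit 0) .nil) .nil)))))) 
(.nd (nat_lit 7) (.nd (nat_lit 8) (.nd (nat_lit 9) 
(.lf (nat_lit 526437) (.g (nat_lit 1406) (.e (nat_lit 213032) (nat_lit 11) (.e (nat_lit 24630) (nat_lit 9) (.e (nat_lit 336336) (nat_lit 20) (.e (nat_lit 229120) (nat_lit 1) .nil)))) (.g (nat_lit 0) (.e (nat_lit 234676) (nat_lit 0) .nil) .nil))) 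
(.lf (nat_lit 526949) (.g (nat_lit 1125) (.e (nat_lit 221194) (nat_lit 11) (.e (nat_lit 336088) (nat_lit 9) (.e (nat_lit 336382) (nat_lit 27) (.e (nat_lit 426187) (nat_lit 9) .nil)))) (.g (nat_lit 0) (.e (nat_lit 235545) (nat_lit 0) .nil) .nil)))) (.nd (nat_lit 9) 
(.lf (nat_lit 526693) (.g (nat_lit 815) (.e (nat_lit 229120) (nat_lit 4) (.e (nat_lit 106536) (nat_lit 11) (.e (nat_lit 16467) (nat_lit 13) (.e (nat_lit 483391) (nat_lit 23) .nil)))) (.g (nat_lit 0) (.e (nat_lit 235245) (nat_lit 0) .nil) .nil))) 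
(.lf (nat_lit 527205) (.g (nat_lit 1518) (.e (nat_lit 221208) (nat_lit 21) (.e (nat_lit 164402) (nat_lit 256) (.e (nat_lit 57427) (nat_lit 15) (.e (nat_lit 360468) (nat_lit 3) (.e (nat_lit 516196) (nat_lit 26) .nil))))) (.g (nat_lit 0) (.e (nat_lit 237117) (nat_lit 0) .nil) .nil))))) (.nd (nat_lit 8) (.nd (nat_lit 9) 
(.lf (nat_lit 526565) (.g (nat_lit 1288) (.e (nat_lit 213032) (nat_lit 11) (.e (nat_lit 24660) (nat_lit 13) (.e (nat_lit 393292) (nat_lit 26) (.e (nat_lit 475214) (nat_lit 42) (.e (nat_lit 728832) (nat_lit 4) .nil))))) (.g (nat_lit 0) (.e (nat_lit 234879) (nat_lit 0) .nil) .nil))) 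
(.lf (nat_lit 527077) (.g (nat_lit 1972) (.e (nat_lit 221204) (nat_lit 20) (.e (nat_lit 3253) (nat_lit 197) (.e (nat_lit 532499) (nat_lit 1) (.e (nat_lit 57931) (nat_lit 282) (.e (nat_lit 163874) (nat_lit 3) .nil))))) (.g (nat_lit 0) (.e (nat_lit 235731) (nat_lit 0) .nil) .nil)))) (.nd (nat_lit 9) 
(.lf (nat_lit 526821) (.g (nat_lit 1780) (.e (nat_lit 221192) (nat_lit 11) (.e (nat_lit 336153) (nat_lit 9) (.e (nat_lit 336442) (nat_lit 32) (.e (nat_lit 466971) (nat_lit 21) (.e (nat_lit 164327) (nat_lit 230) (.e (nat_lit 163886) (nat_lit 5) .nil)))))) (.g (nat_lit 1) (.e (nat_lit 235388) (nat_lit 0) .nil) .nil))) 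
(.lf (nat_lit 527333) (.g (nat_lit 4691) (.e (nat_lit 221210) (nat_lit 22) (.e (nat_lit 196668) (nat_lit 14) (.e (nat_lit 73747) (nat_lit 3) (.e (nat_lit 516120) (nat_lit 1) (.e (nat_lit 164182) (nat_lit 154) (.e (nat_lit 57379) (nat_lit 3) (.e (nat_lit 98341) (nat_lit 20) .nil))))))) (.g (nat_lit 1) (.e (nat_lit 237846) (nat_lit 0) .nil) .nil)))))))) 
(.nd (nat_lit 5) (.nd (nat_lit 6) (.nd (nat_lit 7) (.nd (nat_lit 8) (.nd (nat_lit 9) 
(.lf (nat_lit 526357) (.g (nat_lit 1082) (.e (nat_lit 213032) (nat_lit 11) (.e (nat_lit 24625) (nat_lit 9) (.e (nat_lit 336428) (nat_lit 29) (.e (nat_lit 450304) (nat_lit 5) .nil)))) (.g (nat_lit 0) (.e (nat_lit 234560) (nat_lit 0) .nil) .nil))) 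
(.lf (nat_lit 526869) (.g (nat_lit 2823) (.e (nat_lit 221193) (nat_lit 11) (.e (nat_lit 336084) (nat_lit 9) (.e (nat_lit 336443) (nat_lit 32) (.e (nat_lit 466971) (nat_lit 21) (.e (nat_lit 164327) (nat_lit 230) (.e (nat_lit 163884) (nat_lit 5) .nil)))))) (.g (nat_lit 1) (.e (nat_lit 235445) (nat_lit 0) .nil) .nil)))) (.nd (nat_lit 9) 
(.lf (nat_lit 526613) (.g (nat_lit 2588) (.e (nat_lit 213034) (nat_lit 12) (.e (nat_lit 163963) (nat_lit 25) (.e (nat_lit 532499) (nat_lit 1) (.e (nat_lit 57847) (nat_lit 252) (.e (nat_lit 57370) (nat_lit 2) (.e (nat_lit 90158) (nat_lit 11) (.e (nat_lit 24608) (nat_lit 3) (.e (nat_lit 98337) (nat_lit 19) .nil)))))))) (.g (nat_lit 1) (.e (nat_lit 235059) (nat_lit 0) .nil) .nil))) 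
(.lf (nat_lit 527125) (.g (nat_lit 875) (.e (nat_lit 221206) (nat_lit 21) (.e (nat_lit 164330) (nat_lit 230) (.e (nat_lit 163930) (nat_lit 17) .nil))) (.g (nat_lit 0) (.e (nat_lit 236151) (nat_lit 0) .nil) .nil))))) (.nd (nat_lit 8) (.nd (nat_lit 9) 
(.lf (nat_lit 526485) (.g (nat_lit 2566) (.e (nat_lit 213032) (nat_lit 11) (.e (nat_lit 24656) (nat_lit 13) (.e (nat_lit 393281) (nat_lit 23) (.e (nat_lit 426098) (nat_lit 1) (.e (nat_lit 164325) (nat_lit 230) (.e (nat_lit 163882) (nat_lit 4) .nil)))))) (.g (nat_lit 1) (.e (nat_lit 234762) (nat_lit 0) .nil) .nil))) 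
(.lf (nat_lit 526997) (.g (nat_lit 1569) (.e (nat_lit 229120) (nat_lit 11) (.e (nat_lit 336454) (nat_lit 34) (.e (nat_lit 483383) (nat_lit 23) (.e (nat_lit 336326) (nat_lit 18) (.e (nat_lit 212736) (nat_lit 3) .nil))))) (.g (nat_lit 0) (.e (nat_lit 235635) (nat_lit 0) .nil) .nil)))) (.nd (nat_lit 9) 
(.lf (nat_lit 526741) (.g (nat_lit 473) (.e (nat_lit 229120) (nat_lit 5) (.e (nat_lit 114698) (nat_lit 11) (.e (nat_lit 426326) (nat_lit 13) .nil))) (.g (nat_lit 0) (.e (nat_lit 235302) (nat_lit 0) .nil) .nil))) 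
(.lf (nat_lit 527253) (.g (nat_lit 2127) (.e (nat_lit 221210) (nat_lit 22) (.e (nat_lit 196666) (nat_lit 13) (.e (nat_lit 65571) (nat_lit 3) (.e (nat_lit 98332) (nat_lit 18) .nil)))) (.g (nat_lit 0) (.e (nat_lit 237411) (nat_lit 0) .nil) .nil)))))) (.nd (nat_lit 7) (.nd (nat_lit 8) (.nd (nat_lit 9) 
(.lf (nat_lit 526421) (.g (nat_lit 2384) (.e (nat_lit 213032) (nat_lit 11) (.e (nat_lit 24628) (nat_lit 9) (.e (nat_lit 336443) (nat_lit 32) (.e (nat_lit 466972) (nat_lit 21) (.e (nat_lit 164332) (nat_lit 230) (.e (nat_lit 171776) (nat_lit 4) .nil)))))) (.g (nat_lit 1) (.e (nat_lit 234659) (nat_lit 0) .nil) .nil))) 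
(.lf (nat_lit 526933) (.g (nat_lit 1440) (.e (nat_lit 221194) (nat_lit 11) (.e (nat_lit 336086) (nat_lit 9) (.e (nat_lit 336444) (nat_lit 32) (.e (nat_lit 466971) (nat_lit 21) (.e (nat_lit 164329) (nat_lit 230) .nil))))) (.g (nat_lit 0) (.e (nat_lit 235529) (nat_lit 0) .nil) .nil)))) (.nd (nat_lit 9) 
(.lf (nat_lit 526677) (.g (nat_lit 906) (.e (nat_lit 229120) (nat_lit 2) (.e (nat_lit 90159) (nat_lit 11) (.e (nat_lit 24657) (nat_lit 13) (.e (nat_lit 401152) (nat_lit 9) .nil)))) (.g (nat_lit 0) (.e (nat_lit 235221) (nat_lit 0) .nil) .nil))) 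
(.lf (nat_lit 527189) (.g (nat_lit 1321) (.e (nat_lit 221208) (nat_lit 21) (.e (nat_lit 164332) (nat_lit 230) (.e (nat_lit 163905) (nat_lit 12) (.e (nat_lit 426233) (nat_lit 9) .nil)))) (.g (nat_lit 0) (.e (nat_lit 237069) (nat_lit 0) .nil) .nil))))) (.nd (nat_lit 8) (.nd (nat_lit 9) 
(.lf (nat_lit 526549) (.g (nat_lit 2130) (.e (nat_lit 213032) (nat_lit 11) (.e (nat_lit 24659) (nat_lit 13) (.e (nat_lit 393294) (nat_lit 26) (.e (nat_lit 475214) (nat_lit 42) (.e (nat_lit 728832) (nat_lit 4) .nil))))) (.g (nat_lit 1) (.e (nat_lit 234858) (nat_lit 0) .nil) .nil))) 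
(.lf (nat_lit 527061) (.g (nat_lit 2496) (.e (nat_lit 221203) (nat_lit 20) (.e (nat_lit 3253) (nat_lit 197) (.e (nat_lit 532504) (nat_lit 1) (.e (nat_lit 57931) (nat_lit 282) (.e (nat_lit 163866) (nat_lit 2) .nil))))) (.g (nat_lit 0) (.e (nat_lit 235714) (nat_lit 0) .nil) .nil)))) (.nd (nat_lit 9) 
(.lf (nat_lit 526805) (.g (nat_lit 1823) (.e (nat_lit 221192) (nat_lit 11) (.e (nat_lit 336152) (nat_lit 9) (.e (nat_lit 336442) (nat_lit 32) (.e (nat_lit 466971) (nat_lit 21) (.e (nat_lit 164326) (nat_lit 230) (.e (nat_lit 163884) (nat_lit 5) .nil)))))) (.g (nat_lit 1) (.e (nat_lit 235372) (nat_lit 0) .nil) .nil))) 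
(.lf (nat_lit 527317) (.g (nat_lit 2324) (.e (nat_lit 221210) (nat_lit 22) (.e (nat_lit 196668) (nat_lit 14) (.e (nat_lit 73747) (nat_lit 3) (.e (nat_lit 516119) (nat_lit 1) (.e (nat_lit 164153) (nat_lit 152) .nil))))) (.g (nat_lit 0) (.e (nat_lit 237752) (nat_lit 0) .nil) .nil))))))) (.nd (nat_lit 6) (.nd (nat_lit 7) (.nd (nat_lit 8) (.nd (nat_lit 9) 
(.lf (nat_lit 526389) (.g (nat_lit 641) (.e (nat_lit 213032) (nat_lit 11) (.e (nat_lit 24627) (nat_lit 9) (.e (nat_lit 336428) (nat_lit 29) .nil))) (.g (nat_lit 0) (.e (nat_lit 234593) (nat_lit 0) .nil) .nil))) 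
(.lf (nat_lit 526901) (.g (nat_lit 3058) (.e (nat_lit 221194) (nat_lit 11) (.e (nat_lit 336074) (nat_lit 9) (.e (nat_lit 336443) (nat_lit 32) (.e (nat_lit 466969) (nat_lit 21) (.e (nat_lit 164325) (nat_lit 230) (.e (nat_lit 163886) (nat_lit 5) .nil)))))) (.g (nat_lit 1) (.e (nat_lit 235497) (nat_lit 0) .nil) .nil)))) (.nd (nat_lit 9) 
(.lf (nat_lit 526645) (.g (nat_lit 3090) (.e (nat_lit 213035) (nat_lit 12) (.e (nat_lit 163979) (nat_lit 30) (.e (nat_lit 573474) (nat_lit 12) (.e (nat_lit 57543) (nat_lit 47) .nil)))) (.g (nat_lit 0) (.e (nat_lit 235119) (nat_lit 0) .nil) .nil))) 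
(.lf (nat_lit 527157) (.g (nat_lit 1307) (.e (nat_lit 221207) (nat_lit 21) (.e (nat_lit 164327) (nat_lit 230) (.e (nat_lit 163907) (nat_lit 12) (.e (nat_lit 426227) (nat_lit 9) .nil)))) (.g (nat_lit 0) (.e (nat_lit 236607) (nat_lit 0) .nil) .nil))))) (.nd (nat_lit 8) (.nd (nat_lit 9) 
(.lf (nat_lit 526517) (.g (nat_lit 2475) (.e (nat_lit 213032) (nat_lit 11) (.e (nat_lit 24658) (nat_lit 13) (.e (nat_lit 393281) (nat_lit 23) (.e (nat_lit 426100) (nat_lit 1) (.e (nat_lit 164330) (nat_lit 230) (.e (nat_lit 171776) (nat_lit 4) .nil)))))) (.g (nat_lit 1) (.e (nat_lit 234816) (nat_lit 0) .nil) .nil))) 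
(.lf (nat_lit 527029) (.g (nat_lit 1740) (.e (nat_lit 221195) (nat_lit 20) (.e (nat_lit 3238) (nat_lit 197) (.e (nat_lit 532500) (nat_lit 1) (.e (nat_lit 57926) (nat_lit 282) .nil)))) (.g (nat_lit 0) (.e (nat_lit 235672) (nat_lit 0) .nil) .nil)))) (.nd (nat_lit 9) 
(.lf (nat_lit 526773) (.g (nat_lit 2660) (.e (nat_lit 221190) (nat_lit 11) (.e (nat_lit 336011) (nat_lit 2) (.e (nat_lit 90170) (nat_lit 13) (.e (nat_lit 172120) (nat_lit 12) (.e (nat_lit 475177) (nat_lit 24) (.e (nat_lit 516129) (nat_lit 3) .nil)))))) (.g (nat_lit 1) (.e (nat_lit 235335) (nat_lit 0) .nil) .nil))) 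
(.lf (nat_lit 527285) (.g (nat_lit 386) (.e (nat_lit 221210) (nat_lit 22) (.e (nat_lit 196668) (nat_lit 14) (.e (nat_lit 73747) (nat_lit 3) .nil))) (.g (nat_lit 0) (.e (nat_lit 237574) (nat_lit 0) .nil) .nil)))))) (.nd (nat_lit 7) (.nd (nat_lit 8) (.nd (nat_lit 9) 
(.lf (nat_lit 526453) (.g (nat_lit 1720) (.e (nat_lit 213032) (nat_lit 11) (.e (nat_lit 24655) (nat_lit 13) (.e (nat_lit 393271) (nat_lit 23) (.e (nat_lit 426448) (nat_lit 20) (.e (nat_lit 122624) (nat_lit 4) .nil))))) (.g (nat_lit 0) (.e (nat_lit 234723) (nat_lit 0) .nil) .nil))) 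
(.lf (nat_lit 526965) (.g (nat_lit 530) (.e (nat_lit 221194) (nat_lit 11) (.e (nat_lit 336196) (nat_lit 12) (.e (nat_lit 392960) (nat_lit 15) .nil))) (.g (nat_lit 0) (.e (nat_lit 235561) (nat_lit 0) .nil) .nil)))) (.nd (nat_lit 9) 
(.lf (nat_lit 526709) (.g (nat_lit 463) (.e (nat_lit 229120) (nat_lit 5) (.e (nat_lit 114698) (nat_lit 11) (.e (nat_lit 426190) (nat_lit 9) .nil))) (.g (nat_lit 0) (.e (nat_lit 235269) (nat_lit 0) .nil) .nil))) 
(.lf (nat_lit 527221) (.g (nat_lit 1974) (.e (nat_lit 221210) (nat_lit 22) (.e (nat_lit 196654) (nat_lit 11) (.e (nat_lit 16456) (nat_lit 12) (.e (nat_lit 475177) (nat_lit 24) (.e (nat_lit 524032) (nat_lit 18) .nil))))) (.g (nat_lit 0) (.e (nat_lit 237265) (nat_lit 0) .nil) .nil))))) (.nd (nat_lit 8) (.nd (nat_lit 9) 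
(.lf (nat_lit 526581) (.g (nat_lit 2110) (.e (nat_lit 220928) (nat_lit 11) (.e (nat_lit 24608) (nat_lit 3) (.e (nat_lit 98365) (nat_lit 26) (.e (nat_lit 426306) (nat_lit 12) (.e (nat_lit 475178) (nat_lit 24) .nil))))) (.g (nat_lit 0) (.e (nat_lit 234998) (nat_lit 0) .nil) .nil))) 
(.lf (nat_lit 527093) (.g (nat_lit 4443) (.e (nat_lit 221204) (nat_lit 20) (.e (nat_lit 3253) (nat_lit 197) (.e (nat_lit 532503) (nat_lit 1) (.e (nat_lit 57931) (nat_lit 282) (.e (nat_lit 163874) (nat_lit 3) (.e (nat_lit 204854) (nat_lit 26) (.e (nat_lit 336019) (nat_lit 3) (.e (nat_lit 98341) (nat_lit 20) .nil)))))))) (.g (nat_lit 1) (.e (nat_lit 235747) (nat_lit 0) .nil) .nil)))) 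
(.nd (nat_lit 9) 
(.lf (nat_lit 526837) (.g (nat_lit 752) (.e (nat_lit 221193) (nat_lit 11) (.e (nat_lit 336027) (nat_lit 3) (.e (nat_lit 98369) (nat_lit 28) (.e (nat_lit 450304) (nat_lit 3) .nil)))) (.g (nat_lit 0) (.e (nat_lit 235413) (nat_lit 0) .nil) .nil))) 
(.lf (nat_lit 527349) (.g (nat_lit 2090) (.e (nat_lit 221210) (nat_lit 22) (.e (nat_lit 196670) (nat_lit 14) (.e (nat_lit 73746) (nat_lit 3) (.e (nat_lit 516117) (nat_lit 1) (.e (nat_lit 164176) (nat_lit 154) (.e (nat_lit 57379) (nat_lit 3) (.e (nat_lit 98340) (nat_lit 20) .nil))))))) (.g (nat_lit 1) (.e (nat_lit 237971) (nat_lit 0) .nil) .nil))))))))) 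
(.nd (nat_lit 4) (.nd (nat_lit 5) (.nd (nat_lit 6) (.nd (nat_lit 7) (.nd (nat_lit 8) 
(.nd (nat_lit 9) 
(.lf (nat_lit 526349) (.g (nat_lit 1830) (.e (nat_lit 213032) (nat_lit 11) (.e (nat_lit 24624) (nat_lit 9) (.e (nat_lit 336443) (nat_lit 32) (.e (nat_lit 466969) (nat_lit 21) (.e (nat_lit 164325) (nat_lit 230) .nil))))) (.g (nat_lit 0) (.e (nat_lit 234548) (nat_lit 0) .nil) .nil))) 
(.lf (nat_lit 526861) (.g (nat_lit 2818) (.e (nat_lit 221193) (nat_lit 11) (.e (nat_lit 336077) (nat_lit 9) (.e (nat_lit 336443) (nat_lit 32) (.e (nat_lit 466971) (nat_lit 21) (.e (nat_lit 164327) (nat_lit 230) (.e (nat_lit 163884) (nat_lit 5) .nil)))))) (.g (nat_lit 1) (.e (nat_lit 235437) (nat_lit 0) .nil) .nil)))) (.nd (nat_lit 9) 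
(.lf (nat_lit 526605) (.g (nat_lit 3605) (.e (nat_lit 213033) (nat_lit 12) (.e (nat_lit 163979) (nat_lit 30) (.e (nat_lit 573474) (nat_lit 12) (.e (nat_lit 57528) (nat_lit 46) (.e (nat_lit 704590) (nat_lit 3) .nil))))) (.g (nat_lit 0) (.e (nat_lit 235042) (nat_lit 0) .nil) .nil))) 
(.lf (nat_lit 527117) (.g (nat_lit 1183) (.e (nat_lit 221206) (nat_lit 21) (.e (nat_lit 164330) (nat_lit 230) (.e (nat_lit 163902) (nat_lit 12) (.e (nat_lit 426226) (nat_lit 9) .nil)))) (.g (nat_lit 0) (.e (nat_lit 236076) (nat_lit 0) .nil) .nil))))) (.nd (nat_lit 8) (.nd (nat_lit 9) 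
(.lf (nat_lit 526477) (.g (nat_lit 1581) (.e (nat_lit 213032) (nat_lit 11) (.e (nat_lit 24655) (nat_lit 13) (.e (nat_lit 393296) (nat_lit 26) (.e (nat_lit 475205) (nat_lit 40) .nil)))) (.g (nat_lit 0) (.e (nat_lit 234752) (nat_lit 0) .nil) .nil))) 
(.lf (nat_lit 526989) (.g (nat_lit 1783) (.e (nat_lit 229120) (nat_lit 11) (.e (nat_lit 336454) (nat_lit 34) (.e (nat_lit 483377) (nat_lit 22) (.e (nat_lit 327708) (nat_lit 10) (.e (nat_lit 577) (nat_lit 43) .nil))))) (.g (nat_lit 0) (.e (nat_lit 235627) (nat_lit 0) .nil) .nil)))) (.nd (nat_lit 9) 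
(.lf (nat_lit 526733) (.g (nat_lit 488) (.e (nat_lit 229120) (nat_lit 5) (.e (nat_lit 114698) (nat_lit 11) (.e (nat_lit 426213) (nat_lit 9) .nil))) (.g (nat_lit 0) (.e (nat_lit 235294) (nat_lit 0) .nil) .nil))) 
(.lf (nat_lit 527245) (.g (nat_lit 4234) (.e (nat_lit 221210) (nat_lit 22) (.e (nat_lit 196666) (nat_lit 13) (.e (nat_lit 65569) (nat_lit 3) (.e (nat_lit 98333) (nat_lit 18) (.e (nat_lit 164179) (nat_lit 154) (.e (nat_lit 57378) (nat_lit 3) (.e (nat_lit 98341) (nat_lit 20) .nil))))))) (.g (nat_lit 1) (.e (nat_lit 237387) (nat_lit 0) .nil) .nil)))))) 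
(.nd (nat_lit 7) (.nd (nat_lit 8) (.nd (nat_lit 9) 
(.lf (nat_lit 526413) (.g (nat_lit 2467) (.e (nat_lit 213032) (nat_lit 11) (.e (nat_lit 24628) (nat_lit 9) (.e (nat_lit 336443) (nat_lit 32) (.e (nat_lit 466971) (nat_lit 21) (.e (nat_lit 164322) (nat_lit 230) (.e (nat_lit 163877) (nat_lit 4) .nil)))))) (.g (nat_lit 1) (.e (nat_lit 234651) (nat_lit 0) .nil) .nil))) 
(.lf (nat_lit 526925) (.g (nat_lit 1512) (.e (nat_lit 221194) (nat_lit 11) (.e (nat_lit 336084) (nat_lit 9) (.e (nat_lit 336443) (nat_lit 32) (.e (nat_lit 466968) (nat_lit 21) (.e (nat_lit 164329) (nat_lit 230) .nil))))) (.g (nat_lit 0) (.e (nat_lit 235521) (nat_lit 0) .nil) .nil)))) (.nd (nat_lit 9) 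
(.lf (nat_lit 526669) (.g (nat_lit 248) (.e (nat_lit 229120) (nat_lit 0) (.e (nat_lit 6244) (nat_lit 336) (.e (nat_lit 229646) (nat_lit 232) (.e (nat_lit 464) (nat_lit 34) (.e (nat_lit 450304) (nat_lit 5) .nil))))) (.g (nat_lit 0) (.e (nat_lit 235212) (nat_lit 0) .nil) .nil))) 
(.lf (nat_lit 527181) (.g (nat_lit 1778) (.e (nat_lit 221208) (nat_lit 21) (.e (nat_lit 164330) (nat_lit 230) (.e (nat_lit 163913) (nat_lit 12) (.e (nat_lit 426262) (nat_lit 9) .nil)))) (.g (nat_lit 0) (.e (nat_lit 236901) (nat_lit 0) .nil) .nil))))) (.nd (nat_lit 8) (.nd (nat_lit 9) 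
(.lf (nat_lit 526541) (.g (nat_lit 2692) (.e (nat_lit 213032) (nat_lit 11) (.e (nat_lit 24659) (nat_lit 13) (.e (nat_lit 393281) (nat_lit 23) (.e (nat_lit 426108) (nat_lit 1) (.e (nat_lit 164330) (nat_lit 230) (.e (nat_lit 163880) (nat_lit 4) .nil)))))) (.g (nat_lit 1) (.e (nat_lit 234847) (nat_lit 0) .nil) .nil))) 
(.lf (nat_lit 527053) (.g (nat_lit 2344) (.e (nat_lit 221203) (nat_lit 20) (.e (nat_lit 3253) (nat_lit 197) (.e (nat_lit 532501) (nat_lit 1) (.e (nat_lit 57927) (nat_lit 282) (.e (nat_lit 163871) (nat_lit 2) .nil))))) (.g (nat_lit 0) (.e (nat_lit 235705) (nat_lit 0) .nil) .nil)))) (.nd (nat_lit 9) 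
(.lf (nat_lit 526797) (.g (nat_lit 1970) (.e (nat_lit 221191) (nat_lit 11) (.e (nat_lit 336235) (nat_lit 14) (.e (nat_lit 401454) (nat_lit 12) (.e (nat_lit 475209) (nat_lit 41) .nil)))) (.g (nat_lit 0) (.e (nat_lit 235363) (nat_lit 0) .nil) .nil))) 
(.lf (nat_lit 527309) (.g (nat_lit 1995) (.e (nat_lit 221210) (nat_lit 22) (.e (nat_lit 196668) (nat_lit 14) (.e (nat_lit 73747) (nat_lit 3) (.e (nat_lit 516117) (nat_lit 1) (.e (nat_lit 171776) (nat_lit 152) .nil))))) (.g (nat_lit 0) (.e (nat_lit 237706) (nat_lit 0) .nil) .nil))))))) (.nd (nat_lit 6) (.nd (nat_lit 7) (.nd (nat_lit 8) (.nd (nat_lit 9) 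
(.lf (nat_lit 526381) (.g (nat_lit 3232) (.e (nat_lit 213032) (nat_lit 11) (.e (nat_lit 24626) (nat_lit 9) (.e (nat_lit 336443) (nat_lit 32) (.e (nat_lit 466969) (nat_lit 21) (.e (nat_lit 164330) (nat_lit 230) (.e (nat_lit 163880) (nat_lit 4) .nil)))))) (.g (nat_lit 1) (.e (nat_lit 234585) (nat_lit 0) .nil) .nil))) 
(.lf (nat_lit 526893) (.g (nat_lit 1530) (.e (nat_lit 221194) (nat_lit 11) (.e (nat_lit 336027) (nat_lit 3) (.e (nat_lit 98366) (nat_lit 27) (.e (nat_lit 434197) (nat_lit 16) .nil)))) (.g (nat_lit 0) (.e (nat_lit 235489) (nat_lit 0) .nil) .nil)))) (.nd (nat_lit 9) 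
(.lf (nat_lit 526637) (.g (nat_lit 2218) (.e (nat_lit 213035) (nat_lit 12) (.e (nat_lit 163978) (nat_lit 30) (.e (nat_lit 573477) (nat_lit 12) (.e (nat_lit 57548) (nat_lit 47) .nil)))) (.g (nat_lit 0) (.e (nat_lit 235108) (nat_lit 0) .nil) .nil))) 
(.lf (nat_lit 527149) (.g (nat_lit 1690) (.e (nat_lit 221207) (nat_lit 21) (.e (nat_lit 164325) (nat_lit 230) (.e (nat_lit 163907) (nat_lit 12) (.e (nat_lit 426226) (nat_lit 9) .nil)))) (.g (nat_lit 0) (.e (nat_lit 236472) (nat_lit 0) .nil) .nil))))) (.nd (nat_lit 8) (.nd (nat_lit 9) 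
(.lf (nat_lit 526509) (.g (nat_lit 2601) (.e (nat_lit 213032) (nat_lit 11) (.e (nat_lit 24657) (nat_lit 13) (.e (nat_lit 393294) (nat_lit 26) (.e (nat_lit 475214) (nat_lit 42) (.e (nat_lit 728832) (nat_lit 4) .nil))))) (.g (nat_lit 1) (.e (nat_lit 234787) (nat_lit 0) .nil) .nil))) 
(.lf (nat_lit 527021) (.g (nat_lit 2446) (.e (nat_lit 229120) (nat_lit 17) (.e (nat_lit 385068) (nat_lit 26) (.e (nat_lit 532560) (nat_lit 14) (.e (nat_lit 376857) (nat_lit 21) (.e (nat_lit 57688) (nat_lit 156) .nil))))) (.g (nat_lit 0) (.e (nat_lit 235663) (nat_lit 0) .nil) .nil)))) (.nd (nat_lit 9) 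
(.lf (nat_lit 526765) (.g (nat_lit 1622) (.e (nat_lit 229120) (nat_lit 5) (.e (nat_lit 114698) (nat_lit 11) (.e (nat_lit 426335) (nat_lit 13) (.e (nat_lit 483391) (nat_lit 23) (.e (nat_lit 336333) (nat_lit 20) .nil))))) (.g (nat_lit 0) (.e (nat_lit 235327) (nat_lit 0) .nil) .nil))) 
(.lf (nat_lit 527277) (.g (nat_lit 2473) (.e (nat_lit 221210) (nat_lit 22) (.e (nat_lit 196668) (nat_lit 14) (.e (nat_lit 73746) (nat_lit 3) (.e (nat_lit 516120) (nat_lit 1) (.e (nat_lit 164160) (nat_lit 152) .nil))))) (.g (nat_lit 0) (.e (nat_lit 237546) (nat_lit 0) .nil) .nil)))))) (.nd (nat_lit 7) (.nd (nat_lit 8) (.nd (nat_lit 9) 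
(.lf (nat_lit 526445) (.g (nat_lit 2828) (.e (nat_lit 213032) (nat_lit 11) (.e (nat_lit 24654) (nat_lit 13) (.e (nat_lit 393271) (nat_lit 23) (.e (nat_lit 426448) (nat_lit 20) (.e (nat_lit 122624) (nat_lit 4) .nil))))) (.g (nat_lit 1) (.e (nat_lit 234715) (nat_lit 0) .nil) .nil))) 
(.lf (nat_lit 526957) (.g (nat_lit 687) (.e (nat_lit 221194) (nat_lit 11) (.e (nat_lit 336088) (nat_lit 9) (.e (nat_lit 336414) (nat_lit 27) .nil))) (.g (nat_lit 0) (.e (nat_lit 235553) (nat_lit 0) .nil) .nil)))) (.nd (nat_lit 9) 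
(.lf (nat_lit 526701) (.g (nat_lit 511) (.e (nat_lit 229120) (nat_lit 5) (.e (nat_lit 114696) (nat_lit 11) (.e (nat_lit 426262) (nat_lit 9) (.e (nat_lit 426554) (nat_lit 32) (.e (nat_lit 384768) (nat_lit 5) .nil))))) (.g (nat_lit 0) (.e (nat_lit 235254) (nat_lit 0) .nil) .nil))) 
(.lf (nat_lit 527213) (.g (nat_lit 1932) (.e (nat_lit 221208) (nat_lit 21) (.e (nat_lit 164403) (nat_lit 256) (.e (nat_lit 57435) (nat_lit 17) (.e (nat_lit 376863) (nat_lit 22) .nil)))) (.g (nat_lit 0) (.e (nat_lit 237126) (nat_lit 0) .nil) .nil))))) (.nd (nat_lit 8) (.nd (nat_lit 9) 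
(.lf (nat_lit 526573) (.g (nat_lit 3289) (.e (nat_lit 213032) (nat_lit 11) (.e (nat_lit 24665) (nat_lit 14) (.e (nat_lit 401460) (nat_lit 14) (.e (nat_lit 491565) (nat_lit 12) (.e (nat_lit 385109) (nat_lit 51) .nil))))) (.g (nat_lit 0) (.e (nat_lit 234964) (nat_lit 0) .nil) .nil))) 
(.lf (nat_lit 527085) (.g (nat_lit 1290) (.e (nat_lit 221204) (nat_lit 20) (.e (nat_lit 3253) (nat_lit 197) (.e (nat_lit 532501) (nat_lit 1) (.e (nat_lit 57928) (nat_lit 282) .nil)))) (.g (nat_lit 0) (.e (nat_lit 235739) (nat_lit 0) .nil) .nil)))) (.nd (nat_lit 9) 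
(.lf (nat_lit 526829) (.g (nat_lit 1003) (.e (nat_lit 221193) (nat_lit 11) (.e (nat_lit 336012) (nat_lit 2) (.e (nat_lit 90178) (nat_lit 15) (.e (nat_lit 196352) (nat_lit 3) .nil)))) (.g (nat_lit 0) (.e (nat_lit 235405) (nat_lit 0) .nil) .nil))) 
(.lf (nat_lit 527341) (.g (nat_lit 1890) (.e (nat_lit 221210) (nat_lit 22) (.e (nat_lit 196670) (nat_lit 14) (.e (nat_lit 73746) (nat_lit 3) (.e (nat_lit 516115) (nat_lit 1) (.e (nat_lit 164179) (nat_lit 154) .nil))))) (.g (nat_lit 0) (.e (nat_lit 237911) (nat_lit 0) .nil) .nil)))))))) (.nd (nat_lit 5) (.nd (nat_lit 6) (.nd (nat_lit 7) (.nd (nat_lit 8) (.nd (nat_lit 9) 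
(.lf (nat_lit 526365) (.g (nat_lit 2956) (.e (nat_lit 213032) (nat_lit 11) (.e (nat_lit 24625) (nat_lit 9) (.e (nat_lit 336443) (nat_lit 32) (.e (nat_lit 466969) (nat_lit 21) (.e (nat_lit 164327) (nat_lit 230) (.e (nat_lit 163877) (nat_lit 4) .nil)))))) (.g (nat_lit 1) (.e (nat_lit 234569) (nat_lit 0) .nil) .nil))) 
(.lf (nat_lit 526877) (.g (nat_lit 3714) (.e (nat_lit 221194) (nat_lit 11) (.e (nat_lit 336011) (nat_lit 2) (.e (nat_lit 90170) (nat_lit 13) (.e (nat_lit 172118) (nat_lit 12) (.e (nat_lit 475177) (nat_lit 24) (.e (nat_lit 516131) (nat_lit 3) .nil)))))) (.g (nat_lit 1) (.e (nat_lit 235470) (nat_lit 0) .nil) .nil)))) (.nd (nat_lit 9) 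
(.lf (nat_lit 526621) (.g (nat_lit 2291) (.e (nat_lit 213034) (nat_lit 12) (.e (nat_lit 163978) (nat_lit 30) (.e (nat_lit 573477) (nat_lit 12) (.e (nat_lit 57548) (nat_lit 47) .nil)))) (.g (nat_lit 0) (.e (nat_lit 235077) (nat_lit 0) .nil) .nil))) 
(.lf (nat_lit 527133) (.g (nat_lit 1940) (.e (nat_lit 221206) (nat_lit 21) (.e (nat_lit 164403) (nat_lit 256) (.e (nat_lit 57435) (nat_lit 17) (.e (nat_lit 376863) (nat_lit 22) .nil)))) (.g (nat_lit 0) (.e (nat_lit 236269) (nat_lit 0) .nil) .nil))))) (.nd (nat_lit 8) (.nd (nat_lit 9) 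
(.lf (nat_lit 526493) (.g (nat_lit 860) (.e (nat_lit 213032) (nat_lit 11) (.e (nat_lit 24657) (nat_lit 13) (.e (nat_lit 393269) (nat_lit 23) .nil))) (.g (nat_lit 0) (.e (nat_lit 234770) (nat_lit 0) .nil) .nil))) 
(.lf (nat_lit 527005) (.g (nat_lit 2884) (.e (nat_lit 229120) (nat_lit 11) (.e (nat_lit 336456) (nat_lit 34) (.e (nat_lit 483413) (nat_lit 27) (.e (nat_lit 401423) (nat_lit 2) (.e (nat_lit 204544) (nat_lit 0) .nil))))) (.g (nat_lit 0) (.e (nat_lit 235643) (nat_lit 0) .nil) .nil)))) (.nd (nat_lit 9) 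
(.lf (nat_lit 526749) (.g (nat_lit 895) (.e (nat_lit 229120) (nat_lit 5) (.e (nat_lit 114698) (nat_lit 11) (.e (nat_lit 426327) (nat_lit 13) (.e (nat_lit 491264) (nat_lit 23) .nil)))) (.g (nat_lit 0) (.e (nat_lit 235310) (nat_lit 0) .nil) .nil))) 
(.lf (nat_lit 527261) (.g (nat_lit 457) (.e (nat_lit 221210) (nat_lit 22) (.e (nat_lit 196668) (nat_lit 14) (.e (nat_lit 73743) (nat_lit 1) .nil))) (.g (nat_lit 0) (.e (nat_lit 237448) (nat_lit 0) .nil) .nil)))))) (.nd (nat_lit 7) (.nd (nat_lit 8) (.nd (nat_lit 9) 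
(.lf (nat_lit 526429) (.g (nat_lit 2612) (.e (nat_lit 213032) (nat_lit 11) (.e (nat_lit 24629) (nat_lit 9) (.e (nat_lit 336443) (nat_lit 32) (.e (nat_lit 466969) (nat_lit 21) (.e (nat_lit 164327) (nat_lit 230) (.e (nat_lit 163879) (nat_lit 4) .nil)))))) (.g (nat_lit 1) (.e (nat_lit 234668) (nat_lit 0) .nil) .nil))) 
(.lf (nat_lit 526941) (.g (nat_lit 2217) (.e (nat_lit 221194) (nat_lit 11) (.e (nat_lit 336087) (nat_lit 9) (.e (nat_lit 336434) (nat_lit 30) (.e (nat_lit 450564) (nat_lit 0) (.e (nat_lit 5224) (nat_lit 296) (.e (nat_lit 163886) (nat_lit 5) .nil)))))) (.g (nat_lit 1) (.e (nat_lit 235537) (nat_lit 0) .nil) .nil)))) (.nd (nat_lit 9) 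
(.lf (nat_lit 526685) (.g (nat_lit 531) (.e (nat_lit 229120) (nat_lit 3) (.e (nat_lit 98315) (nat_lit 9) (.e (nat_lit 336118) (nat_lit 9) (.e (nat_lit 336453) (nat_lit 34) (.e (nat_lit 491264) (nat_lit 3) .nil))))) (.g (nat_lit 0) (.e (nat_lit 235234) (nat_lit 0) .nil) .nil))) 
(.lf (nat_lit 527197) (.g (nat_lit 2144) (.e (nat_lit 221208) (nat_lit 21) (.e (nat_lit 164402) (nat_lit 256) (.e (nat_lit 57424) (nat_lit 14) (.e (nat_lit 352312) (nat_lit 22) (.e (nat_lit 90133) (nat_lit 9) .nil))))) (.g (nat_lit 0) (.e (nat_lit 237109) (nat_lit 0) .nil) .nil))))) (.nd (nat_lit 8) (.nd (nat_lit 9) 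
(.lf (nat_lit 526557) (.g (nat_lit 488) (.e (nat_lit 213032) (nat_lit 11) (.e (nat_lit 24660) (nat_lit 13) (.e (nat_lit 393276) (nat_lit 23) .nil))) (.g (nat_lit 0) (.e (nat_lit 234866) (nat_lit 0) .nil) .nil))) 
(.lf (nat_lit 527069) (.g (nat_lit 2044) (.e (nat_lit 221204) (nat_lit 20) (.e (nat_lit 3253) (nat_lit 197) (.e (nat_lit 532499) (nat_lit 1) (.e (nat_lit 57927) (nat_lit 282) (.e (nat_lit 163866) (nat_lit 2) .nil))))) (.g (nat_lit 0) (.e (nat_lit 235723) (nat_lit 0) .nil) .nil)))) (.nd (nat_lit 9) 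
(.lf (nat_lit 526813) (.g (nat_lit 1901) (.e (nat_lit 221192) (nat_lit 11) (.e (nat_lit 336153) (nat_lit 9) (.e (nat_lit 336442) (nat_lit 32) (.e (nat_lit 466969) (nat_lit 21) (.e (nat_lit 164327) (nat_lit 230) (.e (nat_lit 163884) (nat_lit 5) .nil)))))) (.g (nat_lit 1) (.e (nat_lit 235380) (nat_lit 0) .nil) .nil))) 
(.lf (nat_lit 527325) (.g (nat_lit 2946) (.e (nat_lit 221210) (nat_lit 22) (.e (nat_lit 196668) (nat_lit 14) (.e (nat_lit 73747) (nat_lit 3) (.e (nat_lit 516119) (nat_lit 1) (.e (nat_lit 164180) (nat_lit 154) (.e (nat_lit 57379) (nat_lit 3) (.e (nat_lit 98340) (nat_lit 20) .nil))))))) (.g (nat_lit 1) (.e (nat_lit 237824) (nat_lit 0) .nil) .nil))))))) 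
(.nd (nat_lit 6) (.nd (nat_lit 7) (.nd (nat_lit 8) (.nd (nat_lit 9) 
(.lf (nat_lit 526397) (.g (nat_lit 2752) (.e (nat_lit 213032) (nat_lit 11) (.e (nat_lit 24627) (nat_lit 9) (.e (nat_lit 336443) (nat_lit 32) (.e (nat_lit 466969) (nat_lit 21) (.e (nat_lit 164331) (nat_lit 230) (.e (nat_lit 163877) (nat_lit 4) .nil)))))) (.g (nat_lit 1) (.e (nat_lit 234601) (nat_lit 0) .nil) .nil))) 
(.lf (nat_lit 526909) (.g (nat_lit 2883) (.e (nat_lit 221194) (nat_lit 11) (.e (nat_lit 336075) (nat_lit 9) (.e (nat_lit 336443) (nat_lit 32) (.e (nat_lit 466971) (nat_lit 21) (.e (nat_lit 164325) (nat_lit 230) (.e (nat_lit 163886) (nat_lit 5) .nil)))))) (.g (nat_lit 1) (.e (nat_lit 235505) (nat_lit 0) .nil) .nil)))) (.nd (nat_lit 9) 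
(.lf (nat_lit 526653) (.g (nat_lit 2025) (.e (nat_lit 213035) (nat_lit 12) (.e (nat_lit 163979) (nat_lit 30) (.e (nat_lit 573475) (nat_lit 12) (.e (nat_lit 57546) (nat_lit 47) .nil)))) (.g (nat_lit 0) (.e (nat_lit 235130) (nat_lit 0) .nil) .nil))) 
(.lf (nat_lit 527165) (.g (nat_lit 2019) (.e (nat_lit 221207) (nat_lit 21) (.e (nat_lit 164332) (nat_lit 230) (.e (nat_lit 163905) (nat_lit 12) (.e (nat_lit 426233) (nat_lit 9) .nil)))) (.g (nat_lit 0) (.e (nat_lit 236668) (nat_lit 0) .nil) .nil))))) (.nd (nat_lit 8) (.nd (nat_lit 9) 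
(.lf (nat_lit 526525) (.g (nat_lit 2024) (.e (nat_lit 213032) (nat_lit 11) (.e (nat_lit 24658) (nat_lit 13) (.e (nat_lit 393293) (nat_lit 26) (.e (nat_lit 475214) (nat_lit 42) (.e (nat_lit 728832) (nat_lit 4) .nil))))) (.g (nat_lit 1) (.e (nat_lit 234829) (nat_lit 0) .nil) .nil))) 
(.lf (nat_lit 527037) (.g (nat_lit 4571) (.e (nat_lit 221198) (nat_lit 20) (.e (nat_lit 3464) (nat_lit 217) (.e (nat_lit 696344) (nat_lit 8) (.e (nat_lit 172125) (nat_lit 14) (.e (nat_lit 491566) (nat_lit 12) (.e (nat_lit 385107) (nat_lit 51) (.e (nat_lit 794683) (nat_lit 25) .nil))))))) (.g (nat_lit 1) (.e (nat_lit 235685) (nat_lit 0) .nil) .nil)))) (.nd (nat_lit 9) 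
(.lf (nat_lit 526781) (.g (nat_lit 1789) (.e (nat_lit 221190) (nat_lit 11) (.e (nat_lit 336078) (nat_lit 9) (.e (nat_lit 336443) (nat_lit 32) (.e (nat_lit 466971) (nat_lit 21) (.e (nat_lit 164324) (nat_lit 230) .nil))))) (.g (nat_lit 0) (.e (nat_lit 235343) (nat_lit 0) .nil) .nil))) 
(.lf (nat_lit 527293) (.g (nat_lit 1916) (.e (nat_lit 221210) (nat_lit 22) (.e (nat_lit 196668) (nat_lit 14) (.e (nat_lit 73747) (nat_lit 3) (.e (nat_lit 516115) (nat_lit 1) (.e (nat_lit 164177) (nat_lit 154) .nil))))) (.g (nat_lit 0) (.e (nat_lit 237585) (nat_lit 0) .nil) .nil)))))) (.nd (nat_lit 7) (.nd (nat_lit 8) (.nd (nat_lit 9) 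
(.lf (nat_lit 526461) (.g (nat_lit 819) (.e (nat_lit 213032) (nat_lit 11) (.e (nat_lit 24655) (nat_lit 13) (.e (nat_lit 393280) (nat_lit 23) .nil))) (.g (nat_lit 0) (.e (nat_lit 234731) (nat_lit 0) .nil) .nil))) 
(.lf (nat_lit 526973) (.g (nat_lit 1645) (.e (nat_lit 221194) (nat_lit 11) (.e (nat_lit 336223) (nat_lit 13) (.e (nat_lit 393234) (nat_lit 17) (.e (nat_lit 7376) (nat_lit 389) .nil)))) (.g (nat_lit 0) (.e (nat_lit 235569) (nat_lit 0) .nil) .nil)))) (.nd (nat_lit 9) 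
(.lf (nat_lit 526717) (.g (nat_lit 1784) (.e (nat_lit 229120) (nat_lit 5) (.e (nat_lit 114698) (nat_lit 11) (.e (nat_lit 426197) (nat_lit 9) (.e (nat_lit 426555) (nat_lit 32) (.e (nat_lit 384768) (nat_lit 5) .nil))))) (.g (nat_lit 0) (.e (nat_lit 235278) (nat_lit 0) .nil) .nil))) 
(.lf (nat_lit 527229) (.g (nat_lit 1932) (.e (nat_lit 221210) (nat_lit 22) (.e (nat_lit 196656) (nat_lit 11) (.e (nat_lit 16436) (nat_lit 9) (.e (nat_lit 426131) (nat_lit 3) (.e (nat_lit 204850) (nat_lit 26) .nil))))) (.g (nat_lit 0) (.e (nat_lit 237298) (nat_lit 0) .nil) .nil))))) (.nd (nat_lit 8) (.nd (nat_lit 9) 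
(.lf (nat_lit 526589) (.g (nat_lit 2768) (.e (nat_lit 213033) (nat_lit 12) (.e (nat_lit 163975) (nat_lit 30) (.e (nat_lit 573474) (nat_lit 12) (.e (nat_lit 57528) (nat_lit 46) (.e (nat_lit 704514) (nat_lit 0) .nil))))) (.g (nat_lit 0) (.e (nat_lit 235009) (nat_lit 0) .nil) .nil))) 
(.lf (nat_lit 527101) (.g (nat_lit 2028) (.e (nat_lit 221204) (nat_lit 20) (.e (nat_lit 3747) (nat_lit 228) (.e (nat_lit 786473) (nat_lit 27) (.e (nat_lit 336051) (nat_lit 6) (.e (nat_lit 147496) (nat_lit 11) .nil))))) (.g (nat_lit 0) (.e (nat_lit 235755) (nat_lit 0) .nil) .nil)))) (.nd (nat_lit 9) 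
(.lf (nat_lit 526845) (.g (nat_lit 1785) (.e (nat_lit 221193) (nat_lit 11) (.e (nat_lit 336074) (nat_lit 9) (.e (nat_lit 336443) (nat_lit 32) (.e (nat_lit 466971) (nat_lit 21) (.e (nat_lit 164329) (nat_lit 230) .nil))))) (.g (nat_lit 0) (.e (nat_lit 235421) (nat_lit 0) .nil) .nil))) 
(.lf (nat_lit 527357) (.g (nat_lit 2916) (.e (nat_lit 221210) (nat_lit 22) (.e (nat_lit 196670) (nat_lit 14) (.e (nat_lit 73746) (nat_lit 3) (.e (nat_lit 516119) (nat_lit 1) (.e (nat_lit 164176) (nat_lit 154) (.e (nat_lit 57379) (nat_lit 3) (.e (nat_lit 98340) (nat_lit 20) .nil))))))) (.g (nat_lit 1) (.e (nat_lit 238025) (nat_lit 0) .nil) .nil))))))))))) 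
(.nd (nat_lit 2) (.nd (nat_lit 3) (.nd (nat_lit 4) (.nd (nat_lit 5) (.nd (nat_lit 6) 
(.nd (nat_lit 7) (.nd (nat_lit 8) (.nd (nat_lit 9) 
(.lf (nat_lit 526339) (.g (nat_lit 768) (.e (nat_lit 213032) (nat_lit 11) (.e (nat_lit 24609) (nat_lit 3) (.e (nat_lit 98363) (nat_lit 26) (.e (nat_lit 426318) (nat_lit 12) (.e (nat_lit 475178) (nat_lit 24) .nil))))) (.g (nat_lit 0) (.e (nat_lit 234536) (nat_lit 0) .nil) .nil))) 
(.lf (nat_lit 526851) (.g (nat_lit 1813) (.e (nat_lit 221193) (nat_lit 11) (.e (nat_lit 336075) (nat_lit 9) (.e (nat_lit 336443) (nat_lit 32) (.e (nat_lit 466972) (nat_lit 21) (.e (nat_lit 164329) (nat_lit 230) .nil))))) (.g (nat_lit 0) (.e (nat_lit 235427) (nat_lit 0) .nil) .nil)))) (.nd (nat_lit 9) 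
(.lf (nat_lit 526595) (.g (nat_lit 2016) (.e (nat_lit 213033) (nat_lit 12) (.e (nat_lit 163976) (nat_lit 30) (.e (nat_lit 573474) (nat_lit 12) (.e (nat_lit 57543) (nat_lit 47) (.e (nat_lit 712729) (nat_lit 18) .nil))))) (.g (nat_lit 0) (.e (nat_lit 235018) (nat_lit 0) .nil) .nil))) 
(.lf (nat_lit 527107) (.g (nat_lit 1940) (.e (nat_lit 221206) (nat_lit 21) (.e (nat_lit 164325) (nat_lit 230) (.e (nat_lit 163903) (nat_lit 12) (.e (nat_lit 426233) (nat_lit 9) .nil)))) (.g (nat_lit 0) (.e (nat_lit 235902) (nat_lit 0) .nil) .nil))))) (.nd (nat_lit 8) (.nd (nat_lit 9) 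
(.lf (nat_lit 526467) (.g (nat_lit 1052) (.e (nat_lit 213032) (nat_lit 11) (.e (nat_lit 24655) (nat_lit 13) (.e (nat_lit 393281) (nat_lit 23) (.e (nat_lit 426105) (nat_lit 1) (.e (nat_lit 164325) (nat_lit 230) .nil))))) (.g (nat_lit 0) (.e (nat_lit 234737) (nat_lit 0) .nil) .nil))) 
(.lf (nat_lit 526979) (.g (nat_lit 632) (.e (nat_lit 229120) (nat_lit 11) (.e (nat_lit 336028) (nat_lit 3) (.e (nat_lit 98362) (nat_lit 26) .nil))) (.g (nat_lit 0) (.e (nat_lit 235592) (nat_lit 0) .nil) .nil)))) (.nd (nat_lit 9) 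
(.lf (nat_lit 526723) (.g (nat_lit 1554) (.e (nat_lit 229120) (nat_lit 5) (.e (nat_lit 114698) (nat_lit 11) (.e (nat_lit 426199) (nat_lit 9) (.e (nat_lit 426555) (nat_lit 32) (.e (nat_lit 384768) (nat_lit 5) .nil))))) (.g (nat_lit 0) (.e (nat_lit 235284) (nat_lit 0) .nil) .nil))) 
(.lf (nat_lit 527235) (.g (nat_lit 3293) (.e (nat_lit 221210) (nat_lit 22) (.e (nat_lit 196656) (nat_lit 11) (.e (nat_lit 16448) (nat_lit 10) (.e (nat_lit 434231) (nat_lit 23) (.e (nat_lit 532529) (nat_lit 9) (.e (nat_lit 343808) (nat_lit 20) .nil)))))) (.g (nat_lit 1) (.e (nat_lit 237340) (nat_lit 0) .nil) .nil)))))) (.nd (nat_lit 7) (.nd (nat_lit 8) (.nd (nat_lit 9) 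
(.lf (nat_lit 526403) (.g (nat_lit 2826) (.e (nat_lit 213032) (nat_lit 11) (.e (nat_lit 24627) (nat_lit 9) (.e (nat_lit 336443) (nat_lit 32) (.e (nat_lit 466972) (nat_lit 21) (.e (nat_lit 164331) (nat_lit 230) (.e (nat_lit 163877) (nat_lit 4) .nil)))))) (.g (nat_lit 1) (.e (nat_lit 234607) (nat_lit 0) .nil) .nil))) 
(.lf (nat_lit 526915) (.g (nat_lit 2374) (.e (nat_lit 221194) (nat_lit 11) (.e (nat_lit 336077) (nat_lit 9) (.e (nat_lit 336443) (nat_lit 32) (.e (nat_lit 466969) (nat_lit 21) (.e (nat_lit 164324) (nat_lit 230) (.e (nat_lit 163886) (nat_lit 5) .nil)))))) (.g (nat_lit 1) (.e (nat_lit 235511) (nat_lit 0) .nil) .nil)))) (.nd (nat_lit 9) 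
(.lf (nat_lit 526659) (.g (nat_lit 2934) (.e (nat_lit 213039) (nat_lit 14) (.e (nat_lit 2777) (nat_lit 178) (.e (nat_lit 286759) (nat_lit 12) (.e (nat_lit 385094) (nat_lit 49) (.e (nat_lit 778326) (nat_lit 6) (.e (nat_lit 89856) (nat_lit 4) .nil)))))) (.g (nat_lit 1) (.e (nat_lit 235141) (nat_lit 0) .nil) .nil))) 
(.lf (nat_lit 527171) (.g (nat_lit 1403) (.e (nat_lit 221208) (nat_lit 21) (.e (nat_lit 164330) (nat_lit 230) (.e (nat_lit 163902) (nat_lit 12) (.e (nat_lit 426226) (nat_lit 9) (.e (nat_lit 426552) (nat_lit 32) .nil))))) (.g (nat_lit 0) (.e (nat_lit 236865) (nat_lit 0) .nil) .nil))))) (.nd (nat_lit 8) (.nd (nat_lit 9) 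
(.lf (nat_lit 526531) (.g (nat_lit 2341) (.e (nat_lit 213032) (nat_lit 11) (.e (nat_lit 24658) (nat_lit 13) (.e (nat_lit 393296) (nat_lit 26) (.e (nat_lit 475214) (nat_lit 42) (.e (nat_lit 728832) (nat_lit 4) .nil))))) (.g (nat_lit 1) (.e (nat_lit 234836) (nat_lit 0) .nil) .nil))) 
(.lf (nat_lit 527043) (.g (nat_lit 2400) (.e (nat_lit 221203) (nat_lit 20) (.e (nat_lit 3253) (nat_lit 197) (.e (nat_lit 532499) (nat_lit 1) (.e (nat_lit 57926) (nat_lit 282) (.e (nat_lit 163869) (nat_lit 2) .nil))))) (.g (nat_lit 0) (.e (nat_lit 235694) (nat_lit 0) .nil) .nil)))) (.nd (nat_lit 9) 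
(.lf (nat_lit 526787) (.g (nat_lit 1887) (.e (nat_lit 221191) (nat_lit 11) (.e (nat_lit 336152) (nat_lit 9) (.e (nat_lit 336442) (nat_lit 32) (.e (nat_lit 466969) (nat_lit 21) (.e (nat_lit 164327) (nat_lit 230) (.e (nat_lit 163886) (nat_lit 5) .nil)))))) (.g (nat_lit 1) (.e (nat_lit 235353) (nat_lit 0) .nil) .nil))) 
(.lf (nat_lit 527299) (.g (nat_lit 3143) (.e (nat_lit 221210) (nat_lit 22) (.e (nat_lit 196668) (nat_lit 14) (.e (nat_lit 73747) (nat_lit 3) (.e (nat_lit 516115) (nat_lit 1) (.e (nat_lit 164180) (nat_lit 154) (.e (nat_lit 57379) (nat_lit 3) (.e (nat_lit 98342) (nat_lit 20) .nil))))))) (.g (nat_lit 1) (.e (nat_lit 237638) (nat_lit 0) .nil) .nil))))))) 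
(.nd (nat_lit 6) (.nd (nat_lit 7) (.nd (nat_lit 8) (.nd (nat_lit 9) 
(.lf (nat_lit 526371) (.g (nat_lit 2722) (.e (nat_lit 213032) (nat_lit 11) (.e (nat_lit 24625) (nat_lit 9) (.e (nat_lit 336443) (nat_lit 32) (.e (nat_lit 466971) (nat_lit 21) (.e (nat_lit 164326) (nat_lit 230) (.e (nat_lit 163879) (nat_lit 4) .nil)))))) (.g (nat_lit 1) (.e (nat_lit 234575) (nat_lit 0) .nil) .nil))) 
(.lf (nat_lit 526883) (.g (nat_lit 1798) (.e (nat_lit 221194) (nat_lit 11) (.e (nat_lit 336012) (nat_lit 2) (.e (nat_lit 90172) (nat_lit 14) (.e (nat_lit 180285) (nat_lit 45) (.e (nat_lit 2568) (nat_lit 160) (.e (nat_lit 32774) (nat_lit 5) (.e (nat_lit 7936) (nat_lit 14) .nil))))))) (.g (nat_lit 1) (.e (nat_lit 235476) (nat_lit 0) .nil) .nil)))) (.nd (nat_lit 9) 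
(.lf (nat_lit 526627) (.g (nat_lit 3099) (.e (nat_lit 213034) (nat_lit 12) (.e (nat_lit 163979) (nat_lit 30) (.e (nat_lit 573474) (nat_lit 12) (.e (nat_lit 57546) (nat_lit 47) .nil)))) (.g (nat_lit 0) (.e (nat_lit 235087) (nat_lit 0) .nil) .nil))) 
(.lf (nat_lit 527139) (.g (nat_lit 1307) (.e (nat_lit 221207) (nat_lit 21) (.e (nat_lit 164324) (nat_lit 230) (.e (nat_lit 163919) (nat_lit 14) (.e (nat_lit 450304) (nat_lit 16) .nil)))) (.g (nat_lit 0) (.e (nat_lit 236326) (nat_lit 0) .nil) .nil))))) (.nd (nat_lit 8) (.nd (nat_lit 9) 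
(.lf (nat_lit 526499) (.g (nat_lit 742) (.e (nat_lit 213032) (nat_lit 11) (.e (nat_lit 24657) (nat_lit 13) (.e (nat_lit 393274) (nat_lit 23) .nil))) (.g (nat_lit 0) (.e (nat_lit 234776) (nat_lit 0) .nil) .nil))) 
(.lf (nat_lit 527011) (.g (nat_lit 1582) (.e (nat_lit 229120) (nat_lit 12) (.e (nat_lit 344117) (nat_lit 21) (.e (nat_lit 516106) (nat_lit 0) (.e (nat_lit 7350) (nat_lit 388) .nil)))) (.g (nat_lit 0) (.e (nat_lit 235653) (nat_lit 0) .nil) .nil)))) (.nd (nat_lit 9) 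
(.lf (nat_lit 526755) (.g (nat_lit 1080) (.e (nat_lit 229120) (nat_lit 5) (.e (nat_lit 114698) (nat_lit 11) (.e (nat_lit 426334) (nat_lit 13) (.e (nat_lit 483386) (nat_lit 23) .nil)))) (.g (nat_lit 0) (.e (nat_lit 235317) (nat_lit 0) .nil) .nil))) 
(.lf (nat_lit 527267) (.g (nat_lit 2930) (.e (nat_lit 221210) (nat_lit 22) (.e (nat_lit 196668) (nat_lit 14) (.e (nat_lit 73746) (nat_lit 3) (.e (nat_lit 516115) (nat_lit 1) (.e (nat_lit 164182) (nat_lit 154) (.e (nat_lit 57379) (nat_lit 3) (.e (nat_lit 98340) (nat_lit 20) .nil))))))) (.g (nat_lit 1) (.e (nat_lit 237492) (nat_lit 0) .nil) .nil)))))) 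
(.nd (nat_lit 7) (.nd (nat_lit 8) (.nd (nat_lit 9) 
(.lf (nat_lit 526435) (.g (nat_lit 2527) (.e (nat_lit 213032) (nat_lit 11) (.e (nat_lit 24629) (nat_lit 9) (.e (nat_lit 336443) (nat_lit 32) (.e (nat_lit 466971) (nat_lit 21) (.e (nat_lit 164327) (nat_lit 230) (.e (nat_lit 163879) (nat_lit 4) .nil)))))) (.g (nat_lit 1) (.e (nat_lit 234674) (nat_lit 0) .nil) .nil))) 
(.lf (nat_lit 526947) (.g (nat_lit 1025) (.e (nat_lit 221194) (nat_lit 11) (.e (nat_lit 336088) (nat_lit 9) (.e (nat_lit 336381) (nat_lit 27) (.e (nat_lit 426196) (nat_lit 9) .nil)))) (.g (nat_lit 0) (.e (nat_lit 235543) (nat_lit 0) .nil) .nil)))) (.nd (nat_lit 9) 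
(.lf (nat_lit 526691) (.g (nat_lit 815) (.e (nat_lit 229120) (nat_lit 4) (.e (nat_lit 106536) (nat_lit 11) (.e (nat_lit 16467) (nat_lit 13) (.e (nat_lit 483379) (nat_lit 23) .nil)))) (.g (nat_lit 0) (.e (nat_lit 235243) (nat_lit 0) .nil) .nil))) 
(.lf (nat_lit 527203) (.g (nat_lit 1245) (.e (nat_lit 221208) (nat_lit 21) (.e (nat_lit 164402) (nat_lit 256) (.e (nat_lit 57427) (nat_lit 15) (.e (nat_lit 360459) (nat_lit 1) .nil)))) (.g (nat_lit 0) (.e (nat_lit 237115) (nat_lit 0) .nil) .nil))))) (.nd (nat_lit 8) (.nd (nat_lit 9) 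
(.lf (nat_lit 526563) (.g (nat_lit 2009) (.e (nat_lit 213032) (nat_lit 11) (.e (nat_lit 24660) (nat_lit 13) (.e (nat_lit 393284) (nat_lit 24) (.e (nat_lit 434209) (nat_lit 18) (.e (nat_lit 5224) (nat_lit 296) (.e (nat_lit 163882) (nat_lit 4) .nil)))))) (.g (nat_lit 1) (.e (nat_lit 234877) (nat_lit 0) .nil) .nil))) 
(.lf (nat_lit 527075) (.g (nat_lit 1423) (.e (nat_lit 221204) (nat_lit 20) (.e (nat_lit 3253) (nat_lit 197) (.e (nat_lit 532499) (nat_lit 1) (.e (nat_lit 57928) (nat_lit 282) .nil)))) (.g (nat_lit 0) (.e (nat_lit 235729) (nat_lit 0) .nil) .nil)))) (.nd (nat_lit 9) 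
(.lf (nat_lit 526819) (.g (nat_lit 1880) (.e (nat_lit 221192) (nat_lit 11) (.e (nat_lit 336153) (nat_lit 9) (.e (nat_lit 336442) (nat_lit 32) (.e (nat_lit 466971) (nat_lit 21) (.e (nat_lit 164324) (nat_lit 230) (.e (nat_lit 163884) (nat_lit 5) .nil)))))) (.g (nat_lit 1) (.e (nat_lit 235386) (nat_lit 0) .nil) .nil))) 
(.lf (nat_lit 527331) (.g (nat_lit 3383) (.e (nat_lit 221210) (nat_lit 22) (.e (nat_lit 196668) (nat_lit 14) (.e (nat_lit 73747) (nat_lit 3) (.e (nat_lit 516120) (nat_lit 1) (.e (nat_lit 164181) (nat_lit 154) (.e (nat_lit 57379) (nat_lit 3) (.e (nat_lit 98342) (nat_lit 20) .nil))))))) (.g (nat_lit 1) (.e (nat_lit 237840) (nat_lit 0) .nil) .nil)))))))) 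
(.nd (nat_lit 5) (.nd (nat_lit 6) (.nd (nat_lit 7) (.nd (nat_lit 8) (.nd (nat_lit 9) 
(.lf (nat_lit 526355) (.g (nat_lit 2867) (.e (nat_lit 213032) (nat_lit 11) (.e (nat_lit 24624) (nat_lit 9) (.e (nat_lit 336443) (nat_lit 32) (.e (nat_lit 466971) (nat_lit 21) (.e (nat_lit 164326) (nat_lit 230) (.e (nat_lit 163882) (nat_lit 4) .nil)))))) (.g (nat_lit 1) (.e (nat_lit 234554) (nat_lit 0) .nil) .nil))) 
(.lf (nat_lit 526867) (.g (nat_lit 2645) (.e (nat_lit 221193) (nat_lit 11) (.e (nat_lit 336084) (nat_lit 9) (.e (nat_lit 336443) (nat_lit 32) (.e (nat_lit 466969) (nat_lit 21) (.e (nat_lit 164327) (nat_lit 230) (.e (nat_lit 163886) (nat_lit 5) .nil)))))) (.g (nat_lit 1) (.e (nat_lit 235443) (nat_lit 0) .nil) .nil)))) (.nd (nat_lit 9) 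
(.lf (nat_lit 526611) (.g (nat_lit 2039) (.e (nat_lit 213033) (nat_lit 12) (.e (nat_lit 163979) (nat_lit 30) (.e (nat_lit 573475) (nat_lit 12) (.e (nat_lit 57543) (nat_lit 47) .nil)))) (.g (nat_lit 0) (.e (nat_lit 235055) (nat_lit 0) .nil) .nil))) 
(.lf (nat_lit 527123) (.g (nat_lit 875) (.e (nat_lit 221206) (nat_lit 21) (.e (nat_lit 164330) (nat_lit 230) (.e (nat_lit 163916) (nat_lit 13) .nil))) (.g (nat_lit 0) (.e (nat_lit 236122) (nat_lit 0) .nil) .nil))))) (.nd (nat_lit 8) (.nd (nat_lit 9) 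
(.lf (nat_lit 526483) (.g (nat_lit 2390) (.e (nat_lit 213032) (nat_lit 11) (.e (nat_lit 24656) (nat_lit 13) (.e (nat_lit 393271) (nat_lit 23) (.e (nat_lit 426448) (nat_lit 20) (.e (nat_lit 122624) (nat_lit 4) .nil))))) (.g (nat_lit 1) (.e (nat_lit 234760) (nat_lit 0) .nil) .nil))) 
(.lf (nat_lit 526995) (.g (nat_lit 2048) (.e (nat_lit 229120) (nat_lit 11) (.e (nat_lit 336454) (nat_lit 34) (.e (nat_lit 483383) (nat_lit 23) (.e (nat_lit 336316) (nat_lit 17) (.e (nat_lit 196622) (nat_lit 9) .nil))))) (.g (nat_lit 0) (.e (nat_lit 235633) (nat_lit 0) .nil) .nil)))) (.nd (nat_lit 9) 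
(.lf (nat_lit 526739) (.g (nat_lit 1122) (.e (nat_lit 229120) (nat_lit 5) (.e (nat_lit 114698) (nat_lit 11) (.e (nat_lit 426325) (nat_lit 13) (.e (nat_lit 483391) (nat_lit 23) .nil)))) (.g (nat_lit 0) (.e (nat_lit 235300) (nat_lit 0) .nil) .nil))) 
(.lf (nat_lit 527251) (.g (nat_lit 2167) (.e (nat_lit 221210) (nat_lit 22) (.e (nat_lit 196666) (nat_lit 13) (.e (nat_lit 65569) (nat_lit 3) (.e (nat_lit 98335) (nat_lit 18) (.e (nat_lit 164183) (nat_lit 154) .nil))))) (.g (nat_lit 0) (.e (nat_lit 237403) (nat_lit 0) .nil) .nil)))))) (.nd (nat_lit 7) (.nd (nat_lit 8) (.nd (nat_lit 9) 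
(.lf (nat_lit 526419) (.g (nat_lit 3314) (.e (nat_lit 213032) (nat_lit 11) (.e (nat_lit 24628) (nat_lit 9) (.e (nat_lit 336443) (nat_lit 32) (.e (nat_lit 466972) (nat_lit 21) (.e (nat_lit 164330) (nat_lit 230) (.e (nat_lit 163877) (nat_lit 4) .nil)))))) (.g (nat_lit 1) (.e (nat_lit 234657) (nat_lit 0) .nil) .nil))) 
(.lf (nat_lit 526931) (.g (nat_lit 2893) (.e (nat_lit 221194) (nat_lit 11) (.e (nat_lit 336086) (nat_lit 9) (.e (nat_lit 336427) (nat_lit 29) (.e (nat_lit 442421) (nat_lit 21) (.e (nat_lit 164326) (nat_lit 230) (.e (nat_lit 163884) (nat_lit 5) .nil)))))) (.g (nat_lit 1) (.e (nat_lit 235527) (nat_lit 0) .nil) .nil)))) (.nd (nat_lit 9) 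
(.lf (nat_lit 526675) (.g (nat_lit 2144) (.e (nat_lit 229120) (nat_lit 2) (.e (nat_lit 90158) (nat_lit 11) (.e (nat_lit 24630) (nat_lit 9) (.e (nat_lit 336456) (nat_lit 34) (.e (nat_lit 491264) (nat_lit 3) .nil))))) (.g (nat_lit 0) (.e (nat_lit 235219) (nat_lit 0) .nil) .nil))) 
(.lf (nat_lit 527187) (.g (nat_lit 1975) (.e (nat_lit 221208) (nat_lit 21) (.e (nat_lit 164332) (nat_lit 230) (.e (nat_lit 163905) (nat_lit 12) (.e (nat_lit 426226) (nat_lit 9) (.e (nat_lit 426552) (nat_lit 32) (.e (nat_lit 384768) (nat_lit 5) .nil)))))) (.g (nat_lit 1) (.e (nat_lit 237062) (nat_lit 0) .nil) .nil))))) (.nd (nat_lit 8) (.nd (nat_lit 9) 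
(.lf (nat_lit 526547) (.g (nat_lit 1092) (.e (nat_lit 213032) (nat_lit 11) (.e (nat_lit 24659) (nat_lit 13) (.e (nat_lit 393292) (nat_lit 26) (.e (nat_lit 475214) (nat_lit 42) (.e (nat_lit 728832) (nat_lit 4) .nil))))) (.g (nat_lit 0) (.e (nat_lit 234856) (nat_lit 0) .nil) .nil))) 
(.lf (nat_lit 527059) (.g (nat_lit 1815) (.e (nat_lit 221203) (nat_lit 20) (.e (nat_lit 3253) (nat_lit 197) (.e (nat_lit 532504) (nat_lit 1) (.e (nat_lit 57929) (nat_lit 282) .nil)))) (.g (nat_lit 0) (.e (nat_lit 235712) (nat_lit 0) .nil) .nil)))) (.nd (nat_lit 9) 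
(.lf (nat_lit 526803) (.g (nat_lit 1998) (.e (nat_lit 221192) (nat_lit 11) (.e (nat_lit 336152) (nat_lit 9) (.e (nat_lit 336442) (nat_lit 32) (.e (nat_lit 466971) (nat_lit 21) (.e (nat_lit 164324) (nat_lit 230) (.e (nat_lit 163884) (nat_lit 5) .nil)))))) (.g (nat_lit 1) (.e (nat_lit 235370) (nat_lit 0) .nil) .nil))) 
(.lf (nat_lit 527315) (.g (nat_lit 1175) (.e (nat_lit 221210) (nat_lit 22) (.e (nat_lit 196668) (nat_lit 14) (.e (nat_lit 73747) (nat_lit 3) (.e (nat_lit 516118) (nat_lit 1) .nil)))) (.g (nat_lit 0) (.e (nat_lit 237740) (nat_lit 0) .nil) .nil))))))) (.nd (nat_lit 6) (.nd (nat_lit 7) (.nd (nat_lit 8) (.nd (nat_lit 9) 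
(.lf (nat_lit 526387) (.g (nat_lit 641) (.e (nat_lit 213032) (nat_lit 11) (.e (nat_lit 24627) (nat_lit 9) (.e (nat_lit 336336) (nat_lit 20) .nil))) (.g (nat_lit 0) (.e (nat_lit 234591) (nat_lit 0) .nil) .nil))) 
(.lf (nat_lit 526899) (.g (nat_lit 2687) (.e (nat_lit 221194) (nat_lit 11) (.e (nat_lit 336074) (nat_lit 9) (.e (nat_lit 336443) (nat_lit 32) (.e (nat_lit 466969) (nat_lit 21) (.e (nat_lit 164322) (nat_lit 230) (.e (nat_lit 163884) (nat_lit 5) .nil)))))) (.g (nat_lit 1) (.e (nat_lit 235495) (nat_lit 0) .nil) .nil)))) (.nd (nat_lit 9) 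
(.lf (nat_lit 526643) (.g (nat_lit 3017) (.e (nat_lit 213035) (nat_lit 12) (.e (nat_lit 163979) (nat_lit 30) (.e (nat_lit 573474) (nat_lit 12) (.e (nat_lit 57528) (nat_lit 46) .nil)))) (.g (nat_lit 0) (.e (nat_lit 235116) (nat_lit 0) .nil) .nil))) 
(.lf (nat_lit 527155) (.g (nat_lit 1303) (.e (nat_lit 221207) (nat_lit 21) (.e (nat_lit 164326) (nat_lit 230) (.e (nat_lit 163903) (nat_lit 12) (.e (nat_lit 426229) (nat_lit 9) .nil)))) (.g (nat_lit 0) (.e (nat_lit 236574) (nat_lit 0) .nil) .nil))))) (.nd (nat_lit 8) (.nd (nat_lit 9) 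
(.lf (nat_lit 526515) (.g (nat_lit 1947) (.e (nat_lit 213032) (nat_lit 11) (.e (nat_lit 24658) (nat_lit 13) (.e (nat_lit 393281) (nat_lit 23) (.e (nat_lit 426099) (nat_lit 1) (.e (nat_lit 164332) (nat_lit 230) (.e (nat_lit 171776) (nat_lit 4) .nil)))))) (.g (nat_lit 1) (.e (nat_lit 234811) (nat_lit 0) .nil) .nil))) 
(.lf (nat_lit 527027) (.g (nat_lit 2231) (.e (nat_lit 221195) (nat_lit 20) (.e (nat_lit 3238) (nat_lit 197) (.e (nat_lit 532499) (nat_lit 1) (.e (nat_lit 57927) (nat_lit 282) (.e (nat_lit 163871) (nat_lit 2) .nil))))) (.g (nat_lit 0) (.e (nat_lit 235670) (nat_lit 0) .nil) .nil)))) (.nd (nat_lit 9) 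
(.lf (nat_lit 526771) (.g (nat_lit 2991) (.e (nat_lit 221190) (nat_lit 11) (.e (nat_lit 336011) (nat_lit 2) (.e (nat_lit 90170) (nat_lit 13) (.e (nat_lit 172118) (nat_lit 12) (.e (nat_lit 475177) (nat_lit 24) .nil))))) (.g (nat_lit 0) (.e (nat_lit 235333) (nat_lit 0) .nil) .nil))) 
(.lf (nat_lit 527283) (.g (nat_lit 3749) (.e (nat_lit 221210) (nat_lit 22) (.e (nat_lit 196668) (nat_lit 14) (.e (nat_lit 73746) (nat_lit 3) (.e (nat_lit 516120) (nat_lit 1) (.e (nat_lit 164183) (nat_lit 154) (.e (nat_lit 57378) (nat_lit 3) (.e (nat_lit 98340) (nat_lit 20) .nil))))))) (.g (nat_lit 1) (.e (nat_lit 237572) (nat_lit 0) .nil) .nil)))))) 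
(.nd (nat_lit 7) (.nd (nat_lit 8) (.nd (nat_lit 9) 
(.lf (nat_lit 526451) (.g (nat_lit 1946) (.e (nat_lit 213032) (nat_lit 11) (.e (nat_lit 24655) (nat_lit 13) (.e (nat_lit 393270) (nat_lit 23) (.e (nat_lit 426446) (nat_lit 20) (.e (nat_lit 122624) (nat_lit 4) .nil))))) (.g (nat_lit 1) (.e (nat_lit 234721) (nat_lit 0) .nil) .nil))) 
(.lf (nat_lit 526963) (.g (nat_lit 3296) (.e (nat_lit 221194) (nat_lit 11) (.e (nat_lit 336194) (nat_lit 12) (.e (nat_lit 385109) (nat_lit 51) (.e (nat_lit 794682) (nat_lit 25) .nil)))) (.g (nat_lit 0) (.e (nat_lit 235559) (nat_lit 0) .nil) .nil)))) (.nd (nat_lit 9) 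
(.lf (nat_lit 526707) (.g (nat_lit 1500) (.e (nat_lit 229120) (nat_lit 5) (.e (nat_lit 114698) (nat_lit 11) (.e (nat_lit 426188) (nat_lit 9) (.e (nat_lit 426555) (nat_lit 32) (.e (nat_lit 384768) (nat_lit 5) .nil))))) (.g (nat_lit 0) (.e (nat_lit 235267) (nat_lit 0) .nil) .nil))) 
(.lf (nat_lit 527219) (.g (nat_lit 2254) (.e (nat_lit 221210) (nat_lit 22) (.e (nat_lit 196654) (nat_lit 11) (.e (nat_lit 16438) (nat_lit 9) (.e (nat_lit 426131) (nat_lit 3) (.e (nat_lit 204853) (nat_lit 26) .nil))))) (.g (nat_lit 0) (.e (nat_lit 237254) (nat_lit 0) .nil) .nil))))) (.nd (nat_lit 8) (.nd (nat_lit 9) 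
(.lf (nat_lit 526579) (.g (nat_lit 2090) (.e (nat_lit 220928) (nat_lit 11) (.e (nat_lit 24608) (nat_lit 3) (.e (nat_lit 98365) (nat_lit 26) (.e (nat_lit 426188) (nat_lit 9) (.e (nat_lit 426438) (nat_lit 18) .nil))))) (.g (nat_lit 0) (.e (nat_lit 234996) (nat_lit 0) .nil) .nil))) 
(.lf (nat_lit 527091) (.g (nat_lit 1194) (.e (nat_lit 221204) (nat_lit 20) (.e (nat_lit 3253) (nat_lit 197) (.e (nat_lit 532503) (nat_lit 1) (.e (nat_lit 57931) (nat_lit 282) .nil)))) (.g (nat_lit 0) (.e (nat_lit 235745) (nat_lit 0) .nil) .nil)))) (.nd (nat_lit 9) 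
(.lf (nat_lit 526835) (.g (nat_lit 1788) (.e (nat_lit 221193) (nat_lit 11) (.e (nat_lit 336027) (nat_lit 3) (.e (nat_lit 98365) (nat_lit 26) (.e (nat_lit 426306) (nat_lit 12) (.e (nat_lit 475175) (nat_lit 24) .nil))))) (.g (nat_lit 0) (.e (nat_lit 235411) (nat_lit 0) .nil) .nil))) 
(.lf (nat_lit 527347) (.g (nat_lit 1002) (.e (nat_lit 221210) (nat_lit 22) (.e (nat_lit 196670) (nat_lit 14) (.e (nat_lit 73746) (nat_lit 3) (.e (nat_lit 516117) (nat_lit 1) .nil)))) (.g (nat_lit 0) (.e (nat_lit 237964) (nat_lit 0) .nil) .nil))))))))) (.nd (nat_lit 4) (.nd (nat_lit 5) (.nd (nat_lit 6) (.nd (nat_lit 7) (.nd (nat_lit 8) (.nd (nat_lit 9) 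
(.lf (nat_lit 526347) (.g (nat_lit 1705) (.e (nat_lit 213032) (nat_lit 11) (.e (nat_lit 24623) (nat_lit 9) (.e (nat_lit 336443) (nat_lit 32) (.e (nat_lit 466969) (nat_lit 21) .nil)))) (.g (nat_lit 0) (.e (nat_lit 234546) (nat_lit 0) .nil) .nil))) 
(.lf (nat_lit 526859) (.g (nat_lit 2616) (.e (nat_lit 221193) (nat_lit 11) (.e (nat_lit 336077) (nat_lit 9) (.e (nat_lit 336443) (nat_lit 32) (.e (nat_lit 466969) (nat_lit 21) (.e (nat_lit 164327) (nat_lit 230) (.e (nat_lit 163886) (nat_lit 5) .nil)))))) (.g (nat_lit 1) (.e (nat_lit 235435) (nat_lit 0) .nil) .nil)))) (.nd (nat_lit 9) 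
(.lf (nat_lit 526603) (.g (nat_lit 3097) (.e (nat_lit 213033) (nat_lit 12) (.e (nat_lit 163979) (nat_lit 30) (.e (nat_lit 573474) (nat_lit 12) (.e (nat_lit 57527) (nat_lit 46) .nil)))) (.g (nat_lit 0) (.e (nat_lit 235038) (nat_lit 0) .nil) .nil))) 
(.lf (nat_lit 527115) (.g (nat_lit 1244) (.e (nat_lit 221206) (nat_lit 21) (.e (nat_lit 164330) (nat_lit 230) (.e (nat_lit 163846) (nat_lit 0) (.e (nat_lit 6989) (nat_lit 377) (.e (nat_lit 977) (nat_lit 81) .nil))))) (.g (nat_lit 0) (.e (nat_lit 236073) (nat_lit 0) .nil) .nil))))) (.nd (nat_lit 8) (.nd (nat_lit 9) 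
(.lf (nat_lit 526475) (.g (nat_lit 2135) (.e (nat_lit 213032) (nat_lit 11) (.e (nat_lit 24655) (nat_lit 13) (.e (nat_lit 393293) (nat_lit 26) (.e (nat_lit 475214) (nat_lit 42) (.e (nat_lit 728832) (nat_lit 4) .nil))))) (.g (nat_lit 1) (.e (nat_lit 234749) (nat_lit 0) .nil) .nil))) 
(.lf (nat_lit 526987) (.g (nat_lit 1772) (.e (nat_lit 229120) (nat_lit 11) (.e (nat_lit 336454) (nat_lit 34) (.e (nat_lit 483375) (nat_lit 22) (.e (nat_lit 327703) (nat_lit 10) (.e (nat_lit 580) (nat_lit 43) .nil))))) (.g (nat_lit 0) (.e (nat_lit 235625) (nat_lit 0) .nil) .nil)))) (.nd (nat_lit 9) 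
(.lf (nat_lit 526731) (.g (nat_lit 1646) (.e (nat_lit 229120) (nat_lit 5) (.e (nat_lit 114698) (nat_lit 11) (.e (nat_lit 426200) (nat_lit 9) (.e (nat_lit 426543) (nat_lit 29) (.e (nat_lit 360192) (nat_lit 5) .nil))))) (.g (nat_lit 0) (.e (nat_lit 235292) (nat_lit 0) .nil) .nil))) 
(.lf (nat_lit 527243) (.g (nat_lit 1384) (.e (nat_lit 221210) (nat_lit 22) (.e (nat_lit 196666) (nat_lit 13) (.e (nat_lit 65568) (nat_lit 2) (.e (nat_lit 98048) (nat_lit 2) .nil)))) (.g (nat_lit 0) (.e (nat_lit 237374) (nat_lit 0) .nil) .nil)))))) (.nd (nat_lit 7) (.nd (nat_lit 8) (.nd (nat_lit 9) 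
(.lf (nat_lit 526411) (.g (nat_lit 2410) (.e (nat_lit 213032) (nat_lit 11) (.e (nat_lit 24628) (nat_lit 9) (.e (nat_lit 336443) (nat_lit 32) (.e (nat_lit 466969) (nat_lit 21) (.e (nat_lit 164332) (nat_lit 230) (.e (nat_lit 171776) (nat_lit 4) .nil)))))) (.g (nat_lit 1) (.e (nat_lit 234649) (nat_lit 0) .nil) .nil))) 
(.lf (nat_lit 526923) (.g (nat_lit 2176) (.e (nat_lit 221194) (nat_lit 11) (.e (nat_lit 336077) (nat_lit 9) (.e (nat_lit 336443) (nat_lit 32) (.e (nat_lit 466972) (nat_lit 21) (.e (nat_lit 164322) (nat_lit 230) (.e (nat_lit 163884) (nat_lit 5) .nil)))))) (.g (nat_lit 1) (.e (nat_lit 235519) (nat_lit 0) .nil) .nil)))) (.nd (nat_lit 9) 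
(.lf (nat_lit 526667) (.g (nat_lit 427) (.e (nat_lit 221188) (nat_lit 0) (.e (nat_lit 6112) (nat_lit 332) (.e (nat_lit 2779) (nat_lit 178) .nil))) (.g (nat_lit 0) (.e (nat_lit 235209) (nat_lit 0) .nil) .nil))) 
(.lf (nat_lit 527179) (.g (nat_lit 1778) (.e (nat_lit 221208) (nat_lit 21) (.e (nat_lit 164330) (nat_lit 230) (.e (nat_lit 163913) (nat_lit 12) (.e (nat_lit 426225) (nat_lit 9) .nil)))) (.g (nat_lit 0) (.e (nat_lit 236895) (nat_lit 0) .nil) .nil))))) (.nd (nat_lit 8) (.nd (nat_lit 9) 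
(.lf (nat_lit 526539) (.g (nat_lit 2406) (.e (nat_lit 213032) (nat_lit 11) (.e (nat_lit 24659) (nat_lit 13) (.e (nat_lit 393281) (nat_lit 23) (.e (nat_lit 426098) (nat_lit 1) (.e (nat_lit 164327) (nat_lit 230) (.e (nat_lit 163881) (nat_lit 4) .nil)))))) (.g (nat_lit 1) (.e (nat_lit 234845) (nat_lit 0) .nil) .nil))) 
(.lf (nat_lit 527051) (.g (nat_lit 2393) (.e (nat_lit 221203) (nat_lit 20) (.e (nat_lit 3253) (nat_lit 197) (.e (nat_lit 532501) (nat_lit 1) (.e (nat_lit 57926) (nat_lit 282) (.e (nat_lit 163875) (nat_lit 3) .nil))))) (.g (nat_lit 0) (.e (nat_lit 235703) (nat_lit 0) .nil) .nil)))) (.nd (nat_lit 9) 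
(.lf (nat_lit 526795) (.g (nat_lit 2358) (.e (nat_lit 221191) (nat_lit 11) (.e (nat_lit 336153) (nat_lit 9) (.e (nat_lit 336442) (nat_lit 32) (.e (nat_lit 466972) (nat_lit 21) (.e (nat_lit 164331) (nat_lit 230) (.e (nat_lit 163885) (nat_lit 5) .nil)))))) (.g (nat_lit 1) (.e (nat_lit 235361) (nat_lit 0) .nil) .nil))) 
(.lf (nat_lit 527307) (.g (nat_lit 2000) (.e (nat_lit 221210) (nat_lit 22) (.e (nat_lit 196668) (nat_lit 14) (.e (nat_lit 73747) (nat_lit 3) (.e (nat_lit 516117) (nat_lit 1) (.e (nat_lit 164157) (nat_lit 152) .nil))))) (.g (nat_lit 0) (.e (nat_lit 237704) (nat_lit 0) .nil) .nil))))))) (.nd (nat_lit 6) (.nd (nat_lit 7) (.nd (nat_lit 8) (.nd (nat_lit 9) 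
(.lf (nat_lit 526379) (.g (nat_lit 2960) (.e (nat_lit 213032) (nat_lit 11) (.e (nat_lit 24626) (nat_lit 9) (.e (nat_lit 336443) (nat_lit 32) (.e (nat_lit 466969) (nat_lit 21) (.e (nat_lit 164326) (nat_lit 230) (.e (nat_lit 163881) (nat_lit 4) .nil)))))) (.g (nat_lit 1) (.e (nat_lit 234583) (nat_lit 0) .nil) .nil))) 
(.lf (nat_lit 526891) (.g (nat_lit 1694) (.e (nat_lit 221194) (nat_lit 11) (.e (nat_lit 336021) (nat_lit 3) (.e (nat_lit 98370) (nat_lit 28) (.e (nat_lit 450304) (nat_lit 3) .nil)))) (.g (nat_lit 0) (.e (nat_lit 235486) (nat_lit 0) .nil) .nil)))) (.nd (nat_lit 9) 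
(.lf (nat_lit 526635) (.g (nat_lit 3081) (.e (nat_lit 213035) (nat_lit 12) (.e (nat_lit 163978) (nat_lit 30) (.e (nat_lit 573475) (nat_lit 12) (.e (nat_lit 57546) (nat_lit 47) .nil)))) (.g (nat_lit 0) (.e (nat_lit 235105) (nat_lit 0) .nil) .nil))) 
(.lf (nat_lit 527147) (.g (nat_lit 2959) (.e (nat_lit 221207) (nat_lit 21) (.e (nat_lit 164325) (nat_lit 230) (.e (nat_lit 163903) (nat_lit 12) (.e (nat_lit 426254) (nat_lit 9) (.e (nat_lit 426541) (nat_lit 29) (.e (nat_lit 360192) (nat_lit 5) .nil)))))) (.g (nat_lit 1) (.e (nat_lit 236451) (nat_lit 0) .nil) .nil))))) (.nd (nat_lit 8) (.nd (nat_lit 9) 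
(.lf (nat_lit 526507) (.g (nat_lit 342) (.e (nat_lit 213032) (nat_lit 11) (.e (nat_lit 24657) (nat_lit 13) (.e (nat_lit 393294) (nat_lit 26) .nil))) (.g (nat_lit 0) (.e (nat_lit 234785) (nat_lit 0) .nil) .nil))) 
(.lf (nat_lit 527019) (.g (nat_lit 1757) (.e (nat_lit 229120) (nat_lit 17) (.e (nat_lit 385068) (nat_lit 26) (.e (nat_lit 532560) (nat_lit 14) (.e (nat_lit 376856) (nat_lit 21) .nil)))) (.g (nat_lit 0) (.e (nat_lit 235661) (nat_lit 0) .nil) .nil)))) (.nd (nat_lit 9) 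
(.lf (nat_lit 526763) (.g (nat_lit 2539) (.e (nat_lit 229120) (nat_lit 5) (.e (nat_lit 114698) (nat_lit 11) (.e (nat_lit 426335) (nat_lit 13) (.e (nat_lit 483387) (nat_lit 23) (.e (nat_lit 343808) (nat_lit 20) .nil))))) (.g (nat_lit 0) (.e (nat_lit 235325) (nat_lit 0) .nil) .nil))) 
(.lf (nat_lit 527275) (.g (nat_lit 2009) (.e (nat_lit 221210) (nat_lit 22) (.e (nat_lit 196668) (nat_lit 14) (.e (nat_lit 73746) (nat_lit 3) (.e (nat_lit 516119) (nat_lit 1) (.e (nat_lit 164180) (nat_lit 154) .nil))))) (.g (nat_lit 0) (.e (nat_lit 237544) (nat_lit 0) .nil) .nil)))))) (.nd (nat_lit 7) (.nd (nat_lit 8) (.nd (nat_lit 9) 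
(.lf (nat_lit 526443) (.g (nat_lit 2653) (.e (nat_lit 213032) (nat_lit 11) (.e (nat_lit 24654) (nat_lit 13) (.e (nat_lit 393268) (nat_lit 23) (.e (nat_lit 426448) (nat_lit 20) (.e (nat_lit 122624) (nat_lit 4) .nil))))) (.g (nat_lit 0) (.e (nat_lit 234713) (nat_lit 0) .nil) .nil))) 
(.lf (nat_lit 526955) (.g (nat_lit 711) (.e (nat_lit 221194) (nat_lit 11) (.e (nat_lit 336088) (nat_lit 9) (.e (nat_lit 336419) (nat_lit 27) .nil))) (.g (nat_lit 0) (.e (nat_lit 235551) (nat_lit 0) .nil) .nil)))) (.nd (nat_lit 9) 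
(.lf (nat_lit 526699) (.g (nat_lit 488) (.e (nat_lit 229120) (nat_lit 5) (.e (nat_lit 114696) (nat_lit 11) (.e (nat_lit 426261) (nat_lit 9) (.e (nat_lit 426554) (nat_lit 32) (.e (nat_lit 384768) (nat_lit 5) .nil))))) (.g (nat_lit 0) (.e (nat_lit 235252) (nat_lit 0) .nil) .nil))) 
(.lf (nat_lit 527211) (.g (nat_lit 1069) (.e (nat_lit 221208) (nat_lit 21) (.e (nat_lit 164402) (nat_lit 256) (.e (nat_lit 57427) (nat_lit 15) (.e (nat_lit 360475) (nat_lit 8) .nil)))) (.g (nat_lit 0) (.e (nat_lit 237123) (nat_lit 0) .nil) .nil))))) (.nd (nat_lit 8) (.nd (nat_lit 9) 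
(.lf (nat_lit 526571) (.g (nat_lit 1633) (.e (nat_lit 213032) (nat_lit 11) (.e (nat_lit 24664) (nat_lit 14) (.e (nat_lit 401460) (nat_lit 14) (.e (nat_lit 491565) (nat_lit 12) .nil)))) (.g (nat_lit 0) (.e (nat_lit 234909) (nat_lit 0) .nil) .nil))) 
(.lf (nat_lit 527083) (.g (nat_lit 1816) (.e (nat_lit 221204) (nat_lit 20) (.e (nat_lit 3253) (nat_lit 197) (.e (nat_lit 532501) (nat_lit 1) (.e (nat_lit 57927) (nat_lit 282) (.e (nat_lit 163869) (nat_lit 2) .nil))))) (.g (nat_lit 0) (.e (nat_lit 235737) (nat_lit 0) .nil) .nil)))) (.nd (nat_lit 9) 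
(.lf (nat_lit 526827) (.g (nat_lit 3275) (.e (nat_lit 221192) (nat_lit 11) (.e (nat_lit 336235) (nat_lit 14) (.e (nat_lit 401454) (nat_lit 12) (.e (nat_lit 475210) (nat_lit 41) (.e (nat_lit 712722) (nat_lit 15) .nil))))) (.g (nat_lit 0) (.e (nat_lit 235396) (nat_lit 0) .nil) .nil))) 
(.lf (nat_lit 527339) (.g (nat_lit 1734) (.e (nat_lit 221210) (nat_lit 22) (.e (nat_lit 196670) (nat_lit 14) (.e (nat_lit 73746) (nat_lit 3) (.e (nat_lit 516115) (nat_lit 1) (.e (nat_lit 164177) (nat_lit 154) .nil))))) (.g (nat_lit 0) (.e (nat_lit 237901) (nat_lit 0) .nil) .nil)))))))) (.nd (nat_lit 5) (.nd (nat_lit 6) (.nd (nat_lit 7) (.nd (nat_lit 8) (.nd (nat_lit 9) 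
(.lf (nat_lit 526363) (.g (nat_lit 2819) (.e (nat_lit 213032) (nat_lit 11) (.e (nat_lit 24625) (nat_lit 9) (.e (nat_lit 336443) (nat_lit 32) (.e (nat_lit 466969) (nat_lit 21) (.e (nat_lit 164325) (nat_lit 230) (.e (nat_lit 163879) (nat_lit 4) .nil)))))) (.g (nat_lit 1) (.e (nat_lit 234567) (nat_lit 0) .nil) .nil))) 
(.lf (nat_lit 526875) (.g (nat_lit 2187) (.e (nat_lit 221193) (nat_lit 11) (.e (nat_lit 336087) (nat_lit 9) (.e (nat_lit 336432) (nat_lit 30) (.e (nat_lit 450565) (nat_lit 0) (.e (nat_lit 5224) (nat_lit 296) (.e (nat_lit 163886) (nat_lit 5) .nil)))))) (.g (nat_lit 1) (.e (nat_lit 235451) (nat_lit 0) .nil) .nil)))) (.nd (nat_lit 9) 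
(.lf (nat_lit 526619) (.g (nat_lit 1379) (.e (nat_lit 213034) (nat_lit 12) (.e (nat_lit 163977) (nat_lit 30) (.e (nat_lit 573477) (nat_lit 12) (.e (nat_lit 57548) (nat_lit 47) .nil)))) (.g (nat_lit 0) (.e (nat_lit 235072) (nat_lit 0) .nil) .nil))) 
(.lf (nat_lit 527131) (.g (nat_lit 1654) (.e (nat_lit 221206) (nat_lit 21) (.e (nat_lit 164332) (nat_lit 230) (.e (nat_lit 163905) (nat_lit 12) (.e (nat_lit 426229) (nat_lit 9) .nil)))) (.g (nat_lit 0) (.e (nat_lit 236232) (nat_lit 0) .nil) .nil))))) (.nd (nat_lit 8) (.nd (nat_lit 9) 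
(.lf (nat_lit 526491) (.g (nat_lit 954) (.e (nat_lit 213032) (nat_lit 11) (.e (nat_lit 24657) (nat_lit 13) (.e (nat_lit 393267) (nat_lit 23) .nil))) (.g (nat_lit 0) (.e (nat_lit 234768) (nat_lit 0) .nil) .nil))) 
(.lf (nat_lit 527003) (.g (nat_lit 1290) (.e (nat_lit 229120) (nat_lit 11) (.e (nat_lit 336454) (nat_lit 34) (.e (nat_lit 483408) (nat_lit 26) (.e (nat_lit 385065) (nat_lit 26) .nil)))) (.g (nat_lit 0) (.e (nat_lit 235641) (nat_lit 0) .nil) .nil)))) (.nd (nat_lit 9) 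
(.lf (nat_lit 526747) (.g (nat_lit 1223) (.e (nat_lit 229120) (nat_lit 5) (.e (nat_lit 114698) (nat_lit 11) (.e (nat_lit 426327) (nat_lit 13) (.e (nat_lit 483391) (nat_lit 23) .nil)))) (.g (nat_lit 0) (.e (nat_lit 235308) (nat_lit 0) .nil) .nil))) 
(.lf (nat_lit 527259) (.g (nat_lit 2046) (.e (nat_lit 221210) (nat_lit 22) (.e (nat_lit 196666) (nat_lit 13) (.e (nat_lit 65571) (nat_lit 3) (.e (nat_lit 98335) (nat_lit 18) .nil)))) (.g (nat_lit 0) (.e (nat_lit 237427) (nat_lit 0) .nil) .nil)))))) (.nd (nat_lit 7) (.nd (nat_lit 8) (.nd (nat_lit 9) 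
(.lf (nat_lit 526427) (.g (nat_lit 2459) (.e (nat_lit 213032) (nat_lit 11) (.e (nat_lit 24629) (nat_lit 9) (.e (nat_lit 336443) (nat_lit 32) (.e (nat_lit 466969) (nat_lit 21) (.e (nat_lit 164326) (nat_lit 230) (.e (nat_lit 163879) (nat_lit 4) .nil)))))) (.g (nat_lit 1) (.e (nat_lit 234666) (nat_lit 0) .nil) .nil))) 
(.lf (nat_lit 526939) (.g (nat_lit 2930) (.e (nat_lit 221194) (nat_lit 11) (.e (nat_lit 336087) (nat_lit 9) (.e (nat_lit 336426) (nat_lit 29) (.e (nat_lit 442421) (nat_lit 21) (.e (nat_lit 164326) (nat_lit 230) (.e (nat_lit 163884) (nat_lit 5) .nil)))))) (.g (nat_lit 1) (.e (nat_lit 235535) (nat_lit 0) .nil) .nil)))) (.nd (nat_lit 9) 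
(.lf (nat_lit 526683) (.g (nat_lit 537) (.e (nat_lit 229120) (nat_lit 3) (.e (nat_lit 98314) (nat_lit 9) (.e (nat_lit 336118) (nat_lit 9) (.e (nat_lit 336453) (nat_lit 34) (.e (nat_lit 491264) (nat_lit 3) .nil))))) (.g (nat_lit 0) (.e (nat_lit 235232) (nat_lit 0) .nil) .nil))) 
(.lf (nat_lit 527195) (.g (nat_lit 2818) (.e (nat_lit 221208) (nat_lit 21) (.e (nat_lit 164401) (nat_lit 256) (.e (nat_lit 57427) (nat_lit 15) (.e (nat_lit 360474) (nat_lit 8) (.e (nat_lit 557091) (nat_lit 12) (.e (nat_lit 164002) (nat_lit 40) (.e (nat_lit 655360) (nat_lit 0) (.e (nat_lit 2710) (nat_lit 170) .nil)))))))) (.g (nat_lit 1) (.e (nat_lit 237107) (nat_lit 0) .nil) .nil))))) 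
(.nd (nat_lit 8) (.nd (nat_lit 9) 
(.lf (nat_lit 526555) (.g (nat_lit 2357) (.e (nat_lit 213032) (nat_lit 11) (.e (nat_lit 24660) (nat_lit 13) (.e (nat_lit 393271) (nat_lit 23) (.e (nat_lit 426112) (nat_lit 1) (.e (nat_lit 164326) (nat_lit 230) (.e (nat_lit 163881) (nat_lit 4) .nil)))))) (.g (nat_lit 1) (.e (nat_lit 234864) (nat_lit 0) .nil) .nil))) 
(.lf (nat_lit 527067) (.g (nat_lit 2086) (.e (nat_lit 221204) (nat_lit 20) (.e (nat_lit 3253) (nat_lit 197) (.e (nat_lit 532499) (nat_lit 1) (.e (nat_lit 57926) (nat_lit 282) (.e (nat_lit 163875) (nat_lit 3) .nil))))) (.g (nat_lit 0) (.e (nat_lit 235721) (nat_lit 0) .nil) .nil)))) (.nd (nat_lit 9) 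
(.lf (nat_lit 526811) (.g (nat_lit 1786) (.e (nat_lit 221192) (nat_lit 11) (.e (nat_lit 336153) (nat_lit 9) (.e (nat_lit 336442) (nat_lit 32) (.e (nat_lit 466969) (nat_lit 21) (.e (nat_lit 164325) (nat_lit 230) (.e (nat_lit 163884) (nat_lit 5) .nil)))))) (.g (nat_lit 1) (.e (nat_lit 235378) (nat_lit 0) .nil) .nil))) 
(.lf (nat_lit 527323) (.g (nat_lit 1910) (.e (nat_lit 221210) (nat_lit 22) (.e (nat_lit 196668) (nat_lit 14) (.e (nat_lit 73747) (nat_lit 3) (.e (nat_lit 516119) (nat_lit 1) (.e (nat_lit 164179) (nat_lit 154) .nil))))) (.g (nat_lit 0) (.e (nat_lit 237781) (nat_lit 0) .nil) .nil))))))) (.nd (nat_lit 6) (.nd (nat_lit 7) (.nd (nat_lit 8) (.nd (nat_lit 9) 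
(.lf (nat_lit 526395) (.g (nat_lit 2718) (.e (nat_lit 213032) (nat_lit 11) (.e (nat_lit 24627) (nat_lit 9) (.e (nat_lit 336443) (nat_lit 32) (.e (nat_lit 466969) (nat_lit 21) (.e (nat_lit 164327) (nat_lit 230) (.e (nat_lit 163877) (nat_lit 4) .nil)))))) (.g (nat_lit 1) (.e (nat_lit 234599) (nat_lit 0) .nil) .nil))) 
(.lf (nat_lit 526907) (.g (nat_lit 3090) (.e (nat_lit 221194) (nat_lit 11) (.e (nat_lit 336075) (nat_lit 9) (.e (nat_lit 336443) (nat_lit 32) (.e (nat_lit 466969) (nat_lit 21) (.e (nat_lit 164325) (nat_lit 230) (.e (nat_lit 163886) (nat_lit 5) .nil)))))) (.g (nat_lit 1) (.e (nat_lit 235503) (nat_lit 0) .nil) .nil)))) (.nd (nat_lit 9) 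
(.lf (nat_lit 526651) (.g (nat_lit 2038) (.e (nat_lit 213035) (nat_lit 12) (.e (nat_lit 163979) (nat_lit 30) (.e (nat_lit 573475) (nat_lit 12) (.e (nat_lit 57543) (nat_lit 47) .nil)))) (.g (nat_lit 0) (.e (nat_lit 235128) (nat_lit 0) .nil) .nil))) 
(.lf (nat_lit 527163) (.g (nat_lit 992) (.e (nat_lit 221207) (nat_lit 21) (.e (nat_lit 164331) (nat_lit 230) (.e (nat_lit 163932) (nat_lit 17) (.e (nat_lit 474880) (nat_lit 16) .nil)))) (.g (nat_lit 0) (.e (nat_lit 236664) (nat_lit 0) .nil) .nil))))) (.nd (nat_lit 8) (.nd (nat_lit 9) 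
(.lf (nat_lit 526523) (.g (nat_lit 2033) (.e (nat_lit 213032) (nat_lit 11) (.e (nat_lit 24658) (nat_lit 13) (.e (nat_lit 393292) (nat_lit 26) (.e (nat_lit 475214) (nat_lit 42) (.e (nat_lit 728832) (nat_lit 4) .nil))))) (.g (nat_lit 1) (.e (nat_lit 234827) (nat_lit 0) .nil) .nil))) 
(.lf (nat_lit 527035) (.g (nat_lit 1992) (.e (nat_lit 221198) (nat_lit 20) (.e (nat_lit 3242) (nat_lit 197) (.e (nat_lit 532499) (nat_lit 1) (.e (nat_lit 57927) (nat_lit 282) (.e (nat_lit 163875) (nat_lit 3) .nil))))) (.g (nat_lit 0) (.e (nat_lit 235680) (nat_lit 0) .nil) .nil)))) (.nd (nat_lit 9) 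
(.lf (nat_lit 526779) (.g (nat_lit 1900) (.e (nat_lit 221190) (nat_lit 11) (.e (nat_lit 336078) (nat_lit 9) (.e (nat_lit 336443) (nat_lit 32) (.e (nat_lit 466969) (nat_lit 21) (.e (nat_lit 164326) (nat_lit 230) .nil))))) (.g (nat_lit 0) (.e (nat_lit 235341) (nat_lit 0) .nil) .nil))) 
(.lf (nat_lit 527291) (.g (nat_lit 2359) (.e (nat_lit 221210) (nat_lit 22) (.e (nat_lit 196668) (nat_lit 14) (.e (nat_lit 73747) (nat_lit 3) (.e (nat_lit 516115) (nat_lit 1) (.e (nat_lit 164160) (nat_lit 152) .nil))))) (.g (nat_lit 0) (.e (nat_lit 237583) (nat_lit 0) .nil) .nil)))))) (.nd (nat_lit 7) (.nd (nat_lit 8) (.nd (nat_lit 9) 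
(.lf (nat_lit 526459) (.g (nat_lit 1469) (.e (nat_lit 213032) (nat_lit 11) (.e (nat_lit 24655) (nat_lit 13) (.e (nat_lit 393275) (nat_lit 23) (.e (nat_lit 426109) (nat_lit 1) (.e (nat_lit 164326) (nat_lit 230) .nil))))) (.g (nat_lit 0) (.e (nat_lit 234729) (nat_lit 0) .nil) .nil))) 
(.lf (nat_lit 526971) (.g (nat_lit 1628) (.e (nat_lit 221194) (nat_lit 11) (.e (nat_lit 336223) (nat_lit 13) (.e (nat_lit 393234) (nat_lit 17) (.e (nat_lit 7303) (nat_lit 388) .nil)))) (.g (nat_lit 0) (.e (nat_lit 235567) (nat_lit 0) .nil) .nil)))) (.nd (nat_lit 9) 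
(.lf (nat_lit 526715) (.g (nat_lit 1207) (.e (nat_lit 229120) (nat_lit 5) (.e (nat_lit 114698) (nat_lit 11) (.e (nat_lit 426197) (nat_lit 9) (.e (nat_lit 426540) (nat_lit 29) (.e (nat_lit 360192) (nat_lit 5) .nil))))) (.g (nat_lit 0) (.e (nat_lit 235276) (nat_lit 0) .nil) .nil))) 
(.lf (nat_lit 527227) (.g (nat_lit 2493) (.e (nat_lit 221210) (nat_lit 22) (.e (nat_lit 196656) (nat_lit 11) (.e (nat_lit 16425) (nat_lit 7) (.e (nat_lit 409617) (nat_lit 10) (.e (nat_lit 604) (nat_lit 45) (.e (nat_lit 532499) (nat_lit 1) (.e (nat_lit 57927) (nat_lit 282) (.e (nat_lit 163886) (nat_lit 5) .nil)))))))) (.g (nat_lit 1) (.e (nat_lit 237290) (nat_lit 0) .nil) .nil))))) 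
(.nd (nat_lit 8) (.nd (nat_lit 9) 
(.lf (nat_lit 526587) (.g (nat_lit 4005) (.e (nat_lit 213033) (nat_lit 12) (.e (nat_lit 163962) (nat_lit 25) (.e (nat_lit 532500) (nat_lit 1) (.e (nat_lit 57926) (nat_lit 282) (.e (nat_lit 163869) (nat_lit 2) (.e (nat_lit 196670) (nat_lit 14) (.e (nat_lit 73746) (nat_lit 3) (.e (nat_lit 516126) (nat_lit 2) .nil)))))))) (.g (nat_lit 1) (.e (nat_lit 235007) (nat_lit 0) .nil) .nil))) 
(.lf (nat_lit 527099) (.g (nat_lit 2275) (.e (nat_lit 221204) (nat_lit 20) (.e (nat_lit 3253) (nat_lit 197) (.e (nat_lit 532504) (nat_lit 1) (.e (nat_lit 57931) (nat_lit 282) (.e (nat_lit 163866) (nat_lit 2) .nil))))) (.g (nat_lit 0) (.e (nat_lit 235753) (nat_lit 0) .nil) .nil)))) (.nd (nat_lit 9) 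
(.lf (nat_lit 526843) (.g (nat_lit 2065) (.e (nat_lit 221193) (nat_lit 11) (.e (nat_lit 336074) (nat_lit 9) (.e (nat_lit 336443) (nat_lit 32) (.e (nat_lit 466969) (nat_lit 21) (.e (nat_lit 164329) (nat_lit 230) (.e (nat_lit 163885) (nat_lit 5) .nil)))))) (.g (nat_lit 1) (.e (nat_lit 235419) (nat_lit 0) .nil) .nil))) 
(.lf (nat_lit 527355) (.g (nat_lit 1035) (.e (nat_lit 221210) (nat_lit 22) (.e (nat_lit 196670) (nat_lit 14) (.e (nat_lit 73746) (nat_lit 3) (.e (nat_lit 516119) (nat_lit 1) .nil)))) (.g (nat_lit 0) (.e (nat_lit 238015) (nat_lit 0) .nil) .nil)))))))))) (.nd (nat_lit 3) (.nd (nat_lit 4) (.nd (nat_lit 5) (.nd (nat_lit 6) (.nd (nat_lit 7) (.nd (nat_lit 8) (.nd (nat_lit 9) 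
(.lf (nat_lit 526343) (.g (nat_lit 1522) (.e (nat_lit 213032) (nat_lit 11) (.e (nat_lit 24609) (nat_lit 3) (.e (nat_lit 98365) (nat_lit 26) (.e (nat_lit 426306) (nat_lit 12) (.e (nat_lit 475178) (nat_lit 24) .nil))))) (.g (nat_lit 0) (.e (nat_lit 234540) (nat_lit 0) .nil) .nil))) 
(.lf (nat_lit 526855) (.g (nat_lit 2202) (.e (nat_lit 221193) (nat_lit 11) (.e (nat_lit 336077) (nat_lit 9) (.e (nat_lit 336443) (nat_lit 32) (.e (nat_lit 466968) (nat_lit 21) (.e (nat_lit 164332) (nat_lit 230) (.e (nat_lit 163885) (nat_lit 5) .nil)))))) (.g (nat_lit 1) (.e (nat_lit 235431) (nat_lit 0) .nil) .nil)))) (.nd (nat_lit 9) 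
(.lf (nat_lit 526599) (.g (nat_lit 3046) (.e (nat_lit 213033) (nat_lit 12) (.e (nat_lit 163978) (nat_lit 30) (.e (nat_lit 573475) (nat_lit 12) (.e (nat_lit 57543) (nat_lit 47) .nil)))) (.g (nat_lit 0) (.e (nat_lit 235027) (nat_lit 0) .nil) .nil))) 
(.lf (nat_lit 527111) (.g (nat_lit 1037) (.e (nat_lit 221206) (nat_lit 21) (.e (nat_lit 164325) (nat_lit 230) (.e (nat_lit 163932) (nat_lit 17) (.e (nat_lit 474880) (nat_lit 13) .nil)))) (.g (nat_lit 0) (.e (nat_lit 235982) (nat_lit 0) .nil) .nil))))) (.nd (nat_lit 8) (.nd (nat_lit 9) 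
(.lf (nat_lit 526471) (.g (nat_lit 2494) (.e (nat_lit 213032) (nat_lit 11) (.e (nat_lit 24655) (nat_lit 13) (.e (nat_lit 393291) (nat_lit 26) (.e (nat_lit 475214) (nat_lit 42) (.e (nat_lit 728832) (nat_lit 4) .nil))))) (.g (nat_lit 1) (.e (nat_lit 234745) (nat_lit 0) .nil) .nil))) 
(.lf (nat_lit 526983) (.g (nat_lit 968) (.e (nat_lit 229120) (nat_lit 11) (.e (nat_lit 336075) (nat_lit 9) (.e (nat_lit 336443) (nat_lit 32) (.e (nat_lit 466971) (nat_lit 21) .nil)))) (.g (nat_lit 0) (.e (nat_lit 235596) (nat_lit 0) .nil) .nil)))) (.nd (nat_lit 9) 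
(.lf (nat_lit 526727) (.g (nat_lit 1560) (.e (nat_lit 229120) (nat_lit 5) (.e (nat_lit 114698) (nat_lit 11) (.e (nat_lit 426200) (nat_lit 9) (.e (nat_lit 426502) (nat_lit 27) .nil)))) (.g (nat_lit 0) (.e (nat_lit 235288) (nat_lit 0) .nil) .nil))) 
(.lf (nat_lit 527239) (.g (nat_lit 1874) (.e (nat_lit 221210) (nat_lit 22) (.e (nat_lit 196656) (nat_lit 11) (.e (nat_lit 16448) (nat_lit 10) (.e (nat_lit 434234) (nat_lit 23) .nil)))) (.g (nat_lit 0) (.e (nat_lit 237344) (nat_lit 0) .nil) .nil)))))) (.nd (nat_lit 7) (.nd (nat_lit 8) (.nd (nat_lit 9) 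
(.lf (nat_lit 526407) (.g (nat_lit 447) (.e (nat_lit 213032) (nat_lit 11) (.e (nat_lit 24628) (nat_lit 9) (.e (nat_lit 336443) (nat_lit 32) .nil))) (.g (nat_lit 0) (.e (nat_lit 234644) (nat_lit 0) .nil) .nil))) 
(.lf (nat_lit 526919) (.g (nat_lit 1194) (.e (nat_lit 221194) (nat_lit 11) (.e (nat_lit 336077) (nat_lit 9) (.e (nat_lit 336443) (nat_lit 32) (.e (nat_lit 466970) (nat_lit 21) .nil)))) (.g (nat_lit 0) (.e (nat_lit 235515) (nat_lit 0) .nil) .nil)))) (.nd (nat_lit 9) 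
(.lf (nat_lit 526663) (.g (nat_lit 3374) (.e (nat_lit 213039) (nat_lit 14) (.e (nat_lit 2777) (nat_lit 178) (.e (nat_lit 286759) (nat_lit 12) (.e (nat_lit 385106) (nat_lit 50) (.e (nat_lit 786480) (nat_lit 29) (.e (nat_lit 360192) (nat_lit 4) .nil)))))) (.g (nat_lit 1) (.e (nat_lit 235145) (nat_lit 0) .nil) .nil))) 
(.lf (nat_lit 527175) (.g (nat_lit 1163) (.e (nat_lit 221208) (nat_lit 21) (.e (nat_lit 164330) (nat_lit 230) (.e (nat_lit 163902) (nat_lit 12) (.e (nat_lit 426254) (nat_lit 9) .nil)))) (.g (nat_lit 0) (.e (nat_lit 236869) (nat_lit 0) .nil) .nil))))) (.nd (nat_lit 8) (.nd (nat_lit 9) 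
(.lf (nat_lit 526535) (.g (nat_lit 645) (.e (nat_lit 213032) (nat_lit 11) (.e (nat_lit 24659) (nat_lit 13) (.e (nat_lit 393270) (nat_lit 23) (.e (nat_lit 426446) (nat_lit 20) .nil)))) (.g (nat_lit 0) (.e (nat_lit 234841) (nat_lit 0) .nil) .nil))) 
(.lf (nat_lit 527047) (.g (nat_lit 2259) (.e (nat_lit 221203) (nat_lit 20) (.e (nat_lit 3253) (nat_lit 197) (.e (nat_lit 532499) (nat_lit 1) (.e (nat_lit 57927) (nat_lit 282) (.e (nat_lit 163874) (nat_lit 3) .nil))))) (.g (nat_lit 0) (.e (nat_lit 235698) (nat_lit 0) .nil) .nil)))) (.nd (nat_lit 9) 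
(.lf (nat_lit 526791) (.g (nat_lit 1853) (.e (nat_lit 221191) (nat_lit 11) (.e (nat_lit 336153) (nat_lit 9) (.e (nat_lit 336442) (nat_lit 32) (.e (nat_lit 466969) (nat_lit 21) (.e (nat_lit 164327) (nat_lit 230) (.e (nat_lit 163886) (nat_lit 5) .nil)))))) (.g (nat_lit 1) (.e (nat_lit 235357) (nat_lit 0) .nil) .nil))) 
(.lf (nat_lit 527303) (.g (nat_lit 4406) (.e (nat_lit 221210) (nat_lit 22) (.e (nat_lit 196668) (nat_lit 14) (.e (nat_lit 73747) (nat_lit 3) (.e (nat_lit 516115) (nat_lit 1) (.e (nat_lit 164182) (nat_lit 154) (.e (nat_lit 57379) (nat_lit 3) (.e (nat_lit 98340) (nat_lit 20) .nil))))))) (.g (nat_lit 1) (.e (nat_lit 237656) (nat_lit 0) .nil) .nil))))))) 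
(.nd (nat_lit 6) (.nd (nat_lit 7) (.nd (nat_lit 8) (.nd (nat_lit 9) 
(.lf (nat_lit 526375) (.g (nat_lit 3103) (.e (nat_lit 213032) (nat_lit 11) (.e (nat_lit 24625) (nat_lit 9) (.e (nat_lit 336443) (nat_lit 32) (.e (nat_lit 466972) (nat_lit 21) (.e (nat_lit 164331) (nat_lit 230) (.e (nat_lit 163877) (nat_lit 4) .nil)))))) (.g (nat_lit 1) (.e (nat_lit 234579) (nat_lit 0) .nil) .nil))) 
(.lf (nat_lit 526887) (.g (nat_lit 2439) (.e (nat_lit 221194) (nat_lit 11) (.e (nat_lit 336012) (nat_lit 2) (.e (nat_lit 90172) (nat_lit 14) (.e (nat_lit 180291) (nat_lit 48) (.e (nat_lit 164096) (nat_lit 86) (.e (nat_lit 540416) (nat_lit 20) .nil)))))) (.g (nat_lit 1) (.e (nat_lit 235480) (nat_lit 0) .nil) .nil)))) (.nd (nat_lit 9) 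
(.lf (nat_lit 526631) (.g (nat_lit 4247) (.e (nat_lit 213035) (nat_lit 12) (.e (nat_lit 163964) (nat_lit 25) (.e (nat_lit 532499) (nat_lit 1) (.e (nat_lit 57927) (nat_lit 282) (.e (nat_lit 163869) (nat_lit 2) (.e (nat_lit 196670) (nat_lit 14) (.e (nat_lit 73746) (nat_lit 3) (.e (nat_lit 516127) (nat_lit 2) .nil)))))))) (.g (nat_lit 1) (.e (nat_lit 235093) (nat_lit 0) .nil) .nil))) 
(.lf (nat_lit 527143) (.g (nat_lit 1416) (.e (nat_lit 221207) (nat_lit 21) (.e (nat_lit 164325) (nat_lit 230) (.e (nat_lit 163903) (nat_lit 12) (.e (nat_lit 426229) (nat_lit 9) .nil)))) (.g (nat_lit 0) (.e (nat_lit 236445) (nat_lit 0) .nil) .nil))))) (.nd (nat_lit 8) (.nd (nat_lit 9) 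
(.lf (nat_lit 526503) (.g (nat_lit 752) (.e (nat_lit 213032) (nat_lit 11) (.e (nat_lit 24657) (nat_lit 13) (.e (nat_lit 401152) (nat_lit 23) (.e (nat_lit 426107) (nat_lit 1) (.e (nat_lit 164326) (nat_lit 230) .nil))))) (.g (nat_lit 0) (.e (nat_lit 234780) (nat_lit 0) .nil) .nil))) 
(.lf (nat_lit 527015) (.g (nat_lit 1950) (.e (nat_lit 229120) (nat_lit 17) (.e (nat_lit 385066) (nat_lit 26) (.e (nat_lit 532560) (nat_lit 14) (.e (nat_lit 376859) (nat_lit 21) (.e (nat_lit 57685) (nat_lit 156) .nil))))) (.g (nat_lit 0) (.e (nat_lit 235657) (nat_lit 0) .nil) .nil)))) (.nd (nat_lit 9) 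
(.lf (nat_lit 526759) (.g (nat_lit 2264) (.e (nat_lit 229120) (nat_lit 5) (.e (nat_lit 114698) (nat_lit 11) (.e (nat_lit 426335) (nat_lit 13) (.e (nat_lit 483346) (nat_lit 17) (.e (nat_lit 6445) (nat_lit 343) .nil))))) (.g (nat_lit 0) (.e (nat_lit 235321) (nat_lit 0) .nil) .nil))) 
(.lf (nat_lit 527271) (.g (nat_lit 1928) (.e (nat_lit 221210) (nat_lit 22) (.e (nat_lit 196668) (nat_lit 14) (.e (nat_lit 73746) (nat_lit 3) (.e (nat_lit 516117) (nat_lit 1) (.e (nat_lit 164180) (nat_lit 154) .nil))))) (.g (nat_lit 0) (.e (nat_lit 237504) (nat_lit 0) .nil) .nil)))))) (.nd (nat_lit 7) (.nd (nat_lit 8) (.nd (nat_lit 9) 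
(.lf (nat_lit 526439) (.g (nat_lit 1620) (.e (nat_lit 213032) (nat_lit 11) (.e (nat_lit 24630) (nat_lit 9) (.e (nat_lit 336443) (nat_lit 32) (.e (nat_lit 466970) (nat_lit 21) .nil)))) (.g (nat_lit 0) (.e (nat_lit 234688) (nat_lit 0) .nil) .nil))) 
(.lf (nat_lit 526951) (.g (nat_lit 662) (.e (nat_lit 221194) (nat_lit 11) (.e (nat_lit 336088) (nat_lit 9) (.e (nat_lit 336391) (nat_lit 27) .nil))) (.g (nat_lit 0) (.e (nat_lit 235547) (nat_lit 0) .nil) .nil)))) (.nd (nat_lit 9) 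
(.lf (nat_lit 526695) (.g (nat_lit 440) (.e (nat_lit 229120) (nat_lit 5) (.e (nat_lit 114696) (nat_lit 11) (.e (nat_lit 426230) (nat_lit 9) (.e (nat_lit 426554) (nat_lit 32) (.e (nat_lit 384768) (nat_lit 5) .nil))))) (.g (nat_lit 0) (.e (nat_lit 235248) (nat_lit 0) .nil) .nil))) 
(.lf (nat_lit 527207) (.g (nat_lit 1056) (.e (nat_lit 221208) (nat_lit 21) (.e (nat_lit 164402) (nat_lit 256) (.e (nat_lit 57427) (nat_lit 15) (.e (nat_lit 360474) (nat_lit 8) .nil)))) (.g (nat_lit 0) (.e (nat_lit 237119) (nat_lit 0) .nil) .nil))))) (.nd (nat_lit 8) (.nd (nat_lit 9) 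
(.lf (nat_lit 526567) (.g (nat_lit 2366) (.e (nat_lit 213032) (nat_lit 11) (.e (nat_lit 24661) (nat_lit 14) (.e (nat_lit 401454) (nat_lit 12) (.e (nat_lit 475209) (nat_lit 41) .nil)))) (.g (nat_lit 0) (.e (nat_lit 234883) (nat_lit 0) .nil) .nil))) 
(.lf (nat_lit 527079) (.g (nat_lit 2355) (.e (nat_lit 221204) (nat_lit 20) (.e (nat_lit 3253) (nat_lit 197) (.e (nat_lit 532501) (nat_lit 1) (.e (nat_lit 57852) (nat_lit 252) (.e (nat_lit 57378) (nat_lit 3) .nil))))) (.g (nat_lit 0) (.e (nat_lit 235733) (nat_lit 0) .nil) .nil)))) (.nd (nat_lit 9) 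
(.lf (nat_lit 526823) (.g (nat_lit 1971) (.e (nat_lit 221192) (nat_lit 11) (.e (nat_lit 336153) (nat_lit 9) (.e (nat_lit 336442) (nat_lit 32) (.e (nat_lit 466972) (nat_lit 21) (.e (nat_lit 164330) (nat_lit 230) (.e (nat_lit 163884) (nat_lit 5) .nil)))))) (.g (nat_lit 1) (.e (nat_lit 235390) (nat_lit 0) .nil) .nil))) 
(.lf (nat_lit 527335) (.g (nat_lit 1772) (.e (nat_lit 221210) (nat_lit 22) (.e (nat_lit 196668) (nat_lit 14) (.e (nat_lit 73747) (nat_lit 3) (.e (nat_lit 516120) (nat_lit 1) (.e (nat_lit 164183) (nat_lit 154) .nil))))) (.g (nat_lit 0) (.e (nat_lit 237848) (nat_lit 0) .nil) .nil)))))))) (.nd (nat_lit 5) (.nd (nat_lit 6) (.nd (nat_lit 7) (.nd (nat_lit 8) (.nd (nat_lit 9) 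
(.lf (nat_lit 526359) (.g (nat_lit 1116) (.e (nat_lit 213032) (nat_lit 11) (.e (nat_lit 24625) (nat_lit 9) (.e (nat_lit 336434) (nat_lit 30) (.e (nat_lit 450564) (nat_lit 0) .nil)))) (.g (nat_lit 0) (.e (nat_lit 234563) (nat_lit 0) .nil) .nil))) 
(.lf (nat_lit 526871) (.g (nat_lit 3291) (.e (nat_lit 221193) (nat_lit 11) (.e (nat_lit 336084) (nat_lit 9) (.e (nat_lit 336443) (nat_lit 32) (.e (nat_lit 466972) (nat_lit 21) (.e (nat_lit 164332) (nat_lit 230) (.e (nat_lit 163885) (nat_lit 5) .nil)))))) (.g (nat_lit 1) (.e (nat_lit 235447) (nat_lit 0) .nil) .nil)))) (.nd (nat_lit 9) 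
(.lf (nat_lit 526615) (.g (nat_lit 1993) (.e (nat_lit 213034) (nat_lit 12) (.e (nat_lit 163964) (nat_lit 25) (.e (nat_lit 532499) (nat_lit 1) (.e (nat_lit 57926) (nat_lit 282) (.e (nat_lit 163869) (nat_lit 2) .nil))))) (.g (nat_lit 0) (.e (nat_lit 235063) (nat_lit 0) .nil) .nil))) 
(.lf (nat_lit 527127) (.g (nat_lit 535) (.e (nat_lit 221206) (nat_lit 21) (.e (nat_lit 164331) (nat_lit 230) (.e (nat_lit 163915) (nat_lit 12) .nil))) (.g (nat_lit 0) (.e (nat_lit 236190) (nat_lit 0) .nil) .nil))))) (.nd (nat_lit 8) (.nd (nat_lit 9) 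
(.lf (nat_lit 526487) (.g (nat_lit 2376) (.e (nat_lit 213032) (nat_lit 11) (.e (nat_lit 24656) (nat_lit 13) (.e (nat_lit 393281) (nat_lit 23) (.e (nat_lit 426100) (nat_lit 1) (.e (nat_lit 164330) (nat_lit 230) (.e (nat_lit 163880) (nat_lit 4) .nil)))))) (.g (nat_lit 1) (.e (nat_lit 234764) (nat_lit 0) .nil) .nil))) 
(.lf (nat_lit 526999) (.g (nat_lit 1986) (.e (nat_lit 229120) (nat_lit 11) (.e (nat_lit 336454) (nat_lit 34) (.e (nat_lit 483403) (nat_lit 26) (.e (nat_lit 385066) (nat_lit 26) (.e (nat_lit 540416) (nat_lit 20) .nil))))) (.g (nat_lit 0) (.e (nat_lit 235637) (nat_lit 0) .nil) .nil)))) (.nd (nat_lit 9) 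
(.lf (nat_lit 526743) (.g (nat_lit 828) (.e (nat_lit 229120) (nat_lit 5) (.e (nat_lit 114698) (nat_lit 11) (.e (nat_lit 426326) (nat_lit 13) (.e (nat_lit 483391) (nat_lit 23) .nil)))) (.g (nat_lit 0) (.e (nat_lit 235304) (nat_lit 0) .nil) .nil))) 
(.lf (nat_lit 527255) (.g (nat_lit 1589) (.e (nat_lit 221210) (nat_lit 22) (.e (nat_lit 196666) (nat_lit 13) (.e (nat_lit 65571) (nat_lit 3) (.e (nat_lit 98333) (nat_lit 18) .nil)))) (.g (nat_lit 0) (.e (nat_lit 237413) (nat_lit 0) .nil) .nil)))))) (.nd (nat_lit 7) (.nd (nat_lit 8) (.nd (nat_lit 9) 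
(.lf (nat_lit 526423) (.g (nat_lit 1964) (.e (nat_lit 213032) (nat_lit 11) (.e (nat_lit 24629) (nat_lit 9) (.e (nat_lit 336432) (nat_lit 30) (.e (nat_lit 450565) (nat_lit 0) (.e (nat_lit 5224) (nat_lit 296) (.e (nat_lit 163879) (nat_lit 4) .nil)))))) (.g (nat_lit 1) (.e (nat_lit 234661) (nat_lit 0) .nil) .nil))) 
(.lf (nat_lit 526935) (.g (nat_lit 314) (.e (nat_lit 221194) (nat_lit 11) (.e (nat_lit 336087) (nat_lit 9) (.e (nat_lit 336366) (nat_lit 27) .nil))) (.g (nat_lit 0) (.e (nat_lit 235531) (nat_lit 0) .nil) .nil)))) (.nd (nat_lit 9) 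
(.lf (nat_lit 526679) (.g (nat_lit 1114) (.e (nat_lit 229120) (nat_lit 2) (.e (nat_lit 90160) (nat_lit 11) (.e (nat_lit 24657) (nat_lit 13) (.e (nat_lit 401152) (nat_lit 9) .nil)))) (.g (nat_lit 0) (.e (nat_lit 235225) (nat_lit 0) .nil) .nil))) 
(.lf (nat_lit 527191) (.g (nat_lit 1552) (.e (nat_lit 221208) (nat_lit 21) (.e (nat_lit 164332) (nat_lit 230) (.e (nat_lit 163905) (nat_lit 12) (.e (nat_lit 426233) (nat_lit 9) (.e (nat_lit 426554) (nat_lit 32) .nil))))) (.g (nat_lit 0) (.e (nat_lit 237071) (nat_lit 0) .nil) .nil))))) (.nd (nat_lit 8) (.nd (nat_lit 9) 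
(.lf (nat_lit 526551) (.g (nat_lit 1701) (.e (nat_lit 213032) (nat_lit 11) (.e (nat_lit 24660) (nat_lit 13) (.e (nat_lit 393267) (nat_lit 23) (.e (nat_lit 426446) (nat_lit 20) (.e (nat_lit 122624) (nat_lit 4) .nil))))) (.g (nat_lit 1) (.e (nat_lit 234860) (nat_lit 0) .nil) .nil))) 
(.lf (nat_lit 527063) (.g (nat_lit 2068) (.e (nat_lit 221204) (nat_lit 20) (.e (nat_lit 3253) (nat_lit 197) (.e (nat_lit 532499) (nat_lit 1) (.e (nat_lit 57926) (nat_lit 282) (.e (nat_lit 163869) (nat_lit 2) .nil))))) (.g (nat_lit 0) (.e (nat_lit 235717) (nat_lit 0) .nil) .nil)))) (.nd (nat_lit 9) 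
(.lf (nat_lit 526807) (.g (nat_lit 1771) (.e (nat_lit 221192) (nat_lit 11) (.e (nat_lit 336152) (nat_lit 9) (.e (nat_lit 336442) (nat_lit 32) (.e (nat_lit 466972) (nat_lit 21) (.e (nat_lit 164329) (nat_lit 230) (.e (nat_lit 163884) (nat_lit 5) .nil)))))) (.g (nat_lit 1) (.e (nat_lit 235374) (nat_lit 0) .nil) .nil))) 
(.lf (nat_lit 527319) (.g (nat_lit 2324) (.e (nat_lit 221210) (nat_lit 22) (.e (nat_lit 196668) (nat_lit 14) (.e (nat_lit 73747) (nat_lit 3) (.e (nat_lit 516119) (nat_lit 1) (.e (nat_lit 164160) (nat_lit 152) .nil))))) (.g (nat_lit 0) (.e (nat_lit 237754) (nat_lit 0) .nil) .nil))))))) (.nd (nat_lit 6) (.nd (nat_lit 7) (.nd (nat_lit 8) (.nd (nat_lit 9) 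
(.lf (nat_lit 526391) (.g (nat_lit 641) (.e (nat_lit 213032) (nat_lit 11) (.e (nat_lit 24627) (nat_lit 9) (.e (nat_lit 336434) (nat_lit 30) .nil))) (.g (nat_lit 0) (.e (nat_lit 234595) (nat_lit 0) .nil) .nil))) 
(.lf (nat_lit 526903) (.g (nat_lit 3308) (.e (nat_lit 221194) (nat_lit 11) (.e (nat_lit 336074) (nat_lit 9) (.e (nat_lit 336443) (nat_lit 32) (.e (nat_lit 466971) (nat_lit 21) (.e (nat_lit 164331) (nat_lit 230) (.e (nat_lit 163884) (nat_lit 5) .nil)))))) (.g (nat_lit 1) (.e (nat_lit 235499) (nat_lit 0) .nil) .nil)))) (.nd (nat_lit 9) 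
(.lf (nat_lit 526647) (.g (nat_lit 3099) (.e (nat_lit 213035) (nat_lit 12) (.e (nat_lit 163979) (nat_lit 30) (.e (nat_lit 573474) (nat_lit 12) (.e (nat_lit 57546) (nat_lit 47) .nil)))) (.g (nat_lit 0) (.e (nat_lit 235124) (nat_lit 0) .nil) .nil))) 
(.lf (nat_lit 527159) (.g (nat_lit 1294) (.e (nat_lit 221207) (nat_lit 21) (.e (nat_lit 164331) (nat_lit 230) (.e (nat_lit 163920) (nat_lit 14) (.e (nat_lit 450304) (nat_lit 16) .nil)))) (.g (nat_lit 0) (.e (nat_lit 236643) (nat_lit 0) .nil) .nil))))) (.nd (nat_lit 8) (.nd (nat_lit 9) 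
(.lf (nat_lit 526519) (.g (nat_lit 2951) (.e (nat_lit 213032) (nat_lit 11) (.e (nat_lit 24658) (nat_lit 13) (.e (nat_lit 393281) (nat_lit 23) (.e (nat_lit 426108) (nat_lit 1) (.e (nat_lit 164330) (nat_lit 230) (.e (nat_lit 163877) (nat_lit 4) .nil)))))) (.g (nat_lit 1) (.e (nat_lit 234818) (nat_lit 0) .nil) .nil))) 
(.lf (nat_lit 527031) (.g (nat_lit 2507) (.e (nat_lit 221195) (nat_lit 20) (.e (nat_lit 3238) (nat_lit 197) (.e (nat_lit 532500) (nat_lit 1) (.e (nat_lit 57927) (nat_lit 282) (.e (nat_lit 163868) (nat_lit 2) .nil))))) (.g (nat_lit 0) (.e (nat_lit 235674) (nat_lit 0) .nil) .nil)))) (.nd (nat_lit 9) 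
(.lf (nat_lit 526775) (.g (nat_lit 448) (.e (nat_lit 221190) (nat_lit 11) (.e (nat_lit 336076) (nat_lit 9) (.e (nat_lit 336443) (nat_lit 32) .nil))) (.g (nat_lit 0) (.e (nat_lit 235337) (nat_lit 0) .nil) .nil))) 
(.lf (nat_lit 527287) (.g (nat_lit 2274) (.e (nat_lit 221210) (nat_lit 22) (.e (nat_lit 196668) (nat_lit 14) (.e (nat_lit 73747) (nat_lit 3) (.e (nat_lit 516097) (nat_lit 0) (.e (nat_lit 3460) (nat_lit 216) .nil))))) (.g (nat_lit 0) (.e (nat_lit 237576) (nat_lit 0) .nil) .nil)))))) (.nd (nat_lit 7) (.nd (nat_lit 8) (.nd (nat_lit 9) 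
(.lf (nat_lit 526455) (.g (nat_lit 475) (.e (nat_lit 213032) (nat_lit 11) (.e (nat_lit 24655) (nat_lit 13) (.e (nat_lit 393273) (nat_lit 23) .nil))) (.g (nat_lit 0) (.e (nat_lit 234725) (nat_lit 0) .nil) .nil))) 
(.lf (nat_lit 526967) (.g (nat_lit 641) (.e (nat_lit 221194) (nat_lit 11) (.e (nat_lit 336203) (nat_lit 12) (.e (nat_lit 385109) (nat_lit 51) .nil))) (.g (nat_lit 0) (.e (nat_lit 235563) (nat_lit 0) .nil) .nil)))) (.nd (nat_lit 9) 
(.lf (nat_lit 526711) (.g (nat_lit 1104) (.e (nat_lit 229120) (nat_lit 5) (.e (nat_lit 114698) (nat_lit 11) (.e (nat_lit 426196) (nat_lit 9) (.e (nat_lit 426540) (nat_lit 29) (.e (nat_lit 360192) (nat_lit 5) .nil))))) (.g (nat_lit 0) (.e (nat_lit 235271) (nat_lit 0) .nil) .nil))) 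
(.lf (nat_lit 527223) (.g (nat_lit 2446) (.e (nat_lit 221210) (nat_lit 22) (.e (nat_lit 196654) (nat_lit 11) (.e (nat_lit 16459) (nat_lit 12) (.e (nat_lit 475179) (nat_lit 24) (.e (nat_lit 524032) (nat_lit 18) .nil))))) (.g (nat_lit 0) (.e (nat_lit 237267) (nat_lit 0) .nil) .nil))))) (.nd (nat_lit 8) (.nd (nat_lit 9) 
(.lf (nat_lit 526583) (.g (nat_lit 587) (.e (nat_lit 220928) (nat_lit 11) (.e (nat_lit 24608) (nat_lit 3) (.e (nat_lit 98381) (nat_lit 31) .nil))) (.g (nat_lit 0) (.e (nat_lit 235000) (nat_lit 0) .nil) .nil))) 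
(.lf (nat_lit 527095) (.g (nat_lit 2373) (.e (nat_lit 221204) (nat_lit 20) (.e (nat_lit 3253) (nat_lit 197) (.e (nat_lit 532504) (nat_lit 1) (.e (nat_lit 57852) (nat_lit 252) (.e (nat_lit 57378) (nat_lit 3) .nil))))) (.g (nat_lit 0) (.e (nat_lit 235749) (nat_lit 0) .nil) .nil)))) (.nd (nat_lit 9) 
(.lf (nat_lit 526839) (.g (nat_lit 811) (.e (nat_lit 221193) (nat_lit 11) (.e (nat_lit 336027) (nat_lit 3) (.e (nat_lit 98380) (nat_lit 31) (.e (nat_lit 474880) (nat_lit 3) .nil)))) (.g (nat_lit 0) (.e (nat_lit 235415) (nat_lit 0) .nil) .nil))) 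
(.lf (nat_lit 527351) (.g (nat_lit 2800) (.e (nat_lit 221210) (nat_lit 22) (.e (nat_lit 196670) (nat_lit 14) (.e (nat_lit 73746) (nat_lit 3) (.e (nat_lit 516117) (nat_lit 1) (.e (nat_lit 164181) (nat_lit 154) (.e (nat_lit 57379) (nat_lit 3) (.e (nat_lit 98340) (nat_lit 20) .nil))))))) (.g (nat_lit 1) (.e (nat_lit 237979) (nat_lit 0) .nil) .nil))))))))) 
(.nd (nat_lit 4) (.nd (nat_lit 5) (.nd (nat_lit 6) (.nd (nat_lit 7) (.nd (nat_lit 8) 
(.nd (nat_lit 9) 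
(.lf (nat_lit 526351) (.g (nat_lit 2993) (.e (nat_lit 213032) (nat_lit 11) (.e (nat_lit 24624) (nat_lit 9) (.e (nat_lit 336443) (nat_lit 32) (.e (nat_lit 466969) (nat_lit 21) (.e (nat_lit 164326) (nat_lit 230) (.e (nat_lit 163882) (nat_lit 4) .nil)))))) (.g (nat_lit 1) (.e (nat_lit 234550) (nat_lit 0) .nil) .nil))) 
(.lf (nat_lit 526863) (.g (nat_lit 1880) (.e (nat_lit 221193) (nat_lit 11) (.e (nat_lit 336077) (nat_lit 9) (.e (nat_lit 336443) (nat_lit 32) (.e (nat_lit 466971) (nat_lit 21) (.e (nat_lit 164329) (nat_lit 230) (.e (nat_lit 163884) (nat_lit 5) .nil)))))) (.g (nat_lit 1) (.e (nat_lit 235439) (nat_lit 0) .nil) .nil)))) (.nd (nat_lit 9) 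
(.lf (nat_lit 526607) (.g (nat_lit 3015) (.e (nat_lit 213033) (nat_lit 12) (.e (nat_lit 163979) (nat_lit 30) (.e (nat_lit 573474) (nat_lit 12) (.e (nat_lit 57544) (nat_lit 47) .nil)))) (.g (nat_lit 0) (.e (nat_lit 235046) (nat_lit 0) .nil) .nil))) 
(.lf (nat_lit 527119) (.g (nat_lit 1523) (.e (nat_lit 221206) (nat_lit 21) (.e (nat_lit 164330) (nat_lit 230) (.e (nat_lit 163905) (nat_lit 12) (.e (nat_lit 426227) (nat_lit 9) (.e (nat_lit 433920) (nat_lit 29) (.e (nat_lit 360192) (nat_lit 5) .nil)))))) (.g (nat_lit 1) (.e (nat_lit 236084) (nat_lit 0) .nil) .nil))))) (.nd (nat_lit 8) (.nd (nat_lit 9) 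
(.lf (nat_lit 526479) (.g (nat_lit 1237) (.e (nat_lit 213032) (nat_lit 11) (.e (nat_lit 24655) (nat_lit 13) (.e (nat_lit 393296) (nat_lit 26) (.e (nat_lit 475213) (nat_lit 42) .nil)))) (.g (nat_lit 0) (.e (nat_lit 234756) (nat_lit 0) .nil) .nil))) 
(.lf (nat_lit 526991) (.g (nat_lit 1558) (.e (nat_lit 229120) (nat_lit 11) (.e (nat_lit 336454) (nat_lit 34) (.e (nat_lit 483380) (nat_lit 23) (.e (nat_lit 336324) (nat_lit 18) (.e (nat_lit 212736) (nat_lit 3) .nil))))) (.g (nat_lit 0) (.e (nat_lit 235629) (nat_lit 0) .nil) .nil)))) (.nd (nat_lit 9) 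
(.lf (nat_lit 526735) (.g (nat_lit 1314) (.e (nat_lit 229120) (nat_lit 5) (.e (nat_lit 114698) (nat_lit 11) (.e (nat_lit 426315) (nat_lit 12) (.e (nat_lit 483072) (nat_lit 8) .nil)))) (.g (nat_lit 0) (.e (nat_lit 235296) (nat_lit 0) .nil) .nil))) 
(.lf (nat_lit 527247) (.g (nat_lit 3277) (.e (nat_lit 221210) (nat_lit 22) (.e (nat_lit 196666) (nat_lit 13) (.e (nat_lit 65569) (nat_lit 3) (.e (nat_lit 98334) (nat_lit 18) (.e (nat_lit 164182) (nat_lit 154) (.e (nat_lit 57379) (nat_lit 3) (.e (nat_lit 98340) (nat_lit 20) .nil))))))) (.g (nat_lit 1) (.e (nat_lit 237398) (nat_lit 0) .nil) .nil)))))) 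
(.nd (nat_lit 7) (.nd (nat_lit 8) (.nd (nat_lit 9) 
(.lf (nat_lit 526415) (.g (nat_lit 1000) (.e (nat_lit 213032) (nat_lit 11) (.e (nat_lit 24628) (nat_lit 9) (.e (nat_lit 336443) (nat_lit 32) (.e (nat_lit 466972) (nat_lit 21) .nil)))) (.g (nat_lit 0) (.e (nat_lit 234653) (nat_lit 0) .nil) .nil))) 
(.lf (nat_lit 526927) (.g (nat_lit 2819) (.e (nat_lit 221194) (nat_lit 11) (.e (nat_lit 336084) (nat_lit 9) (.e (nat_lit 336443) (nat_lit 32) (.e (nat_lit 466969) (nat_lit 21) (.e (nat_lit 164325) (nat_lit 230) (.e (nat_lit 163885) (nat_lit 5) .nil)))))) (.g (nat_lit 1) (.e (nat_lit 235523) (nat_lit 0) .nil) .nil)))) (.nd (nat_lit 9) 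
(.lf (nat_lit 526671) (.g (nat_lit 939) (.e (nat_lit 229120) (nat_lit 2) (.e (nat_lit 90157) (nat_lit 11) (.e (nat_lit 24657) (nat_lit 13) (.e (nat_lit 401152) (nat_lit 9) .nil)))) (.g (nat_lit 0) (.e (nat_lit 235215) (nat_lit 0) .nil) .nil))) 
(.lf (nat_lit 527183) (.g (nat_lit 875) (.e (nat_lit 221208) (nat_lit 21) (.e (nat_lit 164330) (nat_lit 230) (.e (nat_lit 163916) (nat_lit 13) .nil))) (.g (nat_lit 0) (.e (nat_lit 236921) (nat_lit 0) .nil) .nil))))) (.nd (nat_lit 8) (.nd (nat_lit 9) 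
(.lf (nat_lit 526543) (.g (nat_lit 1724) (.e (nat_lit 213032) (nat_lit 11) (.e (nat_lit 24659) (nat_lit 13) (.e (nat_lit 393282) (nat_lit 24) (.e (nat_lit 434209) (nat_lit 18) (.e (nat_lit 5224) (nat_lit 296) (.e (nat_lit 163882) (nat_lit 4) .nil)))))) (.g (nat_lit 1) (.e (nat_lit 234849) (nat_lit 0) .nil) .nil))) 
(.lf (nat_lit 527055) (.g (nat_lit 1694) (.e (nat_lit 221203) (nat_lit 20) (.e (nat_lit 3253) (nat_lit 197) (.e (nat_lit 532501) (nat_lit 1) (.e (nat_lit 57929) (nat_lit 282) .nil)))) (.g (nat_lit 0) (.e (nat_lit 235708) (nat_lit 0) .nil) .nil)))) (.nd (nat_lit 9) 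
(.lf (nat_lit 526799) (.g (nat_lit 2285) (.e (nat_lit 221192) (nat_lit 11) (.e (nat_lit 336017) (nat_lit 3) (.e (nat_lit 98365) (nat_lit 26) (.e (nat_lit 426306) (nat_lit 12) (.e (nat_lit 475177) (nat_lit 24) .nil))))) (.g (nat_lit 0) (.e (nat_lit 235366) (nat_lit 0) .nil) .nil))) 
(.lf (nat_lit 527311) (.g (nat_lit 2575) (.e (nat_lit 221210) (nat_lit 22) (.e (nat_lit 196668) (nat_lit 14) (.e (nat_lit 73747) (nat_lit 3) (.e (nat_lit 516117) (nat_lit 1) (.e (nat_lit 164180) (nat_lit 154) (.e (nat_lit 57379) (nat_lit 3) (.e (nat_lit 98340) (nat_lit 20) .nil))))))) (.g (nat_lit 1) (.e (nat_lit 237715) (nat_lit 0) .nil) .nil))))))) 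
(.nd (nat_lit 6) (.nd (nat_lit 7) (.nd (nat_lit 8) (.nd (nat_lit 9) 
(.lf (nat_lit 526383) (.g (nat_lit 3474) (.e (nat_lit 213032) (nat_lit 11) (.e (nat_lit 24626) (nat_lit 9) (.e (nat_lit 336443) (nat_lit 32) (.e (nat_lit 466969) (nat_lit 21) (.e (nat_lit 164332) (nat_lit 230) (.e (nat_lit 163880) (nat_lit 4) .nil)))))) (.g (nat_lit 1) (.e (nat_lit 234587) (nat_lit 0) .nil) .nil))) 
(.lf (nat_lit 526895) (.g (nat_lit 2116) (.e (nat_lit 221194) (nat_lit 11) (.e (nat_lit 336027) (nat_lit 3) (.e (nat_lit 98373) (nat_lit 29) (.e (nat_lit 450561) (nat_lit 0) .nil)))) (.g (nat_lit 0) (.e (nat_lit 235491) (nat_lit 0) .nil) .nil)))) (.nd (nat_lit 9) 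
(.lf (nat_lit 526639) (.g (nat_lit 2153) (.e (nat_lit 213035) (nat_lit 12) (.e (nat_lit 163978) (nat_lit 30) (.e (nat_lit 573478) (nat_lit 12) (.e (nat_lit 57530) (nat_lit 46) .nil)))) (.g (nat_lit 0) (.e (nat_lit 235110) (nat_lit 0) .nil) .nil))) 
(.lf (nat_lit 527151) (.g (nat_lit 1059) (.e (nat_lit 221207) (nat_lit 21) (.e (nat_lit 164325) (nat_lit 230) (.e (nat_lit 163932) (nat_lit 17) (.e (nat_lit 474880) (nat_lit 13) .nil)))) (.g (nat_lit 0) (.e (nat_lit 236555) (nat_lit 0) .nil) .nil))))) (.nd (nat_lit 8) (.nd (nat_lit 9) 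
(.lf (nat_lit 526511) (.g (nat_lit 818) (.e (nat_lit 213032) (nat_lit 11) (.e (nat_lit 24658) (nat_lit 13) (.e (nat_lit 393281) (nat_lit 23) (.e (nat_lit 426098) (nat_lit 1) .nil)))) (.g (nat_lit 0) (.e (nat_lit 234806) (nat_lit 0) .nil) .nil))) 
(.lf (nat_lit 527023) (.g (nat_lit 1277) (.e (nat_lit 229120) (nat_lit 17) (.e (nat_lit 385068) (nat_lit 26) (.e (nat_lit 532560) (nat_lit 14) (.e (nat_lit 376859) (nat_lit 21) .nil)))) (.g (nat_lit 0) (.e (nat_lit 235665) (nat_lit 0) .nil) .nil)))) (.nd (nat_lit 9) 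
(.lf (nat_lit 526767) (.g (nat_lit 2516) (.e (nat_lit 229120) (nat_lit 5) (.e (nat_lit 114698) (nat_lit 11) (.e (nat_lit 426335) (nat_lit 13) (.e (nat_lit 483392) (nat_lit 23) (.e (nat_lit 343808) (nat_lit 20) .nil))))) (.g (nat_lit 0) (.e (nat_lit 235329) (nat_lit 0) .nil) .nil))) 
(.lf (nat_lit 527279) (.g (nat_lit 2199) (.e (nat_lit 221210) (nat_lit 22) (.e (nat_lit 196668) (nat_lit 14) (.e (nat_lit 73746) (nat_lit 3) (.e (nat_lit 516120) (nat_lit 1) (.e (nat_lit 164180) (nat_lit 154) .nil))))) (.g (nat_lit 0) (.e (nat_lit 237550) (nat_lit 0) .nil) .nil)))))) (.nd (nat_lit 7) (.nd (nat_lit 8) (.nd (nat_lit 9) 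
(.lf (nat_lit 526447) (.g (nat_lit 1542) (.e (nat_lit 213032) (nat_lit 11) (.e (nat_lit 24655) (nat_lit 13) (.e (nat_lit 393266) (nat_lit 23) (.e (nat_lit 426109) (nat_lit 1) (.e (nat_lit 164326) (nat_lit 230) .nil))))) (.g (nat_lit 0) (.e (nat_lit 234717) (nat_lit 0) .nil) .nil))) 
(.lf (nat_lit 526959) (.g (nat_lit 2074) (.e (nat_lit 221194) (nat_lit 11) (.e (nat_lit 336088) (nat_lit 9) (.e (nat_lit 336415) (nat_lit 27) (.e (nat_lit 426188) (nat_lit 9) (.e (nat_lit 426448) (nat_lit 20) .nil))))) (.g (nat_lit 0) (.e (nat_lit 235555) (nat_lit 0) .nil) .nil)))) (.nd (nat_lit 9) 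
(.lf (nat_lit 526703) (.g (nat_lit 1421) (.e (nat_lit 229120) (nat_lit 5) (.e (nat_lit 114697) (nat_lit 11) (.e (nat_lit 426198) (nat_lit 9) (.e (nat_lit 426542) (nat_lit 29) (.e (nat_lit 360192) (nat_lit 5) .nil))))) (.g (nat_lit 0) (.e (nat_lit 235256) (nat_lit 0) .nil) .nil))) 
(.lf (nat_lit 527215) (.g (nat_lit 1224) (.e (nat_lit 221210) (nat_lit 22) (.e (nat_lit 196654) (nat_lit 11) (.e (nat_lit 16436) (nat_lit 9) (.e (nat_lit 426128) (nat_lit 2) .nil)))) (.g (nat_lit 0) (.e (nat_lit 237245) (nat_lit 0) .nil) .nil))))) (.nd (nat_lit 8) (.nd (nat_lit 9) 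
(.lf (nat_lit 526575) (.g (nat_lit 638) (.e (nat_lit 220928) (nat_lit 11) (.e (nat_lit 24608) (nat_lit 3) (.e (nat_lit 98363) (nat_lit 26) .nil))) (.g (nat_lit 0) (.e (nat_lit 234992) (nat_lit 0) .nil) .nil))) 
(.lf (nat_lit 527087) (.g (nat_lit 2355) (.e (nat_lit 221204) (nat_lit 20) (.e (nat_lit 3253) (nat_lit 197) (.e (nat_lit 532503) (nat_lit 1) (.e (nat_lit 57849) (nat_lit 252) (.e (nat_lit 57375) (nat_lit 2) .nil))))) (.g (nat_lit 0) (.e (nat_lit 235741) (nat_lit 0) .nil) .nil)))) (.nd (nat_lit 9) 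
(.lf (nat_lit 526831) (.g (nat_lit 1377) (.e (nat_lit 221193) (nat_lit 11) (.e (nat_lit 336027) (nat_lit 3) (.e (nat_lit 98354) (nat_lit 26) (.e (nat_lit 426317) (nat_lit 12) (.e (nat_lit 475177) (nat_lit 24) .nil))))) (.g (nat_lit 0) (.e (nat_lit 235407) (nat_lit 0) .nil) .nil))) 
(.lf (nat_lit 527343) (.g (nat_lit 2476) (.e (nat_lit 221210) (nat_lit 22) (.e (nat_lit 196670) (nat_lit 14) (.e (nat_lit 73746) (nat_lit 3) (.e (nat_lit 516115) (nat_lit 1) (.e (nat_lit 164181) (nat_lit 154) .nil))))) (.g (nat_lit 0) (.e (nat_lit 237932) (nat_lit 0) .nil) .nil)))))))) (.nd (nat_lit 5) (.nd (nat_lit 6) (.nd (nat_lit 7) (.nd (nat_lit 8) (.nd (nat_lit 9) 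
(.lf (nat_lit 526367) (.g (nat_lit 3004) (.e (nat_lit 213032) (nat_lit 11) (.e (nat_lit 24625) (nat_lit 9) (.e (nat_lit 336443) (nat_lit 32) (.e (nat_lit 466969) (nat_lit 21) (.e (nat_lit 164331) (nat_lit 230) (.e (nat_lit 163877) (nat_lit 4) .nil)))))) (.g (nat_lit 1) (.e (nat_lit 234571) (nat_lit 0) .nil) .nil))) 
(.lf (nat_lit 526879) (.g (nat_lit 2069) (.e (nat_lit 221194) (nat_lit 11) (.e (nat_lit 336012) (nat_lit 2) (.e (nat_lit 90172) (nat_lit 14) (.e (nat_lit 180285) (nat_lit 45) (.e (nat_lit 2422) (nat_lit 157) (.e (nat_lit 598) (nat_lit 45) (.e (nat_lit 540416) (nat_lit 20) .nil))))))) (.g (nat_lit 1) (.e (nat_lit 235472) (nat_lit 0) .nil) .nil)))) (.nd (nat_lit 9) 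
(.lf (nat_lit 526623) (.g (nat_lit 3017) (.e (nat_lit 213034) (nat_lit 12) (.e (nat_lit 163979) (nat_lit 30) (.e (nat_lit 573474) (nat_lit 12) (.e (nat_lit 57528) (nat_lit 46) .nil)))) (.g (nat_lit 0) (.e (nat_lit 235082) (nat_lit 0) .nil) .nil))) 
(.lf (nat_lit 527135) (.g (nat_lit 2341) (.e (nat_lit 221207) (nat_lit 21) (.e (nat_lit 164179) (nat_lit 154) (.e (nat_lit 57371) (nat_lit 2) (.e (nat_lit 90160) (nat_lit 11) (.e (nat_lit 24638) (nat_lit 9) .nil))))) (.g (nat_lit 0) (.e (nat_lit 236271) (nat_lit 0) .nil) .nil))))) (.nd (nat_lit 8) (.nd (nat_lit 9) 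
(.lf (nat_lit 526495) (.g (nat_lit 2721) (.e (nat_lit 213032) (nat_lit 11) (.e (nat_lit 24657) (nat_lit 13) (.e (nat_lit 393271) (nat_lit 23) (.e (nat_lit 426112) (nat_lit 1) (.e (nat_lit 164327) (nat_lit 230) (.e (nat_lit 163877) (nat_lit 4) .nil)))))) (.g (nat_lit 1) (.e (nat_lit 234772) (nat_lit 0) .nil) .nil))) 
(.lf (nat_lit 527007) (.g (nat_lit 1062) (.e (nat_lit 229120) (nat_lit 12) (.e (nat_lit 344107) (nat_lit 19) (.e (nat_lit 499811) (nat_lit 5) (.e (nat_lit 3004) (nat_lit 186) (.e (nat_lit 450304) (nat_lit 3) .nil))))) (.g (nat_lit 0) (.e (nat_lit 235647) (nat_lit 0) .nil) .nil)))) (.nd (nat_lit 9) 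
(.lf (nat_lit 526751) (.g (nat_lit 730) (.e (nat_lit 229120) (nat_lit 5) (.e (nat_lit 114698) (nat_lit 11) (.e (nat_lit 426333) (nat_lit 13) (.e (nat_lit 483391) (nat_lit 23) .nil)))) (.g (nat_lit 0) (.e (nat_lit 235313) (nat_lit 0) .nil) .nil))) 
(.lf (nat_lit 527263) (.g (nat_lit 2335) (.e (nat_lit 221210) (nat_lit 22) (.e (nat_lit 196668) (nat_lit 14) (.e (nat_lit 73746) (nat_lit 3) (.e (nat_lit 516115) (nat_lit 1) (.e (nat_lit 164153) (nat_lit 152) .nil))))) (.g (nat_lit 0) (.e (nat_lit 237469) (nat_lit 0) .nil) .nil)))))) (.nd (nat_lit 7) (.nd (nat_lit 8) (.nd (nat_lit 9) 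
(.lf (nat_lit 526431) (.g (nat_lit 2584) (.e (nat_lit 213032) (nat_lit 11) (.e (nat_lit 24629) (nat_lit 9) (.e (nat_lit 336443) (nat_lit 32) (.e (nat_lit 466971) (nat_lit 21) (.e (nat_lit 164322) (nat_lit 230) (.e (nat_lit 163878) (nat_lit 4) .nil)))))) (.g (nat_lit 1) (.e (nat_lit 234670) (nat_lit 0) .nil) .nil))) 
(.lf (nat_lit 526943) (.g (nat_lit 625) (.e (nat_lit 221194) (nat_lit 11) (.e (nat_lit 336088) (nat_lit 9) (.e (nat_lit 336370) (nat_lit 27) .nil))) (.g (nat_lit 0) (.e (nat_lit 235539) (nat_lit 0) .nil) .nil)))) (.nd (nat_lit 9) 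
(.lf (nat_lit 526687) (.g (nat_lit 2165) (.e (nat_lit 229120) (nat_lit 4) (.e (nat_lit 106536) (nat_lit 11) (.e (nat_lit 16432) (nat_lit 9) (.e (nat_lit 426555) (nat_lit 32) (.e (nat_lit 384768) (nat_lit 5) .nil))))) (.g (nat_lit 0) (.e (nat_lit 235239) (nat_lit 0) .nil) .nil))) 
(.lf (nat_lit 527199) (.g (nat_lit 3855) (.e (nat_lit 221208) (nat_lit 21) (.e (nat_lit 164402) (nat_lit 256) (.e (nat_lit 57424) (nat_lit 14) (.e (nat_lit 352312) (nat_lit 22) (.e (nat_lit 90160) (nat_lit 11) (.e (nat_lit 32512) (nat_lit 20) .nil)))))) (.g (nat_lit 1) (.e (nat_lit 237111) (nat_lit 0) .nil) .nil))))) (.nd (nat_lit 8) (.nd (nat_lit 9) 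
(.lf (nat_lit 526559) (.g (nat_lit 954) (.e (nat_lit 213032) (nat_lit 11) (.e (nat_lit 24660) (nat_lit 13) (.e (nat_lit 393284) (nat_lit 24) (.e (nat_lit 434209) (nat_lit 18) .nil)))) (.g (nat_lit 0) (.e (nat_lit 234873) (nat_lit 0) .nil) .nil))) 
(.lf (nat_lit 527071) (.g (nat_lit 1948) (.e (nat_lit 221204) (nat_lit 20) (.e (nat_lit 3253) (nat_lit 197) (.e (nat_lit 532499) (nat_lit 1) (.e (nat_lit 57927) (nat_lit 282) (.e (nat_lit 163874) (nat_lit 3) .nil))))) (.g (nat_lit 0) (.e (nat_lit 235725) (nat_lit 0) .nil) .nil)))) (.nd (nat_lit 9) 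
(.lf (nat_lit 526815) (.g (nat_lit 1559) (.e (nat_lit 221192) (nat_lit 11) (.e (nat_lit 336153) (nat_lit 9) (.e (nat_lit 336442) (nat_lit 32) (.e (nat_lit 466969) (nat_lit 21) (.e (nat_lit 164329) (nat_lit 230) (.e (nat_lit 163884) (nat_lit 5) .nil)))))) (.g (nat_lit 1) (.e (nat_lit 235382) (nat_lit 0) .nil) .nil))) 
(.lf (nat_lit 527327) (.g (nat_lit 2162) (.e (nat_lit 221210) (nat_lit 22) (.e (nat_lit 196668) (nat_lit 14) (.e (nat_lit 73747) (nat_lit 3) (.e (nat_lit 516120) (nat_lit 1) (.e (nat_lit 164158) (nat_lit 152) .nil))))) (.g (nat_lit 0) (.e (nat_lit 237835) (nat_lit 0) .nil) .nil))))))) (.nd (nat_lit 6) (.nd (nat_lit 7) (.nd (nat_lit 8) (.nd (nat_lit 9) 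
(.lf (nat_lit 526399) (.g (nat_lit 3308) (.e (nat_lit 213032) (nat_lit 11) (.e (nat_lit 24627) (nat_lit 9) (.e (nat_lit 336443) (nat_lit 32) (.e (nat_lit 466969) (nat_lit 21) (.e (nat_lit 164332) (nat_lit 230) (.e (nat_lit 163878) (nat_lit 4) .nil)))))) (.g (nat_lit 1) (.e (nat_lit 234603) (nat_lit 0) .nil) .nil))) 
(.lf (nat_lit 526911) (.g (nat_lit 3072) (.e (nat_lit 221194) (nat_lit 11) (.e (nat_lit 336075) (nat_lit 9) (.e (nat_lit 336443) (nat_lit 32) (.e (nat_lit 466972) (nat_lit 21) (.e (nat_lit 164322) (nat_lit 230) (.e (nat_lit 163885) (nat_lit 5) .nil)))))) (.g (nat_lit 1) (.e (nat_lit 235507) (nat_lit 0) .nil) .nil)))) (.nd (nat_lit 9) 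
(.lf (nat_lit 526655) (.g (nat_lit 4761) (.e (nat_lit 213036) (nat_lit 13) (.e (nat_lit 229433) (nat_lit 25) (.e (nat_lit 532501) (nat_lit 1) (.e (nat_lit 57927) (nat_lit 282) (.e (nat_lit 163869) (nat_lit 2) (.e (nat_lit 196670) (nat_lit 14) (.e (nat_lit 73746) (nat_lit 3) (.e (nat_lit 516127) (nat_lit 2) .nil)))))))) (.g (nat_lit 1) (.e (nat_lit 235136) (nat_lit 0) .nil) .nil))) 
(.lf (nat_lit 527167) (.g (nat_lit 701) (.e (nat_lit 221207) (nat_lit 21) (.e (nat_lit 164332) (nat_lit 230) (.e (nat_lit 163932) (nat_lit 17) .nil))) (.g (nat_lit 0) (.e (nat_lit 236681) (nat_lit 0) .nil) .nil))))) (.nd (nat_lit 8) (.nd (nat_lit 9) 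
(.lf (nat_lit 526527) (.g (nat_lit 2494) (.e (nat_lit 213032) (nat_lit 11) (.e (nat_lit 24658) (nat_lit 13) (.e (nat_lit 393294) (nat_lit 26) (.e (nat_lit 475214) (nat_lit 42) (.e (nat_lit 728832) (nat_lit 4) .nil))))) (.g (nat_lit 1) (.e (nat_lit 234831) (nat_lit 0) .nil) .nil))) 
(.lf (nat_lit 527039) (.g (nat_lit 2216) (.e (nat_lit 221202) (nat_lit 20) (.e (nat_lit 3249) (nat_lit 197) (.e (nat_lit 532499) (nat_lit 1) (.e (nat_lit 57926) (nat_lit 282) (.e (nat_lit 163869) (nat_lit 2) .nil))))) (.g (nat_lit 0) (.e (nat_lit 235690) (nat_lit 0) .nil) .nil)))) (.nd (nat_lit 9) 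
(.lf (nat_lit 526783) (.g (nat_lit 2212) (.e (nat_lit 221190) (nat_lit 11) (.e (nat_lit 336078) (nat_lit 9) (.e (nat_lit 336443) (nat_lit 32) (.e (nat_lit 466971) (nat_lit 21) (.e (nat_lit 164327) (nat_lit 230) (.e (nat_lit 163886) (nat_lit 5) .nil)))))) (.g (nat_lit 1) (.e (nat_lit 235345) (nat_lit 0) .nil) .nil))) 
(.lf (nat_lit 527295) (.g (nat_lit 2227) (.e (nat_lit 221210) (nat_lit 22) (.e (nat_lit 196668) (nat_lit 14) (.e (nat_lit 73747) (nat_lit 3) (.e (nat_lit 516115) (nat_lit 1) (.e (nat_lit 164178) (nat_lit 154) .nil))))) (.g (nat_lit 0) (.e (nat_lit 237598) (nat_lit 0) .nil) .nil)))))) (.nd (nat_lit 7) (.nd (nat_lit 8) (.nd (nat_lit 9) 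
(.lf (nat_lit 526463) (.g (nat_lit 1023) (.e (nat_lit 213032) (nat_lit 11) (.e (nat_lit 24655) (nat_lit 13) (.e (nat_lit 393280) (nat_lit 23) (.e (nat_lit 426100) (nat_lit 1) .nil)))) (.g (nat_lit 0) (.e (nat_lit 234733) (nat_lit 0) .nil) .nil))) 
(.lf (nat_lit 526975) (.g (nat_lit 1178) (.e (nat_lit 229120) (nat_lit 11) (.e (nat_lit 336019) (nat_lit 3) (.e (nat_lit 98342) (nat_lit 20) (.e (nat_lit 221219) (nat_lit 24) .nil)))) (.g (nat_lit 0) (.e (nat_lit 235588) (nat_lit 0) .nil) .nil)))) (.nd (nat_lit 9) 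
(.lf (nat_lit 526719) (.g (nat_lit 1405) (.e (nat_lit 229120) (nat_lit 5) (.e (nat_lit 114698) (nat_lit 11) (.e (nat_lit 426198) (nat_lit 9) (.e (nat_lit 426540) (nat_lit 29) (.e (nat_lit 360192) (nat_lit 5) .nil))))) (.g (nat_lit 0) (.e (nat_lit 235280) (nat_lit 0) .nil) .nil))) 
(.lf (nat_lit 527231) (.g (nat_lit 3351) (.e (nat_lit 221210) (nat_lit 22) (.e (nat_lit 196656) (nat_lit 11) (.e (nat_lit 16436) (nat_lit 9) (.e (nat_lit 426131) (nat_lit 3) (.e (nat_lit 204852) (nat_lit 26) (.e (nat_lit 336337) (nat_lit 20) .nil)))))) (.g (nat_lit 1) (.e (nat_lit 237300) (nat_lit 0) .nil) .nil))))) (.nd (nat_lit 8) (.nd (nat_lit 9) 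
(.lf (nat_lit 526591) (.g (nat_lit 2214) (.e (nat_lit 213033) (nat_lit 12) (.e (nat_lit 163976) (nat_lit 30) (.e (nat_lit 573474) (nat_lit 12) (.e (nat_lit 57527) (nat_lit 46) (.e (nat_lit 704590) (nat_lit 3) .nil))))) (.g (nat_lit 0) (.e (nat_lit 235014) (nat_lit 0) .nil) .nil))) 
(.lf (nat_lit 527103) (.g (nat_lit 287) (.e (nat_lit 221206) (nat_lit 21) (.e (nat_lit 164322) (nat_lit 230) (.e (nat_lit 163931) (nat_lit 17) .nil))) (.g (nat_lit 0) (.e (nat_lit 235820) (nat_lit 0) .nil) .nil)))) (.nd (nat_lit 9) 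
(.lf (nat_lit 526847) (.g (nat_lit 2129) (.e (nat_lit 221193) (nat_lit 11) (.e (nat_lit 336074) (nat_lit 9) (.e (nat_lit 336443) (nat_lit 32) (.e (nat_lit 466972) (nat_lit 21) (.e (nat_lit 164329) (nat_lit 230) (.e (nat_lit 163885) (nat_lit 5) .nil)))))) (.g (nat_lit 1) (.e (nat_lit 235423) (nat_lit 0) .nil) .nil))) 
(.lf (nat_lit 527359) (.g (nat_lit 2553) (.e (nat_lit 221210) (nat_lit 22) (.e (nat_lit 196670) (nat_lit 14) (.e (nat_lit 73746) (nat_lit 3) (.e (nat_lit 516119) (nat_lit 1) (.e (nat_lit 164180) (nat_lit 154) (.e (nat_lit 57379) (nat_lit 3) (.e (nat_lit 98340) (nat_lit 20) .nil))))))) (.g (nat_lit 1) (.e (nat_lit 238058) (nat_lit 0) .nil) .nil)))))))))))))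


end

end Pool.Agent.Lib.MP_5854e1_co.Cz
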